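import Pool.Agent.Lib_TTT.Defs

/-!
Symmetries: permutations of the coordinates, and the exchange of the values `1` and `2`
(which commutes with `Fin.rev`).
-/

set_option autoImplicit false

namespace Pool.Agent.Lib_TTT

variable {d : ℕ}

/-- A bijection that maps lines to lines. -/
def LineMap (φ : Pt d ≃ Pt d) : Prop := ∀ e : Finset (Pt d), IsLn e → IsLn (e.image φ)

theorem LineMap.symm {φ : Pt d ≃ Pt d} (h : LineMap φ) : LineMap φ.symm := by
  let F : {e : Finset (Pt d) // IsLn e} → {e : Finset (Pt d) // IsLn e} :=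
    fun e => ⟨e.1.image φ, h e.1 e.2⟩
  have hF : Function.Injective F := by
    intro a b hab
    have h1 : a.1.image φ = b.1.image φ := congrArg Subtype.val hab
    exact Subtype.ext (Finset.image_injective φ.injective h1)
  have hs : Function.Surjective F := Finite.injective_iff_surjective.1 hF
  intro e he
  obtain ⟨e', he'⟩ := hs ⟨e, he⟩
  have h1 : e'.1.image φ = e := congrArg Subtype.val he'
  have h2 : e.image φ.symm = e'.1 := by
    rw [← h1, Finset.image_image]
    have h3 : (φ.symm : Pt d → Pt d) ∘ φ = id := by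
      funext x
      exact φ.symm_apply_apply x
    rw [h3, Finset.image_id]
  rw [h2]
  exact e'.2

private theorem Auto_mem (φ : Pt d ≃ Pt d) {P : Finset (Pt d)} {x : Pt d} (h : x ∉ P) :
    φ x ∉ P.image φ := by
  rwa [φ.injective.mem_finset_image]

private theorem Auto_mem' (φ : Pt d ≃ Pt d) {P : Finset (Pt d)} {m x : Pt d}
    (h : x ∉ insert m P) : φ x ∉ insert (φ m) (P.image φ) := by
  rw [← Finset.image_insert]
  exact Auto_mem φ h

private theorem Auto_inv (φ : Pt d ≃ Pt d) {P : Finset (Pt d)} {m x : Pt d}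
    (h : φ x ∉ insert (φ m) (P.image φ)) : x ∉ insert m P := by
  rw [← Finset.image_insert, φ.injective.mem_finset_image] at h
  exact h

private theorem Auto_sub (φ : Pt d ≃ Pt d) {P e : Finset (Pt d)} {m : Pt d}
    (h : e ⊆ insert m P) : e.image φ ⊆ insert (φ m) (P.image φ) := by
  rw [← Finset.image_insert]
  exact Finset.image_subset_image h

private theorem Auto_sub' (φ : Pt d ≃ Pt d) {P e : Finset (Pt d)} {m f : Pt d}
    (h : e ⊆ insert f (insert m P)) :
    e.image φ ⊆ insert (φ f) (insert (φ m) (P.image φ)) := by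
  rw [← Finset.image_insert, ← Finset.image_insert]
  exact Finset.image_subset_image h

private theorem Auto_D {φ : Pt d ≃ Pt d} (h : LineMap φ) {P Q : Finset (Pt d)} {m : Pt d}
    (hD : ∀ r, r ∉ insert m P → r ∉ Q → ∀ e, IsLn e → ¬ e ⊆ insert r Q) :
    ∀ r, r ∉ insert (φ m) (P.image φ) → r ∉ Q.image φ → ∀ e, IsLn e →
      ¬ e ⊆ insert r (Q.image φ) := by
  intro r hr hr' e he hsub
  obtain ⟨x, rfl⟩ := φ.surjective r
  rw [φ.injective.mem_finset_image] at hr'
  refine hD x (Auto_inv φ hr) hr' _ (h.symm e he) ?_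
  have h1 := Auto_sub φ.symm hsub
  have h3 : (φ.symm : Pt d → Pt d) ∘ φ = id := by
    funext x
    exact φ.symm_apply_apply x
  rw [Finset.image_image, h3, Finset.image_id, φ.symm_apply_apply] at h1
  exact h1

theorem WinA.map {φ : Pt d ≃ Pt d} (h : LineMap φ) {P Q : Finset (Pt d)} (hW : WinA P Q) :
    WinA (P.image φ) (Q.image φ) := by
  induction hW with
  | fin P Q m e hmP hmQ he hs =>
    exact WinA.fin _ _ (φ m) (e.image φ) (Auto_mem φ hmP) (Auto_mem φ hmQ) (h e he)
      (Auto_sub φ hs)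
  | mv P Q m hmP hmQ hex hD hA ih =>
    refine WinA.mv _ _ (φ m) (Auto_mem φ hmP) (Auto_mem φ hmQ) ?_ (Auto_D h hD) ?_
    · obtain ⟨r, hr, hr'⟩ := hex
      exact ⟨φ r, Auto_mem' φ hr, Auto_mem φ hr'⟩
    · intro r hr hr'
      obtain ⟨x, rfl⟩ := φ.surjective r
      rw [φ.injective.mem_finset_image] at hr'
      have h1 := ih x (Auto_inv φ hr) hr'
      rw [Finset.image_insert, Finset.image_insert] at h1
      exact h1

theorem Vcf.map {φ : Pt d ≃ Pt d} (h : LineMap φ) {P Q : Finset (Pt d)} (hW : Vcf P Q) :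
    Vcf (P.image φ) (Q.image φ) := by
  induction hW with
  | win P Q m e hmP hmQ he hs =>
    exact Vcf.win _ _ (φ m) (e.image φ) (Auto_mem φ hmP) (Auto_mem φ hmQ) (h e he)
      (Auto_sub φ hs)
  | thr P Q m f e hmP hmQ hfP hfQ he hs hD hA ih =>
    refine Vcf.thr _ _ (φ m) (φ f) (e.image φ) (Auto_mem φ hmP) (Auto_mem φ hmQ)
      (Auto_mem' φ hfP) (Auto_mem φ hfQ) (h e he) (Auto_sub' φ hs) (Auto_D h hD) ?_
    rw [Finset.image_insert, Finset.image_insert] at ih
    exact ih

theorem TA.map {φ : Pt d ≃ Pt d} (h : LineMap φ) {P Q : Finset (Pt d)} (hW : TA P Q) :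
    TA (P.image φ) (Q.image φ) := by
  induction hW with
  | vcf P Q hV => exact TA.vcf _ _ (Vcf.map h hV)
  | frc P Q m f e hmP hmQ hfP hfQ he hs hD hA ih =>
    refine TA.frc _ _ (φ m) (φ f) (e.image φ) (Auto_mem φ hmP) (Auto_mem φ hmQ)
      (Auto_mem' φ hfP) (Auto_mem φ hfQ) (h e he) (Auto_sub' φ hs) (Auto_D h hD) ?_
    rw [Finset.image_insert, Finset.image_insert] at ih
    exact ih
  | mv P Q m hmP hmQ hD hV hA ih =>
    refine TA.mv _ _ (φ m) (Auto_mem φ hmP) (Auto_mem φ hmQ) (Auto_D h hD) ?_ ?_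
    · have h1 := Vcf.map h hV
      rw [Finset.image_insert] at h1
      exact h1
    · intro r hr hr'
      obtain ⟨x, rfl⟩ := φ.surjective r
      rw [φ.injective.mem_finset_image] at hr'
      have h1 := ih x (Auto_inv φ hr) hr'
      rw [Finset.image_insert, Finset.image_insert] at h1
      exact h1

/-- The permutation of the coordinates: `x ↦ x ∘ π`. -/
def permPt (π : Equiv.Perm (Fin d)) : Pt d ≃ Pt d := Equiv.arrowCongr π.symm (Equiv.refl _)

theorem permPt_apply (π : Equiv.Perm (Fin d)) (x : Pt d) : permPt π x = fun i => x (π i) := by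
  funext i
  simp [permPt]

theorem lineMap_perm (π : Equiv.Perm (Fin d)) : LineMap (permPt π) := by
  rintro e ⟨f, h1, ⟨j, i, i', h2⟩, rfl⟩
  refine ⟨fun i j => f i (π j), fun j => h1 (π j), ⟨π.symm j, i, i', ?_⟩, ?_⟩
  · show f i (π (π.symm j)) ≠ f i' (π (π.symm j))
    rw [π.apply_symm_apply]
    exact h2
  · rw [Finset.image_image]
    congr 1

/-- The exchange of `1` and `2`. -/
def sg : Equiv.Perm (Fin 4) := Equiv.swap 1 2

/-- The exchange of the values `1` and `2` in all coordinates. -/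
def sgPt (d : ℕ) : Pt d ≃ Pt d := Equiv.arrowCongr (Equiv.refl _) sg

theorem sgPt_apply (x : Pt d) : sgPt d x = fun i => sg (x i) := by
  funext i
  simp [sgPt]

private theorem Auto_sg_sg : ∀ i : Fin 4, sg (sg i) = i := by
  decide

private theorem Auto_sg_rev : ∀ i : Fin 4, sg (Fin.rev (sg i)) = Fin.rev i := by
  decide

theorem lineMap_sg : LineMap (sgPt d) := by
  rintro e ⟨f, h1, ⟨j, i, i', h2⟩, rfl⟩
  refine ⟨fun i j => sg (f (sg i) j), fun j => ?_, ⟨j, sg i, sg i', ?_⟩, ?_⟩
  · rcases h1 j with h | h | h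
    · left
      intro i i'
      show sg (f (sg i) j) = sg (f (sg i') j)
      rw [h (sg i) (sg i')]
    · right; left
      intro i
      show sg (f (sg i) j) = i
      rw [h, Auto_sg_sg]
    · right; right
      intro i
      show sg (f (sg i) j) = Fin.rev i
      rw [h, Auto_sg_rev]
  · intro h3
    apply h2
    have h4 := sg.injective h3
    rw [Auto_sg_sg, Auto_sg_sg] at h4
    exact h4
  · rw [Finset.image_image]
    ext y
    simp only [Finset.mem_image, Finset.mem_univ, true_and, Function.comp_apply, sgPt_apply]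
    constructor
    · rintro ⟨k, rfl⟩
      exact ⟨sg k, by rw [Auto_sg_sg]⟩
    · rintro ⟨k, rfl⟩
      exact ⟨sg k, rfl⟩

end Pool.Agent.Lib_TTT
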