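import Pool.Agent.Lib_TTT.Block
import Pool.Agent.Lib_TTT.Auto

/-!
Special points, the interface to the certificates, and one step of the strategy.
-/

set_option autoImplicit false

namespace Pool.Agent.Lib_TTT

variable {d k : ℕ}

/-- The point with the value `u` at `i0` and `c` everywhere else. -/
def V2 (i0 : Fin d) (u c : Fin 4) : Pt d := fun x => if x = i0 then u else c

/-- The point with the values `u` at `i0`, `v` at `i1` and `c` everywhere else. -/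
def V3 (i0 i1 : Fin d) (u v c : Fin 4) : Pt d :=
  fun x => if x = i0 then u else if x = i1 then v else c

/-- The third stone in the case `Lev`. -/
def pL (i0 : Fin d) (q : Pt d) : Pt d := fun x => if x = i0 then 3 else if q x = 2 then 0 else 3

/-- Besides `i0`, `q` takes only the values `1` and `2`, and `q i0 = 2`. -/
def Lev (i0 : Fin d) (q : Pt d) : Prop := q i0 = 2 ∧ ∀ x, x ≠ i0 → q x = 1 ∨ q x = 2

/-- `q` is not constant besides `i0`. -/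
def NC (i0 : Fin d) (q : Pt d) : Prop := ∃ x y, x ≠ i0 ∧ y ≠ i0 ∧ q x ≠ q y

/-- A certified position. -/
def Won (P Q : Finset (Pt k)) : Prop := TA P Q ∧ Disjoint P Q

theorem emb_V2 (ℓ : Fin d → Fin k) (i0 : Fin d) (j0 : Fin k) (h : ∀ x, ℓ x = j0 ↔ x = i0)
    (u c : Fin 4) : emb ℓ (V2 j0 u c) = V2 i0 u c := by
  funext x
  simp only [emb, V2, h]

theorem emb_V3 (ℓ : Fin d → Fin k) (i0 i1 : Fin d) (j0 j1 : Fin k) (h : ∀ x, ℓ x = j0 ↔ x = i0)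
    (h' : ∀ x, ℓ x = j1 ↔ x = i1) (u v c : Fin 4) : emb ℓ (V3 j0 j1 u v c) = V3 i0 i1 u v c := by
  funext x
  simp only [emb, V3, h, h']

theorem emb_pL (ℓ : Fin d → Fin k) (i0 : Fin d) (j0 : Fin k) (h : ∀ x, ℓ x = j0 ↔ x = i0)
    (q : Pt k) : emb ℓ (pL j0 q) = pL i0 (emb ℓ q) := by
  funext x
  by_cases hx : x = i0 <;> simp [emb, pL, h, hx]

/-- A function that is constant on the blocks comes from the representatives. -/
theorem emb_rep (ℓ : Fin d → Fin k) (J : Fin k → Fin d) (q : Pt d)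
    (h : ∀ x, q (J (ℓ x)) = q x) : emb ℓ (fun i => q (J i)) = q := by
  funext x
  exact h x

/-- The first player plays `m`; the second player has at most two stones, so his answer completes
no line. -/
theorem win_step (hd : 4 ≤ d) (P Q : Finset (Pt d)) (m : Pt d) (hmP : m ∉ P) (hmQ : m ∉ Q)
    (hP : P.card ≤ 10) (hQ : Q.card ≤ 2)
    (h : ∀ r, r ∉ insert m P → r ∉ Q → WinA (insert m P) (insert r Q)) : WinA P Q := by
  have hline : ∀ e : Finset (Pt d), IsLn e → e.card = 4 := fun e he => card_line he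
  refine WinA.mv P Q m hmP hmQ ?_ ?_ h
  · by_contra hcon
    push Not at hcon
    have hsub : (Finset.univ : Finset (Pt d)) ⊆ insert m P ∪ Q := by
      intro r _
      by_cases hr : r ∈ insert m P
      · exact Finset.mem_union_left _ hr
      · exact Finset.mem_union_right _ (hcon r hr)
    have h1 := Finset.card_le_card hsub
    have h2 := Finset.card_union_le (insert m P) Q
    have h3 := Finset.card_insert_le m P
    have h4 : (Finset.univ : Finset (Pt d)).card = 4 ^ d := by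
      simp [Finset.card_univ]
    have h5 : 4 ^ 4 ≤ 4 ^ d := Nat.pow_le_pow_right (by norm_num) hd
    have h6 : 4 ^ 4 = 256 := by norm_num
    omega
  · intro r _ _ e he hsub
    have h1 := Finset.card_le_card hsub
    have h2 := Finset.card_insert_le r Q
    have h3 := hline e he
    omega

/-- Certificates for the positions with `q₁ = V2 i0 A0 A` after the second move. -/
structure CovS (A0 A B0 B : Fin 4) (bad : List (Fin 4 × Fin 4)) : Prop where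
  four : ∀ q : Pt 4, q ≠ V2 0 0 0 → q ≠ V2 0 B0 B → q ≠ V2 0 A0 A →
    (∀ c ∈ bad, q ≠ V2 0 c.1 c.2) → Won {V2 0 0 0, V2 0 B0 B} {V2 0 A0 A, q}
  five : ∀ q : Pt 5, q 1 = 0 → q 2 = 1 → q 3 = 2 → q 4 = 3 →
    Won {V2 0 0 0, V2 0 B0 B} {V2 0 A0 A, q}

/-- Certificates for the positions with `q₁ = V2 i0 A0 A`, `q₂ = V2 i0 C0 C` after the third
move. -/
structure CovS2 (A0 A B0 B C0 C D0 D1 D : Fin 4) : Prop where
  four : ∀ q : Pt 4, q ≠ V2 0 0 0 → q ≠ V2 0 B0 B → q ≠ V3 0 1 D0 D1 D → q ≠ V2 0 A0 A →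
    q ≠ V2 0 C0 C → Won {V2 0 0 0, V2 0 B0 B, V3 0 1 D0 D1 D} {V2 0 A0 A, V2 0 C0 C, q}
  five : ∀ q : Pt 5, q 2 < q 3 → q 3 < q 4 →
    Won {V2 0 0 0, V2 0 B0 B, V3 0 1 D0 D1 D} {V2 0 A0 A, V2 0 C0 C, q}
  alone : Won ({V2 0 0 0, V2 0 B0 B, V3 0 1 D0 D1 D} : Finset (Pt 4)) {V2 0 A0 A, V2 0 C0 C}

/-- Certificates for the general positions after the second move. -/
structure CovG1 : Prop where
  four : ∀ q1 q2 : Pt 4, q1 0 ≠ 0 → NC 0 q1 → q2 ≠ q1 → (∀ c, q2 ≠ V2 0 0 c) →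
    Won {V2 0 0 0, V2 0 0 3} {q1, q2}
  five : ∀ q1 q2 : Pt 5, q1 0 ≠ 0 → q2 ≠ q1 → (∀ c, q2 ≠ V2 0 0 c) →
    ExcP (fun i => q1 i.succ) (fun i => q2 i.succ) → Won {V2 0 0 0, V2 0 0 3} {q1, q2}
  three : ∀ q : Pt 3, q 1 < q 2 → Won {V2 0 0 0, V2 0 0 3} {q}
  alone : Won ({V2 0 0 0, V2 0 0 3} : Finset (Pt 3)) ∅

/-- Certificates for the general positions with `q₂ = V2 i0 0 2` after the third move. -/
structure CovG2 : Prop where
  four : ∀ q1 q3 : Pt 4, q1 0 ≠ 0 → NC 0 q1 → ¬ Lev 0 q1 → q3 ≠ V2 0 0 0 → q3 ≠ V2 0 0 3 →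
    q3 ≠ V2 0 1 2 → q3 ≠ q1 → q3 ≠ V2 0 0 2 →
    Won {V2 0 0 0, V2 0 0 3, V2 0 1 2} {q1, V2 0 0 2, q3}
  five : ∀ q1 q3 : Pt 5, q1 0 ≠ 0 → ¬ Lev 0 q1 → q3 ≠ V2 0 0 0 → q3 ≠ V2 0 0 3 →
    q3 ≠ V2 0 1 2 → q3 ≠ q1 → q3 ≠ V2 0 0 2 →
    ExcP (fun i => q1 i.succ) (fun i => q3 i.succ) →
    Won {V2 0 0 0, V2 0 0 3, V2 0 1 2} {q1, V2 0 0 2, q3}
  three : ∀ q : Pt 3, q 0 ≠ 0 → q 1 < q 2 → ¬ Lev 0 q →
    Won {V2 0 0 0, V2 0 0 3, V2 0 1 2} {q, V2 0 0 2}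
  three' : ∀ q : Pt 3, q 1 < q 2 → Won {V2 0 0 0, V2 0 0 3, V2 0 1 2} {V2 0 0 2, q}
  alone : Won ({V2 0 0 0, V2 0 0 3, V2 0 1 2} : Finset (Pt 3)) {V2 0 0 2}
  fourL : ∀ q1 q3 : Pt 4, Lev 0 q1 → NC 0 q1 → q3 ≠ V2 0 0 0 → q3 ≠ V2 0 0 3 →
    q3 ≠ pL 0 q1 → q3 ≠ q1 → q3 ≠ V2 0 0 2 →
    Won {V2 0 0 0, V2 0 0 3, pL 0 q1} {q1, V2 0 0 2, q3}
  fiveL : ∀ q1 q3 : Pt 5, Lev 0 q1 → q3 ≠ V2 0 0 0 → q3 ≠ V2 0 0 3 →
    q3 ≠ pL 0 q1 → q3 ≠ q1 → q3 ≠ V2 0 0 2 →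
    ExcP (fun i => q1 i.succ) (fun i => q3 i.succ) →
    Won {V2 0 0 0, V2 0 0 3, pL 0 q1} {q1, V2 0 0 2, q3}
  threeL : ∀ q : Pt 3, Lev 0 q → q 1 < q 2 →
    Won {V2 0 0 0, V2 0 0 3, pL 0 q} {q, V2 0 0 2}

end Pool.Agent.Lib_TTT
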