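import Pool.Agent.Lib_TTT.Block

/-!
Choice of the blocks, see `Block.lean`.
-/

set_option autoImplicit false

namespace Pool.Agent.Lib_TTT

variable {d : ℕ}

private theorem block2_tri (P : Fin d → Prop) (b : Fin d → Fin 4) (h : ∃ x, P x) :
    (∃ x y z, P x ∧ P y ∧ P z ∧ b x ≠ b y ∧ b x ≠ b z ∧ b y ≠ b z) ∨
    (∃ x y, P x ∧ P y ∧ b x < b y ∧ ∀ z, P z → b z = b x ∨ b z = b y) ∨
    (∃ x, P x ∧ ∀ z, P z → b z = b x) := by
  obtain ⟨x, hx⟩ := h
  by_cases h1 : ∀ z, P z → b z = b x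
  · exact Or.inr (Or.inr ⟨x, hx, h1⟩)
  push Not at h1
  obtain ⟨y, hy, hyx⟩ := h1
  by_cases h2 : ∀ z, P z → b z = b x ∨ b z = b y
  · refine Or.inr (Or.inl ?_)
    rcases lt_or_gt_of_ne hyx with h | h
    · exact ⟨y, x, hy, hx, h, fun z hz => (h2 z hz).symm⟩
    · exact ⟨x, y, hx, hy, h, h2⟩
  · push Not at h2
    obtain ⟨z, hz, hzx, hzy⟩ := h2
    exact Or.inl ⟨x, y, z, hx, hy, hz, hyx.symm, hzx.symm, hzy.symm⟩

private theorem block2_cr3 : ∀ p q r : Fin 4, p ≠ q → p ≠ r → q ≠ r → Cr p q p r := by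
  unfold Cr
  decide

private theorem block2_cr : ∀ p q r s : Fin 4, p < q → r < s → ¬ Cr p q r s →
    (r = p ∧ s = q) ∨ (r = Fin.rev q ∧ s = Fin.rev p) := by
  unfold Cr
  decide

/-- the three blocks `{i0}`, level `u`, level `v` -/
private theorem block2_three (a b : Fin d → Fin 4) (i0 : Fin d) (u v : Fin 4) (huv : u < v)
    (ha : ∀ x, x ≠ i0 → a x = u ∨ a x = v) (hu : ∃ x, x ≠ i0 ∧ a x = u)
    (hv : ∃ x, x ≠ i0 ∧ a x = v)
    (hc : ∃ i j i' j', i ≠ i0 ∧ j ≠ i0 ∧ i' ≠ i0 ∧ j' ≠ i0 ∧ a i = a j ∧ a i' = a j' ∧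
      Cr (b i) (b j) (b i') (b j')) :
    (∃ (J : Fin 3 → Fin d) (ℓ : Fin d → Fin 3), Inside 3 a a i0 J ℓ ∧ a (J 1) < a (J 2) ∧
      Cross ℓ b) := by
  classical
  obtain ⟨xu, hxu, hxu'⟩ := hu
  obtain ⟨xv, hxv, hxv'⟩ := hv
  have huv' : u ≠ v := ne_of_lt huv
  set ℓ : Fin d → Fin 3 := fun x => if x = i0 then 0 else if a x = u then 1 else 2 with hℓ
  have hkey : ∀ x, a (![i0, xu, xv] (ℓ x)) = a x := by
    intro x
    simp only [hℓ]
    split_ifs with h0 h1
    · simp [h0]
    · simp [h1, hxu']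
    · rcases ha x h0 with h | h
      · exact absurd h h1
      · simp [h, hxv']
  refine ⟨![i0, xu, xv], ℓ, ⟨rfl, ?_, ?_, hkey, hkey⟩, ?_, ?_⟩
  · intro i
    fin_cases i
    · simp [hℓ]
    · simp [hℓ, hxu, hxu']
    · simp [hℓ, hxv, hxv', huv'.symm]
  · intro x hx
    by_contra hne0
    simp only [hℓ, hne0, if_false] at hx
    split_ifs at hx <;> simp_all
  · simp [hxu', hxv', huv]
  · obtain ⟨i, j, i', j', h1, h2, h3, h4, h5, h6, h7⟩ := hc
    refine ⟨i, j, i', j', ?_, ?_, h7⟩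
    · simp [hℓ, h1, h2, h5]
    · simp [hℓ, h3, h4, h6]

/-- Besides `i0`, `a` takes exactly two values `u < v`. Let `B u`, `B v` be the sets of values of
`b` on the level sets of `a` (without `i0`). If `|B u| + |B v| ≤ 3`: four blocks
(`inside4_of_card`). If one of them has three elements: the blocks are `{i0}` and the level sets,
and `b` takes three values on one block (`Cross`). Otherwise `|B u| = |B v| = 2`; if the two
pairs are neither equal nor reversed, the same three blocks have `Cross`; otherwise the five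
blocks are `{i0}` and the four classes (exceptional pattern). -/
theorem block2 (hd : 4 ≤ d) (a b : Fin d → Fin 4) (i0 : Fin d) (u v : Fin 4) (huv : u < v)
    (ha : ∀ x, x ≠ i0 → a x = u ∨ a x = v) (hu : ∃ x, x ≠ i0 ∧ a x = u)
    (hv : ∃ x, x ≠ i0 ∧ a x = v) :
    (∃ (J : Fin 4 → Fin d) (ℓ : Fin d → Fin 4), Inside 4 a b i0 J ℓ) ∨
    (∃ (J : Fin 5 → Fin d) (ℓ : Fin d → Fin 5), Inside 5 a b i0 J ℓ ∧
      ExcP (fun i => a (J i.succ)) (fun i => b (J i.succ))) ∨
    (∃ (J : Fin 3 → Fin d) (ℓ : Fin d → Fin 3), Inside 3 a a i0 J ℓ ∧ a (J 1) < a (J 2) ∧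
      Cross ℓ b) := by
  classical
  have huv' : u ≠ v := ne_of_lt huv
  have hT3 : ∀ S : Finset (Fin 4 × Fin 4), S.card ≤ 3 →
      (∀ x, x ≠ i0 → (a x, b x) ∈ S) →
      ∃ (J : Fin 4 → Fin d) (ℓ : Fin d → Fin 4), Inside 4 a b i0 J ℓ := by
    intro S hS hx
    refine inside4_of_card hd a b i0 (le_trans (Finset.card_le_card ?_) hS)
    intro t ht
    rw [Finset.mem_image] at ht
    obtain ⟨x, hx1, rfl⟩ := ht
    rw [Finset.mem_filter] at hx1
    exact hx x hx1.2
  have tu := block2_tri (fun x => x ≠ i0 ∧ a x = u) b hu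
  have tv := block2_tri (fun x => x ≠ i0 ∧ a x = v) b hv
  rcases tu with ⟨x, y, z, hx, hy, hz, hxy, hxz, hyz⟩ | hu2
  · refine Or.inr (Or.inr (block2_three a b i0 u v huv ha hu hv
      ⟨x, y, x, z, hx.1, hy.1, hx.1, hz.1, ?_, ?_, block2_cr3 _ _ _ hxy hxz hyz⟩))
    · rw [hx.2, hy.2]
    · rw [hx.2, hz.2]
  rcases tv with ⟨x, y, z, hx, hy, hz, hxy, hxz, hyz⟩ | hv2
  · refine Or.inr (Or.inr (block2_three a b i0 u v huv ha hu hv
      ⟨x, y, x, z, hx.1, hy.1, hx.1, hz.1, ?_, ?_, block2_cr3 _ _ _ hxy hxz hyz⟩))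
    · rw [hx.2, hy.2]
    · rw [hx.2, hz.2]
  rcases hu2 with ⟨x, y, hx, hy, hxy, hub⟩ | ⟨x, hx, hub⟩
  · rcases hv2 with ⟨z, w, hz, hw, hzw, hvb⟩ | ⟨z, hz, hvb⟩
    · by_cases hcr : Cr (b x) (b y) (b z) (b w)
      · refine Or.inr (Or.inr (block2_three a b i0 u v huv ha hu hv
          ⟨x, y, z, w, hx.1, hy.1, hz.1, hw.1, ?_, ?_, hcr⟩))
        · rw [hx.2, hy.2]
        · rw [hz.2, hw.2]
      · have hexc := block2_cr _ _ _ _ hxy hzw hcr
        refine Or.inr (Or.inl ?_)
        have hxy' : b x ≠ b y := ne_of_lt hxy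
        have hzw' : b z ≠ b w := ne_of_lt hzw
        set ℓ : Fin d → Fin 5 := fun t => if t = i0 then 0 else if a t = u then
          (if b t = b x then 1 else 2) else (if b t = b z then 3 else 4) with hℓ
        have hkey : ∀ t, a (![i0, x, y, z, w] (ℓ t)) = a t ∧
            b (![i0, x, y, z, w] (ℓ t)) = b t := by
          intro t
          simp only [hℓ]
          split_ifs with h0 h1 h2 h3
          · simp [h0]
          · simp [h1, h2, hx.2]
          · rcases hub t ⟨h0, h1⟩ with h | h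
            · exact absurd h h2
            · simp [h1, h, hy.2]
          · rcases ha t h0 with h | h
            · exact absurd h h1
            · simp [h, h3, hz.2]
          · rcases ha t h0 with h | h
            · exact absurd h h1
            · rcases hvb t ⟨h0, h⟩ with h' | h'
              · exact absurd h' h3
              · simp [h, h', hw.2]
        refine ⟨![i0, x, y, z, w], ℓ, ⟨rfl, ?_, ?_, fun t => (hkey t).1, fun t => (hkey t).2⟩, ?_⟩
        · intro i
          fin_cases i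
          · simp [hℓ]
          · simp [hℓ, hx.1, hx.2]
          · simp [hℓ, hy.1, hy.2, hxy'.symm]
          · simp [hℓ, hz.1, hz.2, huv'.symm]
          · simp [hℓ, hw.1, hw.2, huv'.symm, hzw'.symm]
        · intro t ht
          by_contra hne0
          simp only [hℓ, hne0, if_false] at ht
          split_ifs at ht <;> simp_all
        · refine Or.inl ⟨?_, ?_, ?_, ?_, ?_, ?_⟩
          · change a x = a y
            rw [hx.2, hy.2]
          · change a z = a w
            rw [hz.2, hw.2]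
          · change a x < a z
            rw [hx.2, hz.2]
            exact huv
          · exact hxy
          · exact hzw
          · exact hexc
    · refine Or.inl (hT3 {(u, b x), (u, b y), (v, b z)} Finset.card_le_three ?_)
      intro t ht
      rcases ha t ht with h | h
      · rcases hub t ⟨ht, h⟩ with h' | h'
        · rw [h, h']
          simp
        · rw [h, h']
          simp
      · rw [h, hvb t ⟨ht, h⟩]
        simp
  · rcases hv2 with ⟨z, w, hz, hw, hzw, hvb⟩ | ⟨z, hz, hvb⟩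
    · refine Or.inl (hT3 {(u, b x), (v, b z), (v, b w)} Finset.card_le_three ?_)
      intro t ht
      rcases ha t ht with h | h
      · rw [h, hub t ⟨ht, h⟩]
        simp
      · rcases hvb t ⟨ht, h⟩ with h' | h'
        · rw [h, h']
          simp
        · rw [h, h']
          simp
    · refine Or.inl (hT3 {(u, b x), (v, b z)} (Finset.card_le_two.trans (by norm_num)) ?_)
      intro t ht
      rcases ha t ht with h | h
      · rw [h, hub t ⟨ht, h⟩]
        simp
      · rw [h, hvb t ⟨ht, h⟩]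
        simp

end Pool.Agent.Lib_TTT
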