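import Pool.Agent.Lib_TTT.Block

/-!
Choice of the blocks, see `Block.lean`.
-/

set_option autoImplicit false

namespace Pool.Agent.Lib_TTT

variable {d : ℕ}

private theorem Block3_cr1 : ∀ p q r : Fin 4, p ≠ q → p ≠ r → q ≠ r → Cr p q p r := by
  unfold Cr
  decide

private theorem Block3_cr2 : ∀ p q t : Fin 4, p ≠ q → q ≠ Fin.rev p → Cr p q t (Fin.rev t) := by
  unfold Cr
  decide

private theorem Block3_cr3 : ∀ p q t : Fin 4, p ≠ q → q ≠ Fin.rev p → Cr p q (Fin.rev t) t := by
  unfold Cr
  decide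

private theorem Block3_cr4 : ∀ p q r t : Fin 4, p ≠ q → r ≠ t → ¬ Cr p q r t →
    (r = p ∧ t = q) ∨ (r = q ∧ t = p) ∨ (r = Fin.rev p ∧ t = Fin.rev q) ∨
      (r = Fin.rev q ∧ t = Fin.rev p) := by
  unfold Cr
  decide

private theorem Block3_fin1 : ∀ c t r1 r2 r3 : Fin 4,
    (r1 = c ∨ r1 = Fin.rev c ∨ r1 = t ∨ r1 = Fin.rev t) →
    (r2 = c ∨ r2 = Fin.rev c ∨ r2 = t ∨ r2 = Fin.rev t) →
    (r3 = c ∨ r3 = Fin.rev c ∨ r3 = t ∨ r3 = Fin.rev t) →
    r1 ≠ r2 → r1 ≠ r3 → r2 ≠ r3 → t ≠ c ∧ t ≠ Fin.rev c := by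
  decide

private theorem Block3_fin2 : ∀ c t t' : Fin 4, t ≠ c → t ≠ Fin.rev c → t' ≠ c →
    t' ≠ Fin.rev c → t ≠ t' → t' = Fin.rev t := by
  decide

private theorem Block3_fin3 : ∀ c t e : Fin 4, t ≠ c → t ≠ Fin.rev c →
    e = c ∨ e = Fin.rev c ∨ e = t ∨ e = Fin.rev t := by
  decide

private theorem Block3_fin4 : ∀ t : Fin 4, t ≠ Fin.rev t := by
  decide

private theorem Block3_fin5 : ∀ c : Fin 4, ∃ q1 q2 q3 : Fin 4,
    ∀ q, q ≠ c → q = q1 ∨ q = q2 ∨ q = q3 := by
  decide

private theorem Block3_fin7 : ∀ p q r1 r2 r3 : Fin 4, (r1 = p ∨ r1 = q) → (r2 = p ∨ r2 = q) →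
    (r3 = p ∨ r3 = q) → r1 ≠ r2 → r1 ≠ r3 → r2 ≠ r3 → False := by
  decide

private theorem Block3_fin8 : ∀ p q r1 r2 r3 : Fin 4,
    (r1 = p ∨ r1 = q ∨ r1 = Fin.rev p ∨ r1 = Fin.rev q) →
    (r2 = p ∨ r2 = q ∨ r2 = Fin.rev p ∨ r2 = Fin.rev q) →
    (r3 = p ∨ r3 = q ∨ r3 = Fin.rev p ∨ r3 = Fin.rev q) →
    r1 ≠ r2 → r1 ≠ r3 → r2 ≠ r3 → q ≠ Fin.rev p := by
  decide

private theorem Block3_fin9 : ∀ p q : Fin 4, p ≠ q → q ≠ Fin.rev p →
    p ≠ Fin.rev p ∧ p ≠ Fin.rev q ∧ q ≠ Fin.rev p ∧ q ≠ Fin.rev q ∧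
      ∀ c, c = p ∨ c = q ∨ c = Fin.rev p ∨ c = Fin.rev q := by
  decide

private theorem Block3_fin6 (p q r t r1 r2 r3 : Fin 4) (hpq : p ≠ q) (hrt : r ≠ t)
    (hc : ¬ Cr p q r t) (h12 : r1 ≠ r2) (h13 : r1 ≠ r3) (h23 : r2 ≠ r3)
    (h1 : r1 = p ∨ r1 = q ∨ r1 = r ∨ r1 = t) (h2 : r2 = p ∨ r2 = q ∨ r2 = r ∨ r2 = t)
    (h3 : r3 = p ∨ r3 = q ∨ r3 = r ∨ r3 = t) :
    p ≠ r ∧ p ≠ t ∧ q ≠ r ∧ q ≠ t ∧ q ≠ Fin.rev p ∧ ∀ c, c = p ∨ c = q ∨ c = r ∨ c = t := by
  rcases Block3_cr4 p q r t hpq hrt hc with ⟨rfl, rfl⟩ | ⟨rfl, rfl⟩ | ⟨rfl, rfl⟩ | ⟨rfl, rfl⟩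
  · exact (Block3_fin7 r t r1 r2 r3 (by tauto) (by tauto) (by tauto) h12 h13 h23).elim
  · exact (Block3_fin7 r t r1 r2 r3 (by tauto) (by tauto) (by tauto) h12 h13 h23).elim
  · have h := Block3_fin8 p q r1 r2 r3 h1 h2 h3 h12 h13 h23
    obtain ⟨e1, e2, e3, e4, e5⟩ := Block3_fin9 p q hpq h
    exact ⟨e1, e2, e3, e4, h, e5⟩
  · have h := Block3_fin8 p q r1 r2 r3 (by tauto) (by tauto) (by tauto) h12 h13 h23
    obtain ⟨e1, e2, e3, e4, e5⟩ := Block3_fin9 p q hpq h
    exact ⟨e2, e1, e4, e3, h, fun c => by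
      rcases e5 c with h' | h' | h' | h'
      · exact Or.inl h'
      · exact Or.inr (Or.inl h')
      · exact Or.inr (Or.inr (Or.inr h'))
      · exact Or.inr (Or.inr (Or.inl h'))⟩

private theorem Block3_pat2 : ∀ p q u v : Fin 4, p ≠ q → q ≠ Fin.rev p →
    ((fun c => if c = p ∨ c = q then u else v : Fin 4 → Fin 4) 0 =
        (fun c => if c = p ∨ c = q then u else v : Fin 4 → Fin 4) 1 ∧
      (fun c => if c = p ∨ c = q then u else v : Fin 4 → Fin 4) 2 =
        (fun c => if c = p ∨ c = q then u else v : Fin 4 → Fin 4) 3) ∨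
    ((fun c => if c = p ∨ c = q then u else v : Fin 4 → Fin 4) 0 =
        (fun c => if c = p ∨ c = q then u else v : Fin 4 → Fin 4) 2 ∧
      (fun c => if c = p ∨ c = q then u else v : Fin 4 → Fin 4) 1 =
        (fun c => if c = p ∨ c = q then u else v : Fin 4 → Fin 4) 3) := by
  decide

private theorem Block3_pat : ∀ c : Fin 4,
    ((fun q => if q = c ∨ q = Fin.rev c then q else Fin.rev q : Fin 4 → Fin 4) 0 =
        (fun q => if q = c ∨ q = Fin.rev c then q else Fin.rev q : Fin 4 → Fin 4) 1 ∧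
      (fun q => if q = c ∨ q = Fin.rev c then q else Fin.rev q : Fin 4 → Fin 4) 2 =
        (fun q => if q = c ∨ q = Fin.rev c then q else Fin.rev q : Fin 4 → Fin 4) 3) ∨
    ((fun q => if q = c ∨ q = Fin.rev c then q else Fin.rev q : Fin 4 → Fin 4) 0 =
        (fun q => if q = c ∨ q = Fin.rev c then q else Fin.rev q : Fin 4 → Fin 4) 2 ∧
      (fun q => if q = c ∨ q = Fin.rev c then q else Fin.rev q : Fin 4 → Fin 4) 1 =
        (fun q => if q = c ∨ q = Fin.rev c then q else Fin.rev q : Fin 4 → Fin 4) 3) ∨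
    ((fun q => if q = c ∨ q = Fin.rev c then q else Fin.rev q : Fin 4 → Fin 4) 0 = 0 ∧
      (fun q => if q = c ∨ q = Fin.rev c then q else Fin.rev q : Fin 4 → Fin 4) 1 = 2 ∧
      (fun q => if q = c ∨ q = Fin.rev c then q else Fin.rev q : Fin 4 → Fin 4) 2 = 1 ∧
      (fun q => if q = c ∨ q = Fin.rev c then q else Fin.rev q : Fin 4 → Fin 4) 3 = 3) ∨
    ((fun q => if q = c ∨ q = Fin.rev c then q else Fin.rev q : Fin 4 → Fin 4) 0 = 3 ∧
      (fun q => if q = c ∨ q = Fin.rev c then q else Fin.rev q : Fin 4 → Fin 4) 1 = 1 ∧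
      (fun q => if q = c ∨ q = Fin.rev c then q else Fin.rev q : Fin 4 → Fin 4) 2 = 2 ∧
      (fun q => if q = c ∨ q = Fin.rev c then q else Fin.rev q : Fin 4 → Fin 4) 3 = 0) := by
  decide

/-- three different values in one block -/
private theorem Block3_three {k : ℕ} {ℓ : Fin d → Fin k} {z : Pt d} {x y w : Fin d}
    (h1 : ℓ x = ℓ y) (h2 : ℓ x = ℓ w) (hxy : z x ≠ z y) (hxw : z x ≠ z w) (hyw : z y ≠ z w) :
    Cross ℓ z :=
  ⟨x, y, x, w, h1, h2, Block3_cr1 _ _ _ hxy hxw hyw⟩

private theorem Block3_hT (a b : Fin d → Fin 4) (i0 : Fin d)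
    (h : ¬ ((Finset.univ.filter fun x => x ≠ i0).image fun x => (a x, b x)).card ≤ 3)
    (p q r : Fin 4 × Fin 4) :
    ∃ x, x ≠ i0 ∧ (a x, b x) ≠ p ∧ (a x, b x) ≠ q ∧ (a x, b x) ≠ r := by
  by_contra hc
  push Not at hc
  apply h
  have h1 : ((Finset.univ.filter fun x => x ≠ i0).image fun x => (a x, b x)) ⊆ {p, q, r} := by
    intro c hc'
    obtain ⟨x, hx, rfl⟩ := Finset.mem_image.1 hc'
    have hx' : x ≠ i0 := (Finset.mem_filter.1 hx).2
    have h2 := hc x hx'
    simp only [Finset.mem_insert, Finset.mem_singleton]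
    by_contra h3
    push Not at h3
    exact h3.2.2 (h2 h3.1 h3.2.1)
  exact (Finset.card_le_card h1).trans Finset.card_le_three

/-- all four values of `a` occur and `b` is a function of `a` of an exceptional pattern -/
private theorem Block3_exc (a b : Fin d → Fin 4) (i0 : Fin d) (s : Fin 4 → Fin 4)
    (hs : ∀ x, x ≠ i0 → b x = s (a x)) (hall : ∀ c, ∃ x, x ≠ i0 ∧ a x = c)
    (hp : (s 0 = s 1 ∧ s 2 = s 3) ∨ (s 0 = s 2 ∧ s 1 = s 3) ∨
      (s 0 = 0 ∧ s 1 = 2 ∧ s 2 = 1 ∧ s 3 = 3) ∨ (s 0 = 3 ∧ s 1 = 1 ∧ s 2 = 2 ∧ s 3 = 0)) :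
    ∃ (J : Fin 5 → Fin d) (ℓ : Fin d → Fin 5), Inside 5 a b i0 J ℓ ∧
      ExcP (fun i => a (J i.succ)) (fun i => b (J i.succ)) := by
  classical
  choose g hg0 hg using hall
  have hb : ∀ c, b (g c) = s c := fun c => by rw [hs _ (hg0 c), hg]
  refine ⟨Fin.cases i0 g, fun x => if x = i0 then 0 else (a x).succ,
    ⟨rfl, fun i => ?_, fun x hx => ?_, fun x => ?_, fun x => ?_⟩, Or.inr ?_⟩
  · refine Fin.cases ?_ (fun c => ?_) i
    · simp
    · simp [hg0 c, hg c]
  · by_contra h
    simp only [if_neg h] at hx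
    exact Fin.succ_ne_zero _ hx
  · by_cases h : x = i0
    · simp [h]
    · simp [h, hg]
  · by_cases h : x = i0
    · simp [h]
    · simp [h, hb, hs x h]
  · simp only [Fin.cases_succ, hg, hb]
    exact ⟨trivial, trivial, trivial, trivial, hp⟩

/-- three coordinates with different values of `a` and of `b`, or two and two -/
private theorem Block3_ab (a b : Fin d → Fin 4) (i0 : Fin d)
    (ha : ∃ x y z, x ≠ i0 ∧ y ≠ i0 ∧ z ≠ i0 ∧ a x ≠ a y ∧ a x ≠ a z ∧ a y ≠ a z)
    (hb : ∃ x y z, x ≠ i0 ∧ y ≠ i0 ∧ z ≠ i0 ∧ b x ≠ b y ∧ b x ≠ b z ∧ b y ≠ b z) :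
    (∃ x y z, x ≠ i0 ∧ y ≠ i0 ∧ z ≠ i0 ∧ (a x ≠ a y ∧ a x ≠ a z ∧ a y ≠ a z) ∧
      (b x ≠ b y ∧ b x ≠ b z ∧ b y ≠ b z)) ∨
    (∃ x₁ x₂ y₁ y₂, x₁ ≠ i0 ∧ x₂ ≠ i0 ∧ y₁ ≠ i0 ∧ y₂ ≠ i0 ∧ b x₁ = b x₂ ∧ a y₁ = a y₂ ∧
      a x₁ ≠ a x₂ ∧ a x₁ ≠ a y₁ ∧ a x₂ ≠ a y₁ ∧ b y₁ ≠ b y₂ ∧ b y₁ ≠ b x₁ ∧ b y₂ ≠ b x₁) := by
  classical
  -- a coordinate whose `b` avoids two given values
  have hav : ∀ u v : Fin 4, ∃ y, y ≠ i0 ∧ b y ≠ u ∧ b y ≠ v := by
    intro u v
    obtain ⟨y1, y2, y3, h1, h2, h3, h12, h13, h23⟩ := hb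
    by_cases e1 : b y1 ≠ u ∧ b y1 ≠ v
    · exact ⟨y1, h1, e1⟩
    by_cases e2 : b y2 ≠ u ∧ b y2 ≠ v
    · exact ⟨y2, h2, e2⟩
    refine ⟨y3, h3, ?_, ?_⟩
    · rintro rfl
      have e1' : b y1 = v := by
        by_contra h
        exact e1 ⟨h13, h⟩
      have e2' : b y2 = v := by
        by_contra h
        exact e2 ⟨h23, h⟩
      exact h12 (e1'.trans e2'.symm)
    · rintro rfl
      have e1' : b y1 = u := by
        by_contra h
        exact e1 ⟨h, h13⟩
      have e2' : b y2 = u := by
        by_contra h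
        exact e2 ⟨h, h23⟩
      exact h12 (e1'.trans e2'.symm)
  -- the case of two equal values of `b`
  have key : ∀ x1 x2 x3 : Fin d, x1 ≠ i0 → x2 ≠ i0 → x3 ≠ i0 → a x1 ≠ a x2 → a x1 ≠ a x3 →
      a x2 ≠ a x3 → b x1 = b x2 → 
    (∃ x y z, x ≠ i0 ∧ y ≠ i0 ∧ z ≠ i0 ∧ (a x ≠ a y ∧ a x ≠ a z ∧ a y ≠ a z) ∧
      (b x ≠ b y ∧ b x ≠ b z ∧ b y ≠ b z)) ∨
    (∃ x₁ x₂ y₁ y₂, x₁ ≠ i0 ∧ x₂ ≠ i0 ∧ y₁ ≠ i0 ∧ y₂ ≠ i0 ∧ b x₁ = b x₂ ∧ a y₁ = a y₂ ∧
      a x₁ ≠ a x₂ ∧ a x₁ ≠ a y₁ ∧ a x₂ ≠ a y₁ ∧ b y₁ ≠ b y₂ ∧ b y₁ ≠ b x₁ ∧ b y₂ ≠ b x₁) := by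
    intro x1 x2 x3 h1 h2 h3 h12 h13 h23 hb12
    by_cases hb3 : b x3 = b x1
    · obtain ⟨y1, hy1, hy1a, -⟩ := hav (b x1) (b x1)
      obtain ⟨y2, hy2, hy2a, hy2b⟩ := hav (b x1) (b y1)
      by_cases hay : a y1 = a y2
      · right
        by_cases e1 : a x1 = a y1
        · exact ⟨x2, x3, y1, y2, h2, h3, hy1, hy2, by rw [← hb12, hb3], hay, h23,
            fun h => h12 (e1.trans h.symm), fun h => h13 (e1.trans h.symm), hy2b.symm,
            by rwa [← hb12], by rwa [← hb12]⟩
        by_cases e2 : a x2 = a y1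
        · exact ⟨x1, x3, y1, y2, h1, h3, hy1, hy2, hb3.symm, hay, h13, e1,
            fun h => h23 (e2.trans h.symm), hy2b.symm, hy1a, hy2a⟩
        exact ⟨x1, x2, y1, y2, h1, h2, hy1, hy2, hb12, hay, h12, e1, e2, hy2b.symm, hy1a, hy2a⟩
      · left
        have hx : ∃ x, x ≠ i0 ∧ b x = b x1 ∧ a x ≠ a y1 ∧ a x ≠ a y2 := by
          by_cases e1 : a x1 ≠ a y1 ∧ a x1 ≠ a y2
          · exact ⟨x1, h1, rfl, e1⟩
          by_cases e2 : a x2 ≠ a y1 ∧ a x2 ≠ a y2
          · exact ⟨x2, h2, hb12.symm, e2⟩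
          refine ⟨x3, h3, hb3, ?_, ?_⟩
          · intro h
            have e1' : a x1 = a y2 := by
              by_contra h'
              exact e1 ⟨by rw [← h]; exact h13, h'⟩
            have e2' : a x2 = a y2 := by
              by_contra h'
              exact e2 ⟨by rw [← h]; exact h23, h'⟩
            exact h12 (e1'.trans e2'.symm)
          · intro h
            have e1' : a x1 = a y1 := by
              by_contra h'
              exact e1 ⟨h', by rw [← h]; exact h13⟩
            have e2' : a x2 = a y1 := by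
              by_contra h'
              exact e2 ⟨h', by rw [← h]; exact h23⟩
            exact h12 (e1'.trans e2'.symm)
        obtain ⟨x, hx0, hxb, hxa1, hxa2⟩ := hx
        exact ⟨x, y1, y2, hx0, hy1, hy2, ⟨hxa1, hxa2, hay⟩,
          by rw [hxb]; exact hy1a.symm, by rw [hxb]; exact hy2a.symm, hy2b.symm⟩
    · obtain ⟨y, hy, hy1, hy2⟩ := hav (b x1) (b x3)
      by_cases hay : a y = a x3
      · right
        exact ⟨x1, x2, x3, y, h1, h2, h3, hy, hb12, hay.symm, h12, h13, h23, hy2.symm, hb3, hy1⟩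
      · left
        by_cases e1 : a y = a x1
        · exact ⟨x2, x3, y, h2, h3, hy, ⟨h23, fun h => h12 (e1.symm.trans h.symm), fun h => hay h.symm⟩,
            by rw [← hb12]; exact fun h => hb3 h.symm, by rw [← hb12]; exact hy1.symm, hy2.symm⟩
        · exact ⟨x1, x3, y, h1, h3, hy, ⟨h13, fun h => e1 h.symm, fun h => hay h.symm⟩,
            fun h => hb3 h.symm, hy1.symm, hy2.symm⟩
  obtain ⟨x1, x2, x3, h1, h2, h3, h12, h13, h23⟩ := ha
  by_cases e12 : b x1 = b x2
  · exact key x1 x2 x3 h1 h2 h3 h12 h13 h23 e12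
  by_cases e13 : b x1 = b x3
  · exact key x1 x3 x2 h1 h3 h2 h13 h12 h23.symm e13
  by_cases e23 : b x2 = b x3
  · exact key x2 x3 x1 h2 h3 h1 h23 h12.symm h13.symm e23
  exact Or.inl ⟨x1, x2, x3, h1, h2, h3, ⟨h12, h13, h23⟩, e12, e13, e23⟩

/-- Besides `i0`, `a` takes at least three values. Let `T` be the set of classes.
* `|T| ≤ 3`: `inside4_of_card`.
* `b` is constant: then `a` takes four values, `T` has four elements, five blocks, pattern
  `s 0 = s 1 = s 2 = s 3`.
* `b` takes two values `x < y`: let `A x`, `A y` be the values of `a` on the level sets of `b`;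
  `|A x| + |A y| = |T| ≥ 4`. If one of them has three elements, the blocks `{i0}` and the level
  sets of `b` have `Cross ℓ a`. Otherwise both have two elements; if they share one element they
  cross (two pairs `{p, q}`, `{p, r}` always cross); if not, they are `{0,1}, {2,3}` or
  `{0,2}, {1,3}` (exceptional, five blocks) or `{0,3}, {1,2}` (they cross).
* `b` takes at least three values. First: there are either three coordinates with different
  values of `a` and different values of `b` (a), or `x₁, x₂, y₁, y₂` with `b x₁ = b x₂ = β`,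
  `a y₁ = a y₂ = α`, `a x₁, a x₂, α` different, `b y₁, b y₂, β` different (b). (Take `x₁, x₂, x₃`
  with different values of `a`. If their `b` are all equal to `β`: take `y₁`, `y₂` with `b y₁`,
  `b y₂`, `β` different; if `a y₁ ≠ a y₂` one of the `x` completes them to (a), otherwise two of
  the `x` have `a ≠ a y₁`: (b). If `b x₁ = b x₂ = β ≠ b x₃`: take `y` with `b y` different from
  both; then `(x₁, x₃, y)` or `(x₂, x₃, y)` is (a), or `a y = a x₃` and `(x₁, x₂, x₃, y)` is (b).)
  In case (b) take the blocks `{i0}`, `{x₂, y₂}` and the rest (contains `x₁`, `y₁`).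
  In case (a) take `{i0}`, a single further coordinate `z`, and the rest (contains the three
  coordinates; `z` exists since `|T| ≥ 4`).
  If `a` and `b` are collinear (as in the hypothesis of the last condition: all classes are
  `(c, c)` or `(t₀, t₁)` or `(rev t₀, rev t₁)`), choose more carefully: if there are three
  classes `(c, c)`, take (a) with them: all `z` have the three values there. Otherwise there are
  exactly two such classes `c₁ ≠ c₂`, and both other classes occur; if `c₂ ≠ rev c₁` take the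
  block containing the coordinates of the classes `(c₁, c₁)`, `(c₂, c₂)` and the block of the two
  other classes: `z` has the values `c₁, c₂` and `t, rev t` there, which cross. If
  `c₂ = rev c₁`, then, since `a` and `b` take at least three values, the other classes are
  `(t₀, rev t₀)` and `(rev t₀, t₀)` with `t₀ ∉ {c₁, c₂}`: exceptional pattern `(0,2,1,3)` or
  `(3,1,2,0)`, five blocks. (In case (b) the functions are never collinear when `|T| ≥ 5`; for
  `|T| = 4` the collinear case is treated as just described.) -/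
theorem block3 (hd : 4 ≤ d) (a b : Fin d → Fin 4) (i0 : Fin d)
    (ha : ∃ x y z, x ≠ i0 ∧ y ≠ i0 ∧ z ≠ i0 ∧ a x ≠ a y ∧ a x ≠ a z ∧ a y ≠ a z) :
    (∃ (J : Fin 4 → Fin d) (ℓ : Fin d → Fin 4), Inside 4 a b i0 J ℓ) ∨
    (∃ (J : Fin 5 → Fin d) (ℓ : Fin d → Fin 5), Inside 5 a b i0 J ℓ ∧
      ExcP (fun i => a (J i.succ)) (fun i => b (J i.succ))) ∨
    (∃ (J : Fin 3 → Fin d) (ℓ : Fin d → Fin 3), Inside 3 b b i0 J ℓ ∧ b (J 1) < b (J 2) ∧
      Cross ℓ a) ∨
    (∃ (J : Fin 3 → Fin d) (ℓ : Fin d → Fin 3), J 0 = i0 ∧ (∀ i, ℓ (J i) = i) ∧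
      (∀ x, ℓ x = 0 → x = i0) ∧ Cross ℓ a ∧ Cross ℓ b ∧
      ∀ (t₀ t₁ t : Fin 4) (z : Fin d → Fin 4), t₀ ≠ t₁ →
        (∀ x, (a x = b x ∧ z x = a x) ∨ (a x = t₀ ∧ b x = t₁ ∧ z x = t) ∨
          (a x = Fin.rev t₀ ∧ b x = Fin.rev t₁ ∧ z x = Fin.rev t)) → Cross ℓ z) := by
  classical
  by_cases hcard : ((Finset.univ.filter fun x => x ≠ i0).image fun x => (a x, b x)).card ≤ 3
  · exact Or.inl (inside4_of_card hd a b i0 hcard)
  have hT := Block3_hT a b i0 hcard
  right
  by_cases hb3 : ∃ x y z, x ≠ i0 ∧ y ≠ i0 ∧ z ≠ i0 ∧ b x ≠ b y ∧ b x ≠ b z ∧ b y ≠ b z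
  · -- at least three values of `b`
    by_cases hcol : ∃ t₀ t₁ : Fin 4, t₀ ≠ t₁ ∧ ∀ x, x ≠ i0 →
        (a x = b x ∨ (a x = t₀ ∧ b x = t₁) ∨ (a x = Fin.rev t₀ ∧ b x = Fin.rev t₁))
    · obtain ⟨t₀, t₁, ht, hcl⟩ := hcol
      by_cases hd3 : ∃ x y z, x ≠ i0 ∧ y ≠ i0 ∧ z ≠ i0 ∧ a x = b x ∧ a y = b y ∧ a z = b z ∧
          a x ≠ a y ∧ a x ≠ a z ∧ a y ≠ a z
      · -- three classes on the diagonal
        obtain ⟨x, y, w, hx, hy, hw, ex, ey, ew, hxy, hxw, hyw⟩ := hd3
        obtain ⟨v, hv, hvx, hvy, hvw⟩ := hT (a x, b x) (a y, b y) (a w, b w)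
        have hvx' : x ≠ v := by rintro rfl; exact hvx rfl
        have hvy' : y ≠ v := by rintro rfl; exact hvy rfl
        have hvw' : w ≠ v := by rintro rfl; exact hvw rfl
        right; right
        refine ⟨![i0, v, x], fun q => if q = i0 then 0 else if q = v then 1 else 2, rfl, ?_, ?_,
          ?_, ?_, ?_⟩
        · intro i
          fin_cases i
          · simp
          · simp [hv]
          · simp [hx, hvx']
        · intro q hq
          by_contra h
          by_cases h' : q = v
          · simp [h'] at hq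
            exact h (h'.trans hq)
          · simp [h, h'] at hq
        · exact Block3_three (x := x) (y := y) (w := w) (by simp [hx, hvx', hy, hvy'])
            (by simp [hx, hvx', hw, hvw']) hxy hxw hyw
        · exact Block3_three (x := x) (y := y) (w := w) (by simp [hx, hvx', hy, hvy'])
            (by simp [hx, hvx', hw, hvw']) (by rwa [← ex, ← ey]) (by rwa [← ex, ← ew])
            (by rwa [← ey, ← ew])
        · intro s₀ s₁ t z hs hz
          have hdiag : ∀ q, a q = b q → z q = a q := by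
            intro q hq
            rcases hz q with h | h | h
            · exact h.2
            · exact absurd (h.1.symm.trans (hq.trans h.2.1)) hs
            · exact absurd (Fin.rev_injective (h.1.symm.trans (hq.trans h.2.1))) hs
          exact Block3_three (x := x) (y := y) (w := w) (by simp [hx, hvx', hy, hvy'])
            (by simp [hx, hvx', hw, hvw']) (by rwa [hdiag x ex, hdiag y ey])
            (by rwa [hdiag x ex, hdiag w ew]) (by rwa [hdiag y ey, hdiag w ew])
      · -- exactly two classes on the diagonal and both other classes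
        obtain ⟨x, hx, hx1, hx2, -⟩ := hT (t₀, t₁) (Fin.rev t₀, Fin.rev t₁) (t₀, t₁)
        have ex : a x = b x := by
          rcases hcl x hx with h | h | h
          · exact h
          · exact absurd (Prod.ext h.1 h.2) hx1
          · exact absurd (Prod.ext h.1 h.2) hx2
        obtain ⟨y, hy, hy1, hy2, hy3⟩ := hT (t₀, t₁) (Fin.rev t₀, Fin.rev t₁) (a x, b x)
        have ey : a y = b y := by
          rcases hcl y hy with h | h | h
          · exact h
          · exact absurd (Prod.ext h.1 h.2) hy1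
          · exact absurd (Prod.ext h.1 h.2) hy2
        have hxy : a x ≠ a y := fun h => hy3 (Prod.ext h.symm (by
          show b y = b x
          rw [← ex, ← ey, h]))
        obtain ⟨v, hv, hv1, hv2, hv3⟩ := hT (a x, b x) (a y, b y) (Fin.rev t₀, Fin.rev t₁)
        obtain ⟨w, hw, hw1, hw2, hw3⟩ := hT (a x, b x) (a y, b y) (t₀, t₁)
        have hnd : ∀ q, q ≠ i0 → (a q, b q) ≠ (a x, b x) → (a q, b q) ≠ (a y, b y) →
            a q ≠ b q := by
          intro q hq h1 h2 h3
          apply hd3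
          refine ⟨x, y, q, hx, hy, hq, ex, ey, h3, hxy, fun h => h1 (Prod.ext h.symm ?_),
            fun h => h2 (Prod.ext h.symm ?_)⟩
          · show b q = b x
            rw [← h3, ← ex, h]
          · show b q = b y
            rw [← h3, ← ey, h]
        have ev : a v = t₀ ∧ b v = t₁ := by
          rcases hcl v hv with h | h | h
          · exact absurd h (hnd v hv hv1 hv2)
          · exact h
          · exact absurd (Prod.ext h.1 h.2) hv3
        have ew : a w = Fin.rev t₀ ∧ b w = Fin.rev t₁ := by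
          rcases hcl w hw with h | h | h
          · exact absurd h (hnd w hw hw1 hw2)
          · exact absurd (Prod.ext h.1 h.2) hw3
          · exact h
        have hvd := hnd v hv hv1 hv2
        have hwd := hnd w hw hw1 hw2
        by_cases hrev : a y = Fin.rev (a x)
        · -- exceptional pattern
          left
          have hcls : ∀ q, q ≠ i0 → (a q, b q) = (a x, b x) ∨ (a q, b q) = (a y, b y) ∨
              (a q, b q) = (t₀, t₁) ∨ (a q, b q) = (Fin.rev t₀, Fin.rev t₁) := by
            intro q hq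
            by_contra hcon
            push Not at hcon
            rcases hcl q hq with h | h | h
            · exact hnd q hq hcon.1 hcon.2.1 h
            · exact hcon.2.2.1 (Prod.ext h.1 h.2)
            · exact hcon.2.2.2 (Prod.ext h.1 h.2)
          have hta : t₀ ≠ a x ∧ t₀ ≠ Fin.rev (a x) := by
            obtain ⟨x1, x2, x3, h1, h2, h3, h12, h13, h23⟩ := ha
            have e : ∀ q, q ≠ i0 → a q = a x ∨ a q = Fin.rev (a x) ∨ a q = t₀ ∨
                a q = Fin.rev t₀ := by
              intro q hq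
              rcases hcls q hq with h | h | h | h
              · exact Or.inl (Prod.ext_iff.1 h).1
              · exact Or.inr (Or.inl ((Prod.ext_iff.1 h).1.trans hrev))
              · exact Or.inr (Or.inr (Or.inl (Prod.ext_iff.1 h).1))
              · exact Or.inr (Or.inr (Or.inr (Prod.ext_iff.1 h).1))
            exact Block3_fin1 _ _ _ _ _ (e x1 h1) (e x2 h2) (e x3 h3) h12 h13 h23
          have htb : t₁ ≠ a x ∧ t₁ ≠ Fin.rev (a x) := by
            obtain ⟨x1, x2, x3, h1, h2, h3, h12, h13, h23⟩ := hb3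
            have e : ∀ q, q ≠ i0 → b q = a x ∨ b q = Fin.rev (a x) ∨ b q = t₁ ∨
                b q = Fin.rev t₁ := by
              intro q hq
              rcases hcls q hq with h | h | h | h
              · exact Or.inl ((Prod.ext_iff.1 h).2.trans ex.symm)
              · exact Or.inr (Or.inl ((Prod.ext_iff.1 h).2.trans (ey.symm.trans hrev)))
              · exact Or.inr (Or.inr (Or.inl (Prod.ext_iff.1 h).2))
              · exact Or.inr (Or.inr (Or.inr (Prod.ext_iff.1 h).2))
            exact Block3_fin1 _ _ _ _ _ (e x1 h1) (e x2 h2) (e x3 h3) h12 h13 h23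
          have ht1 : t₁ = Fin.rev t₀ := Block3_fin2 _ _ _ hta.1 hta.2 htb.1 htb.2 ht
          refine Block3_exc a b i0
            (fun q => if q = a x ∨ q = Fin.rev (a x) then q else Fin.rev q) ?_ ?_
            (Block3_pat (a x))
          · intro q hq
            rcases hcls q hq with h | h | h | h
            · have h1 : a q = a x := (Prod.ext_iff.1 h).1
              have h2 : b q = b x := (Prod.ext_iff.1 h).2
              simp only [h1, true_or, if_true]
              rw [h2, ex]
            · have h1 : a q = Fin.rev (a x) := (Prod.ext_iff.1 h).1.trans hrev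
              have h2 : b q = b y := (Prod.ext_iff.1 h).2
              simp only [h1, or_true, if_true]
              rw [h2, ← ey, hrev]
            · have h1 : a q = t₀ := (Prod.ext_iff.1 h).1
              have h2 : b q = t₁ := (Prod.ext_iff.1 h).2
              simp only [h1, hta.1, hta.2, or_self, if_false]
              rw [h2, ht1]
            · have h1 : a q = Fin.rev t₀ := (Prod.ext_iff.1 h).1
              have h2 : b q = Fin.rev t₁ := (Prod.ext_iff.1 h).2
              have h3 : Fin.rev t₀ ≠ a x := fun h => hta.2 (by rw [← h, Fin.rev_rev])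
              have h4 : Fin.rev t₀ ≠ Fin.rev (a x) := fun h => hta.1 (Fin.rev_injective h)
              simp only [h1, h3, h4, or_self, if_false]
              rw [h2, ht1]
          · intro c
            rcases Block3_fin3 _ _ c hta.1 hta.2 with h | h | h | h
            · exact ⟨x, hx, h.symm⟩
            · exact ⟨y, hy, by rw [hrev, h]⟩
            · exact ⟨v, hv, by rw [ev.1, h]⟩
            · exact ⟨w, hw, by rw [ew.1, h]⟩
        · right; right
          refine ⟨![i0, v, x], fun q => if q = i0 then 0 else if a q = b q then 2 else 1, rfl,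
            ?_, ?_, ?_, ?_, ?_⟩
          · intro i
            fin_cases i
            · simp
            · simp [hv, hvd]
            · simp [hx, ex]
          · intro q hq
            by_contra h
            by_cases h' : a q = b q
            · simp [h, h'] at hq
            · simp [h, h'] at hq
          · refine ⟨x, y, v, w, by simp [hx, hy, ex, ey], by simp [hv, hw, hvd, hwd], ?_⟩
            rw [ev.1, ew.1]
            exact Block3_cr2 _ _ _ hxy hrev
          · refine ⟨x, y, v, w, by simp [hx, hy, ex, ey], by simp [hv, hw, hvd, hwd], ?_⟩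
            rw [ev.2, ew.2, ← ex, ← ey]
            exact Block3_cr2 _ _ _ hxy hrev
          · intro s₀ s₁ t z hs hz
            have hdiag : ∀ q, a q = b q → z q = a q := by
              intro q hq
              rcases hz q with h | h | h
              · exact h.2
              · exact absurd (h.1.symm.trans (hq.trans h.2.1)) hs
              · exact absurd (Fin.rev_injective (h.1.symm.trans (hq.trans h.2.1))) hs
            refine ⟨x, y, v, w, by simp [hx, hy, ex, ey], by simp [hv, hw, hvd, hwd], ?_⟩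
            rw [hdiag x ex, hdiag y ey]
            have hne : a v ≠ a w := by
              rw [ev.1, ew.1]
              exact Block3_fin4 t₀
            rcases hz v with h | h | h
            · exact absurd h.1 hvd
            · rcases hz w with h' | h' | h'
              · exact absurd h'.1 hwd
              · exact absurd (h.1.trans h'.1.symm) hne
              · rw [h.2.2, h'.2.2]
                exact Block3_cr2 _ _ _ hxy hrev
            · rcases hz w with h' | h' | h'
              · exact absurd h'.1 hwd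
              · rw [h.2.2, h'.2.2]
                exact Block3_cr3 _ _ _ hxy hrev
              · exact absurd (h.1.trans h'.1.symm) hne
    · -- no collinearity
      have hvac : ∀ (ℓ : Fin d → Fin 3) (t₀ t₁ t : Fin 4) (z : Fin d → Fin 4), t₀ ≠ t₁ →
          (∀ x, (a x = b x ∧ z x = a x) ∨ (a x = t₀ ∧ b x = t₁ ∧ z x = t) ∨
            (a x = Fin.rev t₀ ∧ b x = Fin.rev t₁ ∧ z x = Fin.rev t)) → Cross ℓ z := by
        intro ℓ t₀ t₁ t z ht hz
        refine absurd ⟨t₀, t₁, ht, fun q _ => ?_⟩ hcol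
        rcases hz q with h | h | h
        · exact Or.inl h.1
        · exact Or.inr (Or.inl ⟨h.1, h.2.1⟩)
        · exact Or.inr (Or.inr ⟨h.1, h.2.1⟩)
      right; right
      rcases Block3_ab a b i0 ha hb3 with
        ⟨x, y, w, hx, hy, hw, ⟨hxy, hxw, hyw⟩, hxy', hxw', hyw'⟩ |
        ⟨x1, x2, y1, y2, hx1, hx2, hy1, hy2, hbx, hay, hax, hxy1, hxy2, hby, hby1, hby2⟩
      · obtain ⟨v, hv, hvx, hvy, hvw⟩ := hT (a x, b x) (a y, b y) (a w, b w)
        have hvx' : x ≠ v := by rintro rfl; exact hvx rfl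
        have hvy' : y ≠ v := by rintro rfl; exact hvy rfl
        have hvw' : w ≠ v := by rintro rfl; exact hvw rfl
        refine ⟨![i0, v, x], fun q => if q = i0 then 0 else if q = v then 1 else 2, rfl, ?_, ?_,
          ?_, ?_, hvac _⟩
        · intro i
          fin_cases i
          · simp
          · simp [hv]
          · simp [hx, hvx']
        · intro q hq
          by_contra h
          by_cases h' : q = v
          · simp [h'] at hq
            exact h (h'.trans hq)
          · simp [h, h'] at hq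
        · exact Block3_three (x := x) (y := y) (w := w) (by simp [hx, hvx', hy, hvy'])
            (by simp [hx, hvx', hw, hvw']) hxy hxw hyw
        · exact Block3_three (x := x) (y := y) (w := w) (by simp [hx, hvx', hy, hvy'])
            (by simp [hx, hvx', hw, hvw']) hxy' hxw' hyw'
      · have e1 : x1 ≠ x2 := fun h => hax (by rw [h])
        have e2 : x1 ≠ y2 := fun h => hxy1 (by rw [hay, h])
        have e3 : y1 ≠ x2 := fun h => hxy2 (by rw [h])
        have e4 : y1 ≠ y2 := fun h => hby (by rw [h])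
        refine ⟨![i0, x2, x1], fun q => if q = i0 then 0 else if q = x2 ∨ q = y2 then 1 else 2,
          rfl, ?_, ?_, ?_, ?_, hvac _⟩
        · intro i
          fin_cases i
          · simp
          · simp [hx2]
          · simp [hx1, e1, e2]
        · intro q hq
          by_contra h
          by_cases h' : q = x2 ∨ q = y2
          · simp only [if_neg h, if_pos h'] at hq
            exact absurd hq (by decide)
          · simp only [if_neg h, if_neg h'] at hq
            exact absurd hq (by decide)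
        · refine ⟨y2, x2, y1, x1, by simp [hy2, hx2], by simp [hy1, hx1, e1, e2, e3, e4], ?_⟩
          rw [← hay]
          exact Block3_cr1 _ _ _ (fun h => hxy2 h.symm) (fun h => hxy1 h.symm) hax.symm
        · refine ⟨x2, y2, x1, y1, by simp [hy2, hx2], by simp [hy1, hx1, e1, e2, e3, e4], ?_⟩
          rw [hbx]
          rw [hbx] at hby1 hby2
          exact Block3_cr1 _ _ _ hby2.symm hby1.symm hby.symm
  · -- at most two values of `b`
    obtain ⟨x0, hx0, -⟩ := hT (0, 0) (0, 0) (0, 0)
    by_cases hconst : ∀ x, x ≠ i0 → b x = b x0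
    · left
      refine Block3_exc a b i0 (fun _ => b x0) hconst ?_ (Or.inl ⟨rfl, rfl⟩)
      intro c
      obtain ⟨q1, q2, q3, hq⟩ := Block3_fin5 c
      obtain ⟨x, hx, h1, h2, h3⟩ := hT (q1, b x0) (q2, b x0) (q3, b x0)
      refine ⟨x, hx, ?_⟩
      by_contra h
      rcases hq (a x) h with h' | h' | h'
      · exact h1 (Prod.ext h' (hconst x hx))
      · exact h2 (Prod.ext h' (hconst x hx))
      · exact h3 (Prod.ext h' (hconst x hx))
    · push Not at hconst
      obtain ⟨y0, hy0, hxy0⟩ := hconst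
      have htwo : ∀ x, x ≠ i0 → b x = b x0 ∨ b x = b y0 := by
        intro x hx
        by_contra h
        push Not at h
        exact hb3 ⟨x0, y0, x, hx0, hy0, hx, hxy0.symm, h.1.symm, h.2.symm⟩
      -- order the two values
      have hord : ∃ u v : Fin 4, u < v ∧ (∀ x, x ≠ i0 → b x = u ∨ b x = v) ∧
          (∃ x, x ≠ i0 ∧ b x = u) ∧ ∃ x, x ≠ i0 ∧ b x = v := by
        rcases lt_or_gt_of_ne hxy0 with h | h
        · exact ⟨b y0, b x0, h, fun x hx => (htwo x hx).symm, ⟨y0, hy0, rfl⟩, x0, hx0, rfl⟩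
        · exact ⟨b x0, b y0, h, htwo, ⟨x0, hx0, rfl⟩, y0, hy0, rfl⟩
      obtain ⟨u, v, huv, hval, ⟨xu, hxu, hbu⟩, xv, hxv, hbv⟩ := hord
      set ℓ : Fin d → Fin 3 := fun q => if q = i0 then 0 else if b q = u then 1 else 2 with hℓ
      have hℓu : ∀ q, q ≠ i0 → b q = u → ℓ q = 1 := fun q h1 h2 => by
        rw [hℓ]
        simp [h1, h2]
      have hℓv : ∀ q, q ≠ i0 → b q = v → ℓ q = 2 := fun q h1 h2 => by
        rw [hℓ]
        simp [h1, h2, huv.ne']
      have hℓ0 : ℓ i0 = 0 := by
        rw [hℓ]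
        simp
      by_cases hcr : Cross ℓ a
      · right; left
        refine ⟨![i0, xu, xv], ℓ, ⟨rfl, ?_, ?_, ?_, ?_⟩, ?_, hcr⟩
        · intro i
          fin_cases i
          · exact hℓ0
          · exact hℓu xu hxu hbu
          · exact hℓv xv hxv hbv
        · intro q hq
          by_contra h
          rcases hval q h with h' | h'
          · rw [hℓu q h h'] at hq
            exact absurd hq (by decide)
          · rw [hℓv q h h'] at hq
            exact absurd hq (by decide)
        · intro q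
          by_cases h : q = i0
          · rw [h, hℓ0]
            rfl
          rcases hval q h with h' | h'
          · rw [hℓu q h h', h']
            exact hbu
          · rw [hℓv q h h', h']
            exact hbv
        · intro q
          by_cases h : q = i0
          · rw [h, hℓ0]
            rfl
          rcases hval q h with h' | h'
          · rw [hℓu q h h', h']
            exact hbu
          · rw [hℓv q h h', h']
            exact hbv
        · show b xu < b xv
          rw [hbu, hbv]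
          exact huv
      · left
        -- two values on each level set
        have hlev : ∀ c c' : Fin 4, c ≠ c' → (∀ x, x ≠ i0 → b x = c ∨ b x = c') →
            (∃ x, x ≠ i0 ∧ b x = c) → (∃ x, x ≠ i0 ∧ b x = c') →
            (∀ q q', q ≠ i0 → q' ≠ i0 → b q = b q' → ℓ q = ℓ q') →
            ∃ x1 x2, x1 ≠ i0 ∧ x2 ≠ i0 ∧ b x1 = c ∧ b x2 = c ∧ a x1 ≠ a x2 := by
          rintro c c' hcc hv2 ⟨x1, hx1, hb1⟩ ⟨y1, hy1, hby1⟩ hℓeq
          by_contra hcon
          push Not at hcon
          have hsame : ∀ x, x ≠ i0 → b x = c → (a x, b x) = (a x1, c) := fun x hx hbx =>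
            Prod.ext (hcon x x1 hx hx1 hbx hb1) hbx
          obtain ⟨y2, hy2, h1, h2, -⟩ := hT (a x1, c) (a y1, c') (a y1, c')
          have hby2 : b y2 = c' := by
            rcases hv2 y2 hy2 with h | h
            · exact absurd (hsame y2 hy2 h) h1
            · exact h
          obtain ⟨y3, hy3, h3, h4, h5⟩ := hT (a x1, c) (a y1, c') (a y2, c')
          have hby3 : b y3 = c' := by
            rcases hv2 y3 hy3 with h | h
            · exact absurd (hsame y3 hy3 h) h3
            · exact h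
          refine hcr (Block3_three (x := y1) (y := y2) (w := y3)
            (hℓeq _ _ hy1 hy2 (hby1.trans hby2.symm)) (hℓeq _ _ hy1 hy3 (hby1.trans hby3.symm))
            (fun h => h2 (Prod.ext h.symm hby2)) (fun h => h4 (Prod.ext h.symm hby3))
            (fun h => h5 (Prod.ext h.symm hby3)))
        have hℓeq : ∀ q q', q ≠ i0 → q' ≠ i0 → b q = b q' → ℓ q = ℓ q' := by
          intro q q' hq hq' hbq
          rw [hℓ]
          simp only [if_neg hq, if_neg hq', hbq]
        obtain ⟨x1, x2, hx1, hx2, hb1, hb2, hx12⟩ := hlev u v huv.ne hval ⟨xu, hxu, hbu⟩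
          ⟨xv, hxv, hbv⟩ hℓeq
        obtain ⟨y1, y2, hy1, hy2, hb1', hb2', hy12⟩ := hlev v u huv.ne'
          (fun x hx => (hval x hx).symm) ⟨xv, hxv, hbv⟩ ⟨xu, hxu, hbu⟩ hℓeq
        have hU : ∀ x, x ≠ i0 → b x = u → a x = a x1 ∨ a x = a x2 := by
          intro x hx hbx
          by_contra h
          push Not at h
          exact hcr (Block3_three (x := x1) (y := x2) (w := x)
            (hℓeq _ _ hx1 hx2 (hb1.trans hb2.symm)) (hℓeq _ _ hx1 hx (hb1.trans hbx.symm))
            hx12 h.1.symm h.2.symm)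
        have hV : ∀ x, x ≠ i0 → b x = v → a x = a y1 ∨ a x = a y2 := by
          intro x hx hbx
          by_contra h
          push Not at h
          exact hcr (Block3_three (x := y1) (y := y2) (w := x)
            (hℓeq _ _ hy1 hy2 (hb1'.trans hb2'.symm)) (hℓeq _ _ hy1 hx (hb1'.trans hbx.symm))
            hy12 h.1.symm h.2.symm)
        have hnc : ¬ Cr (a x1) (a x2) (a y1) (a y2) := fun h =>
          hcr ⟨x1, x2, y1, y2, hℓeq _ _ hx1 hx2 (hb1.trans hb2.symm),
            hℓeq _ _ hy1 hy2 (hb1'.trans hb2'.symm), h⟩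
        have h3 : ∃ r1 r2 r3 : Fin 4, r1 ≠ r2 ∧ r1 ≠ r3 ∧ r2 ≠ r3 ∧
            (∀ r, r = r1 ∨ r = r2 ∨ r = r3 → r = a x1 ∨ r = a x2 ∨ r = a y1 ∨ r = a y2) := by
          obtain ⟨z1, z2, z3, h1, h2, h3, h12, h13, h23⟩ := ha
          have hval' : ∀ q, q ≠ i0 → a q = a x1 ∨ a q = a x2 ∨ a q = a y1 ∨ a q = a y2 := by
            intro q hq
            rcases hval q hq with h | h
            · rcases hU q hq h with h' | h'
              · exact Or.inl h'
              · exact Or.inr (Or.inl h')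
            · rcases hV q hq h with h' | h'
              · exact Or.inr (Or.inr (Or.inl h'))
              · exact Or.inr (Or.inr (Or.inr h'))
          refine ⟨a z1, a z2, a z3, h12, h13, h23, ?_⟩
          rintro r (rfl | rfl | rfl)
          · exact hval' z1 h1
          · exact hval' z2 h2
          · exact hval' z3 h3
        obtain ⟨r1, r2, r3, hr12, hr13, hr23, hr⟩ := h3
        have hfin := Block3_fin6 (a x1) (a x2) (a y1) (a y2) r1 r2 r3 hx12 hy12 hnc hr12 hr13
          hr23 (hr r1 (Or.inl rfl)) (hr r2 (Or.inr (Or.inl rfl))) (hr r3 (Or.inr (Or.inr rfl)))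
        obtain ⟨hf1, hf2, hf3, hf4, hpat, hcov⟩ := hfin
        refine Block3_exc a b i0 (fun q => if q = a x1 ∨ q = a x2 then u else v) ?_ ?_ ?_
        · intro q hq
          rcases hval q hq with h | h
          · have h' := hU q hq h
            simp only [if_pos h', h]
          · have h' : ¬ (a q = a x1 ∨ a q = a x2) := by
              rcases hV q hq h with h' | h'
              · rw [h']
                rintro (h'' | h'')
                · exact hf1 h''.symm
                · exact hf3 h''.symm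
              · rw [h']
                rintro (h'' | h'')
                · exact hf2 h''.symm
                · exact hf4 h''.symm
            simp only [if_neg h', h]
        · intro c
          rcases hcov c with h | h | h | h
          · exact ⟨x1, hx1, h.symm⟩
          · exact ⟨x2, hx2, h.symm⟩
          · exact ⟨y1, hy1, h.symm⟩
          · exact ⟨y2, hy2, h.symm⟩
        · rcases Block3_pat2 (a x1) (a x2) u v hx12 hpat with h | h
          · exact Or.inl h
          · exact Or.inr (Or.inl h)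

end Pool.Agent.Lib_TTT
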