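import Pool.Agent.Lib_TTT.Emb

/-!
Wins in the subspace `4^k` are wins in `4^d`.

`E`, `X`: stones of the second and the first player outside of the subspace.

`vcf_emb`: if every line that is not in the subspace meets `X` or has at most two points in
`E ∪ subspace`, then in a threat sequence inside the subspace the second player never has three
stones on an open line outside, so every answer to a threat is forced. Induction on `Vcf`:
at `thr` use `WinA.mv` with the move `emb m`: the answer `emb f` leads to the induction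
hypothesis; any other answer `r` lets the first player complete the line at `emb f`
(`WinA.fin`); no answer `r` completes a line of the second player: a line in the subspace would
contradict `hD` (if `r` is outside, the line is contained in the image of `Q` and `hD` for any
free cell of `4^k`, for example `f`, is contradicted), a line outside has four points, at most
two of them in `E ∪ subspace`, and at most one more is `r`.

`ta_emb`: if every line that is not in the subspace meets `X` or has at most one point in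
`E ∪ subspace`. At `mv`: answers inside lead to the induction hypothesis; after an answer `r`
outside play the pending threat sequence (`vcf_emb` for `insert r E`, the line condition holds
with `1 + 1 = 2`). A free cell exists since `Vcf` has one.

`tr2`: `E = {u, v}`, both far, so lines through `u` or `v` do not meet the subspace; the
condition of `ta_emb` fails at most for the line `e₀` through `u` and `v` (if there is one; by
`line_unique` it is unique), all of whose points are far. Induction on `TA` with the same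
argument (for threat sequences the bound two suffices), except: at `mv`, if the answer `r` is
outside and on `e₀`, then `e₀ ⊆ {u, v, r, s}` with `s` far, hence outside and free. The first
player answers `s` (`WinA.mv`; no answer `r'` completes a line: `e₀` contains `s`; every other
line not in the subspace has at most two points in `{u, v, r} ∪ subspace`, in fact at most one
since two of `u`, `v`, `r` are on `e₀` only and all three are far; lines in the subspace as
before). Then every `r'` inside is covered by `ta_emb` for the child of the node with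
`E = {u, v, r}`, `X = {s}`, and every `r'` outside by `vcf_emb` with `E = {u, v, r, r'}`.
-/

set_option autoImplicit false

namespace Pool.Agent.Lib_TTT

variable {d k : ℕ}

/-- Lines outside of the subspace are blocked by `X` or have at most two points in
`E ∪ subspace`. -/
private def H2Tr (ℓ : Fin d → Fin k) (E X : Finset (Pt d)) : Prop :=
  ∀ e, IsLn e → (∃ x ∈ e, x ∈ X) ∨ (∃ e' : Finset (Pt k), IsLn e' ∧ e = e'.image (emb ℓ)) ∨
      ∃ u v, ∀ x ∈ e, (x ∈ E ∨ InSub ℓ x) → x = u ∨ x = v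

/-- The same with at most one point. -/
private def H1Tr (ℓ : Fin d → Fin k) (E X : Finset (Pt d)) : Prop :=
  ∀ e, IsLn e → (∃ x ∈ e, x ∈ X) ∨ (∃ e' : Finset (Pt k), IsLn e' ∧ e = e'.image (emb ℓ)) ∨
      ∃ u, ∀ x ∈ e, (x ∈ E ∨ InSub ℓ x) → x = u

private theorem h1_h2_Tr {ℓ : Fin d → Fin k} {E X : Finset (Pt d)} (h : H1Tr ℓ E X) :
    H2Tr ℓ E X := by
  intro e he
  rcases h e he with h1 | h1 | ⟨u, hu⟩
  · exact Or.inl h1
  · exact Or.inr (Or.inl h1)
  · exact Or.inr (Or.inr ⟨u, u, fun x hx h2 => Or.inl (hu x hx h2)⟩)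

private theorem h1_insert_Tr {ℓ : Fin d → Fin k} {E X : Finset (Pt d)} (h : H1Tr ℓ E X)
    (r : Pt d) : H2Tr ℓ (insert r E) X := by
  intro e he
  rcases h e he with h1 | h1 | ⟨u, hu⟩
  · exact Or.inl h1
  · exact Or.inr (Or.inl h1)
  · refine Or.inr (Or.inr ⟨u, r, fun x hx h2 => ?_⟩)
    rw [Finset.mem_insert] at h2
    rcases h2 with (h2 | h2) | h2
    · exact Or.inr h2
    · exact Or.inl (hu x hx (Or.inl h2))
    · exact Or.inl (hu x hx (Or.inr h2))

private theorem mem_image_Tr {ℓ : Fin d → Fin k} (hℓ : Function.Surjective ℓ) {Q : Finset (Pt k)}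
    {y : Pt k} : emb ℓ y ∈ Q.image (emb ℓ) ↔ y ∈ Q := by
  rw [Finset.mem_image]
  constructor
  · rintro ⟨z, hz, h⟩
    rwa [← emb_inj ℓ hℓ h]
  · intro h
    exact ⟨y, h, rfl⟩

private theorem inSub_image_Tr {ℓ : Fin d → Fin k} {Q : Finset (Pt k)} {x : Pt d}
    (h : x ∈ Q.image (emb ℓ)) : InSub ℓ x := by
  rw [Finset.mem_image] at h
  obtain ⟨y, -, rfl⟩ := h
  exact inSub_emb ℓ y

/-- The answer `r` completes no line. -/
private theorem no_line_Tr {ℓ : Fin d → Fin k} (hℓ : Function.Surjective ℓ) {P Q : Finset (Pt k)}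
    {m f : Pt k} (hfP : f ∉ insert m P) (hfQ : f ∉ Q)
    (hD : ∀ r, r ∉ insert m P → r ∉ Q → ∀ e', IsLn e' → ¬ e' ⊆ insert r Q)
    {E X : Finset (Pt d)} (hE : ∀ x ∈ E, ¬ InSub ℓ x) (hX : ∀ x ∈ X, ¬ InSub ℓ x)
    (hEX : Disjoint E X) (H : H2Tr ℓ E X) {r : Pt d}
    (hr : ∀ y, emb ℓ y = r → y ∉ insert m P) (hrX : r ∉ X) (hrQ : r ∉ Q.image (emb ℓ) ∪ E)
    {e : Finset (Pt d)} (he : IsLn e) : ¬ e ⊆ insert r (Q.image (emb ℓ) ∪ E) := by
  intro hs
  rcases H e he with ⟨x, hx, hxX⟩ | ⟨e', he', rfl⟩ | ⟨u, v, huv⟩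
  · have h := hs hx
    rw [Finset.mem_insert, Finset.mem_union] at h
    rcases h with h | h | h
    · exact hrX (h ▸ hxX)
    · exact hX x hxX (inSub_image_Tr h)
    · exact Finset.disjoint_left.mp hEX h hxX
  · rw [Finset.mem_union, not_or] at hrQ
    by_cases hsub : InSub ℓ r
    · obtain ⟨y, rfl⟩ := (inSub_iff ℓ hℓ r).mp hsub
      refine hD y (hr y rfl) (fun h => hrQ.1 ((mem_image_Tr hℓ).mpr h)) e' he' ?_
      intro z hz
      have h := hs (Finset.mem_image_of_mem _ hz)
      rw [Finset.mem_insert, Finset.mem_union] at h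
      rw [Finset.mem_insert]
      rcases h with h | h | h
      · exact Or.inl (emb_inj ℓ hℓ h)
      · exact Or.inr ((mem_image_Tr hℓ).mp h)
      · exact absurd (inSub_emb ℓ z) (hE _ h)
    · refine hD f hfP hfQ e' he' ?_
      intro z hz
      have h := hs (Finset.mem_image_of_mem _ hz)
      rw [Finset.mem_insert, Finset.mem_union] at h
      rw [Finset.mem_insert]
      rcases h with h | h | h
      · exact absurd (h ▸ inSub_emb ℓ z) hsub
      · exact Or.inr ((mem_image_Tr hℓ).mp h)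
      · exact absurd (inSub_emb ℓ z) (hE _ h)
  · have h4 := card_line he
    have hsub : e ⊆ {r, u, v} := by
      intro x hx
      have h := hs hx
      rw [Finset.mem_insert, Finset.mem_union] at h
      rw [Finset.mem_insert, Finset.mem_insert, Finset.mem_singleton]
      rcases h with h | h | h
      · exact Or.inl h
      · exact Or.inr (huv x hx (Or.inr (inSub_image_Tr h)))
      · exact Or.inr (huv x hx (Or.inl h))
    have h3 : ({r, u, v} : Finset (Pt d)).card ≤ 3 := Finset.card_le_three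
    have := Finset.card_le_card hsub
    omega

/-- A forcing move. -/
private theorem force_Tr {ℓ : Fin d → Fin k} (hℓ : Function.Surjective ℓ) {P Q : Finset (Pt k)}
    {m f : Pt k} {e : Finset (Pt k)} (hmP : m ∉ P) (hmQ : m ∉ Q)
    (hfP : f ∉ insert m P) (hfQ : f ∉ Q) (he : IsLn e) (hs : e ⊆ insert f (insert m P))
    (hD : ∀ r, r ∉ insert m P → r ∉ Q → ∀ e', IsLn e' → ¬ e' ⊆ insert r Q)
    {E X : Finset (Pt d)} (hE : ∀ x ∈ E, ¬ InSub ℓ x) (hX : ∀ x ∈ X, ¬ InSub ℓ x)
    (hEX : Disjoint E X) (H : H2Tr ℓ E X)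
    (ih : WinA ((insert m P).image (emb ℓ) ∪ X) ((insert f Q).image (emb ℓ) ∪ E)) :
    WinA (P.image (emb ℓ) ∪ X) (Q.image (emb ℓ) ∪ E) := by
  have hins : insert (emb ℓ m) (P.image (emb ℓ) ∪ X) = (insert m P).image (emb ℓ) ∪ X := by
    rw [Finset.image_insert, Finset.insert_union]
  have hm1 : emb ℓ m ∉ P.image (emb ℓ) ∪ X := by
    rw [Finset.mem_union, not_or]
    exact ⟨fun h => hmP ((mem_image_Tr hℓ).mp h), fun h => hX _ h (inSub_emb ℓ m)⟩
  have hm2 : emb ℓ m ∉ Q.image (emb ℓ) ∪ E := by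
    rw [Finset.mem_union, not_or]
    exact ⟨fun h => hmQ ((mem_image_Tr hℓ).mp h), fun h => hE _ h (inSub_emb ℓ m)⟩
  have hf1 : emb ℓ f ∉ (insert m P).image (emb ℓ) ∪ X := by
    rw [Finset.mem_union, not_or]
    exact ⟨fun h => hfP ((mem_image_Tr hℓ).mp h), fun h => hX _ h (inSub_emb ℓ f)⟩
  have hf2 : emb ℓ f ∉ Q.image (emb ℓ) ∪ E := by
    rw [Finset.mem_union, not_or]
    exact ⟨fun h => hfQ ((mem_image_Tr hℓ).mp h), fun h => hE _ h (inSub_emb ℓ f)⟩
  refine WinA.mv _ _ (emb ℓ m) hm1 hm2 ?_ ?_ ?_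
  · rw [hins]
    exact ⟨emb ℓ f, hf1, hf2⟩
  · rw [hins]
    intro r hr1 hr2 e' he'
    rw [Finset.mem_union, not_or] at hr1
    exact no_line_Tr hℓ hfP hfQ hD hE hX hEX H
      (fun y hy h => hr1.1 (by rw [← hy]; exact (mem_image_Tr hℓ).mpr h)) hr1.2 hr2 he'
  · rw [hins]
    intro r hr1 hr2
    by_cases hrf : r = emb ℓ f
    · rw [hrf]
      have hfi : insert (emb ℓ f) (Q.image (emb ℓ) ∪ E) = (insert f Q).image (emb ℓ) ∪ E := by
        rw [Finset.image_insert, Finset.insert_union]
      rw [hfi]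
      exact ih
    · refine WinA.fin _ _ (emb ℓ f) (e.image (emb ℓ)) hf1 ?_ (line_emb ℓ hℓ he) ?_
      · rw [Finset.mem_insert, not_or]
        exact ⟨fun h => hrf h.symm, hf2⟩
      · intro x hx
        rw [Finset.mem_image] at hx
        obtain ⟨y, hy, rfl⟩ := hx
        have h := hs hy
        rw [Finset.mem_insert] at h
        rw [Finset.mem_insert, Finset.mem_union]
        rcases h with h | h
        · exact Or.inl (by rw [h])
        · exact Or.inr (Or.inl ((mem_image_Tr hℓ).mpr h))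

private theorem vcf_Tr {ℓ : Fin d → Fin k} (hℓ : Function.Surjective ℓ) {P Q : Finset (Pt k)}
    (h : Vcf P Q) {E X : Finset (Pt d)} (hE : ∀ x ∈ E, ¬ InSub ℓ x)
    (hX : ∀ x ∈ X, ¬ InSub ℓ x) (hEX : Disjoint E X) (H : H2Tr ℓ E X) :
    WinA (P.image (emb ℓ) ∪ X) (Q.image (emb ℓ) ∪ E) := by
  induction h with
  | win P Q m e hmP hmQ he hs =>
    refine WinA.fin _ _ (emb ℓ m) (e.image (emb ℓ)) ?_ ?_ (line_emb ℓ hℓ he) ?_
    · rw [Finset.mem_union, not_or]
      exact ⟨fun h => hmP ((mem_image_Tr hℓ).mp h), fun h => hX _ h (inSub_emb ℓ m)⟩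
    · rw [Finset.mem_union, not_or]
      exact ⟨fun h => hmQ ((mem_image_Tr hℓ).mp h), fun h => hE _ h (inSub_emb ℓ m)⟩
    · intro x hx
      rw [Finset.mem_image] at hx
      obtain ⟨y, hy, rfl⟩ := hx
      have h := hs hy
      rw [Finset.mem_insert] at h
      rw [Finset.mem_insert, Finset.mem_union]
      rcases h with h | h
      · exact Or.inl (by rw [h])
      · exact Or.inr (Or.inl ((mem_image_Tr hℓ).mpr h))
  | thr P Q m f e hmP hmQ hfP hfQ he hs hD hA ih =>
    exact force_Tr hℓ hmP hmQ hfP hfQ he hs hD hE hX hEX H ih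

private theorem free_Tr {P Q : Finset (Pt k)} (h : Vcf P Q) : ∃ f, f ∉ P ∧ f ∉ Q := by
  cases h with
  | win _ _ m e hmP hmQ he hs => exact ⟨m, hmP, hmQ⟩
  | thr _ _ m f e hmP hmQ hfP hfQ he hs hD hA => exact ⟨m, hmP, hmQ⟩

/-- A quiet move. -/
private theorem quiet_Tr {ℓ : Fin d → Fin k} (hℓ : Function.Surjective ℓ) {P Q : Finset (Pt k)}
    {m : Pt k} (hmP : m ∉ P) (hmQ : m ∉ Q)
    (hD : ∀ r, r ∉ insert m P → r ∉ Q → ∀ e', IsLn e' → ¬ e' ⊆ insert r Q)
    (hV : Vcf (insert m P) Q)
    {E X : Finset (Pt d)} (hE : ∀ x ∈ E, ¬ InSub ℓ x) (hX : ∀ x ∈ X, ¬ InSub ℓ x)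
    (hEX : Disjoint E X) (H : H2Tr ℓ E X)
    (ih : ∀ r, r ∉ insert m P → r ∉ Q →
      WinA ((insert m P).image (emb ℓ) ∪ X) ((insert r Q).image (emb ℓ) ∪ E))
    (hout : ∀ r, ¬ InSub ℓ r → r ∉ X → r ∉ E →
      WinA ((insert m P).image (emb ℓ) ∪ X) (Q.image (emb ℓ) ∪ insert r E)) :
    WinA (P.image (emb ℓ) ∪ X) (Q.image (emb ℓ) ∪ E) := by
  have hins : insert (emb ℓ m) (P.image (emb ℓ) ∪ X) = (insert m P).image (emb ℓ) ∪ X := by
    rw [Finset.image_insert, Finset.insert_union]
  obtain ⟨f, hfP, hfQ⟩ := free_Tr hV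
  have hm1 : emb ℓ m ∉ P.image (emb ℓ) ∪ X := by
    rw [Finset.mem_union, not_or]
    exact ⟨fun h => hmP ((mem_image_Tr hℓ).mp h), fun h => hX _ h (inSub_emb ℓ m)⟩
  have hm2 : emb ℓ m ∉ Q.image (emb ℓ) ∪ E := by
    rw [Finset.mem_union, not_or]
    exact ⟨fun h => hmQ ((mem_image_Tr hℓ).mp h), fun h => hE _ h (inSub_emb ℓ m)⟩
  have hf1 : emb ℓ f ∉ (insert m P).image (emb ℓ) ∪ X := by
    rw [Finset.mem_union, not_or]
    exact ⟨fun h => hfP ((mem_image_Tr hℓ).mp h), fun h => hX _ h (inSub_emb ℓ f)⟩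
  have hf2 : emb ℓ f ∉ Q.image (emb ℓ) ∪ E := by
    rw [Finset.mem_union, not_or]
    exact ⟨fun h => hfQ ((mem_image_Tr hℓ).mp h), fun h => hE _ h (inSub_emb ℓ f)⟩
  refine WinA.mv _ _ (emb ℓ m) hm1 hm2 ?_ ?_ ?_
  · rw [hins]
    exact ⟨emb ℓ f, hf1, hf2⟩
  · rw [hins]
    intro r hr1 hr2 e' he'
    rw [Finset.mem_union, not_or] at hr1
    exact no_line_Tr hℓ hfP hfQ hD hE hX hEX H
      (fun y hy h => hr1.1 (by rw [← hy]; exact (mem_image_Tr hℓ).mpr h)) hr1.2 hr2 he'
  · rw [hins]
    intro r hr1 hr2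
    rw [Finset.mem_union, not_or] at hr1 hr2
    by_cases hsub : InSub ℓ r
    · obtain ⟨y, rfl⟩ := (inSub_iff ℓ hℓ r).mp hsub
      have hfi : insert (emb ℓ y) (Q.image (emb ℓ) ∪ E) = (insert y Q).image (emb ℓ) ∪ E := by
        rw [Finset.image_insert, Finset.insert_union]
      rw [hfi]
      exact ih y (fun h => hr1.1 ((mem_image_Tr hℓ).mpr h))
        (fun h => hr2.1 ((mem_image_Tr hℓ).mpr h))
    · have := hout r hsub hr1.2 hr2.2
      rwa [Finset.union_insert] at this

private theorem out_Tr {ℓ : Fin d → Fin k} {E : Finset (Pt d)} (hE : ∀ x ∈ E, ¬ InSub ℓ x)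
    {r : Pt d} (hr : ¬ InSub ℓ r) : ∀ x ∈ insert r E, ¬ InSub ℓ x := by
  intro x hx
  rw [Finset.mem_insert] at hx
  rcases hx with rfl | hx
  · exact hr
  · exact hE x hx

private theorem disj_Tr {E X : Finset (Pt d)} (hEX : Disjoint E X) {r : Pt d} (hr : r ∉ X) :
    Disjoint (insert r E) X :=
  Finset.disjoint_insert_left.mpr ⟨hr, hEX⟩

private theorem ta_Tr {ℓ : Fin d → Fin k} (hℓ : Function.Surjective ℓ) {P Q : Finset (Pt k)}
    (h : TA P Q) {E X : Finset (Pt d)} (hE : ∀ x ∈ E, ¬ InSub ℓ x)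
    (hX : ∀ x ∈ X, ¬ InSub ℓ x) (hEX : Disjoint E X) (H : H1Tr ℓ E X) :
    WinA (P.image (emb ℓ) ∪ X) (Q.image (emb ℓ) ∪ E) := by
  induction h with
  | vcf P Q h => exact vcf_Tr hℓ h hE hX hEX (h1_h2_Tr H)
  | frc P Q m f e hmP hmQ hfP hfQ he hs hD hA ih =>
    exact force_Tr hℓ hmP hmQ hfP hfQ he hs hD hE hX hEX (h1_h2_Tr H) ih
  | mv P Q m hmP hmQ hD hV hA ih =>
    exact quiet_Tr hℓ hmP hmQ hD hV hE hX hEX (h1_h2_Tr H) ih fun r hr hrX _ =>
      vcf_Tr hℓ hV (out_Tr hE hr) hX (disj_Tr hEX hrX) (h1_insert_Tr H r)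

theorem vcf_emb (ℓ : Fin d → Fin k) (hℓ : Function.Surjective ℓ) {P Q : Finset (Pt k)}
    (h : Vcf P Q) (hPQ : Disjoint P Q) (E X : Finset (Pt d)) (hE : ∀ x ∈ E, ¬ InSub ℓ x)
    (hX : ∀ x ∈ X, ¬ InSub ℓ x) (hEX : Disjoint E X)
    (H : ∀ e, IsLn e → (∃ x ∈ e, x ∈ X) ∨ (∃ e' : Finset (Pt k), IsLn e' ∧ e = e'.image (emb ℓ)) ∨
      ∃ u v, ∀ x ∈ e, (x ∈ E ∨ InSub ℓ x) → x = u ∨ x = v) :
    WinA (P.image (emb ℓ) ∪ X) (Q.image (emb ℓ) ∪ E) :=
  vcf_Tr hℓ h hE hX hEX H

theorem ta_emb (ℓ : Fin d → Fin k) (hℓ : Function.Surjective ℓ) {P Q : Finset (Pt k)}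
    (h : TA P Q) (hPQ : Disjoint P Q) (E X : Finset (Pt d)) (hE : ∀ x ∈ E, ¬ InSub ℓ x)
    (hX : ∀ x ∈ X, ¬ InSub ℓ x) (hEX : Disjoint E X)
    (H : ∀ e, IsLn e → (∃ x ∈ e, x ∈ X) ∨ (∃ e' : Finset (Pt k), IsLn e' ∧ e = e'.image (emb ℓ)) ∨
      ∃ u, ∀ x ∈ e, (x ∈ E ∨ InSub ℓ x) → x = u) :
    WinA (P.image (emb ℓ) ∪ X) (Q.image (emb ℓ) ∪ E) :=
  ta_Tr hℓ h hE hX hEX H

/-- A line outside of the subspace has at most one point in it. -/
private theorem one_Tr (ℓ : Fin d → Fin k) (hℓ : Function.Surjective ℓ) {e : Finset (Pt d)}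
    (he : IsLn e) : (∃ e' : Finset (Pt k), IsLn e' ∧ e = e'.image (emb ℓ)) ∨
      ∃ w, ∀ x ∈ e, InSub ℓ x → x = w := by
  rcases line_cases ℓ hℓ he with h | h
  · exact Or.inl h
  · right
    by_cases hw : ∃ w ∈ e, InSub ℓ w
    · obtain ⟨w, hwe, hws⟩ := hw
      exact ⟨w, fun x hx hxs => h x hx w hwe hxs hws⟩
    · refine ⟨fun _ => 0, fun x hx hxs => absurd ⟨x, hx, hxs⟩ hw⟩

theorem tr0 (ℓ : Fin d → Fin k) (hℓ : Function.Surjective ℓ) {P Q : Finset (Pt k)}
    (h : TA P Q) (hPQ : Disjoint P Q) : WinA (P.image (emb ℓ)) (Q.image (emb ℓ)) := by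
  have := ta_Tr hℓ h (E := ∅) (X := ∅) (by simp) (by simp) (by simp) (by
    intro e he
    rcases one_Tr ℓ hℓ he with h | ⟨w, hw⟩
    · exact Or.inr (Or.inl h)
    · refine Or.inr (Or.inr ⟨w, fun x hx h => ?_⟩)
      rcases h with h | h
      · exact absurd h (Finset.notMem_empty x)
      · exact hw x hx h)
  rwa [Finset.union_empty, Finset.union_empty] at this

/-- Every point lies on a line (if the dimension is positive). -/
private theorem on_line_Tr (j : Fin d) (z : Pt d) : ∃ e : Finset (Pt d), IsLn e ∧ z ∈ e := by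
  refine ⟨Finset.univ.image fun i : Fin 4 => Function.update z j i,
    ⟨fun i => Function.update z j i, ?_, ⟨j, 0, 1, ?_⟩, rfl⟩, ?_⟩
  · intro l
    by_cases h : l = j
    · subst h
      right; left
      intro i
      exact Function.update_self ..
    · left
      intro i i'
      show Function.update z j i l = Function.update z j i' l
      rw [Function.update_of_ne h, Function.update_of_ne h]
  · show Function.update z j 0 j ≠ Function.update z j 1 j
    rw [Function.update_self, Function.update_self]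
    decide
  · rw [Finset.mem_image]
    exact ⟨z j, Finset.mem_univ _, Function.update_eq_self ..⟩

/-- A far point is not in the subspace (if the dimension is positive). -/
private theorem far_out_Tr {ℓ : Fin d → Fin k} (j : Fin d) {z : Pt d} (hz : Far ℓ z) :
    ¬ InSub ℓ z := by
  obtain ⟨e, he, hze⟩ := on_line_Tr j z
  exact hz e he hze z hze

private theorem dimv_Tr {P Q : Finset (Pt k)} (h : Vcf P Q) : Nonempty (Fin k) := by
  cases h with
  | win _ _ m e hmP hmQ he hs =>
    obtain ⟨f, hf, ⟨j, -⟩, -⟩ := he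
    exact ⟨j⟩
  | thr _ _ m f e hmP hmQ hfP hfQ he hs hD hA =>
    obtain ⟨f, hf, ⟨j, -⟩, -⟩ := he
    exact ⟨j⟩

private theorem dim_Tr {P Q : Finset (Pt k)} (h : TA P Q) : Nonempty (Fin k) := by
  cases h with
  | vcf _ _ h => exact dimv_Tr h
  | frc _ _ m f e hmP hmQ hfP hfQ he hs hD hA =>
    obtain ⟨f, hf, ⟨j, -⟩, -⟩ := he
    exact ⟨j⟩
  | mv _ _ m hmP hmQ hD hV hA => exact dimv_Tr hV

theorem tr1 (ℓ : Fin d → Fin k) (hℓ : Function.Surjective ℓ) {P Q : Finset (Pt k)}
    (h : TA P Q) (hPQ : Disjoint P Q) (u : Pt d) (hu : Far ℓ u) :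
    WinA (P.image (emb ℓ)) (insert u (Q.image (emb ℓ))) := by
  obtain ⟨b⟩ := dim_Tr h
  obtain ⟨j, -⟩ := hℓ b
  have hout := far_out_Tr j hu
  have := ta_Tr hℓ h (E := {u}) (X := ∅) (by
      intro x hx
      rw [Finset.mem_singleton] at hx
      rw [hx]
      exact hout) (by simp) (by simp) (by
    intro e he
    rcases one_Tr ℓ hℓ he with h | ⟨w, hw⟩
    · exact Or.inr (Or.inl h)
    · right; right
      by_cases hue : u ∈ e
      · refine ⟨u, fun x hx h => ?_⟩
        rcases h with h | h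
        · exact Finset.mem_singleton.mp h
        · exact absurd h (hu e he hue x hx)
      · refine ⟨w, fun x hx h => ?_⟩
        rcases h with h | h
        · rw [Finset.mem_singleton] at h
          exact absurd (h ▸ hx) hue
        · exact hw x hx h)
  rwa [Finset.union_empty, Finset.union_comm, ← Finset.insert_eq] at this

/-- Two stones at far cells: the bound two. -/
private theorem two_Tr (ℓ : Fin d → Fin k) (hℓ : Function.Surjective ℓ) {u v : Pt d}
    (hu : Far ℓ u) (hv : Far ℓ v) : H2Tr ℓ {u, v} ∅ := by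
  intro e he
  rcases one_Tr ℓ hℓ he with h | ⟨w, hw⟩
  · exact Or.inr (Or.inl h)
  · right; right
    by_cases hue : u ∈ e
    · refine ⟨u, v, fun x hx h => ?_⟩
      rcases h with h | h
      · rw [Finset.mem_insert, Finset.mem_singleton] at h
        exact h
      · exact absurd h (hu e he hue x hx)
    · by_cases hve : v ∈ e
      · refine ⟨u, v, fun x hx h => ?_⟩
        rcases h with h | h
        · rw [Finset.mem_insert, Finset.mem_singleton] at h
          exact h
        · exact absurd h (hv e he hve x hx)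
      · refine ⟨w, w, fun x hx h => ?_⟩
        rcases h with h | h
        · rw [Finset.mem_insert, Finset.mem_singleton] at h
          rcases h with h | h
          · exact absurd (h ▸ hx) hue
          · exact absurd (h ▸ hx) hve
        · exact Or.inl (hw x hx h)

/-- The answer `r` is not on the line through `u` and `v`. -/
private theorem caseB_Tr (ℓ : Fin d → Fin k) (hℓ : Function.Surjective ℓ) {u v r : Pt d}
    (hu : Far ℓ u) (hv : Far ℓ v)
    (hr : ¬ ∃ e, IsLn e ∧ u ∈ e ∧ v ∈ e ∧ r ∈ e) : H2Tr ℓ {r, u, v} ∅ := by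
  intro e he
  rcases one_Tr ℓ hℓ he with h | ⟨w, hw⟩
  · exact Or.inr (Or.inl h)
  · right; right
    by_cases hue : u ∈ e
    · by_cases hve : v ∈ e
      · have hre : r ∉ e := fun h => hr ⟨e, he, hue, hve, h⟩
        refine ⟨u, v, fun x hx h => ?_⟩
        rcases h with h | h
        · rw [Finset.mem_insert, Finset.mem_insert, Finset.mem_singleton] at h
          rcases h with h | h
          · exact absurd (h ▸ hx) hre
          · exact h
        · exact absurd h (hu e he hue x hx)
      · refine ⟨u, r, fun x hx h => ?_⟩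
        rcases h with h | h
        · rw [Finset.mem_insert, Finset.mem_insert, Finset.mem_singleton] at h
          rcases h with h | h | h
          · exact Or.inr h
          · exact Or.inl h
          · exact absurd (h ▸ hx) hve
        · exact absurd h (hu e he hue x hx)
    · by_cases hve : v ∈ e
      · refine ⟨v, r, fun x hx h => ?_⟩
        rcases h with h | h
        · rw [Finset.mem_insert, Finset.mem_insert, Finset.mem_singleton] at h
          rcases h with h | h | h
          · exact Or.inr h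
          · exact absurd (h ▸ hx) hue
          · exact Or.inl h
        · exact absurd h (hv e he hve x hx)
      · refine ⟨w, r, fun x hx h => ?_⟩
        rcases h with h | h
        · rw [Finset.mem_insert, Finset.mem_insert, Finset.mem_singleton] at h
          rcases h with h | h | h
          · exact Or.inr h
          · exact absurd (h ▸ hx) hue
          · exact absurd (h ▸ hx) hve
        · exact Or.inl (hw x hx h)

/-- The answer `r` is on the line through `u` and `v`, and the first player takes the fourth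
point `s`. -/
private theorem caseA_Tr (ℓ : Fin d → Fin k) (hℓ : Function.Surjective ℓ) {u v r s : Pt d}
    (huv : u ≠ v) (hru : r ≠ u) (hrv : r ≠ v) (hu : Far ℓ u) (hv : Far ℓ v) (hrF : Far ℓ r)
    {e₀ : Finset (Pt d)} (he₀ : IsLn e₀) (hue : u ∈ e₀) (hve : v ∈ e₀) (hre : r ∈ e₀)
    (hse : s ∈ e₀) : H1Tr ℓ {r, u, v} {s} := by
  intro e he
  by_cases hs : s ∈ e
  · exact Or.inl ⟨s, hs, Finset.mem_singleton_self s⟩
  rcases one_Tr ℓ hℓ he with h | ⟨w, hw⟩
  · exact Or.inr (Or.inl h)
  · right; right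
    have hne : ∀ a b, a ≠ b → a ∈ e₀ → b ∈ e₀ → a ∈ e → b ∉ e := by
      intro a b hab ha₀ hb₀ ha hb
      exact hs (line_unique he₀ he hab ha₀ hb₀ ha hb ▸ hse)
    by_cases hue' : u ∈ e
    · refine ⟨u, fun x hx h => ?_⟩
      rcases h with h | h
      · rw [Finset.mem_insert, Finset.mem_insert, Finset.mem_singleton] at h
        rcases h with h | h | h
        · exact absurd (h ▸ hx) (hne u r hru.symm hue hre hue')
        · exact h
        · exact absurd (h ▸ hx) (hne u v huv hue hve hue')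
      · exact absurd h (hu e he hue' x hx)
    · by_cases hve' : v ∈ e
      · refine ⟨v, fun x hx h => ?_⟩
        rcases h with h | h
        · rw [Finset.mem_insert, Finset.mem_insert, Finset.mem_singleton] at h
          rcases h with h | h | h
          · exact absurd (h ▸ hx) (hne v r hrv.symm hve hre hve')
          · exact absurd (h ▸ hx) hue'
          · exact h
        · exact absurd h (hv e he hve' x hx)
      · by_cases hre' : r ∈ e
        · refine ⟨r, fun x hx h => ?_⟩
          rcases h with h | h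
          · rw [Finset.mem_insert, Finset.mem_insert, Finset.mem_singleton] at h
            rcases h with h | h | h
            · exact h
            · exact absurd (h ▸ hx) hue'
            · exact absurd (h ▸ hx) hve'
          · exact absurd h (hrF e he hre' x hx)
        · refine ⟨w, fun x hx h => ?_⟩
          rcases h with h | h
          · rw [Finset.mem_insert, Finset.mem_insert, Finset.mem_singleton] at h
            rcases h with h | h | h
            · exact absurd (h ▸ hx) hre'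
            · exact absurd (h ▸ hx) hue'
            · exact absurd (h ▸ hx) hve'
          · exact hw x hx h

/-- The fourth point of a line. -/
private theorem fourth_Tr {e : Finset (Pt d)} (he : IsLn e) (u v r : Pt d) :
    ∃ s ∈ e, s ≠ u ∧ s ≠ v ∧ s ≠ r := by
  by_contra hcon
  push Not at hcon
  have hsub : e ⊆ {u, v, r} := by
    intro x hx
    rw [Finset.mem_insert, Finset.mem_insert, Finset.mem_singleton]
    by_contra h
    rw [not_or, not_or] at h
    exact h.2.2 (hcon x hx h.1 h.2.1)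
  have h1 := Finset.card_le_card hsub
  have h2 : ({u, v, r} : Finset (Pt d)).card ≤ 3 := Finset.card_le_three
  have h3 := card_line he
  omega

/-- The position after the quiet move `m` and the answer `r` on the line through `u`, `v`. -/
private theorem stepA_Tr (ℓ : Fin d → Fin k) (hℓ : Function.Surjective ℓ) {P Q : Finset (Pt k)}
    {m : Pt k}
    (hD : ∀ r, r ∉ insert m P → r ∉ Q → ∀ e', IsLn e' → ¬ e' ⊆ insert r Q)
    (hV : Vcf (insert m P) Q)
    (hA : ∀ r, r ∉ insert m P → r ∉ Q → TA (insert m P) (insert r Q))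
    {u v r s : Pt d} (huv : u ≠ v) (hru : r ≠ u) (hrv : r ≠ v) (hsu : s ≠ u) (hsv : s ≠ v)
    (hsr : s ≠ r) (hu : Far ℓ u) (hv : Far ℓ v) (hrF : Far ℓ r)
    {e₀ : Finset (Pt d)} (he₀ : IsLn e₀) (hue : u ∈ e₀) (hve : v ∈ e₀) (hre : r ∈ e₀)
    (hse : s ∈ e₀) :
    WinA ((insert m P).image (emb ℓ) ∪ ∅) (Q.image (emb ℓ) ∪ {r, u, v}) := by
  have H := caseA_Tr ℓ hℓ huv hru hrv hu hv hrF he₀ hue hve hre hse
  have hout : ∀ x ∈ e₀, ¬ InSub ℓ x := hu e₀ he₀ hue
  have hE : ∀ x ∈ ({r, u, v} : Finset (Pt d)), ¬ InSub ℓ x := by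
    intro x hx
    rw [Finset.mem_insert, Finset.mem_insert, Finset.mem_singleton] at hx
    rcases hx with rfl | rfl | rfl
    · exact hout _ hre
    · exact hout _ hue
    · exact hout _ hve
  have hX : ∀ x ∈ ({s} : Finset (Pt d)), ¬ InSub ℓ x := by
    intro x hx
    rw [Finset.mem_singleton] at hx
    rw [hx]
    exact hout _ hse
  have hEX : Disjoint ({r, u, v} : Finset (Pt d)) {s} := by
    rw [Finset.disjoint_singleton_right, Finset.mem_insert, Finset.mem_insert,
      Finset.mem_singleton]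
    rintro (h | h | h)
    · exact hsr h
    · exact hsu h
    · exact hsv h
  have hins : insert s ((insert m P).image (emb ℓ) ∪ ∅) = (insert m P).image (emb ℓ) ∪ {s} := by
    rw [Finset.union_empty, Finset.union_comm, ← Finset.insert_eq]
  obtain ⟨f, hfP, hfQ⟩ := free_Tr hV
  have hf1 : emb ℓ f ∉ (insert m P).image (emb ℓ) ∪ {s} := by
    rw [Finset.mem_union, not_or]
    exact ⟨fun h => hfP ((mem_image_Tr hℓ).mp h), fun h => hX _ h (inSub_emb ℓ f)⟩
  have hf2 : emb ℓ f ∉ Q.image (emb ℓ) ∪ {r, u, v} := by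
    rw [Finset.mem_union, not_or]
    exact ⟨fun h => hfQ ((mem_image_Tr hℓ).mp h), fun h => hE _ h (inSub_emb ℓ f)⟩
  refine WinA.mv _ _ s ?_ ?_ ?_ ?_ ?_
  · rw [Finset.union_empty]
    exact fun h => hout _ hse (inSub_image_Tr h)
  · rw [Finset.mem_union, not_or]
    exact ⟨fun h => hout _ hse (inSub_image_Tr h),
      fun h => Finset.disjoint_left.mp hEX h (Finset.mem_singleton_self s)⟩
  · rw [hins]
    exact ⟨emb ℓ f, hf1, hf2⟩
  · rw [hins]
    intro r' hr1 hr2 e' he'
    rw [Finset.mem_union, not_or] at hr1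
    exact no_line_Tr hℓ hfP hfQ hD hE hX hEX (h1_h2_Tr H)
      (fun y hy h => hr1.1 (by rw [← hy]; exact (mem_image_Tr hℓ).mpr h)) hr1.2 hr2 he'
  · rw [hins]
    intro r' hr1 hr2
    rw [Finset.mem_union, not_or] at hr1 hr2
    by_cases hsub : InSub ℓ r'
    · obtain ⟨y, rfl⟩ := (inSub_iff ℓ hℓ r').mp hsub
      have hfi : insert (emb ℓ y) (Q.image (emb ℓ) ∪ {r, u, v}) =
          (insert y Q).image (emb ℓ) ∪ {r, u, v} := by
        rw [Finset.image_insert, Finset.insert_union]
      rw [hfi]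
      exact ta_Tr hℓ (hA y (fun h => hr1.1 ((mem_image_Tr hℓ).mpr h))
        (fun h => hr2.1 ((mem_image_Tr hℓ).mpr h))) hE hX hEX H
    · have := vcf_Tr hℓ hV (out_Tr hE hsub) hX (disj_Tr hEX hr1.2) (h1_insert_Tr H r')
      rwa [Finset.union_insert] at this

theorem tr2 (ℓ : Fin d → Fin k) (hℓ : Function.Surjective ℓ) {P Q : Finset (Pt k)}
    (h : TA P Q) (hPQ : Disjoint P Q) (u v : Pt d) (huv : u ≠ v) (hu : Far ℓ u) (hv : Far ℓ v)
    (huv' : ∀ e, IsLn e → u ∈ e → v ∈ e → ∀ x ∈ e, Far ℓ x) :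
    WinA (P.image (emb ℓ)) (insert u (insert v (Q.image (emb ℓ)))) := by
  obtain ⟨b⟩ := dim_Tr h
  obtain ⟨j, -⟩ := hℓ b
  have hout := far_out_Tr j hu
  have hout' := far_out_Tr j hv
  have hE : ∀ x ∈ ({u, v} : Finset (Pt d)), ¬ InSub ℓ x := by
    intro x hx
    rw [Finset.mem_insert, Finset.mem_singleton] at hx
    rcases hx with rfl | rfl
    · exact hout
    · exact hout'
  have hX : ∀ x ∈ (∅ : Finset (Pt d)), ¬ InSub ℓ x := fun x hx => absurd hx (Finset.notMem_empty x)
  have hEX : Disjoint ({u, v} : Finset (Pt d)) ∅ := Finset.disjoint_empty_right _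
  have H := two_Tr ℓ hℓ hu hv
  have main : WinA (P.image (emb ℓ) ∪ ∅) (Q.image (emb ℓ) ∪ {u, v}) := by
    clear hPQ
    induction h with
    | vcf P Q h => exact vcf_Tr hℓ h hE hX hEX H
    | frc P Q m f e hmP hmQ hfP hfQ he hs hD hA ih =>
      exact force_Tr hℓ hmP hmQ hfP hfQ he hs hD hE hX hEX H ih
    | mv P Q m hmP hmQ hD hV hA ih =>
      refine quiet_Tr hℓ hmP hmQ hD hV hE hX hEX H ih fun r hr hrX hrE => ?_
      rw [Finset.mem_insert, Finset.mem_singleton, not_or] at hrE
      by_cases hline : ∃ e, IsLn e ∧ u ∈ e ∧ v ∈ e ∧ r ∈ e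
      · obtain ⟨e₀, he₀, hue, hve, hre⟩ := hline
        obtain ⟨s, hse, hsu, hsv, hsr⟩ := fourth_Tr he₀ u v r
        exact stepA_Tr ℓ hℓ hD hV hA huv hrE.1 hrE.2 hsu hsv hsr hu hv
          (huv' e₀ he₀ hue hve r hre) he₀ hue hve hre hse
      · exact vcf_Tr hℓ hV (out_Tr hE hr) hX (disj_Tr hEX hrX) (caseB_Tr ℓ hℓ hu hv hline)
  rwa [Finset.union_empty, Finset.union_comm, Finset.insert_union, ← Finset.insert_eq] at main

end Pool.Agent.Lib_TTT
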