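import Pool.Agent.Lib_TTT.Asm
import Pool.Agent.Lib_TTT.Block2
import Pool.Agent.Lib_TTT.Block3
import Pool.Agent.Lib_TTT.Transfer

/-!
The strategy if the first stone `q1` of the second player has `q1 i0 ≠ 0` and is not constant
besides `i0`.

`asmG2`: the position after `q2 = V2 i0 0 2`. The first player plays `V2 i0 1 2`, or `pL i0 q1`
if `Lev i0 q1` (`win_step`). Let `q3` be the answer.
* `Lev`: `block2` with `a = q1`, `b = q3`, `u = 1`, `v = 2`: `CovG2.fourL`, `fiveL` with `tr0`,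
  `threeL` with `tr1` (`q3` is far by `far_of_cross`). `emb_pL`, `emb_V2`, `emb_rep`: the stones
  come from the stones of `CovG2`.
* not `Lev`, `q1` takes exactly two values besides `i0`: `block2`: `CovG2.four`, `five` with
  `tr0`, `three` with `tr1` (`q3` far).
* not `Lev`, at least three values: `block3`: `four`, `five`, `three'` with `tr1` (`q1` far),
  `alone` with `tr2` (both far; the last condition of `tr2` by `line_points` and the last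
  condition of `block3`).

`asmG1`: the first player plays `V2 i0 0 3`. If the answer `q2` is `V2 i0 0 2`: `asmG2`. If it is
`V2 i0 0 1`: `asmG2` for `sgPt d q1` and `WinA.map lineMap_sg`. Otherwise `q2 ≠ V2 i0 0 c` for
all `c`; `block2` or `block3` with `a = q1`, `b = q2` and `CovG1` in the same way.
-/

set_option autoImplicit false

namespace Pool.Agent.Lib_TTT

variable {d : ℕ}

private theorem AsmG_zero {k : ℕ} [NeZero k] {i0 : Fin d} {J : Fin k → Fin d}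
    {ℓ : Fin d → Fin k} (h1 : J 0 = i0) (h2 : ∀ i, ℓ (J i) = i) (h3 : ∀ x, ℓ x = 0 → x = i0)
    (x : Fin d) : ℓ x = 0 ↔ x = i0 := by
  refine ⟨h3 x, ?_⟩
  rintro rfl
  rw [← h1]
  exact h2 0

private theorem AsmG_V2 {k : ℕ} [NeZero k] {i0 : Fin d} {J : Fin k → Fin d}
    {ℓ : Fin d → Fin k} (h1 : J 0 = i0) (h2 : ∀ i, ℓ (J i) = i) (h3 : ∀ x, ℓ x = 0 → x = i0)
    (u c : Fin 4) : emb ℓ (V2 0 u c) = V2 i0 u c :=
  emb_V2 ℓ i0 0 (AsmG_zero h1 h2 h3) u c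

private theorem AsmG_pL {k : ℕ} [NeZero k] {i0 : Fin d} {J : Fin k → Fin d}
    {ℓ : Fin d → Fin k} (h1 : J 0 = i0) (h2 : ∀ i, ℓ (J i) = i) (h3 : ∀ x, ℓ x = 0 → x = i0)
    (q : Pt d) (hq : ∀ x, q (J (ℓ x)) = q x) : emb ℓ (pL 0 (fun i => q (J i))) = pL i0 q := by
  rw [emb_pL ℓ i0 0 (AsmG_zero h1 h2 h3), emb_rep ℓ J q hq]

private theorem AsmG_NC {k : ℕ} [NeZero k] {i0 : Fin d} {J : Fin k → Fin d}
    {ℓ : Fin d → Fin k} (h3 : ∀ x, ℓ x = 0 → x = i0)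
    {q : Pt d} (hq : ∀ x, q (J (ℓ x)) = q x) (hn : NC i0 q) : NC 0 (fun i => q (J i)) := by
  obtain ⟨x, y, hx, hy, hxy⟩ := hn
  refine ⟨ℓ x, ℓ y, fun h => hx (h3 x h), fun h => hy (h3 y h), ?_⟩
  show q (J (ℓ x)) ≠ q (J (ℓ y))
  rw [hq, hq]
  exact hxy

private theorem AsmG_Lev {k : ℕ} [NeZero k] {i0 : Fin d} {J : Fin k → Fin d}
    {ℓ : Fin d → Fin k} (h1 : J 0 = i0) (h2 : ∀ i, ℓ (J i) = i) (h3 : ∀ x, ℓ x = 0 → x = i0)
    {q : Pt d} (hq : ∀ x, q (J (ℓ x)) = q x) : Lev 0 (fun i => q (J i)) ↔ Lev i0 q := by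
  have h0 := AsmG_zero h1 h2 h3
  constructor
  · rintro ⟨ha, hb⟩
    refine ⟨?_, ?_⟩
    · rw [← h1]
      exact ha
    · intro x hx
      have := hb (ℓ x) (fun h => hx (h3 x h))
      rw [← hq x]
      exact this
  · rintro ⟨ha, hb⟩
    refine ⟨?_, ?_⟩
    · show q (J 0) = 2
      rw [h1]
      exact ha
    · intro i hi
      refine hb (J i) (fun h => hi ?_)
      rw [← h2 i]
      exact (h0 (J i)).2 h

private theorem AsmG_two {i0 : Fin d} {q : Pt d} (hn : NC i0 q)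
    (h : ¬ ∃ x y z, x ≠ i0 ∧ y ≠ i0 ∧ z ≠ i0 ∧ q x ≠ q y ∧ q x ≠ q z ∧ q y ≠ q z) :
    ∃ u v, u < v ∧ (∀ x, x ≠ i0 → q x = u ∨ q x = v) ∧ (∃ x, x ≠ i0 ∧ q x = u) ∧
      ∃ x, x ≠ i0 ∧ q x = v := by
  obtain ⟨x, y, hx, hy, hxy⟩ := hn
  have key : ∀ z, z ≠ i0 → q z = q x ∨ q z = q y := by
    intro z hz
    by_contra hcon
    push Not at hcon
    exact h ⟨x, y, z, hx, hy, hz, hxy, hcon.1.symm, hcon.2.symm⟩
  rcases lt_or_gt_of_ne hxy with hlt | hgt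
  · exact ⟨q x, q y, hlt, key, ⟨x, hx, rfl⟩, ⟨y, hy, rfl⟩⟩
  · exact ⟨q y, q x, hgt, fun z hz => (key z hz).symm, ⟨y, hy, rfl⟩, ⟨x, hx, rfl⟩⟩

private theorem AsmG_ne {k : ℕ} (ℓ : Fin d → Fin k) {x y : Pt k} {x' y' : Pt d}
    (hx : emb ℓ x = x') (hy : emb ℓ y = y') (h : x' ≠ y') : x ≠ y := by
  rintro rfl
  exact h (hx.symm.trans hy)

private theorem AsmG_w0 {k : ℕ} {J : Fin k → Fin d} {ℓ : Fin d → Fin k}
    (h2 : ∀ i, ℓ (J i) = i) {P Q : Finset (Pt k)} {P' Q' : Finset (Pt d)} (h : Won P Q)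
    (hP : P.image (emb ℓ) = P') (hQ : Q.image (emb ℓ) = Q') : WinA P' Q' := by
  subst hP
  subst hQ
  exact tr0 ℓ (fun i => ⟨J i, h2 i⟩) h.1 h.2

private theorem AsmG_w1 {k : ℕ} {J : Fin k → Fin d} {ℓ : Fin d → Fin k}
    (h2 : ∀ i, ℓ (J i) = i) {P Q : Finset (Pt k)} {P' Q' : Finset (Pt d)} (h : Won P Q)
    (u : Pt d) (hu : Cross ℓ u)
    (hP : P.image (emb ℓ) = P') (hQ : insert u (Q.image (emb ℓ)) = Q') : WinA P' Q' := by
  subst hP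
  subst hQ
  exact tr1 ℓ (fun i => ⟨J i, h2 i⟩) h.1 h.2 u (far_of_cross ℓ hu)

private theorem AsmG_w2 {k : ℕ} {J : Fin k → Fin d} {ℓ : Fin d → Fin k}
    (h2 : ∀ i, ℓ (J i) = i) {P Q : Finset (Pt k)} {P' Q' : Finset (Pt d)} (h : Won P Q)
    (a b : Pt d) (hab : a ≠ b) (ha : Cross ℓ a) (hb : Cross ℓ b)
    (hz : ∀ (t₀ t₁ t : Fin 4) (z : Fin d → Fin 4), t₀ ≠ t₁ →
        (∀ x, (a x = b x ∧ z x = a x) ∨ (a x = t₀ ∧ b x = t₁ ∧ z x = t) ∨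
          (a x = Fin.rev t₀ ∧ b x = Fin.rev t₁ ∧ z x = Fin.rev t)) → Cross ℓ z)
    (hP : P.image (emb ℓ) = P') (hQ : insert a (insert b (Q.image (emb ℓ))) = Q') :
    WinA P' Q' := by
  subst hP
  subst hQ
  refine tr2 ℓ (fun i => ⟨J i, h2 i⟩) h.1 h.2 a b hab (far_of_cross ℓ ha) (far_of_cross ℓ hb) ?_
  intro e he hae hbe x hx
  obtain ⟨t₀, t₁, ht, hall⟩ := line_points hab he hae hbe
  obtain ⟨t, ht'⟩ := hall x hx
  exact far_of_cross ℓ (hz t₀ t₁ t x ht ht')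

private theorem AsmG_V2ne {i0 : Fin d} {u u' : Fin 4} (c c' : Fin 4) (h : u ≠ u') :
    V2 i0 u c ≠ V2 i0 u' c' := by
  intro hcon
  have := congrFun hcon i0
  simp only [V2, if_true] at this
  exact h this

private theorem AsmG_NCne {i0 : Fin d} {q : Pt d} (hn : NC i0 q) (u c : Fin 4) :
    q ≠ V2 i0 u c := by
  rintro rfl
  obtain ⟨x, y, hx, hy, hxy⟩ := hn
  apply hxy
  simp [V2, hx, hy]

private theorem AsmG_i1 {k : ℕ} (ℓ : Fin d → Fin k) {a : Pt k} {a' : Pt d}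
    (ha : emb ℓ a = a') : ({a} : Finset (Pt k)).image (emb ℓ) = {a'} := by
  rw [Finset.image_singleton, ha]

private theorem AsmG_i2 {k : ℕ} (ℓ : Fin d → Fin k) {a b : Pt k} {a' b' : Pt d}
    (ha : emb ℓ a = a') (hb : emb ℓ b = b') :
    ({a, b} : Finset (Pt k)).image (emb ℓ) = {a', b'} := by
  rw [Finset.image_insert, Finset.image_singleton, ha, hb]

private theorem AsmG_i3 {k : ℕ} (ℓ : Fin d → Fin k) {a b c : Pt k} {a' b' c' : Pt d}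
    (ha : emb ℓ a = a') (hb : emb ℓ b = b') (hc : emb ℓ c = c') :
    ({a, b, c} : Finset (Pt k)).image (emb ℓ) = {a', b', c'} := by
  rw [Finset.image_insert, Finset.image_insert, Finset.image_singleton, ha, hb, hc]

/-- The position after `q2 = V2 i0 0 2` and the third stones, not `Lev`. -/
private theorem AsmG_G2 (hd : 4 ≤ d) (hC : CovG2) (q1 : Pt d) (i0 : Fin d) (h0 : q1 i0 ≠ 0)
    (hn : NC i0 q1) (hL : ¬ Lev i0 q1) (r : Pt d) (hr0 : r ≠ V2 i0 0 0) (hr3 : r ≠ V2 i0 0 3)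
    (hr1 : r ≠ V2 i0 1 2) (hrq : r ≠ q1) (hr2 : r ≠ V2 i0 0 2) :
    WinA {V2 i0 0 0, V2 i0 0 3, V2 i0 1 2} {q1, V2 i0 0 2, r} := by
  -- four blocks
  have F4 : (∃ (J : Fin 4 → Fin d) (ℓ : Fin d → Fin 4), Inside 4 q1 r i0 J ℓ) →
      WinA {V2 i0 0 0, V2 i0 0 3, V2 i0 1 2} {q1, V2 i0 0 2, r} := by
    rintro ⟨J, ℓ, h1, h2, h3, h4, h5⟩
    have e1 : emb ℓ (fun i => q1 (J i)) = q1 := emb_rep ℓ J q1 h4
    have e2 : emb ℓ (fun i => r (J i)) = r := emb_rep ℓ J r h5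
    have eV := AsmG_V2 (i0 := i0) h1 h2 h3
    refine AsmG_w0 h2 (hC.four (fun i => q1 (J i)) (fun i => r (J i)) ?_ (AsmG_NC h3 h4 hn) ?_
      (AsmG_ne ℓ e2 (eV 0 0) hr0) (AsmG_ne ℓ e2 (eV 0 3) hr3) (AsmG_ne ℓ e2 (eV 1 2) hr1)
      (AsmG_ne ℓ e2 e1 hrq) (AsmG_ne ℓ e2 (eV 0 2) hr2))
      (AsmG_i3 ℓ (eV 0 0) (eV 0 3) (eV 1 2)) (AsmG_i3 ℓ e1 (eV 0 2) e2)
    · show q1 (J 0) ≠ 0
      rw [h1]
      exact h0
    · rw [AsmG_Lev h1 h2 h3 h4]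
      exact hL
  have F5 : (∃ (J : Fin 5 → Fin d) (ℓ : Fin d → Fin 5), Inside 5 q1 r i0 J ℓ ∧
      ExcP (fun i => q1 (J i.succ)) (fun i => r (J i.succ))) →
      WinA {V2 i0 0 0, V2 i0 0 3, V2 i0 1 2} {q1, V2 i0 0 2, r} := by
    rintro ⟨J, ℓ, ⟨h1, h2, h3, h4, h5⟩, hexc⟩
    have e1 : emb ℓ (fun i => q1 (J i)) = q1 := emb_rep ℓ J q1 h4
    have e2 : emb ℓ (fun i => r (J i)) = r := emb_rep ℓ J r h5
    have eV := AsmG_V2 (i0 := i0) h1 h2 h3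
    refine AsmG_w0 h2 (hC.five (fun i => q1 (J i)) (fun i => r (J i)) ?_ ?_
      (AsmG_ne ℓ e2 (eV 0 0) hr0) (AsmG_ne ℓ e2 (eV 0 3) hr3) (AsmG_ne ℓ e2 (eV 1 2) hr1)
      (AsmG_ne ℓ e2 e1 hrq) (AsmG_ne ℓ e2 (eV 0 2) hr2) hexc)
      (AsmG_i3 ℓ (eV 0 0) (eV 0 3) (eV 1 2)) (AsmG_i3 ℓ e1 (eV 0 2) e2)
    · show q1 (J 0) ≠ 0
      rw [h1]
      exact h0
    · rw [AsmG_Lev h1 h2 h3 h4]
      exact hL
  by_cases h3v : ∃ x y z, x ≠ i0 ∧ y ≠ i0 ∧ z ≠ i0 ∧ q1 x ≠ q1 y ∧ q1 x ≠ q1 z ∧ q1 y ≠ q1 z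
  · rcases block3 hd q1 r i0 h3v with H | H | H | H
    · exact F4 H
    · exact F5 H
    · obtain ⟨J, ℓ, ⟨h1, h2, h3, h4, -⟩, hlt, hcr⟩ := H
      have e2 : emb ℓ (fun i => r (J i)) = r := emb_rep ℓ J r h4
      have eV := AsmG_V2 (i0 := i0) h1 h2 h3
      refine AsmG_w1 h2 (hC.three' (fun i => r (J i)) hlt) q1 hcr
        (AsmG_i3 ℓ (eV 0 0) (eV 0 3) (eV 1 2)) ?_
      rw [AsmG_i2 ℓ (eV 0 2) e2]
    · obtain ⟨J, ℓ, h1, h2, h3, hca, hcb, hz⟩ := H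
      have eV := AsmG_V2 (i0 := i0) h1 h2 h3
      refine AsmG_w2 h2 hC.alone q1 r hrq.symm hca hcb hz
        (AsmG_i3 ℓ (eV 0 0) (eV 0 3) (eV 1 2)) ?_
      rw [AsmG_i1 ℓ (eV 0 2)]
      congr 1
      exact Finset.pair_comm _ _
  · obtain ⟨u, v, huv, hall, hu, hv⟩ := AsmG_two hn h3v
    rcases block2 hd q1 r i0 u v huv hall hu hv with H | H | H
    · exact F4 H
    · exact F5 H
    · obtain ⟨J, ℓ, ⟨h1, h2, h3, h4, -⟩, hlt, hcr⟩ := H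
      have e1 : emb ℓ (fun i => q1 (J i)) = q1 := emb_rep ℓ J q1 h4
      have eV := AsmG_V2 (i0 := i0) h1 h2 h3
      refine AsmG_w1 h2 (hC.three (fun i => q1 (J i)) ?_ hlt ?_) r hcr
        (AsmG_i3 ℓ (eV 0 0) (eV 0 3) (eV 1 2)) ?_
      · show q1 (J 0) ≠ 0
        rw [h1]
        exact h0
      · rw [AsmG_Lev h1 h2 h3 h4]
        exact hL
      · rw [AsmG_i2 ℓ e1 (eV 0 2)]
        ext z
        simp only [Finset.mem_insert, Finset.mem_singleton]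
        tauto

/-- The position after `q2 = V2 i0 0 2` and the third stones, `Lev`. -/
private theorem AsmG_G2L (hd : 4 ≤ d) (hC : CovG2) (q1 : Pt d) (i0 : Fin d)
    (hn : NC i0 q1) (hL : Lev i0 q1) (r : Pt d) (hr0 : r ≠ V2 i0 0 0) (hr3 : r ≠ V2 i0 0 3)
    (hr1 : r ≠ pL i0 q1) (hrq : r ≠ q1) (hr2 : r ≠ V2 i0 0 2) :
    WinA {V2 i0 0 0, V2 i0 0 3, pL i0 q1} {q1, V2 i0 0 2, r} := by
  have h12 : (∃ x, x ≠ i0 ∧ q1 x = 1) ∧ ∃ x, x ≠ i0 ∧ q1 x = 2 := by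
    obtain ⟨x, y, hx, hy, hxy⟩ := hn
    rcases hL.2 x hx with h | h
    · rcases hL.2 y hy with h' | h'
      · exact absurd (h.trans h'.symm) hxy
      · exact ⟨⟨x, hx, h⟩, ⟨y, hy, h'⟩⟩
    · rcases hL.2 y hy with h' | h'
      · exact ⟨⟨y, hy, h'⟩, ⟨x, hx, h⟩⟩
      · exact absurd (h.trans h'.symm) hxy
  rcases block2 hd q1 r i0 1 2 (by decide) hL.2 h12.1 h12.2 with H | H | H
  · obtain ⟨J, ℓ, h1, h2, h3, h4, h5⟩ := H
    have e1 : emb ℓ (fun i => q1 (J i)) = q1 := emb_rep ℓ J q1 h4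
    have e2 : emb ℓ (fun i => r (J i)) = r := emb_rep ℓ J r h5
    have eV := AsmG_V2 (i0 := i0) h1 h2 h3
    have eL := AsmG_pL h1 h2 h3 q1 h4
    exact AsmG_w0 h2 (hC.fourL (fun i => q1 (J i)) (fun i => r (J i))
      ((AsmG_Lev h1 h2 h3 h4).2 hL) (AsmG_NC h3 h4 hn)
      (AsmG_ne ℓ e2 (eV 0 0) hr0) (AsmG_ne ℓ e2 (eV 0 3) hr3) (AsmG_ne ℓ e2 eL hr1)
      (AsmG_ne ℓ e2 e1 hrq) (AsmG_ne ℓ e2 (eV 0 2) hr2))
      (AsmG_i3 ℓ (eV 0 0) (eV 0 3) eL) (AsmG_i3 ℓ e1 (eV 0 2) e2)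
  · obtain ⟨J, ℓ, ⟨h1, h2, h3, h4, h5⟩, hexc⟩ := H
    have e1 : emb ℓ (fun i => q1 (J i)) = q1 := emb_rep ℓ J q1 h4
    have e2 : emb ℓ (fun i => r (J i)) = r := emb_rep ℓ J r h5
    have eV := AsmG_V2 (i0 := i0) h1 h2 h3
    have eL := AsmG_pL h1 h2 h3 q1 h4
    exact AsmG_w0 h2 (hC.fiveL (fun i => q1 (J i)) (fun i => r (J i))
      ((AsmG_Lev h1 h2 h3 h4).2 hL)
      (AsmG_ne ℓ e2 (eV 0 0) hr0) (AsmG_ne ℓ e2 (eV 0 3) hr3) (AsmG_ne ℓ e2 eL hr1)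
      (AsmG_ne ℓ e2 e1 hrq) (AsmG_ne ℓ e2 (eV 0 2) hr2) hexc)
      (AsmG_i3 ℓ (eV 0 0) (eV 0 3) eL) (AsmG_i3 ℓ e1 (eV 0 2) e2)
  · obtain ⟨J, ℓ, ⟨h1, h2, h3, h4, -⟩, hlt, hcr⟩ := H
    have e1 : emb ℓ (fun i => q1 (J i)) = q1 := emb_rep ℓ J q1 h4
    have eV := AsmG_V2 (i0 := i0) h1 h2 h3
    have eL := AsmG_pL h1 h2 h3 q1 h4
    refine AsmG_w1 h2 (hC.threeL (fun i => q1 (J i)) ((AsmG_Lev h1 h2 h3 h4).2 hL) hlt) r hcr
      (AsmG_i3 ℓ (eV 0 0) (eV 0 3) eL) ?_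
    rw [AsmG_i2 ℓ e1 (eV 0 2)]
    ext z
    simp only [Finset.mem_insert, Finset.mem_singleton]
    tauto

private theorem AsmG_perm {P Q P' Q' : Finset (Pt d)} (h : WinA P Q) (hP : ∀ z, z ∈ P ↔ z ∈ P')
    (hQ : ∀ z, z ∈ Q ↔ z ∈ Q') : WinA P' Q' := by
  rw [← Finset.ext hP, ← Finset.ext hQ]
  exact h

theorem asmG2 (hd : 4 ≤ d) (hC : CovG2) (q1 : Pt d) (i0 : Fin d) (h0 : q1 i0 ≠ 0)
    (hn : NC i0 q1) : WinA {V2 i0 0 0, V2 i0 0 3} {q1, V2 i0 0 2} := by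
  have c1 : ({V2 i0 0 0, V2 i0 0 3} : Finset (Pt d)).card ≤ 10 :=
    le_trans Finset.card_le_two (by norm_num)
  have c2 : ({q1, V2 i0 0 2} : Finset (Pt d)).card ≤ 2 := Finset.card_le_two
  by_cases hL : Lev i0 q1
  · have n0 : pL i0 q1 i0 = 3 := by simp [pL]
    have m1 : pL i0 q1 ≠ V2 i0 0 0 := by
      intro h
      have := congrFun h i0
      rw [n0] at this
      simp [V2] at this
    have m2 : pL i0 q1 ≠ V2 i0 0 3 := by
      intro h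
      have := congrFun h i0
      rw [n0] at this
      simp [V2] at this
    have m3 : pL i0 q1 ≠ V2 i0 0 2 := by
      intro h
      have := congrFun h i0
      rw [n0] at this
      simp [V2] at this
    have m4 : pL i0 q1 ≠ q1 := by
      intro h
      have := congrFun h i0
      rw [n0, hL.1] at this
      exact absurd this (by decide)
    refine win_step hd _ _ (pL i0 q1) ?_ ?_ c1 c2 ?_
    · simp [m1, m2]
    · simp [m3, m4]
    · intro r hrP hrQ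
      simp only [Finset.mem_insert, Finset.mem_singleton, not_or] at hrP hrQ
      refine AsmG_perm (AsmG_G2L hd hC q1 i0 hn hL r hrP.2.1 hrP.2.2 hrP.1 hrQ.1 hrQ.2) ?_ ?_
      · intro z
        simp only [Finset.mem_insert, Finset.mem_singleton]
        tauto
      · intro z
        simp only [Finset.mem_insert, Finset.mem_singleton]
        tauto
  · refine win_step hd _ _ (V2 i0 1 2) ?_ ?_ c1 c2 ?_
    · have a1 : V2 i0 1 2 ≠ V2 i0 0 0 := AsmG_V2ne 2 0 (by decide)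
      have a2 : V2 i0 1 2 ≠ V2 i0 0 3 := AsmG_V2ne 2 3 (by decide)
      simp [a1, a2]
    · have a1 : V2 i0 1 2 ≠ q1 := (AsmG_NCne hn 1 2).symm
      have a2 : V2 i0 1 2 ≠ V2 i0 0 2 := AsmG_V2ne 2 2 (by decide)
      simp [a1, a2]
    · intro r hrP hrQ
      simp only [Finset.mem_insert, Finset.mem_singleton, not_or] at hrP hrQ
      refine AsmG_perm (AsmG_G2 hd hC q1 i0 h0 hn hL r hrP.2.1 hrP.2.2 hrP.1 hrQ.1 hrQ.2) ?_ ?_
      · intro z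
        simp only [Finset.mem_insert, Finset.mem_singleton]
        tauto
      · intro z
        simp only [Finset.mem_insert, Finset.mem_singleton]
        tauto

/-- The position after the second stones, `q2` not special. -/
private theorem AsmG_G1 (hd : 4 ≤ d) (hC : CovG1) (q1 : Pt d) (i0 : Fin d) (h0 : q1 i0 ≠ 0)
    (hn : NC i0 q1) (r : Pt d) (hrq : r ≠ q1) (hr : ∀ c, r ≠ V2 i0 0 c) :
    WinA {V2 i0 0 0, V2 i0 0 3} {q1, r} := by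
  have F4 : (∃ (J : Fin 4 → Fin d) (ℓ : Fin d → Fin 4), Inside 4 q1 r i0 J ℓ) →
      WinA {V2 i0 0 0, V2 i0 0 3} {q1, r} := by
    rintro ⟨J, ℓ, h1, h2, h3, h4, h5⟩
    have e1 : emb ℓ (fun i => q1 (J i)) = q1 := emb_rep ℓ J q1 h4
    have e2 : emb ℓ (fun i => r (J i)) = r := emb_rep ℓ J r h5
    have eV := AsmG_V2 (i0 := i0) h1 h2 h3
    refine AsmG_w0 h2 (hC.four (fun i => q1 (J i)) (fun i => r (J i)) ?_ (AsmG_NC h3 h4 hn)
      (AsmG_ne ℓ e2 e1 hrq) (fun c => AsmG_ne ℓ e2 (eV 0 c) (hr c)))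
      (AsmG_i2 ℓ (eV 0 0) (eV 0 3)) (AsmG_i2 ℓ e1 e2)
    show q1 (J 0) ≠ 0
    rw [h1]
    exact h0
  have F5 : (∃ (J : Fin 5 → Fin d) (ℓ : Fin d → Fin 5), Inside 5 q1 r i0 J ℓ ∧
      ExcP (fun i => q1 (J i.succ)) (fun i => r (J i.succ))) →
      WinA {V2 i0 0 0, V2 i0 0 3} {q1, r} := by
    rintro ⟨J, ℓ, ⟨h1, h2, h3, h4, h5⟩, hexc⟩
    have e1 : emb ℓ (fun i => q1 (J i)) = q1 := emb_rep ℓ J q1 h4
    have e2 : emb ℓ (fun i => r (J i)) = r := emb_rep ℓ J r h5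
    have eV := AsmG_V2 (i0 := i0) h1 h2 h3
    refine AsmG_w0 h2 (hC.five (fun i => q1 (J i)) (fun i => r (J i)) ?_
      (AsmG_ne ℓ e2 e1 hrq) (fun c => AsmG_ne ℓ e2 (eV 0 c) (hr c)) hexc)
      (AsmG_i2 ℓ (eV 0 0) (eV 0 3)) (AsmG_i2 ℓ e1 e2)
    show q1 (J 0) ≠ 0
    rw [h1]
    exact h0
  by_cases h3v : ∃ x y z, x ≠ i0 ∧ y ≠ i0 ∧ z ≠ i0 ∧ q1 x ≠ q1 y ∧ q1 x ≠ q1 z ∧ q1 y ≠ q1 z
  · rcases block3 hd q1 r i0 h3v with H | H | H | H
    · exact F4 H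
    · exact F5 H
    · obtain ⟨J, ℓ, ⟨h1, h2, h3, h4, -⟩, hlt, hcr⟩ := H
      have e2 : emb ℓ (fun i => r (J i)) = r := emb_rep ℓ J r h4
      have eV := AsmG_V2 (i0 := i0) h1 h2 h3
      refine AsmG_w1 h2 (hC.three (fun i => r (J i)) hlt) q1 hcr
        (AsmG_i2 ℓ (eV 0 0) (eV 0 3)) ?_
      rw [AsmG_i1 ℓ e2]
    · obtain ⟨J, ℓ, h1, h2, h3, hca, hcb, hz⟩ := H
      have eV := AsmG_V2 (i0 := i0) h1 h2 h3
      refine AsmG_w2 h2 hC.alone q1 r hrq.symm hca hcb hz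
        (AsmG_i2 ℓ (eV 0 0) (eV 0 3)) ?_
      rw [Finset.image_empty]
      rfl
  · obtain ⟨u, v, huv, hall, hu, hv⟩ := AsmG_two hn h3v
    rcases block2 hd q1 r i0 u v huv hall hu hv with H | H | H
    · exact F4 H
    · exact F5 H
    · obtain ⟨J, ℓ, ⟨h1, h2, h3, h4, -⟩, hlt, hcr⟩ := H
      have e1 : emb ℓ (fun i => q1 (J i)) = q1 := emb_rep ℓ J q1 h4
      have eV := AsmG_V2 (i0 := i0) h1 h2 h3
      refine AsmG_w1 h2 (hC.three (fun i => q1 (J i)) hlt) r hcr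
        (AsmG_i2 ℓ (eV 0 0) (eV 0 3)) ?_
      rw [AsmG_i1 ℓ e1]
      exact Finset.pair_comm _ _

private theorem AsmG_sgV2 (i0 : Fin d) (u c : Fin 4) :
    sgPt d (V2 i0 u c) = V2 i0 (sg u) (sg c) := by
  rw [sgPt_apply]
  funext x
  by_cases hx : x = i0 <;> simp [V2, hx]

private theorem AsmG_sg2 (u : Fin 4) : sg (sg u) = u := by
  revert u
  decide

private theorem AsmG_sgsg (q : Pt d) : sgPt d (sgPt d q) = q := by
  rw [sgPt_apply, sgPt_apply]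
  funext x
  exact AsmG_sg2 (q x)

theorem asmG1 (hd : 4 ≤ d) (hC : CovG1) (hC2 : CovG2) (q1 : Pt d) (i0 : Fin d)
    (h0 : q1 i0 ≠ 0) (hn : NC i0 q1) : WinA {V2 i0 0 0} {q1} := by
  have hx1 : ∃ x, x ≠ i0 := by
    obtain ⟨x, -, hx, -, -⟩ := hn
    exact ⟨x, hx⟩
  have a0 : V2 i0 0 3 ≠ V2 i0 0 0 := by
    obtain ⟨x, hx⟩ := hx1
    intro h
    have := congrFun h x
    simp [V2, hx] at this
  have a1 : V2 i0 0 3 ≠ q1 := (AsmG_NCne hn 0 3).symm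
  refine win_step hd _ _ (V2 i0 0 3) ?_ ?_ ?_ ?_ ?_
  · simp [a0]
  · simp [a1]
  · rw [Finset.card_singleton]
    norm_num
  · rw [Finset.card_singleton]
    norm_num
  · intro r hrP hrQ
    simp only [Finset.mem_insert, Finset.mem_singleton, not_or] at hrP hrQ
    by_cases hr2 : r = V2 i0 0 2
    · subst hr2
      refine AsmG_perm (asmG2 hd hC2 q1 i0 h0 hn) ?_ ?_
      · intro z
        simp only [Finset.mem_insert, Finset.mem_singleton]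
        tauto
      · intro z
        simp only [Finset.mem_insert, Finset.mem_singleton]
        tauto
    by_cases hr1 : r = V2 i0 0 1
    · subst hr1
      have h0' : sgPt d q1 i0 ≠ 0 := by
        rw [sgPt_apply]
        show sg (q1 i0) ≠ 0
        intro h
        apply h0
        rw [← AsmG_sg2 (q1 i0), h]
        decide
      have hn' : NC i0 (sgPt d q1) := by
        obtain ⟨x, y, hx, hy, hxy⟩ := hn
        refine ⟨x, y, hx, hy, ?_⟩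
        rw [sgPt_apply]
        intro h
        exact hxy (sg.injective h)
      have hW := WinA.map (lineMap_sg (d := d)) (asmG2 hd hC2 (sgPt d q1) i0 h0' hn')
      have s0 : sg 0 = 0 := by decide
      have s3 : sg 3 = 3 := by decide
      have s2 : sg 2 = 1 := by decide
      rw [Finset.image_insert, Finset.image_singleton, Finset.image_insert,
        Finset.image_singleton, AsmG_sgsg, AsmG_sgV2, AsmG_sgV2, AsmG_sgV2, s0, s3, s2] at hW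
      refine AsmG_perm hW ?_ ?_
      · intro z
        simp only [Finset.mem_insert, Finset.mem_singleton]
        tauto
      · intro z
        simp only [Finset.mem_insert, Finset.mem_singleton]
        tauto
    have hr : ∀ c, r ≠ V2 i0 0 c := by
      intro c
      fin_cases c
      · exact hrP.2
      · exact hr1
      · exact hr2
      · exact hrP.1
    refine AsmG_perm (AsmG_G1 hd hC q1 i0 h0 hn r hrQ hr) ?_ ?_
    · intro z
      simp only [Finset.mem_insert, Finset.mem_singleton]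
      tauto
    · intro z
      simp only [Finset.mem_insert, Finset.mem_singleton]
      tauto

end Pool.Agent.Lib_TTT
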