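import Pool.Agent.Lib_TTT.Block

/-!
Choice of the blocks, see `Block.lean`.
-/

set_option autoImplicit false

namespace Pool.Agent.Lib_TTT

variable {d : ℕ}

/-- One function, one special coordinate: at most three values besides `i0`: four blocks;
otherwise five blocks with the values `0, 1, 2, 3`. -/
theorem blockS1 (hd : 4 ≤ d) (b : Fin d → Fin 4) (i0 : Fin d) :
    (∃ (J : Fin 4 → Fin d) (ℓ : Fin d → Fin 4), Inside 4 b b i0 J ℓ) ∨
    (∃ (J : Fin 5 → Fin d) (ℓ : Fin d → Fin 5), Inside 5 b b i0 J ℓ ∧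
      b (J 1) = 0 ∧ b (J 2) = 1 ∧ b (J 3) = 2 ∧ b (J 4) = 3) := by
  by_cases hT : ((Finset.univ.filter fun x => x ≠ i0).image b).card ≤ 3
  · left
    apply inside4_of_card hd b b i0
    have h1 : ((Finset.univ.filter fun x => x ≠ i0).image fun x => (b x, b x)) =
        (((Finset.univ.filter fun x => x ≠ i0).image b).image fun v => (v, v)) := by
      rw [Finset.image_image]
      rfl
    rw [h1]
    exact Finset.card_image_le.trans hT
  · right
    have huniv : (Finset.univ.filter fun x => x ≠ i0).image b = Finset.univ := by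
      apply Finset.eq_univ_of_card
      have h2 := Finset.card_le_univ ((Finset.univ.filter fun x => x ≠ i0).image b)
      rw [Fintype.card_fin] at h2 ⊢
      omega
    have hx : ∀ v : Fin 4, ∃ x, x ≠ i0 ∧ b x = v := by
      intro v
      have h3 : v ∈ (Finset.univ.filter fun x => x ≠ i0).image b := by
        rw [huniv]
        exact Finset.mem_univ v
      rw [Finset.mem_image] at h3
      obtain ⟨x, hx, hv⟩ := h3
      rw [Finset.mem_filter] at hx
      exact ⟨x, hx.2, hv⟩
    choose X hX0 hX using hx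
    refine ⟨Fin.cons i0 X, fun x => if x = i0 then 0 else (b x).succ, ⟨rfl, ?_, ?_, ?_, ?_⟩,
      hX 0, hX 1, hX 2, hX 3⟩
    · intro i
      refine Fin.cases ?_ (fun v => ?_) i
      · simp
      · simp [hX0 v, hX v]
    · intro x h
      by_contra hx
      have h' : (if x = i0 then (0 : Fin 5) else (b x).succ) = 0 := h
      rw [if_neg hx] at h'
      exact absurd h' (Fin.succ_ne_zero _)
    · intro x
      by_cases hx : x = i0
      · simp [hx]
      · simp [hx, hX]
    · intro x
      by_cases hx : x = i0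
      · simp [hx]
      · simp [hx, hX]

/-- At most two values besides `i0`, `i1`. -/
private theorem two_BlockS (hd : 4 ≤ d) (b : Fin d → Fin 4) (i0 i1 : Fin d) (h01 : i0 ≠ i1)
    (v w : Fin 4) (hv : ∀ x, x ≠ i0 → x ≠ i1 → b x = v ∨ b x = w) :
    ∃ (J : Fin 4 → Fin d) (ℓ : Fin d → Fin 4), Inside 4 b b i0 J ℓ ∧ J 1 = i1 ∧
      ∀ x, ℓ x = 1 → x = i1 := by
  have hex2 : ∃ x2 x3 : Fin d, x2 ≠ i0 ∧ x2 ≠ i1 ∧ x3 ≠ i0 ∧ x3 ≠ i1 ∧ x2 ≠ x3 := by
    have hc : 1 < ((Finset.univ : Finset (Fin d)) \ {i0, i1}).card := by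
      have h1 : ({i0, i1} : Finset (Fin d)).card ≤ 2 := Finset.card_le_two
      have h2 := Finset.le_card_sdiff ({i0, i1} : Finset (Fin d)) Finset.univ
      rw [Finset.card_univ, Fintype.card_fin] at h2
      omega
    rw [Finset.one_lt_card] at hc
    obtain ⟨x2, h2, x3, h3, hne⟩ := hc
    simp only [Finset.mem_sdiff, Finset.mem_univ, true_and, Finset.mem_insert,
      Finset.mem_singleton, not_or] at h2 h3
    exact ⟨x2, x3, h2.1, h2.2, h3.1, h3.2, hne⟩
  obtain ⟨x2, x3, h20, h21, h30, h31, h23⟩ := hex2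
  by_cases hd2 : ∃ y, y ≠ i0 ∧ y ≠ i1 ∧ b y ≠ b x2
  · obtain ⟨y, hy0, hy1, hyb⟩ := hd2
    refine ⟨![i0, i1, x2, y], fun x => if x = i0 then 0 else if x = i1 then 1 else
      if b x = b x2 then 2 else 3, ⟨rfl, ?_, ?_, ?_, ?_⟩, rfl, ?_⟩
    · intro i
      fin_cases i
      · simp
      · simp [h01.symm]
      · simp [h20, h21]
      · simp [hy0, hy1, hyb]
    · intro x h
      by_contra hx
      by_cases hx1 : x = i1
      · simp [hx1, h01.symm] at h
      · by_cases hb : b x = b x2 <;> simp [hx, hx1, hb] at h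
    · intro x
      by_cases hx : x = i0
      · simp [hx]
      · by_cases hx1 : x = i1
        · simp [hx1, h01.symm]
        · by_cases hb : b x = b x2
          · simp [hx, hx1, hb]
          · have h4 := hv x hx hx1
            have h5 := hv y hy0 hy1
            have h6 := hv x2 h20 h21
            have h7 : b y = b x := by
              rcases h4 with h4 | h4 <;> rcases h5 with h5 | h5 <;> rcases h6 with h6 | h6 <;>
                rw [h4, h6] at hb <;> rw [h5, h6] at hyb <;> first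
                  | exact absurd rfl hb
                  | exact absurd rfl hyb
                  | rw [h4, h5]
            simp [hx, hx1, hb, h7]
    · intro x
      by_cases hx : x = i0
      · simp [hx]
      · by_cases hx1 : x = i1
        · simp [hx1, h01.symm]
        · by_cases hb : b x = b x2
          · simp [hx, hx1, hb]
          · have h4 := hv x hx hx1
            have h5 := hv y hy0 hy1
            have h6 := hv x2 h20 h21
            have h7 : b y = b x := by
              rcases h4 with h4 | h4 <;> rcases h5 with h5 | h5 <;> rcases h6 with h6 | h6 <;>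
                rw [h4, h6] at hb <;> rw [h5, h6] at hyb <;> first
                  | exact absurd rfl hb
                  | exact absurd rfl hyb
                  | rw [h4, h5]
            simp [hx, hx1, hb, h7]
    · intro x h
      by_contra hx1
      by_cases hx : x = i0
      · simp [hx] at h
      · by_cases hb : b x = b x2 <;> simp [hx, hx1, hb] at h
  · have hall : ∀ y, y ≠ i0 → y ≠ i1 → b y = b x2 := by
      intro y h0 h1
      by_contra hb
      exact hd2 ⟨y, h0, h1, hb⟩
    refine ⟨![i0, i1, x2, x3], fun x => if x = i0 then 0 else if x = i1 then 1 else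
      if x = x3 then 3 else 2, ⟨rfl, ?_, ?_, ?_, ?_⟩, rfl, ?_⟩
    · intro i
      fin_cases i
      · simp
      · simp [h01.symm]
      · simp [h20, h21, h23]
      · simp [h30, h31]
    · intro x h
      by_contra hx
      by_cases hx1 : x = i1
      · simp [hx1, h01.symm] at h
      · by_cases hb : x = x3 <;> simp [hx, hx1, hb, h30, h31] at h
    · intro x
      by_cases hx : x = i0
      · simp [hx]
      · by_cases hx1 : x = i1
        · simp [hx1, h01.symm]
        · by_cases hb : x = x3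
          · simp [hb, h30, h31]
          · simp [hx, hx1, hb, hall x hx hx1]
    · intro x
      by_cases hx : x = i0
      · simp [hx]
      · by_cases hx1 : x = i1
        · simp [hx1, h01.symm]
        · by_cases hb : x = x3
          · simp [hb, h30, h31]
          · simp [hx, hx1, hb, hall x hx hx1]
    · intro x h
      by_contra hx1
      by_cases hx : x = i0
      · simp [hx] at h
      · by_cases hb : x = x3 <;> simp [hx, hx1, hb, h30, h31] at h

/-- Exactly three values besides `i0`, `i1`. -/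
private theorem three_BlockS (b : Fin d → Fin 4) (i0 i1 : Fin d) (h01 : i0 ≠ i1)
    (x2 x3 x4 : Fin d) (h20 : x2 ≠ i0) (h21 : x2 ≠ i1) (h30 : x3 ≠ i0) (h31 : x3 ≠ i1)
    (h40 : x4 ≠ i0) (h41 : x4 ≠ i1) (h23 : b x2 < b x3) (h34 : b x3 < b x4)
    (hv : ∀ x, x ≠ i0 → x ≠ i1 → b x = b x2 ∨ b x = b x3 ∨ b x = b x4) :
    ∃ (J : Fin 5 → Fin d) (ℓ : Fin d → Fin 5), Inside 5 b b i0 J ℓ ∧ J 1 = i1 ∧
      (∀ x, ℓ x = 1 → x = i1) ∧ b (J 2) < b (J 3) ∧ b (J 3) < b (J 4) := by
  have h23' : b x3 ≠ b x2 := h23.ne'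
  have h34' : b x4 ≠ b x3 := h34.ne'
  have h24' : b x4 ≠ b x2 := (h23.trans h34).ne'
  refine ⟨![i0, i1, x2, x3, x4], fun x => if x = i0 then 0 else if x = i1 then 1 else
      if b x = b x2 then 2 else if b x = b x3 then 3 else 4, ⟨rfl, ?_, ?_, ?_, ?_⟩, rfl, ?_,
      h23, h34⟩
  · intro i
    fin_cases i
    · simp
    · simp [h01.symm]
    · simp [h20, h21]
    · simp [h30, h31, h23']
    · simp [h40, h41, h24', h34']
  · intro x h
    by_contra hx
    by_cases hx1 : x = i1
    · simp [hx1, h01.symm] at h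
    · by_cases hb : b x = b x2
      · simp [hx, hx1, hb] at h
      · by_cases hc : b x = b x3
        · simp [hx, hx1, hc, h23'] at h
        · simp [hx, hx1, hb, hc] at h
  · intro x
    by_cases hx : x = i0
    · simp [hx]
    · by_cases hx1 : x = i1
      · simp [hx1, h01.symm]
      · rcases hv x hx hx1 with hb | hb | hb
        · simp [hx, hx1, hb]
        · simp [hx, hx1, hb, h23']
        · simp [hx, hx1, hb, h24', h34']
  · intro x
    by_cases hx : x = i0
    · simp [hx]
    · by_cases hx1 : x = i1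
      · simp [hx1, h01.symm]
      · rcases hv x hx hx1 with hb | hb | hb
        · simp [hx, hx1, hb]
        · simp [hx, hx1, hb, h23']
        · simp [hx, hx1, hb, h24', h34']
  · intro x h
    by_contra hx1
    by_cases hx : x = i0
    · simp [hx] at h
    · by_cases hb : b x = b x2
      · simp [hx, hx1, hb] at h
      · by_cases hc : b x = b x3
        · simp [hx, hx1, hc, h23'] at h
        · simp [hx, hx1, hb, hc] at h

/-- Four values besides `i0`, `i1`. -/
private theorem four_BlockS (b : Fin d → Fin 4) (i0 i1 : Fin d) (h01 : i0 ≠ i1)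
    (X : Fin 4 → Fin d) (hX0 : ∀ v, X v ≠ i0) (hX1 : ∀ v, X v ≠ i1) (hX : ∀ v, b (X v) = v) :
    ∃ (J : Fin 4 → Fin d) (ℓ : Fin d → Fin 4), J 0 = i0 ∧ J 1 = i1 ∧ (∀ i, ℓ (J i) = i) ∧
      (∀ x, ℓ x = 0 → x = i0) ∧ (∀ x, ℓ x = 1 → x = i1) ∧ Cross ℓ b := by
  refine ⟨![i0, i1, X 0, X 3], fun x => if x = i0 then 0 else if x = i1 then 1 else
      if b x = 3 then 3 else 2, rfl, rfl, ?_, ?_, ?_, ?_⟩
  · intro i
    fin_cases i
    · simp
    · simp [h01.symm]
    · simp [hX0, hX1, hX]
    · simp [hX0, hX1, hX]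
  · intro x h
    by_contra hx
    by_cases hx1 : x = i1
    · simp [hx1, h01.symm] at h
    · by_cases hb : b x = 3 <;> simp [hx, hx1, hb] at h
  · intro x h
    by_contra hx1
    by_cases hx : x = i0
    · simp [hx] at h
    · by_cases hb : b x = 3 <;> simp [hx, hx1, hb] at h
  · refine ⟨X 0, X 1, X 0, X 2, ?_, ?_, ?_⟩
    · simp [hX0, hX1, hX]
    · simp [hX0, hX1, hX]
    · rw [hX, hX, hX]
      unfold Cr
      decide

/-- One function, two special coordinates: at most two values besides: four blocks; three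
values: five blocks; four values: four blocks, one of which contains three different values. -/
theorem blockS2 (hd : 4 ≤ d) (b : Fin d → Fin 4) (i0 i1 : Fin d) (h01 : i0 ≠ i1) :
    (∃ (J : Fin 4 → Fin d) (ℓ : Fin d → Fin 4), Inside 4 b b i0 J ℓ ∧ J 1 = i1 ∧
      ∀ x, ℓ x = 1 → x = i1) ∨
    (∃ (J : Fin 5 → Fin d) (ℓ : Fin d → Fin 5), Inside 5 b b i0 J ℓ ∧ J 1 = i1 ∧
      (∀ x, ℓ x = 1 → x = i1) ∧ b (J 2) < b (J 3) ∧ b (J 3) < b (J 4)) ∨
    (∃ (J : Fin 4 → Fin d) (ℓ : Fin d → Fin 4), J 0 = i0 ∧ J 1 = i1 ∧ (∀ i, ℓ (J i) = i) ∧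
      (∀ x, ℓ x = 0 → x = i0) ∧ (∀ x, ℓ x = 1 → x = i1) ∧ Cross ℓ b) := by
  have h4 : ∀ v : Fin 4, v = 0 ∨ v = 1 ∨ v = 2 ∨ v = 3 := by decide
  by_cases hall : ∀ v : Fin 4, ∃ x, x ≠ i0 ∧ x ≠ i1 ∧ b x = v
  · right; right
    choose X hX0 hX1 hX using hall
    exact four_BlockS b i0 i1 h01 X hX0 hX1 hX
  · rw [not_forall] at hall
    obtain ⟨v, hv⟩ := hall
    have hv' : ∀ x, x ≠ i0 → x ≠ i1 → b x ≠ v := fun x h0 h1 h => hv ⟨x, h0, h1, h⟩
    by_cases hw : ∃ w : Fin 4, w ≠ v ∧ ∀ x, x ≠ i0 → x ≠ i1 → b x ≠ w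
    · left
      obtain ⟨w, hwv, hw⟩ := hw
      have key : ∀ v w : Fin 4, w ≠ v →
          ∃ s t : Fin 4, ∀ u : Fin 4, u ≠ v → u ≠ w → u = s ∨ u = t := by
        decide
      obtain ⟨s, t, hst⟩ := key v w hwv
      exact two_BlockS hd b i0 i1 h01 s t fun x h0 h1 => hst _ (hv' x h0 h1) (hw x h0 h1)
    · right; left
      have hw' : ∀ w : Fin 4, w ≠ v → ∃ x, x ≠ i0 ∧ x ≠ i1 ∧ b x = w := by
        intro w hwv
        by_contra hcon
        exact hw ⟨w, hwv, fun x h0 h1 h => hcon ⟨x, h0, h1, h⟩⟩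
      have hstu : ∃ s t u : Fin 4, s < t ∧ t < u ∧ s ≠ v ∧ t ≠ v ∧ u ≠ v ∧
          ∀ z : Fin 4, z ≠ v → z = s ∨ z = t ∨ z = u := by
        clear hv hv' hw hw'
        revert v
        decide
      obtain ⟨s, t, u, hs, ht, hsv, htv, huv, hz⟩ := hstu
      obtain ⟨x2, h20, h21, h2⟩ := hw' s hsv
      obtain ⟨x3, h30, h31, h3⟩ := hw' t htv
      obtain ⟨x4, h40, h41, h44⟩ := hw' u huv
      refine three_BlockS b i0 i1 h01 x2 x3 x4 h20 h21 h30 h31 h40 h41 (by rw [h2, h3]; exact hs)
        (by rw [h3, h44]; exact ht) ?_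
      intro x h0 h1
      rw [h2, h3, h44]
      exact hz _ (hv' x h0 h1)

end Pool.Agent.Lib_TTT
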