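import Pool.Agent.Lib_TTT.Asm
import Pool.Agent.Lib_TTT.BlockS
import Pool.Agent.Lib_TTT.Transfer

/-!
The strategy if the first stone of the second player is `V2 i0 A0 A`.

`asmS2`: the first player plays `V3 i0 i1 D0 D1 D` (`win_step`; the stone is new by `hne`, take a
coordinate other than `i0`, `i1`). For an answer `q3` use `blockS2` with `b = q3`:
* four blocks, `q3` inside: `CovS2.four` for `q3 ∘ J`, and `tr0`. (`emb ℓ` maps `V2 0 u c` to
  `V2 i0 u c`, `V3 0 1 u v c` to `V3 i0 i1 u v c` (`emb_V2`, `emb_V3`), `q3 ∘ J` to `q3`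
  (`emb_rep`); so `q3 ∘ J` is none of the stones, otherwise `q3` would be.)
* five blocks: `CovS2.five`, `tr0`.
* four blocks and `Cross ℓ q3`: `CovS2.alone`, `tr1` and `far_of_cross`.

`asmS1`: the first player plays `V2 i0 B0 B`; if the answer `q2` is bad use `hb`, otherwise
`blockS1` with `b = q2` and `CovS.four`, `CovS.five`, `tr0`.
-/

set_option autoImplicit false

namespace Pool.Agent.Lib_TTT

variable {d : ℕ}

private theorem ne_V2_AsmS (hd : 4 ≤ d) (i0 : Fin d) {u c u' c' : Fin 4} (h : u ≠ u' ∨ c ≠ c') :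
    V2 i0 u c ≠ V2 i0 u' c' := by
  intro he
  rcases h with h | h
  · apply h
    have := congrFun he i0
    simpa [V2] using this
  · have : Nontrivial (Fin d) := Fin.nontrivial_iff_two_le.2 (by omega)
    obtain ⟨x, hx⟩ := exists_ne i0
    apply h
    have := congrFun he x
    simpa [V2, hx] using this

private theorem exists_third_AsmS (hd : 4 ≤ d) (i0 i1 : Fin d) : ∃ x, x ≠ i0 ∧ x ≠ i1 := by
  by_contra hcon
  push Not at hcon
  have hsub : (Finset.univ : Finset (Fin d)) ⊆ {i0, i1} := by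
    intro x _
    rw [Finset.mem_insert, Finset.mem_singleton]
    by_cases h : x = i0
    · exact Or.inl h
    · exact Or.inr (hcon x h)
  have h1 := Finset.card_le_card hsub
  rw [Finset.card_univ, Fintype.card_fin] at h1
  have h2 : ({i0, i1} : Finset (Fin d)).card ≤ 2 := Finset.card_le_two
  omega

private theorem ne_V3_AsmS (hd : 4 ≤ d) (i0 i1 : Fin d) (h01 : i0 ≠ i1) {D0 D1 D u c : Fin 4}
    (h : D0 ≠ u ∨ D1 ≠ c ∨ D ≠ c) : V3 i0 i1 D0 D1 D ≠ V2 i0 u c := by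
  intro he
  rcases h with h | h | h
  · apply h
    have := congrFun he i0
    simpa [V2, V3] using this
  · apply h
    have := congrFun he i1
    simpa [V2, V3, h01.symm] using this
  · obtain ⟨x, hx0, hx1⟩ := exists_third_AsmS hd i0 i1
    apply h
    have := congrFun he x
    simpa [V2, V3, hx0, hx1] using this

theorem asmS2 (hd : 4 ≤ d) {A0 A B0 B C0 C D0 D1 D : Fin 4}
    (h : CovS2 A0 A B0 B C0 C D0 D1 D)
    (hne : ∀ c ∈ [((0 : Fin 4), (0 : Fin 4)), (B0, B), (A0, A), (C0, C)],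
      D0 ≠ c.1 ∨ D1 ≠ c.2 ∨ D ≠ c.2) (i0 i1 : Fin d) (h01 : i0 ≠ i1) :
    WinA {V2 i0 0 0, V2 i0 B0 B} {V2 i0 A0 A, V2 i0 C0 C} := by
  refine win_step hd _ _ (V3 i0 i1 D0 D1 D) ?_ ?_ ?_ ?_ ?_
  · rw [Finset.mem_insert, Finset.mem_singleton, not_or]
    exact ⟨ne_V3_AsmS hd i0 i1 h01 (hne (0, 0) (by simp)),
      ne_V3_AsmS hd i0 i1 h01 (hne (B0, B) (by simp))⟩
  · rw [Finset.mem_insert, Finset.mem_singleton, not_or]
    exact ⟨ne_V3_AsmS hd i0 i1 h01 (hne (A0, A) (by simp)),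
      ne_V3_AsmS hd i0 i1 h01 (hne (C0, C) (by simp))⟩
  · exact Finset.card_le_two.trans (by norm_num)
  · exact Finset.card_le_two
  · intro r hrP hrQ
    have hP : insert (V3 i0 i1 D0 D1 D) {V2 i0 0 0, V2 i0 B0 B} =
        ({V2 i0 0 0, V2 i0 B0 B, V3 i0 i1 D0 D1 D} : Finset (Pt d)) := by
      ext z
      simp only [Finset.mem_insert, Finset.mem_singleton]
      tauto
    have hQ : insert r {V2 i0 A0 A, V2 i0 C0 C} =
        ({V2 i0 A0 A, V2 i0 C0 C, r} : Finset (Pt d)) := by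
      ext z
      simp only [Finset.mem_insert, Finset.mem_singleton]
      tauto
    rw [hP] at hrP
    simp only [Finset.mem_insert, Finset.mem_singleton, not_or] at hrP hrQ
    obtain ⟨r1, r2, r3⟩ := hrP
    obtain ⟨r4, r5⟩ := hrQ
    rcases blockS2 hd r i0 i1 h01 with ⟨J, ℓ, hI, hJ1, hℓ1⟩ | ⟨J, ℓ, hI, hJ1, hℓ1, hlt, hlt'⟩ |
      ⟨J, ℓ, hJ0, hJ1, hJ, hℓ0, hℓ1, hcr⟩
    · obtain ⟨hJ0, hJ, hℓ0, -, hr⟩ := hI
      have hs : Function.Surjective ℓ := fun i => ⟨J i, hJ i⟩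
      have e0 : ∀ x, ℓ x = 0 ↔ x = i0 :=
        fun x => ⟨hℓ0 x, fun h => by rw [h, ← hJ0, hJ]⟩
      have e1 : ∀ x, ℓ x = 1 ↔ x = i1 :=
        fun x => ⟨hℓ1 x, fun h => by rw [h, ← hJ1, hJ]⟩
      have hrep : emb ℓ (fun i => r (J i)) = r := emb_rep ℓ J r hr
      have hw := h.four (fun i => r (J i))
        (fun hq => r1 (by rw [← hrep, hq, emb_V2 ℓ i0 0 e0]))
        (fun hq => r2 (by rw [← hrep, hq, emb_V2 ℓ i0 0 e0]))
        (fun hq => r3 (by rw [← hrep, hq, emb_V3 ℓ i0 i1 0 1 e0 e1]))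
        (fun hq => r4 (by rw [← hrep, hq, emb_V2 ℓ i0 0 e0]))
        (fun hq => r5 (by rw [← hrep, hq, emb_V2 ℓ i0 0 e0]))
      have ht := tr0 ℓ hs hw.1 hw.2
      simp only [Finset.image_insert, Finset.image_singleton, hrep, emb_V2 ℓ i0 0 e0,
        emb_V3 ℓ i0 i1 0 1 e0 e1] at ht
      rw [hP, hQ]
      exact ht
    · obtain ⟨hJ0, hJ, hℓ0, -, hr⟩ := hI
      have hs : Function.Surjective ℓ := fun i => ⟨J i, hJ i⟩
      have e0 : ∀ x, ℓ x = 0 ↔ x = i0 :=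
        fun x => ⟨hℓ0 x, fun h => by rw [h, ← hJ0, hJ]⟩
      have e1 : ∀ x, ℓ x = 1 ↔ x = i1 :=
        fun x => ⟨hℓ1 x, fun h => by rw [h, ← hJ1, hJ]⟩
      have hrep : emb ℓ (fun i => r (J i)) = r := emb_rep ℓ J r hr
      have hw := h.five (fun i => r (J i)) hlt hlt'
      have ht := tr0 ℓ hs hw.1 hw.2
      simp only [Finset.image_insert, Finset.image_singleton, hrep, emb_V2 ℓ i0 0 e0,
        emb_V3 ℓ i0 i1 0 1 e0 e1] at ht
      rw [hP, hQ]
      exact ht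
    · have hs : Function.Surjective ℓ := fun i => ⟨J i, hJ i⟩
      have e0 : ∀ x, ℓ x = 0 ↔ x = i0 :=
        fun x => ⟨hℓ0 x, fun h => by rw [h, ← hJ0, hJ]⟩
      have e1 : ∀ x, ℓ x = 1 ↔ x = i1 :=
        fun x => ⟨hℓ1 x, fun h => by rw [h, ← hJ1, hJ]⟩
      have ht := tr1 ℓ hs h.alone.1 h.alone.2 r (far_of_cross ℓ hcr)
      simp only [Finset.image_insert, Finset.image_singleton, emb_V2 ℓ i0 0 e0,
        emb_V3 ℓ i0 i1 0 1 e0 e1] at ht
      rw [hP]
      exact ht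

theorem asmS1 (hd : 4 ≤ d) {A0 A B0 B : Fin 4} {bad : List (Fin 4 × Fin 4)}
    (h : CovS A0 A B0 B bad) (hne : (B0 ≠ 0 ∨ B ≠ 0) ∧ (B0 ≠ A0 ∨ B ≠ A)) (i0 : Fin d)
    (hb : ∀ c ∈ bad, WinA {V2 i0 0 0, V2 i0 B0 B} {V2 i0 A0 A, V2 i0 c.1 c.2}) :
    WinA {V2 i0 0 0} {V2 i0 A0 A} := by
  refine win_step hd _ _ (V2 i0 B0 B) ?_ ?_ ?_ ?_ ?_
  · rw [Finset.mem_singleton]
    exact ne_V2_AsmS hd i0 hne.1
  · rw [Finset.mem_singleton]
    exact ne_V2_AsmS hd i0 hne.2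
  · rw [Finset.card_singleton]
    norm_num
  · rw [Finset.card_singleton]
    norm_num
  · intro r hrP hrQ
    have hP : insert (V2 i0 B0 B) {V2 i0 0 0} =
        ({V2 i0 0 0, V2 i0 B0 B} : Finset (Pt d)) := by
      ext z
      simp only [Finset.mem_insert, Finset.mem_singleton]
      tauto
    have hQ : insert r {V2 i0 A0 A} = ({V2 i0 A0 A, r} : Finset (Pt d)) := by
      ext z
      simp only [Finset.mem_insert, Finset.mem_singleton]
      tauto
    rw [hP, hQ]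
    rw [hP] at hrP
    simp only [Finset.mem_insert, Finset.mem_singleton, not_or] at hrP hrQ
    obtain ⟨r1, r2⟩ := hrP
    by_cases hbad : ∃ c ∈ bad, r = V2 i0 c.1 c.2
    · obtain ⟨c, hc, rfl⟩ := hbad
      exact hb c hc
    · rcases blockS1 hd r i0 with ⟨J, ℓ, hI⟩ | ⟨J, ℓ, hI, h1, h2, h3, h4⟩
      · obtain ⟨hJ0, hJ, hℓ0, -, hr⟩ := hI
        have hs : Function.Surjective ℓ := fun i => ⟨J i, hJ i⟩
        have e0 : ∀ x, ℓ x = 0 ↔ x = i0 :=
          fun x => ⟨hℓ0 x, fun h => by rw [h, ← hJ0, hJ]⟩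
        have hrep : emb ℓ (fun i => r (J i)) = r := emb_rep ℓ J r hr
        have hw := h.four (fun i => r (J i))
          (fun hq => r1 (by rw [← hrep, hq, emb_V2 ℓ i0 0 e0]))
          (fun hq => r2 (by rw [← hrep, hq, emb_V2 ℓ i0 0 e0]))
          (fun hq => hrQ (by rw [← hrep, hq, emb_V2 ℓ i0 0 e0]))
          (fun c hc hq => hbad ⟨c, hc, by rw [← hrep, hq, emb_V2 ℓ i0 0 e0]⟩)
        have ht := tr0 ℓ hs hw.1 hw.2
        simp only [Finset.image_insert, Finset.image_singleton, hrep, emb_V2 ℓ i0 0 e0] at ht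
        exact ht
      · obtain ⟨hJ0, hJ, hℓ0, -, hr⟩ := hI
        have hs : Function.Surjective ℓ := fun i => ⟨J i, hJ i⟩
        have e0 : ∀ x, ℓ x = 0 ↔ x = i0 :=
          fun x => ⟨hℓ0 x, fun h => by rw [h, ← hJ0, hJ]⟩
        have hrep : emb ℓ (fun i => r (J i)) = r := emb_rep ℓ J r hr
        have hw := h.five (fun i => r (J i)) h1 h2 h3 h4
        have ht := tr0 ℓ hs hw.1 hw.2
        simp only [Finset.image_insert, Finset.image_singleton, hrep, emb_V2 ℓ i0 0 e0] at ht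
        exact ht

end Pool.Agent.Lib_TTT
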