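import Pool.Agent.Lib_TTT.Emb

/-!
Choice of the blocks. `i0` is a coordinate that forms a block of its own (block `0`).
`J i` is a representative of the block `i`. All functions are `Fin d → Fin 4`.
-/

set_option autoImplicit false

namespace Pool.Agent.Lib_TTT

variable {d : ℕ}

/-- The exceptional patterns for four blocks besides the block of `i0`. -/
def ExcP (r s : Fin 4 → Fin 4) : Prop :=
  (r 0 = r 1 ∧ r 2 = r 3 ∧ r 0 < r 2 ∧ s 0 < s 1 ∧ s 2 < s 3 ∧
    ((s 2 = s 0 ∧ s 3 = s 1) ∨ (s 2 = Fin.rev (s 1) ∧ s 3 = Fin.rev (s 0)))) ∨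
  (r 0 = 0 ∧ r 1 = 1 ∧ r 2 = 2 ∧ r 3 = 3 ∧
    ((s 0 = s 1 ∧ s 2 = s 3) ∨ (s 0 = s 2 ∧ s 1 = s 3) ∨
      (s 0 = 0 ∧ s 1 = 2 ∧ s 2 = 1 ∧ s 3 = 3) ∨ (s 0 = 3 ∧ s 1 = 1 ∧ s 2 = 2 ∧ s 3 = 0)))

/-- `a` and `b` are constant on `k` blocks, one of which is `{i0}`. -/
def Inside (k : ℕ) [NeZero k] (a b : Fin d → Fin 4) (i0 : Fin d) (J : Fin k → Fin d)
    (ℓ : Fin d → Fin k) : Prop :=
  J 0 = i0 ∧ (∀ i, ℓ (J i) = i) ∧ (∀ x, ℓ x = 0 → x = i0) ∧
    (∀ x, a (J (ℓ x)) = a x) ∧ ∀ x, b (J (ℓ x)) = b x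

/-- If there are at most `k` classes of pairs `(a x, b x)` and at least `k` coordinates in `S`,
representatives can be chosen. General tool: `T` lists the classes of the coordinates other than
`i0`; if it has at most three elements (and `d ≥ 4`) there are four blocks as wanted: choose
representatives of the classes, and further coordinates until there are three. -/
theorem inside4_of_card (hd : 4 ≤ d) (a b : Fin d → Fin 4) (i0 : Fin d)
    (hT : ((Finset.univ.filter fun x => x ≠ i0).image fun x => (a x, b x)).card ≤ 3) :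
    ∃ (J : Fin 4 → Fin d) (ℓ : Fin d → Fin 4), Inside 4 a b i0 J ℓ := by
  classical
  set c : Fin d → Fin 4 × Fin 4 := fun x => (a x, b x) with hc
  set S : Finset (Fin d) := Finset.univ.filter fun x => x ≠ i0 with hS
  have hScard : 3 ≤ S.card := by
    have h1 : S = Finset.univ.erase i0 := by
      ext x
      simp [hS]
    rw [h1, Finset.card_erase_of_mem (Finset.mem_univ _), Finset.card_univ, Fintype.card_fin]
    omega
  -- representatives of the classes
  have hrep : ∃ R0 : Finset (Fin d), R0 ⊆ S ∧ R0.card ≤ 3 ∧ ∀ x ∈ S, ∃ y ∈ R0, c y = c x := by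
    have hsurj : ∀ t : (S.image c), ∃ y ∈ S, c y = t.1 := by
      intro t
      have := t.2
      rw [Finset.mem_image] at this
      exact this
    choose g hgS hgc using hsurj
    refine ⟨Finset.univ.image g, ?_, ?_, ?_⟩
    · intro y hy
      rw [Finset.mem_image] at hy
      obtain ⟨t, -, rfl⟩ := hy
      exact hgS t
    · refine Finset.card_image_le.trans ?_
      rw [Finset.card_univ, Fintype.card_coe]
      exact hT
    · intro x hx
      refine ⟨g ⟨c x, Finset.mem_image_of_mem c hx⟩, ?_, ?_⟩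
      · exact Finset.mem_image_of_mem g (Finset.mem_univ _)
      · exact hgc ⟨c x, Finset.mem_image_of_mem c hx⟩
  obtain ⟨R0, hR0S, hR0c, hR0r⟩ := hrep
  obtain ⟨R, hR0R, hRS, hRc⟩ := Finset.exists_subsuperset_card_eq hR0S hR0c hScard
  rw [Finset.card_eq_three] at hRc
  obtain ⟨x1, x2, x3, h12, h13, h23, hR⟩ := hRc
  have hne : ∀ x ∈ R, x ≠ i0 := by
    intro x hx
    have := hRS hx
    rw [hS, Finset.mem_filter] at this
    exact this.2
  have hx1 : x1 ≠ i0 := hne x1 (by rw [hR]; simp)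
  have hx2 : x2 ≠ i0 := hne x2 (by rw [hR]; simp)
  have hx3 : x3 ≠ i0 := hne x3 (by rw [hR]; simp)
  have hcls : ∀ x, x ≠ i0 → c x = c x1 ∨ c x = c x2 ∨ c x = c x3 := by
    intro x hx
    obtain ⟨y, hy, hyx⟩ := hR0r x (by rw [hS, Finset.mem_filter]; exact ⟨Finset.mem_univ _, hx⟩)
    have hy' := hR0R hy
    rw [hR] at hy'
    simp only [Finset.mem_insert, Finset.mem_singleton] at hy'
    rcases hy' with rfl | rfl | rfl
    · exact Or.inl hyx.symm
    · exact Or.inr (Or.inl hyx.symm)
    · exact Or.inr (Or.inr hyx.symm)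
  set ℓ : Fin d → Fin 4 := fun x => if x = i0 then 0 else if x = x1 then 1 else
    if x = x2 then 2 else if x = x3 then 3 else if c x = c x1 then 1 else
    if c x = c x2 then 2 else 3 with hℓ
  refine ⟨![i0, x1, x2, x3], ℓ, rfl, ?_, ?_, ?_⟩
  · intro i
    fin_cases i
    · simp [hℓ]
    · simp [hℓ, hx1]
    · simp [hℓ, hx2, h12.symm]
    · simp [hℓ, hx3, h13.symm, h23.symm]
  · intro x hx
    by_contra hne0
    simp only [hℓ, hne0, if_false] at hx
    split_ifs at hx <;> simp_all
  · have key : ∀ x, c (![i0, x1, x2, x3] (ℓ x)) = c x := by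
      intro x
      simp only [hℓ]
      split_ifs with h0 h1 h2 h3 h4 h5
      · simp [h0]
      · simp [h1]
      · simp [h2]
      · simp [h3]
      · simp [h4]
      · simp [h5]
      · rcases hcls x h0 with h | h | h
        · exact absurd h h4
        · exact absurd h h5
        · simp [h]
    constructor
    · intro x
      exact congrArg Prod.fst (key x)
    · intro x
      exact congrArg Prod.snd (key x)

end Pool.Agent.Lib_TTT
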