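/-!
Certificates for forced wins in the game `4^k` (four in a line).

Cells are lists of `k` digits `< 4`; lines are lists of `k` digits `< 6`, where the digit `4`
stands for the running coordinate `t` and `5` for `3 - t`. Sets of cells and sets of lines are
stored as bit masks. Nothing here is proved; see `Sound.lean`.
-/

set_option autoImplicit false

namespace Pool.Agent.Lib_TTT

/-- Code of a cell. -/
def encC : List Nat → Nat
  | [] => 0
  | v :: vs => v * 4 ^ vs.length + encC vs

/-- Code of a line. -/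
def encL : List Nat → Nat
  | [] => 0
  | w :: ws => w * 6 ^ ws.length + encL ws

/-- The value of a digit of a line at the time `t`. -/
def valD (t w : Nat) : Nat := if w < 4 then w else if w = 4 then t else 3 - t

/-- The mask of the lines that pass through the cell `vs` at the time `t`. -/
def thr (t : Nat) : List Nat → Nat
  | [] => 1
  | v :: vs =>
    Nat.lor (Nat.shiftLeft (thr t vs) (v * 6 ^ vs.length))
      (Nat.lor (if v = t then Nat.shiftLeft (thr t vs) (4 * 6 ^ vs.length) else 0)
        (if v = 3 - t then Nat.shiftLeft (thr t vs) (5 * 6 ^ vs.length) else 0))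

/-- The mask of the lines through a cell. -/
def through (vs : List Nat) : Nat :=
  Nat.lor (thr 0 vs) (Nat.lor (thr 1 vs) (Nat.lor (thr 2 vs) (thr 3 vs)))

/-- The mask of the cells of a line. -/
def lmask (ws : List Nat) : Nat :=
  Nat.lor (Nat.shiftLeft 1 (encC (ws.map (valD 0)))) (Nat.lor (Nat.shiftLeft 1 (encC (ws.map (valD 1))))
    (Nat.lor (Nat.shiftLeft 1 (encC (ws.map (valD 2)))) (Nat.shiftLeft 1 (encC (ws.map (valD 3))))))

/-- The reversed line. -/
def revL (ws : List Nat) : List Nat := ws.map fun w => if w = 4 then 5 else if w = 5 then 4 else w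

/-- A cell: its code, its mask and the mask of the lines through it. -/
structure Cl (k : Nat) where
  c : Nat
  b : Nat
  L : Nat
  ok : ∃ vs : List Nat, (Nat.beq vs.length k && (vs.all fun v => Nat.ble v 3) && Nat.beq c (encC vs) &&
    Nat.beq b (Nat.shiftLeft 1 c) && Nat.beq L (through vs)) = true

/-- A line: the mask of its two codes and the mask of its cells. -/
structure Ln (k : Nat) where
  b : Nat
  m : Nat
  ok : ∃ ws : List Nat, (Nat.beq ws.length k && (ws.all fun w => Nat.ble w 5) &&
    (ws.any fun w => Nat.ble 4 w) &&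
    Nat.beq b (Nat.lor (Nat.shiftLeft 1 (encL ws)) (Nat.shiftLeft 1 (encL (revL ws)))) &&
    Nat.beq m (lmask ws)) = true

/-- A step of a threat sequence: the attacker plays the first cell, the defender is forced to
play the second one, which completes the line. -/
abbrev Stp (k : Nat) := Cl k × Cl k × Ln k

/-- Check of a threat sequence. `p`: base stones and attacker's moves so far; `u`: the cells
used so far; `g1`, `g2`: lines with one or two forced stones of the defender. The last forced
stone is not counted. The continuation receives `p`, `u`, `g1`, `g2`. -/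
def chkS {k : Nat} : List (Stp k) → Nat → Nat → Nat → Nat → (Nat → Nat → Nat → Nat → Bool) → Bool
  | [], _, _, _, _, _ => false
  | [(m, f, l)], p, u, g1, g2, c =>
      Nat.beq (Nat.land m.b (Nat.lor p u)) 0 && Nat.beq (Nat.land f.b (Nat.lor m.b (Nat.lor p u))) 0 &&
      Nat.beq (Nat.lor l.m (Nat.lor f.b (Nat.lor m.b p))) (Nat.lor f.b (Nat.lor m.b p)) &&
      c (Nat.lor m.b p) (Nat.lor f.b (Nat.lor m.b u)) g1 g2
  | (m, f, l) :: s :: st, p, u, g1, g2, c =>
      Nat.beq (Nat.land m.b (Nat.lor p u)) 0 && Nat.beq (Nat.land f.b (Nat.lor m.b (Nat.lor p u))) 0 &&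
      Nat.beq (Nat.lor l.m (Nat.lor f.b (Nat.lor m.b p))) (Nat.lor f.b (Nat.lor m.b p)) &&
      Nat.beq (Nat.land g2 f.L) 0 &&
      chkS (s :: st) (Nat.lor m.b p) (Nat.lor f.b (Nat.lor m.b u)) (Nat.lor g1 f.L)
        (Nat.lor g2 (Nat.land g1 f.L)) c

/-- The union of the masks of a list of cells. -/
def orB {k : Nat} : List (Cl k) → Nat
  | [] => 0
  | c :: cs => Nat.lor c.b (orB cs)
/-- The union of the masks of the lines through the cells of a list. -/
def orL {k : Nat} : List (Cl k) → Nat
  | [] => 0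
  | c :: cs => Nat.lor c.L (orL cs)
/-- The union of the code masks of a list of lines. -/
def orLb {k : Nat} : List (Ln k) → Nat
  | [] => 0
  | c :: cs => Nat.lor c.b (orLb cs)
/-- The union of the cell masks of a list of lines. -/
def orLm {k : Nat} : List (Ln k) → Nat
  | [] => 0
  | c :: cs => Nat.lor c.m (orLm cs)

/-- Check of the data of a template. -/
def chkT {k : Nat} (bc : List (Cl k)) (st : List (Stp k)) (w : Cl k) (lw : Ln k) (hs : List (Ln k))
    (base U Z0 G1 G2 : Nat) : Bool :=
  Nat.beq base (orB bc) &&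
  chkS st base 0 0 0 fun p u g1 g2 =>
    Nat.beq (Nat.land w.b (Nat.lor p u)) 0 &&
    Nat.beq (Nat.lor lw.m (Nat.lor w.b p)) (Nat.lor w.b p) &&
    Nat.beq U (Nat.lor w.b u) && Nat.beq G1 g1 && Nat.beq G2 g2 &&
    Nat.beq (Nat.lor G2 (Nat.lor (orLb hs) (orL bc))) (Nat.lor (orLb hs) (orL bc)) &&
    Nat.beq Z0 (Nat.lor U (orLm hs))

/-- A template: a sequence of threats that wins from the base stones, together with the masks
that describe when the defender can disturb it. -/
structure VT (k : Nat) where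
  base : Nat
  U : Nat
  Z0 : Nat
  G1 : Nat
  G2 : Nat
  ok : ∃ (bc : List (Cl k)) (st : List (Stp k)) (w : Cl k) (lw : Ln k) (hs : List (Ln k)),
    chkT bc st w lw hs base U Z0 G1 G2 = true

mutual
/-- Certificates for positions with the attacker to move. -/
inductive AC (k : Nat) where
  | V (t : VT k) : AC k
  | Fr (m f : Cl k) (l : Ln k) (c : AC k) : AC k
  | M (m : Cl k) (c : DC k) : AC k
/-- Certificates for positions with the defender to move. -/
inductive DC (k : Nat) where
  | N : DC k
  | L (l : Ln k) (c : DC k) : DC k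
  | F (c : DC k) : DC k
  | T (t : VT k) (c : DC k) : DC k
  | K (r : Cl k) (a : AC k) (c : DC k) : DC k
end

section
variable {k : Nat} (fm : Nat)

/-- checks of the constructors -/
def stpV (t : VT k) (p q lp g1 g2 g3 : Nat) : Bool :=
  cond (Nat.beq (Nat.lor t.base p) p)
    (cond (Nat.beq (Nat.land t.U (Nat.lor p q)) 0)
      (Nat.beq (Nat.lor (Nat.lor g3 (Nat.lor (Nat.land t.G1 g2) (Nat.land t.G2 g1))) lp) lp)
      false) false

def stpFr (m f : Cl k) (l : Ln k)
    (ih : Nat → Nat → Nat → Nat → Nat → Nat → Bool) (p q lp g1 g2 g3 : Nat) : Bool :=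
  cond (Nat.beq (Nat.land m.b (Nat.lor p q)) 0)
    (cond (Nat.beq (Nat.land f.b (Nat.lor m.b (Nat.lor p q))) 0)
      (cond (Nat.beq (Nat.lor l.m (Nat.lor f.b (Nat.lor m.b p))) (Nat.lor f.b (Nat.lor m.b p)))
        (cond (Nat.beq (Nat.lor g3 (Nat.lor m.L lp)) (Nat.lor m.L lp))
          (ih (Nat.lor m.b p) (Nat.lor f.b q) (Nat.lor m.L lp) (Nat.lor f.L g1)
            (Nat.lor (Nat.land f.L g1) g2) (Nat.lor (Nat.land f.L g2) g3)) false) false) false) false

def stpM (m : Cl k)
    (ih : Bool → Nat → Nat → Nat → Nat → Nat → Nat → Nat → Nat → Nat → Nat → Bool)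
    (p q lp g1 g2 g3 : Nat) : Bool :=
  cond (Nat.beq (Nat.land m.b (Nat.lor p q)) 0)
    (cond (Nat.beq (Nat.lor g3 (Nat.lor m.L lp)) (Nat.lor m.L lp))
      (ih false (Nat.xor fm (Nat.lor (Nat.lor m.b p) q)) fm 0 0 (Nat.lor m.b p) q (Nat.lor m.L lp)
        g1 g2 g3) false) false

def stpT (t : VT k)
    (ih : Bool → Nat → Nat → Nat → Nat → Nat → Nat → Nat → Nat → Nat → Nat → Bool)
    (_h : Bool) (R F Lb Lz p q lp g1 g2 g3 : Nat) : Bool :=
  cond (Nat.beq (Nat.lor t.base p) p)
    (cond (Nat.beq (Nat.land t.U (Nat.lor p q)) 0)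
      (cond (Nat.beq (Nat.lor (Nat.lor (Nat.land t.G1 g2) (Nat.land t.G2 g1)) lp) lp)
        (cond (Nat.beq (Nat.lor (Nat.land t.G1 g1) (Nat.lor Lb lp)) (Nat.lor Lb lp))
          (ih true (Nat.land R (Nat.lor Lz (Nat.lor t.Z0 F))) F 0 0 p q lp g1 g2 g3)
          false) false) false) false

/-- Check of a certificate, attacker to move. `p`, `q`: the stones; `lp`: lines with a stone of
the attacker; `g1`, `g2`, `g3`: lines with at least 1, 2, 3 stones of the defender. -/
noncomputable def chkA (a : AC k) : Nat → Nat → Nat → Nat → Nat → Nat → Bool :=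
  AC.rec (motive_1 := fun _ => Nat → Nat → Nat → Nat → Nat → Nat → Bool)
    (motive_2 := fun _ => Bool → Nat → Nat → Nat → Nat → Nat → Nat → Nat → Nat → Nat → Nat → Bool)
    (fun t => stpV t)
    (fun m f l _ ih => stpFr m f l ih)
    (fun m _ ih => stpM fm m ih)
    (fun h R _ _ _ _ _ _ _ _ _ => cond h (Nat.beq R 0) false)
    (fun l _ ih h R F Lb Lz p q lp g1 g2 g3 =>
      ih h R F (Nat.lor l.b Lb) (Nat.lor l.m Lz) p q lp g1 g2 g3)
    (fun _ ih h R _ Lb Lz p q lp g1 g2 g3 =>
      cond (Nat.beq (Nat.lor g2 (Nat.lor Lb lp)) (Nat.lor Lb lp))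
        (ih h R Lz Lb Lz p q lp g1 g2 g3) false)
    (fun t _ ih => stpT t ih)
    (fun r _ _ iha ihc h R F Lb Lz p q lp g1 g2 g3 =>
      cond (iha p (Nat.lor r.b q) lp (Nat.lor r.L g1) (Nat.lor (Nat.land r.L g1) g2)
          (Nat.lor (Nat.land r.L g2) g3))
        (ihc h (Nat.xor R (Nat.land R r.b)) F Lb Lz p q lp g1 g2 g3) false) a

/-- Check of a certificate, defender to move. `R`: the replies not yet dealt with; `F`: cells on
lines without attacker's stones with two stones of the defender; `Lb`, `Lz`: codes and cells of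
the lines collected so far. -/
noncomputable def chkD (c : DC k) :
    Bool → Nat → Nat → Nat → Nat → Nat → Nat → Nat → Nat → Nat → Nat → Bool :=
  DC.rec (motive_1 := fun _ => Nat → Nat → Nat → Nat → Nat → Nat → Bool)
    (motive_2 := fun _ => Bool → Nat → Nat → Nat → Nat → Nat → Nat → Nat → Nat → Nat → Nat → Bool)
    (fun t => stpV t)
    (fun m f l _ ih => stpFr m f l ih)
    (fun m _ ih => stpM fm m ih)
    (fun h R _ _ _ _ _ _ _ _ _ => cond h (Nat.beq R 0) false)
    (fun l _ ih h R F Lb Lz p q lp g1 g2 g3 =>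
      ih h R F (Nat.lor l.b Lb) (Nat.lor l.m Lz) p q lp g1 g2 g3)
    (fun _ ih h R _ Lb Lz p q lp g1 g2 g3 =>
      cond (Nat.beq (Nat.lor g2 (Nat.lor Lb lp)) (Nat.lor Lb lp))
        (ih h R Lz Lb Lz p q lp g1 g2 g3) false)
    (fun t _ ih => stpT t ih)
    (fun r _ _ iha ihc h R F Lb Lz p q lp g1 g2 g3 =>
      cond (iha p (Nat.lor r.b q) lp (Nat.lor r.L g1) (Nat.lor (Nat.land r.L g1) g2)
          (Nat.lor (Nat.land r.L g2) g3))
        (ihc h (Nat.xor R (Nat.land R r.b)) F Lb Lz p q lp g1 g2 g3) false) c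

end

/-- Lines with at least one, two, three cells of a list. -/
def cnt1 {k : Nat} : List (Cl k) → Nat
  | [] => 0
  | c :: cs => Nat.lor c.L (cnt1 cs)
def cnt2 {k : Nat} : List (Cl k) → Nat
  | [] => 0
  | c :: cs => Nat.lor (Nat.land c.L (cnt1 cs)) (cnt2 cs)
def cnt3 {k : Nat} : List (Cl k) → Nat
  | [] => 0
  | c :: cs => Nat.lor (Nat.land c.L (cnt2 cs)) (cnt3 cs)

/-- A position with the attacker to move and a certificate. -/
structure Ent (k : Nat) where
  P : List (Cl k)
  Q : List (Cl k)
  a : AC k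

/-- Check of an entry. -/
noncomputable def Ent.chk {k : Nat} (fm : Nat) (e : Ent k) : Bool :=
  Nat.beq (Nat.land (orB e.P) (orB e.Q)) 0 &&
  chkA fm e.a (orB e.P) (orB e.Q) (orL e.P) (cnt1 e.Q) (cnt2 e.Q) (cnt3 e.Q)

/-- Check of a list of entries. -/
noncomputable def chkE {k : Nat} (fm : Nat) : List (Ent k) → Bool
  | [] => true
  | e :: es => e.chk fm && chkE fm es

/-- The mask of all cells. -/
def fullMask (k : Nat) : Nat := 2 ^ (4 ^ k) - 1

/-- Equality of lists of numbers. -/
def eqL : List Nat → List Nat → Bool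
  | [], [] => true
  | a :: as, b :: bs => Nat.beq a b && eqL as bs
  | _, _ => false

/-- Membership in a list of numbers. -/
def memL (n : Nat) : List Nat → Bool
  | [] => false
  | a :: as => cond (Nat.beq n a) true (memL n as)

/-- The codes of a list of cells. -/
def codes {k : Nat} : List (Cl k) → List Nat
  | [] => []
  | c :: cs => c.c :: codes cs

/-- All entries have the stones `P` and `Q`, `key` with the `key` from the list. -/
def keysOk {k : Nat} (P Q : List Nat) : List (Ent k) → List Nat → Bool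
  | [], [] => true
  | e :: es, c :: cs => eqL (codes e.P) P && eqL (codes e.Q) (Q ++ [c]) && keysOk P Q es cs
  | _, _ => false

/-- A block of entries: the stones are `P` and `Q`, `c` with `c` in `keys`. -/
structure Blk (k : Nat) where
  P : List Nat
  Q : List Nat
  keys : List Nat
  L : List (Ent k)
  chk : chkE (fullMask k) L = true
  hk : keysOk P Q L keys = true

end Pool.Agent.Lib_TTT
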