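import Pool.Agent.Lib_TTT.Core

/-!
Look-up tables for the certified positions.
-/

set_option autoImplicit false

namespace Pool.Agent.Lib_TTT

/-- The mask of a list of keys. -/
def kmask : List Nat → Nat
  | [] => 0
  | c :: cs => Nat.lor (Nat.shiftLeft 1 c) (kmask cs)

/-- A row of a table: the stones `P`, the stones `Q` but the last one, and the mask of the codes
of the last stone. -/
abbrev Row := List Nat × List Nat × Nat

/-- Bit `c` of `m`. -/
def bitB (m c : Nat) : Bool := Nat.beq (Nat.land (Nat.shiftRight m c) 1) 1

/-- The list has no duplicates and its elements are not in the mask. -/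
def ndOk : List Nat → Nat → Bool
  | [], _ => true
  | q :: qs, m => !bitB m q && !memL q qs && ndOk qs m

/-- The row describes the block. -/
def rowOk {k : Nat} (b : Blk k) (r : Row) : Bool :=
  eqL b.P r.1 && eqL b.Q r.2.1 && Nat.beq (kmask b.keys) r.2.2 && ndOk r.2.1 r.2.2

/-- The rows describe the blocks. -/
def tabOk {k : Nat} : List (Blk k) → List Row → Bool
  | [], [] => true
  | b :: bs, r :: rs => rowOk b r && tabOk bs rs
  | _, _ => false

/-- Look up a position. -/
def look : List Row → List Nat → List Nat → Nat → Bool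
  | [], _, _, _ => false
  | r :: rs, P, Q, c => cond (eqL r.1 P) (cond (eqL r.2.1 Q) (bitB r.2.2 c) (look rs P Q c))
      (look rs P Q c)

/-- `f i` for all `i < n`. -/
def allN : Nat → (Nat → Bool) → Bool
  | 0, _ => true
  | n + 1, f => f n && allN n f

/-- Exchange of `1` and `2`. -/
def sgN (v : Nat) : Nat := cond (Nat.beq v 1) 2 (cond (Nat.beq v 2) 1 v)

def enc3 (a b c : Nat) : Nat := 16 * a + 4 * b + c
def enc4 (a b c d : Nat) : Nat := 64 * a + 16 * b + 4 * c + d
def enc5 (a b c d e : Nat) : Nat := 256 * a + 64 * b + 16 * c + 4 * d + e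

end Pool.Agent.Lib_TTT
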