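import Pool.Agent.Lib_TTT.CovTab

/-!
The tables contain all positions that are needed (up to symmetry).
-/

set_option autoImplicit false

namespace Pool.Agent.Lib_TTT

/-! Dimension 4, after the second move. -/

def l41 (a0 a1 a2 a3 b0 b1 b2 b3 : Nat) : Bool :=
  look tab41 [0, 63] [enc4 a0 a1 a2 a3] (enc4 b0 b1 b2 b3)

/-- The same with all permutations of the last three coordinates. -/
def d41 (a0 a1 a2 a3 b0 b1 b2 b3 : Nat) : Bool :=
  l41 a0 a1 a2 a3 b0 b1 b2 b3 || l41 a0 a1 a3 a2 b0 b1 b3 b2 || l41 a0 a2 a1 a3 b0 b2 b1 b3 ||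
  l41 a0 a2 a3 a1 b0 b2 b3 b1 || l41 a0 a3 a1 a2 b0 b3 b1 b2 || l41 a0 a3 a2 a1 b0 b3 b2 b1

def c41 (a0 a1 a2 a3 b0 b1 b2 b3 : Nat) : Bool :=
  Nat.beq a0 0 || (Nat.beq a1 a2 && Nat.beq a2 a3) ||
  !(Nat.ble (4 * a1 + b1) (4 * a2 + b2) && Nat.ble (4 * a2 + b2) (4 * a3 + b3)) ||
  (Nat.beq b0 0 && Nat.beq b1 b2 && Nat.beq b2 b3) ||
  Nat.beq (enc4 a0 a1 a2 a3) (enc4 b0 b1 b2 b3) ||
  l41 a0 a1 a2 a3 b0 b1 b2 b3 ||
  d41 (sgN a0) (sgN a1) (sgN a2) (sgN a3) (sgN b0) (sgN b1) (sgN b2) (sgN b3)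

theorem k41 : (allN 4 fun a0 => allN 4 fun a1 => allN 4 fun a2 => allN 4 fun a3 =>
    allN 4 fun b0 => allN 4 fun b1 => allN 4 fun b2 => allN 4 fun b3 =>
    c41 a0 a1 a2 a3 b0 b1 b2 b3) = true := by decide +kernel

/-! Dimension 4, after the third move `V2 0 1 2`, with the stone `V2 0 0 2` of the second
player. -/

def l42 (a0 a1 a2 a3 b0 b1 b2 b3 : Nat) : Bool :=
  look tab42 [0, 63, 106] [enc4 a0 a1 a2 a3, 42] (enc4 b0 b1 b2 b3)

/-- The digit is `1` or `2`. -/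
def d12 (a : Nat) : Bool := Nat.beq a 1 || Nat.beq a 2

def c42 (a0 a1 a2 a3 b0 b1 b2 b3 : Nat) : Bool :=
  Nat.beq a0 0 || (Nat.beq a1 a2 && Nat.beq a2 a3) ||
  !(Nat.ble (4 * a1 + b1) (4 * a2 + b2) && Nat.ble (4 * a2 + b2) (4 * a3 + b3)) ||
  (Nat.beq a0 2 && d12 a1 && d12 a2 && d12 a3) ||
  memL (enc4 b0 b1 b2 b3) [0, 63, 106, enc4 a0 a1 a2 a3, 42] ||
  l42 a0 a1 a2 a3 b0 b1 b2 b3

theorem k42 : (allN 4 fun a0 => allN 4 fun a1 => allN 4 fun a2 => allN 4 fun a3 =>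
    allN 4 fun b0 => allN 4 fun b1 => allN 4 fun b2 => allN 4 fun b3 =>
    c42 a0 a1 a2 a3 b0 b1 b2 b3) = true := by decide +kernel

/-! The same with the third move `pL 0 q1`. -/

/-- The digit of `pL`. -/
def plN (a : Nat) : Nat := cond (Nat.beq a 2) 0 3

def l42L (a1 a2 a3 b0 b1 b2 b3 : Nat) : Bool :=
  look tab4S [0, 63, enc4 3 (plN a1) (plN a2) (plN a3)] [enc4 2 a1 a2 a3, 42] (enc4 b0 b1 b2 b3)

def c42L (a1 a2 a3 b0 b1 b2 b3 : Nat) : Bool :=
  !(d12 a1 && d12 a2 && d12 a3) || (Nat.beq a1 a2 && Nat.beq a2 a3) ||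
  !(Nat.ble (4 * a1 + b1) (4 * a2 + b2) && Nat.ble (4 * a2 + b2) (4 * a3 + b3)) ||
  memL (enc4 b0 b1 b2 b3) [0, 63, enc4 3 (plN a1) (plN a2) (plN a3), enc4 2 a1 a2 a3, 42] ||
  l42L a1 a2 a3 b0 b1 b2 b3

theorem k42L : (allN 4 fun a1 => allN 4 fun a2 => allN 4 fun a3 =>
    allN 4 fun b0 => allN 4 fun b1 => allN 4 fun b2 => allN 4 fun b3 =>
    c42L a1 a2 a3 b0 b1 b2 b3) = true := by decide +kernel

/-! Dimension 5, after the second move, exceptional patterns. -/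

def l51 (a0 a1 a2 a3 a4 b0 b1 b2 b3 b4 : Nat) : Bool :=
  look tab51 [0, 255] [enc5 a0 a1 a2 a3 a4] (enc5 b0 b1 b2 b3 b4)

/-- The same with the permutations of the last four coordinates that are needed. -/
def d51 (a0 a1 a2 a3 a4 b0 b1 b2 b3 b4 : Nat) : Bool :=
  l51 a0 a1 a2 a3 a4 b0 b1 b2 b3 b4 || l51 a0 a2 a1 a3 a4 b0 b2 b1 b3 b4 ||
  l51 a0 a1 a2 a4 a3 b0 b1 b2 b4 b3 || l51 a0 a2 a1 a4 a3 b0 b2 b1 b4 b3 ||
  l51 a0 a3 a4 a1 a2 b0 b3 b4 b1 b2 || l51 a0 a3 a4 a2 a1 b0 b3 b4 b2 b1 ||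
  l51 a0 a4 a3 a1 a2 b0 b4 b3 b1 b2 || l51 a0 a4 a3 a2 a1 b0 b4 b3 b2 b1 ||
  l51 a0 a1 a3 a2 a4 b0 b1 b3 b2 b4

def c51 (a0 a1 a2 a3 a4 b0 b1 b2 b3 b4 : Nat) : Bool :=
  Nat.beq a0 0 || (Nat.beq b0 0 && Nat.beq b1 b2 && Nat.beq b2 b3 && Nat.beq b3 b4) ||
  Nat.beq (enc5 a0 a1 a2 a3 a4) (enc5 b0 b1 b2 b3 b4) ||
  l51 a0 a1 a2 a3 a4 b0 b1 b2 b3 b4 ||
  d51 (sgN a0) (sgN a1) (sgN a2) (sgN a3) (sgN a4) (sgN b0) (sgN b1) (sgN b2) (sgN b3) (sgN b4)

/-- All exceptional patterns. -/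
def allExc (c : Nat → Nat → Nat → Nat → Nat → Nat → Nat → Nat → Nat → Nat → Bool) : Bool :=
  (allN 4 fun a0 => allN 4 fun b0 => allN 4 fun a => allN 4 fun b => allN 4 fun x =>
    allN 4 fun y => !(Nat.blt a b && Nat.blt x y) ||
      (c a0 a a b b b0 x y x y && c a0 a a b b b0 x y (3 - y) (3 - x))) &&
  (allN 4 fun a0 => allN 4 fun b0 => allN 4 fun x => allN 4 fun y =>
    c a0 0 1 2 3 b0 x x y y && c a0 0 1 2 3 b0 x y x y &&
      c a0 0 1 2 3 b0 0 2 1 3 && c a0 0 1 2 3 b0 3 1 2 0)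

theorem k51 : allExc c51 = true := by decide +kernel

/-! Dimension 5, after the third move. -/

def l52 (a0 a1 a2 a3 a4 b0 b1 b2 b3 b4 : Nat) : Bool :=
  look tab52 [0, 255, 426] [enc5 a0 a1 a2 a3 a4, 170] (enc5 b0 b1 b2 b3 b4)

def c52 (a0 a1 a2 a3 a4 b0 b1 b2 b3 b4 : Nat) : Bool :=
  Nat.beq a0 0 || (Nat.beq a0 2 && d12 a1 && d12 a2 && d12 a3 && d12 a4) ||
  memL (enc5 b0 b1 b2 b3 b4) [0, 255, 426, enc5 a0 a1 a2 a3 a4, 170] ||
  l52 a0 a1 a2 a3 a4 b0 b1 b2 b3 b4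

theorem k52 : allExc c52 = true := by decide +kernel

def l52L (a1 a2 a3 a4 b0 b1 b2 b3 b4 : Nat) : Bool :=
  look tab5S [0, 255, enc5 3 (plN a1) (plN a2) (plN a3) (plN a4)] [enc5 2 a1 a2 a3 a4, 170]
    (enc5 b0 b1 b2 b3 b4)

def c52L (a0 a1 a2 a3 a4 b0 b1 b2 b3 b4 : Nat) : Bool :=
  !(Nat.beq a0 2 && d12 a1 && d12 a2 && d12 a3 && d12 a4) ||
  memL (enc5 b0 b1 b2 b3 b4)
    [0, 255, enc5 3 (plN a1) (plN a2) (plN a3) (plN a4), enc5 2 a1 a2 a3 a4, 170] ||
  l52L a1 a2 a3 a4 b0 b1 b2 b3 b4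

theorem k52L : allExc c52L = true := by decide +kernel

/-! Dimension 3. -/

theorem k3_1 : (allN 4 fun a => allN 4 fun b => allN 4 fun c =>
    !(Nat.blt b c) || look tab3 [0, 15] [] (enc3 a b c)) = true := by decide +kernel

theorem k3_2 : (allN 4 fun a => allN 4 fun b => allN 4 fun c =>
    Nat.beq a 0 || !(Nat.blt b c) || (Nat.beq a 2 && d12 b && d12 c) ||
      look tab3 [0, 15, 26] [enc3 a b c] 10) = true := by decide +kernel

theorem k3_3 : (allN 4 fun a => allN 4 fun b => allN 4 fun c =>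
    !(Nat.blt b c) || look tab3 [0, 15, 26] [10] (enc3 a b c)) = true := by decide +kernel

theorem k3_4 : look tab3 [0, 15, 26] [] 10 = true := by decide +kernel

/-- The position without stones of the second player. -/
theorem k3_6 : (eqL (codes K3.e0_15__none_0.P) [0, 15] && eqL (codes K3.e0_15__none_0.Q) []) =
    true := by decide +kernel

theorem k3_5 : look tab3 [0, 15, 60] [38] 10 = true := by decide +kernel

/-! Special first stones of the second player. -/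

/-- All last stones with ascending digits but the exceptions. -/
def kS1 (T : List Row) (P Q ex : List Nat) : Bool :=
  allN 4 fun b0 => allN 4 fun x => allN 4 fun y => allN 4 fun z =>
    !(Nat.ble x y && Nat.ble y z) || memL (enc4 b0 x y z) ex || look T P Q (enc4 b0 x y z)

/-- All last stones with the last two digits ascending but the exceptions. -/
def kS2 (T : List Row) (P Q ex : List Nat) : Bool :=
  allN 4 fun b0 => allN 4 fun b1 => allN 4 fun x => allN 4 fun y =>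
    !(Nat.ble x y) || memL (enc4 b0 b1 x y) ex || look T P Q (enc4 b0 b1 x y)

def kS3 (T : List Row) (P Q : List Nat) : Bool :=
  allN 4 fun b0 => look T P Q (enc5 b0 0 1 2 3)

def kS4 (T : List Row) (P Q : List Nat) : Bool :=
  allN 4 fun b0 => allN 4 fun b1 => allN 4 fun x => allN 4 fun y => allN 4 fun z =>
    !(Nat.blt x y && Nat.blt y z) || look T P Q (enc5 b0 b1 x y z)

theorem s1_1 : kS1 tab41 [0, 63] [64] [0, 63, 64, 21, 42] = true := by decide +kernel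
theorem s1_3 : kS1 tab41 [0, 63] [192] [0, 63, 192, 21, 42] = true := by decide +kernel
theorem s1_33 : kS1 tab4S [0, 192] [255] [0, 192, 255, 64, 128] = true := by decide +kernel
theorem s1_11 : kS1 tab4S [0, 64] [85] [0, 64, 85, 128, 192] = true := by decide +kernel
theorem s3_1 : kS3 tab51 [0, 255] [256] = true := by decide +kernel
theorem s3_3 : kS3 tab51 [0, 255] [768] = true := by decide +kernel
theorem s3_33 : kS3 tab5S [0, 768] [1023] = true := by decide +kernel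
theorem s3_11 : kS3 tab5S [0, 256] [341] = true := by decide +kernel

theorem s2_11 : kS2 tab4S [0, 63, 48] [64, 21] [0, 63, 48, 64, 21] = true := by decide +kernel
theorem s2_12 : kS2 tab4S [0, 63, 48] [64, 42] [0, 63, 48, 64, 42] = true := by decide +kernel
theorem s2_32 : kS2 tab4S [0, 63, 48] [192, 42] [0, 63, 48, 192, 42] = true := by decide +kernel
theorem s2_331 : kS2 tab4S [0, 192, 48] [255, 64] [0, 192, 48, 255, 64] = true := by
  decide +kernel
theorem s2_112 : kS2 tab4S [0, 64, 80] [85, 128] [0, 64, 80, 85, 128] = true := by decide +kernel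
theorem s2_113 : kS2 tab4S [0, 64, 48] [85, 192] [0, 64, 48, 85, 192] = true := by decide +kernel

theorem s4_11 : kS4 tab5S [0, 255, 192] [256, 85] = true := by decide +kernel
theorem s4_12 : kS4 tab5S [0, 255, 192] [256, 170] = true := by decide +kernel
theorem s4_32 : kS4 tab5S [0, 255, 192] [768, 170] = true := by decide +kernel
theorem s4_331 : kS4 tab5S [0, 768, 192] [1023, 256] = true := by decide +kernel
theorem s4_112 : kS4 tab5S [0, 256, 320] [341, 512] = true := by decide +kernel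
theorem s4_113 : kS4 tab5S [0, 256, 192] [341, 768] = true := by decide +kernel

theorem s5_11 : look tab4S [0, 63, 48] [64] 21 = true := by decide +kernel
theorem s5_12 : look tab4S [0, 63, 48] [64] 42 = true := by decide +kernel
theorem s5_32 : look tab4S [0, 63, 48] [192] 42 = true := by decide +kernel
theorem s5_331 : look tab4S [0, 192, 48] [255] 64 = true := by decide +kernel
theorem s5_112 : look tab4S [0, 64, 80] [85] 128 = true := by decide +kernel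
theorem s5_113 : look tab4S [0, 64, 48] [85] 192 = true := by decide +kernel

end Pool.Agent.Lib_TTT
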