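import Pool.Agent.Lib_TTT.CovLem

/-!
The certificates cover the general positions: `CovG1`, `CovG2`.
-/

set_option autoImplicit false

namespace Pool.Agent.Lib_TTT

variable {k : ℕ}

/-! ### Dimension 4, after the second move -/

private def W1 [NeZero k] (q1 q2 : Pt k) : Prop := Won {V2 0 0 0, V2 0 0 3} {q1, q2}

private theorem W1_perm [NeZero k] (π : Equiv.Perm (Fin k)) (h0 : π 0 = 0) {q1 q2 : Pt k}
    (h : W1 (permPt π q1) (permPt π q2)) : W1 q1 q2 := by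
  unfold W1 at h ⊢
  apply Won.back (lineMap_perm π)
  simpa [Finset.image_insert, perm_V2 π h0] using h

private theorem W1_sg [NeZero k] {q1 q2 : Pt k} (h : W1 (sgPt k q1) (sgPt k q2)) : W1 q1 q2 := by
  unfold W1 at h ⊢
  apply Won.back (lineMap_sg (d := k))
  have e0 : sg 0 = 0 := rfl
  have e3 : sg 3 = 3 := rfl
  simpa [Finset.image_insert, sg_V2, e0, e3] using h

private theorem cells_0_63 : cellsOf 4 [0, 63] = {V2 0 0 0, V2 0 0 3} := by
  have h1 : (0 : ℕ) = encP (V2 0 0 0 : Pt 4) := by rw [V2_4, encP4]; rfl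
  have h2 : (63 : ℕ) = encP (V2 0 0 3 : Pt 4) := by rw [V2_4, encP4]; rfl
  rw [h1, h2, cellsOf_cons, cellsOf_cons, cellsOf_nil]
  rfl

private theorem l41_sound {a0 a1 a2 a3 b0 b1 b2 b3 : Fin 4}
    (h : l41 a0 a1 a2 a3 b0 b1 b2 b3 = true) : W1 ![a0, a1, a2, a3] ![b0, b1, b2, b3] := by
  have hs := look_sound blks41 tab41 tab41_ok h
  rw [cells_0_63, ← encP4, ← encP4] at hs
  unfold W1
  simpa [cellsOf_cons, cellsOf_nil] using hs

private theorem sw12 (a b c d : Fin 4) :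
    permPt (Equiv.swap 1 2) (![a, b, c, d] : Pt 4) = ![a, c, b, d] := by
  rw [permPt_apply]; funext i; fin_cases i <;> rfl

private theorem sw23 (a b c d : Fin 4) :
    permPt (Equiv.swap 2 3) (![a, b, c, d] : Pt 4) = ![a, b, d, c] := by
  rw [permPt_apply]; funext i; fin_cases i <;> rfl

private theorem sgv4 (a b c d : Fin 4) :
    sgPt 4 (![a, b, c, d] : Pt 4) = ![sg a, sg b, sg c, sg d] := by
  rw [sgPt_apply]; funext i; fin_cases i <;> rfl

private theorem W1_12 {a b c d a' b' c' d' : Fin 4}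
    (h : W1 ![a, c, b, d] ![a', c', b', d']) : W1 ![a, b, c, d] ![a', b', c', d'] := by
  apply W1_perm (Equiv.swap 1 2) rfl
  rw [sw12, sw12]; exact h

private theorem W1_23 {a b c d a' b' c' d' : Fin 4}
    (h : W1 ![a, b, d, c] ![a', b', d', c']) : W1 ![a, b, c, d] ![a', b', c', d'] := by
  apply W1_perm (Equiv.swap 2 3) rfl
  rw [sw23, sw23]; exact h

private theorem d41_sound {a0 a1 a2 a3 b0 b1 b2 b3 : Fin 4}
    (h : d41 a0 a1 a2 a3 b0 b1 b2 b3 = true) : W1 ![a0, a1, a2, a3] ![b0, b1, b2, b3] := by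
  simp only [d41, Bool.or_eq_true] at h
  rcases h with ((((h | h) | h) | h) | h) | h
  · exact l41_sound h
  · exact W1_23 (l41_sound h)
  · exact W1_12 (l41_sound h)
  · exact W1_12 (W1_23 (l41_sound h))
  · exact W1_23 (W1_12 (l41_sound h))
  · exact W1_12 (W1_23 (W1_12 (l41_sound h)))

private theorem covG1_four (q1 q2 : Pt 4) (h0 : q1 0 ≠ 0) (hn : NC 0 q1) (h12 : q2 ≠ q1)
    (hc : ∀ c, q2 ≠ V2 0 0 c) : W1 q1 q2 := by
  have key : ∀ x y z : Fin 4 × Fin 4, ¬ (x.1 = y.1 ∧ y.1 = z.1) →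
      ¬ (q1 0 = q2 0 ∧ x.1 = x.2 ∧ y.1 = y.2 ∧ z.1 = z.2) →
      ¬ (q2 0 = 0 ∧ x.2 = y.2 ∧ y.2 = z.2) →
      W1 ![q1 0, x.1, y.1, z.1] ![q2 0, x.2, y.2, z.2] := by
    apply sort3 (fun x : Fin 4 × Fin 4 => 4 * (x.1 : ℕ) + (x.2 : ℕ))
    · intro x y z h A B C
      exact W1_12 (h (fun h' => A ⟨h'.1.symm, h'.1.trans h'.2⟩)
        (fun h' => B ⟨h'.1, h'.2.2.1, h'.2.1, h'.2.2.2⟩)
        (fun h' => C ⟨h'.1, h'.2.1.symm, h'.2.1.trans h'.2.2⟩))
    · intro x y z h A B C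
      exact W1_23 (h (fun h' => A ⟨h'.1.trans h'.2, h'.2.symm⟩)
        (fun h' => B ⟨h'.1, h'.2.1, h'.2.2.2, h'.2.2.1⟩)
        (fun h' => C ⟨h'.1, h'.2.1.trans h'.2.2, h'.2.2.symm⟩))
    · intro x y z s1 s2 A B C
      have hk := allN_fin (allN_fin (allN_fin (allN_fin (allN_fin (allN_fin (allN_fin
        (allN_fin k41 (q1 0)) x.1) y.1) z.1) (q2 0)) x.2) y.2) z.2
      simp only [c41, Bool.or_eq_true, Bool.and_eq_true, Bool.not_eq_true'] at hk
      rcases hk with (((((hk | hk) | hk) | hk) | hk) | hk) | hk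
      · exact absurd (Fin.ext (Nat.eq_of_beq_eq_true hk)) h0
      · exact absurd ⟨Fin.ext (Nat.eq_of_beq_eq_true hk.1),
          Fin.ext (Nat.eq_of_beq_eq_true hk.2)⟩ A
      · have t1 := Nat.ble_eq_true_of_le s1
        have t2 := Nat.ble_eq_true_of_le s2
        rw [t1, t2] at hk
        simp at hk
      · exact absurd ⟨Fin.ext (Nat.eq_of_beq_eq_true hk.1.1),
          Fin.ext (Nat.eq_of_beq_eq_true hk.1.2), Fin.ext (Nat.eq_of_beq_eq_true hk.2)⟩ C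
      · have he := Nat.eq_of_beq_eq_true hk
        rw [← encP4, ← encP4] at he
        have he := encP_inj he
        exact absurd ⟨congrFun he 0, congrFun he 1, congrFun he 2, congrFun he 3⟩ B
      · exact l41_sound hk
      · apply W1_sg
        rw [sgv4, sgv4]
        simp only [sgN_fin] at hk
        exact d41_sound hk
  rw [eta4 q1, eta4 q2]
  refine key (q1 1, q2 1) (q1 2, q2 2) (q1 3, q2 3) ?_ ?_ ?_
  · rintro ⟨h1, h2⟩
    obtain ⟨x, y, hx, hy, hxy⟩ := hn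
    apply hxy
    have hall : ∀ z : Fin 4, z ≠ 0 → q1 z = q1 1 := by
      intro z hz
      fin_cases z
      · exact absurd rfl hz
      · rfl
      · exact h1.symm
      · exact (h1.trans h2).symm
    rw [hall x hx, hall y hy]
  · rintro ⟨h1, h2, h3, h4⟩
    apply h12
    rw [eta4 q1, eta4 q2]
    simp only at h1 h2 h3 h4
    rw [h1, h2, h3, h4]
  · rintro ⟨h1, h2, h3⟩
    apply hc (q2 1)
    rw [V2_4, eta4 q2]
    simp only at h2 h3
    simp [h1, h2, h3]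


/-! ### Dimension 5, after the second move -/

private theorem cells_0_255 : cellsOf 5 [0, 255] = {V2 0 0 0, V2 0 0 3} := by
  have h1 : (0 : ℕ) = encP (V2 0 0 0 : Pt 5) := by rw [V2_5, encP5]; rfl
  have h2 : (255 : ℕ) = encP (V2 0 0 3 : Pt 5) := by rw [V2_5, encP5]; rfl
  rw [h1, h2, cellsOf_cons, cellsOf_cons, cellsOf_nil]
  rfl

private theorem l51_sound {a0 a1 a2 a3 a4 b0 b1 b2 b3 b4 : Fin 4}
    (h : l51 a0 a1 a2 a3 a4 b0 b1 b2 b3 b4 = true) :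
    W1 ![a0, a1, a2, a3, a4] ![b0, b1, b2, b3, b4] := by
  have hs := look_sound blks51 tab51 tab51_ok h
  rw [cells_0_255, ← encP5, ← encP5] at hs
  unfold W1
  simpa [cellsOf_cons, cellsOf_nil] using hs

private theorem sv12 (a b c d e : Fin 4) :
    permPt (Equiv.swap 1 2) (![a, b, c, d, e] : Pt 5) = ![a, c, b, d, e] := by
  rw [permPt_apply]; funext i; fin_cases i <;> rfl

private theorem sv23 (a b c d e : Fin 4) :
    permPt (Equiv.swap 2 3) (![a, b, c, d, e] : Pt 5) = ![a, b, d, c, e] := by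
  rw [permPt_apply]; funext i; fin_cases i <;> rfl

private theorem sv34 (a b c d e : Fin 4) :
    permPt (Equiv.swap 3 4) (![a, b, c, d, e] : Pt 5) = ![a, b, c, e, d] := by
  rw [permPt_apply]; funext i; fin_cases i <;> rfl

private theorem sgv5 (a b c d e : Fin 4) :
    sgPt 5 (![a, b, c, d, e] : Pt 5) = ![sg a, sg b, sg c, sg d, sg e] := by
  rw [sgPt_apply]; funext i; fin_cases i <;> rfl

private theorem X1_12 {a b c d e a' b' c' d' e' : Fin 4}
    (h : W1 ![a, c, b, d, e] ![a', c', b', d', e']) :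
    W1 ![a, b, c, d, e] ![a', b', c', d', e'] := by
  apply W1_perm (Equiv.swap 1 2) rfl
  rw [sv12, sv12]; exact h

private theorem X1_23 {a b c d e a' b' c' d' e' : Fin 4}
    (h : W1 ![a, b, d, c, e] ![a', b', d', c', e']) :
    W1 ![a, b, c, d, e] ![a', b', c', d', e'] := by
  apply W1_perm (Equiv.swap 2 3) rfl
  rw [sv23, sv23]; exact h

private theorem X1_34 {a b c d e a' b' c' d' e' : Fin 4}
    (h : W1 ![a, b, c, e, d] ![a', b', c', e', d']) :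
    W1 ![a, b, c, d, e] ![a', b', c', d', e'] := by
  apply W1_perm (Equiv.swap 3 4) rfl
  rw [sv34, sv34]; exact h

/-- Exchange of the pairs of coordinates `1, 2` and `3, 4`. -/
private theorem X1_grp {a b c d e a' b' c' d' e' : Fin 4}
    (h : W1 ![a, d, e, b, c] ![a', d', e', b', c']) :
    W1 ![a, b, c, d, e] ![a', b', c', d', e'] :=
  X1_23 (X1_12 (X1_34 (X1_23 h)))

private theorem d51_sound {a0 a1 a2 a3 a4 b0 b1 b2 b3 b4 : Fin 4}
    (h : d51 a0 a1 a2 a3 a4 b0 b1 b2 b3 b4 = true) :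
    W1 ![a0, a1, a2, a3, a4] ![b0, b1, b2, b3, b4] := by
  simp only [d51, Bool.or_eq_true] at h
  rcases h with (((((((h | h) | h) | h) | h) | h) | h) | h) | h
  · exact l51_sound h
  · exact X1_12 (l51_sound h)
  · exact X1_34 (l51_sound h)
  · exact X1_12 (X1_34 (l51_sound h))
  · exact X1_grp (l51_sound h)
  · exact X1_12 (X1_grp (l51_sound h))
  · exact X1_34 (X1_grp (l51_sound h))
  · exact X1_12 (X1_34 (X1_grp (l51_sound h)))
  · exact X1_23 (l51_sound h)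

/-- All exceptional patterns pass the check. -/
private theorem exc_sound {c : ℕ → ℕ → ℕ → ℕ → ℕ → ℕ → ℕ → ℕ → ℕ → ℕ → Bool}
    (h : allExc c = true) (q1 q2 : Pt 5)
    (hE : ExcP (fun i => q1 i.succ) (fun i => q2 i.succ)) :
    c (q1 0) (q1 1) (q1 2) (q1 3) (q1 4) (q2 0) (q2 1) (q2 2) (q2 3) (q2 4) = true := by
  simp only [allExc, Bool.and_eq_true] at h
  have e0 : (0 : Fin 4).succ = (1 : Fin 5) := rfl
  have e1 : (1 : Fin 4).succ = (2 : Fin 5) := rfl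
  have e2 : (2 : Fin 4).succ = (3 : Fin 5) := rfl
  have e3 : (3 : Fin 4).succ = (4 : Fin 5) := rfl
  simp only [ExcP, e0, e1, e2, e3] at hE
  rcases hE with ⟨h1, h2, h3, h4, h5, h6⟩ | ⟨h1, h2, h3, h4, h5⟩
  · have hk := allN_fin (allN_fin (allN_fin (allN_fin (allN_fin (allN_fin h.1 (q1 0)) (q2 0))
      (q1 1)) (q1 3)) (q2 1)) (q2 2)
    simp only [Bool.or_eq_true, Bool.and_eq_true, Bool.not_eq_true'] at hk
    rcases hk with hk | hk
    · have t1 : Nat.blt (q1 1) (q1 3) = true := Nat.ble_eq_true_of_le h3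
      have t2 : Nat.blt (q2 1) (q2 2) = true := Nat.ble_eq_true_of_le h4
      rw [t1, t2] at hk
      simp at hk
    · rcases h6 with ⟨h6, h7⟩ | ⟨h6, h7⟩
      · rw [← h1, ← h2, h6, h7]; exact hk.1
      · rw [← h1, ← h2, h6, h7, Fin.val_rev, Fin.val_rev]
        have r1 : 4 - ((q2 2 : Fin 4) + 1 : ℕ) = 3 - (q2 2 : ℕ) := by omega
        have r2 : 4 - ((q2 1 : Fin 4) + 1 : ℕ) = 3 - (q2 1 : ℕ) := by omega
        rw [r1, r2]
        exact hk.2
  · have hk := fun x y => allN_fin (allN_fin (allN_fin (allN_fin h.2 (q1 0)) (q2 0)) x) y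
    simp only [Bool.and_eq_true] at hk
    rw [h1, h2, h3, h4]
    rcases h5 with ⟨h5, h6⟩ | ⟨h5, h6⟩ | ⟨h5, h6, h7, h8⟩ | ⟨h5, h6, h7, h8⟩
    · rw [h5, h6]; exact (hk (q2 2) (q2 4)).1.1.1
    · rw [h5, h6]; exact (hk (q2 3) (q2 4)).1.1.2
    · rw [h5, h6, h7, h8]; exact (hk 0 0).1.2
    · rw [h5, h6, h7, h8]; exact (hk 0 0).2

private theorem covG1_five (q1 q2 : Pt 5) (h0 : q1 0 ≠ 0) (h12 : q2 ≠ q1)
    (hc : ∀ c, q2 ≠ V2 0 0 c) (hE : ExcP (fun i => q1 i.succ) (fun i => q2 i.succ)) :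
    W1 q1 q2 := by
  have hk := exc_sound k51 q1 q2 hE
  simp only [c51, Bool.or_eq_true, Bool.and_eq_true] at hk
  rcases hk with (((hk | hk) | hk) | hk) | hk
  · exact absurd (Fin.ext (Nat.eq_of_beq_eq_true hk)) h0
  · exfalso
    apply hc (q2 1)
    have g0 : q2 0 = 0 := Fin.ext (Nat.eq_of_beq_eq_true hk.1.1.1)
    have g1 : q2 1 = q2 2 := Fin.ext (Nat.eq_of_beq_eq_true hk.1.1.2)
    have g2 : q2 2 = q2 3 := Fin.ext (Nat.eq_of_beq_eq_true hk.1.2)
    have g3 : q2 3 = q2 4 := Fin.ext (Nat.eq_of_beq_eq_true hk.2)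
    rw [V2_5, eta5 q2]
    simp [g0, g1, g2, g3]
  · have he := Nat.eq_of_beq_eq_true hk
    rw [← encP5, ← encP5] at he
    have he := encP_inj he
    rw [← eta5 q1, ← eta5 q2] at he
    exact absurd he.symm h12
  · rw [eta5 q1, eta5 q2]
    exact l51_sound hk
  · rw [eta5 q1, eta5 q2]
    apply W1_sg
    rw [sgv5, sgv5]
    simp only [sgN_fin] at hk
    exact d51_sound hk

/-! ### Dimension 3 -/

private theorem covG1_three (q : Pt 3) (h : q 1 < q 2) : Won {V2 0 0 0, V2 0 0 3} {q} := by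
  have hk := allN_fin (allN_fin (allN_fin k3_1 (q 0)) (q 1)) (q 2)
  simp only [Bool.or_eq_true, Bool.not_eq_true'] at hk
  have t : Nat.blt (q 1) (q 2) = true := Nat.ble_eq_true_of_le h
  rw [t] at hk
  rcases hk with hk | hk
  · simp at hk
  have hs := look_sound blks3 tab3 tab3_ok hk
  have h1 : (0 : ℕ) = encP (V2 0 0 0 : Pt 3) := by rw [V2_3, encP3]; rfl
  have h2 : (15 : ℕ) = encP (V2 0 0 3 : Pt 3) := by rw [V2_3, encP3]; rfl
  rw [← encP3, ← eta3, h1, h2] at hs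
  simpa [cellsOf_cons, cellsOf_nil] using hs

private theorem covG1_alone : Won ({V2 0 0 0, V2 0 0 3} : Finset (Pt 3)) ∅ := by
  have hx := K3.x0_15__none
  simp only [chkE, Bool.and_true] at hx
  have hc := k3_6
  simp only [Bool.and_eq_true] at hc
  have e1 := eqL_eq hc.1
  have e2 := eqL_eq hc.2
  have hs := ent_sound K3.e0_15__none_0 hx (by rw [e2]; exact List.nodup_nil)
  rw [e1, e2] at hs
  have h1 : (0 : ℕ) = encP (V2 0 0 0 : Pt 3) := by rw [V2_3, encP3]; rfl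
  have h2 : (15 : ℕ) = encP (V2 0 0 3 : Pt 3) := by rw [V2_3, encP3]; rfl
  rw [cellsOf_cons' h1, cellsOf_cons' h2, cellsOf_nil] at hs
  exact hs

/-! ### After the third move -/

private def W2 [NeZero k] (q1 q3 : Pt k) : Prop :=
  Won {V2 0 0 0, V2 0 0 3, V2 0 1 2} {q1, V2 0 0 2, q3}

private theorem W2_perm [NeZero k] (π : Equiv.Perm (Fin k)) (h0 : π 0 = 0) {q1 q2 : Pt k}
    (h : W2 (permPt π q1) (permPt π q2)) : W2 q1 q2 := by
  unfold W2 at h ⊢
  apply Won.back (lineMap_perm π)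
  simpa [Finset.image_insert, perm_V2 π h0] using h

private theorem l42_sound {a0 a1 a2 a3 b0 b1 b2 b3 : Fin 4}
    (h : l42 a0 a1 a2 a3 b0 b1 b2 b3 = true) : W2 ![a0, a1, a2, a3] ![b0, b1, b2, b3] := by
  have hs := look_sound blks42 tab42 tab42_ok h
  have h1 : (0 : ℕ) = encP (V2 0 0 0 : Pt 4) := by rw [V2_4, encP4]; rfl
  have h2 : (63 : ℕ) = encP (V2 0 0 3 : Pt 4) := by rw [V2_4, encP4]; rfl
  have h3 : (106 : ℕ) = encP (V2 0 1 2 : Pt 4) := by rw [V2_4, encP4]; rfl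
  have h4 : (42 : ℕ) = encP (V2 0 0 2 : Pt 4) := by rw [V2_4, encP4]; rfl
  rw [← encP4, ← encP4] at hs
  simp only [List.cons_append, List.nil_append, cellsOf_cons' h1, cellsOf_cons' h2,
    cellsOf_cons' h3, cellsOf_cons' h4, cellsOf_cons, cellsOf_nil] at hs
  exact hs

private theorem l52_sound {a0 a1 a2 a3 a4 b0 b1 b2 b3 b4 : Fin 4}
    (h : l52 a0 a1 a2 a3 a4 b0 b1 b2 b3 b4 = true) :
    W2 ![a0, a1, a2, a3, a4] ![b0, b1, b2, b3, b4] := by
  have hs := look_sound blks52 tab52 tab52_ok h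
  have h1 : (0 : ℕ) = encP (V2 0 0 0 : Pt 5) := by rw [V2_5, encP5]; rfl
  have h2 : (255 : ℕ) = encP (V2 0 0 3 : Pt 5) := by rw [V2_5, encP5]; rfl
  have h3 : (426 : ℕ) = encP (V2 0 1 2 : Pt 5) := by rw [V2_5, encP5]; rfl
  have h4 : (170 : ℕ) = encP (V2 0 0 2 : Pt 5) := by rw [V2_5, encP5]; rfl
  rw [← encP5, ← encP5] at hs
  simp only [List.cons_append, List.nil_append, cellsOf_cons' h1, cellsOf_cons' h2,
    cellsOf_cons' h3, cellsOf_cons' h4, cellsOf_cons, cellsOf_nil] at hs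
  exact hs

private theorem W2_12 {a b c d a' b' c' d' : Fin 4}
    (h : W2 ![a, c, b, d] ![a', c', b', d']) : W2 ![a, b, c, d] ![a', b', c', d'] := by
  apply W2_perm (Equiv.swap 1 2) rfl
  rw [sw12, sw12]; exact h

private theorem W2_23 {a b c d a' b' c' d' : Fin 4}
    (h : W2 ![a, b, d, c] ![a', b', d', c']) : W2 ![a, b, c, d] ![a', b', c', d'] := by
  apply W2_perm (Equiv.swap 2 3) rfl
  rw [sw23, sw23]; exact h

/-- `NC` in digits. -/
private theorem nc_digits {q : Pt 4} (hn : NC 0 q) : ¬ (q 1 = q 2 ∧ q 2 = q 3) := by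
  rintro ⟨h1, h2⟩
  obtain ⟨x, y, hx, hy, hxy⟩ := hn
  apply hxy
  have hall : ∀ z : Fin 4, z ≠ 0 → q z = q 1 := by
    intro z hz
    fin_cases z
    · exact absurd rfl hz
    · rfl
    · exact h1.symm
    · exact (h1.trans h2).symm
  rw [hall x hx, hall y hy]

private theorem d12_sound {a : Fin 4} (h : d12 a = true) : a = 1 ∨ a = 2 := by
  simp only [d12, Bool.or_eq_true] at h
  rcases h with h | h
  · exact Or.inl (Fin.ext (Nat.eq_of_beq_eq_true h))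
  · exact Or.inr (Fin.ext (Nat.eq_of_beq_eq_true h))

private theorem covG2_four (q1 q3 : Pt 4) (h0 : q1 0 ≠ 0) (hn : NC 0 q1) (hL : ¬ Lev 0 q1)
    (e1 : q3 ≠ V2 0 0 0) (e2 : q3 ≠ V2 0 0 3) (e3 : q3 ≠ V2 0 1 2) (e4 : q3 ≠ q1)
    (e5 : q3 ≠ V2 0 0 2) : W2 q1 q3 := by
  have key : ∀ x y z : Fin 4 × Fin 4, ¬ (x.1 = y.1 ∧ y.1 = z.1) →
      ¬ (q1 0 = 2 ∧ (x.1 = 1 ∨ x.1 = 2) ∧ (y.1 = 1 ∨ y.1 = 2) ∧ (z.1 = 1 ∨ z.1 = 2)) →
      ¬ (q1 0 = q3 0 ∧ x.1 = x.2 ∧ y.1 = y.2 ∧ z.1 = z.2) →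
      ¬ (q3 0 = 0 ∧ x.2 = 0 ∧ y.2 = 0 ∧ z.2 = 0) →
      ¬ (q3 0 = 0 ∧ x.2 = 3 ∧ y.2 = 3 ∧ z.2 = 3) →
      ¬ (q3 0 = 1 ∧ x.2 = 2 ∧ y.2 = 2 ∧ z.2 = 2) →
      ¬ (q3 0 = 0 ∧ x.2 = 2 ∧ y.2 = 2 ∧ z.2 = 2) →
      W2 ![q1 0, x.1, y.1, z.1] ![q3 0, x.2, y.2, z.2] := by
    apply sort3 (fun x : Fin 4 × Fin 4 => 4 * (x.1 : ℕ) + (x.2 : ℕ))
    · intro x y z h A L B C1 C2 C3 C4
      exact W2_12 (h (fun h' => A ⟨h'.1.symm, h'.1.trans h'.2⟩)
        (fun h' => L ⟨h'.1, h'.2.2.1, h'.2.1, h'.2.2.2⟩)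
        (fun h' => B ⟨h'.1, h'.2.2.1, h'.2.1, h'.2.2.2⟩)
        (fun h' => C1 ⟨h'.1, h'.2.2.1, h'.2.1, h'.2.2.2⟩)
        (fun h' => C2 ⟨h'.1, h'.2.2.1, h'.2.1, h'.2.2.2⟩)
        (fun h' => C3 ⟨h'.1, h'.2.2.1, h'.2.1, h'.2.2.2⟩)
        (fun h' => C4 ⟨h'.1, h'.2.2.1, h'.2.1, h'.2.2.2⟩))
    · intro x y z h A L B C1 C2 C3 C4
      exact W2_23 (h (fun h' => A ⟨h'.1.trans h'.2, h'.2.symm⟩)
        (fun h' => L ⟨h'.1, h'.2.1, h'.2.2.2, h'.2.2.1⟩)
        (fun h' => B ⟨h'.1, h'.2.1, h'.2.2.2, h'.2.2.1⟩)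
        (fun h' => C1 ⟨h'.1, h'.2.1, h'.2.2.2, h'.2.2.1⟩)
        (fun h' => C2 ⟨h'.1, h'.2.1, h'.2.2.2, h'.2.2.1⟩)
        (fun h' => C3 ⟨h'.1, h'.2.1, h'.2.2.2, h'.2.2.1⟩)
        (fun h' => C4 ⟨h'.1, h'.2.1, h'.2.2.2, h'.2.2.1⟩))
    · intro x y z s1 s2 A L B C1 C2 C3 C4
      have hk := allN_fin (allN_fin (allN_fin (allN_fin (allN_fin (allN_fin (allN_fin
        (allN_fin k42 (q1 0)) x.1) y.1) z.1) (q3 0)) x.2) y.2) z.2
      simp only [c42, Bool.or_eq_true, Bool.and_eq_true, Bool.not_eq_true', memL_iff,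
        List.mem_cons, List.not_mem_nil, or_false] at hk
      have g1 : (0 : ℕ) = encP (![0, 0, 0, 0] : Pt 4) := by rw [encP4]; rfl
      have g2 : (63 : ℕ) = encP (![0, 3, 3, 3] : Pt 4) := by rw [encP4]; rfl
      have g3 : (106 : ℕ) = encP (![1, 2, 2, 2] : Pt 4) := by rw [encP4]; rfl
      have g4 : (42 : ℕ) = encP (![0, 2, 2, 2] : Pt 4) := by rw [encP4]; rfl
      rcases hk with ((((hk | hk) | hk) | hk) | hk) | hk
      · exact absurd (Fin.ext (Nat.eq_of_beq_eq_true hk)) h0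
      · exact absurd ⟨Fin.ext (Nat.eq_of_beq_eq_true hk.1),
          Fin.ext (Nat.eq_of_beq_eq_true hk.2)⟩ A
      · have t1 := Nat.ble_eq_true_of_le s1
        have t2 := Nat.ble_eq_true_of_le s2
        rw [t1, t2] at hk
        simp at hk
      · exact absurd ⟨Fin.ext (Nat.eq_of_beq_eq_true hk.1.1.1), d12_sound hk.1.1.2,
          d12_sound hk.1.2, d12_sound hk.2⟩ L
      · rcases hk with hk | hk | hk | hk | hk
        · rw [← encP4] at hk
          have he := encP_inj (hk.trans g1)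
          exact absurd ⟨congrFun he 0, congrFun he 1, congrFun he 2, congrFun he 3⟩ C1
        · rw [← encP4] at hk
          have he := encP_inj (hk.trans g2)
          exact absurd ⟨congrFun he 0, congrFun he 1, congrFun he 2, congrFun he 3⟩ C2
        · rw [← encP4] at hk
          have he := encP_inj (hk.trans g3)
          exact absurd ⟨congrFun he 0, congrFun he 1, congrFun he 2, congrFun he 3⟩ C3
        · rw [← encP4, ← encP4] at hk
          have he := encP_inj hk.symm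
          exact absurd ⟨congrFun he 0, congrFun he 1, congrFun he 2, congrFun he 3⟩ B
        · rw [← encP4] at hk
          have he := encP_inj (hk.trans g4)
          exact absurd ⟨congrFun he 0, congrFun he 1, congrFun he 2, congrFun he 3⟩ C4
      · exact l42_sound hk
  have ne_of {v : Pt 4} (hv : q3 ≠ v) : ¬ (q3 0 = v 0 ∧ q3 1 = v 1 ∧ q3 2 = v 2 ∧ q3 3 = v 3) := by
    rintro ⟨t0, t1, t2, t3⟩
    apply hv
    rw [eta4 q3, eta4 v, t0, t1, t2, t3]
  rw [eta4 q1, eta4 q3]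
  refine key (q1 1, q3 1) (q1 2, q3 2) (q1 3, q3 3) (nc_digits hn) ?_ ?_ (ne_of e1) (ne_of e2)
    (ne_of e3) (ne_of e5)
  · rintro ⟨t0, t1, t2, t3⟩
    apply hL
    refine ⟨t0, ?_⟩
    intro x hx
    fin_cases x
    · exact absurd rfl hx
    · exact t1
    · exact t2
    · exact t3
  · rintro ⟨t0, t1, t2, t3⟩
    exact ne_of e4 ⟨t0.symm, t1.symm, t2.symm, t3.symm⟩

private theorem covG2_five (q1 q3 : Pt 5) (h0 : q1 0 ≠ 0) (hL : ¬ Lev 0 q1)
    (e1 : q3 ≠ V2 0 0 0) (e2 : q3 ≠ V2 0 0 3) (e3 : q3 ≠ V2 0 1 2) (e4 : q3 ≠ q1)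
    (e5 : q3 ≠ V2 0 0 2) (hE : ExcP (fun i => q1 i.succ) (fun i => q3 i.succ)) : W2 q1 q3 := by
  have hk := exc_sound k52 q1 q3 hE
  simp only [c52, Bool.or_eq_true, Bool.and_eq_true, memL_iff, List.mem_cons,
    List.not_mem_nil, or_false] at hk
  have g1 : (0 : ℕ) = encP (V2 0 0 0 : Pt 5) := by rw [V2_5, encP5]; rfl
  have g2 : (255 : ℕ) = encP (V2 0 0 3 : Pt 5) := by rw [V2_5, encP5]; rfl
  have g3 : (426 : ℕ) = encP (V2 0 1 2 : Pt 5) := by rw [V2_5, encP5]; rfl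
  have g4 : (170 : ℕ) = encP (V2 0 0 2 : Pt 5) := by rw [V2_5, encP5]; rfl
  rw [← encP5, ← encP5, ← eta5, ← eta5] at hk
  rcases hk with ((hk | hk) | hk) | hk
  · exact absurd (Fin.ext (Nat.eq_of_beq_eq_true hk)) h0
  · exfalso
    apply hL
    refine ⟨Fin.ext (Nat.eq_of_beq_eq_true hk.1.1.1.1), ?_⟩
    intro x hx
    fin_cases x
    · exact absurd rfl hx
    · exact d12_sound hk.1.1.1.2
    · exact d12_sound hk.1.1.2
    · exact d12_sound hk.1.2
    · exact d12_sound hk.2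
  · rcases hk with hk | hk | hk | hk | hk
    · exact absurd (encP_inj (hk.trans g1)) e1
    · exact absurd (encP_inj (hk.trans g2)) e2
    · exact absurd (encP_inj (hk.trans g3)) e3
    · exact absurd (encP_inj hk) e4
    · exact absurd (encP_inj (hk.trans g4)) e5
  · rw [eta5 q1, eta5 q3]
    exact l52_sound hk

private theorem covG2_three (q : Pt 3) (h0 : q 0 ≠ 0) (h : q 1 < q 2) (hL : ¬ Lev 0 q) :
    Won {V2 0 0 0, V2 0 0 3, V2 0 1 2} {q, V2 0 0 2} := by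
  have hk := allN_fin (allN_fin (allN_fin k3_2 (q 0)) (q 1)) (q 2)
  simp only [Bool.or_eq_true, Bool.and_eq_true, Bool.not_eq_true'] at hk
  have t : Nat.blt (q 1) (q 2) = true := Nat.ble_eq_true_of_le h
  rw [t] at hk
  rcases hk with ((hk | hk) | hk) | hk
  · exact absurd (Fin.ext (Nat.eq_of_beq_eq_true hk)) h0
  · simp at hk
  · exfalso
    apply hL
    refine ⟨Fin.ext (Nat.eq_of_beq_eq_true hk.1.1), ?_⟩
    intro x hx
    fin_cases x
    · exact absurd rfl hx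
    · exact d12_sound hk.1.2
    · exact d12_sound hk.2
  have hs := look_sound blks3 tab3 tab3_ok hk
  have h1 : (0 : ℕ) = encP (V2 0 0 0 : Pt 3) := by rw [V2_3, encP3]; rfl
  have h2 : (15 : ℕ) = encP (V2 0 0 3 : Pt 3) := by rw [V2_3, encP3]; rfl
  have h3 : (26 : ℕ) = encP (V2 0 1 2 : Pt 3) := by rw [V2_3, encP3]; rfl
  have h4 : (10 : ℕ) = encP (V2 0 0 2 : Pt 3) := by rw [V2_3, encP3]; rfl
  rw [← encP3, ← eta3] at hs
  simp only [List.cons_append, List.nil_append, cellsOf_cons' h1, cellsOf_cons' h2,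
    cellsOf_cons' h3, cellsOf_cons' h4, cellsOf_cons, cellsOf_nil] at hs
  exact hs

private theorem covG2_three' (q : Pt 3) (h : q 1 < q 2) :
    Won {V2 0 0 0, V2 0 0 3, V2 0 1 2} {V2 0 0 2, q} := by
  have hk := allN_fin (allN_fin (allN_fin k3_3 (q 0)) (q 1)) (q 2)
  simp only [Bool.or_eq_true, Bool.not_eq_true'] at hk
  have t : Nat.blt (q 1) (q 2) = true := Nat.ble_eq_true_of_le h
  rw [t] at hk
  rcases hk with hk | hk
  · simp at hk
  have hs := look_sound blks3 tab3 tab3_ok hk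
  have h1 : (0 : ℕ) = encP (V2 0 0 0 : Pt 3) := by rw [V2_3, encP3]; rfl
  have h2 : (15 : ℕ) = encP (V2 0 0 3 : Pt 3) := by rw [V2_3, encP3]; rfl
  have h3 : (26 : ℕ) = encP (V2 0 1 2 : Pt 3) := by rw [V2_3, encP3]; rfl
  have h4 : (10 : ℕ) = encP (V2 0 0 2 : Pt 3) := by rw [V2_3, encP3]; rfl
  rw [← encP3, ← eta3] at hs
  simp only [List.cons_append, List.nil_append, cellsOf_cons' h1, cellsOf_cons' h2,
    cellsOf_cons' h3, cellsOf_cons' h4, cellsOf_cons, cellsOf_nil] at hs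
  exact hs

private theorem covG2_alone :
    Won ({V2 0 0 0, V2 0 0 3, V2 0 1 2} : Finset (Pt 3)) {V2 0 0 2} := by
  have hs := look_sound blks3 tab3 tab3_ok k3_4
  have h1 : (0 : ℕ) = encP (V2 0 0 0 : Pt 3) := by rw [V2_3, encP3]; rfl
  have h2 : (15 : ℕ) = encP (V2 0 0 3 : Pt 3) := by rw [V2_3, encP3]; rfl
  have h3 : (26 : ℕ) = encP (V2 0 1 2 : Pt 3) := by rw [V2_3, encP3]; rfl
  have h4 : (10 : ℕ) = encP (V2 0 0 2 : Pt 3) := by rw [V2_3, encP3]; rfl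
  simp only [List.nil_append, cellsOf_cons' h1, cellsOf_cons' h2,
    cellsOf_cons' h3, cellsOf_cons' h4, cellsOf_nil] at hs
  exact hs

/-! ### The third move `pL 0 q1` -/

private def W3 [NeZero k] (q1 q3 : Pt k) : Prop :=
  Won {V2 0 0 0, V2 0 0 3, pL 0 q1} {q1, V2 0 0 2, q3}

private theorem W3_perm [NeZero k] (π : Equiv.Perm (Fin k)) (h0 : π 0 = 0) {q1 q2 : Pt k}
    (h : W3 (permPt π q1) (permPt π q2)) : W3 q1 q2 := by
  unfold W3 at h ⊢
  apply Won.back (lineMap_perm π)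
  simpa [Finset.image_insert, perm_V2 π h0, perm_pL π h0] using h

private theorem plN_fin (a : Fin 4) : plN (a : ℕ) = ((if a = 2 then 0 else 3 : Fin 4) : ℕ) := by
  fin_cases a <;> rfl

private theorem pL_4 (a b c d : Fin 4) : pL 0 (![a, b, c, d] : Pt 4) =
    ![3, if b = 2 then 0 else 3, if c = 2 then 0 else 3, if d = 2 then 0 else 3] := by
  funext i; fin_cases i <;> rfl

private theorem pL_5 (a b c d e : Fin 4) : pL 0 (![a, b, c, d, e] : Pt 5) =
    ![3, if b = 2 then 0 else 3, if c = 2 then 0 else 3, if d = 2 then 0 else 3,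
      if e = 2 then 0 else 3] := by
  funext i; fin_cases i <;> rfl

private theorem encPL4 (a b c d : Fin 4) :
    enc4 3 (plN b) (plN c) (plN d) = encP (pL 0 (![a, b, c, d] : Pt 4)) := by
  rw [pL_4, encP4, plN_fin, plN_fin, plN_fin]; rfl

private theorem encPL5 (a b c d e : Fin 4) :
    enc5 3 (plN b) (plN c) (plN d) (plN e) = encP (pL 0 (![a, b, c, d, e] : Pt 5)) := by
  rw [pL_5, encP5, plN_fin, plN_fin, plN_fin, plN_fin]; rfl

private theorem l42L_sound {a1 a2 a3 b0 b1 b2 b3 : Fin 4}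
    (h : l42L a1 a2 a3 b0 b1 b2 b3 = true) : W3 ![2, a1, a2, a3] ![b0, b1, b2, b3] := by
  have hs := look_sound blks4S tab4S tab4S_ok h
  have h1 : (0 : ℕ) = encP (V2 0 0 0 : Pt 4) := by rw [V2_4, encP4]; rfl
  have h2 : (63 : ℕ) = encP (V2 0 0 3 : Pt 4) := by rw [V2_4, encP4]; rfl
  have h4 : (42 : ℕ) = encP (V2 0 0 2 : Pt 4) := by rw [V2_4, encP4]; rfl
  have h5 : enc4 2 a1 a2 a3 = encP (![2, a1, a2, a3] : Pt 4) := by rw [encP4]; rfl
  rw [← encP4, encPL4 2, h5] at hs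
  simp only [List.cons_append, List.nil_append, cellsOf_cons' h1, cellsOf_cons' h2,
    cellsOf_cons' h4, cellsOf_cons, cellsOf_nil] at hs
  exact hs

private theorem l52L_sound {a1 a2 a3 a4 b0 b1 b2 b3 b4 : Fin 4}
    (h : l52L a1 a2 a3 a4 b0 b1 b2 b3 b4 = true) :
    W3 ![2, a1, a2, a3, a4] ![b0, b1, b2, b3, b4] := by
  have hs := look_sound blks5S tab5S tab5S_ok h
  have h1 : (0 : ℕ) = encP (V2 0 0 0 : Pt 5) := by rw [V2_5, encP5]; rfl
  have h2 : (255 : ℕ) = encP (V2 0 0 3 : Pt 5) := by rw [V2_5, encP5]; rfl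
  have h4 : (170 : ℕ) = encP (V2 0 0 2 : Pt 5) := by rw [V2_5, encP5]; rfl
  have h5 : enc5 2 a1 a2 a3 a4 = encP (![2, a1, a2, a3, a4] : Pt 5) := by rw [encP5]; rfl
  rw [← encP5, encPL5 2, h5] at hs
  simp only [List.cons_append, List.nil_append, cellsOf_cons' h1, cellsOf_cons' h2,
    cellsOf_cons' h4, cellsOf_cons, cellsOf_nil] at hs
  exact hs

private theorem W3_12 {a b c d a' b' c' d' : Fin 4}
    (h : W3 ![a, c, b, d] ![a', c', b', d']) : W3 ![a, b, c, d] ![a', b', c', d'] := by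
  apply W3_perm (Equiv.swap 1 2) rfl
  rw [sw12, sw12]; exact h

private theorem W3_23 {a b c d a' b' c' d' : Fin 4}
    (h : W3 ![a, b, d, c] ![a', b', d', c']) : W3 ![a, b, c, d] ![a', b', c', d'] := by
  apply W3_perm (Equiv.swap 2 3) rfl
  rw [sw23, sw23]; exact h

private theorem d12_complete {a : Fin 4} (h : a = 1 ∨ a = 2) : d12 a = true := by
  rcases h with h | h <;> rw [h] <;> rfl

private theorem covG2_fourL (q1 q3 : Pt 4) (hL : Lev 0 q1) (hn : NC 0 q1)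
    (e1 : q3 ≠ V2 0 0 0) (e2 : q3 ≠ V2 0 0 3) (e3 : q3 ≠ pL 0 q1) (e4 : q3 ≠ q1)
    (e5 : q3 ≠ V2 0 0 2) : W3 q1 q3 := by
  have key : ∀ x y z : Fin 4 × Fin 4, ¬ (x.1 = y.1 ∧ y.1 = z.1) →
      ((x.1 = 1 ∨ x.1 = 2) ∧ (y.1 = 1 ∨ y.1 = 2) ∧ (z.1 = 1 ∨ z.1 = 2)) →
      ¬ (2 = q3 0 ∧ x.1 = x.2 ∧ y.1 = y.2 ∧ z.1 = z.2) →
      ¬ (q3 0 = 0 ∧ x.2 = 0 ∧ y.2 = 0 ∧ z.2 = 0) →
      ¬ (q3 0 = 0 ∧ x.2 = 3 ∧ y.2 = 3 ∧ z.2 = 3) →
      ¬ (q3 0 = 3 ∧ x.2 = (if x.1 = 2 then 0 else 3) ∧ y.2 = (if y.1 = 2 then 0 else 3) ∧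
        z.2 = (if z.1 = 2 then 0 else 3)) →
      ¬ (q3 0 = 0 ∧ x.2 = 2 ∧ y.2 = 2 ∧ z.2 = 2) →
      W3 ![2, x.1, y.1, z.1] ![q3 0, x.2, y.2, z.2] := by
    apply sort3 (fun x : Fin 4 × Fin 4 => 4 * (x.1 : ℕ) + (x.2 : ℕ))
    · intro x y z h A L B C1 C2 C3 C4
      exact W3_12 (h (fun h' => A ⟨h'.1.symm, h'.1.trans h'.2⟩)
        ⟨L.2.1, L.1, L.2.2⟩
        (fun h' => B ⟨h'.1, h'.2.2.1, h'.2.1, h'.2.2.2⟩)
        (fun h' => C1 ⟨h'.1, h'.2.2.1, h'.2.1, h'.2.2.2⟩)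
        (fun h' => C2 ⟨h'.1, h'.2.2.1, h'.2.1, h'.2.2.2⟩)
        (fun h' => C3 ⟨h'.1, h'.2.2.1, h'.2.1, h'.2.2.2⟩)
        (fun h' => C4 ⟨h'.1, h'.2.2.1, h'.2.1, h'.2.2.2⟩))
    · intro x y z h A L B C1 C2 C3 C4
      exact W3_23 (h (fun h' => A ⟨h'.1.trans h'.2, h'.2.symm⟩)
        ⟨L.1, L.2.2, L.2.1⟩
        (fun h' => B ⟨h'.1, h'.2.1, h'.2.2.2, h'.2.2.1⟩)
        (fun h' => C1 ⟨h'.1, h'.2.1, h'.2.2.2, h'.2.2.1⟩)
        (fun h' => C2 ⟨h'.1, h'.2.1, h'.2.2.2, h'.2.2.1⟩)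
        (fun h' => C3 ⟨h'.1, h'.2.1, h'.2.2.2, h'.2.2.1⟩)
        (fun h' => C4 ⟨h'.1, h'.2.1, h'.2.2.2, h'.2.2.1⟩))
    · intro x y z s1 s2 A L B C1 C2 C3 C4
      have hk := allN_fin (allN_fin (allN_fin (allN_fin (allN_fin (allN_fin
        (allN_fin k42L x.1) y.1) z.1) (q3 0)) x.2) y.2) z.2
      simp only [c42L, Bool.or_eq_true, Bool.and_eq_true, Bool.not_eq_true', memL_iff,
        List.mem_cons, List.not_mem_nil, or_false] at hk
      have g1 : (0 : ℕ) = encP (![0, 0, 0, 0] : Pt 4) := by rw [encP4]; rfl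
      have g2 : (63 : ℕ) = encP (![0, 3, 3, 3] : Pt 4) := by rw [encP4]; rfl
      have g4 : (42 : ℕ) = encP (![0, 2, 2, 2] : Pt 4) := by rw [encP4]; rfl
      have g5 : enc4 2 x.1 y.1 z.1 = encP (![2, x.1, y.1, z.1] : Pt 4) := by rw [encP4]; rfl
      rcases hk with (((hk | hk) | hk) | hk) | hk
      · rw [d12_complete L.1, d12_complete L.2.1, d12_complete L.2.2] at hk
        simp at hk
      · exact absurd ⟨Fin.ext (Nat.eq_of_beq_eq_true hk.1),
          Fin.ext (Nat.eq_of_beq_eq_true hk.2)⟩ A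
      · have t1 := Nat.ble_eq_true_of_le s1
        have t2 := Nat.ble_eq_true_of_le s2
        rw [t1, t2] at hk
        simp at hk
      · rcases hk with hk | hk | hk | hk | hk
        · rw [← encP4] at hk
          have he := encP_inj (hk.trans g1)
          exact absurd ⟨congrFun he 0, congrFun he 1, congrFun he 2, congrFun he 3⟩ C1
        · rw [← encP4] at hk
          have he := encP_inj (hk.trans g2)
          exact absurd ⟨congrFun he 0, congrFun he 1, congrFun he 2, congrFun he 3⟩ C2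
        · rw [← encP4, encPL4 2] at hk
          have he := encP_inj hk
          rw [pL_4] at he
          exact absurd ⟨congrFun he 0, congrFun he 1, congrFun he 2, congrFun he 3⟩ C3
        · rw [← encP4] at hk
          have he := encP_inj (hk.trans g5).symm
          exact absurd ⟨congrFun he 0, congrFun he 1, congrFun he 2, congrFun he 3⟩ B
        · rw [← encP4] at hk
          have he := encP_inj (hk.trans g4)
          exact absurd ⟨congrFun he 0, congrFun he 1, congrFun he 2, congrFun he 3⟩ C4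
      · exact l42L_sound hk
  have ne_of {v : Pt 4} (hv : q3 ≠ v) : ¬ (q3 0 = v 0 ∧ q3 1 = v 1 ∧ q3 2 = v 2 ∧ q3 3 = v 3) := by
    rintro ⟨t0, t1, t2, t3⟩
    apply hv
    rw [eta4 q3, eta4 v, t0, t1, t2, t3]
  have hfin := key (q1 1, q3 1) (q1 2, q3 2) (q1 3, q3 3) (nc_digits hn)
    ⟨hL.2 1 (by decide), hL.2 2 (by decide), hL.2 3 (by decide)⟩ ?_ (ne_of e1) (ne_of e2)
    (ne_of e3) (ne_of e5)
  · rw [eta4 q1, eta4 q3, hL.1]
    exact hfin
  · rintro ⟨t0, t1, t2, t3⟩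
    exact ne_of e4 ⟨t0.symm.trans hL.1.symm, t1.symm, t2.symm, t3.symm⟩

private theorem covG2_fiveL (q1 q3 : Pt 5) (hL : Lev 0 q1)
    (e1 : q3 ≠ V2 0 0 0) (e2 : q3 ≠ V2 0 0 3) (e3 : q3 ≠ pL 0 q1) (e4 : q3 ≠ q1)
    (e5 : q3 ≠ V2 0 0 2) (hE : ExcP (fun i => q1 i.succ) (fun i => q3 i.succ)) : W3 q1 q3 := by
  have hk := exc_sound k52L q1 q3 hE
  simp only [c52L, Bool.or_eq_true, Bool.not_eq_true', memL_iff,
    List.mem_cons, List.not_mem_nil, or_false] at hk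
  have g1 : (0 : ℕ) = encP (V2 0 0 0 : Pt 5) := by rw [V2_5, encP5]; rfl
  have g2 : (255 : ℕ) = encP (V2 0 0 3 : Pt 5) := by rw [V2_5, encP5]; rfl
  have g4 : (170 : ℕ) = encP (V2 0 0 2 : Pt 5) := by rw [V2_5, encP5]; rfl
  have e0 : q1 0 = 2 := hL.1
  have g5 : enc5 2 (q1 1) (q1 2) (q1 3) (q1 4) = encP q1 := by
    rw [eta5 q1, encP5, e0]; rfl
  have g6 : enc5 3 (plN (q1 1)) (plN (q1 2)) (plN (q1 3)) (plN (q1 4)) = encP (pL 0 q1) := by
    rw [encPL5 (q1 0), ← eta5]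
  rw [← encP5, ← eta5, g5, g6] at hk
  rcases hk with (hk | hk) | hk
  · rw [e0, d12_complete (hL.2 1 (by decide)), d12_complete (hL.2 2 (by decide)),
      d12_complete (hL.2 3 (by decide)), d12_complete (hL.2 4 (by decide))] at hk
    exact absurd hk (by decide)
  · rcases hk with hk | hk | hk | hk | hk
    · exact absurd (encP_inj (hk.trans g1)) e1
    · exact absurd (encP_inj (hk.trans g2)) e2
    · exact absurd (encP_inj hk) e3
    · exact absurd (encP_inj hk) e4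
    · exact absurd (encP_inj (hk.trans g4)) e5
  · have hs := l52L_sound hk
    rw [← e0, ← eta5, ← eta5] at hs
    exact hs

private theorem covG2_threeL (q : Pt 3) (hL : Lev 0 q) (h : q 1 < q 2) :
    Won {V2 0 0 0, V2 0 0 3, pL 0 q} {q, V2 0 0 2} := by
  have hq : q = ![2, 1, 2] := by
    have h1 := hL.2 1 (by decide)
    have h2 := hL.2 2 (by decide)
    rw [eta3 q, hL.1]
    rcases h1 with h1 | h1 <;> rcases h2 with h2 | h2 <;> rw [h1, h2] at h ⊢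
    · exact absurd h (by decide)
    · exact absurd h (by decide)
    · exact absurd h (by decide)
  have hp : pL 0 q = ![3, 3, 0] := by
    rw [hq]; funext i; fin_cases i <;> rfl
  have hs := look_sound blks3 tab3 tab3_ok k3_5
  have h1 : (0 : ℕ) = encP (V2 0 0 0 : Pt 3) := by rw [V2_3, encP3]; rfl
  have h2 : (15 : ℕ) = encP (V2 0 0 3 : Pt 3) := by rw [V2_3, encP3]; rfl
  have h3 : (60 : ℕ) = encP (![3, 3, 0] : Pt 3) := by rw [encP3]; rfl
  have h4 : (38 : ℕ) = encP (![2, 1, 2] : Pt 3) := by rw [encP3]; rfl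
  have h5 : (10 : ℕ) = encP (V2 0 0 2 : Pt 3) := by rw [V2_3, encP3]; rfl
  simp only [List.cons_append, List.nil_append, cellsOf_cons' h1, cellsOf_cons' h2,
    cellsOf_cons' h3, cellsOf_cons' h4, cellsOf_cons' h5, cellsOf_nil] at hs
  rw [hp, hq]
  exact hs

/-- The general positions after the second move. -/
theorem covG1 : CovG1 :=
  ⟨covG1_four, covG1_five, covG1_three, covG1_alone⟩

/-- The general positions after the third move. -/
theorem covG2 : CovG2 :=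
  ⟨covG2_four, covG2_five, covG2_three, covG2_three', covG2_alone, covG2_fourL, covG2_fiveL,
    covG2_threeL⟩

end Pool.Agent.Lib_TTT
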