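import Pool.Agent.Lib_TTT.SoundT

/-!
Soundness of the certificate checker of `Core.lean`.

`Inv`: the masks describe the position. `chkA_sound`, `chkD_sound` by mutual structural
recursion on the certificates (`chkA`, `chkD` unfold by `rfl` on constructors).

* `V t`: `vt_spec` with the tests `base`, `U`, and
  `g3 | (G1 & g2) | (G2 & g1) ⊆ lp`: every open word has at most two cells of `Q` and `F` together.
* `Fr m f l c`: `TA.frc`; the line is contained in `insert f (insert m P)`; `g3 ⊆ m.L | lp`: no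
  open word has three cells of `Q` after the move `m`, so no answer completes a line.
* `M m c`: `TA.mv` with `chkD_sound`; initially `R` = all free cells, `F = fm` = all cells.
* In `chkD`: `R` contains all free cells `r` for which `TA P (insert r Q)` is not yet known;
  `Lb`: codes of words all of whose cells are in `Lz`; `F` contains all cells of open words with
  two cells of `Q`; `h`: a threat sequence has been found.
  `L l c` adds a line to `Lb`, `Lz`. `F c`: tests `g2 ⊆ Lb | lp` and puts `F = Lz`.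
  `T t c`: the template is valid in the position (`base`, `U`, and `(G1 & g2) | (G2 & g1) ⊆ lp`;
  `g3 ⊆ lp` is known), so `Vcf P Q`; `G1 & g1 ⊆ Lb | lp`. After an answer `r` not in
  `Lz | Z0 | F` it is still valid: `r ∉ U`; for an open word `w` with `On r w` we need
  `cn w Q + cn w F_t ≤ 1`: two cells of `Q` put `r` in `F`; one cell of `Q` and one of `F_t` put
  `w` in `Lb`, `r` in `Lz`; two cells of `F_t` put `r` in `Z0` (or a base stone on `w`).
  `K r a c`: `chkA_sound` for the answer `r`. `N`: `h` and `R = 0`.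
-/

set_option autoImplicit false

namespace Pool.Agent.Lib_TTT

variable {k : ℕ}

/-- The masks describe the position. -/
structure Inv (P Q : Finset (Pt k)) (p q lp g1 g2 g3 : ℕ) : Prop where
  dis : Disjoint P Q
  hp : MP p P
  hq : MP q Q
  hlp : ∀ w : Fin k → Fin 6, lp.testBit (encW w) = true ↔ ∃ x ∈ P, On x w
  h1 : MG 1 g1 Q
  h2 : MG 2 g2 Q
  h3 : MG 3 g3 Q

private theorem SoundA_or (a b n : ℕ) :
    (Nat.lor a b).testBit n = true ↔ a.testBit n = true ∨ b.testBit n = true := by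
  have h : (Nat.lor a b).testBit n = (a.testBit n || b.testBit n) := Nat.testBit_or a b n
  rw [h, Bool.or_eq_true]

private theorem SoundA_and (a b n : ℕ) :
    (Nat.land a b).testBit n = true ↔ a.testBit n = true ∧ b.testBit n = true := by
  have h : (Nat.land a b).testBit n = (a.testBit n && b.testBit n) := Nat.testBit_and a b n
  rw [h, Bool.and_eq_true]

private theorem SoundA_xor (a b n : ℕ) :
    (Nat.xor a b).testBit n = true ↔
      (a.testBit n = true ∧ ¬ b.testBit n = true) ∨ (¬ a.testBit n = true ∧ b.testBit n = true) := by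
  have h : (Nat.xor a b).testBit n = (a.testBit n ^^ b.testBit n) := Nat.testBit_xor a b n
  rw [h]
  cases a.testBit n <;> cases b.testBit n <;> simp

private theorem SoundA_sub {a b : ℕ} (h : Nat.beq (Nat.lor a b) b = true) (n : ℕ)
    (hn : a.testBit n = true) : b.testBit n = true := by
  have h' := Nat.eq_of_beq_eq_true h
  rw [← h']
  exact (SoundA_or a b n).2 (Or.inl hn)

private theorem SoundA_dis {a b : ℕ} (h : Nat.beq (Nat.land a b) 0 = true) (n : ℕ)
    (hn : a.testBit n = true) (hb : b.testBit n = true) : False := by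
  have h' := Nat.eq_of_beq_eq_true h
  have h2 := (SoundA_and a b n).2 ⟨hn, hb⟩
  rw [h'] at h2
  simp at h2

private theorem SoundA_cond {b x : Bool} (h : cond b x false = true) : b = true ∧ x = true := by
  cases b
  · simp at h
  · exact ⟨rfl, h⟩

private theorem SoundA_mp {p : ℕ} {P : Finset (Pt k)} (h : MP p P) (x : Pt k) :
    p.testBit (encP x) = true ↔ x ∈ P := by
  rw [h]
  constructor
  · rintro ⟨y, hy, hxy⟩
    rw [encP_inj hxy]
    exact hy
  · intro hx
    exact ⟨x, hx, rfl⟩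

private theorem SoundA_cn_insert (w : Fin k → Fin 6) (Q : Finset (Pt k)) (f : Pt k) (hf : f ∉ Q) :
    cn w (insert f Q) = cn w Q + if On f w then 1 else 0 := by
  unfold cn
  rw [Finset.filter_insert]
  split_ifs with h
  · rw [Finset.card_insert_of_notMem]
    intro h2
    exact hf (Finset.mem_filter.1 h2).1
  · rfl

private theorem SoundA_insP {P Q : Finset (Pt k)} {p q lp g1 g2 g3 : ℕ}
    (hI : Inv P Q p q lp g1 g2 g3) (m : Cl k) (hm : m.pt ∉ Q) :
    Inv (insert m.pt P) Q (Nat.lor m.b p) q (Nat.lor m.L lp) g1 g2 g3 where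
  dis := by
    rw [Finset.disjoint_insert_left]
    exact ⟨hm, hI.dis⟩
  hp := by
    intro n
    rw [SoundA_or, hI.hp n, m.pt_b n]
    simp
  hq := hI.hq
  hlp := by
    intro w
    rw [SoundA_or, hI.hlp w, m.pt_L w]
    simp
  h1 := hI.h1
  h2 := hI.h2
  h3 := hI.h3

private theorem SoundA_insQ {P Q : Finset (Pt k)} {p q lp g1 g2 g3 : ℕ}
    (hI : Inv P Q p q lp g1 g2 g3) (f : Cl k) (hP : f.pt ∉ P) (hQ : f.pt ∉ Q) :
    Inv P (insert f.pt Q) p (Nat.lor f.b q) lp (Nat.lor f.L g1)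
      (Nat.lor (Nat.land f.L g1) g2) (Nat.lor (Nat.land f.L g2) g3) where
  dis := by
    rw [Finset.disjoint_insert_right]
    exact ⟨hP, hI.dis⟩
  hp := hI.hp
  hq := by
    intro n
    rw [SoundA_or, hI.hq n, f.pt_b n]
    simp
  hlp := hI.hlp
  h1 := by
    intro w
    rw [SoundA_or, f.pt_L w, hI.h1 w, SoundA_cn_insert w Q _ hQ]
    split_ifs with h
    · simp [h]
    · simp [h]
  h2 := by
    intro w
    rw [SoundA_or, SoundA_and, f.pt_L w, hI.h1 w, hI.h2 w, SoundA_cn_insert w Q _ hQ]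
    split_ifs with h
    · simp only [h, true_and]
      omega
    · simp [h]
  h3 := by
    intro w
    rw [SoundA_or, SoundA_and, f.pt_L w, hI.h2 w, hI.h3 w, SoundA_cn_insert w Q _ hQ]
    split_ifs with h
    · simp only [h, true_and]
      omega
    · simp [h]

/-- no answer completes a line -/
private theorem SoundA_hD {P Q : Finset (Pt k)} (hdis : Disjoint P Q)
    (hg : ∀ w : Fin k → Fin 6, Act w → (∃ x ∈ P, On x w) ∨ cn w Q ≤ 2) :
    ∀ r, r ∉ P → r ∉ Q → ∀ e, IsLn e → ¬ e ⊆ insert r Q := by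
  intro r hrP hrQ e he hs
  obtain ⟨w, hw, hew⟩ := (isLn_iff e).1 he
  have hcard : e.card = 4 := by
    rw [← card_on w hw]
    congr 1
    ext x
    simp [hew x]
  rcases hg w hw with ⟨x, hxP, hxw⟩ | h
  · have hx := hs ((hew x).2 hxw)
    rcases Finset.mem_insert.1 hx with rfl | hxQ
    · exact hrP hxP
    · exact (Finset.disjoint_left.1 hdis hxP) hxQ
  · have h1 : e.erase r ⊆ Q.filter fun x => On x w := by
      intro x hx
      rw [Finset.mem_erase] at hx
      rw [Finset.mem_filter]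
      refine ⟨?_, (hew x).1 hx.2⟩
      rcases Finset.mem_insert.1 (hs hx.2) with h2 | h2
      · exact absurd h2 hx.1
      · exact h2
    have h2 := Finset.card_le_card h1
    have h3 : e.card - 1 ≤ (e.erase r).card := Finset.pred_card_le_card_erase
    have h4 : (Q.filter fun x => On x w).card ≤ 2 := h
    omega

/-- the state of the check, defender to move -/
private structure SoundA_St (P Q : Finset (Pt k)) (h : Bool) (R F Lb Lz : ℕ) : Prop where
  g3 : ∀ w : Fin k → Fin 6, Act w → (∃ x ∈ P, On x w) ∨ cn w Q ≤ 2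
  hh : h = true → Vcf P Q
  hR : ∀ r, r ∉ P → r ∉ Q → R.testBit (encP r) = true ∨ TA P (insert r Q)
  hF : ∀ w : Fin k → Fin 6, Act w → (∃ x ∈ P, On x w) ∨ cn w Q ≤ 1 ∨
    ∀ x, On x w → F.testBit (encP x) = true
  hL : ∀ w : Fin k → Fin 6, Lb.testBit (encW w) = true → ∀ x, On x w →
    Lz.testBit (encP x) = true

private theorem SoundA_disU {P Q U : Finset (Pt k)} {p q u : ℕ} (hp : MP p P) (hq : MP q Q)
    (hu : MP u U) (h : Nat.beq (Nat.land u (Nat.lor p q)) 0 = true) : Disjoint U (P ∪ Q) := by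
  rw [Finset.disjoint_left]
  intro x hxU hx
  refine SoundA_dis h (encP x) ((SoundA_mp hu x).2 hxU) ((SoundA_or _ _ _).2 ?_)
  rcases Finset.mem_union.1 hx with h1 | h1
  · exact Or.inl ((SoundA_mp hp x).2 h1)
  · exact Or.inr ((SoundA_mp hq x).2 h1)

private theorem SoundA_subB {P B : Finset (Pt k)} {p b : ℕ} (hp : MP p P) (hb : MP b B)
    (h : Nat.beq (Nat.lor b p) p = true) : B ⊆ P := by
  intro x hx
  exact (SoundA_mp hp x).1 (SoundA_sub h _ ((SoundA_mp hb x).2 hx))

/-- the template is valid -/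
private theorem SoundA_V (t : VT k) {P Q : Finset (Pt k)} {p q lp g1 g2 g3 : ℕ}
    (hI : Inv P Q p q lp g1 g2 g3)
    (hg : ∀ w : Fin k → Fin 6, Act w → (∃ x ∈ P, On x w) ∨ cn w Q ≤ 2)
    (hb : Nat.beq (Nat.lor t.base p) p = true)
    (hU : Nat.beq (Nat.land t.U (Nat.lor p q)) 0 = true)
    (h12 : ∀ n, (Nat.lor (Nat.land t.G1 g2) (Nat.land t.G2 g1)).testBit n = true →
      lp.testBit n = true) : Vcf P Q := by
  obtain ⟨B, U, Z, F, hB, hUm, hZ, hG1, hG2, hF2, hUZ, hFZ, hV⟩ := vt_spec t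
  refine hV P Q hI.dis (SoundA_subB hI.hp hB hb) (SoundA_disU hI.hp hI.hq hUm hU) ?_
  intro w hw
  by_cases ho : ∃ x ∈ P, On x w
  · exact Or.inl ho
  right
  have hQ2 : cn w Q ≤ 2 := by
    rcases hg w hw with h | h
    · exact absurd h ho
    · exact h
  have hFw := hF2 w hw
  have hlp : ¬ lp.testBit (encW w) = true := fun h => ho ((hI.hlp w).1 h)
  have hA : ¬ (1 ≤ cn w F ∧ 2 ≤ cn w Q) := by
    rintro ⟨h1, h2⟩
    apply hlp
    apply h12
    rw [SoundA_or, SoundA_and]
    exact Or.inl ⟨(hG1 w).2 h1, (hI.h2 w).2 h2⟩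
  have hB : ¬ (2 ≤ cn w F ∧ 1 ≤ cn w Q) := by
    rintro ⟨h1, h2⟩
    apply hlp
    apply h12
    rw [SoundA_or, SoundA_and, SoundA_and]
    exact Or.inr ⟨(hG2 w).2 h1, (hI.h1 w).2 h2⟩
  omega

private theorem SoundA_g3 {P Q : Finset (Pt k)} {p q lp g1 g2 g3 : ℕ}
    (hI : Inv P Q p q lp g1 g2 g3)
    (h : ∀ n, g3.testBit n = true → lp.testBit n = true) :
    ∀ w : Fin k → Fin 6, Act w → (∃ x ∈ P, On x w) ∨ cn w Q ≤ 2 := by
  intro w _
  by_cases h3 : 3 ≤ cn w Q
  · exact Or.inl ((hI.hlp w).1 (h _ ((hI.h3 w).2 h3)))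
  · right
    omega

/-- step `V` -/
private theorem SoundA_stpV (t : VT k) {P Q : Finset (Pt k)} {p q lp g1 g2 g3 : ℕ}
    (hI : Inv P Q p q lp g1 g2 g3) (h : stpV t p q lp g1 g2 g3 = true) : TA P Q := by
  unfold stpV at h
  obtain ⟨hb, h⟩ := SoundA_cond h
  obtain ⟨hU, h⟩ := SoundA_cond h
  have hs := SoundA_sub h
  refine TA.vcf P Q (SoundA_V t hI (SoundA_g3 hI ?_) hb hU ?_)
  · intro n hn
    apply hs
    rw [SoundA_or]
    exact Or.inl hn
  · intro n hn
    apply hs
    rw [SoundA_or]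
    exact Or.inr hn

/-- new cell is free -/
private theorem SoundA_free {P Q : Finset (Pt k)} {p q : ℕ} (hp : MP p P) (hq : MP q Q)
    (m : Cl k) (h : Nat.beq (Nat.land m.b (Nat.lor p q)) 0 = true) : m.pt ∉ P ∧ m.pt ∉ Q := by
  have hb : m.b.testBit (encP m.pt) = true := (m.pt_b _).2 rfl
  constructor
  · intro hx
    exact SoundA_dis h _ hb ((SoundA_or _ _ _).2 (Or.inl ((SoundA_mp hp _).2 hx)))
  · intro hx
    exact SoundA_dis h _ hb ((SoundA_or _ _ _).2 (Or.inr ((SoundA_mp hq _).2 hx)))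

/-- step `Fr` -/
private theorem SoundA_stpFr (m f : Cl k) (l : Ln k)
    (ih : ℕ → ℕ → ℕ → ℕ → ℕ → ℕ → Bool)
    (hih : ∀ (P Q : Finset (Pt k)) (p q lp g1 g2 g3 : ℕ), Inv P Q p q lp g1 g2 g3 →
      ih p q lp g1 g2 g3 = true → TA P Q)
    {P Q : Finset (Pt k)} {p q lp g1 g2 g3 : ℕ}
    (hI : Inv P Q p q lp g1 g2 g3) (h : stpFr m f l ih p q lp g1 g2 g3 = true) : TA P Q := by
  unfold stpFr at h
  obtain ⟨hm, h⟩ := SoundA_cond h
  obtain ⟨hf, h⟩ := SoundA_cond h
  obtain ⟨hl, h⟩ := SoundA_cond h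
  obtain ⟨hg, h⟩ := SoundA_cond h
  obtain ⟨hmP, hmQ⟩ := SoundA_free hI.hp hI.hq m hm
  have hI1 := SoundA_insP hI m hmQ
  have hf' : f.pt ∉ insert m.pt P ∧ f.pt ∉ Q := by
    apply SoundA_free hI1.hp hI1.hq f
    have e : Nat.lor (Nat.lor m.b p) q = Nat.lor m.b (Nat.lor p q) := Nat.or_assoc m.b p q
    rw [e]
    exact hf
  have hI2 := SoundA_insQ hI1 f hf'.1 hf'.2
  obtain ⟨w, hw, _, hlm, _⟩ := l.spec
  have hwL : ∀ x, x ∈ (Finset.univ.filter fun x : Pt k => On x w) ↔ On x w := by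
    intro x
    simp
  refine TA.frc P Q m.pt f.pt (Finset.univ.filter fun x : Pt k => On x w) hmP hmQ hf'.1 hf'.2
    ((isLn_iff _).2 ⟨w, hw, hwL⟩) ?_ ?_ (hih _ _ _ _ _ _ _ _ hI2 h)
  · intro x hx
    have hx2 := (hlm x).2 ((hwL x).1 hx)
    have hx3 := SoundA_sub hl _ hx2
    rw [SoundA_or] at hx3
    rcases hx3 with h3 | h3
    · rw [f.pt_b] at h3
      rw [encP_inj h3]
      exact Finset.mem_insert_self _ _
    · exact Finset.mem_insert_of_mem ((SoundA_mp hI1.hp x).1 h3)
  · exact SoundA_hD hI1.dis (SoundA_g3 hI1 (SoundA_sub hg))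

/-- step `M` -/
private theorem SoundA_stpM (m : Cl k)
    (ih : Bool → ℕ → ℕ → ℕ → ℕ → ℕ → ℕ → ℕ → ℕ → ℕ → ℕ → Bool)
    (hih : ∀ (P Q : Finset (Pt k)) (h : Bool) (R F Lb Lz p q lp g1 g2 g3 : ℕ),
      Inv P Q p q lp g1 g2 g3 → SoundA_St P Q h R F Lb Lz →
      ih h R F Lb Lz p q lp g1 g2 g3 = true →
      Vcf P Q ∧ ∀ r, r ∉ P → r ∉ Q → TA P (insert r Q))
    {P Q : Finset (Pt k)} {p q lp g1 g2 g3 : ℕ}
    (hI : Inv P Q p q lp g1 g2 g3) (h : stpM (fullMask k) m ih p q lp g1 g2 g3 = true) :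
    TA P Q := by
  unfold stpM at h
  obtain ⟨hm, h⟩ := SoundA_cond h
  obtain ⟨hg, h⟩ := SoundA_cond h
  obtain ⟨hmP, hmQ⟩ := SoundA_free hI.hp hI.hq m hm
  have hI1 := SoundA_insP hI m hmQ
  have hg3 := SoundA_g3 hI1 (SoundA_sub hg)
  have hfull : ∀ x : Pt k, (fullMask k).testBit (encP x) = true := by
    intro x
    unfold fullMask
    rw [Nat.testBit_two_pow_sub_one]
    simpa using encP_lt x
  obtain ⟨hV, hA⟩ := hih _ _ _ _ _ _ _ _ _ _ _ _ _ hI1 (by
    refine ⟨hg3, fun h => by simp at h, ?_, ?_, ?_⟩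
    · intro r hrP hrQ
      left
      rw [SoundA_xor]
      left
      refine ⟨hfull r, ?_⟩
      rw [SoundA_or, SoundA_mp hI1.hp, SoundA_mp hI1.hq]
      rintro (h1 | h1)
      · exact hrP h1
      · exact hrQ h1
    · intro w _
      right
      right
      intro x _
      exact hfull x
    · intro w hw
      simp at hw) h
  exact TA.mv P Q m.pt hmP hmQ (SoundA_hD hI1.dis hg3) hV hA

/-- step `T` -/
private theorem SoundA_stpT (t : VT k)
    (ih : Bool → ℕ → ℕ → ℕ → ℕ → ℕ → ℕ → ℕ → ℕ → ℕ → ℕ → Bool)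
    (hih : ∀ (P Q : Finset (Pt k)) (h : Bool) (R F Lb Lz p q lp g1 g2 g3 : ℕ),
      Inv P Q p q lp g1 g2 g3 → SoundA_St P Q h R F Lb Lz →
      ih h R F Lb Lz p q lp g1 g2 g3 = true →
      Vcf P Q ∧ ∀ r, r ∉ P → r ∉ Q → TA P (insert r Q))
    {P Q : Finset (Pt k)} {hb : Bool} {R F Lb Lz p q lp g1 g2 g3 : ℕ}
    (hI : Inv P Q p q lp g1 g2 g3) (hS : SoundA_St P Q hb R F Lb Lz)
    (h : stpT t ih hb R F Lb Lz p q lp g1 g2 g3 = true) :
    Vcf P Q ∧ ∀ r, r ∉ P → r ∉ Q → TA P (insert r Q) := by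
  unfold stpT at h
  obtain ⟨hb, h⟩ := SoundA_cond h
  obtain ⟨hU, h⟩ := SoundA_cond h
  obtain ⟨h12, h⟩ := SoundA_cond h
  obtain ⟨h11, h⟩ := SoundA_cond h
  have hV : Vcf P Q := SoundA_V t hI hS.g3 hb hU (SoundA_sub h12)
  refine hih P Q _ _ _ _ _ _ _ _ _ _ _ hI ?_ h
  refine ⟨hS.g3, fun _ => hV, ?_, hS.hF, ?_⟩
  · intro r hrP hrQ
    rcases hS.hR r hrP hrQ with hR | hR
    · by_cases hz : (Nat.lor Lz (Nat.lor t.Z0 F)).testBit (encP r) = true
      · left
        rw [SoundA_and]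
        exact ⟨hR, hz⟩
      right
      rw [SoundA_or, SoundA_or] at hz
      push Not at hz
      obtain ⟨hzL, hzZ, hzF⟩ := hz
      apply TA.vcf
      obtain ⟨B, U, Z, F', hB, hUm, hZ, hG1, hG2, hF2, hUZ, hFZ, hV'⟩ := vt_spec t
      have hBP := SoundA_subB hI.hp hB hb
      have hUd := SoundA_disU hI.hp hI.hq hUm hU
      have hrZ : r ∉ Z := fun hr => hzZ ((SoundA_mp hZ r).2 hr)
      refine hV' P (insert r Q) ?_ hBP ?_ ?_
      · rw [Finset.disjoint_insert_right]
        exact ⟨hrP, hI.dis⟩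
      · rw [Finset.disjoint_left]
        intro x hxU hx
        rw [Finset.mem_union, Finset.mem_insert] at hx
        rcases hx with hx | rfl | hx
        · exact Finset.disjoint_left.1 hUd hxU (Finset.mem_union_left _ hx)
        · exact hrZ (hUZ hxU)
        · exact Finset.disjoint_left.1 hUd hxU (Finset.mem_union_right _ hx)
      · intro w hw
        by_cases ho : ∃ x ∈ P, On x w
        · exact Or.inl ho
        right
        have hQ2 : cn w Q ≤ 2 := by
          rcases hS.g3 w hw with h | h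
          · exact absurd h ho
          · exact h
        have hFw := hF2 w hw
        have hlp : ¬ lp.testBit (encW w) = true := fun h => ho ((hI.hlp w).1 h)
        have hA : ¬ (1 ≤ cn w F' ∧ 2 ≤ cn w Q) := by
          rintro ⟨h1, h2⟩
          apply hlp
          apply SoundA_sub h12
          rw [SoundA_or, SoundA_and]
          exact Or.inl ⟨(hG1 w).2 h1, (hI.h2 w).2 h2⟩
        have hB' : ¬ (2 ≤ cn w F' ∧ 1 ≤ cn w Q) := by
          rintro ⟨h1, h2⟩
          apply hlp
          apply SoundA_sub h12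
          rw [SoundA_or, SoundA_and, SoundA_and]
          exact Or.inr ⟨(hG2 w).2 h1, (hI.h1 w).2 h2⟩
        rw [SoundA_cn_insert w Q r hrQ]
        split_ifs with hrw
        · have c1 : ¬ 2 ≤ cn w Q := by
            intro h2
            rcases hS.hF w hw with h3 | h3 | h3
            · exact ho h3
            · omega
            · exact hzF (h3 r hrw)
          have c2 : ¬ (1 ≤ cn w F' ∧ 1 ≤ cn w Q) := by
            rintro ⟨h1, h2⟩
            have h3 := SoundA_sub h11 (encW w) ((SoundA_and _ _ _).2 ⟨(hG1 w).2 h1, (hI.h1 w).2 h2⟩)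
            rw [SoundA_or] at h3
            rcases h3 with h3 | h3
            · exact hzL (hS.hL w h3 r hrw)
            · exact hlp h3
          have c3 : ¬ 2 ≤ cn w F' := by
            intro h2
            rcases hFZ w hw h2 with ⟨x, hx, hxw⟩ | h3
            · exact ho ⟨x, hBP hx, hxw⟩
            · exact hrZ (h3 r hrw)
          omega
        · omega
    · exact Or.inr hR
  · intro w hw
    simp at hw

/-- both checks are sound -/
private theorem SoundA_main : (∀ (a : AC k) (P Q : Finset (Pt k)) (p q lp g1 g2 g3 : ℕ),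
      Inv P Q p q lp g1 g2 g3 → chkA (fullMask k) a p q lp g1 g2 g3 = true → TA P Q) := by
  intro a
  refine AC.rec (k := k) (motive_1 := fun a => ∀ (P Q : Finset (Pt k)) (p q lp g1 g2 g3 : ℕ),
      Inv P Q p q lp g1 g2 g3 → chkA (fullMask k) a p q lp g1 g2 g3 = true → TA P Q)
    (motive_2 := fun c => ∀ (P Q : Finset (Pt k)) (h : Bool) (R F Lb Lz p q lp g1 g2 g3 : ℕ),
      Inv P Q p q lp g1 g2 g3 → SoundA_St P Q h R F Lb Lz →
      chkD (fullMask k) c h R F Lb Lz p q lp g1 g2 g3 = true →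
      Vcf P Q ∧ ∀ r, r ∉ P → r ∉ Q → TA P (insert r Q)) ?_ ?_ ?_ ?_ ?_ ?_ ?_ ?_ a
  · intro t P Q p q lp g1 g2 g3 hI h
    exact SoundA_stpV t hI h
  · intro m f l c ih P Q p q lp g1 g2 g3 hI h
    exact SoundA_stpFr m f l (chkA (fullMask k) c) ih hI h
  · intro m c ih P Q p q lp g1 g2 g3 hI h
    exact SoundA_stpM m (chkD (fullMask k) c) ih hI h
  · intro P Q h R F Lb Lz p q lp g1 g2 g3 hI hS hc
    have hc' : cond h (Nat.beq R 0) false = true := hc
    obtain ⟨h1, h2⟩ := SoundA_cond hc'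
    refine ⟨hS.hh h1, ?_⟩
    intro r hrP hrQ
    rcases hS.hR r hrP hrQ with h3 | h3
    · rw [Nat.eq_of_beq_eq_true h2] at h3
      simp at h3
    · exact h3
  · intro l c ih P Q h R F Lb Lz p q lp g1 g2 g3 hI hS hc
    have hc' : chkD (fullMask k) c h R F (Nat.lor l.b Lb) (Nat.lor l.m Lz) p q lp g1 g2 g3 = true :=
      hc
    refine ih P Q _ _ _ _ _ _ _ _ _ _ _ hI ⟨hS.g3, hS.hh, hS.hR, hS.hF, ?_⟩ hc'
    obtain ⟨w, hw, hlb, hlm, _⟩ := l.spec
    intro w' hw' x hx
    rw [SoundA_or] at hw' ⊢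
    rcases hw' with h1 | h1
    · left
      rcases (hlb _).1 h1 with h2 | h2
      · rw [encW_inj h2] at hx
        exact (hlm x).2 hx
      · rw [encW_inj h2] at hx
        exact (hlm x).2 ((on_revW x w).1 hx)
    · right
      exact hS.hL w' h1 x hx
  · intro c ih P Q h R F Lb Lz p q lp g1 g2 g3 hI hS hc
    have hc' : cond (Nat.beq (Nat.lor g2 (Nat.lor Lb lp)) (Nat.lor Lb lp))
        (chkD (fullMask k) c h R Lz Lb Lz p q lp g1 g2 g3) false = true := hc
    obtain ⟨h1, h2⟩ := SoundA_cond hc'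
    refine ih P Q _ _ _ _ _ _ _ _ _ _ _ hI ⟨hS.g3, hS.hh, hS.hR, ?_, hS.hL⟩ h2
    intro w _
    by_cases h3 : 2 ≤ cn w Q
    · have h4 := SoundA_sub h1 _ ((hI.h2 w).2 h3)
      rw [SoundA_or] at h4
      rcases h4 with h4 | h4
      · right
        right
        exact hS.hL w h4
      · left
        exact (hI.hlp w).1 h4
    · right
      left
      omega
  · intro t c ih P Q h R F Lb Lz p q lp g1 g2 g3 hI hS hc
    exact SoundA_stpT t (chkD (fullMask k) c) ih hI hS hc
  · intro r a c iha ihc P Q h R F Lb Lz p q lp g1 g2 g3 hI hS hc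
    have hc' : cond (chkA (fullMask k) a p (Nat.lor r.b q) lp (Nat.lor r.L g1)
          (Nat.lor (Nat.land r.L g1) g2) (Nat.lor (Nat.land r.L g2) g3))
        (chkD (fullMask k) c h (Nat.xor R (Nat.land R r.b)) F Lb Lz p q lp g1 g2 g3) false = true :=
      hc
    obtain ⟨h1, h2⟩ := SoundA_cond hc'
    refine ihc P Q _ _ _ _ _ _ _ _ _ _ _ hI ⟨hS.g3, hS.hh, ?_, hS.hF, hS.hL⟩ h2
    intro x hxP hxQ
    rcases hS.hR x hxP hxQ with h3 | h3
    · by_cases hx : x = r.pt
      · right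
        subst hx
        exact iha _ _ _ _ _ _ _ _ (SoundA_insQ hI r hxP hxQ) h1
      · left
        rw [SoundA_xor]
        left
        refine ⟨h3, ?_⟩
        rw [SoundA_and, r.pt_b]
        rintro ⟨_, h4⟩
        exact hx (encP_inj h4)
    · exact Or.inr h3

theorem chkA_sound (a : AC k) (P Q : Finset (Pt k)) (p q lp g1 g2 g3 : ℕ)
    (hI : Inv P Q p q lp g1 g2 g3) (h : chkA (fullMask k) a p q lp g1 g2 g3 = true) : TA P Q :=
  SoundA_main a P Q p q lp g1 g2 g3 hI h

/-- The set of the cells with codes in a list. -/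
noncomputable def cellsOf (k : ℕ) (L : List ℕ) : Finset (Pt k) :=
  Finset.univ.filter fun x => encP x ∈ L

private theorem SoundA_mem_cells (L : List ℕ) (x : Pt k) : x ∈ cellsOf k L ↔ encP x ∈ L := by
  simp [cellsOf]

private theorem SoundA_mem_codes (L : List (Cl k)) (n : ℕ) :
    n ∈ codes L ↔ ∃ c ∈ L, n = encP c.pt := by
  induction L with
  | nil => simp [codes]
  | cons c cs ih =>
    rw [codes, List.mem_cons, ih, Cl.pt_c]
    simp

private theorem SoundA_cells_cons (c : Cl k) (cs : List (Cl k)) :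
    cellsOf k (codes (c :: cs)) = insert c.pt (cellsOf k (codes cs)) := by
  ext x
  rw [SoundA_mem_cells, Finset.mem_insert, SoundA_mem_cells, codes, List.mem_cons, Cl.pt_c]
  constructor
  · rintro (h | h)
    · exact Or.inl (encP_inj h)
    · exact Or.inr h
  · rintro (h | h)
    · exact Or.inl (by rw [h])
    · exact Or.inr h

private theorem SoundA_orB (L : List (Cl k)) : MP (orB L) (cellsOf k (codes L)) := by
  induction L with
  | nil =>
    intro n
    simp [orB, codes, cellsOf]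
  | cons c cs ih =>
    intro n
    rw [SoundA_cells_cons, orB, SoundA_or, ih n, c.pt_b]
    simp

private theorem SoundA_orL (L : List (Cl k)) (w : Fin k → Fin 6) :
    (orL L).testBit (encW w) = true ↔ ∃ x ∈ cellsOf k (codes L), On x w := by
  induction L with
  | nil => simp [orL, codes, cellsOf]
  | cons c cs ih =>
    rw [SoundA_cells_cons, orL, SoundA_or, ih, c.pt_L]
    simp

private theorem SoundA_cnt (L : List (Cl k)) (h : (codes L).Nodup) :
    MG 1 (cnt1 L) (cellsOf k (codes L)) ∧ MG 2 (cnt2 L) (cellsOf k (codes L)) ∧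
      MG 3 (cnt3 L) (cellsOf k (codes L)) := by
  induction L with
  | nil =>
    refine ⟨?_, ?_, ?_⟩ <;> intro w <;> simp [cnt1, cnt2, cnt3, codes, cellsOf, cn]
  | cons c cs ih =>
    rw [codes, List.nodup_cons] at h
    obtain ⟨i1, i2, i3⟩ := ih h.2
    have hc : c.pt ∉ cellsOf k (codes cs) := by
      rw [SoundA_mem_cells, ← Cl.pt_c]
      exact h.1
    refine ⟨?_, ?_, ?_⟩
    · intro w
      rw [SoundA_cells_cons, cnt1, SoundA_or, c.pt_L, i1 w, SoundA_cn_insert w _ _ hc]
      split_ifs with h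
      · simp [h]
      · simp [h]
    · intro w
      rw [SoundA_cells_cons, cnt2, SoundA_or, SoundA_and, c.pt_L, i1 w, i2 w,
        SoundA_cn_insert w _ _ hc]
      split_ifs with h
      · simp only [h, true_and]
        omega
      · simp [h]
    · intro w
      rw [SoundA_cells_cons, cnt3, SoundA_or, SoundA_and, c.pt_L, i2 w, i3 w,
        SoundA_cn_insert w _ _ hc]
      split_ifs with h
      · simp only [h, true_and]
        omega
      · simp [h]

theorem ent_sound (e : Ent k) (h : e.chk (fullMask k) = true) (hQ : (codes e.Q).Nodup) :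
    TA (cellsOf k (codes e.P)) (cellsOf k (codes e.Q)) ∧
      Disjoint (cellsOf k (codes e.P)) (cellsOf k (codes e.Q)) := by
  unfold Ent.chk at h
  rw [Bool.and_eq_true] at h
  obtain ⟨h1, h2⟩ := h
  have hd : Disjoint (cellsOf k (codes e.P)) (cellsOf k (codes e.Q)) := by
    rw [Finset.disjoint_left]
    intro x hxP hxQ
    exact SoundA_dis h1 (encP x) ((SoundA_mp (SoundA_orB e.P) x).2 hxP)
      ((SoundA_mp (SoundA_orB e.Q) x).2 hxQ)
  obtain ⟨i1, i2, i3⟩ := SoundA_cnt e.Q hQ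
  exact ⟨chkA_sound e.a _ _ _ _ _ _ _ _
    ⟨hd, SoundA_orB e.P, SoundA_orB e.Q, SoundA_orL e.P, i1, i2, i3⟩ h2, hd⟩

private theorem SoundA_eqL : ∀ (a b : List ℕ), eqL a b = true → a = b
  | [], [], _ => rfl
  | [], _ :: _, h => by simp [eqL] at h
  | _ :: _, [], h => by simp [eqL] at h
  | a :: as, b :: bs, h => by
    rw [eqL, Bool.and_eq_true] at h
    rw [Nat.eq_of_beq_eq_true h.1, SoundA_eqL as bs h.2]

private theorem SoundA_blk (P Q : List ℕ) (c : ℕ) : ∀ (L : List (Ent k)) (keys : List ℕ),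
    chkE (fullMask k) L = true → keysOk P Q L keys = true → memL c keys = true →
      ∃ e : Ent k, e.chk (fullMask k) = true ∧ codes e.P = P ∧ codes e.Q = Q ++ [c]
  | [], [], _, _, h => by simp [memL] at h
  | [], _ :: _, _, h, _ => by simp [keysOk] at h
  | _ :: _, [], _, h, _ => by simp [keysOk] at h
  | e :: es, a :: as, h1, h2, h3 => by
    rw [chkE, Bool.and_eq_true] at h1
    rw [keysOk, Bool.and_eq_true, Bool.and_eq_true] at h2
    rw [memL] at h3
    by_cases hc : Nat.beq c a = true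
    · rw [← Nat.eq_of_beq_eq_true hc] at h2
      exact ⟨e, h1.1, SoundA_eqL _ _ h2.1.1, SoundA_eqL _ _ h2.1.2⟩
    · have hc' : Nat.beq c a = false := Bool.eq_false_of_not_eq_true hc
      rw [hc'] at h3
      exact SoundA_blk P Q c es as h1.2 h2.2 h3

/-- All positions of a block are won. (The codes of the last stones are in `keys`.) -/
theorem Blk.sound (b : Blk k) (c : ℕ) (hc : memL c b.keys = true) (hQ : (b.Q ++ [c]).Nodup) :
    TA (cellsOf k b.P) (cellsOf k (b.Q ++ [c])) ∧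
      Disjoint (cellsOf k b.P) (cellsOf k (b.Q ++ [c])) := by
  obtain ⟨e, he, hP, hQ'⟩ := SoundA_blk b.P b.Q c b.L b.keys b.chk b.hk hc
  have h := ent_sound e he (by rw [hQ']; exact hQ)
  rw [hP, hQ'] at h
  exact h

end Pool.Agent.Lib_TTT
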