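import Pool.Agent.Lib_TTT.CovChk
import Pool.Agent.Lib_TTT.SoundA
import Pool.Agent.Lib_TTT.Asm

/-!
Tools for reading off won positions from the tables.
-/

set_option autoImplicit false

namespace Pool.Agent.Lib_TTT

variable {k : ℕ}

theorem allN_spec {n : ℕ} {f : ℕ → Bool} (h : allN n f = true) : ∀ i, i < n → f i = true := by
  induction n with
  | zero => intro i hi; omega
  | succ n ih =>
    simp only [allN, Bool.and_eq_true] at h
    intro i hi
    rcases Nat.lt_succ_iff_lt_or_eq.1 hi with h' | h'
    · exact ih h.2 i h'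
    · rw [h']; exact h.1

theorem allN_fin {f : ℕ → Bool} (h : allN 4 f = true) (a : Fin 4) : f a = true :=
  allN_spec h a a.isLt

theorem eqL_eq : ∀ {a b : List ℕ}, eqL a b = true → a = b
  | [], [], _ => rfl
  | [], _ :: _, h => by simp [eqL] at h
  | _ :: _, [], h => by simp [eqL] at h
  | a :: as, b :: bs, h => by
    simp only [eqL, Bool.and_eq_true] at h
    rw [Nat.eq_of_beq_eq_true h.1, eqL_eq h.2]

theorem memL_iff (n : ℕ) : ∀ L : List ℕ, memL n L = true ↔ n ∈ L
  | [] => by simp [memL]
  | a :: as => by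
    have ih := memL_iff n as
    unfold memL
    cases h : Nat.beq n a with
    | true => simp [Nat.eq_of_beq_eq_true h]
    | false =>
      have hne : n ≠ a := Nat.ne_of_beq_eq_false h
      simp [ih, hne]

theorem bitB_iff (m c : ℕ) : bitB m c = true ↔ m.testBit c = true := by
  unfold bitB Nat.testBit
  have h2 : Nat.land (Nat.shiftRight m c) 1 = 1 &&& (m >>> c) := by
    rw [Nat.land_comm]; rfl
  rw [h2]
  have h3 : 1 &&& (m >>> c) = (m >>> c) % 2 := by
    rw [Nat.land_comm]; exact Nat.and_one_is_mod _
  rw [h3]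
  rcases Nat.mod_two_eq_zero_or_one (m >>> c) with h | h <;> simp [h]

theorem testBit_kmask (c : ℕ) : ∀ L : List ℕ, (kmask L).testBit c = true → c ∈ L
  | [] => by simp [kmask]
  | a :: as => by
    intro h
    have h' : ((1 <<< a) ||| kmask as).testBit c = true := h
    rw [Nat.testBit_or, Bool.or_eq_true] at h'
    rcases h' with h' | h'
    · rw [Nat.one_shiftLeft, Nat.testBit_two_pow] at h'
      have := of_decide_eq_true h'
      simp [this]
    · exact List.mem_cons_of_mem _ (testBit_kmask c as h')

theorem ndOk_spec (m c : ℕ) (hc : m.testBit c = true) :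
    ∀ Q : List ℕ, ndOk Q m = true → (Q ++ [c]).Nodup
  | [] => by simp
  | q :: qs => by
    intro h
    simp only [ndOk, Bool.and_eq_true, Bool.not_eq_true'] at h
    have ih := ndOk_spec m c hc qs h.2
    rw [List.cons_append, List.nodup_cons]
    refine ⟨?_, ih⟩
    intro hmem
    rw [List.mem_append, List.mem_singleton] at hmem
    rcases hmem with h1 | h1
    · have := (memL_iff q qs).2 h1
      rw [h.1.2] at this
      exact absurd this (by simp)
    · have h2 := h.1.1
      rw [h1] at h2
      have h3 := (bitB_iff m c).2 hc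
      rw [h2] at h3
      exact absurd h3 (by simp)

/-- Positions found in a table are won. -/
theorem look_sound {P Q : List ℕ} {c : ℕ} : ∀ (bs : List (Blk k)) (T : List Row),
    tabOk bs T = true → look T P Q c = true → Won (cellsOf k P) (cellsOf k (Q ++ [c]))
  | [], [] => by simp [look]
  | [], _ :: _ => by simp [tabOk]
  | _ :: _, [] => by simp [tabOk]
  | b :: bs, r :: rs => by
    intro hT h
    simp only [tabOk, Bool.and_eq_true] at hT
    have ih := look_sound (P := P) (Q := Q) (c := c) bs rs hT.2
    unfold look at h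
    cases hP : eqL r.1 P with
    | false => rw [hP] at h; exact ih h
    | true =>
      rw [hP] at h
      cases hQ : eqL r.2.1 Q with
      | false => rw [hQ] at h; exact ih h
      | true =>
        rw [hQ] at h
        have h : bitB r.2.2 c = true := h
        have hb := hT.1
        simp only [rowOk, Bool.and_eq_true] at hb
        have hc := (bitB_iff _ _).1 h
        have e1 := eqL_eq hb.1.1.1
        have e2 := eqL_eq hb.1.1.2
        have e3 := Nat.eq_of_beq_eq_true hb.1.2
        have eP := eqL_eq hP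
        have eQ := eqL_eq hQ
        have hnd := ndOk_spec _ _ hc _ hb.2
        have hmem : memL c b.keys = true := by
          rw [memL_iff]
          apply testBit_kmask
          rw [e3]; exact hc
        have hs := b.sound c hmem (by rw [e2]; exact hnd)
        rw [e1, e2, eP, eQ] at hs
        exact hs

theorem cellsOf_nil : cellsOf k [] = ∅ := by
  simp [cellsOf]

theorem cellsOf_cons (v : Pt k) (L : List ℕ) :
    cellsOf k (encP v :: L) = insert v (cellsOf k L) := by
  ext x
  simp [cellsOf, encP_inj.eq_iff]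

theorem cellsOf_cons' {n : ℕ} {v : Pt k} (h : n = encP v) (L : List ℕ) :
    cellsOf k (n :: L) = insert v (cellsOf k L) := by
  rw [h, cellsOf_cons]

theorem encP3 (a b c : Fin 4) : encP (![a, b, c] : Pt 3) = enc3 a b c := by
  simp [encP, encC, enc3, List.ofFn_succ]
  ring

theorem encP4 (a b c d : Fin 4) : encP (![a, b, c, d] : Pt 4) = enc4 a b c d := by
  simp [encP, encC, enc4, List.ofFn_succ]
  ring

theorem encP5 (a b c d e : Fin 4) : encP (![a, b, c, d, e] : Pt 5) = enc5 a b c d e := by
  simp [encP, encC, enc5, List.ofFn_succ]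
  ring

theorem V2_3 (u c : Fin 4) : (V2 0 u c : Pt 3) = ![u, c, c] := by
  funext i; fin_cases i <;> rfl
theorem V2_4 (u c : Fin 4) : (V2 0 u c : Pt 4) = ![u, c, c, c] := by
  funext i; fin_cases i <;> rfl
theorem V2_5 (u c : Fin 4) : (V2 0 u c : Pt 5) = ![u, c, c, c, c] := by
  funext i; fin_cases i <;> rfl
theorem V3_4 (u v c : Fin 4) : (V3 0 1 u v c : Pt 4) = ![u, v, c, c] := by
  funext i; fin_cases i <;> rfl
theorem V3_5 (u v c : Fin 4) : (V3 0 1 u v c : Pt 5) = ![u, v, c, c, c] := by
  funext i; fin_cases i <;> rfl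
theorem eta3 (q : Pt 3) : q = ![q 0, q 1, q 2] := by
  funext i; fin_cases i <;> rfl
theorem eta4 (q : Pt 4) : q = ![q 0, q 1, q 2, q 3] := by
  funext i; fin_cases i <;> rfl
theorem eta5 (q : Pt 5) : q = ![q 0, q 1, q 2, q 3, q 4] := by
  funext i; fin_cases i <;> rfl

theorem Won.map {φ : Pt k ≃ Pt k} (h : LineMap φ) {P Q : Finset (Pt k)} (hW : Won P Q) :
    Won (P.image φ) (Q.image φ) :=
  ⟨hW.1.map h, (Finset.disjoint_image φ.injective).2 hW.2⟩

theorem Won.back {φ : Pt k ≃ Pt k} (h : LineMap φ) {P Q : Finset (Pt k)}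
    (hW : Won (P.image φ) (Q.image φ)) : Won P Q := by
  have := hW.map h.symm
  simpa [Finset.image_image] using this

theorem perm_V2 [NeZero k] (π : Equiv.Perm (Fin k)) (h0 : π 0 = 0) (u c : Fin 4) :
    permPt π (V2 0 u c) = V2 0 u c := by
  rw [permPt_apply]
  funext i
  have : π i = 0 ↔ i = 0 := by
    constructor
    · intro h; exact π.injective (h.trans h0.symm)
    · intro h; rw [h, h0]
  simp [V2, this]

theorem perm_pL [NeZero k] (π : Equiv.Perm (Fin k)) (h0 : π 0 = 0) (q : Pt k) :
    permPt π (pL 0 q) = pL 0 (permPt π q) := by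
  rw [permPt_apply, permPt_apply]
  funext i
  have : π i = 0 ↔ i = 0 := by
    constructor
    · intro h; exact π.injective (h.trans h0.symm)
    · intro h; rw [h, h0]
  simp [pL, this]

theorem sg_V2 [NeZero k] (u c : Fin 4) : sgPt k (V2 0 u c) = V2 0 (sg u) (sg c) := by
  rw [sgPt_apply]
  funext i
  by_cases h : i = 0 <;> simp [V2, h]

/-- The exchange of `1` and `2` on digits. -/
theorem sgN_fin (a : Fin 4) : sgN (a : ℕ) = ((sg a : Fin 4) : ℕ) := by
  fin_cases a <;> rfl

/-- Sorting three objects by exchanges of neighbours. -/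
theorem sort3 {X : Type} (f : X → ℕ) (R : X → X → X → Prop)
    (h12 : ∀ x y z, R y x z → R x y z) (h23 : ∀ x y z, R x z y → R x y z)
    (hs : ∀ x y z, f x ≤ f y → f y ≤ f z → R x y z) (x y z : X) : R x y z := by
  rcases le_total (f x) (f y) with h1 | h1
  · rcases le_total (f y) (f z) with h2 | h2
    · exact hs x y z h1 h2
    · rcases le_total (f x) (f z) with h3 | h3
      · exact h23 _ _ _ (hs x z y h3 h2)
      · exact h23 _ _ _ (h12 _ _ _ (hs z x y h3 h1))
  · rcases le_total (f y) (f z) with h2 | h2
    · rcases le_total (f x) (f z) with h3 | h3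
      · exact h12 _ _ _ (hs y x z h1 h3)
      · exact h12 _ _ _ (h23 _ _ _ (hs y z x h2 h3))
    · exact h12 _ _ _ (h23 _ _ _ (h12 _ _ _ (hs z y x h2 h1)))

end Pool.Agent.Lib_TTT
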