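import Pool.Agent.Lib_TTT.CovLem

/-!
The certificates cover the positions with special first stones: `CovS`, `CovS2`.
-/

set_option autoImplicit false

namespace Pool.Agent.Lib_TTT

variable {k : ℕ}

private theorem fix_mem {π : Equiv.Perm (Fin k)} {L : List (Pt k)}
    (hL : ∀ v ∈ L, permPt π v = v) {q : Pt k} (h : permPt π q ∈ L) : q ∈ L := by
  have h1 := (permPt π).injective (hL _ h)
  rw [← h1]; exact h

private theorem sw12 (a b c d : Fin 4) :
    permPt (Equiv.swap 1 2) (![a, b, c, d] : Pt 4) = ![a, c, b, d] := by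
  rw [permPt_apply]; funext i; fin_cases i <;> rfl

private theorem sw23 (a b c d : Fin 4) :
    permPt (Equiv.swap 2 3) (![a, b, c, d] : Pt 4) = ![a, b, d, c] := by
  rw [permPt_apply]; funext i; fin_cases i <;> rfl

private theorem perm_V3 (u v c : Fin 4) :
    permPt (Equiv.swap 2 3) (V3 0 1 u v c : Pt 4) = V3 0 1 u v c := by
  rw [V3_4, sw23]

/-- After the second move. -/
private theorem four_aux (bs : List (Blk 4)) (T : List Row) (hT : tabOk bs T = true)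
    (A0 A B0 B : Fin 4) (bad : List (Fin 4 × Fin 4)) (p a : ℕ)
    (hp : p = encP (V2 0 B0 B : Pt 4)) (ha : a = encP (V2 0 A0 A : Pt 4)) (ex : List ℕ)
    (hex : ex = 0 :: p :: a :: bad.map fun c => encP (V2 0 c.1 c.2 : Pt 4))
    (hk : kS1 T [0, p] [a] ex = true) (q : Pt 4) (e1 : q ≠ V2 0 0 0) (e2 : q ≠ V2 0 B0 B)
    (e3 : q ≠ V2 0 A0 A) (e4 : ∀ c ∈ bad, q ≠ V2 0 c.1 c.2) :
    Won {V2 0 0 0, V2 0 B0 B} {V2 0 A0 A, q} := by
  have h0 : (0 : ℕ) = encP (V2 0 0 0 : Pt 4) := by rw [V2_4, encP4]; rfl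
  set L : List (Pt 4) := V2 0 0 0 :: V2 0 B0 B :: V2 0 A0 A :: bad.map fun c => V2 0 c.1 c.2
    with hLdef
  have hexL : ex = L.map encP := by
    rw [hex, hLdef, List.map_cons, List.map_cons, List.map_cons, List.map_map, ← h0, ← hp, ← ha]
    rfl
  have hfix : ∀ π : Equiv.Perm (Fin 4), π 0 = 0 → ∀ v ∈ L, permPt π v = v := by
    intro π hπ v hv
    rw [hLdef] at hv
    simp only [List.mem_cons, List.mem_map] at hv
    rcases hv with rfl | rfl | rfl | ⟨c, _, rfl⟩ <;> exact perm_V2 π hπ _ _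
  have key : ∀ x y z : Fin 4, ![q 0, x, y, z] ∉ L →
      Won {V2 0 0 0, V2 0 B0 B} {V2 0 A0 A, ![q 0, x, y, z]} := by
    apply sort3 (fun x : Fin 4 => (x : ℕ))
    · intro x y z h hL
      apply Won.back (lineMap_perm (Equiv.swap (1 : Fin 4) 2))
      have h1 : ![q 0, y, x, z] ∉ L := fun h' => hL (by
        rw [← sw12] at h'
        exact fix_mem (hfix _ rfl) h')
      simpa [Finset.image_insert, perm_V2 (Equiv.swap (1 : Fin 4) 2) rfl, sw12] using h h1
    · intro x y z h hL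
      apply Won.back (lineMap_perm (Equiv.swap (2 : Fin 4) 3))
      have h1 : ![q 0, x, z, y] ∉ L := fun h' => hL (by
        rw [← sw23] at h'
        exact fix_mem (hfix _ rfl) h')
      simpa [Finset.image_insert, perm_V2 (Equiv.swap (2 : Fin 4) 3) rfl, sw23] using h h1
    · intro x y z s1 s2 hL
      have hk := allN_fin (allN_fin (allN_fin (allN_fin hk (q 0)) x) y) z
      simp only [Bool.or_eq_true, Bool.not_eq_true', memL_iff] at hk
      rcases hk with (hk | hk) | hk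
      · have t1 := Nat.ble_eq_true_of_le s1
        have t2 := Nat.ble_eq_true_of_le s2
        rw [t1, t2] at hk
        simp at hk
      · exfalso
        rw [← encP4, hexL, List.mem_map] at hk
        obtain ⟨v, hv, hv'⟩ := hk
        rw [encP_inj hv'] at hv
        exact hL hv
      · have hs := look_sound bs T hT hk
        rw [← encP4] at hs
        simp only [List.cons_append, List.nil_append, cellsOf_cons' h0, cellsOf_cons' hp,
          cellsOf_cons' ha, cellsOf_cons, cellsOf_nil] at hs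
        exact hs
  rw [eta4 q]
  apply key
  rw [← eta4 q, hLdef]
  simp only [List.mem_cons, List.mem_map, not_or, not_exists, not_and]
  exact ⟨e1, e2, e3, fun c hc h => e4 c hc h.symm⟩

private theorem five_aux (bs : List (Blk 5)) (T : List Row) (hT : tabOk bs T = true)
    (A0 A B0 B : Fin 4) (p a : ℕ)
    (hp : p = encP (V2 0 B0 B : Pt 5)) (ha : a = encP (V2 0 A0 A : Pt 5))
    (hk : kS3 T [0, p] [a] = true) (q : Pt 5) (e1 : q 1 = 0) (e2 : q 2 = 1) (e3 : q 3 = 2)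
    (e4 : q 4 = 3) : Won {V2 0 0 0, V2 0 B0 B} {V2 0 A0 A, q} := by
  have h0 : (0 : ℕ) = encP (V2 0 0 0 : Pt 5) := by rw [V2_5, encP5]; rfl
  have hk := allN_fin hk (q 0)
  have hs := look_sound bs T hT hk
  have h5 : enc5 (q 0) 0 1 2 3 = encP q := by
    rw [eta5 q, encP5, e1, e2, e3, e4]; rfl
  rw [h5] at hs
  simp only [List.cons_append, List.nil_append, cellsOf_cons' h0, cellsOf_cons' hp,
    cellsOf_cons' ha, cellsOf_cons, cellsOf_nil] at hs
  exact hs

/-- After the third move. -/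
private theorem four2_aux (bs : List (Blk 4)) (T : List Row) (hT : tabOk bs T = true)
    (A0 A B0 B C0 C D0 D1 D : Fin 4) (p a c e : ℕ)
    (hp : p = encP (V2 0 B0 B : Pt 4)) (ha : a = encP (V2 0 A0 A : Pt 4))
    (hc : c = encP (V2 0 C0 C : Pt 4)) (he : e = encP (V3 0 1 D0 D1 D : Pt 4))
    (hk : kS2 T [0, p, e] [a, c] [0, p, e, a, c] = true) (q : Pt 4) (e1 : q ≠ V2 0 0 0)
    (e2 : q ≠ V2 0 B0 B) (e3 : q ≠ V3 0 1 D0 D1 D) (e4 : q ≠ V2 0 A0 A) (e5 : q ≠ V2 0 C0 C) :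
    Won {V2 0 0 0, V2 0 B0 B, V3 0 1 D0 D1 D} {V2 0 A0 A, V2 0 C0 C, q} := by
  have h0 : (0 : ℕ) = encP (V2 0 0 0 : Pt 4) := by rw [V2_4, encP4]; rfl
  set L : List (Pt 4) := [V2 0 0 0, V2 0 B0 B, V3 0 1 D0 D1 D, V2 0 A0 A, V2 0 C0 C] with hLdef
  have hexL : [0, p, e, a, c] = L.map encP := by
    rw [hLdef]
    simp only [List.map_cons, List.map_nil, ← h0, ← hp, ← ha, ← hc, ← he]
  have hfix : ∀ v ∈ L, permPt (Equiv.swap 2 3) v = v := by
    intro v hv
    rw [hLdef] at hv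
    simp only [List.mem_cons, List.not_mem_nil, or_false] at hv
    rcases hv with rfl | rfl | rfl | rfl | rfl
    · exact perm_V2 _ rfl _ _
    · exact perm_V2 _ rfl _ _
    · exact perm_V3 _ _ _
    · exact perm_V2 _ rfl _ _
    · exact perm_V2 _ rfl _ _
  have key : ∀ x y : Fin 4, x ≤ y → ![q 0, q 1, x, y] ∉ L →
      Won {V2 0 0 0, V2 0 B0 B, V3 0 1 D0 D1 D} {V2 0 A0 A, V2 0 C0 C, ![q 0, q 1, x, y]} := by
    intro x y s1 hL
    have hk := allN_fin (allN_fin (allN_fin (allN_fin hk (q 0)) (q 1)) x) y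
    simp only [Bool.or_eq_true, Bool.not_eq_true', memL_iff] at hk
    rcases hk with (hk | hk) | hk
    · have t1 := Nat.ble_eq_true_of_le s1
      rw [t1] at hk
      simp at hk
    · exfalso
      rw [← encP4, hexL, List.mem_map] at hk
      obtain ⟨v, hv, hv'⟩ := hk
      rw [encP_inj hv'] at hv
      exact hL hv
    · have hs := look_sound bs T hT hk
      rw [← encP4] at hs
      simp only [List.cons_append, List.nil_append, cellsOf_cons' h0, cellsOf_cons' hp,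
        cellsOf_cons' ha, cellsOf_cons' hc, cellsOf_cons' he, cellsOf_cons, cellsOf_nil] at hs
      exact hs
  have hqL : q ∉ L := by
    rw [hLdef]
    simp only [List.mem_cons, List.not_mem_nil, or_false, not_or]
    exact ⟨e1, e2, e3, e4, e5⟩
  rcases le_total (q 2) (q 3) with h | h
  · rw [eta4 q]
    exact key _ _ h (by rw [← eta4]; exact hqL)
  · apply Won.back (lineMap_perm (Equiv.swap (2 : Fin 4) 3))
    have h1 : ![q 0, q 1, q 3, q 2] ∉ L := fun h' => hqL (by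
      rw [← sw23, ← eta4] at h'
      exact fix_mem hfix h')
    have h2 : permPt (Equiv.swap 2 3) q = ![q 0, q 1, q 3, q 2] := by
      conv_lhs => rw [eta4 q]
      exact sw23 _ _ _ _
    simpa [Finset.image_insert, perm_V2 (Equiv.swap (2 : Fin 4) 3) rfl, perm_V3, h2]
      using key _ _ h h1

private theorem five2_aux (bs : List (Blk 5)) (T : List Row) (hT : tabOk bs T = true)
    (A0 A B0 B C0 C D0 D1 D : Fin 4) (p a c e : ℕ)
    (hp : p = encP (V2 0 B0 B : Pt 5)) (ha : a = encP (V2 0 A0 A : Pt 5))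
    (hc : c = encP (V2 0 C0 C : Pt 5)) (he : e = encP (V3 0 1 D0 D1 D : Pt 5))
    (hk : kS4 T [0, p, e] [a, c] = true) (q : Pt 5) (e1 : q 2 < q 3) (e2 : q 3 < q 4) :
    Won {V2 0 0 0, V2 0 B0 B, V3 0 1 D0 D1 D} {V2 0 A0 A, V2 0 C0 C, q} := by
  have h0 : (0 : ℕ) = encP (V2 0 0 0 : Pt 5) := by rw [V2_5, encP5]; rfl
  have hk := allN_fin (allN_fin (allN_fin (allN_fin (allN_fin hk (q 0)) (q 1)) (q 2)) (q 3)) (q 4)
  simp only [Bool.or_eq_true, Bool.not_eq_true'] at hk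
  have t1 : Nat.blt (q 2) (q 3) = true := Nat.ble_eq_true_of_le e1
  have t2 : Nat.blt (q 3) (q 4) = true := Nat.ble_eq_true_of_le e2
  rw [t1, t2] at hk
  rcases hk with hk | hk
  · exact absurd hk (by decide)
  have hs := look_sound bs T hT hk
  rw [← encP5, ← eta5] at hs
  simp only [List.cons_append, List.nil_append, cellsOf_cons' h0, cellsOf_cons' hp,
    cellsOf_cons' ha, cellsOf_cons' hc, cellsOf_cons' he, cellsOf_cons, cellsOf_nil] at hs
  exact hs

private theorem alone_aux (bs : List (Blk 4)) (T : List Row) (hT : tabOk bs T = true)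
    (A0 A B0 B C0 C D0 D1 D : Fin 4) (p a c e : ℕ)
    (hp : p = encP (V2 0 B0 B : Pt 4)) (ha : a = encP (V2 0 A0 A : Pt 4))
    (hc : c = encP (V2 0 C0 C : Pt 4)) (he : e = encP (V3 0 1 D0 D1 D : Pt 4))
    (hk : look T [0, p, e] [a] c = true) :
    Won ({V2 0 0 0, V2 0 B0 B, V3 0 1 D0 D1 D} : Finset (Pt 4)) {V2 0 A0 A, V2 0 C0 C} := by
  have h0 : (0 : ℕ) = encP (V2 0 0 0 : Pt 4) := by rw [V2_4, encP4]; rfl
  have hs := look_sound bs T hT hk
  simp only [List.cons_append, List.nil_append, cellsOf_cons' h0, cellsOf_cons' hp,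
    cellsOf_cons' ha, cellsOf_cons' hc, cellsOf_cons' he, cellsOf_nil] at hs
  exact hs

private theorem eV2_4 (u c : Fin 4) : encP (V2 0 u c : Pt 4) = enc4 u c c c := by
  rw [V2_4, encP4]
private theorem eV2_5 (u c : Fin 4) : encP (V2 0 u c : Pt 5) = enc5 u c c c c := by
  rw [V2_5, encP5]
private theorem eV3_4 (u v c : Fin 4) : encP (V3 0 1 u v c : Pt 4) = enc4 u v c c := by
  rw [V3_4, encP4]
private theorem eV3_5 (u v c : Fin 4) : encP (V3 0 1 u v c : Pt 5) = enc5 u v c c c := by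
  rw [V3_5, encP5]

theorem covS_1 : CovS 1 0 0 3 [(0, 1), (0, 2)] :=
  ⟨four_aux blks41 tab41 tab41_ok 1 0 0 3 _ 63 64 (by rw [eV2_4]; rfl) (by rw [eV2_4]; rfl) _
      (by simp only [List.map_cons, List.map_nil, eV2_4]; rfl) s1_1,
    five_aux blks51 tab51 tab51_ok 1 0 0 3 255 256 (by rw [eV2_5]; rfl) (by rw [eV2_5]; rfl)
      s3_1⟩

theorem covS_3 : CovS 3 0 0 3 [(0, 1), (0, 2)] :=
  ⟨four_aux blks41 tab41 tab41_ok 3 0 0 3 _ 63 192 (by rw [eV2_4]; rfl) (by rw [eV2_4]; rfl) _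
      (by simp only [List.map_cons, List.map_nil, eV2_4]; rfl) s1_3,
    five_aux blks51 tab51 tab51_ok 3 0 0 3 255 768 (by rw [eV2_5]; rfl) (by rw [eV2_5]; rfl)
      s3_3⟩

theorem covS_33 : CovS 3 3 3 0 [(1, 0), (2, 0)] :=
  ⟨four_aux blks4S tab4S tab4S_ok 3 3 3 0 _ 192 255 (by rw [eV2_4]; rfl) (by rw [eV2_4]; rfl) _
      (by simp only [List.map_cons, List.map_nil, eV2_4]; rfl) s1_33,
    five_aux blks5S tab5S tab5S_ok 3 3 3 0 768 1023 (by rw [eV2_5]; rfl) (by rw [eV2_5]; rfl)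
      s3_33⟩

theorem covS_11 : CovS 1 1 1 0 [(2, 0), (3, 0)] :=
  ⟨four_aux blks4S tab4S tab4S_ok 1 1 1 0 _ 64 85 (by rw [eV2_4]; rfl) (by rw [eV2_4]; rfl) _
      (by simp only [List.map_cons, List.map_nil, eV2_4]; rfl) s1_11,
    five_aux blks5S tab5S tab5S_ok 1 1 1 0 256 341 (by rw [eV2_5]; rfl) (by rw [eV2_5]; rfl)
      s3_11⟩

private theorem covS2_aux (A0 A B0 B C0 C D0 D1 D : Fin 4) (p a c e p' a' c' e' : ℕ)
    (h1 : p = enc4 B0 B B B) (h2 : a = enc4 A0 A A A) (h3 : c = enc4 C0 C C C)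
    (h4 : e = enc4 D0 D1 D D) (h1' : p' = enc5 B0 B B B B) (h2' : a' = enc5 A0 A A A A)
    (h3' : c' = enc5 C0 C C C C) (h4' : e' = enc5 D0 D1 D D D)
    (k1 : kS2 tab4S [0, p, e] [a, c] [0, p, e, a, c] = true)
    (k2 : kS4 tab5S [0, p', e'] [a', c'] = true) (k3 : look tab4S [0, p, e] [a] c = true) :
    CovS2 A0 A B0 B C0 C D0 D1 D :=
  ⟨four2_aux blks4S tab4S tab4S_ok A0 A B0 B C0 C D0 D1 D p a c e (by rw [eV2_4]; exact h1)
      (by rw [eV2_4]; exact h2) (by rw [eV2_4]; exact h3) (by rw [eV3_4]; exact h4) k1,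
    five2_aux blks5S tab5S tab5S_ok A0 A B0 B C0 C D0 D1 D p' a' c' e'
      (by rw [eV2_5]; exact h1') (by rw [eV2_5]; exact h2') (by rw [eV2_5]; exact h3')
      (by rw [eV3_5]; exact h4') k2,
    alone_aux blks4S tab4S tab4S_ok A0 A B0 B C0 C D0 D1 D p a c e (by rw [eV2_4]; exact h1)
      (by rw [eV2_4]; exact h2) (by rw [eV2_4]; exact h3) (by rw [eV3_4]; exact h4) k3⟩

theorem covS2_11 : CovS2 1 0 0 3 0 1 0 3 0 :=
  covS2_aux 1 0 0 3 0 1 0 3 0 63 64 21 48 255 256 85 192 rfl rfl rfl rfl rfl rfl rfl rfl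
    s2_11 s4_11 s5_11

theorem covS2_12 : CovS2 1 0 0 3 0 2 0 3 0 :=
  covS2_aux 1 0 0 3 0 2 0 3 0 63 64 42 48 255 256 170 192 rfl rfl rfl rfl rfl rfl rfl rfl
    s2_12 s4_12 s5_12

theorem covS2_32 : CovS2 3 0 0 3 0 2 0 3 0 :=
  covS2_aux 3 0 0 3 0 2 0 3 0 63 192 42 48 255 768 170 192 rfl rfl rfl rfl rfl rfl rfl rfl
    s2_32 s4_32 s5_32

theorem covS2_331 : CovS2 3 3 3 0 1 0 0 3 0 :=
  covS2_aux 3 3 3 0 1 0 0 3 0 192 255 64 48 768 1023 256 192 rfl rfl rfl rfl rfl rfl rfl rfl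
    s2_331 s4_331 s5_331

theorem covS2_112 : CovS2 1 1 1 0 2 0 1 1 0 :=
  covS2_aux 1 1 1 0 2 0 1 1 0 64 85 128 80 256 341 512 320 rfl rfl rfl rfl rfl rfl rfl rfl
    s2_112 s4_112 s5_112

theorem covS2_113 : CovS2 1 1 1 0 3 0 0 3 0 :=
  covS2_aux 1 1 1 0 3 0 0 3 0 64 85 192 48 256 341 768 192 rfl rfl rfl rfl rfl rfl rfl rfl
    s2_113 s4_113 s5_113

end Pool.Agent.Lib_TTT
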