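import Mathlib

/-!
The game `4^d`: lines, won positions, threat sequences. See `Core.lean` for the certificates.
-/

set_option autoImplicit false

namespace Pool.Agent.Lib_TTT

/-- Cells of the board `4^d`. -/
abbrev Pt (d : ℕ) := Fin d → Fin 4

/-- Winning lines, as in the frozen statement `S07761` (for `n = 4`). -/
def IsLn {d : ℕ} (e : Finset (Pt d)) : Prop :=
  ∃ f : Fin 4 → Fin d → Fin 4,
    (∀ j, (∀ i i', f i j = f i' j) ∨ (∀ i, f i j = i) ∨ (∀ i, f i j = Fin.rev i)) ∧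
    (∃ j i i', f i j ≠ f i' j) ∧ e = Finset.univ.image f

/-- The first player, who is to move, wins: `P` are his stones, `Q` those of the second player,
who does not own a complete line. -/
inductive WinA {d : ℕ} : Finset (Pt d) → Finset (Pt d) → Prop
  /-- he completes a line -/
  | fin (P Q : Finset (Pt d)) (m : Pt d) (e : Finset (Pt d)) (hmP : m ∉ P) (hmQ : m ∉ Q)
      (he : IsLn e) (hs : e ⊆ insert m P) : WinA P Q
  /-- he plays `m`; whatever the answer `r`, it completes no line and he still wins -/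
  | mv (P Q : Finset (Pt d)) (m : Pt d) (hmP : m ∉ P) (hmQ : m ∉ Q)
      (hex : ∃ r, r ∉ insert m P ∧ r ∉ Q)
      (hD : ∀ r, r ∉ insert m P → r ∉ Q → ∀ e, IsLn e → ¬ e ⊆ insert r Q)
      (hA : ∀ r, r ∉ insert m P → r ∉ Q → WinA (insert m P) (insert r Q)) : WinA P Q

/-- A winning sequence of threats. -/
inductive Vcf {d : ℕ} : Finset (Pt d) → Finset (Pt d) → Prop
  | win (P Q : Finset (Pt d)) (m : Pt d) (e : Finset (Pt d)) (hmP : m ∉ P) (hmQ : m ∉ Q)
      (he : IsLn e) (hs : e ⊆ insert m P) : Vcf P Q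
  | thr (P Q : Finset (Pt d)) (m f : Pt d) (e : Finset (Pt d)) (hmP : m ∉ P) (hmQ : m ∉ Q)
      (hfP : f ∉ insert m P) (hfQ : f ∉ Q) (he : IsLn e) (hs : e ⊆ insert f (insert m P))
      (hD : ∀ r, r ∉ insert m P → r ∉ Q → ∀ e', IsLn e' → ¬ e' ⊆ insert r Q)
      (hA : Vcf (insert m P) (insert f Q)) : Vcf P Q

/-- A win by quiet moves, each of which threatens to win by a sequence of threats. -/
inductive TA {d : ℕ} : Finset (Pt d) → Finset (Pt d) → Prop
  | vcf (P Q : Finset (Pt d)) (h : Vcf P Q) : TA P Q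
  | frc (P Q : Finset (Pt d)) (m f : Pt d) (e : Finset (Pt d)) (hmP : m ∉ P) (hmQ : m ∉ Q)
      (hfP : f ∉ insert m P) (hfQ : f ∉ Q) (he : IsLn e) (hs : e ⊆ insert f (insert m P))
      (hD : ∀ r, r ∉ insert m P → r ∉ Q → ∀ e', IsLn e' → ¬ e' ⊆ insert r Q)
      (hA : TA (insert m P) (insert f Q)) : TA P Q
  | mv (P Q : Finset (Pt d)) (m : Pt d) (hmP : m ∉ P) (hmQ : m ∉ Q)
      (hD : ∀ r, r ∉ insert m P → r ∉ Q → ∀ e', IsLn e' → ¬ e' ⊆ insert r Q)
      (hV : Vcf (insert m P) Q)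
      (hA : ∀ r, r ∉ insert m P → r ∉ Q → TA (insert m P) (insert r Q)) : TA P Q

/-- The first player has a winning strategy in `4^d`, in the words of `S07761`. -/
def FirstWins (d : ℕ) : Prop :=
  ∃ σ : List (Fin d → Fin 4) → (Fin d → Fin 4),
    (∀ h : List (Fin d → Fin 4), h.Nodup → h.length < Fintype.card (Fin d → Fin 4) →
      Even h.length → (∀ k < h.length, Even k → h[k]? = some (σ (h.take k))) → σ h ∉ h) ∧
    ∀ l : List (Fin d → Fin 4), l.Nodup → l.length = Fintype.card (Fin d → Fin 4) →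
      (∀ k < l.length, Even k → l[k]? = some (σ (l.take k))) →
      ∃ k ≤ l.length,
        (∃ e : Finset (Fin d → Fin 4), IsLn e ∧ ∀ x ∈ e, ∃ i < k, Even i ∧ l[i]? = some x) ∧
        ∀ e : Finset (Fin d → Fin 4), IsLn e → ∃ x ∈ e, ∀ i < k, Odd i → l[i]? ≠ some x

/-- A drawing position of `4^d`, in the words of `S07761`. -/
def HasDraw (d : ℕ) : Prop :=
  ∃ A : Finset (Fin d → Fin 4), A.card = (Fintype.card (Fin d → Fin 4) + 1) / 2 ∧
    ∀ e : Finset (Fin d → Fin 4), IsLn e → (∃ x ∈ e, x ∉ A) ∧ (∃ x ∈ e, x ∈ A)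

end Pool.Agent.Lib_TTT
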