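import Pool.Agent.Lib_TTT.Defs

/-!
Drawing positions of `4^4` and `4^5`.

Idea: a set of cells `A` given by a bit mask (a natural number with `4^d` binary digits; the code
of the cell `x` is `∑ x_i 4^i` or any other order), found by computer (masks below, to be
checked in the kernel by `decide +kernel` on natural numbers: for each of the `6^d` words with an
active letter the four cells of the line are not all in `A` and not all outside; `A` has
`4^d / 2` cells). Kernel evaluation of `Nat.testBit`, `Nat.shiftRight`, `Nat.land`, `Nat.beq`,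
`Nat.add`, `Nat.mul`, `Nat.div`, `Nat.mod` is fast (GMP), `Nat.log2` is slow; avoid `Fin`
functions and `Finset` in the evaluated term. The masks are `drawMask4`, `drawMask5`: bit `c` is
set iff the cell with code `c = ∑ x_i 4^i` (`i < d`) belongs to `A`.
-/

set_option autoImplicit false

namespace Pool.Agent.Lib_TTT

/-- A drawing position of `4^4` with 128 cells. -/
def drawMask4 : ℕ :=
  0x9e97a51db86979eeee53714d4dbc841b27dec24d4d713588886169e2475a1686

/-- A drawing position of `4^5` with 512 cells. -/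
def drawMask5 : ℕ :=
  0x16b74a513694b96dc612e3e9482b37ac38ac143ee7c84a4173c76ba8a2411c37c212e3ed48b8b7a872d73d4ce8184872843a8d463ddcc2c72de9bc32b3c746e3389d1c32b3c2684b1cbcc4439d4ea3deb1ede7e8cd4314b1ea12e2ed4838b7bc13c77dbaea291c317dadec1883d7cae3ca132bed6838b79c4962d69375ad1297


/-- The binary digit `n` of `m`. -/
private def Draw_tb (m n : ℕ) : Bool := Nat.beq (Nat.mod (Nat.shiftRight m n) 2) 1

/-- Check of all lines whose remaining `n` letters are free; `p` is the current power of `4`,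
`a b c e` are the partial codes of the four cells. -/
private def Draw_chk (m : ℕ) : ℕ → ℕ → ℕ → ℕ → ℕ → ℕ → Bool → Bool
  | 0, _, a, b, c, e, act =>
    !act || ((Draw_tb m a || Draw_tb m b || Draw_tb m c || Draw_tb m e) &&
      !(Draw_tb m a && Draw_tb m b && Draw_tb m c && Draw_tb m e))
  | n + 1, p, a, b, c, e, act =>
    Draw_chk m n (Nat.mul 4 p) a b c e act &&
    Draw_chk m n (Nat.mul 4 p) (Nat.add a p) (Nat.add b p) (Nat.add c p) (Nat.add e p) act &&
    Draw_chk m n (Nat.mul 4 p) (Nat.add a (Nat.mul 2 p)) (Nat.add b (Nat.mul 2 p))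
      (Nat.add c (Nat.mul 2 p)) (Nat.add e (Nat.mul 2 p)) act &&
    Draw_chk m n (Nat.mul 4 p) (Nat.add a (Nat.mul 3 p)) (Nat.add b (Nat.mul 3 p))
      (Nat.add c (Nat.mul 3 p)) (Nat.add e (Nat.mul 3 p)) act &&
    Draw_chk m n (Nat.mul 4 p) a (Nat.add b p) (Nat.add c (Nat.mul 2 p))
      (Nat.add e (Nat.mul 3 p)) true &&
    Draw_chk m n (Nat.mul 4 p) (Nat.add a (Nat.mul 3 p)) (Nat.add b (Nat.mul 2 p))
      (Nat.add c p) e true

/-- Number of cells of the mask. -/
private def Draw_cnt (m : ℕ) : ℕ → ℕ → ℕ → ℕ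
  | 0, _, a => if Draw_tb m a = true then 1 else 0
  | n + 1, p, a =>
    Nat.add (Nat.add (Draw_cnt m n (Nat.mul 4 p) a) (Draw_cnt m n (Nat.mul 4 p) (Nat.add a p)))
      (Nat.add (Draw_cnt m n (Nat.mul 4 p) (Nat.add a (Nat.mul 2 p)))
        (Draw_cnt m n (Nat.mul 4 p) (Nat.add a (Nat.mul 3 p))))

private def Draw_code {n : ℕ} (p : ℕ) (x : Fin n → Fin 4) : ℕ := ∑ i, (x i : ℕ) * (p * 4 ^ (i : ℕ))

private theorem Draw_code_succ {n : ℕ} (p : ℕ) (x : Fin (n + 1) → Fin 4) :
    Draw_code p x = (x 0 : ℕ) * p + Draw_code (4 * p) (fun i => x i.succ) := by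
  unfold Draw_code
  rw [Fin.sum_univ_succ]
  congr 1
  · simp
  · refine Finset.sum_congr rfl fun i _ => ?_
    rw [Fin.val_succ, pow_succ]
    ring

private theorem Draw_cnt_eq (m : ℕ) : ∀ (n p a : ℕ),
    (∑ x : Fin n → Fin 4, if Draw_tb m (a + Draw_code p x) = true then 1 else 0) =
      Draw_cnt m n p a := by
  intro n
  induction n with
  | zero =>
    intro p a
    rw [Fintype.sum_unique]
    simp [Draw_code, Draw_cnt]
  | succ n ih =>
    intro p a
    rw [← (Fin.consEquiv (fun _ : Fin (n + 1) => Fin 4)).sum_comp, Fintype.sum_prod_type,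
      Fin.sum_univ_four]
    have h : ∀ (v : Fin 4) (x : Fin n → Fin 4),
        a + Draw_code p ((Fin.consEquiv (fun _ : Fin (n + 1) => Fin 4)) (v, x)) =
          (a + (v : ℕ) * p) + Draw_code (4 * p) x := by
      intro v x
      rw [Draw_code_succ]
      simp [Fin.consEquiv, add_assoc]
    simp only [h, ih]
    simp only [Draw_cnt, Nat.mul_eq, Nat.add_eq]
    simp [add_assoc]

private theorem Draw_chk_line (m : ℕ) : ∀ (n p : ℕ) (s : Fin 4 → ℕ) (act : Bool),
    Draw_chk m n p (s 0) (s 1) (s 2) (s 3) act = true →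
    ∀ f : Fin 4 → Fin n → Fin 4,
      (∀ j, (∀ i i', f i j = f i' j) ∨ (∀ i, f i j = i) ∨ (∀ i, f i j = Fin.rev i)) →
      (act = true ∨ ∃ j i i', f i j ≠ f i' j) →
      (∃ i, Draw_tb m (s i + Draw_code p (f i)) = false) ∧
        ∃ i, Draw_tb m (s i + Draw_code p (f i)) = true := by
  intro n
  induction n with
  | zero =>
    intro p s act h f _ hact
    have ha : act = true := by
      rcases hact with h | ⟨j, _⟩
      · exact h
      · exact j.elim0
    subst ha
    have hc : ∀ i, Draw_code p (f i) = 0 := fun i => by simp [Draw_code]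
    simp only [hc, Nat.add_zero]
    simp only [Draw_chk, Bool.not_true, Bool.false_or, Bool.and_eq_true, Bool.or_eq_true,
      Bool.not_eq_true', Bool.and_eq_false_iff] at h
    obtain ⟨h1, h2⟩ := h
    constructor
    · rcases h2 with ((h2 | h2) | h2) | h2
      · exact ⟨0, h2⟩
      · exact ⟨1, h2⟩
      · exact ⟨2, h2⟩
      · exact ⟨3, h2⟩
    · rcases h1 with ((h1 | h1) | h1) | h1
      · exact ⟨0, h1⟩
      · exact ⟨1, h1⟩
      · exact ⟨2, h1⟩
      · exact ⟨3, h1⟩
  | succ n ih =>
    intro p s act h f hf hact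
    simp only [Draw_chk, Bool.and_eq_true, Nat.mul_eq, Nat.add_eq] at h
    obtain ⟨⟨⟨⟨⟨h0, h1⟩, h2⟩, h3⟩, h4⟩, h5⟩ := h
    -- the general step
    have key : ∀ act', Draw_chk m n (4 * p) (s 0 + (f 0 0 : ℕ) * p) (s 1 + (f 1 0 : ℕ) * p)
        (s 2 + (f 2 0 : ℕ) * p) (s 3 + (f 3 0 : ℕ) * p) act' = true →
        (act' = true ∨ ∃ j : Fin n, ∃ i i', f i j.succ ≠ f i' j.succ) →
        (∃ i, Draw_tb m (s i + Draw_code p (f i)) = false) ∧
          ∃ i, Draw_tb m (s i + Draw_code p (f i)) = true := by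
      intro act' h6 h7
      have h8 := ih (4 * p) (fun i => s i + (f i 0 : ℕ) * p) act' h6 (fun i j => f i j.succ)
        (fun j => hf j.succ) h7
      have h9 : ∀ i, s i + (f i 0 : ℕ) * p + Draw_code (4 * p) (fun j => f i j.succ) =
          s i + Draw_code p (f i) := by
        intro i
        rw [Draw_code_succ, add_assoc]
      simpa only [h9] using h8
    rcases hf 0 with hc | hc | hc
    · have hact' : act = true ∨ ∃ j : Fin n, ∃ i i', f i j.succ ≠ f i' j.succ := by
        rcases hact with h | ⟨j, i, i', hj⟩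
        · exact Or.inl h
        · refine Or.inr ?_
          have hj0 : j ≠ 0 := by
            rintro rfl
            exact hj (hc i i')
          obtain ⟨j', rfl⟩ := Fin.exists_succ_eq.2 hj0
          exact ⟨j', i, i', hj⟩
      refine key act ?_ hact'
      rw [hc 1 0, hc 2 0, hc 3 0]
      generalize f 0 0 = v
      fin_cases v
      · simpa using h0
      · simpa using h1
      · simpa using h2
      · simpa using h3
    · refine key true ?_ (Or.inl rfl)
      rw [hc 0, hc 1, hc 2, hc 3]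
      simpa using h4
    · refine key true ?_ (Or.inl rfl)
      rw [hc 0, hc 1, hc 2, hc 3]
      have e0 : ((Fin.rev (0 : Fin 4) : Fin 4) : ℕ) = 3 := rfl
      have e1 : ((Fin.rev (1 : Fin 4) : Fin 4) : ℕ) = 2 := rfl
      have e2 : ((Fin.rev (2 : Fin 4) : Fin 4) : ℕ) = 1 := rfl
      have e3 : ((Fin.rev (3 : Fin 4) : Fin 4) : ℕ) = 0 := rfl
      rw [e0, e1, e2, e3]
      simpa using h5

private theorem Draw_main (m d : ℕ) (h1 : Draw_chk m d 1 0 0 0 0 false = true)
    (h2 : Draw_cnt m d 1 0 = (4 ^ d + 1) / 2) : HasDraw d := by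
  refine ⟨Finset.univ.filter fun x => Draw_tb m (0 + Draw_code 1 x) = true, ?_, ?_⟩
  · rw [Finset.card_filter, Draw_cnt_eq, h2]
    simp
  · rintro e ⟨f, hf, ha, rfl⟩
    obtain ⟨⟨i, hi⟩, j, hj⟩ := Draw_chk_line m d 1 (fun _ => 0) false h1 f hf (Or.inr ha)
    refine ⟨⟨f i, Finset.mem_image_of_mem _ (Finset.mem_univ _), ?_⟩,
      f j, Finset.mem_image_of_mem _ (Finset.mem_univ _), ?_⟩
    · rw [Finset.mem_filter]
      rintro ⟨-, h⟩
      rw [hi] at h
      exact Bool.false_ne_true h
    · rw [Finset.mem_filter]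
      exact ⟨Finset.mem_univ _, hj⟩

theorem hasDraw4 : HasDraw 4 := by
  exact Draw_main drawMask4 4 (by decide +kernel) (by decide +kernel)

theorem hasDraw5 : HasDraw 5 := by
  exact Draw_main drawMask5 5 (by decide +kernel) (by decide +kernel)

end Pool.Agent.Lib_TTT
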