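import Pool.Agent.Lib_TTT.Defs

/-!
Drawing positions of `4^d` for larger `d`: a check with bit-parallel operations.

The position is a bit mask `m`; the bit `c` is set iff the cell with the code `c = ∑ x_i 4^i`
belongs to the set `A`. A pattern says for each coordinate whether it is constant, increasing or
decreasing on the line; `bigChk` runs through all `3^d` patterns. `B` is the mask of the codes of
all cells that are `0` in the active coordinates (arbitrary in the others), `a`, `b`, `c`, `e` are
the codes of the active parts at the times `0, 1, 2, 3`. So the lines of the pattern are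
`{x + a, x + b, x + c, x + e}`, `x` a code with bit in `B`, and at the leaf it is checked for all
`x` at once that not all four cells are in `A` (first test) and not all four are outside (second
test). `Nat.land`, `Nat.lor`, `Nat.shiftLeft`, `Nat.shiftRight`, `Nat.beq`, `Nat.add`, `Nat.mul`
are evaluated by the kernel with fast arithmetic; keep the definitions as they are.
-/

set_option autoImplicit false

namespace Pool.Agent.Lib_TTT

/-- Check of all lines. -/
def bigChk (m : ℕ) : ℕ → ℕ → ℕ → ℕ → ℕ → ℕ → ℕ → Bool → Bool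
  | 0, _, B, a, b, c, e, act =>
    cond act
      (Nat.beq (Nat.land B (Nat.land (Nat.land (Nat.shiftRight m a) (Nat.shiftRight m b))
          (Nat.land (Nat.shiftRight m c) (Nat.shiftRight m e)))) 0 &&
        Nat.beq (Nat.land B (Nat.lor (Nat.lor (Nat.shiftRight m a) (Nat.shiftRight m b))
          (Nat.lor (Nat.shiftRight m c) (Nat.shiftRight m e)))) B) true
  | n + 1, p, B, a, b, c, e, act =>
    bigChk m n (Nat.mul 4 p)
        (Nat.lor (Nat.lor B (Nat.shiftLeft B p))
          (Nat.lor (Nat.shiftLeft B (Nat.mul 2 p)) (Nat.shiftLeft B (Nat.mul 3 p))))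
        a b c e act &&
      (bigChk m n (Nat.mul 4 p) B a (Nat.add b p) (Nat.add c (Nat.mul 2 p))
          (Nat.add e (Nat.mul 3 p)) true &&
        bigChk m n (Nat.mul 4 p) B (Nat.add a (Nat.mul 3 p)) (Nat.add b (Nat.mul 2 p))
          (Nat.add c p) e true)

/-- The number of cells of the mask with code `a` plus a combination of the weights from `p`. -/
def bigCnt (m : ℕ) : ℕ → ℕ → ℕ → ℕ
  | 0, _, a => cond (Nat.beq (Nat.land (Nat.shiftRight m a) 1) 1) 1 0
  | n + 1, p, a =>
    Nat.add (Nat.add (bigCnt m n (Nat.mul 4 p) a) (bigCnt m n (Nat.mul 4 p) (Nat.add a p)))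
      (Nat.add (bigCnt m n (Nat.mul 4 p) (Nat.add a (Nat.mul 2 p)))
        (bigCnt m n (Nat.mul 4 p) (Nat.add a (Nat.mul 3 p))))

private def DrawBig_code {n : ℕ} (p : ℕ) (x : Fin n → Fin 4) : ℕ :=
  ∑ i, (x i : ℕ) * (p * 4 ^ (i : ℕ))

private theorem DrawBig_code_succ {n : ℕ} (p : ℕ) (x : Fin (n + 1) → Fin 4) :
    DrawBig_code p x = (x 0 : ℕ) * p + DrawBig_code (4 * p) (fun i => x i.succ) := by
  unfold DrawBig_code
  rw [Fin.sum_univ_succ]
  congr 1
  · simp
  · refine Finset.sum_congr rfl fun i _ => ?_
    rw [Fin.val_succ, pow_succ]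
    ring

private theorem DrawBig_cnt_eq (m : ℕ) : ∀ (n p a : ℕ),
    (∑ x : Fin n → Fin 4, if Nat.testBit m (a + DrawBig_code p x) = true then 1 else 0) =
      bigCnt m n p a := by
  intro n
  induction n with
  | zero =>
    intro p a
    rw [Fintype.sum_unique]
    simp only [DrawBig_code, Finset.univ_eq_empty, Finset.sum_empty, Nat.add_zero, bigCnt]
    have h : Nat.beq (Nat.land (Nat.shiftRight m a) 1) 1 = Nat.testBit m a := by
      rw [Nat.testBit_eq_decide_div_mod_eq]
      have h1 : Nat.land (Nat.shiftRight m a) 1 = m / 2 ^ a % 2 := by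
        change (m >>> a) &&& 1 = _
        rw [Nat.and_one_is_mod, Nat.shiftRight_eq_div_pow]
      rw [h1]
      generalize m / 2 ^ a % 2 = y
      by_cases hy : y = 1
      · subst hy
        rfl
      · rw [decide_eq_false hy]
        exact Bool.eq_false_iff.2 (fun h => hy (Nat.eq_of_beq_eq_true h))
    rw [h]
    cases Nat.testBit m a <;> rfl
  | succ n ih =>
    intro p a
    rw [← (Fin.consEquiv (fun _ : Fin (n + 1) => Fin 4)).sum_comp, Fintype.sum_prod_type,
      Fin.sum_univ_four]
    have h : ∀ (v : Fin 4) (x : Fin n → Fin 4),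
        a + DrawBig_code p ((Fin.consEquiv (fun _ : Fin (n + 1) => Fin 4)) (v, x)) =
          (a + (v : ℕ) * p) + DrawBig_code (4 * p) x := by
      intro v x
      rw [DrawBig_code_succ]
      simp [Fin.consEquiv, add_assoc]
    simp only [h, ih]
    simp only [bigCnt, Nat.mul_eq, Nat.add_eq]
    simp [add_assoc]

private theorem DrawBig_shift (B p x : ℕ) (h : Nat.testBit B x = true) :
    Nat.testBit (Nat.shiftLeft B p) (x + p) = true := by
  change Nat.testBit (B <<< p) (x + p) = true
  rw [Nat.testBit_shiftLeft]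
  simp [h]

private theorem DrawBig_lor (a b x : ℕ) :
    Nat.testBit (Nat.lor a b) x = (Nat.testBit a x || Nat.testBit b x) := Nat.testBit_or a b x

private theorem DrawBig_land (a b x : ℕ) :
    Nat.testBit (Nat.land a b) x = (Nat.testBit a x && Nat.testBit b x) := Nat.testBit_and a b x

private theorem DrawBig_shr (m a x : ℕ) :
    Nat.testBit (Nat.shiftRight m a) x = Nat.testBit m (a + x) := Nat.testBit_shiftRight m

private theorem DrawBig_line (m : ℕ) : ∀ (n p B : ℕ) (s : Fin 4 → ℕ) (act : Bool),
    bigChk m n p B (s 0) (s 1) (s 2) (s 3) act = true →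
    ∀ x : ℕ, Nat.testBit B x = true →
    ∀ f : Fin 4 → Fin n → Fin 4,
      (∀ j, (∀ i i', f i j = f i' j) ∨ (∀ i, f i j = i) ∨ (∀ i, f i j = Fin.rev i)) →
      (act = true ∨ ∃ j i i', f i j ≠ f i' j) →
      (∃ i, Nat.testBit m (s i + x + DrawBig_code p (f i)) = false) ∧
        ∃ i, Nat.testBit m (s i + x + DrawBig_code p (f i)) = true := by
  intro n
  induction n with
  | zero =>
    intro p B s act h x hx f _ hact
    have ha : act = true := by
      rcases hact with h | ⟨j, _⟩
      · exact h
      · exact j.elim0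
    subst ha
    have hc : ∀ i, DrawBig_code p (f i) = 0 := fun i => by simp [DrawBig_code]
    simp only [hc, Nat.add_zero]
    simp only [bigChk, cond_true, Bool.and_eq_true] at h
    obtain ⟨h1, h2⟩ := h
    have h1' := Nat.eq_of_beq_eq_true h1
    have h2' := Nat.eq_of_beq_eq_true h2
    constructor
    · have h3 := congrArg (fun t => Nat.testBit t x) h1'
      simp only [DrawBig_land, DrawBig_shr, Nat.zero_testBit, hx, Bool.true_and,
        Bool.and_eq_false_iff] at h3
      rcases h3 with (h3 | h3) | (h3 | h3)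
      · exact ⟨0, h3⟩
      · exact ⟨1, h3⟩
      · exact ⟨2, h3⟩
      · exact ⟨3, h3⟩
    · have h3 := congrArg (fun t => Nat.testBit t x) h2'
      simp only [DrawBig_land, DrawBig_lor, DrawBig_shr, hx, Bool.true_and,
        Bool.or_eq_true] at h3
      rcases h3 with (h3 | h3) | (h3 | h3)
      · exact ⟨0, h3⟩
      · exact ⟨1, h3⟩
      · exact ⟨2, h3⟩
      · exact ⟨3, h3⟩
  | succ n ih =>
    intro p B s act h x hx f hf hact
    simp only [bigChk, Bool.and_eq_true, Nat.mul_eq, Nat.add_eq] at h
    obtain ⟨h0, h1, h2⟩ := h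
    rcases hf 0 with hc | hc | hc
    · -- constant coordinate
      have hact' : act = true ∨ ∃ j : Fin n, ∃ i i', f i j.succ ≠ f i' j.succ := by
        rcases hact with h | ⟨j, i, i', hj⟩
        · exact Or.inl h
        · refine Or.inr ?_
          have hj0 : j ≠ 0 := by
            rintro rfl
            exact hj (hc i i')
          obtain ⟨j', rfl⟩ := Fin.exists_succ_eq.2 hj0
          exact ⟨j', i, i', hj⟩
      have hx' : Nat.testBit (Nat.lor (Nat.lor B (Nat.shiftLeft B p))
          (Nat.lor (Nat.shiftLeft B (2 * p)) (Nat.shiftLeft B (3 * p))))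
          (x + (f 0 0 : ℕ) * p) = true := by
        simp only [DrawBig_lor, Bool.or_eq_true]
        generalize f 0 0 = v
        fin_cases v
        · exact Or.inl (Or.inl (by simpa using hx))
        · exact Or.inl (Or.inr (by simpa using DrawBig_shift B p x hx))
        · exact Or.inr (Or.inl (DrawBig_shift B (2 * p) x hx))
        · exact Or.inr (Or.inr (DrawBig_shift B (3 * p) x hx))
      have h8 := ih (4 * p) _ s act h0 _ hx' (fun i j => f i j.succ) (fun j => hf j.succ) hact'
      have h9 : ∀ i, s i + (x + (f 0 0 : ℕ) * p) + DrawBig_code (4 * p) (fun j => f i j.succ) =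
          s i + x + DrawBig_code p (f i) := by
        intro i
        rw [DrawBig_code_succ, hc i 0]
        ring
      simpa only [h9] using h8
    · -- increasing coordinate
      have h8 := ih (4 * p) B (fun i => s i + (i : ℕ) * p) true (by simpa using h1) x hx
        (fun i j => f i j.succ) (fun j => hf j.succ) (Or.inl rfl)
      have h9 : ∀ i : Fin 4, s i + (i : ℕ) * p + x +
          DrawBig_code (4 * p) (fun j => f i j.succ) = s i + x + DrawBig_code p (f i) := by
        intro i
        rw [DrawBig_code_succ, hc i]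
        ring
      simpa only [h9] using h8
    · -- decreasing coordinate
      have e0 : ((Fin.rev (0 : Fin 4) : Fin 4) : ℕ) = 3 := rfl
      have e1 : ((Fin.rev (1 : Fin 4) : Fin 4) : ℕ) = 2 := rfl
      have e2 : ((Fin.rev (2 : Fin 4) : Fin 4) : ℕ) = 1 := rfl
      have e3 : ((Fin.rev (3 : Fin 4) : Fin 4) : ℕ) = 0 := rfl
      have h8 := ih (4 * p) B (fun i => s i + (Fin.rev i : ℕ) * p) true
        (by rw [e0, e1, e2, e3]; simpa using h2) x hx
        (fun i j => f i j.succ) (fun j => hf j.succ) (Or.inl rfl)
      have h9 : ∀ i : Fin 4, s i + (Fin.rev i : ℕ) * p + x +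
          DrawBig_code (4 * p) (fun j => f i j.succ) = s i + x + DrawBig_code p (f i) := by
        intro i
        rw [DrawBig_code_succ, hc i]
        ring
      simpa only [h9] using h8

theorem draw_of_chk (d m : ℕ) (h1 : bigChk m d 1 1 0 0 0 0 false = true)
    (h2 : Nat.beq (Nat.mul 2 (bigCnt m d 1 0)) (4 ^ d) = true) : HasDraw d := by
  have h2' : 2 * bigCnt m d 1 0 = 4 ^ d := Nat.eq_of_beq_eq_true h2
  refine ⟨Finset.univ.filter fun x => Nat.testBit m (0 + DrawBig_code 1 x) = true, ?_, ?_⟩
  · rw [Finset.card_filter, DrawBig_cnt_eq]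
    simp only [Fintype.card_pi, Fintype.card_fin, Finset.prod_const, Finset.card_univ]
    omega
  · rintro e ⟨f, hf, ha, rfl⟩
    obtain ⟨⟨i, hi⟩, j, hj⟩ := DrawBig_line m d 1 1 (fun _ => 0) false h1 0 (by decide) f hf
      (Or.inr ha)
    refine ⟨⟨f i, Finset.mem_image_of_mem _ (Finset.mem_univ _), ?_⟩,
      f j, Finset.mem_image_of_mem _ (Finset.mem_univ _), ?_⟩
    · rw [Finset.mem_filter]
      rintro ⟨-, h⟩
      rw [hi] at h
      exact Bool.false_ne_true h
    · rw [Finset.mem_filter]
      exact ⟨Finset.mem_univ _, hj⟩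

end Pool.Agent.Lib_TTT
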