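import Pool.Agent.Lib_TTT.Defs

/-!
Drawing positions of `4^6`, `4^7` and `4^8`.

Structured colouring. For a cell `x` let `U(x)` be the set of the coordinates with value `1` or `2`
and `s(x)` the set of the coordinates with value `2` or `3`. The colour of `x` is
`f(U) + |a(U) ∩ s(x)| mod 2`, where `a(U)` is a nonempty set of coordinates. On a line with active
set `S` the points `0, 3` have `U = A`, the points `1, 2` have `U = B = A ∪ S`, the sets `s` of the
points `0, 3` differ by `S`, also those of `1, 2`, and those of `0, 1` are equal. So the line is not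
monochromatic if `|a(A) ∩ S|` is odd or `|a(B) ∩ S|` is odd or `a(A) = a(B)`, `f(A) ≠ f(B)`.
Reflecting one coordinate of `a(U)` changes the colour, so exactly half of the cells has colour `1`.
The tables `a`, `f` were found with a SAT solver.
-/

set_option autoImplicit false

namespace Pool.Agent.Lib_TTT

/-- The table of the sets `a(U)` for `4^6`, eight bits for each `U`. -/
def drawT6 : ℕ :=
  0x383f3f3a3f393c3f27191a27142727190f21320f340f0f32372828372837372817290a172c17172c1f30301f301f1f302f18182f182f2f180703060705070707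

/-- The table of the bits `f(U)` for `4^6`. -/
def drawF6 : ℕ :=
  0x68e8e881e8818117

/-- The table of the sets `a(U)` for `4^7`, eight bits for each `U`. -/
def drawT7 : ℕ :=
  0x7f172e655c394b72395c724b171d652e724b395c652e177f2e653a174b725c39652e1727724b395c4b725c392e657f175c394b7274172e65177f652e395c724b4b725c392e654e17652e177f724b395c1753652e395c724b5c394b727f172e65395c724b177f652e69172e655c394b722e657f174b725c39724b395c652e177f

/-- The table of the bits `f(U)` for `4^7`. -/
def drawF7 : ℕ :=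
  0x7ffeffe8feeae8c0fef8e888ec80a001

/-- The table of the sets `a(U)` for `4^8`, eight bits for each `U`. -/
def drawT8 : ℕ :=
  0x80e5cbd6d6cbe5879daeb3f8f8b3ae9db3f89daeae9df8b3cbd680e5e588d6cbae9df8b3b3f89daee580d6cbcbd6a0e5d6cbe59080e5cbd6f8b3ae9d9daeb3f8f8b3ae9d9daeb3f8d6cbe5c0c0e5cbd6e5c0d6cbcbd6c0e5ae9df8b3b3f89daecbd6c0e5e5c0d6cbb3f89daeae9df8b39daeb3f8f8b3ae9dc0e5cbd6d6cbe5c0c0e5cbd6d6cbe5c09daeb3f8f8b3ae9db3f89daeae9df8b3cbd6c0e5e5c0d6cbae9df8b3b3f89daee5c0d6cbcbd6c0e5d6cbe5c0c0e5cbd6f8b3ae9d9daeb3f8f8b3ae9d9daeb3f8d6cbe58482e5cbd6e584d6cbcbd681e5ae9df8b3b3f89daecbd681e5e582d6cbb3f89daeae9df8b39daeb3f8f8b3ae9d87e5cbd6d6cbe580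

/-- The table of the bits `f(U)` for `4^8`. -/
def drawF8 : ℕ :=
  0x1fefe37fe571f80fe0715801380807ffee6bcc8daa8e0017fe8e8a4e8c29881

/-- A bit as an element of `ZMod 2`. -/
private def DrawS_zb (b : Bool) : ZMod 2 := if b = true then 1 else 0

private def DrawS_u (v : Fin 4) : Bool := decide (v = 1) || decide (v = 2)

private def DrawS_s (v : Fin 4) : Bool := decide (v = 2) || decide (v = 3)

/-- Parity of the `k` lowest bits. -/
private def DrawS_par : ℕ → ℕ → Bool
  | 0, _ => false
  | k + 1, n => xor (Nat.beq (Nat.mod n 2) 1) (DrawS_par k (Nat.div n 2))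

/-- One of the `k` lowest bits is set. -/
private def DrawS_ex : ℕ → ℕ → Bool
  | 0, _ => false
  | k + 1, n => Nat.beq (Nat.mod n 2) 1 || DrawS_ex k (Nat.div n 2)

private def DrawS_all : ℕ → (ℕ → Bool) → Bool
  | 0, _ => true
  | n + 1, p => p n && DrawS_all n p

private theorem DrawS_all_spec (n : ℕ) (p : ℕ → Bool) (h : DrawS_all n p = true) :
    ∀ i, i < n → p i = true := by
  induction n with
  | zero => intro i hi; omega
  | succ n ih =>
    intro i hi
    unfold DrawS_all at h
    rw [Bool.and_eq_true] at h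
    rcases Nat.lt_succ_iff_lt_or_eq.mp hi with h1 | h1
    · exact ih h.2 i h1
    · rw [h1]; exact h.1

private theorem DrawS_bit0 (n : ℕ) : Nat.beq (Nat.mod n 2) 1 = n.testBit 0 := by
  rw [Nat.testBit_zero]
  show Nat.beq (n % 2) 1 = decide (n % 2 = 1)
  rcases Nat.mod_two_eq_zero_or_one n with h | h <;> rw [h] <;> rfl

private theorem DrawS_par_spec (k n : ℕ) :
    DrawS_zb (DrawS_par k n) = ∑ i : Fin k, DrawS_zb (n.testBit i) := by
  induction k generalizing n with
  | zero => simp [DrawS_par, DrawS_zb]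
  | succ k ih =>
    unfold DrawS_par
    rw [Fin.sum_univ_succ, DrawS_bit0]
    have h1 : ∀ i : Fin k, n.testBit (i.succ : Fin (k + 1)) = (Nat.div n 2).testBit i := by
      intro i
      rw [Fin.val_succ, Nat.testBit_succ]
      rfl
    have h2 : ∀ a b : Bool, DrawS_zb (xor a b) = DrawS_zb a + DrawS_zb b := by decide
    rw [h2, ih]
    simp only [h1]
    rfl

private theorem DrawS_ex_spec (k n : ℕ) (h : DrawS_ex k n = true) :
    ∃ i : Fin k, n.testBit i = true := by
  induction k generalizing n with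
  | zero => simp [DrawS_ex] at h
  | succ k ih =>
    unfold DrawS_ex at h
    rw [Bool.or_eq_true, DrawS_bit0] at h
    rcases h with h | h
    · exact ⟨0, h⟩
    · obtain ⟨i, hi⟩ := ih _ h
      refine ⟨i.succ, ?_⟩
      rw [Fin.val_succ, Nat.testBit_succ]
      exact hi

/-- The set `a(U)`. -/
private def DrawS_tab (T U : ℕ) : ℕ := Nat.land (Nat.shiftRight T (Nat.mul 8 U)) 255

/-- The bit `f(U)`. -/
private def DrawS_f (F U : ℕ) : Bool := Nat.beq (Nat.mod (Nat.shiftRight F U) 2) 1

/-- The condition for the pair `A ⊂ B`. -/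
private def DrawS_leaf (d T F A B : ℕ) : Bool :=
  DrawS_par d (Nat.land (DrawS_tab T A) (Nat.xor A B)) ||
    DrawS_par d (Nat.land (DrawS_tab T B) (Nat.xor A B)) ||
    (Nat.beq (DrawS_tab T A) (DrawS_tab T B) && xor (DrawS_f F A) (DrawS_f F B))

private def DrawS_chk (d T F N : ℕ) : Bool :=
  DrawS_all N (fun B => DrawS_ex d (DrawS_tab T B) && DrawS_all N (fun A =>
    !(Nat.beq (Nat.land A B) A) || Nat.beq A B || DrawS_leaf d T F A B))

section
variable {d : ℕ}

private def DrawS_uc (x : Fin d → Fin 4) : ℕ := Nat.ofBits (fun i => DrawS_u (x i))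

private def DrawS_col (T F : ℕ) (x : Fin d → Fin 4) : ZMod 2 :=
  DrawS_zb (DrawS_f F (DrawS_uc x)) +
    ∑ i : Fin d, DrawS_zb ((DrawS_tab T (DrawS_uc x)).testBit i) * DrawS_zb (DrawS_s (x i))

private theorem DrawS_tb (g : Fin d → Bool) (i : Fin d) : (Nat.ofBits g).testBit i = g i := by
  rw [Nat.testBit_ofBits_lt _ _ i.2]

private theorem DrawS_uc_lt (x : Fin d → Fin 4) : DrawS_uc x < 2 ^ d := Nat.ofBits_lt_two_pow _

private theorem DrawS_fact (T : ℕ) (g : ℕ) (a b : Fin d → Bool) (hg : g = DrawS_tab T g ∨ True) :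
    DrawS_zb (DrawS_par d (Nat.land g (Nat.xor (Nat.ofBits a) (Nat.ofBits b)))) =
      ∑ i : Fin d, DrawS_zb (g.testBit i) * DrawS_zb (xor (a i) (b i)) := by
  rw [DrawS_par_spec]
  refine Finset.sum_congr rfl fun i _ => ?_
  have h1 : (Nat.land g (Nat.xor (Nat.ofBits a) (Nat.ofBits b))).testBit i =
      (g.testBit i && xor (a i) (b i)) := by
    have h2 : Nat.land g (Nat.xor (Nat.ofBits a) (Nat.ofBits b)) =
        g &&& (Nat.ofBits a ^^^ Nat.ofBits b) := rfl
    rw [h2, Nat.testBit_and, Nat.testBit_xor, DrawS_tb, DrawS_tb]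
  rw [h1]
  have h3 : ∀ a b : Bool, DrawS_zb (a && b) = DrawS_zb a * DrawS_zb b := by decide
  exact h3 _ _

private theorem DrawS_line (T F : ℕ) (hd : DrawS_chk d T F (2 ^ d) = true)
    (f : Fin 4 → Fin d → Fin 4)
    (h1 : ∀ j, (∀ i i', f i j = f i' j) ∨ (∀ i, f i j = i) ∨ (∀ i, f i j = Fin.rev i))
    (h2 : ∃ j i i', f i j ≠ f i' j) :
    ¬ (DrawS_col T F (f 0) = DrawS_col T F (f 1) ∧ DrawS_col T F (f 1) = DrawS_col T F (f 2) ∧
      DrawS_col T F (f 2) = DrawS_col T F (f 3)) := by
  rintro ⟨e01, e12, e23⟩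
  set a : Fin d → Bool := fun i => DrawS_u (f 0 i) with ha
  set b : Fin d → Bool := fun i => DrawS_u (f 1 i) with hb
  set A := Nat.ofBits a with hA
  set B := Nat.ofBits b with hB
  have key : ∀ j, (DrawS_u (f 3 j) = a j ∧ DrawS_u (f 2 j) = b j ∧
      DrawS_zb (DrawS_s (f 3 j)) = DrawS_zb (DrawS_s (f 0 j)) + DrawS_zb (xor (a j) (b j)) ∧
      DrawS_zb (DrawS_s (f 2 j)) = DrawS_zb (DrawS_s (f 1 j)) + DrawS_zb (xor (a j) (b j)) ∧
      DrawS_s (f 0 j) = DrawS_s (f 1 j) ∧ (a j = true → b j = true) ∧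
      (a j = b j → ∀ i i', f i j = f i' j)) := by
    intro j
    simp only [ha, hb]
    rcases h1 j with h | h | h
    · rw [h 3 0, h 2 0, h 1 0]
      refine ⟨rfl, rfl, ?_, ?_, rfl, fun h => h, fun _ => h⟩ <;>
      · rw [Bool.xor_self]
        simp [DrawS_zb]
    · rw [h 3, h 2, h 1, h 0]
      refine ⟨by decide, by decide, by decide, by decide, by decide, by decide, ?_⟩
      intro h'
      exact absurd h' (by decide)
    · rw [h 3, h 2, h 1, h 0]
      refine ⟨by decide, by decide, by decide, by decide, by decide, by decide, ?_⟩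
      intro h'
      exact absurd h' (by decide)
  have uc3 : DrawS_uc (f 3) = A := by
    unfold DrawS_uc
    rw [hA]
    congr 1
    funext j
    exact (key j).1
  have uc2 : DrawS_uc (f 2) = B := by
    unfold DrawS_uc
    rw [hB]
    congr 1
    funext j
    exact (key j).2.1
  have uc0 : DrawS_uc (f 0) = A := rfl
  have uc1 : DrawS_uc (f 1) = B := rfl
  have hAB : Nat.land A B = A := by
    apply Nat.eq_of_testBit_eq
    intro i
    have h3 : Nat.land A B = A &&& B := rfl
    rw [h3, Nat.testBit_and]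
    by_cases hi : i < d
    · have h4 : A.testBit i = a ⟨i, hi⟩ := Nat.testBit_ofBits_lt _ _ hi
      have h5 : B.testBit i = b ⟨i, hi⟩ := Nat.testBit_ofBits_lt _ _ hi
      rw [h4, h5]
      have h6 := (key ⟨i, hi⟩).2.2.2.2.2.1
      cases h7 : a ⟨i, hi⟩
      · rfl
      · rw [h6 h7]; rfl
    · have h4 : A.testBit i = false := Nat.testBit_ofBits_ge _ _ (not_lt.mp hi)
      rw [h4]
      rfl
  have hne : A ≠ B := by
    intro hcon
    obtain ⟨j, i, i', hj⟩ := h2
    apply hj
    apply (key j).2.2.2.2.2.2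
    have h4 : A.testBit j = a j := DrawS_tb _ _
    have h5 : B.testBit j = b j := DrawS_tb _ _
    rw [← h4, ← h5, hcon]
  have c1 := DrawS_all_spec _ _ hd B (Nat.ofBits_lt_two_pow _)
  simp only [Bool.and_eq_true] at c1
  have c2 := DrawS_all_spec _ _ c1.2 A (Nat.ofBits_lt_two_pow _)
  have hb1 : Nat.beq (Nat.land A B) A = true := by rw [hAB]; exact Nat.beq_refl A
  have hb2 : Nat.beq A B = false := by
    cases h : Nat.beq A B
    · rfl
    · exact absurd (Nat.eq_of_beq_eq_true h) hne
  simp only [hb1, hb2, Bool.not_true, Bool.false_or] at c2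
  unfold DrawS_leaf at c2
  rw [Bool.or_eq_true, Bool.or_eq_true] at c2
  have dA : DrawS_col T F (f 3) = DrawS_col T F (f 0) +
      DrawS_zb (DrawS_par d (Nat.land (DrawS_tab T A) (Nat.xor A B))) := by
    unfold DrawS_col
    rw [uc3, uc0, hA, hB, DrawS_fact T _ a b (Or.inr trivial), add_assoc,
      ← Finset.sum_add_distrib]
    congr 1
    refine Finset.sum_congr rfl fun j _ => ?_
    rw [(key j).2.2.1]
    ring
  have dB : DrawS_col T F (f 2) = DrawS_col T F (f 1) +
      DrawS_zb (DrawS_par d (Nat.land (DrawS_tab T B) (Nat.xor A B))) := by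
    unfold DrawS_col
    rw [uc2, uc1, hA, hB, DrawS_fact T _ a b (Or.inr trivial), add_assoc,
      ← Finset.sum_add_distrib]
    congr 1
    refine Finset.sum_congr rfl fun j _ => ?_
    rw [(key j).2.2.2.1]
    ring
  have hz : ∀ (b : Bool) (x y : ZMod 2), x = y + DrawS_zb b → x = y → b = false := by decide
  rcases c2 with (c2 | c2) | c2
  · have := hz _ _ _ dA (by rw [← e23, ← e12, ← e01])
    rw [c2] at this
    exact absurd this (by decide)
  · have := hz _ _ _ dB e12.symm
    rw [c2] at this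
    exact absurd this (by decide)
  · rw [Bool.and_eq_true] at c2
    have ht : DrawS_tab T A = DrawS_tab T B := Nat.eq_of_beq_eq_true c2.1
    have h5 : DrawS_col T F (f 0) + DrawS_zb (DrawS_f F B) =
        DrawS_col T F (f 1) + DrawS_zb (DrawS_f F A) := by
      unfold DrawS_col
      rw [uc0, uc1, ht]
      have h6 : ∑ i : Fin d, DrawS_zb ((DrawS_tab T B).testBit i) * DrawS_zb (DrawS_s (f 0 i)) =
          ∑ i : Fin d, DrawS_zb ((DrawS_tab T B).testBit i) * DrawS_zb (DrawS_s (f 1 i)) := by
        refine Finset.sum_congr rfl fun j _ => ?_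
        rw [(key j).2.2.2.2.1]
      rw [h6]
      ring
    rw [e01] at h5
    have h7 := add_left_cancel h5
    have h8 : ∀ a b : Bool, DrawS_zb a = DrawS_zb b → xor b a = false := by decide
    have h9 := h8 _ _ h7
    rw [c2.2] at h9
    exact absurd h9 (by decide)

/-- Exactly half of the cells has colour `1`. -/
private theorem DrawS_half (T F : ℕ) (hd : DrawS_chk d T F (2 ^ d) = true) :
    (Finset.univ.filter fun x : Fin d → Fin 4 => DrawS_col T F x = 1).card =
      (Fintype.card (Fin d → Fin 4) + 1) / 2 := by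
  have hex : ∀ U, U < 2 ^ d → ∃ i : Fin d, (DrawS_tab T U).testBit i = true := by
    intro U hU
    have c1 := DrawS_all_spec _ _ hd U hU
    simp only [Bool.and_eq_true] at c1
    exact DrawS_ex_spec _ _ c1.1
  obtain ⟨i0, _⟩ := hex 0 (Nat.two_pow_pos d)
  have : Nonempty (Fin d) := ⟨i0⟩
  choose! g hg using hex
  set φ : (Fin d → Fin 4) → (Fin d → Fin 4) := fun x =>
    Function.update x (g (DrawS_uc x)) (Fin.rev (x (g (DrawS_uc x)))) with hφ
  have hu : ∀ x, DrawS_uc (φ x) = DrawS_uc x := by
    intro x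
    unfold DrawS_uc
    congr 1
    funext j
    rw [hφ]
    by_cases hj : j = g (DrawS_uc x)
    · subst hj
      simp only [Function.update_self]
      have : ∀ v : Fin 4, DrawS_u (Fin.rev v) = DrawS_u v := by decide
      exact this _
    · simp only [Function.update_of_ne hj]
  have hinv : ∀ x, φ (φ x) = x := by
    intro x
    have h1 : φ (φ x) = Function.update (φ x) (g (DrawS_uc x))
        (Fin.rev (φ x (g (DrawS_uc x)))) := by
      conv_lhs => rw [hφ]
      simp only
      rw [hu x]
    rw [h1]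
    simp only [hφ, Function.update_self, Function.update_idem, Fin.rev_rev,
      Function.update_eq_self]
  have hc : ∀ x, DrawS_col T F (φ x) = DrawS_col T F x + 1 := by
    intro x
    unfold DrawS_col
    rw [hu x, add_assoc]
    congr 1
    rw [← Finset.add_sum_erase Finset.univ _ (Finset.mem_univ (g (DrawS_uc x))),
      ← Finset.add_sum_erase Finset.univ (fun i : Fin d =>
        DrawS_zb ((DrawS_tab T (DrawS_uc x)).testBit i) *
        DrawS_zb (DrawS_s (x i))) (Finset.mem_univ (g (DrawS_uc x)))]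
    have h1 : ∑ i ∈ Finset.univ.erase (g (DrawS_uc x)),
        DrawS_zb ((DrawS_tab T (DrawS_uc x)).testBit i) * DrawS_zb (DrawS_s (φ x i)) =
        ∑ i ∈ Finset.univ.erase (g (DrawS_uc x)),
        DrawS_zb ((DrawS_tab T (DrawS_uc x)).testBit i) * DrawS_zb (DrawS_s (x i)) := by
      refine Finset.sum_congr rfl fun i hi => ?_
      rw [hφ]
      simp only [Function.update_of_ne (Finset.ne_of_mem_erase hi)]
    rw [h1]
    have h2 : DrawS_zb (DrawS_s (φ x (g (DrawS_uc x)))) =
        DrawS_zb (DrawS_s (x (g (DrawS_uc x)))) + 1 := by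
      rw [hφ]
      simp only [Function.update_self]
      have : ∀ v : Fin 4, DrawS_zb (DrawS_s (Fin.rev v)) = DrawS_zb (DrawS_s v) + 1 := by decide
      exact this _
    rw [h2, hg _ (DrawS_uc_lt x)]
    have h3 : DrawS_zb true = 1 := rfl
    rw [h3]
    ring
  have hcard : (Finset.univ.filter fun x : Fin d → Fin 4 => DrawS_col T F x = 1).card =
      (Finset.univ.filter fun x : Fin d → Fin 4 => ¬ DrawS_col T F x = 1).card := by
    refine Finset.card_nbij' φ φ ?_ ?_ (fun x _ => hinv x) (fun x _ => hinv x)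
    · intro x hx
      have hx' : DrawS_col T F x = 1 := by simpa using hx
      have h1 : ¬ DrawS_col T F (φ x) = 1 := by
        rw [hc x, hx']
        decide
      simpa using h1
    · intro x hx
      have hx' : ¬ DrawS_col T F x = 1 := by simpa using hx
      have h1 : DrawS_col T F (φ x) = 1 := by
        rw [hc x]
        have : ∀ z : ZMod 2, ¬ z = 1 → z + 1 = 1 := by decide
        exact this _ hx'
      simpa using h1
  have htot := Finset.card_filter_add_card_filter_not (s := (Finset.univ : Finset (Fin d → Fin 4)))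
    (fun x => DrawS_col T F x = 1)
  rw [← hcard, Finset.card_univ] at htot
  omega

private theorem DrawS_main (T F : ℕ) (hd : DrawS_chk d T F (2 ^ d) = true) : HasDraw d := by
  refine ⟨Finset.univ.filter fun x : Fin d → Fin 4 => DrawS_col T F x = 1,
    DrawS_half T F hd, ?_⟩
  rintro e ⟨f, h1, h2, rfl⟩
  have hz : ∀ z : ZMod 2, ¬ z = 1 → z = 0 := by decide
  have hl := DrawS_line T F hd f h1 h2
  constructor
  · by_contra hcon
    push Not at hcon
    apply hl
    have h3 : ∀ i, DrawS_col T F (f i) = 1 := by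
      intro i
      have := hcon (f i) (Finset.mem_image_of_mem _ (Finset.mem_univ i))
      simpa using this
    rw [h3 0, h3 1, h3 2, h3 3]
    exact ⟨rfl, rfl, rfl⟩
  · by_contra hcon
    push Not at hcon
    apply hl
    have h3 : ∀ i, DrawS_col T F (f i) = 0 := by
      intro i
      have := hcon (f i) (Finset.mem_image_of_mem _ (Finset.mem_univ i))
      exact hz _ (by simpa using this)
    rw [h3 0, h3 1, h3 2, h3 3]
    exact ⟨rfl, rfl, rfl⟩

end

theorem hasDraw6 : HasDraw 6 := DrawS_main drawT6 drawF6 (by decide +kernel)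

theorem hasDraw7 : HasDraw 7 := DrawS_main drawT7 drawF7 (by decide +kernel)

theorem hasDraw8 : HasDraw 8 := DrawS_main drawT8 drawF8 (by decide +kernel)

end Pool.Agent.Lib_TTT
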