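import Pool.Agent.Lib_TTT.Defs

/-!
Subspaces given by blocks of coordinates.

`ℓ : Fin d → Fin k` divides the coordinates into `k` blocks; `emb ℓ` embeds `4^k` in `4^d`.
A line of `4^d` with two points in the subspace lies in it (two words that agree at two times are
equal): `line_cases`. `Far ℓ z`: no line through `z` meets the subspace.
-/

set_option autoImplicit false

namespace Pool.Agent.Lib_TTT

variable {d k : ℕ}

/-- The embedding of `4^k` in `4^d`. -/
def emb (ℓ : Fin d → Fin k) (y : Pt k) : Pt d := fun j => y (ℓ j)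

/-- `x` lies in the subspace. -/
def InSub (ℓ : Fin d → Fin k) (x : Pt d) : Prop := ∀ i j, ℓ i = ℓ j → x i = x j

/-- No line through `z` meets the subspace. -/
def Far (ℓ : Fin d → Fin k) (z : Pt d) : Prop :=
  ∀ e, IsLn e → z ∈ e → ∀ x ∈ e, ¬ InSub ℓ x

/-- Two pairs of values that no pair of times can unify simultaneously. -/
def Cr (u v u' v' : Fin 4) : Prop :=
  u ≠ v ∧ u' ≠ v' ∧ ¬ (u' = u ∧ v' = v) ∧ ¬ (u' = v ∧ v' = u) ∧
    ¬ (u' = Fin.rev u ∧ v' = Fin.rev v) ∧ ¬ (u' = Fin.rev v ∧ v' = Fin.rev u)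

/-- Criterion for `Far`. -/
def Cross (ℓ : Fin d → Fin k) (z : Pt d) : Prop :=
  ∃ i j i' j', ℓ i = ℓ j ∧ ℓ i' = ℓ j' ∧ Cr (z i) (z j) (z i') (z j')

theorem emb_inj (ℓ : Fin d → Fin k) (hℓ : Function.Surjective ℓ) :
    Function.Injective (emb ℓ) := by
  intro y y' h
  funext b
  obtain ⟨j, rfl⟩ := hℓ b
  exact congrFun h j

theorem inSub_emb (ℓ : Fin d → Fin k) (y : Pt k) : InSub ℓ (emb ℓ y) := by
  intro i j h
  exact congrArg y h

theorem inSub_iff (ℓ : Fin d → Fin k) (hℓ : Function.Surjective ℓ) (x : Pt d) :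
    InSub ℓ x ↔ ∃ y, emb ℓ y = x := by
  constructor
  · intro h
    refine ⟨fun b => x (Function.surjInv hℓ b), ?_⟩
    funext j
    exact h _ _ (Function.surjInv_eq hℓ (ℓ j))
  · rintro ⟨y, rfl⟩
    exact inSub_emb ℓ y

/-- A column of a line. -/
private def ColEmb (c : Fin 4 → Fin 4) : Prop :=
  (∀ i i', c i = c i') ∨ (∀ i, c i = i) ∨ (∀ i, c i = Fin.rev i)

private theorem rev_ne_Emb : ∀ s : Fin 4, Fin.rev s ≠ s := by decide

private theorem colEmb_eq {c c' : Fin 4 → Fin 4} (hc : ColEmb c) (hc' : ColEmb c') {s t : Fin 4}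
    (hst : s ≠ t) (h1 : c s = c' s) (h2 : c t = c' t) (u : Fin 4) : c u = c' u := by
  rcases hc with hc | hc | hc <;> rcases hc' with hc' | hc' | hc'
  · rw [hc u s, h1, hc' s u]
  · exfalso
    apply hst
    rw [hc' s] at h1
    rw [hc' t] at h2
    rw [← h1, ← h2]
    exact hc s t
  · exfalso
    apply hst
    rw [hc' s] at h1
    rw [hc' t] at h2
    apply Fin.rev_injective
    rw [← h1, ← h2]
    exact hc s t
  · exfalso
    apply hst
    rw [hc s] at h1
    rw [hc t] at h2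
    rw [h1, h2]
    exact hc' s t
  · rw [hc, hc']
  · exfalso
    rw [hc s, hc' s] at h1
    exact rev_ne_Emb s h1.symm
  · exfalso
    apply hst
    rw [hc s] at h1
    rw [hc t] at h2
    apply Fin.rev_injective
    rw [h1, h2]
    exact hc' s t
  · exfalso
    rw [hc s, hc' s] at h1
    exact rev_ne_Emb s h1
  · rw [hc, hc']

private theorem colEmb_rev {c : Fin 4 → Fin 4} (hc : ColEmb c) :
    ColEmb (fun i => c (Fin.rev i)) := by
  rcases hc with hc | hc | hc
  · exact Or.inl fun i i' => hc _ _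
  · exact Or.inr (Or.inr fun i => hc _)
  · refine Or.inr (Or.inl fun i => ?_)
    show c (Fin.rev i) = i
    rw [hc, Fin.rev_rev]

/-- The times are determined up to reversal by a non-constant column. -/
private theorem colEmb_time {c c' : Fin 4 → Fin 4} (hc : ColEmb c) (hc' : ColEmb c')
    {s t s' t' : Fin 4} (h1 : c s = c' s') (h2 : c t = c' t') (hne : c s ≠ c t) :
    (s' = s ∧ t' = t) ∨ (s' = Fin.rev s ∧ t' = Fin.rev t) := by
  rcases hc with hc | hc | hc
  · exact absurd (hc s t) hne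
  · rcases hc' with hc' | hc' | hc'
    · exact absurd (by rw [h1, h2]; exact hc' _ _) hne
    · left
      rw [hc, hc'] at h1 h2
      exact ⟨h1.symm, h2.symm⟩
    · right
      rw [hc, hc'] at h1 h2
      rw [h1, h2, Fin.rev_rev, Fin.rev_rev]
      exact ⟨rfl, rfl⟩
  · rcases hc' with hc' | hc' | hc'
    · exact absurd (by rw [h1, h2]; exact hc' _ _) hne
    · right
      rw [hc, hc'] at h1 h2
      exact ⟨h1.symm, h2.symm⟩
    · left
      rw [hc, hc'] at h1 h2
      exact ⟨(Fin.rev_injective h1).symm, (Fin.rev_injective h2).symm⟩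

private theorem inj_Emb {f : Fin 4 → Fin d → Fin 4}
    (hf : ∀ j, (∀ i i', f i j = f i' j) ∨ (∀ i, f i j = i) ∨ (∀ i, f i j = Fin.rev i))
    (hn : ∃ j i i', f i j ≠ f i' j) : Function.Injective f := by
  obtain ⟨j, i, i', hne⟩ := hn
  intro a b hab
  have h := congrFun hab j
  rcases hf j with hc | hc | hc
  · exact absurd (hc i i') hne
  · rwa [hc, hc] at h
  · rw [hc, hc] at h
    exact Fin.rev_injective h

private theorem ne_col_Emb {f : Fin 4 → Fin d → Fin 4}
    (hf : ∀ j, (∀ i i', f i j = f i' j) ∨ (∀ i, f i j = i) ∨ (∀ i, f i j = Fin.rev i))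
    (hn : ∃ j i i', f i j ≠ f i' j) {s t : Fin 4} (hst : s ≠ t) : ∃ j, f s j ≠ f t j := by
  obtain ⟨j, i, i', hne⟩ := hn
  refine ⟨j, fun h => hst ?_⟩
  rcases hf j with hc | hc | hc
  · exact absurd (hc i i') hne
  · rwa [hc, hc] at h
  · rw [hc, hc] at h
    exact Fin.rev_injective h

/-- A line has four points. -/
theorem card_line {e : Finset (Pt d)} (he : IsLn e) : e.card = 4 := by
  obtain ⟨f, hf, hn, rfl⟩ := he
  rw [Finset.card_image_of_injective _ (inj_Emb hf hn)]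
  rfl

/-- Two different points lie on at most one line. -/
theorem line_unique {e e' : Finset (Pt d)} (he : IsLn e) (he' : IsLn e') {x y : Pt d}
    (hxy : x ≠ y) (hx : x ∈ e) (hy : y ∈ e) (hx' : x ∈ e') (hy' : y ∈ e') : e = e' := by
  obtain ⟨f, hf, hn, rfl⟩ := he
  obtain ⟨g, hg, hm, rfl⟩ := he'
  rw [Finset.mem_image] at hx hy hx' hy'
  obtain ⟨s, -, rfl⟩ := hx
  obtain ⟨t, -, rfl⟩ := hy
  obtain ⟨s', -, hs'⟩ := hx'
  obtain ⟨t', -, ht'⟩ := hy'
  have hst : s ≠ t := fun h => hxy (by rw [h])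
  obtain ⟨j, hj⟩ := ne_col_Emb hf hn hst
  have hcf : ∀ j, ColEmb (fun i => f i j) := fun j => hf j
  have hcg : ∀ j, ColEmb (fun i => g i j) := fun j => hg j
  have key := colEmb_time (c := fun i => f i j) (c' := fun i => g i j) (hcf j) (hcg j)
    (s := s) (t := t) (s' := s') (t' := t') (congrFun hs' j).symm (congrFun ht' j).symm hj
  rcases key with ⟨h1, h2⟩ | ⟨h1, h2⟩
  · subst h1
    subst h2
    have hfg : f = g := by
      funext u i
      exact colEmb_eq (c := fun v => f v i) (c' := fun v => g v i) (hcf i) (hcg i) hst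
        (congrFun hs' i).symm (congrFun ht' i).symm u
    rw [hfg]
  · subst h1
    subst h2
    have hfg : ∀ u, f u = g (Fin.rev u) := by
      intro u
      funext i
      exact colEmb_eq (c := fun v => f v i) (c' := fun v => g (Fin.rev v) i) (hcf i)
        (colEmb_rev (c := fun v => g v i) (hcg i)) hst
        (congrFun hs' i).symm (congrFun ht' i).symm u
    ext z
    simp only [Finset.mem_image, Finset.mem_univ, true_and]
    constructor
    · rintro ⟨u, rfl⟩
      exact ⟨Fin.rev u, (hfg u).symm⟩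
    · rintro ⟨u, rfl⟩
      refine ⟨Fin.rev u, ?_⟩
      rw [hfg, Fin.rev_rev]

/-- The image of a line is a line. -/
theorem line_emb (ℓ : Fin d → Fin k) (hℓ : Function.Surjective ℓ) {e : Finset (Pt k)}
    (he : IsLn e) : IsLn (e.image (emb ℓ)) := by
  obtain ⟨f, hf, hn, rfl⟩ := he
  refine ⟨fun i => emb ℓ (f i), fun j => hf (ℓ j), ?_, ?_⟩
  · obtain ⟨b, i, i', h⟩ := hn
    obtain ⟨j, rfl⟩ := hℓ b
    exact ⟨j, i, i', h⟩
  · rw [Finset.image_image]
    rfl

/-- A line lies in the subspace, where it comes from a line of `4^k`, or it has at most one point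
in the subspace. -/
theorem line_cases (ℓ : Fin d → Fin k) (hℓ : Function.Surjective ℓ) {e : Finset (Pt d)}
    (he : IsLn e) :
    (∃ e' : Finset (Pt k), IsLn e' ∧ e = e'.image (emb ℓ)) ∨
      ∀ x ∈ e, ∀ y ∈ e, InSub ℓ x → InSub ℓ y → x = y := by
  obtain ⟨f, hf, hn, rfl⟩ := he
  by_cases h : ∃ s t : Fin 4, s ≠ t ∧ InSub ℓ (f s) ∧ InSub ℓ (f t)
  · left
    obtain ⟨s, t, hst, h1, h2⟩ := h
    have hcf : ∀ j, ColEmb (fun i => f i j) := fun j => hf j
    have hsub : ∀ u, InSub ℓ (f u) := by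
      intro u i j hij
      exact colEmb_eq (c := fun v => f v i) (c' := fun v => f v j) (hcf i) (hcf j) hst
        (h1 i j hij) (h2 i j hij) u
    have hemb : ∀ u, emb ℓ (fun b => f u (Function.surjInv hℓ b)) = f u := by
      intro u
      funext j
      exact hsub u _ _ (Function.surjInv_eq hℓ (ℓ j))
    refine ⟨Finset.univ.image fun u b => f u (Function.surjInv hℓ b),
      ⟨fun u b => f u (Function.surjInv hℓ b), fun b => hf _, ?_, rfl⟩, ?_⟩
    · obtain ⟨j, hj⟩ := ne_col_Emb hf hn hst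
      refine ⟨ℓ j, s, t, fun h => hj ?_⟩
      have h3 := congrFun (hemb s) j
      have h4 := congrFun (hemb t) j
      rw [← h3, ← h4]
      exact h
    · rw [Finset.image_image]
      apply Finset.image_congr
      intro u _
      exact (hemb u).symm
  · right
    intro x hx y hy h1 h2
    rw [Finset.mem_image] at hx hy
    obtain ⟨s, -, rfl⟩ := hx
    obtain ⟨t, -, rfl⟩ := hy
    by_contra hne
    exact h ⟨s, t, fun hst => hne (by rw [hst]), h1, h2⟩

private theorem pair_Emb {c c' : Fin 4 → Fin 4} (hc : ColEmb c) (hc' : ColEmb c') {s t : Fin 4}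
    (h : c t = c' t) (hne : c s ≠ c' s) :
    (c s = t ∧ c' s = s) ∨ (c s = s ∧ c' s = t) ∨ (c s = Fin.rev t ∧ c' s = Fin.rev s) ∨
      (c s = Fin.rev s ∧ c' s = Fin.rev t) := by
  rcases hc with hc | hc | hc <;> rcases hc' with hc' | hc' | hc'
  · exact absurd (by rw [hc s t, h, hc' t s]) hne
  · left
    exact ⟨by rw [hc s t, h, hc'], hc' s⟩
  · right; right; left
    exact ⟨by rw [hc s t, h, hc'], hc' s⟩
  · right; left
    exact ⟨hc s, by rw [hc' s t, ← h, hc]⟩
  · exact absurd (by rw [hc, hc']) hne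
  · exfalso
    rw [hc, hc'] at h
    exact rev_ne_Emb t h.symm
  · right; right; right
    exact ⟨hc s, by rw [hc' s t, ← h, hc]⟩
  · exfalso
    rw [hc, hc'] at h
    exact rev_ne_Emb t h
  · exact absurd (by rw [hc, hc']) hne

/-- If a line through `z` (at the time `t₀`) met the subspace at the time `t₁ ≠ t₀`, then each
pair of different values of `z` in one block would be `{t₀, t₁}` or `{3 - t₀, 3 - t₁}`. -/
theorem far_of_cross (ℓ : Fin d → Fin k) {z : Pt d} (h : Cross ℓ z) : Far ℓ z := by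
  obtain ⟨i, j, i', j', hij, hij', h1, h2, h3, h4, h5, h6⟩ := h
  rintro e ⟨f, hf, hn, rfl⟩ hz x hx hs
  rw [Finset.mem_image] at hz hx
  obtain ⟨s, -, rfl⟩ := hz
  obtain ⟨t, -, rfl⟩ := hx
  have p := pair_Emb (c := fun v => f v i) (c' := fun v => f v j) (hf i) (hf j)
    (s := s) (t := t) (hs i j hij) h1
  have q := pair_Emb (c := fun v => f v i') (c' := fun v => f v j') (hf i') (hf j')
    (s := s) (t := t) (hs i' j' hij') h2
  rcases p with ⟨p1, p2⟩ | ⟨p1, p2⟩ | ⟨p1, p2⟩ | ⟨p1, p2⟩ <;>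
    rcases q with ⟨q1, q2⟩ | ⟨q1, q2⟩ | ⟨q1, q2⟩ | ⟨q1, q2⟩ <;>
    rw [p1, p2, q1, q2] at h3 h4 h5 h6 <;> simp [Fin.rev_rev] at h3 h4 h5 h6

/-- The points of a line through two given points (`a`, `b` at the times `t₀ ≠ t₁`). -/
theorem line_points {a b : Pt d} (hab : a ≠ b) {e : Finset (Pt d)} (he : IsLn e) (ha : a ∈ e)
    (hb : b ∈ e) : ∃ t₀ t₁ : Fin 4, t₀ ≠ t₁ ∧ ∀ z ∈ e, ∃ t : Fin 4, ∀ x,
      (a x = b x ∧ z x = a x) ∨ (a x = t₀ ∧ b x = t₁ ∧ z x = t) ∨
        (a x = Fin.rev t₀ ∧ b x = Fin.rev t₁ ∧ z x = Fin.rev t) := by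
  obtain ⟨f, hf, hn, rfl⟩ := he
  rw [Finset.mem_image] at ha hb
  obtain ⟨s, -, rfl⟩ := ha
  obtain ⟨t, -, rfl⟩ := hb
  refine ⟨s, t, fun h => hab (by rw [h]), ?_⟩
  intro z hz
  rw [Finset.mem_image] at hz
  obtain ⟨u, -, rfl⟩ := hz
  refine ⟨u, fun x => ?_⟩
  rcases hf x with hc | hc | hc
  · exact Or.inl ⟨hc _ _, hc _ _⟩
  · exact Or.inr (Or.inl ⟨hc _, hc _, hc _⟩)
  · exact Or.inr (Or.inr ⟨hc _, hc _, hc _⟩)

end Pool.Agent.Lib_TTT
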