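import Pool.Agent.Lib_TTT.Core
import Pool.Agent.Lib_TTT.Defs

/-!
Meaning of the masks of `Core.lean`: codes of cells and of words, incidence.

A word `w : Fin k → Fin 6` stands for the points `pnt w t` (`t : Fin 4`); it is a line if it is
active (some letter is `4` or `5`). Codes are big-endian: the first digit has the weight
`base ^ (k - 1)` (see `encC`, `encL`).

`testBit_thr`: by induction on the list; the code of `w :: ws` is `w * 6 ^ ws.length + encL ws`
with `encL ws < 6 ^ ws.length`, and `thr t vs < 2 ^ (6 ^ vs.length)`, so exactly one of the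
shifted copies in `thr t (v :: vs)` can have the bit.
-/

set_option autoImplicit false

namespace Pool.Agent.Lib_TTT

variable {k : ℕ}

/-- The code of a cell. -/
def encP (x : Pt k) : ℕ := encC (List.ofFn fun i => (x i : ℕ))

/-- The code of a word. -/
def encW (w : Fin k → Fin 6) : ℕ := encL (List.ofFn fun i => (w i : ℕ))

/-- The value of a letter at the time `t`. -/
def valW (t : Fin 4) (c : Fin 6) : Fin 4 :=
  if h : (c : ℕ) < 4 then ⟨c, h⟩ else if (c : ℕ) = 4 then t else Fin.rev t

/-- The point of a word at the time `t`. -/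
def pnt (w : Fin k → Fin 6) (t : Fin 4) : Pt k := fun i => valW t (w i)

/-- Active words. -/
def Act (w : Fin k → Fin 6) : Prop := ∃ i, 4 ≤ (w i : ℕ)

/-- `x` is on the word `w`. -/
def On (x : Pt k) (w : Fin k → Fin 6) : Prop := ∃ t, pnt w t = x

/-- The reversed word. -/
def revW (w : Fin k → Fin 6) : Fin k → Fin 6 :=
  fun i => if (w i : ℕ) = 4 then 5 else if (w i : ℕ) = 5 then 4 else w i

instance (x : Pt k) (w : Fin k → Fin 6) : Decidable (On x w) := by
  unfold On; infer_instance

/-- The number of cells of `Q` on the word `w`. -/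
def cn (w : Fin k → Fin 6) (Q : Finset (Pt k)) : ℕ := (Q.filter fun x => On x w).card

/-! Auxiliary lemmas for this file. -/

private theorem inc_digit {B v v' r r' : ℕ} (hr : r < B) (hr' : r' < B)
    (h : v * B + r = v' * B + r') : v = v' ∧ r = r' := by
  rcases lt_trichotomy v v' with h1 | h1 | h1
  · exfalso
    have h2 := Nat.mul_le_mul_right B (Nat.succ_le_of_lt h1)
    rw [Nat.succ_mul] at h2
    omega
  · subst h1
    exact ⟨rfl, by omega⟩
  · exfalso
    have h2 := Nat.mul_le_mul_right B (Nat.succ_le_of_lt h1)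
    rw [Nat.succ_mul] at h2
    omega

private theorem inc_encC_lt : ∀ vs : List ℕ, (∀ v ∈ vs, v < 4) → encC vs < 4 ^ vs.length
  | [], _ => by simp [encC]
  | v :: vs, h => by
    have ih := inc_encC_lt vs (fun u hu => h u (List.mem_cons_of_mem _ hu))
    have hv := h v List.mem_cons_self
    have h2 := Nat.mul_le_mul_right (4 ^ vs.length) (Nat.succ_le_of_lt hv)
    rw [Nat.succ_mul] at h2
    rw [encC, List.length_cons, pow_succ]
    omega

private theorem inc_encL_lt : ∀ ws : List ℕ, (∀ w ∈ ws, w < 6) → encL ws < 6 ^ ws.length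
  | [], _ => by simp [encL]
  | v :: vs, h => by
    have ih := inc_encL_lt vs (fun u hu => h u (List.mem_cons_of_mem _ hu))
    have hv := h v List.mem_cons_self
    have h2 := Nat.mul_le_mul_right (6 ^ vs.length) (Nat.succ_le_of_lt hv)
    rw [Nat.succ_mul] at h2
    rw [encL, List.length_cons, pow_succ]
    omega

private theorem inc_encC_inj : ∀ vs vs' : List ℕ, vs.length = vs'.length → (∀ v ∈ vs, v < 4) →
    (∀ v ∈ vs', v < 4) → encC vs = encC vs' → vs = vs'
  | [], [], _, _, _, _ => rfl
  | [], _ :: _, h, _, _, _ => by simp at h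
  | _ :: _, [], h, _, _, _ => by simp at h
  | v :: vs, v' :: vs', hl, h, h', he => by
    have hl' : vs.length = vs'.length := by simpa using hl
    have h1 := inc_encC_lt vs (fun u hu => h u (List.mem_cons_of_mem _ hu))
    have h2 := inc_encC_lt vs' (fun u hu => h' u (List.mem_cons_of_mem _ hu))
    rw [← hl'] at h2
    rw [encC, encC, ← hl'] at he
    obtain ⟨e1, e2⟩ := inc_digit h1 h2 he
    rw [e1, inc_encC_inj vs vs' hl' (fun u hu => h u (List.mem_cons_of_mem _ hu))
      (fun u hu => h' u (List.mem_cons_of_mem _ hu)) e2]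

private theorem inc_encL_inj : ∀ vs vs' : List ℕ, vs.length = vs'.length → (∀ v ∈ vs, v < 6) →
    (∀ v ∈ vs', v < 6) → encL vs = encL vs' → vs = vs'
  | [], [], _, _, _, _ => rfl
  | [], _ :: _, h, _, _, _ => by simp at h
  | _ :: _, [], h, _, _, _ => by simp at h
  | v :: vs, v' :: vs', hl, h, h', he => by
    have hl' : vs.length = vs'.length := by simpa using hl
    have h1 := inc_encL_lt vs (fun u hu => h u (List.mem_cons_of_mem _ hu))
    have h2 := inc_encL_lt vs' (fun u hu => h' u (List.mem_cons_of_mem _ hu))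
    rw [← hl'] at h2
    rw [encL, encL, ← hl'] at he
    obtain ⟨e1, e2⟩ := inc_digit h1 h2 he
    rw [e1, inc_encL_inj vs vs' hl' (fun u hu => h u (List.mem_cons_of_mem _ hu))
      (fun u hu => h' u (List.mem_cons_of_mem _ hu)) e2]

private theorem inc_digC (x : Pt k) : ∀ v ∈ List.ofFn (fun i => (x i : ℕ)), v < 4 := by
  intro v hv
  rw [List.mem_ofFn] at hv
  obtain ⟨i, rfl⟩ := hv
  exact (x i).isLt

private theorem inc_digL (w : Fin k → Fin 6) : ∀ v ∈ List.ofFn (fun i => (w i : ℕ)), v < 6 := by
  intro v hv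
  rw [List.mem_ofFn] at hv
  obtain ⟨i, rfl⟩ := hv
  exact (w i).isLt

private theorem inc_shift {a B c w r : ℕ} (ha : a < 2 ^ B) (hr : r < B) :
    (Nat.shiftLeft a (c * B)).testBit (w * B + r) = (decide (w = c) && a.testBit r) := by
  change (a <<< (c * B)).testBit (w * B + r) = _
  rw [Nat.testBit_shiftLeft]
  rcases lt_trichotomy w c with h | h | h
  · have h1 : ¬ (w * B + r ≥ c * B) := by
      have := Nat.mul_le_mul_right B (Nat.succ_le_of_lt h)
      rw [Nat.succ_mul] at this
      omega
    rw [decide_eq_false h1, decide_eq_false h.ne, Bool.false_and, Bool.false_and]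
  · subst h
    have h1 : w * B + r ≥ w * B := by omega
    rw [decide_eq_true h1, decide_eq_true rfl, Bool.true_and, Bool.true_and, Nat.add_sub_cancel_left]
  · have h1 : B ≤ w * B + r - c * B := by
      have := Nat.mul_le_mul_right B (Nat.succ_le_of_lt h)
      rw [Nat.succ_mul] at this
      omega
    have h2 : a.testBit (w * B + r - c * B) = false :=
      Nat.testBit_lt_two_pow (lt_of_lt_of_le ha (Nat.pow_le_pow_right (by norm_num) h1))
    rw [h2, decide_eq_false h.ne', Bool.and_false, Bool.false_and]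

private theorem inc_thr_lt (t : ℕ) : ∀ vs : List ℕ, (∀ v ∈ vs, v < 4) →
    thr t vs < 2 ^ (6 ^ vs.length)
  | [], _ => by simp [thr]
  | v :: vs, h => by
    have ih := inc_thr_lt t vs (fun u hu => h u (List.mem_cons_of_mem _ hu))
    have hv := h v List.mem_cons_self
    have key : ∀ c, c ≤ 5 → Nat.shiftLeft (thr t vs) (c * 6 ^ vs.length) <
        2 ^ (6 ^ (vs.length + 1)) := by
      intro c hc
      change (thr t vs) <<< (c * 6 ^ vs.length) < _
      rw [Nat.shiftLeft_eq]
      calc thr t vs * 2 ^ (c * 6 ^ vs.length)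
          < 2 ^ (6 ^ vs.length) * 2 ^ (c * 6 ^ vs.length) :=
            Nat.mul_lt_mul_of_pos_right ih (by positivity)
        _ = 2 ^ (6 ^ vs.length + c * 6 ^ vs.length) := by rw [pow_add]
        _ ≤ 2 ^ (6 ^ (vs.length + 1)) := by
            apply Nat.pow_le_pow_right (by norm_num)
            rw [pow_succ]
            have := Nat.mul_le_mul_right (6 ^ vs.length) hc
            omega
    rw [thr, List.length_cons]
    change (_ ||| (_ ||| _) : ℕ) < _
    refine Nat.or_lt_two_pow (key v (by omega)) (Nat.or_lt_two_pow ?_ ?_)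
    · split_ifs
      · exact key 4 (by norm_num)
      · positivity
    · split_ifs
      · exact key 5 (by norm_num)
      · positivity

private theorem inc_testBit_thr (t : ℕ) : ∀ (vs ws : List ℕ), vs.length = ws.length →
    (∀ v ∈ vs, v < 4) → (∀ w ∈ ws, w < 6) →
    ((thr t vs).testBit (encL ws) = true ↔ vs = ws.map (valD t))
  | [], [], _, _, _ => by simp [thr, encL]
  | [], _ :: _, h, _, _ => by simp at h
  | _ :: _, [], h, _, _ => by simp at h
  | v :: vs, w :: ws, hl, h, h' => by
    have hl' : vs.length = ws.length := by simpa using hl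
    have hv := h v List.mem_cons_self
    have hw := h' w List.mem_cons_self
    have ih := inc_testBit_thr t vs ws hl' (fun u hu => h u (List.mem_cons_of_mem _ hu))
      (fun u hu => h' u (List.mem_cons_of_mem _ hu))
    have h1 := inc_thr_lt t vs (fun u hu => h u (List.mem_cons_of_mem _ hu))
    have h2 := inc_encL_lt ws (fun u hu => h' u (List.mem_cons_of_mem _ hu))
    rw [← hl'] at h2
    rw [encL, thr, ← hl', List.map_cons, List.cons.injEq, ← ih]
    change (_ ||| (_ ||| _) : ℕ).testBit _ = true ↔ _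
    rw [Nat.testBit_or, Nat.testBit_or, inc_shift h1 h2]
    have h4 : (if v = t then Nat.shiftLeft (thr t vs) (4 * 6 ^ vs.length) else 0).testBit
        (w * 6 ^ vs.length + encL ws) =
        (decide (v = t) && (decide (w = 4) && (thr t vs).testBit (encL ws))) := by
      split_ifs with hvt
      · rw [inc_shift h1 h2, decide_eq_true hvt, Bool.true_and]
      · rw [Nat.zero_testBit, decide_eq_false hvt, Bool.false_and]
    have h5 : (if v = 3 - t then Nat.shiftLeft (thr t vs) (5 * 6 ^ vs.length) else 0).testBit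
        (w * 6 ^ vs.length + encL ws) =
        (decide (v = 3 - t) && (decide (w = 5) && (thr t vs).testBit (encL ws))) := by
      split_ifs with hvt
      · rw [inc_shift h1 h2, decide_eq_true hvt, Bool.true_and]
      · rw [Nat.zero_testBit, decide_eq_false hvt, Bool.false_and]
    rw [h4, h5]
    simp only [Bool.or_eq_true, Bool.and_eq_true, decide_eq_true_eq]
    have h6 : v = valD t w ↔ (w = v ∨ (v = t ∧ w = 4) ∨ (v = 3 - t ∧ w = 5)) := by
      unfold valD
      split_ifs with c1 c2
      · omega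
      · omega
      · omega
    rw [h6]
    tauto

private theorem inc_valW (t : Fin 4) (c : Fin 6) : valD (t : ℕ) (c : ℕ) = (valW t c : ℕ) := by
  unfold valD valW
  split_ifs with c1 c2
  · rfl
  · rfl
  · rw [Fin.val_rev]
    omega

private theorem inc_map (t : Fin 4) (w : Fin k → Fin 6) :
    (List.ofFn fun i => (w i : ℕ)).map (valD t) = List.ofFn fun i => (pnt w t i : ℕ) := by
  rw [List.map_ofFn]
  congr 1
  funext i
  exact inc_valW t (w i)

private theorem inc_ofFn_inj (x y : Pt k)
    (h : (List.ofFn fun i => (x i : ℕ)) = List.ofFn fun i => (y i : ℕ)) : x = y := by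
  have h1 := List.ofFn_injective h
  funext i
  exact Fin.ext (congrFun h1 i)

private theorem inc_through (x : Pt k) (w : Fin k → Fin 6) (t : Fin 4) :
    (thr (t : ℕ) (List.ofFn fun i => (x i : ℕ))).testBit (encW w) = true ↔ pnt w t = x := by
  unfold encW
  rw [inc_testBit_thr _ _ _ (by simp) (inc_digC x) (inc_digL w), inc_map]
  constructor
  · intro h
    exact (inc_ofFn_inj _ _ h).symm
  · intro h
    rw [h]

private theorem inc_one (m n : ℕ) : (Nat.shiftLeft 1 m).testBit n = true ↔ n = m := by
  change (1 <<< m).testBit n = true ↔ _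
  rw [Nat.one_shiftLeft, Nat.testBit_two_pow]
  simp [eq_comm]

private theorem inc_lmask (w : Fin k → Fin 6) (n : ℕ) :
    (lmask (List.ofFn fun i => (w i : ℕ))).testBit n = true ↔ ∃ t, n = encP (pnt w t) := by
  have h : ∀ t : Fin 4, encC ((List.ofFn fun i => (w i : ℕ)).map (valD t)) = encP (pnt w t) := by
    intro t
    rw [inc_map]
    rfl
  unfold lmask
  change (_ ||| (_ ||| (_ ||| _)) : ℕ).testBit n = true ↔ _
  rw [Nat.testBit_or, Nat.testBit_or, Nat.testBit_or]
  simp only [Bool.or_eq_true, inc_one]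
  have h0 := h 0
  have h1 := h 1
  have h2 := h 2
  have h3 := h 3
  simp only [Fin.val_zero, Fin.val_one, Fin.val_two] at h0 h1 h2
  rw [show ((3 : Fin 4) : ℕ) = 3 from rfl] at h3
  rw [h0, h1, h2, h3]
  constructor
  · rintro (h | h | h | h)
    · exact ⟨0, h⟩
    · exact ⟨1, h⟩
    · exact ⟨2, h⟩
    · exact ⟨3, h⟩
  · rintro ⟨t, ht⟩
    fin_cases t
    · exact Or.inl ht
    · exact Or.inr (Or.inl ht)
    · exact Or.inr (Or.inr (Or.inl ht))
    · exact Or.inr (Or.inr (Or.inr ht))

private theorem inc_pnt_inj (w : Fin k → Fin 6) (hw : Act w) : Function.Injective (pnt w) := by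
  obtain ⟨i, hi⟩ := hw
  intro s t h
  have h1 := congrFun h i
  unfold pnt valW at h1
  have h2 : ¬ ((w i : ℕ) < 4) := by omega
  rw [dif_neg h2, dif_neg h2] at h1
  split_ifs at h1
  · exact h1
  · exact Fin.rev_injective h1

theorem encP_lt (x : Pt k) : encP x < 4 ^ k := by
  have h := inc_encC_lt _ (inc_digC x)
  rw [List.length_ofFn] at h
  exact h

theorem encP_inj : Function.Injective (encP (k := k)) := by
  intro x y h
  exact inc_ofFn_inj x y (inc_encC_inj _ _ (by simp) (inc_digC x) (inc_digC y) h)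

theorem encP_surj (n : ℕ) (hn : n < 4 ^ k) : ∃ x : Pt k, encP x = n := by
  have hinj : Function.Injective (fun x : Pt k => (⟨encP x, encP_lt x⟩ : Fin (4 ^ k))) := by
    intro x y h
    exact encP_inj (congrArg Fin.val h)
  have hcard : Fintype.card (Pt k) = Fintype.card (Fin (4 ^ k)) := by simp
  have hbij := (Fintype.bijective_iff_injective_and_card _).2 ⟨hinj, hcard⟩
  obtain ⟨x, hx⟩ := hbij.2 ⟨n, hn⟩
  exact ⟨x, congrArg Fin.val hx⟩

theorem encW_inj : Function.Injective (encW (k := k)) := by
  intro x y h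
  have h1 := List.ofFn_injective
    (inc_encL_inj _ _ (by simp) (inc_digL x) (inc_digL y) h)
  funext i
  exact Fin.ext (congrFun h1 i)

theorem on_revW (x : Pt k) (w : Fin k → Fin 6) : On x (revW w) ↔ On x w := by
  have h : ∀ t, pnt (revW w) t = pnt w (Fin.rev t) := by
    intro t
    funext i
    unfold pnt
    have h1 : ∀ (c : Fin 6) (t : Fin 4),
        valW t (if (c : ℕ) = 4 then 5 else if (c : ℕ) = 5 then 4 else c) = valW (Fin.rev t) c := by
      decide
    exact h1 (w i) t
  unfold On
  constructor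
  · rintro ⟨t, ht⟩
    exact ⟨Fin.rev t, by rw [← h, ht]⟩
  · rintro ⟨t, ht⟩
    exact ⟨Fin.rev t, by rw [h, Fin.rev_rev, ht]⟩

theorem isLn_iff (e : Finset (Pt k)) :
    IsLn e ↔ ∃ w : Fin k → Fin 6, Act w ∧ ∀ x, x ∈ e ↔ On x w := by
  constructor
  · rintro ⟨f, hf, ⟨j, i, i', hj⟩, rfl⟩
    have hex : ∀ j : Fin k, ∃ c : Fin 6, (∀ t, valW t c = f t j) ∧
        ((∃ i i', f i j ≠ f i' j) → 4 ≤ (c : ℕ)) := by
      intro j
      rcases hf j with h | h | h
      · refine ⟨⟨(f 0 j : ℕ), by have := (f 0 j).isLt; omega⟩, ?_, ?_⟩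
        · intro t
          unfold valW
          rw [dif_pos (by exact (f 0 j).isLt)]
          exact h 0 t
        · rintro ⟨a, b, hab⟩
          exact absurd (h a b) hab
      · refine ⟨4, ?_, ?_⟩
        · intro t
          rw [h t]
          rfl
        · intro _
          decide
      · refine ⟨5, ?_, ?_⟩
        · intro t
          rw [h t]
          rfl
        · intro _
          decide
    choose w hw1 hw2 using hex
    have hp : ∀ t, pnt w t = f t := by
      intro t
      funext j
      exact hw1 j t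
    refine ⟨w, ⟨j, hw2 j ⟨i, i', hj⟩⟩, ?_⟩
    intro x
    rw [Finset.mem_image]
    unfold On
    constructor
    · rintro ⟨t, _, ht⟩
      exact ⟨t, by rw [hp, ht]⟩
    · rintro ⟨t, ht⟩
      exact ⟨t, Finset.mem_univ _, by rw [← hp, ht]⟩
  · rintro ⟨w, hw, he⟩
    refine ⟨pnt w, ?_, ?_, ?_⟩
    · intro j
      by_cases h4 : (w j : ℕ) < 4
      · left
        intro i i'
        unfold pnt valW
        rw [dif_pos h4, dif_pos h4]
      · by_cases h5 : (w j : ℕ) = 4
        · right
          left
          intro i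
          unfold pnt valW
          rw [dif_neg h4, if_pos h5]
        · right
          right
          intro i
          unfold pnt valW
          rw [dif_neg h4, if_neg h5]
    · obtain ⟨j, hj⟩ := hw
      refine ⟨j, 0, 1, ?_⟩
      have h4 : ¬ (w j : ℕ) < 4 := by omega
      unfold pnt valW
      rw [dif_neg h4, dif_neg h4]
      split_ifs
      · decide
      · decide
    · ext x
      rw [he x, Finset.mem_image]
      unfold On
      constructor
      · rintro ⟨t, ht⟩
        exact ⟨t, Finset.mem_univ _, ht⟩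
      · rintro ⟨t, _, ht⟩
        exact ⟨t, ht⟩

/-- An active word has four points. -/
theorem card_on (w : Fin k → Fin 6) (hw : Act w) :
    (Finset.univ.filter fun x : Pt k => On x w).card = 4 := by
  have h : (Finset.univ.filter fun x : Pt k => On x w) = Finset.univ.image (pnt w) := by
    ext x
    rw [Finset.mem_filter, Finset.mem_image]
    unfold On
    simp
  rw [h, Finset.card_image_of_injective _ (inc_pnt_inj w hw)]
  simp

theorem testBit_through (x : Pt k) (w : Fin k → Fin 6) :
    (through (List.ofFn fun i => (x i : ℕ))).testBit (encW w) = true ↔ On x w := by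
  unfold through
  change (_ ||| (_ ||| (_ ||| _)) : ℕ).testBit _ = true ↔ _
  rw [Nat.testBit_or, Nat.testBit_or, Nat.testBit_or]
  simp only [Bool.or_eq_true]
  have h0 := inc_through x w 0
  have h1 := inc_through x w 1
  have h2 := inc_through x w 2
  have h3 := inc_through x w 3
  simp only [Fin.val_zero, Fin.val_one, Fin.val_two] at h0 h1 h2
  rw [show ((3 : Fin 4) : ℕ) = 3 from rfl] at h3
  rw [h0, h1, h2, h3]
  unfold On
  constructor
  · rintro (h | h | h | h)
    · exact ⟨0, h⟩
    · exact ⟨1, h⟩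
    · exact ⟨2, h⟩
    · exact ⟨3, h⟩
  · rintro ⟨t, ht⟩
    fin_cases t
    · exact Or.inl ht
    · exact Or.inr (Or.inl ht)
    · exact Or.inr (Or.inr (Or.inl ht))
    · exact Or.inr (Or.inr (Or.inr ht))

theorem testBit_lmask (w : Fin k → Fin 6) (x : Pt k) :
    (lmask (List.ofFn fun i => (w i : ℕ))).testBit (encP x) = true ↔ On x w := by
  rw [inc_lmask]
  unfold On
  constructor
  · rintro ⟨t, ht⟩
    exact ⟨t, (encP_inj ht).symm⟩
  · rintro ⟨t, ht⟩
    exact ⟨t, by rw [ht]⟩

/-- All bits of `lmask` are codes of cells. -/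
theorem lmask_code (w : Fin k → Fin 6) (n : ℕ)
    (h : (lmask (List.ofFn fun i => (w i : ℕ))).testBit n = true) : ∃ x : Pt k, n = encP x := by
  rw [inc_lmask] at h
  obtain ⟨t, ht⟩ := h
  exact ⟨_, ht⟩

/-- Meaning of `Cl`. -/
theorem Cl.spec (c : Cl k) : ∃ v : Pt k, c.c = encP v ∧
    (∀ n, c.b.testBit n = true ↔ n = encP v) ∧
    ∀ w, c.L.testBit (encW w) = true ↔ On v w := by
  obtain ⟨vs, h⟩ := c.ok
  simp only [Bool.and_eq_true, Nat.beq_eq, List.all_eq_true, Nat.ble_eq] at h
  obtain ⟨⟨⟨⟨hl, hv⟩, hc⟩, hb⟩, hL⟩ := h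
  subst hl
  have hvs : (List.ofFn fun i : Fin vs.length => ((⟨vs[i], by
      have := hv _ (List.getElem_mem i.isLt)
      exact Nat.lt_succ_of_le this⟩ : Fin 4) : ℕ)) = vs := by
    exact List.ofFn_getElem
  refine ⟨fun i => ⟨vs[i], by
      have := hv _ (List.getElem_mem i.isLt)
      exact Nat.lt_succ_of_le this⟩, ?_, ?_, ?_⟩
  · unfold encP
    rw [hvs, hc]
  · intro n
    unfold encP
    rw [hvs, hb, hc, inc_one]
  · intro w
    rw [← testBit_through, hvs, hL]

/-- Meaning of `Ln`. -/
theorem Ln.spec (l : Ln k) : ∃ w : Fin k → Fin 6, Act w ∧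
    (∀ n, l.b.testBit n = true ↔ n = encW w ∨ n = encW (revW w)) ∧
    (∀ x, l.m.testBit (encP x) = true ↔ On x w) ∧
    ∀ n, l.m.testBit n = true → ∃ x : Pt k, n = encP x := by
  obtain ⟨ws, h⟩ := l.ok
  simp only [Bool.and_eq_true, Nat.beq_eq, List.all_eq_true, List.any_eq_true, Nat.ble_eq] at h
  obtain ⟨⟨⟨⟨hl, hv⟩, ha⟩, hb⟩, hm⟩ := h
  subst hl
  obtain ⟨w, hw⟩ : ∃ w : Fin ws.length → Fin 6, ∀ i, (w i : ℕ) = ws[i] :=
    ⟨fun i => ⟨ws[i], by
      have := hv _ (List.getElem_mem i.isLt)
      exact Nat.lt_succ_of_le this⟩, fun i => rfl⟩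
  have hws : (List.ofFn fun i : Fin ws.length => (w i : ℕ)) = ws := by
    rw [funext hw]
    exact List.ofFn_getElem
  have hrev : encL (revL ws) = encW (revW w) := by
    unfold encW
    congr 1
    conv_lhs => rw [← hws]
    unfold revL
    rw [List.map_ofFn]
    congr 1
    funext i
    have h1 : ∀ c : Fin 6, (if (c : ℕ) = 4 then 5 else if (c : ℕ) = 5 then 4 else (c : ℕ)) =
        (((if (c : ℕ) = 4 then 5 else if (c : ℕ) = 5 then 4 else c) : Fin 6) : ℕ) := by
      decide
    exact h1 (w i)
  refine ⟨w, ?_, ?_, ?_, ?_⟩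
  · obtain ⟨a, ha1, ha2⟩ := ha
    obtain ⟨i, hi, rfl⟩ := List.getElem_of_mem ha1
    exact ⟨⟨i, hi⟩, by rw [hw]; exact ha2⟩
  · intro n
    rw [hb]
    change (_ ||| _ : ℕ).testBit n = true ↔ _
    rw [Nat.testBit_or, Bool.or_eq_true, inc_one, inc_one, hrev]
    unfold encW
    rw [hws]
  · intro x
    rw [← testBit_lmask, hws, hm]
  · intro n hn
    rw [hm, ← hws] at hn
    exact lmask_code w n hn

/-- The cell of a `Cl`. -/
noncomputable def Cl.pt (c : Cl k) : Pt k := c.spec.choose

theorem Cl.pt_c (c : Cl k) : c.c = encP c.pt := c.spec.choose_spec.1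
theorem Cl.pt_b (c : Cl k) (n : ℕ) : c.b.testBit n = true ↔ n = encP c.pt :=
  c.spec.choose_spec.2.1 n
theorem Cl.pt_L (c : Cl k) (w : Fin k → Fin 6) : c.L.testBit (encW w) = true ↔ On c.pt w :=
  c.spec.choose_spec.2.2 w

/-- `p` is the mask of the set of cells `P`. -/
def MP (p : ℕ) (P : Finset (Pt k)) : Prop := ∀ n, p.testBit n = true ↔ ∃ x ∈ P, n = encP x

/-- `g` marks the words with at least `j` cells of `Q`. -/
def MG (j g : ℕ) (Q : Finset (Pt k)) : Prop :=
  ∀ w : Fin k → Fin 6, g.testBit (encW w) = true ↔ j ≤ cn w Q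

end Pool.Agent.Lib_TTT
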