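import Pool.Agent.Lib_TTT.K3Base

/-! Threat sequences in `4^3`. -/

set_option autoImplicit false
set_option maxRecDepth 200000

namespace Pool.Agent.Lib_TTT.K3

open Lib_TTT

def t0 : VT 3 := ⟨0x208001, 0x8401042184010420, 0x8421042184010420, 0xa00a04080018604080b1ce34000000000000a18e00000892000c80, 0x200000000200000810000000000000000000000000000000000, ⟨[a0, a15, a21], [(a10, a5, l8), (a42, a63, l68), (a26, a58, l54), (a16, a31, l18), (a48, a32, l40)], a37, l75, [l38], by decide +kernel⟩⟩
def t1 : VT 3 := ⟨0x208001, 0x8021842104010420, 0x8421842104010420, 0x14014081900024081892000c80000000000955034031914034000, 0x4000000004000000000000000000000810000000000000000, ⟨[a0, a15, a21], [(a5, a10, l8), (a37, a53, l47), (a48, a26, l75), (a32, a16, l40), (a42, a47, l28)], a63, l68, [l54], by decide +kernel⟩⟩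
def t2 : VT 3 := ⟨0x208001, 0x8021842084010420, 0x8421842084010420, 0x110040918400040a18d3000cb1000000000851000031914034000, 0x1000000001810000000000000000000000000000000000, ⟨[a0, a15, a21], [(a5, a10, l8), (a37, a53, l47), (a26, a48, l75), (a31, a16, l18), (a63, a42, l68)], a47, l61, [l38], by decide +kernel⟩⟩
def t3 : VT 3 := ⟨0x208001, 0x8021842084010420, 0x8021842184010420, 0x911224011854214021851000031b1ce34000851000031000000000, 0x1000000001000000000810000000000000000000000000, ⟨[a0, a15, a21], [(a63, a42, l68), (a31, a47, l61), (a26, a16, l18), (a37, a48, l75), (a5, a53, l47)], a10, l8, [l28], by decide +kernel⟩⟩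
def t4 : VT 3 := ⟨0x200011, 0x8088444022021100, 0x8888444022021100, 0x928025a28614015618628000e38914034000000000000041031000, 0x20000000010000208000000000000000000000000000000000, ⟨[a0, a4, a21], [(a12, a8, l4), (a38, a55, l50), (a25, a51, l74), (a63, a42, l68), (a29, a17, l15)], a46, l62, [l37, l56], by decide +kernel⟩⟩
def t5 : VT 3 := ⟨0x8011, 0x77ea, 0x7fea, 0x600025618028015a28000000000000000000000000000f7d035e38, 0x208030000, ⟨[a0, a4, a15], [(a12, a8, l4), (a5, a10, l8), (a6, a7, l1), (a9, a3, l9), (a13, a1, l5)], a14, l3, [l2], by decide +kernel⟩⟩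
def t6 : VT 3 := ⟨0x208011, 0xb000f0005004e0, 0xf000f000d004e0, 0x48004ac02010046c0a9a000e80208000e00041000c40914034000, 0x200000000200000000c00000000000000000000000000000, ⟨[a0, a4, a15, a21], [(a5, a10, l8), (a37, a53, l47), (a38, a55, l50), (a36, a39, l21), (a52, a20, l46), (a7, a6, l1)], a22, l51, [l31, l49], by decide +kernel⟩⟩
def t7 : VT 3 := ⟨0x200011, 0x8088444402021100, 0x8888444402021100, 0x22023a22480013612208000e000000000004a2032032041031000, 0x20000000010000000000000000000000082000000000000000, ⟨[a0, a4, a21], [(a12, a8, l4), (a38, a55, l50), (a51, a25, l74), (a34, a17, l44), (a42, a46, l26)], a63, l68, [l56], by decide +kernel⟩⟩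
def t8 : VT 3 := ⟨0x201001, 0x8088444402020110, 0x8888444402020110, 0x22023a22480013612208000e000000000004a2032032041031000, 0x20000000010000000000000000000000082000000000000000, ⟨[a0, a12, a21], [(a4, a8, l4), (a38, a55, l50), (a51, a25, l74), (a34, a17, l44), (a42, a46, l26)], a63, l68, [l56], by decide +kernel⟩⟩
def t9 : VT 3 := ⟨0x209001, 0xd000f400e0006000, 0xd000f400f0006000, 0xd40ee4000035ed4000461c40000d75c74000a9ae80000000000000, 0x40000000040000000000000000000000000c00000000000000, ⟨[a0, a12, a15, a21], [(a63, a42, l68), (a46, a29, l62), (a47, a31, l61), (a45, a44, l23), (a30, a60, l63), (a14, a13, l3)], a62, l60, [l13], by decide +kernel⟩⟩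
def t10 : VT 3 := ⟨0x209001, 0x85006184016110, 0x85006184016110, 0x62a1a0418029160430c000e34000000000a18e000000c3cb1000, 0, ⟨[a0, a12, a15, a21], [(a4, a8, l4), (a38, a55, l50), (a14, a13, l3), (a26, a50, l72), (a16, a31, l18), (a48, a32, l40)], a37, l75, [], by decide +kernel⟩⟩
def t11 : VT 3 := ⟨0x200011, 0x8088444022021100, 0x8888444022021100, 0x28021a2a60001161a628000e38000000000082000032041031000, 0x20000000010208000000000000000000000000000000000, ⟨[a0, a4, a21], [(a12, a8, l4), (a38, a55, l50), (a25, a51, l74), (a29, a17, l15), (a63, a42, l68)], a46, l62, [l37], by decide +kernel⟩⟩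
def t12 : VT 3 := ⟨0x208011, 0x888804c0088004e0, 0x88c804c088c844e4, 0x22c00cb0070800c700000000000524000d00208038e00d34034d00, 0x100000000100000000000000000000208000000104000000, ⟨[a0, a4, a15, a21], [(a5, a10, l8), (a7, a6, l1), (a55, a38, l50), (a39, a23, l49), (a51, a27, l73), (a63, a42, l68)], a59, l37, [l6, l17, l48], by decide +kernel⟩⟩
def t14 : VT 3 := ⟨0x201001, 0x8808044422020110, 0x8888044422020110, 0xa00aa8840018698440a18e38000000000000082c80000041000c40, 0x800000000400000208000000000000000000000000000000000, ⟨[a0, a12, a21], [(a8, a4, l4), (a42, a63, l68), (a25, a59, l56), (a17, a29, l15), (a51, a34, l44)], a38, l74, [l37], by decide +kernel⟩⟩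
def t15 : VT 3 := ⟨0x9001, 0x6f7c, 0x6f7e, 0x70208009c0ac0800ac000000000000000000000000000fbec80cbc, 0x82000030, ⟨[a0, a12, a15], [(a10, a5, l8), (a14, a13, l3), (a6, a2, l6), (a9, a3, l9), (a8, a4, l4)], a11, l2, [l5], by decide +kernel⟩⟩
def t16 : VT 3 := ⟨0x201001, 0x8088444022020110, 0x8888444022020110, 0x28021a2a60001161a628000e38000000000082000032041031000, 0x20000000010208000000000000000000000000000000000, ⟨[a0, a12, a21], [(a4, a8, l4), (a38, a55, l50), (a25, a51, l74), (a29, a17, l15), (a63, a42, l68)], a46, l62, [l37], by decide +kernel⟩⟩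
def t17 : VT 3 := ⟨0x208011, 0x85006184017100, 0x85006184017100, 0x62a1a0418029160430c000e34000000000a18e000000c3cb1000, 0, ⟨[a0, a4, a15, a21], [(a12, a8, l4), (a38, a55, l50), (a14, a13, l3), (a26, a50, l72), (a16, a31, l18), (a48, a32, l40)], a37, l75, [], by decide +kernel⟩⟩
def t18 : VT 3 := ⟨0x208011, 0xaa006002007520, 0x88af006002007520, 0x2e121a2a78011161a6aa000e3a000000000000000000145d31000, 0x208000030000000000000000000000000000, ⟨[a0, a4, a15, a21], [(a12, a8, l4), (a13, a14, l3), (a38, a55, l50), (a25, a51, l74), (a37, a49, l71), (a5, a53, l47)], a10, l8, [l30, l37], by decide +kernel⟩⟩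
def t19 : VT 3 := ⟨0x8011, 0x77ea, 0x7fee, 0x4125600100115a00000000000000000000000000000b5dd35e00, 0x104030000, ⟨[a0, a4, a15], [(a12, a8, l4), (a5, a10, l8), (a13, a14, l3), (a6, a7, l1), (a9, a1, l5)], a3, l9, [l2, l6], by decide +kernel⟩⟩
def t20 : VT 3 := ⟨0x40000008001, 0x8401002184210420, 0x8421002184210420, 0xa00a04080018604080b1ce34000000000000a18e00000892000c80, 0x200000000200000810000000000000000000000000000000000, ⟨[a0, a15, a42], [(a21, a63, l68), (a10, a5, l8), (a26, a58, l54), (a16, a31, l18), (a48, a32, l40)], a37, l75, [l38], by decide +kernel⟩⟩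
def t21 : VT 3 := ⟨0x40000008001, 0x8021802104210420, 0x8421802104210420, 0xa00a04080018604080a9ae00c80a18e00000000000000914034000, 0x200000000200000810000000000000000000000000000000000, ⟨[a0, a15, a42], [(a5, a10, l8), (a21, a63, l68), (a37, a53, l47), (a32, a47, l28), (a48, a16, l40)], a26, l75, [l38], by decide +kernel⟩⟩
def t22 : VT 3 := ⟨0x40000008001, 0x8401802184200420, 0x8421802184200420, 0x110040918400040a1955034031851000031000000000892000c80, 0x1000000001810000000000000000000000000000000000, ⟨[a0, a15, a42], [(a10, a5, l8), (a26, a58, l54), (a37, a48, l75), (a47, a32, l28), (a63, a21, l68)], a31, l61, [l38], by decide +kernel⟩⟩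
def t23 : VT 3 := ⟨0x40000008001, 0x8401802184200420, 0x8401802184210420, 0x8912008918522004a1851000031851000031a9ae00c80000000000, 0x1000000001000000000000000000810000000000000000, ⟨[a0, a15, a42], [(a63, a21, l68), (a47, a31, l61), (a37, a32, l28), (a26, a48, l75), (a10, a5, l8)], a58, l54, [l18], by decide +kernel⟩⟩
def t24 : VT 3 := ⟨0x40000000101, 0x8808404422201010, 0x8888404422201010, 0x8a80288e86120184d8628038038000000000892000c80041000c40, 0x800000000400208000000000000000000000000000000000, ⟨[a0, a8, a42], [(a12, a4, l4), (a25, a59, l56), (a38, a51, l74), (a63, a21, l68), (a46, a29, l62)], a34, l26, [l37, l50], by decide +kernel⟩⟩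
def t25 : VT 3 := ⟨0x8101, 0x7e7c, 0x7efc, 0x6000188d80280284e8000000000000000000000000000efb038cf8, 0x208000c00, ⟨[a0, a8, a15], [(a12, a4, l4), (a10, a5, l8), (a9, a11, l2), (a6, a3, l9), (a14, a13, l3)], a2, l6, [l1], by decide +kernel⟩⟩
def t26 : VT 3 := ⟨0x40000008101, 0xd0003000f000e20, 0xf000b000f000e20, 0x4802d08020101d080b1c03c000041031000208038000892000c80, 0x8000000008000000030000000000000000000000000000000, ⟨[a0, a8, a15, a42], [(a25, a59, l56), (a10, a5, l8), (a26, a58, l54), (a24, a27, l12), (a56, a40, l52), (a11, a9, l2)], a41, l57, [l32, l55], by decide +kernel⟩⟩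
def t27 : VT 3 := ⟨0x8101, 0x7e7c, 0x7efe, 0x1020808c40840804c40000000000000000000000000009d7c80cf4, 0x82000c00, ⟨[a0, a8, a15], [(a12, a4, l4), (a10, a5, l8), (a14, a13, l3), (a6, a2, l6), (a9, a3, l9)], a11, l2, [l1, l5], by decide +kernel⟩⟩
def t28 : VT 3 := ⟨0x40000000101, 0x8808404422201010, 0x8888404422201010, 0x2802886c60001845c628038038104000034000000000041000c40, 0x20000000010208000000000000000000000000000000000, ⟨[a0, a8, a42], [(a12, a4, l4), (a25, a59, l56), (a38, a51, l74), (a46, a34, l26), (a63, a21, l68)], a29, l62, [l37], by decide +kernel⟩⟩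
def t29 : VT 3 := ⟨0x1000040000000001, 0xa0000b000070000e, 0xa0000b0000f0000e, 0x74000854402d008944000000000208038000565000d40104000034, 0x100000000004000000000000000000000000000000c00000000000, ⟨[a0, a42, a60], [(a40, a20, l64), (a41, a43, l22), (a3, a22, l69), (a1, a2, l0), (a21, a61, l65)], a63, l68, [l11], by decide +kernel⟩⟩
def t30 : VT 3 := ⟨0x1000040000008001, 0xe000e000f0205000, 0xe000f000f0205000, 0x8a1ec0880452ec0480000000000a9ae80000cf3c40c80461c40000, 0x40000000040000000000000000c00000000000000000000000, ⟨[a0, a15, a42, a60], [(a30, a45, l63), (a63, a21, l68), (a31, a47, l61), (a29, a28, l13), (a46, a12, l62), (a62, a61, l33)], a14, l60, [l23], by decide +kernel⟩⟩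
def t31 : VT 3 := ⟨0x1000040000008001, 0x1ab2344110000, 0x1abab44110000, 0x240708052009b08062000000000a9ae38032145d00c40000000000, 0x208000000000000000000000000, ⟨[a0, a15, a42, a60], [(a40, a20, l64), (a41, a43, l22), (a45, a30, l63), (a37, a33, l25), (a32, a47, l28), (a48, a16, l40)], a26, l75, [l27], by decide +kernel⟩⟩
def t32 : VT 3 := ⟨0x40002008001, 0x803802104017110, 0x803802104017110, 0x632884218031844228a038032a18e00000000000000145d00c40, 0, ⟨[a0, a15, a25, a42], [(a8, a59, l56), (a12, a4, l4), (a13, a14, l3), (a37, a49, l71), (a32, a47, l28), (a48, a16, l40)], a26, l75, [], by decide +kernel⟩⟩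
def t33 : VT 3 := ⟨0x40002008001, 0xd0003000d000f20, 0xf000b000d000f20, 0x4802d08020101d080b1c03c000041031000208038000892000c80, 0x8000000008000000030000000000000000000000000000000, ⟨[a0, a15, a25, a42], [(a8, a59, l56), (a10, a5, l8), (a26, a58, l54), (a24, a27, l12), (a56, a40, l52), (a11, a9, l2)], a41, l57, [l32, l55], by decide +kernel⟩⟩
def t34 : VT 3 := ⟨0x40002008001, 0x40b00e00d007420, 0x842f00f00d007420, 0x1b005293ac00052a39d7034033208000e00041031000892000c80, 0x1000000040000000810000030000000000000000000000000000, ⟨[a0, a15, a25, a42], [(a10, a5, l8), (a26, a58, l54), (a37, a48, l75), (a27, a24, l12), (a13, a49, l71), (a51, a39, l73), (a12, a38, l74)], a14, l3, [l30, l38, l70], by decide +kernel⟩⟩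
def t35 : VT 3 := ⟨0x40002008001, 0x800000000007f7c, 0x800000000007ffe, 0x1020a88c40840984c42080380000000000000000000009d7c80cf4, 0x82000c00, ⟨[a0, a15, a25, a42], [(a8, a59, l56), (a12, a4, l4), (a10, a5, l8), (a14, a13, l3), (a6, a2, l6), (a9, a3, l9)], a11, l2, [l1, l5], by decide +kernel⟩⟩
def t36 : VT 3 := ⟨0x40002008001, 0xc0c004004007530, 0x8c8f004004007530, 0x2e0a886c78009845c72c03803c0000000000000000000c3c80c40, 0x208000030000000000000000000000000000, ⟨[a0, a15, a25, a42], [(a8, a59, l56), (a12, a4, l4), (a38, a51, l74), (a14, a13, l3), (a26, a50, l72), (a10, a5, l8)], a58, l54, [l30, l37], by decide +kernel⟩⟩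
def t37 : VT 3 := ⟨0x40000001001, 0x8808404422200110, 0x8888404422200110, 0x2802886c60001845c628038038104000034000000000041000c40, 0x20000000010208000000000000000000000000000000000, ⟨[a0, a12, a42], [(a8, a4, l4), (a25, a59, l56), (a38, a51, l74), (a46, a34, l26), (a63, a21, l68)], a29, l62, [l37], by decide +kernel⟩⟩
def t38 : VT 3 := ⟨0x9001, 0x67fa, 0x67fe, 0x68410401a12a10402a000000000000000000000000000fbed3403a, 0x104000030, ⟨[a0, a12, a15], [(a5, a10, l8), (a13, a14, l3), (a9, a1, l5), (a6, a3, l9), (a4, a8, l4)], a7, l1, [l6], by decide +kernel⟩⟩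
def t39 : VT 3 := ⟨0x40000009001, 0xb000e000f0206000, 0xb000f000f0206000, 0xcc0f40880033f40480461c40000b1cf00000cf3c40c80000000000, 0x40000000040000000000000000c00000000000000000000000, ⟨[a0, a12, a15, a42], [(a63, a21, l68), (a29, a46, l62), (a31, a47, l61), (a30, a28, l13), (a45, a60, l63), (a13, a61, l59)], a14, l3, [l23], by decide +kernel⟩⟩
def t40 : VT 3 := ⟨0x1000040000000001, 0xa0000b000070000e, 0xa0000b0000f0000e, 0xac0a8804001b688040a9ae80000208038000041000c40000000000, 0x200000000008000000000c00000000000000000000000000000000, ⟨[a0, a42, a60], [(a40, a20, l64), (a21, a63, l68), (a41, a43, l22), (a1, a61, l65), (a3, a2, l0)], a22, l69, [l67], by decide +kernel⟩⟩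
def t41 : VT 3 := ⟨0x1000040000008001, 0xe000f000e0203000, 0xe000f000e0207000, 0x9a3dc08804d6dc0480104d00000000000000996d00c804e3cc0000, 0x100000000100000000000000000000000000000000000c00000, ⟨[a0, a15, a42, a60], [(a45, a30, l63), (a63, a21, l68), (a61, a62, l33), (a29, a13, l59), (a46, a12, l62), (a47, a44, l23)], a31, l61, [l60], by decide +kernel⟩⟩
def t42 : VT 3 := ⟨0x40000008101, 0x888808800a200e20, 0x8a888a880a202e22, 0x22a02a28068801a280000000000208038e004a2032000cb2032c80, 0x2000000002000000000000208000000000000000082000000, ⟨[a0, a8, a15, a42], [(a10, a5, l8), (a11, a9, l2), (a59, a25, l56), (a27, a43, l55), (a51, a39, l73), (a63, a21, l68)], a55, l37, [l5, l27, l53], by decide +kernel⟩⟩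
def t44 : VT 3 := ⟨0x40000008101, 0x803802106017010, 0x803802106017010, 0x632884218031844228a038032a18e00000000000000145d00c40, 0, ⟨[a0, a8, a15, a42], [(a12, a4, l4), (a25, a59, l56), (a13, a14, l3), (a37, a49, l71), (a32, a47, l28), (a48, a16, l40)], a26, l75, [], by decide +kernel⟩⟩
def t45 : VT 3 := ⟨0x4008001, 0x8401042180210420, 0x8421042180210420, 0xa00a04080018604080b1ce34000000000000a18e00000892000c80, 0x200000000200000810000000000000000000000000000000000, ⟨[a0, a15, a26], [(a10, a5, l8), (a42, a58, l54), (a21, a63, l68), (a16, a31, l18), (a48, a32, l40)], a37, l75, [l38], by decide +kernel⟩⟩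
def t46 : VT 3 := ⟨0x4008001, 0x8021842080210420, 0x8421842080210420, 0x110040918400040a18d3000cb1000000000851000031914034000, 0x1000000001810000000000000000000000000000000000, ⟨[a0, a15, a26], [(a5, a10, l8), (a37, a48, l75), (a21, a53, l47), (a31, a16, l18), (a63, a42, l68)], a47, l61, [l38], by decide +kernel⟩⟩
def t47 : VT 3 := ⟨0x4008001, 0x8401842180200420, 0x8421842180200420, 0x110040918400040a1955034031851000031000000000892000c80, 0x1000000001810000000000000000000000000000000000, ⟨[a0, a15, a26], [(a37, a48, l75), (a10, a5, l8), (a42, a58, l54), (a47, a32, l28), (a63, a21, l68)], a31, l61, [l38], by decide +kernel⟩⟩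
def t48 : VT 3 := ⟨0x4008001, 0x8401042180210420, 0x8401842180210420, 0xa12a00481898600881a18e000008d3000cb1a18e00000000000000, 0x200000000200000000000000810000000000000000000000000, ⟨[a0, a15, a26], [(a48, a37, l75), (a16, a32, l40), (a21, a31, l18), (a42, a63, l68), (a10, a5, l8)], a58, l54, [l28], by decide +kernel⟩⟩
def t49 : VT 3 := ⟨0x8009, 0x5fe6, 0x7ff6, 0x84100682102100a82000000000000000000000000000b9ed00eb2, 0x82000c00, ⟨[a0, a3, a15], [(a2, a1, l0), (a10, a5, l8), (a6, a14, l6), (a11, a7, l7), (a9, a8, l2)], a12, l9, [l1, l5], by decide +kernel⟩⟩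
def t50 : VT 3 := ⟨0x4008009, 0xa100860080210886, 0xa100860080210886, 0x1800916050060a1a050c3cb100000000000085100003130c000e34, 0, ⟨[a0, a3, a15, a26], [(a1, a2, l0), (a11, a7, l7), (a41, a56, l57), (a21, a61, l65), (a31, a16, l18), (a63, a42, l68)], a47, l61, [], by decide +kernel⟩⟩
def t51 : VT 3 := ⟨0x4008009, 0x15000f0000500ca0, 0x1f000f0000500cf0, 0x20001d68000802da80955035000208038000000000000a9a000e80, 0x30000000000000000000000000000c00, ⟨[a0, a3, a15, a26], [(a10, a5, l8), (a42, a58, l54), (a11, a7, l7), (a41, a56, l57), (a40, a43, l22), (a60, a20, l64)], a22, l69, [l1, l32], by decide +kernel⟩⟩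
def t52 : VT 3 := ⟨0x4008009, 0xd4000f0000e00426, 0xf4200f2000f02626, 0xac0005a8201b005682914034000041031000a9a000e80892000cb2, 0x80000080002000080000000000000000000000000c00082000000, ⟨[a0, a3, a15, a26], [(a10, a5, l8), (a42, a58, l54), (a63, a21, l68), (a2, a1, l0), (a43, a23, l67), (a41, a40, l22), (a22, a60, l69)], a62, l66, [l5, l11, l47, l65], by decide +kernel⟩⟩
def t53 : VT 3 := ⟨0x4009000, 0xb00e00b006000, 0xf00e00b006000, 0x171010139c01010238d3000033000000000041031000104d00000, 0x1000000040000000000000030000000000000000000000000000, ⟨[a12, a15, a26], [(a37, a48, l75), (a13, a14, l3), (a25, a49, l71), (a27, a24, l12), (a51, a38, l74)], a39, l73, [l30], by decide +kernel⟩⟩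
def t54 : VT 3 := ⟨0x4009001, 0x1011113101110110, 0x1011113111110110, 0x4534414818e1841881461c40000cf3c40c80851031031000000000, 0x40000000040000000000000000000000041000000000000000, ⟨[a0, a12, a15, a26], [(a48, a37, l75), (a32, a16, l40), (a36, a24, l70), (a40, a44, l24), (a20, a60, l64), (a4, a52, l46)], a8, l4, [l14], by decide +kernel⟩⟩
def t55 : VT 3 := ⟨0x4009001, 0x8084844080216110, 0x8084844080216110, 0x60a1a0518009160530c000e340000000008510000310c3cb1000, 0, ⟨[a0, a12, a15, a26], [(a4, a8, l4), (a14, a13, l3), (a38, a50, l72), (a21, a55, l50), (a31, a16, l18), (a63, a42, l68)], a47, l61, [], by decide +kernel⟩⟩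
def t56 : VT 3 := ⟨0x9001, 0x67fa, 0x6ffe, 0x4125600100115a00000000000000000000000000000b5dd35e00, 0x104030000, ⟨[a0, a12, a15], [(a4, a8, l4), (a5, a10, l8), (a13, a14, l3), (a6, a7, l1), (a9, a1, l5)], a3, l9, [l2, l6], by decide +kernel⟩⟩
def t57 : VT 3 := ⟨0x4009000, 0xd00700b006000, 0xf00700b006000, 0x2e08802c78008801c72c00003c000000000208038000082c80000, 0x8000000200000000000000030000000000000000000000000000, ⟨[a12, a15, a26], [(a14, a13, l3), (a38, a50, l72), (a25, a51, l74), (a24, a27, l12), (a48, a36, l70)], a37, l75, [l30], by decide +kernel⟩⟩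
def t58 : VT 3 := ⟨0x9001, 0x67fa, 0x6ffe, 0x841250021021150020000000000000000000000000009d7d35032, 0x104030000, ⟨[a0, a12, a15], [(a4, a8, l4), (a5, a10, l8), (a13, a14, l3), (a9, a1, l5), (a6, a3, l9)], a7, l1, [l2, l6], by decide +kernel⟩⟩
def t59 : VT 3 := ⟨0x4009001, 0xc0804c00b000530, 0xf0804c00b0005f0, 0x102d8c004001d4c0b1c03c0000000000000410310008d3000cc0, 0x30000000000000000000000000000c00, ⟨[a0, a12, a15, a26], [(a8, a4, l4), (a10, a5, l8), (a42, a58, l54), (a25, a59, l56), (a27, a24, l12), (a51, a38, l74)], a39, l73, [l1, l32], by decide +kernel⟩⟩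
def t60 : VT 3 := ⟨0x4009001, 0x40c444402026420, 0x444c444402026622, 0x6984084180584084914034034104d00000000000000892c80c80, 0x104000000000000000000000000082000000, ⟨[a0, a12, a15, a26], [(a10, a5, l8), (a42, a58, l54), (a14, a13, l3), (a38, a50, l72), (a34, a46, l26), (a51, a17, l44)], a25, l74, [l5, l36], by decide +kernel⟩⟩
def t61 : VT 3 := ⟨0x4009000, 0xd00700b006000, 0xd00f00b006000, 0x3b0084e8ec00088d86280000388d3000cc0208038000000000000, 0x8000000200000000000000000000000c00000000000000000000, ⟨[a12, a15, a26], [(a48, a37, l75), (a24, a36, l70), (a25, a27, l12), (a38, a51, l74), (a14, a13, l3)], a50, l72, [l21], by decide +kernel⟩⟩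
def t62 : VT 3 := ⟨0x8101, 0x7e7c, 0x7efe, 0x20988c00800a84c0000000000000000000000000000adbcb8cc0, 0x82000c00, ⟨[a0, a8, a15], [(a12, a4, l4), (a10, a5, l8), (a9, a11, l2), (a14, a13, l3), (a6, a2, l6)], a3, l9, [l1, l5], by decide +kernel⟩⟩
def t63 : VT 3 := ⟨0x4008101, 0x1101013111111010, 0x111101f111111010, 0x453451cc08e1861cc0461c710008d3000cc0000000000041000c40, 0x40000000040041000000000000c00000000000000000000, ⟨[a0, a8, a15, a26], [(a48, a37, l75), (a12, a4, l4), (a24, a36, l70), (a40, a56, l52), (a20, a60, l64), (a16, a32, l40)], a28, l14, [l21, l34, l46], by decide +kernel⟩⟩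
def t64 : VT 3 := ⟨0x4008101, 0x1111032001100e20, 0x1311032013112e22, 0x4c10130c00630230c00000000004a2032000041031c40cb2032c80, 0x2000000002000000000000000000000041000000082000000, ⟨[a0, a8, a15, a26], [(a10, a5, l8), (a11, a9, l2), (a56, a41, l57), (a40, a24, l52), (a60, a20, l64), (a48, a52, l34)], a37, l75, [l5, l14, l53], by decide +kernel⟩⟩
def t66 : VT 3 := ⟨0x4008101, 0xd0007000b000e20, 0xf000f000b000e20, 0x4802d08020101d080b1c03c000041031000208038000892000c80, 0x8000000008000000030000000000000000000000000000000, ⟨[a0, a8, a15, a26], [(a10, a5, l8), (a42, a58, l54), (a25, a59, l56), (a24, a27, l12), (a56, a40, l52), (a11, a9, l2)], a41, l57, [l32, l55], by decide +kernel⟩⟩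
def t67 : VT 3 := ⟨0x2000008001, 0x8021840104210420, 0x8421840104210420, 0xa00a04080018604080a9ae00c80a18e00000000000000914034000, 0x200000000200000810000000000000000000000000000000000, ⟨[a0, a15, a37], [(a5, a10, l8), (a21, a53, l47), (a42, a63, l68), (a32, a47, l28), (a48, a16, l40)], a26, l75, [l38], by decide +kernel⟩⟩
def t68 : VT 3 := ⟨0x2000008001, 0x8021840084210420, 0x8421840084210420, 0x110040918400040a18d3000cb1000000000851000031914034000, 0x1000000001810000000000000000000000000000000000, ⟨[a0, a15, a37], [(a5, a10, l8), (a21, a53, l47), (a26, a48, l75), (a31, a16, l18), (a63, a42, l68)], a47, l61, [l38], by decide +kernel⟩⟩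
def t69 : VT 3 := ⟨0x2000008001, 0x8401840184200420, 0x8421840184200420, 0x110040918400040a1955034031851000031000000000892000c80, 0x1000000001810000000000000000000000000000000000, ⟨[a0, a15, a37], [(a10, a5, l8), (a26, a48, l75), (a42, a58, l54), (a47, a32, l28), (a63, a21, l68)], a31, l61, [l38], by decide +kernel⟩⟩
def t70 : VT 3 := ⟨0x2000008001, 0x8021840104210420, 0x8021840184210420, 0xa14a14001918624001a18e00000a18e00000955034031000000000, 0x200000000200000000000000000000000810000000000000000, ⟨[a0, a15, a37], [(a48, a26, l75), (a32, a16, l40), (a42, a47, l28), (a21, a63, l68), (a5, a53, l47)], a10, l8, [l18], by decide +kernel⟩⟩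
def t71 : VT 3 := ⟨0xa001, 0x57fa, 0x5ffe, 0x4125600100115a00000000000000000000000000000b5dd35e00, 0x104030000, ⟨[a0, a13, a15], [(a12, a14, l3), (a4, a8, l4), (a5, a10, l8), (a6, a7, l1), (a9, a1, l5)], a3, l9, [l2, l6], by decide +kernel⟩⟩
def t72 : VT 3 := ⟨0x200000a001, 0x8802840182205110, 0x8802840182205110, 0x612884318011844328a038032851000031000000000145d00c40, 0, ⟨[a0, a13, a15, a37], [(a12, a14, l3), (a8, a4, l4), (a25, a49, l71), (a42, a59, l56), (a47, a32, l28), (a63, a21, l68)], a31, l61, [], by decide +kernel⟩⟩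
def t73 : VT 3 := ⟨0x200000a001, 0x2022220022220622, 0x2222220222220622, 0x24840a2080884092892000cb2082c80000082000032914034000, 0x2000000002082000000000000000000000000000000000, ⟨[a0, a13, a15, a37], [(a5, a10, l8), (a21, a53, l47), (a25, a49, l71), (a29, a17, l15), (a61, a45, l59), (a1, a9, l5)], a41, l65, [l35, l41], by decide +kernel⟩⟩
def t74 : VT 3 := ⟨0x2000009000, 0xb00c00f006000, 0xf00c00f006000, 0x171010139c01010238d3000033000000000041031000104d00000, 0x1000000040000000000000030000000000000000000000000000, ⟨[a12, a15, a37], [(a13, a14, l3), (a25, a49, l71), (a26, a48, l75), (a27, a24, l12), (a51, a38, l74)], a39, l73, [l30], by decide +kernel⟩⟩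
def t75 : VT 3 := ⟨0x2000009001, 0x1101011115110110, 0x1111031115110910, 0x455455840961865440461c71000041000c40914034000041000c40, 0x10040000020040041000000000000000000000000000000000, ⟨[a0, a12, a15, a37], [(a48, a26, l75), (a8, a4, l4), (a24, a36, l70), (a40, a56, l52), (a20, a60, l64), (a16, a32, l40)], a28, l14, [l34, l46, l57], by decide +kernel⟩⟩
def t76 : VT 3 := ⟨0x2000009001, 0x8802840182206110, 0x8802840182206110, 0x612884318011844328a038032851000031000000000145d00c40, 0, ⟨[a0, a12, a15, a37], [(a8, a4, l4), (a13, a14, l3), (a25, a49, l71), (a42, a59, l56), (a47, a32, l28), (a63, a21, l68)], a31, l61, [], by decide +kernel⟩⟩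
def t77 : VT 3 := ⟨0x2000008011, 0x1011111105111100, 0x111111110f111100, 0x455475440961875840461c40c40000000000955035000041031000, 0x1000000001000041000000000000000000030000000000000, ⟨[a0, a4, a15, a37], [(a48, a26, l75), (a12, a8, l4), (a36, a24, l70), (a20, a52, l46), (a40, a60, l64), (a32, a16, l40)], a44, l24, [l12, l34, l52], by decide +kernel⟩⟩
def t78 : VT 3 := ⟨0x2000008011, 0x11110110045004e0, 0x11511151045044e4, 0x541005540065005940000000000041031c40524000d00d34034d00, 0x100000000100000000000041000000000000000104000000, ⟨[a0, a4, a15, a37], [(a5, a10, l8), (a7, a6, l1), (a52, a22, l51), (a20, a36, l46), (a60, a40, l64), (a48, a56, l34)], a26, l75, [l6, l24, l48], by decide +kernel⟩⟩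
def t80 : VT 3 := ⟨0x2000009000, 0xd00d00e006000, 0xf00d00e006000, 0x170800559c0080065955000035041000c40000000000082c80000, 0x1000000040000000000000030000000000000000000000000000, ⟨[a12, a15, a37], [(a26, a48, l75), (a14, a13, l3), (a38, a50, l72), (a39, a36, l21), (a51, a25, l74)], a27, l73, [l30], by decide +kernel⟩⟩
def t81 : VT 3 := ⟨0x9001, 0x6f7c, 0x6ffe, 0x1020808c40840804c40000000000000000000000000009d7c80cf4, 0x82000c00, ⟨[a0, a12, a15], [(a8, a4, l4), (a10, a5, l8), (a14, a13, l3), (a6, a2, l6), (a9, a3, l9)], a11, l2, [l1, l5], by decide +kernel⟩⟩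
def t82 : VT 3 := ⟨0x2000009001, 0x2a004422226420, 0x222a004422226464, 0x6984082180584082892000cb2000000000082c80000914d34000, 0x82000000000000000000000000104000000, ⟨[a0, a12, a15, a37], [(a5, a10, l8), (a21, a53, l47), (a13, a14, l3), (a25, a49, l71), (a17, a29, l15), (a51, a34, l44)], a38, l74, [l6, l35], by decide +kernel⟩⟩
def t83 : VT 3 := ⟨0x2000009001, 0xa800d00a200530, 0xf800d00a200f30, 0x1025ac00400156c0a9a000e80041000c40000000000955035000, 0xc00000000000000000000000030000, ⟨[a0, a12, a15, a37], [(a4, a8, l4), (a5, a10, l8), (a21, a53, l47), (a38, a55, l50), (a39, a36, l21), (a51, a25, l74)], a27, l73, [l2, l31], by decide +kernel⟩⟩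
def t84 : VT 3 := ⟨0x9001, 0x6f7c, 0x6ffe, 0x20988c00800a84c0000000000000000000000000000adbcb8cc0, 0x82000c00, ⟨[a0, a12, a15], [(a8, a4, l4), (a10, a5, l8), (a9, a11, l2), (a14, a13, l3), (a6, a2, l6)], a3, l9, [l1, l5], by decide +kernel⟩⟩
def t85 : VT 3 := ⟨0x2000009001, 0x1101011115110110, 0x1101111115110110, 0x455454041961864041461c40000851000c71d75c74000000000000, 0x40000000040000000000000041000000000000000000000000, ⟨[a0, a12, a15, a37], [(a48, a26, l75), (a16, a32, l40), (a24, a36, l70), (a20, a28, l14), (a40, a60, l64), (a8, a4, l4)], a56, l52, [l24], by decide +kernel⟩⟩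
def t86 : VT 3 := ⟨0x2000008011, 0xb000d0007004e0, 0xf000d000f004e0, 0x48004ac02010046c0a9a000e80208000e00041000c40914034000, 0x200000000200000000c00000000000000000000000000000, ⟨[a0, a4, a15, a37], [(a5, a10, l8), (a21, a53, l47), (a38, a55, l50), (a36, a39, l21), (a52, a20, l46), (a7, a6, l1)], a22, l51, [l31, l49], by decide +kernel⟩⟩
def t87 : VT 3 := ⟨0x9001, 0x67fa, 0x6ffa, 0x600025618028015a28000000000000000000000000000f7d035e38, 0x208030000, ⟨[a0, a12, a15], [(a4, a8, l4), (a5, a10, l8), (a6, a7, l1), (a9, a3, l9), (a13, a1, l5)], a14, l3, [l2], by decide +kernel⟩⟩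
def t88 : VT 3 := ⟨0x9001, 0x6f7c, 0x6ffc, 0x6000188d80280284e8000000000000000000000000000efb038cf8, 0x208000c00, ⟨[a0, a12, a15], [(a8, a4, l4), (a10, a5, l8), (a9, a11, l2), (a6, a3, l9), (a14, a13, l3)], a2, l6, [l1], by decide +kernel⟩⟩
def t89 : VT 3 := ⟨0x208001, 0x8021842104010420, 0x8421842104010420, 0xa00a04080018604080a9ae00c80a18e00000000000000914034000, 0x200000000200000810000000000000000000000000000000000, ⟨[a0, a15, a21], [(a5, a10, l8), (a37, a53, l47), (a42, a63, l68), (a32, a47, l28), (a48, a16, l40)], a26, l75, [l38], by decide +kernel⟩⟩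
def t90 : VT 3 := ⟨0x209001, 0x2a006422026420, 0x222a006422026464, 0x6984082180584082892000cb2000000000082c80000914d34000, 0x82000000000000000000000000104000000, ⟨[a0, a12, a15, a21], [(a5, a10, l8), (a37, a53, l47), (a13, a14, l3), (a25, a49, l71), (a17, a29, l15), (a51, a34, l44)], a38, l74, [l6, l35], by decide +kernel⟩⟩
def t91 : VT 3 := ⟨0x1000000001001, 0x1010111101110110, 0x1110111111110110, 0x1061001040051001000000000461c40000851031031041031000, 0x1000000001000000000000000000000041000000000000000, ⟨[a0, a12, a48], [(a32, a16, l40), (a4, a8, l4), (a36, a24, l70), (a40, a44, l24), (a20, a52, l46)], a60, l64, [l14, l52], by decide +kernel⟩⟩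
def t92 : VT 3 := ⟨0x1000000009000, 0xa00f007006000, 0xa00f00f006000, 0x3d015228f40025218628000038208000e00955035000000000000, 0x8000000200000000000000000000000000000030000000000000, ⟨[a12, a15, a48], [(a36, a24, l70), (a37, a26, l75), (a38, a39, l21), (a25, a51, l74), (a13, a49, l71)], a14, l3, [l12], by decide +kernel⟩⟩
def t93 : VT 3 := ⟨0x1000000009001, 0x84006184216110, 0x86006186216110, 0x160a1e84980091e8430c000e34892000c800000000000c3cb1000, 0x2000000080000000000000000000000000000000000000000000, ⟨[a0, a12, a15, a48], [(a4, a8, l4), (a26, a37, l75), (a14, a13, l3), (a38, a50, l72), (a21, a55, l50), (a16, a32, l40)], a31, l18, [l71], by decide +kernel⟩⟩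
def t94 : VT 3 := ⟨0x1000000001001, 0x1100011111110110, 0x1110111111110110, 0x1011841040021441041031000851000c71000000000041000c40, 0x40000000040000000000041000000000000000000000000, ⟨[a0, a12, a48], [(a16, a32, l40), (a8, a4, l4), (a24, a36, l70), (a40, a56, l52), (a20, a28, l14)], a60, l64, [l24, l46], by decide +kernel⟩⟩
def t95 : VT 3 := ⟨0x1000000008001, 0x8400042184210420, 0x8400842184210420, 0xa12a00481898600881a18e000008d3000cb1a18e00000000000000, 0x200000000200000000000000810000000000000000000000000, ⟨[a0, a15, a48], [(a16, a32, l40), (a26, a37, l75), (a21, a31, l18), (a42, a63, l68), (a10, a5, l8)], a58, l54, [l28], by decide +kernel⟩⟩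
def t96 : VT 3 := ⟨0x1000000008001, 0x8020842104210420, 0x8420842104210420, 0xa14a14080918624080a9ae00c80000000000914034000914034000, 0x4000000004000810000000000000000000000000000000000, ⟨[a0, a15, a48], [(a5, a10, l8), (a37, a26, l75), (a21, a53, l47), (a42, a63, l68), (a32, a16, l40)], a47, l28, [l54], by decide +kernel⟩⟩
def t97 : VT 3 := ⟨0x1000000009001, 0xa000f005200530, 0x4a004f00f200530, 0x1d015280b40025280892000c80208000e00955035000914034000, 0x4000000004000000000000000000000000030000000000000, ⟨[a0, a12, a15, a48], [(a36, a24, l70), (a5, a10, l8), (a37, a26, l75), (a21, a53, l47), (a38, a39, l21), (a4, a8, l4)], a55, l50, [l12, l54], by decide +kernel⟩⟩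
def t98 : VT 3 := ⟨0x4000009000, 0xd00300f006000, 0xf00300f006000, 0x2e08802c78008801c72c00003c000000000208038000082c80000, 0x8000000200000000000000030000000000000000000000000000, ⟨[a12, a15, a38], [(a25, a51, l74), (a14, a13, l3), (a26, a50, l72), (a24, a27, l12), (a48, a36, l70)], a37, l75, [l30], by decide +kernel⟩⟩
def t99 : VT 3 := ⟨0x4000001001, 0x8088440022220110, 0x8888440022220110, 0x900925a00014515600208000e00914d34000000000000041031000, 0x20000000010000000000000104000000000000000000000000, ⟨[a0, a12, a38], [(a4, a8, l4), (a21, a55, l50), (a63, a42, l68), (a29, a46, l62), (a25, a17, l15)], a51, l74, [l56], by decide +kernel⟩⟩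
def t100 : VT 3 := ⟨0x4000009001, 0x85002184216110, 0x85002184216110, 0x62a1a0418029160430c000e34000000000a18e000000c3cb1000, 0, ⟨[a0, a12, a15, a38], [(a4, a8, l4), (a21, a55, l50), (a14, a13, l3), (a26, a50, l72), (a16, a31, l18), (a48, a32, l40)], a37, l75, [], by decide +kernel⟩⟩
def t101 : VT 3 := ⟨0x10000001001, 0x1101001111110110, 0x1111001111110110, 0x1011841040021441041031000851000c71000000000041000c40, 0x40000000040000000000041000000000000000000000000, ⟨[a0, a12, a40], [(a8, a4, l4), (a24, a56, l52), (a48, a36, l70), (a16, a32, l40), (a20, a28, l14)], a60, l64, [l46], by decide +kernel⟩⟩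
def t102 : VT 3 := ⟨0x10000009001, 0xd0007000f0106000, 0xd000f000f0106000, 0xa40ec0040019ec0040a18e000004e3cc0000a59e00c40000000000, 0x200000000200000000000000000c00000000000000000000000, ⟨[a0, a12, a15, a40], [(a60, a20, l64), (a28, a44, l58), (a30, a45, l63), (a29, a31, l13), (a46, a63, l62), (a14, a13, l3)], a62, l60, [l23], by decide +kernel⟩⟩
def t103 : VT 3 := ⟨0x10000009001, 0xb101f01171006110, 0xf111f431f1006110, 0x15751851940b61461851031031a59e00031565d40000145d00c40, 0x100001000100001041000000810000000000c00000000000000, ⟨[a0, a12, a15, a40], [(a8, a4, l4), (a24, a56, l52), (a13, a14, l3), (a36, a48, l70), (a44, a32, l24), (a60, a28, l58), (a45, a30, l63), (a46, a47, l23), (a29, a63, l62)], a61, l59, [l13, l28, l34, l60], by decide +kernel⟩⟩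
def t104 : VT 3 := ⟨0x10000009001, 0xd0104300f000530, 0xf3104f00f3005f0, 0x13015cc08c0025cc09550350008d3000cc00000000008d3000cc0, 0xc00000000c0000030000000000c00000000000000000c00, ⟨[a0, a12, a15, a40], [(a8, a4, l4), (a10, a5, l8), (a24, a56, l52), (a48, a36, l70), (a26, a37, l75), (a42, a58, l54), (a25, a59, l56)], a27, l12, [l1, l21, l32, l46, l47], by decide +kernel⟩⟩
def t105 : VT 3 := ⟨0x30000009001, 0x100000005000f30, 0x100000005000ff0, 0x10018c00400014c00000000000000000000410310008d3000cc0, 0xc00, ⟨[a0, a12, a15, a40, a41], [(a8, a4, l4), (a10, a5, l8), (a56, a24, l52), (a11, a9, l2)], a26, l57, [l1], by decide +kernel⟩⟩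
def t106 : VT 3 := ⟨0x30000001001, 0x88084c4422200110, 0x88084c4422220110, 0xaa88888ac61a48849c62800003830c038034892c80c80000000000, 0x20000000010000000000000000000082000000000000000, ⟨[a0, a12, a40, a41], [(a42, a43, l22), (a63, a21, l68), (a46, a29, l62), (a38, a34, l26), (a25, a51, l74), (a8, a4, l4)], a59, l56, [l15], by decide +kernel⟩⟩
def t107 : VT 3 := ⟨0x30000008001, 0x84018c2184200420, 0x84218c2184200420, 0x21100c09184800c0a1955034031a59038031000000000892000c80, 0x1000000001810000000000000000000000000000000000, ⟨[a0, a15, a40, a41], [(a10, a5, l8), (a42, a43, l22), (a26, a58, l54), (a37, a48, l75), (a47, a32, l28), (a63, a21, l68)], a31, l61, [l38], by decide +kernel⟩⟩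
def t108 : VT 3 := ⟨0x1000010000001001, 0x101101111000110, 0x101101111000110, 0x11040011840040021851000031851000031461c40000000000000, 0x1000000001000000000000000000000000000000000000, ⟨[a0, a12, a40, a60], [(a44, a28, l58), (a36, a32, l24), (a24, a48, l70), (a8, a4, l4)], a56, l52, [], by decide +kernel⟩⟩
def t109 : VT 3 := ⟨0x8011, 0x77ea, 0x7fee, 0x841250021021150020000000000000000000000000009d7d35032, 0x104030000, ⟨[a0, a4, a15], [(a12, a8, l4), (a5, a10, l8), (a13, a14, l3), (a9, a1, l5), (a6, a3, l9)], a7, l1, [l2, l6], by decide +kernel⟩⟩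
def t110 : VT 3 := ⟨0x200011, 0x8088444022021100, 0x8888444422021100, 0x900925022014515012000000000914d34000082000032041031000, 0x20000000010000000000000104000000000000000000000000, ⟨[a0, a4, a21], [(a12, a8, l4), (a63, a42, l68), (a29, a46, l62), (a25, a17, l15), (a38, a51, l74)], a55, l50, [l26, l56], by decide +kernel⟩⟩
def t111 : VT 3 := ⟨0x208011, 0xb000f0005004e0, 0xf000f0005044e4, 0x5400045c00250049c0892000c80000000000565000d40d34034d00, 0x100000000100000000000000000000000000c00104000000, ⟨[a0, a4, a15, a21], [(a5, a10, l8), (a37, a53, l47), (a7, a6, l1), (a52, a22, l51), (a36, a20, l46), (a38, a39, l21)], a55, l50, [l6, l48], by decide +kernel⟩⟩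
def t112 : VT 3 := ⟨0x201001, 0x8088444022020110, 0x8088444422020110, 0x92892402a61451401a628000038914d34000082000032000000000, 0x20000000010000000000104000000000000000000000000, ⟨[a0, a12, a21], [(a63, a42, l68), (a29, a46, l62), (a25, a17, l15), (a38, a51, l74), (a4, a8, l4)], a55, l50, [l26], by decide +kernel⟩⟩
def t113 : VT 3 := ⟨0x209001, 0xa800f00a000530, 0xf800f00a000f30, 0x1025ac00400156c0a9a000e80041000c40000000000955035000, 0xc00000000000000000000000030000, ⟨[a0, a12, a15, a21], [(a4, a8, l4), (a5, a10, l8), (a37, a53, l47), (a38, a55, l50), (a39, a36, l21), (a51, a25, l74)], a27, l73, [l2, l31], by decide +kernel⟩⟩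
def t114 : VT 3 := ⟨0x8009, 0x3ef6, 0x7ff6, 0x10001c84400402c444000000000000000000000000000b5d03cc74, 0x104030000, ⟨[a0, a3, a15], [(a1, a2, l0), (a5, a10, l8), (a7, a11, l7), (a6, a4, l1), (a9, a12, l9)], a13, l5, [l2, l6], by decide +kernel⟩⟩
def t115 : VT 3 := ⟨0x208009, 0x2101022184010886, 0x2101022184010886, 0x1802916040062a1a040c3cb1000000000000a18e0000030c000e34, 0, ⟨[a0, a3, a15, a21], [(a1, a2, l0), (a41, a61, l65), (a11, a7, l7), (a26, a56, l57), (a16, a31, l18), (a48, a32, l40)], a37, l75, [], by decide +kernel⟩⟩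
def t116 : VT 3 := ⟨0x208009, 0x3020222240400426, 0x3222222240404466, 0x1800840960060840a6892c80c80082000032000000000914034034, 0x82000000000000000000000000104000000, ⟨[a0, a3, a15, a21], [(a1, a2, l0), (a5, a10, l8), (a37, a53, l47), (a41, a61, l65), (a45, a33, l25), (a60, a22, l69)], a30, l63, [l6, l35], by decide +kernel⟩⟩
def t117 : VT 3 := ⟨0x208009, 0x1031222204440ca0, 0x15f1262244440fa0, 0x1401c4d490002c8e48d3000cc0000000000914034034b1c03c000, 0x14000000024000000000c00000000000104000000000030000, ⟨[a0, a3, a15, a21], [(a5, a10, l8), (a37, a53, l47), (a48, a26, l75), (a7, a11, l7), (a33, a18, l45), (a22, a52, l51), (a41, a60, l69)], a45, l25, [l2, l16, l31, l54, l57], by decide +kernel⟩⟩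
def t118 : VT 3 := ⟨0x1000002000008000, 0x101220244400888, 0x101220244440888, 0x11511013840921023851031031082000032104d00000000000000, 0x10000000020041000000000000000000000000000000000, ⟨[a15, a37, a60], [(a45, a30, l63), (a41, a33, l25), (a26, a48, l75), (a11, a56, l57), (a3, a22, l69)], a7, l7, [l45], by decide +kernel⟩⟩
def t119 : VT 3 := ⟨0x1000002000008001, 0x111011115111010, 0x111111115111010, 0x75855001d41465001000000000851031031d75c74000461c40000, 0x40000000040000000000000041000000000000000000000000, ⟨[a0, a15, a37, a60], [(a48, a26, l75), (a16, a32, l40), (a20, a40, l64), (a24, a28, l14), (a36, a12, l70), (a52, a4, l46)], a56, l34, [l24], by decide +kernel⟩⟩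
def t120 : VT 3 := ⟨0x1000002000008001, 0x8000af03c0300000, 0x8000af0fc0300000, 0x240508053009908063000000000adb038033145d00c40000000000, 0x30000000000000000000, ⟨[a0, a15, a37, a60], [(a40, a20, l64), (a45, a30, l63), (a41, a33, l25), (a42, a43, l22), (a47, a32, l28), (a63, a21, l68)], a31, l61, [l20], by decide +kernel⟩⟩
def t121 : VT 3 := ⟨0x2000009000, 0xb00d007006000, 0xf00d007006000, 0x2e10022a78010021a6aa00003a208000e00000000000104d00000, 0x8000000200000000000000030000000000000000000000000000, ⟨[a12, a15, a37], [(a13, a14, l3), (a25, a49, l71), (a38, a51, l74), (a36, a39, l21), (a48, a24, l70)], a26, l75, [l30], by decide +kernel⟩⟩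
def t122 : VT 3 := ⟨0x2002008001, 0x2022220020222622, 0x2222220220222622, 0x24840a2080884092892000cb2082c80000082000032914034000, 0x2000000002082000000000000000000000000000000000, ⟨[a0, a15, a25, a37], [(a5, a10, l8), (a21, a53, l47), (a13, a49, l71), (a29, a17, l15), (a61, a45, l59), (a1, a9, l5)], a41, l65, [l35, l41], by decide +kernel⟩⟩
def t123 : VT 3 := ⟨0x2002008001, 0x8802840180207110, 0x8802840180207110, 0x612884318011844328a038032851000031000000000145d00c40, 0, ⟨[a0, a15, a25, a37], [(a13, a49, l71), (a12, a14, l3), (a8, a4, l4), (a42, a59, l56), (a47, a32, l28), (a63, a21, l68)], a31, l61, [], by decide +kernel⟩⟩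
def t124 : VT 3 := ⟨0x2002008001, 0x8828044420221530, 0x8ca9444420221530, 0xa00aac8c001869c4c0a9ae38c80000000000082c80000955034c40, 0x800000000400000a18000000000000000000000000000000000, ⟨[a0, a15, a25, a37], [(a5, a10, l8), (a21, a53, l47), (a42, a63, l68), (a8, a59, l56), (a12, a4, l4), (a17, a29, l15), (a51, a34, l44)], a38, l74, [l37, l38, l62], by decide +kernel⟩⟩
def t125 : VT 3 := ⟨0x2002008001, 0x20000000077fa, 0x2000000007ffe, 0x6125602180115a02082000032000000000000000000b5dd35e00, 0x104030000, ⟨[a0, a15, a25, a37], [(a5, a10, l8), (a13, a49, l71), (a12, a14, l3), (a4, a8, l4), (a6, a7, l1), (a9, a1, l5)], a3, l9, [l2, l6], by decide +kernel⟩⟩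
def t126 : VT 3 := ⟨0x2002008001, 0xaa004000207530, 0x88af004000207530, 0x2e121a2a78011161a6aa000e3a000000000000000000145d31000, 0x208000030000000000000000000000000000, ⟨[a0, a15, a25, a37], [(a13, a49, l71), (a12, a14, l3), (a4, a8, l4), (a38, a51, l74), (a21, a55, l50), (a5, a53, l47)], a10, l8, [l30, l37], by decide +kernel⟩⟩
def t127 : VT 3 := ⟨0x2000008011, 0xb00d007007100, 0xf00d007007100, 0x2e12122a78011121a6aa00003a208000e00000000000145d31000, 0x8000000200000000000000030000000000000000000000000000, ⟨[a0, a4, a15, a37], [(a12, a8, l4), (a13, a14, l3), (a25, a49, l71), (a38, a51, l74), (a36, a39, l21), (a48, a24, l70)], a26, l75, [l30], by decide +kernel⟩⟩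
def t128 : VT 3 := ⟨0x8009, 0x3ef6, 0x7ff6, 0x10209c0040840ac004000000000000000000000000000b9ecbc034, 0x104030000, ⟨[a0, a3, a15], [(a1, a2, l0), (a5, a10, l8), (a9, a13, l5), (a7, a11, l7), (a6, a4, l1)], a12, l9, [l2, l6], by decide +kernel⟩⟩
def t129 : VT 3 := ⟨0x2000008009, 0xc010840180600886, 0xc010840180600886, 0x180118443006128843145d00c4085100003100000000028a038032, 0, ⟨[a0, a3, a15, a37], [(a2, a1, l0), (a7, a11, l7), (a22, a52, l51), (a42, a62, l66), (a47, a32, l28), (a63, a21, l68)], a31, l61, [], by decide +kernel⟩⟩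
def t130 : VT 3 := ⟨0x2000008009, 0x1030030000f00ca0, 0x10f0030000f00fa0, 0x20001c6c000802cac08d3000cc0000000000208000e00b1c03c000, 0xc00000000000000000000000030000, ⟨[a0, a3, a15, a37], [(a5, a10, l8), (a21, a53, l47), (a7, a11, l7), (a22, a52, l51), (a20, a23, l11), (a60, a40, l64)], a41, l69, [l2, l31], by decide +kernel⟩⟩
def t131 : VT 3 := ⟨0x2000008009, 0xb0200e0000f00426, 0xf6220f0004f04466, 0xb800ac08401e09c084892c80c80b1c03c000000000000914034034, 0x100004000004004000082000000000030000000000000104000000, ⟨[a0, a3, a15, a37], [(a5, a10, l8), (a21, a53, l47), (a63, a42, l68), (a1, a2, l0), (a41, a61, l65), (a23, a43, l67), (a22, a20, l11)], a60, l69, [l6, l22, l35, l54, l66], by decide +kernel⟩⟩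
def t132 : VT 3 := ⟨0x2000009000, 0xb00d007006000, 0xb00d00f006000, 0x3d015228f40025218628000038208000e00955035000000000000, 0x8000000200000000000000000000000000000030000000000000, ⟨[a12, a15, a37], [(a48, a26, l75), (a36, a24, l70), (a38, a39, l21), (a25, a51, l74), (a13, a49, l71)], a14, l3, [l12], by decide +kernel⟩⟩
def t133 : VT 3 := ⟨0x1000000000200001, 0xc000070000d0000e, 0xc0000f0000d0000e, 0xb40b0120001d701200b1cf00000041031000208000e00000000000, 0x200000000008000000000c00000000000000000000000000000000, ⟨[a0, a21, a60], [(a20, a40, l64), (a22, a23, l11), (a42, a63, l68), (a2, a62, l66), (a3, a1, l0)], a41, l69, [l67], by decide +kernel⟩⟩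
def t134 : VT 3 := ⟨0x1000000000208001, 0xe000f400e0003000, 0xe000f400f0003000, 0x921f64000454f54000000000000d75c74000b1cf00000461c40000, 0x40000000040000000000000000000000000c00000000000000, ⟨[a0, a15, a21, a60], [(a45, a30, l63), (a63, a42, l68), (a47, a31, l61), (a46, a44, l23), (a29, a12, l62), (a61, a13, l59)], a62, l33, [l13], by decide +kernel⟩⟩
def t135 : VT 3 := ⟨0x1000000000208001, 0x12121c4d50000, 0x12121ccdd0000, 0x240681214009a812240000000000c3cb1000b1ce00e34000000000, 0x208000000000000000, ⟨[a0, a15, a21, a60], [(a20, a40, l64), (a22, a23, l11), (a30, a45, l63), (a26, a18, l16), (a16, a31, l18), (a48, a32, l40)], a37, l75, [l17], by decide +kernel⟩⟩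
def t136 : VT 3 := ⟨0x1000000000200001, 0xc000070000d0000e, 0xc0000f0000d0000e, 0x6c001320202b0232020000000004e3033000208000e00082000032, 0x80000000002000000000000000000030000000000000000000000, ⟨[a0, a21, a60], [(a20, a40, l64), (a22, a23, l11), (a3, a41, l69), (a2, a1, l0), (a42, a62, l66)], a63, l68, [l22], by decide +kernel⟩⟩
def t137 : VT 3 := ⟨0x4000208001, 0x85002184017110, 0x85002184017110, 0x62a1a0418029160430c000e34000000000a18e000000c3cb1000, 0, ⟨[a0, a15, a21, a38], [(a4, a55, l50), (a12, a8, l4), (a14, a13, l3), (a26, a50, l72), (a16, a31, l18), (a48, a32, l40)], a37, l75, [], by decide +kernel⟩⟩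
def t138 : VT 3 := ⟨0x4000208001, 0xb000b0005004f0, 0xf000b000d004f0, 0x48004ac02010046c0a9a000e80208000e00041000c40914034000, 0x200000000200000000c00000000000000000000000000000, ⟨[a0, a15, a21, a38], [(a4, a55, l50), (a5, a10, l8), (a37, a53, l47), (a36, a39, l21), (a52, a20, l46), (a7, a6, l1)], a22, l51, [l31, l49], by decide +kernel⟩⟩
def t139 : VT 3 := ⟨0x4000208001, 0x2d00b00e007420, 0x842f00b00f007420, 0x1d00c0d5b4000c0e59d7000cb5041000c40208038000914034000, 0x1000000040000000810000030000000000000000000000000000, ⟨[a0, a15, a21, a38], [(a5, a10, l8), (a37, a53, l47), (a26, a48, l75), (a39, a36, l21), (a14, a50, l72), (a51, a27, l73), (a12, a25, l74)], a13, l3, [l30, l38, l70], by decide +kernel⟩⟩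
def t140 : VT 3 := ⟨0x4000208001, 0x800000000077fa, 0x80000000007ffe, 0x84125a02102115602208000e000000000000000000009d7d35032, 0x104030000, ⟨[a0, a15, a21, a38], [(a4, a55, l50), (a12, a8, l4), (a5, a10, l8), (a13, a14, l3), (a9, a1, l5), (a6, a3, l9)], a7, l1, [l2, l6], by decide +kernel⟩⟩
def t141 : VT 3 := ⟨0x4000208001, 0xaa002002007530, 0x88af002002007530, 0x2e121a2a78011161a6aa000e3a000000000000000000145d31000, 0x208000030000000000000000000000000000, ⟨[a0, a15, a21, a38], [(a4, a55, l50), (a12, a8, l4), (a25, a51, l74), (a13, a14, l3), (a37, a49, l71), (a5, a53, l47)], a10, l8, [l30, l37], by decide +kernel⟩⟩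
def t142 : VT 3 := ⟨0x1000000000208001, 0xe000e400f0005000, 0xe000e400f0007000, 0x9a5de4000556dd4000082c80000996cb4000000000000565d40000, 0x80000000080000000000000000000000000000000000c00000, ⟨[a0, a15, a21, a60], [(a30, a45, l63), (a63, a42, l68), (a62, a61, l33), (a46, a14, l60), (a29, a12, l62), (a31, a28, l13)], a47, l61, [l59], by decide +kernel⟩⟩
def t143 : VT 3 := ⟨0x1000000000208001, 0x131012004d004a0, 0x1b101a004d004a0, 0x240005680009005a80892000c80041031000208000e00b1c034e00, 0x200000000200000000000000000000000000000000000000, ⟨[a0, a15, a21, a60], [(a20, a40, l64), (a5, a10, l8), (a37, a53, l47), (a22, a23, l11), (a52, a7, l51), (a48, a56, l34)], a26, l75, [l49], by decide +kernel⟩⟩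
def t144 : VT 3 := ⟨0x209001, 0xd000f400e0006000, 0xf000f400e0406004, 0xd42de40000b5dd4000565d40000914034000082c80000082c80000, 0x100080000004080000000c00000000000000000000000000000000, ⟨[a0, a12, a15, a21], [(a14, a13, l3), (a63, a42, l68), (a46, a29, l62), (a30, a62, l60), (a45, a60, l63), (a47, a44, l23)], a31, l61, [l33, l59, l66], by decide +kernel⟩⟩
def t145 : VT 3 := ⟨0x200011, 0x8088444022021100, 0x8888444422021100, 0x900925a00014515600208000e00914d34000000000000041031000, 0x20000000010000000000000104000000000000000000000000, ⟨[a0, a4, a21], [(a12, a8, l4), (a38, a55, l50), (a63, a42, l68), (a29, a46, l62), (a25, a17, l15)], a51, l74, [l26, l56], by decide +kernel⟩⟩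
def t146 : VT 3 := ⟨0x201001, 0x8088444402020110, 0x8888444402020110, 0xa00b21a00018711600a18e00e00104d00000000000000041031000, 0x800000000400000208000000000000000000000000000000000, ⟨[a0, a12, a21], [(a4, a8, l4), (a38, a55, l50), (a42, a63, l68), (a34, a46, l26), (a51, a17, l44)], a25, l74, [l37], by decide +kernel⟩⟩
def t147 : VT 3 := ⟨0x209001, 0x2022222202026622, 0x2222222222026f66, 0x84586080102986080892c80c80082c80000000000000db6d36000, 0x80000000080000082000000000000000000000000104030000, ⟨[a0, a12, a15, a21], [(a5, a10, l8), (a37, a53, l47), (a13, a14, l3), (a1, a9, l5), (a41, a61, l65), (a33, a45, l25), (a49, a17, l41)], a25, l71, [l2, l6, l35, l59], by decide +kernel⟩⟩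
def t148 : VT 3 := ⟨0x8000000000009000, 0x5000f000e0006000, 0x7000f000e0006000, 0x542dc00000a5dc0000565d40000000000000082c80000082c80000, 0x80000000080000000c00000000000000000000000000000000, ⟨[a12, a15, a63], [(a14, a13, l3), (a46, a29, l62), (a30, a62, l60), (a45, a60, l63), (a47, a44, l23)], a31, l61, [l59], by decide +kernel⟩⟩
def t149 : VT 3 := ⟨0x8000000000008001, 0x401842184200420, 0x401842184210420, 0x8912008918522004a1851000031851000031a9ae00c80000000000, 0x1000000001000000000000000000810000000000000000, ⟨[a0, a15, a63], [(a42, a21, l68), (a47, a31, l61), (a37, a32, l28), (a26, a48, l75), (a10, a5, l8)], a58, l54, [l18], by decide +kernel⟩⟩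
def t150 : VT 3 := ⟨0x8000000000009001, 0x22442022226420, 0x2622442026226464, 0x906124082194114082892000cb2914034000000000000914d34000, 0x4000000004000082000000000000000000000000104000000, ⟨[a0, a12, a15, a63], [(a5, a10, l8), (a21, a42, l68), (a37, a53, l47), (a13, a14, l3), (a25, a49, l71), (a29, a17, l15)], a46, l62, [l6, l35, l54], by decide +kernel⟩⟩
def t151 : VT 3 := ⟨0x10000001001, 0x1011101101110110, 0x1111101101110110, 0x441461440061851840461c40c40000000000041031000041031000, 0x1000000001000041000000000000000000000000000000000, ⟨[a0, a12, a40], [(a4, a8, l4), (a20, a60, l64), (a36, a52, l46), (a48, a24, l70), (a32, a16, l40)], a44, l24, [l34], by decide +kernel⟩⟩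
def t152 : VT 3 := ⟨0x10000009001, 0x903843107016110, 0xf13863187316910, 0x1523d84194023d441249039000a59e00c40955034031041000c40, 0x10040000020040000030000000000000810000000000000000, ⟨[a0, a12, a15, a40], [(a8, a4, l4), (a24, a56, l52), (a48, a36, l70), (a37, a26, l75), (a32, a16, l40), (a42, a47, l28), (a25, a59, l56), (a13, a14, l3)], a49, l71, [l18, l32, l46, l57], by decide +kernel⟩⟩
def t153 : VT 3 := ⟨0x10000009001, 0xb101f01171006110, 0xf111f011f1006110, 0x955d18519429e14618d3cb1031851000031565d40000145d00c40, 0x100001000100001041000000000000000000c00000000000000, ⟨[a0, a12, a15, a40], [(a8, a4, l4), (a24, a56, l52), (a13, a14, l3), (a36, a48, l70), (a44, a32, l24), (a60, a28, l58), (a45, a30, l63), (a29, a61, l59), (a46, a63, l62)], a47, l23, [l13, l34, l60], by decide +kernel⟩⟩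
def t154 : VT 3 := ⟨0x1000000001001, 0x1010111101110110, 0x1010111111110110, 0x441441001061841001461c40000461c40000851031031000000000, 0x40000000040000000000000000000000041000000000000000, ⟨[a0, a12, a48], [(a32, a16, l40), (a36, a24, l70), (a40, a44, l24), (a20, a60, l64), (a4, a52, l46)], a8, l4, [l14], by decide +kernel⟩⟩
def t155 : VT 3 := ⟨0x1000000008001, 0x8020842104210420, 0x8020842184210420, 0xa14a14001918624001a18e00000a18e00000955034031000000000, 0x200000000200000000000000000000000810000000000000000, ⟨[a0, a15, a48], [(a32, a16, l40), (a37, a26, l75), (a42, a47, l28), (a21, a63, l68), (a5, a53, l47)], a10, l8, [l18], by decide +kernel⟩⟩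
def t156 : VT 3 := ⟨0x1000000009001, 0xc0004300f000530, 0xf2004300f2005f0, 0x1202ccc088001ccc0b1c03c000892000c800000000008d3000cc0, 0x80000000080000030000000000000000000000000000c00, ⟨[a0, a12, a15, a48], [(a8, a4, l4), (a10, a5, l8), (a26, a37, l75), (a42, a58, l54), (a25, a59, l56), (a24, a36, l70)], a27, l12, [l1, l32, l47], by decide +kernel⟩⟩
def t157 : VT 3 := ⟨0x1000000001001, 0x1010111101110110, 0x1110111101110110, 0x441461440061851840461c40c40000000000041031000041031000, 0x1000000001000041000000000000000000000000000000000, ⟨[a0, a12, a48], [(a4, a8, l4), (a36, a24, l70), (a20, a52, l46), (a40, a60, l64), (a32, a16, l40)], a44, l24, [l52], by decide +kernel⟩⟩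
def t158 : VT 3 := ⟨0x1000000009001, 0x8822042006206530, 0x8caa042006206530, 0xa14a3c8c091863c4c0a9ae38c80000000000914034000955034c40, 0x4000000004000a18000000000000000000000000000000000, ⟨[a0, a12, a15, a48], [(a37, a26, l75), (a5, a10, l8), (a21, a53, l47), (a42, a63, l68), (a8, a4, l4), (a25, a59, l56), (a13, a14, l3)], a49, l71, [l37, l54], by decide +kernel⟩⟩
def t159 : VT 3 := ⟨0x41000000009001, 0x11b0013005200530, 0x15b0153105300530, 0x455455840961865440461c40000041031c40914034000955034c40, 0x40004040001004040000000000041000000000000000000000000, ⟨[a0, a12, a15, a48, a54], [(a37, a26, l75), (a5, a10, l8), (a8, a4, l4), (a24, a36, l70), (a56, a40, l52), (a52, a60, l34), (a53, a55, l31)], a21, l47, [l24, l46, l54], by decide +kernel⟩⟩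
def t161 : VT 3 := ⟨0x1000000408000, 0x1010222204040888, 0x1110222204040888, 0x45445c44092186c840461c40c40000000000914034000208038000, 0x10000000020000041000000000000000000000000000000000, ⟨[a15, a22, a48], [(a37, a26, l75), (a7, a52, l51), (a3, a11, l7), (a41, a60, l69), (a33, a45, l25)], a18, l45, [l57], by decide +kernel⟩⟩
def t162 : VT 3 := ⟨0x10000001001, 0x1101101111100110, 0x1101101111110110, 0x51040051841040061851000031851000031461c40c40000000000, 0x1000000001000000000000000000041000000000000000, ⟨[a0, a12, a40], [(a60, a20, l64), (a44, a28, l58), (a36, a32, l24), (a24, a48, l70), (a8, a4, l4)], a56, l52, [l14], by decide +kernel⟩⟩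
def t163 : VT 3 := ⟨0x4009001, 0xd0007000b000f30, 0xf000f000b002ff2, 0x802e8c020001e4c0b1c03c000000000000208038000cf3032cc0, 0x8000000008000000030000000000000000000000082000c00, ⟨[a0, a12, a15, a26], [(a10, a5, l8), (a42, a58, l54), (a8, a4, l4), (a25, a59, l56), (a11, a9, l2), (a24, a27, l12), (a56, a40, l52)], a41, l57, [l1, l5, l32, l55], by decide +kernel⟩⟩
def t164 : VT 3 := ⟨0x1000000001001, 0x1010111101110110, 0x1110111111110110, 0x1021441040011841041000c40000000000851031031041031000, 0x1000000001000000000000000000000041000000000000000, ⟨[a0, a12, a48], [(a32, a16, l40), (a4, a8, l4), (a36, a24, l70), (a20, a52, l46), (a40, a44, l24)], a60, l64, [l14, l52], by decide +kernel⟩⟩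
def t165 : VT 3 := ⟨0xc001, 0x3f7c, 0x3ffe, 0x1020808c40840804c40000000000000000000000000009d7c80cf4, 0x82000c00, ⟨[a0, a14, a15], [(a12, a13, l3), (a8, a4, l4), (a10, a5, l8), (a6, a2, l6), (a9, a3, l9)], a11, l2, [l1, l5], by decide +kernel⟩⟩
def t166 : VT 3 := ⟨0x400c001, 0x4404444440400464, 0x4444444440440464, 0x45040a4100904094914034034104000034104d00000892000c80, 0x4000000004104000000000000000000000000000000000, ⟨[a0, a14, a15, a26], [(a38, a50, l72), (a10, a5, l8), (a42, a58, l54), (a46, a34, l26), (a62, a30, l60), (a2, a6, l6)], a22, l66, [l36, l42], by decide +kernel⟩⟩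
def t167 : VT 3 := ⟨0x400c001, 0x8084844080213110, 0x8084844080213110, 0x60a1a0518009160530c000e340000000008510000310c3cb1000, 0, ⟨[a0, a14, a15, a26], [(a12, a13, l3), (a4, a8, l4), (a38, a50, l72), (a21, a55, l50), (a31, a16, l18), (a63, a42, l68)], a47, l61, [], by decide +kernel⟩⟩
def t168 : VT 3 := ⟨0x1000000004008000, 0x101222240400888, 0x101222240440888, 0x11511013840921023851031031082000032104d00000000000000, 0x10000000020041000000000000000000000000000000000, ⟨[a15, a26, a60], [(a37, a48, l75), (a45, a30, l63), (a41, a33, l25), (a11, a56, l57), (a3, a22, l69)], a7, l7, [l45], by decide +kernel⟩⟩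
def t169 : VT 3 := ⟨0x1000000004008001, 0x111113101111100, 0x111113111111100, 0x738404c1cc14408c1000000000cf3c40c80851000c71461c40000, 0x40000000040000000000000000000000041000000000000000, ⟨[a0, a15, a26, a60], [(a48, a37, l75), (a32, a16, l40), (a40, a20, l64), (a36, a44, l24), (a24, a12, l70), (a56, a52, l34)], a8, l52, [l14], by decide +kernel⟩⟩
def t170 : VT 3 := ⟨0x1000000004008001, 0x8000a500c0f50000, 0x8000a500c0ff0000, 0x2404812150098812250000000000c3cb1000b5d000e35000000000, 0x30000000000, ⟨[a0, a15, a26, a60], [(a20, a40, l64), (a30, a45, l63), (a22, a18, l16), (a21, a23, l11), (a31, a16, l18), (a63, a42, l68)], a47, l61, [l10], by decide +kernel⟩⟩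
def t171 : VT 3 := ⟨0x4004008001, 0x4404440440404464, 0x4444440440444464, 0x45040a4100904094914034034104000034104d00000892000c80, 0x4000000004104000000000000000000000000000000000, ⟨[a0, a15, a26, a38], [(a10, a5, l8), (a42, a58, l54), (a14, a50, l72), (a46, a34, l26), (a62, a30, l60), (a2, a6, l6)], a22, l66, [l36, l42], by decide +kernel⟩⟩
def t172 : VT 3 := ⟨0x4004008001, 0x8084840080217110, 0x8084840080217110, 0x60a1a0518009160530c000e340000000008510000310c3cb1000, 0, ⟨[a0, a15, a26, a38], [(a14, a50, l72), (a12, a13, l3), (a4, a8, l4), (a21, a55, l50), (a31, a16, l18), (a63, a42, l68)], a47, l61, [], by decide +kernel⟩⟩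
def t173 : VT 3 := ⟨0x4004008001, 0x8488440402221530, 0x8ca9440422221530, 0xa00b25a80018715680b1ce34e00104d000000000000008d3031c80, 0x800000000400000a18000000000000000000000000000000000, ⟨[a0, a15, a26, a38], [(a10, a5, l8), (a42, a58, l54), (a21, a63, l68), (a4, a55, l50), (a12, a8, l4), (a34, a46, l26), (a51, a17, l44)], a25, l74, [l37, l38, l62], by decide +kernel⟩⟩
def t174 : VT 3 := ⟨0x4004008001, 0x4000000007f7c, 0x4000000007ffe, 0x60988c41800a84c4104000034000000000000000000adbcb8cc0, 0x82000c00, ⟨[a0, a15, a26, a38], [(a10, a5, l8), (a14, a50, l72), (a12, a13, l3), (a8, a4, l4), (a9, a11, l2), (a6, a2, l6)], a3, l9, [l1, l5], by decide +kernel⟩⟩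
def t175 : VT 3 := ⟨0x4004008001, 0xc0c040002007530, 0x8c8f040002007530, 0x2e0a886c78009845c72c03803c0000000000000000000c3c80c40, 0x208000030000000000000000000000000000, ⟨[a0, a15, a26, a38], [(a14, a50, l72), (a12, a13, l3), (a8, a4, l4), (a25, a51, l74), (a42, a59, l56), (a10, a5, l8)], a58, l54, [l30, l37], by decide +kernel⟩⟩
def t176 : VT 3 := ⟨0x1000000004008001, 0x111013111111010, 0x111013111111110, 0x73851cc0cc1461cc00410310008d3031c80000000000461c40c40, 0x1000000001000000000000000000000000000000041000000, ⟨[a0, a15, a26, a60], [(a48, a37, l75), (a20, a40, l64), (a52, a56, l34), (a36, a4, l46), (a24, a12, l70), (a16, a32, l40)], a28, l14, [l52], by decide +kernel⟩⟩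
def t177 : VT 3 := ⟨0x4008101, 0xd00700b007010, 0xf00700b007010, 0x2e08886c78008845c72c00003c0000000002080380000c3c80c40, 0x8000000200000000000000030000000000000000000000000000, ⟨[a0, a8, a15, a26], [(a12, a4, l4), (a14, a13, l3), (a38, a50, l72), (a25, a51, l74), (a24, a27, l12), (a48, a36, l70)], a37, l75, [l30], by decide +kernel⟩⟩
def t178 : VT 3 := ⟨0x40000008001, 0x8401002184210420, 0x8421002184210420, 0x120044818800048819140340008d3000cb1000000000892000c80, 0x80000000080000000000810000000000000000000000000, ⟨[a0, a15, a42], [(a10, a5, l8), (a26, a58, l54), (a48, a37, l75), (a16, a32, l40), (a21, a31, l18)], a63, l68, [l47], by decide +kernel⟩⟩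
def t179 : VT 3 := ⟨0x40000000101, 0x8808404422201010, 0x8888404422221010, 0x8808808e40124804d4000000000104000034892c80c80041000c40, 0x800000000400000000000000000000082000000000000000, ⟨[a0, a8, a42], [(a12, a4, l4), (a63, a21, l68), (a46, a29, l62), (a38, a34, l26), (a25, a51, l74)], a59, l56, [l15, l50], by decide +kernel⟩⟩
def t180 : VT 3 := ⟨0x40000008101, 0xd0003000f000e20, 0xf0003000f002e22, 0x4c00170800230270809140340004e3033000000000000cb2032c80, 0x2000000002000000000000000030000000000000082000000, ⟨[a0, a8, a15, a42], [(a10, a5, l8), (a26, a58, l54), (a11, a9, l2), (a56, a41, l57), (a24, a40, l52), (a25, a27, l12)], a59, l56, [l5, l53], by decide +kernel⟩⟩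
def t181 : VT 3 := ⟨0x40000001001, 0x8088404402220110, 0x8888404402220110, 0xa22a23a00498613600a18e00e000000000004a2032000041031000, 0x20000000010000208000000000000000000000000000000000, ⟨[a0, a12, a42], [(a4, a8, l4), (a21, a63, l68), (a38, a55, l50), (a51, a25, l74), (a34, a17, l44)], a46, l26, [l37], by decide +kernel⟩⟩
def t182 : VT 3 := ⟨0x40000009001, 0x803802106016110, 0x803802106016110, 0x632884218031844228a038032a18e00000000000000145d00c40, 0, ⟨[a0, a12, a15, a42], [(a8, a4, l4), (a25, a59, l56), (a13, a14, l3), (a37, a49, l71), (a32, a47, l28), (a48, a16, l40)], a26, l75, [], by decide +kernel⟩⟩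
def t183 : VT 3 := ⟨0x40000009001, 0x40c404406026420, 0x444c404406026622, 0x6984084180584084914034034104d00000000000000892c80c80, 0x104000000000000000000000000082000000, ⟨[a0, a12, a15, a42], [(a10, a5, l8), (a26, a58, l54), (a14, a13, l3), (a38, a50, l72), (a34, a46, l26), (a51, a17, l44)], a25, l74, [l5, l36], by decide +kernel⟩⟩
def t184 : VT 3 := ⟨0x40000009001, 0xc0800c00f000530, 0xf0800c00f0005f0, 0x102d8c004001d4c0b1c03c0000000000000410310008d3000cc0, 0x30000000000000000000000000000c00, ⟨[a0, a12, a15, a42], [(a8, a4, l4), (a25, a59, l56), (a10, a5, l8), (a26, a58, l54), (a27, a24, l12), (a51, a38, l74)], a39, l73, [l1, l32], by decide +kernel⟩⟩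
def t185 : VT 3 := ⟨0x40000001001, 0x8088404402220110, 0x8888404402220110, 0xa00b21a00018711600a18e00e00104d00000000000000041031000, 0x800000000400000208000000000000000000000000000000000, ⟨[a0, a12, a42], [(a4, a8, l4), (a21, a63, l68), (a38, a55, l50), (a34, a46, l26), (a51, a17, l44)], a25, l74, [l37], by decide +kernel⟩⟩
def t186 : VT 3 := ⟨0x40000001001, 0x8808404422200110, 0x8808404422220110, 0x8a88808ac61248049c628000038104000034892c80c80000000000, 0x20000000010000000000000000000082000000000000000, ⟨[a0, a12, a42], [(a63, a21, l68), (a46, a29, l62), (a38, a34, l26), (a25, a51, l74), (a8, a4, l4)], a59, l56, [l15], by decide +kernel⟩⟩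
def t187 : VT 3 := ⟨0x8009, 0x5fe6, 0x7ff6, 0x80021682002011a82000000000000000000000000000adb031eb2, 0x82000c00, ⟨[a0, a3, a15], [(a2, a1, l0), (a10, a5, l8), (a11, a7, l7), (a9, a8, l2), (a6, a12, l9)], a14, l6, [l1, l5], by decide +kernel⟩⟩
def t188 : VT 3 := ⟨0x40000008009, 0x4011802104410886, 0x4011802104410886, 0x180318442006328842145d00c40a18e0000000000000028a038032, 0, ⟨[a0, a3, a15, a42], [(a2, a1, l0), (a22, a62, l66), (a7, a11, l7), (a37, a52, l51), (a32, a47, l28), (a48, a16, l40)], a26, l75, [], by decide +kernel⟩⟩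
def t189 : VT 3 := ⟨0x40000008009, 0x5400220044440426, 0x5444220044442626, 0x1801040960061040a6914d34000000000000104000034892000cb2, 0x104000000000000000000000000082000000, ⟨[a0, a3, a15, a42], [(a2, a1, l0), (a22, a62, l66), (a10, a5, l8), (a26, a58, l54), (a30, a18, l16), (a60, a41, l69)], a45, l63, [l5, l36], by decide +kernel⟩⟩
def t190 : VT 3 := ⟨0x40000008009, 0x1501022244440ca0, 0x1531222244640cf0, 0x12504692880904aa2914034000892000cb2104d00000a9a000e80, 0x480000000880000000000082000000000000000000000c00, ⟨[a0, a3, a15, a42], [(a10, a5, l8), (a26, a58, l54), (a48, a37, l75), (a11, a7, l7), (a18, a33, l45), (a22, a30, l16), (a41, a56, l57)], a60, l69, [l1, l25, l47, l51], by decide +kernel⟩⟩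
def t191 : VT 3 := ⟨0x8000000200001, 0x8800044422021110, 0x8800444422021110, 0x24880964500480554000000000524000d34082c80000041000c40, 0x800000000400000000000104000000000000000000000000, ⟨[a0, a21, a51], [(a17, a34, l44), (a25, a29, l15), (a12, a38, l74), (a8, a4, l4), (a42, a59, l56)], a63, l68, [l26], by decide +kernel⟩⟩
def t192 : VT 3 := ⟨0x8000000208001, 0x88808c8888800088, 0x88808c8888880088, 0xf0822c01823c21c028000000000f3c034038a18e38000628000038, 0x8000000008000000000000000000208000000000000000, ⟨[a0, a15, a21, a51], [(a39, a27, l73), (a63, a42, l68), (a47, a31, l61), (a43, a35, l27), (a23, a3, l67), (a55, a7, l49)], a59, l37, [l17], by decide +kernel⟩⟩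
def t193 : VT 3 := ⟨0x8000000208001, 0x2000f42a021420, 0x2000f42a021420, 0x900c0e424000c0d4892000c80145000c74208038000914034000, 0, ⟨[a0, a15, a21, a51], [(a17, a34, l44), (a5, a10, l8), (a37, a53, l47), (a39, a27, l73), (a38, a36, l21), (a25, a12, l74)], a29, l15, [], by decide +kernel⟩⟩
def t194 : VT 3 := ⟨0x8000000208001, 0x44220277fa, 0x4444426027ffe, 0xa49a5926502595516000000000524000d34082c800009d7d35032, 0x4000000100000000000000000104000000000000000104030000, ⟨[a0, a15, a21, a51], [(a5, a10, l8), (a17, a34, l44), (a25, a29, l15), (a12, a38, l74), (a13, a14, l3), (a9, a1, l5), (a4, a8, l4), (a6, a7, l1)], a3, l9, [l2, l6, l26, l72], by decide +kernel⟩⟩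
def t195 : VT 3 := ⟨0xa001, 0x57fa, 0x57fe, 0x68410401a12a10402a000000000000000000000000000fbed3403a, 0x104000030, ⟨[a0, a13, a15], [(a12, a14, l3), (a5, a10, l8), (a9, a1, l5), (a6, a3, l9), (a4, a8, l4)], a7, l1, [l6], by decide +kernel⟩⟩
def t196 : VT 3 := ⟨0x20a001, 0xb000e400f0005000, 0xf000e444f0005000, 0xdc4de4000137dd40004e3cc0000914d34000000000000104d00000, 0x100000000100000000c00000104000000000000000000000000, ⟨[a0, a13, a15, a21], [(a12, a14, l3), (a63, a42, l68), (a29, a46, l62), (a45, a61, l59), (a30, a60, l63), (a31, a28, l13)], a47, l61, [l26, l33, l60], by decide +kernel⟩⟩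
def t197 : VT 3 := ⟨0x20a001, 0xf000260060000622, 0xf2002600f2000f22, 0x480d96000022da60000000000004a2032000186d80000db6036000, 0x2000000002000000000000000000000000c00000000030000, ⟨[a0, a13, a15, a21], [(a5, a10, l8), (a1, a9, l5), (a61, a41, l65), (a45, a29, l59), (a60, a30, l63), (a63, a42, l68)], a62, l33, [l2, l13, l53], by decide +kernel⟩⟩
def t198 : VT 3 := ⟨0x208011, 0x2088224022027722, 0xa888226222027722, 0x4ac5b3a2a7229b361a628000e384a2cb2000082000032145d31000, 0x20000000010208000000082000000000000000000000000, ⟨[a0, a4, a15, a21], [(a12, a8, l4), (a38, a55, l50), (a25, a51, l74), (a29, a17, l15), (a13, a14, l3), (a61, a45, l59), (a1, a41, l65), (a5, a10, l8)], a9, l5, [l25, l37], by decide +kernel⟩⟩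
def t199 : VT 3 := ⟨0x8040000000001, 0x8080404402221110, 0x8080404422221110, 0x22923022480513012000000000104d000004a2032032041031000, 0x20000000010000000000000000000000082000000000000000, ⟨[a0, a42, a51], [(a34, a17, l44), (a38, a46, l26), (a12, a25, l74), (a4, a8, l4), (a21, a55, l50)], a63, l68, [l15], by decide +kernel⟩⟩
def t200 : VT 3 := ⟨0x8040000008001, 0x8880888888a00088, 0x8880888888a00888, 0xe88028e9823a018ea8208038000000000000a9a038c80628000e38, 0x8000000008000000000000000000000000000000208000000, ⟨[a0, a15, a42, a51], [(a39, a27, l73), (a63, a21, l68), (a55, a59, l37), (a23, a7, l49), (a43, a3, l67), (a47, a35, l27)], a31, l61, [l55], by decide +kernel⟩⟩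
def t201 : VT 3 := ⟨0x8040000008001, 0x40040c40f021420, 0x40040c40f021420, 0x89042a220050429291403400030cd00e00082000032892000c80, 0, ⟨[a0, a15, a42, a51], [(a34, a17, l44), (a38, a46, l26), (a10, a5, l8), (a26, a58, l54), (a27, a39, l73), (a25, a24, l12)], a12, l74, [], by decide +kernel⟩⟩
def t202 : VT 3 := ⟨0x8040000008001, 0x404402027f7c, 0x2406422227ffe, 0x1229a28e64845924d6000000000104d000004a20320329d7c80cf4, 0x2000000080000000000000000000000000082000000082000c00, ⟨[a0, a15, a42, a51], [(a10, a5, l8), (a34, a17, l44), (a38, a46, l26), (a12, a25, l74), (a14, a13, l3), (a6, a2, l6), (a8, a4, l4), (a9, a11, l2)], a3, l9, [l1, l5, l15, l71], by decide +kernel⟩⟩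
def t203 : VT 3 := ⟨0x40000008101, 0x4808404442407474, 0xc888404446447474, 0x52a5a8d6c6a4998d5c628038038104000034524d00d000c3c80c40, 0x20000000010208000000000000000104000000000000000, ⟨[a0, a8, a15, a42], [(a12, a4, l4), (a25, a59, l56), (a38, a51, l74), (a46, a34, l26), (a14, a13, l3), (a62, a30, l60), (a2, a22, l66), (a10, a5, l8)], a6, l6, [l16, l37], by decide +kernel⟩⟩
def t204 : VT 3 := ⟨0x40000001001, 0x8808004422220110, 0x8888004422220110, 0xa00aa8840018698440a18e38000000000000082c80000041000c40, 0x800000000400000208000000000000000000000000000000000, ⟨[a0, a12, a42], [(a8, a4, l4), (a21, a63, l68), (a25, a59, l56), (a17, a29, l15), (a51, a34, l44)], a38, l74, [l37], by decide +kernel⟩⟩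
def t205 : VT 3 := ⟨0xc001, 0x3f7c, 0x3f7e, 0x70208009c0ac0800ac000000000000000000000000000fbec80cbc, 0x82000030, ⟨[a0, a14, a15], [(a12, a13, l3), (a10, a5, l8), (a6, a2, l6), (a9, a3, l9), (a8, a4, l4)], a11, l2, [l5], by decide +kernel⟩⟩
def t206 : VT 3 := ⟨0x4000000c001, 0xd000f000e0203000, 0xf000f000e2223000, 0xdc2dc08800b7dc0480565d40000000000000892c80c80082c80000, 0x80000000080000000c00000000000000082000000000000000, ⟨[a0, a14, a15, a42], [(a12, a13, l3), (a63, a21, l68), (a46, a29, l62), (a30, a62, l60), (a45, a60, l63), (a47, a44, l23)], a31, l61, [l15, l33, l59], by decide +kernel⟩⟩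
def t207 : VT 3 := ⟨0x4000000c001, 0xf000600040600464, 0xf040f040406004f4, 0x500d80580024d80980000000000186d80000524000d00db6000d80, 0x100000000100000000000000c00000000000000000000c00, ⟨[a0, a14, a15, a42], [(a10, a5, l8), (a2, a6, l6), (a62, a22, l66), (a30, a46, l60), (a60, a45, l63), (a63, a21, l68)], a61, l33, [l1, l23, l48], by decide +kernel⟩⟩
def t208 : VT 3 := ⟨0x1000000008001, 0x8400042184210420, 0x8420842184210420, 0x122004818802008810000000008d3000cb1a18e00000892000c80, 0x80000000080000000000810000000000000000000000000, ⟨[a0, a15, a48], [(a16, a32, l40), (a10, a5, l8), (a26, a37, l75), (a21, a31, l18), (a42, a58, l54)], a63, l68, [l28, l47], by decide +kernel⟩⟩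
def t209 : VT 3 := ⟨0x1000000008001, 0x8400042184210420, 0x8420042184210420, 0xa12a04480898604880b1ce34000892000c80000000000892000c80, 0x80000000080810000000000000000000000000000000000, ⟨[a0, a15, a48], [(a10, a5, l8), (a26, a37, l75), (a42, a58, l54), (a21, a63, l68), (a16, a32, l40)], a31, l18, [l47], by decide +kernel⟩⟩
def t210 : VT 3 := ⟨0x1000000008008, 0x1100022244440880, 0x1110222244440880, 0x12500692880900aa2000000000892000cb2104d00000208000e00, 0x400000000800000000000082000000000000000000000000, ⟨[a3, a15, a48], [(a18, a33, l45), (a26, a37, l75), (a22, a30, l16), (a11, a7, l7), (a41, a56, l57)], a60, l69, [l25, l51], by decide +kernel⟩⟩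
def t211 : VT 3 := ⟨0x8009, 0x3ef6, 0x7ef6, 0x1238c40044c44c4004000000000000000000000000000df7cf4034, 0x104c00000, ⟨[a0, a3, a15], [(a1, a2, l0), (a5, a10, l8), (a9, a13, l5), (a6, a12, l9), (a7, a4, l1)], a11, l7, [l6], by decide +kernel⟩⟩
def t212 : VT 3 := ⟨0x1000000008009, 0x2020222204240426, 0x2420262244640426, 0x144940949008a40a4892000c80082c80000914034034914034000, 0x4000000004000000000000000000000104000000000000000, ⟨[a0, a3, a15, a48], [(a33, a18, l45), (a5, a10, l8), (a37, a26, l75), (a21, a53, l47), (a41, a45, l25), (a1, a61, l65)], a2, l0, [l16, l54], by decide +kernel⟩⟩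
def t213 : VT 3 := ⟨0x1000000008008, 0x1010222204440880, 0x1010222244440880, 0x4544d40149218e4024461c40000082c80000914034034000000000, 0x400000000800000000000000000000000104000000000000000, ⟨[a3, a15, a48], [(a33, a18, l45), (a37, a26, l75), (a41, a45, l25), (a22, a60, l69), (a7, a52, l51)], a11, l7, [l16], by decide +kernel⟩⟩
def t214 : VT 3 := ⟨0x1001000000000001, 0x110011111111010, 0x110111111111110, 0x40051001001061001041031000851031031461c40000000000000, 0x1000000001000000000000041000000000000000000000000, ⟨[a0, a48, a60], [(a16, a32, l40), (a20, a40, l64), (a52, a56, l34), (a24, a28, l14), (a36, a4, l46)], a12, l70, [l24, l52], by decide +kernel⟩⟩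
def t215 : VT 3 := ⟨0x1001000000008000, 0x110222244400088, 0x110222244440088, 0x61451401a92892402a000000000082000032914d34000628000038, 0x10000000020000000000000000000104000000000000000, ⟨[a15, a48, a60], [(a37, a26, l75), (a45, a30, l63), (a41, a33, l25), (a22, a3, l69), (a52, a56, l34)], a7, l51, [l16], by decide +kernel⟩⟩
def t216 : VT 3 := ⟨0x1001000000008001, 0x2121c4f50000, 0x2323c4f50000, 0x252481694889881aa40000000008d3cb1c8030c000e34000000000, 0x82000000000000000000000000, ⟨[a0, a15, a48, a60], [(a20, a40, l64), (a26, a37, l75), (a30, a45, l63), (a22, a18, l16), (a21, a23, l11), (a16, a32, l40)], a31, l18, [l25], by decide +kernel⟩⟩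
def t217 : VT 3 := ⟨0x1000000000011, 0x1010111101111100, 0x1110111101111100, 0x441461440061851840461c40c40000000000041031000041031000, 0x1000000001000041000000000000000000000000000000000, ⟨[a0, a4, a48], [(a12, a8, l4), (a36, a24, l70), (a20, a52, l46), (a40, a60, l64), (a32, a16, l40)], a44, l24, [l52], by decide +kernel⟩⟩
def t218 : VT 3 := ⟨0x1000000008011, 0x11100130045004e0, 0x15500570445444e4, 0x515014540964024940000000000041000c40d34034d00d34034d00, 0x4100000004100000000000000000000104000000104000000, ⟨[a0, a4, a15, a48], [(a5, a10, l8), (a37, a26, l75), (a7, a6, l1), (a52, a22, l51), (a20, a36, l46), (a60, a40, l64)], a56, l34, [l6, l16, l48, l54], by decide +kernel⟩⟩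
def t219 : VT 3 := ⟨0x1000000009001, 0x1100011111116f6c, 0x1100111111116f6e, 0x5434d10c50e58e10c5461c71000851000c71461c40000996c80cb4, 0x40000000040000041000000041000000000000000082000000, ⟨[a0, a12, a15, a48], [(a16, a32, l40), (a24, a36, l70), (a10, a5, l8), (a14, a13, l3), (a20, a28, l14), (a6, a2, l6), (a40, a60, l64), (a8, a56, l52), (a9, a11, l2)], a3, l9, [l5, l24], by decide +kernel⟩⟩
def t220 : VT 3 := ⟨0x1000000009001, 0x10101111011166fa, 0x10101111111166fe, 0x4c5545443163945843461c40c40461c40000851031031996d34032, 0x40000000040000041000000000000000041000000104000000, ⟨[a0, a12, a15, a48], [(a32, a16, l40), (a36, a24, l70), (a40, a44, l24), (a5, a10, l8), (a13, a14, l3), (a9, a1, l5), (a20, a60, l64), (a4, a52, l46), (a6, a7, l1)], a3, l9, [l6, l14], by decide +kernel⟩⟩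
def t221 : VT 3 := ⟨0x1001000000008000, 0x110222044440808, 0x110222244440888, 0x124804d48808808e4041000c40892c80c80104000034000000000, 0x400000000800000000000082000000000000000000000000, ⟨[a15, a48, a60], [(a56, a52, l34), (a26, a37, l75), (a30, a45, l63), (a22, a18, l16), (a41, a3, l69)], a11, l57, [l25, l51], by decide +kernel⟩⟩
def t222 : VT 3 := ⟨0x1001000000000001, 0x110011111111010, 0x110111111111010, 0x61841001441441001000000000851031031461c40000461c40000, 0x40000000040000000000000041000000000000000000000000, ⟨[a0, a48, a60], [(a16, a32, l40), (a20, a40, l64), (a24, a28, l14), (a36, a12, l70), (a52, a4, l46)], a56, l34, [l24], by decide +kernel⟩⟩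
def t223 : VT 3 := ⟨0x1000000001001, 0x1100011111110110, 0x1100111111110110, 0x441440041061840041461c40000851000c71461c40000000000000, 0x40000000040000000000000041000000000000000000000000, ⟨[a0, a12, a48], [(a16, a32, l40), (a24, a36, l70), (a20, a28, l14), (a40, a60, l64), (a8, a4, l4)], a56, l52, [l24], by decide +kernel⟩⟩
def t224 : VT 3 := ⟨0x1000000009001, 0x1100011111116f6c, 0x1100111111116f6e, 0x5434d10c50e58e10c5461c71000851000c71461c40000996c80cb4, 0x40000000040000041000000041000000000000000082000000, ⟨[a0, a12, a15, a48], [(a16, a32, l40), (a24, a36, l70), (a20, a28, l14), (a10, a5, l8), (a14, a13, l3), (a6, a2, l6), (a40, a60, l64), (a8, a56, l52), (a9, a11, l2)], a3, l9, [l5, l24], by decide +kernel⟩⟩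
def t225 : VT 3 := ⟨0x1000000009001, 0x10101111011166fa, 0x10101111111166fe, 0x4c5545443163945843461c40c40461c40000851031031996d34032, 0x40000000040000041000000000000000041000000104000000, ⟨[a0, a12, a15, a48], [(a32, a16, l40), (a36, a24, l70), (a5, a10, l8), (a13, a14, l3), (a40, a44, l24), (a9, a1, l5), (a20, a60, l64), (a4, a52, l46), (a6, a7, l1)], a3, l9, [l6, l14], by decide +kernel⟩⟩
def t226 : VT 3 := ⟨0x1000000000101, 0x1100011111111010, 0x1110011111111010, 0x441451840061861440461c71000041000c40000000000041000c40, 0x40000000040041000000000000000000000000000000000, ⟨[a0, a8, a48], [(a12, a4, l4), (a24, a36, l70), (a40, a56, l52), (a20, a60, l64), (a16, a32, l40)], a28, l14, [l46], by decide +kernel⟩⟩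
def t227 : VT 3 := ⟨0x1000000008101, 0x1110032005100e20, 0x1330232207302e22, 0x4930134808e2023880000000000cb2032c80041031000cb2032c80, 0x2080000002080000000000082000000000000000082000000, ⟨[a0, a8, a15, a48], [(a10, a5, l8), (a26, a37, l75), (a11, a9, l2), (a56, a41, l57), (a40, a24, l52), (a60, a20, l64)], a52, l34, [l5, l25, l47, l53], by decide +kernel⟩⟩
def t228 : VT 3 := ⟨0x1000000000011, 0x1010111101111100, 0x1110111111111100, 0x1061001040051001000000000461c40000851031031041031000, 0x1000000001000000000000000000000041000000000000000, ⟨[a0, a4, a48], [(a32, a16, l40), (a12, a8, l4), (a36, a24, l70), (a40, a44, l24), (a20, a52, l46)], a60, l64, [l14, l52], by decide +kernel⟩⟩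
def t229 : VT 3 := ⟨0x81000000008010, 0x7000f0047000c0, 0x7000f084f100c0, 0x8dc014ec0b13024ec0000000000208000e009d7034cc0208000e00, 0x200000000200000000000000000000810000c00000000000, ⟨[a4, a15, a48, a55], [(a37, a26, l75), (a38, a21, l50), (a36, a39, l21), (a52, a20, l46), (a22, a7, l51), (a54, a53, l31)], a6, l48, [l11, l18], by decide +kernel⟩⟩
def t230 : VT 3 := ⟨0x2000009001, 0x1101011115110110, 0x1111111115110110, 0x15054841940064441000000000851000c71d75c74000041000c40, 0x40000000040000000000041000000000000000000000000, ⟨[a0, a12, a15, a37], [(a48, a26, l75), (a16, a32, l40), (a8, a4, l4), (a24, a36, l70), (a20, a28, l14), (a40, a56, l52)], a60, l64, [l24, l46], by decide +kernel⟩⟩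
def t231 : VT 3 := ⟨0x200000a001, 0xaa004002205530, 0x88af004002205530, 0x2e121a2a78011161a6aa000e3a000000000000000000145d31000, 0x208000030000000000000000000000000000, ⟨[a0, a13, a15, a37], [(a12, a14, l3), (a4, a8, l4), (a25, a49, l71), (a38, a51, l74), (a21, a55, l50), (a5, a53, l47)], a10, l8, [l30, l37], by decide +kernel⟩⟩
def t232 : VT 3 := ⟨0x8002000008001, 0x7000f0407000c, 0x7000f0407000e, 0x71601403e9ac02403e08200003200000000099603403272c00003c, 0x2000000002000000000000000000000000000000000030, ⟨[a0, a15, a37, a51], [(a48, a26, l75), (a34, a17, l44), (a50, a49, l30), (a18, a2, l42), (a33, a3, l45), (a32, a16, l40)], a35, l20, [l41], by decide +kernel⟩⟩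
def t233 : VT 3 := ⟨0x8002000008001, 0x88a004d008200430, 0x88b004d008300430, 0x900c8c024000c4c0892000c80041000c40208038000955034c40, 0x40000000040000000000000000000000000000000000000, ⟨[a0, a15, a37, a51], [(a5, a10, l8), (a21, a53, l47), (a39, a27, l73), (a38, a36, l21), (a55, a4, l50), (a63, a42, l68)], a59, l37, [l46], by decide +kernel⟩⟩
def t234 : VT 3 := ⟨0x10002000008001, 0x1101011115111010, 0x1101131115111910, 0x54055001901065001041031000851031031d75c74000000000000, 0x11000000021000000000000041000000000000000000000000, ⟨[a0, a15, a37, a52], [(a48, a26, l75), (a16, a32, l40), (a60, a56, l34), (a20, a40, l64), (a24, a28, l14), (a36, a4, l46)], a12, l70, [l24, l52, l57], by decide +kernel⟩⟩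
def t235 : VT 3 := ⟨0x10002000008001, 0x403efe, 0x403ffe, 0x52185cd4046446cd40000000000000000000524000d00f7dc7cc40, 0x41030000, ⟨[a0, a15, a37, a52], [(a5, a10, l8), (a7, a22, l51), (a6, a4, l1), (a3, a11, l7), (a9, a12, l9), (a1, a13, l5)], a2, l0, [l2], by decide +kernel⟩⟩
def t236 : VT 3 := ⟨0x10002000008001, 0x1121010004f004a0, 0x11a1018004f004a0, 0x240005680009005a80892000c80041031000208000e00b1c034e00, 0x200000000200000000000000000000000000000000000000, ⟨[a0, a15, a37, a52], [(a5, a10, l8), (a21, a53, l47), (a22, a7, l51), (a20, a23, l11), (a60, a40, l64), (a48, a56, l34)], a26, l75, [l49], by decide +kernel⟩⟩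
def t237 : VT 3 := ⟨0xa001, 0x57fa, 0x5ffe, 0x841250021021150020000000000000000000000000009d7d35032, 0x104030000, ⟨[a0, a13, a15], [(a12, a14, l3), (a4, a8, l4), (a5, a10, l8), (a9, a1, l5), (a6, a3, l9)], a7, l1, [l2, l6], by decide +kernel⟩⟩
def t238 : VT 3 := ⟨0x2000009000, 0xd00d00e006000, 0xf00d00e006000, 0x370a2015dc00920259550000350000000004a2032000082c80000, 0x2000000080000000000000030000000000000000000000000000, ⟨[a12, a15, a37], [(a26, a48, l75), (a14, a13, l3), (a38, a50, l72), (a51, a25, l74), (a39, a36, l21)], a27, l73, [l30], by decide +kernel⟩⟩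
def t239 : VT 3 := ⟨0x200000a001, 0x1a00d0025055f0, 0x1f00d002f055f0, 0x56e12176a7a5111b5a6aa00003a208000e00565000d40145d31000, 0x8000000200000000000000030000000000000000c00000000000, ⟨[a0, a13, a15, a37], [(a12, a14, l3), (a25, a49, l71), (a4, a8, l4), (a38, a51, l74), (a36, a39, l21), (a52, a20, l46), (a7, a22, l51), (a5, a10, l8)], a6, l1, [l11, l30], by decide +kernel⟩⟩
def t240 : VT 3 := ⟨0x8002000008000, 0x500d00e007000, 0x500d00f007000, 0x2b0aa0406c009a040000000000041000c406aa03a000082c80000, 0x2000000080000000000000000000000000000030000000000000, ⟨[a15, a37, a51], [(a39, a27, l73), (a38, a36, l21), (a12, a25, l74), (a14, a13, l3), (a26, a48, l75)], a50, l72, [l12], by decide +kernel⟩⟩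
def t241 : VT 3 := ⟨0x8002000008001, 0x70007040f000a, 0x7000f040f000a, 0x61401403d92802403d000000000955000035f3c034038628000038, 0x8000000008000000000000000030000000000000000000, ⟨[a0, a15, a37, a51], [(a48, a26, l75), (a16, a32, l40), (a17, a34, l44), (a18, a19, l10), (a33, a3, l45), (a49, a1, l41)], a50, l30, [l20], by decide +kernel⟩⟩
def t242 : VT 3 := ⟨0x8002000008001, 0x2000d42a221420, 0x2000d42a221420, 0x900c0e424000c0d4892000c80145000c74208038000914034000, 0, ⟨[a0, a15, a37, a51], [(a17, a34, l44), (a5, a10, l8), (a21, a53, l47), (a39, a27, l73), (a38, a36, l21), (a25, a12, l74)], a29, l15, [], by decide +kernel⟩⟩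
def t243 : VT 3 := ⟨0x8002000008001, 0xd00a0077fa, 0x80004d00f007ffe, 0x2f12f6407c011fa40000000000041000c406aa03a000b5dd35e00, 0x20000000010000000000000000000000000030000104030000, ⟨[a0, a15, a37, a51], [(a5, a10, l8), (a39, a27, l73), (a38, a36, l21), (a12, a25, l74), (a4, a8, l4), (a6, a7, l1), (a13, a14, l3), (a9, a3, l9)], a1, l5, [l2, l6, l12, l56], by decide +kernel⟩⟩
def t244 : VT 3 := ⟨0x400c001, 0x10c03400b003f30, 0x10f0f400b003f30, 0x4ee09b86c7a30ab45c72c00003c4e30330002080380000c3c80c40, 0x8000000200000000000000030000030000000000000000000000, ⟨[a0, a14, a15, a26], [(a12, a13, l3), (a38, a50, l72), (a8, a4, l4), (a25, a51, l74), (a24, a27, l12), (a56, a40, l52), (a11, a41, l57), (a10, a5, l8)], a9, l2, [l22, l30], by decide +kernel⟩⟩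
def t245 : VT 3 := ⟨0x4009000, 0xd00f00a006000, 0xf00f00a006000, 0x170800559c0080065955000035041000c40000000000082c80000, 0x1000000040000000000000030000000000000000000000000000, ⟨[a12, a15, a26], [(a37, a48, l75), (a14, a13, l3), (a38, a50, l72), (a39, a36, l21), (a51, a25, l74)], a27, l73, [l30], by decide +kernel⟩⟩
def t246 : VT 3 := ⟨0x8000004008000, 0x300e00b007000, 0x300f00b007000, 0x2d101b0074010170000000000072c000f00041031000104d00000, 0x4000000100000000000000000000000c00000000000000000000, ⟨[a15, a26, a51], [(a27, a39, l73), (a25, a24, l12), (a12, a38, l74), (a13, a14, l3), (a37, a48, l75)], a49, l71, [l21], by decide +kernel⟩⟩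
def t247 : VT 3 := ⟨0x8000004008001, 0x70027000f000a, 0x70027000f000e, 0x6960004be9aa0008be104000034996000cb40000000006aa00003a, 0x4000000004000000000000000000000000000000000030, ⟨[a0, a15, a26, a51], [(a48, a37, l75), (a17, a34, l44), (a49, a50, l30), (a33, a1, l41), (a18, a3, l45), (a16, a32, l40)], a19, l10, [l42], by decide +kernel⟩⟩
def t248 : VT 3 := ⟨0x8000004008001, 0x40044c40b021420, 0x40044c40b021420, 0x90052a2240005292914034000208000e000c3031032892000c80, 0, ⟨[a0, a15, a26, a51], [(a34, a17, l44), (a10, a5, l8), (a42, a58, l54), (a27, a39, l73), (a25, a24, l12), (a38, a12, l74)], a46, l26, [], by decide +kernel⟩⟩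
def t249 : VT 3 := ⟨0x8000004008001, 0xc00b007f7c, 0x8000f00b207ffe, 0x2f099bc07c00a97c000000000072c000f00041031000adbcb8cc0, 0x800000000400000000000000000c00000000000082000c00, ⟨[a0, a15, a26, a51], [(a10, a5, l8), (a27, a39, l73), (a25, a24, l12), (a12, a38, l74), (a8, a4, l4), (a9, a11, l2), (a14, a13, l3), (a6, a3, l9)], a2, l6, [l1, l5, l21, l50], by decide +kernel⟩⟩
def t250 : VT 3 := ⟨0x40000000101, 0x8808004422221010, 0x8888004422221010, 0x24028964500018554208038000524000d34000000000041000c40, 0x800000000400000000000104000000000000000000000000, ⟨[a0, a8, a42], [(a12, a4, l4), (a25, a59, l56), (a51, a38, l74), (a17, a34, l44), (a21, a29, l15)], a63, l68, [l50], by decide +kernel⟩⟩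
def t251 : VT 3 := ⟨0x4000000a001, 0x8088404402225110, 0x8888404402225110, 0xa26b23a00598713600a18e00e000000000004a2032000145d31000, 0x20000000010000208000000000000000000000000000000000, ⟨[a0, a13, a15, a42], [(a12, a14, l3), (a4, a8, l4), (a21, a63, l68), (a38, a55, l50), (a51, a25, l74), (a34, a17, l44)], a46, l26, [l37], by decide +kernel⟩⟩
def t252 : VT 3 := ⟨0x4000000a001, 0xb000e000f0205000, 0xf000f000f0205000, 0x884b40880112740480000000000b1cf00000cf3c40c80104d00000, 0x100000000100000000000000000c00000000000000000000000, ⟨[a0, a13, a15, a42], [(a12, a14, l3), (a63, a21, l68), (a29, a46, l62), (a31, a47, l61), (a30, a28, l13), (a45, a60, l63)], a61, l59, [l23, l60], by decide +kernel⟩⟩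
def t253 : VT 3 := ⟨0x4000000a001, 0x803802106015110, 0x803802106015110, 0x632884218031844228a038032a18e00000000000000145d00c40, 0, ⟨[a0, a13, a15, a42], [(a12, a14, l3), (a8, a4, l4), (a25, a59, l56), (a37, a49, l71), (a32, a47, l28), (a48, a16, l40)], a26, l75, [], by decide +kernel⟩⟩
def t254 : VT 3 := ⟨0x4000000a001, 0x888b80a18f200100, 0x888f80e18f210110, 0x893221a938d22116a3adb000e33851000031a9ae00c80041031000, 0x801000000401000000030000000000810000000000000000, ⟨[a0, a13, a15, a42], [(a63, a21, l68), (a47, a31, l61), (a37, a32, l28), (a25, a49, l71), (a26, a48, l75), (a59, a8, l56), (a51, a55, l37), (a27, a24, l12)], a39, l73, [l18, l30, l50], by decide +kernel⟩⟩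
def t255 : VT 3 := ⟨0x60000008001, 0x1400290044540428, 0x9401290244d40428, 0x64048805c02988806c00000000028acb8000145000c74628000038, 0x200000010008000020000000000000000000000000000000000000, ⟨[a0, a15, a41, a42], [(a40, a43, l22), (a60, a20, l64), (a22, a3, l69), (a30, a45, l63), (a26, a18, l16), (a10, a5, l8)], a58, l54, [l45, l67], by decide +kernel⟩⟩
def t256 : VT 3 := ⟨0x60000008001, 0xd0009000e000f20, 0xf0009000f000f20, 0x4801d08020102d080955035000041031000208038000892000c80, 0x1000000001000000030000000000000000000000000000000, ⟨[a0, a15, a41, a42], [(a10, a5, l8), (a26, a58, l54), (a11, a56, l57), (a43, a40, l22), (a59, a27, l55), (a8, a9, l2)], a25, l56, [l32, l52], by decide +kernel⟩⟩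
def t257 : VT 3 := ⟨0x60000008001, 0x1111a92340510088, 0x9111a92340d50088, 0x64051965a029929a6a04103100028a038032145d00c40628000e38, 0x200000010008000020000000000000000000000000000208000000, ⟨[a0, a15, a41, a42], [(a40, a43, l22), (a60, a20, l64), (a45, a30, l63), (a37, a33, l25), (a22, a3, l69), (a52, a7, l51), (a48, a56, l34), (a32, a16, l40)], a47, l28, [l45, l67], by decide +kernel⟩⟩
def t258 : VT 3 := ⟨0x60000008001, 0x1501202244400ca8, 0x9f31202244440ca8, 0x115150938409250a3955035031082000032104d00000892000c80, 0x10000000020851030000000000000000000000000000000, ⟨[a0, a15, a41, a42], [(a10, a5, l8), (a26, a58, l54), (a37, a48, l75), (a11, a56, l57), (a45, a33, l25), (a60, a30, l63), (a3, a22, l69)], a7, l7, [l32, l34, l38, l45], by decide +kernel⟩⟩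
def t259 : VT 3 := ⟨0x40000008101, 0xc0c004006007430, 0x8c8f004006007430, 0x2e0a886c78009845c72c03803c0000000000000000000c3c80c40, 0x208000030000000000000000000000000000, ⟨[a0, a8, a15, a42], [(a12, a4, l4), (a25, a59, l56), (a38, a51, l74), (a14, a13, l3), (a26, a50, l72), (a10, a5, l8)], a58, l54, [l30, l37], by decide +kernel⟩⟩
def t260 : VT 3 := ⟨0x40000008101, 0xc0800c00f001430, 0xc8800f00f201430, 0x2d029b4074001974020803800072c000f00041031000041000c40, 0x800000000400000000000000000c00000000000000000000, ⟨[a0, a8, a15, a42], [(a12, a4, l4), (a25, a59, l56), (a51, a38, l74), (a27, a39, l73), (a26, a24, l12), (a10, a5, l8)], a58, l54, [l21, l50], by decide +kernel⟩⟩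
def t261 : VT 3 := ⟨0x20c001, 0x8808044422023110, 0x8888044422023110, 0xa26aa8940598698540a18e38000524000d000000000000c3c80c40, 0x800000000400208000000000000000000000000000000000, ⟨[a0, a14, a15, a21], [(a12, a13, l3), (a8, a4, l4), (a42, a63, l68), (a25, a59, l56), (a51, a38, l74), (a17, a29, l15)], a34, l44, [l37], by decide +kernel⟩⟩
def t262 : VT 3 := ⟨0x20c001, 0xd000f400e0003000, 0xf000f400f0003000, 0x902ae40000946d4000000000000d75c74000a9ae80000082c80000, 0x80000000080000000000000000000000000c00000000000000, ⟨[a0, a14, a15, a21], [(a12, a13, l3), (a63, a42, l68), (a46, a29, l62), (a47, a31, l61), (a45, a44, l23), (a30, a60, l63)], a62, l60, [l13, l59], by decide +kernel⟩⟩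
def t263 : VT 3 := ⟨0x20c001, 0x85006184013110, 0x85006184013110, 0x62a1a0418029160430c000e34000000000a18e000000c3cb1000, 0, ⟨[a0, a14, a15, a21], [(a12, a13, l3), (a4, a8, l4), (a38, a55, l50), (a26, a50, l72), (a16, a31, l18), (a48, a32, l40)], a37, l75, [], by decide +kernel⟩⟩
def t264 : VT 3 := ⟨0x20c001, 0x888d84f08c010010, 0x888f84f18e010110, 0x91522c85595421c465b5d038035b1ce34000851000031041000c40, 0x20001000010001000000030810000000000000000000000000, ⟨[a0, a14, a15, a21], [(a63, a42, l68), (a31, a47, l61), (a26, a16, l18), (a38, a50, l72), (a37, a48, l75), (a55, a4, l50), (a51, a59, l37), (a39, a36, l21)], a27, l73, [l28, l30, l56], by decide +kernel⟩⟩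
def t265 : VT 3 := ⟨0x608001, 0x1020232240900428, 0x90212b2240940428, 0x64050121a02990122a0000000000c303103230cd00e00628000038, 0x200000010008000020000000000000000000000000000000000000, ⟨[a0, a15, a21, a22], [(a20, a23, l11), (a60, a40, l64), (a41, a3, l69), (a45, a30, l63), (a37, a33, l25), (a5, a53, l47)], a10, l8, [l45, l67], by decide +kernel⟩⟩
def t266 : VT 3 := ⟨0x608001, 0xb000e0009004f0, 0xf000f0009004f0, 0x480046c0201004ac08d3000cc0208000e00041000c40914034000, 0x40000000040000000c00000000000000000000000000000, ⟨[a0, a15, a21, a22], [(a5, a10, l8), (a37, a53, l47), (a7, a52, l51), (a23, a20, l11), (a55, a39, l49), (a4, a6, l1)], a38, l50, [l31, l46], by decide +kernel⟩⟩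
def t267 : VT 3 := ⟨0x608001, 0x11112301c4950808, 0x91112b03c4950808, 0x64049965c0298a9a6c041000c400c3cb100030c000e34628038038, 0x200000010008000020000000000000000000000000000208000000, ⟨[a0, a15, a21, a22], [(a20, a23, l11), (a60, a40, l64), (a30, a45, l63), (a26, a18, l16), (a41, a3, l69), (a56, a11, l57), (a48, a52, l34), (a16, a32, l40)], a31, l18, [l45, l67], by decide +kernel⟩⟩
def t268 : VT 3 := ⟨0x608001, 0x1031222044040ca8, 0x95f1222244040ca8, 0x114844d58408848e58d3000cf1082c80000104000034914034000, 0x10000000020851000c00000000000000000000000000000, ⟨[a0, a15, a21, a22], [(a5, a10, l8), (a37, a53, l47), (a26, a48, l75), (a7, a52, l51), (a30, a18, l16), (a60, a45, l63), (a3, a41, l69)], a11, l7, [l31, l34, l38, l45], by decide +kernel⟩⟩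
def t269 : VT 3 := ⟨0x208011, 0xa800f00a001520, 0x8a804f00f001520, 0x2b02ba406c001b640208000e00041000c406aa03a000041031000, 0x20000000010000000000000000000000000030000000000000, ⟨[a0, a4, a15, a21], [(a12, a8, l4), (a38, a55, l50), (a51, a25, l74), (a39, a27, l73), (a37, a36, l21), (a5, a53, l47)], a10, l8, [l12, l56], by decide +kernel⟩⟩
def t270 : VT 3 := ⟨0x2000008001, 0x8021840084210420, 0x8421840084210420, 0x900224080014214080892000c80b1ce34000000000000914034000, 0x4000000004000000000000810000000000000000000000000, ⟨[a0, a15, a37], [(a5, a10, l8), (a21, a53, l47), (a63, a42, l68), (a31, a47, l61), (a26, a16, l18)], a48, l75, [l54], by decide +kernel⟩⟩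
def t271 : VT 3 := ⟨0x6000008001, 0x8008c49588220000, 0x8008c495aa220000, 0x8899088e22525084d2000000000145d00c40a9a038cb2000000000, 0x82000000000000000, ⟨[a0, a15, a37, a38], [(a39, a36, l21), (a51, a27, l73), (a34, a17, l44), (a42, a46, l26), (a63, a21, l68), (a47, a32, l28)], a31, l61, [l15], by decide +kernel⟩⟩
def t272 : VT 3 := ⟨0x6000008001, 0xb00090007004f0, 0xf0009000f004f0, 0x48004ac02010046c0a9a000e80208000e00041000c40914034000, 0x200000000200000000c00000000000000000000000000000, ⟨[a0, a15, a37, a38], [(a36, a39, l21), (a5, a10, l8), (a21, a53, l47), (a4, a55, l50), (a52, a20, l46), (a7, a6, l1)], a22, l51, [l31, l49], by decide +kernel⟩⟩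
def t273 : VT 3 := ⟨0x6000008001, 0xaa000002207530, 0xfa000002207f74, 0x4125a80100115680a9a000e80000000000000000000955d35000, 0xc00000000000000000000104030000, ⟨[a0, a15, a37, a38], [(a5, a10, l8), (a21, a53, l47), (a4, a55, l50), (a12, a8, l4), (a13, a14, l3), (a25, a49, l71)], a51, l74, [l2, l6, l31], by decide +kernel⟩⟩
def t274 : VT 3 := ⟨0x6000008001, 0xa800900a201530, 0x8a804900f201530, 0x2b02ba406c001b640208000e00041000c406aa03a000041031000, 0x20000000010000000000000000000000000030000000000000, ⟨[a0, a15, a37, a38], [(a39, a36, l21), (a51, a27, l73), (a12, a25, l74), (a4, a8, l4), (a21, a55, l50), (a5, a53, l47)], a10, l8, [l12, l56], by decide +kernel⟩⟩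
def t275 : VT 3 := ⟨0x6000008001, 0x40c44940e027420, 0x444c44940f027622, 0x2f0ae0c47c009e0c4914034034041000c406aa03a000892c80c80, 0x2000000080000000104000000000000000000030000082000000, ⟨[a0, a15, a37, a38], [(a39, a36, l21), (a51, a27, l73), (a12, a25, l74), (a14, a13, l3), (a10, a5, l8), (a26, a50, l72), (a42, a58, l54), (a34, a17, l44)], a46, l26, [l5, l12, l36], by decide +kernel⟩⟩
def t276 : VT 3 := ⟨0x6000048001, 0xc00940e027004, 0xc00940f027004, 0x11d01c066b4402c056000000000041000c40b9e03c032104000034, 0x30000000000000, ⟨[a0, a15, a18, a37, a38], [(a39, a36, l21), (a51, a27, l73), (a34, a17, l44), (a50, a2, l42), (a14, a26, l72), (a12, a25, l74)], a13, l3, [l12], by decide +kernel⟩⟩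
def t277 : VT 3 := ⟨0x6000008001, 0xaa000002207530, 0x88fa000002207f30, 0x28025aa8600015698eba000eb8000000000000000000955035000, 0x208000c00000000000000000000000030000, ⟨[a0, a15, a37, a38], [(a5, a10, l8), (a21, a53, l47), (a4, a55, l50), (a12, a8, l4), (a25, a51, l74), (a13, a49, l71)], a14, l3, [l2, l31, l37], by decide +kernel⟩⟩
def t278 : VT 3 := ⟨0x6200000000, 0xbe9d00000000, 0xfe9d00000000, 0x9004e40240148d4014000000000df7cf4034000000000000000000, 0x104c00000000000000000000000, ⟨[a33, a37, a38], [(a41, a45, l25), (a35, a44, l29), (a32, a34, l20), (a47, a42, l28), (a39, a36, l21)], a43, l27, [l23], by decide +kernel⟩⟩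
def t279 : VT 3 := ⟨0x6000008001, 0x8028449408220420, 0x8028449408220420, 0x990c06224050c052000000000145d00c4028a038032914034000, 0, ⟨[a0, a15, a37, a38], [(a5, a10, l8), (a39, a36, l21), (a51, a27, l73), (a34, a17, l44), (a42, a46, l26), (a21, a53, l47)], a63, l68, [], by decide +kernel⟩⟩
def t280 : VT 3 := ⟨0x2000009000, 0xb00c00f006000, 0xf00c00f006000, 0x2e100b0278010070208200003272c000f00000000000104d00000, 0x4000000100000000000000000000000c00000000000000000000, ⟨[a12, a15, a37], [(a13, a14, l3), (a25, a49, l71), (a51, a38, l74), (a27, a39, l73), (a26, a48, l75)], a24, l12, [l72], by decide +kernel⟩⟩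
def t281 : VT 3 := ⟨0x2000009001, 0xc0a04c00f006530, 0xc0e04c00f006530, 0x2f105b827c010578299603403272c000f00041031000996d00c80, 0x4000000100000000000000000000000c00000000000000000000, ⟨[a0, a12, a15, a37], [(a13, a14, l3), (a25, a49, l71), (a51, a38, l74), (a27, a39, l73), (a26, a24, l12), (a10, a5, l8), (a42, a58, l54), (a8, a4, l4)], a59, l56, [l72], by decide +kernel⟩⟩
def t282 : VT 3 := ⟨0x2000009001, 0x80b84d103016110, 0x888f8cd903016110, 0x2e328a6a78031865a6aa03803aa18e00e00000000000145d00c40, 0x8000000200000000208000030208000000000000000000000000, ⟨[a0, a12, a15, a37], [(a13, a14, l3), (a25, a49, l71), (a8, a4, l4), (a42, a59, l56), (a38, a51, l74), (a36, a39, l21), (a32, a47, l28), (a48, a16, l40)], a24, l70, [l27, l30, l37], by decide +kernel⟩⟩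
def t283 : VT 3 := ⟨0x2002008001, 0x80b84d101017110, 0x888f8cd901017110, 0x2e328a6a78031865a6aa03803aa18e00e00000000000145d00c40, 0x8000000200000000208000030208000000000000000000000000, ⟨[a0, a15, a25, a37], [(a13, a49, l71), (a12, a14, l3), (a8, a4, l4), (a42, a59, l56), (a38, a51, l74), (a36, a39, l21), (a32, a47, l28), (a48, a16, l40)], a24, l70, [l27, l30, l37], by decide +kernel⟩⟩
def t284 : VT 3 := ⟨0x2002008001, 0x2800d428221420, 0x2800d428221420, 0x888c0a420048c094892000c8010400003428acb8000914034000, 0, ⟨[a0, a15, a25, a37], [(a5, a10, l8), (a21, a53, l47), (a17, a29, l15), (a51, a34, l44), (a39, a27, l73), (a38, a36, l21)], a12, l74, [], by decide +kernel⟩⟩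
def t285 : VT 3 := ⟨0x2000008011, 0xb00c00f007100, 0xf00c00f007100, 0x2e121b0278011170208200003272c000f00000000000145d31000, 0x4000000100000000000000000000000c00000000000000000000, ⟨[a0, a4, a15, a37], [(a12, a8, l4), (a13, a14, l3), (a25, a49, l71), (a51, a38, l74), (a27, a39, l73), (a26, a48, l75)], a24, l12, [l72], by decide +kernel⟩⟩
def t286 : VT 3 := ⟨0x2000008011, 0xaa004002207520, 0x88af004002207520, 0x2e121a2a78011161a6aa000e3a000000000000000000145d31000, 0x208000030000000000000000000000000000, ⟨[a0, a4, a15, a37], [(a12, a8, l4), (a13, a14, l3), (a25, a49, l71), (a38, a51, l74), (a21, a55, l50), (a5, a53, l47)], a10, l8, [l30, l37], by decide +kernel⟩⟩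
def t287 : VT 3 := ⟨0x2000009001, 0x2a004422226420, 0x2e444426226420, 0x26980926580580516082000032524000d34082c80000104d00000, 0x4000000100000000000000000104000000000000000000000000, ⟨[a0, a12, a15, a37], [(a13, a14, l3), (a25, a49, l71), (a51, a38, l74), (a17, a34, l44), (a21, a29, l15), (a5, a53, l47)], a10, l8, [l26, l72], by decide +kernel⟩⟩
def t288 : VT 3 := ⟨0x2000808001, 0xb000c0007004f0, 0xf000d0007004f0, 0x480046c0201004ac08d3000cc0208000e00041000c40914034000, 0x40000000040000000c00000000000000000000000000000, ⟨[a0, a15, a23, a37], [(a5, a10, l8), (a21, a53, l47), (a22, a20, l11), (a7, a52, l51), (a55, a39, l49), (a4, a6, l1)], a38, l50, [l31, l46], by decide +kernel⟩⟩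
def t289 : VT 3 := ⟨0x6008001, 0x80088484a9230000, 0x8008c4c4a9230000, 0x9098a5224254495214000000000b1c034e340c3cb1000000000000, 0x104000000000000000000000000, ⟨[a0, a15, a25, a26], [(a27, a24, l12), (a51, a39, l73), (a17, a34, l44), (a21, a29, l15), (a63, a42, l68), (a31, a16, l18)], a47, l61, [l26], by decide +kernel⟩⟩
def t290 : VT 3 := ⟨0x6008001, 0xd00070009000f20, 0xf000f0009000f20, 0x4802d08020101d080b1c03c000041031000208038000892000c80, 0x8000000008000000030000000000000000000000000000000, ⟨[a0, a15, a25, a26], [(a24, a27, l12), (a10, a5, l8), (a42, a58, l54), (a8, a59, l56), (a56, a40, l52), (a11, a9, l2)], a41, l57, [l32, l55], by decide +kernel⟩⟩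
def t291 : VT 3 := ⟨0x6008001, 0x8c88444400221520, 0x8ca8446400221530, 0x880025aa2012015692b1c034e00000000000892000cb28d3031c80, 0x880000000480000000000000000000082000000000000000, ⟨[a0, a15, a25, a26], [(a10, a5, l8), (a42, a58, l54), (a63, a21, l68), (a59, a8, l56), (a51, a55, l37), (a34, a17, l44), (a38, a12, l74)], a46, l26, [l47, l50], by decide +kernel⟩⟩
def t292 : VT 3 := ⟨0x6008001, 0xc0804c009001530, 0xc8804f009201530, 0x2d029b4074001974020803800072c000f00041031000041000c40, 0x800000000400000000000000000c00000000000000000000, ⟨[a0, a15, a25, a26], [(a27, a24, l12), (a51, a39, l73), (a12, a38, l74), (a8, a4, l4), (a42, a59, l56), (a10, a5, l8)], a58, l54, [l21, l50], by decide +kernel⟩⟩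
def t293 : VT 3 := ⟨0x6008001, 0x888880c4a9231010, 0x888888ccb9331010, 0x9aa9225240699215208038000b1ce00e348d3cb1031000000000, 0x208000000041000000000000000, ⟨[a0, a15, a25, a26], [(a27, a24, l12), (a51, a39, l73), (a17, a34, l44), (a21, a29, l15), (a31, a16, l18), (a63, a47, l61), (a55, a59, l37), (a38, a4, l50)], a12, l74, [l14, l27], by decide +kernel⟩⟩
def t294 : VT 3 := ⟨0x4008011, 0x8084844080217100, 0x8084844080217100, 0x60a1a0518009160530c000e340000000008510000310c3cb1000, 0, ⟨[a0, a4, a15, a26], [(a12, a8, l4), (a14, a13, l3), (a38, a50, l72), (a21, a55, l50), (a31, a16, l18), (a63, a42, l68)], a47, l61, [], by decide +kernel⟩⟩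
def t295 : VT 3 := ⟨0x4008011, 0x1011113101111100, 0x1111113111111100, 0x130614818c0051881000000000cf3c40c80851031031041031000, 0x1000000001000000000000000000000041000000000000000, ⟨[a0, a4, a15, a26], [(a48, a37, l75), (a32, a16, l40), (a12, a8, l4), (a36, a24, l70), (a40, a44, l24), (a20, a52, l46)], a60, l64, [l14, l52], by decide +kernel⟩⟩
def t296 : VT 3 := ⟨0x4008011, 0xd00700b007100, 0xf00700b007100, 0x2e0a902c78009901c72c00003c0000000002080380000c3cb1000, 0x8000000200000000000000030000000000000000000000000000, ⟨[a0, a4, a15, a26], [(a12, a8, l4), (a14, a13, l3), (a38, a50, l72), (a25, a51, l74), (a24, a27, l12), (a48, a36, l70)], a37, l75, [l30], by decide +kernel⟩⟩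
def t297 : VT 3 := ⟨0x4008011, 0x808f446580234000, 0x888fc46582236000, 0xa16b00e83998700e83a9ae00e328d3000cb1a18e00000104d00000, 0x2200000080200000208000000810000000000000000000000000, ⟨[a0, a4, a15, a26], [(a48, a37, l75), (a16, a32, l40), (a21, a31, l18), (a42, a63, l68), (a38, a55, l50), (a50, a14, l72), (a51, a49, l30), (a34, a17, l44)], a46, l26, [l28, l37, l71], by decide +kernel⟩⟩
def t298 : VT 3 := ⟨0x4009001, 0xc0c044002006530, 0x8c8f044002006530, 0x2e0a886c78009845c72c03803c0000000000000000000c3c80c40, 0x208000030000000000000000000000000000, ⟨[a0, a12, a15, a26], [(a8, a4, l4), (a14, a13, l3), (a38, a50, l72), (a25, a51, l74), (a42, a59, l56), (a10, a5, l8)], a58, l54, [l30, l37], by decide +kernel⟩⟩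
def t299 : VT 3 := ⟨0x6008001, 0x80088484a9230000, 0x80088484b9330000, 0x988122524048121500000000030c000e348d3cb1031000000000, 0x41000000000000000, ⟨[a0, a15, a25, a26], [(a27, a24, l12), (a51, a39, l73), (a17, a34, l44), (a21, a29, l15), (a31, a16, l18), (a63, a42, l68)], a47, l61, [l14], by decide +kernel⟩⟩
def t300 : VT 3 := ⟨0x6008001, 0x8c08044420221530, 0x8fa9444420221530, 0xa00aac0a401869c094b1ce3c000104000034082c80000892000c80, 0x800000000400000a18030000000000000000000000000000000, ⟨[a0, a15, a25, a26], [(a10, a5, l8), (a42, a58, l54), (a21, a63, l68), (a8, a59, l56), (a17, a29, l15), (a51, a34, l44), (a12, a4, l4)], a38, l74, [l32, l37, l38, l62], by decide +kernel⟩⟩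
def t301 : VT 3 := ⟨0x6008001, 0x40844c409021420, 0x840944d429021420, 0x2994122264054121200000000030cd00e000c3031032461c40000, 0x1800000040400000000000000000000000000000000000000000, ⟨[a0, a15, a25, a26], [(a27, a24, l12), (a51, a39, l73), (a34, a17, l44), (a38, a12, l74), (a42, a46, l26), (a10, a5, l8)], a58, l54, [l62, l70], by decide +kernel⟩⟩
def t302 : VT 3 := ⟨0x6008001, 0x888880c4a9231010, 0x8889c0d4a9231010, 0x298e9a646404d965420803800030c000e340c3cb1000461c40c40, 0x1800000040400000000000000000000000000000000041000000, ⟨[a0, a15, a25, a26], [(a27, a24, l12), (a51, a39, l73), (a17, a34, l44), (a21, a29, l15), (a38, a12, l74), (a55, a4, l50), (a63, a59, l37), (a31, a16, l18)], a47, l61, [l62, l70], by decide +kernel⟩⟩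
def t303 : VT 3 := ⟨0x4009000, 0xd00f00a006000, 0xf00f00a006000, 0x2e0aa00478009a0041040000340000000006aa03a000082c80000, 0x2000000080000000000000000000000000000030000000000000, ⟨[a12, a15, a26], [(a14, a13, l3), (a38, a50, l72), (a51, a25, l74), (a39, a27, l73), (a37, a48, l75)], a36, l21, [l71], by decide +kernel⟩⟩
def t304 : VT 3 := ⟨0x400d000, 0xd00f00a000000, 0xd00f00a000000, 0x2e02a00478001a0041040000340000000006aa03a000000000000, 0x30000000000000, ⟨[a12, a14, a15, a26], [(a38, a50, l72), (a51, a25, l74), (a39, a27, l73), (a37, a48, l75)], a36, l21, [], by decide +kernel⟩⟩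
def t305 : VT 3 := ⟨0x4008005, 0xd0027000f000a, 0xf2227000f000a, 0xbe0004bef820008be72c00003c892000cb2000000000082000032, 0x2000000002000000030082000000000000000000000000, ⟨[a0, a2, a15, a26], [(a48, a37, l75), (a3, a1, l0), (a18, a33, l45), (a34, a50, l42), (a17, a51, l44), (a16, a32, l40)], a19, l10, [l25, l30, l41], by decide +kernel⟩⟩
def t306 : VT 3 := ⟨0x4009005, 0x19080fc00b50088a, 0x1f980fe00bf0098a, 0xdc803d74223703db42249039000b1c034e00565000d4028a000e32, 0x100020600004010a00000030000000000000000000c00000000000, ⟨[a0, a2, a12, a15, a26], [(a3, a1, l0), (a11, a7, l7), (a41, a56, l57), (a60, a22, l69), (a40, a20, l64), (a43, a42, l22), (a27, a59, l55), (a51, a39, l73), (a25, a24, l12)], a38, l74, [l11, l32, l49, l51, l56], by decide +kernel⟩⟩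
def t307 : VT 3 := ⟨0x4008005, 0xd1000f0000e0088a, 0xf1110f0000e0088a, 0xdc0551e82037961e82565d71000000000000892000c8028a000e32, 0x80000000002000000041c00000000000000000000000000000000, ⟨[a0, a2, a15, a26], [(a3, a1, l0), (a11, a7, l7), (a41, a56, l57), (a22, a60, l69), (a42, a62, l66), (a63, a21, l68), (a43, a40, l22)], a23, l67, [l33, l34, l65], by decide +kernel⟩⟩
def t308 : VT 3 := ⟨0x4009001, 0xac00f00a206530, 0xae00f00a206530, 0x2f0ae0c47c009e0c4996000cb4041000c406aa03a000996cb4000, 0x2000000080000000000000000000000000000030000000000000, ⟨[a0, a12, a15, a26], [(a14, a13, l3), (a38, a50, l72), (a51, a25, l74), (a39, a27, l73), (a37, a36, l21), (a5, a10, l8), (a21, a53, l47), (a4, a8, l4)], a55, l50, [l71], by decide +kernel⟩⟩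
def t309 : VT 3 := ⟨0x4009001, 0x8d00518b216110, 0x888f00518ba96110, 0x2e2a9a2c78029961c72c000e3c000000000a18e380000c3cb1000, 0x8000000200000000208000030000000000208000000000000000, ⟨[a0, a12, a15, a26], [(a14, a13, l3), (a38, a50, l72), (a4, a8, l4), (a21, a55, l50), (a25, a51, l74), (a24, a27, l12), (a16, a31, l18), (a48, a32, l40)], a36, l70, [l17, l30, l37], by decide +kernel⟩⟩
def t310 : VT 3 := ⟨0x5008000, 0xd00700a007000, 0xf00f00a007000, 0x170804c49c00808c41040000348d3000cc0000000000082c80000, 0x2000000080000000000000000000000c00000000000000000000, ⟨[a15, a24, a26], [(a48, a37, l75), (a12, a36, l70), (a14, a13, l3), (a38, a50, l72), (a25, a51, l74)], a27, l12, [l21, l71], by decide +kernel⟩⟩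
def t311 : VT 3 := ⟨0x5008001, 0xd0007000a000f20, 0xf000f000a000f20, 0x4802d08020101d080b1c03c000041031000208038000892000c80, 0x8000000008000000030000000000000000000000000000000, ⟨[a0, a15, a24, a26], [(a25, a27, l12), (a10, a5, l8), (a42, a58, l54), (a8, a59, l56), (a56, a40, l52), (a11, a9, l2)], a41, l57, [l32, l55], by decide +kernel⟩⟩
def t312 : VT 3 := ⟨0x5008001, 0x1111113100111100, 0x1111113110111100, 0x33861481cc0451881000000000cf3c40c80851000031461c71000, 0x40000000040000000000000000000000000000000041000000, ⟨[a0, a15, a24, a26], [(a48, a37, l75), (a32, a16, l40), (a36, a12, l70), (a40, a44, l24), (a56, a8, l52), (a60, a20, l64)], a52, l34, [l58], by decide +kernel⟩⟩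
def t313 : VT 3 := ⟨0x4009001, 0x40c444402026420, 0x40e446422226420, 0x269a2026580592016104000034104d000004a2032032082c80000, 0x2000000080000000000000000000000000082000000000000000, ⟨[a0, a12, a15, a26], [(a14, a13, l3), (a38, a50, l72), (a51, a25, l74), (a34, a17, l44), (a42, a46, l26), (a10, a5, l8)], a58, l54, [l15, l71], by decide +kernel⟩⟩
def t314 : VT 3 := ⟨0x400c001, 0x40c444402023420, 0x40e446422223420, 0x269a2026580592016104000034104d000004a2032032082c80000, 0x2000000080000000000000000000000000082000000000000000, ⟨[a0, a14, a15, a26], [(a12, a13, l3), (a38, a50, l72), (a51, a25, l74), (a34, a17, l44), (a42, a46, l26), (a10, a5, l8)], a58, l54, [l15, l71], by decide +kernel⟩⟩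
def t315 : VT 3 := ⟨0x4008011, 0xb00e00b007100, 0xf00e00b007100, 0x37121913dc01115238d3000033524000d00000000000145d31000, 0x4000000100000000000000030000000000000000000000000000, ⟨[a0, a4, a15, a26], [(a12, a8, l4), (a37, a48, l75), (a13, a14, l3), (a25, a49, l71), (a51, a38, l74), (a27, a24, l12)], a39, l73, [l30], by decide +kernel⟩⟩
def t316 : VT 3 := ⟨0x4008011, 0x808f446580234000, 0x888fc46582236000, 0xa16b00e83998700e83a9ae00e328d3000cb1a18e00000104d00000, 0x2200000080200000208000000810000000000000000000000000, ⟨[a0, a4, a15, a26], [(a48, a37, l75), (a16, a32, l40), (a21, a31, l18), (a38, a55, l50), (a42, a63, l68), (a50, a14, l72), (a51, a49, l30), (a34, a17, l44)], a46, l26, [l28, l37, l71], by decide +kernel⟩⟩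
def t317 : VT 3 := ⟨0x4408001, 0x14002f0040140428, 0x94012f0240940428, 0x64048805c02988806c00000000028acb8000145000c74628000038, 0x200000010008000020000000000000000000000000000000000000, ⟨[a0, a15, a22, a26], [(a30, a18, l16), (a60, a45, l63), (a40, a20, l64), (a41, a3, l69), (a42, a43, l22), (a10, a5, l8)], a58, l54, [l45, l67], by decide +kernel⟩⟩
def t318 : VT 3 := ⟨0x4408001, 0x4404044440044464, 0x4444444440044464, 0x1005040a4004904094914d34000104000034104d00000892000c80, 0x100000000100000104000000000000000000000000000000000, ⟨[a0, a15, a22, a26], [(a18, a30, l16), (a10, a5, l8), (a42, a58, l54), (a2, a62, l66), (a50, a34, l42), (a14, a6, l6)], a38, l72, [l36, l60], by decide +kernel⟩⟩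
def t319 : VT 3 := ⟨0x4408001, 0x11112301c0b50808, 0x91112b03c0b50808, 0x64049965c0298a9a6c041000c400c3cb100030c000e34628038038, 0x200000010008000020000000000000000000000000000208000000, ⟨[a0, a15, a22, a26], [(a30, a18, l16), (a60, a45, l63), (a20, a40, l64), (a21, a23, l11), (a41, a3, l69), (a56, a11, l57), (a48, a52, l34), (a16, a32, l40)], a31, l18, [l45, l67], by decide +kernel⟩⟩
def t320 : VT 3 := ⟨0x4408001, 0xd400070000b0042e, 0xf4650f0000b0042e, 0xb40b0528001d705280b1cf34000041031000208000e00892000c80, 0x200000000008000000914c00000000000000000000000000000000, ⟨[a0, a15, a22, a26], [(a10, a5, l8), (a42, a58, l54), (a21, a63, l68), (a2, a62, l66), (a20, a23, l11), (a60, a40, l64), (a3, a1, l0)], a41, l69, [l33, l36, l38, l67], by decide +kernel⟩⟩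
def t321 : VT 3 := ⟨0x200000a001, 0x2a004422225420, 0x2e444426225420, 0x26980926580580516082000032524000d34082c80000104d00000, 0x4000000100000000000000000104000000000000000000000000, ⟨[a0, a13, a15, a37], [(a12, a14, l3), (a25, a49, l71), (a51, a38, l74), (a17, a34, l44), (a21, a29, l15), (a5, a53, l47)], a10, l8, [l26, l72], by decide +kernel⟩⟩
def t322 : VT 3 := ⟨0x2000008101, 0xd00d00e007010, 0xf00d00e007010, 0x370a2855dc00924659550000350000000004a20320000c3c80c40, 0x2000000080000000000000030000000000000000000000000000, ⟨[a0, a8, a15, a37], [(a12, a4, l4), (a26, a48, l75), (a14, a13, l3), (a38, a50, l72), (a51, a25, l74), (a39, a36, l21)], a27, l73, [l30], by decide +kernel⟩⟩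
def t323 : VT 3 := ⟨0x2000008101, 0x1101011115111010, 0x1111111115111010, 0x15054841940064441000000000851000c71d75c74000041000c40, 0x40000000040000000000041000000000000000000000000, ⟨[a0, a8, a15, a37], [(a48, a26, l75), (a16, a32, l40), (a12, a4, l4), (a24, a36, l70), (a20, a28, l14), (a40, a56, l52)], a60, l64, [l24, l46], by decide +kernel⟩⟩
def t324 : VT 3 := ⟨0x2000008101, 0x8802840182207010, 0x8802840182207010, 0x612884318011844328a038032851000031000000000145d00c40, 0, ⟨[a0, a8, a15, a37], [(a12, a4, l4), (a13, a14, l3), (a25, a49, l71), (a42, a59, l56), (a47, a32, l28), (a63, a21, l68)], a31, l61, [], by decide +kernel⟩⟩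
def t325 : VT 3 := ⟨0x2000008101, 0x880f840526232000, 0x888f8445a6236000, 0xa16abc0059986bc005b1ce38034a18e00000955034031082c80000, 0x4200000100200000208000000000000000810000000000000000, ⟨[a0, a8, a15, a37], [(a48, a26, l75), (a32, a16, l40), (a42, a47, l28), (a25, a59, l56), (a21, a63, l68), (a49, a13, l71), (a51, a50, l30), (a17, a34, l44)], a29, l15, [l18, l37, l72], by decide +kernel⟩⟩
def t326 : VT 3 := ⟨0x22000008001, 0x1020210240f00428, 0x9021290240f40428, 0x64050121a02990122a0000000000c303103230cd00e00628000038, 0x200000010008000020000000000000000000000000000000000000, ⟨[a0, a15, a37, a41], [(a45, a33, l25), (a60, a30, l63), (a20, a40, l64), (a22, a3, l69), (a21, a23, l11), (a5, a53, l47)], a10, l8, [l45, l67], by decide +kernel⟩⟩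
def t327 : VT 3 := ⟨0x22000008001, 0x2022200202222622, 0x2222200222222622, 0x804840a2002884092892c80c80082c80000082000032914034000, 0x80000000080000082000000000000000000000000000000000, ⟨[a0, a15, a37, a41], [(a33, a45, l25), (a5, a10, l8), (a21, a53, l47), (a1, a61, l65), (a49, a17, l41), (a13, a9, l5)], a25, l71, [l35, l59], by decide +kernel⟩⟩
def t328 : VT 3 := ⟨0x22000008001, 0x1111ad0340510088, 0x9111ad0340d50088, 0x64051965a029929a6a04103100028a038032145d00c40628000e38, 0x200000010008000020000000000000000000000000000208000000, ⟨[a0, a15, a37, a41], [(a45, a33, l25), (a60, a30, l63), (a40, a20, l64), (a42, a43, l22), (a22, a3, l69), (a52, a7, l51), (a48, a56, l34), (a32, a16, l40)], a47, l28, [l45, l67], by decide +kernel⟩⟩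
def t329 : VT 3 := ⟨0x22000008001, 0xb0200d000070042e, 0xf6230d0000f0042e, 0xac0a8c0c001b68c0c0a9ae80c80208038000041000c40914034000, 0x200000000008000000892c00000000000000000000000000000000, ⟨[a0, a15, a37, a41], [(a5, a10, l8), (a21, a53, l47), (a42, a63, l68), (a1, a61, l65), (a40, a43, l22), (a60, a20, l64), (a3, a2, l0)], a22, l69, [l33, l35, l38, l67], by decide +kernel⟩⟩
def t330 : VT 3 := ⟨0x2000009001, 0xaa004002206530, 0x88af004002206530, 0x2e121a2a78011161a6aa000e3a000000000000000000145d31000, 0x208000030000000000000000000000000000, ⟨[a0, a12, a15, a37], [(a4, a8, l4), (a13, a14, l3), (a25, a49, l71), (a38, a51, l74), (a21, a55, l50), (a5, a53, l47)], a10, l8, [l30, l37], by decide +kernel⟩⟩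
def t331 : VT 3 := ⟨0x3000008000, 0xb00c007007000, 0xf00c00f007000, 0x171150029c0125002082000032000000000955035000104d00000, 0x4000000100000000000000000000000000000030000000000000, ⟨[a15, a36, a37], [(a48, a26, l75), (a12, a24, l70), (a13, a14, l3), (a25, a49, l71), (a38, a51, l74)], a39, l21, [l12, l72], by decide +kernel⟩⟩
def t332 : VT 3 := ⟨0x3000008001, 0xb000c0007004f0, 0xf000c000f004f0, 0x48004ac02010046c0a9a000e80208000e00041000c40914034000, 0x200000000200000000c00000000000000000000000000000, ⟨[a0, a15, a36, a37], [(a5, a10, l8), (a21, a53, l47), (a38, a39, l21), (a4, a55, l50), (a52, a20, l46), (a7, a6, l1)], a22, l51, [l31, l49], by decide +kernel⟩⟩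
def t333 : VT 3 := ⟨0x3000008001, 0x1111010115111010, 0x1111110115111010, 0x75855001d41465001000000000851031031d75c74000461c40000, 0x40000000040000000000000041000000000000000000000000, ⟨[a0, a15, a36, a37], [(a48, a26, l75), (a16, a32, l40), (a24, a12, l70), (a20, a28, l14), (a60, a40, l64), (a52, a4, l46)], a56, l34, [l58], by decide +kernel⟩⟩
def t334 : VT 3 := ⟨0x4009001, 0x1011113101110110, 0x1111113101510190, 0x4534614c08e18518c0461c40c40892000c80041031000041031000, 0x1400000001800041000000000000000000000000000000000, ⟨[a0, a12, a15, a26], [(a48, a37, l75), (a4, a8, l4), (a36, a24, l70), (a20, a52, l46), (a40, a60, l64), (a32, a16, l40)], a44, l24, [l34, l51, l52], by decide +kernel⟩⟩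
def t335 : VT 3 := ⟨0x1000000000010001, 0x111011111101010, 0x111111111101110, 0x40051001001061001041031000851031031461c40000000000000, 0x1000000001000000000000041000000000000000000000000, ⟨[a0, a16, a60], [(a48, a32, l40), (a20, a40, l64), (a52, a56, l34), (a24, a28, l14), (a36, a4, l46)], a12, l70, [l24, l52], by decide +kernel⟩⟩
def t336 : VT 3 := ⟨0x1000000000018001, 0x111222344400088, 0x111222344400888, 0x614015619928025a29041031000851000031914034000628000e38, 0x10000000020000000000000000000000000000000208000000, ⟨[a0, a15, a16, a60], [(a48, a32, l40), (a52, a56, l34), (a37, a26, l75), (a22, a7, l51), (a41, a3, l69), (a45, a33, l25)], a30, l63, [l57], by decide +kernel⟩⟩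
def t337 : VT 3 := ⟨0x1000000000018001, 0x8000a500f5300000, 0xa100f500f5302100, 0x41e81000041e81000000000000adbeb10000c3cb1000000000000, 0x81000000081000000000000000c00000000000000000000000, ⟨[a0, a15, a16, a60], [(a20, a40, l64), (a28, a24, l14), (a30, a45, l63), (a31, a29, l13), (a63, a47, l61), (a21, a26, l18)], a42, l68, [l23, l52, l59], by decide +kernel⟩⟩
def t338 : VT 3 := ⟨0x1000000000018001, 0x12121c4f40000, 0x1a723c4f40000, 0x12680495880a808a50000000008d3c80cb1b1ce00034000000000, 0x892000000000000000000000000, ⟨[a0, a15, a16, a60], [(a48, a32, l40), (a26, a37, l75), (a21, a31, l18), (a30, a45, l63), (a22, a18, l16), (a20, a40, l64)], a23, l11, [l25, l28], by decide +kernel⟩⟩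
def t339 : VT 3 := ⟨0x1000000004008000, 0x111222040440808, 0x111222240440808, 0x60049801c0288a802c000000000082c80000104000034628038038, 0x10000000020000000000000000000000000000208000000, ⟨[a15, a26, a60], [(a30, a45, l63), (a22, a18, l16), (a41, a3, l69), (a56, a11, l57), (a48, a52, l34)], a37, l75, [l45], by decide +kernel⟩⟩
def t340 : VT 3 := ⟨0x1000000004008000, 0x111222040440808, 0x111222240440888, 0x124804d48808808e4041000c40892c80c80104000034000000000, 0x400000000800000000000082000000000000000000000000, ⟨[a15, a26, a60], [(a48, a37, l75), (a56, a52, l34), (a30, a45, l63), (a22, a18, l16), (a41, a3, l69)], a11, l57, [l25, l51], by decide +kernel⟩⟩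
def t341 : VT 3 := ⟨0x4009000, 0xd00700b006000, 0xf00f00b006000, 0x1b0884c0ac00888c00000000008d3000cc0208038000082c80000, 0x2000000080000000000000000000000c00000000000000000000, ⟨[a12, a15, a26], [(a48, a37, l75), (a24, a36, l70), (a25, a27, l12), (a14, a13, l3), (a38, a50, l72)], a51, l74, [l21, l71], by decide +kernel⟩⟩
def t342 : VT 3 := ⟨0x9041, 0xbb8, 0xbb8, 0x210800000110800000000000000000000000000008d3031c80, 0, ⟨[a0, a6, a12, a15], [(a4, a8, l4), (a7, a5, l1), (a3, a9, l9)], a11, l7, [], by decide +kernel⟩⟩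
def t343 : VT 3 := ⟨0x4009040, 0x1101022240440a88, 0x1111022240440a88, 0x4524536808a1863a80461c71000892000c800000000006aa032e00, 0x400000000800041000000000000000000000000000000000, ⟨[a6, a12, a15, a26], [(a48, a37, l75), (a3, a9, l9), (a11, a7, l7), (a41, a56, l57), (a22, a60, l69), (a18, a33, l45)], a30, l16, [l34, l51], by decide +kernel⟩⟩
def t345 : VT 3 := ⟨0x8000004008000, 0x300e00b007000, 0x300f00b007000, 0x1b001213ac00012238d3000033208000e00041031000000000000, 0x1000000040000000000000030000000000000000000000000000, ⟨[a15, a26, a51], [(a37, a48, l75), (a27, a39, l73), (a25, a24, l12), (a13, a49, l71), (a12, a38, l74)], a14, l3, [l70], by decide +kernel⟩⟩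
def t346 : VT 3 := ⟨0x8000004008001, 0x80008484ab230000, 0x80008484bb330000, 0x988122524048121500000000030c000e348d3cb1031000000000, 0x41000000000000000, ⟨[a0, a15, a26, a51], [(a17, a34, l44), (a27, a39, l73), (a25, a24, l12), (a21, a29, l15), (a31, a16, l18), (a63, a42, l68)], a47, l61, [l14], by decide +kernel⟩⟩
def t347 : VT 3 := ⟨0x8000004008000, 0x700e00b005000, 0x700f00b005000, 0x3b841680ec0441a80000000000a9a000e80041031000461c40000, 0x1000000040000000000000000000000c00000000000000000000, ⟨[a15, a26, a51], [(a48, a37, l75), (a27, a39, l73), (a25, a24, l12), (a38, a12, l74), (a50, a49, l30)], a14, l72, [l21, l70], by decide +kernel⟩⟩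
def t348 : VT 3 := ⟨0x8000004008001, 0x80008484ab230000, 0x8000c4c4ab230000, 0x9098a5224254495214000000000b1c034e340c3cb1000000000000, 0x104000000000000000000000000, ⟨[a0, a15, a26, a51], [(a17, a34, l44), (a27, a39, l73), (a25, a24, l12), (a21, a29, l15), (a63, a42, l68), (a31, a16, l18)], a47, l61, [l26], by decide +kernel⟩⟩
def t349 : VT 3 := ⟨0x8000000000101, 0x8800044422221010, 0x8880444422221010, 0x24880964500480554000000000524000d34082c80000041000c40, 0x800000000400000000000104000000000000000000000000, ⟨[a0, a8, a51], [(a12, a4, l4), (a17, a34, l44), (a25, a38, l74), (a21, a29, l15), (a42, a59, l56)], a63, l68, [l26, l50], by decide +kernel⟩⟩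
def t350 : VT 3 := ⟨0x8000004008001, 0x70027000f000a, 0x7842f000f000e, 0x160004ad98000089d1040000349d7000cb5628000038000000000, 0x4000000004000000000810000030000000000000000000, ⟨[a0, a15, a26, a51], [(a48, a37, l75), (a16, a32, l40), (a17, a34, l44), (a49, a50, l30), (a18, a19, l10), (a33, a1, l41)], a3, l45, [l20, l28, l42], by decide +kernel⟩⟩
def t351 : VT 3 := ⟨0x1000004200001, 0x180010000, 0x180010000, 0, 0, ⟨[a0, a21, a26, a48], [(a16, a32, l40)], a31, l18, [], by decide +kernel⟩⟩
def t352 : VT 3 := ⟨0x1042000000001, 0x800100010000, 0x800100010000, 0, 0, ⟨[a0, a37, a42, a48], [(a32, a16, l40)], a47, l28, [], by decide +kernel⟩⟩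
def t353 : VT 3 := ⟨0x8000000004208000, 0x800080010000, 0x800080010000, 0, 0, ⟨[a15, a21, a26, a63], [(a31, a16, l18)], a47, l61, [], by decide +kernel⟩⟩
def t354 : VT 3 := ⟨0x8000042000008000, 0x800180000000, 0x800180000000, 0, 0, ⟨[a15, a37, a42, a63], [(a47, a32, l28)], a31, l61, [], by decide +kernel⟩⟩
def t355 : VT 3 := ⟨0x11000000001010, 0x1001100000, 0x1001100000, 0, 0, ⟨[a4, a12, a48, a52], [(a36, a24, l70)], a20, l46, [], by decide +kernel⟩⟩
def t356 : VT 3 := ⟨0x1000004000808, 0x1100020240440000, 0x1100020240440000, 0x500012000900022000000000082000032104d00000000000000, 0, ⟨[a3, a11, a26, a48], [(a18, a33, l45), (a22, a30, l16), (a41, a56, l57)], a60, l69, [], by decide +kernel⟩⟩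

end Pool.Agent.Lib_TTT.K3
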