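import Pool.Agent.Lib_TTT.K3Base
import Pool.Agent.Lib_TTT.K3T00

/-! Certificates in `4^3`. -/

set_option autoImplicit false
set_option maxRecDepth 200000

namespace Pool.Agent.Lib_TTT.K3

open Lib_TTT AC DC

def e0_15__none_0 : Ent 3 := ⟨[a0, a15], [], (M a21 (F (T t0 (T t1 (T t2 (T t3 (K a16 (M a4 (F (T t4 (T t5 (L l14 (T t6 N)))))) (K a48 (M a4 (F (T t7 (L l45 (T t5 (L l38 (T t6 N))))))) (K a5 (M a12 (F (T t8 (T t9 (L l5 (T t10 N)))))) (K a37 (M a4 (F (T t11 (L l51 (T t5 (L l21 (T t12 N))))))) (K a53 (Fr a42 a63 l68 (Fr a10 a5 l8 (Fr a26 a58 l54 (Fr a48 a37 l75 (V t351))))) (K a10 (M a12 (F (T t14 (L l54 (T t9 (L l2 (T t10 N))))))) (K a26 (M a12 (F (T t15 (T t16 (L l54 (T t9 N)))))) (K a42 (M a4 (F (L l56 (T t17 (L l54 (T t6 (L l54 (L l56 (T t5 (L l56 (T t18 N))))))))))) (K a63 (M a4 (F (T t19 (L l37 (T t17 (L l37 (L l38 (T t6 N)))))))) N)))))))))))))))⟩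
theorem x0_15__none : chkE (fullMask 3) [e0_15__none_0] = true := by decide +kernel
def e0_15___0 : Ent 3 := ⟨[a0, a15], [a17], (M a42 (F (T t20 (T t21 (T t22 (L l15 (T t23 (K a32 (M a8 (F (L l15 (T t24 (T t25 (L l24 (T t26 N))))))) (K a48 (M a8 (F (T t27 (L l30 (T t28 (L l38 (T t26 N))))))) (K a5 (M a60 (F (T t29 (L l15 (L l47 (T t30 (L l41 (T t31 N)))))))) (K a21 (M a25 (F (L l41 (L l50 (T t32 (L l47 (T t33 (L l41 (L l47 (T t34 (L l47 (L l50 (T t35 (L l50 (T t36 N))))))))))))))) (K a37 (M a12 (F (T t37 (L l41 (T t38 (L l15 (L l47 (T t39 N)))))))) (K a10 (M a60 (F (T t40 (L l15 (T t41 (L l41 (T t31 N))))))) (K a26 (M a8 (F (T t28 (L l57 (T t25 (L l12 (L l15 (T t42 N)))))))) (K a58 (Fr a5 a10 l8 (Fr a21 a63 l68 (Fr a37 a53 l47 (Fr a48 a26 l75 (V t352))))) (K a63 (M a8 (F (T t27 (L l37 (L l38 (T t26 (L l37 (L l41 (T t44 N))))))))) N))))))))))))))))⟩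
def e0_15___1 : Ent 3 := ⟨[a0, a15], [a18], (M a26 (F (T t45 (L l10 (L l45 (T t46 (L l45 (T t47 (T t48 (K a48 (M a3 (F (T t49 (L l10 (L l34 (L l42 (T t50 (L l34 (L l38 (T t51 (L l38 (T t52 N)))))))))))) (K a5 (M a12 (F (L l45 (T t53 (L l10 (L l47 (T t54 (L l5 (L l10 (L l42 (T t55 N))))))))))) (K a21 (M a12 (F (T t56 (L l42 (T t57 (L l10 (L l47 (T t54 N)))))))) (K a37 (M a12 (F (T t58 (L l10 (L l42 (L l71 (T t55 (L l47 (T t59 (L l42 (L l47 (L l71 (T t60 N))))))))))))) (K a10 (M a12 (F (T t61 (L l2 (L l10 (L l42 (T t55 (L l10 (T t54 N))))))))) (K a42 (M a8 (F (T t62 (L l28 (T t63 (L l22 (T t64 N))))))) (K a58 (Fr a37 a48 l75 (Fr a5 a10 l8 (Fr a21 a53 l47 (Fr a63 a42 l68 (V t353))))) (K a31 (M a8 (F (T t62 (T t63 (L l17 (T t66 N)))))) (K a63 (M a8 (F (T t62 (L l33 (T t63 (L l37 (L l38 (T t66 N)))))))) N))))))))))))))))))⟩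
def e0_15___2 : Ent 3 := ⟨[a0, a15], [a19], (M a37 (F (T t67 (L l10 (T t68 (T t69 (L l10 (T t70 (K a48 (M a13 (F (T t71 (L l30 (T t72 (L l10 (L l30 (L l38 (T t73 N))))))))) (K a5 (M a12 (F (T t74 (L l1 (T t75 (L l1 (T t76 N))))))) (K a21 (M a4 (F (T t19 (L l18 (T t77 (L l11 (L l19 (T t78 N)))))))) (K a53 (Fr a26 a48 l75 (Fr a10 a5 l8 (Fr a42 a58 l54 (Fr a63 a21 l68 (V t354))))) (K a10 (M a12 (F (T t80 (L l54 (T t75 (L l6 (T t76 N))))))) (K a26 (M a12 (F (T t81 (L l72 (T t76 (L l54 (L l72 (T t82 (L l54 (T t83 N)))))))))) (K a42 (M a12 (F (T t74 (T t84 (L l19 (L l54 (T t85 N))))))) (K a47 (M a4 (F (T t19 (T t77 (L l27 (T t86 N)))))) (K a63 (M a4 (F (T t19 (L l33 (T t77 (L l37 (L l38 (T t86 N)))))))) N)))))))))))))))))⟩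
def e0_15___3 : Ent 3 := ⟨[a0, a15], [a22], (M a12 (F (T t58 (L l51 (L l69 (T t87 (L l69 (T t38 (L l69 (T t88 (L l66 (L l69 (T t15 (K a4 (M a21 (F (T t89 (L l66 (L l69 (T t9 (T t90 N))))))) (K a8 (M a21 (F (T t0 (L l56 (L l66 (L l69 (T t9 (L l2 (T t90 N))))))))) (K a5 (M a48 (F (T t91 (L l16 (T t92 (L l5 (L l47 (L l51 (T t93 N))))))))) (K a9 (M a48 (F (T t94 (L l16 (T t92 (L l51 (T t95 N))))))) (K a13 (M a48 (F (T t94 (L l16 (T t96 (L l16 (T t97 N))))))) (K a6 (M a38 (F (T t98 (L l66 (T t99 (T t100 N)))))) (K a10 (M a48 (F (T t94 (L l16 (L l54 (T t92 (L l2 (L l51 (T t93 N))))))))) (K a14 (M a48 (F (T t94 (L l6 (L l16 (L l72 (T t96 (L l6 (L l16 (L l72 (T t97 N))))))))))) (K a3 (M a40 (L l69 (F (T t101 (L l11 (L l67 (T t102 (L l16 (L l19 (L l45 (T t103 (L l51 (T t104 (K a60 (M a41 (F (T t105 (L l11 (L l39 (L l43 (L l67 (T t106 (L l34 (L l45 (L l67 (T t107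 N)))))))))))) (K a41 (Fr a60 a20 l64 (V t108)) N))))))))))))))) N))))))))))))))))))))))⟩
def e0_15___4 : Ent 3 := ⟨[a0, a15], [a23], (M a21 (F (T t1 (L l17 (L l67 (T t0 (T t2 (T t3 (K a16 (M a4 (F (T t109 (L l10 (T t110 (L l14 (T t111 N))))))) (K a48 (M a4 (F (T t109 (T t110 (L l38 (T t111 N)))))) (K a5 (M a12 (F (T t112 (L l5 (L l17 (L l49 (T t10 (L l17 (T t9 N))))))))) (K a37 (M a12 (F (T t58 (L l28 (T t112 (L l17 (L l28 (T t9 N)))))))) (K a53 (Fr a42 a63 l68 (Fr a10 a5 l8 (Fr a26 a58 l54 (Fr a48 a37 l75 (V t351))))) (K a10 (M a12 (F (L l67 (T t14 (L l17 (L l54 (T t9 (L l2 (L l17 (L l49 (T t10 N))))))))))) (K a26 (M a12 (F (T t81 (L l49 (T t16 (L l17 (L l54 (T t9 N)))))))) (K a42 (M a12 (F (T t84 (L l17 (L l49 (L l56 (T t10 (L l54 (T t90 (L l49 (L l54 (L l56 (T t113 N))))))))))))) (K a63 (M a3 (F (T t114 (L l17 (L l33 (L l49 (T t115 (L l33 (L l38 (T t116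 (L l38 (T t117 N)))))))))))) N)))))))))))))))))⟩
def e0_15___5 : Ent 3 := ⟨[a0, a15], [a27], (M a37 (F (T t67 (T t68 (T t69 (L l12 (T t70 (K a48 (M a13 (F (T t71 (L l30 (L l38 (T t73 (L l30 (L l55 (T t72 N))))))))) (K a5 (M a60 (F (T t118 (L l12 (T t119 (L l55 (T t120 N))))))) (K a21 (M a12 (F (T t121 (T t87 (L l12 (L l18 (T t85 N))))))) (K a53 (Fr a10 a5 l8 (Fr a26 a48 l75 (Fr a42 a58 l54 (Fr a63 a21 l68 (V t354))))) (K a10 (M a60 (F (T t118 (L l12 (L l54 (T t119 (L l55 (T t120 N)))))))) (K a26 (M a25 (F (L l54 (T t122 (L l55 (L l72 (T t123 (L l54 (L l55 (T t124 (L l54 (L l72 (T t125 (L l72 (T t126 N))))))))))))))) (K a42 (M a12 (F (T t121 (L l55 (T t88 (L l12 (L l54 (T t85 N)))))))) (K a47 (M a4 (F (T t5 (L l27 (T t127 (L l27 (T t86 N))))))) (K a63 (M a4 (F (T t19 (L l37 (T t127 (L l37 (L l38 (T t86 N)))))))) N))))))))))))))))⟩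
def e0_15___6 : Ent 3 := ⟨[a0, a15], [a33], (M a37 (F (T t67 (L l45 (T t68 (L l20 (L l45 (T t69 (T t70 (K a48 (M a3 (F (T t128 (L l20 (L l34 (L l41 (T t129 (L l34 (L l38 (T t130 (L l38 (T t131 N)))))))))))) (K a5 (M a12 (F (T t132 (L l1 (L l20 (L l41 (T t76 (L l20 (T t85 N))))))))) (K a21 (M a4 (F (T t19 (L l18 (T t77 (L l11 (T t78 N))))))) (K a53 (Fr a26 a48 l75 (Fr a10 a5 l8 (Fr a42 a58 l54 (Fr a63 a21 l68 (V t354))))) (K a10 (M a12 (F (L l45 (T t80 (L l20 (L l54 (T t85 (L l6 (L l20 (L l41 (T t76 N))))))))))) (K a26 (M a12 (F (T t81 (L l20 (L l41 (L l72 (T t76 (L l54 (T t83 (L l41 (L l54 (L l72 (T t82 N))))))))))))) (K a42 (M a12 (F (T t84 (L l41 (T t121 (L l20 (L l54 (T t85 N)))))))) (K a47 (M a4 (F (T t19 (T t77 (L l27 (T t86 N)))))) (K a63 (M a4 (F (T t19 (L l33 (T t77 (L l37 (L l38 (T t86 N)))))))) N))))))))))))))))))⟩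
def e0_15___7 : Ent 3 := ⟨[a0, a15], [a34], (M a21 (F (T t0 (T t1 (T t2 (L l26 (T t3 (K a16 (M a4 (F (L l26 (T t4 (T t5 (L l14 (T t6 N))))))) (K a48 (M a4 (F (T t19 (L l30 (T t11 (L l38 (T t6 N))))))) (K a5 (M a60 (F (T t133 (L l26 (T t134 (L l42 (T t135 N))))))) (K a37 (M a4 (F (T t11 (L l51 (T t5 (L l21 (L l26 (T t12 N)))))))) (K a53 (Fr a10 a5 l8 (Fr a42 a63 l68 (Fr a26 a58 l54 (Fr a48 a37 l75 (V t351))))) (K a10 (M a60 (F (T t136 (L l26 (L l54 (T t134 (L l42 (T t135 N)))))))) (K a26 (M a12 (F (T t16 (L l57 (T t88 (L l26 (L l54 (T t9 N)))))))) (K a42 (M a38 (F (L l42 (L l56 (T t137 (L l54 (T t138 (L l42 (L l54 (T t139 (L l54 (L l56 (T t140 (L l56 (T t141 N))))))))))))))) (K a63 (M a4 (F (T t19 (L l37 (L l38 (T t6 (L l37 (L l42 (T t17 N))))))))) N))))))))))))))))⟩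
def e0_15___8 : Ent 3 := ⟨[a0, a15], [a35], (M a21 (F (T t0 (T t1 (T t2 (L l27 (T t3 (K a16 (M a60 (F (T t142 (T t143 N)))) (K a48 (M a4 (F (T t7 (T t19 (L l27 (L l38 (T t6 N))))))) (K a5 (M a12 (F (T t8 (L l5 (T t144 (L l5 (T t10 N))))))) (K a37 (M a4 (F (T t109 (L l28 (T t145 (L l21 (L l29 (T t12 N)))))))) (K a53 (Fr a42 a63 l68 (Fr a10 a5 l8 (Fr a26 a58 l54 (Fr a48 a37 l75 (V t351))))) (K a10 (M a12 (F (T t14 (L l54 (T t144 (L l2 (T t10 N))))))) (K a26 (M a12 (F (T t146 (T t81 (L l29 (L l54 (T t9 N))))))) (K a42 (M a4 (F (L l56 (T t17 (L l27 (L l54 (T t6 (L l43 (L l54 (L l56 (T t5 (L l43 (L l56 (T t18 N)))))))))))))) (K a63 (M a4 (F (T t19 (L l37 (T t17 (L l27 (L l37 (L l38 (T t6 N))))))))) N))))))))))))))))⟩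
def e0_15___9 : Ent 3 := ⟨[a0, a15], [a38], (M a12 (F (T t87 (L l72 (T t38 (L l50 (T t88 (T t15 (K a4 (M a21 (F (T t89 (L l26 (L l29 (T t9 (L l72 (T t147 N)))))))) (K a8 (M a63 (F (T t148 (L l50 (T t149 (L l2 (L l26 (L l56 (L l72 (T t150 N)))))))))) (K a5 (M a40 (F (T t151 (L l29 (T t102 (L l1 (L l21 (L l50 (L l72 (T t152 (L l1 (L l50 (L l72 (T t153 N)))))))))))))) (K a9 (M a48 (F (L l29 (T t154 (L l72 (T t155 (L l5 (L l21 (L l50 (T t156 N)))))))))) (K a13 (M a48 (F (T t157 (L l72 (T t96 (L l5 (L l21 (L l50 (L l71 (T t156 N)))))))))) (K a6 (M a48 (L l48 (F (T t157 (L l6 (L l72 (T t96 (L l1 (L l6 (L l50 (L l72 (T t158 (K a22 (M a54 (F (L l29 (L l69 (T t154 (L l6 (L l16 (L l72 (T t96 (L l1 (L l6 (L l16 (L l21 (L l50 (L l69 (L l72 (T t159 (K a32 (Fr a37 a26 l75 (Fr a5 a10 l8 (Fr a53 a21 l47 (Fr a52 a55 l31 (Fr a4 a8 l4 (V t355)))))) N)))))))))))))))))) (K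 a54 (M a22 (F (L l72 (T t155 (L l29 (L l39 (T t154 (L l31 (L l39 (L l72 (T t161 N))))))))))) N)))))))))))))) (K a10 (M a40 (F (T t162 (L l29 (T t102 (L l21 (L l50 (L l54 (L l72 (T t152 (L l6 (L l50 (L l72 (T t153 N)))))))))))))) (K a14 (M a26 (F (T t47 (L l21 (L l29 (T t54 (L l50 (T t163 N)))))))) (K a3 (M a48 (F (T t164 (L l67 (L l72 (T t96 (L l21 (L l50 (T t156 N))))))))) N)))))))))))))))))⟩
def e0_15___10 : Ent 3 := ⟨[a0, a15], [a39], (M a26 (F (T t45 (T t46 (T t47 (L l21 (T t48 (K a48 (M a14 (F (T t165 (L l30 (L l38 (T t166 (L l30 (L l49 (T t167 N))))))))) (K a5 (M a60 (F (T t168 (L l21 (L l47 (T t169 (L l49 (T t170 N)))))))) (K a21 (M a12 (F (T t57 (L l49 (T t87 (L l21 (L l47 (T t54 N)))))))) (K a37 (M a38 (F (L l47 (T t171 (L l49 (L l71 (T t172 (L l47 (L l49 (T t173 (L l47 (L l71 (T t174 (L l71 (T t175 N))))))))))))))) (K a10 (M a60 (F (T t168 (L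 l21 (T t176 (L l49 (T t170 N))))))) (K a42 (M a12 (F (T t38 (T t57 (L l21 (L l28 (T t54 N))))))) (K a58 (Fr a5 a10 l8 (Fr a37 a48 l75 (Fr a21 a53 l47 (Fr a63 a42 l68 (V t353))))) (K a31 (M a8 (F (T t25 (L l17 (T t177 (L l17 (T t66 N))))))) (K a63 (M a8 (F (T t62 (L l37 (T t177 (L l37 (L l38 (T t66 N)))))))) N))))))))))))))))⟩
def e0_15___11 : Ent 3 := ⟨[a0, a15], [a43], (M a42 (F (T t178 (L l27 (L l67 (T t21 (T t22 (T t23 (K a32 (M a8 (F (T t27 (L l20 (T t179 (L l24 (T t180 N))))))) (K a48 (M a8 (F (T t27 (T t179 (L l38 (T t180 N)))))) (K a5 (M a12 (F (L l67 (T t181 (L l27 (L l47 (T t39 (L l1 (L l27 (L l55 (T t182 N))))))))))) (K a21 (M a12 (F (T t56 (L l27 (L l50 (L l55 (T t182 (L l47 (T t183 (L l47 (L l50 (L l55 (T t184 N))))))))))))) (K a37 (M a12 (F (T t58 (L l67 (T t185 (L l27 (L l47 (T t39 N)))))))) (K a10 (M a12 (F (T t186 (L l6 (L l27 (L l55 (T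 t182 (L l27 (T t39 N))))))))) (K a26 (M a12 (F (T t81 (L l18 (T t186 (L l18 (L l27 (T t39 N)))))))) (K a58 (Fr a21 a63 l68 (Fr a5 a10 l8 (Fr a37 a53 l47 (Fr a48 a26 l75 (V t352))))) (K a63 (M a3 (F (T t187 (L l27 (L l33 (L l55 (T t188 (L l33 (L l38 (T t189 (L l38 (T t190 N)))))))))))) N)))))))))))))))))⟩
def e0_15___12 : Ent 3 := ⟨[a0, a15], [a49], (M a21 (F (T t0 (L l35 (T t1 (L l30 (L l35 (T t2 (L l30 (T t3 (K a16 (M a4 (F (T t5 (L l30 (T t4 (L l14 (L l35 (T t6 N)))))))) (K a48 (M a51 (F (T t191 (L l45 (T t192 (L l35 (L l38 (L l70 (T t193 (L l41 (T t194 N))))))))))) (K a5 (M a12 (F (T t146 (T t9 (L l5 (L l30 (L l71 (T t10 N)))))))) (K a37 (M a13 (F (L l41 (T t195 (L l28 (L l35 (T t196 (L l25 (T t197 N))))))))) (K a53 (Fr a42 a63 l68 (Fr a10 a5 l8 (Fr a26 a58 l54 (Fr a48 a37 l75 (V t351))))) (K a10 (M a12 (F (T t14 (L l54 (T t9 (L l2 (L l30 (L l71 (T t10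 N))))))))) (K a26 (M a12 (F (T t146 (L l57 (T t88 (L l54 (T t9 N))))))) (K a42 (M a4 (F (L l30 (L l56 (L l71 (T t17 (L l35 (L l54 (T t6 (L l54 (L l56 (T t5 (L l22 (L l30 (L l41 (L l56 (T t198 N))))))))))))))))) (K a63 (M a4 (F (T t19 (L l30 (L l37 (L l71 (T t17 (L l35 (L l37 (L l38 (T t6 N))))))))))) N)))))))))))))))))))⟩
def e0_15___13 : Ent 3 := ⟨[a0, a15], [a50], (M a42 (F (T t21 (L l36 (T t20 (L l30 (L l36 (T t22 (L l30 (T t23 (K a32 (M a8 (F (T t25 (L l30 (T t24 (L l24 (L l36 (T t26 N)))))))) (K a48 (M a51 (F (T t199 (L l45 (T t200 (L l36 (L l38 (T t201 (L l42 (T t202 N)))))))))) (K a5 (M a12 (F (T t185 (L l47 (T t39 (L l1 (L l30 (L l72 (T t182 N))))))))) (K a21 (M a8 (F (L l30 (L l50 (L l72 (T t44 (L l36 (L l47 (T t26 (L l47 (L l50 (T t25 (L l11 (L l30 (L l42 (L l50 (T t203 N))))))))))))))))) (K a37 (M a12 (F (T t185 (L l51 (T t87 (L l47 (T t39 N)))))))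 (K a10 (M a12 (F (T t204 (T t39 (L l6 (L l30 (L l72 (T t182 N)))))))) (K a26 (M a14 (F (L l42 (T t205 (L l18 (L l36 (T t206 (L l16 (T t207 N))))))))) (K a58 (Fr a21 a63 l68 (Fr a5 a10 l8 (Fr a37 a53 l47 (Fr a48 a26 l75 (V t352))))) (K a63 (M a8 (F (T t62 (L l30 (L l37 (L l72 (T t44 (L l36 (L l37 (L l38 (T t26 N))))))))))) N)))))))))))))))))))⟩
def e0_15___14 : Ent 3 := ⟨[a0, a15], [a51], (M a48 (F (T t208 (L l37 (T t95 (L l37 (T t209 (L l37 (T t155 (L l37 (T t96 (K a16 (M a3 (F (T t210 (L l74 (T t211 (L l10 (L l18 (T t212 N)))))))) (K a32 (M a3 (F (T t114 (L l39 (T t213 (T t212 N)))))) (K a5 (M a60 (F (T t214 (L l43 (T t215 (L l47 (T t216 N))))))) (K a21 (M a4 (F (T t19 (L l39 (T t217 (L l11 (L l18 (T t218 N)))))))) (K a37 (M a12 (F (T t91 (L l43 (T t38 (L l21 (L l28 (L l39 (L l47 (L l71 (T t219 (L l39 (L l51 (T t220 N)))))))))))))) (K a10 (M a60 (F (T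 t221 (L l74 (T t222 (T t216 N)))))) (K a26 (M a12 (F (T t81 (L l39 (T t223 (L l39 (L l57 (T t224 (L l12 (L l18 (L l39 (L l54 (L l72 (T t225 N)))))))))))))) (K a42 (M a8 (F (T t62 (L l39 (T t226 (L l22 (L l28 (T t227 N)))))))) (K a63 (M a4 (L l37 (F (T t228 (L l43 (L l67 (T t5 (T t218 (K a55 (M a59 (F (T t109 (L l31 (L l33 (L l39 (T t217 (T t218 N)))))))) (K a59 (M a55 (F (L l56 (T t109 (T t229 (L l33 (L l39 (L l56 (T t217 N))))))))) N)))))))))) N))))))))))))))))))))⟩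
def e0_15___15 : Ent 3 := ⟨[a0, a15], [a54], (M a37 (F (T t70 (L l31 (T t67 (L l31 (T t68 (L l36 (T t69 (K a48 (M a13 (F (T t71 (L l30 (T t72 (L l30 (L l31 (L l38 (T t73 N))))))))) (K a5 (M a12 (F (T t74 (L l1 (T t230 (L l1 (T t76 N))))))) (K a21 (M a12 (F (T t15 (L l39 (T t121 (L l18 (L l39 (T t85 N)))))))) (K a53 (Fr a26 a48 l75 (Fr a10 a5 l8 (Fr a42 a58 l54 (Fr a63 a21 l68 (V t354))))) (K a10 (M a12 (F (L l6 (T t74 (L l54 (T t230 (L l6 (T t76 N)))))))) (K a26 (M a13 (F (L l72 (T t72 (L l31 (L l54 (T t73 (L l54 (L l72 (T t195 (L l31 (L l39 (L l72 (T t231 N)))))))))))))) (K a42 (M a12 (F (T t88 (L l39 (T t121 (L l39 (L l54 (T t85 N)))))))) (K a47 (M a51 (F (T t232 (L l31 (T t233 N))))) (K a63 (M a52 (F (T t234 (L l48 (L l62 (T t235 (L l38 (L l67 (T t236 N))))))))) N))))))))))))))))))⟩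
def e0_15___16 : Ent 3 := ⟨[a0, a15], [a55], (M a37 (F (T t69 (L l31 (L l37 (T t67 (L l31 (T t68 (L l37 (T t70 (K a48 (M a13 (F (T t237 (L l30 (L l37 (L l50 (T t72 (L l30 (L l31 (L l38 (T t73 N))))))))))) (K a5 (M a12 (F (T t74 (T t85 (L l1 (L l37 (L l50 (T t76 N)))))))) (K a21 (M a4 (F (L l49 (T t5 (L l18 (L l31 (T t77 (L l11 (T t78 N))))))))) (K a53 (Fr a26 a48 l75 (Fr a10 a5 l8 (Fr a42 a58 l54 (Fr a63 a21 l68 (V t354))))) (K a10 (M a12 (F (T t238 (L l54 (T t85 (L l6 (L l37 (L l50 (T t76 N))))))))) (K a26 (M a13 (F (L l37 (L l50 (L l72 (T t72 (L l31 (L l54 (T t73 (L l54 (L l72 (T t195 (L l16 (L l37 (L l49 (L l72 (T t239 N))))))))))))))))) (K a42 (M a12 (F (T t74 (L l66 (T t15 (L l54 (T t85 N))))))) (K a47 (M a4 (F (T t109 (L l31 (T t77 (T t78 N)))))) (K a63 (M a51 (F (T t240 (L l67 (T t241 (L l31 (L l38 (T t242 (L l49 (T t243 N)))))))))) N)))))))))))))))))))⟩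
def e0_15___17 : Ent 3 := ⟨[a0, a15], [a59], (M a26 (F (T t46 (L l32 (L l37 (T t45 (L l32 (T t47 (L l37 (T t48 (K a48 (M a14 (F (T t165 (L l30 (L l37 (L l56 (T t167 (L l30 (L l32 (L l38 (T t166 N))))))))))) (K a5 (M a12 (F (T t53 (L l47 (T t54 (L l5 (L l37 (L l56 (T t55 N))))))))) (K a21 (M a12 (F (T t53 (L l65 (T t38 (L l47 (T t54 N))))))) (K a37 (M a14 (F (L l37 (L l56 (L l71 (T t167 (L l32 (L l47 (T t166 (L l47 (L l71 (T t205 (L l25 (L l37 (L l55 (L l71 (T t244 N))))))))))))))))) (K a10 (M a12 (F (T t245 (T t54 (L l2 (L l37 (L l56 (T t55 N)))))))) (K a42 (M a8 (F (L l55 (T t25 (L l28 (L l32 (T t63 (L l22 (T t64 N))))))))) (K a58 (Fr a37 a48 l75 (Fr a5 a10 l8 (Fr a21 a53 l47 (Fr a63 a42 l68 (V t353))))) (K a31 (M a8 (F (T t27 (L l32 (T t63 (T t64 N)))))) (K a63 (M a51 (F (T t246 (L l67 (T t247 (L l32 (L l38 (T t248 (L l55 (T t249 N)))))))))) N)))))))))))))))))))⟩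
def e0_15___18 : Ent 3 := ⟨[a0, a15], [a1], (M a42 (F (T t21 (L l5 (T t20 (L l5 (T t22 (L l65 (T t23 (K a32 (M a8 (F (L l5 (T t25 (L l20 (T t250 (L l5 (L l24 (T t26 N))))))))) (K a48 (M a8 (F (T t250 (L l5 (L l45 (T t25 (L l5 (L l38 (T t26 N))))))))) (K a5 (M a13 (F (T t251 (L l47 (L l65 (T t252 (L l1 (L l41 (T t253 (L l41 (L l47 (L l65 (T t254 N))))))))))))) (K a21 (M a41 (F (L l11 (T t255 (L l5 (L l47 (T t256 (L l11 (L l41 (T t257 (L l5 (L l41 (L l47 (T t258 N)))))))))))))) (K a37 (M a8 (F (T t28 (L l5 (L l47 (T t25 (L l5 (L l47 (T t26 (L l5 (L l71 (T t259 N)))))))))))) (K a10 (M a12 (F (T t204 (L l65 (T t39 (L l6 (L l41 (T t182 N)))))))) (K a26 (M a12 (F (T t185 (L l5 (L l57 (T t88 (L l18 (L l65 (T t39 N))))))))) (K a58 (Fr a21 a63 l68 (Fr a5 a10 l8 (Fr a37 a53 l47 (Fr a48 a26 l75 (V t352))))) (K a63 (M a8 (F (L l5 (L l67 (T t25 (L l37 (L l41 (T t44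 (L l5 (L l37 (L l38 (T t26 (L l37 (T t260 N)))))))))))))) N))))))))))))))))))⟩
def e0_15___19 : Ent 3 := ⟨[a0, a15], [a2], (M a21 (F (T t0 (L l6 (T t1 (L l6 (T t2 (L l66 (T t3 (K a16 (M a4 (F (L l6 (T t5 (L l10 (T t11 (L l6 (L l14 (T t6 N))))))))) (K a48 (M a4 (F (T t7 (L l6 (L l45 (T t5 (L l6 (L l38 (T t6 N))))))))) (K a5 (M a12 (F (T t8 (L l66 (T t9 (L l5 (L l42 (T t10 N)))))))) (K a37 (M a12 (F (T t16 (L l6 (L l51 (T t87 (L l28 (L l66 (T t9 N))))))))) (K a53 (Fr a42 a63 l68 (Fr a10 a5 l8 (Fr a26 a58 l54 (Fr a48 a37 l75 (V t351))))) (K a10 (M a14 (F (T t261 (L l54 (L l66 (T t262 (L l2 (L l42 (T t263 (L l42 (L l54 (L l66 (T t264 N))))))))))))) (K a26 (M a4 (F (T t11 (L l6 (L l54 (T t5 (L l6 (L l54 (T t6 (L l6 (L l72 (T t18 N)))))))))))) (K a42 (M a22 (F (L l22 (T t265 (L l6 (L l54 (T t266 (L l22 (L l42 (T t267 (L l6 (L l42 (L l54 (T t268 N))))))))))))))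 (K a63 (M a4 (F (L l6 (L l67 (T t5 (L l37 (L l42 (T t17 (L l6 (L l37 (L l38 (T t6 (L l37 (T t269 N)))))))))))))) N))))))))))))))))))⟩
def e0_15___20 : Ent 3 := ⟨[a0, a15], [a3], (M a37 (F (T t270 (L l67 (T t67 (L l45 (T t69 (L l67 (T t70 (K a48 (M a38 (L l45 (F (L l70 (T t271 (L l38 (T t272 (L l38 (T t273 (L l70 (T t274 (L l30 (L l38 (L l70 (T t275 (K a33 (M a18 (F (L l41 (L l70 (T t276 (L l38 (T t272 (L l30 (L l38 (L l43 (T t277 N))))))))))) (K a18 (M a33 (F (L l42 (T t278 (L l38 (T t273 (L l10 (L l70 (T t279 N))))))))) N))))))))))))))))) (K a5 (M a12 (F (T t280 (L l69 (T t85 (L l1 (T t76 N))))))) (K a21 (M a12 (F (L l45 (T t80 (L l18 (L l69 (T t85 (L l50 (T t281 (L l43 (L l50 (T t282 N)))))))))))) (K a53 (Fr a26 a48 l75 (Fr a10 a5 l8 (Fr a42 a58 l54 (Fr a63 a21 l68 (V t354))))) (K a10 (M a12 (F (L l6 (T t280 (L l54 (L l69 (T t85 (L l6 (T t76 N)))))))))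 (K a26 (M a25 (F (L l54 (T t122 (L l43 (L l72 (T t283 (L l54 (T t284 (L l43 (L l72 (T t126 N)))))))))))) (K a42 (M a4 (F (L l26 (L l56 (T t285 (L l54 (T t86 (L l54 (L l56 (L l69 (T t77 (L l43 (L l56 (T t286 N)))))))))))))) (K a47 (M a4 (F (L l27 (T t285 (L l27 (T t86 (L l69 (T t77 N)))))))) (K a63 (M a12 (L l67 (F (T t230 (L l38 (T t82 (T t287 (K a23 (M a43 (F (T t230 (T t287 (L l37 (L l38 (L l49 (T t83 N)))))))) (K a43 (M a23 (F (T t230 (T t287 (L l27 (L l38 (T t288 N))))))) N))))))))) N))))))))))))))))))⟩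
def e0_15___21 : Ent 3 := ⟨[a0, a15], [a6], (M a26 (F (T t48 (L l1 (T t45 (L l6 (T t46 (L l1 (T t47 (K a48 (M a25 (F (L l70 (T t289 (L l1 (L l38 (T t290 (L l1 (L l38 (T t291 (L l1 (L l48 (L l70 (T t292 (L l70 (T t293 N)))))))))))))))) (K a5 (M a4 (F (L l5 (T t294 (L l47 (T t295 (L l5 (T t296 (L l6 (L l47 (T t297 N))))))))))) (K a21 (M a12 (F (T t245 (L l47 (T t54 (L l1 (L l47 (T t60 (L l1 (L l50 (T t298 N))))))))))) (K a37 (M a25 (F (L l21 (T t299 (L l1 (L l47 (T t290 (L l1 (L l47 (T t300 (L l9 (L l21 (T t301 (L l1 (L l9 (L l21 (T t302 N))))))))))))))))) (K a10 (M a12 (L l6 (F (T t303 (L l2 (T t55 (T t54 (K a2 (Fr a14 a13 l3 (V t304)) (K a14 (M a2 (F (T t305 (T t54 (L l1 (L l48 (T t306 (L l1 (L l60 (T t307 N)))))))))) N))))))))) (K a42 (M a12 (F (L l6 (T t53 (L l28 (T t54 (L l6 (L l56 (T t308 (L l56 (T t309 N))))))))))) (K a58 (Fr a37 a48 l75 (Fr a5 a10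 l8 (Fr a21 a53 l47 (Fr a63 a42 l68 (V t353))))) (K a31 (M a24 (F (T t310 (L l1 (L l17 (T t311 (L l9 (T t312 N)))))))) (K a63 (M a12 (F (T t303 (L l33 (T t54 (L l1 (L l38 (T t60 (T t313 N))))))))) N))))))))))))))))))⟩
def e0_15___22 : Ent 3 := ⟨[a0, a15], [a7], (M a26 (F (T t46 (L l1 (T t45 (L l1 (T t47 (L l51 (T t48 (K a48 (M a14 (F (L l1 (L l45 (T t205 (L l30 (L l49 (T t167 (L l1 (L l30 (L l38 (T t166 (L l30 (T t314 N)))))))))))))) (K a5 (M a4 (F (T t315 (L l47 (L l51 (T t295 (L l5 (L l49 (T t294 (L l47 (L l49 (L l51 (T t316 N))))))))))))) (K a21 (M a12 (F (T t57 (L l1 (L l47 (T t15 (L l47 (L l51 (T t54 (L l1 (L l50 (T t298 N)))))))))))) (K a37 (M a22 (F (L l25 (T t317 (L l1 (L l47 (T t318 (L l25 (L l49 (T t319 (L l1 (L l47 (L l49 (T t320 N)))))))))))))) (K a10 (M a12 (F (T t303 (L l51 (T t54 (L l2 (L l49 (T t55 N)))))))) (K a42 (M a12 (F (T t57 (L l1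 (L l66 (T t15 (L l28 (L l51 (T t54 N))))))))) (K a58 (Fr a37 a48 l75 (Fr a5 a10 l8 (Fr a21 a53 l47 (Fr a63 a42 l68 (V t353))))) (K a31 (M a24 (F (L l51 (T t310 (L l1 (L l17 (T t311 (L l51 (T t312 N))))))))) (K a63 (M a12 (F (T t303 (L l1 (L l67 (T t15 (L l33 (L l51 (T t54 N))))))))) N))))))))))))))))))⟩
def e0_15___23 : Ent 3 := ⟨[a0, a15], [a11], (M a37 (F (T t69 (L l2 (T t67 (L l2 (T t68 (L l57 (T t70 (K a48 (M a13 (F (L l2 (L l45 (T t195 (L l30 (L l55 (T t72 (L l2 (L l30 (L l38 (T t73 (L l30 (T t321 N)))))))))))))) (K a5 (M a12 (F (T t74 (L l57 (T t85 (L l1 (L l55 (T t76 N)))))))) (K a21 (M a12 (F (T t121 (L l2 (L l65 (T t38 (L l18 (L l57 (T t85 N))))))))) (K a53 (Fr a26 a48 l75 (Fr a10 a5 l8 (Fr a42 a58 l54 (Fr a63 a21 l68 (V t354))))) (K a10 (M a8 (F (T t322 (L l54 (L l57 (T t323 (L l6 (L l55 (T t324 (L l54 (L l55 (L l57 (T t325 N))))))))))))) (K a26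 (M a41 (F (L l16 (T t326 (L l2 (L l54 (T t327 (L l16 (L l55 (T t328 (L l2 (L l54 (L l55 (T t329 N)))))))))))))) (K a42 (M a12 (F (T t121 (L l2 (L l54 (T t38 (L l54 (L l57 (T t85 (L l2 (L l56 (T t330 N)))))))))))) (K a47 (M a36 (F (L l57 (T t331 (L l2 (L l27 (T t332 (L l57 (T t333 N))))))))) (K a63 (M a12 (F (T t280 (L l2 (L l67 (T t38 (L l33 (L l57 (T t85 N))))))))) N))))))))))))))))))⟩
def b0_15__ : Blk 3 := ⟨[0, 15], [], [17, 18, 19, 22, 23, 27, 33, 34, 35, 38, 39, 43, 49, 50, 51, 54, 55, 59, 1, 2, 3, 6, 7, 11], [e0_15___0, e0_15___1, e0_15___2, e0_15___3, e0_15___4, e0_15___5, e0_15___6, e0_15___7, e0_15___8, e0_15___9, e0_15___10, e0_15___11, e0_15___12, e0_15___13, e0_15___14, e0_15___15, e0_15___16, e0_15___17, e0_15___18, e0_15___19, e0_15___20, e0_15___21, e0_15___22, e0_15___23], by decide +kernel, by decide +kernel⟩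
def e0_15_26___0 : Ent 3 := ⟨[a0, a15, a26], [a10], (M a12 (F (T t303 (T t54 (L l2 (T t55 N))))))⟩
def b0_15_26__ : Blk 3 := ⟨[0, 15, 26], [], [10], [e0_15_26___0], by decide +kernel, by decide +kernel⟩
def e0_15_26__10_0 : Ent 3 := ⟨[a0, a15, a26], [a10, a1], (M a12 (F (T t61 (L l2 (L l5 (T t55 (T t54 N)))))))⟩
def e0_15_26__10_1 : Ent 3 := ⟨[a0, a15, a26], [a10, a2], (M a12 (L l6 (F (T t61 (L l2 (L l42 (T t55 (T t54 (K a6 (Fr a14 a13 l3 (V t304)) (K a14 (M a6 (F (L l2 (T t342 (T t54 (L l2 (T t343 (K a8 (Fr a48 a37 l75 (Fr a3 a9 l9 (Fr a11 a7 l7 (V t356)))) N)))))))) N))))))))))⟩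
def e0_15_26__10_2 : Ent 3 := ⟨[a0, a15, a26], [a10, a3], (M a12 (F (T t303 (L l69 (T t54 (L l2 (T t55 N)))))))⟩
def e0_15_26__10_3 : Ent 3 := ⟨[a0, a15, a26], [a10, a6], (M a12 (L l6 (F (T t303 (L l2 (T t55 (T t54 (K a2 (Fr a14 a13 l3 (V t304)) (K a14 (M a2 (F (T t305 (T t54 (L l1 (L l48 (T t306 (L l1 (L l60 (T t307 N)))))))))) N)))))))))⟩
def e0_15_26__10_4 : Ent 3 := ⟨[a0, a15, a26], [a10, a7], (M a12 (F (T t303 (L l51 (T t54 (L l2 (L l49 (T t55 N))))))))⟩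
def e0_15_26__10_5 : Ent 3 := ⟨[a0, a15, a26], [a10, a11], (M a51 (L l2 (F (T t345 (T t247 (T t346 (K a8 (M a9 (F (L l52 (T t347 (T t247 (L l52 (L l56 (T t348 N)))))))) (K a9 (M a8 (F (T t345 (T t349 (T t350 N))))) N))))))))⟩
def e0_15_26__10_6 : Ent 3 := ⟨[a0, a15, a26], [a10, a17], (M a12 (F (T t245 (L l10 (T t54 (L l2 (L l10 (T t55 N))))))))⟩
def e0_15_26__10_7 : Ent 3 := ⟨[a0, a15, a26], [a10, a18], (M a12 (F (T t61 (L l2 (L l10 (L l42 (T t55 (L l10 (T t54 N)))))))))⟩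
def e0_15_26__10_8 : Ent 3 := ⟨[a0, a15, a26], [a10, a19], (M a12 (F (T t245 (L l10 (T t54 (L l2 (L l10 (T t55 N))))))))⟩
def e0_15_26__10_9 : Ent 3 := ⟨[a0, a15, a26], [a10, a22], (M a12 (F (T t245 (L l51 (L l69 (T t54 (L l2 (T t55 N))))))))⟩
def e0_15_26__10_10 : Ent 3 := ⟨[a0, a15, a26], [a10, a23], (M a12 (F (T t245 (T t54 (L l2 (L l49 (T t55 N)))))))⟩
def e0_15_26__10_11 : Ent 3 := ⟨[a0, a15, a26], [a10, a27], (M a60 (F (T t168 (T t176 (L l17 (T t170 N))))))⟩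
def e0_15_26__10_12 : Ent 3 := ⟨[a0, a15, a26], [a10, a33], (M a12 (F (T t303 (L l25 (T t54 (L l2 (T t55 N)))))))⟩
def e0_15_26__10_13 : Ent 3 := ⟨[a0, a15, a26], [a10, a34], (M a12 (F (T t61 (L l2 (L l42 (T t55 (T t54 N)))))))⟩
def e0_15_26__10_14 : Ent 3 := ⟨[a0, a15, a26], [a10, a35], (M a12 (F (T t303 (L l2 (T t334 (L l2 (T t55 N)))))))⟩
def e0_15_26__10_15 : Ent 3 := ⟨[a0, a15, a26], [a10, a38], (M a60 (F (T t168 (L l21 (L l50 (L l74 (T t176 (T t170 N))))))))⟩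
def e0_15_26__10_16 : Ent 3 := ⟨[a0, a15, a26], [a10, a39], (M a60 (F (T t168 (L l21 (T t176 (L l49 (T t170 N)))))))⟩
def e0_15_26__10_17 : Ent 3 := ⟨[a0, a15, a26], [a10, a43], (M a12 (F (T t245 (T t54 (L l2 (T t55 N))))))⟩
def e0_15_26__10_18 : Ent 3 := ⟨[a0, a15, a26], [a10, a49], (M a60 (F (L l2 (T t339 (T t170 (L l71 (T t176 N)))))))⟩
def e0_15_26__10_19 : Ent 3 := ⟨[a0, a15, a26], [a10, a50], (M a60 (F (L l30 (T t168 (T t176 (L l42 (T t170 N)))))))⟩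
def e0_15_26__10_20 : Ent 3 := ⟨[a0, a15, a26], [a10, a51], (M a60 (F (T t340 (L l74 (T t176 (T t170 N))))))⟩
def e0_15_26__10_21 : Ent 3 := ⟨[a0, a15, a26], [a10, a54], (M a12 (F (T t341 (L l2 (L l31 (L l36 (T t55 (L l39 (T t54 N)))))))))⟩
def e0_15_26__10_22 : Ent 3 := ⟨[a0, a15, a26], [a10, a55], (M a60 (F (T t168 (L l50 (T t176 (L l49 (T t170 N)))))))⟩
def e0_15_26__10_23 : Ent 3 := ⟨[a0, a15, a26], [a10, a59], (M a12 (F (T t245 (T t54 (L l2 (L l37 (L l56 (T t55 N))))))))⟩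
def b0_15_26__10 : Blk 3 := ⟨[0, 15, 26], [10], [1, 2, 3, 6, 7, 11, 17, 18, 19, 22, 23, 27, 33, 34, 35, 38, 39, 43, 49, 50, 51, 54, 55, 59], [e0_15_26__10_0, e0_15_26__10_1, e0_15_26__10_2, e0_15_26__10_3, e0_15_26__10_4, e0_15_26__10_5, e0_15_26__10_6, e0_15_26__10_7, e0_15_26__10_8, e0_15_26__10_9, e0_15_26__10_10, e0_15_26__10_11, e0_15_26__10_12, e0_15_26__10_13, e0_15_26__10_14, e0_15_26__10_15, e0_15_26__10_16, e0_15_26__10_17, e0_15_26__10_18, e0_15_26__10_19, e0_15_26__10_20, e0_15_26__10_21, e0_15_26__10_22, e0_15_26__10_23], by decide +kernel, by decide +kernel⟩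
def e0_15_26__17_0 : Ent 3 := ⟨[a0, a15, a26], [a17, a10], (M a12 (F (T t245 (L l10 (T t54 (L l2 (L l10 (T t55 N))))))))⟩
def b0_15_26__17 : Blk 3 := ⟨[0, 15, 26], [17], [10], [e0_15_26__17_0], by decide +kernel, by decide +kernel⟩
def e0_15_26__18_0 : Ent 3 := ⟨[a0, a15, a26], [a18, a10], (M a12 (F (T t61 (L l2 (L l10 (L l42 (T t55 (L l10 (T t54 N)))))))))⟩
def b0_15_26__18 : Blk 3 := ⟨[0, 15, 26], [18], [10], [e0_15_26__18_0], by decide +kernel, by decide +kernel⟩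
def e0_15_26__19_0 : Ent 3 := ⟨[a0, a15, a26], [a19, a10], (M a12 (F (T t245 (L l10 (T t54 (L l2 (L l10 (T t55 N))))))))⟩
def b0_15_26__19 : Blk 3 := ⟨[0, 15, 26], [19], [10], [e0_15_26__19_0], by decide +kernel, by decide +kernel⟩
def e0_15_26__22_0 : Ent 3 := ⟨[a0, a15, a26], [a22, a10], (M a12 (F (T t245 (L l51 (L l69 (T t54 (L l2 (T t55 N))))))))⟩
def b0_15_26__22 : Blk 3 := ⟨[0, 15, 26], [22], [10], [e0_15_26__22_0], by decide +kernel, by decide +kernel⟩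
def e0_15_26__23_0 : Ent 3 := ⟨[a0, a15, a26], [a23, a10], (M a12 (F (T t245 (T t54 (L l2 (L l49 (T t55 N)))))))⟩
def b0_15_26__23 : Blk 3 := ⟨[0, 15, 26], [23], [10], [e0_15_26__23_0], by decide +kernel, by decide +kernel⟩
def e0_15_26__27_0 : Ent 3 := ⟨[a0, a15, a26], [a27, a10], (M a60 (F (T t168 (T t176 (L l17 (T t170 N))))))⟩
def b0_15_26__27 : Blk 3 := ⟨[0, 15, 26], [27], [10], [e0_15_26__27_0], by decide +kernel, by decide +kernel⟩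
def e0_15_26__33_0 : Ent 3 := ⟨[a0, a15, a26], [a33, a10], (M a12 (F (T t303 (L l25 (T t54 (L l2 (T t55 N)))))))⟩
def b0_15_26__33 : Blk 3 := ⟨[0, 15, 26], [33], [10], [e0_15_26__33_0], by decide +kernel, by decide +kernel⟩
def e0_15_26__34_0 : Ent 3 := ⟨[a0, a15, a26], [a34, a10], (M a12 (F (T t61 (L l2 (L l42 (T t55 (T t54 N)))))))⟩
def b0_15_26__34 : Blk 3 := ⟨[0, 15, 26], [34], [10], [e0_15_26__34_0], by decide +kernel, by decide +kernel⟩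
def e0_15_26__35_0 : Ent 3 := ⟨[a0, a15, a26], [a35, a10], (M a12 (F (T t303 (L l2 (T t334 (L l2 (T t55 N)))))))⟩
def b0_15_26__35 : Blk 3 := ⟨[0, 15, 26], [35], [10], [e0_15_26__35_0], by decide +kernel, by decide +kernel⟩
def e0_15_26__39_0 : Ent 3 := ⟨[a0, a15, a26], [a39, a10], (M a60 (F (T t168 (L l21 (T t176 (L l49 (T t170 N)))))))⟩
def b0_15_26__39 : Blk 3 := ⟨[0, 15, 26], [39], [10], [e0_15_26__39_0], by decide +kernel, by decide +kernel⟩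
def e0_15_26__43_0 : Ent 3 := ⟨[a0, a15, a26], [a43, a10], (M a12 (F (T t245 (T t54 (L l2 (T t55 N))))))⟩
def b0_15_26__43 : Blk 3 := ⟨[0, 15, 26], [43], [10], [e0_15_26__43_0], by decide +kernel, by decide +kernel⟩
def e0_15_26__49_0 : Ent 3 := ⟨[a0, a15, a26], [a49, a10], (M a60 (F (L l2 (T t339 (T t170 (L l71 (T t176 N)))))))⟩
def b0_15_26__49 : Blk 3 := ⟨[0, 15, 26], [49], [10], [e0_15_26__49_0], by decide +kernel, by decide +kernel⟩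
def e0_15_26__50_0 : Ent 3 := ⟨[a0, a15, a26], [a50, a10], (M a60 (F (L l30 (T t168 (T t176 (L l42 (T t170 N)))))))⟩
def b0_15_26__50 : Blk 3 := ⟨[0, 15, 26], [50], [10], [e0_15_26__50_0], by decide +kernel, by decide +kernel⟩
def e0_15_26__51_0 : Ent 3 := ⟨[a0, a15, a26], [a51, a10], (M a60 (F (T t340 (L l74 (T t176 (T t170 N))))))⟩
def b0_15_26__51 : Blk 3 := ⟨[0, 15, 26], [51], [10], [e0_15_26__51_0], by decide +kernel, by decide +kernel⟩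
def e0_15_26__54_0 : Ent 3 := ⟨[a0, a15, a26], [a54, a10], (M a12 (F (T t341 (L l2 (L l31 (L l36 (T t55 (L l39 (T t54 N)))))))))⟩
def b0_15_26__54 : Blk 3 := ⟨[0, 15, 26], [54], [10], [e0_15_26__54_0], by decide +kernel, by decide +kernel⟩
def e0_15_26__55_0 : Ent 3 := ⟨[a0, a15, a26], [a55, a10], (M a60 (F (T t168 (L l50 (T t176 (L l49 (T t170 N)))))))⟩
def b0_15_26__55 : Blk 3 := ⟨[0, 15, 26], [55], [10], [e0_15_26__55_0], by decide +kernel, by decide +kernel⟩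
def e0_15_26__59_0 : Ent 3 := ⟨[a0, a15, a26], [a59, a10], (M a12 (F (T t245 (T t54 (L l2 (L l37 (L l56 (T t55 N))))))))⟩
def b0_15_26__59 : Blk 3 := ⟨[0, 15, 26], [59], [10], [e0_15_26__59_0], by decide +kernel, by decide +kernel⟩
def e0_15_60__38_0 : Ent 3 := ⟨[a0, a15, a60], [a38, a10], (M a16 (F (T t335 (L l54 (L l72 (T t336 (T t337 (L l21 (T t338 N)))))))))⟩
def b0_15_60__38 : Blk 3 := ⟨[0, 15, 60], [38], [10], [e0_15_60__38_0], by decide +kernel, by decide +kernel⟩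

end Pool.Agent.Lib_TTT.K3
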