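import Pool.Agent.Lib_TTT.K4Base
import Pool.Agent.Lib_TTT.K4T00
import Pool.Agent.Lib_TTT.K4T01
import Pool.Agent.Lib_TTT.K4T02
import Pool.Agent.Lib_TTT.K4T03
import Pool.Agent.Lib_TTT.K4T04
import Pool.Agent.Lib_TTT.K4T05
import Pool.Agent.Lib_TTT.K4T07
import Pool.Agent.Lib_TTT.K4T09

/-! Certificates in `4^4`. -/

set_option autoImplicit false
set_option maxRecDepth 200000

namespace Pool.Agent.Lib_TTT.K4

open Lib_TTT AC DC

def e0_63__64_0 : Ent 4 := ⟨[a0, a63], [a64, a1], (M a48 (F (T t0 (L l65 (T t1 (L l5 (T t2 (L l65 (T t3 (K a16 (M a60 (F (T t42 (L l14 (L l18 (L l65 (T t67 (L l5 (T t65 N))))))))) (K a32 (M a60 (F (T t42 (L l65 (T t67 (L l5 (L l24 (L l28 (T t65 N))))))))) (K a21 (M a60 (L l65 (F (T t248 (L l47 (T t42 (L l11 (L l18 (L l47 (T t876 (L l41 (L l50 (T t250 (K a41 (Fr a61 a62 l33 (V t877)) (K a61 (M a41 (F (L l11 (T t878 (L l47 (L l59 (T t1299 (T t248 N)))))))) N)))))))))))))))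 (K a37 (M a52 (F (T t83 (T t82 (L l21 (L l28 (T t84 N))))))) (K a53 (M a12 (F (T t443 (L l47 (L l65 (T t122 (L l47 (L l65 (T t146 N))))))))) (K a26 (M a56 (F (T t134 (T t133 (L l12 (L l18 (L l65 (T t135 N)))))))) (K a42 (M a101 (F (T t333 (T t334 (L l54 (T t314 N)))))) (K a58 (M a12 (F (T t443 (L l65 (T t122 (L l65 (T t146 N))))))) (K a15 (M a4 (F (T t1604 (L l63 (T t528 (T t520 N)))))) N))))))))))))))))))⟩
def e0_63__64_1 : Ent 4 := ⟨[a0, a63], [a64, a2], (M a48 (F (T t3 (L l6 (T t1 (L l66 (T t2 (L l66 (T t0 (K a16 (M a60 (F (T t42 (L l66 (T t43 (L l6 (L l14 (L l18 (T t44 N))))))))) (K a32 (M a60 (F (T t42 (L l24 (L l28 (L l66 (T t43 (L l6 (T t44 N))))))))) (K a21 (M a101 (F (T t687 (L l18 (L l330 (T t334 (L l18 (T t314 N)))))))) (K a37 (M a52 (F (T t83 (T t82 (L l21 (L l28 (L l66 (T t84 N)))))))) (K a53 (M a12 (F (T t443 (L l42 (L l47 (T t122 (L l42 (L l47 (T t146 N))))))))) (K a26 (M a56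 (F (T t134 (T t133 (L l12 (L l18 (T t135 N))))))) (K a42 (M a60 (L l66 (F (T t880 (L l42 (T t64 (L l42 (L l56 (T t288 (L l22 (L l28 (L l54 (T t638 (K a22 (Fr a62 a61 l33 (V t639)) (K a62 (M a22 (F (L l22 (T t881 (L l54 (L l60 (T t882 (L l56 (T t489 N))))))))) N))))))))))))))) (K a58 (M a12 (F (T t443 (L l42 (T t122 (L l42 (T t146 N))))))) (K a15 (M a4 (F (T t518 (L l66 (L l73 (T t519 (L l66 (T t520 N)))))))) N))))))))))))))))))⟩
def e0_63__64_2 : Ent 4 := ⟨[a0, a63], [a64, a3], (M a48 (F (T t48 (L l7 (T t1 (L l7 (T t2 (L l7 (T t3 (L l7 (T t0 (K a16 (M a149 (F (L l331 (T t184 (L l18 (L l309 (T t175 (T t6 N)))))))) (K a32 (M a149 (F (T t16 (L l309 (T t175 (L l28 (T t6 N))))))) (K a21 (M a101 (F (T t8349 (L l18 (L l331 (T t334 (L l18 (T t314 N)))))))) (K a37 (M a52 (F (T t555 (L l9 (T t82 (L l21 (L l28 (T t84 N)))))))) (K a53 (M a12 (F (T t145 (L l43 (L l47 (T t122 (L l47 (T t146 N)))))))) (K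 a26 (M a56 (F (T t556 (L l9 (T t133 (L l12 (L l18 (T t135 N)))))))) (K a42 (M a101 (F (T t4850 (L l54 (L l116 (L l309 (T t313 (L l54 (T t314 N))))))))) (K a58 (M a12 (F (T t145 (L l43 (T t122 (T t146 N)))))) (K a15 (M a85 (L l7 (F (T t567 (T t568 (K a7 (M a11 (F (T t567 (T t568 N)))) (K a11 (M a7 (F (T t567 (T t568 N)))) N))))))) N))))))))))))))))))))⟩
def e0_63__64_3 : Ent 4 := ⟨[a0, a63], [a64, a5], (M a60 (F (T t43 (L l47 (T t67 (L l47 (T t68 (L l5 (T t69 (K a20 (M a48 (F (T t70 (L l11 (L l14 (L l47 (T t3 (L l46 (T t71 N))))))))) (K a40 (M a48 (F (T t70 (L l47 (T t3 (L l22 (L l24 (T t71 N)))))))) (K a21 (M a105 (L l47 (F (T t1217 (L l11 (T t404 (L l11 (T t405 (K a37 (M a53 (F (T t1217 (L l28 (T t76 N))))) (K a53 (M a37 (F (T t1454 (T t1132 (L l11 (T t405 N)))))) N)))))))))) (K a41 (M a48 (F (T t70 (L l1 (L l22 (L l57 (T t247 (L l47 (L l65 (T t3 N)))))))))) (K a61 (M a48 (F (T t248 (L l47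 (L l65 (T t3 (L l47 (L l65 (T t5312 N))))))))) (K a22 (M a48 (F (T t451 (L l1 (T t247 (L l11 (L l47 (T t3 N)))))))) (K a42 (M a105 (F (T t404 (L l66 (L l140 (T t1128 (L l66 (T t405 N)))))))) (K a62 (M a48 (F (T t248 (L l47 (T t3 (L l47 (T t5312 N))))))) (K a3 (M a48 (F (T t1308 (L l43 (L l47 (T t64 (L l7 (L l47 (T t3 N))))))))) N))))))))))))))))))⟩
def e0_63__64_4 : Ent 4 := ⟨[a0, a63], [a64, a6], (M a48 (F (T t3 (L l6 (T t1 (L l1 (T t2 (T t0 (K a16 (M a60 (F (T t64 (L l9 (L l14 (L l18 (T t67 (L l1 (T t65 N))))))))) (K a32 (M a60 (F (T t64 (L l9 (T t67 (L l1 (L l24 (L l28 (T t65 N))))))))) (K a21 (M a101 (F (T t312 (L l116 (T t313 (L l18 (T t314 N))))))) (K a37 (M a12 (F (T t445 (L l47 (T t122 (L l21 (L l28 (T t3324 N)))))))) (K a53 (M a12 (F (T t151 (T t443 (L l47 (T t146 N)))))) (K a26 (M a56 (F (T t134 (L l9 (T t133 (L l12 (L l18 (T t135 N)))))))) (K a42 (M a101 (F (T t333 (T t334 (L l54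 (T t314 N)))))) (K a58 (M a12 (F (T t443 (T t122 (T t146 N))))) (K a15 (M a56 (F (T t6620 (L l3 (L l9 (T t133 (T t135 N))))))) N)))))))))))))))))⟩
def e0_63__64_5 : Ent 4 := ⟨[a0, a63], [a64, a7], (M a12 (F (T t122 (T t151 (L l1 (T t152 (L l49 (T t153 (K a4 (M a5 (F (T t1110 (T t1107 (T t3134 (T t3135 N)))))) (K a8 (M a60 (F (T t570 (T t116 (L l49 (L l52 (L l56 (T t448 N)))))))) (K a21 (M a89 (F (T t2786 (L l1 (L l50 (T t863 (L l1 (L l50 (T t864 N))))))))) (K a25 (M a48 (F (L l19 (T t443 (L l7 (L l15 (T t1 (L l1 (L l12 (L l49 (L l56 (T t866 N)))))))))))) (K a29 (M a48 (F (T t445 (L l7 (L l15 (T t1 (L l1 (L l49 (T t866 N))))))))) (K a38 (M a48 (F (L l29 (T t445 (L l7 (L l26 (T t0 (L l21 (L l50 (T t868 N)))))))))) (K a42 (M a89 (F (T t3370 (L l1 (T t863 (L l1 (L l26 (T t864 N)))))))) (K a46 (M a48 (F (T t443 (L l7 (T t1 (L l1 (L l26 (L l49 (T t866 N))))))))) (K a51 (M a85 (F (T t571 (L l457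 (T t572 N))))) N)))))))))))))))))⟩
def e0_63__64_6 : Ent 4 := ⟨[a0, a63], [a64, a10], (M a60 (F (T t67 (L l54 (T t43 (L l6 (T t68 (L l54 (T t69 (K a20 (M a48 (F (L l54 (T t0 (T t64 (L l6 (L l11 (T t235 N)))))))) (K a40 (M a48 (F (T t42 (L l22 (L l24 (L l54 (T t0 (L l6 (L l52 (T t235 N)))))))))) (K a21 (M a105 (F (T t1217 (L l11 (T t404 (L l11 (T t405 N))))))) (K a41 (M a48 (F (T t42 (L l22 (L l57 (T t247 (L l22 (L l54 (T t0 N))))))))) (K a61 (M a48 (F (T t247 (L l54 (T t0 (L l54 (T t4126 N))))))) (K a22 (M a48 (F (T t247 (T t64 (L l54 (L l66 (T t0 N))))))) (K a42 (M a105 (L l54 (F (T t1129 (L l66 (L l140 (T t1128 (L l66 (T t405 (K a26 (M a58 (F (T t404 (L l56 (L l72 (T t3780 N)))))) (K a58 (M a26 (F (T t420 (T t1143 (L l36 (L l66 (T t405 N))))))) N))))))))))) (K a62 (M a48 (F (T t247 (L l54 (L l66 (T t0 (L l54 (L l66 (T t4126 N))))))))) (K a3 (M a48 (F (T t3520 (L l43 (T t64 (L l7 (L l54 (T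 t0 N)))))))) N))))))))))))))))))⟩
def e0_63__64_7 : Ent 4 := ⟨[a0, a63], [a64, a11], (M a12 (F (T t122 (T t151 (L l55 (T t152 (L l2 (T t153 (K a4 (M a60 (F (T t570 (L l46 (L l50 (L l55 (T t116 (T t448 N)))))))) (K a8 (M a10 (F (T t2561 (T t2151 (T t2599 (T t2600 N)))))) (K a21 (M a89 (F (T t2786 (L l50 (L l463 (T t863 (L l50 (L l463 (T t864 N))))))))) (K a25 (M a48 (F (L l19 (T t443 (L l7 (L l15 (T t3 (L l12 (L l56 (T t866 N)))))))))) (K a29 (M a48 (F (T t445 (L l7 (T t2 (T t866 N)))))) (K a38 (M a48 (F (L l2 (T t1580 (L l7 (L l26 (T t0 (L l2 (L l21 (L l50 (L l55 (T t868 N)))))))))))) (K a42 (M a89 (F (T t3370 (L l463 (T t863 (L l26 (L l463 (T t864 N)))))))) (K a46 (M a48 (F (T t443 (L l7 (L l26 (T t2 (L l26 (T t866 N)))))))) (K a51 (M a85 (F (T t571 (L l2 (T t572 N))))) N)))))))))))))))))⟩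
def e0_63__64_8 : Ent 4 := ⟨[a0, a63], [a64, a15], (M a12 (F (T t150 (L l73 (T t122 (L l73 (T t151 (L l73 (T t152 (L l73 (T t153 (K a4 (M a149 (F (L l481 (T t650 (L l50 (L l339 (T t175 (T t960 N)))))))) (K a8 (M a149 (F (T t647 (L l339 (T t175 (L l56 (T t960 N))))))) (K a21 (M a89 (F (T t862 (L l50 (L l481 (T t863 (L l50 (T t864 N)))))))) (K a25 (M a60 (F (L l75 (T t417 (L l7 (L l15 (T t67 (L l19 (L l56 (T t8350 N)))))))))) (K a29 (M a60 (F (T t421 (L l7 (L l15 (T t67 (L l15 (T t399 N)))))))) (K a38 (M a60 (F (L l75 (T t409 (L l7 (L l26 (T t43 (L l29 (L l50 (T t3052 N)))))))))) (K a42 (M a89 (F (T t4375 (L l26 (L l80 (L l339 (T t870 (L l26 (T t864 N))))))))) (K a46 (M a60 (F (T t3918 (L l7 (T t67 (L l23 (T t399 N))))))) (K a51 (M a85 (L l73 (F (T t571 (T t572 (K a39 (M a27 (F (T t571 (T t572 N)))) (K a27 (M a39 (F (T t571 (T t572 N)))) N))))))) N))))))))))))))))))))⟩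
def e0_63__64_9 : Ent 4 := ⟨[a0, a63], [a64, a22], (M a48 (F (L l11 (T t1 (L l66 (T t2 (L l11 (T t3 (L l66 (T t0 (K a16 (M a149 (F (T t184 (L l11 (L l18 (T t175 (L l66 (T t6 N)))))))) (K a32 (M a149 (F (T t16 (L l11 (T t175 (L l28 (L l66 (T t6 N)))))))) (K a21 (M a101 (L l11 (F (T t312 (L l116 (T t313 (L l18 (T t314 (K a20 (M a23 (F (T t312 (L l346 (T t8351 N))))) (K a23 (M a20 (F (T t687 (L l18 (L l51 (L l69 (T t1201 N))))))) N)))))))))) (K a37 (M a85 (L l51 (F (T t364 (T t50 (L l28 (L l47 (T t1199 (K a52 (M a7 (F (T t365 (L l422 (T t50 (L l28 (L l31 (L l47 (T t1199 N))))))))) (K a7 (M a52 (F (T t364 (L l49 (T t83 N))))) N)))))))))) (K a53 (M a12 (F (T t145 (L l66 (T t151 (L l11 (L l47 (T t146 N)))))))) (K a26 (M a149 (L l16 (F (T t187 (L l11 (L l18 (T t175 (L l18 (L l54 (T t14 (K a18 (M a30 (F (T t187 (L l11 (L l18 (L l144 (T t1007 (L l10 (L l18 (L l54 (T t14 N))))))))))) (K a30 (M a18 (F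 (T t11 (L l19 (L l69 (T t637 N)))))) N)))))))))))) (K a42 (M a101 (L l66 (F (T t333 (T t334 (L l54 (T t314 (K a2 (M a62 (F (T t335 (L l42 (T t825 N))))) (K a62 (M a2 (F (T t336 (L l19 (L l28 (T t342 N)))))) N))))))))) (K a58 (M a12 (F (T t145 (L l54 (L l66 (T t151 (L l11 (T t146 N)))))))) (K a15 (M a12 (F (T t145 (L l66 (L l73 (T t151 (L l11 (L l73 (T t146 N))))))))) N)))))))))))))))))))⟩
def e0_63__64_10 : Ent 4 := ⟨[a0, a63], [a64, a23], (M a48 (F (T t2 (L l11 (T t1 (L l11 (T t3 (L l17 (T t0 (K a16 (M a60 (F (T t64 (L l11 (L l18 (T t68 (L l11 (L l18 (T t194 N))))))))) (K a32 (M a60 (F (T t64 (L l11 (T t68 (L l11 (T t194 N))))))) (K a21 (M a101 (L l11 (F (T t312 (L l116 (T t313 (L l18 (T t314 (K a20 (M a22 (F (T t687 (L l14 (L l18 (T t334 (L l14 (L l18 (T t314 N))))))))) (K a22 (M a20 (F (T t687 (L l18 (L l51 (L l69 (T t1201 N))))))) N)))))))))) (K a37 (M a52 (F (T t82 (L l49 (T t83 (L l11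 (L l21 (L l28 (T t84 N))))))))) (K a53 (M a12 (F (T t151 (T t443 (L l11 (L l47 (L l49 (T t146 N)))))))) (K a26 (M a56 (F (T t134 (L l11 (T t133 (L l11 (L l12 (L l18 (T t135 N))))))))) (K a42 (M a101 (F (T t333 (T t334 (L l54 (T t314 N)))))) (K a58 (M a12 (F (T t443 (L l54 (T t151 (L l11 (L l49 (T t146 N)))))))) (K a15 (M a4 (F (T t129 (L l63 (T t528 (T t520 N)))))) N))))))))))))))))))⟩
def e0_63__64_11 : Ent 4 := ⟨[a0, a63], [a64, a26], (M a12 (F (L l18 (T t122 (L l54 (T t151 (L l18 (T t152 (L l54 (T t153 (K a4 (M a60 (F (T t570 (L l54 (T t43 (L l54 (T t448 N))))))) (K a8 (M a60 (F (T t570 (L l52 (L l54 (L l56 (T t43 (L l52 (L l54 (L l56 (T t448 N))))))))))) (K a21 (M a89 (L l18 (F (T t2755 (L l80 (T t870 (L l50 (T t864 (K a16 (M a31 (F (T t2755 (L l14 (T t1369 N))))) (K a31 (M a16 (F (T t2786 (L l50 (L l57 (T t652 N)))))) N)))))))))) (K a25 (M a85 (L l12 (F (T t1373 (T t124 (L l15 (L l56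 (T t8352 (K a24 (M a27 (F (T t573 (T t124 (L l15 (L l52 (L l56 (T t8352 N)))))))) (K a27 (M a24 (F (T t124 (L l57 (L l75 (T t2412 N)))))) N)))))))))) (K a29 (M a60 (F (T t5386 (L l54 (T t43 (L l15 (L l18 (T t399 N)))))))) (K a38 (M a60 (L l72 (F (T t423 (L l29 (T t5386 (L l18 (L l50 (T t67 (K a50 (M a14 (F (T t2546 (L l42 (T t727 N))))) (K a14 (M a50 (F (L l75 (T t410 (L l26 (L l54 (L l60 (T t69 (L l18 (L l26 (L l29 (L l60 (L l75 (T t402 N)))))))))))))) N))))))))))) (K a42 (M a89 (L l54 (F (T t3370 (T t863 (L l26 (T t864 (K a10 (M a58 (F (T t4333 (L l318 (T t8353 N))))) (K a58 (M a10 (F (T t3449 (L l26 (L l28 (T t1374 N)))))) N))))))))) (K a46 (M a60 (F (T t3918 (L l26 (L l54 (T t43 (L l18 (L l23 (T t399 N))))))))) (K a51 (M a44 (F (T t3155 (L l57 (T t683 (L l18 (L l75 (T t3157 N)))))))) N)))))))))))))))))))⟩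
def e0_63__64_12 : Ent 4 := ⟨[a0, a63], [a64, a27], (M a60 (F (T t68 (L l55 (T t67 (L l17 (T t43 (T t69 (K a20 (M a48 (F (T t138 (L l11 (L l14 (T t48 (L l11 (T t235 N)))))))) (K a40 (M a48 (F (T t48 (T t236 (L l52 (T t235 N)))))) (K a21 (M a105 (F (T t1217 (L l11 (T t404 (L l11 (T t405 N))))))) (K a41 (M a32 (F (T t1568 (L l65 (L l73 (T t219 (L l25 (L l65 (T t1569 N))))))))) (K a61 (M a32 (F (T t1573 (L l65 (L l73 (T t219 (L l65 (T t1569 N)))))))) (K a22 (M a48 (F (T t247 (L l66 (L l73 (T t2 (L l73 (T t64 N)))))))) (K a42 (M a105 (F (T t1129 (L l66 (L l140 (T t1128 (L l66 (T t405 N)))))))) (K a62 (M a32 (F (T t1573 (L l73 (T t219 (L l60 (T t1569 N))))))) (K a3 (M a32 (F (T t820 (L l9 (T t1573 (T t1569 N)))))) N)))))))))))))))))⟩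
def e0_63__64_13 : Ent 4 := ⟨[a0, a63], [a64, a31], (M a60 (F (T t69 (L l18 (T t67 (L l17 (T t43 (L l18 (T t68 (K a20 (M a48 (F (T t64 (L l11 (L l18 (T t1 (L l11 (L l18 (T t235 N))))))))) (K a40 (M a48 (F (L l18 (T t1 (T t64 (L l18 (L l52 (T t235 N)))))))) (K a21 (M a48 (L l18 (F (T t70 (L l13 (T t248 (L l11 (L l47 (L l65 (T t249 (L l13 (L l50 (T t250 (K a16 (M a26 (F (L l47 (T t251 (L l11 (T t252 (L l50 (T t451 N)))))))) (K a26 (Fr a16 a32 l40 (V t253)) N))))))))))))))) (K a41 (M a48 (F (T t42 (L l22 (L l57 (T t247 (L l18 (L l65 (T t1 N))))))))) (K a61 (M a48 (F (T t247 (L l18 (L l35 (L l65 (T t1 (L l17 (T t65 N))))))))) (K a22 (M a48 (F (T t64 (L l11 (L l18 (T t1 (T t247 N))))))) (K a42 (M a105 (F (T t1129 (L l66 (L l140 (T t1128 (L l66 (T t405 N)))))))) (K a62 (M a48 (F (T t247 (L l18 (T t1 (L l17 (L l36 (L l66 (T t65 N))))))))) (K a3 (M a48 (F (T t3235 (L l7 (L l18 (T t1 (L l43 (T t64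 N)))))))) N))))))))))))))))))⟩
def e0_63__64_14 : Ent 4 := ⟨[a0, a63], [a64, a43], (M a48 (F (T t1 (L l22 (T t2 (L l27 (T t3 (L l22 (T t0 (K a16 (M a60 (F (T t64 (L l22 (T t69 (L l22 (T t268 N))))))) (K a32 (M a60 (F (T t64 (L l22 (L l28 (T t69 (L l22 (L l28 (T t268 N))))))))) (K a21 (M a101 (F (T t312 (L l116 (T t313 (L l18 (T t314 N))))))) (K a37 (M a52 (F (T t83 (L l22 (T t82 (L l21 (L l22 (L l28 (T t84 N))))))))) (K a53 (M a12 (F (T t443 (L l47 (T t122 (L l27 (L l47 (T t146 N)))))))) (K a26 (M a56 (F (T t133 (L l55 (T t134 (L l12 (L l18 (L l22 (T t135 N))))))))) (K a42 (M a101 (L l22 (F (T t333 (T t334 (L l54 (T t314 (K a40 (M a41 (F (T t333 (T t334 (L l54 (T t314 N)))))) (K a41 (M a40 (F (T t333 (L l29 (L l56 (T t8354 N)))))) N))))))))) (K a58 (M a12 (F (T t122 (T t443 (L l27 (T t146 N)))))) (K a15 (M a52 (F (T t491 (L l3 (L l22 (T t82 (L l22 (T t84 N)))))))) N))))))))))))))))))⟩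
def e0_63__64_15 : Ent 4 := ⟨[a0, a63], [a64, a47], (M a60 (F (T t68 (L l27 (T t67 (L l28 (T t43 (L l28 (T t69 (K a20 (M a48 (F (L l28 (T t2 (T t64 (L l28 (L l46 (T t287 N)))))))) (K a40 (M a48 (F (T t64 (L l22 (L l28 (T t2 (L l22 (L l28 (T t287 N))))))))) (K a21 (M a105 (F (T t1217 (L l11 (T t404 (L l11 (T t405 N))))))) (K a41 (M a48 (F (T t42 (L l22 (L l28 (T t2 (L l22 (L l57 (T t247 N))))))))) (K a61 (M a48 (F (T t247 (L l28 (T t2 (L l27 (L l35 (L l65 (T t44 N))))))))) (K a22 (M a48 (F (T t64 (T t247 (L l28 (L l66 (T t2 N))))))) (K a42 (M a48 (L l28 (F (T t64 (L l22 (T t247 (L l23 (L l56 (T t288 (L l22 (L l54 (L l66 (T t289 (K a32 (M a37 (F (L l54 (T t290 (L l66 (T t291 (L l56 (T t42 N)))))))) (K a37 (Fr a32 a16 l40 (V t292)) N))))))))))))))) (K a62 (M a48 (F (T t247 (L l28 (L l36 (L l66 (T t2 (L l27 (T t44 N))))))))) (K a3 (M a48 (F (T t1308 (L l7 (L l28 (T t2 (L l43 (T t64 N)))))))) N))))))))))))))))))⟩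
def e0_63__64_16 : Ent 4 := ⟨[a0, a63], [a64, a65], (M a48 (L l76 (F (T t1 (T t2 (T t3 (T t0 (K a16 (M a106 (L l76 (F (T t304 (L l18 (T t305 (L l18 (T t306 (K a66 (M a67 (F (T t304 (L l18 (L l309 (T t305 (L l18 (T t306 N)))))))) (K a67 (M a66 (F (T t307 (L l18 (T t308 N))))) N)))))))))) (K a32 (M a106 (L l76 (F (T t309 (L l141 (T t310 (T t306 (K a66 (M a67 (F (T t304 (L l141 (L l309 (T t311 (T t306 N))))))) (K a67 (M a66 (F (T t307 (T t308 N)))) N))))))))) (K a21 (M a101 (L l76 (F (T t312 (L l116 (T t313 (L l18 (T t314 (K a66 (M a67 (F (T t312 (L l309 (T t315 (L l18 (T t314 N))))))) (K a67 (M a66 (F (T t312 (T t315 (L l18 (T t314 N)))))) N)))))))))) (K a37 (M a170 (L l76 (F (T t316 (L l47 (T t317 (L l47 (T t318 (K a66 (M a67 (F (T t319 (L l47 (L l141 (L l144 (L l309 (T t320 (L l309 (T t321 N)))))))))) (K a67 (M a66 (F (T t319 (L l47 (T t322 N))))) N)))))))))) (K a53 (M a170 (L l76 (F (T t323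 (L l47 (T t317 (L l47 (L l116 (T t324 (K a66 (M a67 (F (T t325 (L l47 (L l141 (L l144 (L l309 (T t320 (L l47 (L l116 (T t324 N))))))))))) (K a67 (M a66 (F (T t325 (L l47 (T t322 N))))) N))))))))))) (K a26 (M a154 (L l76 (F (T t326 (T t327 (L l18 (T t328 (K a66 (M a67 (F (T t329 (T t330 (L l54 (T t331 N)))))) (K a67 (M a66 (F (T t329 (T t332 N)))) N))))))))) (K a42 (M a101 (L l76 (F (T t333 (T t334 (L l54 (T t314 (K a66 (M a67 (F (T t335 (T t336 (L l54 (T t314 N)))))) (K a67 (M a66 (F (T t335 (T t336 (L l54 (T t314 N)))))) N))))))))) (K a58 (M a170 (L l76 (F (T t316 (T t317 (L l116 (T t324 (K a66 (M a67 (F (T t337 (L l141 (L l144 (L l309 (T t320 (L l116 (T t324 N))))))))) (K a67 (M a66 (F (T t337 (T t322 N)))) N))))))))) (K a15 (M a2 (L l76 (F (L l305 (T t338 (L l73 (L l305 (T t339 (T t340 (K a66 (M a67 (F (L l305 (T t341 (L l73 (L l305 (T t339 (T t340 N)))))))) (K a67 (M a66 (F (L l305 (T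 t342 (T t343 N))))) N))))))))))) (K a66 (M a67 (F (T t1 (T t2 (T t3 (T t0 (K a16 (M a3 (F (T t344 (L l10 (T t345 N))))) (K a32 (M a3 (F (T t344 (L l28 (T t345 N))))) (K a21 (M a112 (F (L l144 (T t346 (L l18 (L l118 (L l306 (T t347 N)))))))) (K a37 (M a112 (F (L l144 (T t346 (L l118 (L l306 (T t347 N))))))) (K a53 (M a3 (F (T t348 (L l144 (T t349 N))))) (K a26 (M a112 (F (T t350 (L l18 (L l118 (L l306 (T t347 N))))))) (K a42 (M a112 (F (T t350 (L l118 (L l306 (T t347 N)))))) (K a58 (M a3 (F (T t348 (L l144 (T t349 N))))) (K a15 (M a112 (F (T t350 (L l118 (L l306 (L l337 (T t347 N))))))) N))))))))))))))) (K a67 (M a66 (F (T t1 (T t2 (T t3 (T t0 (K a16 (M a192 (F (T t20 (L l305 (T t8355 N))))) (K a32 (M a192 (F (T t225 (L l28 (L l305 (T t8355 N)))))) (K a21 (M a192 (F (L l144 (T t206 (L l305 (T t8356 N)))))) (K a37 (M a192 (F (T t225 (L l25 (L l28 (L l305 (T t8356 N))))))) (K a53 (M a2 (F (L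 l305 (T t339 (L l47 (T t343 N)))))) (K a26 (M a192 (F (T t225 (L l305 (T t8356 N))))) (K a42 (M a192 (F (T t225 (L l28 (L l305 (T t8356 N)))))) (K a58 (M a2 (F (L l305 (T t342 (T t343 N))))) (K a15 (M a192 (F (T t56 (L l73 (L l305 (T t8356 N)))))) N))))))))))))))) N))))))))))))))))))⟩
def e0_63__64_17 : Ent 4 := ⟨[a0, a63], [a64, a66], (M a48 (L l76 (F (T t1 (T t2 (T t3 (T t0 (K a16 (M a60 (L l76 (F (T t64 (L l14 (L l18 (L l309 (T t67 (T t65 (K a65 (M a67 (F (T t70 (L l305 (L l309 (T t69 (L l14 (L l18 (T t44 N))))))))) (K a67 (M a65 (F (T t70 (L l306 (T t686 N))))) N))))))))))) (K a32 (M a60 (L l76 (F (T t64 (L l309 (T t67 (L l24 (L l28 (T t65 (K a65 (M a67 (F (T t70 (L l28 (L l305 (L l309 (T t69 (T t44 N)))))))) (K a67 (M a65 (F (T t70 (L l306 (T t686 N))))) N))))))))))) (K a21 (M a101 (L l76 (F (T t687 (L l18 (T t334 (L l18 (T t314 (K a65 (M a67 (F (T t312 (L l309 (T t315 (L l18 (T t314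 N))))))) (K a67 (M a65 (F (T t687 (L l306 (T t688 N))))) N)))))))))) (K a37 (M a52 (L l76 (F (T t82 (T t83 (L l21 (L l28 (T t84 (K a65 (M a67 (F (T t83 (T t82 (L l21 (L l28 (T t84 N))))))) (K a67 (M a65 (F (T t83 (L l306 (T t688 N))))) N)))))))))) (K a53 (M a12 (L l76 (F (T t151 (T t443 (L l47 (T t146 (K a65 (M a67 (F (T t151 (T t445 (L l47 (T t146 N)))))) (K a67 (M a65 (F (T t151 (L l306 (T t688 N))))) N))))))))) (K a26 (M a56 (L l76 (F (T t133 (T t134 (L l12 (L l18 (T t135 (K a65 (M a67 (F (T t134 (T t133 (L l12 (L l18 (T t135 N))))))) (K a67 (M a65 (F (T t134 (L l306 (T t688 N))))) N)))))))))) (K a42 (M a101 (L l76 (F (T t333 (T t334 (L l54 (T t314 (K a65 (M a67 (F (T t335 (T t336 (L l54 (T t314 N)))))) (K a67 (M a65 (F (T t336 (L l306 (T t688 N))))) N))))))))) (K a58 (M a12 (L l76 (F (T t443 (T t122 (T t146 (K a65 (M a67 (F (T t445 (T t122 (T t146 N))))) (K a67 (M a65 (F (T t122 (L l306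 (T t688 N))))) N)))))))) (K a15 (M a4 (L l76 (F (T t129 (L l63 (T t528 (T t520 (K a65 (M a67 (F (T t558 (L l73 (T t519 (T t520 N)))))) (K a67 (M a65 (F (T t129 (L l306 (L l481 (T t688 N)))))) N))))))))) (K a65 (M a67 (F (T t1 (T t2 (T t3 (T t0 (K a16 (M a3 (F (T t344 (L l10 (T t345 N))))) (K a32 (M a3 (F (T t344 (L l28 (T t345 N))))) (K a21 (M a112 (F (L l144 (T t346 (L l18 (L l118 (L l306 (T t347 N)))))))) (K a37 (M a112 (F (L l144 (T t346 (L l118 (L l306 (T t347 N))))))) (K a53 (M a3 (F (T t348 (L l144 (T t349 N))))) (K a26 (M a112 (F (T t350 (L l18 (L l118 (L l306 (T t347 N))))))) (K a42 (M a112 (F (T t350 (L l118 (L l306 (T t347 N)))))) (K a58 (M a3 (F (T t348 (L l144 (T t349 N))))) (K a15 (M a112 (F (T t350 (L l118 (L l306 (L l337 (T t347 N))))))) N))))))))))))))) (K a67 (M a65 (F (T t1 (L l306 (T t688 (L l306 (T t689 (K a32 (M a8 (F (L l306 (T t690 (T t691 N))))) N)))))))) N))))))))))))))))))⟩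
def e0_63__64_18 : Ent 4 := ⟨[a0, a63], [a64, a67], (M a48 (L l76 (F (T t1 (T t2 (T t3 (T t0 (K a16 (M a106 (L l76 (F (T t304 (L l18 (T t305 (L l18 (T t306 (K a65 (M a66 (F (T t307 (L l18 (T t308 N))))) (K a66 (M a65 (F (T t304 (L l18 (L l140 (L l306 (T t1003 N))))))) N)))))))))) (K a32 (M a106 (L l76 (F (T t309 (L l143 (T t310 (T t306 (K a65 (M a66 (F (T t307 (T t308 N)))) (K a66 (M a65 (F (T t578 (L l140 (L l306 (T t1003 N)))))) N))))))))) (K a21 (M a101 (L l76 (F (T t312 (L l116 (T t313 (L l18 (T t314 (K a65 (M a66 (F (T t312 (T t315 (L l18 (T t314 N)))))) (K a66 (M a65 (F (T t687 (L l306 (T t688 N))))) N)))))))))) (K a37 (M a170 (L l76 (F (T t316 (L l47 (T t317 (L l47 (T t318 (K a65 (M a66 (F (T t319 (L l47 (T t322 N))))) (K a66 (M a65 (F (T t1004 (L l309 (T t321 N))))) N)))))))))) (K a53 (M a170 (L l76 (F (T t323 (L l47 (T t317 (L l47 (L l116 (T t324 (K a65 (M a66 (F (T t325 (L l47 (T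 t322 N))))) (K a66 (M a65 (F (T t1004 (L l47 (L l116 (T t324 N)))))) N))))))))))) (K a26 (M a154 (L l76 (F (T t326 (T t327 (L l18 (T t328 (K a65 (M a66 (F (T t329 (T t332 N)))) (K a66 (M a65 (F (T t330 (L l306 (T t688 N))))) N))))))))) (K a42 (M a101 (L l76 (F (T t333 (T t334 (L l54 (T t314 (K a65 (M a66 (F (T t335 (T t336 (L l54 (T t314 N)))))) (K a66 (M a65 (F (T t336 (L l306 (T t688 N))))) N))))))))) (K a58 (M a170 (L l76 (F (T t316 (T t317 (L l116 (T t324 (K a65 (M a66 (F (T t337 (T t322 N)))) (K a66 (M a65 (F (T t1004 (L l116 (T t324 N))))) N))))))))) (K a15 (M a2 (L l76 (F (T t338 (L l73 (T t339 (T t340 (K a65 (M a66 (F (L l305 (T t342 (T t343 N))))) (K a66 (M a65 (F (T t1005 (L l63 (T t824 N))))) N))))))))) (K a65 (M a66 (F (T t1 (T t2 (T t3 (T t0 (K a16 (M a192 (F (T t20 (L l305 (T t8355 N))))) (K a32 (M a192 (F (T t225 (L l28 (L l305 (T t8355 N)))))) (K a21 (M a192 (F (L l144 (T t206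 (L l305 (T t8356 N)))))) (K a37 (M a192 (F (T t225 (L l25 (L l28 (L l305 (T t8356 N))))))) (K a53 (M a2 (F (L l305 (T t339 (L l47 (T t343 N)))))) (K a26 (M a192 (F (T t225 (L l305 (T t8356 N))))) (K a42 (M a192 (F (T t225 (L l28 (L l305 (T t8356 N)))))) (K a58 (M a2 (F (L l305 (T t342 (T t343 N))))) (K a15 (M a192 (F (T t56 (L l73 (L l305 (T t8356 N)))))) N))))))))))))))) (K a66 (M a65 (F (T t1 (L l306 (T t688 (L l306 (T t689 (K a32 (M a8 (F (L l306 (T t690 (T t691 N))))) N)))))))) N))))))))))))))))))⟩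
def e0_63__64_19 : Ent 4 := ⟨[a0, a63], [a64, a69], (M a60 (L l84 (F (T t67 (T t43 (T t68 (L l329 (T t69 (K a20 (M a15 (L l84 (F (T t1448 (T t716 (L l11 (L l311 (T t1449 (K a74 (M a79 (F (T t2448 (L l11 (T t732 N))))) (K a79 (M a74 (F (T t4510 (L l11 (L l311 (T t1452 N)))))) N)))))))))) (K a40 (M a15 (L l84 (F (T t1453 (L l22 (T t716 (L l311 (T t1449 (K a74 (M a79 (F (T t2448 (L l24 (T t732 N))))) (K a79 (M a74 (F (T t4510 (L l311 (T t1452 N))))) N)))))))))) (K a21 (M a105 (L l84 (F (T t1217 (L l11 (T t404 (L l11 (T t405 (K a74 (M a79 (F (T t1132 (L l140 (L l339 (T t403 (L l11 (T t405 N)))))))) (K a79 (M a74 (F (T t1454 (T t1132 (L l11 (T t405 N)))))) N)))))))))) (K a41 (M a170 (L l84 (F (T t457 (L l65 (T t317 (L l65 (T t1455 (K a74 (M a79 (F (T t1456 (L l65 (L l123 (L l144 (L l339 (T t320 (L l339 (T t1457 N)))))))))) (K a79 (M a74 (F (T t1456 (L l65 (T t1458 N))))) N)))))))))) (K a61 (M a170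 (L l84 (F (T t457 (L l65 (T t317 (L l65 (L l140 (T t458 (K a74 (M a79 (F (T t1456 (L l65 (L l123 (L l144 (L l339 (T t320 (L l65 (L l140 (T t458 N))))))))))) (K a79 (M a74 (F (T t1456 (L l65 (T t1458 N))))) N))))))))))) (K a22 (M a15 (L l84 (F (T t1448 (L l11 (L l311 (T t731 (L l16 (L l66 (T t1451 (K a74 (M a79 (F (T t1450 (L l16 (L l66 (L l318 (T t1451 N))))))) (K a79 (M a74 (F (T t1448 (L l11 (L l311 (T t1452 N)))))) N)))))))))))) (K a42 (M a105 (L l84 (F (T t404 (L l66 (L l140 (T t1128 (L l66 (T t405 (K a74 (M a79 (F (T t404 (L l336 (T t420 (L l66 (T t405 N))))))) (K a79 (M a74 (F (T t420 (T t1143 (L l66 (T t405 N)))))) N))))))))))) (K a62 (M a170 (L l84 (F (T t457 (T t317 (L l140 (T t458 (K a74 (M a79 (F (T t1459 (L l123 (L l144 (L l339 (T t320 (L l140 (T t458 N))))))))) (K a79 (M a74 (F (T t1459 (L l444 (T t1458 N))))) N))))))))) (K a3 (M a15 (L l84 (F (T t1460 (L l45 (T t716 (L l45 (L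 l311 (T t1449 (K a74 (M a79 (F (T t2448 (L l45 (T t732 N))))) (K a79 (M a74 (F (T t8357 (L l311 (T t1452 N))))) N))))))))))) (K a74 (M a79 (F (T t67 (T t43 (T t68 (L l329 (T t69 (K a20 (M a15 (F (T t2448 (L l11 (T t732 N))))) (K a40 (M a15 (F (T t2448 (L l24 (T t732 N))))) (K a21 (M a127 (F (T t1461 (T t1462 N)))) (K a41 (M a15 (F (T t1450 (L l25 (L l65 (L l311 (T t1449 N))))))) (K a61 (M a15 (F (T t723 (L l140 (T t1463 N))))) (K a22 (M a15 (F (T t1450 (L l16 (L l66 (L l318 (T t1451 N))))))) (K a42 (M a127 (F (L l123 (T t1464 (T t1462 N))))) (K a62 (M a15 (F (T t732 (L l140 (L l504 (T t1463 N)))))) (K a3 (M a16 (F (T t504 (L l9 (T t1140 (T t1141 N)))))) N)))))))))))))))) (K a79 (M a74 (F (T t67 (T t43 (T t68 (L l329 (T t69 (K a20 (M a192 (F (T t569 (L l311 (T t1360 N))))) (K a40 (M a192 (F (T t569 (L l22 (L l311 (T t1360 N)))))) (K a21 (M a150 (F (T t1436 (L l65 (T t1465 N))))) (K a41 (M a192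 (F (T t73 (L l22 (L l311 (T t1360 N)))))) (K a61 (M a170 (F (T t1456 (L l65 (T t1458 N))))) (K a22 (M a192 (F (T t569 (L l11 (L l311 (T t1466 N)))))) (K a42 (M a192 (F (T t569 (L l311 (T t1358 (L l28 (L l311 (T t1467 N)))))))) (K a62 (M a106 (F (L l311 (T t1468 (L l140 (T t566 N)))))) (K a3 (M a192 (F (T t237 (L l45 (L l311 (T t1360 N)))))) N)))))))))))))))) N)))))))))))))))))))⟩
def e0_63__64_20 : Ent 4 := ⟨[a0, a63], [a64, a70], (M a48 (F (T t1 (T t2 (T t3 (T t0 (K a16 (M a60 (F (T t64 (L l14 (L l18 (L l333 (T t67 (T t65 N)))))))) (K a32 (M a60 (F (T t64 (L l333 (T t67 (L l24 (L l28 (T t65 N)))))))) (K a21 (M a101 (F (T t312 (L l116 (T t313 (L l18 (T t314 N))))))) (K a37 (M a52 (F (T t82 (T t83 (L l21 (L l28 (T t84 N))))))) (K a53 (M a12 (F (T t151 (T t443 (L l47 (T t146 N)))))) (K a26 (M a56 (F (T t133 (T t134 (L l12 (L l18 (T t135 N))))))) (K a42 (M a101 (F (T t333 (L l330 (T t334 (L l54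 (T t314 N))))))) (K a58 (M a12 (F (T t443 (T t122 (T t146 N))))) (K a15 (M a4 (F (T t129 (L l63 (T t528 (T t520 N)))))) N)))))))))))))))⟩
def e0_63__64_21 : Ent 4 := ⟨[a0, a63], [a64, a71], (M a48 (F (T t1 (T t2 (T t3 (T t0 (K a16 (M a60 (F (T t64 (L l14 (L l18 (L l331 (T t67 (T t65 N)))))))) (K a32 (M a60 (F (T t64 (L l331 (T t67 (L l24 (L l28 (T t65 N)))))))) (K a21 (M a101 (F (T t315 (L l18 (L l331 (T t334 (L l18 (T t314 N)))))))) (K a37 (M a52 (F (T t82 (T t83 (L l21 (L l28 (T t84 N))))))) (K a53 (M a12 (F (T t151 (T t443 (L l47 (T t146 N)))))) (K a26 (M a56 (F (T t133 (T t134 (L l12 (L l18 (T t135 N))))))) (K a42 (M a101 (F (T t335 (L l54 (L l116 (T t313 (L l54 (T t314 N)))))))) (K a58 (M a12 (F (T t443 (T t122 (T t146 N))))) (K a15 (M a85 (F (T t567 (T t568 N)))) N)))))))))))))))⟩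
def e0_63__64_22 : Ent 4 := ⟨[a0, a63], [a64, a74], (M a60 (L l84 (F (T t67 (T t43 (T t68 (T t69 (K a20 (M a48 (L l84 (F (T t64 (L l11 (L l318 (L l339 (T t1 (L l11 (T t235 (K a69 (M a79 (F (T t451 (L l311 (L l339 (T t2 (L l11 (T t235 N)))))))) (K a79 (M a69 (F (T t451 (L l318 (T t446 N))))) N)))))))))))) (K a40 (M a48 (L l84 (F (T t64 (L l318 (L l339 (T t1 (L l52 (T t235 (K a69 (M a79 (F (T t70 (L l22 (L l311 (L l339 (T t2 (L l52 (T t235 N))))))))) (K a79 (M a69 (F (T t70 (L l318 (T t446 N))))) N))))))))))) (K a21 (M a105 (L l84 (F (T t1132 (L l140 (L l339 (T t1128 (L l11 (T t405 (K a69 (M a79 (F (T t1132 (L l140 (L l339 (T t403 (L l11 (T t405 N)))))))) (K a79 (M a69 (F (T t1454 (L l11 (L l318 (T t2445 N)))))) N))))))))))) (K a41 (M a32 (L l84 (F (T t1568 (L l65 (L l339 (T t219 (L l25 (L l65 (T t1569 (K a69 (M a79 (F (T t1568 (L l65 (L l339 (T t219 (L l25 (L l65 (T t1569 N))))))))) (K a79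 (M a69 (F (T t1568 (L l318 (T t455 N))))) N)))))))))))) (K a61 (M a32 (L l84 (F (T t1573 (L l65 (L l339 (T t219 (L l65 (T t1569 (K a69 (M a79 (F (T t1573 (L l65 (L l339 (T t219 (L l65 (T t1569 N)))))))) (K a79 (M a69 (F (L l318 (T t8358 (L l65 (T t1569 N)))))) N))))))))))) (K a22 (M a16 (L l84 (F (T t2447 (L l66 (L l339 (T t97 (L l16 (L l66 (T t1141 (K a69 (M a79 (F (L l19 (T t1140 (L l66 (L l339 (T t97 (L l16 (L l66 (T t1141 N)))))))))) (K a79 (M a69 (F (T t2447 (L l137 (L l139 (L l318 (T t452 N))))))) N)))))))))))) (K a42 (M a105 (L l84 (F (T t1129 (L l66 (L l140 (L l339 (T t1128 (L l66 (T t405 (K a69 (M a79 (F (T t404 (L l336 (T t420 (L l66 (T t405 N))))))) (K a79 (M a69 (F (T t404 (L l66 (L l318 (T t455 N)))))) N)))))))))))) (K a62 (M a32 (L l84 (F (T t1573 (L l339 (T t219 (L l60 (T t1569 (K a69 (M a79 (F (T t1573 (L l339 (T t219 (L l60 (T t1569 N))))))) (K a79 (M a69 (F (L l318 (T t8358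 (L l60 (T t1569 N)))))) N)))))))))) (K a3 (M a16 (L l84 (F (T t112 (L l9 (T t1140 (T t1141 (K a69 (M a79 (F (T t504 (L l9 (T t1140 (T t1141 N)))))) (K a79 (M a69 (F (T t1574 (L l137 (L l139 (L l318 (L l333 (T t452 N)))))))) N))))))))) (K a69 (M a79 (F (T t67 (T t43 (T t68 (L l329 (T t69 (K a20 (M a15 (F (T t2448 (L l11 (T t732 N))))) (K a40 (M a15 (F (T t2448 (L l24 (T t732 N))))) (K a21 (M a127 (F (T t1461 (T t1462 N)))) (K a41 (M a15 (F (T t1450 (L l25 (L l65 (L l311 (T t1449 N))))))) (K a61 (M a15 (F (T t723 (L l140 (T t1463 N))))) (K a22 (M a15 (F (T t1450 (L l16 (L l66 (L l318 (T t1451 N))))))) (K a42 (M a127 (F (L l123 (T t1464 (T t1462 N))))) (K a62 (M a15 (F (T t732 (L l140 (L l504 (T t1463 N)))))) (K a3 (M a16 (F (T t504 (L l9 (T t1140 (T t1141 N)))))) N)))))))))))))))) (K a79 (M a69 (F (T t43 (L l137 (L l139 (L l318 (T t452 (K a61 (M a32 (F (L l318 (T t8358 (L l65 (T t1569 N))))))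 (K a62 (M a32 (F (L l318 (T t8358 (L l60 (T t1569 N)))))) N))))))))) N))))))))))))))))))⟩
def e0_63__64_23 : Ent 4 := ⟨[a0, a63], [a64, a75], (M a60 (F (T t67 (T t43 (T t68 (T t69 (K a20 (M a48 (F (T t64 (L l11 (L l337 (T t1 (L l11 (T t235 N)))))))) (K a40 (M a48 (F (T t64 (L l337 (T t1 (L l52 (T t235 N))))))) (K a21 (M a105 (F (T t1217 (L l11 (L l337 (T t404 (L l11 (T t405 N)))))))) (K a41 (M a32 (F (T t1568 (L l65 (L l337 (T t219 (L l25 (L l65 (T t1569 N))))))))) (K a61 (M a16 (F (T t1140 (L l337 (T t97 (L l59 (T t1141 N))))))) (K a22 (M a16 (F (T t2447 (L l66 (L l337 (T t97 (L l16 (L l66 (T t1141 N))))))))) (K a42 (M a105 (F (T t1129 (L l66 (L l140 (T t1128 (L l66 (T t405 N)))))))) (K a62 (M a16 (F (T t1140 (L l66 (L l337 (T t97 (L l66 (T t1141 N)))))))) (K a3 (M a85 (F (T t447 (T t115 N)))) N)))))))))))))))⟩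
def e0_63__64_24 : Ent 4 := ⟨[a0, a63], [a64, a79], (M a60 (L l84 (F (T t67 (T t43 (T t68 (T t69 (K a20 (M a106 (L l84 (F (T t2359 (L l11 (T t305 (L l11 (T t1513 (K a69 (M a74 (F (T t2915 (L l11 (T t1515 N))))) (K a74 (M a69 (F (L l336 (T t2359 (L l11 (L l116 (L l318 (T t2916 N)))))))) N)))))))))) (K a40 (M a106 (L l84 (F (T t305 (T t1512 (T t1513 (K a69 (M a74 (F (T t1514 (T t1515 N)))) (K a74 (M a69 (F (T t1514 (L l116 (L l318 (T t2916 N)))))) N)))))))) (K a21 (M a105 (L l84 (F (T t1217 (L l11 (T t404 (L l11 (T t405 (K a69 (M a74 (F (T t1454 (T t1132 (L l11 (T t405 N)))))) (K a74 (M a69 (F (T t1454 (L l11 (L l318 (T t2445 N)))))) N)))))))))) (K a41 (M a170 (L l84 (F (T t457 (L l65 (T t317 (L l65 (T t1455 (K a69 (M a74 (F (T t1456 (L l65 (T t1458 N))))) (K a74 (M a69 (F (T t2917 (L l137 (L l139 (L l318 (T t452 N))))))) N)))))))))) (K a61 (M a170 (L l84 (F (T t457 (L l65 (T t317 (L l65 (L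 l140 (T t458 (K a69 (M a74 (F (T t1456 (L l65 (T t1458 N))))) (K a74 (M a69 (F (T t460 (L l65 (L l140 (T t458 N)))))) N))))))))))) (K a22 (M a150 (L l84 (F (T t2918 (T t1135 (L l11 (T t2919 (K a69 (M a74 (F (T t1436 (T t1465 N)))) (K a74 (M a69 (F (T t1135 (L l137 (L l139 (L l318 (T t452 N))))))) N))))))))) (K a42 (M a105 (L l84 (F (T t1129 (L l66 (L l140 (T t1128 (L l66 (T t405 (K a69 (M a74 (F (T t420 (T t1143 (L l66 (T t405 N)))))) (K a74 (M a69 (F (T t404 (L l66 (L l318 (T t455 N)))))) N))))))))))) (K a62 (M a170 (L l84 (F (T t457 (T t317 (L l140 (T t458 (K a69 (M a74 (F (T t1459 (L l444 (T t1458 N))))) (K a74 (M a69 (F (T t460 (L l140 (T t458 N))))) N))))))))) (K a3 (M a150 (L l84 (F (T t1434 (L l309 (T t1136 (T t2919 (K a69 (M a74 (F (T t1434 (T t1465 N)))) (K a74 (M a69 (F (T t1434 (L l137 (L l139 (L l318 (L l333 (T t452 N)))))))) N))))))))) (K a69 (M a74 (F (T t67 (T t43 (T t68 (L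 l329 (T t69 (K a20 (M a192 (F (T t569 (L l311 (T t1360 N))))) (K a40 (M a192 (F (T t569 (L l22 (L l311 (T t1360 N)))))) (K a21 (M a150 (F (T t1436 (L l65 (T t1465 N))))) (K a41 (M a192 (F (T t73 (L l22 (L l311 (T t1360 N)))))) (K a61 (M a170 (F (T t1456 (L l65 (T t1458 N))))) (K a22 (M a192 (F (T t569 (L l11 (L l311 (T t1466 N)))))) (K a42 (M a192 (F (T t569 (L l311 (T t1358 (L l28 (L l311 (T t1467 N)))))))) (K a62 (M a106 (F (L l311 (T t1468 (L l140 (T t566 N)))))) (K a3 (M a192 (F (T t237 (L l45 (L l311 (T t1360 N)))))) N)))))))))))))))) (K a74 (M a69 (F (T t43 (L l137 (L l139 (L l318 (T t452 (K a61 (M a32 (F (L l318 (T t8358 (L l65 (T t1569 N)))))) (K a62 (M a32 (F (L l318 (T t8358 (L l60 (T t1569 N)))))) N))))))))) N))))))))))))))))))⟩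
def e0_63__64_25 : Ent 4 := ⟨[a0, a63], [a64, a85], (M a48 (L l144 (F (T t0 (L l347 (T t1 (L l455 (T t2 (L l347 (L l368 (T t3 (K a16 (M a60 (L l144 (L l368 (F (T t43 (T t64 (L l455 (T t65 (K a154 (M a223 (L l144 (F (T t42 (L l473 (T t69 (L l455 (L l498 (T t65 (K a106 (M a127 (L l498 (F (L l501 (T t42 (L l14 (T t8359 (K a202 (Fr a58 a53 l38 (V t8360)) (K a58 (M a202 (F (L l18 (L l347 (T t68 (L l123 (L l141 (L l224 (T t8361 N))))))))) N))))))))) (K a127 (M a106 (F (T t42 (L l14 (L l18 (L l140 (L l347 (L l350 (T t566 N))))))))) N))))))))))) (K a106 (M a127 (L l368 (F (L l140 (T t2970 (L l390 (L l455 (L l498 (T t65 (K a154 (M a223 (L l498 (F (L l501 (T t42 (L l14 (T t8359 (K a202 (Fr a58 a53 l38 (V t8360)) (K a58 (M a202 (F (L l18 (L l347 (T t68 (L l123 (L l141 (L l224 (T t8361 N))))))))) N))))))))) (K a223 (M a154 (F (L l116 (T t1171 (L l344 (L l350 (L l516 (T t8362 N)))))))) N))))))))))) (K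 a223 (M a154 (L l144 (F (T t43 (L l340 (T t473 (K a106 (M a127 (F (L l116 (T t1171 (L l344 (L l350 (L l516 (T t8362 N)))))))) (K a127 (M a106 (F (T t6900 (L l123 (L l137 (T t6955 N)))))) N)))))))) (K a127 (M a106 (L l368 (F (T t42 (L l14 (L l18 (L l140 (L l347 (L l350 (T t566 (K a154 (M a223 (F (T t42 (L l14 (L l18 (L l140 (L l347 (L l350 (T t566 N))))))))) (K a223 (M a154 (F (T t6900 (L l123 (L l137 (T t6955 N)))))) N)))))))))))) N)))))))))))) (K a32 (M a60 (L l144 (F (T t64 (L l347 (L l350 (T t67 (L l24 (L l28 (L l455 (T t65 (K a106 (M a127 (F (L l140 (T t2970 (L l24 (L l28 (L l390 (L l455 (L l498 (T t65 N)))))))))) (K a127 (M a106 (F (T t64 (L l140 (L l347 (L l350 (T t566 N))))))) N))))))))))))) (K a21 (M a60 (L l144 (L l347 (F (T t70 (T t248 (L l11 (L l18 (L l47 (L l65 (L l350 (L l368 (T t288 (L l50 (L l458 (T t5102 (K a149 (M a213 (L l144 (F (T t248 (T t70 (L l11 (L l18 (L l47 (L l65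 (L l350 (L l368 (L l491 (L l515 (T t288 (L l50 (L l458 (T t1300 (K a106 (M a127 (F (T t248 (L l140 (L l220 (T t2970 N)))))) (K a127 (M a106 (F (T t248 (L l47 (L l65 (L l491 (L l515 (T t8363 N)))))))) N))))))))))))))))))) (K a213 (M a149 (L l144 (F (T t248 (L l47 (L l296 (T t11 (K a106 (M a127 (F (T t248 (L l116 (T t1171 N))))) (K a127 (Fr a106 a192 l519 (V t8364)) N))))))))) (K a106 (M a127 (L l347 (F (T t248 (L l140 (T t2970 (K a149 (M a213 (F (T t248 (L l140 (L l220 (T t2970 N)))))) (K a213 (M a149 (F (T t248 (L l116 (T t1171 N))))) N)))))))) (K a127 (M a106 (L l347 (F (T t248 (L l47 (L l123 (L l137 (T t585 (K a149 (M a213 (F (T t248 (L l47 (L l65 (L l491 (L l515 (T t8363 N)))))))) (K a213 (Fr a149 a192 l519 (V t8364)) N)))))))))) N)))))))))))))))))))) (K a37 (M a106 (F (L l47 (T t309 (L l347 (L l368 (T t8365 (L l47 (L l368 (T t8366 (L l116 (T t777 (L l47 (L l116 (L l347 (L l368 (T t599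 (L l47 (L l347 (T t8367 (L l28 (L l47 (L l94 (L l116 (T t8368 N))))))))))))))))))))))))) (K a53 (M a12 (L l144 (F (T t443 (L l47 (L l347 (T t122 (L l47 (L l347 (T t146 (K a106 (M a127 (F (T t443 (L l80 (T t1168 N))))) (K a127 (M a106 (F (T t443 (L l91 (L l113 (T t2419 N)))))) N)))))))))))) (K a26 (M a106 (F (T t309 (L l18 (L l347 (L l368 (L l455 (T t8369 (L l18 (L l347 (T t306 (L l18 (L l368 (T t8366 (L l18 (L l54 (L l347 (T t8367 N)))))))))))))))))) (K a42 (M a60 (L l144 (F (T t64 (L l22 (L l458 (T t247 (L l56 (L l350 (L l368 (T t288 (L l22 (L l28 (L l54 (L l66 (L l458 (T t5102 (K a106 (M a127 (L l390 (F (L l116 (T t1171 (L l22 (L l458 (T t247 (K a170 (M a234 (F (T t64 (L l22 (L l28 (L l392 (L l404 (T t248 (L l140 (L l218 (L l220 (T t2970 N)))))))))))) (K a234 (M a170 (F (T t64 (L l250 (L l256 (L l350 (L l368 (T t8370 N)))))))) N)))))))))) (K a127 (M a106 (F (T t1512 (L l22 (L l458 (T t247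 N)))))) N))))))))))))))))))) (K a58 (M a12 (L l144 (F (T t443 (L l347 (T t122 (L l347 (T t146 (K a106 (M a127 (L l498 (F (T t1580 (L l80 (T t1168 (K a202 (M a154 (F (T t445 (L l80 (T t1168 N))))) (K a154 (M a202 (L l368 (F (T t443 (L l80 (T t1168 (K a16 (M a223 (F (L l54 (L l390 (T t153 (L l14 (T t8371 N))))))) (K a223 (Fr a16 a32 l40 (V t8372)) N)))))))) N)))))))) (K a127 (M a106 (F (T t1580 (L l91 (L l113 (T t2419 N)))))) N)))))))))) (K a15 (M a106 (F (L l325 (T t304 (L l347 (L l368 (L l455 (L l483 (T t8369 (L l347 (T t306 (L l325 (L l368 (T t8366 (L l339 (L l347 (T t8367 N))))))))))))))))) (K a106 (M a127 (F (L l347 (T t1 (L l116 (T t1171 (L l116 (L l390 (L l455 (T t8373 (K a53 (M a12 (F (T t443 (L l80 (T t1168 N))))) N))))))))))) (K a127 (M a106 (F (T t309 (L l455 (T t2 (L l116 (L l347 (L l368 (T t599 N))))))))) N))))))))))))))))))))))⟩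
def e0_63__64_26 : Ent 4 := ⟨[a0, a63], [a64, a86], (M a48 (F (T t1 (T t2 (T t3 (T t0 (K a16 (M a60 (F (T t64 (L l14 (L l18 (L l477 (T t67 (L l351 (T t65 N))))))))) (K a32 (M a60 (F (T t64 (L l477 (T t67 (L l24 (L l28 (L l351 (T t65 N))))))))) (K a21 (M a101 (F (T t687 (L l18 (T t334 (L l18 (T t314 N))))))) (K a37 (M a52 (F (T t82 (T t83 (L l21 (L l28 (T t84 N))))))) (K a53 (M a12 (F (T t151 (T t443 (L l47 (T t146 N)))))) (K a26 (M a56 (F (T t133 (T t134 (L l12 (L l18 (T t135 N))))))) (K a42 (M a101 (F (T t333 (T t334 (L l54 (T t314 N)))))) (K a58 (M a12 (F (T t443 (T t122 (T t146 N))))) (K a15 (M a4 (F (T t129 (L l63 (T t528 (T t520 N)))))) N)))))))))))))))⟩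
def e0_63__64_27 : Ent 4 := ⟨[a0, a63], [a64, a87], (M a48 (F (T t1 (T t2 (T t3 (T t0 (K a16 (M a60 (F (T t64 (L l14 (L l18 (L l475 (T t67 (L l349 (T t65 N))))))))) (K a32 (M a60 (F (T t64 (L l475 (T t67 (L l24 (L l28 (L l349 (T t65 N))))))))) (K a21 (M a101 (F (T t687 (L l18 (T t334 (L l18 (T t314 N))))))) (K a37 (M a52 (F (T t82 (T t83 (L l21 (L l28 (T t84 N))))))) (K a53 (M a12 (F (T t151 (T t443 (L l47 (T t146 N)))))) (K a26 (M a56 (F (T t133 (T t134 (L l12 (L l18 (T t135 N))))))) (K a42 (M a101 (F (T t333 (T t334 (L l54 (T t314 N)))))) (K a58 (M a12 (F (T t443 (T t122 (T t146 N))))) (K a15 (M a4 (F (T t129 (L l63 (T t528 (T t520 N)))))) N)))))))))))))))⟩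
def e0_63__64_28 : Ent 4 := ⟨[a0, a63], [a64, a90], (M a12 (F (T t122 (T t151 (T t152 (T t153 (K a4 (M a60 (F (T t43 (L l480 (L l483 (T t398 (T t448 N))))))) (K a8 (M a60 (F (T t67 (L l480 (L l483 (T t398 (L l52 (L l56 (T t448 N))))))))) (K a21 (M a89 (F (T t2786 (L l50 (T t863 (L l50 (T t864 N))))))) (K a25 (M a48 (F (T t550 (L l15 (L l462 (L l483 (T t1 (L l12 (L l56 (T t866 N)))))))))) (K a29 (M a48 (F (T t550 (L l15 (L l462 (L l483 (T t1 (T t866 N)))))))) (K a38 (M a48 (F (T t1580 (L l26 (L l483 (T t2 (L l21 (L l50 (L l357 (L l462 (T t868 N))))))))))) (K a42 (M a89 (F (T t3370 (T t863 (L l26 (T t864 N)))))) (K a46 (M a48 (F (T t443 (L l462 (L l483 (T t1 (L l26 (T t866 N)))))))) (K a51 (M a16 (F (T t112 (L l39 (T t871 (L l354 (L l372 (T t872 N)))))))) N)))))))))))))))⟩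
def e0_63__64_29 : Ent 4 := ⟨[a0, a63], [a64, a91], (M a12 (F (T t122 (T t151 (T t152 (T t153 (K a4 (M a60 (F (T t43 (L l481 (T t398 (T t448 N)))))) (K a8 (M a60 (F (T t67 (L l481 (T t398 (L l52 (L l56 (T t448 N)))))))) (K a21 (M a89 (F (T t2761 (L l80 (T t870 (L l50 (L l463 (T t864 N)))))))) (K a25 (M a48 (F (T t550 (L l15 (L l481 (T t1 (L l12 (L l56 (T t866 N))))))))) (K a29 (M a48 (F (T t550 (L l15 (L l481 (T t1 (T t866 N))))))) (K a38 (M a48 (F (T t1580 (L l26 (L l481 (T t2 (L l21 (L l50 (L l355 (T t868 N)))))))))) (K a42 (M a89 (F (T t2761 (L l26 (L l80 (T t870 (L l26 (L l463 (T t864 N))))))))) (K a46 (M a48 (F (T t443 (L l481 (T t1 (L l26 (T t866 N))))))) (K a51 (M a85 (F (T t571 (T t572 N)))) N)))))))))))))))⟩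
def e0_63__64_30 : Ent 4 := ⟨[a0, a63], [a64, a95], (M a12 (F (T t122 (T t151 (T t152 (T t153 (K a4 (M a60 (F (T t43 (L l469 (T t398 (T t448 N)))))) (K a8 (M a60 (F (T t67 (L l469 (T t398 (L l52 (L l56 (T t448 N)))))))) (K a21 (M a89 (F (T t2755 (L l80 (T t870 (L l50 (T t864 N))))))) (K a25 (M a48 (F (T t550 (L l15 (L l469 (T t1 (L l12 (L l56 (T t866 N))))))))) (K a29 (M a48 (F (T t550 (L l15 (L l469 (T t1 (T t866 N))))))) (K a38 (M a48 (F (T t1580 (L l26 (L l469 (T t2 (L l21 (L l50 (T t868 N))))))))) (K a42 (M a89 (F (T t3370 (T t863 (L l26 (T t864 N)))))) (K a46 (M a48 (F (T t443 (L l469 (T t1 (L l26 (T t866 N))))))) (K a51 (M a16 (F (T t112 (L l39 (T t871 (T t872 N)))))) N)))))))))))))))⟩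
def e0_63__64_31 : Ent 4 := ⟨[a0, a63], [a64, a106], (M a48 (L l144 (F (T t1 (L l390 (L l498 (T t2 (L l411 (T t3 (L l390 (T t0 (K a16 (M a60 (L l144 (F (T t64 (L l14 (L l18 (L l393 (T t67 (L l390 (L l498 (T t65 (K a85 (M a127 (L l368 (F (L l140 (T t2970 (L l390 (L l455 (L l498 (T t65 (K a154 (M a223 (L l498 (F (L l501 (T t42 (L l14 (T t8359 (K a202 (Fr a58 a53 l38 (V t8360)) (K a58 (M a202 (F (L l18 (L l347 (T t68 (L l123 (L l141 (L l224 (T t8361 N))))))))) N))))))))) (K a223 (M a154 (F (L l116 (T t1171 (L l344 (L l350 (L l516 (T t8362 N)))))))) N))))))))))) (K a127 (M a85 (F (T t64 (L l76 (L l390 (T t3040 N)))))) N))))))))))))) (K a32 (M a60 (L l144 (F (T t64 (L l393 (T t67 (L l24 (L l28 (L l390 (L l498 (T t65 (K a85 (M a127 (F (L l140 (T t2970 (L l24 (L l28 (L l390 (L l455 (L l498 (T t65 N)))))))))) (K a127 (M a85 (F (T t64 (L l76 (L l390 (L l404 (T t3040 N))))))) N))))))))))))) (K a21 (M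 a60 (L l144 (F (T t248 (L l47 (L l65 (T t64 (L l11 (L l18 (L l47 (L l65 (T t288 (L l50 (L l498 (L l516 (T t250 (K a85 (M a127 (L l347 (F (T t248 (L l140 (T t2970 (K a149 (M a213 (F (T t248 (L l140 (L l220 (T t2970 N)))))) (K a213 (M a149 (F (T t248 (L l116 (T t1171 N))))) N)))))))) (K a127 (M a85 (F (T t99 (L l47 (L l65 (T t64 N)))))) N)))))))))))))))))) (K a37 (M a85 (F (T t364 (L l390 (T t50 (L l28 (L l498 (T t8374 (L l28 (L l390 (L l498 (T t51 N)))))))))))) (K a53 (M a12 (L l144 (F (T t443 (L l47 (T t122 (L l47 (T t146 (K a85 (M a127 (F (T t443 (L l80 (T t1168 N))))) (K a127 (M a85 (F (T t443 (L l138 (L l390 (L l408 (T t154 N))))))) N)))))))))) (K a26 (M a85 (F (T t99 (L l390 (T t50 (L l54 (L l390 (T t568 (L l54 (L l498 (T t8374 N))))))))))) (K a42 (M a60 (L l144 (L l390 (F (T t880 (T t64 (L l56 (T t8375 (L l22 (L l28 (L l54 (L l66 (L l498 (L l516 (T t250 (K a85 (M a127 (L l390 (F (L l116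 (T t1171 (L l22 (L l458 (T t247 (K a170 (M a234 (F (T t64 (L l22 (L l28 (L l392 (L l404 (T t248 (L l140 (L l218 (L l220 (T t2970 N)))))))))))) (K a234 (M a170 (F (T t64 (L l250 (L l256 (L l350 (L l368 (T t8370 N)))))))) N)))))))))) (K a170 (M a234 (L l144 (F (T t880 (L l54 (L l498 (T t451 (L l56 (L l464 (T t8375 (L l22 (L l28 (L l54 (L l66 (L l392 (L l404 (L l498 (L l516 (T t250 (K a85 (M a127 (F (T t64 (L l22 (L l28 (L l392 (L l404 (T t248 (L l140 (L l218 (L l220 (T t2970 N)))))))))))) (K a127 (M a85 (F (T t64 (L l22 (L l28 (L l392 (L l404 (T t8376 N)))))))) N))))))))))))))))))))) (K a234 (M a170 (L l144 (F (T t64 (L l28 (L l296 (T t323 (K a85 (M a127 (F (T t64 (L l250 (L l256 (L l350 (L l368 (T t8370 N)))))))) (K a127 (Fr a85 a255 l476 (V t8377)) N))))))))) (K a127 (M a85 (L l390 (F (T t64 (L l28 (L l84 (L l104 (T t509 (K a170 (M a234 (F (T t64 (L l22 (L l28 (L l392 (L l404 (T t8376 N))))))))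 (K a234 (Fr a170 a255 l476 (V t8377)) N)))))))))) N))))))))))))))))))) (K a58 (M a12 (L l144 (L l498 (F (T t122 (T t443 (T t146 (K a85 (M a127 (L l498 (F (T t1580 (L l80 (T t1168 (K a202 (M a154 (F (T t445 (L l80 (T t1168 N))))) (K a154 (M a202 (L l368 (F (T t443 (L l80 (T t1168 (K a16 (M a223 (F (L l54 (L l390 (T t153 (L l14 (T t8371 N))))))) (K a223 (Fr a16 a32 l40 (V t8372)) N)))))))) N)))))))) (K a202 (M a154 (L l144 (F (T t3386 (L l54 (L l390 (T t153 (K a85 (M a127 (F (T t445 (L l80 (T t1168 N))))) (K a127 (M a85 (F (T t8378 (L l84 (L l236 (T t3551 N)))))) N))))))))) (K a154 (M a202 (L l144 (F (T t122 (L l356 (L l368 (T t445 (L l356 (T t146 (K a85 (M a127 (L l368 (F (T t443 (L l80 (T t1168 (K a16 (M a223 (F (L l54 (L l390 (T t153 (L l14 (T t8371 N))))))) (K a223 (Fr a16 a32 l40 (V t8372)) N)))))))) (K a127 (M a85 (F (T t443 (L l54 (L l138 (L l390 (L l408 (T t154 N)))))))) N)))))))))))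 (K a127 (M a85 (L l498 (F (T t443 (L l54 (L l138 (L l390 (L l408 (T t154 (K a202 (M a154 (F (T t8378 (L l84 (L l236 (T t3551 N)))))) (K a154 (M a202 (F (T t443 (L l54 (L l138 (L l390 (L l408 (T t154 N)))))))) N))))))))))) N))))))))))) (K a15 (M a85 (F (L l469 (T t99 (L l390 (L l483 (T t50 (L l390 (L l498 (T t51 (L l325 (L l498 (T t8374 N))))))))))))) (K a85 (M a127 (F (L l347 (T t1 (L l116 (T t1171 (L l116 (L l390 (L l455 (T t8373 (K a53 (M a12 (F (T t443 (L l80 (T t1168 N))))) N))))))))))) (K a127 (M a85 (F (T t1 (L l84 (L l104 (T t509 (L l114 (L l390 (L l498 (T t51 N)))))))))) N))))))))))))))))))))))⟩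
def e0_63__64_32 : Ent 4 := ⟨[a0, a63], [a64, a107], (M a48 (F (T t1 (T t2 (L l409 (T t3 (T t0 (K a16 (M a60 (F (T t43 (T t64 (T t65 N))))) (K a32 (M a60 (F (T t64 (L l391 (T t67 (L l24 (L l28 (T t65 N)))))))) (K a21 (M a101 (F (T t687 (L l18 (T t334 (L l18 (T t314 N))))))) (K a37 (M a52 (F (T t82 (T t83 (L l21 (L l28 (T t84 N))))))) (K a53 (M a12 (F (T t151 (T t443 (L l47 (T t146 N)))))) (K a26 (M a56 (F (T t133 (L l499 (T t134 (L l12 (L l18 (T t135 N)))))))) (K a42 (M a101 (F (T t335 (L l54 (L l116 (T t313 (L l54 (T t314 N)))))))) (K a58 (M a12 (F (T t443 (T t122 (T t146 N))))) (K a15 (M a4 (F (T t129 (L l63 (T t528 (T t520 N)))))) N))))))))))))))))⟩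
def e0_63__64_33 : Ent 4 := ⟨[a0, a63], [a64, a111], (M a48 (F (T t1 (T t2 (L l397 (T t3 (T t0 (K a16 (M a60 (F (T t43 (T t64 (T t65 N))))) (K a32 (M a60 (F (T t67 (T t64 (L l24 (L l28 (T t65 N))))))) (K a21 (M a101 (F (T t687 (L l18 (L l397 (T t334 (L l18 (L l397 (T t314 N))))))))) (K a37 (M a52 (F (T t82 (T t83 (L l21 (L l28 (T t84 N))))))) (K a53 (M a12 (F (T t151 (T t443 (L l47 (T t146 N)))))) (K a26 (M a56 (F (T t133 (T t134 (L l12 (L l18 (T t135 N))))))) (K a42 (M a101 (F (T t2181 (L l54 (T t687 (L l54 (L l397 (T t314 N)))))))) (K a58 (M a12 (F (T t443 (T t122 (T t146 N))))) (K a15 (M a4 (F (T t129 (L l63 (T t528 (T t520 N)))))) N))))))))))))))))⟩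
def e0_63__64_34 : Ent 4 := ⟨[a0, a63], [a64, a127], (M a48 (L l144 (F (T t1 (T t2 (T t3 (T t0 (K a16 (M a60 (L l144 (F (T t43 (T t64 (T t65 (K a85 (M a106 (L l368 (F (T t42 (L l14 (L l18 (L l140 (L l347 (L l350 (T t566 (K a154 (M a223 (F (T t42 (L l14 (L l18 (L l140 (L l347 (L l350 (T t566 N))))))))) (K a223 (M a154 (F (T t6900 (L l123 (L l137 (T t6955 N)))))) N)))))))))))) (K a106 (M a85 (F (T t64 (L l76 (L l390 (T t3040 N)))))) N)))))))) (K a32 (M a60 (L l144 (F (T t67 (T t64 (L l24 (L l28 (T t65 (K a85 (M a106 (F (T t64 (L l140 (L l347 (L l350 (T t566 N))))))) (K a106 (M a85 (F (T t64 (L l76 (L l390 (L l404 (T t3040 N))))))) N)))))))))) (K a21 (M a60 (L l144 (F (T t70 (T t248 (L l11 (L l18 (L l47 (L l65 (T t288 (L l50 (T t250 (K a85 (M a106 (L l347 (F (T t248 (L l47 (L l123 (L l137 (T t585 (K a149 (M a213 (F (T t248 (L l47 (L l65 (L l491 (L l515 (T t8363 N)))))))) (K a213 (Fr a149 a192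 l519 (V t8364)) N)))))))))) (K a106 (M a85 (F (T t99 (L l47 (L l65 (T t64 N)))))) N)))))))))))))) (K a37 (M a85 (F (T t365 (L l28 (L l47 (T t1199 (L l28 (L l84 (T t8379 (L l84 (T t8380 N))))))))))) (K a53 (M a12 (L l144 (F (T t151 (T t443 (L l47 (T t146 (K a85 (M a106 (F (T t443 (L l91 (L l113 (T t2419 N)))))) (K a106 (M a85 (F (T t443 (L l138 (L l390 (L l408 (T t154 N))))))) N))))))))) (K a26 (M a85 (F (T t99 (L l54 (T t1194 (L l54 (L l84 (T t8381 (L l18 (L l54 (T t8382 N))))))))))) (K a42 (M a60 (L l144 (F (T t880 (T t64 (L l56 (T t288 (L l22 (L l28 (L l54 (L l66 (T t250 (K a85 (M a106 (F (T t1512 (L l22 (L l458 (T t247 N)))))) (K a106 (M a85 (L l390 (F (T t64 (L l28 (L l84 (L l104 (T t509 (K a170 (M a234 (F (T t64 (L l22 (L l28 (L l392 (L l404 (T t8376 N)))))))) (K a234 (Fr a170 a255 l476 (V t8377)) N)))))))))) N)))))))))))))) (K a58 (M a12 (L l144 (F (T t443 (T t122 (T t146 (K a85 (M a106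 (F (T t1580 (L l91 (L l113 (T t2419 N)))))) (K a106 (M a85 (L l498 (F (T t443 (L l54 (L l138 (L l390 (L l408 (T t154 (K a202 (M a154 (F (T t8378 (L l84 (L l236 (T t3551 N)))))) (K a154 (M a202 (F (T t443 (L l54 (L l138 (L l390 (L l408 (T t154 N)))))))) N))))))))))) N)))))))) (K a15 (M a85 (F (T t935 (T t1194 (L l84 (T t8379 N)))))) (K a85 (M a106 (F (T t309 (L l455 (T t2 (L l116 (L l347 (L l368 (T t599 N))))))))) (K a106 (M a85 (F (T t1 (L l84 (L l104 (T t509 (L l114 (L l390 (L l498 (T t51 N)))))))))) N))))))))))))))))))⟩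
def e0_63__64_35 : Ent 4 := ⟨[a0, a63], [a64, a128], (M a48 (F (T t1 (T t2 (T t3 (T t0 (K a16 (M a60 (F (T t43 (T t64 (T t65 N))))) (K a32 (M a60 (F (T t67 (T t64 (L l24 (L l28 (T t65 N))))))) (K a21 (M a255 (F (L l220 (T t512 (T t1160 (L l18 (L l47 (L l144 (L l347 (T t8383 N)))))))))) (K a37 (M a52 (F (T t82 (T t83 (L l21 (L l28 (T t84 N))))))) (K a53 (M a12 (F (T t151 (T t443 (L l47 (T t146 N)))))) (K a26 (M a56 (F (T t133 (T t134 (L l12 (L l18 (T t135 N))))))) (K a42 (M a255 (F (T t1169 (L l144 (L l160 (T t547 (L l28 (L l54 (L l220 (L l390 (T t8384 N))))))))))) (K a58 (M a12 (F (T t443 (T t122 (T t146 N))))) (K a15 (M a4 (F (T t129 (L l63 (T t528 (T t520 N)))))) N)))))))))))))))⟩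
def e0_63__64_36 : Ent 4 := ⟨[a0, a63], [a64, a129], (M a48 (F (T t1 (T t2 (T t3 (T t0 (K a16 (M a60 (F (T t64 (L l14 (L l18 (L l309 (T t67 (T t65 N)))))))) (K a32 (M a60 (F (T t64 (L l309 (T t67 (L l24 (L l28 (T t65 N)))))))) (K a21 (M a101 (F (T t312 (L l116 (L l309 (T t313 (L l18 (L l152 (T t314 N))))))))) (K a37 (M a52 (F (T t82 (T t83 (L l21 (L l28 (T t84 N))))))) (K a53 (M a12 (F (T t151 (T t443 (L l47 (T t146 N)))))) (K a26 (M a56 (F (T t133 (T t134 (L l12 (L l18 (T t135 N))))))) (K a42 (M a101 (F (T t333 (T t334 (L l54 (L l152 (T t314 N))))))) (K a58 (M a12 (F (T t443 (T t122 (T t146 N))))) (K a15 (M a4 (F (T t129 (L l63 (T t528 (T t520 N)))))) N)))))))))))))))⟩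
def e0_63__64_37 : Ent 4 := ⟨[a0, a63], [a64, a130], (M a48 (F (T t1 (T t2 (T t3 (T t0 (K a16 (M a60 (F (T t43 (T t64 (T t65 N))))) (K a32 (M a60 (F (T t67 (T t64 (L l24 (L l28 (T t65 N))))))) (K a21 (M a101 (F (T t687 (L l18 (L l158 (T t334 (L l18 (L l152 (T t314 N))))))))) (K a37 (M a52 (F (T t82 (T t83 (L l21 (L l28 (T t84 N))))))) (K a53 (M a12 (F (T t151 (T t443 (L l47 (T t146 N)))))) (K a26 (M a56 (F (T t133 (T t134 (L l12 (L l18 (T t135 N))))))) (K a42 (M a101 (F (T t333 (L l158 (T t334 (L l54 (L l152 (T t314 N)))))))) (K a58 (M a12 (F (T t443 (T t122 (T t146 N))))) (K a15 (M a4 (F (T t129 (L l63 (T t528 (T t520 N)))))) N)))))))))))))))⟩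
def e0_63__64_38 : Ent 4 := ⟨[a0, a63], [a64, a131], (M a48 (F (T t1 (T t2 (T t3 (T t0 (K a16 (M a60 (F (T t64 (L l14 (L l18 (L l307 (T t67 (T t65 N)))))))) (K a32 (M a60 (F (T t64 (L l307 (T t67 (L l24 (L l28 (T t65 N)))))))) (K a21 (M a101 (F (T t312 (L l116 (T t313 (L l18 (L l152 (T t314 N)))))))) (K a37 (M a52 (F (T t82 (T t83 (L l21 (L l28 (T t84 N))))))) (K a53 (M a12 (F (T t151 (T t443 (L l47 (T t146 N)))))) (K a26 (M a56 (F (T t133 (T t134 (L l12 (L l18 (T t135 N))))))) (K a42 (M a101 (F (T t333 (T t334 (L l54 (L l152 (T t314 N))))))) (K a58 (M a12 (F (T t443 (T t122 (T t146 N))))) (K a15 (M a4 (F (T t129 (L l63 (T t528 (T t520 N)))))) N)))))))))))))))⟩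
def e0_63__64_39 : Ent 4 := ⟨[a0, a63], [a64, a133], (M a12 (F (T t122 (T t151 (T t152 (T t153 (K a4 (M a60 (F (T t43 (L l339 (T t398 (T t448 N)))))) (K a8 (M a60 (F (T t67 (L l339 (T t398 (L l52 (L l56 (T t448 N)))))))) (K a21 (M a89 (F (T t2755 (L l80 (L l339 (T t870 (L l50 (L l160 (T t864 N))))))))) (K a25 (M a48 (F (T t550 (L l15 (L l339 (T t1 (L l12 (L l56 (L l311 (T t866 N)))))))))) (K a29 (M a48 (F (T t550 (L l15 (L l339 (T t1 (L l311 (T t866 N)))))))) (K a38 (M a48 (F (T t1580 (L l26 (L l311 (L l339 (T t2 (L l21 (L l50 (T t868 N)))))))))) (K a42 (M a89 (F (T t3370 (T t863 (L l26 (L l160 (T t864 N))))))) (K a46 (M a48 (F (T t443 (L l339 (T t1 (L l26 (L l311 (T t866 N)))))))) (K a51 (M a16 (F (T t504 (L l39 (T t871 (T t872 N)))))) N)))))))))))))))⟩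
def e0_63__64_40 : Ent 4 := ⟨[a0, a63], [a64, a134], (M a60 (F (T t67 (T t43 (T t68 (T t69 (K a20 (M a48 (F (T t2 (T t64 (L l11 (T t235 N)))))) (K a40 (M a48 (F (T t1 (T t64 (L l52 (T t235 N)))))) (K a21 (M a105 (F (L l11 (T t1129 (L l140 (T t1128 (L l11 (T t405 N)))))))) (K a41 (M a32 (F (T t1568 (L l65 (T t219 (L l25 (L l65 (T t1569 N)))))))) (K a61 (M a16 (F (T t97 (L l338 (T t1140 (L l59 (T t1141 N))))))) (K a22 (M a16 (F (L l66 (T t97 (L l19 (L l338 (T t1140 (L l16 (L l66 (T t1141 N)))))))))) (K a42 (M a105 (F (T t1129 (L l66 (L l140 (T t1128 (L l66 (T t405 N)))))))) (K a62 (M a16 (F (T t1574 (L l66 (T t97 (L l66 (T t1141 N))))))) (K a3 (M a85 (F (T t447 (T t115 N)))) N)))))))))))))))⟩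
def e0_63__64_41 : Ent 4 := ⟨[a0, a63], [a64, a135], (M a12 (F (T t122 (T t151 (T t152 (T t153 (K a4 (M a60 (F (T t43 (L l337 (T t398 (T t448 N)))))) (K a8 (M a60 (F (T t67 (L l337 (T t398 (L l52 (L l56 (T t448 N)))))))) (K a21 (M a89 (F (T t2755 (L l80 (T t870 (L l50 (T t864 N))))))) (K a25 (M a48 (F (T t550 (L l15 (L l337 (T t1 (L l12 (L l56 (T t866 N))))))))) (K a29 (M a48 (F (T t550 (L l15 (L l337 (T t1 (T t866 N))))))) (K a38 (M a48 (F (T t1580 (L l26 (L l337 (T t2 (L l21 (L l50 (T t868 N))))))))) (K a42 (M a89 (F (T t3370 (T t863 (L l26 (T t864 N)))))) (K a46 (M a48 (F (T t443 (L l337 (T t1 (L l26 (T t866 N))))))) (K a51 (M a16 (F (T t112 (L l39 (T t871 (T t872 N)))))) N)))))))))))))))⟩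
def e0_63__64_42 : Ent 4 := ⟨[a0, a63], [a64, a138], (M a48 (F (T t2 (L l318 (T t1 (T t3 (T t0 (K a16 (M a60 (F (T t43 (T t64 (T t65 N))))) (K a32 (M a60 (F (T t64 (T t67 (L l24 (L l28 (T t65 N))))))) (K a21 (M a101 (F (T t687 (L l84 (T t2198 (L l18 (L l160 (T t314 N)))))))) (K a37 (M a52 (F (T t82 (T t83 (L l21 (L l28 (T t84 N))))))) (K a53 (M a12 (F (T t151 (T t443 (L l47 (T t146 N)))))) (K a26 (M a56 (F (T t134 (L l320 (T t133 (L l12 (L l18 (T t135 N)))))))) (K a42 (M a101 (F (L l318 (T t333 (L l28 (L l84 (T t2198 (L l54 (L l160 (T t314 N)))))))))) (K a58 (M a12 (F (T t443 (T t122 (T t146 N))))) (K a15 (M a4 (F (L l320 (T t129 (L l63 (L l320 (T t528 (T t520 N)))))))) N))))))))))))))))⟩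
def e0_63__64_43 : Ent 4 := ⟨[a0, a63], [a64, a139], (M a48 (F (T t1 (T t2 (T t3 (T t0 (K a16 (M a60 (F (T t64 (L l14 (L l18 (L l331 (T t67 (T t65 N)))))))) (K a32 (M a60 (F (T t64 (L l331 (T t67 (L l24 (L l28 (T t65 N)))))))) (K a21 (M a101 (F (L l116 (T t313 (L l18 (L l154 (L l331 (T t334 (L l18 (T t314 N)))))))))) (K a37 (M a52 (F (T t82 (T t83 (L l21 (L l28 (T t84 N))))))) (K a53 (M a12 (F (T t151 (T t443 (L l47 (T t146 N)))))) (K a26 (M a56 (F (T t133 (T t134 (L l12 (L l18 (T t135 N))))))) (K a42 (M a101 (F (T t2197 (L l54 (L l116 (T t313 (L l54 (T t314 N)))))))) (K a58 (M a12 (F (T t443 (T t122 (T t146 N))))) (K a15 (M a4 (F (T t129 (L l63 (T t528 (T t520 N)))))) N)))))))))))))))⟩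
def e0_63__64_44 : Ent 4 := ⟨[a0, a63], [a64, a143], (M a12 (F (T t122 (T t151 (T t152 (T t153 (K a4 (M a60 (F (T t43 (L l325 (T t398 (T t448 N)))))) (K a8 (M a60 (F (T t67 (L l325 (T t398 (L l52 (L l56 (T t448 N)))))))) (K a21 (M a89 (F (T t2755 (L l80 (T t870 (L l50 (L l160 (T t864 N)))))))) (K a25 (M a48 (F (T t550 (L l15 (L l325 (T t1 (L l12 (L l56 (T t866 N))))))))) (K a29 (M a48 (F (T t550 (L l15 (L l325 (T t1 (T t866 N))))))) (K a38 (M a48 (F (T t1580 (L l26 (L l325 (T t2 (L l21 (L l50 (T t868 N))))))))) (K a42 (M a89 (F (T t3370 (T t863 (L l26 (L l160 (T t864 N))))))) (K a46 (M a48 (F (T t443 (L l325 (T t1 (L l26 (T t866 N))))))) (K a51 (M a16 (F (T t112 (L l39 (T t871 (T t872 N)))))) N)))))))))))))))⟩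
def e0_63__64_45 : Ent 4 := ⟨[a0, a63], [a64, a149], (M a48 (F (T t2 (L l347 (L l491 (T t1 (L l347 (T t3 (L l375 (T t0 (K a16 (M a60 (F (T t70 (L l14 (L l18 (L l347 (T t67 (L l351 (T t65 N))))))))) (K a32 (M a60 (F (T t70 (L l347 (T t67 (L l24 (L l28 (L l351 (T t65 N))))))))) (K a21 (M a60 (L l347 (F (T t70 (T t248 (L l11 (L l18 (L l47 (L l65 (L l491 (L l515 (T t288 (L l50 (T t1300 (K a85 (M a213 (L l144 (F (T t248 (T t70 (L l11 (L l18 (L l47 (L l65 (L l350 (L l368 (L l491 (L l515 (T t288 (L l50 (L l458 (T t1300 (K a106 (M a127 (F (T t248 (L l140 (L l220 (T t2970 N)))))) (K a127 (M a106 (F (T t248 (L l47 (L l65 (L l491 (L l515 (T t8363 N)))))))) N))))))))))))))))))) (K a213 (M a85 (F (T t70 (L l18 (L l170 (L l296 (T t365 N))))))) N)))))))))))))))) (K a37 (M a52 (F (T t82 (L l495 (T t83 (L l21 (L l28 (T t84 N)))))))) (K a53 (M a12 (L l491 (F (T t151 (T t443 (L l47 (L l347 (L l371 (T t146 (K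 a197 (M a101 (F (T t151 (L l236 (T t334 N))))) (K a101 (M a197 (F (T t151 (T t445 (L l47 (L l347 (L l371 (T t146 N)))))))) N))))))))))) (K a26 (M a56 (F (T t133 (L l491 (T t134 (L l12 (L l18 (L l347 (L l491 (T t135 N)))))))))) (K a42 (M a60 (F (T t880 (L l491 (L l515 (T t64 (L l56 (L l491 (L l515 (T t288 (L l22 (L l28 (L l54 (L l66 (T t250 N))))))))))))))) (K a58 (M a12 (F (T t443 (L l347 (L l371 (T t122 (L l347 (L l371 (T t146 N))))))))) (K a15 (M a4 (F (T t129 (L l63 (T t528 (T t520 N)))))) N)))))))))))))))))))⟩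
def e0_63__64_46 : Ent 4 := ⟨[a0, a63], [a64, a150], (M a48 (F (T t1 (T t2 (T t3 (T t0 (K a16 (M a60 (F (T t43 (T t64 (T t65 N))))) (K a32 (M a60 (F (T t64 (L l350 (T t67 (L l24 (L l28 (T t65 N)))))))) (K a21 (M a101 (F (T t687 (L l18 (T t334 (L l18 (T t314 N))))))) (K a37 (M a52 (F (T t82 (T t83 (L l21 (L l28 (L l350 (L l492 (T t84 N))))))))) (K a53 (M a12 (F (T t151 (L l374 (L l518 (T t443 (L l47 (T t146 N)))))))) (K a26 (M a56 (F (L l494 (T t134 (L l350 (L l494 (T t133 (L l12 (L l18 (T t135 N)))))))))) (K a42 (M a101 (F (T t333 (T t334 (L l54 (T t314 N)))))) (K a58 (M a12 (F (T t122 (L l374 (L l518 (T t443 (T t146 N))))))) (K a15 (M a4 (F (T t129 (L l63 (L l494 (L l518 (T t528 (L l492 (T t520 N))))))))) N)))))))))))))))⟩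
def e0_63__64_47 : Ent 4 := ⟨[a0, a63], [a64, a151], (M a48 (F (T t1 (T t2 (T t3 (L l373 (T t0 (K a16 (M a60 (F (T t64 (L l14 (L l18 (T t67 (L l349 (T t65 N)))))))) (K a32 (M a60 (F (T t64 (T t67 (L l24 (L l28 (L l349 (T t65 N)))))))) (K a21 (M a101 (F (T t312 (L l116 (T t313 (L l18 (T t314 N))))))) (K a37 (M a52 (F (T t82 (L l493 (T t83 (L l21 (L l28 (T t84 N)))))))) (K a53 (M a12 (F (T t151 (T t443 (L l47 (T t146 N)))))) (K a26 (M a56 (F (T t133 (T t134 (L l12 (L l18 (T t135 N))))))) (K a42 (M a101 (F (T t333 (T t334 (L l54 (T t314 N)))))) (K a58 (M a12 (F (T t443 (T t122 (T t146 N))))) (K a15 (M a4 (F (T t129 (L l63 (T t528 (T t520 N)))))) N))))))))))))))))⟩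
def e0_63__64_48 : Ent 4 := ⟨[a0, a63], [a64, a154], (M a12 (F (T t122 (T t151 (T t152 (T t153 (K a4 (M a60 (F (T t43 (T t398 (T t448 N))))) (K a8 (M a60 (F (T t67 (T t398 (L l52 (L l56 (T t448 N))))))) (K a21 (M a89 (F (T t2786 (L l50 (T t863 (L l50 (T t864 N))))))) (K a25 (M a48 (F (L l15 (T t1 (L l19 (T t443 (L l12 (L l56 (L l356 (L l498 (T t866 N))))))))))) (K a29 (M a48 (F (L l498 (T t2 (L l500 (T t550 (L l356 (L l498 (T t866 N))))))))) (K a38 (M a48 (F (L l356 (T t1580 (L l26 (L l498 (T t2 (L l21 (L l50 (T t868 N)))))))))) (K a42 (M a89 (F (T t3370 (T t863 (L l26 (T t864 N)))))) (K a46 (M a48 (F (T t443 (T t1 (L l26 (L l356 (L l498 (T t866 N)))))))) (K a51 (M a16 (F (T t2517 (L l73 (T t97 (L l354 (L l356 (T t872 N)))))))) N)))))))))))))))⟩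
def e0_63__64_49 : Ent 4 := ⟨[a0, a63], [a64, a155], (M a48 (F (T t1 (T t2 (T t3 (T t0 (K a16 (M a60 (F (T t43 (L l511 (T t64 (T t65 N)))))) (K a32 (M a60 (F (T t67 (L l511 (T t64 (L l24 (L l28 (T t65 N)))))))) (K a21 (M a101 (F (L l116 (T t313 (L l18 (L l511 (T t334 (L l18 (T t314 N))))))))) (K a37 (M a52 (F (T t82 (L l511 (T t83 (L l21 (L l28 (T t84 N)))))))) (K a53 (M a12 (F (T t443 (L l47 (L l511 (T t122 (L l47 (T t146 N)))))))) (K a26 (M a56 (F (T t133 (L l499 (L l511 (T t134 (L l12 (L l18 (T t135 N))))))))) (K a42 (M a101 (F (T t2197 (L l54 (L l116 (T t313 (L l54 (T t314 N)))))))) (K a58 (M a12 (F (T t443 (L l511 (T t122 (T t146 N)))))) (K a15 (M a85 (F (T t567 (L l367 (T t568 N))))) N)))))))))))))))⟩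
def e0_63__64_50 : Ent 4 := ⟨[a0, a63], [a64, a159], (M a48 (F (T t1 (T t2 (T t3 (L l361 (T t0 (K a16 (M a60 (F (T t43 (T t64 (T t65 N))))) (K a32 (M a60 (F (T t67 (T t64 (L l24 (L l28 (T t65 N))))))) (K a21 (M a101 (F (L l47 (T t333 (L l18 (T t334 (L l18 (T t314 N)))))))) (K a37 (M a52 (F (T t82 (T t83 (L l21 (L l28 (T t84 N))))))) (K a53 (M a12 (F (T t151 (T t443 (L l47 (T t146 N)))))) (K a26 (M a56 (F (T t133 (T t134 (L l12 (L l18 (T t135 N))))))) (K a42 (M a101 (F (T t333 (T t334 (L l54 (T t314 N)))))) (K a58 (M a12 (F (T t443 (T t122 (T t146 N))))) (K a15 (M a4 (F (T t129 (L l63 (T t528 (T t520 N)))))) N))))))))))))))))⟩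
def e0_63__64_51 : Ent 4 := ⟨[a0, a63], [a64, a170], (M a48 (F (T t3 (L l462 (T t1 (L l390 (T t2 (L l390 (L l404 (T t0 (K a16 (M a60 (F (T t64 (L l14 (L l18 (T t67 (L l390 (L l392 (T t65 N))))))))) (K a32 (M a60 (L l404 (F (T t64 (T t67 (L l24 (L l28 (L l390 (L l392 (T t65 (K a101 (M a239 (F (T t451 (L l28 (L l390 (T t69 (L l24 (L l28 (L l390 (L l392 (T t65 N))))))))))) (K a239 (M a101 (F (T t67 (L l116 (L l376 (T t313 N)))))) N)))))))))))) (K a21 (M a60 (F (T t70 (L l392 (L l404 (T t248 (L l11 (L l18 (L l47 (L l65 (L l464 (T t8385 (L l50 (L l392 (L l404 (T t250 N)))))))))))))))) (K a37 (M a52 (F (T t83 (L l392 (T t82 (L l21 (L l28 (L l390 (T t84 N))))))))) (K a53 (M a12 (F (T t550 (L l47 (L l402 (T t122 (L l47 (L l402 (T t146 N))))))))) (K a26 (M a56 (F (T t134 (L l464 (T t133 (L l12 (L l18 (L l392 (T t135 N))))))))) (K a42 (M a60 (L l390 (F (T t64 (L l22 (L l392 (T t247 (L l56 (L l464 (T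 t8385 (L l22 (L l28 (L l54 (L l66 (L l392 (L l404 (T t250 (K a106 (M a234 (L l144 (F (T t880 (L l54 (L l498 (T t451 (L l56 (L l464 (T t8375 (L l22 (L l28 (L l54 (L l66 (L l392 (L l404 (L l498 (L l516 (T t250 (K a85 (M a127 (F (T t64 (L l22 (L l28 (L l392 (L l404 (T t248 (L l140 (L l218 (L l220 (T t2970 N)))))))))))) (K a127 (M a85 (F (T t64 (L l22 (L l28 (L l392 (L l404 (T t8376 N)))))))) N))))))))))))))))))))) (K a234 (M a106 (F (T t880 (L l54 (L l206 (L l296 (T t4540 N))))))) N))))))))))))))))))) (K a58 (M a12 (F (T t445 (L l402 (T t122 (L l402 (T t146 N))))))) (K a15 (M a4 (F (L l464 (T t518 (L l73 (L l390 (L l464 (T t519 (L l390 (T t520 N)))))))))) N)))))))))))))))))))⟩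
def e0_63__64_52 : Ent 4 := ⟨[a0, a63], [a64, a171], (M a48 (F (T t1 (T t2 (T t3 (T t0 (K a16 (M a60 (F (T t64 (L l14 (L l18 (L l391 (L l475 (T t67 (T t65 N))))))))) (K a32 (M a60 (F (T t64 (L l391 (L l475 (T t67 (L l24 (L l28 (T t65 N))))))))) (K a21 (M a101 (F (T t687 (L l18 (L l403 (T t334 (L l18 (L l403 (T t314 N))))))))) (K a37 (M a52 (F (T t82 (T t83 (L l21 (L l28 (T t84 N))))))) (K a53 (M a12 (F (T t151 (T t443 (L l47 (T t146 N)))))) (K a26 (M a56 (F (T t133 (T t134 (L l12 (L l18 (T t135 N))))))) (K a42 (M a101 (F (T t333 (L l403 (T t334 (L l54 (L l403 (T t314 N)))))))) (K a58 (M a12 (F (T t443 (T t122 (T t146 N))))) (K a15 (M a4 (F (T t129 (L l63 (T t528 (T t520 N)))))) N)))))))))))))))⟩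
def e0_63__64_53 : Ent 4 := ⟨[a0, a63], [a64, a175], (M a12 (F (T t122 (T t151 (T t152 (T t153 (K a4 (M a60 (F (T t43 (L l469 (T t398 (T t448 N)))))) (K a8 (M a60 (F (T t67 (L l469 (T t398 (L l52 (L l56 (T t448 N)))))))) (K a21 (M a89 (F (T t2786 (L l50 (T t863 (L l50 (T t864 N))))))) (K a25 (M a48 (F (T t550 (L l15 (L l469 (T t1 (L l12 (L l56 (T t866 N))))))))) (K a29 (M a48 (F (T t550 (L l15 (L l469 (T t1 (T t866 N))))))) (K a38 (M a48 (F (T t1580 (L l26 (L l469 (T t2 (L l21 (L l50 (T t868 N))))))))) (K a42 (M a89 (F (T t3370 (T t863 (L l26 (T t864 N)))))) (K a46 (M a48 (F (T t443 (L l469 (T t1 (L l26 (T t866 N))))))) (K a51 (M a16 (F (T t112 (L l39 (T t871 (T t872 N)))))) N)))))))))))))))⟩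
def e0_63__64_54 : Ent 4 := ⟨[a0, a63], [a64, a191], (M a48 (F (T t1 (T t2 (T t3 (T t0 (K a16 (M a60 (F (T t43 (T t64 (T t65 N))))) (K a32 (M a60 (F (T t67 (T t64 (L l24 (L l28 (T t65 N))))))) (K a21 (M a60 (F (T t70 (T t248 (L l11 (L l18 (L l47 (L l65 (T t288 (L l50 (T t250 N))))))))))) (K a37 (M a52 (F (T t82 (T t83 (L l21 (L l28 (T t84 N))))))) (K a53 (M a12 (F (T t151 (T t443 (L l47 (T t146 N)))))) (K a26 (M a56 (F (T t133 (T t134 (L l12 (L l18 (T t135 N))))))) (K a42 (M a60 (F (T t880 (T t64 (L l56 (T t288 (L l22 (L l28 (L l54 (L l66 (T t250 N))))))))))) (K a58 (M a12 (F (T t443 (T t122 (T t146 N))))) (K a15 (M a4 (F (T t129 (L l63 (T t528 (T t520 N)))))) N)))))))))))))))⟩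
def e0_63__64_55 : Ent 4 := ⟨[a0, a63], [a64, a192], (M a48 (F (T t48 (L l339 (T t1 (L l339 (T t2 (L l339 (T t3 (L l339 (T t0 (K a16 (M a60 (F (T t138 (L l14 (L l18 (L l309 (T t67 (T t65 N)))))))) (K a32 (M a60 (F (T t138 (L l309 (T t67 (L l24 (L l28 (T t65 N)))))))) (K a21 (M a255 (F (T t1259 (L l268 (T t1160 (L l18 (L l144 (L l236 (L l347 (T t513 N)))))))))) (K a37 (M a52 (F (T t555 (L l334 (T t82 (L l21 (L l28 (T t84 N)))))))) (K a53 (M a12 (F (T t145 (L l47 (L l489 (T t122 (L l47 (T t146 N)))))))) (K a26 (M a56 (F (T t556 (L l334 (T t133 (L l12 (L l18 (T t135 N)))))))) (K a42 (M a255 (F (L l268 (T t1169 (L l28 (L l236 (L l390 (T t512 (L l54 (L l144 (L l236 (T t513 N)))))))))))) (K a58 (M a12 (F (T t145 (L l489 (T t122 (T t146 N)))))) (K a15 (M a4 (L l339 (F (T t129 (L l63 (L l514 (T t528 (T t520 (K a133 (M a74 (F (T t558 (L l73 (L l489 (T t519 (T t520 N))))))) (K a74 (M a133 (L l84 (F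 (T t558 (L l73 (L l489 (T t519 (T t520 (K a69 (M a79 (F (T t558 (L l73 (L l489 (T t519 (T t520 N))))))) (K a79 (M a69 (L l325 (F (T t1604 (L l80 (L l82 (L l236 (T t8386 (K a143 (Fr a207 a138 l332 (V t8387)) (K a207 (M a143 (L l236 (F (T t129 (L l80 (L l82 (L l235 (L l337 (T t8388 (K a197 (M a202 (F (T t518 (L l229 (L l235 (L l321 (L l327 (T t2886 N)))))))) (K a202 (Fr a197 a5 l311 (V t2887)) N))))))))))) N)))))))))) N)))))))))) N)))))))))) N))))))))))))))))))))⟩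
def e0_63__64_56 : Ent 4 := ⟨[a0, a63], [a64, a193], (M a48 (F (T t1 (T t2 (T t3 (T t0 (K a16 (M a60 (F (T t43 (L l515 (T t64 (T t65 N)))))) (K a32 (M a60 (F (T t67 (L l515 (T t64 (L l24 (L l28 (T t65 N)))))))) (K a21 (M a101 (F (T t312 (L l116 (L l228 (L l233 (T t313 (L l18 (L l233 (T t314 N)))))))))) (K a37 (M a52 (F (T t82 (T t83 (L l21 (L l28 (T t84 N))))))) (K a53 (M a12 (F (T t151 (T t443 (L l47 (T t146 N)))))) (K a26 (M a56 (F (T t133 (T t134 (L l12 (L l18 (T t135 N))))))) (K a42 (M a101 (F (T t333 (T t334 (L l54 (L l233 (T t314 N))))))) (K a58 (M a12 (F (T t443 (T t122 (T t146 N))))) (K a15 (M a4 (F (T t129 (L l63 (T t528 (T t520 N)))))) N)))))))))))))))⟩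
def e0_63__64_57 : Ent 4 := ⟨[a0, a63], [a64, a194], (M a48 (F (T t1 (T t2 (T t3 (T t0 (K a16 (M a60 (F (T t43 (L l486 (T t64 (T t65 N)))))) (K a32 (M a60 (F (T t67 (L l486 (T t64 (L l24 (L l28 (T t65 N)))))))) (K a21 (M a101 (F (T t687 (L l18 (T t334 (L l18 (T t314 N))))))) (K a37 (M a52 (F (T t82 (T t83 (L l21 (L l28 (T t84 N))))))) (K a53 (M a12 (F (T t151 (T t443 (L l47 (T t146 N)))))) (K a26 (M a56 (F (T t133 (T t134 (L l12 (L l18 (T t135 N))))))) (K a42 (M a101 (F (T t335 (L l54 (L l116 (L l228 (T t313 (L l54 (T t314 N))))))))) (K a58 (M a12 (F (T t443 (T t122 (T t146 N))))) (K a15 (M a4 (F (T t129 (L l63 (T t528 (T t520 N)))))) N)))))))))))))))⟩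
def e0_63__64_58 : Ent 4 := ⟨[a0, a63], [a64, a195], (M a12 (F (T t150 (L l487 (T t122 (L l487 (T t151 (L l487 (T t152 (L l487 (T t153 (K a4 (M a60 (F (T t570 (L l46 (L l50 (L l307 (T t67 (T t448 N)))))))) (K a8 (M a60 (F (T t570 (L l307 (T t67 (L l52 (L l56 (T t448 N)))))))) (K a21 (M a89 (F (T t862 (L l50 (L l271 (T t863 (L l50 (T t864 N)))))))) (K a25 (M a48 (F (T t865 (L l15 (L l337 (T t1 (L l12 (L l56 (T t866 N))))))))) (K a29 (M a48 (F (T t145 (L l15 (L l337 (T t1 (T t866 N))))))) (K a38 (M a48 (F (T t867 (L l26 (L l337 (T t2 (L l21 (L l50 (T t868 N))))))))) (K a42 (M a89 (F (T t4375 (L l26 (L l80 (L l228 (T t870 (L l26 (T t864 N))))))))) (K a46 (M a48 (F (T t48 (L l518 (T t443 (L l26 (T t866 N))))))) (K a51 (M a85 (L l487 (F (T t571 (T t572 (K a147 (M a99 (F (T t571 (T t572 N)))) (K a99 (M a147 (F (T t571 (T t572 N)))) N))))))) N))))))))))))))))))))⟩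
def e0_63__64_59 : Ent 4 := ⟨[a0, a63], [a64, a197], (M a12 (F (T t122 (T t151 (T t152 (T t153 (K a4 (M a60 (F (T t43 (T t398 (T t448 N))))) (K a8 (M a60 (F (T t67 (T t398 (L l52 (L l56 (T t448 N))))))) (K a21 (M a89 (F (T t2755 (L l80 (L l236 (T t870 (L l50 (T t864 N)))))))) (K a25 (M a48 (F (T t550 (L l15 (L l491 (T t1 (L l12 (L l56 (L l311 (T t866 N)))))))))) (K a29 (M a48 (F (T t550 (L l15 (L l491 (T t1 (L l311 (T t866 N)))))))) (K a38 (M a48 (F (T t1580 (L l26 (L l311 (T t2 (L l21 (L l50 (L l491 (T t868 N)))))))))) (K a42 (M a89 (F (T t3370 (T t863 (L l26 (T t864 N)))))) (K a46 (M a48 (F (T t443 (L l491 (T t1 (L l26 (L l311 (T t866 N)))))))) (K a51 (M a16 (F (T t504 (L l39 (T t871 (T t872 N)))))) N)))))))))))))))⟩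
def e0_63__64_60 : Ent 4 := ⟨[a0, a63], [a64, a198], (M a60 (F (T t67 (T t43 (T t68 (T t69 (K a20 (M a48 (F (T t2 (T t64 (L l11 (T t235 N)))))) (K a40 (M a48 (F (T t1 (T t64 (L l52 (T t235 N)))))) (K a21 (M a105 (F (L l11 (T t1129 (L l140 (T t1128 (L l11 (T t405 N)))))))) (K a41 (M a32 (F (T t1568 (L l65 (T t219 (L l25 (L l65 (T t1569 N)))))))) (K a61 (M a16 (F (T t1140 (T t97 (L l59 (T t1141 N)))))) (K a22 (M a16 (F (T t2447 (L l66 (T t97 (L l16 (L l66 (T t1141 N)))))))) (K a42 (M a105 (F (T t1129 (L l66 (L l140 (T t1128 (L l66 (T t405 N)))))))) (K a62 (M a16 (F (T t1140 (L l66 (T t97 (L l66 (T t1141 N))))))) (K a3 (M a85 (F (T t447 (T t115 N)))) N)))))))))))))))⟩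
def e0_63__64_61 : Ent 4 := ⟨[a0, a63], [a64, a199], (M a48 (F (T t1 (T t2 (T t3 (T t0 (K a16 (M a60 (F (T t43 (T t64 (T t65 N))))) (K a32 (M a60 (F (T t64 (T t67 (L l24 (L l28 (T t65 N))))))) (K a21 (M a101 (F (T t2181 (L l116 (L l229 (T t313 (L l18 (L l229 (T t314 N))))))))) (K a37 (M a52 (F (L l314 (T t82 (L l493 (T t83 (L l21 (L l28 (T t84 N))))))))) (K a53 (M a12 (F (T t151 (T t443 (L l47 (T t146 N)))))) (K a26 (M a56 (F (L l494 (T t133 (L l494 (T t134 (L l12 (L l18 (T t135 N))))))))) (K a42 (M a101 (F (T t335 (L l54 (L l116 (L l229 (T t313 (L l54 (L l229 (T t314 N)))))))))) (K a58 (M a12 (F (T t443 (T t122 (T t146 N))))) (K a15 (M a85 (F (T t567 (T t568 N)))) N)))))))))))))))⟩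
def e0_63__64_62 : Ent 4 := ⟨[a0, a63], [a64, a202], (M a12 (F (T t122 (T t151 (T t152 (T t153 (K a4 (M a60 (F (T t43 (T t398 (T t448 N))))) (K a8 (M a60 (F (T t67 (T t398 (L l52 (L l56 (T t448 N))))))) (K a21 (M a89 (F (T t2786 (L l50 (T t863 (L l50 (T t864 N))))))) (K a25 (M a48 (F (T t550 (L l15 (L l318 (T t1 (L l12 (L l56 (L l498 (T t866 N)))))))))) (K a29 (M a48 (F (T t550 (L l15 (L l318 (T t1 (L l498 (T t866 N)))))))) (K a38 (M a48 (F (T t1580 (L l26 (L l498 (T t2 (L l21 (L l50 (L l318 (T t868 N)))))))))) (K a42 (M a89 (F (T t3370 (T t863 (L l26 (T t864 N)))))) (K a46 (M a48 (F (T t443 (L l318 (T t1 (L l26 (L l498 (T t866 N)))))))) (K a51 (M a16 (F (T t2517 (L l73 (T t97 (T t872 N)))))) N)))))))))))))))⟩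
def e0_63__64_63 : Ent 4 := ⟨[a0, a63], [a64, a203], (M a60 (F (T t67 (T t43 (T t68 (T t69 (K a20 (M a48 (F (T t2 (T t64 (L l11 (L l500 (T t235 N))))))) (K a40 (M a48 (F (T t64 (T t1 (L l52 (L l500 (T t235 N))))))) (K a21 (M a105 (F (T t1217 (L l11 (L l235 (L l283 (T t404 (L l11 (L l283 (T t405 N)))))))))) (K a41 (M a32 (F (L l65 (T t219 (L l29 (T t1573 (L l25 (L l65 (T t1569 N))))))))) (K a61 (M a16 (F (T t1140 (T t97 (L l59 (T t1141 N)))))) (K a22 (M a16 (F (L l66 (T t97 (L l19 (T t1140 (L l16 (L l66 (T t1141 N))))))))) (K a42 (M a105 (F (T t1143 (L l66 (L l140 (T t1128 (L l66 (L l283 (T t405 N))))))))) (K a62 (M a16 (F (T t1140 (L l66 (T t97 (L l66 (T t1141 N))))))) (K a3 (M a85 (F (T t447 (T t115 N)))) N)))))))))))))))⟩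
def e0_63__64_64 : Ent 4 := ⟨[a0, a63], [a64, a207], (M a12 (F (T t150 (L l511 (T t122 (L l511 (T t151 (L l511 (T t152 (L l511 (T t153 (K a4 (M a60 (F (T t570 (L l46 (L l50 (L l331 (T t67 (T t448 N)))))))) (K a8 (M a60 (F (T t570 (L l331 (T t67 (L l52 (L l56 (T t448 N)))))))) (K a21 (M a89 (F (T t862 (L l50 (L l301 (T t863 (L l50 (T t864 N)))))))) (K a25 (M a48 (F (T t865 (L l15 (L l325 (T t1 (L l12 (L l56 (T t866 N))))))))) (K a29 (M a48 (F (T t145 (L l15 (L l325 (T t1 (T t866 N))))))) (K a38 (M a48 (F (T t867 (L l26 (L l325 (T t2 (L l21 (L l50 (T t868 N))))))))) (K a42 (M a89 (F (T t4375 (L l26 (L l80 (L l236 (T t870 (L l26 (T t864 N))))))))) (K a46 (M a48 (F (T t48 (L l506 (T t443 (L l26 (T t866 N))))))) (K a51 (M a85 (L l511 (F (T t571 (T t572 (K a103 (M a155 (F (T t571 (T t572 N)))) (K a155 (M a103 (F (T t571 (T t572 N)))) N))))))) N))))))))))))))))))))⟩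
def e0_63__64_65 : Ent 4 := ⟨[a0, a63], [a64, a213], (M a48 (F (T t2 (L l347 (T t1 (L l347 (T t3 (T t0 (K a16 (M a60 (F (T t43 (T t64 (T t65 N))))) (K a32 (M a60 (F (T t64 (L l347 (T t67 (L l24 (L l28 (T t65 N)))))))) (K a21 (M a85 (F (T t50 (L l84 (L l246 (T t509 (L l47 (L l246 (T t361 (L l47 (L l246 (T t8389 N)))))))))))) (K a37 (M a52 (F (T t82 (T t83 (L l21 (L l28 (T t84 N))))))) (K a53 (M a12 (F (T t151 (T t443 (L l47 (L l347 (T t146 N))))))) (K a26 (M a56 (F (T t133 (T t134 (L l12 (L l18 (L l347 (T t135 N)))))))) (K a42 (M a101 (F (T t333 (T t334 (L l54 (L l275 (T t314 N))))))) (K a58 (M a12 (F (T t443 (L l347 (T t122 (L l347 (T t146 N))))))) (K a15 (M a4 (F (T t129 (L l63 (T t528 (T t520 N)))))) N)))))))))))))))))⟩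
def e0_63__64_66 : Ent 4 := ⟨[a0, a63], [a64, a214], (M a48 (F (T t1 (T t2 (T t3 (T t0 (K a16 (M a60 (F (T t43 (T t64 (T t65 N))))) (K a32 (M a60 (F (T t67 (T t64 (L l24 (L l28 (T t65 N))))))) (K a21 (M a101 (F (T t312 (L l116 (T t313 (L l18 (T t314 N))))))) (K a37 (M a52 (F (T t82 (T t83 (L l21 (L l28 (T t84 N))))))) (K a53 (M a12 (F (T t151 (T t443 (L l47 (T t146 N)))))) (K a26 (M a56 (F (T t133 (T t134 (L l12 (L l18 (T t135 N))))))) (K a42 (M a101 (F (T t333 (T t334 (L l54 (T t314 N)))))) (K a58 (M a12 (F (T t443 (T t122 (T t146 N))))) (K a15 (M a4 (F (T t129 (L l63 (T t528 (T t520 N)))))) N)))))))))))))))⟩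
def e0_63__64_67 : Ent 4 := ⟨[a0, a63], [a64, a215], (M a12 (F (T t122 (T t151 (T t152 (T t153 (K a4 (M a60 (F (T t398 (L l46 (L l50 (L l350 (T t67 (L l349 (T t448 N))))))))) (K a8 (M a60 (F (T t398 (L l350 (T t67 (L l52 (L l56 (L l349 (T t448 N))))))))) (K a21 (M a89 (F (T t2786 (L l50 (T t863 (L l50 (T t864 N))))))) (K a25 (M a48 (F (T t550 (L l15 (T t1 (L l12 (L l56 (T t866 N)))))))) (K a29 (M a48 (F (T t2 (T t550 (T t866 N))))) (K a38 (M a48 (F (T t1580 (L l26 (T t2 (L l21 (L l50 (T t868 N)))))))) (K a42 (M a89 (F (T t3370 (T t863 (L l26 (T t864 N)))))) (K a46 (M a48 (F (T t443 (T t1 (L l26 (T t866 N)))))) (K a51 (M a85 (F (T t571 (L l239 (L l277 (T t572 N)))))) N)))))))))))))))⟩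
def e0_63__64_68 : Ent 4 := ⟨[a0, a63], [a64, a218], (M a48 (F (T t1 (T t2 (T t3 (T t0 (K a16 (M a60 (F (T t43 (T t64 (T t65 N))))) (K a32 (M a60 (F (T t67 (T t64 (L l24 (L l28 (T t65 N))))))) (K a21 (M a101 (F (L l116 (T t313 (L l18 (L l303 (T t334 (L l18 (T t314 N))))))))) (K a37 (M a52 (F (T t82 (T t83 (L l21 (L l28 (T t84 N))))))) (K a53 (M a12 (F (T t151 (T t443 (L l47 (T t146 N)))))) (K a26 (M a154 (F (T t1119 (L l246 (T t327 (L l18 (L l246 (L l282 (T t328 N))))))))) (K a42 (M a101 (F (T t2197 (L l54 (L l116 (T t313 (L l54 (T t314 N)))))))) (K a58 (M a12 (F (T t443 (T t122 (T t146 N))))) (K a15 (M a4 (F (T t129 (L l63 (T t528 (T t520 N)))))) N)))))))))))))))⟩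
def e0_63__64_69 : Ent 4 := ⟨[a0, a63], [a64, a219], (M a12 (F (T t122 (T t151 (T t152 (T t153 (K a4 (M a60 (F (T t43 (T t398 (T t448 N))))) (K a8 (M a60 (F (T t67 (T t398 (L l52 (L l56 (T t448 N))))))) (K a21 (M a89 (F (T t2752 (L l50 (L l283 (L l301 (T t863 (L l50 (L l283 (T t864 N)))))))))) (K a25 (M a48 (F (T t550 (L l15 (T t1 (L l12 (L l56 (L l356 (T t866 N))))))))) (K a29 (M a48 (F (T t2 (T t550 (L l356 (T t866 N)))))) (K a38 (M a48 (F (L l26 (T t2 (L l356 (T t1580 (L l21 (L l50 (L l355 (T t868 N)))))))))) (K a42 (M a89 (F (T t2761 (L l26 (L l80 (T t870 (L l26 (L l283 (T t864 N))))))))) (K a46 (M a48 (F (T t443 (T t1 (L l26 (L l356 (T t866 N))))))) (K a51 (M a85 (F (T t571 (T t572 N)))) N)))))))))))))))⟩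
def e0_63__64_70 : Ent 4 := ⟨[a0, a63], [a64, a223], (M a60 (F (T t67 (T t43 (T t68 (T t69 (K a20 (M a48 (F (T t2 (T t64 (L l11 (T t235 N)))))) (K a40 (M a48 (F (T t1 (T t64 (L l52 (T t235 N)))))) (K a21 (M a105 (F (T t1217 (L l11 (T t404 (L l11 (T t405 N))))))) (K a41 (M a32 (F (L l368 (T t1568 (L l65 (L l368 (T t219 (L l25 (L l65 (T t1569 N)))))))))) (K a61 (M a16 (F (T t112 (L l362 (T t1140 (L l59 (T t1141 N))))))) (K a22 (M a16 (F (T t2447 (L l66 (L l361 (T t97 (L l16 (L l66 (T t1141 N))))))))) (K a42 (M a105 (F (T t420 (T t404 (L l66 (T t405 N)))))) (K a62 (M a16 (F (T t2447 (L l66 (L l361 (T t97 (L l66 (T t1141 N)))))))) (K a3 (M a85 (F (T t447 (L l245 (L l246 (T t115 N)))))) N)))))))))))))))⟩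
def e0_63__64_71 : Ent 4 := ⟨[a0, a63], [a64, a234], (M a48 (F (T t1 (L l390 (T t2 (T t3 (L l390 (T t0 (K a16 (M a60 (F (T t64 (L l14 (L l18 (T t67 (L l390 (T t65 N)))))))) (K a32 (M a60 (F (T t64 (T t67 (L l24 (L l28 (L l390 (T t65 N)))))))) (K a21 (M a101 (F (T t687 (L l18 (L l256 (T t334 (L l18 (L l256 (T t314 N))))))))) (K a37 (M a52 (F (T t82 (T t83 (L l21 (L l28 (L l390 (T t84 N)))))))) (K a53 (M a12 (F (T t443 (L l47 (T t122 (L l47 (T t146 N))))))) (K a26 (M a56 (F (T t133 (T t134 (L l12 (L l18 (T t135 N))))))) (K a42 (M a170 (F (L l256 (T t316 (L l116 (L l144 (T t514 (L l54 (L l256 (T t8390 (L l54 (L l256 (T t8391 N))))))))))))) (K a58 (M a12 (F (T t122 (T t443 (T t146 N))))) (K a15 (M a4 (F (T t518 (L l73 (L l390 (T t519 (L l390 (T t520 N)))))))) N)))))))))))))))))⟩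
def e0_63__64_72 : Ent 4 := ⟨[a0, a63], [a64, a235], (M a48 (F (T t1 (T t2 (T t3 (T t0 (K a16 (M a60 (F (T t64 (L l14 (L l18 (L l391 (T t67 (L l392 (T t65 N))))))))) (K a32 (M a60 (F (T t64 (L l391 (T t67 (L l24 (L l28 (L l392 (T t65 N))))))))) (K a21 (M a101 (F (T t687 (L l18 (L l255 (T t334 (L l18 (L l255 (T t314 N))))))))) (K a37 (M a52 (F (T t83 (L l392 (T t82 (L l21 (L l28 (T t84 N)))))))) (K a53 (M a12 (F (T t151 (T t443 (L l47 (T t146 N)))))) (K a26 (M a56 (F (T t133 (T t134 (L l12 (L l18 (L l392 (T t135 N)))))))) (K a42 (M a101 (F (T t333 (L l255 (T t334 (L l54 (L l255 (T t314 N)))))))) (K a58 (M a12 (F (T t443 (T t122 (T t146 N))))) (K a15 (M a4 (F (T t129 (L l63 (T t528 (T t520 N)))))) N)))))))))))))))⟩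
def e0_63__64_73 : Ent 4 := ⟨[a0, a63], [a64, a239], (M a12 (F (T t122 (T t151 (T t152 (T t153 (K a4 (M a60 (F (T t43 (T t398 (T t448 N))))) (K a8 (M a60 (F (T t398 (T t67 (L l52 (L l56 (T t448 N))))))) (K a21 (M a89 (F (T t2786 (L l50 (T t863 (L l50 (T t864 N))))))) (K a25 (M a48 (F (T t550 (L l15 (T t1 (L l12 (L l56 (T t866 N)))))))) (K a29 (M a48 (F (T t2 (T t550 (T t866 N))))) (K a38 (M a48 (F (T t1580 (L l26 (T t2 (L l21 (L l50 (T t868 N)))))))) (K a42 (M a89 (F (T t3370 (T t863 (L l26 (T t864 N)))))) (K a46 (M a48 (F (T t550 (T t1 (L l26 (T t866 N)))))) (K a51 (M a16 (F (L l404 (T t112 (L l39 (L l404 (T t871 (T t872 N)))))))) N)))))))))))))))⟩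
def e0_63__64_74 : Ent 4 := ⟨[a0, a63], [a64, a255], (M a48 (F (T t48 (L l469 (T t1 (L l469 (T t2 (L l469 (T t3 (L l469 (T t0 (K a16 (M a60 (F (T t138 (L l14 (L l18 (L l475 (T t67 (T t65 N)))))))) (K a32 (M a60 (F (T t138 (L l475 (T t67 (L l24 (L l28 (T t65 N)))))))) (K a21 (M a60 (F (T t1543 (L l47 (L l65 (L l439 (T t64 (L l11 (L l18 (L l47 (L l65 (L l470 (T t288 (L l50 (L l470 (T t250 N)))))))))))))))) (K a37 (M a52 (F (T t555 (L l470 (T t82 (L l21 (L l28 (T t84 N)))))))) (K a53 (M a12 (F (T t145 (L l47 (L l439 (T t122 (L l47 (T t146 N)))))))) (K a26 (M a56 (F (T t556 (L l470 (T t133 (L l12 (L l18 (T t135 N)))))))) (K a42 (M a60 (F (T t3520 (L l439 (T t64 (L l56 (L l470 (T t288 (L l22 (L l28 (L l54 (L l66 (L l470 (T t250 N)))))))))))))) (K a58 (M a12 (F (T t145 (L l439 (T t122 (T t146 N)))))) (K a15 (M a4 (L l469 (F (T t129 (L l63 (L l434 (T t528 (T t520 (K a95 (M a175 (F (T t558 (L l73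 (L l439 (T t519 (T t520 N))))))) (K a175 (M a95 (F (T t558 (L l73 (L l439 (T t519 (T t520 N))))))) N)))))))))) N))))))))))))))))))))⟩
def b0_63__64 : Blk 4 := ⟨[0, 63], [64], [1, 2, 3, 5, 6, 7, 10, 11, 15, 22, 23, 26, 27, 31, 43, 47, 65, 66, 67, 69, 70, 71, 74, 75, 79, 85, 86, 87, 90, 91, 95, 106, 107, 111, 127, 128, 129, 130, 131, 133, 134, 135, 138, 139, 143, 149, 150, 151, 154, 155, 159, 170, 171, 175, 191, 192, 193, 194, 195, 197, 198, 199, 202, 203, 207, 213, 214, 215, 218, 219, 223, 234, 235, 239, 255], [e0_63__64_0, e0_63__64_1, e0_63__64_2, e0_63__64_3, e0_63__64_4, e0_63__64_5, e0_63__64_6, e0_63__64_7, e0_63__64_8, e0_63__64_9, e0_63__64_10, e0_63__64_11, e0_63__64_12, e0_63__64_13, e0_63__64_14, e0_63__64_15, e0_63__64_16, e0_63__64_17, e0_63__64_18, e0_63__64_19, e0_63__64_20, e0_63__64_21, e0_63__64_22, e0_63__64_23, e0_63__64_24, e0_63__64_25, e0_63__64_26, e0_63__64_27, e0_63__64_28,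 e0_63__64_29, e0_63__64_30, e0_63__64_31, e0_63__64_32, e0_63__64_33, e0_63__64_34, e0_63__64_35, e0_63__64_36, e0_63__64_37, e0_63__64_38, e0_63__64_39, e0_63__64_40, e0_63__64_41, e0_63__64_42, e0_63__64_43, e0_63__64_44, e0_63__64_45, e0_63__64_46, e0_63__64_47, e0_63__64_48, e0_63__64_49, e0_63__64_50, e0_63__64_51, e0_63__64_52, e0_63__64_53, e0_63__64_54, e0_63__64_55, e0_63__64_56, e0_63__64_57, e0_63__64_58, e0_63__64_59, e0_63__64_60, e0_63__64_61, e0_63__64_62, e0_63__64_63, e0_63__64_64, e0_63__64_65, e0_63__64_66, e0_63__64_67, e0_63__64_68, e0_63__64_69, e0_63__64_70, e0_63__64_71, e0_63__64_72, e0_63__64_73, e0_63__64_74], by decide +kernel, by decide +kernel⟩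

end Pool.Agent.Lib_TTT.K4
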