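import Pool.Agent.Lib_TTT.K4Base
import Pool.Agent.Lib_TTT.K4T00

/-! Certificates in `4^4`. -/

set_option autoImplicit false
set_option maxRecDepth 200000

namespace Pool.Agent.Lib_TTT.K4

open Lib_TTT AC DC

def e0_63__65_0 : Ent 4 := ⟨[a0, a63], [a65, a1], (M a48 (L l305 (F (T t0 (L l65 (T t1 (L l5 (T t2 (L l65 (T t3 (K a16 (M a149 (L l305 (F (T t4 (L l76 (T t5 (T t6 (K a129 (M a193 (F (T t7 (L l65 (T t8 (L l41 (L l141 (T t9 N)))))))) (K a193 (M a129 (F (L l76 (T t10 (L l233 (L l293 (T t6 N))))))) N))))))))) (K a32 (M a149 (L l305 (F (T t11 (L l28 (L l76 (T t5 (L l28 (T t6 (K a129 (M a193 (F (T t12 (L l28 (T t6 N))))) (K a193 (M a129 (F (L l76 (T t10 (L l28 (L l233 (L l293 (T t6 N)))))))) N))))))))))) (K a21 (M a149 (L l65 (L l305 (F (T t4 (T t13 (L l18 (T t14 (K a129 (M a193 (L l65 (F (T t12 (L l18 (L l152 (T t14 (K a41 (Fr a61 a105 l515 (V t15)) (K a61 (M a41 (F (T t16 (L l152 (T t13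 (L l18 (L l152 (T t14 N)))))))) N))))))))) (K a193 (M a129 (L l65 (F (T t7 (L l76 (T t10 (L l18 (L l233 (T t14 (K a41 (M a61 (F (T t7 (L l22 (L l50 (L l57 (T t17 N))))))) (K a61 (M a41 (F (T t7 (L l76 (L l431 (T t10 (L l18 (L l233 (T t14 N))))))))) N))))))))))) (K a41 (M a61 (L l305 (F (T t4 (L l22 (T t18 (K a129 (Fr a193 a105 l515 (V t15)) (K a193 (M a129 (F (T t7 (L l22 (L l50 (L l57 (T t17 N))))))) N)))))))) (K a61 (M a41 (L l305 (F (T t7 (L l18 (T t14 (T t13 (K a129 (M a193 (F (T t16 (L l152 (T t13 (L l18 (L l152 (T t14 N)))))))) (K a193 (M a129 (F (T t7 (L l76 (L l431 (T t10 (L l18 (L l233 (T t14 N))))))))) N))))))))) N)))))))))))) (K a37 (M a192 (L l305 (F (T t19 (L l47 (T t20 (T t21 (K a129 (M a193 (F (T t22 (L l41 (L l71 (L l76 (T t23 N))))))) (K a193 (M a129 (F (T t19 (L l233 (T t24 N))))) N))))))))) (K a53 (M a149 (L l305 (F (T t25 (T t13 (T t26 (K a129 (M a193 (F (T t12 (T t26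 N)))) (K a193 (M a129 (F (L l76 (T t10 (L l293 (T t26 N)))))) N)))))))) (K a26 (M a192 (L l305 (F (T t27 (T t20 (T t21 (K a129 (M a193 (F (T t22 (L l41 (L l76 (T t23 N)))))) (K a193 (M a129 (F (T t28 (L l54 (L l233 (T t24 N)))))) N)))))))) (K a42 (M a192 (L l305 (F (T t19 (T t20 (L l28 (T t29 (K a129 (M a193 (F (T t19 (L l65 (L l390 (T t30 N)))))) (K a193 (M a129 (F (T t27 (L l54 (L l233 (L l390 (T t24 N))))))) N))))))))) (K a58 (M a192 (L l305 (F (T t19 (T t21 (L l54 (L l498 (T t31 (K a129 (M a193 (F (T t28 (L l65 (L l498 (T t30 N)))))) (K a193 (M a129 (F (T t28 (L l76 (L l498 (T t32 (L l54 (L l293 (L l498 (T t31 N)))))))))) N)))))))))) (K a15 (M a192 (L l305 (F (T t33 (L l483 (T t27 (L l469 (T t21 (K a129 (M a193 (F (T t34 (L l65 (L l217 (L l469 (T t35 N))))))) (K a193 (M a129 (F (T t36 (L l233 (T t24 N))))) N)))))))))) (K a129 (M a193 (F (T t0 (L l65 (T t1 (L l5 (T t2 (L l65 (T t3 (K a16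 (M a192 (F (T t37 (L l41 (L l344 (T t38 N)))))) (K a32 (M a192 (F (T t34 (L l65 (L l217 (T t35 N)))))) (K a21 (M a61 (F (T t18 (L l141 (T t39 N))))) (K a37 (M a192 (F (T t22 (L l41 (L l71 (L l76 (T t23 N))))))) (K a53 (M a192 (F (T t28 (L l35 (L l65 (T t30 N)))))) (K a26 (M a192 (F (T t22 (L l41 (L l76 (T t23 N)))))) (K a42 (M a192 (F (T t19 (L l65 (L l390 (T t30 N)))))) (K a58 (M a192 (F (T t28 (L l65 (L l498 (T t30 N)))))) (K a15 (M a192 (F (T t34 (L l65 (L l217 (L l469 (T t35 N))))))) N)))))))))))))))))) (K a193 (M a129 (F (T t0 (L l65 (T t1 (L l5 (T t2 (L l65 (T t3 (K a16 (M a149 (F (L l76 (T t10 (L l233 (L l293 (T t6 N))))))) (K a32 (M a149 (F (L l76 (T t10 (L l28 (L l233 (L l293 (T t6 N)))))))) (K a21 (M a149 (L l65 (F (T t7 (L l76 (T t10 (L l18 (L l233 (T t14 (K a41 (M a61 (F (T t7 (L l22 (L l50 (L l57 (T t17 N))))))) (K a61 (M a41 (F (T t7 (L l76 (L l431 (T t10 (L l18 (L l233 (T t14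 N))))))))) N))))))))))) (K a37 (M a192 (F (T t19 (L l233 (T t24 N))))) (K a53 (M a149 (F (L l76 (T t10 (L l293 (T t26 N)))))) (K a26 (M a192 (F (T t28 (L l54 (L l233 (T t24 N)))))) (K a42 (M a192 (F (T t27 (L l54 (L l233 (L l390 (T t24 N))))))) (K a58 (M a189 (F (T t40 (L l54 (L l293 (L l473 (T t41 N))))))) (K a15 (M a192 (F (T t36 (L l233 (T t24 N))))) N)))))))))))))))))) N)))))))))))))))))))))⟩
def e0_63__65_1 : Ent 4 := ⟨[a0, a63], [a65, a2], (M a48 (F (T t3 (L l6 (T t1 (L l66 (T t2 (L l66 (T t0 (K a16 (M a60 (F (T t42 (L l66 (T t43 (L l6 (L l14 (L l18 (T t44 N))))))))) (K a32 (M a60 (F (T t42 (L l24 (L l28 (L l66 (T t43 (L l6 (T t44 N))))))))) (K a21 (M a192 (F (T t28 (L l47 (L l347 (T t20 (L l47 (L l347 (T t29 N))))))))) (K a37 (M a192 (F (T t19 (L l47 (T t20 (T t21 N)))))) (K a53 (M a192 (F (T t19 (L l491 (T t21 (L l66 (T t31 N))))))) (K a26 (M a192 (F (T t28 (T t20 (T t21 N))))) (K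 a42 (M a192 (L l66 (F (T t19 (T t20 (L l28 (T t29 (K a22 (M a62 (F (T t19 (L l306 (T t45 N))))) (K a62 (M a22 (F (T t27 (T t20 (L l76 (L l390 (L l516 (T t46 N)))))))) N))))))))) (K a58 (M a192 (F (T t19 (T t21 (L l54 (L l66 (L l498 (T t31 N)))))))) (K a15 (M a192 (F (T t47 (L l483 (T t27 (L l325 (T t20 N))))))) N))))))))))))))))))⟩
def e0_63__65_2 : Ent 4 := ⟨[a0, a63], [a65, a3], (M a48 (F (T t48 (L l7 (T t1 (L l7 (T t2 (L l7 (T t3 (L l7 (T t0 (K a16 (M a85 (F (T t49 (L l453 (T t50 (T t51 N)))))) (K a32 (M a85 (F (L l475 (T t52 (L l404 (L l453 (T t50 (L l28 (T t51 N))))))))) (K a21 (M a192 (F (T t53 (L l453 (T t27 (L l47 (L l347 (T t29 N)))))))) (K a37 (M a192 (F (T t54 (L l453 (T t27 (L l475 (T t21 N))))))) (K a53 (M a192 (F (T t55 (L l475 (L l491 (T t21 (T t31 N))))))) (K a26 (M a192 (F (T t56 (L l453 (T t27 (L l475 (T t21 N))))))) (K a42 (M a192 (F (T t56 (L l453 (T t27 (L l28 (T t29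 N))))))) (K a58 (M a192 (F (T t57 (L l453 (T t27 (L l54 (L l498 (T t31 N)))))))) (K a15 (M a80 (L l7 (F (T t58 (T t59 (L l469 (L l475 (L l483 (T t60 (K a7 (M a11 (F (T t61 (L l69 (T t62 N))))) (K a11 (M a7 (F (T t61 (L l69 (T t63 N))))) N))))))))))) N))))))))))))))))))))⟩
def e0_63__65_3 : Ent 4 := ⟨[a0, a63], [a65, a4], (M a48 (F (T t0 (L l50 (T t1 (L l1 (T t2 (L l50 (T t3 (K a16 (M a60 (F (T t43 (T t64 (L l1 (T t65 N)))))) (K a32 (M a60 (F (T t64 (L l24 (L l28 (T t43 (L l1 (L l24 (L l28 (T t65 N)))))))))) (K a21 (M a192 (L l50 (F (T t28 (L l47 (L l347 (T t20 (L l47 (L l347 (T t29 (K a38 (M a55 (F (T t27 (L l310 (T t66 N))))) (K a55 (M a38 (F (T t27 (L l31 (L l47 (L l347 (L l495 (T t20 (L l18 (L l76 (T t46 N))))))))))) N)))))))))))) (K a37 (M a192 (F (T t19 (L l47 (T t20 (T t21 N)))))) (K a53 (M a192 (F (T t19 (L l491 (T t21 (T t31 N)))))) (K a26 (M a192 (F (T t27 (T t20 (T t21 N))))) (K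 a42 (M a192 (F (T t19 (T t20 (L l28 (T t29 N)))))) (K a58 (M a192 (F (T t19 (T t21 (L l54 (L l498 (T t31 N))))))) (K a15 (M a192 (F (T t33 (L l483 (T t27 (L l469 (T t21 N))))))) N))))))))))))))))))⟩
def e0_63__65_4 : Ent 4 := ⟨[a0, a63], [a65, a5], (M a60 (F (T t43 (L l47 (T t67 (L l47 (T t68 (L l5 (L l305 (T t69 (K a20 (M a48 (F (T t70 (L l11 (L l14 (L l47 (T t3 (L l46 (T t71 N))))))))) (K a40 (M a48 (F (T t70 (L l47 (T t3 (L l22 (L l24 (T t71 N)))))))) (K a21 (M a192 (L l47 (F (T t72 (L l347 (T t73 (L l347 (T t74 (K a37 (M a53 (F (T t75 (L l28 (T t76 N))))) (K a53 (M a37 (F (T t77 (L l347 (L l491 (T t73 (L l11 (L l76 (T t78 N))))))))) N)))))))))) (K a41 (M a192 (F (T t79 (L l47 (L l65 (T t35 (T t73 N))))))) (K a61 (M a192 (F (T t72 (L l47 (L l65 (L l515 (T t35 (T t80 N)))))))) (K a22 (M a192 (F (T t72 (T t21 (T t73 N))))) (K a42 (M a192 (F (T t79 (T t73 (L l22 (T t74 N)))))) (K a62 (M a192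 (F (T t72 (L l47 (T t35 (L l66 (L l516 (T t80 N)))))))) (K a3 (M a192 (F (T t81 (L l477 (T t79 (L l47 (L l475 (T t35 N)))))))) N)))))))))))))))))))⟩
def e0_63__65_5 : Ent 4 := ⟨[a0, a63], [a65, a6], (M a48 (F (T t3 (L l6 (T t1 (L l1 (T t2 (T t0 (K a16 (M a60 (F (T t64 (L l9 (L l14 (L l18 (T t67 (L l1 (T t65 N))))))))) (K a32 (M a60 (F (T t64 (L l9 (T t67 (L l1 (L l24 (L l28 (T t65 N))))))))) (K a21 (M a192 (F (T t28 (L l47 (L l347 (T t20 (L l47 (L l347 (T t29 N))))))))) (K a37 (M a192 (F (T t19 (L l47 (T t20 (T t21 N)))))) (K a53 (M a192 (F (T t19 (L l491 (T t21 (T t31 N)))))) (K a26 (M a192 (F (T t28 (T t20 (T t21 N))))) (K a42 (M a192 (F (T t19 (T t20 (L l28 (T t29 N)))))) (K a58 (M a192 (F (T t19 (T t21 (L l54 (L l498 (T t31 N))))))) (K a15 (M a192 (F (T t57 (L l483 (T t27 (L l325 (T t20 N))))))) N)))))))))))))))))⟩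
def e0_63__65_6 : Ent 4 := ⟨[a0, a63], [a65, a7], (M a48 (F (T t48 (L l7 (T t1 (L l1 (L l7 (T t2 (L l7 (T t3 (L l7 (T t0 (K a16 (M a60 (F (T t64 (L l7 (L l14 (L l18 (T t67 (L l14 (L l18 (T t44 N)))))))))) (K a32 (M a60 (F (T t64 (L l7 (T t67 (T t44 N)))))) (K a21 (M a192 (F (T t28 (L l47 (L l347 (T t20 (L l47 (L l347 (T t29 N))))))))) (K a37 (M a52 (F (L l1 (T t82 (L l49 (T t83 (L l21 (L l28 (T t84 N))))))))) (K a53 (M a192 (F (T t19 (L l491 (T t21 (T t31 N)))))) (K a26 (M a192 (F (T t28 (T t20 (T t21 N))))) (K a42 (M a192 (F (T t19 (T t20 (L l28 (T t29 N)))))) (K a58 (M a192 (F (T t19 (T t21 (L l54 (L l498 (T t31 N))))))) (K a15 (M a3 (F (T t85 (L l73 (L l305 (T t86 (L l63 (T t87 N)))))))) N)))))))))))))))))))))⟩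
def e0_63__65_7 : Ent 4 := ⟨[a0, a63], [a65, a8], (M a85 (F (T t52 (L l56 (L l76 (T t88 (L l56 (L l76 (T t89 (L l76 (L l464 (T t90 (K a64 (M a252 (L l76 (F (L l464 (T t91 (L l56 (L l460 (T t92 (K a66 (M a67 (F (L l464 (T t93 (L l56 (L l460 (T t92 N))))))) (K a67 (M a66 (F (L l140 (T t94 (L l464 (T t93 (L l56 (L l143 (L l460 (T t95 N)))))))))) N)))))))))) (K a192 (M a16 (F (L l81 (T t96 (L l56 (L l339 (T t97 (L l56 (L l296 (T t98 N)))))))))) (K a21 (M a48 (F (T t99 (L l464 (T t50 (L l47 (T t100 N))))))) (K a149 (M a16 (F (T t101 (L l56 (L l375 (T t97 (L l56 (L l170 (T t102 N))))))))) (K a213 (Fr a170 a255 l476 (Fr a42 a21 l68 (Fr a106 a234 l390 (Fr a192 a149 l519 (V t581))))) (K a42 (M a59 (F (T t104 (L l390 (L l464 (T t105 (L l26 (L l316 (T t106 (L l76 (L l316 (L l390 (L l464 (T t107 N)))))))))))))) (K a106 (M a48 (F (T t99 (L l2 (T t1 (L l390 (L l464 (T t50 N)))))))) (K a170 (M a89 (F (L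 l178 (T t108 (L l56 (L l117 (L l390 (T t109 (L l178 (L l316 (T t110 (L l56 (L l178 (L l390 (T t111 N))))))))))))))) (K a255 (M a16 (F (L l56 (T t112 (L l289 (T t113 (L l56 (L l289 (L l296 (T t98 N)))))))))) N)))))))))))))))))))))⟩
def e0_63__65_8 : Ent 4 := ⟨[a0, a63], [a65, a9], (M a48 (F (T t3 (L l2 (T t1 (L l5 (T t2 (T t0 (K a16 (M a60 (F (T t64 (L l9 (L l14 (L l18 (T t67 (L l5 (T t65 N))))))))) (K a32 (M a60 (F (T t64 (L l9 (T t67 (L l5 (L l24 (L l28 (T t65 N))))))))) (K a21 (M a192 (F (T t28 (L l47 (L l347 (T t20 (L l47 (L l347 (T t29 N))))))))) (K a37 (M a192 (F (T t19 (L l47 (T t20 (T t21 N)))))) (K a53 (M a192 (F (T t19 (L l491 (T t21 (T t31 N)))))) (K a26 (M a192 (F (T t28 (T t20 (T t21 N))))) (K a42 (M a192 (F (T t19 (T t20 (L l28 (T t29 N)))))) (K a58 (M a192 (F (T t19 (T t21 (L l54 (L l498 (T t31 N))))))) (K a15 (M a192 (F (T t57 (L l483 (T t27 (L l325 (T t20 N))))))) N)))))))))))))))))⟩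
def e0_63__65_9 : Ent 4 := ⟨[a0, a63], [a65, a10], (M a85 (F (T t52 (L l54 (L l76 (T t88 (L l54 (L l76 (T t89 (L l76 (L l462 (T t90 (K a64 (M a60 (L l76 (F (T t67 (L l462 (T t114 (L l54 (T t115 (K a66 (M a67 (F (L l462 (T t114 (L l54 (T t115 N)))))) (K a67 (M a66 (F (T t116 (L l143 (L l462 (T t114 (L l143 (L l145 (T t117 N))))))))) N)))))))))) (K a192 (M a16 (F (L l54 (L l339 (T t97 (L l81 (T t96 (L l54 (L l296 (T t98 N)))))))))) (K a21 (M a48 (F (T t99 (L l462 (T t50 (L l47 (L l318 (T t100 N)))))))) (K a149 (M a48 (F (T t99 (L l54 (L l375 (T t0 (L l220 (L l462 (T t50 N))))))))) (K a213 (Fr a170 a255 l476 (Fr a42 a21 l68 (Fr a106 a234 l390 (Fr a192 a149 l519 (V t581))))) (K a42 (M a58 (F (T t118 (L l390 (L l462 (T t119 (L l28 (L l318 (T t120 (L l76 (L l318 (L l390 (L l462 (T t121 N)))))))))))))) (K a106 (M a12 (F (T t122 (L l2 (L l117 (L l132 (T t123 (L l390 (L l462 (T t124 N)))))))))) (K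 a170 (M a90 (F (L l180 (T t125 (L l54 (L l390 (T t126 (L l180 (L l318 (T t127 (L l54 (L l180 (L l390 (T t128 N)))))))))))))) (K a255 (M a4 (F (L l2 (L l54 (T t129 (L l2 (L l265 (T t130 (L l54 (L l265 (L l296 (T t131 N)))))))))))) N)))))))))))))))))))))⟩
def e0_63__65_10 : Ent 4 := ⟨[a0, a63], [a65, a11], (M a48 (F (T t132 (L l2 (L l7 (T t1 (L l7 (T t2 (L l7 (T t3 (L l7 (T t0 (K a16 (M a60 (F (T t64 (L l7 (T t43 (T t65 N)))))) (K a32 (M a60 (F (T t64 (L l7 (L l24 (L l28 (T t43 (L l24 (L l28 (T t65 N)))))))))) (K a21 (M a192 (F (T t28 (L l47 (L l347 (T t20 (L l47 (L l347 (T t29 N))))))))) (K a37 (M a192 (F (T t19 (L l47 (T t20 (T t21 N)))))) (K a53 (M a192 (F (T t19 (L l491 (T t21 (T t31 N)))))) (K a26 (M a56 (F (L l2 (T t133 (L l55 (T t134 (L l12 (L l18 (T t135 N))))))))) (K a42 (M a192 (F (T t19 (T t20 (L l28 (T t29 N)))))) (K a58 (M a192 (F (T t19 (T t21 (L l54 (L l498 (T t31 N))))))) (K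 a15 (M a3 (F (T t136 (L l55 (L l63 (T t137 (L l55 (L l63 (T t87 N))))))))) N)))))))))))))))))))))⟩
def e0_63__65_11 : Ent 4 := ⟨[a0, a63], [a65, a12], (M a48 (F (T t48 (L l3 (T t1 (L l3 (T t2 (L l3 (T t3 (L l3 (T t0 (K a16 (M a60 (F (T t138 (L l9 (L l14 (L l18 (T t67 (T t65 N)))))))) (K a32 (M a60 (F (T t116 (L l74 (T t64 (L l24 (L l28 (T t65 N)))))))) (K a21 (M a192 (F (T t53 (L l478 (T t27 (L l47 (L l347 (T t29 N)))))))) (K a37 (M a192 (F (T t54 (L l478 (T t27 (L l470 (T t21 N))))))) (K a53 (M a192 (F (T t55 (L l470 (L l491 (T t21 (T t31 N))))))) (K a26 (M a192 (F (T t56 (L l478 (T t27 (L l470 (T t21 N))))))) (K a42 (M a192 (F (T t56 (L l478 (T t27 (L l28 (T t29 N))))))) (K a58 (M a192 (F (T t57 (L l478 (T t27 (L l54 (L l498 (T t31 N)))))))) (K a15 (M a80 (L l3 (F (T t139 (T t59 (L l469 (L l470 (L l483 (T t60 (K a13 (M a14 (F (T t61 (L l74 (T t140 N))))) (K a14 (M a13 (F (T t61 (L l74 (T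 t141 N))))) N))))))))))) N))))))))))))))))))))⟩
def e0_63__65_12 : Ent 4 := ⟨[a0, a63], [a65, a13], (M a48 (F (T t48 (L l3 (T t1 (L l3 (L l5 (T t2 (L l3 (T t3 (L l3 (T t0 (K a16 (M a60 (F (T t43 (L l59 (T t64 (L l5 (T t65 N))))))) (K a32 (M a60 (F (T t42 (T t67 (L l5 (L l24 (L l28 (T t65 N)))))))) (K a21 (M a192 (F (T t28 (L l47 (L l347 (T t20 (L l47 (L l347 (T t29 N))))))))) (K a37 (M a49 (F (L l59 (T t142 (L l5 (L l305 (T t143 (L l25 (L l28 (T t144 N)))))))))) (K a53 (M a192 (F (T t19 (L l491 (T t21 (T t31 N)))))) (K a26 (M a192 (F (T t28 (T t20 (T t21 N))))) (K a42 (M a192 (F (T t19 (T t20 (L l28 (T t29 N)))))) (K a58 (M a192 (F (T t19 (T t21 (L l54 (L l498 (T t31 N))))))) (K a15 (M a12 (F (T t145 (L l59 (L l73 (T t122 (L l59 (L l73 (T t146 N))))))))) N)))))))))))))))))))))⟩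
def e0_63__65_13 : Ent 4 := ⟨[a0, a63], [a65, a14], (M a48 (F (T t132 (L l3 (L l6 (T t1 (L l3 (T t2 (L l3 (T t3 (L l3 (T t0 (K a16 (M a60 (F (T t43 (L l72 (T t64 (T t65 N)))))) (K a32 (M a60 (F (T t42 (T t67 (L l24 (L l28 (T t65 N))))))) (K a21 (M a192 (F (T t28 (L l47 (L l347 (T t20 (L l47 (L l347 (T t29 N))))))))) (K a37 (M a192 (F (T t19 (L l47 (T t20 (T t21 N)))))) (K a53 (M a192 (F (T t19 (L l491 (T t21 (T t31 N)))))) (K a26 (M a50 (F (L l60 (T t147 (L l6 (T t148 (L l16 (L l18 (T t149 N))))))))) (K a42 (M a192 (F (T t19 (T t20 (L l28 (T t29 N)))))) (K a58 (M a192 (F (T t19 (T t21 (L l54 (L l498 (T t31 N))))))) (K a15 (M a12 (F (T t145 (L l73 (T t122 (L l73 (T t146 N))))))) N)))))))))))))))))))))⟩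
def e0_63__65_14 : Ent 4 := ⟨[a0, a63], [a65, a15], (M a12 (F (T t150 (L l73 (T t122 (L l73 (T t151 (L l73 (T t152 (L l73 (T t153 (K a4 (M a85 (F (T t49 (L l327 (T t124 (T t154 N)))))) (K a8 (M a85 (F (L l469 (T t52 (L l327 (L l464 (T t124 (L l56 (T t154 N))))))))) (K a21 (M a192 (F (T t155 (L l327 (T t156 (L l15 (L l347 (T t157 N)))))))) (K a25 (M a192 (F (T t158 (L l327 (T t156 (L l469 (T t21 N))))))) (K a29 (M a192 (F (T t159 (L l371 (L l469 (T t21 (T t160 N))))))) (K a38 (M a192 (F (T t161 (L l327 (T t156 (L l469 (T t21 N))))))) (K a42 (M a192 (F (T t161 (L l327 (T t156 (L l56 (T t157 N))))))) (K a46 (M a192 (F (T t57 (L l327 (T t156 (L l26 (L l408 (T t160 N)))))))) (K a51 (M a68 (L l73 (F (T t162 (T t163 (L l439 (L l469 (L l513 (T t164 (K a39 (M a27 (F (T t165 (L l63 (T t166 N))))) (K a27 (M a39 (F (T t165 (L l63 (T t167 N))))) N))))))))))) N))))))))))))))))))))⟩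
def e0_63__65_15 : Ent 4 := ⟨[a0, a63], [a65, a20], (M a85 (F (T t168 (L l76 (T t88 (L l11 (T t52 (L l76 (T t90 (K a64 (M a252 (L l76 (F (T t169 (T t93 (L l305 (T t170 (K a66 (M a67 (F (T t93 (L l346 (T t92 N))))) (K a67 (M a66 (F (L l143 (T t171 (T t93 (L l305 (T t170 N))))))) N))))))))) (K a192 (M a16 (F (T t112 (L l81 (T t96 (L l296 (T t98 N))))))) (K a21 (M a48 (L l11 (F (T t99 (T t50 (L l47 (T t100 (K a22 (M a23 (F (T t50 (L l19 (T t172 N))))) (K a23 (M a22 (F (T t99 (T t50 (L l47 (T t100 N)))))) N))))))))) (K a149 (M a16 (F (T t112 (L l81 (T t173 (L l170 (T t102 N))))))) (K a213 (Fr a170 a255 l476 (Fr a42 a21 l68 (Fr a106 a234 l390 (Fr a192 a149 l519 (V t581))))) (K a42 (M a48 (F (L l28 (T t99 (L l390 (T t50 (L l28 (T t100 N)))))))) (K a106 (M a48 (F (T t99 (L l11 (T t1 (L l390 (T t50 N))))))) (K a170 (M a16 (F (L l404 (T t113 (L l390 (T t98 (L l390 (L l404 (T t97 (L l404 (T t174 N)))))))))))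 (K a255 (M a16 (F (T t112 (L l289 (T t113 (L l289 (L l296 (T t98 N)))))))) N))))))))))))))))))⟩
def e0_63__65_16 : Ent 4 := ⟨[a0, a63], [a65, a22], (M a149 (F (L l66 (T t25 (L l11 (T t175 (L l66 (T t176 (L l76 (T t177 (K a192 (M a53 (F (L l66 (T t178 (L l236 (T t179 (L l66 (L l81 (L l236 (L l296 (T t180 N))))))))))) (K a21 (M a48 (L l11 (F (T t4 (T t13 (L l18 (T t14 (K a20 (M a23 (F (T t181 (L l65 (L l305 (L l346 (T t182 N))))))) (K a23 (M a20 (F (T t4 (L l19 (L l50 (T t183 N)))))) N))))))))) (K a85 (M a48 (L l141 (F (T t4 (L l11 (T t1 (L l144 (T t13 (K a105 (M a125 (F (T t184 (L l11 (T t1 (L l98 (L l144 (T t13 N)))))))) (K a125 (M a105 (F (L l11 (T t1 (L l144 (L l431 (T t185 N))))))) N)))))))))) (K a213 (Fr a106 a192 l519 (Fr a42 a21 l68 (Fr a170 a234 l390 (Fr a255 a85 l476 (V t582))))) (K a42 (M a48 (L l66 (F (T t187 (L l390 (T t13 (L l54 (T t14 (K a2 (M a62 (F (T t187 (L l11 (L l51 (L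 l56 (T t188 N))))))) (K a62 (M a2 (F (T t187 (L l22 (L l305 (L l432 (T t189 N))))))) N)))))))))) (K a106 (M a48 (F (L l11 (T t1 (L l498 (T t14 (L l66 (L l390 (L l498 (T t6 (L l66 (L l390 (T t26 N))))))))))))) (K a170 (M a48 (F (T t4 (L l11 (L l462 (T t1 (L l390 (T t13 N)))))))) (K a191 (M a16 (F (L l66 (T t97 (T t190 (L l66 (L l213 (T t191 N)))))))) (K a255 (M a16 (F (T t192 (L l16 (L l66 (T t193 (L l266 (T t190 N)))))))) N)))))))))))))))))))⟩
def e0_63__65_17 : Ent 4 := ⟨[a0, a63], [a65, a23], (M a48 (F (T t2 (L l11 (T t1 (L l11 (T t3 (L l17 (T t0 (K a16 (M a60 (F (T t64 (L l11 (L l18 (T t68 (L l11 (L l18 (T t194 N))))))))) (K a32 (M a60 (F (T t64 (L l11 (T t68 (L l11 (T t194 N))))))) (K a21 (M a192 (L l11 (F (T t28 (L l47 (L l347 (L l351 (T t20 (L l47 (L l347 (L l351 (T t29 (K a20 (M a22 (F (T t27 (L l47 (L l347 (L l351 (T t20 (L l14 (L l18 (L l76 (T t46 N))))))))))) (K a22 (M a20 (F (T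 t27 (L l347 (L l351 (T t195 N)))))) N)))))))))))))) (K a37 (M a192 (F (T t19 (L l47 (L l351 (T t20 (L l351 (T t21 N)))))))) (K a53 (M a192 (F (T t19 (L l351 (L l491 (T t21 (T t31 N))))))) (K a26 (M a192 (F (T t28 (L l351 (T t20 (L l351 (T t21 N))))))) (K a42 (M a192 (F (T t19 (L l351 (T t20 (L l28 (L l351 (T t29 N)))))))) (K a58 (M a192 (F (T t19 (L l351 (T t21 (L l54 (L l498 (T t31 N)))))))) (K a15 (M a192 (F (T t54 (L l483 (T t27 (L l351 (L l469 (T t21 N)))))))) N))))))))))))))))))⟩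
def e0_63__65_18 : Ent 4 := ⟨[a0, a63], [a65, a24], (M a60 (F (T t68 (L l14 (T t67 (L l52 (T t43 (L l305 (T t69 (K a20 (M a28 (F (T t196 (L l11 (L l52 (T t197 (L l11 (T t198 N)))))))) (K a40 (M a56 (F (T t199 (L l14 (L l22 (L l305 (T t200 (L l22 (T t201 N))))))))) (K a21 (M a192 (F (T t77 (L l347 (T t73 (L l52 (L l347 (T t74 N)))))))) (K a41 (M a192 (F (T t77 (L l65 (T t35 (T t73 N)))))) (K a61 (M a192 (F (T t77 (L l65 (L l515 (T t35 (T t80 N))))))) (K a22 (M a192 (F (T t77 (T t21 (T t73 N))))) (K a42 (M a192 (F (T t77 (T t73 (L l22 (L l52 (T t74 N))))))) (K a62 (M a192 (F (T t77 (T t35 (L l66 (L l516 (T t80 N))))))) (K a3 (M a192 (F (T t57 (L l14 (L l477 (T t79 (L l307 (T t73 N)))))))) N))))))))))))))))))⟩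
def e0_63__65_19 : Ent 4 := ⟨[a0, a63], [a65, a25], (M a192 (F (T t21 (L l15 (T t35 (L l76 (T t202 (L l56 (T t37 (K a64 (M a66 (F (L l305 (T t203 (L l15 (T t204 (L l56 (L l305 (T t205 N))))))))) (K a128 (M a48 (F (T t206 (L l15 (T t1 (L l56 (T t31 N))))))) (K a21 (M a17 (F (T t207 (L l56 (L l347 (T t208 (L l56 (T t209 N)))))))) (K a85 (M a16 (L l141 (F (T t210 (L l56 (T t97 (L l12 (L l56 (L l94 (L l144 (T t211 (K a105 (M a125 (F (T t210 (L l56 (T t97 (L l12 (L l56 (L l94 (L l98 (L l133 (L l144 (T t211 N)))))))))))) (K a125 (M a105 (F (T t210 (L l305 (L l347 (T t212 N)))))) N))))))))))))) (K a149 (M a48 (F (L l56 (T t2 (L l170 (L l220 (T t27 (L l15 (L l170 (L l220 (L l347 (L l491 (T t213 (L l56 (L l76 (L l375 (T t214 N))))))))))))))))) (K a42 (M a8 (F (T t215 (L l15 (L l76 (L l390 (T t216 (L l15 (T t217 N))))))))) (K a106 (M a48 (F (T t27 (L l15 (T t1 (L l15 (L l411 (T t213 (L l56 (L l76 (L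 l104 (L l144 (L l390 (L l498 (T t214 N))))))))))))))) (K a170 (M a32 (F (T t218 (L l15 (T t219 (L l15 (L l71 (L l180 (L l220 (T t220 N)))))))))) (K a255 (M a16 (F (L l266 (T t210 (L l56 (L l469 (T t97 (L l12 (L l56 (T t211 N)))))))))) N))))))))))))))))))⟩
def e0_63__65_20 : Ent 4 := ⟨[a0, a63], [a65, a26], (M a192 (F (T t21 (L l18 (T t35 (L l76 (T t202 (L l54 (T t37 (K a64 (M a66 (F (L l305 (T t203 (L l18 (T t204 (L l54 (L l305 (T t205 N))))))))) (K a128 (M a12 (F (T t221 (L l18 (T t122 (L l54 (T t160 N))))))) (K a21 (M a16 (F (T t210 (L l54 (L l347 (T t222 (L l347 (T t223 N)))))))) (K a85 (M a48 (L l141 (F (T t28 (L l347 (T t20 (L l18 (L l54 (L l144 (L l368 (T t224 (K a105 (M a125 (F (T t28 (L l347 (L l515 (T t225 (L l18 (L l54 (L l98 (L l144 (L l368 (T t224 N)))))))))))) (K a125 (M a105 (F (T t28 (L l347 (T t226 N))))) N))))))))))))) (K a149 (M a12 (F (L l54 (T t151 (L l202 (L l220 (T t156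 (L l18 (L l202 (L l220 (L l347 (L l371 (T t227 (L l54 (L l76 (L l495 (T t228 N))))))))))))))))) (K a42 (M a10 (F (T t229 (L l18 (L l76 (L l390 (T t230 (L l390 (T t231 N))))))))) (K a106 (M a12 (F (T t156 (L l18 (T t122 (L l18 (L l501 (T t227 (L l54 (L l76 (L l132 (L l144 (L l390 (L l408 (T t228 N))))))))))))))) (K a170 (M a48 (F (L l18 (T t19 (L l54 (L l390 (T t206 (L l220 (L l404 (T t29 N)))))))))) (K a255 (M a224 (F (T t232 (L l76 (T t233 (L l18 (L l75 (T t234 N)))))))) N))))))))))))))))))⟩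
def e0_63__65_21 : Ent 4 := ⟨[a0, a63], [a65, a27], (M a60 (F (T t68 (L l55 (T t67 (L l17 (T t43 (L l305 (T t69 (K a20 (M a48 (F (T t138 (L l11 (L l14 (T t48 (L l11 (T t235 N)))))))) (K a40 (M a48 (F (T t48 (T t236 (L l52 (T t235 N)))))) (K a21 (M a192 (F (T t72 (L l347 (T t73 (L l347 (T t74 N))))))) (K a41 (M a192 (F (T t79 (L l65 (T t35 (T t73 N)))))) (K a61 (M a192 (F (T t72 (L l65 (L l515 (T t35 (T t80 N))))))) (K a22 (M a192 (F (T t72 (T t21 (T t73 N))))) (K a42 (M a192 (F (T t79 (T t73 (L l22 (T t74 N)))))) (K a62 (M a192 (F (T t72 (T t35 (L l66 (L l516 (T t80 N))))))) (K a3 (M a192 (F (T t237 (L l477 (T t79 (L l475 (T t35 N))))))) N))))))))))))))))))⟩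
def e0_63__65_22 : Ent 4 := ⟨[a0, a63], [a65, a28], (M a48 (F (T t1 (T t2 (L l14 (T t3 (L l13 (T t0 (K a16 (M a20 (F (T t238 (T t239 (T t240 (T t241 N)))))) (K a32 (M a60 (F (T t64 (L l14 (T t67 (L l24 (L l28 (T t65 N)))))))) (K a21 (M a192 (F (T t206 (T t27 (L l47 (L l347 (L l362 (T t29 N)))))))) (K a37 (M a192 (F (T t27 (L l47 (T t20 (T t21 N)))))) (K a53 (M a192 (F (T t37 (T t27 (T t31 N))))) (K a26 (M a192 (F (T t27 (T t20 (T t21 N))))) (K a42 (M a192 (F (T t27 (T t20 (L l28 (L l362 (T t29 N))))))) (K a58 (M a192 (F (T t21 (T t27 (L l54 (L l498 (T t31 N))))))) (K a15 (M a192 (F (T t57 (L l483 (T t27 (L l325 (T t20 N))))))) N)))))))))))))))))⟩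
def e0_63__65_23 : Ent 4 := ⟨[a0, a63], [a65, a29], (M a48 (F (T t2 (L l15 (T t1 (L l15 (T t3 (L l13 (T t0 (K a16 (M a60 (F (T t43 (L l59 (T t64 (T t65 N)))))) (K a32 (M a60 (F (T t42 (L l15 (T t67 (L l24 (L l28 (T t65 N)))))))) (K a21 (M a192 (L l15 (F (T t28 (L l47 (L l347 (L l371 (T t20 (L l47 (L l347 (L l371 (T t29 (K a17 (M a25 (F (T t27 (L l47 (L l347 (L l371 (T t20 (L l10 (L l18 (L l76 (T t46 N))))))))))) (K a25 (M a17 (F (T t27 (L l347 (L l371 (T t242 N)))))) N)))))))))))))) (K a37 (M a192 (F (T t19 (L l47 (L l371 (T t20 (L l371 (T t21 N)))))))) (K a53 (M a192 (F (T t19 (L l371 (L l491 (T t21 (T t31 N))))))) (K a26 (M a192 (F (T t28 (L l371 (T t20 (L l371 (T t21 N))))))) (K a42 (M a192 (F (T t19 (L l371 (T t20 (L l28 (L l371 (T t29 N)))))))) (K a58 (M a192 (F (T t19 (L l371 (T t21 (L l54 (L l498 (T t31 N)))))))) (K a15 (M a192 (F (T t54 (L l483 (T t27 (L l371 (L l469 (T t21 N))))))))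 N))))))))))))))))))⟩
def e0_63__65_24 : Ent 4 := ⟨[a0, a63], [a65, a30], (M a48 (F (T t48 (L l63 (T t1 (L l63 (T t2 (L l63 (T t3 (L l13 (L l63 (T t0 (K a16 (M a60 (F (T t43 (T t64 (T t65 N))))) (K a32 (M a60 (F (T t64 (T t67 (L l24 (L l28 (T t65 N))))))) (K a21 (M a192 (F (T t28 (L l47 (L l347 (T t20 (L l47 (L l347 (T t29 N))))))))) (K a37 (M a192 (F (T t19 (L l47 (T t20 (T t21 N)))))) (K a53 (M a192 (F (T t19 (L l491 (T t21 (T t31 N)))))) (K a26 (M a18 (F (T t243 (L l54 (L l63 (T t244 (L l12 (L l54 (L l57 (L l60 (T t245 N))))))))))) (K a42 (M a192 (F (T t19 (T t20 (L l28 (T t29 N)))))) (K a58 (M a192 (F (T t19 (T t21 (L l54 (L l498 (T t31 N))))))) (K a15 (M a60 (F (T t246 (L l7 (T t67 (L l3 (T t247 N))))))) N)))))))))))))))))))))⟩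
def e0_63__65_25 : Ent 4 := ⟨[a0, a63], [a65, a31], (M a60 (F (L l18 (T t67 (L l17 (T t43 (L l18 (T t68 (L l305 (T t69 (K a20 (M a48 (F (T t64 (L l11 (L l18 (T t1 (L l11 (L l18 (T t235 N))))))))) (K a40 (M a48 (F (L l18 (T t1 (T t64 (L l18 (L l52 (T t235 N)))))))) (K a21 (M a48 (L l18 (F (T t70 (L l13 (T t248 (L l11 (L l47 (L l65 (T t249 (L l13 (L l50 (T t250 (K a16 (M a26 (F (L l47 (T t251 (L l11 (T t252 (T t70 N))))))) (K a26 (Fr a16 a32 l40 (V t253)) N))))))))))))))) (K a41 (M a192 (F (T t77 (L l18 (L l65 (L l375 (T t35 (L l375 (T t73 N))))))))) (K a61 (M a192 (F (T t72 (L l18 (L l65 (L l375 (L l515 (T t35 (L l373 (T t80 N)))))))))) (K a22 (M a192 (F (T t72 (L l375 (T t21 (L l375 (T t73 N))))))) (K a42 (M a192 (F (T t77 (L l375 (T t73 (L l22 (L l375 (T t74 N)))))))) (K a62 (M a192 (F (T t72 (L l18 (L l375 (T t35 (L l66 (L l373 (L l516 (T t80 N)))))))))) (K a3 (M a192 (F (T t254 (L l18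 (L l375 (L l475 (T t35 (L l307 (L l375 (T t73 N)))))))))) N)))))))))))))))))))⟩
def e0_63__65_26 : Ent 4 := ⟨[a0, a63], [a65, a40], (M a48 (F (T t1 (L l22 (T t2 (T t3 (L l22 (L l24 (T t0 (K a16 (M a85 (F (L l18 (T t52 (L l392 (T t50 (L l22 (T t51 N)))))))) (K a32 (M a85 (L l24 (F (T t52 (L l392 (L l404 (T t50 (L l22 (L l28 (T t51 (K a36 (M a44 (F (T t255 (L l392 (L l404 (T t50 (L l22 (L l28 (T t51 N))))))))) (K a44 (M a36 (F (L l52 (T t256 (L l392 (L l404 (T t50 N))))))) N)))))))))))) (K a21 (M a192 (F (T t206 (T t27 (L l24 (L l47 (L l347 (T t29 N)))))))) (K a37 (M a192 (F (T t19 (L l47 (T t20 (T t21 N)))))) (K a53 (M a192 (F (T t19 (L l491 (T t21 (L l22 (T t31 N))))))) (K a26 (M a192 (F (T t27 (T t20 (T t21 N))))) (K a42 (M a192 (L l22 (F (T t19 (T t20 (L l24 (L l28 (T t29 (K a41 (M a43 (F (T t225 (L l29 (T t257 N))))) (K a43 (M a41 (F (T t27 (T t20 (L l76 (L l390 (L l393 (T t46 N))))))))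 N)))))))))) (K a58 (M a192 (F (T t19 (T t21 (L l22 (L l54 (L l498 (T t31 N)))))))) (K a15 (M a192 (F (T t57 (L l483 (T t27 (L l325 (T t20 N))))))) N))))))))))))))))))⟩
def e0_63__65_27 : Ent 4 := ⟨[a0, a63], [a65, a41], (M a85 (F (L l65 (T t52 (L l22 (L l76 (T t88 (L l22 (L l76 (T t89 (L l76 (T t90 (K a64 (M a16 (L l76 (F (T t258 (L l22 (T t97 (L l22 (L l116 (T t98 (K a66 (M a67 (F (T t259 (L l22 (T t97 (L l22 (L l116 (T t98 N)))))))) (K a67 (M a66 (F (T t259 (L l22 (T t97 (L l22 (L l116 (T t98 N)))))))) N))))))))))) (K a192 (M a16 (F (T t260 (L l22 (L l339 (T t97 (L l22 (L l296 (T t98 N))))))))) (K a21 (M a48 (L l65 (F (T t99 (T t50 (L l47 (T t100 (K a1 (M a61 (L l305 (F (T t261 (L l41 (T t262 (K a129 (M a193 (F (T t99 (L l41 (T t262 N))))) (K a193 (M a129 (F (T t261 (L l41 (L l485 (T t262 N)))))) N)))))))) (K a61 (M a1 (F (T t99 (L l11 (L l431 (T t263 N)))))) N))))))))) (K a149 (M a16 (F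 (T t101 (L l22 (L l375 (T t97 (L l22 (L l57 (L l170 (T t102 N)))))))))) (K a213 (Fr a170 a255 l476 (Fr a42 a21 l68 (Fr a106 a234 l390 (Fr a192 a149 l519 (V t581))))) (K a42 (M a43 (F (L l66 (T t264 (L l390 (T t265 (L l66 (T t266 (L l65 (L l76 (L l305 (L l390 (T t267 N))))))))))))) (K a106 (M a48 (F (T t99 (L l65 (T t1 (L l390 (T t50 N))))))) (K a170 (M a16 (F (L l404 (T t113 (L l22 (L l390 (T t98 (L l22 (L l390 (L l404 (T t97 (L l404 (T t174 N))))))))))))) (K a255 (M a16 (F (L l22 (T t112 (L l289 (T t113 (L l22 (L l289 (L l296 (T t98 N)))))))))) N)))))))))))))))))))))⟩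
def e0_63__65_28 : Ent 4 := ⟨[a0, a63], [a65, a43], (M a48 (F (T t1 (L l22 (T t2 (L l27 (T t3 (L l22 (T t0 (K a16 (M a60 (F (T t64 (L l22 (L l305 (T t69 (L l22 (T t268 N)))))))) (K a32 (M a60 (F (T t64 (L l22 (L l28 (L l305 (T t69 (L l22 (L l28 (T t268 N)))))))))) (K a21 (M a192 (F (T t28 (L l47 (L l347 (T t20 (L l47 (L l347 (T t29 N))))))))) (K a37 (M a192 (F (T t19 (L l47 (T t20 (T t21 N)))))) (K a53 (M a192 (F (T t19 (L l491 (T t21 (L l22 (L l393 (T t31 N)))))))) (K a26 (M a192 (F (T t28 (T t20 (T t21 N))))) (K a42 (M a192 (L l22 (F (T t19 (T t20 (L l28 (T t29 (K a40 (M a41 (F (T t27 (T t20 (L l76 (L l390 (L l393 (T t46 N)))))))) (K a41 (M a40 (F (T t27 (L l66 (L l305 (L l390 (L l393 (T t269 N)))))))) N))))))))) (K a58 (M a192 (F (T t19 (T t21 (L l22 (L l54 (L l393 (L l498 (T t31 N))))))))) (K a15 (M a192 (F (T t57 (L l483 (T t27 (L l325 (T t20 N))))))) N))))))))))))))))))⟩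
def e0_63__65_29 : Ent 4 := ⟨[a0, a63], [a65, a44], (M a48 (F (T t1 (T t2 (L l23 (T t3 (L l24 (T t0 (K a16 (M a60 (F (T t64 (L l14 (L l18 (T t67 (L l24 (T t65 N)))))))) (K a32 (M a40 (F (T t270 (T t271 (T t272 (T t273 N)))))) (K a21 (M a192 (F (T t206 (T t27 (L l24 (L l47 (L l347 (T t29 N)))))))) (K a37 (M a192 (F (T t27 (L l47 (T t20 (T t21 N)))))) (K a53 (M a192 (F (T t37 (T t27 (T t31 N))))) (K a26 (M a192 (F (T t27 (T t20 (T t21 N))))) (K a42 (M a192 (F (T t27 (T t20 (L l24 (L l28 (T t29 N))))))) (K a58 (M a192 (F (T t21 (T t27 (L l54 (L l498 (T t31 N))))))) (K a15 (M a192 (F (T t53 (L l483 (T t27 (L l469 (T t21 N))))))) N)))))))))))))))))⟩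
def e0_63__65_30 : Ent 4 := ⟨[a0, a63], [a65, a45], (M a48 (F (T t48 (L l63 (T t1 (L l63 (T t2 (L l23 (L l63 (T t3 (L l63 (T t0 (K a16 (M a60 (F (T t43 (L l59 (T t64 (T t65 N)))))) (K a32 (M a60 (F (T t67 (L l59 (T t64 (L l24 (L l28 (T t65 N)))))))) (K a21 (M a192 (F (T t28 (L l47 (L l347 (T t20 (L l47 (L l347 (T t29 N))))))))) (K a37 (M a33 (F (T t274 (L l47 (L l63 (T t275 (L l21 (L l47 (L l51 (L l59 (T t276 N))))))))))) (K a53 (M a192 (F (T t19 (L l491 (T t21 (T t31 N)))))) (K a26 (M a192 (F (T t28 (T t20 (T t21 N))))) (K a42 (M a192 (F (T t19 (T t20 (L l28 (T t29 N)))))) (K a58 (M a192 (F (T t19 (T t21 (L l54 (L l498 (T t31 N))))))) (K a15 (M a60 (F (T t277 (L l7 (T t67 (L l3 (T t247 N))))))) N)))))))))))))))))))))⟩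
def e0_63__65_31 : Ent 4 := ⟨[a0, a63], [a65, a46], (M a149 (F (T t175 (L l26 (L l76 (T t5 (L l26 (T t176 (L l76 (L l408 (T t177 (K a192 (M a53 (F (L l26 (T t178 (L l236 (T t179 (L l26 (L l81 (L l236 (L l296 (T t180 N))))))))))) (K a21 (M a48 (F (T t4 (L l408 (T t13 (L l18 (T t14 N))))))) (K a85 (M a16 (L l141 (F (L l26 (T t97 (L l144 (L l408 (T t190 (L l26 (L l94 (T t278 (K a105 (M a125 (F (L l26 (T t97 (L l98 (L l144 (L l408 (T t190 (L l26 (L l94 (L l133 (T t278 N)))))))))))) (K a125 (M a105 (F (L l26 (T t97 (L l144 (L l408 (L l431 (T t185 N)))))))) N))))))))))))) (K a213 (Fr a106 a192 l519 (Fr a42 a21 l68 (Fr a170 a234 l390 (Fr a255 a85 l476 (V t582))))) (K a42 (M a34 (F (T t279 (L l390 (L l408 (T t280 (L l56 (L l396 (T t281 (L l76 (L l390 (L l396 (L l408 (T t282 N)))))))))))))) (K a106 (M a166 (F (L l132 (T t283 (L l26 (L l390 (T t284 (L l117 (L l132 (L l396 (T t285 (L l26 (L l132 (L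 l390 (T t286 N))))))))))))))) (K a170 (M a48 (F (T t4 (L l462 (T t1 (L l390 (L l408 (T t13 N)))))))) (K a191 (M a16 (F (L l26 (T t97 (L l408 (T t190 (L l26 (L l213 (T t191 N))))))))) (K a255 (M a16 (F (T t192 (L l26 (T t193 (L l266 (L l408 (T t190 N)))))))) N))))))))))))))))))))⟩
def e0_63__65_32 : Ent 4 := ⟨[a0, a63], [a65, a47], (M a60 (F (T t68 (L l27 (T t67 (L l28 (T t43 (L l28 (L l305 (T t69 (K a20 (M a48 (F (L l28 (T t2 (T t64 (L l28 (L l46 (L l305 (T t287 N))))))))) (K a40 (M a48 (F (T t64 (L l22 (L l28 (T t2 (L l22 (L l28 (L l305 (T t287 N)))))))))) (K a21 (M a192 (F (T t72 (L l347 (L l409 (T t73 (L l347 (T t74 N)))))))) (K a41 (M a192 (F (T t77 (L l65 (T t35 (L l409 (T t73 N))))))) (K a61 (M a192 (F (T t72 (L l65 (L l515 (T t35 (L l28 (L l411 (T t80 N))))))))) (K a22 (M a192 (F (T t72 (T t21 (L l409 (T t73 N)))))) (K a42 (M a48 (L l28 (F (T t64 (L l22 (T t247 (L l23 (L l56 (T t288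 (L l22 (L l54 (L l66 (T t289 (K a32 (M a37 (F (L l54 (T t290 (L l66 (T t291 (T t64 N))))))) (K a37 (Fr a32 a16 l40 (V t292)) N))))))))))))))) (K a62 (M a192 (F (T t72 (T t35 (L l28 (L l66 (L l411 (L l516 (T t80 N))))))))) (K a3 (M a192 (F (T t237 (L l477 (T t79 (L l475 (T t35 N))))))) N)))))))))))))))))))⟩
def e0_63__65_33 : Ent 4 := ⟨[a0, a63], [a65, a60], (M a48 (F (T t48 (L l63 (T t1 (L l63 (T t2 (L l63 (T t3 (L l63 (T t0 (K a16 (M a85 (F (T t49 (L l442 (T t50 (T t51 N)))))) (K a32 (M a85 (F (L l434 (T t52 (L l404 (L l442 (T t50 (L l28 (T t51 N))))))))) (K a21 (M a192 (F (T t53 (L l442 (T t27 (L l47 (L l347 (T t29 N)))))))) (K a37 (M a192 (F (T t54 (L l442 (T t27 (L l434 (T t21 N))))))) (K a53 (M a192 (F (T t55 (L l434 (L l491 (T t21 (T t31 N))))))) (K a26 (M a192 (F (T t56 (L l442 (T t27 (L l434 (T t21 N))))))) (K a42 (M a192 (F (T t56 (L l442 (T t27 (L l28 (T t29 N))))))) (K a58 (M a192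 (F (T t57 (L l442 (T t27 (L l54 (L l498 (T t31 N)))))))) (K a15 (M a80 (L l63 (F (T t139 (T t59 (L l434 (L l469 (L l483 (T t60 (K a45 (M a30 (F (T t61 (L l39 (T t293 N))))) (K a30 (M a45 (F (T t61 (L l39 (L l305 (T t294 N)))))) N))))))))))) N))))))))))))))))))))⟩
def e0_63__65_34 : Ent 4 := ⟨[a0, a63], [a65, a61], (M a48 (F (T t2 (L l35 (L l65 (T t1 (L l65 (T t3 (T t0 (K a16 (M a85 (F (T t168 (T t50 (T t51 N))))) (K a32 (M a85 (F (L l65 (T t52 (L l404 (T t50 (L l28 (T t51 N)))))))) (K a21 (M a149 (L l65 (F (T t4 (T t13 (L l18 (T t14 (K a1 (M a41 (L l305 (F (T t7 (L l18 (T t14 (T t13 (K a129 (M a193 (F (T t16 (L l152 (T t13 (L l18 (L l152 (T t14 N)))))))) (K a193 (M a129 (F (T t7 (L l76 (L l431 (T t10 (L l18 (L l233 (T t14 N))))))))) N))))))))) (K a41 (M a1 (F (T t16 (L l18 (L l29 (T t295 N)))))) N))))))))) (K a37 (M a192 (F (T t19 (L l35 (L l47 (L l515 (T t20 (L l515 (T t21 N))))))))) (K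 a53 (M a49 (F (T t296 (T t297 (L l31 (L l47 (L l59 (L l65 (T t298 (L l59 (T t299 N))))))))))) (K a26 (M a192 (F (T t28 (L l35 (L l515 (T t20 (L l515 (T t21 N)))))))) (K a42 (M a192 (F (T t19 (L l35 (L l515 (T t20 (L l28 (L l35 (L l515 (T t29 N)))))))))) (K a58 (M a192 (F (T t19 (L l515 (T t21 (L l54 (L l498 (T t31 N)))))))) (K a15 (M a192 (F (T t54 (L l483 (T t27 (L l469 (L l515 (T t21 N)))))))) N))))))))))))))))))⟩
def e0_63__65_35 : Ent 4 := ⟨[a0, a63], [a65, a62], (M a48 (F (T t1 (L l36 (L l66 (T t2 (T t3 (L l66 (T t0 (K a16 (M a85 (F (L l18 (T t52 (T t50 (L l36 (L l66 (T t51 N)))))))) (K a32 (M a85 (F (T t52 (L l404 (T t50 (L l28 (L l36 (L l66 (T t51 N))))))))) (K a21 (M a192 (F (T t28 (L l47 (L l347 (T t20 (L l47 (L l347 (T t29 N))))))))) (K a37 (M a192 (F (T t19 (L l47 (T t20 (T t21 N)))))) (K a53 (M a192 (F (T t19 (L l491 (T t21 (L l66 (L l516 (T t31 N)))))))) (K a26 (M a192 (F (T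 t28 (T t20 (T t21 N))))) (K a42 (M a192 (L l66 (F (T t19 (T t20 (L l28 (T t29 (K a2 (M a22 (F (T t27 (T t20 (L l76 (L l390 (L l516 (T t46 N)))))))) (K a22 (M a2 (F (T t19 (L l22 (L l305 (L l390 (L l516 (T t300 N)))))))) N))))))))) (K a58 (M a50 (F (T t301 (L l54 (L l60 (L l66 (T t302 (T t303 N)))))))) (K a15 (M a192 (F (T t57 (L l483 (T t27 (L l325 (T t20 N))))))) N))))))))))))))))))⟩
def e0_63__65_36 : Ent 4 := ⟨[a0, a63], [a65, a64], (M a48 (L l76 (F (T t1 (T t2 (T t3 (T t0 (K a16 (M a106 (L l76 (F (T t304 (L l18 (T t305 (L l18 (T t306 (K a66 (M a67 (F (T t304 (L l18 (L l309 (T t305 (L l18 (T t306 N)))))))) (K a67 (M a66 (F (T t307 (L l18 (T t308 N))))) N)))))))))) (K a32 (M a106 (L l76 (F (T t309 (L l141 (T t310 (T t306 (K a66 (M a67 (F (T t304 (L l141 (L l309 (T t311 (T t306 N))))))) (K a67 (M a66 (F (T t307 (T t308 N)))) N))))))))) (K a21 (M a101 (L l76 (F (T t312 (L l116 (T t313 (L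 l18 (T t314 (K a66 (M a67 (F (T t312 (L l309 (T t315 (L l18 (T t314 N))))))) (K a67 (M a66 (F (T t312 (T t315 (L l18 (T t314 N)))))) N)))))))))) (K a37 (M a170 (L l76 (F (T t316 (L l47 (T t317 (L l47 (T t318 (K a66 (M a67 (F (T t319 (L l47 (L l141 (L l144 (L l309 (T t320 (L l309 (T t321 N)))))))))) (K a67 (M a66 (F (T t319 (L l47 (T t322 N))))) N)))))))))) (K a53 (M a170 (L l76 (F (T t323 (L l47 (T t317 (L l47 (L l116 (T t324 (K a66 (M a67 (F (T t325 (L l47 (L l141 (L l144 (L l309 (T t320 (L l47 (L l116 (T t324 N))))))))))) (K a67 (M a66 (F (T t325 (L l47 (T t322 N))))) N))))))))))) (K a26 (M a154 (L l76 (F (T t326 (T t327 (L l18 (T t328 (K a66 (M a67 (F (T t329 (T t330 (L l54 (T t331 N)))))) (K a67 (M a66 (F (T t329 (T t332 N)))) N))))))))) (K a42 (M a101 (L l76 (F (T t333 (T t334 (L l54 (T t314 (K a66 (M a67 (F (T t335 (T t336 (L l54 (T t314 N)))))) (K a67 (M a66 (F (T t335 (T t336 (L l54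 (T t314 N)))))) N))))))))) (K a58 (M a170 (L l76 (F (T t316 (T t317 (L l116 (T t324 (K a66 (M a67 (F (T t337 (L l141 (L l144 (L l309 (T t320 (L l116 (T t324 N))))))))) (K a67 (M a66 (F (T t337 (T t322 N)))) N))))))))) (K a15 (M a2 (L l76 (F (L l305 (T t338 (L l73 (L l305 (T t339 (T t340 (K a66 (M a67 (F (L l305 (T t341 (L l73 (L l305 (T t339 (T t340 N)))))))) (K a67 (M a66 (F (L l305 (T t342 (T t343 N))))) N))))))))))) (K a66 (M a67 (F (T t1 (T t2 (T t3 (T t0 (K a16 (M a3 (F (T t344 (L l10 (T t345 N))))) (K a32 (M a3 (F (T t344 (L l28 (T t345 N))))) (K a21 (M a112 (F (L l144 (T t346 (L l18 (L l118 (L l306 (T t347 N)))))))) (K a37 (M a112 (F (L l144 (T t346 (L l118 (L l306 (T t347 N))))))) (K a53 (M a3 (F (T t348 (L l144 (T t349 N))))) (K a26 (M a112 (F (T t350 (L l18 (L l118 (L l306 (T t347 N))))))) (K a42 (M a112 (F (T t350 (L l118 (L l306 (T t347 N)))))) (K a58 (M a3 (F (T t348 (L l144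 (T t349 N))))) (K a15 (M a112 (F (T t350 (L l118 (L l306 (L l337 (T t347 N))))))) N))))))))))))))) (K a67 (M a66 (F (T t1 (T t2 (T t3 (T t0 (K a16 (M a192 (F (T t20 (L l14 (L l305 (T t205 N)))))) (K a32 (M a192 (F (T t225 (L l28 (L l305 (T t205 N)))))) (K a21 (M a192 (F (L l347 (T t225 (L l18 (L l305 (T t351 N))))))) (K a37 (M a192 (F (T t225 (L l305 (T t351 N))))) (K a53 (M a2 (F (L l305 (T t339 (L l47 (T t343 N)))))) (K a26 (M a192 (F (T t225 (L l16 (L l18 (L l305 (T t351 N))))))) (K a42 (M a192 (F (T t225 (L l305 (T t351 N))))) (K a58 (M a2 (F (L l305 (T t342 (T t343 N))))) (K a15 (M a192 (F (T t33 (L l73 (L l305 (T t351 N)))))) N))))))))))))))) N))))))))))))))))))⟩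
def e0_63__65_37 : Ent 4 := ⟨[a0, a63], [a65, a66], (M a85 (L l76 (F (T t52 (T t168 (L l309 (T t352 (K a192 (M a3 (L l76 (F (L l514 (T t353 (L l292 (L l306 (T t354 (L l228 (T t355 (K a64 (M a67 (F (T t356 (L l296 (L l305 (L l306 (T t357 (L l305 (L l514 (T t358 N)))))))))) (K a67 (M a64 (F (T t359 (L l514 (T t137 N))))) N)))))))))))) (K a21 (M a48 (L l76 (F (T t99 (T t50 (L l47 (T t100 (K a64 (M a67 (F (T t360 (T t50 (L l47 (T t361 (L l47 (L l309 (T t362 N))))))))) (K a67 (M a64 (F (T t359 (L l121 (T t363 N))))) N))))))))) (K a149 (M a16 (L l76 (F (T t112 (L l81 (T t173 (L l170 (T t102 (K a64 (M a67 (F (T t101 (L l375 (T t97 (L l170 (T t102 N))))))) (K a67 (M a64 (F (L l220 (T t359 (L l375 (T t97 N)))))) N)))))))))) (K a213 (Fr a170 a255 l476 (Fr a42 a21 l68 (Fr a106 a234 l390 (Fr a192 a149 l519 (V t581))))) (K a42 (M a48 (L l76 (F (T t364 (L l390 (T t50 (L l28 (T t100 (K a64 (M a67 (F (T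 t365 (L l390 (T t50 (L l28 (L l54 (T t366 (L l28 (L l309 (T t362 N))))))))))) (K a67 (M a64 (F (T t367 (L l28 (T t360 N))))) N)))))))))) (K a106 (M a86 (L l76 (F (T t368 (L l390 (T t369 (L l305 (L l393 (T t370 (L l305 (L l309 (T t371 (K a64 (M a67 (F (T t368 (L l140 (L l390 (T t369 (L l305 (L l393 (T t370 (L l140 (T t372 N))))))))))) (K a67 (M a64 (F (L l390 (T t373 (L l305 (L l393 (T t374 (L l143 (T t375 N))))))))) N)))))))))))))) (K a170 (M a3 (L l76 (F (L l392 (T t353 (L l306 (L l474 (T t376 (L l390 (T t377 (L l305 (L l306 (L l390 (L l474 (T t357 (K a64 (M a67 (F (T t349 (L l305 (L l306 (L l390 (L l474 (T t357 N)))))))) (K a67 (M a64 (F (L l220 (T t367 (L l392 (T t353 N)))))) N))))))))))))))))) (K a234 (Fr a170 a255 l476 (Fr a21 a42 l68 (Fr a149 a213 l347 (Fr a192 a106 l519 (V t583))))) (K a255 (M a16 (L l76 (F (T t112 (L l289 (T t113 (L l289 (L l296 (T t98 (K a64 (M a67 (F (T t112 (L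 l289 (L l296 (T t379 (L l116 (L l289 (L l296 (T t98 (L l289 (L l296 (L l309 (T t380 N)))))))))))))) (K a67 (M a64 (F (T t367 (L l469 (T t97 N))))) N))))))))))) (K a64 (M a67 (F (L l140 (T t381 (L l140 (T t382 (L l305 (T t383 (L l140 (T t384 (K a128 (Fr a255 a170 l476 (Fr a21 a42 l68 (Fr a149 a213 l347 (V t385)))) (K a149 (M a16 (F (T t101 (L l375 (T t97 (L l170 (T t102 N))))))) (K a170 (M a3 (F (T t349 (L l305 (L l306 (L l390 (L l474 (T t357 N)))))))) (K a87 (M a240 (F (T t386 (L l93 (T t387 N))))) (K a107 (M a60 (F (T t114 (T t388 N)))) (K a127 (M a16 (F (T t259 (T t97 (L l116 (T t98 N)))))) (K a191 (M a16 (F (T t258 (T t97 (L l116 (L l213 (T t98 N))))))) (K a255 (M a3 (F (L l434 (T t353 (L l261 (L l306 (T t389 (L l296 (T t377 N))))))))) N)))))))))))))))))) (K a67 (M a64 (F (T t367 (T t359 (L l309 (T t390 N)))))) N))))))))))))))))))⟩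
def e0_63__65_38 : Ent 4 := ⟨[a0, a63], [a65, a67], (M a48 (L l76 (F (T t1 (T t2 (T t3 (T t0 (K a16 (M a192 (L l76 (F (T t37 (T t20 (L l18 (L l121 (L l340 (T t391 (K a64 (M a66 (F (T t20 (L l14 (L l305 (T t205 N)))))) (K a66 (Fr a64 a128 l304 (V t392)) N))))))))))) (K a32 (M a106 (L l76 (F (T t393 (T t309 (T t306 (K a64 (M a66 (F (T t307 (T t308 N)))) (K a66 (M a64 (F (T t394 (L l143 (T t395 N))))) N)))))))) (K a21 (M a192 (L l76 (F (T t28 (L l47 (L l347 (T t20 (L l47 (L l347 (T t29 (K a64 (M a66 (F (L l347 (T t225 (L l18 (L l305 (T t351 N))))))) (K a66 (Fr a64 a128 l304 (V t396)) N)))))))))))) (K a37 (M a192 (L l76 (F (T t19 (L l143 (T t21 (L l47 (T t20 (K a64 (M a66 (F (T t225 (L l305 (T t351 N))))) (K a66 (Fr a64 a128 l304 (V t392)) N)))))))))) (K a53 (M a192 (L l76 (F (T t19 (L l143 (L l491 (T t21 (T t31 (K a64 (M a66 (F (L l305 (T t351 (L l116 (L l144 (T t31 (L l305 (L l491 (T t203 N))))))))))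 (K a66 (Fr a64 a128 l304 (V t392)) N)))))))))) (K a26 (M a192 (L l76 (F (T t28 (L l143 (T t21 (T t20 (K a64 (M a66 (F (T t225 (L l16 (L l18 (L l305 (T t351 N))))))) (K a66 (Fr a64 a128 l304 (V t392)) N))))))))) (K a42 (M a192 (L l76 (F (T t19 (T t20 (L l28 (T t29 (K a64 (M a66 (F (T t225 (L l305 (T t351 N))))) (K a66 (Fr a64 a128 l304 (V t396)) N))))))))) (K a58 (M a192 (L l76 (F (T t19 (L l143 (T t21 (L l54 (L l498 (T t31 (K a64 (M a66 (F (L l305 (T t203 (L l54 (L l116 (L l144 (L l498 (T t31 (L l305 (T t351 N))))))))))) (K a66 (Fr a64 a128 l304 (V t392)) N))))))))))) (K a15 (M a192 (L l76 (F (T t57 (L l121 (L l483 (T t27 (L l325 (T t20 (K a64 (M a66 (F (T t33 (L l73 (L l305 (T t351 N)))))) (K a66 (Fr a64 a128 l304 (V t392)) N))))))))))) (K a64 (M a66 (F (T t1 (T t2 (T t3 (T t0 (K a16 (M a192 (F (T t20 (L l14 (L l305 (T t205 N)))))) (K a32 (M a192 (F (T t225 (L l28 (L l305 (T t205 N))))))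 (K a21 (M a192 (F (L l347 (T t225 (L l18 (L l305 (T t351 N))))))) (K a37 (M a192 (F (T t225 (L l305 (T t351 N))))) (K a53 (M a2 (F (L l305 (T t339 (L l47 (T t343 N)))))) (K a26 (M a192 (F (T t225 (L l16 (L l18 (L l305 (T t351 N))))))) (K a42 (M a192 (F (T t225 (L l305 (T t351 N))))) (K a58 (M a2 (F (L l305 (T t342 (T t343 N))))) (K a15 (M a192 (F (T t33 (L l73 (L l305 (T t351 N)))))) N))))))))))))))) (K a66 (M a64 (F (T t2 (L l121 (T t363 (L l143 (T t397 N))))))) N))))))))))))))))))⟩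
def e0_63__65_39 : Ent 4 := ⟨[a0, a63], [a65, a68], (M a48 (F (T t1 (T t2 (T t3 (T t0 (K a16 (M a60 (F (T t43 (T t64 (T t65 N))))) (K a32 (M a60 (F (T t67 (T t64 (L l24 (L l28 (T t65 N))))))) (K a21 (M a192 (F (T t28 (L l47 (L l347 (T t20 (L l47 (L l347 (T t29 N))))))))) (K a37 (M a192 (F (T t19 (L l47 (T t20 (T t21 N)))))) (K a53 (M a192 (F (T t19 (L l491 (T t21 (T t31 N)))))) (K a26 (M a192 (F (T t28 (T t20 (T t21 N))))) (K a42 (M a192 (F (T t19 (T t20 (L l28 (T t29 N)))))) (K a58 (M a192 (F (T t19 (T t21 (L l54 (L l498 (T t31 N))))))) (K a15 (M a192 (F (T t57 (L l483 (T t27 (L l325 (T t20 N))))))) N)))))))))))))))⟩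
def e0_63__65_40 : Ent 4 := ⟨[a0, a63], [a65, a69], (M a60 (L l81 (F (T t67 (T t43 (T t68 (L l305 (L l329 (T t69 (K a20 (M a12 (L l81 (F (T t151 (T t398 (L l11 (L l46 (L l314 (T t399 (K a73 (M a77 (F (T t151 (L l141 (T t400 N))))) (K a77 (M a73 (F (T t151 (L l314 (L l350 (T t401 (T t402 N))))))) N))))))))))) (K a40 (M a12 (L l81 (F (T t122 (T t398 (L l24 (L l314 (T t399 (K a73 (M a77 (F (T t122 (L l141 (T t400 N))))) (K a77 (M a73 (F (T t122 (L l314 (T t401 (L l24 (T t402 N))))))) N)))))))))) (K a21 (M a105 (L l81 (F (T t403 (L l11 (T t404 (L l11 (L l305 (T t405 (K a73 (M a77 (F (T t403 (L l11 (L l338 (T t404 (L l11 (L l305 (L l335 (T t406 N)))))))))) (K a77 (M a73 (F (T t403 (L l11 (T t407 N))))) N))))))))))) (K a41 (M a12 (L l81 (F (T t408 (L l22 (T t151 (L l22 (T t409 (K a73 (M a77 (F (T t410 (T t411 N)))) (K a77 (M a73 (F (T t408 (L l314 (T t412 N))))) N)))))))))) (K a61 (M a8 (L l81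 (F (L l314 (T t413 (L l65 (L l314 (T t414 (L l65 (T t415 (K a73 (M a77 (F (L l314 (T t413 (L l65 (L l314 (T t414 (L l65 (T t415 N))))))))) (K a77 (M a73 (F (L l65 (L l314 (T t414 (L l443 (T t416 N))))))) N)))))))))))) (K a22 (M a12 (L l81 (F (T t398 (L l11 (T t122 (L l51 (T t409 (K a73 (M a77 (F (T t417 (T t411 N)))) (K a77 (M a73 (F (T t398 (L l11 (L l314 (L l348 (T t412 N))))))) N)))))))))) (K a42 (M a105 (L l81 (F (T t418 (T t404 (L l66 (L l305 (T t405 (K a73 (M a77 (F (T t403 (L l123 (T t419 (L l66 (L l305 (L l335 (T t406 N))))))))) (K a77 (M a73 (F (T t420 (T t407 N)))) N)))))))))) (K a62 (M a8 (L l81 (F (L l314 (T t413 (L l314 (T t414 (L l36 (T t415 (K a73 (M a77 (F (L l314 (T t414 (L l314 (T t413 (L l36 (T t415 N)))))))) (K a77 (M a73 (F (L l314 (T t414 (T t416 N))))) N))))))))))) (K a3 (M a12 (L l81 (F (T t421 (L l43 (T t122 (L l7 (T t398 (K a73 (M a77 (F (T t422 (L l43 (T t151 N)))))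 (K a77 (M a73 (F (T t423 (L l314 (T t412 N))))) N)))))))))) (K a73 (M a77 (F (T t67 (T t43 (T t68 (L l305 (L l329 (T t69 (K a20 (M a12 (F (T t151 (L l141 (T t400 N))))) (K a40 (M a12 (F (T t122 (L l141 (T t400 N))))) (K a21 (M a12 (F (L l11 (T t410 (T t411 N))))) (K a41 (M a12 (F (T t410 (T t411 N)))) (K a61 (M a12 (F (T t151 (L l141 (L l431 (T t400 N)))))) (K a22 (M a12 (F (T t417 (T t411 N)))) (K a42 (M a12 (F (L l28 (T t410 (T t411 N))))) (K a62 (M a12 (F (T t122 (L l141 (L l504 (T t400 N)))))) (K a3 (M a12 (F (T t422 (L l43 (T t151 N))))) N))))))))))))))))) (K a77 (M a73 (F (T t67 (T t43 (T t68 (L l305 (L l329 (T t69 (K a20 (M a149 (F (T t424 (L l305 (T t425 N))))) (K a40 (M a149 (F (T t175 (L l305 (T t425 N))))) (K a21 (M a56 (F (L l47 (T t199 (L l11 (T t426 N)))))) (K a41 (M a8 (F (L l65 (L l314 (T t414 (T t416 N)))))) (K a61 (M a8 (F (L l65 (L l314 (T t414 (L l443 (T t416 N)))))))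 (K a22 (M a56 (F (L l51 (T t199 (L l11 (T t426 N)))))) (K a42 (M a56 (F (T t427 (T t426 N)))) (K a62 (M a8 (F (L l314 (T t414 (T t416 N))))) (K a3 (M a8 (F (L l314 (T t428 (T t416 N))))) N))))))))))))))))) N))))))))))))))))))))⟩
def e0_63__65_41 : Ent 4 := ⟨[a0, a63], [a65, a70], (M a48 (F (T t1 (T t2 (T t3 (T t0 (K a16 (M a60 (F (T t64 (L l14 (L l18 (L l333 (T t67 (T t65 N)))))))) (K a32 (M a60 (F (T t64 (L l333 (T t67 (L l24 (L l28 (T t65 N)))))))) (K a21 (M a192 (F (T t28 (L l47 (L l347 (T t20 (L l47 (L l347 (T t29 N))))))))) (K a37 (M a192 (F (T t19 (L l47 (T t20 (T t21 N)))))) (K a53 (M a192 (F (T t19 (L l491 (T t21 (T t31 N)))))) (K a26 (M a192 (F (T t28 (T t20 (T t21 N))))) (K a42 (M a192 (F (T t19 (T t20 (L l28 (T t29 N)))))) (K a58 (M a192 (F (T t19 (T t21 (L l54 (L l498 (T t31 N))))))) (K a15 (M a192 (F (T t57 (L l483 (T t27 (L l325 (T t20 N))))))) N)))))))))))))))⟩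
def e0_63__65_42 : Ent 4 := ⟨[a0, a63], [a65, a71], (M a48 (F (T t1 (T t2 (T t3 (T t0 (K a16 (M a60 (F (T t64 (L l14 (L l18 (L l331 (T t67 (T t65 N)))))))) (K a32 (M a60 (F (T t64 (L l331 (T t67 (L l24 (L l28 (T t65 N)))))))) (K a21 (M a192 (F (T t28 (L l47 (L l331 (L l347 (T t20 (L l47 (L l347 (T t29 N)))))))))) (K a37 (M a192 (F (T t19 (L l47 (L l331 (T t20 (T t21 N))))))) (K a53 (M a192 (F (T t19 (L l491 (T t21 (T t31 N)))))) (K a26 (M a192 (F (T t28 (L l331 (T t20 (T t21 N)))))) (K a42 (M a192 (F (T t19 (L l331 (T t20 (L l28 (T t29 N))))))) (K a58 (M a192 (F (T t19 (T t21 (L l54 (L l498 (T t31 N))))))) (K a15 (M a192 (F (T t54 (L l483 (T t27 (L l469 (T t21 N))))))) N)))))))))))))))⟩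
def e0_63__65_43 : Ent 4 := ⟨[a0, a63], [a65, a72], (M a48 (F (T t1 (T t2 (T t3 (T t0 (K a16 (M a60 (F (T t43 (T t64 (T t65 N))))) (K a32 (M a60 (F (T t67 (T t64 (L l24 (L l28 (T t65 N))))))) (K a21 (M a192 (F (T t28 (L l47 (L l347 (T t20 (L l47 (L l347 (T t29 N))))))))) (K a37 (M a192 (F (T t19 (L l47 (T t20 (T t21 N)))))) (K a53 (M a192 (F (T t19 (L l491 (T t21 (L l132 (T t31 N))))))) (K a26 (M a192 (F (T t28 (T t20 (T t21 N))))) (K a42 (M a192 (F (T t19 (T t20 (L l28 (T t29 N)))))) (K a58 (M a192 (F (T t19 (T t21 (L l54 (L l132 (L l498 (T t31 N)))))))) (K a15 (M a192 (F (T t33 (L l483 (T t27 (L l469 (T t21 N))))))) N)))))))))))))))⟩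
def e0_63__65_44 : Ent 4 := ⟨[a0, a63], [a65, a73], (M a48 (L l81 (F (T t1 (T t2 (T t3 (T t0 (K a16 (M a60 (L l81 (F (T t43 (T t64 (T t65 (K a69 (M a77 (F (T t70 (L l305 (L l329 (T t69 (L l14 (L l18 (T t44 N))))))))) (K a77 (M a69 (F (T t43 (L l147 (L l320 (L l340 (T t429 N))))))) N)))))))) (K a32 (M a60 (L l81 (F (T t67 (T t64 (L l24 (L l28 (T t65 (K a69 (M a77 (F (T t70 (L l28 (L l305 (L l329 (T t69 (T t44 N)))))))) (K a77 (M a69 (F (T t68 (L l147 (L l320 (L l404 (T t429 N))))))) N)))))))))) (K a21 (M a101 (L l81 (F (T t312 (T t313 (L l18 (T t314 (K a69 (M a77 (F (T t430 (L l18 (L l311 (T t431 N)))))) (K a77 (M a69 (F (T t432 (L l18 (T t433 N))))) N))))))))) (K a37 (M a101 (L l81 (F (T t335 (T t313 (T t314 (K a69 (M a77 (F (T t430 (L l311 (T t431 N))))) (K a77 (M a69 (F (T t432 (T t433 N)))) N)))))))) (K a53 (M a170 (L l81 (F (T t323 (L l47 (T t317 (L l47 (T t324 (K a69 (M a77 (F (T t434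 (L l117 (L l314 (T t435 N)))))) (K a77 (M a69 (F (T t436 (T t434 N)))) N)))))))))) (K a26 (M a101 (L l81 (F (T t312 (L l54 (T t313 (L l18 (L l54 (T t314 (K a69 (M a77 (F (L l117 (L l354 (T t437 (L l18 (L l54 (L l311 (T t431 N))))))))) (K a77 (M a69 (F (T t432 (L l18 (T t433 N))))) N))))))))))) (K a42 (M a101 (L l81 (F (T t335 (L l54 (T t313 (L l54 (T t314 (K a69 (M a77 (F (T t430 (L l54 (L l311 (T t431 N)))))) (K a77 (M a69 (F (T t432 (T t433 N)))) N)))))))))) (K a58 (M a170 (L l81 (F (T t319 (T t317 (T t324 (K a69 (M a77 (F (T t438 (L l117 (L l314 (T t435 N)))))) (K a77 (M a69 (F (T t436 (T t439 N)))) N)))))))) (K a15 (M a101 (L l81 (F (T t440 (L l320 (L l325 (T t334 (T t314 (K a69 (M a77 (F (T t430 (L l311 (T t431 N))))) (K a77 (M a69 (F (T t432 (T t433 N)))) N)))))))))) (K a69 (M a77 (F (T t1 (L l311 (T t2 (T t3 (T t0 (K a16 (M a12 (F (L l320 (T t153 (L l117 (L l368 (T t441 N))))))) (K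 a32 (M a12 (F (T t442 (L l28 (L l320 (T t153 N)))))) (K a21 (M a12 (F (T t443 (L l123 (T t444 N))))) (K a37 (M a12 (F (T t445 (L l123 (L l383 (T t444 N)))))) (K a53 (M a12 (F (T t151 (L l117 (T t441 N))))) (K a26 (M a12 (F (T t443 (L l123 (T t444 N))))) (K a42 (M a12 (F (T t445 (L l123 (T t444 N))))) (K a58 (M a12 (F (T t122 (L l117 (L l498 (T t441 N)))))) (K a15 (M a12 (F (T t442 (L l73 (L l320 (T t153 N)))))) N)))))))))))))))) (K a77 (M a69 (F (T t2 (L l320 (T t446 (L l147 (L l320 (T t429 N)))))))) N))))))))))))))))))⟩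
def e0_63__65_45 : Ent 4 := ⟨[a0, a63], [a65, a74], (M a60 (F (T t67 (T t43 (T t68 (L l305 (T t69 (K a20 (M a48 (F (T t64 (L l11 (L l318 (L l339 (T t1 (L l11 (T t235 N))))))))) (K a40 (M a48 (F (T t64 (L l318 (L l339 (T t1 (L l52 (T t235 N)))))))) (K a21 (M a192 (F (T t72 (L l347 (T t73 (L l347 (T t74 N))))))) (K a41 (M a192 (F (T t77 (L l65 (T t35 (T t73 N)))))) (K a61 (M a192 (F (T t72 (L l65 (L l515 (T t35 (L l130 (T t80 N)))))))) (K a22 (M a192 (F (T t72 (T t21 (T t73 N))))) (K a42 (M a192 (F (T t79 (T t73 (L l22 (T t74 N)))))) (K a62 (M a192 (F (T t72 (T t35 (L l66 (L l130 (L l516 (T t80 N)))))))) (K a3 (M a85 (F (T t447 (T t115 N)))) N))))))))))))))))⟩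
def e0_63__65_46 : Ent 4 := ⟨[a0, a63], [a65, a75], (M a12 (F (T t122 (T t151 (T t152 (T t153 (K a4 (M a60 (F (T t43 (L l337 (T t398 (T t448 N)))))) (K a8 (M a60 (F (T t67 (L l337 (T t398 (L l52 (L l56 (T t448 N)))))))) (K a21 (M a192 (F (T t221 (T t156 (L l15 (L l347 (T t157 N))))))) (K a25 (M a192 (F (T t449 (L l15 (T t450 (T t21 N)))))) (K a29 (M a192 (F (T t449 (L l371 (T t21 (L l78 (T t160 N))))))) (K a38 (M a192 (F (T t450 (T t156 (T t21 N))))) (K a42 (M a192 (F (T t449 (T t450 (L l56 (T t157 N)))))) (K a46 (M a192 (F (T t449 (T t21 (L l26 (L l78 (L l408 (T t160 N)))))))) (K a51 (M a192 (F (T t57 (L l513 (T t156 (L l415 (T t450 N))))))) N)))))))))))))))⟩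
def e0_63__65_47 : Ent 4 := ⟨[a0, a63], [a65, a76], (M a48 (F (T t1 (T t2 (T t3 (T t0 (K a16 (M a60 (F (T t43 (T t64 (T t65 N))))) (K a32 (M a60 (F (T t67 (T t64 (L l24 (L l28 (T t65 N))))))) (K a21 (M a192 (F (T t28 (L l47 (L l347 (T t20 (L l47 (L l347 (T t29 N))))))))) (K a37 (M a192 (F (T t19 (L l47 (T t20 (L l138 (T t21 N))))))) (K a53 (M a192 (F (T t19 (L l138 (L l491 (T t21 (T t31 N))))))) (K a26 (M a192 (F (T t28 (T t20 (L l138 (T t21 N)))))) (K a42 (M a192 (F (T t19 (T t20 (L l28 (T t29 N)))))) (K a58 (M a192 (F (T t19 (L l138 (T t21 (L l54 (L l498 (T t31 N)))))))) (K a15 (M a192 (F (T t57 (L l146 (L l483 (T t27 (L l325 (T t20 N)))))))) N)))))))))))))))⟩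
def e0_63__65_48 : Ent 4 := ⟨[a0, a63], [a65, a77], (M a60 (L l81 (F (T t67 (T t43 (T t68 (L l305 (T t69 (K a20 (M a48 (L l81 (F (T t2 (T t64 (L l11 (T t235 (K a69 (M a73 (F (T t451 (L l311 (T t2 (L l11 (T t235 N))))))) (K a73 (M a69 (F (T t451 (L l320 (T t446 N))))) N))))))))) (K a40 (M a48 (L l81 (F (T t1 (T t64 (L l52 (T t235 (K a69 (M a73 (F (T t70 (L l22 (L l311 (T t2 (L l52 (T t235 N)))))))) (K a73 (M a69 (F (T t1 (L l135 (L l320 (T t452 N)))))) N))))))))) (K a21 (M a105 (L l81 (F (T t403 (L l11 (T t404 (L l11 (L l305 (T t405 (K a69 (M a73 (F (T t403 (L l11 (T t407 N))))) (K a73 (M a69 (F (T t403 (L l11 (L l117 (L l320 (T t453 N))))))) N))))))))))) (K a41 (M a8 (L l81 (F (T t454 (L l65 (T t414 (L l53 (L l65 (T t415 (K a69 (M a73 (F (L l65 (L l314 (T t414 (T t416 N)))))) (K a73 (M a69 (F (T t454 (L l323 (T t455 N))))) N))))))))))) (K a61 (M a170 (L l81 (F (T t456 (T t457 (L l65 (T t458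 (K a69 (M a73 (F (T t434 (L l443 (T t459 N))))) (K a73 (M a69 (F (T t460 (L l65 (T t458 N))))) N))))))))) (K a22 (M a149 (L l81 (F (T t461 (L l11 (T t175 (L l11 (L l66 (L l305 (T t462 (K a69 (M a73 (F (T t463 (L l66 (L l305 (T t425 N)))))) (K a73 (M a69 (F (T t463 (L l66 (L l320 (T t464 N)))))) N)))))))))))) (K a42 (M a105 (L l81 (F (T t418 (T t404 (L l66 (L l305 (T t405 (K a69 (M a73 (F (T t420 (T t407 N)))) (K a73 (M a69 (F (T t403 (L l117 (L l320 (T t453 N)))))) N)))))))))) (K a62 (M a170 (L l81 (F (T t317 (T t457 (T t458 (K a69 (M a73 (F (T t317 (T t459 N)))) (K a73 (M a69 (F (T t460 (T t458 N)))) N)))))))) (K a3 (M a8 (L l81 (F (T t428 (L l45 (T t413 (T t415 (K a69 (M a73 (F (L l314 (T t428 (T t416 N))))) (K a73 (M a69 (F (T t428 (L l323 (L l333 (T t455 N)))))) N))))))))) (K a69 (M a73 (F (T t67 (T t43 (T t68 (L l305 (L l329 (T t69 (K a20 (M a149 (F (T t424 (L l305 (T t425 N))))) (K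 a40 (M a149 (F (T t175 (L l305 (T t425 N))))) (K a21 (M a56 (F (L l47 (T t199 (L l11 (T t426 N)))))) (K a41 (M a8 (F (L l65 (L l314 (T t414 (T t416 N)))))) (K a61 (M a8 (F (L l65 (L l314 (T t414 (L l443 (T t416 N))))))) (K a22 (M a56 (F (L l51 (T t199 (L l11 (T t426 N)))))) (K a42 (M a56 (F (T t427 (T t426 N)))) (K a62 (M a8 (F (L l314 (T t414 (T t416 N))))) (K a3 (M a8 (F (L l314 (T t428 (T t416 N))))) N))))))))))))))))) (K a73 (M a69 (F (T t43 (L l135 (L l320 (T t452 (K a61 (M a64 (F (T t465 (L l78 (L l320 (T t466 N)))))) (K a62 (M a64 (F (T t465 (L l78 (L l320 (L l516 (T t466 N))))))) N)))))))) N)))))))))))))))))))⟩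
def e0_63__65_49 : Ent 4 := ⟨[a0, a63], [a65, a78], (M a12 (F (T t122 (T t151 (T t152 (T t153 (K a4 (M a60 (F (T t43 (L l324 (L l327 (T t398 (T t448 N))))))) (K a8 (M a60 (F (T t67 (L l324 (L l327 (T t398 (L l52 (L l56 (T t448 N))))))))) (K a21 (M a192 (F (T t221 (L l79 (L l327 (T t156 (L l15 (L l347 (T t157 N))))))))) (K a25 (M a192 (F (T t467 (L l79 (L l327 (T t156 (T t21 N))))))) (K a29 (M a192 (F (T t37 (L l79 (L l327 (T t156 (T t160 N))))))) (K a38 (M a192 (F (T t450 (L l79 (L l327 (T t156 (T t21 N))))))) (K a42 (M a192 (F (T t450 (L l79 (L l327 (T t156 (L l56 (T t157 N)))))))) (K a46 (M a192 (F (T t21 (L l79 (L l327 (T t156 (L l26 (L l408 (T t160 N))))))))) (K a51 (M a192 (F (T t57 (L l79 (L l327 (L l513 (T t156 (L l415 (T t450 N))))))))) N)))))))))))))))⟩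
def e0_63__65_50 : Ent 4 := ⟨[a0, a63], [a65, a79], (M a12 (F (T t122 (T t151 (T t152 (T t153 (K a4 (M a60 (F (T t43 (L l325 (T t398 (T t448 N)))))) (K a8 (M a60 (F (T t67 (L l325 (T t398 (L l52 (L l56 (T t448 N)))))))) (K a21 (M a192 (F (T t468 (L l15 (L l347 (T t450 (L l15 (L l347 (T t157 N))))))))) (K a25 (M a192 (F (T t449 (L l15 (T t450 (L l137 (T t21 N))))))) (K a29 (M a192 (F (T t449 (L l137 (L l371 (T t21 (T t160 N))))))) (K a38 (M a192 (F (T t468 (T t450 (L l137 (T t21 N)))))) (K a42 (M a192 (F (T t449 (T t450 (L l56 (T t157 N)))))) (K a46 (M a192 (F (T t449 (L l137 (T t21 (L l26 (L l408 (T t160 N)))))))) (K a51 (M a192 (F (T t57 (L l79 (L l513 (T t156 (L l415 (T t450 N)))))))) N)))))))))))))))⟩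
def e0_63__65_51 : Ent 4 := ⟨[a0, a63], [a65, a84], (M a48 (F (T t1 (T t2 (L l364 (T t3 (T t0 (K a16 (M a60 (L l364 (F (T t43 (T t64 (T t65 (K a152 (M a220 (F (T t42 (L l305 (T t69 (L l14 (L l18 (L l346 (T t44 N))))))))) (K a220 (M a152 (F (T t43 (L l286 (T t469 N))))) N)))))))) (K a32 (M a60 (F (T t64 (L l346 (T t67 (L l24 (L l28 (T t65 N)))))))) (K a21 (M a192 (F (T t28 (L l47 (L l347 (T t20 (L l47 (L l347 (T t29 N))))))))) (K a37 (M a192 (F (T t27 (L l47 (T t20 (T t21 N)))))) (K a53 (M a192 (F (T t28 (L l491 (T t21 (T t31 N)))))) (K a26 (M a192 (F (T t27 (T t20 (T t21 N))))) (K a42 (M a192 (F (T t27 (T t20 (L l28 (T t29 N)))))) (K a58 (M a192 (F (T t27 (T t21 (L l54 (L l498 (T t31 N))))))) (K a15 (M a192 (F (T t54 (L l483 (T t27 (L l469 (T t21 N))))))) N))))))))))))))))⟩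
def e0_63__65_52 : Ent 4 := ⟨[a0, a63], [a65, a85], (M a48 (L l141 (F (T t0 (L l347 (T t1 (L l455 (T t2 (L l347 (L l368 (T t3 (K a16 (M a56 (L l141 (L l368 (F (T t134 (T t470 (L l18 (L l347 (T t135 (L l18 (L l347 (T t471 (K a105 (M a125 (L l368 (F (L l145 (T t472 (L l18 (L l347 (L l392 (L l497 (T t135 (L l18 (L l347 (T t471 (K a154 (M a223 (F (L l145 (T t472 (L l18 (L l347 (L l392 (L l497 (T t135 (L l18 (L l347 (T t471 N)))))))))))) (K a223 (M a154 (F (L l340 (T t473 (L l145 (L l473 (T t474 N))))))) N))))))))))))))) (K a125 (M a105 (L l368 (F (T t470 (L l123 (L l340 (T t475 (K a154 (M a223 (F (T t134 (L l305 (L l473 (T t476 (L l18 (L l347 (T t135 (L l14 (L l18 (L l347 (L l350 (T t477 N)))))))))))))) (K a223 (Fr a154 a203 l500 (V t478)) N))))))))) (K a154 (M a223 (L l141 (F (T t134 (T t470 (L l18 (L l347 (T t135 (L l18 (L l347 (T t471 (K a105 (M a125 (F (L l145 (T t472 (L l18 (L l347 (L l392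 (L l497 (T t135 (L l18 (L l347 (T t471 N)))))))))))) (K a125 (M a105 (F (T t134 (L l305 (L l473 (T t476 (L l18 (L l347 (T t135 (L l14 (L l18 (L l347 (L l350 (T t477 N)))))))))))))) N))))))))))))) (K a223 (M a154 (L l141 (F (L l123 (T t479 (L l18 (L l347 (T t135 (K a105 (M a125 (F (L l340 (T t473 (L l145 (L l473 (T t474 N))))))) (K a125 (Fr a105 a203 l500 (V t478)) N)))))))))) N)))))))))))))))) (K a32 (M a60 (L l141 (F (T t64 (L l347 (L l350 (T t67 (L l24 (L l28 (L l455 (T t65 (K a105 (M a125 (F (L l145 (T t480 (L l347 (L l350 (T t44 N))))))) (K a125 (M a105 (F (T t451 (L l347 (L l350 (T t481 N)))))) N))))))))))))) (K a21 (M a149 (L l141 (F (T t4 (L l144 (T t13 (L l18 (L l123 (L l144 (L l368 (T t482 (L l18 (L l123 (L l368 (T t483 (K a105 (M a125 (F (T t184 (L l98 (L l144 (T t13 (L l18 (L l123 (L l144 (L l368 (T t482 (L l18 (L l123 (L l368 (T t483 N))))))))))))))) (K a125 (M a105 (F (T t4 (L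 l65 (L l144 (L l431 (T t185 (L l305 (T t484 N))))))))) N))))))))))))))))) (K a37 (M a52 (L l141 (F (T t83 (L l458 (T t82 (L l21 (L l28 (L l350 (T t84 (K a105 (M a125 (F (L l117 (L l500 (T t485 (L l21 (L l28 (L l350 (T t84 N))))))))) (K a125 (M a105 (F (L l368 (T t486 (L l21 (L l28 (T t487 N))))))) N)))))))))))) (K a53 (M a60 (L l141 (F (T t43 (L l458 (T t247 (L l35 (L l47 (L l347 (T t235 (K a105 (M a125 (F (L l145 (T t480 (L l392 (L l458 (L l500 (T t247 N)))))))) (K a125 (M a105 (F (T t43 (L l31 (T t488 N))))) N)))))))))))) (K a26 (M a60 (L l141 (F (T t42 (L l18 (L l347 (L l350 (T t67 (L l57 (L l458 (T t247 (K a105 (M a125 (F (L l350 (T t489 (L l145 (L l473 (T t490 N))))))) (K a125 (M a105 (F (T t488 (L l54 (T t43 N))))) N))))))))))))) (K a42 (M a192 (L l141 (F (T t27 (L l347 (T t20 (L l54 (L l144 (L l368 (L l390 (T t224 (K a105 (M a125 (F (T t27 (L l347 (L l515 (T t225 (L l54 (L l98 (L l144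 (L l368 (L l390 (T t224 N)))))))))))) (K a125 (M a105 (F (T t27 (L l347 (T t226 N))))) N))))))))))))) (K a58 (M a60 (L l141 (F (T t248 (L l347 (L l350 (T t67 (L l32 (L l347 (T t235 (K a105 (M a125 (F (L l145 (T t480 (L l32 (L l392 (L l458 (L l500 (T t247 N))))))))) (K a125 (M a105 (F (T t488 (L l54 (T t43 N))))) N)))))))))))) (K a15 (M a52 (L l141 (F (T t491 (L l3 (L l458 (T t82 (L l350 (T t84 (K a105 (M a125 (F (L l117 (L l500 (T t485 (L l350 (T t84 N))))))) (K a125 (M a105 (F (L l337 (L l368 (T t486 (T t487 N)))))) N))))))))))) (K a105 (M a125 (F (T t0 (L l347 (T t1 (L l455 (T t2 (L l347 (L l368 (T t3 (K a16 (M a56 (L l368 (F (L l145 (T t472 (L l18 (L l347 (L l392 (L l497 (T t135 (L l18 (L l347 (T t471 (K a154 (M a223 (F (L l145 (T t472 (L l18 (L l347 (L l392 (L l497 (T t135 (L l18 (L l347 (T t471 N)))))))))))) (K a223 (M a154 (F (L l340 (T t473 (L l145 (L l473 (T t474 N))))))) N)))))))))))))))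 (K a32 (M a52 (F (L l117 (L l500 (T t485 (L l28 (L l350 (T t84 N)))))))) (K a21 (M a149 (F (T t184 (L l98 (L l144 (T t13 (L l18 (L l123 (L l144 (L l368 (T t482 (L l18 (L l123 (L l368 (T t483 N))))))))))))))) (K a37 (M a52 (F (L l117 (L l500 (T t485 (L l21 (L l28 (L l350 (T t84 N))))))))) (K a53 (M a60 (F (L l145 (T t480 (L l392 (L l458 (L l500 (T t247 N)))))))) (K a26 (M a60 (F (L l350 (T t489 (L l145 (L l473 (T t490 N))))))) (K a42 (M a60 (F (L l515 (T t492 (L l22 (L l392 (L l458 (L l500 (T t247 N))))))))) (K a58 (M a60 (F (L l145 (T t480 (L l32 (L l392 (L l458 (L l500 (T t247 N))))))))) (K a15 (M a52 (F (L l117 (L l500 (T t485 (L l350 (T t84 N))))))) N))))))))))))))))))) (K a125 (M a105 (F (T t0 (L l347 (T t1 (L l455 (T t2 (L l347 (L l368 (T t3 (K a16 (M a154 (F (T t493 (L l350 (T t494 (L l117 (T t495 N))))))) (K a32 (M a52 (F (L l368 (T t486 (L l28 (T t487 N)))))) (K a21 (M a149 (F (T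 t4 (L l65 (L l144 (L l431 (T t185 (L l305 (T t484 N))))))))) (K a37 (M a192 (F (T t27 (L l347 (T t226 N))))) (K a53 (M a192 (F (T t28 (L l347 (L l491 (T t226 N)))))) (K a26 (M a192 (F (T t28 (L l347 (T t226 N))))) (K a42 (M a192 (F (T t27 (L l347 (T t226 N))))) (K a58 (M a192 (F (T t28 (L l347 (T t226 N))))) (K a15 (M a192 (F (L l483 (T t28 (L l337 (L l347 (T t226 N))))))) N))))))))))))))))))) N))))))))))))))))))))))⟩
def e0_63__65_53 : Ent 4 := ⟨[a0, a63], [a65, a86], (M a48 (F (T t1 (T t2 (T t3 (T t0 (K a16 (M a60 (F (T t64 (L l14 (L l18 (L l477 (T t67 (L l351 (T t65 N))))))))) (K a32 (M a60 (F (T t64 (L l477 (T t67 (L l24 (L l28 (L l351 (T t65 N))))))))) (K a21 (M a192 (F (T t28 (L l47 (L l347 (L l351 (T t20 (L l47 (L l347 (L l351 (T t29 N))))))))))) (K a37 (M a192 (F (T t19 (L l47 (L l351 (T t20 (L l351 (T t21 N)))))))) (K a53 (M a192 (F (T t19 (L l351 (L l491 (T t21 (L l142 (T t31 N))))))))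 (K a26 (M a192 (F (T t27 (L l351 (T t20 (L l351 (T t21 N))))))) (K a42 (M a192 (F (T t19 (L l351 (T t20 (L l28 (L l351 (T t29 N)))))))) (K a58 (M a192 (F (T t19 (L l351 (T t21 (L l54 (L l142 (L l498 (T t31 N))))))))) (K a15 (M a192 (F (T t36 (L l325 (L l351 (T t20 (L l351 (L l469 (T t21 N))))))))) N)))))))))))))))⟩
def e0_63__65_54 : Ent 4 := ⟨[a0, a63], [a65, a87], (M a48 (F (T t1 (T t2 (T t3 (T t0 (K a16 (M a60 (F (T t64 (L l14 (L l18 (L l475 (T t67 (L l349 (T t65 N))))))))) (K a32 (M a60 (F (T t64 (L l475 (T t67 (L l24 (L l28 (L l349 (T t65 N))))))))) (K a21 (M a192 (F (T t28 (L l47 (L l347 (T t20 (L l47 (L l347 (L l367 (T t29 N)))))))))) (K a37 (M a192 (F (T t19 (L l47 (T t20 (L l143 (L l475 (T t21 N)))))))) (K a53 (M a192 (F (T t19 (L l143 (L l475 (L l491 (T t21 (T t31 N)))))))) (K a26 (M a192 (F (T t28 (T t20 (L l143 (L l475 (T t21 N))))))) (K a42 (M a192 (F (T t19 (T t20 (L l28 (L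 l367 (T t29 N))))))) (K a58 (M a192 (F (T t19 (L l143 (L l475 (T t21 (L l54 (L l498 (T t31 N))))))))) (K a15 (M a192 (F (T t57 (L l483 (T t27 (L l325 (T t20 N))))))) N)))))))))))))))⟩
def e0_63__65_55 : Ent 4 := ⟨[a0, a63], [a65, a88], (M a48 (F (T t1 (T t2 (T t3 (T t0 (K a16 (M a60 (F (T t43 (T t64 (T t65 N))))) (K a32 (M a60 (F (T t67 (T t64 (L l24 (L l28 (T t65 N))))))) (K a21 (M a192 (F (T t206 (L l146 (L l478 (T t27 (L l47 (L l347 (T t29 N))))))))) (K a37 (M a192 (F (T t225 (L l146 (L l478 (T t27 (T t21 N))))))) (K a53 (M a192 (F (T t37 (L l146 (L l478 (T t27 (T t31 N))))))) (K a26 (M a192 (F (T t20 (L l146 (L l478 (T t27 (T t21 N))))))) (K a42 (M a192 (F (T t20 (L l146 (L l478 (T t27 (L l28 (T t29 N)))))))) (K a58 (M a192 (F (T t21 (L l146 (L l478 (T t27 (L l54 (L l498 (T t31 N))))))))) (K a15 (M a192 (F (T t56 (L l146 (L l478 (L l483 (T t27 (L l469 (T t21 N))))))))) N)))))))))))))))⟩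
def e0_63__65_56 : Ent 4 := ⟨[a0, a63], [a65, a89], (M a48 (F (T t1 (T t2 (T t3 (T t0 (K a16 (M a60 (F (T t43 (T t64 (T t65 N))))) (K a32 (M a60 (F (T t67 (T t64 (L l24 (L l28 (T t65 N))))))) (K a21 (M a192 (F (T t28 (L l47 (L l347 (L l371 (T t20 (L l47 (L l347 (L l371 (T t29 N))))))))))) (K a37 (M a192 (F (T t19 (L l47 (L l371 (T t20 (L l371 (T t21 N)))))))) (K a53 (M a192 (F (T t19 (L l371 (L l491 (T t21 (L l132 (T t31 N)))))))) (K a26 (M a192 (F (T t27 (L l371 (T t20 (L l371 (T t21 N))))))) (K a42 (M a192 (F (T t19 (L l371 (T t20 (L l28 (L l371 (T t29 N)))))))) (K a58 (M a192 (F (T t19 (L l371 (T t21 (L l54 (L l132 (L l498 (T t31 N))))))))) (K a15 (M a192 (F (T t36 (L l325 (L l371 (T t20 (L l371 (L l469 (T t21 N))))))))) N)))))))))))))))⟩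
def e0_63__65_57 : Ent 4 := ⟨[a0, a63], [a65, a90], (M a12 (F (T t122 (T t151 (T t152 (T t153 (K a4 (M a60 (F (T t43 (L l480 (L l483 (T t398 (T t448 N))))))) (K a8 (M a60 (F (T t67 (L l480 (L l483 (T t398 (L l52 (L l56 (T t448 N))))))))) (K a21 (M a192 (F (T t468 (L l15 (L l347 (L l375 (T t450 (L l15 (L l347 (L l375 (T t157 N))))))))))) (K a25 (M a192 (F (T t449 (L l15 (L l375 (T t450 (L l375 (T t21 N)))))))) (K a29 (M a192 (F (T t449 (L l371 (L l375 (T t21 (L l130 (T t160 N)))))))) (K a38 (M a192 (F (T t156 (L l375 (T t450 (L l375 (T t21 N))))))) (K a42 (M a192 (F (T t449 (L l375 (T t450 (L l56 (L l375 (T t157 N)))))))) (K a46 (M a192 (F (T t449 (L l375 (T t21 (L l26 (L l130 (L l408 (T t160 N))))))))) (K a51 (M a192 (F (T t496 (L l375 (L l415 (T t450 (L l375 (L l439 (T t21 N))))))))) N)))))))))))))))⟩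
def e0_63__65_58 : Ent 4 := ⟨[a0, a63], [a65, a91], (M a12 (F (T t122 (T t151 (T t152 (T t153 (K a4 (M a60 (F (T t43 (L l481 (T t398 (T t448 N)))))) (K a8 (M a60 (F (T t67 (L l481 (T t398 (L l52 (L l56 (T t448 N)))))))) (K a21 (M a192 (F (T t468 (L l15 (L l347 (L l481 (T t450 (L l15 (L l347 (T t157 N)))))))))) (K a25 (M a192 (F (T t449 (L l15 (L l481 (T t450 (T t21 N))))))) (K a29 (M a192 (F (T t449 (L l371 (T t21 (T t160 N)))))) (K a38 (M a192 (F (T t156 (L l481 (T t450 (T t21 N)))))) (K a42 (M a192 (F (T t449 (L l481 (T t450 (L l56 (T t157 N))))))) (K a46 (M a192 (F (T t449 (T t21 (L l26 (L l408 (T t160 N))))))) (K a51 (M a192 (F (T t57 (L l513 (T t156 (L l415 (L l481 (T t450 N)))))))) N)))))))))))))))⟩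
def e0_63__65_59 : Ent 4 := ⟨[a0, a63], [a65, a92], (M a48 (F (T t1 (T t2 (T t3 (T t0 (K a16 (M a60 (F (T t43 (T t64 (T t65 N))))) (K a32 (M a60 (F (T t67 (T t64 (L l24 (L l28 (T t65 N))))))) (K a21 (M a192 (F (T t28 (L l47 (L l347 (T t20 (L l47 (L l347 (T t29 N))))))))) (K a37 (M a192 (F (T t19 (L l47 (T t20 (T t21 N)))))) (K a53 (M a192 (F (T t19 (L l491 (T t21 (T t31 N)))))) (K a26 (M a192 (F (T t28 (T t20 (T t21 N))))) (K a42 (M a192 (F (T t19 (T t20 (L l28 (T t29 N)))))) (K a58 (M a192 (F (T t19 (T t21 (L l54 (L l498 (T t31 N))))))) (K a15 (M a192 (F (T t57 (L l483 (T t27 (L l325 (T t20 N))))))) N)))))))))))))))⟩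
def e0_63__65_60 : Ent 4 := ⟨[a0, a63], [a65, a93], (M a48 (F (T t1 (T t2 (T t3 (T t0 (K a16 (M a60 (F (T t43 (T t64 (T t65 N))))) (K a32 (M a60 (F (T t67 (T t64 (L l24 (L l28 (T t65 N))))))) (K a21 (M a192 (F (T t28 (L l47 (L l347 (T t20 (L l47 (L l347 (L l362 (T t29 N)))))))))) (K a37 (M a192 (F (T t19 (L l47 (T t20 (L l138 (L l470 (T t21 N)))))))) (K a53 (M a192 (F (T t19 (L l138 (L l470 (L l491 (T t21 (T t31 N)))))))) (K a26 (M a192 (F (T t28 (T t20 (L l138 (L l470 (T t21 N))))))) (K a42 (M a192 (F (T t19 (T t20 (L l28 (L l362 (T t29 N))))))) (K a58 (M a192 (F (T t19 (L l138 (L l470 (T t21 (L l54 (L l498 (T t31 N))))))))) (K a15 (M a192 (F (T t57 (L l483 (T t27 (L l325 (T t20 N))))))) N)))))))))))))))⟩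
def e0_63__65_61 : Ent 4 := ⟨[a0, a63], [a65, a94], (M a12 (F (T t122 (T t151 (T t152 (T t153 (K a4 (M a60 (F (T t43 (L l468 (L l471 (T t398 (T t448 N))))))) (K a8 (M a60 (F (T t67 (L l468 (L l471 (T t398 (L l52 (L l56 (T t448 N))))))))) (K a21 (M a192 (F (T t468 (L l15 (L l347 (T t450 (L l15 (L l347 (T t157 N))))))))) (K a25 (M a192 (F (T t449 (L l15 (T t450 (T t21 N)))))) (K a29 (M a192 (F (T t449 (L l371 (T t21 (T t160 N)))))) (K a38 (M a192 (F (T t468 (T t450 (T t21 N))))) (K a42 (M a192 (F (T t449 (T t450 (L l56 (T t157 N)))))) (K a46 (M a192 (F (T t449 (T t21 (L l26 (L l408 (T t160 N))))))) (K a51 (M a192 (F (T t57 (L l513 (T t156 (L l415 (T t450 N))))))) N)))))))))))))))⟩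
def e0_63__65_62 : Ent 4 := ⟨[a0, a63], [a65, a95], (M a12 (F (T t122 (T t151 (T t152 (T t153 (K a4 (M a60 (F (T t43 (L l469 (T t398 (T t448 N)))))) (K a8 (M a60 (F (T t67 (L l469 (T t398 (L l52 (L l56 (T t448 N)))))))) (K a21 (M a192 (F (T t468 (L l15 (L l347 (T t450 (L l15 (L l347 (T t157 N))))))))) (K a25 (M a192 (F (T t449 (L l15 (T t450 (L l137 (L l469 (T t21 N)))))))) (K a29 (M a192 (F (T t449 (L l137 (L l371 (L l469 (T t21 (T t160 N)))))))) (K a38 (M a192 (F (T t468 (T t450 (L l137 (L l469 (T t21 N))))))) (K a42 (M a192 (F (T t449 (T t450 (L l56 (T t157 N)))))) (K a46 (M a192 (F (T t449 (L l137 (L l469 (T t21 (L l26 (L l408 (T t160 N))))))))) (K a51 (M a192 (F (T t57 (L l513 (T t156 (L l415 (T t450 N))))))) N)))))))))))))))⟩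
def e0_63__65_63 : Ent 4 := ⟨[a0, a63], [a65, a104], (M a48 (F (T t1 (T t2 (T t3 (T t0 (K a16 (M a60 (F (T t64 (L l14 (L l18 (T t67 (L l388 (T t65 N)))))))) (K a32 (M a60 (F (T t64 (T t67 (L l24 (L l28 (L l388 (T t65 N)))))))) (K a21 (M a192 (F (T t27 (L l47 (L l347 (T t20 (L l47 (L l347 (T t29 N))))))))) (K a37 (M a192 (F (T t27 (L l47 (T t20 (T t21 N)))))) (K a53 (M a192 (F (T t27 (L l491 (T t21 (L l98 (L l100 (T t31 N)))))))) (K a26 (M a192 (F (T t27 (T t20 (T t21 N))))) (K a42 (M a192 (F (T t27 (T t20 (L l28 (T t29 N)))))) (K a58 (M a192 (F (T t27 (T t21 (L l54 (L l98 (L l100 (L l498 (T t31 N))))))))) (K a15 (M a192 (F (T t57 (L l483 (T t27 (L l325 (T t20 N))))))) N)))))))))))))))⟩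
def e0_63__65_64 : Ent 4 := ⟨[a0, a63], [a65, a105], (M a85 (F (T t52 (L l76 (T t88 (L l76 (L l98 (T t89 (L l76 (L l392 (T t90 (K a64 (M a252 (L l76 (F (T t169 (L l392 (L l518 (T t93 (L l305 (T t170 (K a66 (M a67 (F (T t497 (L l392 (L l518 (T t93 N)))))) (K a67 (M a66 (L l145 (F (L l140 (T t94 (L l392 (L l518 (T t93 (L l143 (T t95 (K a124 (M a86 (L l140 (F (T t498 (T t499 (K a84 (M a104 (F (T t499 (L l307 (L l392 (T t500 N)))))) (K a104 (Fr a84 a168 l472 (V t499)) N))))))) (K a86 (M a124 (F (L l143 (T t501 (L l305 (T t502 (L l305 (L l307 (T t503 N))))))))) N)))))))))))) N))))))))))) (K a192 (M a16 (F (T t504 (L l81 (L l101 (T t96 (L l296 (T t98 N)))))))) (K a21 (M a48 (F (T t99 (L l392 (T t50 (L l47 (T t100 N))))))) (K a149 (M a61 (F (L l305 (T t505 (L l220 (L l392 (T t506 (L l389 (T t507 (L l518 (T t508 N))))))))))) (K a213 (Fr a170 a255 l476 (Fr a42 a21 l68 (Fr a106 a234 l390 (Fr a192 a149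 l519 (V t581))))) (K a42 (M a48 (F (T t364 (L l390 (L l392 (T t50 (L l28 (T t100 N)))))))) (K a106 (M a48 (L l98 (F (T t1 (L l81 (L l101 (L l104 (T t509 (L l390 (L l392 (T t50 (K a104 (M a107 (F (T t1 (L l390 (L l392 (L l518 (T t510 (L l498 (L l500 (T t365 N)))))))))) (K a107 (M a104 (F (T t364 (T t1 (L l143 (L l390 (L l392 (T t50 N)))))))) N))))))))))))) (K a170 (M a16 (L l392 (F (L l404 (T t113 (L l390 (T t98 (L l390 (L l404 (T t97 (L l404 (T t174 (K a40 (M a235 (F (L l24 (L l404 (T t113 (L l22 (L l390 (T t98 (L l22 (L l24 (L l390 (L l404 (T t97 (L l24 (L l404 (T t174 N)))))))))))))))) (K a235 (M a40 (F (L l391 (T t270 (L l404 (T t113 N)))))) N)))))))))))))) (K a255 (M a16 (F (T t112 (L l289 (T t113 (L l289 (L l296 (T t98 N)))))))) N))))))))))))))))))))⟩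
def e0_63__65_65 : Ent 4 := ⟨[a0, a63], [a65, a106], (M a48 (F (T t1 (L l390 (L l498 (T t2 (L l411 (T t3 (L l390 (T t0 (K a16 (M a60 (F (T t64 (L l14 (L l18 (L l393 (T t67 (L l390 (L l498 (T t65 N)))))))))) (K a32 (M a60 (F (T t64 (L l393 (T t67 (L l24 (L l28 (L l390 (L l498 (T t65 N)))))))))) (K a21 (M a255 (F (T t511 (L l390 (T t512 (L l18 (L l141 (L l144 (L l347 (L l498 (T t513 N))))))))))) (K a37 (M a52 (F (T t82 (L l498 (T t83 (L l21 (L l28 (L l390 (L l498 (T t84 N)))))))))) (K a53 (M a12 (F (T t443 (L l47 (T t122 (L l47 (T t146 N))))))) (K a26 (M a56 (F (T t133 (L l501 (T t134 (L l12 (L l18 (T t135 N)))))))) (K a42 (M a170 (F (T t316 (L l141 (L l144 (T t514 (L l54 (L l76 (L l104 (L l144 (L l498 (T t515 (L l54 (L l498 (T t516 N))))))))))))))) (K a58 (M a12 (L l498 (F (T t122 (T t443 (T t146 (K a202 (M a154 (F (T t122 (L l81 (L l104 (L l426 (T t517 N))))))) (K a154 (M a202 (F (T t122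 (L l356 (L l368 (T t445 (L l356 (T t146 N)))))))) N)))))))) (K a15 (M a4 (F (T t518 (L l73 (L l390 (T t519 (L l390 (L l498 (T t520 N))))))))) N)))))))))))))))))))⟩
def e0_63__65_66 : Ent 4 := ⟨[a0, a63], [a65, a107], (M a48 (F (T t1 (T t2 (L l409 (T t3 (T t0 (K a16 (M a60 (F (T t43 (T t64 (T t65 N))))) (K a32 (M a60 (F (T t64 (L l391 (T t67 (L l24 (L l28 (T t65 N)))))))) (K a21 (M a192 (F (T t28 (L l47 (L l347 (T t20 (L l47 (L l347 (T t29 N))))))))) (K a37 (M a192 (F (T t19 (L l47 (T t20 (L l143 (T t21 N))))))) (K a53 (M a192 (F (T t19 (L l143 (L l491 (T t21 (L l98 (T t31 N)))))))) (K a26 (M a192 (F (T t28 (T t20 (L l143 (T t21 N)))))) (K a42 (M a192 (F (T t19 (T t20 (L l28 (T t29 N)))))) (K a58 (M a192 (F (T t19 (L l143 (T t21 (L l54 (L l98 (L l498 (T t31 N))))))))) (K a15 (M a192 (F (T t57 (L l483 (T t27 (L l325 (T t20 N))))))) N))))))))))))))))⟩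
def e0_63__65_67 : Ent 4 := ⟨[a0, a63], [a65, a108], (M a48 (F (T t1 (T t2 (T t3 (T t0 (K a16 (M a60 (F (T t43 (T t64 (T t65 N))))) (K a32 (M a60 (F (T t67 (T t64 (L l24 (L l28 (T t65 N))))))) (K a21 (M a192 (F (T t206 (T t27 (L l47 (L l347 (T t29 N))))))) (K a37 (M a192 (F (T t19 (L l47 (T t20 (T t21 N)))))) (K a53 (M a192 (F (T t19 (L l491 (T t21 (L l100 (T t31 N))))))) (K a26 (M a192 (F (T t20 (T t27 (T t21 N))))) (K a42 (M a192 (F (T t19 (T t20 (L l28 (T t29 N)))))) (K a58 (M a192 (F (T t19 (T t21 (L l54 (L l100 (L l498 (T t31 N)))))))) (K a15 (M a192 (F (T t57 (L l483 (T t27 (L l325 (T t20 N))))))) N)))))))))))))))⟩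
def e0_63__65_68 : Ent 4 := ⟨[a0, a63], [a65, a109], (M a48 (F (T t1 (T t2 (T t3 (T t0 (K a16 (M a60 (F (T t43 (L l503 (T t64 (T t65 N)))))) (K a32 (M a60 (F (T t67 (L l503 (T t64 (L l24 (L l28 (T t65 N)))))))) (K a21 (M a192 (F (T t28 (L l47 (L l347 (L l506 (T t20 (L l47 (L l347 (T t29 N)))))))))) (K a37 (M a192 (F (T t19 (L l47 (L l506 (T t20 (T t21 N))))))) (K a53 (M a192 (F (T t19 (L l491 (T t21 (T t31 N)))))) (K a26 (M a192 (F (T t27 (L l506 (T t20 (T t21 N)))))) (K a42 (M a192 (F (T t19 (L l506 (T t20 (L l28 (T t29 N))))))) (K a58 (M a192 (F (T t19 (T t21 (L l54 (L l498 (T t31 N))))))) (K a15 (M a192 (F (T t57 (L l483 (T t27 (L l325 (L l506 (T t20 N)))))))) N)))))))))))))))⟩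
def e0_63__65_69 : Ent 4 := ⟨[a0, a63], [a65, a110], (M a48 (F (T t1 (T t2 (L l399 (T t3 (T t0 (K a16 (M a60 (F (T t43 (T t64 (T t65 N))))) (K a32 (M a60 (F (T t64 (T t67 (L l24 (L l28 (T t65 N))))))) (K a21 (M a192 (F (T t28 (L l47 (L l347 (T t20 (L l47 (L l347 (T t29 N))))))))) (K a37 (M a192 (F (T t19 (L l47 (T t20 (L l138 (T t21 N))))))) (K a53 (M a192 (F (T t19 (L l138 (L l491 (T t21 (L l102 (T t31 N)))))))) (K a26 (M a192 (F (T t28 (T t20 (L l138 (T t21 N)))))) (K a42 (M a192 (F (T t19 (T t20 (L l28 (T t29 N)))))) (K a58 (M a192 (F (T t19 (L l138 (T t21 (L l54 (L l102 (L l498 (T t31 N))))))))) (K a15 (M a192 (F (T t57 (L l483 (T t27 (L l325 (T t20 N))))))) N))))))))))))))))⟩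
def e0_63__65_70 : Ent 4 := ⟨[a0, a63], [a65, a111], (M a48 (F (T t1 (T t2 (L l397 (T t3 (T t0 (K a16 (M a60 (F (T t43 (T t64 (T t65 N))))) (K a32 (M a60 (F (T t67 (T t64 (L l24 (L l28 (T t65 N))))))) (K a21 (M a192 (F (L l104 (T t206 (T t27 (L l47 (L l347 (T t29 N)))))))) (K a37 (M a192 (F (T t19 (L l104 (T t206 (L l137 (T t21 N))))))) (K a53 (M a192 (F (T t19 (L l137 (L l491 (T t21 (L l104 (T t521 N)))))))) (K a26 (M a192 (F (T t27 (L l54 (L l104 (T t206 (L l137 (T t21 N)))))))) (K a42 (M a192 (F (T t19 (L l54 (L l104 (L l390 (T t206 (L l28 (T t29 N))))))))) (K a58 (M a192 (F (T t19 (L l137 (T t21 (L l54 (L l104 (L l498 (T t521 N))))))))) (K a15 (M a192 (F (T t57 (L l483 (T t27 (L l104 (L l325 (T t206 N)))))))) N))))))))))))))))⟩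
def e0_63__65_71 : Ent 4 := ⟨[a0, a63], [a65, a124], (M a48 (F (T t1 (T t2 (T t3 (T t0 (K a16 (M a60 (F (T t43 (T t64 (T t65 N))))) (K a32 (M a60 (F (T t67 (T t64 (L l24 (L l28 (T t65 N))))))) (K a21 (M a192 (F (T t28 (L l47 (L l347 (T t20 (L l47 (L l347 (T t29 N))))))))) (K a37 (M a192 (F (T t19 (L l47 (T t20 (L l109 (T t21 N))))))) (K a53 (M a192 (F (T t19 (L l109 (L l491 (T t21 (T t31 N))))))) (K a26 (M a192 (F (T t28 (T t20 (L l109 (T t21 N)))))) (K a42 (M a192 (F (T t19 (T t20 (L l28 (T t29 N)))))) (K a58 (M a192 (F (T t19 (L l109 (T t21 (L l54 (L l498 (T t31 N)))))))) (K a15 (M a192 (F (T t57 (L l110 (L l483 (T t27 (L l325 (T t20 N)))))))) N)))))))))))))))⟩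
def e0_63__65_72 : Ent 4 := ⟨[a0, a63], [a65, a125], (M a85 (F (T t352 (L l109 (L l434 (T t52 (L l76 (T t89 (L l76 (T t90 (K a64 (M a16 (L l76 (F (T t97 (L l81 (L l84 (T t96 (L l116 (T t98 (K a66 (M a67 (F (T t259 (T t97 (L l116 (T t98 N)))))) (K a67 (M a66 (F (T t259 (T t97 (L l116 (T t98 N)))))) N))))))))))) (K a192 (M a16 (F (T t260 (L l339 (T t97 (L l296 (T t98 N))))))) (K a21 (M a48 (F (T t261 (L l47 (L l109 (T t100 (L l109 (L l111 (T t50 N))))))))) (K a149 (M a16 (F (T t112 (L l81 (T t173 (L l170 (T t102 N))))))) (K a213 (Fr a170 a255 l476 (Fr a42 a21 l68 (Fr a106 a234 l390 (Fr a192 a149 l519 (V t581))))) (K a42 (M a48 (F (L l434 (T t365 (L l109 (L l111 (L l390 (T t50 (L l28 (L l109 (T t100 N))))))))))) (K a106 (M a48 (F (T t1 (L l81 (L l104 (T t509 (L l109 (L l111 (L l390 (T t50 N)))))))))) (K a170 (M a16 (F (L l390 (L l404 (T t97 (L l390 (T t98 (L l109 (L l404 (T t113 (L l404 (T t174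 N)))))))))))) (K a255 (M a60 (F (T t522 (L l109 (L l295 (L l431 (T t523 (L l295 (L l296 (T t115 (L l295 (L l296 (L l305 (T t524 N)))))))))))))) N)))))))))))))))))))⟩
def e0_63__65_73 : Ent 4 := ⟨[a0, a63], [a65, a126], (M a48 (F (T t1 (T t2 (T t3 (T t0 (K a16 (M a60 (F (T t43 (T t64 (T t65 N))))) (K a32 (M a60 (F (T t64 (T t67 (L l24 (L l28 (T t65 N))))))) (K a21 (M a192 (F (T t28 (L l47 (L l347 (T t20 (L l47 (L l347 (T t29 N))))))))) (K a37 (M a192 (F (T t19 (L l47 (T t20 (L l109 (T t21 N))))))) (K a53 (M a192 (F (T t19 (L l109 (L l491 (T t21 (L l142 (T t31 N)))))))) (K a26 (M a192 (F (T t28 (T t20 (L l109 (T t21 N)))))) (K a42 (M a192 (F (T t19 (T t20 (L l28 (T t29 N)))))) (K a58 (M a192 (F (T t19 (L l109 (T t21 (L l54 (L l142 (L l498 (T t31 N))))))))) (K a15 (M a192 (F (T t57 (L l483 (T t27 (L l325 (T t20 N))))))) N)))))))))))))))⟩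
def e0_63__65_74 : Ent 4 := ⟨[a0, a63], [a65, a127], (M a48 (F (T t1 (T t2 (T t3 (T t0 (K a16 (M a60 (F (T t43 (T t64 (T t65 N))))) (K a32 (M a60 (F (T t67 (T t64 (L l24 (L l28 (T t65 N))))))) (K a21 (M a192 (F (T t28 (L l47 (L l347 (T t20 (L l18 (L l144 (T t224 N))))))))) (K a37 (M a192 (F (T t19 (L l47 (T t20 (L l28 (L l144 (T t37 N)))))))) (K a53 (M a192 (F (T t19 (L l144 (T t37 (L l47 (L l137 (L l491 (T t525 N))))))))) (K a26 (M a192 (F (T t28 (T t20 (L l54 (L l144 (T t37 N))))))) (K a42 (M a192 (F (T t19 (T t20 (L l54 (L l144 (L l390 (T t224 N)))))))) (K a58 (M a192 (F (T t19 (L l54 (L l144 (L l498 (T t37 (L l137 (T t525 N))))))))) (K a15 (M a192 (F (T t56 (L l114 (L l483 (T t27 (L l144 (L l469 (T t37 N))))))))) N)))))))))))))))⟩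
def e0_63__65_75 : Ent 4 := ⟨[a0, a63], [a65, a128], (M a48 (F (T t1 (T t2 (T t3 (T t0 (K a16 (M a60 (F (T t43 (T t64 (T t65 N))))) (K a32 (M a60 (F (T t67 (T t64 (L l24 (L l28 (T t65 N))))))) (K a21 (M a154 (F (T t526 (T t327 (L l47 (L l76 (T t527 N))))))) (K a37 (M a52 (F (T t82 (T t83 (L l21 (L l28 (T t84 N))))))) (K a53 (M a12 (F (T t151 (T t443 (L l47 (T t146 N)))))) (K a26 (M a56 (F (T t133 (T t134 (L l12 (L l18 (T t135 N))))))) (K a42 (M a154 (F (T t493 (L l28 (T t327 (L l28 (L l76 (T t527 N)))))))) (K a58 (M a12 (F (T t443 (T t122 (T t146 N))))) (K a15 (M a4 (F (T t129 (L l63 (T t528 (T t520 N)))))) N)))))))))))))))⟩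
def e0_63__65_76 : Ent 4 := ⟨[a0, a63], [a65, a129], (M a48 (L l305 (F (T t1 (T t2 (T t3 (T t0 (K a16 (M a61 (L l305 (F (T t262 (T t529 (L l10 (T t530 (K a1 (M a193 (F (T t531 (L l141 (T t532 N))))) (K a193 (M a1 (F (T t533 (L l485 (T t262 N))))) N))))))))) (K a32 (M a149 (L l305 (F (T t16 (L l28 (L l76 (L l309 (T t5 (L l28 (T t6 (K a1 (M a193 (F (T t12 (L l28 (T t6 N))))) (K a193 (M a1 (F (L l28 (T t534 (L l233 (T t16 N)))))) N)))))))))))) (K a21 (M a149 (L l305 (F (T t16 (L l152 (T t13 (L l18 (L l152 (T t14 (K a1 (M a193 (L l65 (F (T t12 (L l18 (L l152 (T t14 (K a41 (Fr a61 a105 l515 (V t15)) (K a61 (M a41 (F (T t16 (L l152 (T t13 (L l18 (L l152 (T t14 N)))))))) N))))))))) (K a193 (M a1 (F (T t7 (L l485 (T t535 N))))) N))))))))))) (K a37 (M a1 (F (T t295 (L l28 (T t534 (L l25 (L l28 (T t536 (T t537 N))))))))) (K a53 (M a1 (F (T t538 (T t295 (L l31 (L l35 (T t539 (L l31 (T t540 N)))))))))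 (K a26 (M a192 (L l305 (F (T t28 (L l217 (T t20 (L l152 (L l217 (T t21 (K a1 (M a193 (F (T t22 (L l41 (L l76 (T t23 N)))))) (K a193 (M a1 (F (T t28 (L l54 (L l515 (T t534 N)))))) N))))))))))) (K a42 (M a192 (L l305 (F (T t19 (L l217 (T t20 (L l28 (L l217 (T t29 (K a1 (M a193 (F (T t19 (L l65 (L l390 (T t30 N)))))) (K a193 (M a1 (F (L l390 (T t22 (L l66 (L l485 (T t535 N))))))) N))))))))))) (K a58 (M a1 (F (T t535 (L l54 (T t534 (L l54 (T t541 (L l36 (L l54 (T t540 N)))))))))) (K a15 (M a1 (F (T t538 (L l73 (T t535 (T t542 N)))))) (K a1 (M a193 (F (T t0 (L l65 (T t1 (L l5 (T t2 (L l65 (T t3 (K a16 (M a192 (F (T t37 (L l41 (L l344 (T t38 N)))))) (K a32 (M a192 (F (T t34 (L l65 (L l217 (T t35 N)))))) (K a21 (M a61 (F (T t18 (L l141 (T t39 N))))) (K a37 (M a192 (F (T t22 (L l41 (L l71 (L l76 (T t23 N))))))) (K a53 (M a192 (F (T t28 (L l35 (L l65 (T t30 N)))))) (K a26 (M a192 (F (T t22 (L l41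 (L l76 (T t23 N)))))) (K a42 (M a192 (F (T t19 (L l65 (L l390 (T t30 N)))))) (K a58 (M a192 (F (T t28 (L l65 (L l498 (T t30 N)))))) (K a15 (M a192 (F (T t34 (L l65 (L l217 (L l469 (T t35 N))))))) N)))))))))))))))))) (K a193 (M a1 (F (T t2 (L l485 (T t535 (L l515 (T t534 N))))))) N))))))))))))))))))⟩
def e0_63__65_77 : Ent 4 := ⟨[a0, a63], [a65, a130], (M a48 (F (T t1 (T t2 (T t3 (T t0 (K a16 (M a60 (F (T t43 (T t64 (T t65 N))))) (K a32 (M a60 (F (T t67 (T t64 (L l24 (L l28 (T t65 N))))))) (K a21 (M a192 (F (T t28 (L l47 (L l347 (T t20 (L l47 (L l347 (T t29 N))))))))) (K a37 (M a192 (F (T t19 (L l47 (T t20 (L l152 (T t21 N))))))) (K a53 (M a192 (F (T t19 (L l152 (L l491 (T t21 (T t31 N))))))) (K a26 (M a192 (F (T t28 (T t20 (L l152 (T t21 N)))))) (K a42 (M a192 (F (T t19 (T t20 (L l28 (T t29 N)))))) (K a58 (M a192 (F (T t19 (L l152 (T t21 (L l54 (L l498 (T t31 N)))))))) (K a15 (M a192 (F (T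 t53 (L l152 (L l483 (T t27 (L l152 (L l469 (T t21 N))))))))) N)))))))))))))))⟩
def e0_63__65_78 : Ent 4 := ⟨[a0, a63], [a65, a131], (M a48 (F (T t1 (T t2 (T t3 (T t0 (K a16 (M a60 (F (T t64 (L l14 (L l18 (L l307 (T t67 (T t65 N)))))))) (K a32 (M a60 (F (T t64 (L l307 (T t67 (L l24 (L l28 (T t65 N)))))))) (K a21 (M a192 (F (T t28 (L l47 (L l347 (T t20 (L l47 (L l347 (T t29 N))))))))) (K a37 (M a192 (F (T t19 (L l47 (T t20 (L l152 (T t21 N))))))) (K a53 (M a192 (F (T t19 (L l152 (L l491 (T t21 (T t31 N))))))) (K a26 (M a192 (F (T t28 (T t20 (L l152 (T t21 N)))))) (K a42 (M a192 (F (T t19 (T t20 (L l28 (T t29 N)))))) (K a58 (M a192 (F (T t19 (L l152 (T t21 (L l54 (L l498 (T t31 N)))))))) (K a15 (M a192 (F (T t54 (L l152 (L l483 (T t27 (L l152 (L l469 (T t21 N))))))))) N)))))))))))))))⟩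
def e0_63__65_79 : Ent 4 := ⟨[a0, a63], [a65, a132], (M a48 (F (T t1 (T t2 (T t3 (T t0 (K a16 (M a60 (F (T t43 (T t64 (T t65 N))))) (K a32 (M a60 (F (T t67 (T t64 (L l24 (L l28 (T t65 N))))))) (K a21 (M a192 (F (T t28 (L l47 (L l202 (L l347 (T t20 (L l47 (L l202 (L l347 (T t29 N))))))))))) (K a37 (M a192 (F (T t19 (L l47 (L l202 (T t20 (L l156 (L l202 (T t21 N))))))))) (K a53 (M a192 (F (T t19 (L l156 (L l202 (L l491 (T t21 (T t31 N)))))))) (K a26 (M a192 (F (T t28 (L l202 (T t20 (L l156 (L l202 (T t21 N)))))))) (K a42 (M a192 (F (T t19 (L l202 (T t20 (L l28 (L l202 (T t29 N)))))))) (K a58 (M a192 (F (T t19 (L l156 (L l202 (T t21 (L l54 (L l498 (T t31 N))))))))) (K a15 (M a192 (F (T t54 (L l156 (L l483 (T t27 (L l156 (L l202 (L l469 (T t21 N)))))))))) N)))))))))))))))⟩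
def e0_63__65_80 : Ent 4 := ⟨[a0, a63], [a65, a133], (M a12 (F (T t122 (T t151 (T t152 (T t153 (K a4 (M a60 (F (T t43 (L l339 (T t398 (T t448 N)))))) (K a8 (M a60 (F (T t67 (L l339 (T t398 (L l52 (L l56 (T t448 N)))))))) (K a21 (M a192 (F (T t221 (L l153 (L l160 (T t156 (L l15 (L l199 (L l347 (T t157 N)))))))))) (K a25 (M a192 (F (T t221 (L l153 (L l160 (T t156 (L l160 (L l199 (T t21 N))))))))) (K a29 (M a192 (F (T t37 (L l153 (L l160 (T t156 (T t160 N))))))) (K a38 (M a192 (F (T t543 (L l153 (L l160 (T t156 (L l160 (L l199 (T t21 N))))))))) (K a42 (M a192 (F (L l153 (T t449 (L l199 (T t450 (L l56 (L l199 (T t157 N))))))))) (K a46 (M a192 (F (L l153 (T t449 (L l160 (L l199 (T t21 (L l26 (L l408 (T t160 N)))))))))) (K a51 (M a192 (F (T t158 (L l153 (L l160 (L l513 (T t156 (L l160 (L l199 (L l439 (T t21 N))))))))))) N)))))))))))))))⟩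
def e0_63__65_81 : Ent 4 := ⟨[a0, a63], [a65, a134], (M a48 (F (T t1 (T t2 (T t3 (T t0 (K a16 (M a60 (F (T t43 (T t64 (T t65 N))))) (K a32 (M a60 (F (T t67 (T t64 (L l24 (L l28 (T t65 N))))))) (K a21 (M a192 (F (T t28 (L l47 (L l347 (T t20 (L l47 (L l347 (T t29 N))))))))) (K a37 (M a192 (F (T t19 (L l47 (T t20 (T t21 N)))))) (K a53 (M a192 (F (T t19 (L l491 (T t21 (T t31 N)))))) (K a26 (M a192 (F (T t28 (T t20 (T t21 N))))) (K a42 (M a192 (F (T t19 (T t20 (L l28 (T t29 N)))))) (K a58 (M a192 (F (T t19 (T t21 (L l54 (L l498 (T t31 N))))))) (K a15 (M a192 (F (T t57 (L l483 (T t27 (L l325 (T t20 N))))))) N)))))))))))))))⟩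
def e0_63__65_82 : Ent 4 := ⟨[a0, a63], [a65, a135], (M a12 (F (T t122 (T t151 (T t152 (T t153 (K a4 (M a60 (F (T t43 (L l337 (T t398 (T t448 N)))))) (K a8 (M a60 (F (T t67 (L l337 (T t398 (L l52 (L l56 (T t448 N)))))))) (K a21 (M a192 (F (T t468 (L l15 (L l347 (T t450 (L l15 (L l347 (T t157 N))))))))) (K a25 (M a192 (F (T t21 (L l153 (T t156 (L l15 (T t450 N))))))) (K a29 (M a192 (F (T t468 (L l371 (T t21 (L l201 (T t160 N))))))) (K a38 (M a192 (F (T t468 (T t450 (T t21 N))))) (K a42 (M a192 (F (T t450 (L l153 (T t156 (L l56 (T t157 N))))))) (K a46 (M a192 (F (T t468 (T t21 (L l26 (L l201 (L l408 (T t160 N)))))))) (K a51 (M a192 (F (T t57 (L l153 (L l513 (T t156 (L l415 (T t450 N)))))))) N)))))))))))))))⟩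
def e0_63__65_83 : Ent 4 := ⟨[a0, a63], [a65, a136], (M a48 (F (T t1 (T t2 (T t3 (T t0 (K a16 (M a60 (F (T t43 (T t64 (T t65 N))))) (K a32 (M a60 (F (T t67 (T t64 (L l24 (L l28 (T t65 N))))))) (K a21 (M a192 (F (T t28 (L l47 (L l347 (T t20 (L l47 (L l347 (T t29 N))))))))) (K a37 (M a192 (F (T t19 (L l47 (T t20 (L l156 (T t21 N))))))) (K a53 (M a192 (F (T t19 (L l156 (L l491 (T t21 (T t31 N))))))) (K a26 (M a192 (F (T t28 (T t20 (L l156 (T t21 N)))))) (K a42 (M a192 (F (T t19 (T t20 (L l28 (T t29 N)))))) (K a58 (M a192 (F (T t19 (L l156 (T t21 (L l54 (L l498 (T t31 N)))))))) (K a15 (M a192 (F (T t53 (L l156 (L l483 (T t27 (L l156 (L l469 (T t21 N))))))))) N)))))))))))))))⟩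
def e0_63__65_84 : Ent 4 := ⟨[a0, a63], [a65, a137], (M a48 (F (T t1 (T t2 (T t3 (T t0 (K a16 (M a60 (F (T t64 (L l14 (L l18 (L l333 (T t67 (T t65 N)))))))) (K a32 (M a60 (F (T t64 (L l333 (T t67 (L l24 (L l28 (T t65 N)))))))) (K a21 (M a192 (F (T t28 (L l47 (L l347 (T t20 (L l47 (L l347 (T t29 N))))))))) (K a37 (M a192 (F (T t19 (L l47 (T t20 (T t21 N)))))) (K a53 (M a192 (F (T t19 (L l491 (T t21 (T t31 N)))))) (K a26 (M a192 (F (T t28 (T t20 (T t21 N))))) (K a42 (M a192 (F (T t19 (T t20 (L l28 (T t29 N)))))) (K a58 (M a192 (F (T t19 (T t21 (L l54 (L l498 (T t31 N))))))) (K a15 (M a192 (F (T t57 (L l483 (T t27 (L l325 (T t20 N))))))) N)))))))))))))))⟩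
def e0_63__65_85 : Ent 4 := ⟨[a0, a63], [a65, a138], (M a48 (F (T t2 (L l318 (T t1 (T t3 (T t0 (K a16 (M a60 (F (T t43 (T t64 (T t65 N))))) (K a32 (M a60 (F (T t64 (T t67 (L l24 (L l28 (T t65 N))))))) (K a21 (M a192 (F (T t28 (L l47 (L l318 (L l347 (T t20 (L l47 (L l318 (L l347 (T t29 N))))))))))) (K a37 (M a192 (F (T t19 (L l47 (L l318 (T t20 (L l160 (T t21 N)))))))) (K a53 (M a192 (F (T t19 (L l160 (L l491 (T t21 (T t31 N))))))) (K a26 (M a192 (F (T t28 (L l318 (T t20 (L l160 (T t21 N))))))) (K a42 (M a192 (F (T t19 (L l318 (T t20 (L l28 (L l318 (T t29 N)))))))) (K a58 (M a192 (F (T t19 (L l160 (T t21 (L l54 (L l498 (T t31 N)))))))) (K a15 (M a192 (F (T t33 (L l160 (L l483 (T t27 (L l160 (L l469 (T t21 N))))))))) N))))))))))))))))⟩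
def e0_63__65_86 : Ent 4 := ⟨[a0, a63], [a65, a139], (M a48 (F (T t1 (T t2 (T t3 (T t0 (K a16 (M a60 (F (T t64 (L l14 (L l18 (L l331 (T t67 (T t65 N)))))))) (K a32 (M a60 (F (T t64 (L l331 (T t67 (L l24 (L l28 (T t65 N)))))))) (K a21 (M a192 (F (T t28 (L l47 (L l331 (L l347 (T t20 (L l47 (L l347 (T t29 N)))))))))) (K a37 (M a192 (F (T t19 (L l47 (L l331 (T t20 (T t21 N))))))) (K a53 (M a192 (F (T t19 (L l491 (T t21 (T t31 N)))))) (K a26 (M a192 (F (T t28 (L l331 (T t20 (T t21 N)))))) (K a42 (M a192 (F (T t19 (L l331 (T t20 (L l28 (T t29 N))))))) (K a58 (M a192 (F (T t19 (T t21 (L l54 (L l498 (T t31 N))))))) (K a15 (M a192 (F (T t54 (L l483 (T t27 (L l469 (T t21 N))))))) N)))))))))))))))⟩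
def e0_63__65_87 : Ent 4 := ⟨[a0, a63], [a65, a140], (M a48 (F (T t1 (T t2 (T t3 (T t0 (K a16 (M a60 (F (T t43 (T t64 (T t65 N))))) (K a32 (M a60 (F (T t67 (T t64 (L l24 (L l28 (T t65 N))))))) (K a21 (M a192 (F (T t28 (L l47 (L l347 (T t20 (L l47 (L l347 (T t29 N))))))))) (K a37 (M a192 (F (T t19 (L l47 (T t20 (L l156 (T t21 N))))))) (K a53 (M a192 (F (T t19 (L l156 (L l491 (T t21 (T t31 N))))))) (K a26 (M a192 (F (T t28 (T t20 (L l156 (T t21 N)))))) (K a42 (M a192 (F (T t19 (T t20 (L l28 (T t29 N)))))) (K a58 (M a192 (F (T t19 (L l156 (T t21 (L l54 (L l498 (T t31 N)))))))) (K a15 (M a192 (F (T t54 (L l156 (L l483 (T t27 (L l156 (L l469 (T t21 N))))))))) N)))))))))))))))⟩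
def e0_63__65_88 : Ent 4 := ⟨[a0, a63], [a65, a141], (M a12 (F (T t122 (T t151 (T t152 (T t153 (K a4 (M a60 (F (T t43 (L l327 (T t398 (T t448 N)))))) (K a8 (M a60 (F (T t67 (L l327 (T t398 (L l52 (L l56 (T t448 N)))))))) (K a21 (M a192 (F (T t221 (L l327 (T t156 (L l15 (L l347 (T t157 N)))))))) (K a25 (M a192 (F (T t21 (L l327 (T t156 (L l15 (T t450 N))))))) (K a29 (M a192 (F (T t37 (L l327 (T t156 (T t160 N)))))) (K a38 (M a192 (F (T t450 (L l327 (T t156 (T t21 N)))))) (K a42 (M a192 (F (T t450 (L l327 (T t156 (L l56 (T t157 N))))))) (K a46 (M a192 (F (T t21 (L l327 (T t156 (L l26 (L l408 (T t160 N)))))))) (K a51 (M a192 (F (T t57 (L l327 (L l513 (T t156 (L l415 (T t450 N)))))))) N)))))))))))))))⟩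
def e0_63__65_89 : Ent 4 := ⟨[a0, a63], [a65, a142], (M a48 (F (T t1 (T t2 (T t3 (T t0 (K a16 (M a60 (F (T t43 (T t64 (T t65 N))))) (K a32 (M a60 (F (T t67 (T t64 (L l24 (L l28 (T t65 N))))))) (K a21 (M a192 (F (T t28 (L l47 (L l326 (L l347 (T t20 (L l47 (L l347 (T t29 N)))))))))) (K a37 (M a192 (F (T t19 (L l47 (L l326 (T t20 (T t21 N))))))) (K a53 (M a192 (F (T t19 (L l491 (T t21 (T t31 N)))))) (K a26 (M a192 (F (T t28 (L l326 (T t20 (T t21 N)))))) (K a42 (M a192 (F (T t19 (L l326 (T t20 (L l28 (T t29 N))))))) (K a58 (M a192 (F (T t19 (T t21 (L l54 (L l498 (T t31 N))))))) (K a15 (M a192 (F (T t54 (L l483 (T t27 (L l469 (T t21 N))))))) N)))))))))))))))⟩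
def e0_63__65_90 : Ent 4 := ⟨[a0, a63], [a65, a143], (M a12 (F (T t122 (T t151 (T t152 (T t153 (K a4 (M a60 (F (T t43 (L l325 (T t398 (T t448 N)))))) (K a8 (M a60 (F (T t67 (L l325 (T t398 (L l52 (L l56 (T t448 N)))))))) (K a21 (M a192 (F (T t468 (L l15 (L l347 (T t450 (L l15 (L l347 (T t157 N))))))))) (K a25 (M a192 (F (T t449 (L l15 (T t450 (L l160 (T t21 N))))))) (K a29 (M a192 (F (T t449 (L l160 (L l371 (T t21 (T t160 N))))))) (K a38 (M a192 (F (T t468 (T t450 (L l160 (T t21 N)))))) (K a42 (M a192 (F (T t449 (T t450 (L l56 (T t157 N)))))) (K a46 (M a192 (F (T t449 (L l160 (T t21 (L l26 (L l408 (T t160 N)))))))) (K a51 (M a192 (F (T t158 (L l160 (L l513 (T t156 (L l160 (L l439 (T t21 N))))))))) N)))))))))))))))⟩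
def e0_63__65_91 : Ent 4 := ⟨[a0, a63], [a65, a148], (M a48 (F (T t1 (T t2 (T t3 (T t0 (K a16 (M a60 (F (T t43 (T t64 (T t65 N))))) (K a32 (M a60 (F (T t64 (L l346 (T t67 (L l24 (L l28 (T t65 N)))))))) (K a21 (M a192 (F (T t206 (L l166 (L l216 (T t27 (L l47 (L l163 (L l347 (T t29 N)))))))))) (K a37 (M a192 (F (T t206 (L l166 (L l216 (T t27 (L l163 (L l216 (T t21 N))))))))) (K a53 (M a192 (F (T t37 (L l166 (L l216 (T t27 (T t31 N))))))) (K a26 (M a192 (F (T t22 (L l166 (L l216 (T t27 (L l163 (L l216 (T t21 N))))))))) (K a42 (M a192 (F (L l166 (T t19 (L l163 (T t20 (L l28 (L l163 (T t29 N))))))))) (K a58 (M a192 (F (L l166 (T t19 (L l163 (L l216 (T t21 (L l54 (L l498 (T t31 N)))))))))) (K a15 (M a192 (F (T t54 (L l166 (L l216 (L l483 (T t27 (L l163 (L l216 (L l469 (T t21 N))))))))))) N)))))))))))))))⟩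
def e0_63__65_92 : Ent 4 := ⟨[a0, a63], [a65, a149], (M a48 (F (T t2 (L l347 (L l491 (T t1 (L l347 (T t3 (L l375 (T t0 (K a16 (M a60 (F (T t70 (L l14 (L l18 (L l347 (T t67 (L l351 (T t65 N))))))))) (K a32 (M a60 (F (T t70 (L l347 (T t67 (L l24 (L l28 (L l351 (T t65 N))))))))) (K a21 (M a85 (F (T t99 (L l220 (T t50 (L l47 (L l170 (L l220 (L l491 (T t544 (L l47 (L l81 (L l491 (T t545 N)))))))))))))) (K a37 (M a52 (F (T t82 (L l495 (T t83 (L l21 (L l28 (T t84 N)))))))) (K a53 (M a12 (L l491 (F (T t151 (T t443 (L l47 (L l347 (L l371 (T t146 (K a197 (M a101 (F (T t151 (L l236 (T t334 N))))) (K a101 (M a197 (F (T t151 (T t445 (L l47 (L l347 (L l371 (T t146 N)))))))) N))))))))))) (K a26 (M a56 (F (T t133 (L l491 (T t134 (L l12 (L l18 (L l347 (L l491 (T t135 N)))))))))) (K a42 (M a255 (F (T t546 (L l141 (L l347 (T t547 (L l28 (L l220 (L l390 (L l491 (T t548 N))))))))))) (K a58 (M a12 (F (T t443 (L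 l347 (L l371 (T t122 (L l347 (L l371 (T t146 N))))))))) (K a15 (M a4 (F (T t129 (L l63 (T t528 (T t520 N)))))) N)))))))))))))))))))⟩
def e0_63__65_93 : Ent 4 := ⟨[a0, a63], [a65, a150], (M a48 (F (T t1 (T t2 (T t3 (T t0 (K a16 (M a60 (F (T t43 (T t64 (T t65 N))))) (K a32 (M a60 (F (T t64 (L l350 (T t67 (L l24 (L l28 (T t65 N)))))))) (K a21 (M a192 (F (T t28 (L l47 (L l163 (L l347 (T t20 (L l47 (L l163 (L l347 (T t29 N))))))))))) (K a37 (M a192 (F (T t19 (L l47 (L l163 (T t20 (L l163 (T t21 N)))))))) (K a53 (M a192 (F (T t19 (L l163 (L l491 (T t21 (L l516 (T t31 N)))))))) (K a26 (M a192 (F (T t27 (L l163 (T t20 (L l163 (T t21 N))))))) (K a42 (M a192 (F (T t19 (L l163 (T t20 (L l28 (L l163 (T t29 N)))))))) (K a58 (M a192 (F (T t19 (L l163 (T t21 (L l54 (L l498 (L l516 (T t31 N))))))))) (K a15 (M a192 (F (T t36 (L l163 (L l325 (T t20 (L l163 (L l469 (T t21 N))))))))) N)))))))))))))))⟩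
def e0_63__65_94 : Ent 4 := ⟨[a0, a63], [a65, a151], (M a48 (F (T t1 (T t2 (T t3 (L l373 (T t0 (K a16 (M a60 (F (T t64 (L l14 (L l18 (T t67 (L l349 (T t65 N)))))))) (K a32 (M a60 (F (T t64 (T t67 (L l24 (L l28 (L l349 (T t65 N)))))))) (K a21 (M a192 (F (T t28 (L l47 (L l163 (L l347 (T t20 (L l47 (L l163 (L l347 (T t29 N))))))))))) (K a37 (M a192 (F (T t19 (L l47 (L l163 (T t20 (L l163 (T t21 N)))))))) (K a53 (M a192 (F (T t19 (L l163 (L l491 (T t21 (L l169 (T t31 N)))))))) (K a26 (M a192 (F (T t27 (L l163 (T t20 (L l163 (T t21 N))))))) (K a42 (M a192 (F (T t19 (L l163 (T t20 (L l28 (L l163 (T t29 N)))))))) (K a58 (M a192 (F (T t19 (L l163 (T t21 (L l54 (L l169 (L l498 (T t31 N))))))))) (K a15 (M a192 (F (T t53 (L l483 (T t27 (L l163 (L l469 (T t21 N)))))))) N))))))))))))))))⟩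
def e0_63__65_95 : Ent 4 := ⟨[a0, a63], [a65, a152], (M a12 (F (T t122 (T t151 (T t152 (T t153 (K a4 (M a60 (F (T t43 (T t398 (T t448 N))))) (K a8 (M a60 (F (T t67 (T t398 (L l52 (L l56 (T t448 N))))))) (K a21 (M a192 (F (T t221 (L l508 (T t156 (L l15 (L l347 (T t157 N)))))))) (K a25 (M a192 (F (T t467 (L l508 (T t156 (T t21 N)))))) (K a29 (M a192 (F (T t37 (L l508 (T t156 (T t160 N)))))) (K a38 (M a192 (F (T t450 (L l508 (T t156 (T t21 N)))))) (K a42 (M a192 (F (T t450 (L l508 (T t156 (L l56 (T t157 N))))))) (K a46 (M a192 (F (T t21 (L l508 (T t156 (L l26 (L l408 (T t160 N)))))))) (K a51 (M a192 (F (T t57 (L l508 (L l513 (T t156 (L l415 (T t450 N)))))))) N)))))))))))))))⟩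
def e0_63__65_96 : Ent 4 := ⟨[a0, a63], [a65, a153], (M a48 (F (T t1 (T t2 (T t3 (T t0 (K a16 (M a60 (F (T t43 (L l513 (T t64 (T t65 N)))))) (K a32 (M a60 (F (T t67 (L l513 (T t64 (L l24 (L l28 (T t65 N)))))))) (K a21 (M a192 (F (T t28 (L l47 (L l167 (L l347 (T t20 (L l47 (L l167 (L l347 (T t29 N))))))))))) (K a37 (M a192 (F (T t19 (L l47 (L l167 (T t20 (L l167 (T t21 N)))))))) (K a53 (M a192 (F (T t19 (L l167 (L l491 (T t21 (L l501 (T t31 N)))))))) (K a26 (M a192 (F (T t27 (L l167 (T t20 (L l167 (T t21 N))))))) (K a42 (M a192 (F (T t19 (L l167 (T t20 (L l28 (L l167 (T t29 N)))))))) (K a58 (M a192 (F (T t19 (L l167 (T t21 (L l54 (L l498 (L l501 (T t31 N))))))))) (K a15 (M a192 (F (T t36 (L l167 (L l325 (T t20 (L l167 (L l469 (T t21 N))))))))) N)))))))))))))))⟩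
def e0_63__65_97 : Ent 4 := ⟨[a0, a63], [a65, a154], (M a12 (F (T t122 (T t151 (T t152 (T t153 (K a4 (M a60 (F (T t43 (T t398 (T t448 N))))) (K a8 (M a60 (F (T t67 (T t398 (L l52 (L l56 (T t448 N))))))) (K a21 (M a192 (F (T t468 (L l15 (L l170 (L l347 (T t450 (L l15 (L l170 (L l347 (T t157 N))))))))))) (K a25 (M a192 (F (T t449 (L l15 (L l170 (T t450 (L l170 (T t21 N)))))))) (K a29 (M a192 (F (T t449 (L l170 (L l371 (T t21 (L l498 (T t160 N)))))))) (K a38 (M a192 (F (T t156 (L l170 (T t450 (L l170 (T t21 N))))))) (K a42 (M a192 (F (T t449 (L l170 (T t450 (L l56 (L l170 (T t157 N)))))))) (K a46 (M a192 (F (T t449 (L l170 (T t21 (L l26 (L l408 (L l498 (T t160 N))))))))) (K a51 (M a192 (F (T t496 (L l170 (L l415 (T t450 (L l170 (L l439 (T t21 N))))))))) N)))))))))))))))⟩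
def e0_63__65_98 : Ent 4 := ⟨[a0, a63], [a65, a155], (M a48 (F (T t1 (T t2 (T t3 (T t0 (K a16 (M a60 (F (T t43 (L l511 (T t64 (T t65 N)))))) (K a32 (M a60 (F (T t67 (L l511 (T t64 (L l24 (L l28 (T t65 N)))))))) (K a21 (M a192 (F (T t28 (L l47 (L l347 (L l511 (T t20 (L l47 (L l347 (L l367 (T t29 N))))))))))) (K a37 (M a192 (F (T t19 (L l47 (L l511 (T t20 (T t21 N))))))) (K a53 (M a192 (F (T t19 (L l491 (T t21 (L l169 (T t31 N))))))) (K a26 (M a192 (F (T t28 (L l511 (T t20 (T t21 N)))))) (K a42 (M a192 (F (T t19 (L l511 (T t20 (L l28 (L l367 (T t29 N)))))))) (K a58 (M a192 (F (T t19 (T t21 (L l54 (L l169 (L l498 (T t31 N)))))))) (K a15 (M a192 (F (T t57 (L l483 (T t27 (L l325 (L l511 (T t20 N)))))))) N)))))))))))))))⟩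
def e0_63__65_99 : Ent 4 := ⟨[a0, a63], [a65, a156], (M a48 (F (T t1 (T t2 (T t3 (T t0 (K a16 (M a60 (F (T t43 (T t64 (T t65 N))))) (K a32 (M a60 (F (T t67 (T t64 (L l24 (L l28 (T t65 N))))))) (K a21 (M a192 (F (T t28 (L l47 (L l347 (T t20 (L l47 (L l347 (T t29 N))))))))) (K a37 (M a192 (F (T t21 (L l166 (T t27 (L l47 (T t20 N))))))) (K a53 (M a192 (F (T t28 (L l491 (T t21 (L l165 (T t31 N))))))) (K a26 (M a192 (F (T t28 (T t20 (T t21 N))))) (K a42 (M a192 (F (T t20 (L l166 (T t27 (L l28 (T t29 N))))))) (K a58 (M a192 (F (T t28 (T t21 (L l54 (L l165 (L l498 (T t31 N)))))))) (K a15 (M a192 (F (T t57 (L l166 (L l483 (T t27 (L l325 (T t20 N)))))))) N)))))))))))))))⟩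
def e0_63__65_100 : Ent 4 := ⟨[a0, a63], [a65, a157], (M a48 (F (T t1 (T t2 (T t3 (L l363 (T t0 (K a16 (M a60 (F (T t43 (L l503 (T t64 (T t65 N)))))) (K a32 (M a60 (F (T t67 (L l503 (T t64 (L l24 (L l28 (T t65 N)))))))) (K a21 (M a192 (F (T t28 (L l47 (L l167 (L l347 (T t20 (L l47 (L l167 (L l347 (T t29 N))))))))))) (K a37 (M a192 (F (T t19 (L l47 (L l167 (T t20 (L l167 (T t21 N)))))))) (K a53 (M a192 (F (T t19 (L l167 (L l491 (T t21 (L l165 (T t31 N)))))))) (K a26 (M a192 (F (T t27 (L l167 (T t20 (L l167 (T t21 N))))))) (K a42 (M a192 (F (T t19 (L l167 (T t20 (L l28 (L l167 (T t29 N)))))))) (K a58 (M a192 (F (T t19 (L l167 (T t21 (L l54 (L l165 (L l498 (T t31 N))))))))) (K a15 (M a192 (F (T t53 (L l483 (T t27 (L l167 (L l469 (T t21 N)))))))) N))))))))))))))))⟩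
def e0_63__65_101 : Ent 4 := ⟨[a0, a63], [a65, a158], (M a48 (F (T t1 (T t2 (T t3 (T t0 (K a16 (M a60 (F (T t43 (T t64 (T t65 N))))) (K a32 (M a60 (F (T t64 (T t67 (L l24 (L l28 (T t65 N))))))) (K a21 (M a192 (F (T t28 (L l47 (L l347 (L l506 (T t20 (L l47 (L l347 (L l362 (T t29 N))))))))))) (K a37 (M a192 (F (T t19 (L l47 (L l506 (T t20 (T t21 N))))))) (K a53 (M a192 (F (T t19 (L l491 (T t21 (L l165 (T t31 N))))))) (K a26 (M a192 (F (T t28 (L l506 (T t20 (T t21 N)))))) (K a42 (M a192 (F (T t19 (L l506 (T t20 (L l28 (L l362 (T t29 N)))))))) (K a58 (M a192 (F (T t19 (T t21 (L l54 (L l165 (L l498 (T t31 N)))))))) (K a15 (M a192 (F (T t57 (L l483 (T t27 (L l325 (L l506 (T t20 N)))))))) N)))))))))))))))⟩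
def e0_63__65_102 : Ent 4 := ⟨[a0, a63], [a65, a159], (M a60 (F (T t67 (T t43 (T t68 (L l305 (T t69 (K a20 (M a48 (F (T t2 (T t64 (L l11 (T t235 N)))))) (K a40 (M a48 (F (T t1 (T t64 (L l52 (T t235 N)))))) (K a21 (M a192 (F (T t72 (L l170 (L l347 (T t73 (L l170 (L l347 (T t74 N))))))))) (K a41 (M a192 (F (T t77 (L l65 (L l170 (T t35 (L l170 (T t73 N)))))))) (K a61 (M a192 (F (T t72 (L l65 (L l170 (L l515 (T t35 (L l169 (T t80 N))))))))) (K a22 (M a192 (F (T t72 (L l170 (T t21 (L l170 (T t73 N))))))) (K a42 (M a192 (F (T t77 (L l170 (T t73 (L l22 (L l170 (T t74 N)))))))) (K a62 (M a192 (F (T t72 (L l170 (T t35 (L l66 (L l169 (L l516 (T t80 N))))))))) (K a3 (M a85 (F (T t447 (T t115 N)))) N))))))))))))))))⟩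
def e0_63__65_103 : Ent 4 := ⟨[a0, a63], [a65, a168], (M a48 (F (T t1 (T t2 (T t3 (L l400 (T t0 (K a16 (M a60 (F (T t64 (L l14 (L l18 (T t67 (L l388 (T t65 N)))))))) (K a32 (M a60 (L l400 (F (T t64 (T t67 (L l24 (L l28 (L l388 (T t65 (K a100 (M a236 (F (T t64 (L l28 (L l305 (T t69 (T t44 N))))))) (K a236 (M a100 (F (T t67 (L l286 (L l394 (T t549 N)))))) N))))))))))) (K a21 (M a192 (F (T t206 (L l216 (T t27 (L l47 (L l347 (L l400 (T t29 N))))))))) (K a37 (M a192 (F (T t19 (L l47 (T t20 (L l216 (T t21 N))))))) (K a53 (M a192 (F (T t19 (L l216 (L l491 (T t21 (T t31 N))))))) (K a26 (M a192 (F (T t20 (L l216 (T t27 (L l216 (T t21 N))))))) (K a42 (M a192 (F (T t19 (T t20 (L l28 (L l400 (T t29 N))))))) (K a58 (M a192 (F (T t19 (L l216 (T t21 (L l54 (L l498 (T t31 N)))))))) (K a15 (M a192 (F (T t54 (L l216 (L l483 (T t27 (L l216 (L l469 (T t21 N))))))))) N))))))))))))))))⟩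
def e0_63__65_104 : Ent 4 := ⟨[a0, a63], [a65, a169], (M a48 (F (T t1 (T t2 (T t3 (T t0 (K a16 (M a60 (F (T t64 (L l14 (L l18 (L l393 (L l477 (T t67 (T t65 N))))))))) (K a32 (M a60 (F (T t64 (L l393 (L l477 (T t67 (L l24 (L l28 (T t65 N))))))))) (K a21 (M a192 (F (T t28 (L l47 (L l217 (L l347 (T t20 (L l47 (L l217 (L l347 (T t29 N))))))))))) (K a37 (M a192 (F (T t19 (L l47 (L l217 (T t20 (L l217 (T t21 N)))))))) (K a53 (M a192 (F (T t19 (L l217 (L l491 (T t21 (L l393 (T t31 N)))))))) (K a26 (M a192 (F (T t27 (L l217 (T t20 (L l217 (T t21 N))))))) (K a42 (M a192 (F (T t19 (L l217 (T t20 (L l28 (L l217 (T t29 N)))))))) (K a58 (M a192 (F (T t19 (L l217 (T t21 (L l54 (L l393 (L l498 (T t31 N))))))))) (K a15 (M a192 (F (T t36 (L l217 (L l325 (T t20 (L l217 (L l469 (T t21 N))))))))) N)))))))))))))))⟩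
def e0_63__65_105 : Ent 4 := ⟨[a0, a63], [a65, a170], (M a48 (F (T t3 (L l462 (T t1 (L l390 (T t2 (L l390 (L l404 (T t0 (K a16 (M a60 (F (T t64 (L l14 (L l18 (T t67 (L l390 (L l392 (T t65 N))))))))) (K a32 (M a60 (L l404 (F (T t64 (T t67 (L l24 (L l28 (L l390 (L l392 (T t65 (K a101 (M a239 (F (T t451 (L l28 (L l305 (L l390 (T t69 (L l24 (L l28 (L l390 (L l392 (T t65 N)))))))))))) (K a239 (M a101 (F (T t67 (L l376 (T t313 N))))) N)))))))))))) (K a21 (M a192 (F (L l18 (T t19 (L l390 (T t206 (L l47 (L l220 (L l347 (L l404 (T t29 N))))))))))) (K a37 (M a192 (F (T t19 (L l390 (T t206 (L l28 (L l47 (L l220 (L l404 (T t29 N)))))))))) (K a53 (M a12 (F (T t550 (L l47 (L l402 (T t122 (L l47 (L l402 (T t146 N))))))))) (K a26 (M a192 (F (L l18 (T t19 (L l54 (L l390 (T t206 (L l220 (L l404 (T t29 N)))))))))) (K a42 (M a106 (F (T t309 (L l76 (L l220 (T t551 (L l28 (L l76 (L l206 (L l220 (L l404 (T t552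 (L l28 (L l81 (L l206 (L l404 (T t553 N))))))))))))))))) (K a58 (M a12 (F (T t445 (L l402 (T t122 (L l402 (T t146 N))))))) (K a15 (M a192 (F (L l483 (T t19 (L l325 (L l390 (T t206 (L l220 (L l404 (T t29 N)))))))))) N)))))))))))))))))))⟩
def e0_63__65_106 : Ent 4 := ⟨[a0, a63], [a65, a171], (M a48 (F (T t1 (T t2 (T t3 (T t0 (K a16 (M a60 (F (T t64 (L l14 (L l18 (L l391 (L l475 (T t67 (T t65 N))))))))) (K a32 (M a60 (F (T t64 (L l391 (L l475 (T t67 (L l24 (L l28 (T t65 N))))))))) (K a21 (M a192 (F (T t28 (L l47 (L l347 (T t20 (L l47 (L l347 (T t29 N))))))))) (K a37 (M a192 (F (T t19 (L l47 (T t20 (L l475 (T t21 N))))))) (K a53 (M a192 (F (T t19 (L l475 (L l491 (T t21 (T t31 N))))))) (K a26 (M a192 (F (T t28 (T t20 (L l475 (T t21 N)))))) (K a42 (M a192 (F (T t19 (T t20 (L l28 (T t29 N)))))) (K a58 (M a192 (F (T t19 (L l475 (T t21 (L l54 (L l498 (T t31 N)))))))) (K a15 (M a192 (F (T t57 (L l483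 (T t27 (L l325 (T t20 N))))))) N)))))))))))))))⟩
def e0_63__65_107 : Ent 4 := ⟨[a0, a63], [a65, a172], (M a48 (F (T t1 (T t2 (T t3 (T t0 (K a16 (M a60 (F (T t43 (T t64 (T t65 N))))) (K a32 (M a60 (F (T t67 (T t64 (L l24 (L l28 (T t65 N))))))) (K a21 (M a192 (F (T t28 (L l47 (L l347 (T t20 (L l47 (L l347 (T t29 N))))))))) (K a37 (M a192 (F (T t19 (L l47 (T t20 (T t21 N)))))) (K a53 (M a192 (F (T t19 (L l491 (T t21 (T t31 N)))))) (K a26 (M a192 (F (T t28 (T t20 (T t21 N))))) (K a42 (M a192 (F (T t19 (T t20 (L l28 (T t29 N)))))) (K a58 (M a192 (F (T t19 (T t21 (L l54 (L l498 (T t31 N))))))) (K a15 (M a192 (F (T t57 (L l483 (T t27 (L l325 (T t20 N))))))) N)))))))))))))))⟩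
def e0_63__65_108 : Ent 4 := ⟨[a0, a63], [a65, a173], (M a12 (F (T t122 (T t151 (T t152 (T t153 (K a4 (M a60 (F (T t43 (L l471 (T t398 (T t448 N)))))) (K a8 (M a60 (F (T t67 (L l471 (T t398 (L l52 (L l56 (T t448 N)))))))) (K a21 (M a192 (F (T t468 (L l15 (L l347 (T t450 (L l15 (L l347 (T t157 N))))))))) (K a25 (M a192 (F (T t449 (L l15 (T t450 (T t21 N)))))) (K a29 (M a192 (F (T t449 (L l371 (T t21 (T t160 N)))))) (K a38 (M a192 (F (T t468 (T t450 (T t21 N))))) (K a42 (M a192 (F (T t449 (T t450 (L l56 (T t157 N)))))) (K a46 (M a192 (F (T t449 (T t21 (L l26 (L l408 (T t160 N))))))) (K a51 (M a192 (F (T t57 (L l513 (T t156 (L l415 (T t450 N))))))) N)))))))))))))))⟩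
def e0_63__65_109 : Ent 4 := ⟨[a0, a63], [a65, a174], (M a48 (F (T t1 (T t2 (T t3 (T t0 (K a16 (M a60 (F (T t43 (T t64 (T t65 N))))) (K a32 (M a60 (F (T t67 (T t64 (L l24 (L l28 (T t65 N))))))) (K a21 (M a192 (F (T t28 (L l47 (L l347 (T t20 (L l47 (L l347 (T t29 N))))))))) (K a37 (M a192 (F (T t19 (L l47 (T t20 (L l470 (T t21 N))))))) (K a53 (M a192 (F (T t19 (L l470 (L l491 (T t21 (T t31 N))))))) (K a26 (M a192 (F (T t28 (T t20 (L l470 (T t21 N)))))) (K a42 (M a192 (F (T t19 (T t20 (L l28 (T t29 N)))))) (K a58 (M a192 (F (T t19 (L l470 (T t21 (L l54 (L l498 (T t31 N)))))))) (K a15 (M a192 (F (T t57 (L l483 (T t27 (L l325 (T t20 N))))))) N)))))))))))))))⟩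
def e0_63__65_110 : Ent 4 := ⟨[a0, a63], [a65, a175], (M a12 (F (T t122 (T t151 (T t152 (T t153 (K a4 (M a60 (F (T t43 (L l469 (T t398 (T t448 N)))))) (K a8 (M a60 (F (T t67 (L l469 (T t398 (L l52 (L l56 (T t448 N)))))))) (K a21 (M a192 (F (T t468 (L l15 (L l347 (T t450 (L l15 (L l347 (T t157 N))))))))) (K a25 (M a192 (F (T t449 (L l15 (T t450 (L l469 (T t21 N))))))) (K a29 (M a192 (F (T t449 (L l371 (L l469 (T t21 (T t160 N))))))) (K a38 (M a192 (F (T t468 (T t450 (L l469 (T t21 N)))))) (K a42 (M a192 (F (T t449 (T t450 (L l56 (T t157 N)))))) (K a46 (M a192 (F (T t449 (L l469 (T t21 (L l26 (L l408 (T t160 N)))))))) (K a51 (M a192 (F (T t57 (L l513 (T t156 (L l415 (T t450 N))))))) N)))))))))))))))⟩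
def e0_63__65_111 : Ent 4 := ⟨[a0, a63], [a65, a188], (M a48 (F (T t1 (T t2 (T t3 (T t0 (K a16 (M a60 (F (T t43 (T t64 (T t65 N))))) (K a32 (M a60 (F (T t67 (T t64 (L l24 (L l28 (T t65 N))))))) (K a21 (M a192 (F (T t28 (L l47 (L l347 (T t20 (L l47 (L l347 (T t29 N))))))))) (K a37 (M a192 (F (T t19 (L l47 (T t20 (L l216 (T t21 N))))))) (K a53 (M a192 (F (T t19 (L l216 (L l491 (T t21 (T t31 N))))))) (K a26 (M a192 (F (T t28 (T t20 (L l216 (T t21 N)))))) (K a42 (M a192 (F (T t19 (T t20 (L l28 (T t29 N)))))) (K a58 (M a192 (F (T t19 (L l216 (T t21 (L l54 (L l498 (T t31 N)))))))) (K a15 (M a192 (F (T t54 (L l216 (L l483 (T t27 (L l216 (L l469 (T t21 N))))))))) N)))))))))))))))⟩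
def e0_63__65_112 : Ent 4 := ⟨[a0, a63], [a65, a189], (M a48 (F (T t1 (T t2 (T t3 (T t0 (K a16 (M a60 (F (T t43 (L l431 (T t64 (T t65 N)))))) (K a32 (M a60 (F (T t67 (L l431 (T t64 (L l24 (L l28 (T t65 N)))))))) (K a21 (M a192 (F (T t28 (L l47 (L l217 (L l347 (T t20 (L l47 (L l217 (L l347 (T t29 N))))))))))) (K a37 (M a192 (F (T t19 (L l47 (L l217 (T t20 (L l217 (T t21 N)))))))) (K a53 (M a192 (F (T t19 (L l217 (L l491 (T t21 (T t31 N))))))) (K a26 (M a192 (F (T t27 (L l217 (T t20 (L l217 (T t21 N))))))) (K a42 (M a192 (F (T t19 (L l217 (T t20 (L l28 (L l217 (T t29 N)))))))) (K a58 (M a192 (F (T t19 (L l217 (T t21 (L l54 (L l498 (T t31 N)))))))) (K a15 (M a192 (F (T t54 (L l483 (T t27 (L l217 (L l469 (T t21 N)))))))) N)))))))))))))))⟩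
def e0_63__65_113 : Ent 4 := ⟨[a0, a63], [a65, a190], (M a48 (F (T t1 (T t2 (T t3 (T t0 (K a16 (M a60 (F (T t43 (T t64 (T t65 N))))) (K a32 (M a60 (F (T t64 (T t67 (L l24 (L l28 (T t65 N))))))) (K a21 (M a192 (F (T t28 (L l47 (L l347 (T t20 (L l47 (L l347 (T t29 N))))))))) (K a37 (M a192 (F (T t19 (L l47 (T t20 (L l434 (T t21 N))))))) (K a53 (M a192 (F (T t19 (L l434 (L l491 (T t21 (T t31 N))))))) (K a26 (M a192 (F (T t28 (T t20 (L l434 (T t21 N)))))) (K a42 (M a192 (F (T t19 (T t20 (L l28 (T t29 N)))))) (K a58 (M a192 (F (T t19 (L l434 (T t21 (L l54 (L l498 (T t31 N)))))))) (K a15 (M a192 (F (T t57 (L l483 (T t27 (L l325 (T t20 N))))))) N)))))))))))))))⟩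
def e0_63__65_114 : Ent 4 := ⟨[a0, a63], [a65, a191], (M a48 (F (T t1 (T t2 (T t3 (T t0 (K a16 (M a60 (F (T t43 (T t64 (T t65 N))))) (K a32 (M a60 (F (T t67 (T t64 (L l24 (L l28 (T t65 N))))))) (K a21 (M a192 (F (T t28 (T t206 (L l47 (L l220 (L l347 (T t29 N)))))))) (K a37 (M a192 (F (T t19 (T t206 (L l47 (L l220 (T t35 N))))))) (K a53 (M a192 (F (T t19 (L l47 (L l220 (L l491 (T t35 (L l213 (T t31 N))))))))) (K a26 (M a192 (F (T t28 (L l54 (T t206 (L l18 (L l220 (T t35 N)))))))) (K a42 (M a192 (F (T t19 (L l54 (L l390 (T t206 (L l28 (L l220 (T t29 N))))))))) (K a58 (M a192 (F (T t19 (L l220 (T t35 (L l54 (L l213 (L l498 (T t31 N))))))))) (K a15 (M a192 (F (T t53 (L l483 (T t19 (L l220 (L l469 (T t35 N)))))))) N)))))))))))))))⟩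
def e0_63__65_115 : Ent 4 := ⟨[a0, a63], [a65, a192], (M a48 (F (T t48 (L l339 (T t1 (L l339 (T t2 (L l339 (T t3 (L l339 (T t0 (K a16 (M a60 (F (T t138 (L l14 (L l18 (L l309 (T t67 (T t65 N)))))))) (K a32 (M a60 (F (T t116 (L l489 (T t64 (L l24 (L l28 (T t65 N)))))))) (K a21 (M a255 (F (T t554 (L l141 (L l236 (L l347 (T t547 (L l47 (L l236 (T t548 N)))))))))) (K a37 (M a52 (F (T t555 (L l334 (T t82 (L l21 (L l28 (T t84 N)))))))) (K a53 (M a12 (F (T t145 (L l47 (L l489 (T t122 (L l47 (T t146 N)))))))) (K a26 (M a56 (F (T t556 (L l334 (T t133 (L l12 (L l18 (T t135 N)))))))) (K a42 (M a255 (F (T t557 (L l141 (L l236 (T t547 (L l28 (L l236 (L l390 (T t548 N)))))))))) (K a58 (M a12 (F (T t145 (L l489 (T t122 (T t146 N)))))) (K a15 (M a4 (L l339 (F (T t129 (L l63 (L l514 (T t528 (T t520 (K a133 (M a74 (F (T t558 (L l73 (L l489 (T t519 (T t520 N))))))) (K a74 (M a133 (F (T t558 (L l73 (L l489 (T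 t519 (T t520 N))))))) N)))))))))) N))))))))))))))))))))⟩
def e0_63__65_116 : Ent 4 := ⟨[a0, a63], [a65, a193], (M a48 (L l305 (F (T t1 (T t2 (T t3 (T t0 (K a16 (M a149 (L l305 (F (T t7 (L l76 (L l228 (L l293 (T t5 (L l233 (L l293 (T t6 (K a1 (M a129 (F (L l76 (T t10 (L l233 (L l293 (T t6 N))))))) (K a129 (M a1 (F (T t534 (L l233 (L l368 (T t16 N)))))) N))))))))))))) (K a32 (M a149 (L l305 (F (L l228 (T t11 (L l28 (L l293 (T t176 (L l28 (L l233 (L l293 (T t6 (K a1 (M a129 (F (L l76 (T t10 (L l28 (L l233 (L l293 (T t6 N)))))))) (K a129 (M a1 (F (L l28 (T t534 (L l233 (T t16 N)))))) N)))))))))))))) (K a21 (M a149 (L l305 (F (T t7 (L l18 (L l233 (T t14 (T t13 (K a1 (M a129 (L l65 (F (T t7 (L l76 (T t10 (L l18 (L l233 (T t14 (K a41 (M a61 (F (T t7 (L l22 (L l50 (L l57 (T t17 N))))))) (K a61 (M a41 (F (T t7 (L l76 (L l431 (T t10 (L l18 (L l233 (T t14 N))))))))) N))))))))))) (K a129 (M a1 (F (T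 t7 (L l485 (T t535 N))))) N)))))))))) (K a37 (M a1 (F (T t295 (L l28 (L l515 (T t534 (L l25 (L l28 (T t536 (T t537 N)))))))))) (K a53 (M a1 (F (T t538 (T t295 (L l31 (L l35 (L l515 (T t539 (L l31 (T t540 N)))))))))) (K a26 (M a3 (L l305 (F (T t559 (L l54 (T t137 (L l16 (L l18 (T t560 (K a1 (M a129 (F (L l76 (T t561 (L l16 (L l18 (L l65 (T t560 (L l18 (L l76 (T t562 N))))))))))) (K a129 (Fr a1 a2 l0 (V t563)) N))))))))))) (K a42 (M a192 (L l305 (F (T t19 (L l515 (T t20 (L l28 (L l515 (T t29 (K a1 (M a129 (F (T t27 (L l54 (L l233 (L l390 (T t24 N))))))) (K a129 (M a1 (F (L l390 (T t22 (L l66 (L l485 (T t535 N))))))) N))))))))))) (K a58 (M a1 (F (T t295 (L l54 (L l515 (T t534 (L l54 (L l485 (L l515 (T t541 (L l36 (L l54 (T t540 N))))))))))))) (K a15 (M a1 (F (T t538 (L l73 (L l485 (T t535 (T t542 N))))))) (K a1 (M a129 (F (T t0 (L l65 (T t1 (L l5 (T t2 (L l65 (T t3 (K a16 (M a149 (F (L l76 (T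 t10 (L l233 (L l293 (T t6 N))))))) (K a32 (M a149 (F (L l76 (T t10 (L l28 (L l233 (L l293 (T t6 N)))))))) (K a21 (M a149 (L l65 (F (T t7 (L l76 (T t10 (L l18 (L l233 (T t14 (K a41 (M a61 (F (T t7 (L l22 (L l50 (L l57 (T t17 N))))))) (K a61 (M a41 (F (T t7 (L l76 (L l431 (T t10 (L l18 (L l233 (T t14 N))))))))) N))))))))))) (K a37 (M a192 (F (T t19 (L l233 (T t24 N))))) (K a53 (M a149 (F (L l76 (T t10 (L l293 (T t26 N)))))) (K a26 (M a192 (F (T t28 (L l54 (L l233 (T t24 N)))))) (K a42 (M a192 (F (T t27 (L l54 (L l233 (L l390 (T t24 N))))))) (K a58 (M a189 (F (T t40 (L l54 (L l293 (L l473 (T t41 N))))))) (K a15 (M a192 (F (T t36 (L l233 (T t24 N))))) N)))))))))))))))))) (K a129 (M a1 (F (T t2 (L l485 (T t535 (L l515 (T t534 N))))))) N))))))))))))))))))⟩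
def e0_63__65_117 : Ent 4 := ⟨[a0, a63], [a65, a194], (M a60 (F (T t67 (T t43 (L l306 (T t68 (L l305 (L l516 (T t69 (K a20 (M a48 (F (T t2 (L l486 (T t64 (L l11 (L l306 (T t235 N)))))))) (K a40 (M a48 (F (T t1 (L l486 (T t64 (L l52 (L l306 (T t235 N)))))))) (K a21 (M a192 (F (T t72 (L l516 (T t75 (L l11 (L l76 (L l516 (T t78 N))))))))) (K a41 (M a192 (F (T t77 (L l65 (L l294 (T t35 (L l516 (T t75 N)))))))) (K a61 (M a192 (F (T t72 (L l65 (L l294 (L l515 (T t35 (L l516 (T t80 N))))))))) (K a22 (M a192 (F (T t72 (T t21 (L l516 (T t75 N)))))) (K a42 (M a192 (F (T t79 (L l390 (L l516 (T t75 (L l76 (L l390 (L l516 (T t78 N)))))))))) (K a62 (M a106 (F (T t564 (L l76 (T t565 (L l294 (T t566 N))))))) (K a3 (M a85 (F (T t447 (T t115 N)))) N))))))))))))))))))⟩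
def e0_63__65_118 : Ent 4 := ⟨[a0, a63], [a65, a195], (M a48 (F (T t48 (L l337 (T t1 (L l337 (T t2 (L l337 (T t3 (L l337 (T t0 (K a16 (M a60 (F (T t138 (L l14 (L l18 (L l307 (T t67 (T t65 N)))))))) (K a32 (M a60 (F (T t116 (L l487 (T t64 (L l24 (L l28 (T t65 N)))))))) (K a21 (M a192 (F (T t53 (L l273 (T t27 (L l47 (L l347 (T t29 N)))))))) (K a37 (M a192 (F (T t54 (L l273 (T t27 (L l295 (T t21 N))))))) (K a53 (M a192 (F (T t55 (L l295 (L l491 (T t21 (T t31 N))))))) (K a26 (M a192 (F (T t56 (L l273 (T t27 (L l295 (T t21 N))))))) (K a42 (M a192 (F (T t56 (L l273 (T t27 (L l28 (T t29 N))))))) (K a58 (M a192 (F (T t57 (L l273 (T t27 (L l54 (L l498 (T t31 N)))))))) (K a15 (M a85 (L l337 (F (T t567 (T t568 (K a135 (M a75 (F (T t49 (L l295 (L l469 (T t365 (T t100 N))))))) (K a75 (M a135 (F (T t49 (L l295 (L l469 (T t365 (T t100 N))))))) N))))))) N))))))))))))))))))))⟩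
def e0_63__65_119 : Ent 4 := ⟨[a0, a63], [a65, a196], (M a60 (F (T t67 (T t43 (T t68 (L l305 (T t69 (K a20 (M a48 (F (T t2 (T t64 (L l11 (L l315 (T t235 N))))))) (K a40 (M a48 (F (T t64 (T t1 (L l52 (L l315 (T t235 N))))))) (K a21 (M a192 (F (T t75 (L l11 (L l490 (T t79 (L l347 (L l495 (T t74 N))))))))) (K a41 (M a192 (F (T t75 (L l490 (T t79 (L l65 (L l495 (T t35 N)))))))) (K a61 (M a192 (F (L l274 (T t72 (L l65 (L l495 (L l515 (T t35 (L l278 (T t80 N)))))))))) (K a22 (M a192 (F (T t75 (L l11 (L l490 (T t79 (L l11 (L l495 (T t35 N))))))))) (K a42 (M a192 (F (L l490 (T t77 (L l495 (T t569 (L l22 (L l495 (T t74 N))))))))) (K a62 (M a192 (F (L l274 (T t72 (L l495 (T t35 (L l66 (L l278 (L l516 (T t80 N)))))))))) (K a3 (M a85 (F (T t447 (L l278 (L l490 (T t115 N)))))) N))))))))))))))))⟩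
def e0_63__65_120 : Ent 4 := ⟨[a0, a63], [a65, a197], (M a60 (F (T t67 (T t43 (T t68 (L l305 (T t69 (K a20 (M a48 (F (T t70 (L l11 (L l491 (T t1 (L l11 (T t235 N)))))))) (K a40 (M a48 (F (T t70 (L l491 (T t1 (L l52 (T t235 N))))))) (K a21 (M a192 (F (T t72 (L l347 (L l491 (T t73 (L l347 (L l491 (T t74 N))))))))) (K a41 (M a192 (F (T t77 (L l65 (L l491 (T t35 (L l491 (T t73 N)))))))) (K a61 (M a192 (F (T t72 (L l65 (L l491 (L l515 (T t35 (L l275 (T t80 N))))))))) (K a22 (M a192 (F (T t72 (L l491 (T t21 (L l491 (T t73 N))))))) (K a42 (M a192 (F (T t77 (L l491 (T t73 (L l22 (L l491 (T t74 N)))))))) (K a62 (M a192 (F (T t72 (L l491 (T t35 (L l66 (L l275 (L l516 (T t80 N))))))))) (K a3 (M a85 (F (T t447 (L l275 (T t115 N))))) N))))))))))))))))⟩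
def e0_63__65_121 : Ent 4 := ⟨[a0, a63], [a65, a198], (M a48 (F (T t1 (T t2 (T t3 (T t0 (K a16 (M a60 (F (T t43 (T t64 (T t65 N))))) (K a32 (M a60 (F (T t67 (T t64 (L l24 (L l28 (T t65 N))))))) (K a21 (M a192 (F (T t28 (L l47 (L l234 (L l347 (T t20 (L l47 (L l234 (L l347 (T t29 N))))))))))) (K a37 (M a192 (F (T t19 (L l47 (L l234 (T t20 (T t21 N))))))) (K a53 (M a192 (F (T t19 (L l491 (T t21 (T t31 N)))))) (K a26 (M a192 (F (T t27 (L l234 (T t20 (T t21 N)))))) (K a42 (M a192 (F (T t19 (L l234 (T t20 (L l28 (L l234 (T t29 N)))))))) (K a58 (M a192 (F (T t19 (T t21 (L l54 (L l498 (T t31 N))))))) (K a15 (M a192 (F (T t54 (L l483 (T t27 (L l469 (T t21 N))))))) N)))))))))))))))⟩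
def e0_63__65_122 : Ent 4 := ⟨[a0, a63], [a65, a199], (M a48 (F (T t1 (T t2 (T t3 (T t0 (K a16 (M a60 (F (T t43 (T t64 (T t65 N))))) (K a32 (M a60 (F (T t64 (T t67 (L l24 (L l28 (T t65 N))))))) (K a21 (M a192 (F (T t28 (L l47 (L l235 (L l347 (T t20 (L l47 (L l347 (T t29 N)))))))))) (K a37 (M a192 (F (T t19 (L l47 (L l235 (T t20 (T t21 N))))))) (K a53 (M a192 (F (T t19 (L l491 (T t21 (T t31 N)))))) (K a26 (M a192 (F (T t28 (L l235 (T t20 (T t21 N)))))) (K a42 (M a192 (F (T t19 (L l235 (T t20 (L l28 (T t29 N))))))) (K a58 (M a192 (F (T t19 (T t21 (L l54 (L l498 (T t31 N))))))) (K a15 (M a192 (F (T t56 (L l483 (T t27 (L l469 (T t21 N))))))) N)))))))))))))))⟩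
def e0_63__65_123 : Ent 4 := ⟨[a0, a63], [a65, a200], (M a60 (F (T t67 (T t43 (T t68 (L l305 (T t69 (K a20 (M a48 (F (T t2 (T t64 (L l11 (L l496 (T t235 N))))))) (K a40 (M a48 (F (T t64 (T t1 (L l52 (L l496 (T t235 N))))))) (K a21 (M a192 (F (T t77 (L l347 (T t73 (L l347 (T t74 N))))))) (K a41 (M a192 (F (T t77 (L l65 (L l284 (T t35 (T t73 N))))))) (K a61 (M a192 (F (T t77 (L l65 (L l284 (L l515 (T t35 (L l496 (L l501 (T t80 N)))))))))) (K a22 (M a192 (F (T t77 (T t21 (T t73 N))))) (K a42 (M a192 (F (T t77 (T t73 (L l22 (T t74 N)))))) (K a62 (M a192 (F (T t77 (L l284 (T t35 (L l66 (L l496 (L l501 (L l516 (T t80 N)))))))))) (K a3 (M a85 (F (T t447 (T t115 N)))) N))))))))))))))))⟩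
def e0_63__65_124 : Ent 4 := ⟨[a0, a63], [a65, a201], (M a48 (F (T t1 (T t2 (T t3 (T t0 (K a16 (M a60 (F (T t43 (T t64 (T t65 N))))) (K a32 (M a60 (F (T t67 (T t64 (L l24 (L l28 (T t65 N))))))) (K a21 (M a192 (F (T t28 (L l47 (L l230 (L l347 (T t20 (L l47 (L l230 (L l347 (T t29 N))))))))))) (K a37 (M a192 (F (T t19 (L l47 (L l230 (T t20 (T t21 N))))))) (K a53 (M a192 (F (T t19 (L l491 (T t21 (T t31 N)))))) (K a26 (M a192 (F (T t27 (L l230 (T t20 (T t21 N)))))) (K a42 (M a192 (F (T t19 (L l230 (T t20 (L l28 (L l230 (T t29 N)))))))) (K a58 (M a192 (F (T t19 (T t21 (L l54 (L l498 (T t31 N))))))) (K a15 (M a192 (F (T t54 (L l483 (T t27 (L l469 (T t21 N))))))) N)))))))))))))))⟩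
def e0_63__65_125 : Ent 4 := ⟨[a0, a63], [a65, a202], (M a60 (F (T t67 (T t43 (T t68 (L l305 (T t69 (K a20 (M a48 (F (T t64 (L l11 (L l318 (T t1 (L l11 (T t235 N)))))))) (K a40 (M a48 (F (T t64 (L l318 (T t1 (L l52 (T t235 N))))))) (K a21 (M a192 (F (T t72 (L l347 (T t73 (L l347 (T t74 N))))))) (K a41 (M a192 (F (T t77 (L l65 (L l282 (T t35 (T t73 N))))))) (K a61 (M a192 (F (T t72 (L l65 (L l282 (L l515 (T t35 (L l498 (T t80 N))))))))) (K a22 (M a192 (F (T t72 (T t21 (T t73 N))))) (K a42 (M a192 (F (T t79 (T t73 (L l22 (T t74 N)))))) (K a62 (M a192 (F (T t72 (L l282 (T t35 (L l66 (L l498 (L l516 (T t80 N))))))))) (K a3 (M a85 (F (T t447 (T t115 N)))) N))))))))))))))))⟩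
def e0_63__65_126 : Ent 4 := ⟨[a0, a63], [a65, a203], (M a48 (F (T t1 (T t2 (T t3 (T t0 (K a16 (M a60 (F (T t43 (T t64 (T t65 N))))) (K a32 (M a60 (F (T t64 (T t67 (L l24 (L l28 (T t65 N))))))) (K a21 (M a192 (F (T t28 (L l47 (L l230 (L l235 (L l347 (T t20 (L l47 (L l230 (L l347 (T t29 N)))))))))))) (K a37 (M a192 (F (T t19 (L l47 (L l230 (L l235 (T t20 (T t21 N)))))))) (K a53 (M a192 (F (T t19 (L l491 (T t21 (T t31 N)))))) (K a26 (M a192 (F (T t21 (T t27 (L l230 (L l235 (T t20 N))))))) (K a42 (M a192 (F (T t19 (L l230 (L l235 (T t20 (L l28 (L l230 (T t29 N))))))))) (K a58 (M a192 (F (T t19 (T t21 (L l54 (L l498 (T t31 N))))))) (K a15 (M a192 (F (T t53 (L l483 (T t27 (L l469 (T t21 N))))))) N)))))))))))))))⟩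
def e0_63__65_127 : Ent 4 := ⟨[a0, a63], [a65, a204], (M a48 (F (T t48 (L l327 (T t1 (L l327 (T t2 (L l327 (T t3 (L l327 (T t0 (K a16 (M a60 (F (T t138 (L l14 (L l18 (L l333 (T t67 (T t65 N)))))))) (K a32 (M a60 (F (T t116 (L l513 (T t64 (L l24 (L l28 (T t65 N)))))))) (K a21 (M a192 (F (T t53 (L l298 (T t27 (L l47 (L l347 (T t29 N)))))))) (K a37 (M a192 (F (T t54 (L l298 (T t27 (L l290 (T t21 N))))))) (K a53 (M a192 (F (T t55 (L l290 (L l491 (T t21 (T t31 N))))))) (K a26 (M a192 (F (T t56 (L l298 (T t27 (L l290 (T t21 N))))))) (K a42 (M a192 (F (T t56 (L l298 (T t27 (L l28 (T t29 N))))))) (K a58 (M a192 (F (T t57 (L l298 (T t27 (L l54 (L l498 (T t31 N)))))))) (K a15 (M a85 (L l327 (F (T t567 (T t568 (K a141 (M a78 (F (T t49 (L l290 (L l469 (T t365 (T t100 N))))))) (K a78 (M a141 (F (T t49 (L l290 (L l469 (T t365 (T t100 N))))))) N))))))) N))))))))))))))))))))⟩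
def e0_63__65_128 : Ent 4 := ⟨[a0, a63], [a65, a205], (M a48 (F (T t1 (T t2 (T t3 (T t0 (K a16 (M a60 (F (T t43 (L l503 (T t64 (T t65 N)))))) (K a32 (M a60 (F (T t42 (T t67 (L l24 (L l28 (T t65 N))))))) (K a21 (M a192 (F (T t28 (L l47 (L l231 (L l347 (T t20 (L l47 (L l347 (T t29 N)))))))))) (K a37 (M a192 (F (T t19 (L l47 (L l231 (T t20 (T t21 N))))))) (K a53 (M a192 (F (T t19 (L l491 (T t21 (T t31 N)))))) (K a26 (M a192 (F (T t28 (L l231 (T t20 (T t21 N)))))) (K a42 (M a192 (F (T t19 (L l231 (T t20 (L l28 (T t29 N))))))) (K a58 (M a192 (F (T t19 (T t21 (L l54 (L l498 (T t31 N))))))) (K a15 (M a192 (F (T t56 (L l483 (T t27 (L l469 (T t21 N))))))) N)))))))))))))))⟩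
def e0_63__65_129 : Ent 4 := ⟨[a0, a63], [a65, a206], (M a48 (F (T t1 (T t2 (T t3 (T t0 (K a16 (M a60 (F (T t43 (L l510 (T t64 (T t65 N)))))) (K a32 (M a60 (F (T t42 (T t67 (L l24 (L l28 (T t65 N))))))) (K a21 (M a192 (F (T t28 (L l47 (L l231 (L l234 (L l347 (T t20 (L l47 (L l234 (L l347 (T t29 N)))))))))))) (K a37 (M a192 (F (T t19 (L l47 (L l231 (L l234 (T t20 (T t21 N)))))))) (K a53 (M a192 (F (T t19 (L l491 (T t21 (T t31 N)))))) (K a26 (M a192 (F (T t21 (T t27 (L l231 (L l234 (T t20 N))))))) (K a42 (M a192 (F (T t19 (L l231 (L l234 (T t20 (L l28 (L l234 (T t29 N))))))))) (K a58 (M a192 (F (T t19 (T t21 (L l54 (L l498 (T t31 N))))))) (K a15 (M a192 (F (T t53 (L l483 (T t27 (L l469 (T t21 N))))))) N)))))))))))))))⟩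
def e0_63__65_130 : Ent 4 := ⟨[a0, a63], [a65, a207], (M a12 (F (T t150 (L l511 (T t122 (L l511 (T t151 (L l511 (T t152 (L l511 (T t153 (K a4 (M a60 (F (T t570 (L l46 (L l50 (L l331 (T t67 (T t448 N)))))))) (K a8 (M a60 (F (T t116 (L l325 (T t398 (L l52 (L l56 (T t448 N)))))))) (K a21 (M a192 (F (T t155 (L l231 (T t156 (L l15 (L l347 (T t157 N)))))))) (K a25 (M a192 (F (T t158 (L l231 (T t156 (L l289 (T t21 N))))))) (K a29 (M a192 (F (T t159 (L l289 (L l371 (T t21 (T t160 N))))))) (K a38 (M a192 (F (T t161 (L l231 (T t156 (L l289 (T t21 N))))))) (K a42 (M a192 (F (T t161 (L l231 (T t156 (L l56 (T t157 N))))))) (K a46 (M a192 (F (T t57 (L l231 (T t156 (L l26 (L l408 (T t160 N)))))))) (K a51 (M a85 (L l511 (F (T t571 (T t572 (K a103 (M a155 (F (T t49 (L l289 (L l439 (T t573 (T t574 N))))))) (K a155 (M a103 (F (T t49 (L l289 (L l439 (T t573 (T t574 N))))))) N))))))) N))))))))))))))))))))⟩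
def e0_63__65_131 : Ent 4 := ⟨[a0, a63], [a65, a212], (M a48 (F (T t1 (T t2 (T t3 (T t0 (K a16 (M a60 (F (T t64 (L l14 (L l18 (L l346 (T t67 (L l351 (T t65 N))))))))) (K a32 (M a60 (F (T t64 (L l346 (T t67 (L l24 (L l28 (L l351 (T t65 N))))))))) (K a21 (M a192 (F (T t206 (T t27 (L l47 (L l347 (L l351 (T t29 N)))))))) (K a37 (M a192 (F (T t19 (L l47 (L l351 (T t20 (L l351 (T t21 N)))))))) (K a53 (M a192 (F (T t19 (L l351 (L l491 (T t21 (L l239 (T t31 N)))))))) (K a26 (M a192 (F (T t27 (L l351 (T t20 (L l351 (T t21 N))))))) (K a42 (M a192 (F (T t19 (L l351 (T t20 (L l28 (L l351 (T t29 N)))))))) (K a58 (M a192 (F (T t19 (L l351 (T t21 (L l54 (L l239 (L l498 (T t31 N))))))))) (K a15 (M a192 (F (T t54 (L l483 (T t27 (L l351 (L l469 (T t21 N)))))))) N)))))))))))))))⟩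
def e0_63__65_132 : Ent 4 := ⟨[a0, a63], [a65, a213], (M a48 (F (T t2 (L l347 (T t1 (L l347 (T t3 (T t0 (K a16 (M a60 (F (T t43 (T t64 (T t65 N))))) (K a32 (M a60 (F (T t64 (L l347 (T t67 (L l24 (L l28 (T t65 N)))))))) (K a21 (M a85 (F (L l246 (T t261 (T t50 (L l47 (L l246 (T t100 N)))))))) (K a37 (M a192 (F (T t19 (L l47 (L l347 (T t20 (L l347 (T t21 N)))))))) (K a53 (M a192 (F (T t27 (L l347 (L l491 (T t21 (L l347 (L l491 (T t575 N))))))))) (K a26 (M a192 (F (T t22 (T t27 (L l347 (T t21 N)))))) (K a42 (M a192 (F (T t19 (L l347 (T t20 (L l28 (L l246 (L l347 (T t29 N))))))))) (K a58 (M a192 (F (T t27 (L l347 (T t21 (L l347 (T t575 N))))))) (K a15 (M a192 (F (T t54 (L l483 (T t27 (L l347 (L l469 (T t21 N)))))))) N)))))))))))))))))⟩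
def e0_63__65_133 : Ent 4 := ⟨[a0, a63], [a65, a214], (M a48 (F (T t1 (T t2 (T t3 (T t0 (K a16 (M a60 (F (T t43 (T t64 (T t65 N))))) (K a32 (M a60 (F (T t67 (T t64 (L l24 (L l28 (T t65 N))))))) (K a21 (M a192 (F (T t28 (L l47 (L l347 (T t20 (L l47 (L l347 (T t29 N))))))))) (K a37 (M a192 (F (T t19 (L l47 (T t20 (T t21 N)))))) (K a53 (M a192 (F (T t19 (L l491 (T t21 (L l239 (T t31 N))))))) (K a26 (M a192 (F (T t27 (T t20 (T t21 N))))) (K a42 (M a192 (F (T t19 (T t20 (L l28 (T t29 N)))))) (K a58 (M a192 (F (T t19 (T t21 (L l54 (L l239 (L l498 (T t31 N)))))))) (K a15 (M a192 (F (T t47 (L l483 (T t27 (L l325 (T t20 N))))))) N)))))))))))))))⟩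
def e0_63__65_134 : Ent 4 := ⟨[a0, a63], [a65, a215], (M a48 (F (T t1 (T t2 (T t3 (T t0 (K a16 (M a60 (F (T t64 (L l14 (L l18 (L l350 (T t67 (L l349 (T t65 N))))))))) (K a32 (M a60 (F (T t64 (L l350 (T t67 (L l24 (L l28 (L l349 (T t65 N))))))))) (K a21 (M a192 (F (T t28 (L l47 (L l347 (T t20 (L l47 (L l245 (L l347 (T t29 N)))))))))) (K a37 (M a192 (F (T t19 (L l47 (T t20 (L l295 (T t21 N))))))) (K a53 (M a192 (F (T t19 (L l295 (L l491 (T t21 (L l239 (T t31 N)))))))) (K a26 (M a192 (F (T t28 (T t20 (L l295 (T t21 N)))))) (K a42 (M a192 (F (T t19 (T t20 (L l28 (L l245 (T t29 N))))))) (K a58 (M a192 (F (T t19 (L l295 (T t21 (L l54 (L l239 (L l498 (T t31 N))))))))) (K a15 (M a85 (F (T t567 (L l239 (L l245 (T t568 N)))))) N)))))))))))))))⟩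
def e0_63__65_135 : Ent 4 := ⟨[a0, a63], [a65, a216], (M a48 (F (T t1 (T t2 (T t3 (T t0 (K a16 (M a60 (F (T t43 (T t64 (T t65 N))))) (K a32 (M a60 (F (T t67 (T t64 (L l24 (L l28 (T t65 N))))))) (K a21 (M a192 (F (T t206 (L l298 (T t27 (L l47 (L l347 (T t29 N)))))))) (K a37 (M a192 (F (T t21 (L l298 (T t27 (L l47 (T t20 N))))))) (K a53 (M a192 (F (T t37 (L l298 (T t27 (T t31 N)))))) (K a26 (M a192 (F (T t20 (L l298 (T t27 (T t21 N)))))) (K a42 (M a192 (F (T t20 (L l298 (T t27 (L l28 (T t29 N))))))) (K a58 (M a192 (F (T t21 (L l298 (T t27 (L l54 (L l498 (T t31 N)))))))) (K a15 (M a192 (F (T t53 (L l298 (L l483 (T t27 (L l469 (T t21 N)))))))) N)))))))))))))))⟩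
def e0_63__65_136 : Ent 4 := ⟨[a0, a63], [a65, a217], (M a60 (F (T t67 (T t43 (T t68 (L l305 (T t69 (K a20 (M a48 (F (T t2 (T t64 (L l11 (T t235 N)))))) (K a40 (M a48 (F (T t1 (T t64 (L l52 (T t235 N)))))) (K a21 (M a192 (F (T t72 (L l347 (T t73 (L l347 (T t74 N))))))) (K a41 (M a192 (F (T t77 (L l65 (L l284 (T t35 (T t73 N))))))) (K a61 (M a192 (F (T t72 (L l65 (L l284 (L l515 (T t35 (L l243 (T t80 N))))))))) (K a22 (M a192 (F (T t72 (T t21 (T t73 N))))) (K a42 (M a192 (F (T t79 (T t73 (L l22 (T t74 N)))))) (K a62 (M a192 (F (T t72 (L l284 (T t35 (L l66 (L l243 (L l516 (T t80 N))))))))) (K a3 (M a85 (F (T t447 (L l243 (T t115 N))))) N))))))))))))))))⟩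
def e0_63__65_137 : Ent 4 := ⟨[a0, a63], [a65, a218], (M a60 (F (T t67 (T t43 (T t68 (L l305 (T t69 (K a20 (M a48 (F (T t2 (T t64 (L l11 (T t235 N)))))) (K a40 (M a48 (F (T t1 (T t64 (L l52 (T t235 N)))))) (K a21 (M a192 (F (T t72 (L l347 (T t73 (L l347 (T t74 N))))))) (K a41 (M a192 (F (T t77 (L l65 (L l282 (T t35 (T t73 N))))))) (K a61 (M a192 (F (T t72 (L l65 (L l282 (L l515 (T t35 (L l246 (T t80 N))))))))) (K a22 (M a192 (F (T t72 (T t21 (T t73 N))))) (K a42 (M a192 (F (T t79 (T t73 (L l22 (T t74 N)))))) (K a62 (M a192 (F (T t72 (L l282 (T t35 (L l66 (L l246 (L l516 (T t80 N))))))))) (K a3 (M a85 (F (T t447 (L l246 (T t115 N))))) N))))))))))))))))⟩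
def e0_63__65_138 : Ent 4 := ⟨[a0, a63], [a65, a219], (M a48 (F (T t1 (T t2 (T t3 (T t0 (K a16 (M a60 (F (T t43 (T t64 (T t65 N))))) (K a32 (M a60 (F (T t67 (T t64 (L l24 (L l28 (T t65 N))))))) (K a21 (M a192 (F (T t28 (L l47 (L l301 (L l347 (T t20 (L l47 (L l245 (L l347 (T t29 N))))))))))) (K a37 (M a192 (F (T t19 (L l47 (L l301 (T t20 (T t21 N))))))) (K a53 (M a192 (F (T t19 (L l491 (T t21 (T t31 N)))))) (K a26 (M a192 (F (T t21 (T t27 (L l301 (T t20 N)))))) (K a42 (M a192 (F (T t19 (L l301 (T t20 (L l28 (L l245 (T t29 N)))))))) (K a58 (M a192 (F (T t19 (T t21 (L l54 (L l498 (T t31 N))))))) (K a15 (M a192 (F (T t56 (L l483 (T t27 (L l469 (T t21 N))))))) N)))))))))))))))⟩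
def e0_63__65_139 : Ent 4 := ⟨[a0, a63], [a65, a220], (M a12 (F (T t122 (T t151 (T t152 (T t153 (K a4 (M a60 (F (T t43 (T t398 (T t448 N))))) (K a8 (M a60 (F (T t398 (T t67 (L l52 (L l56 (T t448 N))))))) (K a21 (M a192 (F (T t221 (L l286 (T t156 (L l15 (L l347 (T t157 N)))))))) (K a25 (M a192 (F (T t21 (L l286 (T t156 (L l15 (T t450 N))))))) (K a29 (M a192 (F (T t37 (L l286 (T t156 (T t160 N)))))) (K a38 (M a192 (F (T t450 (L l286 (T t156 (T t21 N)))))) (K a42 (M a192 (F (T t450 (L l286 (T t156 (L l56 (T t157 N))))))) (K a46 (M a192 (F (T t21 (L l286 (T t156 (L l26 (L l408 (T t160 N)))))))) (K a51 (M a192 (F (T t576 (L l286 (L l513 (T t156 (L l439 (T t21 N)))))))) N)))))))))))))))⟩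
def e0_63__65_140 : Ent 4 := ⟨[a0, a63], [a65, a221], (M a48 (F (T t1 (T t2 (T t3 (T t0 (K a16 (M a60 (F (T t43 (T t64 (T t65 N))))) (K a32 (M a60 (F (T t67 (T t64 (L l24 (L l28 (T t65 N))))))) (K a21 (M a192 (F (T t28 (L l47 (L l347 (T t20 (L l47 (L l241 (L l347 (T t29 N)))))))))) (K a37 (M a192 (F (T t19 (L l47 (T t20 (L l290 (T t21 N))))))) (K a53 (M a192 (F (T t19 (L l290 (L l491 (T t21 (L l243 (T t31 N)))))))) (K a26 (M a192 (F (T t28 (T t20 (L l290 (T t21 N)))))) (K a42 (M a192 (F (T t19 (T t20 (L l28 (L l241 (T t29 N))))))) (K a58 (M a192 (F (T t19 (L l290 (T t21 (L l54 (L l243 (L l498 (T t31 N))))))))) (K a15 (M a85 (F (T t567 (L l241 (L l243 (T t568 N)))))) N)))))))))))))))⟩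
def e0_63__65_141 : Ent 4 := ⟨[a0, a63], [a65, a222], (M a48 (F (T t1 (T t2 (T t3 (T t0 (K a16 (M a60 (F (T t43 (T t64 (T t65 N))))) (K a32 (M a60 (F (T t67 (T t64 (L l24 (L l28 (T t65 N))))))) (K a21 (M a192 (F (T t28 (L l47 (L l291 (L l347 (T t20 (L l47 (L l241 (L l347 (T t29 N))))))))))) (K a37 (M a192 (F (T t19 (L l47 (L l291 (T t20 (T t21 N))))))) (K a53 (M a192 (F (T t19 (L l491 (T t21 (T t31 N)))))) (K a26 (M a192 (F (T t21 (T t27 (L l291 (T t20 N)))))) (K a42 (M a192 (F (T t19 (L l291 (T t20 (L l28 (L l241 (T t29 N)))))))) (K a58 (M a192 (F (T t19 (T t21 (L l54 (L l498 (T t31 N))))))) (K a15 (M a192 (F (T t56 (L l483 (T t27 (L l469 (T t21 N))))))) N)))))))))))))))⟩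
def e0_63__65_142 : Ent 4 := ⟨[a0, a63], [a65, a223], (M a60 (F (T t67 (T t43 (T t68 (L l305 (T t69 (K a20 (M a48 (F (T t2 (T t64 (L l11 (T t235 N)))))) (K a40 (M a48 (F (T t1 (T t64 (L l52 (T t235 N)))))) (K a21 (M a192 (F (T t72 (L l347 (T t73 (L l245 (L l347 (T t74 N)))))))) (K a41 (M a192 (F (T t77 (L l65 (L l289 (T t35 (T t73 N))))))) (K a61 (M a192 (F (T t72 (L l65 (L l289 (L l515 (T t35 (L l246 (T t80 N))))))))) (K a22 (M a192 (F (T t72 (L l289 (T t21 (T t73 N)))))) (K a42 (M a192 (F (T t79 (T t73 (L l22 (L l245 (T t74 N))))))) (K a62 (M a192 (F (T t72 (L l289 (T t35 (L l66 (L l246 (L l516 (T t80 N))))))))) (K a3 (M a85 (F (T t447 (L l245 (L l246 (T t115 N)))))) N))))))))))))))))⟩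
def e0_63__65_143 : Ent 4 := ⟨[a0, a63], [a65, a232], (M a48 (F (T t1 (T t2 (T t3 (T t0 (K a16 (M a60 (F (T t64 (L l14 (L l18 (L l393 (T t67 (L l388 (T t65 N))))))))) (K a32 (M a60 (F (T t64 (L l393 (T t67 (L l24 (L l28 (L l388 (T t65 N))))))))) (K a21 (M a192 (F (T t28 (L l47 (L l347 (T t20 (L l47 (L l347 (T t29 N))))))))) (K a37 (M a192 (F (T t27 (L l47 (T t20 (T t21 N)))))) (K a53 (M a192 (F (T t28 (L l491 (T t21 (L l393 (T t31 N))))))) (K a26 (M a192 (F (T t28 (T t20 (T t21 N))))) (K a42 (M a192 (F (T t27 (T t20 (L l28 (T t29 N)))))) (K a58 (M a192 (F (T t28 (T t21 (L l54 (L l393 (L l498 (T t31 N)))))))) (K a15 (M a192 (F (T t47 (L l483 (T t27 (L l325 (T t20 N))))))) N)))))))))))))))⟩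
def e0_63__65_144 : Ent 4 := ⟨[a0, a63], [a65, a233], (M a48 (F (T t1 (T t2 (T t3 (T t0 (K a16 (M a60 (F (T t43 (T t64 (T t65 N))))) (K a32 (M a60 (F (T t67 (T t64 (L l24 (L l28 (T t65 N))))))) (K a21 (M a192 (F (T t28 (L l47 (L l347 (T t20 (L l47 (L l347 (T t29 N))))))))) (K a37 (M a192 (F (T t19 (L l47 (T t20 (T t21 N)))))) (K a53 (M a192 (F (T t19 (L l491 (T t21 (L l293 (T t31 N))))))) (K a26 (M a192 (F (T t27 (T t20 (T t21 N))))) (K a42 (M a192 (F (T t19 (T t20 (L l28 (T t29 N)))))) (K a58 (M a192 (F (T t19 (T t21 (L l54 (L l293 (L l498 (T t31 N)))))))) (K a15 (M a192 (F (T t47 (L l483 (T t27 (L l325 (T t20 N))))))) N)))))))))))))))⟩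
def e0_63__65_145 : Ent 4 := ⟨[a0, a63], [a65, a234], (M a48 (F (T t1 (L l390 (T t2 (T t3 (L l390 (T t0 (K a16 (M a60 (F (T t64 (L l14 (L l18 (T t67 (L l390 (T t65 N)))))))) (K a32 (M a60 (F (T t64 (T t67 (L l24 (L l28 (L l390 (T t65 N)))))))) (K a21 (M a192 (F (T t28 (L l47 (L l282 (L l347 (T t20 (L l47 (L l282 (L l347 (T t29 N))))))))))) (K a37 (M a192 (F (T t225 (T t27 (L l76 (L l390 (T t202 N))))))) (K a53 (M a192 (F (T t27 (L l76 (L l390 (T t202 (L l390 (T t577 N)))))))) (K a26 (M a192 (F (T t27 (L l282 (T t20 (L l76 (L l390 (T t202 N)))))))) (K a42 (M a106 (F (T t578 (L l28 (L l76 (L l282 (T t579 (L l76 (T t551 N))))))))) (K a58 (M a192 (F (T t27 (L l76 (L l390 (L l498 (T t202 (L l390 (L l498 (T t577 N)))))))))) (K a15 (M a192 (F (T t33 (L l483 (T t27 (L l76 (L l390 (L l469 (T t202 N))))))))) N)))))))))))))))))⟩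
def e0_63__65_146 : Ent 4 := ⟨[a0, a63], [a65, a235], (M a48 (F (T t1 (T t2 (T t3 (T t0 (K a16 (M a60 (F (T t64 (L l14 (L l18 (L l391 (T t67 (L l392 (T t65 N))))))))) (K a32 (M a60 (F (T t64 (L l391 (T t67 (L l24 (L l28 (L l392 (T t65 N))))))))) (K a21 (M a192 (F (T t28 (L l47 (L l347 (T t20 (L l47 (L l347 (T t29 N))))))))) (K a37 (M a192 (F (T t19 (L l47 (T t20 (L l295 (T t21 N))))))) (K a53 (M a192 (F (T t19 (L l295 (L l491 (T t21 (T t31 N))))))) (K a26 (M a192 (F (T t28 (T t20 (L l295 (T t21 N)))))) (K a42 (M a192 (F (T t19 (T t20 (L l28 (T t29 N)))))) (K a58 (M a192 (F (T t19 (L l295 (T t21 (L l54 (L l498 (T t31 N)))))))) (K a15 (M a192 (F (T t47 (L l483 (T t27 (L l325 (T t20 N))))))) N)))))))))))))))⟩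
def e0_63__65_147 : Ent 4 := ⟨[a0, a63], [a65, a236], (M a12 (F (T t122 (T t151 (T t152 (T t153 (K a4 (M a60 (F (T t43 (T t398 (T t448 N))))) (K a8 (M a60 (F (T t398 (T t67 (L l52 (L l56 (T t448 N))))))) (K a21 (M a192 (F (T t221 (L l286 (T t156 (L l15 (L l347 (T t157 N)))))))) (K a25 (M a192 (F (T t21 (L l286 (T t156 (L l15 (T t450 N))))))) (K a29 (M a192 (F (T t37 (L l286 (T t156 (T t160 N)))))) (K a38 (M a192 (F (T t450 (L l286 (T t156 (T t21 N)))))) (K a42 (M a192 (F (T t450 (L l286 (T t156 (L l56 (T t157 N))))))) (K a46 (M a192 (F (T t21 (L l286 (T t156 (L l26 (L l408 (T t160 N)))))))) (K a51 (M a192 (F (T t576 (L l286 (L l513 (T t156 (L l439 (T t21 N)))))))) N)))))))))))))))⟩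
def e0_63__65_148 : Ent 4 := ⟨[a0, a63], [a65, a237], (M a48 (F (T t1 (T t2 (T t3 (T t0 (K a16 (M a60 (F (T t43 (T t64 (T t65 N))))) (K a32 (M a60 (F (T t67 (T t64 (L l24 (L l28 (T t65 N))))))) (K a21 (M a192 (F (T t28 (L l47 (L l291 (L l347 (T t20 (L l47 (L l347 (T t29 N)))))))))) (K a37 (M a192 (F (T t19 (L l47 (L l291 (T t20 (T t21 N))))))) (K a53 (M a192 (F (T t19 (L l491 (T t21 (T t31 N)))))) (K a26 (M a192 (F (T t28 (L l291 (T t20 (T t21 N)))))) (K a42 (M a192 (F (T t19 (L l291 (T t20 (L l28 (T t29 N))))))) (K a58 (M a192 (F (T t19 (T t21 (L l54 (L l498 (T t31 N))))))) (K a15 (M a192 (F (T t57 (L l483 (T t27 (L l291 (L l325 (T t20 N)))))))) N)))))))))))))))⟩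
def e0_63__65_149 : Ent 4 := ⟨[a0, a63], [a65, a238], (M a48 (F (T t1 (T t2 (T t3 (T t0 (K a16 (M a60 (F (T t43 (T t64 (T t65 N))))) (K a32 (M a60 (F (T t67 (T t64 (L l24 (L l28 (T t65 N))))))) (K a21 (M a192 (F (T t28 (L l47 (L l347 (T t20 (L l47 (L l347 (T t29 N))))))))) (K a37 (M a192 (F (T t19 (L l47 (T t20 (L l290 (T t21 N))))))) (K a53 (M a192 (F (T t19 (L l290 (L l491 (T t21 (T t31 N))))))) (K a26 (M a192 (F (T t28 (T t20 (L l290 (T t21 N)))))) (K a42 (M a192 (F (T t19 (T t20 (L l28 (T t29 N)))))) (K a58 (M a192 (F (T t19 (L l290 (T t21 (L l54 (L l498 (T t31 N)))))))) (K a15 (M a192 (F (T t47 (L l483 (T t27 (L l325 (T t20 N))))))) N)))))))))))))))⟩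
def e0_63__65_150 : Ent 4 := ⟨[a0, a63], [a65, a239], (M a48 (F (T t1 (T t2 (L l397 (T t3 (L l404 (T t0 (K a16 (M a60 (F (T t43 (T t64 (T t65 N))))) (K a32 (M a170 (F (L l256 (T t439 (L l141 (T t514 (L l256 (T t580 N)))))))) (K a21 (M a192 (F (T t27 (L l47 (L l289 (L l347 (T t20 (L l47 (L l289 (L l347 (L l404 (T t29 N)))))))))))) (K a37 (M a192 (F (T t27 (L l47 (L l289 (T t20 (L l289 (T t21 N)))))))) (K a53 (M a192 (F (T t27 (L l289 (L l491 (T t21 (T t31 N))))))) (K a26 (M a192 (F (T t27 (L l289 (T t20 (L l289 (T t21 N))))))) (K a42 (M a192 (F (T t27 (L l289 (T t20 (L l28 (L l289 (L l404 (T t29 N))))))))) (K a58 (M a192 (F (T t27 (L l289 (T t21 (L l54 (L l498 (T t31 N)))))))) (K a15 (M a192 (F (T t47 (L l483 (T t27 (L l289 (L l325 (T t20 N)))))))) N)))))))))))))))))⟩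
def e0_63__65_151 : Ent 4 := ⟨[a0, a63], [a65, a252], (M a48 (F (T t48 (L l471 (T t1 (L l471 (T t2 (L l471 (T t3 (L l471 (T t0 (K a16 (M a60 (F (T t138 (L l14 (L l18 (L l477 (T t67 (T t65 N)))))))) (K a32 (M a60 (F (T t116 (L l441 (T t64 (L l24 (L l28 (T t65 N)))))))) (K a21 (M a192 (F (T t53 (L l262 (T t27 (L l47 (L l347 (T t29 N)))))))) (K a37 (M a192 (F (T t54 (L l262 (T t27 (L l261 (T t21 N))))))) (K a53 (M a192 (F (T t55 (L l261 (L l491 (T t21 (T t31 N))))))) (K a26 (M a192 (F (T t56 (L l262 (T t27 (L l261 (T t21 N))))))) (K a42 (M a192 (F (T t56 (L l262 (T t27 (L l28 (T t29 N))))))) (K a58 (M a192 (F (T t57 (L l262 (T t27 (L l54 (L l498 (T t31 N)))))))) (K a15 (M a85 (L l471 (F (T t567 (T t568 (K a173 (M a94 (F (T t49 (L l261 (L l469 (T t365 (T t100 N))))))) (K a94 (M a173 (F (T t49 (L l261 (L l469 (T t365 (T t100 N))))))) N))))))) N))))))))))))))))))))⟩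
def e0_63__65_152 : Ent 4 := ⟨[a0, a63], [a65, a253], (M a48 (F (T t1 (T t2 (T t3 (T t0 (K a16 (M a60 (F (T t43 (L l431 (T t64 (T t65 N)))))) (K a32 (M a60 (F (T t42 (T t67 (L l24 (L l28 (T t65 N))))))) (K a21 (M a192 (F (T t28 (L l47 (L l347 (T t20 (L l47 (L l347 (T t29 N))))))))) (K a37 (M a192 (F (T t19 (L l47 (T t20 (L l261 (T t21 N))))))) (K a53 (M a192 (F (T t19 (L l261 (L l491 (T t21 (L l293 (T t31 N)))))))) (K a26 (M a192 (F (T t28 (T t20 (L l261 (T t21 N)))))) (K a42 (M a192 (F (T t19 (T t20 (L l28 (T t29 N)))))) (K a58 (M a192 (F (T t19 (L l261 (T t21 (L l54 (L l293 (L l498 (T t31 N))))))))) (K a15 (M a192 (F (T t57 (L l483 (T t27 (L l325 (T t20 N))))))) N)))))))))))))))⟩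
def e0_63__65_153 : Ent 4 := ⟨[a0, a63], [a65, a254], (M a48 (F (T t1 (T t2 (T t3 (T t0 (K a16 (M a60 (F (T t43 (L l438 (T t64 (T t65 N)))))) (K a32 (M a60 (F (T t42 (T t67 (L l24 (L l28 (T t65 N))))))) (K a21 (M a192 (F (T t28 (L l47 (L l347 (T t20 (L l47 (L l347 (T t29 N))))))))) (K a37 (M a192 (F (T t19 (L l47 (T t20 (L l261 (T t21 N))))))) (K a53 (M a192 (F (T t19 (L l261 (L l491 (T t21 (T t31 N))))))) (K a26 (M a192 (F (T t28 (T t20 (L l261 (T t21 N)))))) (K a42 (M a192 (F (T t19 (T t20 (L l28 (T t29 N)))))) (K a58 (M a192 (F (T t19 (L l261 (T t21 (L l54 (L l498 (T t31 N)))))))) (K a15 (M a192 (F (T t47 (L l483 (T t27 (L l325 (T t20 N))))))) N)))))))))))))))⟩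
def e0_63__65_154 : Ent 4 := ⟨[a0, a63], [a65, a255], (M a48 (F (T t48 (L l469 (T t1 (L l469 (T t2 (L l469 (T t3 (L l469 (T t0 (K a16 (M a60 (F (T t138 (L l14 (L l18 (L l475 (T t67 (T t65 N)))))))) (K a32 (M a60 (F (T t116 (L l439 (T t64 (L l24 (L l28 (T t65 N)))))))) (K a21 (M a192 (F (T t54 (L l266 (T t27 (L l47 (L l289 (L l347 (T t29 N))))))))) (K a37 (M a192 (F (T t55 (L l47 (L l289 (T t20 (L l28 (L l47 (L l289 (T t29 N)))))))))) (K a53 (M a12 (F (T t145 (L l47 (L l439 (T t122 (L l47 (T t146 N)))))))) (K a26 (M a192 (F (T t33 (L l266 (T t27 (L l289 (T t29 N))))))) (K a42 (M a192 (F (T t56 (L l266 (T t27 (L l28 (L l289 (T t29 N)))))))) (K a58 (M a12 (F (T t145 (L l439 (T t122 (T t146 N)))))) (K a15 (M a192 (L l469 (F (T t54 (L l266 (L l483 (T t27 (L l289 (T t29 (K a95 (M a175 (F (T t53 (L l266 (L l483 (T t28 (L l289 (L l361 (T t29 N))))))))) (K a175 (M a95 (F (T t53 (L l266 (L l483 (T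 t28 (L l289 (T t29 N)))))))) N))))))))))) N))))))))))))))))))))⟩
def b0_63__65 : Blk 4 := ⟨[0, 63], [65], [1, 2, 3, 4, 5, 6, 7, 8, 9, 10, 11, 12, 13, 14, 15, 20, 22, 23, 24, 25, 26, 27, 28, 29, 30, 31, 40, 41, 43, 44, 45, 46, 47, 60, 61, 62, 64, 66, 67, 68, 69, 70, 71, 72, 73, 74, 75, 76, 77, 78, 79, 84, 85, 86, 87, 88, 89, 90, 91, 92, 93, 94, 95, 104, 105, 106, 107, 108, 109, 110, 111, 124, 125, 126, 127, 128, 129, 130, 131, 132, 133, 134, 135, 136, 137, 138, 139, 140, 141, 142, 143, 148, 149, 150, 151, 152, 153, 154, 155, 156, 157, 158, 159, 168, 169, 170, 171, 172, 173, 174, 175, 188, 189, 190, 191, 192, 193, 194, 195, 196, 197, 198, 199, 200, 201, 202, 203, 204, 205, 206, 207, 212, 213, 214, 215, 216, 217, 218, 219, 220, 221, 222, 223, 232, 233, 234, 235, 236, 237, 238, 239, 252, 253, 254, 255], [e0_63__65_0, e0_63__65_1, e0_63__65_2, e0_63__65_3, e0_63__65_4, e0_63__65_5, e0_63__65_6,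 e0_63__65_7, e0_63__65_8, e0_63__65_9, e0_63__65_10, e0_63__65_11, e0_63__65_12, e0_63__65_13, e0_63__65_14, e0_63__65_15, e0_63__65_16, e0_63__65_17, e0_63__65_18, e0_63__65_19, e0_63__65_20, e0_63__65_21, e0_63__65_22, e0_63__65_23, e0_63__65_24, e0_63__65_25, e0_63__65_26, e0_63__65_27, e0_63__65_28, e0_63__65_29, e0_63__65_30, e0_63__65_31, e0_63__65_32, e0_63__65_33, e0_63__65_34, e0_63__65_35, e0_63__65_36, e0_63__65_37, e0_63__65_38, e0_63__65_39, e0_63__65_40, e0_63__65_41, e0_63__65_42, e0_63__65_43, e0_63__65_44, e0_63__65_45, e0_63__65_46, e0_63__65_47, e0_63__65_48, e0_63__65_49, e0_63__65_50, e0_63__65_51, e0_63__65_52, e0_63__65_53, e0_63__65_54, e0_63__65_55, e0_63__65_56, e0_63__65_57, e0_63__65_58, e0_63__65_59, e0_63__65_60, e0_63__65_61, e0_63__65_62, e0_63__65_63, e0_63__65_64, e0_63__65_65, e0_63__65_66, e0_63__65_67, e0_63__65_68, e0_63__65_69, e0_63__65_70, e0_63__65_71,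 e0_63__65_72, e0_63__65_73, e0_63__65_74, e0_63__65_75, e0_63__65_76, e0_63__65_77, e0_63__65_78, e0_63__65_79, e0_63__65_80, e0_63__65_81, e0_63__65_82, e0_63__65_83, e0_63__65_84, e0_63__65_85, e0_63__65_86, e0_63__65_87, e0_63__65_88, e0_63__65_89, e0_63__65_90, e0_63__65_91, e0_63__65_92, e0_63__65_93, e0_63__65_94, e0_63__65_95, e0_63__65_96, e0_63__65_97, e0_63__65_98, e0_63__65_99, e0_63__65_100, e0_63__65_101, e0_63__65_102, e0_63__65_103, e0_63__65_104, e0_63__65_105, e0_63__65_106, e0_63__65_107, e0_63__65_108, e0_63__65_109, e0_63__65_110, e0_63__65_111, e0_63__65_112, e0_63__65_113, e0_63__65_114, e0_63__65_115, e0_63__65_116, e0_63__65_117, e0_63__65_118, e0_63__65_119, e0_63__65_120, e0_63__65_121, e0_63__65_122, e0_63__65_123, e0_63__65_124, e0_63__65_125, e0_63__65_126, e0_63__65_127, e0_63__65_128, e0_63__65_129, e0_63__65_130, e0_63__65_131, e0_63__65_132, e0_63__65_133,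 e0_63__65_134, e0_63__65_135, e0_63__65_136, e0_63__65_137, e0_63__65_138, e0_63__65_139, e0_63__65_140, e0_63__65_141, e0_63__65_142, e0_63__65_143, e0_63__65_144, e0_63__65_145, e0_63__65_146, e0_63__65_147, e0_63__65_148, e0_63__65_149, e0_63__65_150, e0_63__65_151, e0_63__65_152, e0_63__65_153, e0_63__65_154], by decide +kernel, by decide +kernel⟩

end Pool.Agent.Lib_TTT.K4
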