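import Pool.Agent.Lib_TTT.K4Base
import Pool.Agent.Lib_TTT.K4T00

/-! Certificates in `4^4`. -/

set_option autoImplicit false
set_option maxRecDepth 200000

namespace Pool.Agent.Lib_TTT.K4

open Lib_TTT AC DC

def e0_63__66_0 : Ent 4 := ⟨[a0, a63], [a66, a1], (M a48 (F (T t0 (L l65 (T t1 (L l5 (T t2 (L l65 (T t3 (K a16 (M a60 (F (T t42 (L l14 (L l18 (L l65 (L l309 (T t67 (L l5 (T t65 N)))))))))) (K a32 (M a60 (F (T t42 (L l65 (L l309 (T t67 (L l5 (L l24 (L l28 (T t65 N)))))))))) (K a21 (M a192 (L l65 (F (T t28 (L l47 (L l347 (T t20 (L l47 (L l347 (T t29 (K a41 (M a61 (F (T t27 (L l142 (L l305 (T t584 N)))))) (K a61 (M a41 (F (T t27 (L l35 (L l47 (L l347 (L l515 (T t20 (L l18 (L l76 (L l142 (T t46 N)))))))))))) N)))))))))))) (K a37 (M a192 (F (T t19 (L l47 (T t20 (T t21 N)))))) (K a53 (M a192 (F (T t19 (L l491 (T t21 (L l142 (T t31 N))))))) (K a26 (M a192 (F (T t28 (T t20 (T t21 N))))) (K a42 (M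 a192 (F (T t19 (T t20 (L l28 (T t29 N)))))) (K a58 (M a192 (F (T t19 (T t21 (L l54 (L l142 (L l498 (T t31 N)))))))) (K a15 (M a192 (F (T t56 (L l483 (T t27 (L l469 (T t21 N))))))) N))))))))))))))))))⟩
def e0_63__66_1 : Ent 4 := ⟨[a0, a63], [a66, a2], (M a48 (L l306 (F (T t3 (L l6 (T t1 (L l66 (T t2 (L l66 (T t0 (K a16 (M a106 (L l306 (F (T t585 (L l66 (L l76 (L l309 (T t586 (L l18 (T t306 (K a130 (M a194 (F (T t587 (L l18 (T t306 N))))) (K a194 (M a130 (F (L l340 (T t578 (L l18 (L l76 (L l294 (T t588 N)))))))) N)))))))))))) (K a32 (M a51 (L l306 (F (T t589 (T t590 (L l6 (T t591 (K a130 (M a194 (F (T t592 (L l194 (L l218 (T t593 N)))))) (K a194 (M a130 (F (T t592 (L l76 (L l228 (L l309 (L l376 (L l486 (T t594 N))))))))) N))))))))) (K a21 (M a192 (L l306 (F (T t28 (L l47 (L l347 (T t20 (L l47 (L l347 (T t29 (K a130 (M a194 (F (T t28 (L l66 (L l347 (T t595 N)))))) (K a194 (M a130 (F (L l347 (T t225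 (L l76 (T t596 N)))))) N)))))))))))) (K a37 (M a192 (L l306 (F (T t19 (L l47 (T t20 (T t21 (K a130 (M a194 (F (T t19 (L l66 (T t595 N))))) (K a194 (M a130 (F (T t225 (L l76 (T t596 N))))) N))))))))) (K a53 (M a192 (L l306 (F (T t19 (L l491 (T t21 (L l66 (L l142 (T t31 (K a130 (M a194 (F (T t28 (L l66 (L l491 (T t595 N)))))) (K a194 (M a130 (F (T t28 (L l491 (T t21 (L l66 (L l142 (L l516 (T t31 N))))))))) N))))))))))) (K a26 (M a192 (L l306 (F (T t28 (T t20 (T t21 (K a130 (M a194 (F (T t225 (L l42 (L l72 (L l152 (T t597 N))))))) (K a194 (M a130 (F (T t225 (L l76 (T t596 N))))) N)))))))) (K a42 (M a106 (L l66 (L l306 (F (T t585 (L l76 (T t551 (L l28 (L l76 (T t579 (K a130 (M a194 (L l66 (F (T t587 (L l28 (L l76 (T t579 (K a22 (Fr a62 a150 l516 (V t307)) (K a62 (M a22 (F (T t307 (L l28 (L l76 (T t579 (L l76 (T t551 N)))))))) N))))))))) (K a194 (M a130 (L l66 (F (T t578 (L l76 (T t596 (K a22 (M a62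 (F (T t578 (L l76 (T t596 N))))) (K a62 (M a22 (F (T t578 (L l76 (T t596 N))))) N)))))))) (K a22 (M a62 (L l306 (F (T t307 (L l19 (L l22 (L l28 (T t598 (K a130 (Fr a194 a150 l516 (V t307)) (K a194 (M a130 (F (T t578 (L l76 (T t596 N))))) N)))))))))) (K a62 (M a22 (L l306 (F (T t585 (L l76 (T t551 (L l28 (L l76 (T t579 (K a130 (M a194 (F (T t307 (L l28 (L l76 (T t579 (L l76 (T t551 N)))))))) (K a194 (M a130 (F (T t578 (L l76 (T t596 N))))) N))))))))))) N)))))))))))))) (K a58 (M a106 (L l306 (F (T t310 (L l76 (T t551 (T t599 (K a130 (M a194 (F (T t587 (T t599 N)))) (K a194 (M a130 (F (L l76 (T t596 (L l294 (T t310 N)))))) N))))))))) (K a15 (M a192 (L l306 (F (T t57 (L l483 (T t27 (L l325 (T t20 (K a130 (M a194 (F (T t33 (L l42 (L l152 (T t597 N)))))) (K a194 (M a130 (F (T t33 (L l76 (L l481 (T t596 N)))))) N)))))))))) (K a130 (M a194 (F (T t3 (L l6 (T t1 (L l66 (T t2 (L l66 (T t0 (K a16 (M a192 (F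 (T t600 (L l18 (T t35 N))))) (K a32 (M a192 (F (T t35 (L l42 (L l380 (T t601 N)))))) (K a21 (M a192 (F (T t28 (L l66 (L l347 (T t595 N)))))) (K a37 (M a192 (F (T t19 (L l66 (T t595 N))))) (K a53 (M a192 (F (T t28 (L l66 (L l491 (T t595 N)))))) (K a26 (M a192 (F (T t225 (L l42 (L l72 (L l152 (T t597 N))))))) (K a42 (M a62 (F (T t602 (L l218 (T t603 N))))) (K a58 (M a192 (F (T t35 (L l36 (L l42 (T t601 N)))))) (K a15 (M a192 (F (T t33 (L l42 (L l152 (T t597 N)))))) N)))))))))))))))))) (K a194 (M a130 (F (T t3 (L l76 (T t596 (L l66 (L l76 (T t604 (K a16 (M a176 (F (T t605 (L l76 (L l309 (T t606 N)))))) N))))))))) N)))))))))))))))))))))⟩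
def e0_63__66_2 : Ent 4 := ⟨[a0, a63], [a66, a3], (M a192 (F (T t47 (L l475 (T t21 (L l475 (T t35 (L l76 (L l142 (L l475 (T t202 (L l142 (L l475 (T t37 (K a64 (M a48 (L l76 (F (T t56 (L l7 (T t1 (L l116 (L l142 (L l144 (T t31 (K a65 (M a67 (F (T t48 (L l116 (L l142 (L l144 (L l331 (T t22 (T t525 N))))))))) (K a67 (M a65 (L l307 (F (T t607 (L l43 (L l121 (L l306 (T t608 (K a131 (Fr a195 a130 l308 (V t609)) (K a195 (M a131 (F (T t56 (L l7 (L l337 (T t3 (T t525 N))))))) N)))))))))) N)))))))))))) (K a128 (M a48 (F (T t610 (L l220 (L l331 (T t20 (L l142 (T t31 N)))))))) (K a21 (M a48 (F (L l453 (T t28 (L l47 (L l331 (L l347 (T t20 (L l47 (L l347 (T t29 N))))))))))) (K a85 (M a16 (F (T t504 (L l453 (T t210 (L l94 (L l142 (L l144 (T t211 N))))))))) (K a149 (M a48 (F (T t132 (L l170 (L l220 (L l453 (T t27 (L l7 (L l170 (L l220 (L l347 (L l491 (T t391 (L l7 (L l76 (L l375 (T t214 N))))))))))))))))) (K a42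 (M a48 (F (T t56 (L l453 (T t27 (L l28 (T t29 N))))))) (K a106 (M a48 (L l142 (F (T t48 (L l453 (T t27 (L l7 (L l411 (T t391 (L l7 (L l76 (L l104 (L l144 (L l390 (L l498 (T t214 (K a86 (M a126 (L l477 (F (T t48 (L l69 (L l87 (L l351 (T t611 (K a252 (M a169 (F (T t48 (L l262 (L l453 (T t27 (L l7 (L l411 (L l471 (T t391 (L l7 (L l76 (L l104 (L l144 (L l390 (L l471 (L l498 (T t214 N)))))))))))))))))) (K a169 (Fr a252 a189 l435 (V t28)) N)))))))))) (K a126 (M a86 (F (T t48 (L l104 (L l453 (T t28 (L l7 (L l411 (T t391 (L l7 (L l76 (L l104 (L l144 (L l390 (L l498 (T t214 N)))))))))))))))) N)))))))))))))))))) (K a170 (M a32 (F (T t612 (L l453 (T t218 (L l180 (L l220 (T t220 N)))))))) (K a255 (M a16 (L l475 (F (T t112 (L l266 (L l453 (T t210 (L l142 (T t211 (K a87 (M a171 (F (T t112 (L l266 (L l453 (T t210 (L l142 (T t211 N)))))))) (K a171 (M a87 (F (T t112 (L l266 (L l453 (T t210 (L l142 (T t211 N))))))))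 N))))))))))) N)))))))))))))))))))))))⟩
def e0_63__66_3 : Ent 4 := ⟨[a0, a63], [a66, a4], (M a48 (F (T t0 (L l50 (T t1 (L l1 (T t2 (L l50 (T t3 (K a16 (M a60 (F (T t64 (L l309 (T t43 (L l1 (T t65 N))))))) (K a32 (M a60 (F (T t64 (L l24 (L l28 (L l309 (T t43 (L l1 (L l24 (L l28 (T t65 N))))))))))) (K a21 (M a192 (L l50 (F (T t28 (L l47 (L l347 (T t20 (L l47 (L l347 (T t29 (K a38 (M a55 (F (T t27 (L l142 (L l310 (T t66 N)))))) (K a55 (M a38 (F (T t27 (L l31 (L l47 (L l347 (L l495 (T t20 (L l18 (L l76 (L l142 (T t46 N)))))))))))) N)))))))))))) (K a37 (M a192 (F (T t19 (L l47 (T t20 (T t21 N)))))) (K a53 (M a192 (F (T t19 (L l491 (T t21 (L l142 (T t31 N))))))) (K a26 (M a192 (F (T t28 (T t20 (T t21 N))))) (K a42 (M a192 (F (T t19 (T t20 (L l28 (T t29 N)))))) (K a58 (M a192 (F (T t19 (T t21 (L l54 (L l142 (L l498 (T t31 N)))))))) (K a15 (M a192 (F (T t56 (L l483 (T t27 (L l469 (T t21 N))))))) N))))))))))))))))))⟩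
def e0_63__66_4 : Ent 4 := ⟨[a0, a63], [a66, a5], (M a60 (F (T t522 (L l47 (L l309 (T t67 (L l309 (T t43 (L l47 (L l306 (L l309 (T t68 (L l5 (L l309 (T t69 (K a20 (M a48 (F (T t70 (L l11 (L l14 (L l47 (T t3 (L l46 (T t71 N))))))))) (K a40 (M a48 (F (T t70 (L l47 (T t3 (L l22 (L l24 (T t71 N)))))))) (K a21 (M a192 (L l47 (F (T t72 (L l347 (T t73 (L l347 (T t74 (K a37 (M a53 (F (T t77 (L l142 (L l311 (T t613 N)))))) (K a53 (M a37 (F (T t77 (L l347 (L l491 (T t73 (L l11 (L l76 (L l142 (T t78 N)))))))))) N)))))))))) (K a41 (M a192 (F (T t79 (L l47 (L l65 (T t35 (T t73 N))))))) (K a61 (M a192 (F (T t72 (L l47 (L l65 (L l515 (T t35 (L l142 (T t80 N))))))))) (K a22 (M a192 (F (T t72 (T t21 (T t73 N))))) (K a42 (M a192 (F (T t79 (T t73 (L l22 (T t74 N)))))) (K a62 (M a192 (F (T t72 (L l47 (T t35 (L l66 (L l142 (L l516 (T t80 N))))))))) (K a3 (M a192 (F (T t614 (L l477 (T t79 (L l47 (L l475 (T t35 N))))))))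 N))))))))))))))))))))))))⟩
def e0_63__66_5 : Ent 4 := ⟨[a0, a63], [a66, a6], (M a48 (F (T t3 (L l6 (T t1 (L l1 (T t2 (T t0 (K a16 (M a60 (F (T t64 (L l9 (L l14 (L l18 (L l309 (T t67 (L l1 (T t65 N)))))))))) (K a32 (M a60 (F (T t64 (L l9 (L l309 (T t67 (L l1 (L l24 (L l28 (T t65 N)))))))))) (K a21 (M a192 (F (T t28 (L l47 (L l347 (T t20 (L l47 (L l347 (T t29 N))))))))) (K a37 (M a192 (F (T t19 (L l47 (T t20 (T t21 N)))))) (K a53 (M a192 (F (T t19 (L l491 (T t21 (L l142 (T t31 N))))))) (K a26 (M a192 (F (T t28 (T t20 (T t21 N))))) (K a42 (M a192 (F (T t19 (T t20 (L l28 (T t29 N)))))) (K a58 (M a192 (F (T t19 (T t21 (L l54 (L l142 (L l498 (T t31 N)))))))) (K a15 (M a192 (F (T t57 (L l483 (T t27 (L l325 (T t20 N))))))) N)))))))))))))))))⟩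
def e0_63__66_6 : Ent 4 := ⟨[a0, a63], [a66, a7], (M a149 (F (T t25 (L l309 (T t175 (T t176 (L l76 (L l142 (T t177 (K a192 (M a3 (F (L l514 (T t358 (L l292 (T t615 (L l292 (L l296 (L l457 (T t616 (L l296 (L l306 (T t617 N))))))))))))) (K a21 (M a48 (F (T t16 (L l142 (T t13 (L l18 (T t14 N))))))) (K a85 (M a16 (F (T t504 (L l142 (L l144 (T t190 (L l94 (T t278 N)))))))) (K a213 (Fr a106 a192 l519 (Fr a42 a21 l68 (Fr a170 a234 l390 (Fr a255 a85 l476 (V t582))))) (K a42 (M a48 (F (L l54 (T t16 (L l142 (L l390 (T t13 (L l54 (T t14 N))))))))) (K a106 (M a86 (F (L l393 (T t618 (L l390 (L l457 (T t619 (L l390 (T t620 (L l306 (L l390 (L l393 (T t621 (L l306 (L l393 (T t622 N)))))))))))))))) (K a170 (M a48 (F (T t184 (L l7 (L l462 (T t1 (L l142 (L l390 (T t13 N))))))))) (K a191 (M a16 (F (T t504 (L l142 (T t190 (L l213 (T t191 N))))))) (K a255 (M a16 (F (T t504 (L l142 (L l266 (T t190 (L l289 (L l296 (T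 t191 N))))))))) N))))))))))))))))))⟩
def e0_63__66_7 : Ent 4 := ⟨[a0, a63], [a66, a8], (M a85 (F (T t52 (L l56 (L l76 (L l309 (T t88 (L l56 (L l76 (L l142 (T t89 (L l76 (L l309 (L l464 (T t90 (K a64 (M a105 (L l76 (F (L l306 (T t623 (L l56 (T t624 (T t625 (K a65 (M a67 (F (L l140 (L l460 (T t626 (L l56 (T t627 (L l56 (L l305 (T t628 N)))))))))) (K a67 (Fr a65 a125 l141 (V t629)) N)))))))))) (K a192 (M a3 (F (T t630 (L l292 (L l306 (T t354 (L l228 (L l464 (T t355 N))))))))) (K a21 (M a48 (F (T t99 (L l464 (T t50 (L l47 (T t100 N))))))) (K a149 (M a16 (F (T t173 (L l56 (L l375 (T t97 (L l56 (L l170 (T t102 N))))))))) (K a213 (Fr a170 a255 l476 (Fr a42 a21 l68 (Fr a106 a234 l390 (Fr a192 a149 l519 (V t581))))) (K a42 (M a59 (F (T t104 (L l390 (L l464 (T t105 (L l26 (L l316 (T t106 (L l76 (L l309 (L l316 (L l390 (L l464 (T t107 N))))))))))))))) (K a106 (M a86 (F (T t631 (L l56 (L l390 (T t369 (L l393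 (T t370 (L l309 (L l460 (T t371 N))))))))))) (K a170 (M a89 (F (L l178 (T t108 (L l56 (L l390 (T t109 (L l178 (L l316 (T t110 (L l56 (L l178 (L l309 (L l390 (T t111 N))))))))))))))) (K a255 (M a16 (F (L l56 (T t112 (L l289 (T t113 (L l56 (L l289 (L l296 (T t98 N)))))))))) N))))))))))))))))))))))))⟩
def e0_63__66_8 : Ent 4 := ⟨[a0, a63], [a66, a9], (M a48 (F (T t3 (L l2 (T t1 (L l5 (T t2 (T t0 (K a16 (M a60 (F (T t64 (L l9 (L l14 (L l18 (L l309 (T t67 (L l5 (T t65 N)))))))))) (K a32 (M a60 (F (T t64 (L l9 (L l309 (T t67 (L l5 (L l24 (L l28 (T t65 N)))))))))) (K a21 (M a192 (F (T t28 (L l47 (L l347 (T t20 (L l47 (L l347 (T t29 N))))))))) (K a37 (M a192 (F (T t19 (L l47 (T t20 (T t21 N)))))) (K a53 (M a192 (F (T t19 (L l491 (T t21 (L l142 (T t31 N))))))) (K a26 (M a192 (F (T t28 (T t20 (T t21 N))))) (K a42 (M a192 (F (T t19 (T t20 (L l28 (T t29 N)))))) (K a58 (M a192 (F (T t19 (T t21 (L l54 (L l142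 (L l498 (T t31 N)))))))) (K a15 (M a192 (F (T t57 (L l483 (T t27 (L l325 (T t20 N))))))) N)))))))))))))))))⟩
def e0_63__66_9 : Ent 4 := ⟨[a0, a63], [a66, a10], (M a85 (F (T t52 (L l54 (L l76 (L l309 (T t88 (L l54 (L l76 (L l142 (T t89 (L l76 (L l309 (L l462 (T t90 (K a64 (M a105 (L l76 (F (L l306 (T t623 (L l54 (T t624 (T t625 (K a65 (M a67 (F (L l140 (T t626 (L l54 (T t627 (L l54 (L l305 (T t628 N))))))))) (K a67 (Fr a65 a125 l141 (V t629)) N)))))))))) (K a192 (M a3 (F (T t630 (L l6 (L l292 (L l306 (T t354 (L l228 (L l462 (T t355 N)))))))))) (K a21 (M a48 (F (T t99 (L l462 (T t50 (L l47 (L l318 (T t100 N)))))))) (K a149 (M a48 (F (T t99 (L l54 (L l375 (T t0 (L l220 (L l462 (T t50 N))))))))) (K a213 (Fr a170 a255 l476 (Fr a42 a21 l68 (Fr a106 a234 l390 (Fr a192 a149 l519 (V t581))))) (K a42 (M a58 (F (T t118 (L l390 (L l462 (T t119 (L l28 (L l318 (T t120 (L l76 (L l309 (L l318 (L l390 (L l462 (T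 t121 N))))))))))))))) (K a106 (M a86 (F (T t631 (L l54 (L l390 (T t369 (L l393 (T t370 (L l309 (T t371 N)))))))))) (K a170 (M a90 (F (L l180 (T t125 (L l54 (L l390 (T t126 (L l82 (L l180 (L l318 (T t127 (L l54 (L l180 (L l309 (L l390 (T t128 N)))))))))))))))) (K a255 (M a4 (F (L l2 (L l54 (T t129 (L l2 (L l265 (T t130 (L l54 (L l265 (L l296 (T t131 N)))))))))))) N))))))))))))))))))))))))⟩
def e0_63__66_10 : Ent 4 := ⟨[a0, a63], [a66, a11], (M a149 (F (T t25 (L l309 (T t175 (T t176 (L l76 (L l142 (T t177 (K a192 (M a3 (F (T t632 (L l55 (L l292 (T t615 (L l55 (L l292 (L l296 (T t616 (L l296 (L l306 (T t617 N))))))))))))) (K a21 (M a48 (F (T t16 (L l142 (T t13 (L l18 (T t14 N))))))) (K a85 (M a16 (F (T t504 (L l142 (L l144 (T t190 (L l57 (L l94 (L l465 (T t278 N)))))))))) (K a213 (Fr a106 a192 l519 (Fr a42 a21 l68 (Fr a170 a234 l390 (Fr a255 a85 l476 (V t582))))) (K a42 (M a48 (F (L l54 (T t16 (L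 l142 (L l390 (T t13 (L l54 (T t14 N))))))))) (K a106 (M a86 (F (L l390 (T t619 (L l55 (L l393 (T t618 (L l390 (T t620 (L l55 (L l306 (L l390 (L l393 (T t621 (L l55 (L l306 (L l393 (T t622 N)))))))))))))))))) (K a170 (M a48 (F (T t184 (L l2 (L l7 (L l462 (T t1 (L l142 (L l390 (T t13 N)))))))))) (K a191 (M a16 (F (T t112 (L l142 (T t190 (L l213 (T t191 N))))))) (K a255 (M a16 (F (T t112 (L l142 (L l266 (T t190 (L l289 (L l296 (T t191 N))))))))) N))))))))))))))))))⟩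
def e0_63__66_11 : Ent 4 := ⟨[a0, a63], [a66, a12], (M a48 (F (T t48 (L l3 (T t1 (L l3 (T t2 (L l3 (T t3 (L l3 (T t0 (K a16 (M a60 (F (T t138 (L l9 (L l14 (L l18 (L l309 (T t67 (T t65 N))))))))) (K a32 (M a60 (F (T t138 (L l9 (L l309 (T t67 (L l24 (L l28 (T t65 N))))))))) (K a21 (M a192 (F (L l478 (T t28 (L l47 (L l326 (L l347 (T t20 (L l47 (L l347 (T t29 N))))))))))) (K a37 (M a192 (F (T t36 (L l47 (L l326 (T t20 (L l470 (T t21 N)))))))) (K a53 (M a192 (F (T t36 (L l470 (L l491 (T t21 (L l142 (T t31 N)))))))) (K a26 (M a192 (F (T t56 (L l478 (T t27 (L l470 (T t21 N))))))) (K a42 (M a192 (F (T t56 (L l478 (T t27 (L l28 (T t29 N))))))) (K a58 (M a192 (F (T t57 (L l478 (T t27 (L l54 (L l142 (L l498 (T t31 N))))))))) (K a15 (M a80 (L l3 (F (T t139 (L l142 (T t59 (L l309 (L l334 (L l339 (L l483 (T t633 (K a13 (M a14 (F (T t61 (L l74 (T t140 N))))) (K a14 (M a13 (F (T t61 (L l74 (T t141 N))))) N)))))))))))))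 N))))))))))))))))))))⟩
def e0_63__66_12 : Ent 4 := ⟨[a0, a63], [a66, a13], (M a149 (F (T t25 (L l309 (T t175 (T t176 (L l76 (L l142 (T t177 (K a192 (M a3 (F (L l514 (T t353 (L l5 (L l292 (T t615 (L l292 (L l296 (T t616 (L l296 (L l306 (L l467 (T t617 N)))))))))))))) (K a21 (M a48 (F (T t16 (L l142 (T t13 (L l18 (T t14 N))))))) (K a85 (M a16 (F (T t504 (L l142 (L l144 (T t190 (L l94 (T t278 N)))))))) (K a213 (Fr a106 a192 l519 (Fr a42 a21 l68 (Fr a170 a234 l390 (Fr a255 a85 l476 (V t582))))) (K a42 (M a48 (F (L l54 (T t16 (L l142 (L l390 (T t13 (L l54 (T t14 N))))))))) (K a106 (M a86 (F (L l390 (T t619 (L l5 (L l393 (T t618 (L l390 (T t620 (L l59 (L l306 (L l390 (L l393 (T t621 (L l306 (L l393 (L l467 (T t622 N)))))))))))))))))) (K a170 (M a48 (F (T t184 (L l3 (L l462 (T t1 (L l142 (L l390 (T t13 N))))))))) (K a191 (M a16 (F (T t504 (L l142 (T t190 (L l213 (T t191 N))))))) (K a255 (M a16 (F (T t504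 (L l142 (L l266 (T t190 (L l289 (L l296 (T t191 N))))))))) N))))))))))))))))))⟩
def e0_63__66_13 : Ent 4 := ⟨[a0, a63], [a66, a14], (M a149 (F (T t25 (L l309 (T t175 (T t176 (L l76 (L l142 (T t177 (K a192 (M a3 (F (T t632 (L l292 (L l468 (T t615 (L l292 (L l296 (T t616 (L l6 (L l296 (L l306 (T t617 N))))))))))))) (K a21 (M a48 (F (T t16 (L l142 (T t13 (L l18 (T t14 N))))))) (K a85 (M a16 (F (T t504 (L l142 (L l144 (T t190 (L l72 (L l94 (L l480 (T t278 N)))))))))) (K a213 (Fr a106 a192 l519 (Fr a42 a21 l68 (Fr a170 a234 l390 (Fr a255 a85 l476 (V t582))))) (K a42 (M a48 (F (L l54 (T t16 (L l142 (L l390 (T t13 (L l54 (T t14 N))))))))) (K a106 (M a86 (F (L l390 (T t619 (L l393 (L l468 (T t618 (L l390 (T t620 (L l6 (L l306 (L l390 (L l393 (T t621 (L l6 (L l306 (L l393 (T t622 N)))))))))))))))))) (K a170 (M a48 (F (T t184 (L l3 (L l6 (L l462 (T t1 (L l142 (L l390 (T t13 N)))))))))) (K a191 (M a16 (F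 (T t112 (L l142 (T t190 (L l213 (T t191 N))))))) (K a255 (M a16 (F (T t112 (L l142 (L l266 (T t190 (L l289 (L l296 (T t191 N))))))))) N))))))))))))))))))⟩
def e0_63__66_14 : Ent 4 := ⟨[a0, a63], [a66, a15], (M a12 (F (T t150 (L l73 (T t122 (L l73 (T t151 (L l73 (T t152 (L l73 (T t153 (K a4 (M a85 (F (T t49 (L l327 (T t124 (T t154 N)))))) (K a8 (M a85 (F (L l469 (T t52 (L l327 (L l464 (T t124 (L l56 (T t154 N))))))))) (K a21 (M a192 (F (L l327 (T t468 (L l15 (L l347 (L l481 (T t450 (L l15 (L l347 (T t157 N))))))))))) (K a25 (M a192 (F (T t496 (L l15 (L l481 (T t450 (L l469 (T t21 N)))))))) (K a29 (M a192 (F (T t496 (L l371 (L l469 (T t21 (L l142 (T t160 N)))))))) (K a38 (M a192 (F (T t161 (L l327 (T t156 (L l469 (T t21 N))))))) (K a42 (M a192 (F (T t161 (L l327 (T t156 (L l56 (T t157 N))))))) (K a46 (M a192 (F (T t57 (L l327 (T t156 (L l26 (L l142 (L l408 (T t160 N))))))))) (K a51 (M a68 (L l73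 (F (T t162 (L l142 (T t163 (L l309 (L l339 (L l489 (L l513 (T t634 (K a39 (M a27 (F (T t165 (L l63 (T t166 N))))) (K a27 (M a39 (F (T t165 (L l63 (T t167 N))))) N))))))))))))) N))))))))))))))))))))⟩
def e0_63__66_15 : Ent 4 := ⟨[a0, a63], [a66, a20], (M a48 (F (T t2 (L l11 (T t1 (L l11 (L l14 (T t3 (T t0 (K a16 (M a85 (L l14 (F (T t168 (T t50 (T t51 (K a24 (M a28 (F (T t168 (T t50 (T t51 N))))) (K a28 (M a24 (F (T t50 (L l46 (T t635 N))))) N)))))))) (K a32 (M a85 (F (L l11 (T t52 (L l404 (T t50 (L l28 (T t51 N)))))))) (K a21 (M a192 (L l11 (F (T t28 (L l47 (L l347 (T t20 (L l47 (L l347 (T t29 (K a22 (M a23 (F (L l142 (T t206 (L l16 (L l66 (L l306 (T t636 N)))))))) (K a23 (M a22 (F (T t27 (L l47 (L l347 (L l351 (T t20 (L l14 (L l18 (L l76 (L l142 (T t46 N)))))))))))) N)))))))))))) (K a37 (M a192 (F (T t225 (T t27 (T t21 N))))) (K a53 (M a192 (F (T t28 (L l491 (T t21 (L l142 (T t31 N))))))) (K a26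 (M a192 (F (T t27 (T t20 (T t21 N))))) (K a42 (M a192 (F (T t27 (T t20 (L l28 (T t29 N)))))) (K a58 (M a192 (F (T t28 (T t21 (L l54 (L l142 (L l498 (T t31 N)))))))) (K a15 (M a192 (F (T t56 (L l483 (T t27 (L l469 (T t21 N))))))) N))))))))))))))))))⟩
def e0_63__66_16 : Ent 4 := ⟨[a0, a63], [a66, a22], (M a48 (F (L l11 (T t1 (L l66 (T t2 (L l11 (T t3 (L l66 (T t0 (K a16 (M a85 (F (L l66 (T t168 (T t50 (L l66 (T t51 N))))))) (K a32 (M a85 (F (L l11 (T t52 (L l404 (T t50 (L l28 (L l66 (T t51 N))))))))) (K a21 (M a192 (L l11 (F (T t28 (L l47 (L l347 (T t20 (L l47 (L l347 (T t29 (K a20 (M a23 (F (L l142 (T t206 (L l16 (L l66 (L l306 (T t636 N)))))))) (K a23 (M a20 (F (T t27 (L l347 (L l351 (T t195 N)))))) N)))))))))))) (K a37 (M a192 (L l51 (F (T t19 (L l47 (T t20 (T t21 (K a52 (M a7 (F (T t225 (L l28 (T t28 (L l11 (L l47 (T t35 N)))))))) (K a7 (M a52 (F (T t225 (L l1 (T t82 N))))) N))))))))) (K a53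 (M a192 (F (T t19 (L l491 (T t21 (L l66 (L l142 (T t31 N)))))))) (K a26 (M a192 (L l16 (F (T t28 (T t20 (T t21 (K a18 (M a30 (F (T t225 (L l11 (L l18 (T t35 (T t28 N))))))) (K a30 (M a18 (F (T t21 (L l19 (L l69 (T t637 N)))))) N)))))))) (K a42 (M a60 (L l66 (F (T t64 (L l22 (T t247 (L l11 (L l56 (T t288 (L l19 (L l22 (L l28 (L l54 (T t638 (K a2 (Fr a62 a61 l33 (V t639)) (K a62 (M a2 (F (L l36 (T t339 (L l22 (T t247 (L l36 (L l51 (T t640 N))))))))) N)))))))))))))))) (K a58 (M a192 (F (T t19 (T t21 (L l54 (L l66 (L l142 (L l498 (T t31 N))))))))) (K a15 (M a192 (F (T t33 (L l483 (T t27 (L l469 (T t21 N))))))) N)))))))))))))))))))⟩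
def e0_63__66_17 : Ent 4 := ⟨[a0, a63], [a66, a23], (M a48 (F (T t2 (L l11 (T t1 (L l11 (T t3 (L l17 (T t0 (K a16 (M a60 (F (T t64 (L l11 (L l18 (L l306 (L l309 (T t68 (L l11 (L l18 (T t194 N))))))))))) (K a32 (M a60 (F (T t64 (L l11 (L l306 (L l309 (T t68 (L l11 (T t194 N))))))))) (K a21 (M a192 (L l11 (F (T t28 (L l47 (L l347 (L l351 (T t20 (L l47 (L l347 (L l351 (T t29 (K a20 (M a22 (F (T t27 (L l47 (L l347 (L l351 (T t20 (L l14 (L l18 (L l76 (L l142 (T t46 N)))))))))))) (K a22 (M a20 (F (T t27 (L l347 (L l351 (T t195 N)))))) N)))))))))))))) (K a37 (M a192 (F (T t19 (L l47 (L l351 (T t20 (L l351 (T t21 N)))))))) (K a53 (M a192 (F (T t19 (L l351 (L l491 (T t21 (L l142 (T t31 N)))))))) (K a26 (M a192 (F (T t28 (L l351 (T t20 (L l351 (T t21 N))))))) (K a42 (M a192 (F (T t19 (L l351 (T t20 (L l28 (L l351 (T t29 N)))))))) (K a58 (M a192 (F (T t19 (L l351 (T t21 (L l54 (L l142 (L l498 (T t31 N)))))))))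 (K a15 (M a192 (F (T t36 (L l325 (L l351 (T t20 (L l351 (L l469 (T t21 N))))))))) N))))))))))))))))))⟩
def e0_63__66_18 : Ent 4 := ⟨[a0, a63], [a66, a24], (M a149 (F (T t25 (L l309 (T t175 (T t176 (L l76 (L l142 (T t177 (K a192 (M a3 (F (T t630 (L l292 (T t615 (L l292 (L l296 (T t616 (L l296 (L l306 (T t617 N))))))))))) (K a21 (M a48 (F (T t184 (L l14 (L l18 (T t14 (L l142 (T t13 N)))))))) (K a85 (M a16 (F (T t97 (L l142 (L l144 (T t190 (L l12 (L l94 (T t278 N))))))))) (K a213 (Fr a106 a192 l519 (Fr a42 a21 l68 (Fr a170 a234 l390 (Fr a255 a85 l476 (V t582))))) (K a42 (M a48 (F (L l54 (T t184 (L l142 (L l390 (T t13 (L l14 (L l54 (T t14 N)))))))))) (K a106 (M a86 (F (L l390 (T t619 (L l393 (T t618 (L l390 (T t620 (L l306 (L l390 (L l393 (T t621 (L l306 (L l393 (T t622 N))))))))))))))) (K a170 (M a48 (F (T t184 (L l462 (T t1 (L l142 (L l390 (T t13 N)))))))) (K a191 (M a16 (F (T t97 (L l142 (T t190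 (L l213 (T t191 N))))))) (K a255 (M a16 (F (T t112 (L l142 (L l266 (T t190 (L l289 (L l296 (T t191 N))))))))) N))))))))))))))))))⟩
def e0_63__66_19 : Ent 4 := ⟨[a0, a63], [a66, a25], (M a149 (F (L l56 (T t25 (L l15 (L l309 (T t175 (L l56 (T t176 (L l76 (L l142 (T t177 (K a192 (M a3 (F (L l15 (T t632 (L l292 (T t615 (L l56 (L l292 (L l296 (T t616 (L l56 (L l296 (L l306 (T t617 N)))))))))))))) (K a21 (M a48 (L l15 (F (T t16 (L l142 (T t13 (L l18 (T t14 (K a17 (M a29 (F (T t184 (L l50 (L l341 (T t641 N)))))) (K a29 (M a17 (F (T t184 (L l19 (L l65 (T t642 N)))))) N)))))))))) (K a85 (M a16 (F (L l56 (T t97 (L l142 (L l144 (T t190 (L l12 (L l56 (L l94 (T t278 N))))))))))) (K a213 (Fr a106 a192 l519 (Fr a42 a21 l68 (Fr a170 a234 l390 (Fr a255 a85 l476 (V t582))))) (K a42 (M a8 (F (L l26 (T t643 (L l142 (L l390 (T t644 (L l26 (T t645 (L l15 (L l76 (L l142 (L l390 (T t646 N)))))))))))))) (K a106 (M a86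 (F (L l393 (T t618 (L l56 (L l390 (T t619 (L l56 (L l390 (T t620 (L l56 (L l306 (L l390 (L l393 (T t621 (L l306 (L l393 (T t622 N)))))))))))))))))) (K a170 (M a48 (F (T t184 (L l15 (L l462 (T t1 (L l142 (L l390 (T t13 N))))))))) (K a191 (M a16 (F (L l56 (T t97 (L l142 (T t190 (L l56 (L l213 (T t191 N))))))))) (K a255 (M a16 (F (T t192 (L l12 (L l56 (T t193 (L l142 (L l266 (T t190 N))))))))) N)))))))))))))))))))))⟩
def e0_63__66_20 : Ent 4 := ⟨[a0, a63], [a66, a26], (M a149 (F (L l54 (T t25 (L l18 (L l309 (T t175 (L l54 (T t176 (L l76 (L l142 (T t177 (K a192 (M a3 (F (L l18 (T t632 (L l292 (T t615 (L l54 (L l292 (L l296 (T t616 (L l54 (L l296 (L l306 (T t617 N)))))))))))))) (K a21 (M a12 (L l18 (F (T t647 (L l142 (T t648 (L l50 (T t649 (K a16 (M a31 (F (T t650 (L l47 (L l340 (T t651 N)))))) (K a31 (M a16 (F (T t647 (L l50 (L l57 (T t652 N)))))) N)))))))))) (K a85 (M a4 (F (L l54 (T t519 (L l142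 (L l144 (T t653 (L l54 (L l72 (L l126 (T t654 N))))))))))) (K a213 (Fr a106 a192 l519 (Fr a42 a21 l68 (Fr a170 a234 l390 (Fr a255 a85 l476 (V t582))))) (K a42 (M a10 (F (L l28 (T t655 (L l142 (L l390 (T t656 (L l28 (T t657 (L l18 (L l76 (L l142 (L l390 (T t658 N)))))))))))))) (K a106 (M a86 (F (L l393 (T t618 (L l54 (L l390 (T t619 (L l54 (L l390 (T t620 (L l54 (L l306 (L l390 (L l393 (T t621 (L l306 (L l393 (T t622 N)))))))))))))))))) (K a170 (M a12 (F (T t650 (L l18 (L l402 (T t122 (L l142 (L l390 (T t648 N))))))))) (K a191 (M a48 (F (L l309 (T t11 (L l142 (T t13 (L l18 (L l54 (T t659 N))))))))) (K a255 (M a4 (F (T t660 (L l54 (L l72 (T t661 (L l142 (L l290 (T t653 N))))))))) N)))))))))))))))))))))⟩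
def e0_63__66_21 : Ent 4 := ⟨[a0, a63], [a66, a27], (M a149 (F (T t25 (L l309 (T t175 (T t176 (L l76 (L l142 (T t177 (K a192 (M a3 (F (L l514 (T t358 (L l55 (L l292 (T t615 (L l55 (L l292 (L l296 (T t616 (L l296 (L l306 (T t617 N)))))))))))))) (K a21 (M a48 (F (T t16 (L l142 (T t13 (L l18 (T t14 N))))))) (K a85 (M a16 (F (L l455 (T t112 (L l142 (L l144 (T t190 (L l12 (L l94 (L l357 (T t278 N))))))))))) (K a213 (Fr a106 a192 l519 (Fr a42 a21 l68 (Fr a170 a234 l390 (Fr a255 a85 l476 (V t582))))) (K a42 (M a48 (F (L l54 (T t16 (L l142 (L l390 (T t13 (L l54 (T t14 N))))))))) (K a106 (M a86 (F (L l390 (T t619 (L l55 (L l393 (T t618 (L l390 (T t620 (L l55 (L l306 (L l390 (L l393 (T t621 (L l55 (L l306 (L l393 (T t622 N)))))))))))))))))) (K a170 (M a48 (F (T t184 (L l73 (L l462 (T t1 (L l142 (L l390 (T t13 N))))))))) (K a191 (M a16 (F (T t112 (L l142 (T t190 (L l213 (T t191 N))))))) (K a255 (M a16 (F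 (T t112 (L l142 (L l266 (T t190 (L l289 (L l296 (T t191 N))))))))) N))))))))))))))))))⟩
def e0_63__66_22 : Ent 4 := ⟨[a0, a63], [a66, a28], (M a149 (F (T t25 (L l309 (T t175 (T t176 (L l76 (L l142 (T t177 (K a192 (M a3 (F (T t632 (L l292 (T t615 (L l292 (L l296 (T t616 (L l296 (L l306 (T t617 N))))))))))) (K a21 (M a48 (F (T t16 (L l142 (T t13 (L l14 (L l18 (T t14 N)))))))) (K a85 (M a16 (F (L l13 (T t97 (L l142 (L l144 (L l370 (T t190 (L l94 (T t278 N)))))))))) (K a213 (Fr a106 a192 l519 (Fr a42 a21 l68 (Fr a170 a234 l390 (Fr a255 a85 l476 (V t582))))) (K a42 (M a48 (F (L l54 (T t16 (L l142 (L l390 (T t13 (L l14 (L l54 (T t14 N)))))))))) (K a106 (M a86 (F (L l390 (T t619 (L l393 (T t618 (L l390 (T t620 (L l306 (L l390 (L l393 (T t621 (L l306 (L l393 (T t622 N))))))))))))))) (K a170 (M a48 (F (T t184 (L l462 (T t1 (L l142 (L l390 (T t13 N)))))))) (K a191 (M a16 (F (T t112 (L l142 (L l370 (T t190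 (L l213 (L l362 (T t191 N))))))))) (K a255 (M a16 (F (T t112 (L l142 (L l266 (L l370 (T t190 (L l289 (L l296 (L l362 (T t191 N))))))))))) N))))))))))))))))))⟩
def e0_63__66_23 : Ent 4 := ⟨[a0, a63], [a66, a29], (M a48 (F (T t2 (L l15 (T t1 (L l15 (T t3 (L l13 (T t0 (K a16 (M a60 (F (T t42 (L l14 (L l15 (L l18 (L l309 (T t67 (T t65 N))))))))) (K a32 (M a60 (F (T t42 (L l15 (L l309 (T t67 (L l24 (L l28 (T t65 N))))))))) (K a21 (M a192 (L l15 (F (T t28 (L l47 (L l347 (L l371 (T t20 (L l47 (L l347 (L l371 (T t29 (K a17 (M a25 (F (T t27 (L l47 (L l347 (L l371 (T t20 (L l10 (L l18 (L l76 (L l142 (T t46 N)))))))))))) (K a25 (M a17 (F (T t27 (L l347 (L l371 (T t242 N)))))) N)))))))))))))) (K a37 (M a192 (F (T t19 (L l47 (L l371 (T t20 (L l371 (T t21 N)))))))) (K a53 (M a192 (F (T t19 (L l371 (L l491 (T t21 (L l142 (T t31 N)))))))) (K a26 (M a192 (F (T t28 (L l371 (T t20 (L l371 (T t21 N))))))) (K a42 (M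 a192 (F (T t19 (L l371 (T t20 (L l28 (L l371 (T t29 N)))))))) (K a58 (M a192 (F (T t19 (L l371 (T t21 (L l54 (L l142 (L l498 (T t31 N))))))))) (K a15 (M a192 (F (T t36 (L l325 (L l371 (T t20 (L l371 (L l469 (T t21 N))))))))) N))))))))))))))))))⟩
def e0_63__66_24 : Ent 4 := ⟨[a0, a63], [a66, a30], (M a149 (F (T t25 (L l309 (T t175 (T t176 (L l76 (L l142 (T t177 (K a192 (M a3 (F (T t632 (L l292 (T t615 (L l292 (L l296 (T t616 (L l296 (L l306 (T t617 N))))))))))) (K a21 (M a48 (F (T t16 (L l142 (T t13 (L l18 (T t14 N))))))) (K a85 (M a16 (F (L l455 (T t112 (L l142 (L l144 (T t190 (L l16 (L l94 (L l372 (T t278 N))))))))))) (K a213 (Fr a106 a192 l519 (Fr a42 a21 l68 (Fr a170 a234 l390 (Fr a255 a85 l476 (V t582))))) (K a42 (M a48 (F (L l54 (T t16 (L l142 (L l390 (T t13 (L l54 (T t14 N))))))))) (K a106 (M a86 (F (L l390 (T t619 (L l393 (T t618 (L l390 (T t620 (L l306 (L l390 (L l393 (T t621 (L l306 (L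 l393 (T t622 N))))))))))))))) (K a170 (M a48 (F (T t184 (L l63 (L l462 (T t1 (L l142 (L l390 (T t13 N))))))))) (K a191 (M a16 (F (T t112 (L l142 (T t190 (L l213 (T t191 N))))))) (K a255 (M a16 (F (T t112 (L l142 (L l266 (T t190 (L l289 (L l296 (T t191 N))))))))) N))))))))))))))))))⟩
def e0_63__66_25 : Ent 4 := ⟨[a0, a63], [a66, a31], (M a60 (F (T t662 (L l18 (L l309 (T t67 (L l17 (L l309 (T t43 (L l18 (L l306 (L l309 (T t68 (L l309 (T t69 (K a20 (M a48 (F (T t64 (L l11 (L l18 (T t1 (L l11 (L l18 (L l306 (T t235 N)))))))))) (K a40 (M a48 (F (L l18 (T t1 (T t64 (L l18 (L l52 (L l306 (T t235 N))))))))) (K a21 (M a48 (L l18 (F (T t70 (L l13 (T t248 (L l11 (L l47 (L l65 (T t249 (L l13 (L l50 (T t250 (K a16 (M a26 (F (L l47 (T t251 (L l11 (T t252 (T t70 N))))))) (K a26 (Fr a16 a32 l40 (V t253)) N))))))))))))))) (K a41 (M a192 (F (T t77 (L l18 (L l65 (L l375 (T t35 (L l375 (T t73 N))))))))) (K a61 (M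 a192 (F (T t72 (L l18 (L l65 (L l375 (L l515 (T t35 (L l142 (L l373 (T t80 N))))))))))) (K a22 (M a192 (F (T t72 (L l375 (T t21 (L l375 (T t73 N))))))) (K a42 (M a192 (F (T t77 (L l375 (T t73 (L l22 (L l375 (T t74 N)))))))) (K a62 (M a192 (F (T t72 (L l18 (L l375 (T t35 (L l66 (L l142 (L l373 (L l516 (T t80 N))))))))))) (K a3 (M a192 (F (T t254 (L l18 (L l375 (L l475 (T t35 (L l307 (L l375 (T t73 N)))))))))) N))))))))))))))))))))))))⟩
def e0_63__66_26 : Ent 4 := ⟨[a0, a63], [a66, a40], (M a85 (F (T t52 (L l22 (L l76 (L l309 (T t88 (L l22 (L l76 (L l142 (T t89 (L l76 (L l309 (L l392 (T t90 (K a64 (M a252 (L l76 (F (L l392 (T t93 (L l22 (L l388 (T t92 (K a65 (M a67 (F (L l392 (T t93 (L l22 (L l388 (T t92 N))))))) (K a67 (M a65 (F (L l306 (T t663 (L l22 (L l142 (L l143 (L l388 (T t95 N))))))))) N)))))))))) (K a192 (M a3 (F (L l296 (T t664 (L l22 (L l306 (L l514 (T t665 (L l228 (L l392 (T t355 N)))))))))))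 (K a21 (M a48 (F (L l24 (T t99 (L l392 (T t50 (L l24 (L l47 (T t100 N))))))))) (K a149 (M a16 (F (T t666 (L l22 (L l24 (L l375 (T t97 (L l22 (L l170 (T t102 N)))))))))) (K a213 (Fr a170 a255 l476 (Fr a42 a21 l68 (Fr a106 a234 l390 (Fr a192 a149 l519 (V t581))))) (K a42 (M a43 (F (T t667 (L l390 (L l392 (T t265 (L l66 (L l306 (L l388 (T t264 (L l76 (L l142 (L l388 (L l390 (L l392 (T t668 N)))))))))))))))) (K a106 (M a86 (F (T t631 (L l22 (L l390 (T t369 (L l22 (L l393 (T t370 (L l309 (L l388 (T t371 N)))))))))))) (K a170 (M a105 (F (L l218 (L l306 (T t669 (L l22 (L l76 (L l390 (T t670 (L l76 (L l218 (L l306 (L l388 (T t671 (L l22 (L l218 (L l309 (L l390 (T t672 N))))))))))))))))))) (K a255 (M a16 (F (L l22 (L l24 (T t112 (L l24 (L l289 (T t113 (L l22 (L l289 (L l296 (T t98 N)))))))))))) N))))))))))))))))))))))))⟩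
def e0_63__66_27 : Ent 4 := ⟨[a0, a63], [a66, a41], (M a85 (F (L l65 (T t52 (L l22 (L l76 (L l309 (T t88 (L l22 (L l76 (L l142 (T t89 (L l76 (L l309 (T t90 (K a64 (M a105 (L l76 (F (T t673 (L l22 (L l306 (T t674 (L l22 (T t675 (L l69 (L l306 (T t623 (K a65 (M a67 (F (L l140 (T t626 (L l22 (T t627 (L l22 (L l305 (T t628 N))))))))) (K a67 (Fr a65 a125 l141 (V t629)) N)))))))))))))) (K a192 (M a3 (F (L l292 (T t676 (L l228 (T t355 (L l22 (L l296 (L l306 (T t357 (L l65 (L l142 (L l306 (T t677 N)))))))))))))) (K a21 (M a48 (L l65 (F (T t99 (T t50 (L l47 (T t100 (K a1 (M a61 (F (T t261 (L l41 (T t262 N))))) (K a61 (M a1 (F (T t99 (L l11 (L l306 (L l431 (T t263 N))))))) N))))))))) (K a149 (M a16 (F (T t173 (L l22 (L l375 (T t97 (L l22 (L l57 (L l170 (T t102 N)))))))))) (K a213 (Fr a170 a255 l476 (Fr a42 a21 l68 (Fr a106 a234 l390 (Fr a192 a149 l519 (V t581))))) (K a42 (M a43 (F (L l66 (L l306 (T t264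 (L l390 (T t265 (L l66 (L l306 (T t266 (L l65 (L l76 (L l142 (L l390 (T t668 N))))))))))))))) (K a106 (M a86 (F (T t368 (L l22 (L l390 (T t369 (L l22 (L l65 (L l393 (T t370 (L l65 (L l69 (L l309 (T t678 N)))))))))))))) (K a170 (M a16 (F (L l404 (T t113 (L l22 (L l390 (T t98 (L l22 (L l390 (L l404 (T t97 (L l404 (T t174 N))))))))))))) (K a255 (M a16 (F (L l22 (T t112 (L l289 (T t113 (L l22 (L l289 (L l296 (T t98 N)))))))))) N))))))))))))))))))))))))⟩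
def e0_63__66_28 : Ent 4 := ⟨[a0, a63], [a66, a43], (M a48 (F (T t1 (L l22 (T t2 (L l27 (T t3 (L l22 (T t0 (K a16 (M a60 (F (T t64 (L l22 (L l309 (T t69 (L l22 (T t268 N)))))))) (K a32 (M a60 (F (T t64 (L l22 (L l28 (L l309 (T t69 (L l22 (L l28 (T t268 N)))))))))) (K a21 (M a192 (F (T t28 (L l47 (L l347 (T t20 (L l47 (L l347 (T t29 N))))))))) (K a37 (M a192 (F (T t19 (L l47 (T t20 (T t21 N)))))) (K a53 (M a192 (F (T t19 (L l491 (T t21 (L l22 (L l142 (L l393 (T t31 N))))))))) (K a26 (M a192 (F (T t28 (T t20 (T t21 N))))) (K a42 (M a192 (L l22 (F (T t19 (T t20 (L l28 (T t29 (K a40 (M a41 (F (T t27 (T t20 (L l76 (L l142 (L l390 (L l393 (T t46 N))))))))) (K a41 (M a40 (F (T t27 (L l66 (L l142 (L l390 (L l393 (T t269 N)))))))) N))))))))) (K a58 (M a192 (F (T t19 (T t21 (L l22 (L l54 (L l142 (L l393 (L l498 (T t31 N)))))))))) (K a15 (M a192 (F (T t57 (L l483 (T t27 (L l325 (T t20 N))))))) N))))))))))))))))))⟩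
def e0_63__66_29 : Ent 4 := ⟨[a0, a63], [a66, a44], (M a149 (F (T t25 (L l309 (T t175 (T t176 (L l76 (L l142 (T t177 (K a192 (M a3 (F (T t630 (L l292 (T t615 (L l292 (L l296 (T t616 (L l296 (L l306 (T t617 N))))))))))) (K a21 (M a48 (F (T t16 (L l142 (T t13 (L l18 (L l398 (T t14 N)))))))) (K a85 (M a16 (F (L l24 (T t97 (L l24 (L l142 (L l144 (T t190 (L l94 (T t278 N)))))))))) (K a213 (Fr a106 a192 l519 (Fr a42 a21 l68 (Fr a170 a234 l390 (Fr a255 a85 l476 (V t582))))) (K a42 (M a48 (F (L l54 (T t16 (L l142 (L l390 (T t13 (L l54 (L l398 (T t14 N)))))))))) (K a106 (M a86 (F (L l390 (T t619 (L l393 (T t618 (L l390 (T t620 (L l306 (L l390 (L l393 (T t621 (L l306 (L l393 (T t622 N))))))))))))))) (K a170 (M a48 (F (T t184 (L l462 (T t1 (L l142 (L l390 (T t13 N)))))))) (K a191 (M a16 (F (L l24 (T t97 (L l213 (T t191 (L l24 (L l213 (T t192 N))))))))) (K a255 (M a16 (F (L l24 (T t112 (L l289 (L l296 (T t191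 (L l24 (T t192 N))))))))) N))))))))))))))))))⟩
def e0_63__66_30 : Ent 4 := ⟨[a0, a63], [a66, a45], (M a149 (F (T t25 (L l309 (T t175 (T t176 (L l76 (L l142 (T t177 (K a192 (M a3 (F (T t632 (L l292 (T t615 (L l292 (L l296 (T t616 (L l296 (L l306 (T t617 N))))))))))) (K a21 (M a48 (F (T t16 (L l142 (T t13 (L l18 (T t14 N))))))) (K a85 (M a16 (F (T t504 (L l142 (L l144 (T t190 (L l94 (T t278 N)))))))) (K a213 (Fr a106 a192 l519 (Fr a42 a21 l68 (Fr a170 a234 l390 (Fr a255 a85 l476 (V t582))))) (K a42 (M a48 (F (L l54 (T t16 (L l142 (L l390 (T t13 (L l54 (T t14 N))))))))) (K a106 (M a86 (F (L l390 (T t619 (L l393 (T t618 (L l390 (T t620 (L l59 (L l306 (L l390 (L l393 (T t621 (L l306 (L l393 (T t622 N)))))))))))))))) (K a170 (M a48 (F (T t184 (L l63 (L l462 (T t1 (L l142 (L l390 (T t13 N))))))))) (K a191 (M a16 (F (T t112 (L l142 (T t190 (L l213 (T t191 N))))))) (K a255 (M a16 (F (T t112 (L l142 (L l266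 (T t190 (L l289 (L l296 (T t191 N))))))))) N))))))))))))))))))⟩
def e0_63__66_31 : Ent 4 := ⟨[a0, a63], [a66, a46], (M a48 (F (T t1 (L l26 (T t2 (L l23 (T t3 (L l26 (T t0 (K a16 (M a60 (F (T t64 (L l14 (L l18 (L l309 (T t67 (L l26 (T t65 N))))))))) (K a32 (M a60 (F (T t64 (L l309 (T t67 (L l24 (L l26 (L l28 (T t65 N))))))))) (K a21 (M a192 (F (T t28 (L l47 (L l347 (T t20 (L l47 (L l347 (T t29 N))))))))) (K a37 (M a192 (F (T t19 (L l47 (T t20 (T t21 N)))))) (K a53 (M a192 (F (T t19 (L l491 (T t21 (L l26 (L l142 (L l408 (T t31 N))))))))) (K a26 (M a192 (F (T t28 (T t20 (T t21 N))))) (K a42 (M a192 (L l26 (F (T t19 (T t20 (L l28 (T t29 (K a34 (M a38 (F (T t27 (T t20 (L l76 (L l142 (L l390 (L l408 (T t46 N))))))))) (K a38 (M a34 (F (T t27 (L l56 (L l142 (L l390 (L l408 (T t679 N)))))))) N))))))))) (K a58 (M a192 (F (T t19 (T t21 (L l26 (L l54 (L l142 (L l408 (L l498 (T t31 N)))))))))) (K a15 (M a192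 (F (T t57 (L l483 (T t27 (L l325 (T t20 N))))))) N))))))))))))))))))⟩
def e0_63__66_32 : Ent 4 := ⟨[a0, a63], [a66, a47], (M a12 (F (T t122 (L l23 (L l28 (T t151 (T t152 (L l28 (T t153 (K a4 (M a60 (F (L l23 (T t680 (L l27 (L l46 (L l50 (L l309 (T t67 (L l23 (L l28 (T t448 N)))))))))))) (K a8 (M a60 (F (L l23 (T t680 (L l27 (L l309 (T t67 (L l23 (L l28 (L l52 (L l56 (T t448 N)))))))))))) (K a21 (M a192 (F (T t468 (L l15 (L l347 (T t450 (L l15 (L l347 (T t157 N))))))))) (K a25 (M a192 (F (T t449 (L l15 (T t450 (T t21 N)))))) (K a29 (M a192 (F (T t449 (L l371 (T t21 (L l28 (L l142 (L l411 (T t160 N))))))))) (K a38 (M a192 (F (T t468 (T t450 (T t21 N))))) (K a42 (M a192 (L l28 (F (T t449 (T t450 (L l56 (T t157 (K a32 (M a37 (F (T t156 (T t450 (L l76 (L l142 (L l390 (L l411 (T t681 N))))))))) (K a37 (M a32 (F (T t467 (L l51 (L l56 (T t682 N)))))) N))))))))) (K a46 (M a44 (F (T t683 (L l26 (L l27 (L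 l28 (L l306 (T t684 (L l306 (L l309 (T t685 N))))))))))) (K a51 (M a192 (F (T t57 (L l513 (T t156 (L l415 (T t450 N))))))) N))))))))))))))))))⟩
def e0_63__66_33 : Ent 4 := ⟨[a0, a63], [a66, a60], (M a48 (F (T t48 (L l63 (T t1 (L l63 (T t2 (L l63 (T t3 (L l63 (T t0 (K a16 (M a85 (F (T t49 (L l442 (T t50 (T t51 N)))))) (K a32 (M a85 (F (L l434 (T t52 (L l404 (L l442 (T t50 (L l28 (T t51 N))))))))) (K a21 (M a192 (F (L l442 (T t28 (L l47 (L l347 (L l506 (T t20 (L l47 (L l347 (T t29 N))))))))))) (K a37 (M a192 (F (T t36 (L l47 (L l506 (T t20 (L l434 (T t21 N)))))))) (K a53 (M a192 (F (T t36 (L l434 (L l491 (T t21 (L l142 (T t31 N)))))))) (K a26 (M a192 (F (T t56 (L l442 (T t27 (L l434 (T t21 N))))))) (K a42 (M a192 (F (T t56 (L l442 (T t27 (L l28 (T t29 N))))))) (K a58 (M a192 (F (T t57 (L l442 (T t27 (L l54 (L l142 (L l498 (T t31 N))))))))) (K a15 (M a80 (L l63 (F (T t139 (L l142 (T t59 (L l309 (L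 l339 (L l483 (L l514 (T t633 (K a45 (M a30 (F (T t61 (L l39 (L l306 (T t293 N)))))) (K a30 (M a45 (F (T t61 (L l39 (T t294 N))))) N))))))))))))) N))))))))))))))))))))⟩
def e0_63__66_34 : Ent 4 := ⟨[a0, a63], [a66, a61], (M a48 (F (T t2 (L l35 (L l65 (T t1 (L l65 (T t3 (T t0 (K a16 (M a85 (F (T t168 (T t50 (T t51 N))))) (K a32 (M a85 (F (L l65 (T t52 (L l404 (T t50 (L l28 (T t51 N)))))))) (K a21 (M a192 (L l65 (F (T t28 (L l35 (L l47 (L l347 (L l515 (T t20 (L l35 (L l47 (L l347 (L l515 (T t29 (K a1 (M a41 (F (T t27 (L l35 (L l47 (L l347 (L l515 (T t20 (L l18 (L l76 (L l142 (T t46 N)))))))))))) (K a41 (M a1 (F (L l142 (T t206 (L l18 (L l29 (L l306 (T t295 N)))))))) N)))))))))))))))) (K a37 (M a192 (F (T t19 (L l35 (L l47 (L l515 (T t20 (L l515 (T t21 N))))))))) (K a53 (M a49 (F (T t296 (T t297 (L l31 (L l47 (L l59 (L l65 (T t298 (L l59 (T t299 N))))))))))) (K a26 (M a192 (F (T t28 (L l35 (L l515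 (T t20 (L l515 (T t21 N)))))))) (K a42 (M a192 (F (T t19 (L l35 (L l515 (T t20 (L l28 (L l35 (L l515 (T t29 N)))))))))) (K a58 (M a192 (F (T t19 (L l515 (T t21 (L l54 (L l142 (L l498 (T t31 N))))))))) (K a15 (M a192 (F (T t36 (L l35 (L l325 (L l515 (T t20 (L l469 (L l515 (T t21 N)))))))))) N))))))))))))))))))⟩
def e0_63__66_35 : Ent 4 := ⟨[a0, a63], [a66, a62], (M a48 (F (T t1 (L l36 (L l66 (T t2 (T t3 (L l66 (T t0 (K a16 (M a85 (F (L l18 (T t52 (T t50 (L l36 (L l66 (T t51 N)))))))) (K a32 (M a85 (F (T t52 (L l404 (T t50 (L l28 (L l36 (L l66 (T t51 N))))))))) (K a21 (M a192 (F (T t28 (L l47 (L l347 (T t20 (L l47 (L l347 (T t29 N))))))))) (K a37 (M a192 (F (T t19 (L l47 (T t20 (T t21 N)))))) (K a53 (M a192 (F (T t19 (L l491 (T t21 (L l66 (L l142 (L l516 (T t31 N))))))))) (K a26 (M a192 (F (T t28 (T t20 (T t21 N))))) (K a42 (M a106 (L l66 (F (T t304 (L l28 (L l76 (T t579 (L l76 (T t551 (K a2 (M a22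 (L l306 (F (T t585 (L l76 (T t551 (L l28 (L l76 (T t579 (K a130 (M a194 (F (T t307 (L l28 (L l76 (T t579 (L l76 (T t551 N)))))))) (K a194 (M a130 (F (T t578 (L l76 (T t596 N))))) N))))))))))) (K a22 (M a2 (F (T t578 (L l19 (L l28 (T t342 N)))))) N))))))))))) (K a58 (M a50 (F (T t301 (L l54 (L l60 (L l66 (T t302 (T t303 N)))))))) (K a15 (M a192 (F (T t57 (L l483 (T t27 (L l325 (T t20 N))))))) N))))))))))))))))))⟩
def e0_63__66_36 : Ent 4 := ⟨[a0, a63], [a66, a64], (M a48 (L l76 (F (T t1 (T t2 (T t3 (T t0 (K a16 (M a60 (L l76 (F (T t64 (L l14 (L l18 (L l309 (T t67 (T t65 (K a65 (M a67 (F (T t70 (L l305 (L l309 (T t69 (L l14 (L l18 (T t44 N))))))))) (K a67 (M a65 (F (T t42 (L l306 (T t686 N))))) N))))))))))) (K a32 (M a60 (L l76 (F (T t64 (L l309 (T t67 (L l24 (L l28 (T t65 (K a65 (M a67 (F (T t70 (L l28 (L l305 (L l309 (T t69 (T t44 N)))))))) (K a67 (M a65 (F (T t42 (L l306 (T t686 N))))) N)))))))))))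 (K a21 (M a101 (L l76 (F (T t687 (L l18 (T t334 (L l18 (T t314 (K a65 (M a67 (F (T t312 (L l309 (T t315 (L l18 (T t314 N))))))) (K a67 (M a65 (F (T t687 (L l306 (T t688 N))))) N)))))))))) (K a37 (M a52 (L l76 (F (T t82 (T t83 (L l21 (L l28 (T t84 (K a65 (M a67 (F (T t83 (T t82 (L l21 (L l28 (T t84 N))))))) (K a67 (M a65 (F (T t83 (L l306 (T t688 N))))) N)))))))))) (K a53 (M a12 (L l76 (F (T t151 (T t443 (L l47 (T t146 (K a65 (M a67 (F (T t151 (T t445 (L l47 (T t146 N)))))) (K a67 (M a65 (F (T t151 (L l306 (T t688 N))))) N))))))))) (K a26 (M a56 (L l76 (F (T t133 (T t134 (L l12 (L l18 (T t135 (K a65 (M a67 (F (T t134 (T t133 (L l12 (L l18 (T t135 N))))))) (K a67 (M a65 (F (T t134 (L l306 (T t688 N))))) N)))))))))) (K a42 (M a101 (L l76 (F (T t333 (T t334 (L l54 (T t314 (K a65 (M a67 (F (T t335 (T t336 (L l54 (T t314 N)))))) (K a67 (M a65 (F (T t336 (L l306 (T t688 N))))) N))))))))) (K a58 (M a12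 (L l76 (F (T t443 (T t122 (T t146 (K a65 (M a67 (F (T t445 (T t122 (T t146 N))))) (K a67 (M a65 (F (T t122 (L l306 (T t688 N))))) N)))))))) (K a15 (M a4 (L l76 (F (T t129 (L l63 (T t528 (T t520 (K a65 (M a67 (F (T t558 (L l73 (T t519 (T t520 N)))))) (K a67 (M a65 (F (T t129 (L l306 (L l481 (T t688 N)))))) N))))))))) (K a65 (M a67 (F (T t1 (T t2 (T t3 (T t0 (K a16 (M a3 (F (T t344 (L l10 (T t345 N))))) (K a32 (M a3 (F (T t344 (L l28 (T t345 N))))) (K a21 (M a112 (F (L l144 (T t346 (L l18 (L l118 (L l306 (T t347 N)))))))) (K a37 (M a112 (F (L l144 (T t346 (L l118 (L l306 (T t347 N))))))) (K a53 (M a3 (F (T t348 (L l144 (T t349 N))))) (K a26 (M a112 (F (T t350 (L l18 (L l118 (L l306 (T t347 N))))))) (K a42 (M a112 (F (T t350 (L l118 (L l306 (T t347 N)))))) (K a58 (M a3 (F (T t348 (L l144 (T t349 N))))) (K a15 (M a112 (F (T t350 (L l118 (L l306 (L l337 (T t347 N))))))) N))))))))))))))) (K a67 (M a65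 (F (T t1 (L l306 (T t688 (L l306 (T t689 (K a32 (M a8 (F (L l306 (T t690 (T t691 N))))) N)))))))) N))))))))))))))))))⟩
def e0_63__66_37 : Ent 4 := ⟨[a0, a63], [a66, a65], (M a85 (L l76 (F (T t52 (T t168 (L l309 (T t352 (K a192 (M a3 (L l76 (F (L l514 (T t353 (L l292 (L l306 (T t354 (L l228 (T t355 (K a64 (M a67 (F (T t356 (L l296 (L l305 (L l306 (T t357 (L l305 (L l514 (T t358 N)))))))))) (K a67 (M a64 (F (T t359 (L l514 (T t137 N))))) N)))))))))))) (K a21 (M a48 (L l76 (F (T t99 (T t50 (L l47 (T t100 (K a64 (M a67 (F (T t360 (T t50 (L l47 (T t361 (L l47 (L l309 (T t362 N))))))))) (K a67 (M a64 (F (T t359 (L l121 (T t363 N))))) N))))))))) (K a149 (M a16 (L l76 (F (T t112 (L l81 (T t173 (L l170 (T t102 (K a64 (M a67 (F (T t101 (L l375 (T t97 (L l170 (T t102 N))))))) (K a67 (M a64 (F (L l220 (T t359 (L l375 (T t97 N)))))) N)))))))))) (K a213 (Fr a170 a255 l476 (Fr a42 a21 l68 (Fr a106 a234 l390 (Fr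 a192 a149 l519 (V t581))))) (K a42 (M a48 (L l76 (F (T t364 (L l390 (T t50 (L l28 (T t100 (K a64 (M a67 (F (T t365 (L l390 (T t50 (L l28 (L l54 (T t366 (L l28 (L l309 (T t362 N))))))))))) (K a67 (M a64 (F (T t367 (L l28 (T t360 N))))) N)))))))))) (K a106 (M a86 (L l76 (F (T t368 (L l390 (T t369 (L l305 (L l393 (T t370 (L l305 (L l309 (T t371 (K a64 (M a67 (F (T t368 (L l140 (L l390 (T t369 (L l305 (L l393 (T t370 (L l140 (T t372 N))))))))))) (K a67 (M a64 (F (L l390 (T t373 (L l305 (L l393 (T t374 (L l143 (T t375 N))))))))) N)))))))))))))) (K a170 (M a3 (L l76 (F (L l392 (T t353 (L l306 (L l474 (T t376 (L l390 (T t377 (L l305 (L l306 (L l390 (L l474 (T t357 (K a64 (M a67 (F (T t349 (L l305 (L l306 (L l390 (L l474 (T t357 N)))))))) (K a67 (M a64 (F (L l220 (T t367 (L l392 (T t353 N)))))) N))))))))))))))))) (K a234 (Fr a170 a255 l476 (Fr a21 a42 l68 (Fr a149 a213 l347 (Fr a192 a106 l519 (V t583)))))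 (K a255 (M a16 (L l76 (F (T t112 (L l289 (T t113 (L l289 (L l296 (T t98 (K a64 (M a67 (F (T t112 (L l289 (L l296 (T t379 (L l116 (L l289 (L l296 (T t98 (L l289 (L l296 (L l309 (T t380 N)))))))))))))) (K a67 (M a64 (F (T t367 (L l469 (T t97 N))))) N))))))))))) (K a64 (M a67 (F (L l140 (T t381 (L l140 (T t382 (L l305 (T t383 (L l140 (T t384 (K a128 (Fr a255 a170 l476 (Fr a21 a42 l68 (Fr a149 a213 l347 (V t385)))) (K a149 (M a16 (F (T t101 (L l375 (T t97 (L l170 (T t102 N))))))) (K a170 (M a3 (F (T t349 (L l305 (L l306 (L l390 (L l474 (T t357 N)))))))) (K a87 (M a240 (F (T t386 (L l93 (T t387 N))))) (K a107 (M a60 (F (T t114 (T t388 N)))) (K a127 (M a16 (F (T t259 (T t97 (L l116 (T t98 N)))))) (K a191 (M a16 (F (T t258 (T t97 (L l116 (L l213 (T t98 N))))))) (K a255 (M a3 (F (L l434 (T t353 (L l261 (L l306 (T t389 (L l296 (T t377 N))))))))) N)))))))))))))))))) (K a67 (M a64 (F (T t367 (T t359 (L l309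 (T t390 N)))))) N))))))))))))))))))⟩
def e0_63__66_38 : Ent 4 := ⟨[a0, a63], [a66, a67], (M a85 (L l76 (F (T t168 (L l143 (T t52 (L l309 (T t352 (K a192 (M a3 (L l76 (F (T t630 (L l292 (L l306 (T t354 (L l143 (L l228 (T t692 (K a64 (M a65 (F (T t632 (L l142 (L l145 (L l296 (L l306 (T t693 (L l296 (T t694 N)))))))))) (K a65 (M a64 (F (T t359 (L l514 (T t137 N))))) N)))))))))))) (K a21 (M a48 (L l76 (F (T t99 (L l143 (T t50 (L l47 (L l143 (T t100 (K a64 (M a65 (F (T t695 (L l143 (T t50 N))))) (K a65 (M a64 (F (T t359 (L l121 (T t363 N))))) N))))))))))) (K a149 (M a16 (L l76 (F (T t173 (L l375 (T t97 (L l170 (T t102 (K a64 (M a65 (F (T t112 (L l163 (L l306 (T t696 N)))))) (K a65 (M a64 (F (L l220 (T t359 (L l375 (T t97 N)))))) N)))))))))) (K a213 (Fr a170 a255 l476 (Fr a42 a21 l68 (Fr a106 a234 l390 (Fr a192 a149 l519 (V t581))))) (K a42 (M a48 (L l76 (F (T t364 (L l143 (L l390 (T t50 (L l28 (L l143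 (T t100 (K a64 (M a65 (F (L l306 (T t688 (L l143 (L l390 (T t50 N))))))) (K a65 (M a64 (F (T t367 (L l28 (T t360 N))))) N)))))))))))) (K a106 (M a86 (L l76 (F (L l390 (T t697 (L l390 (T t369 (L l393 (T t370 (L l143 (L l307 (L l309 (T t698 (K a64 (M a65 (F (T t694 (L l143 (L l390 (T t699 (L l143 (L l306 (T t700 N))))))))) (K a65 (M a64 (F (L l390 (T t373 (L l305 (L l393 (T t374 (L l143 (T t375 N))))))))) N))))))))))))))) (K a170 (M a48 (L l76 (F (T t3 (L l143 (L l404 (T t100 (L l390 (T t51 (L l390 (L l404 (T t568 (K a64 (M a65 (F (T t3 (L l218 (L l306 (T t701 N)))))) (K a65 (M a64 (F (L l220 (T t367 (L l462 (T t1 N)))))) N)))))))))))))) (K a234 (Fr a170 a255 l476 (Fr a21 a42 l68 (Fr a149 a213 l347 (Fr a192 a106 l519 (V t583))))) (K a255 (M a16 (L l76 (F (T t112 (L l143 (L l289 (T t113 (L l289 (L l296 (T t98 (K a64 (M a65 (F (T t112 (L l289 (L l434 (T t702 (L l140 (L l306 (L l434 (T t703 N))))))))))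 (K a65 (M a64 (F (T t367 (L l469 (T t97 N))))) N)))))))))))) (K a64 (M a65 (F (T t694 (L l306 (T t704 (L l143 (L l306 (T t705 (L l142 (L l143 (L l145 (T t706 (L l145 (T t707 N)))))))))))))) (K a65 (M a64 (F (T t367 (T t359 (L l309 (T t390 N)))))) N)))))))))))))))))))⟩
def e0_63__66_39 : Ent 4 := ⟨[a0, a63], [a66, a68], (M a48 (F (T t1 (T t2 (T t3 (T t0 (K a16 (M a60 (F (T t64 (L l14 (L l18 (L l309 (T t67 (T t65 N)))))))) (K a32 (M a60 (F (T t64 (L l309 (T t67 (L l24 (L l28 (T t65 N)))))))) (K a21 (M a192 (F (T t28 (L l47 (L l347 (T t20 (L l47 (L l347 (T t29 N))))))))) (K a37 (M a192 (F (T t19 (L l47 (T t20 (T t21 N)))))) (K a53 (M a192 (F (T t19 (L l491 (T t21 (L l142 (T t31 N))))))) (K a26 (M a192 (F (T t28 (T t20 (T t21 N))))) (K a42 (M a192 (F (T t19 (T t20 (L l28 (T t29 N)))))) (K a58 (M a192 (F (T t19 (T t21 (L l54 (L l142 (L l498 (T t31 N)))))))) (K a15 (M a192 (F (T t33 (L l483 (T t27 (L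 l469 (T t21 N))))))) N)))))))))))))))⟩
def e0_63__66_40 : Ent 4 := ⟨[a0, a63], [a66, a69], (M a48 (F (T t1 (L l311 (T t2 (T t3 (T t0 (K a16 (M a60 (F (T t64 (L l14 (L l18 (L l309 (T t67 (L l311 (T t65 N))))))))) (K a32 (M a60 (F (T t64 (L l309 (T t67 (L l24 (L l28 (L l311 (T t65 N))))))))) (K a21 (M a192 (F (T t28 (L l47 (L l347 (T t20 (L l47 (L l347 (T t29 N))))))))) (K a37 (M a192 (F (T t19 (L l47 (T t20 (T t21 N)))))) (K a53 (M a192 (F (T t19 (L l491 (T t21 (L l142 (T t31 N))))))) (K a26 (M a192 (F (T t28 (T t20 (T t21 N))))) (K a42 (M a192 (F (T t19 (T t20 (L l28 (T t29 N)))))) (K a58 (M a192 (F (T t19 (T t21 (L l54 (L l142 (L l498 (T t31 N)))))))) (K a15 (M a192 (F (T t57 (L l483 (T t27 (L l325 (T t20 N))))))) N))))))))))))))))⟩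
def e0_63__66_41 : Ent 4 := ⟨[a0, a63], [a66, a70], (M a12 (L l82 (F (T t122 (T t151 (T t152 (T t153 (K a4 (M a62 (L l82 (F (T t708 (L l50 (L l306 (L l309 (L l330 (L l333 (T t709 (L l50 (T t710 (K a74 (M a78 (F (L l46 (L l50 (T t711 (L l142 (T t712 N))))))) (K a78 (M a74 (F (L l46 (L l50 (T t711 (L l312 (L l314 (T t713 N)))))))) N)))))))))))))) (K a8 (M a62 (L l82 (F (T t708 (L l306 (L l309 (L l330 (L l333 (T t709 (L l2 (T t710 (K a74 (M a78 (F (T t711 (L l142 (T t712 N))))) (K a78 (M a74 (F (T t711 (L l312 (T t713 N))))) N))))))))))))) (K a21 (M a192 (L l82 (F (L l347 (T t467 (L l85 (L l333 (T t156 (L l15 (L l347 (T t157 (K a74 (M a78 (F (L l347 (T t467 (L l78 (L l315 (L l333 (T t468 (L l15 (L l347 (T t157 N))))))))))) (K a78 (M a74 (F (L l142 (T t543 (L l79 (L l327 (L l330 (T t714 N)))))))) N))))))))))))) (K a25 (M a15 (L l82 (F (T t715 (L l56 (T t716 (L l71 (L l306 (L l309 (L l330 (L l333 (T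 t717 (K a74 (M a78 (F (T t718 (L l71 (L l321 (T t719 N)))))) (K a78 (M a74 (F (L l15 (T t720 (L l79 (L l315 (T t721 N))))))) N)))))))))))))) (K a29 (M a15 (L l82 (F (T t716 (L l59 (L l306 (L l309 (L l330 (L l333 (T t717 (L l59 (T t722 (K a74 (M a78 (F (T t723 (L l85 (L l333 (L l336 (T t724 N))))))) (K a78 (M a74 (F (T t723 (L l59 (L l306 (L l315 (T t725 N))))))) N)))))))))))))) (K a38 (M a14 (L l82 (F (T t726 (L l306 (L l309 (L l330 (L l333 (T t727 (L l48 (L l50 (T t728 (K a74 (M a78 (F (T t726 (L l77 (L l84 (L l306 (L l330 (T t729 N)))))))) (K a78 (M a74 (F (T t726 (L l85 (L l306 (T t730 N)))))) N)))))))))))))) (K a42 (M a192 (L l82 (F (T t450 (L l85 (L l333 (T t156 (L l56 (T t157 (K a74 (M a78 (F (T t467 (L l56 (L l78 (L l315 (L l333 (T t468 (L l56 (T t157 N)))))))))) (K a78 (M a74 (F (T t450 (L l79 (L l327 (L l330 (T t714 N))))))) N))))))))))) (K a46 (M a15 (L l82 (F (T t731 (L l306 (L l309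 (L l330 (L l333 (T t717 (L l23 (L l26 (T t722 (K a74 (M a78 (F (T t732 (L l60 (L l85 (L l333 (L l336 (T t724 N)))))))) (K a78 (M a74 (F (T t731 (L l306 (L l315 (T t725 N)))))) N)))))))))))))) (K a51 (M a14 (L l82 (F (T t733 (L l39 (T t726 (T t728 (K a74 (M a78 (F (T t734 (L l77 (L l84 (L l306 (L l330 (L l487 (T t729 N))))))))) (K a78 (M a74 (F (T t734 (L l85 (L l306 (L l511 (T t730 N))))))) N))))))))) (K a74 (M a78 (F (T t122 (T t151 (T t152 (T t153 (K a4 (M a204 (F (T t735 (L l50 (T t736 N))))) (K a8 (M a204 (F (T t737 (T t736 N)))) (K a21 (M a76 (F (T t738 (L l76 (L l84 (L l318 (L l330 (T t739 N)))))))) (K a25 (M a76 (F (T t738 (L l76 (L l84 (L l318 (L l330 (T t739 N)))))))) (K a29 (M a204 (F (T t740 (L l76 (L l84 (T t741 N)))))) (K a38 (M a76 (F (T t738 (L l76 (L l84 (L l318 (L l330 (T t739 N)))))))) (K a42 (M a76 (F (T t738 (L l76 (L l84 (L l318 (L l330 (T t739 N)))))))) (K a46 (M a204 (F (T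 t742 (L l76 (L l84 (T t741 N)))))) (K a51 (M a76 (F (T t743 (L l76 (L l84 (L l318 (L l330 (L l487 (T t739 N))))))))) N))))))))))))))) (K a78 (M a74 (F (T t122 (T t151 (T t152 (T t153 (K a4 (M a192 (F (T t21 (L l306 (L l315 (T t744 N)))))) (K a8 (M a192 (F (T t21 (L l306 (L l315 (T t744 N)))))) (K a21 (M a64 (F (L l79 (T t745 (L l142 (T t746 N)))))) (K a25 (M a64 (F (T t397 (L l79 (L l324 (L l330 (T t747 N))))))) (K a29 (M a64 (F (L l371 (T t397 (L l79 (T t745 N)))))) (K a38 (M a64 (F (T t397 (L l79 (T t745 N))))) (K a42 (M a64 (F (T t748 (L l56 (L l79 (T t745 N)))))) (K a46 (M a64 (F (T t397 (L l79 (T t745 N))))) (K a51 (M a64 (F (T t749 (L l79 (L l487 (T t745 N)))))) N))))))))))))))) N))))))))))))))))))⟩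
def e0_63__66_42 : Ent 4 := ⟨[a0, a63], [a66, a71], (M a48 (F (T t1 (T t2 (T t3 (T t0 (K a16 (M a60 (F (T t64 (L l14 (L l18 (L l309 (L l331 (T t67 (T t65 N))))))))) (K a32 (M a60 (F (T t64 (L l309 (L l331 (T t67 (L l24 (L l28 (T t65 N))))))))) (K a21 (M a192 (F (T t28 (L l47 (L l331 (L l347 (T t20 (L l47 (L l347 (T t29 N)))))))))) (K a37 (M a192 (F (T t19 (L l47 (L l331 (T t20 (T t21 N))))))) (K a53 (M a192 (F (T t19 (L l491 (T t21 (L l142 (T t31 N))))))) (K a26 (M a192 (F (T t28 (L l331 (T t20 (T t21 N)))))) (K a42 (M a192 (F (T t19 (L l331 (T t20 (L l28 (T t29 N))))))) (K a58 (M a192 (F (T t19 (T t21 (L l54 (L l142 (L l498 (T t31 N)))))))) (K a15 (M a192 (F (T t57 (L l483 (T t27 (L l325 (L l331 (T t20 N)))))))) N)))))))))))))))⟩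
def e0_63__66_43 : Ent 4 := ⟨[a0, a63], [a66, a72], (M a48 (F (T t1 (T t2 (T t3 (T t0 (K a16 (M a60 (F (T t64 (L l14 (L l18 (L l309 (T t67 (T t65 N)))))))) (K a32 (M a60 (F (T t64 (L l309 (T t67 (L l24 (L l28 (T t65 N)))))))) (K a21 (M a192 (F (T t28 (L l47 (L l347 (T t20 (L l47 (L l347 (T t29 N))))))))) (K a37 (M a192 (F (T t19 (L l47 (T t20 (T t21 N)))))) (K a53 (M a192 (F (T t19 (L l491 (T t21 (L l132 (L l142 (T t31 N)))))))) (K a26 (M a192 (F (T t28 (T t20 (T t21 N))))) (K a42 (M a192 (F (T t19 (T t20 (L l28 (T t29 N)))))) (K a58 (M a192 (F (T t19 (T t21 (L l54 (L l132 (L l142 (L l498 (T t31 N))))))))) (K a15 (M a192 (F (T t57 (L l483 (T t27 (L l325 (T t20 N))))))) N)))))))))))))))⟩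
def e0_63__66_44 : Ent 4 := ⟨[a0, a63], [a66, a73], (M a48 (F (T t1 (T t2 (T t3 (T t0 (K a16 (M a60 (F (T t64 (L l14 (L l18 (L l309 (T t67 (T t65 N)))))))) (K a32 (M a60 (F (T t64 (L l309 (T t67 (L l24 (L l28 (T t65 N)))))))) (K a21 (M a192 (F (T t28 (L l47 (L l347 (T t20 (L l47 (L l347 (T t29 N))))))))) (K a37 (M a192 (F (T t19 (L l47 (T t20 (T t21 N)))))) (K a53 (M a192 (F (T t19 (L l491 (T t21 (L l142 (T t31 N))))))) (K a26 (M a192 (F (T t28 (T t20 (T t21 N))))) (K a42 (M a192 (F (T t19 (T t20 (L l28 (T t29 N)))))) (K a58 (M a192 (F (T t19 (T t21 (L l54 (L l142 (L l498 (T t31 N)))))))) (K a15 (M a192 (F (T t57 (L l483 (T t27 (L l325 (T t20 N))))))) N)))))))))))))))⟩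
def e0_63__66_45 : Ent 4 := ⟨[a0, a63], [a66, a74], (M a12 (L l82 (F (T t122 (T t151 (T t152 (T t153 (K a4 (M a62 (L l82 (F (T t750 (L l50 (L l306 (L l309 (T t709 (L l50 (L l318 (T t710 (K a70 (M a78 (F (L l46 (L l50 (T t711 (L l142 (T t712 N))))))) (K a78 (M a70 (F (T t750 (L l50 (L l318 (T t751 N)))))) N))))))))))))) (K a8 (M a62 (L l82 (F (T t711 (L l336 (L l339 (T t708 (L l2 (L l318 (T t710 (K a70 (M a78 (F (T t711 (L l142 (T t712 N))))) (K a78 (M a70 (F (T t750 (L l318 (L l320 (T t751 N)))))) N)))))))))))) (K a21 (M a204 (L l82 (F (T t737 (L l76 (L l84 (L l309 (L l339 (T t752 (L l50 (T t753 (L l15 (T t754 (K a70 (M a78 (F (T t735 (L l65 (L l309 (L l318 (L l336 (T t755 N)))))))) (K a78 (M a70 (F (T t735 (L l318 (L l324 (T t756 N)))))) N))))))))))))))) (K a25 (M a3 (L l82 (F (L l15 (T t353 (L l321 (L l339 (T t757 (L l53 (L l56 (T t758 (K a70 (M a78 (F (L l15 (T t353 (L l71 (L l306 (L l312 (L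 l330 (L l339 (T t759 (L l53 (L l56 (T t758 N))))))))))))) (K a78 (M a70 (F (L l321 (T t760 (L l53 (L l56 (T t758 N))))))) N))))))))))))) (K a29 (M a3 (L l82 (F (T t137 (L l339 (T t761 (T t758 (K a70 (M a78 (F (T t137 (L l312 (L l321 (L l339 (T t757 (T t758 N)))))))) (K a78 (M a70 (F (T t137 (L l76 (L l78 (T t762 N)))))) N))))))))) (K a38 (M a62 (L l82 (F (T t750 (L l50 (L l306 (L l309 (T t709 (L l48 (L l50 (L l318 (T t710 (K a70 (M a78 (F (L l50 (T t711 (L l142 (T t712 N)))))) (K a78 (M a70 (F (T t750 (L l48 (L l50 (L l318 (T t751 N))))))) N)))))))))))))) (K a42 (M a204 (L l82 (F (T t735 (L l76 (L l84 (L l309 (L l339 (T t752 (L l26 (T t763 (L l56 (T t764 (K a70 (M a78 (F (T t765 (L l54 (L l309 (L l318 (L l336 (T t755 N)))))))) (K a78 (M a70 (F (T t765 (L l318 (L l324 (T t756 N)))))) N))))))))))))))) (K a46 (M a3 (L l82 (F (T t353 (L l339 (T t761 (L l26 (T t758 (K a70 (M a78 (F (T t353 (L l306 (L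 l312 (L l330 (L l339 (T t759 (L l26 (T t758 N)))))))))) (K a78 (M a70 (F (T t353 (L l76 (L l78 (T t762 N)))))) N)))))))))) (K a51 (M a62 (L l82 (F (T t711 (L l73 (L l336 (L l339 (T t708 (L l318 (T t710 (K a70 (M a78 (F (T t711 (L l142 (T t712 N))))) (K a78 (M a70 (F (T t750 (L l318 (T t751 N))))) N)))))))))))) (K a70 (M a78 (F (T t122 (T t151 (T t152 (T t153 (K a4 (M a204 (F (T t735 (L l50 (T t736 N))))) (K a8 (M a204 (F (T t737 (T t736 N)))) (K a21 (M a76 (F (T t738 (L l76 (L l84 (L l318 (L l330 (T t739 N)))))))) (K a25 (M a76 (F (T t738 (L l76 (L l84 (L l318 (L l330 (T t739 N)))))))) (K a29 (M a204 (F (T t740 (L l76 (L l84 (T t741 N)))))) (K a38 (M a76 (F (T t738 (L l76 (L l84 (L l318 (L l330 (T t739 N)))))))) (K a42 (M a76 (F (T t738 (L l76 (L l84 (L l318 (L l330 (T t739 N)))))))) (K a46 (M a204 (F (T t742 (L l76 (L l84 (T t741 N)))))) (K a51 (M a76 (F (T t743 (L l76 (L l84 (L l318 (L l330 (L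 l487 (T t739 N))))))))) N))))))))))))))) (K a78 (M a70 (F (T t122 (T t151 (T t152 (T t153 (K a4 (M a204 (F (T t765 (L l318 (L l324 (T t756 N)))))) (K a8 (M a204 (F (T t765 (L l316 (L l318 (L l320 (L l324 (T t756 N)))))))) (K a21 (M a68 (F (T t766 (L l15 (T t767 N))))) (K a25 (M a132 (F (L l56 (T t768 (L l78 (L l130 (L l142 (T t769 N)))))))) (K a29 (M a132 (F (T t768 (L l15 (L l78 (L l371 (T t770 N))))))) (K a38 (M a68 (F (T t767 (L l76 (L l318 (L l324 (T t771 N))))))) (K a42 (M a68 (F (T t767 (L l76 (L l318 (L l324 (T t771 N))))))) (K a46 (M a132 (F (T t768 (L l78 (T t770 N))))) (K a51 (M a68 (F (T t772 (L l439 (T t767 N))))) N))))))))))))))) N))))))))))))))))))⟩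
def e0_63__66_46 : Ent 4 := ⟨[a0, a63], [a66, a75], (M a12 (F (T t122 (T t151 (T t152 (T t153 (K a4 (M a60 (F (T t570 (L l46 (L l50 (L l309 (T t67 (T t448 N)))))))) (K a8 (M a60 (F (T t570 (L l309 (T t67 (L l52 (L l56 (T t448 N)))))))) (K a21 (M a192 (F (T t156 (L l15 (L l347 (T t450 (L l15 (L l347 (T t157 N))))))))) (K a25 (M a192 (F (T t449 (L l15 (T t450 (T t21 N)))))) (K a29 (M a192 (F (T t449 (L l371 (T t21 (L l78 (L l142 (T t160 N)))))))) (K a38 (M a192 (F (T t450 (T t156 (T t21 N))))) (K a42 (M a192 (F (T t449 (T t450 (L l56 (T t157 N)))))) (K a46 (M a192 (F (T t449 (T t21 (L l26 (L l78 (L l142 (L l408 (T t160 N))))))))) (K a51 (M a192 (F (T t57 (L l513 (T t156 (L l415 (T t450 N))))))) N)))))))))))))))⟩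
def e0_63__66_47 : Ent 4 := ⟨[a0, a63], [a66, a76], (M a48 (F (T t1 (T t2 (T t3 (T t0 (K a16 (M a60 (F (T t64 (L l14 (L l18 (L l309 (T t67 (T t65 N)))))))) (K a32 (M a60 (F (T t64 (L l309 (T t67 (L l24 (L l28 (T t65 N)))))))) (K a21 (M a192 (F (T t28 (L l47 (L l347 (T t20 (L l47 (L l347 (T t29 N))))))))) (K a37 (M a192 (F (T t19 (L l47 (T t20 (L l138 (T t21 N))))))) (K a53 (M a192 (F (T t19 (L l138 (L l491 (T t21 (L l142 (T t31 N)))))))) (K a26 (M a192 (F (T t28 (T t20 (L l138 (T t21 N)))))) (K a42 (M a192 (F (T t19 (T t20 (L l28 (T t29 N)))))) (K a58 (M a192 (F (T t19 (L l138 (T t21 (L l54 (L l142 (L l498 (T t31 N))))))))) (K a15 (M a192 (F (T t57 (L l146 (L l483 (T t27 (L l325 (T t20 N)))))))) N)))))))))))))))⟩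
def e0_63__66_48 : Ent 4 := ⟨[a0, a63], [a66, a77], (M a48 (F (T t1 (T t2 (T t3 (T t0 (K a16 (M a60 (F (T t64 (L l14 (L l18 (L l309 (T t67 (T t65 N)))))))) (K a32 (M a60 (F (T t64 (L l309 (T t67 (L l24 (L l28 (T t65 N)))))))) (K a21 (M a192 (F (T t28 (L l47 (L l326 (L l347 (T t20 (L l47 (L l347 (T t29 N)))))))))) (K a37 (M a192 (F (T t19 (L l47 (L l326 (T t20 (T t21 N))))))) (K a53 (M a192 (F (T t19 (L l491 (T t21 (L l142 (T t31 N))))))) (K a26 (M a192 (F (T t28 (L l326 (T t20 (T t21 N)))))) (K a42 (M a192 (F (T t19 (L l326 (T t20 (L l28 (T t29 N))))))) (K a58 (M a192 (F (T t19 (T t21 (L l54 (L l142 (L l498 (T t31 N)))))))) (K a15 (M a192 (F (T t57 (L l483 (T t27 (L l325 (L l326 (T t20 N)))))))) N)))))))))))))))⟩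
def e0_63__66_49 : Ent 4 := ⟨[a0, a63], [a66, a78], (M a12 (L l82 (F (T t122 (T t151 (T t152 (T t153 (K a4 (M a62 (L l82 (F (T t750 (L l50 (L l306 (L l309 (T t709 (L l50 (T t710 (K a70 (M a74 (F (L l46 (L l50 (T t711 (L l312 (L l314 (T t713 N)))))))) (K a74 (M a70 (F (T t750 (L l50 (L l318 (T t751 N)))))) N)))))))))))) (K a8 (M a62 (L l82 (F (T t711 (L l324 (L l327 (T t708 (L l2 (T t710 (K a70 (M a74 (F (T t711 (L l312 (T t713 N))))) (K a74 (M a70 (F (T t750 (L l318 (L l320 (T t751 N)))))) N))))))))))) (K a21 (M a192 (L l82 (F (L l327 (T t468 (L l15 (L l347 (T t450 (L l15 (L l347 (T t157 (K a70 (M a74 (F (L l142 (T t543 (L l79 (L l327 (L l330 (T t714 N)))))))) (K a74 (M a70 (F (L l347 (T t467 (L l78 (L l327 (T t468 (L l15 (L l347 (T t157 N)))))))))) N))))))))))))) (K a25 (M a192 (L l82 (F (T t467 (L l79 (L l327 (T t156 (T t21 (K a70 (M a74 (F (T t21 (L l71 (L l306 (L l315 (T t744 N))))))) (K a74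 (M a70 (F (T t467 (L l56 (L l78 (L l327 (T t468 (L l15 (T t35 N))))))))) N)))))))))) (K a29 (M a132 (L l82 (F (T t773 (L l15 (L l371 (T t770 (L l148 (T t774 (K a70 (M a74 (F (L l324 (L l327 (T t775 (L l77 (L l124 (L l148 (T t774 N))))))))) (K a74 (M a70 (F (T t768 (L l15 (L l78 (L l371 (T t770 N))))))) N))))))))))) (K a38 (M a62 (L l82 (F (T t750 (L l50 (L l306 (L l309 (T t709 (L l48 (L l50 (T t710 (K a70 (M a74 (F (L l50 (T t711 (L l312 (T t713 N)))))) (K a74 (M a70 (F (T t750 (L l48 (L l50 (L l318 (T t751 N))))))) N))))))))))))) (K a42 (M a192 (L l82 (F (T t450 (L l79 (L l327 (T t156 (L l56 (T t157 (K a70 (M a74 (F (T t450 (L l79 (L l327 (L l330 (T t714 N))))))) (K a74 (M a70 (F (T t467 (L l56 (L l78 (L l327 (T t468 (L l56 (T t157 N))))))))) N))))))))))) (K a46 (M a192 (L l82 (F (T t21 (L l79 (L l327 (T t156 (L l26 (L l142 (L l408 (T t160 (K a70 (M a74 (F (T t21 (L l306 (L l315 (T t744 N))))))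 (K a74 (M a70 (F (T t35 (L l78 (L l327 (T t468 (T t776 N))))))) N))))))))))))) (K a51 (M a62 (L l82 (F (T t711 (L l73 (L l324 (L l327 (T t708 (T t710 (K a70 (M a74 (F (T t711 (L l312 (T t713 N))))) (K a74 (M a70 (F (T t750 (L l318 (T t751 N))))) N))))))))))) (K a70 (M a74 (F (T t122 (T t151 (T t152 (T t153 (K a4 (M a192 (F (T t21 (L l306 (L l315 (T t744 N)))))) (K a8 (M a192 (F (T t21 (L l306 (L l315 (T t744 N)))))) (K a21 (M a64 (F (L l79 (T t745 (L l142 (T t746 N)))))) (K a25 (M a64 (F (T t397 (L l79 (L l324 (L l330 (T t747 N))))))) (K a29 (M a64 (F (L l371 (T t397 (L l79 (T t745 N)))))) (K a38 (M a64 (F (T t397 (L l79 (T t745 N))))) (K a42 (M a64 (F (T t748 (L l56 (L l79 (T t745 N)))))) (K a46 (M a64 (F (T t397 (L l79 (T t745 N))))) (K a51 (M a64 (F (T t749 (L l79 (L l487 (T t745 N)))))) N))))))))))))))) (K a74 (M a70 (F (T t122 (T t151 (T t152 (T t153 (K a4 (M a204 (F (T t765 (L l318 (L l324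 (T t756 N)))))) (K a8 (M a204 (F (T t765 (L l316 (L l318 (L l320 (L l324 (T t756 N)))))))) (K a21 (M a68 (F (T t766 (L l15 (T t767 N))))) (K a25 (M a132 (F (L l56 (T t768 (L l78 (L l130 (L l142 (T t769 N)))))))) (K a29 (M a132 (F (T t768 (L l15 (L l78 (L l371 (T t770 N))))))) (K a38 (M a68 (F (T t767 (L l76 (L l318 (L l324 (T t771 N))))))) (K a42 (M a68 (F (T t767 (L l76 (L l318 (L l324 (T t771 N))))))) (K a46 (M a132 (F (T t768 (L l78 (T t770 N))))) (K a51 (M a68 (F (T t772 (L l439 (T t767 N))))) N))))))))))))))) N))))))))))))))))))⟩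
def e0_63__66_50 : Ent 4 := ⟨[a0, a63], [a66, a79], (M a12 (F (T t122 (T t151 (T t152 (T t153 (K a4 (M a60 (F (T t570 (L l46 (L l50 (L l309 (T t67 (T t448 N)))))))) (K a8 (M a60 (F (T t570 (L l309 (T t67 (L l52 (L l56 (T t448 N)))))))) (K a21 (M a192 (F (T t468 (L l15 (L l347 (T t450 (L l15 (L l347 (T t157 N))))))))) (K a25 (M a192 (F (T t449 (L l15 (T t450 (L l137 (T t21 N))))))) (K a29 (M a192 (F (T t449 (L l137 (L l371 (T t21 (L l142 (T t160 N)))))))) (K a38 (M a192 (F (T t468 (T t450 (L l137 (T t21 N)))))) (K a42 (M a192 (F (T t449 (T t450 (L l56 (T t157 N)))))) (K a46 (M a192 (F (T t449 (L l137 (T t21 (L l26 (L l142 (L l408 (T t160 N))))))))) (K a51 (M a192 (F (T t57 (L l79 (L l513 (T t156 (L l415 (T t450 N)))))))) N)))))))))))))))⟩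
def e0_63__66_51 : Ent 4 := ⟨[a0, a63], [a66, a84], (M a48 (F (T t1 (T t2 (L l364 (T t3 (T t0 (K a16 (M a60 (L l364 (F (T t64 (L l14 (L l18 (L l309 (L l346 (T t67 (T t65 (K a152 (M a220 (F (T t42 (L l309 (T t69 (L l14 (L l18 (L l346 (T t44 N))))))))) (K a220 (M a152 (F (T t662 (L l286 (T t469 N))))) N)))))))))))) (K a32 (M a60 (F (T t64 (L l309 (L l346 (T t67 (L l24 (L l28 (T t65 N))))))))) (K a21 (M a192 (F (T t28 (L l47 (L l347 (T t20 (L l47 (L l347 (T t29 N))))))))) (K a37 (M a192 (F (T t27 (L l47 (T t20 (T t21 N)))))) (K a53 (M a192 (F (T t28 (L l491 (T t21 (L l142 (T t31 N))))))) (K a26 (M a192 (F (T t27 (T t20 (T t21 N))))) (K a42 (M a192 (F (T t27 (T t20 (L l28 (T t29 N)))))) (K a58 (M a192 (F (T t27 (T t21 (L l54 (L l142 (L l498 (T t31 N)))))))) (K a15 (M a192 (F (T t33 (L l483 (T t27 (L l469 (T t21 N))))))) N))))))))))))))))⟩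
def e0_63__66_52 : Ent 4 := ⟨[a0, a63], [a66, a85], (M a48 (F (T t0 (L l347 (T t1 (L l455 (T t2 (L l347 (L l368 (T t3 (K a16 (M a61 (L l368 (F (T t262 (L l309 (L l473 (T t505 (L l10 (L l365 (T t530 (K a154 (M a223 (F (T t529 (L l498 (T t262 (L l10 (L l365 (L l498 (T t530 N))))))))) (K a223 (M a154 (F (T t529 (L l289 (T t493 N))))) N)))))))))))) (K a32 (M a60 (F (T t64 (L l309 (L l347 (L l350 (T t67 (L l24 (L l28 (L l455 (T t65 N))))))))))) (K a21 (M a149 (F (T t184 (L l142 (L l144 (T t13 (L l18 (L l123 (L l144 (L l368 (T t482 (L l18 (L l123 (L l368 (T t483 N))))))))))))))) (K a37 (M a192 (F (T t27 (L l47 (L l347 (T t20 (L l142 (L l144 (L l368 (T t224 N)))))))))) (K a53 (M a12 (F (T t443 (L l47 (L l347 (T t122 (L l47 (L l347 (T t146 N))))))))) (K a26 (M a192 (F (T t28 (L l347 (T t20 (L l18 (L l54 (L l142 (L l144 (L l368 (T t224 N))))))))))) (K a42 (M a192 (F (T t27 (L l347 (T t20 (L l54 (L l142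 (L l144 (L l368 (L l390 (T t224 N))))))))))) (K a58 (M a12 (F (T t443 (L l347 (T t122 (L l347 (T t146 N))))))) (K a15 (M a192 (F (L l483 (T t27 (L l325 (L l347 (T t20 (L l142 (L l144 (L l368 (T t224 N))))))))))) N)))))))))))))))))))⟩
def e0_63__66_53 : Ent 4 := ⟨[a0, a63], [a66, a86], (M a48 (L l142 (F (T t1 (T t2 (T t3 (T t0 (K a16 (M a106 (F (T t304 (L l76 (L l309 (T t586 (L l18 (T t306 N)))))))) (K a32 (M a106 (F (T t304 (L l28 (L l76 (L l309 (T t586 (T t306 N)))))))) (K a21 (M a106 (F (L l309 (T t777 (L l76 (L l347 (L l351 (T t551 (L l47 (L l76 (T t579 N))))))))))) (K a37 (M a106 (F (L l351 (T t564 (L l309 (T t777 (L l28 (L l47 (L l76 (T t579 N)))))))))) (K a53 (M a106 (F (L l47 (T t778 (L l76 (L l351 (L l491 (T t551 (L l47 (T t599 N)))))))))) (K a26 (M a106 (F (T t304 (L l18 (L l87 (T t310 (L l76 (T t579 N)))))))) (K a42 (M a106 (F (T t304 (L l28 (L l76 (T t579 (L l76 (L l351 (T t551 N)))))))))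 (K a58 (M a106 (F (T t778 (L l76 (L l351 (T t551 (T t599 N))))))) (K a15 (M a106 (F (T t779 (T t599 (L l76 (L l309 (L l339 (T t586 N)))))))) (K a106 (M a126 (F (T t1 (T t780 (K a16 (M a240 (F (T t781 (L l87 (L l364 (L l459 (T t782 N))))))) (K a32 (M a240 (F (T t781 (L l87 (L l459 (T t782 N)))))) N)))))) (K a126 (M a106 (F (T t304 (T t1 (L l76 (L l309 (T t586 N))))))) N))))))))))))))))))⟩
def e0_63__66_54 : Ent 4 := ⟨[a0, a63], [a66, a87], (M a48 (F (T t1 (T t2 (T t3 (T t0 (K a16 (M a60 (F (T t64 (L l14 (L l18 (L l309 (L l475 (T t67 (L l349 (T t65 N)))))))))) (K a32 (M a60 (F (T t64 (L l309 (L l475 (T t67 (L l24 (L l28 (L l349 (T t65 N)))))))))) (K a21 (M a192 (F (T t28 (L l47 (L l347 (T t20 (L l47 (L l347 (L l367 (T t29 N)))))))))) (K a37 (M a192 (F (T t19 (L l47 (T t20 (L l143 (L l475 (T t21 N)))))))) (K a53 (M a192 (F (T t19 (L l143 (L l475 (L l491 (T t21 (L l142 (T t31 N))))))))) (K a26 (M a192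 (F (T t28 (T t20 (L l143 (L l475 (T t21 N))))))) (K a42 (M a192 (F (T t19 (T t20 (L l28 (L l367 (T t29 N))))))) (K a58 (M a192 (F (T t19 (L l143 (L l475 (T t21 (L l54 (L l142 (L l498 (T t31 N)))))))))) (K a15 (M a192 (F (T t57 (L l483 (T t27 (L l325 (T t20 N))))))) N)))))))))))))))⟩
def e0_63__66_55 : Ent 4 := ⟨[a0, a63], [a66, a88], (M a48 (F (T t1 (T t2 (T t3 (T t0 (K a16 (M a60 (F (T t64 (L l14 (L l18 (L l309 (T t67 (T t65 N)))))))) (K a32 (M a60 (F (T t64 (L l309 (T t67 (L l24 (L l28 (T t65 N)))))))) (K a21 (M a192 (F (L l347 (T t225 (L l146 (L l478 (T t27 (L l47 (L l347 (T t29 N)))))))))) (K a37 (M a192 (F (T t225 (L l146 (L l478 (T t27 (T t21 N))))))) (K a53 (M a192 (F (T t36 (L l491 (T t21 (L l142 (T t31 N))))))) (K a26 (M a192 (F (T t20 (L l146 (L l478 (T t27 (T t21 N))))))) (K a42 (M a192 (F (T t20 (L l146 (L l478 (T t27 (L l28 (T t29 N)))))))) (K a58 (M a192 (F (T t21 (L l146 (L l478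 (T t27 (L l54 (L l142 (L l498 (T t31 N)))))))))) (K a15 (M a192 (F (T t57 (L l146 (L l478 (L l483 (T t27 (L l325 (T t20 N))))))))) N)))))))))))))))⟩
def e0_63__66_56 : Ent 4 := ⟨[a0, a63], [a66, a89], (M a48 (F (T t1 (T t2 (T t3 (T t0 (K a16 (M a60 (F (T t64 (L l14 (L l18 (L l309 (T t67 (T t65 N)))))))) (K a32 (M a60 (F (T t64 (L l309 (T t67 (L l24 (L l28 (T t65 N)))))))) (K a21 (M a192 (F (T t28 (L l47 (L l347 (L l371 (T t20 (L l47 (L l347 (L l371 (T t29 N))))))))))) (K a37 (M a192 (F (T t19 (L l47 (L l371 (T t20 (L l371 (T t21 N)))))))) (K a53 (M a192 (F (T t19 (L l371 (L l491 (T t21 (L l132 (L l142 (T t31 N))))))))) (K a26 (M a192 (F (T t28 (L l371 (T t20 (L l371 (T t21 N))))))) (K a42 (M a192 (F (T t19 (L l371 (T t20 (L l28 (L l371 (T t29 N)))))))) (K a58 (M a192 (F (T t19 (L l371 (T t21 (L l54 (L l132 (L l142 (L l498 (T t31 N)))))))))) (K a15 (M a192 (F (T t36 (L l325 (L l371 (T t20 (L l371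 (L l469 (T t21 N))))))))) N)))))))))))))))⟩
def e0_63__66_57 : Ent 4 := ⟨[a0, a63], [a66, a90], (M a12 (F (T t122 (T t151 (T t152 (T t153 (K a4 (M a60 (F (T t570 (L l46 (L l50 (L l309 (T t67 (T t448 N)))))))) (K a8 (M a60 (F (T t570 (L l309 (T t67 (L l52 (L l56 (T t448 N)))))))) (K a21 (M a192 (F (T t468 (L l15 (L l347 (L l375 (T t450 (L l15 (L l347 (L l375 (T t157 N))))))))))) (K a25 (M a192 (F (T t449 (L l15 (L l375 (T t450 (L l375 (T t21 N)))))))) (K a29 (M a192 (F (T t449 (L l371 (L l375 (T t21 (L l130 (L l142 (T t160 N))))))))) (K a38 (M a192 (F (T t468 (L l375 (T t450 (L l375 (T t21 N))))))) (K a42 (M a192 (F (T t449 (L l375 (T t450 (L l56 (L l375 (T t157 N)))))))) (K a46 (M a192 (F (T t449 (L l375 (T t21 (L l26 (L l130 (L l142 (L l408 (T t160 N)))))))))) (K a51 (M a192 (F (T t496 (L l375 (L l415 (T t450 (L l375 (L l439 (T t21 N))))))))) N)))))))))))))))⟩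
def e0_63__66_58 : Ent 4 := ⟨[a0, a63], [a66, a91], (M a12 (F (T t122 (T t151 (T t152 (T t153 (K a4 (M a60 (F (T t570 (L l46 (L l50 (L l309 (T t67 (T t448 N)))))))) (K a8 (M a60 (F (T t570 (L l309 (T t67 (L l52 (L l56 (T t448 N)))))))) (K a21 (M a192 (F (T t468 (L l15 (L l347 (L l481 (T t450 (L l15 (L l347 (T t157 N)))))))))) (K a25 (M a192 (F (T t449 (L l15 (L l481 (T t450 (T t21 N))))))) (K a29 (M a192 (F (T t449 (L l371 (T t21 (L l142 (T t160 N))))))) (K a38 (M a192 (F (T t468 (L l481 (T t450 (T t21 N)))))) (K a42 (M a192 (F (T t449 (L l481 (T t450 (L l56 (T t157 N))))))) (K a46 (M a192 (F (T t449 (T t21 (L l26 (L l142 (L l408 (T t160 N)))))))) (K a51 (M a192 (F (T t57 (L l513 (T t156 (L l415 (L l481 (T t450 N)))))))) N)))))))))))))))⟩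
def e0_63__66_59 : Ent 4 := ⟨[a0, a63], [a66, a92], (M a48 (F (T t1 (T t2 (T t3 (T t0 (K a16 (M a60 (F (T t64 (L l14 (L l18 (L l309 (T t67 (T t65 N)))))))) (K a32 (M a60 (F (T t64 (L l309 (T t67 (L l24 (L l28 (T t65 N)))))))) (K a21 (M a192 (F (T t28 (L l47 (L l347 (T t20 (L l47 (L l347 (T t29 N))))))))) (K a37 (M a192 (F (T t19 (L l47 (T t20 (T t21 N)))))) (K a53 (M a192 (F (T t19 (L l491 (T t21 (L l142 (T t31 N))))))) (K a26 (M a192 (F (T t28 (T t20 (T t21 N))))) (K a42 (M a192 (F (T t19 (T t20 (L l28 (T t29 N)))))) (K a58 (M a192 (F (T t19 (T t21 (L l54 (L l142 (L l498 (T t31 N)))))))) (K a15 (M a192 (F (T t57 (L l483 (T t27 (L l325 (T t20 N))))))) N)))))))))))))))⟩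
def e0_63__66_60 : Ent 4 := ⟨[a0, a63], [a66, a93], (M a48 (F (T t1 (T t2 (T t3 (T t0 (K a16 (M a60 (F (T t64 (L l14 (L l18 (L l309 (T t67 (T t65 N)))))))) (K a32 (M a60 (F (T t64 (L l309 (T t67 (L l24 (L l28 (T t65 N)))))))) (K a21 (M a192 (F (T t28 (L l47 (L l347 (T t20 (L l47 (L l347 (L l362 (T t29 N)))))))))) (K a37 (M a192 (F (T t19 (L l47 (T t20 (L l138 (L l470 (T t21 N)))))))) (K a53 (M a192 (F (T t19 (L l138 (L l470 (L l491 (T t21 (L l142 (T t31 N))))))))) (K a26 (M a192 (F (T t28 (T t20 (L l138 (L l470 (T t21 N))))))) (K a42 (M a192 (F (T t19 (T t20 (L l28 (L l362 (T t29 N))))))) (K a58 (M a192 (F (T t19 (L l138 (L l470 (T t21 (L l54 (L l142 (L l498 (T t31 N)))))))))) (K a15 (M a192 (F (T t57 (L l483 (T t27 (L l325 (T t20 N))))))) N)))))))))))))))⟩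
def e0_63__66_61 : Ent 4 := ⟨[a0, a63], [a66, a94], (M a12 (F (T t122 (T t151 (T t152 (T t153 (K a4 (M a60 (F (T t570 (L l46 (L l50 (L l309 (T t67 (T t448 N)))))))) (K a8 (M a60 (F (T t570 (L l309 (T t67 (L l52 (L l56 (T t448 N)))))))) (K a21 (M a192 (F (T t468 (L l15 (L l347 (T t450 (L l15 (L l347 (T t157 N))))))))) (K a25 (M a192 (F (T t449 (L l15 (T t450 (T t21 N)))))) (K a29 (M a192 (F (T t449 (L l371 (T t21 (L l142 (T t160 N))))))) (K a38 (M a192 (F (T t468 (T t450 (T t21 N))))) (K a42 (M a192 (F (T t449 (T t450 (L l56 (T t157 N)))))) (K a46 (M a192 (F (T t449 (T t21 (L l26 (L l142 (L l408 (T t160 N)))))))) (K a51 (M a192 (F (T t57 (L l513 (T t156 (L l415 (T t450 N))))))) N)))))))))))))))⟩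
def e0_63__66_62 : Ent 4 := ⟨[a0, a63], [a66, a95], (M a12 (F (T t122 (T t151 (T t152 (T t153 (K a4 (M a60 (F (T t570 (L l46 (L l50 (L l309 (T t67 (T t448 N)))))))) (K a8 (M a60 (F (T t570 (L l309 (T t67 (L l52 (L l56 (T t448 N)))))))) (K a21 (M a192 (F (T t468 (L l15 (L l347 (T t450 (L l15 (L l347 (T t157 N))))))))) (K a25 (M a192 (F (T t449 (L l15 (T t450 (L l137 (L l469 (T t21 N)))))))) (K a29 (M a192 (F (T t449 (L l137 (L l371 (L l469 (T t21 (L l142 (T t160 N))))))))) (K a38 (M a192 (F (T t468 (T t450 (L l137 (L l469 (T t21 N))))))) (K a42 (M a192 (F (T t449 (T t450 (L l56 (T t157 N)))))) (K a46 (M a192 (F (T t449 (L l137 (L l469 (T t21 (L l26 (L l142 (L l408 (T t160 N)))))))))) (K a51 (M a192 (F (T t57 (L l513 (T t156 (L l415 (T t450 N))))))) N)))))))))))))))⟩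
def e0_63__66_63 : Ent 4 := ⟨[a0, a63], [a66, a104], (M a48 (F (T t1 (T t2 (T t3 (T t0 (K a16 (M a60 (F (T t64 (L l14 (L l18 (L l309 (T t67 (L l388 (T t65 N))))))))) (K a32 (M a60 (F (T t64 (L l309 (T t67 (L l24 (L l28 (L l388 (T t65 N))))))))) (K a21 (M a192 (F (T t27 (L l47 (L l347 (T t20 (L l47 (L l347 (T t29 N))))))))) (K a37 (M a192 (F (T t27 (L l47 (T t20 (T t21 N)))))) (K a53 (M a192 (F (T t27 (L l491 (T t21 (L l98 (L l100 (L l142 (T t31 N))))))))) (K a26 (M a192 (F (T t27 (T t20 (T t21 N))))) (K a42 (M a192 (F (T t27 (T t20 (L l28 (T t29 N)))))) (K a58 (M a192 (F (T t27 (T t21 (L l54 (L l98 (L l100 (L l142 (L l498 (T t31 N)))))))))) (K a15 (M a192 (F (T t57 (L l483 (T t27 (L l325 (T t20 N))))))) N)))))))))))))))⟩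
def e0_63__66_64 : Ent 4 := ⟨[a0, a63], [a66, a105], (M a48 (F (T t1 (T t2 (T t3 (T t0 (K a16 (M a60 (F (T t42 (L l14 (L l18 (L l309 (T t67 (L l392 (T t65 N))))))))) (K a32 (M a60 (F (T t42 (L l309 (T t67 (L l24 (L l28 (L l392 (T t65 N))))))))) (K a21 (M a192 (F (T t28 (L l47 (L l347 (L l515 (T t20 (L l47 (L l347 (L l515 (T t29 N))))))))))) (K a37 (M a192 (F (T t19 (L l47 (L l515 (T t20 (L l515 (T t21 N)))))))) (K a53 (M a192 (F (T t19 (L l491 (L l515 (T t21 (L l98 (L l142 (T t31 N))))))))) (K a26 (M a192 (F (T t28 (L l515 (T t20 (L l515 (T t21 N))))))) (K a42 (M a192 (F (T t19 (L l515 (T t20 (L l28 (L l515 (T t29 N)))))))) (K a58 (M a192 (F (T t19 (L l515 (T t21 (L l54 (L l98 (L l142 (L l498 (T t31 N)))))))))) (K a15 (M a192 (F (T t36 (L l325 (L l515 (T t20 (L l469 (L l515 (T t21 N))))))))) N)))))))))))))))⟩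
def e0_63__66_65 : Ent 4 := ⟨[a0, a63], [a66, a106], (M a48 (L l142 (F (T t1 (L l390 (L l498 (T t2 (L l411 (T t3 (L l390 (T t0 (K a16 (M a60 (L l142 (F (T t64 (L l14 (L l18 (L l309 (L l393 (T t67 (L l390 (L l498 (T t65 (K a86 (M a126 (F (T t64 (L l309 (L l351 (T t783 N)))))) (K a126 (M a86 (F (T t64 (L l309 (L l390 (L l432 (L l516 (T t69 (L l14 (L l18 (L l393 (T t44 N)))))))))))) N)))))))))))))) (K a32 (M a60 (L l142 (F (T t64 (L l309 (L l393 (T t67 (L l24 (L l28 (L l390 (L l498 (T t65 (K a86 (M a126 (F (T t64 (L l24 (L l309 (L l351 (L l400 (T t783 N)))))))) (K a126 (M a86 (F (T t64 (L l28 (L l309 (L l390 (L l432 (L l516 (T t69 (L l393 (T t44 N))))))))))) N)))))))))))))) (K a21 (M a255 (L l142 (F (T t511 (L l390 (T t512 (L l18 (L l144 (L l347 (L l498 (T t513 (K a86 (M a126 (F (T t511 (L l369 (T t784 N))))) (K a126 (M a86 (F (T t511 (L l309 (L l390 (T t785 N)))))) N))))))))))))) (K a37 (M a3 (L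 l142 (F (T t348 (L l47 (T t353 (L l25 (L l28 (L l390 (L l393 (T t87 (K a86 (M a126 (F (T t780 (L l47 (L l516 (T t358 N)))))) (K a126 (M a86 (F (T t348 (L l393 (L l498 (T t786 N)))))) N))))))))))))) (K a53 (M a3 (L l142 (F (T t86 (L l390 (L l393 (T t137 (L l390 (L l393 (T t87 (K a86 (M a126 (F (T t780 (L l47 (L l516 (T t358 N)))))) (K a126 (M a86 (F (T t86 (L l390 (L l393 (T t787 N)))))) N)))))))))))) (K a26 (M a3 (L l142 (F (T t559 (L l54 (L l390 (L l393 (T t137 (L l16 (L l18 (T t560 (K a86 (M a126 (F (T t780 (L l54 (L l306 (L l390 (L l474 (T t665 N)))))))) (K a126 (M a86 (F (T t559 (L l54 (L l393 (L l498 (T t786 N))))))) N))))))))))))) (K a42 (M a170 (L l142 (F (T t316 (L l144 (T t514 (L l54 (L l76 (L l104 (L l144 (L l498 (T t515 (L l54 (L l498 (T t516 (K a86 (M a126 (F (T t319 (L l66 (L l87 (L l144 (L l145 (L l516 (T t788 (L l28 (L l369 (T t784 N)))))))))))) (K a126 (M a86 (F (T t316 (L l432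 (T t789 (L l432 (T t790 N))))))) N))))))))))))))))) (K a58 (M a3 (L l142 (L l498 (F (T t353 (T t559 (L l54 (L l390 (L l393 (T t87 (K a86 (M a126 (L l498 (F (L l351 (T t353 (T t780 (K a202 (M a154 (F (L l426 (T t327 (L l351 (T t353 N)))))) (K a154 (M a202 (L l366 (F (L l351 (T t353 (L l209 (T t780 (K a18 (M a222 (F (L l351 (T t353 (L l10 (L l87 (L l368 (T t791 N)))))))) (K a222 (Fr a18 a33 l45 (V t792)) N))))))))) N)))))))) (K a202 (M a154 (L l142 (F (T t793 (L l36 (L l516 (T t358 (K a86 (M a126 (F (L l426 (T t327 (L l351 (T t353 N)))))) (K a126 (M a86 (F (T t794 (L l236 (L l393 (T t795 N)))))) N))))))))) (K a154 (M a202 (L l142 (F (T t559 (L l54 (L l390 (L l393 (T t137 (L l54 (L l390 (L l393 (T t87 (K a86 (M a126 (L l366 (F (L l351 (T t353 (L l209 (T t780 (K a18 (M a222 (F (L l351 (T t353 (L l10 (L l87 (L l368 (T t791 N)))))))) (K a222 (Fr a18 a33 l45 (V t792)) N))))))))) (K a126 (M a86 (F (T t559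 (L l54 (L l209 (L l390 (L l393 (T t787 N)))))))) N)))))))))))))) (K a126 (M a86 (L l498 (F (T t796 (L l54 (L l306 (L l390 (T t665 (K a202 (M a154 (F (T t794 (L l236 (L l393 (T t795 N)))))) (K a154 (M a202 (F (T t559 (L l54 (L l209 (L l390 (L l393 (T t787 N)))))))) N)))))))))) N)))))))))))))) (K a15 (M a3 (L l142 (F (T t797 (L l63 (L l390 (L l393 (T t137 (L l63 (L l390 (L l393 (T t87 (K a86 (M a126 (F (T t798 (L l63 (L l516 (T t358 N)))))) (K a126 (M a86 (F (T t797 (L l393 (L l498 (T t786 N)))))) N)))))))))))))) (K a86 (M a126 (F (T t1 (T t780 (K a16 (M a240 (F (T t781 (L l87 (L l364 (L l459 (T t782 N))))))) (K a32 (M a240 (F (T t781 (L l87 (L l459 (T t782 N)))))) N)))))) (K a126 (M a86 (F (T t1 (L l390 (L l498 (T t2 (L l411 (T t3 (L l390 (T t0 (K a16 (M a2 (F (L l393 (T t799 (L l10 (L l18 (T t340 N))))))) (K a32 (M a170 (F (L l144 (T t514 (L l24 (L l432 (T t800 N))))))) (K a21 (M a3 (F (T t559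 (L l393 (L l498 (T t786 N)))))) (K a37 (M a252 (F (T t801 (L l47 (L l393 (T t802 N)))))) (K a53 (M a20 (F (T t803 (L l390 (L l516 (T t804 N)))))) (K a26 (M a20 (F (T t805 (L l16 (L l54 (L l390 (L l516 (T t804 N)))))))) (K a42 (M a170 (F (T t316 (L l432 (T t789 (L l432 (T t790 N))))))) (K a58 (M a154 (F (T t806 (L l104 (L l309 (T t807 (L l36 (T t808 N)))))))) (K a15 (M a20 (F (T t183 (L l390 (L l516 (T t804 N)))))) N))))))))))))))))))) N))))))))))))))))))))))⟩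
def e0_63__66_66 : Ent 4 := ⟨[a0, a63], [a66, a107], (M a48 (F (T t1 (T t2 (L l409 (T t3 (T t0 (K a16 (M a60 (F (T t64 (L l14 (L l18 (L l309 (L l391 (T t67 (T t65 N))))))))) (K a32 (M a60 (F (T t64 (L l309 (L l391 (T t67 (L l24 (L l28 (T t65 N))))))))) (K a21 (M a192 (F (T t28 (L l47 (L l347 (T t20 (L l47 (L l347 (T t29 N))))))))) (K a37 (M a192 (F (T t19 (L l47 (T t20 (L l143 (T t21 N))))))) (K a53 (M a192 (F (T t19 (L l143 (L l491 (T t21 (L l98 (L l142 (T t31 N))))))))) (K a26 (M a192 (F (T t28 (T t20 (L l143 (T t21 N)))))) (K a42 (M a192 (F (T t19 (T t20 (L l28 (T t29 N)))))) (K a58 (M a192 (F (T t19 (L l143 (T t21 (L l54 (L l98 (L l142 (L l498 (T t31 N)))))))))) (K a15 (M a192 (F (T t57 (L l483 (T t27 (L l325 (T t20 N))))))) N))))))))))))))))⟩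
def e0_63__66_67 : Ent 4 := ⟨[a0, a63], [a66, a108], (M a48 (F (T t1 (T t2 (T t3 (T t0 (K a16 (M a60 (F (T t64 (L l14 (L l18 (L l309 (T t67 (T t65 N)))))))) (K a32 (M a60 (F (T t64 (L l309 (T t67 (L l24 (L l28 (T t65 N)))))))) (K a21 (M a192 (F (T t27 (L l47 (L l347 (T t20 (L l47 (L l347 (T t29 N))))))))) (K a37 (M a192 (F (T t19 (L l47 (T t20 (T t21 N)))))) (K a53 (M a192 (F (T t19 (L l491 (T t21 (L l100 (L l142 (T t31 N)))))))) (K a26 (M a192 (F (T t20 (T t27 (T t21 N))))) (K a42 (M a192 (F (T t19 (T t20 (L l28 (T t29 N)))))) (K a58 (M a192 (F (T t19 (T t21 (L l54 (L l100 (L l142 (L l498 (T t31 N))))))))) (K a15 (M a192 (F (T t57 (L l483 (T t27 (L l325 (T t20 N))))))) N)))))))))))))))⟩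
def e0_63__66_68 : Ent 4 := ⟨[a0, a63], [a66, a109], (M a48 (F (T t1 (T t2 (T t3 (T t0 (K a16 (M a60 (F (T t42 (L l14 (L l18 (L l309 (T t67 (T t65 N)))))))) (K a32 (M a60 (F (T t42 (L l309 (T t67 (L l24 (L l28 (T t65 N)))))))) (K a21 (M a192 (F (T t28 (L l47 (L l347 (L l506 (T t20 (L l47 (L l347 (T t29 N)))))))))) (K a37 (M a192 (F (T t19 (L l47 (L l506 (T t20 (T t21 N))))))) (K a53 (M a192 (F (T t19 (L l491 (T t21 (L l142 (T t31 N))))))) (K a26 (M a192 (F (T t28 (L l506 (T t20 (T t21 N)))))) (K a42 (M a192 (F (T t19 (L l506 (T t20 (L l28 (T t29 N))))))) (K a58 (M a192 (F (T t19 (T t21 (L l54 (L l142 (L l498 (T t31 N)))))))) (K a15 (M a192 (F (T t57 (L l483 (T t27 (L l325 (L l506 (T t20 N)))))))) N)))))))))))))))⟩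
def e0_63__66_69 : Ent 4 := ⟨[a0, a63], [a66, a110], (M a48 (F (T t1 (T t2 (L l399 (T t3 (T t0 (K a16 (M a60 (F (T t64 (L l14 (L l18 (L l309 (T t67 (T t65 N)))))))) (K a32 (M a60 (F (T t64 (L l309 (T t67 (L l24 (L l28 (T t65 N)))))))) (K a21 (M a192 (F (T t28 (L l47 (L l347 (T t20 (L l47 (L l347 (T t29 N))))))))) (K a37 (M a192 (F (T t19 (L l47 (T t20 (L l138 (T t21 N))))))) (K a53 (M a192 (F (T t19 (L l138 (L l491 (T t21 (L l102 (L l142 (T t31 N))))))))) (K a26 (M a192 (F (T t28 (T t20 (L l138 (T t21 N)))))) (K a42 (M a192 (F (T t19 (T t20 (L l28 (T t29 N)))))) (K a58 (M a192 (F (T t19 (L l138 (T t21 (L l54 (L l102 (L l142 (L l498 (T t31 N)))))))))) (K a15 (M a192 (F (T t57 (L l483 (T t27 (L l325 (T t20 N))))))) N))))))))))))))))⟩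
def e0_63__66_70 : Ent 4 := ⟨[a0, a63], [a66, a111], (M a48 (F (T t1 (T t2 (L l397 (T t3 (T t0 (K a16 (M a60 (F (T t64 (L l14 (L l18 (L l309 (T t67 (T t65 N)))))))) (K a32 (M a60 (F (T t64 (L l309 (T t67 (L l24 (L l28 (T t65 N)))))))) (K a21 (M a192 (F (T t27 (L l104 (L l142 (T t206 (L l47 (L l347 (T t29 N))))))))) (K a37 (M a192 (F (T t19 (L l104 (L l142 (T t206 (L l137 (T t21 N)))))))) (K a53 (M a192 (F (T t19 (L l137 (L l491 (T t21 (L l104 (L l142 (T t521 N))))))))) (K a26 (M a192 (F (T t27 (L l54 (L l104 (L l142 (T t206 (L l137 (T t21 N))))))))) (K a42 (M a192 (F (T t19 (L l54 (L l104 (L l142 (L l390 (T t206 (L l28 (T t29 N)))))))))) (K a58 (M a192 (F (T t19 (L l137 (T t21 (L l54 (L l104 (L l142 (L l498 (T t521 N)))))))))) (K a15 (M a192 (F (T t57 (L l483 (T t27 (L l104 (L l142 (L l325 (T t206 N))))))))) N))))))))))))))))⟩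
def e0_63__66_71 : Ent 4 := ⟨[a0, a63], [a66, a124], (M a48 (F (T t1 (T t2 (T t3 (T t0 (K a16 (M a60 (F (T t64 (L l14 (L l18 (L l309 (T t67 (T t65 N)))))))) (K a32 (M a60 (F (T t64 (L l309 (T t67 (L l24 (L l28 (T t65 N)))))))) (K a21 (M a192 (F (T t28 (L l47 (L l347 (T t20 (L l47 (L l347 (T t29 N))))))))) (K a37 (M a192 (F (T t19 (L l47 (T t20 (L l109 (T t21 N))))))) (K a53 (M a192 (F (T t19 (L l109 (L l491 (T t21 (L l142 (T t31 N)))))))) (K a26 (M a192 (F (T t28 (T t20 (L l109 (T t21 N)))))) (K a42 (M a192 (F (T t19 (T t20 (L l28 (T t29 N)))))) (K a58 (M a192 (F (T t19 (L l109 (T t21 (L l54 (L l142 (L l498 (T t31 N))))))))) (K a15 (M a192 (F (T t57 (L l110 (L l483 (T t27 (L l325 (T t20 N)))))))) N)))))))))))))))⟩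
def e0_63__66_72 : Ent 4 := ⟨[a0, a63], [a66, a125], (M a48 (F (T t1 (T t2 (T t3 (T t0 (K a16 (M a60 (F (T t42 (L l14 (L l18 (L l309 (T t67 (T t65 N)))))))) (K a32 (M a60 (F (T t42 (L l309 (T t67 (L l24 (L l28 (T t65 N)))))))) (K a21 (M a192 (F (T t28 (L l47 (L l347 (T t20 (L l47 (L l347 (T t29 N))))))))) (K a37 (M a192 (F (T t19 (L l47 (T t20 (L l109 (L l434 (T t21 N)))))))) (K a53 (M a192 (F (T t19 (L l109 (L l434 (L l491 (T t21 (L l142 (T t31 N))))))))) (K a26 (M a192 (F (T t28 (T t20 (L l109 (L l434 (T t21 N))))))) (K a42 (M a192 (F (T t19 (T t20 (L l28 (T t29 N)))))) (K a58 (M a192 (F (T t19 (L l109 (L l434 (T t21 (L l54 (L l142 (L l498 (T t31 N)))))))))) (K a15 (M a192 (F (T t57 (L l483 (T t27 (L l325 (T t20 N))))))) N)))))))))))))))⟩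
def e0_63__66_73 : Ent 4 := ⟨[a0, a63], [a66, a126], (M a106 (F (T t393 (L l76 (L l309 (T t586 (L l309 (T t305 (L l109 (T t564 (K a192 (M a3 (F (T t632 (L l76 (L l292 (L l306 (T t809 (L l292 (L l296 (T t810 (L l292 (L l296 (L l432 (T t811 N)))))))))))))) (K a21 (M a48 (F (L l309 (T t777 (L l76 (L l347 (T t551 (L l47 (L l76 (T t579 N)))))))))) (K a85 (M a48 (F (T t304 (L l455 (T t2 (L l76 (L l347 (T t551 N)))))))) (K a149 (M a48 (F (T t2 (L l76 (L l491 (T t579 (L l347 (L l491 (T t306 (L l347 (T t599 N))))))))))) (K a42 (M a48 (F (T t304 (L l28 (L l76 (T t579 (L l76 (T t551 N)))))))) (K a170 (M a32 (F (T t219 (L l220 (T t812 (L l180 (T t813 N))))))) (K a234 (Fr a149 a192 l519 (Fr a21 a42 l68 (Fr a85 a213 l347 (Fr a255 a170 l476 (V t875))))) (K a127 (M a240 (L l109 (F (T t815 (L l82 (L l137 (T t816 (T t817 (K a124 (M a125 (F (T t817 (L l82 (T t818 N))))) (K a125 (M a124 (F (T t815 (L l82 (T t819 (T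 t817 N)))))) N)))))))))) (K a255 (M a32 (F (T t820 (L l266 (T t812 (L l289 (L l296 (T t821 N)))))))) N)))))))))))))))))))⟩
def e0_63__66_74 : Ent 4 := ⟨[a0, a63], [a66, a127], (M a48 (F (T t1 (T t2 (T t3 (T t0 (K a16 (M a60 (F (T t64 (L l14 (L l18 (L l309 (T t67 (T t65 N)))))))) (K a32 (M a60 (F (T t64 (L l309 (T t67 (L l24 (L l28 (T t65 N)))))))) (K a21 (M a192 (F (T t28 (L l47 (L l347 (T t20 (L l18 (L l142 (L l144 (T t224 N)))))))))) (K a37 (M a192 (F (T t19 (L l47 (T t20 (L l28 (L l142 (L l144 (T t37 N))))))))) (K a53 (M a192 (F (T t19 (L l142 (L l144 (T t37 (L l47 (L l137 (L l491 (T t525 N)))))))))) (K a26 (M a192 (F (T t28 (T t20 (L l54 (L l142 (L l144 (T t37 N)))))))) (K a42 (M a192 (F (T t19 (T t20 (L l54 (L l142 (L l144 (L l390 (T t224 N))))))))) (K a58 (M a192 (F (T t19 (L l54 (L l142 (L l144 (L l498 (T t37 (L l137 (T t525 N)))))))))) (K a15 (M a192 (F (T t56 (L l114 (L l483 (T t27 (L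 l142 (L l144 (L l469 (T t37 N)))))))))) N)))))))))))))))⟩
def e0_63__66_75 : Ent 4 := ⟨[a0, a63], [a66, a128], (M a48 (F (T t1 (T t2 (T t3 (T t0 (K a16 (M a60 (F (T t64 (L l14 (L l18 (L l309 (T t67 (T t65 N)))))))) (K a32 (M a60 (F (T t64 (L l309 (T t67 (L l24 (L l28 (T t65 N)))))))) (K a21 (M a154 (F (T t822 (L l47 (L l192 (L l309 (T t473 (L l47 (L l76 (T t527 N)))))))))) (K a37 (M a52 (F (T t82 (T t83 (L l21 (L l28 (T t84 N))))))) (K a53 (M a12 (F (T t151 (T t443 (L l47 (T t146 N)))))) (K a26 (M a56 (F (T t133 (T t134 (L l12 (L l18 (T t135 N))))))) (K a42 (M a154 (F (T t493 (L l28 (T t327 (L l28 (L l76 (T t527 N)))))))) (K a58 (M a12 (F (T t443 (T t122 (T t146 N))))) (K a15 (M a4 (F (T t129 (L l63 (T t528 (T t520 N)))))) N)))))))))))))))⟩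
def e0_63__66_76 : Ent 4 := ⟨[a0, a63], [a66, a129], (M a48 (L l309 (F (T t1 (T t2 (T t3 (T t0 (K a16 (M a192 (F (L l142 (T t206 (L l152 (L l217 (T t21 (L l18 (L l152 (L l340 (T t391 N))))))))))) (K a32 (M a192 (F (L l217 (T t225 (L l76 (L l142 (T t202 (L l28 (L l76 (L l376 (T t823 N))))))))))) (K a21 (M a192 (F (T t28 (L l47 (L l217 (L l347 (T t20 (L l47 (L l217 (L l347 (T t29 N))))))))))) (K a37 (M a192 (F (T t19 (L l47 (L l217 (T t20 (L l152 (L l217 (T t21 N))))))))) (K a53 (M a192 (F (T t19 (L l152 (L l217 (L l491 (T t21 (L l142 (T t31 N))))))))) (K a26 (M a192 (F (T t28 (L l217 (T t20 (L l152 (L l217 (T t21 N)))))))) (K a42 (M a192 (F (T t19 (L l217 (T t20 (L l28 (L l217 (T t29 N)))))))) (K a58 (M a192 (F (T t19 (L l152 (L l217 (T t21 (L l54 (L l142 (L l498 (T t31 N)))))))))) (K a15 (M a192 (F (L l483 (T t19 (L l217 (L l325 (T t20 (L l152 (L l217 (L l469 (T t21 N))))))))))) (K a192 (M a3 (F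 (T t607 (L l514 (T t137 (L l305 (L l489 (T t86 N)))))))) (K a3 (M a192 (F (T t607 (L l152 (L l453 (T t27 (L l217 (L l331 (T t20 N))))))))) N))))))))))))))))))⟩
def e0_63__66_77 : Ent 4 := ⟨[a0, a63], [a66, a130], (M a48 (L l306 (F (T t1 (T t2 (T t3 (T t0 (K a16 (M a106 (L l306 (F (T t585 (L l76 (L l309 (T t586 (L l18 (T t306 (K a2 (M a194 (F (T t587 (L l18 (T t306 N))))) (K a194 (M a2 (F (L l340 (T t578 (L l18 (T t824 N)))))) N))))))))))) (K a32 (M a62 (L l306 (F (T t825 (T t711 (L l20 (T t826 (K a2 (M a194 (F (T t827 (L l218 (T t828 N))))) (K a194 (M a2 (F (T t829 (L l486 (T t825 N))))) N))))))))) (K a21 (M a192 (L l306 (F (T t28 (L l47 (L l347 (T t20 (L l47 (L l347 (T t29 (K a2 (M a194 (F (T t28 (L l66 (L l347 (T t595 N)))))) (K a194 (M a2 (F (L l347 (T t225 (L l65 (L l486 (T t339 N))))))) N)))))))))))) (K a37 (M a192 (L l306 (F (T t19 (L l47 (T t20 (L l152 (T t21 (K a2 (M a194 (F (T t19 (L l66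 (T t595 N))))) (K a194 (M a2 (F (T t19 (L l47 (L l516 (T t824 N)))))) N)))))))))) (K a53 (M a2 (F (T t339 (L l47 (T t824 (L l47 (T t830 (L l35 (L l47 (T t831 N)))))))))) (K a26 (M a2 (F (T t342 (L l18 (T t824 (L l16 (L l18 (T t832 (T t833 N))))))))) (K a42 (M a106 (L l306 (F (T t585 (L l76 (T t551 (L l28 (L l76 (T t579 (K a2 (M a194 (L l66 (F (T t587 (L l28 (L l76 (T t579 (K a22 (Fr a62 a150 l516 (V t307)) (K a62 (M a22 (F (T t307 (L l28 (L l76 (T t579 (L l76 (T t551 N)))))))) N))))))))) (K a194 (M a2 (F (T t578 (L l486 (T t339 N))))) N))))))))))) (K a58 (M a2 (F (T t338 (T t342 (L l32 (L l36 (T t834 (L l32 (T t831 N))))))))) (K a15 (M a2 (F (T t338 (L l73 (T t339 (T t340 N)))))) (K a2 (M a194 (F (T t3 (L l6 (T t1 (L l66 (T t2 (L l66 (T t0 (K a16 (M a192 (F (T t600 (L l18 (T t35 N))))) (K a32 (M a192 (F (T t35 (L l42 (L l380 (T t601 N)))))) (K a21 (M a192 (F (T t28 (L l66 (L l347 (T t595 N))))))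 (K a37 (M a192 (F (T t19 (L l66 (T t595 N))))) (K a53 (M a192 (F (T t28 (L l66 (L l491 (T t595 N)))))) (K a26 (M a192 (F (T t225 (L l42 (L l72 (L l152 (T t597 N))))))) (K a42 (M a62 (F (T t602 (L l218 (T t603 N))))) (K a58 (M a192 (F (T t35 (L l36 (L l42 (T t601 N)))))) (K a15 (M a192 (F (T t33 (L l42 (L l152 (T t597 N)))))) N)))))))))))))))))) (K a194 (M a2 (F (T t2 (L l486 (T t339 (L l516 (T t824 N))))))) N))))))))))))))))))⟩
def e0_63__66_78 : Ent 4 := ⟨[a0, a63], [a66, a131], (M a48 (F (T t1 (T t2 (T t3 (T t0 (K a16 (M a60 (F (T t64 (L l14 (L l18 (L l307 (L l309 (T t67 (T t65 N))))))))) (K a32 (M a60 (F (T t64 (L l307 (L l309 (T t67 (L l24 (L l28 (T t65 N))))))))) (K a21 (M a192 (F (T t28 (L l47 (L l347 (T t20 (L l47 (L l347 (T t29 N))))))))) (K a37 (M a192 (F (T t19 (L l47 (T t20 (L l152 (T t21 N))))))) (K a53 (M a192 (F (T t19 (L l152 (L l491 (T t21 (L l142 (T t31 N)))))))) (K a26 (M a192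 (F (T t28 (T t20 (L l152 (T t21 N)))))) (K a42 (M a192 (F (T t19 (T t20 (L l28 (T t29 N)))))) (K a58 (M a192 (F (T t19 (L l152 (T t21 (L l54 (L l142 (L l498 (T t31 N))))))))) (K a15 (M a192 (F (T t56 (L l152 (L l483 (T t27 (L l152 (L l469 (T t21 N))))))))) N)))))))))))))))⟩
def e0_63__66_79 : Ent 4 := ⟨[a0, a63], [a66, a132], (M a48 (F (T t1 (T t2 (T t3 (T t0 (K a16 (M a60 (F (T t64 (L l14 (L l18 (L l309 (T t67 (T t65 N)))))))) (K a32 (M a60 (F (T t64 (L l309 (T t67 (L l24 (L l28 (T t65 N)))))))) (K a21 (M a192 (F (T t28 (L l47 (L l202 (L l347 (T t20 (L l47 (L l202 (L l347 (T t29 N))))))))))) (K a37 (M a192 (F (T t19 (L l47 (L l202 (T t20 (L l156 (L l202 (T t21 N))))))))) (K a53 (M a192 (F (T t19 (L l156 (L l202 (L l491 (T t21 (L l142 (T t31 N))))))))) (K a26 (M a192 (F (T t28 (L l202 (T t20 (L l156 (L l202 (T t21 N)))))))) (K a42 (M a192 (F (T t19 (L l202 (T t20 (L l28 (L l202 (T t29 N))))))))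 (K a58 (M a192 (F (T t19 (L l156 (L l202 (T t21 (L l54 (L l142 (L l498 (T t31 N)))))))))) (K a15 (M a192 (F (L l483 (T t19 (L l202 (L l325 (T t20 (L l156 (L l202 (L l469 (T t21 N))))))))))) N)))))))))))))))⟩
def e0_63__66_80 : Ent 4 := ⟨[a0, a63], [a66, a133], (M a12 (F (T t122 (T t151 (T t152 (T t153 (K a4 (M a60 (F (T t835 (L l46 (L l50 (L l309 (T t67 (T t448 N)))))))) (K a8 (M a60 (F (T t835 (L l309 (T t67 (L l52 (L l56 (T t448 N)))))))) (K a21 (M a192 (F (L l76 (T t836 (L l15 (L l199 (L l347 (T t450 (L l15 (L l199 (L l347 (T t157 N)))))))))))) (K a25 (M a192 (F (L l153 (T t449 (L l15 (L l199 (T t450 (L l160 (L l199 (T t21 N)))))))))) (K a29 (M a192 (F (L l153 (T t449 (L l160 (L l199 (L l371 (T t21 (L l142 (T t160 N)))))))))) (K a38 (M a192 (F (L l76 (T t836 (L l199 (T t450 (L l160 (L l199 (T t21 N))))))))) (K a42 (M a192 (F (L l153 (T t449 (L l199 (T t450 (L l56 (L l199 (T t157 N))))))))) (K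 a46 (M a192 (F (L l153 (T t449 (L l160 (L l199 (T t21 (L l26 (L l142 (L l408 (T t160 N))))))))))) (K a51 (M a192 (F (L l142 (T t155 (L l153 (L l160 (L l513 (T t156 (L l160 (L l199 (L l439 (T t21 N)))))))))))) N)))))))))))))))⟩
def e0_63__66_81 : Ent 4 := ⟨[a0, a63], [a66, a134], (M a48 (F (T t1 (T t2 (T t3 (T t0 (K a16 (M a60 (F (T t64 (L l14 (L l18 (L l309 (T t67 (T t65 N)))))))) (K a32 (M a60 (F (T t64 (L l309 (T t67 (L l24 (L l28 (T t65 N)))))))) (K a21 (M a192 (F (T t28 (L l47 (L l347 (T t20 (L l47 (L l347 (T t29 N))))))))) (K a37 (M a192 (F (T t19 (L l47 (T t20 (T t21 N)))))) (K a53 (M a192 (F (T t19 (L l491 (T t21 (L l142 (T t31 N))))))) (K a26 (M a192 (F (T t28 (T t20 (T t21 N))))) (K a42 (M a192 (F (T t19 (T t20 (L l28 (T t29 N)))))) (K a58 (M a192 (F (T t19 (T t21 (L l54 (L l142 (L l498 (T t31 N)))))))) (K a15 (M a192 (F (T t57 (L l483 (T t27 (L l325 (T t20 N))))))) N)))))))))))))))⟩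
def e0_63__66_82 : Ent 4 := ⟨[a0, a63], [a66, a135], (M a12 (F (T t122 (T t151 (T t152 (T t153 (K a4 (M a60 (F (T t570 (L l46 (L l50 (L l309 (T t67 (T t448 N)))))))) (K a8 (M a60 (F (T t570 (L l309 (T t67 (L l52 (L l56 (T t448 N)))))))) (K a21 (M a192 (F (T t468 (L l15 (L l347 (T t450 (L l15 (L l347 (T t157 N))))))))) (K a25 (M a192 (F (T t21 (L l153 (T t156 (L l15 (T t450 N))))))) (K a29 (M a192 (F (T t468 (L l371 (T t21 (L l142 (L l201 (T t160 N)))))))) (K a38 (M a192 (F (T t468 (T t450 (T t21 N))))) (K a42 (M a192 (F (T t450 (L l153 (T t156 (L l56 (T t157 N))))))) (K a46 (M a192 (F (T t468 (T t21 (L l26 (L l142 (L l201 (L l408 (T t160 N))))))))) (K a51 (M a192 (F (T t57 (L l153 (L l513 (T t156 (L l415 (T t450 N)))))))) N)))))))))))))))⟩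
def e0_63__66_83 : Ent 4 := ⟨[a0, a63], [a66, a136], (M a48 (F (T t1 (T t2 (T t3 (T t0 (K a16 (M a60 (F (T t64 (L l14 (L l18 (L l309 (T t67 (T t65 N)))))))) (K a32 (M a60 (F (T t64 (L l309 (T t67 (L l24 (L l28 (T t65 N)))))))) (K a21 (M a192 (F (T t28 (L l47 (L l347 (T t20 (L l47 (L l347 (T t29 N))))))))) (K a37 (M a192 (F (T t19 (L l47 (T t20 (L l156 (T t21 N))))))) (K a53 (M a192 (F (T t19 (L l156 (L l491 (T t21 (L l142 (T t31 N)))))))) (K a26 (M a192 (F (T t28 (T t20 (L l156 (T t21 N)))))) (K a42 (M a192 (F (T t19 (T t20 (L l28 (T t29 N)))))) (K a58 (M a192 (F (T t19 (L l156 (T t21 (L l54 (L l142 (L l498 (T t31 N))))))))) (K a15 (M a192 (F (T t56 (L l156 (L l483 (T t27 (L l156 (L l469 (T t21 N))))))))) N)))))))))))))))⟩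
def e0_63__66_84 : Ent 4 := ⟨[a0, a63], [a66, a137], (M a48 (F (T t1 (T t2 (T t3 (T t0 (K a16 (M a60 (F (T t64 (L l14 (L l18 (L l309 (L l333 (T t67 (T t65 N))))))))) (K a32 (M a60 (F (T t64 (L l309 (L l333 (T t67 (L l24 (L l28 (T t65 N))))))))) (K a21 (M a192 (F (T t28 (L l47 (L l347 (T t20 (L l47 (L l347 (T t29 N))))))))) (K a37 (M a192 (F (T t19 (L l47 (T t20 (T t21 N)))))) (K a53 (M a192 (F (T t19 (L l491 (T t21 (L l142 (T t31 N))))))) (K a26 (M a192 (F (T t28 (T t20 (T t21 N))))) (K a42 (M a192 (F (T t19 (T t20 (L l28 (T t29 N)))))) (K a58 (M a192 (F (T t19 (T t21 (L l54 (L l142 (L l498 (T t31 N)))))))) (K a15 (M a192 (F (T t57 (L l483 (T t27 (L l325 (T t20 N))))))) N)))))))))))))))⟩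
def e0_63__66_85 : Ent 4 := ⟨[a0, a63], [a66, a138], (M a48 (F (T t2 (L l318 (T t1 (T t3 (T t0 (K a16 (M a60 (F (T t64 (L l14 (L l18 (L l309 (T t67 (T t65 N)))))))) (K a32 (M a60 (F (T t64 (L l309 (T t67 (L l24 (L l28 (T t65 N)))))))) (K a21 (M a192 (F (T t28 (L l47 (L l318 (L l347 (T t20 (L l47 (L l318 (L l347 (T t29 N))))))))))) (K a37 (M a192 (F (T t19 (L l47 (L l318 (T t20 (L l160 (T t21 N)))))))) (K a53 (M a192 (F (T t19 (L l160 (L l491 (T t21 (L l142 (T t31 N)))))))) (K a26 (M a192 (F (T t28 (L l318 (T t20 (L l160 (T t21 N))))))) (K a42 (M a192 (F (T t19 (L l318 (T t20 (L l28 (L l318 (T t29 N)))))))) (K a58 (M a192 (F (T t19 (L l160 (T t21 (L l54 (L l142 (L l498 (T t31 N))))))))) (K a15 (M a192 (F (T t33 (L l160 (L l483 (T t27 (L l160 (L l469 (T t21 N))))))))) N))))))))))))))))⟩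
def e0_63__66_86 : Ent 4 := ⟨[a0, a63], [a66, a139], (M a48 (F (T t1 (T t2 (T t3 (T t0 (K a16 (M a60 (F (T t64 (L l14 (L l18 (L l309 (L l331 (T t67 (T t65 N))))))))) (K a32 (M a60 (F (T t64 (L l309 (L l331 (T t67 (L l24 (L l28 (T t65 N))))))))) (K a21 (M a192 (F (T t28 (L l47 (L l331 (L l347 (T t20 (L l47 (L l347 (T t29 N)))))))))) (K a37 (M a192 (F (T t19 (L l47 (L l331 (T t20 (T t21 N))))))) (K a53 (M a192 (F (T t19 (L l491 (T t21 (L l142 (T t31 N))))))) (K a26 (M a192 (F (T t28 (L l331 (T t20 (T t21 N)))))) (K a42 (M a192 (F (T t19 (L l331 (T t20 (L l28 (T t29 N))))))) (K a58 (M a192 (F (T t19 (T t21 (L l54 (L l142 (L l498 (T t31 N)))))))) (K a15 (M a192 (F (T t57 (L l483 (T t27 (L l325 (L l331 (T t20 N)))))))) N)))))))))))))))⟩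
def e0_63__66_87 : Ent 4 := ⟨[a0, a63], [a66, a140], (M a48 (F (T t1 (T t2 (T t3 (T t0 (K a16 (M a60 (F (T t64 (L l14 (L l18 (L l309 (T t67 (T t65 N)))))))) (K a32 (M a60 (F (T t64 (L l309 (T t67 (L l24 (L l28 (T t65 N)))))))) (K a21 (M a192 (F (T t28 (L l47 (L l347 (T t20 (L l47 (L l347 (T t29 N))))))))) (K a37 (M a192 (F (T t19 (L l47 (T t20 (L l156 (T t21 N))))))) (K a53 (M a192 (F (T t19 (L l156 (L l491 (T t21 (L l142 (T t31 N)))))))) (K a26 (M a192 (F (T t28 (T t20 (L l156 (T t21 N)))))) (K a42 (M a192 (F (T t19 (T t20 (L l28 (T t29 N)))))) (K a58 (M a192 (F (T t19 (L l156 (T t21 (L l54 (L l142 (L l498 (T t31 N))))))))) (K a15 (M a192 (F (T t56 (L l156 (L l483 (T t27 (L l156 (L l469 (T t21 N))))))))) N)))))))))))))))⟩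
def e0_63__66_88 : Ent 4 := ⟨[a0, a63], [a66, a141], (M a12 (F (T t122 (T t151 (T t152 (T t153 (K a4 (M a60 (F (T t835 (L l46 (L l50 (L l309 (T t67 (T t448 N)))))))) (K a8 (M a60 (F (T t835 (L l309 (T t67 (L l52 (L l56 (T t448 N)))))))) (K a21 (M a192 (F (L l327 (T t468 (L l15 (L l347 (T t450 (L l15 (L l347 (T t157 N)))))))))) (K a25 (M a192 (F (T t467 (L l327 (T t156 (T t21 N)))))) (K a29 (M a192 (F (T t496 (L l371 (T t21 (L l142 (T t160 N))))))) (K a38 (M a192 (F (T t21 (L l327 (T t156 (T t450 N)))))) (K a42 (M a192 (F (T t450 (L l327 (T t156 (L l56 (T t157 N))))))) (K a46 (M a192 (F (T t21 (L l327 (T t156 (L l26 (L l142 (L l408 (T t160 N))))))))) (K a51 (M a192 (F (T t576 (L l327 (L l513 (T t156 (L l439 (T t21 N)))))))) N)))))))))))))))⟩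
def e0_63__66_89 : Ent 4 := ⟨[a0, a63], [a66, a142], (M a48 (F (T t1 (T t2 (T t3 (T t0 (K a16 (M a60 (F (T t64 (L l14 (L l18 (L l309 (T t67 (T t65 N)))))))) (K a32 (M a60 (F (T t64 (L l309 (T t67 (L l24 (L l28 (T t65 N)))))))) (K a21 (M a192 (F (T t28 (L l47 (L l326 (L l347 (T t20 (L l47 (L l347 (T t29 N)))))))))) (K a37 (M a192 (F (T t19 (L l47 (L l326 (T t20 (T t21 N))))))) (K a53 (M a192 (F (T t19 (L l491 (T t21 (L l142 (T t31 N))))))) (K a26 (M a192 (F (T t28 (L l326 (T t20 (T t21 N)))))) (K a42 (M a192 (F (T t19 (L l326 (T t20 (L l28 (T t29 N))))))) (K a58 (M a192 (F (T t19 (T t21 (L l54 (L l142 (L l498 (T t31 N)))))))) (K a15 (M a192 (F (T t57 (L l483 (T t27 (L l325 (L l326 (T t20 N)))))))) N)))))))))))))))⟩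
def e0_63__66_90 : Ent 4 := ⟨[a0, a63], [a66, a143], (M a12 (F (T t122 (T t151 (T t152 (T t153 (K a4 (M a60 (F (T t570 (L l46 (L l50 (L l309 (T t67 (T t448 N)))))))) (K a8 (M a60 (F (T t570 (L l309 (T t67 (L l52 (L l56 (T t448 N)))))))) (K a21 (M a192 (F (T t468 (L l15 (L l347 (T t450 (L l15 (L l347 (T t157 N))))))))) (K a25 (M a192 (F (T t449 (L l15 (T t450 (L l160 (T t21 N))))))) (K a29 (M a192 (F (T t449 (L l160 (L l371 (T t21 (L l142 (T t160 N)))))))) (K a38 (M a192 (F (T t468 (T t450 (L l160 (T t21 N)))))) (K a42 (M a192 (F (T t449 (T t450 (L l56 (T t157 N)))))) (K a46 (M a192 (F (T t449 (L l160 (T t21 (L l26 (L l142 (L l408 (T t160 N))))))))) (K a51 (M a192 (F (T t161 (L l160 (L l513 (T t156 (L l160 (L l439 (T t21 N))))))))) N)))))))))))))))⟩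
def e0_63__66_91 : Ent 4 := ⟨[a0, a63], [a66, a148], (M a48 (F (T t1 (T t2 (T t3 (T t0 (K a16 (M a60 (F (T t64 (L l14 (L l18 (L l309 (L l346 (T t67 (T t65 N))))))))) (K a32 (M a60 (F (T t64 (L l309 (L l346 (T t67 (L l24 (L l28 (T t65 N))))))))) (K a21 (M a192 (F (L l76 (T t837 (L l47 (L l163 (L l347 (T t20 (L l47 (L l163 (L l347 (T t29 N)))))))))))) (K a37 (M a192 (F (L l166 (T t19 (L l47 (L l163 (T t20 (L l163 (L l216 (T t21 N)))))))))) (K a53 (M a192 (F (L l166 (T t19 (L l163 (L l216 (L l491 (T t21 (L l142 (T t31 N)))))))))) (K a26 (M a192 (F (L l76 (T t837 (L l163 (T t20 (L l163 (L l216 (T t21 N))))))))) (K a42 (M a192 (F (L l166 (T t19 (L l163 (T t20 (L l28 (L l163 (T t29 N))))))))) (K a58 (M a192 (F (L l166 (T t19 (L l163 (L l216 (T t21 (L l54 (L l142 (L l498 (T t31 N))))))))))) (K a15 (M a192 (F (L l142 (T t53 (L l166 (L l216 (L l483 (T t27 (L l163 (L l216 (L l469 (T t21 N)))))))))))) N)))))))))))))))⟩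
def e0_63__66_92 : Ent 4 := ⟨[a0, a63], [a66, a149], (M a48 (F (T t2 (L l347 (L l491 (T t1 (L l347 (T t3 (L l375 (T t0 (K a16 (M a60 (F (T t70 (L l14 (L l18 (L l309 (L l347 (T t67 (L l351 (T t65 N)))))))))) (K a32 (M a60 (F (T t70 (L l309 (L l347 (T t67 (L l24 (L l28 (L l351 (T t65 N)))))))))) (K a21 (M a85 (F (T t99 (L l220 (T t50 (L l47 (L l170 (L l220 (L l491 (T t544 (L l47 (L l491 (T t545 N))))))))))))) (K a37 (M a52 (F (T t82 (L l495 (T t83 (L l21 (L l28 (T t84 N)))))))) (K a53 (M a12 (L l491 (F (T t151 (T t443 (L l47 (L l347 (L l371 (T t146 (K a197 (M a101 (F (T t151 (L l236 (T t334 N))))) (K a101 (M a197 (F (T t151 (T t445 (L l47 (L l347 (L l371 (T t146 N)))))))) N))))))))))) (K a26 (M a56 (F (T t133 (L l491 (T t134 (L l12 (L l18 (L l347 (L l491 (T t135 N)))))))))) (K a42 (M a255 (F (T t546 (L l347 (T t547 (L l28 (L l220 (L l390 (L l491 (T t548 N)))))))))) (K a58 (M a12 (F (T t443 (L l347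 (L l371 (T t122 (L l347 (L l371 (T t146 N))))))))) (K a15 (M a4 (F (T t129 (L l63 (T t528 (T t520 N)))))) N)))))))))))))))))))⟩
def e0_63__66_93 : Ent 4 := ⟨[a0, a63], [a66, a150], (M a48 (F (T t1 (T t2 (T t3 (T t0 (K a16 (M a60 (F (T t64 (L l14 (L l18 (L l309 (L l350 (T t67 (T t65 N))))))))) (K a32 (M a60 (F (T t64 (L l309 (L l350 (T t67 (L l24 (L l28 (T t65 N))))))))) (K a21 (M a192 (F (T t28 (L l47 (L l163 (L l347 (T t20 (L l47 (L l163 (L l347 (T t29 N))))))))))) (K a37 (M a192 (F (T t19 (L l47 (L l163 (T t20 (L l163 (T t21 N)))))))) (K a53 (M a192 (F (T t19 (L l163 (L l491 (T t21 (L l142 (L l516 (T t31 N))))))))) (K a26 (M a192 (F (T t28 (L l163 (T t20 (L l163 (T t21 N))))))) (K a42 (M a192 (F (T t19 (L l163 (T t20 (L l28 (L l163 (T t29 N)))))))) (K a58 (M a192 (F (T t19 (L l163 (T t21 (L l54 (L l142 (L l498 (L l516 (T t31 N)))))))))) (K a15 (M a192 (F (T t36 (L l163 (L l325 (T t20 (L l163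 (L l469 (T t21 N))))))))) N)))))))))))))))⟩
def e0_63__66_94 : Ent 4 := ⟨[a0, a63], [a66, a151], (M a48 (F (T t1 (T t2 (T t3 (L l373 (T t0 (K a16 (M a60 (F (T t64 (L l14 (L l18 (L l309 (T t67 (L l349 (T t65 N))))))))) (K a32 (M a60 (F (T t64 (L l309 (T t67 (L l24 (L l28 (L l349 (T t65 N))))))))) (K a21 (M a192 (F (T t28 (L l47 (L l163 (L l347 (T t20 (L l47 (L l163 (L l347 (T t29 N))))))))))) (K a37 (M a192 (F (T t19 (L l47 (L l163 (T t20 (L l163 (T t21 N)))))))) (K a53 (M a192 (F (T t19 (L l163 (L l491 (T t21 (L l142 (L l169 (T t31 N))))))))) (K a26 (M a192 (F (T t27 (L l163 (T t20 (L l163 (T t21 N))))))) (K a42 (M a192 (F (T t19 (L l163 (T t20 (L l28 (L l163 (T t29 N)))))))) (K a58 (M a192 (F (T t19 (L l163 (T t21 (L l54 (L l142 (L l169 (L l498 (T t31 N)))))))))) (K a15 (M a192 (F (T t36 (L l163 (L l325 (T t20 (L l163 (L l469 (T t21 N))))))))) N))))))))))))))))⟩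
def e0_63__66_95 : Ent 4 := ⟨[a0, a63], [a66, a152], (M a12 (F (T t122 (T t151 (T t152 (T t153 (K a4 (M a60 (F (T t398 (L l46 (L l50 (L l309 (T t67 (T t448 N)))))))) (K a8 (M a60 (F (T t398 (L l309 (T t67 (L l52 (L l56 (T t448 N)))))))) (K a21 (M a192 (F (L l508 (T t156 (L l15 (L l347 (T t450 (L l15 (L l347 (T t157 N)))))))))) (K a25 (M a192 (F (T t467 (L l508 (T t156 (T t21 N)))))) (K a29 (M a192 (F (T t159 (L l371 (T t21 (L l142 (T t160 N))))))) (K a38 (M a192 (F (T t450 (L l508 (T t156 (T t21 N)))))) (K a42 (M a192 (F (T t450 (L l508 (T t156 (L l56 (T t157 N))))))) (K a46 (M a192 (F (T t21 (L l508 (T t156 (L l26 (L l142 (L l408 (T t160 N))))))))) (K a51 (M a192 (F (T t57 (L l508 (L l513 (T t156 (L l415 (T t450 N)))))))) N)))))))))))))))⟩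
def e0_63__66_96 : Ent 4 := ⟨[a0, a63], [a66, a153], (M a48 (F (T t1 (T t2 (T t3 (T t0 (K a16 (M a60 (F (T t277 (L l14 (L l18 (L l309 (T t67 (T t65 N)))))))) (K a32 (M a60 (F (T t277 (L l309 (T t67 (L l24 (L l28 (T t65 N)))))))) (K a21 (M a192 (F (T t28 (L l47 (L l167 (L l347 (T t20 (L l47 (L l167 (L l347 (T t29 N))))))))))) (K a37 (M a192 (F (T t19 (L l47 (L l167 (T t20 (L l167 (T t21 N)))))))) (K a53 (M a192 (F (T t19 (L l167 (L l491 (T t21 (L l142 (L l501 (T t31 N))))))))) (K a26 (M a192 (F (T t28 (L l167 (T t20 (L l167 (T t21 N))))))) (K a42 (M a192 (F (T t19 (L l167 (T t20 (L l28 (L l167 (T t29 N)))))))) (K a58 (M a192 (F (T t19 (L l167 (T t21 (L l54 (L l142 (L l498 (L l501 (T t31 N)))))))))) (K a15 (M a192 (F (T t36 (L l167 (L l325 (T t20 (L l167 (L l469 (T t21 N))))))))) N)))))))))))))))⟩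
def e0_63__66_97 : Ent 4 := ⟨[a0, a63], [a66, a154], (M a12 (F (T t122 (T t151 (T t152 (T t153 (K a4 (M a60 (F (T t398 (L l46 (L l50 (L l309 (T t67 (T t448 N)))))))) (K a8 (M a60 (F (T t398 (L l309 (T t67 (L l52 (L l56 (T t448 N)))))))) (K a21 (M a192 (F (T t468 (L l15 (L l170 (L l347 (T t450 (L l15 (L l170 (L l347 (T t157 N))))))))))) (K a25 (M a192 (F (T t449 (L l15 (L l170 (T t450 (L l170 (T t21 N)))))))) (K a29 (M a192 (F (T t449 (L l170 (L l371 (T t21 (L l142 (L l498 (T t160 N))))))))) (K a38 (M a192 (F (T t468 (L l170 (T t450 (L l170 (T t21 N))))))) (K a42 (M a192 (F (T t449 (L l170 (T t450 (L l56 (L l170 (T t157 N)))))))) (K a46 (M a192 (F (T t449 (L l170 (T t21 (L l26 (L l142 (L l408 (L l498 (T t160 N)))))))))) (K a51 (M a192 (F (T t496 (L l170 (L l415 (T t450 (L l170 (L l439 (T t21 N))))))))) N)))))))))))))))⟩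
def e0_63__66_98 : Ent 4 := ⟨[a0, a63], [a66, a155], (M a48 (F (T t1 (T t2 (T t3 (T t0 (K a16 (M a60 (F (T t138 (L l14 (L l18 (L l309 (T t67 (T t65 N)))))))) (K a32 (M a60 (F (T t138 (L l309 (T t67 (L l24 (L l28 (T t65 N)))))))) (K a21 (M a192 (F (T t28 (L l47 (L l347 (L l511 (T t20 (L l47 (L l347 (L l367 (T t29 N))))))))))) (K a37 (M a192 (F (T t19 (L l47 (L l511 (T t20 (T t21 N))))))) (K a53 (M a192 (F (T t19 (L l491 (T t21 (L l142 (L l169 (T t31 N)))))))) (K a26 (M a192 (F (T t28 (L l511 (T t20 (T t21 N)))))) (K a42 (M a192 (F (T t19 (L l511 (T t20 (L l28 (L l367 (T t29 N)))))))) (K a58 (M a192 (F (T t19 (T t21 (L l54 (L l142 (L l169 (L l498 (T t31 N))))))))) (K a15 (M a192 (F (T t57 (L l483 (T t27 (L l325 (L l511 (T t20 N)))))))) N)))))))))))))))⟩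
def e0_63__66_99 : Ent 4 := ⟨[a0, a63], [a66, a156], (M a48 (F (T t1 (T t2 (T t3 (T t0 (K a16 (M a60 (F (T t64 (L l14 (L l18 (L l309 (T t67 (T t65 N)))))))) (K a32 (M a60 (F (T t64 (L l309 (T t67 (L l24 (L l28 (T t65 N)))))))) (K a21 (M a192 (F (T t28 (L l47 (L l347 (T t20 (L l47 (L l347 (T t29 N))))))))) (K a37 (M a192 (F (T t21 (L l166 (T t27 (L l47 (T t20 N))))))) (K a53 (M a192 (F (T t28 (L l491 (T t21 (L l142 (L l165 (T t31 N)))))))) (K a26 (M a192 (F (T t28 (T t20 (T t21 N))))) (K a42 (M a192 (F (T t20 (L l166 (T t27 (L l28 (T t29 N))))))) (K a58 (M a192 (F (T t28 (T t21 (L l54 (L l142 (L l165 (L l498 (T t31 N))))))))) (K a15 (M a192 (F (T t57 (L l166 (L l483 (T t27 (L l325 (T t20 N)))))))) N)))))))))))))))⟩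
def e0_63__66_100 : Ent 4 := ⟨[a0, a63], [a66, a157], (M a48 (F (T t1 (T t2 (T t3 (L l363 (T t0 (K a16 (M a60 (F (T t42 (L l14 (L l18 (L l309 (T t67 (T t65 N)))))))) (K a32 (M a60 (F (T t42 (L l309 (T t67 (L l24 (L l28 (T t65 N)))))))) (K a21 (M a192 (F (T t28 (L l47 (L l167 (L l347 (T t20 (L l47 (L l167 (L l347 (T t29 N))))))))))) (K a37 (M a192 (F (T t19 (L l47 (L l167 (T t20 (L l167 (T t21 N)))))))) (K a53 (M a192 (F (T t19 (L l167 (L l491 (T t21 (L l142 (L l165 (T t31 N))))))))) (K a26 (M a192 (F (T t27 (L l167 (T t20 (L l167 (T t21 N))))))) (K a42 (M a192 (F (T t19 (L l167 (T t20 (L l28 (L l167 (T t29 N)))))))) (K a58 (M a192 (F (T t19 (L l167 (T t21 (L l54 (L l142 (L l165 (L l498 (T t31 N)))))))))) (K a15 (M a192 (F (T t36 (L l167 (L l325 (T t20 (L l167 (L l469 (T t21 N))))))))) N))))))))))))))))⟩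
def e0_63__66_101 : Ent 4 := ⟨[a0, a63], [a66, a158], (M a48 (F (T t1 (T t2 (T t3 (T t0 (K a16 (M a60 (F (T t64 (L l14 (L l18 (L l309 (T t67 (T t65 N)))))))) (K a32 (M a60 (F (T t64 (L l309 (T t67 (L l24 (L l28 (T t65 N)))))))) (K a21 (M a192 (F (T t28 (L l47 (L l347 (L l506 (T t20 (L l47 (L l347 (L l362 (T t29 N))))))))))) (K a37 (M a192 (F (T t19 (L l47 (L l506 (T t20 (T t21 N))))))) (K a53 (M a192 (F (T t19 (L l491 (T t21 (L l142 (L l165 (T t31 N)))))))) (K a26 (M a192 (F (T t28 (L l506 (T t20 (T t21 N)))))) (K a42 (M a192 (F (T t19 (L l506 (T t20 (L l28 (L l362 (T t29 N)))))))) (K a58 (M a192 (F (T t19 (T t21 (L l54 (L l142 (L l165 (L l498 (T t31 N))))))))) (K a15 (M a192 (F (T t57 (L l483 (T t27 (L l325 (L l506 (T t20 N)))))))) N)))))))))))))))⟩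
def e0_63__66_102 : Ent 4 := ⟨[a0, a63], [a66, a159], (M a48 (F (T t1 (T t2 (T t3 (L l361 (T t0 (K a16 (M a60 (F (T t64 (L l14 (L l18 (L l309 (T t67 (T t65 N)))))))) (K a32 (M a60 (F (T t64 (L l309 (T t67 (L l24 (L l28 (T t65 N)))))))) (K a21 (M a192 (F (T t28 (L l47 (L l170 (L l347 (T t20 (L l18 (L l142 (T t224 N)))))))))) (K a37 (M a192 (F (L l76 (T t837 (L l47 (L l170 (T t20 (L l76 (L l142 (L l213 (T t202 N))))))))))) (K a53 (M a192 (F (T t28 (L l76 (L l142 (L l213 (T t202 (L l47 (L l170 (L l491 (T t838 N))))))))))) (K a26 (M a192 (F (T t28 (L l170 (T t20 (L l76 (L l142 (L l213 (T t202 N))))))))) (K a42 (M a192 (F (L l170 (T t20 (L l76 (T t837 (L l54 (L l142 (L l390 (T t224 N)))))))))) (K a58 (M a192 (F (T t28 (L l76 (L l142 (L l213 (L l498 (T t202 (L l170 (T t838 N)))))))))) (K a15 (M a192 (F (L l483 (T t28 (L l170 (L l325 (T t20 (L l76 (L l142 (L l213 (L l469 (T t202 N)))))))))))) N))))))))))))))))⟩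
def e0_63__66_103 : Ent 4 := ⟨[a0, a63], [a66, a168], (M a48 (F (T t1 (T t2 (T t3 (L l400 (T t0 (K a16 (M a60 (F (T t64 (L l14 (L l18 (L l309 (T t67 (L l388 (T t65 N))))))))) (K a32 (M a60 (L l400 (F (T t64 (L l309 (T t67 (L l24 (L l28 (L l388 (T t65 (K a100 (M a236 (F (T t64 (L l28 (L l309 (T t69 (T t44 N))))))) (K a236 (M a100 (F (T t116 (L l286 (L l394 (T t549 N)))))) N)))))))))))) (K a21 (M a192 (F (L l18 (T t19 (L l47 (L l347 (T t20 (L l47 (L l347 (L l400 (T t29 N))))))))))) (K a37 (M a192 (F (T t19 (L l47 (T t20 (L l216 (T t21 N))))))) (K a53 (M a192 (F (T t19 (L l216 (L l491 (T t21 (L l142 (T t31 N)))))))) (K a26 (M a192 (F (T t20 (L l216 (T t27 (L l216 (T t21 N))))))) (K a42 (M a192 (F (T t19 (T t20 (L l28 (L l400 (T t29 N))))))) (K a58 (M a192 (F (T t19 (L l216 (T t21 (L l54 (L l142 (L l498 (T t31 N))))))))) (K a15 (M a192 (F (T t56 (L l216 (L l483 (T t27 (L l216 (L l469 (T t21 N)))))))))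 N))))))))))))))))⟩
def e0_63__66_104 : Ent 4 := ⟨[a0, a63], [a66, a169], (M a48 (F (T t1 (T t2 (T t3 (T t0 (K a16 (M a60 (F (T t64 (L l14 (L l18 (L l309 (L l393 (L l477 (T t67 (T t65 N)))))))))) (K a32 (M a60 (F (T t64 (L l309 (L l393 (L l477 (T t67 (L l24 (L l28 (T t65 N)))))))))) (K a21 (M a192 (F (T t28 (L l47 (L l217 (L l347 (T t20 (L l47 (L l217 (L l347 (T t29 N))))))))))) (K a37 (M a192 (F (T t19 (L l47 (L l217 (T t20 (L l217 (T t21 N)))))))) (K a53 (M a192 (F (T t19 (L l217 (L l491 (T t21 (L l142 (L l393 (T t31 N))))))))) (K a26 (M a192 (F (T t28 (L l217 (T t20 (L l217 (T t21 N))))))) (K a42 (M a192 (F (T t19 (L l217 (T t20 (L l28 (L l217 (T t29 N)))))))) (K a58 (M a192 (F (T t19 (L l217 (T t21 (L l54 (L l142 (L l393 (L l498 (T t31 N)))))))))) (K a15 (M a192 (F (T t36 (L l217 (L l325 (T t20 (L l217 (L l469 (T t21 N))))))))) N)))))))))))))))⟩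
def e0_63__66_105 : Ent 4 := ⟨[a0, a63], [a66, a170], (M a48 (F (T t3 (L l462 (T t1 (L l390 (T t2 (L l390 (L l404 (T t0 (K a16 (M a60 (F (T t64 (L l14 (L l18 (L l309 (T t67 (L l390 (L l392 (T t65 N)))))))))) (K a32 (M a62 (L l404 (F (T t825 (L l306 (L l309 (L l474 (T t709 (L l20 (L l402 (T t826 (K a101 (M a239 (F (T t711 (L l491 (T t825 (L l20 (L l402 (L l491 (T t826 N))))))))) (K a239 (M a101 (F (T t711 (L l220 (L l289 (T t336 N)))))) N))))))))))))) (K a21 (M a192 (F (L l18 (T t19 (L l142 (L l390 (T t206 (L l47 (L l220 (L l347 (L l404 (T t29 N)))))))))))) (K a37 (M a192 (F (T t19 (L l142 (L l390 (T t206 (L l28 (L l47 (L l220 (L l404 (T t29 N))))))))))) (K a53 (M a12 (F (T t550 (L l47 (L l402 (T t122 (L l47 (L l402 (T t146 N))))))))) (K a26 (M a192 (F (L l18 (T t19 (L l54 (L l142 (L l390 (T t206 (L l220 (L l404 (T t29 N))))))))))) (K a42 (M a106 (F (T t304 (L l76 (L l220 (T t551 (L l28 (L l76 (L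 l206 (L l220 (L l404 (T t552 (L l28 (L l206 (L l404 (T t553 N)))))))))))))))) (K a58 (M a12 (F (T t445 (L l402 (T t122 (L l402 (T t146 N))))))) (K a15 (M a192 (F (L l483 (T t19 (L l142 (L l325 (L l390 (T t206 (L l220 (L l404 (T t29 N))))))))))) N)))))))))))))))))))⟩
def e0_63__66_106 : Ent 4 := ⟨[a0, a63], [a66, a171], (M a48 (F (T t1 (T t2 (T t3 (T t0 (K a16 (M a60 (F (T t64 (L l14 (L l18 (L l309 (L l391 (L l475 (T t67 (T t65 N)))))))))) (K a32 (M a60 (F (T t64 (L l309 (L l391 (L l475 (T t67 (L l24 (L l28 (T t65 N)))))))))) (K a21 (M a192 (F (T t28 (L l47 (L l347 (T t20 (L l47 (L l347 (T t29 N))))))))) (K a37 (M a192 (F (T t19 (L l47 (T t20 (L l475 (T t21 N))))))) (K a53 (M a192 (F (T t19 (L l475 (L l491 (T t21 (L l142 (T t31 N)))))))) (K a26 (M a192 (F (T t28 (T t20 (L l475 (T t21 N)))))) (K a42 (M a192 (F (T t19 (T t20 (L l28 (T t29 N)))))) (K a58 (M a192 (F (T t19 (L l475 (T t21 (L l54 (L l142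 (L l498 (T t31 N))))))))) (K a15 (M a192 (F (T t57 (L l483 (T t27 (L l325 (T t20 N))))))) N)))))))))))))))⟩
def e0_63__66_107 : Ent 4 := ⟨[a0, a63], [a66, a172], (M a48 (F (T t1 (T t2 (T t3 (T t0 (K a16 (M a60 (F (T t64 (L l14 (L l18 (L l309 (T t67 (T t65 N)))))))) (K a32 (M a60 (F (T t64 (L l309 (T t67 (L l24 (L l28 (T t65 N)))))))) (K a21 (M a192 (F (T t28 (L l47 (L l347 (T t20 (L l47 (L l347 (T t29 N))))))))) (K a37 (M a192 (F (T t19 (L l47 (T t20 (T t21 N)))))) (K a53 (M a192 (F (T t19 (L l491 (T t21 (L l142 (T t31 N))))))) (K a26 (M a192 (F (T t28 (T t20 (T t21 N))))) (K a42 (M a192 (F (T t19 (T t20 (L l28 (T t29 N)))))) (K a58 (M a192 (F (T t19 (T t21 (L l54 (L l142 (L l498 (T t31 N)))))))) (K a15 (M a192 (F (T t57 (L l483 (T t27 (L l325 (T t20 N))))))) N)))))))))))))))⟩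
def e0_63__66_108 : Ent 4 := ⟨[a0, a63], [a66, a173], (M a12 (F (T t122 (T t151 (T t152 (T t153 (K a4 (M a60 (F (T t835 (L l46 (L l50 (L l309 (T t67 (T t448 N)))))))) (K a8 (M a60 (F (T t835 (L l309 (T t67 (L l52 (L l56 (T t448 N)))))))) (K a21 (M a192 (F (T t468 (L l15 (L l347 (T t450 (L l15 (L l347 (T t157 N))))))))) (K a25 (M a192 (F (T t449 (L l15 (T t450 (T t21 N)))))) (K a29 (M a192 (F (T t449 (L l371 (T t21 (L l142 (T t160 N))))))) (K a38 (M a192 (F (T t468 (T t450 (T t21 N))))) (K a42 (M a192 (F (T t449 (T t450 (L l56 (T t157 N)))))) (K a46 (M a192 (F (T t449 (T t21 (L l26 (L l142 (L l408 (T t160 N)))))))) (K a51 (M a192 (F (T t57 (L l513 (T t156 (L l415 (T t450 N))))))) N)))))))))))))))⟩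
def e0_63__66_109 : Ent 4 := ⟨[a0, a63], [a66, a174], (M a48 (F (T t1 (T t2 (T t3 (T t0 (K a16 (M a60 (F (T t64 (L l14 (L l18 (L l309 (T t67 (T t65 N)))))))) (K a32 (M a60 (F (T t64 (L l309 (T t67 (L l24 (L l28 (T t65 N)))))))) (K a21 (M a192 (F (T t28 (L l47 (L l347 (T t20 (L l47 (L l347 (T t29 N))))))))) (K a37 (M a192 (F (T t19 (L l47 (T t20 (L l470 (T t21 N))))))) (K a53 (M a192 (F (T t19 (L l470 (L l491 (T t21 (L l142 (T t31 N)))))))) (K a26 (M a192 (F (T t28 (T t20 (L l470 (T t21 N)))))) (K a42 (M a192 (F (T t19 (T t20 (L l28 (T t29 N)))))) (K a58 (M a192 (F (T t19 (L l470 (T t21 (L l54 (L l142 (L l498 (T t31 N))))))))) (K a15 (M a192 (F (T t57 (L l483 (T t27 (L l325 (T t20 N))))))) N)))))))))))))))⟩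
def e0_63__66_110 : Ent 4 := ⟨[a0, a63], [a66, a175], (M a12 (F (T t122 (T t151 (T t152 (T t153 (K a4 (M a60 (F (T t570 (L l46 (L l50 (L l309 (T t67 (T t448 N)))))))) (K a8 (M a60 (F (T t570 (L l309 (T t67 (L l52 (L l56 (T t448 N)))))))) (K a21 (M a192 (F (T t468 (L l15 (L l347 (T t450 (L l15 (L l347 (T t157 N))))))))) (K a25 (M a192 (F (T t449 (L l15 (T t450 (L l469 (T t21 N))))))) (K a29 (M a192 (F (T t449 (L l371 (L l469 (T t21 (L l142 (T t160 N)))))))) (K a38 (M a192 (F (T t468 (T t450 (L l469 (T t21 N)))))) (K a42 (M a192 (F (T t449 (T t450 (L l56 (T t157 N)))))) (K a46 (M a192 (F (T t449 (L l469 (T t21 (L l26 (L l142 (L l408 (T t160 N))))))))) (K a51 (M a192 (F (T t57 (L l513 (T t156 (L l415 (T t450 N))))))) N)))))))))))))))⟩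
def e0_63__66_111 : Ent 4 := ⟨[a0, a63], [a66, a188], (M a48 (F (T t1 (T t2 (T t3 (T t0 (K a16 (M a60 (F (T t64 (L l14 (L l18 (L l309 (T t67 (T t65 N)))))))) (K a32 (M a60 (F (T t64 (L l309 (T t67 (L l24 (L l28 (T t65 N)))))))) (K a21 (M a192 (F (T t28 (L l47 (L l347 (T t20 (L l47 (L l347 (T t29 N))))))))) (K a37 (M a192 (F (T t19 (L l47 (T t20 (L l216 (T t21 N))))))) (K a53 (M a192 (F (T t19 (L l216 (L l491 (T t21 (L l142 (T t31 N)))))))) (K a26 (M a192 (F (T t28 (T t20 (L l216 (T t21 N)))))) (K a42 (M a192 (F (T t19 (T t20 (L l28 (T t29 N)))))) (K a58 (M a192 (F (T t19 (L l216 (T t21 (L l54 (L l142 (L l498 (T t31 N))))))))) (K a15 (M a192 (F (T t56 (L l216 (L l483 (T t27 (L l216 (L l469 (T t21 N))))))))) N)))))))))))))))⟩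
def e0_63__66_112 : Ent 4 := ⟨[a0, a63], [a66, a189], (M a48 (F (T t1 (T t2 (T t3 (T t0 (K a16 (M a60 (F (T t42 (L l14 (L l18 (L l309 (T t67 (T t65 N)))))))) (K a32 (M a60 (F (T t42 (L l309 (T t67 (L l24 (L l28 (T t65 N)))))))) (K a21 (M a192 (F (T t28 (L l47 (L l217 (L l347 (T t20 (L l47 (L l217 (L l347 (T t29 N))))))))))) (K a37 (M a192 (F (T t19 (L l47 (L l217 (T t20 (L l217 (T t21 N)))))))) (K a53 (M a192 (F (T t19 (L l217 (L l491 (T t21 (L l142 (T t31 N)))))))) (K a26 (M a192 (F (T t27 (L l217 (T t20 (L l217 (T t21 N))))))) (K a42 (M a192 (F (T t19 (L l217 (T t20 (L l28 (L l217 (T t29 N)))))))) (K a58 (M a192 (F (T t19 (L l217 (T t21 (L l54 (L l142 (L l498 (T t31 N))))))))) (K a15 (M a192 (F (T t36 (L l217 (L l325 (T t20 (L l217 (L l469 (T t21 N))))))))) N)))))))))))))))⟩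
def e0_63__66_113 : Ent 4 := ⟨[a0, a63], [a66, a190], (M a48 (F (T t1 (T t2 (T t3 (T t0 (K a16 (M a60 (F (T t64 (L l14 (L l18 (L l309 (T t67 (T t65 N)))))))) (K a32 (M a60 (F (T t64 (L l309 (T t67 (L l24 (L l28 (T t65 N)))))))) (K a21 (M a192 (F (T t28 (L l47 (L l347 (T t20 (L l47 (L l347 (T t29 N))))))))) (K a37 (M a192 (F (T t19 (L l47 (T t20 (L l434 (T t21 N))))))) (K a53 (M a192 (F (T t19 (L l434 (L l491 (T t21 (L l142 (T t31 N)))))))) (K a26 (M a192 (F (T t28 (T t20 (L l434 (T t21 N)))))) (K a42 (M a192 (F (T t19 (T t20 (L l28 (T t29 N)))))) (K a58 (M a192 (F (T t19 (L l434 (T t21 (L l54 (L l142 (L l498 (T t31 N))))))))) (K a15 (M a192 (F (T t57 (L l483 (T t27 (L l325 (T t20 N))))))) N)))))))))))))))⟩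
def e0_63__66_114 : Ent 4 := ⟨[a0, a63], [a66, a191], (M a48 (F (T t1 (T t2 (T t3 (T t0 (K a16 (M a60 (F (T t64 (L l14 (L l18 (L l309 (T t67 (T t65 N)))))))) (K a32 (M a60 (F (T t64 (L l309 (T t67 (L l24 (L l28 (T t65 N)))))))) (K a21 (M a192 (F (T t28 (L l142 (T t206 (L l47 (L l220 (L l347 (T t29 N))))))))) (K a37 (M a192 (F (T t19 (L l142 (T t206 (L l47 (L l220 (T t35 N)))))))) (K a53 (M a192 (F (T t19 (L l47 (L l220 (L l491 (T t35 (L l142 (L l213 (T t31 N)))))))))) (K a26 (M a192 (F (T t28 (L l54 (L l142 (T t206 (L l18 (L l220 (T t35 N))))))))) (K a42 (M a192 (F (T t19 (L l54 (L l142 (L l390 (T t206 (L l28 (L l220 (T t29 N)))))))))) (K a58 (M a192 (F (T t19 (L l220 (T t35 (L l54 (L l142 (L l213 (L l498 (T t31 N)))))))))) (K a15 (M a192 (F (L l483 (T t19 (L l142 (L l325 (T t206 (L l220 (L l469 (T t35 N)))))))))) N)))))))))))))))⟩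
def e0_63__66_115 : Ent 4 := ⟨[a0, a63], [a66, a192], (M a3 (F (T t632 (L l514 (T t137 (L l514 (T t353 (L l306 (L l514 (T t665 (L l514 (T t358 (K a60 (M a16 (L l514 (F (T t112 (L l39 (L l489 (T t839 (T t840 (K a148 (M a104 (F (T t112 (L l39 (L l489 (T t839 (T t840 N))))))) (K a104 (M a148 (F (T t112 (L l39 (L l489 (T t839 (T t840 N))))))) N)))))))))) (K a1 (M a51 (F (T t841 (L l339 (T t842 (T t843 N)))))) (K a21 (M a255 (F (T t844 (L l292 (T t845 (L l292 (L l347 (T t846 N)))))))) (K a41 (M a48 (F (L l22 (T t610 (L l29 (L l489 (T t348 (L l25 (L l65 (T t847 N)))))))))) (K a2 (M a51 (L l306 (F (T t848 (L l339 (T t842 (L l42 (L l66 (T t843 (K a130 (M a194 (F (T t849 (L l334 (T t592 (T t850 N)))))) (K a194 (M a130 (L l228 (F (T t848 (L l76 (L l272 (T t851 (K a193 (Fr a195 a65 l308 (V t852)) (K a195 (M a193 (F (T t853 (L l334 (L l338 (T t592 (T t850 N))))))) N))))))))) N))))))))))) (K a22 (M a48 (F (T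 t797 (L l11 (L l339 (T t1 (L l16 (L l66 (T t345 N))))))))) (K a42 (M a255 (F (T t854 (L l22 (L l228 (T t855 (L l22 (L l292 (T t846 N))))))))) (K a23 (M a48 (F (T t132 (L l489 (T t86 (L l11 (T t847 N))))))) (K a43 (M a48 (F (T t48 (L l489 (T t86 (T t847 N)))))) N)))))))))))))))))))))⟩
def e0_63__66_116 : Ent 4 := ⟨[a0, a63], [a66, a193], (M a48 (F (T t1 (T t2 (T t3 (T t0 (K a16 (M a60 (F (T t42 (L l14 (L l18 (L l309 (T t67 (T t65 N)))))))) (K a32 (M a60 (F (T t42 (L l309 (T t67 (L l24 (L l28 (T t65 N)))))))) (K a21 (M a192 (F (T t28 (L l47 (L l347 (L l515 (T t20 (L l47 (L l347 (L l515 (T t29 N))))))))))) (K a37 (M a192 (F (T t19 (L l47 (L l515 (T t20 (L l515 (T t21 N)))))))) (K a53 (M a192 (F (T t19 (L l491 (L l515 (T t21 (L l142 (L l293 (T t31 N))))))))) (K a26 (M a192 (F (T t28 (L l515 (T t20 (L l515 (T t21 N))))))) (K a42 (M a192 (F (T t19 (L l515 (T t20 (L l28 (L l515 (T t29 N)))))))) (K a58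 (M a192 (F (T t19 (L l515 (T t21 (L l54 (L l142 (L l293 (L l498 (T t31 N)))))))))) (K a15 (M a192 (F (T t36 (L l325 (L l515 (T t20 (L l469 (L l515 (T t21 N))))))))) N)))))))))))))))⟩
def e0_63__66_117 : Ent 4 := ⟨[a0, a63], [a66, a194], (M a48 (L l306 (F (T t1 (T t2 (T t3 (T t0 (K a16 (M a85 (L l306 (F (T t168 (T t50 (T t51 (K a2 (M a130 (F (T t856 (L l66 (T t51 N))))) (K a130 (M a2 (F (L l294 (T t857 (T t51 N))))) N)))))))) (K a32 (M a85 (L l306 (F (L l294 (T t52 (L l404 (T t50 (L l28 (T t51 (K a2 (M a130 (F (L l76 (T t858 (L l28 (L l66 (T t51 N))))))) (K a130 (M a2 (F (L l294 (T t857 (L l28 (T t51 N)))))) N))))))))))) (K a21 (M a192 (L l306 (F (T t28 (L l47 (L l234 (L l347 (T t20 (L l47 (L l234 (L l347 (T t29 (K a2 (M a130 (F (L l347 (T t225 (L l76 (T t596 N)))))) (K a130 (M a2 (F (L l347 (T t225 (L l65 (L l486 (T t339 N))))))) N)))))))))))))) (K a37 (M a3 (L l306 (F (T t348 (L l47 (T t353 (L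 l25 (L l28 (T t87 (K a2 (M a130 (F (L l76 (T t596 (L l25 (L l28 (L l66 (T t87 (L l76 (T t859 N)))))))))) (K a130 (Fr a2 a1 l0 (V t860)) N))))))))))) (K a53 (M a2 (F (T t342 (L l47 (L l516 (T t824 (L l47 (L l486 (L l516 (T t830 (L l35 (L l47 (T t831 N))))))))))))) (K a26 (M a2 (F (T t342 (L l18 (L l516 (T t824 (L l16 (L l18 (T t832 (T t833 N)))))))))) (K a42 (M a106 (L l306 (F (T t578 (L l28 (L l76 (L l234 (T t579 (L l76 (T t551 (K a2 (M a130 (L l66 (F (T t578 (L l76 (T t596 (K a22 (M a62 (F (T t578 (L l76 (T t596 N))))) (K a62 (M a22 (F (T t578 (L l76 (T t596 N))))) N)))))))) (K a130 (M a2 (F (T t578 (L l486 (T t339 N))))) N)))))))))))) (K a58 (M a2 (F (T t338 (T t342 (L l32 (L l36 (L l516 (T t834 (L l32 (T t831 N)))))))))) (K a15 (M a2 (F (T t338 (L l73 (L l486 (T t339 (T t340 N))))))) (K a2 (M a130 (F (T t3 (L l76 (T t596 (L l66 (L l76 (T t604 (K a16 (M a176 (F (T t605 (L l76 (L l309 (T t606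 N)))))) N))))))))) (K a130 (M a2 (F (T t2 (L l486 (T t339 (L l516 (T t824 N))))))) N))))))))))))))))))⟩
def e0_63__66_118 : Ent 4 := ⟨[a0, a63], [a66, a195], (M a48 (F (T t48 (L l337 (T t1 (L l337 (T t2 (L l337 (T t3 (L l337 (T t0 (K a16 (M a60 (F (T t138 (L l14 (L l18 (L l307 (L l309 (T t67 (T t65 N))))))))) (K a32 (M a60 (F (T t138 (L l307 (L l309 (T t67 (L l24 (L l28 (T t65 N))))))))) (K a21 (M a192 (F (L l273 (T t28 (L l47 (L l235 (L l347 (T t20 (L l47 (L l347 (T t29 N))))))))))) (K a37 (M a192 (F (T t36 (L l47 (L l235 (T t20 (L l295 (T t21 N)))))))) (K a53 (M a192 (F (T t36 (L l295 (L l491 (T t21 (L l142 (T t31 N)))))))) (K a26 (M a192 (F (T t56 (L l273 (T t27 (L l295 (T t21 N))))))) (K a42 (M a192 (F (T t56 (L l273 (T t27 (L l28 (T t29 N))))))) (K a58 (M a192 (F (T t57 (L l273 (T t27 (L l54 (L l142 (L l498 (T t31 N))))))))) (K a15 (M a192 (L l337 (F (T t57 (L l273 (L l483 (T t27 (L l235 (L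 l325 (T t20 (K a135 (M a75 (F (T t47 (L l142 (L l235 (L l325 (T t22 (L l273 (L l483 (T t28 N)))))))))) (K a75 (M a135 (F (T t47 (L l142 (L l235 (L l325 (T t22 (L l273 (L l483 (T t28 N)))))))))) N)))))))))))) N))))))))))))))))))))⟩
def e0_63__66_119 : Ent 4 := ⟨[a0, a63], [a66, a196], (M a48 (F (T t1 (T t2 (T t3 (T t0 (K a16 (M a60 (F (T t64 (L l14 (L l18 (L l309 (T t67 (T t65 N)))))))) (K a32 (M a60 (F (T t64 (L l309 (T t67 (L l24 (L l28 (T t65 N)))))))) (K a21 (M a192 (F (T t28 (L l47 (L l347 (L l495 (T t20 (L l47 (L l347 (L l495 (T t29 N))))))))))) (K a37 (M a192 (F (T t19 (L l47 (L l495 (T t20 (L l495 (T t21 N)))))))) (K a53 (M a192 (F (T t19 (L l491 (L l495 (T t21 (L l142 (L l278 (T t31 N))))))))) (K a26 (M a192 (F (T t28 (L l495 (T t20 (L l495 (T t21 N))))))) (K a42 (M a192 (F (T t19 (L l495 (T t20 (L l28 (L l495 (T t29 N)))))))) (K a58 (M a192 (F (T t19 (L l495 (T t21 (L l54 (L l142 (L l278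 (L l498 (T t31 N)))))))))) (K a15 (M a192 (F (T t36 (L l325 (L l495 (T t20 (L l469 (L l495 (T t21 N))))))))) N)))))))))))))))⟩
def e0_63__66_120 : Ent 4 := ⟨[a0, a63], [a66, a197], (M a48 (F (T t3 (L l491 (T t1 (L l311 (T t2 (T t0 (K a16 (M a60 (F (T t70 (L l14 (L l18 (L l309 (T t67 (L l311 (T t65 N))))))))) (K a32 (M a60 (F (T t70 (L l309 (T t67 (L l24 (L l28 (L l311 (T t65 N))))))))) (K a21 (M a192 (F (T t27 (L l347 (L l491 (T t225 (L l347 (L l491 (T t861 N))))))))) (K a37 (M a192 (F (T t19 (L l491 (T t225 (L l491 (T t21 N))))))) (K a53 (M a149 (F (L l275 (T t25 (L l142 (T t13 (L l275 (T t26 N)))))))) (K a26 (M a192 (F (T t28 (L l491 (T t225 (L l491 (T t21 N))))))) (K a42 (M a192 (F (T t27 (L l491 (T t225 (L l28 (L l491 (T t861 N)))))))) (K a58 (M a192 (F (T t19 (L l491 (T t21 (L l54 (L l142 (L l275 (L l498 (T t31 N)))))))))) (K a15 (M a192 (F (T t55 (L l325 (L l491 (T t225 (L l469 (L l491 (T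 t21 N))))))))) N)))))))))))))))))⟩
def e0_63__66_121 : Ent 4 := ⟨[a0, a63], [a66, a198], (M a48 (F (T t1 (T t2 (T t3 (T t0 (K a16 (M a60 (F (T t64 (L l14 (L l18 (L l309 (T t67 (T t65 N)))))))) (K a32 (M a60 (F (T t64 (L l309 (T t67 (L l24 (L l28 (T t65 N)))))))) (K a21 (M a192 (F (T t28 (L l47 (L l234 (L l347 (T t20 (L l47 (L l234 (L l347 (T t29 N))))))))))) (K a37 (M a192 (F (T t19 (L l47 (L l234 (T t20 (T t21 N))))))) (K a53 (M a192 (F (T t19 (L l491 (T t21 (L l142 (T t31 N))))))) (K a26 (M a192 (F (T t28 (L l234 (T t20 (T t21 N)))))) (K a42 (M a192 (F (T t19 (L l234 (T t20 (L l28 (L l234 (T t29 N)))))))) (K a58 (M a192 (F (T t19 (T t21 (L l54 (L l142 (L l498 (T t31 N)))))))) (K a15 (M a192 (F (T t57 (L l483 (T t27 (L l234 (L l325 (T t20 N)))))))) N)))))))))))))))⟩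
def e0_63__66_122 : Ent 4 := ⟨[a0, a63], [a66, a199], (M a48 (F (T t1 (T t2 (T t3 (T t0 (K a16 (M a60 (F (T t64 (L l14 (L l18 (L l309 (T t67 (T t65 N)))))))) (K a32 (M a60 (F (T t64 (L l309 (T t67 (L l24 (L l28 (T t65 N)))))))) (K a21 (M a192 (F (T t28 (L l47 (L l235 (L l347 (T t20 (L l47 (L l347 (T t29 N)))))))))) (K a37 (M a192 (F (T t19 (L l47 (L l235 (T t20 (T t21 N))))))) (K a53 (M a192 (F (T t19 (L l491 (T t21 (L l142 (T t31 N))))))) (K a26 (M a192 (F (T t28 (L l235 (T t20 (T t21 N)))))) (K a42 (M a192 (F (T t19 (L l235 (T t20 (L l28 (T t29 N))))))) (K a58 (M a192 (F (T t19 (T t21 (L l54 (L l142 (L l498 (T t31 N)))))))) (K a15 (M a192 (F (T t57 (L l483 (T t27 (L l235 (L l325 (T t20 N)))))))) N)))))))))))))))⟩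
def e0_63__66_123 : Ent 4 := ⟨[a0, a63], [a66, a200], (M a48 (F (T t1 (T t2 (T t3 (T t0 (K a16 (M a60 (F (T t64 (L l14 (L l18 (L l309 (T t67 (T t65 N)))))))) (K a32 (M a60 (F (T t64 (L l309 (T t67 (L l24 (L l28 (T t65 N)))))))) (K a21 (M a192 (F (T t28 (L l47 (L l230 (L l347 (T t20 (L l47 (L l230 (L l347 (T t29 N))))))))))) (K a37 (M a192 (F (T t19 (L l47 (L l230 (T t20 (T t21 N))))))) (K a53 (M a192 (F (T t19 (L l491 (T t21 (L l142 (L l501 (T t31 N)))))))) (K a26 (M a192 (F (T t28 (L l230 (T t20 (T t21 N)))))) (K a42 (M a192 (F (T t19 (L l230 (T t20 (L l28 (L l230 (T t29 N)))))))) (K a58 (M a192 (F (T t19 (T t21 (L l54 (L l142 (L l498 (L l501 (T t31 N))))))))) (K a15 (M a192 (F (T t47 (L l483 (T t27 (L l230 (L l325 (T t20 N)))))))) N)))))))))))))))⟩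
def e0_63__66_124 : Ent 4 := ⟨[a0, a63], [a66, a201], (M a48 (F (T t1 (T t2 (T t3 (T t0 (K a16 (M a60 (F (T t64 (L l14 (L l18 (L l309 (T t67 (T t65 N)))))))) (K a32 (M a60 (F (T t64 (L l309 (T t67 (L l24 (L l28 (T t65 N)))))))) (K a21 (M a192 (F (T t28 (L l47 (L l230 (L l347 (T t20 (L l47 (L l230 (L l347 (T t29 N))))))))))) (K a37 (M a192 (F (T t19 (L l47 (L l230 (T t20 (T t21 N))))))) (K a53 (M a192 (F (T t19 (L l491 (T t21 (L l142 (T t31 N))))))) (K a26 (M a192 (F (T t28 (L l230 (T t20 (T t21 N)))))) (K a42 (M a192 (F (T t19 (L l230 (T t20 (L l28 (L l230 (T t29 N)))))))) (K a58 (M a192 (F (T t19 (T t21 (L l54 (L l142 (L l498 (T t31 N)))))))) (K a15 (M a192 (F (T t57 (L l483 (T t27 (L l230 (L l325 (T t20 N)))))))) N)))))))))))))))⟩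
def e0_63__66_125 : Ent 4 := ⟨[a0, a63], [a66, a202], (M a48 (F (T t3 (L l318 (T t1 (L l498 (T t2 (T t0 (K a16 (M a60 (F (T t64 (L l14 (L l18 (L l309 (T t67 (L l498 (T t65 N))))))))) (K a32 (M a60 (F (T t64 (L l309 (T t67 (L l24 (L l28 (L l498 (T t65 N))))))))) (K a21 (M a192 (F (T t27 (L l142 (L l498 (T t22 (L l18 (L l76 (L l142 (L l498 (T t46 N))))))))))) (K a37 (M a192 (F (T t19 (L l142 (L l498 (T t22 (T t21 N))))))) (K a53 (M a192 (F (T t19 (L l491 (T t21 (L l142 (L l498 (T t31 N)))))))) (K a26 (M a192 (F (T t28 (L l142 (L l498 (T t22 (T t21 N))))))) (K a42 (M a192 (F (T t27 (L l142 (L l390 (L l498 (T t22 (L l76 (L l142 (L l390 (L l498 (T t46 N)))))))))))) (K a58 (M a106 (F (T t564 (L l76 (T t551 (L l282 (T t599 N))))))) (K a15 (M a192 (F (T t55 (L l142 (L l325 (L l498 (T t22 (L l469 (T t21 N))))))))) N)))))))))))))))))⟩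
def e0_63__66_126 : Ent 4 := ⟨[a0, a63], [a66, a203], (M a48 (F (T t1 (T t2 (T t3 (T t0 (K a16 (M a60 (F (T t64 (L l14 (L l18 (L l309 (T t67 (T t65 N)))))))) (K a32 (M a60 (F (T t64 (L l309 (T t67 (L l24 (L l28 (T t65 N)))))))) (K a21 (M a192 (F (T t28 (L l47 (L l230 (L l235 (L l347 (T t20 (L l47 (L l230 (L l347 (T t29 N)))))))))))) (K a37 (M a192 (F (T t19 (L l47 (L l230 (L l235 (T t20 (T t21 N)))))))) (K a53 (M a192 (F (T t19 (L l491 (T t21 (L l142 (T t31 N))))))) (K a26 (M a192 (F (T t28 (L l230 (L l235 (T t20 (T t21 N))))))) (K a42 (M a192 (F (T t19 (L l230 (L l235 (T t20 (L l28 (L l230 (T t29 N))))))))) (K a58 (M a192 (F (T t19 (T t21 (L l54 (L l142 (L l498 (T t31 N)))))))) (K a15 (M a192 (F (T t57 (L l483 (T t27 (L l230 (L l235 (L l325 (T t20 N))))))))) N)))))))))))))))⟩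
def e0_63__66_127 : Ent 4 := ⟨[a0, a63], [a66, a204], (M a12 (F (T t150 (L l513 (T t122 (L l513 (T t151 (L l513 (T t152 (L l513 (T t153 (K a4 (M a60 (F (T t570 (L l46 (L l50 (L l309 (L l333 (T t67 (T t448 N))))))))) (K a8 (M a60 (F (T t570 (L l309 (L l333 (T t67 (L l52 (L l56 (T t448 N))))))))) (K a21 (M a89 (F (T t862 (L l50 (L l302 (T t863 (L l50 (T t864 N)))))))) (K a25 (M a48 (F (T t865 (L l15 (L l327 (T t1 (L l12 (L l56 (T t866 N))))))))) (K a29 (M a48 (F (T t145 (L l15 (L l327 (T t1 (T t866 N))))))) (K a38 (M a48 (F (T t867 (L l26 (L l327 (T t2 (L l21 (L l50 (T t868 N))))))))) (K a42 (M a89 (F (T t869 (L l26 (L l232 (L l309 (T t870 (L l26 (T t864 N))))))))) (K a46 (M a48 (F (T t48 (L l502 (T t443 (L l26 (T t866 N))))))) (K a51 (M a16 (L l513 (F (T t112 (L l39 (L l502 (T t871 (T t872 (K a153 (M a102 (F (T t112 (L l39 (L l502 (T t871 (T t872 N))))))) (K a102 (M a153 (F (T t112 (L l39 (L l502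 (T t871 (T t872 N))))))) N)))))))))) N))))))))))))))))))))⟩
def e0_63__66_128 : Ent 4 := ⟨[a0, a63], [a66, a205], (M a48 (F (T t1 (T t2 (T t3 (T t0 (K a16 (M a60 (F (T t42 (L l14 (L l18 (L l309 (T t67 (T t65 N)))))))) (K a32 (M a60 (F (T t42 (L l309 (T t67 (L l24 (L l28 (T t65 N)))))))) (K a21 (M a192 (F (T t28 (L l47 (L l231 (L l347 (T t20 (L l47 (L l347 (T t29 N)))))))))) (K a37 (M a192 (F (T t19 (L l47 (L l231 (T t20 (T t21 N))))))) (K a53 (M a192 (F (T t19 (L l491 (T t21 (L l142 (T t31 N))))))) (K a26 (M a192 (F (T t28 (L l231 (T t20 (T t21 N)))))) (K a42 (M a192 (F (T t19 (L l231 (T t20 (L l28 (T t29 N))))))) (K a58 (M a192 (F (T t19 (T t21 (L l54 (L l142 (L l498 (T t31 N)))))))) (K a15 (M a192 (F (T t57 (L l483 (T t27 (L l231 (L l325 (T t20 N)))))))) N)))))))))))))))⟩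
def e0_63__66_129 : Ent 4 := ⟨[a0, a63], [a66, a206], (M a48 (F (T t1 (T t2 (T t3 (T t0 (K a16 (M a60 (F (T t42 (L l14 (L l18 (L l309 (T t67 (T t65 N)))))))) (K a32 (M a60 (F (T t42 (L l309 (T t67 (L l24 (L l28 (T t65 N)))))))) (K a21 (M a192 (F (T t28 (L l47 (L l231 (L l234 (L l347 (T t20 (L l47 (L l234 (L l347 (T t29 N)))))))))))) (K a37 (M a192 (F (T t19 (L l47 (L l231 (L l234 (T t20 (T t21 N)))))))) (K a53 (M a192 (F (T t19 (L l491 (T t21 (L l142 (T t31 N))))))) (K a26 (M a192 (F (T t28 (L l231 (L l234 (T t20 (T t21 N))))))) (K a42 (M a192 (F (T t19 (L l231 (L l234 (T t20 (L l28 (L l234 (T t29 N))))))))) (K a58 (M a192 (F (T t19 (T t21 (L l54 (L l142 (L l498 (T t31 N)))))))) (K a15 (M a192 (F (T t57 (L l483 (T t27 (L l231 (L l234 (L l325 (T t20 N))))))))) N)))))))))))))))⟩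
def e0_63__66_130 : Ent 4 := ⟨[a0, a63], [a66, a207], (M a12 (F (T t150 (L l511 (T t122 (L l511 (T t151 (L l511 (T t152 (L l511 (T t153 (K a4 (M a60 (F (T t570 (L l46 (L l50 (L l309 (L l331 (T t67 (T t448 N))))))))) (K a8 (M a60 (F (T t570 (L l309 (L l331 (T t67 (L l52 (L l56 (T t448 N))))))))) (K a21 (M a192 (F (L l231 (T t468 (L l15 (L l301 (L l347 (T t450 (L l15 (L l347 (T t157 N))))))))))) (K a25 (M a192 (F (T t496 (L l15 (L l301 (T t450 (L l289 (T t21 N)))))))) (K a29 (M a192 (F (T t496 (L l289 (L l371 (T t21 (L l142 (T t160 N)))))))) (K a38 (M a192 (F (T t161 (L l231 (T t156 (L l289 (T t21 N))))))) (K a42 (M a192 (F (T t161 (L l231 (T t156 (L l56 (T t157 N))))))) (K a46 (M a192 (F (T t57 (L l231 (T t156 (L l26 (L l142 (L l408 (T t160 N))))))))) (K a51 (M a192 (L l511 (F (T t57 (L l231 (L l513 (T t156 (L l301 (L l415 (T t450 (K a103 (M a155 (F (T t47 (L l142 (L l301 (L l415 (T t543 (L l231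 (L l513 (T t468 N)))))))))) (K a155 (M a103 (F (T t47 (L l142 (L l301 (L l415 (T t543 (L l231 (L l513 (T t468 N)))))))))) N)))))))))))) N))))))))))))))))))))⟩
def e0_63__66_131 : Ent 4 := ⟨[a0, a63], [a66, a212], (M a48 (F (T t1 (T t2 (T t3 (T t0 (K a16 (M a60 (F (T t64 (L l14 (L l18 (L l309 (L l346 (T t67 (L l351 (T t65 N)))))))))) (K a32 (M a60 (F (T t64 (L l309 (L l346 (T t67 (L l24 (L l28 (L l351 (T t65 N)))))))))) (K a21 (M a192 (F (T t27 (L l47 (L l347 (L l351 (T t20 (L l47 (L l347 (L l351 (T t29 N))))))))))) (K a37 (M a192 (F (T t19 (L l47 (L l351 (T t20 (L l351 (T t21 N)))))))) (K a53 (M a192 (F (T t19 (L l351 (L l491 (T t21 (L l142 (L l239 (T t31 N))))))))) (K a26 (M a192 (F (T t27 (L l351 (T t20 (L l351 (T t21 N))))))) (K a42 (M a192 (F (T t19 (L l351 (T t20 (L l28 (L l351 (T t29 N)))))))) (K a58 (M a192 (F (T t19 (L l351 (T t21 (L l54 (L l142 (L l239 (L l498 (T t31 N)))))))))) (K a15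 (M a192 (F (T t36 (L l325 (L l351 (T t20 (L l351 (L l469 (T t21 N))))))))) N)))))))))))))))⟩
def e0_63__66_132 : Ent 4 := ⟨[a0, a63], [a66, a213], (M a48 (F (T t2 (L l347 (T t1 (L l347 (T t3 (T t0 (K a16 (M a60 (F (T t64 (L l14 (L l18 (L l309 (L l347 (T t67 (T t65 N))))))))) (K a32 (M a60 (F (T t64 (L l309 (L l347 (T t67 (L l24 (L l28 (T t65 N))))))))) (K a21 (M a85 (F (T t873 (L l47 (L l246 (T t100 (T t50 N))))))) (K a37 (M a192 (F (T t19 (L l47 (L l347 (T t20 (L l347 (T t21 N)))))))) (K a53 (M a192 (F (T t27 (L l347 (L l491 (T t21 (L l347 (L l491 (T t575 N))))))))) (K a26 (M a192 (F (T t27 (L l347 (T t20 (L l347 (T t21 N))))))) (K a42 (M a192 (F (T t19 (L l347 (T t20 (L l28 (L l246 (L l347 (T t29 N))))))))) (K a58 (M a192 (F (T t27 (L l347 (T t21 (L l347 (T t575 N))))))) (K a15 (M a192 (F (T t36 (L l325 (L l347 (T t20 (L l347 (L l469 (T t21 N))))))))) N)))))))))))))))))⟩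
def e0_63__66_133 : Ent 4 := ⟨[a0, a63], [a66, a214], (M a48 (F (T t1 (T t2 (T t3 (T t0 (K a16 (M a60 (F (T t64 (L l14 (L l18 (L l309 (T t67 (T t65 N)))))))) (K a32 (M a60 (F (T t64 (L l309 (T t67 (L l24 (L l28 (T t65 N)))))))) (K a21 (M a192 (F (T t28 (L l47 (L l347 (T t20 (L l47 (L l347 (T t29 N))))))))) (K a37 (M a192 (F (T t19 (L l47 (T t20 (T t21 N)))))) (K a53 (M a192 (F (T t19 (L l491 (T t21 (L l142 (L l239 (T t31 N)))))))) (K a26 (M a192 (F (T t28 (T t20 (T t21 N))))) (K a42 (M a192 (F (T t19 (T t20 (L l28 (T t29 N)))))) (K a58 (M a192 (F (T t19 (T t21 (L l54 (L l142 (L l239 (L l498 (T t31 N))))))))) (K a15 (M a192 (F (T t47 (L l483 (T t27 (L l325 (T t20 N))))))) N)))))))))))))))⟩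
def e0_63__66_134 : Ent 4 := ⟨[a0, a63], [a66, a215], (M a48 (F (T t1 (T t2 (T t3 (T t0 (K a16 (M a60 (F (T t64 (L l14 (L l18 (L l309 (L l350 (T t67 (L l349 (T t65 N)))))))))) (K a32 (M a60 (F (T t64 (L l309 (L l350 (T t67 (L l24 (L l28 (L l349 (T t65 N)))))))))) (K a21 (M a192 (F (T t28 (L l47 (L l347 (T t20 (L l47 (L l245 (L l347 (T t29 N)))))))))) (K a37 (M a192 (F (T t19 (L l47 (T t20 (L l295 (T t21 N))))))) (K a53 (M a192 (F (T t19 (L l295 (L l491 (T t21 (L l142 (L l239 (T t31 N))))))))) (K a26 (M a192 (F (T t28 (T t20 (L l295 (T t21 N)))))) (K a42 (M a192 (F (T t19 (T t20 (L l28 (L l245 (T t29 N))))))) (K a58 (M a192 (F (T t19 (L l295 (T t21 (L l54 (L l142 (L l239 (L l498 (T t31 N)))))))))) (K a15 (M a85 (F (T t567 (L l239 (L l245 (T t568 N)))))) N)))))))))))))))⟩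
def e0_63__66_135 : Ent 4 := ⟨[a0, a63], [a66, a216], (M a48 (F (T t1 (T t2 (T t3 (T t0 (K a16 (M a60 (F (T t64 (L l14 (L l18 (L l309 (T t67 (T t65 N)))))))) (K a32 (M a60 (F (T t64 (L l309 (T t67 (L l24 (L l28 (T t65 N)))))))) (K a21 (M a192 (F (L l347 (T t225 (L l298 (T t27 (L l47 (L l347 (T t29 N))))))))) (K a37 (M a192 (F (T t225 (L l298 (T t27 (T t21 N)))))) (K a53 (M a192 (F (T t36 (L l491 (T t21 (L l142 (T t31 N))))))) (K a26 (M a192 (F (T t20 (L l298 (T t27 (T t21 N)))))) (K a42 (M a192 (F (T t20 (L l298 (T t27 (L l28 (T t29 N))))))) (K a58 (M a192 (F (T t21 (L l298 (T t27 (L l54 (L l142 (L l498 (T t31 N))))))))) (K a15 (M a192 (F (T t33 (L l298 (L l483 (T t27 (L l469 (T t21 N)))))))) N)))))))))))))))⟩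
def e0_63__66_136 : Ent 4 := ⟨[a0, a63], [a66, a217], (M a48 (F (T t1 (T t2 (T t3 (T t0 (K a16 (M a60 (F (T t64 (L l14 (L l18 (L l309 (T t67 (T t65 N)))))))) (K a32 (M a60 (F (T t64 (L l309 (T t67 (L l24 (L l28 (T t65 N)))))))) (K a21 (M a192 (F (T t28 (L l47 (L l347 (T t20 (L l47 (L l347 (T t29 N))))))))) (K a37 (M a192 (F (T t19 (L l47 (T t20 (T t21 N)))))) (K a53 (M a192 (F (T t19 (L l491 (T t21 (L l142 (L l243 (T t31 N)))))))) (K a26 (M a192 (F (T t28 (T t20 (T t21 N))))) (K a42 (M a192 (F (T t19 (T t20 (L l28 (T t29 N)))))) (K a58 (M a192 (F (T t19 (T t21 (L l54 (L l142 (L l243 (L l498 (T t31 N))))))))) (K a15 (M a192 (F (T t47 (L l483 (T t27 (L l325 (T t20 N))))))) N)))))))))))))))⟩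
def e0_63__66_137 : Ent 4 := ⟨[a0, a63], [a66, a218], (M a48 (F (T t1 (T t2 (T t3 (T t0 (K a16 (M a60 (F (T t64 (L l14 (L l18 (L l309 (T t67 (T t65 N)))))))) (K a32 (M a60 (F (T t64 (L l309 (T t67 (L l24 (L l28 (T t65 N)))))))) (K a21 (M a192 (F (L l303 (T t27 (L l47 (L l347 (T t33 (L l47 (L l246 (L l282 (L l347 (T t29 N)))))))))))) (K a37 (M a192 (F (T t21 (L l303 (T t27 (L l47 (L l282 (L l303 (T t20 N))))))))) (K a53 (M a192 (F (T t55 (L l491 (T t21 (L l142 (L l246 (T t31 N)))))))) (K a26 (M a154 (F (T t517 (L l282 (L l309 (T t473 (L l76 (L l246 (L l282 (T t527 N)))))))))) (K a42 (M a192 (F (T t33 (T t55 (L l28 (L l246 (L l282 (T t29 N)))))))) (K a58 (M a192 (F (T t21 (L l303 (T t27 (L l54 (L l142 (L l246 (L l498 (T t31 N)))))))))) (K a15 (M a192 (F (T t33 (L l469 (T t21 (L l303 (L l483 (T t27 N)))))))) N)))))))))))))))⟩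
def e0_63__66_138 : Ent 4 := ⟨[a0, a63], [a66, a219], (M a48 (F (T t1 (T t2 (T t3 (T t0 (K a16 (M a60 (F (T t64 (L l14 (L l18 (L l309 (T t67 (T t65 N)))))))) (K a32 (M a60 (F (T t64 (L l309 (T t67 (L l24 (L l28 (T t65 N)))))))) (K a21 (M a192 (F (T t28 (L l47 (L l301 (L l347 (T t20 (L l47 (L l245 (L l347 (T t29 N))))))))))) (K a37 (M a192 (F (T t19 (L l47 (L l301 (T t20 (T t21 N))))))) (K a53 (M a192 (F (T t19 (L l491 (T t21 (L l142 (T t31 N))))))) (K a26 (M a192 (F (T t28 (L l301 (T t20 (T t21 N)))))) (K a42 (M a192 (F (T t19 (L l301 (T t20 (L l28 (L l245 (T t29 N)))))))) (K a58 (M a192 (F (T t19 (T t21 (L l54 (L l142 (L l498 (T t31 N)))))))) (K a15 (M a192 (F (T t57 (L l483 (T t27 (L l301 (L l325 (T t20 N)))))))) N)))))))))))))))⟩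
def e0_63__66_139 : Ent 4 := ⟨[a0, a63], [a66, a220], (M a12 (F (T t122 (T t151 (T t152 (T t153 (K a4 (M a60 (F (T t398 (L l46 (L l50 (L l309 (T t67 (T t448 N)))))))) (K a8 (M a60 (F (T t398 (L l309 (T t67 (L l52 (L l56 (T t448 N)))))))) (K a21 (M a192 (F (L l286 (T t468 (L l15 (L l347 (T t450 (L l15 (L l347 (T t157 N)))))))))) (K a25 (M a192 (F (T t467 (L l286 (T t156 (T t21 N)))))) (K a29 (M a192 (F (T t496 (L l371 (T t21 (L l142 (T t160 N))))))) (K a38 (M a192 (F (T t21 (L l286 (T t156 (T t450 N)))))) (K a42 (M a192 (F (T t450 (L l286 (T t156 (L l56 (T t157 N))))))) (K a46 (M a192 (F (T t21 (L l286 (T t156 (L l26 (L l142 (L l408 (T t160 N))))))))) (K a51 (M a192 (F (T t161 (L l286 (L l513 (T t156 (L l439 (T t21 N)))))))) N)))))))))))))))⟩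
def e0_63__66_140 : Ent 4 := ⟨[a0, a63], [a66, a221], (M a48 (F (T t1 (T t2 (T t3 (T t0 (K a16 (M a60 (F (T t64 (L l14 (L l18 (L l309 (T t67 (T t65 N)))))))) (K a32 (M a60 (F (T t64 (L l309 (T t67 (L l24 (L l28 (T t65 N)))))))) (K a21 (M a192 (F (T t28 (L l47 (L l347 (T t20 (L l47 (L l241 (L l347 (T t29 N)))))))))) (K a37 (M a192 (F (T t19 (L l47 (T t20 (L l290 (T t21 N))))))) (K a53 (M a192 (F (T t19 (L l290 (L l491 (T t21 (L l142 (L l243 (T t31 N))))))))) (K a26 (M a192 (F (T t28 (T t20 (L l290 (T t21 N)))))) (K a42 (M a192 (F (T t19 (T t20 (L l28 (L l241 (T t29 N))))))) (K a58 (M a192 (F (T t19 (L l290 (T t21 (L l54 (L l142 (L l243 (L l498 (T t31 N)))))))))) (K a15 (M a85 (F (T t567 (L l241 (L l243 (T t568 N)))))) N)))))))))))))))⟩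
def e0_63__66_141 : Ent 4 := ⟨[a0, a63], [a66, a222], (M a48 (F (T t1 (T t2 (T t3 (T t0 (K a16 (M a60 (F (T t64 (L l14 (L l18 (L l309 (T t67 (T t65 N)))))))) (K a32 (M a60 (F (T t64 (L l309 (T t67 (L l24 (L l28 (T t65 N)))))))) (K a21 (M a192 (F (T t28 (L l47 (L l291 (L l347 (T t20 (L l47 (L l241 (L l347 (T t29 N))))))))))) (K a37 (M a192 (F (T t19 (L l47 (L l291 (T t20 (T t21 N))))))) (K a53 (M a192 (F (T t19 (L l491 (T t21 (L l142 (T t31 N))))))) (K a26 (M a192 (F (T t28 (L l291 (T t20 (T t21 N)))))) (K a42 (M a192 (F (T t19 (L l291 (T t20 (L l28 (L l241 (T t29 N)))))))) (K a58 (M a192 (F (T t19 (T t21 (L l54 (L l142 (L l498 (T t31 N)))))))) (K a15 (M a192 (F (T t57 (L l483 (T t27 (L l291 (L l325 (T t20 N)))))))) N)))))))))))))))⟩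
def e0_63__66_142 : Ent 4 := ⟨[a0, a63], [a66, a223], (M a48 (F (T t1 (T t2 (L l368 (T t3 (L l361 (T t0 (K a16 (M a85 (F (T t50 (L l18 (L l289 (T t52 (L l246 (T t51 N)))))))) (K a32 (M a60 (F (T t64 (L l309 (T t67 (L l24 (L l28 (T t65 N)))))))) (K a21 (M a192 (F (T t27 (L l47 (L l289 (L l347 (T t20 (L l18 (L l142 (L l289 (L l368 (T t224 N)))))))))))) (K a37 (M a192 (F (T t27 (L l47 (L l289 (T t20 (L l289 (T t21 N)))))))) (K a53 (M a192 (F (T t27 (L l289 (L l491 (T t21 (L l47 (L l491 (T t525 N))))))))) (K a26 (M a192 (F (T t27 (L l289 (T t20 (L l289 (T t21 N))))))) (K a42 (M a192 (F (T t27 (L l289 (T t20 (L l54 (L l142 (L l289 (L l368 (L l390 (T t224 N))))))))))) (K a58 (M a192 (F (T t27 (L l289 (T t21 (T t525 N)))))) (K a15 (M a192 (F (T t56 (L l483 (T t27 (L l289 (L l469 (T t21 N)))))))) N)))))))))))))))))⟩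
def e0_63__66_143 : Ent 4 := ⟨[a0, a63], [a66, a232], (M a48 (F (T t1 (T t2 (T t3 (T t0 (K a16 (M a60 (F (T t64 (L l14 (L l18 (L l309 (L l393 (T t67 (L l388 (T t65 N)))))))))) (K a32 (M a60 (F (T t64 (L l309 (L l393 (T t67 (L l24 (L l28 (L l388 (T t65 N)))))))))) (K a21 (M a192 (F (T t28 (L l47 (L l347 (T t20 (L l47 (L l347 (T t29 N))))))))) (K a37 (M a192 (F (T t225 (T t27 (T t21 N))))) (K a53 (M a192 (F (T t28 (L l491 (T t21 (L l142 (L l393 (T t31 N)))))))) (K a26 (M a192 (F (T t28 (T t20 (T t21 N))))) (K a42 (M a192 (F (T t27 (T t20 (L l28 (T t29 N)))))) (K a58 (M a192 (F (T t27 (T t21 (L l54 (L l142 (L l393 (L l498 (T t31 N))))))))) (K a15 (M a192 (F (T t47 (L l483 (T t27 (L l325 (T t20 N))))))) N)))))))))))))))⟩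
def e0_63__66_144 : Ent 4 := ⟨[a0, a63], [a66, a233], (M a48 (F (T t1 (T t2 (T t3 (T t0 (K a16 (M a60 (F (T t64 (L l14 (L l18 (L l309 (T t67 (T t65 N)))))))) (K a32 (M a60 (F (T t64 (L l309 (T t67 (L l24 (L l28 (T t65 N)))))))) (K a21 (M a192 (F (T t28 (L l47 (L l347 (T t20 (L l47 (L l347 (T t29 N))))))))) (K a37 (M a192 (F (T t19 (L l47 (T t20 (T t21 N)))))) (K a53 (M a192 (F (T t19 (L l491 (T t21 (L l142 (L l293 (T t31 N)))))))) (K a26 (M a192 (F (T t28 (T t20 (T t21 N))))) (K a42 (M a192 (F (T t19 (T t20 (L l28 (T t29 N)))))) (K a58 (M a192 (F (T t19 (T t21 (L l54 (L l142 (L l293 (L l498 (T t31 N))))))))) (K a15 (M a192 (F (T t47 (L l483 (T t27 (L l325 (T t20 N))))))) N)))))))))))))))⟩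
def e0_63__66_145 : Ent 4 := ⟨[a0, a63], [a66, a234], (M a48 (F (T t1 (L l390 (T t2 (T t3 (L l390 (T t0 (K a16 (M a60 (F (T t64 (L l14 (L l18 (L l309 (T t67 (L l390 (T t65 N))))))))) (K a32 (M a60 (F (T t64 (L l309 (T t67 (L l24 (L l28 (L l390 (T t65 N))))))))) (K a21 (M a192 (F (T t27 (L l47 (L l282 (L l347 (T t20 (L l47 (L l282 (L l347 (T t29 N))))))))))) (K a37 (M a192 (F (T t225 (T t27 (L l76 (L l142 (L l390 (T t202 N)))))))) (K a53 (M a192 (F (T t27 (L l76 (L l142 (L l390 (T t202 (L l142 (L l390 (T t577 N)))))))))) (K a26 (M a192 (F (T t27 (L l282 (T t20 (L l76 (L l142 (L l390 (T t202 N))))))))) (K a42 (M a106 (F (T t578 (L l28 (L l76 (L l282 (T t579 (L l76 (T t551 N))))))))) (K a58 (M a192 (F (T t27 (L l76 (L l142 (L l390 (L l498 (T t202 (L l142 (L l390 (L l498 (T t577 N)))))))))))) (K a15 (M a192 (F (T t55 (L l282 (L l325 (T t20 (L l76 (L l142 (L l390 (L l469 (T t202 N))))))))))) N)))))))))))))))))⟩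
def e0_63__66_146 : Ent 4 := ⟨[a0, a63], [a66, a235], (M a48 (F (T t1 (T t2 (T t3 (T t0 (K a16 (M a60 (F (T t64 (L l14 (L l18 (L l309 (L l391 (T t67 (L l392 (T t65 N)))))))))) (K a32 (M a60 (F (T t64 (L l309 (L l391 (T t67 (L l24 (L l28 (L l392 (T t65 N)))))))))) (K a21 (M a192 (F (T t28 (L l47 (L l347 (T t20 (L l47 (L l347 (T t29 N))))))))) (K a37 (M a192 (F (T t19 (L l47 (T t20 (L l295 (T t21 N))))))) (K a53 (M a192 (F (T t19 (L l295 (L l491 (T t21 (L l142 (T t31 N)))))))) (K a26 (M a192 (F (T t27 (T t20 (L l295 (T t21 N)))))) (K a42 (M a192 (F (T t19 (T t20 (L l28 (T t29 N)))))) (K a58 (M a192 (F (T t19 (L l295 (T t21 (L l54 (L l142 (L l498 (T t31 N))))))))) (K a15 (M a192 (F (T t47 (L l483 (T t27 (L l325 (T t20 N))))))) N)))))))))))))))⟩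
def e0_63__66_147 : Ent 4 := ⟨[a0, a63], [a66, a236], (M a12 (F (T t122 (T t151 (T t152 (T t153 (K a4 (M a60 (F (T t398 (L l46 (L l50 (L l309 (T t67 (T t448 N)))))))) (K a8 (M a60 (F (T t398 (L l309 (T t67 (L l52 (L l56 (T t448 N)))))))) (K a21 (M a192 (F (L l286 (T t468 (L l15 (L l347 (T t450 (L l15 (L l347 (T t157 N)))))))))) (K a25 (M a192 (F (T t467 (L l286 (T t156 (T t21 N)))))) (K a29 (M a192 (F (T t496 (L l371 (T t21 (L l142 (T t160 N))))))) (K a38 (M a192 (F (T t21 (L l286 (T t156 (T t450 N)))))) (K a42 (M a192 (F (T t450 (L l286 (T t156 (L l56 (T t157 N))))))) (K a46 (M a192 (F (T t21 (L l286 (T t156 (L l26 (L l142 (L l408 (T t160 N))))))))) (K a51 (M a192 (F (T t161 (L l286 (L l513 (T t156 (L l439 (T t21 N)))))))) N)))))))))))))))⟩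
def e0_63__66_148 : Ent 4 := ⟨[a0, a63], [a66, a237], (M a48 (F (T t1 (T t2 (T t3 (T t0 (K a16 (M a60 (F (T t64 (L l14 (L l18 (L l309 (T t67 (T t65 N)))))))) (K a32 (M a60 (F (T t64 (L l309 (T t67 (L l24 (L l28 (T t65 N)))))))) (K a21 (M a192 (F (T t28 (L l47 (L l291 (L l347 (T t20 (L l47 (L l347 (T t29 N)))))))))) (K a37 (M a192 (F (T t19 (L l47 (L l291 (T t20 (T t21 N))))))) (K a53 (M a192 (F (T t19 (L l491 (T t21 (L l142 (T t31 N))))))) (K a26 (M a192 (F (T t28 (L l291 (T t20 (T t21 N)))))) (K a42 (M a192 (F (T t19 (L l291 (T t20 (L l28 (T t29 N))))))) (K a58 (M a192 (F (T t19 (T t21 (L l54 (L l142 (L l498 (T t31 N)))))))) (K a15 (M a192 (F (T t57 (L l483 (T t27 (L l291 (L l325 (T t20 N)))))))) N)))))))))))))))⟩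
def e0_63__66_149 : Ent 4 := ⟨[a0, a63], [a66, a238], (M a48 (F (T t1 (T t2 (T t3 (T t0 (K a16 (M a60 (F (T t64 (L l14 (L l18 (L l309 (T t67 (T t65 N)))))))) (K a32 (M a60 (F (T t64 (L l309 (T t67 (L l24 (L l28 (T t65 N)))))))) (K a21 (M a192 (F (T t28 (L l47 (L l347 (T t20 (L l47 (L l347 (T t29 N))))))))) (K a37 (M a192 (F (T t19 (L l47 (T t20 (L l290 (T t21 N))))))) (K a53 (M a192 (F (T t19 (L l290 (L l491 (T t21 (L l142 (T t31 N)))))))) (K a26 (M a192 (F (T t27 (T t20 (L l290 (T t21 N)))))) (K a42 (M a192 (F (T t19 (T t20 (L l28 (T t29 N)))))) (K a58 (M a192 (F (T t19 (L l290 (T t21 (L l54 (L l142 (L l498 (T t31 N))))))))) (K a15 (M a192 (F (T t47 (L l483 (T t27 (L l325 (T t20 N))))))) N)))))))))))))))⟩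
def e0_63__66_150 : Ent 4 := ⟨[a0, a63], [a66, a239], (M a48 (F (T t1 (T t2 (L l397 (T t3 (L l404 (T t0 (K a16 (M a60 (F (T t64 (L l14 (L l18 (L l309 (T t67 (T t65 N)))))))) (K a32 (M a170 (F (T t874 (T t514 (L l256 (T t580 N)))))) (K a21 (M a192 (F (T t27 (L l47 (L l289 (L l347 (T t20 (L l47 (L l289 (L l347 (L l404 (T t29 N)))))))))))) (K a37 (M a192 (F (T t27 (L l47 (L l289 (T t20 (L l289 (T t21 N)))))))) (K a53 (M a192 (F (T t27 (L l289 (L l491 (T t21 (L l142 (T t31 N)))))))) (K a26 (M a192 (F (T t27 (L l289 (T t20 (L l289 (T t21 N))))))) (K a42 (M a192 (F (T t27 (L l289 (T t20 (L l28 (L l289 (L l404 (T t29 N))))))))) (K a58 (M a192 (F (T t27 (L l289 (T t21 (L l54 (L l142 (L l498 (T t31 N))))))))) (K a15 (M a192 (F (T t56 (L l483 (T t27 (L l289 (L l469 (T t21 N)))))))) N)))))))))))))))))⟩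
def e0_63__66_151 : Ent 4 := ⟨[a0, a63], [a66, a252], (M a48 (F (T t48 (L l471 (T t1 (L l471 (T t2 (L l471 (T t3 (L l471 (T t0 (K a16 (M a60 (F (T t138 (L l14 (L l18 (L l309 (L l477 (T t67 (T t65 N))))))))) (K a32 (M a60 (F (T t138 (L l309 (L l477 (T t67 (L l24 (L l28 (T t65 N))))))))) (K a21 (M a192 (F (L l262 (T t28 (L l47 (L l291 (L l347 (T t20 (L l47 (L l347 (T t29 N))))))))))) (K a37 (M a192 (F (T t36 (L l47 (L l291 (T t20 (L l261 (T t21 N)))))))) (K a53 (M a192 (F (T t36 (L l261 (L l491 (T t21 (L l142 (T t31 N)))))))) (K a26 (M a192 (F (T t56 (L l262 (T t27 (L l261 (T t21 N))))))) (K a42 (M a192 (F (T t56 (L l262 (T t27 (L l28 (T t29 N))))))) (K a58 (M a192 (F (T t57 (L l262 (T t27 (L l54 (L l142 (L l498 (T t31 N))))))))) (K a15 (M a192 (L l471 (F (T t57 (L l262 (L l483 (T t27 (L l291 (L l325 (T t20 (K a173 (M a94 (F (T t47 (L l142 (L l291 (L l325 (T t22 (L l262 (L l483 (T t28 N))))))))))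 (K a94 (M a173 (F (T t47 (L l142 (L l291 (L l325 (T t22 (L l262 (L l483 (T t28 N)))))))))) N)))))))))))) N))))))))))))))))))))⟩
def e0_63__66_152 : Ent 4 := ⟨[a0, a63], [a66, a253], (M a48 (F (T t1 (T t2 (T t3 (T t0 (K a16 (M a60 (F (T t42 (L l14 (L l18 (L l309 (T t67 (T t65 N)))))))) (K a32 (M a60 (F (T t42 (L l309 (T t67 (L l24 (L l28 (T t65 N)))))))) (K a21 (M a192 (F (T t28 (L l47 (L l347 (T t20 (L l47 (L l347 (T t29 N))))))))) (K a37 (M a192 (F (T t19 (L l47 (T t20 (L l261 (T t21 N))))))) (K a53 (M a192 (F (T t19 (L l261 (L l491 (T t21 (L l142 (L l293 (T t31 N))))))))) (K a26 (M a192 (F (T t28 (T t20 (L l261 (T t21 N)))))) (K a42 (M a192 (F (T t19 (T t20 (L l28 (T t29 N)))))) (K a58 (M a192 (F (T t19 (L l261 (T t21 (L l54 (L l142 (L l293 (L l498 (T t31 N)))))))))) (K a15 (M a192 (F (T t57 (L l483 (T t27 (L l325 (T t20 N))))))) N)))))))))))))))⟩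
def e0_63__66_153 : Ent 4 := ⟨[a0, a63], [a66, a254], (M a48 (F (T t1 (T t2 (T t3 (T t0 (K a16 (M a60 (F (T t42 (L l14 (L l18 (L l309 (T t67 (T t65 N)))))))) (K a32 (M a60 (F (T t42 (L l309 (T t67 (L l24 (L l28 (T t65 N)))))))) (K a21 (M a192 (F (T t28 (L l47 (L l347 (T t20 (L l47 (L l347 (T t29 N))))))))) (K a37 (M a192 (F (T t19 (L l47 (T t20 (L l261 (T t21 N))))))) (K a53 (M a192 (F (T t19 (L l261 (L l491 (T t21 (L l142 (T t31 N)))))))) (K a26 (M a192 (F (T t27 (T t20 (L l261 (T t21 N)))))) (K a42 (M a192 (F (T t19 (T t20 (L l28 (T t29 N)))))) (K a58 (M a192 (F (T t19 (L l261 (T t21 (L l54 (L l142 (L l498 (T t31 N))))))))) (K a15 (M a192 (F (T t47 (L l483 (T t27 (L l325 (T t20 N))))))) N)))))))))))))))⟩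
def e0_63__66_154 : Ent 4 := ⟨[a0, a63], [a66, a255], (M a48 (F (T t48 (L l469 (T t1 (L l469 (T t2 (L l469 (T t3 (L l469 (T t0 (K a16 (M a60 (F (T t138 (L l14 (L l18 (L l309 (L l475 (T t67 (T t65 N))))))))) (K a32 (M a60 (F (T t138 (L l309 (L l475 (T t67 (L l24 (L l28 (T t65 N))))))))) (K a21 (M a192 (F (L l266 (T t28 (L l47 (L l289 (L l347 (T t20 (L l47 (L l289 (L l347 (T t29 N)))))))))))) (K a37 (M a192 (F (T t36 (L l47 (L l289 (T t20 (L l28 (L l47 (L l289 (T t29 N)))))))))) (K a53 (M a12 (F (T t145 (L l47 (L l439 (T t122 (L l47 (T t146 N)))))))) (K a26 (M a192 (F (T t56 (L l266 (T t27 (L l289 (T t29 N))))))) (K a42 (M a192 (F (T t56 (L l266 (T t27 (L l28 (L l289 (T t29 N)))))))) (K a58 (M a12 (F (T t145 (L l439 (T t122 (T t146 N)))))) (K a15 (M a192 (L l469 (F (T t56 (L l266 (L l483 (T t27 (L l289 (T t29 (K a95 (M a175 (F (T t36 (L l142 (L l289 (L l325 (L l361 (T t22 (L l289 (L l361 (T t29 N)))))))))))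 (K a175 (M a95 (F (T t36 (L l142 (L l213 (L l289 (L l325 (T t22 (L l289 (T t29 N)))))))))) N))))))))))) N))))))))))))))))))))⟩
def b0_63__66 : Blk 4 := ⟨[0, 63], [66], [1, 2, 3, 4, 5, 6, 7, 8, 9, 10, 11, 12, 13, 14, 15, 20, 22, 23, 24, 25, 26, 27, 28, 29, 30, 31, 40, 41, 43, 44, 45, 46, 47, 60, 61, 62, 64, 65, 67, 68, 69, 70, 71, 72, 73, 74, 75, 76, 77, 78, 79, 84, 85, 86, 87, 88, 89, 90, 91, 92, 93, 94, 95, 104, 105, 106, 107, 108, 109, 110, 111, 124, 125, 126, 127, 128, 129, 130, 131, 132, 133, 134, 135, 136, 137, 138, 139, 140, 141, 142, 143, 148, 149, 150, 151, 152, 153, 154, 155, 156, 157, 158, 159, 168, 169, 170, 171, 172, 173, 174, 175, 188, 189, 190, 191, 192, 193, 194, 195, 196, 197, 198, 199, 200, 201, 202, 203, 204, 205, 206, 207, 212, 213, 214, 215, 216, 217, 218, 219, 220, 221, 222, 223, 232, 233, 234, 235, 236, 237, 238, 239, 252, 253, 254, 255], [e0_63__66_0, e0_63__66_1, e0_63__66_2,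 e0_63__66_3, e0_63__66_4, e0_63__66_5, e0_63__66_6, e0_63__66_7, e0_63__66_8, e0_63__66_9, e0_63__66_10, e0_63__66_11, e0_63__66_12, e0_63__66_13, e0_63__66_14, e0_63__66_15, e0_63__66_16, e0_63__66_17, e0_63__66_18, e0_63__66_19, e0_63__66_20, e0_63__66_21, e0_63__66_22, e0_63__66_23, e0_63__66_24, e0_63__66_25, e0_63__66_26, e0_63__66_27, e0_63__66_28, e0_63__66_29, e0_63__66_30, e0_63__66_31, e0_63__66_32, e0_63__66_33, e0_63__66_34, e0_63__66_35, e0_63__66_36, e0_63__66_37, e0_63__66_38, e0_63__66_39, e0_63__66_40, e0_63__66_41, e0_63__66_42, e0_63__66_43, e0_63__66_44, e0_63__66_45, e0_63__66_46, e0_63__66_47, e0_63__66_48, e0_63__66_49, e0_63__66_50, e0_63__66_51, e0_63__66_52, e0_63__66_53, e0_63__66_54, e0_63__66_55, e0_63__66_56, e0_63__66_57, e0_63__66_58, e0_63__66_59, e0_63__66_60, e0_63__66_61, e0_63__66_62, e0_63__66_63, e0_63__66_64, e0_63__66_65, e0_63__66_66, e0_63__66_67, e0_63__66_68,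 e0_63__66_69, e0_63__66_70, e0_63__66_71, e0_63__66_72, e0_63__66_73, e0_63__66_74, e0_63__66_75, e0_63__66_76, e0_63__66_77, e0_63__66_78, e0_63__66_79, e0_63__66_80, e0_63__66_81, e0_63__66_82, e0_63__66_83, e0_63__66_84, e0_63__66_85, e0_63__66_86, e0_63__66_87, e0_63__66_88, e0_63__66_89, e0_63__66_90, e0_63__66_91, e0_63__66_92, e0_63__66_93, e0_63__66_94, e0_63__66_95, e0_63__66_96, e0_63__66_97, e0_63__66_98, e0_63__66_99, e0_63__66_100, e0_63__66_101, e0_63__66_102, e0_63__66_103, e0_63__66_104, e0_63__66_105, e0_63__66_106, e0_63__66_107, e0_63__66_108, e0_63__66_109, e0_63__66_110, e0_63__66_111, e0_63__66_112, e0_63__66_113, e0_63__66_114, e0_63__66_115, e0_63__66_116, e0_63__66_117, e0_63__66_118, e0_63__66_119, e0_63__66_120, e0_63__66_121, e0_63__66_122, e0_63__66_123, e0_63__66_124, e0_63__66_125, e0_63__66_126, e0_63__66_127, e0_63__66_128, e0_63__66_129, e0_63__66_130, e0_63__66_131,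 e0_63__66_132, e0_63__66_133, e0_63__66_134, e0_63__66_135, e0_63__66_136, e0_63__66_137, e0_63__66_138, e0_63__66_139, e0_63__66_140, e0_63__66_141, e0_63__66_142, e0_63__66_143, e0_63__66_144, e0_63__66_145, e0_63__66_146, e0_63__66_147, e0_63__66_148, e0_63__66_149, e0_63__66_150, e0_63__66_151, e0_63__66_152, e0_63__66_153, e0_63__66_154], by decide +kernel, by decide +kernel⟩

end Pool.Agent.Lib_TTT.K4
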