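import Pool.Agent.Lib_TTT.K4Base
import Pool.Agent.Lib_TTT.K4T00
import Pool.Agent.Lib_TTT.K4T01

/-! Certificates in `4^4`. -/

set_option autoImplicit false
set_option maxRecDepth 200000

namespace Pool.Agent.Lib_TTT.K4

open Lib_TTT AC DC

def e0_63__67_0 : Ent 4 := ⟨[a0, a63], [a67, a1], (M a48 (F (T t0 (L l65 (T t1 (L l5 (T t2 (L l65 (T t3 (K a16 (M a60 (F (T t42 (L l14 (L l18 (L l65 (L l307 (T t67 (L l5 (T t65 N)))))))))) (K a32 (M a60 (F (T t42 (L l65 (L l307 (T t67 (L l5 (L l24 (L l28 (T t65 N)))))))))) (K a21 (M a60 (L l65 (F (T t248 (L l47 (T t42 (L l11 (L l18 (L l47 (T t876 (L l41 (L l50 (T t250 (K a41 (Fr a61 a62 l33 (V t877)) (K a61 (M a41 (F (L l11 (T t878 (L l59 (T t879 (L l50 (T t247 N)))))))) N))))))))))))))) (K a37 (M a192 (F (T t19 (L l47 (T t20 (L l143 (T t21 N))))))) (K a53 (M a192 (F (T t19 (L l143 (L l491 (T t21 (T t31 N))))))) (K a26 (M a192 (F (T t28 (T t20 (L l143 (T t21 N))))))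 (K a42 (M a192 (F (T t19 (T t20 (L l28 (T t29 N)))))) (K a58 (M a192 (F (T t19 (L l143 (T t21 (L l54 (L l498 (T t31 N)))))))) (K a15 (M a192 (F (T t56 (L l121 (L l483 (T t27 (L l143 (L l469 (T t21 N))))))))) N))))))))))))))))))⟩
def e0_63__67_1 : Ent 4 := ⟨[a0, a63], [a67, a2], (M a48 (F (T t3 (L l6 (T t1 (L l66 (T t2 (L l66 (T t0 (K a16 (M a60 (F (T t42 (L l66 (L l307 (T t43 (L l6 (L l14 (L l18 (T t44 N)))))))))) (K a32 (M a60 (F (T t42 (L l24 (L l28 (L l66 (L l307 (T t43 (L l6 (T t44 N)))))))))) (K a21 (M a192 (F (T t28 (L l47 (L l347 (T t20 (L l47 (L l347 (T t29 N))))))))) (K a37 (M a192 (F (T t19 (L l47 (T t20 (L l143 (T t21 N))))))) (K a53 (M a192 (F (T t19 (L l143 (L l491 (T t21 (L l66 (T t31 N)))))))) (K a26 (M a192 (F (T t28 (T t20 (L l143 (T t21 N)))))) (K a42 (M a60 (L l66 (F (T t880 (L l42 (T t64 (L l42 (L l56 (T t288 (L l22 (L l28 (L l54 (T t638 (K a22 (Fr a62 a61 l33 (V t639)) (K a62 (M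 a22 (F (L l22 (T t881 (L l54 (L l60 (T t882 (T t880 N)))))))) N))))))))))))))) (K a58 (M a192 (F (T t19 (L l143 (T t21 (L l54 (L l66 (L l498 (T t31 N))))))))) (K a15 (M a192 (F (T t57 (L l121 (L l483 (T t27 (L l325 (T t20 N)))))))) N))))))))))))))))))⟩
def e0_63__67_2 : Ent 4 := ⟨[a0, a63], [a67, a3], (M a85 (L l307 (F (L l76 (T t89 (L l143 (L l475 (T t52 (L l76 (L l309 (T t88 (L l76 (L l309 (T t90 (K a64 (M a195 (L l76 (F (T t883 (L l140 (T t884 (L l143 (T t885 (K a65 (M a66 (F (L l143 (T t886 (L l475 (T t887 (L l143 (T t888 (T t889 (L l69 (L l143 (T t890 (L l143 (T t891 N)))))))))))))) (K a66 (Fr a65 a130 l308 (V t892)) N)))))))))) (K a192 (M a195 (L l309 (F (T t883 (L l143 (L l296 (L l514 (T t885 (L l514 (T t893 (L l143 (L l296 (T t894 (L l296 (T t889 (T t895 (K a129 (M a66 (F (L l152 (T t883 (L l143 (L l145 (L l296 (L l514 (T t896 (L l152 (L l514 (T t893 (L l143 (L l296 (L l305 (L l514 (T t897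 (L l296 (T t889 (L l152 (L l305 (T t895 N)))))))))))))))))))))) (K a66 (M a129 (L l76 (F (L l306 (T t883 (L l69 (L l296 (T t898 (L l143 (L l296 (L l514 (T t899 (L l296 (T t889 (L l306 (T t895 (K a64 (Fr a65 a130 l308 (V t892)) (K a65 (M a64 (F (T t359 (L l143 (L l296 (L l514 (T t886 (L l296 (T t889 (L l143 (L l514 (T t900 N)))))))))))) N)))))))))))))))))) N)))))))))))))))))) (K a21 (M a48 (L l307 (F (T t509 (L l143 (L l453 (T t50 (L l47 (L l143 (T t100 (K a131 (M a195 (F (T t509 (L l152 (L l219 (T t901 N)))))) (K a195 (M a131 (F (T t509 (L l143 (L l273 (L l453 (T t50 (L l47 (L l143 (T t100 N)))))))))) N)))))))))))) (K a149 (M a16 (L l307 (F (T t112 (L l331 (T t173 (L l170 (T t102 (K a131 (M a195 (F (T t112 (L l152 (L l163 (L l221 (L l475 (T t902 N)))))))) (K a195 (M a131 (F (T t112 (L l220 (L l235 (L l331 (T t259 (L l170 (T t102 N))))))))) N)))))))))) (K a213 (Fr a170 a255 l476 (Fr a42 a21 l68 (Fr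 a106 a234 l390 (Fr a192 a149 l519 (V t581))))) (K a42 (M a48 (L l307 (F (L l475 (T t364 (L l390 (L l453 (T t903 (L l28 (L l143 (T t100 (K a131 (M a195 (F (L l28 (T t509 (L l152 (L l219 (T t901 N))))))) (K a195 (M a131 (F (L l28 (T t509 (L l143 (L l273 (L l390 (L l453 (T t50 (L l28 (L l143 (T t100 N)))))))))))) N))))))))))))) (K a106 (M a48 (L l307 (F (T t48 (L l104 (T t509 (L l143 (L l390 (L l453 (T t50 (K a131 (M a195 (F (T t48 (L l152 (L l221 (L l475 (L l516 (T t902 N)))))))) (K a195 (M a131 (F (T t48 (L l104 (L l295 (L l475 (T t360 (L l143 (L l273 (L l390 (L l453 (T t50 N)))))))))))) N)))))))))))) (K a170 (M a195 (F (L l218 (L l390 (T t904 (L l143 (L l390 (T t886 (L l69 (L l218 (T t905 (L l69 (L l143 (L l218 (T t906 (L l309 (L l390 (T t907 (L l76 (L l143 (L l220 (L l309 (L l390 (T t908 N)))))))))))))))))))))))) (K a255 (M a195 (L l475 (F (L l296 (T t909 (L l143 (L l434 (T t910 (L l143 (L l296 (T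 t886 (L l434 (T t895 (L l296 (L l434 (T t911 (L l76 (L l143 (L l296 (L l434 (T t912 (K a87 (M a171 (L l143 (F (L l349 (L l434 (T t913 (L l76 (L l296 (T t914 (L l69 (L l296 (L l434 (T t915 (L l296 (L l349 (L l434 (T t916 (L l296 (T t909 (K a107 (M a127 (F (L l296 (T t917 (L l69 (L l76 (L l434 (T t918 (L l296 (L l434 (T t919 (L l434 (T t895 (L l76 (L l296 (L l434 (T t920 N))))))))))))))))) (K a127 (Fr a107 a151 l517 (V t921)) N))))))))))))))))))))) (K a171 (M a87 (F (L l391 (L l434 (T t922 (L l219 (L l296 (T t923 (L l296 (L l434 (T t921 N))))))))))) N))))))))))))))))))))))) (K a131 (M a195 (F (L l475 (T t924 (L l69 (T t925 (L l152 (L l219 (T t884 N))))))))) (K a195 (M a131 (F (L l228 (L l309 (T t352 (L l295 (L l475 (L l518 (T t926 (L l143 (L l295 (L l475 (T t52 (L l76 (L l228 (L l309 (T t90 (L l76 (L l518 (T t927 (K a192 (M a48 (L l228 (L l309 (F (T t509 (L l7 (L l337 (L l339 (T t1 (L l143 (L l268 (L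 l273 (L l453 (T t50 (K a129 (M a66 (L l228 (F (T t509 (L l7 (L l337 (L l339 (T t1 (L l143 (L l268 (L l273 (L l453 (T t50 (K a193 (M a194 (L l305 (F (T t509 (L l69 (L l518 (T t928 (L l7 (L l337 (L l339 (T t1 (K a1 (M a65 (F (T t610 (L l121 (L l145 (L l485 (L l515 (L l518 (T t929 N))))))))) (K a65 (M a1 (F (T t48 (L l217 (L l477 (T t930 N)))))) N))))))))))))) (K a194 (M a193 (F (T t509 (L l7 (L l337 (L l339 (T t1 (L l143 (L l268 (L l273 (L l453 (T t50 N)))))))))))) N))))))))))))))) (K a193 (M a194 (L l309 (F (T t509 (L l7 (L l337 (L l339 (T t1 (L l143 (L l268 (L l273 (L l453 (T t50 (K a129 (M a66 (L l305 (F (T t509 (L l69 (L l518 (T t928 (L l7 (L l337 (L l339 (T t1 (K a1 (M a65 (F (T t610 (L l121 (L l145 (L l485 (L l515 (L l518 (T t929 N))))))))) (K a65 (M a1 (F (T t48 (L l217 (L l477 (T t930 N)))))) N))))))))))))) (K a66 (M a129 (L l76 (F (T t132 (L l295 (L l296 (L l475 (L l518 (T t931 (K a64 (M a65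 (F (T t48 (L l295 (L l296 (L l475 (L l518 (T t931 N)))))))) (K a65 (M a64 (F (T t359 (L l7 (L l337 (L l339 (T t0 N))))))) N))))))))))) N))))))))))))))) (K a66 (M a129 (L l76 (L l228 (F (T t610 (L l295 (L l296 (L l306 (L l475 (L l518 (T t931 (K a64 (M a65 (L l228 (F (T t132 (L l295 (L l296 (L l306 (L l475 (L l518 (T t931 (K a193 (M a194 (F (T t48 (L l295 (L l296 (L l475 (L l518 (T t931 N)))))))) (K a194 (Fr a193 a1 l305 (V t2)) N)))))))))))) (K a65 (M a64 (L l228 (F (T t359 (L l7 (L l337 (L l339 (T t0 (K a193 (M a194 (F (T t359 (L l7 (L l337 (L l339 (T t0 N))))))) (K a194 (M a193 (L l306 (F (T t359 (L l7 (L l337 (L l339 (T t0 (K a2 (Fr a130 a128 l152 (V t359)) (K a130 (M a2 (F (L l218 (T t359 (L l7 (L l337 (L l339 (T t1 N)))))))) N)))))))))) N)))))))))) (K a193 (M a194 (L l76 (F (T t132 (L l295 (L l296 (L l475 (L l518 (T t931 (K a64 (M a65 (F (T t48 (L l295 (L l296 (L l475 (L l518 (T t931 N))))))))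 (K a65 (M a64 (F (T t359 (L l7 (L l337 (L l339 (T t0 N))))))) N))))))))))) (K a194 (M a193 (L l76 (L l306 (F (T t509 (L l7 (L l337 (L l339 (T t1 (L l143 (L l268 (L l273 (L l453 (T t50 (K a64 (Fr a65 a1 l305 (V t2)) (K a65 (M a64 (L l306 (F (T t359 (L l7 (L l337 (L l339 (T t0 (K a2 (Fr a130 a128 l152 (V t359)) (K a130 (M a2 (F (L l218 (T t359 (L l7 (L l337 (L l339 (T t1 N)))))))) N)))))))))) (K a2 (Fr a130 a128 l152 (V t2)) (K a130 (M a2 (L l76 (F (T t509 (L l69 (T t340 (K a64 (Fr a65 a1 l305 (V t1)) (K a65 (M a64 (F (L l218 (T t359 (L l7 (L l337 (L l339 (T t1 N)))))))) N)))))))) N)))))))))))))))))) N))))))))))))))) (K a194 (M a193 (L l309 (F (T t509 (L l69 (L l76 (L l145 (L l296 (L l518 (T t932 (L l7 (L l337 (L l339 (T t1 (K a129 (M a66 (F (T t509 (L l7 (L l337 (L l339 (T t1 (L l143 (L l268 (L l273 (L l453 (T t50 N)))))))))))) (K a66 (M a129 (L l76 (L l306 (F (T t509 (L l7 (L l337 (L l339 (T t1 (L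 l143 (L l268 (L l273 (L l453 (T t50 (K a64 (Fr a65 a1 l305 (V t2)) (K a65 (M a64 (L l306 (F (T t359 (L l7 (L l337 (L l339 (T t0 (K a2 (Fr a130 a128 l152 (V t359)) (K a130 (M a2 (F (L l218 (T t359 (L l7 (L l337 (L l339 (T t1 N)))))))) N)))))))))) (K a2 (Fr a130 a128 l152 (V t2)) (K a130 (M a2 (L l76 (F (T t509 (L l69 (T t340 (K a64 (Fr a65 a1 l305 (V t1)) (K a65 (M a64 (F (L l218 (T t359 (L l7 (L l337 (L l339 (T t1 N)))))))) N)))))))) N)))))))))))))))))) N)))))))))))))))) N)))))))))))))))))) (K a21 (M a48 (F (T t509 (L l143 (L l273 (L l453 (T t50 (L l47 (L l143 (T t100 N)))))))))) (K a149 (M a16 (F (T t112 (L l220 (L l235 (L l331 (T t259 (L l170 (T t102 N))))))))) (K a213 (Fr a170 a255 l476 (Fr a42 a21 l68 (Fr a106 a234 l390 (Fr a192 a149 l519 (V t581))))) (K a42 (M a48 (F (L l28 (T t509 (L l143 (L l273 (L l390 (L l453 (T t50 (L l28 (L l143 (T t100 N)))))))))))) (K a170 (M a16 (F (L l390 (L l404 (T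 t112 (L l390 (T t98 (L l143 (L l404 (T t113 (L l235 (L l331 (L l404 (T t174 N)))))))))))))) N)))))))))))))))))))))))))) N)))))))))))))))))))))))))⟩
def e0_63__67_3 : Ent 4 := ⟨[a0, a63], [a67, a4], (M a48 (F (T t0 (L l50 (T t1 (L l1 (T t2 (L l50 (T t3 (K a16 (M a60 (F (T t64 (L l307 (T t43 (L l1 (T t65 N))))))) (K a32 (M a60 (F (T t64 (L l24 (L l28 (L l307 (T t43 (L l1 (L l24 (L l28 (T t65 N))))))))))) (K a21 (M a192 (L l50 (F (T t28 (L l47 (L l347 (T t20 (L l47 (L l347 (T t29 (K a38 (M a55 (F (T t28 (L l310 (T t66 N))))) (K a55 (M a38 (F (T t28 (L l31 (L l47 (L l347 (L l495 (T t20 (L l18 (L l76 (T t46 N))))))))))) N)))))))))))) (K a37 (M a192 (F (T t19 (L l47 (T t20 (L l143 (T t21 N))))))) (K a53 (M a192 (F (T t19 (L l143 (L l491 (T t21 (T t31 N))))))) (K a26 (M a192 (F (T t28 (T t20 (L l143 (T t21 N)))))) (K a42 (M a192 (F (T t19 (T t20 (L l28 (T t29 N)))))) (K a58 (M a192 (F (T t19 (L l143 (T t21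 (L l54 (L l498 (T t31 N)))))))) (K a15 (M a192 (F (T t56 (L l121 (L l483 (T t27 (L l143 (L l469 (T t21 N))))))))) N))))))))))))))))))⟩
def e0_63__67_4 : Ent 4 := ⟨[a0, a63], [a67, a5], (M a85 (F (T t168 (L l76 (T t88 (L l47 (L l143 (T t52 (L l76 (T t90 (K a64 (M a240 (L l76 (F (T t933 (T t387 (K a65 (M a66 (F (T t933 (T t387 N)))) (K a66 (M a65 (F (T t934 (L l306 (T t696 N))))) N))))))) (K a192 (M a48 (F (T t935 (L l47 (L l339 (T t3 (L l143 (L l268 (T t50 N))))))))) (K a21 (M a60 (L l47 (F (T t936 (L l143 (T t114 (L l65 (L l143 (T t523 (K a37 (M a53 (F (T t936 (L l50 (L l71 (T t937 N)))))) (K a53 (M a37 (F (T t936 (L l143 (T t114 (L l35 (L l65 (L l143 (T t523 N))))))))) N))))))))))) (K a149 (M a48 (F (T t99 (L l47 (T t3 (L l143 (L l220 (T t50 N)))))))) (K a213 (Fr a170 a255 l476 (Fr a42 a21 l68 (Fr a106 a234 l390 (Fr a192 a149 l519 (V t581))))) (K a42 (M a48 (F (T t364 (L l143 (L l390 (T t50 (L l28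 (L l47 (L l143 (T t100 N)))))))))) (K a106 (M a48 (F (T t99 (L l47 (L l411 (T t3 (L l143 (L l390 (T t50 N))))))))) (K a170 (M a4 (F (L l390 (L l464 (T t519 (L l390 (T t131 (L l143 (L l464 (T t130 (L l464 (T t938 N)))))))))))) (K a255 (M a4 (F (T t129 (L l143 (L l265 (T t130 (L l265 (L l296 (T t131 N))))))))) N)))))))))))))))))))⟩
def e0_63__67_5 : Ent 4 := ⟨[a0, a63], [a67, a6], (M a149 (F (T t25 (T t175 (T t176 (L l76 (T t177 (K a192 (M a53 (F (T t939 (L l236 (T t179 (L l236 (L l296 (T t180 N)))))))) (K a21 (M a48 (F (T t4 (L l121 (T t13 (L l18 (T t14 N))))))) (K a85 (M a16 (F (T t97 (L l144 (T t190 (L l94 (T t278 N))))))) (K a213 (Fr a106 a192 l519 (Fr a42 a21 l68 (Fr a170 a234 l390 (Fr a255 a85 l476 (V t582))))) (K a42 (M a48 (F (T t187 (L l121 (L l390 (T t13 (L l54 (T t14 N)))))))) (K a106 (M a48 (F (L l411 (T t3 (L l498 (T t14 (L l390 (L l498 (T t6 (L l390 (T t26 N))))))))))) (K a170 (M a48 (F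 (T t4 (L l6 (L l462 (T t1 (L l121 (L l390 (T t13 N))))))))) (K a191 (M a252 (F (T t940 (T t941 N)))) (K a255 (M a16 (F (T t504 (L l266 (T t190 (L l289 (L l296 (T t191 N)))))))) N))))))))))))))))⟩
def e0_63__67_6 : Ent 4 := ⟨[a0, a63], [a67, a7], (M a149 (F (T t25 (T t175 (T t176 (L l76 (T t177 (K a192 (M a53 (F (T t939 (L l236 (T t179 (L l236 (L l296 (T t180 N)))))))) (K a21 (M a48 (F (T t4 (L l121 (T t13 (L l18 (T t14 N))))))) (K a85 (M a16 (F (T t504 (L l144 (T t190 (L l94 (T t278 N))))))) (K a213 (Fr a106 a192 l519 (Fr a42 a21 l68 (Fr a170 a234 l390 (Fr a255 a85 l476 (V t582))))) (K a42 (M a48 (F (T t187 (L l121 (L l390 (T t13 (L l54 (T t14 N)))))))) (K a106 (M a48 (F (T t48 (L l498 (T t14 (L l390 (L l498 (T t6 (L l390 (T t26 N)))))))))) (K a170 (M a48 (F (T t4 (L l7 (L l462 (T t1 (L l121 (L l390 (T t13 N))))))))) (K a191 (M a252 (F (T t940 (T t941 N)))) (K a255 (M a16 (F (T t504 (L l266 (T t190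 (L l289 (L l296 (T t191 N)))))))) N))))))))))))))))⟩
def e0_63__67_7 : Ent 4 := ⟨[a0, a63], [a67, a8], (M a85 (F (T t255 (L l56 (L l76 (T t88 (L l56 (L l76 (T t89 (L l76 (L l464 (T t90 (K a64 (M a16 (L l76 (F (T t258 (L l56 (T t97 (L l56 (L l116 (T t98 (K a65 (M a66 (F (T t258 (L l56 (T t97 (L l56 (L l116 (T t98 N)))))))) (K a66 (M a65 (F (T t258 (L l56 (L l140 (L l306 (T t703 N))))))) N))))))))))) (K a192 (M a16 (F (T t96 (L l56 (L l339 (T t97 (L l56 (L l296 (T t98 N))))))))) (K a21 (M a48 (F (T t99 (L l143 (L l464 (T t50 (L l47 (L l143 (T t100 N))))))))) (K a149 (M a16 (F (T t173 (L l56 (L l375 (T t97 (L l56 (L l170 (T t102 N))))))))) (K a213 (Fr a170 a255 l476 (Fr a42 a21 l68 (Fr a106 a234 l390 (Fr a192 a149 l519 (V t581))))) (K a42 (M a59 (F (T t104 (L l143 (L l390 (L l464 (T t105 (L l26 (L l143 (L l316 (T t106 (L l76 (L l316 (L l390 (L l464 (T t107 N)))))))))))))))) (K a106 (M a48 (F (T t99 (L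 l2 (T t1 (L l143 (L l390 (L l464 (T t50 N))))))))) (K a170 (M a89 (F (L l178 (T t108 (L l56 (L l390 (T t109 (L l178 (L l316 (T t110 (L l56 (L l178 (L l390 (T t111 N)))))))))))))) (K a255 (M a16 (F (L l56 (T t112 (L l143 (L l289 (T t113 (L l56 (L l289 (L l296 (T t98 N))))))))))) N)))))))))))))))))))))⟩
def e0_63__67_8 : Ent 4 := ⟨[a0, a63], [a67, a9], (M a149 (F (T t25 (T t175 (T t176 (L l76 (T t177 (K a192 (M a53 (F (T t939 (L l236 (T t179 (L l236 (L l296 (T t180 N)))))))) (K a21 (M a48 (F (T t4 (L l121 (T t13 (L l18 (T t14 N))))))) (K a85 (M a16 (F (T t97 (L l144 (T t190 (L l94 (T t278 N))))))) (K a213 (Fr a106 a192 l519 (Fr a42 a21 l68 (Fr a170 a234 l390 (Fr a255 a85 l476 (V t582))))) (K a42 (M a48 (F (T t187 (L l121 (L l390 (T t13 (L l54 (T t14 N)))))))) (K a106 (M a48 (F (L l411 (T t3 (L l498 (T t14 (L l390 (L l498 (T t6 (L l390 (T t26 N))))))))))) (K a170 (M a48 (F (T t4 (L l2 (L l462 (T t1 (L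 l121 (L l390 (T t13 N))))))))) (K a191 (M a16 (F (T t97 (T t190 (L l213 (T t191 N)))))) (K a255 (M a16 (F (T t504 (L l266 (T t190 (L l289 (L l296 (T t191 N)))))))) N))))))))))))))))⟩
def e0_63__67_9 : Ent 4 := ⟨[a0, a63], [a67, a10], (M a85 (F (T t255 (L l54 (L l76 (T t88 (L l54 (L l76 (T t89 (L l76 (L l462 (T t90 (K a64 (M a16 (L l76 (F (L l54 (T t97 (L l84 (T t96 (L l54 (L l116 (T t98 (K a65 (M a66 (F (T t258 (L l54 (T t97 (L l54 (L l116 (T t98 N)))))))) (K a66 (M a65 (F (L l54 (T t97 (L l306 (T t696 N)))))) N)))))))))))) (K a192 (M a16 (F (T t96 (L l54 (L l339 (T t97 (L l54 (L l296 (T t98 N))))))))) (K a21 (M a48 (F (T t99 (L l143 (L l462 (T t50 (L l47 (L l143 (L l318 (T t100 N)))))))))) (K a149 (M a48 (F (T t99 (L l54 (L l375 (T t0 (L l143 (L l220 (L l462 (T t50 N)))))))))) (K a213 (Fr a170 a255 l476 (Fr a42 a21 l68 (Fr a106 a234 l390 (Fr a192 a149 l519 (V t581))))) (K a42 (M a58 (F (T t118 (L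 l143 (L l390 (L l462 (T t119 (L l28 (L l143 (L l318 (T t120 (L l76 (L l318 (L l390 (L l462 (T t121 N)))))))))))))))) (K a106 (M a12 (F (T t122 (L l2 (L l132 (T t123 (L l143 (L l390 (L l462 (T t124 N)))))))))) (K a170 (M a90 (F (L l180 (T t125 (L l54 (L l390 (T t126 (L l180 (L l318 (T t127 (L l54 (L l180 (L l390 (T t128 N)))))))))))))) (K a255 (M a4 (F (L l2 (L l54 (T t129 (L l2 (L l143 (L l265 (T t130 (L l54 (L l265 (L l296 (T t131 N))))))))))))) N)))))))))))))))))))))⟩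
def e0_63__67_10 : Ent 4 := ⟨[a0, a63], [a67, a11], (M a149 (F (T t25 (T t175 (T t176 (L l76 (T t177 (K a192 (M a53 (F (T t178 (L l236 (T t179 (L l236 (L l296 (T t180 N)))))))) (K a21 (M a48 (F (T t4 (L l121 (T t13 (L l18 (T t14 N))))))) (K a85 (M a16 (F (T t504 (L l144 (T t190 (L l57 (L l94 (L l465 (T t278 N))))))))) (K a213 (Fr a106 a192 l519 (Fr a42 a21 l68 (Fr a170 a234 l390 (Fr a255 a85 l476 (V t582))))) (K a42 (M a48 (F (T t187 (L l121 (L l390 (T t13 (L l54 (T t14 N)))))))) (K a106 (M a48 (F (L l2 (T t48 (L l498 (T t14 (L l390 (L l498 (T t6 (L l390 (T t26 N))))))))))) (K a170 (M a48 (F (T t4 (L l2 (L l7 (L l462 (T t1 (L l121 (L l390 (T t13 N)))))))))) (K a191 (M a16 (F (T t112 (T t190 (L l213 (T t191 N)))))) (K a255 (M a16 (F (T t112 (L l266 (T t190 (L l289 (L l296 (T t191 N)))))))) N))))))))))))))))⟩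
def e0_63__67_11 : Ent 4 := ⟨[a0, a63], [a67, a12], (M a48 (F (T t48 (L l3 (T t1 (L l3 (T t2 (L l3 (T t3 (L l3 (T t0 (K a16 (M a60 (F (T t138 (L l9 (L l14 (L l18 (L l307 (T t67 (T t65 N))))))))) (K a32 (M a60 (F (T t116 (L l74 (T t64 (L l24 (L l28 (T t65 N)))))))) (K a21 (M a192 (F (T t54 (L l121 (L l478 (T t27 (L l47 (L l347 (T t29 N))))))))) (K a37 (M a192 (F (T t54 (L l121 (L l478 (T t27 (L l143 (L l470 (T t21 N))))))))) (K a53 (M a192 (F (T t36 (L l143 (L l470 (L l491 (T t21 (T t31 N)))))))) (K a26 (M a192 (F (T t56 (L l121 (L l478 (T t27 (L l143 (L l470 (T t21 N))))))))) (K a42 (M a192 (F (T t56 (L l121 (L l478 (T t27 (L l28 (T t29 N)))))))) (K a58 (M a192 (F (T t57 (L l121 (L l478 (T t27 (L l54 (L l498 (T t31 N))))))))) (K a15 (M a80 (L l3 (F (T t61 (L l469 (L l470 (T t942 (L l469 (L l470 (L l483 (T t60 (T t59 (K a13 (M a14 (F (T t61 (L l74 (T t140 N))))) (K a14 (M a13 (F (T t61 (L l74 (T t141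 N))))) N)))))))))))))) N))))))))))))))))))))⟩
def e0_63__67_12 : Ent 4 := ⟨[a0, a63], [a67, a13], (M a149 (F (T t25 (T t175 (T t176 (L l76 (T t177 (K a192 (M a53 (F (T t939 (L l236 (T t179 (L l236 (L l296 (T t180 N)))))))) (K a21 (M a48 (F (T t4 (L l121 (T t13 (L l18 (T t14 N))))))) (K a85 (M a16 (F (T t504 (L l144 (T t190 (L l94 (T t278 N))))))) (K a213 (Fr a106 a192 l519 (Fr a42 a21 l68 (Fr a170 a234 l390 (Fr a255 a85 l476 (V t582))))) (K a42 (M a48 (F (T t187 (L l121 (L l390 (T t13 (L l54 (T t14 N)))))))) (K a106 (M a48 (F (T t48 (L l498 (T t14 (L l390 (L l498 (T t6 (L l390 (T t26 N)))))))))) (K a170 (M a48 (F (T t4 (L l3 (L l462 (T t1 (L l121 (L l390 (T t13 N))))))))) (K a191 (M a252 (F (T t940 (L l467 (T t941 N))))) (K a255 (M a16 (F (T t504 (L l266 (T t190 (L l289 (L l296 (T t191 N)))))))) N))))))))))))))))⟩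
def e0_63__67_13 : Ent 4 := ⟨[a0, a63], [a67, a14], (M a149 (F (T t25 (T t175 (T t176 (L l76 (T t177 (K a192 (M a53 (F (T t178 (L l236 (T t179 (L l236 (L l296 (T t180 N)))))))) (K a21 (M a48 (F (T t4 (L l121 (T t13 (L l18 (T t14 N))))))) (K a85 (M a16 (F (T t504 (L l144 (T t190 (L l72 (L l94 (L l480 (T t278 N))))))))) (K a213 (Fr a106 a192 l519 (Fr a42 a21 l68 (Fr a170 a234 l390 (Fr a255 a85 l476 (V t582))))) (K a42 (M a48 (F (T t187 (L l121 (L l390 (T t13 (L l54 (T t14 N)))))))) (K a106 (M a48 (F (L l6 (T t48 (L l498 (T t14 (L l390 (L l498 (T t6 (L l390 (T t26 N))))))))))) (K a170 (M a48 (F (T t4 (L l3 (L l6 (L l462 (T t1 (L l121 (L l390 (T t13 N)))))))))) (K a191 (M a252 (F (T t940 (T t941 N)))) (K a255 (M a16 (F (T t112 (L l266 (T t190 (L l289 (L l296 (T t191 N)))))))) N))))))))))))))))⟩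
def e0_63__67_14 : Ent 4 := ⟨[a0, a63], [a67, a15], (M a12 (F (T t150 (L l73 (T t122 (L l73 (T t151 (L l73 (T t152 (L l73 (T t153 (K a4 (M a85 (F (T t49 (L l143 (L l327 (T t124 (T t154 N))))))) (K a8 (M a85 (F (L l469 (T t255 (L l143 (L l327 (L l464 (T t124 (L l56 (T t154 N)))))))))) (K a21 (M a192 (F (T t158 (L l85 (L l327 (T t156 (L l15 (L l347 (T t157 N))))))))) (K a25 (M a192 (F (T t158 (L l85 (L l327 (T t156 (L l143 (L l469 (T t21 N))))))))) (K a29 (M a192 (F (T t496 (L l143 (L l371 (L l469 (T t21 (T t160 N)))))))) (K a38 (M a192 (F (T t161 (L l85 (L l327 (T t156 (L l143 (L l469 (T t21 N))))))))) (K a42 (M a192 (F (T t161 (L l85 (L l327 (T t156 (L l56 (T t157 N)))))))) (K a46 (M a192 (F (T t57 (L l85 (L l327 (T t156 (L l26 (L l408 (T t160 N))))))))) (K a51 (M a68 (L l73 (F (T t165 (L l439 (L l469 (T t767 (L l439 (L l469 (L l513 (T t164 (T t163 (K a39 (M a27 (F (T t165 (L l63 (T t166 N))))) (K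 a27 (M a39 (F (T t165 (L l63 (T t167 N))))) N)))))))))))))) N))))))))))))))))))))⟩
def e0_63__67_15 : Ent 4 := ⟨[a0, a63], [a67, a20], (M a85 (F (T t168 (L l76 (T t88 (L l11 (L l143 (T t52 (L l76 (T t90 (K a64 (M a16 (L l76 (F (T t97 (L l84 (T t96 (L l116 (T t98 (K a65 (M a66 (F (T t259 (T t97 (L l116 (T t98 N)))))) (K a66 (M a65 (F (T t259 (L l140 (L l306 (T t703 N)))))) N)))))))))) (K a192 (M a16 (F (T t96 (L l339 (T t97 (L l296 (T t98 N))))))) (K a21 (M a51 (L l11 (F (T t943 (L l143 (T t944 (L l50 (L l143 (T t945 (K a22 (M a23 (F (T t943 (L l19 (L l50 (L l69 (L l307 (T t946 N)))))))) (K a23 (M a22 (F (T t947 (L l143 (T t944 (L l49 (L l50 (L l143 (T t945 N))))))))) N))))))))))) (K a149 (M a16 (F (T t173 (L l375 (T t97 (L l170 (T t102 N))))))) (K a213 (Fr a170 a255 l476 (Fr a42 a21 l68 (Fr a106 a234 l390 (Fr a192 a149 l519 (V t581))))) (K a42 (M a48 (F (L l28 (T t99 (L l143 (L l390 (T t50 (L l28 (L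 l143 (T t100 N)))))))))) (K a106 (M a48 (F (T t99 (L l11 (T t1 (L l143 (L l390 (T t50 N)))))))) (K a170 (M a16 (F (L l390 (L l404 (T t97 (L l390 (T t98 (L l143 (L l404 (T t113 (L l404 (T t174 N)))))))))))) (K a255 (M a16 (F (T t112 (L l143 (L l289 (T t113 (L l289 (L l296 (T t98 N))))))))) N)))))))))))))))))))⟩
def e0_63__67_16 : Ent 4 := ⟨[a0, a63], [a67, a22], (M a192 (F (L l143 (T t21 (L l11 (T t35 (L l76 (T t202 (L l66 (T t37 (K a64 (M a48 (L l76 (F (T t20 (L l11 (T t1 (L l66 (L l116 (L l144 (T t31 (K a65 (M a66 (F (T t225 (L l16 (L l305 (T t351 N)))))) (K a66 (M a65 (F (T t225 (L l306 (T t688 N))))) N)))))))))))) (K a128 (M a48 (F (T t206 (L l11 (T t1 (L l66 (T t31 N))))))) (K a21 (M a20 (F (T t948 (L l66 (L l143 (L l347 (T t949 (L l65 (L l307 (L l347 (T t950 N))))))))))) (K a85 (M a16 (F (T t210 (L l66 (T t97 (L l16 (L l66 (L l94 (L l144 (T t211 N)))))))))) (K a149 (M a48 (F (L l66 (T t2 (L l121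 (L l170 (L l220 (T t27 (L l11 (L l121 (L l170 (L l220 (L l347 (L l491 (T t213 (L l66 (L l76 (L l375 (T t214 N))))))))))))))))))) (K a42 (M a62 (F (T t951 (L l11 (T t952 (L l22 (T t953 (L l22 (L l143 (L l307 (T t954 (K a60 (Fr a106 a149 l519 (Fr a194 a150 l516 (Fr a195 a193 l228 (Fr a130 a65 l308 (Fr a66 a2 l306 (V t955)))))) N)))))))))))) (K a106 (M a48 (F (L l121 (T t27 (L l11 (T t1 (L l11 (L l121 (L l411 (T t213 (L l66 (L l76 (L l104 (L l144 (L l390 (L l498 (T t214 N))))))))))))))))) (K a170 (M a32 (F (T t218 (L l11 (T t219 (L l11 (L l51 (L l180 (L l220 (T t220 N)))))))))) (K a255 (M a16 (F (L l266 (T t210 (L l66 (L l469 (T t97 (L l16 (L l66 (T t211 N)))))))))) N)))))))))))))))))))⟩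
def e0_63__67_17 : Ent 4 := ⟨[a0, a63], [a67, a23], (M a149 (F (T t25 (L l11 (T t175 (T t176 (L l76 (T t177 (K a192 (M a53 (F (T t178 (L l236 (T t179 (L l236 (L l296 (T t180 N)))))))) (K a21 (M a48 (L l11 (F (T t4 (L l121 (T t13 (L l18 (T t14 (K a20 (M a22 (F (T t4 (L l121 (T t13 (L l14 (L l18 (T t14 N)))))))) (K a22 (M a20 (F (T t4 (L l19 (L l50 (T t183 N)))))) N)))))))))) (K a85 (M a16 (F (L l17 (T t97 (L l144 (T t190 (L l94 (T t278 N)))))))) (K a213 (Fr a106 a192 l519 (Fr a42 a21 l68 (Fr a170 a234 l390 (Fr a255 a85 l476 (V t582))))) (K a42 (M a48 (F (T t187 (L l121 (L l390 (T t13 (L l54 (T t14 N)))))))) (K a106 (M a48 (F (L l11 (T t1 (L l498 (T t14 (L l390 (L l498 (T t6 (L l390 (T t26 N))))))))))) (K a170 (M a48 (F (T t4 (L l11 (L l462 (T t1 (L l121 (L l390 (T t13 N))))))))) (K a191 (M a252 (F (T t940 (T t941 N)))) (K a255 (M a16 (F (T t112 (L l266 (T t190 (L l289 (L l296 (T t191 N)))))))) N)))))))))))))))))⟩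
def e0_63__67_18 : Ent 4 := ⟨[a0, a63], [a67, a24], (M a149 (F (T t25 (T t175 (T t176 (L l76 (T t177 (K a192 (M a53 (F (T t178 (L l14 (L l236 (T t179 (L l236 (L l296 (T t180 N))))))))) (K a21 (M a48 (F (T t4 (L l121 (T t13 (L l14 (L l18 (T t14 N)))))))) (K a85 (M a16 (F (T t97 (L l144 (T t190 (L l12 (L l94 (T t278 N)))))))) (K a213 (Fr a106 a192 l519 (Fr a42 a21 l68 (Fr a170 a234 l390 (Fr a255 a85 l476 (V t582))))) (K a42 (M a48 (F (T t187 (L l121 (L l390 (T t13 (L l14 (L l54 (T t14 N))))))))) (K a106 (M a48 (F (T t1 (L l14 (L l498 (T t14 (L l390 (L l498 (T t6 (L l390 (T t26 N))))))))))) (K a170 (M a48 (F (T t4 (L l462 (T t1 (L l121 (L l390 (T t13 N)))))))) (K a191 (M a16 (F (T t97 (T t190 (L l213 (T t191 N)))))) (K a255 (M a16 (F (T t112 (L l266 (T t190 (L l289 (L l296 (T t191 N)))))))) N))))))))))))))))⟩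
def e0_63__67_19 : Ent 4 := ⟨[a0, a63], [a67, a25], (M a149 (F (L l56 (T t25 (L l15 (T t175 (L l56 (T t176 (L l76 (T t177 (K a192 (M a53 (F (L l56 (T t178 (L l236 (T t179 (L l56 (L l236 (L l296 (T t180 N)))))))))) (K a21 (M a48 (L l15 (F (T t4 (L l121 (T t13 (L l18 (T t14 (K a17 (M a29 (F (T t181 (L l50 (L l341 (T t641 N)))))) (K a29 (M a17 (F (T t181 (L l19 (L l65 (T t642 N)))))) N)))))))))) (K a85 (M a16 (F (L l56 (T t97 (L l144 (T t190 (L l12 (L l56 (L l94 (T t278 N)))))))))) (K a213 (Fr a106 a192 l519 (Fr a42 a21 l68 (Fr a170 a234 l390 (Fr a255 a85 l476 (V t582))))) (K a42 (M a8 (F (L l26 (T t643 (L l85 (L l390 (T t644 (L l26 (T t645 (L l15 (L l76 (L l390 (T t646 N))))))))))))) (K a106 (M a48 (F (L l15 (T t1 (L l498 (T t14 (L l56 (L l390 (L l498 (T t6 (L l56 (L l390 (T t26 N))))))))))))) (K a170 (M a48 (F (T t4 (L l15 (L l462 (T t1 (L l121 (L l390 (T t13 N))))))))) (K a191 (M a16 (F (L l56 (T t97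 (T t190 (L l56 (L l213 (T t191 N)))))))) (K a255 (M a16 (F (T t192 (L l12 (L l56 (T t193 (L l266 (T t190 N)))))))) N)))))))))))))))))))⟩
def e0_63__67_20 : Ent 4 := ⟨[a0, a63], [a67, a26], (M a149 (F (L l54 (T t25 (L l18 (T t175 (L l54 (T t176 (L l76 (T t177 (K a192 (M a29 (F (L l54 (T t956 (L l272 (T t641 (L l54 (L l272 (L l296 (T t957 N)))))))))) (K a21 (M a12 (L l18 (F (T t958 (L l85 (T t648 (L l50 (T t649 (K a16 (M a31 (F (T t959 (L l47 (L l340 (T t651 N)))))) (K a31 (M a16 (F (T t958 (L l50 (L l57 (T t652 N)))))) N)))))))))) (K a85 (M a4 (F (L l54 (T t519 (L l144 (T t653 (L l54 (L l72 (L l126 (T t654 N)))))))))) (K a213 (Fr a106 a192 l519 (Fr a42 a21 l68 (Fr a170 a234 l390 (Fr a255 a85 l476 (V t582))))) (K a42 (M a10 (F (L l28 (T t655 (L l83 (L l390 (T t656 (L l28 (T t657 (L l18 (L l76 (L l390 (T t658 N))))))))))))) (K a106 (M a12 (F (L l18 (T t122 (L l408 (T t649 (L l54 (L l390 (L l408 (T t960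 (L l54 (L l390 (T t961 N))))))))))))) (K a170 (M a12 (F (T t958 (L l18 (L l402 (T t122 (L l85 (L l390 (T t648 N))))))))) (K a191 (M a48 (F (T t11 (L l121 (T t13 (L l18 (L l54 (T t659 N)))))))) (K a255 (M a4 (F (T t660 (L l54 (L l72 (T t661 (L l290 (T t653 N)))))))) N)))))))))))))))))))⟩
def e0_63__67_21 : Ent 4 := ⟨[a0, a63], [a67, a27], (M a149 (F (T t25 (T t175 (T t176 (L l76 (T t177 (K a192 (M a53 (F (T t178 (L l236 (T t179 (L l236 (L l296 (T t180 N)))))))) (K a21 (M a48 (F (T t4 (L l121 (T t13 (L l18 (T t14 N))))))) (K a85 (M a16 (F (L l455 (T t112 (L l144 (T t190 (L l12 (L l94 (L l357 (T t278 N)))))))))) (K a213 (Fr a106 a192 l519 (Fr a42 a21 l68 (Fr a170 a234 l390 (Fr a255 a85 l476 (V t582))))) (K a42 (M a48 (F (T t187 (L l121 (L l390 (T t13 (L l54 (T t14 N)))))))) (K a106 (M a48 (F (T t48 (L l498 (T t14 (L l390 (L l498 (T t6 (L l390 (T t26 N)))))))))) (K a170 (M a48 (F (T t4 (L l73 (L l462 (T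 t1 (L l121 (L l390 (T t13 N))))))))) (K a191 (M a252 (F (T t940 (T t941 N)))) (K a255 (M a16 (F (T t112 (L l266 (T t190 (L l289 (L l296 (T t191 N)))))))) N))))))))))))))))⟩
def e0_63__67_22 : Ent 4 := ⟨[a0, a63], [a67, a28], (M a149 (F (T t25 (T t175 (T t176 (L l76 (T t177 (K a192 (M a53 (F (T t178 (L l14 (L l236 (T t179 (L l236 (L l296 (T t180 N))))))))) (K a21 (M a48 (F (T t4 (L l121 (T t13 (L l14 (L l18 (T t14 N)))))))) (K a85 (M a16 (F (L l13 (T t97 (L l144 (L l370 (T t190 (L l94 (T t278 N))))))))) (K a213 (Fr a106 a192 l519 (Fr a42 a21 l68 (Fr a170 a234 l390 (Fr a255 a85 l476 (V t582))))) (K a42 (M a48 (F (T t187 (L l121 (L l390 (T t13 (L l14 (L l54 (T t14 N))))))))) (K a106 (M a48 (F (T t1 (L l14 (L l498 (T t14 (L l390 (L l498 (T t6 (L l362 (L l390 (T t26 N)))))))))))) (K a170 (M a48 (F (T t4 (L l462 (T t1 (L l121 (L l390 (T t13 N)))))))) (K a191 (M a16 (F (T t112 (L l370 (T t190 (L l213 (L l362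 (T t191 N)))))))) (K a255 (M a16 (F (T t112 (L l266 (L l370 (T t190 (L l289 (L l296 (L l362 (T t191 N)))))))))) N))))))))))))))))⟩
def e0_63__67_23 : Ent 4 := ⟨[a0, a63], [a67, a29], (M a149 (F (T t25 (L l15 (T t175 (T t176 (L l76 (T t177 (K a192 (M a53 (F (T t178 (L l236 (T t179 (L l236 (L l296 (T t180 N)))))))) (K a21 (M a48 (L l15 (F (T t4 (L l121 (T t13 (L l18 (T t14 (K a17 (M a25 (F (T t4 (L l121 (T t13 (L l10 (L l18 (T t14 N)))))))) (K a25 (M a17 (F (T t181 (L l19 (L l65 (T t642 N)))))) N)))))))))) (K a85 (M a16 (F (L l13 (T t97 (L l144 (T t190 (L l94 (T t278 N)))))))) (K a213 (Fr a106 a192 l519 (Fr a42 a21 l68 (Fr a170 a234 l390 (Fr a255 a85 l476 (V t582))))) (K a42 (M a48 (F (T t187 (L l121 (L l390 (T t13 (L l54 (T t14 N)))))))) (K a106 (M a48 (F (L l15 (T t1 (L l498 (T t14 (L l390 (L l498 (T t6 (L l390 (T t26 N))))))))))) (K a170 (M a48 (F (T t4 (L l15 (L l462 (T t1 (L l121 (L l390 (T t13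 N))))))))) (K a191 (M a16 (F (T t112 (T t190 (L l213 (T t191 N)))))) (K a255 (M a16 (F (T t112 (L l266 (T t190 (L l289 (L l296 (T t191 N)))))))) N)))))))))))))))))⟩
def e0_63__67_24 : Ent 4 := ⟨[a0, a63], [a67, a30], (M a149 (F (T t25 (T t175 (T t176 (L l76 (T t177 (K a192 (M a53 (F (T t178 (L l236 (T t179 (L l236 (L l296 (T t180 N)))))))) (K a21 (M a48 (F (T t4 (L l121 (T t13 (L l18 (T t14 N))))))) (K a85 (M a16 (F (L l455 (T t112 (L l144 (T t190 (L l16 (L l94 (L l372 (T t278 N)))))))))) (K a213 (Fr a106 a192 l519 (Fr a42 a21 l68 (Fr a170 a234 l390 (Fr a255 a85 l476 (V t582))))) (K a42 (M a48 (F (T t187 (L l121 (L l390 (T t13 (L l54 (T t14 N)))))))) (K a106 (M a48 (F (T t48 (L l498 (T t14 (L l390 (L l498 (T t6 (L l390 (T t26 N)))))))))) (K a170 (M a48 (F (T t4 (L l63 (L l462 (T t1 (L l121 (L l390 (T t13 N))))))))) (K a191 (M a16 (F (T t112 (T t190 (L l213 (T t191 N)))))) (K a255 (M a16 (F (T t112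 (L l266 (T t190 (L l289 (L l296 (T t191 N)))))))) N))))))))))))))))⟩
def e0_63__67_25 : Ent 4 := ⟨[a0, a63], [a67, a31], (M a149 (F (T t25 (L l18 (T t175 (T t176 (L l76 (T t177 (K a192 (M a29 (F (T t956 (L l272 (T t641 (L l272 (L l296 (L l363 (T t957 N))))))))) (K a21 (M a12 (L l18 (F (T t958 (L l85 (T t648 (L l50 (T t649 (K a16 (M a26 (F (T t958 (L l85 (T t648 (L l50 (T t649 N))))))) (K a26 (M a16 (F (T t958 (L l50 (L l57 (T t652 N)))))) N)))))))))) (K a85 (M a48 (F (T t4 (L l18 (T t1 (L l121 (L l144 (T t13 N)))))))) (K a213 (Fr a106 a192 l519 (Fr a42 a21 l68 (Fr a170 a234 l390 (Fr a255 a85 l476 (V t582))))) (K a42 (M a48 (F (T t187 (L l121 (L l390 (T t13 (L l18 (L l54 (T t14 N))))))))) (K a106 (M a12 (F (L l408 (T t649 (L l13 (L l18 (T t122 (L l390 (L l408 (T t960 (L l390 (T t961 N)))))))))))) (K a170 (M a48 (F (T t4 (L l18 (L l462 (T t1 (L l121 (L l390 (T t13 N))))))))) (K a191 (M a240 (F (T t962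 (T t963 N)))) (K a255 (M a48 (F (T t964 (L l18 (L l469 (T t1 (L l121 (L l266 (T t13 N))))))))) N)))))))))))))))))⟩
def e0_63__67_26 : Ent 4 := ⟨[a0, a63], [a67, a40], (M a85 (F (T t255 (L l22 (L l76 (T t88 (L l22 (L l76 (T t89 (L l76 (L l392 (T t90 (K a64 (M a16 (L l76 (F (L l24 (T t258 (L l22 (L l116 (T t98 (L l22 (L l24 (T t97 (K a65 (M a66 (F (L l24 (T t258 (L l22 (L l116 (T t98 (L l22 (L l24 (T t97 N)))))))))) (K a66 (M a65 (F (L l306 (L l392 (T t965 (L l22 (L l24 (T t97 N)))))))) N))))))))))))) (K a192 (M a16 (F (L l24 (T t96 (L l22 (T t966 (L l22 (L l24 (L l339 (T t97 N)))))))))) (K a21 (M a48 (F (L l24 (T t99 (L l143 (L l392 (T t50 (L l24 (L l47 (L l143 (T t100 N))))))))))) (K a149 (M a16 (F (T t666 (L l22 (L l24 (L l375 (T t97 (L l22 (L l170 (T t102 N)))))))))) (K a213 (Fr a170 a255 l476 (Fr a42 a21 l68 (Fr a106 a234 l390 (Fr a192 a149 l519 (V t581))))) (K a42 (M a48 (L l22 (F (T t364 (L l143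 (L l390 (L l392 (T t50 (L l24 (L l28 (L l143 (T t100 (K a41 (M a43 (F (T t364 (L l66 (L l143 (L l388 (T t264 N))))))) (K a43 (M a41 (F (T t365 (L l143 (L l390 (L l392 (T t50 (L l24 (L l28 (L l143 (T t100 N))))))))))) N)))))))))))))) (K a106 (M a48 (F (T t1 (L l24 (L l104 (T t509 (L l143 (L l390 (L l392 (T t50 N)))))))))) (K a170 (M a105 (F (L l143 (L l218 (T t669 (L l22 (L l76 (L l390 (T t670 (L l218 (L l388 (T t967 (L l22 (L l218 (L l390 (T t672 N)))))))))))))))) (K a255 (M a16 (F (L l22 (L l24 (T t112 (L l24 (L l143 (L l289 (T t113 (L l22 (L l289 (L l296 (T t98 N))))))))))))) N)))))))))))))))))))))⟩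
def e0_63__67_27 : Ent 4 := ⟨[a0, a63], [a67, a41], (M a149 (F (L l22 (T t25 (L l65 (T t175 (L l22 (T t176 (L l76 (T t177 (K a192 (M a53 (F (L l22 (T t178 (L l236 (T t179 (L l22 (L l236 (L l296 (T t180 N)))))))))) (K a21 (M a48 (L l65 (F (T t4 (L l121 (T t13 (L l18 (T t14 (K a1 (M a61 (F (T t4 (L l11 (L l305 (T t968 N)))))) (K a61 (M a1 (F (T t181 (L l18 (L l29 (T t295 N)))))) N)))))))))) (K a85 (M a16 (F (L l22 (T t97 (L l144 (T t190 (L l22 (L l57 (L l94 (T t278 N)))))))))) (K a213 (Fr a106 a192 l519 (Fr a42 a21 l68 (Fr a170 a234 l390 (Fr a255 a85 l476 (V t582))))) (K a42 (M a40 (F (L l66 (T t969 (L l390 (T t970 (L l66 (L l307 (T t971 (L l65 (L l76 (L l390 (T t972 N))))))))))))) (K a106 (M a48 (F (L l65 (T t1 (L l498 (T t14 (L l22 (L l390 (L l498 (T t6 (L l22 (L l390 (T t26 N))))))))))))) (K a170 (M a48 (F (T t4 (L l65 (L l462 (T t1 (L l121 (L l390 (T t13 N))))))))) (K a191 (M a16 (F (L l22 (T t97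 (T t190 (L l22 (L l213 (T t191 N)))))))) (K a255 (M a16 (F (T t192 (L l22 (L l57 (T t193 (L l266 (T t190 N)))))))) N)))))))))))))))))))⟩
def e0_63__67_28 : Ent 4 := ⟨[a0, a63], [a67, a43], (M a149 (F (T t175 (L l22 (L l76 (T t5 (L l22 (T t176 (L l76 (L l393 (T t177 (K a192 (M a53 (F (L l22 (T t178 (L l236 (T t179 (L l22 (L l236 (L l296 (T t180 N)))))))))) (K a21 (M a48 (F (T t4 (L l121 (L l393 (T t13 (L l18 (T t14 N)))))))) (K a85 (M a16 (F (L l22 (T t97 (L l144 (L l393 (T t190 (L l22 (L l94 (T t278 N)))))))))) (K a213 (Fr a106 a192 l519 (Fr a42 a21 l68 (Fr a170 a234 l390 (Fr a255 a85 l476 (V t582))))) (K a42 (M a40 (F (L l145 (T t973 (L l66 (L l391 (T t969 (L l145 (L l390 (L l393 (T t974 (L l76 (L l390 (L l391 (L l393 (T t972 (K a105 (Fr a192 a106 l519 (Fr a60 a20 l64 (Fr a128 a64 l304 (Fr a170 a191 l220 (Fr a104 a148 l514 (Fr a168 a232 l388 (Fr a169 a171 l174 (V t1293)))))))) N))))))))))))))))) (K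 a106 (M a169 (F (L l22 (L l142 (L l390 (T t976 (L l22 (L l76 (L l390 (T t977 (L l142 (L l307 (L l391 (T t978 (L l22 (L l142 (L l145 (L l390 (T t979 (L l22 (L l390 (T t980 (L l142 (L l143 (L l307 (T t981 N)))))))))))))))))))))))))) (K a170 (M a48 (F (T t4 (L l462 (T t1 (L l121 (L l390 (L l393 (T t13 N))))))))) (K a191 (M a16 (F (L l22 (T t97 (L l393 (T t190 (L l22 (L l213 (T t191 N))))))))) (K a255 (M a16 (F (T t192 (L l22 (T t193 (L l266 (L l393 (T t190 N)))))))) N))))))))))))))))))))⟩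
def e0_63__67_29 : Ent 4 := ⟨[a0, a63], [a67, a44], (M a149 (F (T t25 (T t175 (T t176 (L l76 (T t177 (K a192 (M a53 (F (L l339 (T t982 (L l236 (L l398 (T t179 (L l236 (L l296 (T t180 N)))))))))) (K a21 (M a48 (F (T t4 (L l121 (T t13 (L l18 (L l398 (T t14 N)))))))) (K a85 (M a16 (F (L l24 (T t97 (L l24 (L l144 (T t190 (L l94 (T t278 N))))))))) (K a213 (Fr a106 a192 l519 (Fr a42 a21 l68 (Fr a170 a234 l390 (Fr a255 a85 l476 (V t582))))) (K a42 (M a48 (F (T t187 (L l121 (L l390 (T t13 (L l54 (L l398 (T t14 N))))))))) (K a106 (M a48 (F (T t1 (L l398 (L l498 (T t14 (L l390 (L l498 (T t6 (L l24 (L l390 (T t26 N)))))))))))) (K a170 (M a48 (F (T t4 (L l462 (T t1 (L l121 (L l390 (T t13 N)))))))) (K a191 (M a16 (F (L l24 (T t97 (L l213 (T t191 (L l24 (L l213 (T t192 N))))))))) (K a255 (M a16 (F (L l24 (T t112 (L l289 (L l296 (T t191 (L l24 (T t192 N))))))))) N))))))))))))))))⟩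
def e0_63__67_30 : Ent 4 := ⟨[a0, a63], [a67, a45], (M a149 (F (T t25 (T t175 (T t176 (L l76 (T t177 (K a192 (M a53 (F (T t178 (L l236 (T t179 (L l236 (L l296 (T t180 N)))))))) (K a21 (M a48 (F (T t4 (L l121 (T t13 (L l18 (T t14 N))))))) (K a85 (M a16 (F (T t504 (L l144 (T t190 (L l94 (T t278 N))))))) (K a213 (Fr a106 a192 l519 (Fr a42 a21 l68 (Fr a170 a234 l390 (Fr a255 a85 l476 (V t582))))) (K a42 (M a48 (F (T t187 (L l121 (L l390 (T t13 (L l54 (T t14 N)))))))) (K a106 (M a48 (F (T t48 (L l498 (T t14 (L l390 (L l498 (T t6 (L l390 (T t26 N)))))))))) (K a170 (M a48 (F (T t4 (L l63 (L l462 (T t1 (L l121 (L l390 (T t13 N))))))))) (K a191 (M a16 (F (T t112 (T t190 (L l213 (T t191 N)))))) (K a255 (M a16 (F (T t112 (L l266 (T t190 (L l289 (L l296 (T t191 N)))))))) N))))))))))))))))⟩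
def e0_63__67_31 : Ent 4 := ⟨[a0, a63], [a67, a46], (M a149 (F (T t175 (L l26 (L l76 (T t5 (L l26 (T t176 (L l76 (L l408 (T t177 (K a192 (M a53 (F (L l26 (T t178 (L l236 (T t179 (L l26 (L l236 (L l296 (T t180 N)))))))))) (K a21 (M a48 (F (T t4 (L l121 (L l408 (T t13 (L l18 (T t14 N)))))))) (K a85 (M a16 (F (L l26 (T t97 (L l144 (L l408 (T t190 (L l26 (L l94 (T t278 N)))))))))) (K a213 (Fr a106 a192 l519 (Fr a42 a21 l68 (Fr a170 a234 l390 (Fr a255 a85 l476 (V t582))))) (K a42 (M a34 (F (T t279 (L l119 (L l390 (L l408 (T t280 (L l56 (L l396 (T t281 (L l76 (L l390 (L l396 (L l408 (T t282 N))))))))))))))) (K a106 (M a166 (F (L l132 (T t283 (L l26 (L l390 (T t284 (L l132 (L l396 (T t285 (L l26 (L l132 (L l390 (T t286 N)))))))))))))) (K a170 (M a48 (F (T t4 (L l462 (T t1 (L l121 (L l390 (L l408 (T t13 N))))))))) (K a191 (M a16 (F (L l26 (T t97 (L l408 (T t190 (L l26 (L l213 (T t191 N))))))))) (K a255 (M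 a16 (F (T t192 (L l26 (T t193 (L l266 (L l408 (T t190 N)))))))) N))))))))))))))))))))⟩
def e0_63__67_32 : Ent 4 := ⟨[a0, a63], [a67, a47], (M a149 (F (T t175 (L l28 (L l76 (T t5 (L l28 (T t176 (L l76 (L l411 (T t177 (K a192 (M a29 (F (L l23 (L l28 (T t956 (L l23 (L l272 (T t641 (L l28 (L l272 (L l296 (T t957 N)))))))))))) (K a21 (M a48 (F (T t4 (L l121 (L l411 (T t13 (L l18 (L l397 (T t14 N))))))))) (K a85 (M a48 (F (T t4 (L l28 (L l455 (T t2 (L l121 (L l144 (L l411 (T t13 N)))))))))) (K a213 (Fr a106 a192 l519 (Fr a42 a21 l68 (Fr a170 a234 l390 (Fr a255 a85 l476 (V t582))))) (K a42 (M a32 (F (T t983 (L l121 (L l390 (L l411 (T t984 (L l54 (L l397 (T t985 (L l76 (L l390 (L l397 (L l411 (T t986 N))))))))))))))) (K a106 (M a165 (F (L l130 (T t987 (L l28 (L l390 (T t988 (L l130 (L l397 (T t989 (L l28 (L l130 (L l390 (T t990 N)))))))))))))) (K a170 (M a12 (F (T t991 (L l402 (T t122 (L l85 (L l390 (L l411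 (T t648 N))))))))) (K a191 (M a144 (F (L l411 (T t992 (L l28 (L l213 (T t993 (L l121 (L l411 (T t994 N)))))))))) (K a255 (M a48 (F (T t16 (L l28 (L l469 (T t2 (L l121 (L l266 (L l411 (T t13 N)))))))))) N))))))))))))))))))))⟩
def e0_63__67_33 : Ent 4 := ⟨[a0, a63], [a67, a60], (M a48 (F (T t48 (L l63 (T t1 (L l63 (T t2 (L l63 (T t3 (L l63 (T t0 (K a16 (M a85 (F (T t49 (L l143 (L l442 (T t50 (T t51 N))))))) (K a32 (M a85 (F (L l434 (T t255 (L l143 (L l404 (L l442 (T t50 (L l28 (T t51 N)))))))))) (K a21 (M a192 (F (T t54 (L l121 (L l442 (T t27 (L l47 (L l347 (T t29 N))))))))) (K a37 (M a192 (F (T t54 (L l121 (L l442 (T t27 (L l143 (L l434 (T t21 N))))))))) (K a53 (M a192 (F (T t36 (L l143 (L l434 (L l491 (T t21 (T t31 N)))))))) (K a26 (M a192 (F (T t56 (L l121 (L l442 (T t27 (L l143 (L l434 (T t21 N))))))))) (K a42 (M a192 (F (T t56 (L l121 (L l442 (T t27 (L l28 (T t29 N)))))))) (K a58 (M a192 (F (T t57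 (L l121 (L l442 (T t27 (L l54 (L l498 (T t31 N))))))))) (K a15 (M a160 (L l63 (F (T t995 (T t996 (L l434 (L l469 (L l483 (T t997 (K a45 (M a30 (F (T t998 (L l39 (T t293 N))))) (K a30 (M a45 (F (T t998 (L l39 (T t294 N))))) N))))))))))) N))))))))))))))))))))⟩
def e0_63__67_34 : Ent 4 := ⟨[a0, a63], [a67, a61], (M a149 (F (T t25 (L l65 (T t175 (T t176 (L l76 (T t177 (K a192 (M a53 (F (T t178 (L l236 (T t179 (L l236 (L l296 (L l443 (T t180 N))))))))) (K a21 (M a48 (L l65 (F (T t4 (L l121 (T t13 (L l18 (T t14 (K a1 (M a41 (F (T t7 (L l18 (T t14 (L l121 (T t13 N))))))) (K a41 (M a1 (F (T t181 (L l18 (L l29 (T t295 N)))))) N)))))))))) (K a85 (M a16 (F (T t97 (L l144 (T t190 (L l94 (T t278 N))))))) (K a213 (Fr a106 a192 l519 (Fr a42 a21 l68 (Fr a170 a234 l390 (Fr a255 a85 l476 (V t582))))) (K a42 (M a48 (F (L l54 (T t4 (L l121 (L l390 (T t13 (L l54 (T t14 N))))))))) (K a106 (M a48 (F (L l498 (T t14 (L l35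 (L l65 (T t1 (L l390 (L l498 (T t6 (L l390 (T t26 N)))))))))))) (K a170 (M a48 (F (T t4 (L l35 (L l65 (L l462 (T t1 (L l121 (L l390 (T t13 N)))))))))) (K a191 (M a16 (F (T t97 (T t190 (L l213 (T t191 N)))))) (K a255 (M a16 (F (T t112 (L l266 (T t190 (L l289 (L l296 (T t191 N)))))))) N)))))))))))))))))⟩
def e0_63__67_35 : Ent 4 := ⟨[a0, a63], [a67, a62], (M a149 (F (T t175 (L l66 (L l76 (T t5 (L l66 (T t176 (L l76 (L l516 (T t177 (K a192 (M a53 (F (L l36 (L l66 (T t178 (L l36 (L l236 (T t179 (L l66 (L l236 (L l296 (T t180 N)))))))))))) (K a21 (M a48 (F (L l36 (T t4 (L l121 (L l516 (T t13 (L l18 (L l36 (T t14 N)))))))))) (K a85 (M a16 (F (L l66 (T t97 (L l144 (L l516 (T t190 (L l66 (L l94 (T t278 N)))))))))) (K a213 (Fr a106 a192 l519 (Fr a42 a21 l68 (Fr a170 a234 l390 (Fr a255 a85 l476 (V t582))))) (K a42 (M a48 (L l66 (F (T t187 (L l121 (L l390 (L l516 (T t13 (L l36 (L l54 (T t14 (K a2 (M a22 (F (T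 t187 (L l121 (L l390 (L l516 (T t13 (L l36 (L l54 (T t14 N)))))))))) (K a22 (M a2 (F (T t187 (L l22 (L l432 (T t189 N)))))) N))))))))))))) (K a106 (M a150 (F (L l66 (L l390 (T t999 (L l76 (L l98 (L l143 (L l432 (T t1000 (L l66 (L l98 (L l145 (L l390 (T t1001 (L l98 (L l143 (T t1002 N)))))))))))))))))) (K a170 (M a48 (F (T t11 (L l462 (T t1 (L l121 (L l390 (L l516 (T t13 N))))))))) (K a191 (M a252 (F (L l516 (T t940 (L l66 (L l432 (T t941 N))))))) (K a255 (M a16 (F (L l36 (T t192 (L l66 (T t193 (L l266 (L l516 (T t190 N))))))))) N))))))))))))))))))))⟩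
def e0_63__67_36 : Ent 4 := ⟨[a0, a63], [a67, a64], (M a48 (L l76 (F (T t1 (T t2 (T t3 (T t0 (K a16 (M a106 (L l76 (F (T t304 (L l18 (T t305 (L l18 (T t306 (K a65 (M a66 (F (T t307 (L l18 (T t308 N))))) (K a66 (M a65 (F (T t304 (L l18 (L l140 (L l306 (T t1003 N))))))) N)))))))))) (K a32 (M a106 (L l76 (F (T t309 (L l143 (T t310 (T t306 (K a65 (M a66 (F (T t307 (T t308 N)))) (K a66 (M a65 (F (T t578 (L l140 (L l306 (T t1003 N)))))) N))))))))) (K a21 (M a101 (L l76 (F (T t312 (L l116 (T t313 (L l18 (T t314 (K a65 (M a66 (F (T t312 (T t315 (L l18 (T t314 N)))))) (K a66 (M a65 (F (T t687 (L l306 (T t688 N))))) N)))))))))) (K a37 (M a170 (L l76 (F (T t316 (L l47 (T t317 (L l47 (T t318 (K a65 (M a66 (F (T t319 (L l47 (T t322 N))))) (K a66 (M a65 (F (T t1004 (L l309 (T t321 N))))) N)))))))))) (K a53 (M a170 (L l76 (F (T t323 (L l47 (T t317 (L l47 (L l116 (T t324 (K a65 (M a66 (F (T t325 (L l47 (T t322 N)))))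 (K a66 (M a65 (F (T t1004 (L l47 (L l116 (T t324 N)))))) N))))))))))) (K a26 (M a154 (L l76 (F (T t326 (T t327 (L l18 (T t328 (K a65 (M a66 (F (T t329 (T t332 N)))) (K a66 (M a65 (F (T t330 (L l306 (T t688 N))))) N))))))))) (K a42 (M a101 (L l76 (F (T t333 (T t334 (L l54 (T t314 (K a65 (M a66 (F (T t335 (T t336 (L l54 (T t314 N)))))) (K a66 (M a65 (F (T t336 (L l306 (T t688 N))))) N))))))))) (K a58 (M a170 (L l76 (F (T t316 (T t317 (L l116 (T t324 (K a65 (M a66 (F (T t337 (T t322 N)))) (K a66 (M a65 (F (T t1004 (L l116 (T t324 N))))) N))))))))) (K a15 (M a2 (L l76 (F (T t338 (L l73 (T t339 (T t340 (K a65 (M a66 (F (L l305 (T t342 (T t343 N))))) (K a66 (M a65 (F (T t1005 (L l63 (T t824 N))))) N))))))))) (K a65 (M a66 (F (T t1 (T t2 (T t3 (T t0 (K a16 (M a192 (F (T t20 (L l14 (L l305 (T t205 N)))))) (K a32 (M a192 (F (T t225 (L l28 (L l305 (T t205 N)))))) (K a21 (M a192 (F (L l347 (T t225 (L l18 (L l305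 (T t351 N))))))) (K a37 (M a192 (F (T t225 (L l305 (T t351 N))))) (K a53 (M a2 (F (L l305 (T t339 (L l47 (T t343 N)))))) (K a26 (M a192 (F (T t225 (L l16 (L l18 (L l305 (T t351 N))))))) (K a42 (M a192 (F (T t225 (L l305 (T t351 N))))) (K a58 (M a2 (F (L l305 (T t342 (T t343 N))))) (K a15 (M a192 (F (T t33 (L l73 (L l305 (T t351 N)))))) N))))))))))))))) (K a66 (M a65 (F (T t1 (L l306 (T t688 (L l306 (T t689 (K a32 (M a8 (F (L l306 (T t690 (T t691 N))))) N)))))))) N))))))))))))))))))⟩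
def e0_63__67_37 : Ent 4 := ⟨[a0, a63], [a67, a65], (M a48 (L l76 (F (T t1 (T t2 (T t3 (T t0 (K a16 (M a192 (L l76 (F (T t37 (T t20 (L l18 (L l121 (L l340 (T t391 (K a64 (M a66 (F (T t20 (L l14 (L l305 (T t205 N)))))) (K a66 (Fr a64 a128 l304 (V t392)) N))))))))))) (K a32 (M a106 (L l76 (F (T t393 (T t309 (T t306 (K a64 (M a66 (F (T t307 (T t308 N)))) (K a66 (M a64 (F (T t394 (L l143 (T t395 N))))) N)))))))) (K a21 (M a192 (L l76 (F (T t28 (L l47 (L l347 (T t20 (L l47 (L l347 (T t29 (K a64 (M a66 (F (L l347 (T t225 (L l18 (L l305 (T t351 N))))))) (K a66 (Fr a64 a128 l304 (V t396)) N)))))))))))) (K a37 (M a192 (L l76 (F (T t19 (L l143 (T t21 (L l47 (T t20 (K a64 (M a66 (F (T t225 (L l305 (T t351 N))))) (K a66 (Fr a64 a128 l304 (V t392)) N)))))))))) (K a53 (M a192 (L l76 (F (T t19 (L l143 (L l491 (T t21 (T t31 (K a64 (M a66 (F (L l305 (T t351 (L l116 (L l144 (T t31 (L l305 (L l491 (T t203 N))))))))))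 (K a66 (Fr a64 a128 l304 (V t392)) N)))))))))) (K a26 (M a192 (L l76 (F (T t28 (L l143 (T t21 (T t20 (K a64 (M a66 (F (T t225 (L l16 (L l18 (L l305 (T t351 N))))))) (K a66 (Fr a64 a128 l304 (V t392)) N))))))))) (K a42 (M a192 (L l76 (F (T t19 (T t20 (L l28 (T t29 (K a64 (M a66 (F (T t225 (L l305 (T t351 N))))) (K a66 (Fr a64 a128 l304 (V t396)) N))))))))) (K a58 (M a192 (L l76 (F (T t19 (L l143 (T t21 (L l54 (L l498 (T t31 (K a64 (M a66 (F (L l305 (T t203 (L l54 (L l116 (L l144 (L l498 (T t31 (L l305 (T t351 N))))))))))) (K a66 (Fr a64 a128 l304 (V t392)) N))))))))))) (K a15 (M a192 (L l76 (F (T t57 (L l121 (L l483 (T t27 (L l325 (T t20 (K a64 (M a66 (F (T t33 (L l73 (L l305 (T t351 N)))))) (K a66 (Fr a64 a128 l304 (V t392)) N))))))))))) (K a64 (M a66 (F (T t1 (T t2 (T t3 (T t0 (K a16 (M a192 (F (T t20 (L l14 (L l305 (T t205 N)))))) (K a32 (M a192 (F (T t225 (L l28 (L l305 (T t205 N)))))) (K a21 (M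 a192 (F (L l347 (T t225 (L l18 (L l305 (T t351 N))))))) (K a37 (M a192 (F (T t225 (L l305 (T t351 N))))) (K a53 (M a2 (F (L l305 (T t339 (L l47 (T t343 N)))))) (K a26 (M a192 (F (T t225 (L l16 (L l18 (L l305 (T t351 N))))))) (K a42 (M a192 (F (T t225 (L l305 (T t351 N))))) (K a58 (M a2 (F (L l305 (T t342 (T t343 N))))) (K a15 (M a192 (F (T t33 (L l73 (L l305 (T t351 N)))))) N))))))))))))))) (K a66 (M a64 (F (T t2 (L l121 (T t363 (L l143 (T t397 N))))))) N))))))))))))))))))⟩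
def e0_63__67_38 : Ent 4 := ⟨[a0, a63], [a67, a66], (M a85 (L l76 (F (T t168 (L l143 (T t52 (L l309 (T t352 (K a192 (M a3 (L l76 (F (T t630 (L l292 (L l306 (T t354 (L l143 (L l228 (T t692 (K a64 (M a65 (F (T t632 (L l142 (L l145 (L l296 (L l306 (T t693 (L l296 (T t694 N)))))))))) (K a65 (M a64 (F (T t359 (L l514 (T t137 N))))) N)))))))))))) (K a21 (M a48 (L l76 (F (T t99 (L l143 (T t50 (L l47 (L l143 (T t100 (K a64 (M a65 (F (T t695 (L l143 (T t50 N))))) (K a65 (M a64 (F (T t359 (L l121 (T t363 N))))) N))))))))))) (K a149 (M a16 (L l76 (F (T t173 (L l375 (T t97 (L l170 (T t102 (K a64 (M a65 (F (T t112 (L l163 (L l306 (T t696 N)))))) (K a65 (M a64 (F (L l220 (T t359 (L l375 (T t97 N)))))) N)))))))))) (K a213 (Fr a170 a255 l476 (Fr a42 a21 l68 (Fr a106 a234 l390 (Fr a192 a149 l519 (V t581))))) (K a42 (M a48 (L l76 (F (T t364 (L l143 (L l390 (T t50 (L l28 (L l143 (T t100 (K a64 (M a65 (F (L l306 (T t688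 (L l143 (L l390 (T t50 N))))))) (K a65 (M a64 (F (T t367 (L l28 (T t360 N))))) N)))))))))))) (K a106 (M a86 (L l76 (F (L l390 (T t697 (L l390 (T t369 (L l393 (T t370 (L l143 (L l307 (L l309 (T t698 (K a64 (M a65 (F (T t694 (L l143 (L l390 (T t699 (L l143 (L l306 (T t700 N))))))))) (K a65 (M a64 (F (L l390 (T t373 (L l305 (L l393 (T t374 (L l143 (T t375 N))))))))) N))))))))))))))) (K a170 (M a48 (L l76 (F (T t3 (L l143 (L l404 (T t100 (L l390 (T t51 (L l390 (L l404 (T t568 (K a64 (M a65 (F (T t3 (L l218 (L l306 (T t701 N)))))) (K a65 (M a64 (F (L l220 (T t367 (L l462 (T t1 N)))))) N)))))))))))))) (K a234 (Fr a170 a255 l476 (Fr a21 a42 l68 (Fr a149 a213 l347 (Fr a192 a106 l519 (V t583))))) (K a255 (M a16 (L l76 (F (T t112 (L l143 (L l289 (T t113 (L l289 (L l296 (T t98 (K a64 (M a65 (F (T t112 (L l289 (L l434 (T t702 (L l140 (L l306 (L l434 (T t703 N)))))))))) (K a65 (M a64 (F (T t367 (L l469 (T t97 N)))))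 N)))))))))))) (K a64 (M a65 (F (T t694 (L l306 (T t704 (L l143 (L l306 (T t705 (L l142 (L l143 (L l145 (T t706 (L l145 (T t707 N)))))))))))))) (K a65 (M a64 (F (T t367 (T t359 (L l309 (T t390 N)))))) N)))))))))))))))))))⟩
def e0_63__67_39 : Ent 4 := ⟨[a0, a63], [a67, a68], (M a48 (F (T t1 (T t2 (T t3 (T t0 (K a16 (M a60 (F (T t64 (L l14 (L l18 (L l307 (T t67 (T t65 N)))))))) (K a32 (M a60 (F (T t64 (L l307 (T t67 (L l24 (L l28 (T t65 N)))))))) (K a21 (M a192 (F (T t28 (L l47 (L l347 (T t20 (L l47 (L l347 (T t29 N))))))))) (K a37 (M a192 (F (T t19 (L l47 (T t20 (L l143 (T t21 N))))))) (K a53 (M a192 (F (T t19 (L l143 (L l491 (T t21 (T t31 N))))))) (K a26 (M a192 (F (T t28 (T t20 (L l143 (T t21 N)))))) (K a42 (M a192 (F (T t19 (T t20 (L l28 (T t29 N)))))) (K a58 (M a192 (F (T t19 (L l143 (T t21 (L l54 (L l498 (T t31 N)))))))) (K a15 (M a192 (F (T t57 (L l121 (L l483 (T t27 (L l325 (T t20 N)))))))) N)))))))))))))))⟩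
def e0_63__67_40 : Ent 4 := ⟨[a0, a63], [a67, a69], (M a48 (F (T t1 (L l311 (T t2 (T t3 (T t0 (K a16 (M a60 (F (T t64 (L l14 (L l18 (L l307 (T t67 (L l311 (T t65 N))))))))) (K a32 (M a60 (F (T t64 (L l307 (T t67 (L l24 (L l28 (L l311 (T t65 N))))))))) (K a21 (M a192 (F (T t28 (L l47 (L l347 (T t20 (L l47 (L l347 (T t29 N))))))))) (K a37 (M a192 (F (T t19 (L l47 (T t20 (L l143 (T t21 N))))))) (K a53 (M a192 (F (T t19 (L l143 (L l491 (T t21 (T t31 N))))))) (K a26 (M a192 (F (T t28 (T t20 (L l143 (T t21 N)))))) (K a42 (M a192 (F (T t19 (T t20 (L l28 (T t29 N)))))) (K a58 (M a192 (F (T t19 (L l143 (T t21 (L l54 (L l498 (T t31 N)))))))) (K a15 (M a192 (F (T t57 (L l121 (L l483 (T t27 (L l325 (T t20 N)))))))) N))))))))))))))))⟩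
def e0_63__67_41 : Ent 4 := ⟨[a0, a63], [a67, a70], (M a12 (L l85 (F (T t122 (T t151 (T t152 (T t153 (K a4 (M a60 (L l85 (F (T t398 (L l46 (L l50 (L l307 (L l333 (T t67 (T t448 (K a76 (M a73 (F (T t680 (L l145 (L l312 (L l314 (T t1006 N))))))) (K a73 (M a76 (F (T t743 (T t522 N)))) N)))))))))))) (K a8 (M a149 (L l85 (F (T t991 (L l56 (L l76 (T t5 (L l56 (T t960 (K a76 (M a73 (F (T t1007 (L l312 (T t1008 N))))) (K a73 (M a76 (L l320 (F (T t175 (L l119 (L l315 (T t1009 (K a138 (M a203 (L l330 (F (T t1007 (L l119 (L l315 (T t1009 (K a2 (M a206 (F (T t959 (L l66 (T t1010 N))))) (K a206 (M a2 (F (T t959 (L l504 (T t824 N))))) N))))))))) (K a203 (M a138 (F (T t991 (L l56 (L l77 (L l81 (T t1011 N))))))) N))))))))) N))))))))))) (K a21 (M a192 (L l85 (F (T t221 (L l50 (L l333 (T t449 (L l15 (L l347 (T t157 (K a76 (M a73 (F (T t221 (L l307 (L l330 (T t1012 N)))))) (K a73 (M a76 (F (T t1013 (L l143 (T t738 N)))))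 N)))))))))))) (K a25 (M a192 (L l85 (F (T t467 (L l333 (T t449 (L l143 (T t21 (K a76 (M a73 (F (T t467 (L l56 (L l307 (L l330 (T t1012 N))))))) (K a73 (M a76 (F (T t1013 (L l143 (T t738 N))))) N)))))))))) (K a29 (M a192 (L l85 (F (T t37 (L l333 (T t449 (T t160 (K a76 (M a73 (F (T t37 (L l59 (L l83 (L l315 (T t1014 N))))))) (K a73 (M a76 (F (T t1013 (L l315 (L l371 (T t1015 N)))))) N))))))))) (K a38 (M a192 (L l85 (F (T t450 (L l50 (L l333 (T t449 (L l143 (T t21 (K a76 (M a73 (F (T t450 (L l307 (L l330 (T t1012 N)))))) (K a73 (M a76 (F (T t1013 (L l143 (T t738 N))))) N))))))))))) (K a42 (M a192 (L l85 (F (T t450 (L l333 (T t449 (L l56 (T t157 (K a76 (M a73 (F (T t450 (L l56 (L l307 (L l330 (T t1012 N))))))) (K a73 (M a76 (F (T t1013 (L l143 (T t738 N))))) N)))))))))) (K a46 (M a192 (L l85 (F (T t35 (L l333 (T t449 (L l26 (L l408 (T t160 (K a76 (M a73 (F (T t35 (L l83 (L l315 (T t1014 N)))))) (K a73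 (M a76 (F (T t1013 (L l315 (T t1015 N))))) N))))))))))) (K a51 (M a192 (L l85 (F (T t496 (L l415 (T t450 (L l143 (L l439 (T t21 (K a76 (M a73 (F (T t161 (L l307 (L l330 (L l487 (T t1012 N))))))) (K a73 (M a76 (F (T t1013 (L l143 (L l439 (T t738 N)))))) N))))))))))) (K a76 (M a73 (F (T t122 (L l77 (L l79 (T t1016 (L l79 (L l312 (T t1017 (K a8 (M a192 (F (T t450 (L l76 (L l307 (L l312 (L l330 (L l333 (T t1018 N))))))))) N)))))))))) (K a73 (M a76 (F (T t122 (L l76 (T t1019 (L l143 (T t738 N))))))) N))))))))))))))))))⟩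
def e0_63__67_42 : Ent 4 := ⟨[a0, a63], [a67, a71], (M a149 (L l83 (F (T t25 (T t175 (T t176 (L l76 (T t177 (K a192 (M a53 (L l83 (F (T t178 (L l236 (T t179 (L l77 (L l236 (L l296 (T t180 (K a75 (M a79 (F (T t178 (L l236 (T t179 (L l77 (L l236 (L l296 (T t180 N))))))))) (K a79 (M a75 (F (T t939 (L l236 (T t179 (L l77 (L l84 (L l236 (L l296 (T t180 N)))))))))) N)))))))))))) (K a21 (M a60 (L l83 (F (T t1020 (L l11 (T t1021 (L l11 (T t462 (K a75 (M a79 (F (T t1022 (L l11 (T t1021 (L l11 (T t462 N))))))) (K a79 (M a75 (F (T t1023 (L l11 (T t1021 N))))) N)))))))))) (K a85 (M a16 (L l83 (F (T t97 (L l144 (T t190 (L l94 (T t278 (K a75 (M a79 (F (T t504 (L l144 (T t190 (L l94 (L l133 (T t278 N)))))))) (K a79 (M a75 (F (T t504 (L l144 (T t190 (L l94 (L l151 (T t278 N)))))))) N)))))))))) (K a213 (Fr a106 a192 l519 (Fr a42 a21 l68 (Fr a170 a234 l390 (Fr a255 a85 l476 (V t582))))) (K a42 (M a15 (L l83 (F (T t1024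 (L l331 (L l390 (T t1025 (L l28 (T t1026 (K a75 (M a79 (F (T t1027 (L l28 (T t1026 N))))) (K a79 (M a75 (F (L l313 (T t1028 (L l54 (L l84 (L l331 (L l390 (T t1029 N))))))))) N))))))))))) (K a106 (M a15 (L l83 (F (T t732 (L l411 (T t1026 (L l390 (T t1030 (L l390 (L l411 (T t1031 (K a75 (M a79 (F (T t1032 (L l390 (L l411 (T t1031 N)))))) (K a79 (M a75 (F (L l313 (T t1033 (L l390 (T t1030 N)))))) N))))))))))))) (K a170 (M a60 (L l83 (F (T t461 (T t116 (L l145 (L l390 (T t463 (K a75 (M a79 (F (T t1034 (T t116 (L l145 (L l390 (T t463 N))))))) (K a79 (M a75 (F (T t1023 (L l390 (T t1021 N))))) N)))))))))) (K a191 (M a252 (L l83 (F (T t940 (T t941 (K a75 (M a79 (F (T t940 (T t941 N)))) (K a79 (M a75 (F (T t940 (T t941 N)))) N))))))) (K a255 (M a60 (L l83 (F (T t1020 (T t116 (L l145 (L l261 (T t463 (K a75 (M a79 (F (T t1020 (T t116 (L l145 (L l261 (T t463 N))))))) (K a79 (M a75 (F (T t1023 (L l261 (T t1021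 N))))) N)))))))))) (K a75 (M a79 (F (T t25 (L l78 (T t1035 (T t1036 (K a106 (M a5 (F (T t1037 (L l77 (L l390 (T t1038 N)))))) N))))))) (K a79 (M a75 (F (T t25 (T t175 (T t176 (L l76 (L l84 (T t177 (K a192 (M a5 (F (L l313 (T t1039 (L l77 (L l84 (L l296 (T t1038 N)))))))) (K a21 (M a60 (F (T t1023 (L l11 (T t1021 N))))) (K a85 (M a16 (F (T t504 (L l144 (T t190 (L l94 (L l151 (T t278 N)))))))) (K a213 (Fr a106 a192 l519 (Fr a42 a21 l68 (Fr a170 a234 l390 (Fr a255 a85 l476 (V t582))))) (K a42 (M a90 (F (L l28 (T t1040 (L l66 (L l307 (T t1041 N))))))) (K a106 (M a5 (F (L l313 (T t1039 (L l77 (L l84 (L l390 (T t1038 N)))))))) (K a170 (M a60 (F (T t1023 (L l390 (T t1021 N))))) (K a191 (M a252 (F (T t940 (T t941 N)))) (K a255 (M a60 (F (T t1023 (L l261 (T t1021 N))))) N))))))))))))))))) N)))))))))))))))))))⟩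
def e0_63__67_43 : Ent 4 := ⟨[a0, a63], [a67, a72], (M a48 (F (T t1 (T t2 (T t3 (T t0 (K a16 (M a60 (F (T t64 (L l14 (L l18 (L l307 (T t67 (T t65 N)))))))) (K a32 (M a60 (F (T t64 (L l307 (T t67 (L l24 (L l28 (T t65 N)))))))) (K a21 (M a192 (F (T t28 (L l47 (L l347 (T t20 (L l47 (L l347 (T t29 N))))))))) (K a37 (M a192 (F (T t19 (L l47 (T t20 (L l143 (T t21 N))))))) (K a53 (M a192 (F (T t19 (L l143 (L l491 (T t21 (L l132 (T t31 N)))))))) (K a26 (M a192 (F (T t28 (T t20 (L l143 (T t21 N)))))) (K a42 (M a192 (F (T t19 (T t20 (L l28 (T t29 N)))))) (K a58 (M a192 (F (T t19 (L l143 (T t21 (L l54 (L l132 (L l498 (T t31 N))))))))) (K a15 (M a192 (F (T t57 (L l121 (L l483 (T t27 (L l325 (T t20 N)))))))) N)))))))))))))))⟩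
def e0_63__67_44 : Ent 4 := ⟨[a0, a63], [a67, a73], (M a149 (L l85 (F (T t25 (T t175 (T t176 (L l76 (T t177 (K a192 (M a53 (L l85 (F (T t178 (L l236 (T t179 (L l81 (L l236 (L l296 (T t180 (K a76 (M a70 (F (T t939 (L l236 (T t179 (L l81 (L l236 (L l296 (T t180 N))))))))) (K a70 (M a76 (F (T t939 (L l236 (T t179 (L l77 (L l81 (L l236 (L l296 (T t180 N)))))))))) N)))))))))))) (K a21 (M a204 (L l85 (F (T t1042 (L l320 (L l338 (T t1043 (T t1044 (K a76 (M a70 (F (T t1045 (L l83 (L l320 (T t756 N)))))) (K a70 (M a76 (F (T t1046 (L l76 (T t1047 (L l143 (T t1048 N))))))) N)))))))))) (K a85 (M a3 (L l85 (F (T t1049 (L l350 (T t137 (L l76 (L l144 (L l335 (L l338 (T t1050 (K a76 (M a70 (F (T t1049 (L l320 (L l322 (T t1051 N)))))) (K a70 (M a76 (F (T t1052 (L l330 (T t665 (L l76 (L l82 (L l144 (L l330 (L l335 (L l338 (T t1050 N)))))))))))) N))))))))))))) (K a213 (Fr a106 a192 l519 (Fr a42 a21 l68 (Fr a170 a234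 l390 (Fr a255 a85 l476 (V t582))))) (K a42 (M a204 (L l85 (F (T t1042 (L l76 (L l338 (L l390 (T t1053 (T t1044 (K a76 (M a70 (F (T t1045 (L l83 (L l320 (T t756 N)))))) (K a70 (M a76 (F (T t1054 (L l76 (T t1047 (L l143 (T t1048 N))))))) N))))))))))) (K a106 (M a12 (L l85 (F (T t122 (L l408 (T t649 (L l390 (L l408 (T t960 (L l320 (L l390 (T t961 (K a76 (M a70 (F (T t122 (L l408 (T t649 (L l320 (L l390 (T t961 (L l138 (L l390 (L l408 (T t960 N)))))))))))) (K a70 (M a76 (F (T t743 (L l320 (L l390 (T t961 N)))))) N)))))))))))))) (K a170 (M a204 (L l85 (F (T t1042 (L l320 (L l338 (L l390 (L l464 (T t1043 (L l208 (L l390 (T t1055 (L l208 (T t1056 (K a76 (M a70 (F (T t1045 (L l80 (L l307 (L l474 (T t1057 N))))))) (K a70 (M a76 (F (L l143 (T t1048 (L l208 (L l315 (L l390 (T t1058 N)))))))) N)))))))))))))))) (K a191 (M a240 (L l85 (F (T t962 (L l335 (T t963 (K a76 (M a70 (F (T t962 (L l335 (T t963 N))))) (K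 a70 (M a76 (F (T t962 (L l315 (L l335 (T t963 N)))))) N)))))))) (K a255 (M a212 (L l85 (F (T t1059 (L l145 (T t1060 (L l434 (T t1061 (K a76 (M a70 (F (T t1062 (L l434 (T t1061 N))))) (K a70 (M a76 (F (T t1059 (L l124 (L l145 (T t1060 (L l434 (T t1061 N)))))))) N)))))))))) (K a76 (M a70 (F (T t25 (T t175 (T t176 (L l76 (L l80 (T t177 (K a192 (M a204 (F (L l317 (T t1063 (L l138 (L l150 (L l296 (L l489 (T t1064 N))))))))) (K a21 (M a204 (F (T t1045 (L l83 (L l320 (T t756 N)))))) (K a85 (M a212 (F (T t1062 (L l144 (L l350 (T t1061 N)))))) (K a213 (Fr a106 a192 l519 (Fr a42 a21 l68 (Fr a170 a234 l390 (Fr a255 a85 l476 (V t582))))) (K a42 (M a212 (F (T t1062 (L l390 (T t1061 N))))) (K a106 (M a204 (F (L l83 (T t1065 (L l102 (L l138 (L l390 (T t1066 N)))))))) (K a170 (M a212 (F (T t1062 (L l174 (L l390 (T t1061 N)))))) (K a191 (M a240 (F (T t962 (L l335 (T t963 N))))) (K a255 (M a212 (F (T t1062 (L l434 (T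 t1061 N))))) N))))))))))))))))) (K a70 (M a76 (F (T t25 (L l78 (T t1067 (T t1068 (K a106 (M a4 (F (L l320 (T t1069 (L l77 (L l390 (T t1070 N))))))) N))))))) N)))))))))))))))))))⟩
def e0_63__67_45 : Ent 4 := ⟨[a0, a63], [a67, a74], (M a149 (F (T t25 (L l339 (T t175 (T t176 (L l76 (L l84 (L l130 (T t177 (K a192 (M a15 (F (T t1071 (L l268 (T t1026 (L l296 (L l318 (T t1030 (L l268 (L l296 (T t1031 N))))))))))) (K a21 (M a48 (F (T t16 (L l121 (L l130 (T t13 (L l18 (T t14 N)))))))) (K a85 (M a16 (F (T t504 (L l130 (L l144 (T t190 (L l94 (L l130 (T t278 N))))))))) (K a213 (Fr a106 a192 l519 (Fr a42 a21 l68 (Fr a170 a234 l390 (Fr a255 a85 l476 (V t582))))) (K a42 (M a48 (F (L l54 (T t16 (L l121 (L l130 (L l390 (T t13 (L l54 (T t14 N)))))))))) (K a106 (M a90 (F (L l390 (T t1072 (L l411 (T t1040 (L l390 (T t1073 (L l318 (L l390 (L l411 (T t1074 (L l318 (L l411 (T t1075 N))))))))))))))) (K a170 (M a48 (F (T t184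 (T t607 (L l121 (L l130 (L l390 (T t13 N)))))))) (K a191 (M a252 (F (T t1076 (L l130 (T t940 N))))) (K a255 (M a16 (F (T t112 (L l130 (L l266 (T t190 (L l289 (L l296 (T t191 N))))))))) N)))))))))))))))))))⟩
def e0_63__67_46 : Ent 4 := ⟨[a0, a63], [a67, a75], (M a149 (L l83 (F (T t25 (T t175 (T t176 (L l76 (T t177 (K a192 (M a23 (L l83 (F (T t1077 (L l292 (T t182 (L l292 (L l296 (T t1078 (K a71 (M a79 (F (T t1079 (L l292 (T t182 (L l292 (L l296 (T t1078 N)))))))) (K a79 (M a71 (F (L l319 (T t1080 (L l292 (L l296 (T t1078 N))))))) N))))))))))) (K a21 (M a48 (L l83 (F (T t4 (L l121 (T t13 (L l18 (T t14 (K a71 (M a79 (F (T t15 (L l121 (T t13 (L l18 (T t14 N))))))) (K a79 (M a71 (F (T t1081 (L l18 (T t1082 N))))) N)))))))))) (K a85 (M a1 (L l83 (F (T t534 (L l76 (L l144 (L l307 (L l337 (T t1083 (L l133 (L l141 (L l145 (T t1084 (K a71 (M a79 (F (T t534 (L l76 (L l144 (L l307 (L l337 (T t1083 (L l133 (L l141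 (L l145 (T t1084 N)))))))))))) (K a79 (M a71 (F (L l319 (T t1085 (L l133 (L l141 (L l145 (T t1084 N)))))))) N))))))))))))))) (K a213 (Fr a106 a192 l519 (Fr a42 a21 l68 (Fr a170 a234 l390 (Fr a255 a85 l476 (V t582))))) (K a42 (M a15 (L l83 (F (T t1024 (L l390 (T t1025 (L l28 (T t1026 (K a71 (M a79 (F (T t1027 (L l28 (T t1026 N))))) (K a79 (M a71 (F (T t1024 (L l28 (T t1026 (L l54 (L l76 (L l84 (L l390 (T t1086 N)))))))))) N)))))))))) (K a106 (M a53 (L l83 (F (L l498 (T t179 (L l390 (T t180 (L l337 (L l390 (L l498 (T t982 (L l498 (T t1087 (K a71 (M a79 (F (L l121 (L l411 (T t1088 (L l77 (L l390 (T t180 (L l337 (L l390 (L l498 (T t982 N)))))))))))) (K a79 (M a71 (F (L l393 (L l498 (T t1089 (L l84 (L l390 (T t180 (L l325 (L l337 (L l390 (L l498 (T t982 N))))))))))))) N))))))))))))))) (K a170 (M a48 (L l83 (F (T t4 (L l337 (L l462 (T t1 (L l121 (L l390 (T t13 (K a71 (M a79 (F (T t4 (L l337 (L l462 (T t1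 (L l121 (L l390 (T t13 N))))))))) (K a79 (M a71 (F (T t1081 (L l390 (T t1082 N))))) N)))))))))))) (K a191 (M a240 (L l83 (F (T t1090 (L l121 (T t1091 (T t1092 (K a71 (M a79 (F (T t1090 (L l121 (T t1091 (T t1093 N)))))) (K a79 (M a71 (F (T t962 (T t963 N)))) N))))))))) (K a255 (M a48 (L l83 (F (T t16 (L l337 (L l469 (T t1 (L l121 (L l266 (T t13 (K a71 (M a79 (F (T t16 (L l337 (L l469 (T t1 (L l121 (L l266 (T t13 N))))))))) (K a79 (M a71 (F (T t1081 (L l266 (T t1082 N))))) N)))))))))))) (K a71 (M a79 (F (T t25 (L l78 (T t1035 (T t1036 (K a106 (M a5 (F (T t1037 (L l77 (L l390 (T t1038 N)))))) N))))))) (K a79 (M a71 (F (T t25 (T t175 (T t176 (L l76 (L l84 (T t177 (K a192 (M a1 (F (L l319 (T t1085 (L l76 (L l296 (T t1094 N))))))) (K a21 (M a48 (F (T t1081 (L l18 (T t1082 N))))) (K a85 (M a1 (F (L l319 (T t1085 (L l133 (L l141 (L l145 (T t1084 N)))))))) (K a213 (Fr a106 a192 l519 (Fr a42 a21 l68 (Fr a170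 a234 l390 (Fr a255 a85 l476 (V t582))))) (K a42 (M a86 (F (T t1095 (L l22 (T t618 N))))) (K a106 (M a1 (F (L l319 (T t1085 (L l76 (L l390 (T t1094 N))))))) (K a170 (M a48 (F (T t1081 (L l390 (T t1082 N))))) (K a191 (M a240 (F (T t962 (T t963 N)))) (K a255 (M a48 (F (T t1081 (L l266 (T t1082 N))))) N))))))))))))))))) N)))))))))))))))))))⟩
def e0_63__67_47 : Ent 4 := ⟨[a0, a63], [a67, a76], (M a12 (L l85 (F (T t122 (T t151 (T t152 (T t153 (K a4 (M a60 (L l85 (F (T t398 (L l46 (L l50 (L l307 (T t67 (T t448 (K a73 (M a70 (F (T t402 (L l307 (T t69 (L l46 (L l50 (T t1096 N)))))))) (K a70 (M a73 (F (T t680 (L l145 (L l312 (L l314 (T t1006 N))))))) N))))))))))) (K a8 (M a60 (L l85 (F (T t398 (L l307 (T t67 (L l52 (L l56 (T t448 (K a73 (M a70 (L l320 (F (T t402 (L l56 (L l307 (T t69 (T t1096 (K a138 (M a203 (F (T t402 (L l56 (L l307 (T t69 (L l52 (L l56 (T t448 N))))))))) (K a203 (M a138 (F (T t398 (L l316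 (L l317 (T t1097 N)))))) N)))))))))) (K a70 (M a73 (F (T t680 (L l52 (L l145 (L l312 (T t1006 N))))))) N))))))))))) (K a21 (M a192 (L l85 (F (T t221 (L l80 (T t468 (L l15 (L l347 (T t157 (K a73 (M a70 (F (T t221 (L l78 (L l80 (L l320 (T t468 (L l15 (L l320 (L l347 (T t157 N))))))))))) (K a70 (M a73 (F (T t221 (L l307 (L l330 (T t1012 N)))))) N))))))))))) (K a25 (M a192 (L l85 (F (T t467 (L l56 (L l80 (T t468 (L l138 (L l143 (T t21 (K a73 (M a70 (F (T t221 (L l56 (L l78 (L l80 (L l320 (T t468 (L l15 (T t35 N)))))))))) (K a70 (M a73 (F (T t467 (L l56 (L l307 (L l330 (T t1012 N))))))) N)))))))))))) (K a29 (M a3 (L l85 (F (T t761 (T t137 (T t758 (K a73 (M a70 (F (T t1098 (L l15 (T t1099 N))))) (K a70 (M a73 (F (T t1100 (T t137 N)))) N)))))))) (K a38 (M a62 (L l85 (F (T t750 (L l50 (L l307 (T t709 (L l48 (L l50 (T t710 (K a73 (M a70 (F (T t750 (L l48 (L l50 (L l320 (T t751 N))))))) (K a70 (M a73 (F (T t750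 (L l50 (L l312 (T t1101 N)))))) N)))))))))))) (K a42 (M a192 (L l85 (F (T t450 (L l56 (L l80 (T t468 (L l56 (T t157 (K a73 (M a70 (F (T t467 (L l56 (L l78 (L l80 (L l320 (T t468 (L l56 (L l320 (T t157 N))))))))))) (K a70 (M a73 (F (T t450 (L l56 (L l307 (L l330 (T t1012 N))))))) N))))))))))) (K a46 (M a3 (L l85 (F (T t353 (T t761 (L l26 (T t758 (K a73 (M a70 (F (T t1098 (T t1099 N)))) (K a70 (M a73 (F (T t1100 (L l26 (T t137 N))))) N))))))))) (K a51 (M a1 (L l85 (F (T t538 (L l73 (T t1102 (T t1103 (K a73 (M a70 (F (L l320 (L l513 (T t1104 (T t1105 N)))))) (K a70 (M a73 (F (L l312 (T t1106 (T t1105 N))))) N))))))))) (K a73 (M a70 (F (T t122 (T t151 (T t152 (L l320 (T t153 (K a4 (M a1 (F (L l320 (T t1104 (T t1105 N))))) (K a8 (M a60 (L l320 (F (T t402 (L l56 (L l307 (T t69 (T t1096 (K a138 (M a203 (F (T t402 (L l56 (L l307 (T t69 (L l52 (L l56 (T t448 N))))))))) (K a203 (M a138 (F (T t398 (L l316 (L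 l317 (T t1097 N)))))) N)))))))))) (K a21 (M a5 (F (T t1107 (L l320 (T t1108 N))))) (K a25 (M a1 (F (L l80 (T t1109 (L l53 (L l56 (T t1105 N))))))) (K a29 (M a5 (F (T t1110 (L l320 (T t1108 N))))) (K a38 (M a5 (F (L l26 (T t1110 (L l48 (L l320 (T t1108 N))))))) (K a42 (M a5 (F (L l54 (T t1111 (L l56 (L l320 (T t1108 N))))))) (K a46 (M a5 (F (L l26 (T t1110 (L l320 (T t1108 N)))))) (K a51 (M a1 (F (L l320 (L l513 (T t1104 (T t1105 N)))))) N)))))))))))))))) (K a70 (M a73 (F (T t122 (L l77 (L l79 (T t1016 (L l79 (L l312 (T t1017 (K a8 (M a192 (F (T t450 (L l76 (L l307 (L l312 (L l330 (L l333 (T t1018 N))))))))) N)))))))))) N))))))))))))))))))⟩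
def e0_63__67_48 : Ent 4 := ⟨[a0, a63], [a67, a77], (M a149 (F (T t25 (T t175 (T t176 (L l76 (T t177 (K a192 (M a53 (F (T t178 (L l236 (T t179 (L l81 (L l236 (L l296 (T t180 N))))))))) (K a21 (M a48 (F (T t4 (L l121 (T t13 (L l18 (T t14 N))))))) (K a85 (M a16 (F (T t97 (L l144 (T t190 (L l94 (T t278 N))))))) (K a213 (Fr a106 a192 l519 (Fr a42 a21 l68 (Fr a170 a234 l390 (Fr a255 a85 l476 (V t582))))) (K a42 (M a48 (F (T t11 (L l121 (L l390 (T t13 (L l54 (T t14 N)))))))) (K a106 (M a48 (F (T t1 (L l498 (T t14 (L l390 (L l498 (T t6 (L l390 (T t26 N)))))))))) (K a170 (M a48 (F (T t4 (L l462 (T t1 (L l121 (L l390 (T t13 N)))))))) (K a191 (M a16 (F (T t97 (T t190 (L l213 (T t191 N)))))) (K a255 (M a16 (F (T t112 (L l266 (T t190 (L l289 (L l296 (T t191 N)))))))) N))))))))))))))))⟩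
def e0_63__67_49 : Ent 4 := ⟨[a0, a63], [a67, a78], (M a149 (F (T t25 (T t175 (T t176 (L l76 (T t177 (K a192 (M a53 (F (T t178 (L l236 (T t179 (L l236 (L l296 (T t180 N)))))))) (K a21 (M a48 (F (T t4 (L l121 (T t13 (L l18 (T t14 N))))))) (K a85 (M a16 (F (T t504 (L l144 (T t190 (L l94 (L l148 (T t278 N)))))))) (K a213 (Fr a106 a192 l519 (Fr a42 a21 l68 (Fr a170 a234 l390 (Fr a255 a85 l476 (V t582))))) (K a42 (M a48 (F (T t187 (L l121 (L l390 (T t13 (L l54 (T t14 N)))))))) (K a106 (M a48 (F (T t48 (L l498 (T t14 (L l390 (L l498 (T t6 (L l390 (T t26 N)))))))))) (K a170 (M a48 (F (T t4 (L l327 (L l462 (T t1 (L l121 (L l390 (T t13 N))))))))) (K a191 (M a204 (F (T t1043 (L l136 (T t1112 N))))) (K a255 (M a16 (F (T t112 (L l266 (T t190 (L l289 (L l296 (T t191 N)))))))) N))))))))))))))))⟩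
def e0_63__67_50 : Ent 4 := ⟨[a0, a63], [a67, a79], (M a149 (L l83 (F (T t25 (T t175 (T t176 (L l76 (L l84 (T t177 (K a192 (M a23 (L l83 (F (T t1077 (L l292 (T t182 (L l292 (L l296 (T t1078 (K a71 (M a75 (F (T t1079 (L l292 (T t182 (L l292 (L l296 (T t1078 N)))))))) (K a75 (M a71 (F (L l319 (T t1080 (L l292 (L l296 (T t1078 N))))))) N))))))))))) (K a21 (M a48 (L l83 (F (T t4 (L l18 (T t1082 (L l18 (T t14 (K a71 (M a75 (F (T t15 (L l18 (T t1082 (L l18 (T t14 N))))))) (K a75 (M a71 (F (T t1081 (L l18 (T t1082 N))))) N)))))))))) (K a85 (M a1 (L l83 (F (T t534 (L l76 (L l144 (L l307 (T t1083 (L l141 (L l145 (T t1084 (K a71 (M a75 (F (T t534 (L l76 (L l144 (L l307 (T t1083 (L l141 (L l145 (T t1084 N)))))))))) (K a75 (M a71 (F (L l319 (T t1085 (L l133 (L l141 (L l145 (T t1084 N)))))))) N))))))))))))) (K a213 (Fr a106 a192 l519 (Fr a42 a21 l68 (Fr a170 a234 l390 (Fr a255 a85 l476 (V t582))))) (K a42 (M a195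 (L l83 (F (T t1113 (L l66 (L l76 (L l390 (T t1114 (L l76 (L l143 (T t1115 (K a71 (M a75 (F (L l313 (T t1116 (L l66 (L l76 (L l331 (L l390 (T t1114 N))))))))) (K a75 (M a71 (F (T t1117 (L l66 (L l76 (L l390 (T t1114 (L l76 (L l131 (L l143 (T t1115 N))))))))))) N))))))))))))) (K a106 (M a3 (L l83 (F (T t353 (L l393 (T t615 (L l143 (L l390 (L l393 (T t616 (L l390 (T t617 (K a71 (M a75 (F (T t353 (L l393 (T t615 (L l390 (T t617 (L l125 (L l143 (L l390 (L l393 (T t616 N)))))))))))) (K a75 (M a71 (F (L l319 (T t1118 (L l143 (L l390 (L l393 (T t616 N)))))))) N)))))))))))))) (K a170 (M a48 (L l83 (F (T t4 (L l462 (T t48 (L l121 (L l151 (L l390 (T t13 (K a71 (M a75 (F (T t4 (L l462 (T t48 (L l121 (L l151 (L l390 (T t13 N))))))))) (K a75 (M a71 (F (T t1081 (L l390 (T t1082 N))))) N)))))))))))) (K a191 (M a240 (L l83 (F (T t962 (T t963 (K a71 (M a75 (F (T t1090 (T t962 (T t1093 N))))) (K a75 (M a71 (F (T t962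 (T t963 N)))) N))))))) (K a255 (M a48 (L l83 (F (T t16 (T t48 (L l121 (L l151 (L l266 (T t13 (K a71 (M a75 (F (T t16 (T t48 (L l121 (L l151 (L l266 (T t13 N)))))))) (K a75 (M a71 (F (T t1081 (L l266 (T t1082 N))))) N))))))))))) (K a71 (M a75 (F (T t25 (T t175 (T t176 (L l76 (L l84 (T t177 (K a192 (M a5 (F (L l313 (T t1039 (L l77 (L l84 (L l296 (T t1038 N)))))))) (K a21 (M a60 (F (T t1023 (L l11 (T t1021 N))))) (K a85 (M a16 (F (T t504 (L l144 (T t190 (L l94 (L l151 (T t278 N)))))))) (K a213 (Fr a106 a192 l519 (Fr a42 a21 l68 (Fr a170 a234 l390 (Fr a255 a85 l476 (V t582))))) (K a42 (M a90 (F (L l28 (T t1040 (L l66 (L l307 (T t1041 N))))))) (K a106 (M a5 (F (L l313 (T t1039 (L l77 (L l84 (L l390 (T t1038 N)))))))) (K a170 (M a60 (F (T t1023 (L l390 (T t1021 N))))) (K a191 (M a252 (F (T t940 (T t941 N)))) (K a255 (M a60 (F (T t1023 (L l261 (T t1021 N))))) N))))))))))))))))) (K a75 (M a71 (F (T t25 (T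 t175 (T t176 (L l76 (L l84 (T t177 (K a192 (M a1 (F (L l319 (T t1085 (L l76 (L l296 (T t1094 N))))))) (K a21 (M a48 (F (T t1081 (L l18 (T t1082 N))))) (K a85 (M a1 (F (L l319 (T t1085 (L l133 (L l141 (L l145 (T t1084 N)))))))) (K a213 (Fr a106 a192 l519 (Fr a42 a21 l68 (Fr a170 a234 l390 (Fr a255 a85 l476 (V t582))))) (K a42 (M a86 (F (T t1095 (L l22 (T t618 N))))) (K a106 (M a1 (F (L l319 (T t1085 (L l76 (L l390 (T t1094 N))))))) (K a170 (M a48 (F (T t1081 (L l390 (T t1082 N))))) (K a191 (M a240 (F (T t962 (T t963 N)))) (K a255 (M a48 (F (T t1081 (L l266 (T t1082 N))))) N))))))))))))))))) N))))))))))))))))))))⟩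
def e0_63__67_51 : Ent 4 := ⟨[a0, a63], [a67, a84], (M a48 (F (T t1 (T t2 (L l364 (T t3 (T t0 (K a16 (M a60 (L l364 (F (T t64 (L l14 (L l18 (L l307 (L l346 (T t67 (T t65 (K a152 (M a220 (F (T t42 (L l307 (T t69 (L l14 (L l18 (L l346 (T t44 N))))))))) (K a220 (M a152 (F (T t662 (L l286 (T t469 N))))) N)))))))))))) (K a32 (M a60 (F (T t64 (L l307 (L l346 (T t67 (L l24 (L l28 (T t65 N))))))))) (K a21 (M a192 (F (T t28 (L l47 (L l347 (T t20 (L l47 (L l347 (T t29 N))))))))) (K a37 (M a192 (F (T t225 (L l121 (T t27 (L l143 (T t21 N))))))) (K a53 (M a192 (F (T t28 (L l143 (L l491 (T t21 (T t31 N))))))) (K a26 (M a192 (F (T t28 (T t20 (L l143 (T t21 N)))))) (K a42 (M a192 (F (T t20 (L l121 (T t27 (L l28 (T t29 N))))))) (K a58 (M a192 (F (T t28 (L l143 (T t21 (L l54 (L l498 (T t31 N)))))))) (K a15 (M a192 (F (T t57 (L l121 (L l483 (T t27 (L l325 (T t20 N)))))))) N))))))))))))))))⟩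
def e0_63__67_52 : Ent 4 := ⟨[a0, a63], [a67, a85], (M a48 (F (T t0 (L l347 (T t1 (L l455 (T t2 (L l347 (L l368 (T t3 (K a16 (M a61 (L l368 (F (T t262 (L l307 (L l473 (T t505 (L l10 (L l365 (T t530 (K a154 (M a223 (F (T t529 (L l498 (T t262 (L l10 (L l365 (L l498 (T t530 N))))))))) (K a223 (M a154 (F (T t529 (L l123 (L l340 (T t1119 N)))))) N)))))))))))) (K a32 (M a60 (F (T t64 (L l307 (L l347 (L l350 (T t67 (L l24 (L l28 (L l455 (T t65 N))))))))))) (K a21 (M a149 (F (T t4 (L l121 (L l144 (T t13 (L l18 (L l123 (L l143 (L l144 (L l368 (T t482 (L l18 (L l123 (L l368 (T t483 N)))))))))))))))) (K a37 (M a192 (F (L l28 (T t28 (L l47 (L l347 (T t20 (L l144 (L l368 (T t224 N)))))))))) (K a53 (M a12 (F (T t443 (L l47 (L l347 (T t122 (L l47 (L l347 (T t146 N))))))))) (K a26 (M a192 (F (T t28 (L l347 (T t20 (L l18 (L l54 (L l144 (L l368 (T t224 N)))))))))) (K a42 (M a192 (F (L l28 (T t28 (L l347 (T t20 (L l54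 (L l144 (L l368 (L l390 (T t224 N))))))))))) (K a58 (M a12 (F (T t443 (L l347 (T t122 (L l347 (T t146 N))))))) (K a15 (M a192 (F (L l483 (T t28 (L l325 (L l347 (T t20 (L l144 (L l368 (T t224 N)))))))))) N)))))))))))))))))))⟩
def e0_63__67_53 : Ent 4 := ⟨[a0, a63], [a67, a86], (M a60 (L l145 (F (T t116 (L l307 (L l477 (T t67 (L l307 (L l351 (L l477 (T t43 (L l307 (L l474 (L l477 (T t68 (L l307 (L l477 (T t69 (K a20 (M a48 (L l145 (F (T t2 (T t64 (L l11 (L l459 (L l474 (T t235 (K a124 (M a105 (F (T t64 (L l76 (L l121 (L l348 (L l350 (T t1120 N)))))))) (K a105 (M a124 (F (T t70 (L l87 (L l127 (L l346 (T t1121 N))))))) N))))))))))) (K a40 (M a170 (L l145 (F (T t317 (L l87 (L l477 (T t1122 (T t1123 (K a124 (M a105 (F (L l307 (T t1124 (L l351 (T t438 (L l142 (L l307 (T t1125 N))))))))) (K a105 (M a124 (F (T t317 (L l143 (T t1126 (L l351 (L l515 (T t1127 N)))))))) N)))))))))) (K a21 (M a105 (F (T t1128 (L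 l11 (L l307 (T t404 (L l11 (T t405 N)))))))) (K a41 (M a105 (F (T t1129 (T t1128 (T t405 N))))) (K a61 (M a149 (L l145 (F (T t176 (L l142 (L l477 (T t1021 (T t1130 (K a124 (M a105 (F (L l348 (T t1131 (L l307 (L l474 (T t1132 (L l76 (L l140 (L l142 (T t177 N))))))))))) (K a105 (M a124 (F (T t176 (L l76 (T t1133 (L l392 (L l474 (T t1134 N)))))))) N)))))))))) (K a22 (M a150 (L l145 (F (T t1135 (T t1136 (L l76 (T t1137 (K a124 (Fr a105 a195 l518 (V t1138)) (K a105 (M a124 (F (L l76 (T t1133 (L l143 (T t1126 (L l143 (L l392 (L l515 (T t1139 N)))))))))) N))))))))) (K a42 (M a105 (F (T t1129 (L l66 (T t1128 (L l66 (T t405 N))))))) (K a62 (M a16 (L l145 (F (T t1140 (L l66 (T t97 (L l66 (T t1141 (K a124 (M a105 (F (L l307 (T t404 (L l66 (T t97 N)))))) (K a105 (M a124 (F (L l76 (T t1133 (L l66 (T t97 N)))))) N)))))))))) (K a3 (M a105 (L l307 (L l477 (F (L l475 (T t1129 (L l309 (T t1128 (T t405 (K a252 (M a169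 (L l307 (F (L l142 (T t1142 (L l261 (L l348 (L l475 (T t1143 (T t406 (K a131 (Fr a195 a150 l518 (V t1144)) (K a195 (M a131 (L l297 (F (L l474 (T t1145 (L l87 (L l228 (L l309 (T t1146 (L l228 (L l295 (T t406 (K a233 (M a214 (F (L l295 (L l474 (T t1147 (L l142 (L l228 (L l293 (T t1148 (L l228 (L l250 (L l293 (L l295 (T t406 N)))))))))))))) (K a214 (Fr a233 a41 l389 (V t406)) N)))))))))))))) N)))))))))))) (K a169 (M a252 (L l307 (F (L l309 (T t1128 (L l475 (T t1129 (L l87 (L l309 (T t1149 (K a131 (Fr a195 a150 l518 (Fr a188 a124 l430 (V t1150))) (K a195 (M a131 (F (L l142 (T t1151 (L l87 (T t1152 (L l228 (L l295 (T t406 N))))))))) N)))))))))))) (K a131 (Fr a195 a150 l518 (V t1153)) (K a195 (M a131 (L l477 (F (L l228 (L l295 (T t405 (L l228 (L l474 (T t1154 (L l143 (L l295 (T t1155 (L l87 (L l143 (L l295 (T t1156 (L l76 (L l142 (L l228 (T t1157 (K a252 (M a169 (L l297 (F (L l474 (T t1145 (L l87 (L l228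 (L l309 (T t1146 (L l228 (L l295 (T t406 (K a233 (M a214 (F (L l295 (L l474 (T t1147 (L l142 (L l228 (L l293 (T t1148 (L l228 (L l250 (L l293 (L l295 (T t406 N)))))))))))))) (K a214 (Fr a233 a41 l389 (V t406)) N)))))))))))))) (K a169 (M a252 (F (L l142 (T t1151 (L l87 (T t1152 (L l228 (L l295 (T t406 N))))))))) N)))))))))))))))))))))) N))))))))))))) (K a124 (M a105 (F (T t406 (L l307 (T t404 (L l140 (T t1128 N))))))) (K a105 (M a124 (F (L l143 (T t1126 (L l76 (T t1133 (L l515 (T t116 N)))))))) N)))))))))))))))))))))))))))))⟩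
def e0_63__67_54 : Ent 4 := ⟨[a0, a63], [a67, a87], (M a48 (L l143 (F (T t1 (T t2 (T t3 (T t0 (K a16 (M a60 (L l143 (F (T t64 (L l14 (L l18 (L l307 (L l475 (T t67 (L l349 (T t65 (K a107 (M a127 (F (T t70 (L l76 (T t1158 N))))) (K a127 (M a107 (F (T t451 (L l76 (L l145 (L l349 (L l475 (T t1159 N)))))))) N))))))))))))) (K a32 (M a60 (L l143 (F (T t64 (L l307 (L l475 (T t67 (L l24 (L l28 (L l349 (T t65 (K a107 (M a127 (F (T t70 (L l76 (L l404 (T t1158 N)))))) (K a127 (M a107 (F (T t451 (L l76 (L l145 (L l349 (L l475 (T t1159 N)))))))) N))))))))))))) (K a21 (M a255 (L l143 (F (T t1160 (L l87 (L l347 (T t547 (L l47 (L l367 (T t548 (K a107 (Fr a127 a191 l433 (V t1161)) (K a127 (M a107 (F (T t1162 (L l109 (L l349 (T t1163 (L l349 (T t1164 N)))))))) N)))))))))))) (K a37 (M a255 (L l143 (F (T t1160 (L l76 (T t1165 (L l87 (T t547 (K a107 (Fr a127 a191 l433 (V t1161)) (K a127 (M a107 (F (L l349 (T t1166 (L l47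 (L l87 (L l114 (L l144 (T t1167 N))))))))) N)))))))))) (K a53 (M a12 (L l143 (F (T t151 (T t443 (L l47 (T t146 (K a107 (M a127 (F (T t445 (L l85 (T t1168 N))))) (K a127 (M a107 (F (T t151 (L l349 (T t1164 N))))) N))))))))) (K a26 (M a255 (L l143 (F (T t1169 (L l76 (T t1165 (L l87 (T t547 (K a107 (Fr a127 a191 l433 (V t1161)) (K a127 (M a107 (F (T t1162 (L l109 (L l349 (T t1163 (L l349 (T t1164 N)))))))) N)))))))))) (K a42 (M a255 (L l143 (F (T t1169 (L l87 (T t547 (L l28 (L l367 (L l390 (T t548 (K a107 (Fr a127 a191 l433 (V t1161)) (K a127 (M a107 (F (L l390 (T t1162 (L l349 (T t1164 (L l109 (L l349 (L l390 (T t1163 N)))))))))) N)))))))))))) (K a58 (M a12 (L l143 (F (T t443 (T t122 (T t146 (K a107 (M a127 (F (T t445 (L l85 (T t1168 N))))) (K a127 (M a107 (F (T t122 (L l349 (T t1164 N))))) N)))))))) (K a15 (M a192 (L l143 (F (T t57 (L l121 (L l483 (T t27 (L l325 (T t20 (K a107 (M a127 (F (T t1170 (L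 l121 (L l483 (T t1171 N)))))) (K a127 (M a107 (F (T t36 (L l63 (L l349 (T t1172 N)))))) N))))))))))) (K a107 (M a127 (F (T t2 (L l121 (T t1171 (L l76 (T t1158 N))))))) (K a127 (M a107 (F (T t2 (L l76 (L l121 (L l349 (T t1173 (K a16 (M a192 (F (T t20 (L l76 (L l307 (L l349 (L l475 (T t1174 N)))))))) (K a32 (M a192 (F (T t20 (L l76 (L l307 (L l349 (L l475 (T t1174 N)))))))) N))))))))) N))))))))))))))))))⟩
def e0_63__67_55 : Ent 4 := ⟨[a0, a63], [a67, a88], (M a149 (F (T t25 (T t175 (T t176 (L l76 (T t177 (K a192 (M a53 (F (T t178 (L l236 (T t179 (L l236 (L l296 (T t180 N)))))))) (K a21 (M a48 (F (T t4 (L l121 (L l146 (L l478 (T t13 (L l18 (T t14 N))))))))) (K a85 (M a16 (F (T t97 (L l144 (L l370 (L l478 (T t190 (L l88 (L l94 (T t278 N)))))))))) (K a213 (Fr a106 a192 l519 (Fr a42 a21 l68 (Fr a170 a234 l390 (Fr a255 a85 l476 (V t582))))) (K a42 (M a48 (F (T t187 (L l121 (L l146 (L l390 (L l478 (T t13 (L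 l54 (T t14 N)))))))))) (K a106 (M a48 (F (T t1 (L l498 (T t14 (L l390 (L l498 (T t6 (L l390 (T t26 N)))))))))) (K a170 (M a48 (F (T t4 (L l462 (T t1 (L l121 (L l146 (L l390 (L l478 (T t13 N)))))))))) (K a191 (M a16 (F (T t97 (L l370 (L l478 (T t190 (L l90 (L l213 (T t191 N))))))))) (K a255 (M a16 (F (T t112 (L l266 (L l370 (L l478 (T t190 (L l90 (L l289 (L l296 (T t191 N))))))))))) N))))))))))))))))⟩
def e0_63__67_56 : Ent 4 := ⟨[a0, a63], [a67, a89], (M a48 (F (T t1 (T t2 (T t3 (T t0 (K a16 (M a60 (F (T t64 (L l14 (L l18 (L l307 (T t67 (T t65 N)))))))) (K a32 (M a60 (F (T t64 (L l307 (T t67 (L l24 (L l28 (T t65 N)))))))) (K a21 (M a192 (F (T t28 (L l47 (L l347 (L l371 (T t20 (L l47 (L l347 (L l371 (T t29 N))))))))))) (K a37 (M a192 (F (T t19 (L l47 (L l371 (T t20 (L l143 (L l371 (T t21 N))))))))) (K a53 (M a192 (F (T t19 (L l143 (L l371 (L l491 (T t21 (L l132 (T t31 N))))))))) (K a26 (M a192 (F (T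 t28 (L l371 (T t20 (L l143 (L l371 (T t21 N)))))))) (K a42 (M a192 (F (T t19 (L l371 (T t20 (L l28 (L l371 (T t29 N)))))))) (K a58 (M a192 (F (T t19 (L l143 (L l371 (T t21 (L l54 (L l132 (L l498 (T t31 N)))))))))) (K a15 (M a192 (F (T t36 (L l325 (L l371 (T t20 (L l143 (L l371 (L l469 (T t21 N)))))))))) N)))))))))))))))⟩
def e0_63__67_57 : Ent 4 := ⟨[a0, a63], [a67, a90], (M a12 (F (T t122 (T t151 (T t152 (T t153 (K a4 (M a60 (F (T t570 (L l46 (L l50 (L l307 (T t67 (T t448 N)))))))) (K a8 (M a60 (F (T t570 (L l307 (T t67 (L l52 (L l56 (T t448 N)))))))) (K a21 (M a192 (F (T t468 (L l15 (L l347 (L l375 (T t450 (L l15 (L l347 (L l375 (T t157 N))))))))))) (K a25 (M a192 (F (T t449 (L l15 (L l375 (T t450 (L l143 (L l375 (T t21 N))))))))) (K a29 (M a192 (F (T t449 (L l143 (L l371 (L l375 (T t21 (L l130 (T t160 N))))))))) (K a38 (M a192 (F (T t468 (L l375 (T t450 (L l143 (L l375 (T t21 N)))))))) (K a42 (M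 a192 (F (T t449 (L l375 (T t450 (L l56 (L l375 (T t157 N)))))))) (K a46 (M a192 (F (T t449 (L l143 (L l375 (T t21 (L l26 (L l130 (L l408 (T t160 N)))))))))) (K a51 (M a192 (F (T t496 (L l375 (L l415 (T t450 (L l143 (L l375 (L l439 (T t21 N)))))))))) N)))))))))))))))⟩
def e0_63__67_58 : Ent 4 := ⟨[a0, a63], [a67, a91], (M a149 (F (T t25 (T t175 (T t176 (L l76 (T t177 (K a192 (M a53 (F (T t178 (L l236 (T t179 (L l236 (L l296 (T t180 N)))))))) (K a21 (M a48 (F (T t4 (L l121 (T t13 (L l18 (T t14 N))))))) (K a85 (M a16 (F (L l455 (T t112 (L l144 (T t190 (L l88 (L l94 (T t278 N))))))))) (K a213 (Fr a106 a192 l519 (Fr a42 a21 l68 (Fr a170 a234 l390 (Fr a255 a85 l476 (V t582))))) (K a42 (M a48 (F (T t187 (L l121 (L l390 (T t13 (L l54 (T t14 N)))))))) (K a106 (M a48 (F (T t48 (L l498 (T t14 (L l390 (L l498 (T t6 (L l390 (T t26 N)))))))))) (K a170 (M a48 (F (T t4 (L l462 (L l481 (T t1 (L l121 (L l390 (T t13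 N))))))))) (K a191 (M a16 (F (T t112 (T t190 (L l213 (T t191 N)))))) (K a255 (M a16 (F (T t112 (L l266 (T t190 (L l289 (L l296 (T t191 N)))))))) N))))))))))))))))⟩
def e0_63__67_59 : Ent 4 := ⟨[a0, a63], [a67, a92], (M a149 (F (T t25 (T t175 (T t176 (L l76 (T t177 (K a192 (M a53 (F (T t178 (L l236 (T t179 (L l236 (L l296 (T t180 N)))))))) (K a21 (M a48 (F (T t4 (L l121 (T t13 (L l18 (T t14 N))))))) (K a85 (M a16 (F (T t97 (L l144 (T t190 (L l94 (T t278 N))))))) (K a213 (Fr a106 a192 l519 (Fr a42 a21 l68 (Fr a170 a234 l390 (Fr a255 a85 l476 (V t582))))) (K a42 (M a48 (F (T t187 (L l121 (L l390 (T t13 (L l54 (T t14 N)))))))) (K a106 (M a48 (F (T t1 (L l498 (T t14 (L l390 (L l498 (T t6 (L l390 (T t26 N)))))))))) (K a170 (M a48 (F (T t4 (L l462 (T t1 (L l121 (L l390 (T t13 N)))))))) (K a191 (M a16 (F (T t97 (T t190 (L l90 (L l213 (T t191 N))))))) (K a255 (M a16 (F (T t112 (L l266 (T t190 (L l90 (L l289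 (L l296 (T t191 N))))))))) N))))))))))))))))⟩
def e0_63__67_60 : Ent 4 := ⟨[a0, a63], [a67, a93], (M a48 (F (T t1 (T t2 (T t3 (T t0 (K a16 (M a60 (F (T t64 (L l14 (L l18 (L l307 (T t67 (T t65 N)))))))) (K a32 (M a60 (F (T t64 (L l307 (T t67 (L l24 (L l28 (T t65 N)))))))) (K a21 (M a192 (F (T t28 (L l47 (L l347 (T t20 (L l47 (L l347 (L l362 (T t29 N)))))))))) (K a37 (M a192 (F (T t19 (L l47 (T t20 (L l138 (L l143 (L l470 (T t21 N))))))))) (K a53 (M a192 (F (T t19 (L l138 (L l143 (L l470 (L l491 (T t21 (T t31 N))))))))) (K a26 (M a192 (F (T t28 (T t20 (L l138 (L l143 (L l470 (T t21 N)))))))) (K a42 (M a192 (F (T t19 (T t20 (L l28 (L l362 (T t29 N))))))) (K a58 (M a192 (F (T t19 (L l138 (L l143 (L l470 (T t21 (L l54 (L l498 (T t31 N)))))))))) (K a15 (M a192 (F (T t57 (L l121 (L l483 (T t27 (L l325 (T t20 N)))))))) N)))))))))))))))⟩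
def e0_63__67_61 : Ent 4 := ⟨[a0, a63], [a67, a94], (M a149 (F (T t25 (T t175 (T t176 (L l76 (T t177 (K a192 (M a53 (F (T t178 (L l236 (T t179 (L l236 (L l296 (T t180 N)))))))) (K a21 (M a48 (F (T t4 (L l121 (T t13 (L l18 (T t14 N))))))) (K a85 (M a16 (F (L l455 (T t112 (L l144 (T t190 (L l92 (L l94 (T t278 N))))))))) (K a213 (Fr a106 a192 l519 (Fr a42 a21 l68 (Fr a170 a234 l390 (Fr a255 a85 l476 (V t582))))) (K a42 (M a48 (F (T t187 (L l121 (L l390 (T t13 (L l54 (T t14 N)))))))) (K a106 (M a48 (F (T t48 (L l498 (T t14 (L l390 (L l498 (T t6 (L l390 (T t26 N)))))))))) (K a170 (M a48 (F (T t4 (L l462 (L l471 (T t1 (L l121 (L l390 (T t13 N))))))))) (K a191 (M a252 (F (T t940 (L l136 (T t941 N))))) (K a255 (M a16 (F (T t112 (L l266 (T t190 (L l289 (L l296 (T t191 N)))))))) N))))))))))))))))⟩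
def e0_63__67_62 : Ent 4 := ⟨[a0, a63], [a67, a95], (M a12 (F (T t122 (T t151 (T t152 (T t153 (K a4 (M a60 (F (T t570 (L l46 (L l50 (L l307 (T t67 (T t448 N)))))))) (K a8 (M a60 (F (T t570 (L l307 (T t67 (L l52 (L l56 (T t448 N)))))))) (K a21 (M a192 (F (T t468 (L l15 (L l347 (T t450 (L l15 (L l347 (T t157 N))))))))) (K a25 (M a192 (F (T t449 (L l15 (T t450 (L l137 (L l143 (L l469 (T t21 N))))))))) (K a29 (M a192 (F (T t449 (L l137 (L l143 (L l371 (L l469 (T t21 (T t160 N))))))))) (K a38 (M a192 (F (T t468 (T t450 (L l137 (L l143 (L l469 (T t21 N)))))))) (K a42 (M a192 (F (T t449 (T t450 (L l56 (T t157 N)))))) (K a46 (M a192 (F (T t449 (L l137 (L l143 (L l469 (T t21 (L l26 (L l408 (T t160 N)))))))))) (K a51 (M a192 (F (T t57 (L l85 (L l513 (T t156 (L l415 (T t450 N)))))))) N)))))))))))))))⟩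
def e0_63__67_63 : Ent 4 := ⟨[a0, a63], [a67, a104], (M a48 (F (T t1 (T t2 (T t3 (T t0 (K a16 (M a60 (F (T t64 (L l14 (L l18 (L l307 (T t67 (L l388 (T t65 N))))))))) (K a32 (M a60 (F (T t64 (L l307 (T t67 (L l24 (L l28 (L l388 (T t65 N))))))))) (K a21 (M a192 (F (L l100 (T t28 (L l47 (L l347 (T t20 (L l47 (L l347 (T t29 N)))))))))) (K a37 (M a192 (F (T t225 (L l121 (T t27 (L l143 (T t21 N))))))) (K a53 (M a192 (F (L l406 (T t19 (L l143 (L l491 (T t21 (L l98 (L l100 (T t31 N)))))))))) (K a26 (M a192 (F (T t20 (L l121 (T t27 (L l143 (T t21 N))))))) (K a42 (M a192 (F (T t225 (L l121 (T t27 (L l28 (T t29 N))))))) (K a58 (M a192 (F (T t35 (L l121 (T t27 (L l54 (L l98 (L l100 (L l498 (T t31 N)))))))))) (K a15 (M a192 (F (T t57 (L l121 (L l483 (T t27 (L l325 (T t20 N)))))))) N)))))))))))))))⟩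
def e0_63__67_64 : Ent 4 := ⟨[a0, a63], [a67, a105], (M a48 (L l145 (F (T t1 (T t2 (T t3 (T t0 (K a16 (M a62 (L l145 (F (L l515 (T t825 (L l18 (L l307 (L l515 (T t709 (L l18 (T t826 (K a124 (M a86 (F (L l515 (T t825 (L l18 (L l109 (T t1175 N))))))) (K a86 (M a124 (F (L l143 (L l515 (T t1176 (L l18 (L l348 (T t826 N)))))))) N))))))))))))) (K a32 (M a62 (L l145 (F (L l515 (T t825 (L l307 (L l515 (T t709 (L l20 (T t826 (K a124 (M a86 (F (L l515 (T t825 (L l109 (T t1175 N)))))) (K a86 (M a124 (F (L l143 (L l515 (T t1176 (L l20 (L l348 (T t826 N)))))))) N)))))))))))) (K a21 (M a192 (L l145 (F (T t28 (L l47 (L l347 (L l515 (T t20 (L l47 (L l347 (L l515 (T t29 (K a124 (M a86 (F (T t28 (L l11 (L l98 (L l307 (T t1177 N))))))) (K a86 (M a124 (F (T t28 (L l98 (L l142 (T t22 (L l47 (L l347 (L l351 (L l515 (T t29 N))))))))))) N)))))))))))))) (K a37 (M a192 (L l145 (F (T t19 (L l47 (L l515 (T t20 (L l143 (L l515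 (T t21 (K a124 (M a86 (F (T t19 (L l98 (L l307 (T t1177 N)))))) (K a86 (M a124 (F (T t19 (L l47 (L l351 (L l515 (T t35 (L l98 (L l142 (T t22 N)))))))))) N)))))))))))) (K a53 (M a192 (L l145 (F (T t19 (L l143 (L l491 (L l515 (T t21 (L l98 (T t31 (K a124 (M a86 (F (T t28 (L l98 (L l307 (T t1177 N)))))) (K a86 (M a124 (F (T t28 (L l47 (L l351 (L l491 (L l515 (T t35 (L l47 (L l351 (L l491 (L l515 (T t525 N))))))))))))) N)))))))))))) (K a26 (M a62 (L l145 (F (L l515 (T t827 (L l18 (L l307 (L l515 (T t709 (L l16 (L l18 (T t826 (K a124 (M a86 (F (L l515 (T t827 (L l16 (L l18 (L l109 (T t1175 N)))))))) (K a86 (M a124 (F (L l143 (L l515 (T t1176 (L l16 (L l18 (L l348 (T t826 N))))))))) N)))))))))))))) (K a42 (M a192 (L l145 (F (T t19 (L l515 (T t20 (L l28 (L l515 (T t29 (K a124 (M a86 (F (T t19 (L l98 (L l307 (L l390 (T t1177 N))))))) (K a86 (M a124 (F (T t19 (L l98 (L l142 (L l390 (T t22 (L l28 (L l351 (L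 l515 (T t29 N))))))))))) N))))))))))) (K a58 (M a192 (L l145 (F (T t19 (L l143 (L l515 (T t21 (L l54 (L l98 (L l498 (T t31 (K a124 (M a86 (F (T t28 (L l98 (L l307 (L l498 (T t1177 N))))))) (K a86 (M a124 (F (T t28 (L l351 (L l515 (T t35 (L l351 (L l515 (T t525 N))))))))) N))))))))))))) (K a15 (M a192 (L l145 (F (T t36 (L l325 (L l515 (T t20 (L l143 (L l469 (L l515 (T t21 (K a124 (M a86 (F (T t36 (L l7 (L l98 (L l307 (T t1177 N))))))) (K a86 (M a124 (F (T t36 (L l351 (L l469 (L l515 (T t35 (L l98 (L l142 (L l325 (T t22 N))))))))))) N))))))))))))) (K a124 (M a86 (F (T t1 (T t2 (T t3 (T t0 (K a16 (M a252 (F (L l83 (T t1178 (L l143 (T t1179 N)))))) (K a32 (M a252 (F (L l389 (T t1180 (L l83 (T t1181 N)))))) (K a21 (M a192 (F (T t28 (L l11 (L l98 (L l307 (T t1177 N))))))) (K a37 (M a192 (F (T t19 (L l98 (L l307 (T t1177 N)))))) (K a53 (M a192 (F (T t28 (L l98 (L l307 (T t1177 N)))))) (K a26 (M a192 (F (T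 t28 (L l98 (L l307 (T t1177 N)))))) (K a42 (M a192 (F (T t19 (L l98 (L l307 (L l390 (T t1177 N))))))) (K a58 (M a192 (F (T t28 (L l98 (L l307 (L l498 (T t1177 N))))))) (K a15 (M a192 (F (T t36 (L l7 (L l98 (L l307 (T t1177 N))))))) N))))))))))))))) (K a86 (M a124 (F (T t1 (T t2 (T t3 (T t0 (K a16 (M a112 (F (T t350 (L l98 (L l133 (L l340 (T t1182 N))))))) (K a32 (M a112 (F (T t350 (L l98 (L l133 (L l400 (T t1182 N))))))) (K a21 (M a64 (F (L l121 (T t363 (L l98 (L l141 (T t1183 N))))))) (K a37 (M a64 (F (T t1184 (L l98 (L l141 (T t1183 N)))))) (K a53 (M a64 (F (T t1184 (L l98 (L l141 (T t1183 N)))))) (K a26 (M a64 (F (L l121 (T t363 (L l98 (L l141 (T t1183 N))))))) (K a42 (M a64 (F (T t1184 (L l98 (L l141 (T t1183 N)))))) (K a58 (M a64 (F (T t1184 (L l98 (L l141 (T t1183 N)))))) (K a15 (M a64 (F (T t1184 (L l98 (L l141 (T t1183 N)))))) N))))))))))))))) N))))))))))))))))))⟩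
def e0_63__67_65 : Ent 4 := ⟨[a0, a63], [a67, a106], (M a48 (F (T t1 (L l390 (L l498 (T t2 (L l411 (T t3 (L l390 (T t0 (K a16 (M a60 (F (T t64 (L l14 (L l18 (L l307 (L l393 (T t67 (L l390 (L l498 (T t65 N))))))))))) (K a32 (M a60 (F (T t64 (L l307 (L l393 (T t67 (L l24 (L l28 (L l390 (L l498 (T t65 N))))))))))) (K a21 (M a255 (F (L l47 (T t1169 (L l390 (T t512 (L l18 (L l144 (L l347 (L l498 (T t513 N))))))))))) (K a37 (M a52 (F (T t82 (L l498 (T t83 (L l21 (L l28 (L l390 (L l498 (T t84 N)))))))))) (K a53 (M a12 (F (T t443 (L l47 (T t122 (L l47 (T t146 N))))))) (K a26 (M a56 (F (T t133 (L l501 (T t134 (L l12 (L l18 (T t135 N)))))))) (K a42 (M a170 (F (T t316 (L l121 (L l144 (T t514 (L l54 (L l76 (L l104 (L l144 (L l498 (T t515 (L l54 (L l498 (T t516 N))))))))))))))) (K a58 (M a12 (L l498 (F (T t122 (T t443 (T t146 (K a202 (M a154 (F (T t122 (L l104 (L l426 (T t517 N)))))) (K a154 (M a202 (F (T t122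 (L l356 (L l368 (T t445 (L l356 (T t146 N)))))))) N)))))))) (K a15 (M a4 (F (T t518 (L l73 (L l390 (T t519 (L l390 (L l498 (T t520 N))))))))) N)))))))))))))))))))⟩
def e0_63__67_66 : Ent 4 := ⟨[a0, a63], [a67, a107], (M a48 (L l143 (F (T t1 (T t2 (L l409 (T t3 (T t0 (K a16 (M a255 (L l143 (F (T t1169 (L l76 (T t1165 (L l18 (L l368 (T t1167 (K a87 (Fr a127 a191 l433 (V t1161)) (K a127 (M a87 (F (L l391 (T t1185 (L l18 (L l114 (L l144 (L l368 (T t1167 (L l18 (L l391 (T t1186 N)))))))))))) N))))))))))) (K a32 (M a255 (L l143 (F (T t1169 (L l76 (L l404 (T t1165 (T t1167 (K a87 (Fr a127 a191 l433 (V t1161)) (K a127 (M a87 (F (L l391 (T t1187 (L l114 (L l144 (T t1167 (L l391 (L l404 (T t1188 N)))))))))) N)))))))))) (K a21 (M a255 (L l143 (F (T t1160 (L l347 (T t547 (L l47 (T t548 (K a87 (Fr a127 a191 l433 (V t1161)) (K a127 (M a87 (F (T t512 (L l391 (T t1188 (L l65 (L l391 (T t1189 N)))))))) N))))))))))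 (K a37 (M a255 (L l143 (F (T t1160 (L l76 (T t1165 (T t547 (K a87 (Fr a127 a191 l433 (V t1161)) (K a127 (M a87 (F (T t1162 (L l47 (L l391 (T t1186 N)))))) N))))))))) (K a53 (M a85 (L l143 (F (T t352 (T t99 (T t568 (K a87 (M a127 (F (T t1190 (L l76 (T t1191 N))))) (K a127 (M a87 (F (T t873 (T t923 N)))) N)))))))) (K a26 (M a255 (L l143 (F (T t1169 (L l76 (T t1165 (T t547 (K a87 (Fr a127 a191 l433 (V t1161)) (K a127 (M a87 (F (T t512 (L l54 (L l391 (T t1192 N)))))) N))))))))) (K a42 (M a255 (L l143 (F (T t1169 (T t547 (L l28 (L l390 (T t548 (K a87 (Fr a127 a191 l433 (V t1161)) (K a127 (M a87 (F (L l144 (T t1193 (L l391 (T t1189 (L l390 (L l391 (T t1188 N))))))))) N)))))))))) (K a58 (M a85 (L l143 (F (T t255 (T t509 (L l54 (T t568 (K a87 (M a127 (F (T t1190 (L l54 (L l76 (T t1191 N)))))) (K a127 (M a87 (F (T t261 (L l54 (T t923 N))))) N))))))))) (K a15 (M a85 (L l143 (F (T t509 (L l76 (L l339 (T t88 (T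 t1194 (K a87 (M a127 (F (T t1190 (L l76 (T t1191 N))))) (K a127 (M a87 (F (T t509 (T t923 N)))) N)))))))))) (K a87 (M a127 (F (T t2 (L l121 (T t1171 (L l76 (T t1158 N))))))) (K a127 (M a87 (F (T t1 (T t2 (L l409 (T t3 (T t0 (K a16 (M a85 (F (L l391 (T t1195 (L l114 (T t51 N)))))) (K a32 (M a149 (F (T t184 (L l28 (T t1196 N))))) (K a21 (M a154 (F (T t526 (T t1197 N)))) (K a37 (M a85 (F (L l391 (T t1198 (L l28 (L l47 (T t1199 N))))))) (K a53 (M a20 (F (T t183 (T t1200 N)))) (K a26 (M a20 (F (T t805 (L l16 (L l54 (T t1200 N)))))) (K a42 (M a154 (F (T t473 (L l28 (T t1197 N))))) (K a58 (M a20 (F (T t1201 (L l54 (T t1200 N))))) (K a15 (M a20 (F (T t183 (T t1200 N)))) N)))))))))))))))) N)))))))))))))))))))⟩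
def e0_63__67_67 : Ent 4 := ⟨[a0, a63], [a67, a108], (M a149 (F (T t25 (T t175 (T t176 (L l76 (T t177 (K a192 (M a53 (F (T t178 (L l236 (T t179 (L l236 (L l296 (T t180 N)))))))) (K a21 (M a48 (F (T t16 (L l121 (T t13 (L l18 (T t14 N))))))) (K a85 (M a16 (F (T t97 (L l100 (L l144 (T t190 (L l94 (T t278 N)))))))) (K a213 (Fr a106 a192 l519 (Fr a42 a21 l68 (Fr a170 a234 l390 (Fr a255 a85 l476 (V t582))))) (K a42 (M a48 (F (T t187 (L l121 (L l390 (T t13 (L l54 (T t14 N)))))))) (K a106 (M a48 (F (T t1 (L l498 (T t14 (L l390 (L l498 (T t6 (L l390 (T t26 N)))))))))) (K a170 (M a48 (F (T t11 (L l462 (T t1 (L l121 (L l390 (T t13 N)))))))) (K a191 (M a204 (F (T t1043 (L l99 (T t1112 N))))) (K a255 (M a16 (F (T t112 (L l100 (L l266 (T t190 (L l289 (L l296 (T t191 N))))))))) N))))))))))))))))⟩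
def e0_63__67_68 : Ent 4 := ⟨[a0, a63], [a67, a109], (M a149 (F (T t25 (T t175 (T t176 (L l76 (T t177 (K a192 (M a53 (F (T t178 (L l236 (L l398 (T t179 (L l236 (L l296 (T t180 N))))))))) (K a21 (M a48 (F (T t4 (L l121 (T t13 (L l18 (L l398 (T t14 N)))))))) (K a85 (M a16 (F (T t97 (L l144 (T t190 (L l94 (T t278 N))))))) (K a213 (Fr a106 a192 l519 (Fr a42 a21 l68 (Fr a170 a234 l390 (Fr a255 a85 l476 (V t582))))) (K a42 (M a48 (F (T t11 (L l121 (L l390 (T t13 (L l54 (L l398 (T t14 N))))))))) (K a106 (M a48 (F (T t1 (L l398 (L l498 (T t14 (L l390 (L l498 (T t6 (L l390 (T t26 N))))))))))) (K a170 (M a48 (F (T t4 (L l462 (T t1 (L l121 (L l390 (T t13 N)))))))) (K a191 (M a16 (F (T t97 (T t190 (L l213 (T t191 N)))))) (K a255 (M a16 (F (T t112 (L l266 (T t190 (L l289 (L l296 (T t191 N)))))))) N))))))))))))))))⟩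
def e0_63__67_69 : Ent 4 := ⟨[a0, a63], [a67, a110], (M a149 (F (T t25 (T t175 (T t176 (L l76 (L l102 (T t177 (K a192 (M a53 (F (T t178 (L l236 (T t179 (L l236 (L l296 (T t180 N)))))))) (K a21 (M a48 (F (T t4 (L l102 (L l121 (T t13 (L l18 (T t14 N)))))))) (K a85 (M a16 (F (T t97 (L l102 (L l144 (T t190 (L l94 (T t278 N)))))))) (K a213 (Fr a106 a192 l519 (Fr a42 a21 l68 (Fr a170 a234 l390 (Fr a255 a85 l476 (V t582))))) (K a42 (M a48 (F (T t187 (L l102 (L l121 (L l390 (T t13 (L l54 (T t14 N))))))))) (K a106 (M a102 (F (L l390 (T t1202 (L l396 (L l501 (T t1203 (L l390 (L l501 (T t1204 (L l390 (L l501 (T t1205 (L l501 (T t1206 N))))))))))))))) (K a170 (M a48 (F (T t4 (L l462 (T t1 (L l102 (L l121 (L l390 (T t13 N))))))))) (K a191 (M a252 (F (L l102 (T t940 (L l136 (T t941 N)))))) (K a255 (M a16 (F (T t112 (L l102 (L l266 (T t190 (L l289 (L l296 (T t191 N))))))))) N)))))))))))))))))⟩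
def e0_63__67_70 : Ent 4 := ⟨[a0, a63], [a67, a111], (M a149 (F (T t25 (T t175 (T t176 (L l76 (L l104 (T t177 (K a192 (M a53 (F (T t178 (L l236 (L l296 (T t180 (L l236 (L l397 (T t179 N))))))))) (K a21 (M a240 (F (T t1090 (L l104 (L l121 (T t1091 (L l397 (T t1207 N)))))))) (K a85 (M a48 (F (T t1 (T t184 (L l104 (L l121 (L l144 (T t13 N)))))))) (K a213 (Fr a106 a192 l519 (Fr a42 a21 l68 (Fr a170 a234 l390 (Fr a255 a85 l476 (V t582))))) (K a42 (M a240 (F (T t1090 (L l104 (L l121 (L l390 (T t1091 (L l397 (T t1207 N))))))))) (K a106 (M a101 (F (L l390 (T t1208 (L l397 (L l498 (T t1209 (L l390 (L l397 (L l498 (T t1210 (L l390 (L l498 (T t1211 (L l498 (T t1212 N)))))))))))))))) (K a170 (M a48 (F (T t184 (L l462 (T t1 (L l104 (L l121 (L l390 (T t13 N))))))))) (K a191 (M a16 (F (T t97 (L l213 (T t1213 (L l213 (T t191 N))))))) (K a255 (M a16 (F (T t112 (L l289 (T t1213 (L l289 (L l296 (T t191 N)))))))) N)))))))))))))))))⟩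
def e0_63__67_71 : Ent 4 := ⟨[a0, a63], [a67, a124], (M a60 (L l145 (F (T t116 (L l307 (T t67 (L l307 (T t43 (L l307 (T t68 (L l307 (T t69 (K a20 (M a48 (L l145 (F (T t2 (T t64 (L l11 (T t235 (K a105 (M a86 (F (T t70 (T t2 (L l11 (L l500 (L l515 (T t235 N)))))))) (K a86 (M a105 (F (T t64 (L l76 (L l121 (L l348 (L l350 (T t1120 N)))))))) N))))))))) (K a40 (M a170 (L l145 (F (T t439 (L l109 (T t1214 (T t1123 (K a105 (M a86 (F (T t317 (L l141 (L l307 (T t1215 (L l76 (L l140 (T t1216 N))))))))) (K a86 (M a105 (F (L l307 (T t1124 (L l351 (T t438 (L l142 (L l307 (T t1125 N))))))))) N))))))))) (K a21 (M a105 (F (T t1217 (L l11 (L l307 (T t404 (L l11 (T t405 N)))))))) (K a41 (M a105 (F (T t1217 (L l307 (T t404 (T t405 N)))))) (K a61 (M a149 (L l145 (F (T t176 (L l140 (T t1218 (T t1130 (K a105 (M a86 (F (T t176 (L l98 (L l307 (T t1219 (L l109 (L l143 (T t619 N))))))))) (K a86 (M a105 (F (L l348 (T t1131 (L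 l307 (L l474 (T t1132 (L l76 (L l140 (L l142 (T t177 N))))))))))) N))))))))) (K a22 (M a105 (F (L l307 (T t420 (L l11 (L l109 (T t419 (L l11 (L l66 (T t405 N)))))))))) (K a42 (M a105 (F (T t1220 (L l66 (L l140 (T t1128 (L l66 (T t405 N)))))))) (K a62 (M a16 (L l145 (F (T t1140 (L l66 (T t97 (L l66 (T t1141 (K a105 (M a86 (F (L l392 (T t1140 (L l66 (T t97 (L l66 (L l392 (T t1141 N))))))))) (K a86 (M a105 (F (L l307 (T t404 (L l66 (T t97 N)))))) N)))))))))) (K a3 (M a105 (L l307 (F (T t1221 (L l109 (T t419 (T t405 (K a131 (Fr a195 a150 l518 (V t1153)) (K a195 (M a131 (F (L l228 (L l295 (T t405 (L l140 (L l228 (L l477 (T t1222 (L l109 (L l295 (L l477 (T t1223 N))))))))))))) N))))))))) (K a105 (M a86 (F (L l307 (T t69 (L l140 (L l392 (T t1224 (L l515 (T t1225 (L l307 (L l392 (T t43 (L l307 (L l515 (T t68 (L l392 (T t1226 (K a21 (M a3 (F (T t1227 (L l65 (L l392 (T t1228 (L l65 (T t1229 N)))))))) (K a41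 (M a252 (L l389 (F (L l143 (T t1230 (L l76 (L l307 (L l515 (T t1231 (L l65 (L l76 (T t1232 (K a169 (M a233 (F (L l65 (L l221 (L l307 (L l515 (T t1233 (L l22 (L l76 (L l143 (L l174 (L l217 (T t1234 (L l143 (L l174 (L l307 (T t1235 N))))))))))))))))) (K a233 (Fr a169 a3 l477 (V t1236)) N)))))))))))))) (K a22 (M a16 (F (L l66 (T t97 (L l19 (L l392 (T t1140 (L l16 (L l66 (L l392 (T t1141 N))))))))))) (K a42 (M a3 (F (T t1237 (L l22 (L l515 (T t1238 (L l22 (T t1229 N)))))))) N))))))))))))))))))))) (K a86 (M a105 (F (T t406 (L l307 (T t404 (L l140 (T t1128 N))))))) N)))))))))))))))))))))))⟩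
def e0_63__67_72 : Ent 4 := ⟨[a0, a63], [a67, a125], (M a48 (F (T t1 (T t2 (T t3 (T t0 (K a16 (M a60 (F (T t42 (L l14 (L l18 (L l307 (T t67 (T t65 N)))))))) (K a32 (M a60 (F (T t42 (L l307 (T t67 (L l24 (L l28 (T t65 N)))))))) (K a21 (M a192 (F (T t28 (L l47 (L l347 (T t20 (L l47 (L l347 (T t29 N))))))))) (K a37 (M a192 (F (T t19 (L l47 (T t20 (L l109 (L l143 (L l434 (T t21 N))))))))) (K a53 (M a192 (F (T t19 (L l109 (L l143 (L l434 (L l491 (T t21 (T t31 N))))))))) (K a26 (M a192 (F (T t28 (T t20 (L l109 (L l143 (L l434 (T t21 N)))))))) (K a42 (M a192 (F (T t19 (T t20 (L l28 (T t29 N)))))) (K a58 (M a192 (F (T t19 (L l109 (L l143 (L l434 (T t21 (L l54 (L l498 (T t31 N)))))))))) (K a15 (M a192 (F (T t57 (L l121 (L l483 (T t27 (L l325 (T t20 N)))))))) N)))))))))))))))⟩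
def e0_63__67_73 : Ent 4 := ⟨[a0, a63], [a67, a126], (M a149 (F (T t25 (T t175 (T t176 (L l76 (L l142 (T t177 (K a192 (M a53 (F (T t178 (L l236 (T t179 (L l236 (L l296 (T t180 N)))))))) (K a21 (M a48 (F (T t4 (L l121 (L l142 (T t13 (L l18 (T t14 N)))))))) (K a85 (M a16 (F (T t97 (L l142 (L l144 (T t190 (L l94 (T t278 N)))))))) (K a213 (Fr a106 a192 l519 (Fr a42 a21 l68 (Fr a170 a234 l390 (Fr a255 a85 l476 (V t582))))) (K a42 (M a48 (F (T t187 (L l121 (L l142 (L l390 (T t13 (L l54 (T t14 N))))))))) (K a106 (M a86 (F (L l390 (T t620 (L l393 (L l432 (T t618 (L l143 (L l390 (L l393 (T t1239 (L l390 (L l393 (T t621 (L l393 (T t622 N)))))))))))))))) (K a170 (M a48 (F (T t4 (L l462 (T t1 (L l121 (L l142 (L l390 (T t13 N))))))))) (K a191 (M a16 (F (T t97 (L l142 (T t190 (L l213 (T t191 N))))))) (K a255 (M a16 (F (T t112 (L l142 (L l266 (T t190 (L l289 (L l296 (T t191 N))))))))) N)))))))))))))))))⟩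
def e0_63__67_74 : Ent 4 := ⟨[a0, a63], [a67, a127], (M a48 (L l143 (F (T t1 (T t2 (T t3 (T t0 (K a16 (M a149 (L l143 (F (T t4 (T t176 (L l114 (T t6 (K a87 (M a107 (F (T t1240 (L l114 (T t6 N))))) (K a107 (M a87 (F (T t187 (L l364 (T t1196 N))))) N))))))))) (K a32 (M a149 (L l143 (F (T t16 (L l28 (T t176 (L l28 (L l114 (T t6 (K a87 (M a107 (F (T t1240 (L l28 (L l114 (T t6 N)))))) (K a107 (M a87 (F (T t184 (L l28 (T t1196 N))))) N))))))))))) (K a21 (M a192 (L l143 (F (T t28 (L l47 (L l347 (T t20 (L l18 (L l144 (T t224 (K a87 (M a107 (F (T t28 (L l347 (L l349 (T t1172 N)))))) (K a107 (M a87 (F (T t28 (L l103 (L l137 (L l347 (T t225 (L l18 (L l98 (L l144 (T t224 N))))))))))) N)))))))))))) (K a37 (M a149 (L l143 (F (T t4 (L l28 (T t176 (L l28 (T t1241 (K a87 (M a107 (F (T t15 (L l349 (T t1164 N))))) (K a107 (M a87 (F (T t15 (L l28 (T t1196 N))))) N)))))))))) (K a53 (M a85 (L l143 (F (T t168 (T t99 (T t568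 (K a87 (M a107 (F (T t873 (L l109 (L l349 (T t1242 N)))))) (K a107 (M a87 (F (T t873 (T t923 N)))) N)))))))) (K a26 (M a85 (L l143 (F (T t509 (L l54 (T t168 (L l54 (T t1194 (K a87 (M a107 (F (T t873 (L l54 (L l109 (L l349 (T t1242 N))))))) (K a107 (M a87 (F (T t873 (L l54 (T t923 N))))) N)))))))))) (K a42 (M a192 (L l143 (F (T t19 (T t20 (L l54 (L l144 (L l390 (T t224 (K a87 (M a107 (F (T t19 (L l349 (T t1172 N))))) (K a107 (M a87 (F (T t20 (L l28 (T t28 (L l54 (L l98 (L l144 (L l390 (T t224 N)))))))))) N))))))))))) (K a58 (M a85 (L l143 (F (T t509 (L l54 (T t168 (L l54 (T t568 (K a87 (M a107 (F (L l367 (T t261 (L l54 (L l109 (L l349 (T t1242 N)))))))) (K a107 (M a87 (F (T t261 (L l54 (T t923 N))))) N)))))))))) (K a15 (M a85 (L l143 (F (T t509 (L l469 (T t168 (T t1194 (K a87 (M a107 (F (T t1243 (L l109 (L l349 (T t1242 N)))))) (K a107 (M a87 (F (T t509 (T t923 N)))) N))))))))) (K a87 (M a107 (F (T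 t2 (L l76 (L l121 (L l349 (T t1173 (K a16 (M a192 (F (T t20 (L l76 (L l307 (L l349 (L l475 (T t1174 N)))))))) (K a32 (M a192 (F (T t20 (L l76 (L l307 (L l349 (L l475 (T t1174 N)))))))) N))))))))) (K a107 (M a87 (F (T t1 (T t2 (L l409 (T t3 (T t0 (K a16 (M a85 (F (L l391 (T t1195 (L l114 (T t51 N)))))) (K a32 (M a149 (F (T t184 (L l28 (T t1196 N))))) (K a21 (M a154 (F (T t526 (T t1197 N)))) (K a37 (M a85 (F (L l391 (T t1198 (L l28 (L l47 (T t1199 N))))))) (K a53 (M a20 (F (T t183 (T t1200 N)))) (K a26 (M a20 (F (T t805 (L l16 (L l54 (T t1200 N)))))) (K a42 (M a154 (F (T t473 (L l28 (T t1197 N))))) (K a58 (M a20 (F (T t1201 (L l54 (T t1200 N))))) (K a15 (M a20 (F (T t183 (T t1200 N)))) N)))))))))))))))) N))))))))))))))))))⟩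
def e0_63__67_75 : Ent 4 := ⟨[a0, a63], [a67, a128], (M a48 (F (T t1 (T t2 (T t3 (T t0 (K a16 (M a60 (F (T t64 (L l14 (L l18 (L l307 (T t67 (T t65 N)))))))) (K a32 (M a60 (F (T t64 (L l307 (T t67 (L l24 (L l28 (T t65 N)))))))) (K a21 (M a154 (F (T t822 (L l47 (L l192 (T t473 (L l47 (L l76 (T t527 N))))))))) (K a37 (M a52 (F (T t82 (T t83 (L l21 (L l28 (T t84 N))))))) (K a53 (M a12 (F (T t151 (T t443 (L l47 (T t146 N)))))) (K a26 (M a56 (F (T t133 (T t134 (L l12 (L l18 (T t135 N))))))) (K a42 (M a154 (F (T t493 (L l28 (T t327 (L l28 (L l76 (T t527 N)))))))) (K a58 (M a12 (F (T t443 (T t122 (T t146 N))))) (K a15 (M a4 (F (T t129 (L l63 (T t528 (T t520 N)))))) N)))))))))))))))⟩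
def e0_63__67_76 : Ent 4 := ⟨[a0, a63], [a67, a129], (M a149 (F (T t25 (L l152 (L l309 (T t175 (T t176 (L l76 (T t177 (K a192 (M a3 (F (T t85 (L l152 (L l292 (L l305 (T t615 (L l143 (L l292 (L l296 (T t616 (L l292 (L l296 (T t1244 N)))))))))))))) (K a21 (M a48 (F (T t16 (L l121 (L l152 (T t13 (L l18 (L l152 (T t14 N))))))))) (K a85 (M a16 (F (T t97 (L l144 (T t190 (L l94 (T t278 N))))))) (K a213 (Fr a106 a192 l519 (Fr a42 a21 l68 (Fr a170 a234 l390 (Fr a255 a85 l476 (V t582))))) (K a42 (M a48 (F (L l54 (T t16 (L l121 (L l152 (L l390 (T t13 (L l54 (L l152 (T t14 N))))))))))) (K a106 (M a48 (F (T t1 (L l152 (L l498 (T t14 (L l390 (L l498 (T t6 (L l390 (T t26 N))))))))))) (K a170 (M a48 (F (T t184 (L l462 (T t1 (L l121 (L l152 (L l390 (T t13 N))))))))) (K a191 (M a240 (F (T t962 (L l157 (T t963 N))))) (K a255 (M a16 (F (T t112 (L l266 (T t190 (L l289 (L l296 (T t191 N)))))))) N))))))))))))))))))⟩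
def e0_63__67_77 : Ent 4 := ⟨[a0, a63], [a67, a130], (M a48 (F (T t1 (T t2 (T t3 (T t0 (K a16 (M a60 (F (T t64 (L l14 (L l18 (L l307 (T t67 (T t65 N)))))))) (K a32 (M a60 (F (T t64 (L l307 (T t67 (L l24 (L l28 (T t65 N)))))))) (K a21 (M a192 (F (T t28 (L l47 (L l347 (T t20 (L l47 (L l347 (T t29 N))))))))) (K a37 (M a192 (F (T t19 (L l47 (T t20 (L l143 (L l152 (T t21 N)))))))) (K a53 (M a192 (F (T t19 (L l143 (L l152 (L l491 (T t21 (T t31 N)))))))) (K a26 (M a192 (F (T t28 (T t20 (L l143 (L l152 (T t21 N))))))) (K a42 (M a192 (F (T t19 (T t20 (L l28 (T t29 N)))))) (K a58 (M a192 (F (T t19 (L l143 (L l152 (T t21 (L l54 (L l498 (T t31 N))))))))) (K a15 (M a192 (F (T t33 (L l121 (L l152 (L l483 (T t27 (L l143 (L l152 (L l469 (T t21 N))))))))))) N)))))))))))))))⟩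
def e0_63__67_78 : Ent 4 := ⟨[a0, a63], [a67, a131], (M a3 (F (T t137 (T t353 (T t665 (T t358 (K a60 (M a16 (F (T t112 (L l39 (T t839 (T t840 N)))))) (K a1 (M a149 (F (T t1245 (T t1049 (L l143 (T t616 N)))))) (K a21 (M a169 (F (T t1246 (L l219 (T t1247 (L l11 (L l76 (T t1248 N)))))))) (K a41 (M a48 (F (T t1249 (L l22 (T t2 (L l25 (L l65 (T t847 N)))))))) (K a2 (M a149 (F (T t1049 (L l66 (L l219 (T t176 (L l66 (L l143 (T t616 N))))))))) (K a22 (M a48 (F (T t86 (L l11 (T t1 (L l16 (L l66 (T t345 N)))))))) (K a42 (M a169 (F (T t1250 (L l66 (T t1251 (L l66 (L l76 (T t1248 N)))))))) (K a23 (M a48 (F (T t2 (T t86 (L l11 (T t847 N)))))) (K a43 (M a48 (F (T t86 (T t1 (T t847 N))))) N)))))))))))))))⟩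
def e0_63__67_79 : Ent 4 := ⟨[a0, a63], [a67, a132], (M a149 (F (T t25 (L l156 (L l334 (T t175 (T t176 (L l76 (T t177 (K a192 (M a12 (F (T t1252 (L l156 (L l272 (L l310 (T t649 (L l272 (L l296 (T t960 (L l272 (L l296 (T t1253 N))))))))))))) (K a21 (M a48 (F (T t16 (L l121 (L l156 (T t13 (L l18 (L l156 (T t14 N))))))))) (K a85 (M a16 (F (T t97 (L l144 (T t190 (L l94 (T t278 N))))))) (K a213 (Fr a106 a192 l519 (Fr a42 a21 l68 (Fr a170 a234 l390 (Fr a255 a85 l476 (V t582))))) (K a42 (M a48 (F (L l54 (T t16 (L l121 (L l156 (L l390 (T t13 (L l54 (L l156 (T t14 N))))))))))) (K a106 (M a48 (F (T t1 (L l156 (L l498 (T t14 (L l390 (L l498 (T t6 (L l390 (T t26 N))))))))))) (K a170 (M a48 (F (T t184 (L l462 (T t1 (L l121 (L l156 (L l390 (T t13 N))))))))) (K a191 (M a240 (F (T t962 (L l153 (T t963 N))))) (K a255 (M a16 (F (T t112 (L l266 (T t190 (L l289 (L l296 (T t191 N)))))))) N))))))))))))))))))⟩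
def e0_63__67_80 : Ent 4 := ⟨[a0, a63], [a67, a133], (M a149 (F (T t25 (L l160 (L l339 (T t175 (T t176 (L l76 (T t177 (K a192 (M a15 (F (T t1254 (L l160 (L l268 (L l311 (T t1026 (L l268 (L l296 (T t1031 (L l268 (L l296 (T t1255 N))))))))))))) (K a21 (M a48 (F (T t7 (L l18 (L l160 (L l311 (T t14 (L l121 (L l160 (T t13 N)))))))))) (K a85 (M a16 (F (T t504 (L l144 (T t190 (L l94 (T t278 N))))))) (K a213 (Fr a106 a192 l519 (Fr a42 a21 l68 (Fr a170 a234 l390 (Fr a255 a85 l476 (V t582))))) (K a42 (M a48 (F (L l339 (T t187 (L l121 (L l160 (L l390 (T t13 (L l54 (L l160 (L l311 (T t14 N)))))))))))) (K a106 (M a48 (F (T t48 (L l160 (L l311 (L l498 (T t14 (L l390 (T t26 (L l311 (L l390 (L l498 (T t6 N))))))))))))) (K a170 (M a48 (F (T t607 (L l339 (T t11 (L l121 (L l160 (L l390 (T t13 N))))))))) (K a191 (M a252 (F (T t940 (L l157 (T t941 N))))) (K a255 (M a16 (F (T t504 (L l266 (T t190 (L l289 (L l296 (T t191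 N)))))))) N))))))))))))))))))⟩
def e0_63__67_81 : Ent 4 := ⟨[a0, a63], [a67, a134], (M a149 (F (T t25 (T t175 (T t176 (L l76 (T t177 (K a192 (M a53 (F (T t178 (L l236 (T t179 (L l236 (L l296 (L l314 (T t180 N))))))))) (K a21 (M a48 (F (T t4 (L l121 (T t13 (L l18 (T t14 N))))))) (K a85 (M a16 (F (T t97 (L l144 (T t190 (L l94 (T t278 N))))))) (K a213 (Fr a106 a192 l519 (Fr a42 a21 l68 (Fr a170 a234 l390 (Fr a255 a85 l476 (V t582))))) (K a42 (M a48 (F (T t187 (L l121 (L l390 (T t13 (L l54 (T t14 N)))))))) (K a106 (M a48 (F (T t1 (L l498 (T t14 (L l390 (L l498 (T t6 (L l390 (T t26 N)))))))))) (K a170 (M a48 (F (T t4 (L l462 (T t1 (L l121 (L l390 (T t13 N)))))))) (K a191 (M a240 (F (T t962 (L l153 (T t963 N))))) (K a255 (M a16 (F (T t112 (L l266 (T t190 (L l289 (L l296 (T t191 N)))))))) N))))))))))))))))⟩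
def e0_63__67_82 : Ent 4 := ⟨[a0, a63], [a67, a135], (M a149 (F (T t25 (T t175 (T t176 (L l76 (T t177 (K a192 (M a53 (F (T t178 (L l236 (T t179 (L l236 (L l296 (T t180 N)))))))) (K a21 (M a48 (F (T t4 (L l121 (T t13 (L l18 (T t14 N))))))) (K a85 (M a16 (F (T t504 (L l144 (T t190 (L l94 (T t278 N))))))) (K a213 (Fr a106 a192 l519 (Fr a42 a21 l68 (Fr a170 a234 l390 (Fr a255 a85 l476 (V t582))))) (K a42 (M a48 (F (T t187 (L l121 (L l390 (T t13 (L l54 (T t14 N)))))))) (K a106 (M a48 (F (T t48 (L l498 (T t14 (L l390 (L l498 (T t6 (L l390 (T t26 N)))))))))) (K a170 (M a48 (F (T t4 (L l337 (L l462 (T t1 (L l121 (L l390 (T t13 N))))))))) (K a191 (M a16 (F (T t112 (T t190 (L l213 (T t191 N)))))) (K a255 (M a16 (F (T t112 (L l266 (T t190 (L l289 (L l296 (T t191 N)))))))) N))))))))))))))))⟩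
def e0_63__67_83 : Ent 4 := ⟨[a0, a63], [a67, a136], (M a48 (F (T t1 (T t2 (T t3 (T t0 (K a16 (M a60 (F (T t64 (L l14 (L l18 (L l307 (T t67 (T t65 N)))))))) (K a32 (M a60 (F (T t64 (L l307 (T t67 (L l24 (L l28 (T t65 N)))))))) (K a21 (M a192 (F (T t28 (L l47 (L l347 (T t20 (L l47 (L l347 (T t29 N))))))))) (K a37 (M a192 (F (T t19 (L l47 (T t20 (L l143 (L l156 (T t21 N)))))))) (K a53 (M a192 (F (T t19 (L l143 (L l156 (L l491 (T t21 (T t31 N)))))))) (K a26 (M a192 (F (T t28 (T t20 (L l143 (L l156 (T t21 N))))))) (K a42 (M a192 (F (T t19 (T t20 (L l28 (T t29 N)))))) (K a58 (M a192 (F (T t19 (L l143 (L l156 (T t21 (L l54 (L l498 (T t31 N))))))))) (K a15 (M a192 (F (T t33 (L l121 (L l156 (L l483 (T t27 (L l143 (L l156 (L l469 (T t21 N))))))))))) N)))))))))))))))⟩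
def e0_63__67_84 : Ent 4 := ⟨[a0, a63], [a67, a137], (M a149 (F (T t25 (T t175 (T t176 (L l76 (T t177 (K a192 (M a53 (F (T t178 (L l236 (T t179 (L l236 (L l296 (L l329 (T t180 N))))))))) (K a21 (M a48 (F (T t4 (L l121 (T t13 (L l18 (T t14 N))))))) (K a85 (M a16 (F (T t97 (L l144 (T t190 (L l94 (T t278 N))))))) (K a213 (Fr a106 a192 l519 (Fr a42 a21 l68 (Fr a170 a234 l390 (Fr a255 a85 l476 (V t582))))) (K a42 (M a48 (F (T t187 (L l121 (L l390 (T t13 (L l54 (T t14 N)))))))) (K a106 (M a48 (F (T t1 (L l498 (T t14 (L l390 (L l498 (T t6 (L l390 (T t26 N)))))))))) (K a170 (M a48 (F (T t4 (L l462 (T t1 (L l121 (L l390 (T t13 N)))))))) (K a191 (M a240 (F (T t962 (L l157 (T t963 N))))) (K a255 (M a16 (F (T t112 (L l266 (T t190 (L l289 (L l296 (T t191 N)))))))) N))))))))))))))))⟩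
def e0_63__67_85 : Ent 4 := ⟨[a0, a63], [a67, a138], (M a48 (F (T t2 (L l318 (T t1 (T t3 (T t0 (K a16 (M a60 (F (T t64 (L l14 (L l18 (L l307 (T t67 (T t65 N)))))))) (K a32 (M a60 (F (T t64 (L l307 (T t67 (L l24 (L l28 (T t65 N)))))))) (K a21 (M a192 (F (T t28 (L l47 (L l318 (L l347 (T t20 (L l47 (L l318 (L l347 (T t29 N))))))))))) (K a37 (M a192 (F (T t19 (L l47 (L l318 (T t20 (L l143 (L l160 (T t21 N))))))))) (K a53 (M a192 (F (T t19 (L l143 (L l160 (L l491 (T t21 (T t31 N)))))))) (K a26 (M a192 (F (T t28 (L l318 (T t20 (L l143 (L l160 (T t21 N)))))))) (K a42 (M a192 (F (T t19 (L l318 (T t20 (L l28 (L l318 (T t29 N)))))))) (K a58 (M a192 (F (T t19 (L l143 (L l160 (T t21 (L l54 (L l498 (T t31 N))))))))) (K a15 (M a192 (F (T t54 (L l121 (L l160 (L l483 (T t27 (L l143 (L l160 (L l469 (T t21 N))))))))))) N))))))))))))))))⟩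
def e0_63__67_86 : Ent 4 := ⟨[a0, a63], [a67, a139], (M a149 (F (T t25 (T t175 (T t176 (L l76 (T t177 (K a192 (M a53 (F (T t178 (L l236 (T t179 (L l236 (L l296 (T t180 N)))))))) (K a21 (M a48 (F (T t4 (L l121 (T t13 (L l18 (T t14 N))))))) (K a85 (M a16 (F (T t97 (L l144 (T t190 (L l94 (T t278 N))))))) (K a213 (Fr a106 a192 l519 (Fr a42 a21 l68 (Fr a170 a234 l390 (Fr a255 a85 l476 (V t582))))) (K a42 (M a48 (F (T t187 (L l121 (L l390 (T t13 (L l54 (T t14 N)))))))) (K a106 (M a48 (F (T t1 (L l498 (T t14 (L l390 (L l498 (T t6 (L l390 (T t26 N)))))))))) (K a170 (M a48 (F (T t4 (L l462 (T t1 (L l121 (L l390 (T t13 N)))))))) (K a191 (M a16 (F (T t97 (T t190 (L l213 (T t191 N)))))) (K a255 (M a16 (F (T t112 (L l266 (T t190 (L l289 (L l296 (T t191 N)))))))) N))))))))))))))))⟩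
def e0_63__67_87 : Ent 4 := ⟨[a0, a63], [a67, a140], (M a48 (F (T t1 (T t2 (T t3 (T t0 (K a16 (M a60 (F (T t64 (L l14 (L l18 (L l307 (T t67 (T t65 N)))))))) (K a32 (M a60 (F (T t64 (L l307 (T t67 (L l24 (L l28 (T t65 N)))))))) (K a21 (M a192 (F (T t28 (L l47 (L l347 (T t20 (L l47 (L l347 (T t29 N))))))))) (K a37 (M a192 (F (T t19 (L l47 (T t20 (L l143 (L l156 (T t21 N)))))))) (K a53 (M a192 (F (T t19 (L l143 (L l156 (L l491 (T t21 (T t31 N)))))))) (K a26 (M a192 (F (T t28 (T t20 (L l143 (L l156 (T t21 N))))))) (K a42 (M a192 (F (T t19 (T t20 (L l28 (T t29 N)))))) (K a58 (M a192 (F (T t19 (L l143 (L l156 (T t21 (L l54 (L l498 (T t31 N))))))))) (K a15 (M a192 (F (T t54 (L l121 (L l156 (L l483 (T t27 (L l143 (L l156 (L l469 (T t21 N))))))))))) N)))))))))))))))⟩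
def e0_63__67_88 : Ent 4 := ⟨[a0, a63], [a67, a141], (M a149 (F (T t25 (T t175 (T t176 (L l76 (T t177 (K a192 (M a53 (F (T t178 (L l236 (T t179 (L l236 (L l296 (T t180 N)))))))) (K a21 (M a48 (F (T t4 (L l121 (T t13 (L l18 (T t14 N))))))) (K a85 (M a16 (F (T t504 (L l144 (T t190 (L l94 (T t278 N))))))) (K a213 (Fr a106 a192 l519 (Fr a42 a21 l68 (Fr a170 a234 l390 (Fr a255 a85 l476 (V t582))))) (K a42 (M a48 (F (T t187 (L l121 (L l390 (T t13 (L l54 (T t14 N)))))))) (K a106 (M a48 (F (T t48 (L l498 (T t14 (L l390 (L l498 (T t6 (L l390 (T t26 N)))))))))) (K a170 (M a48 (F (T t4 (L l327 (L l462 (T t1 (L l121 (L l390 (T t13 N))))))))) (K a191 (M a252 (F (T t940 (L l157 (T t941 N))))) (K a255 (M a16 (F (T t112 (L l266 (T t190 (L l289 (L l296 (T t191 N)))))))) N))))))))))))))))⟩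
def e0_63__67_89 : Ent 4 := ⟨[a0, a63], [a67, a142], (M a149 (F (T t25 (T t175 (T t176 (L l76 (T t177 (K a192 (M a53 (F (T t178 (L l236 (T t179 (L l236 (L l296 (T t180 N)))))))) (K a21 (M a48 (F (T t4 (L l121 (T t13 (L l18 (T t14 N))))))) (K a85 (M a16 (F (T t97 (L l144 (T t190 (L l94 (T t278 N))))))) (K a213 (Fr a106 a192 l519 (Fr a42 a21 l68 (Fr a170 a234 l390 (Fr a255 a85 l476 (V t582))))) (K a42 (M a48 (F (T t187 (L l121 (L l390 (T t13 (L l54 (T t14 N)))))))) (K a106 (M a48 (F (T t1 (L l498 (T t14 (L l390 (L l498 (T t6 (L l390 (T t26 N)))))))))) (K a170 (M a48 (F (T t4 (L l462 (T t1 (L l121 (L l390 (T t13 N)))))))) (K a191 (M a16 (F (T t97 (T t190 (L l213 (T t191 N)))))) (K a255 (M a16 (F (T t112 (L l266 (T t190 (L l289 (L l296 (T t191 N)))))))) N))))))))))))))))⟩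
def e0_63__67_90 : Ent 4 := ⟨[a0, a63], [a67, a143], (M a12 (F (T t122 (T t151 (T t152 (T t153 (K a4 (M a60 (F (T t570 (L l46 (L l50 (L l307 (T t67 (T t448 N)))))))) (K a8 (M a60 (F (T t570 (L l307 (T t67 (L l52 (L l56 (T t448 N)))))))) (K a21 (M a192 (F (T t468 (L l15 (L l347 (T t450 (L l15 (L l347 (T t157 N))))))))) (K a25 (M a192 (F (T t449 (L l15 (T t450 (L l143 (L l160 (T t21 N)))))))) (K a29 (M a192 (F (T t449 (L l143 (L l160 (L l371 (T t21 (T t160 N)))))))) (K a38 (M a192 (F (T t468 (T t450 (L l143 (L l160 (T t21 N))))))) (K a42 (M a192 (F (T t449 (T t450 (L l56 (T t157 N)))))) (K a46 (M a192 (F (T t449 (L l143 (L l160 (T t21 (L l26 (L l408 (T t160 N))))))))) (K a51 (M a192 (F (T t158 (L l85 (L l160 (L l513 (T t156 (L l143 (L l160 (L l439 (T t21 N))))))))))) N)))))))))))))))⟩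
def e0_63__67_91 : Ent 4 := ⟨[a0, a63], [a67, a148], (M a149 (F (T t25 (L l216 (L l514 (T t175 (T t176 (L l76 (T t177 (K a192 (M a60 (F (T t522 (L l216 (L l228 (L l346 (T t462 (L l228 (L l296 (T t1256 (L l228 (L l296 (L l307 (T t1257 N)))))))))))))) (K a21 (M a48 (F (T t16 (L l121 (L l166 (L l216 (T t13 (L l18 (L l216 (T t14 N)))))))))) (K a85 (M a16 (F (T t97 (L l144 (L l370 (T t190 (L l94 (L l166 (T t278 N))))))))) (K a213 (Fr a106 a192 l519 (Fr a42 a21 l68 (Fr a170 a234 l390 (Fr a255 a85 l476 (V t582))))) (K a42 (M a48 (F (L l54 (T t16 (L l121 (L l166 (L l216 (L l390 (T t13 (L l54 (L l216 (T t14 N)))))))))))) (K a106 (M a48 (F (T t1 (L l216 (L l498 (T t14 (L l390 (L l498 (T t6 (L l166 (L l390 (T t26 N)))))))))))) (K a170 (M a48 (F (T t184 (L l462 (T t1 (L l121 (L l166 (L l216 (L l390 (T t13 N)))))))))) (K a191 (M a16 (F (T t97 (L l370 (T t190 (L l213 (T t191 N))))))) (K a255 (M a16 (F (T t112 (L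 l266 (L l370 (T t190 (L l289 (L l296 (T t191 N))))))))) N))))))))))))))))))⟩
def e0_63__67_92 : Ent 4 := ⟨[a0, a63], [a67, a149], (M a48 (F (T t2 (L l347 (L l491 (T t1 (L l347 (T t3 (L l375 (T t0 (K a16 (M a60 (F (T t70 (L l14 (L l18 (L l307 (L l347 (T t67 (L l351 (T t65 N)))))))))) (K a32 (M a60 (F (T t70 (L l307 (L l347 (T t67 (L l24 (L l28 (L l351 (T t65 N)))))))))) (K a21 (M a85 (F (T t99 (L l143 (L l220 (T t50 (L l47 (L l143 (L l170 (L l220 (L l491 (T t544 (L l47 (L l491 (T t545 N))))))))))))))) (K a37 (M a52 (F (T t82 (L l495 (T t83 (L l21 (L l28 (T t84 N)))))))) (K a53 (M a12 (L l491 (F (T t151 (T t443 (L l47 (L l347 (L l371 (T t146 (K a197 (M a101 (F (T t151 (L l236 (T t334 N))))) (K a101 (M a197 (F (T t151 (T t445 (L l47 (L l347 (L l371 (T t146 N)))))))) N))))))))))) (K a26 (M a56 (F (T t133 (L l491 (T t134 (L l12 (L l18 (L l347 (L l491 (T t135 N)))))))))) (K a42 (M a255 (F (L l143 (T t546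 (L l347 (T t547 (L l28 (L l220 (L l390 (L l491 (T t548 N))))))))))) (K a58 (M a12 (F (T t443 (L l347 (L l371 (T t122 (L l347 (L l371 (T t146 N))))))))) (K a15 (M a4 (F (T t129 (L l63 (T t528 (T t520 N)))))) N)))))))))))))))))))⟩
def e0_63__67_93 : Ent 4 := ⟨[a0, a63], [a67, a150], (M a48 (F (T t1 (T t2 (T t3 (T t0 (K a16 (M a60 (F (T t64 (L l14 (L l18 (L l307 (L l350 (T t67 (T t65 N))))))))) (K a32 (M a60 (F (T t64 (L l307 (L l350 (T t67 (L l24 (L l28 (T t65 N))))))))) (K a21 (M a192 (F (T t28 (L l47 (L l163 (L l347 (T t20 (L l47 (L l163 (L l347 (T t29 N))))))))))) (K a37 (M a192 (F (T t19 (L l47 (L l163 (T t20 (L l143 (L l163 (T t21 N))))))))) (K a53 (M a192 (F (T t19 (L l143 (L l163 (L l491 (T t21 (L l516 (T t31 N))))))))) (K a26 (M a192 (F (T t28 (L l163 (T t20 (L l143 (L l163 (T t21 N)))))))) (K a42 (M a192 (F (T t19 (L l163 (T t20 (L l28 (L l163 (T t29 N)))))))) (K a58 (M a192 (F (T t19 (L l143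 (L l163 (T t21 (L l54 (L l498 (L l516 (T t31 N)))))))))) (K a15 (M a192 (F (T t36 (L l163 (L l325 (T t20 (L l143 (L l163 (L l469 (T t21 N)))))))))) N)))))))))))))))⟩
def e0_63__67_94 : Ent 4 := ⟨[a0, a63], [a67, a151], (M a48 (F (T t1 (T t2 (T t3 (L l373 (T t0 (K a16 (M a60 (F (T t64 (L l14 (L l18 (L l307 (T t67 (L l349 (T t65 N))))))))) (K a32 (M a60 (F (T t64 (L l307 (T t67 (L l24 (L l28 (L l349 (T t65 N))))))))) (K a21 (M a192 (F (T t28 (L l47 (L l163 (L l347 (T t20 (L l47 (L l163 (L l347 (T t29 N))))))))))) (K a37 (M a192 (F (T t19 (L l47 (L l163 (T t20 (L l143 (L l163 (T t21 N))))))))) (K a53 (M a192 (F (T t19 (L l143 (L l163 (L l491 (T t21 (L l169 (T t31 N))))))))) (K a26 (M a192 (F (T t28 (L l163 (T t20 (L l143 (L l163 (T t21 N)))))))) (K a42 (M a192 (F (T t19 (L l163 (T t20 (L l28 (L l163 (T t29 N)))))))) (K a58 (M a192 (F (T t19 (L l143 (L l163 (T t21 (L l54 (L l169 (L l498 (T t31 N))))))))))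 (K a15 (M a192 (F (T t53 (L l121 (L l483 (T t27 (L l143 (L l163 (L l469 (T t21 N)))))))))) N))))))))))))))))⟩
def e0_63__67_95 : Ent 4 := ⟨[a0, a63], [a67, a152], (M a149 (F (T t25 (T t175 (T t176 (L l76 (T t177 (K a192 (M a53 (F (T t178 (L l236 (L l364 (T t179 (L l236 (L l296 (T t180 N))))))))) (K a21 (M a48 (F (T t4 (L l121 (L l166 (T t13 (L l18 (L l364 (T t14 N))))))))) (K a85 (M a16 (F (T t97 (L l144 (T t190 (L l94 (L l166 (T t278 N)))))))) (K a213 (Fr a106 a192 l519 (Fr a42 a21 l68 (Fr a170 a234 l390 (Fr a255 a85 l476 (V t582))))) (K a42 (M a48 (F (T t187 (L l121 (L l166 (L l390 (T t13 (L l54 (L l364 (T t14 N)))))))))) (K a106 (M a48 (F (T t1 (L l364 (L l498 (T t14 (L l390 (L l498 (T t6 (L l166 (L l390 (T t26 N)))))))))))) (K a170 (M a48 (F (T t4 (L l462 (T t1 (L l121 (L l166 (L l390 (T t13 N))))))))) (K a191 (M a16 (F (T t97 (T t190 (L l213 (T t191 N)))))) (K a255 (M a16 (F (T t112 (L l266 (T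 t190 (L l289 (L l296 (T t191 N)))))))) N))))))))))))))))⟩
def e0_63__67_96 : Ent 4 := ⟨[a0, a63], [a67, a153], (M a48 (F (T t1 (T t2 (T t3 (T t0 (K a16 (M a60 (F (T t522 (L l513 (T t64 (T t65 N)))))) (K a32 (M a60 (F (T t277 (L l307 (T t67 (L l24 (L l28 (T t65 N)))))))) (K a21 (M a192 (F (T t28 (L l47 (L l167 (L l347 (T t20 (L l47 (L l167 (L l347 (T t29 N))))))))))) (K a37 (M a192 (F (T t19 (L l47 (L l167 (T t20 (L l143 (L l167 (T t21 N))))))))) (K a53 (M a192 (F (T t19 (L l143 (L l167 (L l491 (T t21 (L l501 (T t31 N))))))))) (K a26 (M a192 (F (T t28 (L l167 (T t20 (L l143 (L l167 (T t21 N)))))))) (K a42 (M a192 (F (T t19 (L l167 (T t20 (L l28 (L l167 (T t29 N)))))))) (K a58 (M a192 (F (T t19 (L l143 (L l167 (T t21 (L l54 (L l498 (L l501 (T t31 N)))))))))) (K a15 (M a192 (F (T t36 (L l167 (L l325 (T t20 (L l143 (L l167 (L l469 (T t21 N)))))))))) N)))))))))))))))⟩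
def e0_63__67_97 : Ent 4 := ⟨[a0, a63], [a67, a154], (M a12 (F (T t122 (T t151 (T t152 (T t153 (K a4 (M a60 (F (T t398 (L l46 (L l50 (L l307 (T t67 (T t448 N)))))))) (K a8 (M a60 (F (T t398 (L l307 (T t67 (L l52 (L l56 (T t448 N)))))))) (K a21 (M a192 (F (T t468 (L l15 (L l170 (L l347 (T t450 (L l15 (L l170 (L l347 (T t157 N))))))))))) (K a25 (M a192 (F (T t449 (L l15 (L l170 (T t450 (L l143 (L l170 (T t21 N))))))))) (K a29 (M a192 (F (T t449 (L l143 (L l170 (L l371 (T t21 (L l498 (T t160 N))))))))) (K a38 (M a192 (F (T t468 (L l170 (T t450 (L l143 (L l170 (T t21 N)))))))) (K a42 (M a192 (F (T t449 (L l170 (T t450 (L l56 (L l170 (T t157 N)))))))) (K a46 (M a192 (F (T t449 (L l143 (L l170 (T t21 (L l26 (L l408 (L l498 (T t160 N)))))))))) (K a51 (M a192 (F (T t496 (L l170 (L l415 (T t450 (L l143 (L l170 (L l439 (T t21 N)))))))))) N)))))))))))))))⟩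
def e0_63__67_98 : Ent 4 := ⟨[a0, a63], [a67, a155], (M a149 (F (T t25 (T t175 (T t176 (L l76 (T t177 (K a192 (M a53 (F (T t178 (L l236 (T t179 (L l236 (L l296 (T t180 N)))))))) (K a21 (M a48 (F (T t4 (L l121 (T t13 (L l18 (T t14 N))))))) (K a85 (M a16 (F (T t97 (L l144 (T t190 (L l94 (T t278 N))))))) (K a213 (Fr a106 a192 l519 (Fr a42 a21 l68 (Fr a170 a234 l390 (Fr a255 a85 l476 (V t582))))) (K a42 (M a48 (F (T t11 (L l121 (L l390 (T t13 (L l54 (T t14 N)))))))) (K a106 (M a48 (F (T t1 (L l498 (T t14 (L l390 (L l498 (T t6 (L l367 (L l390 (T t26 N))))))))))) (K a170 (M a48 (F (T t4 (L l462 (T t1 (L l121 (L l390 (T t13 N)))))))) (K a191 (M a16 (F (T t97 (T t190 (L l169 (L l213 (L l367 (T t191 N)))))))) (K a255 (M a16 (F (T t112 (L l266 (T t190 (L l169 (L l289 (L l296 (L l367 (T t191 N)))))))))) N))))))))))))))))⟩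
def e0_63__67_99 : Ent 4 := ⟨[a0, a63], [a67, a156], (M a149 (F (T t25 (T t175 (T t176 (L l76 (T t177 (K a192 (M a53 (F (T t178 (L l236 (T t179 (L l236 (L l296 (T t180 N)))))))) (K a21 (M a48 (F (T t4 (L l121 (L l166 (T t13 (L l18 (T t14 N)))))))) (K a85 (M a16 (F (T t97 (L l144 (T t190 (L l94 (L l166 (T t278 N)))))))) (K a213 (Fr a106 a192 l519 (Fr a42 a21 l68 (Fr a170 a234 l390 (Fr a255 a85 l476 (V t582))))) (K a42 (M a48 (F (T t187 (L l121 (L l166 (L l390 (T t13 (L l54 (T t14 N))))))))) (K a106 (M a48 (F (T t1 (L l498 (T t14 (L l390 (L l498 (T t6 (L l166 (L l390 (T t26 N))))))))))) (K a170 (M a48 (F (T t4 (L l462 (T t1 (L l121 (L l166 (L l390 (T t13 N))))))))) (K a191 (M a16 (F (T t97 (T t190 (L l165 (L l213 (T t191 N))))))) (K a255 (M a16 (F (T t112 (L l266 (T t190 (L l165 (L l289 (L l296 (T t191 N))))))))) N))))))))))))))))⟩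
def e0_63__67_100 : Ent 4 := ⟨[a0, a63], [a67, a157], (M a48 (F (T t1 (T t2 (T t3 (L l363 (T t0 (K a16 (M a60 (F (T t42 (L l14 (L l18 (L l307 (T t67 (T t65 N)))))))) (K a32 (M a60 (F (T t42 (L l307 (T t67 (L l24 (L l28 (T t65 N)))))))) (K a21 (M a192 (F (T t28 (L l47 (L l167 (L l347 (T t20 (L l47 (L l167 (L l347 (T t29 N))))))))))) (K a37 (M a192 (F (T t19 (L l47 (L l167 (T t20 (L l143 (L l167 (T t21 N))))))))) (K a53 (M a192 (F (T t19 (L l143 (L l167 (L l491 (T t21 (L l165 (T t31 N))))))))) (K a26 (M a192 (F (T t28 (L l167 (T t20 (L l143 (L l167 (T t21 N)))))))) (K a42 (M a192 (F (T t19 (L l167 (T t20 (L l28 (L l167 (T t29 N)))))))) (K a58 (M a192 (F (T t19 (L l143 (L l167 (T t21 (L l54 (L l165 (L l498 (T t31 N)))))))))) (K a15 (M a192 (F (T t53 (L l121 (L l483 (T t27 (L l143 (L l167 (L l469 (T t21 N)))))))))) N))))))))))))))))⟩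
def e0_63__67_101 : Ent 4 := ⟨[a0, a63], [a67, a158], (M a149 (F (T t25 (T t175 (T t176 (L l76 (T t177 (K a192 (M a53 (F (T t178 (L l236 (T t179 (L l236 (L l296 (T t180 N)))))))) (K a21 (M a48 (F (T t4 (L l121 (T t13 (L l18 (T t14 N))))))) (K a85 (M a16 (F (T t97 (L l144 (T t190 (L l94 (T t278 N))))))) (K a213 (Fr a106 a192 l519 (Fr a42 a21 l68 (Fr a170 a234 l390 (Fr a255 a85 l476 (V t582))))) (K a42 (M a48 (F (T t11 (L l121 (L l390 (T t13 (L l54 (T t14 N)))))))) (K a106 (M a48 (F (T t1 (L l498 (T t14 (L l390 (L l498 (T t6 (L l362 (L l390 (T t26 N))))))))))) (K a170 (M a48 (F (T t4 (L l462 (T t1 (L l121 (L l390 (T t13 N)))))))) (K a191 (M a16 (F (T t97 (T t190 (L l165 (L l213 (L l362 (T t191 N)))))))) (K a255 (M a16 (F (T t112 (L l266 (T t190 (L l165 (L l289 (L l296 (L l362 (T t191 N)))))))))) N))))))))))))))))⟩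
def e0_63__67_102 : Ent 4 := ⟨[a0, a63], [a67, a159], (M a48 (F (T t1 (T t2 (T t3 (L l361 (T t0 (K a16 (M a60 (F (T t64 (L l14 (L l18 (L l307 (T t67 (T t65 N)))))))) (K a32 (M a60 (F (T t64 (L l307 (T t67 (L l24 (L l28 (T t65 N)))))))) (K a21 (M a192 (F (T t28 (L l47 (L l170 (L l347 (T t20 (L l18 (T t224 N))))))))) (K a37 (M a192 (F (L l76 (T t837 (L l47 (L l170 (T t20 (L l76 (L l213 (T t202 N)))))))))) (K a53 (M a192 (F (T t28 (L l76 (L l213 (T t202 (L l47 (L l170 (L l491 (T t838 N)))))))))) (K a26 (M a192 (F (T t28 (L l170 (T t20 (L l76 (L l213 (T t202 N)))))))) (K a42 (M a192 (F (L l170 (T t20 (L l76 (T t837 (L l54 (L l390 (T t224 N))))))))) (K a58 (M a192 (F (T t28 (L l76 (L l213 (L l498 (T t202 (L l170 (T t838 N))))))))) (K a15 (M a192 (F (L l483 (T t28 (L l170 (L l325 (T t20 (L l76 (L l213 (L l469 (T t202 N))))))))))) N))))))))))))))))⟩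
def e0_63__67_103 : Ent 4 := ⟨[a0, a63], [a67, a168], (M a149 (F (T t176 (L l76 (T t5 (L l216 (T t175 (L l76 (T t177 (K a192 (M a53 (F (L l339 (T t982 (L l216 (L l236 (T t179 (L l236 (L l296 (T t180 N)))))))))) (K a21 (M a48 (F (T t4 (L l121 (L l216 (T t13 (L l18 (L l216 (T t14 N))))))))) (K a85 (M a16 (F (L l400 (T t97 (L l144 (L l400 (T t190 (L l94 (L l176 (T t278 N)))))))))) (K a213 (Fr a106 a192 l519 (Fr a42 a21 l68 (Fr a170 a234 l390 (Fr a255 a85 l476 (V t582))))) (K a42 (M a48 (F (T t187 (L l121 (L l216 (L l390 (T t13 (L l54 (L l216 (T t14 N)))))))))) (K a106 (M a48 (F (T t1 (L l216 (L l498 (T t14 (L l390 (L l498 (T t6 (L l390 (L l400 (T t26 N)))))))))))) (K a170 (M a48 (L l174 (F (T t4 (L l462 (T t1 (L l121 (L l216 (L l390 (T t13 (K a169 (M a171 (F (T t184 (L l462 (T t1 (L l121 (L l216 (L l390 (L l393 (T t13 N)))))))))) (K a171 (M a169 (F (T t3 (L l145 (L l388 (L l474 (T t1258 N))))))) N))))))))))))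 (K a191 (M a16 (F (L l400 (T t97 (L l213 (T t191 (L l213 (L l400 (T t192 N))))))))) (K a255 (M a16 (F (L l400 (T t112 (L l289 (L l296 (T t191 (L l400 (T t192 N))))))))) N))))))))))))))))))⟩
def e0_63__67_104 : Ent 4 := ⟨[a0, a63], [a67, a169], (M a48 (F (T t1 (T t2 (T t3 (T t0 (K a16 (M a60 (F (T t64 (L l14 (L l18 (L l307 (L l393 (L l477 (T t67 (T t65 N)))))))))) (K a32 (M a60 (F (T t64 (L l307 (L l393 (L l477 (T t67 (L l24 (L l28 (T t65 N)))))))))) (K a21 (M a192 (F (T t28 (L l47 (L l217 (L l347 (T t20 (L l47 (L l217 (L l347 (T t29 N))))))))))) (K a37 (M a192 (F (T t19 (L l47 (L l217 (T t20 (L l143 (L l217 (T t21 N))))))))) (K a53 (M a192 (F (T t19 (L l143 (L l217 (L l491 (T t21 (L l393 (T t31 N))))))))) (K a26 (M a192 (F (T t28 (L l217 (T t20 (L l143 (L l217 (T t21 N)))))))) (K a42 (M a192 (F (T t19 (L l217 (T t20 (L l28 (L l217 (T t29 N)))))))) (K a58 (M a192 (F (T t19 (L l143 (L l217 (T t21 (L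 l54 (L l393 (L l498 (T t31 N)))))))))) (K a15 (M a192 (F (T t36 (L l217 (L l325 (T t20 (L l143 (L l217 (L l469 (T t21 N)))))))))) N)))))))))))))))⟩
def e0_63__67_105 : Ent 4 := ⟨[a0, a63], [a67, a170], (M a48 (F (T t3 (L l462 (T t1 (L l390 (T t2 (L l390 (L l404 (T t0 (K a16 (M a60 (F (T t64 (L l14 (L l18 (L l307 (T t67 (L l390 (L l392 (T t65 N)))))))))) (K a32 (M a62 (L l404 (F (T t825 (L l307 (L l474 (T t709 (L l20 (L l402 (T t826 (K a101 (M a239 (F (T t711 (L l491 (T t825 (L l20 (L l402 (L l491 (T t826 N))))))))) (K a239 (M a101 (F (T t711 (L l220 (L l289 (T t336 N)))))) N)))))))))))) (K a21 (M a192 (F (L l18 (T t19 (L l390 (T t206 (L l47 (L l220 (L l347 (L l404 (T t29 N))))))))))) (K a37 (M a192 (F (T t19 (L l390 (T t206 (L l28 (L l47 (L l220 (L l404 (T t29 N)))))))))) (K a53 (M a12 (F (T t550 (L l47 (L l402 (T t122 (L l47 (L l402 (T t146 N))))))))) (K a26 (M a192 (F (L l18 (T t19 (L l54 (L l390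 (T t206 (L l220 (L l404 (T t29 N)))))))))) (K a42 (M a106 (F (T t309 (L l76 (L l220 (T t551 (L l28 (L l76 (L l206 (L l220 (L l404 (T t552 (L l28 (L l206 (L l404 (T t553 N)))))))))))))))) (K a58 (M a12 (F (T t445 (L l402 (T t122 (L l402 (T t146 N))))))) (K a15 (M a192 (F (L l483 (T t19 (L l325 (L l390 (T t206 (L l220 (L l404 (T t29 N)))))))))) N)))))))))))))))))))⟩
def e0_63__67_106 : Ent 4 := ⟨[a0, a63], [a67, a171], (M a48 (F (T t1 (T t2 (T t3 (T t0 (K a16 (M a60 (F (T t64 (L l14 (L l18 (L l307 (L l391 (L l475 (T t67 (T t65 N)))))))))) (K a32 (M a60 (F (T t64 (L l307 (L l391 (L l475 (T t67 (L l24 (L l28 (T t65 N)))))))))) (K a21 (M a192 (F (T t28 (L l47 (L l347 (T t20 (L l47 (L l347 (T t29 N))))))))) (K a37 (M a192 (F (T t19 (L l47 (T t20 (L l143 (L l475 (T t21 N)))))))) (K a53 (M a192 (F (T t19 (L l143 (L l475 (L l491 (T t21 (T t31 N)))))))) (K a26 (M a192 (F (T t28 (T t20 (L l143 (L l475 (T t21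 N))))))) (K a42 (M a192 (F (T t19 (T t20 (L l28 (T t29 N)))))) (K a58 (M a192 (F (T t19 (L l143 (L l475 (T t21 (L l54 (L l498 (T t31 N))))))))) (K a15 (M a192 (F (T t57 (L l121 (L l483 (T t27 (L l325 (T t20 N)))))))) N)))))))))))))))⟩
def e0_63__67_107 : Ent 4 := ⟨[a0, a63], [a67, a172], (M a149 (F (T t25 (T t175 (T t176 (L l76 (T t177 (K a192 (M a53 (F (T t178 (L l236 (T t179 (L l236 (L l296 (T t180 N)))))))) (K a21 (M a48 (F (T t4 (L l121 (T t13 (L l18 (T t14 N))))))) (K a85 (M a16 (F (T t97 (L l144 (T t190 (L l94 (L l176 (T t278 N)))))))) (K a213 (Fr a106 a192 l519 (Fr a42 a21 l68 (Fr a170 a234 l390 (Fr a255 a85 l476 (V t582))))) (K a42 (M a48 (F (T t187 (L l121 (L l390 (T t13 (L l54 (T t14 N)))))))) (K a106 (M a48 (F (T t1 (L l498 (T t14 (L l390 (L l498 (T t6 (L l390 (T t26 N)))))))))) (K a170 (M a48 (F (T t4 (L l462 (T t1 (L l121 (L l390 (T t13 N)))))))) (K a191 (M a16 (F (T t97 (T t190 (L l213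 (T t191 N)))))) (K a255 (M a16 (F (T t112 (L l266 (T t190 (L l289 (L l296 (T t191 N)))))))) N))))))))))))))))⟩
def e0_63__67_108 : Ent 4 := ⟨[a0, a63], [a67, a173], (M a149 (F (T t25 (T t175 (T t176 (L l76 (T t177 (K a192 (M a53 (F (T t178 (L l236 (T t179 (L l236 (L l296 (T t180 N)))))))) (K a21 (M a48 (F (T t4 (L l121 (T t13 (L l18 (T t14 N))))))) (K a85 (M a16 (F (T t504 (L l144 (T t190 (L l94 (T t278 N))))))) (K a213 (Fr a106 a192 l519 (Fr a42 a21 l68 (Fr a170 a234 l390 (Fr a255 a85 l476 (V t582))))) (K a42 (M a48 (F (T t187 (L l121 (L l390 (T t13 (L l54 (T t14 N)))))))) (K a106 (M a48 (F (T t48 (L l498 (T t14 (L l390 (L l498 (T t6 (L l390 (T t26 N)))))))))) (K a170 (M a48 (F (T t4 (L l462 (L l471 (T t1 (L l121 (L l390 (T t13 N))))))))) (K a191 (M a16 (F (T t112 (T t190 (L l213 (T t191 N)))))) (K a255 (M a16 (F (T t112 (L l266 (T t190 (L l289 (L l296 (T t191 N)))))))) N))))))))))))))))⟩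
def e0_63__67_109 : Ent 4 := ⟨[a0, a63], [a67, a174], (M a48 (F (T t1 (T t2 (T t3 (T t0 (K a16 (M a60 (F (T t64 (L l14 (L l18 (L l307 (T t67 (T t65 N)))))))) (K a32 (M a60 (F (T t64 (L l307 (T t67 (L l24 (L l28 (T t65 N)))))))) (K a21 (M a192 (F (T t28 (L l47 (L l347 (T t20 (L l47 (L l347 (T t29 N))))))))) (K a37 (M a192 (F (T t19 (L l47 (T t20 (L l143 (L l470 (T t21 N)))))))) (K a53 (M a192 (F (T t19 (L l143 (L l470 (L l491 (T t21 (T t31 N)))))))) (K a26 (M a192 (F (T t28 (T t20 (L l143 (L l470 (T t21 N))))))) (K a42 (M a192 (F (T t19 (T t20 (L l28 (T t29 N)))))) (K a58 (M a192 (F (T t19 (L l143 (L l470 (T t21 (L l54 (L l498 (T t31 N))))))))) (K a15 (M a192 (F (T t57 (L l121 (L l483 (T t27 (L l325 (T t20 N)))))))) N)))))))))))))))⟩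
def e0_63__67_110 : Ent 4 := ⟨[a0, a63], [a67, a175], (M a12 (F (T t122 (T t151 (T t152 (T t153 (K a4 (M a60 (F (T t570 (L l46 (L l50 (L l307 (T t67 (T t448 N)))))))) (K a8 (M a60 (F (T t570 (L l307 (T t67 (L l52 (L l56 (T t448 N)))))))) (K a21 (M a192 (F (T t468 (L l15 (L l347 (T t450 (L l15 (L l347 (T t157 N))))))))) (K a25 (M a192 (F (T t449 (L l15 (T t450 (L l143 (L l469 (T t21 N)))))))) (K a29 (M a192 (F (T t449 (L l143 (L l371 (L l469 (T t21 (T t160 N)))))))) (K a38 (M a192 (F (T t468 (T t450 (L l143 (L l469 (T t21 N))))))) (K a42 (M a192 (F (T t449 (T t450 (L l56 (T t157 N)))))) (K a46 (M a192 (F (T t449 (L l143 (L l469 (T t21 (L l26 (L l408 (T t160 N))))))))) (K a51 (M a192 (F (T t57 (L l85 (L l513 (T t156 (L l415 (T t450 N)))))))) N)))))))))))))))⟩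
def e0_63__67_111 : Ent 4 := ⟨[a0, a63], [a67, a188], (M a48 (F (T t1 (T t2 (T t3 (T t0 (K a16 (M a60 (F (T t64 (L l14 (L l18 (L l307 (T t67 (T t65 N)))))))) (K a32 (M a60 (F (T t64 (L l307 (T t67 (L l24 (L l28 (T t65 N)))))))) (K a21 (M a192 (F (T t28 (L l47 (L l347 (T t20 (L l47 (L l347 (T t29 N))))))))) (K a37 (M a192 (F (T t19 (L l47 (T t20 (L l143 (L l216 (T t21 N)))))))) (K a53 (M a192 (F (T t19 (L l143 (L l216 (L l491 (T t21 (T t31 N)))))))) (K a26 (M a192 (F (T t28 (T t20 (L l143 (L l216 (T t21 N))))))) (K a42 (M a192 (F (T t19 (T t20 (L l28 (T t29 N)))))) (K a58 (M a192 (F (T t19 (L l143 (L l216 (T t21 (L l54 (L l498 (T t31 N))))))))) (K a15 (M a192 (F (T t54 (L l121 (L l216 (L l483 (T t27 (L l143 (L l216 (L l469 (T t21 N))))))))))) N)))))))))))))))⟩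
def e0_63__67_112 : Ent 4 := ⟨[a0, a63], [a67, a189], (M a48 (F (T t1 (T t2 (T t3 (T t0 (K a16 (M a60 (F (T t42 (L l14 (L l18 (L l307 (T t67 (T t65 N)))))))) (K a32 (M a60 (F (T t42 (L l307 (T t67 (L l24 (L l28 (T t65 N)))))))) (K a21 (M a192 (F (T t28 (L l47 (L l217 (L l347 (T t20 (L l47 (L l217 (L l347 (T t29 N))))))))))) (K a37 (M a192 (F (T t19 (L l47 (L l217 (T t20 (L l143 (L l217 (T t21 N))))))))) (K a53 (M a192 (F (T t19 (L l143 (L l217 (L l491 (T t21 (T t31 N)))))))) (K a26 (M a192 (F (T t22 (L l121 (T t27 (L l143 (L l217 (T t21 N)))))))) (K a42 (M a192 (F (T t19 (L l217 (T t20 (L l28 (L l217 (T t29 N)))))))) (K a58 (M a192 (F (T t19 (L l143 (L l217 (T t21 (L l54 (L l498 (T t31 N))))))))) (K a15 (M a192 (F (T t54 (L l121 (L l483 (T t27 (L l143 (L l217 (L l469 (T t21 N)))))))))) N)))))))))))))))⟩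
def e0_63__67_113 : Ent 4 := ⟨[a0, a63], [a67, a190], (M a48 (F (T t1 (T t2 (T t3 (T t0 (K a16 (M a60 (F (T t64 (L l14 (L l18 (L l307 (T t67 (T t65 N)))))))) (K a32 (M a60 (F (T t64 (L l307 (T t67 (L l24 (L l28 (T t65 N)))))))) (K a21 (M a192 (F (T t28 (L l47 (L l347 (T t20 (L l47 (L l347 (T t29 N))))))))) (K a37 (M a192 (F (T t19 (L l47 (T t20 (L l143 (L l434 (T t21 N)))))))) (K a53 (M a192 (F (T t19 (L l143 (L l434 (L l491 (T t21 (T t31 N)))))))) (K a26 (M a192 (F (T t28 (T t20 (L l143 (L l434 (T t21 N))))))) (K a42 (M a192 (F (T t19 (T t20 (L l28 (T t29 N)))))) (K a58 (M a192 (F (T t19 (L l143 (L l434 (T t21 (L l54 (L l498 (T t31 N))))))))) (K a15 (M a192 (F (T t57 (L l121 (L l483 (T t27 (L l325 (T t20 N)))))))) N)))))))))))))))⟩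
def e0_63__67_114 : Ent 4 := ⟨[a0, a63], [a67, a191], (M a48 (F (T t1 (T t2 (T t3 (T t0 (K a16 (M a60 (F (T t64 (L l14 (L l18 (L l307 (T t67 (T t65 N)))))))) (K a32 (M a60 (F (T t64 (L l307 (T t67 (L l24 (L l28 (T t65 N)))))))) (K a21 (M a192 (F (T t28 (T t206 (L l47 (L l220 (L l347 (T t29 N)))))))) (K a37 (M a192 (F (T t19 (T t206 (L l47 (L l220 (T t35 N))))))) (K a53 (M a192 (F (T t19 (L l47 (L l220 (L l491 (T t35 (L l213 (T t31 N))))))))) (K a26 (M a192 (F (T t28 (L l54 (T t206 (L l18 (L l220 (T t35 N)))))))) (K a42 (M a192 (F (T t19 (L l54 (L l390 (T t206 (L l28 (L l220 (T t29 N))))))))) (K a58 (M a192 (F (T t19 (L l220 (T t35 (L l54 (L l213 (L l498 (T t31 N))))))))) (K a15 (M a192 (F (T t53 (L l483 (T t19 (L l220 (L l469 (T t35 N)))))))) N)))))))))))))))⟩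
def e0_63__67_115 : Ent 4 := ⟨[a0, a63], [a67, a192], (M a48 (F (T t48 (L l339 (T t1 (L l339 (T t2 (L l339 (T t3 (L l339 (T t0 (K a16 (M a60 (F (T t138 (L l14 (L l18 (L l307 (L l309 (T t67 (T t65 N))))))))) (K a32 (M a60 (F (T t116 (L l489 (T t64 (L l24 (L l28 (T t65 N)))))))) (K a21 (M a255 (F (T t1259 (L l268 (T t1160 (L l47 (L l236 (T t548 N)))))))) (K a37 (M a52 (F (T t555 (L l334 (T t82 (L l21 (L l28 (T t84 N)))))))) (K a53 (M a12 (F (T t145 (L l47 (L l489 (T t122 (L l47 (T t146 N)))))))) (K a26 (M a56 (F (T t556 (L l334 (T t133 (L l12 (L l18 (T t135 N)))))))) (K a42 (M a255 (F (T t1260 (L l54 (L l268 (T t1160 (L l28 (L l236 (L l390 (T t548 N)))))))))) (K a58 (M a12 (F (T t145 (L l489 (T t122 (T t146 N)))))) (K a15 (M a4 (L l339 (F (T t129 (L l63 (L l514 (T t528 (T t520 (K a133 (M a74 (F (T t558 (L l73 (L l489 (T t519 (T t520 N))))))) (K a74 (M a133 (F (T t558 (L l73 (L l489 (T t519 (T t520 N)))))))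 N)))))))))) N))))))))))))))))))))⟩
def e0_63__67_116 : Ent 4 := ⟨[a0, a63], [a67, a193], (M a48 (F (T t1 (T t2 (T t3 (T t0 (K a16 (M a60 (F (T t42 (L l14 (L l18 (L l307 (T t67 (T t65 N)))))))) (K a32 (M a60 (F (T t42 (L l307 (T t67 (L l24 (L l28 (T t65 N)))))))) (K a21 (M a192 (F (T t28 (L l47 (L l347 (L l515 (T t20 (L l47 (L l347 (L l515 (T t29 N))))))))))) (K a37 (M a192 (F (T t19 (L l47 (L l515 (T t20 (L l143 (L l515 (T t21 N))))))))) (K a53 (M a192 (F (T t19 (L l143 (L l491 (L l515 (T t21 (L l293 (T t31 N))))))))) (K a26 (M a192 (F (T t22 (L l121 (T t27 (L l143 (L l515 (T t21 N)))))))) (K a42 (M a192 (F (T t19 (L l515 (T t20 (L l28 (L l515 (T t29 N)))))))) (K a58 (M a192 (F (T t19 (L l143 (L l515 (T t21 (L l54 (L l293 (L l498 (T t31 N)))))))))) (K a15 (M a192 (F (T t54 (L l121 (L l483 (T t27 (L l143 (L l469 (L l515 (T t21 N)))))))))) N)))))))))))))))⟩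
def e0_63__67_117 : Ent 4 := ⟨[a0, a63], [a67, a194], (M a48 (F (T t1 (T t2 (T t3 (T t0 (K a16 (M a60 (F (T t42 (L l14 (L l18 (L l307 (T t67 (T t65 N)))))))) (K a32 (M a60 (F (T t42 (L l307 (T t67 (L l24 (L l28 (T t65 N)))))))) (K a21 (M a192 (F (T t28 (L l47 (L l234 (L l347 (T t20 (L l47 (L l234 (L l347 (T t29 N))))))))))) (K a37 (M a192 (F (T t19 (L l47 (L l234 (T t20 (L l143 (T t21 N)))))))) (K a53 (M a192 (F (T t19 (L l143 (L l491 (T t21 (L l516 (T t31 N)))))))) (K a26 (M a192 (F (T t28 (L l234 (T t20 (L l143 (T t21 N))))))) (K a42 (M a192 (F (T t19 (L l234 (T t20 (L l28 (L l234 (T t29 N)))))))) (K a58 (M a192 (F (T t19 (L l143 (T t21 (L l54 (L l498 (L l516 (T t31 N))))))))) (K a15 (M a192 (F (T t33 (L l121 (L l483 (T t27 (L l143 (L l469 (T t21 N))))))))) N)))))))))))))))⟩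
def e0_63__67_118 : Ent 4 := ⟨[a0, a63], [a67, a195], (M a3 (F (T t85 (L l518 (T t137 (L l518 (T t353 (L l518 (T t665 (L l518 (T t358 (K a60 (M a86 (L l518 (F (T t1261 (L l76 (L l228 (L l514 (T t1262 (T t1229 (K a105 (M a150 (F (T t1229 (L l297 (L l430 (L l515 (T t1263 (L l295 (L l389 (L l434 (T t1264 N))))))))))) (K a150 (M a105 (F (T t1229 (L l297 (L l430 (T t1227 (L l221 (L l295 (L l434 (T t1264 N)))))))))) N))))))))))) (K a1 (M a149 (F (T t25 (L l297 (T t1049 (L l143 (T t616 N))))))) (K a21 (M a169 (F (T t1247 (L l297 (T t1246 (L l11 (L l76 (T t1248 N)))))))) (K a41 (M a48 (F (T t136 (L l22 (L l337 (T t2 (L l25 (L l65 (T t847 N))))))))) (K a2 (M a149 (F (T t1265 (L l228 (T t175 (L l66 (L l143 (T t616 N)))))))) (K a22 (M a48 (F (T t797 (L l11 (L l337 (T t1 (L l16 (L l66 (T t345 N))))))))) (K a42 (M a169 (F (T t1266 (L l66 (L l297 (T t1251 (L l66 (L l76 (T t1248 N))))))))) (K a23 (M a48 (F (T t132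 (L l487 (T t86 (L l11 (T t847 N))))))) (K a43 (M a48 (F (T t48 (L l487 (T t86 (T t847 N)))))) N))))))))))))))))))))⟩
def e0_63__67_119 : Ent 4 := ⟨[a0, a63], [a67, a196], (M a48 (F (T t1 (T t2 (T t3 (T t0 (K a16 (M a60 (F (T t64 (L l14 (L l18 (L l307 (T t67 (T t65 N)))))))) (K a32 (M a60 (F (T t64 (L l307 (T t67 (L l24 (L l28 (T t65 N)))))))) (K a21 (M a192 (F (T t28 (L l47 (L l347 (L l495 (T t20 (L l47 (L l347 (L l495 (T t29 N))))))))))) (K a37 (M a192 (F (T t19 (L l47 (L l495 (T t20 (L l143 (L l495 (T t21 N))))))))) (K a53 (M a192 (F (T t19 (L l143 (L l491 (L l495 (T t21 (L l278 (T t31 N))))))))) (K a26 (M a192 (F (T t22 (L l121 (T t27 (L l143 (L l495 (T t21 N)))))))) (K a42 (M a192 (F (T t19 (L l495 (T t20 (L l28 (L l495 (T t29 N)))))))) (K a58 (M a192 (F (T t19 (L l143 (L l495 (T t21 (L l54 (L l278 (L l498 (T t31 N)))))))))) (K a15 (M a192 (F (T t54 (L l121 (L l483 (T t27 (L l143 (L l469 (L l495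 (T t21 N)))))))))) N)))))))))))))))⟩
def e0_63__67_120 : Ent 4 := ⟨[a0, a63], [a67, a197], (M a48 (F (T t3 (L l491 (T t1 (L l311 (T t2 (T t0 (K a16 (M a60 (F (T t70 (L l14 (L l18 (L l307 (T t67 (L l311 (T t65 N))))))))) (K a32 (M a60 (F (T t70 (L l307 (T t67 (L l24 (L l28 (L l311 (T t65 N))))))))) (K a21 (M a192 (F (T t28 (L l347 (L l491 (T t225 (L l143 (L l347 (L l491 (T t861 N)))))))))) (K a37 (M a192 (F (T t19 (L l491 (T t225 (L l143 (L l491 (T t21 N)))))))) (K a53 (M a149 (F (L l275 (T t25 (L l121 (T t13 (L l275 (T t26 N)))))))) (K a26 (M a192 (F (T t28 (L l491 (T t225 (L l143 (L l491 (T t21 N)))))))) (K a42 (M a192 (F (T t19 (L l491 (T t225 (L l28 (L l143 (L l491 (T t861 N))))))))) (K a58 (M a192 (F (T t19 (L l143 (L l491 (T t21 (L l54 (L l275 (L l498 (T t31 N)))))))))) (K a15 (M a192 (F (T t36 (L l325 (L l491 (T t225 (L l143 (L l469 (L l491 (T t21 N)))))))))) N)))))))))))))))))⟩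
def e0_63__67_121 : Ent 4 := ⟨[a0, a63], [a67, a198], (M a149 (F (T t25 (T t175 (T t176 (L l76 (T t177 (K a192 (M a53 (F (T t178 (L l229 (L l236 (T t179 (L l229 (L l236 (L l296 (T t180 N)))))))))) (K a21 (M a48 (F (T t7 (L l18 (L l229 (T t14 (L l121 (T t13 N)))))))) (K a85 (M a16 (F (T t97 (L l144 (T t190 (L l94 (T t278 N))))))) (K a213 (Fr a106 a192 l519 (Fr a42 a21 l68 (Fr a170 a234 l390 (Fr a255 a85 l476 (V t582))))) (K a42 (M a48 (F (L l234 (T t187 (L l121 (L l390 (T t13 (L l54 (L l229 (T t14 N)))))))))) (K a106 (M a48 (F (T t1 (L l229 (L l498 (T t14 (L l229 (L l390 (L l498 (T t6 (L l390 (T t26 N)))))))))))) (K a170 (M a48 (F (T t3 (L l234 (T t11 (L l121 (L l390 (T t13 N)))))))) (K a191 (M a16 (F (T t97 (T t190 (L l213 (T t191 N)))))) (K a255 (M a16 (F (T t112 (L l266 (T t190 (L l289 (L l296 (T t191 N)))))))) N))))))))))))))))⟩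
def e0_63__67_122 : Ent 4 := ⟨[a0, a63], [a67, a199], (M a149 (F (T t25 (T t175 (T t176 (L l76 (T t177 (K a192 (M a53 (F (T t178 (L l229 (L l236 (T t179 (L l229 (L l236 (L l296 (L l314 (T t180 N))))))))))) (K a21 (M a48 (F (T t1267 (L l18 (L l229 (T t14 (L l121 (T t13 N)))))))) (K a85 (M a16 (F (T t97 (L l144 (T t190 (L l94 (T t278 N))))))) (K a213 (Fr a106 a192 l519 (Fr a42 a21 l68 (Fr a170 a234 l390 (Fr a255 a85 l476 (V t582))))) (K a42 (M a48 (F (T t11 (L l121 (L l390 (T t13 (L l54 (L l229 (T t14 N))))))))) (K a106 (M a48 (F (T t1 (L l229 (L l498 (T t14 (L l229 (L l390 (L l498 (T t6 (L l390 (T t26 N)))))))))))) (K a170 (M a48 (F (T t11 (L l462 (T t1 (L l121 (L l390 (T t13 N)))))))) (K a191 (M a16 (F (T t97 (T t190 (L l213 (T t191 N)))))) (K a255 (M a16 (F (T t112 (L l266 (T t190 (L l289 (L l296 (T t191 N)))))))) N))))))))))))))))⟩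
def e0_63__67_123 : Ent 4 := ⟨[a0, a63], [a67, a200], (M a48 (F (T t1 (T t2 (T t3 (T t0 (K a16 (M a60 (F (T t64 (L l14 (L l18 (L l307 (T t67 (T t65 N)))))))) (K a32 (M a60 (F (T t64 (L l307 (T t67 (L l24 (L l28 (T t65 N)))))))) (K a21 (M a192 (F (T t28 (L l47 (L l230 (L l347 (T t20 (L l47 (L l230 (L l347 (T t29 N))))))))))) (K a37 (M a192 (F (T t19 (L l47 (L l230 (T t20 (L l143 (T t21 N)))))))) (K a53 (M a192 (F (T t19 (L l143 (L l491 (T t21 (L l501 (T t31 N)))))))) (K a26 (M a192 (F (T t28 (L l230 (T t20 (L l143 (T t21 N))))))) (K a42 (M a192 (F (T t19 (L l230 (T t20 (L l28 (L l230 (T t29 N)))))))) (K a58 (M a192 (F (T t19 (L l143 (T t21 (L l54 (L l498 (L l501 (T t31 N))))))))) (K a15 (M a192 (F (T t33 (L l121 (L l483 (T t27 (L l143 (L l469 (T t21 N))))))))) N)))))))))))))))⟩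
def e0_63__67_124 : Ent 4 := ⟨[a0, a63], [a67, a201], (M a149 (F (T t25 (T t175 (T t176 (L l76 (T t177 (K a192 (M a53 (F (T t178 (L l233 (L l236 (T t179 (L l233 (L l236 (L l296 (T t180 N)))))))))) (K a21 (M a48 (F (T t7 (L l18 (L l233 (T t14 (L l121 (T t13 N)))))))) (K a85 (M a16 (F (T t97 (L l144 (T t190 (L l94 (T t278 N))))))) (K a213 (Fr a106 a192 l519 (Fr a42 a21 l68 (Fr a170 a234 l390 (Fr a255 a85 l476 (V t582))))) (K a42 (M a48 (F (L l230 (T t187 (L l121 (L l390 (T t13 (L l54 (L l233 (T t14 N)))))))))) (K a106 (M a48 (F (T t1 (L l233 (L l498 (T t14 (L l233 (L l390 (L l498 (T t6 (L l390 (T t26 N)))))))))))) (K a170 (M a48 (F (T t3 (L l230 (T t11 (L l121 (L l390 (T t13 N)))))))) (K a191 (M a16 (F (T t97 (T t190 (L l213 (T t191 N)))))) (K a255 (M a16 (F (T t112 (L l266 (T t190 (L l289 (L l296 (T t191 N)))))))) N))))))))))))))))⟩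
def e0_63__67_125 : Ent 4 := ⟨[a0, a63], [a67, a202], (M a48 (F (T t3 (L l318 (T t1 (L l498 (T t2 (T t0 (K a16 (M a60 (F (T t64 (L l14 (L l18 (L l307 (T t67 (L l498 (T t65 N))))))))) (K a32 (M a60 (F (T t64 (L l307 (T t67 (L l24 (L l28 (L l498 (T t65 N))))))))) (K a21 (M a192 (F (T t28 (L l498 (T t22 (L l18 (L l76 (L l498 (T t46 N))))))))) (K a37 (M a192 (F (T t19 (L l498 (T t22 (L l143 (T t21 N))))))) (K a53 (M a192 (F (T t19 (L l143 (L l491 (T t21 (L l498 (T t31 N)))))))) (K a26 (M a192 (F (T t28 (L l498 (T t22 (L l143 (T t21 N))))))) (K a42 (M a192 (F (T t19 (L l390 (L l498 (T t22 (L l76 (L l390 (L l498 (T t46 N)))))))))) (K a58 (M a106 (F (L l282 (T t393 (L l76 (T t551 (L l282 (T t599 N)))))))) (K a15 (M a192 (F (T t36 (L l325 (L l498 (T t22 (L l143 (L l469 (T t21 N))))))))) N)))))))))))))))))⟩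
def e0_63__67_126 : Ent 4 := ⟨[a0, a63], [a67, a203], (M a149 (F (T t25 (T t175 (T t176 (L l76 (T t177 (K a192 (M a53 (F (T t178 (L l236 (T t179 (L l236 (L l296 (T t180 N)))))))) (K a21 (M a48 (F (T t4 (L l121 (T t13 (L l18 (T t14 N))))))) (K a85 (M a16 (F (T t97 (L l144 (T t190 (L l94 (T t278 N))))))) (K a213 (Fr a106 a192 l519 (Fr a42 a21 l68 (Fr a170 a234 l390 (Fr a255 a85 l476 (V t582))))) (K a42 (M a48 (F (L l54 (T t4 (L l121 (L l390 (T t13 (L l54 (T t14 N))))))))) (K a106 (M a48 (F (T t1 (L l498 (T t14 (L l390 (L l498 (T t6 (L l390 (T t26 N)))))))))) (K a170 (M a48 (F (T t4 (L l462 (T t1 (L l121 (L l390 (T t13 N)))))))) (K a191 (M a16 (F (T t97 (T t190 (L l213 (T t191 N)))))) (K a255 (M a16 (F (T t112 (L l266 (T t190 (L l289 (L l296 (T t191 N)))))))) N))))))))))))))))⟩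
def e0_63__67_127 : Ent 4 := ⟨[a0, a63], [a67, a204], (M a48 (F (T t48 (L l327 (T t1 (L l327 (T t2 (L l327 (T t3 (L l327 (T t0 (K a16 (M a60 (F (T t138 (L l14 (L l18 (L l307 (L l333 (T t67 (T t65 N))))))))) (K a32 (M a60 (F (T t116 (L l513 (T t64 (L l24 (L l28 (T t65 N)))))))) (K a21 (M a192 (F (T t54 (L l121 (L l298 (T t27 (L l47 (L l347 (T t29 N))))))))) (K a37 (M a192 (F (T t54 (L l121 (L l298 (T t27 (L l143 (L l290 (T t21 N))))))))) (K a53 (M a192 (F (T t36 (L l143 (L l290 (L l491 (T t21 (T t31 N)))))))) (K a26 (M a192 (F (T t56 (L l121 (L l298 (T t27 (L l143 (L l290 (T t21 N))))))))) (K a42 (M a192 (F (T t56 (L l121 (L l298 (T t27 (L l28 (T t29 N)))))))) (K a58 (M a192 (F (T t57 (L l121 (L l298 (T t27 (L l54 (L l498 (T t31 N))))))))) (K a15 (M a192 (L l327 (F (T t57 (L l121 (L l298 (L l483 (T t27 (L l231 (L l325 (T t20 (K a141 (M a78 (F (T t57 (L l231 (L l325 (T t22 (L l298 (L l483 (T t28 N)))))))))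 (K a78 (M a141 (F (T t57 (L l231 (L l325 (T t22 (L l298 (L l483 (T t28 N))))))))) N))))))))))))) N))))))))))))))))))))⟩
def e0_63__67_128 : Ent 4 := ⟨[a0, a63], [a67, a205], (M a149 (F (T t25 (T t175 (T t176 (L l76 (T t177 (K a192 (M a53 (F (T t178 (L l233 (L l236 (T t179 (L l233 (L l236 (L l296 (L l329 (T t180 N))))))))))) (K a21 (M a48 (F (T t1267 (L l18 (L l233 (T t14 (L l121 (T t13 N)))))))) (K a85 (M a16 (F (T t97 (L l144 (T t190 (L l94 (T t278 N))))))) (K a213 (Fr a106 a192 l519 (Fr a42 a21 l68 (Fr a170 a234 l390 (Fr a255 a85 l476 (V t582))))) (K a42 (M a48 (F (T t11 (L l121 (L l390 (T t13 (L l54 (L l233 (T t14 N))))))))) (K a106 (M a48 (F (T t1 (L l233 (L l498 (T t14 (L l233 (L l390 (L l498 (T t6 (L l390 (T t26 N)))))))))))) (K a170 (M a48 (F (T t11 (L l462 (T t1 (L l121 (L l390 (T t13 N)))))))) (K a191 (M a252 (F (T t940 (L l287 (T t941 N))))) (K a255 (M a16 (F (T t112 (L l266 (T t190 (L l289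 (L l296 (T t191 N)))))))) N))))))))))))))))⟩
def e0_63__67_129 : Ent 4 := ⟨[a0, a63], [a67, a206], (M a149 (F (T t25 (T t175 (T t176 (L l76 (T t177 (K a192 (M a53 (F (T t178 (L l236 (T t179 (L l236 (L l296 (T t180 N)))))))) (K a21 (M a48 (F (T t4 (L l121 (T t13 (L l18 (T t14 N))))))) (K a85 (M a16 (F (T t97 (L l144 (T t190 (L l94 (T t278 N))))))) (K a213 (Fr a106 a192 l519 (Fr a42 a21 l68 (Fr a170 a234 l390 (Fr a255 a85 l476 (V t582))))) (K a42 (M a48 (F (L l54 (T t4 (L l121 (L l390 (T t13 (L l54 (T t14 N))))))))) (K a106 (M a48 (F (T t1 (L l498 (T t14 (L l390 (L l498 (T t6 (L l390 (T t26 N)))))))))) (K a170 (M a48 (F (T t4 (L l462 (T t1 (L l121 (L l390 (T t13 N)))))))) (K a191 (M a204 (F (T t1043 (L l504 (T t1112 N))))) (K a255 (M a16 (F (T t112 (L l266 (T t190 (L l289 (L l296 (T t191 N)))))))) N))))))))))))))))⟩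
def e0_63__67_130 : Ent 4 := ⟨[a0, a63], [a67, a207], (M a12 (F (T t150 (L l511 (T t122 (L l511 (T t151 (L l511 (T t152 (L l511 (T t153 (K a4 (M a60 (F (T t570 (L l46 (L l50 (L l307 (L l331 (T t67 (T t448 N))))))))) (K a8 (M a60 (F (T t116 (L l325 (T t398 (L l52 (L l56 (T t448 N)))))))) (K a21 (M a192 (F (T t158 (L l85 (L l231 (T t156 (L l15 (L l347 (T t157 N))))))))) (K a25 (M a192 (F (T t158 (L l85 (L l231 (T t156 (L l143 (L l289 (T t21 N))))))))) (K a29 (M a192 (F (T t496 (L l143 (L l289 (L l371 (T t21 (T t160 N)))))))) (K a38 (M a192 (F (T t161 (L l85 (L l231 (T t156 (L l143 (L l289 (T t21 N))))))))) (K a42 (M a192 (F (T t161 (L l85 (L l231 (T t156 (L l56 (T t157 N)))))))) (K a46 (M a192 (F (T t57 (L l85 (L l231 (T t156 (L l26 (L l408 (T t160 N))))))))) (K a51 (M a192 (L l511 (F (T t57 (L l85 (L l231 (L l513 (T t156 (L l301 (L l415 (T t450 (K a103 (M a155 (F (T t57 (L l301 (L l415 (T t543 (L l231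 (L l513 (T t468 N))))))))) (K a155 (M a103 (F (T t57 (L l301 (L l415 (T t543 (L l231 (L l513 (T t468 N))))))))) N))))))))))))) N))))))))))))))))))))⟩
def e0_63__67_131 : Ent 4 := ⟨[a0, a63], [a67, a212], (M a48 (F (T t1 (T t2 (T t3 (T t0 (K a16 (M a60 (F (T t64 (L l14 (L l18 (L l307 (L l346 (T t67 (L l351 (T t65 N)))))))))) (K a32 (M a60 (F (T t64 (L l307 (L l346 (T t67 (L l24 (L l28 (L l351 (T t65 N)))))))))) (K a21 (M a192 (F (T t206 (L l121 (T t27 (L l47 (L l347 (L l351 (T t29 N))))))))) (K a37 (M a192 (F (T t19 (L l47 (L l351 (T t20 (L l143 (L l351 (T t21 N))))))))) (K a53 (M a192 (F (T t19 (L l143 (L l351 (L l491 (T t21 (L l239 (T t31 N))))))))) (K a26 (M a192 (F (T t22 (L l121 (T t27 (L l143 (L l351 (T t21 N)))))))) (K a42 (M a192 (F (T t19 (L l351 (T t20 (L l28 (L l351 (T t29 N)))))))) (K a58 (M a192 (F (T t19 (L l143 (L l351 (T t21 (L l54 (L l239 (L l498 (T t31 N)))))))))) (K a15 (M a192 (F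 (T t54 (L l121 (L l483 (T t27 (L l143 (L l351 (L l469 (T t21 N)))))))))) N)))))))))))))))⟩
def e0_63__67_132 : Ent 4 := ⟨[a0, a63], [a67, a213], (M a48 (F (T t2 (L l347 (T t1 (L l347 (T t3 (T t0 (K a16 (M a60 (F (T t64 (L l14 (L l18 (L l307 (L l347 (T t67 (T t65 N))))))))) (K a32 (M a60 (F (T t64 (L l307 (L l347 (T t67 (L l24 (L l28 (T t65 N))))))))) (K a21 (M a85 (F (T t873 (L l47 (L l143 (L l246 (T t100 (L l143 (T t50 N))))))))) (K a37 (M a192 (F (T t19 (L l47 (L l347 (T t20 (L l143 (L l347 (T t21 N))))))))) (K a53 (M a192 (F (T t19 (L l143 (L l347 (L l491 (T t21 (L l347 (L l491 (T t575 N)))))))))) (K a26 (M a192 (F (T t22 (L l121 (T t27 (L l143 (L l347 (T t21 N)))))))) (K a42 (M a192 (F (T t19 (L l347 (T t20 (L l28 (L l246 (L l347 (T t29 N))))))))) (K a58 (M a192 (F (T t19 (L l143 (L l347 (T t21 (L l347 (T t575 N)))))))) (K a15 (M a192 (F (T t54 (L l121 (L l483 (T t27 (L l143 (L l347 (L l469 (T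 t21 N)))))))))) N)))))))))))))))))⟩
def e0_63__67_133 : Ent 4 := ⟨[a0, a63], [a67, a214], (M a149 (F (L l239 (T t25 (L l294 (T t175 (L l239 (T t176 (L l76 (T t177 (K a192 (M a53 (F (T t178 (L l236 (T t179 (L l236 (L l239 (L l296 (T t180 N))))))))) (K a21 (M a48 (F (T t4 (L l121 (T t13 (L l18 (T t14 N))))))) (K a85 (M a16 (F (T t97 (L l144 (T t190 (L l94 (T t278 N))))))) (K a213 (Fr a106 a192 l519 (Fr a42 a21 l68 (Fr a170 a234 l390 (Fr a255 a85 l476 (V t582))))) (K a42 (M a48 (F (T t187 (L l121 (L l390 (T t13 (L l54 (T t14 N)))))))) (K a106 (M a48 (F (T t1 (L l498 (T t14 (L l239 (L l390 (L l498 (T t6 (L l239 (L l390 (T t26 N)))))))))))) (K a170 (M a48 (F (T t4 (L l462 (T t1 (L l121 (L l390 (T t13 N)))))))) (K a191 (M a16 (F (T t97 (T t190 (L l213 (L l239 (T t191 N))))))) (K a255 (M a16 (F (T t112 (L l266 (T t190 (L l239 (L l289 (L l296 (T t191 N))))))))) N)))))))))))))))))))⟩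
def e0_63__67_134 : Ent 4 := ⟨[a0, a63], [a67, a215], (M a149 (F (T t175 (L l76 (L l239 (T t5 (L l239 (L l295 (T t176 (L l76 (L l295 (T t177 (K a192 (M a53 (F (T t178 (L l236 (T t179 (L l236 (L l239 (L l296 (T t180 N))))))))) (K a21 (M a48 (F (T t4 (L l121 (T t13 (L l18 (T t14 N))))))) (K a85 (M a20 (F (L l349 (T t1268 (L l144 (L l239 (T t1269 (L l87 (L l145 (T t1270 N)))))))))) (K a213 (Fr a106 a192 l519 (Fr a42 a21 l68 (Fr a170 a234 l390 (Fr a255 a85 l476 (V t582))))) (K a42 (M a48 (F (T t187 (L l121 (L l390 (T t13 (L l54 (T t14 N)))))))) (K a106 (M a48 (F (T t1 (L l498 (T t14 (L l239 (L l390 (L l498 (T t6 (L l239 (L l245 (L l390 (T t26 N))))))))))))) (K a170 (M a48 (F (T t4 (L l462 (T t1 (L l121 (L l390 (T t13 N)))))))) (K a191 (M a16 (F (T t97 (T t190 (L l213 (L l239 (L l245 (T t191 N)))))))) (K a255 (M a195 (F (L l434 (T t1271 (L l76 (L l475 (T t1114 (L l143 (L l239 (L l296 (L l434 (T t1272 (L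 l143 (L l145 (L l349 (T t1273 N)))))))))))))))) N)))))))))))))))))))))⟩
def e0_63__67_135 : Ent 4 := ⟨[a0, a63], [a67, a216], (M a149 (F (T t25 (T t175 (T t176 (L l76 (T t177 (K a192 (M a53 (F (T t178 (L l236 (T t179 (L l236 (L l296 (T t180 N)))))))) (K a21 (M a48 (F (T t4 (L l121 (L l298 (T t13 (L l18 (T t14 N)))))))) (K a85 (M a16 (F (T t97 (L l144 (L l242 (L l298 (T t190 (L l94 (L l357 (T t278 N)))))))))) (K a213 (Fr a106 a192 l519 (Fr a42 a21 l68 (Fr a170 a234 l390 (Fr a255 a85 l476 (V t582))))) (K a42 (M a48 (F (T t187 (L l121 (L l298 (L l390 (T t13 (L l54 (T t14 N))))))))) (K a106 (M a48 (F (T t1 (L l498 (T t14 (L l390 (L l498 (T t6 (L l390 (T t26 N)))))))))) (K a170 (M a48 (F (T t4 (L l462 (T t1 (L l121 (L l298 (L l390 (T t13 N))))))))) (K a191 (M a16 (F (T t97 (L l242 (L l298 (T t190 (L l213 (T t191 N)))))))) (K a255 (M a16 (F (T t112 (L l242 (L l266 (L l298 (T t190 (L l289 (L l296 (T t191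 N)))))))))) N))))))))))))))))⟩
def e0_63__67_136 : Ent 4 := ⟨[a0, a63], [a67, a217], (M a149 (F (L l243 (T t25 (L l284 (T t175 (L l243 (T t176 (L l76 (T t177 (K a192 (M a53 (F (T t178 (L l236 (T t179 (L l236 (L l243 (L l296 (T t180 N))))))))) (K a21 (M a48 (F (T t4 (L l121 (T t13 (L l18 (T t14 N))))))) (K a85 (M a16 (F (T t97 (L l144 (T t190 (L l94 (T t278 N))))))) (K a213 (Fr a106 a192 l519 (Fr a42 a21 l68 (Fr a170 a234 l390 (Fr a255 a85 l476 (V t582))))) (K a42 (M a48 (F (T t187 (L l121 (L l390 (T t13 (L l54 (T t14 N)))))))) (K a106 (M a48 (F (T t1 (L l498 (T t14 (L l243 (L l390 (L l498 (T t6 (L l243 (L l390 (T t26 N)))))))))))) (K a170 (M a48 (F (T t4 (L l462 (T t1 (L l121 (L l390 (T t13 N)))))))) (K a191 (M a16 (F (T t97 (T t190 (L l213 (L l243 (T t191 N))))))) (K a255 (M a16 (F (T t112 (L l266 (T t190 (L l243 (L l289 (L l296 (T t191 N))))))))) N)))))))))))))))))))⟩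
def e0_63__67_137 : Ent 4 := ⟨[a0, a63], [a67, a218], (M a149 (F (L l246 (T t25 (L l282 (T t175 (L l246 (T t176 (L l76 (T t177 (K a192 (M a53 (F (T t178 (L l236 (T t179 (L l236 (L l246 (L l296 (T t180 N))))))))) (K a21 (M a48 (F (T t4 (L l18 (L l121 (T t1274 (L l18 (T t14 N)))))))) (K a85 (M a48 (F (T t4 (T t1 (L l121 (L l144 (L l303 (T t13 N)))))))) (K a213 (Fr a106 a192 l519 (Fr a42 a21 l68 (Fr a170 a234 l390 (Fr a255 a85 l476 (V t582))))) (K a42 (M a48 (F (L l54 (T t4 (L l121 (L l390 (T t1274 (L l54 (T t14 N))))))))) (K a106 (M a12 (F (T t122 (L l408 (T t649 (L l246 (L l390 (L l408 (T t960 (L l246 (L l390 (T t961 N)))))))))))) (K a170 (M a48 (F (T t4 (L l462 (T t1 (L l121 (L l303 (L l390 (T t13 N))))))))) (K a191 (M a208 (F (T t1275 (L l354 (T t1276 (T t1277 N)))))) (K a255 (M a208 (F (T t1278 (L l354 (L l440 (T t1276 (L l296 (L l469 (T t1275 N))))))))) N)))))))))))))))))))⟩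
def e0_63__67_138 : Ent 4 := ⟨[a0, a63], [a67, a219], (M a149 (F (T t25 (T t175 (T t176 (L l76 (T t177 (K a192 (M a53 (F (T t178 (L l236 (T t179 (L l236 (L l296 (T t180 N)))))))) (K a21 (M a48 (F (T t4 (L l121 (T t13 (L l18 (T t14 N))))))) (K a85 (M a16 (F (T t97 (L l144 (T t190 (L l94 (T t278 N))))))) (K a213 (Fr a106 a192 l519 (Fr a42 a21 l68 (Fr a170 a234 l390 (Fr a255 a85 l476 (V t582))))) (K a42 (M a48 (F (T t187 (L l121 (L l390 (T t13 (L l54 (T t14 N)))))))) (K a106 (M a48 (F (T t1 (L l498 (T t14 (L l390 (L l498 (T t6 (L l245 (L l390 (T t26 N))))))))))) (K a170 (M a48 (F (T t4 (L l462 (T t1 (L l121 (L l390 (T t13 N)))))))) (K a191 (M a16 (F (T t97 (T t190 (L l213 (L l245 (T t191 N))))))) (K a255 (M a16 (F (T t112 (L l266 (T t190 (L l245 (L l289 (L l296 (T t191 N))))))))) N))))))))))))))))⟩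
def e0_63__67_139 : Ent 4 := ⟨[a0, a63], [a67, a220], (M a149 (F (T t25 (T t175 (T t176 (L l76 (T t177 (K a192 (M a53 (F (T t178 (L l236 (L l364 (T t179 (L l236 (L l296 (T t180 N))))))))) (K a21 (M a48 (F (T t4 (L l121 (T t13 (L l18 (L l364 (T t14 N)))))))) (K a85 (M a16 (F (L l363 (T t97 (L l144 (L l242 (T t190 (L l94 (T t278 N))))))))) (K a213 (Fr a106 a192 l519 (Fr a42 a21 l68 (Fr a170 a234 l390 (Fr a255 a85 l476 (V t582))))) (K a42 (M a48 (F (T t187 (L l121 (L l390 (T t13 (L l54 (L l364 (T t14 N))))))))) (K a106 (M a48 (F (T t1 (L l364 (L l498 (T t14 (L l390 (L l498 (T t6 (L l241 (L l390 (T t26 N)))))))))))) (K a170 (M a48 (F (T t4 (L l462 (T t1 (L l121 (L l390 (T t13 N)))))))) (K a191 (M a16 (F (T t112 (L l242 (T t190 (L l213 (L l241 (T t191 N)))))))) (K a255 (M a16 (F (T t112 (L l242 (L l266 (T t190 (L l241 (L l289 (L l296 (T t191 N)))))))))) N))))))))))))))))⟩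
def e0_63__67_140 : Ent 4 := ⟨[a0, a63], [a67, a221], (M a149 (F (T t175 (L l76 (L l243 (T t5 (L l243 (L l290 (T t176 (L l76 (L l290 (T t177 (K a192 (M a53 (F (T t178 (L l236 (T t179 (L l236 (L l243 (L l296 (T t180 N))))))))) (K a21 (M a48 (F (T t4 (L l121 (T t13 (L l18 (T t14 N))))))) (K a85 (M a17 (F (L l359 (T t1279 (L l144 (L l243 (T t1280 (L l91 (T t1281 N))))))))) (K a213 (Fr a106 a192 l519 (Fr a42 a21 l68 (Fr a170 a234 l390 (Fr a255 a85 l476 (V t582))))) (K a42 (M a48 (F (T t187 (L l121 (L l390 (T t13 (L l54 (T t14 N)))))))) (K a106 (M a48 (F (T t1 (L l498 (T t14 (L l243 (L l390 (L l498 (T t6 (L l241 (L l243 (L l390 (T t26 N))))))))))))) (K a170 (M a48 (F (T t4 (L l462 (T t1 (L l121 (L l390 (T t13 N)))))))) (K a191 (M a16 (F (T t97 (T t190 (L l213 (L l241 (L l243 (T t191 N)))))))) (K a255 (M a204 (F (T t1282 (L l85 (L l470 (T t1283 (L l243 (L l296 (L l439 (T t1055 (L l359 (T t1284 N))))))))))))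 N)))))))))))))))))))))⟩
def e0_63__67_141 : Ent 4 := ⟨[a0, a63], [a67, a222], (M a149 (F (T t25 (T t175 (T t176 (L l76 (T t177 (K a192 (M a53 (F (T t178 (L l236 (T t179 (L l236 (L l296 (T t180 N)))))))) (K a21 (M a48 (F (T t4 (L l121 (T t13 (L l18 (T t14 N))))))) (K a85 (M a16 (F (T t97 (L l144 (T t190 (L l94 (T t278 N))))))) (K a213 (Fr a106 a192 l519 (Fr a42 a21 l68 (Fr a170 a234 l390 (Fr a255 a85 l476 (V t582))))) (K a42 (M a48 (F (T t187 (L l121 (L l390 (T t13 (L l54 (T t14 N)))))))) (K a106 (M a48 (F (T t1 (L l498 (T t14 (L l390 (L l498 (T t6 (L l241 (L l390 (T t26 N))))))))))) (K a170 (M a48 (F (T t4 (L l462 (T t1 (L l121 (L l390 (T t13 N)))))))) (K a191 (M a252 (F (T t940 (T t941 N)))) (K a255 (M a16 (F (T t112 (L l266 (T t190 (L l241 (L l289 (L l296 (T t191 N))))))))) N))))))))))))))))⟩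
def e0_63__67_142 : Ent 4 := ⟨[a0, a63], [a67, a223], (M a149 (F (T t175 (L l76 (L l246 (T t5 (L l246 (L l289 (T t176 (L l76 (L l289 (T t177 (K a192 (M a53 (F (T t178 (L l236 (L l289 (L l368 (T t179 (L l236 (L l246 (L l296 (T t180 N))))))))))) (K a21 (M a48 (F (T t4 (L l121 (T t13 (L l18 (L l289 (L l368 (T t14 N))))))))) (K a85 (M a16 (F (L l361 (T t97 (L l144 (L l246 (T t190 (L l94 (T t278 N))))))))) (K a213 (Fr a106 a192 l519 (Fr a42 a21 l68 (Fr a170 a234 l390 (Fr a255 a85 l476 (V t582))))) (K a42 (M a48 (F (T t11 (L l121 (L l390 (T t13 (L l54 (L l289 (L l368 (T t14 N)))))))))) (K a106 (M a48 (F (T t1 (L l76 (L l104 (L l144 (L l246 (L l289 (L l361 (L l390 (T t1285 (L l289 (L l368 (L l498 (T t14 N))))))))))))))) (K a170 (M a48 (F (T t4 (L l462 (T t1 (L l121 (L l390 (T t13 N)))))))) (K a191 (M a16 (F (T t112 (L l246 (T t190 (T t278 N)))))) (K a255 (M a207 (F (T t1286 (L l469 (T t1287 (L l246 (L l296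 (T t1288 (L l361 (T t1289 N)))))))))) N)))))))))))))))))))))⟩
def e0_63__67_143 : Ent 4 := ⟨[a0, a63], [a67, a232], (M a48 (F (T t1 (T t2 (T t3 (T t0 (K a16 (M a60 (F (T t64 (L l14 (L l18 (L l307 (L l393 (T t67 (L l388 (T t65 N)))))))))) (K a32 (M a60 (F (T t64 (L l307 (L l393 (T t67 (L l24 (L l28 (L l388 (T t65 N)))))))))) (K a21 (M a192 (F (T t28 (L l47 (L l347 (T t20 (L l47 (L l347 (T t29 N))))))))) (K a37 (M a192 (F (T t225 (L l121 (T t27 (L l143 (T t21 N))))))) (K a53 (M a192 (F (T t28 (L l143 (L l491 (T t21 (L l393 (T t31 N)))))))) (K a26 (M a192 (F (T t28 (T t20 (L l143 (T t21 N)))))) (K a42 (M a192 (F (T t225 (L l121 (T t27 (L l28 (T t29 N))))))) (K a58 (M a192 (F (T t28 (L l143 (T t21 (L l54 (L l393 (L l498 (T t31 N))))))))) (K a15 (M a192 (F (T t56 (L l121 (L l483 (T t27 (L l143 (L l469 (T t21 N))))))))) N)))))))))))))))⟩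
def e0_63__67_144 : Ent 4 := ⟨[a0, a63], [a67, a233], (M a149 (F (L l293 (T t25 (L l250 (T t175 (L l293 (T t176 (L l76 (T t177 (K a192 (M a53 (F (T t178 (L l236 (T t179 (L l236 (L l293 (L l296 (T t180 N))))))))) (K a21 (M a48 (F (T t4 (L l121 (T t13 (L l18 (T t14 N))))))) (K a85 (M a16 (F (T t97 (L l144 (T t190 (L l94 (T t278 N))))))) (K a213 (Fr a106 a192 l519 (Fr a42 a21 l68 (Fr a170 a234 l390 (Fr a255 a85 l476 (V t582))))) (K a42 (M a48 (F (T t187 (L l121 (L l390 (T t13 (L l54 (T t14 N)))))))) (K a106 (M a48 (F (T t1 (L l498 (T t14 (L l293 (L l390 (L l498 (T t6 (L l293 (L l390 (T t26 N)))))))))))) (K a170 (M a48 (F (T t4 (L l462 (T t1 (L l121 (L l390 (T t13 N)))))))) (K a191 (M a252 (F (T t940 (L l293 (T t1076 N))))) (K a255 (M a16 (F (T t112 (L l266 (T t190 (L l289 (L l293 (L l296 (T t191 N))))))))) N)))))))))))))))))))⟩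
def e0_63__67_145 : Ent 4 := ⟨[a0, a63], [a67, a234], (M a48 (F (T t1 (L l390 (T t2 (T t3 (L l390 (T t0 (K a16 (M a60 (F (T t64 (L l14 (L l18 (L l307 (T t67 (L l390 (T t65 N))))))))) (K a32 (M a60 (F (T t64 (L l307 (T t67 (L l24 (L l28 (L l390 (T t65 N))))))))) (K a21 (M a192 (F (T t28 (L l47 (L l282 (L l347 (T t20 (L l47 (L l282 (L l347 (T t29 N))))))))))) (K a37 (M a192 (F (T t225 (L l121 (T t27 (L l76 (L l390 (T t202 N)))))))) (K a53 (M a192 (F (T t28 (L l76 (L l390 (T t202 (L l390 (T t577 N)))))))) (K a26 (M a192 (F (T t28 (L l282 (T t20 (L l76 (L l390 (T t202 N)))))))) (K a42 (M a106 (F (T t578 (L l28 (L l76 (L l282 (T t579 (L l76 (T t551 N))))))))) (K a58 (M a192 (F (T t28 (L l76 (L l390 (L l498 (T t202 (L l390 (L l498 (T t577 N)))))))))) (K a15 (M a192 (F (T t33 (L l121 (L l483 (T t27 (L l76 (L l390 (L l469 (T t202 N)))))))))) N)))))))))))))))))⟩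
def e0_63__67_146 : Ent 4 := ⟨[a0, a63], [a67, a235], (M a48 (F (T t1 (T t2 (T t3 (T t0 (K a16 (M a60 (F (T t64 (L l14 (L l18 (L l307 (L l391 (T t67 (L l392 (T t65 N)))))))))) (K a32 (M a60 (F (T t64 (L l307 (L l391 (T t67 (L l24 (L l28 (L l392 (T t65 N)))))))))) (K a21 (M a192 (F (T t28 (L l47 (L l347 (T t20 (L l47 (L l347 (T t29 N))))))))) (K a37 (M a192 (F (T t19 (L l47 (T t20 (L l143 (L l295 (T t21 N)))))))) (K a53 (M a192 (F (T t19 (L l143 (L l295 (L l491 (T t21 (T t31 N)))))))) (K a26 (M a192 (F (T t28 (T t20 (L l143 (L l295 (T t21 N))))))) (K a42 (M a192 (F (T t19 (T t20 (L l28 (T t29 N)))))) (K a58 (M a192 (F (T t19 (L l143 (L l295 (T t21 (L l54 (L l498 (T t31 N))))))))) (K a15 (M a192 (F (T t54 (L l121 (L l483 (T t27 (L l143 (L l295 (L l469 (T t21 N)))))))))) N)))))))))))))))⟩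
def e0_63__67_147 : Ent 4 := ⟨[a0, a63], [a67, a236], (M a149 (F (T t25 (T t175 (T t176 (L l76 (T t177 (K a192 (M a53 (F (L l339 (T t982 (L l236 (L l251 (T t179 (L l236 (L l296 (T t180 N)))))))))) (K a21 (M a48 (F (T t4 (L l121 (T t13 (L l18 (L l251 (T t14 N)))))))) (K a85 (M a16 (F (L l400 (T t97 (L l144 (L l400 (T t190 (L l94 (T t278 N))))))))) (K a213 (Fr a106 a192 l519 (Fr a42 a21 l68 (Fr a170 a234 l390 (Fr a255 a85 l476 (V t582))))) (K a42 (M a48 (F (T t187 (L l121 (L l390 (T t13 (L l54 (L l251 (T t14 N))))))))) (K a106 (M a48 (F (T t1 (L l251 (L l498 (T t14 (L l390 (L l498 (T t6 (L l390 (L l400 (T t26 N)))))))))))) (K a170 (M a48 (F (T t4 (L l462 (T t1 (L l121 (L l390 (T t13 N)))))))) (K a191 (M a204 (F (T t1043 (L l399 (T t1112 N))))) (K a255 (M a16 (F (L l400 (T t112 (L l289 (L l296 (T t191 (L l400 (T t192 N))))))))) N))))))))))))))))⟩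
def e0_63__67_148 : Ent 4 := ⟨[a0, a63], [a67, a237], (M a149 (F (T t25 (T t175 (T t176 (L l76 (T t177 (K a192 (M a53 (F (T t178 (L l236 (L l251 (T t179 (L l236 (L l296 (T t180 N))))))))) (K a21 (M a48 (F (T t4 (L l121 (T t13 (L l18 (L l251 (T t14 N)))))))) (K a85 (M a16 (F (T t97 (L l144 (T t190 (L l94 (T t278 N))))))) (K a213 (Fr a106 a192 l519 (Fr a42 a21 l68 (Fr a170 a234 l390 (Fr a255 a85 l476 (V t582))))) (K a42 (M a48 (F (T t11 (L l121 (L l390 (T t13 (L l54 (L l251 (T t14 N))))))))) (K a106 (M a48 (F (T t1 (L l251 (L l498 (T t14 (L l390 (L l498 (T t6 (L l390 (T t26 N))))))))))) (K a170 (M a48 (F (T t4 (L l462 (T t1 (L l121 (L l390 (T t13 N)))))))) (K a191 (M a252 (F (T t940 (L l287 (T t941 N))))) (K a255 (M a16 (F (T t112 (L l266 (T t190 (L l289 (L l296 (T t191 N)))))))) N))))))))))))))))⟩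
def e0_63__67_149 : Ent 4 := ⟨[a0, a63], [a67, a238], (M a48 (F (T t1 (T t2 (T t3 (T t0 (K a16 (M a60 (F (T t64 (L l14 (L l18 (L l307 (T t67 (T t65 N)))))))) (K a32 (M a60 (F (T t64 (L l307 (T t67 (L l24 (L l28 (T t65 N)))))))) (K a21 (M a192 (F (T t28 (L l47 (L l347 (T t20 (L l47 (L l347 (T t29 N))))))))) (K a37 (M a192 (F (T t19 (L l47 (T t20 (L l143 (L l290 (T t21 N)))))))) (K a53 (M a192 (F (T t19 (L l143 (L l290 (L l491 (T t21 (T t31 N)))))))) (K a26 (M a192 (F (T t28 (T t20 (L l143 (L l290 (T t21 N))))))) (K a42 (M a192 (F (T t19 (T t20 (L l28 (T t29 N)))))) (K a58 (M a192 (F (T t19 (L l143 (L l290 (T t21 (L l54 (L l498 (T t31 N))))))))) (K a15 (M a192 (F (T t54 (L l121 (L l483 (T t27 (L l143 (L l290 (L l469 (T t21 N)))))))))) N)))))))))))))))⟩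
def e0_63__67_150 : Ent 4 := ⟨[a0, a63], [a67, a239], (M a48 (F (T t1 (T t2 (L l397 (T t3 (L l404 (T t0 (K a16 (M a60 (F (T t64 (L l14 (L l18 (L l307 (T t67 (T t65 N)))))))) (K a32 (M a170 (F (L l256 (T t439 (L l121 (T t514 (L l256 (T t580 N)))))))) (K a21 (M a192 (F (T t54 (L l121 (T t27 (L l47 (L l289 (L l347 (L l404 (T t29 N)))))))))) (K a37 (M a192 (F (T t54 (L l121 (T t27 (L l143 (L l289 (T t21 N)))))))) (K a53 (M a192 (F (L l256 (T t19 (L l76 (L l289 (T t202 (T t31 N)))))))) (K a26 (M a192 (F (T t56 (L l121 (T t27 (L l143 (L l289 (T t21 N)))))))) (K a42 (M a192 (F (T t56 (L l121 (T t27 (L l28 (L l289 (L l404 (T t29 N))))))))) (K a58 (M a192 (F (L l256 (T t19 (L l76 (L l289 (L l498 (T t202 (L l54 (L l498 (T t31 N))))))))))) (K a15 (M a192 (F (T t54 (L l121 (L l483 (T t27 (L l143 (L l289 (L l469 (T t21 N)))))))))) N)))))))))))))))))⟩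
def e0_63__67_151 : Ent 4 := ⟨[a0, a63], [a67, a252], (M a48 (F (T t48 (L l471 (T t1 (L l471 (T t2 (L l471 (T t3 (L l471 (T t0 (K a16 (M a60 (F (T t138 (L l14 (L l18 (L l307 (L l477 (T t67 (T t65 N))))))))) (K a32 (M a60 (F (T t116 (L l441 (T t64 (L l24 (L l28 (T t65 N)))))))) (K a21 (M a192 (F (T t54 (L l121 (L l262 (T t27 (L l47 (L l347 (T t29 N))))))))) (K a37 (M a192 (F (T t54 (L l121 (L l262 (T t27 (L l143 (L l261 (T t21 N))))))))) (K a53 (M a192 (F (T t36 (L l143 (L l261 (L l491 (T t21 (T t31 N)))))))) (K a26 (M a192 (F (T t56 (L l121 (L l262 (T t27 (L l143 (L l261 (T t21 N))))))))) (K a42 (M a192 (F (T t56 (L l121 (L l262 (T t27 (L l28 (T t29 N)))))))) (K a58 (M a192 (F (T t57 (L l121 (L l262 (T t27 (L l54 (L l498 (T t31 N))))))))) (K a15 (M a192 (L l471 (F (T t57 (L l121 (L l262 (L l483 (T t27 (L l291 (L l325 (T t20 (K a173 (M a94 (F (T t57 (L l291 (L l325 (T t22 (L l262 (L l483 (T t28 N)))))))))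 (K a94 (M a173 (F (T t57 (L l291 (L l325 (T t22 (L l262 (L l483 (T t28 N))))))))) N))))))))))))) N))))))))))))))))))))⟩
def e0_63__67_152 : Ent 4 := ⟨[a0, a63], [a67, a253], (M a149 (F (T t175 (L l76 (L l293 (T t5 (L l261 (L l293 (T t176 (L l76 (L l261 (T t177 (K a192 (M a53 (F (T t178 (L l236 (T t179 (L l236 (L l293 (L l296 (T t180 N))))))))) (K a21 (M a48 (F (T t4 (L l121 (T t13 (L l18 (T t14 N))))))) (K a85 (M a1 (F (L l431 (T t534 (L l76 (L l144 (L l293 (L l307 (T t1083 (L l141 (L l145 (T t1084 N)))))))))))) (K a213 (Fr a106 a192 l519 (Fr a42 a21 l68 (Fr a170 a234 l390 (Fr a255 a85 l476 (V t582))))) (K a42 (M a48 (F (T t187 (L l121 (L l390 (T t13 (L l54 (T t14 N)))))))) (K a106 (M a48 (F (T t1 (L l498 (T t14 (L l293 (L l390 (L l437 (L l498 (T t6 (L l293 (L l390 (T t26 N))))))))))))) (K a170 (M a48 (F (T t4 (L l462 (T t1 (L l121 (L l390 (T t13 N)))))))) (K a191 (M a16 (F (T t97 (T t190 (L l213 (L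 l293 (T t191 N))))))) (K a255 (M a252 (F (T t1290 (L l434 (T t940 (L l293 (L l296 (T t1291 (L l145 (L l431 (T t1292 N))))))))))) N)))))))))))))))))))))⟩
def e0_63__67_153 : Ent 4 := ⟨[a0, a63], [a67, a254], (M a48 (F (T t1 (T t2 (T t3 (T t0 (K a16 (M a60 (F (T t42 (L l14 (L l18 (L l307 (T t67 (T t65 N)))))))) (K a32 (M a60 (F (T t42 (L l307 (T t67 (L l24 (L l28 (T t65 N)))))))) (K a21 (M a192 (F (T t28 (L l47 (L l347 (T t20 (L l47 (L l347 (T t29 N))))))))) (K a37 (M a192 (F (T t19 (L l47 (T t20 (L l143 (L l261 (T t21 N)))))))) (K a53 (M a192 (F (T t19 (L l143 (L l261 (L l491 (T t21 (T t31 N)))))))) (K a26 (M a192 (F (T t28 (T t20 (L l143 (L l261 (T t21 N))))))) (K a42 (M a192 (F (T t19 (T t20 (L l28 (T t29 N)))))) (K a58 (M a192 (F (T t19 (L l143 (L l261 (T t21 (L l54 (L l498 (T t31 N))))))))) (K a15 (M a192 (F (T t54 (L l121 (L l483 (T t27 (L l143 (L l261 (L l469 (T t21 N)))))))))) N)))))))))))))))⟩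
def e0_63__67_154 : Ent 4 := ⟨[a0, a63], [a67, a255], (M a48 (F (T t48 (L l469 (T t1 (L l469 (T t2 (L l469 (T t3 (L l469 (T t0 (K a16 (M a60 (F (T t138 (L l14 (L l18 (L l307 (L l475 (T t67 (T t65 N))))))))) (K a32 (M a60 (F (T t116 (L l439 (T t64 (L l24 (L l28 (T t65 N)))))))) (K a21 (M a192 (F (T t54 (L l121 (L l266 (T t27 (L l47 (L l289 (L l347 (T t29 N)))))))))) (K a37 (M a192 (F (T t36 (L l47 (L l289 (T t20 (L l28 (L l47 (L l289 (T t29 N)))))))))) (K a53 (M a12 (F (T t145 (L l47 (L l439 (T t122 (L l47 (T t146 N)))))))) (K a26 (M a192 (F (T t56 (L l121 (L l266 (T t27 (L l289 (T t29 N)))))))) (K a42 (M a192 (F (T t56 (L l121 (L l266 (T t27 (L l28 (L l289 (T t29 N))))))))) (K a58 (M a12 (F (T t145 (L l439 (T t122 (T t146 N)))))) (K a15 (M a192 (L l469 (F (T t54 (L l121 (L l266 (L l483 (T t27 (L l289 (T t29 (K a95 (M a175 (F (T t53 (L l266 (L l483 (T t28 (L l289 (L l361 (T t29 N))))))))) (K a175 (M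 a95 (F (T t53 (L l266 (L l483 (T t28 (L l289 (T t29 N)))))))) N)))))))))))) N))))))))))))))))))))⟩
def b0_63__67 : Blk 4 := ⟨[0, 63], [67], [1, 2, 3, 4, 5, 6, 7, 8, 9, 10, 11, 12, 13, 14, 15, 20, 22, 23, 24, 25, 26, 27, 28, 29, 30, 31, 40, 41, 43, 44, 45, 46, 47, 60, 61, 62, 64, 65, 66, 68, 69, 70, 71, 72, 73, 74, 75, 76, 77, 78, 79, 84, 85, 86, 87, 88, 89, 90, 91, 92, 93, 94, 95, 104, 105, 106, 107, 108, 109, 110, 111, 124, 125, 126, 127, 128, 129, 130, 131, 132, 133, 134, 135, 136, 137, 138, 139, 140, 141, 142, 143, 148, 149, 150, 151, 152, 153, 154, 155, 156, 157, 158, 159, 168, 169, 170, 171, 172, 173, 174, 175, 188, 189, 190, 191, 192, 193, 194, 195, 196, 197, 198, 199, 200, 201, 202, 203, 204, 205, 206, 207, 212, 213, 214, 215, 216, 217, 218, 219, 220, 221, 222, 223, 232, 233, 234, 235, 236, 237, 238, 239, 252, 253, 254, 255], [e0_63__67_0, e0_63__67_1, e0_63__67_2, e0_63__67_3, e0_63__67_4,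 e0_63__67_5, e0_63__67_6, e0_63__67_7, e0_63__67_8, e0_63__67_9, e0_63__67_10, e0_63__67_11, e0_63__67_12, e0_63__67_13, e0_63__67_14, e0_63__67_15, e0_63__67_16, e0_63__67_17, e0_63__67_18, e0_63__67_19, e0_63__67_20, e0_63__67_21, e0_63__67_22, e0_63__67_23, e0_63__67_24, e0_63__67_25, e0_63__67_26, e0_63__67_27, e0_63__67_28, e0_63__67_29, e0_63__67_30, e0_63__67_31, e0_63__67_32, e0_63__67_33, e0_63__67_34, e0_63__67_35, e0_63__67_36, e0_63__67_37, e0_63__67_38, e0_63__67_39, e0_63__67_40, e0_63__67_41, e0_63__67_42, e0_63__67_43, e0_63__67_44, e0_63__67_45, e0_63__67_46, e0_63__67_47, e0_63__67_48, e0_63__67_49, e0_63__67_50, e0_63__67_51, e0_63__67_52, e0_63__67_53, e0_63__67_54, e0_63__67_55, e0_63__67_56, e0_63__67_57, e0_63__67_58, e0_63__67_59, e0_63__67_60, e0_63__67_61, e0_63__67_62, e0_63__67_63, e0_63__67_64, e0_63__67_65, e0_63__67_66, e0_63__67_67, e0_63__67_68, e0_63__67_69, e0_63__67_70,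 e0_63__67_71, e0_63__67_72, e0_63__67_73, e0_63__67_74, e0_63__67_75, e0_63__67_76, e0_63__67_77, e0_63__67_78, e0_63__67_79, e0_63__67_80, e0_63__67_81, e0_63__67_82, e0_63__67_83, e0_63__67_84, e0_63__67_85, e0_63__67_86, e0_63__67_87, e0_63__67_88, e0_63__67_89, e0_63__67_90, e0_63__67_91, e0_63__67_92, e0_63__67_93, e0_63__67_94, e0_63__67_95, e0_63__67_96, e0_63__67_97, e0_63__67_98, e0_63__67_99, e0_63__67_100, e0_63__67_101, e0_63__67_102, e0_63__67_103, e0_63__67_104, e0_63__67_105, e0_63__67_106, e0_63__67_107, e0_63__67_108, e0_63__67_109, e0_63__67_110, e0_63__67_111, e0_63__67_112, e0_63__67_113, e0_63__67_114, e0_63__67_115, e0_63__67_116, e0_63__67_117, e0_63__67_118, e0_63__67_119, e0_63__67_120, e0_63__67_121, e0_63__67_122, e0_63__67_123, e0_63__67_124, e0_63__67_125, e0_63__67_126, e0_63__67_127, e0_63__67_128, e0_63__67_129, e0_63__67_130, e0_63__67_131, e0_63__67_132, e0_63__67_133,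 e0_63__67_134, e0_63__67_135, e0_63__67_136, e0_63__67_137, e0_63__67_138, e0_63__67_139, e0_63__67_140, e0_63__67_141, e0_63__67_142, e0_63__67_143, e0_63__67_144, e0_63__67_145, e0_63__67_146, e0_63__67_147, e0_63__67_148, e0_63__67_149, e0_63__67_150, e0_63__67_151, e0_63__67_152, e0_63__67_153, e0_63__67_154], by decide +kernel, by decide +kernel⟩

end Pool.Agent.Lib_TTT.K4
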