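import Pool.Agent.Lib_TTT.K4Base
import Pool.Agent.Lib_TTT.K4T00
import Pool.Agent.Lib_TTT.K4T01

/-! Certificates in `4^4`. -/

set_option autoImplicit false
set_option maxRecDepth 200000

namespace Pool.Agent.Lib_TTT.K4

open Lib_TTT AC DC

def e0_63__69_0 : Ent 4 := ⟨[a0, a63], [a69, a1], (M a48 (L l329 (F (T t0 (L l65 (T t1 (L l5 (L l311 (T t2 (L l65 (T t3 (K a16 (M a51 (L l329 (F (T t590 (T t1294 (L l10 (L l18 (L l41 (L l65 (T t591 (K a137 (M a205 (F (T t1294 (L l123 (T t1295 N))))) (K a205 (M a137 (F (T t590 (L l314 (T t1296 (L l5 (L l311 (T t1297 N)))))))) N)))))))))))) (K a32 (M a60 (L l329 (F (T t42 (L l65 (T t67 (L l5 (L l24 (L l28 (L l311 (T t65 (K a137 (M a205 (F (T t42 (L l65 (L l333 (T t67 (L l5 (L l24 (L l28 (L l311 (T t65 N))))))))))) (K a205 (M a137 (F (T t42 (L l65 (T t67 (L l5 (L l24 (L l28 (L l311 (T t65 N)))))))))) N))))))))))))) (K a21 (M a60 (L l65 (L l329 (F (T t248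 (L l47 (T t42 (L l11 (L l18 (L l47 (T t876 (L l41 (L l50 (L l314 (T t250 (K a137 (M a205 (L l65 (F (T t248 (L l205 (T t1298 (K a41 (Fr a61 a62 l33 (V t877)) (K a61 (M a41 (F (L l11 (T t878 (L l47 (L l59 (L l321 (T t1299 (T t248 N))))))))) N)))))))) (K a41 (Fr a61 a62 l33 (V t877)) (K a205 (M a137 (L l65 (F (T t248 (L l41 (L l509 (T t70 (L l11 (L l18 (L l47 (T t876 (L l41 (L l50 (L l314 (L l509 (T t1300 (K a41 (Fr a61 a62 l33 (V t877)) (K a61 (M a41 (L l503 (F (L l11 (T t878 (L l47 (L l59 (T t1299 (L l50 (L l314 (T t247 (K a157 (M a109 (F (L l11 (T t878 (L l165 (T t1301 N)))))) (K a109 (M a157 (F (L l11 (T t878 (L l99 (T t1302 N)))))) N))))))))))))) N)))))))))))))))))) (K a61 (M a41 (L l329 (F (L l11 (T t878 (L l47 (L l59 (T t1299 (L l50 (L l314 (T t247 (K a137 (M a205 (F (L l11 (T t878 (L l47 (L l59 (L l321 (T t1299 (T t248 N))))))))) (K a205 (M a137 (L l503 (F (L l11 (T t878 (L l47 (L l59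 (T t1299 (L l50 (L l314 (T t247 (K a157 (M a109 (F (L l11 (T t878 (L l165 (T t1301 N)))))) (K a109 (M a157 (F (L l11 (T t878 (L l99 (T t1302 N)))))) N))))))))))))) N))))))))))))) N))))))))))))))))))) (K a37 (M a60 (L l329 (F (T t451 (L l314 (T t247 (L l47 (L l65 (T t67 (K a137 (M a205 (F (T t880 (L l205 (T t1298 N))))) (K a205 (M a137 (F (T t880 (T t451 (L l47 (L l65 (T t67 N))))))) N))))))))))) (K a53 (M a170 (L l329 (F (T t456 (T t316 (L l47 (L l65 (T t324 (K a137 (M a205 (F (T t434 (L l35 (L l41 (L l77 (T t1303 N))))))) (K a205 (M a137 (F (T t434 (L l123 (L l231 (L l473 (T t1304 (L l47 (L l65 (T t324 N)))))))))) N)))))))))) (K a26 (M a60 (L l329 (F (T t42 (L l18 (L l65 (T t67 (L l57 (L l314 (T t247 (K a137 (M a205 (F (T t248 (L l205 (L l354 (T t1298 N)))))) (K a205 (M a137 (F (T t248 (L l54 (L l57 (T t451 (L l18 (L l65 (T t67 N))))))))) N)))))))))))) (K a42 (M a101 (L l329 (F (T t333 (T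 t334 (L l54 (L l311 (T t314 (K a137 (M a205 (F (T t1305 (L l54 (L l311 (T t431 N)))))) (K a205 (M a137 (F (T t1306 (L l231 (L l473 (T t1307 (L l54 (L l233 (L l311 (T t431 N)))))))))) N)))))))))) (K a58 (M a170 (L l329 (F (T t316 (L l65 (T t317 (L l65 (T t324 (K a137 (M a205 (F (L l65 (T t438 (L l41 (L l77 (T t1303 N))))))) (K a205 (M a137 (F (L l231 (T t316 (L l65 (T t438 (L l65 (T t324 N)))))))) N)))))))))) (K a15 (M a60 (L l329 (F (T t1308 (L l7 (L l65 (T t67 (L l65 (L l73 (T t64 (K a137 (M a205 (F (T t1308 (L l205 (T t1298 N))))) (K a205 (M a137 (F (T t1308 (L l73 (T t451 (L l7 (L l65 (T t67 N)))))))) N)))))))))))) (K a137 (M a205 (F (T t0 (L l65 (T t1 (L l5 (L l311 (T t2 (L l65 (T t3 (K a16 (M a49 (F (T t1309 (L l205 (L l311 (T t1310 N)))))) (K a32 (M a49 (F (L l205 (T t1311 (L l65 (T t1312 N)))))) (K a21 (M a61 (F (T t18 (L l205 (L l305 (L l311 (T t1313 (T t1314 N)))))))) (K a37 (M a204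 (F (T t1315 (L l65 (T t1316 N))))) (K a53 (M a204 (F (T t1317 (L l35 (L l65 (T t1316 N)))))) (K a26 (M a204 (F (T t1317 (L l65 (T t1316 N))))) (K a42 (M a204 (F (T t1315 (L l65 (T t1316 N))))) (K a58 (M a204 (F (T t1317 (L l65 (T t1316 N))))) (K a15 (M a204 (F (T t1318 (L l77 (L l471 (T t1319 N)))))) N))))))))))))))))))) (K a205 (M a137 (F (T t0 (L l65 (T t1 (L l5 (L l311 (T t2 (L l65 (T t3 (K a16 (M a60 (F (T t42 (L l14 (L l18 (L l65 (T t67 (L l5 (L l311 (T t65 N)))))))))) (K a32 (M a60 (F (T t42 (L l65 (T t67 (L l5 (L l24 (L l28 (L l311 (T t65 N)))))))))) (K a21 (M a60 (L l65 (F (T t248 (L l41 (L l509 (T t70 (L l11 (L l18 (L l47 (T t876 (L l41 (L l50 (L l314 (L l509 (T t1300 (K a41 (Fr a61 a62 l33 (V t877)) (K a61 (M a41 (L l503 (F (L l11 (T t878 (L l47 (L l59 (T t1299 (L l50 (L l314 (T t247 (K a157 (M a109 (F (L l11 (T t878 (L l165 (T t1301 N)))))) (K a109 (M a157 (F (L l11 (T t878 (L l99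 (T t1302 N)))))) N))))))))))))) N)))))))))))))))))) (K a37 (M a192 (F (T t21 (L l231 (T t22 (L l28 (T t28 N))))))) (K a53 (M a192 (F (T t28 (L l47 (L l65 (L l491 (T t35 (L l47 (L l65 (L l491 (T t525 N))))))))))) (K a26 (M a192 (F (T t28 (L l231 (T t22 (L l18 (L l65 (T t35 N)))))))) (K a42 (M a192 (F (T t19 (L l231 (L l390 (T t22 (L l28 (T t29 N)))))))) (K a58 (M a192 (F (T t28 (L l65 (T t35 (L l65 (T t525 N))))))) (K a15 (M a192 (F (T t54 (L l65 (L l469 (T t35 (L l483 (T t28 N)))))))) N))))))))))))))))))) N))))))))))))))))))))))⟩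
def e0_63__69_1 : Ent 4 := ⟨[a0, a63], [a69, a2], (M a48 (F (T t3 (L l6 (T t1 (L l66 (L l311 (T t2 (L l66 (T t0 (K a16 (M a60 (F (T t42 (L l66 (T t43 (L l6 (L l14 (L l18 (T t44 N))))))))) (K a32 (M a60 (F (T t42 (L l24 (L l28 (L l66 (T t43 (L l6 (T t44 N))))))))) (K a21 (M a192 (F (T t28 (L l47 (L l347 (T t20 (L l47 (L l347 (T t29 N))))))))) (K a37 (M a192 (F (T t19 (L l47 (T t20 (T t21 N)))))) (K a53 (M a192 (F (T t19 (L l491 (T t21 (L l66 (T t31 N))))))) (K a26 (M a192 (F (T t27 (T t20 (T t21 N))))) (K a42 (M a60 (L l66 (F (T t880 (L l42 (T t64 (L l42 (L l56 (T t288 (L l22 (L l28 (L l54 (L l314 (T t638 (K a22 (Fr a62 a61 l33 (V t639)) (K a62 (M a22 (F (L l22 (T t881 (L l54 (L l60 (T t882 (T t880 N)))))))) N)))))))))))))))) (K a58 (M a192 (F (T t19 (T t21 (L l54 (L l66 (L l498 (T t31 N)))))))) (K a15 (M a192 (F (T t57 (L l483 (T t27 (L l325 (T t20 N))))))) N)))))))))))))))))))⟩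
def e0_63__69_2 : Ent 4 := ⟨[a0, a63], [a69, a3], (M a48 (F (T t48 (L l7 (T t1 (L l7 (L l311 (T t2 (L l7 (T t3 (L l7 (T t0 (K a16 (M a106 (F (L l331 (T t304 (L l84 (L l309 (T t586 (L l18 (T t1320 N))))))))) (K a32 (M a106 (F (T t1321 (L l309 (T t309 (T t1320 N)))))) (K a21 (M a192 (F (T t54 (L l453 (T t27 (L l47 (L l347 (T t29 N)))))))) (K a37 (M a192 (F (T t54 (L l453 (T t27 (L l475 (T t21 N))))))) (K a53 (M a192 (F (T t55 (L l475 (L l491 (T t21 (T t31 N))))))) (K a26 (M a192 (F (T t56 (L l453 (T t27 (L l475 (T t21 N))))))) (K a42 (M a192 (F (T t56 (L l453 (T t27 (L l28 (T t29 N))))))) (K a58 (M a192 (F (T t57 (L l453 (T t27 (L l54 (L l498 (T t31 N)))))))) (K a15 (M a80 (L l7 (F (T t58 (T t59 (L l469 (L l475 (L l483 (T t60 (K a7 (M a11 (F (T t61 (L l69 (T t62 N))))) (K a11 (M a7 (F (T t61 (L l69 (L l311 (T t63 N)))))) N))))))))))) N)))))))))))))))))))))⟩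
def e0_63__69_3 : Ent 4 := ⟨[a0, a63], [a69, a5], (M a60 (L l311 (F (T t43 (L l47 (T t67 (L l47 (T t68 (L l5 (L l329 (T t69 (K a20 (M a149 (L l311 (F (T t25 (L l346 (T t461 (T t1256 (K a133 (M a197 (F (T t176 (T t1322 N)))) (K a197 (M a133 (F (L l275 (T t25 (L l81 (T t1323 N)))))) N))))))))) (K a40 (M a149 (L l311 (F (T t461 (L l22 (L l84 (T t5 (L l22 (T t1256 (K a133 (M a197 (F (T t1324 (L l22 (L l335 (T t1256 N)))))) (K a197 (M a133 (F (L l84 (T t1325 (L l22 (L l233 (L l275 (T t1256 N)))))))) N))))))))))) (K a21 (M a149 (L l47 (L l311 (F (T t1020 (T t463 (L l11 (T t462 (K a133 (M a197 (L l47 (F (T t1324 (L l11 (L l160 (L l335 (T t462 (K a37 (Fr a53 a101 l491 (V t1034)) (K a53 (M a37 (F (T t1326 (L l11 (L l160 (L l335 (T t462 (L l160 (T t463 N))))))))) N)))))))))) (K a197 (M a133 (L l47 (F (L l84 (T t1325 (L l11 (L l233 (T t462 (K a37 (M a53 (F (T t1326 (L l28 (T t76 N))))) (K a53 (M a37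 (F (T t463 (L l455 (T t1327 N))))) N)))))))))) (K a37 (M a53 (L l311 (F (T t1020 (L l11 (L l51 (T t1328 (K a133 (Fr a197 a101 l491 (V t1034)) (K a197 (M a133 (F (T t1326 (L l28 (T t76 N))))) N))))))))) (K a53 (M a37 (L l311 (F (T t1020 (T t463 (L l11 (T t462 (K a133 (M a197 (F (T t1326 (L l11 (L l160 (L l335 (T t462 (L l160 (T t463 N))))))))) (K a197 (M a133 (F (T t463 (L l455 (T t1327 N))))) N))))))))) N)))))))))))) (K a41 (M a192 (L l311 (F (T t79 (L l47 (L l65 (T t35 (T t73 (K a133 (M a197 (F (T t79 (L l47 (T t1329 N))))) (K a197 (M a133 (F (T t77 (L l233 (T t1330 N))))) N)))))))))) (K a61 (M a192 (L l311 (F (T t72 (L l47 (L l65 (L l515 (T t35 (T t80 (K a133 (M a197 (F (T t72 (L l35 (L l47 (T t1329 N)))))) (K a197 (M a133 (F (T t77 (L l84 (L l443 (T t1331 (L l275 (T t80 N)))))))) N))))))))))) (K a22 (M a192 (L l311 (F (T t72 (T t21 (T t73 (K a133 (M a197 (F (T t72 (L l47 (T t1329 N)))))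 (K a197 (M a133 (F (T t72 (L l66 (L l233 (T t1330 N)))))) N)))))))) (K a42 (M a192 (L l311 (F (T t79 (T t73 (L l22 (T t74 (K a133 (M a197 (F (T t79 (L l47 (L l390 (T t1329 N)))))) (K a197 (M a133 (F (T t77 (L l66 (L l233 (L l390 (T t1330 N))))))) N))))))))) (K a62 (M a192 (L l311 (F (T t72 (L l47 (T t35 (L l66 (L l516 (T t80 (K a133 (M a197 (F (T t72 (L l47 (L l516 (T t1329 N)))))) (K a197 (M a133 (F (T t77 (L l84 (L l516 (T t1331 (L l66 (L l275 (L l516 (T t80 N)))))))))) N))))))))))) (K a3 (M a192 (L l311 (F (T t237 (L l477 (T t79 (L l47 (L l475 (T t35 (K a133 (M a197 (F (T t1332 (L l84 (L l477 (T t1333 N)))))) (K a197 (M a133 (F (T t1334 (L l233 (T t1330 N))))) N))))))))))) (K a133 (M a197 (F (T t43 (L l47 (T t67 (L l47 (T t68 (L l5 (L l329 (T t69 (K a20 (M a192 (F (T t37 (T t1335 N)))) (K a40 (M a192 (F (L l84 (T t202 (T t1335 N))))) (K a21 (M a53 (F (T t1336 (L l123 (L l335 (L l339 (T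 t1337 (L l11 (L l18 (T t1338 N)))))))))) (K a41 (M a192 (F (T t79 (L l47 (T t1329 N))))) (K a61 (M a192 (F (T t72 (L l35 (L l47 (T t1329 N)))))) (K a22 (M a192 (F (T t72 (L l47 (T t1329 N))))) (K a42 (M a192 (F (T t79 (L l47 (L l390 (T t1329 N)))))) (K a62 (M a192 (F (T t72 (L l47 (L l516 (T t1329 N)))))) (K a3 (M a192 (F (T t1332 (L l84 (L l477 (T t1333 N)))))) N))))))))))))))))))) (K a197 (M a133 (F (T t43 (L l47 (T t67 (L l47 (T t68 (L l5 (L l329 (T t69 (K a20 (M a149 (F (L l275 (T t25 (L l81 (T t1323 N)))))) (K a40 (M a149 (F (L l84 (T t1325 (L l22 (L l233 (L l275 (T t1256 N)))))))) (K a21 (M a149 (L l47 (F (L l84 (T t1325 (L l11 (L l233 (T t462 (K a37 (M a53 (F (T t1326 (L l28 (T t76 N))))) (K a53 (M a37 (F (T t463 (L l455 (T t1327 N))))) N)))))))))) (K a41 (M a192 (F (T t77 (L l233 (T t1330 N))))) (K a61 (M a31 (F (L l84 (T t1339 (T t1340 N))))) (K a22 (M a192 (F (T t72 (L l66 (L l233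 (T t1330 N)))))) (K a42 (M a192 (F (T t77 (L l66 (L l233 (L l390 (T t1330 N))))))) (K a62 (M a31 (F (L l84 (L l516 (T t1339 (L l66 (T t1340 N))))))) (K a3 (M a192 (F (T t1334 (L l233 (T t1330 N))))) N))))))))))))))))))) N))))))))))))))))))))))⟩
def e0_63__69_4 : Ent 4 := ⟨[a0, a63], [a69, a6], (M a48 (F (T t3 (L l6 (T t1 (L l1 (L l311 (T t2 (T t0 (K a16 (M a60 (F (T t64 (L l9 (L l14 (L l18 (T t67 (L l1 (L l311 (T t65 N)))))))))) (K a32 (M a60 (F (T t64 (L l9 (T t67 (L l1 (L l24 (L l28 (L l311 (T t65 N)))))))))) (K a21 (M a192 (F (T t28 (L l47 (L l347 (T t20 (L l47 (L l347 (T t29 N))))))))) (K a37 (M a192 (F (T t19 (L l47 (T t20 (T t21 N)))))) (K a53 (M a192 (F (T t19 (L l491 (T t21 (T t31 N)))))) (K a26 (M a192 (F (T t28 (T t20 (T t21 N))))) (K a42 (M a192 (F (T t19 (T t20 (L l28 (T t29 N)))))) (K a58 (M a192 (F (T t19 (T t21 (L l54 (L l498 (T t31 N))))))) (K a15 (M a192 (F (T t47 (L l483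 (T t27 (L l325 (T t20 N))))))) N))))))))))))))))))⟩
def e0_63__69_5 : Ent 4 := ⟨[a0, a63], [a69, a7], (M a48 (F (T t48 (L l7 (T t1 (L l1 (L l7 (L l311 (T t2 (L l7 (T t3 (L l7 (T t0 (K a16 (M a60 (F (T t64 (L l7 (L l14 (L l18 (T t67 (L l14 (L l18 (T t44 N)))))))))) (K a32 (M a60 (F (T t64 (L l7 (T t67 (T t44 N)))))) (K a21 (M a192 (F (T t28 (L l47 (L l347 (T t20 (L l47 (L l347 (T t29 N))))))))) (K a37 (M a52 (F (L l49 (T t83 (L l1 (L l314 (T t82 (L l21 (L l28 (T t84 N)))))))))) (K a53 (M a192 (F (T t19 (L l491 (T t21 (T t31 N)))))) (K a26 (M a192 (F (T t28 (T t20 (T t21 N))))) (K a42 (M a192 (F (T t19 (T t20 (L l28 (T t29 N)))))) (K a58 (M a192 (F (T t19 (T t21 (L l54 (L l498 (T t31 N))))))) (K a15 (M a3 (F (T t1341 (L l73 (L l329 (T t86 (L l63 (T t87 N)))))))) N))))))))))))))))))))))⟩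
def e0_63__69_6 : Ent 4 := ⟨[a0, a63], [a69, a10], (M a60 (F (T t67 (L l54 (T t43 (L l6 (T t68 (L l54 (L l329 (T t69 (K a20 (M a48 (F (L l54 (T t0 (T t64 (L l6 (L l11 (T t235 N)))))))) (K a40 (M a48 (F (T t42 (L l22 (L l24 (L l54 (T t0 (L l6 (L l52 (T t235 N)))))))))) (K a21 (M a192 (F (T t72 (L l347 (T t73 (L l347 (T t74 N))))))) (K a41 (M a192 (F (T t79 (L l65 (T t35 (T t73 N)))))) (K a61 (M a192 (F (T t72 (L l65 (L l515 (T t35 (L l54 (T t80 N)))))))) (K a22 (M a192 (F (T t72 (T t21 (T t73 N))))) (K a42 (M a192 (L l54 (F (T t79 (T t73 (L l22 (T t74 (K a26 (M a58 (F (T t569 (L l22 (L l57 (L l314 (T t1342 N))))))) (K a58 (M a26 (F (T t79 (T t73 (L l84 (L l390 (L l498 (T t78 N)))))))) N))))))))) (K a62 (M a192 (F (T t72 (T t35 (L l54 (L l66 (L l516 (T t80 N)))))))) (K a3 (M a192 (F (T t1343 (L l477 (T t79 (L l475 (T t35 N))))))) N)))))))))))))))))))⟩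
def e0_63__69_7 : Ent 4 := ⟨[a0, a63], [a69, a11], (M a48 (F (T t607 (L l2 (L l7 (T t1 (L l7 (L l311 (T t2 (L l7 (T t3 (L l7 (T t0 (K a16 (M a60 (F (T t64 (L l7 (T t43 (L l311 (T t65 N))))))) (K a32 (M a60 (F (T t64 (L l7 (L l24 (L l28 (T t43 (L l24 (L l28 (L l311 (T t65 N))))))))))) (K a21 (M a192 (F (T t28 (L l47 (L l347 (T t20 (L l47 (L l347 (T t29 N))))))))) (K a37 (M a192 (F (T t19 (L l47 (T t20 (T t21 N)))))) (K a53 (M a192 (F (T t19 (L l491 (T t21 (T t31 N)))))) (K a26 (M a56 (F (L l2 (T t133 (L l55 (T t134 (L l12 (L l18 (T t135 N))))))))) (K a42 (M a192 (F (T t19 (T t20 (L l28 (T t29 N)))))) (K a58 (M a192 (F (T t19 (T t21 (L l54 (L l498 (T t31 N))))))) (K a15 (M a3 (F (T t136 (L l55 (L l63 (T t137 (L l55 (L l63 (T t87 N))))))))) N))))))))))))))))))))))⟩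
def e0_63__69_8 : Ent 4 := ⟨[a0, a63], [a69, a15], (M a60 (F (T t116 (L l7 (T t67 (L l7 (T t43 (L l7 (T t68 (L l7 (L l329 (T t69 (K a20 (M a85 (F (T t49 (L l471 (T t114 (T t1344 N)))))) (K a40 (M a85 (F (L l469 (T t52 (L l392 (L l471 (T t114 (L l22 (T t1344 N))))))))) (K a21 (M a192 (F (T t81 (L l11 (L l471 (T t79 (L l347 (T t74 N)))))))) (K a41 (M a192 (F (T t1343 (L l471 (T t79 (L l65 (L l469 (T t35 N)))))))) (K a61 (M a192 (F (T t1334 (L l65 (L l469 (L l515 (T t35 (T t80 N)))))))) (K a22 (M a192 (F (T t614 (L l11 (L l471 (T t79 (L l11 (L l469 (T t35 N))))))))) (K a42 (M a192 (F (T t614 (L l471 (T t79 (L l22 (T t74 N))))))) (K a62 (M a192 (F (T t57 (L l471 (T t79 (L l66 (L l516 (T t80 N)))))))) (K a3 (M a85 (L l7 (F (T t447 (T t115 (K a7 (M a11 (F (T t49 (L l469 (L l475 (T t1345 (T t523 N))))))) (K a11 (M a7 (F (T t49 (L l469 (L l475 (T t1345 (T t523 N))))))) N))))))) N)))))))))))))))))))))⟩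
def e0_63__69_9 : Ent 4 := ⟨[a0, a63], [a69, a16], (M a60 (F (T t43 (L l14 (L l18 (T t67 (L l18 (T t68 (L l329 (T t69 (K a20 (M a28 (F (T t1346 (L l10 (L l11 (L l18 (T t197 (T t1347 N)))))))) (K a40 (M a12 (F (T t398 (L l18 (T t122 (L l10 (L l18 (L l24 (L l314 (T t399 N)))))))))) (K a21 (M a192 (L l18 (F (T t72 (L l347 (T t73 (L l347 (T t74 (K a26 (M a31 (F (T t77 (L l340 (T t1348 N))))) (K a31 (M a26 (F (T t77 (L l347 (L l375 (T t73 (L l11 (L l14 (L l84 (T t78 N)))))))))) N)))))))))) (K a41 (M a192 (F (T t77 (L l18 (L l65 (T t35 (T t73 N))))))) (K a61 (M a192 (F (T t72 (L l18 (L l65 (L l515 (T t35 (T t80 N)))))))) (K a22 (M a192 (F (T t72 (T t21 (T t73 N))))) (K a42 (M a192 (F (T t77 (T t73 (L l22 (T t74 N)))))) (K a62 (M a192 (F (T t72 (L l18 (T t35 (L l66 (L l516 (T t80 N)))))))) (K a3 (M a192 (F (T t237 (L l14 (L l477 (T t79 (L l18 (L l475 (T t35 N))))))))) N)))))))))))))))))))⟩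
def e0_63__69_10 : Ent 4 := ⟨[a0, a63], [a69, a17], (M a60 (F (T t43 (L l15 (T t67 (L l15 (T t68 (L l41 (L l329 (T t69 (K a20 (M a48 (F (T t64 (L l11 (L l15 (T t1 (L l11 (L l15 (T t235 N))))))))) (K a40 (M a48 (F (T t64 (L l15 (T t1 (L l15 (L l52 (T t235 N)))))))) (K a21 (M a192 (L l15 (F (T t72 (L l347 (T t73 (L l347 (T t74 (K a25 (M a29 (F (T t75 (L l56 (T t1349 N))))) (K a29 (M a25 (F (T t77 (L l347 (L l371 (T t73 (L l11 (L l84 (T t78 N))))))))) N)))))))))) (K a41 (M a192 (F (T t79 (L l15 (L l65 (T t35 (T t73 N))))))) (K a61 (M a192 (F (T t72 (L l15 (L l65 (L l515 (T t35 (T t80 N)))))))) (K a22 (M a192 (F (T t72 (T t21 (T t73 N))))) (K a42 (M a192 (F (T t79 (T t73 (L l22 (T t74 N)))))) (K a62 (M a192 (F (T t72 (L l15 (T t35 (L l66 (L l516 (T t80 N)))))))) (K a3 (M a192 (F (T t237 (L l477 (T t79 (L l15 (L l475 (T t35 N)))))))) N)))))))))))))))))))⟩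
def e0_63__69_11 : Ent 4 := ⟨[a0, a63], [a69, a18], (M a60 (F (T t116 (L l45 (T t67 (L l45 (T t43 (L l42 (L l45 (T t68 (L l45 (L l329 (T t69 (K a20 (M a48 (F (T t70 (L l11 (T t1 (L l11 (L l42 (T t235 N)))))))) (K a40 (M a48 (F (T t1 (L l42 (T t64 (L l42 (L l52 (T t235 N)))))))) (K a21 (M a192 (F (T t72 (L l347 (T t73 (L l347 (T t74 N))))))) (K a41 (M a192 (F (T t79 (L l65 (T t35 (T t73 N)))))) (K a61 (M a192 (F (T t72 (L l65 (L l515 (T t35 (T t80 N))))))) (K a22 (M a30 (F (T t1350 (L l11 (L l45 (L l311 (T t1351 (L l10 (L l11 (L l48 (L l51 (T t1352 N)))))))))))) (K a42 (M a192 (F (T t79 (T t73 (L l22 (T t74 N)))))) (K a62 (M a192 (F (T t72 (T t35 (L l66 (L l516 (T t80 N))))))) (K a3 (M a48 (F (T t138 (L l7 (T t1 (L l9 (L l314 (T t247 N)))))))) N))))))))))))))))))))))⟩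
def e0_63__69_12 : Ent 4 := ⟨[a0, a63], [a69, a19], (M a60 (F (T t116 (L l43 (T t67 (L l17 (L l43 (T t43 (L l43 (T t68 (L l43 (L l329 (T t69 (K a20 (M a48 (F (T t138 (L l11 (T t1 (L l11 (T t235 N))))))) (K a40 (M a48 (F (T t1 (L l43 (T t64 (L l52 (T t235 N))))))) (K a21 (M a192 (F (T t72 (L l347 (T t73 (L l347 (T t74 N))))))) (K a41 (M a192 (F (T t79 (L l65 (T t35 (T t73 N)))))) (K a61 (M a192 (F (T t72 (L l65 (L l515 (T t35 (T t80 N))))))) (K a22 (M a28 (F (L l10 (T t1353 (L l17 (T t196 (L l16 (L l66 (T t1354 N))))))))) (K a42 (M a192 (F (T t79 (T t73 (L l22 (T t74 N)))))) (K a62 (M a192 (F (T t72 (T t35 (L l66 (L l516 (T t80 N))))))) (K a3 (M a51 (F (T t1355 (L l45 (T t1356 (L l9 (L l10 (T t1357 N)))))))) N))))))))))))))))))))))⟩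
def e0_63__69_13 : Ent 4 := ⟨[a0, a63], [a69, a22], (M a192 (F (T t21 (L l11 (T t35 (L l84 (T t202 (L l66 (T t37 (K a64 (M a74 (F (L l311 (T t1358 (L l11 (T t1359 (L l66 (L l311 (T t1360 N))))))))) (K a128 (M a48 (F (T t22 (L l11 (T t1 (L l66 (T t31 N))))))) (K a21 (M a20 (F (T t948 (L l66 (L l347 (T t949 (L l65 (L l347 (T t950 N))))))))) (K a85 (M a48 (L l123 (F (T t27 (L l11 (L l347 (T t1 (L l347 (T t20 (K a101 (M a117 (F (L l368 (T t19 (L l151 (L l455 (T t1361 (L l66 (L l404 (T t0 N)))))))))) (K a117 (M a101 (F (T t1362 (L l66 (T t0 N))))) N))))))))))) (K a149 (M a48 (F (L l170 (T t19 (L l11 (L l347 (L l491 (T t1 (L l11 (L l170 (L l220 (L l347 (L l491 (T t213 (L l66 (L l84 (L l311 (L l375 (T t214 N))))))))))))))))))) (K a42 (M a2 (F (L l329 (T t1363 (L l11 (L l84 (L l390 (T t1364 (L l329 (L l390 (T t1365 N))))))))))) (K a106 (M a48 (F (T t27 (L l11 (T t1 (L l11 (L l411 (T t213 (L l66 (L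 l84 (L l104 (L l144 (L l311 (L l390 (L l498 (T t214 N)))))))))))))))) (K a170 (M a32 (F (T t218 (L l11 (T t219 (L l11 (L l51 (L l180 (L l220 (T t220 N)))))))))) (K a255 (M a16 (F (L l266 (T t210 (L l66 (L l469 (T t97 (L l16 (L l66 (T t211 N)))))))))) N))))))))))))))))))⟩
def e0_63__69_14 : Ent 4 := ⟨[a0, a63], [a69, a23], (M a48 (F (L l11 (T t1 (L l311 (T t2 (L l11 (T t3 (L l17 (T t0 (K a16 (M a60 (F (T t64 (L l11 (L l18 (T t68 (L l11 (L l18 (T t194 N))))))))) (K a32 (M a60 (F (T t64 (L l11 (T t68 (L l11 (T t194 N))))))) (K a21 (M a192 (L l11 (F (T t28 (L l47 (L l347 (L l351 (T t20 (L l47 (L l347 (L l351 (T t29 (K a20 (M a22 (F (T t27 (L l47 (L l347 (L l351 (T t20 (L l14 (L l18 (L l84 (T t46 N))))))))))) (K a22 (M a20 (F (T t27 (L l347 (L l351 (T t195 N)))))) N)))))))))))))) (K a37 (M a192 (F (T t19 (L l47 (L l351 (T t20 (L l351 (T t21 N)))))))) (K a53 (M a192 (F (T t19 (L l351 (L l491 (T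 t21 (T t31 N))))))) (K a26 (M a192 (F (T t28 (L l351 (T t20 (L l351 (T t21 N))))))) (K a42 (M a192 (F (T t19 (L l351 (T t20 (L l28 (L l351 (T t29 N)))))))) (K a58 (M a192 (F (T t19 (L l351 (T t21 (L l54 (L l498 (T t31 N)))))))) (K a15 (M a192 (F (T t54 (L l483 (T t27 (L l351 (L l469 (T t21 N)))))))) N)))))))))))))))))))⟩
def e0_63__69_15 : Ent 4 := ⟨[a0, a63], [a69, a26], (M a85 (F (L l18 (T t52 (L l54 (L l84 (T t88 (L l54 (L l84 (T t89 (L l84 (T t90 (K a64 (M a12 (L l84 (F (T t124 (L l54 (T t572 (K a74 (M a79 (F (T t124 (L l54 (T t572 N))))) (K a79 (M a74 (F (T t1366 (L l18 (T t122 (L l137 (T t124 N))))))) N)))))))) (K a192 (M a48 (F (T t567 (T t1367 (L l54 (L l296 (T t568 N))))))) (K a21 (M a12 (L l18 (F (T t1368 (T t124 (L l15 (T t574 (K a16 (M a31 (F (T t1366 (L l14 (T t1369 N))))) (K a31 (M a16 (F (T t1370 (L l47 (L l361 (T t113 N)))))) N))))))))) (K a149 (M a4 (F (T t1371 (L l54 (L l495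 (T t519 (L l54 (L l72 (L l202 (T t1372 N)))))))))) (K a213 (Fr a170 a255 l476 (Fr a42 a21 l68 (Fr a106 a234 l390 (Fr a192 a149 l519 (V t581))))) (K a42 (M a12 (L l54 (F (L l56 (T t1368 (L l390 (T t124 (L l56 (T t574 (K a10 (M a58 (F (L l314 (T t1373 (L l28 (L l318 (T t120 N))))))) (K a58 (M a10 (F (L l56 (T t123 (L l26 (L l28 (L l311 (T t1374 N)))))))) N))))))))))) (K a106 (M a12 (F (T t1368 (L l18 (T t122 (L l390 (T t124 N))))))) (K a170 (M a4 (F (L l464 (T t130 (L l54 (L l77 (L l390 (T t131 (L l54 (L l390 (L l464 (T t519 (L l464 (T t938 N)))))))))))))) (K a255 (M a4 (F (L l54 (T t129 (L l265 (T t130 (L l54 (L l77 (L l265 (L l296 (T t131 N))))))))))) N)))))))))))))))))))))⟩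
def e0_63__69_16 : Ent 4 := ⟨[a0, a63], [a69, a27], (M a60 (F (T t68 (L l55 (T t67 (L l17 (T t43 (L l329 (T t69 (K a20 (M a48 (F (T t138 (L l11 (L l14 (T t48 (L l11 (T t235 N)))))))) (K a40 (M a48 (F (T t48 (T t236 (L l52 (T t235 N)))))) (K a21 (M a192 (F (T t72 (L l347 (T t73 (L l347 (T t74 N))))))) (K a41 (M a192 (F (T t79 (L l65 (T t35 (T t73 N)))))) (K a61 (M a192 (F (T t72 (L l65 (L l515 (T t35 (T t80 N))))))) (K a22 (M a192 (F (T t72 (T t21 (T t73 N))))) (K a42 (M a192 (F (T t79 (T t73 (L l22 (T t74 N)))))) (K a62 (M a192 (F (T t72 (T t35 (L l66 (L l516 (T t80 N))))))) (K a3 (M a192 (F (T t614 (L l477 (T t79 (L l475 (T t35 N))))))) N))))))))))))))))))⟩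
def e0_63__69_17 : Ent 4 := ⟨[a0, a63], [a69, a31], (M a60 (F (L l18 (T t67 (L l17 (T t43 (L l18 (T t68 (L l329 (T t69 (K a20 (M a48 (F (T t64 (L l11 (L l18 (T t1 (L l11 (L l18 (T t235 N))))))))) (K a40 (M a48 (F (L l18 (T t1 (T t64 (L l18 (L l52 (T t235 N)))))))) (K a21 (M a48 (L l18 (F (T t70 (L l13 (T t248 (L l11 (L l47 (L l65 (T t249 (L l13 (L l50 (L l314 (T t250 (K a16 (M a26 (F (L l47 (T t251 (L l11 (T t252 (T t70 N))))))) (K a26 (Fr a16 a32 l40 (V t253)) N)))))))))))))))) (K a41 (M a192 (F (T t77 (L l18 (L l65 (L l375 (T t35 (L l375 (T t73 N))))))))) (K a61 (M a192 (F (T t72 (L l18 (L l65 (L l375 (L l515 (T t35 (L l373 (T t80 N)))))))))) (K a22 (M a192 (F (T t72 (L l375 (T t21 (L l375 (T t73 N))))))) (K a42 (M a192 (F (T t77 (L l375 (T t73 (L l22 (L l375 (T t74 N)))))))) (K a62 (M a192 (F (T t72 (L l18 (L l375 (T t35 (L l66 (L l373 (L l516 (T t80 N)))))))))) (K a3 (M a192 (F (T t1334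 (L l18 (L l375 (L l475 (T t35 (L l307 (L l375 (T t73 N)))))))))) N)))))))))))))))))))⟩
def e0_63__69_18 : Ent 4 := ⟨[a0, a63], [a69, a32], (M a60 (F (T t67 (L l24 (L l28 (T t43 (T t68 (L l28 (L l329 (T t69 (K a20 (M a12 (F (T t398 (L l11 (L l20 (T t122 (L l11 (L l24 (L l46 (L l314 (T t399 N))))))))))) (K a40 (M a44 (F (T t1375 (L l20 (L l22 (L l28 (L l314 (L l329 (T t1376 (L l314 (T t1377 N))))))))))) (K a21 (M a192 (F (T t77 (L l347 (T t73 (L l24 (L l347 (T t74 N)))))))) (K a41 (M a192 (F (T t79 (L l65 (T t35 (T t73 N)))))) (K a61 (M a192 (F (T t79 (L l65 (L l515 (T t35 (L l28 (T t80 N)))))))) (K a22 (M a192 (F (T t77 (T t21 (T t73 N))))) (K a42 (M a192 (L l28 (F (T t79 (T t73 (L l22 (L l24 (T t74 (K a37 (M a47 (F (T t77 (L l376 (T t1378 N))))) (K a47 (M a37 (F (T t79 (L l409 (T t73 (L l84 (L l390 (L l411 (T t78 N))))))))) N)))))))))) (K a62 (M a192 (F (T t77 (T t35 (L l28 (L l66 (L l516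 (T t80 N)))))))) (K a3 (M a192 (F (T t1343 (L l477 (T t79 (L l475 (T t35 N))))))) N)))))))))))))))))))⟩
def e0_63__69_19 : Ent 4 := ⟨[a0, a63], [a69, a33], (M a60 (F (T t116 (L l45 (T t67 (L l45 (T t43 (L l45 (T t68 (L l41 (L l45 (L l329 (T t69 (K a20 (M a48 (F (T t64 (L l11 (T t1 (L l11 (T t235 N))))))) (K a40 (M a48 (F (T t1 (T t64 (L l52 (T t235 N)))))) (K a21 (M a192 (F (T t72 (L l347 (T t73 (L l347 (T t74 N))))))) (K a41 (M a45 (F (T t1379 (L l22 (L l45 (T t1380 (L l20 (L l22 (L l53 (L l57 (T t1381 N))))))))))) (K a61 (M a192 (F (T t72 (L l65 (L l515 (T t35 (T t80 N))))))) (K a22 (M a192 (F (T t72 (T t21 (T t73 N))))) (K a42 (M a192 (F (T t79 (T t73 (L l22 (T t74 N)))))) (K a62 (M a192 (F (T t72 (T t35 (L l66 (L l516 (T t80 N))))))) (K a3 (M a48 (F (T t246 (L l7 (T t1 (L l9 (L l314 (T t247 N)))))))) N))))))))))))))))))))))⟩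
def e0_63__69_20 : Ent 4 := ⟨[a0, a63], [a69, a34], (M a85 (F (T t52 (L l26 (L l84 (T t88 (L l26 (L l84 (T t89 (L l84 (L l402 (T t90 (K a64 (M a48 (L l84 (F (T t3 (L l402 (T t50 (L l20 (L l26 (T t568 (K a74 (M a79 (F (L l402 (T t50 (L l20 (L l26 (T t568 N))))))) (K a79 (M a74 (F (T t48 (L l137 (L l402 (T t50 (L l26 (L l116 (T t1382 N))))))))) N))))))))))) (K a192 (M a16 (F (L l20 (L l26 (T t504 (L l84 (L l236 (L l402 (T t1383 (L l26 (L l296 (T t98 N)))))))))))) (K a21 (M a240 (F (T t1384 (L l402 (T t933 (L l84 (T t1385 N))))))) (K a149 (M a20 (F (T t1386 (L l26 (L l351 (T t238 (L l26 (L l163 (T t1387 N))))))))) (K a213 (Fr a170 a255 l476 (Fr a42 a21 l68 (Fr a106 a234 l390 (Fr a192 a149 l519 (V t581))))) (K a42 (M a46 (F (L l56 (T t1388 (L l390 (L l402 (T t1389 (L l56 (L l378 (T t1390 (L l84 (L l314 (L l378 (L l390 (L l402 (T t1391 N)))))))))))))))) (K a106 (M a60 (F (T t936 (L l393 (T t67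 (L l390 (L l402 (T t114 N)))))))) (K a170 (M a102 (F (L l208 (T t1392 (L l26 (L l77 (L l390 (T t1393 (L l208 (L l378 (T t1394 (L l26 (L l208 (L l390 (T t1395 N))))))))))))))) (K a255 (M a16 (F (L l20 (L l26 (T t504 (L l20 (L l289 (T t113 (L l26 (L l289 (L l296 (T t98 N)))))))))))) N)))))))))))))))))))))⟩
def e0_63__69_21 : Ent 4 := ⟨[a0, a63], [a69, a35], (M a60 (F (T t522 (L l27 (L l43 (T t67 (L l43 (T t43 (L l43 (T t68 (L l43 (L l329 (T t69 (K a20 (M a48 (F (T t138 (L l11 (T t1 (L l11 (T t235 N))))))) (K a40 (M a48 (F (T t1 (L l43 (T t64 (L l52 (T t235 N))))))) (K a21 (M a192 (F (T t72 (L l347 (T t73 (L l347 (T t74 N))))))) (K a41 (M a44 (F (L l20 (T t1396 (L l27 (T t1397 (L l25 (L l65 (T t1398 N))))))))) (K a61 (M a192 (F (T t72 (L l65 (L l515 (T t35 (T t80 N))))))) (K a22 (M a192 (F (T t72 (T t21 (T t73 N))))) (K a42 (M a192 (F (T t79 (T t73 (L l22 (T t74 N)))))) (K a62 (M a192 (F (T t72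 (T t35 (L l66 (L l516 (T t80 N))))))) (K a3 (M a51 (F (T t848 (L l45 (T t1356 (L l9 (T t1357 N))))))) N))))))))))))))))))))))⟩
def e0_63__69_22 : Ent 4 := ⟨[a0, a63], [a69, a37], (M a85 (F (L l47 (T t52 (L l28 (L l84 (T t88 (L l28 (L l84 (T t89 (L l84 (T t90 (K a64 (M a12 (L l84 (F (T t124 (L l28 (T t572 (K a74 (M a79 (F (T t124 (L l28 (T t572 N))))) (K a79 (M a74 (F (T t1366 (L l47 (T t122 (L l137 (T t124 N))))))) N)))))))) (K a192 (M a4 (F (T t1399 (L l28 (L l489 (T t519 (L l28 (L l77 (L l296 (T t131 N)))))))))) (K a21 (M a60 (L l47 (F (T t936 (T t114 (L l65 (T t523 (K a5 (M a53 (L l311 (F (T t936 (L l50 (L l71 (T t937 (K a133 (M a197 (F (T t1400 (L l71 (L l75 (T t1336 N)))))) (K a197 (M a133 (F (T t936 (L l50 (L l71 (T t937 N)))))) N))))))))) (K a53 (M a5 (F (T t1401 (L l18 (L l419 (T t1402 N)))))) N))))))))) (K a149 (M a4 (F (T t1371 (L l28 (L l495 (T t519 (L l21 (L l28 (L l202 (T t1372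 N)))))))))) (K a213 (Fr a170 a255 l476 (Fr a42 a21 l68 (Fr a106 a234 l390 (Fr a192 a149 l519 (V t581))))) (K a42 (M a47 (F (L l54 (T t1403 (L l390 (T t1404 (L l54 (T t1405 (L l47 (L l84 (L l311 (L l390 (T t1406 N))))))))))))) (K a106 (M a12 (F (T t1368 (L l47 (T t122 (L l390 (T t124 N))))))) (K a170 (M a4 (F (L l464 (T t130 (L l28 (L l77 (L l390 (T t131 (L l28 (L l390 (L l464 (T t519 (L l464 (T t938 N)))))))))))))) (K a255 (M a4 (F (L l28 (T t129 (L l265 (T t130 (L l28 (L l77 (L l265 (L l296 (T t131 N))))))))))) N)))))))))))))))))))))⟩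
def e0_63__69_23 : Ent 4 := ⟨[a0, a63], [a69, a38], (M a192 (F (T t21 (L l50 (T t35 (L l84 (T t202 (L l26 (T t37 (K a64 (M a74 (F (L l311 (T t1358 (L l50 (T t1359 (L l26 (L l311 (T t1360 N))))))))) (K a128 (M a48 (F (T t22 (L l50 (T t1 (L l26 (T t31 N))))))) (K a21 (M a4 (F (T t1407 (L l26 (L l347 (T t1408 (L l347 (T t1409 N)))))))) (K a85 (M a48 (L l123 (F (T t27 (L l50 (L l347 (T t1 (L l347 (T t20 (K a101 (M a117 (F (L l368 (T t19 (L l151 (L l455 (T t1361 (L l26 (L l404 (T t0 N)))))))))) (K a117 (M a101 (F (T t1362 (L l26 (T t0 N))))) N))))))))))) (K a149 (M a48 (F (L l170 (T t19 (L l50 (L l347 (L l491 (T t1 (L l50 (L l170 (L l220 (L l347 (L l491 (T t213 (L l26 (L l84 (L l311 (L l375 (T t214 N))))))))))))))))))) (K a42 (M a34 (F (T t1410 (L l50 (L l84 (L l390 (T t1411 (L l390 (T t1412 N))))))))) (K a106 (M a48 (F (T t27 (L l50 (T t1 (L l50 (L l411 (T t213 (L l26 (L l84 (L l104 (L l144 (L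 l311 (L l390 (L l498 (T t214 N)))))))))))))))) (K a170 (M a32 (F (T t218 (L l50 (T t219 (L l21 (L l50 (L l180 (L l220 (T t220 N)))))))))) (K a255 (M a16 (F (L l266 (T t210 (L l26 (L l469 (T t97 (L l26 (L l72 (T t211 N)))))))))) N))))))))))))))))))⟩
def e0_63__69_24 : Ent 4 := ⟨[a0, a63], [a69, a39], (M a60 (F (T t68 (L l27 (T t67 (L l49 (T t43 (L l329 (T t69 (K a20 (M a48 (F (T t138 (L l11 (L l14 (T t48 (L l11 (L l49 (T t235 N))))))))) (K a40 (M a48 (F (T t48 (T t236 (L l49 (L l52 (T t235 N))))))) (K a21 (M a192 (F (T t72 (L l347 (T t73 (L l347 (T t74 N))))))) (K a41 (M a192 (F (T t79 (L l65 (T t35 (T t73 N)))))) (K a61 (M a192 (F (T t72 (L l65 (L l515 (T t35 (T t80 N))))))) (K a22 (M a192 (F (T t72 (T t21 (T t73 N))))) (K a42 (M a192 (F (T t79 (T t73 (L l22 (T t74 N)))))) (K a62 (M a192 (F (T t72 (T t35 (L l66 (L l516 (T t80 N))))))) (K a3 (M a192 (F (T t614 (L l477 (T t79 (L l475 (T t35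 N))))))) N))))))))))))))))))⟩
def e0_63__69_25 : Ent 4 := ⟨[a0, a63], [a69, a43], (M a48 (F (T t1 (L l22 (L l311 (T t2 (L l27 (T t3 (L l22 (T t0 (K a16 (M a60 (F (T t64 (L l22 (L l329 (T t69 (L l22 (L l311 (T t268 N))))))))) (K a32 (M a60 (F (T t64 (L l22 (L l28 (L l329 (T t69 (L l22 (L l28 (L l311 (T t268 N))))))))))) (K a21 (M a192 (F (T t28 (L l47 (L l347 (T t20 (L l47 (L l347 (T t29 N))))))))) (K a37 (M a192 (F (T t19 (L l47 (T t20 (T t21 N)))))) (K a53 (M a192 (F (T t19 (L l491 (T t21 (L l22 (L l393 (T t31 N)))))))) (K a26 (M a192 (F (T t28 (T t20 (T t21 N))))) (K a42 (M a192 (L l22 (F (T t19 (T t20 (L l28 (T t29 (K a40 (M a41 (F (T t27 (T t20 (L l84 (L l390 (L l393 (T t46 N)))))))) (K a41 (M a40 (F (T t27 (L l66 (L l390 (L l393 (T t269 N))))))) N))))))))) (K a58 (M a192 (F (T t19 (T t21 (L l22 (L l54 (L l393 (L l498 (T t31 N))))))))) (K a15 (M a85 (F (T t567 (L l22 (T t568 N))))) N)))))))))))))))))))⟩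
def e0_63__69_26 : Ent 4 := ⟨[a0, a63], [a69, a47], (M a60 (F (T t68 (L l27 (T t67 (L l28 (T t43 (L l28 (L l329 (T t69 (K a20 (M a48 (F (T t64 (L l28 (L l311 (T t2 (L l28 (L l46 (L l329 (T t287 N)))))))))) (K a40 (M a48 (F (T t64 (L l22 (L l28 (L l311 (T t2 (L l22 (L l28 (L l329 (T t287 N))))))))))) (K a21 (M a192 (F (T t72 (L l347 (L l409 (T t73 (L l347 (T t74 N)))))))) (K a41 (M a192 (F (T t79 (L l65 (T t35 (L l409 (T t73 N))))))) (K a61 (M a192 (F (T t72 (L l65 (L l515 (T t35 (L l28 (L l411 (T t80 N))))))))) (K a22 (M a192 (F (T t72 (T t21 (L l409 (T t73 N)))))) (K a42 (M a48 (L l28 (F (T t64 (L l22 (L l314 (T t247 (L l23 (L l56 (T t288 (L l22 (L l54 (L l66 (L l314 (T t289 (K a32 (M a37 (F (L l54 (T t290 (L l66 (T t291 (T t64 N))))))) (K a37 (Fr a32 a16 l40 (V t292)) N))))))))))))))))) (K a62 (M a192 (F (T t72 (T t35 (L l28 (L l66 (L l411 (L l516 (T t80 N))))))))) (K a3 (M a192 (F (T t47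 (L l477 (T t79 (L l307 (L l409 (T t73 N)))))))) N)))))))))))))))))))⟩
def e0_63__69_27 : Ent 4 := ⟨[a0, a63], [a69, a48], (M a60 (F (T t116 (L l45 (T t67 (L l45 (T t43 (L l45 (T t68 (L l45 (L l329 (T t69 (K a20 (M a12 (F (T t570 (L l11 (L l30 (T t122 (L l11 (L l46 (L l314 (T t399 N)))))))))) (K a40 (M a12 (F (T t1413 (L l30 (T t122 (L l24 (L l314 (T t399 N)))))))) (K a21 (M a192 (F (T t81 (L l11 (L l436 (T t79 (L l347 (T t74 N)))))))) (K a41 (M a192 (F (T t1343 (L l436 (T t79 (L l65 (L l440 (T t35 N)))))))) (K a61 (M a192 (F (T t1334 (L l65 (L l440 (L l515 (T t35 (T t80 N)))))))) (K a22 (M a192 (F (T t614 (L l11 (L l436 (T t79 (L l11 (L l440 (T t35 N))))))))) (K a42 (M a192 (F (T t614 (L l436 (T t79 (L l22 (T t74 N))))))) (K a62 (M a192 (F (T t57 (L l436 (T t79 (L l66 (L l516 (T t80 N)))))))) (K a3 (M a84 (L l45 (F (T t1414 (T t1415 (L l440 (L l475 (L l477 (T t1416 (K a33 (M a18 (F (T t1414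 (L l70 (T t1417 N))))) (K a18 (M a33 (F (T t1414 (L l70 (T t1418 N))))) N))))))))))) N)))))))))))))))))))))⟩
def e0_63__69_28 : Ent 4 := ⟨[a0, a63], [a69, a49], (M a60 (F (T t67 (T t43 (L l35 (T t68 (L l41 (L l329 (T t69 (K a20 (M a48 (F (T t0 (L l35 (L l46 (T t42 (L l11 (L l14 (T t1419 N))))))))) (K a40 (M a48 (F (L l35 (T t42 (L l22 (L l311 (T t2 (L l52 (T t1419 N))))))))) (K a21 (M a192 (F (T t72 (L l347 (T t73 (L l347 (T t74 N))))))) (K a41 (M a192 (F (T t75 (T t79 (L l65 (T t35 N)))))) (K a61 (M a53 (F (T t939 (T t76 (L l311 (T t1420 (L l311 (T t1421 N)))))))) (K a22 (M a192 (F (T t72 (T t21 (T t73 N))))) (K a42 (M a192 (F (T t77 (T t73 (L l22 (T t74 N)))))) (K a62 (M a192 (F (T t72 (T t35 (L l66 (L l516 (T t80 N))))))) (K a3 (M a192 (F (T t81 (L l477 (T t79 (L l475 (T t35 N))))))) N))))))))))))))))))⟩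
def e0_63__69_29 : Ent 4 := ⟨[a0, a63], [a69, a50], (M a60 (F (T t67 (T t43 (L l42 (T t68 (L l36 (L l329 (T t69 (K a20 (M a48 (F (L l36 (T t451 (L l11 (T t1 (L l11 (L l42 (T t235 N))))))))) (K a40 (M a48 (F (T t3 (L l36 (L l52 (T t451 (L l42 (L l52 (T t235 N))))))))) (K a21 (M a192 (F (T t72 (L l347 (T t73 (L l347 (T t74 N))))))) (K a41 (M a192 (F (T t79 (L l65 (T t35 (T t73 N)))))) (K a61 (M a192 (F (T t72 (L l65 (L l515 (T t35 (T t80 N))))))) (K a22 (M a192 (F (T t72 (T t21 (T t73 N))))) (K a42 (M a192 (F (T t79 (T t73 (L l22 (T t74 N)))))) (K a62 (M a58 (F (T t1422 (L l314 (T t1342 (T t1423 (T t1424 N))))))) (K a3 (M a192 (F (T t614 (L l477 (T t79 (L l475 (T t35 N))))))) N))))))))))))))))))⟩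
def e0_63__69_30 : Ent 4 := ⟨[a0, a63], [a69, a51], (M a48 (F (T t48 (L l73 (T t1 (L l73 (L l311 (T t2 (L l73 (T t3 (L l73 (T t0 (K a16 (M a106 (F (L l511 (T t304 (L l84 (L l489 (T t586 (L l18 (T t1320 N))))))))) (K a32 (M a106 (F (T t1321 (L l489 (T t309 (T t1320 N)))))) (K a21 (M a192 (F (T t54 (L l417 (T t27 (L l47 (L l347 (T t29 N)))))))) (K a37 (M a192 (F (T t54 (L l417 (T t27 (L l439 (T t21 N))))))) (K a53 (M a192 (F (T t55 (L l439 (L l491 (T t21 (T t31 N))))))) (K a26 (M a192 (F (T t56 (L l417 (T t27 (L l439 (T t21 N))))))) (K a42 (M a192 (F (T t56 (L l417 (T t27 (L l28 (T t29 N))))))) (K a58 (M a192 (F (T t57 (L l417 (T t27 (L l54 (L l498 (T t31 N)))))))) (K a15 (M a80 (L l73 (F (T t58 (T t59 (L l439 (L l469 (L l483 (T t60 (K a39 (M a27 (F (T t61 (L l39 (T t1425 N))))) (K a27 (M a39 (F (T t61 (L l39 (L l311 (L l314 (T t1426 N))))))) N))))))))))) N)))))))))))))))))))))⟩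
def e0_63__69_31 : Ent 4 := ⟨[a0, a63], [a69, a53], (M a12 (F (T t151 (L l47 (T t122 (L l47 (L l314 (T t152 (L l31 (T t153 (K a4 (M a60 (L l314 (F (T t43 (L l35 (T t398 (T t448 (K a134 (M a199 (F (T t402 (L l329 (T t69 (T t448 N)))))) (K a199 (M a134 (F (T t680 (L l81 (L l494 (T t1427 N)))))) N))))))))) (K a8 (M a60 (F (T t408 (L l47 (T t67 (L l52 (L l56 (T t448 N)))))))) (K a21 (M a149 (L l47 (F (T t958 (T t648 (L l50 (L l314 (T t649 (K a5 (M a37 (L l311 (F (T t958 (T t648 (L l1 (L l50 (L l314 (T t649 (K a133 (M a197 (F (T t647 (L l153 (L l160 (T t648 (L l1 (L l50 (L l160 (L l314 (T t649 N))))))))))) (K a197 (M a133 (F (T t647 (L l84 (L l419 (T t1325 (L l1 (L l50 (L l314 (T t649 N)))))))))) N))))))))))) (K a37 (M a5 (F (T t959 (L l51 (L l65 (L l329 (T t1428 N))))))) N)))))))))) (K a25 (M a192 (F (T t156 (L l15 (L l491 (T t450 (L l491 (T t21 N)))))))) (K a29 (M a192 (F (T t468 (L l371 (L l491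 (T t21 (T t160 N))))))) (K a38 (M a192 (F (T t156 (L l491 (T t450 (L l491 (T t21 N))))))) (K a42 (M a192 (F (T t156 (L l491 (T t450 (L l56 (L l491 (T t157 N)))))))) (K a46 (M a192 (F (T t468 (L l491 (T t21 (L l26 (L l408 (T t160 N)))))))) (K a51 (M a192 (F (T t158 (L l513 (T t156 (L l439 (L l491 (T t21 N)))))))) N)))))))))))))))))))⟩
def e0_63__69_32 : Ent 4 := ⟨[a0, a63], [a69, a54], (M a48 (F (T t3 (L l31 (T t1 (L l36 (L l311 (T t2 (T t0 (K a16 (M a106 (F (T t564 (L l31 (L l340 (T t309 (L l18 (L l31 (T t1320 N))))))))) (K a32 (M a106 (F (T t564 (L l31 (T t309 (L l31 (T t1320 N))))))) (K a21 (M a192 (F (T t28 (L l31 (L l47 (L l347 (T t20 (L l31 (L l47 (L l347 (T t29 N))))))))))) (K a37 (M a192 (F (T t19 (L l31 (L l47 (T t20 (T t21 N))))))) (K a53 (M a52 (F (T t1429 (L l47 (T t1430 (T t1431 (L l47 (T t1432 N)))))))) (K a26 (M a192 (F (T t28 (L l31 (T t20 (T t21 N)))))) (K a42 (M a192 (F (T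 t19 (L l31 (T t20 (L l28 (L l31 (T t29 N)))))))) (K a58 (M a50 (F (T t148 (L l31 (L l54 (T t302 (L l54 (T t1433 N)))))))) (K a15 (M a192 (F (T t57 (L l483 (T t27 (L l31 (L l325 (T t20 N)))))))) N))))))))))))))))))⟩
def e0_63__69_33 : Ent 4 := ⟨[a0, a63], [a69, a55], (M a60 (F (L l50 (T t67 (L l49 (T t43 (L l50 (T t68 (L l329 (T t69 (K a20 (M a48 (F (L l31 (T t64 (L l311 (T t2 (L l11 (L l49 (L l50 (T t235 N)))))))))) (K a40 (M a48 (F (L l31 (T t64 (L l22 (L l311 (T t2 (L l49 (L l50 (L l52 (T t235 N))))))))))) (K a21 (M a150 (L l50 (F (T t1434 (L l65 (T t1136 (L l65 (L l84 (T t1137 (K a4 (M a38 (L l314 (F (T t1435 (T t1436 (L l65 (T t1139 (K a134 (M a199 (F (T t1437 (L l65 (L l84 (L l336 (T t1137 N))))))) (K a199 (M a134 (L l493 (F (L l81 (T t1438 (L l65 (L l84 (L l277 (T t1137 (K a151 (M a103 (F (L l81 (T t1439 (L l65 (L l84 (T t1440 N))))))) (K a103 (M a151 (F (T t1441 (L l65 (T t1442 N)))))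 N))))))))))) N))))))))) (K a38 (M a4 (F (T t1435 (L l31 (T t1443 N))))) N))))))))))) (K a41 (M a192 (F (T t77 (L l50 (L l65 (L l495 (T t35 (L l495 (T t73 N))))))))) (K a61 (M a192 (F (T t72 (L l50 (L l65 (L l495 (L l515 (T t35 (L l493 (T t80 N)))))))))) (K a22 (M a192 (F (T t72 (L l495 (T t21 (L l495 (T t73 N))))))) (K a42 (M a192 (F (T t77 (L l495 (T t73 (L l22 (L l495 (T t74 N)))))))) (K a62 (M a192 (F (T t72 (L l50 (L l495 (T t35 (L l66 (L l493 (L l516 (T t80 N)))))))))) (K a3 (M a192 (F (T t1334 (L l50 (L l475 (L l495 (T t35 (L l307 (L l495 (T t73 N)))))))))) N)))))))))))))))))))⟩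
def e0_63__69_34 : Ent 4 := ⟨[a0, a63], [a69, a58], (M a12 (F (T t122 (L l54 (T t151 (L l32 (L l314 (T t152 (L l54 (T t153 (K a4 (M a60 (L l314 (F (T t398 (L l46 (L l50 (T t67 (L l54 (T t448 (K a134 (M a199 (F (T t402 (L l36 (L l54 (L l329 (T t69 (L l54 (T t448 N))))))))) (K a199 (M a134 (F (T t408 (L l81 (L l494 (T t1427 N)))))) N))))))))))) (K a8 (M a60 (F (T t398 (T t67 (L l52 (L l54 (L l56 (T t448 N)))))))) (K a21 (M a192 (F (T t468 (L l15 (L l347 (T t450 (L l15 (L l347 (T t157 N))))))))) (K a25 (M a192 (F (T t467 (T t156 (T t21 N))))) (K a29 (M a192 (F (T t468 (L l371 (T t21 (L l54 (L l498 (T t160 N)))))))) (K a38 (M a192 (F (T t156 (T t450 (T t21 N))))) (K a42 (M a192 (L l54 (F (T t156 (T t450 (L l56 (T t157 (K a10 (M a26 (F (T t156 (T t450 (L l84 (L l314 (L l390 (L l498 (T t681 N))))))))) (K a26 (M a10 (F (T t156 (L l28 (L l311 (L l390 (L l498 (T t1444 N)))))))) N))))))))) (K a46 (M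 a192 (F (T t156 (T t21 (L l26 (L l54 (L l408 (L l498 (T t160 N))))))))) (K a51 (M a192 (F (T t161 (L l513 (T t156 (L l439 (T t21 N))))))) N)))))))))))))))))))⟩
def e0_63__69_35 : Ent 4 := ⟨[a0, a63], [a69, a59], (M a48 (F (T t1 (L l32 (L l56 (L l311 (T t2 (T t3 (L l56 (T t0 (K a16 (M a60 (F (L l32 (T t70 (L l14 (L l18 (L l55 (T t67 (L l32 (L l56 (L l311 (T t65 N)))))))))))) (K a32 (M a60 (F (L l32 (T t70 (L l55 (T t67 (L l24 (L l28 (L l32 (L l56 (L l311 (T t65 N)))))))))))) (K a21 (M a192 (F (T t28 (L l47 (L l347 (T t20 (L l47 (L l347 (T t29 N))))))))) (K a37 (M a192 (F (T t19 (L l47 (T t20 (T t21 N)))))) (K a53 (M a192 (F (T t19 (L l491 (T t21 (L l56 (L l501 (T t31 N)))))))) (K a26 (M a192 (F (T t28 (T t20 (T t21 N))))) (K a42 (M a192 (L l56 (F (T t19 (T t20 (L l28 (T t29 (K a8 (M a25 (F (T t27 (T t20 (L l84 (L l390 (L l501 (T t46 N)))))))) (K a25 (M a8 (F (T t19 (L l15 (L l314 (T t217 N))))))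 N))))))))) (K a58 (M a56 (F (T t1445 (L l54 (L l55 (L l56 (T t1446 (T t1447 N)))))))) (K a15 (M a85 (F (T t567 (L l56 (T t568 N))))) N)))))))))))))))))))⟩
def e0_63__69_36 : Ent 4 := ⟨[a0, a63], [a69, a64], (M a60 (L l84 (F (T t67 (T t43 (T t68 (L l329 (T t69 (K a20 (M a15 (L l84 (F (T t1448 (T t716 (L l11 (L l311 (T t1449 (K a74 (M a79 (F (T t1450 (L l318 (T t1451 N))))) (K a79 (M a74 (F (T t1448 (L l11 (L l311 (T t1452 N)))))) N)))))))))) (K a40 (M a15 (L l84 (F (T t1453 (L l22 (T t716 (L l311 (T t1449 (K a74 (M a79 (F (T t1450 (L l22 (L l318 (T t1451 N)))))) (K a79 (M a74 (F (T t1448 (L l311 (T t1452 N))))) N)))))))))) (K a21 (M a105 (L l84 (F (T t1217 (L l11 (T t404 (L l11 (T t405 (K a74 (M a79 (F (T t1132 (L l140 (L l339 (T t403 (L l11 (T t405 N)))))))) (K a79 (M a74 (F (T t1454 (T t1132 (L l11 (T t405 N)))))) N)))))))))) (K a41 (M a170 (L l84 (F (T t457 (L l65 (T t317 (L l65 (T t1455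 (K a74 (M a79 (F (T t1456 (L l65 (L l123 (L l144 (L l339 (T t320 (L l339 (T t1457 N)))))))))) (K a79 (M a74 (F (T t1456 (L l65 (T t1458 N))))) N)))))))))) (K a61 (M a170 (L l84 (F (T t457 (L l65 (T t317 (L l65 (L l140 (T t458 (K a74 (M a79 (F (T t1456 (L l65 (L l123 (L l144 (L l339 (T t320 (L l65 (L l140 (T t458 N))))))))))) (K a79 (M a74 (F (T t1456 (L l65 (T t1458 N))))) N))))))))))) (K a22 (M a15 (L l84 (F (T t1448 (L l11 (L l311 (T t731 (L l16 (L l66 (T t1451 (K a74 (M a79 (F (T t1450 (L l16 (L l66 (L l318 (T t1451 N))))))) (K a79 (M a74 (F (T t1448 (L l11 (L l311 (T t1452 N)))))) N)))))))))))) (K a42 (M a105 (L l84 (F (T t404 (L l66 (L l140 (T t1128 (L l66 (T t405 (K a74 (M a79 (F (T t404 (L l336 (T t420 (L l66 (T t405 N))))))) (K a79 (M a74 (F (T t420 (T t1143 (L l66 (T t405 N)))))) N))))))))))) (K a62 (M a170 (L l84 (F (T t457 (T t317 (L l140 (T t458 (K a74 (M a79 (F (T t1459 (L l123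 (L l144 (L l339 (T t320 (L l140 (T t458 N))))))))) (K a79 (M a74 (F (T t1459 (L l444 (T t1458 N))))) N))))))))) (K a3 (M a15 (L l84 (F (T t1460 (L l45 (T t716 (L l45 (L l311 (T t1449 (K a74 (M a79 (F (T t1450 (L l45 (L l318 (T t1451 N)))))) (K a79 (M a74 (F (T t1460 (L l311 (T t1452 N))))) N))))))))))) (K a74 (M a79 (F (T t67 (T t43 (T t68 (L l329 (T t69 (K a20 (M a15 (F (T t1450 (L l318 (T t1451 N))))) (K a40 (M a15 (F (T t1450 (L l22 (L l318 (T t1451 N)))))) (K a21 (M a127 (F (T t1461 (T t1462 N)))) (K a41 (M a15 (F (T t1450 (L l25 (L l65 (L l311 (T t1449 N))))))) (K a61 (M a15 (F (T t723 (L l140 (T t1463 N))))) (K a22 (M a15 (F (T t1450 (L l16 (L l66 (L l318 (T t1451 N))))))) (K a42 (M a127 (F (L l123 (T t1464 (T t1462 N))))) (K a62 (M a15 (F (T t732 (L l140 (L l504 (T t1463 N)))))) (K a3 (M a16 (F (T t504 (L l9 (T t1140 (T t1141 N)))))) N)))))))))))))))) (K a79 (M a74 (F (T t67 (T t43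 (T t68 (L l329 (T t69 (K a20 (M a192 (F (T t569 (L l311 (T t1360 N))))) (K a40 (M a192 (F (T t569 (L l22 (L l311 (T t1360 N)))))) (K a21 (M a150 (F (T t1436 (L l65 (T t1465 N))))) (K a41 (M a192 (F (T t73 (L l22 (L l311 (T t1360 N)))))) (K a61 (M a170 (F (T t1456 (L l65 (T t1458 N))))) (K a22 (M a192 (F (T t569 (L l11 (L l311 (T t1466 N)))))) (K a42 (M a192 (F (T t569 (L l311 (T t1358 (L l28 (L l311 (T t1467 N)))))))) (K a62 (M a106 (F (L l311 (T t1468 (L l140 (T t566 N)))))) (K a3 (M a192 (F (T t237 (L l45 (L l311 (T t1360 N)))))) N)))))))))))))))) N)))))))))))))))))))⟩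
def e0_63__69_37 : Ent 4 := ⟨[a0, a63], [a69, a65], (M a60 (L l81 (F (T t67 (T t43 (T t68 (L l305 (L l329 (T t69 (K a20 (M a12 (L l81 (F (T t151 (T t398 (L l11 (L l46 (L l314 (T t399 (K a73 (M a77 (F (T t151 (L l141 (T t400 N))))) (K a77 (M a73 (F (T t151 (L l314 (L l350 (T t401 (T t402 N))))))) N))))))))))) (K a40 (M a12 (L l81 (F (T t122 (T t398 (L l24 (L l314 (T t399 (K a73 (M a77 (F (T t122 (L l141 (T t400 N))))) (K a77 (M a73 (F (T t122 (L l314 (T t401 (L l24 (T t402 N))))))) N)))))))))) (K a21 (M a105 (L l81 (F (T t403 (L l11 (T t404 (L l11 (L l305 (T t405 (K a73 (M a77 (F (T t403 (L l11 (L l338 (T t404 (L l11 (L l305 (L l335 (T t406 N)))))))))) (K a77 (M a73 (F (T t403 (L l11 (T t407 N))))) N))))))))))) (K a41 (M a12 (L l81 (F (T t408 (L l22 (T t151 (L l22 (T t409 (K a73 (M a77 (F (T t410 (T t411 N)))) (K a77 (M a73 (F (T t408 (L l314 (T t412 N))))) N)))))))))) (K a61 (M a8 (L l81 (F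 (L l314 (T t413 (L l65 (L l314 (T t414 (L l65 (T t415 (K a73 (M a77 (F (L l314 (T t413 (L l65 (L l314 (T t414 (L l65 (T t415 N))))))))) (K a77 (M a73 (F (L l65 (L l314 (T t414 (L l443 (T t416 N))))))) N)))))))))))) (K a22 (M a12 (L l81 (F (T t398 (L l11 (T t122 (L l51 (T t409 (K a73 (M a77 (F (T t417 (T t411 N)))) (K a77 (M a73 (F (T t398 (L l11 (L l314 (L l348 (T t412 N))))))) N)))))))))) (K a42 (M a105 (L l81 (F (T t418 (T t404 (L l66 (L l305 (T t405 (K a73 (M a77 (F (T t403 (L l123 (L l338 (T t1469 (L l66 (L l305 (L l335 (T t406 N)))))))))) (K a77 (M a73 (F (T t420 (T t407 N)))) N)))))))))) (K a62 (M a8 (L l81 (F (L l314 (T t413 (L l314 (T t414 (L l36 (T t415 (K a73 (M a77 (F (L l314 (T t414 (L l314 (T t413 (L l36 (T t415 N)))))))) (K a77 (M a73 (F (L l314 (T t414 (T t416 N))))) N))))))))))) (K a3 (M a12 (L l81 (F (T t421 (L l43 (T t122 (L l7 (T t398 (K a73 (M a77 (F (T t422 (L l43 (T t151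 N))))) (K a77 (M a73 (F (T t423 (L l314 (T t412 N))))) N)))))))))) (K a73 (M a77 (F (T t67 (T t43 (T t68 (L l305 (L l329 (T t69 (K a20 (M a12 (F (T t151 (L l141 (T t400 N))))) (K a40 (M a12 (F (T t122 (L l141 (T t400 N))))) (K a21 (M a12 (F (L l11 (T t410 (T t411 N))))) (K a41 (M a12 (F (T t410 (T t411 N)))) (K a61 (M a12 (F (T t151 (L l141 (L l431 (T t400 N)))))) (K a22 (M a12 (F (T t417 (T t411 N)))) (K a42 (M a12 (F (L l28 (T t410 (T t411 N))))) (K a62 (M a12 (F (T t122 (L l141 (L l504 (T t400 N)))))) (K a3 (M a12 (F (T t422 (L l43 (T t151 N))))) N))))))))))))))))) (K a77 (M a73 (F (T t67 (T t43 (T t68 (L l305 (L l329 (T t69 (K a20 (M a149 (F (T t424 (L l305 (T t425 N))))) (K a40 (M a149 (F (T t175 (L l305 (T t425 N))))) (K a21 (M a56 (F (L l47 (T t199 (L l11 (T t426 N)))))) (K a41 (M a8 (F (L l65 (L l314 (T t414 (T t416 N)))))) (K a61 (M a8 (F (L l65 (L l314 (T t414 (L l443 (T t416 N)))))))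 (K a22 (M a56 (F (L l51 (T t199 (L l11 (T t426 N)))))) (K a42 (M a56 (F (T t427 (T t426 N)))) (K a62 (M a8 (F (L l314 (T t414 (T t416 N))))) (K a3 (M a8 (F (L l314 (T t428 (T t416 N))))) N))))))))))))))))) N))))))))))))))))))))⟩
def e0_63__69_38 : Ent 4 := ⟨[a0, a63], [a69, a66], (M a48 (F (T t1 (L l311 (T t2 (T t3 (T t0 (K a16 (M a60 (F (T t64 (L l14 (L l18 (L l309 (T t67 (L l311 (T t65 N))))))))) (K a32 (M a60 (F (T t64 (L l309 (T t67 (L l24 (L l28 (L l311 (T t65 N))))))))) (K a21 (M a192 (F (T t28 (L l47 (L l347 (T t20 (L l47 (L l347 (T t29 N))))))))) (K a37 (M a192 (F (T t19 (L l47 (T t20 (T t21 N)))))) (K a53 (M a192 (F (T t19 (L l491 (T t21 (L l142 (T t31 N))))))) (K a26 (M a192 (F (T t28 (T t20 (T t21 N))))) (K a42 (M a192 (F (T t19 (T t20 (L l28 (T t29 N)))))) (K a58 (M a192 (F (T t19 (T t21 (L l54 (L l142 (L l498 (T t31 N)))))))) (K a15 (M a192 (F (T t57 (L l483 (T t27 (L l325 (T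 t20 N))))))) N))))))))))))))))⟩
def e0_63__69_39 : Ent 4 := ⟨[a0, a63], [a69, a67], (M a48 (F (T t1 (L l311 (T t2 (T t3 (T t0 (K a16 (M a60 (F (T t64 (L l14 (L l18 (L l307 (T t67 (L l311 (T t65 N))))))))) (K a32 (M a60 (F (T t64 (L l307 (T t67 (L l24 (L l28 (L l311 (T t65 N))))))))) (K a21 (M a192 (F (T t28 (L l47 (L l347 (T t20 (L l47 (L l347 (T t29 N))))))))) (K a37 (M a192 (F (T t19 (L l47 (T t20 (L l143 (T t21 N))))))) (K a53 (M a192 (F (T t19 (L l143 (L l491 (T t21 (T t31 N))))))) (K a26 (M a192 (F (T t28 (T t20 (L l143 (T t21 N)))))) (K a42 (M a192 (F (T t19 (T t20 (L l28 (T t29 N)))))) (K a58 (M a192 (F (T t19 (L l143 (T t21 (L l54 (L l498 (T t31 N)))))))) (K a15 (M a192 (F (T t57 (L l121 (L l483 (T t27 (L l325 (T t20 N)))))))) N))))))))))))))))⟩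
def e0_63__69_40 : Ent 4 := ⟨[a0, a63], [a69, a70], (M a48 (L l77 (F (T t1 (L l311 (T t2 (T t3 (T t0 (K a16 (M a149 (L l77 (F (T t1245 (L l340 (T t11 (T t1470 (K a68 (M a71 (F (T t25 (L l122 (L l311 (T t1081 N)))))) (K a71 (M a68 (F (T t1267 (L l125 (T t1471 N))))) N))))))))) (K a32 (M a61 (L l77 (F (T t262 (L l28 (L l329 (L l333 (T t505 (L l28 (T t530 (K a68 (M a71 (F (T t262 (L l28 (L l329 (L l333 (T t505 (L l28 (T t530 N))))))))) (K a71 (M a68 (F (T t1472 (L l28 (T t530 N))))) N)))))))))))) (K a21 (M a101 (L l77 (F (T t1306 (L l18 (L l330 (T t334 (L l18 (L l311 (T t314 (K a68 (M a71 (F (T t1473 (L l18 (L l311 (T t431 N)))))) (K a71 (M a68 (F (T t1306 (T t1474 N)))) N)))))))))))) (K a37 (M a149 (L l77 (F (T t7 (L l28 (L l84 (T t5 (L l311 (T t14 (K a68 (M a71 (F (T t13 (L l122 (L l311 (T t1081 N)))))) (K a71 (M a68 (F (T t1267 (L l28 (L l125 (T t1471 N)))))) N))))))))))) (K a53 (M a170 (L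 l77 (F (T t456 (L l330 (T t316 (L l47 (T t324 (K a68 (M a71 (F (T t434 (L l122 (L l329 (T t1475 N)))))) (K a71 (M a68 (F (T t434 (L l127 (T t1474 N))))) N)))))))))) (K a26 (M a149 (L l77 (F (T t11 (L l18 (T t175 (L l18 (L l54 (L l311 (T t14 (K a68 (M a71 (F (T t13 (L l54 (L l122 (L l311 (T t1081 N))))))) (K a71 (M a68 (F (T t11 (L l18 (T t1476 N))))) N)))))))))))) (K a42 (M a101 (L l77 (F (T t333 (L l330 (T t334 (L l54 (L l311 (T t314 (K a68 (M a71 (F (T t1473 (L l54 (L l311 (T t431 N)))))) (K a71 (M a68 (F (T t1306 (T t1474 N)))) N))))))))))) (K a58 (M a170 (L l77 (F (T t439 (L l330 (T t316 (T t324 (K a68 (M a71 (F (T t438 (L l122 (L l329 (T t1475 N)))))) (K a71 (M a68 (F (T t438 (L l127 (T t1474 N))))) N))))))))) (K a15 (M a149 (L l77 (F (T t25 (L l339 (T t11 (L l311 (T t14 (K a68 (M a71 (F (T t25 (L l122 (L l311 (T t1081 N)))))) (K a71 (M a68 (F (T t25 (L l127 (L l471 (T t1474 N)))))) N))))))))))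 (K a68 (M a71 (F (T t1 (L l311 (T t2 (T t3 (T t0 (K a16 (M a149 (F (T t25 (L l122 (L l311 (T t1081 N)))))) (K a32 (M a149 (F (T t175 (L l122 (L l311 (T t1081 N)))))) (K a21 (M a101 (F (T t1473 (L l18 (L l311 (T t431 N)))))) (K a37 (M a149 (F (T t13 (L l122 (L l311 (T t1081 N)))))) (K a53 (M a101 (F (T t1473 (L l47 (T t1477 N))))) (K a26 (M a149 (F (T t13 (L l54 (L l122 (L l311 (T t1081 N))))))) (K a42 (M a101 (F (T t1473 (L l54 (L l311 (T t431 N)))))) (K a58 (M a170 (F (T t438 (L l122 (L l329 (T t1475 N)))))) (K a15 (M a149 (F (T t25 (L l122 (L l311 (T t1081 N)))))) N)))))))))))))))) (K a71 (M a68 (F (T t1 (L l127 (T t1474 (L l127 (T t1478 (K a32 (M a64 (F (T t397 (L l376 (T t1479 N))))) N)))))))) N)))))))))))))))))))⟩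
def e0_63__69_41 : Ent 4 := ⟨[a0, a63], [a69, a71], (M a48 (L l77 (F (T t1 (L l311 (T t2 (T t3 (T t0 (K a16 (M a62 (L l77 (F (T t825 (L l18 (L l331 (T t709 (L l18 (T t826 (K a68 (M a70 (F (T t825 (L l18 (T t751 N))))) (K a70 (M a68 (F (T t1480 (L l18 (T t826 N))))) N))))))))))) (K a32 (M a62 (L l77 (F (T t825 (L l331 (T t709 (L l20 (T t826 (K a68 (M a70 (F (T t825 (T t751 N)))) (K a70 (M a68 (F (T t1480 (L l20 (T t826 N))))) N)))))))))) (K a21 (M a192 (L l77 (F (T t28 (L l47 (L l331 (L l347 (T t20 (L l47 (L l347 (T t29 (K a68 (M a70 (F (T t28 (L l331 (T t22 (L l47 (L l347 (T t29 N)))))))) (K a70 (M a68 (F (T t28 (L l347 (T t1481 N))))) N))))))))))))) (K a37 (M a192 (L l77 (F (T t19 (L l47 (L l331 (T t20 (T t21 (K a68 (M a70 (F (T t21 (L l331 (T t22 (L l28 (T t28 N))))))) (K a70 (M a68 (F (T t21 (L l127 (T t1474 N))))) N)))))))))) (K a53 (M a192 (L l77 (F (T t19 (L l491 (T t21 (T t31 (K a68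 (M a70 (F (T t28 (L l47 (L l491 (T t35 (L l47 (L l491 (T t525 N))))))))) (K a70 (M a68 (F (T t28 (L l491 (T t1481 N))))) N))))))))) (K a26 (M a62 (L l77 (F (T t827 (L l18 (L l331 (T t709 (L l16 (L l18 (T t826 (K a68 (M a70 (F (T t827 (L l16 (L l18 (T t751 N)))))) (K a70 (M a68 (F (T t827 (L l127 (T t1474 N))))) N)))))))))))) (K a42 (M a192 (L l77 (F (T t19 (L l331 (T t20 (L l28 (T t29 (K a68 (M a70 (F (T t19 (L l331 (L l390 (T t22 (L l28 (T t29 N)))))))) (K a70 (M a68 (F (T t19 (T t1481 N)))) N)))))))))) (K a58 (M a192 (L l77 (F (T t19 (T t21 (L l54 (L l498 (T t31 (K a68 (M a70 (F (T t28 (T t35 (T t525 N))))) (K a70 (M a68 (F (T t28 (T t1481 N)))) N)))))))))) (K a15 (M a62 (L l77 (F (T t711 (L l73 (T t825 (T t826 (K a68 (M a70 (F (T t1482 (T t751 N)))) (K a70 (M a68 (F (T t711 (L l127 (L l471 (T t1474 N)))))) N))))))))) (K a68 (M a70 (F (T t1 (L l311 (T t2 (T t3 (T t0 (K a16 (M a62 (F (T t825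 (L l18 (T t751 N))))) (K a32 (M a62 (F (T t825 (T t751 N)))) (K a21 (M a192 (F (T t28 (L l331 (T t22 (L l47 (L l347 (T t29 N)))))))) (K a37 (M a192 (F (T t21 (L l331 (T t22 (L l28 (T t28 N))))))) (K a53 (M a192 (F (T t28 (L l47 (L l491 (T t35 (L l47 (L l491 (T t525 N))))))))) (K a26 (M a62 (F (T t827 (L l16 (L l18 (T t751 N)))))) (K a42 (M a192 (F (T t19 (L l331 (L l390 (T t22 (L l28 (T t29 N)))))))) (K a58 (M a192 (F (T t28 (T t35 (T t525 N))))) (K a15 (M a62 (F (T t1482 (T t751 N)))) N)))))))))))))))) (K a70 (M a68 (F (T t1 (L l127 (T t1474 (L l127 (T t1478 (K a32 (M a64 (F (T t397 (L l376 (T t1479 N))))) N)))))))) N)))))))))))))))))))⟩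
def e0_63__69_42 : Ent 4 := ⟨[a0, a63], [a69, a74], (M a85 (L l84 (F (T t52 (T t168 (L l339 (T t352 (K a192 (M a15 (L l84 (F (T t1483 (L l296 (L l311 (L l318 (T t1484 (L l318 (L l484 (T t716 (K a64 (M a79 (F (T t1485 (L l296 (L l311 (L l318 (T t1484 (L l484 (T t732 N))))))))) (K a79 (M a64 (F (T t359 (L l318 (L l484 (T t716 N)))))) N))))))))))))) (K a21 (M a12 (L l84 (F (T t1368 (T t124 (L l15 (T t574 (K a64 (M a79 (F (T t1366 (T t124 (L l15 (T t1486 (L l15 (L l339 (T t1487 N))))))))) (K a79 (M a64 (F (T t359 (L l79 (T t1488 N))))) N))))))))) (K a149 (M a4 (L l84 (F (T t1371 (L l495 (T t519 (L l202 (T t1372 (K a64 (M a79 (F (T t1489 (L l495 (T t519 (L l202 (T t1372 N))))))) (K a79 (M a64 (F (L l220 (T t359 (L l495 (T t519 N)))))) N)))))))))) (K a213 (Fr a170 a255 l476 (Fr a42 a21 l68 (Fr a106 a234 l390 (Fr a192 a149 l519 (V t581))))) (K a42 (M a12 (L l84 (F (L l56 (T t1368 (L l390 (T t124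 (L l56 (T t574 (K a64 (M a79 (F (L l56 (T t1366 (L l390 (T t124 (L l26 (L l56 (T t1490 (L l56 (L l339 (T t1487 N)))))))))))) (K a79 (M a64 (F (T t367 (L l56 (T t1366 N))))) N))))))))))) (K a106 (M a90 (L l84 (F (T t1491 (L l390 (T t126 (L l311 (L l411 (T t1492 (L l311 (L l339 (T t1493 (K a64 (M a79 (F (T t1491 (L l116 (L l390 (T t126 (L l311 (L l411 (T t1492 (L l116 (T t1494 N))))))))))) (K a79 (M a64 (F (L l390 (T t373 (L l137 (L l411 (T t1495 (L l137 (T t1496 N))))))))) N)))))))))))))) (K a170 (M a15 (L l84 (F (L l311 (T t731 (L l318 (L l462 (T t1497 (L l311 (L l318 (L l390 (L l462 (T t1484 (L l390 (T t1498 (K a64 (M a79 (F (T t1499 (L l311 (L l318 (L l390 (L l462 (T t1484 N)))))))) (K a79 (M a64 (F (L l220 (T t367 (L l311 (T t731 N)))))) N))))))))))))))))) (K a234 (Fr a170 a255 l476 (Fr a21 a42 l68 (Fr a149 a213 l347 (Fr a192 a106 l519 (V t583))))) (K a255 (M a1 (L l84 (F (T t538 (L l261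 (T t263 (L l81 (L l261 (L l296 (T t1500 (K a64 (M a79 (F (T t1501 (L l76 (L l81 (L l261 (L l296 (T t1500 (L l261 (L l296 (L l339 (T t1502 N)))))))))))) (K a79 (M a64 (F (T t367 (L l434 (T t534 N))))) N)))))))))))) (K a64 (M a79 (F (L l116 (T t1503 (L l116 (T t1504 (L l311 (T t1505 (L l116 (T t1506 (K a128 (Fr a255 a170 l476 (Fr a21 a42 l68 (Fr a149 a213 l347 (V t1507)))) (K a149 (M a4 (F (T t1489 (L l495 (T t519 (L l202 (T t1372 N))))))) (K a170 (M a15 (F (T t1499 (L l311 (L l318 (L l390 (L l462 (T t1484 N)))))))) (K a95 (M a48 (F (T t50 (L l361 (T t568 N))))) (K a111 (M a48 (F (T t50 (T t1508 N)))) (K a127 (M a4 (F (T t1509 (T t519 (L l77 (L l80 (T t131 N))))))) (K a191 (M a4 (F (T t1510 (T t519 (L l77 (L l80 (L l189 (T t131 N)))))))) (K a255 (M a1 (F (T t1501 (L l76 (L l81 (L l261 (L l296 (T t1500 (L l261 (L l296 (L l339 (T t1502 N)))))))))))) N)))))))))))))))))) (K a79 (M a64 (F (T t367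 (T t359 (L l339 (T t390 N)))))) N))))))))))))))))))⟩
def e0_63__69_43 : Ent 4 := ⟨[a0, a63], [a69, a75], (M a60 (F (T t67 (T t43 (T t68 (L l329 (T t69 (K a20 (M a48 (F (T t64 (L l11 (L l337 (T t1 (L l11 (T t235 N)))))))) (K a40 (M a48 (F (T t64 (L l337 (T t1 (L l52 (T t235 N))))))) (K a21 (M a192 (F (T t72 (L l131 (L l337 (L l347 (T t73 (L l347 (T t74 N))))))))) (K a41 (M a192 (F (T t77 (L l65 (T t35 (L l131 (L l337 (T t73 N)))))))) (K a61 (M a192 (F (T t72 (L l65 (L l515 (T t35 (T t80 N))))))) (K a22 (M a192 (F (T t72 (T t21 (L l131 (L l337 (T t73 N))))))) (K a42 (M a192 (F (T t77 (L l131 (L l337 (T t73 (L l22 (T t74 N)))))))) (K a62 (M a192 (F (T t72 (T t35 (L l66 (L l516 (T t80 N))))))) (K a3 (M a192 (F (T t1343 (L l477 (T t79 (L l475 (T t35 N))))))) N))))))))))))))))⟩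
def e0_63__69_44 : Ent 4 := ⟨[a0, a63], [a69, a79], (M a60 (L l84 (F (T t67 (T t43 (T t68 (L l329 (T t69 (K a20 (M a192 (L l84 (F (T t37 (L l346 (T t73 (L l11 (L l139 (L l346 (T t1511 (K a64 (M a74 (F (T t569 (L l311 (T t1360 N))))) (K a74 (Fr a64 a128 l304 (V t392)) N)))))))))))) (K a40 (M a106 (L l84 (F (T t393 (T t1512 (T t1513 (K a64 (M a74 (F (T t1514 (T t1515 N)))) (K a74 (M a64 (F (T t394 (L l137 (T t395 N))))) N)))))))) (K a21 (M a192 (L l84 (F (T t72 (L l347 (T t73 (L l137 (L l347 (T t74 (K a64 (M a74 (F (L l144 (T t1516 (L l311 (T t1467 (L l311 (L l347 (T t1358 N))))))))) (K a74 (Fr a64 a128 l304 (V t1517)) N))))))))))) (K a41 (M a192 (L l84 (F (T t79 (L l65 (T t35 (T t73 (K a64 (M a74 (F (T t73 (L l22 (L l311 (T t1360 N)))))) (K a74 (Fr a64 a128 l304 (V t392)) N))))))))) (K a61 (M a192 (L l84 (F (T t72 (L l65 (L l515 (T t35 (T t80 (K a64 (M a74 (F (L l311 (T t1518 (L l140 (L l144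 (T t80 (L l311 (L l515 (T t1358 N)))))))))) (K a74 (Fr a64 a128 l304 (V t392)) N)))))))))) (K a22 (M a192 (L l84 (F (T t72 (L l137 (T t21 (T t73 (K a64 (M a74 (F (T t569 (L l11 (L l311 (T t1466 N)))))) (K a74 (Fr a64 a128 l304 (V t392)) N))))))))) (K a42 (M a192 (L l84 (F (T t79 (T t73 (L l22 (L l137 (T t74 (K a64 (M a74 (F (T t569 (L l311 (T t1358 (L l28 (L l311 (T t1467 N)))))))) (K a74 (Fr a64 a128 l304 (V t1517)) N)))))))))) (K a62 (M a192 (L l84 (F (T t72 (T t35 (L l66 (L l516 (T t80 (K a64 (M a74 (F (L l311 (T t1519 (L l66 (L l140 (L l144 (L l516 (T t80 (L l66 (L l311 (T t1360 N)))))))))))) (K a74 (Fr a64 a128 l304 (V t392)) N)))))))))) (K a3 (M a192 (L l84 (F (T t57 (L l477 (T t79 (L l307 (T t73 (K a64 (M a74 (F (T t237 (L l45 (L l311 (T t1360 N)))))) (K a74 (Fr a64 a128 l304 (V t392)) N)))))))))) (K a64 (M a74 (F (T t67 (T t43 (T t68 (L l329 (T t69 (K a20 (M a192 (F (T t569 (L l311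 (T t1360 N))))) (K a40 (M a192 (F (T t569 (L l22 (L l311 (T t1360 N)))))) (K a21 (M a150 (F (T t1436 (L l65 (T t1465 N))))) (K a41 (M a192 (F (T t73 (L l22 (L l311 (T t1360 N)))))) (K a61 (M a170 (F (T t1456 (L l65 (T t1458 N))))) (K a22 (M a192 (F (T t569 (L l11 (L l311 (T t1466 N)))))) (K a42 (M a192 (F (T t569 (L l311 (T t1358 (L l28 (L l311 (T t1467 N)))))))) (K a62 (M a106 (F (L l311 (T t1468 (L l140 (T t566 N)))))) (K a3 (M a192 (F (T t237 (L l45 (L l311 (T t1360 N)))))) N)))))))))))))))) (K a74 (M a64 (F (T t43 (L l139 (T t465 (L l137 (T t397 N))))))) N)))))))))))))))))))⟩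
def e0_63__69_45 : Ent 4 := ⟨[a0, a63], [a69, a80], (M a60 (F (T t67 (T t43 (T t68 (L l329 (T t69 (K a20 (M a48 (F (T t64 (L l11 (T t1 (L l11 (T t235 N))))))) (K a40 (M a48 (F (T t1 (T t64 (L l52 (T t235 N)))))) (K a21 (M a192 (F (T t72 (L l347 (T t73 (L l347 (T t74 N))))))) (K a41 (M a192 (F (T t79 (L l65 (T t35 (T t73 N)))))) (K a61 (M a192 (F (T t72 (L l65 (L l515 (T t35 (T t80 N))))))) (K a22 (M a192 (F (T t72 (T t21 (T t73 N))))) (K a42 (M a192 (F (T t79 (T t73 (L l22 (T t74 N)))))) (K a62 (M a192 (F (T t72 (T t35 (L l66 (L l516 (T t80 N))))))) (K a3 (M a192 (F (T t237 (L l477 (T t79 (L l475 (T t35 N))))))) N))))))))))))))))⟩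
def e0_63__69_46 : Ent 4 := ⟨[a0, a63], [a69, a81], (M a60 (F (T t67 (T t43 (T t68 (L l329 (L l449 (T t69 (K a20 (M a48 (F (T t64 (L l11 (T t1 (L l11 (T t235 N))))))) (K a40 (M a48 (F (T t1 (T t64 (L l52 (T t235 N)))))) (K a21 (M a192 (F (T t72 (L l347 (T t73 (L l347 (T t74 N))))))) (K a41 (M a192 (F (T t79 (L l65 (T t35 (T t73 N)))))) (K a61 (M a192 (F (T t72 (L l65 (L l515 (T t35 (T t80 N))))))) (K a22 (M a192 (F (T t72 (T t21 (T t73 N))))) (K a42 (M a192 (F (T t79 (T t73 (L l22 (T t74 N)))))) (K a62 (M a192 (F (T t72 (T t35 (L l66 (L l516 (T t80 N))))))) (K a3 (M a192 (F (T t237 (L l477 (T t79 (L l475 (T t35 N))))))) N)))))))))))))))))⟩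
def e0_63__69_47 : Ent 4 := ⟨[a0, a63], [a69, a82], (M a48 (F (T t1 (L l311 (T t2 (T t3 (T t0 (K a16 (M a60 (F (T t64 (L l14 (L l18 (L l453 (T t67 (L l311 (T t65 N))))))))) (K a32 (M a60 (F (T t64 (L l453 (T t67 (L l24 (L l28 (L l311 (T t65 N))))))))) (K a21 (M a192 (F (T t22 (L l121 (L l453 (T t27 (L l47 (L l347 (T t29 N))))))))) (K a37 (M a192 (F (T t225 (L l121 (L l453 (T t27 (T t21 N))))))) (K a53 (M a192 (F (T t37 (L l121 (L l453 (T t27 (T t31 N))))))) (K a26 (M a192 (F (T t21 (L l121 (L l453 (T t27 (T t20 N))))))) (K a42 (M a192 (F (T t20 (L l121 (L l453 (T t27 (L l28 (T t29 N)))))))) (K a58 (M a192 (F (T t21 (L l121 (L l453 (T t27 (L l54 (L l498 (T t31 N))))))))) (K a15 (M a192 (F (T t33 (L l121 (L l453 (L l483 (T t27 (L l469 (T t21 N))))))))) N))))))))))))))))⟩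
def e0_63__69_48 : Ent 4 := ⟨[a0, a63], [a69, a83], (M a48 (F (T t1 (L l311 (T t2 (T t3 (T t0 (K a16 (M a60 (F (T t64 (L l14 (L l18 (L l451 (T t67 (L l311 (T t65 N))))))))) (K a32 (M a60 (F (T t64 (L l451 (T t67 (L l24 (L l28 (L l311 (T t65 N))))))))) (K a21 (M a192 (F (T t28 (L l47 (L l347 (T t20 (L l47 (L l347 (T t29 N))))))))) (K a37 (M a192 (F (T t19 (L l47 (T t20 (T t21 N)))))) (K a53 (M a192 (F (T t19 (L l491 (T t21 (T t31 N)))))) (K a26 (M a192 (F (T t28 (T t20 (T t21 N))))) (K a42 (M a192 (F (T t19 (T t20 (L l28 (T t29 N)))))) (K a58 (M a192 (F (T t19 (T t21 (L l54 (L l498 (T t31 N))))))) (K a15 (M a192 (F (T t47 (L l483 (T t27 (L l325 (T t20 N))))))) N))))))))))))))))⟩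
def e0_63__69_49 : Ent 4 := ⟨[a0, a63], [a69, a85], (M a60 (L l123 (F (T t43 (L l347 (L l350 (T t67 (L l347 (T t68 (L l329 (L l473 (T t69 (K a20 (M a52 (L l123 (L l350 (F (T t1520 (L l11 (L l347 (T t1521 (L l11 (L l347 (T t1522 (K a101 (M a117 (L l350 (F (T t1520 (L l147 (L l458 (T t1523 (L l458 (T t1524 (K a150 (M a215 (F (L l404 (T t1525 (L l203 (L l458 (T t1526 N))))))) (K a215 (M a150 (F (T t1520 (L l91 (L l147 (L l277 (L l295 (L l314 (L l458 (T t1527 N)))))))))) N))))))))))) (K a117 (M a101 (L l350 (F (T t1525 (L l314 (L l346 (T t1528 (K a150 (M a215 (F (T t1520 (L l11 (L l347 (T t1529 (T t1525 N))))))) (K a215 (Fr a150 a199 l494 (V t1530)) N))))))))) (K a150 (M a215 (L l123 (F (T t1520 (L l11 (L l347 (T t1521 (L l11 (L l347 (T t1522 (K a101 (M a117 (F (L l404 (T t1525 (L l203 (L l458 (T t1526 N))))))) (K a117 (M a101 (F (T t1520 (L l11 (L l347 (T t1529 (T t1525 N))))))) N))))))))))))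 (K a215 (M a150 (L l123 (F (T t1525 (L l346 (T t1136 (K a101 (M a117 (F (T t1520 (L l91 (L l147 (L l277 (L l295 (L l314 (L l458 (T t1527 N)))))))))) (K a117 (Fr a101 a199 l494 (V t1530)) N)))))))) N))))))))))))))) (K a40 (M a48 (L l123 (F (T t64 (L l347 (T t1 (L l52 (L l347 (T t235 (K a101 (M a117 (F (L l455 (T t1531 (L l22 (L l329 (L l473 (L l494 (T t287 N))))))))) (K a117 (M a101 (F (L l419 (T t333 (L l22 (L l329 (L l422 (L l473 (T t287 N))))))))) N))))))))))) (K a21 (M a149 (L l123 (F (T t1034 (L l144 (T t463 (L l11 (L l141 (L l144 (L l350 (T t1532 (L l11 (L l350 (T t1533 (K a101 (M a117 (F (T t1534 (L l104 (L l144 (T t463 (L l11 (L l141 (L l144 (L l350 (T t1532 (L l11 (L l350 (T t1533 N)))))))))))))) (K a117 (M a101 (F (T t1034 (L l144 (L l311 (T t1535 (L l141 (L l311 (T t1536 N))))))))) N)))))))))))))))) (K a41 (M a48 (L l123 (F (T t42 (L l22 (L l311 (L l455 (T t2 (L l22 (L l57 (L l314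 (L l458 (T t247 (K a101 (M a117 (F (L l491 (T t1537 (L l22 (L l404 (T t248 N))))))) (K a117 (M a101 (F (L l422 (T t1538 (L l65 (L l347 (L l419 (T t1 N)))))))) N))))))))))))))) (K a61 (M a48 (L l123 (F (T t248 (L l35 (L l65 (L l347 (T t1 (L l311 (L l455 (T t65 (K a101 (M a117 (F (L l404 (T t248 (L l35 (L l443 (L l491 (T t1537 N)))))))) (K a117 (M a101 (F (T t0 (L l350 (L l422 (T t1539 N)))))) N))))))))))))) (K a22 (M a48 (L l123 (F (T t64 (L l11 (L l347 (T t1 (L l314 (L l458 (T t247 (K a101 (M a117 (F (L l491 (T t1537 (L l19 (L l404 (T t248 N))))))) (K a117 (M a101 (F (T t451 (L l11 (L l347 (L l368 (T t1540 N))))))) N)))))))))))) (K a42 (M a192 (L l123 (F (T t77 (L l347 (T t73 (L l66 (L l144 (L l350 (L l390 (T t1541 (K a101 (M a117 (F (T t77 (L l347 (L l491 (T t569 (L l66 (L l104 (L l144 (L l350 (L l390 (T t1541 N)))))))))))) (K a117 (M a101 (F (T t77 (L l347 (T t1542 N))))) N)))))))))))))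 (K a62 (M a48 (L l123 (F (T t248 (L l347 (T t1 (L l36 (L l66 (L l311 (L l455 (T t65 (K a101 (M a117 (F (L l491 (T t1537 (L l404 (T t248 N)))))) (K a117 (M a101 (F (T t248 (L l36 (L l311 (T t313 N)))))) N))))))))))))) (K a3 (M a48 (L l123 (F (T t1543 (L l7 (L l347 (T t1 (L l43 (T t64 (K a101 (M a117 (F (L l147 (T t1544 (L l7 (L l347 (L l491 (T t1 N)))))))) (K a117 (M a101 (F (T t1543 (L l309 (L l311 (T t313 N)))))) N))))))))))) (K a101 (M a117 (F (T t43 (L l347 (L l350 (T t67 (L l347 (T t68 (L l329 (L l473 (T t69 (K a20 (M a52 (L l350 (F (T t1520 (L l147 (L l458 (T t1523 (L l458 (T t1524 (K a150 (M a215 (F (L l404 (T t1525 (L l203 (L l458 (T t1526 N))))))) (K a215 (M a150 (F (T t1520 (L l91 (L l147 (L l277 (L l295 (L l314 (L l458 (T t1527 N)))))))))) N))))))))))) (K a40 (M a48 (F (L l455 (T t1531 (L l22 (L l329 (L l473 (L l494 (T t287 N))))))))) (K a21 (M a149 (F (T t1534 (L l104 (L l144 (T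 t463 (L l11 (L l141 (L l144 (L l350 (T t1532 (L l11 (L l350 (T t1533 N)))))))))))))) (K a41 (M a48 (F (L l491 (T t1537 (L l22 (L l404 (T t248 N))))))) (K a61 (M a48 (F (L l404 (T t248 (L l35 (L l443 (L l491 (T t1537 N)))))))) (K a22 (M a48 (F (L l491 (T t1537 (L l19 (L l404 (T t248 N))))))) (K a42 (M a48 (F (L l491 (T t1537 (L l22 (L l28 (L l404 (T t248 N)))))))) (K a62 (M a48 (F (L l491 (T t1537 (L l404 (T t248 N)))))) (K a3 (M a48 (F (L l147 (T t1544 (L l7 (L l347 (L l491 (T t1 N)))))))) N)))))))))))))))))))) (K a117 (M a101 (F (T t43 (L l347 (L l350 (T t67 (L l347 (T t68 (L l329 (L l473 (T t69 (K a20 (M a150 (F (T t1545 (L l314 (L l368 (T t1546 (L l314 (T t1547 N)))))))) (K a40 (M a32 (F (L l347 (T t1548 (L l368 (L l419 (L l422 (T t1549 N)))))))) (K a21 (M a149 (F (T t1034 (L l144 (L l311 (T t1535 (L l141 (L l311 (T t1536 N))))))))) (K a41 (M a192 (F (T t77 (L l347 (T t1542 N))))) (K a61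 (M a192 (F (T t72 (L l347 (L l515 (T t1542 N)))))) (K a22 (M a192 (F (T t72 (L l347 (T t1542 N))))) (K a42 (M a192 (F (T t77 (L l347 (T t1542 N))))) (K a62 (M a192 (F (T t72 (L l347 (T t1542 N))))) (K a3 (M a192 (F (L l477 (T t72 (L l331 (L l347 (T t1542 N))))))) N)))))))))))))))))))) N)))))))))))))))))))))))⟩
def e0_63__69_50 : Ent 4 := ⟨[a0, a63], [a69, a86], (M a48 (F (T t1 (L l311 (T t2 (T t3 (T t0 (K a16 (M a60 (F (T t64 (L l14 (L l18 (L l477 (T t67 (L l311 (L l351 (T t65 N)))))))))) (K a32 (M a60 (F (T t64 (L l477 (T t67 (L l24 (L l28 (L l311 (L l351 (T t65 N)))))))))) (K a21 (M a192 (F (T t28 (L l47 (L l347 (L l351 (T t20 (L l47 (L l347 (L l351 (T t29 N))))))))))) (K a37 (M a192 (F (T t19 (L l47 (L l351 (T t20 (L l351 (T t21 N)))))))) (K a53 (M a192 (F (T t19 (L l351 (L l491 (T t21 (L l142 (T t31 N)))))))) (K a26 (M a192 (F (T t27 (L l351 (T t20 (L l351 (T t21 N))))))) (K a42 (M a192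 (F (T t19 (L l351 (T t20 (L l28 (L l351 (T t29 N)))))))) (K a58 (M a192 (F (T t19 (L l351 (T t21 (L l54 (L l142 (L l498 (T t31 N))))))))) (K a15 (M a192 (F (T t36 (L l325 (L l351 (T t20 (L l351 (L l469 (T t21 N))))))))) N))))))))))))))))⟩
def e0_63__69_51 : Ent 4 := ⟨[a0, a63], [a69, a87], (M a48 (F (T t1 (L l311 (T t2 (T t3 (T t0 (K a16 (M a60 (F (T t64 (L l14 (L l18 (L l475 (T t67 (L l311 (L l349 (T t65 N)))))))))) (K a32 (M a60 (F (T t64 (L l475 (T t67 (L l24 (L l28 (L l311 (L l349 (T t65 N)))))))))) (K a21 (M a192 (F (T t28 (L l47 (L l347 (T t20 (L l47 (L l347 (L l367 (T t29 N)))))))))) (K a37 (M a192 (F (T t19 (L l47 (T t20 (L l143 (L l475 (T t21 N)))))))) (K a53 (M a192 (F (T t19 (L l143 (L l475 (L l491 (T t21 (T t31 N)))))))) (K a26 (M a192 (F (T t28 (T t20 (L l143 (L l475 (T t21 N))))))) (K a42 (M a192 (F (T t19 (T t20 (L l28 (L l367 (T t29 N))))))) (K a58 (M a192 (F (T t19 (L l143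 (L l475 (T t21 (L l54 (L l498 (T t31 N))))))))) (K a15 (M a192 (F (T t57 (L l483 (T t27 (L l325 (T t20 N))))))) N))))))))))))))))⟩
def e0_63__69_52 : Ent 4 := ⟨[a0, a63], [a69, a90], (M a60 (F (T t67 (T t43 (T t68 (L l329 (T t69 (K a20 (M a48 (F (T t64 (L l11 (L l462 (L l483 (T t1 (L l11 (T t235 N))))))))) (K a40 (M a48 (F (T t64 (L l462 (L l483 (T t1 (L l52 (T t235 N)))))))) (K a21 (M a192 (F (T t72 (L l347 (L l375 (T t73 (L l347 (L l375 (T t74 N))))))))) (K a41 (M a192 (F (T t77 (L l65 (L l375 (T t35 (L l375 (T t73 N)))))))) (K a61 (M a192 (F (T t72 (L l65 (L l375 (L l515 (T t35 (L l130 (T t80 N))))))))) (K a22 (M a192 (F (T t72 (L l375 (T t21 (L l375 (T t73 N))))))) (K a42 (M a192 (F (T t77 (L l375 (T t73 (L l22 (L l375 (T t74 N)))))))) (K a62 (M a192 (F (T t72 (L l375 (T t35 (L l66 (L l130 (L l516 (T t80 N))))))))) (K a3 (M a192 (F (T t254 (L l375 (L l475 (T t35 (L l307 (L l375 (T t73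 N))))))))) N))))))))))))))))⟩
def e0_63__69_53 : Ent 4 := ⟨[a0, a63], [a69, a91], (M a60 (F (T t67 (T t43 (T t68 (L l329 (T t69 (K a20 (M a48 (F (T t64 (L l11 (L l481 (T t1 (L l11 (T t235 N)))))))) (K a40 (M a48 (F (T t64 (L l481 (T t1 (L l52 (T t235 N))))))) (K a21 (M a192 (F (T t72 (L l131 (L l347 (T t73 (L l347 (T t74 N)))))))) (K a41 (M a192 (F (T t79 (L l65 (T t35 (L l131 (T t73 N))))))) (K a61 (M a192 (F (T t72 (L l65 (L l515 (T t35 (L l373 (T t80 N)))))))) (K a22 (M a192 (F (T t72 (T t21 (L l131 (T t73 N)))))) (K a42 (M a192 (F (T t77 (L l131 (T t73 (L l22 (T t74 N))))))) (K a62 (M a192 (F (T t72 (T t35 (L l66 (L l373 (L l516 (T t80 N)))))))) (K a3 (M a192 (F (T t1343 (L l477 (T t79 (L l475 (T t35 N))))))) N))))))))))))))))⟩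
def e0_63__69_54 : Ent 4 := ⟨[a0, a63], [a69, a95], (M a60 (F (T t67 (T t43 (T t68 (L l329 (T t69 (K a20 (M a48 (F (T t64 (L l11 (L l469 (T t1 (L l11 (T t235 N)))))))) (K a40 (M a48 (F (T t64 (L l469 (T t1 (L l52 (T t235 N))))))) (K a21 (M a192 (F (T t72 (L l347 (T t73 (L l137 (L l347 (T t74 N)))))))) (K a41 (M a192 (F (T t77 (L l65 (L l469 (T t35 (T t73 N))))))) (K a61 (M a192 (F (T t72 (L l65 (L l469 (L l515 (T t35 (T t80 N)))))))) (K a22 (M a192 (F (T t72 (L l137 (L l469 (T t21 (T t73 N))))))) (K a42 (M a192 (F (T t79 (T t73 (L l22 (L l137 (T t74 N))))))) (K a62 (M a192 (F (T t72 (L l469 (T t35 (L l66 (L l516 (T t80 N)))))))) (K a3 (M a192 (F (T t1343 (L l477 (T t79 (L l469 (L l475 (T t35 N)))))))) N))))))))))))))))⟩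
def e0_63__69_55 : Ent 4 := ⟨[a0, a63], [a69, a96], (M a60 (F (T t67 (T t43 (T t68 (L l329 (T t69 (K a20 (M a48 (F (T t64 (L l11 (T t1 (L l11 (T t235 N))))))) (K a40 (M a48 (F (T t1 (T t64 (L l52 (T t235 N)))))) (K a21 (M a192 (F (T t77 (L l347 (T t73 (L l347 (T t74 N))))))) (K a41 (M a192 (F (T t79 (L l65 (T t35 (T t73 N)))))) (K a61 (M a192 (F (T t77 (L l65 (L l515 (T t35 (L l100 (L l104 (T t80 N))))))))) (K a22 (M a192 (F (T t77 (T t21 (T t73 N))))) (K a42 (M a192 (F (T t79 (T t73 (L l22 (T t74 N)))))) (K a62 (M a192 (F (T t79 (T t35 (L l66 (L l100 (L l104 (L l516 (T t80 N))))))))) (K a3 (M a192 (F (T t237 (L l477 (T t79 (L l475 (T t35 N))))))) N))))))))))))))))⟩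
def e0_63__69_56 : Ent 4 := ⟨[a0, a63], [a69, a97], (M a60 (F (T t67 (T t43 (T t68 (L l329 (T t69 (K a20 (M a48 (F (T t64 (L l11 (T t1 (L l11 (T t235 N))))))) (K a40 (M a48 (F (T t1 (T t64 (L l52 (T t235 N)))))) (K a21 (M a192 (F (T t72 (L l347 (L l488 (T t73 (L l347 (T t74 N)))))))) (K a41 (M a192 (F (T t77 (L l65 (T t35 (L l488 (T t73 N))))))) (K a61 (M a192 (F (T t72 (L l65 (L l515 (T t35 (T t80 N))))))) (K a22 (M a192 (F (T t72 (T t21 (L l488 (T t73 N)))))) (K a42 (M a192 (F (T t79 (L l488 (T t73 (L l22 (T t74 N))))))) (K a62 (M a192 (F (T t72 (T t35 (L l66 (L l516 (T t80 N))))))) (K a3 (M a192 (F (T t81 (L l477 (T t79 (L l475 (T t35 N))))))) N))))))))))))))))⟩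
def e0_63__69_57 : Ent 4 := ⟨[a0, a63], [a69, a98], (M a48 (F (T t1 (L l311 (T t2 (T t3 (T t0 (K a16 (M a60 (F (T t43 (L l486 (L l489 (T t64 (L l311 (T t65 N)))))))) (K a32 (M a60 (F (T t68 (L l486 (L l489 (T t64 (L l24 (L l28 (L l311 (T t65 N)))))))))) (K a21 (M a192 (F (T t27 (L l47 (L l347 (T t20 (L l47 (L l347 (T t29 N))))))))) (K a37 (M a192 (F (T t27 (L l47 (T t20 (T t21 N)))))) (K a53 (M a192 (F (T t27 (L l491 (T t21 (L l96 (L l102 (T t31 N)))))))) (K a26 (M a192 (F (T t27 (T t20 (T t21 N))))) (K a42 (M a192 (F (T t27 (T t20 (L l28 (T t29 N)))))) (K a58 (M a192 (F (T t27 (T t21 (L l54 (L l96 (L l102 (L l498 (T t31 N))))))))) (K a15 (M a192 (F (T t47 (L l483 (T t27 (L l325 (T t20 N))))))) N))))))))))))))))⟩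
def e0_63__69_58 : Ent 4 := ⟨[a0, a63], [a69, a99], (M a48 (F (T t1 (L l311 (T t2 (T t3 (T t0 (K a16 (M a60 (F (T t43 (L l487 (T t64 (L l311 (T t65 N))))))) (K a32 (M a60 (F (T t68 (L l487 (T t64 (L l24 (L l28 (L l311 (T t65 N))))))))) (K a21 (M a192 (F (T t27 (L l47 (L l347 (T t20 (L l47 (L l347 (T t29 N))))))))) (K a37 (M a192 (F (T t19 (L l47 (T t20 (T t21 N)))))) (K a53 (M a192 (F (T t19 (L l491 (T t21 (L l96 (T t31 N))))))) (K a26 (M a192 (F (T t20 (T t27 (T t21 N))))) (K a42 (M a192 (F (T t19 (T t20 (L l28 (T t29 N)))))) (K a58 (M a192 (F (T t19 (T t21 (L l54 (L l96 (L l498 (T t31 N)))))))) (K a15 (M a192 (F (T t57 (L l483 (T t27 (L l325 (T t20 N))))))) N))))))))))))))))⟩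
def e0_63__69_59 : Ent 4 := ⟨[a0, a63], [a69, a101], (M a85 (F (T t52 (L l84 (T t88 (L l84 (L l104 (T t89 (L l84 (L l404 (T t90 (K a64 (M a240 (L l84 (F (T t1384 (L l404 (L l512 (T t933 (T t1550 (K a74 (M a79 (F (T t1384 (L l404 (L l512 (T t933 (L l130 (L l311 (L l339 (T t1551 N)))))))))) (K a79 (M a74 (L l151 (F (L l116 (T t1552 (L l404 (L l512 (T t933 (L l311 (T t1551 (K a112 (M a90 (L l116 (F (T t1553 (T t1554 (K a80 (M a96 (F (T t1554 (L l325 (L l404 (T t1555 N)))))) (K a96 (Fr a80 a160 l448 (V t1554)) N))))))) (K a90 (M a112 (F (L l137 (T t1556 (L l311 (T t1557 (L l325 (L l462 (L l491 (T t1558 N)))))))))) N)))))))))))) N)))))))))) (K a192 (M a16 (F (L l404 (T t504 (L l296 (T t98 (L l84 (L l236 (L l404 (L l491 (T t1559 N))))))))))) (K a21 (M a240 (F (T t1384 (L l404 (L l512 (T t933 (L l84 (T t1385 N)))))))) (K a149 (M a53 (F (L l311 (T t982 (L l220 (L l404 (T t1560 (L l383 (T t1561 (L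 l512 (T t1562 N))))))))))) (K a213 (Fr a170 a255 l476 (Fr a42 a21 l68 (Fr a106 a234 l390 (Fr a192 a149 l519 (V t581))))) (K a42 (M a240 (F (T t1384 (L l390 (L l404 (L l512 (T t386 (L l84 (T t1385 N))))))))) (K a106 (M a60 (L l104 (F (T t936 (L l393 (T t67 (L l390 (L l404 (T t114 (K a96 (M a111 (F (T t1563 (L l100 (T t1564 N))))) (K a111 (M a96 (F (T t1563 (L l393 (T t67 (L l137 (L l390 (L l404 (T t114 N))))))))) N))))))))))) (K a170 (M a4 (L l404 (F (L l464 (T t130 (L l77 (L l390 (T t131 (L l390 (L l464 (T t519 (L l464 (T t938 (K a32 (M a239 (F (L l464 (T t130 (L l28 (L l77 (L l390 (T t131 (L l28 (L l390 (L l464 (T t519 (L l464 (T t938 N)))))))))))))) (K a239 (M a32 (F (L l397 (T t219 (L l464 (T t130 N)))))) N))))))))))))))) (K a255 (M a4 (F (T t129 (L l265 (T t130 (L l77 (L l265 (L l296 (T t131 N))))))))) N))))))))))))))))))))⟩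
def e0_63__69_60 : Ent 4 := ⟨[a0, a63], [a69, a102], (M a48 (F (T t1 (L l311 (T t2 (T t3 (T t0 (K a16 (M a60 (F (T t43 (L l510 (L l513 (T t64 (L l311 (T t65 N)))))))) (K a32 (M a60 (F (T t68 (L l510 (L l513 (T t64 (L l24 (L l28 (L l311 (T t65 N)))))))))) (K a21 (M a192 (F (T t28 (L l47 (L l347 (L l495 (T t20 (L l47 (L l347 (L l495 (T t29 N))))))))))) (K a37 (M a192 (F (T t19 (L l47 (L l495 (T t20 (L l495 (T t21 N)))))))) (K a53 (M a192 (F (T t19 (L l491 (L l495 (T t21 (L l102 (T t31 N)))))))) (K a26 (M a192 (F (T t27 (L l495 (T t20 (L l495 (T t21 N))))))) (K a42 (M a192 (F (T t19 (L l495 (T t20 (L l28 (L l495 (T t29 N)))))))) (K a58 (M a192 (F (T t19 (L l495 (T t21 (L l54 (L l102 (L l498 (T t31 N))))))))) (K a15 (M a192 (F (T t36 (L l325 (L l495 (T t20 (L l469 (L l495 (T t21 N))))))))) N))))))))))))))))⟩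
def e0_63__69_61 : Ent 4 := ⟨[a0, a63], [a69, a103], (M a48 (F (T t1 (L l311 (T t2 (T t3 (T t0 (K a16 (M a60 (F (T t43 (L l511 (T t64 (L l311 (T t65 N))))))) (K a32 (M a60 (F (T t68 (L l511 (T t64 (L l24 (L l28 (L l311 (T t65 N))))))))) (K a21 (M a192 (F (T t28 (L l47 (L l347 (L l511 (T t20 (L l47 (L l347 (T t29 N)))))))))) (K a37 (M a192 (F (T t19 (L l47 (L l511 (T t20 (T t21 N))))))) (K a53 (M a192 (F (T t19 (L l491 (T t21 (T t31 N)))))) (K a26 (M a192 (F (T t28 (L l511 (T t20 (T t21 N)))))) (K a42 (M a192 (F (T t19 (L l511 (T t20 (L l28 (T t29 N))))))) (K a58 (M a192 (F (T t19 (T t21 (L l54 (L l498 (T t31 N))))))) (K a15 (M a192 (F (T t57 (L l483 (T t27 (L l325 (L l511 (T t20 N)))))))) N))))))))))))))))⟩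
def e0_63__69_62 : Ent 4 := ⟨[a0, a63], [a69, a106], (M a60 (F (T t68 (L l393 (T t67 (L l390 (T t43 (L l329 (L l390 (L l516 (T t69 (K a20 (M a48 (F (T t64 (L l11 (T t1 (L l11 (T t235 N))))))) (K a40 (M a48 (F (T t1 (T t64 (L l52 (T t235 N)))))) (K a21 (M a255 (F (T t1565 (L l390 (T t1566 (L l11 (L l123 (L l144 (L l347 (L l516 (T t1567 N))))))))))) (K a41 (M a32 (F (T t1568 (L l65 (L l411 (T t219 (L l25 (L l65 (L l408 (T t1569 N)))))))))) (K a61 (M a16 (F (T t1140 (L l390 (T t97 (L l59 (L l390 (T t1141 N)))))))) (K a22 (M a16 (F (L l19 (T t1140 (L l66 (L l390 (T t97 (L l16 (L l66 (L l390 (T t1141 N))))))))))) (K a42 (M a170 (F (T t457 (L l123 (L l144 (T t1570 (L l66 (L l98 (L l516 (T t1571 (L l66 (L l84 (L l98 (L l144 (L l516 (T t1572 N)))))))))))))))) (K a62 (M a32 (L l516 (F (T t1573 (L l411 (T t219 (L l60 (L l408 (T t1569 (K a194 (M a150 (F (T t820 (L l432 (T t1135 N))))) (K a150 (M a194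 (F (T t820 (L l350 (T t1573 (L l60 (L l350 (L l408 (T t1569 N))))))))) N))))))))))) (K a3 (M a16 (F (T t1574 (L l7 (L l390 (T t97 (L l390 (T t1141 N)))))))) N))))))))))))))))))))⟩
def e0_63__69_63 : Ent 4 := ⟨[a0, a63], [a69, a107], (M a48 (F (T t1 (L l311 (T t2 (L l409 (T t3 (T t0 (K a16 (M a60 (F (T t43 (T t64 (L l311 (T t65 N)))))) (K a32 (M a60 (F (T t64 (L l391 (T t67 (L l24 (L l28 (L l311 (T t65 N))))))))) (K a21 (M a192 (F (T t28 (L l47 (L l347 (T t20 (L l47 (L l347 (T t29 N))))))))) (K a37 (M a192 (F (T t19 (L l47 (T t20 (L l143 (T t21 N))))))) (K a53 (M a192 (F (T t19 (L l143 (L l491 (T t21 (L l98 (T t31 N)))))))) (K a26 (M a192 (F (T t28 (T t20 (L l143 (T t21 N)))))) (K a42 (M a192 (F (T t19 (T t20 (L l28 (T t29 N)))))) (K a58 (M a192 (F (T t19 (L l143 (T t21 (L l54 (L l98 (L l498 (T t31 N))))))))) (K a15 (M a192 (F (T t57 (L l483 (T t27 (L l325 (T t20 N))))))) N)))))))))))))))))⟩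
def e0_63__69_64 : Ent 4 := ⟨[a0, a63], [a69, a111], (M a48 (F (T t1 (L l311 (T t2 (L l397 (T t3 (T t0 (K a16 (M a60 (F (T t43 (T t64 (L l311 (T t65 N)))))) (K a32 (M a60 (F (T t64 (T t67 (L l24 (L l28 (L l311 (T t65 N)))))))) (K a21 (M a192 (F (T t27 (L l104 (L l311 (T t206 (L l47 (L l347 (T t29 N))))))))) (K a37 (M a192 (F (T t19 (L l104 (L l311 (T t206 (L l137 (T t21 N)))))))) (K a53 (M a192 (F (T t19 (L l137 (L l491 (T t21 (L l104 (T t521 N)))))))) (K a26 (M a192 (F (T t27 (L l54 (L l104 (L l311 (T t206 (L l137 (T t21 N))))))))) (K a42 (M a192 (F (T t19 (L l54 (L l104 (L l311 (L l390 (T t206 (L l28 (T t29 N)))))))))) (K a58 (M a192 (F (T t19 (L l137 (T t21 (L l54 (L l104 (L l498 (T t521 N))))))))) (K a15 (M a192 (F (T t57 (L l483 (T t27 (L l104 (L l311 (L l325 (T t206 N))))))))) N)))))))))))))))))⟩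
def e0_63__69_65 : Ent 4 := ⟨[a0, a63], [a69, a112], (M a48 (F (T t1 (L l311 (T t2 (T t3 (T t0 (K a16 (M a60 (F (T t43 (T t64 (L l311 (T t65 N)))))) (K a32 (M a60 (F (T t64 (T t67 (L l24 (L l28 (L l311 (T t65 N)))))))) (K a21 (M a192 (F (L l116 (T t28 (L l47 (L l347 (T t20 (L l47 (L l347 (T t29 N)))))))))) (K a37 (M a192 (F (T t225 (L l28 (L l116 (T t28 (L l114 (T t21 N)))))))) (K a53 (M a192 (F (T t37 (L l116 (T t28 (L l47 (L l491 (T t525 N)))))))) (K a26 (M a192 (F (T t20 (L l116 (T t28 (L l114 (T t21 N))))))) (K a42 (M a192 (F (T t20 (L l28 (L l116 (T t28 (L l28 (T t29 N)))))))) (K a58 (M a192 (F (T t35 (L l116 (T t28 (T t525 N)))))) (K a15 (M a192 (F (T t57 (L l116 (L l483 (T t28 (L l325 (T t20 N)))))))) N))))))))))))))))⟩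
def e0_63__69_66 : Ent 4 := ⟨[a0, a63], [a69, a113], (M a48 (F (T t1 (L l311 (T t2 (T t3 (T t0 (K a16 (M a60 (F (T t43 (T t64 (L l311 (T t65 N)))))) (K a32 (M a60 (F (T t64 (T t67 (L l24 (L l28 (L l311 (T t65 N)))))))) (K a21 (M a192 (F (T t28 (L l47 (L l347 (T t20 (L l47 (L l347 (T t29 N))))))))) (K a37 (M a192 (F (T t19 (L l47 (T t20 (T t21 N)))))) (K a53 (M a192 (F (T t19 (L l491 (T t21 (T t31 N)))))) (K a26 (M a192 (F (T t28 (T t20 (T t21 N))))) (K a42 (M a192 (F (T t19 (T t20 (L l28 (T t29 N)))))) (K a58 (M a192 (F (T t19 (T t21 (L l54 (L l498 (T t31 N))))))) (K a15 (M a192 (F (T t54 (L l106 (L l483 (T t27 (L l469 (T t21 N)))))))) N))))))))))))))))⟩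
def e0_63__69_67 : Ent 4 := ⟨[a0, a63], [a69, a114], (M a48 (F (T t1 (L l311 (T t2 (T t3 (T t0 (K a16 (M a60 (F (T t43 (L l414 (L l417 (T t64 (L l311 (T t65 N)))))))) (K a32 (M a60 (F (T t68 (L l414 (L l417 (T t64 (L l24 (L l28 (L l311 (T t65 N)))))))))) (K a21 (M a192 (F (T t22 (L l106 (L l417 (T t27 (L l47 (L l347 (T t29 N))))))))) (K a37 (M a192 (F (T t225 (L l106 (L l417 (T t27 (T t21 N))))))) (K a53 (M a192 (F (T t37 (L l106 (L l417 (T t27 (T t31 N))))))) (K a26 (M a192 (F (T t20 (L l106 (L l417 (T t27 (T t21 N))))))) (K a42 (M a192 (F (T t20 (L l106 (L l417 (T t27 (L l28 (T t29 N)))))))) (K a58 (M a192 (F (T t21 (L l106 (L l417 (T t27 (L l54 (L l498 (T t31 N))))))))) (K a15 (M a192 (F (T t57 (L l106 (L l417 (L l483 (T t27 (L l325 (T t20 N))))))))) N))))))))))))))))⟩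
def e0_63__69_68 : Ent 4 := ⟨[a0, a63], [a69, a115], (M a48 (F (T t1 (L l311 (T t2 (T t3 (T t0 (K a16 (M a60 (F (T t43 (L l415 (T t64 (L l311 (T t65 N))))))) (K a32 (M a60 (F (T t68 (L l415 (T t64 (L l24 (L l28 (L l311 (T t65 N))))))))) (K a21 (M a192 (F (T t28 (L l47 (L l347 (T t20 (L l47 (L l347 (T t29 N))))))))) (K a37 (M a192 (F (T t19 (L l47 (T t20 (L l113 (T t21 N))))))) (K a53 (M a192 (F (T t19 (L l113 (L l491 (T t21 (T t31 N))))))) (K a26 (M a192 (F (T t28 (T t20 (L l113 (T t21 N)))))) (K a42 (M a192 (F (T t19 (T t20 (L l28 (T t29 N)))))) (K a58 (M a192 (F (T t19 (L l113 (T t21 (L l54 (L l498 (T t31 N)))))))) (K a15 (M a192 (F (T t57 (L l106 (L l483 (T t27 (L l325 (T t20 N)))))))) N))))))))))))))))⟩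
def e0_63__69_69 : Ent 4 := ⟨[a0, a63], [a69, a117], (M a85 (F (T t352 (L l114 (L l440 (T t52 (L l84 (T t89 (L l84 (T t90 (K a64 (M a204 (L l84 (F (T t1575 (L l107 (T t1576 (K a74 (M a79 (F (T t1575 (L l107 (T t1576 N))))) (K a79 (M a74 (F (T t1577 (L l107 (L l120 (T t1578 (T t1575 N))))))) N)))))))) (K a192 (M a16 (F (T t504 (L l84 (L l236 (L l419 (T t1559 (L l296 (T t98 N))))))))) (K a21 (M a12 (F (T t1370 (L l15 (L l114 (L l422 (T t574 (L l114 (T t124 N))))))))) (K a149 (M a4 (F (T t129 (L l422 (T t1371 (L l107 (L l202 (T t1372 N)))))))) (K a213 (Fr a170 a255 l476 (Fr a42 a21 l68 (Fr a106 a234 l390 (Fr a192 a149 l519 (V t581))))) (K a42 (M a12 (F (L l314 (L l440 (T t1373 (L l114 (L l390 (T t124 (L l56 (L l114 (L l422 (T t574 N)))))))))))) (K a106 (M a12 (F (T t122 (L l132 (L l422 (T t123 (L l114 (L l390 (T t124 N))))))))) (K a170 (M a16 (F (L l390 (L l404 (T t97 (L l390 (T t98 (L l114 (L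 l404 (L l419 (T t113 (L l311 (L l404 (T t174 N)))))))))))))) (K a255 (M a48 (F (T t610 (L l114 (L l289 (L l419 (T t100 (L l289 (L l296 (T t568 (L l289 (L l296 (L l311 (T t1579 N)))))))))))))) N)))))))))))))))))))⟩
def e0_63__69_70 : Ent 4 := ⟨[a0, a63], [a69, a118], (M a48 (F (T t1 (L l311 (T t2 (T t3 (T t0 (K a16 (M a60 (F (T t43 (L l438 (L l441 (T t64 (L l311 (T t65 N)))))))) (K a32 (M a60 (F (T t68 (L l438 (L l441 (T t64 (L l24 (L l28 (L l311 (T t65 N)))))))))) (K a21 (M a192 (F (T t28 (L l47 (L l347 (T t20 (L l47 (L l347 (T t29 N))))))))) (K a37 (M a192 (F (T t19 (L l47 (T t20 (T t21 N)))))) (K a53 (M a192 (F (T t19 (L l491 (T t21 (T t31 N)))))) (K a26 (M a192 (F (T t28 (T t20 (T t21 N))))) (K a42 (M a192 (F (T t19 (T t20 (L l28 (T t29 N)))))) (K a58 (M a192 (F (T t19 (T t21 (L l54 (L l498 (T t31 N))))))) (K a15 (M a192 (F (T t47 (L l483 (T t27 (L l325 (T t20 N))))))) N))))))))))))))))⟩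
def e0_63__69_71 : Ent 4 := ⟨[a0, a63], [a69, a119], (M a48 (F (T t1 (L l311 (T t2 (T t3 (T t0 (K a16 (M a60 (F (T t43 (L l439 (T t64 (L l311 (T t65 N))))))) (K a32 (M a60 (F (T t68 (L l439 (T t64 (L l24 (L l28 (L l311 (T t65 N))))))))) (K a21 (M a192 (F (T t28 (L l47 (L l347 (T t20 (L l47 (L l347 (T t29 N))))))))) (K a37 (M a192 (F (T t19 (L l47 (T t20 (L l113 (L l439 (T t21 N)))))))) (K a53 (M a192 (F (T t19 (L l113 (L l439 (L l491 (T t21 (T t31 N)))))))) (K a26 (M a192 (F (T t28 (T t20 (L l113 (L l439 (T t21 N))))))) (K a42 (M a192 (F (T t19 (T t20 (L l28 (T t29 N)))))) (K a58 (M a192 (F (T t19 (L l113 (L l439 (T t21 (L l54 (L l498 (T t31 N))))))))) (K a15 (M a192 (F (T t57 (L l483 (T t27 (L l325 (T t20 N))))))) N))))))))))))))))⟩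
def e0_63__69_72 : Ent 4 := ⟨[a0, a63], [a69, a122], (M a48 (F (T t1 (L l311 (L l426 (T t2 (T t3 (T t0 (K a16 (M a60 (F (T t43 (T t64 (L l311 (L l426 (T t65 N))))))) (K a32 (M a60 (F (T t67 (T t64 (L l24 (L l28 (L l311 (L l426 (T t65 N))))))))) (K a21 (M a192 (F (T t28 (L l47 (L l347 (T t20 (L l47 (L l347 (T t29 N))))))))) (K a37 (M a192 (F (T t19 (L l47 (T t20 (L l114 (T t21 N))))))) (K a53 (M a192 (F (T t19 (L l47 (L l491 (T t35 (L l130 (T t31 N)))))))) (K a26 (M a192 (F (T t28 (T t20 (L l114 (T t21 N)))))) (K a42 (M a192 (F (T t19 (T t20 (L l28 (T t29 N)))))) (K a58 (M a12 (L l426 (F (T t443 (T t122 (T t146 (K a186 (M a250 (F (T t122 (T t445 (T t146 N))))) (K a250 (M a186 (F (T t1580 (L l114 (L l123 (T t1581 N)))))) N)))))))) (K a15 (M a192 (F (T t57 (L l483 (T t19 (L l325 (T t20 N))))))) N)))))))))))))))))⟩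
def e0_63__69_73 : Ent 4 := ⟨[a0, a63], [a69, a123], (M a48 (F (T t1 (L l311 (T t2 (T t3 (T t0 (K a16 (M a60 (F (T t43 (T t64 (L l311 (T t65 N)))))) (K a32 (M a60 (F (T t64 (T t67 (L l24 (L l28 (L l311 (T t65 N)))))))) (K a21 (M a192 (F (T t28 (L l47 (L l347 (T t20 (L l47 (L l347 (T t29 N))))))))) (K a37 (M a192 (F (T t19 (L l47 (T t20 (L l113 (T t21 N))))))) (K a53 (M a192 (F (T t19 (L l113 (L l491 (T t21 (L l132 (T t31 N)))))))) (K a26 (M a192 (F (T t28 (T t20 (L l113 (T t21 N)))))) (K a42 (M a192 (F (T t19 (T t20 (L l28 (T t29 N)))))) (K a58 (M a192 (F (T t19 (L l113 (T t21 (L l54 (L l132 (L l498 (T t31 N))))))))) (K a15 (M a192 (F (T t57 (L l483 (T t27 (L l325 (T t20 N))))))) N))))))))))))))))⟩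
def e0_63__69_74 : Ent 4 := ⟨[a0, a63], [a69, a127], (M a48 (F (T t1 (L l311 (T t2 (T t3 (T t0 (K a16 (M a60 (F (T t43 (T t64 (L l311 (T t65 N)))))) (K a32 (M a60 (F (T t64 (T t67 (L l24 (L l28 (L l311 (T t65 N)))))))) (K a21 (M a192 (F (T t28 (L l47 (L l347 (T t20 (L l18 (L l144 (L l311 (T t224 N)))))))))) (K a37 (M a192 (F (T t19 (L l47 (T t20 (L l28 (L l144 (T t37 N)))))))) (K a53 (M a192 (F (T t19 (L l144 (T t37 (L l47 (L l137 (L l491 (T t525 N))))))))) (K a26 (M a192 (F (T t28 (T t20 (L l54 (L l144 (T t37 N))))))) (K a42 (M a192 (F (T t19 (T t20 (L l54 (L l144 (L l311 (L l390 (T t224 N))))))))) (K a58 (M a192 (F (T t19 (L l54 (L l144 (L l498 (T t37 (L l137 (T t525 N))))))))) (K a15 (M a192 (F (T t56 (L l114 (L l483 (T t27 (L l144 (L l469 (T t37 N))))))))) N))))))))))))))))⟩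
def e0_63__69_75 : Ent 4 := ⟨[a0, a63], [a69, a128], (M a48 (F (T t1 (L l311 (T t2 (T t3 (T t0 (K a16 (M a60 (F (T t43 (T t64 (L l311 (T t65 N)))))) (K a32 (M a60 (F (T t64 (T t67 (L l24 (L l28 (L l311 (T t65 N)))))))) (K a21 (M a154 (F (L l47 (T t493 (L l18 (L l160 (T t806 (L l47 (L l84 (T t527 N)))))))))) (K a37 (M a52 (F (T t83 (L l314 (T t82 (L l21 (L l28 (T t84 N)))))))) (K a53 (M a12 (F (T t151 (T t443 (L l47 (T t146 N)))))) (K a26 (M a56 (F (T t133 (T t134 (L l12 (L l18 (T t135 N))))))) (K a42 (M a154 (F (T t493 (L l160 (T t806 (L l28 (L l84 (T t527 N)))))))) (K a58 (M a12 (F (T t443 (T t122 (T t146 N))))) (K a15 (M a4 (F (T t129 (L l63 (T t528 (T t520 N)))))) N))))))))))))))))⟩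
def e0_63__69_76 : Ent 4 := ⟨[a0, a63], [a69, a129], (M a48 (F (T t1 (L l311 (T t2 (T t3 (T t0 (K a16 (M a60 (F (T t64 (L l14 (L l18 (L l309 (T t67 (L l311 (T t65 N))))))))) (K a32 (M a60 (F (T t64 (L l309 (T t67 (L l24 (L l28 (L l311 (T t65 N))))))))) (K a21 (M a192 (F (T t28 (L l47 (L l217 (L l347 (T t20 (L l47 (L l217 (L l347 (T t29 N))))))))))) (K a37 (M a192 (F (T t19 (L l47 (L l217 (T t20 (L l152 (L l217 (T t21 N))))))))) (K a53 (M a192 (F (T t19 (L l152 (L l217 (L l491 (T t21 (T t31 N)))))))) (K a26 (M a192 (F (T t28 (L l217 (T t20 (L l152 (L l217 (T t21 N)))))))) (K a42 (M a192 (F (T t19 (L l217 (T t20 (L l28 (L l217 (T t29 N)))))))) (K a58 (M a192 (F (T t19 (L l152 (L l217 (T t21 (L l54 (L l498 (T t31 N))))))))) (K a15 (M a192 (F (T t54 (L l152 (L l483 (T t27 (L l152 (L l217 (L l469 (T t21 N)))))))))) N))))))))))))))))⟩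
def e0_63__69_77 : Ent 4 := ⟨[a0, a63], [a69, a130], (M a48 (F (T t1 (L l311 (T t2 (T t3 (T t0 (K a16 (M a60 (F (T t43 (T t64 (L l311 (T t65 N)))))) (K a32 (M a60 (F (T t64 (T t67 (L l24 (L l28 (L l311 (T t65 N)))))))) (K a21 (M a192 (F (T t28 (L l47 (L l347 (T t20 (L l47 (L l347 (T t29 N))))))))) (K a37 (M a192 (F (T t19 (L l47 (T t20 (L l152 (T t21 N))))))) (K a53 (M a192 (F (T t19 (L l152 (L l491 (T t21 (T t31 N))))))) (K a26 (M a192 (F (T t28 (T t20 (L l152 (T t21 N)))))) (K a42 (M a192 (F (T t19 (T t20 (L l28 (T t29 N)))))) (K a58 (M a192 (F (T t19 (L l152 (T t21 (L l54 (L l498 (T t31 N)))))))) (K a15 (M a192 (F (T t33 (L l152 (L l483 (T t27 (L l152 (L l469 (T t21 N))))))))) N))))))))))))))))⟩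
def e0_63__69_78 : Ent 4 := ⟨[a0, a63], [a69, a131], (M a48 (F (T t1 (L l311 (T t2 (T t3 (T t0 (K a16 (M a60 (F (T t64 (L l14 (L l18 (L l307 (T t67 (L l311 (T t65 N))))))))) (K a32 (M a60 (F (T t64 (L l307 (T t67 (L l24 (L l28 (L l311 (T t65 N))))))))) (K a21 (M a192 (F (T t28 (L l47 (L l347 (T t20 (L l47 (L l347 (T t29 N))))))))) (K a37 (M a192 (F (T t19 (L l47 (T t20 (L l152 (T t21 N))))))) (K a53 (M a192 (F (T t19 (L l152 (L l491 (T t21 (T t31 N))))))) (K a26 (M a192 (F (T t28 (T t20 (L l152 (T t21 N)))))) (K a42 (M a192 (F (T t19 (T t20 (L l28 (T t29 N)))))) (K a58 (M a192 (F (T t19 (L l152 (T t21 (L l54 (L l498 (T t31 N)))))))) (K a15 (M a192 (F (T t54 (L l152 (L l483 (T t27 (L l152 (L l469 (T t21 N))))))))) N))))))))))))))))⟩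
def e0_63__69_79 : Ent 4 := ⟨[a0, a63], [a69, a133], (M a85 (L l311 (F (T t52 (L l84 (L l339 (T t88 (L l84 (T t89 (L l84 (L l339 (T t90 (K a64 (M a5 (L l84 (F (T t1110 (L l116 (T t1582 (L l199 (T t1583 (K a74 (M a79 (L l339 (F (L l318 (T t1110 (L l116 (T t1584 (L l130 (L l199 (T t1583 (K a192 (Fr a15 a10 l8 (V t1585)) (K a15 (M a192 (F (T t1586 (L l199 (L l483 (T t1587 (L l75 (T t1588 N)))))))) N)))))))))))) (K a79 (M a74 (F (T t1589 (T t1110 (L l199 (T t1583 N)))))) N)))))))))) (K a192 (M a15 (L l311 (F (T t1590 (L l484 (T t716 (L l160 (L l236 (T t1591 (K a5 (M a197 (F (T t1592 (L l199 (T t1593 (L l296 (T t1594 (T t1595 N)))))))) (K a197 (Fr a5 a10 l8 (V t1596)) N))))))))))) (K a21 (M a60 (L l311 (F (T t936 (T t114 (L l65 (T t523 (K a5 (M a197 (L l47 (F (T t1400 (T t114 (L l65 (T t523 (K a37 (M a53 (F (T t1400 (L l71 (L l75 (T t1336 N)))))) (K a53 (M a37 (F (T t1400 (T t114 (L l35 (L l65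 (T t523 N))))))) N))))))))) (K a197 (M a5 (F (T t1401 (L l18 (L l275 (T t1402 N)))))) N))))))))) (K a149 (M a5 (L l199 (F (T t1582 (L l491 (T t1110 (L l220 (T t1588 (K a10 (Fr a255 a170 l476 (Fr a21 a42 l68 (Fr a53 a37 l47 (Fr a245 a165 l455 (Fr a181 a117 l419 (V t1682)))))) (K a165 (M a181 (F (L l491 (T t1110 (L l180 (L l220 (L l227 (T t1598 (L l180 (L l375 (L l483 (T t1599 N)))))))))))) (K a181 (Fr a165 a245 l455 (V t1600)) N))))))))))) (K a213 (Fr a170 a255 l476 (Fr a42 a21 l68 (Fr a106 a234 l390 (Fr a192 a149 l519 (V t581))))) (K a42 (M a12 (L l311 (F (L l56 (T t1368 (L l390 (T t124 (L l56 (T t574 (K a5 (M a197 (F (L l56 (T t1366 (L l390 (T t124 (L l56 (T t574 N)))))))) (K a197 (M a5 (F (L l56 (T t1601 (L l54 (L l275 (T t1402 N))))))) N))))))))))) (K a106 (M a5 (F (T t1582 (L l390 (T t1110 (L l130 (L l199 (L l390 (L l411 (T t1583 (L l411 (T t1602 N)))))))))))) (K a170 (M a4 (L l311 (F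 (L l464 (T t130 (L l77 (L l390 (T t131 (L l390 (L l464 (T t519 (L l464 (T t938 (K a5 (M a197 (F (L l464 (T t130 (L l77 (L l390 (T t131 (L l390 (L l464 (T t519 (L l464 (T t938 N)))))))))))) (K a197 (M a5 (F (L l275 (T t1603 (L l390 (L l464 (T t519 N))))))) N))))))))))))))) (K a255 (M a4 (L l311 (F (T t129 (L l265 (T t130 (L l77 (L l265 (L l296 (T t131 (K a5 (M a197 (F (T t129 (L l265 (T t130 (L l77 (L l265 (L l296 (T t131 N))))))))) (K a197 (M a5 (F (T t1604 (L l265 (L l266 (L l275 (T t1605 N))))))) N)))))))))))) (K a5 (M a197 (F (T t168 (L l47 (T t1606 (L l84 (L l339 (T t1607 (T t1608 (L l47 (L l84 (T t1609 (K a149 (M a4 (L l199 (F (T t1371 (L l495 (T t519 (L l202 (T t1372 (K a165 (M a181 (F (T t1371 (T t1610 N)))) (K a181 (M a165 (F (T t129 (T t1611 N)))) N)))))))))) (K a170 (M a4 (F (L l464 (T t130 (L l77 (L l390 (T t131 (L l390 (L l464 (T t519 (L l464 (T t938 N)))))))))))) N))))))))))))))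 (K a197 (M a5 (F (T t52 (T t1612 (L l275 (T t1582 N)))))) N)))))))))))))))))))))))⟩
def e0_63__69_80 : Ent 4 := ⟨[a0, a63], [a69, a134], (M a60 (L l314 (F (T t67 (T t43 (T t68 (L l329 (T t69 (K a20 (M a4 (F (T t519 (L l336 (T t1613 (L l14 (T t1614 (L l14 (L l329 (T t1615 (T t1616 N))))))))))) (K a40 (M a4 (F (L l52 (T t1617 (L l22 (T t1618 (L l22 (L l52 (T t519 (L l22 (L l329 (T t1619 (L l22 (L l329 (T t1615 N))))))))))))))) (K a21 (M a150 (L l314 (F (T t1434 (L l65 (L l336 (T t1136 (L l65 (L l84 (L l336 (T t1137 (K a4 (M a199 (L l50 (F (T t1437 (L l65 (L l336 (T t1139 (K a38 (M a55 (F (T t1620 (L l312 (L l384 (T t1621 N)))))) (K a55 (M a38 (F (T t1437 (L l65 (L l84 (L l336 (T t1137 N))))))) N))))))))) (K a199 (M a4 (F (T t1443 (T t1622 N)))) N))))))))))))) (K a41 (M a150 (L l314 (F (L l22 (T t1135 (L l65 (L l336 (T t1136 (L l22 (L l65 (L l84 (L l336 (T t1137 (K a4 (M a199 (F (L l389 (T t1437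 (L l22 (L l65 (L l336 (T t1139 N)))))))) (K a199 (M a4 (F (L l22 (T t1443 (L l389 (T t1622 N)))))) N))))))))))))))) (K a61 (M a4 (F (T t1443 (T t519 (L l35 (T t1623 N)))))) (K a22 (M a4 (F (T t1624 (L l66 (T t519 (L l48 (L l66 (T t1623 N)))))))) (K a42 (M a150 (L l314 (F (T t1622 (L l22 (T t1135 (L l22 (L l84 (L l336 (T t1137 (K a4 (M a199 (F (T t1437 (L l22 (L l336 (T t1139 N)))))) (K a199 (M a4 (F (T t1622 (L l22 (L l56 (T t1443 N)))))) N)))))))))))) (K a62 (M a4 (F (T t1443 (L l66 (T t519 (L l66 (T t1623 N))))))) (K a3 (M a4 (F (T t129 (L l45 (T t1443 (T t1623 N)))))) (K a4 (M a199 (F (T t43 (L l46 (L l50 (T t67 (L l50 (T t68 (L l329 (T t69 (K a20 (M a52 (F (T t1525 (L l123 (L l336 (L l346 (T t1625 N))))))) (K a40 (M a52 (F (L l123 (L l336 (T t1625 (L l50 (L l52 (T t1522 N)))))))) (K a21 (M a55 (F (L l46 (T t1626 (T t1627 (L l123 (T t1628 N))))))) (K a41 (M a52 (F (L l57 (T t1629 (L l22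 (L l123 (T t1630 N))))))) (K a61 (M a52 (F (T t1525 (L l123 (T t1630 N))))) (K a22 (M a52 (F (L l50 (T t1520 (L l123 (T t1630 N)))))) (K a42 (M a52 (F (L l50 (L l54 (T t1520 (L l22 (L l123 (T t1630 N)))))))) (K a62 (M a52 (F (L l50 (T t1522 (L l123 (L l432 (T t1630 N))))))) (K a3 (M a52 (F (T t1629 (L l123 (L l475 (T t1630 N)))))) N))))))))))))))))))) (K a199 (M a4 (F (T t43 (L l494 (T t1443 (L l493 (T t519 N))))))) N)))))))))))))))))))⟩
def e0_63__69_81 : Ent 4 := ⟨[a0, a63], [a69, a135], (M a60 (F (T t67 (T t43 (T t68 (L l329 (T t69 (K a20 (M a48 (F (T t64 (L l11 (L l337 (T t1 (L l11 (L l313 (T t235 N))))))))) (K a40 (M a48 (F (T t64 (L l337 (T t1 (L l52 (L l313 (T t235 N)))))))) (K a21 (M a192 (F (T t72 (L l337 (L l347 (T t73 (L l347 (T t74 N)))))))) (K a41 (M a192 (F (T t79 (L l65 (T t35 (L l337 (T t73 N))))))) (K a61 (M a192 (F (T t72 (L l65 (L l515 (T t35 (L l201 (T t80 N)))))))) (K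 a22 (M a192 (F (T t72 (T t21 (L l337 (T t73 N)))))) (K a42 (M a192 (F (T t79 (L l337 (T t73 (L l22 (T t74 N))))))) (K a62 (M a192 (F (T t72 (T t35 (L l66 (L l201 (L l516 (T t80 N)))))))) (K a3 (M a192 (F (T t1343 (L l477 (T t79 (L l475 (T t35 N))))))) N))))))))))))))))⟩
def e0_63__69_82 : Ent 4 := ⟨[a0, a63], [a69, a138], (M a48 (F (T t3 (L l318 (T t1 (L l311 (T t2 (T t0 (K a16 (M a60 (F (T t43 (T t64 (L l311 (T t65 N)))))) (K a32 (M a60 (F (T t67 (T t64 (L l24 (L l28 (L l311 (T t65 N)))))))) (K a21 (M a192 (F (T t28 (L l47 (L l318 (L l347 (T t20 (L l47 (L l318 (L l347 (T t29 N))))))))))) (K a37 (M a192 (F (T t19 (L l47 (L l318 (T t20 (L l160 (T t21 N)))))))) (K a53 (M a192 (F (T t19 (L l160 (L l491 (T t21 (T t31 N))))))) (K a26 (M a192 (F (T t28 (L l318 (T t20 (L l160 (T t21 N))))))) (K a42 (M a192 (F (T t19 (L l318 (T t20 (L l28 (L l318 (T t29 N)))))))) (K a58 (M a192 (F (T t19 (L l160 (T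 t21 (L l54 (L l498 (T t31 N)))))))) (K a15 (M a192 (F (T t54 (L l160 (L l483 (T t27 (L l160 (L l469 (T t21 N))))))))) N)))))))))))))))))⟩
def e0_63__69_83 : Ent 4 := ⟨[a0, a63], [a69, a139], (M a48 (F (T t1 (L l311 (T t2 (T t3 (T t0 (K a16 (M a60 (F (T t64 (L l14 (L l18 (L l331 (T t67 (L l311 (T t65 N))))))))) (K a32 (M a60 (F (T t64 (L l331 (T t67 (L l24 (L l28 (L l311 (T t65 N))))))))) (K a21 (M a192 (F (T t28 (L l47 (L l331 (L l347 (T t20 (L l47 (L l347 (T t29 N)))))))))) (K a37 (M a192 (F (T t19 (L l47 (L l331 (T t20 (T t21 N))))))) (K a53 (M a192 (F (T t19 (L l491 (T t21 (T t31 N)))))) (K a26 (M a192 (F (T t28 (L l331 (T t20 (T t21 N)))))) (K a42 (M a192 (F (T t19 (L l331 (T t20 (L l28 (T t29 N))))))) (K a58 (M a192 (F (T t19 (T t21 (L l54 (L l498 (T t31 N))))))) (K a15 (M a192 (F (T t56 (L l483 (T t27 (L l469 (T t21 N))))))) N))))))))))))))))⟩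
def e0_63__69_84 : Ent 4 := ⟨[a0, a63], [a69, a143], (M a60 (F (T t67 (T t43 (T t68 (L l329 (T t69 (K a20 (M a48 (F (T t64 (L l11 (L l325 (T t1 (L l11 (T t235 N)))))))) (K a40 (M a48 (F (T t64 (L l325 (T t1 (L l52 (T t235 N))))))) (K a21 (M a192 (F (T t72 (L l347 (T t73 (L l160 (L l347 (T t74 N)))))))) (K a41 (M a192 (F (T t73 (T t79 (L l65 (T t35 N)))))) (K a61 (M a192 (F (T t72 (L l65 (L l515 (T t35 (T t80 N))))))) (K a22 (M a192 (F (T t72 (L l160 (T t21 (T t73 N)))))) (K a42 (M a192 (F (T t79 (T t73 (L l22 (L l160 (T t74 N))))))) (K a62 (M a192 (F (T t72 (T t35 (L l66 (L l516 (T t80 N))))))) (K a3 (M a192 (F (T t1343 (L l477 (T t79 (L l475 (T t35 N))))))) N))))))))))))))))⟩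
def e0_63__69_85 : Ent 4 := ⟨[a0, a63], [a69, a144], (M a60 (F (T t67 (T t43 (T t68 (L l329 (T t69 (K a20 (M a48 (F (T t64 (L l11 (T t1 (L l11 (T t235 N))))))) (K a40 (M a48 (F (T t1 (T t64 (L l52 (T t235 N)))))) (K a21 (M a192 (F (T t72 (L l166 (L l170 (L l347 (T t73 (L l170 (L l192 (L l347 (T t74 N))))))))))) (K a41 (M a192 (F (T t75 (L l166 (T t79 (L l65 (L l170 (T t35 N)))))))) (K a61 (M a192 (F (T t72 (L l65 (L l170 (L l515 (T t35 (T t80 N)))))))) (K a22 (M a192 (F (T t72 (L l170 (L l192 (T t21 (L l166 (L l170 (T t73 N))))))))) (K a42 (M a192 (F (L l22 (T t72 (L l166 (L l170 (T t73 (L l22 (L l170 (L l192 (T t74 N))))))))))) (K a62 (M a192 (F (T t72 (L l170 (T t35 (L l66 (L l516 (T t80 N)))))))) (K a3 (M a192 (F (T t81 (L l166 (L l477 (T t79 (L l170 (L l475 (T t35 N))))))))) N))))))))))))))))⟩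
def e0_63__69_86 : Ent 4 := ⟨[a0, a63], [a69, a145], (M a48 (F (T t1 (L l311 (T t2 (T t3 (T t0 (K a16 (M a60 (F (T t43 (L l489 (T t64 (L l311 (T t65 N))))))) (K a32 (M a60 (F (T t68 (L l489 (T t64 (L l24 (L l28 (L l311 (T t65 N))))))))) (K a21 (M a192 (F (T t22 (L l162 (L l196 (T t27 (L l47 (L l167 (L l347 (T t29 N)))))))))) (K a37 (M a192 (F (T t22 (L l162 (L l196 (T t27 (L l167 (L l196 (T t21 N))))))))) (K a53 (M a192 (F (T t37 (L l162 (L l196 (T t27 (T t31 N))))))) (K a26 (M a192 (F (T t22 (L l162 (L l196 (T t27 (L l167 (L l196 (T t21 N))))))))) (K a42 (M a192 (F (L l162 (T t19 (L l167 (T t20 (L l28 (L l167 (T t29 N))))))))) (K a58 (M a192 (F (L l162 (T t19 (L l167 (L l196 (T t21 (L l54 (L l498 (T t31 N)))))))))) (K a15 (M a192 (F (T t54 (L l162 (L l196 (L l483 (T t27 (L l167 (L l196 (L l469 (T t21 N))))))))))) N))))))))))))))))⟩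
def e0_63__69_87 : Ent 4 := ⟨[a0, a63], [a69, a146], (M a60 (F (T t67 (T t43 (T t68 (L l329 (T t69 (K a20 (M a48 (F (T t70 (L l11 (T t1 (L l11 (T t235 N))))))) (K a40 (M a48 (F (T t1 (L l486 (T t64 (L l52 (T t235 N))))))) (K a21 (M a192 (F (T t72 (L l347 (L l488 (T t73 (L l347 (T t74 N)))))))) (K a41 (M a192 (F (T t79 (L l65 (T t35 (L l488 (T t73 N))))))) (K a61 (M a192 (F (T t72 (L l65 (L l515 (T t35 (T t80 N))))))) (K a22 (M a192 (F (T t72 (T t21 (L l488 (T t73 N)))))) (K a42 (M a192 (F (T t79 (L l488 (T t73 (L l22 (T t74 N))))))) (K a62 (M a192 (F (T t72 (T t35 (L l66 (L l516 (T t80 N))))))) (K a3 (M a192 (F (T t1343 (L l477 (T t79 (L l475 (T t35 N))))))) N))))))))))))))))⟩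
def e0_63__69_88 : Ent 4 := ⟨[a0, a63], [a69, a147], (M a48 (F (T t1 (L l311 (T t2 (T t3 (T t0 (K a16 (M a60 (F (T t43 (L l487 (T t64 (L l311 (T t65 N))))))) (K a32 (M a60 (F (T t68 (L l487 (T t64 (L l24 (L l28 (L l311 (T t65 N))))))))) (K a21 (M a192 (F (T t28 (L l47 (L l347 (T t20 (L l47 (L l347 (T t29 N))))))))) (K a37 (M a192 (F (T t21 (L l162 (T t27 (L l47 (T t20 N))))))) (K a53 (M a192 (F (T t28 (L l491 (T t21 (L l169 (T t31 N))))))) (K a26 (M a192 (F (T t28 (T t20 (T t21 N))))) (K a42 (M a192 (F (T t20 (L l162 (T t27 (L l28 (T t29 N))))))) (K a58 (M a192 (F (T t28 (T t21 (L l54 (L l169 (L l498 (T t31 N)))))))) (K a15 (M a192 (F (T t57 (L l162 (L l483 (T t27 (L l325 (T t20 N)))))))) N))))))))))))))))⟩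
def e0_63__69_89 : Ent 4 := ⟨[a0, a63], [a69, a149], (M a60 (F (L l347 (T t67 (L l351 (T t43 (L l347 (L l515 (T t68 (L l329 (T t69 (K a20 (M a48 (F (T t70 (L l11 (L l347 (L l491 (T t1 (L l11 (L l347 (L l515 (T t235 N))))))))))) (K a40 (M a48 (F (T t70 (L l347 (L l491 (T t1 (L l52 (L l347 (L l515 (T t235 N)))))))))) (K a21 (M a85 (F (T t936 (L l220 (T t114 (L l65 (L l163 (L l515 (T t1631 (L l65 (L l163 (L l220 (L l515 (T t1632 N)))))))))))))) (K a41 (M a32 (F (T t1568 (L l65 (L l347 (T t219 (L l25 (L l65 (L l347 (T t1569 N)))))))))) (K a61 (M a16 (L l515 (F (T t1140 (L l375 (T t97 (L l59 (L l371 (T t1141 (K a193 (M a105 (F (L l228 (T t404 (L l375 (T t97 N)))))) (K a105 (M a193 (F (L l375 (T t97 (L l392 (T t1140 (L l59 (L l371 (L l392 (T t1141 N)))))))))) N))))))))))) (K a22 (M a16 (F (L l19 (T t1140 (L l66 (L l375 (T t97 (L l16 (L l66 (L l371 (T t1141 N))))))))))) (K a42 (M a255 (F (T t1633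 (L l123 (L l347 (T t1634 (L l22 (L l220 (L l390 (L l515 (T t1635 N))))))))))) (K a62 (M a16 (F (T t1140 (L l66 (L l375 (T t97 (L l66 (L l371 (T t1141 N))))))))) (K a3 (M a16 (F (T t1574 (L l7 (L l375 (T t97 (L l371 (T t1141 N)))))))) N))))))))))))))))))))⟩
def e0_63__69_90 : Ent 4 := ⟨[a0, a63], [a69, a150], (M a48 (F (T t1 (L l311 (T t2 (T t3 (T t0 (K a16 (M a60 (F (T t43 (T t64 (L l311 (T t65 N)))))) (K a32 (M a60 (F (T t64 (L l350 (T t67 (L l24 (L l28 (L l311 (T t65 N))))))))) (K a21 (M a192 (F (T t28 (L l47 (L l163 (L l347 (T t20 (L l47 (L l163 (L l347 (T t29 N))))))))))) (K a37 (M a192 (F (T t19 (L l47 (L l163 (T t20 (L l163 (T t21 N)))))))) (K a53 (M a192 (F (T t19 (L l163 (L l491 (T t21 (L l516 (T t31 N)))))))) (K a26 (M a192 (F (T t27 (L l163 (T t20 (L l163 (T t21 N))))))) (K a42 (M a192 (F (T t19 (L l163 (T t20 (L l28 (L l163 (T t29 N)))))))) (K a58 (M a192 (F (T t19 (L l163 (T t21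 (L l54 (L l498 (L l516 (T t31 N))))))))) (K a15 (M a192 (F (T t36 (L l163 (L l325 (T t20 (L l163 (L l469 (T t21 N))))))))) N))))))))))))))))⟩
def e0_63__69_91 : Ent 4 := ⟨[a0, a63], [a69, a151], (M a48 (F (T t1 (L l311 (T t2 (T t3 (L l373 (T t0 (K a16 (M a60 (F (T t64 (L l14 (L l18 (T t67 (L l311 (L l349 (T t65 N))))))))) (K a32 (M a60 (F (T t64 (T t67 (L l24 (L l28 (L l311 (L l349 (T t65 N))))))))) (K a21 (M a192 (F (T t28 (L l47 (L l163 (L l347 (T t20 (L l47 (L l163 (L l347 (T t29 N))))))))))) (K a37 (M a192 (F (T t19 (L l47 (L l163 (T t20 (L l163 (T t21 N)))))))) (K a53 (M a192 (F (T t19 (L l163 (L l491 (T t21 (L l169 (T t31 N)))))))) (K a26 (M a192 (F (T t27 (L l163 (T t20 (L l163 (T t21 N))))))) (K a42 (M a192 (F (T t19 (L l163 (T t20 (L l28 (L l163 (T t29 N)))))))) (K a58 (M a192 (F (T t19 (L l163 (T t21 (L l54 (L l169 (L l498 (T t31 N))))))))) (K a15 (M a192 (F (T t55 (L l163 (L l325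 (T t20 (L l163 (L l469 (T t21 N))))))))) N)))))))))))))))))⟩
def e0_63__69_92 : Ent 4 := ⟨[a0, a63], [a69, a154], (M a60 (F (T t67 (T t43 (T t68 (L l329 (T t69 (K a20 (M a48 (F (T t0 (L l510 (T t64 (L l11 (L l500 (T t235 N)))))))) (K a40 (M a48 (F (T t1 (L l510 (T t64 (L l52 (L l500 (T t235 N)))))))) (K a21 (M a192 (F (T t72 (L l170 (L l347 (T t73 (L l170 (L l347 (T t74 N))))))))) (K a41 (M a192 (F (T t77 (L l65 (L l170 (T t35 (L l170 (T t73 N)))))))) (K a61 (M a192 (F (T t72 (L l65 (L l170 (L l515 (T t35 (L l498 (T t80 N))))))))) (K a22 (M a192 (F (T t72 (L l170 (T t21 (L l170 (T t73 N))))))) (K a42 (M a192 (F (T t77 (L l170 (T t73 (L l22 (L l170 (T t74 N)))))))) (K a62 (M a192 (F (T t72 (L l170 (T t35 (L l66 (L l498 (L l516 (T t80 N))))))))) (K a3 (M a192 (F (T t254 (L l170 (L l475 (T t35 (L l170 (L l307 (T t73 N))))))))) N))))))))))))))))⟩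
def e0_63__69_93 : Ent 4 := ⟨[a0, a63], [a69, a155], (M a48 (F (T t1 (L l311 (T t2 (T t3 (T t0 (K a16 (M a60 (F (T t43 (L l511 (T t64 (L l311 (T t65 N))))))) (K a32 (M a60 (F (T t68 (L l511 (T t64 (L l24 (L l28 (L l311 (T t65 N))))))))) (K a21 (M a192 (F (T t28 (L l47 (L l347 (L l511 (T t20 (L l47 (L l347 (L l367 (T t29 N))))))))))) (K a37 (M a192 (F (T t19 (L l47 (L l511 (T t20 (T t21 N))))))) (K a53 (M a192 (F (T t19 (L l491 (T t21 (L l169 (T t31 N))))))) (K a26 (M a192 (F (T t28 (L l511 (T t20 (T t21 N)))))) (K a42 (M a192 (F (T t19 (L l511 (T t20 (L l28 (L l367 (T t29 N)))))))) (K a58 (M a192 (F (T t19 (T t21 (L l54 (L l169 (L l498 (T t31 N)))))))) (K a15 (M a192 (F (T t57 (L l483 (T t27 (L l325 (L l511 (T t20 N)))))))) N))))))))))))))))⟩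
def e0_63__69_94 : Ent 4 := ⟨[a0, a63], [a69, a159], (M a48 (F (T t1 (L l311 (T t2 (T t3 (L l361 (T t0 (K a16 (M a60 (F (T t43 (T t64 (L l311 (T t65 N)))))) (K a32 (M a60 (F (T t64 (T t67 (L l24 (L l28 (L l311 (T t65 N)))))))) (K a21 (M a192 (F (T t28 (L l47 (L l170 (L l347 (T t20 (L l18 (L l311 (T t224 N)))))))))) (K a37 (M a192 (F (L l84 (T t837 (L l47 (L l170 (T t20 (L l84 (L l213 (T t202 N)))))))))) (K a53 (M a192 (F (T t28 (L l84 (L l213 (T t202 (L l47 (L l170 (L l491 (T t838 N)))))))))) (K a26 (M a192 (F (T t28 (L l170 (T t20 (L l84 (L l213 (T t202 N)))))))) (K a42 (M a192 (F (L l170 (T t20 (L l84 (T t837 (L l54 (L l311 (L l390 (T t224 N)))))))))) (K a58 (M a192 (F (T t28 (L l84 (L l213 (L l498 (T t202 (L l170 (T t838 N))))))))) (K a15 (M a192 (F (L l483 (T t28 (L l170 (L l325 (T t20 (L l84 (L l213 (L l469 (T t202 N))))))))))) N)))))))))))))))))⟩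
def e0_63__69_95 : Ent 4 := ⟨[a0, a63], [a69, a160], (M a60 (F (T t67 (T t43 (T t68 (L l329 (T t69 (K a20 (M a48 (F (T t64 (L l11 (T t1 (L l11 (T t235 N))))))) (K a40 (M a48 (F (T t1 (T t64 (L l52 (T t235 N)))))) (K a21 (M a192 (F (T t72 (L l347 (T t73 (L l192 (L l347 (T t74 N)))))))) (K a41 (M a192 (F (T t79 (L l65 (T t35 (T t73 N)))))) (K a61 (M a192 (F (T t72 (L l65 (L l515 (T t35 (T t80 N))))))) (K a22 (M a192 (F (T t72 (L l192 (T t21 (T t73 N)))))) (K a42 (M a192 (F (T t79 (T t73 (L l22 (L l192 (T t74 N))))))) (K a62 (M a192 (F (T t72 (T t35 (L l66 (L l516 (T t80 N))))))) (K a3 (M a192 (F (T t237 (L l477 (T t79 (L l475 (T t35 N))))))) N))))))))))))))))⟩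
def e0_63__69_96 : Ent 4 := ⟨[a0, a63], [a69, a161], (M a48 (F (T t1 (L l311 (T t2 (T t3 (T t0 (K a16 (M a60 (F (T t64 (L l14 (L l18 (L l453 (T t67 (L l311 (T t65 N))))))))) (K a32 (M a60 (F (T t64 (L l453 (T t67 (L l24 (L l28 (L l311 (T t65 N))))))))) (K a21 (M a192 (F (T t22 (L l453 (T t27 (L l47 (L l347 (T t29 N)))))))) (K a37 (M a192 (F (T t225 (L l453 (T t27 (T t21 N)))))) (K a53 (M a192 (F (T t37 (L l453 (T t27 (T t31 N)))))) (K a26 (M a192 (F (T t21 (L l453 (T t27 (T t20 N)))))) (K a42 (M a192 (F (T t20 (L l453 (T t27 (L l28 (T t29 N))))))) (K a58 (M a192 (F (T t21 (L l453 (T t27 (L l54 (L l498 (T t31 N)))))))) (K a15 (M a192 (F (T t57 (L l453 (L l483 (T t27 (L l325 (T t20 N)))))))) N))))))))))))))))⟩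
def e0_63__69_97 : Ent 4 := ⟨[a0, a63], [a69, a162], (M a60 (F (T t67 (T t43 (L l450 (T t68 (L l329 (T t69 (K a20 (M a48 (F (T t64 (L l11 (T t1 (L l11 (L l450 (T t235 N)))))))) (K a40 (M a48 (F (T t1 (T t64 (L l52 (L l450 (T t235 N))))))) (K a21 (M a192 (F (T t72 (L l347 (T t73 (L l196 (L l347 (T t74 N)))))))) (K a41 (M a192 (F (T t79 (L l65 (T t35 (T t73 N)))))) (K a61 (M a192 (F (T t72 (L l65 (L l515 (T t35 (T t80 N))))))) (K a22 (M a192 (F (T t72 (L l196 (T t21 (T t73 N)))))) (K a42 (M a192 (F (T t79 (T t73 (L l22 (L l196 (T t74 N))))))) (K a62 (M a192 (F (T t72 (T t35 (L l66 (L l516 (T t80 N))))))) (K a3 (M a192 (F (T t237 (L l477 (T t79 (L l475 (T t35 N))))))) N)))))))))))))))))⟩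
def e0_63__69_98 : Ent 4 := ⟨[a0, a63], [a69, a163], (M a48 (F (T t1 (L l311 (T t2 (T t3 (T t0 (K a16 (M a60 (F (T t64 (L l14 (L l18 (L l451 (T t67 (L l311 (T t65 N))))))))) (K a32 (M a60 (F (T t64 (L l451 (T t67 (L l24 (L l28 (L l311 (T t65 N))))))))) (K a21 (M a192 (F (T t28 (L l47 (L l347 (T t20 (L l47 (L l347 (T t29 N))))))))) (K a37 (M a192 (F (T t19 (L l47 (T t20 (T t21 N)))))) (K a53 (M a192 (F (T t19 (L l491 (T t21 (T t31 N)))))) (K a26 (M a192 (F (T t28 (T t20 (T t21 N))))) (K a42 (M a192 (F (T t19 (T t20 (L l28 (T t29 N)))))) (K a58 (M a192 (F (T t19 (T t21 (L l54 (L l498 (T t31 N))))))) (K a15 (M a192 (F (T t47 (L l483 (T t27 (L l325 (T t20 N))))))) N))))))))))))))))⟩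
def e0_63__69_99 : Ent 4 := ⟨[a0, a63], [a69, a165], (M a60 (F (T t67 (T t43 (T t68 (L l329 (T t69 (K a20 (M a48 (F (T t64 (L l11 (L l483 (T t1 (L l11 (L l459 (T t235 N))))))))) (K a40 (M a48 (F (T t64 (L l483 (T t1 (L l52 (L l459 (T t235 N)))))))) (K a21 (M a192 (F (T t72 (L l199 (L l347 (T t73 (L l199 (L l347 (T t74 N))))))))) (K a41 (M a192 (F (T t77 (L l65 (L l199 (T t35 (L l199 (T t73 N)))))))) (K a61 (M a192 (F (T t72 (L l65 (L l199 (L l515 (T t35 (L l411 (T t80 N))))))))) (K a22 (M a192 (F (T t72 (L l199 (T t21 (L l199 (T t73 N))))))) (K a42 (M a192 (F (T t77 (L l199 (T t73 (L l22 (L l199 (T t74 N)))))))) (K a62 (M a192 (F (T t72 (L l199 (T t35 (L l66 (L l411 (L l516 (T t80 N))))))))) (K a3 (M a192 (F (T t254 (L l199 (L l475 (T t35 (L l199 (L l307 (T t73 N))))))))) N))))))))))))))))⟩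
def e0_63__69_100 : Ent 4 := ⟨[a0, a63], [a69, a166], (M a48 (F (T t1 (L l311 (T t2 (T t3 (T t0 (K a16 (M a60 (F (T t43 (T t64 (L l311 (T t65 N)))))) (K a32 (M a60 (F (T t64 (T t67 (L l24 (L l28 (L l311 (T t65 N)))))))) (K a21 (M a192 (F (T t28 (L l47 (L l202 (L l347 (T t20 (L l47 (L l202 (L l347 (T t29 N))))))))))) (K a37 (M a192 (F (T t19 (L l47 (L l202 (T t20 (L l202 (T t21 N)))))))) (K a53 (M a192 (F (T t19 (L l202 (L l491 (T t21 (L l408 (T t31 N)))))))) (K a26 (M a192 (F (T t27 (L l202 (T t20 (L l202 (T t21 N))))))) (K a42 (M a192 (F (T t19 (L l202 (T t20 (L l28 (L l202 (T t29 N)))))))) (K a58 (M a192 (F (T t19 (L l202 (T t21 (L l54 (L l408 (L l498 (T t31 N))))))))) (K a15 (M a192 (F (T t36 (L l202 (L l325 (T t20 (L l202 (L l469 (T t21 N))))))))) N))))))))))))))))⟩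
def e0_63__69_101 : Ent 4 := ⟨[a0, a63], [a69, a167], (M a60 (F (T t67 (T t43 (T t68 (L l329 (T t69 (K a20 (M a48 (F (T t64 (L l11 (L l481 (T t1 (L l11 (L l457 (T t235 N))))))))) (K a40 (M a48 (F (T t64 (L l481 (T t1 (L l52 (L l457 (T t235 N)))))))) (K a21 (M a192 (F (T t72 (L l347 (L l409 (T t73 (L l347 (T t74 N)))))))) (K a41 (M a192 (F (T t79 (L l65 (T t35 (L l409 (T t73 N))))))) (K a61 (M a192 (F (T t72 (L l65 (L l515 (T t35 (L l201 (T t80 N)))))))) (K a22 (M a192 (F (T t72 (T t21 (L l409 (T t73 N)))))) (K a42 (M a192 (F (T t77 (L l409 (T t73 (L l22 (T t74 N))))))) (K a62 (M a192 (F (T t72 (T t35 (L l66 (L l201 (L l516 (T t80 N)))))))) (K a3 (M a192 (F (T t1343 (L l477 (T t79 (L l475 (T t35 N))))))) N))))))))))))))))⟩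
def e0_63__69_102 : Ent 4 := ⟨[a0, a63], [a69, a170], (M a60 (F (T t67 (L l390 (L l392 (T t43 (L l474 (T t68 (L l329 (L l390 (T t69 (K a20 (M a48 (F (T t64 (L l11 (L l462 (T t1 (L l11 (L l474 (T t235 N))))))))) (K a40 (M a48 (L l392 (F (T t64 (L l462 (T t1 (L l52 (L l474 (T t235 (K a105 (M a235 (F (T t70 (L l462 (T t1 (L l52 (L l500 (T t1419 N)))))))) (K a235 (M a105 (F (T t3 (L l218 (T t1217 N))))) N))))))))))) (K a21 (M a192 (F (L l84 (T t1333 (L l390 (T t1516 (L l65 (L l220 (L l347 (L l392 (T t1636 N))))))))))) (K a41 (M a192 (F (T t79 (L l390 (T t1516 (L l22 (L l65 (L l220 (L l392 (T t1636 N)))))))))) (K a61 (M a16 (F (L l392 (L l404 (T t1140 (L l390 (L l404 (T t97 (L l59 (L l390 (L l392 (T t1141 N)))))))))))) (K a22 (M a192 (F (L l84 (T t1333 (L l66 (L l390 (T t1516 (L l220 (L l392 (T t1636 N)))))))))) (K a42 (M a106 (F (T t1512 (L l84 (L l220 (T t565 (L l22 (L l84 (L l218 (L l220 (L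 l392 (T t1637 (L l22 (L l392 (T t1638 N))))))))))))))) (K a62 (M a16 (F (L l392 (L l404 (T t1140 (L l66 (L l390 (L l404 (T t97 (L l66 (L l390 (L l392 (T t1141 N))))))))))))) (K a3 (M a192 (F (L l477 (T t79 (L l307 (L l390 (T t1516 (L l220 (L l392 (T t1636 N)))))))))) N))))))))))))))))))))⟩
def e0_63__69_103 : Ent 4 := ⟨[a0, a63], [a69, a171], (M a48 (F (T t1 (L l311 (T t2 (T t3 (T t0 (K a16 (M a60 (F (T t64 (L l14 (L l18 (L l391 (L l475 (T t67 (L l311 (T t65 N)))))))))) (K a32 (M a60 (F (T t64 (L l391 (L l475 (T t67 (L l24 (L l28 (L l311 (T t65 N)))))))))) (K a21 (M a192 (F (T t28 (L l47 (L l347 (T t20 (L l47 (L l347 (T t29 N))))))))) (K a37 (M a192 (F (T t19 (L l47 (T t20 (L l475 (T t21 N))))))) (K a53 (M a192 (F (T t19 (L l475 (L l491 (T t21 (T t31 N))))))) (K a26 (M a192 (F (T t28 (T t20 (L l475 (T t21 N)))))) (K a42 (M a192 (F (T t19 (T t20 (L l28 (T t29 N)))))) (K a58 (M a192 (F (T t19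 (L l475 (T t21 (L l54 (L l498 (T t31 N)))))))) (K a15 (M a192 (F (T t57 (L l483 (T t27 (L l325 (T t20 N))))))) N))))))))))))))))⟩
def e0_63__69_104 : Ent 4 := ⟨[a0, a63], [a69, a175], (M a60 (F (T t67 (T t43 (T t68 (L l329 (T t69 (K a20 (M a48 (F (T t64 (L l11 (L l469 (T t1 (L l11 (T t235 N)))))))) (K a40 (M a48 (F (T t64 (L l469 (T t1 (L l52 (T t235 N))))))) (K a21 (M a192 (F (T t72 (L l347 (T t73 (L l347 (T t74 N))))))) (K a41 (M a192 (F (T t77 (L l65 (L l469 (T t35 (T t73 N))))))) (K a61 (M a192 (F (T t72 (L l65 (L l469 (L l515 (T t35 (T t80 N)))))))) (K a22 (M a192 (F (T t72 (L l469 (T t21 (T t73 N)))))) (K a42 (M a192 (F (T t79 (T t73 (L l22 (T t74 N)))))) (K a62 (M a192 (F (T t72 (L l469 (T t35 (L l66 (L l516 (T t80 N)))))))) (K a3 (M a192 (F (T t237 (L l477 (T t79 (L l469 (L l475 (T t35 N)))))))) N))))))))))))))))⟩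
def e0_63__69_105 : Ent 4 := ⟨[a0, a63], [a69, a176], (M a48 (F (T t1 (L l311 (T t2 (T t3 (T t0 (K a16 (M a60 (F (T t43 (T t64 (L l311 (T t65 N)))))) (K a32 (M a60 (F (T t64 (T t67 (L l24 (L l28 (L l311 (T t65 N)))))))) (K a21 (M a192 (F (T t22 (L l18 (L l192 (T t19 (L l47 (L l347 (T t29 N))))))))) (K a37 (M a192 (F (T t22 (L l192 (T t19 (L l47 (T t35 N))))))) (K a53 (M a192 (F (T t37 (L l192 (T t19 (T t31 N)))))) (K a26 (M a192 (F (T t20 (L l18 (L l192 (T t19 (L l18 (T t35 N)))))))) (K a42 (M a192 (F (T t20 (L l192 (T t19 (L l28 (T t29 N))))))) (K a58 (M a192 (F (T t35 (L l192 (T t19 (L l54 (L l498 (T t31 N)))))))) (K a15 (M a192 (F (T t54 (L l192 (L l483 (T t19 (L l469 (T t35 N)))))))) N))))))))))))))))⟩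
def e0_63__69_106 : Ent 4 := ⟨[a0, a63], [a69, a177], (M a48 (F (T t1 (L l311 (T t2 (T t3 (T t0 (K a16 (M a60 (F (T t43 (L l417 (T t64 (L l311 (T t65 N))))))) (K a32 (M a60 (F (T t68 (L l417 (T t64 (L l24 (L l28 (L l311 (T t65 N))))))))) (K a21 (M a192 (F (T t22 (L l417 (T t27 (L l47 (L l347 (T t29 N)))))))) (K a37 (M a192 (F (T t225 (L l417 (T t27 (T t21 N)))))) (K a53 (M a192 (F (T t37 (L l417 (T t27 (T t31 N)))))) (K a26 (M a192 (F (T t20 (L l417 (T t27 (T t21 N)))))) (K a42 (M a192 (F (T t20 (L l417 (T t27 (L l28 (T t29 N))))))) (K a58 (M a192 (F (T t21 (L l417 (T t27 (L l54 (L l498 (T t31 N)))))))) (K a15 (M a192 (F (T t47 (L l417 (L l483 (T t27 (L l325 (T t20 N)))))))) N))))))))))))))))⟩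
def e0_63__69_107 : Ent 4 := ⟨[a0, a63], [a69, a178], (M a48 (F (T t1 (L l311 (T t2 (T t3 (T t0 (K a16 (M a60 (F (T t43 (L l414 (T t64 (L l311 (T t65 N))))))) (K a32 (M a60 (F (T t42 (T t67 (L l24 (L l28 (L l311 (T t65 N)))))))) (K a21 (M a192 (F (T t28 (L l47 (L l347 (T t20 (L l47 (L l347 (T t29 N))))))))) (K a37 (M a192 (F (T t19 (L l47 (T t20 (T t21 N)))))) (K a53 (M a192 (F (T t19 (L l491 (T t21 (T t31 N)))))) (K a26 (M a192 (F (T t27 (T t20 (T t21 N))))) (K a42 (M a192 (F (T t19 (T t20 (L l28 (T t29 N)))))) (K a58 (M a192 (F (T t19 (T t21 (L l54 (L l498 (T t31 N))))))) (K a15 (M a192 (F (T t47 (L l483 (T t27 (L l325 (T t20 N))))))) N))))))))))))))))⟩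
def e0_63__69_108 : Ent 4 := ⟨[a0, a63], [a69, a179], (M a48 (F (T t1 (L l311 (T t2 (T t3 (T t0 (K a16 (M a60 (F (T t43 (L l415 (T t64 (L l311 (T t65 N))))))) (K a32 (M a60 (F (T t68 (L l415 (T t64 (L l24 (L l28 (L l311 (T t65 N))))))))) (K a21 (M a192 (F (T t28 (L l47 (L l347 (T t20 (L l47 (L l347 (T t29 N))))))))) (K a37 (M a192 (F (T t19 (L l47 (T t20 (L l196 (T t21 N))))))) (K a53 (M a192 (F (T t19 (L l196 (L l491 (T t21 (T t31 N))))))) (K a26 (M a192 (F (T t28 (T t20 (L l196 (T t21 N)))))) (K a42 (M a192 (F (T t19 (T t20 (L l28 (T t29 N)))))) (K a58 (M a192 (F (T t19 (L l196 (T t21 (L l54 (L l498 (T t31 N)))))))) (K a15 (M a192 (F (T t54 (L l196 (L l483 (T t27 (L l196 (L l469 (T t21 N))))))))) N))))))))))))))))⟩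
def e0_63__69_109 : Ent 4 := ⟨[a0, a63], [a69, a181], (M a12 (F (T t122 (T t151 (L l314 (T t152 (L l423 (T t153 (K a4 (M a60 (L l314 (F (T t43 (L l443 (T t398 (T t448 (K a134 (M a199 (F (T t402 (L l329 (T t69 (T t448 N)))))) (K a199 (M a134 (F (T t680 (L l81 (L l494 (T t1427 N)))))) N))))))))) (K a8 (M a60 (F (T t67 (L l443 (T t398 (L l52 (L l56 (T t448 N)))))))) (K a21 (M a192 (F (T t468 (L l15 (L l199 (L l347 (T t450 (L l15 (L l199 (L l347 (T t157 N))))))))))) (K a25 (M a192 (F (T t221 (T t156 (L l199 (T t21 N)))))) (K a29 (M a192 (F (T t468 (L l199 (L l371 (T t21 (L l183 (T t160 N)))))))) (K a38 (M a192 (F (T t156 (L l199 (T t450 (L l199 (T t21 N))))))) (K a42 (M a192 (F (T t156 (L l199 (T t450 (L l56 (L l199 (T t157 N)))))))) (K a46 (M a192 (F (T t468 (L l199 (T t21 (L l26 (L l183 (L l408 (T t160 N))))))))) (K a51 (M a192 (F (T t155 (L l513 (T t156 (L l199 (L l439 (T t21 N)))))))) N)))))))))))))))))⟩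
def e0_63__69_110 : Ent 4 := ⟨[a0, a63], [a69, a182], (M a48 (F (T t1 (L l311 (T t2 (T t3 (T t0 (K a16 (M a60 (F (T t43 (T t64 (L l311 (T t65 N)))))) (K a32 (M a60 (F (T t67 (T t64 (L l24 (L l28 (L l311 (T t65 N)))))))) (K a21 (M a192 (F (T t28 (L l47 (L l347 (T t20 (L l47 (L l347 (T t29 N))))))))) (K a37 (M a192 (F (T t19 (L l47 (T t20 (T t21 N)))))) (K a53 (M a192 (F (T t19 (L l491 (T t21 (T t31 N)))))) (K a26 (M a192 (F (T t28 (T t20 (T t21 N))))) (K a42 (M a192 (F (T t19 (T t20 (L l28 (T t29 N)))))) (K a58 (M a192 (F (T t19 (T t21 (L l54 (L l498 (T t31 N))))))) (K a15 (M a192 (F (T t47 (L l483 (T t27 (L l325 (T t20 N))))))) N))))))))))))))))⟩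
def e0_63__69_111 : Ent 4 := ⟨[a0, a63], [a69, a183], (M a48 (F (T t1 (L l311 (T t2 (T t3 (T t0 (K a16 (M a60 (F (T t43 (T t64 (L l311 (T t65 N)))))) (K a32 (M a60 (F (T t64 (T t67 (L l24 (L l28 (L l311 (T t65 N)))))))) (K a21 (M a192 (F (T t28 (L l47 (L l202 (L l347 (T t20 (L l47 (L l202 (L l347 (T t29 N))))))))))) (K a37 (M a192 (F (T t19 (L l47 (L l202 (T t20 (L l202 (T t21 N)))))))) (K a53 (M a192 (F (T t19 (L l202 (L l491 (T t21 (T t31 N))))))) (K a26 (M a192 (F (T t27 (L l202 (T t20 (L l202 (T t21 N))))))) (K a42 (M a192 (F (T t19 (L l202 (T t20 (L l28 (L l202 (T t29 N)))))))) (K a58 (M a192 (F (T t19 (L l202 (T t21 (L l54 (L l498 (T t31 N)))))))) (K a15 (M a85 (F (T t567 (T t568 N)))) N))))))))))))))))⟩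
def e0_63__69_112 : Ent 4 := ⟨[a0, a63], [a69, a186], (M a60 (F (T t67 (T t43 (T t68 (L l329 (T t69 (K a20 (M a48 (F (T t0 (L l438 (T t64 (L l11 (L l428 (T t235 N)))))))) (K a40 (M a48 (F (T t1 (L l438 (T t64 (L l52 (L l428 (T t235 N)))))))) (K a21 (M a192 (F (T t72 (L l347 (T t73 (L l347 (T t74 N))))))) (K a41 (M a192 (F (T t77 (L l65 (L l440 (T t35 (T t73 N))))))) (K a61 (M a192 (F (T t72 (L l65 (L l440 (L l515 (T t35 (T t80 N)))))))) (K a22 (M a192 (F (T t72 (L l440 (T t21 (T t73 N)))))) (K a42 (M a192 (F (T t79 (T t73 (L l22 (T t74 N)))))) (K a62 (M a192 (F (T t72 (L l440 (T t35 (L l66 (L l516 (T t80 N)))))))) (K a3 (M a192 (F (T t237 (L l477 (T t79 (L l440 (L l475 (T t35 N)))))))) N))))))))))))))))⟩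
def e0_63__69_113 : Ent 4 := ⟨[a0, a63], [a69, a187], (M a48 (F (T t1 (L l311 (T t2 (T t3 (T t0 (K a16 (M a60 (F (T t43 (L l439 (T t64 (L l311 (T t65 N))))))) (K a32 (M a60 (F (T t68 (L l439 (T t64 (L l24 (L l28 (L l311 (T t65 N))))))))) (K a21 (M a192 (F (T t28 (L l47 (L l347 (T t20 (L l47 (L l347 (T t29 N))))))))) (K a37 (M a192 (F (T t19 (L l47 (T t20 (L l439 (T t21 N))))))) (K a53 (M a192 (F (T t19 (L l439 (L l491 (T t21 (T t31 N))))))) (K a26 (M a192 (F (T t28 (T t20 (L l439 (T t21 N)))))) (K a42 (M a192 (F (T t19 (T t20 (L l28 (T t29 N)))))) (K a58 (M a192 (F (T t19 (L l439 (T t21 (L l54 (L l498 (T t31 N)))))))) (K a15 (M a192 (F (T t33 (L l483 (T t27 (L l439 (L l469 (T t21 N)))))))) N))))))))))))))))⟩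
def e0_63__69_114 : Ent 4 := ⟨[a0, a63], [a69, a191], (M a48 (F (T t1 (L l311 (T t2 (T t3 (T t0 (K a16 (M a60 (F (T t43 (T t64 (L l311 (T t65 N)))))) (K a32 (M a60 (F (T t64 (T t67 (L l24 (L l28 (L l311 (T t65 N)))))))) (K a21 (M a192 (F (T t28 (L l311 (T t206 (L l47 (L l220 (L l347 (T t29 N))))))))) (K a37 (M a192 (F (T t19 (L l311 (T t206 (L l47 (L l220 (T t35 N)))))))) (K a53 (M a192 (F (T t19 (L l47 (L l220 (L l491 (T t35 (L l213 (T t31 N))))))))) (K a26 (M a192 (F (T t28 (L l54 (L l311 (T t206 (L l18 (L l220 (T t35 N))))))))) (K a42 (M a192 (F (T t19 (L l54 (L l311 (L l390 (T t206 (L l28 (L l220 (T t29 N)))))))))) (K a58 (M a192 (F (T t19 (L l220 (T t35 (L l54 (L l213 (L l498 (T t31 N))))))))) (K a15 (M a192 (F (L l483 (T t19 (L l311 (L l325 (T t206 (L l220 (L l469 (T t35 N)))))))))) N))))))))))))))))⟩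
def e0_63__69_115 : Ent 4 := ⟨[a0, a63], [a69, a192], (M a60 (F (T t116 (L l309 (T t67 (L l309 (T t43 (L l309 (T t68 (L l309 (L l329 (T t69 (K a20 (M a48 (F (T t138 (L l11 (L l339 (T t1 (L l11 (T t235 N)))))))) (K a40 (M a48 (F (T t48 (L l489 (T t64 (L l52 (T t235 N))))))) (K a21 (M a255 (F (T t1639 (L l11 (L l123 (L l228 (L l347 (T t1634 (L l65 (L l228 (T t1635 N))))))))))) (K a41 (M a32 (F (T t1568 (L l65 (L l339 (T t219 (L l25 (L l65 (T t1569 N))))))))) (K a61 (M a16 (F (T t504 (L l334 (T t1140 (L l59 (T t1141 N))))))) (K a22 (M a16 (F (L l66 (T t504 (L l19 (L l334 (T t1140 (L l16 (L l66 (T t1141 N)))))))))) (K a42 (M a255 (F (T t1640 (L l123 (L l228 (T t1634 (L l22 (L l228 (L l390 (T t1635 N)))))))))) (K a62 (M a16 (F (T t1574 (L l66 (L l339 (T t97 (L l66 (T t1141 N)))))))) (K a3 (M a16 (L l309 (F (T t504 (L l9 (L l334 (T t1140 (T t1141 (K a129 (M a66 (F (T t504 (L l9 (L l334 (T t1140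 (T t1141 N))))))) (K a66 (M a129 (F (T t504 (L l9 (L l334 (T t1140 (T t1141 N))))))) N)))))))))) N)))))))))))))))))))))⟩
def e0_63__69_116 : Ent 4 := ⟨[a0, a63], [a69, a193], (M a48 (F (T t1 (L l311 (T t2 (T t3 (T t0 (K a16 (M a60 (F (T t43 (L l515 (T t64 (L l311 (T t65 N))))))) (K a32 (M a60 (F (T t42 (T t67 (L l24 (L l28 (L l311 (T t65 N)))))))) (K a21 (M a192 (F (T t28 (L l47 (L l347 (L l515 (T t20 (L l47 (L l347 (L l515 (T t29 N))))))))))) (K a37 (M a192 (F (T t19 (L l47 (L l515 (T t20 (L l515 (T t21 N)))))))) (K a53 (M a192 (F (T t19 (L l491 (L l515 (T t21 (L l293 (T t31 N)))))))) (K a26 (M a192 (F (T t27 (L l515 (T t20 (L l515 (T t21 N))))))) (K a42 (M a192 (F (T t19 (L l515 (T t20 (L l28 (L l515 (T t29 N)))))))) (K a58 (M a192 (F (T t19 (L l515 (T t21 (L l54 (L l293 (L l498 (T t31 N))))))))) (K a15 (M a85 (F (T t567 (L l293 (T t568 N))))) N))))))))))))))))⟩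
def e0_63__69_117 : Ent 4 := ⟨[a0, a63], [a69, a194], (M a48 (F (T t1 (L l311 (T t2 (T t3 (T t0 (K a16 (M a60 (F (T t43 (L l486 (T t64 (L l311 (T t65 N))))))) (K a32 (M a60 (F (T t42 (T t67 (L l24 (L l28 (L l311 (T t65 N)))))))) (K a21 (M a192 (F (T t28 (L l47 (L l234 (L l347 (T t20 (L l47 (L l234 (L l347 (T t29 N))))))))))) (K a37 (M a192 (F (T t19 (L l47 (L l234 (T t20 (T t21 N))))))) (K a53 (M a192 (F (T t19 (L l491 (T t21 (L l516 (T t31 N))))))) (K a26 (M a192 (F (T t27 (L l234 (T t20 (T t21 N)))))) (K a42 (M a192 (F (T t19 (L l234 (T t20 (L l28 (L l234 (T t29 N)))))))) (K a58 (M a192 (F (T t19 (T t21 (L l54 (L l498 (L l516 (T t31 N)))))))) (K a15 (M a85 (F (T t567 (T t568 N)))) N))))))))))))))))⟩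
def e0_63__69_118 : Ent 4 := ⟨[a0, a63], [a69, a195], (M a48 (F (T t48 (L l337 (T t1 (L l311 (L l337 (T t2 (L l337 (T t3 (L l337 (T t0 (K a16 (M a60 (F (T t138 (L l14 (L l18 (L l307 (T t67 (L l311 (T t65 N))))))))) (K a32 (M a60 (F (T t116 (L l487 (T t64 (L l24 (L l28 (L l311 (T t65 N))))))))) (K a21 (M a192 (F (T t54 (L l273 (T t27 (L l47 (L l347 (T t29 N)))))))) (K a37 (M a192 (F (T t54 (L l273 (T t27 (L l295 (T t21 N))))))) (K a53 (M a192 (F (T t55 (L l295 (L l491 (T t21 (T t31 N))))))) (K a26 (M a192 (F (T t56 (L l273 (T t27 (L l295 (T t21 N))))))) (K a42 (M a192 (F (T t56 (L l273 (T t27 (L l28 (T t29 N))))))) (K a58 (M a192 (F (T t57 (L l273 (T t27 (L l54 (L l498 (T t31 N)))))))) (K a15 (M a85 (L l337 (F (T t567 (T t568 (K a135 (M a75 (F (T t100 (L l273 (L l483 (T t50 (L l295 (L l469 (T t924 N))))))))) (K a75 (M a135 (F (T t100 (L l273 (L l483 (T t50 (L l295 (L l469 (T t924 N)))))))))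 N))))))) N)))))))))))))))))))))⟩
def e0_63__69_119 : Ent 4 := ⟨[a0, a63], [a69, a197], (M a85 (L l311 (F (T t52 (L l84 (L l236 (L l275 (T t88 (L l84 (L l275 (T t89 (L l84 (L l236 (T t90 (K a64 (M a5 (L l84 (F (T t1612 (L l116 (L l275 (T t1582 (T t1583 (K a74 (M a79 (F (L l318 (T t1612 (L l116 (L l275 (T t1584 (L l130 (T t1583 N))))))))) (K a79 (M a74 (F (T t1612 (L l151 (L l275 (T t1641 (T t1583 N))))))) N)))))))))) (K a192 (M a5 (L l236 (F (T t1642 (L l484 (L l491 (T t1110 (T t1583 (K a202 (M a207 (F (L l318 (T t1612 (L l275 (L l296 (T t1584 (L l275 (L l296 (L l484 (T t1643 N))))))))))) (K a207 (M a202 (F (T t1642 (L l484 (L l491 (L l512 (T t1110 (T t1583 N)))))))) N)))))))))) (K a21 (M a60 (L l311 (F (T t936 (T t114 (L l65 (T t523 (K a5 (M a133 (L l47 (F (T t1400 (T t114 (L l65 (T t523 (K a37 (M a53 (F (T t936 (L l50 (L l71 (T t937 N)))))) (K a53 (M a37 (L l491 (F (T t1400 (T t114 (L l35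 (L l65 (T t523 (K a149 (M a101 (F (L l220 (T t114 (L l229 (L l236 (L l314 (T t1644 N)))))))) (K a101 (M a149 (F (T t1645 (L l81 (L l101 (L l419 (T t1323 N))))))) N)))))))))) N))))))))) (K a133 (M a5 (F (T t1401 (L l18 (L l275 (T t1402 N)))))) N))))))))) (K a149 (M a5 (L l491 (F (T t1612 (L l275 (T t1582 (L l199 (T t1583 (K a101 (M a53 (F (T t1646 (L l151 (L l275 (L l375 (T t1641 N))))))) (K a53 (M a101 (F (T t1647 (L l275 (L l419 (T t1582 (L l275 (L l419 (T t1648 (L l275 (L l375 (L l419 (T t1649 N))))))))))))) N)))))))))) (K a213 (Fr a170 a255 l476 (Fr a42 a21 l68 (Fr a106 a234 l390 (Fr a192 a149 l519 (V t581))))) (K a42 (M a12 (L l311 (F (L l56 (T t1368 (L l390 (T t124 (L l56 (T t574 (K a5 (M a133 (F (L l56 (T t1366 (L l390 (T t124 (L l56 (T t574 N)))))))) (K a133 (M a5 (F (L l56 (T t1601 (L l54 (L l275 (T t1402 N))))))) N))))))))))) (K a106 (M a5 (F (L l275 (T t1582 (L l390 (L l491 (T t1110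 (L l130 (L l390 (L l411 (T t1583 (L l275 (L l411 (T t1602 N)))))))))))))) (K a170 (M a4 (L l311 (F (L l464 (T t130 (L l77 (L l275 (L l390 (T t131 (L l390 (L l464 (T t519 (L l464 (T t938 (K a5 (M a133 (F (L l464 (T t130 (L l77 (L l275 (L l390 (T t131 (L l390 (L l464 (T t519 (L l464 (T t938 N))))))))))))) (K a133 (M a5 (F (L l275 (T t1603 (L l390 (L l464 (T t519 N))))))) N)))))))))))))))) (K a255 (M a5 (F (T t1612 (L l266 (L l275 (T t1402 (L l266 (L l275 (T t1650 (L l275 (L l296 (T t1651 (K a10 (Fr a165 a245 l455 (Fr a21 a42 l68 (Fr a37 a53 l47 (Fr a149 a213 l347 (Fr a229 a101 l383 (V t1683)))))) N))))))))))))) (K a5 (M a133 (F (L l47 (T t52 (L l84 (L l236 (T t1653 (L l275 (T t1654 (L l275 (T t1655 (L l275 (T t1656 (L l84 (L l275 (T t1657 (K a149 (M a48 (L l491 (F (L l47 (T t3 (L l220 (T t50 (L l47 (L l170 (T t1658 (K a101 (Fr a53 a58 l38 (V t1659)) (K a53 (M a101 (L l47 (F (T t1660 (T t1661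 (L l170 (L l220 (L l375 (T t1662 (K a21 (M a37 (F (T t1663 (L l236 (L l275 (T t1664 N)))))) (K a37 (Fr a21 a42 l68 (V t1661)) N))))))))))) N)))))))))))) (K a170 (M a4 (F (L l464 (T t130 (L l77 (L l275 (L l390 (T t131 (L l390 (L l464 (T t519 (L l464 (T t938 N))))))))))))) N)))))))))))))))))) (K a133 (M a5 (F (T t52 (T t1612 (L l275 (T t1582 N)))))) N)))))))))))))))))))))))))⟩
def e0_63__69_120 : Ent 4 := ⟨[a0, a63], [a69, a198], (M a48 (F (T t1 (L l311 (T t2 (T t3 (T t0 (K a16 (M a60 (F (T t43 (T t64 (L l311 (T t65 N)))))) (K a32 (M a60 (F (T t64 (T t67 (L l24 (L l28 (L l311 (T t65 N)))))))) (K a21 (M a192 (F (T t28 (L l47 (L l234 (L l347 (T t20 (L l47 (L l234 (L l347 (T t29 N))))))))))) (K a37 (M a192 (F (T t19 (L l47 (L l234 (T t20 (T t21 N))))))) (K a53 (M a192 (F (T t19 (L l491 (T t21 (T t31 N)))))) (K a26 (M a192 (F (T t27 (L l234 (T t20 (T t21 N)))))) (K a42 (M a192 (F (T t19 (L l234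 (T t20 (L l28 (L l234 (T t29 N)))))))) (K a58 (M a192 (F (T t19 (T t21 (L l54 (L l498 (T t31 N))))))) (K a15 (M a192 (F (T t57 (L l483 (T t27 (L l234 (L l325 (T t20 N)))))))) N))))))))))))))))⟩
def e0_63__69_121 : Ent 4 := ⟨[a0, a63], [a69, a199], (M a60 (L l314 (F (T t67 (T t43 (T t68 (L l329 (T t69 (K a20 (M a4 (F (T t129 (T t1613 (L l14 (L l493 (T t1614 (L l14 (L l329 (L l493 (T t1615 (L l494 (T t1616 N))))))))))))) (K a40 (M a4 (F (L l52 (T t1613 (L l22 (L l494 (T t1618 (L l22 (L l52 (L l493 (T t519 (L l22 (L l329 (L l493 (T t1619 (L l22 (L l329 (L l493 (T t1615 N))))))))))))))))))) (K a21 (M a12 (L l314 (F (T t680 (L l494 (T t409 (L l11 (L l15 (L l65 (T t1665 (L l18 (L l494 (T t1666 (K a4 (M a134 (L l50 (F (T t680 (L l81 (L l494 (T t1427 (K a38 (M a55 (F (L l81 (T t1667 (L l65 (L l72 (T t1668 N))))))) (K a55 (M a38 (L l493 (F (L l15 (T t1669 (L l81 (T t1667 (K a151 (M a103 (F (L l15 (T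 t1669 (L l81 (T t1667 N)))))) (K a103 (M a151 (F (T t1670 (L l15 (T t1669 N))))) N))))))))) N))))))))) (K a134 (Fr a4 a8 l4 (V t1671)) N))))))))))))))) (K a41 (M a12 (L l314 (F (T t410 (L l65 (T t122 (L l65 (T t398 (K a4 (M a134 (F (T t680 (L l81 (L l494 (T t1427 N)))))) (K a134 (Fr a4 a8 l4 (V t1671)) N)))))))))) (K a61 (M a4 (F (T t129 (L l494 (T t1443 (L l35 (T t1623 N))))))) (K a22 (M a4 (F (T t1624 (L l66 (L l493 (T t519 (L l48 (L l66 (T t1623 N))))))))) (K a42 (M a192 (L l314 (F (T t79 (L l235 (T t73 (L l22 (L l277 (T t74 (K a4 (M a134 (F (T t77 (L l235 (L l390 (L l493 (T t75 (L l22 (L l277 (T t74 N)))))))))) (K a134 (M a4 (F (T t77 (L l56 (T t1672 N))))) N))))))))))) (K a62 (M a4 (F (T t1624 (L l66 (L l493 (T t519 (L l66 (T t1623 N)))))))) (K a3 (M a4 (F (T t129 (L l45 (L l494 (T t1443 (T t1623 N))))))) (K a4 (M a134 (F (T t43 (L l46 (L l50 (T t67 (L l50 (T t68 (L l329 (T t69 (K a20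 (M a52 (F (T t1629 (L l1 (L l11 (L l50 (L l313 (T t1521 (T t1525 N))))))))) (K a40 (M a106 (F (T t564 (T t1673 N)))) (K a21 (M a12 (L l50 (F (T t680 (L l81 (L l494 (T t1427 (K a38 (M a55 (F (L l81 (T t1667 (L l65 (L l72 (T t1668 N))))))) (K a55 (M a38 (L l493 (F (L l15 (T t1669 (L l81 (T t1667 (K a151 (M a103 (F (L l15 (T t1669 (L l81 (T t1667 N)))))) (K a103 (M a151 (F (T t1670 (L l15 (T t1669 N))))) N))))))))) N))))))))) (K a41 (M a12 (F (T t680 (L l81 (L l494 (T t1427 N)))))) (K a61 (M a28 (F (L l81 (L l515 (T t1674 (L l59 (T t1354 N))))))) (K a22 (M a12 (F (T t398 (L l81 (L l348 (L l494 (T t1427 N))))))) (K a42 (M a12 (F (T t398 (L l81 (L l494 (T t1427 N)))))) (K a62 (M a28 (F (L l81 (T t1675 (L l66 (T t1354 N)))))) (K a3 (M a12 (F (T t423 (L l81 (L l475 (L l494 (T t1427 N))))))) N))))))))))))))))))) (K a134 (M a4 (F (T t43 (L l494 (T t1443 (L l493 (T t519 N))))))) N)))))))))))))))))))⟩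
def e0_63__69_122 : Ent 4 := ⟨[a0, a63], [a69, a202], (M a48 (F (T t3 (L l318 (T t1 (L l311 (L l498 (T t2 (T t0 (K a16 (M a60 (F (T t43 (T t64 (L l311 (L l498 (T t65 N))))))) (K a32 (M a60 (F (T t67 (T t64 (L l24 (L l28 (L l311 (L l498 (T t65 N))))))))) (K a21 (M a192 (F (T t27 (L l498 (T t22 (L l18 (L l84 (L l498 (T t46 N))))))))) (K a37 (M a192 (F (T t19 (L l498 (T t22 (T t21 N)))))) (K a53 (M a192 (F (T t19 (L l491 (T t21 (L l498 (T t31 N))))))) (K a26 (M a192 (F (T t28 (L l498 (T t22 (T t21 N)))))) (K a42 (M a192 (F (T t27 (L l390 (L l498 (T t22 (L l84 (L l390 (L l498 (T t46 N)))))))))) (K a58 (M a106 (F (T t564 (L l84 (T t551 (L l282 (T t599 N))))))) (K a15 (M a85 (F (T t567 (T t568 N)))) N))))))))))))))))))⟩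
def e0_63__69_123 : Ent 4 := ⟨[a0, a63], [a69, a203], (M a48 (F (T t1 (L l311 (T t2 (T t3 (T t0 (K a16 (M a60 (F (T t43 (T t64 (L l311 (T t65 N)))))) (K a32 (M a60 (F (T t67 (T t64 (L l24 (L l28 (L l311 (T t65 N)))))))) (K a21 (M a192 (F (T t28 (L l47 (L l230 (L l235 (L l347 (T t20 (L l47 (L l230 (L l347 (T t29 N)))))))))))) (K a37 (M a192 (F (T t19 (L l47 (L l230 (L l235 (T t20 (T t21 N)))))))) (K a53 (M a192 (F (T t19 (L l491 (T t21 (T t31 N)))))) (K a26 (M a192 (F (T t28 (L l230 (L l235 (T t20 (T t21 N))))))) (K a42 (M a192 (F (T t19 (L l230 (L l235 (T t20 (L l28 (L l230 (T t29 N))))))))) (K a58 (M a192 (F (T t19 (T t21 (L l54 (L l498 (T t31 N))))))) (K a15 (M a192 (F (T t57 (L l483 (T t27 (L l230 (L l235 (L l325 (T t20 N))))))))) N))))))))))))))))⟩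
def e0_63__69_124 : Ent 4 := ⟨[a0, a63], [a69, a207], (M a48 (F (T t48 (L l325 (T t1 (L l311 (L l325 (T t2 (L l325 (T t3 (L l325 (T t0 (K a16 (M a60 (F (T t138 (L l14 (L l18 (L l331 (T t67 (L l311 (T t65 N))))))))) (K a32 (M a60 (F (T t116 (L l511 (T t64 (L l24 (L l28 (L l311 (T t65 N))))))))) (K a21 (M a80 (F (T t61 (L l47 (L l289 (T t942 (L l84 (L l289 (T t1676 (L l47 (L l84 (L l236 (T t1677 N))))))))))))) (K a37 (M a192 (F (T t55 (L l289 (T t21 (L l28 (T t31 N))))))) (K a53 (M a192 (F (T t55 (L l289 (L l491 (T t21 (T t31 N))))))) (K a26 (M a192 (F (L l303 (T t27 (L l289 (T t21 (L l54 (T t31 N)))))))) (K a42 (M a80 (F (L l303 (T t1678 (L l289 (T t942 (L l28 (L l84 (L l289 (L l390 (T t1676 (L l28 (L l84 (L l236 (T t1677 N))))))))))))))) (K a58 (M a192 (F (T t57 (L l303 (T t27 (L l54 (L l498 (T t31 N)))))))) (K a15 (M a192 (L l325 (F (T t57 (L l303 (L l483 (T t27 (T t31 (K a79 (M a143 (L l84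 (F (T t36 (L l289 (L l469 (T t35 (L l137 (T t525 (K a64 (M a74 (F (L l137 (T t525 (L l151 (L l483 (T t1679 (L l116 (L l311 (T t1680 N)))))))))) (K a74 (Fr a64 a128 l304 (V t392)) N))))))))))) (K a143 (M a79 (F (T t1681 (L l303 (L l483 (T t28 (T t525 N))))))) N)))))))))) N)))))))))))))))))))))⟩
def e0_63__69_125 : Ent 4 := ⟨[a0, a63], [a69, a208], (M a60 (F (T t67 (T t43 (T t68 (L l329 (T t69 (K a20 (M a48 (F (T t64 (L l11 (T t1 (L l11 (T t235 N))))))) (K a40 (M a48 (F (T t1 (T t64 (L l52 (T t235 N)))))) (K a21 (M a192 (F (T t1516 (L l11 (L l370 (T t79 (L l347 (L l375 (T t74 N))))))))) (K a41 (M a192 (F (T t1516 (L l370 (T t79 (L l65 (L l375 (T t35 N)))))))) (K a61 (M a192 (F (L l242 (T t72 (L l65 (L l375 (L l515 (T t35 (L l246 (T t80 N)))))))))) (K a22 (M a192 (F (T t75 (L l11 (L l370 (T t79 (L l11 (L l375 (T t35 N))))))))) (K a42 (M a192 (F (L l370 (T t77 (L l375 (T t569 (L l22 (L l375 (T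 t74 N))))))))) (K a62 (M a192 (F (L l242 (T t72 (L l375 (T t35 (L l66 (L l246 (L l516 (T t80 N)))))))))) (K a3 (M a192 (F (T t81 (L l370 (L l477 (T t79 (L l375 (L l475 (T t35 N))))))))) N))))))))))))))))⟩
def e0_63__69_126 : Ent 4 := ⟨[a0, a63], [a69, a209], (M a48 (F (T t1 (L l311 (T t2 (T t3 (T t0 (K a16 (M a60 (F (T t43 (T t64 (L l311 (T t65 N)))))) (K a32 (M a60 (F (T t64 (T t67 (L l24 (L l28 (L l311 (T t65 N)))))))) (K a21 (M a192 (F (T t22 (T t27 (L l47 (L l347 (L l371 (T t29 N)))))))) (K a37 (M a192 (F (T t19 (L l47 (L l371 (T t20 (L l371 (T t21 N)))))))) (K a53 (M a192 (F (T t19 (L l371 (L l491 (T t21 (L l243 (T t31 N)))))))) (K a26 (M a192 (F (T t27 (L l371 (T t20 (L l371 (T t21 N))))))) (K a42 (M a192 (F (T t19 (L l371 (T t20 (L l28 (L l371 (T t29 N)))))))) (K a58 (M a192 (F (T t19 (L l371 (T t21 (L l54 (L l243 (L l498 (T t31 N))))))))) (K a15 (M a85 (F (T t567 (L l243 (T t568 N)))))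 N))))))))))))))))⟩
def e0_63__69_127 : Ent 4 := ⟨[a0, a63], [a69, a210], (M a48 (F (T t1 (L l311 (T t2 (T t3 (T t0 (K a16 (M a60 (F (T t43 (T t64 (L l311 (T t65 N)))))) (K a32 (M a60 (F (T t64 (T t67 (L l24 (L l28 (L l311 (T t65 N)))))))) (K a21 (M a192 (F (T t22 (L l273 (T t27 (L l47 (L l347 (T t29 N)))))))) (K a37 (M a192 (F (T t225 (L l273 (T t27 (T t21 N)))))) (K a53 (M a192 (F (T t37 (L l273 (T t27 (T t31 N)))))) (K a26 (M a192 (F (T t20 (L l273 (T t27 (T t21 N)))))) (K a42 (M a192 (F (T t20 (L l273 (T t27 (L l28 (T t29 N))))))) (K a58 (M a192 (F (T t21 (L l273 (T t27 (L l54 (L l498 (T t31 N)))))))) (K a15 (M a192 (F (T t47 (L l273 (L l483 (T t27 (L l325 (T t20 N)))))))) N))))))))))))))))⟩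
def e0_63__69_128 : Ent 4 := ⟨[a0, a63], [a69, a211], (M a60 (F (T t67 (T t43 (T t68 (L l329 (T t69 (K a20 (M a48 (F (T t64 (L l11 (T t1 (L l11 (T t235 N))))))) (K a40 (M a48 (F (T t1 (T t64 (L l52 (T t235 N)))))) (K a21 (M a192 (F (T t72 (L l271 (L l347 (T t73 (L l245 (L l347 (T t74 N))))))))) (K a41 (M a192 (F (T t79 (L l65 (T t35 (L l271 (T t73 N))))))) (K a61 (M a192 (F (T t72 (L l65 (L l515 (T t35 (L l373 (T t80 N)))))))) (K a22 (M a192 (F (T t72 (T t21 (L l271 (T t73 N)))))) (K a42 (M a192 (F (T t79 (L l271 (T t73 (L l22 (L l245 (T t74 N)))))))) (K a62 (M a192 (F (T t72 (T t35 (L l66 (L l373 (L l516 (T t80 N)))))))) (K a3 (M a192 (F (T t1343 (L l477 (T t79 (L l475 (T t35 N))))))) N))))))))))))))))⟩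
def e0_63__69_129 : Ent 4 := ⟨[a0, a63], [a69, a213], (M a48 (F (T t0 (L l347 (T t1 (L l311 (T t2 (L l347 (T t3 (K a16 (M a60 (F (T t43 (T t64 (L l311 (T t65 N)))))) (K a32 (M a60 (F (T t64 (L l347 (T t67 (L l24 (L l28 (L l311 (T t65 N))))))))) (K a21 (M a149 (F (T t7 (L l18 (L l275 (L l311 (T t14 (T t13 N)))))))) (K a37 (M a192 (F (T t19 (L l47 (L l347 (T t20 (L l347 (T t21 N)))))))) (K a53 (M a192 (F (T t27 (L l347 (L l491 (T t21 (L l347 (L l491 (T t575 N))))))))) (K a26 (M a192 (F (T t22 (T t27 (L l347 (T t21 N)))))) (K a42 (M a192 (F (T t19 (L l347 (T t20 (L l28 (L l246 (L l347 (T t29 N))))))))) (K a58 (M a192 (F (T t27 (L l347 (T t21 (L l347 (T t575 N))))))) (K a15 (M a192 (F (T t54 (L l483 (T t27 (L l347 (L l469 (T t21 N)))))))) N))))))))))))))))))⟩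
def e0_63__69_130 : Ent 4 := ⟨[a0, a63], [a69, a214], (M a48 (F (T t1 (L l311 (T t2 (T t3 (T t0 (K a16 (M a60 (F (T t43 (T t64 (L l311 (T t65 N)))))) (K a32 (M a60 (F (T t64 (T t67 (L l24 (L l28 (L l311 (T t65 N)))))))) (K a21 (M a192 (F (T t28 (L l47 (L l347 (T t20 (L l47 (L l347 (T t29 N))))))))) (K a37 (M a192 (F (T t19 (L l47 (T t20 (T t21 N)))))) (K a53 (M a192 (F (T t19 (L l491 (T t21 (L l239 (T t31 N))))))) (K a26 (M a192 (F (T t28 (T t20 (T t21 N))))) (K a42 (M a192 (F (T t19 (T t20 (L l28 (T t29 N)))))) (K a58 (M a192 (F (T t19 (T t21 (L l54 (L l239 (L l498 (T t31 N)))))))) (K a15 (M a85 (F (T t567 (L l239 (T t568 N))))) N))))))))))))))))⟩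
def e0_63__69_131 : Ent 4 := ⟨[a0, a63], [a69, a215], (M a48 (F (T t1 (L l311 (T t2 (T t3 (T t0 (K a16 (M a60 (F (T t64 (L l14 (L l18 (L l350 (T t67 (L l311 (L l349 (T t65 N)))))))))) (K a32 (M a60 (F (T t64 (L l350 (T t67 (L l24 (L l28 (L l311 (L l349 (T t65 N)))))))))) (K a21 (M a192 (F (T t28 (L l47 (L l347 (T t20 (L l47 (L l245 (L l347 (T t29 N)))))))))) (K a37 (M a192 (F (T t19 (L l47 (T t20 (L l295 (T t21 N))))))) (K a53 (M a192 (F (T t19 (L l295 (L l491 (T t21 (L l239 (T t31 N)))))))) (K a26 (M a192 (F (T t28 (T t20 (L l295 (T t21 N)))))) (K a42 (M a192 (F (T t19 (T t20 (L l28 (L l245 (T t29 N))))))) (K a58 (M a192 (F (T t19 (L l295 (T t21 (L l54 (L l239 (L l498 (T t31 N))))))))) (K a15 (M a85 (F (T t567 (L l239 (L l245 (T t568 N)))))) N))))))))))))))))⟩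
def e0_63__69_132 : Ent 4 := ⟨[a0, a63], [a69, a218], (M a48 (F (T t1 (L l311 (T t2 (T t3 (T t0 (K a16 (M a60 (F (T t43 (T t64 (L l311 (T t65 N)))))) (K a32 (M a60 (F (T t64 (T t67 (L l24 (L l28 (L l311 (T t65 N)))))))) (K a21 (M a192 (F (T t54 (L l18 (T t55 (L l47 (L l246 (L l282 (L l347 (T t29 N)))))))))) (K a37 (M a192 (F (T t21 (L l303 (T t27 (L l47 (L l282 (L l303 (T t20 N))))))))) (K a53 (M a192 (F (T t55 (L l491 (T t21 (L l246 (T t31 N))))))) (K a26 (M a154 (F (L l282 (T t326 (L l18 (L l303 (T t806 (L l84 (L l246 (L l282 (T t527 N))))))))))) (K a42 (M a192 (F (T t33 (T t55 (L l28 (L l246 (L l282 (T t29 N)))))))) (K a58 (M a192 (F (T t21 (L l303 (T t27 (L l54 (L l246 (L l498 (T t31 N))))))))) (K a15 (M a192 (F (T t47 (L l303 (L l483 (T t27 (L l282 (L l303 (L l325 (T t20 N)))))))))) N))))))))))))))))⟩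
def e0_63__69_133 : Ent 4 := ⟨[a0, a63], [a69, a219], (M a48 (F (T t1 (L l311 (T t2 (T t3 (T t0 (K a16 (M a60 (F (T t43 (T t64 (L l311 (T t65 N)))))) (K a32 (M a60 (F (T t64 (T t67 (L l24 (L l28 (L l311 (T t65 N)))))))) (K a21 (M a192 (F (T t28 (L l47 (L l301 (L l347 (T t20 (L l47 (L l245 (L l347 (T t29 N))))))))))) (K a37 (M a192 (F (T t19 (L l47 (L l301 (T t20 (T t21 N))))))) (K a53 (M a192 (F (T t19 (L l491 (T t21 (T t31 N)))))) (K a26 (M a192 (F (T t28 (L l301 (T t20 (T t21 N)))))) (K a42 (M a192 (F (T t19 (L l301 (T t20 (L l28 (L l245 (T t29 N)))))))) (K a58 (M a192 (F (T t19 (T t21 (L l54 (L l498 (T t31 N))))))) (K a15 (M a192 (F (T t57 (L l483 (T t27 (L l301 (L l325 (T t20 N)))))))) N))))))))))))))))⟩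
def e0_63__69_134 : Ent 4 := ⟨[a0, a63], [a69, a223], (M a60 (F (T t67 (T t43 (T t68 (L l329 (T t69 (K a20 (M a48 (F (T t64 (L l11 (T t1 (L l11 (T t235 N))))))) (K a40 (M a48 (F (T t1 (T t64 (L l52 (T t235 N)))))) (K a21 (M a192 (F (T t72 (L l347 (T t73 (L l245 (L l347 (T t74 N)))))))) (K a41 (M a192 (F (T t77 (L l65 (L l289 (T t35 (T t73 N))))))) (K a61 (M a192 (F (T t72 (L l65 (L l289 (L l515 (T t35 (L l246 (T t80 N))))))))) (K a22 (M a192 (F (T t72 (L l289 (T t21 (T t73 N)))))) (K a42 (M a192 (F (T t79 (T t73 (L l22 (L l245 (T t74 N))))))) (K a62 (M a192 (F (T t72 (L l289 (T t35 (L l66 (L l246 (L l516 (T t80 N))))))))) (K a3 (M a85 (F (T t447 (L l245 (L l246 (T t115 N)))))) N))))))))))))))))⟩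
def e0_63__69_135 : Ent 4 := ⟨[a0, a63], [a69, a224], (M a60 (F (T t67 (T t43 (T t68 (L l329 (T t69 (K a20 (M a48 (F (T t64 (L l11 (T t1 (L l11 (T t235 N))))))) (K a40 (M a48 (F (T t1 (T t64 (L l52 (T t235 N)))))) (K a21 (M a192 (F (T t77 (L l347 (T t73 (L l347 (T t74 N))))))) (K a41 (M a192 (F (T t77 (L l65 (L l256 (T t35 (T t73 N))))))) (K a61 (M a192 (F (T t77 (L l65 (L l256 (L l515 (T t35 (L l406 (L l411 (T t80 N)))))))))) (K a22 (M a192 (F (T t77 (T t21 (T t73 N))))) (K a42 (M a192 (F (T t77 (T t73 (L l22 (T t74 N)))))) (K a62 (M a192 (F (T t77 (L l256 (T t35 (L l66 (L l406 (L l411 (L l516 (T t80 N)))))))))) (K a3 (M a192 (F (T t614 (L l252 (L l477 (T t79 (L l256 (L l475 (T t35 N))))))))) N))))))))))))))))⟩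
def e0_63__69_136 : Ent 4 := ⟨[a0, a63], [a69, a225], (M a48 (F (T t1 (L l311 (T t2 (T t3 (T t0 (K a16 (M a60 (F (T t43 (T t64 (L l311 (T t65 N)))))) (K a32 (M a60 (F (T t64 (T t67 (L l24 (L l28 (L l311 (T t65 N)))))))) (K a21 (M a192 (F (T t22 (L l273 (T t27 (L l47 (L l347 (T t29 N)))))))) (K a37 (M a192 (F (T t225 (L l273 (T t27 (T t21 N)))))) (K a53 (M a192 (F (T t37 (L l273 (T t27 (T t31 N)))))) (K a26 (M a192 (F (T t21 (L l273 (T t27 (T t20 N)))))) (K a42 (M a192 (F (T t20 (L l273 (T t27 (L l28 (T t29 N))))))) (K a58 (M a192 (F (T t21 (L l273 (T t27 (L l54 (L l498 (T t31 N)))))))) (K a15 (M a192 (F (T t57 (L l273 (L l483 (T t27 (L l325 (T t20 N)))))))) N))))))))))))))))⟩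
def e0_63__69_137 : Ent 4 := ⟨[a0, a63], [a69, a226], (M a48 (F (T t1 (L l311 (T t2 (T t3 (T t0 (K a16 (M a60 (F (T t43 (T t64 (L l311 (T t65 N)))))) (K a32 (M a60 (F (T t64 (T t67 (L l24 (L l28 (L l311 (T t65 N)))))))) (K a21 (M a192 (F (T t28 (L l47 (L l347 (T t20 (L l47 (L l347 (T t29 N))))))))) (K a37 (M a192 (F (T t225 (T t27 (T t21 N))))) (K a53 (M a192 (F (T t28 (L l491 (T t21 (L l408 (T t31 N))))))) (K a26 (M a192 (F (T t28 (T t20 (T t21 N))))) (K a42 (M a192 (F (T t27 (T t20 (L l28 (T t29 N)))))) (K a58 (M a192 (F (T t28 (T t21 (L l54 (L l408 (L l498 (T t31 N)))))))) (K a15 (M a85 (F (T t567 (T t568 N)))) N))))))))))))))))⟩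
def e0_63__69_138 : Ent 4 := ⟨[a0, a63], [a69, a227], (M a60 (F (T t67 (T t43 (T t68 (L l329 (T t69 (K a20 (M a48 (F (T t64 (L l11 (T t1 (L l11 (T t235 N))))))) (K a40 (M a48 (F (T t1 (T t64 (L l52 (T t235 N)))))) (K a21 (M a192 (F (T t72 (L l271 (L l347 (L l409 (T t73 (L l347 (T t74 N))))))))) (K a41 (M a192 (F (T t79 (L l65 (T t35 (L l271 (L l409 (T t73 N)))))))) (K a61 (M a192 (F (T t72 (L l65 (L l515 (T t35 (T t80 N))))))) (K a22 (M a192 (F (T t72 (T t21 (L l271 (L l409 (T t73 N))))))) (K a42 (M a192 (F (T t77 (L l271 (L l409 (T t73 (L l22 (T t74 N)))))))) (K a62 (M a192 (F (T t72 (T t35 (L l66 (L l516 (T t80 N))))))) (K a3 (M a192 (F (T t1343 (L l477 (T t79 (L l475 (T t35 N))))))) N))))))))))))))))⟩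
def e0_63__69_139 : Ent 4 := ⟨[a0, a63], [a69, a229], (M a48 (F (T t1 (L l311 (T t2 (T t3 (T t0 (K a16 (M a60 (F (T t43 (T t64 (L l311 (T t65 N)))))) (K a32 (M a60 (F (T t64 (T t67 (L l24 (L l28 (L l311 (T t65 N)))))))) (K a21 (M a192 (F (T t54 (L l18 (T t55 (L l47 (L l347 (T t29 N)))))))) (K a37 (M a101 (F (T t1306 (L l256 (L l303 (T t334 (L l256 (L l275 (L l311 (T t314 N)))))))))) (K a53 (M a192 (F (T t55 (L l491 (T t21 (L l275 (T t31 N))))))) (K a26 (M a192 (F (T t21 (L l303 (T t27 (L l303 (T t20 N))))))) (K a42 (M a192 (F (T t56 (T t55 (L l28 (T t29 N)))))) (K a58 (M a192 (F (T t21 (L l303 (T t27 (L l54 (L l275 (L l498 (T t31 N))))))))) (K a15 (M a192 (F (T t47 (L l303 (L l483 (T t27 (L l303 (L l325 (T t20 N))))))))) N))))))))))))))))⟩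
def e0_63__69_140 : Ent 4 := ⟨[a0, a63], [a69, a230], (M a48 (F (T t1 (L l311 (T t2 (T t3 (T t0 (K a16 (M a60 (F (T t43 (T t64 (L l311 (T t65 N)))))) (K a32 (M a60 (F (T t64 (T t67 (L l24 (L l28 (L l311 (T t65 N)))))))) (K a21 (M a192 (F (T t28 (L l47 (L l347 (T t20 (L l47 (L l347 (T t29 N))))))))) (K a37 (M a192 (F (T t19 (L l47 (T t20 (T t21 N)))))) (K a53 (M a192 (F (T t19 (L l491 (T t21 (L l278 (T t31 N))))))) (K a26 (M a192 (F (T t28 (T t20 (T t21 N))))) (K a42 (M a192 (F (T t19 (T t20 (L l28 (T t29 N)))))) (K a58 (M a192 (F (T t19 (T t21 (L l54 (L l278 (L l498 (T t31 N)))))))) (K a15 (M a85 (F (T t567 (L l278 (T t568 N))))) N))))))))))))))))⟩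
def e0_63__69_141 : Ent 4 := ⟨[a0, a63], [a69, a231], (M a48 (F (T t1 (L l311 (T t2 (T t3 (T t0 (K a16 (M a60 (F (T t43 (T t64 (L l311 (T t65 N)))))) (K a32 (M a60 (F (T t64 (T t67 (L l24 (L l28 (L l311 (T t65 N)))))))) (K a21 (M a192 (F (T t28 (L l47 (L l301 (L l347 (T t20 (L l47 (L l347 (T t29 N)))))))))) (K a37 (M a192 (F (T t19 (L l47 (L l301 (T t20 (T t21 N))))))) (K a53 (M a192 (F (T t19 (L l491 (T t21 (T t31 N)))))) (K a26 (M a192 (F (T t28 (L l301 (T t20 (T t21 N)))))) (K a42 (M a192 (F (T t19 (L l301 (T t20 (L l28 (T t29 N))))))) (K a58 (M a192 (F (T t19 (T t21 (L l54 (L l498 (T t31 N))))))) (K a15 (M a192 (F (T t57 (L l483 (T t27 (L l301 (L l325 (T t20 N)))))))) N))))))))))))))))⟩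
def e0_63__69_142 : Ent 4 := ⟨[a0, a63], [a69, a234], (M a48 (F (T t1 (L l311 (L l390 (T t2 (T t3 (L l390 (T t0 (K a16 (M a60 (F (T t64 (L l14 (L l18 (T t67 (L l311 (L l390 (T t65 N))))))))) (K a32 (M a60 (F (T t64 (T t67 (L l24 (L l28 (L l311 (L l390 (T t65 N))))))))) (K a21 (M a192 (F (T t28 (L l47 (L l282 (L l347 (T t20 (L l47 (L l282 (L l347 (T t29 N))))))))))) (K a37 (M a192 (F (T t225 (T t27 (L l84 (L l390 (T t202 N))))))) (K a53 (M a192 (F (T t27 (L l84 (L l390 (T t202 (L l390 (T t577 N)))))))) (K a26 (M a192 (F (T t27 (L l282 (T t20 (L l84 (L l390 (T t202 N)))))))) (K a42 (M a106 (F (T t578 (L l28 (L l84 (L l282 (T t579 (L l84 (T t551 N))))))))) (K a58 (M a192 (F (T t27 (L l84 (L l390 (L l498 (T t202 (L l390 (L l498 (T t577 N)))))))))) (K a15 (M a192 (F (T t33 (L l483 (T t27 (L l84 (L l390 (L l469 (T t202 N))))))))) N))))))))))))))))))⟩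
def e0_63__69_143 : Ent 4 := ⟨[a0, a63], [a69, a235], (M a48 (F (T t1 (L l311 (T t2 (T t3 (T t0 (K a16 (M a60 (F (T t64 (L l14 (L l18 (L l391 (T t67 (L l311 (L l392 (T t65 N)))))))))) (K a32 (M a60 (F (T t64 (L l391 (T t67 (L l24 (L l28 (L l311 (L l392 (T t65 N)))))))))) (K a21 (M a192 (F (T t28 (L l47 (L l347 (T t20 (L l47 (L l347 (T t29 N))))))))) (K a37 (M a192 (F (T t19 (L l47 (T t20 (L l295 (T t21 N))))))) (K a53 (M a192 (F (T t19 (L l295 (L l491 (T t21 (T t31 N))))))) (K a26 (M a192 (F (T t28 (T t20 (L l295 (T t21 N)))))) (K a42 (M a192 (F (T t19 (T t20 (L l28 (T t29 N)))))) (K a58 (M a192 (F (T t19 (L l295 (T t21 (L l54 (L l498 (T t31 N)))))))) (K a15 (M a192 (F (T t47 (L l483 (T t27 (L l325 (T t20 N))))))) N))))))))))))))))⟩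
def e0_63__69_144 : Ent 4 := ⟨[a0, a63], [a69, a239], (M a60 (F (T t67 (T t43 (T t68 (L l329 (T t69 (K a20 (M a48 (F (T t64 (L l11 (T t1 (L l11 (T t235 N))))))) (K a40 (M a48 (F (T t1 (T t64 (L l52 (T t235 N)))))) (K a21 (M a192 (F (T t72 (L l347 (T t73 (L l347 (T t74 N))))))) (K a41 (M a192 (F (T t77 (L l65 (L l256 (L l289 (T t35 (T t73 N)))))))) (K a61 (M a192 (F (T t72 (L l65 (L l256 (L l289 (L l515 (T t35 (T t80 N))))))))) (K a22 (M a192 (F (T t72 (L l289 (T t21 (T t73 N)))))) (K a42 (M a192 (F (T t79 (T t73 (L l22 (T t74 N)))))) (K a62 (M a192 (F (T t72 (L l256 (L l289 (T t35 (L l66 (L l516 (T t80 N))))))))) (K a3 (M a192 (F (T t47 (L l477 (T t79 (L l307 (T t73 N))))))) N))))))))))))))))⟩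
def e0_63__69_145 : Ent 4 := ⟨[a0, a63], [a69, a240], (M a60 (F (T t116 (L l453 (T t67 (L l453 (T t43 (L l453 (T t68 (L l329 (L l453 (T t69 (K a20 (M a48 (F (T t138 (L l11 (L l483 (T t1 (L l11 (T t235 N)))))))) (K a40 (M a48 (F (T t48 (L l417 (T t64 (L l52 (T t235 N))))))) (K a21 (M a192 (F (T t81 (L l11 (L l262 (T t79 (L l347 (T t74 N)))))))) (K a41 (M a192 (F (T t1343 (L l262 (T t79 (L l65 (L l266 (T t35 N)))))))) (K a61 (M a192 (F (T t1334 (L l65 (L l266 (L l515 (T t35 (T t80 N)))))))) (K a22 (M a192 (F (T t614 (L l11 (L l262 (T t79 (L l11 (L l266 (T t35 N))))))))) (K a42 (M a192 (F (T t614 (L l262 (T t79 (L l22 (T t74 N))))))) (K a62 (M a192 (F (T t57 (L l262 (T t79 (L l66 (L l516 (T t80 N)))))))) (K a3 (M a85 (L l453 (F (T t447 (T t115 (K a161 (M a82 (F (T t49 (L l266 (L l475 (T t1345 (T t523 N))))))) (K a82 (M a161 (F (T t49 (L l266 (L l475 (T t1345 (T t523 N))))))) N))))))) N)))))))))))))))))))))⟩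
def e0_63__69_146 : Ent 4 := ⟨[a0, a63], [a69, a241], (M a48 (F (T t1 (L l311 (T t2 (T t3 (T t0 (K a16 (M a60 (F (T t43 (L l443 (T t64 (L l311 (T t65 N))))))) (K a32 (M a60 (F (T t42 (T t67 (L l24 (L l28 (L l311 (T t65 N)))))))) (K a21 (M a192 (F (T t22 (L l258 (T t27 (L l47 (L l347 (T t29 N)))))))) (K a37 (M a192 (F (T t225 (L l258 (T t27 (T t21 N)))))) (K a53 (M a192 (F (T t37 (L l258 (T t27 (T t31 N)))))) (K a26 (M a192 (F (T t20 (L l258 (T t27 (T t21 N)))))) (K a42 (M a192 (F (T t20 (L l258 (T t27 (L l28 (T t29 N))))))) (K a58 (M a192 (F (T t21 (L l258 (T t27 (L l54 (L l498 (T t31 N)))))))) (K a15 (M a192 (F (T t57 (L l258 (L l483 (T t27 (L l325 (T t20 N)))))))) N))))))))))))))))⟩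
def e0_63__69_147 : Ent 4 := ⟨[a0, a63], [a69, a242], (M a48 (F (T t1 (L l311 (T t2 (T t3 (T t0 (K a16 (M a60 (F (T t43 (L l414 (T t64 (L l311 (T t65 N))))))) (K a32 (M a60 (F (T t42 (T t67 (L l24 (L l28 (L l311 (T t65 N)))))))) (K a21 (M a192 (F (T t22 (L l258 (T t27 (L l47 (L l347 (T t29 N)))))))) (K a37 (M a192 (F (T t225 (L l258 (T t27 (T t21 N)))))) (K a53 (M a192 (F (T t37 (L l258 (T t27 (T t31 N)))))) (K a26 (M a192 (F (T t20 (L l258 (T t27 (T t21 N)))))) (K a42 (M a192 (F (T t20 (L l258 (T t27 (L l28 (T t29 N))))))) (K a58 (M a192 (F (T t21 (L l258 (T t27 (L l54 (L l498 (T t31 N)))))))) (K a15 (M a192 (F (T t57 (L l258 (L l483 (T t27 (L l325 (T t20 N)))))))) N))))))))))))))))⟩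
def e0_63__69_148 : Ent 4 := ⟨[a0, a63], [a69, a243], (M a48 (F (T t48 (L l481 (T t1 (L l311 (L l481 (T t2 (L l481 (T t3 (L l481 (T t0 (K a16 (M a60 (F (T t138 (L l14 (L l18 (L l451 (T t67 (L l311 (T t65 N))))))))) (K a32 (M a60 (F (T t116 (L l415 (T t64 (L l24 (L l28 (L l311 (T t65 N))))))))) (K a21 (M a192 (F (T t54 (L l258 (T t27 (L l47 (L l347 (T t29 N)))))))) (K a37 (M a192 (F (T t54 (L l258 (T t27 (L l265 (T t21 N))))))) (K a53 (M a192 (F (T t55 (L l265 (L l491 (T t21 (T t31 N))))))) (K a26 (M a192 (F (T t56 (L l258 (T t27 (L l265 (T t21 N))))))) (K a42 (M a192 (F (T t56 (L l258 (T t27 (L l28 (T t29 N))))))) (K a58 (M a192 (F (T t57 (L l258 (T t27 (L l54 (L l498 (T t31 N)))))))) (K a15 (M a85 (L l481 (F (T t567 (T t568 (K a167 (M a91 (F (T t100 (L l258 (L l483 (T t50 (L l265 (L l469 (T t924 N))))))))) (K a91 (M a167 (F (T t100 (L l258 (L l483 (T t50 (L l265 (L l469 (T t924 N)))))))))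 N))))))) N)))))))))))))))))))))⟩
def e0_63__69_149 : Ent 4 := ⟨[a0, a63], [a69, a245], (M a60 (F (T t67 (T t43 (T t68 (L l329 (T t69 (K a20 (M a48 (F (T t70 (L l11 (L l419 (T t1 (L l11 (T t235 N)))))))) (K a40 (M a48 (F (T t70 (L l419 (T t1 (L l52 (T t235 N))))))) (K a21 (M a192 (F (T t72 (L l347 (T t73 (L l347 (T t74 N))))))) (K a41 (M a192 (F (T t77 (L l65 (L l266 (T t35 (T t73 N))))))) (K a61 (M a192 (F (T t72 (L l65 (L l266 (L l515 (T t35 (L l275 (T t80 N))))))))) (K a22 (M a192 (F (T t72 (L l266 (T t21 (T t73 N)))))) (K a42 (M a192 (F (T t79 (T t73 (L l22 (T t74 N)))))) (K a62 (M a192 (F (T t72 (L l266 (T t35 (L l66 (L l275 (L l516 (T t80 N))))))))) (K a3 (M a85 (F (T t447 (L l275 (T t115 N))))) N))))))))))))))))⟩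
def e0_63__69_150 : Ent 4 := ⟨[a0, a63], [a69, a246], (M a48 (F (T t1 (L l311 (T t2 (T t3 (T t0 (K a16 (M a60 (F (T t43 (T t64 (L l311 (T t65 N)))))) (K a32 (M a60 (F (T t64 (T t67 (L l24 (L l28 (L l311 (T t65 N)))))))) (K a21 (M a192 (F (T t28 (L l47 (L l347 (T t20 (L l47 (L l347 (T t29 N))))))))) (K a37 (M a192 (F (T t19 (L l47 (T t20 (T t21 N)))))) (K a53 (M a192 (F (T t19 (L l491 (T t21 (T t31 N)))))) (K a26 (M a192 (F (T t28 (T t20 (T t21 N))))) (K a42 (M a192 (F (T t19 (T t20 (L l28 (T t29 N)))))) (K a58 (M a192 (F (T t19 (T t21 (L l54 (L l498 (T t31 N))))))) (K a15 (M a192 (F (T t47 (L l483 (T t27 (L l325 (T t20 N))))))) N))))))))))))))))⟩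
def e0_63__69_151 : Ent 4 := ⟨[a0, a63], [a69, a247], (M a60 (F (T t67 (T t43 (T t68 (L l329 (T t69 (K a20 (M a48 (F (T t64 (L l11 (T t1 (L l11 (L l457 (T t235 N)))))))) (K a40 (M a48 (F (T t1 (T t64 (L l52 (L l457 (T t235 N))))))) (K a21 (M a192 (F (T t72 (L l347 (T t73 (L l277 (L l347 (T t74 N)))))))) (K a41 (M a192 (F (T t77 (L l65 (L l265 (T t35 (T t73 N))))))) (K a61 (M a192 (F (T t72 (L l65 (L l265 (L l515 (T t35 (L l278 (T t80 N))))))))) (K a22 (M a192 (F (T t72 (L l265 (T t21 (T t73 N)))))) (K a42 (M a192 (F (T t79 (T t73 (L l22 (L l277 (T t74 N))))))) (K a62 (M a192 (F (T t72 (L l265 (T t35 (L l66 (L l278 (L l516 (T t80 N))))))))) (K a3 (M a85 (F (T t447 (L l277 (L l278 (T t115 N)))))) N))))))))))))))))⟩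
def e0_63__69_152 : Ent 4 := ⟨[a0, a63], [a69, a250], (M a60 (F (T t67 (T t43 (T t68 (L l329 (T t69 (K a20 (M a48 (F (T t64 (L l11 (L l462 (T t1 (L l11 (T t235 N)))))))) (K a40 (M a48 (F (T t64 (L l462 (T t1 (L l52 (T t235 N))))))) (K a21 (M a192 (F (T t72 (L l347 (T t73 (L l347 (T t74 N))))))) (K a41 (M a192 (F (T t77 (L l65 (L l266 (L l282 (T t35 (T t73 N)))))))) (K a61 (M a192 (F (T t72 (L l65 (L l266 (L l282 (L l515 (T t35 (T t80 N))))))))) (K a22 (M a192 (F (T t72 (L l266 (T t21 (T t73 N)))))) (K a42 (M a192 (F (T t79 (T t73 (L l22 (T t74 N)))))) (K a62 (M a192 (F (T t72 (L l266 (L l282 (T t35 (L l66 (L l516 (T t80 N))))))))) (K a3 (M a192 (F (T t1343 (L l477 (T t79 (L l266 (L l282 (L l475 (T t35 N))))))))) N))))))))))))))))⟩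
def e0_63__69_153 : Ent 4 := ⟨[a0, a63], [a69, a251], (M a48 (F (T t1 (L l311 (T t2 (T t3 (T t0 (K a16 (M a60 (F (T t43 (T t64 (L l311 (T t65 N)))))) (K a32 (M a60 (F (T t67 (T t64 (L l24 (L l28 (L l311 (T t65 N)))))))) (K a21 (M a192 (F (T t28 (L l47 (L l347 (T t20 (L l47 (L l347 (T t29 N))))))))) (K a37 (M a192 (F (T t19 (L l47 (T t20 (L l265 (T t21 N))))))) (K a53 (M a192 (F (T t19 (L l265 (L l491 (T t21 (T t31 N))))))) (K a26 (M a192 (F (T t28 (T t20 (L l265 (T t21 N)))))) (K a42 (M a192 (F (T t19 (T t20 (L l28 (T t29 N)))))) (K a58 (M a192 (F (T t19 (L l265 (T t21 (L l54 (L l498 (T t31 N)))))))) (K a15 (M a192 (F (T t47 (L l483 (T t27 (L l325 (T t20 N))))))) N))))))))))))))))⟩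
def e0_63__69_154 : Ent 4 := ⟨[a0, a63], [a69, a255], (M a48 (F (T t48 (L l469 (T t1 (L l311 (L l469 (T t2 (L l469 (T t3 (L l469 (T t0 (K a16 (M a60 (F (T t138 (L l14 (L l18 (L l475 (T t67 (L l311 (T t65 N))))))))) (K a32 (M a60 (F (T t116 (L l439 (T t64 (L l24 (L l28 (L l311 (T t65 N))))))))) (K a21 (M a192 (F (T t54 (L l266 (T t27 (L l47 (L l289 (L l347 (T t29 N))))))))) (K a37 (M a192 (F (T t55 (L l47 (L l289 (T t20 (L l28 (L l47 (L l289 (T t29 N)))))))))) (K a53 (M a12 (F (T t145 (L l47 (L l439 (T t122 (L l47 (T t146 N)))))))) (K a26 (M a192 (F (T t56 (L l266 (T t27 (L l289 (T t29 N))))))) (K a42 (M a192 (F (T t56 (L l266 (T t27 (L l28 (L l289 (T t29 N)))))))) (K a58 (M a12 (F (T t145 (L l439 (T t122 (T t146 N)))))) (K a15 (M a192 (L l469 (F (T t54 (L l266 (L l483 (T t27 (L l289 (T t29 (K a95 (M a175 (F (T t56 (L l266 (L l483 (T t28 (L l289 (L l361 (T t29 N))))))))) (K a175 (M a95 (F (T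 t36 (L l213 (L l289 (L l325 (T t22 (L l289 (T t29 N))))))))) N))))))))))) N)))))))))))))))))))))⟩
def b0_63__69 : Blk 4 := ⟨[0, 63], [69], [1, 2, 3, 5, 6, 7, 10, 11, 15, 16, 17, 18, 19, 22, 23, 26, 27, 31, 32, 33, 34, 35, 37, 38, 39, 43, 47, 48, 49, 50, 51, 53, 54, 55, 58, 59, 64, 65, 66, 67, 70, 71, 74, 75, 79, 80, 81, 82, 83, 85, 86, 87, 90, 91, 95, 96, 97, 98, 99, 101, 102, 103, 106, 107, 111, 112, 113, 114, 115, 117, 118, 119, 122, 123, 127, 128, 129, 130, 131, 133, 134, 135, 138, 139, 143, 144, 145, 146, 147, 149, 150, 151, 154, 155, 159, 160, 161, 162, 163, 165, 166, 167, 170, 171, 175, 176, 177, 178, 179, 181, 182, 183, 186, 187, 191, 192, 193, 194, 195, 197, 198, 199, 202, 203, 207, 208, 209, 210, 211, 213, 214, 215, 218, 219, 223, 224, 225, 226, 227, 229, 230, 231, 234, 235, 239, 240, 241, 242, 243, 245, 246, 247, 250, 251, 255], [e0_63__69_0, e0_63__69_1, e0_63__69_2, e0_63__69_3,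 e0_63__69_4, e0_63__69_5, e0_63__69_6, e0_63__69_7, e0_63__69_8, e0_63__69_9, e0_63__69_10, e0_63__69_11, e0_63__69_12, e0_63__69_13, e0_63__69_14, e0_63__69_15, e0_63__69_16, e0_63__69_17, e0_63__69_18, e0_63__69_19, e0_63__69_20, e0_63__69_21, e0_63__69_22, e0_63__69_23, e0_63__69_24, e0_63__69_25, e0_63__69_26, e0_63__69_27, e0_63__69_28, e0_63__69_29, e0_63__69_30, e0_63__69_31, e0_63__69_32, e0_63__69_33, e0_63__69_34, e0_63__69_35, e0_63__69_36, e0_63__69_37, e0_63__69_38, e0_63__69_39, e0_63__69_40, e0_63__69_41, e0_63__69_42, e0_63__69_43, e0_63__69_44, e0_63__69_45, e0_63__69_46, e0_63__69_47, e0_63__69_48, e0_63__69_49, e0_63__69_50, e0_63__69_51, e0_63__69_52, e0_63__69_53, e0_63__69_54, e0_63__69_55, e0_63__69_56, e0_63__69_57, e0_63__69_58, e0_63__69_59, e0_63__69_60, e0_63__69_61, e0_63__69_62, e0_63__69_63, e0_63__69_64, e0_63__69_65, e0_63__69_66, e0_63__69_67, e0_63__69_68,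 e0_63__69_69, e0_63__69_70, e0_63__69_71, e0_63__69_72, e0_63__69_73, e0_63__69_74, e0_63__69_75, e0_63__69_76, e0_63__69_77, e0_63__69_78, e0_63__69_79, e0_63__69_80, e0_63__69_81, e0_63__69_82, e0_63__69_83, e0_63__69_84, e0_63__69_85, e0_63__69_86, e0_63__69_87, e0_63__69_88, e0_63__69_89, e0_63__69_90, e0_63__69_91, e0_63__69_92, e0_63__69_93, e0_63__69_94, e0_63__69_95, e0_63__69_96, e0_63__69_97, e0_63__69_98, e0_63__69_99, e0_63__69_100, e0_63__69_101, e0_63__69_102, e0_63__69_103, e0_63__69_104, e0_63__69_105, e0_63__69_106, e0_63__69_107, e0_63__69_108, e0_63__69_109, e0_63__69_110, e0_63__69_111, e0_63__69_112, e0_63__69_113, e0_63__69_114, e0_63__69_115, e0_63__69_116, e0_63__69_117, e0_63__69_118, e0_63__69_119, e0_63__69_120, e0_63__69_121, e0_63__69_122, e0_63__69_123, e0_63__69_124, e0_63__69_125, e0_63__69_126, e0_63__69_127, e0_63__69_128, e0_63__69_129, e0_63__69_130, e0_63__69_131,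 e0_63__69_132, e0_63__69_133, e0_63__69_134, e0_63__69_135, e0_63__69_136, e0_63__69_137, e0_63__69_138, e0_63__69_139, e0_63__69_140, e0_63__69_141, e0_63__69_142, e0_63__69_143, e0_63__69_144, e0_63__69_145, e0_63__69_146, e0_63__69_147, e0_63__69_148, e0_63__69_149, e0_63__69_150, e0_63__69_151, e0_63__69_152, e0_63__69_153, e0_63__69_154], by decide +kernel, by decide +kernel⟩

end Pool.Agent.Lib_TTT.K4
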