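import Pool.Agent.Lib_TTT.K4Base
import Pool.Agent.Lib_TTT.K4T00
import Pool.Agent.Lib_TTT.K4T01
import Pool.Agent.Lib_TTT.K4T02

/-! Certificates in `4^4`. -/

set_option autoImplicit false
set_option maxRecDepth 200000

namespace Pool.Agent.Lib_TTT.K4

open Lib_TTT AC DC

def e0_63__70_0 : Ent 4 := ⟨[a0, a63], [a70, a1], (M a85 (F (T t88 (L l65 (T t52 (T t89 (T t90 (K a64 (M a252 (F (T t93 (T t92 N)))) (K a192 (M a16 (F (T t504 (L l77 (L l329 (T t96 (L l296 (T t98 N)))))))) (K a21 (M a48 (L l65 (F (T t99 (T t50 (L l47 (T t100 (K a41 (M a61 (F (T t261 (L l41 (T t262 N))))) (K a61 (M a41 (F (T t261 (L l35 (L l47 (T t100 (T t50 N))))))) N))))))))) (K a149 (M a16 (F (T t101 (L l375 (T t97 (L l170 (T t102 N))))))) (K a213 (Fr a170 a255 l476 (Fr a42 a21 l68 (Fr a106 a234 l390 (Fr a192 a149 l519 (V t581))))) (K a42 (M a48 (F (T t364 (L l390 (T t50 (L l28 (T t100 N))))))) (K a106 (M a48 (F (T t99 (L l65 (T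 t1 (L l390 (T t50 N))))))) (K a170 (M a16 (F (L l404 (T t113 (L l390 (T t98 (L l390 (L l404 (T t97 (L l404 (T t174 N))))))))))) (K a255 (M a16 (F (T t504 (L l289 (T t113 (L l289 (L l296 (T t98 N)))))))) N))))))))))))))))⟩
def e0_63__70_1 : Ent 4 := ⟨[a0, a63], [a70, a2], (M a85 (L l330 (F (T t52 (L l66 (T t88 (L l66 (T t89 (L l474 (T t90 (K a64 (M a204 (L l330 (F (T t1684 (L l474 (T t1575 (L l66 (T t1685 (K a138 (M a206 (F (T t1686 (L l77 (L l80 (T t1687 N)))))) (K a206 (M a138 (F (T t1688 (L l66 (L l504 (T t1689 N)))))) N)))))))))) (K a192 (M a16 (L l330 (F (L l77 (T t96 (L l66 (L l339 (T t97 (L l66 (L l296 (T t98 (K a138 (M a206 (F (L l66 (T t112 (L l206 (L l236 (L l474 (T t259 (L l66 (L l296 (T t98 N))))))))))) (K a206 (M a138 (F (T t1690 (L l66 (L l339 (T t97 N)))))) N))))))))))))) (K a21 (M a204 (L l330 (F (T t1684 (L l474 (T t1575 (T t1691 (K a138 (M a206 (F (T t1686 (L l77 (T t1687 N))))) (K a206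 (M a138 (F (T t1688 (T t1691 N)))) N))))))))) (K a149 (M a16 (L l330 (F (T t101 (L l66 (L l375 (T t97 (L l66 (L l170 (T t102 (K a138 (M a206 (F (L l77 (T t173 (L l66 (L l375 (T t97 (L l66 (L l170 (L l206 (T t102 N))))))))))) (K a206 (M a138 (F (T t1692 (L l66 (L l375 (T t97 N)))))) N)))))))))))) (K a213 (Fr a170 a255 l476 (Fr a42 a21 l68 (Fr a106 a234 l390 (Fr a192 a149 l519 (V t581))))) (K a42 (M a62 (L l330 (F (T t1693 (L l390 (L l474 (T t1694 (L l22 (L l306 (T t1695 (L l306 (L l390 (L l474 (T t1696 (K a138 (M a206 (F (T t1693 (L l206 (L l390 (L l474 (T t1697 (L l22 (L l306 (T t1695 N)))))))))) (K a206 (M a138 (F (L l77 (T t1698 (L l22 (L l234 (L l306 (T t1695 N)))))))) N)))))))))))))))) (K a106 (M a48 (L l330 (F (T t99 (L l6 (T t1 (L l390 (L l474 (T t50 (K a138 (M a206 (F (L l77 (T t1699 (L l6 (L l318 (T t1 (L l206 (L l390 (L l474 (T t50 N))))))))))) (K a206 (M a138 (F (T t1700 (L l6 (T t1 N)))))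 N))))))))))) (K a170 (M a86 (L l330 (F (L l66 (L l390 (T t369 (L l82 (L l174 (L l306 (L l333 (T t1701 (L l66 (L l174 (L l390 (T t1702 (L l174 (L l333 (T t1703 (K a138 (M a206 (L l206 (F (L l66 (L l390 (T t369 (L l82 (L l174 (L l306 (L l333 (T t1701 (L l66 (L l174 (L l390 (T t1702 (L l174 (L l333 (T t1703 (K a154 (M a186 (F (L l66 (L l390 (T t369 (L l82 (L l174 (L l306 (L l333 (T t1701 (L l66 (L l174 (L l209 (L l390 (T t1702 (L l174 (L l333 (T t1703 N)))))))))))))))))) (K a186 (M a154 (F (T t1704 (L l318 (L l404 (T t1705 (L l66 (L l174 (L l390 (T t1706 N)))))))))) N)))))))))))))))))))) (K a206 (M a138 (F (L l66 (L l174 (L l390 (T t699 (L l42 (L l77 (L l174 (L l404 (T t1707 (L l66 (L l77 (L l390 (L l404 (T t1708 N)))))))))))))))) N)))))))))))))))))))) (K a255 (M a4 (L l330 (F (L l66 (T t129 (L l265 (T t130 (L l66 (L l77 (L l265 (L l296 (T t131 (K a138 (M a206 (F (L l66 (L l320 (T t129 (L l265 (L l320 (T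 t130 (L l66 (L l77 (L l265 (L l296 (T t131 N))))))))))))) (K a206 (M a138 (F (L l66 (T t1604 (L l231 (L l289 (L l312 (L l440 (T t1709 N))))))))) N)))))))))))))) (K a138 (M a206 (F (T t52 (L l66 (T t88 (L l66 (T t89 (L l206 (L l474 (T t90 (K a64 (M a204 (F (T t1686 (L l77 (L l80 (T t1687 N)))))) (K a192 (M a204 (F (T t1686 (L l77 (L l296 (T t1687 N)))))) (K a21 (M a204 (F (T t1686 (L l77 (T t1687 N))))) (K a149 (M a154 (F (L l42 (T t1710 (L l66 (T t1711 N)))))) (K a213 (Fr a170 a255 l476 (Fr a42 a21 l68 (Fr a106 a234 l390 (Fr a192 a149 l519 (V t581))))) (K a42 (M a62 (F (T t1693 (L l206 (L l390 (L l474 (T t1697 (L l22 (L l306 (T t1695 N)))))))))) (K a106 (M a204 (F (T t1686 (L l77 (T t1687 N))))) (K a170 (M a86 (L l206 (F (L l66 (L l390 (T t369 (L l82 (L l174 (L l306 (L l333 (T t1701 (L l66 (L l174 (L l390 (T t1702 (L l174 (L l333 (T t1703 (K a154 (M a186 (F (L l66 (L l390 (T t369 (L l82 (L l174 (L l306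 (L l333 (T t1701 (L l66 (L l174 (L l209 (L l390 (T t1702 (L l174 (L l333 (T t1703 N)))))))))))))))))) (K a186 (M a154 (F (T t1704 (L l318 (L l404 (T t1705 (L l66 (L l174 (L l390 (T t1706 N)))))))))) N)))))))))))))))))))) (K a255 (M a204 (F (T t1686 (L l154 (L l315 (L l439 (T t1712 N))))))) N))))))))))))))))))) (K a206 (M a138 (F (T t52 (L l77 (T t1698 (L l66 (L l77 (T t1708 N)))))))) N)))))))))))))))))))))⟩
def e0_63__70_2 : Ent 4 := ⟨[a0, a63], [a70, a3], (M a192 (L l333 (F (T t47 (L l475 (T t21 (L l475 (T t35 (L l475 (T t202 (L l475 (T t37 (K a64 (M a51 (L l333 (F (T t1713 (L l9 (T t1294 (T t1714 (K a204 (M a137 (F (T t841 (L l120 (L l144 (L l453 (T t1715 N))))))) (K a137 (M a204 (F (T t1716 (L l9 (T t592 N))))) N))))))))) (K a128 (M a51 (L l333 (F (T t1717 (L l9 (T t1294 (L l196 (L l220 (T t1714 (K a204 (M a137 (F (T t848 (L l453 (T t1715 N))))) (K a137 (M a204 (F (T t1718 (L l9 (T t592 N))))) N)))))))))))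 (K a21 (M a204 (F (T t1719 (L l9 (L l85 (T t1720 (L l347 (T t1721 N)))))))) (K a85 (M a204 (F (L l458 (T t1722 (L l43 (L l347 (T t1723 (L l77 (L l126 (L l144 (T t1724 N))))))))))) (K a149 (M a12 (L l333 (F (T t1725 (L l43 (L l347 (L l371 (T t122 (L l43 (L l202 (L l220 (L l347 (L l371 (T t1726 (L l43 (L l495 (T t228 (K a204 (M a137 (F (T t1252 (L l77 (L l331 (L l491 (T t1727 N))))))) (K a137 (M a204 (F (T t1728 (L l43 (L l495 (T t153 N)))))) N))))))))))))))))))) (K a42 (M a204 (F (T t1722 (L l43 (T t1723 (T t1721 N)))))) (K a106 (M a12 (L l333 (F (T t150 (L l85 (T t159 (L l43 (L l85 (L l501 (T t1729 (L l43 (L l132 (L l144 (L l390 (L l408 (T t228 (K a204 (M a137 (F (T t150 (L l77 (L l132 (L l144 (L l331 (T t1727 N)))))))) (K a137 (M a204 (F (T t1730 (L l475 (T t765 N))))) N)))))))))))))))))) (K a170 (M a204 (F (L l390 (T t1731 (L l9 (L l77 (L l315 (L l464 (T t1732 (L l208 (L l220 (T t1721 N))))))))))))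 (K a255 (M a204 (L l475 (F (T t1719 (L l9 (L l470 (T t1733 (L l439 (T t1721 (K a87 (M a171 (F (T t1722 (L l43 (L l439 (T t1734 (L l125 (L l439 (T t1721 N))))))))) (K a171 (M a87 (F (T t1731 (L l9 (L l77 (L l470 (T t1735 (L l439 (T t1721 N))))))))) N))))))))))) (K a204 (M a137 (F (T t47 (L l290 (L l475 (T t21 (L l290 (L l475 (T t35 (L l290 (L l475 (T t202 (L l290 (L l475 (T t37 (K a64 (M a145 (F (L l120 (T t1736 (L l144 (L l315 (T t1737 N))))))) (K a128 (M a145 (F (T t1736 (L l160 (L l315 (T t1737 N)))))) (K a21 (M a132 (F (T t1738 (L l307 (L l330 (T t1739 N)))))) (K a85 (M a132 (F (L l43 (L l365 (L l513 (T t1740 (L l144 (L l307 (L l330 (T t1739 N)))))))))) (K a149 (M a132 (F (L l43 (L l513 (T t1740 (L l307 (L l330 (T t1739 N)))))))) (K a42 (M a132 (F (L l26 (L l390 (T t1738 (L l307 (L l330 (T t1739 N)))))))) (K a106 (M a132 (F (L l132 (T t1741 (L l144 (L l307 (L l330 (T t1739 N)))))))) (K a170 (M a132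 (F (L l390 (T t1738 (L l206 (L l208 (L l307 (L l330 (T t1739 N))))))))) (K a255 (M a132 (L l290 (L l475 (F (T t1738 (L l307 (L l330 (T t1739 (K a221 (M a238 (L l475 (F (T t1742 (L l307 (L l330 (T t1739 (K a87 (M a171 (F (T t1742 (L l307 (L l330 (T t1739 N)))))) (K a171 (M a87 (F (T t1742 (L l219 (L l307 (L l330 (T t1739 N))))))) N))))))))) (K a238 (M a221 (L l475 (F (L l396 (T t1738 (L l307 (L l330 (T t1739 (K a87 (M a171 (F (L l396 (T t1738 (L l307 (L l330 (T t1739 N))))))) (K a171 (M a87 (F (L l396 (T t1738 (L l219 (L l307 (L l330 (T t1739 N)))))))) N)))))))))) (K a87 (M a171 (L l290 (F (T t1738 (L l307 (L l330 (T t1739 (K a221 (M a238 (F (T t1742 (L l307 (L l330 (T t1739 N)))))) (K a238 (M a221 (F (L l396 (T t1738 (L l307 (L l330 (T t1739 N))))))) N))))))))) (K a171 (M a87 (L l290 (F (T t1738 (L l219 (L l307 (L l330 (T t1739 (K a221 (M a238 (F (T t1742 (L l219 (L l307 (L l330 (T t1739 N))))))) (K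 a238 (M a221 (F (L l396 (T t1738 (L l219 (L l307 (L l330 (T t1739 N)))))))) N)))))))))) N)))))))))))) N)))))))))))))))))))))))) (K a137 (M a204 (F (T t1681 (L l9 (L l154 (L l321 (T t1733 (L l43 (T t1723 N))))))))) N)))))))))))))))))))))))⟩
def e0_63__70_3 : Ent 4 := ⟨[a0, a63], [a70, a4], (M a85 (F (T t88 (L l50 (T t52 (T t89 (T t90 (K a64 (M a16 (F (T t97 (L l77 (L l84 (L l314 (T t96 (L l116 (T t98 N))))))))) (K a192 (M a16 (F (T t504 (L l77 (L l314 (T t96 (L l296 (T t98 N)))))))) (K a21 (M a48 (L l50 (F (T t99 (T t50 (L l47 (T t100 (K a38 (M a55 (F (T t261 (L l46 (T t1743 N))))) (K a55 (M a38 (F (T t99 (T t50 (L l31 (L l47 (T t100 N))))))) N))))))))) (K a149 (M a16 (F (T t101 (L l375 (T t97 (L l170 (T t102 N))))))) (K a213 (Fr a170 a255 l476 (Fr a42 a21 l68 (Fr a106 a234 l390 (Fr a192 a149 l519 (V t581))))) (K a42 (M a48 (F (T t364 (L l390 (T t50 (L l28 (T t100 N))))))) (K a106 (M a48 (F (T t99 (L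 l50 (T t1 (L l390 (T t50 N))))))) (K a170 (M a16 (F (L l404 (T t113 (L l390 (T t98 (L l390 (L l404 (T t97 (L l404 (T t174 N))))))))))) (K a255 (M a16 (F (T t504 (L l289 (T t113 (L l289 (L l296 (T t98 N)))))))) N))))))))))))))))⟩
def e0_63__70_4 : Ent 4 := ⟨[a0, a63], [a70, a5], (M a85 (F (T t88 (L l47 (T t52 (T t89 (T t90 (K a64 (M a240 (F (T t933 (T t387 N)))) (K a192 (M a48 (F (T t935 (L l47 (L l339 (T t3 (L l268 (T t50 N)))))))) (K a21 (M a204 (L l47 (F (T t1684 (T t1575 (T t1691 (K a37 (M a53 (F (T t1744 (T t1745 N)))) (K a53 (M a37 (F (T t1746 (T t1575 (L l491 (T t1747 N)))))) N)))))))) (K a149 (M a48 (F (T t99 (L l47 (T t3 (L l220 (T t50 N))))))) (K a213 (Fr a170 a255 l476 (Fr a42 a21 l68 (Fr a106 a234 l390 (Fr a192 a149 l519 (V t581))))) (K a42 (M a48 (F (T t364 (L l390 (T t50 (L l28 (L l47 (T t100 N)))))))) (K a106 (M a48 (F (T t99 (L l47 (L l411 (T t3 (L l390 (T t50 N)))))))) (K a170 (M a4 (F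 (L l464 (T t130 (L l77 (L l390 (T t131 (L l390 (L l464 (T t519 (L l464 (T t938 N)))))))))))) (K a255 (M a4 (F (T t129 (L l265 (T t130 (L l77 (L l265 (L l296 (T t131 N))))))))) N))))))))))))))))⟩
def e0_63__70_5 : Ent 4 := ⟨[a0, a63], [a70, a6], (M a149 (L l312 (F (T t5 (T t175 (T t176 (T t177 (K a192 (M a29 (L l312 (F (T t956 (L l1 (L l272 (T t641 (L l272 (L l296 (T t957 (K a134 (M a198 (F (T t1748 (L l1 (L l272 (L l314 (T t641 (L l272 (L l296 (T t957 N)))))))))) (K a198 (M a134 (F (L l85 (T t1749 (L l272 (L l296 (T t957 N))))))) N)))))))))))) (K a21 (M a195 (L l312 (F (T t1750 (L l6 (L l9 (L l330 (L l333 (T t1114 (T t1115 (K a134 (M a198 (F (T t1751 (L l161 (T t1752 N))))) (K a198 (M a134 (F (T t1753 (L l77 (L l229 (T t1754 N)))))) N)))))))))))) (K a85 (M a12 (L l312 (F (T t958 (T t122 (L l85 (L l144 (L l333 (T t648 (K a134 (M a198 (F (T t650 (T t122 (L l85 (L l144 (L l153 (L l333 (T t648 N)))))))))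 (K a198 (M a134 (F (T t991 (L l229 (L l237 (L l330 (T t1755 N))))))) N))))))))))) (K a213 (Fr a106 a192 l519 (Fr a42 a21 l68 (Fr a170 a234 l390 (Fr a255 a85 l476 (V t582))))) (K a42 (M a195 (L l312 (F (T t1750 (L l9 (L l85 (L l333 (L l390 (T t1756 (T t1115 (K a134 (M a198 (F (T t1751 (L l161 (L l390 (T t1752 N)))))) (K a198 (M a134 (F (T t1757 (L l77 (L l229 (T t1754 N)))))) N)))))))))))) (K a106 (M a12 (L l312 (F (T t122 (L l1 (L l408 (T t649 (L l390 (L l408 (T t960 (L l390 (T t961 (K a134 (M a198 (F (T t122 (L l1 (L l314 (L l408 (T t649 (L l153 (L l390 (T t961 (L l390 (L l408 (T t960 N))))))))))))) (K a198 (M a134 (F (T t122 (L l85 (L l98 (L l132 (T t1758 N))))))) N)))))))))))))) (K a170 (M a12 (L l312 (F (T t958 (L l402 (T t122 (L l85 (L l333 (L l390 (T t648 (K a134 (M a198 (F (T t650 (L l402 (T t122 (L l85 (L l153 (L l333 (L l390 (T t648 N)))))))))) (K a198 (M a134 (F (T t991 (L l1 (L l77 (L l237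 (T t1759 N))))))) N)))))))))))) (K a191 (M a240 (L l312 (F (T t962 (L l315 (T t963 (K a134 (M a198 (F (T t962 (L l153 (L l315 (T t963 N)))))) (K a198 (M a134 (F (T t962 (L l315 (T t963 N))))) N)))))))) (K a255 (M a193 (L l312 (F (T t1760 (T t1761 (L l9 (L l333 (L l475 (T t1762 (K a134 (M a198 (F (T t1761 (L l290 (L l315 (L l333 (L l336 (T t1763 N)))))))) (K a198 (M a134 (F (T t1761 (L l9 (L l234 (L l470 (T t1764 N))))))) N))))))))))) (K a134 (M a198 (F (T t5 (T t175 (T t176 (T t177 (K a192 (M a150 (F (L l48 (T t1765 (L l228 (L l296 (L l338 (T t1766 N)))))))) (K a21 (M a148 (F (T t1767 (L l48 (L l50 (T t1768 N)))))) (K a85 (M a196 (F (L l48 (T t1769 (L l85 (L l144 (T t1770 N))))))) (K a213 (Fr a106 a192 l519 (Fr a42 a21 l68 (Fr a170 a234 l390 (Fr a255 a85 l476 (V t582))))) (K a42 (M a196 (F (L l48 (T t1771 (L l85 (L l390 (T t1770 N))))))) (K a106 (M a150 (F (L l48 (T t1765 (L l338 (L l390 (T t1766 N)))))))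 (K a170 (M a196 (F (L l48 (T t1769 (L l85 (L l208 (L l390 (T t1770 N)))))))) (K a191 (M a240 (F (T t962 (L l153 (L l315 (T t963 N)))))) (K a255 (M a196 (F (L l48 (T t1771 (L l85 (T t1770 N)))))) N))))))))))))))) (K a198 (M a134 (F (T t5 (T t175 (T t176 (T t177 (K a192 (M a4 (F (L l85 (T t1772 (L l48 (L l124 (L l296 (L l492 (T t1773 N))))))))) (K a21 (M a132 (F (T t1774 (L l9 (L l85 (T t1775 N)))))) (K a85 (M a132 (F (T t1774 (L l9 (L l85 (L l144 (T t1775 N))))))) (K a213 (Fr a106 a192 l519 (Fr a42 a21 l68 (Fr a170 a234 l390 (Fr a255 a85 l476 (V t582))))) (K a42 (M a132 (F (T t1774 (L l9 (L l85 (L l390 (T t1775 N))))))) (K a106 (M a4 (F (L l85 (T t1772 (L l48 (L l102 (L l124 (L l390 (L l492 (T t1773 N)))))))))) (K a170 (M a132 (F (T t1774 (L l9 (L l85 (L l208 (L l390 (T t1775 N)))))))) (K a191 (M a240 (F (T t962 (L l315 (T t963 N))))) (K a255 (M a4 (F (L l85 (T t1772 (L l48 (L l124 (L l265 (L l296 (L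 l492 (T t1773 N)))))))))) N))))))))))))))) N))))))))))))))))))⟩
def e0_63__70_6 : Ent 4 := ⟨[a0, a63], [a70, a7], (M a149 (L l315 (F (T t5 (T t175 (T t176 (T t177 (K a192 (M a15 (L l315 (F (T t1254 (L l1 (L l268 (T t1026 (L l268 (L l296 (T t1031 (L l296 (T t1776 (K a196 (M a133 (L l232 (F (T t1777 (L l484 (T t732 (L l296 (T t1778 (K a200 (M a204 (F (T t1777 (L l77 (L l82 (L l229 (L l236 (L l309 (L l310 (T t1779 N)))))))))) (K a204 (M a200 (L l333 (F (T t1777 (L l484 (L l508 (T t716 (L l77 (T t1780 (K a137 (M a3 (F (T t1777 (L l330 (L l502 (L l514 (T t665 N))))))) (K a3 (M a137 (L l309 (F (T t1777 (L l229 (L l231 (L l236 (T t1781 (K a129 (M a66 (F (T t1777 (L l45 (L l484 (L l508 (T t732 (L l77 (T t1780 N))))))))) (K a66 (Fr a129 a141 l157 (V t1782)) N)))))))))) N))))))))))) N)))))))))) (K a133 (M a196 (F (T t1783 (L l124 (L l296 (L l457 (T t1784 (L l1 (L l160 (L l268 (L l311 (T t1026 N)))))))))))) N))))))))))))))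 (K a21 (M a204 (L l315 (F (T t1054 (L l85 (T t1283 (L l77 (T t1044 (K a196 (M a133 (F (L l82 (T t1325 (L l77 (L l310 (T t1044 N))))))) (K a133 (M a196 (F (T t1785 (L l49 (L l50 (T t1786 N)))))) N)))))))))) (K a85 (M a196 (F (L l144 (T t1787 (L l1 (L l124 (L l126 (L l458 (T t1788 (L l1 (L l144 (L l458 (T t1789 (L l124 (L l126 (T t1790 N)))))))))))))))) (K a213 (Fr a106 a192 l519 (Fr a42 a21 l68 (Fr a170 a234 l390 (Fr a255 a85 l476 (V t582))))) (K a42 (M a204 (L l315 (F (T t1054 (L l85 (L l390 (T t1283 (L l77 (T t1044 (K a196 (M a133 (F (T t1791 (L l7 (L l330 (L l390 (T t1792 N))))))) (K a133 (M a196 (F (T t1785 (L l49 (T t1786 N))))) N))))))))))) (K a106 (M a150 (L l315 (F (L l98 (T t1002 (L l390 (T t999 (L l98 (T t1000 (L l390 (T t1793 (K a196 (M a133 (F (L l312 (L l408 (T t1794 (L l278 (L l390 (T t1766 N)))))))) (K a133 (M a196 (F (L l49 (T t1795 (L l390 (T t1793 N)))))) N))))))))))))) (K a170 (M a204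 (L l315 (F (T t1042 (L l77 (L l390 (T t1053 (L l208 (L l390 (T t1055 (L l208 (T t1056 (K a196 (M a133 (F (T t1791 (L l7 (L l206 (L l330 (L l390 (T t1792 N)))))))) (K a133 (M a196 (F (T t1785 (L l49 (T t1786 N))))) N)))))))))))))) (K a191 (M a196 (F (T t1787 (L l124 (L l457 (T t1784 (L l1 (T t1789 N)))))))) (K a255 (M a196 (F (T t1787 (L l77 (L l124 (T t1796 (L l1 (L l470 (T t1789 N))))))))) (K a196 (M a133 (F (T t177 (L l82 (T t1325 (L l77 (L l278 (T t1797 N)))))))) (K a133 (M a196 (F (T t25 (L l49 (T t1798 (L l1 (L l124 (T t1788 N)))))))) N))))))))))))))))))⟩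
def e0_63__70_7 : Ent 4 := ⟨[a0, a63], [a70, a8], (M a85 (F (T t52 (L l56 (T t88 (L l56 (T t89 (L l464 (T t90 (K a64 (M a204 (F (L l464 (T t1744 (L l56 (L l315 (L l316 (T t1576 N)))))))) (K a192 (M a16 (F (L l77 (T t96 (L l56 (L l339 (T t97 (L l56 (L l296 (T t98 N)))))))))) (K a21 (M a48 (F (T t99 (L l464 (T t50 (L l47 (T t100 N))))))) (K a149 (M a16 (F (T t101 (L l56 (L l375 (T t97 (L l56 (L l170 (T t102 N))))))))) (K a213 (Fr a170 a255 l476 (Fr a42 a21 l68 (Fr a106 a234 l390 (Fr a192 a149 l519 (V t581))))) (K a42 (M a59 (F (T t104 (L l390 (L l464 (T t105 (L l26 (L l316 (T t106 (L l316 (L l390 (L l464 (T t107 N))))))))))))) (K a106 (M a48 (F (T t99 (L l2 (T t1 (L l390 (L l464 (T t50 N)))))))) (K a170 (M a89 (F (L l178 (T t108 (L l56 (L l390 (T t109 (L l178 (L l316 (T t110 (L l56 (L l178 (L l390 (T t111 N)))))))))))))) (K a255 (M a16 (F (L l56 (T t112 (L l289 (T t113 (L l56 (L l289 (L l296 (T t98 N))))))))))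 N))))))))))))))))))⟩
def e0_63__70_8 : Ent 4 := ⟨[a0, a63], [a70, a9], (M a149 (F (T t5 (T t175 (T t176 (T t177 (K a192 (M a53 (F (T t939 (L l236 (T t179 (L l77 (L l236 (L l296 (T t180 N))))))))) (K a21 (M a48 (F (T t4 (T t13 (L l18 (T t14 N)))))) (K a85 (M a16 (F (T t97 (L l144 (T t190 (L l94 (T t278 N))))))) (K a213 (Fr a106 a192 l519 (Fr a42 a21 l68 (Fr a170 a234 l390 (Fr a255 a85 l476 (V t582))))) (K a42 (M a48 (F (T t187 (L l390 (T t13 (L l54 (T t14 N))))))) (K a106 (M a48 (F (L l411 (T t3 (L l498 (T t14 (L l390 (L l498 (T t6 (L l390 (T t26 N))))))))))) (K a170 (M a48 (F (T t4 (L l2 (L l462 (T t1 (L l390 (T t13 N)))))))) (K a191 (M a240 (F (T t962 (L l315 (T t963 N))))) (K a255 (M a16 (F (T t504 (L l266 (T t190 (L l289 (L l296 (T t191 N)))))))) N)))))))))))))))⟩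
def e0_63__70_9 : Ent 4 := ⟨[a0, a63], [a70, a10], (M a85 (F (T t52 (L l54 (T t88 (L l54 (T t89 (L l462 (T t90 (K a64 (M a16 (F (L l54 (T t97 (L l77 (L l84 (T t96 (L l54 (L l116 (T t98 N)))))))))) (K a192 (M a16 (F (L l54 (L l339 (T t97 (L l77 (T t96 (L l54 (L l296 (T t98 N)))))))))) (K a21 (M a48 (F (T t99 (L l462 (T t50 (L l47 (L l318 (T t100 N)))))))) (K a149 (M a48 (F (T t99 (L l54 (L l375 (T t0 (L l220 (L l462 (T t50 N))))))))) (K a213 (Fr a170 a255 l476 (Fr a42 a21 l68 (Fr a106 a234 l390 (Fr a192 a149 l519 (V t581))))) (K a42 (M a58 (F (T t118 (L l390 (L l462 (T t119 (L l28 (L l318 (T t120 (L l318 (L l390 (L l462 (T t121 N))))))))))))) (K a106 (M a12 (F (T t122 (L l2 (L l132 (T t123 (L l333 (L l390 (L l462 (T t124 N)))))))))) (K a170 (M a90 (F (L l54 (L l180 (L l390 (T t1799 (L l54 (L l390 (T t126 (L l82 (L l180 (L l318 (T t127 (L l54 (L l180 (L l390 (T t128 (L l180 (L l315 (T t125 N))))))))))))))))))))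 (K a255 (M a4 (F (L l2 (L l54 (T t129 (L l2 (L l265 (T t130 (L l54 (L l77 (L l265 (L l296 (T t131 N))))))))))))) N))))))))))))))))))⟩
def e0_63__70_10 : Ent 4 := ⟨[a0, a63], [a70, a11], (M a149 (F (T t5 (T t175 (T t176 (T t177 (K a192 (M a53 (F (T t178 (L l236 (T t179 (L l77 (L l236 (L l296 (T t180 N))))))))) (K a21 (M a48 (F (T t4 (T t13 (L l18 (T t14 N)))))) (K a85 (M a16 (F (T t504 (L l144 (T t190 (L l57 (L l94 (L l465 (T t278 N))))))))) (K a213 (Fr a106 a192 l519 (Fr a42 a21 l68 (Fr a170 a234 l390 (Fr a255 a85 l476 (V t582))))) (K a42 (M a48 (F (T t187 (L l390 (T t13 (L l54 (T t14 N))))))) (K a106 (M a48 (F (L l2 (T t48 (L l498 (T t14 (L l390 (L l498 (T t6 (L l390 (T t26 N))))))))))) (K a170 (M a48 (F (T t4 (L l2 (L l7 (L l462 (T t1 (L l390 (T t13 N))))))))) (K a191 (M a240 (F (T t962 (L l315 (T t963 N))))) (K a255 (M a16 (F (T t112 (L l266 (T t190 (L l289 (L l296 (T t191 N)))))))) N)))))))))))))))⟩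
def e0_63__70_11 : Ent 4 := ⟨[a0, a63], [a70, a12], (M a48 (F (T t48 (L l3 (T t1 (L l3 (T t2 (L l3 (T t3 (L l3 (T t0 (K a16 (M a60 (F (T t138 (L l9 (L l14 (L l18 (L l333 (T t67 (T t65 N))))))))) (K a32 (M a60 (F (T t138 (L l9 (L l333 (T t67 (L l24 (L l28 (T t65 N))))))))) (K a21 (M a192 (F (T t54 (L l478 (T t27 (L l47 (L l347 (T t29 N)))))))) (K a37 (M a192 (F (T t53 (L l478 (T t27 (L l470 (T t21 N))))))) (K a53 (M a192 (F (T t55 (L l470 (L l491 (T t21 (T t31 N))))))) (K a26 (M a192 (F (T t33 (L l478 (T t27 (L l470 (T t21 N))))))) (K a42 (M a192 (F (T t56 (L l478 (T t27 (L l28 (T t29 N))))))) (K a58 (M a192 (F (T t57 (L l478 (T t27 (L l54 (L l498 (T t31 N)))))))) (K a15 (M a192 (L l3 (F (T t47 (L l478 (L l483 (T t27 (L l325 (L l326 (T t20 (K a13 (M a14 (F (T t1800 (L l325 (L l326 (T t22 (L l478 (L l483 (T t28 N))))))))) (K a14 (M a13 (F (T t1800 (L l325 (L l326 (T t22 (L l478 (L l483 (T t28 N)))))))))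 N)))))))))))) N))))))))))))))))))))⟩
def e0_63__70_12 : Ent 4 := ⟨[a0, a63], [a70, a13], (M a149 (F (T t5 (T t175 (T t176 (T t177 (K a192 (M a53 (F (T t939 (L l236 (T t179 (L l77 (L l236 (L l296 (T t180 N))))))))) (K a21 (M a48 (F (T t4 (T t13 (L l18 (T t14 N)))))) (K a85 (M a16 (F (T t504 (L l144 (T t190 (L l94 (T t278 N))))))) (K a213 (Fr a106 a192 l519 (Fr a42 a21 l68 (Fr a170 a234 l390 (Fr a255 a85 l476 (V t582))))) (K a42 (M a48 (F (T t187 (L l390 (T t13 (L l54 (T t14 N))))))) (K a106 (M a48 (F (T t48 (L l498 (T t14 (L l390 (L l498 (T t6 (L l390 (T t26 N)))))))))) (K a170 (M a48 (F (T t4 (L l3 (L l462 (T t1 (L l390 (T t13 N)))))))) (K a191 (M a240 (F (T t962 (L l315 (L l335 (T t963 N)))))) (K a255 (M a16 (F (T t504 (L l266 (T t190 (L l289 (L l296 (T t191 N)))))))) N)))))))))))))))⟩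
def e0_63__70_13 : Ent 4 := ⟨[a0, a63], [a70, a14], (M a149 (F (T t5 (T t175 (T t176 (T t177 (K a192 (M a53 (F (T t178 (L l236 (T t179 (L l77 (L l236 (L l296 (T t180 N))))))))) (K a21 (M a48 (F (T t4 (T t13 (L l18 (T t14 N)))))) (K a85 (M a16 (F (T t504 (L l144 (T t190 (L l72 (L l94 (L l480 (T t278 N))))))))) (K a213 (Fr a106 a192 l519 (Fr a42 a21 l68 (Fr a170 a234 l390 (Fr a255 a85 l476 (V t582))))) (K a42 (M a48 (F (T t187 (L l390 (T t13 (L l54 (T t14 N))))))) (K a106 (M a48 (F (L l6 (T t48 (L l498 (T t14 (L l390 (L l498 (T t6 (L l390 (T t26 N))))))))))) (K a170 (M a48 (F (T t4 (L l3 (L l6 (L l462 (T t1 (L l390 (T t13 N))))))))) (K a191 (M a240 (F (T t962 (L l315 (T t963 N))))) (K a255 (M a16 (F (T t112 (L l266 (T t190 (L l289 (L l296 (T t191 N)))))))) N)))))))))))))))⟩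
def e0_63__70_14 : Ent 4 := ⟨[a0, a63], [a70, a15], (M a12 (F (T t150 (L l73 (T t122 (L l73 (T t151 (L l73 (T t152 (L l73 (T t153 (K a4 (M a85 (F (T t89 (L l327 (L l333 (T t124 (T t154 N))))))) (K a8 (M a85 (F (L l469 (T t52 (L l327 (L l333 (L l464 (T t124 (L l56 (T t154 N)))))))))) (K a21 (M a192 (F (T t158 (L l85 (L l327 (L l333 (T t156 (L l15 (L l347 (T t157 N)))))))))) (K a25 (M a192 (F (T t155 (L l85 (L l327 (L l333 (T t156 (L l469 (T t21 N))))))))) (K a29 (M a192 (F (T t1681 (L l85 (L l327 (L l333 (T t156 (T t160 N)))))))) (K a38 (M a192 (F (T t161 (L l85 (L l327 (L l333 (T t156 (L l469 (T t21 N))))))))) (K a42 (M a192 (F (T t161 (L l85 (L l327 (L l333 (T t156 (L l56 (T t157 N))))))))) (K a46 (M a192 (F (T t57 (L l85 (L l327 (L l333 (T t156 (L l26 (L l408 (T t160 N)))))))))) (K a51 (M a68 (L l73 (F (T t1801 (L l439 (L l469 (T t767 (L l124 (L l439 (L l469 (L l513 (T t164 (L l315 (T t163 (K a39 (M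 a27 (F (T t1801 (L l63 (T t166 N))))) (K a27 (M a39 (F (T t1801 (L l63 (T t167 N))))) N)))))))))))))))) N))))))))))))))))))))⟩
def e0_63__70_15 : Ent 4 := ⟨[a0, a63], [a70, a16], (M a85 (F (T t88 (L l18 (T t52 (T t89 (T t90 (K a64 (M a240 (F (T t1384 (T t933 (T t1550 N))))) (K a192 (M a4 (F (T t1604 (L l344 (T t1399 (L l77 (L l296 (T t131 N)))))))) (K a21 (M a12 (L l18 (F (T t1368 (L l333 (T t124 (L l15 (T t574 (K a26 (M a31 (F (T t1366 (L l14 (T t1369 N))))) (K a31 (M a26 (F (T t1368 (L l333 (T t124 (L l13 (L l15 (T t574 N)))))))) N)))))))))) (K a149 (M a4 (F (T t1489 (L l495 (T t519 (L l202 (T t1372 N))))))) (K a213 (Fr a170 a255 l476 (Fr a42 a21 l68 (Fr a106 a234 l390 (Fr a192 a149 l519 (V t581))))) (K a42 (M a240 (F (T t1384 (L l390 (T t386 (L l82 (T t1385 N))))))) (K a106 (M a12 (F (T t1368 (L l18 (T t122 (L l333 (L l390 (T t124 N)))))))) (K a170 (M a4 (F (L l464 (T t130 (L l77 (L l390 (T t131 (L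 l390 (L l464 (T t519 (L l464 (T t938 N)))))))))))) (K a255 (M a4 (F (T t1604 (L l265 (T t130 (L l77 (L l265 (L l296 (T t131 N))))))))) N))))))))))))))))⟩
def e0_63__70_16 : Ent 4 := ⟨[a0, a63], [a70, a17], (M a85 (F (T t88 (L l15 (T t52 (T t89 (T t90 (K a64 (M a204 (F (T t1575 (L l315 (T t1576 N))))) (K a192 (M a16 (F (T t112 (L l77 (T t96 (L l296 (T t98 N))))))) (K a21 (M a60 (L l15 (F (T t936 (T t114 (L l65 (T t523 (K a25 (M a29 (F (T t936 (L l18 (L l71 (T t1802 N)))))) (K a29 (M a25 (F (T t936 (T t114 (L l59 (L l65 (T t523 N))))))) N))))))))) (K a149 (M a16 (F (T t112 (L l77 (T t173 (L l170 (T t102 N))))))) (K a213 (Fr a170 a255 l476 (Fr a42 a21 l68 (Fr a106 a234 l390 (Fr a192 a149 l519 (V t581))))) (K a42 (M a48 (F (L l28 (T t99 (L l390 (T t50 (L l28 (T t100 N)))))))) (K a106 (M a48 (F (T t99 (L l15 (T t1 (L l390 (T t50 N))))))) (K a170 (M a16 (F (L l404 (T t113 (L l390 (T t98 (L l390 (L l404 (T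 t97 (L l404 (T t174 N))))))))))) (K a255 (M a16 (F (T t112 (L l289 (T t113 (L l289 (L l296 (T t98 N)))))))) N))))))))))))))))⟩
def e0_63__70_17 : Ent 4 := ⟨[a0, a63], [a70, a18], (M a85 (F (T t88 (T t52 (T t89 (T t90 (K a64 (M a16 (F (T t97 (L l77 (L l84 (T t96 (L l116 (T t98 N)))))))) (K a192 (M a16 (F (T t112 (L l77 (T t96 (L l296 (T t98 N))))))) (K a21 (M a48 (F (T t99 (T t50 (L l47 (T t100 N)))))) (K a149 (M a16 (F (T t112 (L l77 (T t173 (L l16 (L l170 (L l366 (T t102 N))))))))) (K a213 (Fr a170 a255 l476 (Fr a42 a21 l68 (Fr a106 a234 l390 (Fr a192 a149 l519 (V t581))))) (K a42 (M a48 (F (L l28 (T t99 (L l390 (T t50 (L l28 (T t100 N)))))))) (K a106 (M a48 (F (T t1 (L l77 (L l104 (T t509 (L l390 (T t50 N)))))))) (K a170 (M a16 (F (L l404 (T t113 (L l390 (T t98 (L l390 (L l404 (T t97 (L l404 (T t174 N))))))))))) (K a255 (M a16 (F (T t112 (L l289 (T t113 (L l289 (L l296 (T t98 N)))))))) N)))))))))))))))⟩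
def e0_63__70_18 : Ent 4 := ⟨[a0, a63], [a70, a19], (M a85 (F (T t88 (T t52 (T t89 (T t90 (K a64 (M a48 (F (T t50 (L l367 (T t568 N))))) (K a192 (M a16 (F (T t112 (L l77 (L l367 (T t96 (L l296 (L l367 (T t98 N))))))))) (K a21 (M a48 (F (L l367 (T t99 (T t50 (L l47 (L l367 (T t100 N)))))))) (K a149 (M a16 (F (T t112 (L l77 (L l367 (T t173 (L l170 (T t102 N)))))))) (K a213 (Fr a170 a255 l476 (Fr a42 a21 l68 (Fr a106 a234 l390 (Fr a192 a149 l519 (V t581))))) (K a42 (M a48 (F (L l10 (T t364 (L l390 (T t50 (L l28 (L l367 (T t100 N))))))))) (K a106 (M a48 (F (T t1 (L l77 (L l104 (L l367 (T t509 (L l390 (T t50 N))))))))) (K a170 (M a16 (F (L l390 (L l404 (T t112 (L l367 (L l390 (T t98 (L l367 (L l404 (T t113 (L l367 (L l404 (T t174 N)))))))))))))) (K a255 (M a16 (F (T t112 (L l289 (L l367 (T t113 (L l289 (L l296 (L l367 (T t98 N)))))))))) N)))))))))))))))⟩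
def e0_63__70_19 : Ent 4 := ⟨[a0, a63], [a70, a20], (M a85 (F (T t88 (L l11 (T t52 (T t89 (T t90 (K a64 (M a16 (F (T t97 (L l77 (L l84 (T t96 (L l116 (T t98 N)))))))) (K a192 (M a16 (F (T t112 (L l77 (T t96 (L l296 (T t98 N))))))) (K a21 (M a51 (L l11 (F (T t943 (T t944 (L l50 (T t945 (K a22 (M a23 (F (T t943 (L l18 (L l51 (L l315 (T t1803 N))))))) (K a23 (M a22 (F (T t943 (T t944 (L l49 (L l50 (T t945 N))))))) N))))))))) (K a149 (M a16 (F (T t112 (L l77 (T t173 (L l170 (T t102 N))))))) (K a213 (Fr a170 a255 l476 (Fr a42 a21 l68 (Fr a106 a234 l390 (Fr a192 a149 l519 (V t581))))) (K a42 (M a48 (F (L l28 (T t99 (L l390 (T t50 (L l28 (T t100 N)))))))) (K a106 (M a48 (F (T t99 (L l11 (T t1 (L l390 (T t50 N))))))) (K a170 (M a16 (F (L l404 (T t113 (L l390 (T t98 (L l390 (L l404 (T t97 (L l404 (T t174 N))))))))))) (K a255 (M a16 (F (T t112 (L l289 (T t113 (L l289 (L l296 (T t98 N)))))))) N))))))))))))))))⟩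
def e0_63__70_20 : Ent 4 := ⟨[a0, a63], [a70, a22], (M a192 (F (T t21 (L l11 (T t35 (T t202 (L l66 (T t37 (K a64 (M a48 (F (T t20 (L l11 (T t1 (L l66 (L l116 (L l144 (T t31 N))))))))) (K a128 (M a48 (F (T t206 (L l11 (T t1 (L l66 (T t31 N))))))) (K a21 (M a20 (F (T t948 (L l66 (L l347 (T t949 (L l65 (L l347 (T t950 N))))))))) (K a85 (M a16 (F (T t210 (L l66 (T t97 (L l16 (L l66 (L l94 (L l144 (T t211 N)))))))))) (K a149 (M a48 (F (T t837 (L l11 (L l347 (L l491 (T t1 (L l11 (L l170 (L l220 (L l347 (L l491 (T t213 (L l66 (L l375 (T t214 N)))))))))))))))) (K a42 (M a2 (F (T t1363 (L l11 (L l390 (T t1804 (L l82 (L l390 (T t1365 N))))))))) (K a106 (M a48 (F (T t27 (L l11 (T t1 (L l11 (L l411 (T t213 (L l66 (L l104 (L l144 (L l390 (L l498 (T t214 N)))))))))))))) (K a170 (M a32 (F (T t218 (L l11 (T t219 (L l11 (L l51 (L l180 (L l220 (T t220 N)))))))))) (K a255 (M a16 (F (T t1805 (L l66 (L l469 (T t97 (L l16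 (L l66 (T t211 N))))))))) N)))))))))))))))))⟩
def e0_63__70_21 : Ent 4 := ⟨[a0, a63], [a70, a23], (M a149 (F (T t5 (L l11 (T t175 (T t176 (T t177 (K a192 (M a53 (F (T t178 (L l236 (T t179 (L l77 (L l236 (L l296 (T t180 N))))))))) (K a21 (M a48 (L l11 (F (T t4 (T t13 (L l18 (T t14 (K a20 (M a22 (F (T t4 (T t13 (L l14 (L l18 (T t14 N))))))) (K a22 (M a20 (F (T t181 (L l19 (L l50 (T t183 N)))))) N))))))))) (K a85 (M a16 (F (L l17 (T t97 (L l144 (T t190 (L l94 (T t278 N)))))))) (K a213 (Fr a106 a192 l519 (Fr a42 a21 l68 (Fr a170 a234 l390 (Fr a255 a85 l476 (V t582))))) (K a42 (M a48 (F (T t187 (L l390 (T t13 (L l54 (T t14 N))))))) (K a106 (M a48 (F (L l11 (T t1 (L l498 (T t14 (L l390 (L l498 (T t6 (L l390 (T t26 N))))))))))) (K a170 (M a48 (F (T t4 (L l11 (L l462 (T t1 (L l390 (T t13 N)))))))) (K a191 (M a240 (F (T t962 (L l315 (T t963 N))))) (K a255 (M a16 (F (T t112 (L l266 (T t190 (L l289 (L l296 (T t191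 N)))))))) N))))))))))))))))⟩
def e0_63__70_22 : Ent 4 := ⟨[a0, a63], [a70, a24], (M a85 (F (T t88 (T t52 (T t89 (T t90 (K a64 (M a60 (F (T t114 (L l52 (T t115 N))))) (K a192 (M a16 (F (T t112 (L l77 (T t96 (L l296 (T t98 N))))))) (K a21 (M a48 (F (T t99 (T t50 (L l47 (T t100 N)))))) (K a149 (M a16 (F (T t112 (L l77 (T t173 (L l12 (L l170 (L l356 (T t102 N))))))))) (K a213 (Fr a170 a255 l476 (Fr a42 a21 l68 (Fr a106 a234 l390 (Fr a192 a149 l519 (V t581))))) (K a42 (M a48 (F (L l28 (T t99 (L l390 (T t50 (L l28 (T t100 N)))))))) (K a106 (M a48 (F (T t1 (L l77 (L l104 (T t509 (L l390 (T t50 N)))))))) (K a170 (M a16 (F (L l404 (T t113 (L l390 (T t98 (L l390 (L l404 (T t97 (L l404 (T t174 N))))))))))) (K a255 (M a16 (F (T t112 (L l289 (T t113 (L l289 (L l296 (T t98 N)))))))) N)))))))))))))))⟩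
def e0_63__70_23 : Ent 4 := ⟨[a0, a63], [a70, a25], (M a192 (F (T t21 (L l15 (T t35 (T t202 (L l56 (T t37 (K a64 (M a48 (F (T t20 (L l15 (T t1 (L l56 (L l116 (L l144 (T t31 N))))))))) (K a128 (M a48 (F (T t206 (L l15 (T t1 (L l56 (T t31 N))))))) (K a21 (M a17 (F (T t207 (L l56 (L l315 (L l347 (T t208 (L l56 (L l315 (L l333 (T t209 N))))))))))) (K a85 (M a16 (F (T t210 (L l56 (T t97 (L l12 (L l56 (L l94 (L l144 (T t211 N)))))))))) (K a149 (M a48 (F (T t837 (L l15 (L l347 (L l491 (T t1 (L l15 (L l170 (L l220 (L l347 (L l491 (T t213 (L l56 (L l375 (T t214 N)))))))))))))))) (K a42 (M a8 (F (T t1806 (L l15 (L l390 (T t1807 (L l15 (T t217 N)))))))) (K a106 (M a48 (F (T t27 (L l15 (T t1 (L l15 (L l411 (T t213 (L l56 (L l104 (L l144 (L l390 (L l498 (T t214 N)))))))))))))) (K a170 (M a32 (F (T t218 (L l15 (T t219 (L l15 (L l71 (L l180 (L l220 (T t220 N)))))))))) (K a255 (M a16 (F (T t1805 (L l56 (L l469 (T t97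 (L l12 (L l56 (T t211 N))))))))) N)))))))))))))))))⟩
def e0_63__70_24 : Ent 4 := ⟨[a0, a63], [a70, a26], (M a192 (F (T t21 (L l18 (T t35 (T t202 (L l54 (T t37 (K a64 (M a12 (F (T t450 (L l18 (T t122 (L l54 (L l80 (L l144 (T t160 N))))))))) (K a128 (M a12 (F (T t221 (L l18 (T t122 (L l54 (T t160 N))))))) (K a21 (M a16 (F (T t210 (L l54 (L l347 (T t222 (L l347 (T t223 N)))))))) (K a85 (M a48 (F (T t28 (L l347 (T t20 (L l18 (L l54 (L l144 (L l368 (T t224 N)))))))))) (K a149 (M a12 (F (T t1725 (L l18 (L l347 (L l371 (T t122 (L l18 (L l85 (L l202 (L l220 (L l347 (L l371 (T t227 (L l54 (L l495 (T t228 N))))))))))))))))) (K a42 (M a10 (F (L l315 (T t229 (L l18 (L l390 (T t230 (L l82 (L l390 (T t231 N)))))))))) (K a106 (M a12 (F (L l18 (T t122 (L l85 (L l333 (T t156 (L l18 (L l85 (L l501 (T t227 (L l54 (L l132 (L l144 (L l390 (L l408 (T t228 N))))))))))))))))) (K a170 (M a48 (F (T t837 (L l54 (L l390 (T t206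 (L l220 (L l404 (T t29 N))))))))) (K a255 (M a224 (F (T t233 (L l82 (T t232 (L l18 (L l75 (T t234 N)))))))) N)))))))))))))))))⟩
def e0_63__70_25 : Ent 4 := ⟨[a0, a63], [a70, a27], (M a149 (F (T t5 (T t175 (T t176 (T t177 (K a192 (M a53 (F (T t178 (L l236 (T t179 (L l77 (L l236 (L l296 (T t180 N))))))))) (K a21 (M a48 (F (T t4 (T t13 (L l18 (T t14 N)))))) (K a85 (M a16 (F (L l455 (T t112 (L l144 (T t190 (L l12 (L l94 (L l357 (T t278 N)))))))))) (K a213 (Fr a106 a192 l519 (Fr a42 a21 l68 (Fr a170 a234 l390 (Fr a255 a85 l476 (V t582))))) (K a42 (M a48 (F (T t187 (L l390 (T t13 (L l54 (T t14 N))))))) (K a106 (M a48 (F (T t48 (L l498 (T t14 (L l390 (L l498 (T t6 (L l390 (T t26 N)))))))))) (K a170 (M a48 (F (T t4 (L l73 (L l462 (T t1 (L l390 (T t13 N)))))))) (K a191 (M a240 (F (T t962 (L l315 (T t963 N))))) (K a255 (M a16 (F (T t112 (L l266 (T t190 (L l289 (L l296 (T t191 N)))))))) N)))))))))))))))⟩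
def e0_63__70_26 : Ent 4 := ⟨[a0, a63], [a70, a28], (M a85 (F (T t88 (T t52 (T t89 (T t90 (K a64 (M a48 (F (T t50 (L l362 (T t568 N))))) (K a192 (M a16 (F (T t112 (L l77 (L l362 (T t96 (L l296 (L l362 (T t98 N))))))))) (K a21 (M a48 (F (L l362 (T t99 (T t50 (L l47 (L l362 (T t100 N)))))))) (K a149 (M a16 (F (T t112 (L l77 (L l362 (T t173 (L l170 (T t102 N)))))))) (K a213 (Fr a170 a255 l476 (Fr a42 a21 l68 (Fr a106 a234 l390 (Fr a192 a149 l519 (V t581))))) (K a42 (M a48 (F (L l14 (T t364 (L l390 (T t50 (L l28 (L l362 (T t100 N))))))))) (K a106 (M a48 (F (T t1 (L l77 (L l104 (L l362 (T t509 (L l390 (T t50 N))))))))) (K a170 (M a16 (F (L l390 (L l404 (T t112 (L l362 (L l390 (T t98 (L l362 (L l404 (T t113 (L l362 (L l404 (T t174 N)))))))))))))) (K a255 (M a16 (F (T t112 (L l289 (L l362 (T t113 (L l289 (L l296 (L l362 (T t98 N)))))))))) N)))))))))))))))⟩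
def e0_63__70_27 : Ent 4 := ⟨[a0, a63], [a70, a29], (M a149 (F (T t5 (L l15 (T t175 (T t176 (T t177 (K a192 (M a53 (F (T t178 (L l236 (T t179 (L l77 (L l236 (L l296 (T t180 N))))))))) (K a21 (M a48 (L l15 (F (T t4 (T t13 (L l18 (T t14 (K a17 (M a25 (F (T t4 (T t13 (L l10 (L l18 (T t14 N))))))) (K a25 (M a17 (F (T t181 (L l19 (L l65 (T t642 N)))))) N))))))))) (K a85 (M a16 (F (L l13 (T t97 (L l144 (T t190 (L l94 (T t278 N)))))))) (K a213 (Fr a106 a192 l519 (Fr a42 a21 l68 (Fr a170 a234 l390 (Fr a255 a85 l476 (V t582))))) (K a42 (M a48 (F (T t187 (L l390 (T t13 (L l54 (T t14 N))))))) (K a106 (M a48 (F (L l15 (T t1 (L l498 (T t14 (L l390 (L l498 (T t6 (L l390 (T t26 N))))))))))) (K a170 (M a48 (F (T t4 (L l15 (L l462 (T t1 (L l390 (T t13 N)))))))) (K a191 (M a240 (F (T t962 (L l315 (T t963 N))))) (K a255 (M a16 (F (T t112 (L l266 (T t190 (L l289 (L l296 (T t191 N)))))))) N))))))))))))))))⟩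
def e0_63__70_28 : Ent 4 := ⟨[a0, a63], [a70, a30], (M a149 (F (T t5 (T t175 (T t176 (T t177 (K a192 (M a53 (F (T t178 (L l236 (T t179 (L l77 (L l236 (L l296 (T t180 N))))))))) (K a21 (M a48 (F (T t4 (T t13 (L l18 (T t14 N)))))) (K a85 (M a16 (F (L l455 (T t112 (L l144 (T t190 (L l16 (L l94 (L l372 (T t278 N)))))))))) (K a213 (Fr a106 a192 l519 (Fr a42 a21 l68 (Fr a170 a234 l390 (Fr a255 a85 l476 (V t582))))) (K a42 (M a48 (F (T t187 (L l390 (T t13 (L l54 (T t14 N))))))) (K a106 (M a48 (F (T t48 (L l498 (T t14 (L l390 (L l498 (T t6 (L l390 (T t26 N)))))))))) (K a170 (M a48 (F (T t4 (L l63 (L l462 (T t1 (L l390 (T t13 N)))))))) (K a191 (M a240 (F (T t962 (L l315 (T t963 N))))) (K a255 (M a16 (F (T t112 (L l266 (T t190 (L l289 (L l296 (T t191 N)))))))) N)))))))))))))))⟩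
def e0_63__70_29 : Ent 4 := ⟨[a0, a63], [a70, a31], (M a149 (F (T t5 (L l18 (T t175 (T t176 (T t177 (K a192 (M a29 (F (T t956 (L l272 (T t641 (L l272 (L l296 (L l363 (T t957 N))))))))) (K a21 (M a12 (L l18 (F (T t958 (L l85 (L l333 (T t648 (L l50 (T t649 (K a16 (M a26 (F (T t958 (L l85 (L l333 (T t648 (L l50 (T t649 N)))))))) (K a26 (M a16 (F (T t958 (L l50 (L l57 (T t652 N)))))) N))))))))))) (K a85 (M a48 (F (T t4 (L l18 (T t1 (L l144 (T t13 N))))))) (K a213 (Fr a106 a192 l519 (Fr a42 a21 l68 (Fr a170 a234 l390 (Fr a255 a85 l476 (V t582))))) (K a42 (M a48 (F (T t187 (L l390 (T t13 (L l18 (L l54 (T t14 N)))))))) (K a106 (M a12 (F (L l408 (T t649 (L l13 (L l18 (T t122 (L l390 (L l408 (T t960 (L l390 (T t961 N)))))))))))) (K a170 (M a48 (F (T t4 (L l18 (L l462 (T t1 (L l390 (T t13 N)))))))) (K a191 (M a240 (F (T t1091 (L l315 (T t963 N))))) (K a255 (M a48 (F (T t964 (L l18 (L l469 (T t1 (L l266 (T t13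 N)))))))) N))))))))))))))))⟩
def e0_63__70_30 : Ent 4 := ⟨[a0, a63], [a70, a32], (M a85 (F (T t52 (L l28 (T t88 (L l28 (T t89 (L l404 (T t90 (K a64 (M a240 (F (L l376 (T t1384 (L l404 (T t933 (L l28 (L l376 (T t1550 N))))))))) (K a192 (M a4 (F (T t1399 (L l28 (L l489 (T t519 (L l28 (L l77 (L l296 (T t131 N)))))))))) (K a21 (M a240 (F (T t1552 (L l404 (T t933 (L l82 (L l376 (T t1385 N)))))))) (K a149 (M a4 (F (T t1371 (L l28 (L l495 (T t519 (L l28 (L l202 (T t1372 N))))))))) (K a213 (Fr a170 a255 l476 (Fr a42 a21 l68 (Fr a106 a234 l390 (Fr a192 a149 l519 (V t581))))) (K a42 (M a47 (F (T t1808 (L l390 (L l404 (T t1404 (L l54 (L l376 (T t1403 (L l376 (L l390 (L l404 (T t1809 N))))))))))))) (K a106 (M a12 (F (T t1368 (L l20 (T t122 (L l333 (L l390 (L l404 (T t124 N))))))))) (K a170 (M a101 (F (L l206 (L l330 (T t1810 (L l28 (L l77 (L l390 (T t1811 (L l206 (L l330 (L l376 (T t1812 (L l28 (L l206 (L l390 (T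 t1813 N))))))))))))))))) (K a255 (M a4 (F (L l28 (T t129 (L l265 (T t130 (L l28 (L l77 (L l265 (L l296 (T t131 N))))))))))) N))))))))))))))))))⟩
def e0_63__70_31 : Ent 4 := ⟨[a0, a63], [a70, a33], (M a85 (F (T t88 (T t52 (T t89 (T t90 (K a64 (M a16 (F (L l20 (T t97 (L l77 (L l84 (T t666 (L l116 (T t98 N))))))))) (K a192 (M a16 (F (L l20 (T t112 (L l77 (L l296 (T t666 (L l296 (T t98 N))))))))) (K a21 (M a48 (F (L l20 (T t99 (T t50 (L l20 (L l47 (T t100 N)))))))) (K a149 (M a16 (F (L l20 (T t112 (L l77 (T t666 (L l170 (T t102 N)))))))) (K a213 (Fr a170 a255 l476 (Fr a42 a21 l68 (Fr a106 a234 l390 (Fr a192 a149 l519 (V t581))))) (K a42 (M a48 (F (T t364 (L l390 (T t50 (L l20 (L l28 (T t100 N)))))))) (K a106 (M a48 (F (T t364 (T t1 (L l390 (T t50 N)))))) (K a170 (M a16 (F (L l20 (L l404 (T t113 (L l390 (T t98 (L l20 (L l390 (L l404 (T t97 (L l20 (L l404 (T t174 N)))))))))))))) (K a255 (M a16 (F (L l20 (T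 t112 (L l289 (L l296 (T t98 (L l20 (L l289 (T t113 N)))))))))) N)))))))))))))))⟩
def e0_63__70_32 : Ent 4 := ⟨[a0, a63], [a70, a34], (M a85 (F (T t52 (L l26 (T t88 (L l26 (T t89 (L l402 (T t90 (K a64 (M a16 (F (L l20 (T t258 (L l26 (L l116 (T t98 (L l20 (L l26 (T t97 N)))))))))) (K a192 (M a16 (F (L l20 (L l296 (T t258 (L l26 (T t966 (L l20 (L l26 (L l339 (T t97 N))))))))))) (K a21 (M a48 (F (L l20 (T t99 (L l402 (T t50 (L l20 (L l47 (T t100 N))))))))) (K a149 (M a16 (F (L l77 (T t666 (L l20 (L l26 (L l375 (T t97 (L l26 (L l170 (T t102 N))))))))))) (K a213 (Fr a170 a255 l476 (Fr a42 a21 l68 (Fr a106 a234 l390 (Fr a192 a149 l519 (V t581))))) (K a42 (M a46 (F (T t1814 (L l390 (L l402 (T t1389 (L l56 (L l378 (T t1390 (L l378 (L l390 (L l402 (T t1391 N))))))))))))) (K a106 (M a48 (F (T t1 (L l20 (L l77 (L l104 (T t509 (L l390 (L l402 (T t50 N)))))))))) (K a170 (M a102 (F (L l208 (T t1392 (L l26 (L l77 (L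 l315 (L l390 (T t1393 (L l208 (L l315 (L l378 (T t1394 (L l26 (L l208 (L l315 (L l390 (T t1395 N)))))))))))))))))) (K a255 (M a16 (F (L l20 (L l26 (T t112 (L l20 (L l289 (T t113 (L l26 (L l289 (L l296 (T t98 N)))))))))))) N))))))))))))))))))⟩
def e0_63__70_33 : Ent 4 := ⟨[a0, a63], [a70, a35], (M a85 (F (T t88 (T t52 (T t89 (T t90 (K a64 (M a16 (F (L l20 (T t97 (L l77 (L l84 (T t666 (L l116 (T t98 N))))))))) (K a192 (M a16 (F (L l20 (T t112 (L l77 (L l296 (T t666 (L l296 (T t98 N))))))))) (K a21 (M a48 (F (L l20 (T t99 (T t50 (L l20 (L l47 (T t100 N)))))))) (K a149 (M a16 (F (L l20 (T t112 (L l77 (T t666 (L l170 (T t102 N)))))))) (K a213 (Fr a170 a255 l476 (Fr a42 a21 l68 (Fr a106 a234 l390 (Fr a192 a149 l519 (V t581))))) (K a42 (M a48 (F (L l403 (T t364 (L l390 (T t50 (L l20 (L l28 (T t100 N))))))))) (K a106 (M a48 (F (T t1 (L l20 (L l77 (L l104 (T t509 (L l390 (T t50 N))))))))) (K a170 (M a16 (F (L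 l20 (L l404 (T t113 (L l390 (T t98 (L l20 (L l390 (L l404 (T t97 (L l20 (L l404 (T t174 N)))))))))))))) (K a255 (M a16 (F (L l20 (T t112 (L l289 (L l296 (T t98 (L l20 (L l289 (T t113 N)))))))))) N)))))))))))))))⟩
def e0_63__70_34 : Ent 4 := ⟨[a0, a63], [a70, a36], (M a85 (F (T t88 (T t52 (T t89 (T t90 (K a64 (M a60 (F (T t114 (L l24 (T t115 N))))) (K a192 (M a16 (F (L l24 (T t112 (L l77 (L l296 (T t666 (L l296 (T t98 N))))))))) (K a21 (M a48 (F (L l24 (T t99 (T t50 (L l24 (L l47 (T t100 N)))))))) (K a149 (M a16 (F (L l24 (T t112 (L l77 (T t666 (L l170 (T t102 N)))))))) (K a213 (Fr a170 a255 l476 (Fr a42 a21 l68 (Fr a106 a234 l390 (Fr a192 a149 l519 (V t581))))) (K a42 (M a48 (F (T t364 (L l390 (T t50 (L l24 (L l28 (T t100 N)))))))) (K a106 (M a48 (F (T t364 (T t1 (L l390 (T t50 N)))))) (K a170 (M a16 (F (L l24 (L l404 (T t113 (L l390 (T t98 (L l24 (L l390 (L l404 (T t97 (L l24 (L l404 (T t174 N))))))))))))))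 (K a255 (M a16 (F (L l24 (T t112 (L l289 (L l296 (T t98 (L l24 (L l289 (T t113 N)))))))))) N)))))))))))))))⟩
def e0_63__70_35 : Ent 4 := ⟨[a0, a63], [a70, a37], (M a192 (F (T t21 (L l47 (T t35 (T t202 (L l28 (T t37 (K a64 (M a12 (F (T t450 (L l47 (T t122 (L l28 (L l80 (L l144 (T t160 N))))))))) (K a128 (M a12 (F (T t221 (L l47 (T t122 (L l28 (T t160 N))))))) (K a21 (M a5 (F (L l82 (T t1815 (L l28 (L l347 (T t1816 (L l28 (T t1817 N))))))))) (K a85 (M a48 (F (T t27 (L l47 (L l347 (T t20 (L l144 (L l368 (T t224 N))))))))) (K a149 (M a12 (F (T t1725 (L l47 (L l347 (L l371 (T t122 (L l47 (L l85 (L l202 (L l220 (L l347 (L l371 (T t227 (L l28 (L l495 (T t228 N))))))))))))))))) (K a42 (M a32 (F (T t218 (L l47 (L l390 (T t1818 (L l47 (T t1819 N)))))))) (K a106 (M a12 (F (L l47 (T t122 (L l85 (L l333 (T t156 (L l47 (L l85 (L l501 (T t227 (L l28 (L l132 (L l144 (L l390 (L l408 (T t228 N))))))))))))))))) (K a170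 (M a48 (F (T t19 (L l390 (T t206 (L l28 (L l47 (L l220 (L l404 (T t29 N)))))))))) (K a255 (M a208 (F (T t1820 (T t1821 (L l28 (L l75 (T t1822 N))))))) N)))))))))))))))))⟩
def e0_63__70_36 : Ent 4 := ⟨[a0, a63], [a70, a38], (M a192 (F (T t21 (L l50 (T t35 (T t202 (L l26 (T t37 (K a64 (M a48 (F (T t20 (L l50 (T t1 (L l26 (L l116 (L l144 (T t31 N))))))))) (K a128 (M a48 (F (T t206 (L l50 (T t1 (L l26 (T t31 N))))))) (K a21 (M a4 (F (T t1823 (L l26 (L l347 (T t1408 (L l347 (T t1409 N)))))))) (K a85 (M a16 (F (T t210 (L l26 (T t97 (L l26 (L l72 (L l94 (L l144 (T t211 N)))))))))) (K a149 (M a48 (F (T t837 (L l50 (L l347 (L l491 (T t1 (L l50 (L l170 (L l220 (L l347 (L l491 (T t213 (L l26 (L l375 (T t214 N)))))))))))))))) (K a42 (M a34 (F (T t1410 (L l50 (L l390 (T t1411 (L l333 (L l390 (T t1412 N))))))))) (K a106 (M a48 (F (T t27 (L l50 (T t1 (L l50 (L l411 (T t213 (L l26 (L l104 (L l144 (L l390 (L l498 (T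 t214 N)))))))))))))) (K a170 (M a32 (F (T t218 (L l50 (T t219 (L l21 (L l50 (L l180 (L l220 (T t220 N)))))))))) (K a255 (M a16 (F (T t1805 (L l26 (L l469 (T t97 (L l26 (L l72 (T t211 N))))))))) N)))))))))))))))))⟩
def e0_63__70_37 : Ent 4 := ⟨[a0, a63], [a70, a39], (M a85 (F (T t88 (T t52 (T t89 (T t90 (K a64 (M a16 (F (T t258 (L l73 (T t97 (L l116 (T t98 N))))))) (K a192 (M a16 (F (T t260 (L l73 (L l339 (T t97 (L l296 (T t98 N)))))))) (K a21 (M a48 (F (T t99 (T t50 (L l47 (T t100 N)))))) (K a149 (M a16 (F (T t112 (L l77 (T t173 (L l170 (T t102 N))))))) (K a213 (Fr a170 a255 l476 (Fr a42 a21 l68 (Fr a106 a234 l390 (Fr a192 a149 l519 (V t581))))) (K a42 (M a48 (F (T t364 (L l390 (T t50 (L l28 (T t100 N))))))) (K a106 (M a48 (F (T t99 (L l73 (T t1 (L l390 (T t50 N))))))) (K a170 (M a16 (F (L l404 (T t113 (L l390 (T t98 (L l73 (L l390 (L l404 (T t97 (L l404 (T t174 N)))))))))))) (K a255 (M a16 (F (T t112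 (L l289 (T t113 (L l289 (L l296 (T t98 N)))))))) N)))))))))))))))⟩
def e0_63__70_38 : Ent 4 := ⟨[a0, a63], [a70, a40], (M a85 (F (T t52 (L l22 (T t88 (L l22 (T t89 (L l392 (T t90 (K a64 (M a252 (F (L l392 (T t91 (L l22 (L l388 (T t92 N))))))) (K a192 (M a16 (F (L l24 (L l296 (T t258 (L l22 (T t966 (L l22 (L l24 (L l339 (T t97 N))))))))))) (K a21 (M a48 (F (L l24 (T t99 (L l392 (T t50 (L l24 (L l47 (T t100 N))))))))) (K a149 (M a16 (F (L l77 (T t666 (L l22 (L l24 (L l375 (T t97 (L l22 (L l170 (T t102 N))))))))))) (K a213 (Fr a170 a255 l476 (Fr a42 a21 l68 (Fr a106 a234 l390 (Fr a192 a149 l519 (V t581))))) (K a42 (M a43 (F (T t667 (L l390 (L l392 (T t265 (L l66 (L l330 (L l388 (T t264 (L l388 (L l390 (L l392 (T t1824 N)))))))))))))) (K a106 (M a48 (F (T t1 (L l24 (L l77 (L l104 (T t509 (L l390 (L l392 (T t50 N)))))))))) (K a170 (M a105 (F (L l218 (T t669 (L l22 (L l390 (T t670 (L l218 (L l388 (T t967 (L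 l22 (L l218 (L l390 (T t672 N)))))))))))))) (K a255 (M a16 (F (L l22 (L l24 (T t112 (L l24 (L l289 (T t113 (L l22 (L l289 (L l296 (T t98 N)))))))))))) N))))))))))))))))))⟩
def e0_63__70_39 : Ent 4 := ⟨[a0, a63], [a70, a41], (M a192 (F (T t21 (L l65 (T t35 (T t202 (L l22 (T t37 (K a64 (M a48 (F (T t20 (L l65 (T t1 (L l22 (L l116 (L l144 (T t31 N))))))))) (K a128 (M a48 (F (T t206 (L l65 (T t1 (L l22 (T t31 N))))))) (K a21 (M a1 (F (L l82 (L l330 (T t1825 (L l22 (L l347 (T t1826 (L l22 (L l330 (T t1827 N))))))))))) (K a85 (M a16 (F (T t210 (L l22 (T t97 (L l22 (L l57 (L l94 (L l144 (T t211 N)))))))))) (K a149 (M a48 (F (T t837 (L l65 (L l347 (L l491 (T t1 (L l65 (L l170 (L l220 (L l347 (L l491 (T t213 (L l22 (L l375 (T t214 N)))))))))))))))) (K a42 (M a40 (F (T t1828 (L l65 (L l390 (T t1829 (L l65 (T t1830 N)))))))) (K a106 (M a48 (F (T t27 (L l65 (T t1 (L l65 (L l411 (T t213 (L l22 (L l104 (L l144 (L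 l390 (L l498 (T t214 N)))))))))))))) (K a170 (M a32 (F (T t218 (L l65 (T t219 (L l25 (L l65 (L l180 (L l220 (T t220 N)))))))))) (K a255 (M a16 (F (T t1805 (L l22 (L l469 (T t97 (L l22 (L l57 (T t211 N))))))))) N)))))))))))))))))⟩
def e0_63__70_40 : Ent 4 := ⟨[a0, a63], [a70, a43], (M a149 (F (T t175 (L l22 (T t5 (L l22 (T t176 (L l393 (T t177 (K a192 (M a53 (F (L l22 (T t178 (L l236 (T t179 (L l22 (L l77 (L l236 (L l296 (T t180 N))))))))))) (K a21 (M a48 (F (T t4 (L l393 (T t13 (L l18 (T t14 N))))))) (K a85 (M a16 (F (L l22 (T t97 (L l144 (L l393 (T t190 (L l22 (L l94 (T t278 N)))))))))) (K a213 (Fr a106 a192 l519 (Fr a42 a21 l68 (Fr a170 a234 l390 (Fr a255 a85 l476 (V t582))))) (K a42 (M a40 (F (T t973 (L l390 (L l393 (T t974 (L l66 (L l391 (T t969 (L l390 (L l391 (L l393 (T t972 N))))))))))))) (K a106 (M a169 (F (L l142 (L l333 (T t981 (L l22 (L l390 (T t977 (L l142 (L l330 (L l333 (L l391 (T t978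 (L l22 (L l124 (L l142 (L l330 (L l390 (T t979 N))))))))))))))))))) (K a170 (M a48 (F (T t4 (L l462 (T t1 (L l390 (L l393 (T t13 N)))))))) (K a191 (M a16 (F (L l22 (T t97 (L l393 (T t190 (L l22 (L l213 (T t191 N))))))))) (K a255 (M a16 (F (T t192 (L l22 (T t193 (L l266 (L l393 (T t190 N)))))))) N))))))))))))))))))⟩
def e0_63__70_41 : Ent 4 := ⟨[a0, a63], [a70, a44], (M a85 (F (T t88 (T t52 (T t89 (T t90 (K a64 (M a60 (F (T t114 (L l24 (T t115 N))))) (K a192 (M a16 (F (L l24 (T t112 (L l77 (L l296 (T t666 (L l296 (T t98 N))))))))) (K a21 (M a48 (F (L l24 (T t99 (T t50 (L l24 (L l47 (T t100 N)))))))) (K a149 (M a16 (F (L l24 (T t112 (L l77 (T t666 (L l170 (T t102 N)))))))) (K a213 (Fr a170 a255 l476 (Fr a42 a21 l68 (Fr a106 a234 l390 (Fr a192 a149 l519 (V t581))))) (K a42 (M a48 (F (L l398 (T t364 (L l390 (T t50 (L l24 (L l28 (T t100 N))))))))) (K a106 (M a48 (F (T t1 (L l24 (L l77 (L l104 (T t509 (L l390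 (T t50 N))))))))) (K a170 (M a16 (F (L l24 (L l404 (T t113 (L l390 (T t98 (L l24 (L l390 (L l404 (T t97 (L l24 (L l404 (T t174 N)))))))))))))) (K a255 (M a16 (F (L l24 (T t112 (L l289 (L l296 (T t98 (L l24 (L l289 (T t113 N)))))))))) N)))))))))))))))⟩
def e0_63__70_42 : Ent 4 := ⟨[a0, a63], [a70, a45], (M a85 (F (T t88 (T t52 (T t89 (T t90 (K a64 (M a16 (F (T t258 (L l63 (T t97 (L l116 (T t98 N))))))) (K a192 (M a16 (F (T t260 (L l63 (L l339 (T t97 (L l296 (T t98 N)))))))) (K a21 (M a48 (F (T t99 (T t50 (L l47 (T t100 N)))))) (K a149 (M a16 (F (T t112 (L l77 (T t173 (L l170 (T t102 N))))))) (K a213 (Fr a170 a255 l476 (Fr a42 a21 l68 (Fr a106 a234 l390 (Fr a192 a149 l519 (V t581))))) (K a42 (M a48 (F (T t364 (L l390 (T t50 (L l28 (T t100 N))))))) (K a106 (M a48 (F (T t99 (L l63 (T t1 (L l390 (T t50 N))))))) (K a170 (M a16 (F (L l404 (T t113 (L l390 (T t98 (L l63 (L l390 (L l404 (T t97 (L l404 (T t174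 N)))))))))))) (K a255 (M a16 (F (T t112 (L l289 (T t113 (L l289 (L l296 (T t98 N)))))))) N)))))))))))))))⟩
def e0_63__70_43 : Ent 4 := ⟨[a0, a63], [a70, a46], (M a149 (F (T t175 (L l26 (T t5 (L l26 (T t176 (L l408 (T t177 (K a192 (M a53 (F (L l26 (T t178 (L l236 (T t179 (L l26 (L l77 (L l236 (L l296 (T t180 N))))))))))) (K a21 (M a48 (F (T t4 (L l408 (T t13 (L l18 (T t14 N))))))) (K a85 (M a16 (F (L l26 (T t97 (L l144 (L l408 (T t190 (L l26 (L l94 (T t278 N)))))))))) (K a213 (Fr a106 a192 l519 (Fr a42 a21 l68 (Fr a170 a234 l390 (Fr a255 a85 l476 (V t582))))) (K a42 (M a34 (F (L l124 (T t279 (L l390 (L l408 (T t280 (L l56 (L l315 (L l396 (T t281 (L l390 (L l396 (L l408 (T t282 N))))))))))))))) (K a106 (M a166 (F (L l132 (T t283 (L l26 (L l77 (L l390 (T t284 (L l132 (L l396 (T t285 (L l26 (L l132 (L l390 (T t286 N))))))))))))))) (K a170 (M a48 (F (T t4 (L l462 (T t1 (L l390 (L l408 (T t13 N)))))))) (K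 a191 (M a16 (F (L l26 (T t97 (L l408 (T t190 (L l26 (L l213 (T t191 N))))))))) (K a255 (M a16 (F (T t192 (L l26 (T t193 (L l266 (L l408 (T t190 N)))))))) N))))))))))))))))))⟩
def e0_63__70_44 : Ent 4 := ⟨[a0, a63], [a70, a47], (M a149 (F (T t175 (L l28 (T t5 (L l28 (T t176 (L l411 (T t177 (K a192 (M a29 (F (L l23 (L l28 (T t956 (L l23 (L l272 (T t641 (L l28 (L l272 (L l296 (T t957 N)))))))))))) (K a21 (M a48 (F (T t4 (L l411 (T t13 (L l18 (L l397 (T t14 N)))))))) (K a85 (M a48 (F (T t4 (L l28 (L l455 (T t2 (L l144 (L l411 (T t13 N))))))))) (K a213 (Fr a106 a192 l519 (Fr a42 a21 l68 (Fr a170 a234 l390 (Fr a255 a85 l476 (V t582))))) (K a42 (M a32 (F (T t983 (L l390 (L l411 (T t984 (L l54 (L l397 (T t985 (L l390 (L l397 (L l411 (T t986 N))))))))))))) (K a106 (M a165 (F (L l130 (L l315 (T t987 (L l28 (L l77 (L l390 (T t988 (L l130 (L l315 (L l397 (T t989 (L l28 (L l130 (L l390 (T t990 N)))))))))))))))))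 (K a170 (M a12 (F (T t991 (L l402 (T t122 (L l85 (L l333 (L l390 (L l411 (T t648 N)))))))))) (K a191 (M a144 (F (L l411 (T t992 (L l28 (L l213 (T t993 (L l411 (T t994 N))))))))) (K a255 (M a48 (F (T t16 (L l28 (L l469 (T t2 (L l266 (L l411 (T t13 N))))))))) N))))))))))))))))))⟩
def e0_63__70_45 : Ent 4 := ⟨[a0, a63], [a70, a48], (M a12 (F (T t150 (L l30 (T t122 (L l30 (T t151 (L l30 (T t152 (L l30 (T t153 (K a4 (M a60 (F (T t570 (L l45 (L l46 (L l50 (L l333 (T t67 (T t448 N))))))))) (K a8 (M a60 (F (T t570 (L l45 (L l333 (T t67 (L l52 (L l56 (T t448 N))))))))) (K a21 (M a192 (F (T t158 (L l85 (L l333 (L l508 (T t156 (L l15 (L l347 (T t157 N)))))))))) (K a25 (M a192 (F (T t155 (L l85 (L l333 (L l508 (T t156 (L l440 (T t21 N))))))))) (K a29 (M a192 (F (T t1681 (L l85 (L l333 (L l508 (T t156 (T t160 N)))))))) (K a38 (M a192 (F (T t161 (L l85 (L l333 (L l508 (T t156 (L l440 (T t21 N))))))))) (K a42 (M a192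 (F (T t161 (L l85 (L l333 (L l508 (T t156 (L l56 (T t157 N))))))))) (K a46 (M a192 (F (T t57 (L l85 (L l333 (L l508 (T t156 (L l26 (L l408 (T t160 N)))))))))) (K a51 (M a192 (L l30 (F (T t1681 (L l85 (L l333 (L l508 (L l513 (T t156 (L l415 (L l416 (T t450 (K a49 (M a50 (F (T t1800 (L l415 (L l416 (T t543 (L l315 (L l333 (L l508 (L l513 (T t468 N))))))))))) (K a50 (M a49 (F (T t1800 (L l415 (L l416 (T t543 (L l315 (L l333 (L l508 (L l513 (T t468 N))))))))))) N)))))))))))))) N))))))))))))))))))))⟩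
def e0_63__70_46 : Ent 4 := ⟨[a0, a63], [a70, a49], (M a149 (F (T t5 (T t175 (T t176 (T t177 (K a192 (M a53 (F (T t178 (L l236 (T t179 (L l77 (L l236 (L l296 (T t180 N))))))))) (K a21 (M a48 (F (T t4 (T t13 (L l18 (T t14 N)))))) (K a85 (M a16 (F (T t97 (L l144 (T t190 (L l94 (T t278 N))))))) (K a213 (Fr a106 a192 l519 (Fr a42 a21 l68 (Fr a170 a234 l390 (Fr a255 a85 l476 (V t582))))) (K a42 (M a48 (F (L l54 (T t4 (L l390 (T t13 (L l54 (T t14 N)))))))) (K a106 (M a48 (F (L l35 (T t1 (L l498 (T t14 (L l390 (L l437 (L l498 (T t6 (L l390 (T t26 N)))))))))))) (K a170 (M a48 (F (T t4 (L l35 (L l462 (T t1 (L l390 (T t13 N)))))))) (K a191 (M a60 (F (T t463 (L l485 (T t1256 N))))) (K a255 (M a16 (F (T t112 (L l266 (T t190 (L l289 (L l296 (T t191 N)))))))) N)))))))))))))))⟩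
def e0_63__70_47 : Ent 4 := ⟨[a0, a63], [a70, a50], (M a149 (F (T t5 (T t175 (T t176 (T t177 (K a192 (M a53 (F (L l36 (T t178 (L l77 (L l236 (L l296 (T t180 (L l36 (L l236 (T t179 N))))))))))) (K a21 (M a48 (F (T t7 (L l18 (L l36 (T t14 (T t13 N))))))) (K a85 (M a16 (F (T t97 (L l144 (T t190 (L l72 (L l94 (T t278 N)))))))) (K a213 (Fr a106 a192 l519 (Fr a42 a21 l68 (Fr a170 a234 l390 (Fr a255 a85 l476 (V t582))))) (K a42 (M a48 (F (T t187 (L l390 (T t13 (L l36 (L l54 (T t14 N)))))))) (K a106 (M a48 (F (T t1 (L l36 (L l498 (T t14 (L l36 (L l390 (L l498 (T t6 (L l390 (T t26 N)))))))))))) (K a170 (M a48 (F (T t11 (L l462 (T t1 (L l390 (T t13 N))))))) (K a191 (M a60 (F (T t463 (L l36 (T t1256 N))))) (K a255 (M a16 (F (L l469 (T t97 (L l266 (T t190 (L l289 (L l296 (T t191 N))))))))) N)))))))))))))))⟩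
def e0_63__70_48 : Ent 4 := ⟨[a0, a63], [a70, a51], (M a48 (F (T t48 (L l73 (T t1 (L l73 (T t2 (L l73 (T t3 (L l73 (T t0 (K a16 (M a85 (F (T t89 (L l417 (T t50 (T t51 N)))))) (K a32 (M a85 (F (L l439 (T t52 (L l404 (L l417 (T t50 (L l28 (T t51 N))))))))) (K a21 (M a192 (F (T t54 (L l417 (T t27 (L l47 (L l347 (T t29 N)))))))) (K a37 (M a192 (F (T t53 (L l417 (T t27 (L l439 (T t21 N))))))) (K a53 (M a192 (F (T t55 (L l439 (L l491 (T t21 (T t31 N))))))) (K a26 (M a192 (F (T t33 (L l417 (T t27 (L l439 (T t21 N))))))) (K a42 (M a192 (F (T t56 (L l417 (T t27 (L l28 (T t29 N))))))) (K a58 (M a192 (F (T t57 (L l417 (T t27 (L l54 (L l498 (T t31 N)))))))) (K a15 (M a80 (L l73 (F (T t58 (T t59 (L l439 (L l469 (L l483 (T t60 (K a39 (M a27 (F (T t1831 (L l39 (T t1425 N))))) (K a27 (M a39 (F (T t1831 (L l39 (T t1426 N))))) N))))))))))) N))))))))))))))))))))⟩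
def e0_63__70_49 : Ent 4 := ⟨[a0, a63], [a70, a52], (M a85 (F (T t88 (T t52 (T t89 (T t90 (K a64 (M a16 (F (T t97 (L l77 (L l84 (L l494 (T t96 (L l116 (T t98 N))))))))) (K a192 (M a16 (F (T t260 (L l339 (T t97 (L l296 (T t98 N))))))) (K a21 (M a48 (F (T t99 (L l422 (T t50 (L l31 (L l47 (T t100 N)))))))) (K a149 (M a16 (F (T t112 (L l77 (T t173 (L l170 (T t102 N))))))) (K a213 (Fr a170 a255 l476 (Fr a42 a21 l68 (Fr a106 a234 l390 (Fr a192 a149 l519 (V t581))))) (K a42 (M a48 (F (T t365 (L l390 (L l422 (T t50 (L l28 (L l31 (T t100 N))))))))) (K a106 (M a48 (F (T t99 (L l31 (T t1 (L l390 (L l422 (T t50 N)))))))) (K a170 (M a16 (F (L l390 (L l404 (T t97 (L l390 (T t98 (L l31 (L l404 (T t113 (L l404 (T t174 N)))))))))))) (K a255 (M a16 (F (T t112 (L l31 (L l289 (T t113 (L l289 (L l296 (T t98 N))))))))) N)))))))))))))))⟩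
def e0_63__70_50 : Ent 4 := ⟨[a0, a63], [a70, a53], (M a149 (F (T t5 (L l47 (T t175 (T t176 (T t177 (K a192 (M a29 (F (T t956 (L l272 (T t641 (L l272 (L l296 (T t957 N)))))))) (K a21 (M a12 (L l47 (F (T t958 (L l85 (L l333 (T t648 (L l50 (T t649 (K a5 (M a37 (F (T t958 (L l85 (L l333 (T t648 (L l1 (L l50 (T t649 N))))))))) (K a37 (M a5 (F (T t959 (L l51 (L l65 (L l315 (T t1428 N))))))) N))))))))))) (K a85 (M a4 (F (L l31 (T t519 (L l144 (L l315 (L l333 (T t653 (L l124 (L l126 (T t654 N))))))))))) (K a213 (Fr a106 a192 l519 (Fr a42 a21 l68 (Fr a170 a234 l390 (Fr a255 a85 l476 (V t582))))) (K a42 (M a240 (F (L l315 (T t1090 (L l390 (T t1091 (L l315 (T t1207 N)))))))) (K a106 (M a12 (F (L l47 (T t122 (L l408 (T t649 (L l390 (L l408 (T t960 (L l390 (T t961 N))))))))))) (K a170 (M a12 (F (T t958 (L l47 (L l402 (T t122 (L l85 (L l333 (L l390 (T t648 N)))))))))) (K a191 (M a240 (F (T t1091 (L l315 (L l419 (T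 t963 N)))))) (K a255 (M a208 (F (T t1832 (T t1833 (L l440 (T t1277 N)))))) N))))))))))))))))⟩
def e0_63__70_51 : Ent 4 := ⟨[a0, a63], [a70, a54], (M a149 (F (T t5 (T t175 (T t176 (T t177 (K a192 (M a53 (F (L l36 (T t178 (L l77 (L l236 (L l296 (T t180 (L l36 (L l236 (T t179 N))))))))))) (K a21 (M a48 (F (T t7 (L l18 (L l36 (T t14 (T t13 N))))))) (K a85 (M a16 (F (T t97 (L l144 (T t190 (L l94 (T t278 N))))))) (K a213 (Fr a106 a192 l519 (Fr a42 a21 l68 (Fr a170 a234 l390 (Fr a255 a85 l476 (V t582))))) (K a42 (M a48 (F (L l31 (T t187 (L l390 (T t13 (L l36 (L l54 (T t14 N))))))))) (K a106 (M a48 (F (L l411 (T t3 (L l36 (L l498 (T t14 (L l36 (L l390 (L l498 (T t6 (L l390 (T t26 N))))))))))))) (K a170 (M a48 (F (T t3 (L l31 (T t11 (L l390 (T t13 N))))))) (K a191 (M a48 (F (T t13 (L l36 (T t6 N))))) (K a255 (M a16 (F (L l469 (T t97 (L l266 (T t190 (L l289 (L l296 (T t191 N))))))))) N)))))))))))))))⟩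
def e0_63__70_52 : Ent 4 := ⟨[a0, a63], [a70, a55], (M a149 (F (T t5 (L l50 (T t175 (T t176 (T t177 (K a192 (M a53 (F (T t178 (L l236 (T t179 (L l77 (L l236 (L l296 (L l423 (T t180 N)))))))))) (K a21 (M a48 (L l50 (F (T t4 (T t13 (L l18 (T t14 (K a4 (M a38 (F (T t4 (T t13 (L l18 (T t14 N)))))) (K a38 (M a4 (F (T t7 (L l18 (L l29 (T t518 N)))))) N))))))))) (K a85 (M a16 (F (T t97 (L l144 (T t190 (L l94 (T t278 N))))))) (K a213 (Fr a106 a192 l519 (Fr a42 a21 l68 (Fr a170 a234 l390 (Fr a255 a85 l476 (V t582))))) (K a42 (M a48 (F (L l54 (T t4 (L l390 (T t13 (L l54 (T t14 N)))))))) (K a106 (M a48 (F (L l498 (T t14 (L l31 (L l50 (T t1 (L l390 (L l498 (T t6 (L l390 (T t26 N)))))))))))) (K a170 (M a48 (F (T t4 (L l31 (L l50 (L l462 (T t1 (L l390 (T t13 N))))))))) (K a191 (M a240 (F (T t1091 (L l315 (T t963 N))))) (K a255 (M a16 (F (T t112 (L l266 (T t190 (L l289 (L l296 (T t191 N)))))))) N))))))))))))))))⟩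
def e0_63__70_53 : Ent 4 := ⟨[a0, a63], [a70, a56], (M a85 (F (T t88 (T t52 (T t89 (T t90 (K a64 (M a60 (F (T t114 (L l52 (T t115 N))))) (K a192 (M a16 (F (L l339 (T t97 (L l77 (T t96 (L l296 (T t98 N)))))))) (K a21 (M a48 (F (T t360 (T t50 (L l47 (T t100 N)))))) (K a149 (M a16 (F (L l375 (T t97 (L l77 (T t173 (L l57 (L l170 (L l500 (T t102 N)))))))))) (K a213 (Fr a170 a255 l476 (Fr a42 a21 l68 (Fr a106 a234 l390 (Fr a192 a149 l519 (V t581))))) (K a42 (M a48 (F (T t364 (L l390 (T t50 (L l28 (T t100 N))))))) (K a106 (M a48 (F (T t1 (L l77 (L l104 (T t509 (L l390 (T t50 N)))))))) (K a170 (M a16 (F (L l404 (T t113 (L l390 (T t98 (L l390 (L l404 (T t97 (L l32 (L l404 (T t174 N)))))))))))) (K a255 (M a16 (F (L l469 (T t97 (L l289 (T t113 (L l289 (L l296 (T t98 N))))))))) N)))))))))))))))⟩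
def e0_63__70_54 : Ent 4 := ⟨[a0, a63], [a70, a57], (M a149 (F (T t5 (T t175 (T t176 (T t177 (K a192 (M a53 (F (L l32 (T t178 (L l77 (L l236 (L l296 (T t180 (L l32 (L l236 (T t179 N))))))))))) (K a21 (M a48 (F (T t7 (L l18 (L l32 (T t14 (T t13 N))))))) (K a85 (M a16 (F (T t97 (L l144 (T t190 (L l94 (T t278 N))))))) (K a213 (Fr a106 a192 l519 (Fr a42 a21 l68 (Fr a170 a234 l390 (Fr a255 a85 l476 (V t582))))) (K a42 (M a48 (F (L l35 (T t187 (L l390 (T t13 (L l32 (L l54 (T t14 N))))))))) (K a106 (M a48 (F (L l411 (T t3 (L l32 (L l498 (T t14 (L l32 (L l390 (L l498 (T t6 (L l390 (T t26 N))))))))))))) (K a170 (M a48 (F (T t3 (L l35 (T t11 (L l390 (T t13 N))))))) (K a191 (M a48 (F (T t13 (L l32 (T t6 N))))) (K a255 (M a16 (F (L l469 (T t97 (L l266 (T t190 (L l289 (L l296 (T t191 N))))))))) N)))))))))))))))⟩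
def e0_63__70_55 : Ent 4 := ⟨[a0, a63], [a70, a58], (M a149 (F (T t175 (L l54 (T t5 (L l54 (T t176 (L l498 (T t177 (K a192 (M a29 (F (L l54 (T t956 (L l272 (T t641 (L l54 (L l272 (L l296 (T t957 N)))))))))) (K a21 (M a240 (F (L l82 (T t1834 (L l498 (T t1091 (L l315 (L l426 (T t1207 N))))))))) (K a85 (M a4 (F (L l54 (T t519 (L l144 (L l315 (L l333 (L l498 (T t653 (L l54 (L l124 (L l126 (T t654 N))))))))))))) (K a213 (Fr a106 a192 l519 (Fr a42 a21 l68 (Fr a170 a234 l390 (Fr a255 a85 l476 (V t582))))) (K a42 (M a10 (F (T t1835 (L l315 (L l390 (L l498 (T t656 (L l28 (L l426 (T t655 (L l390 (L l426 (L l498 (T t658 N)))))))))))))) (K a106 (M a154 (F (L l104 (L l330 (T t1836 (L l54 (L l390 (T t1837 (L l77 (L l104 (L l426 (T t1838 (L l54 (L l104 (L l390 (T t1839 N)))))))))))))))) (K a170 (M a12 (F (T t958 (L l402 (T t122 (L l85 (L l333 (L l390 (L l498 (T t648 N)))))))))) (K a191 (M a208 (F (L l498 (T t1277 (L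 l54 (T t1276 (L l54 (T t1275 N)))))))) (K a255 (M a208 (F (L l498 (T t1840 (L l54 (L l440 (T t1276 (L l54 (L l296 (L l469 (T t1275 N))))))))))) N))))))))))))))))))⟩
def e0_63__70_56 : Ent 4 := ⟨[a0, a63], [a70, a59], (M a149 (F (T t175 (L l56 (T t5 (L l56 (T t176 (L l501 (T t177 (K a192 (M a53 (F (L l32 (L l56 (T t178 (L l32 (L l236 (T t179 (L l56 (L l77 (L l236 (L l296 (T t180 N))))))))))))) (K a21 (M a48 (F (L l32 (T t4 (L l501 (T t13 (L l18 (L l32 (T t14 N))))))))) (K a85 (M a16 (F (L l56 (T t97 (L l144 (L l501 (T t190 (L l56 (L l94 (T t278 N)))))))))) (K a213 (Fr a106 a192 l519 (Fr a42 a21 l68 (Fr a170 a234 l390 (Fr a255 a85 l476 (V t582))))) (K a42 (M a8 (F (T t1841 (L l85 (L l390 (L l501 (T t644 (L l26 (L l427 (T t643 (L l390 (L l427 (L l501 (T t1842 N)))))))))))))) (K a106 (M a153 (F (L l102 (T t1843 (L l56 (L l390 (T t1844 (L l77 (L l102 (L l427 (T t1845 (L l56 (L l102 (L l124 (L l390 (T t1846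 N)))))))))))))))) (K a170 (M a48 (F (T t11 (L l462 (T t1 (L l390 (L l501 (T t13 N)))))))) (K a191 (M a16 (F (L l56 (T t97 (L l501 (T t190 (L l56 (L l213 (T t191 N))))))))) (K a255 (M a16 (F (L l32 (T t192 (L l56 (T t193 (L l266 (L l501 (T t190 N))))))))) N))))))))))))))))))⟩
def e0_63__70_57 : Ent 4 := ⟨[a0, a63], [a70, a60], (M a48 (F (T t48 (L l63 (T t1 (L l63 (T t2 (L l63 (T t3 (L l63 (T t0 (K a16 (M a85 (F (T t89 (L l442 (T t50 (T t51 N)))))) (K a32 (M a85 (F (L l434 (T t52 (L l404 (L l442 (T t50 (L l28 (T t51 N))))))))) (K a21 (M a192 (F (T t54 (L l442 (T t27 (L l47 (L l347 (T t29 N)))))))) (K a37 (M a192 (F (T t53 (L l442 (T t27 (L l434 (T t21 N))))))) (K a53 (M a192 (F (T t55 (L l434 (L l491 (T t21 (T t31 N))))))) (K a26 (M a192 (F (T t33 (L l442 (T t27 (L l434 (T t21 N))))))) (K a42 (M a192 (F (T t56 (L l442 (T t27 (L l28 (T t29 N))))))) (K a58 (M a192 (F (T t57 (L l442 (T t27 (L l54 (L l498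 (T t31 N)))))))) (K a15 (M a80 (L l63 (F (T t58 (T t59 (L l434 (L l469 (L l483 (T t60 (K a45 (M a30 (F (T t1831 (L l39 (L l330 (T t293 N)))))) (K a30 (M a45 (F (T t1831 (L l39 (T t294 N))))) N))))))))))) N))))))))))))))))))))⟩
def e0_63__70_58 : Ent 4 := ⟨[a0, a63], [a70, a61], (M a149 (F (T t5 (L l65 (T t175 (T t176 (T t177 (K a192 (M a53 (F (T t178 (L l236 (T t179 (L l77 (L l236 (L l296 (L l443 (T t180 N)))))))))) (K a21 (M a48 (L l65 (F (T t4 (T t13 (L l18 (T t14 (K a1 (M a41 (F (T t7 (L l18 (T t14 (T t13 N)))))) (K a41 (M a1 (F (T t181 (L l18 (L l29 (L l330 (T t295 N))))))) N))))))))) (K a85 (M a16 (F (T t97 (L l144 (T t190 (L l94 (T t278 N))))))) (K a213 (Fr a106 a192 l519 (Fr a42 a21 l68 (Fr a170 a234 l390 (Fr a255 a85 l476 (V t582))))) (K a42 (M a48 (F (L l54 (T t4 (L l390 (T t13 (L l54 (T t14 N)))))))) (K a106 (M a48 (F (L l498 (T t14 (L l35 (L l65 (T t1 (L l390 (L l498 (T t6 (L l390 (T t26 N))))))))))))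 (K a170 (M a48 (F (T t4 (L l35 (L l65 (L l462 (T t1 (L l390 (T t13 N))))))))) (K a191 (M a240 (F (T t1091 (L l315 (T t963 N))))) (K a255 (M a16 (F (T t112 (L l266 (T t190 (L l289 (L l296 (T t191 N)))))))) N))))))))))))))))⟩
def e0_63__70_59 : Ent 4 := ⟨[a0, a63], [a70, a62], (M a149 (F (T t175 (L l66 (T t5 (L l66 (T t176 (L l516 (T t177 (K a192 (M a53 (F (L l36 (L l66 (T t178 (L l36 (L l236 (T t179 (L l66 (L l77 (L l236 (L l296 (T t180 N))))))))))))) (K a21 (M a48 (F (L l36 (T t4 (L l516 (T t13 (L l18 (L l36 (T t14 N))))))))) (K a85 (M a16 (F (L l66 (T t97 (L l144 (L l516 (T t190 (L l66 (L l94 (T t278 N)))))))))) (K a213 (Fr a106 a192 l519 (Fr a42 a21 l68 (Fr a170 a234 l390 (Fr a255 a85 l476 (V t582))))) (K a42 (M a2 (F (L l22 (T t1847 (L l85 (L l390 (L l516 (T t1848 (L l22 (L l432 (T t189 (L l390 (L l432 (L l516 (T t1849 N))))))))))))))) (K a106 (M a150 (F (L l98 (T t1002 (L l66 (L l390 (T t999 (L l98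 (L l432 (T t1000 (L l66 (L l98 (L l390 (T t1001 N)))))))))))))) (K a170 (M a48 (F (T t11 (L l462 (T t1 (L l390 (L l516 (T t13 N)))))))) (K a191 (M a252 (F (L l516 (T t1850 (L l66 (L l432 (T t941 N))))))) (K a255 (M a16 (F (L l36 (T t192 (L l66 (T t193 (L l266 (L l516 (T t190 N))))))))) N))))))))))))))))))⟩
def e0_63__70_60 : Ent 4 := ⟨[a0, a63], [a70, a64], (M a48 (F (T t1 (T t2 (T t3 (T t0 (K a16 (M a60 (F (T t64 (L l14 (L l18 (L l333 (T t67 (T t65 N)))))))) (K a32 (M a60 (F (T t64 (L l333 (T t67 (L l24 (L l28 (T t65 N)))))))) (K a21 (M a101 (F (T t312 (L l116 (T t313 (L l18 (T t314 N))))))) (K a37 (M a52 (F (T t82 (T t83 (L l21 (L l28 (T t84 N))))))) (K a53 (M a12 (F (T t151 (T t443 (L l47 (T t146 N)))))) (K a26 (M a56 (F (T t133 (T t134 (L l12 (L l18 (T t135 N))))))) (K a42 (M a101 (F (T t333 (L l330 (T t334 (L l54 (T t314 N))))))) (K a58 (M a12 (F (T t443 (T t122 (T t146 N))))) (K a15 (M a4 (F (T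 t129 (L l63 (T t528 (T t520 N)))))) N)))))))))))))))⟩
def e0_63__70_61 : Ent 4 := ⟨[a0, a63], [a70, a65], (M a48 (F (T t1 (T t2 (T t3 (T t0 (K a16 (M a60 (F (T t64 (L l14 (L l18 (L l333 (T t67 (T t65 N)))))))) (K a32 (M a60 (F (T t64 (L l333 (T t67 (L l24 (L l28 (T t65 N)))))))) (K a21 (M a192 (F (T t28 (L l47 (L l347 (T t20 (L l47 (L l347 (T t29 N))))))))) (K a37 (M a192 (F (T t19 (L l47 (T t20 (T t21 N)))))) (K a53 (M a192 (F (T t19 (L l491 (T t21 (T t31 N)))))) (K a26 (M a192 (F (T t28 (T t20 (T t21 N))))) (K a42 (M a192 (F (T t19 (T t20 (L l28 (T t29 N)))))) (K a58 (M a192 (F (T t19 (T t21 (L l54 (L l498 (T t31 N))))))) (K a15 (M a192 (F (T t57 (L l483 (T t27 (L l325 (T t20 N))))))) N)))))))))))))))⟩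
def e0_63__70_62 : Ent 4 := ⟨[a0, a63], [a70, a66], (M a12 (L l82 (F (T t122 (T t151 (T t152 (T t153 (K a4 (M a62 (L l82 (F (T t708 (L l50 (L l306 (L l309 (L l330 (L l333 (T t709 (L l50 (T t710 (K a74 (M a78 (F (L l46 (L l50 (T t711 (L l142 (T t712 N))))))) (K a78 (M a74 (F (L l46 (L l50 (T t711 (L l312 (L l314 (T t713 N)))))))) N)))))))))))))) (K a8 (M a62 (L l82 (F (T t708 (L l306 (L l309 (L l330 (L l333 (T t709 (L l2 (T t710 (K a74 (M a78 (F (T t711 (L l142 (T t712 N))))) (K a78 (M a74 (F (T t711 (L l312 (T t713 N))))) N))))))))))))) (K a21 (M a192 (L l82 (F (L l347 (T t467 (L l85 (L l333 (T t156 (L l15 (L l347 (T t157 (K a74 (M a78 (F (L l347 (T t467 (L l78 (L l315 (L l333 (T t468 (L l15 (L l347 (T t157 N))))))))))) (K a78 (M a74 (F (L l142 (T t543 (L l79 (L l327 (L l330 (T t714 N)))))))) N))))))))))))) (K a25 (M a15 (L l82 (F (T t715 (L l56 (T t716 (L l71 (L l306 (L l309 (L l330 (L l333 (T t717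 (K a74 (M a78 (F (T t718 (L l71 (L l321 (T t719 N)))))) (K a78 (M a74 (F (L l15 (T t720 (L l79 (L l315 (T t721 N))))))) N)))))))))))))) (K a29 (M a15 (L l82 (F (T t716 (L l59 (L l306 (L l309 (L l330 (L l333 (T t717 (L l59 (T t722 (K a74 (M a78 (F (T t723 (L l85 (L l333 (L l336 (T t724 N))))))) (K a78 (M a74 (F (T t723 (L l59 (L l306 (L l315 (T t725 N))))))) N)))))))))))))) (K a38 (M a14 (L l82 (F (T t726 (L l306 (L l309 (L l330 (L l333 (T t727 (L l48 (L l50 (T t728 (K a74 (M a78 (F (T t726 (L l77 (L l84 (L l306 (L l330 (T t729 N)))))))) (K a78 (M a74 (F (T t726 (L l85 (L l306 (T t730 N)))))) N)))))))))))))) (K a42 (M a192 (L l82 (F (T t450 (L l85 (L l333 (T t156 (L l56 (T t157 (K a74 (M a78 (F (T t467 (L l56 (L l78 (L l315 (L l333 (T t468 (L l56 (T t157 N)))))))))) (K a78 (M a74 (F (T t450 (L l79 (L l327 (L l330 (T t714 N))))))) N))))))))))) (K a46 (M a15 (L l82 (F (T t731 (L l306 (L l309 (L l330 (L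 l333 (T t717 (L l23 (L l26 (T t722 (K a74 (M a78 (F (T t732 (L l60 (L l85 (L l333 (L l336 (T t724 N)))))))) (K a78 (M a74 (F (T t731 (L l306 (L l315 (T t725 N)))))) N)))))))))))))) (K a51 (M a14 (L l82 (F (T t733 (L l39 (T t726 (T t728 (K a74 (M a78 (F (T t734 (L l77 (L l84 (L l306 (L l330 (L l487 (T t729 N))))))))) (K a78 (M a74 (F (T t734 (L l85 (L l306 (L l511 (T t730 N))))))) N))))))))) (K a74 (M a78 (F (T t122 (T t151 (T t152 (T t153 (K a4 (M a204 (F (T t735 (L l50 (T t736 N))))) (K a8 (M a204 (F (T t737 (T t736 N)))) (K a21 (M a76 (F (T t738 (L l76 (L l84 (L l318 (L l330 (T t739 N)))))))) (K a25 (M a76 (F (T t738 (L l76 (L l84 (L l318 (L l330 (T t739 N)))))))) (K a29 (M a204 (F (T t740 (L l76 (L l84 (T t741 N)))))) (K a38 (M a76 (F (T t738 (L l76 (L l84 (L l318 (L l330 (T t739 N)))))))) (K a42 (M a76 (F (T t738 (L l76 (L l84 (L l318 (L l330 (T t739 N)))))))) (K a46 (M a204 (F (T t742 (L l76 (L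 l84 (T t741 N)))))) (K a51 (M a76 (F (T t743 (L l76 (L l84 (L l318 (L l330 (L l487 (T t739 N))))))))) N))))))))))))))) (K a78 (M a74 (F (T t122 (T t151 (T t152 (T t153 (K a4 (M a192 (F (T t21 (L l306 (L l315 (T t744 N)))))) (K a8 (M a192 (F (T t21 (L l306 (L l315 (T t744 N)))))) (K a21 (M a64 (F (L l79 (T t745 (L l142 (T t746 N)))))) (K a25 (M a64 (F (T t397 (L l79 (L l324 (L l330 (T t747 N))))))) (K a29 (M a64 (F (L l371 (T t397 (L l79 (T t745 N)))))) (K a38 (M a64 (F (T t397 (L l79 (T t745 N))))) (K a42 (M a64 (F (T t748 (L l56 (L l79 (T t745 N)))))) (K a46 (M a64 (F (T t397 (L l79 (T t745 N))))) (K a51 (M a64 (F (T t749 (L l79 (L l487 (T t745 N)))))) N))))))))))))))) N))))))))))))))))))⟩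
def e0_63__70_63 : Ent 4 := ⟨[a0, a63], [a70, a67], (M a12 (L l85 (F (T t122 (T t151 (T t152 (T t153 (K a4 (M a60 (L l85 (F (T t398 (L l46 (L l50 (L l307 (L l333 (T t67 (T t448 (K a76 (M a73 (F (T t680 (L l145 (L l312 (L l314 (T t1006 N))))))) (K a73 (M a76 (F (T t743 (T t522 N)))) N)))))))))))) (K a8 (M a149 (L l85 (F (T t991 (L l56 (L l76 (T t5 (L l56 (T t960 (K a76 (M a73 (F (T t1007 (L l312 (T t1008 N))))) (K a73 (M a76 (L l320 (F (T t175 (L l119 (L l315 (T t1009 (K a138 (M a203 (L l330 (F (T t1007 (L l119 (L l315 (T t1009 (K a2 (M a206 (F (T t650 (L l66 (T t1010 N))))) (K a206 (M a2 (F (T t959 (L l504 (T t824 N))))) N))))))))) (K a203 (M a138 (F (T t991 (L l56 (L l77 (L l81 (T t1011 N))))))) N))))))))) N))))))))))) (K a21 (M a192 (L l85 (F (T t221 (L l50 (L l333 (T t449 (L l15 (L l347 (T t157 (K a76 (M a73 (F (T t221 (L l307 (L l330 (T t1012 N)))))) (K a73 (M a76 (F (T t1013 (L l143 (T t738 N)))))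 N)))))))))))) (K a25 (M a192 (L l85 (F (T t467 (L l333 (T t449 (L l143 (T t21 (K a76 (M a73 (F (T t467 (L l56 (L l307 (L l330 (T t1012 N))))))) (K a73 (M a76 (F (T t1013 (L l143 (T t738 N))))) N)))))))))) (K a29 (M a192 (L l85 (F (T t37 (L l333 (T t449 (T t160 (K a76 (M a73 (F (T t37 (L l59 (L l83 (L l315 (T t1014 N))))))) (K a73 (M a76 (F (T t1013 (L l315 (L l371 (T t1015 N)))))) N))))))))) (K a38 (M a192 (L l85 (F (T t450 (L l50 (L l333 (T t449 (L l143 (T t21 (K a76 (M a73 (F (T t450 (L l307 (L l330 (T t1012 N)))))) (K a73 (M a76 (F (T t1013 (L l143 (T t738 N))))) N))))))))))) (K a42 (M a192 (L l85 (F (T t450 (L l333 (T t449 (L l56 (T t157 (K a76 (M a73 (F (T t450 (L l56 (L l307 (L l330 (T t1012 N))))))) (K a73 (M a76 (F (T t1013 (L l143 (T t738 N))))) N)))))))))) (K a46 (M a192 (L l85 (F (T t35 (L l333 (T t449 (L l26 (L l408 (T t160 (K a76 (M a73 (F (T t35 (L l83 (L l315 (T t1014 N)))))) (K a73 (M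 a76 (F (T t1013 (L l315 (T t1015 N))))) N))))))))))) (K a51 (M a192 (L l85 (F (T t496 (L l415 (T t450 (L l143 (L l439 (T t21 (K a76 (M a73 (F (T t161 (L l307 (L l330 (L l487 (T t1012 N))))))) (K a73 (M a76 (F (T t1013 (L l143 (L l439 (T t738 N)))))) N))))))))))) (K a76 (M a73 (F (T t122 (L l77 (L l79 (T t1016 (L l79 (L l312 (T t1017 (K a8 (M a192 (F (T t450 (L l76 (L l307 (L l312 (L l330 (L l333 (T t1018 N))))))))) N)))))))))) (K a73 (M a76 (F (T t122 (L l76 (T t1019 (L l143 (T t738 N))))))) N))))))))))))))))))⟩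
def e0_63__70_64 : Ent 4 := ⟨[a0, a63], [a70, a68], (M a48 (L l77 (F (T t1 (T t2 (T t3 (T t0 (K a16 (M a149 (L l77 (F (T t4 (L l80 (T t5 (T t6 (K a69 (M a71 (F (T t25 (L l122 (L l311 (T t1081 N)))))) (K a71 (M a69 (F (T t176 (L l331 (T t181 (L l330 (L l368 (T t1851 N)))))))) N))))))))) (K a32 (M a149 (L l77 (F (T t11 (L l28 (L l80 (T t5 (L l28 (T t6 (K a69 (M a71 (F (T t175 (L l122 (L l311 (T t1081 N)))))) (K a71 (M a69 (F (L l330 (T t1851 (L l28 (T t1245 (L l331 (T t181 N)))))))) N))))))))))) (K a21 (M a101 (L l77 (F (T t312 (T t313 (L l18 (T t314 (K a69 (M a71 (F (T t1473 (L l18 (L l311 (T t431 N)))))) (K a71 (M a69 (F (T t432 (L l18 (T t433 N))))) N))))))))) (K a37 (M a101 (L l77 (F (T t335 (T t313 (T t314 (K a69 (M a71 (F (T t1473 (L l311 (T t431 N))))) (K a71 (M a69 (F (T t432 (T t433 N)))) N)))))))) (K a53 (M a170 (L l77 (F (T t323 (L l47 (T t317 (L l47 (T t324 (K a69 (M a71 (F (T t434 (L l122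 (L l329 (T t1475 N)))))) (K a71 (M a69 (F (T t436 (T t434 N)))) N)))))))))) (K a26 (M a101 (L l77 (F (T t312 (L l54 (T t313 (L l18 (L l54 (T t314 (K a69 (M a71 (F (L l122 (L l354 (T t1852 (L l18 (L l54 (L l311 (T t431 N))))))))) (K a71 (M a69 (F (T t432 (L l18 (T t433 N))))) N))))))))))) (K a42 (M a101 (L l77 (F (T t335 (L l54 (T t313 (L l54 (T t314 (K a69 (M a71 (F (T t1473 (L l54 (L l311 (T t431 N)))))) (K a71 (M a69 (F (T t432 (T t433 N)))) N)))))))))) (K a58 (M a170 (L l77 (F (T t319 (T t317 (T t324 (K a69 (M a71 (F (T t438 (L l122 (L l329 (T t1475 N)))))) (K a71 (M a69 (F (T t436 (T t438 N)))) N)))))))) (K a15 (M a101 (L l77 (F (T t440 (L l325 (L l330 (T t334 (T t314 (K a69 (M a71 (F (T t1473 (L l311 (T t431 N))))) (K a71 (M a69 (F (T t432 (T t433 N)))) N)))))))))) (K a69 (M a71 (F (T t1 (L l311 (T t2 (T t3 (T t0 (K a16 (M a149 (F (T t25 (L l122 (L l311 (T t1081 N)))))) (K a32 (M a149 (F (T t175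 (L l122 (L l311 (T t1081 N)))))) (K a21 (M a101 (F (T t1473 (L l18 (L l311 (T t431 N)))))) (K a37 (M a149 (F (T t13 (L l122 (L l311 (T t1081 N)))))) (K a53 (M a101 (F (T t1473 (L l47 (T t1477 N))))) (K a26 (M a149 (F (T t13 (L l54 (L l122 (L l311 (T t1081 N))))))) (K a42 (M a101 (F (T t1473 (L l54 (L l311 (T t431 N)))))) (K a58 (M a170 (F (T t438 (L l122 (L l329 (T t1475 N)))))) (K a15 (M a149 (F (T t25 (L l122 (L l311 (T t1081 N)))))) N)))))))))))))))) (K a71 (M a69 (F (T t2 (L l330 (T t446 (L l127 (L l330 (T t429 N)))))))) N))))))))))))))))))⟩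
def e0_63__70_65 : Ent 4 := ⟨[a0, a63], [a70, a69], (M a48 (L l77 (F (T t1 (L l311 (T t2 (T t3 (T t0 (K a16 (M a149 (L l77 (F (T t1245 (L l340 (T t11 (T t1470 (K a68 (M a71 (F (T t25 (L l122 (L l311 (T t1081 N)))))) (K a71 (M a68 (F (T t1267 (L l125 (T t1471 N))))) N))))))))) (K a32 (M a61 (L l77 (F (T t262 (L l28 (L l329 (L l333 (T t505 (L l28 (T t530 (K a68 (M a71 (F (T t262 (L l28 (L l329 (L l333 (T t505 (L l28 (T t530 N))))))))) (K a71 (M a68 (F (T t1472 (L l28 (T t530 N))))) N)))))))))))) (K a21 (M a101 (L l77 (F (T t1306 (L l18 (L l330 (T t334 (L l18 (L l311 (T t314 (K a68 (M a71 (F (T t1473 (L l18 (L l311 (T t431 N)))))) (K a71 (M a68 (F (T t1306 (T t1474 N)))) N)))))))))))) (K a37 (M a149 (L l77 (F (T t7 (L l28 (L l84 (T t5 (L l311 (T t14 (K a68 (M a71 (F (T t13 (L l122 (L l311 (T t1081 N)))))) (K a71 (M a68 (F (T t1267 (L l28 (L l125 (T t1471 N)))))) N))))))))))) (K a53 (M a170 (L l77 (F (T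 t456 (L l330 (T t316 (L l47 (T t324 (K a68 (M a71 (F (T t434 (L l122 (L l329 (T t1475 N)))))) (K a71 (M a68 (F (T t434 (L l127 (T t1474 N))))) N)))))))))) (K a26 (M a149 (L l77 (F (T t11 (L l18 (T t175 (L l18 (L l54 (L l311 (T t14 (K a68 (M a71 (F (T t13 (L l54 (L l122 (L l311 (T t1081 N))))))) (K a71 (M a68 (F (T t11 (L l18 (T t1476 N))))) N)))))))))))) (K a42 (M a101 (L l77 (F (T t333 (L l330 (T t334 (L l54 (L l311 (T t314 (K a68 (M a71 (F (T t1473 (L l54 (L l311 (T t431 N)))))) (K a71 (M a68 (F (T t1306 (T t1474 N)))) N))))))))))) (K a58 (M a170 (L l77 (F (T t439 (L l330 (T t316 (T t324 (K a68 (M a71 (F (T t438 (L l122 (L l329 (T t1475 N)))))) (K a71 (M a68 (F (T t438 (L l127 (T t1474 N))))) N))))))))) (K a15 (M a149 (L l77 (F (T t25 (L l339 (T t11 (L l311 (T t14 (K a68 (M a71 (F (T t25 (L l122 (L l311 (T t1081 N)))))) (K a71 (M a68 (F (T t25 (L l127 (L l471 (T t1474 N)))))) N)))))))))) (K a68 (M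 a71 (F (T t1 (L l311 (T t2 (T t3 (T t0 (K a16 (M a149 (F (T t25 (L l122 (L l311 (T t1081 N)))))) (K a32 (M a149 (F (T t175 (L l122 (L l311 (T t1081 N)))))) (K a21 (M a101 (F (T t1473 (L l18 (L l311 (T t431 N)))))) (K a37 (M a149 (F (T t13 (L l122 (L l311 (T t1081 N)))))) (K a53 (M a101 (F (T t1473 (L l47 (T t1477 N))))) (K a26 (M a149 (F (T t13 (L l54 (L l122 (L l311 (T t1081 N))))))) (K a42 (M a101 (F (T t1473 (L l54 (L l311 (T t431 N)))))) (K a58 (M a170 (F (T t438 (L l122 (L l329 (T t1475 N)))))) (K a15 (M a149 (F (T t25 (L l122 (L l311 (T t1081 N)))))) N)))))))))))))))) (K a71 (M a68 (F (T t1 (L l127 (T t1474 (L l127 (T t1478 (K a32 (M a64 (F (T t397 (L l376 (T t1479 N))))) N)))))))) N)))))))))))))))))))⟩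
def e0_63__70_66 : Ent 4 := ⟨[a0, a63], [a70, a71], (M a48 (L l77 (F (T t1 (T t2 (T t3 (T t0 (K a16 (M a85 (L l77 (F (T t168 (T t50 (T t51 (K a68 (M a69 (F (T t1853 (L l18 (T t255 N))))) (K a69 (M a68 (F (T t1854 (T t50 N)))) N)))))))) (K a32 (M a61 (L l77 (F (T t262 (L l28 (L l331 (L l333 (T t505 (L l28 (T t530 (K a68 (M a69 (F (T t262 (L l28 (L l333 (T t1855 N)))))) (K a69 (M a68 (F (T t1472 (L l28 (T t530 N))))) N)))))))))))) (K a21 (M a85 (L l77 (F (T t99 (T t50 (L l47 (T t100 (K a68 (M a69 (F (T t1856 (L l47 (T t100 N))))) (K a69 (M a68 (F (L l125 (T t1857 (L l47 (T t100 N)))))) N))))))))) (K a37 (M a192 (L l77 (F (T t19 (L l47 (L l331 (T t20 (T t21 (K a68 (M a69 (F (T t19 (L l330 (T t1858 N))))) (K a69 (M a68 (F (T t21 (L l127 (T t1474 N))))) N)))))))))) (K a53 (M a12 (L l77 (F (T t151 (T t443 (L l47 (T t146 (K a68 (M a69 (F (T t151 (L l330 (L l419 (T t446 N)))))) (K a69 (M a68 (F (T t445 (T t767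 N)))) N))))))))) (K a26 (M a192 (L l77 (F (T t202 (T t27 (L l331 (T t20 (K a68 (M a69 (F (T t28 (L l54 (L l330 (T t1859 N)))))) (K a69 (M a68 (F (T t28 (T t1481 N)))) N))))))))) (K a42 (M a85 (L l77 (F (T t364 (L l390 (T t50 (L l28 (T t100 (K a68 (M a69 (F (L l127 (T t1860 (L l28 (T t100 N)))))) (K a69 (M a68 (F (T t1476 (L l390 (T t50 N))))) N)))))))))) (K a58 (M a192 (L l77 (F (T t19 (T t21 (L l54 (L l498 (T t31 (K a68 (M a69 (F (T t19 (L l54 (L l330 (L l498 (T t1859 N))))))) (K a69 (M a68 (F (T t28 (T t1481 N)))) N)))))))))) (K a15 (M a192 (L l77 (F (T t55 (L l325 (L l331 (T t20 (L l469 (T t21 (K a68 (M a69 (F (T t55 (L l330 (T t1859 N))))) (K a69 (M a68 (F (T t54 (L l84 (L l315 (L l327 (L l333 (T t1861 N)))))))) N))))))))))) (K a68 (M a69 (F (T t2 (L l330 (T t446 (L l127 (L l330 (T t429 N)))))))) (K a69 (M a68 (F (T t1 (L l127 (T t1474 (L l127 (T t1478 (K a32 (M a64 (F (T t397 (L l376 (T t1479 N)))))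 N)))))))) N))))))))))))))))))⟩
def e0_63__70_67 : Ent 4 := ⟨[a0, a63], [a70, a72], (M a48 (F (T t1 (T t2 (T t3 (T t0 (K a16 (M a60 (F (T t64 (L l14 (L l18 (L l333 (T t67 (T t65 N)))))))) (K a32 (M a60 (F (T t64 (L l333 (T t67 (L l24 (L l28 (T t65 N)))))))) (K a21 (M a192 (F (T t28 (L l47 (L l347 (T t20 (L l47 (L l347 (T t29 N))))))))) (K a37 (M a192 (F (T t19 (L l47 (T t20 (T t21 N)))))) (K a53 (M a192 (F (T t19 (L l491 (T t21 (L l132 (T t31 N))))))) (K a26 (M a192 (F (T t28 (T t20 (T t21 N))))) (K a42 (M a192 (F (T t19 (T t20 (L l28 (T t29 N)))))) (K a58 (M a192 (F (T t19 (T t21 (L l54 (L l132 (L l498 (T t31 N)))))))) (K a15 (M a192 (F (T t57 (L l483 (T t27 (L l325 (T t20 N))))))) N)))))))))))))))⟩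
def e0_63__70_68 : Ent 4 := ⟨[a0, a63], [a70, a73], (M a149 (L l85 (F (T t5 (T t175 (T t176 (T t177 (K a192 (M a53 (L l85 (F (T t178 (L l236 (T t179 (L l77 (L l81 (L l236 (L l296 (T t180 (K a76 (M a67 (F (T t939 (L l236 (T t179 (L l77 (L l81 (L l236 (L l296 (T t180 N)))))))))) (K a67 (M a76 (F (T t939 (L l236 (T t179 (L l77 (L l81 (L l236 (L l296 (T t180 N)))))))))) N))))))))))))) (K a21 (M a48 (L l85 (F (T t4 (T t13 (L l18 (T t14 (K a76 (M a67 (F (T t15 (L l146 (T t13 (L l18 (T t14 N))))))) (K a67 (M a76 (F (T t15 (L l121 (T t13 (L l18 (T t14 N))))))) N))))))))) (K a85 (M a16 (L l85 (F (T t97 (L l144 (T t190 (L l94 (T t278 (K a76 (M a67 (F (T t97 (L l144 (T t190 (L l94 (T t278 N))))))) (K a67 (M a76 (F (T t97 (L l144 (T t190 (L l94 (T t278 N))))))) N)))))))))) (K a213 (Fr a106 a192 l519 (Fr a42 a21 l68 (Fr a170 a234 l390 (Fr a255 a85 l476 (V t582))))) (K a42 (M a3 (L l85 (F (T t1052 (L l338 (L l390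 (T t1862 (L l22 (T t615 (K a76 (M a67 (F (T t1863 (L l22 (T t615 N))))) (K a67 (M a76 (F (T t1052 (L l22 (T t615 (L l66 (L l76 (L l330 (L l390 (T t1864 N)))))))))) N))))))))))) (K a106 (M a12 (L l85 (F (T t122 (L l408 (T t649 (L l390 (L l408 (T t960 (L l320 (L l390 (T t961 (K a76 (M a67 (F (T t122 (L l408 (T t649 (L l320 (L l390 (T t961 (L l138 (L l390 (L l408 (T t960 N)))))))))))) (K a67 (M a76 (F (T t743 (L l320 (L l390 (T t961 N)))))) N)))))))))))))) (K a170 (M a48 (L l85 (F (T t4 (L l462 (T t1 (L l390 (T t13 (K a76 (M a67 (F (T t184 (L l462 (T t1 (L l146 (L l390 (T t13 N)))))))) (K a67 (M a76 (F (T t184 (L l462 (T t1 (L l121 (L l390 (T t13 N)))))))) N)))))))))) (K a191 (M a240 (L l85 (F (T t962 (L l315 (L l335 (T t963 (K a76 (M a67 (F (T t962 (L l315 (L l335 (T t963 N)))))) (K a67 (M a76 (F (T t962 (L l315 (L l335 (T t963 N)))))) N))))))))) (K a255 (M a16 (L l85 (F (T t112 (L l266 (T t190 (L l289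 (L l296 (T t191 (K a76 (M a67 (F (T t112 (L l266 (T t190 (L l289 (L l296 (T t191 N)))))))) (K a67 (M a76 (F (T t112 (L l266 (T t190 (L l289 (L l296 (T t191 N)))))))) N))))))))))) (K a76 (M a67 (F (T t25 (L l82 (T t1865 (T t1866 (K a106 (M a1 (F (L l330 (T t1867 (L l81 (L l390 (T t1094 N))))))) N))))))) (K a67 (M a76 (F (T t25 (L l78 (T t1067 (T t1068 (K a106 (M a4 (F (L l320 (T t1069 (L l77 (L l390 (T t1070 N))))))) N))))))) N))))))))))))))))))⟩
def e0_63__70_69 : Ent 4 := ⟨[a0, a63], [a70, a74], (M a12 (L l82 (F (T t122 (T t151 (T t152 (T t153 (K a4 (M a62 (L l82 (F (T t750 (L l50 (L l330 (L l333 (T t709 (L l50 (L l318 (T t710 (K a66 (M a78 (F (L l46 (L l50 (T t711 (L l142 (T t712 N))))))) (K a78 (M a66 (F (T t750 (L l50 (L l136 (T t1868 N)))))) N))))))))))))) (K a8 (M a62 (L l82 (F (T t711 (L l336 (L l339 (T t708 (L l2 (L l318 (T t710 (K a66 (M a78 (F (T t711 (L l142 (T t712 N))))) (K a78 (M a66 (F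 (T t750 (L l136 (T t1868 N))))) N)))))))))))) (K a21 (M a192 (L l82 (F (L l347 (T t467 (L l85 (L l333 (T t156 (L l15 (L l347 (T t157 (K a66 (M a78 (F (L l347 (T t467 (L l78 (L l315 (L l333 (T t468 (L l15 (L l347 (T t157 N))))))))))) (K a78 (M a66 (F (L l347 (T t467 (L l65 (L l336 (T t1869 N))))))) N))))))))))))) (K a25 (M a192 (L l82 (F (T t467 (L l85 (L l333 (T t156 (T t21 (K a66 (M a78 (F (T t467 (L l56 (L l78 (L l315 (L l333 (T t468 (L l15 (T t35 N)))))))))) (K a78 (M a66 (F (T t467 (L l336 (T t1869 N))))) N)))))))))) (K a29 (M a192 (L l82 (F (L l371 (T t21 (L l85 (L l333 (T t156 (L l78 (L l130 (T t160 (K a66 (M a78 (F (L l371 (T t21 (L l78 (L l315 (L l333 (T t468 (L l15 (L l371 (T t776 N))))))))))) (K a78 (M a66 (F (T t205 (L l79 (L l85 (T t159 N)))))) N))))))))))))) (K a38 (M a62 (L l82 (F (T t750 (L l50 (L l330 (L l333 (T t709 (L l48 (L l50 (L l318 (T t710 (K a66 (M a78 (F (L l50 (T t711 (L l142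 (T t712 N)))))) (K a78 (M a66 (F (T t750 (L l48 (L l50 (L l136 (T t1868 N))))))) N)))))))))))))) (K a42 (M a192 (L l82 (F (T t450 (L l85 (L l333 (T t156 (L l56 (T t157 (K a66 (M a78 (F (T t467 (L l56 (L l78 (L l315 (L l333 (T t468 (L l56 (T t157 N)))))))))) (K a78 (M a66 (F (T t450 (L l336 (T t1869 N))))) N))))))))))) (K a46 (M a192 (L l82 (F (T t21 (L l85 (L l333 (T t156 (L l26 (L l78 (L l130 (L l408 (T t160 (K a66 (M a78 (F (T t35 (L l78 (L l315 (L l333 (T t468 (T t776 N)))))))) (K a78 (M a66 (F (T t21 (L l312 (L l321 (L l327 (T t1870 N))))))) N)))))))))))))) (K a51 (M a62 (L l82 (F (T t711 (L l73 (L l336 (L l339 (T t708 (L l318 (T t710 (K a66 (M a78 (F (T t711 (L l142 (T t712 N))))) (K a78 (M a66 (F (T t750 (L l136 (T t1868 N))))) N)))))))))))) (K a66 (M a78 (F (T t122 (T t151 (T t152 (T t153 (K a4 (M a204 (F (T t735 (L l50 (T t736 N))))) (K a8 (M a204 (F (T t737 (T t736 N)))) (K a21 (M a76 (F (T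 t738 (L l76 (L l84 (L l318 (L l330 (T t739 N)))))))) (K a25 (M a76 (F (T t738 (L l76 (L l84 (L l318 (L l330 (T t739 N)))))))) (K a29 (M a204 (F (T t740 (L l76 (L l84 (T t741 N)))))) (K a38 (M a76 (F (T t738 (L l76 (L l84 (L l318 (L l330 (T t739 N)))))))) (K a42 (M a76 (F (T t738 (L l76 (L l84 (L l318 (L l330 (T t739 N)))))))) (K a46 (M a204 (F (T t742 (L l76 (L l84 (T t741 N)))))) (K a51 (M a76 (F (T t743 (L l76 (L l84 (L l318 (L l330 (L l487 (T t739 N))))))))) N))))))))))))))) (K a78 (M a66 (F (T t122 (T t151 (T t152 (T t153 (K a4 (M a192 (F (T t450 (L l336 (T t1869 N))))) (K a8 (M a192 (F (T t450 (L l336 (T t1869 N))))) (K a21 (M a64 (F (L l130 (T t746 (L l79 (L l85 (L l312 (L l336 (T t1871 N))))))))) (K a25 (M a64 (F (T t397 (L l79 (L l85 (L l312 (L l336 (T t1871 N)))))))) (K a29 (M a64 (F (L l371 (T t397 (L l79 (L l85 (L l312 (L l336 (T t1871 N))))))))) (K a38 (M a64 (F (T t397 (L l79 (L l85 (L l312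 (L l336 (T t1871 N)))))))) (K a42 (M a192 (F (T t450 (L l336 (T t1869 N))))) (K a46 (M a64 (F (T t397 (L l79 (L l85 (L l312 (L l336 (T t1871 N)))))))) (K a51 (M a64 (F (T t1872 (L l79 (L l85 (L l312 (L l336 (L l511 (T t1871 N))))))))) N))))))))))))))) N))))))))))))))))))⟩
def e0_63__70_70 : Ent 4 := ⟨[a0, a63], [a70, a75], (M a149 (F (T t5 (T t175 (T t176 (T t177 (K a192 (M a53 (F (T t178 (L l236 (T t179 (L l77 (L l236 (L l296 (T t180 N))))))))) (K a21 (M a48 (F (T t4 (T t13 (L l18 (T t14 N)))))) (K a85 (M a16 (F (T t504 (L l144 (T t190 (L l94 (L l133 (T t278 N)))))))) (K a213 (Fr a106 a192 l519 (Fr a42 a21 l68 (Fr a170 a234 l390 (Fr a255 a85 l476 (V t582))))) (K a42 (M a48 (F (T t187 (L l390 (T t13 (L l54 (T t14 N))))))) (K a106 (M a48 (F (T t48 (L l498 (T t14 (L l390 (L l498 (T t6 (L l390 (T t26 N)))))))))) (K a170 (M a48 (F (T t4 (L l337 (L l462 (T t1 (L l390 (T t13 N)))))))) (K a191 (M a240 (F (T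 t962 (L l315 (T t963 N))))) (K a255 (M a16 (F (T t112 (L l266 (T t190 (L l289 (L l296 (T t191 N)))))))) N)))))))))))))))⟩
def e0_63__70_71 : Ent 4 := ⟨[a0, a63], [a70, a76], (M a149 (L l85 (F (T t25 (T t175 (T t176 (L l80 (T t177 (K a192 (M a53 (L l85 (F (T t178 (L l236 (T t179 (L l77 (L l236 (L l296 (T t180 (K a73 (M a67 (F (T t939 (L l236 (T t179 (L l77 (L l81 (L l236 (L l296 (T t180 N)))))))))) (K a67 (M a73 (F (T t939 (L l236 (T t179 (L l77 (L l236 (L l296 (T t180 N))))))))) N)))))))))))) (K a21 (M a195 (L l85 (F (T t1750 (L l330 (L l333 (T t1114 (T t1115 (K a73 (M a67 (F (T t1117 (L l80 (T t1873 (L l138 (T t1874 N))))))) (K a67 (M a73 (F (T t1113 (L l79 (L l330 (T t1875 N)))))) N)))))))))) (K a85 (M a12 (L l85 (F (T t650 (T t122 (L l80 (L l144 (L l315 (L l333 (T t1876 (K a73 (M a67 (F (T t650 (T t122 (L l78 (L l80 (L l144 (L l315 (L l320 (L l333 (T t1876 N))))))))))) (K a67 (M a73 (F (T t991 (L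 l307 (L l330 (T t1012 N)))))) N)))))))))))) (K a213 (Fr a106 a192 l519 (Fr a42 a21 l68 (Fr a170 a234 l390 (Fr a255 a85 l476 (V t582))))) (K a42 (M a3 (L l85 (F (T t1052 (L l390 (T t1862 (L l22 (T t615 (K a73 (M a67 (F (T t1863 (L l22 (T t615 N))))) (K a67 (M a73 (F (T t1052 (L l22 (T t615 (L l66 (L l76 (L l80 (L l330 (L l390 (T t1864 N))))))))))) N)))))))))) (K a106 (M a12 (L l85 (F (T t122 (L l408 (T t649 (L l138 (L l390 (L l408 (T t960 (L l390 (T t961 (K a73 (M a67 (F (T t122 (L l408 (T t649 (L l320 (L l390 (T t961 (L l138 (L l390 (L l408 (T t960 N)))))))))))) (K a67 (M a73 (F (L l79 (T t1877 (L l138 (L l390 (L l408 (T t960 N)))))))) N)))))))))))))) (K a170 (M a12 (L l85 (F (T t991 (L l402 (T t122 (L l80 (L l315 (L l333 (L l390 (L l464 (T t1876 (K a73 (M a67 (F (T t650 (L l402 (T t122 (L l78 (L l80 (L l315 (L l320 (L l333 (L l390 (L l464 (T t1876 N))))))))))))) (K a67 (M a73 (F (T t991 (L l312 (T t1101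 N))))) N)))))))))))))) (K a191 (M a240 (L l85 (F (T t962 (L l315 (T t963 (K a73 (M a67 (F (T t962 (L l315 (L l335 (T t963 N)))))) (K a67 (M a73 (F (T t962 (L l315 (T t963 N))))) N)))))))) (K a255 (M a12 (L l85 (F (T t647 (L l439 (T t122 (L l80 (L l290 (L l315 (L l333 (T t1876 (K a73 (M a67 (F (T t647 (L l439 (T t122 (L l78 (L l80 (L l290 (L l315 (L l320 (L l333 (T t1876 N)))))))))))) (K a67 (M a73 (F (T t647 (L l289 (L l312 (T t1101 N)))))) N))))))))))))) (K a73 (M a67 (F (T t25 (L l82 (T t1865 (T t1866 (K a106 (M a1 (F (L l330 (T t1867 (L l81 (L l390 (T t1094 N))))))) N))))))) (K a67 (M a73 (F (T t25 (T t175 (T t176 (L l76 (L l80 (T t177 (K a192 (M a4 (F (L l228 (L l307 (L l330 (T t1878 (L l124 (L l150 (L l296 (T t1773 N)))))))))) (K a21 (M a12 (F (T t647 (L l50 (L l312 (T t1101 N)))))) (K a85 (M a12 (F (T t991 (L l307 (L l330 (T t1012 N)))))) (K a213 (Fr a106 a192 l519 (Fr a42 a21 l68 (Fr a170 a234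 l390 (Fr a255 a85 l476 (V t582))))) (K a42 (M a12 (F (T t991 (L l312 (T t1101 N))))) (K a106 (M a4 (F (L l307 (L l330 (T t1878 (L l102 (L l124 (L l150 (L l390 (T t1773 N)))))))))) (K a170 (M a12 (F (T t991 (L l312 (T t1101 N))))) (K a191 (M a240 (F (T t962 (L l315 (T t963 N))))) (K a255 (M a12 (F (T t647 (L l289 (L l312 (T t1101 N)))))) N))))))))))))))))) N)))))))))))))))))))⟩
def e0_63__70_72 : Ent 4 := ⟨[a0, a63], [a70, a77], (M a149 (F (T t5 (T t175 (T t176 (T t177 (K a192 (M a53 (F (T t178 (L l236 (T t179 (L l77 (L l81 (L l236 (L l296 (T t180 N)))))))))) (K a21 (M a48 (F (T t4 (T t13 (L l18 (T t14 N)))))) (K a85 (M a16 (F (T t97 (L l144 (T t190 (L l94 (T t278 N))))))) (K a213 (Fr a106 a192 l519 (Fr a42 a21 l68 (Fr a170 a234 l390 (Fr a255 a85 l476 (V t582))))) (K a42 (M a48 (F (T t11 (L l390 (T t13 (L l54 (T t14 N))))))) (K a106 (M a48 (F (T t1 (L l498 (T t14 (L l390 (L l498 (T t6 (L l390 (T t26 N))))))))))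 (K a170 (M a48 (F (T t4 (L l462 (T t1 (L l390 (T t13 N))))))) (K a191 (M a240 (F (T t962 (L l315 (T t963 N))))) (K a255 (M a16 (F (T t112 (L l266 (T t190 (L l289 (L l296 (T t191 N)))))))) N)))))))))))))))⟩
def e0_63__70_73 : Ent 4 := ⟨[a0, a63], [a70, a78], (M a149 (L l82 (F (T t5 (T t175 (T t176 (T t177 (K a192 (M a15 (L l82 (F (T t1254 (L l268 (T t1026 (L l296 (L l315 (T t1030 (L l268 (L l296 (T t1031 (K a66 (M a74 (L l309 (F (L l268 (T t1879 (L l484 (T t716 (L l296 (L l315 (T t1030 (K a129 (M a3 (F (L l268 (T t1879 (L l305 (L l324 (L l334 (T t1880 N)))))))) (K a3 (M a129 (L l333 (F (L l268 (T t1879 (L l76 (L l296 (T t1881 (K a204 (M a137 (L l232 (F (L l268 (T t1879 (L l76 (L l231 (L l236 (T t1882 (K a196 (Fr a200 a11 l321 (V t1879)) (K a200 (M a196 (F (L l268 (T t1879 (L l76 (L l231 (L l236 (T t1882 N)))))))) N))))))))))) (K a137 (M a204 (F (L l268 (T t1879 (L l136 (L l154 (L l296 (T t1055 N))))))))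 N)))))))))) N)))))))))))) (K a74 (M a66 (F (T t1071 (L l268 (T t1026 (L l296 (L l315 (L l318 (T t1030 (L l268 (L l296 (T t1031 N)))))))))))) N)))))))))))))) (K a21 (M a3 (L l82 (F (T t1049 (L l85 (T t1883 (L l65 (T t615 (K a66 (M a74 (F (L l65 (T t615 (L l47 (L l79 (L l142 (L l327 (T t1884 (L l315 (T t1885 N))))))))))) (K a74 (M a66 (F (T t1886 (L l65 (T t615 N))))) N)))))))))) (K a85 (M a4 (L l82 (F (T t519 (L l144 (L l315 (L l327 (L l333 (T t653 (L l124 (L l126 (L l148 (T t654 (K a66 (M a74 (F (T t519 (L l79 (L l142 (L l144 (L l327 (L l455 (T t1884 N))))))))) (K a74 (M a66 (F (T t519 (L l85 (L l130 (L l144 (T t1887 N))))))) N))))))))))))))) (K a213 (Fr a106 a192 l519 (Fr a42 a21 l68 (Fr a170 a234 l390 (Fr a255 a85 l476 (V t582))))) (K a42 (M a3 (L l82 (F (T t1052 (L l85 (L l390 (T t1883 (L l22 (T t615 (K a66 (M a74 (F (L l22 (T t615 (L l28 (L l315 (T t1885 (L l79 (L l142 (L l327 (L l390 (T t1884 N))))))))))))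 (K a74 (M a66 (F (T t1886 (L l22 (T t615 N))))) N))))))))))) (K a106 (M a86 (L l82 (F (L l393 (T t618 (L l136 (L l390 (T t619 (L l390 (T t620 (L l330 (L l390 (L l393 (T t621 (L l330 (L l393 (T t622 (K a66 (M a74 (F (L l393 (T t618 (L l136 (L l390 (T t619 (L l390 (T t620 (L l306 (L l330 (L l390 (L l393 (T t621 (L l306 (L l330 (L l393 (T t622 N)))))))))))))))))) (K a74 (M a66 (L l130 (F (L l393 (T t1888 (L l390 (T t620 (L l136 (L l390 (T t619 (K a90 (M a122 (L l148 (F (L l393 (T t1888 (L l390 (T t620 (L l136 (L l390 (T t619 (K a114 (M a102 (F (L l393 (T t1888 (L l315 (L l501 (T t1203 N))))))) (K a102 (M a114 (L l102 (F (L l136 (T t1889 (L l393 (T t618 (K a98 (M a110 (F (T t1889 (L l393 (T t618 N))))) (K a110 (Fr a98 a82 l118 (V t1890)) N))))))))) N)))))))))))) (K a122 (M a90 (F (L l393 (T t1888 (L l411 (L l426 (T t1040 N))))))) N)))))))))))) N))))))))))))))))))) (K a170 (M a48 (L l82 (F (T t4 (L l327 (L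 l462 (T t1 (L l390 (T t13 (K a66 (M a74 (F (T t184 (L l327 (L l462 (T t1 (L l79 (L l142 (L l327 (L l390 (T t1884 N))))))))))) (K a74 (M a66 (F (T t184 (T t607 (L l85 (L l130 (L l390 (T t1887 N)))))))) N))))))))))) (K a191 (M a4 (L l82 (F (T t519 (L l315 (L l327 (L l333 (T t653 (L l77 (L l189 (T t1070 (K a66 (M a74 (F (T t519 (L l79 (L l142 (L l327 (T t1884 N))))))) (K a74 (M a66 (F (T t519 (L l85 (L l130 (T t1887 N)))))) N))))))))))))) (K a255 (M a4 (L l82 (F (T t129 (L l290 (L l315 (L l327 (L l333 (T t653 (L l77 (L l265 (L l296 (T t1070 (K a66 (M a74 (F (T t129 (L l79 (L l142 (L l327 (L l469 (T t1884 N)))))))) (K a74 (M a66 (F (T t129 (L l85 (L l130 (L l295 (T t1887 N))))))) N))))))))))))))) (K a66 (M a74 (F (L l309 (T t175 (L l79 (L l142 (L l327 (T t1884 (L l76 (T t1891 (L l76 (L l315 (T t1892 N))))))))))))) (K a74 (M a66 (F (L l339 (T t175 (L l85 (L l130 (T t1887 (L l84 (L l136 (T t1893 (L l84 (T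 t1894 N)))))))))))) N))))))))))))))))))⟩
def e0_63__70_74 : Ent 4 := ⟨[a0, a63], [a70, a79], (M a149 (F (T t25 (T t175 (T t176 (L l84 (T t177 (K a192 (M a53 (F (T t178 (L l236 (T t179 (L l77 (L l84 (L l236 (L l296 (T t180 N)))))))))) (K a21 (M a48 (F (T t4 (L l18 (T t1082 (L l18 (T t14 N))))))) (K a85 (M a16 (F (T t504 (L l144 (T t190 (L l94 (L l151 (T t278 N)))))))) (K a213 (Fr a106 a192 l519 (Fr a42 a21 l68 (Fr a170 a234 l390 (Fr a255 a85 l476 (V t582))))) (K a42 (M a48 (F (T t11 (L l390 (T t1082 (L l54 (T t14 N))))))) (K a106 (M a48 (F (T t48 (L l498 (T t14 (L l390 (L l498 (T t6 (L l390 (T t26 N)))))))))) (K a170 (M a48 (F (T t4 (L l462 (T t48 (L l151 (L l390 (T t13 N)))))))) (K a191 (M a240 (F (T t962 (L l315 (T t963 N))))) (K a255 (M a16 (F (T t112 (L l266 (T t190 (L l289 (L l296 (T t191 N)))))))) N))))))))))))))))⟩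
def e0_63__70_75 : Ent 4 := ⟨[a0, a63], [a70, a80], (M a12 (F (T t122 (T t151 (T t152 (T t153 (K a4 (M a60 (F (T t398 (L l46 (L l50 (L l333 (T t67 (T t448 N)))))))) (K a8 (M a60 (F (T t398 (L l333 (T t67 (L l52 (L l56 (T t448 N)))))))) (K a21 (M a192 (F (T t221 (L l85 (L l333 (T t156 (L l15 (L l347 (T t157 N))))))))) (K a25 (M a192 (F (T t467 (L l85 (L l333 (T t156 (T t21 N))))))) (K a29 (M a192 (F (T t37 (L l85 (L l333 (T t156 (T t160 N))))))) (K a38 (M a192 (F (T t450 (L l85 (L l333 (T t156 (T t21 N))))))) (K a42 (M a192 (F (T t450 (L l85 (L l333 (T t156 (L l56 (T t157 N)))))))) (K a46 (M a192 (F (T t21 (L l85 (L l333 (T t156 (L l26 (L l408 (T t160 N))))))))) (K a51 (M a192 (F (T t161 (L l85 (L l333 (L l513 (T t156 (L l439 (T t21 N))))))))) N)))))))))))))))⟩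
def e0_63__70_76 : Ent 4 := ⟨[a0, a63], [a70, a81], (M a12 (F (T t122 (L l341 (T t151 (T t152 (T t153 (K a4 (M a60 (F (T t398 (L l46 (L l50 (L l333 (T t67 (L l341 (T t448 N))))))))) (K a8 (M a60 (F (T t398 (L l333 (T t67 (L l52 (L l56 (L l341 (T t448 N))))))))) (K a21 (M a192 (F (T t543 (L l85 (L l333 (T t156 (L l15 (L l347 (T t157 N))))))))) (K a25 (M a192 (F (T t467 (L l85 (L l333 (T t156 (T t21 N))))))) (K a29 (M a192 (F (T t37 (L l85 (L l333 (T t156 (T t160 N))))))) (K a38 (M a192 (F (T t21 (L l85 (L l333 (T t156 (T t450 N))))))) (K a42 (M a192 (F (T t450 (L l85 (L l333 (T t156 (L l56 (T t157 N)))))))) (K a46 (M a192 (F (T t21 (L l85 (L l333 (T t156 (L l26 (L l408 (T t160 N))))))))) (K a51 (M a192 (F (T t576 (L l85 (L l333 (L l513 (T t156 (L l439 (T t21 N))))))))) N))))))))))))))))⟩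
def e0_63__70_77 : Ent 4 := ⟨[a0, a63], [a70, a82], (M a85 (F (T t88 (T t52 (T t89 (T t90 (K a64 (M a16 (F (T t97 (L l77 (L l84 (T t96 (L l86 (L l116 (T t98 N))))))))) (K a192 (M a16 (F (T t112 (L l77 (T t96 (L l86 (L l296 (T t98 N)))))))) (K a21 (M a48 (F (T t99 (L l453 (T t50 (L l47 (T t100 N))))))) (K a149 (M a16 (F (T t112 (L l77 (T t173 (L l170 (T t102 N))))))) (K a213 (Fr a170 a255 l476 (Fr a42 a21 l68 (Fr a106 a234 l390 (Fr a192 a149 l519 (V t581))))) (K a42 (M a48 (F (T t364 (L l390 (L l453 (T t50 (L l28 (T t100 N)))))))) (K a106 (M a48 (F (T t1 (L l77 (L l104 (T t509 (L l390 (L l453 (T t50 N))))))))) (K a170 (M a16 (F (L l404 (T t113 (L l86 (L l390 (T t98 (L l390 (L l404 (T t97 (L l404 (T t174 N)))))))))))) (K a255 (M a16 (F (T t112 (L l289 (T t113 (L l86 (L l289 (L l296 (T t98 N))))))))) N)))))))))))))))⟩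
def e0_63__70_78 : Ent 4 := ⟨[a0, a63], [a70, a83], (M a149 (F (T t5 (T t175 (T t176 (T t177 (K a192 (M a53 (F (T t178 (L l236 (T t179 (L l77 (L l236 (L l296 (T t180 N))))))))) (K a21 (M a48 (F (T t4 (T t13 (L l18 (T t14 N)))))) (K a85 (M a16 (F (T t97 (L l144 (T t190 (L l94 (T t278 N))))))) (K a213 (Fr a106 a192 l519 (Fr a42 a21 l68 (Fr a170 a234 l390 (Fr a255 a85 l476 (V t582))))) (K a42 (M a48 (F (T t187 (L l390 (T t13 (L l54 (T t14 N))))))) (K a106 (M a48 (F (T t1 (L l498 (T t14 (L l390 (L l498 (T t6 (L l390 (T t26 N)))))))))) (K a170 (M a48 (F (T t4 (L l462 (T t1 (L l390 (T t13 N))))))) (K a191 (M a240 (F (T t1091 (L l315 (T t963 N))))) (K a255 (M a16 (F (T t112 (L l266 (T t190 (L l86 (L l289 (L l296 (T t191 N))))))))) N)))))))))))))))⟩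
def e0_63__70_79 : Ent 4 := ⟨[a0, a63], [a70, a84], (M a85 (F (T t52 (L l140 (T t88 (L l140 (T t89 (L l140 (T t90 (K a64 (M a60 (L l140 (F (T t114 (L l346 (T t115 (K a104 (M a124 (F (T t1126 (L l346 (L l388 (T t115 N)))))) (K a124 (M a104 (F (T t936 (L l333 (L l346 (T t67 (L l109 (T t1895 N)))))))) N)))))))) (K a192 (M a16 (F (T t112 (L l77 (T t96 (L l90 (L l296 (T t98 N)))))))) (K a21 (M a48 (F (T t99 (T t50 (L l47 (T t100 N)))))) (K a149 (M a16 (F (T t112 (L l77 (T t173 (L l170 (T t102 N))))))) (K a213 (Fr a170 a255 l476 (Fr a42 a21 l68 (Fr a106 a234 l390 (Fr a192 a149 l519 (V t581))))) (K a42 (M a48 (F (L l28 (T t99 (L l390 (T t50 (L l28 (T t100 N)))))))) (K a106 (M a48 (F (T t1 (L l77 (L l104 (T t509 (L l390 (T t50 N)))))))) (K a170 (M a16 (F (L l404 (T t113 (L l90 (L l390 (T t98 (L l390 (L l404 (T t97 (L l404 (T t174 N)))))))))))) (K a255 (M a16 (F (T t112 (L l289 (T t113 (L l90 (L l289 (L l296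 (T t98 N))))))))) N))))))))))))))))))⟩
def e0_63__70_80 : Ent 4 := ⟨[a0, a63], [a70, a85], (M a48 (F (T t0 (L l347 (T t1 (L l455 (T t2 (L l347 (L l368 (T t3 (K a16 (M a61 (L l368 (F (T t262 (L l333 (L l473 (T t505 (L l10 (L l365 (T t530 (K a154 (M a223 (F (T t529 (L l498 (T t262 (L l10 (L l365 (L l498 (T t530 N))))))))) (K a223 (M a154 (F (T t529 (L l123 (L l340 (T t1119 N)))))) N)))))))))))) (K a32 (M a60 (F (T t64 (L l333 (L l347 (L l350 (T t67 (L l24 (L l28 (L l455 (T t65 N))))))))))) (K a21 (M a149 (F (T t4 (L l144 (T t13 (L l18 (L l123 (L l144 (L l368 (T t482 (L l18 (L l123 (L l330 (L l368 (T t483 N))))))))))))))) (K a37 (M a192 (F (T t27 (L l47 (L l347 (T t20 (L l144 (L l368 (T t224 N))))))))) (K a53 (M a12 (F (T t443 (L l47 (L l347 (T t122 (L l47 (L l347 (T t146 N))))))))) (K a26 (M a192 (F (T t28 (L l347 (T t20 (L l18 (L l54 (L l144 (L l368 (T t224 N)))))))))) (K a42 (M a192 (F (T t27 (L l347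 (T t20 (L l54 (L l144 (L l368 (L l390 (T t224 N)))))))))) (K a58 (M a12 (F (T t443 (L l347 (T t122 (L l347 (T t146 N))))))) (K a15 (M a192 (F (L l483 (T t27 (L l325 (L l347 (T t20 (L l144 (L l368 (T t224 N)))))))))) N)))))))))))))))))))⟩
def e0_63__70_81 : Ent 4 := ⟨[a0, a63], [a70, a86], (M a48 (L l124 (F (T t1 (T t2 (T t3 (T t0 (K a16 (M a62 (L l124 (F (T t825 (L l18 (L l330 (L l333 (L l474 (L l477 (T t709 (L l18 (L l348 (T t826 (K a102 (M a118 (F (L l14 (L l18 (T t711 (L l492 (T t1896 N))))))) (K a118 (M a102 (F (L l14 (L l18 (T t711 (L l366 (L l368 (L l420 (T t1897 N))))))))) N))))))))))))))) (K a32 (M a62 (L l124 (F (T t825 (L l330 (L l333 (L l474 (L l477 (T t709 (L l20 (L l348 (T t826 (K a102 (M a118 (F (T t711 (L l492 (T t1896 N))))) (K a118 (M a102 (F (T t711 (L l366 (L l420 (T t1897 N)))))) N)))))))))))))) (K a21 (M a192 (L l124 (F (T t837 (L l47 (L l347 (L l351 (T t20 (L l47 (L l347 (L l351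 (T t29 (K a102 (M a118 (F (T t28 (L l102 (L l142 (T t22 (L l47 (L l347 (L l351 (L l495 (T t29 N))))))))))) (K a118 (M a102 (F (T t837 (L l347 (L l351 (L l441 (T t1898 N))))))) N)))))))))))))) (K a37 (M a52 (L l124 (F (T t82 (T t83 (L l21 (L l28 (T t84 (K a102 (M a118 (F (T t82 (L l459 (L l492 (T t1899 N)))))) (K a118 (M a102 (F (T t82 (L l315 (L l348 (L l420 (T t1900 N))))))) N)))))))))) (K a53 (M a51 (L l124 (F (T t1294 (L l35 (L l330 (L l333 (L l474 (L l477 (T t1901 (L l35 (T t1902 (K a102 (M a118 (F (T t1296 (L l35 (L l126 (L l419 (L l474 (T t1903 N)))))))) (K a118 (M a102 (F (T t1296 (L l35 (L l330 (L l369 (T t1904 N))))))) N)))))))))))))) (K a26 (M a50 (L l124 (F (T t147 (L l330 (L l333 (L l474 (L l477 (T t148 (L l16 (L l18 (L l348 (T t149 (K a102 (M a118 (F (T t147 (L l87 (L l126 (L l330 (L l474 (T t1905 N)))))))) (K a118 (M a102 (F (T t147 (L l330 (T t1906 N))))) N))))))))))))))) (K a42 (M a192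 (L l124 (F (T t19 (L l351 (T t20 (L l28 (L l351 (T t29 (K a102 (M a118 (F (T t837 (L l102 (L l142 (L l390 (T t22 (L l28 (L l351 (L l495 (T t29 N))))))))))) (K a118 (M a102 (F (T t19 (L l351 (L l441 (T t1898 N)))))) N))))))))))) (K a58 (M a51 (L l124 (F (T t589 (L l330 (L l333 (L l474 (L l477 (T t1901 (L l32 (L l54 (T t1902 (K a102 (M a118 (F (T t589 (L l126 (L l474 (T t1903 N)))))) (K a118 (M a102 (F (T t589 (L l330 (L l369 (T t1904 N)))))) N)))))))))))))) (K a15 (M a4 (L l124 (F (T t129 (L l63 (T t528 (T t520 (K a102 (M a118 (F (T t518 (L l384 (T t1907 N))))) (K a118 (M a102 (F (T t558 (L l315 (L l456 (T t1908 N)))))) N))))))))) (K a102 (M a118 (F (T t1 (T t2 (T t3 (T t0 (K a16 (M a181 (F (T t1909 (L l402 (L l459 (T t1910 N)))))) (K a32 (M a252 (F (T t1911 (L l126 (T t1912 N))))) (K a21 (M a240 (F (T t1913 (L l50 (L l495 (L l513 (T t1914 N))))))) (K a37 (M a240 (F (T t1913 (L l495 (L l513 (T t1914 N))))))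 (K a53 (M a240 (F (T t1913 (L l31 (L l495 (L l513 (T t1914 N))))))) (K a26 (M a240 (F (T t1913 (L l495 (L l513 (T t1914 N)))))) (K a42 (M a240 (F (T t1913 (L l495 (L l513 (T t1914 N)))))) (K a58 (M a240 (F (T t1915 (L l426 (L l495 (L l513 (T t1914 N))))))) (K a15 (M a240 (F (T t1916 (L l73 (L l495 (L l513 (T t1914 N))))))) N))))))))))))))) (K a118 (M a102 (F (T t1 (T t2 (T t3 (T t0 (K a16 (M a100 (F (T t1917 (L l77 (L l364 (L l441 (T t1918 N))))))) (K a32 (M a204 (F (T t1919 (L l107 (T t1920 N))))) (K a21 (M a192 (F (T t837 (L l347 (L l351 (L l441 (T t1898 N))))))) (K a37 (M a192 (F (T t19 (L l351 (L l441 (T t1898 N)))))) (K a53 (M a192 (F (T t19 (L l351 (L l441 (L l491 (T t1898 N))))))) (K a26 (M a192 (F (T t837 (L l351 (L l441 (T t1898 N)))))) (K a42 (M a192 (F (T t19 (L l351 (L l441 (T t1898 N)))))) (K a58 (M a192 (F (T t19 (L l351 (L l441 (T t1898 N)))))) (K a15 (M a192 (F (T t55 (L l73 (L l351 (L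 l441 (T t1898 N))))))) N))))))))))))))) N))))))))))))))))))⟩
def e0_63__70_82 : Ent 4 := ⟨[a0, a63], [a70, a87], (M a85 (F (T t88 (L l143 (L l475 (T t52 (T t89 (T t90 (K a64 (M a240 (F (T t933 (L l93 (T t387 N))))) (K a192 (M a16 (F (T t112 (L l77 (L l367 (T t96 (L l296 (L l367 (T t98 N))))))))) (K a21 (M a48 (F (L l367 (T t261 (L l143 (T t50 (L l47 (L l143 (L l367 (T t100 N)))))))))) (K a149 (M a16 (F (T t112 (L l77 (L l367 (T t173 (L l93 (L l170 (T t102 N))))))))) (K a213 (Fr a170 a255 l476 (Fr a42 a21 l68 (Fr a106 a234 l390 (Fr a192 a149 l519 (V t581))))) (K a42 (M a48 (F (L l475 (T t364 (L l143 (L l390 (T t50 (L l28 (L l143 (L l367 (T t100 N))))))))))) (K a106 (M a48 (F (T t1 (L l77 (L l104 (L l367 (T t509 (L l143 (L l390 (T t50 N)))))))))) (K a170 (M a16 (F (L l390 (L l404 (T t97 (L l367 (L l390 (T t98 (L l143 (L l367 (L l404 (T t113 (L l367 (L l404 (T t174 N))))))))))))))) (K a255 (M a3 (F (L l434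 (T t358 (L l143 (L l261 (L l330 (L l349 (T t376 (L l261 (L l296 (L l330 (T t357 (L l261 (L l296 (T t1921 N)))))))))))))))) N)))))))))))))))))⟩
def e0_63__70_83 : Ent 4 := ⟨[a0, a63], [a70, a88], (M a85 (F (T t88 (T t52 (T t89 (T t90 (K a64 (M a252 (F (T t91 (L l460 (T t92 N))))) (K a192 (M a16 (F (T t112 (L l77 (T t96 (L l90 (L l296 (T t98 N)))))))) (K a21 (M a48 (F (T t99 (L l478 (T t50 (L l47 (T t100 N))))))) (K a149 (M a16 (F (T t112 (L l77 (T t173 (L l170 (T t102 N))))))) (K a213 (Fr a170 a255 l476 (Fr a42 a21 l68 (Fr a106 a234 l390 (Fr a192 a149 l519 (V t581))))) (K a42 (M a48 (F (T t364 (L l390 (L l478 (T t50 (L l28 (T t100 N)))))))) (K a106 (M a48 (F (T t1 (L l77 (L l104 (T t509 (L l390 (L l478 (T t50 N))))))))) (K a170 (M a16 (F (L l404 (T t113 (L l90 (L l390 (T t98 (L l390 (L l404 (T t97 (L l404 (T t174 N)))))))))))) (K a255 (M a16 (F (T t112 (L l289 (T t113 (L l90 (L l289 (L l296 (T t98 N)))))))))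 N)))))))))))))))⟩
def e0_63__70_84 : Ent 4 := ⟨[a0, a63], [a70, a89], (M a48 (F (T t1 (T t2 (T t3 (T t0 (K a16 (M a60 (F (T t64 (L l14 (L l18 (L l333 (T t67 (T t65 N)))))))) (K a32 (M a60 (F (T t64 (L l333 (T t67 (L l24 (L l28 (T t65 N)))))))) (K a21 (M a192 (F (T t837 (L l47 (L l347 (L l371 (T t20 (L l47 (L l347 (L l371 (T t29 N))))))))))) (K a37 (M a192 (F (T t19 (L l47 (L l371 (T t20 (L l371 (T t21 N)))))))) (K a53 (M a192 (F (T t19 (L l371 (L l491 (T t21 (L l132 (T t31 N)))))))) (K a26 (M a192 (F (T t27 (L l371 (T t20 (L l371 (T t21 N))))))) (K a42 (M a192 (F (T t19 (L l371 (T t20 (L l28 (L l371 (T t29 N)))))))) (K a58 (M a192 (F (T t19 (L l371 (T t21 (L l54 (L l132 (L l498 (T t31 N))))))))) (K a15 (M a192 (F (T t1922 (L l325 (L l371 (T t20 (L l371 (L l469 (T t21 N))))))))) N)))))))))))))))⟩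
def e0_63__70_85 : Ent 4 := ⟨[a0, a63], [a70, a90], (M a12 (F (T t122 (T t151 (T t152 (T t153 (K a4 (M a60 (F (T t570 (L l46 (L l50 (L l333 (T t67 (T t448 N)))))))) (K a8 (M a60 (F (T t570 (L l333 (T t67 (L l52 (L l56 (T t448 N)))))))) (K a21 (M a192 (F (T t1725 (L l15 (L l347 (L l375 (T t450 (L l15 (L l347 (L l375 (T t157 N))))))))))) (K a25 (M a192 (F (T t496 (L l15 (L l375 (T t450 (L l375 (T t21 N)))))))) (K a29 (M a192 (F (T t496 (L l371 (L l375 (T t21 (L l130 (T t160 N)))))))) (K a38 (M a192 (F (T t1725 (L l375 (T t450 (L l375 (T t21 N))))))) (K a42 (M a192 (F (T t496 (L l375 (T t450 (L l56 (L l375 (T t157 N)))))))) (K a46 (M a192 (F (T t1725 (L l375 (T t21 (L l26 (L l130 (L l408 (T t160 N))))))))) (K a51 (M a192 (F (T t1725 (L l375 (L l415 (T t450 (L l375 (L l439 (T t21 N))))))))) N)))))))))))))))⟩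
def e0_63__70_86 : Ent 4 := ⟨[a0, a63], [a70, a91], (M a149 (F (T t5 (T t175 (T t176 (T t177 (K a192 (M a53 (F (T t178 (L l236 (T t179 (L l77 (L l236 (L l296 (T t180 N))))))))) (K a21 (M a48 (F (T t4 (T t13 (L l18 (T t14 N)))))) (K a85 (M a16 (F (L l455 (T t112 (L l144 (T t190 (L l88 (L l94 (T t278 N))))))))) (K a213 (Fr a106 a192 l519 (Fr a42 a21 l68 (Fr a170 a234 l390 (Fr a255 a85 l476 (V t582))))) (K a42 (M a48 (F (T t187 (L l390 (T t13 (L l54 (T t14 N))))))) (K a106 (M a48 (F (T t48 (L l498 (T t14 (L l390 (L l498 (T t6 (L l390 (T t26 N)))))))))) (K a170 (M a48 (F (T t4 (L l462 (L l481 (T t1 (L l390 (T t13 N)))))))) (K a191 (M a240 (F (T t962 (L l315 (T t963 N))))) (K a255 (M a16 (F (T t112 (L l266 (T t190 (L l289 (L l296 (T t191 N)))))))) N)))))))))))))))⟩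
def e0_63__70_87 : Ent 4 := ⟨[a0, a63], [a70, a92], (M a149 (F (T t5 (T t175 (T t176 (T t177 (K a192 (M a53 (F (T t178 (L l236 (T t179 (L l77 (L l236 (L l296 (T t180 N))))))))) (K a21 (M a48 (F (T t4 (T t13 (L l18 (T t14 N)))))) (K a85 (M a16 (F (T t97 (L l144 (T t190 (L l94 (T t278 N))))))) (K a213 (Fr a106 a192 l519 (Fr a42 a21 l68 (Fr a170 a234 l390 (Fr a255 a85 l476 (V t582))))) (K a42 (M a48 (F (T t187 (L l390 (T t13 (L l54 (T t14 N))))))) (K a106 (M a48 (F (T t1 (L l498 (T t14 (L l390 (L l498 (T t6 (L l390 (T t26 N)))))))))) (K a170 (M a48 (F (T t4 (L l462 (T t1 (L l390 (T t13 N))))))) (K a191 (M a240 (F (T t1091 (L l315 (T t963 N))))) (K a255 (M a16 (F (T t112 (L l266 (T t190 (L l90 (L l289 (L l296 (T t191 N))))))))) N)))))))))))))))⟩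
def e0_63__70_88 : Ent 4 := ⟨[a0, a63], [a70, a93], (M a85 (F (T t88 (L l138 (L l470 (T t52 (T t89 (T t90 (K a64 (M a240 (F (T t933 (L l89 (T t387 N))))) (K a192 (M a16 (F (T t112 (L l77 (L l362 (T t96 (L l296 (L l362 (T t98 N))))))))) (K a21 (M a48 (F (L l362 (T t261 (L l138 (T t50 (L l47 (L l138 (L l362 (T t100 N)))))))))) (K a149 (M a16 (F (T t112 (L l77 (L l362 (T t173 (L l89 (L l170 (T t102 N))))))))) (K a213 (Fr a170 a255 l476 (Fr a42 a21 l68 (Fr a106 a234 l390 (Fr a192 a149 l519 (V t581))))) (K a42 (M a48 (F (L l470 (T t364 (L l138 (L l390 (T t50 (L l28 (L l138 (L l362 (T t100 N))))))))))) (K a106 (M a48 (F (T t1 (L l77 (L l104 (L l362 (T t509 (L l138 (L l390 (T t50 N)))))))))) (K a170 (M a16 (F (L l390 (L l404 (T t97 (L l362 (L l390 (T t98 (L l138 (L l362 (L l404 (T t113 (L l362 (L l404 (T t174 N))))))))))))))) (K a255 (M a12 (F (T t1252 (L l138 (L l265 (L l359 (T t574 (L l265 (L l296 (T t572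 (L l265 (L l296 (T t1923 N))))))))))))) N)))))))))))))))))⟩
def e0_63__70_89 : Ent 4 := ⟨[a0, a63], [a70, a94], (M a149 (F (T t5 (T t175 (T t176 (T t177 (K a192 (M a53 (F (T t178 (L l236 (T t179 (L l77 (L l236 (L l296 (T t180 N))))))))) (K a21 (M a48 (F (T t4 (T t13 (L l18 (T t14 N)))))) (K a85 (M a16 (F (L l455 (T t112 (L l144 (T t190 (L l92 (L l94 (T t278 N))))))))) (K a213 (Fr a106 a192 l519 (Fr a42 a21 l68 (Fr a170 a234 l390 (Fr a255 a85 l476 (V t582))))) (K a42 (M a48 (F (T t187 (L l390 (T t13 (L l54 (T t14 N))))))) (K a106 (M a48 (F (T t48 (L l498 (T t14 (L l390 (L l498 (T t6 (L l390 (T t26 N)))))))))) (K a170 (M a48 (F (T t4 (L l462 (L l471 (T t1 (L l390 (T t13 N)))))))) (K a191 (M a240 (F (T t962 (L l315 (T t963 N))))) (K a255 (M a16 (F (T t112 (L l266 (T t190 (L l289 (L l296 (T t191 N)))))))) N)))))))))))))))⟩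
def e0_63__70_90 : Ent 4 := ⟨[a0, a63], [a70, a95], (M a85 (F (T t88 (L l137 (L l469 (T t52 (T t89 (T t90 (K a64 (M a252 (F (T t93 (L l93 (T t92 N))))) (K a192 (M a16 (F (T t112 (L l77 (T t1924 (L l296 (T t1925 N))))))) (K a21 (M a48 (F (L l361 (T t261 (L l137 (T t50 (L l47 (L l137 (L l361 (T t100 N)))))))))) (K a149 (M a48 (F (T t132 (L l77 (L l220 (T t873 (L l137 (L l220 (T t50 N))))))))) (K a213 (Fr a170 a255 l476 (Fr a42 a21 l68 (Fr a106 a234 l390 (Fr a192 a149 l519 (V t581))))) (K a42 (M a48 (F (L l469 (T t364 (L l137 (L l390 (T t50 (L l28 (L l137 (L l361 (T t100 N))))))))))) (K a106 (M a48 (F (T t48 (L l77 (L l104 (L l361 (T t509 (L l137 (L l390 (T t50 N)))))))))) (K a170 (M a48 (F (T t607 (L l137 (L l361 (L l404 (T t100 (L l390 (T t51 (L l361 (L l390 (L l404 (T t568 N))))))))))))) (K a255 (M a15 (F (T t1254 (L l137 (L l266 (L l361 (T t1497 (L l266 (L l296 (L l315 (T t1484 (L l266 (L l296 (T t1926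 N)))))))))))))) N)))))))))))))))))⟩
def e0_63__70_91 : Ent 4 := ⟨[a0, a63], [a70, a96], (M a12 (F (T t122 (T t151 (T t152 (T t153 (K a4 (M a60 (F (T t398 (L l46 (L l50 (L l333 (T t67 (T t448 N)))))))) (K a8 (M a60 (F (T t398 (L l333 (T t67 (L l52 (L l56 (T t448 N)))))))) (K a21 (M a192 (F (L l347 (T t467 (L l85 (L l333 (T t156 (L l15 (L l347 (T t157 N)))))))))) (K a25 (M a192 (F (T t467 (L l85 (L l333 (T t156 (T t21 N))))))) (K a29 (M a192 (F (T t496 (L l371 (T t21 (L l104 (T t160 N))))))) (K a38 (M a192 (F (T t450 (L l85 (L l333 (T t156 (T t21 N))))))) (K a42 (M a192 (F (T t450 (L l85 (L l333 (T t156 (L l56 (T t157 N)))))))) (K a46 (M a192 (F (T t21 (L l85 (L l333 (T t156 (L l26 (L l104 (L l408 (T t160 N)))))))))) (K a51 (M a192 (F (T t57 (L l85 (L l333 (L l513 (T t156 (L l415 (T t450 N))))))))) N)))))))))))))))⟩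
def e0_63__70_92 : Ent 4 := ⟨[a0, a63], [a70, a97], (M a85 (F (T t88 (T t52 (T t89 (T t90 (K a64 (M a16 (F (L l380 (T t97 (L l77 (L l84 (T t666 (L l116 (T t98 N))))))))) (K a192 (M a16 (F (L l380 (T t112 (L l77 (L l296 (T t666 (L l296 (T t98 N))))))))) (K a21 (M a48 (F (L l380 (T t99 (T t50 (L l47 (L l380 (T t100 N)))))))) (K a149 (M a16 (F (L l380 (T t112 (L l77 (T t666 (L l170 (T t102 N)))))))) (K a213 (Fr a170 a255 l476 (Fr a42 a21 l68 (Fr a106 a234 l390 (Fr a192 a149 l519 (V t581))))) (K a42 (M a48 (F (T t364 (L l390 (T t50 (L l28 (L l380 (T t100 N)))))))) (K a106 (M a48 (F (T t364 (T t1 (L l390 (T t50 N)))))) (K a170 (M a16 (F (L l380 (L l404 (T t113 (L l390 (T t98 (L l380 (L l390 (L l404 (T t97 (L l380 (L l404 (T t174 N)))))))))))))) (K a255 (M a16 (F (L l380 (T t112 (L l289 (L l296 (T t98 (L l289 (L l380 (T t113 N)))))))))) N)))))))))))))))⟩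
def e0_63__70_93 : Ent 4 := ⟨[a0, a63], [a70, a98], (M a48 (F (T t1 (T t2 (T t3 (T t0 (K a16 (M a60 (F (T t138 (L l14 (L l18 (L l333 (T t67 (T t65 N)))))))) (K a32 (M a60 (F (T t138 (L l333 (T t67 (L l24 (L l28 (T t65 N)))))))) (K a21 (M a192 (F (T t27 (L l47 (L l347 (T t20 (L l47 (L l347 (T t29 N))))))))) (K a37 (M a192 (F (T t27 (L l47 (T t20 (T t21 N)))))) (K a53 (M a192 (F (T t27 (L l491 (T t21 (L l96 (L l102 (T t31 N)))))))) (K a26 (M a192 (F (T t27 (T t20 (T t21 N))))) (K a42 (M a192 (F (T t27 (T t20 (L l28 (T t29 N)))))) (K a58 (M a192 (F (T t27 (T t21 (L l54 (L l96 (L l102 (L l498 (T t31 N))))))))) (K a15 (M a192 (F (T t57 (L l483 (T t27 (L l325 (T t20 N))))))) N)))))))))))))))⟩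
def e0_63__70_94 : Ent 4 := ⟨[a0, a63], [a70, a99], (M a149 (F (T t5 (T t175 (T t176 (T t177 (K a192 (M a53 (F (T t178 (L l236 (T t179 (L l77 (L l236 (L l296 (T t180 N))))))))) (K a21 (M a48 (F (T t16 (T t13 (L l18 (T t14 N)))))) (K a85 (M a16 (F (T t97 (L l96 (L l144 (T t190 (L l94 (T t278 N)))))))) (K a213 (Fr a106 a192 l519 (Fr a42 a21 l68 (Fr a170 a234 l390 (Fr a255 a85 l476 (V t582))))) (K a42 (M a48 (F (T t187 (L l390 (T t13 (L l54 (T t14 N))))))) (K a106 (M a48 (F (T t1 (L l498 (T t14 (L l390 (L l498 (T t6 (L l390 (T t26 N)))))))))) (K a170 (M a48 (F (T t11 (L l462 (T t1 (L l390 (T t13 N))))))) (K a191 (M a240 (F (T t962 (L l315 (T t963 N))))) (K a255 (M a16 (F (T t112 (L l96 (L l266 (T t190 (L l289 (L l296 (T t191 N))))))))) N)))))))))))))))⟩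
def e0_63__70_95 : Ent 4 := ⟨[a0, a63], [a70, a100], (M a85 (F (T t88 (T t52 (T t89 (T t90 (K a64 (M a252 (F (T t91 (L l400 (T t92 N))))) (K a192 (M a16 (F (L l400 (T t112 (L l77 (L l296 (T t666 (L l296 (T t98 N))))))))) (K a21 (M a48 (F (L l400 (T t99 (T t50 (L l47 (L l400 (T t100 N)))))))) (K a149 (M a16 (F (L l400 (T t112 (L l77 (T t666 (L l170 (T t102 N)))))))) (K a213 (Fr a170 a255 l476 (Fr a42 a21 l68 (Fr a106 a234 l390 (Fr a192 a149 l519 (V t581))))) (K a42 (M a48 (F (T t364 (L l390 (T t50 (L l28 (L l400 (T t100 N)))))))) (K a106 (M a48 (F (T t364 (T t1 (L l390 (T t50 N)))))) (K a170 (M a16 (F (L l400 (L l404 (T t113 (L l390 (T t98 (L l390 (L l400 (L l404 (T t97 (L l400 (L l404 (T t174 N)))))))))))))) (K a255 (M a16 (F (L l400 (T t112 (L l289 (L l296 (T t98 (L l289 (L l400 (T t113 N)))))))))) N)))))))))))))))⟩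
def e0_63__70_96 : Ent 4 := ⟨[a0, a63], [a70, a101], (M a12 (F (T t122 (T t151 (T t152 (T t153 (K a4 (M a60 (F (T t398 (L l46 (L l50 (L l333 (T t67 (T t448 N)))))))) (K a8 (M a60 (F (T t398 (L l333 (T t67 (L l52 (L l56 (T t448 N)))))))) (K a21 (M a192 (F (T t1725 (L l15 (L l347 (L l491 (T t450 (L l15 (L l347 (L l491 (T t157 N))))))))))) (K a25 (M a192 (F (T t496 (L l15 (L l491 (T t450 (L l491 (T t21 N)))))))) (K a29 (M a192 (F (T t496 (L l371 (L l491 (T t21 (L l104 (T t160 N)))))))) (K a38 (M a192 (F (T t1725 (L l491 (T t450 (L l491 (T t21 N))))))) (K a42 (M a192 (F (T t496 (L l491 (T t450 (L l56 (L l491 (T t157 N)))))))) (K a46 (M a192 (F (T t1725 (L l491 (T t21 (L l26 (L l104 (L l408 (T t160 N))))))))) (K a51 (M a192 (F (T t1725 (L l415 (L l491 (T t450 (L l439 (L l491 (T t21 N))))))))) N)))))))))))))))⟩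
def e0_63__70_97 : Ent 4 := ⟨[a0, a63], [a70, a102], (M a48 (L l124 (F (T t1 (T t2 (T t3 (T t0 (K a16 (M a62 (L l124 (F (T t827 (L l18 (L l330 (L l333 (T t709 (L l18 (L l402 (L l492 (T t826 (K a86 (M a118 (F (L l14 (L l18 (T t711 (L l492 (T t1896 N))))))) (K a118 (M a86 (F (T t827 (L l18 (L l402 (T t1927 N)))))) N)))))))))))))) (K a32 (M a62 (L l124 (F (T t711 (L l510 (L l513 (T t825 (L l20 (L l402 (L l492 (T t826 (K a86 (M a118 (F (T t711 (L l492 (T t1896 N))))) (K a118 (M a86 (F (T t827 (L l402 (L l404 (T t1927 N)))))) N))))))))))))) (K a21 (M a192 (L l124 (F (T t837 (L l47 (L l347 (L l495 (T t20 (L l47 (L l347 (L l495 (T t29 (K a86 (M a118 (F (T t28 (L l102 (L l142 (T t22 (L l47 (L l347 (L l351 (L l495 (T t29 N))))))))))) (K a118 (M a86 (F (T t28 (L l11 (L l102 (L l333 (T t1177 N))))))) N)))))))))))))) (K a37 (M a192 (L l124 (F (T t19 (L l47 (L l495 (T t20 (L l495 (T t21 (K a86 (M a118 (F (T t837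 (L l47 (L l351 (L l495 (T t35 (L l102 (L l142 (T t22 N)))))))))) (K a118 (M a86 (F (T t27 (L l102 (L l333 (T t1177 N)))))) N))))))))))) (K a53 (M a192 (L l124 (F (T t19 (L l491 (L l495 (T t21 (L l102 (T t31 (K a86 (M a118 (F (T t28 (L l47 (L l351 (L l491 (L l495 (T t35 (L l47 (L l351 (L l491 (L l495 (T t525 N))))))))))))) (K a118 (M a86 (F (T t28 (L l102 (L l333 (T t1177 N)))))) N))))))))))) (K a26 (M a62 (L l124 (F (T t827 (L l18 (L l330 (L l333 (T t709 (L l16 (L l18 (L l402 (L l492 (T t826 (K a86 (M a118 (F (L l18 (T t711 (L l492 (T t1896 N)))))) (K a118 (M a86 (F (T t827 (L l16 (L l18 (L l402 (T t1927 N))))))) N))))))))))))))) (K a42 (M a192 (L l124 (F (T t19 (L l495 (T t20 (L l28 (L l495 (T t29 (K a86 (M a118 (F (T t837 (L l102 (L l142 (L l390 (T t22 (L l28 (L l351 (L l495 (T t29 N))))))))))) (K a118 (M a86 (F (T t837 (L l102 (L l333 (L l390 (T t1177 N))))))) N))))))))))) (K a58 (M a192 (L l124 (F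 (T t19 (L l495 (T t21 (L l54 (L l102 (L l498 (T t31 (K a86 (M a118 (F (T t28 (L l351 (L l495 (T t35 (L l351 (L l495 (T t525 N))))))))) (K a118 (M a86 (F (T t28 (L l102 (L l333 (L l498 (T t1177 N))))))) N)))))))))))) (K a15 (M a62 (L l124 (F (T t711 (L l73 (L l510 (L l513 (T t825 (L l402 (L l492 (T t826 (K a86 (M a118 (F (T t711 (L l492 (T t1896 N))))) (K a118 (M a86 (F (T t827 (L l402 (T t1927 N))))) N))))))))))))) (K a86 (M a118 (F (T t1 (T t2 (T t3 (T t0 (K a16 (M a181 (F (T t1909 (L l402 (L l459 (T t1910 N)))))) (K a32 (M a252 (F (T t1911 (L l126 (T t1912 N))))) (K a21 (M a240 (F (T t1913 (L l50 (L l495 (L l513 (T t1914 N))))))) (K a37 (M a240 (F (T t1913 (L l495 (L l513 (T t1914 N)))))) (K a53 (M a240 (F (T t1913 (L l31 (L l495 (L l513 (T t1914 N))))))) (K a26 (M a240 (F (T t1913 (L l495 (L l513 (T t1914 N)))))) (K a42 (M a240 (F (T t1913 (L l495 (L l513 (T t1914 N)))))) (K a58 (M a240 (F (T t1915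 (L l426 (L l495 (L l513 (T t1914 N))))))) (K a15 (M a240 (F (T t1916 (L l73 (L l495 (L l513 (T t1914 N))))))) N))))))))))))))) (K a118 (M a86 (F (T t1 (T t2 (T t3 (T t0 (K a16 (M a84 (F (T t1928 (L l97 (L l107 (L l333 (T t1929 N))))))) (K a32 (M a84 (F (L l28 (T t1928 (L l107 (L l333 (L l400 (T t1930 N)))))))) (K a21 (M a192 (F (T t28 (L l11 (L l102 (L l333 (T t1177 N))))))) (K a37 (M a192 (F (T t27 (L l102 (L l333 (T t1177 N)))))) (K a53 (M a192 (F (T t28 (L l102 (L l333 (T t1177 N)))))) (K a26 (M a192 (F (T t28 (L l102 (L l333 (T t1177 N)))))) (K a42 (M a192 (F (T t837 (L l102 (L l333 (L l390 (T t1177 N))))))) (K a58 (M a192 (F (T t28 (L l102 (L l333 (L l498 (T t1177 N))))))) (K a15 (M a192 (F (T t36 (L l7 (L l102 (L l333 (T t1177 N))))))) N))))))))))))))) N))))))))))))))))))⟩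
def e0_63__70_98 : Ent 4 := ⟨[a0, a63], [a70, a103], (M a85 (F (T t88 (T t52 (T t89 (T t90 (K a64 (M a204 (F (T t1744 (L l125 (L l315 (T t1576 N)))))) (K a192 (M a16 (F (T t112 (L l77 (L l97 (T t96 (L l296 (T t98 N)))))))) (K a21 (M a48 (F (T t99 (T t50 (L l47 (T t100 N)))))) (K a149 (M a16 (F (T t112 (L l77 (L l511 (T t173 (L l103 (L l170 (T t102 N))))))))) (K a213 (Fr a170 a255 l476 (Fr a42 a21 l68 (Fr a106 a234 l390 (Fr a192 a149 l519 (V t581))))) (K a42 (M a48 (F (L l28 (T t99 (L l390 (T t50 (L l28 (T t100 N)))))))) (K a106 (M a48 (F (T t1 (L l77 (L l97 (L l104 (T t509 (L l390 (T t50 N))))))))) (K a170 (M a16 (F (L l404 (T t113 (L l390 (T t98 (L l390 (L l404 (T t97 (L l404 (L l511 (T t174 N)))))))))))) (K a255 (M a16 (F (T t112 (L l289 (T t113 (L l289 (L l296 (T t98 N)))))))) N)))))))))))))))⟩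
def e0_63__70_99 : Ent 4 := ⟨[a0, a63], [a70, a104], (M a48 (F (T t1 (T t2 (T t3 (T t0 (K a16 (M a60 (F (T t64 (L l14 (L l18 (L l333 (T t67 (L l388 (T t65 N))))))))) (K a32 (M a60 (F (T t64 (L l333 (T t67 (L l24 (L l28 (L l388 (T t65 N))))))))) (K a21 (M a192 (F (T t27 (L l47 (L l347 (T t20 (L l47 (L l347 (T t29 N))))))))) (K a37 (M a192 (F (T t27 (L l47 (T t20 (T t21 N)))))) (K a53 (M a192 (F (T t27 (L l491 (T t21 (L l98 (L l100 (T t31 N)))))))) (K a26 (M a192 (F (T t27 (T t20 (T t21 N))))) (K a42 (M a192 (F (T t27 (T t20 (L l28 (T t29 N)))))) (K a58 (M a192 (F (T t27 (T t21 (L l54 (L l98 (L l100 (L l498 (T t31 N))))))))) (K a15 (M a192 (F (T t57 (L l483 (T t27 (L l325 (T t20 N))))))) N)))))))))))))))⟩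
def e0_63__70_100 : Ent 4 := ⟨[a0, a63], [a70, a105], (M a48 (F (T t1 (T t2 (T t3 (T t0 (K a16 (M a60 (F (T t42 (L l14 (L l18 (L l333 (T t67 (L l392 (T t65 N))))))))) (K a32 (M a60 (F (T t42 (L l333 (T t67 (L l24 (L l28 (L l392 (T t65 N))))))))) (K a21 (M a192 (F (T t837 (L l47 (L l347 (L l515 (T t20 (L l47 (L l347 (L l515 (T t29 N))))))))))) (K a37 (M a192 (F (T t19 (L l47 (L l515 (T t20 (L l515 (T t21 N)))))))) (K a53 (M a192 (F (T t19 (L l491 (L l515 (T t21 (L l98 (T t31 N)))))))) (K a26 (M a192 (F (T t27 (L l515 (T t20 (L l515 (T t21 N))))))) (K a42 (M a192 (F (T t19 (L l515 (T t20 (L l28 (L l515 (T t29 N)))))))) (K a58 (M a192 (F (T t19 (L l515 (T t21 (L l54 (L l98 (L l498 (T t31 N))))))))) (K a15 (M a192 (F (T t1922 (L l325 (L l515 (T t20 (L l469 (L l515 (T t21 N))))))))) N)))))))))))))))⟩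
def e0_63__70_101 : Ent 4 := ⟨[a0, a63], [a70, a106], (M a48 (F (T t1 (L l390 (L l498 (T t2 (L l411 (T t3 (L l390 (T t0 (K a16 (M a60 (F (T t64 (L l14 (L l18 (L l333 (L l393 (T t67 (L l390 (L l498 (T t65 N))))))))))) (K a32 (M a60 (F (T t64 (L l333 (L l393 (T t67 (L l24 (L l28 (L l390 (L l498 (T t65 N))))))))))) (K a21 (M a255 (F (T t511 (L l390 (T t512 (L l18 (L l144 (L l347 (L l498 (T t513 N)))))))))) (K a37 (M a52 (F (T t82 (L l498 (T t83 (L l21 (L l28 (L l390 (L l498 (T t84 N)))))))))) (K a53 (M a12 (F (T t443 (L l47 (T t122 (L l47 (T t146 N))))))) (K a26 (M a56 (F (T t133 (L l501 (T t134 (L l12 (L l18 (T t135 N)))))))) (K a42 (M a170 (F (T t319 (L l144 (T t514 (L l54 (L l104 (L l144 (L l498 (T t515 (L l54 (L l330 (L l498 (T t516 N)))))))))))))) (K a58 (M a12 (L l498 (F (T t122 (T t443 (T t146 (K a202 (M a154 (F (T t122 (L l77 (L l104 (L l426 (T t517 N))))))) (K a154 (M a202 (F (T t122 (L l356 (L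 l368 (T t445 (L l356 (T t146 N)))))))) N)))))))) (K a15 (M a4 (F (T t518 (L l73 (L l390 (T t519 (L l390 (L l498 (T t520 N))))))))) N)))))))))))))))))))⟩
def e0_63__70_102 : Ent 4 := ⟨[a0, a63], [a70, a107], (M a149 (F (T t5 (T t175 (T t176 (L l98 (T t177 (K a192 (M a53 (F (T t178 (L l236 (T t179 (L l77 (L l236 (L l296 (T t180 N))))))))) (K a21 (M a48 (F (T t4 (L l98 (T t13 (L l18 (T t14 N))))))) (K a85 (M a16 (F (T t97 (L l98 (L l144 (T t190 (L l94 (T t278 N)))))))) (K a213 (Fr a106 a192 l519 (Fr a42 a21 l68 (Fr a170 a234 l390 (Fr a255 a85 l476 (V t582))))) (K a42 (M a48 (F (T t187 (L l98 (L l390 (T t13 (L l54 (T t14 N)))))))) (K a106 (M a105 (F (L l390 (T t1931 (L l391 (L l516 (T t1932 (L l390 (L l391 (L l516 (T t1933 (L l390 (L l516 (T t1934 (L l516 (T t1935 N)))))))))))))))) (K a170 (M a48 (F (T t4 (L l462 (T t1 (L l98 (L l390 (T t13 N)))))))) (K a191 (M a16 (F (T t97 (L l98 (T t190 (L l213 (T t191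 N))))))) (K a255 (M a16 (F (T t112 (L l98 (L l266 (T t190 (L l289 (L l296 (T t191 N))))))))) N))))))))))))))))⟩
def e0_63__70_103 : Ent 4 := ⟨[a0, a63], [a70, a108], (M a149 (F (T t5 (T t175 (T t176 (T t177 (K a192 (M a53 (F (T t178 (L l236 (T t179 (L l77 (L l236 (L l296 (T t180 N))))))))) (K a21 (M a48 (F (T t16 (T t13 (L l18 (T t14 N)))))) (K a85 (M a16 (F (T t97 (L l100 (L l144 (T t190 (L l94 (T t278 N)))))))) (K a213 (Fr a106 a192 l519 (Fr a42 a21 l68 (Fr a170 a234 l390 (Fr a255 a85 l476 (V t582))))) (K a42 (M a48 (F (T t187 (L l390 (T t13 (L l54 (T t14 N))))))) (K a106 (M a48 (F (T t1 (L l498 (T t14 (L l390 (L l498 (T t6 (L l390 (T t26 N)))))))))) (K a170 (M a48 (F (T t11 (L l462 (T t1 (L l390 (T t13 N))))))) (K a191 (M a240 (F (T t962 (L l315 (T t963 N))))) (K a255 (M a16 (F (T t112 (L l100 (L l266 (T t190 (L l289 (L l296 (T t191 N))))))))) N)))))))))))))))⟩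
def e0_63__70_104 : Ent 4 := ⟨[a0, a63], [a70, a109], (M a149 (F (T t5 (T t175 (T t176 (T t177 (K a192 (M a53 (F (T t178 (L l236 (L l398 (T t179 (L l77 (L l236 (L l296 (T t180 N)))))))))) (K a21 (M a48 (F (T t4 (T t13 (L l18 (L l398 (T t14 N))))))) (K a85 (M a16 (F (T t97 (L l144 (T t190 (L l94 (T t278 N))))))) (K a213 (Fr a106 a192 l519 (Fr a42 a21 l68 (Fr a170 a234 l390 (Fr a255 a85 l476 (V t582))))) (K a42 (M a48 (F (T t11 (L l390 (T t13 (L l54 (L l398 (T t14 N)))))))) (K a106 (M a48 (F (T t1 (L l398 (L l498 (T t14 (L l390 (L l498 (T t6 (L l390 (T t26 N))))))))))) (K a170 (M a48 (F (T t4 (L l462 (T t1 (L l390 (T t13 N))))))) (K a191 (M a240 (F (T t962 (L l315 (T t963 N))))) (K a255 (M a16 (F (T t112 (L l266 (T t190 (L l289 (L l296 (T t191 N)))))))) N)))))))))))))))⟩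
def e0_63__70_105 : Ent 4 := ⟨[a0, a63], [a70, a110], (M a149 (F (T t5 (T t175 (T t176 (L l102 (T t177 (K a192 (M a53 (F (T t178 (L l236 (T t179 (L l77 (L l236 (L l296 (T t180 N))))))))) (K a21 (M a48 (F (T t4 (L l102 (T t13 (L l18 (T t14 N))))))) (K a85 (M a16 (F (T t97 (L l102 (L l144 (T t190 (L l94 (T t278 N)))))))) (K a213 (Fr a106 a192 l519 (Fr a42 a21 l68 (Fr a170 a234 l390 (Fr a255 a85 l476 (V t582))))) (K a42 (M a48 (F (T t187 (L l102 (L l390 (T t13 (L l54 (T t14 N)))))))) (K a106 (M a102 (F (L l315 (L l396 (L l501 (T t1203 (L l77 (L l315 (L l390 (T t1202 (L l390 (L l396 (L l501 (T t1936 (L l315 (L l390 (L l501 (T t1205 (L l315 (L l333 (L l501 (T t1206 N)))))))))))))))))))))) (K a170 (M a48 (F (T t4 (L l462 (T t1 (L l102 (L l390 (T t13 N)))))))) (K a191 (M a16 (F (T t97 (L l102 (T t190 (L l213 (T t191 N))))))) (K a255 (M a16 (F (T t112 (L l102 (L l266 (T t190 (L l289 (L l296 (T t191 N)))))))))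 N))))))))))))))))⟩
def e0_63__70_106 : Ent 4 := ⟨[a0, a63], [a70, a111], (M a149 (F (T t5 (T t175 (T t176 (L l104 (T t177 (K a192 (M a53 (F (T t178 (L l77 (L l236 (L l296 (T t180 (L l236 (L l397 (T t179 N)))))))))) (K a21 (M a240 (F (L l315 (T t1090 (L l104 (T t1091 (L l315 (L l397 (T t1207 N))))))))) (K a85 (M a48 (F (T t1 (T t184 (L l104 (L l144 (T t13 N))))))) (K a213 (Fr a106 a192 l519 (Fr a42 a21 l68 (Fr a170 a234 l390 (Fr a255 a85 l476 (V t582))))) (K a42 (M a240 (F (L l315 (T t1090 (L l104 (L l390 (T t1091 (L l315 (L l397 (T t1207 N)))))))))) (K a106 (M a101 (F (L l498 (T t1212 (L l77 (L l390 (T t1208 (L l397 (L l498 (T t1209 (L l390 (L l397 (L l498 (T t1210 (L l390 (L l498 (T t1211 N))))))))))))))))) (K a170 (M a48 (F (T t184 (L l462 (T t1 (L l104 (L l390 (T t13 N)))))))) (K a191 (M a16 (F (T t97 (L l213 (T t1213 (L l213 (T t191 N))))))) (K a255 (M a16 (F (T t112 (L l289 (T t1213 (L l289 (L l296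 (T t191 N)))))))) N))))))))))))))))⟩
def e0_63__70_107 : Ent 4 := ⟨[a0, a63], [a70, a112], (M a149 (F (T t25 (T t175 (T t176 (L l116 (T t177 (K a192 (M a53 (F (T t178 (L l236 (T t179 (L l77 (L l236 (L l296 (T t180 N))))))))) (K a21 (M a240 (F (L l116 (T t962 (L l82 (T t1937 (L l114 (L l116 (L l315 (T t1207 N)))))))))) (K a85 (M a16 (F (T t97 (L l116 (L l144 (L l412 (T t190 (L l94 (L l151 (T t278 N)))))))))) (K a213 (Fr a106 a192 l519 (Fr a42 a21 l68 (Fr a170 a234 l390 (Fr a255 a85 l476 (V t582))))) (K a42 (M a240 (F (L l82 (T t1937 (L l28 (L l116 (L l390 (T t962 (L l114 (L l116 (L l315 (T t1207 N)))))))))))) (K a106 (M a48 (F (T t1 (L l498 (T t14 (L l114 (L l390 (L l498 (T t6 (L l390 (T t26 N))))))))))) (K a170 (M a48 (F (T t11 (L l462 (T t1 (L l116 (L l390 (L l404 (T t1938 N))))))))) (K a191 (M a240 (F (L l116 (T t962 (L l114 (L l315 (T t963 N))))))) (K a255 (M a16 (F (T t112 (L l116 (L l266 (L l412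 (T t190 (L l116 (L l289 (L l296 (T t191 N))))))))))) N))))))))))))))))⟩
def e0_63__70_108 : Ent 4 := ⟨[a0, a63], [a70, a113], (M a85 (F (T t88 (T t52 (T t89 (T t90 (K a64 (M a16 (F (T t97 (L l77 (L l84 (L l147 (T t96 (L l116 (T t98 N))))))))) (K a192 (M a16 (F (T t112 (L l77 (L l147 (T t96 (L l296 (T t98 N)))))))) (K a21 (M a48 (F (T t99 (L l111 (T t50 (L l47 (T t100 N))))))) (K a149 (M a16 (F (T t112 (L l77 (T t173 (L l170 (T t102 N))))))) (K a213 (Fr a170 a255 l476 (Fr a42 a21 l68 (Fr a106 a234 l390 (Fr a192 a149 l519 (V t581))))) (K a42 (M a48 (F (T t365 (L l111 (L l390 (T t50 (L l28 (T t100 N)))))))) (K a106 (M a48 (F (T t1 (L l77 (L l104 (L l147 (T t509 (L l111 (L l390 (T t50 N)))))))))) (K a170 (M a16 (F (L l404 (T t113 (L l390 (T t98 (L l390 (L l404 (T t97 (L l404 (T t174 N))))))))))) (K a255 (M a16 (F (T t112 (L l289 (T t113 (L l289 (L l296 (T t98 N)))))))) N)))))))))))))))⟩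
def e0_63__70_109 : Ent 4 := ⟨[a0, a63], [a70, a114], (M a149 (F (T t5 (T t175 (T t176 (T t177 (K a192 (M a53 (F (T t178 (L l236 (T t179 (L l77 (L l236 (L l296 (T t180 N))))))))) (K a21 (M a48 (F (T t4 (L l106 (L l417 (T t13 (L l18 (T t14 N)))))))) (K a85 (M a16 (F (T t97 (L l144 (L l417 (T t190 (L l94 (L l148 (T t278 N))))))))) (K a213 (Fr a106 a192 l519 (Fr a42 a21 l68 (Fr a170 a234 l390 (Fr a255 a85 l476 (V t582))))) (K a42 (M a48 (F (T t187 (L l106 (L l390 (L l417 (T t13 (L l54 (T t14 N))))))))) (K a106 (M a48 (F (T t1 (L l498 (T t14 (L l390 (L l498 (T t6 (L l390 (T t26 N)))))))))) (K a170 (M a48 (F (T t4 (L l462 (T t1 (L l106 (L l390 (L l417 (T t13 N))))))))) (K a191 (M a240 (F (T t962 (L l112 (L l315 (T t963 N)))))) (K a255 (M a16 (F (T t112 (L l266 (L l417 (T t190 (L l289 (L l296 (T t191 N))))))))) N)))))))))))))))⟩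
def e0_63__70_110 : Ent 4 := ⟨[a0, a63], [a70, a115], (M a149 (F (T t25 (T t175 (T t176 (L l120 (T t177 (K a192 (M a53 (F (T t178 (L l236 (T t179 (L l77 (L l236 (L l296 (T t180 N))))))))) (K a21 (M a48 (F (T t4 (L l106 (T t13 (L l18 (T t14 N))))))) (K a85 (M a16 (F (T t97 (L l144 (T t190 (L l94 (T t278 N))))))) (K a213 (Fr a106 a192 l519 (Fr a42 a21 l68 (Fr a170 a234 l390 (Fr a255 a85 l476 (V t582))))) (K a42 (M a48 (F (T t187 (L l106 (L l390 (T t13 (L l54 (T t14 N)))))))) (K a106 (M a48 (F (T t1 (L l498 (T t14 (L l390 (L l498 (T t6 (L l390 (T t26 N)))))))))) (K a170 (M a48 (F (T t4 (L l462 (T t1 (L l106 (L l390 (T t13 N)))))))) (K a191 (M a240 (F (T t962 (L l315 (T t963 N))))) (K a255 (M a16 (F (T t112 (L l266 (T t190 (L l289 (L l296 (T t191 N)))))))) N))))))))))))))))⟩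
def e0_63__70_111 : Ent 4 := ⟨[a0, a63], [a70, a116], (M a85 (F (T t88 (T t52 (T t89 (T t90 (K a64 (M a16 (F (T t97 (L l77 (L l84 (L l127 (T t96 (L l116 (T t98 N))))))))) (K a192 (M a16 (F (T t112 (L l77 (L l127 (T t96 (L l296 (T t98 N)))))))) (K a21 (M a48 (F (T t99 (L l107 (T t50 (L l47 (T t100 N))))))) (K a149 (M a16 (F (T t112 (L l77 (T t173 (L l170 (T t102 N))))))) (K a213 (Fr a170 a255 l476 (Fr a42 a21 l68 (Fr a106 a234 l390 (Fr a192 a149 l519 (V t581))))) (K a42 (M a48 (F (T t365 (L l107 (L l390 (T t50 (L l28 (T t100 N)))))))) (K a106 (M a48 (F (T t1 (L l77 (L l104 (L l127 (T t509 (L l107 (L l390 (T t50 N)))))))))) (K a170 (M a16 (F (L l404 (T t113 (L l390 (T t98 (L l390 (L l404 (T t97 (L l404 (T t174 N))))))))))) (K a255 (M a16 (F (T t112 (L l289 (T t113 (L l289 (L l296 (T t98 N)))))))) N)))))))))))))))⟩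
def e0_63__70_112 : Ent 4 := ⟨[a0, a63], [a70, a117], (M a85 (F (T t88 (L l114 (L l440 (T t52 (T t89 (T t90 (K a64 (M a204 (F (T t1575 (L l107 (L l315 (T t1576 N)))))) (K a192 (M a16 (F (T t112 (L l77 (T t96 (L l296 (T t98 N))))))) (K a21 (M a12 (F (T t1370 (L l15 (L l114 (L l422 (T t574 (L l114 (L l333 (T t124 N)))))))))) (K a149 (M a16 (F (T t112 (L l77 (L l491 (T t96 (L l170 (T t102 N)))))))) (K a213 (Fr a170 a255 l476 (Fr a42 a21 l68 (Fr a106 a234 l390 (Fr a192 a149 l519 (V t581))))) (K a42 (M a12 (F (L l440 (T t1373 (L l114 (L l333 (L l390 (T t124 (L l56 (L l114 (L l422 (T t574 N)))))))))))) (K a106 (M a12 (F (T t122 (L l132 (L l422 (T t123 (L l114 (L l333 (L l390 (T t124 N)))))))))) (K a170 (M a16 (F (L l390 (L l404 (T t97 (L l390 (T t98 (L l114 (L l404 (L l419 (T t113 (L l404 (T t174 N))))))))))))) (K a255 (M a48 (F (T t132 (L l114 (L l289 (L l419 (T t100 (L l289 (L l296 (T t568 (L l289 (L l296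 (T t1579 N))))))))))))) N)))))))))))))))))⟩
def e0_63__70_113 : Ent 4 := ⟨[a0, a63], [a70, a118], (M a149 (L l124 (F (T t5 (T t175 (T t176 (T t177 (K a192 (M a86 (F (L l112 (L l296 (T t619 (L l292 (L l438 (T t618 (L l292 (L l330 (T t621 (L l292 (L l296 (T t620 (L l296 (T t1939 N)))))))))))))))) (K a21 (M a48 (L l124 (F (T t4 (T t13 (L l18 (T t14 (K a86 (M a102 (F (T t4 (L l15 (L l315 (T t1203 N)))))) (K a102 (M a86 (F (T t4 (L l65 (L l438 (T t618 N)))))) N))))))))) (K a85 (M a23 (L l124 (F (L l441 (T t1940 (L l350 (T t1941 (L l144 (T t1942 (L l82 (L l438 (L l473 (T t1943 (K a86 (M a102 (L l87 (F (L l350 (T t1941 (L l142 (L l144 (L l423 (L l441 (T t1944 (K a84 (M a87 (F (L l350 (T t1945 (L l142 (L l144 (L l423 (T t1946 N)))))))) (K a87 (M a84 (F (L l350 (T t1941 (L l315 (L l365 (L l369 (T t1947 N)))))))) N)))))))))))) (K a102 (Fr a86 a212 l351 (V t1948)) N))))))))))))))) (K a213 (Fr a106 a192 l519 (Fr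 a42 a21 l68 (Fr a170 a234 l390 (Fr a255 a85 l476 (V t582))))) (K a42 (M a48 (L l124 (F (T t187 (L l390 (T t13 (L l54 (T t14 (K a86 (M a102 (F (T t11 (L l56 (L l315 (T t1203 N)))))) (K a102 (M a86 (F (T t11 (L l22 (L l438 (T t618 N)))))) N)))))))))) (K a106 (M a86 (F (L l112 (L l390 (T t619 (L l393 (L l438 (T t618 (L l390 (T t620 (L l330 (L l390 (L l393 (T t621 (L l330 (L l393 (L l441 (T t622 N)))))))))))))))))) (K a170 (M a86 (F (L l441 (T t1949 (L l390 (T t620 (L l112 (L l174 (L l390 (T t619 (L l330 (L l441 (T t622 N))))))))))))) (K a191 (M a86 (F (T t1950 (L l219 (T t620 (L l112 (T t619 N))))))) (K a255 (M a86 (F (T t1951 (L l296 (T t620 (L l112 (L l296 (L l475 (T t619 (L l330 (T t621 N))))))))))) (K a86 (M a102 (F (T t175 (L l315 (L l369 (T t1947 (L l315 (T t1203 N)))))))) (K a102 (M a86 (F (T t5 (L l405 (T t1951 (L l438 (T t618 N))))))) N))))))))))))))))))⟩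
def e0_63__70_114 : Ent 4 := ⟨[a0, a63], [a70, a119], (M a85 (F (T t88 (L l113 (L l439 (T t52 (T t89 (T t90 (K a64 (M a252 (F (T t93 (L l125 (T t92 N))))) (K a192 (M a16 (F (T t112 (L l77 (T t96 (L l296 (T t98 N))))))) (K a21 (M a48 (F (T t261 (L l47 (L l113 (T t100 (L l107 (L l113 (T t50 N))))))))) (K a149 (M a16 (F (T t112 (L l77 (T t173 (L l170 (T t102 N))))))) (K a213 (Fr a170 a255 l476 (Fr a42 a21 l68 (Fr a106 a234 l390 (Fr a192 a149 l519 (V t581))))) (K a42 (M a48 (F (L l439 (T t365 (L l107 (L l113 (L l390 (T t50 (L l28 (L l113 (T t100 N))))))))))) (K a106 (M a48 (F (T t1 (L l77 (L l104 (T t509 (L l107 (L l113 (L l390 (T t50 N)))))))))) (K a170 (M a16 (F (L l390 (L l404 (T t97 (L l390 (T t98 (L l113 (L l404 (T t113 (L l404 (T t174 N)))))))))))) (K a255 (M a51 (F (T t1355 (L l113 (L l290 (L l421 (T t945 (L l290 (L l296 (T t1952 (L l290 (L l296 (L l315 (L l333 (T t1953 N))))))))))))))) N)))))))))))))))))⟩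
def e0_63__70_115 : Ent 4 := ⟨[a0, a63], [a70, a120], (M a149 (F (T t5 (T t175 (T t176 (T t177 (K a192 (M a53 (F (T t178 (L l236 (T t179 (L l77 (L l236 (L l296 (T t180 N))))))))) (K a21 (M a48 (F (T t4 (L l110 (L l442 (T t13 (L l18 (T t14 N)))))))) (K a85 (M a16 (F (T t97 (L l144 (L l442 (T t190 (L l94 (L l133 (T t278 N))))))))) (K a213 (Fr a106 a192 l519 (Fr a42 a21 l68 (Fr a170 a234 l390 (Fr a255 a85 l476 (V t582))))) (K a42 (M a48 (F (T t187 (L l110 (L l390 (L l442 (T t13 (L l54 (T t14 N))))))))) (K a106 (M a48 (F (T t1 (L l498 (T t14 (L l390 (L l498 (T t6 (L l390 (T t26 N)))))))))) (K a170 (M a48 (F (T t4 (L l462 (T t1 (L l110 (L l390 (L l442 (T t13 N))))))))) (K a191 (M a240 (F (T t962 (L l108 (L l315 (T t963 N)))))) (K a255 (M a16 (F (T t112 (L l266 (L l442 (T t190 (L l289 (L l296 (T t191 N))))))))) N)))))))))))))))⟩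
def e0_63__70_116 : Ent 4 := ⟨[a0, a63], [a70, a121], (M a149 (F (T t5 (T t175 (T t176 (T t177 (K a192 (M a53 (F (T t178 (L l236 (T t179 (L l77 (L l236 (L l296 (L l443 (T t180 N)))))))))) (K a21 (M a48 (F (T t4 (T t13 (L l18 (T t14 N)))))) (K a85 (M a16 (F (T t97 (L l144 (T t190 (L l94 (T t278 N))))))) (K a213 (Fr a106 a192 l519 (Fr a42 a21 l68 (Fr a170 a234 l390 (Fr a255 a85 l476 (V t582))))) (K a42 (M a48 (F (T t187 (L l390 (T t13 (L l54 (T t14 N))))))) (K a106 (M a48 (F (T t1 (L l498 (T t14 (L l111 (L l390 (L l498 (T t6 (L l390 (T t26 N))))))))))) (K a170 (M a48 (F (T t4 (L l462 (T t1 (L l390 (T t13 N))))))) (K a191 (M a240 (F (T t962 (L l108 (L l315 (T t963 N)))))) (K a255 (M a16 (F (T t112 (L l266 (T t190 (L l289 (L l296 (T t191 N)))))))) N)))))))))))))))⟩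
def e0_63__70_117 : Ent 4 := ⟨[a0, a63], [a70, a122], (M a149 (F (T t5 (T t175 (T t176 (L l130 (T t177 (K a192 (M a53 (F (L l426 (T t178 (L l77 (L l236 (L l296 (T t180 (L l236 (L l426 (T t179 N))))))))))) (K a21 (M a48 (F (L l426 (T t4 (L l114 (L l130 (T t13 (L l18 (L l426 (T t14 N)))))))))) (K a85 (M a16 (F (T t97 (L l130 (L l144 (T t190 (L l94 (L l130 (T t278 N))))))))) (K a213 (Fr a106 a192 l519 (Fr a42 a21 l68 (Fr a170 a234 l390 (Fr a255 a85 l476 (V t582))))) (K a42 (M a48 (F (T t187 (L l114 (L l130 (L l390 (T t13 (L l54 (L l426 (T t14 N)))))))))) (K a106 (M a90 (F (L l390 (T t1073 (L l411 (L l426 (T t1040 (L l390 (L l411 (T t1954 (L l390 (L l411 (T t1074 (L l411 (T t1075 N))))))))))))))) (K a170 (M a48 (F (T t11 (L l462 (T t1 (L l114 (L l130 (L l390 (T t13 N))))))))) (K a191 (M a16 (F (T t97 (L l130 (T t190 (L l213 (T t191 N))))))) (K a255 (M a16 (F (L l469 (T t97 (L l130 (L l266 (T t190 (L l289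 (L l296 (T t191 N)))))))))) N))))))))))))))))⟩
def e0_63__70_118 : Ent 4 := ⟨[a0, a63], [a70, a123], (M a149 (F (T t5 (T t175 (T t176 (L l132 (T t177 (K a192 (M a53 (F (T t178 (L l236 (T t179 (L l77 (L l236 (L l296 (T t180 N))))))))) (K a21 (M a48 (F (T t4 (L l132 (T t13 (L l18 (T t14 N))))))) (K a85 (M a16 (F (T t97 (L l132 (L l144 (T t190 (L l94 (T t278 N)))))))) (K a213 (Fr a106 a192 l519 (Fr a42 a21 l68 (Fr a170 a234 l390 (Fr a255 a85 l476 (V t582))))) (K a42 (M a48 (F (T t187 (L l132 (L l390 (T t13 (L l54 (T t14 N)))))))) (K a106 (M a89 (F (L l390 (T t1955 (L l408 (L l427 (T t1956 (L l390 (L l408 (L l427 (T t1957 (L l390 (L l408 (T t1958 (L l408 (T t1959 N)))))))))))))))) (K a170 (M a48 (F (T t4 (L l462 (T t1 (L l132 (L l390 (T t13 N)))))))) (K a191 (M a16 (F (T t97 (L l132 (T t190 (L l213 (T t191 N))))))) (K a255 (M a16 (F (T t112 (L l132 (L l266 (T t190 (L l289 (L l296 (T t191 N))))))))) N))))))))))))))))⟩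
def e0_63__70_119 : Ent 4 := ⟨[a0, a63], [a70, a124], (M a149 (F (T t25 (T t175 (T t176 (L l140 (T t177 (K a192 (M a53 (F (T t178 (L l236 (T t179 (L l77 (L l236 (L l296 (T t180 N))))))))) (K a21 (M a48 (F (T t4 (L l110 (T t13 (L l18 (T t14 N))))))) (K a85 (M a16 (F (T t97 (L l144 (T t190 (L l94 (T t278 N))))))) (K a213 (Fr a106 a192 l519 (Fr a42 a21 l68 (Fr a170 a234 l390 (Fr a255 a85 l476 (V t582))))) (K a42 (M a48 (F (T t187 (L l110 (L l390 (T t13 (L l54 (T t14 N)))))))) (K a106 (M a48 (F (T t1 (L l498 (T t14 (L l390 (L l498 (T t6 (L l390 (T t26 N)))))))))) (K a170 (M a48 (F (T t4 (L l462 (T t1 (L l110 (L l390 (T t13 N)))))))) (K a191 (M a240 (F (T t962 (L l315 (T t963 N))))) (K a255 (M a16 (F (T t112 (L l266 (T t190 (L l289 (L l296 (T t191 N)))))))) N))))))))))))))))⟩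
def e0_63__70_120 : Ent 4 := ⟨[a0, a63], [a70, a125], (M a85 (F (T t88 (L l109 (L l434 (T t52 (T t89 (T t90 (K a64 (M a16 (F (T t97 (L l77 (L l84 (T t96 (L l116 (T t98 N)))))))) (K a192 (M a16 (F (T t112 (L l77 (T t96 (L l296 (T t98 N))))))) (K a21 (M a48 (F (T t261 (L l47 (L l109 (T t100 (L l109 (L l111 (T t50 N))))))))) (K a149 (M a16 (F (T t112 (L l77 (T t173 (L l170 (T t102 N))))))) (K a213 (Fr a170 a255 l476 (Fr a42 a21 l68 (Fr a106 a234 l390 (Fr a192 a149 l519 (V t581))))) (K a42 (M a48 (F (L l434 (T t365 (L l109 (L l111 (L l390 (T t50 (L l28 (L l109 (T t100 N))))))))))) (K a106 (M a48 (F (T t1 (L l77 (L l104 (T t509 (L l109 (L l111 (L l390 (T t50 N)))))))))) (K a170 (M a16 (F (L l390 (L l404 (T t97 (L l390 (T t98 (L l109 (L l404 (T t113 (L l404 (T t174 N)))))))))))) (K a255 (M a60 (F (T t522 (L l109 (L l295 (L l431 (T t523 (L l295 (L l296 (T t115 (L l295 (L l296 (T t524 N))))))))))))) N)))))))))))))))))⟩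
def e0_63__70_121 : Ent 4 := ⟨[a0, a63], [a70, a126], (M a149 (F (T t5 (T t175 (T t176 (L l142 (T t177 (K a192 (M a53 (F (T t178 (L l236 (T t179 (L l77 (L l236 (L l296 (T t180 N))))))))) (K a21 (M a48 (F (T t4 (L l142 (T t13 (L l18 (T t14 N))))))) (K a85 (M a16 (F (T t97 (L l142 (L l144 (T t190 (L l94 (T t278 N)))))))) (K a213 (Fr a106 a192 l519 (Fr a42 a21 l68 (Fr a170 a234 l390 (Fr a255 a85 l476 (V t582))))) (K a42 (M a48 (F (T t187 (L l142 (L l390 (T t13 (L l54 (T t14 N)))))))) (K a106 (M a86 (F (L l390 (T t620 (L l393 (L l432 (T t618 (L l390 (L l393 (T t1239 (L l330 (L l390 (L l393 (T t621 (L l330 (L l393 (T t622 N))))))))))))))))) (K a170 (M a48 (F (T t4 (L l462 (T t1 (L l142 (L l390 (T t13 N)))))))) (K a191 (M a16 (F (T t97 (L l142 (T t190 (L l213 (T t191 N))))))) (K a255 (M a16 (F (T t112 (L l142 (L l266 (T t190 (L l289 (L l296 (T t191 N))))))))) N))))))))))))))))⟩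
def e0_63__70_122 : Ent 4 := ⟨[a0, a63], [a70, a127], (M a48 (F (T t1 (T t2 (T t3 (T t0 (K a16 (M a60 (F (T t64 (L l14 (L l18 (L l333 (T t67 (T t65 N)))))))) (K a32 (M a60 (F (T t64 (L l333 (T t67 (L l24 (L l28 (T t65 N)))))))) (K a21 (M a192 (F (T t28 (L l47 (L l347 (T t20 (L l18 (L l144 (T t224 N))))))))) (K a37 (M a192 (F (T t19 (L l47 (T t20 (L l28 (L l144 (T t37 N)))))))) (K a53 (M a192 (F (T t19 (L l144 (T t37 (L l47 (L l137 (L l491 (T t525 N))))))))) (K a26 (M a192 (F (T t28 (T t20 (L l54 (L l144 (T t37 N))))))) (K a42 (M a192 (F (T t19 (T t20 (L l54 (L l144 (L l390 (T t224 N)))))))) (K a58 (M a192 (F (T t19 (L l54 (L l144 (L l498 (T t37 (L l137 (T t525 N))))))))) (K a15 (M a192 (F (T t56 (L l114 (L l483 (T t27 (L l144 (L l469 (T t37 N))))))))) N)))))))))))))))⟩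
def e0_63__70_123 : Ent 4 := ⟨[a0, a63], [a70, a128], (M a48 (F (T t1 (T t2 (T t3 (T t0 (K a16 (M a60 (F (T t64 (L l14 (L l18 (L l333 (T t67 (T t65 N)))))))) (K a32 (M a60 (F (T t64 (L l333 (T t67 (L l24 (L l28 (T t65 N)))))))) (K a21 (M a154 (F (T t526 (T t327 (L l47 (T t527 N)))))) (K a37 (M a52 (F (T t82 (T t83 (L l21 (L l28 (T t84 N))))))) (K a53 (M a12 (F (T t151 (T t443 (L l47 (T t146 N)))))) (K a26 (M a56 (F (T t133 (T t134 (L l12 (L l18 (T t135 N))))))) (K a42 (M a154 (F (T t493 (L l28 (T t327 (L l28 (T t527 N))))))) (K a58 (M a12 (F (T t443 (T t122 (T t146 N))))) (K a15 (M a4 (F (T t129 (L l63 (T t528 (T t520 N)))))) N)))))))))))))))⟩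
def e0_63__70_124 : Ent 4 := ⟨[a0, a63], [a70, a129], (M a149 (F (T t25 (L l152 (L l309 (T t175 (T t176 (T t177 (K a192 (M a3 (F (L l514 (T t353 (L l152 (L l292 (L l305 (T t615 (L l292 (L l296 (T t616 (L l292 (L l296 (L l330 (T t1244 N))))))))))))))) (K a21 (M a48 (F (T t16 (L l152 (T t13 (L l18 (L l152 (T t14 N)))))))) (K a85 (M a16 (F (T t97 (L l144 (T t190 (L l94 (T t278 N))))))) (K a213 (Fr a106 a192 l519 (Fr a42 a21 l68 (Fr a170 a234 l390 (Fr a255 a85 l476 (V t582))))) (K a42 (M a48 (F (L l54 (T t16 (L l152 (L l390 (T t13 (L l54 (L l152 (T t14 N)))))))))) (K a106 (M a48 (F (T t1 (L l152 (L l498 (T t14 (L l390 (L l498 (T t6 (L l390 (T t26 N))))))))))) (K a170 (M a48 (F (T t184 (L l462 (T t1 (L l152 (L l390 (T t13 N)))))))) (K a191 (M a240 (F (T t962 (L l157 (L l315 (T t963 N)))))) (K a255 (M a16 (F (T t112 (L l266 (T t190 (L l289 (L l296 (T t191 N)))))))) N)))))))))))))))))⟩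
def e0_63__70_125 : Ent 4 := ⟨[a0, a63], [a70, a130], (M a85 (F (T t88 (T t52 (T t89 (L l218 (T t90 (K a64 (M a16 (F (T t97 (L l77 (L l84 (T t96 (L l116 (T t98 N)))))))) (K a192 (M a16 (F (T t112 (L l77 (T t96 (L l296 (T t98 N))))))) (K a21 (M a48 (F (T t99 (L l218 (T t50 (L l47 (T t100 N))))))) (K a149 (M a16 (F (T t112 (L l77 (T t173 (L l170 (T t102 N))))))) (K a213 (Fr a170 a255 l476 (Fr a42 a21 l68 (Fr a106 a234 l390 (Fr a192 a149 l519 (V t581))))) (K a42 (M a48 (F (T t364 (L l218 (L l390 (T t50 (L l28 (T t100 N)))))))) (K a106 (M a48 (F (T t99 (T t1 (L l218 (L l390 (T t50 N))))))) (K a170 (M a150 (F (L l306 (L l392 (T t1960 (L l390 (T t1961 (L l390 (L l392 (T t1962 (L l390 (L l392 (T t1963 (L l392 (T t1964 N))))))))))))))) (K a255 (M a16 (F (T t112 (L l289 (T t113 (L l289 (L l296 (T t98 N)))))))) N))))))))))))))))⟩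
def e0_63__70_126 : Ent 4 := ⟨[a0, a63], [a70, a131], (M a85 (F (T t88 (T t52 (T t89 (L l219 (T t90 (K a64 (M a16 (F (T t97 (L l77 (L l84 (T t96 (L l116 (T t98 N)))))))) (K a192 (M a16 (F (T t112 (L l77 (T t96 (L l296 (T t98 N))))))) (K a21 (M a48 (F (T t99 (L l197 (T t50 (L l47 (T t100 N))))))) (K a149 (M a16 (F (T t112 (L l77 (T t173 (L l170 (T t102 N))))))) (K a213 (Fr a170 a255 l476 (Fr a42 a21 l68 (Fr a106 a234 l390 (Fr a192 a149 l519 (V t581))))) (K a42 (M a48 (F (T t364 (L l197 (L l390 (T t50 (L l28 (T t100 N)))))))) (K a106 (M a48 (F (T t1 (L l77 (L l104 (T t509 (L l197 (L l390 (T t50 N))))))))) (K a170 (M a16 (F (L l404 (T t113 (L l390 (T t98 (L l390 (L l404 (T t97 (L l404 (T t174 N))))))))))) (K a255 (M a16 (F (T t112 (L l289 (T t113 (L l289 (L l296 (T t98 N)))))))) N))))))))))))))))⟩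
def e0_63__70_127 : Ent 4 := ⟨[a0, a63], [a70, a132], (M a149 (F (T t25 (L l156 (L l334 (T t175 (T t176 (T t177 (K a192 (M a12 (F (T t1252 (L l156 (L l272 (L l310 (T t649 (L l272 (L l296 (T t960 (L l272 (L l296 (T t1253 N))))))))))))) (K a21 (M a48 (F (T t16 (L l156 (T t13 (L l18 (L l156 (T t14 N)))))))) (K a85 (M a16 (F (T t97 (L l144 (T t190 (L l94 (T t278 N))))))) (K a213 (Fr a106 a192 l519 (Fr a42 a21 l68 (Fr a170 a234 l390 (Fr a255 a85 l476 (V t582))))) (K a42 (M a48 (F (L l54 (T t16 (L l156 (L l390 (T t13 (L l54 (L l156 (T t14 N)))))))))) (K a106 (M a48 (F (T t1 (L l156 (L l498 (T t14 (L l390 (L l498 (T t6 (L l390 (T t26 N))))))))))) (K a170 (M a48 (F (T t184 (L l462 (T t1 (L l156 (L l390 (T t13 N)))))))) (K a191 (M a240 (F (T t962 (L l153 (L l315 (T t963 N)))))) (K a255 (M a16 (F (T t112 (L l266 (T t190 (L l289 (L l296 (T t191 N)))))))) N)))))))))))))))))⟩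
def e0_63__70_128 : Ent 4 := ⟨[a0, a63], [a70, a133], (M a149 (L l315 (F (T t25 (L l160 (L l339 (T t175 (T t176 (T t177 (K a192 (M a15 (L l315 (F (T t1254 (L l160 (L l268 (L l311 (T t1026 (L l268 (L l296 (T t1031 (L l268 (L l296 (T t1255 (K a196 (M a7 (L l232 (F (T t1254 (L l489 (T t1965 (L l310 (L l334 (T t1966 (K a200 (M a204 (F (T t1783 (L l77 (L l310 (L l489 (T t1967 N))))))) (K a204 (M a200 (L l333 (F (T t1968 (L l160 (L l268 (L l311 (T t1026 (K a137 (Fr a3 a11 l7 (V t1969)) (K a3 (M a137 (L l309 (F (L l268 (T t1970 (L l9 (L l312 (T t1971 (L l160 (L l268 (L l311 (T t1026 (K a129 (M a66 (F (L l268 (T t1970 (L l9 (L l312 (T t1971 (L l152 (L l160 (L l268 (L l311 (T t1026 N)))))))))))) (K a66 (M a129 (L l82 (F (T t1254 (L l298 (T t1972 (K a74 (M a78 (F (L l318 (T t1254 (L l76 (L l278 (L l296 (T t1881 (L l160 (L l268 (L l311 (T t1026 N)))))))))))) (K a78 (Fr a74 a11 l321 (V t1973)) N)))))))) N))))))))))))))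 N)))))))))) N))))))))))) (K a7 (M a196 (F (T t1783 (L l124 (L l296 (L l457 (T t1784 (L l1 (L l160 (L l268 (L l311 (T t1026 N)))))))))))) N)))))))))))))))) (K a21 (M a3 (L l315 (F (T t1049 (L l65 (L l160 (T t615 (L l85 (L l157 (L l160 (T t1883 (K a196 (M a7 (F (T t1974 (L l85 (L l157 (L l160 (T t1883 N))))))) (K a7 (M a196 (F (T t1787 (L l65 (L l160 (T t615 N)))))) N))))))))))))) (K a85 (M a196 (F (L l144 (T t1798 (L l124 (L l126 (L l458 (T t1788 (L l144 (L l458 (T t1789 (L l124 (L l126 (L l153 (T t1790 N))))))))))))))) (K a213 (Fr a106 a192 l519 (Fr a42 a21 l68 (Fr a170 a234 l390 (Fr a255 a85 l476 (V t582))))) (K a42 (M a3 (L l315 (F (L l22 (T t1265 (L l85 (L l157 (L l160 (L l390 (T t1883 (L l22 (L l160 (T t615 (K a196 (M a7 (F (L l22 (T t1975 (L l85 (L l157 (L l160 (L l390 (T t1883 N))))))))) (K a7 (M a196 (F (L l22 (T t1049 (L l390 (T t1787 (L l22 (L l160 (T t615 N))))))))) N))))))))))))))) (K a106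 (M a3 (L l315 (F (T t353 (L l160 (L l393 (T t615 (L l390 (L l393 (T t616 (L l157 (L l330 (L l390 (T t617 (K a196 (M a7 (F (L l310 (T t1976 (L l274 (L l278 (L l390 (L l393 (T t616 N))))))))) (K a7 (M a196 (F (L l49 (T t353 (L l1 (L l102 (L l124 (L l390 (L l501 (T t1788 (L l160 (L l393 (T t615 N))))))))))))) N)))))))))))))))) (K a170 (M a48 (L l315 (F (T t607 (L l339 (T t11 (L l160 (L l390 (T t13 (K a196 (M a7 (F (T t607 (L l229 (L l311 (T t184 (L l160 (L l390 (T t13 N))))))))) (K a7 (M a196 (F (T t607 (L l49 (L l390 (T t1798 (L l206 (L l311 (L l339 (T t15 N)))))))))) N))))))))))) (K a191 (M a196 (F (T t1798 (L l124 (T t1784 (T t1789 N)))))) (K a255 (M a196 (F (T t1787 (L l77 (L l124 (T t1796 (L l470 (T t1789 N)))))))) (K a196 (M a7 (F (T t177 (L l232 (L l278 (L l339 (T t5 (L l160 (L l232 (L l339 (T t175 (L l278 (T t176 (K a192 (M a15 (L l232 (F (T t1254 (L l489 (T t1965 (L l310 (L l334 (T t1966 (K a200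 (M a204 (F (T t1783 (L l77 (L l310 (L l489 (T t1967 N))))))) (K a204 (M a200 (L l333 (F (T t1968 (L l160 (L l268 (L l311 (T t1026 (K a137 (Fr a3 a11 l7 (V t1969)) (K a3 (M a137 (L l309 (F (L l268 (T t1970 (L l9 (L l312 (T t1971 (L l160 (L l268 (L l311 (T t1026 (K a129 (M a66 (F (L l268 (T t1970 (L l9 (L l312 (T t1971 (L l152 (L l160 (L l268 (L l311 (T t1026 N)))))))))))) (K a66 (M a129 (L l82 (F (T t1254 (L l298 (T t1972 (K a74 (M a78 (F (L l318 (T t1254 (L l76 (L l278 (L l296 (T t1881 (L l160 (L l268 (L l311 (T t1026 N)))))))))))) (K a78 (Fr a74 a11 l321 (V t1973)) N)))))))) N)))))))))))))) N)))))))))) N))))))))))) (K a21 (M a3 (F (T t1974 (L l85 (L l157 (L l160 (T t1883 N))))))) (K a85 (M a4 (F (T t1977 (L l312 (L l350 (L l490 (T t1978 N))))))) (K a213 (Fr a106 a192 l519 (Fr a42 a21 l68 (Fr a170 a234 l390 (Fr a255 a85 l476 (V t582))))) (K a42 (M a3 (F (L l22 (T t1975 (L l85 (L l157 (L l160 (L l390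 (T t1883 N))))))))) (K a106 (M a1 (F (L l310 (L l330 (T t1979 (L l278 (L l390 (T t1094 N)))))))) (K a170 (M a1 (F (L l330 (L l474 (T t1980 (L l278 (L l390 (T t1094 N)))))))) (K a191 (M a4 (F (T t1981 (L l312 (L l490 (T t1978 N)))))) (K a255 (M a4 (F (T t660 (L l312 (L l490 (T t1978 N)))))) N)))))))))))))))))))))) (K a7 (M a196 (F (T t25 (L l49 (T t1798 (L l1 (L l124 (T t1788 N)))))))) N))))))))))))))))))))⟩
def e0_63__70_129 : Ent 4 := ⟨[a0, a63], [a70, a134], (M a149 (L l312 (F (T t5 (T t175 (T t176 (T t177 (K a192 (M a53 (L l312 (F (T t178 (L l236 (T t179 (L l77 (L l236 (L l296 (L l314 (T t180 (K a6 (M a198 (F (T t939 (L l236 (T t179 (L l77 (L l236 (L l296 (L l314 (T t180 N)))))))))) (K a198 (M a6 (F (T t939 (L l229 (L l236 (T t179 (L l77 (L l229 (L l236 (L l296 (L l314 (T t180 N)))))))))))) N))))))))))))) (K a21 (M a12 (L l312 (F (T t958 (L l85 (L l153 (L l333 (T t648 (L l50 (L l314 (T t649 (K a6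 (M a198 (F (T t650 (L l1 (L l50 (L l314 (T t649 (L l85 (L l153 (L l333 (T t648 N))))))))))) (K a198 (M a6 (F (T t958 (L l65 (L l315 (L l333 (T t1982 N))))))) N))))))))))))) (K a85 (M a4 (L l312 (F (T t519 (L l144 (L l315 (L l333 (T t653 (L l124 (L l126 (L l153 (T t654 (K a6 (M a198 (F (T t519 (L l144 (L l315 (L l333 (T t653 (L l48 (L l124 (L l126 (L l153 (T t654 N)))))))))))) (K a198 (M a6 (F (T t1977 (L l315 (T t1983 N))))) N)))))))))))))) (K a213 (Fr a106 a192 l519 (Fr a42 a21 l68 (Fr a170 a234 l390 (Fr a255 a85 l476 (V t582))))) (K a42 (M a12 (L l312 (F (T t1984 (L l85 (L l153 (L l333 (L l390 (T t648 (L l26 (L l314 (T t649 (K a6 (M a198 (F (T t1984 (L l85 (L l153 (L l333 (L l390 (T t648 (L l1 (L l26 (L l314 (T t649 N)))))))))))) (K a198 (M a6 (F (T t1984 (L l56 (L l315 (L l333 (T t1982 N))))))) N)))))))))))))) (K a106 (M a12 (L l312 (F (T t122 (L l314 (L l408 (T t649 (L l390 (L l408 (T t960 (L l153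 (L l390 (T t961 (K a6 (M a198 (F (T t122 (L l1 (L l314 (L l408 (T t649 (L l153 (L l390 (T t961 (L l390 (L l408 (T t960 N))))))))))))) (K a198 (M a6 (F (T t122 (L l153 (L l276 (L l393 (T t1985 N))))))) N))))))))))))))) (K a170 (M a12 (L l312 (F (T t958 (L l402 (T t122 (L l85 (L l153 (L l333 (L l390 (T t648 (K a6 (M a198 (F (T t650 (L l402 (T t122 (L l85 (L l153 (L l333 (L l390 (T t648 N)))))))))) (K a198 (M a6 (F (T t958 (L l314 (L l330 (L l333 (L l474 (T t1986 N)))))))) N))))))))))))) (K a191 (M a240 (L l312 (F (T t962 (L l153 (L l315 (T t963 (K a6 (M a198 (F (T t962 (L l153 (L l315 (T t963 N)))))) (K a198 (M a6 (F (T t962 (L l153 (L l315 (T t963 N)))))) N))))))))) (K a255 (M a4 (L l312 (F (T t129 (L l290 (L l315 (L l333 (T t653 (L l77 (L l265 (L l296 (T t1070 (K a6 (M a198 (F (T t129 (L l290 (L l315 (L l333 (T t653 (L l77 (L l265 (L l296 (T t1070 N))))))))))) (K a198 (M a6 (F (L l336 (T t1987 (L l77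 (L l265 (L l296 (T t1070 N)))))))) N)))))))))))))) (K a6 (M a198 (F (T t5 (T t175 (T t176 (T t177 (K a192 (M a150 (F (L l48 (T t1765 (L l228 (L l296 (L l338 (T t1766 N)))))))) (K a21 (M a148 (F (T t1767 (L l48 (L l50 (T t1768 N)))))) (K a85 (M a196 (F (L l48 (T t1769 (L l85 (L l144 (T t1770 N))))))) (K a213 (Fr a106 a192 l519 (Fr a42 a21 l68 (Fr a170 a234 l390 (Fr a255 a85 l476 (V t582))))) (K a42 (M a196 (F (L l48 (T t1771 (L l85 (L l390 (T t1770 N))))))) (K a106 (M a150 (F (L l48 (T t1765 (L l338 (L l390 (T t1766 N))))))) (K a170 (M a196 (F (L l48 (T t1769 (L l85 (L l208 (L l390 (T t1770 N)))))))) (K a191 (M a240 (F (T t962 (L l153 (L l315 (T t963 N)))))) (K a255 (M a196 (F (L l48 (T t1771 (L l85 (T t1770 N)))))) N))))))))))))))) (K a198 (M a6 (F (T t5 (T t175 (T t176 (T t177 (K a192 (M a4 (F (L l336 (T t1987 (L l77 (L l296 (T t1070 N))))))) (K a21 (M a12 (F (T t958 (L l65 (L l315 (L l333 (T t1982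 N))))))) (K a85 (M a4 (F (T t1977 (L l315 (T t1983 N))))) (K a213 (Fr a106 a192 l519 (Fr a42 a21 l68 (Fr a170 a234 l390 (Fr a255 a85 l476 (V t582))))) (K a42 (M a12 (F (T t1984 (L l56 (L l315 (L l333 (T t1982 N))))))) (K a106 (M a4 (F (L l336 (T t1987 (L l77 (L l390 (T t1070 N))))))) (K a170 (M a4 (F (L l336 (L l464 (T t1987 (L l77 (L l390 (T t1070 N)))))))) (K a191 (M a240 (F (T t962 (L l153 (L l315 (T t963 N)))))) (K a255 (M a4 (F (L l336 (T t1987 (L l77 (L l265 (L l296 (T t1070 N)))))))) N))))))))))))))) N))))))))))))))))))⟩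
def e0_63__70_130 : Ent 4 := ⟨[a0, a63], [a70, a135], (M a149 (F (T t5 (T t175 (T t176 (T t177 (K a192 (M a53 (F (T t178 (L l236 (T t179 (L l77 (L l236 (L l296 (T t180 N))))))))) (K a21 (M a48 (F (T t4 (T t13 (L l18 (T t14 N)))))) (K a85 (M a16 (F (T t504 (L l144 (T t190 (L l94 (T t278 N))))))) (K a213 (Fr a106 a192 l519 (Fr a42 a21 l68 (Fr a170 a234 l390 (Fr a255 a85 l476 (V t582))))) (K a42 (M a48 (F (T t187 (L l390 (T t13 (L l54 (T t14 N))))))) (K a106 (M a48 (F (T t48 (L l498 (T t14 (L l390 (L l498 (T t6 (L l390 (T t26 N)))))))))) (K a170 (M a48 (F (T t4 (L l337 (L l462 (T t1 (L l390 (T t13 N)))))))) (K a191 (M a240 (F (T t962 (L l153 (L l315 (T t963 N)))))) (K a255 (M a16 (F (T t112 (L l266 (T t190 (L l289 (L l296 (T t191 N)))))))) N)))))))))))))))⟩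
def e0_63__70_131 : Ent 4 := ⟨[a0, a63], [a70, a136], (M a85 (F (T t88 (T t52 (T t89 (L l208 (T t90 (K a64 (M a16 (F (T t97 (L l77 (L l84 (T t96 (L l116 (T t98 N)))))))) (K a192 (M a16 (F (T t112 (L l77 (T t96 (L l296 (T t98 N))))))) (K a21 (M a48 (F (T t99 (L l208 (T t50 (L l47 (T t100 N))))))) (K a149 (M a16 (F (T t112 (L l77 (T t173 (L l170 (T t102 N))))))) (K a213 (Fr a170 a255 l476 (Fr a42 a21 l68 (Fr a106 a234 l390 (Fr a192 a149 l519 (V t581))))) (K a42 (M a48 (F (T t364 (L l208 (L l390 (T t50 (L l28 (T t100 N)))))))) (K a106 (M a48 (F (T t99 (T t1 (L l208 (L l390 (T t50 N))))))) (K a170 (M a153 (F (L l390 (T t1988 (L l316 (L l402 (T t1989 (L l124 (L l390 (L l402 (T t1990 (L l390 (L l402 (T t1991 (L l315 (L l333 (L l402 (T t1992 N)))))))))))))))))) (K a255 (M a16 (F (T t112 (L l289 (T t113 (L l289 (L l296 (T t98 N)))))))) N))))))))))))))))⟩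
def e0_63__70_132 : Ent 4 := ⟨[a0, a63], [a70, a137], (M a85 (L l333 (F (T t88 (T t52 (T t89 (T t90 (K a64 (M a204 (F (T t1575 (L l154 (L l315 (T t1576 N)))))) (K a192 (M a204 (F (L l334 (T t1575 (L l154 (L l296 (L l315 (T t1576 (L l154 (L l205 (L l315 (T t1712 N)))))))))))) (K a21 (M a204 (F (L l154 (T t1684 (T t1575 (L l154 (T t1691 N))))))) (K a149 (M a3 (F (T t137 (L l330 (T t354 (L l161 (L l220 (T t355 N)))))))) (K a213 (Fr a170 a255 l476 (Fr a42 a21 l68 (Fr a106 a234 l390 (Fr a192 a149 l519 (V t581))))) (K a42 (M a204 (F (L l154 (T t1684 (L l161 (L l390 (T t1744 (L l154 (T t1691 N))))))))) (K a106 (M a3 (F (T t353 (L l330 (T t354 (L l161 (L l390 (T t355 N)))))))) (K a170 (M a3 (F (L l392 (T t353 (L l330 (L l474 (T t376 (L l390 (T t377 (L l157 (L l330 (L l390 (L l474 (T t357 N)))))))))))))) (K a255 (M a3 (F (L l434 (T t353 (L l261 (L l330 (T t376 (L l296 (T t377 (L l157 (L l261 (L l296 (L l330 (T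 t357 N)))))))))))))) (K a204 (M a3 (F (T t89 (L l502 (T t137 (L l286 (L l330 (T t354 N)))))))) (K a3 (M a204 (F (T t89 (L l154 (L l205 (T t1993 (L l154 (T t1685 N)))))))) N))))))))))))))))))⟩
def e0_63__70_133 : Ent 4 := ⟨[a0, a63], [a70, a138], (M a48 (L l330 (F (T t2 (L l318 (T t1 (T t3 (T t0 (K a16 (M a149 (L l330 (F (T t4 (T t5 (L l77 (T t1994 (K a2 (M a206 (F (T t184 (L l66 (T t1245 (L l66 (L l77 (T t1994 N)))))))) (K a206 (M a2 (F (T t4 (L l18 (L l504 (T t824 N)))))) N))))))))) (K a32 (M a51 (L l330 (F (T t589 (T t1995 (L l318 (T t591 (K a2 (M a206 (F (T t589 (L l206 (T t1996 N))))) (K a206 (M a2 (F (T t1997 (L l504 (T t824 N))))) N))))))))) (K a21 (M a154 (L l330 (F (T t526 (L l77 (T t1998 (L l47 (L l318 (T t527 (K a2 (M a206 (F (T t1999 (L l47 (L l318 (T t2000 N)))))) (K a206 (M a2 (F (T t1119 (L l65 (T t339 N))))) N))))))))))) (K a37 (M a60 (L l330 (F (T t451 (L l28 (L l333 (T t43 (T t247 (K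 a2 (M a206 (F (T t880 (L l47 (L l383 (T t2001 N)))))) (K a206 (M a2 (F (T t2002 (L l25 (L l510 (T t339 N)))))) N)))))))))) (K a53 (M a2 (F (T t339 (L l47 (T t824 (L l47 (T t830 (L l35 (L l47 (T t831 N)))))))))) (K a26 (M a2 (F (T t342 (L l18 (T t824 (L l16 (L l18 (T t832 (T t833 N))))))))) (K a42 (M a154 (L l330 (F (T t1119 (L l28 (L l77 (T t1998 (L l28 (L l318 (T t527 (K a2 (M a206 (L l66 (F (T t1999 (L l28 (L l318 (T t2000 (K a22 (M a62 (F (T t1119 (L l11 (L l51 (L l56 (L l320 (T t188 N)))))))) (K a62 (M a22 (F (T t1999 (L l28 (L l318 (T t2000 N)))))) N))))))))) (K a206 (M a2 (F (T t1119 (T t339 N)))) N)))))))))))) (K a58 (M a2 (F (T t338 (T t342 (L l32 (L l36 (L l315 (T t834 (L l32 (T t831 N)))))))))) (K a15 (M a2 (F (T t338 (L l73 (T t339 (T t340 N)))))) (K a2 (M a206 (F (T t3 (L l6 (L l318 (T t1 (L l66 (T t2 (L l66 (T t0 (K a16 (M a50 (F (L l124 (T t2003 (L l66 (T t1433 N)))))) (K a32 (M a50 (F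 (L l124 (T t2003 (L l20 (L l28 (L l66 (T t1433 N)))))))) (K a21 (M a204 (F (T t1317 (L l66 (T t2004 N))))) (K a37 (M a204 (F (T t1315 (L l66 (T t2004 N))))) (K a53 (M a204 (F (T t1315 (L l66 (T t2004 N))))) (K a26 (M a204 (F (T t1317 (L l66 (T t2004 N))))) (K a42 (M a62 (F (T t602 (L l124 (L l306 (L l318 (T t2005 (T t2006 N)))))))) (K a58 (M a204 (F (T t1315 (L l36 (L l66 (T t2004 N)))))) (K a15 (M a204 (F (T t1686 (L l471 (T t1315 N))))) N))))))))))))))))))) (K a206 (M a2 (F (T t2 (L l510 (T t339 (L l504 (T t824 N))))))) N)))))))))))))))))))⟩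
def e0_63__70_134 : Ent 4 := ⟨[a0, a63], [a70, a139], (M a149 (F (T t5 (T t175 (T t176 (T t177 (K a192 (M a53 (F (T t178 (L l236 (T t179 (L l77 (L l236 (L l296 (T t180 N))))))))) (K a21 (M a48 (F (T t4 (T t13 (L l18 (T t14 N)))))) (K a85 (M a16 (F (T t97 (L l144 (T t190 (L l94 (T t278 N))))))) (K a213 (Fr a106 a192 l519 (Fr a42 a21 l68 (Fr a170 a234 l390 (Fr a255 a85 l476 (V t582))))) (K a42 (M a48 (F (T t187 (L l390 (T t13 (L l54 (T t14 N))))))) (K a106 (M a48 (F (T t1 (L l498 (T t14 (L l390 (L l498 (T t6 (L l390 (T t26 N)))))))))) (K a170 (M a48 (F (T t4 (L l462 (T t1 (L l390 (T t13 N))))))) (K a191 (M a240 (F (T t962 (L l315 (T t963 N))))) (K a255 (M a16 (F (T t112 (L l266 (T t190 (L l289 (L l296 (T t191 N)))))))) N)))))))))))))))⟩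
def e0_63__70_135 : Ent 4 := ⟨[a0, a63], [a70, a140], (M a85 (F (T t88 (T t52 (T t89 (L l214 (T t90 (K a64 (M a204 (F (L l214 (T t1575 (L l156 (L l315 (T t1576 N))))))) (K a192 (M a16 (F (T t112 (L l77 (T t96 (L l296 (T t98 N))))))) (K a21 (M a48 (F (T t99 (L l222 (T t50 (L l47 (T t100 N))))))) (K a149 (M a16 (F (T t112 (L l77 (T t173 (L l170 (T t102 N))))))) (K a213 (Fr a170 a255 l476 (Fr a42 a21 l68 (Fr a106 a234 l390 (Fr a192 a149 l519 (V t581))))) (K a42 (M a48 (F (T t364 (L l222 (L l390 (T t50 (L l28 (T t100 N)))))))) (K a106 (M a48 (F (T t1 (L l77 (L l104 (T t509 (L l222 (L l390 (T t50 N))))))))) (K a170 (M a16 (F (L l404 (T t113 (L l390 (T t98 (L l390 (L l404 (T t97 (L l404 (T t174 N))))))))))) (K a255 (M a16 (F (T t112 (L l289 (T t113 (L l289 (L l296 (T t98 N)))))))) N))))))))))))))))⟩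
def e0_63__70_136 : Ent 4 := ⟨[a0, a63], [a70, a141], (M a149 (F (T t5 (T t175 (T t176 (T t177 (K a192 (M a53 (F (T t178 (L l236 (T t179 (L l77 (L l236 (L l296 (T t180 N))))))))) (K a21 (M a48 (F (T t4 (T t13 (L l18 (T t14 N)))))) (K a85 (M a16 (F (T t504 (L l144 (T t190 (L l94 (T t278 N))))))) (K a213 (Fr a106 a192 l519 (Fr a42 a21 l68 (Fr a170 a234 l390 (Fr a255 a85 l476 (V t582))))) (K a42 (M a48 (F (T t187 (L l390 (T t13 (L l54 (T t14 N))))))) (K a106 (M a48 (F (T t48 (L l498 (T t14 (L l390 (L l498 (T t6 (L l390 (T t26 N)))))))))) (K a170 (M a48 (F (T t4 (L l327 (L l462 (T t1 (L l390 (T t13 N)))))))) (K a191 (M a240 (F (T t962 (L l157 (L l315 (T t963 N)))))) (K a255 (M a16 (F (T t112 (L l266 (T t190 (L l289 (L l296 (T t191 N)))))))) N)))))))))))))))⟩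
def e0_63__70_137 : Ent 4 := ⟨[a0, a63], [a70, a142], (M a149 (F (T t5 (T t175 (T t176 (T t177 (K a192 (M a53 (F (T t178 (L l236 (T t179 (L l77 (L l236 (L l296 (T t180 N))))))))) (K a21 (M a48 (F (T t4 (T t13 (L l18 (T t14 N)))))) (K a85 (M a16 (F (T t97 (L l144 (T t190 (L l94 (T t278 N))))))) (K a213 (Fr a106 a192 l519 (Fr a42 a21 l68 (Fr a170 a234 l390 (Fr a255 a85 l476 (V t582))))) (K a42 (M a48 (F (T t187 (L l390 (T t13 (L l54 (T t14 N))))))) (K a106 (M a48 (F (T t1 (L l498 (T t14 (L l390 (L l498 (T t6 (L l390 (T t26 N)))))))))) (K a170 (M a48 (F (T t4 (L l462 (T t1 (L l390 (T t13 N))))))) (K a191 (M a240 (F (T t962 (L l315 (T t963 N))))) (K a255 (M a16 (F (T t112 (L l266 (T t190 (L l289 (L l296 (T t191 N)))))))) N)))))))))))))))⟩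
def e0_63__70_138 : Ent 4 := ⟨[a0, a63], [a70, a143], (M a85 (F (T t88 (T t52 (T t89 (L l213 (T t90 (K a64 (M a16 (F (T t258 (T t112 (L l116 (L l213 (T t98 N))))))) (K a192 (M a16 (F (T t112 (L l77 (T t96 (L l213 (L l296 (T t98 N)))))))) (K a21 (M a48 (F (T t99 (L l47 (T t903 (L l47 (T t100 N))))))) (K a149 (M a16 (F (T t112 (L l77 (T t666 (L l170 (L l227 (T t102 N)))))))) (K a213 (Fr a170 a255 l476 (Fr a42 a21 l68 (Fr a106 a234 l390 (Fr a192 a149 l519 (V t581))))) (K a42 (M a48 (F (T t364 (L l390 (T t903 (L l28 (T t100 N))))))) (K a106 (M a48 (F (T t99 (T t48 (L l227 (L l390 (T t50 N))))))) (K a170 (M a16 (F (L l404 (T t113 (L l213 (L l390 (T t98 (L l325 (L l390 (L l404 (T t97 (L l325 (L l404 (T t174 N)))))))))))))) (K a255 (M a16 (F (T t112 (L l289 (T t113 (L l213 (L l289 (L l296 (T t98 N))))))))) N))))))))))))))))⟩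
def e0_63__70_139 : Ent 4 := ⟨[a0, a63], [a70, a144], (M a149 (F (T t25 (L l192 (L l484 (T t175 (T t176 (T t177 (K a192 (M a48 (F (T t132 (L l192 (L l236 (L l340 (T t14 (L l236 (L l296 (T t6 (L l236 (L l296 (T t2007 N))))))))))))) (K a21 (M a12 (F (T t647 (L l85 (L l192 (L l333 (T t648 (L l50 (L l192 (T t649 N)))))))))) (K a85 (M a4 (F (T t519 (L l144 (L l315 (L l333 (T t653 (L l124 (L l126 (T t654 N)))))))))) (K a213 (Fr a106 a192 l519 (Fr a42 a21 l68 (Fr a170 a234 l390 (Fr a255 a85 l476 (V t582))))) (K a42 (M a12 (F (L l26 (T t647 (L l85 (L l192 (L l333 (L l390 (T t648 (L l26 (L l192 (T t649 N)))))))))))) (K a106 (M a12 (F (T t122 (L l192 (L l408 (T t649 (L l390 (L l408 (T t960 (L l390 (T t961 N))))))))))) (K a170 (M a12 (F (T t650 (L l402 (T t122 (L l85 (L l192 (L l333 (L l390 (T t648 N)))))))))) (K a191 (M a240 (F (T t2008 (L l315 (T t2009 (L l192 (T t2010 N))))))) (K a255 (M a4 (F (T t129 (L l290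 (L l315 (L l333 (T t653 (L l77 (L l265 (L l296 (T t1070 N))))))))))) N)))))))))))))))))⟩
def e0_63__70_140 : Ent 4 := ⟨[a0, a63], [a70, a145], (M a149 (F (T t25 (L l196 (L l489 (T t175 (T t176 (T t177 (K a192 (M a51 (F (T t1355 (L l196 (L l232 (L l315 (L l341 (T t2011 (L l232 (L l296 (L l315 (T t2012 (L l232 (L l296 (L l333 (T t2013 N)))))))))))))))) (K a21 (M a48 (F (T t16 (L l162 (L l196 (T t13 (L l18 (L l196 (T t14 N))))))))) (K a85 (M a16 (F (T t97 (L l144 (L l345 (T t190 (L l94 (L l162 (T t278 N))))))))) (K a213 (Fr a106 a192 l519 (Fr a42 a21 l68 (Fr a170 a234 l390 (Fr a255 a85 l476 (V t582))))) (K a42 (M a48 (F (L l54 (T t16 (L l162 (L l196 (L l390 (T t13 (L l54 (L l196 (T t14 N))))))))))) (K a106 (M a48 (F (T t1 (L l196 (L l498 (T t14 (L l390 (L l498 (T t6 (L l162 (L l390 (T t26 N)))))))))))) (K a170 (M a48 (F (T t184 (L l462 (T t1 (L l162 (L l196 (L l390 (T t13 N))))))))) (K a191 (M a252 (F (T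 t940 (L l193 (T t941 N))))) (K a255 (M a16 (F (T t112 (L l266 (L l345 (T t190 (L l289 (L l296 (T t191 N))))))))) N)))))))))))))))))⟩
def e0_63__70_141 : Ent 4 := ⟨[a0, a63], [a70, a146], (M a85 (F (T t88 (T t52 (T t89 (T t90 (K a64 (M a16 (F (T t97 (L l77 (L l84 (T t96 (L l116 (T t98 N)))))))) (K a192 (M a16 (F (T t112 (L l77 (T t96 (L l296 (T t98 N))))))) (K a21 (M a48 (F (T t99 (L l197 (T t50 (L l47 (T t100 N))))))) (K a149 (M a16 (F (T t112 (L l77 (T t173 (L l168 (L l170 (T t102 N)))))))) (K a213 (Fr a170 a255 l476 (Fr a42 a21 l68 (Fr a106 a234 l390 (Fr a192 a149 l519 (V t581))))) (K a42 (M a48 (F (L l28 (T t99 (L l197 (L l390 (T t50 (L l28 (T t100 N))))))))) (K a106 (M a48 (F (T t1 (L l77 (L l104 (T t509 (L l197 (L l390 (T t50 N))))))))) (K a170 (M a16 (F (L l404 (T t113 (L l390 (T t98 (L l390 (L l404 (T t97 (L l404 (T t174 N))))))))))) (K a255 (M a16 (F (T t112 (L l289 (T t113 (L l289 (L l296 (T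 t98 N)))))))) N)))))))))))))))⟩
def e0_63__70_142 : Ent 4 := ⟨[a0, a63], [a70, a147], (M a149 (F (T t5 (T t175 (T t176 (T t177 (K a192 (M a53 (F (T t178 (L l236 (T t179 (L l77 (L l236 (L l296 (T t180 N))))))))) (K a21 (M a48 (F (T t4 (L l162 (T t13 (L l18 (T t14 N))))))) (K a85 (M a16 (F (T t97 (L l144 (T t190 (L l94 (L l162 (T t278 N)))))))) (K a213 (Fr a106 a192 l519 (Fr a42 a21 l68 (Fr a170 a234 l390 (Fr a255 a85 l476 (V t582))))) (K a42 (M a48 (F (T t187 (L l162 (L l390 (T t13 (L l54 (T t14 N)))))))) (K a106 (M a48 (F (T t1 (L l498 (T t14 (L l390 (L l498 (T t6 (L l162 (L l390 (T t26 N))))))))))) (K a170 (M a48 (F (T t4 (L l462 (T t1 (L l162 (L l390 (T t13 N)))))))) (K a191 (M a240 (F (T t962 (L l315 (T t963 N))))) (K a255 (M a16 (F (T t112 (L l266 (T t190 (L l169 (L l289 (L l296 (T t191 N))))))))) N)))))))))))))))⟩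
def e0_63__70_143 : Ent 4 := ⟨[a0, a63], [a70, a148], (M a149 (F (T t25 (L l216 (L l514 (T t175 (T t176 (T t177 (K a192 (M a60 (F (T t522 (L l216 (L l228 (L l346 (T t462 (L l228 (L l296 (T t1256 (L l228 (L l296 (T t1257 N))))))))))))) (K a21 (M a48 (F (T t16 (L l166 (L l216 (T t13 (L l18 (L l216 (T t14 N))))))))) (K a85 (M a16 (F (T t97 (L l144 (L l370 (T t190 (L l94 (L l166 (T t278 N))))))))) (K a213 (Fr a106 a192 l519 (Fr a42 a21 l68 (Fr a170 a234 l390 (Fr a255 a85 l476 (V t582))))) (K a42 (M a48 (F (L l54 (T t16 (L l166 (L l216 (L l390 (T t13 (L l54 (L l216 (T t14 N))))))))))) (K a106 (M a48 (F (T t1 (L l216 (L l498 (T t14 (L l390 (L l498 (T t6 (L l166 (L l390 (T t26 N)))))))))))) (K a170 (M a48 (F (T t184 (L l462 (T t1 (L l166 (L l216 (L l390 (T t13 N))))))))) (K a191 (M a16 (F (T t97 (L l370 (T t190 (L l213 (T t191 N))))))) (K a255 (M a16 (F (T t112 (L l266 (L l370 (T t190 (L l289 (L l296 (T t191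 N))))))))) N)))))))))))))))))⟩
def e0_63__70_144 : Ent 4 := ⟨[a0, a63], [a70, a149], (M a48 (F (T t2 (L l347 (L l491 (T t1 (L l347 (T t3 (L l375 (T t0 (K a16 (M a60 (F (T t70 (L l14 (L l18 (L l333 (L l347 (T t67 (L l351 (T t65 N)))))))))) (K a32 (M a60 (F (T t70 (L l333 (L l347 (T t67 (L l24 (L l28 (L l351 (T t65 N)))))))))) (K a21 (M a85 (F (T t99 (L l220 (T t50 (L l47 (L l170 (L l220 (L l491 (T t544 (L l47 (L l77 (L l491 (T t545 N)))))))))))))) (K a37 (M a52 (F (T t82 (L l495 (T t83 (L l21 (L l28 (T t84 N)))))))) (K a53 (M a12 (L l491 (F (T t151 (T t443 (L l47 (L l347 (L l371 (T t146 (K a197 (M a101 (F (T t151 (L l236 (L l330 (T t334 N)))))) (K a101 (M a197 (F (T t151 (T t445 (L l47 (L l347 (L l371 (T t146 N)))))))) N))))))))))) (K a26 (M a56 (F (T t133 (L l491 (T t134 (L l12 (L l18 (L l347 (L l491 (T t135 N)))))))))) (K a42 (M a255 (F (T t546 (L l330 (L l347 (T t547 (L l28 (L l220 (L l390 (L l491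 (T t548 N))))))))))) (K a58 (M a12 (F (T t443 (L l347 (L l371 (T t122 (L l347 (L l371 (T t146 N))))))))) (K a15 (M a4 (F (T t129 (L l63 (T t528 (T t520 N)))))) N)))))))))))))))))))⟩
def e0_63__70_145 : Ent 4 := ⟨[a0, a63], [a70, a150], (M a48 (F (T t1 (T t2 (T t3 (T t0 (K a16 (M a60 (F (T t64 (L l14 (L l18 (L l333 (L l350 (T t67 (T t65 N))))))))) (K a32 (M a60 (F (T t64 (L l333 (L l350 (T t67 (L l24 (L l28 (T t65 N))))))))) (K a21 (M a192 (F (T t837 (L l47 (L l163 (L l347 (T t20 (L l47 (L l163 (L l347 (T t29 N))))))))))) (K a37 (M a192 (F (T t19 (L l47 (L l163 (T t20 (L l163 (T t21 N)))))))) (K a53 (M a192 (F (T t19 (L l163 (L l491 (T t21 (L l516 (T t31 N)))))))) (K a26 (M a192 (F (T t27 (L l163 (T t20 (L l163 (T t21 N))))))) (K a42 (M a192 (F (T t19 (L l163 (T t20 (L l28 (L l163 (T t29 N)))))))) (K a58 (M a192 (F (T t19 (L l163 (T t21 (L l54 (L l498 (L l516 (T t31 N))))))))) (K a15 (M a192 (F (T t1922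 (L l163 (L l325 (T t20 (L l163 (L l469 (T t21 N))))))))) N)))))))))))))))⟩
def e0_63__70_146 : Ent 4 := ⟨[a0, a63], [a70, a151], (M a48 (F (T t1 (T t2 (T t3 (L l373 (T t0 (K a16 (M a60 (F (T t64 (L l14 (L l18 (L l333 (T t67 (L l349 (T t65 N))))))))) (K a32 (M a60 (F (T t64 (L l333 (T t67 (L l24 (L l28 (L l349 (T t65 N))))))))) (K a21 (M a192 (F (T t837 (L l47 (L l163 (L l347 (T t20 (L l47 (L l163 (L l347 (T t29 N))))))))))) (K a37 (M a192 (F (T t19 (L l47 (L l163 (T t20 (L l163 (T t21 N)))))))) (K a53 (M a192 (F (T t19 (L l163 (L l491 (T t21 (L l169 (T t31 N)))))))) (K a26 (M a192 (F (T t27 (L l163 (T t20 (L l163 (T t21 N))))))) (K a42 (M a192 (F (T t19 (L l163 (T t20 (L l28 (L l163 (T t29 N)))))))) (K a58 (M a192 (F (T t19 (L l163 (T t21 (L l54 (L l169 (L l498 (T t31 N))))))))) (K a15 (M a192 (F (T t1681 (L l483 (T t27 (L l163 (L l325 (T t20 N)))))))) N))))))))))))))))⟩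
def e0_63__70_147 : Ent 4 := ⟨[a0, a63], [a70, a152], (M a85 (F (T t88 (T t52 (T t89 (T t90 (K a64 (M a204 (F (T t1575 (L l204 (L l315 (T t1576 N)))))) (K a192 (M a16 (F (T t112 (L l77 (T t96 (L l296 (T t98 N))))))) (K a21 (M a48 (F (T t99 (L l222 (T t50 (L l47 (T t100 N))))))) (K a149 (M a16 (F (T t112 (L l77 (T t173 (L l164 (L l170 (T t102 N)))))))) (K a213 (Fr a170 a255 l476 (Fr a42 a21 l68 (Fr a106 a234 l390 (Fr a192 a149 l519 (V t581))))) (K a42 (M a48 (F (L l28 (T t99 (L l222 (L l390 (T t50 (L l28 (T t100 N))))))))) (K a106 (M a48 (F (T t1 (L l77 (L l104 (T t509 (L l222 (L l390 (T t50 N))))))))) (K a170 (M a16 (F (L l404 (T t113 (L l390 (T t98 (L l390 (L l404 (T t97 (L l404 (T t174 N))))))))))) (K a255 (M a16 (F (T t112 (L l289 (T t113 (L l289 (L l296 (T t98 N)))))))) N)))))))))))))))⟩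
def e0_63__70_148 : Ent 4 := ⟨[a0, a63], [a70, a153], (M a48 (F (T t1 (T t2 (T t3 (T t0 (K a16 (M a60 (F (T t277 (L l14 (L l18 (L l333 (T t67 (T t65 N)))))))) (K a32 (M a60 (F (T t277 (L l333 (T t67 (L l24 (L l28 (T t65 N)))))))) (K a21 (M a192 (F (T t837 (L l47 (L l167 (L l347 (T t20 (L l47 (L l167 (L l347 (T t29 N))))))))))) (K a37 (M a192 (F (T t19 (L l47 (L l167 (T t20 (L l167 (T t21 N)))))))) (K a53 (M a192 (F (T t19 (L l167 (L l491 (T t21 (L l501 (T t31 N)))))))) (K a26 (M a192 (F (T t27 (L l167 (T t20 (L l167 (T t21 N))))))) (K a42 (M a192 (F (T t19 (L l167 (T t20 (L l28 (L l167 (T t29 N)))))))) (K a58 (M a192 (F (T t19 (L l167 (T t21 (L l54 (L l498 (L l501 (T t31 N))))))))) (K a15 (M a192 (F (T t1922 (L l167 (L l325 (T t20 (L l167 (L l469 (T t21 N))))))))) N)))))))))))))))⟩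
def e0_63__70_149 : Ent 4 := ⟨[a0, a63], [a70, a154], (M a12 (F (T t122 (T t151 (T t152 (T t153 (K a4 (M a60 (F (T t398 (L l46 (L l50 (L l333 (T t67 (T t448 N)))))))) (K a8 (M a60 (F (T t398 (L l333 (T t67 (L l52 (L l56 (T t448 N)))))))) (K a21 (M a192 (F (T t1725 (L l15 (L l170 (L l347 (T t450 (L l15 (L l170 (L l347 (T t157 N))))))))))) (K a25 (M a192 (F (T t496 (L l15 (L l170 (T t450 (L l170 (T t21 N)))))))) (K a29 (M a192 (F (T t496 (L l170 (L l371 (T t21 (L l498 (T t160 N)))))))) (K a38 (M a192 (F (T t1725 (L l170 (T t450 (L l170 (T t21 N))))))) (K a42 (M a192 (F (T t496 (L l170 (T t450 (L l56 (L l170 (T t157 N)))))))) (K a46 (M a192 (F (T t1725 (L l170 (T t21 (L l26 (L l408 (L l498 (T t160 N))))))))) (K a51 (M a192 (F (T t1725 (L l170 (L l415 (T t450 (L l170 (L l439 (T t21 N))))))))) N)))))))))))))))⟩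
def e0_63__70_150 : Ent 4 := ⟨[a0, a63], [a70, a155], (M a149 (F (T t5 (T t175 (T t176 (T t177 (K a192 (M a53 (F (T t178 (L l236 (T t179 (L l77 (L l236 (L l296 (T t180 N))))))))) (K a21 (M a48 (F (T t4 (T t13 (L l18 (T t14 N)))))) (K a85 (M a16 (F (T t97 (L l144 (T t190 (L l94 (T t278 N))))))) (K a213 (Fr a106 a192 l519 (Fr a42 a21 l68 (Fr a170 a234 l390 (Fr a255 a85 l476 (V t582))))) (K a42 (M a48 (F (T t187 (L l390 (T t13 (L l54 (T t14 N))))))) (K a106 (M a48 (F (T t1 (L l498 (T t14 (L l390 (L l498 (T t6 (L l367 (L l390 (T t26 N))))))))))) (K a170 (M a48 (F (T t4 (L l462 (T t1 (L l390 (T t13 N))))))) (K a191 (M a240 (F (T t962 (L l315 (T t963 N))))) (K a255 (M a16 (F (T t112 (L l266 (T t190 (L l169 (L l289 (L l296 (L l367 (T t191 N)))))))))) N)))))))))))))))⟩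
def e0_63__70_151 : Ent 4 := ⟨[a0, a63], [a70, a156], (M a149 (F (T t5 (T t175 (T t176 (T t177 (K a192 (M a53 (F (T t178 (L l236 (T t179 (L l77 (L l236 (L l296 (T t180 N))))))))) (K a21 (M a48 (F (T t4 (L l166 (T t13 (L l18 (T t14 N))))))) (K a85 (M a16 (F (T t97 (L l144 (T t190 (L l94 (L l166 (T t278 N)))))))) (K a213 (Fr a106 a192 l519 (Fr a42 a21 l68 (Fr a170 a234 l390 (Fr a255 a85 l476 (V t582))))) (K a42 (M a48 (F (T t187 (L l166 (L l390 (T t13 (L l54 (T t14 N)))))))) (K a106 (M a48 (F (T t1 (L l498 (T t14 (L l390 (L l498 (T t6 (L l166 (L l390 (T t26 N))))))))))) (K a170 (M a48 (F (T t4 (L l462 (T t1 (L l166 (L l390 (T t13 N)))))))) (K a191 (M a240 (F (T t962 (L l315 (T t963 N))))) (K a255 (M a16 (F (T t112 (L l266 (T t190 (L l165 (L l289 (L l296 (T t191 N))))))))) N)))))))))))))))⟩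
def e0_63__70_152 : Ent 4 := ⟨[a0, a63], [a70, a157], (M a48 (F (T t1 (T t2 (T t3 (L l363 (T t0 (K a16 (M a60 (F (T t42 (L l14 (L l18 (L l333 (T t67 (T t65 N)))))))) (K a32 (M a60 (F (T t42 (L l333 (T t67 (L l24 (L l28 (T t65 N)))))))) (K a21 (M a192 (F (T t837 (L l47 (L l167 (L l347 (T t20 (L l47 (L l167 (L l347 (T t29 N))))))))))) (K a37 (M a192 (F (T t19 (L l47 (L l167 (T t20 (L l167 (T t21 N)))))))) (K a53 (M a192 (F (T t19 (L l167 (L l491 (T t21 (L l165 (T t31 N)))))))) (K a26 (M a192 (F (T t27 (L l167 (T t20 (L l167 (T t21 N))))))) (K a42 (M a192 (F (T t19 (L l167 (T t20 (L l28 (L l167 (T t29 N)))))))) (K a58 (M a192 (F (T t19 (L l167 (T t21 (L l54 (L l165 (L l498 (T t31 N))))))))) (K a15 (M a192 (F (T t1681 (L l483 (T t27 (L l167 (L l325 (T t20 N)))))))) N))))))))))))))))⟩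
def e0_63__70_153 : Ent 4 := ⟨[a0, a63], [a70, a158], (M a149 (F (T t5 (T t175 (T t176 (T t177 (K a192 (M a53 (F (T t178 (L l236 (T t179 (L l77 (L l236 (L l296 (T t180 N))))))))) (K a21 (M a48 (F (T t4 (T t13 (L l18 (T t14 N)))))) (K a85 (M a16 (F (T t97 (L l144 (T t190 (L l94 (T t278 N))))))) (K a213 (Fr a106 a192 l519 (Fr a42 a21 l68 (Fr a170 a234 l390 (Fr a255 a85 l476 (V t582))))) (K a42 (M a48 (F (T t187 (L l390 (T t13 (L l54 (T t14 N))))))) (K a106 (M a48 (F (T t1 (L l498 (T t14 (L l390 (L l498 (T t6 (L l362 (L l390 (T t26 N))))))))))) (K a170 (M a48 (F (T t4 (L l462 (T t1 (L l390 (T t13 N))))))) (K a191 (M a240 (F (T t962 (L l315 (T t963 N))))) (K a255 (M a16 (F (T t112 (L l266 (T t190 (L l165 (L l289 (L l296 (L l362 (T t191 N)))))))))) N)))))))))))))))⟩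
def e0_63__70_154 : Ent 4 := ⟨[a0, a63], [a70, a159], (M a48 (F (T t1 (T t2 (T t3 (L l361 (T t0 (K a16 (M a60 (F (T t64 (L l14 (L l18 (L l333 (T t67 (T t65 N)))))))) (K a32 (M a60 (F (T t64 (L l333 (T t67 (L l24 (L l28 (T t65 N)))))))) (K a21 (M a192 (F (T t837 (L l47 (L l170 (L l347 (T t20 (L l18 (T t224 N))))))))) (K a37 (M a192 (F (T t837 (L l47 (L l170 (T t20 (L l213 (T t202 N)))))))) (K a53 (M a192 (F (T t837 (L l213 (T t202 (L l47 (L l170 (L l491 (T t838 N))))))))) (K a26 (M a192 (F (T t837 (L l170 (T t20 (L l213 (T t202 N))))))) (K a42 (M a192 (F (T t837 (L l170 (T t20 (L l54 (L l390 (T t224 N)))))))) (K a58 (M a192 (F (T t837 (L l213 (L l498 (T t202 (L l170 (T t838 N)))))))) (K a15 (M a192 (F (T t1681 (L l483 (T t837 (L l170 (L l325 (T t20 N)))))))) N))))))))))))))))⟩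
def e0_63__70_155 : Ent 4 := ⟨[a0, a63], [a70, a160], (M a85 (F (T t88 (T t52 (T t89 (L l180 (T t90 (K a64 (M a16 (F (L l376 (T t97 (L l77 (L l84 (T t666 (L l116 (T t98 N))))))))) (K a192 (M a16 (F (L l376 (T t112 (L l77 (L l296 (T t666 (L l296 (T t98 N))))))))) (K a21 (M a48 (F (L l376 (T t99 (L l180 (L l192 (T t50 (L l47 (L l376 (T t100 N)))))))))) (K a149 (M a16 (F (L l376 (T t112 (L l77 (T t666 (L l170 (T t102 N)))))))) (K a213 (Fr a170 a255 l476 (Fr a42 a21 l68 (Fr a106 a234 l390 (Fr a192 a149 l519 (V t581))))) (K a42 (M a48 (F (T t364 (L l180 (L l192 (L l390 (T t50 (L l28 (L l376 (T t100 N)))))))))) (K a106 (M a48 (F (T t1 (L l77 (L l104 (L l376 (T t509 (L l180 (L l192 (L l390 (T t50 N))))))))))) (K a170 (M a165 (F (L l462 (T t2014 (L l77 (L l390 (T t2015 (L l376 (L l462 (T t2016 (L l315 (L l390 (L l462 (T t2017 (L l390 (L l462 (T t2018 N))))))))))))))))) (K a255 (M a16 (F (L l376 (T t112 (L l289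 (L l296 (T t98 (L l289 (L l376 (T t113 N)))))))))) N))))))))))))))))⟩
def e0_63__70_156 : Ent 4 := ⟨[a0, a63], [a70, a161], (M a85 (F (T t88 (T t52 (T t89 (T t90 (K a64 (M a240 (F (T t933 (L l172 (T t387 N))))) (K a192 (M a16 (F (T t260 (L l339 (T t97 (L l296 (T t98 N))))))) (K a21 (M a48 (F (T t99 (L l197 (L l453 (T t50 (L l47 (T t100 N)))))))) (K a149 (M a16 (F (T t112 (L l77 (T t173 (L l170 (T t102 N))))))) (K a213 (Fr a170 a255 l476 (Fr a42 a21 l68 (Fr a106 a234 l390 (Fr a192 a149 l519 (V t581))))) (K a42 (M a48 (F (T t364 (L l197 (L l390 (L l453 (T t50 (L l28 (T t100 N))))))))) (K a106 (M a48 (F (T t1 (L l77 (L l104 (T t509 (L l197 (L l390 (L l453 (T t50 N)))))))))) (K a170 (M a16 (F (L l404 (T t113 (L l390 (T t98 (L l390 (L l404 (T t97 (L l404 (T t174 N))))))))))) (K a255 (M a16 (F (T t112 (L l289 (T t113 (L l289 (L l296 (T t98 N)))))))) N)))))))))))))))⟩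
def e0_63__70_157 : Ent 4 := ⟨[a0, a63], [a70, a162], (M a85 (F (T t88 (T t52 (T t89 (L l178 (T t90 (K a64 (M a16 (F (L l380 (T t97 (L l77 (L l84 (T t666 (L l116 (T t98 N))))))))) (K a192 (M a16 (F (L l380 (T t112 (L l77 (L l296 (T t666 (L l296 (T t98 N))))))))) (K a21 (M a48 (F (L l380 (T t99 (L l178 (T t50 (L l47 (L l380 (T t100 N))))))))) (K a149 (M a16 (F (L l380 (T t112 (L l77 (T t666 (L l170 (T t102 N)))))))) (K a213 (Fr a170 a255 l476 (Fr a42 a21 l68 (Fr a106 a234 l390 (Fr a192 a149 l519 (V t581))))) (K a42 (M a48 (F (T t364 (L l178 (L l390 (T t50 (L l28 (L l380 (T t100 N))))))))) (K a106 (M a48 (F (T t1 (L l77 (L l104 (L l380 (T t509 (L l178 (L l390 (T t50 N)))))))))) (K a170 (M a166 (F (L l378 (L l464 (T t2019 (L l77 (L l390 (T t2020 (L l390 (L l464 (T t2021 (L l390 (L l464 (T t2022 (L l464 (T t2023 N)))))))))))))))) (K a255 (M a16 (F (L l380 (T t112 (L l289 (L l296 (T t98 (L l289 (L l380 (T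 t113 N)))))))))) N))))))))))))))))⟩
def e0_63__70_158 : Ent 4 := ⟨[a0, a63], [a70, a163], (M a85 (F (T t88 (T t52 (T t89 (T t90 (K a64 (M a240 (F (T t386 (L l172 (T t387 N))))) (K a192 (M a16 (F (T t260 (L l339 (T t97 (L l296 (T t98 N))))))) (K a21 (M a48 (F (T t99 (T t50 (L l47 (T t100 N)))))) (K a149 (M a16 (F (T t112 (L l77 (T t173 (L l170 (T t102 N))))))) (K a213 (Fr a170 a255 l476 (Fr a42 a21 l68 (Fr a106 a234 l390 (Fr a192 a149 l519 (V t581))))) (K a42 (M a48 (F (T t364 (L l390 (T t50 (L l28 (T t100 N))))))) (K a106 (M a48 (F (T t1 (L l77 (L l104 (T t509 (L l390 (T t50 N)))))))) (K a170 (M a16 (F (L l404 (T t113 (L l390 (T t98 (L l390 (L l404 (T t97 (L l404 (T t174 N))))))))))) (K a255 (M a16 (F (T t112 (L l289 (T t113 (L l289 (L l296 (T t98 N)))))))) N)))))))))))))))⟩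
def e0_63__70_159 : Ent 4 := ⟨[a0, a63], [a70, a164], (M a85 (F (T t88 (T t52 (T t89 (T t90 (K a64 (M a240 (F (T t933 (L l176 (T t387 N))))) (K a192 (M a16 (F (T t260 (L l339 (T t97 (L l296 (T t98 N))))))) (K a21 (M a48 (F (T t99 (L l222 (L l478 (T t50 (L l47 (T t100 N)))))))) (K a149 (M a16 (F (T t112 (L l77 (T t173 (L l170 (T t102 N))))))) (K a213 (Fr a170 a255 l476 (Fr a42 a21 l68 (Fr a106 a234 l390 (Fr a192 a149 l519 (V t581))))) (K a42 (M a48 (F (T t364 (L l222 (L l390 (L l478 (T t50 (L l28 (T t100 N))))))))) (K a106 (M a48 (F (T t1 (L l77 (L l104 (T t509 (L l222 (L l390 (L l478 (T t50 N)))))))))) (K a170 (M a16 (F (L l404 (T t113 (L l390 (T t98 (L l390 (L l404 (T t97 (L l404 (T t174 N))))))))))) (K a255 (M a16 (F (T t112 (L l289 (T t113 (L l289 (L l296 (T t98 N)))))))) N)))))))))))))))⟩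
def e0_63__70_160 : Ent 4 := ⟨[a0, a63], [a70, a165], (M a12 (F (T t122 (T t151 (T t152 (T t153 (K a4 (M a60 (F (T t835 (L l46 (L l50 (L l333 (T t67 (T t448 N)))))))) (K a8 (M a60 (F (T t835 (L l333 (T t67 (L l52 (L l56 (T t448 N)))))))) (K a21 (M a192 (F (T t1725 (L l15 (L l199 (L l347 (T t450 (L l15 (L l199 (L l347 (T t157 N))))))))))) (K a25 (M a192 (F (T t496 (L l15 (L l199 (T t450 (L l199 (T t21 N)))))))) (K a29 (M a192 (F (T t496 (L l199 (L l371 (T t21 (L l411 (T t160 N)))))))) (K a38 (M a192 (F (T t1725 (L l199 (T t450 (L l199 (T t21 N))))))) (K a42 (M a192 (F (T t496 (L l199 (T t450 (L l56 (L l199 (T t157 N)))))))) (K a46 (M a192 (F (T t1725 (L l199 (T t21 (L l26 (L l408 (L l411 (T t160 N))))))))) (K a51 (M a192 (F (T t1725 (L l199 (L l415 (T t450 (L l199 (L l439 (T t21 N))))))))) N)))))))))))))))⟩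
def e0_63__70_161 : Ent 4 := ⟨[a0, a63], [a70, a166], (M a48 (F (T t1 (T t2 (T t3 (T t0 (K a16 (M a60 (F (T t64 (L l14 (L l18 (L l333 (T t67 (T t65 N)))))))) (K a32 (M a60 (F (T t64 (L l333 (T t67 (L l24 (L l28 (T t65 N)))))))) (K a21 (M a192 (F (T t837 (L l47 (L l202 (L l347 (T t20 (L l47 (L l202 (L l347 (T t29 N))))))))))) (K a37 (M a192 (F (T t19 (L l47 (L l202 (T t20 (L l202 (T t21 N)))))))) (K a53 (M a192 (F (T t19 (L l202 (L l491 (T t21 (L l408 (T t31 N)))))))) (K a26 (M a192 (F (T t27 (L l202 (T t20 (L l202 (T t21 N))))))) (K a42 (M a192 (F (T t19 (L l202 (T t20 (L l28 (L l202 (T t29 N)))))))) (K a58 (M a192 (F (T t19 (L l202 (T t21 (L l54 (L l408 (L l498 (T t31 N))))))))) (K a15 (M a192 (F (T t1922 (L l202 (L l325 (T t20 (L l202 (L l469 (T t21 N))))))))) N)))))))))))))))⟩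
def e0_63__70_162 : Ent 4 := ⟨[a0, a63], [a70, a167], (M a85 (F (T t88 (T t52 (T t89 (T t90 (K a64 (M a16 (F (T t258 (L l481 (T t97 (L l116 (T t98 N))))))) (K a192 (M a16 (F (T t260 (L l339 (L l481 (T t97 (L l296 (T t98 N)))))))) (K a21 (M a48 (F (T t99 (T t50 (L l47 (T t100 N)))))) (K a149 (M a16 (F (T t112 (L l77 (T t173 (L l170 (T t102 N))))))) (K a213 (Fr a170 a255 l476 (Fr a42 a21 l68 (Fr a106 a234 l390 (Fr a192 a149 l519 (V t581))))) (K a42 (M a48 (F (T t364 (L l390 (T t50 (L l28 (T t100 N))))))) (K a106 (M a48 (F (T t99 (L l481 (T t1 (L l390 (T t50 N))))))) (K a170 (M a16 (F (L l404 (T t113 (L l390 (T t98 (L l390 (L l404 (L l481 (T t97 (L l404 (T t174 N)))))))))))) (K a255 (M a16 (F (T t112 (L l289 (T t113 (L l289 (L l296 (T t98 N)))))))) N)))))))))))))))⟩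
def e0_63__70_163 : Ent 4 := ⟨[a0, a63], [a70, a168], (M a85 (F (T t88 (T t52 (T t89 (L l174 (T t90 (K a64 (M a16 (F (L l400 (T t97 (L l77 (L l84 (T t666 (L l116 (T t98 N))))))))) (K a192 (M a16 (F (L l400 (T t112 (L l77 (L l296 (T t666 (L l296 (T t98 N))))))))) (K a21 (M a48 (F (L l400 (T t99 (L l174 (T t50 (L l47 (L l400 (T t100 N))))))))) (K a149 (M a16 (F (L l400 (T t112 (L l77 (T t666 (L l170 (T t102 N)))))))) (K a213 (Fr a170 a255 l476 (Fr a42 a21 l68 (Fr a106 a234 l390 (Fr a192 a149 l519 (V t581))))) (K a42 (M a48 (F (T t364 (L l174 (L l390 (T t50 (L l28 (L l400 (T t100 N))))))))) (K a106 (M a48 (F (T t1 (L l77 (L l104 (L l400 (T t509 (L l174 (L l390 (T t50 N)))))))))) (K a170 (M a169 (F (L l390 (T t2024 (L l330 (L l388 (L l474 (T t2025 (L l124 (L l390 (L l474 (T t2026 (L l330 (L l390 (L l474 (T t2027 (L l330 (L l474 (T t2028 N))))))))))))))))))) (K a255 (M a16 (F (L l400 (T t112 (L l289 (L l296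 (T t98 (L l289 (L l400 (T t113 N)))))))))) N))))))))))))))))⟩
def e0_63__70_164 : Ent 4 := ⟨[a0, a63], [a70, a169], (M a48 (F (T t1 (T t2 (T t3 (T t0 (K a16 (M a60 (F (T t64 (L l14 (L l18 (L l333 (L l393 (L l477 (T t67 (T t65 N)))))))))) (K a32 (M a60 (F (T t64 (L l333 (L l393 (L l477 (T t67 (L l24 (L l28 (T t65 N)))))))))) (K a21 (M a192 (F (T t837 (L l47 (L l217 (L l347 (T t20 (L l47 (L l217 (L l347 (T t29 N))))))))))) (K a37 (M a192 (F (T t19 (L l47 (L l217 (T t20 (L l217 (T t21 N)))))))) (K a53 (M a192 (F (T t19 (L l217 (L l491 (T t21 (L l393 (T t31 N)))))))) (K a26 (M a192 (F (T t27 (L l217 (T t20 (L l217 (T t21 N))))))) (K a42 (M a192 (F (T t19 (L l217 (T t20 (L l28 (L l217 (T t29 N)))))))) (K a58 (M a192 (F (T t19 (L l217 (T t21 (L l54 (L l393 (L l498 (T t31 N))))))))) (K a15 (M a192 (F (T t1922 (L l217 (L l325 (T t20 (L l217 (L l469 (T t21 N))))))))) N)))))))))))))))⟩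
def e0_63__70_165 : Ent 4 := ⟨[a0, a63], [a70, a170], (M a48 (F (T t3 (L l462 (T t1 (L l390 (T t2 (L l390 (L l404 (T t0 (K a16 (M a60 (F (T t64 (L l14 (L l18 (L l333 (T t67 (L l390 (L l392 (T t65 N)))))))))) (K a32 (M a60 (L l404 (F (T t64 (L l333 (T t67 (L l24 (L l28 (L l390 (L l392 (T t65 (K a101 (M a239 (F (T t451 (L l28 (L l333 (L l390 (T t69 (L l24 (L l28 (L l390 (L l392 (T t65 N)))))))))))) (K a239 (M a101 (F (T t116 (L l376 (T t313 N))))) N))))))))))))) (K a21 (M a192 (F (T t837 (L l390 (T t206 (L l47 (L l220 (L l347 (L l404 (T t29 N)))))))))) (K a37 (M a192 (F (T t19 (L l390 (T t206 (L l28 (L l47 (L l220 (L l404 (T t29 N)))))))))) (K a53 (M a12 (F (T t550 (L l47 (L l402 (T t122 (L l47 (L l402 (T t146 N))))))))) (K a26 (M a192 (F (T t837 (L l54 (L l390 (T t206 (L l220 (L l404 (T t29 N))))))))) (K a42 (M a106 (F (T t309 (L l220 (T t551 (L l28 (L l206 (L l220 (L l404 (T t552 (L l28 (L l77 (L l206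 (L l404 (T t553 N))))))))))))))) (K a58 (M a12 (F (T t445 (L l402 (T t122 (L l402 (T t146 N))))))) (K a15 (M a192 (F (L l483 (T t19 (L l325 (L l390 (T t206 (L l220 (L l404 (T t29 N)))))))))) N)))))))))))))))))))⟩
def e0_63__70_166 : Ent 4 := ⟨[a0, a63], [a70, a171], (M a48 (F (T t1 (T t2 (T t3 (T t0 (K a16 (M a60 (F (T t64 (L l14 (L l18 (L l333 (L l391 (L l475 (T t67 (T t65 N)))))))))) (K a32 (M a60 (F (T t64 (L l333 (L l391 (L l475 (T t67 (L l24 (L l28 (T t65 N)))))))))) (K a21 (M a192 (F (T t837 (L l47 (L l347 (T t20 (L l47 (L l347 (T t29 N))))))))) (K a37 (M a192 (F (T t19 (L l47 (T t20 (L l475 (T t21 N))))))) (K a53 (M a192 (F (T t19 (L l475 (L l491 (T t21 (T t31 N))))))) (K a26 (M a192 (F (T t837 (T t20 (L l475 (T t21 N)))))) (K a42 (M a192 (F (T t19 (T t20 (L l28 (T t29 N)))))) (K a58 (M a192 (F (T t19 (L l475 (T t21 (L l54 (L l498 (T t31 N)))))))) (K a15 (M a192 (F (T t1681 (L l483 (T t27 (L l325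 (T t20 N))))))) N)))))))))))))))⟩
def e0_63__70_167 : Ent 4 := ⟨[a0, a63], [a70, a172], (M a85 (F (T t88 (T t52 (T t89 (T t90 (K a64 (M a240 (F (T t386 (L l176 (T t387 N))))) (K a192 (M a16 (F (T t260 (L l339 (T t97 (L l296 (T t98 N))))))) (K a21 (M a48 (F (T t99 (T t50 (L l47 (T t100 N)))))) (K a149 (M a16 (F (T t112 (L l77 (T t173 (L l170 (T t102 N))))))) (K a213 (Fr a170 a255 l476 (Fr a42 a21 l68 (Fr a106 a234 l390 (Fr a192 a149 l519 (V t581))))) (K a42 (M a48 (F (T t364 (L l390 (T t50 (L l28 (T t100 N))))))) (K a106 (M a48 (F (T t1 (L l77 (L l104 (T t509 (L l390 (T t50 N)))))))) (K a170 (M a16 (F (L l404 (T t113 (L l390 (T t98 (L l390 (L l404 (T t97 (L l404 (T t174 N))))))))))) (K a255 (M a16 (F (T t112 (L l289 (T t113 (L l289 (L l296 (T t98 N)))))))) N)))))))))))))))⟩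
def e0_63__70_168 : Ent 4 := ⟨[a0, a63], [a70, a173], (M a85 (F (T t88 (T t52 (T t89 (T t90 (K a64 (M a16 (F (T t258 (L l471 (T t97 (L l116 (T t98 N))))))) (K a192 (M a16 (F (T t260 (L l339 (L l471 (T t97 (L l296 (T t98 N)))))))) (K a21 (M a48 (F (T t99 (T t50 (L l47 (T t100 N)))))) (K a149 (M a16 (F (T t112 (L l77 (T t173 (L l170 (T t102 N))))))) (K a213 (Fr a170 a255 l476 (Fr a42 a21 l68 (Fr a106 a234 l390 (Fr a192 a149 l519 (V t581))))) (K a42 (M a48 (F (T t364 (L l390 (T t50 (L l28 (T t100 N))))))) (K a106 (M a48 (F (T t99 (L l471 (T t1 (L l390 (T t50 N))))))) (K a170 (M a16 (F (L l404 (T t113 (L l390 (T t98 (L l390 (L l404 (L l471 (T t97 (L l404 (T t174 N)))))))))))) (K a255 (M a16 (F (T t112 (L l289 (T t113 (L l289 (L l296 (T t98 N)))))))) N)))))))))))))))⟩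
def e0_63__70_169 : Ent 4 := ⟨[a0, a63], [a70, a174], (M a48 (F (T t1 (T t2 (T t3 (T t0 (K a16 (M a60 (F (T t64 (L l14 (L l18 (L l333 (T t67 (T t65 N)))))))) (K a32 (M a60 (F (T t64 (L l333 (T t67 (L l24 (L l28 (T t65 N)))))))) (K a21 (M a192 (F (T t837 (L l47 (L l347 (T t20 (L l47 (L l347 (T t29 N))))))))) (K a37 (M a192 (F (T t19 (L l47 (T t20 (L l470 (T t21 N))))))) (K a53 (M a192 (F (T t19 (L l470 (L l491 (T t21 (T t31 N))))))) (K a26 (M a192 (F (T t837 (T t20 (L l470 (T t21 N)))))) (K a42 (M a192 (F (T t19 (T t20 (L l28 (T t29 N)))))) (K a58 (M a192 (F (T t19 (L l470 (T t21 (L l54 (L l498 (T t31 N)))))))) (K a15 (M a192 (F (T t1681 (L l483 (T t27 (L l325 (T t20 N))))))) N)))))))))))))))⟩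
def e0_63__70_170 : Ent 4 := ⟨[a0, a63], [a70, a175], (M a12 (F (T t122 (T t151 (T t152 (T t153 (K a4 (M a60 (F (T t570 (L l46 (L l50 (L l333 (T t67 (T t448 N)))))))) (K a8 (M a60 (F (T t570 (L l333 (T t67 (L l52 (L l56 (T t448 N)))))))) (K a21 (M a192 (F (T t221 (L l85 (L l333 (T t156 (L l15 (L l347 (T t157 N))))))))) (K a25 (M a192 (F (T t467 (L l85 (L l333 (T t156 (L l469 (T t21 N)))))))) (K a29 (M a192 (F (T t496 (L l371 (L l469 (T t21 (T t160 N))))))) (K a38 (M a192 (F (T t450 (L l85 (L l333 (T t156 (L l469 (T t21 N)))))))) (K a42 (M a192 (F (T t450 (L l85 (L l333 (T t156 (L l56 (T t157 N)))))))) (K a46 (M a192 (F (T t57 (L l85 (L l333 (T t156 (L l26 (L l408 (T t160 N))))))))) (K a51 (M a192 (F (T t57 (L l85 (L l333 (L l513 (T t156 (L l415 (T t450 N))))))))) N)))))))))))))))⟩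
def e0_63__70_171 : Ent 4 := ⟨[a0, a63], [a70, a176], (M a85 (F (T t88 (T t52 (T t89 (L l190 (T t90 (K a64 (M a240 (F (L l190 (T t933 (L l192 (T t387 N)))))) (K a192 (M a16 (F (T t504 (L l77 (T t96 (L l296 (T t98 N))))))) (K a21 (M a240 (F (T t1552 (L l190 (T t933 (L l82 (L l190 (L l192 (T t1385 N))))))))) (K a149 (M a16 (F (T t112 (L l77 (T t173 (L l170 (L l227 (T t102 N)))))))) (K a213 (Fr a170 a255 l476 (Fr a42 a21 l68 (Fr a106 a234 l390 (Fr a192 a149 l519 (V t581))))) (K a42 (M a240 (F (T t1552 (L l54 (L l190 (L l390 (T t933 (L l82 (L l190 (L l192 (T t1385 N))))))))))) (K a106 (M a48 (F (T t1 (L l77 (L l104 (T t509 (L l190 (L l390 (L l498 (T t2029 N)))))))))) (K a170 (M a16 (F (L l404 (T t113 (L l390 (T t98 (L l390 (L l404 (T t97 (L l404 (T t174 N))))))))))) (K a255 (M a16 (F (T t112 (L l289 (T t113 (L l289 (L l296 (T t98 N)))))))) N))))))))))))))))⟩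
def e0_63__70_172 : Ent 4 := ⟨[a0, a63], [a70, a177], (M a149 (F (T t5 (T t175 (T t176 (T t177 (K a192 (M a53 (F (T t178 (L l236 (T t179 (L l77 (L l187 (L l236 (L l296 (T t180 N)))))))))) (K a21 (M a48 (F (T t4 (L l417 (T t13 (L l18 (T t14 N))))))) (K a85 (M a16 (F (T t97 (L l144 (L l417 (T t190 (L l94 (T t278 N)))))))) (K a213 (Fr a106 a192 l519 (Fr a42 a21 l68 (Fr a170 a234 l390 (Fr a255 a85 l476 (V t582))))) (K a42 (M a48 (F (T t187 (L l390 (L l417 (T t13 (L l54 (T t14 N)))))))) (K a106 (M a48 (F (T t1 (L l498 (T t14 (L l390 (L l498 (T t6 (L l390 (T t26 N)))))))))) (K a170 (M a48 (F (T t4 (L l462 (T t1 (L l390 (L l417 (T t13 N)))))))) (K a191 (M a240 (F (T t1091 (L l315 (T t963 N))))) (K a255 (M a16 (F (T t112 (L l266 (L l417 (T t190 (L l289 (L l296 (T t191 N))))))))) N)))))))))))))))⟩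
def e0_63__70_173 : Ent 4 := ⟨[a0, a63], [a70, a178], (M a85 (F (T t88 (T t52 (T t89 (T t90 (K a64 (M a16 (F (T t97 (L l77 (L l84 (T t96 (L l116 (T t98 N)))))))) (K a192 (M a16 (F (T t112 (L l77 (T t96 (L l296 (T t98 N))))))) (K a21 (M a48 (F (T t360 (L l182 (T t50 (L l47 (T t100 N))))))) (K a149 (M a16 (F (T t112 (L l77 (T t173 (L l170 (L l224 (T t102 N)))))))) (K a213 (Fr a170 a255 l476 (Fr a42 a21 l68 (Fr a106 a234 l390 (Fr a192 a149 l519 (V t581))))) (K a42 (M a48 (F (T t364 (L l182 (L l390 (T t50 (L l28 (T t100 N)))))))) (K a106 (M a48 (F (T t1 (L l77 (L l104 (T t509 (L l182 (L l390 (T t50 N))))))))) (K a170 (M a16 (F (L l404 (T t113 (L l390 (T t98 (L l390 (L l404 (T t97 (L l404 (T t174 N))))))))))) (K a255 (M a16 (F (T t112 (L l289 (T t113 (L l289 (L l296 (T t98 N)))))))) N)))))))))))))))⟩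
def e0_63__70_174 : Ent 4 := ⟨[a0, a63], [a70, a179], (M a85 (F (T t88 (T t52 (T t89 (L l189 (T t90 (K a64 (M a16 (F (T t97 (L l77 (L l84 (T t96 (L l116 (T t98 N)))))))) (K a192 (M a16 (F (T t112 (L l77 (T t96 (L l296 (T t98 N))))))) (K a21 (M a48 (F (T t99 (L l182 (T t50 (L l47 (T t100 N))))))) (K a149 (M a16 (F (T t112 (L l77 (T t173 (L l170 (T t102 N))))))) (K a213 (Fr a170 a255 l476 (Fr a42 a21 l68 (Fr a106 a234 l390 (Fr a192 a149 l519 (V t581))))) (K a42 (M a48 (F (T t364 (L l182 (L l390 (T t50 (L l28 (T t100 N)))))))) (K a106 (M a48 (F (T t1 (L l77 (L l104 (T t509 (L l182 (L l390 (T t50 N))))))))) (K a170 (M a16 (F (L l404 (T t113 (L l390 (T t98 (L l390 (L l404 (T t97 (L l404 (T t174 N))))))))))) (K a255 (M a16 (F (T t112 (L l289 (T t113 (L l289 (L l296 (T t98 N)))))))) N))))))))))))))))⟩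
def e0_63__70_175 : Ent 4 := ⟨[a0, a63], [a70, a180], (M a149 (F (T t5 (T t175 (T t176 (T t177 (K a192 (M a53 (F (T t178 (L l236 (T t179 (L l77 (L l183 (L l236 (L l296 (T t180 N)))))))))) (K a21 (M a48 (F (T t4 (L l442 (T t13 (L l18 (T t14 N))))))) (K a85 (M a16 (F (T t97 (L l144 (L l442 (T t190 (L l94 (T t278 N)))))))) (K a213 (Fr a106 a192 l519 (Fr a42 a21 l68 (Fr a170 a234 l390 (Fr a255 a85 l476 (V t582))))) (K a42 (M a48 (F (T t187 (L l390 (L l442 (T t13 (L l54 (T t14 N)))))))) (K a106 (M a48 (F (T t1 (L l498 (T t14 (L l390 (L l498 (T t6 (L l390 (T t26 N)))))))))) (K a170 (M a48 (F (T t4 (L l462 (T t1 (L l390 (L l442 (T t13 N)))))))) (K a191 (M a240 (F (T t1091 (L l315 (T t963 N))))) (K a255 (M a16 (F (T t112 (L l266 (L l442 (T t190 (L l289 (L l296 (T t191 N))))))))) N)))))))))))))))⟩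
def e0_63__70_176 : Ent 4 := ⟨[a0, a63], [a70, a181], (M a12 (F (T t122 (T t151 (T t152 (L l423 (T t153 (K a4 (M a60 (F (T t408 (L l46 (L l50 (L l333 (T t67 (T t448 N)))))))) (K a8 (M a60 (F (T t408 (L l333 (T t67 (L l52 (L l56 (T t448 N)))))))) (K a21 (M a192 (F (T t221 (L l85 (L l333 (T t156 (L l15 (L l199 (L l347 (T t157 N)))))))))) (K a25 (M a192 (F (T t221 (L l85 (L l333 (T t156 (L l199 (T t21 N)))))))) (K a29 (M a192 (F (T t37 (L l85 (L l333 (T t156 (L l183 (T t160 N)))))))) (K a38 (M a192 (F (T t1725 (L l199 (T t450 (L l199 (T t21 N))))))) (K a42 (M a192 (F (T t496 (L l199 (T t450 (L l56 (L l199 (T t157 N)))))))) (K a46 (M a192 (F (T t1725 (L l199 (T t21 (L l26 (L l183 (L l408 (T t160 N))))))))) (K a51 (M a192 (F (T t1681 (L l85 (L l333 (L l513 (T t156 (L l199 (L l415 (T t450 N)))))))))) N))))))))))))))))⟩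
def e0_63__70_177 : Ent 4 := ⟨[a0, a63], [a70, a182], (M a149 (F (T t5 (T t175 (T t176 (T t177 (K a192 (M a53 (F (T t178 (L l236 (T t179 (L l77 (L l183 (L l236 (L l296 (T t180 N)))))))))) (K a21 (M a48 (F (T t4 (T t13 (L l18 (T t14 N)))))) (K a85 (M a16 (F (T t97 (L l144 (T t190 (L l94 (T t278 N))))))) (K a213 (Fr a106 a192 l519 (Fr a42 a21 l68 (Fr a170 a234 l390 (Fr a255 a85 l476 (V t582))))) (K a42 (M a48 (F (T t187 (L l390 (T t13 (L l54 (T t14 N))))))) (K a106 (M a48 (F (T t1 (L l498 (T t14 (L l390 (L l422 (L l498 (T t6 (L l390 (T t26 N))))))))))) (K a170 (M a48 (F (T t4 (L l462 (T t1 (L l390 (T t13 N))))))) (K a191 (M a240 (F (T t962 (L l315 (L l444 (T t963 N)))))) (K a255 (M a16 (F (T t112 (L l266 (T t190 (L l289 (L l296 (T t191 N)))))))) N)))))))))))))))⟩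
def e0_63__70_178 : Ent 4 := ⟨[a0, a63], [a70, a183], (M a48 (F (T t1 (T t2 (T t3 (T t0 (K a16 (M a60 (F (T t64 (L l14 (L l18 (L l333 (T t67 (T t65 N)))))))) (K a32 (M a60 (F (T t64 (L l333 (T t67 (L l24 (L l28 (T t65 N)))))))) (K a21 (M a192 (F (T t837 (L l47 (L l202 (L l347 (T t20 (L l47 (L l202 (L l347 (T t29 N))))))))))) (K a37 (M a192 (F (T t19 (L l47 (L l202 (T t20 (L l202 (T t21 N)))))))) (K a53 (M a192 (F (T t19 (L l202 (L l491 (T t21 (T t31 N))))))) (K a26 (M a192 (F (T t837 (L l202 (T t20 (L l202 (T t21 N))))))) (K a42 (M a192 (F (T t19 (L l202 (T t20 (L l28 (L l202 (T t29 N)))))))) (K a58 (M a192 (F (T t19 (L l202 (T t21 (L l54 (L l498 (T t31 N)))))))) (K a15 (M a192 (F (T t1681 (L l483 (T t27 (L l202 (L l325 (T t20 N)))))))) N)))))))))))))))⟩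
def e0_63__70_179 : Ent 4 := ⟨[a0, a63], [a70, a184], (M a85 (F (T t88 (T t52 (T t89 (T t90 (K a64 (M a252 (F (T t93 (L l204 (T t92 N))))) (K a192 (M a16 (F (T t112 (L l77 (T t96 (L l296 (T t98 N))))))) (K a21 (M a48 (F (T t360 (L l186 (T t50 (L l47 (T t100 N))))))) (K a149 (M a16 (F (T t112 (L l77 (T t173 (L l170 (L l209 (T t102 N)))))))) (K a213 (Fr a170 a255 l476 (Fr a42 a21 l68 (Fr a106 a234 l390 (Fr a192 a149 l519 (V t581))))) (K a42 (M a48 (F (T t364 (L l186 (L l390 (T t50 (L l28 (T t100 N)))))))) (K a106 (M a48 (F (T t1 (L l77 (L l104 (T t509 (L l186 (L l390 (T t50 N))))))))) (K a170 (M a16 (F (L l404 (T t113 (L l390 (T t98 (L l390 (L l404 (T t97 (L l404 (T t174 N))))))))))) (K a255 (M a16 (F (T t112 (L l289 (T t113 (L l289 (L l296 (T t98 N)))))))) N)))))))))))))))⟩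
def e0_63__70_180 : Ent 4 := ⟨[a0, a63], [a70, a185], (M a149 (F (T t5 (T t175 (T t176 (T t177 (K a192 (M a53 (F (T t178 (L l236 (T t179 (L l77 (L l187 (L l236 (L l296 (T t180 N)))))))))) (K a21 (M a48 (F (T t4 (T t13 (L l18 (T t14 N)))))) (K a85 (M a16 (F (T t97 (L l144 (T t190 (L l94 (T t278 N))))))) (K a213 (Fr a106 a192 l519 (Fr a42 a21 l68 (Fr a170 a234 l390 (Fr a255 a85 l476 (V t582))))) (K a42 (M a48 (F (T t187 (L l390 (T t13 (L l54 (T t14 N))))))) (K a106 (M a48 (F (T t1 (L l498 (T t14 (L l390 (L l437 (L l498 (T t6 (L l390 (T t26 N))))))))))) (K a170 (M a48 (F (T t4 (L l462 (T t1 (L l390 (T t13 N))))))) (K a191 (M a240 (F (T t962 (L l315 (L l429 (T t963 N)))))) (K a255 (M a16 (F (T t112 (L l266 (T t190 (L l289 (L l296 (T t191 N)))))))) N)))))))))))))))⟩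
def e0_63__70_181 : Ent 4 := ⟨[a0, a63], [a70, a186], (M a12 (F (T t122 (T t151 (T t152 (T t153 (K a4 (M a60 (F (T t398 (L l46 (L l50 (L l333 (T t67 (T t448 N)))))))) (K a8 (M a60 (F (T t398 (L l333 (T t67 (L l52 (L l56 (T t448 N)))))))) (K a21 (M a192 (F (T t221 (L l85 (L l333 (T t156 (L l15 (L l347 (T t157 N))))))))) (K a25 (M a192 (F (T t467 (L l85 (L l333 (T t156 (L l440 (T t21 N)))))))) (K a29 (M a192 (F (T t496 (L l371 (L l440 (T t21 (T t160 N))))))) (K a38 (M a192 (F (T t450 (L l85 (L l333 (T t156 (L l440 (T t21 N)))))))) (K a42 (M a192 (F (T t450 (L l85 (L l333 (T t156 (L l56 (T t157 N)))))))) (K a46 (M a192 (F (T t57 (L l85 (L l333 (T t156 (L l26 (L l408 (T t160 N))))))))) (K a51 (M a192 (F (T t57 (L l85 (L l333 (L l513 (T t156 (L l415 (T t450 N))))))))) N)))))))))))))))⟩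
def e0_63__70_182 : Ent 4 := ⟨[a0, a63], [a70, a187], (M a48 (F (T t1 (T t2 (T t3 (T t0 (K a16 (M a60 (F (T t138 (L l14 (L l18 (L l333 (T t67 (T t65 N)))))))) (K a32 (M a60 (F (T t138 (L l333 (T t67 (L l24 (L l28 (T t65 N)))))))) (K a21 (M a192 (F (T t837 (L l47 (L l347 (T t20 (L l47 (L l347 (T t29 N))))))))) (K a37 (M a192 (F (T t19 (L l47 (T t20 (L l439 (T t21 N))))))) (K a53 (M a192 (F (T t19 (L l439 (L l491 (T t21 (T t31 N))))))) (K a26 (M a192 (F (T t837 (T t20 (L l439 (T t21 N)))))) (K a42 (M a192 (F (T t19 (T t20 (L l28 (T t29 N)))))) (K a58 (M a192 (F (T t19 (L l439 (T t21 (L l54 (L l498 (T t31 N)))))))) (K a15 (M a192 (F (T t1681 (L l483 (T t27 (L l325 (T t20 N))))))) N)))))))))))))))⟩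
def e0_63__70_183 : Ent 4 := ⟨[a0, a63], [a70, a188], (M a85 (F (T t88 (T t52 (T t89 (L l185 (T t90 (K a64 (M a252 (F (L l185 (T t93 (L l216 (T t92 N)))))) (K a192 (M a16 (F (T t112 (L l77 (T t96 (L l296 (T t98 N))))))) (K a21 (M a48 (F (T t99 (L l186 (T t50 (L l47 (T t100 N))))))) (K a149 (M a16 (F (T t112 (L l77 (T t173 (L l170 (T t102 N))))))) (K a213 (Fr a170 a255 l476 (Fr a42 a21 l68 (Fr a106 a234 l390 (Fr a192 a149 l519 (V t581))))) (K a42 (M a48 (F (T t364 (L l186 (L l390 (T t50 (L l28 (T t100 N)))))))) (K a106 (M a48 (F (T t1 (L l77 (L l104 (T t509 (L l186 (L l390 (T t50 N))))))))) (K a170 (M a16 (F (L l404 (T t113 (L l390 (T t98 (L l390 (L l404 (T t97 (L l404 (T t174 N))))))))))) (K a255 (M a16 (F (T t112 (L l289 (T t113 (L l289 (L l296 (T t98 N)))))))) N))))))))))))))))⟩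
def e0_63__70_184 : Ent 4 := ⟨[a0, a63], [a70, a189], (M a48 (F (T t1 (T t2 (T t3 (T t0 (K a16 (M a60 (F (T t42 (L l14 (L l18 (L l333 (T t67 (T t65 N)))))))) (K a32 (M a60 (F (T t42 (L l333 (T t67 (L l24 (L l28 (T t65 N)))))))) (K a21 (M a192 (F (T t837 (L l47 (L l217 (L l347 (T t20 (L l47 (L l217 (L l347 (T t29 N))))))))))) (K a37 (M a192 (F (T t19 (L l47 (L l217 (T t20 (L l217 (T t21 N)))))))) (K a53 (M a192 (F (T t19 (L l217 (L l491 (T t21 (T t31 N))))))) (K a26 (M a192 (F (T t837 (L l217 (T t20 (L l217 (T t21 N))))))) (K a42 (M a192 (F (T t19 (L l217 (T t20 (L l28 (L l217 (T t29 N)))))))) (K a58 (M a192 (F (T t19 (L l217 (T t21 (L l54 (L l498 (T t31 N)))))))) (K a15 (M a192 (F (T t1681 (L l483 (T t27 (L l217 (L l325 (T t20 N)))))))) N)))))))))))))))⟩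
def e0_63__70_185 : Ent 4 := ⟨[a0, a63], [a70, a190], (M a48 (F (T t1 (T t2 (T t3 (T t0 (K a16 (M a60 (F (T t64 (L l14 (L l18 (L l333 (T t67 (T t65 N)))))))) (K a32 (M a60 (F (T t64 (L l333 (T t67 (L l24 (L l28 (T t65 N)))))))) (K a21 (M a192 (F (T t837 (L l47 (L l347 (T t20 (L l47 (L l347 (T t29 N))))))))) (K a37 (M a192 (F (T t19 (L l47 (T t20 (L l434 (T t21 N))))))) (K a53 (M a192 (F (T t19 (L l434 (L l491 (T t21 (T t31 N))))))) (K a26 (M a192 (F (T t837 (T t20 (L l434 (T t21 N)))))) (K a42 (M a192 (F (T t19 (T t20 (L l28 (T t29 N)))))) (K a58 (M a192 (F (T t19 (L l434 (T t21 (L l54 (L l498 (T t31 N)))))))) (K a15 (M a192 (F (T t1681 (L l483 (T t27 (L l325 (T t20 N))))))) N)))))))))))))))⟩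
def e0_63__70_186 : Ent 4 := ⟨[a0, a63], [a70, a191], (M a48 (F (T t1 (T t2 (T t3 (T t0 (K a16 (M a60 (F (T t64 (L l14 (L l18 (L l333 (T t67 (T t65 N)))))))) (K a32 (M a60 (F (T t64 (L l333 (T t67 (L l24 (L l28 (T t65 N)))))))) (K a21 (M a192 (F (T t28 (T t206 (L l47 (L l220 (L l347 (T t29 N)))))))) (K a37 (M a192 (F (T t19 (T t206 (L l47 (L l220 (T t35 N))))))) (K a53 (M a192 (F (T t19 (L l47 (L l220 (L l491 (T t35 (L l213 (T t31 N))))))))) (K a26 (M a192 (F (T t28 (L l54 (T t206 (L l18 (L l220 (T t35 N)))))))) (K a42 (M a192 (F (T t19 (L l54 (L l390 (T t206 (L l28 (L l220 (T t29 N))))))))) (K a58 (M a192 (F (T t19 (L l220 (T t35 (L l54 (L l213 (L l498 (T t31 N))))))))) (K a15 (M a192 (F (T t53 (L l483 (T t19 (L l220 (L l469 (T t35 N)))))))) N)))))))))))))))⟩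
def e0_63__70_187 : Ent 4 := ⟨[a0, a63], [a70, a192], (M a12 (F (T t150 (L l489 (T t122 (L l489 (T t151 (L l489 (T t152 (L l489 (T t153 (K a4 (M a60 (F (T t570 (L l46 (L l50 (L l309 (L l333 (T t67 (T t448 N))))))))) (K a8 (M a60 (F (T t570 (L l309 (L l333 (T t67 (L l52 (L l56 (T t448 N))))))))) (K a21 (M a255 (F (T t2030 (L l272 (L l347 (T t2031 (L l15 (L l272 (T t2032 N))))))))) (K a25 (M a48 (F (T t865 (L l15 (L l339 (T t1 (L l12 (L l56 (T t866 N))))))))) (K a29 (M a48 (F (T t145 (L l15 (L l339 (T t1 (T t866 N))))))) (K a38 (M a48 (F (T t867 (L l26 (L l339 (T t2 (L l21 (L l50 (T t868 N))))))))) (K a42 (M a255 (F (T t2033 (L l26 (L l232 (L l333 (T t2034 (L l56 (L l272 (L l390 (T t2032 N))))))))))) (K a46 (M a48 (F (T t48 (L l514 (T t443 (L l26 (T t866 N))))))) (K a51 (M a16 (L l489 (F (T t112 (L l39 (L l514 (T t871 (T t872 (K a145 (M a98 (F (T t112 (L l39 (L l514 (T t871 (T t872 N))))))) (K a98 (M a145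 (F (T t112 (L l39 (L l514 (T t871 (T t872 N))))))) N)))))))))) N))))))))))))))))))))⟩
def e0_63__70_188 : Ent 4 := ⟨[a0, a63], [a70, a193], (M a85 (F (T t52 (L l228 (L l293 (T t88 (L l293 (T t89 (L l228 (T t90 (K a64 (M a16 (F (T t97 (L l77 (L l84 (T t96 (L l116 (L l293 (T t98 N))))))))) (K a192 (M a195 (F (T t883 (L l309 (L l333 (T t2035 (L l293 (L l296 (T t894 (L l305 (T t2036 N))))))))))) (K a21 (M a48 (F (T t99 (T t50 (L l47 (T t100 N)))))) (K a149 (M a61 (F (L l351 (T t529 (L l220 (L l293 (T t506 (L l217 (T t2037 N))))))))) (K a213 (Fr a170 a255 l476 (Fr a42 a21 l68 (Fr a106 a234 l390 (Fr a192 a149 l519 (V t581))))) (K a42 (M a48 (F (T t364 (L l390 (T t50 (L l28 (T t100 N))))))) (K a106 (M a48 (F (T t1 (L l77 (L l104 (T t509 (L l390 (T t50 N)))))))) (K a170 (M a16 (F (L l404 (T t113 (L l293 (L l390 (T t98 (L l390 (L l404 (T t97 (L l233 (L l404 (T t174 N))))))))))))) (K a255 (M a16 (F (T t112 (L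 l289 (T t113 (L l289 (L l293 (L l296 (T t98 N))))))))) N)))))))))))))))))))⟩
def e0_63__70_189 : Ent 4 := ⟨[a0, a63], [a70, a194], (M a48 (F (T t1 (T t2 (T t3 (T t0 (K a16 (M a60 (F (T t42 (L l14 (L l18 (L l333 (T t67 (T t65 N)))))))) (K a32 (M a60 (F (T t42 (L l333 (T t67 (L l24 (L l28 (T t65 N)))))))) (K a21 (M a192 (F (T t837 (L l47 (L l234 (L l347 (T t20 (L l47 (L l234 (L l347 (T t29 N))))))))))) (K a37 (M a192 (F (T t19 (L l47 (L l234 (T t20 (T t21 N))))))) (K a53 (M a192 (F (T t19 (L l491 (T t21 (L l516 (T t31 N))))))) (K a26 (M a192 (F (T t837 (L l234 (T t20 (T t21 N)))))) (K a42 (M a192 (F (T t19 (L l234 (T t20 (L l28 (L l234 (T t29 N)))))))) (K a58 (M a192 (F (T t19 (T t21 (L l54 (L l498 (L l516 (T t31 N)))))))) (K a15 (M a192 (F (T t47 (L l483 (T t27 (L l234 (L l325 (T t20 N)))))))) N)))))))))))))))⟩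
def e0_63__70_190 : Ent 4 := ⟨[a0, a63], [a70, a195], (M a48 (F (T t48 (L l337 (T t1 (L l337 (T t2 (L l337 (T t3 (L l337 (T t0 (K a16 (M a60 (F (T t138 (L l14 (L l18 (L l307 (L l333 (T t67 (T t65 N))))))))) (K a32 (M a60 (F (T t138 (L l307 (L l333 (T t67 (L l24 (L l28 (T t65 N))))))))) (K a21 (M a192 (F (T t54 (L l273 (T t27 (L l47 (L l347 (T t29 N)))))))) (K a37 (M a192 (F (T t53 (L l273 (T t27 (L l295 (T t21 N))))))) (K a53 (M a192 (F (T t55 (L l295 (L l491 (T t21 (T t31 N))))))) (K a26 (M a192 (F (T t33 (L l273 (T t27 (L l295 (T t21 N))))))) (K a42 (M a192 (F (T t56 (L l273 (T t27 (L l28 (T t29 N))))))) (K a58 (M a192 (F (T t57 (L l273 (T t27 (L l54 (L l498 (T t31 N)))))))) (K a15 (M a192 (L l337 (F (T t47 (L l273 (L l483 (T t27 (L l235 (L l325 (T t20 (K a135 (M a75 (F (T t1800 (L l235 (L l325 (T t22 (L l273 (L l483 (T t28 N))))))))) (K a75 (M a135 (F (T t1800 (L l235 (L l325 (T t22 (L l273 (L l483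 (T t28 N))))))))) N)))))))))))) N))))))))))))))))))))⟩
def e0_63__70_191 : Ent 4 := ⟨[a0, a63], [a70, a196], (M a48 (L l315 (F (T t1 (T t2 (T t3 (T t0 (K a16 (M a149 (L l315 (F (T t177 (L l232 (L l340 (T t11 (L l229 (L l278 (T t6 (K a133 (M a7 (F (T t7 (L l232 (L l278 (L l339 (T t424 (L l229 (L l278 (L l311 (T t6 N))))))))))) (K a7 (M a133 (F (L l82 (T t1325 (L l229 (L l278 (T t6 N))))))) N)))))))))))) (K a32 (M a55 (L l315 (F (T t2038 (L l28 (L l310 (T t2039 (L l28 (T t2040 (K a133 (M a7 (F (T t2038 (L l28 (L l311 (T t2041 N)))))) (K a7 (M a133 (F (T t2038 (L l1 (L l28 (L l310 (T t2039 (L l28 (T t2040 N))))))))) N))))))))))) (K a21 (M a192 (L l315 (F (T t837 (L l47 (L l347 (L l495 (T t20 (L l47 (L l347 (L l495 (T t29 (K a133 (M a7 (F (T t22 (T t28 (L l47 (L l199 (L l347 (L l495 (T t29 N))))))))) (K a7 (M a133 (F (T t28 (L l82 (L l229 (T t2042 N)))))) N)))))))))))))) (K a37 (M a52 (L l315 (F (L l310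 (T t82 (L l495 (T t83 (L l21 (L l28 (T t84 (K a133 (M a7 (F (L l495 (T t83 (L l310 (T t82 (L l21 (L l28 (T t84 N))))))))) (K a7 (M a133 (F (L l71 (T t491 (L l1 (L l310 (T t82 (L l21 (L l28 (T t84 N)))))))))) N)))))))))))) (K a53 (M a192 (L l315 (F (T t19 (L l491 (L l495 (T t21 (L l278 (T t31 (K a133 (M a7 (F (T t28 (L l47 (L l199 (L l491 (L l495 (T t35 (L l47 (L l199 (L l491 (L l495 (T t525 N))))))))))))) (K a7 (M a133 (F (T t837 (L l82 (L l278 (L l419 (T t2043 N))))))) N))))))))))) (K a26 (M a192 (L l315 (F (T t837 (L l495 (T t20 (L l495 (T t21 (K a133 (M a7 (F (T t22 (L l18 (L l199 (L l495 (T t35 (T t28 N)))))))) (K a7 (M a133 (F (T t837 (L l54 (L l82 (L l278 (T t2043 N))))))) N)))))))))) (K a42 (M a192 (L l315 (F (T t19 (L l495 (T t20 (L l28 (L l495 (T t29 (K a133 (M a7 (F (T t837 (L l390 (T t22 (L l28 (L l199 (L l495 (T t29 N))))))))) (K a7 (M a133 (F (T t837 (L l54 (L l82 (L l390 (T t2044 N)))))))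 N))))))))))) (K a58 (M a192 (L l315 (F (T t19 (L l495 (T t21 (L l54 (L l278 (L l498 (T t31 (K a133 (M a7 (F (T t28 (L l199 (L l495 (T t35 (L l199 (L l495 (T t525 N))))))))) (K a7 (M a133 (F (T t837 (L l54 (L l82 (L l278 (L l498 (T t2043 N)))))))) N)))))))))))) (K a15 (M a192 (L l315 (F (T t1800 (L l483 (T t27 (L l325 (L l495 (T t20 (K a133 (M a7 (F (T t54 (L l199 (L l469 (L l495 (T t35 (L l483 (T t28 N))))))))) (K a7 (M a133 (L l7 (F (T t54 (L l469 (L l495 (T t21 (L l483 (T t837 (K a3 (M a11 (L l333 (F (T t1922 (L l325 (L l331 (L l495 (T t20 (L l469 (L l475 (L l495 (T t35 (K a204 (M a137 (L l327 (F (T t55 (L l82 (L l495 (T t2045 (K a141 (M a78 (F (T t1922 (L l495 (T t2045 N))))) (K a78 (Fr a141 a129 l157 (V t35)) N))))))))) (K a137 (M a204 (F (T t54 (L l154 (L l471 (L l477 (T t2046 N))))))) N)))))))))))))) (K a11 (M a3 (F (T t1922 (L l471 (L l495 (T t2047 N)))))) N))))))))))) N))))))))))) (K a133 (M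 a7 (F (T t48 (L l311 (T t63 (L l490 (T t2048 (K a21 (M a52 (F (T t1429 (T t2049 N)))) (K a37 (M a5 (F (T t2050 (L l312 (L l490 (T t2051 N)))))) (K a26 (M a5 (F (L l54 (T t2052 (L l12 (L l312 (L l490 (T t2051 N)))))))) (K a42 (M a5 (F (L l54 (T t2053 (L l56 (L l312 (L l490 (T t2051 N)))))))) N))))))))))) (K a7 (M a133 (F (L l7 (T t3 (L l51 (L l77 (L l278 (T t2054 (L l1 (L l7 (T t2 (L l7 (T t0 (K a32 (M a5 (F (T t2052 (L l229 (L l330 (T t2055 N)))))) (K a21 (M a192 (F (T t28 (L l82 (L l229 (T t2042 N)))))) (K a37 (M a52 (F (L l71 (T t491 (L l1 (L l310 (T t82 (L l21 (L l28 (T t84 N)))))))))) (K a53 (M a192 (F (T t837 (L l82 (L l278 (L l419 (T t2043 N))))))) (K a26 (M a192 (F (T t837 (L l54 (L l82 (L l278 (T t2043 N))))))) (K a42 (M a192 (F (T t837 (L l54 (L l82 (L l390 (T t2044 N))))))) (K a58 (M a192 (F (T t837 (L l54 (L l82 (L l278 (L l498 (T t2043 N)))))))) N)))))))))))))))))))) N))))))))))))))))))⟩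
def e0_63__70_192 : Ent 4 := ⟨[a0, a63], [a70, a197], (M a85 (F (T t52 (L l236 (L l275 (T t88 (L l275 (T t89 (L l236 (T t90 (K a64 (M a16 (F (T t97 (L l236 (T t259 (L l116 (L l275 (T t98 N)))))))) (K a192 (M a207 (F (L l330 (T t2056 (L l339 (T t2057 (L l275 (L l296 (L l330 (L l484 (T t2058 (L l330 (L l339 (T t2059 N)))))))))))))) (K a21 (M a48 (F (T t99 (T t50 (L l47 (L l236 (L l491 (T t100 N)))))))) (K a149 (M a53 (F (L l311 (T t982 (L l220 (L l275 (T t1560 (L l199 (T t2060 N))))))))) (K a213 (Fr a170 a255 l476 (Fr a42 a21 l68 (Fr a106 a234 l390 (Fr a192 a149 l519 (V t581))))) (K a42 (M a48 (F (T t364 (L l390 (T t50 (L l28 (L l236 (L l491 (T t100 N))))))))) (K a106 (M a48 (F (T t99 (L l411 (T t3 (L l390 (T t50 N))))))) (K a170 (M a4 (F (L l464 (T t130 (L l77 (L l275 (L l390 (T t131 (L l390 (L l464 (T t519 (L l464 (T t938 N))))))))))))) (K a255 (M a16 (F (T t504 (L l236 (L l289 (L l491 (T t113 (L l275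 (L l289 (L l296 (T t98 N))))))))))) N)))))))))))))))))))⟩
def e0_63__70_193 : Ent 4 := ⟨[a0, a63], [a70, a198], (M a149 (L l312 (F (T t5 (T t175 (T t176 (T t177 (K a192 (M a12 (L l312 (F (T t150 (L l272 (T t649 (L l272 (L l296 (T t960 (L l296 (T t961 (K a6 (M a134 (F (T t1252 (L l85 (L l514 (T t1758 N)))))) (K a134 (M a6 (F (T t2061 (L l153 (L l276 (L l292 (T t1985 N))))))) N))))))))))))) (K a21 (M a12 (L l312 (F (T t958 (L l85 (L l237 (L l333 (T t648 (L l50 (T t649 (K a6 (M a134 (F (T t958 (L l229 (L l237 (L l330 (T t1755 N))))))) (K a134 (M a6 (F (T t958 (L l65 (L l315 (L l333 (T t1982 N))))))) N)))))))))))) (K a85 (M a12 (L l312 (F (T t958 (T t122 (L l85 (L l144 (L l237 (L l333 (T t648 (K a6 (M a134 (F (T t991 (L l229 (L l237 (L l330 (T t1755 N))))))) (K a134 (M a6 (F (T t122 (L l153 (L l276 (T t1985 N)))))) N)))))))))))) (K a213 (Fr a106 a192 l519 (Fr a42 a21 l68 (Fr a170 a234 l390 (Fr a255 a85 l476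 (V t582))))) (K a42 (M a12 (L l312 (F (T t1984 (L l85 (L l237 (L l333 (L l390 (T t648 (L l26 (T t649 (K a6 (M a134 (F (T t991 (L l56 (L l229 (L l237 (L l330 (T t1755 N)))))))) (K a134 (M a6 (F (T t1984 (L l56 (L l315 (L l333 (T t1982 N))))))) N))))))))))))) (K a106 (M a12 (L l312 (F (T t122 (L l408 (T t649 (L l390 (L l408 (T t960 (L l390 (T t961 (K a6 (M a134 (F (T t122 (L l85 (L l98 (L l132 (T t1758 N))))))) (K a134 (M a6 (F (T t122 (L l153 (L l276 (L l393 (T t1985 N))))))) N))))))))))))) (K a170 (M a12 (L l312 (F (T t958 (L l402 (T t122 (L l85 (L l237 (L l333 (L l390 (T t648 (K a6 (M a134 (F (T t991 (L l1 (L l77 (L l237 (T t1759 N))))))) (K a134 (M a6 (F (T t958 (L l314 (L l330 (L l333 (L l474 (T t1986 N)))))))) N))))))))))))) (K a191 (M a240 (L l312 (F (T t962 (L l315 (T t963 (K a6 (M a134 (F (T t962 (L l315 (T t963 N))))) (K a134 (M a6 (F (T t962 (L l153 (L l315 (T t963 N)))))) N)))))))) (K a255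 (M a4 (L l312 (F (T t129 (L l229 (L l237 (L l290 (L l315 (L l333 (T t653 (L l77 (L l265 (L l296 (T t1070 (K a6 (M a134 (F (L l85 (T t1772 (L l48 (L l124 (L l265 (L l296 (L l492 (T t1773 N)))))))))) (K a134 (M a6 (F (L l336 (T t1987 (L l77 (L l265 (L l296 (T t1070 N)))))))) N)))))))))))))))) (K a6 (M a134 (F (T t5 (T t175 (T t176 (T t177 (K a192 (M a4 (F (L l85 (T t1772 (L l48 (L l124 (L l296 (L l492 (T t1773 N))))))))) (K a21 (M a132 (F (T t1774 (L l9 (L l85 (T t1775 N)))))) (K a85 (M a132 (F (T t1774 (L l9 (L l85 (L l144 (T t1775 N))))))) (K a213 (Fr a106 a192 l519 (Fr a42 a21 l68 (Fr a170 a234 l390 (Fr a255 a85 l476 (V t582))))) (K a42 (M a132 (F (T t1774 (L l9 (L l85 (L l390 (T t1775 N))))))) (K a106 (M a4 (F (L l85 (T t1772 (L l48 (L l102 (L l124 (L l390 (L l492 (T t1773 N)))))))))) (K a170 (M a132 (F (T t1774 (L l9 (L l85 (L l208 (L l390 (T t1775 N)))))))) (K a191 (M a240 (F (T t962 (L l315 (T t963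 N))))) (K a255 (M a4 (F (L l85 (T t1772 (L l48 (L l124 (L l265 (L l296 (L l492 (T t1773 N)))))))))) N))))))))))))))) (K a134 (M a6 (F (T t5 (T t175 (T t176 (T t177 (K a192 (M a4 (F (L l336 (T t1987 (L l77 (L l296 (T t1070 N))))))) (K a21 (M a12 (F (T t958 (L l65 (L l315 (L l333 (T t1982 N))))))) (K a85 (M a4 (F (T t1977 (L l315 (T t1983 N))))) (K a213 (Fr a106 a192 l519 (Fr a42 a21 l68 (Fr a170 a234 l390 (Fr a255 a85 l476 (V t582))))) (K a42 (M a12 (F (T t1984 (L l56 (L l315 (L l333 (T t1982 N))))))) (K a106 (M a4 (F (L l336 (T t1987 (L l77 (L l390 (T t1070 N))))))) (K a170 (M a4 (F (L l336 (L l464 (T t1987 (L l77 (L l390 (T t1070 N)))))))) (K a191 (M a240 (F (T t962 (L l153 (L l315 (T t963 N)))))) (K a255 (M a4 (F (L l336 (T t1987 (L l77 (L l265 (L l296 (T t1070 N)))))))) N))))))))))))))) N))))))))))))))))))⟩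
def e0_63__70_194 : Ent 4 := ⟨[a0, a63], [a70, a199], (M a85 (F (T t88 (T t52 (T t89 (T t90 (K a64 (M a60 (F (T t114 (L l277 (T t115 N))))) (K a192 (M a16 (F (T t112 (L l77 (L l314 (L l494 (T t96 (L l296 (T t98 N))))))))) (K a21 (M a48 (F (T t99 (T t50 (L l47 (T t100 N)))))) (K a149 (M a16 (F (T t112 (L l77 (L l235 (L l314 (T t173 (L l170 (T t102 N))))))))) (K a213 (Fr a170 a255 l476 (Fr a42 a21 l68 (Fr a106 a234 l390 (Fr a192 a149 l519 (V t581))))) (K a42 (M a48 (F (T t364 (L l390 (T t50 (L l28 (T t100 N))))))) (K a106 (M a48 (F (T t99 (T t1 (L l390 (T t50 N)))))) (K a170 (M a16 (F (L l404 (T t113 (L l390 (T t98 (L l390 (L l404 (T t97 (L l229 (L l235 (L l404 (T t174 N))))))))))))) (K a255 (M a16 (F (T t112 (L l289 (T t113 (L l289 (L l296 (T t98 N)))))))) N)))))))))))))))⟩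
def e0_63__70_195 : Ent 4 := ⟨[a0, a63], [a70, a200], (M a48 (F (T t1 (T t2 (T t3 (T t0 (K a16 (M a60 (F (T t64 (L l14 (L l18 (L l333 (T t67 (T t65 N)))))))) (K a32 (M a60 (F (T t64 (L l333 (T t67 (L l24 (L l28 (T t65 N)))))))) (K a21 (M a192 (F (T t837 (L l47 (L l230 (L l347 (T t20 (L l47 (L l230 (L l347 (T t29 N))))))))))) (K a37 (M a192 (F (T t19 (L l47 (L l230 (T t20 (T t21 N))))))) (K a53 (M a192 (F (T t19 (L l491 (T t21 (L l501 (T t31 N))))))) (K a26 (M a192 (F (T t837 (L l230 (T t20 (T t21 N)))))) (K a42 (M a192 (F (T t19 (L l230 (T t20 (L l28 (L l230 (T t29 N)))))))) (K a58 (M a192 (F (T t19 (T t21 (L l54 (L l498 (L l501 (T t31 N)))))))) (K a15 (M a192 (F (T t47 (L l483 (T t27 (L l230 (L l325 (T t20 N)))))))) N)))))))))))))))⟩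
def e0_63__70_196 : Ent 4 := ⟨[a0, a63], [a70, a201], (M a149 (F (T t5 (T t175 (T t176 (T t177 (K a192 (M a53 (F (T t178 (L l233 (L l236 (T t179 (L l77 (L l233 (L l236 (L l296 (T t180 N))))))))))) (K a21 (M a48 (F (T t7 (L l18 (L l233 (T t14 (T t13 N))))))) (K a85 (M a16 (F (T t97 (L l144 (T t190 (L l94 (T t278 N))))))) (K a213 (Fr a106 a192 l519 (Fr a42 a21 l68 (Fr a170 a234 l390 (Fr a255 a85 l476 (V t582))))) (K a42 (M a48 (F (L l230 (T t11 (L l390 (T t13 (L l54 (L l233 (T t14 N))))))))) (K a106 (M a48 (F (T t1 (L l233 (L l498 (T t14 (L l233 (L l390 (L l498 (T t6 (L l390 (T t26 N)))))))))))) (K a170 (M a48 (F (T t3 (L l230 (T t11 (L l390 (T t13 N))))))) (K a191 (M a240 (F (T t962 (L l315 (T t963 N))))) (K a255 (M a16 (F (T t112 (L l266 (T t190 (L l289 (L l296 (T t191 N)))))))) N)))))))))))))))⟩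
def e0_63__70_197 : Ent 4 := ⟨[a0, a63], [a70, a202], (M a48 (F (T t3 (L l318 (T t1 (L l498 (T t2 (T t0 (K a16 (M a60 (F (T t64 (L l14 (L l18 (L l333 (T t67 (L l498 (T t65 N))))))))) (K a32 (M a60 (F (T t64 (L l333 (T t67 (L l24 (L l28 (L l498 (T t65 N))))))))) (K a21 (M a192 (F (T t27 (L l498 (T t22 (L l18 (L l498 (T t46 N)))))))) (K a37 (M a192 (F (T t19 (L l498 (T t22 (T t21 N)))))) (K a53 (M a192 (F (T t19 (L l491 (T t21 (L l498 (T t31 N))))))) (K a26 (M a192 (F (T t837 (L l498 (T t22 (T t21 N)))))) (K a42 (M a192 (F (T t27 (L l390 (L l498 (T t22 (L l390 (L l498 (T t46 N))))))))) (K a58 (M a106 (F (T t564 (T t551 (L l282 (T t599 N)))))) (K a15 (M a192 (F (T t47 (L l483 (T t27 (L l325 (L l498 (T t22 N)))))))) N)))))))))))))))))⟩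
def e0_63__70_198 : Ent 4 := ⟨[a0, a63], [a70, a203], (M a85 (F (T t88 (T t52 (T t89 (T t90 (K a64 (M a60 (F (T t114 (T t115 N)))) (K a192 (M a16 (F (T t112 (L l77 (T t96 (L l296 (T t98 N))))))) (K a21 (M a48 (F (T t99 (T t50 (L l47 (L l230 (T t100 N))))))) (K a149 (M a16 (F (T t112 (L l77 (L l235 (T t173 (L l170 (L l500 (T t102 N))))))))) (K a213 (Fr a170 a255 l476 (Fr a42 a21 l68 (Fr a106 a234 l390 (Fr a192 a149 l519 (V t581))))) (K a42 (M a48 (F (T t364 (L l390 (T t50 (L l28 (L l230 (T t100 N)))))))) (K a106 (M a48 (F (T t1 (L l77 (L l104 (T t509 (L l390 (T t50 N)))))))) (K a170 (M a16 (F (L l390 (L l404 (T t97 (L l390 (T t98 (L l230 (L l404 (T t113 (L l235 (L l404 (T t174 N))))))))))))) (K a255 (M a16 (F (T t112 (L l230 (L l289 (T t113 (L l289 (L l296 (T t98 N))))))))) N)))))))))))))))⟩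
def e0_63__70_199 : Ent 4 := ⟨[a0, a63], [a70, a204], (M a3 (F (T t632 (L l502 (T t137 (L l502 (T t353 (L l330 (L l502 (T t665 (L l502 (T t358 (K a60 (M a85 (L l502 (F (T t2062 (L l330 (T t357 (K a156 (M a108 (F (T t2062 (L l330 (T t357 N))))) (K a108 (M a156 (F (T t2062 (L l330 (T t357 N))))) N)))))))) (K a1 (M a85 (F (T t89 (L l237 (T t355 (T t377 N)))))) (K a21 (M a192 (F (L l286 (T t2063 (L l85 (L l237 (T t2064 (L l65 (T t2065 N))))))))) (K a41 (M a192 (F (T t2066 (L l85 (L l237 (T t2064 (L l65 (L l290 (T t35 N))))))))) (K a2 (M a85 (L l330 (F (L l290 (T t52 (L l237 (L l474 (T t355 (L l66 (T t377 (K a138 (M a206 (F (L l290 (T t255 (L l206 (L l237 (L l474 (T t355 (L l66 (T t377 N)))))))))) (K a206 (M a138 (L l231 (F (L l290 (T t1688 (L l66 (T t377 (K a205 (Fr a207 a69 l332 (V t2067)) (K a207 (M a205 (F (L l66 (T t89 (L l235 (L l237 (L l474 (T t355 (L l66 (T t377 N)))))))))) N))))))))) N))))))))))))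 (K a22 (M a192 (F (T t2068 (L l82 (L l286 (T t2069 (L l11 (L l290 (T t35 N))))))))) (K a42 (M a192 (F (T t2066 (L l85 (L l237 (T t2064 (L l22 (L l390 (T t2065 N))))))))) (K a23 (M a192 (F (T t1681 (L l85 (L l237 (T t2064 (L l11 (L l351 (T t2070 N))))))))) (K a43 (M a192 (F (T t2068 (L l290 (T t35 (T t2070 N)))))) N)))))))))))))))))))))⟩
def e0_63__70_200 : Ent 4 := ⟨[a0, a63], [a70, a205], (M a149 (F (T t5 (T t175 (T t176 (T t177 (K a192 (M a53 (F (T t178 (L l233 (L l236 (T t179 (L l77 (L l233 (L l236 (L l296 (L l329 (T t180 N)))))))))))) (K a21 (M a48 (F (T t1267 (L l18 (L l233 (T t14 (T t13 N))))))) (K a85 (M a16 (F (T t97 (L l144 (T t190 (L l94 (T t278 N))))))) (K a213 (Fr a106 a192 l519 (Fr a42 a21 l68 (Fr a170 a234 l390 (Fr a255 a85 l476 (V t582))))) (K a42 (M a48 (F (T t11 (L l390 (T t13 (L l54 (L l233 (T t14 N)))))))) (K a106 (M a48 (F (T t1 (L l233 (L l498 (T t14 (L l233 (L l390 (L l498 (T t6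 (L l390 (T t26 N)))))))))))) (K a170 (M a48 (F (T t3 (T t11 (L l390 (T t13 N)))))) (K a191 (M a240 (F (T t962 (L l315 (T t963 N))))) (K a255 (M a16 (F (T t112 (L l266 (T t190 (L l289 (L l296 (T t191 N)))))))) N)))))))))))))))⟩
def e0_63__70_201 : Ent 4 := ⟨[a0, a63], [a70, a206], (M a192 (L l330 (F (T t21 (T t35 (T t202 (T t37 (K a64 (M a2 (F (T t338 (L l76 (L l82 (L l144 (T t1365 (L l76 (L l82 (T t2071 (L l288 (T t2072 N)))))))))))) (K a128 (M a2 (F (T t338 (L l82 (T t1365 (L l82 (L l220 (T t2071 (L l152 (L l220 (L l288 (T t2072 N)))))))))))) (K a21 (M a138 (F (T t2073 (L l77 (T t2074 (T t2075 N)))))) (K a85 (M a3 (L l330 (F (L l347 (T t353 (L l85 (T t2064 (L l82 (L l144 (T t2069 (K a2 (M a138 (F (L l347 (T t2047 (L l231 (L l315 (T t2076 N))))))) (K a138 (Fr a2 a1 l0 (V t2077)) N)))))))))))) (K a149 (M a48 (L l330 (F (T t2 (L l170 (L l220 (T t27 (L l170 (L l220 (L l347 (L l491 (T t213 (L l375 (T t214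 (K a2 (M a138 (F (T t837 (L l77 (L l347 (L l491 (T t2078 N))))))) (K a138 (M a2 (F (T t837 (L l347 (L l504 (T t824 N)))))) N)))))))))))))))) (K a42 (M a2 (F (T t2079 (L l234 (T t1363 (L l288 (L l390 (T t1804 N)))))))) (K a106 (M a48 (L l330 (F (T t27 (T t1 (L l411 (T t213 (L l104 (L l144 (L l390 (L l498 (T t214 (K a2 (M a138 (F (L l411 (T t3 (L l77 (L l104 (L l144 (T t2080 N)))))))) (K a138 (M a2 (F (T t338 (L l104 (L l144 (T t837 N)))))) N)))))))))))))) (K a170 (M a2 (F (L l504 (T t824 (L l234 (T t1363 (L l82 (L l218 (L l220 (T t2071 N)))))))))) (K a255 (M a2 (F (T t338 (L l234 (L l295 (T t1363 (L l82 (T t2071 N)))))))) (K a2 (M a138 (F (T t35 (L l6 (L l82 (T t2081 (L l77 (T t2074 N)))))))) (K a138 (M a2 (F (T t35 (L l234 (T t1363 (L l504 (T t824 N))))))) N))))))))))))))))))⟩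
def e0_63__70_202 : Ent 4 := ⟨[a0, a63], [a70, a207], (M a12 (F (T t150 (L l511 (T t122 (L l511 (T t151 (L l511 (T t152 (L l511 (T t153 (K a4 (M a60 (F (T t570 (L l46 (L l50 (L l331 (L l333 (T t67 (T t448 N))))))))) (K a8 (M a60 (F (T t570 (L l331 (L l333 (T t67 (L l52 (L l56 (T t448 N))))))))) (K a21 (M a192 (F (T t158 (L l85 (L l231 (L l333 (T t156 (L l15 (L l347 (T t157 N)))))))))) (K a25 (M a192 (F (T t155 (L l85 (L l231 (L l333 (T t156 (L l289 (T t21 N))))))))) (K a29 (M a192 (F (T t1681 (L l85 (L l231 (L l333 (T t156 (T t160 N)))))))) (K a38 (M a192 (F (T t161 (L l85 (L l231 (L l333 (T t156 (L l289 (T t21 N))))))))) (K a42 (M a192 (F (T t161 (L l85 (L l231 (L l333 (T t156 (L l56 (T t157 N))))))))) (K a46 (M a192 (F (T t57 (L l85 (L l231 (L l333 (T t156 (L l26 (L l408 (T t160 N)))))))))) (K a51 (M a192 (L l511 (F (T t1681 (L l85 (L l231 (L l333 (L l513 (T t156 (L l301 (L l415 (T t450 (K a103 (M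 a155 (F (T t1800 (L l301 (L l415 (T t543 (L l231 (L l315 (L l333 (L l513 (T t468 N))))))))))) (K a155 (M a103 (F (T t1800 (L l301 (L l415 (T t543 (L l231 (L l315 (L l333 (L l513 (T t468 N))))))))))) N)))))))))))))) N))))))))))))))))))))⟩
def e0_63__70_203 : Ent 4 := ⟨[a0, a63], [a70, a208], (M a85 (F (T t52 (L l246 (L l268 (T t88 (L l246 (T t89 (L l268 (T t90 (K a64 (M a16 (F (T t112 (L l77 (L l84 (L l246 (T t96 (T t102 N)))))))) (K a192 (M a240 (F (T t2082 (L l484 (T t933 (L l246 (L l296 (T t1550 (L l340 (T t2083 N)))))))))) (K a21 (M a48 (F (L l246 (T t99 (L l268 (T t50 (L l47 (L l246 (T t100 N))))))))) (K a149 (M a31 (F (L l340 (T t2084 (L l220 (L l246 (T t2085 (L l170 (T t2086 N))))))))) (K a213 (Fr a170 a255 l476 (Fr a42 a21 l68 (Fr a106 a234 l390 (Fr a192 a149 l519 (V t581))))) (K a42 (M a48 (F (L l340 (T t364 (L l268 (L l390 (T t50 (L l28 (L l246 (T t100 N)))))))))) (K a106 (M a48 (F (T t1 (L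 l77 (L l104 (L l246 (T t509 (L l268 (L l390 (T t50 N)))))))))) (K a170 (M a4 (F (L l464 (T t130 (L l77 (L l246 (L l390 (T t131 (L l390 (L l464 (T t519 (L l238 (L l464 (T t938 N)))))))))))))) (K a255 (M a4 (F (T t129 (L l265 (T t130 (L l77 (L l246 (L l265 (L l296 (T t131 N)))))))))) N)))))))))))))))))))⟩
def e0_63__70_204 : Ent 4 := ⟨[a0, a63], [a70, a209], (M a85 (F (T t52 (L l243 (L l272 (T t88 (L l243 (T t89 (L l272 (T t90 (K a64 (M a16 (F (T t97 (L l77 (L l84 (T t96 (L l116 (L l243 (T t98 N))))))))) (K a192 (M a243 (F (T t2087 (L l489 (T t2088 (L l243 (L l296 (L l334 (T t2089 (L l489 (T t2090 N))))))))))) (K a21 (M a48 (F (T t99 (T t50 (L l47 (T t100 N)))))) (K a149 (M a29 (F (L l341 (T t2091 (L l220 (L l243 (L l333 (T t2092 (L l167 (T t2093 N)))))))))) (K a213 (Fr a170 a255 l476 (Fr a42 a21 l68 (Fr a106 a234 l390 (Fr a192 a149 l519 (V t581))))) (K a42 (M a48 (F (T t364 (L l390 (T t50 (L l28 (T t100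 N))))))) (K a106 (M a48 (F (T t1 (L l77 (L l104 (T t509 (L l390 (T t50 N)))))))) (K a170 (M a16 (F (L l404 (T t113 (L l243 (L l390 (T t98 (L l390 (L l404 (T t97 (L l404 (T t174 N)))))))))))) (K a255 (M a16 (F (T t112 (L l289 (T t113 (L l243 (L l289 (L l296 (T t98 N))))))))) N)))))))))))))))))))⟩
def e0_63__70_205 : Ent 4 := ⟨[a0, a63], [a70, a210], (M a85 (F (T t88 (T t52 (T t89 (T t90 (K a64 (M a16 (F (T t97 (L l77 (L l84 (T t96 (L l116 (T t98 N)))))))) (K a192 (M a16 (F (T t112 (L l77 (T t96 (L l296 (T t98 N))))))) (K a21 (M a48 (F (T t99 (L l273 (T t50 (L l47 (T t100 N))))))) (K a149 (M a16 (F (T t112 (L l77 (T t173 (L l170 (T t102 N))))))) (K a213 (Fr a170 a255 l476 (Fr a42 a21 l68 (Fr a106 a234 l390 (Fr a192 a149 l519 (V t581))))) (K a42 (M a48 (F (T t364 (L l273 (L l390 (T t50 (L l28 (T t100 N)))))))) (K a106 (M a48 (F (T t1 (L l77 (L l104 (T t509 (L l273 (L l390 (T t50 N))))))))) (K a170 (M a16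 (F (L l404 (T t113 (L l390 (T t98 (L l390 (L l404 (T t97 (L l404 (T t174 N))))))))))) (K a255 (M a16 (F (T t112 (L l289 (T t113 (L l289 (L l296 (T t98 N)))))))) N)))))))))))))))⟩
def e0_63__70_206 : Ent 4 := ⟨[a0, a63], [a70, a211], (M a85 (F (T t88 (T t52 (T t89 (T t90 (K a64 (M a48 (F (T t50 (L l245 (T t568 N))))) (K a192 (M a16 (F (T t112 (L l77 (L l245 (T t96 (L l245 (L l296 (T t98 N))))))))) (K a21 (M a48 (F (L l245 (T t99 (T t50 (L l47 (L l245 (T t100 N)))))))) (K a149 (M a16 (F (T t112 (L l77 (L l245 (T t173 (L l170 (T t102 N)))))))) (K a213 (Fr a170 a255 l476 (Fr a42 a21 l68 (Fr a106 a234 l390 (Fr a192 a149 l519 (V t581))))) (K a42 (M a48 (F (L l344 (T t364 (L l390 (T t50 (L l28 (L l245 (T t100 N))))))))) (K a106 (M a48 (F (T t1 (L l77 (L l104 (L l245 (T t509 (L l390 (T t50 N))))))))) (K a170 (M a16 (F (L l390 (L l404 (T t112 (L l245 (L l390 (T t98 (L l245 (L l404 (T t113 (L l245 (L l404 (T t174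 N)))))))))))))) (K a255 (M a16 (F (T t112 (L l245 (L l289 (T t113 (L l245 (L l289 (L l296 (T t98 N)))))))))) N)))))))))))))))⟩
def e0_63__70_207 : Ent 4 := ⟨[a0, a63], [a70, a212], (M a85 (F (T t52 (L l239 (L l292 (T t88 (L l239 (T t89 (L l292 (T t90 (K a64 (M a16 (F (T t97 (L l77 (L l84 (T t96 (L l116 (L l239 (T t98 N))))))))) (K a192 (M a252 (F (T t2094 (L l514 (T t93 (L l239 (L l296 (L l309 (T t170 (L l330 (L l514 (T t2095 N)))))))))))) (K a21 (M a48 (F (T t99 (T t50 (L l47 (T t100 N)))))) (K a149 (M a23 (F (L l346 (T t1941 (L l220 (L l239 (T t2096 (L l163 (T t2097 N))))))))) (K a213 (Fr a170 a255 l476 (Fr a42 a21 l68 (Fr a106 a234 l390 (Fr a192 a149 l519 (V t581))))) (K a42 (M a48 (F (T t364 (L l390 (T t50 (L l28 (T t100 N))))))) (K a106 (M a48 (F (T t1 (L l77 (L l104 (T t509 (L l390 (T t50 N)))))))) (K a170 (M a16 (F (L l404 (T t113 (L l239 (L l390 (T t98 (L l390 (L l404 (T t97 (L l404 (T t174 N))))))))))))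 (K a255 (M a16 (F (T t112 (L l289 (T t113 (L l239 (L l289 (L l296 (T t98 N))))))))) N)))))))))))))))))))⟩
def e0_63__70_208 : Ent 4 := ⟨[a0, a63], [a70, a213], (M a48 (F (T t2 (L l347 (T t1 (L l347 (T t3 (T t0 (K a16 (M a60 (F (T t64 (L l14 (L l18 (L l333 (L l347 (T t67 (T t65 N))))))))) (K a32 (M a60 (F (T t64 (L l333 (L l347 (T t67 (L l24 (L l28 (T t65 N))))))))) (K a21 (M a85 (F (T t50 (L l77 (L l246 (T t509 (L l47 (L l246 (T t100 N))))))))) (K a37 (M a192 (F (T t19 (L l47 (L l347 (T t20 (L l347 (T t21 N)))))))) (K a53 (M a192 (F (T t27 (L l347 (L l491 (T t21 (L l347 (L l491 (T t575 N))))))))) (K a26 (M a192 (F (T t837 (L l347 (T t20 (L l347 (T t21 N))))))) (K a42 (M a192 (F (T t19 (L l347 (T t20 (L l28 (L l246 (L l347 (T t29 N))))))))) (K a58 (M a192 (F (T t27 (L l347 (T t21 (L l347 (T t575 N))))))) (K a15 (M a192 (F (T t54 (L l483 (T t27 (L l347 (L l469 (T t21 N)))))))) N)))))))))))))))))⟩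
def e0_63__70_209 : Ent 4 := ⟨[a0, a63], [a70, a214], (M a149 (F (T t177 (L l239 (T t5 (L l294 (T t175 (L l239 (T t176 (K a192 (M a53 (F (T t178 (L l236 (T t179 (L l77 (L l236 (L l239 (L l296 (T t180 N)))))))))) (K a21 (M a48 (F (T t4 (T t13 (L l18 (T t14 N)))))) (K a85 (M a16 (F (T t97 (L l144 (T t190 (L l94 (T t278 N))))))) (K a213 (Fr a106 a192 l519 (Fr a42 a21 l68 (Fr a170 a234 l390 (Fr a255 a85 l476 (V t582))))) (K a42 (M a48 (F (T t187 (L l390 (T t13 (L l54 (T t14 N))))))) (K a106 (M a48 (F (T t1 (L l498 (T t14 (L l239 (L l390 (L l498 (T t6 (L l239 (L l390 (T t26 N)))))))))))) (K a170 (M a48 (F (T t4 (L l462 (T t1 (L l390 (T t13 N))))))) (K a191 (M a240 (F (T t962 (L l239 (L l315 (T t963 N)))))) (K a255 (M a16 (F (T t112 (L l266 (T t190 (L l239 (L l289 (L l296 (T t191 N))))))))) N))))))))))))))))))⟩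
def e0_63__70_210 : Ent 4 := ⟨[a0, a63], [a70, a215], (M a149 (F (T t175 (L l239 (T t5 (L l239 (L l295 (T t176 (L l295 (T t177 (K a192 (M a53 (F (T t178 (L l236 (T t179 (L l77 (L l236 (L l239 (L l296 (T t180 N)))))))))) (K a21 (M a48 (F (T t4 (T t13 (L l18 (T t14 N)))))) (K a85 (M a20 (F (L l349 (T t1268 (L l144 (L l239 (T t1269 (L l87 (L l124 (T t1270 N)))))))))) (K a213 (Fr a106 a192 l519 (Fr a42 a21 l68 (Fr a170 a234 l390 (Fr a255 a85 l476 (V t582))))) (K a42 (M a48 (F (T t187 (L l390 (T t13 (L l54 (T t14 N))))))) (K a106 (M a48 (F (T t1 (L l498 (T t14 (L l239 (L l390 (L l498 (T t6 (L l239 (L l245 (L l390 (T t26 N))))))))))))) (K a170 (M a48 (F (T t4 (L l462 (T t1 (L l390 (T t13 N))))))) (K a191 (M a240 (F (T t962 (L l239 (L l315 (T t963 N)))))) (K a255 (M a195 (F (T t2098 (L l330 (L l333 (L l475 (T t1114 (L l239 (L l296 (L l434 (T t1272 (L l349 (T t1273 N))))))))))))) N)))))))))))))))))))⟩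
def e0_63__70_211 : Ent 4 := ⟨[a0, a63], [a70, a216], (M a85 (F (T t88 (T t52 (T t89 (T t90 (K a64 (M a16 (F (T t97 (L l77 (L l84 (T t96 (L l116 (T t98 N)))))))) (K a192 (M a16 (F (T t112 (L l77 (T t96 (L l296 (T t98 N))))))) (K a21 (M a48 (F (T t99 (L l298 (T t50 (L l47 (T t100 N))))))) (K a149 (M a16 (F (T t112 (L l77 (T t173 (L l170 (T t102 N))))))) (K a213 (Fr a170 a255 l476 (Fr a42 a21 l68 (Fr a106 a234 l390 (Fr a192 a149 l519 (V t581))))) (K a42 (M a48 (F (T t364 (L l298 (L l390 (T t50 (L l28 (T t100 N)))))))) (K a106 (M a48 (F (T t1 (L l77 (L l104 (T t509 (L l298 (L l390 (T t50 N))))))))) (K a170 (M a16 (F (L l404 (T t113 (L l390 (T t98 (L l390 (L l404 (T t97 (L l404 (T t174 N))))))))))) (K a255 (M a16 (F (T t112 (L l289 (T t113 (L l289 (L l296 (T t98 N)))))))) N)))))))))))))))⟩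
def e0_63__70_212 : Ent 4 := ⟨[a0, a63], [a70, a217], (M a149 (F (T t177 (L l243 (T t5 (L l284 (T t175 (L l243 (T t176 (K a192 (M a53 (F (T t178 (L l236 (T t179 (L l77 (L l236 (L l243 (L l296 (T t180 N)))))))))) (K a21 (M a48 (F (T t4 (T t13 (L l18 (T t14 N)))))) (K a85 (M a16 (F (T t97 (L l144 (T t190 (L l94 (T t278 N))))))) (K a213 (Fr a106 a192 l519 (Fr a42 a21 l68 (Fr a170 a234 l390 (Fr a255 a85 l476 (V t582))))) (K a42 (M a48 (F (T t187 (L l390 (T t13 (L l54 (T t14 N))))))) (K a106 (M a48 (F (T t1 (L l498 (T t14 (L l243 (L l390 (L l498 (T t6 (L l243 (L l390 (T t26 N)))))))))))) (K a170 (M a48 (F (T t4 (L l462 (T t1 (L l390 (T t13 N))))))) (K a191 (M a240 (F (T t962 (L l243 (L l315 (T t963 N)))))) (K a255 (M a16 (F (T t112 (L l266 (T t190 (L l243 (L l289 (L l296 (T t191 N))))))))) N))))))))))))))))))⟩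
def e0_63__70_213 : Ent 4 := ⟨[a0, a63], [a70, a218], (M a85 (F (T t90 (L l246 (T t88 (L l282 (T t52 (L l246 (T t89 (K a64 (M a240 (F (T t386 (L l246 (T t2099 N))))) (K a192 (M a48 (F (T t610 (L l77 (L l246 (T t509 (L l268 (L l303 (T t50 N))))))))) (K a21 (M a48 (F (L l246 (T t99 (L l47 (T t567 (L l47 (L l246 (L l282 (T t100 N)))))))))) (K a149 (M a48 (F (T t2 (L l246 (T t99 (L l220 (L l303 (T t50 N)))))))) (K a213 (Fr a170 a255 l476 (Fr a42 a21 l68 (Fr a106 a234 l390 (Fr a192 a149 l519 (V t581))))) (K a42 (M a48 (F (T t364 (L l390 (T t567 (L l28 (L l246 (L l282 (T t100 N))))))))) (K a106 (M a48 (F (T t1 (L l77 (L l104 (L l246 (T t509 (L l303 (L l390 (T t50 N)))))))))) (K a170 (M a4 (F (L l464 (T t130 (L l77 (L l246 (L l390 (T t131 (L l390 (L l464 (T t519 (L l464 (T t938 N))))))))))))) (K a255 (M a4 (F (T t129 (L l265 (T t130 (L l77 (L l246 (L l265 (L l296 (T t131 N)))))))))) N))))))))))))))))))⟩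
def e0_63__70_214 : Ent 4 := ⟨[a0, a63], [a70, a219], (M a149 (F (T t5 (T t175 (T t176 (T t177 (K a192 (M a53 (F (T t178 (L l236 (T t179 (L l77 (L l236 (L l296 (T t180 N))))))))) (K a21 (M a48 (F (T t4 (T t13 (L l18 (T t14 N)))))) (K a85 (M a16 (F (T t97 (L l144 (T t190 (L l94 (T t278 N))))))) (K a213 (Fr a106 a192 l519 (Fr a42 a21 l68 (Fr a170 a234 l390 (Fr a255 a85 l476 (V t582))))) (K a42 (M a48 (F (T t187 (L l390 (T t13 (L l54 (T t14 N))))))) (K a106 (M a48 (F (T t1 (L l498 (T t14 (L l390 (L l498 (T t6 (L l245 (L l390 (T t26 N))))))))))) (K a170 (M a48 (F (T t4 (L l462 (T t1 (L l390 (T t13 N))))))) (K a191 (M a240 (F (T t962 (L l315 (T t963 N))))) (K a255 (M a16 (F (T t112 (L l266 (T t190 (L l245 (L l289 (L l296 (T t191 N))))))))) N)))))))))))))))⟩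
def e0_63__70_215 : Ent 4 := ⟨[a0, a63], [a70, a220], (M a85 (F (T t88 (T t52 (T t89 (T t90 (K a64 (M a48 (F (T t50 (L l241 (T t568 N))))) (K a192 (M a16 (F (T t112 (L l77 (L l241 (T t96 (L l241 (L l296 (T t98 N))))))))) (K a21 (M a48 (F (L l241 (T t99 (T t50 (L l47 (L l241 (T t100 N)))))))) (K a149 (M a16 (F (T t112 (L l77 (L l241 (T t173 (L l170 (T t102 N)))))))) (K a213 (Fr a170 a255 l476 (Fr a42 a21 l68 (Fr a106 a234 l390 (Fr a192 a149 l519 (V t581))))) (K a42 (M a48 (F (L l364 (T t364 (L l390 (T t50 (L l28 (L l241 (T t100 N))))))))) (K a106 (M a48 (F (T t1 (L l77 (L l104 (L l241 (T t509 (L l390 (T t50 N))))))))) (K a170 (M a16 (F (L l390 (L l404 (T t112 (L l241 (L l390 (T t98 (L l241 (L l404 (T t113 (L l241 (L l404 (T t174 N)))))))))))))) (K a255 (M a16 (F (T t112 (L l241 (L l289 (T t113 (L l241 (L l289 (L l296 (T t98 N)))))))))) N)))))))))))))))⟩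
def e0_63__70_216 : Ent 4 := ⟨[a0, a63], [a70, a221], (M a149 (F (T t175 (L l243 (T t5 (L l243 (L l290 (T t176 (L l290 (T t177 (K a192 (M a53 (F (T t178 (L l236 (T t179 (L l77 (L l236 (L l243 (L l296 (T t180 N)))))))))) (K a21 (M a48 (F (T t4 (T t13 (L l18 (T t14 N)))))) (K a85 (M a17 (F (L l359 (T t1279 (L l144 (L l243 (T t1280 (L l91 (T t1281 N))))))))) (K a213 (Fr a106 a192 l519 (Fr a42 a21 l68 (Fr a170 a234 l390 (Fr a255 a85 l476 (V t582))))) (K a42 (M a48 (F (T t187 (L l390 (T t13 (L l54 (T t14 N))))))) (K a106 (M a48 (F (T t1 (L l498 (T t14 (L l243 (L l390 (L l498 (T t6 (L l241 (L l243 (L l390 (T t26 N))))))))))))) (K a170 (M a48 (F (T t4 (L l462 (T t1 (L l390 (T t13 N))))))) (K a191 (M a240 (F (T t962 (L l243 (L l315 (T t963 N)))))) (K a255 (M a204 (F (T t2100 (L l85 (L l470 (T t1283 (L l243 (L l296 (L l439 (T t1055 (L l124 (L l359 (T t1284 N))))))))))))) N)))))))))))))))))))⟩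
def e0_63__70_217 : Ent 4 := ⟨[a0, a63], [a70, a222], (M a149 (F (T t5 (T t175 (T t176 (T t177 (K a192 (M a53 (F (T t178 (L l236 (T t179 (L l77 (L l236 (L l296 (T t180 N))))))))) (K a21 (M a48 (F (T t4 (T t13 (L l18 (T t14 N)))))) (K a85 (M a16 (F (T t97 (L l144 (T t190 (L l94 (T t278 N))))))) (K a213 (Fr a106 a192 l519 (Fr a42 a21 l68 (Fr a170 a234 l390 (Fr a255 a85 l476 (V t582))))) (K a42 (M a48 (F (T t187 (L l390 (T t13 (L l54 (T t14 N))))))) (K a106 (M a48 (F (T t1 (L l498 (T t14 (L l390 (L l498 (T t6 (L l241 (L l390 (T t26 N))))))))))) (K a170 (M a48 (F (T t4 (L l462 (T t1 (L l390 (T t13 N))))))) (K a191 (M a240 (F (T t962 (L l315 (T t963 N))))) (K a255 (M a16 (F (T t112 (L l266 (T t190 (L l241 (L l289 (L l296 (T t191 N))))))))) N)))))))))))))))⟩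
def e0_63__70_218 : Ent 4 := ⟨[a0, a63], [a70, a223], (M a149 (F (T t175 (L l246 (T t5 (L l246 (L l289 (T t176 (L l289 (T t177 (K a192 (M a53 (F (T t178 (L l236 (L l289 (L l368 (T t179 (L l77 (L l236 (L l246 (L l296 (T t180 N)))))))))))) (K a21 (M a48 (F (T t4 (T t13 (L l18 (L l289 (L l368 (T t14 N)))))))) (K a85 (M a16 (F (L l361 (T t97 (L l144 (L l246 (T t190 (L l94 (T t278 N))))))))) (K a213 (Fr a106 a192 l519 (Fr a42 a21 l68 (Fr a170 a234 l390 (Fr a255 a85 l476 (V t582))))) (K a42 (M a48 (F (T t11 (L l390 (T t13 (L l54 (L l289 (L l368 (T t14 N))))))))) (K a106 (M a48 (F (T t1 (L l104 (L l144 (L l246 (L l289 (L l361 (L l390 (T t1285 (L l289 (L l368 (L l498 (T t14 N)))))))))))))) (K a170 (M a48 (F (T t4 (L l462 (T t1 (L l390 (T t13 N))))))) (K a191 (M a16 (F (T t112 (L l246 (T t190 (T t278 N)))))) (K a255 (M a207 (F (T t1286 (L l77 (L l469 (T t1287 (L l246 (L l296 (L l330 (T t1288 (L l361 (T t1289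 N)))))))))))) N)))))))))))))))))))⟩
def e0_63__70_219 : Ent 4 := ⟨[a0, a63], [a70, a224], (M a12 (F (T t122 (T t151 (T t152 (T t153 (K a4 (M a60 (F (T t398 (L l46 (L l50 (L l333 (T t67 (T t448 N)))))))) (K a8 (M a60 (F (T t398 (L l333 (T t67 (L l52 (L l56 (T t448 N)))))))) (K a21 (M a192 (F (T t1725 (L l15 (L l248 (L l347 (T t450 (L l15 (L l248 (L l347 (T t157 N))))))))))) (K a25 (M a192 (F (T t467 (L l85 (L l333 (T t156 (T t21 N))))))) (K a29 (M a192 (F (T t496 (L l371 (T t21 (L l411 (T t160 N))))))) (K a38 (M a192 (F (T t467 (L l85 (L l333 (T t156 (T t21 N))))))) (K a42 (M a192 (F (T t467 (L l85 (L l333 (T t156 (L l56 (L l248 (T t157 N))))))))) (K a46 (M a192 (F (T t21 (L l85 (L l333 (T t156 (L l26 (L l408 (L l411 (T t160 N)))))))))) (K a51 (M a192 (F (T t47 (L l85 (L l333 (L l513 (T t156 (L l248 (L l415 (T t450 N)))))))))) N)))))))))))))))⟩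
def e0_63__70_220 : Ent 4 := ⟨[a0, a63], [a70, a225], (M a85 (F (T t88 (T t52 (T t89 (T t90 (K a64 (M a16 (F (T t97 (L l77 (L l84 (T t96 (L l116 (T t98 N)))))))) (K a192 (M a16 (F (T t260 (L l339 (T t97 (L l296 (T t98 N))))))) (K a21 (M a48 (F (T t99 (L l273 (T t50 (L l47 (T t100 N))))))) (K a149 (M a16 (F (T t112 (L l77 (T t173 (L l170 (T t102 N))))))) (K a213 (Fr a170 a255 l476 (Fr a42 a21 l68 (Fr a106 a234 l390 (Fr a192 a149 l519 (V t581))))) (K a42 (M a48 (F (T t364 (L l273 (L l390 (T t50 (L l28 (T t100 N)))))))) (K a106 (M a48 (F (T t1 (L l77 (L l104 (T t509 (L l273 (L l390 (T t50 N))))))))) (K a170 (M a16 (F (L l404 (T t113 (L l390 (T t98 (L l390 (L l404 (T t97 (L l404 (T t174 N))))))))))) (K a255 (M a16 (F (T t112 (L l289 (T t113 (L l289 (L l296 (T t98 N)))))))) N)))))))))))))))⟩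
def e0_63__70_221 : Ent 4 := ⟨[a0, a63], [a70, a226], (M a48 (F (T t1 (T t2 (T t3 (T t0 (K a16 (M a60 (F (T t64 (L l14 (L l18 (L l333 (T t67 (T t65 N)))))))) (K a32 (M a60 (F (T t64 (L l333 (T t67 (L l24 (L l28 (T t65 N)))))))) (K a21 (M a192 (F (T t837 (L l47 (L l347 (T t20 (L l47 (L l347 (T t29 N))))))))) (K a37 (M a192 (F (T t27 (L l47 (T t20 (T t21 N)))))) (K a53 (M a192 (F (T t837 (L l491 (T t21 (L l408 (T t31 N))))))) (K a26 (M a192 (F (T t837 (T t20 (T t21 N))))) (K a42 (M a192 (F (T t27 (T t20 (L l28 (T t29 N)))))) (K a58 (M a192 (F (T t27 (T t21 (L l54 (L l408 (L l498 (T t31 N)))))))) (K a15 (M a192 (F (T t47 (L l483 (T t27 (L l325 (T t20 N))))))) N)))))))))))))))⟩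
def e0_63__70_222 : Ent 4 := ⟨[a0, a63], [a70, a227], (M a85 (F (T t88 (T t52 (T t89 (T t90 (K a64 (M a60 (F (T t114 (T t115 N)))) (K a192 (M a16 (F (L l380 (T t112 (L l77 (L l296 (T t666 (L l296 (T t98 N))))))))) (K a21 (M a48 (F (L l380 (T t99 (T t50 (L l47 (L l380 (T t100 N)))))))) (K a149 (M a16 (F (L l380 (T t112 (L l77 (T t666 (L l170 (T t102 N)))))))) (K a213 (Fr a170 a255 l476 (Fr a42 a21 l68 (Fr a106 a234 l390 (Fr a192 a149 l519 (V t581))))) (K a42 (M a48 (F (L l255 (T t364 (L l390 (T t50 (L l28 (L l380 (T t100 N))))))))) (K a106 (M a48 (F (T t1 (L l77 (L l104 (L l380 (T t509 (L l390 (T t50 N))))))))) (K a170 (M a16 (F (L l380 (L l404 (T t113 (L l390 (T t98 (L l380 (L l390 (L l404 (T t97 (L l380 (L l404 (T t174 N)))))))))))))) (K a255 (M a16 (F (L l380 (T t112 (L l289 (L l296 (T t98 (L l289 (L l380 (T t113 N)))))))))) N)))))))))))))))⟩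
def e0_63__70_223 : Ent 4 := ⟨[a0, a63], [a70, a228], (M a85 (F (T t88 (T t52 (T t89 (T t90 (K a64 (M a16 (F (T t97 (L l77 (L l84 (T t96 (L l116 (T t98 N)))))))) (K a192 (M a16 (F (T t260 (L l339 (T t97 (L l296 (T t98 N))))))) (K a21 (M a48 (F (T t99 (L l298 (T t50 (L l47 (T t100 N))))))) (K a149 (M a16 (F (T t112 (L l77 (T t173 (L l170 (T t102 N))))))) (K a213 (Fr a170 a255 l476 (Fr a42 a21 l68 (Fr a106 a234 l390 (Fr a192 a149 l519 (V t581))))) (K a42 (M a48 (F (T t364 (L l298 (L l390 (T t50 (L l28 (T t100 N)))))))) (K a106 (M a48 (F (T t1 (L l77 (L l104 (T t509 (L l298 (L l390 (T t50 N))))))))) (K a170 (M a16 (F (L l404 (T t113 (L l390 (T t98 (L l390 (L l404 (T t97 (L l404 (T t174 N))))))))))) (K a255 (M a16 (F (T t112 (L l289 (T t113 (L l289 (L l296 (T t98 N)))))))) N)))))))))))))))⟩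
def e0_63__70_224 : Ent 4 := ⟨[a0, a63], [a70, a229], (M a149 (F (T t177 (L l275 (T t5 (L l256 (T t175 (L l275 (T t176 (K a192 (M a29 (F (T t956 (L l272 (T t641 (L l272 (L l275 (L l296 (T t957 N))))))))) (K a21 (M a48 (F (T t1267 (L l18 (L l256 (L l275 (T t14 (L l303 (T t13 N))))))))) (K a85 (M a16 (F (T t97 (L l144 (L l303 (T t190 (L l94 (T t278 N)))))))) (K a213 (Fr a106 a192 l519 (Fr a42 a21 l68 (Fr a170 a234 l390 (Fr a255 a85 l476 (V t582))))) (K a42 (M a48 (F (T t11 (L l390 (T t1274 (L l54 (L l256 (L l275 (T t14 N))))))))) (K a106 (M a12 (F (T t122 (L l408 (T t649 (L l275 (L l390 (L l408 (T t960 (L l275 (L l390 (T t961 N)))))))))))) (K a170 (M a48 (F (T t3 (T t11 (L l303 (L l390 (T t13 N))))))) (K a191 (M a240 (F (T t962 (L l275 (L l315 (T t2009 N)))))) (K a255 (M a16 (F (T t112 (L l266 (L l303 (T t190 (L l275 (L l289 (L l296 (T t191 N)))))))))) N))))))))))))))))))⟩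
def e0_63__70_225 : Ent 4 := ⟨[a0, a63], [a70, a230], (M a149 (F (T t177 (L l278 (T t5 (L l254 (T t175 (L l278 (T t176 (K a192 (M a53 (F (T t178 (L l236 (T t179 (L l77 (L l236 (L l278 (L l296 (T t180 N)))))))))) (K a21 (M a48 (F (T t4 (T t13 (L l18 (T t14 N)))))) (K a85 (M a16 (F (T t97 (L l144 (T t190 (L l94 (T t278 N))))))) (K a213 (Fr a106 a192 l519 (Fr a42 a21 l68 (Fr a170 a234 l390 (Fr a255 a85 l476 (V t582))))) (K a42 (M a48 (F (T t187 (L l390 (T t13 (L l54 (T t14 N))))))) (K a106 (M a48 (F (T t1 (L l498 (T t14 (L l278 (L l390 (L l498 (T t6 (L l278 (L l390 (T t26 N)))))))))))) (K a170 (M a48 (F (T t4 (L l462 (T t1 (L l390 (T t13 N))))))) (K a191 (M a240 (F (T t962 (L l278 (L l315 (T t963 N)))))) (K a255 (M a16 (F (T t112 (L l266 (T t190 (L l278 (L l289 (L l296 (T t191 N))))))))) N))))))))))))))))))⟩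
def e0_63__70_226 : Ent 4 := ⟨[a0, a63], [a70, a231], (M a149 (F (T t5 (T t175 (T t176 (T t177 (K a192 (M a53 (F (T t178 (L l236 (L l255 (T t179 (L l77 (L l236 (L l296 (T t180 N)))))))))) (K a21 (M a48 (F (T t4 (T t13 (L l18 (L l255 (T t14 N))))))) (K a85 (M a16 (F (T t97 (L l144 (T t190 (L l94 (T t278 N))))))) (K a213 (Fr a106 a192 l519 (Fr a42 a21 l68 (Fr a170 a234 l390 (Fr a255 a85 l476 (V t582))))) (K a42 (M a48 (F (T t11 (L l390 (T t13 (L l54 (L l255 (T t14 N)))))))) (K a106 (M a48 (F (T t1 (L l255 (L l498 (T t14 (L l390 (L l498 (T t6 (L l390 (T t26 N))))))))))) (K a170 (M a48 (F (T t4 (L l462 (T t1 (L l390 (T t13 N))))))) (K a191 (M a240 (F (T t962 (L l315 (T t963 N))))) (K a255 (M a16 (F (T t112 (L l266 (T t190 (L l289 (L l296 (T t191 N)))))))) N)))))))))))))))⟩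
def e0_63__70_227 : Ent 4 := ⟨[a0, a63], [a70, a232], (M a48 (F (T t1 (T t2 (T t3 (T t0 (K a16 (M a60 (F (T t64 (L l14 (L l18 (L l333 (L l393 (T t67 (L l388 (T t65 N)))))))))) (K a32 (M a60 (F (T t64 (L l333 (L l393 (T t67 (L l24 (L l28 (L l388 (T t65 N)))))))))) (K a21 (M a192 (F (T t837 (L l47 (L l347 (T t20 (L l47 (L l347 (T t29 N))))))))) (K a37 (M a192 (F (T t27 (L l47 (T t20 (T t21 N)))))) (K a53 (M a192 (F (T t837 (L l491 (T t21 (L l393 (T t31 N))))))) (K a26 (M a192 (F (T t837 (T t20 (T t21 N))))) (K a42 (M a192 (F (T t27 (T t20 (L l28 (T t29 N)))))) (K a58 (M a192 (F (T t27 (T t21 (L l54 (L l393 (L l498 (T t31 N)))))))) (K a15 (M a192 (F (T t47 (L l483 (T t27 (L l325 (T t20 N))))))) N)))))))))))))))⟩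
def e0_63__70_228 : Ent 4 := ⟨[a0, a63], [a70, a233], (M a149 (F (T t177 (L l293 (T t5 (L l250 (T t175 (L l293 (T t176 (K a192 (M a53 (F (T t178 (L l236 (T t179 (L l77 (L l236 (L l293 (L l296 (T t180 N)))))))))) (K a21 (M a48 (F (T t4 (T t13 (L l18 (T t14 N)))))) (K a85 (M a16 (F (T t97 (L l144 (T t190 (L l94 (T t278 N))))))) (K a213 (Fr a106 a192 l519 (Fr a42 a21 l68 (Fr a170 a234 l390 (Fr a255 a85 l476 (V t582))))) (K a42 (M a48 (F (T t187 (L l390 (T t13 (L l54 (T t14 N))))))) (K a106 (M a48 (F (T t1 (L l498 (T t14 (L l293 (L l390 (L l498 (T t6 (L l293 (L l390 (T t26 N)))))))))))) (K a170 (M a48 (F (T t4 (L l462 (T t1 (L l390 (T t13 N))))))) (K a191 (M a240 (F (T t962 (L l293 (L l315 (T t963 N)))))) (K a255 (M a16 (F (T t112 (L l266 (T t190 (L l289 (L l293 (L l296 (T t191 N))))))))) N))))))))))))))))))⟩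
def e0_63__70_229 : Ent 4 := ⟨[a0, a63], [a70, a234], (M a48 (F (T t1 (L l390 (T t2 (T t3 (L l390 (T t0 (K a16 (M a60 (F (T t64 (L l14 (L l18 (L l333 (T t67 (L l390 (T t65 N))))))))) (K a32 (M a60 (F (T t64 (L l333 (T t67 (L l24 (L l28 (L l390 (T t65 N))))))))) (K a21 (M a192 (F (T t837 (L l47 (L l282 (L l347 (T t20 (L l47 (L l282 (L l347 (T t29 N))))))))))) (K a37 (M a192 (F (T t27 (L l47 (L l282 (T t20 (L l390 (T t202 N)))))))) (K a53 (M a192 (F (T t27 (L l390 (T t202 (L l390 (T t577 N))))))) (K a26 (M a192 (F (T t27 (L l282 (T t20 (L l390 (T t202 N))))))) (K a42 (M a106 (F (T t578 (L l28 (L l282 (T t579 (T t551 N))))))) (K a58 (M a192 (F (T t27 (L l390 (L l498 (T t202 (L l390 (L l498 (T t577 N))))))))) (K a15 (M a192 (F (T t55 (L l282 (L l325 (T t20 (L l390 (L l469 (T t202 N))))))))) N)))))))))))))))))⟩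
def e0_63__70_230 : Ent 4 := ⟨[a0, a63], [a70, a235], (M a48 (F (T t1 (T t2 (T t3 (T t0 (K a16 (M a60 (F (T t64 (L l14 (L l18 (L l333 (L l391 (T t67 (L l392 (T t65 N)))))))))) (K a32 (M a60 (F (T t64 (L l333 (L l391 (T t67 (L l24 (L l28 (L l392 (T t65 N)))))))))) (K a21 (M a192 (F (T t837 (L l47 (L l347 (T t20 (L l47 (L l347 (T t29 N))))))))) (K a37 (M a192 (F (T t19 (L l47 (T t20 (L l295 (T t21 N))))))) (K a53 (M a192 (F (T t19 (L l295 (L l491 (T t21 (T t31 N))))))) (K a26 (M a192 (F (T t27 (T t20 (L l295 (T t21 N)))))) (K a42 (M a192 (F (T t19 (T t20 (L l28 (T t29 N)))))) (K a58 (M a192 (F (T t19 (L l295 (T t21 (L l54 (L l498 (T t31 N)))))))) (K a15 (M a170 (F (T t2101 (L l250 (L l255 (T t324 N)))))) N)))))))))))))))⟩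
def e0_63__70_231 : Ent 4 := ⟨[a0, a63], [a70, a236], (M a85 (F (T t88 (T t52 (T t89 (T t90 (K a64 (M a252 (F (T t91 (L l400 (T t92 N))))) (K a192 (M a16 (F (L l400 (T t112 (L l77 (L l296 (T t666 (L l296 (T t98 N))))))))) (K a21 (M a48 (F (L l400 (T t99 (T t50 (L l47 (L l400 (T t100 N)))))))) (K a149 (M a16 (F (L l400 (T t112 (L l77 (T t666 (L l170 (T t102 N)))))))) (K a213 (Fr a170 a255 l476 (Fr a42 a21 l68 (Fr a106 a234 l390 (Fr a192 a149 l519 (V t581))))) (K a42 (M a48 (F (L l251 (T t364 (L l390 (T t50 (L l28 (L l400 (T t100 N))))))))) (K a106 (M a48 (F (T t1 (L l77 (L l104 (L l400 (T t509 (L l390 (T t50 N))))))))) (K a170 (M a16 (F (L l400 (L l404 (T t113 (L l390 (T t98 (L l390 (L l400 (L l404 (T t97 (L l400 (L l404 (T t174 N)))))))))))))) (K a255 (M a16 (F (L l400 (T t112 (L l289 (L l296 (T t98 (L l289 (L l400 (T t113 N)))))))))) N)))))))))))))))⟩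
def e0_63__70_232 : Ent 4 := ⟨[a0, a63], [a70, a237], (M a149 (F (T t5 (T t175 (T t176 (T t177 (K a192 (M a53 (F (T t178 (L l236 (L l251 (T t179 (L l77 (L l236 (L l296 (T t180 N)))))))))) (K a21 (M a48 (F (T t4 (T t13 (L l18 (L l251 (T t14 N))))))) (K a85 (M a16 (F (T t97 (L l144 (T t190 (L l94 (T t278 N))))))) (K a213 (Fr a106 a192 l519 (Fr a42 a21 l68 (Fr a170 a234 l390 (Fr a255 a85 l476 (V t582))))) (K a42 (M a48 (F (T t11 (L l390 (T t13 (L l54 (L l251 (T t14 N)))))))) (K a106 (M a48 (F (T t1 (L l251 (L l498 (T t14 (L l390 (L l498 (T t6 (L l390 (T t26 N))))))))))) (K a170 (M a48 (F (T t4 (L l462 (T t1 (L l390 (T t13 N))))))) (K a191 (M a240 (F (T t962 (L l315 (T t963 N))))) (K a255 (M a16 (F (T t112 (L l266 (T t190 (L l289 (L l296 (T t191 N)))))))) N)))))))))))))))⟩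
def e0_63__70_233 : Ent 4 := ⟨[a0, a63], [a70, a238], (M a48 (F (T t1 (T t2 (T t3 (T t0 (K a16 (M a60 (F (T t64 (L l14 (L l18 (L l333 (T t67 (T t65 N)))))))) (K a32 (M a60 (F (T t64 (L l333 (T t67 (L l24 (L l28 (T t65 N)))))))) (K a21 (M a192 (F (T t837 (L l47 (L l347 (T t20 (L l47 (L l347 (T t29 N))))))))) (K a37 (M a192 (F (T t19 (L l47 (T t20 (L l290 (T t21 N))))))) (K a53 (M a192 (F (T t19 (L l290 (L l491 (T t21 (T t31 N))))))) (K a26 (M a192 (F (T t27 (T t20 (L l290 (T t21 N)))))) (K a42 (M a192 (F (T t19 (T t20 (L l28 (T t29 N)))))) (K a58 (M a192 (F (T t19 (L l290 (T t21 (L l54 (L l498 (T t31 N)))))))) (K a15 (M a170 (F (T t2101 (L l251 (L l254 (T t324 N)))))) N)))))))))))))))⟩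
def e0_63__70_234 : Ent 4 := ⟨[a0, a63], [a70, a239], (M a48 (F (T t1 (T t2 (L l397 (T t3 (L l404 (T t0 (K a16 (M a60 (F (T t64 (L l14 (L l18 (L l333 (T t67 (T t65 N)))))))) (K a32 (M a170 (F (T t2102 (T t514 (L l256 (T t580 N)))))) (K a21 (M a192 (F (T t27 (L l47 (L l289 (L l347 (T t20 (L l47 (L l289 (L l347 (L l404 (T t29 N)))))))))))) (K a37 (M a192 (F (T t837 (L l47 (L l289 (T t20 (L l289 (T t21 N)))))))) (K a53 (M a192 (F (T t27 (L l289 (L l491 (T t21 (T t31 N))))))) (K a26 (M a192 (F (T t27 (L l289 (T t20 (L l289 (T t21 N))))))) (K a42 (M a192 (F (T t837 (L l289 (T t20 (L l28 (L l289 (L l404 (T t29 N))))))))) (K a58 (M a192 (F (T t837 (L l289 (T t21 (L l54 (L l498 (T t31 N)))))))) (K a15 (M a192 (F (T t1681 (L l483 (T t27 (L l289 (L l325 (T t20 N)))))))) N)))))))))))))))))⟩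
def e0_63__70_235 : Ent 4 := ⟨[a0, a63], [a70, a240], (M a48 (F (T t48 (L l483 (T t1 (L l483 (T t2 (L l483 (T t3 (L l483 (T t0 (K a16 (M a60 (F (T t138 (L l14 (L l18 (L l333 (L l453 (T t67 (T t65 N))))))))) (K a32 (M a60 (F (T t138 (L l333 (L l453 (T t67 (L l24 (L l28 (T t65 N))))))))) (K a21 (M a101 (F (T t440 (L l18 (L l303 (L l330 (T t334 (L l18 (T t314 N))))))))) (K a37 (M a52 (F (T t555 (L l478 (T t82 (L l21 (L l28 (T t84 N)))))))) (K a53 (M a12 (F (T t145 (L l47 (L l417 (T t122 (L l47 (T t146 N)))))))) (K a26 (M a56 (F (T t556 (L l478 (T t133 (L l12 (L l18 (T t135 N)))))))) (K a42 (M a101 (F (T t2103 (L l54 (L l268 (T t313 (L l54 (T t314 N)))))))) (K a58 (M a12 (F (T t145 (L l417 (T t122 (T t146 N)))))) (K a15 (M a4 (L l483 (F (T t129 (L l63 (L l442 (T t528 (T t520 (K a165 (M a90 (F (T t558 (L l73 (L l417 (T t519 (T t520 N))))))) (K a90 (M a165 (F (T t558 (L l73 (L l417 (T t519 (T t520 N)))))))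 N)))))))))) N))))))))))))))))))))⟩
def e0_63__70_236 : Ent 4 := ⟨[a0, a63], [a70, a241], (M a149 (F (T t5 (T t175 (T t176 (T t177 (K a192 (M a53 (F (T t178 (L l236 (T t179 (L l77 (L l236 (L l296 (L l443 (T t180 N)))))))))) (K a21 (M a48 (F (T t4 (L l258 (T t13 (L l18 (T t14 N))))))) (K a85 (M a16 (F (T t97 (L l144 (L l258 (T t190 (L l94 (T t278 N)))))))) (K a213 (Fr a106 a192 l519 (Fr a42 a21 l68 (Fr a170 a234 l390 (Fr a255 a85 l476 (V t582))))) (K a42 (M a48 (F (T t187 (L l258 (L l390 (T t13 (L l54 (T t14 N)))))))) (K a106 (M a48 (F (T t1 (L l498 (T t14 (L l390 (L l498 (T t6 (L l390 (T t26 N)))))))))) (K a170 (M a48 (F (T t4 (L l462 (T t1 (L l258 (L l390 (T t13 N)))))))) (K a191 (M a240 (F (T t1091 (L l263 (L l315 (T t963 N)))))) (K a255 (M a16 (F (T t112 (L l258 (L l266 (T t190 (L l289 (L l296 (T t191 N))))))))) N)))))))))))))))⟩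
def e0_63__70_237 : Ent 4 := ⟨[a0, a63], [a70, a242], (M a149 (F (T t5 (T t175 (T t176 (T t177 (K a192 (M a53 (F (T t178 (L l236 (T t179 (L l77 (L l236 (L l296 (T t180 N))))))))) (K a21 (M a48 (F (T t4 (L l258 (T t13 (L l18 (T t14 N))))))) (K a85 (M a16 (F (T t97 (L l144 (L l258 (T t190 (L l94 (L l480 (T t278 N))))))))) (K a213 (Fr a106 a192 l519 (Fr a42 a21 l68 (Fr a170 a234 l390 (Fr a255 a85 l476 (V t582))))) (K a42 (M a48 (F (T t187 (L l258 (L l390 (T t13 (L l54 (T t14 N)))))))) (K a106 (M a48 (F (T t1 (L l498 (T t14 (L l390 (L l498 (T t6 (L l390 (T t26 N)))))))))) (K a170 (M a48 (F (T t4 (L l462 (T t1 (L l258 (L l390 (T t13 N)))))))) (K a191 (M a240 (F (T t962 (L l315 (L l444 (T t963 N)))))) (K a255 (M a16 (F (T t112 (L l258 (L l266 (T t190 (L l289 (L l296 (T t191 N))))))))) N)))))))))))))))⟩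
def e0_63__70_238 : Ent 4 := ⟨[a0, a63], [a70, a243], (M a48 (F (T t48 (L l481 (T t1 (L l481 (T t2 (L l481 (T t3 (L l481 (T t0 (K a16 (M a60 (F (T t138 (L l14 (L l18 (L l333 (L l451 (T t67 (T t65 N))))))))) (K a32 (M a60 (F (T t138 (L l333 (L l451 (T t67 (L l24 (L l28 (T t65 N))))))))) (K a21 (M a192 (F (T t54 (L l258 (T t27 (L l47 (L l347 (T t29 N)))))))) (K a37 (M a192 (F (T t53 (L l258 (T t27 (L l265 (T t21 N))))))) (K a53 (M a192 (F (T t55 (L l265 (L l491 (T t21 (T t31 N))))))) (K a26 (M a192 (F (T t33 (L l258 (T t27 (L l265 (T t21 N))))))) (K a42 (M a192 (F (T t56 (L l258 (T t27 (L l28 (T t29 N))))))) (K a58 (M a192 (F (T t57 (L l258 (T t27 (L l54 (L l498 (T t31 N)))))))) (K a15 (M a192 (L l481 (F (T t47 (L l258 (L l483 (T t27 (L l301 (L l325 (T t20 (K a167 (M a91 (F (T t1800 (L l301 (L l325 (T t22 (L l258 (L l483 (T t28 N))))))))) (K a91 (M a167 (F (T t1800 (L l301 (L l325 (T t22 (L l258 (L l483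 (T t28 N))))))))) N)))))))))))) N))))))))))))))))))))⟩
def e0_63__70_239 : Ent 4 := ⟨[a0, a63], [a70, a244], (M a149 (F (T t5 (T t175 (T t176 (T t177 (K a192 (M a53 (F (T t178 (L l236 (T t179 (L l77 (L l236 (L l296 (L l423 (T t180 N)))))))))) (K a21 (M a48 (F (T t4 (L l262 (T t13 (L l18 (T t14 N))))))) (K a85 (M a16 (F (T t97 (L l144 (L l262 (T t190 (L l94 (T t278 N)))))))) (K a213 (Fr a106 a192 l519 (Fr a42 a21 l68 (Fr a170 a234 l390 (Fr a255 a85 l476 (V t582))))) (K a42 (M a48 (F (T t187 (L l262 (L l390 (T t13 (L l54 (T t14 N)))))))) (K a106 (M a48 (F (T t1 (L l498 (T t14 (L l390 (L l498 (T t6 (L l390 (T t26 N)))))))))) (K a170 (M a48 (F (T t4 (L l462 (T t1 (L l262 (L l390 (T t13 N)))))))) (K a191 (M a240 (F (T t1091 (L l259 (L l315 (T t963 N)))))) (K a255 (M a16 (F (T t112 (L l262 (L l266 (T t190 (L l289 (L l296 (T t191 N))))))))) N)))))))))))))))⟩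
def e0_63__70_240 : Ent 4 := ⟨[a0, a63], [a70, a245], (M a149 (F (T t175 (L l275 (T t5 (L l266 (L l275 (T t176 (L l266 (T t177 (K a192 (M a29 (F (T t956 (L l272 (T t641 (L l272 (L l275 (L l296 (T t957 N))))))))) (K a21 (M a48 (F (T t7 (L l18 (L l275 (T t14 (L l266 (T t13 N)))))))) (K a85 (M a5 (F (L l419 (T t1110 (L l82 (L l144 (L l275 (T t2104 (L l123 (L l315 (L l330 (T t2105 N)))))))))))) (K a213 (Fr a106 a192 l519 (Fr a42 a21 l68 (Fr a170 a234 l390 (Fr a255 a85 l476 (V t582))))) (K a42 (M a48 (F (L l419 (T t187 (L l266 (L l390 (T t13 (L l54 (L l275 (T t14 N)))))))))) (K a106 (M a12 (F (T t122 (L l408 (T t649 (L l275 (L l390 (L l408 (T t960 (L l259 (L l275 (L l390 (T t961 N))))))))))))) (K a170 (M a48 (F (T t3 (L l419 (T t11 (L l266 (L l390 (T t13 N)))))))) (K a191 (M a16 (F (T t97 (L l266 (T t190 (L l213 (L l275 (T t191 N)))))))) (K a255 (M a240 (F (T t2106 (L l440 (T t1091 (L l275 (L l296 (L l469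 (T t1092 (L l315 (L l419 (T t2107 N)))))))))))) N)))))))))))))))))))⟩
def e0_63__70_241 : Ent 4 := ⟨[a0, a63], [a70, a246], (M a149 (F (T t5 (T t175 (T t176 (T t177 (K a192 (M a53 (F (T t178 (L l236 (T t179 (L l77 (L l236 (L l296 (T t180 N))))))))) (K a21 (M a48 (F (T t4 (T t13 (L l18 (T t14 N)))))) (K a85 (M a16 (F (T t97 (L l144 (T t190 (L l94 (T t278 N))))))) (K a213 (Fr a106 a192 l519 (Fr a42 a21 l68 (Fr a170 a234 l390 (Fr a255 a85 l476 (V t582))))) (K a42 (M a48 (F (T t187 (L l390 (T t13 (L l54 (T t14 N))))))) (K a106 (M a48 (F (T t1 (L l498 (T t14 (L l390 (L l498 (T t6 (L l390 (T t26 N)))))))))) (K a170 (M a48 (F (T t4 (L l462 (T t1 (L l390 (T t13 N))))))) (K a191 (M a240 (F (T t962 (L l259 (L l315 (T t963 N)))))) (K a255 (M a16 (F (T t112 (L l266 (T t190 (L l289 (L l296 (T t191 N)))))))) N)))))))))))))))⟩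
def e0_63__70_242 : Ent 4 := ⟨[a0, a63], [a70, a247], (M a149 (F (T t175 (L l278 (T t5 (L l265 (L l278 (T t176 (L l265 (T t177 (K a192 (M a53 (F (T t178 (L l236 (T t179 (L l77 (L l236 (L l278 (L l296 (T t180 N)))))))))) (K a21 (M a48 (F (T t4 (T t13 (L l18 (T t14 N)))))) (K a85 (M a4 (F (L l421 (T t519 (L l144 (L l278 (L l315 (L l333 (T t653 (L l124 (L l126 (T t654 N)))))))))))) (K a213 (Fr a106 a192 l519 (Fr a42 a21 l68 (Fr a170 a234 l390 (Fr a255 a85 l476 (V t582))))) (K a42 (M a48 (F (T t187 (L l390 (T t13 (L l54 (T t14 N))))))) (K a106 (M a48 (F (T t1 (L l498 (T t14 (L l278 (L l390 (L l422 (L l498 (T t6 (L l278 (L l390 (T t26 N))))))))))))) (K a170 (M a48 (F (T t4 (L l462 (T t1 (L l390 (T t13 N))))))) (K a191 (M a240 (F (T t962 (L l259 (L l278 (L l315 (T t963 N))))))) (K a255 (M a243 (F (T t2108 (L l439 (T t2109 (L l278 (L l296 (T t2110 (L l421 (T t2111 N)))))))))) N)))))))))))))))))))⟩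
def e0_63__70_243 : Ent 4 := ⟨[a0, a63], [a70, a248], (M a85 (F (T t88 (T t52 (T t89 (T t90 (K a64 (M a252 (F (T t91 (L l460 (T t92 N))))) (K a192 (M a16 (F (T t112 (L l77 (T t96 (L l296 (T t98 N))))))) (K a21 (M a48 (F (T t99 (L l262 (T t50 (L l47 (T t100 N))))))) (K a149 (M a16 (F (T t112 (L l77 (T t173 (L l170 (T t102 N))))))) (K a213 (Fr a170 a255 l476 (Fr a42 a21 l68 (Fr a106 a234 l390 (Fr a192 a149 l519 (V t581))))) (K a42 (M a48 (F (T t364 (L l262 (L l390 (T t50 (L l28 (T t100 N)))))))) (K a106 (M a48 (F (T t1 (L l77 (L l104 (T t509 (L l262 (L l390 (T t50 N))))))))) (K a170 (M a16 (F (L l404 (T t113 (L l390 (T t98 (L l390 (L l404 (T t97 (L l404 (T t174 N))))))))))) (K a255 (M a16 (F (T t112 (L l289 (T t113 (L l289 (L l296 (T t98 N)))))))) N)))))))))))))))⟩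
def e0_63__70_244 : Ent 4 := ⟨[a0, a63], [a70, a249], (M a149 (F (T t5 (T t175 (T t176 (T t177 (K a192 (M a53 (F (T t178 (L l236 (T t179 (L l77 (L l236 (L l296 (T t180 N))))))))) (K a21 (M a48 (F (T t4 (T t13 (L l18 (T t14 N)))))) (K a85 (M a16 (F (T t97 (L l144 (T t190 (L l94 (T t278 N))))))) (K a213 (Fr a106 a192 l519 (Fr a42 a21 l68 (Fr a170 a234 l390 (Fr a255 a85 l476 (V t582))))) (K a42 (M a48 (F (T t187 (L l390 (T t13 (L l54 (T t14 N))))))) (K a106 (M a48 (F (T t1 (L l498 (T t14 (L l390 (L l498 (T t6 (L l390 (T t26 N)))))))))) (K a170 (M a48 (F (T t4 (L l462 (T t1 (L l390 (T t13 N))))))) (K a191 (M a240 (F (T t962 (L l263 (L l315 (T t963 N)))))) (K a255 (M a16 (F (T t112 (L l266 (T t190 (L l289 (L l296 (T t191 N)))))))) N)))))))))))))))⟩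
def e0_63__70_245 : Ent 4 := ⟨[a0, a63], [a70, a250], (M a12 (F (T t122 (T t151 (T t152 (T t153 (K a4 (M a60 (F (T t398 (L l46 (L l50 (L l333 (T t67 (T t448 N)))))))) (K a8 (M a60 (F (T t398 (L l333 (T t67 (L l52 (L l56 (T t448 N)))))))) (K a21 (M a192 (F (T t221 (L l85 (L l333 (T t156 (L l15 (L l347 (T t157 N))))))))) (K a25 (M a192 (F (T t467 (L l85 (L l333 (T t156 (L l266 (T t21 N)))))))) (K a29 (M a192 (F (T t496 (L l266 (L l371 (T t21 (T t160 N))))))) (K a38 (M a192 (F (T t450 (L l85 (L l333 (T t156 (L l266 (T t21 N)))))))) (K a42 (M a192 (F (T t450 (L l85 (L l333 (T t156 (L l56 (T t157 N)))))))) (K a46 (M a192 (F (T t47 (L l85 (L l333 (T t156 (L l26 (L l408 (T t160 N))))))))) (K a51 (M a192 (F (T t155 (L l85 (L l333 (L l513 (T t156 (L l266 (L l439 (T t21 N)))))))))) N)))))))))))))))⟩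
def e0_63__70_246 : Ent 4 := ⟨[a0, a63], [a70, a251], (M a48 (F (T t1 (T t2 (T t3 (T t0 (K a16 (M a60 (F (T t64 (L l14 (L l18 (L l333 (T t67 (T t65 N)))))))) (K a32 (M a60 (F (T t64 (L l333 (T t67 (L l24 (L l28 (T t65 N)))))))) (K a21 (M a192 (F (T t837 (L l47 (L l347 (T t20 (L l47 (L l347 (T t29 N))))))))) (K a37 (M a192 (F (T t19 (L l47 (T t20 (L l265 (T t21 N))))))) (K a53 (M a192 (F (T t19 (L l265 (L l491 (T t21 (T t31 N))))))) (K a26 (M a192 (F (T t27 (T t20 (L l265 (T t21 N)))))) (K a42 (M a192 (F (T t19 (T t20 (L l28 (T t29 N)))))) (K a58 (M a192 (F (T t19 (L l265 (T t21 (L l54 (L l498 (T t31 N)))))))) (K a15 (M a192 (F (T t1800 (L l483 (T t27 (L l325 (T t20 N))))))) N)))))))))))))))⟩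
def e0_63__70_247 : Ent 4 := ⟨[a0, a63], [a70, a252], (M a48 (F (T t48 (L l471 (T t1 (L l471 (T t2 (L l471 (T t3 (L l471 (T t0 (K a16 (M a60 (F (T t138 (L l14 (L l18 (L l333 (L l477 (T t67 (T t65 N))))))))) (K a32 (M a60 (F (T t138 (L l333 (L l477 (T t67 (L l24 (L l28 (T t65 N))))))))) (K a21 (M a192 (F (T t54 (L l262 (T t27 (L l47 (L l347 (T t29 N)))))))) (K a37 (M a192 (F (T t53 (L l262 (T t27 (L l261 (T t21 N))))))) (K a53 (M a192 (F (T t55 (L l261 (L l491 (T t21 (T t31 N))))))) (K a26 (M a192 (F (T t33 (L l262 (T t27 (L l261 (T t21 N))))))) (K a42 (M a192 (F (T t56 (L l262 (T t27 (L l28 (T t29 N))))))) (K a58 (M a192 (F (T t57 (L l262 (T t27 (L l54 (L l498 (T t31 N)))))))) (K a15 (M a192 (L l471 (F (T t47 (L l262 (L l483 (T t27 (L l291 (L l325 (T t20 (K a173 (M a94 (F (T t1800 (L l291 (L l325 (T t22 (L l262 (L l483 (T t28 N))))))))) (K a94 (M a173 (F (T t1800 (L l291 (L l325 (T t22 (L l262 (L l483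 (T t28 N))))))))) N)))))))))))) N))))))))))))))))))))⟩
def e0_63__70_248 : Ent 4 := ⟨[a0, a63], [a70, a253], (M a149 (F (T t175 (L l293 (T t5 (L l261 (L l293 (T t176 (L l261 (T t177 (K a192 (M a53 (F (T t178 (L l236 (T t179 (L l77 (L l236 (L l293 (L l296 (T t180 N)))))))))) (K a21 (M a48 (F (T t4 (T t13 (L l18 (T t14 N)))))) (K a85 (M a1 (F (L l330 (L l431 (T t534 (L l82 (L l144 (L l293 (L l330 (T t1083 (L l141 (T t1084 N)))))))))))) (K a213 (Fr a106 a192 l519 (Fr a42 a21 l68 (Fr a170 a234 l390 (Fr a255 a85 l476 (V t582))))) (K a42 (M a48 (F (T t187 (L l390 (T t13 (L l54 (T t14 N))))))) (K a106 (M a48 (F (T t1 (L l498 (T t14 (L l293 (L l390 (L l437 (L l498 (T t6 (L l293 (L l390 (T t26 N))))))))))))) (K a170 (M a48 (F (T t4 (L l462 (T t1 (L l390 (T t13 N))))))) (K a191 (M a16 (F (T t97 (T t190 (L l213 (L l293 (T t191 N))))))) (K a255 (M a252 (F (T t2112 (L l434 (T t940 (L l293 (L l296 (T t1291 (L l124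 (L l330 (L l431 (T t1292 N)))))))))))) N)))))))))))))))))))⟩
def e0_63__70_249 : Ent 4 := ⟨[a0, a63], [a70, a254], (M a48 (F (T t1 (T t2 (T t3 (T t0 (K a16 (M a60 (F (T t42 (L l14 (L l18 (L l333 (T t67 (T t65 N)))))))) (K a32 (M a60 (F (T t42 (L l333 (T t67 (L l24 (L l28 (T t65 N)))))))) (K a21 (M a192 (F (T t837 (L l47 (L l347 (T t20 (L l47 (L l347 (T t29 N))))))))) (K a37 (M a192 (F (T t19 (L l47 (T t20 (L l261 (T t21 N))))))) (K a53 (M a192 (F (T t19 (L l261 (L l491 (T t21 (T t31 N))))))) (K a26 (M a192 (F (T t27 (T t20 (L l261 (T t21 N)))))) (K a42 (M a192 (F (T t19 (T t20 (L l28 (T t29 N)))))) (K a58 (M a192 (F (T t19 (L l261 (T t21 (L l54 (L l498 (T t31 N)))))))) (K a15 (M a192 (F (T t1800 (L l483 (T t27 (L l325 (T t20 N))))))) N)))))))))))))))⟩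
def e0_63__70_250 : Ent 4 := ⟨[a0, a63], [a70, a255], (M a48 (F (T t48 (L l469 (T t1 (L l469 (T t2 (L l469 (T t3 (L l469 (T t0 (K a16 (M a60 (F (T t138 (L l14 (L l18 (L l333 (L l475 (T t67 (T t65 N))))))))) (K a32 (M a60 (F (T t138 (L l333 (L l475 (T t67 (L l24 (L l28 (T t65 N))))))))) (K a21 (M a192 (F (T t2113 (L l47 (L l289 (L l347 (T t20 (L l47 (L l289 (L l347 (T t29 N))))))))))) (K a37 (M a192 (F (T t54 (L l266 (T t27 (L l28 (L l47 (L l289 (T t29 N))))))))) (K a53 (M a12 (F (T t145 (L l47 (L l439 (T t122 (L l47 (T t146 N)))))))) (K a26 (M a192 (F (T t2113 (L l289 (T t20 (L l289 (T t29 N))))))) (K a42 (M a192 (F (T t56 (L l266 (T t27 (L l28 (L l289 (T t29 N)))))))) (K a58 (M a12 (F (T t145 (L l439 (T t122 (T t146 N)))))) (K a15 (M a192 (L l469 (F (T t54 (L l266 (L l483 (T t27 (L l289 (T t29 (K a95 (M a175 (F (T t53 (L l266 (L l483 (T t28 (L l289 (L l361 (T t29 N))))))))) (K a175 (M a95 (F (T t53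 (L l266 (L l483 (T t28 (L l289 (T t29 N)))))))) N))))))))))) N))))))))))))))))))))⟩
def b0_63__70 : Blk 4 := ⟨[0, 63], [70], [1, 2, 3, 4, 5, 6, 7, 8, 9, 10, 11, 12, 13, 14, 15, 16, 17, 18, 19, 20, 22, 23, 24, 25, 26, 27, 28, 29, 30, 31, 32, 33, 34, 35, 36, 37, 38, 39, 40, 41, 43, 44, 45, 46, 47, 48, 49, 50, 51, 52, 53, 54, 55, 56, 57, 58, 59, 60, 61, 62, 64, 65, 66, 67, 68, 69, 71, 72, 73, 74, 75, 76, 77, 78, 79, 80, 81, 82, 83, 84, 85, 86, 87, 88, 89, 90, 91, 92, 93, 94, 95, 96, 97, 98, 99, 100, 101, 102, 103, 104, 105, 106, 107, 108, 109, 110, 111, 112, 113, 114, 115, 116, 117, 118, 119, 120, 121, 122, 123, 124, 125, 126, 127, 128, 129, 130, 131, 132, 133, 134, 135, 136, 137, 138, 139, 140, 141, 142, 143, 144, 145, 146, 147, 148, 149, 150, 151, 152, 153, 154, 155, 156, 157, 158, 159, 160, 161, 162, 163, 164, 165, 166, 167, 168, 169, 170, 171, 172, 173, 174, 175, 176, 177, 178, 179, 180, 181, 182, 183,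 184, 185, 186, 187, 188, 189, 190, 191, 192, 193, 194, 195, 196, 197, 198, 199, 200, 201, 202, 203, 204, 205, 206, 207, 208, 209, 210, 211, 212, 213, 214, 215, 216, 217, 218, 219, 220, 221, 222, 223, 224, 225, 226, 227, 228, 229, 230, 231, 232, 233, 234, 235, 236, 237, 238, 239, 240, 241, 242, 243, 244, 245, 246, 247, 248, 249, 250, 251, 252, 253, 254, 255], [e0_63__70_0, e0_63__70_1, e0_63__70_2, e0_63__70_3, e0_63__70_4, e0_63__70_5, e0_63__70_6, e0_63__70_7, e0_63__70_8, e0_63__70_9, e0_63__70_10, e0_63__70_11, e0_63__70_12, e0_63__70_13, e0_63__70_14, e0_63__70_15, e0_63__70_16, e0_63__70_17, e0_63__70_18, e0_63__70_19, e0_63__70_20, e0_63__70_21, e0_63__70_22, e0_63__70_23, e0_63__70_24, e0_63__70_25, e0_63__70_26, e0_63__70_27, e0_63__70_28, e0_63__70_29, e0_63__70_30, e0_63__70_31, e0_63__70_32, e0_63__70_33, e0_63__70_34, e0_63__70_35, e0_63__70_36, e0_63__70_37, e0_63__70_38, e0_63__70_39, e0_63__70_40,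 e0_63__70_41, e0_63__70_42, e0_63__70_43, e0_63__70_44, e0_63__70_45, e0_63__70_46, e0_63__70_47, e0_63__70_48, e0_63__70_49, e0_63__70_50, e0_63__70_51, e0_63__70_52, e0_63__70_53, e0_63__70_54, e0_63__70_55, e0_63__70_56, e0_63__70_57, e0_63__70_58, e0_63__70_59, e0_63__70_60, e0_63__70_61, e0_63__70_62, e0_63__70_63, e0_63__70_64, e0_63__70_65, e0_63__70_66, e0_63__70_67, e0_63__70_68, e0_63__70_69, e0_63__70_70, e0_63__70_71, e0_63__70_72, e0_63__70_73, e0_63__70_74, e0_63__70_75, e0_63__70_76, e0_63__70_77, e0_63__70_78, e0_63__70_79, e0_63__70_80, e0_63__70_81, e0_63__70_82, e0_63__70_83, e0_63__70_84, e0_63__70_85, e0_63__70_86, e0_63__70_87, e0_63__70_88, e0_63__70_89, e0_63__70_90, e0_63__70_91, e0_63__70_92, e0_63__70_93, e0_63__70_94, e0_63__70_95, e0_63__70_96, e0_63__70_97, e0_63__70_98, e0_63__70_99, e0_63__70_100, e0_63__70_101, e0_63__70_102, e0_63__70_103, e0_63__70_104, e0_63__70_105,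 e0_63__70_106, e0_63__70_107, e0_63__70_108, e0_63__70_109, e0_63__70_110, e0_63__70_111, e0_63__70_112, e0_63__70_113, e0_63__70_114, e0_63__70_115, e0_63__70_116, e0_63__70_117, e0_63__70_118, e0_63__70_119, e0_63__70_120, e0_63__70_121, e0_63__70_122, e0_63__70_123, e0_63__70_124, e0_63__70_125, e0_63__70_126, e0_63__70_127, e0_63__70_128, e0_63__70_129, e0_63__70_130, e0_63__70_131, e0_63__70_132, e0_63__70_133, e0_63__70_134, e0_63__70_135, e0_63__70_136, e0_63__70_137, e0_63__70_138, e0_63__70_139, e0_63__70_140, e0_63__70_141, e0_63__70_142, e0_63__70_143, e0_63__70_144, e0_63__70_145, e0_63__70_146, e0_63__70_147, e0_63__70_148, e0_63__70_149, e0_63__70_150, e0_63__70_151, e0_63__70_152, e0_63__70_153, e0_63__70_154, e0_63__70_155, e0_63__70_156, e0_63__70_157, e0_63__70_158, e0_63__70_159, e0_63__70_160, e0_63__70_161, e0_63__70_162, e0_63__70_163, e0_63__70_164, e0_63__70_165, e0_63__70_166,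 e0_63__70_167, e0_63__70_168, e0_63__70_169, e0_63__70_170, e0_63__70_171, e0_63__70_172, e0_63__70_173, e0_63__70_174, e0_63__70_175, e0_63__70_176, e0_63__70_177, e0_63__70_178, e0_63__70_179, e0_63__70_180, e0_63__70_181, e0_63__70_182, e0_63__70_183, e0_63__70_184, e0_63__70_185, e0_63__70_186, e0_63__70_187, e0_63__70_188, e0_63__70_189, e0_63__70_190, e0_63__70_191, e0_63__70_192, e0_63__70_193, e0_63__70_194, e0_63__70_195, e0_63__70_196, e0_63__70_197, e0_63__70_198, e0_63__70_199, e0_63__70_200, e0_63__70_201, e0_63__70_202, e0_63__70_203, e0_63__70_204, e0_63__70_205, e0_63__70_206, e0_63__70_207, e0_63__70_208, e0_63__70_209, e0_63__70_210, e0_63__70_211, e0_63__70_212, e0_63__70_213, e0_63__70_214, e0_63__70_215, e0_63__70_216, e0_63__70_217, e0_63__70_218, e0_63__70_219, e0_63__70_220, e0_63__70_221, e0_63__70_222, e0_63__70_223, e0_63__70_224, e0_63__70_225, e0_63__70_226, e0_63__70_227,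 e0_63__70_228, e0_63__70_229, e0_63__70_230, e0_63__70_231, e0_63__70_232, e0_63__70_233, e0_63__70_234, e0_63__70_235, e0_63__70_236, e0_63__70_237, e0_63__70_238, e0_63__70_239, e0_63__70_240, e0_63__70_241, e0_63__70_242, e0_63__70_243, e0_63__70_244, e0_63__70_245, e0_63__70_246, e0_63__70_247, e0_63__70_248, e0_63__70_249, e0_63__70_250], by decide +kernel, by decide +kernel⟩

end Pool.Agent.Lib_TTT.K4
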