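import Pool.Agent.Lib_TTT.K4Base
import Pool.Agent.Lib_TTT.K4T00
import Pool.Agent.Lib_TTT.K4T01
import Pool.Agent.Lib_TTT.K4T02

/-! Certificates in `4^4`. -/

set_option autoImplicit false
set_option maxRecDepth 200000

namespace Pool.Agent.Lib_TTT.K4

open Lib_TTT AC DC

def e0_63__71_0 : Ent 4 := ⟨[a0, a63], [a71, a1], (M a85 (F (T t88 (L l65 (T t52 (T t89 (T t90 (K a64 (M a204 (F (T t1744 (L l125 (T t1576 N))))) (K a192 (M a16 (F (T t504 (L l77 (L l127 (L l329 (T t96 (L l296 (T t98 N))))))))) (K a21 (M a48 (L l65 (F (T t99 (T t50 (L l47 (T t100 (K a41 (M a61 (F (T t99 (L l41 (T t262 N))))) (K a61 (M a41 (F (T t99 (T t50 (L l35 (L l47 (T t100 N))))))) N))))))))) (K a149 (M a16 (F (T t101 (L l375 (T t97 (L l170 (T t102 N))))))) (K a213 (Fr a170 a255 l476 (Fr a42 a21 l68 (Fr a106 a234 l390 (Fr a192 a149 l519 (V t581))))) (K a42 (M a48 (F (T t364 (L l390 (T t50 (L l28 (T t100 N))))))) (K a106 (M a48 (F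 (T t364 (L l65 (T t1 (L l390 (T t50 N))))))) (K a170 (M a16 (F (L l404 (T t113 (L l390 (T t98 (L l390 (L l404 (T t97 (L l331 (L l404 (T t174 N)))))))))))) (K a255 (M a16 (F (T t504 (L l289 (T t113 (L l289 (L l296 (T t98 N)))))))) N))))))))))))))))⟩
def e0_63__71_1 : Ent 4 := ⟨[a0, a63], [a71, a2], (M a85 (F (T t52 (L l66 (T t88 (L l66 (T t89 (L l474 (T t90 (K a64 (M a16 (F (T t101 (L l66 (T t97 (L l66 (L l116 (T t98 N)))))))) (K a192 (M a16 (F (L l66 (T t112 (L l77 (L l127 (T t96 (L l66 (L l296 (T t98 N)))))))))) (K a21 (M a48 (F (T t99 (L l474 (T t50 (L l47 (T t100 N))))))) (K a149 (M a16 (F (T t101 (L l66 (L l375 (T t97 (L l66 (L l170 (T t102 N))))))))) (K a213 (Fr a170 a255 l476 (Fr a42 a21 l68 (Fr a106 a234 l390 (Fr a192 a149 l519 (V t581))))) (K a42 (M a62 (F (T t1693 (L l390 (L l474 (T t1694 (L l22 (L l306 (T t1695 (L l306 (L l390 (L l474 (T t1696 N))))))))))))) (K a106 (M a48 (F (T t99 (L l6 (T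 t1 (L l390 (L l474 (T t50 N)))))))) (K a170 (M a86 (F (L l66 (L l390 (T t369 (L l125 (L l174 (L l306 (L l331 (T t1701 (L l66 (L l174 (L l390 (T t1702 (L l125 (L l174 (L l331 (T t1703 N)))))))))))))))))) (K a255 (M a16 (F (L l66 (T t112 (L l289 (T t113 (L l66 (L l289 (L l296 (T t98 N)))))))))) N))))))))))))))))))⟩
def e0_63__71_2 : Ent 4 := ⟨[a0, a63], [a71, a3], (M a12 (L l331 (F (T t150 (L l43 (T t122 (L l43 (T t151 (L l43 (T t152 (L l43 (T t153 (K a4 (M a85 (L l331 (F (T t89 (L l333 (T t124 (T t154 (K a139 (M a207 (F (L l45 (T t2114 (T t154 N))))) (K a207 (M a139 (F (T t89 (L l231 (L l333 (T t124 (T t154 N))))))) N))))))))) (K a8 (M a85 (L l331 (F (L l475 (T t52 (L l333 (L l464 (T t124 (L l56 (T t154 (K a139 (M a207 (F (L l77 (L l475 (T t2115 (L l56 (T t154 N))))))) (K a207 (M a139 (F (L l56 (T t89 (L l231 (L l333 (L l464 (T t124 (L l56 (T t154 N)))))))))) N)))))))))))) (K a21 (M a192 (L l331 (F (T t158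 (L l333 (T t156 (L l15 (L l347 (T t157 (K a139 (M a207 (F (T t2116 (L l333 (T t468 N))))) (K a207 (M a139 (F (T t1725 (L l301 (L l451 (T t543 (L l15 (L l347 (T t157 N))))))))) N))))))))))) (K a25 (M a192 (L l331 (F (T t155 (L l333 (T t156 (L l475 (T t21 (K a139 (M a207 (F (T t158 (L l7 (L l83 (L l154 (T t2117 N))))))) (K a207 (M a139 (F (T t158 (L l56 (L l231 (L l333 (T t468 (L l15 (L l289 (L l475 (T t35 N))))))))))) N)))))))))) (K a29 (M a192 (L l331 (F (T t159 (L l371 (L l475 (T t21 (T t160 (K a139 (M a207 (F (T t1681 (L l154 (L l307 (L l313 (T t2118 N))))))) (K a207 (M a139 (F (T t1681 (L l231 (L l333 (T t468 (L l15 (L l371 (T t776 N))))))))) N)))))))))) (K a38 (M a192 (L l331 (F (T t576 (L l333 (T t156 (L l475 (T t21 (K a139 (M a207 (F (T t2119 (L l45 (T t2120 N))))) (K a207 (M a139 (F (T t161 (L l50 (L l289 (L l475 (T t35 (L l231 (L l333 (T t468 N)))))))))) N)))))))))) (K a42 (M a192 (L l331 (F (T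 t161 (L l333 (T t156 (L l56 (T t157 (K a139 (M a207 (F (T t159 (L l45 (L l390 (T t2120 N)))))) (K a207 (M a139 (F (T t496 (L l301 (L l390 (L l451 (T t543 (L l56 (T t157 N))))))))) N)))))))))) (K a46 (M a192 (L l331 (F (T t57 (L l333 (T t156 (L l26 (L l408 (T t160 (K a139 (M a207 (F (T t159 (L l45 (L l408 (T t2120 N)))))) (K a207 (M a139 (F (T t47 (L l231 (L l333 (T t468 (T t776 N))))))) N))))))))))) (K a51 (M a255 (L l43 (L l331 (F (T t2121 (L l333 (L l513 (T t2034 (L l309 (L l489 (T t1165 (K a19 (M a35 (L l331 (F (T t2122 (L l415 (L l451 (T t2123 (L l333 (L l513 (T t2124 (K a139 (M a207 (F (T t2122 (L l154 (L l307 (L l313 (L l487 (T t2118 N)))))))) (K a207 (M a139 (L l511 (F (T t2125 (L l301 (L l415 (L l451 (T t2123 (L l231 (L l333 (L l513 (T t2124 (K a103 (M a155 (L l125 (F (T t2126 (L l313 (L l493 (T t2127 (K a87 (M a119 (F (T t2128 (L l87 (T t2129 N))))) (K a119 (M a87 (F (T t2030 (L l126 (T t2129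 N))))) N))))))))) (K a155 (M a103 (L l367 (F (T t2130 (T t2131 (L l301 (L l415 (L l451 (T t2123 (K a87 (M a223 (F (T t2132 (L l169 (L l506 (T t2133 N)))))) (K a223 (M a87 (F (T t2128 (L l368 (T t2131 (L l301 (L l368 (L l415 (L l451 (T t2134 N)))))))))) N))))))))))) N)))))))))))))) N)))))))))))) (K a35 (M a19 (L l331 (F (T t2122 (L l415 (L l451 (T t2123 (L l333 (L l513 (T t2124 (K a139 (M a207 (F (T t2135 (L l7 (L l27 (L l73 (T t2136 N))))))) (K a207 (M a139 (L l511 (F (T t2125 (L l301 (L l415 (L l451 (T t2123 (L l231 (L l333 (L l513 (T t2124 (K a103 (M a155 (L l125 (L l403 (F (T t2030 (L l301 (L l415 (L l451 (T t2137 (L l236 (L l309 (L l489 (T t2138 (K a87 (M a119 (L l403 (F (T t2135 (L l143 (L l313 (L l349 (L l493 (T t2127 (K a171 (M a239 (F (L l219 (T t2030 (L l87 (L l143 (L l236 (L l309 (L l489 (T t2139 (L l174 (L l301 (L l415 (L l451 (T t2123 N))))))))))))))) (K a239 (Fr a171 a187 l207 (V t2124)) N)))))))))))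 (K a119 (Fr a87 a223 l367 (V t2134)) (K a171 (M a239 (L l125 (F (T t2140 (L l97 (L l103 (L l127 (L l512 (T t2141 (K a87 (M a119 (F (L l219 (T t2030 (L l87 (L l143 (L l236 (L l309 (L l489 (T t2139 (L l174 (L l301 (L l415 (L l451 (T t2123 N))))))))))))))) (K a119 (Fr a87 a223 l367 (V t2123)) N))))))))))) (K a239 (Fr a171 a187 l207 (V t2142)) N))))))))))))))))) (K a155 (M a103 (F (T t2125 (L l301 (L l415 (L l451 (T t2123 (L l231 (L l333 (L l513 (T t2124 N))))))))))) N)))))))))))))) N)))))))))))) (K a139 (M a207 (L l43 (F (T t2140 (L l30 (L l45 (L l154 (T t2143 (K a19 (M a35 (F (T t2122 (L l154 (L l307 (L l313 (L l487 (T t2118 N)))))))) (K a35 (M a19 (F (T t2135 (L l7 (L l27 (L l73 (T t2136 N))))))) N)))))))))) (K a207 (M a139 (L l43 (L l511 (F (T t2125 (L l301 (L l415 (L l451 (T t2123 (L l231 (L l333 (L l513 (T t2124 (K a19 (M a35 (L l511 (F (T t2125 (L l301 (L l415 (L l451 (T t2123 (L l231 (L l333 (L l513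 (T t2124 (K a103 (M a155 (L l125 (F (T t2126 (L l313 (L l493 (T t2127 (K a87 (M a119 (F (T t2128 (L l87 (T t2129 N))))) (K a119 (M a87 (F (T t2030 (L l126 (T t2129 N))))) N))))))))) (K a155 (M a103 (L l367 (F (T t2130 (T t2131 (L l301 (L l415 (L l451 (T t2123 (K a87 (M a223 (F (T t2132 (L l169 (L l506 (T t2133 N)))))) (K a223 (M a87 (F (T t2128 (L l368 (T t2131 (L l301 (L l368 (L l415 (L l451 (T t2134 N)))))))))) N))))))))))) N)))))))))))))) (K a35 (M a19 (L l511 (F (T t2125 (L l301 (L l415 (L l451 (T t2123 (L l231 (L l333 (L l513 (T t2124 (K a103 (M a155 (L l125 (L l403 (F (T t2030 (L l301 (L l415 (L l451 (T t2137 (L l236 (L l309 (L l489 (T t2138 (K a87 (M a119 (L l403 (F (T t2135 (L l143 (L l313 (L l349 (L l493 (T t2127 (K a171 (M a239 (F (L l219 (T t2030 (L l87 (L l143 (L l236 (L l309 (L l489 (T t2139 (L l174 (L l301 (L l415 (L l451 (T t2123 N))))))))))))))) (K a239 (Fr a171 a187 l207 (V t2124)) N)))))))))))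 (K a119 (Fr a87 a223 l367 (V t2134)) (K a171 (M a239 (L l125 (F (T t2140 (L l97 (L l103 (L l127 (L l512 (T t2141 (K a87 (M a119 (F (L l219 (T t2030 (L l87 (L l143 (L l236 (L l309 (L l489 (T t2139 (L l174 (L l301 (L l415 (L l451 (T t2123 N))))))))))))))) (K a119 (Fr a87 a223 l367 (V t2123)) N))))))))))) (K a239 (Fr a171 a187 l207 (V t2142)) N))))))))))))))))) (K a155 (M a103 (F (T t2125 (L l301 (L l415 (L l451 (T t2123 (L l231 (L l333 (L l513 (T t2124 N))))))))))) N)))))))))))))) (K a103 (M a155 (L l43 (L l125 (F (T t2140 (L l403 (T t2129 (K a19 (M a35 (L l125 (F (T t2126 (L l313 (L l493 (T t2127 (K a87 (M a119 (F (T t2128 (L l87 (T t2129 N))))) (K a119 (M a87 (F (T t2030 (L l126 (T t2129 N))))) N))))))))) (K a35 (M a19 (L l125 (L l403 (F (T t2030 (L l301 (L l415 (L l451 (T t2137 (L l236 (L l309 (L l489 (T t2138 (K a87 (M a119 (L l403 (F (T t2135 (L l143 (L l313 (L l349 (L l493 (T t2127 (K a171 (M a239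 (F (L l219 (T t2030 (L l87 (L l143 (L l236 (L l309 (L l489 (T t2139 (L l174 (L l301 (L l415 (L l451 (T t2123 N))))))))))))))) (K a239 (Fr a171 a187 l207 (V t2124)) N))))))))))) (K a119 (Fr a87 a223 l367 (V t2134)) (K a171 (M a239 (L l125 (F (T t2140 (L l97 (L l103 (L l127 (L l512 (T t2141 (K a87 (M a119 (F (L l219 (T t2030 (L l87 (L l143 (L l236 (L l309 (L l489 (T t2139 (L l174 (L l301 (L l415 (L l451 (T t2123 N))))))))))))))) (K a119 (Fr a87 a223 l367 (V t2123)) N))))))))))) (K a239 (Fr a171 a187 l207 (V t2142)) N))))))))))))))))) (K a87 (M a119 (L l43 (F (T t2128 (L l87 (L l403 (T t2129 (K a19 (M a35 (F (T t2128 (L l87 (T t2129 N))))) (K a35 (M a19 (L l403 (F (T t2135 (L l143 (L l313 (L l349 (L l493 (T t2127 (K a171 (M a239 (F (L l219 (T t2030 (L l87 (L l143 (L l236 (L l309 (L l489 (T t2139 (L l174 (L l301 (L l415 (L l451 (T t2123 N))))))))))))))) (K a239 (Fr a171 a187 l207 (V t2124)) N))))))))))) N)))))))))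 (K a119 (M a87 (L l43 (F (T t2135 (L l113 (L l313 (L l493 (T t2127 (K a19 (M a35 (F (T t2030 (L l126 (T t2129 N))))) (K a35 (Fr a19 a223 l367 (V t2134)) N)))))))))) N))))))))))) (K a155 (M a103 (L l43 (F (T t2125 (L l301 (L l415 (L l451 (T t2123 (L l231 (L l333 (L l513 (T t2124 (K a19 (M a35 (L l367 (F (T t2130 (T t2131 (L l301 (L l415 (L l451 (T t2123 (K a87 (M a223 (F (T t2132 (L l169 (L l506 (T t2133 N)))))) (K a223 (M a87 (F (T t2128 (L l368 (T t2131 (L l301 (L l368 (L l415 (L l451 (T t2134 N)))))))))) N))))))))))) (K a35 (M a19 (F (T t2125 (L l301 (L l415 (L l451 (T t2123 (L l231 (L l333 (L l513 (T t2124 N))))))))))) N)))))))))))))) N))))))))))))))))) N))))))))))))))) (K a139 (M a207 (F (T t150 (L l77 (L l307 (T t2144 (K a4 (M a64 (F (L l475 (T t397 (L l154 (T t2145 N)))))) (K a8 (M a64 (F (T t1872 (L l154 (L l320 (T t2145 N)))))) N)))))))) (K a207 (M a139 (F (T t150 (L l43 (L l511 (T t122 (L l43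 (L l511 (T t151 (L l43 (L l511 (T t152 (L l43 (L l511 (T t153 (K a4 (M a85 (F (T t89 (L l231 (L l333 (T t124 (T t154 N))))))) (K a8 (M a85 (F (L l56 (T t89 (L l231 (L l333 (L l464 (T t124 (L l56 (T t154 N)))))))))) (K a21 (M a10 (F (L l47 (T t2146 (L l50 (L l83 (L l236 (T t2147 N)))))))) (K a25 (M a10 (F (L l15 (T t2148 (L l53 (L l83 (L l236 (T t2147 N)))))))) (K a29 (M a10 (F (L l13 (L l15 (T t2148 (L l83 (L l236 (T t2147 N)))))))) (K a38 (M a10 (F (L l29 (L l69 (L l506 (T t2149 (L l50 (L l83 (L l236 (T t2147 N)))))))))) (K a42 (M a10 (F (L l83 (T t2150 (L l26 (L l69 (L l506 (T t2151 N)))))))) (K a46 (M a10 (F (T t2148 (L l83 (L l236 (T t2147 N)))))) (K a51 (M a255 (L l43 (L l511 (F (T t2125 (L l301 (L l415 (L l451 (T t2123 (L l231 (L l333 (L l513 (T t2124 (K a19 (M a35 (L l511 (F (T t2125 (L l301 (L l415 (L l451 (T t2123 (L l231 (L l333 (L l513 (T t2124 (K a103 (M a155 (L l125 (F (T t2126 (L l313 (L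 l493 (T t2127 (K a87 (M a119 (F (T t2128 (L l87 (T t2129 N))))) (K a119 (M a87 (F (T t2030 (L l126 (T t2129 N))))) N))))))))) (K a155 (M a103 (L l367 (F (T t2130 (T t2131 (L l301 (L l415 (L l451 (T t2123 (K a87 (M a223 (F (T t2132 (L l169 (L l506 (T t2133 N)))))) (K a223 (M a87 (F (T t2128 (L l368 (T t2131 (L l301 (L l368 (L l415 (L l451 (T t2134 N)))))))))) N))))))))))) N)))))))))))))) (K a35 (M a19 (L l511 (F (T t2125 (L l301 (L l415 (L l451 (T t2123 (L l231 (L l333 (L l513 (T t2124 (K a103 (M a155 (L l125 (L l403 (F (T t2030 (L l301 (L l415 (L l451 (T t2137 (L l236 (L l309 (L l489 (T t2138 (K a87 (M a119 (L l403 (F (T t2135 (L l143 (L l313 (L l349 (L l493 (T t2127 (K a171 (M a239 (F (L l219 (T t2030 (L l87 (L l143 (L l236 (L l309 (L l489 (T t2139 (L l174 (L l301 (L l415 (L l451 (T t2123 N))))))))))))))) (K a239 (Fr a171 a187 l207 (V t2124)) N))))))))))) (K a119 (Fr a87 a223 l367 (V t2134)) (K a171 (M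 a239 (L l125 (F (T t2140 (L l97 (L l103 (L l127 (L l512 (T t2141 (K a87 (M a119 (F (L l219 (T t2030 (L l87 (L l143 (L l236 (L l309 (L l489 (T t2139 (L l174 (L l301 (L l415 (L l451 (T t2123 N))))))))))))))) (K a119 (Fr a87 a223 l367 (V t2123)) N))))))))))) (K a239 (Fr a171 a187 l207 (V t2142)) N))))))))))))))))) (K a155 (M a103 (F (T t2125 (L l301 (L l415 (L l451 (T t2123 (L l231 (L l333 (L l513 (T t2124 N))))))))))) N)))))))))))))) (K a103 (M a155 (L l43 (L l125 (F (T t2140 (L l403 (T t2129 (K a19 (M a35 (L l125 (F (T t2126 (L l313 (L l493 (T t2127 (K a87 (M a119 (F (T t2128 (L l87 (T t2129 N))))) (K a119 (M a87 (F (T t2030 (L l126 (T t2129 N))))) N))))))))) (K a35 (M a19 (L l125 (L l403 (F (T t2030 (L l301 (L l415 (L l451 (T t2137 (L l236 (L l309 (L l489 (T t2138 (K a87 (M a119 (L l403 (F (T t2135 (L l143 (L l313 (L l349 (L l493 (T t2127 (K a171 (M a239 (F (L l219 (T t2030 (L l87 (L l143 (L l236 (L l309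 (L l489 (T t2139 (L l174 (L l301 (L l415 (L l451 (T t2123 N))))))))))))))) (K a239 (Fr a171 a187 l207 (V t2124)) N))))))))))) (K a119 (Fr a87 a223 l367 (V t2134)) (K a171 (M a239 (L l125 (F (T t2140 (L l97 (L l103 (L l127 (L l512 (T t2141 (K a87 (M a119 (F (L l219 (T t2030 (L l87 (L l143 (L l236 (L l309 (L l489 (T t2139 (L l174 (L l301 (L l415 (L l451 (T t2123 N))))))))))))))) (K a119 (Fr a87 a223 l367 (V t2123)) N))))))))))) (K a239 (Fr a171 a187 l207 (V t2142)) N))))))))))))))))) (K a87 (M a119 (L l43 (F (T t2128 (L l87 (L l403 (T t2129 (K a19 (M a35 (F (T t2128 (L l87 (T t2129 N))))) (K a35 (M a19 (L l403 (F (T t2135 (L l143 (L l313 (L l349 (L l493 (T t2127 (K a171 (M a239 (F (L l219 (T t2030 (L l87 (L l143 (L l236 (L l309 (L l489 (T t2139 (L l174 (L l301 (L l415 (L l451 (T t2123 N))))))))))))))) (K a239 (Fr a171 a187 l207 (V t2124)) N))))))))))) N))))))))) (K a119 (M a87 (L l43 (F (T t2135 (L l113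 (L l313 (L l493 (T t2127 (K a19 (M a35 (F (T t2030 (L l126 (T t2129 N))))) (K a35 (Fr a19 a223 l367 (V t2134)) N)))))))))) N))))))))))) (K a155 (M a103 (L l43 (F (T t2125 (L l301 (L l415 (L l451 (T t2123 (L l231 (L l333 (L l513 (T t2124 (K a19 (M a35 (L l367 (F (T t2130 (T t2131 (L l301 (L l415 (L l451 (T t2123 (K a87 (M a223 (F (T t2132 (L l169 (L l506 (T t2133 N)))))) (K a223 (M a87 (F (T t2128 (L l368 (T t2131 (L l301 (L l368 (L l415 (L l451 (T t2134 N)))))))))) N))))))))))) (K a35 (M a19 (F (T t2125 (L l301 (L l415 (L l451 (T t2123 (L l231 (L l333 (L l513 (T t2124 N))))))))))) N)))))))))))))) N))))))))))))))))) N)))))))))))))))))))))))) N)))))))))))))))))))))))⟩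
def e0_63__71_3 : Ent 4 := ⟨[a0, a63], [a71, a4], (M a85 (F (T t88 (L l50 (T t52 (T t89 (T t90 (K a64 (M a204 (F (T t1744 (L l125 (L l310 (T t1576 N)))))) (K a192 (M a16 (F (T t504 (L l77 (L l127 (L l314 (T t96 (L l296 (T t98 N))))))))) (K a21 (M a48 (L l50 (F (T t99 (T t50 (L l47 (T t100 (K a38 (M a55 (F (T t99 (L l46 (T t1743 N))))) (K a55 (M a38 (F (T t99 (T t50 (L l31 (L l47 (T t100 N))))))) N))))))))) (K a149 (M a16 (F (T t101 (L l375 (T t97 (L l170 (T t102 N))))))) (K a213 (Fr a170 a255 l476 (Fr a42 a21 l68 (Fr a106 a234 l390 (Fr a192 a149 l519 (V t581))))) (K a42 (M a48 (F (T t364 (L l390 (T t50 (L l28 (T t100 N))))))) (K a106 (M a48 (F (T t364 (L l50 (T t1 (L l390 (T t50 N))))))) (K a170 (M a16 (F (L l404 (T t113 (L l390 (T t98 (L l390 (L l404 (T t97 (L l331 (L l404 (T t174 N)))))))))))) (K a255 (M a16 (F (T t504 (L l289 (T t113 (L l289 (L l296 (T t98 N)))))))) N))))))))))))))))⟩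
def e0_63__71_4 : Ent 4 := ⟨[a0, a63], [a71, a5], (M a85 (F (T t88 (L l47 (T t52 (T t89 (T t90 (K a64 (M a240 (F (T t933 (T t387 N)))) (K a192 (M a48 (F (T t935 (L l47 (L l339 (T t3 (L l268 (T t50 N)))))))) (K a21 (M a204 (L l47 (F (L l125 (T t1684 (T t1575 (L l125 (T t1691 (K a37 (M a53 (F (T t1575 (L l127 (T t1745 N))))) (K a53 (M a37 (F (L l125 (T t1746 (T t1575 (L l125 (L l491 (T t1747 N)))))))) N)))))))))) (K a149 (M a48 (F (T t99 (L l47 (T t3 (L l220 (T t50 N))))))) (K a213 (Fr a170 a255 l476 (Fr a42 a21 l68 (Fr a106 a234 l390 (Fr a192 a149 l519 (V t581))))) (K a42 (M a48 (F (T t364 (L l390 (T t50 (L l28 (L l47 (T t100 N)))))))) (K a106 (M a48 (F (T t99 (L l47 (L l411 (T t3 (L l390 (T t50 N)))))))) (K a170 (M a4 (F (L l464 (T t130 (L l77 (L l390 (T t131 (L l390 (L l464 (T t519 (L l464 (T t938 N)))))))))))) (K a255 (M a4 (F (T t129 (L l265 (T t130 (L l77 (L l265 (L l296 (T t131 N))))))))) N))))))))))))))))⟩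
def e0_63__71_5 : Ent 4 := ⟨[a0, a63], [a71, a6], (M a85 (F (T t88 (T t52 (T t89 (T t90 (K a64 (M a16 (F (T t97 (L l77 (L l84 (L l127 (T t96 (L l116 (T t98 N))))))))) (K a192 (M a16 (F (T t504 (L l77 (L l127 (T t96 (L l296 (T t98 N)))))))) (K a21 (M a48 (F (T t99 (T t50 (L l47 (T t100 N)))))) (K a149 (M a16 (F (T t101 (L l375 (T t97 (L l170 (T t102 N))))))) (K a213 (Fr a170 a255 l476 (Fr a42 a21 l68 (Fr a106 a234 l390 (Fr a192 a149 l519 (V t581))))) (K a42 (M a48 (F (T t364 (L l390 (T t50 (L l28 (T t100 N))))))) (K a106 (M a48 (F (T t99 (L l6 (T t1 (L l390 (T t50 N))))))) (K a170 (M a16 (F (L l404 (T t113 (L l390 (T t98 (L l390 (L l404 (T t97 (L l331 (L l404 (T t174 N)))))))))))) (K a255 (M a16 (F (T t504 (L l289 (T t113 (L l289 (L l296 (T t98 N)))))))) N)))))))))))))))⟩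
def e0_63__71_6 : Ent 4 := ⟨[a0, a63], [a71, a7], (M a85 (L l313 (F (T t88 (T t52 (T t89 (T t90 (K a64 (M a204 (L l313 (F (T t1744 (L l125 (L l315 (T t1576 (K a135 (M a199 (F (T t1744 (L l125 (L l315 (T t1576 N)))))) (K a199 (M a135 (F (T t1575 (L l125 (L l229 (L l315 (T t1576 N))))))) N))))))))) (K a192 (M a4 (L l313 (F (T t2152 (L l49 (L l489 (T t519 (L l77 (L l296 (L l457 (T t131 (K a135 (M a199 (F (T t129 (L l51 (T t2153 N))))) (K a199 (M a135 (F (T t129 (L l272 (L l277 (L l457 (T t1509 (L l77 (L l277 (L l296 (L l457 (T t131 N)))))))))))) N))))))))))))) (K a21 (M a195 (L l313 (F (T t2154 (L l7 (L l331 (T t2035 (T t910 (K a135 (M a199 (F (T t2155 (L l49 (L l50 (T t2156 N)))))) (K a199 (M a135 (F (T t2155 (L l83 (T t2157 N))))) N)))))))))) (K a149 (M a4 (L l313 (F (T t129 (L l457 (T t1371 (L l125 (L l202 (T t1372 (K a135 (M a199 (F (T t129 (L l51 (L l202 (T t2153 N)))))) (K a199 (M a135 (F (T t129 (L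 l220 (L l277 (L l457 (T t1509 (L l125 (L l202 (T t1372 N)))))))))) N))))))))))) (K a213 (Fr a170 a255 l476 (Fr a42 a21 l68 (Fr a106 a234 l390 (Fr a192 a149 l519 (V t581))))) (K a42 (M a195 (L l313 (F (T t2154 (L l7 (L l331 (L l390 (T t2158 (T t910 (K a135 (M a199 (F (T t2155 (L l49 (T t2156 N))))) (K a199 (M a135 (F (T t2155 (L l83 (T t2157 N))))) N))))))))))) (K a106 (M a60 (L l313 (F (T t936 (L l7 (L l331 (L l393 (T t67 (L l390 (T t114 (K a135 (M a199 (F (T t1563 (L l7 (L l331 (L l393 (T t67 (L l390 (T t114 N))))))))) (K a199 (M a135 (F (L l277 (T t2159 (L l390 (T t114 N)))))) N)))))))))))) (K a170 (M a20 (L l313 (F (L l392 (T t2160 (L l390 (T t2161 (L l7 (L l49 (L l331 (L l390 (L l392 (T t238 (L l392 (T t2162 (K a135 (M a199 (F (L l390 (L l392 (T t2163 (L l127 (L l404 (L l457 (T t2164 N))))))))) (K a199 (M a135 (F (L l390 (L l392 (T t2163 (L l83 (L l277 (L l462 (T t2165 (L l277 (L l390 (L l493 (T t2161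 N))))))))))))) N))))))))))))))))) (K a255 (M a4 (L l313 (F (T t129 (L l265 (L l457 (T t130 (L l77 (L l265 (L l296 (L l457 (T t131 (K a135 (M a199 (F (T t129 (L l51 (T t2153 N))))) (K a199 (M a135 (F (T t129 (L l265 (L l277 (L l457 (T t130 (L l77 (L l265 (L l277 (L l296 (L l457 (T t131 N))))))))))))) N)))))))))))))) (K a135 (M a199 (F (T t88 (T t52 (T t89 (T t90 (K a64 (M a240 (F (T t386 (T t387 N)))) (K a192 (M a4 (F (T t129 (L l51 (T t2153 N))))) (K a21 (M a117 (F (T t2166 (L l77 (L l203 (T t2167 N)))))) (K a149 (M a4 (F (T t129 (L l51 (L l202 (T t2153 N)))))) (K a213 (Fr a170 a255 l476 (Fr a42 a21 l68 (Fr a106 a234 l390 (Fr a192 a149 l519 (V t581))))) (K a42 (M a12 (F (L l390 (T t124 (L l56 (L l153 (L l457 (T t2168 N)))))))) (K a106 (M a4 (F (L l49 (L l390 (T t519 (L l153 (L l203 (L l457 (L l516 (T t2169 N)))))))))) (K a170 (M a4 (F (L l51 (L l178 (T t2153 (L l49 (L l390 (L l464 (T t519 N))))))))) (K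 a255 (M a4 (F (T t129 (L l51 (T t2153 N))))) N))))))))))))))) (K a199 (M a135 (F (T t88 (T t52 (T t89 (T t90 (K a64 (M a240 (F (T t933 (T t387 N)))) (K a192 (M a16 (F (T t260 (L l7 (L l339 (T t97 (L l296 (T t98 N)))))))) (K a21 (M a195 (F (T t2155 (L l83 (T t2157 N))))) (K a149 (M a60 (F (L l277 (T t2159 (L l220 (T t114 N)))))) (K a213 (Fr a170 a255 l476 (Fr a42 a21 l68 (Fr a106 a234 l390 (Fr a192 a149 l519 (V t581))))) (K a42 (M a165 (F (T t2170 (L l54 (T t2016 N))))) (K a106 (M a60 (F (L l277 (T t2159 (L l390 (T t114 N)))))) (K a170 (M a150 (F (L l83 (L l462 (T t2171 (L l277 (L l390 (L l493 (T t1961 N))))))))) (K a255 (M a195 (F (L l83 (T t2172 (L l296 (L l434 (T t921 N))))))) N))))))))))))))) N))))))))))))))))))⟩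
def e0_63__71_7 : Ent 4 := ⟨[a0, a63], [a71, a8], (M a85 (F (T t52 (L l56 (T t88 (L l56 (T t89 (L l464 (T t90 (K a64 (M a16 (F (T t101 (L l56 (T t97 (L l56 (L l116 (T t98 N)))))))) (K a192 (M a16 (F (L l56 (T t112 (L l77 (L l127 (T t96 (L l56 (L l296 (T t98 N)))))))))) (K a21 (M a48 (F (T t99 (L l464 (T t50 (L l47 (T t100 N))))))) (K a149 (M a16 (F (T t101 (L l56 (L l375 (T t97 (L l56 (L l170 (T t102 N))))))))) (K a213 (Fr a170 a255 l476 (Fr a42 a21 l68 (Fr a106 a234 l390 (Fr a192 a149 l519 (V t581))))) (K a42 (M a59 (F (T t104 (L l125 (L l390 (L l464 (T t105 (L l26 (L l316 (T t106 (L l316 (L l390 (L l464 (T t107 N)))))))))))))) (K a106 (M a48 (F (T t99 (L l2 (T t1 (L l390 (L l464 (T t50 N)))))))) (K a170 (M a89 (F (L l178 (T t108 (L l56 (L l390 (T t109 (L l178 (L l316 (T t110 (L l56 (L l178 (L l390 (T t111 N)))))))))))))) (K a255 (M a16 (F (L l56 (T t112 (L l289 (T t113 (L l56 (L l289 (L l296 (T t98 N))))))))))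 N))))))))))))))))))⟩
def e0_63__71_8 : Ent 4 := ⟨[a0, a63], [a71, a9], (M a85 (F (T t88 (T t52 (T t89 (T t90 (K a64 (M a252 (F (T t91 (L l125 (T t92 N))))) (K a192 (M a16 (F (T t504 (L l77 (L l127 (T t96 (L l296 (T t98 N)))))))) (K a21 (M a48 (F (T t99 (T t50 (L l47 (T t100 N)))))) (K a149 (M a16 (F (T t101 (L l375 (T t97 (L l170 (T t102 N))))))) (K a213 (Fr a170 a255 l476 (Fr a42 a21 l68 (Fr a106 a234 l390 (Fr a192 a149 l519 (V t581))))) (K a42 (M a48 (F (T t364 (L l390 (T t50 (L l28 (T t100 N))))))) (K a106 (M a48 (F (T t99 (L l2 (T t1 (L l390 (T t50 N))))))) (K a170 (M a16 (F (L l404 (T t113 (L l390 (T t98 (L l390 (L l404 (T t97 (L l331 (L l404 (T t174 N)))))))))))) (K a255 (M a16 (F (T t504 (L l289 (T t113 (L l289 (L l296 (T t98 N)))))))) N)))))))))))))))⟩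
def e0_63__71_9 : Ent 4 := ⟨[a0, a63], [a71, a10], (M a85 (F (T t52 (L l54 (T t88 (L l54 (T t89 (L l462 (T t90 (K a64 (M a16 (F (L l54 (T t97 (L l77 (L l84 (L l127 (T t96 (L l54 (L l116 (T t98 N))))))))))) (K a192 (M a16 (F (L l54 (L l339 (T t97 (L l77 (L l127 (T t96 (L l54 (L l296 (T t98 N))))))))))) (K a21 (M a48 (F (T t99 (L l462 (T t50 (L l47 (L l318 (T t100 N)))))))) (K a149 (M a48 (F (T t99 (L l54 (L l375 (T t0 (L l220 (L l462 (T t50 N))))))))) (K a213 (Fr a170 a255 l476 (Fr a42 a21 l68 (Fr a106 a234 l390 (Fr a192 a149 l519 (V t581))))) (K a42 (M a58 (F (T t118 (L l390 (L l462 (T t119 (L l28 (L l318 (T t120 (L l318 (L l390 (L l462 (T t121 N))))))))))))) (K a106 (M a12 (F (T t122 (L l2 (L l132 (T t123 (L l390 (L l462 (T t124 N))))))))) (K a170 (M a90 (F (L l180 (T t125 (L l54 (L l390 (T t126 (L l180 (L l318 (T t127 (L l54 (L l180 (L l390 (T t128 N)))))))))))))) (K a255 (M a4 (F (L l2 (L l54 (T t129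 (L l2 (L l265 (T t130 (L l54 (L l77 (L l265 (L l296 (T t131 N))))))))))))) N))))))))))))))))))⟩
def e0_63__71_10 : Ent 4 := ⟨[a0, a63], [a71, a11], (M a85 (F (T t88 (T t52 (T t89 (T t90 (K a64 (M a204 (F (T t1744 (L l125 (T t1576 N))))) (K a192 (M a16 (F (T t112 (L l77 (L l127 (T t96 (L l296 (T t98 N)))))))) (K a21 (M a48 (F (T t99 (T t50 (L l47 (T t100 N)))))) (K a149 (M a16 (F (T t112 (L l77 (L l331 (T t173 (L l57 (L l170 (T t102 N))))))))) (K a213 (Fr a170 a255 l476 (Fr a42 a21 l68 (Fr a106 a234 l390 (Fr a192 a149 l519 (V t581))))) (K a42 (M a48 (F (T t364 (L l390 (T t50 (L l28 (T t100 N))))))) (K a106 (M a48 (F (T t99 (L l2 (L l7 (T t1 (L l390 (T t50 N)))))))) (K a170 (M a16 (F (L l404 (T t113 (L l390 (T t98 (L l7 (L l390 (L l404 (T t97 (L l331 (L l404 (T t174 N))))))))))))) (K a255 (M a16 (F (T t112 (L l289 (T t113 (L l289 (L l296 (T t98 N)))))))) N)))))))))))))))⟩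
def e0_63__71_11 : Ent 4 := ⟨[a0, a63], [a71, a12], (M a48 (F (T t48 (L l3 (T t1 (L l3 (T t2 (L l3 (T t3 (L l3 (T t0 (K a16 (M a60 (F (T t138 (L l9 (L l14 (L l18 (L l331 (T t67 (T t65 N))))))))) (K a32 (M a60 (F (T t116 (L l74 (T t64 (L l24 (L l28 (T t65 N)))))))) (K a21 (M a192 (F (T t54 (L l478 (T t27 (L l47 (L l347 (T t29 N)))))))) (K a37 (M a192 (F (T t54 (L l478 (T t27 (L l470 (T t21 N))))))) (K a53 (M a192 (F (T t55 (L l470 (L l491 (T t21 (T t31 N))))))) (K a26 (M a192 (F (T t56 (L l478 (T t27 (L l470 (T t21 N))))))) (K a42 (M a192 (F (T t56 (L l478 (T t27 (L l28 (T t29 N))))))) (K a58 (M a192 (F (T t57 (L l478 (T t27 (L l54 (L l498 (T t31 N)))))))) (K a15 (M a192 (L l3 (F (T t47 (L l478 (L l483 (T t27 (L l325 (L l326 (L l331 (T t20 (K a13 (M a14 (F (T t1800 (L l325 (L l326 (L l331 (T t22 (L l478 (L l483 (T t28 N)))))))))) (K a14 (M a13 (F (T t1800 (L l325 (L l326 (L l331 (T t22 (L l478 (L l483 (T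 t28 N)))))))))) N))))))))))))) N))))))))))))))))))))⟩
def e0_63__71_12 : Ent 4 := ⟨[a0, a63], [a71, a13], (M a85 (F (T t88 (T t52 (T t89 (T t90 (K a64 (M a252 (F (T t91 (L l125 (T t92 N))))) (K a192 (M a16 (F (T t504 (L l77 (L l127 (T t96 (L l296 (T t98 N)))))))) (K a21 (M a48 (F (T t99 (T t50 (L l47 (T t100 N)))))) (K a149 (M a16 (F (T t101 (L l3 (L l375 (T t97 (L l170 (T t102 N)))))))) (K a213 (Fr a170 a255 l476 (Fr a42 a21 l68 (Fr a106 a234 l390 (Fr a192 a149 l519 (V t581))))) (K a42 (M a48 (F (T t364 (L l390 (T t50 (L l28 (T t100 N))))))) (K a106 (M a48 (F (T t99 (L l3 (T t1 (L l390 (T t50 N))))))) (K a170 (M a16 (F (L l404 (T t113 (L l390 (T t98 (L l3 (L l390 (L l404 (T t97 (L l331 (L l404 (T t174 N))))))))))))) (K a255 (M a16 (F (T t504 (L l289 (T t113 (L l289 (L l296 (T t98 N)))))))) N)))))))))))))))⟩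
def e0_63__71_13 : Ent 4 := ⟨[a0, a63], [a71, a14], (M a85 (F (T t88 (T t52 (T t89 (T t90 (K a64 (M a252 (F (T t91 (L l125 (T t92 N))))) (K a192 (M a16 (F (T t112 (L l77 (L l127 (T t96 (L l296 (T t98 N)))))))) (K a21 (M a48 (F (T t99 (T t50 (L l47 (T t100 N)))))) (K a149 (M a16 (F (T t112 (L l77 (L l331 (T t173 (L l72 (L l170 (T t102 N))))))))) (K a213 (Fr a170 a255 l476 (Fr a42 a21 l68 (Fr a106 a234 l390 (Fr a192 a149 l519 (V t581))))) (K a42 (M a48 (F (T t364 (L l390 (T t50 (L l28 (T t100 N))))))) (K a106 (M a48 (F (T t99 (L l3 (L l6 (T t1 (L l390 (T t50 N)))))))) (K a170 (M a16 (F (L l404 (T t113 (L l390 (T t98 (L l3 (L l390 (L l404 (T t97 (L l331 (L l404 (T t174 N))))))))))))) (K a255 (M a16 (F (T t112 (L l289 (T t113 (L l289 (L l296 (T t98 N)))))))) N)))))))))))))))⟩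
def e0_63__71_14 : Ent 4 := ⟨[a0, a63], [a71, a15], (M a12 (F (T t150 (L l73 (T t122 (L l73 (T t151 (L l73 (T t152 (L l73 (T t153 (K a4 (M a85 (F (T t89 (L l327 (T t124 (T t154 N)))))) (K a8 (M a85 (F (L l469 (T t52 (L l327 (L l464 (T t124 (L l56 (T t154 N))))))))) (K a21 (M a192 (F (T t158 (L l327 (T t156 (L l15 (L l347 (T t157 N)))))))) (K a25 (M a192 (F (T t155 (L l327 (T t156 (L l469 (T t21 N))))))) (K a29 (M a192 (F (T t159 (L l371 (L l469 (T t21 (T t160 N))))))) (K a38 (M a192 (F (T t576 (L l327 (T t156 (L l469 (T t21 N))))))) (K a42 (M a192 (F (T t161 (L l327 (T t156 (L l56 (T t157 N))))))) (K a46 (M a192 (F (T t57 (L l327 (T t156 (L l26 (L l408 (T t160 N)))))))) (K a51 (M a68 (L l73 (F (T t2173 (T t163 (L l439 (L l469 (L l513 (T t164 (K a39 (M a27 (F (T t2174 (L l63 (T t166 N))))) (K a27 (M a39 (F (T t2174 (L l63 (T t167 N))))) N))))))))))) N))))))))))))))))))))⟩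
def e0_63__71_15 : Ent 4 := ⟨[a0, a63], [a71, a16], (M a85 (F (T t88 (L l18 (T t52 (T t89 (T t90 (K a64 (M a204 (F (T t1744 (L l125 (T t1576 N))))) (K a192 (M a4 (F (T t1604 (L l344 (T t1399 (L l77 (L l296 (T t131 N)))))))) (K a21 (M a12 (L l18 (F (T t1368 (T t124 (L l15 (T t574 (K a26 (M a31 (F (T t1366 (L l14 (T t1369 N))))) (K a31 (M a26 (F (T t1368 (T t124 (L l13 (L l15 (T t574 N))))))) N))))))))) (K a149 (M a4 (F (T t1489 (L l495 (T t519 (L l125 (L l202 (T t1372 N)))))))) (K a213 (Fr a170 a255 l476 (Fr a42 a21 l68 (Fr a106 a234 l390 (Fr a192 a149 l519 (V t581))))) (K a42 (M a240 (F (T t1384 (L l390 (T t386 (T t1385 N)))))) (K a106 (M a12 (F (T t1368 (L l18 (T t122 (L l390 (T t124 N))))))) (K a170 (M a4 (F (L l464 (T t130 (L l77 (L l390 (T t131 (L l390 (L l464 (T t519 (L l464 (T t938 N)))))))))))) (K a255 (M a4 (F (T t1604 (L l265 (T t130 (L l77 (L l265 (L l296 (T t131 N))))))))) N))))))))))))))))⟩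
def e0_63__71_16 : Ent 4 := ⟨[a0, a63], [a71, a17], (M a85 (F (T t88 (L l15 (T t52 (T t89 (T t90 (K a64 (M a204 (F (T t1575 (L l125 (T t1576 N))))) (K a192 (M a16 (F (T t112 (L l77 (L l127 (T t96 (L l296 (T t98 N)))))))) (K a21 (M a48 (L l15 (F (T t99 (T t50 (L l47 (T t100 (K a25 (M a29 (F (T t50 (L l50 (T t2175 N))))) (K a29 (M a25 (F (T t99 (T t50 (L l47 (T t100 N)))))) N))))))))) (K a149 (M a16 (F (T t112 (L l77 (L l331 (T t173 (L l170 (T t102 N)))))))) (K a213 (Fr a170 a255 l476 (Fr a42 a21 l68 (Fr a106 a234 l390 (Fr a192 a149 l519 (V t581))))) (K a42 (M a48 (F (L l28 (T t99 (L l390 (T t50 (L l28 (T t100 N)))))))) (K a106 (M a48 (F (T t99 (L l15 (T t1 (L l390 (T t50 N))))))) (K a170 (M a16 (F (L l404 (T t113 (L l390 (T t98 (L l390 (L l404 (T t97 (L l331 (L l404 (T t174 N)))))))))))) (K a255 (M a16 (F (T t112 (L l289 (T t113 (L l289 (L l296 (T t98 N)))))))) N))))))))))))))))⟩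
def e0_63__71_17 : Ent 4 := ⟨[a0, a63], [a71, a18], (M a85 (F (T t88 (T t52 (T t89 (T t90 (K a64 (M a204 (F (T t1744 (L l125 (T t1576 N))))) (K a192 (M a16 (F (T t260 (L l339 (T t97 (L l296 (T t98 N))))))) (K a21 (M a48 (F (T t99 (T t50 (L l47 (T t100 N)))))) (K a149 (M a16 (F (T t112 (L l77 (L l331 (T t173 (L l16 (L l170 (L l366 (T t102 N)))))))))) (K a213 (Fr a170 a255 l476 (Fr a42 a21 l68 (Fr a106 a234 l390 (Fr a192 a149 l519 (V t581))))) (K a42 (M a48 (F (L l28 (T t99 (L l390 (T t50 (L l28 (T t100 N)))))))) (K a106 (M a48 (F (T t1 (L l77 (L l104 (L l127 (T t509 (L l390 (T t50 N))))))))) (K a170 (M a16 (F (L l404 (T t113 (L l390 (T t98 (L l390 (L l404 (T t97 (L l331 (L l404 (T t174 N)))))))))))) (K a255 (M a16 (F (T t112 (L l289 (T t113 (L l289 (L l296 (T t98 N)))))))) N)))))))))))))))⟩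
def e0_63__71_18 : Ent 4 := ⟨[a0, a63], [a71, a19], (M a85 (F (T t88 (T t52 (T t89 (T t90 (K a64 (M a48 (F (T t50 (L l367 (T t568 N))))) (K a192 (M a16 (F (T t112 (L l77 (L l127 (L l367 (T t96 (L l296 (L l367 (T t98 N)))))))))) (K a21 (M a48 (F (L l367 (T t99 (T t50 (L l47 (L l367 (T t100 N)))))))) (K a149 (M a16 (F (T t112 (L l77 (L l331 (L l367 (T t173 (L l170 (T t102 N))))))))) (K a213 (Fr a170 a255 l476 (Fr a42 a21 l68 (Fr a106 a234 l390 (Fr a192 a149 l519 (V t581))))) (K a42 (M a48 (F (L l10 (T t364 (L l390 (T t50 (L l28 (L l367 (T t100 N))))))))) (K a106 (M a48 (F (T t1 (L l77 (L l104 (L l127 (L l367 (T t509 (L l390 (T t50 N)))))))))) (K a170 (M a16 (F (L l390 (L l404 (T t112 (L l367 (L l390 (T t98 (L l367 (L l404 (T t113 (L l331 (L l367 (L l404 (T t174 N))))))))))))))) (K a255 (M a16 (F (T t112 (L l289 (L l367 (T t113 (L l289 (L l296 (L l367 (T t98 N)))))))))) N)))))))))))))))⟩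
def e0_63__71_19 : Ent 4 := ⟨[a0, a63], [a71, a20], (M a85 (F (T t88 (L l11 (T t52 (T t89 (T t90 (K a64 (M a204 (F (T t1744 (L l125 (T t1576 N))))) (K a192 (M a16 (F (T t112 (L l77 (L l127 (T t96 (L l296 (T t98 N)))))))) (K a21 (M a48 (L l11 (F (T t99 (T t50 (L l47 (T t100 (K a22 (M a23 (F (T t50 (L l19 (T t172 N))))) (K a23 (M a22 (F (T t99 (T t50 (L l47 (T t100 N)))))) N))))))))) (K a149 (M a16 (F (T t112 (L l77 (L l331 (T t173 (L l170 (T t102 N)))))))) (K a213 (Fr a170 a255 l476 (Fr a42 a21 l68 (Fr a106 a234 l390 (Fr a192 a149 l519 (V t581))))) (K a42 (M a48 (F (L l28 (T t99 (L l390 (T t50 (L l28 (T t100 N)))))))) (K a106 (M a48 (F (T t99 (L l11 (T t1 (L l390 (T t50 N))))))) (K a170 (M a16 (F (L l404 (T t113 (L l390 (T t98 (L l390 (L l404 (T t97 (L l331 (L l404 (T t174 N)))))))))))) (K a255 (M a16 (F (T t112 (L l289 (T t113 (L l289 (L l296 (T t98 N)))))))) N))))))))))))))))⟩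
def e0_63__71_20 : Ent 4 := ⟨[a0, a63], [a71, a22], (M a192 (F (T t21 (L l11 (T t35 (T t202 (L l66 (T t37 (K a64 (M a48 (F (T t56 (L l11 (T t1 (L l66 (L l116 (L l144 (T t31 N))))))))) (K a128 (M a48 (F (T t54 (L l11 (T t1 (L l66 (T t31 N))))))) (K a21 (M a20 (F (T t948 (L l66 (L l347 (T t949 (L l65 (L l347 (T t950 N))))))))) (K a85 (M a16 (F (T t210 (L l66 (T t97 (L l16 (L l66 (L l94 (L l144 (T t211 N)))))))))) (K a149 (M a48 (F (T t837 (L l11 (L l347 (L l491 (T t1 (L l11 (L l170 (L l220 (L l347 (L l491 (T t213 (L l66 (L l375 (T t214 N)))))))))))))))) (K a42 (M a2 (F (T t1363 (L l11 (L l390 (T t1804 (L l390 (T t1365 N)))))))) (K a106 (M a48 (F (T t27 (L l11 (T t1 (L l11 (L l411 (T t213 (L l66 (L l104 (L l144 (L l390 (L l498 (T t214 N)))))))))))))) (K a170 (M a32 (F (T t218 (L l11 (T t219 (L l11 (L l51 (L l180 (L l220 (T t220 N)))))))))) (K a255 (M a16 (F (T t1805 (L l66 (L l469 (T t97 (L l16 (L l66 (T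 t211 N))))))))) N)))))))))))))))))⟩
def e0_63__71_21 : Ent 4 := ⟨[a0, a63], [a71, a23], (M a149 (F (T t5 (L l11 (T t175 (T t176 (T t177 (K a192 (M a53 (F (T t178 (L l236 (T t179 (L l77 (L l236 (L l296 (T t180 N))))))))) (K a21 (M a48 (L l11 (F (T t4 (T t13 (L l18 (T t14 (K a20 (M a22 (F (T t4 (T t13 (L l14 (L l18 (T t14 N))))))) (K a22 (M a20 (F (T t4 (L l19 (L l50 (T t183 N)))))) N))))))))) (K a85 (M a16 (F (L l17 (T t97 (L l144 (T t190 (L l94 (T t278 N)))))))) (K a213 (Fr a106 a192 l519 (Fr a42 a21 l68 (Fr a170 a234 l390 (Fr a255 a85 l476 (V t582))))) (K a42 (M a48 (F (T t11 (L l390 (T t13 (L l54 (T t14 N))))))) (K a106 (M a48 (F (L l11 (T t1 (L l498 (T t14 (L l390 (L l498 (T t6 (L l390 (T t26 N))))))))))) (K a170 (M a48 (F (T t4 (L l11 (L l462 (T t1 (L l390 (T t13 N)))))))) (K a191 (M a252 (F (T t940 (T t941 N)))) (K a255 (M a16 (F (T t112 (L l266 (T t190 (L l289 (L l296 (T t191 N)))))))) N))))))))))))))))⟩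
def e0_63__71_22 : Ent 4 := ⟨[a0, a63], [a71, a24], (M a85 (F (T t88 (T t52 (T t89 (T t90 (K a64 (M a60 (F (T t114 (L l52 (T t115 N))))) (K a192 (M a16 (F (T t260 (L l339 (T t97 (L l296 (T t98 N))))))) (K a21 (M a48 (F (T t99 (T t50 (L l47 (T t100 N)))))) (K a149 (M a16 (F (T t112 (L l77 (L l331 (T t173 (L l12 (L l170 (L l356 (T t102 N)))))))))) (K a213 (Fr a170 a255 l476 (Fr a42 a21 l68 (Fr a106 a234 l390 (Fr a192 a149 l519 (V t581))))) (K a42 (M a48 (F (L l28 (T t99 (L l390 (T t50 (L l28 (T t100 N)))))))) (K a106 (M a48 (F (T t1 (L l77 (L l104 (L l127 (T t509 (L l390 (T t50 N))))))))) (K a170 (M a16 (F (L l404 (T t113 (L l390 (T t98 (L l390 (L l404 (T t97 (L l331 (L l404 (T t174 N)))))))))))) (K a255 (M a16 (F (T t112 (L l289 (T t113 (L l289 (L l296 (T t98 N)))))))) N)))))))))))))))⟩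
def e0_63__71_23 : Ent 4 := ⟨[a0, a63], [a71, a25], (M a192 (F (T t21 (L l15 (T t35 (T t202 (L l56 (T t37 (K a64 (M a48 (F (T t56 (L l15 (T t1 (L l56 (L l116 (L l144 (T t31 N))))))))) (K a128 (M a48 (F (T t54 (L l15 (T t1 (L l56 (T t31 N))))))) (K a21 (M a17 (F (T t207 (L l56 (L l347 (T t208 (L l56 (T t209 N)))))))) (K a85 (M a16 (F (T t210 (L l56 (T t97 (L l12 (L l56 (L l94 (L l144 (T t211 N)))))))))) (K a149 (M a48 (F (T t837 (L l15 (L l347 (L l491 (T t1 (L l15 (L l170 (L l220 (L l347 (L l491 (T t213 (L l56 (L l375 (T t214 N)))))))))))))))) (K a42 (M a8 (F (T t215 (L l15 (L l390 (T t1807 (L l15 (T t217 N)))))))) (K a106 (M a48 (F (T t27 (L l15 (T t1 (L l15 (L l411 (T t213 (L l56 (L l104 (L l144 (L l390 (L l498 (T t214 N)))))))))))))) (K a170 (M a32 (F (T t218 (L l15 (T t219 (L l15 (L l71 (L l180 (L l220 (T t220 N)))))))))) (K a255 (M a16 (F (T t1805 (L l56 (L l469 (T t97 (L l12 (L l56 (T t211 N)))))))))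 N)))))))))))))))))⟩
def e0_63__71_24 : Ent 4 := ⟨[a0, a63], [a71, a26], (M a192 (F (T t21 (L l18 (T t35 (T t202 (L l54 (T t37 (K a64 (M a12 (F (T t450 (L l18 (T t122 (L l54 (L l80 (L l144 (T t160 N))))))))) (K a128 (M a12 (F (T t221 (L l18 (T t122 (L l54 (T t160 N))))))) (K a21 (M a16 (F (T t210 (L l54 (L l347 (T t222 (L l331 (L l347 (T t223 N))))))))) (K a85 (M a48 (F (T t28 (L l331 (L l347 (T t20 (L l18 (L l54 (L l144 (L l368 (T t224 N))))))))))) (K a149 (M a12 (F (T t836 (L l18 (L l347 (L l371 (T t122 (L l18 (L l202 (L l220 (L l347 (L l371 (T t227 (L l54 (L l495 (T t228 N)))))))))))))))) (K a42 (M a10 (F (T t2176 (L l18 (L l390 (T t230 (L l390 (T t231 N)))))))) (K a106 (M a12 (F (T t156 (L l18 (T t122 (L l18 (L l501 (T t227 (L l54 (L l132 (L l144 (L l390 (L l408 (T t228 N)))))))))))))) (K a170 (M a48 (F (T t837 (L l54 (L l331 (L l390 (T t206 (L l220 (L l404 (T t29 N)))))))))) (K a255 (M a224 (F (T t233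 (T t232 (L l18 (L l75 (T t234 N))))))) N)))))))))))))))))⟩
def e0_63__71_25 : Ent 4 := ⟨[a0, a63], [a71, a27], (M a85 (F (T t88 (T t52 (T t89 (T t90 (K a64 (M a204 (F (T t1744 (L l125 (T t1576 N))))) (K a192 (M a16 (F (T t260 (L l17 (L l73 (L l339 (T t97 (L l296 (T t98 N))))))))) (K a21 (M a48 (F (T t99 (T t50 (L l47 (T t100 N)))))) (K a149 (M a16 (F (T t112 (L l77 (L l331 (T t173 (L l12 (L l170 (T t102 N))))))))) (K a213 (Fr a170 a255 l476 (Fr a42 a21 l68 (Fr a106 a234 l390 (Fr a192 a149 l519 (V t581))))) (K a42 (M a48 (F (T t364 (L l390 (T t50 (L l28 (T t100 N))))))) (K a106 (M a48 (F (T t99 (L l73 (T t1 (L l390 (T t50 N))))))) (K a170 (M a16 (F (L l404 (T t113 (L l390 (T t98 (L l17 (L l73 (L l390 (L l404 (T t97 (L l331 (L l404 (T t174 N)))))))))))))) (K a255 (M a16 (F (T t112 (L l289 (T t113 (L l289 (L l296 (T t98 N)))))))) N)))))))))))))))⟩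
def e0_63__71_26 : Ent 4 := ⟨[a0, a63], [a71, a28], (M a85 (F (T t88 (T t52 (T t89 (T t90 (K a64 (M a48 (F (T t50 (L l362 (T t568 N))))) (K a192 (M a16 (F (T t112 (L l77 (L l127 (L l362 (T t96 (L l296 (L l362 (T t98 N)))))))))) (K a21 (M a48 (F (L l362 (T t99 (T t50 (L l47 (L l362 (T t100 N)))))))) (K a149 (M a16 (F (T t112 (L l77 (L l331 (L l362 (T t173 (L l170 (T t102 N))))))))) (K a213 (Fr a170 a255 l476 (Fr a42 a21 l68 (Fr a106 a234 l390 (Fr a192 a149 l519 (V t581))))) (K a42 (M a48 (F (L l14 (T t364 (L l390 (T t50 (L l28 (L l362 (T t100 N))))))))) (K a106 (M a48 (F (T t1 (L l77 (L l104 (L l127 (L l362 (T t509 (L l390 (T t50 N)))))))))) (K a170 (M a16 (F (L l390 (L l404 (T t112 (L l362 (L l390 (T t98 (L l362 (L l404 (T t113 (L l331 (L l362 (L l404 (T t174 N))))))))))))))) (K a255 (M a16 (F (T t112 (L l289 (L l362 (T t113 (L l289 (L l296 (L l362 (T t98 N)))))))))) N)))))))))))))))⟩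
def e0_63__71_27 : Ent 4 := ⟨[a0, a63], [a71, a29], (M a149 (F (T t5 (L l15 (T t175 (T t176 (T t177 (K a192 (M a53 (F (T t178 (L l236 (T t179 (L l77 (L l236 (L l296 (T t180 N))))))))) (K a21 (M a48 (L l15 (F (T t4 (T t13 (L l18 (T t14 (K a17 (M a25 (F (T t4 (T t13 (L l10 (L l18 (T t14 N))))))) (K a25 (M a17 (F (T t4 (L l19 (L l65 (T t642 N)))))) N))))))))) (K a85 (M a16 (F (L l13 (T t97 (L l144 (T t190 (L l94 (T t278 N)))))))) (K a213 (Fr a106 a192 l519 (Fr a42 a21 l68 (Fr a170 a234 l390 (Fr a255 a85 l476 (V t582))))) (K a42 (M a48 (F (T t11 (L l390 (T t13 (L l54 (T t14 N))))))) (K a106 (M a48 (F (L l15 (T t1 (L l498 (T t14 (L l390 (L l498 (T t6 (L l390 (T t26 N))))))))))) (K a170 (M a48 (F (T t4 (L l15 (L l462 (T t1 (L l390 (T t13 N)))))))) (K a191 (M a252 (F (T t940 (T t941 N)))) (K a255 (M a16 (F (T t112 (L l266 (T t190 (L l289 (L l296 (T t191 N)))))))) N))))))))))))))))⟩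
def e0_63__71_28 : Ent 4 := ⟨[a0, a63], [a71, a30], (M a85 (F (T t88 (T t52 (T t89 (T t90 (K a64 (M a204 (F (T t1744 (L l125 (T t1576 N))))) (K a192 (M a16 (F (T t260 (L l13 (L l63 (L l339 (T t97 (L l296 (T t98 N))))))))) (K a21 (M a48 (F (T t99 (T t50 (L l47 (T t100 N)))))) (K a149 (M a16 (F (T t112 (L l77 (L l331 (T t173 (L l16 (L l170 (T t102 N))))))))) (K a213 (Fr a170 a255 l476 (Fr a42 a21 l68 (Fr a106 a234 l390 (Fr a192 a149 l519 (V t581))))) (K a42 (M a48 (F (T t364 (L l390 (T t50 (L l28 (T t100 N))))))) (K a106 (M a48 (F (T t99 (L l63 (T t1 (L l390 (T t50 N))))))) (K a170 (M a16 (F (L l404 (T t113 (L l390 (T t98 (L l13 (L l63 (L l390 (L l404 (T t97 (L l331 (L l404 (T t174 N)))))))))))))) (K a255 (M a16 (F (T t112 (L l289 (T t113 (L l289 (L l296 (T t98 N)))))))) N)))))))))))))))⟩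
def e0_63__71_29 : Ent 4 := ⟨[a0, a63], [a71, a31], (M a149 (F (T t5 (L l18 (T t175 (T t176 (T t177 (K a192 (M a29 (F (T t956 (L l272 (T t641 (L l272 (L l296 (L l363 (T t957 N))))))))) (K a21 (M a12 (L l18 (F (T t958 (T t648 (L l50 (T t649 (K a16 (M a26 (F (T t958 (T t648 (L l50 (T t649 N)))))) (K a26 (M a16 (F (T t958 (L l50 (L l57 (T t652 N)))))) N))))))))) (K a85 (M a48 (F (T t4 (L l18 (T t1 (L l144 (T t13 N))))))) (K a213 (Fr a106 a192 l519 (Fr a42 a21 l68 (Fr a170 a234 l390 (Fr a255 a85 l476 (V t582))))) (K a42 (M a48 (F (T t11 (L l390 (T t13 (L l18 (L l54 (T t14 N)))))))) (K a106 (M a12 (F (L l408 (T t649 (L l13 (L l18 (T t122 (L l390 (L l408 (T t960 (L l390 (T t961 N)))))))))))) (K a170 (M a48 (F (T t4 (L l18 (L l462 (T t1 (L l390 (T t13 N)))))))) (K a191 (M a240 (F (T t1091 (T t963 N)))) (K a255 (M a48 (F (T t964 (L l18 (L l469 (T t1 (L l266 (T t13 N)))))))) N))))))))))))))))⟩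
def e0_63__71_30 : Ent 4 := ⟨[a0, a63], [a71, a32], (M a85 (F (T t52 (L l28 (T t88 (L l28 (T t89 (L l404 (T t90 (K a64 (M a240 (F (L l376 (T t1384 (L l404 (T t933 (L l28 (L l376 (T t1550 N))))))))) (K a192 (M a4 (F (T t1399 (L l28 (L l489 (T t519 (L l28 (L l77 (L l296 (T t131 N)))))))))) (K a21 (M a240 (F (T t1552 (L l404 (T t933 (L l376 (T t1385 N))))))) (K a149 (M a4 (F (T t1371 (L l28 (L l495 (T t519 (L l28 (L l125 (L l202 (T t1372 N)))))))))) (K a213 (Fr a170 a255 l476 (Fr a42 a21 l68 (Fr a106 a234 l390 (Fr a192 a149 l519 (V t581))))) (K a42 (M a47 (F (T t1808 (L l390 (L l404 (T t1404 (L l54 (L l376 (T t1403 (L l376 (L l390 (L l404 (T t1809 N))))))))))))) (K a106 (M a12 (F (T t1368 (L l20 (T t122 (L l390 (L l404 (T t124 N)))))))) (K a170 (M a101 (F (L l206 (T t1810 (L l28 (L l77 (L l390 (T t1811 (L l206 (L l376 (T t1812 (L l28 (L l206 (L l390 (T t1813 N))))))))))))))) (K a255 (M a4 (F (L l28 (T t129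 (L l265 (T t130 (L l28 (L l77 (L l265 (L l296 (T t131 N))))))))))) N))))))))))))))))))⟩
def e0_63__71_31 : Ent 4 := ⟨[a0, a63], [a71, a33], (M a85 (F (T t88 (T t52 (T t89 (T t90 (K a64 (M a204 (F (T t1744 (L l125 (T t1576 N))))) (K a192 (M a16 (F (L l20 (T t260 (T t966 (L l20 (L l339 (T t97 N)))))))) (K a21 (M a48 (F (L l20 (T t99 (T t50 (L l20 (L l47 (T t100 N)))))))) (K a149 (M a16 (F (L l20 (T t112 (L l77 (T t666 (L l170 (T t102 N)))))))) (K a213 (Fr a170 a255 l476 (Fr a42 a21 l68 (Fr a106 a234 l390 (Fr a192 a149 l519 (V t581))))) (K a42 (M a48 (F (T t364 (L l390 (T t50 (L l20 (L l28 (T t100 N)))))))) (K a106 (M a48 (F (T t364 (T t1 (L l390 (T t50 N)))))) (K a170 (M a16 (F (L l20 (L l404 (T t113 (L l390 (T t98 (L l20 (L l390 (L l404 (T t97 (L l20 (L l331 (L l404 (T t174 N))))))))))))))) (K a255 (M a16 (F (L l20 (T t112 (L l289 (L l296 (T t98 (L l20 (L l289 (T t113 N)))))))))) N)))))))))))))))⟩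
def e0_63__71_32 : Ent 4 := ⟨[a0, a63], [a71, a34], (M a85 (F (T t52 (L l26 (T t88 (L l26 (T t89 (L l402 (T t90 (K a64 (M a16 (F (L l20 (T t101 (L l26 (L l116 (T t98 (L l20 (L l26 (T t97 N)))))))))) (K a192 (M a16 (F (L l20 (L l26 (T t112 (L l77 (L l296 (T t666 (L l26 (L l296 (T t98 N))))))))))) (K a21 (M a48 (F (L l20 (T t99 (L l402 (T t50 (L l20 (L l47 (T t100 N))))))))) (K a149 (M a16 (F (L l77 (T t666 (L l20 (L l26 (L l375 (T t97 (L l26 (L l170 (T t102 N))))))))))) (K a213 (Fr a170 a255 l476 (Fr a42 a21 l68 (Fr a106 a234 l390 (Fr a192 a149 l519 (V t581))))) (K a42 (M a46 (F (T t1814 (L l390 (L l402 (T t1389 (L l56 (L l378 (T t1390 (L l378 (L l390 (L l402 (T t1391 N))))))))))))) (K a106 (M a48 (F (T t364 (T t1 (L l390 (L l402 (T t50 N))))))) (K a170 (M a102 (F (L l125 (L l208 (T t1392 (L l26 (L l77 (L l390 (T t1393 (L l125 (L l208 (L l378 (T t1394 (L l26 (L l208 (L l390 (T t1395 N))))))))))))))))) (K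 a255 (M a16 (F (L l20 (L l26 (T t112 (L l20 (L l289 (T t113 (L l26 (L l289 (L l296 (T t98 N)))))))))))) N))))))))))))))))))⟩
def e0_63__71_33 : Ent 4 := ⟨[a0, a63], [a71, a35], (M a85 (F (T t88 (T t52 (T t89 (T t90 (K a64 (M a204 (F (T t1744 (L l125 (T t1576 N))))) (K a192 (M a16 (F (L l20 (T t260 (T t966 (L l20 (L l339 (T t97 N)))))))) (K a21 (M a48 (F (L l20 (T t99 (T t50 (L l20 (L l47 (T t100 N)))))))) (K a149 (M a16 (F (L l20 (T t112 (L l77 (T t666 (L l170 (T t102 N)))))))) (K a213 (Fr a170 a255 l476 (Fr a42 a21 l68 (Fr a106 a234 l390 (Fr a192 a149 l519 (V t581))))) (K a42 (M a48 (F (L l403 (T t364 (L l390 (T t50 (L l20 (L l28 (T t100 N))))))))) (K a106 (M a48 (F (T t1 (L l20 (L l77 (L l104 (L l127 (T t509 (L l390 (T t50 N)))))))))) (K a170 (M a16 (F (L l20 (L l404 (T t113 (L l390 (T t98 (L l20 (L l390 (L l404 (T t97 (L l20 (L l331 (L l404 (T t174 N))))))))))))))) (K a255 (M a16 (F (L l20 (T t112 (L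 l289 (L l296 (T t98 (L l20 (L l289 (T t113 N)))))))))) N)))))))))))))))⟩
def e0_63__71_34 : Ent 4 := ⟨[a0, a63], [a71, a36], (M a85 (F (T t88 (T t52 (T t89 (T t90 (K a64 (M a60 (F (T t114 (L l24 (T t115 N))))) (K a192 (M a16 (F (L l24 (T t260 (T t966 (L l24 (L l339 (T t97 N)))))))) (K a21 (M a48 (F (L l24 (T t99 (T t50 (L l24 (L l47 (T t100 N)))))))) (K a149 (M a16 (F (L l24 (T t112 (L l77 (T t666 (L l170 (T t102 N)))))))) (K a213 (Fr a170 a255 l476 (Fr a42 a21 l68 (Fr a106 a234 l390 (Fr a192 a149 l519 (V t581))))) (K a42 (M a48 (F (T t364 (L l390 (T t50 (L l24 (L l28 (T t100 N)))))))) (K a106 (M a48 (F (T t364 (T t1 (L l390 (T t50 N)))))) (K a170 (M a16 (F (L l24 (L l404 (T t113 (L l390 (T t98 (L l24 (L l390 (L l404 (T t97 (L l24 (L l331 (L l404 (T t174 N))))))))))))))) (K a255 (M a16 (F (L l24 (T t112 (L l289 (L l296 (T t98 (L l24 (L l289 (T t113 N)))))))))) N)))))))))))))))⟩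
def e0_63__71_35 : Ent 4 := ⟨[a0, a63], [a71, a37], (M a192 (F (T t21 (L l47 (T t35 (T t202 (L l28 (T t37 (K a64 (M a12 (F (T t450 (L l47 (T t122 (L l28 (L l80 (L l144 (T t160 N))))))))) (K a128 (M a12 (F (T t221 (L l47 (T t122 (L l28 (T t160 N))))))) (K a21 (M a5 (F (T t2177 (L l28 (L l347 (T t1816 (L l28 (T t1817 N)))))))) (K a85 (M a48 (F (T t27 (L l47 (L l331 (L l347 (T t20 (L l144 (L l368 (T t224 N)))))))))) (K a149 (M a12 (F (T t836 (L l47 (L l347 (L l371 (T t122 (L l47 (L l202 (L l220 (L l347 (L l371 (T t227 (L l28 (L l495 (T t228 N)))))))))))))))) (K a42 (M a32 (F (T t218 (L l47 (L l390 (T t1818 (L l47 (L l331 (T t1819 N))))))))) (K a106 (M a12 (F (T t156 (L l47 (T t122 (L l47 (L l501 (T t227 (L l28 (L l132 (L l144 (L l390 (L l408 (T t228 N)))))))))))))) (K a170 (M a48 (F (T t19 (L l331 (L l390 (T t206 (L l28 (L l47 (L l220 (L l404 (T t29 N))))))))))) (K a255 (M a208 (F (T t1820 (T t1821 (L l28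 (L l75 (T t1822 N))))))) N)))))))))))))))))⟩
def e0_63__71_36 : Ent 4 := ⟨[a0, a63], [a71, a38], (M a192 (F (T t21 (L l50 (T t35 (T t202 (L l26 (T t37 (K a64 (M a48 (F (T t56 (L l50 (T t1 (L l26 (L l116 (L l144 (T t31 N))))))))) (K a128 (M a48 (F (T t54 (L l50 (T t1 (L l26 (T t31 N))))))) (K a21 (M a4 (F (T t1407 (L l26 (L l347 (T t1408 (L l347 (T t1409 N)))))))) (K a85 (M a16 (F (T t210 (L l26 (T t97 (L l26 (L l72 (L l94 (L l144 (T t211 N)))))))))) (K a149 (M a48 (F (T t837 (L l50 (L l347 (L l491 (T t1 (L l50 (L l170 (L l220 (L l347 (L l491 (T t213 (L l26 (L l375 (T t214 N)))))))))))))))) (K a42 (M a34 (F (T t1410 (L l50 (L l390 (T t1411 (L l390 (T t1412 N)))))))) (K a106 (M a48 (F (T t27 (L l50 (T t1 (L l50 (L l411 (T t213 (L l26 (L l104 (L l144 (L l390 (L l498 (T t214 N)))))))))))))) (K a170 (M a32 (F (T t218 (L l50 (T t219 (L l21 (L l50 (L l180 (L l220 (T t220 N)))))))))) (K a255 (M a16 (F (T t1805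 (L l26 (L l469 (T t97 (L l26 (L l72 (T t211 N))))))))) N)))))))))))))))))⟩
def e0_63__71_37 : Ent 4 := ⟨[a0, a63], [a71, a39], (M a85 (F (T t88 (T t52 (T t89 (T t90 (K a64 (M a204 (F (T t1744 (L l125 (T t1576 N))))) (K a192 (M a16 (F (T t112 (L l77 (L l127 (T t96 (L l296 (T t98 N)))))))) (K a21 (M a48 (F (T t99 (T t50 (L l47 (T t100 N)))))) (K a149 (M a16 (F (T t112 (L l77 (L l331 (T t173 (L l170 (T t102 N)))))))) (K a213 (Fr a170 a255 l476 (Fr a42 a21 l68 (Fr a106 a234 l390 (Fr a192 a149 l519 (V t581))))) (K a42 (M a48 (F (T t364 (L l390 (T t50 (L l28 (T t100 N))))))) (K a106 (M a48 (F (T t99 (L l73 (T t1 (L l390 (T t50 N))))))) (K a170 (M a16 (F (L l404 (T t113 (L l390 (T t98 (L l73 (L l390 (L l404 (T t97 (L l331 (L l404 (T t174 N))))))))))))) (K a255 (M a16 (F (T t112 (L l289 (T t113 (L l289 (L l296 (T t98 N)))))))) N)))))))))))))))⟩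
def e0_63__71_38 : Ent 4 := ⟨[a0, a63], [a71, a40], (M a85 (F (T t52 (L l22 (T t88 (L l22 (T t89 (L l392 (T t90 (K a64 (M a16 (F (L l24 (T t101 (L l22 (L l116 (T t98 (L l22 (L l24 (T t97 N)))))))))) (K a192 (M a16 (F (L l22 (L l24 (T t112 (L l77 (L l296 (T t666 (L l22 (L l296 (T t98 N))))))))))) (K a21 (M a48 (F (L l24 (T t99 (L l392 (T t50 (L l24 (L l47 (T t100 N))))))))) (K a149 (M a16 (F (L l77 (T t666 (L l22 (L l24 (L l375 (T t97 (L l22 (L l170 (T t102 N))))))))))) (K a213 (Fr a170 a255 l476 (Fr a42 a21 l68 (Fr a106 a234 l390 (Fr a192 a149 l519 (V t581))))) (K a42 (M a43 (F (T t667 (L l125 (L l390 (L l392 (T t265 (L l66 (L l388 (T t264 (L l388 (L l390 (L l392 (T t1824 N)))))))))))))) (K a106 (M a48 (F (T t364 (T t1 (L l390 (L l392 (T t50 N))))))) (K a170 (M a105 (F (L l218 (T t669 (L l22 (L l390 (T t670 (L l218 (L l388 (T t967 (L l22 (L l218 (L l390 (T t672 N)))))))))))))) (K a255 (M a16 (F (L l22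 (L l24 (T t112 (L l24 (L l289 (T t113 (L l22 (L l289 (L l296 (T t98 N)))))))))))) N))))))))))))))))))⟩
def e0_63__71_39 : Ent 4 := ⟨[a0, a63], [a71, a41], (M a192 (F (T t21 (L l65 (T t35 (T t202 (L l22 (T t37 (K a64 (M a48 (F (T t56 (L l65 (T t1 (L l22 (L l116 (L l144 (T t31 N))))))))) (K a128 (M a48 (F (T t54 (L l65 (T t1 (L l22 (T t31 N))))))) (K a21 (M a1 (F (T t1825 (L l22 (L l347 (T t1826 (L l22 (T t1827 N)))))))) (K a85 (M a16 (F (T t210 (L l22 (T t97 (L l22 (L l57 (L l94 (L l144 (T t211 N)))))))))) (K a149 (M a48 (F (T t837 (L l65 (L l347 (L l491 (T t1 (L l65 (L l170 (L l220 (L l347 (L l491 (T t213 (L l22 (L l375 (T t214 N)))))))))))))))) (K a42 (M a40 (F (T t1828 (L l65 (L l390 (T t1829 (L l65 (T t1830 N)))))))) (K a106 (M a48 (F (T t27 (L l65 (T t1 (L l65 (L l411 (T t213 (L l22 (L l104 (L l144 (L l390 (L l498 (T t214 N)))))))))))))) (K a170 (M a32 (F (T t218 (L l65 (T t219 (L l25 (L l65 (L l180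 (L l220 (T t220 N)))))))))) (K a255 (M a16 (F (T t1805 (L l22 (L l469 (T t97 (L l22 (L l57 (T t211 N))))))))) N)))))))))))))))))⟩
def e0_63__71_40 : Ent 4 := ⟨[a0, a63], [a71, a43], (M a149 (F (T t175 (L l22 (T t5 (L l22 (T t176 (L l393 (T t177 (K a192 (M a53 (F (L l22 (T t178 (L l236 (T t179 (L l22 (L l77 (L l236 (L l296 (T t180 N))))))))))) (K a21 (M a48 (F (T t4 (L l393 (T t13 (L l18 (T t14 N))))))) (K a85 (M a16 (F (L l22 (T t97 (L l144 (L l393 (T t190 (L l22 (L l94 (T t278 N)))))))))) (K a213 (Fr a106 a192 l519 (Fr a42 a21 l68 (Fr a170 a234 l390 (Fr a255 a85 l476 (V t582))))) (K a42 (M a40 (F (T t973 (L l390 (L l393 (T t974 (L l66 (L l391 (T t969 (L l390 (L l391 (L l393 (T t972 N))))))))))))) (K a106 (M a169 (F (L l22 (L l142 (L l390 (T t2178 (L l22 (L l390 (T t977 (L l142 (L l331 (L l391 (T t978 (L l22 (L l127 (L l142 (L l390 (T t979 (L l125 (L l142 (L l331 (T t981 N)))))))))))))))))))))) (K a170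 (M a48 (F (T t4 (L l462 (T t1 (L l390 (L l393 (T t13 N)))))))) (K a191 (M a16 (F (L l22 (T t97 (L l393 (T t190 (L l22 (L l213 (T t191 N))))))))) (K a255 (M a16 (F (T t192 (L l22 (T t193 (L l266 (L l393 (T t190 N)))))))) N))))))))))))))))))⟩
def e0_63__71_41 : Ent 4 := ⟨[a0, a63], [a71, a44], (M a85 (F (T t88 (T t52 (T t89 (T t90 (K a64 (M a60 (F (T t114 (L l24 (T t115 N))))) (K a192 (M a16 (F (L l24 (T t260 (T t966 (L l24 (L l339 (T t97 N)))))))) (K a21 (M a48 (F (L l24 (T t99 (T t50 (L l24 (L l47 (T t100 N)))))))) (K a149 (M a16 (F (L l24 (T t112 (L l77 (T t666 (L l170 (T t102 N)))))))) (K a213 (Fr a170 a255 l476 (Fr a42 a21 l68 (Fr a106 a234 l390 (Fr a192 a149 l519 (V t581))))) (K a42 (M a48 (F (L l398 (T t364 (L l390 (T t50 (L l24 (L l28 (T t100 N))))))))) (K a106 (M a48 (F (T t1 (L l24 (L l77 (L l104 (L l127 (T t509 (L l390 (T t50 N)))))))))) (K a170 (M a16 (F (L l24 (L l404 (T t113 (L l390 (T t98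 (L l24 (L l390 (L l404 (T t97 (L l24 (L l331 (L l404 (T t174 N))))))))))))))) (K a255 (M a16 (F (L l24 (T t112 (L l289 (L l296 (T t98 (L l24 (L l289 (T t113 N)))))))))) N)))))))))))))))⟩
def e0_63__71_42 : Ent 4 := ⟨[a0, a63], [a71, a45], (M a85 (F (T t88 (T t52 (T t89 (T t90 (K a64 (M a204 (F (T t1744 (L l125 (T t1576 N))))) (K a192 (M a16 (F (T t112 (L l77 (L l127 (T t96 (L l296 (T t98 N)))))))) (K a21 (M a48 (F (T t99 (T t50 (L l47 (T t100 N)))))) (K a149 (M a16 (F (T t112 (L l77 (L l331 (T t173 (L l170 (T t102 N)))))))) (K a213 (Fr a170 a255 l476 (Fr a42 a21 l68 (Fr a106 a234 l390 (Fr a192 a149 l519 (V t581))))) (K a42 (M a48 (F (T t364 (L l390 (T t50 (L l28 (T t100 N))))))) (K a106 (M a48 (F (T t99 (L l63 (T t1 (L l390 (T t50 N))))))) (K a170 (M a16 (F (L l404 (T t113 (L l390 (T t98 (L l63 (L l390 (L l404 (T t97 (L l331 (L l404 (T t174 N))))))))))))) (K a255 (M a16 (F (T t112 (L l289 (T t113 (L l289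 (L l296 (T t98 N)))))))) N)))))))))))))))⟩
def e0_63__71_43 : Ent 4 := ⟨[a0, a63], [a71, a46], (M a149 (F (T t175 (L l26 (T t5 (L l26 (T t176 (L l408 (T t177 (K a192 (M a53 (F (L l26 (T t178 (L l236 (T t179 (L l26 (L l77 (L l236 (L l296 (T t180 N))))))))))) (K a21 (M a48 (F (T t4 (L l408 (T t13 (L l18 (T t14 N))))))) (K a85 (M a16 (F (L l26 (T t97 (L l144 (L l408 (T t190 (L l26 (L l94 (T t278 N)))))))))) (K a213 (Fr a106 a192 l519 (Fr a42 a21 l68 (Fr a170 a234 l390 (Fr a255 a85 l476 (V t582))))) (K a42 (M a34 (F (T t279 (L l390 (L l408 (T t280 (L l56 (L l396 (T t281 (L l390 (L l396 (L l408 (T t282 N))))))))))))) (K a106 (M a166 (F (L l132 (T t283 (L l26 (L l77 (L l390 (T t284 (L l132 (L l396 (T t285 (L l26 (L l132 (L l390 (T t286 N))))))))))))))) (K a170 (M a48 (F (T t4 (L l462 (T t1 (L l390 (L l408 (T t13 N)))))))) (K a191 (M a16 (F (L l26 (T t97 (L l408 (T t190 (L l26 (L l213 (T t191 N))))))))) (K a255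 (M a16 (F (T t192 (L l26 (T t193 (L l266 (L l408 (T t190 N)))))))) N))))))))))))))))))⟩
def e0_63__71_44 : Ent 4 := ⟨[a0, a63], [a71, a47], (M a149 (F (T t175 (L l28 (T t5 (L l28 (T t176 (L l411 (T t177 (K a192 (M a29 (F (L l23 (L l28 (T t956 (L l23 (L l272 (T t641 (L l28 (L l272 (L l296 (T t957 N)))))))))))) (K a21 (M a48 (F (T t4 (L l411 (T t13 (L l18 (L l397 (T t14 N)))))))) (K a85 (M a48 (F (T t4 (L l28 (L l455 (T t2 (L l144 (L l411 (T t13 N))))))))) (K a213 (Fr a106 a192 l519 (Fr a42 a21 l68 (Fr a170 a234 l390 (Fr a255 a85 l476 (V t582))))) (K a42 (M a32 (F (L l127 (T t983 (L l390 (L l411 (T t984 (L l54 (L l397 (T t985 (L l390 (L l397 (L l411 (T t2179 N)))))))))))))) (K a106 (M a165 (F (L l130 (T t987 (L l28 (L l77 (L l390 (T t988 (L l130 (L l397 (T t989 (L l28 (L l130 (L l390 (T t990 N))))))))))))))) (K a170 (M a12 (F (T t991 (L l402 (T t122 (L l390 (L l411 (T t648 N)))))))) (K a191 (M a144 (F (L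 l411 (T t992 (L l28 (L l213 (T t993 (L l411 (T t994 N))))))))) (K a255 (M a48 (F (T t16 (L l28 (L l469 (T t2 (L l266 (L l411 (T t13 N))))))))) N))))))))))))))))))⟩
def e0_63__71_45 : Ent 4 := ⟨[a0, a63], [a71, a48], (M a12 (F (T t150 (L l30 (T t122 (L l30 (T t151 (L l30 (T t152 (L l30 (T t153 (K a4 (M a60 (F (T t570 (L l45 (L l46 (L l50 (L l331 (T t67 (T t448 N))))))))) (K a8 (M a60 (F (T t116 (L l75 (T t398 (L l52 (L l56 (T t448 N)))))))) (K a21 (M a192 (F (T t158 (L l508 (T t156 (L l15 (L l347 (T t157 N)))))))) (K a25 (M a192 (F (T t155 (L l508 (T t156 (L l440 (T t21 N))))))) (K a29 (M a192 (F (T t159 (L l371 (L l440 (T t21 (T t160 N))))))) (K a38 (M a192 (F (T t576 (L l508 (T t156 (L l440 (T t21 N))))))) (K a42 (M a192 (F (T t161 (L l508 (T t156 (L l56 (T t157 N))))))) (K a46 (M a192 (F (T t57 (L l508 (T t156 (L l26 (L l408 (T t160 N)))))))) (K a51 (M a192 (L l30 (F (T t47 (L l508 (L l513 (T t156 (L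 l415 (L l416 (T t450 (K a49 (M a50 (F (T t1800 (L l415 (L l416 (T t543 (L l508 (L l513 (T t468 N))))))))) (K a50 (M a49 (F (T t1800 (L l415 (L l416 (T t543 (L l508 (L l513 (T t468 N))))))))) N)))))))))))) N))))))))))))))))))))⟩
def e0_63__71_46 : Ent 4 := ⟨[a0, a63], [a71, a49], (M a85 (F (T t88 (T t52 (T t89 (T t90 (K a64 (M a204 (F (T t1744 (L l125 (T t1576 N))))) (K a192 (M a16 (F (T t112 (L l77 (L l127 (L l509 (T t96 (L l296 (T t98 N))))))))) (K a21 (M a48 (F (T t99 (L l437 (T t50 (L l35 (L l47 (T t100 N)))))))) (K a149 (M a16 (F (T t112 (L l77 (L l331 (T t173 (L l170 (T t102 N)))))))) (K a213 (Fr a170 a255 l476 (Fr a42 a21 l68 (Fr a106 a234 l390 (Fr a192 a149 l519 (V t581))))) (K a42 (M a48 (F (T t365 (L l390 (L l437 (T t50 (L l28 (L l35 (T t100 N))))))))) (K a106 (M a48 (F (T t99 (L l35 (T t1 (L l390 (L l437 (T t50 N)))))))) (K a170 (M a16 (F (L l390 (L l404 (T t97 (L l390 (T t98 (L l35 (L l404 (T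 t113 (L l331 (L l404 (T t174 N))))))))))))) (K a255 (M a16 (F (T t112 (L l35 (L l289 (T t113 (L l289 (L l296 (T t98 N))))))))) N)))))))))))))))⟩
def e0_63__71_47 : Ent 4 := ⟨[a0, a63], [a71, a50], (M a85 (F (T t88 (T t52 (T t89 (T t90 (K a64 (M a204 (F (T t1744 (L l125 (T t1576 N))))) (K a192 (M a16 (F (L l339 (T t97 (L l77 (L l127 (T t96 (L l296 (T t98 N))))))))) (K a21 (M a48 (F (L l438 (T t99 (T t50 (L l47 (T t100 N))))))) (K a149 (M a16 (F (L l375 (T t97 (L l77 (L l331 (T t173 (L l72 (L l170 (L l510 (T t102 N))))))))))) (K a213 (Fr a170 a255 l476 (Fr a42 a21 l68 (Fr a106 a234 l390 (Fr a192 a149 l519 (V t581))))) (K a42 (M a48 (F (T t364 (L l390 (T t50 (L l28 (T t100 N))))))) (K a106 (M a48 (F (T t1 (L l77 (L l104 (L l127 (T t509 (L l390 (T t50 N))))))))) (K a170 (M a16 (F (L l404 (T t113 (L l390 (T t98 (L l390 (L l404 (T t97 (L l36 (L l331 (L l404 (T t174 N))))))))))))) (K a255 (M a16 (F (L l469 (T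 t97 (L l289 (T t113 (L l289 (L l296 (T t98 N))))))))) N)))))))))))))))⟩
def e0_63__71_48 : Ent 4 := ⟨[a0, a63], [a71, a51], (M a48 (F (T t48 (L l73 (T t1 (L l73 (T t2 (L l73 (T t3 (L l73 (T t0 (K a16 (M a85 (F (T t89 (L l417 (T t50 (T t51 N)))))) (K a32 (M a85 (F (L l439 (T t52 (L l404 (L l417 (T t50 (L l28 (T t51 N))))))))) (K a21 (M a192 (F (T t54 (L l417 (T t27 (L l47 (L l347 (T t29 N)))))))) (K a37 (M a192 (F (T t54 (L l417 (T t27 (L l439 (T t21 N))))))) (K a53 (M a192 (F (T t55 (L l439 (L l491 (T t21 (T t31 N))))))) (K a26 (M a192 (F (T t56 (L l417 (T t27 (L l439 (T t21 N))))))) (K a42 (M a192 (F (T t56 (L l417 (T t27 (L l28 (T t29 N))))))) (K a58 (M a192 (F (T t57 (L l417 (T t27 (L l54 (L l498 (T t31 N)))))))) (K a15 (M a80 (L l73 (F (T t58 (T t59 (L l439 (L l469 (L l483 (T t60 (K a39 (M a27 (F (T t1831 (L l39 (T t1425 N))))) (K a27 (M a39 (F (T t1831 (L l39 (T t1426 N))))) N))))))))))) N))))))))))))))))))))⟩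
def e0_63__71_49 : Ent 4 := ⟨[a0, a63], [a71, a52], (M a85 (F (T t88 (T t52 (T t89 (T t90 (K a64 (M a204 (F (T t1744 (L l125 (L l490 (T t1576 N)))))) (K a192 (M a16 (F (T t112 (L l77 (L l127 (L l494 (T t96 (L l296 (T t98 N))))))))) (K a21 (M a48 (F (T t99 (L l422 (T t50 (L l31 (L l47 (T t100 N)))))))) (K a149 (M a16 (F (T t112 (L l77 (L l331 (T t173 (L l170 (T t102 N)))))))) (K a213 (Fr a170 a255 l476 (Fr a42 a21 l68 (Fr a106 a234 l390 (Fr a192 a149 l519 (V t581))))) (K a42 (M a48 (F (T t365 (L l390 (L l422 (T t50 (L l28 (L l31 (T t100 N))))))))) (K a106 (M a48 (F (T t99 (L l31 (T t1 (L l390 (L l422 (T t50 N)))))))) (K a170 (M a16 (F (L l390 (L l404 (T t97 (L l390 (T t98 (L l31 (L l404 (T t113 (L l331 (L l404 (T t174 N))))))))))))) (K a255 (M a16 (F (T t112 (L l31 (L l289 (T t113 (L l289 (L l296 (T t98 N))))))))) N)))))))))))))))⟩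
def e0_63__71_50 : Ent 4 := ⟨[a0, a63], [a71, a53], (M a149 (F (T t5 (L l47 (T t175 (T t176 (T t177 (K a192 (M a29 (F (T t956 (L l272 (T t641 (L l272 (L l296 (T t957 N)))))))) (K a21 (M a12 (L l47 (F (T t958 (T t648 (L l50 (T t649 (K a5 (M a37 (F (T t958 (T t648 (L l1 (L l50 (T t649 N))))))) (K a37 (M a5 (F (T t959 (L l51 (L l65 (L l313 (T t1428 N))))))) N))))))))) (K a85 (M a4 (F (L l31 (T t519 (L l144 (T t653 (L l126 (T t654 N)))))))) (K a213 (Fr a106 a192 l519 (Fr a42 a21 l68 (Fr a170 a234 l390 (Fr a255 a85 l476 (V t582))))) (K a42 (M a240 (F (T t1090 (L l390 (T t1091 (T t1207 N)))))) (K a106 (M a12 (F (L l47 (T t122 (L l408 (T t649 (L l390 (L l408 (T t960 (L l390 (T t961 N))))))))))) (K a170 (M a12 (F (T t958 (L l47 (L l402 (T t122 (L l390 (T t648 N)))))))) (K a191 (M a252 (F (T t940 (T t941 N)))) (K a255 (M a208 (F (T t2180 (T t1833 (L l440 (T t1277 N)))))) N))))))))))))))))⟩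
def e0_63__71_51 : Ent 4 := ⟨[a0, a63], [a71, a54], (M a85 (F (T t88 (T t52 (T t89 (T t90 (K a64 (M a204 (F (T t1744 (L l125 (T t1576 N))))) (K a192 (M a16 (F (T t260 (L l339 (T t97 (L l296 (T t98 N))))))) (K a21 (M a48 (F (T t99 (T t50 (L l31 (L l47 (T t100 N))))))) (K a149 (M a16 (F (T t101 (L l375 (T t97 (L l170 (T t102 N))))))) (K a213 (Fr a170 a255 l476 (Fr a42 a21 l68 (Fr a106 a234 l390 (Fr a192 a149 l519 (V t581))))) (K a42 (M a48 (F (T t364 (L l390 (T t50 (L l28 (L l31 (T t100 N)))))))) (K a106 (M a48 (F (T t99 (L l31 (T t1 (L l390 (T t50 N))))))) (K a170 (M a16 (F (L l390 (L l404 (T t97 (L l390 (T t98 (L l31 (L l404 (T t113 (L l36 (L l331 (L l404 (T t174 N)))))))))))))) (K a255 (M a16 (F (L l469 (T t97 (L l31 (L l289 (T t113 (L l289 (L l296 (T t98 N)))))))))) N)))))))))))))))⟩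
def e0_63__71_52 : Ent 4 := ⟨[a0, a63], [a71, a55], (M a149 (F (T t5 (L l50 (T t175 (T t176 (T t177 (K a192 (M a53 (F (T t178 (L l236 (T t179 (L l77 (L l236 (L l296 (L l423 (T t180 N)))))))))) (K a21 (M a48 (L l50 (F (T t4 (T t13 (L l18 (T t14 (K a4 (M a38 (F (T t4 (T t13 (L l18 (T t14 N)))))) (K a38 (M a4 (F (T t15 (L l18 (L l29 (T t518 N)))))) N))))))))) (K a85 (M a16 (F (T t97 (L l144 (T t190 (L l94 (T t278 N))))))) (K a213 (Fr a106 a192 l519 (Fr a42 a21 l68 (Fr a170 a234 l390 (Fr a255 a85 l476 (V t582))))) (K a42 (M a48 (F (L l54 (T t4 (L l390 (T t13 (L l54 (T t14 N)))))))) (K a106 (M a48 (F (L l498 (T t14 (L l31 (L l50 (T t1 (L l390 (L l498 (T t6 (L l390 (T t26 N)))))))))))) (K a170 (M a48 (F (T t4 (L l31 (L l50 (L l462 (T t1 (L l390 (T t13 N))))))))) (K a191 (M a204 (F (T t1283 (T t1112 N)))) (K a255 (M a16 (F (T t112 (L l266 (T t190 (L l289 (L l296 (T t191 N)))))))) N))))))))))))))))⟩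
def e0_63__71_53 : Ent 4 := ⟨[a0, a63], [a71, a56], (M a85 (F (T t88 (T t52 (T t89 (T t90 (K a64 (M a204 (F (T t1744 (L l125 (T t1576 N))))) (K a192 (M a16 (F (L l339 (T t97 (L l77 (L l127 (T t96 (L l296 (T t98 N))))))))) (K a21 (M a48 (F (L l428 (T t99 (T t50 (L l47 (T t100 N))))))) (K a149 (M a16 (F (L l375 (T t97 (L l77 (L l331 (T t173 (L l57 (L l170 (L l500 (T t102 N))))))))))) (K a213 (Fr a170 a255 l476 (Fr a42 a21 l68 (Fr a106 a234 l390 (Fr a192 a149 l519 (V t581))))) (K a42 (M a48 (F (T t364 (L l390 (T t50 (L l28 (T t100 N))))))) (K a106 (M a48 (F (T t1 (L l77 (L l104 (L l127 (T t509 (L l390 (T t50 N))))))))) (K a170 (M a16 (F (L l404 (T t113 (L l390 (T t98 (L l390 (L l404 (T t97 (L l32 (L l331 (L l404 (T t174 N))))))))))))) (K a255 (M a16 (F (L l469 (T t97 (L l289 (T t113 (L l289 (L l296 (T t98 N))))))))) N)))))))))))))))⟩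
def e0_63__71_54 : Ent 4 := ⟨[a0, a63], [a71, a57], (M a85 (F (T t88 (T t52 (T t89 (T t90 (K a64 (M a204 (F (T t1744 (L l125 (T t1576 N))))) (K a192 (M a16 (F (T t260 (L l339 (T t97 (L l296 (T t98 N))))))) (K a21 (M a48 (F (T t99 (T t50 (L l35 (L l47 (T t100 N))))))) (K a149 (M a16 (F (T t101 (L l375 (T t97 (L l170 (T t102 N))))))) (K a213 (Fr a170 a255 l476 (Fr a42 a21 l68 (Fr a106 a234 l390 (Fr a192 a149 l519 (V t581))))) (K a42 (M a48 (F (T t364 (L l390 (T t50 (L l28 (L l35 (T t100 N)))))))) (K a106 (M a48 (F (T t99 (L l35 (T t1 (L l390 (T t50 N))))))) (K a170 (M a16 (F (L l390 (L l404 (T t97 (L l390 (T t98 (L l35 (L l404 (T t113 (L l32 (L l331 (L l404 (T t174 N)))))))))))))) (K a255 (M a16 (F (L l469 (T t97 (L l35 (L l289 (T t113 (L l289 (L l296 (T t98 N)))))))))) N)))))))))))))))⟩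
def e0_63__71_55 : Ent 4 := ⟨[a0, a63], [a71, a58], (M a149 (F (T t175 (L l54 (T t5 (L l54 (T t176 (L l498 (T t177 (K a192 (M a29 (F (L l54 (T t956 (L l272 (T t641 (L l54 (L l272 (L l296 (T t957 N)))))))))) (K a21 (M a240 (F (T t1834 (L l498 (T t1091 (L l426 (T t1207 N))))))) (K a85 (M a4 (F (L l54 (T t519 (L l144 (L l498 (T t653 (L l54 (L l126 (T t654 N)))))))))) (K a213 (Fr a106 a192 l519 (Fr a42 a21 l68 (Fr a170 a234 l390 (Fr a255 a85 l476 (V t582))))) (K a42 (M a10 (F (T t1835 (L l83 (L l390 (L l498 (T t656 (L l28 (L l426 (T t655 (L l390 (L l426 (L l498 (T t658 N)))))))))))))) (K a106 (M a154 (F (L l104 (T t1836 (L l54 (L l390 (T t1837 (L l77 (L l104 (L l426 (T t1838 (L l54 (L l104 (L l127 (L l390 (T t1839 N)))))))))))))))) (K a170 (M a12 (F (T t958 (L l402 (T t122 (L l390 (L l498 (T t648 N)))))))) (K a191 (M a208 (F (L l498 (T t1277 (L l54 (T t1276 (L l54 (T t1275 N)))))))) (K a255 (M a208 (F (L l498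 (T t1840 (L l54 (L l440 (T t1276 (L l54 (L l296 (L l469 (T t1275 N))))))))))) N))))))))))))))))))⟩
def e0_63__71_56 : Ent 4 := ⟨[a0, a63], [a71, a59], (M a149 (F (T t175 (L l56 (T t5 (L l56 (T t176 (L l501 (T t177 (K a192 (M a53 (F (L l32 (L l56 (T t178 (L l32 (L l236 (T t179 (L l56 (L l77 (L l236 (L l296 (T t180 N))))))))))))) (K a21 (M a48 (F (L l32 (T t4 (L l501 (T t13 (L l18 (L l32 (T t14 N))))))))) (K a85 (M a16 (F (L l56 (T t97 (L l144 (L l501 (T t190 (L l56 (L l94 (T t278 N)))))))))) (K a213 (Fr a106 a192 l519 (Fr a42 a21 l68 (Fr a170 a234 l390 (Fr a255 a85 l476 (V t582))))) (K a42 (M a8 (F (T t1841 (L l390 (L l501 (T t644 (L l26 (L l427 (T t643 (L l390 (L l427 (L l501 (T t1842 N))))))))))))) (K a106 (M a153 (F (L l56 (L l390 (T t1844 (L l77 (L l102 (L l427 (T t1845 (L l56 (L l102 (L l390 (T t1846 (L l102 (L l125 (T t1843 N)))))))))))))))) (K a170 (M a48 (F (T t11 (L l462 (T t1 (L l390 (L l501 (T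 t13 N)))))))) (K a191 (M a16 (F (L l56 (T t97 (L l501 (T t190 (L l56 (L l213 (T t191 N))))))))) (K a255 (M a16 (F (L l32 (T t192 (L l56 (T t193 (L l266 (L l501 (T t190 N))))))))) N))))))))))))))))))⟩
def e0_63__71_57 : Ent 4 := ⟨[a0, a63], [a71, a60], (M a48 (F (T t48 (L l63 (T t1 (L l63 (T t2 (L l63 (T t3 (L l63 (T t0 (K a16 (M a85 (F (T t89 (L l442 (T t50 (T t51 N)))))) (K a32 (M a85 (F (L l434 (T t52 (L l404 (L l442 (T t50 (L l28 (T t51 N))))))))) (K a21 (M a192 (F (T t54 (L l442 (T t27 (L l47 (L l347 (T t29 N)))))))) (K a37 (M a192 (F (T t54 (L l442 (T t27 (L l434 (T t21 N))))))) (K a53 (M a192 (F (T t55 (L l434 (L l491 (T t21 (T t31 N))))))) (K a26 (M a192 (F (T t56 (L l442 (T t27 (L l434 (T t21 N))))))) (K a42 (M a192 (F (T t56 (L l442 (T t27 (L l28 (T t29 N))))))) (K a58 (M a192 (F (T t57 (L l442 (T t27 (L l54 (L l498 (T t31 N)))))))) (K a15 (M a80 (L l63 (F (T t58 (T t59 (L l434 (L l469 (L l483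 (T t60 (K a45 (M a30 (F (T t1831 (L l39 (T t293 N))))) (K a30 (M a45 (F (T t1831 (L l39 (T t294 N))))) N))))))))))) N))))))))))))))))))))⟩
def e0_63__71_58 : Ent 4 := ⟨[a0, a63], [a71, a61], (M a149 (F (T t5 (L l65 (T t175 (T t176 (T t177 (K a192 (M a53 (F (T t178 (L l236 (T t179 (L l77 (L l236 (L l296 (L l443 (T t180 N)))))))))) (K a21 (M a48 (L l65 (F (T t4 (T t13 (L l18 (T t14 (K a1 (M a41 (F (T t15 (T t13 (L l18 (T t14 N)))))) (K a41 (M a1 (F (T t16 (L l18 (L l29 (T t295 N)))))) N))))))))) (K a85 (M a16 (F (T t97 (L l144 (T t190 (L l94 (T t278 N))))))) (K a213 (Fr a106 a192 l519 (Fr a42 a21 l68 (Fr a170 a234 l390 (Fr a255 a85 l476 (V t582))))) (K a42 (M a48 (F (L l54 (T t4 (L l390 (T t13 (L l54 (T t14 N)))))))) (K a106 (M a48 (F (L l498 (T t14 (L l35 (L l65 (T t1 (L l390 (L l498 (T t6 (L l390 (T t26 N)))))))))))) (K a170 (M a48 (F (T t4 (L l35 (L l65 (L l462 (T t1 (L l390 (T t13 N))))))))) (K a191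 (M a16 (F (T t97 (T t190 (L l213 (T t191 N)))))) (K a255 (M a16 (F (T t112 (L l266 (T t190 (L l289 (L l296 (T t191 N)))))))) N))))))))))))))))⟩
def e0_63__71_59 : Ent 4 := ⟨[a0, a63], [a71, a62], (M a149 (F (T t175 (L l66 (T t5 (L l66 (T t176 (L l516 (T t177 (K a192 (M a53 (F (L l36 (L l66 (T t178 (L l36 (L l236 (T t179 (L l66 (L l77 (L l236 (L l296 (T t180 N))))))))))))) (K a21 (M a48 (F (L l36 (T t4 (L l516 (T t13 (L l18 (L l36 (T t14 N))))))))) (K a85 (M a16 (F (L l66 (T t97 (L l144 (L l516 (T t190 (L l66 (L l94 (T t278 N)))))))))) (K a213 (Fr a106 a192 l519 (Fr a42 a21 l68 (Fr a170 a234 l390 (Fr a255 a85 l476 (V t582))))) (K a42 (M a2 (F (L l22 (T t1847 (L l83 (L l390 (L l516 (T t1848 (L l22 (L l432 (T t189 (L l390 (L l432 (L l516 (T t1849 N))))))))))))))) (K a106 (M a150 (F (L l98 (T t1002 (L l66 (L l390 (T t999 (L l98 (L l432 (T t1000 (L l66 (L l98 (L l390 (T t1001 N)))))))))))))) (K a170 (M a48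 (F (T t11 (L l462 (T t1 (L l390 (L l516 (T t13 N)))))))) (K a191 (M a252 (F (L l516 (T t940 (L l66 (L l432 (T t941 N))))))) (K a255 (M a16 (F (L l36 (T t192 (L l66 (T t193 (L l266 (L l516 (T t190 N))))))))) N))))))))))))))))))⟩
def e0_63__71_60 : Ent 4 := ⟨[a0, a63], [a71, a64], (M a48 (F (T t1 (T t2 (T t3 (T t0 (K a16 (M a60 (F (T t64 (L l14 (L l18 (L l331 (T t67 (T t65 N)))))))) (K a32 (M a60 (F (T t64 (L l331 (T t67 (L l24 (L l28 (T t65 N)))))))) (K a21 (M a101 (F (T t315 (L l18 (L l331 (T t334 (L l18 (T t314 N)))))))) (K a37 (M a52 (F (T t82 (T t83 (L l21 (L l28 (T t84 N))))))) (K a53 (M a12 (F (T t151 (T t443 (L l47 (T t146 N)))))) (K a26 (M a56 (F (T t133 (T t134 (L l12 (L l18 (T t135 N))))))) (K a42 (M a101 (F (T t335 (L l54 (L l116 (T t313 (L l54 (T t314 N)))))))) (K a58 (M a12 (F (T t443 (T t122 (T t146 N))))) (K a15 (M a85 (F (T t567 (T t568 N)))) N)))))))))))))))⟩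
def e0_63__71_61 : Ent 4 := ⟨[a0, a63], [a71, a65], (M a48 (F (T t1 (T t2 (T t3 (T t0 (K a16 (M a60 (F (T t64 (L l14 (L l18 (L l331 (T t67 (T t65 N)))))))) (K a32 (M a60 (F (T t64 (L l331 (T t67 (L l24 (L l28 (T t65 N)))))))) (K a21 (M a192 (F (T t28 (L l47 (L l331 (L l347 (T t20 (L l47 (L l347 (T t29 N)))))))))) (K a37 (M a192 (F (T t19 (L l47 (L l331 (T t20 (T t21 N))))))) (K a53 (M a192 (F (T t19 (L l491 (T t21 (T t31 N)))))) (K a26 (M a192 (F (T t28 (L l331 (T t20 (T t21 N)))))) (K a42 (M a192 (F (T t19 (L l331 (T t20 (L l28 (T t29 N))))))) (K a58 (M a192 (F (T t19 (T t21 (L l54 (L l498 (T t31 N))))))) (K a15 (M a192 (F (T t54 (L l483 (T t27 (L l469 (T t21 N))))))) N)))))))))))))))⟩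
def e0_63__71_62 : Ent 4 := ⟨[a0, a63], [a71, a66], (M a48 (F (T t1 (T t2 (T t3 (T t0 (K a16 (M a60 (F (T t64 (L l14 (L l18 (L l309 (L l331 (T t67 (T t65 N))))))))) (K a32 (M a60 (F (T t64 (L l309 (L l331 (T t67 (L l24 (L l28 (T t65 N))))))))) (K a21 (M a192 (F (T t28 (L l47 (L l331 (L l347 (T t20 (L l47 (L l347 (T t29 N)))))))))) (K a37 (M a192 (F (T t19 (L l47 (L l331 (T t20 (T t21 N))))))) (K a53 (M a192 (F (T t19 (L l491 (T t21 (L l142 (T t31 N))))))) (K a26 (M a192 (F (T t28 (L l331 (T t20 (T t21 N)))))) (K a42 (M a192 (F (T t19 (L l331 (T t20 (L l28 (T t29 N))))))) (K a58 (M a192 (F (T t19 (T t21 (L l54 (L l142 (L l498 (T t31 N)))))))) (K a15 (M a192 (F (T t57 (L l483 (T t27 (L l325 (L l331 (T t20 N)))))))) N)))))))))))))))⟩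
def e0_63__71_63 : Ent 4 := ⟨[a0, a63], [a71, a67], (M a149 (L l83 (F (T t25 (T t175 (T t176 (L l76 (T t177 (K a192 (M a53 (L l83 (F (T t178 (L l236 (T t179 (L l77 (L l236 (L l296 (T t180 (K a75 (M a79 (F (T t178 (L l236 (T t179 (L l77 (L l236 (L l296 (T t180 N))))))))) (K a79 (M a75 (F (T t939 (L l236 (T t179 (L l77 (L l84 (L l236 (L l296 (T t180 N)))))))))) N)))))))))))) (K a21 (M a60 (L l83 (F (T t1020 (L l11 (T t1021 (L l11 (T t462 (K a75 (M a79 (F (T t1022 (L l11 (T t1021 (L l11 (T t462 N))))))) (K a79 (M a75 (F (T t1023 (L l11 (T t1021 N))))) N)))))))))) (K a85 (M a16 (L l83 (F (T t97 (L l144 (T t190 (L l94 (T t278 (K a75 (M a79 (F (T t504 (L l144 (T t190 (L l94 (L l133 (T t278 N)))))))) (K a79 (M a75 (F (T t504 (L l144 (T t190 (L l94 (L l151 (T t278 N)))))))) N)))))))))) (K a213 (Fr a106 a192 l519 (Fr a42 a21 l68 (Fr a170 a234 l390 (Fr a255 a85 l476 (V t582))))) (K a42 (M a15 (L l83 (F (T t1024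 (L l331 (L l390 (T t1025 (L l28 (T t1026 (K a75 (M a79 (F (T t1027 (L l28 (T t1026 N))))) (K a79 (M a75 (F (L l313 (T t1028 (L l54 (L l84 (L l331 (L l390 (T t1029 N))))))))) N))))))))))) (K a106 (M a15 (L l83 (F (T t732 (L l411 (T t1026 (L l390 (T t1030 (L l390 (L l411 (T t1031 (K a75 (M a79 (F (T t1032 (L l390 (L l411 (T t1031 N)))))) (K a79 (M a75 (F (L l313 (T t1033 (L l390 (T t1030 N)))))) N))))))))))))) (K a170 (M a60 (L l83 (F (T t461 (T t116 (L l145 (L l390 (T t463 (K a75 (M a79 (F (T t1034 (T t116 (L l145 (L l390 (T t463 N))))))) (K a79 (M a75 (F (T t1023 (L l390 (T t1021 N))))) N)))))))))) (K a191 (M a252 (L l83 (F (T t940 (T t941 (K a75 (M a79 (F (T t940 (T t941 N)))) (K a79 (M a75 (F (T t940 (T t941 N)))) N))))))) (K a255 (M a60 (L l83 (F (T t1020 (T t116 (L l145 (L l261 (T t463 (K a75 (M a79 (F (T t1020 (T t116 (L l145 (L l261 (T t463 N))))))) (K a79 (M a75 (F (T t1023 (L l261 (T t1021 N)))))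 N)))))))))) (K a75 (M a79 (F (T t25 (L l78 (T t1035 (T t1036 (K a106 (M a5 (F (T t1037 (L l77 (L l390 (T t1038 N)))))) N))))))) (K a79 (M a75 (F (T t25 (T t175 (T t176 (L l76 (L l84 (T t177 (K a192 (M a5 (F (L l313 (T t1039 (L l77 (L l84 (L l296 (T t1038 N)))))))) (K a21 (M a60 (F (T t1023 (L l11 (T t1021 N))))) (K a85 (M a16 (F (T t504 (L l144 (T t190 (L l94 (L l151 (T t278 N)))))))) (K a213 (Fr a106 a192 l519 (Fr a42 a21 l68 (Fr a170 a234 l390 (Fr a255 a85 l476 (V t582))))) (K a42 (M a90 (F (L l28 (T t1040 (L l66 (L l307 (T t1041 N))))))) (K a106 (M a5 (F (L l313 (T t1039 (L l77 (L l84 (L l390 (T t1038 N)))))))) (K a170 (M a60 (F (T t1023 (L l390 (T t1021 N))))) (K a191 (M a252 (F (T t940 (T t941 N)))) (K a255 (M a60 (F (T t1023 (L l261 (T t1021 N))))) N))))))))))))))))) N)))))))))))))))))))⟩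
def e0_63__71_64 : Ent 4 := ⟨[a0, a63], [a71, a68], (M a48 (L l77 (F (T t1 (T t2 (T t3 (T t0 (K a16 (M a61 (L l77 (F (T t262 (L l331 (T t505 (L l10 (T t530 (K a69 (M a70 (F (T t262 (L l329 (L l331 (T t505 (L l10 (T t530 N)))))))) (K a70 (M a69 (F (T t262 (L l333 (T t1855 N))))) N)))))))))) (K a32 (M a61 (L l77 (F (T t262 (L l28 (L l331 (T t505 (L l28 (T t530 (K a69 (M a70 (F (T t262 (L l28 (L l329 (L l331 (T t505 (L l28 (T t530 N))))))))) (K a70 (M a69 (F (T t262 (L l28 (L l333 (T t1855 N)))))) N))))))))))) (K a21 (M a101 (L l77 (F (T t2181 (T t313 (L l18 (T t314 (K a69 (M a70 (F (T t1306 (L l18 (L l331 (T t334 (L l18 (L l311 (T t431 N))))))))) (K a70 (M a69 (F (T t432 (L l18 (T t433 N))))) N))))))))) (K a37 (M a192 (L l77 (F (T t19 (L l47 (L l331 (T t20 (T t21 (K a69 (M a70 (F (T t21 (L l331 (T t22 (L l28 (T t28 N))))))) (K a70 (M a69 (F (T t19 (L l330 (T t1858 N))))) N)))))))))) (K a53 (M a12 (L l77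 (F (T t151 (T t443 (L l47 (T t146 (K a69 (M a70 (F (T t151 (T t445 (L l47 (T t146 N)))))) (K a70 (M a69 (F (T t151 (L l330 (L l419 (T t446 N)))))) N))))))))) (K a26 (M a62 (L l77 (F (T t827 (L l18 (L l331 (T t709 (L l16 (L l18 (T t826 (K a69 (M a70 (F (T t827 (L l16 (L l18 (T t751 N)))))) (K a70 (M a69 (F (T t827 (L l330 (L l354 (T t446 N)))))) N)))))))))))) (K a42 (M a85 (L l77 (F (T t364 (L l390 (T t50 (L l28 (T t100 (K a69 (M a70 (F (L l28 (T t100 (L l390 (T t50 (L l28 (L l329 (T t2182 N))))))))) (K a70 (M a69 (F (L l127 (T t1860 (L l28 (T t100 N)))))) N)))))))))) (K a58 (M a192 (L l77 (F (T t19 (T t21 (L l54 (L l498 (T t31 (K a69 (M a70 (F (T t28 (T t35 (T t525 N))))) (K a70 (M a69 (F (T t19 (L l54 (L l330 (L l498 (T t1859 N))))))) N)))))))))) (K a15 (M a62 (L l77 (F (T t711 (L l73 (T t825 (T t826 (K a69 (M a70 (F (T t1482 (T t751 N)))) (K a70 (M a69 (F (T t827 (L l330 (L l469 (T t446 N)))))) N)))))))))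 (K a69 (M a70 (F (T t1 (L l311 (T t2 (T t3 (T t0 (K a16 (M a62 (F (T t825 (L l18 (T t751 N))))) (K a32 (M a62 (F (T t825 (T t751 N)))) (K a21 (M a192 (F (T t28 (L l331 (T t22 (L l47 (L l347 (T t29 N)))))))) (K a37 (M a192 (F (T t21 (L l331 (T t22 (L l28 (T t28 N))))))) (K a53 (M a192 (F (T t28 (L l47 (L l491 (T t35 (L l47 (L l491 (T t525 N))))))))) (K a26 (M a62 (F (T t827 (L l16 (L l18 (T t751 N)))))) (K a42 (M a192 (F (T t19 (L l331 (L l390 (T t22 (L l28 (T t29 N)))))))) (K a58 (M a192 (F (T t28 (T t35 (T t525 N))))) (K a15 (M a62 (F (T t1482 (T t751 N)))) N)))))))))))))))) (K a70 (M a69 (F (T t2 (L l330 (T t446 (L l127 (L l330 (T t429 N)))))))) N))))))))))))))))))⟩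
def e0_63__71_65 : Ent 4 := ⟨[a0, a63], [a71, a69], (M a48 (L l77 (F (T t1 (L l311 (T t2 (T t3 (T t0 (K a16 (M a62 (L l77 (F (T t825 (L l18 (L l331 (T t709 (L l18 (T t826 (K a68 (M a70 (F (T t825 (L l18 (T t751 N))))) (K a70 (M a68 (F (T t1480 (L l18 (T t826 N))))) N))))))))))) (K a32 (M a62 (L l77 (F (T t825 (L l331 (T t709 (L l20 (T t826 (K a68 (M a70 (F (T t825 (T t751 N)))) (K a70 (M a68 (F (T t1480 (L l20 (T t826 N))))) N)))))))))) (K a21 (M a192 (L l77 (F (T t28 (L l47 (L l331 (L l347 (T t20 (L l47 (L l347 (T t29 (K a68 (M a70 (F (T t28 (L l331 (T t22 (L l47 (L l347 (T t29 N)))))))) (K a70 (M a68 (F (T t28 (L l347 (T t1481 N))))) N))))))))))))) (K a37 (M a192 (L l77 (F (T t19 (L l47 (L l331 (T t20 (T t21 (K a68 (M a70 (F (T t21 (L l331 (T t22 (L l28 (T t28 N))))))) (K a70 (M a68 (F (T t21 (L l127 (T t1474 N))))) N)))))))))) (K a53 (M a192 (L l77 (F (T t19 (L l491 (T t21 (T t31 (K a68 (M a70 (F (T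 t28 (L l47 (L l491 (T t35 (L l47 (L l491 (T t525 N))))))))) (K a70 (M a68 (F (T t28 (L l491 (T t1481 N))))) N))))))))) (K a26 (M a62 (L l77 (F (T t827 (L l18 (L l331 (T t709 (L l16 (L l18 (T t826 (K a68 (M a70 (F (T t827 (L l16 (L l18 (T t751 N)))))) (K a70 (M a68 (F (T t827 (L l127 (T t1474 N))))) N)))))))))))) (K a42 (M a192 (L l77 (F (T t19 (L l331 (T t20 (L l28 (T t29 (K a68 (M a70 (F (T t19 (L l331 (L l390 (T t22 (L l28 (T t29 N)))))))) (K a70 (M a68 (F (T t19 (T t1481 N)))) N)))))))))) (K a58 (M a192 (L l77 (F (T t19 (T t21 (L l54 (L l498 (T t31 (K a68 (M a70 (F (T t28 (T t35 (T t525 N))))) (K a70 (M a68 (F (T t28 (T t1481 N)))) N)))))))))) (K a15 (M a62 (L l77 (F (T t711 (L l73 (T t825 (T t826 (K a68 (M a70 (F (T t1482 (T t751 N)))) (K a70 (M a68 (F (T t711 (L l127 (L l471 (T t1474 N)))))) N))))))))) (K a68 (M a70 (F (T t1 (L l311 (T t2 (T t3 (T t0 (K a16 (M a62 (F (T t825 (L l18 (T t751 N)))))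 (K a32 (M a62 (F (T t825 (T t751 N)))) (K a21 (M a192 (F (T t28 (L l331 (T t22 (L l47 (L l347 (T t29 N)))))))) (K a37 (M a192 (F (T t21 (L l331 (T t22 (L l28 (T t28 N))))))) (K a53 (M a192 (F (T t28 (L l47 (L l491 (T t35 (L l47 (L l491 (T t525 N))))))))) (K a26 (M a62 (F (T t827 (L l16 (L l18 (T t751 N)))))) (K a42 (M a192 (F (T t19 (L l331 (L l390 (T t22 (L l28 (T t29 N)))))))) (K a58 (M a192 (F (T t28 (T t35 (T t525 N))))) (K a15 (M a62 (F (T t1482 (T t751 N)))) N)))))))))))))))) (K a70 (M a68 (F (T t1 (L l127 (T t1474 (L l127 (T t1478 (K a32 (M a64 (F (T t397 (L l376 (T t1479 N))))) N)))))))) N)))))))))))))))))))⟩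
def e0_63__71_66 : Ent 4 := ⟨[a0, a63], [a71, a70], (M a48 (L l77 (F (T t1 (T t2 (T t3 (T t0 (K a16 (M a85 (L l77 (F (T t168 (T t50 (T t51 (K a68 (M a69 (F (T t1853 (L l18 (T t255 N))))) (K a69 (M a68 (F (T t1854 (T t50 N)))) N)))))))) (K a32 (M a61 (L l77 (F (T t262 (L l28 (L l331 (L l333 (T t505 (L l28 (T t530 (K a68 (M a69 (F (T t262 (L l28 (L l333 (T t1855 N)))))) (K a69 (M a68 (F (T t1472 (L l28 (T t530 N))))) N)))))))))))) (K a21 (M a85 (L l77 (F (T t99 (T t50 (L l47 (T t100 (K a68 (M a69 (F (T t1856 (L l47 (T t100 N))))) (K a69 (M a68 (F (L l125 (T t1857 (L l47 (T t100 N)))))) N))))))))) (K a37 (M a192 (L l77 (F (T t19 (L l47 (L l331 (T t20 (T t21 (K a68 (M a69 (F (T t19 (L l330 (T t1858 N))))) (K a69 (M a68 (F (T t21 (L l127 (T t1474 N))))) N)))))))))) (K a53 (M a12 (L l77 (F (T t151 (T t443 (L l47 (T t146 (K a68 (M a69 (F (T t151 (L l330 (L l419 (T t446 N)))))) (K a69 (M a68 (F (T t445 (T t767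 N)))) N))))))))) (K a26 (M a192 (L l77 (F (T t202 (T t27 (L l331 (T t20 (K a68 (M a69 (F (T t28 (L l54 (L l330 (T t1859 N)))))) (K a69 (M a68 (F (T t28 (T t1481 N)))) N))))))))) (K a42 (M a85 (L l77 (F (T t364 (L l390 (T t50 (L l28 (T t100 (K a68 (M a69 (F (L l127 (T t1860 (L l28 (T t100 N)))))) (K a69 (M a68 (F (T t1476 (L l390 (T t50 N))))) N)))))))))) (K a58 (M a192 (L l77 (F (T t19 (T t21 (L l54 (L l498 (T t31 (K a68 (M a69 (F (T t19 (L l54 (L l330 (L l498 (T t1859 N))))))) (K a69 (M a68 (F (T t28 (T t1481 N)))) N)))))))))) (K a15 (M a192 (L l77 (F (T t55 (L l325 (L l331 (T t20 (L l469 (T t21 (K a68 (M a69 (F (T t55 (L l330 (T t1859 N))))) (K a69 (M a68 (F (T t54 (L l84 (L l315 (L l327 (L l333 (T t1861 N)))))))) N))))))))))) (K a68 (M a69 (F (T t2 (L l330 (T t446 (L l127 (L l330 (T t429 N)))))))) (K a69 (M a68 (F (T t1 (L l127 (T t1474 (L l127 (T t1478 (K a32 (M a64 (F (T t397 (L l376 (T t1479 N)))))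 N)))))))) N))))))))))))))))))⟩
def e0_63__71_67 : Ent 4 := ⟨[a0, a63], [a71, a72], (M a48 (F (T t1 (T t2 (T t3 (T t0 (K a16 (M a60 (F (T t64 (L l14 (L l18 (L l331 (T t67 (T t65 N)))))))) (K a32 (M a60 (F (T t64 (L l331 (T t67 (L l24 (L l28 (T t65 N)))))))) (K a21 (M a192 (F (T t28 (L l47 (L l331 (L l347 (T t20 (L l47 (L l347 (T t29 N)))))))))) (K a37 (M a192 (F (T t19 (L l47 (L l331 (T t20 (T t21 N))))))) (K a53 (M a192 (F (T t19 (L l491 (T t21 (L l132 (T t31 N))))))) (K a26 (M a192 (F (T t28 (L l331 (T t20 (T t21 N)))))) (K a42 (M a192 (F (T t19 (L l331 (T t20 (L l28 (T t29 N))))))) (K a58 (M a192 (F (T t19 (T t21 (L l54 (L l132 (L l498 (T t31 N)))))))) (K a15 (M a192 (F (T t57 (L l483 (T t27 (L l325 (L l331 (T t20 N)))))))) N)))))))))))))))⟩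
def e0_63__71_68 : Ent 4 := ⟨[a0, a63], [a71, a73], (M a149 (F (T t5 (T t175 (T t176 (T t177 (K a192 (M a53 (F (T t178 (L l236 (T t179 (L l77 (L l81 (L l236 (L l296 (T t180 N)))))))))) (K a21 (M a48 (F (T t4 (T t13 (L l18 (T t14 N)))))) (K a85 (M a16 (F (T t97 (L l144 (T t190 (L l94 (T t278 N))))))) (K a213 (Fr a106 a192 l519 (Fr a42 a21 l68 (Fr a170 a234 l390 (Fr a255 a85 l476 (V t582))))) (K a42 (M a48 (F (T t11 (L l390 (T t13 (L l54 (T t14 N))))))) (K a106 (M a48 (F (T t1 (L l498 (T t14 (L l390 (L l498 (T t6 (L l390 (T t26 N)))))))))) (K a170 (M a48 (F (T t4 (L l462 (T t1 (L l390 (T t13 N))))))) (K a191 (M a240 (F (T t962 (L l335 (T t963 N))))) (K a255 (M a16 (F (T t112 (L l266 (T t190 (L l289 (L l296 (T t191 N)))))))) N)))))))))))))))⟩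
def e0_63__71_69 : Ent 4 := ⟨[a0, a63], [a71, a74], (M a149 (F (T t25 (L l339 (T t175 (T t176 (L l84 (L l130 (T t177 (K a192 (M a15 (F (T t1071 (L l268 (T t1026 (L l296 (L l318 (T t1030 (L l268 (L l296 (T t1031 N))))))))))) (K a21 (M a48 (F (T t16 (L l130 (T t13 (L l18 (T t14 N))))))) (K a85 (M a16 (F (T t504 (L l130 (L l144 (T t190 (L l94 (L l130 (T t278 N))))))))) (K a213 (Fr a106 a192 l519 (Fr a42 a21 l68 (Fr a170 a234 l390 (Fr a255 a85 l476 (V t582))))) (K a42 (M a48 (F (L l54 (T t16 (L l130 (L l390 (T t13 (L l54 (T t14 N))))))))) (K a106 (M a90 (F (L l390 (T t1072 (L l411 (T t1040 (L l390 (T t1073 (L l318 (L l390 (L l411 (T t1074 (L l318 (L l411 (T t1075 N))))))))))))))) (K a170 (M a48 (F (T t607 (L l206 (T t16 (L l130 (L l390 (T t13 N)))))))) (K a191 (M a204 (F (T t1066 (L l130 (T t1283 N))))) (K a255 (M a16 (F (T t112 (L l130 (L l266 (T t190 (L l289 (L l296 (T t191 N))))))))) N))))))))))))))))))⟩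
def e0_63__71_70 : Ent 4 := ⟨[a0, a63], [a71, a75], (M a149 (L l83 (F (T t5 (T t175 (T t176 (T t177 (K a192 (M a53 (L l83 (F (T t178 (L l236 (T t179 (L l77 (L l236 (L l296 (T t180 (K a67 (M a79 (F (T t178 (L l236 (T t179 (L l77 (L l236 (L l296 (T t180 N))))))))) (K a79 (M a67 (F (T t939 (L l236 (T t179 (L l77 (L l84 (L l236 (L l296 (T t180 N)))))))))) N)))))))))))) (K a21 (M a48 (L l83 (F (T t4 (T t13 (L l18 (T t14 (K a67 (M a79 (F (T t15 (L l121 (T t13 (L l18 (T t14 N))))))) (K a79 (M a67 (F (T t15 (L l18 (T t1082 (L l18 (T t14 N))))))) N))))))))) (K a85 (M a16 (L l83 (F (T t504 (L l144 (T t190 (L l94 (L l133 (T t278 (K a67 (M a79 (F (T t504 (L l144 (T t190 (L l94 (L l133 (T t278 N)))))))) (K a79 (M a67 (F (T t504 (L l144 (T t190 (L l94 (L l133 (L l151 (T t278 N))))))))) N))))))))))) (K a213 (Fr a106 a192 l519 (Fr a42 a21 l68 (Fr a170 a234 l390 (Fr a255 a85 l476 (V t582))))) (K a42 (M a15 (L l83 (F (T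 t1024 (L l331 (L l390 (T t1025 (L l28 (T t1026 (K a67 (M a79 (F (T t1027 (L l28 (T t1026 N))))) (K a79 (M a67 (F (T t1024 (L l28 (T t1026 (L l54 (L l84 (L l390 (T t1086 N))))))))) N))))))))))) (K a106 (M a3 (L l83 (F (T t353 (L l393 (T t615 (L l125 (L l390 (L l393 (T t616 (L l390 (T t617 (K a67 (M a79 (F (T t353 (L l393 (T t615 (L l390 (T t617 (L l125 (L l143 (L l390 (L l393 (T t616 N)))))))))))) (K a79 (M a67 (F (T t2183 (L l125 (L l390 (L l393 (T t616 N))))))) N)))))))))))))) (K a170 (M a48 (L l83 (F (T t4 (L l337 (L l462 (T t1 (L l390 (T t13 (K a67 (M a79 (F (T t4 (L l337 (L l462 (T t1 (L l121 (L l390 (T t13 N))))))))) (K a79 (M a67 (F (T t11 (L l462 (T t48 (L l151 (L l390 (T t13 N)))))))) N))))))))))) (K a191 (M a240 (L l83 (F (T t1090 (T t1091 (T t1092 (K a67 (M a79 (F (T t1090 (L l121 (T t1091 (T t1093 N)))))) (K a79 (M a67 (F (T t962 (T t963 N)))) N)))))))) (K a255 (M a16 (L l83 (F (T t112 (L l266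 (T t190 (L l289 (L l296 (T t191 (K a67 (M a79 (F (T t112 (L l266 (T t190 (L l289 (L l296 (T t191 N)))))))) (K a79 (M a67 (F (T t112 (L l266 (T t190 (L l289 (L l296 (T t191 N)))))))) N))))))))))) (K a67 (M a79 (F (T t25 (L l78 (T t1035 (T t1036 (K a106 (M a5 (F (T t1037 (L l77 (L l390 (T t1038 N)))))) N))))))) (K a79 (M a67 (F (T t25 (L l131 (T t1865 (L l131 (T t1866 (K a106 (M a1 (F (T t1867 (L l390 (T t1094 N))))) N)))))))) N))))))))))))))))))⟩
def e0_63__71_71 : Ent 4 := ⟨[a0, a63], [a71, a76], (M a149 (F (T t25 (T t175 (T t176 (L l80 (T t177 (K a192 (M a53 (F (T t178 (L l236 (T t179 (L l77 (L l236 (L l296 (T t180 N))))))))) (K a21 (M a48 (F (T t4 (L l146 (T t13 (L l18 (T t14 N))))))) (K a85 (M a16 (F (T t97 (L l144 (T t190 (L l94 (T t278 N))))))) (K a213 (Fr a106 a192 l519 (Fr a42 a21 l68 (Fr a170 a234 l390 (Fr a255 a85 l476 (V t582))))) (K a42 (M a48 (F (T t11 (L l146 (L l390 (T t13 (L l54 (T t14 N))))))))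 (K a106 (M a48 (F (T t1 (L l498 (T t14 (L l390 (L l498 (T t6 (L l390 (T t26 N)))))))))) (K a170 (M a48 (F (T t4 (L l462 (T t1 (L l146 (L l390 (T t13 N)))))))) (K a191 (M a16 (F (T t97 (T t190 (L l213 (T t191 N)))))) (K a255 (M a16 (F (T t112 (L l266 (T t190 (L l289 (L l296 (T t191 N)))))))) N))))))))))))))))⟩
def e0_63__71_72 : Ent 4 := ⟨[a0, a63], [a71, a77], (M a85 (F (T t88 (T t52 (T t89 (T t90 (K a64 (M a16 (F (T t97 (L l77 (L l81 (L l84 (L l127 (L l147 (T t96 (L l116 (T t98 N))))))))))) (K a192 (M a16 (F (T t112 (L l77 (L l81 (L l127 (L l147 (T t96 (L l296 (T t98 N)))))))))) (K a21 (M a48 (F (T t99 (T t50 (L l47 (T t100 N)))))) (K a149 (M a16 (F (T t112 (L l77 (L l81 (L l326 (L l331 (T t173 (L l170 (T t102 N)))))))))) (K a213 (Fr a170 a255 l476 (Fr a42 a21 l68 (Fr a106 a234 l390 (Fr a192 a149 l519 (V t581))))) (K a42 (M a48 (F (T t364 (L l390 (T t50 (L l28 (T t100 N))))))) (K a106 (M a48 (F (T t99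 (T t1 (L l390 (T t50 N)))))) (K a170 (M a16 (F (L l404 (T t113 (L l390 (T t98 (L l390 (L l404 (T t97 (L l326 (L l331 (L l404 (T t174 N))))))))))))) (K a255 (M a16 (F (T t112 (L l289 (T t113 (L l289 (L l296 (T t98 N)))))))) N)))))))))))))))⟩
def e0_63__71_73 : Ent 4 := ⟨[a0, a63], [a71, a78], (M a85 (F (T t88 (T t52 (T t89 (T t90 (K a64 (M a252 (F (T t93 (L l125 (T t92 N))))) (K a192 (M a16 (F (T t260 (L l327 (L l339 (T t97 (L l296 (T t98 N)))))))) (K a21 (M a48 (F (T t99 (T t50 (L l47 (T t100 N)))))) (K a149 (M a16 (F (T t112 (L l77 (L l331 (T t173 (L l170 (T t102 N)))))))) (K a213 (Fr a170 a255 l476 (Fr a42 a21 l68 (Fr a106 a234 l390 (Fr a192 a149 l519 (V t581))))) (K a42 (M a48 (F (T t364 (L l390 (T t50 (L l28 (T t100 N))))))) (K a106 (M a48 (F (T t99 (L l327 (T t1 (L l390 (T t50 N))))))) (K a170 (M a16 (F (L l404 (T t113 (L l390 (T t98 (L l327 (L l390 (L l404 (T t97 (L l331 (L l404 (T t174 N)))))))))))))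 (K a255 (M a16 (F (T t112 (L l289 (T t113 (L l289 (L l296 (T t98 N)))))))) N)))))))))))))))⟩
def e0_63__71_74 : Ent 4 := ⟨[a0, a63], [a71, a79], (M a149 (L l83 (F (T t25 (T t175 (T t176 (L l84 (T t177 (K a192 (M a53 (L l83 (F (T t178 (L l236 (T t179 (L l77 (L l84 (L l236 (L l296 (T t180 (K a67 (M a75 (F (T t939 (L l236 (T t179 (L l77 (L l84 (L l236 (L l296 (T t180 N)))))))))) (K a75 (M a67 (F (T t939 (L l236 (T t179 (L l77 (L l84 (L l236 (L l296 (T t180 N)))))))))) N))))))))))))) (K a21 (M a60 (L l83 (F (T t1020 (L l139 (T t463 (L l11 (T t462 (K a67 (M a75 (F (T t1023 (L l11 (T t1021 N))))) (K a75 (M a67 (F (T t1022 (L l139 (T t463 (L l11 (T t462 N))))))) N)))))))))) (K a85 (M a16 (L l83 (F (T t504 (L l144 (T t190 (L l94 (L l151 (T t278 (K a67 (M a75 (F (T t504 (L l144 (T t190 (L l94 (L l151 (T t278 N)))))))) (K a75 (M a67 (F (T t504 (L l144 (T t190 (L l94 (L l133 (L l151 (T t278 N))))))))) N)))))))))))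 (K a213 (Fr a106 a192 l519 (Fr a42 a21 l68 (Fr a170 a234 l390 (Fr a255 a85 l476 (V t582))))) (K a42 (M a195 (L l83 (F (T t1750 (L l84 (L l331 (L l390 (T t2184 (T t1115 (K a67 (M a75 (F (L l313 (T t1116 (L l66 (L l76 (L l331 (L l390 (T t1114 N))))))))) (K a75 (M a67 (F (T t1117 (L l84 (T t1873 (L l137 (T t1874 N))))))) N))))))))))) (K a106 (M a61 (L l83 (F (L l516 (T t968 (L l390 (T t2185 (L l331 (L l390 (L l516 (T t505 (L l516 (T t2186 (K a67 (M a75 (F (L l411 (L l516 (T t2187 (L l76 (L l390 (T t2185 (L l307 (L l331 (L l390 (L l516 (T t505 N))))))))))))) (K a75 (M a67 (F (L l139 (L l393 (T t2188 (L l390 (T t2185 (L l331 (L l390 (L l516 (T t505 N))))))))))) N))))))))))))))) (K a170 (M a60 (L l83 (F (T t461 (L l331 (T t67 (L l139 (L l390 (T t463 (K a67 (M a75 (F (T t1023 (L l390 (T t1021 N))))) (K a75 (M a67 (F (T t1034 (L l331 (T t67 (L l139 (L l390 (T t463 N)))))))) N))))))))))) (K a191 (M a240 (L l83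 (F (T t962 (T t963 (K a67 (M a75 (F (T t1090 (T t962 (T t1093 N))))) (K a75 (M a67 (F (T t962 (T t963 N)))) N))))))) (K a255 (M a60 (L l83 (F (T t1020 (L l331 (L l475 (T t67 (L l139 (L l261 (T t463 (K a67 (M a75 (F (T t1023 (L l261 (T t1021 N))))) (K a75 (M a67 (F (T t1020 (L l331 (L l475 (T t67 (L l139 (L l261 (T t463 N))))))))) N)))))))))))) (K a67 (M a75 (F (T t25 (T t175 (T t176 (L l76 (L l84 (T t177 (K a192 (M a5 (F (L l313 (T t1039 (L l77 (L l84 (L l296 (T t1038 N)))))))) (K a21 (M a60 (F (T t1023 (L l11 (T t1021 N))))) (K a85 (M a16 (F (T t504 (L l144 (T t190 (L l94 (L l151 (T t278 N)))))))) (K a213 (Fr a106 a192 l519 (Fr a42 a21 l68 (Fr a170 a234 l390 (Fr a255 a85 l476 (V t582))))) (K a42 (M a90 (F (L l28 (T t1040 (L l66 (L l307 (T t1041 N))))))) (K a106 (M a5 (F (L l313 (T t1039 (L l77 (L l84 (L l390 (T t1038 N)))))))) (K a170 (M a60 (F (T t1023 (L l390 (T t1021 N))))) (K a191 (M a252 (F (T t940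 (T t941 N)))) (K a255 (M a60 (F (T t1023 (L l261 (T t1021 N))))) N))))))))))))))))) (K a75 (M a67 (F (T t25 (L l131 (T t1865 (L l131 (T t1866 (K a106 (M a1 (F (T t1867 (L l390 (T t1094 N))))) N)))))))) N)))))))))))))))))))⟩
def e0_63__71_75 : Ent 4 := ⟨[a0, a63], [a71, a80], (M a12 (F (T t122 (T t151 (T t152 (T t153 (K a4 (M a60 (F (T t398 (L l46 (L l50 (L l331 (T t67 (T t448 N)))))))) (K a8 (M a60 (F (T t398 (L l331 (T t67 (L l52 (L l56 (T t448 N)))))))) (K a21 (M a192 (F (T t468 (L l15 (L l347 (T t450 (L l15 (L l347 (T t157 N))))))))) (K a25 (M a192 (F (T t449 (L l15 (T t450 (T t21 N)))))) (K a29 (M a192 (F (T t449 (L l371 (T t21 (T t160 N)))))) (K a38 (M a192 (F (T t468 (T t450 (T t21 N))))) (K a42 (M a192 (F (T t449 (T t450 (L l56 (T t157 N)))))) (K a46 (M a192 (F (T t449 (T t21 (L l26 (L l408 (T t160 N))))))) (K a51 (M a192 (F (T t57 (L l513 (T t156 (L l415 (T t450 N))))))) N)))))))))))))))⟩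
def e0_63__71_76 : Ent 4 := ⟨[a0, a63], [a71, a81], (M a12 (F (T t122 (L l341 (T t151 (T t152 (T t153 (K a4 (M a60 (F (T t398 (L l46 (L l50 (L l331 (T t67 (L l341 (T t448 N))))))))) (K a8 (M a60 (F (T t398 (L l331 (T t67 (L l52 (L l56 (L l341 (T t448 N))))))))) (K a21 (M a192 (F (T t468 (L l15 (L l347 (T t450 (L l15 (L l347 (T t157 N))))))))) (K a25 (M a192 (F (T t449 (L l15 (T t450 (T t21 N)))))) (K a29 (M a192 (F (T t449 (L l371 (T t21 (T t160 N)))))) (K a38 (M a192 (F (T t468 (T t450 (T t21 N))))) (K a42 (M a192 (F (T t449 (T t450 (L l56 (T t157 N)))))) (K a46 (M a192 (F (T t449 (T t21 (L l26 (L l408 (T t160 N))))))) (K a51 (M a192 (F (T t47 (L l513 (T t156 (L l415 (T t450 N))))))) N))))))))))))))))⟩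
def e0_63__71_77 : Ent 4 := ⟨[a0, a63], [a71, a82], (M a149 (F (T t5 (T t175 (T t176 (T t177 (K a192 (M a53 (F (T t178 (L l236 (T t179 (L l77 (L l236 (L l296 (T t180 N))))))))) (K a21 (M a48 (F (T t4 (L l121 (L l453 (T t13 (L l18 (T t14 N)))))))) (K a85 (M a16 (F (T t97 (L l144 (L l345 (L l453 (T t190 (L l92 (L l94 (T t278 N)))))))))) (K a213 (Fr a106 a192 l519 (Fr a42 a21 l68 (Fr a170 a234 l390 (Fr a255 a85 l476 (V t582))))) (K a42 (M a48 (F (T t11 (L l121 (L l390 (L l453 (T t13 (L l54 (T t14 N))))))))) (K a106 (M a48 (F (T t1 (L l498 (T t14 (L l390 (L l498 (T t6 (L l390 (T t26 N)))))))))) (K a170 (M a48 (F (T t4 (L l462 (T t1 (L l121 (L l390 (L l453 (T t13 N))))))))) (K a191 (M a204 (F (T t1283 (L l345 (T t1112 N))))) (K a255 (M a16 (F (T t112 (L l266 (L l345 (L l453 (T t190 (L l86 (L l289 (L l296 (T t191 N))))))))))) N)))))))))))))))⟩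
def e0_63__71_78 : Ent 4 := ⟨[a0, a63], [a71, a83], (M a85 (F (T t88 (T t52 (T t89 (T t90 (K a64 (M a240 (F (T t386 (L l93 (T t387 N))))) (K a192 (M a16 (F (T t260 (L l339 (T t97 (L l86 (L l296 (T t98 N)))))))) (K a21 (M a48 (F (T t99 (T t50 (L l47 (T t100 N)))))) (K a149 (M a16 (F (T t112 (L l77 (L l331 (T t173 (L l93 (L l170 (T t102 N))))))))) (K a213 (Fr a170 a255 l476 (Fr a42 a21 l68 (Fr a106 a234 l390 (Fr a192 a149 l519 (V t581))))) (K a42 (M a48 (F (T t364 (L l390 (T t50 (L l28 (T t100 N))))))) (K a106 (M a48 (F (T t99 (T t1 (L l390 (T t50 N)))))) (K a170 (M a16 (F (L l404 (T t113 (L l86 (L l390 (T t98 (L l390 (L l404 (T t97 (L l331 (L l404 (T t174 N))))))))))))) (K a255 (M a16 (F (T t112 (L l289 (T t113 (L l86 (L l289 (L l296 (T t98 N))))))))) N)))))))))))))))⟩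
def e0_63__71_79 : Ent 4 := ⟨[a0, a63], [a71, a84], (M a85 (F (T t52 (L l140 (T t88 (L l140 (T t89 (L l140 (T t90 (K a64 (M a60 (L l140 (F (T t114 (L l346 (T t115 (K a104 (M a124 (F (T t1126 (L l346 (L l388 (T t115 N)))))) (K a124 (M a104 (F (T t936 (L l331 (L l346 (T t67 (L l109 (T t1895 N)))))))) N)))))))) (K a192 (M a16 (F (T t112 (L l77 (L l127 (T t96 (L l90 (L l296 (T t98 N))))))))) (K a21 (M a48 (F (T t99 (T t50 (L l47 (T t100 N)))))) (K a149 (M a16 (F (T t112 (L l77 (L l331 (T t173 (L l170 (T t102 N)))))))) (K a213 (Fr a170 a255 l476 (Fr a42 a21 l68 (Fr a106 a234 l390 (Fr a192 a149 l519 (V t581))))) (K a42 (M a48 (F (L l28 (T t99 (L l390 (T t50 (L l28 (T t100 N)))))))) (K a106 (M a48 (F (T t1 (L l77 (L l104 (L l127 (T t509 (L l390 (T t50 N))))))))) (K a170 (M a16 (F (L l404 (T t113 (L l90 (L l390 (T t98 (L l390 (L l404 (T t97 (L l331 (L l404 (T t174 N))))))))))))) (K a255 (M a16 (F (T t112 (L l289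 (T t113 (L l90 (L l289 (L l296 (T t98 N))))))))) N))))))))))))))))))⟩
def e0_63__71_80 : Ent 4 := ⟨[a0, a63], [a71, a85], (M a48 (F (T t0 (L l347 (T t1 (L l455 (T t2 (L l347 (L l368 (T t3 (K a16 (M a61 (L l368 (F (T t262 (L l331 (L l473 (T t505 (L l10 (L l365 (T t530 (K a154 (M a223 (F (T t529 (L l498 (T t262 (L l10 (L l365 (L l498 (T t530 N))))))))) (K a223 (M a154 (F (T t529 (L l123 (L l127 (L l340 (T t1119 N))))))) N)))))))))))) (K a32 (M a60 (F (T t64 (L l331 (L l347 (L l350 (T t67 (L l24 (L l28 (L l455 (T t65 N))))))))))) (K a21 (M a149 (F (T t4 (L l144 (T t13 (L l18 (L l123 (L l144 (L l368 (T t482 (L l18 (L l123 (L l331 (L l368 (T t483 N))))))))))))))) (K a37 (M a192 (F (T t27 (L l47 (L l331 (L l347 (T t20 (L l144 (L l368 (T t224 N)))))))))) (K a53 (M a12 (F (T t443 (L l47 (L l347 (T t122 (L l47 (L l347 (T t146 N))))))))) (K a26 (M a192 (F (T t28 (L l331 (L l347 (T t20 (L l18 (L l54 (L l144 (L l368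 (T t224 N))))))))))) (K a42 (M a192 (F (T t27 (L l331 (L l347 (T t20 (L l54 (L l144 (L l368 (L l390 (T t224 N))))))))))) (K a58 (M a12 (F (T t443 (L l347 (T t122 (L l347 (T t146 N))))))) (K a15 (M a192 (F (L l483 (T t27 (L l325 (L l331 (L l347 (T t20 (L l144 (L l368 (T t224 N))))))))))) N)))))))))))))))))))⟩
def e0_63__71_81 : Ent 4 := ⟨[a0, a63], [a71, a86], (M a48 (L l127 (F (T t1 (T t2 (T t3 (T t0 (K a16 (M a60 (L l127 (F (T t64 (L l14 (L l18 (L l331 (L l477 (T t67 (L l351 (T t65 (K a116 (M a101 (F (T t313 (T t662 N)))) (K a101 (M a116 (F (T t451 (L l14 (L l87 (L l364 (T t2189 N))))))) N))))))))))))) (K a32 (M a170 (L l127 (F (T t2190 (L l87 (T t514 (T t580 (K a116 (M a101 (F (L l331 (T t2191 (L l87 (T t320 (L l331 (T t687 N)))))))) (K a101 (M a116 (F (T t2190 (L l87 (L l123 (L l509 (T t2192 (L l142 (T t2193 (L l87 (L l351 (L l491 (T t2194 N))))))))))))) N))))))))) (K a21 (M a101 (F (T t313 (L l18 (L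 l331 (T t334 (L l18 (T t314 N)))))))) (K a37 (M a101 (F (T t313 (L l331 (T t334 (T t314 N)))))) (K a53 (M a149 (L l127 (F (T t176 (L l142 (T t13 (T t26 (K a116 (M a101 (F (T t2195 (L l331 (L l474 (T t312 (L l47 (T t175 N)))))))) (K a101 (M a116 (F (T t5 (L l77 (T t2196 N))))) N))))))))) (K a26 (M a101 (F (L l331 (T t333 (L l18 (L l87 (T t2103 (L l18 (L l54 (T t314 N)))))))))) (K a42 (M a101 (F (T t2197 (L l54 (T t313 (L l54 (T t314 N))))))) (K a58 (M a192 (L l127 (F (T t19 (L l351 (T t21 (L l54 (L l142 (L l498 (T t31 (K a116 (M a101 (F (T t1362 (L l77 (L l331 (T t2198 N)))))) (K a101 (M a116 (F (L l77 (T t2196 (L l351 (L l491 (T t35 N))))))) N)))))))))))) (K a15 (M a101 (F (T t431 (L l325 (L l331 (T t334 (L l339 (T t313 N)))))))) (K a116 (M a101 (F (T t313 (T t1 (L l331 (T t334 N)))))) (K a101 (M a116 (F (T t2 (L l77 (T t2196 (L l77 (L l369 (T t2199 (K a16 (M a64 (F (L l351 (L l491 (T t397 (T t2200 N))))))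 N))))))))) N))))))))))))))))))⟩
def e0_63__71_82 : Ent 4 := ⟨[a0, a63], [a71, a87], (M a85 (L l125 (F (T t88 (L l143 (L l475 (T t52 (T t89 (T t90 (K a64 (M a119 (F (T t2201 (L l77 (L l80 (T t2202 (L l143 (T t2203 N)))))))) (K a192 (M a17 (L l125 (F (T t2204 (L l334 (T t1279 (L l296 (T t2205 (K a103 (M a119 (F (T t2206 (T t2207 N)))) (K a119 (M a103 (F (L l296 (T t2205 (L l143 (L l313 (T t2208 N))))))) N)))))))))) (K a21 (M a207 (L l125 (F (T t2209 (L l143 (T t2057 (L l143 (T t2210 (K a103 (M a119 (F (T t2201 (T t2211 N)))) (K a119 (M a103 (F (L l313 (T t2212 (L l18 (T t2114 N)))))) N)))))))))) (K a149 (M a51 (L l125 (F (T t589 (L l77 (T t2213 (L l220 (L l457 (T t2214 (K a103 (M a119 (F (T t2215 (L l77 (T t2216 N))))) (K a119 (M a103 (F (T t1296 (L l77 (L l127 (L l367 (L l475 (L l491 (T t2217 N))))))))) N))))))))))) (K a213 (Fr a170 a255 l476 (Fr a42 a21 l68 (Fr a106 a234 l390 (Fr a192 a149 l519 (V t581)))))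 (K a42 (M a51 (L l125 (F (L l475 (T t2218 (L l26 (L l143 (T t945 (L l56 (L l390 (T t2219 (K a103 (M a119 (F (T t2215 (L l77 (T t2216 N))))) (K a119 (M a103 (F (L l367 (T t2220 (L l26 (L l475 (T t943 N))))))) N))))))))))))) (K a106 (M a48 (L l125 (F (T t1 (L l77 (L l104 (L l127 (L l367 (T t509 (L l143 (L l390 (T t50 (K a103 (M a119 (F (T t1 (L l77 (L l390 (T t2221 (L l403 (L l475 (L l498 (T t365 N)))))))))) (K a119 (M a103 (F (T t1 (L l104 (L l127 (L l367 (L l439 (L l475 (T t360 (L l107 (L l113 (L l143 (L l390 (T t50 N)))))))))))))) N)))))))))))))) (K a170 (M a51 (L l125 (F (T t589 (L l143 (L l402 (T t945 (L l390 (L l402 (T t1952 (L l208 (L l390 (T t2222 (K a103 (M a119 (F (L l402 (T t2223 (L l149 (L l457 (T t2224 N))))))) (K a119 (M a103 (F (L l313 (T t2225 (L l390 (L l402 (T t1952 N))))))) N))))))))))))))) (K a255 (M a3 (L l125 (F (T t85 (L l143 (L l261 (L l349 (T t376 (L l261 (L l296 (T t357 (L l261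 (L l296 (T t1921 (K a103 (M a119 (F (T t1341 (L l77 (L l296 (T t2202 (L l143 (L l261 (L l349 (T t376 N)))))))))) (K a119 (M a103 (L l439 (F (T t1341 (L l113 (L l143 (L l261 (L l349 (T t376 (L l127 (L l261 (T t2226 (L l261 (L l296 (T t1921 (K a51 (M a187 (F (T t85 (L l113 (L l143 (L l261 (L l349 (T t376 (L l127 (L l261 (T t2226 (L l261 (L l296 (L l441 (T t1921 N))))))))))))))) (K a187 (M a51 (F (T t2227 (L l143 (L l313 (L l427 (T t2228 N))))))) N))))))))))))))))) N)))))))))))))))) (K a103 (M a119 (F (T t89 (L l77 (T t2221 (L l77 (T t2202 N))))))) (K a119 (M a103 (F (T t88 (L l113 (L l143 (L l439 (L l475 (T t52 (T t89 (T t90 (K a64 (M a240 (F (T t933 (L l93 (T t387 N))))) (K a192 (M a4 (F (T t2152 (L l349 (T t2229 N))))) (K a21 (M a195 (F (T t2230 (L l143 (L l313 (L l331 (T t2231 N))))))) (K a149 (M a4 (F (L l220 (T t2152 (L l163 (L l349 (T t2229 N))))))) (K a213 (Fr a170 a255 l476 (Fr a42 a21 l68 (Fr a106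 a234 l390 (Fr a192 a149 l519 (V t581))))) (K a42 (M a195 (F (T t2232 (L l56 (L l143 (L l313 (L l331 (T t2231 N)))))))) (K a106 (M a17 (F (L l367 (T t2233 (L l390 (T t2205 N)))))) (K a170 (M a17 (F (L l390 (T t2205 (L l143 (L l313 (L l402 (T t2208 N)))))))) (K a255 (M a3 (L l439 (F (T t1341 (L l113 (L l143 (L l261 (L l349 (T t376 (L l127 (L l261 (T t2226 (L l261 (L l296 (T t1921 (K a51 (M a187 (F (T t85 (L l113 (L l143 (L l261 (L l349 (T t376 (L l127 (L l261 (T t2226 (L l261 (L l296 (L l441 (T t1921 N))))))))))))))) (K a187 (M a51 (F (T t2227 (L l143 (L l313 (L l427 (T t2228 N))))))) N))))))))))))))))) N))))))))))))))))))) N))))))))))))))))))))⟩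
def e0_63__71_83 : Ent 4 := ⟨[a0, a63], [a71, a88], (M a85 (F (T t88 (T t52 (T t89 (T t90 (K a64 (M a252 (F (T t91 (L l125 (L l460 (T t92 N)))))) (K a192 (M a16 (F (T t260 (L l339 (T t97 (L l90 (L l296 (T t98 N)))))))) (K a21 (M a48 (F (T t99 (L l478 (T t50 (L l47 (T t100 N))))))) (K a149 (M a16 (F (T t112 (L l77 (L l331 (T t173 (L l170 (T t102 N)))))))) (K a213 (Fr a170 a255 l476 (Fr a42 a21 l68 (Fr a106 a234 l390 (Fr a192 a149 l519 (V t581))))) (K a42 (M a48 (F (T t364 (L l390 (L l478 (T t50 (L l28 (T t100 N)))))))) (K a106 (M a48 (F (T t1 (L l77 (L l104 (L l127 (T t509 (L l390 (L l478 (T t50 N)))))))))) (K a170 (M a16 (F (L l404 (T t113 (L l90 (L l390 (T t98 (L l390 (L l404 (T t97 (L l331 (L l404 (T t174 N))))))))))))) (K a255 (M a16 (F (T t112 (L l289 (T t113 (L l90 (L l289 (L l296 (T t98 N))))))))) N)))))))))))))))⟩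
def e0_63__71_84 : Ent 4 := ⟨[a0, a63], [a71, a89], (M a48 (F (T t1 (T t2 (T t3 (T t0 (K a16 (M a60 (F (T t64 (L l14 (L l18 (L l331 (T t67 (T t65 N)))))))) (K a32 (M a60 (F (T t64 (L l331 (T t67 (L l24 (L l28 (T t65 N)))))))) (K a21 (M a192 (F (T t837 (L l47 (L l331 (L l347 (L l371 (T t20 (L l47 (L l347 (L l371 (T t29 N)))))))))))) (K a37 (M a192 (F (T t19 (L l47 (L l331 (L l371 (T t20 (L l371 (T t21 N))))))))) (K a53 (M a192 (F (T t19 (L l371 (L l491 (T t21 (L l132 (T t31 N)))))))) (K a26 (M a192 (F (T t27 (L l331 (L l371 (T t20 (L l371 (T t21 N)))))))) (K a42 (M a192 (F (T t19 (L l331 (L l371 (T t20 (L l28 (L l371 (T t29 N))))))))) (K a58 (M a192 (F (T t19 (L l371 (T t21 (L l54 (L l132 (L l498 (T t31 N))))))))) (K a15 (M a192 (F (T t1922 (L l325 (L l331 (L l371 (T t20 (L l371 (L l469 (T t21 N)))))))))) N)))))))))))))))⟩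
def e0_63__71_85 : Ent 4 := ⟨[a0, a63], [a71, a90], (M a12 (F (T t122 (T t151 (T t152 (T t153 (K a4 (M a60 (F (T t570 (L l46 (L l50 (L l331 (T t67 (T t448 N)))))))) (K a8 (M a60 (F (T t570 (L l331 (T t67 (L l52 (L l56 (T t448 N)))))))) (K a21 (M a192 (F (T t836 (L l15 (L l347 (L l375 (T t450 (L l15 (L l347 (L l375 (T t157 N))))))))))) (K a25 (M a192 (F (T t449 (L l15 (L l375 (T t450 (L l375 (T t21 N)))))))) (K a29 (M a192 (F (T t449 (L l371 (L l375 (T t21 (L l130 (T t160 N)))))))) (K a38 (M a192 (F (T t156 (L l375 (T t450 (L l375 (T t21 N))))))) (K a42 (M a192 (F (T t449 (L l375 (T t450 (L l56 (L l375 (T t157 N)))))))) (K a46 (M a192 (F (T t449 (L l375 (T t21 (L l26 (L l130 (L l408 (T t160 N))))))))) (K a51 (M a192 (F (T t1725 (L l375 (L l415 (T t450 (L l375 (L l439 (T t21 N))))))))) N)))))))))))))))⟩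
def e0_63__71_86 : Ent 4 := ⟨[a0, a63], [a71, a91], (M a85 (F (T t88 (T t52 (T t89 (T t90 (K a64 (M a240 (F (T t933 (L l93 (T t387 N))))) (K a192 (M a16 (F (T t112 (L l77 (L l127 (T t96 (L l296 (T t98 N)))))))) (K a21 (M a48 (F (T t99 (T t50 (L l47 (T t100 N)))))) (K a149 (M a16 (F (T t112 (L l77 (L l331 (T t173 (L l93 (L l170 (T t102 N))))))))) (K a213 (Fr a170 a255 l476 (Fr a42 a21 l68 (Fr a106 a234 l390 (Fr a192 a149 l519 (V t581))))) (K a42 (M a48 (F (T t364 (L l390 (T t50 (L l28 (T t100 N))))))) (K a106 (M a48 (F (T t99 (L l481 (T t1 (L l390 (T t50 N))))))) (K a170 (M a16 (F (L l404 (T t113 (L l390 (T t98 (L l373 (L l390 (L l404 (L l481 (T t97 (L l331 (L l404 (T t174 N)))))))))))))) (K a255 (M a16 (F (T t112 (L l289 (T t113 (L l289 (L l296 (T t98 N)))))))) N)))))))))))))))⟩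
def e0_63__71_87 : Ent 4 := ⟨[a0, a63], [a71, a92], (M a85 (F (T t88 (T t52 (T t89 (T t90 (K a64 (M a240 (F (T t386 (L l89 (T t387 N))))) (K a192 (M a16 (F (T t260 (L l339 (T t97 (L l90 (L l296 (T t98 N)))))))) (K a21 (M a48 (F (T t99 (T t50 (L l47 (T t100 N)))))) (K a149 (M a16 (F (T t112 (L l77 (L l331 (T t173 (L l89 (L l170 (T t102 N))))))))) (K a213 (Fr a170 a255 l476 (Fr a42 a21 l68 (Fr a106 a234 l390 (Fr a192 a149 l519 (V t581))))) (K a42 (M a48 (F (T t364 (L l390 (T t50 (L l28 (T t100 N))))))) (K a106 (M a48 (F (T t99 (T t1 (L l390 (T t50 N)))))) (K a170 (M a16 (F (L l404 (T t113 (L l90 (L l390 (T t98 (L l390 (L l404 (T t97 (L l331 (L l404 (T t174 N))))))))))))) (K a255 (M a16 (F (T t112 (L l289 (T t113 (L l90 (L l289 (L l296 (T t98 N))))))))) N)))))))))))))))⟩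
def e0_63__71_88 : Ent 4 := ⟨[a0, a63], [a71, a93], (M a85 (F (T t88 (L l138 (L l470 (T t52 (T t89 (T t90 (K a64 (M a240 (F (T t933 (L l89 (T t387 N))))) (K a192 (M a16 (F (T t112 (L l77 (L l127 (L l362 (T t96 (L l296 (L l362 (T t98 N)))))))))) (K a21 (M a48 (F (L l362 (T t935 (L l138 (T t50 (L l47 (L l138 (L l362 (T t100 N)))))))))) (K a149 (M a16 (F (T t112 (L l77 (L l331 (L l362 (T t173 (L l89 (L l170 (T t102 N)))))))))) (K a213 (Fr a170 a255 l476 (Fr a42 a21 l68 (Fr a106 a234 l390 (Fr a192 a149 l519 (V t581))))) (K a42 (M a48 (F (L l470 (T t364 (L l138 (L l390 (T t50 (L l28 (L l138 (L l362 (T t100 N))))))))))) (K a106 (M a48 (F (T t1 (L l77 (L l104 (L l127 (L l362 (T t509 (L l138 (L l390 (T t50 N))))))))))) (K a170 (M a16 (F (L l390 (L l404 (T t97 (L l362 (L l390 (T t98 (L l138 (L l362 (L l404 (T t113 (L l331 (L l362 (L l404 (T t174 N)))))))))))))))) (K a255 (M a12 (F (T t1252 (L l138 (L l265 (L l359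 (T t574 (L l265 (L l296 (T t572 (L l265 (L l296 (T t1923 N))))))))))))) N)))))))))))))))))⟩
def e0_63__71_89 : Ent 4 := ⟨[a0, a63], [a71, a94], (M a85 (F (T t88 (T t52 (T t89 (T t90 (K a64 (M a240 (F (T t933 (L l89 (T t387 N))))) (K a192 (M a16 (F (T t112 (L l77 (L l127 (T t96 (L l296 (T t98 N)))))))) (K a21 (M a48 (F (T t99 (T t50 (L l47 (T t100 N)))))) (K a149 (M a16 (F (T t112 (L l77 (L l331 (T t173 (L l89 (L l170 (T t102 N))))))))) (K a213 (Fr a170 a255 l476 (Fr a42 a21 l68 (Fr a106 a234 l390 (Fr a192 a149 l519 (V t581))))) (K a42 (M a48 (F (T t364 (L l390 (T t50 (L l28 (T t100 N))))))) (K a106 (M a48 (F (T t99 (L l471 (T t1 (L l390 (T t50 N))))))) (K a170 (M a16 (F (L l404 (T t113 (L l390 (T t98 (L l363 (L l390 (L l404 (L l471 (T t97 (L l331 (L l404 (T t174 N)))))))))))))) (K a255 (M a16 (F (T t112 (L l289 (T t113 (L l289 (L l296 (T t98 N)))))))) N)))))))))))))))⟩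
def e0_63__71_90 : Ent 4 := ⟨[a0, a63], [a71, a95], (M a85 (F (T t88 (L l137 (L l469 (T t52 (T t89 (T t90 (K a64 (M a204 (F (T t1575 (L l125 (T t1576 N))))) (K a192 (M a16 (F (T t112 (L l77 (T t1924 (L l296 (T t1925 N))))))) (K a21 (M a48 (F (L l361 (T t935 (L l137 (T t50 (L l47 (L l137 (L l361 (T t100 N)))))))))) (K a149 (M a48 (F (T t132 (L l77 (L l220 (L l331 (T t873 (L l137 (L l220 (T t50 N)))))))))) (K a213 (Fr a170 a255 l476 (Fr a42 a21 l68 (Fr a106 a234 l390 (Fr a192 a149 l519 (V t581))))) (K a42 (M a48 (F (L l469 (T t364 (L l137 (L l390 (T t50 (L l28 (L l137 (L l361 (T t100 N))))))))))) (K a106 (M a48 (F (T t48 (L l77 (L l104 (L l127 (L l361 (T t509 (L l137 (L l390 (T t50 N))))))))))) (K a170 (M a48 (F (T t607 (L l137 (L l361 (L l404 (T t100 (L l390 (T t51 (L l361 (L l390 (L l404 (T t568 N))))))))))))) (K a255 (M a15 (F (T t1254 (L l137 (L l266 (L l361 (T t1497 (L l266 (L l296 (T t1484 (L l266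 (L l296 (T t1926 N))))))))))))) N)))))))))))))))))⟩
def e0_63__71_91 : Ent 4 := ⟨[a0, a63], [a71, a96], (M a12 (F (T t122 (T t151 (T t152 (T t153 (K a4 (M a60 (F (T t398 (L l46 (L l50 (L l331 (T t67 (T t448 N)))))))) (K a8 (M a60 (F (T t398 (L l331 (T t67 (L l52 (L l56 (T t448 N)))))))) (K a21 (M a192 (F (T t468 (L l15 (L l347 (T t450 (L l15 (L l347 (T t157 N))))))))) (K a25 (M a192 (F (T t449 (L l15 (T t450 (T t21 N)))))) (K a29 (M a192 (F (T t449 (L l371 (T t21 (L l104 (T t160 N))))))) (K a38 (M a192 (F (T t468 (T t450 (T t21 N))))) (K a42 (M a192 (F (T t449 (T t450 (L l56 (T t157 N)))))) (K a46 (M a192 (F (T t449 (T t21 (L l26 (L l104 (L l408 (T t160 N)))))))) (K a51 (M a192 (F (T t57 (L l513 (T t156 (L l415 (T t450 N))))))) N)))))))))))))))⟩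
def e0_63__71_92 : Ent 4 := ⟨[a0, a63], [a71, a97], (M a149 (F (T t5 (T t175 (T t176 (T t177 (K a192 (M a53 (F (L l339 (T t982 (L l236 (T t179 (L l77 (L l236 (L l296 (T t180 N)))))))))) (K a21 (M a48 (F (T t16 (L l121 (T t13 (L l18 (T t14 N))))))) (K a85 (M a16 (F (L l380 (T t97 (L l96 (L l144 (L l380 (T t190 (L l94 (T t278 N)))))))))) (K a213 (Fr a106 a192 l519 (Fr a42 a21 l68 (Fr a170 a234 l390 (Fr a255 a85 l476 (V t582))))) (K a42 (M a48 (F (T t11 (L l121 (L l390 (T t13 (L l54 (T t14 N)))))))) (K a106 (M a48 (F (T t1 (L l498 (T t14 (L l390 (L l498 (T t6 (L l380 (L l390 (T t26 N))))))))))) (K a170 (M a48 (F (T t3 (T t11 (L l121 (L l390 (T t13 N))))))) (K a191 (M a204 (F (T t1283 (L l485 (T t1112 N))))) (K a255 (M a16 (F (L l380 (T t112 (L l289 (L l296 (T t191 (L l380 (T t192 N))))))))) N)))))))))))))))⟩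
def e0_63__71_93 : Ent 4 := ⟨[a0, a63], [a71, a98], (M a48 (F (T t1 (T t2 (T t3 (T t0 (K a16 (M a60 (F (T t138 (L l14 (L l18 (L l331 (T t67 (T t65 N)))))))) (K a32 (M a60 (F (T t138 (L l331 (T t67 (L l24 (L l28 (T t65 N)))))))) (K a21 (M a192 (F (T t27 (L l47 (L l331 (L l347 (T t20 (L l47 (L l347 (T t29 N)))))))))) (K a37 (M a192 (F (T t27 (L l47 (L l331 (T t20 (T t21 N))))))) (K a53 (M a192 (F (T t27 (L l491 (T t21 (L l96 (L l102 (T t31 N)))))))) (K a26 (M a192 (F (T t27 (L l331 (T t20 (T t21 N)))))) (K a42 (M a192 (F (T t27 (L l331 (T t20 (L l28 (T t29 N))))))) (K a58 (M a192 (F (T t27 (T t21 (L l54 (L l96 (L l102 (L l498 (T t31 N))))))))) (K a15 (M a192 (F (T t57 (L l483 (T t27 (L l325 (L l331 (T t20 N)))))))) N)))))))))))))))⟩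
def e0_63__71_94 : Ent 4 := ⟨[a0, a63], [a71, a99], (M a85 (F (T t88 (T t52 (T t89 (T t90 (K a64 (M a204 (F (T t1744 (L l125 (T t1576 N))))) (K a192 (M a16 (F (T t112 (L l77 (L l127 (T t96 (L l296 (T t98 N)))))))) (K a21 (M a48 (F (T t99 (T t50 (L l47 (T t100 N)))))) (K a149 (M a16 (F (T t112 (L l77 (L l331 (T t173 (L l103 (L l170 (T t102 N))))))))) (K a213 (Fr a170 a255 l476 (Fr a42 a21 l68 (Fr a106 a234 l390 (Fr a192 a149 l519 (V t581))))) (K a42 (M a48 (F (T t364 (L l390 (T t50 (L l28 (T t100 N))))))) (K a106 (M a48 (F (T t99 (T t1 (L l390 (T t50 N)))))) (K a170 (M a16 (F (L l404 (T t113 (L l390 (T t98 (L l390 (L l404 (T t97 (L l331 (L l404 (T t174 N)))))))))))) (K a255 (M a16 (F (T t112 (L l289 (T t113 (L l289 (L l296 (T t98 N)))))))) N)))))))))))))))⟩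
def e0_63__71_95 : Ent 4 := ⟨[a0, a63], [a71, a100], (M a85 (F (T t88 (T t52 (T t89 (T t90 (K a64 (M a252 (F (T t91 (L l125 (L l400 (T t92 N)))))) (K a192 (M a16 (F (L l400 (T t260 (T t966 (L l339 (L l400 (T t97 N)))))))) (K a21 (M a48 (F (L l400 (T t99 (T t50 (L l47 (L l400 (T t100 N)))))))) (K a149 (M a16 (F (L l400 (T t112 (L l77 (T t666 (L l170 (T t102 N)))))))) (K a213 (Fr a170 a255 l476 (Fr a42 a21 l68 (Fr a106 a234 l390 (Fr a192 a149 l519 (V t581))))) (K a42 (M a48 (F (T t364 (L l390 (T t50 (L l28 (L l400 (T t100 N)))))))) (K a106 (M a48 (F (T t364 (T t1 (L l390 (T t50 N)))))) (K a170 (M a16 (F (L l400 (L l404 (T t113 (L l390 (T t98 (L l390 (L l400 (L l404 (T t97 (L l331 (L l400 (L l404 (T t174 N))))))))))))))) (K a255 (M a16 (F (L l400 (T t112 (L l289 (L l296 (T t98 (L l289 (L l400 (T t113 N)))))))))) N)))))))))))))))⟩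
def e0_63__71_96 : Ent 4 := ⟨[a0, a63], [a71, a101], (M a12 (L l127 (F (T t122 (T t151 (T t152 (T t153 (K a4 (M a85 (L l127 (F (T t168 (L l404 (T t124 (T t154 (K a116 (M a86 (F (T t168 (L l125 (T t2234 N))))) (K a86 (M a116 (F (T t168 (L l404 (L l474 (T t124 (T t154 N))))))) N))))))))) (K a8 (M a85 (L l127 (F (T t52 (L l404 (L l464 (T t124 (L l56 (T t154 (K a116 (M a86 (F (T t52 (L l125 (L l460 (T t2234 N)))))) (K a86 (M a116 (F (T t52 (L l404 (L l464 (L l474 (T t124 (L l56 (T t154 N))))))))) N))))))))))) (K a21 (M a192 (L l127 (F (T t836 (L l15 (L l347 (L l491 (T t450 (L l15 (L l347 (L l491 (T t157 (K a116 (M a86 (F (T t468 (L l11 (L l104 (L l331 (T t1177 N))))))) (K a86 (M a116 (F (T t468 (L l104 (L l142 (T t543 (L l15 (L l347 (L l351 (L l491 (T t157 N))))))))))) N)))))))))))))) (K a25 (M a192 (L l127 (F (T t449 (L l15 (L l491 (T t450 (L l491 (T t21 (K a116 (M a86 (F (T t836 (L l104 (L l331 (T t1177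 N)))))) (K a86 (M a116 (F (T t836 (L l15 (L l351 (L l491 (T t35 (L l104 (L l142 (T t543 N)))))))))) N))))))))))) (K a29 (M a20 (L l127 (F (T t1268 (L l494 (T t2235 (T t2236 (K a116 (M a86 (F (T t2237 (L l122 (T t2238 N))))) (K a86 (M a116 (F (T t2163 (L l77 (L l386 (T t2239 N)))))) N))))))))) (K a38 (M a192 (L l127 (F (T t156 (L l491 (T t450 (L l491 (T t21 (K a116 (M a86 (F (T t468 (L l104 (L l331 (T t1177 N)))))) (K a86 (M a116 (F (T t468 (L l104 (L l142 (T t543 (L l50 (L l351 (L l491 (T t35 N)))))))))) N)))))))))) (K a42 (M a192 (L l127 (F (T t449 (L l491 (T t450 (L l56 (L l491 (T t157 (K a116 (M a86 (F (T t836 (L l104 (L l331 (L l390 (T t1177 N))))))) (K a86 (M a116 (F (T t836 (L l104 (L l142 (L l390 (T t543 (L l56 (L l351 (L l491 (T t157 N))))))))))) N))))))))))) (K a46 (M a192 (L l127 (F (T t449 (L l491 (T t21 (L l26 (L l104 (L l408 (T t160 (K a116 (M a86 (F (T t468 (L l104 (L l331 (L l408 (T t1177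 N))))))) (K a86 (M a116 (F (T t468 (L l351 (L l491 (T t35 (L l351 (L l491 (T t776 N))))))))) N)))))))))))) (K a51 (M a192 (L l127 (F (T t1725 (L l415 (L l491 (T t450 (L l439 (L l491 (T t21 (K a116 (M a86 (F (T t496 (L l43 (L l104 (L l331 (T t1177 N))))))) (K a86 (M a116 (F (T t159 (L l351 (L l439 (L l491 (T t35 (L l104 (L l142 (L l415 (T t543 N))))))))))) N)))))))))))) (K a116 (M a86 (F (T t122 (T t151 (T t152 (T t153 (K a4 (M a252 (F (T t2240 (L l125 (T t1179 N))))) (K a8 (M a252 (F (T t2240 (L l56 (L l125 (L l460 (T t1179 N))))))) (K a21 (M a192 (F (T t468 (L l11 (L l104 (L l331 (T t1177 N))))))) (K a25 (M a192 (F (T t836 (L l104 (L l331 (T t1177 N)))))) (K a29 (M a192 (F (T t468 (L l104 (L l331 (T t1177 N)))))) (K a38 (M a192 (F (T t468 (L l104 (L l331 (T t1177 N)))))) (K a42 (M a192 (F (T t836 (L l104 (L l331 (L l390 (T t1177 N))))))) (K a46 (M a192 (F (T t468 (L l104 (L l331 (L l408 (T t1177 N)))))))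 (K a51 (M a192 (F (T t496 (L l43 (L l104 (L l331 (T t1177 N))))))) N))))))))))))))) (K a86 (M a116 (F (T t122 (T t151 (T t152 (T t153 (K a4 (M a16 (F (L l369 (L l404 (T t2241 (T t872 N)))))) (K a8 (M a16 (F (L l369 (L l404 (L l460 (T t2241 (L l52 (L l56 (T t872 N))))))))) (K a21 (M a20 (F (T t2242 (L l77 (L l386 (T t2239 N)))))) (K a25 (M a16 (F (L l369 (L l404 (T t2241 (L l12 (L l56 (T t2243 N)))))))) (K a29 (M a48 (F (T t2 (L l87 (L l95 (T t2244 N)))))) (K a38 (M a48 (F (L l77 (T t2196 (L l21 (L l50 (L l386 (L l491 (T t868 N))))))))) (K a42 (M a68 (F (T t2245 (L l56 (L l97 (L l459 (T t2246 N))))))) (K a46 (M a48 (F (L l77 (T t2196 (L l26 (T t866 N)))))) (K a51 (M a16 (F (L l369 (L l404 (T t2241 (T t872 N)))))) N))))))))))))))) N))))))))))))))))))⟩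
def e0_63__71_97 : Ent 4 := ⟨[a0, a63], [a71, a102], (M a48 (F (T t1 (T t2 (T t3 (T t0 (K a16 (M a60 (F (T t138 (L l14 (L l18 (L l331 (T t67 (T t65 N)))))))) (K a32 (M a60 (F (T t138 (L l331 (T t67 (L l24 (L l28 (T t65 N)))))))) (K a21 (M a192 (F (T t837 (L l47 (L l331 (L l347 (L l495 (T t20 (L l47 (L l347 (L l495 (T t29 N)))))))))))) (K a37 (M a192 (F (T t19 (L l47 (L l331 (L l495 (T t20 (L l495 (T t21 N))))))))) (K a53 (M a192 (F (T t19 (L l491 (L l495 (T t21 (L l102 (T t31 N)))))))) (K a26 (M a192 (F (T t27 (L l331 (L l495 (T t20 (L l495 (T t21 N)))))))) (K a42 (M a192 (F (T t19 (L l331 (L l495 (T t20 (L l28 (L l495 (T t29 N))))))))) (K a58 (M a192 (F (T t19 (L l495 (T t21 (L l54 (L l102 (L l498 (T t31 N))))))))) (K a15 (M a192 (F (T t1922 (L l325 (L l331 (L l495 (T t20 (L l469 (L l495 (T t21 N)))))))))) N)))))))))))))))⟩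
def e0_63__71_98 : Ent 4 := ⟨[a0, a63], [a71, a103], (M a85 (L l125 (F (T t88 (T t52 (T t89 (T t90 (K a64 (M a87 (F (L l403 (T t1195 (L l140 (L l493 (T t923 (L l331 (T t2247 N))))))))) (K a192 (M a16 (L l125 (F (T t112 (L l77 (L l97 (L l127 (T t96 (L l296 (T t98 (K a87 (M a119 (F (T t504 (L l77 (L l232 (T t2221 N)))))) (K a119 (M a87 (F (T t504 (L l511 (T t2248 N))))) N)))))))))))) (K a21 (M a48 (L l125 (F (T t99 (T t50 (L l47 (T t100 (K a87 (M a119 (F (T t2201 (L l47 (L l143 (L l367 (T t100 N))))))) (K a119 (M a87 (F (L l403 (T t1198 (L l47 (L l113 (T t100 N))))))) N))))))))) (K a149 (M a16 (L l125 (F (T t112 (L l77 (L l331 (L l511 (T t173 (L l103 (L l170 (T t102 (K a87 (M a119 (F (T t112 (L l77 (L l220 (T t2221 N)))))) (K a119 (M a87 (F (T t112 (L l170 (L l511 (T t2248 N)))))) N))))))))))))) (K a213 (Fr a170 a255 l476 (Fr a42 a21 l68 (Fr a106 a234 l390 (Fr a192 a149 l519 (V t581))))) (K a42 (M a12 (L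 l125 (F (T t1373 (L l390 (T t124 (L l56 (T t574 (K a87 (M a119 (F (L l97 (T t2249 (L l143 (L l390 (L l493 (L l511 (T t2250 N))))))))) (K a119 (M a87 (F (L l127 (T t2251 (L l113 (L l390 (T t124 N))))))) N)))))))))) (K a106 (M a48 (L l125 (F (T t1 (L l77 (L l97 (L l104 (L l127 (T t509 (L l390 (T t50 (K a87 (M a119 (F (T t1 (L l77 (L l390 (T t2221 (L l403 (L l475 (L l498 (T t365 N)))))))))) (K a119 (M a87 (F (T t1 (L l390 (L l403 (T t1198 (L l403 (L l439 (L l498 (T t365 N)))))))))) N))))))))))))) (K a170 (M a4 (L l125 (F (L l464 (T t130 (L l77 (L l390 (T t131 (L l390 (L l464 (L l493 (L l511 (T t519 (L l464 (T t938 (K a87 (M a119 (F (L l178 (T t2252 (L l390 (L l464 (L l493 (L l511 (T t519 (L l143 (L l457 (L l464 (T t130 N))))))))))))) (K a119 (M a87 (F (L l178 (L l385 (T t2253 (L l390 (L l464 (T t129 N)))))))) N))))))))))))))))) (K a255 (M a3 (L l125 (F (T t85 (L l261 (T t376 (L l261 (L l296 (T t357 (L l296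 (T t2254 (K a87 (M a119 (F (T t1341 (L l77 (L l296 (T t2202 (L l143 (L l261 (L l349 (T t376 N)))))))))) (K a119 (M a87 (L l439 (F (T t2255 (L l434 (T t137 (L l296 (T t2256 (K a51 (M a187 (L l511 (F (T t2255 (L l39 (L l434 (T t353 (L l296 (L l489 (T t2256 (K a155 (M a207 (F (T t2255 (L l103 (L l296 (T t2058 N)))))) (K a207 (M a155 (L l289 (F (T t2255 (L l113 (L l235 (L l295 (T t2257 (K a223 (M a239 (F (T t2255 (L l113 (L l235 (L l295 (T t2257 N))))))) (K a239 (Fr a223 a19 l367 (V t2258)) N)))))))))) N)))))))))))) (K a187 (M a51 (F (T t2255 (L l313 (L l427 (L l469 (T t842 N))))))) N)))))))))) N))))))))))))) (K a87 (M a119 (F (T t89 (L l77 (T t2221 (L l77 (T t2202 N))))))) (K a119 (M a87 (F (T t89 (L l403 (T t1198 (L l493 (T t923 N))))))) N))))))))))))))))))⟩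
def e0_63__71_99 : Ent 4 := ⟨[a0, a63], [a71, a104], (M a149 (F (T t25 (L l514 (T t175 (T t176 (L l98 (L l140 (T t177 (K a192 (M a60 (F (T t116 (L l228 (T t462 (L l296 (L l388 (T t1130 (L l228 (L l296 (T t1256 N))))))))))) (K a21 (M a48 (F (T t16 (L l98 (T t13 (L l18 (T t14 N))))))) (K a85 (M a16 (F (T t97 (L l98 (L l100 (L l144 (T t190 (L l94 (T t278 N))))))))) (K a213 (Fr a106 a192 l519 (Fr a42 a21 l68 (Fr a170 a234 l390 (Fr a255 a85 l476 (V t582))))) (K a42 (M a48 (F (L l514 (T t11 (L l98 (L l390 (T t13 (L l54 (T t14 N))))))))) (K a106 (M a105 (F (L l516 (T t1932 (L l390 (T t2259 (L l390 (T t1931 (L l388 (L l390 (L l516 (T t1934 (L l388 (L l516 (T t1935 N))))))))))))))) (K a170 (M a48 (F (T t3 (L l514 (T t11 (L l98 (L l390 (T t13 N)))))))) (K a191 (M a204 (F (T t1066 (L l98 (T t1283 N))))) (K a255 (M a16 (F (T t112 (L l98 (L l100 (L l266 (T t190 (L l289 (L l296 (T t191 N)))))))))) N))))))))))))))))))⟩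
def e0_63__71_100 : Ent 4 := ⟨[a0, a63], [a71, a105], (M a48 (F (T t1 (T t2 (T t3 (T t0 (K a16 (M a60 (F (T t42 (L l14 (L l18 (L l331 (T t67 (L l392 (T t65 N))))))))) (K a32 (M a60 (F (T t42 (L l331 (T t67 (L l24 (L l28 (L l392 (T t65 N))))))))) (K a21 (M a192 (F (T t837 (L l47 (L l331 (L l347 (L l515 (T t20 (L l47 (L l347 (L l515 (T t29 N)))))))))))) (K a37 (M a192 (F (T t19 (L l47 (L l331 (L l515 (T t20 (L l515 (T t21 N))))))))) (K a53 (M a192 (F (T t19 (L l491 (L l515 (T t21 (L l98 (T t31 N)))))))) (K a26 (M a192 (F (T t27 (L l331 (L l515 (T t20 (L l515 (T t21 N)))))))) (K a42 (M a192 (F (T t19 (L l331 (L l515 (T t20 (L l28 (L l515 (T t29 N))))))))) (K a58 (M a192 (F (T t19 (L l515 (T t21 (L l54 (L l98 (L l498 (T t31 N))))))))) (K a15 (M a192 (F (T t1922 (L l325 (L l331 (L l515 (T t20 (L l469 (L l515 (T t21 N)))))))))) N)))))))))))))))⟩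
def e0_63__71_101 : Ent 4 := ⟨[a0, a63], [a71, a106], (M a48 (F (T t1 (L l390 (L l498 (T t2 (L l411 (T t3 (L l390 (T t0 (K a16 (M a60 (F (T t64 (L l14 (L l18 (L l331 (L l393 (T t67 (L l390 (L l498 (T t65 N))))))))))) (K a32 (M a60 (F (T t64 (L l331 (L l393 (T t67 (L l24 (L l28 (L l390 (L l498 (T t65 N))))))))))) (K a21 (M a255 (F (T t511 (L l331 (L l390 (T t512 (L l18 (L l144 (L l347 (L l498 (T t513 N))))))))))) (K a37 (M a52 (F (T t82 (L l498 (T t83 (L l21 (L l28 (L l390 (L l498 (T t84 N)))))))))) (K a53 (M a12 (F (T t443 (L l47 (T t122 (L l47 (T t146 N))))))) (K a26 (M a56 (F (T t133 (L l501 (T t134 (L l12 (L l18 (T t135 N)))))))) (K a42 (M a170 (F (T t319 (L l144 (T t514 (L l54 (L l104 (L l144 (L l498 (T t515 (L l54 (L l331 (L l498 (T t516 N)))))))))))))) (K a58 (M a12 (L l498 (F (T t122 (T t443 (T t146 (K a202 (M a154 (F (T t122 (L l77 (L l104 (L l127 (L l426 (T t517 N)))))))) (K a154 (M a202 (F (T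 t122 (L l356 (L l368 (T t445 (L l356 (T t146 N)))))))) N)))))))) (K a15 (M a4 (F (T t518 (L l73 (L l390 (T t519 (L l390 (L l498 (T t520 N))))))))) N)))))))))))))))))))⟩
def e0_63__71_102 : Ent 4 := ⟨[a0, a63], [a71, a107], (M a149 (F (T t5 (T t175 (T t176 (L l98 (T t177 (K a192 (M a53 (F (T t178 (L l236 (T t179 (L l77 (L l236 (L l296 (T t180 N))))))))) (K a21 (M a48 (F (T t4 (L l98 (T t13 (L l18 (T t14 N))))))) (K a85 (M a16 (F (T t97 (L l98 (L l144 (T t190 (L l94 (T t278 N)))))))) (K a213 (Fr a106 a192 l519 (Fr a42 a21 l68 (Fr a170 a234 l390 (Fr a255 a85 l476 (V t582))))) (K a42 (M a48 (F (T t11 (L l98 (L l390 (T t13 (L l54 (T t14 N)))))))) (K a106 (M a105 (F (L l390 (T t1931 (L l391 (L l516 (T t1932 (L l390 (L l391 (L l516 (T t1933 (L l390 (L l516 (T t1934 (L l516 (T t1935 N)))))))))))))))) (K a170 (M a48 (F (T t4 (L l462 (T t1 (L l98 (L l390 (T t13 N)))))))) (K a191 (M a16 (F (T t97 (L l98 (T t190 (L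 l213 (T t191 N))))))) (K a255 (M a16 (F (T t112 (L l98 (L l266 (T t190 (L l289 (L l296 (T t191 N))))))))) N))))))))))))))))⟩
def e0_63__71_103 : Ent 4 := ⟨[a0, a63], [a71, a108], (M a85 (F (T t88 (T t52 (T t89 (T t90 (K a64 (M a16 (F (T t97 (L l77 (L l84 (L l127 (T t96 (L l116 (T t98 N))))))))) (K a192 (M a16 (F (T t112 (L l77 (L l127 (T t96 (L l296 (T t98 N)))))))) (K a21 (M a48 (F (T t99 (T t50 (L l47 (T t100 N)))))) (K a149 (M a16 (F (T t112 (L l77 (L l331 (T t173 (L l99 (L l170 (T t102 N))))))))) (K a213 (Fr a170 a255 l476 (Fr a42 a21 l68 (Fr a106 a234 l390 (Fr a192 a149 l519 (V t581))))) (K a42 (M a48 (F (T t364 (L l390 (T t50 (L l28 (T t100 N))))))) (K a106 (M a48 (F (T t99 (T t1 (L l390 (T t50 N)))))) (K a170 (M a16 (F (L l404 (T t113 (L l390 (T t98 (L l390 (L l404 (T t97 (L l331 (L l404 (T t174 N)))))))))))) (K a255 (M a16 (F (T t112 (L l289 (T t113 (L l289 (L l296 (T t98 N)))))))) N)))))))))))))))⟩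
def e0_63__71_104 : Ent 4 := ⟨[a0, a63], [a71, a109], (M a149 (F (T t5 (T t175 (T t176 (T t177 (K a192 (M a53 (F (T t178 (L l236 (L l398 (T t179 (L l77 (L l236 (L l296 (T t180 N)))))))))) (K a21 (M a48 (F (T t4 (T t13 (L l18 (L l398 (T t14 N))))))) (K a85 (M a16 (F (T t97 (L l144 (T t190 (L l94 (T t278 N))))))) (K a213 (Fr a106 a192 l519 (Fr a42 a21 l68 (Fr a170 a234 l390 (Fr a255 a85 l476 (V t582))))) (K a42 (M a48 (F (T t11 (L l390 (T t13 (L l54 (L l398 (T t14 N)))))))) (K a106 (M a48 (F (T t1 (L l398 (L l498 (T t14 (L l390 (L l498 (T t6 (L l390 (T t26 N))))))))))) (K a170 (M a48 (F (T t4 (L l462 (T t1 (L l390 (T t13 N))))))) (K a191 (M a204 (F (T t1283 (L l99 (T t1112 N))))) (K a255 (M a16 (F (T t112 (L l266 (T t190 (L l289 (L l296 (T t191 N)))))))) N)))))))))))))))⟩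
def e0_63__71_105 : Ent 4 := ⟨[a0, a63], [a71, a110], (M a149 (F (T t5 (T t175 (T t176 (L l102 (T t177 (K a192 (M a53 (F (T t178 (L l236 (T t179 (L l77 (L l236 (L l296 (T t180 N))))))))) (K a21 (M a48 (F (T t4 (L l102 (T t13 (L l18 (T t14 N))))))) (K a85 (M a16 (F (T t97 (L l102 (L l144 (T t190 (L l94 (T t278 N)))))))) (K a213 (Fr a106 a192 l519 (Fr a42 a21 l68 (Fr a170 a234 l390 (Fr a255 a85 l476 (V t582))))) (K a42 (M a48 (F (T t11 (L l102 (L l390 (T t13 (L l54 (T t14 N)))))))) (K a106 (M a102 (F (L l501 (T t1206 (L l77 (L l390 (T t1202 (L l396 (L l501 (T t1203 (L l390 (L l396 (L l501 (T t1936 (L l390 (L l501 (T t1205 N))))))))))))))))) (K a170 (M a48 (F (T t4 (L l462 (T t1 (L l102 (L l390 (T t13 N)))))))) (K a191 (M a252 (F (L l102 (T t940 (L l136 (T t941 N)))))) (K a255 (M a16 (F (T t112 (L l102 (L l266 (T t190 (L l289 (L l296 (T t191 N))))))))) N))))))))))))))))⟩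
def e0_63__71_106 : Ent 4 := ⟨[a0, a63], [a71, a111], (M a149 (F (T t5 (T t175 (T t176 (L l104 (T t177 (K a192 (M a53 (F (T t178 (L l77 (L l236 (L l296 (T t180 (L l236 (L l397 (T t179 N)))))))))) (K a21 (M a240 (F (T t1090 (L l104 (T t1091 (L l397 (T t1207 N))))))) (K a85 (M a48 (F (T t1 (L l331 (T t184 (L l104 (L l144 (T t13 N)))))))) (K a213 (Fr a106 a192 l519 (Fr a42 a21 l68 (Fr a170 a234 l390 (Fr a255 a85 l476 (V t582))))) (K a42 (M a240 (F (T t1090 (L l104 (L l390 (T t1091 (L l397 (T t1207 N)))))))) (K a106 (M a101 (F (L l397 (L l498 (T t1209 (L l77 (L l390 (T t1208 (L l390 (L l397 (L l498 (T t1210 (L l390 (L l498 (T t1211 (L l331 (L l498 (T t1212 N)))))))))))))))))) (K a170 (M a48 (F (L l462 (T t1 (L l331 (T t184 (L l104 (L l390 (T t13 N))))))))) (K a191 (M a16 (F (T t97 (L l213 (L l331 (T t1213 (L l213 (T t191 N)))))))) (K a255 (M a16 (F (T t112 (L l289 (L l331 (T t1213 (L l289 (L l296 (T t191 N)))))))))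 N))))))))))))))))⟩
def e0_63__71_107 : Ent 4 := ⟨[a0, a63], [a71, a112], (M a149 (F (T t25 (T t175 (T t176 (L l116 (T t177 (K a192 (M a53 (F (T t178 (L l236 (T t179 (L l77 (L l236 (L l296 (T t180 N))))))))) (K a21 (M a240 (F (T t1937 (L l116 (T t962 (L l114 (L l116 (T t1207 N)))))))) (K a85 (M a16 (F (T t97 (L l116 (L l144 (L l412 (T t190 (L l94 (L l151 (T t278 N)))))))))) (K a213 (Fr a106 a192 l519 (Fr a42 a21 l68 (Fr a170 a234 l390 (Fr a255 a85 l476 (V t582))))) (K a42 (M a240 (F (T t1937 (L l28 (L l116 (L l390 (T t962 (L l114 (L l116 (T t1207 N)))))))))) (K a106 (M a48 (F (T t1 (L l498 (T t14 (L l114 (L l390 (L l498 (T t6 (L l390 (T t26 N))))))))))) (K a170 (M a48 (F (T t3 (T t11 (L l116 (L l390 (L l404 (T t1938 N)))))))) (K a191 (M a16 (F (T t97 (L l116 (L l412 (T t190 (L l116 (L l213 (T t191 N))))))))) (K a255 (M a16 (F (T t112 (L l116 (L l266 (L l412 (T t190 (L l116 (L l289 (L l296 (T t191 N)))))))))))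 N))))))))))))))))⟩
def e0_63__71_108 : Ent 4 := ⟨[a0, a63], [a71, a113], (M a85 (F (T t88 (T t52 (T t89 (T t90 (K a64 (M a204 (F (T t1744 (L l125 (T t1576 N))))) (K a192 (M a16 (F (T t112 (L l77 (L l127 (L l147 (T t96 (L l296 (T t98 N))))))))) (K a21 (M a48 (F (T t99 (L l111 (T t50 (L l47 (T t100 N))))))) (K a149 (M a16 (F (T t112 (L l77 (L l331 (T t173 (L l170 (T t102 N)))))))) (K a213 (Fr a170 a255 l476 (Fr a42 a21 l68 (Fr a106 a234 l390 (Fr a192 a149 l519 (V t581))))) (K a42 (M a48 (F (T t365 (L l111 (L l390 (T t50 (L l28 (T t100 N)))))))) (K a106 (M a48 (F (T t1 (L l77 (L l104 (L l127 (L l147 (T t509 (L l111 (L l390 (T t50 N))))))))))) (K a170 (M a16 (F (L l404 (T t113 (L l390 (T t98 (L l390 (L l404 (T t97 (L l331 (L l404 (T t174 N)))))))))))) (K a255 (M a16 (F (T t112 (L l289 (T t113 (L l289 (L l296 (T t98 N)))))))) N)))))))))))))))⟩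
def e0_63__71_109 : Ent 4 := ⟨[a0, a63], [a71, a114], (M a85 (F (T t88 (T t52 (T t89 (T t90 (K a64 (M a204 (F (T t1744 (L l125 (T t1576 N))))) (K a192 (M a16 (F (T t260 (L l339 (T t97 (L l296 (T t98 N))))))) (K a21 (M a48 (F (T t99 (L l417 (T t50 (L l47 (T t100 N))))))) (K a149 (M a16 (F (T t112 (L l77 (L l331 (T t173 (L l170 (T t102 N)))))))) (K a213 (Fr a170 a255 l476 (Fr a42 a21 l68 (Fr a106 a234 l390 (Fr a192 a149 l519 (V t581))))) (K a42 (M a48 (F (T t364 (L l390 (L l417 (T t50 (L l28 (T t100 N)))))))) (K a106 (M a48 (F (T t1 (L l77 (L l104 (L l127 (T t509 (L l390 (L l417 (T t50 N)))))))))) (K a170 (M a16 (F (L l404 (T t113 (L l390 (T t98 (L l390 (L l404 (T t97 (L l331 (L l404 (T t174 N)))))))))))) (K a255 (M a16 (F (T t112 (L l289 (T t113 (L l289 (L l296 (T t98 N)))))))) N)))))))))))))))⟩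
def e0_63__71_110 : Ent 4 := ⟨[a0, a63], [a71, a115], (M a149 (F (T t25 (T t175 (T t176 (L l120 (T t177 (K a192 (M a53 (F (T t178 (L l236 (T t179 (L l77 (L l236 (L l296 (T t180 N))))))))) (K a21 (M a48 (F (T t4 (L l106 (T t13 (L l18 (T t14 N))))))) (K a85 (M a16 (F (T t97 (L l144 (T t190 (L l94 (T t278 N))))))) (K a213 (Fr a106 a192 l519 (Fr a42 a21 l68 (Fr a170 a234 l390 (Fr a255 a85 l476 (V t582))))) (K a42 (M a48 (F (T t11 (L l106 (L l390 (T t13 (L l54 (T t14 N)))))))) (K a106 (M a48 (F (T t1 (L l498 (T t14 (L l390 (L l498 (T t6 (L l390 (T t26 N)))))))))) (K a170 (M a48 (F (T t4 (L l462 (T t1 (L l106 (L l390 (T t13 N)))))))) (K a191 (M a16 (F (T t97 (T t190 (L l213 (T t191 N)))))) (K a255 (M a16 (F (T t112 (L l266 (T t190 (L l289 (L l296 (T t191 N)))))))) N))))))))))))))))⟩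
def e0_63__71_111 : Ent 4 := ⟨[a0, a63], [a71, a116], (M a85 (L l127 (F (T t88 (T t52 (T t89 (T t90 (K a64 (M a101 (F (T t2260 (L l77 (L l84 (T t1811 (T t2261 N))))))) (K a192 (M a101 (F (L l107 (T t2262 (L l77 (L l236 (L l296 (T t1811 (L l236 (L l296 (T t2261 (L l107 (L l236 (T t2263 (L l77 (L l296 (T t2264 N))))))))))))))))) (K a21 (M a240 (L l127 (F (T t1384 (L l436 (T t933 (T t1385 (K a101 (M a86 (F (T t1384 (L l125 (T t2265 N))))) (K a86 (M a101 (F (T t1552 (L l107 (L l351 (T t2266 N)))))) N))))))))) (K a149 (M a53 (L l127 (F (T t982 (L l220 (T t1560 (L l107 (L l199 (T t2060 (K a101 (M a86 (F (T t982 (L l125 (L l217 (L l401 (T t2267 N))))))) (K a86 (M a101 (L l351 (F (T t982 (L l107 (L l170 (L l220 (L l474 (T t2268 (K a212 (M a23 (F (T t982 (L l107 (L l170 (L l220 (L l474 (T t2268 N)))))))) (K a23 (M a212 (F (T t982 (L l107 (L l170 (L l220 (L l474 (T t2268 N)))))))) N))))))))))) N))))))))))) (K a213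 (Fr a170 a255 l476 (Fr a42 a21 l68 (Fr a106 a234 l390 (Fr a192 a149 l519 (V t581))))) (K a42 (M a240 (L l127 (F (T t1384 (L l390 (L l436 (T t386 (T t1385 (K a101 (M a86 (F (T t1384 (L l125 (T t2265 N))))) (K a86 (M a101 (F (T t1384 (L l107 (L l351 (T t2266 N)))))) N)))))))))) (K a106 (M a101 (F (L l498 (T t2260 (L l77 (L l390 (T t1811 (L l498 (T t2261 (L l107 (L l436 (T t1810 N)))))))))))) (K a170 (M a101 (F (L l77 (L l390 (T t1811 (L l107 (L l206 (L l436 (T t1812 (L l390 (T t2269 (L l107 (L l206 (L l436 (T t1810 N))))))))))))))) (K a255 (M a101 (F (L l296 (T t2270 (L l107 (L l440 (T t2271 (L l296 (T t2269 (L l107 (L l440 (T t2263 (L l107 (L l289 (L l296 (L l440 (T t2272 N))))))))))))))))) (K a101 (M a86 (F (T t52 (L l122 (L l404 (T t2273 (L l125 (T t2274 N)))))))) (K a86 (M a101 (F (T t52 (L l107 (L l474 (T t2275 (L l107 (T t2276 N)))))))) N))))))))))))))))))⟩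
def e0_63__71_112 : Ent 4 := ⟨[a0, a63], [a71, a117], (M a85 (F (T t88 (L l114 (L l440 (T t52 (T t89 (T t90 (K a64 (M a204 (F (T t1575 (L l107 (L l125 (T t1576 N)))))) (K a192 (M a16 (F (T t112 (L l77 (L l127 (T t96 (L l296 (T t98 N)))))))) (K a21 (M a12 (F (T t1370 (L l15 (L l114 (L l422 (T t574 (L l114 (T t124 N))))))))) (K a149 (M a16 (F (T t112 (L l77 (L l127 (L l491 (T t96 (L l170 (T t102 N))))))))) (K a213 (Fr a170 a255 l476 (Fr a42 a21 l68 (Fr a106 a234 l390 (Fr a192 a149 l519 (V t581))))) (K a42 (M a12 (F (L l440 (T t1373 (L l114 (L l390 (T t124 (L l56 (L l114 (L l422 (T t574 N))))))))))) (K a106 (M a12 (F (T t122 (L l132 (L l422 (T t123 (L l114 (L l390 (T t124 N))))))))) (K a170 (M a16 (F (L l390 (L l404 (T t97 (L l390 (T t98 (L l114 (L l404 (L l419 (T t113 (L l331 (L l404 (T t174 N)))))))))))))) (K a255 (M a48 (F (T t132 (L l114 (L l289 (L l419 (T t100 (L l289 (L l296 (T t568 (L l289 (L l296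 (L l331 (T t1579 N)))))))))))))) N)))))))))))))))))⟩
def e0_63__71_113 : Ent 4 := ⟨[a0, a63], [a71, a118], (M a85 (F (T t88 (T t52 (T t89 (T t90 (K a64 (M a204 (F (T t1744 (L l107 (L l125 (T t1576 N)))))) (K a192 (M a16 (F (T t112 (L l77 (L l127 (T t96 (L l296 (T t98 N)))))))) (K a21 (M a48 (F (L l438 (T t99 (L l107 (T t50 (L l47 (T t100 N)))))))) (K a149 (M a16 (F (T t112 (L l77 (L l331 (T t173 (L l170 (T t102 N)))))))) (K a213 (Fr a170 a255 l476 (Fr a42 a21 l68 (Fr a106 a234 l390 (Fr a192 a149 l519 (V t581))))) (K a42 (M a48 (F (T t365 (L l107 (L l390 (T t50 (L l28 (T t100 N)))))))) (K a106 (M a48 (F (T t1 (L l77 (L l104 (L l127 (T t509 (L l107 (L l390 (T t50 N)))))))))) (K a170 (M a16 (F (L l404 (T t113 (L l390 (T t98 (L l390 (L l404 (T t97 (L l331 (L l404 (T t174 N)))))))))))) (K a255 (M a16 (F (T t112 (L l289 (T t113 (L l289 (L l296 (T t98 N)))))))) N)))))))))))))))⟩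
def e0_63__71_114 : Ent 4 := ⟨[a0, a63], [a71, a119], (M a85 (L l125 (F (T t88 (L l113 (L l439 (T t52 (T t89 (T t90 (K a64 (M a87 (F (T t1195 (L l140 (T t923 (L l113 (L l331 (T t2247 N)))))))) (K a192 (M a4 (L l125 (F (T t129 (T t2152 (L l77 (L l296 (T t2277 (K a87 (M a103 (F (T t2152 (L l349 (T t2229 N))))) (K a103 (M a87 (F (T t129 (L l385 (T t2253 N))))) N)))))))))) (K a21 (M a195 (L l125 (F (T t2230 (L l331 (T t2035 (L l113 (T t910 (K a87 (M a103 (F (T t2230 (L l143 (L l313 (L l331 (T t2231 N))))))) (K a103 (M a87 (F (L l403 (T t1198 (L l113 (L l493 (T t910 N))))))) N)))))))))) (K a149 (M a16 (L l125 (F (T t112 (L l77 (L l331 (T t173 (L l170 (T t102 (K a87 (M a103 (F (T t112 (L l220 (L l331 (L l367 (T t259 (L l93 (L l170 (T t102 N)))))))))) (K a103 (M a87 (F (T t112 (L l170 (L l511 (T t2248 N)))))) N))))))))))) (K a213 (Fr a170 a255 l476 (Fr a42 a21 l68 (Fr a106 a234 l390 (Fr a192 a149 l519 (V t581)))))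 (K a42 (M a12 (L l125 (F (L l439 (T t1373 (L l113 (L l390 (T t124 (L l56 (L l113 (L l421 (T t574 (K a87 (M a103 (F (L l439 (L l475 (T t573 (L l113 (L l143 (L l390 (T t124 (L l56 (L l113 (L l143 (L l421 (L l457 (T t574 N))))))))))))))) (K a103 (M a87 (F (L l127 (T t2251 (L l113 (L l390 (T t124 N))))))) N)))))))))))))) (K a106 (M a17 (L l125 (F (L l390 (T t1279 (L l77 (L l102 (T t2278 (L l390 (T t2205 (L l501 (T t2279 (K a87 (M a103 (F (L l367 (T t2233 (L l390 (T t2205 N)))))) (K a103 (M a87 (F (T t2280 (L l390 (T t1279 N))))) N)))))))))))))) (K a170 (M a17 (L l125 (F (L l390 (L l402 (T t1279 (L l390 (T t2205 (L l113 (L l402 (L l421 (T t2281 (L l402 (T t2279 (K a87 (M a103 (F (L l390 (T t2205 (L l143 (L l313 (L l402 (T t2208 N)))))))) (K a103 (M a87 (F (T t2280 (L l390 (L l402 (T t1279 N)))))) N)))))))))))))))) (K a255 (M a51 (L l125 (F (T t1355 (L l113 (L l290 (L l421 (T t945 (L l290 (L l296 (T t1952 (L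 l290 (L l296 (T t1953 (K a87 (M a103 (L l475 (F (L l367 (T t2282 (L l290 (L l296 (T t1952 (K a3 (M a171 (L l331 (F (L l367 (T t2282 (L l296 (T t2283 (K a139 (Fr a207 a155 l511 (V t2284)) (K a207 (M a139 (L l289 (F (L l290 (T t2285 (L l83 (L l143 (L l421 (T t2286 (K a223 (Fr a239 a35 l403 (V t592)) (K a239 (M a223 (F (T t1355 (T t2287 N)))) N))))))))))) N))))))))) (K a171 (M a3 (F (T t1355 (L l113 (L l143 (L l261 (L l349 (T t376 N)))))))) N)))))))))) (K a103 (M a87 (F (T t841 (L l290 (T t2288 (L l296 (L l493 (T t923 N)))))))) N)))))))))))))))) (K a87 (M a103 (F (T t88 (L l113 (L l143 (L l439 (L l475 (T t52 (T t89 (T t90 (K a64 (M a240 (F (T t933 (L l93 (T t387 N))))) (K a192 (M a4 (F (T t2152 (L l349 (T t2229 N))))) (K a21 (M a195 (F (T t2230 (L l143 (L l313 (L l331 (T t2231 N))))))) (K a149 (M a4 (F (L l220 (T t2152 (L l163 (L l349 (T t2229 N))))))) (K a213 (Fr a170 a255 l476 (Fr a42 a21 l68 (Fr a106 a234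 l390 (Fr a192 a149 l519 (V t581))))) (K a42 (M a195 (F (T t2232 (L l56 (L l143 (L l313 (L l331 (T t2231 N)))))))) (K a106 (M a17 (F (L l367 (T t2233 (L l390 (T t2205 N)))))) (K a170 (M a17 (F (L l390 (T t2205 (L l143 (L l313 (L l402 (T t2208 N)))))))) (K a255 (M a3 (L l439 (F (T t1341 (L l113 (L l143 (L l261 (L l349 (T t376 (L l127 (L l261 (T t2226 (L l261 (L l296 (T t1921 (K a51 (M a187 (F (T t85 (L l113 (L l143 (L l261 (L l349 (T t376 (L l127 (L l261 (T t2226 (L l261 (L l296 (L l441 (T t1921 N))))))))))))))) (K a187 (M a51 (F (T t2227 (L l143 (L l313 (L l427 (T t2228 N))))))) N))))))))))))))))) N))))))))))))))))))) (K a103 (M a87 (F (T t89 (L l403 (T t1198 (L l493 (T t923 N))))))) N))))))))))))))))))))⟩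
def e0_63__71_115 : Ent 4 := ⟨[a0, a63], [a71, a120], (M a85 (F (T t88 (T t52 (T t89 (T t90 (K a64 (M a204 (F (T t1744 (L l125 (T t1576 N))))) (K a192 (M a16 (F (T t260 (L l339 (T t97 (L l296 (T t98 N))))))) (K a21 (M a48 (F (T t99 (L l442 (T t50 (L l47 (T t100 N))))))) (K a149 (M a16 (F (T t112 (L l77 (L l331 (T t173 (L l170 (T t102 N)))))))) (K a213 (Fr a170 a255 l476 (Fr a42 a21 l68 (Fr a106 a234 l390 (Fr a192 a149 l519 (V t581))))) (K a42 (M a48 (F (T t364 (L l390 (L l442 (T t50 (L l28 (T t100 N)))))))) (K a106 (M a48 (F (T t1 (L l77 (L l104 (L l127 (T t509 (L l390 (L l442 (T t50 N)))))))))) (K a170 (M a16 (F (L l404 (T t113 (L l390 (T t98 (L l390 (L l404 (T t97 (L l331 (L l404 (T t174 N)))))))))))) (K a255 (M a16 (F (T t112 (L l289 (T t113 (L l289 (L l296 (T t98 N)))))))) N)))))))))))))))⟩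
def e0_63__71_116 : Ent 4 := ⟨[a0, a63], [a71, a121], (M a85 (F (T t88 (T t52 (T t89 (T t90 (K a64 (M a204 (F (T t1744 (L l125 (T t1576 N))))) (K a192 (M a16 (F (T t112 (L l77 (L l127 (T t96 (L l296 (T t98 N)))))))) (K a21 (M a48 (F (L l428 (T t99 (L l111 (T t50 (L l47 (T t100 N)))))))) (K a149 (M a16 (F (T t112 (L l77 (L l331 (T t173 (L l170 (T t102 N)))))))) (K a213 (Fr a170 a255 l476 (Fr a42 a21 l68 (Fr a106 a234 l390 (Fr a192 a149 l519 (V t581))))) (K a42 (M a48 (F (T t365 (L l111 (L l390 (T t50 (L l28 (T t100 N)))))))) (K a106 (M a48 (F (T t1 (L l77 (L l104 (L l127 (T t509 (L l111 (L l390 (T t50 N)))))))))) (K a170 (M a16 (F (L l404 (T t113 (L l390 (T t98 (L l390 (L l404 (T t97 (L l331 (L l404 (T t174 N)))))))))))) (K a255 (M a16 (F (T t112 (L l289 (T t113 (L l289 (L l296 (T t98 N)))))))) N)))))))))))))))⟩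
def e0_63__71_117 : Ent 4 := ⟨[a0, a63], [a71, a122], (M a149 (F (T t5 (T t175 (T t176 (L l130 (T t177 (K a192 (M a53 (F (L l426 (T t178 (L l77 (L l236 (L l296 (T t180 (L l236 (L l426 (T t179 N))))))))))) (K a21 (M a48 (F (L l426 (T t4 (L l114 (L l130 (T t13 (L l18 (L l426 (T t14 N)))))))))) (K a85 (M a16 (F (T t97 (L l130 (L l144 (T t190 (L l94 (L l130 (T t278 N))))))))) (K a213 (Fr a106 a192 l519 (Fr a42 a21 l68 (Fr a170 a234 l390 (Fr a255 a85 l476 (V t582))))) (K a42 (M a48 (F (T t11 (L l114 (L l130 (L l390 (T t13 (L l54 (L l426 (T t14 N)))))))))) (K a106 (M a90 (F (L l390 (T t1073 (L l411 (L l426 (T t1040 (L l390 (L l411 (T t1954 (L l390 (L l411 (T t1074 (L l411 (T t1075 N))))))))))))))) (K a170 (M a48 (F (T t11 (L l462 (T t1 (L l114 (L l130 (L l390 (T t13 N))))))))) (K a191 (M a252 (F (L l130 (T t940 (L l112 (T t941 N)))))) (K a255 (M a16 (F (L l469 (T t97 (L l130 (L l266 (T t190 (L l289 (L l296 (T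 t191 N)))))))))) N))))))))))))))))⟩
def e0_63__71_118 : Ent 4 := ⟨[a0, a63], [a71, a123], (M a149 (F (T t5 (T t175 (T t176 (L l132 (T t177 (K a192 (M a53 (F (T t178 (L l236 (T t179 (L l77 (L l236 (L l296 (T t180 N))))))))) (K a21 (M a48 (F (T t4 (L l132 (T t13 (L l18 (T t14 N))))))) (K a85 (M a16 (F (T t97 (L l132 (L l144 (T t190 (L l94 (T t278 N)))))))) (K a213 (Fr a106 a192 l519 (Fr a42 a21 l68 (Fr a170 a234 l390 (Fr a255 a85 l476 (V t582))))) (K a42 (M a48 (F (T t11 (L l132 (L l390 (T t13 (L l54 (T t14 N)))))))) (K a106 (M a89 (F (L l390 (T t1955 (L l408 (L l427 (T t1956 (L l390 (L l408 (L l427 (T t1957 (L l390 (L l408 (T t1958 (L l408 (T t1959 N)))))))))))))))) (K a170 (M a48 (F (T t4 (L l462 (T t1 (L l132 (L l390 (T t13 N)))))))) (K a191 (M a16 (F (T t97 (L l132 (T t190 (L l213 (T t191 N))))))) (K a255 (M a16 (F (T t112 (L l132 (L l266 (T t190 (L l289 (L l296 (T t191 N))))))))) N))))))))))))))))⟩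
def e0_63__71_119 : Ent 4 := ⟨[a0, a63], [a71, a124], (M a149 (F (T t25 (T t175 (T t176 (L l140 (T t177 (K a192 (M a53 (F (T t178 (L l236 (T t179 (L l77 (L l236 (L l296 (T t180 N))))))))) (K a21 (M a48 (F (T t4 (L l110 (T t13 (L l18 (T t14 N))))))) (K a85 (M a16 (F (T t97 (L l144 (T t190 (L l94 (T t278 N))))))) (K a213 (Fr a106 a192 l519 (Fr a42 a21 l68 (Fr a170 a234 l390 (Fr a255 a85 l476 (V t582))))) (K a42 (M a48 (F (T t11 (L l110 (L l390 (T t13 (L l54 (T t14 N)))))))) (K a106 (M a48 (F (T t1 (L l498 (T t14 (L l390 (L l498 (T t6 (L l390 (T t26 N)))))))))) (K a170 (M a48 (F (T t4 (L l462 (T t1 (L l110 (L l390 (T t13 N)))))))) (K a191 (M a252 (F (L l140 (T t940 (L l109 (T t941 N)))))) (K a255 (M a16 (F (T t112 (L l266 (T t190 (L l289 (L l296 (T t191 N)))))))) N))))))))))))))))⟩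
def e0_63__71_120 : Ent 4 := ⟨[a0, a63], [a71, a125], (M a85 (F (T t88 (L l109 (L l434 (T t52 (T t89 (T t90 (K a64 (M a204 (F (T t1575 (L l125 (T t1576 N))))) (K a192 (M a16 (F (T t112 (L l77 (L l127 (T t96 (L l296 (T t98 N)))))))) (K a21 (M a48 (F (T t935 (L l47 (L l109 (T t100 (L l109 (L l111 (T t50 N))))))))) (K a149 (M a16 (F (T t112 (L l77 (L l331 (T t173 (L l170 (T t102 N)))))))) (K a213 (Fr a170 a255 l476 (Fr a42 a21 l68 (Fr a106 a234 l390 (Fr a192 a149 l519 (V t581))))) (K a42 (M a48 (F (L l434 (T t365 (L l109 (L l111 (L l390 (T t50 (L l28 (L l109 (T t100 N))))))))))) (K a106 (M a48 (F (T t1 (L l77 (L l104 (L l127 (T t509 (L l109 (L l111 (L l390 (T t50 N))))))))))) (K a170 (M a16 (F (L l390 (L l404 (T t97 (L l390 (T t98 (L l109 (L l404 (T t113 (L l331 (L l404 (T t174 N))))))))))))) (K a255 (M a60 (F (T t522 (L l109 (L l295 (L l431 (T t523 (L l295 (L l296 (T t115 (L l295 (L l296 (T t524 N)))))))))))))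 N)))))))))))))))))⟩
def e0_63__71_121 : Ent 4 := ⟨[a0, a63], [a71, a126], (M a149 (F (T t5 (T t175 (T t176 (L l142 (T t177 (K a192 (M a53 (F (T t178 (L l236 (T t179 (L l77 (L l236 (L l296 (T t180 N))))))))) (K a21 (M a48 (F (T t4 (L l142 (T t13 (L l18 (T t14 N))))))) (K a85 (M a16 (F (T t97 (L l142 (L l144 (T t190 (L l94 (T t278 N)))))))) (K a213 (Fr a106 a192 l519 (Fr a42 a21 l68 (Fr a170 a234 l390 (Fr a255 a85 l476 (V t582))))) (K a42 (M a48 (F (T t11 (L l142 (L l390 (T t13 (L l54 (T t14 N)))))))) (K a106 (M a86 (F (L l390 (T t620 (L l393 (L l432 (T t618 (L l125 (L l390 (L l393 (T t1239 (L l390 (L l393 (T t621 (L l393 (T t622 N)))))))))))))))) (K a170 (M a48 (F (T t4 (L l462 (T t1 (L l142 (L l390 (T t13 N)))))))) (K a191 (M a16 (F (T t97 (L l142 (T t190 (L l213 (T t191 N))))))) (K a255 (M a16 (F (T t112 (L l142 (L l266 (T t190 (L l289 (L l296 (T t191 N))))))))) N))))))))))))))))⟩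
def e0_63__71_122 : Ent 4 := ⟨[a0, a63], [a71, a127], (M a48 (F (T t1 (T t2 (T t3 (T t0 (K a16 (M a60 (F (T t64 (L l14 (L l18 (L l331 (T t67 (T t65 N)))))))) (K a32 (M a60 (F (T t64 (L l331 (T t67 (L l24 (L l28 (T t65 N)))))))) (K a21 (M a192 (F (T t28 (L l47 (L l331 (L l347 (T t20 (L l18 (L l144 (T t224 N)))))))))) (K a37 (M a192 (F (T t19 (L l47 (L l331 (T t20 (L l28 (L l144 (T t37 N))))))))) (K a53 (M a192 (F (T t19 (L l144 (T t37 (L l47 (L l137 (L l491 (T t525 N))))))))) (K a26 (M a192 (F (T t28 (L l331 (T t20 (L l54 (L l144 (T t37 N)))))))) (K a42 (M a192 (F (T t19 (L l331 (T t20 (L l54 (L l144 (L l390 (T t224 N))))))))) (K a58 (M a192 (F (T t19 (L l54 (L l144 (L l498 (T t37 (L l137 (T t525 N))))))))) (K a15 (M a106 (F (T t2289 (T t306 N)))) N)))))))))))))))⟩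
def e0_63__71_123 : Ent 4 := ⟨[a0, a63], [a71, a128], (M a48 (F (T t1 (T t2 (T t3 (T t0 (K a16 (M a60 (F (T t64 (L l14 (L l18 (L l331 (T t67 (T t65 N)))))))) (K a32 (M a60 (F (T t64 (L l331 (T t67 (L l24 (L l28 (T t65 N)))))))) (K a21 (M a154 (F (T t327 (L l47 (L l192 (T t473 (L l47 (T t527 N)))))))) (K a37 (M a52 (F (T t82 (T t83 (L l21 (L l28 (T t84 N))))))) (K a53 (M a12 (F (T t151 (T t443 (L l47 (T t146 N)))))) (K a26 (M a56 (F (T t133 (T t134 (L l12 (L l18 (T t135 N))))))) (K a42 (M a154 (F (L l331 (T t493 (L l28 (T t327 (L l28 (T t527 N)))))))) (K a58 (M a12 (F (T t443 (T t122 (T t146 N))))) (K a15 (M a4 (F (T t129 (L l63 (T t528 (T t520 N)))))) N)))))))))))))))⟩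
def e0_63__71_124 : Ent 4 := ⟨[a0, a63], [a71, a129], (M a149 (F (T t25 (L l152 (L l309 (T t175 (T t176 (T t177 (K a192 (M a3 (F (T t85 (L l152 (L l292 (L l305 (T t615 (L l125 (L l292 (L l296 (T t616 (L l292 (L l296 (T t1244 N)))))))))))))) (K a21 (M a48 (F (T t16 (L l152 (T t13 (L l18 (L l152 (T t14 N)))))))) (K a85 (M a16 (F (T t97 (L l144 (T t190 (L l94 (T t278 N))))))) (K a213 (Fr a106 a192 l519 (Fr a42 a21 l68 (Fr a170 a234 l390 (Fr a255 a85 l476 (V t582))))) (K a42 (M a48 (F (L l54 (T t16 (L l152 (L l390 (T t13 (L l54 (L l152 (T t14 N)))))))))) (K a106 (M a48 (F (T t1 (L l152 (L l498 (T t14 (L l390 (L l498 (T t6 (L l390 (T t26 N))))))))))) (K a170 (M a48 (F (T t3 (L l309 (T t11 (L l152 (L l390 (T t13 N)))))))) (K a191 (M a240 (F (T t962 (L l157 (T t963 N))))) (K a255 (M a16 (F (T t112 (L l266 (T t190 (L l289 (L l296 (T t191 N)))))))) N)))))))))))))))))⟩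
def e0_63__71_125 : Ent 4 := ⟨[a0, a63], [a71, a130], (M a85 (F (T t88 (T t52 (T t89 (L l218 (T t90 (K a64 (M a16 (F (T t97 (L l77 (L l84 (L l127 (T t96 (L l116 (T t98 N))))))))) (K a192 (M a16 (F (T t112 (L l77 (L l127 (T t96 (L l296 (T t98 N)))))))) (K a21 (M a48 (F (T t99 (L l218 (T t50 (L l47 (T t100 N))))))) (K a149 (M a16 (F (T t112 (L l77 (L l331 (T t173 (L l170 (T t102 N)))))))) (K a213 (Fr a170 a255 l476 (Fr a42 a21 l68 (Fr a106 a234 l390 (Fr a192 a149 l519 (V t581))))) (K a42 (M a48 (F (T t364 (L l218 (L l390 (T t50 (L l28 (T t100 N)))))))) (K a106 (M a48 (F (T t1 (L l77 (L l104 (L l127 (T t509 (L l218 (L l390 (T t50 N)))))))))) (K a170 (M a150 (F (L l306 (L l392 (T t1960 (L l390 (T t1961 (L l390 (L l392 (T t1962 (L l390 (L l392 (T t1963 (L l392 (T t1964 N))))))))))))))) (K a255 (M a16 (F (T t112 (L l289 (T t113 (L l289 (L l296 (T t98 N)))))))) N))))))))))))))))⟩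
def e0_63__71_126 : Ent 4 := ⟨[a0, a63], [a71, a131], (M a85 (F (T t88 (T t52 (T t89 (L l219 (T t90 (K a64 (M a204 (F (T t1575 (L l125 (T t1576 N))))) (K a192 (M a16 (F (T t112 (L l77 (L l127 (T t96 (L l296 (T t98 N)))))))) (K a21 (M a48 (F (T t99 (L l197 (T t50 (L l47 (T t100 N))))))) (K a149 (M a16 (F (T t112 (L l77 (L l331 (T t173 (L l170 (T t102 N)))))))) (K a213 (Fr a170 a255 l476 (Fr a42 a21 l68 (Fr a106 a234 l390 (Fr a192 a149 l519 (V t581))))) (K a42 (M a48 (F (T t364 (L l197 (L l390 (T t50 (L l28 (T t100 N)))))))) (K a106 (M a48 (F (T t99 (T t1 (L l197 (L l390 (T t50 N))))))) (K a170 (M a16 (F (L l404 (T t113 (L l390 (T t98 (L l390 (L l404 (T t97 (L l331 (L l404 (T t174 N)))))))))))) (K a255 (M a16 (F (T t112 (L l289 (T t113 (L l289 (L l296 (T t98 N)))))))) N))))))))))))))))⟩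
def e0_63__71_127 : Ent 4 := ⟨[a0, a63], [a71, a132], (M a149 (F (T t25 (L l156 (L l334 (T t175 (T t176 (T t177 (K a192 (M a12 (F (T t1252 (L l156 (L l272 (L l310 (T t649 (L l272 (L l296 (T t960 (L l272 (L l296 (T t1253 N))))))))))))) (K a21 (M a48 (F (T t16 (L l156 (T t13 (L l18 (L l156 (T t14 N)))))))) (K a85 (M a16 (F (T t97 (L l144 (T t190 (L l94 (T t278 N))))))) (K a213 (Fr a106 a192 l519 (Fr a42 a21 l68 (Fr a170 a234 l390 (Fr a255 a85 l476 (V t582))))) (K a42 (M a48 (F (L l54 (T t16 (L l156 (L l390 (T t13 (L l54 (L l156 (T t14 N)))))))))) (K a106 (M a48 (F (T t1 (L l156 (L l498 (T t14 (L l390 (L l498 (T t6 (L l390 (T t26 N))))))))))) (K a170 (M a48 (F (T t3 (L l334 (T t11 (L l156 (L l390 (T t13 N)))))))) (K a191 (M a240 (F (T t962 (L l153 (T t963 N))))) (K a255 (M a16 (F (T t112 (L l266 (T t190 (L l289 (L l296 (T t191 N)))))))) N)))))))))))))))))⟩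
def e0_63__71_128 : Ent 4 := ⟨[a0, a63], [a71, a133], (M a149 (F (T t25 (L l160 (L l339 (T t175 (T t176 (T t177 (K a192 (M a15 (F (T t1254 (L l160 (L l268 (L l311 (T t1026 (L l268 (L l296 (T t1031 (L l268 (L l296 (T t1255 N))))))))))))) (K a21 (M a48 (F (T t1267 (L l18 (L l160 (L l311 (T t14 (L l160 (T t13 N))))))))) (K a85 (M a16 (F (T t504 (L l144 (T t190 (L l94 (T t278 N))))))) (K a213 (Fr a106 a192 l519 (Fr a42 a21 l68 (Fr a170 a234 l390 (Fr a255 a85 l476 (V t582))))) (K a42 (M a48 (F (L l339 (T t11 (L l160 (L l390 (T t13 (L l54 (L l160 (L l311 (T t14 N))))))))))) (K a106 (M a48 (F (T t48 (L l160 (L l311 (L l498 (T t14 (L l390 (T t26 (L l311 (L l390 (L l498 (T t6 N))))))))))))) (K a170 (M a48 (F (T t607 (L l339 (T t11 (L l160 (L l390 (T t13 N)))))))) (K a191 (M a252 (F (T t940 (L l157 (T t941 N))))) (K a255 (M a16 (F (T t504 (L l266 (T t190 (L l289 (L l296 (T t191 N)))))))) N)))))))))))))))))⟩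
def e0_63__71_129 : Ent 4 := ⟨[a0, a63], [a71, a134], (M a149 (F (T t5 (T t175 (T t176 (T t177 (K a192 (M a53 (F (T t178 (L l236 (T t179 (L l77 (L l236 (L l296 (L l314 (T t180 N)))))))))) (K a21 (M a48 (F (T t4 (T t13 (L l18 (T t14 N)))))) (K a85 (M a16 (F (T t97 (L l144 (T t190 (L l94 (T t278 N))))))) (K a213 (Fr a106 a192 l519 (Fr a42 a21 l68 (Fr a170 a234 l390 (Fr a255 a85 l476 (V t582))))) (K a42 (M a48 (F (T t11 (L l390 (T t13 (L l54 (T t14 N))))))) (K a106 (M a48 (F (T t1 (L l498 (T t14 (L l390 (L l498 (T t6 (L l390 (T t26 N)))))))))) (K a170 (M a48 (F (T t4 (L l462 (T t1 (L l390 (T t13 N))))))) (K a191 (M a240 (F (T t962 (L l153 (T t963 N))))) (K a255 (M a16 (F (T t112 (L l266 (T t190 (L l289 (L l296 (T t191 N)))))))) N)))))))))))))))⟩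
def e0_63__71_130 : Ent 4 := ⟨[a0, a63], [a71, a135], (M a85 (L l313 (F (T t88 (T t52 (T t89 (T t90 (K a64 (M a4 (L l313 (F (T t519 (L l120 (T t1399 (L l77 (L l80 (L l201 (T t131 (K a7 (M a199 (F (T t129 (L l51 (T t2153 N))))) (K a199 (M a7 (F (T t129 (L l127 (L l140 (T t2290 N)))))) N)))))))))))) (K a192 (M a4 (L l313 (F (T t1399 (L l489 (T t519 (L l77 (L l201 (L l296 (T t131 (K a7 (M a199 (F (T t129 (L l51 (T t2153 N))))) (K a199 (M a7 (F (T t2152 (L l494 (T t1978 N))))) N)))))))))))) (K a21 (M a12 (L l313 (F (T t1368 (T t124 (L l15 (T t574 (K a7 (M a199 (F (T t1370 (L l15 (L l457 (T t574 (T t124 N))))))) (K a199 (M a7 (F (T t124 (L l201 (L l277 (T t2291 N)))))) N))))))))) (K a149 (M a4 (L l313 (F (T t1371 (L l495 (T t519 (L l125 (L l202 (T t1372 (K a7 (M a199 (F (T t129 (L l51 (L l202 (T t2153 N)))))) (K a199 (M a7 (F (T t129 (L l127 (L l351 (T t2290 N)))))) N))))))))))) (K a213 (Fr a170 a255 l476 (Fr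 a42 a21 l68 (Fr a106 a234 l390 (Fr a192 a149 l519 (V t581))))) (K a42 (M a12 (L l313 (F (T t1373 (L l390 (T t124 (L l56 (T t574 (K a7 (M a199 (F (L l390 (T t124 (L l56 (L l153 (L l457 (T t2168 N)))))))) (K a199 (M a7 (F (L l314 (T t1373 (L l390 (T t124 (L l56 (L l277 (T t574 N))))))))) N)))))))))) (K a106 (M a4 (L l313 (F (T t1371 (L l390 (T t519 (L l77 (L l201 (L l390 (T t131 (L l408 (T t938 (K a7 (M a199 (F (L l49 (L l390 (T t519 (L l153 (L l203 (L l457 (L l516 (T t2169 N)))))))))) (K a199 (M a7 (F (L l279 (T t2292 (L l390 (L l493 (T t519 N))))))) N)))))))))))))) (K a170 (M a4 (L l313 (F (L l464 (T t130 (L l77 (L l201 (L l390 (T t131 (L l390 (L l464 (T t519 (L l464 (T t938 (K a7 (M a199 (F (L l51 (L l178 (T t2153 (L l49 (L l390 (L l464 (T t519 N))))))))) (K a199 (M a7 (F (L l279 (T t2292 (L l390 (L l464 (L l493 (T t519 N)))))))) N)))))))))))))))) (K a255 (M a4 (L l313 (F (T t129 (L l265 (T t130 (L l77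 (L l201 (L l265 (L l296 (T t131 (K a7 (M a199 (F (T t129 (L l51 (T t2153 N))))) (K a199 (M a7 (F (T t129 (L l127 (L l266 (T t2290 N)))))) N))))))))))))) (K a7 (M a199 (F (T t88 (T t52 (T t89 (T t90 (K a64 (M a240 (F (T t386 (T t387 N)))) (K a192 (M a4 (F (T t129 (L l51 (T t2153 N))))) (K a21 (M a117 (F (T t2166 (L l77 (L l203 (T t2167 N)))))) (K a149 (M a4 (F (T t129 (L l51 (L l202 (T t2153 N)))))) (K a213 (Fr a170 a255 l476 (Fr a42 a21 l68 (Fr a106 a234 l390 (Fr a192 a149 l519 (V t581))))) (K a42 (M a12 (F (L l390 (T t124 (L l56 (L l153 (L l457 (T t2168 N)))))))) (K a106 (M a4 (F (L l49 (L l390 (T t519 (L l153 (L l203 (L l457 (L l516 (T t2169 N)))))))))) (K a170 (M a4 (F (L l51 (L l178 (T t2153 (L l49 (L l390 (L l464 (T t519 N))))))))) (K a255 (M a4 (F (T t129 (L l51 (T t2153 N))))) N))))))))))))))) (K a199 (M a7 (F (T t88 (T t52 (T t89 (T t90 (K a64 (M a4 (F (T t129 (L l127 (L l140 (T t2290 N)))))) (K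 a192 (M a4 (F (T t2152 (L l494 (T t1978 N))))) (K a21 (M a12 (F (T t124 (L l201 (L l277 (T t2291 N)))))) (K a149 (M a4 (F (T t129 (L l127 (L l351 (T t2290 N)))))) (K a213 (Fr a170 a255 l476 (Fr a42 a21 l68 (Fr a106 a234 l390 (Fr a192 a149 l519 (V t581))))) (K a42 (M a4 (F (T t2293 (L l56 (L l277 (T t130 N)))))) (K a106 (M a4 (F (L l279 (T t2292 (L l390 (L l493 (T t519 N))))))) (K a170 (M a4 (F (L l279 (T t2292 (L l390 (L l464 (L l493 (T t519 N)))))))) (K a255 (M a4 (F (T t129 (L l127 (L l266 (T t2290 N)))))) N))))))))))))))) N))))))))))))))))))⟩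
def e0_63__71_131 : Ent 4 := ⟨[a0, a63], [a71, a136], (M a85 (F (T t88 (T t52 (T t89 (L l208 (T t90 (K a64 (M a16 (F (T t97 (L l77 (L l84 (L l127 (T t96 (L l116 (T t98 N))))))))) (K a192 (M a16 (F (T t112 (L l77 (L l127 (T t96 (L l296 (T t98 N)))))))) (K a21 (M a48 (F (T t99 (L l208 (T t50 (L l47 (T t100 N))))))) (K a149 (M a16 (F (T t112 (L l77 (L l331 (T t173 (L l170 (T t102 N)))))))) (K a213 (Fr a170 a255 l476 (Fr a42 a21 l68 (Fr a106 a234 l390 (Fr a192 a149 l519 (V t581))))) (K a42 (M a48 (F (T t364 (L l208 (L l390 (T t50 (L l28 (T t100 N)))))))) (K a106 (M a48 (F (T t1 (L l77 (L l104 (L l127 (T t509 (L l208 (L l390 (T t50 N)))))))))) (K a170 (M a153 (F (L l316 (L l402 (T t1989 (L l390 (T t1988 (L l390 (L l402 (T t1990 (L l390 (L l402 (T t1991 (L l402 (T t1992 N))))))))))))))) (K a255 (M a16 (F (T t112 (L l289 (T t113 (L l289 (L l296 (T t98 N)))))))) N))))))))))))))))⟩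
def e0_63__71_132 : Ent 4 := ⟨[a0, a63], [a71, a137], (M a85 (F (T t88 (T t52 (T t89 (T t90 (K a64 (M a204 (F (T t1575 (L l125 (L l154 (T t1576 N)))))) (K a192 (M a16 (F (T t112 (L l77 (L l127 (L l329 (T t96 (L l296 (T t98 N))))))))) (K a21 (M a48 (F (T t99 (T t50 (L l47 (T t100 N)))))) (K a149 (M a16 (F (T t112 (L l77 (L l329 (L l331 (T t173 (L l170 (T t102 N))))))))) (K a213 (Fr a170 a255 l476 (Fr a42 a21 l68 (Fr a106 a234 l390 (Fr a192 a149 l519 (V t581))))) (K a42 (M a48 (F (T t364 (L l390 (T t50 (L l28 (T t100 N))))))) (K a106 (M a48 (F (T t99 (T t1 (L l390 (T t50 N)))))) (K a170 (M a16 (F (L l404 (T t113 (L l390 (T t98 (L l390 (L l404 (T t97 (L l331 (L l404 (T t174 N)))))))))))) (K a255 (M a16 (F (T t112 (L l289 (T t113 (L l289 (L l296 (T t98 N)))))))) N)))))))))))))))⟩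
def e0_63__71_133 : Ent 4 := ⟨[a0, a63], [a71, a138], (M a85 (F (T t88 (T t52 (T t89 (L l206 (T t90 (K a64 (M a16 (F (T t97 (L l77 (L l84 (L l331 (T t173 (L l116 (T t98 N))))))))) (K a192 (M a16 (F (T t112 (L l77 (L l236 (L l331 (T t173 (L l296 (T t98 N))))))))) (K a21 (M a240 (F (T t1384 (L l206 (T t933 (L l318 (T t1385 N))))))) (K a149 (M a16 (F (T t112 (L l77 (L l331 (T t173 (L l170 (L l206 (T t102 N))))))))) (K a213 (Fr a170 a255 l476 (Fr a42 a21 l68 (Fr a106 a234 l390 (Fr a192 a149 l519 (V t581))))) (K a42 (M a240 (F (T t1384 (L l206 (L l390 (T t386 (L l318 (T t1385 N)))))))) (K a106 (M a48 (F (L l318 (T t1 (L l77 (L l331 (T t1699 (L l206 (L l390 (T t50 N)))))))))) (K a170 (M a154 (F (L l390 (T t2294 (L l318 (L l404 (T t1705 (L l127 (L l390 (L l404 (T t2295 (L l390 (L l404 (T t1711 (L l331 (L l404 (T t2296 N))))))))))))))))) (K a255 (M a16 (F (T t112 (L l289 (L l296 (T t98 (L l289 (L l318 (T t113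 N))))))))) N))))))))))))))))⟩
def e0_63__71_134 : Ent 4 := ⟨[a0, a63], [a71, a139], (M a3 (F (T t137 (T t353 (T t665 (T t358 (K a60 (M a192 (F (T t1681 (L l83 (L l518 (T t2064 (L l430 (T t2069 N)))))))) (K a1 (M a85 (F (T t89 (L l125 (L l159 (T t355 (L l125 (T t377 N)))))))) (K a21 (M a192 (F (T t2297 (T t2069 (L l65 (T t2065 N)))))) (K a41 (M a192 (F (T t2297 (T t2069 (L l65 (T t35 N)))))) (K a2 (M a85 (F (T t52 (L l125 (L l159 (L l474 (T t355 (L l66 (L l125 (T t377 N)))))))))) (K a22 (M a192 (F (T t2298 (T t2069 (L l11 (T t35 N)))))) (K a42 (M a192 (F (T t2298 (L l390 (T t2069 (L l22 (L l390 (T t2065 N)))))))) (K a23 (M a192 (F (T t2298 (L l11 (L l351 (T t35 (L l11 (L l351 (T t2070 N))))))))) (K a43 (M a192 (F (T t2298 (T t35 (T t2070 N))))) N)))))))))))))))⟩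
def e0_63__71_135 : Ent 4 := ⟨[a0, a63], [a71, a140], (M a85 (F (T t88 (T t52 (T t89 (L l214 (T t90 (K a64 (M a204 (F (L l214 (T t1575 (L l125 (L l156 (T t1576 N))))))) (K a192 (M a16 (F (T t112 (L l77 (L l127 (T t96 (L l296 (T t98 N)))))))) (K a21 (M a48 (F (T t99 (L l222 (T t50 (L l47 (T t100 N))))))) (K a149 (M a16 (F (T t112 (L l77 (L l331 (T t173 (L l170 (T t102 N)))))))) (K a213 (Fr a170 a255 l476 (Fr a42 a21 l68 (Fr a106 a234 l390 (Fr a192 a149 l519 (V t581))))) (K a42 (M a48 (F (T t364 (L l222 (L l390 (T t50 (L l28 (T t100 N)))))))) (K a106 (M a48 (F (T t99 (T t1 (L l222 (L l390 (T t50 N))))))) (K a170 (M a16 (F (L l404 (T t113 (L l390 (T t98 (L l390 (L l404 (T t97 (L l331 (L l404 (T t174 N)))))))))))) (K a255 (M a16 (F (T t112 (L l289 (T t113 (L l289 (L l296 (T t98 N)))))))) N))))))))))))))))⟩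
def e0_63__71_136 : Ent 4 := ⟨[a0, a63], [a71, a141], (M a85 (F (T t88 (T t52 (T t89 (T t90 (K a64 (M a252 (F (T t91 (L l125 (T t92 N))))) (K a192 (M a16 (F (T t112 (L l77 (L l127 (T t96 (L l296 (T t98 N)))))))) (K a21 (M a48 (F (T t99 (T t50 (L l47 (T t100 N)))))) (K a149 (M a16 (F (T t112 (L l77 (L l331 (T t173 (L l170 (T t102 N)))))))) (K a213 (Fr a170 a255 l476 (Fr a42 a21 l68 (Fr a106 a234 l390 (Fr a192 a149 l519 (V t581))))) (K a42 (M a48 (F (T t364 (L l390 (T t50 (L l28 (T t100 N))))))) (K a106 (M a48 (F (T t99 (L l327 (T t1 (L l390 (T t50 N))))))) (K a170 (M a16 (F (L l404 (T t113 (L l390 (T t98 (L l327 (L l390 (L l404 (T t97 (L l331 (L l404 (T t174 N))))))))))))) (K a255 (M a16 (F (T t112 (L l289 (T t113 (L l289 (L l296 (T t98 N)))))))) N)))))))))))))))⟩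
def e0_63__71_137 : Ent 4 := ⟨[a0, a63], [a71, a142], (M a85 (F (T t88 (T t52 (T t89 (T t90 (K a64 (M a16 (F (T t97 (L l77 (L l84 (L l127 (T t96 (L l116 (T t98 N))))))))) (K a192 (M a16 (F (T t112 (L l77 (L l127 (T t96 (L l296 (T t98 N)))))))) (K a21 (M a48 (F (T t99 (T t50 (L l47 (T t100 N)))))) (K a149 (M a16 (F (T t112 (L l77 (L l326 (L l331 (T t173 (L l170 (L l224 (T t102 N)))))))))) (K a213 (Fr a170 a255 l476 (Fr a42 a21 l68 (Fr a106 a234 l390 (Fr a192 a149 l519 (V t581))))) (K a42 (M a48 (F (T t364 (L l390 (T t50 (L l28 (T t100 N))))))) (K a106 (M a48 (F (T t99 (T t1 (L l390 (T t50 N)))))) (K a170 (M a16 (F (L l404 (T t113 (L l390 (T t98 (L l390 (L l404 (T t97 (L l326 (L l331 (L l404 (T t174 N))))))))))))) (K a255 (M a16 (F (T t112 (L l289 (T t113 (L l289 (L l296 (T t98 N)))))))) N)))))))))))))))⟩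
def e0_63__71_138 : Ent 4 := ⟨[a0, a63], [a71, a143], (M a85 (F (T t88 (T t52 (T t89 (L l213 (T t90 (K a64 (M a204 (F (T t1575 (L l125 (T t1576 N))))) (K a192 (M a16 (F (T t260 (T t112 (L l213 (L l296 (T t98 N))))))) (K a21 (M a48 (F (T t99 (L l47 (T t903 (L l47 (T t100 N))))))) (K a149 (M a16 (F (T t112 (L l77 (T t666 (L l170 (L l227 (T t102 N)))))))) (K a213 (Fr a170 a255 l476 (Fr a42 a21 l68 (Fr a106 a234 l390 (Fr a192 a149 l519 (V t581))))) (K a42 (M a48 (F (T t364 (L l390 (T t903 (L l28 (T t100 N))))))) (K a106 (M a48 (F (T t99 (T t48 (L l227 (L l390 (T t50 N))))))) (K a170 (M a16 (F (L l404 (T t113 (L l213 (L l390 (T t98 (L l325 (L l390 (L l404 (T t97 (L l325 (L l331 (L l404 (T t174 N))))))))))))))) (K a255 (M a16 (F (T t112 (L l289 (T t113 (L l213 (L l289 (L l296 (T t98 N))))))))) N))))))))))))))))⟩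
def e0_63__71_139 : Ent 4 := ⟨[a0, a63], [a71, a144], (M a149 (F (T t25 (L l192 (L l484 (T t175 (T t176 (T t177 (K a192 (M a48 (F (T t132 (L l192 (L l236 (L l340 (T t14 (L l236 (L l296 (T t6 (L l236 (L l296 (L l331 (T t2007 N)))))))))))))) (K a21 (M a12 (F (T t647 (L l192 (T t648 (L l50 (L l192 (T t649 N)))))))) (K a85 (M a4 (F (T t519 (L l144 (T t653 (L l126 (T t654 N))))))) (K a213 (Fr a106 a192 l519 (Fr a42 a21 l68 (Fr a170 a234 l390 (Fr a255 a85 l476 (V t582))))) (K a42 (M a12 (F (L l26 (T t647 (L l192 (L l390 (T t648 (L l26 (L l192 (T t649 N)))))))))) (K a106 (M a12 (F (T t122 (L l192 (L l408 (T t649 (L l390 (L l408 (T t960 (L l390 (T t961 N))))))))))) (K a170 (M a12 (F (T t650 (L l402 (T t122 (L l192 (L l390 (T t648 N)))))))) (K a191 (M a240 (F (T t2299 (L l213 (L l340 (T t2300 (L l192 (T t2010 N)))))))) (K a255 (M a4 (F (T t129 (L l290 (T t653 (L l77 (L l265 (L l296 (T t1070 N))))))))) N)))))))))))))))))⟩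
def e0_63__71_140 : Ent 4 := ⟨[a0, a63], [a71, a145], (M a149 (F (T t25 (L l196 (L l489 (T t175 (T t176 (T t177 (K a192 (M a51 (F (T t1355 (L l196 (L l232 (L l341 (T t2011 (L l125 (L l232 (L l296 (T t2012 (L l232 (L l296 (T t2013 N)))))))))))))) (K a21 (M a48 (F (T t16 (L l162 (L l196 (T t13 (L l18 (L l196 (T t14 N))))))))) (K a85 (M a16 (F (T t97 (L l144 (L l345 (T t190 (L l94 (L l162 (T t278 N))))))))) (K a213 (Fr a106 a192 l519 (Fr a42 a21 l68 (Fr a170 a234 l390 (Fr a255 a85 l476 (V t582))))) (K a42 (M a48 (F (L l54 (T t16 (L l162 (L l196 (L l390 (T t13 (L l54 (L l196 (T t14 N))))))))))) (K a106 (M a48 (F (T t1 (L l196 (L l498 (T t14 (L l390 (L l498 (T t6 (L l162 (L l390 (T t26 N)))))))))))) (K a170 (M a48 (F (T t3 (L l162 (L l489 (T t11 (L l162 (L l196 (L l390 (T t13 N)))))))))) (K a191 (M a252 (F (T t940 (L l193 (T t941 N))))) (K a255 (M a16 (F (T t112 (L l266 (L l345 (T t190 (L l289 (L l296 (T t191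 N))))))))) N)))))))))))))))))⟩
def e0_63__71_141 : Ent 4 := ⟨[a0, a63], [a71, a146], (M a149 (F (T t5 (T t175 (T t176 (T t177 (K a192 (M a53 (F (T t178 (L l236 (L l344 (T t179 (L l77 (L l236 (L l296 (T t180 N)))))))))) (K a21 (M a48 (F (T t4 (L l162 (T t13 (L l18 (L l344 (T t14 N)))))))) (K a85 (M a16 (F (T t97 (L l144 (T t190 (L l94 (L l162 (T t278 N)))))))) (K a213 (Fr a106 a192 l519 (Fr a42 a21 l68 (Fr a170 a234 l390 (Fr a255 a85 l476 (V t582))))) (K a42 (M a48 (F (L l54 (T t4 (L l162 (L l390 (T t13 (L l54 (L l344 (T t14 N)))))))))) (K a106 (M a48 (F (T t1 (L l344 (L l498 (T t14 (L l390 (L l498 (T t6 (L l162 (L l390 (T t26 N)))))))))))) (K a170 (M a48 (F (T t4 (L l462 (T t1 (L l162 (L l390 (T t13 N)))))))) (K a191 (M a204 (F (T t1283 (L l162 (T t1112 N))))) (K a255 (M a16 (F (T t112 (L l266 (T t190 (L l289 (L l296 (T t191 N)))))))) N)))))))))))))))⟩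
def e0_63__71_142 : Ent 4 := ⟨[a0, a63], [a71, a147], (M a85 (F (T t88 (T t52 (T t89 (T t90 (K a64 (M a204 (F (T t1744 (L l125 (T t1576 N))))) (K a192 (M a16 (F (T t112 (L l77 (L l127 (T t96 (L l169 (L l296 (T t98 N))))))))) (K a21 (M a48 (F (T t99 (T t50 (L l47 (T t100 N)))))) (K a149 (M a16 (F (T t112 (L l77 (L l331 (T t173 (L l170 (T t102 N)))))))) (K a213 (Fr a170 a255 l476 (Fr a42 a21 l68 (Fr a106 a234 l390 (Fr a192 a149 l519 (V t581))))) (K a42 (M a48 (F (T t364 (L l390 (T t50 (L l28 (T t100 N))))))) (K a106 (M a48 (F (T t99 (T t1 (L l390 (T t50 N)))))) (K a170 (M a16 (F (L l404 (T t113 (L l169 (L l390 (T t98 (L l390 (L l404 (T t97 (L l331 (L l404 (T t174 N))))))))))))) (K a255 (M a16 (F (T t112 (L l289 (T t113 (L l169 (L l289 (L l296 (T t98 N))))))))) N)))))))))))))))⟩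
def e0_63__71_143 : Ent 4 := ⟨[a0, a63], [a71, a148], (M a149 (F (T t25 (L l216 (L l514 (T t175 (T t176 (T t177 (K a192 (M a60 (F (T t522 (L l216 (L l228 (L l346 (T t462 (L l228 (L l296 (T t1256 (L l228 (L l296 (T t1257 N))))))))))))) (K a21 (M a48 (F (T t16 (L l166 (L l216 (T t13 (L l18 (L l216 (T t14 N))))))))) (K a85 (M a16 (F (T t97 (L l144 (L l370 (T t190 (L l94 (L l166 (T t278 N))))))))) (K a213 (Fr a106 a192 l519 (Fr a42 a21 l68 (Fr a170 a234 l390 (Fr a255 a85 l476 (V t582))))) (K a42 (M a48 (F (L l54 (T t16 (L l166 (L l216 (L l390 (T t13 (L l54 (L l216 (T t14 N))))))))))) (K a106 (M a48 (F (T t1 (L l216 (L l498 (T t14 (L l390 (L l498 (T t6 (L l166 (L l390 (T t26 N)))))))))))) (K a170 (M a48 (F (T t3 (L l166 (L l514 (T t11 (L l166 (L l216 (L l390 (T t13 N)))))))))) (K a191 (M a16 (F (T t97 (L l370 (T t190 (L l213 (T t191 N))))))) (K a255 (M a16 (F (T t112 (L l266 (L l370 (T t190 (L l289 (L l296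 (T t191 N))))))))) N)))))))))))))))))⟩
def e0_63__71_144 : Ent 4 := ⟨[a0, a63], [a71, a149], (M a12 (F (T t151 (L l347 (L l371 (T t122 (L l347 (T t152 (L l495 (T t153 (K a4 (M a60 (F (T t680 (L l46 (L l50 (L l331 (L l347 (T t67 (L l351 (T t448 N)))))))))) (K a8 (M a60 (F (T t680 (L l331 (L l347 (T t67 (L l52 (L l56 (L l351 (T t448 N)))))))))) (K a21 (M a85 (F (T t1368 (L l220 (T t124 (L l15 (L l202 (L l220 (L l371 (T t2301 (L l15 (L l371 (T t2302 N))))))))))))) (K a25 (M a48 (F (T t550 (L l15 (L l347 (L l491 (T t1 (L l12 (L l56 (T t866 N)))))))))) (K a29 (M a48 (L l371 (F (T t2 (T t550 (T t866 (K a209 (M a89 (F (T t2 (L l272 (T t863 N))))) (K a89 (M a209 (F (T t2 (L l356 (T t445 (L l356 (T t866 N))))))) N)))))))) (K a38 (M a48 (F (T t1580 (L l26 (T t2 (L l21 (L l50 (L l347 (L l491 (T t868 N)))))))))) (K a42 (M a255 (F (T t2124 (L l347 (T t2031 (L l56 (L l220 (L l371 (L l390 (T t2032 N)))))))))) (K a46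 (M a48 (F (T t443 (L l347 (L l491 (T t1 (L l26 (T t866 N)))))))) (K a51 (M a16 (F (T t112 (L l39 (T t871 (T t872 N)))))) N)))))))))))))))))))⟩
def e0_63__71_145 : Ent 4 := ⟨[a0, a63], [a71, a150], (M a48 (F (T t1 (T t2 (T t3 (T t0 (K a16 (M a60 (F (T t64 (L l14 (L l18 (L l331 (L l350 (T t67 (T t65 N))))))))) (K a32 (M a60 (F (T t64 (L l331 (L l350 (T t67 (L l24 (L l28 (T t65 N))))))))) (K a21 (M a192 (F (T t837 (L l47 (L l163 (L l331 (L l347 (T t20 (L l47 (L l163 (L l347 (T t29 N)))))))))))) (K a37 (M a192 (F (T t19 (L l47 (L l163 (L l331 (T t20 (L l163 (T t21 N))))))))) (K a53 (M a192 (F (T t19 (L l163 (L l491 (T t21 (L l516 (T t31 N)))))))) (K a26 (M a192 (F (T t27 (L l163 (L l331 (T t20 (L l163 (T t21 N)))))))) (K a42 (M a192 (F (T t19 (L l163 (L l331 (T t20 (L l28 (L l163 (T t29 N))))))))) (K a58 (M a192 (F (T t19 (L l163 (T t21 (L l54 (L l498 (L l516 (T t31 N))))))))) (K a15 (M a192 (F (T t1922 (L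 l163 (L l325 (L l331 (T t20 (L l163 (L l469 (T t21 N)))))))))) N)))))))))))))))⟩
def e0_63__71_146 : Ent 4 := ⟨[a0, a63], [a71, a151], (M a48 (F (T t1 (T t2 (T t3 (L l373 (T t0 (K a16 (M a60 (F (T t64 (L l14 (L l18 (L l331 (T t67 (L l349 (T t65 N))))))))) (K a32 (M a60 (F (T t64 (L l331 (T t67 (L l24 (L l28 (L l349 (T t65 N))))))))) (K a21 (M a192 (F (T t837 (L l47 (L l163 (L l331 (L l347 (T t20 (L l47 (L l163 (L l347 (T t29 N)))))))))))) (K a37 (M a192 (F (T t19 (L l47 (L l163 (L l331 (T t20 (L l163 (T t21 N))))))))) (K a53 (M a192 (F (T t19 (L l163 (L l491 (T t21 (L l169 (T t31 N)))))))) (K a26 (M a192 (F (T t27 (L l163 (L l331 (T t20 (L l163 (T t21 N)))))))) (K a42 (M a192 (F (T t19 (L l163 (L l331 (T t20 (L l28 (L l163 (T t29 N))))))))) (K a58 (M a192 (F (T t19 (L l163 (T t21 (L l54 (L l169 (L l498 (T t31 N))))))))) (K a15 (M a192 (F (T t1681 (L l483 (T t27 (L l163 (L l325 (L l331 (T t20 N)))))))))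 N))))))))))))))))⟩
def e0_63__71_147 : Ent 4 := ⟨[a0, a63], [a71, a152], (M a85 (F (T t88 (T t52 (T t89 (T t90 (K a64 (M a204 (F (T t1575 (L l125 (L l204 (T t1576 N)))))) (K a192 (M a16 (F (T t112 (L l77 (L l127 (T t96 (L l296 (T t98 N)))))))) (K a21 (M a48 (F (T t99 (L l222 (T t50 (L l47 (T t100 N))))))) (K a149 (M a16 (F (T t112 (L l77 (L l331 (T t173 (L l164 (L l170 (T t102 N))))))))) (K a213 (Fr a170 a255 l476 (Fr a42 a21 l68 (Fr a106 a234 l390 (Fr a192 a149 l519 (V t581))))) (K a42 (M a48 (F (L l28 (T t99 (L l222 (L l390 (T t50 (L l28 (T t100 N))))))))) (K a106 (M a48 (F (T t1 (L l77 (L l104 (L l127 (T t509 (L l222 (L l390 (T t50 N)))))))))) (K a170 (M a16 (F (L l404 (T t113 (L l390 (T t98 (L l390 (L l404 (T t97 (L l331 (L l404 (T t174 N)))))))))))) (K a255 (M a16 (F (T t112 (L l289 (T t113 (L l289 (L l296 (T t98 N)))))))) N)))))))))))))))⟩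
def e0_63__71_148 : Ent 4 := ⟨[a0, a63], [a71, a153], (M a48 (F (T t1 (T t2 (T t3 (T t0 (K a16 (M a60 (F (T t522 (L l513 (T t64 (T t65 N)))))) (K a32 (M a60 (F (T t277 (L l331 (T t67 (L l24 (L l28 (T t65 N)))))))) (K a21 (M a192 (F (T t837 (L l47 (L l167 (L l331 (L l347 (T t20 (L l47 (L l167 (L l347 (T t29 N)))))))))))) (K a37 (M a192 (F (T t19 (L l47 (L l167 (L l331 (T t20 (L l167 (T t21 N))))))))) (K a53 (M a192 (F (T t19 (L l167 (L l491 (T t21 (L l501 (T t31 N)))))))) (K a26 (M a192 (F (T t27 (L l167 (L l331 (T t20 (L l167 (T t21 N)))))))) (K a42 (M a192 (F (T t19 (L l167 (L l331 (T t20 (L l28 (L l167 (T t29 N))))))))) (K a58 (M a192 (F (T t19 (L l167 (T t21 (L l54 (L l498 (L l501 (T t31 N))))))))) (K a15 (M a192 (F (T t1922 (L l167 (L l325 (L l331 (T t20 (L l167 (L l469 (T t21 N)))))))))) N)))))))))))))))⟩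
def e0_63__71_149 : Ent 4 := ⟨[a0, a63], [a71, a154], (M a12 (F (T t122 (T t151 (T t152 (T t153 (K a4 (M a60 (F (T t398 (L l46 (L l50 (L l331 (T t67 (T t448 N)))))))) (K a8 (M a60 (F (T t398 (L l331 (T t67 (L l52 (L l56 (T t448 N)))))))) (K a21 (M a192 (F (T t836 (L l15 (L l170 (L l347 (T t450 (L l15 (L l170 (L l347 (T t157 N))))))))))) (K a25 (M a192 (F (T t449 (L l15 (L l170 (T t450 (L l170 (T t21 N)))))))) (K a29 (M a192 (F (T t449 (L l170 (L l371 (T t21 (L l498 (T t160 N)))))))) (K a38 (M a192 (F (T t156 (L l170 (T t450 (L l170 (T t21 N))))))) (K a42 (M a192 (F (T t449 (L l170 (T t450 (L l56 (L l170 (T t157 N)))))))) (K a46 (M a192 (F (T t449 (L l170 (T t21 (L l26 (L l408 (L l498 (T t160 N))))))))) (K a51 (M a192 (F (T t1725 (L l170 (L l415 (T t450 (L l170 (L l439 (T t21 N))))))))) N)))))))))))))))⟩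
def e0_63__71_150 : Ent 4 := ⟨[a0, a63], [a71, a155], (M a85 (F (T t88 (T t52 (T t89 (T t90 (K a64 (M a204 (F (T t1744 (L l125 (T t1576 N))))) (K a192 (M a16 (F (T t112 (L l77 (L l127 (L l367 (T t96 (L l169 (L l296 (L l367 (T t98 N))))))))))) (K a21 (M a48 (F (L l367 (T t99 (T t50 (L l47 (L l367 (T t100 N)))))))) (K a149 (M a16 (F (T t112 (L l77 (L l331 (L l367 (L l511 (T t173 (L l164 (L l170 (T t102 N))))))))))) (K a213 (Fr a170 a255 l476 (Fr a42 a21 l68 (Fr a106 a234 l390 (Fr a192 a149 l519 (V t581))))) (K a42 (M a48 (F (T t364 (L l390 (T t50 (L l28 (L l367 (T t100 N)))))))) (K a106 (M a48 (F (T t364 (T t1 (L l390 (T t50 N)))))) (K a170 (M a16 (F (L l390 (L l404 (T t97 (L l169 (L l367 (L l390 (T t98 (L l367 (L l404 (T t113 (L l331 (L l367 (L l404 (L l511 (T t174 N))))))))))))))))) (K a255 (M a16 (F (T t112 (L l289 (L l367 (T t113 (L l169 (L l289 (L l296 (L l367 (T t98 N))))))))))) N)))))))))))))))⟩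
def e0_63__71_151 : Ent 4 := ⟨[a0, a63], [a71, a156], (M a85 (F (T t88 (T t52 (T t89 (T t90 (K a64 (M a16 (F (T t97 (L l77 (L l84 (L l127 (T t96 (L l116 (L l165 (T t98 N)))))))))) (K a192 (M a16 (F (T t112 (L l77 (L l127 (T t96 (L l165 (L l296 (T t98 N))))))))) (K a21 (M a48 (F (T t99 (T t50 (L l47 (T t100 N)))))) (K a149 (M a16 (F (T t112 (L l77 (L l331 (T t173 (L l170 (T t102 N)))))))) (K a213 (Fr a170 a255 l476 (Fr a42 a21 l68 (Fr a106 a234 l390 (Fr a192 a149 l519 (V t581))))) (K a42 (M a48 (F (T t364 (L l390 (T t50 (L l28 (T t100 N))))))) (K a106 (M a48 (F (T t99 (T t1 (L l390 (T t50 N)))))) (K a170 (M a16 (F (L l404 (T t113 (L l165 (L l390 (T t98 (L l390 (L l404 (T t97 (L l331 (L l404 (T t174 N))))))))))))) (K a255 (M a16 (F (T t112 (L l289 (T t113 (L l165 (L l289 (L l296 (T t98 N))))))))) N)))))))))))))))⟩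
def e0_63__71_152 : Ent 4 := ⟨[a0, a63], [a71, a157], (M a48 (F (T t1 (T t2 (T t3 (L l363 (T t0 (K a16 (M a60 (F (T t42 (L l14 (L l18 (L l331 (T t67 (T t65 N)))))))) (K a32 (M a60 (F (T t42 (L l331 (T t67 (L l24 (L l28 (T t65 N)))))))) (K a21 (M a192 (F (T t837 (L l47 (L l167 (L l331 (L l347 (T t20 (L l47 (L l167 (L l347 (T t29 N)))))))))))) (K a37 (M a192 (F (T t19 (L l47 (L l167 (L l331 (T t20 (L l167 (T t21 N))))))))) (K a53 (M a192 (F (T t19 (L l167 (L l491 (T t21 (L l165 (T t31 N)))))))) (K a26 (M a192 (F (T t27 (L l167 (L l331 (T t20 (L l167 (T t21 N)))))))) (K a42 (M a192 (F (T t19 (L l167 (L l331 (T t20 (L l28 (L l167 (T t29 N))))))))) (K a58 (M a192 (F (T t19 (L l167 (T t21 (L l54 (L l165 (L l498 (T t31 N))))))))) (K a15 (M a192 (F (T t1681 (L l483 (T t27 (L l167 (L l325 (L l331 (T t20 N))))))))) N))))))))))))))))⟩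
def e0_63__71_153 : Ent 4 := ⟨[a0, a63], [a71, a158], (M a149 (F (T t5 (T t175 (T t176 (T t177 (K a192 (M a53 (F (T t178 (L l236 (T t179 (L l77 (L l236 (L l296 (T t180 N))))))))) (K a21 (M a48 (F (T t4 (T t13 (L l18 (T t14 N)))))) (K a85 (M a16 (F (T t97 (L l144 (T t190 (L l94 (T t278 N))))))) (K a213 (Fr a106 a192 l519 (Fr a42 a21 l68 (Fr a170 a234 l390 (Fr a255 a85 l476 (V t582))))) (K a42 (M a48 (F (T t11 (L l390 (T t13 (L l54 (T t14 N))))))) (K a106 (M a48 (F (T t1 (L l498 (T t14 (L l390 (L l498 (T t6 (L l362 (L l390 (T t26 N))))))))))) (K a170 (M a48 (F (T t4 (L l462 (T t1 (L l390 (T t13 N))))))) (K a191 (M a204 (F (T t1283 (L l504 (T t1112 N))))) (K a255 (M a16 (F (T t112 (L l266 (T t190 (L l165 (L l289 (L l296 (L l362 (T t191 N)))))))))) N)))))))))))))))⟩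
def e0_63__71_154 : Ent 4 := ⟨[a0, a63], [a71, a159], (M a48 (F (T t1 (T t2 (T t3 (L l361 (T t0 (K a16 (M a60 (F (T t64 (L l14 (L l18 (L l331 (T t67 (T t65 N)))))))) (K a32 (M a60 (F (T t64 (L l331 (T t67 (L l24 (L l28 (T t65 N)))))))) (K a21 (M a192 (F (T t837 (L l47 (L l170 (L l331 (L l347 (T t20 (L l18 (T t224 N)))))))))) (K a37 (M a192 (F (T t837 (L l47 (L l170 (L l331 (T t20 (L l213 (T t202 N))))))))) (K a53 (M a192 (F (T t837 (L l213 (T t202 (L l47 (L l170 (L l491 (T t838 N))))))))) (K a26 (M a192 (F (T t837 (L l170 (L l331 (T t20 (L l213 (T t202 N)))))))) (K a42 (M a192 (F (T t837 (L l170 (L l331 (T t20 (L l54 (L l390 (T t224 N))))))))) (K a58 (M a192 (F (T t837 (L l213 (L l498 (T t202 (L l170 (T t838 N)))))))) (K a15 (M a192 (F (T t1681 (L l483 (T t837 (L l170 (L l325 (L l331 (T t20 N))))))))) N))))))))))))))))⟩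
def e0_63__71_155 : Ent 4 := ⟨[a0, a63], [a71, a160], (M a85 (F (T t88 (T t52 (T t89 (L l180 (T t90 (K a64 (M a16 (F (L l376 (T t97 (L l77 (L l84 (T t666 (L l116 (T t98 N))))))))) (K a192 (M a16 (F (L l376 (T t112 (L l77 (L l296 (T t666 (L l296 (T t98 N))))))))) (K a21 (M a48 (F (L l376 (T t99 (L l180 (L l192 (T t50 (L l47 (L l376 (T t100 N)))))))))) (K a149 (M a16 (F (L l376 (T t112 (L l77 (T t666 (L l170 (T t102 N)))))))) (K a213 (Fr a170 a255 l476 (Fr a42 a21 l68 (Fr a106 a234 l390 (Fr a192 a149 l519 (V t581))))) (K a42 (M a48 (F (T t364 (L l180 (L l192 (L l390 (T t50 (L l28 (L l376 (T t100 N)))))))))) (K a106 (M a48 (F (T t1 (L l77 (L l104 (L l127 (L l376 (T t509 (L l180 (L l192 (L l390 (T t50 N)))))))))))) (K a170 (M a165 (F (L l376 (L l462 (T t2016 (L l77 (L l390 (T t2015 (L l390 (L l462 (T t2017 (L l390 (L l462 (T t2018 (L l462 (T t2014 N)))))))))))))))) (K a255 (M a16 (F (L l376 (T t112 (L l289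 (L l296 (T t98 (L l289 (L l376 (T t113 N)))))))))) N))))))))))))))))⟩
def e0_63__71_156 : Ent 4 := ⟨[a0, a63], [a71, a161], (M a85 (F (T t88 (T t52 (T t89 (T t90 (K a64 (M a252 (F (T t91 (L l125 (T t92 N))))) (K a192 (M a16 (F (T t112 (L l77 (L l127 (T t96 (L l296 (T t98 N)))))))) (K a21 (M a48 (F (T t99 (L l197 (L l453 (T t50 (L l47 (T t100 N)))))))) (K a149 (M a16 (F (T t112 (L l77 (L l331 (T t173 (L l170 (T t102 N)))))))) (K a213 (Fr a170 a255 l476 (Fr a42 a21 l68 (Fr a106 a234 l390 (Fr a192 a149 l519 (V t581))))) (K a42 (M a48 (F (T t364 (L l197 (L l390 (L l453 (T t50 (L l28 (T t100 N))))))))) (K a106 (M a48 (F (T t1 (L l77 (L l104 (L l127 (T t509 (L l197 (L l390 (L l453 (T t50 N))))))))))) (K a170 (M a16 (F (L l404 (T t113 (L l390 (T t98 (L l390 (L l404 (T t97 (L l331 (L l404 (T t174 N)))))))))))) (K a255 (M a16 (F (T t112 (L l289 (T t113 (L l289 (L l296 (T t98 N)))))))) N)))))))))))))))⟩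
def e0_63__71_157 : Ent 4 := ⟨[a0, a63], [a71, a162], (M a85 (F (T t88 (T t52 (T t89 (L l178 (T t90 (K a64 (M a16 (F (L l380 (T t97 (L l77 (L l84 (T t666 (L l116 (T t98 N))))))))) (K a192 (M a16 (F (L l380 (T t112 (L l77 (L l296 (T t666 (L l296 (T t98 N))))))))) (K a21 (M a48 (F (L l380 (T t99 (L l178 (T t50 (L l47 (L l380 (T t100 N))))))))) (K a149 (M a16 (F (L l380 (T t112 (L l77 (T t666 (L l170 (T t102 N)))))))) (K a213 (Fr a170 a255 l476 (Fr a42 a21 l68 (Fr a106 a234 l390 (Fr a192 a149 l519 (V t581))))) (K a42 (M a48 (F (T t364 (L l178 (L l390 (T t50 (L l28 (L l380 (T t100 N))))))))) (K a106 (M a48 (F (T t1 (L l77 (L l104 (L l127 (L l380 (T t509 (L l178 (L l390 (T t50 N))))))))))) (K a170 (M a166 (F (L l378 (L l464 (T t2019 (L l77 (L l390 (T t2020 (L l390 (L l464 (T t2021 (L l390 (L l464 (T t2022 (L l464 (T t2023 N)))))))))))))))) (K a255 (M a16 (F (L l380 (T t112 (L l289 (L l296 (T t98 (L l289 (L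 l380 (T t113 N)))))))))) N))))))))))))))))⟩
def e0_63__71_158 : Ent 4 := ⟨[a0, a63], [a71, a163], (M a85 (F (T t88 (T t52 (T t89 (T t90 (K a64 (M a240 (F (T t933 (L l172 (T t387 N))))) (K a192 (M a16 (F (T t112 (L l77 (L l127 (T t96 (L l296 (T t98 N)))))))) (K a21 (M a48 (F (T t99 (T t50 (L l47 (T t100 N)))))) (K a149 (M a16 (F (T t112 (L l77 (L l331 (T t173 (L l170 (T t102 N)))))))) (K a213 (Fr a170 a255 l476 (Fr a42 a21 l68 (Fr a106 a234 l390 (Fr a192 a149 l519 (V t581))))) (K a42 (M a48 (F (T t364 (L l390 (T t50 (L l28 (T t100 N))))))) (K a106 (M a48 (F (T t99 (T t1 (L l390 (T t50 N)))))) (K a170 (M a16 (F (L l404 (T t113 (L l390 (T t98 (L l390 (L l404 (T t97 (L l331 (L l404 (T t174 N)))))))))))) (K a255 (M a16 (F (T t112 (L l289 (T t113 (L l289 (L l296 (T t98 N)))))))) N)))))))))))))))⟩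
def e0_63__71_159 : Ent 4 := ⟨[a0, a63], [a71, a164], (M a85 (F (T t88 (T t52 (T t89 (T t90 (K a64 (M a252 (F (T t91 (L l125 (L l176 (T t92 N)))))) (K a192 (M a16 (F (T t112 (L l77 (L l127 (T t96 (L l296 (T t98 N)))))))) (K a21 (M a48 (F (T t99 (L l222 (L l478 (T t50 (L l47 (T t100 N)))))))) (K a149 (M a16 (F (T t112 (L l77 (L l331 (T t173 (L l170 (T t102 N)))))))) (K a213 (Fr a170 a255 l476 (Fr a42 a21 l68 (Fr a106 a234 l390 (Fr a192 a149 l519 (V t581))))) (K a42 (M a48 (F (T t364 (L l222 (L l390 (L l478 (T t50 (L l28 (T t100 N))))))))) (K a106 (M a48 (F (T t1 (L l77 (L l104 (L l127 (T t509 (L l222 (L l390 (L l478 (T t50 N))))))))))) (K a170 (M a16 (F (L l404 (T t113 (L l390 (T t98 (L l390 (L l404 (T t97 (L l331 (L l404 (T t174 N)))))))))))) (K a255 (M a16 (F (T t112 (L l289 (T t113 (L l289 (L l296 (T t98 N)))))))) N)))))))))))))))⟩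
def e0_63__71_160 : Ent 4 := ⟨[a0, a63], [a71, a165], (M a12 (F (T t122 (T t151 (T t152 (T t153 (K a4 (M a60 (F (T t522 (L l483 (T t398 (T t448 N)))))) (K a8 (M a60 (F (T t835 (L l331 (T t67 (L l52 (L l56 (T t448 N)))))))) (K a21 (M a192 (F (T t836 (L l15 (L l199 (L l347 (T t450 (L l15 (L l199 (L l347 (T t157 N))))))))))) (K a25 (M a192 (F (T t449 (L l15 (L l199 (T t450 (L l199 (T t21 N)))))))) (K a29 (M a192 (F (T t449 (L l199 (L l371 (T t21 (L l411 (T t160 N)))))))) (K a38 (M a192 (F (T t156 (L l199 (T t450 (L l199 (T t21 N))))))) (K a42 (M a192 (F (T t449 (L l199 (T t450 (L l56 (L l199 (T t157 N)))))))) (K a46 (M a192 (F (T t449 (L l199 (T t21 (L l26 (L l408 (L l411 (T t160 N))))))))) (K a51 (M a192 (F (T t1725 (L l199 (L l415 (T t450 (L l199 (L l439 (T t21 N))))))))) N)))))))))))))))⟩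
def e0_63__71_161 : Ent 4 := ⟨[a0, a63], [a71, a166], (M a48 (F (T t1 (T t2 (T t3 (T t0 (K a16 (M a60 (F (T t64 (L l14 (L l18 (L l331 (T t67 (T t65 N)))))))) (K a32 (M a60 (F (T t64 (L l331 (T t67 (L l24 (L l28 (T t65 N)))))))) (K a21 (M a192 (F (T t837 (L l47 (L l202 (L l331 (L l347 (T t20 (L l47 (L l202 (L l347 (T t29 N)))))))))))) (K a37 (M a192 (F (T t19 (L l47 (L l202 (L l331 (T t20 (L l202 (T t21 N))))))))) (K a53 (M a192 (F (T t19 (L l202 (L l491 (T t21 (L l408 (T t31 N)))))))) (K a26 (M a192 (F (T t27 (L l202 (L l331 (T t20 (L l202 (T t21 N)))))))) (K a42 (M a192 (F (T t19 (L l202 (L l331 (T t20 (L l28 (L l202 (T t29 N))))))))) (K a58 (M a192 (F (T t19 (L l202 (T t21 (L l54 (L l408 (L l498 (T t31 N))))))))) (K a15 (M a192 (F (T t1922 (L l202 (L l325 (L l331 (T t20 (L l202 (L l469 (T t21 N)))))))))) N)))))))))))))))⟩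
def e0_63__71_162 : Ent 4 := ⟨[a0, a63], [a71, a167], (M a85 (F (T t88 (T t52 (T t89 (T t90 (K a64 (M a204 (F (T t1744 (L l125 (T t1576 N))))) (K a192 (M a16 (F (T t112 (L l77 (L l127 (T t96 (L l296 (T t98 N)))))))) (K a21 (M a48 (F (T t99 (T t50 (L l47 (T t100 N)))))) (K a149 (M a16 (F (T t112 (L l77 (L l331 (T t173 (L l170 (T t102 N)))))))) (K a213 (Fr a170 a255 l476 (Fr a42 a21 l68 (Fr a106 a234 l390 (Fr a192 a149 l519 (V t581))))) (K a42 (M a48 (F (T t364 (L l390 (T t50 (L l28 (T t100 N))))))) (K a106 (M a48 (F (T t99 (L l481 (T t1 (L l390 (T t50 N))))))) (K a170 (M a16 (F (L l404 (T t113 (L l390 (T t98 (L l390 (L l404 (L l481 (T t97 (L l331 (L l404 (T t174 N))))))))))))) (K a255 (M a16 (F (T t112 (L l289 (T t113 (L l289 (L l296 (T t98 N)))))))) N)))))))))))))))⟩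
def e0_63__71_163 : Ent 4 := ⟨[a0, a63], [a71, a168], (M a85 (F (T t88 (T t52 (T t89 (L l174 (T t90 (K a64 (M a16 (F (L l400 (T t97 (L l77 (L l84 (T t666 (L l116 (T t98 N))))))))) (K a192 (M a16 (F (L l400 (T t112 (L l77 (L l296 (T t666 (L l296 (T t98 N))))))))) (K a21 (M a48 (F (L l400 (T t99 (L l174 (T t50 (L l47 (L l400 (T t100 N))))))))) (K a149 (M a16 (F (L l400 (T t112 (L l77 (T t666 (L l170 (T t102 N)))))))) (K a213 (Fr a170 a255 l476 (Fr a42 a21 l68 (Fr a106 a234 l390 (Fr a192 a149 l519 (V t581))))) (K a42 (M a48 (F (T t364 (L l174 (L l390 (T t50 (L l28 (L l400 (T t100 N))))))))) (K a106 (M a48 (F (T t1 (L l77 (L l104 (L l127 (L l400 (T t509 (L l174 (L l390 (T t50 N))))))))))) (K a170 (M a169 (F (L l390 (T t2024 (L l388 (L l474 (T t2025 (L l127 (L l390 (L l474 (T t2026 (L l390 (L l474 (T t2027 (L l474 (T t2028 N)))))))))))))))) (K a255 (M a16 (F (L l400 (T t112 (L l289 (L l296 (T t98 (L l289 (L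 l400 (T t113 N)))))))))) N))))))))))))))))⟩
def e0_63__71_164 : Ent 4 := ⟨[a0, a63], [a71, a169], (M a48 (F (T t1 (T t2 (T t3 (T t0 (K a16 (M a60 (F (T t64 (L l14 (L l18 (L l331 (L l393 (L l477 (T t67 (T t65 N)))))))))) (K a32 (M a60 (F (T t64 (L l331 (L l393 (L l477 (T t67 (L l24 (L l28 (T t65 N)))))))))) (K a21 (M a192 (F (T t837 (L l47 (L l217 (L l331 (L l347 (T t20 (L l47 (L l217 (L l347 (T t29 N)))))))))))) (K a37 (M a192 (F (T t19 (L l47 (L l217 (L l331 (T t20 (L l217 (T t21 N))))))))) (K a53 (M a192 (F (T t19 (L l217 (L l491 (T t21 (L l393 (T t31 N)))))))) (K a26 (M a192 (F (T t27 (L l217 (L l331 (T t20 (L l217 (T t21 N)))))))) (K a42 (M a192 (F (T t19 (L l217 (L l331 (T t20 (L l28 (L l217 (T t29 N))))))))) (K a58 (M a192 (F (T t19 (L l217 (T t21 (L l54 (L l393 (L l498 (T t31 N))))))))) (K a15 (M a192 (F (T t1922 (L l217 (L l325 (L l331 (T t20 (L l217 (L l469 (T t21 N)))))))))) N)))))))))))))))⟩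
def e0_63__71_165 : Ent 4 := ⟨[a0, a63], [a71, a170], (M a12 (F (T t152 (L l402 (T t122 (L l390 (T t151 (L l390 (L l464 (T t153 (K a4 (M a60 (F (T t398 (L l46 (L l50 (L l331 (T t67 (L l390 (L l392 (T t448 N)))))))))) (K a8 (M a62 (L l464 (F (T t708 (L l331 (L l474 (T t709 (L l2 (L l462 (T t710 (K a89 (M a251 (F (T t711 (L l371 (T t708 (L l2 (L l371 (L l462 (T t710 N))))))))) (K a251 (M a89 (F (T t711 (L l220 (L l265 (T t2303 N)))))) N)))))))))))) (K a21 (M a192 (F (T t836 (L l390 (T t221 (L l15 (L l220 (L l347 (L l464 (T t157 N)))))))))) (K a25 (M a192 (F (T t449 (L l390 (T t221 (L l15 (L l56 (L l220 (L l464 (T t157 N)))))))))) (K a29 (M a48 (F (T t550 (L l15 (L l462 (T t1 (L l390 (T t866 N)))))))) (K a38 (M a192 (F (T t836 (L l26 (L l390 (T t221 (L l220 (L l464 (T t157 N))))))))) (K a42 (M a106 (F (T t2304 (L l220 (T t2305 (L l56 (L l178 (L l220 (L l464 (T t2306 (L l56 (L l178 (L l464 (T t2307 N))))))))))))))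 (K a46 (M a48 (F (T t550 (L l462 (T t1 (L l26 (L l390 (T t866 N)))))))) (K a51 (M a192 (F (L l513 (T t449 (L l390 (L l415 (T t221 (L l220 (L l464 (T t157 N)))))))))) N)))))))))))))))))))⟩
def e0_63__71_166 : Ent 4 := ⟨[a0, a63], [a71, a171], (M a48 (F (T t1 (T t2 (T t3 (T t0 (K a16 (M a60 (F (T t64 (L l14 (L l18 (L l331 (L l391 (L l475 (T t67 (T t65 N)))))))))) (K a32 (M a60 (F (T t64 (L l331 (L l391 (L l475 (T t67 (L l24 (L l28 (T t65 N)))))))))) (K a21 (M a192 (F (T t837 (L l47 (L l331 (L l347 (T t20 (L l47 (L l347 (T t29 N)))))))))) (K a37 (M a192 (F (T t19 (L l47 (L l331 (T t20 (L l475 (T t21 N)))))))) (K a53 (M a192 (F (T t19 (L l475 (L l491 (T t21 (T t31 N))))))) (K a26 (M a192 (F (T t837 (L l331 (T t20 (L l475 (T t21 N))))))) (K a42 (M a192 (F (T t19 (L l331 (T t20 (L l28 (T t29 N))))))) (K a58 (M a192 (F (T t19 (L l475 (T t21 (L l54 (L l498 (T t31 N)))))))) (K a15 (M a192 (F (T t1681 (L l483 (T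 t27 (L l325 (L l331 (T t20 N)))))))) N)))))))))))))))⟩
def e0_63__71_167 : Ent 4 := ⟨[a0, a63], [a71, a172], (M a85 (F (T t88 (T t52 (T t89 (T t90 (K a64 (M a240 (F (T t933 (L l176 (T t387 N))))) (K a192 (M a16 (F (T t112 (L l77 (L l127 (T t96 (L l296 (T t98 N)))))))) (K a21 (M a48 (F (T t99 (T t50 (L l47 (T t100 N)))))) (K a149 (M a16 (F (T t112 (L l77 (L l331 (T t173 (L l170 (T t102 N)))))))) (K a213 (Fr a170 a255 l476 (Fr a42 a21 l68 (Fr a106 a234 l390 (Fr a192 a149 l519 (V t581))))) (K a42 (M a48 (F (T t364 (L l390 (T t50 (L l28 (T t100 N))))))) (K a106 (M a48 (F (T t99 (T t1 (L l390 (T t50 N)))))) (K a170 (M a16 (F (L l404 (T t113 (L l390 (T t98 (L l390 (L l404 (T t97 (L l331 (L l404 (T t174 N)))))))))))) (K a255 (M a16 (F (T t112 (L l289 (T t113 (L l289 (L l296 (T t98 N)))))))) N)))))))))))))))⟩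
def e0_63__71_168 : Ent 4 := ⟨[a0, a63], [a71, a173], (M a149 (F (T t5 (T t175 (T t176 (T t177 (K a192 (M a53 (F (T t178 (L l236 (T t179 (L l77 (L l236 (L l296 (T t180 N))))))))) (K a21 (M a48 (F (T t4 (T t13 (L l18 (T t14 N)))))) (K a85 (M a16 (F (T t504 (L l144 (T t190 (L l94 (T t278 N))))))) (K a213 (Fr a106 a192 l519 (Fr a42 a21 l68 (Fr a170 a234 l390 (Fr a255 a85 l476 (V t582))))) (K a42 (M a48 (F (T t11 (L l390 (T t13 (L l54 (T t14 N))))))) (K a106 (M a48 (F (T t48 (L l498 (T t14 (L l390 (L l498 (T t6 (L l390 (T t26 N)))))))))) (K a170 (M a48 (F (T t4 (L l462 (L l471 (T t1 (L l390 (T t13 N)))))))) (K a191 (M a204 (F (T t1283 (L l399 (T t1112 N))))) (K a255 (M a16 (F (T t112 (L l266 (T t190 (L l289 (L l296 (T t191 N)))))))) N)))))))))))))))⟩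
def e0_63__71_169 : Ent 4 := ⟨[a0, a63], [a71, a174], (M a48 (F (T t1 (T t2 (T t3 (T t0 (K a16 (M a60 (F (T t64 (L l14 (L l18 (L l331 (T t67 (T t65 N)))))))) (K a32 (M a60 (F (T t64 (L l331 (T t67 (L l24 (L l28 (T t65 N)))))))) (K a21 (M a192 (F (T t837 (L l47 (L l331 (L l347 (T t20 (L l47 (L l347 (T t29 N)))))))))) (K a37 (M a192 (F (T t19 (L l47 (L l331 (T t20 (L l470 (T t21 N)))))))) (K a53 (M a192 (F (T t19 (L l470 (L l491 (T t21 (T t31 N))))))) (K a26 (M a192 (F (T t837 (L l331 (T t20 (L l470 (T t21 N))))))) (K a42 (M a192 (F (T t19 (L l331 (T t20 (L l28 (T t29 N))))))) (K a58 (M a192 (F (T t19 (L l470 (T t21 (L l54 (L l498 (T t31 N)))))))) (K a15 (M a192 (F (T t1681 (L l483 (T t27 (L l325 (L l331 (T t20 N)))))))) N)))))))))))))))⟩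
def e0_63__71_170 : Ent 4 := ⟨[a0, a63], [a71, a175], (M a12 (F (T t122 (T t151 (T t152 (T t153 (K a4 (M a60 (F (T t570 (L l46 (L l50 (L l331 (T t67 (T t448 N)))))))) (K a8 (M a60 (F (T t570 (L l331 (T t67 (L l52 (L l56 (T t448 N)))))))) (K a21 (M a192 (F (T t836 (L l15 (L l347 (T t450 (L l15 (L l347 (T t157 N))))))))) (K a25 (M a192 (F (T t449 (L l15 (T t450 (L l469 (T t21 N))))))) (K a29 (M a192 (F (T t449 (L l371 (L l469 (T t21 (T t160 N))))))) (K a38 (M a192 (F (T t836 (T t450 (L l469 (T t21 N)))))) (K a42 (M a192 (F (T t449 (T t450 (L l56 (T t157 N)))))) (K a46 (M a192 (F (T t449 (L l469 (T t21 (L l26 (L l408 (T t160 N)))))))) (K a51 (M a192 (F (T t1681 (L l513 (T t156 (L l415 (T t450 N))))))) N)))))))))))))))⟩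
def e0_63__71_171 : Ent 4 := ⟨[a0, a63], [a71, a176], (M a85 (F (T t88 (T t52 (T t89 (L l190 (T t90 (K a64 (M a204 (F (T t1575 (L l125 (T t1576 N))))) (K a192 (M a16 (F (T t504 (L l77 (L l127 (T t96 (L l296 (T t98 N)))))))) (K a21 (M a240 (F (T t1552 (L l190 (T t933 (L l190 (L l192 (T t1385 N)))))))) (K a149 (M a16 (F (T t112 (L l77 (L l331 (T t173 (L l170 (L l227 (T t102 N))))))))) (K a213 (Fr a170 a255 l476 (Fr a42 a21 l68 (Fr a106 a234 l390 (Fr a192 a149 l519 (V t581))))) (K a42 (M a240 (F (T t1552 (L l54 (L l190 (L l390 (T t933 (L l190 (L l192 (T t1385 N)))))))))) (K a106 (M a48 (F (T t364 (T t1 (L l190 (L l390 (L l498 (T t2029 N)))))))) (K a170 (M a16 (F (L l404 (T t113 (L l390 (T t98 (L l390 (L l404 (T t97 (L l331 (L l404 (T t174 N)))))))))))) (K a255 (M a16 (F (T t112 (L l289 (T t113 (L l289 (L l296 (T t98 N)))))))) N))))))))))))))))⟩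
def e0_63__71_172 : Ent 4 := ⟨[a0, a63], [a71, a177], (M a85 (F (T t88 (T t52 (T t89 (T t90 (K a64 (M a204 (F (T t1744 (L l125 (T t1576 N))))) (K a192 (M a16 (F (T t112 (L l77 (L l127 (T t96 (L l296 (T t98 N)))))))) (K a21 (M a48 (F (T t99 (L l182 (L l417 (T t50 (L l47 (T t100 N)))))))) (K a149 (M a16 (F (T t112 (L l77 (L l331 (T t173 (L l170 (T t102 N)))))))) (K a213 (Fr a170 a255 l476 (Fr a42 a21 l68 (Fr a106 a234 l390 (Fr a192 a149 l519 (V t581))))) (K a42 (M a48 (F (T t364 (L l182 (L l390 (L l417 (T t50 (L l28 (T t100 N))))))))) (K a106 (M a48 (F (T t1 (L l77 (L l104 (L l127 (T t509 (L l182 (L l390 (L l417 (T t50 N))))))))))) (K a170 (M a16 (F (L l404 (T t113 (L l390 (T t98 (L l390 (L l404 (T t97 (L l331 (L l404 (T t174 N)))))))))))) (K a255 (M a16 (F (T t112 (L l289 (T t113 (L l289 (L l296 (T t98 N)))))))) N)))))))))))))))⟩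
def e0_63__71_173 : Ent 4 := ⟨[a0, a63], [a71, a178], (M a85 (F (T t88 (T t52 (T t89 (T t90 (K a64 (M a204 (F (T t1744 (L l125 (T t1576 N))))) (K a192 (M a16 (F (T t112 (L l77 (L l127 (T t96 (L l296 (T t98 N)))))))) (K a21 (M a48 (F (L l188 (T t99 (L l182 (T t50 (L l47 (T t100 N)))))))) (K a149 (M a16 (F (T t112 (L l77 (L l331 (T t173 (L l170 (L l224 (T t102 N))))))))) (K a213 (Fr a170 a255 l476 (Fr a42 a21 l68 (Fr a106 a234 l390 (Fr a192 a149 l519 (V t581))))) (K a42 (M a48 (F (T t364 (L l182 (L l390 (T t50 (L l28 (T t100 N)))))))) (K a106 (M a48 (F (T t364 (T t1 (L l182 (L l390 (T t50 N))))))) (K a170 (M a16 (F (L l404 (T t113 (L l390 (T t98 (L l390 (L l404 (T t97 (L l331 (L l404 (T t174 N)))))))))))) (K a255 (M a16 (F (T t112 (L l289 (T t113 (L l289 (L l296 (T t98 N)))))))) N)))))))))))))))⟩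
def e0_63__71_174 : Ent 4 := ⟨[a0, a63], [a71, a179], (M a85 (F (T t88 (T t52 (T t89 (L l189 (T t90 (K a64 (M a204 (F (T t1575 (L l125 (T t1576 N))))) (K a192 (M a16 (F (T t112 (L l77 (L l127 (T t96 (L l296 (T t98 N)))))))) (K a21 (M a48 (F (T t99 (L l182 (T t50 (L l47 (T t100 N))))))) (K a149 (M a16 (F (T t112 (L l77 (L l331 (T t173 (L l170 (T t102 N)))))))) (K a213 (Fr a170 a255 l476 (Fr a42 a21 l68 (Fr a106 a234 l390 (Fr a192 a149 l519 (V t581))))) (K a42 (M a48 (F (T t364 (L l182 (L l390 (T t50 (L l28 (T t100 N)))))))) (K a106 (M a48 (F (T t99 (T t1 (L l182 (L l390 (T t50 N))))))) (K a170 (M a16 (F (L l404 (T t113 (L l390 (T t98 (L l390 (L l404 (T t97 (L l331 (L l404 (T t174 N)))))))))))) (K a255 (M a16 (F (T t112 (L l289 (T t113 (L l289 (L l296 (T t98 N)))))))) N))))))))))))))))⟩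
def e0_63__71_175 : Ent 4 := ⟨[a0, a63], [a71, a180], (M a85 (F (T t88 (T t52 (T t89 (T t90 (K a64 (M a204 (F (T t1744 (L l125 (T t1576 N))))) (K a192 (M a16 (F (T t112 (L l77 (L l127 (T t96 (L l296 (T t98 N)))))))) (K a21 (M a48 (F (T t99 (L l186 (L l442 (T t50 (L l47 (T t100 N)))))))) (K a149 (M a16 (F (T t112 (L l77 (L l331 (T t173 (L l170 (T t102 N)))))))) (K a213 (Fr a170 a255 l476 (Fr a42 a21 l68 (Fr a106 a234 l390 (Fr a192 a149 l519 (V t581))))) (K a42 (M a48 (F (T t364 (L l186 (L l390 (L l442 (T t50 (L l28 (T t100 N))))))))) (K a106 (M a48 (F (T t1 (L l77 (L l104 (L l127 (T t509 (L l186 (L l390 (L l442 (T t50 N))))))))))) (K a170 (M a16 (F (L l404 (T t113 (L l390 (T t98 (L l390 (L l404 (T t97 (L l331 (L l404 (T t174 N)))))))))))) (K a255 (M a16 (F (T t112 (L l289 (T t113 (L l289 (L l296 (T t98 N)))))))) N)))))))))))))))⟩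
def e0_63__71_176 : Ent 4 := ⟨[a0, a63], [a71, a181], (M a12 (F (T t122 (T t151 (T t152 (L l423 (T t153 (K a4 (M a60 (F (T t408 (L l46 (L l50 (L l331 (T t67 (T t448 N)))))))) (K a8 (M a60 (F (T t408 (L l331 (T t67 (L l52 (L l56 (T t448 N)))))))) (K a21 (M a192 (F (T t836 (L l15 (L l199 (L l347 (T t450 (L l15 (L l199 (L l347 (T t157 N))))))))))) (K a25 (M a192 (F (T t449 (L l15 (L l199 (T t450 (L l199 (T t21 N)))))))) (K a29 (M a192 (F (T t449 (L l199 (L l371 (T t21 (L l183 (T t160 N)))))))) (K a38 (M a192 (F (T t156 (L l199 (T t450 (L l199 (T t21 N))))))) (K a42 (M a192 (F (T t449 (L l199 (T t450 (L l56 (L l199 (T t157 N)))))))) (K a46 (M a192 (F (T t449 (L l199 (T t21 (L l26 (L l183 (L l408 (T t160 N))))))))) (K a51 (M a192 (F (T t1681 (L l513 (T t156 (L l199 (L l415 (T t450 N)))))))) N))))))))))))))))⟩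
def e0_63__71_177 : Ent 4 := ⟨[a0, a63], [a71, a182], (M a85 (F (T t88 (T t52 (T t89 (T t90 (K a64 (M a204 (F (T t1744 (L l125 (T t1576 N))))) (K a192 (M a16 (F (T t112 (L l77 (L l127 (T t96 (L l296 (T t98 N)))))))) (K a21 (M a48 (F (L l188 (T t99 (L l422 (T t50 (L l47 (T t100 N)))))))) (K a149 (M a16 (F (T t112 (L l77 (L l331 (T t173 (L l170 (T t102 N)))))))) (K a213 (Fr a170 a255 l476 (Fr a42 a21 l68 (Fr a106 a234 l390 (Fr a192 a149 l519 (V t581))))) (K a42 (M a48 (F (T t365 (L l390 (L l422 (T t50 (L l28 (T t100 N)))))))) (K a106 (M a48 (F (T t1 (L l77 (L l104 (L l127 (T t509 (L l390 (L l422 (T t50 N)))))))))) (K a170 (M a16 (F (L l404 (T t113 (L l390 (T t98 (L l390 (L l404 (T t97 (L l331 (L l404 (T t174 N)))))))))))) (K a255 (M a16 (F (T t112 (L l289 (T t113 (L l289 (L l296 (T t98 N)))))))) N)))))))))))))))⟩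
def e0_63__71_178 : Ent 4 := ⟨[a0, a63], [a71, a183], (M a48 (F (T t1 (T t2 (T t3 (T t0 (K a16 (M a60 (F (T t64 (L l14 (L l18 (L l331 (T t67 (T t65 N)))))))) (K a32 (M a60 (F (T t64 (L l331 (T t67 (L l24 (L l28 (T t65 N)))))))) (K a21 (M a192 (F (T t837 (L l47 (L l202 (L l331 (L l347 (T t20 (L l47 (L l202 (L l347 (T t29 N)))))))))))) (K a37 (M a192 (F (T t19 (L l47 (L l202 (L l331 (T t20 (L l202 (T t21 N))))))))) (K a53 (M a192 (F (T t19 (L l202 (L l491 (T t21 (T t31 N))))))) (K a26 (M a192 (F (T t837 (L l202 (L l331 (T t20 (L l202 (T t21 N)))))))) (K a42 (M a192 (F (T t19 (L l202 (L l331 (T t20 (L l28 (L l202 (T t29 N))))))))) (K a58 (M a192 (F (T t19 (L l202 (T t21 (L l54 (L l498 (T t31 N)))))))) (K a15 (M a192 (F (T t1681 (L l483 (T t27 (L l202 (L l325 (L l331 (T t20 N))))))))) N)))))))))))))))⟩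
def e0_63__71_179 : Ent 4 := ⟨[a0, a63], [a71, a184], (M a85 (F (T t88 (T t52 (T t89 (T t90 (K a64 (M a204 (F (T t1744 (L l125 (L l204 (T t1576 N)))))) (K a192 (M a16 (F (T t112 (L l77 (L l127 (T t96 (L l296 (T t98 N)))))))) (K a21 (M a48 (F (L l184 (T t99 (L l186 (T t50 (L l47 (T t100 N)))))))) (K a149 (M a16 (F (T t112 (L l77 (L l331 (T t173 (L l170 (L l209 (T t102 N))))))))) (K a213 (Fr a170 a255 l476 (Fr a42 a21 l68 (Fr a106 a234 l390 (Fr a192 a149 l519 (V t581))))) (K a42 (M a48 (F (T t364 (L l186 (L l390 (T t50 (L l28 (T t100 N)))))))) (K a106 (M a48 (F (T t364 (T t1 (L l186 (L l390 (T t50 N))))))) (K a170 (M a16 (F (L l404 (T t113 (L l390 (T t98 (L l390 (L l404 (T t97 (L l331 (L l404 (T t174 N)))))))))))) (K a255 (M a16 (F (T t112 (L l289 (T t113 (L l289 (L l296 (T t98 N)))))))) N)))))))))))))))⟩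
def e0_63__71_180 : Ent 4 := ⟨[a0, a63], [a71, a185], (M a85 (F (T t88 (T t52 (T t89 (T t90 (K a64 (M a204 (F (T t1744 (L l125 (T t1576 N))))) (K a192 (M a16 (F (T t112 (L l77 (L l127 (T t96 (L l296 (T t98 N)))))))) (K a21 (M a48 (F (L l184 (T t99 (L l437 (T t50 (L l47 (T t100 N)))))))) (K a149 (M a16 (F (T t112 (L l77 (L l331 (T t173 (L l170 (T t102 N)))))))) (K a213 (Fr a170 a255 l476 (Fr a42 a21 l68 (Fr a106 a234 l390 (Fr a192 a149 l519 (V t581))))) (K a42 (M a48 (F (T t365 (L l390 (L l437 (T t50 (L l28 (T t100 N)))))))) (K a106 (M a48 (F (T t1 (L l77 (L l104 (L l127 (T t509 (L l390 (L l437 (T t50 N)))))))))) (K a170 (M a16 (F (L l404 (T t113 (L l390 (T t98 (L l390 (L l404 (T t97 (L l331 (L l404 (T t174 N)))))))))))) (K a255 (M a16 (F (T t112 (L l289 (T t113 (L l289 (L l296 (T t98 N)))))))) N)))))))))))))))⟩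
def e0_63__71_181 : Ent 4 := ⟨[a0, a63], [a71, a186], (M a12 (F (T t122 (T t151 (T t152 (T t153 (K a4 (M a60 (F (T t398 (L l46 (L l50 (L l331 (T t67 (T t448 N)))))))) (K a8 (M a60 (F (T t398 (L l331 (T t67 (L l52 (L l56 (T t448 N)))))))) (K a21 (M a192 (F (T t836 (L l15 (L l347 (T t450 (L l15 (L l347 (T t157 N))))))))) (K a25 (M a192 (F (T t449 (L l15 (T t450 (L l440 (T t21 N))))))) (K a29 (M a192 (F (T t449 (L l371 (L l440 (T t21 (T t160 N))))))) (K a38 (M a192 (F (T t836 (T t450 (L l440 (T t21 N)))))) (K a42 (M a192 (F (T t449 (T t450 (L l56 (T t157 N)))))) (K a46 (M a192 (F (T t449 (L l440 (T t21 (L l26 (L l408 (T t160 N)))))))) (K a51 (M a192 (F (T t1681 (L l513 (T t156 (L l415 (T t450 N))))))) N)))))))))))))))⟩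
def e0_63__71_182 : Ent 4 := ⟨[a0, a63], [a71, a187], (M a48 (F (T t1 (T t2 (T t3 (T t0 (K a16 (M a60 (F (T t138 (L l14 (L l18 (L l331 (T t67 (T t65 N)))))))) (K a32 (M a60 (F (T t138 (L l331 (T t67 (L l24 (L l28 (T t65 N)))))))) (K a21 (M a192 (F (T t837 (L l47 (L l331 (L l347 (T t20 (L l47 (L l347 (T t29 N)))))))))) (K a37 (M a192 (F (T t19 (L l47 (L l331 (T t20 (L l439 (T t21 N)))))))) (K a53 (M a192 (F (T t19 (L l439 (L l491 (T t21 (T t31 N))))))) (K a26 (M a192 (F (T t837 (L l331 (T t20 (L l439 (T t21 N))))))) (K a42 (M a192 (F (T t19 (L l331 (T t20 (L l28 (T t29 N))))))) (K a58 (M a192 (F (T t19 (L l439 (T t21 (L l54 (L l498 (T t31 N)))))))) (K a15 (M a192 (F (T t1681 (L l483 (T t27 (L l325 (L l331 (T t20 N)))))))) N)))))))))))))))⟩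
def e0_63__71_183 : Ent 4 := ⟨[a0, a63], [a71, a188], (M a85 (F (T t88 (T t52 (T t89 (L l185 (T t90 (K a64 (M a204 (F (T t1575 (L l125 (T t1576 N))))) (K a192 (M a16 (F (T t112 (L l77 (L l127 (T t96 (L l296 (T t98 N)))))))) (K a21 (M a48 (F (T t99 (L l186 (T t50 (L l47 (T t100 N))))))) (K a149 (M a16 (F (T t112 (L l77 (L l331 (T t173 (L l170 (T t102 N)))))))) (K a213 (Fr a170 a255 l476 (Fr a42 a21 l68 (Fr a106 a234 l390 (Fr a192 a149 l519 (V t581))))) (K a42 (M a48 (F (T t364 (L l186 (L l390 (T t50 (L l28 (T t100 N)))))))) (K a106 (M a48 (F (T t99 (T t1 (L l186 (L l390 (T t50 N))))))) (K a170 (M a16 (F (L l404 (T t113 (L l390 (T t98 (L l390 (L l404 (T t97 (L l331 (L l404 (T t174 N)))))))))))) (K a255 (M a16 (F (T t112 (L l289 (T t113 (L l289 (L l296 (T t98 N)))))))) N))))))))))))))))⟩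
def e0_63__71_184 : Ent 4 := ⟨[a0, a63], [a71, a189], (M a48 (F (T t1 (T t2 (T t3 (T t0 (K a16 (M a60 (F (T t42 (L l14 (L l18 (L l331 (T t67 (T t65 N)))))))) (K a32 (M a60 (F (T t42 (L l331 (T t67 (L l24 (L l28 (T t65 N)))))))) (K a21 (M a192 (F (T t837 (L l47 (L l217 (L l331 (L l347 (T t20 (L l47 (L l217 (L l347 (T t29 N)))))))))))) (K a37 (M a192 (F (T t19 (L l47 (L l217 (L l331 (T t20 (L l217 (T t21 N))))))))) (K a53 (M a192 (F (T t19 (L l217 (L l491 (T t21 (T t31 N))))))) (K a26 (M a192 (F (T t837 (L l217 (L l331 (T t20 (L l217 (T t21 N)))))))) (K a42 (M a192 (F (T t19 (L l217 (L l331 (T t20 (L l28 (L l217 (T t29 N))))))))) (K a58 (M a192 (F (T t19 (L l217 (T t21 (L l54 (L l498 (T t31 N)))))))) (K a15 (M a192 (F (T t1681 (L l483 (T t27 (L l217 (L l325 (L l331 (T t20 N))))))))) N)))))))))))))))⟩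
def e0_63__71_185 : Ent 4 := ⟨[a0, a63], [a71, a190], (M a48 (F (T t1 (T t2 (T t3 (T t0 (K a16 (M a60 (F (T t64 (L l14 (L l18 (L l331 (T t67 (T t65 N)))))))) (K a32 (M a60 (F (T t64 (L l331 (T t67 (L l24 (L l28 (T t65 N)))))))) (K a21 (M a192 (F (T t837 (L l47 (L l331 (L l347 (T t20 (L l47 (L l347 (T t29 N)))))))))) (K a37 (M a192 (F (T t19 (L l47 (L l331 (T t20 (L l434 (T t21 N)))))))) (K a53 (M a192 (F (T t19 (L l434 (L l491 (T t21 (T t31 N))))))) (K a26 (M a192 (F (T t837 (L l331 (T t20 (L l434 (T t21 N))))))) (K a42 (M a192 (F (T t19 (L l331 (T t20 (L l28 (T t29 N))))))) (K a58 (M a192 (F (T t19 (L l434 (T t21 (L l54 (L l498 (T t31 N)))))))) (K a15 (M a192 (F (T t1681 (L l483 (T t27 (L l325 (L l331 (T t20 N)))))))) N)))))))))))))))⟩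
def e0_63__71_186 : Ent 4 := ⟨[a0, a63], [a71, a191], (M a48 (F (T t1 (T t2 (T t3 (T t0 (K a16 (M a60 (F (T t64 (L l14 (L l18 (L l331 (T t67 (T t65 N)))))))) (K a32 (M a60 (F (T t64 (L l331 (T t67 (L l24 (L l28 (T t65 N)))))))) (K a21 (M a192 (F (T t28 (L l331 (T t206 (L l47 (L l220 (L l347 (T t29 N))))))))) (K a37 (M a192 (F (T t19 (L l331 (T t206 (L l47 (L l220 (T t35 N)))))))) (K a53 (M a192 (F (T t19 (L l47 (L l220 (L l491 (T t35 (L l213 (T t31 N))))))))) (K a26 (M a192 (F (T t28 (L l54 (L l331 (T t206 (L l18 (L l220 (T t35 N))))))))) (K a42 (M a192 (F (T t19 (L l54 (L l331 (L l390 (T t206 (L l28 (L l220 (T t29 N)))))))))) (K a58 (M a192 (F (T t19 (L l220 (T t35 (L l54 (L l213 (L l498 (T t31 N))))))))) (K a15 (M a192 (F (T t53 (L l483 (T t19 (L l220 (L l469 (T t35 N)))))))) N)))))))))))))))⟩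
def e0_63__71_187 : Ent 4 := ⟨[a0, a63], [a71, a192], (M a48 (F (T t48 (L l339 (T t1 (L l339 (T t2 (L l339 (T t3 (L l339 (T t0 (K a16 (M a60 (F (T t138 (L l14 (L l18 (L l309 (L l331 (T t67 (T t65 N))))))))) (K a32 (M a60 (F (T t116 (L l489 (T t64 (L l24 (L l28 (T t65 N)))))))) (K a21 (M a255 (F (T t1259 (L l268 (T t1160 (L l47 (L l236 (T t548 N)))))))) (K a37 (M a52 (F (T t555 (L l334 (T t82 (L l21 (L l28 (T t84 N)))))))) (K a53 (M a12 (F (T t145 (L l47 (L l489 (T t122 (L l47 (T t146 N)))))))) (K a26 (M a56 (F (T t556 (L l334 (T t133 (L l12 (L l18 (T t135 N)))))))) (K a42 (M a255 (F (T t1260 (L l54 (L l268 (T t1160 (L l28 (L l236 (L l390 (T t548 N)))))))))) (K a58 (M a12 (F (T t145 (L l489 (T t122 (T t146 N)))))) (K a15 (M a4 (L l339 (F (T t129 (L l63 (L l514 (T t528 (T t520 (K a133 (M a74 (F (T t558 (L l73 (L l489 (T t519 (T t520 N))))))) (K a74 (M a133 (F (T t558 (L l73 (L l489 (T t519 (T t520 N)))))))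 N)))))))))) N))))))))))))))))))))⟩
def e0_63__71_188 : Ent 4 := ⟨[a0, a63], [a71, a193], (M a85 (F (T t52 (L l228 (L l293 (T t88 (L l293 (T t89 (L l228 (T t90 (K a64 (M a16 (F (T t97 (L l77 (L l84 (L l127 (T t96 (L l116 (L l293 (T t98 N)))))))))) (K a192 (M a195 (F (T t883 (L l309 (L l331 (T t2035 (L l293 (L l296 (T t894 (L l305 (T t2036 N))))))))))) (K a21 (M a48 (F (T t99 (T t50 (L l47 (T t100 N)))))) (K a149 (M a61 (F (L l351 (T t529 (L l220 (L l293 (T t506 (L l217 (T t2037 N))))))))) (K a213 (Fr a170 a255 l476 (Fr a42 a21 l68 (Fr a106 a234 l390 (Fr a192 a149 l519 (V t581))))) (K a42 (M a48 (F (T t364 (L l390 (T t50 (L l28 (T t100 N))))))) (K a106 (M a48 (F (T t1 (L l77 (L l104 (L l127 (T t509 (L l390 (T t50 N))))))))) (K a170 (M a16 (F (L l404 (T t113 (L l293 (L l390 (T t98 (L l390 (L l404 (T t97 (L l233 (L l331 (L l404 (T t174 N)))))))))))))) (K a255 (M a16 (F (T t112 (L l289 (T t113 (L l289 (L l293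 (L l296 (T t98 N))))))))) N)))))))))))))))))))⟩
def e0_63__71_189 : Ent 4 := ⟨[a0, a63], [a71, a194], (M a48 (F (T t1 (T t2 (T t3 (T t0 (K a16 (M a60 (F (T t42 (L l14 (L l18 (L l331 (T t67 (T t65 N)))))))) (K a32 (M a60 (F (T t42 (L l331 (T t67 (L l24 (L l28 (T t65 N)))))))) (K a21 (M a192 (F (T t837 (L l47 (L l234 (L l331 (L l347 (T t20 (L l47 (L l234 (L l347 (T t29 N)))))))))))) (K a37 (M a192 (F (T t19 (L l47 (L l234 (L l331 (T t20 (T t21 N)))))))) (K a53 (M a192 (F (T t19 (L l491 (T t21 (L l516 (T t31 N))))))) (K a26 (M a192 (F (T t837 (L l234 (L l331 (T t20 (T t21 N))))))) (K a42 (M a192 (F (T t19 (L l234 (L l331 (T t20 (L l28 (L l234 (T t29 N))))))))) (K a58 (M a192 (F (T t19 (T t21 (L l54 (L l498 (L l516 (T t31 N)))))))) (K a15 (M a192 (F (T t47 (L l483 (T t27 (L l234 (L l325 (L l331 (T t20 N))))))))) N)))))))))))))))⟩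
def e0_63__71_190 : Ent 4 := ⟨[a0, a63], [a71, a195], (M a12 (F (T t150 (L l487 (T t122 (L l487 (T t151 (L l487 (T t152 (L l487 (T t153 (K a4 (M a60 (F (T t570 (L l46 (L l50 (L l307 (L l331 (T t67 (T t448 N))))))))) (K a8 (M a60 (F (T t116 (L l337 (T t398 (L l52 (L l56 (T t448 N)))))))) (K a21 (M a192 (F (T t158 (L l237 (T t156 (L l15 (L l347 (T t157 N)))))))) (K a25 (M a192 (F (T t155 (L l237 (T t156 (L l295 (T t21 N))))))) (K a29 (M a192 (F (T t159 (L l295 (L l371 (T t21 (T t160 N))))))) (K a38 (M a192 (F (T t576 (L l237 (T t156 (L l295 (T t21 N))))))) (K a42 (M a192 (F (T t161 (L l237 (T t156 (L l56 (T t157 N))))))) (K a46 (M a192 (F (T t57 (L l237 (T t156 (L l26 (L l408 (T t160 N)))))))) (K a51 (M a192 (L l487 (F (T t47 (L l237 (L l513 (T t156 (L l271 (L l415 (T t450 (K a147 (M a99 (F (T t1800 (L l271 (L l415 (T t543 (L l237 (L l513 (T t468 N))))))))) (K a99 (M a147 (F (T t1800 (L l271 (L l415 (T t543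 (L l237 (L l513 (T t468 N))))))))) N)))))))))))) N))))))))))))))))))))⟩
def e0_63__71_191 : Ent 4 := ⟨[a0, a63], [a71, a196], (M a85 (F (T t52 (L l232 (L l278 (T t88 (L l278 (T t89 (L l232 (T t90 (K a64 (M a252 (F (T t91 (L l125 (L l274 (L l278 (T t92 N))))))) (K a192 (M a204 (F (T t2308 (L l334 (T t1575 (L l125 (L l278 (L l296 (T t1685 (L l125 (L l310 (T t2309 N)))))))))))) (K a21 (M a48 (F (T t99 (T t50 (L l47 (T t100 N)))))) (K a149 (M a55 (F (L l310 (T t2039 (L l220 (L l278 (T t2310 (L l125 (L l202 (T t2311 N)))))))))) (K a213 (Fr a170 a255 l476 (Fr a42 a21 l68 (Fr a106 a234 l390 (Fr a192 a149 l519 (V t581))))) (K a42 (M a48 (F (T t364 (L l390 (T t50 (L l28 (T t100 N))))))) (K a106 (M a48 (F (T t1 (L l77 (L l104 (L l127 (T t509 (L l390 (T t50 N))))))))) (K a170 (M a16 (F (L l404 (T t113 (L l278 (L l390 (T t98 (L l390 (L l404 (T t97 (L l229 (L l331 (L l404 (T t174 N)))))))))))))) (K a255 (M a16 (F (T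 t112 (L l289 (T t113 (L l278 (L l289 (L l296 (T t98 N))))))))) N)))))))))))))))))))⟩
def e0_63__71_192 : Ent 4 := ⟨[a0, a63], [a71, a197], (M a85 (F (T t52 (L l236 (L l275 (T t88 (L l275 (T t89 (L l236 (T t90 (K a64 (M a204 (F (T t1744 (L l125 (L l229 (L l275 (T t1576 N))))))) (K a192 (M a207 (F (T t2056 (L l339 (T t2057 (L l275 (L l296 (L l484 (T t2058 (L l339 (T t2059 N))))))))))) (K a21 (M a48 (F (T t99 (T t50 (L l47 (L l236 (L l491 (T t100 N)))))))) (K a149 (M a53 (F (L l311 (T t982 (L l220 (L l275 (T t1560 (L l199 (T t2060 N))))))))) (K a213 (Fr a170 a255 l476 (Fr a42 a21 l68 (Fr a106 a234 l390 (Fr a192 a149 l519 (V t581))))) (K a42 (M a48 (F (T t364 (L l390 (T t50 (L l28 (L l236 (L l491 (T t100 N))))))))) (K a106 (M a48 (F (T t99 (L l411 (T t3 (L l390 (T t50 N))))))) (K a170 (M a4 (F (L l464 (T t130 (L l77 (L l275 (L l390 (T t131 (L l390 (L l464 (T t519 (L l464 (T t938 N))))))))))))) (K a255 (M a16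 (F (T t504 (L l236 (L l289 (L l491 (T t113 (L l275 (L l289 (L l296 (T t98 N))))))))))) N)))))))))))))))))))⟩
def e0_63__71_193 : Ent 4 := ⟨[a0, a63], [a71, a198], (M a85 (F (T t88 (T t52 (T t89 (T t90 (K a64 (M a204 (F (T t1744 (L l125 (L l229 (T t1576 N)))))) (K a192 (M a16 (F (T t112 (L l77 (L l127 (T t96 (L l296 (T t98 N)))))))) (K a21 (M a48 (F (T t99 (T t50 (L l47 (L l234 (T t100 N))))))) (K a149 (M a16 (F (T t112 (L l77 (L l331 (T t173 (L l170 (T t102 N)))))))) (K a213 (Fr a170 a255 l476 (Fr a42 a21 l68 (Fr a106 a234 l390 (Fr a192 a149 l519 (V t581))))) (K a42 (M a48 (F (T t364 (L l390 (T t50 (L l28 (L l234 (T t100 N)))))))) (K a106 (M a48 (F (T t99 (T t1 (L l390 (T t50 N)))))) (K a170 (M a16 (F (L l390 (L l404 (T t97 (L l390 (T t98 (L l234 (L l404 (T t113 (L l229 (L l331 (L l404 (T t174 N)))))))))))))) (K a255 (M a16 (F (T t112 (L l234 (L l289 (T t113 (L l289 (L l296 (T t98 N))))))))) N)))))))))))))))⟩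
def e0_63__71_194 : Ent 4 := ⟨[a0, a63], [a71, a199], (M a149 (L l313 (F (T t5 (T t175 (T t176 (T t177 (K a192 (M a31 (L l313 (F (T t2312 (L l268 (T t651 (L l268 (L l296 (T t2313 (K a7 (M a135 (F (L l83 (T t2314 (L l268 (L l296 (T t2313 N))))))) (K a135 (M a7 (F (T t2315 (L l268 (L l296 (T t2313 N)))))) N))))))))))) (K a21 (M a240 (L l313 (F (T t1090 (T t1091 (T t1207 (K a7 (M a135 (F (T t962 (L l315 (T t2316 N))))) (K a135 (M a7 (F (T t962 (L l153 (L l279 (T t2317 N)))))) N)))))))) (K a85 (M a12 (L l313 (F (T t958 (T t122 (L l144 (T t648 (K a7 (M a135 (F (T t122 (L l144 (L l315 (T t2318 N)))))) (K a135 (M a7 (F (T t958 (L l455 (T t2319 N))))) N))))))))) (K a213 (Fr a106 a192 l519 (Fr a42 a21 l68 (Fr a170 a234 l390 (Fr a255 a85 l476 (V t582))))) (K a42 (M a3 (L l313 (F (T t1052 (L l83 (L l235 (L l390 (T t1883 (L l22 (T t615 (K a7 (M a135 (F (L l22 (T t2320 (L l83 (L l235 (L l390 (T t1883 (L l22 (T t615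 N)))))))))) (K a135 (M a7 (F (T t1052 (L l54 (L l314 (T t1976 N)))))) N)))))))))))) (K a106 (M a15 (L l313 (F (T t732 (L l411 (T t1026 (L l390 (T t1030 (L l390 (L l411 (T t1031 (K a7 (M a135 (F (T t732 (L l83 (L l98 (L l315 (T t2321 N))))))) (K a135 (M a7 (F (T t732 (L l153 (L l279 (L l393 (T t2322 N))))))) N))))))))))))) (K a170 (M a165 (L l313 (F (T t2323 (L l77 (L l314 (L l390 (T t988 (L l462 (T t2324 (T t987 (K a7 (M a135 (F (L l314 (T t2325 (L l462 (T t2324 N)))))) (K a135 (M a7 (F (L l279 (T t2326 (L l462 (T t2324 N)))))) N))))))))))))) (K a191 (M a12 (L l313 (F (T t958 (T t122 (T t648 (K a7 (M a135 (F (T t151 (L l315 (T t2318 N))))) (K a135 (M a7 (F (T t1984 (T t2319 N)))) N)))))))) (K a255 (M a12 (L l313 (F (T t647 (L l439 (T t122 (L l290 (T t648 (K a7 (M a135 (F (T t1252 (L l315 (T t2318 N))))) (K a135 (M a7 (F (T t2327 (T t2319 N)))) N)))))))))) (K a7 (M a135 (F (T t5 (T t175 (T t176 (T t177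 (K a192 (M a5 (F (L l83 (T t2328 (L l77 (L l296 (L l314 (T t1038 N)))))))) (K a21 (M a240 (F (T t962 (L l315 (T t2316 N))))) (K a85 (M a240 (F (L l144 (T t1091 (L l315 (T t2316 N)))))) (K a213 (Fr a106 a192 l519 (Fr a42 a21 l68 (Fr a170 a234 l390 (Fr a255 a85 l476 (V t582))))) (K a42 (M a132 (F (L l457 (T t2329 (L l390 (T t1775 N)))))) (K a106 (M a5 (F (L l83 (L l98 (T t2330 (L l77 (L l314 (L l390 (T t1038 N))))))))) (K a170 (M a132 (F (L l314 (T t2331 (L l390 (L l464 (T t2332 N))))))) (K a191 (M a240 (F (T t962 (L l315 (T t2316 N))))) (K a255 (M a132 (F (L l457 (T t2329 (L l470 (T t1775 N)))))) N))))))))))))))) (K a135 (M a7 (F (T t5 (T t175 (T t176 (T t177 (K a192 (M a1 (F (T t2333 (L l296 (T t1094 N))))) (K a21 (M a240 (F (T t962 (L l153 (L l279 (T t2317 N)))))) (K a85 (M a240 (F (L l144 (T t1091 (L l153 (L l279 (T t2317 N))))))) (K a213 (Fr a106 a192 l519 (Fr a42 a21 l68 (Fr a170 a234 l390 (Fr a255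 a85 l476 (V t582))))) (K a42 (M a196 (F (L l279 (T t2334 (L l314 (L l390 (T t1789 N))))))) (K a106 (M a1 (F (T t2333 (L l390 (T t1094 N))))) (K a170 (M a196 (F (L l279 (L l402 (T t2334 (L l208 (L l314 (L l390 (T t1789 N))))))))) (K a191 (M a4 (F (T t1981 (L l494 (T t1978 N))))) (K a255 (M a240 (F (L l440 (T t962 (L l153 (L l279 (T t2317 N))))))) N))))))))))))))) N))))))))))))))))))⟩
def e0_63__71_195 : Ent 4 := ⟨[a0, a63], [a71, a200], (M a48 (F (T t1 (T t2 (T t3 (T t0 (K a16 (M a60 (F (T t64 (L l14 (L l18 (L l331 (T t67 (T t65 N)))))))) (K a32 (M a60 (F (T t64 (L l331 (T t67 (L l24 (L l28 (T t65 N)))))))) (K a21 (M a192 (F (T t837 (L l47 (L l230 (L l331 (L l347 (T t20 (L l47 (L l230 (L l347 (T t29 N)))))))))))) (K a37 (M a192 (F (T t19 (L l47 (L l230 (L l331 (T t20 (T t21 N)))))))) (K a53 (M a192 (F (T t19 (L l491 (T t21 (L l501 (T t31 N))))))) (K a26 (M a192 (F (T t837 (L l230 (L l331 (T t20 (T t21 N)))))))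 (K a42 (M a192 (F (T t19 (L l230 (L l331 (T t20 (L l28 (L l230 (T t29 N))))))))) (K a58 (M a192 (F (T t19 (T t21 (L l54 (L l498 (L l501 (T t31 N)))))))) (K a15 (M a192 (F (T t47 (L l483 (T t27 (L l230 (L l325 (L l331 (T t20 N))))))))) N)))))))))))))))⟩
def e0_63__71_196 : Ent 4 := ⟨[a0, a63], [a71, a201], (M a85 (F (T t88 (T t52 (T t89 (T t90 (K a64 (M a204 (F (T t1744 (L l125 (T t1576 N))))) (K a192 (M a16 (F (T t112 (L l77 (L l127 (T t96 (L l296 (T t98 N)))))))) (K a21 (M a48 (F (T t99 (T t50 (L l47 (L l230 (T t100 N))))))) (K a149 (M a16 (F (T t112 (L l77 (L l331 (T t173 (L l170 (T t102 N)))))))) (K a213 (Fr a170 a255 l476 (Fr a42 a21 l68 (Fr a106 a234 l390 (Fr a192 a149 l519 (V t581))))) (K a42 (M a48 (F (T t364 (L l390 (T t50 (L l28 (L l230 (T t100 N)))))))) (K a106 (M a48 (F (T t99 (T t1 (L l390 (T t50 N)))))) (K a170 (M a16 (F (L l390 (L l404 (T t97 (L l390 (T t98 (L l230 (L l404 (T t113 (L l233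 (L l331 (L l404 (T t174 N)))))))))))))) (K a255 (M a16 (F (T t112 (L l230 (L l289 (T t113 (L l289 (L l296 (T t98 N))))))))) N)))))))))))))))⟩
def e0_63__71_197 : Ent 4 := ⟨[a0, a63], [a71, a202], (M a48 (F (T t3 (L l318 (T t1 (L l498 (T t2 (T t0 (K a16 (M a60 (F (T t64 (L l14 (L l18 (L l331 (T t67 (L l498 (T t65 N))))))))) (K a32 (M a60 (F (T t64 (L l331 (T t67 (L l24 (L l28 (L l498 (T t65 N))))))))) (K a21 (M a192 (F (T t27 (L l331 (L l498 (T t22 (L l18 (L l498 (T t46 N))))))))) (K a37 (M a192 (F (T t19 (L l331 (L l498 (T t22 (T t21 N))))))) (K a53 (M a192 (F (T t19 (L l491 (T t21 (L l498 (T t31 N))))))) (K a26 (M a192 (F (T t837 (L l331 (L l498 (T t22 (T t21 N))))))) (K a42 (M a192 (F (T t27 (L l331 (L l390 (L l498 (T t22 (L l390 (L l498 (T t46 N)))))))))) (K a58 (M a106 (F (T t564 (T t551 (L l282 (T t599 N)))))) (K a15 (M a192 (F (T t47 (L l483 (T t27 (L l325 (L l331 (L l498 (T t22 N))))))))) N)))))))))))))))))⟩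
def e0_63__71_198 : Ent 4 := ⟨[a0, a63], [a71, a203], (M a85 (F (T t88 (T t52 (T t89 (T t90 (K a64 (M a204 (F (T t1744 (L l125 (T t1576 N))))) (K a192 (M a16 (F (T t112 (L l77 (L l127 (T t96 (L l296 (T t98 N)))))))) (K a21 (M a48 (F (T t99 (T t50 (L l47 (L l230 (T t100 N))))))) (K a149 (M a16 (F (T t112 (L l77 (L l235 (L l331 (T t173 (L l170 (L l500 (T t102 N)))))))))) (K a213 (Fr a170 a255 l476 (Fr a42 a21 l68 (Fr a106 a234 l390 (Fr a192 a149 l519 (V t581))))) (K a42 (M a48 (F (T t364 (L l390 (T t50 (L l28 (L l230 (T t100 N)))))))) (K a106 (M a48 (F (T t99 (T t1 (L l390 (T t50 N)))))) (K a170 (M a16 (F (L l390 (L l404 (T t97 (L l390 (T t98 (L l230 (L l404 (T t113 (L l235 (L l331 (L l404 (T t174 N)))))))))))))) (K a255 (M a16 (F (T t112 (L l230 (L l289 (T t113 (L l289 (L l296 (T t98 N))))))))) N)))))))))))))))⟩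
def e0_63__71_199 : Ent 4 := ⟨[a0, a63], [a71, a204], (M a48 (F (T t48 (L l327 (T t1 (L l327 (T t2 (L l327 (T t3 (L l327 (T t0 (K a16 (M a60 (F (T t138 (L l14 (L l18 (L l331 (L l333 (T t67 (T t65 N))))))))) (K a32 (M a60 (F (T t116 (L l513 (T t64 (L l24 (L l28 (T t65 N)))))))) (K a21 (M a192 (F (T t54 (L l298 (T t27 (L l47 (L l347 (T t29 N)))))))) (K a37 (M a192 (F (T t54 (L l298 (T t27 (L l290 (T t21 N))))))) (K a53 (M a192 (F (T t55 (L l290 (L l491 (T t21 (T t31 N))))))) (K a26 (M a192 (F (T t56 (L l298 (T t27 (L l290 (T t21 N))))))) (K a42 (M a192 (F (T t56 (L l298 (T t27 (L l28 (T t29 N))))))) (K a58 (M a192 (F (T t57 (L l298 (T t27 (L l54 (L l498 (T t31 N)))))))) (K a15 (M a192 (L l327 (F (T t47 (L l298 (L l483 (T t27 (L l231 (L l325 (L l331 (T t20 (K a141 (M a78 (F (T t1800 (L l231 (L l325 (L l331 (T t22 (L l298 (L l483 (T t28 N)))))))))) (K a78 (M a141 (F (T t1800 (L l231 (L l325 (L l331 (T t22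 (L l298 (L l483 (T t28 N)))))))))) N))))))))))))) N))))))))))))))))))))⟩
def e0_63__71_200 : Ent 4 := ⟨[a0, a63], [a71, a205], (M a85 (F (T t88 (T t52 (T t89 (T t90 (K a64 (M a252 (F (T t91 (L l125 (T t92 N))))) (K a192 (M a16 (F (T t112 (L l77 (L l127 (L l329 (L l509 (T t96 (L l296 (T t98 N)))))))))) (K a21 (M a48 (F (T t99 (T t50 (L l47 (T t100 N)))))) (K a149 (M a16 (F (T t112 (L l77 (L l231 (L l329 (L l331 (T t173 (L l170 (T t102 N)))))))))) (K a213 (Fr a170 a255 l476 (Fr a42 a21 l68 (Fr a106 a234 l390 (Fr a192 a149 l519 (V t581))))) (K a42 (M a48 (F (T t364 (L l390 (T t50 (L l28 (T t100 N))))))) (K a106 (M a48 (F (T t99 (T t1 (L l390 (T t50 N)))))) (K a170 (M a16 (F (L l404 (T t113 (L l390 (T t98 (L l390 (L l404 (T t97 (L l231 (L l233 (L l331 (L l404 (T t174 N)))))))))))))) (K a255 (M a16 (F (T t112 (L l289 (T t113 (L l289 (L l296 (T t98 N)))))))) N)))))))))))))))⟩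
def e0_63__71_201 : Ent 4 := ⟨[a0, a63], [a71, a206], (M a85 (F (T t88 (T t52 (T t89 (T t90 (K a64 (M a204 (F (T t1575 (L l125 (T t1576 N))))) (K a192 (M a16 (F (T t112 (L l77 (L l127 (T t96 (L l296 (T t98 N)))))))) (K a21 (M a48 (F (T t99 (T t50 (L l47 (L l234 (T t100 N))))))) (K a149 (M a16 (F (T t112 (L l77 (L l231 (L l331 (T t173 (L l170 (L l510 (T t102 N)))))))))) (K a213 (Fr a170 a255 l476 (Fr a42 a21 l68 (Fr a106 a234 l390 (Fr a192 a149 l519 (V t581))))) (K a42 (M a48 (F (T t364 (L l390 (T t50 (L l28 (L l234 (T t100 N)))))))) (K a106 (M a48 (F (T t99 (T t1 (L l390 (T t50 N)))))) (K a170 (M a16 (F (L l390 (L l404 (T t97 (L l390 (T t98 (L l234 (L l404 (T t113 (L l231 (L l331 (L l404 (T t174 N)))))))))))))) (K a255 (M a16 (F (T t112 (L l234 (L l289 (T t113 (L l289 (L l296 (T t98 N))))))))) N)))))))))))))))⟩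
def e0_63__71_202 : Ent 4 := ⟨[a0, a63], [a71, a207], (M a3 (F (T t85 (L l506 (T t137 (L l506 (T t353 (L l506 (T t665 (L l506 (T t358 (K a60 (M a192 (L l506 (F (T t57 (L l83 (L l235 (L l518 (T t2064 (L l291 (L l430 (T t2069 (K a109 (M a158 (F (T t1800 (L l291 (L l430 (T t2047 (L l235 (L l518 (T t2297 N))))))))) (K a158 (M a109 (F (T t1800 (L l291 (L l430 (T t2047 (L l235 (L l518 (T t2297 N))))))))) N))))))))))))) (K a1 (M a85 (F (T t89 (L l125 (L l235 (T t355 (L l125 (T t377 N)))))))) (K a21 (M a192 (F (T t2335 (L l83 (L l235 (T t2064 (L l65 (T t2065 N)))))))) (K a41 (M a192 (F (T t2066 (L l83 (L l235 (T t2064 (L l65 (L l289 (T t35 N))))))))) (K a2 (M a85 (F (L l289 (T t52 (L l125 (L l235 (L l474 (T t355 (L l66 (L l125 (T t377 N))))))))))) (K a22 (M a192 (F (T t2335 (L l83 (L l235 (T t2064 (L l11 (L l289 (T t35 N))))))))) (K a42 (M a192 (F (T t2066 (L l83 (L l235 (T t2064 (L l22 (L l390 (T t2065 N)))))))))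 (K a23 (M a192 (F (T t1681 (L l83 (L l235 (T t2064 (L l11 (L l351 (T t2070 N))))))))) (K a43 (M a192 (F (T t2068 (L l289 (T t35 (T t2070 N)))))) N))))))))))))))))))))⟩
def e0_63__71_203 : Ent 4 := ⟨[a0, a63], [a71, a208], (M a85 (F (T t52 (L l246 (L l268 (T t88 (L l246 (T t89 (L l268 (T t90 (K a64 (M a252 (F (T t91 (L l125 (L l242 (L l246 (T t92 N))))))) (K a192 (M a240 (F (T t2082 (L l484 (T t933 (L l246 (L l296 (T t1550 (L l340 (T t2083 N)))))))))) (K a21 (M a48 (F (L l246 (T t99 (L l268 (T t50 (L l47 (L l246 (T t100 N))))))))) (K a149 (M a31 (F (L l340 (T t2084 (L l220 (L l246 (L l331 (T t2085 (L l170 (T t2086 N)))))))))) (K a213 (Fr a170 a255 l476 (Fr a42 a21 l68 (Fr a106 a234 l390 (Fr a192 a149 l519 (V t581))))) (K a42 (M a48 (F (L l340 (T t364 (L l268 (L l390 (T t50 (L l28 (L l246 (T t100 N)))))))))) (K a106 (M a48 (F (T t1 (L l77 (L l104 (L l127 (L l246 (T t509 (L l268 (L l390 (T t50 N)))))))))))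 (K a170 (M a4 (F (L l464 (T t130 (L l77 (L l246 (L l390 (T t131 (L l390 (L l464 (T t519 (L l238 (L l464 (T t938 N)))))))))))))) (K a255 (M a4 (F (T t129 (L l265 (T t130 (L l77 (L l246 (L l265 (L l296 (T t131 N)))))))))) N)))))))))))))))))))⟩
def e0_63__71_204 : Ent 4 := ⟨[a0, a63], [a71, a209], (M a85 (F (T t52 (L l243 (L l272 (T t88 (L l243 (T t89 (L l272 (T t90 (K a64 (M a252 (F (T t91 (L l125 (L l243 (T t92 N)))))) (K a192 (M a243 (F (T t2087 (L l489 (T t2088 (L l243 (L l296 (L l334 (T t2089 (L l489 (T t2090 N))))))))))) (K a21 (M a48 (F (T t99 (T t50 (L l47 (T t100 N)))))) (K a149 (M a29 (F (L l341 (T t2091 (L l220 (L l243 (T t2092 (L l167 (T t2093 N))))))))) (K a213 (Fr a170 a255 l476 (Fr a42 a21 l68 (Fr a106 a234 l390 (Fr a192 a149 l519 (V t581))))) (K a42 (M a48 (F (T t364 (L l390 (T t50 (L l28 (T t100 N))))))) (K a106 (M a48 (F (T t1 (L l77 (L l104 (L l127 (T t509 (L l390 (T t50 N))))))))) (K a170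 (M a16 (F (L l404 (T t113 (L l243 (L l390 (T t98 (L l390 (L l404 (T t97 (L l331 (L l404 (T t174 N))))))))))))) (K a255 (M a16 (F (T t112 (L l289 (T t113 (L l243 (L l289 (L l296 (T t98 N))))))))) N)))))))))))))))))))⟩
def e0_63__71_205 : Ent 4 := ⟨[a0, a63], [a71, a210], (M a85 (F (T t88 (T t52 (T t89 (T t90 (K a64 (M a204 (F (T t1744 (L l125 (T t1576 N))))) (K a192 (M a16 (F (T t260 (L l339 (T t97 (L l296 (T t98 N))))))) (K a21 (M a48 (F (T t99 (L l273 (T t50 (L l47 (T t100 N))))))) (K a149 (M a16 (F (T t112 (L l77 (L l331 (T t173 (L l170 (T t102 N)))))))) (K a213 (Fr a170 a255 l476 (Fr a42 a21 l68 (Fr a106 a234 l390 (Fr a192 a149 l519 (V t581))))) (K a42 (M a48 (F (T t364 (L l273 (L l390 (T t50 (L l28 (T t100 N)))))))) (K a106 (M a48 (F (T t1 (L l77 (L l104 (L l127 (T t509 (L l273 (L l390 (T t50 N)))))))))) (K a170 (M a16 (F (L l404 (T t113 (L l390 (T t98 (L l390 (L l404 (T t97 (L l331 (L l404 (T t174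 N)))))))))))) (K a255 (M a16 (F (T t112 (L l289 (T t113 (L l289 (L l296 (T t98 N)))))))) N)))))))))))))))⟩
def e0_63__71_206 : Ent 4 := ⟨[a0, a63], [a71, a211], (M a85 (F (T t88 (T t52 (T t89 (T t90 (K a64 (M a48 (F (T t50 (L l245 (T t568 N))))) (K a192 (M a16 (F (T t112 (L l77 (L l127 (L l245 (T t96 (L l245 (L l296 (T t98 N)))))))))) (K a21 (M a48 (F (L l245 (T t99 (T t50 (L l47 (L l245 (T t100 N)))))))) (K a149 (M a16 (F (T t112 (L l77 (L l245 (L l331 (T t173 (L l170 (T t102 N))))))))) (K a213 (Fr a170 a255 l476 (Fr a42 a21 l68 (Fr a106 a234 l390 (Fr a192 a149 l519 (V t581))))) (K a42 (M a48 (F (L l344 (T t364 (L l390 (T t50 (L l28 (L l245 (T t100 N))))))))) (K a106 (M a48 (F (T t1 (L l77 (L l104 (L l127 (L l245 (T t509 (L l390 (T t50 N)))))))))) (K a170 (M a16 (F (L l390 (L l404 (T t112 (L l245 (L l390 (T t98 (L l245 (L l404 (T t113 (L l245 (L l331 (L l404 (T t174 N))))))))))))))) (K a255 (M a16 (F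 (T t112 (L l245 (L l289 (T t113 (L l245 (L l289 (L l296 (T t98 N)))))))))) N)))))))))))))))⟩
def e0_63__71_207 : Ent 4 := ⟨[a0, a63], [a71, a212], (M a85 (F (T t52 (L l239 (L l292 (T t88 (L l239 (T t89 (L l292 (T t90 (K a64 (M a204 (F (T t1744 (L l125 (L l239 (L l274 (T t1576 N))))))) (K a192 (M a252 (F (T t2336 (L l514 (T t93 (L l239 (L l296 (L l309 (T t170 (L l125 (L l514 (T t2095 N)))))))))))) (K a21 (M a48 (F (T t99 (T t50 (L l47 (T t100 N)))))) (K a149 (M a23 (F (L l346 (T t1941 (L l220 (L l239 (T t2096 (L l125 (L l163 (T t2097 N)))))))))) (K a213 (Fr a170 a255 l476 (Fr a42 a21 l68 (Fr a106 a234 l390 (Fr a192 a149 l519 (V t581))))) (K a42 (M a48 (F (T t364 (L l390 (T t50 (L l28 (T t100 N))))))) (K a106 (M a48 (F (T t1 (L l77 (L l104 (L l127 (T t509 (L l390 (T t50 N))))))))) (K a170 (M a16 (F (L l404 (T t113 (L l239 (L l390 (T t98 (L l390 (L l404 (T t97 (L l331 (L l404 (T t174 N))))))))))))) (K a255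 (M a16 (F (T t112 (L l289 (T t113 (L l239 (L l289 (L l296 (T t98 N))))))))) N)))))))))))))))))))⟩
def e0_63__71_208 : Ent 4 := ⟨[a0, a63], [a71, a213], (M a48 (F (T t2 (L l347 (T t1 (L l347 (T t3 (T t0 (K a16 (M a60 (F (T t64 (L l14 (L l18 (L l331 (L l347 (T t67 (T t65 N))))))))) (K a32 (M a60 (F (T t64 (L l331 (L l347 (T t67 (L l24 (L l28 (T t65 N))))))))) (K a21 (M a85 (F (T t50 (L l77 (L l127 (L l246 (T t509 (L l47 (L l246 (T t100 N)))))))))) (K a37 (M a192 (F (T t19 (L l47 (L l331 (L l347 (T t20 (L l347 (T t21 N))))))))) (K a53 (M a192 (F (T t27 (L l347 (L l491 (T t21 (L l347 (L l491 (T t575 N))))))))) (K a26 (M a192 (F (T t837 (L l331 (L l347 (T t20 (L l347 (T t21 N)))))))) (K a42 (M a192 (F (T t19 (L l331 (L l347 (T t20 (L l28 (L l246 (L l347 (T t29 N)))))))))) (K a58 (M a192 (F (T t27 (L l347 (T t21 (L l347 (T t575 N))))))) (K a15 (M a192 (F (T t54 (L l483 (T t27 (L l347 (L l469 (T t21 N))))))))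 N)))))))))))))))))⟩
def e0_63__71_209 : Ent 4 := ⟨[a0, a63], [a71, a214], (M a85 (F (T t90 (L l239 (T t88 (L l294 (T t52 (L l239 (T t89 (K a64 (M a252 (F (T t91 (L l125 (L l239 (T t497 N)))))) (K a192 (M a16 (F (T t112 (L l77 (L l127 (T t96 (L l239 (L l296 (T t98 N))))))))) (K a21 (M a48 (F (T t99 (T t50 (L l47 (T t100 N)))))) (K a149 (M a16 (F (T t112 (L l77 (L l331 (T t173 (L l170 (T t102 N)))))))) (K a213 (Fr a170 a255 l476 (Fr a42 a21 l68 (Fr a106 a234 l390 (Fr a192 a149 l519 (V t581))))) (K a42 (M a48 (F (T t364 (L l390 (T t50 (L l28 (T t100 N))))))) (K a106 (M a48 (F (T t1 (L l77 (L l104 (L l127 (T t509 (L l390 (T t50 N))))))))) (K a170 (M a16 (F (L l404 (T t113 (L l239 (L l390 (T t98 (L l390 (L l404 (T t97 (L l331 (L l404 (T t174 N))))))))))))) (K a255 (M a16 (F (T t112 (L l289 (T t113 (L l239 (L l289 (L l296 (T t98 N))))))))) N))))))))))))))))))⟩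
def e0_63__71_210 : Ent 4 := ⟨[a0, a63], [a71, a215], (M a149 (F (T t175 (L l239 (T t5 (L l239 (L l295 (T t176 (L l295 (T t177 (K a192 (M a53 (F (T t178 (L l236 (T t179 (L l77 (L l236 (L l239 (L l296 (T t180 N)))))))))) (K a21 (M a48 (F (T t4 (T t13 (L l18 (T t14 N)))))) (K a85 (M a20 (F (L l349 (T t1268 (L l144 (L l239 (T t1269 (L l87 (L l127 (T t1270 N)))))))))) (K a213 (Fr a106 a192 l519 (Fr a42 a21 l68 (Fr a170 a234 l390 (Fr a255 a85 l476 (V t582))))) (K a42 (M a48 (F (T t11 (L l390 (T t13 (L l54 (T t14 N))))))) (K a106 (M a48 (F (T t1 (L l498 (T t14 (L l239 (L l390 (L l498 (T t6 (L l239 (L l245 (L l390 (T t26 N))))))))))))) (K a170 (M a48 (F (T t4 (L l462 (T t1 (L l390 (T t13 N))))))) (K a191 (M a60 (F (T t463 (L l239 (T t1256 N))))) (K a255 (M a195 (F (T t2098 (L l331 (L l475 (T t1114 (L l239 (L l296 (L l434 (T t1272 (L l349 (T t1273 N)))))))))))) N)))))))))))))))))))⟩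
def e0_63__71_211 : Ent 4 := ⟨[a0, a63], [a71, a216], (M a85 (F (T t88 (T t52 (T t89 (T t90 (K a64 (M a204 (F (T t1744 (L l125 (T t1576 N))))) (K a192 (M a16 (F (T t260 (L l339 (T t97 (L l296 (T t98 N))))))) (K a21 (M a48 (F (T t99 (L l298 (T t50 (L l47 (T t100 N))))))) (K a149 (M a16 (F (T t112 (L l77 (L l331 (T t173 (L l170 (T t102 N)))))))) (K a213 (Fr a170 a255 l476 (Fr a42 a21 l68 (Fr a106 a234 l390 (Fr a192 a149 l519 (V t581))))) (K a42 (M a48 (F (T t364 (L l298 (L l390 (T t50 (L l28 (T t100 N)))))))) (K a106 (M a48 (F (T t1 (L l77 (L l104 (L l127 (T t509 (L l298 (L l390 (T t50 N)))))))))) (K a170 (M a16 (F (L l404 (T t113 (L l390 (T t98 (L l390 (L l404 (T t97 (L l331 (L l404 (T t174 N)))))))))))) (K a255 (M a16 (F (T t112 (L l289 (T t113 (L l289 (L l296 (T t98 N)))))))) N)))))))))))))))⟩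
def e0_63__71_212 : Ent 4 := ⟨[a0, a63], [a71, a217], (M a85 (F (T t90 (L l243 (T t88 (L l284 (T t52 (L l243 (T t89 (K a64 (M a252 (F (T t91 (L l125 (L l243 (T t92 N)))))) (K a192 (M a16 (F (T t112 (L l77 (L l127 (T t96 (L l243 (L l296 (T t98 N))))))))) (K a21 (M a48 (F (T t99 (T t50 (L l47 (T t100 N)))))) (K a149 (M a16 (F (T t112 (L l77 (L l331 (T t173 (L l170 (T t102 N)))))))) (K a213 (Fr a170 a255 l476 (Fr a42 a21 l68 (Fr a106 a234 l390 (Fr a192 a149 l519 (V t581))))) (K a42 (M a48 (F (T t364 (L l390 (T t50 (L l28 (T t100 N))))))) (K a106 (M a48 (F (T t1 (L l77 (L l104 (L l127 (T t509 (L l390 (T t50 N))))))))) (K a170 (M a16 (F (L l404 (T t113 (L l243 (L l390 (T t98 (L l390 (L l404 (T t97 (L l331 (L l404 (T t174 N))))))))))))) (K a255 (M a16 (F (T t112 (L l289 (T t113 (L l243 (L l289 (L l296 (T t98 N))))))))) N))))))))))))))))))⟩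
def e0_63__71_213 : Ent 4 := ⟨[a0, a63], [a71, a218], (M a85 (F (T t90 (L l246 (T t88 (L l282 (T t52 (L l246 (T t89 (K a64 (M a252 (F (T t91 (L l125 (L l246 (T t92 N)))))) (K a192 (M a48 (F (T t610 (L l77 (L l127 (L l246 (T t509 (L l268 (L l303 (T t50 N)))))))))) (K a21 (M a48 (F (L l246 (T t99 (L l47 (T t567 (L l47 (L l246 (L l282 (T t100 N)))))))))) (K a149 (M a48 (F (T t2 (L l246 (T t99 (L l220 (L l303 (T t50 N)))))))) (K a213 (Fr a170 a255 l476 (Fr a42 a21 l68 (Fr a106 a234 l390 (Fr a192 a149 l519 (V t581))))) (K a42 (M a48 (F (T t364 (L l390 (T t567 (L l28 (L l246 (L l282 (T t100 N))))))))) (K a106 (M a48 (F (T t1 (L l77 (L l104 (L l127 (L l246 (T t509 (L l303 (L l390 (T t50 N))))))))))) (K a170 (M a4 (F (L l464 (T t130 (L l77 (L l246 (L l390 (T t131 (L l390 (L l464 (T t519 (L l464 (T t938 N))))))))))))) (K a255 (M a4 (F (T t129 (L l265 (T t130 (L l77 (L l246 (L l265 (L l296 (T t131 N)))))))))) N))))))))))))))))))⟩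
def e0_63__71_214 : Ent 4 := ⟨[a0, a63], [a71, a219], (M a85 (F (T t88 (T t52 (T t89 (T t90 (K a64 (M a204 (F (T t1744 (L l125 (T t1576 N))))) (K a192 (M a16 (F (T t112 (L l77 (L l127 (L l245 (T t96 (L l245 (L l296 (T t98 N)))))))))) (K a21 (M a48 (F (L l245 (T t99 (T t50 (L l47 (L l245 (T t100 N)))))))) (K a149 (M a16 (F (T t112 (L l77 (L l245 (L l301 (L l331 (T t173 (L l170 (L l356 (T t102 N))))))))))) (K a213 (Fr a170 a255 l476 (Fr a42 a21 l68 (Fr a106 a234 l390 (Fr a192 a149 l519 (V t581))))) (K a42 (M a48 (F (T t364 (L l390 (T t50 (L l28 (L l245 (T t100 N)))))))) (K a106 (M a48 (F (T t364 (T t1 (L l390 (T t50 N)))))) (K a170 (M a16 (F (L l390 (L l404 (T t97 (L l245 (L l390 (T t98 (L l245 (L l404 (T t113 (L l245 (L l301 (L l331 (L l404 (T t174 N)))))))))))))))) (K a255 (M a16 (F (T t112 (L l245 (L l289 (T t113 (L l245 (L l289 (L l296 (T t98 N)))))))))) N)))))))))))))))⟩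
def e0_63__71_215 : Ent 4 := ⟨[a0, a63], [a71, a220], (M a85 (F (T t88 (T t52 (T t89 (T t90 (K a64 (M a48 (F (T t50 (L l241 (T t568 N))))) (K a192 (M a16 (F (T t112 (L l77 (L l127 (L l241 (T t96 (L l241 (L l296 (T t98 N)))))))))) (K a21 (M a48 (F (L l241 (T t99 (T t50 (L l47 (L l241 (T t100 N)))))))) (K a149 (M a16 (F (T t112 (L l77 (L l241 (L l331 (T t173 (L l170 (T t102 N))))))))) (K a213 (Fr a170 a255 l476 (Fr a42 a21 l68 (Fr a106 a234 l390 (Fr a192 a149 l519 (V t581))))) (K a42 (M a48 (F (L l364 (T t364 (L l390 (T t50 (L l28 (L l241 (T t100 N))))))))) (K a106 (M a48 (F (T t1 (L l77 (L l104 (L l127 (L l241 (T t509 (L l390 (T t50 N)))))))))) (K a170 (M a16 (F (L l390 (L l404 (T t112 (L l241 (L l390 (T t98 (L l241 (L l404 (T t113 (L l241 (L l331 (L l404 (T t174 N))))))))))))))) (K a255 (M a16 (F (T t112 (L l241 (L l289 (T t113 (L l241 (L l289 (L l296 (T t98 N)))))))))) N)))))))))))))))⟩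
def e0_63__71_216 : Ent 4 := ⟨[a0, a63], [a71, a221], (M a149 (F (T t175 (L l243 (T t5 (L l243 (L l290 (T t176 (L l290 (T t177 (K a192 (M a53 (F (T t178 (L l236 (T t179 (L l77 (L l236 (L l243 (L l296 (T t180 N)))))))))) (K a21 (M a48 (F (T t4 (T t13 (L l18 (T t14 N)))))) (K a85 (M a17 (F (L l359 (T t1279 (L l144 (L l243 (T t1280 (L l91 (T t1281 N))))))))) (K a213 (Fr a106 a192 l519 (Fr a42 a21 l68 (Fr a170 a234 l390 (Fr a255 a85 l476 (V t582))))) (K a42 (M a48 (F (T t11 (L l390 (T t13 (L l54 (T t14 N))))))) (K a106 (M a48 (F (T t1 (L l498 (T t14 (L l243 (L l390 (L l498 (T t6 (L l241 (L l243 (L l390 (T t26 N))))))))))))) (K a170 (M a48 (F (T t4 (L l462 (T t1 (L l390 (T t13 N))))))) (K a191 (M a16 (F (T t97 (T t190 (L l213 (L l241 (L l243 (T t191 N)))))))) (K a255 (M a204 (F (T t1282 (L l470 (T t1283 (L l125 (L l243 (L l296 (L l439 (T t1055 (L l359 (T t1284 N)))))))))))) N)))))))))))))))))))⟩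
def e0_63__71_217 : Ent 4 := ⟨[a0, a63], [a71, a222], (M a85 (F (T t88 (T t52 (T t89 (T t90 (K a64 (M a204 (F (T t1744 (L l125 (T t1576 N))))) (K a192 (M a16 (F (T t112 (L l77 (L l127 (L l241 (T t96 (L l241 (L l296 (T t98 N)))))))))) (K a21 (M a48 (F (L l241 (T t99 (T t50 (L l47 (L l241 (T t100 N)))))))) (K a149 (M a16 (F (T t112 (L l77 (L l241 (L l291 (L l331 (T t173 (L l170 (L l366 (T t102 N))))))))))) (K a213 (Fr a170 a255 l476 (Fr a42 a21 l68 (Fr a106 a234 l390 (Fr a192 a149 l519 (V t581))))) (K a42 (M a48 (F (T t364 (L l390 (T t50 (L l28 (L l241 (T t100 N)))))))) (K a106 (M a48 (F (T t364 (T t1 (L l390 (T t50 N)))))) (K a170 (M a16 (F (L l390 (L l404 (T t97 (L l241 (L l390 (T t98 (L l241 (L l404 (T t113 (L l241 (L l291 (L l331 (L l404 (T t174 N)))))))))))))))) (K a255 (M a16 (F (T t112 (L l241 (L l289 (T t113 (L l241 (L l289 (L l296 (T t98 N)))))))))) N)))))))))))))))⟩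
def e0_63__71_218 : Ent 4 := ⟨[a0, a63], [a71, a223], (M a149 (F (T t175 (L l246 (T t5 (L l246 (L l289 (T t176 (L l289 (T t177 (K a192 (M a53 (F (T t178 (L l236 (L l289 (L l368 (T t179 (L l77 (L l236 (L l246 (L l296 (T t180 N)))))))))))) (K a21 (M a48 (F (T t4 (T t13 (L l18 (L l289 (L l368 (T t14 N)))))))) (K a85 (M a16 (F (L l361 (T t97 (L l144 (L l246 (T t190 (L l94 (T t278 N))))))))) (K a213 (Fr a106 a192 l519 (Fr a42 a21 l68 (Fr a170 a234 l390 (Fr a255 a85 l476 (V t582))))) (K a42 (M a48 (F (T t11 (L l390 (T t13 (L l54 (L l289 (L l368 (T t14 N))))))))) (K a106 (M a48 (F (T t1 (L l104 (L l144 (L l246 (L l289 (L l361 (L l390 (T t1285 (L l289 (L l368 (L l498 (T t14 N)))))))))))))) (K a170 (M a48 (F (T t4 (L l462 (T t1 (L l390 (T t13 N))))))) (K a191 (M a16 (F (T t112 (L l246 (T t190 (T t278 N)))))) (K a255 (M a207 (F (T t2337 (L l77 (L l469 (T t1287 (L l246 (L l296 (T t1288 (L l127 (L l361 (T t1289 N))))))))))))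 N)))))))))))))))))))⟩
def e0_63__71_219 : Ent 4 := ⟨[a0, a63], [a71, a224], (M a12 (F (T t122 (T t151 (T t152 (T t153 (K a4 (M a60 (F (T t398 (L l46 (L l50 (L l331 (T t67 (T t448 N)))))))) (K a8 (M a60 (F (T t398 (L l331 (T t67 (L l52 (L l56 (T t448 N)))))))) (K a21 (M a192 (F (T t836 (L l15 (L l248 (L l347 (T t450 (L l15 (L l248 (L l347 (T t157 N))))))))))) (K a25 (M a192 (F (T t449 (L l15 (L l248 (T t450 (T t21 N))))))) (K a29 (M a192 (F (T t449 (L l371 (T t21 (L l411 (T t160 N))))))) (K a38 (M a192 (F (T t836 (L l248 (T t450 (T t21 N)))))) (K a42 (M a192 (F (T t449 (L l248 (T t450 (L l56 (L l248 (T t157 N)))))))) (K a46 (M a192 (F (T t449 (T t21 (L l26 (L l408 (L l411 (T t160 N)))))))) (K a51 (M a192 (F (T t47 (L l513 (T t156 (L l248 (L l415 (T t450 N)))))))) N)))))))))))))))⟩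
def e0_63__71_220 : Ent 4 := ⟨[a0, a63], [a71, a225], (M a85 (F (T t88 (T t52 (T t89 (T t90 (K a64 (M a204 (F (T t1744 (L l125 (T t1576 N))))) (K a192 (M a16 (F (T t112 (L l77 (L l127 (T t96 (L l296 (T t98 N)))))))) (K a21 (M a48 (F (T t99 (L l273 (T t50 (L l47 (T t100 N))))))) (K a149 (M a16 (F (T t112 (L l77 (L l331 (T t173 (L l170 (T t102 N)))))))) (K a213 (Fr a170 a255 l476 (Fr a42 a21 l68 (Fr a106 a234 l390 (Fr a192 a149 l519 (V t581))))) (K a42 (M a48 (F (T t364 (L l273 (L l390 (T t50 (L l28 (T t100 N)))))))) (K a106 (M a48 (F (T t1 (L l77 (L l104 (L l127 (T t509 (L l273 (L l390 (T t50 N)))))))))) (K a170 (M a16 (F (L l404 (T t113 (L l390 (T t98 (L l390 (L l404 (T t97 (L l331 (L l404 (T t174 N)))))))))))) (K a255 (M a16 (F (T t112 (L l289 (T t113 (L l289 (L l296 (T t98 N)))))))) N)))))))))))))))⟩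
def e0_63__71_221 : Ent 4 := ⟨[a0, a63], [a71, a226], (M a85 (F (T t168 (L l272 (T t88 (L l254 (T t52 (L l272 (T t90 (K a64 (M a204 (F (T t1744 (L l125 (T t1576 N))))) (K a192 (M a243 (F (L l296 (T t2338 (L l489 (T t2088 (L l296 (L l334 (L l378 (T t2089 (L l378 (L l408 (T t2339 N))))))))))))) (K a21 (M a48 (F (T t99 (T t50 (L l47 (T t100 N)))))) (K a149 (M a16 (F (T t112 (L l77 (L l331 (T t173 (L l170 (T t102 N)))))))) (K a213 (Fr a170 a255 l476 (Fr a42 a21 l68 (Fr a106 a234 l390 (Fr a192 a149 l519 (V t581))))) (K a42 (M a48 (F (T t364 (L l390 (T t50 (L l28 (T t100 N))))))) (K a106 (M a166 (F (T t2340 (L l77 (L l390 (T t2020 (L l132 (L l390 (T t2341 (L l272 (L l501 (T t2342 N)))))))))))) (K a170 (M a16 (F (L l404 (T t113 (L l390 (T t98 (L l390 (L l404 (T t97 (L l331 (L l404 (T t174 N)))))))))))) (K a255 (M a16 (F (T t112 (L l289 (T t113 (L l289 (L l296 (T t98 N)))))))) N))))))))))))))))))⟩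
def e0_63__71_222 : Ent 4 := ⟨[a0, a63], [a71, a227], (M a85 (F (T t88 (T t52 (T t89 (T t90 (K a64 (M a204 (F (T t1744 (L l125 (T t1576 N))))) (K a192 (M a16 (F (L l380 (T t260 (T t966 (L l339 (L l380 (T t97 N)))))))) (K a21 (M a48 (F (L l380 (T t99 (T t50 (L l47 (L l380 (T t100 N)))))))) (K a149 (M a16 (F (L l380 (T t112 (L l77 (T t666 (L l170 (T t102 N)))))))) (K a213 (Fr a170 a255 l476 (Fr a42 a21 l68 (Fr a106 a234 l390 (Fr a192 a149 l519 (V t581))))) (K a42 (M a48 (F (L l255 (T t364 (L l390 (T t50 (L l28 (L l380 (T t100 N))))))))) (K a106 (M a48 (F (T t1 (L l77 (L l104 (L l127 (L l380 (T t509 (L l390 (T t50 N)))))))))) (K a170 (M a16 (F (L l380 (L l404 (T t113 (L l390 (T t98 (L l380 (L l390 (L l404 (T t97 (L l331 (L l380 (L l404 (T t174 N))))))))))))))) (K a255 (M a16 (F (L l380 (T t112 (L l289 (L l296 (T t98 (L l289 (L l380 (T t113 N)))))))))) N)))))))))))))))⟩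
def e0_63__71_223 : Ent 4 := ⟨[a0, a63], [a71, a228], (M a85 (F (T t88 (T t52 (T t89 (T t90 (K a64 (M a204 (F (T t1744 (L l125 (L l274 (T t1576 N)))))) (K a192 (M a16 (F (T t112 (L l77 (L l127 (T t96 (L l296 (T t98 N)))))))) (K a21 (M a48 (F (T t99 (L l298 (T t50 (L l47 (T t100 N))))))) (K a149 (M a16 (F (T t112 (L l77 (L l331 (T t173 (L l170 (T t102 N)))))))) (K a213 (Fr a170 a255 l476 (Fr a42 a21 l68 (Fr a106 a234 l390 (Fr a192 a149 l519 (V t581))))) (K a42 (M a48 (F (T t364 (L l298 (L l390 (T t50 (L l28 (T t100 N)))))))) (K a106 (M a48 (F (T t1 (L l77 (L l104 (L l127 (T t509 (L l298 (L l390 (T t50 N)))))))))) (K a170 (M a16 (F (L l404 (T t113 (L l390 (T t98 (L l390 (L l404 (T t97 (L l331 (L l404 (T t174 N)))))))))))) (K a255 (M a16 (F (T t112 (L l289 (T t113 (L l289 (L l296 (T t98 N)))))))) N)))))))))))))))⟩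
def e0_63__71_224 : Ent 4 := ⟨[a0, a63], [a71, a229], (M a85 (F (T t90 (L l275 (T t88 (L l256 (T t52 (L l275 (T t89 (K a64 (M a252 (F (T t91 (L l125 (L l275 (T t92 N)))))) (K a192 (M a16 (F (T t112 (L l77 (L l236 (L l303 (L l331 (T t173 (L l275 (L l296 (T t98 N))))))))))) (K a21 (M a48 (F (T t99 (L l47 (T t567 (L l47 (T t100 N))))))) (K a149 (M a16 (F (T t112 (L l77 (L l303 (L l331 (T t173 (L l170 (T t102 N))))))))) (K a213 (Fr a170 a255 l476 (Fr a42 a21 l68 (Fr a106 a234 l390 (Fr a192 a149 l519 (V t581))))) (K a42 (M a48 (F (L l28 (T t99 (L l390 (T t567 (L l28 (T t100 N)))))))) (K a106 (M a48 (F (T t99 (T t1 (L l303 (L l390 (T t50 N))))))) (K a170 (M a16 (F (L l404 (T t113 (L l275 (L l390 (T t98 (L l390 (L l404 (T t97 (L l275 (L l303 (L l331 (L l404 (T t174 N))))))))))))))) (K a255 (M a16 (F (T t112 (L l289 (T t113 (L l275 (L l289 (L l296 (T t98 N))))))))) N))))))))))))))))))⟩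
def e0_63__71_225 : Ent 4 := ⟨[a0, a63], [a71, a230], (M a85 (F (T t90 (L l278 (T t88 (L l254 (T t52 (L l278 (T t89 (K a64 (M a204 (F (T t1744 (L l125 (L l278 (T t2343 N)))))) (K a192 (M a16 (F (T t112 (L l77 (L l127 (T t96 (L l278 (L l296 (T t98 N))))))))) (K a21 (M a48 (F (T t99 (T t50 (L l47 (T t100 N)))))) (K a149 (M a16 (F (T t112 (L l77 (L l331 (T t173 (L l170 (T t102 N)))))))) (K a213 (Fr a170 a255 l476 (Fr a42 a21 l68 (Fr a106 a234 l390 (Fr a192 a149 l519 (V t581))))) (K a42 (M a48 (F (T t364 (L l390 (T t50 (L l28 (T t100 N))))))) (K a106 (M a48 (F (T t1 (L l77 (L l104 (L l127 (T t509 (L l390 (T t50 N))))))))) (K a170 (M a16 (F (L l404 (T t113 (L l278 (L l390 (T t98 (L l390 (L l404 (T t97 (L l331 (L l404 (T t174 N))))))))))))) (K a255 (M a16 (F (T t112 (L l289 (T t113 (L l278 (L l289 (L l296 (T t98 N))))))))) N))))))))))))))))))⟩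
def e0_63__71_226 : Ent 4 := ⟨[a0, a63], [a71, a231], (M a85 (F (T t88 (T t52 (T t89 (T t90 (K a64 (M a204 (F (T t1744 (L l125 (T t1576 N))))) (K a192 (M a16 (F (T t260 (L l339 (T t97 (L l296 (T t98 N))))))) (K a21 (M a48 (F (T t99 (T t50 (L l47 (T t100 N)))))) (K a149 (M a16 (F (T t112 (L l77 (L l301 (L l331 (T t173 (L l170 (T t102 N))))))))) (K a213 (Fr a170 a255 l476 (Fr a42 a21 l68 (Fr a106 a234 l390 (Fr a192 a149 l519 (V t581))))) (K a42 (M a48 (F (L l28 (T t99 (L l390 (T t50 (L l28 (T t100 N)))))))) (K a106 (M a48 (F (T t1 (L l77 (L l104 (L l127 (L l386 (T t509 (L l390 (T t50 N)))))))))) (K a170 (M a16 (F (L l404 (T t113 (L l390 (T t98 (L l390 (L l404 (T t97 (L l301 (L l331 (L l404 (T t174 N))))))))))))) (K a255 (M a16 (F (T t112 (L l289 (T t113 (L l289 (L l296 (T t98 N)))))))) N)))))))))))))))⟩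
def e0_63__71_227 : Ent 4 := ⟨[a0, a63], [a71, a232], (M a85 (F (T t168 (L l292 (T t88 (L l250 (T t52 (L l292 (T t90 (K a64 (M a204 (F (T t1744 (L l125 (T t1576 N))))) (K a192 (M a252 (F (L l296 (T t94 (L l514 (T t93 (L l296 (L l309 (L l388 (T t170 (L l125 (L l388 (L l393 (T t2344 N)))))))))))))) (K a21 (M a48 (F (T t99 (T t50 (L l47 (T t100 N)))))) (K a149 (M a16 (F (T t112 (L l77 (L l331 (T t173 (L l170 (T t102 N)))))))) (K a213 (Fr a170 a255 l476 (Fr a42 a21 l68 (Fr a106 a234 l390 (Fr a192 a149 l519 (V t581))))) (K a42 (M a48 (F (T t364 (L l390 (T t50 (L l28 (T t100 N))))))) (K a106 (M a169 (F (T t2345 (L l390 (T t2024 (L l142 (L l388 (L l390 (T t2346 (L l292 (L l516 (T t2347 N)))))))))))) (K a170 (M a16 (F (L l404 (T t113 (L l390 (T t98 (L l390 (L l404 (T t97 (L l331 (L l404 (T t174 N)))))))))))) (K a255 (M a16 (F (T t112 (L l289 (T t113 (L l289 (L l296 (T t98 N)))))))) N))))))))))))))))))⟩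
def e0_63__71_228 : Ent 4 := ⟨[a0, a63], [a71, a233], (M a85 (F (T t90 (L l293 (T t88 (L l250 (T t52 (L l293 (T t89 (K a64 (M a16 (F (T t97 (L l77 (L l84 (L l127 (T t96 (L l116 (L l293 (T t98 N)))))))))) (K a192 (M a16 (F (T t112 (L l77 (L l127 (T t96 (L l293 (L l296 (T t98 N))))))))) (K a21 (M a48 (F (T t99 (T t50 (L l47 (T t100 N)))))) (K a149 (M a16 (F (T t112 (L l77 (L l331 (T t173 (L l170 (T t102 N)))))))) (K a213 (Fr a170 a255 l476 (Fr a42 a21 l68 (Fr a106 a234 l390 (Fr a192 a149 l519 (V t581))))) (K a42 (M a48 (F (T t364 (L l390 (T t50 (L l28 (T t100 N))))))) (K a106 (M a48 (F (T t1 (L l77 (L l104 (L l127 (T t509 (L l390 (T t50 N))))))))) (K a170 (M a16 (F (L l404 (T t113 (L l293 (L l390 (T t98 (L l390 (L l404 (T t97 (L l331 (L l404 (T t174 N))))))))))))) (K a255 (M a16 (F (T t112 (L l289 (T t113 (L l289 (L l293 (L l296 (T t98 N))))))))) N))))))))))))))))))⟩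
def e0_63__71_229 : Ent 4 := ⟨[a0, a63], [a71, a234], (M a48 (F (T t1 (L l390 (T t2 (T t3 (L l390 (T t0 (K a16 (M a60 (F (T t64 (L l14 (L l18 (L l331 (T t67 (L l390 (T t65 N))))))))) (K a32 (M a60 (F (T t64 (L l331 (T t67 (L l24 (L l28 (L l390 (T t65 N))))))))) (K a21 (M a192 (F (T t837 (L l47 (L l282 (L l331 (L l347 (T t20 (L l47 (L l282 (L l347 (T t29 N)))))))))))) (K a37 (M a192 (F (T t27 (L l47 (L l282 (L l331 (T t20 (L l390 (T t202 N))))))))) (K a53 (M a192 (F (T t27 (L l390 (T t202 (L l390 (T t577 N))))))) (K a26 (M a192 (F (T t27 (L l282 (L l331 (T t20 (L l390 (T t202 N)))))))) (K a42 (M a106 (F (T t2348 (L l28 (L l282 (T t579 (T t551 N))))))) (K a58 (M a192 (F (T t27 (L l390 (L l498 (T t202 (L l390 (L l498 (T t577 N))))))))) (K a15 (M a192 (F (T t33 (L l483 (T t27 (L l390 (L l469 (T t202 N)))))))) N)))))))))))))))))⟩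
def e0_63__71_230 : Ent 4 := ⟨[a0, a63], [a71, a235], (M a48 (F (T t1 (T t2 (T t3 (T t0 (K a16 (M a60 (F (T t64 (L l14 (L l18 (L l331 (L l391 (T t67 (L l392 (T t65 N)))))))))) (K a32 (M a60 (F (T t64 (L l331 (L l391 (T t67 (L l24 (L l28 (L l392 (T t65 N)))))))))) (K a21 (M a192 (F (T t837 (L l47 (L l331 (L l347 (T t20 (L l47 (L l347 (T t29 N)))))))))) (K a37 (M a192 (F (T t19 (L l47 (L l331 (T t20 (L l295 (T t21 N)))))))) (K a53 (M a192 (F (T t19 (L l295 (L l491 (T t21 (T t31 N))))))) (K a26 (M a192 (F (T t27 (L l331 (T t20 (L l295 (T t21 N))))))) (K a42 (M a192 (F (T t19 (L l331 (T t20 (L l28 (T t29 N))))))) (K a58 (M a192 (F (T t19 (L l295 (T t21 (L l54 (L l498 (T t31 N)))))))) (K a15 (M a192 (F (T t1681 (L l483 (T t27 (L l325 (L l331 (T t20 N)))))))) N)))))))))))))))⟩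
def e0_63__71_231 : Ent 4 := ⟨[a0, a63], [a71, a236], (M a85 (F (T t88 (T t52 (T t89 (T t90 (K a64 (M a204 (F (T t1575 (L l125 (T t1576 N))))) (K a192 (M a16 (F (L l400 (T t260 (T t966 (L l339 (L l400 (T t97 N)))))))) (K a21 (M a48 (F (L l400 (T t99 (T t50 (L l47 (L l400 (T t100 N)))))))) (K a149 (M a16 (F (L l400 (T t112 (L l77 (T t666 (L l170 (T t102 N)))))))) (K a213 (Fr a170 a255 l476 (Fr a42 a21 l68 (Fr a106 a234 l390 (Fr a192 a149 l519 (V t581))))) (K a42 (M a48 (F (L l251 (T t364 (L l390 (T t50 (L l28 (L l400 (T t100 N))))))))) (K a106 (M a48 (F (T t1 (L l77 (L l104 (L l127 (L l400 (T t509 (L l390 (T t50 N)))))))))) (K a170 (M a16 (F (L l400 (L l404 (T t113 (L l390 (T t98 (L l390 (L l400 (L l404 (T t97 (L l331 (L l400 (L l404 (T t174 N))))))))))))))) (K a255 (M a16 (F (L l400 (T t112 (L l289 (L l296 (T t98 (L l289 (L l400 (T t113 N)))))))))) N)))))))))))))))⟩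
def e0_63__71_232 : Ent 4 := ⟨[a0, a63], [a71, a237], (M a85 (F (T t88 (T t52 (T t89 (T t90 (K a64 (M a204 (F (T t1744 (L l125 (T t1576 N))))) (K a192 (M a16 (F (T t260 (L l339 (T t97 (L l296 (T t98 N))))))) (K a21 (M a48 (F (T t99 (T t50 (L l47 (T t100 N)))))) (K a149 (M a16 (F (T t112 (L l77 (L l291 (L l331 (T t173 (L l170 (T t102 N))))))))) (K a213 (Fr a170 a255 l476 (Fr a42 a21 l68 (Fr a106 a234 l390 (Fr a192 a149 l519 (V t581))))) (K a42 (M a48 (F (L l28 (T t99 (L l390 (T t50 (L l28 (T t100 N)))))))) (K a106 (M a48 (F (T t1 (L l77 (L l104 (L l127 (L l401 (T t509 (L l390 (T t50 N)))))))))) (K a170 (M a16 (F (L l404 (T t113 (L l390 (T t98 (L l390 (L l404 (T t97 (L l291 (L l331 (L l404 (T t174 N))))))))))))) (K a255 (M a16 (F (T t112 (L l289 (T t113 (L l289 (L l296 (T t98 N)))))))) N)))))))))))))))⟩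
def e0_63__71_233 : Ent 4 := ⟨[a0, a63], [a71, a238], (M a48 (F (T t1 (T t2 (T t3 (T t0 (K a16 (M a60 (F (T t64 (L l14 (L l18 (L l331 (T t67 (T t65 N)))))))) (K a32 (M a60 (F (T t64 (L l331 (T t67 (L l24 (L l28 (T t65 N)))))))) (K a21 (M a192 (F (T t837 (L l47 (L l331 (L l347 (T t20 (L l47 (L l347 (T t29 N)))))))))) (K a37 (M a192 (F (T t19 (L l47 (L l331 (T t20 (L l290 (T t21 N)))))))) (K a53 (M a192 (F (T t19 (L l290 (L l491 (T t21 (T t31 N))))))) (K a26 (M a192 (F (T t27 (L l331 (T t20 (L l290 (T t21 N))))))) (K a42 (M a192 (F (T t19 (L l331 (T t20 (L l28 (T t29 N))))))) (K a58 (M a192 (F (T t19 (L l290 (T t21 (L l54 (L l498 (T t31 N)))))))) (K a15 (M a192 (F (T t1681 (L l483 (T t27 (L l325 (L l331 (T t20 N)))))))) N)))))))))))))))⟩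
def e0_63__71_234 : Ent 4 := ⟨[a0, a63], [a71, a239], (M a48 (F (T t1 (T t2 (L l397 (T t3 (L l404 (T t0 (K a16 (M a60 (F (T t64 (L l14 (L l18 (L l331 (T t67 (T t65 N)))))))) (K a32 (M a170 (F (T t2102 (T t514 (L l256 (T t580 N)))))) (K a21 (M a192 (F (T t27 (L l47 (L l289 (L l331 (L l347 (T t20 (L l47 (L l289 (L l347 (L l404 (T t29 N))))))))))))) (K a37 (M a192 (F (T t837 (L l47 (L l289 (L l331 (T t20 (L l289 (T t21 N))))))))) (K a53 (M a192 (F (T t27 (L l289 (L l491 (T t21 (T t31 N))))))) (K a26 (M a192 (F (T t27 (L l289 (L l331 (T t20 (L l289 (T t21 N)))))))) (K a42 (M a192 (F (T t837 (L l289 (L l331 (T t20 (L l28 (L l289 (L l404 (T t29 N)))))))))) (K a58 (M a192 (F (T t837 (L l289 (T t21 (L l54 (L l498 (T t31 N)))))))) (K a15 (M a192 (F (T t1681 (L l483 (T t27 (L l289 (L l325 (L l331 (T t20 N))))))))) N)))))))))))))))))⟩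
def e0_63__71_235 : Ent 4 := ⟨[a0, a63], [a71, a240], (M a48 (F (T t48 (L l483 (T t1 (L l483 (T t2 (L l483 (T t3 (L l483 (T t0 (K a16 (M a60 (F (T t138 (L l14 (L l18 (L l331 (L l453 (T t67 (T t65 N))))))))) (K a32 (M a60 (F (T t116 (L l417 (T t64 (L l24 (L l28 (T t65 N)))))))) (K a21 (M a101 (F (T t440 (L l18 (L l303 (L l331 (T t334 (L l18 (T t314 N))))))))) (K a37 (M a52 (F (T t555 (L l478 (T t82 (L l21 (L l28 (T t84 N)))))))) (K a53 (M a12 (F (T t145 (L l47 (L l417 (T t122 (L l47 (T t146 N)))))))) (K a26 (M a56 (F (T t556 (L l478 (T t133 (L l12 (L l18 (T t135 N)))))))) (K a42 (M a101 (F (T t2103 (L l54 (L l268 (T t313 (L l54 (T t314 N)))))))) (K a58 (M a12 (F (T t145 (L l417 (T t122 (T t146 N)))))) (K a15 (M a4 (L l483 (F (T t129 (L l63 (L l442 (T t528 (T t520 (K a165 (M a90 (F (T t558 (L l73 (L l417 (T t519 (T t520 N))))))) (K a90 (M a165 (F (T t558 (L l73 (L l417 (T t519 (T t520 N))))))) N))))))))))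 N))))))))))))))))))))⟩
def e0_63__71_236 : Ent 4 := ⟨[a0, a63], [a71, a241], (M a85 (F (T t88 (T t52 (T t89 (T t90 (K a64 (M a204 (F (T t1744 (L l125 (T t1576 N))))) (K a192 (M a16 (F (T t112 (L l77 (L l127 (T t96 (L l296 (T t98 N)))))))) (K a21 (M a48 (F (T t99 (L l258 (T t50 (L l47 (T t100 N))))))) (K a149 (M a16 (F (T t112 (L l77 (L l331 (T t173 (L l170 (T t102 N)))))))) (K a213 (Fr a170 a255 l476 (Fr a42 a21 l68 (Fr a106 a234 l390 (Fr a192 a149 l519 (V t581))))) (K a42 (M a48 (F (T t364 (L l258 (L l390 (T t50 (L l28 (T t100 N)))))))) (K a106 (M a48 (F (T t1 (L l77 (L l104 (L l127 (T t509 (L l258 (L l390 (T t50 N)))))))))) (K a170 (M a16 (F (L l404 (T t113 (L l390 (T t98 (L l390 (L l404 (T t97 (L l331 (L l404 (T t174 N)))))))))))) (K a255 (M a16 (F (T t112 (L l289 (T t113 (L l289 (L l296 (T t98 N)))))))) N)))))))))))))))⟩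
def e0_63__71_237 : Ent 4 := ⟨[a0, a63], [a71, a242], (M a85 (F (T t88 (T t52 (T t89 (T t90 (K a64 (M a204 (F (T t1744 (L l125 (T t1576 N))))) (K a192 (M a16 (F (T t260 (L l339 (T t97 (L l296 (T t98 N))))))) (K a21 (M a48 (F (T t99 (L l258 (T t50 (L l47 (T t100 N))))))) (K a149 (M a16 (F (T t112 (L l77 (L l331 (T t173 (L l170 (T t102 N)))))))) (K a213 (Fr a170 a255 l476 (Fr a42 a21 l68 (Fr a106 a234 l390 (Fr a192 a149 l519 (V t581))))) (K a42 (M a48 (F (T t364 (L l258 (L l390 (T t50 (L l28 (T t100 N)))))))) (K a106 (M a48 (F (T t1 (L l77 (L l104 (L l127 (T t509 (L l258 (L l390 (T t50 N)))))))))) (K a170 (M a16 (F (L l404 (T t113 (L l390 (T t98 (L l390 (L l404 (T t97 (L l331 (L l404 (T t174 N)))))))))))) (K a255 (M a16 (F (T t112 (L l289 (T t113 (L l289 (L l296 (T t98 N)))))))) N)))))))))))))))⟩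
def e0_63__71_238 : Ent 4 := ⟨[a0, a63], [a71, a243], (M a48 (F (T t48 (L l481 (T t1 (L l481 (T t2 (L l481 (T t3 (L l481 (T t0 (K a16 (M a60 (F (T t138 (L l14 (L l18 (L l331 (L l451 (T t67 (T t65 N))))))))) (K a32 (M a60 (F (T t116 (L l415 (T t64 (L l24 (L l28 (T t65 N)))))))) (K a21 (M a192 (F (T t54 (L l258 (T t27 (L l47 (L l347 (T t29 N)))))))) (K a37 (M a192 (F (T t54 (L l258 (T t27 (L l265 (T t21 N))))))) (K a53 (M a192 (F (T t55 (L l265 (L l491 (T t21 (T t31 N))))))) (K a26 (M a192 (F (T t56 (L l258 (T t27 (L l265 (T t21 N))))))) (K a42 (M a192 (F (T t56 (L l258 (T t27 (L l28 (T t29 N))))))) (K a58 (M a192 (F (T t57 (L l258 (T t27 (L l54 (L l498 (T t31 N)))))))) (K a15 (M a192 (L l481 (F (T t47 (L l258 (L l483 (T t27 (L l301 (L l325 (L l331 (T t20 (K a167 (M a91 (F (T t1800 (L l301 (L l325 (L l331 (T t22 (L l258 (L l483 (T t28 N)))))))))) (K a91 (M a167 (F (T t1800 (L l301 (L l325 (L l331 (T t22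 (L l258 (L l483 (T t28 N)))))))))) N))))))))))))) N))))))))))))))))))))⟩
def e0_63__71_239 : Ent 4 := ⟨[a0, a63], [a71, a244], (M a85 (F (T t88 (T t52 (T t89 (T t90 (K a64 (M a204 (F (T t1744 (L l125 (L l274 (T t1576 N)))))) (K a192 (M a16 (F (T t112 (L l77 (L l127 (T t96 (L l296 (T t98 N)))))))) (K a21 (M a48 (F (T t99 (L l262 (T t50 (L l47 (T t100 N))))))) (K a149 (M a16 (F (T t112 (L l77 (L l331 (T t173 (L l170 (T t102 N)))))))) (K a213 (Fr a170 a255 l476 (Fr a42 a21 l68 (Fr a106 a234 l390 (Fr a192 a149 l519 (V t581))))) (K a42 (M a48 (F (T t364 (L l262 (L l390 (T t50 (L l28 (T t100 N)))))))) (K a106 (M a48 (F (T t1 (L l77 (L l104 (L l127 (T t509 (L l262 (L l390 (T t50 N)))))))))) (K a170 (M a16 (F (L l404 (T t113 (L l390 (T t98 (L l390 (L l404 (T t97 (L l331 (L l404 (T t174 N)))))))))))) (K a255 (M a16 (F (T t112 (L l289 (T t113 (L l289 (L l296 (T t98 N)))))))) N)))))))))))))))⟩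
def e0_63__71_240 : Ent 4 := ⟨[a0, a63], [a71, a245], (M a149 (F (T t175 (L l275 (T t5 (L l266 (L l275 (T t176 (L l266 (T t177 (K a192 (M a29 (F (T t956 (L l272 (T t641 (L l272 (L l275 (L l296 (T t957 N))))))))) (K a21 (M a48 (F (T t1267 (L l18 (L l275 (T t14 (L l266 (T t13 N)))))))) (K a85 (M a5 (F (L l419 (T t1110 (L l144 (L l275 (L l331 (T t2104 (L l123 (L l127 (T t2105 N))))))))))) (K a213 (Fr a106 a192 l519 (Fr a42 a21 l68 (Fr a170 a234 l390 (Fr a255 a85 l476 (V t582))))) (K a42 (M a48 (F (L l419 (T t11 (L l266 (L l390 (T t13 (L l54 (L l275 (T t14 N)))))))))) (K a106 (M a12 (F (T t122 (L l408 (T t649 (L l275 (L l390 (L l408 (T t960 (L l259 (L l275 (L l390 (T t961 N))))))))))))) (K a170 (M a48 (F (T t3 (L l419 (T t11 (L l266 (L l390 (T t13 N)))))))) (K a191 (M a16 (F (T t97 (L l266 (T t190 (L l213 (L l275 (T t191 N)))))))) (K a255 (M a240 (F (T t2299 (L l440 (T t1091 (L l275 (L l296 (L l469 (T t1092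 (L l419 (T t2107 N))))))))))) N)))))))))))))))))))⟩
def e0_63__71_241 : Ent 4 := ⟨[a0, a63], [a71, a246], (M a85 (F (T t88 (T t52 (T t89 (T t90 (K a64 (M a204 (F (T t1744 (L l125 (T t1576 N))))) (K a192 (M a16 (F (T t112 (L l77 (L l127 (T t96 (L l296 (T t98 N)))))))) (K a21 (M a48 (F (T t99 (T t50 (L l47 (T t100 N)))))) (K a149 (M a16 (F (T t112 (L l77 (L l331 (T t173 (L l170 (T t102 N)))))))) (K a213 (Fr a170 a255 l476 (Fr a42 a21 l68 (Fr a106 a234 l390 (Fr a192 a149 l519 (V t581))))) (K a42 (M a48 (F (T t364 (L l390 (T t50 (L l28 (T t100 N))))))) (K a106 (M a48 (F (T t1 (L l77 (L l104 (L l127 (T t509 (L l390 (T t50 N))))))))) (K a170 (M a16 (F (L l404 (T t113 (L l390 (T t98 (L l390 (L l404 (T t97 (L l331 (L l404 (T t174 N)))))))))))) (K a255 (M a16 (F (T t112 (L l289 (T t113 (L l289 (L l296 (T t98 N)))))))) N)))))))))))))))⟩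
def e0_63__71_242 : Ent 4 := ⟨[a0, a63], [a71, a247], (M a149 (F (T t175 (L l278 (T t5 (L l265 (L l278 (T t176 (L l265 (T t177 (K a192 (M a53 (F (T t178 (L l236 (T t179 (L l77 (L l236 (L l278 (L l296 (T t180 N)))))))))) (K a21 (M a48 (F (T t4 (T t13 (L l18 (T t14 N)))))) (K a85 (M a4 (F (L l421 (T t519 (L l144 (L l278 (T t653 (L l126 (T t654 N))))))))) (K a213 (Fr a106 a192 l519 (Fr a42 a21 l68 (Fr a170 a234 l390 (Fr a255 a85 l476 (V t582))))) (K a42 (M a48 (F (T t11 (L l390 (T t13 (L l54 (T t14 N))))))) (K a106 (M a48 (F (T t1 (L l498 (T t14 (L l278 (L l390 (L l422 (L l498 (T t6 (L l278 (L l390 (T t26 N))))))))))))) (K a170 (M a48 (F (T t4 (L l462 (T t1 (L l390 (T t13 N))))))) (K a191 (M a16 (F (T t97 (T t190 (L l213 (L l278 (T t191 N))))))) (K a255 (M a243 (F (T t2108 (L l439 (T t2109 (L l278 (L l296 (T t2110 (L l421 (T t2111 N)))))))))) N)))))))))))))))))))⟩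
def e0_63__71_243 : Ent 4 := ⟨[a0, a63], [a71, a248], (M a85 (F (T t88 (T t52 (T t89 (T t90 (K a64 (M a204 (F (T t1744 (L l125 (T t1576 N))))) (K a192 (M a16 (F (T t260 (L l339 (T t97 (L l296 (T t98 N))))))) (K a21 (M a48 (F (T t99 (L l262 (T t50 (L l47 (T t100 N))))))) (K a149 (M a16 (F (T t112 (L l77 (L l331 (T t173 (L l170 (T t102 N)))))))) (K a213 (Fr a170 a255 l476 (Fr a42 a21 l68 (Fr a106 a234 l390 (Fr a192 a149 l519 (V t581))))) (K a42 (M a48 (F (T t364 (L l262 (L l390 (T t50 (L l28 (T t100 N)))))))) (K a106 (M a48 (F (T t1 (L l77 (L l104 (L l127 (T t509 (L l262 (L l390 (T t50 N)))))))))) (K a170 (M a16 (F (L l404 (T t113 (L l390 (T t98 (L l390 (L l404 (T t97 (L l331 (L l404 (T t174 N)))))))))))) (K a255 (M a16 (F (T t112 (L l289 (T t113 (L l289 (L l296 (T t98 N)))))))) N)))))))))))))))⟩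
def e0_63__71_244 : Ent 4 := ⟨[a0, a63], [a71, a249], (M a85 (F (T t88 (T t52 (T t89 (T t90 (K a64 (M a204 (F (T t1744 (L l125 (T t1576 N))))) (K a192 (M a16 (F (T t112 (L l77 (L l127 (T t96 (L l296 (T t98 N)))))))) (K a21 (M a48 (F (T t99 (T t50 (L l47 (T t100 N)))))) (K a149 (M a16 (F (T t112 (L l77 (L l331 (T t173 (L l170 (T t102 N)))))))) (K a213 (Fr a170 a255 l476 (Fr a42 a21 l68 (Fr a106 a234 l390 (Fr a192 a149 l519 (V t581))))) (K a42 (M a48 (F (T t364 (L l390 (T t50 (L l28 (T t100 N))))))) (K a106 (M a48 (F (T t1 (L l77 (L l104 (L l127 (T t509 (L l390 (T t50 N))))))))) (K a170 (M a16 (F (L l404 (T t113 (L l390 (T t98 (L l390 (L l404 (T t97 (L l331 (L l404 (T t174 N)))))))))))) (K a255 (M a16 (F (T t112 (L l289 (T t113 (L l289 (L l296 (T t98 N)))))))) N)))))))))))))))⟩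
def e0_63__71_245 : Ent 4 := ⟨[a0, a63], [a71, a250], (M a12 (F (T t122 (T t151 (T t152 (T t153 (K a4 (M a60 (F (T t398 (L l46 (L l50 (L l331 (T t67 (T t448 N)))))))) (K a8 (M a60 (F (T t398 (L l331 (T t67 (L l52 (L l56 (T t448 N)))))))) (K a21 (M a192 (F (T t836 (L l15 (L l347 (T t450 (L l15 (L l347 (T t157 N))))))))) (K a25 (M a192 (F (T t449 (L l15 (T t450 (L l266 (T t21 N))))))) (K a29 (M a192 (F (T t449 (L l266 (L l371 (T t21 (T t160 N))))))) (K a38 (M a192 (F (T t156 (T t450 (L l266 (T t21 N)))))) (K a42 (M a192 (F (T t449 (T t450 (L l56 (T t157 N)))))) (K a46 (M a192 (F (T t449 (L l266 (T t21 (L l26 (L l408 (T t160 N)))))))) (K a51 (M a192 (F (T t1681 (L l513 (T t156 (L l415 (T t450 N))))))) N)))))))))))))))⟩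
def e0_63__71_246 : Ent 4 := ⟨[a0, a63], [a71, a251], (M a48 (F (T t1 (T t2 (T t3 (T t0 (K a16 (M a60 (F (T t64 (L l14 (L l18 (L l331 (T t67 (T t65 N)))))))) (K a32 (M a60 (F (T t64 (L l331 (T t67 (L l24 (L l28 (T t65 N)))))))) (K a21 (M a192 (F (T t837 (L l47 (L l331 (L l347 (T t20 (L l47 (L l347 (T t29 N)))))))))) (K a37 (M a192 (F (T t19 (L l47 (L l331 (T t20 (L l265 (T t21 N)))))))) (K a53 (M a192 (F (T t19 (L l265 (L l491 (T t21 (T t31 N))))))) (K a26 (M a192 (F (T t27 (L l331 (T t20 (L l265 (T t21 N))))))) (K a42 (M a192 (F (T t19 (L l331 (T t20 (L l28 (T t29 N))))))) (K a58 (M a192 (F (T t19 (L l265 (T t21 (L l54 (L l498 (T t31 N)))))))) (K a15 (M a192 (F (T t54 (L l483 (T t27 (L l265 (L l469 (T t21 N)))))))) N)))))))))))))))⟩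
def e0_63__71_247 : Ent 4 := ⟨[a0, a63], [a71, a252], (M a48 (F (T t48 (L l471 (T t1 (L l471 (T t2 (L l471 (T t3 (L l471 (T t0 (K a16 (M a60 (F (T t138 (L l14 (L l18 (L l331 (L l477 (T t67 (T t65 N))))))))) (K a32 (M a60 (F (T t116 (L l441 (T t64 (L l24 (L l28 (T t65 N)))))))) (K a21 (M a192 (F (T t54 (L l262 (T t27 (L l47 (L l347 (T t29 N)))))))) (K a37 (M a192 (F (T t54 (L l262 (T t27 (L l261 (T t21 N))))))) (K a53 (M a192 (F (T t55 (L l261 (L l491 (T t21 (T t31 N))))))) (K a26 (M a192 (F (T t56 (L l262 (T t27 (L l261 (T t21 N))))))) (K a42 (M a192 (F (T t56 (L l262 (T t27 (L l28 (T t29 N))))))) (K a58 (M a192 (F (T t57 (L l262 (T t27 (L l54 (L l498 (T t31 N)))))))) (K a15 (M a192 (L l471 (F (T t47 (L l262 (L l483 (T t27 (L l291 (L l325 (L l331 (T t20 (K a173 (M a94 (F (T t1800 (L l291 (L l325 (L l331 (T t22 (L l262 (L l483 (T t28 N)))))))))) (K a94 (M a173 (F (T t1800 (L l291 (L l325 (L l331 (T t22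 (L l262 (L l483 (T t28 N)))))))))) N))))))))))))) N))))))))))))))))))))⟩
def e0_63__71_248 : Ent 4 := ⟨[a0, a63], [a71, a253], (M a149 (F (T t175 (L l293 (T t5 (L l261 (L l293 (T t176 (L l261 (T t177 (K a192 (M a53 (F (T t178 (L l236 (T t179 (L l77 (L l236 (L l293 (L l296 (T t180 N)))))))))) (K a21 (M a48 (F (T t4 (T t13 (L l18 (T t14 N)))))) (K a85 (M a1 (F (L l431 (T t534 (L l144 (L l293 (T t1083 (L l141 (T t1084 N))))))))) (K a213 (Fr a106 a192 l519 (Fr a42 a21 l68 (Fr a170 a234 l390 (Fr a255 a85 l476 (V t582))))) (K a42 (M a48 (F (T t11 (L l390 (T t13 (L l54 (T t14 N))))))) (K a106 (M a48 (F (T t1 (L l498 (T t14 (L l293 (L l390 (L l437 (L l498 (T t6 (L l293 (L l390 (T t26 N))))))))))))) (K a170 (M a48 (F (T t4 (L l462 (T t1 (L l390 (T t13 N))))))) (K a191 (M a16 (F (T t97 (T t190 (L l213 (L l293 (T t191 N))))))) (K a255 (M a252 (F (T t2112 (L l434 (T t940 (L l293 (L l296 (T t1291 (L l127 (L l431 (T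 t1292 N))))))))))) N)))))))))))))))))))⟩
def e0_63__71_249 : Ent 4 := ⟨[a0, a63], [a71, a254], (M a48 (F (T t1 (T t2 (T t3 (T t0 (K a16 (M a60 (F (T t42 (L l14 (L l18 (L l331 (T t67 (T t65 N)))))))) (K a32 (M a60 (F (T t42 (L l331 (T t67 (L l24 (L l28 (T t65 N)))))))) (K a21 (M a192 (F (T t837 (L l47 (L l331 (L l347 (T t20 (L l47 (L l347 (T t29 N)))))))))) (K a37 (M a192 (F (T t19 (L l47 (L l331 (T t20 (L l261 (T t21 N)))))))) (K a53 (M a192 (F (T t19 (L l261 (L l491 (T t21 (T t31 N))))))) (K a26 (M a192 (F (T t27 (L l331 (T t20 (L l261 (T t21 N))))))) (K a42 (M a192 (F (T t19 (L l331 (T t20 (L l28 (T t29 N))))))) (K a58 (M a192 (F (T t19 (L l261 (T t21 (L l54 (L l498 (T t31 N)))))))) (K a15 (M a192 (F (T t54 (L l483 (T t27 (L l261 (L l469 (T t21 N)))))))) N)))))))))))))))⟩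
def e0_63__71_250 : Ent 4 := ⟨[a0, a63], [a71, a255], (M a48 (F (T t48 (L l469 (T t1 (L l469 (T t2 (L l469 (T t3 (L l469 (T t0 (K a16 (M a60 (F (T t138 (L l14 (L l18 (L l331 (L l475 (T t67 (T t65 N))))))))) (K a32 (M a60 (F (T t116 (L l439 (T t64 (L l24 (L l28 (T t65 N)))))))) (K a21 (M a192 (F (T t54 (L l266 (T t27 (L l47 (L l289 (L l347 (T t29 N))))))))) (K a37 (M a192 (F (T t54 (L l266 (T t27 (L l28 (L l47 (L l289 (T t29 N))))))))) (K a53 (M a12 (F (T t145 (L l47 (L l439 (T t122 (L l47 (T t146 N)))))))) (K a26 (M a192 (F (T t56 (L l266 (T t27 (L l289 (T t29 N))))))) (K a42 (M a192 (F (T t56 (L l266 (T t27 (L l28 (L l289 (T t29 N)))))))) (K a58 (M a12 (F (T t145 (L l439 (T t122 (T t146 N)))))) (K a15 (M a192 (L l469 (F (T t54 (L l266 (L l483 (T t27 (L l289 (T t29 (K a95 (M a175 (F (T t1922 (L l289 (L l325 (L l331 (L l361 (T t22 (L l289 (L l361 (T t29 N))))))))))) (K a175 (M a95 (F (T t1922 (L l213 (L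 l289 (L l325 (L l331 (T t22 (L l289 (T t29 N)))))))))) N))))))))))) N))))))))))))))))))))⟩
def b0_63__71 : Blk 4 := ⟨[0, 63], [71], [1, 2, 3, 4, 5, 6, 7, 8, 9, 10, 11, 12, 13, 14, 15, 16, 17, 18, 19, 20, 22, 23, 24, 25, 26, 27, 28, 29, 30, 31, 32, 33, 34, 35, 36, 37, 38, 39, 40, 41, 43, 44, 45, 46, 47, 48, 49, 50, 51, 52, 53, 54, 55, 56, 57, 58, 59, 60, 61, 62, 64, 65, 66, 67, 68, 69, 70, 72, 73, 74, 75, 76, 77, 78, 79, 80, 81, 82, 83, 84, 85, 86, 87, 88, 89, 90, 91, 92, 93, 94, 95, 96, 97, 98, 99, 100, 101, 102, 103, 104, 105, 106, 107, 108, 109, 110, 111, 112, 113, 114, 115, 116, 117, 118, 119, 120, 121, 122, 123, 124, 125, 126, 127, 128, 129, 130, 131, 132, 133, 134, 135, 136, 137, 138, 139, 140, 141, 142, 143, 144, 145, 146, 147, 148, 149, 150, 151, 152, 153, 154, 155, 156, 157, 158, 159, 160, 161, 162, 163, 164, 165, 166, 167, 168, 169, 170, 171, 172, 173, 174, 175, 176, 177, 178, 179, 180, 181, 182,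 183, 184, 185, 186, 187, 188, 189, 190, 191, 192, 193, 194, 195, 196, 197, 198, 199, 200, 201, 202, 203, 204, 205, 206, 207, 208, 209, 210, 211, 212, 213, 214, 215, 216, 217, 218, 219, 220, 221, 222, 223, 224, 225, 226, 227, 228, 229, 230, 231, 232, 233, 234, 235, 236, 237, 238, 239, 240, 241, 242, 243, 244, 245, 246, 247, 248, 249, 250, 251, 252, 253, 254, 255], [e0_63__71_0, e0_63__71_1, e0_63__71_2, e0_63__71_3, e0_63__71_4, e0_63__71_5, e0_63__71_6, e0_63__71_7, e0_63__71_8, e0_63__71_9, e0_63__71_10, e0_63__71_11, e0_63__71_12, e0_63__71_13, e0_63__71_14, e0_63__71_15, e0_63__71_16, e0_63__71_17, e0_63__71_18, e0_63__71_19, e0_63__71_20, e0_63__71_21, e0_63__71_22, e0_63__71_23, e0_63__71_24, e0_63__71_25, e0_63__71_26, e0_63__71_27, e0_63__71_28, e0_63__71_29, e0_63__71_30, e0_63__71_31, e0_63__71_32, e0_63__71_33, e0_63__71_34, e0_63__71_35, e0_63__71_36, e0_63__71_37, e0_63__71_38, e0_63__71_39,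 e0_63__71_40, e0_63__71_41, e0_63__71_42, e0_63__71_43, e0_63__71_44, e0_63__71_45, e0_63__71_46, e0_63__71_47, e0_63__71_48, e0_63__71_49, e0_63__71_50, e0_63__71_51, e0_63__71_52, e0_63__71_53, e0_63__71_54, e0_63__71_55, e0_63__71_56, e0_63__71_57, e0_63__71_58, e0_63__71_59, e0_63__71_60, e0_63__71_61, e0_63__71_62, e0_63__71_63, e0_63__71_64, e0_63__71_65, e0_63__71_66, e0_63__71_67, e0_63__71_68, e0_63__71_69, e0_63__71_70, e0_63__71_71, e0_63__71_72, e0_63__71_73, e0_63__71_74, e0_63__71_75, e0_63__71_76, e0_63__71_77, e0_63__71_78, e0_63__71_79, e0_63__71_80, e0_63__71_81, e0_63__71_82, e0_63__71_83, e0_63__71_84, e0_63__71_85, e0_63__71_86, e0_63__71_87, e0_63__71_88, e0_63__71_89, e0_63__71_90, e0_63__71_91, e0_63__71_92, e0_63__71_93, e0_63__71_94, e0_63__71_95, e0_63__71_96, e0_63__71_97, e0_63__71_98, e0_63__71_99, e0_63__71_100, e0_63__71_101, e0_63__71_102, e0_63__71_103, e0_63__71_104,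 e0_63__71_105, e0_63__71_106, e0_63__71_107, e0_63__71_108, e0_63__71_109, e0_63__71_110, e0_63__71_111, e0_63__71_112, e0_63__71_113, e0_63__71_114, e0_63__71_115, e0_63__71_116, e0_63__71_117, e0_63__71_118, e0_63__71_119, e0_63__71_120, e0_63__71_121, e0_63__71_122, e0_63__71_123, e0_63__71_124, e0_63__71_125, e0_63__71_126, e0_63__71_127, e0_63__71_128, e0_63__71_129, e0_63__71_130, e0_63__71_131, e0_63__71_132, e0_63__71_133, e0_63__71_134, e0_63__71_135, e0_63__71_136, e0_63__71_137, e0_63__71_138, e0_63__71_139, e0_63__71_140, e0_63__71_141, e0_63__71_142, e0_63__71_143, e0_63__71_144, e0_63__71_145, e0_63__71_146, e0_63__71_147, e0_63__71_148, e0_63__71_149, e0_63__71_150, e0_63__71_151, e0_63__71_152, e0_63__71_153, e0_63__71_154, e0_63__71_155, e0_63__71_156, e0_63__71_157, e0_63__71_158, e0_63__71_159, e0_63__71_160, e0_63__71_161, e0_63__71_162, e0_63__71_163, e0_63__71_164, e0_63__71_165,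 e0_63__71_166, e0_63__71_167, e0_63__71_168, e0_63__71_169, e0_63__71_170, e0_63__71_171, e0_63__71_172, e0_63__71_173, e0_63__71_174, e0_63__71_175, e0_63__71_176, e0_63__71_177, e0_63__71_178, e0_63__71_179, e0_63__71_180, e0_63__71_181, e0_63__71_182, e0_63__71_183, e0_63__71_184, e0_63__71_185, e0_63__71_186, e0_63__71_187, e0_63__71_188, e0_63__71_189, e0_63__71_190, e0_63__71_191, e0_63__71_192, e0_63__71_193, e0_63__71_194, e0_63__71_195, e0_63__71_196, e0_63__71_197, e0_63__71_198, e0_63__71_199, e0_63__71_200, e0_63__71_201, e0_63__71_202, e0_63__71_203, e0_63__71_204, e0_63__71_205, e0_63__71_206, e0_63__71_207, e0_63__71_208, e0_63__71_209, e0_63__71_210, e0_63__71_211, e0_63__71_212, e0_63__71_213, e0_63__71_214, e0_63__71_215, e0_63__71_216, e0_63__71_217, e0_63__71_218, e0_63__71_219, e0_63__71_220, e0_63__71_221, e0_63__71_222, e0_63__71_223, e0_63__71_224, e0_63__71_225, e0_63__71_226,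 e0_63__71_227, e0_63__71_228, e0_63__71_229, e0_63__71_230, e0_63__71_231, e0_63__71_232, e0_63__71_233, e0_63__71_234, e0_63__71_235, e0_63__71_236, e0_63__71_237, e0_63__71_238, e0_63__71_239, e0_63__71_240, e0_63__71_241, e0_63__71_242, e0_63__71_243, e0_63__71_244, e0_63__71_245, e0_63__71_246, e0_63__71_247, e0_63__71_248, e0_63__71_249, e0_63__71_250], by decide +kernel, by decide +kernel⟩

end Pool.Agent.Lib_TTT.K4
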