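import Pool.Agent.Lib_TTT.K4Base
import Pool.Agent.Lib_TTT.K4T00
import Pool.Agent.Lib_TTT.K4T01
import Pool.Agent.Lib_TTT.K4T02

/-! Certificates in `4^4`. -/

set_option autoImplicit false
set_option maxRecDepth 200000

namespace Pool.Agent.Lib_TTT.K4

open Lib_TTT AC DC

def e0_63__74_0 : Ent 4 := ⟨[a0, a63], [a74, a1], (M a12 (F (T t153 (L l65 (T t122 (L l41 (T t151 (L l65 (T t152 (K a4 (M a60 (F (T t835 (L l46 (L l50 (L l65 (T t67 (L l41 (T t448 N))))))))) (K a8 (M a60 (F (L l65 (T t67 (L l339 (T t408 (L l41 (L l52 (L l56 (T t448 N)))))))))) (K a21 (M a192 (L l65 (F (T t156 (L l15 (L l347 (T t450 (L l15 (L l347 (T t157 (K a41 (M a61 (F (T t156 (L l130 (L l305 (T t584 N)))))) (K a61 (M a41 (F (T t156 (L l15 (L l59 (L l347 (L l515 (T t450 (L l50 (L l84 (L l130 (T t681 N)))))))))))) N)))))))))))) (K a25 (M a192 (F (T t156 (L l15 (T t450 (T t21 N)))))) (K a29 (M a192 (F (T t156 (L l371 (T t21 (L l78 (L l130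 (T t160 N)))))))) (K a38 (M a192 (F (T t156 (T t450 (T t21 N))))) (K a42 (M a192 (F (T t156 (T t450 (L l56 (T t157 N)))))) (K a46 (M a192 (F (T t156 (T t21 (L l26 (L l78 (L l130 (L l408 (T t160 N))))))))) (K a51 (M a192 (F (T t161 (L l513 (T t156 (L l439 (T t21 N))))))) N))))))))))))))))))⟩
def e0_63__74_1 : Ent 4 := ⟨[a0, a63], [a74, a2], (M a85 (F (T t52 (L l66 (L l84 (L l339 (T t88 (L l66 (L l84 (L l130 (T t89 (L l84 (L l339 (L l474 (T t90 (K a64 (M a101 (L l84 (F (L l318 (L l330 (T t2349 (L l66 (T t2270 (T t2261 (K a69 (M a79 (F (L l116 (T t2350 (L l66 (T t2351 (L l66 (L l311 (T t2352 N))))))))) (K a79 (Fr a69 a117 l123 (V t2353)) N))))))))))) (K a192 (M a15 (F (T t2354 (L l6 (L l268 (L l318 (T t2355 (L l236 (L l474 (T t1591 N)))))))))) (K a21 (M a48 (F (T t99 (L l474 (T t50 (L l47 (L l318 (T t100 N)))))))) (K a149 (M a16 (F (T t101 (L l66 (L l339 (L l375 (T t97 (L l66 (L l170 (T t102 N)))))))))) (K a213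 (Fr a170 a255 l476 (Fr a42 a21 l68 (Fr a106 a234 l390 (Fr a192 a149 l519 (V t581))))) (K a42 (M a62 (F (T t1693 (L l390 (L l474 (T t1694 (L l22 (L l306 (L l336 (T t1695 (L l84 (L l306 (L l336 (L l339 (L l390 (L l474 (T t1696 N))))))))))))))))) (K a106 (M a90 (F (T t1491 (L l66 (L l390 (T t126 (L l411 (T t1492 (L l339 (T t2356 N)))))))))) (K a170 (M a86 (F (L l174 (T t1703 (L l66 (L l390 (T t369 (L l82 (L l174 (L l306 (T t1701 (L l66 (L l174 (L l339 (L l390 (T t1702 N)))))))))))))))) (K a255 (M a4 (F (L l66 (T t129 (L l265 (T t130 (L l66 (L l265 (L l296 (T t131 N)))))))))) N))))))))))))))))))))))))⟩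
def e0_63__74_2 : Ent 4 := ⟨[a0, a63], [a74, a3], (M a12 (F (T t150 (L l43 (T t122 (L l43 (T t151 (L l43 (T t152 (L l43 (T t153 (K a4 (M a85 (F (T t49 (L l333 (T t124 (T t154 N)))))) (K a8 (M a85 (F (L l475 (T t52 (L l333 (L l464 (T t124 (L l56 (T t154 N))))))))) (K a21 (M a192 (F (L l333 (T t156 (L l15 (L l347 (L l451 (T t450 (L l15 (L l347 (T t157 N))))))))))) (K a25 (M a192 (F (T t159 (L l15 (L l451 (T t450 (L l475 (T t21 N)))))))) (K a29 (M a192 (F (T t159 (L l371 (L l475 (T t21 (L l78 (L l130 (T t160 N))))))))) (K a38 (M a192 (F (T t576 (L l333 (T t156 (L l475 (T t21 N))))))) (K a42 (M a192 (F (T t161 (L l333 (T t156 (L l56 (T t157 N))))))) (K a46 (M a192 (F (T t57 (L l333 (T t156 (L l26 (L l78 (L l130 (L l408 (T t160 N)))))))))) (K a51 (M a68 (L l43 (F (T t162 (L l78 (L l130 (T t163 (L l309 (L l339 (L l489 (L l513 (T t634 (K a19 (M a35 (F (T t165 (L l69 (T t2357 N))))) (K a35 (M a19 (F (T t165 (L l69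 (T t2358 N))))) N)))))))))))))) N))))))))))))))))))))⟩
def e0_63__74_3 : Ent 4 := ⟨[a0, a63], [a74, a5], (M a60 (F (T t43 (L l47 (T t67 (L l47 (T t68 (L l5 (T t69 (K a20 (M a48 (F (T t70 (L l11 (L l14 (L l47 (L l339 (T t3 (L l46 (L l321 (T t71 N))))))))))) (K a40 (M a48 (F (T t70 (L l47 (L l339 (T t3 (L l22 (L l24 (L l321 (T t71 N)))))))))) (K a21 (M a192 (L l47 (F (T t72 (L l347 (T t73 (L l347 (T t74 (K a37 (M a53 (F (T t77 (L l130 (L l311 (T t613 N)))))) (K a53 (M a37 (F (T t77 (L l347 (L l491 (T t73 (L l11 (L l84 (L l130 (T t78 N)))))))))) N)))))))))) (K a41 (M a192 (F (T t77 (L l47 (L l65 (T t35 (T t73 N))))))) (K a61 (M a192 (F (T t72 (L l47 (L l65 (L l515 (T t35 (L l130 (T t80 N))))))))) (K a22 (M a192 (F (T t72 (T t21 (T t73 N))))) (K a42 (M a192 (F (T t79 (T t73 (L l22 (T t74 N)))))) (K a62 (M a192 (F (T t72 (L l47 (T t35 (L l66 (L l130 (L l516 (T t80 N))))))))) (K a3 (M a192 (F (T t614 (L l477 (T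 t79 (L l47 (L l475 (T t35 N)))))))) N))))))))))))))))))⟩
def e0_63__74_4 : Ent 4 := ⟨[a0, a63], [a74, a6], (M a149 (F (T t25 (L l339 (T t175 (T t176 (L l84 (L l130 (T t177 (K a192 (M a15 (F (L l484 (T t723 (L l1 (L l268 (T t1026 (L l6 (L l296 (L l318 (T t1030 (L l268 (L l296 (T t1031 N)))))))))))))) (K a21 (M a48 (F (T t16 (L l130 (T t13 (L l18 (T t14 N))))))) (K a85 (M a16 (F (T t504 (L l130 (L l144 (T t190 (L l94 (L l130 (T t278 N))))))))) (K a213 (Fr a106 a192 l519 (Fr a42 a21 l68 (Fr a170 a234 l390 (Fr a255 a85 l476 (V t582))))) (K a42 (M a48 (F (L l54 (T t16 (L l130 (L l390 (T t13 (L l54 (T t14 N))))))))) (K a106 (M a90 (F (L l390 (T t1072 (L l1 (L l411 (T t1040 (L l390 (T t1073 (L l6 (L l318 (L l390 (L l411 (T t1074 (L l6 (L l318 (L l411 (T t1075 N)))))))))))))))))) (K a170 (M a48 (F (T t184 (T t607 (L l130 (L l390 (T t13 N))))))) (K a191 (M a16 (F (T t504 (L l130 (T t190 (L l213 (T t191 N))))))) (K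 a255 (M a16 (F (T t504 (L l130 (L l266 (T t190 (L l289 (L l296 (T t191 N))))))))) N))))))))))))))))))⟩
def e0_63__74_5 : Ent 4 := ⟨[a0, a63], [a74, a7], (M a149 (F (T t25 (L l339 (T t175 (T t176 (L l84 (L l130 (T t177 (K a192 (M a15 (F (L l484 (T t723 (L l1 (L l268 (T t1026 (L l296 (L l315 (L l318 (T t1030 (L l268 (L l296 (T t1031 N)))))))))))))) (K a21 (M a48 (F (T t16 (L l130 (T t13 (L l18 (T t14 N))))))) (K a85 (M a16 (F (T t504 (L l130 (L l144 (T t190 (L l94 (L l130 (T t278 N))))))))) (K a213 (Fr a106 a192 l519 (Fr a42 a21 l68 (Fr a170 a234 l390 (Fr a255 a85 l476 (V t582))))) (K a42 (M a48 (F (L l54 (T t16 (L l130 (L l390 (T t13 (L l54 (T t14 N))))))))) (K a106 (M a90 (F (L l390 (T t1072 (L l1 (L l411 (T t1040 (L l390 (T t1073 (L l318 (L l390 (L l411 (T t1074 (L l318 (L l411 (T t1075 N)))))))))))))))) (K a170 (M a48 (F (T t184 (T t607 (L l130 (L l390 (T t13 N))))))) (K a191 (M a252 (F (T t1076 (L l130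 (T t940 N))))) (K a255 (M a16 (F (T t504 (L l130 (L l266 (T t190 (L l289 (L l296 (T t191 N))))))))) N))))))))))))))))))⟩
def e0_63__74_6 : Ent 4 := ⟨[a0, a63], [a74, a10], (M a60 (L l318 (F (T t67 (L l54 (T t43 (L l6 (T t68 (L l54 (T t69 (K a20 (M a106 (L l318 (F (T t564 (L l336 (T t2359 (L l11 (L l336 (T t1513 (K a138 (M a202 (F (T t2360 (L l11 (L l336 (T t1513 N)))))) (K a202 (M a138 (F (L l346 (T t1514 (L l11 (L l84 (L l282 (T t2361 N)))))))) N))))))))))) (K a40 (M a106 (L l318 (F (T t310 (L l336 (L l339 (T t1512 (L l336 (T t1513 (K a138 (M a202 (F (T t310 (T t2362 N)))) (K a202 (M a138 (F (T t1514 (L l84 (L l282 (T t2361 N)))))) N))))))))))) (K a21 (M a150 (L l318 (F (T t2363 (L l65 (L l336 (L l339 (T t1136 (L l65 (L l84 (L l336 (T t1137 (K a138 (M a202 (F (T t1135 (L l54 (L l65 (L l336 (T t2364 N))))))) (K a202 (M a138 (F (T t2363 (L l65 (L l84 (L l234 (T t2365 N))))))) N)))))))))))))) (K a41 (M a150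 (L l318 (F (T t2366 (L l65 (L l336 (L l339 (T t1136 (L l22 (L l65 (L l84 (L l336 (T t1137 (K a138 (M a202 (F (T t2367 (L l54 (L l65 (L l336 (T t2364 N))))))) (K a202 (M a138 (F (T t2366 (L l65 (L l84 (L l234 (T t2365 N))))))) N))))))))))))))) (K a61 (M a192 (L l318 (F (T t72 (L l65 (L l515 (T t35 (L l54 (L l130 (T t80 (K a138 (M a202 (F (T t72 (L l54 (L l515 (T t2368 N)))))) (K a202 (M a138 (F (T t77 (L l515 (T t21 (L l54 (L l130 (L l498 (T t80 N))))))))) N)))))))))))) (K a22 (M a150 (L l318 (F (T t2363 (L l336 (L l339 (T t1136 (L l84 (L l336 (T t1137 (K a138 (M a202 (F (T t1135 (L l54 (L l336 (T t2364 N)))))) (K a202 (M a138 (F (T t2363 (L l84 (L l234 (T t2365 N)))))) N)))))))))))) (K a42 (M a106 (L l54 (L l318 (F (T t1514 (L l22 (L l84 (L l336 (T t2369 (L l84 (T t565 (K a138 (M a202 (L l54 (F (T t2360 (L l22 (L l84 (L l336 (T t2369 (K a26 (Fr a58 a154 l498 (V t2370)) (K a58 (M a26 (F (T t1514 (L l22 (L l84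 (L l336 (T t2369 (L l84 (T t565 N))))))))) N)))))))))) (K a202 (M a138 (L l54 (F (T t1514 (L l84 (L l236 (L l339 (T t2371 (L l22 (L l84 (L l234 (L l336 (T t2369 (K a26 (M a58 (F (T t1514 (L l22 (L l28 (T t2372 N)))))) (K a58 (M a26 (F (T t1514 (L l84 (T t2373 (L l84 (T t565 N))))))) N))))))))))))))) (K a26 (M a58 (L l318 (F (T t1514 (L l18 (T t2374 (K a138 (Fr a202 a154 l498 (V t2370)) (K a202 (M a138 (F (T t1514 (L l22 (L l28 (T t2372 N)))))) N)))))))) (K a58 (M a26 (L l318 (F (T t1514 (L l22 (L l84 (L l336 (T t2369 (L l84 (T t565 (K a138 (M a202 (F (T t1514 (L l22 (L l84 (L l336 (T t2369 (L l84 (T t565 N))))))))) (K a202 (M a138 (F (T t1514 (L l84 (T t2373 (L l84 (T t565 N))))))) N)))))))))))) N))))))))))))))) (K a62 (M a192 (L l318 (F (T t72 (T t35 (L l54 (L l66 (L l130 (L l516 (T t80 (K a138 (M a202 (F (T t72 (L l36 (L l54 (T t2368 N)))))) (K a202 (M a138 (F (T t77 (T t21 (L l54 (L l66 (L l130 (L l498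 (L l516 (T t80 N)))))))))) N)))))))))))) (K a3 (M a150 (L l318 (F (T t2375 (L l475 (T t1135 (L l84 (L l336 (T t1137 (K a138 (M a202 (F (T t2376 (L l54 (L l336 (T t2364 N)))))) (K a202 (M a138 (F (T t2376 (L l84 (L l234 (L l333 (T t2365 N))))))) N))))))))))) (K a138 (M a202 (F (T t67 (L l54 (T t43 (L l6 (L l330 (T t68 (L l54 (T t69 (K a20 (M a192 (F (L l160 (T t21 (T t2377 N))))) (K a40 (M a192 (F (T t35 (T t2377 N)))) (K a21 (M a192 (F (T t72 (L l54 (L l347 (T t2368 N)))))) (K a41 (M a192 (F (T t79 (L l54 (T t2368 N))))) (K a61 (M a192 (F (T t72 (L l54 (L l515 (T t2368 N)))))) (K a22 (M a192 (F (T t72 (L l54 (T t2368 N))))) (K a42 (M a58 (F (T t2378 (L l206 (L l336 (T t2379 (T t2374 N))))))) (K a62 (M a192 (F (T t72 (L l36 (L l54 (T t2368 N)))))) (K a3 (M a192 (F (T t2380 (L l84 (L l477 (T t1333 N)))))) N))))))))))))))))))) (K a202 (M a138 (F (T t67 (L l84 (T t2373 (K a61 (M a48 (F (T t880 (L l84 (L l236 (L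 l339 (L l498 (T t2381 N)))))))) (K a62 (M a48 (F (T t880 (L l84 (L l236 (L l339 (L l498 (T t2381 N)))))))) N))))))) N)))))))))))))))))))))⟩
def e0_63__74_7 : Ent 4 := ⟨[a0, a63], [a74, a11], (M a149 (L l321 (F (T t25 (L l339 (T t175 (T t176 (L l84 (L l130 (T t177 (K a192 (M a15 (L l321 (F (T t1071 (L l268 (T t1026 (L l2 (L l296 (L l318 (T t1030 (L l268 (L l296 (T t1031 (K a200 (M a137 (L l232 (F (T t1071 (L l268 (T t1026 (L l296 (T t2382 (L l2 (L l296 (L l318 (T t1030 (K a196 (M a204 (F (T t1071 (L l309 (L l316 (T t2383 N)))))) (K a204 (M a196 (F (L l268 (T t1026 (L l55 (L l322 (L l334 (L l501 (L l513 (T t1788 N)))))))))) N)))))))))))))) (K a137 (M a200 (F (T t2354 (L l268 (T t1026 (L l2 (L l157 (L l296 (L l318 (T t1030 (L l268 (L l296 (T t1031 N))))))))))))) N))))))))))))))) (K a21 (M a204 (L l321 (F (L l50 (T t1282 (L l84 (L l130 (T t1053 (T t1044 (K a200 (M a137 (F (L l339 (T t1045 (L l82 (T t2384 N))))))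 (K a137 (M a200 (F (T t2385 (T t1967 N)))) N))))))))))) (K a85 (M a1 (L l321 (F (T t534 (L l82 (L l130 (L l144 (T t1083 (L l57 (L l141 (T t1084 (K a200 (M a137 (F (L l82 (T t2386 (L l57 (L l141 (T t1084 N))))))) (K a137 (M a200 (F (T t534 (L l2 (L l126 (L l130 (L l144 (T t2387 N)))))))) N))))))))))))) (K a213 (Fr a106 a192 l519 (Fr a42 a21 l68 (Fr a170 a234 l390 (Fr a255 a85 l476 (V t582))))) (K a42 (M a204 (L l321 (F (T t1282 (L l130 (L l390 (T t1283 (T t1044 (K a200 (M a137 (F (L l339 (T t1045 (L l66 (L l82 (T t2384 N))))))) (K a137 (M a200 (F (T t2385 (T t1967 N)))) N)))))))))) (K a106 (M a90 (L l321 (F (L l390 (T t1072 (L l411 (T t1040 (L l390 (T t1073 (L l2 (L l318 (L l390 (L l411 (T t1074 (L l2 (L l318 (L l411 (T t1075 (K a200 (M a137 (L l501 (F (L l411 (T t1040 (L l390 (T t1072 (L l390 (T t1073 (L l2 (L l318 (L l390 (L l411 (T t1074 (L l2 (L l318 (L l411 (T t1075 (K a153 (M a59 (F (L l390 (T t1072 (L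 l2 (L l316 (T t2388 (L l411 (T t1040 N))))))))) (K a59 (M a153 (L l55 (F (L l142 (T t2389 (L l56 (L l390 (L l429 (T t1072 (K a27 (M a43 (F (L l17 (T t2390 (L l339 (L l411 (L l429 (T t2391 N)))))))) (K a43 (Fr a27 a216 l357 (V t2392)) N))))))))))) N)))))))))))))))))))) (K a137 (M a200 (F (L l411 (T t1040 (L l390 (T t1072 (L l390 (T t1073 (L l2 (L l318 (L l390 (L l411 (T t1074 (L l2 (L l318 (L l411 (T t1075 N))))))))))))))))) N)))))))))))))))))))) (K a170 (M a48 (L l321 (F (T t184 (T t607 (L l130 (L l390 (T t13 (K a200 (M a137 (F (T t184 (T t607 (L l130 (L l390 (L l501 (T t13 N)))))))) (K a137 (M a200 (F (T t184 (T t607 (L l2 (L l130 (L l390 (L l464 (T t2387 N))))))))) N)))))))))) (K a191 (M a204 (L l321 (F (T t1282 (L l130 (T t1283 (T t1055 (K a200 (M a137 (F (T t2393 (L l55 (L l82 (L l185 (L l465 (T t2394 N)))))))) (K a137 (M a200 (F (T t2385 (L l154 (T t1055 N))))) N))))))))) (K a255 (M a204 (L l321 (F (L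 l296 (T t2395 (L l130 (L l470 (T t1283 (T t2396 (K a200 (M a137 (F (L l82 (T t2397 (L l296 (L l339 (L l501 (T t1054 N)))))))) (K a137 (M a200 (F (T t2398 (L l2 (L l470 (T t2399 N)))))) N))))))))))) (K a200 (M a137 (F (T t25 (L l232 (L l284 (L l339 (T t175 (T t176 (L l84 (L l130 (L l501 (T t177 (K a192 (M a15 (L l232 (F (T t1071 (L l268 (T t1026 (L l296 (T t2382 (L l2 (L l296 (L l318 (T t1030 (K a196 (M a204 (F (T t1071 (L l309 (L l316 (T t2383 N)))))) (K a204 (M a196 (F (L l268 (T t1026 (L l55 (L l322 (L l334 (L l501 (L l513 (T t1788 N)))))))))) N)))))))))))))) (K a21 (M a204 (F (L l339 (T t1045 (L l82 (T t2384 N)))))) (K a85 (M a204 (F (L l339 (T t1045 (L l82 (T t2384 N)))))) (K a213 (Fr a106 a192 l519 (Fr a42 a21 l68 (Fr a170 a234 l390 (Fr a255 a85 l476 (V t582))))) (K a42 (M a204 (F (L l339 (T t1045 (L l66 (L l82 (T t2384 N))))))) (K a106 (M a90 (L l501 (F (L l411 (T t1040 (L l390 (T t1072 (L l390 (T t1073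 (L l2 (L l318 (L l390 (L l411 (T t1074 (L l2 (L l318 (L l411 (T t1075 (K a153 (M a59 (F (L l390 (T t1072 (L l2 (L l316 (T t2388 (L l411 (T t1040 N))))))))) (K a59 (M a153 (L l55 (F (L l142 (T t2389 (L l56 (L l390 (L l429 (T t1072 (K a27 (M a43 (F (L l17 (T t2390 (L l339 (L l411 (L l429 (T t2391 N)))))))) (K a43 (Fr a27 a216 l357 (V t2392)) N))))))))))) N)))))))))))))))))))) (K a170 (M a204 (F (L l339 (T t1045 (L l82 (L l474 (T t2384 N))))))) (K a191 (M a204 (F (T t2393 (L l55 (L l82 (L l185 (L l465 (T t2394 N)))))))) (K a255 (M a204 (F (L l82 (T t2397 (L l296 (L l339 (L l501 (T t1054 N)))))))) N))))))))))))))))))))) (K a137 (M a200 (F (L l339 (T t175 (L l2 (L l130 (T t2387 (L l55 (L l84 (T t2400 (L l84 (T t2401 N)))))))))))) N)))))))))))))))))))))⟩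
def e0_63__74_8 : Ent 4 := ⟨[a0, a63], [a74, a15], (M a192 (F (T t47 (L l469 (T t21 (L l469 (T t35 (L l84 (L l130 (L l469 (T t202 (L l130 (L l469 (T t37 (K a64 (M a12 (L l84 (F (T t161 (L l73 (T t122 (L l78 (L l80 (L l130 (L l144 (T t160 (K a69 (M a79 (F (T t1252 (L l78 (L l80 (L l130 (L l144 (L l481 (T t543 (T t776 N)))))))))) (K a79 (M a69 (L l325 (F (T t161 (L l318 (L l337 (T t2402 (K a143 (Fr a207 a138 l332 (V t2403)) (K a207 (M a143 (F (T t2061 (L l301 (L l481 (T t450 (T t776 N))))))) N))))))))) N))))))))))))) (K a128 (M a12 (F (T t2061 (L l220 (L l481 (T t450 (L l78 (L l130 (T t160 N))))))))) (K a21 (M a48 (F (L l483 (T t28 (L l47 (L l318 (L l325 (L l347 (T t20 (L l47 (L l318 (L l347 (T t29 N))))))))))))) (K a85 (M a48 (F (L l483 (T t28 (L l318 (L l325 (L l347 (T t20 (L l130 (L l144 (L l368 (T t224 N)))))))))))) (K a149 (M a12 (F (T t1252 (L l202 (L l220 (L l327 (T t156 (L l73 (L l202 (L l220 (L l347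 (L l371 (T t2404 (L l73 (L l78 (L l84 (L l495 (T t228 N)))))))))))))))))) (K a42 (M a48 (F (T t33 (L l483 (T t27 (L l28 (L l318 (T t29 N)))))))) (K a106 (M a12 (L l130 (F (T t159 (L l73 (T t122 (L l73 (L l501 (T t2404 (L l73 (L l78 (L l84 (L l132 (L l144 (L l390 (L l408 (T t228 (K a90 (M a122 (L l483 (F (T t150 (L l75 (L l94 (L l375 (T t2405 (K a240 (M a165 (F (T t159 (L l73 (L l417 (T t122 (L l73 (L l417 (L l501 (T t2404 (L l73 (L l78 (L l84 (L l132 (L l144 (L l390 (L l408 (L l417 (T t228 N))))))))))))))))))) (K a165 (Fr a240 a181 l447 (V t2406)) N)))))))))) (K a122 (M a90 (F (T t159 (L l73 (L l390 (L l408 (T t151 (L l73 (L l429 (L l501 (T t2404 (L l73 (L l78 (L l84 (L l132 (L l144 (L l390 (L l408 (T t228 N))))))))))))))))))) N))))))))))))))))))) (K a170 (M a8 (F (T t2407 (L l321 (L l327 (T t215 (L l78 (L l208 (L l220 (T t2408 N)))))))))) (K a255 (M a48 (L l469 (F (T t33 (L l266 (L l483 (T t27 (L l289 (L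 l318 (T t29 (K a95 (M a175 (F (T t36 (L l130 (L l289 (L l325 (L l361 (T t22 (L l289 (L l318 (L l361 (T t29 N)))))))))))) (K a175 (M a95 (F (T t36 (L l130 (L l213 (L l289 (L l325 (T t22 (L l289 (L l318 (T t29 N))))))))))) N)))))))))))) N)))))))))))))))))))))))⟩
def e0_63__74_9 : Ent 4 := ⟨[a0, a63], [a74, a16], (M a12 (F (T t153 (L l18 (T t122 (L l10 (T t151 (L l18 (T t152 (K a4 (M a60 (F (T t43 (L l336 (L l339 (T t398 (L l10 (T t448 N)))))))) (K a8 (M a60 (F (T t570 (L l52 (L l56 (T t43 (L l10 (L l52 (L l56 (T t448 N)))))))))) (K a21 (M a192 (L l18 (F (T t156 (L l15 (L l347 (T t450 (L l15 (L l347 (T t157 (K a26 (M a31 (F (T t156 (L l14 (T t1369 N))))) (K a31 (M a26 (F (T t156 (L l13 (L l15 (L l347 (L l375 (T t450 (L l50 (L l84 (L l130 (T t681 N)))))))))))) N)))))))))))) (K a25 (M a192 (F (T t156 (L l15 (T t450 (T t21 N)))))) (K a29 (M a192 (F (T t156 (L l371 (T t21 (L l78 (L l130 (T t160 N)))))))) (K a38 (M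 a192 (F (T t156 (T t450 (T t21 N))))) (K a42 (M a192 (F (T t156 (T t450 (L l56 (T t157 N)))))) (K a46 (M a192 (F (T t156 (T t21 (L l26 (L l78 (L l130 (L l408 (T t160 N))))))))) (K a51 (M a192 (F (T t161 (L l513 (T t156 (L l439 (T t21 N))))))) N))))))))))))))))))⟩
def e0_63__74_10 : Ent 4 := ⟨[a0, a63], [a74, a17], (M a60 (F (T t43 (L l15 (T t67 (L l15 (T t68 (L l41 (T t69 (K a20 (M a48 (F (T t64 (L l11 (L l15 (L l318 (L l339 (T t1 (L l11 (L l15 (T t235 N))))))))))) (K a40 (M a48 (F (T t64 (L l15 (L l318 (L l339 (T t1 (L l15 (L l52 (T t235 N)))))))))) (K a21 (M a192 (L l15 (F (T t72 (L l347 (T t73 (L l347 (T t74 (K a25 (M a29 (F (T t77 (L l130 (L l341 (T t2409 N)))))) (K a29 (M a25 (F (T t77 (L l347 (L l371 (T t73 (L l11 (L l84 (L l130 (T t78 N)))))))))) N)))))))))) (K a41 (M a192 (F (T t77 (L l15 (L l65 (T t35 (T t73 N))))))) (K a61 (M a192 (F (T t72 (L l15 (L l65 (L l515 (T t35 (L l130 (T t80 N))))))))) (K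 a22 (M a192 (F (T t72 (T t21 (T t73 N))))) (K a42 (M a192 (F (T t79 (T t73 (L l22 (T t74 N)))))) (K a62 (M a192 (F (T t72 (L l15 (T t35 (L l66 (L l130 (L l516 (T t80 N))))))))) (K a3 (M a192 (F (T t614 (L l477 (T t79 (L l15 (L l475 (T t35 N)))))))) N))))))))))))))))))⟩
def e0_63__74_11 : Ent 4 := ⟨[a0, a63], [a74, a18], (M a12 (F (T t152 (L l42 (T t122 (L l10 (T t151 (T t153 (K a4 (M a60 (F (T t570 (L l45 (L l46 (L l50 (T t67 (L l10 (T t448 N))))))))) (K a8 (M a60 (F (T t116 (L l336 (L l339 (T t398 (L l10 (L l52 (L l56 (T t448 N)))))))))) (K a21 (M a192 (F (T t156 (L l15 (L l347 (T t450 (L l15 (L l347 (T t157 N))))))))) (K a25 (M a192 (F (T t156 (L l15 (T t450 (T t21 N)))))) (K a29 (M a192 (F (T t156 (L l371 (T t21 (L l78 (L l130 (T t160 N)))))))) (K a38 (M a192 (F (T t156 (T t450 (T t21 N))))) (K a42 (M a192 (F (T t156 (T t450 (L l56 (T t157 N)))))) (K a46 (M a192 (F (T t156 (T t21 (L l26 (L l78 (L l130 (L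 l408 (T t160 N))))))))) (K a51 (M a192 (F (T t57 (L l513 (T t156 (L l415 (T t450 N))))))) N)))))))))))))))))⟩
def e0_63__74_12 : Ent 4 := ⟨[a0, a63], [a74, a19], (M a149 (F (T t25 (L l339 (T t175 (T t176 (L l84 (L l130 (T t177 (K a192 (M a15 (F (L l484 (T t731 (L l268 (L l345 (T t1026 (L l296 (L l318 (T t1030 (L l268 (L l296 (L l345 (T t1031 N)))))))))))))) (K a21 (M a48 (F (T t16 (L l130 (T t13 (L l10 (L l18 (T t14 N)))))))) (K a85 (M a16 (F (L l455 (T t112 (L l130 (L l144 (L l345 (T t190 (L l94 (L l130 (T t278 N))))))))))) (K a213 (Fr a106 a192 l519 (Fr a42 a21 l68 (Fr a170 a234 l390 (Fr a255 a85 l476 (V t582))))) (K a42 (M a48 (F (L l54 (T t16 (L l130 (L l390 (T t13 (L l10 (L l54 (T t14 N)))))))))) (K a106 (M a90 (F (L l390 (T t1072 (L l345 (L l411 (T t1040 (L l345 (L l390 (T t1073 (L l318 (L l345 (L l390 (L l411 (T t1074 (L l318 (L l345 (L l411 (T t1075 N))))))))))))))))))) (K a170 (M a48 (F (T t184 (L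 l10 (T t607 (L l130 (L l390 (T t13 N)))))))) (K a191 (M a252 (F (T t1076 (L l130 (T t940 N))))) (K a255 (M a16 (F (T t112 (L l130 (L l266 (L l345 (T t190 (L l289 (L l296 (L l367 (T t191 N))))))))))) N))))))))))))))))))⟩
def e0_63__74_13 : Ent 4 := ⟨[a0, a63], [a74, a22], (M a149 (F (L l66 (T t25 (L l11 (L l339 (T t175 (L l66 (T t176 (L l84 (L l130 (T t177 (K a192 (M a15 (F (L l11 (T t1071 (L l268 (T t1026 (L l66 (L l296 (L l318 (T t1030 (L l66 (L l268 (L l296 (T t1031 N)))))))))))))) (K a21 (M a48 (L l11 (F (T t16 (L l130 (T t13 (L l18 (T t14 (K a20 (M a23 (F (T t184 (L l65 (L l346 (T t182 N)))))) (K a23 (M a20 (F (T t184 (L l19 (L l50 (T t183 N)))))) N)))))))))) (K a85 (M a16 (F (L l66 (T t504 (L l130 (L l144 (T t190 (L l16 (L l66 (L l94 (L l130 (T t278 N)))))))))))) (K a213 (Fr a106 a192 l519 (Fr a42 a21 l68 (Fr a170 a234 l390 (Fr a255 a85 l476 (V t582))))) (K a42 (M a2 (F (L l22 (T t189 (L l130 (L l390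 (T t1848 (L l22 (T t1847 (L l11 (L l84 (L l130 (L l390 (T t1849 N)))))))))))))) (K a106 (M a90 (F (L l411 (T t1040 (L l66 (L l390 (T t1072 (L l66 (L l390 (T t1073 (L l66 (L l318 (L l390 (L l411 (T t1074 (L l318 (L l411 (T t1075 N)))))))))))))))))) (K a170 (M a48 (F (T t184 (L l11 (T t607 (L l130 (L l390 (T t13 N)))))))) (K a191 (M a16 (F (L l66 (T t112 (L l130 (T t190 (L l66 (L l213 (T t191 N))))))))) (K a255 (M a16 (F (T t192 (L l66 (T t112 (L l66 (L l289 (L l296 (T t191 N))))))))) N)))))))))))))))))))))⟩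
def e0_63__74_14 : Ent 4 := ⟨[a0, a63], [a74, a23], (M a12 (F (T t151 (L l11 (T t122 (L l11 (T t152 (L l49 (T t153 (K a4 (M a60 (F (T t423 (L l11 (L l50 (T t68 (L l11 (L l50 (T t2410 N))))))))) (K a8 (M a60 (F (L l11 (T t68 (L l336 (L l339 (T t398 (L l11 (T t2410 N))))))))) (K a21 (M a192 (L l11 (F (T t156 (L l15 (L l347 (L l351 (T t450 (L l15 (L l347 (L l351 (T t157 (K a20 (M a22 (F (T t156 (L l15 (L l347 (L l351 (T t450 (L l46 (L l50 (L l84 (L l130 (T t681 N)))))))))))) (K a22 (M a20 (F (T t156 (L l15 (L l65 (L l336 (T t2411 N))))))) N)))))))))))))) (K a25 (M a192 (F (T t156 (L l15 (L l351 (T t450 (L l351 (T t21 N)))))))) (K a29 (M a192 (F (T t156 (L l351 (L l371 (T t21 (L l78 (L l130 (T t160 N))))))))) (K a38 (M a192 (F (T t156 (L l351 (T t450 (L l351 (T t21 N))))))) (K a42 (M a192 (F (T t156 (L l351 (T t450 (L l56 (L l351 (T t157 N)))))))) (K a46 (M a192 (F (T t156 (L l351 (T t21 (L l26 (L l78 (L l130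 (L l408 (T t160 N)))))))))) (K a51 (M a192 (F (T t159 (L l351 (L l415 (T t450 (L l351 (L l439 (T t21 N))))))))) N))))))))))))))))))⟩
def e0_63__74_15 : Ent 4 := ⟨[a0, a63], [a74, a26], (M a12 (F (L l18 (T t122 (L l54 (T t151 (L l18 (T t152 (L l54 (T t153 (K a4 (M a60 (F (T t570 (L l54 (T t43 (L l54 (T t448 N))))))) (K a8 (M a60 (F (T t570 (L l52 (L l54 (L l56 (T t43 (L l52 (L l54 (L l56 (T t448 N))))))))))) (K a21 (M a192 (L l18 (F (T t156 (L l15 (L l347 (T t450 (L l15 (L l347 (T t157 (K a16 (M a31 (F (T t156 (L l14 (T t1369 N))))) (K a31 (M a16 (F (T t156 (L l347 (L l375 (T t223 N)))))) N)))))))))))) (K a25 (M a192 (L l12 (F (T t467 (T t156 (T t21 (K a24 (M a27 (F (T t467 (L l52 (L l56 (L l78 (T t468 (L l15 (L l18 (T t35 N)))))))))) (K a27 (M a24 (F (T t21 (L l57 (L l75 (T t2412 N)))))) N)))))))) (K a29 (M a192 (F (T t156 (L l371 (T t21 (L l54 (L l78 (L l130 (T t160 N))))))))) (K a38 (M a192 (L l72 (F (T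 t156 (T t450 (T t21 (K a50 (M a14 (F (T t467 (L l42 (T t727 N))))) (K a14 (M a50 (L l336 (F (T t467 (L l18 (L l50 (T t35 (L l78 (T t468 (K a194 (M a134 (F (T t467 (L l318 (T t1755 N))))) (K a134 (M a194 (F (T t450 (L l6 (T t2413 N))))) N))))))))))) N)))))))) (K a42 (M a106 (L l54 (F (T t2414 (L l56 (L l84 (T t2415 (L l78 (L l84 (T t2305 (K a10 (M a58 (L l318 (F (T t2416 (L l28 (T t2417 (K a138 (Fr a202 a154 l498 (V t2418)) (K a202 (M a138 (F (T t2419 (L l230 (L l336 (T t2420 N)))))) N)))))))) (K a58 (M a10 (F (T t2418 (L l57 (L l66 (L l321 (T t2421 N))))))) N)))))))))))) (K a46 (M a192 (F (T t156 (T t21 (L l26 (L l54 (L l78 (L l130 (L l408 (T t160 N)))))))))) (K a51 (M a192 (F (T t161 (L l513 (T t156 (L l439 (T t21 N))))))) N)))))))))))))))))))⟩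
def e0_63__74_16 : Ent 4 := ⟨[a0, a63], [a74, a27], (M a60 (F (T t68 (L l55 (T t67 (L l17 (T t43 (T t69 (K a20 (M a48 (F (T t138 (L l11 (L l14 (L l318 (T t48 (L l11 (T t235 N))))))))) (K a40 (M a48 (F (T t607 (T t236 (L l52 (T t235 N)))))) (K a21 (M a192 (F (T t72 (L l347 (T t73 (L l347 (T t74 N))))))) (K a41 (M a192 (F (T t77 (L l65 (T t35 (T t73 N)))))) (K a61 (M a192 (F (T t72 (L l65 (L l515 (T t35 (L l130 (T t80 N)))))))) (K a22 (M a192 (F (T t72 (T t21 (T t73 N))))) (K a42 (M a192 (F (T t79 (T t73 (L l22 (T t74 N)))))) (K a62 (M a192 (F (T t72 (T t35 (L l66 (L l130 (L l516 (T t80 N)))))))) (K a3 (M a192 (F (T t614 (L l477 (T t79 (L l475 (T t35 N))))))) N)))))))))))))))))⟩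
def e0_63__74_17 : Ent 4 := ⟨[a0, a63], [a74, a31], (M a60 (F (T t69 (L l18 (T t67 (L l17 (T t43 (L l18 (T t68 (K a20 (M a48 (F (T t64 (L l11 (L l18 (L l318 (L l339 (T t1 (L l11 (L l18 (T t235 N))))))))))) (K a40 (M a48 (F (T t64 (L l18 (L l318 (L l339 (T t1 (L l18 (L l52 (T t235 N)))))))))) (K a21 (M a48 (L l18 (F (T t70 (L l13 (T t248 (L l11 (L l47 (L l65 (T t249 (L l13 (L l50 (T t250 (K a16 (M a26 (F (L l47 (T t251 (L l11 (L l321 (L l339 (T t252 (T t70 N))))))))) (K a26 (Fr a16 a32 l40 (V t253)) N))))))))))))))) (K a41 (M a192 (F (T t77 (L l18 (L l65 (L l375 (T t35 (L l375 (T t73 N))))))))) (K a61 (M a192 (F (T t72 (L l18 (L l65 (L l375 (L l515 (T t35 (L l130 (L l373 (T t80 N))))))))))) (K a22 (M a192 (F (T t72 (L l375 (T t21 (L l375 (T t73 N))))))) (K a42 (M a192 (F (T t77 (L l375 (T t73 (L l22 (L l375 (T t74 N)))))))) (K a62 (M a192 (F (T t72 (L l18 (L l375 (T t35 (L l66 (L l130 (L l373 (L l516 (T t80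 N))))))))))) (K a3 (M a192 (F (T t254 (L l18 (L l375 (L l475 (T t35 (L l307 (L l375 (T t73 N)))))))))) N))))))))))))))))))⟩
def e0_63__74_18 : Ent 4 := ⟨[a0, a63], [a74, a32], (M a85 (F (T t52 (L l28 (L l84 (L l339 (T t88 (L l28 (L l84 (L l130 (T t89 (L l84 (L l339 (L l404 (T t90 (K a64 (M a240 (L l84 (F (L l404 (T t933 (L l28 (L l376 (T t387 (K a69 (M a79 (F (L l404 (T t933 (L l28 (L l376 (T t387 N))))))) (K a79 (M a69 (F (L l318 (T t2422 (L l28 (L l130 (L l339 (L l376 (T t1551 N))))))))) N)))))))))) (K a192 (M a15 (F (L l296 (T t2423 (L l28 (L l318 (L l484 (T t716 (L l236 (L l404 (T t1591 N))))))))))) (K a21 (M a12 (F (T t1368 (L l404 (T t124 (L l15 (T t574 N))))))) (K a149 (M a4 (F (T t1371 (L l28 (L l495 (T t519 (L l28 (L l202 (T t1372 N))))))))) (K a213 (Fr a170 a255 l476 (Fr a42 a21 l68 (Fr a106 a234 l390 (Fr a192 a149 l519 (V t581))))) (K a42 (M a47 (F (T t1808 (L l390 (L l404 (T t1404 (L l54 (L l318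 (L l376 (T t1403 (L l84 (L l130 (L l376 (L l390 (L l404 (T t2424 N)))))))))))))))) (K a106 (M a90 (F (T t2425 (L l28 (L l390 (T t126 (L l28 (L l411 (T t1492 (L l339 (L l376 (T t2356 N)))))))))))) (K a170 (M a101 (F (L l206 (L l318 (T t1810 (L l28 (L l84 (L l390 (T t1811 (L l206 (L l318 (L l376 (T t1812 (L l28 (L l206 (L l339 (L l390 (T t1813 N)))))))))))))))))) (K a255 (M a4 (F (L l28 (T t129 (L l265 (T t130 (L l28 (L l265 (L l296 (T t131 N)))))))))) N))))))))))))))))))))))))⟩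
def e0_63__74_19 : Ent 4 := ⟨[a0, a63], [a74, a33], (M a12 (F (T t152 (L l20 (T t122 (L l41 (T t151 (T t153 (K a4 (M a60 (F (T t570 (L l45 (L l46 (L l50 (T t67 (L l41 (T t448 N))))))))) (K a8 (M a60 (F (T t116 (L l336 (L l339 (T t398 (L l41 (L l52 (L l56 (T t448 N)))))))))) (K a21 (M a192 (F (T t156 (L l15 (L l347 (T t450 (L l15 (L l347 (T t157 N))))))))) (K a25 (M a192 (F (T t156 (L l15 (T t450 (T t21 N)))))) (K a29 (M a192 (F (T t156 (L l371 (T t21 (L l78 (L l130 (T t160 N)))))))) (K a38 (M a192 (F (T t156 (T t450 (T t21 N))))) (K a42 (M a192 (F (T t156 (T t450 (L l56 (T t157 N)))))) (K a46 (M a192 (F (T t156 (T t21 (L l26 (L l78 (L l130 (L l408 (T t160 N))))))))) (K a51 (M a192 (F (T t57 (L l513 (T t156 (L l415 (T t450 N))))))) N)))))))))))))))))⟩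
def e0_63__74_20 : Ent 4 := ⟨[a0, a63], [a74, a34], (M a85 (F (T t52 (L l26 (L l84 (L l339 (T t88 (L l26 (L l84 (L l130 (T t89 (L l84 (L l339 (L l402 (T t90 (K a64 (M a101 (L l84 (F (L l318 (T t2349 (L l26 (T t2270 (T t2261 (K a69 (M a79 (F (L l116 (T t2350 (L l26 (T t2351 (L l26 (L l311 (T t2352 N))))))))) (K a79 (Fr a69 a117 l123 (V t2353)) N)))))))))) (K a192 (M a15 (F (T t1071 (L l268 (L l318 (T t2355 (L l236 (L l402 (T t1591 N))))))))) (K a21 (M a48 (F (L l20 (T t99 (L l402 (T t50 (L l20 (L l47 (L l318 (T t100 N)))))))))) (K a149 (M a16 (F (L l84 (T t666 (L l20 (L l26 (L l339 (L l375 (T t97 (L l26 (L l170 (T t102 N)))))))))))) (K a213 (Fr a170 a255 l476 (Fr a42 a21 l68 (Fr a106 a234 l390 (Fr a192 a149 l519 (V t581))))) (K a42 (M a46 (F (T t1814 (L l390 (L l402 (T t1389 (L l56 (L l378 (T t1390 (L l84 (L l339 (L l378 (L l390 (L l402 (T t1391 N))))))))))))))) (K a106 (M a90 (F (T t2425 (L l26 (L l390 (T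 t126 (L l411 (T t1492 (L l339 (T t2356 N)))))))))) (K a170 (M a102 (F (L l208 (T t1392 (L l26 (L l390 (T t1393 (L l84 (L l208 (L l378 (T t2426 (L l26 (L l208 (L l339 (L l390 (T t1395 N)))))))))))))))) (K a255 (M a16 (F (L l20 (L l26 (T t112 (L l26 (L l289 (L l296 (T t98 (L l20 (L l289 (L l318 (T t113 N))))))))))))) N))))))))))))))))))))))))⟩
def e0_63__74_21 : Ent 4 := ⟨[a0, a63], [a74, a35], (M a149 (F (T t25 (L l339 (T t175 (T t176 (L l84 (L l130 (T t177 (K a192 (M a15 (F (T t1071 (L l27 (L l268 (T t1026 (L l296 (L l318 (T t1030 (L l27 (L l268 (L l296 (T t1031 N))))))))))))) (K a21 (M a48 (F (T t16 (L l130 (T t13 (L l18 (L l403 (T t14 N)))))))) (K a85 (M a16 (F (L l20 (T t504 (L l20 (L l130 (L l144 (T t190 (L l94 (L l130 (T t278 N))))))))))) (K a213 (Fr a106 a192 l519 (Fr a42 a21 l68 (Fr a170 a234 l390 (Fr a255 a85 l476 (V t582))))) (K a42 (M a48 (F (L l54 (T t16 (L l130 (L l390 (T t13 (L l54 (L l403 (T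 t14 N)))))))))) (K a106 (M a90 (F (L l390 (T t1072 (L l27 (L l411 (T t1040 (L l390 (T t1073 (L l27 (L l318 (L l390 (L l411 (T t1074 (L l27 (L l318 (L l411 (T t1075 N)))))))))))))))))) (K a170 (M a48 (F (T t184 (L l27 (T t607 (L l130 (L l390 (T t13 N)))))))) (K a191 (M a16 (F (L l20 (T t112 (L l213 (T t191 (L l20 (L l213 (T t192 N))))))))) (K a255 (M a16 (F (L l20 (T t112 (L l289 (L l296 (T t191 (L l20 (T t192 N))))))))) N))))))))))))))))))⟩
def e0_63__74_22 : Ent 4 := ⟨[a0, a63], [a74, a37], (M a85 (F (L l47 (T t52 (L l28 (L l84 (L l339 (T t88 (L l28 (L l84 (L l130 (T t89 (L l84 (L l339 (T t90 (K a64 (M a12 (L l84 (F (T t2427 (L l47 (T t122 (T t124 (K a69 (M a79 (F (T t124 (L l28 (T t572 N))))) (K a79 (M a69 (F (T t1368 (L l28 (L l137 (L l318 (T t2428 N))))))) N))))))))) (K a192 (M a15 (F (L l268 (T t2429 (L l236 (T t1591 (L l28 (L l296 (L l318 (T t1484 (K a255 (Fr a21 a42 l68 (Fr a5 a10 l8 (Fr a165 a245 l455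 (Fr a240 a90 l483 (Fr a47 a31 l61 (Fr a106 a224 l411 (V t2430))))))) N))))))))))) (K a21 (M a60 (L l47 (F (T t936 (T t114 (L l65 (L l336 (T t523 (K a5 (M a53 (F (T t936 (L l50 (L l71 (T t937 N)))))) (K a53 (M a5 (F (T t2431 (L l18 (L l318 (L l419 (T t1402 N))))))) N)))))))))) (K a149 (M a4 (F (T t1371 (L l28 (L l495 (T t519 (L l21 (L l28 (L l202 (T t1372 N)))))))))) (K a213 (Fr a170 a255 l476 (Fr a42 a21 l68 (Fr a106 a234 l390 (Fr a192 a149 l519 (V t581))))) (K a42 (M a47 (F (L l54 (L l318 (T t1403 (L l390 (T t1404 (L l54 (L l318 (T t1405 (L l47 (L l84 (L l130 (L l390 (T t2424 N))))))))))))))) (K a106 (M a90 (F (T t1491 (L l28 (L l390 (T t126 (L l28 (L l47 (L l411 (T t1492 (L l47 (L l75 (L l339 (T t2432 N)))))))))))))) (K a170 (M a4 (F (L l464 (T t130 (L l28 (L l390 (T t131 (L l28 (L l390 (L l464 (T t519 (L l464 (T t938 N))))))))))))) (K a255 (M a4 (F (L l28 (T t129 (L l265 (T t130 (L l28 (L l265 (L l296 (T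 t131 N)))))))))) N))))))))))))))))))))))))⟩
def e0_63__74_23 : Ent 4 := ⟨[a0, a63], [a74, a38], (M a149 (F (L l26 (T t25 (L l50 (L l339 (T t175 (L l26 (T t176 (L l84 (L l130 (T t177 (K a192 (M a15 (F (L l50 (T t1071 (L l268 (T t1026 (L l26 (L l296 (L l318 (T t1030 (L l26 (L l268 (L l296 (T t1031 N)))))))))))))) (K a21 (M a48 (L l50 (F (T t16 (L l130 (T t13 (L l18 (T t14 (K a4 (M a55 (F (T t16 (L l15 (L l310 (T t2433 N)))))) (K a55 (M a4 (F (T t184 (L l18 (L l29 (T t518 N)))))) N)))))))))) (K a85 (M a16 (F (L l26 (T t504 (L l130 (L l144 (T t190 (L l26 (L l72 (L l94 (L l130 (T t278 N)))))))))))) (K a213 (Fr a106 a192 l519 (Fr a42 a21 l68 (Fr a170 a234 l390 (Fr a255 a85 l476 (V t582))))) (K a42 (M a34 (F (L l56 (T t281 (L l130 (L l390 (T t280 (L l56 (T t2434 (L l50 (L l84 (L l130 (L l321 (L l390 (T t282 N))))))))))))))) (K a106 (M a90 (F (L l411 (T t1040 (L l26 (L l390 (T t1072 (L l26 (L l390 (T t1073 (L l26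 (L l318 (L l390 (L l411 (T t1074 (L l318 (L l411 (T t1075 N)))))))))))))))))) (K a170 (M a48 (F (T t184 (L l50 (T t607 (L l130 (L l390 (T t13 N)))))))) (K a191 (M a16 (F (L l26 (T t112 (L l130 (T t190 (L l26 (L l213 (T t191 N))))))))) (K a255 (M a16 (F (T t192 (L l26 (T t112 (L l26 (L l289 (L l296 (T t191 N))))))))) N)))))))))))))))))))))⟩
def e0_63__74_24 : Ent 4 := ⟨[a0, a63], [a74, a39], (M a60 (F (T t68 (L l27 (T t67 (L l49 (T t43 (T t69 (K a20 (M a48 (F (T t138 (L l11 (L l14 (L l318 (T t48 (L l11 (L l49 (T t235 N)))))))))) (K a40 (M a48 (F (T t246 (L l318 (T t48 (L l49 (L l52 (T t235 N)))))))) (K a21 (M a192 (F (T t72 (L l347 (T t73 (L l347 (T t74 N))))))) (K a41 (M a192 (F (T t77 (L l65 (T t35 (T t73 N)))))) (K a61 (M a192 (F (T t72 (L l65 (L l515 (T t35 (L l130 (T t80 N)))))))) (K a22 (M a192 (F (T t72 (T t21 (T t73 N))))) (K a42 (M a192 (F (T t79 (T t73 (L l22 (T t74 N)))))) (K a62 (M a192 (F (T t72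 (T t35 (L l66 (L l130 (L l516 (T t80 N)))))))) (K a3 (M a192 (F (T t614 (L l477 (T t79 (L l475 (T t35 N))))))) N)))))))))))))))))⟩
def e0_63__74_25 : Ent 4 := ⟨[a0, a63], [a74, a43], (M a12 (F (T t122 (L l22 (T t151 (L l55 (T t152 (L l22 (T t153 (K a4 (M a60 (F (L l22 (T t69 (L l336 (L l339 (T t398 (L l22 (T t2435 N))))))))) (K a8 (M a60 (F (T t835 (L l22 (L l56 (T t69 (L l22 (L l56 (T t2435 N))))))))) (K a21 (M a192 (F (T t156 (L l15 (L l347 (T t450 (L l15 (L l347 (T t157 N))))))))) (K a25 (M a192 (F (T t156 (L l15 (T t450 (T t21 N)))))) (K a29 (M a192 (F (T t156 (L l371 (T t21 (L l22 (L l78 (L l130 (L l393 (T t160 N)))))))))) (K a38 (M a192 (F (T t156 (T t450 (T t21 N))))) (K a42 (M a192 (L l22 (F (T t156 (T t450 (L l56 (T t157 (K a40 (M a41 (F (T t156 (T t450 (L l84 (L l130 (L l390 (L l393 (T t681 N))))))))) (K a41 (M a40 (F (T t156 (L l26 (L l66 (T t2436 N)))))) N))))))))) (K a46 (M a192 (F (T t156 (T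 t21 (L l22 (L l26 (L l78 (L l130 (L l393 (L l408 (T t160 N))))))))))) (K a51 (M a192 (F (T t57 (L l513 (T t156 (L l415 (T t450 N))))))) N))))))))))))))))))⟩
def e0_63__74_26 : Ent 4 := ⟨[a0, a63], [a74, a47], (M a60 (F (T t68 (L l27 (T t67 (L l28 (T t43 (L l28 (T t69 (K a20 (M a48 (F (T t64 (L l28 (L l339 (T t2 (L l28 (L l46 (L l321 (T t287 N)))))))))) (K a40 (M a48 (F (T t64 (L l22 (L l28 (L l339 (T t2 (L l22 (L l28 (L l321 (T t287 N))))))))))) (K a21 (M a192 (F (T t72 (L l347 (L l409 (T t73 (L l347 (T t74 N)))))))) (K a41 (M a192 (F (T t77 (L l65 (T t35 (L l409 (T t73 N))))))) (K a61 (M a192 (F (T t72 (L l65 (L l515 (T t35 (L l28 (L l130 (L l411 (T t80 N)))))))))) (K a22 (M a192 (F (T t72 (T t21 (L l409 (T t73 N)))))) (K a42 (M a48 (L l28 (F (T t64 (L l22 (T t247 (L l23 (L l56 (T t288 (L l22 (L l54 (L l66 (T t289 (K a32 (M a37 (F (L l54 (T t290 (L l66 (L l321 (L l339 (T t291 (T t64 N))))))))) (K a37 (Fr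 a32 a16 l40 (V t292)) N))))))))))))))) (K a62 (M a192 (F (T t72 (T t35 (L l28 (L l66 (L l130 (L l411 (L l516 (T t80 N)))))))))) (K a3 (M a192 (F (T t57 (L l477 (T t79 (L l307 (L l409 (T t73 N)))))))) N))))))))))))))))))⟩
def e0_63__74_27 : Ent 4 := ⟨[a0, a63], [a74, a48], (M a60 (F (T t116 (L l45 (T t67 (L l45 (T t43 (L l45 (T t68 (L l45 (T t69 (K a20 (M a12 (F (T t1252 (L l75 (L l336 (L l339 (T t398 (L l11 (L l46 (T t399 N)))))))))) (K a40 (M a12 (F (T t423 (L l30 (T t122 (L l24 (T t399 N))))))) (K a21 (M a192 (F (L l436 (T t72 (L l347 (L l488 (T t73 (L l347 (T t74 N))))))))) (K a41 (M a192 (F (T t254 (L l65 (L l440 (T t35 (L l488 (T t73 N)))))))) (K a61 (M a192 (F (T t254 (L l65 (L l440 (L l515 (T t35 (L l130 (T t80 N))))))))) (K a22 (M a192 (F (T t614 (L l11 (L l436 (T t79 (L l11 (L l440 (T t35 N))))))))) (K a42 (M a192 (F (T t614 (L l436 (T t79 (L l22 (T t74 N))))))) (K a62 (M a192 (F (T t57 (L l436 (T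 t79 (L l66 (L l130 (L l516 (T t80 N))))))))) (K a3 (M a85 (L l45 (F (T t447 (T t115 (K a33 (M a18 (F (T t447 (T t115 N)))) (K a18 (M a33 (F (T t447 (T t115 N)))) N))))))) N))))))))))))))))))))⟩
def e0_63__74_28 : Ent 4 := ⟨[a0, a63], [a74, a49], (M a149 (F (T t25 (L l339 (T t175 (T t176 (L l84 (L l130 (T t177 (K a192 (M a15 (F (T t1071 (L l268 (T t1026 (L l296 (L l318 (T t1030 (L l268 (L l296 (T t1031 N))))))))))) (K a21 (M a48 (F (T t16 (L l130 (T t13 (L l18 (T t14 N))))))) (K a85 (M a16 (F (T t504 (L l130 (L l144 (T t190 (L l94 (L l130 (T t278 N))))))))) (K a213 (Fr a106 a192 l519 (Fr a42 a21 l68 (Fr a170 a234 l390 (Fr a255 a85 l476 (V t582))))) (K a42 (M a48 (F (L l54 (T t16 (L l130 (L l390 (T t13 (L l54 (T t14 N))))))))) (K a106 (M a90 (F (L l390 (T t1072 (L l411 (T t1040 (L l390 (T t1073 (L l35 (L l318 (L l390 (L l411 (T t1074 (L l318 (L l411 (T t1075 N)))))))))))))))) (K a170 (M a48 (F (T t184 (L l35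 (T t607 (L l130 (L l390 (T t13 N)))))))) (K a191 (M a16 (F (T t112 (L l130 (T t190 (L l213 (T t191 N))))))) (K a255 (M a16 (F (T t112 (L l130 (L l266 (T t190 (L l289 (L l296 (T t191 N))))))))) N))))))))))))))))))⟩
def e0_63__74_29 : Ent 4 := ⟨[a0, a63], [a74, a50], (M a149 (F (T t25 (L l339 (T t175 (T t176 (L l84 (L l130 (T t177 (K a192 (M a15 (F (T t2354 (L l268 (T t1026 (L l296 (L l318 (T t1030 (L l268 (L l296 (T t1031 N))))))))))) (K a21 (M a48 (F (L l36 (T t184 (L l130 (T t13 (L l18 (L l36 (T t14 N))))))))) (K a85 (M a16 (F (L l36 (T t504 (L l130 (L l144 (T t190 (L l72 (L l94 (L l130 (T t278 N))))))))))) (K a213 (Fr a106 a192 l519 (Fr a42 a21 l68 (Fr a170 a234 l390 (Fr a255 a85 l476 (V t582))))) (K a42 (M a48 (F (L l36 (L l54 (T t184 (L l130 (L l390 (T t13 (L l36 (L l54 (T t14 N))))))))))) (K a106 (M a90 (F (L l390 (T t1072 (L l411 (T t1040 (L l390 (T t1073 (L l318 (L l390 (L l411 (T t1074 (L l318 (L l411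 (T t1075 N))))))))))))))) (K a170 (M a48 (F (T t607 (L l36 (L l206 (L l510 (T t16 (L l130 (L l390 (T t13 N)))))))))) (K a191 (M a16 (F (L l339 (T t97 (L l130 (T t190 (L l213 (T t191 N)))))))) (K a255 (M a16 (F (L l36 (T t112 (L l130 (L l266 (T t190 (L l289 (L l296 (T t191 N)))))))))) N))))))))))))))))))⟩
def e0_63__74_30 : Ent 4 := ⟨[a0, a63], [a74, a51], (M a60 (F (T t116 (L l43 (T t67 (L l43 (T t43 (L l43 (T t68 (L l43 (T t69 (K a20 (M a85 (F (T t49 (L l441 (T t114 (T t1344 N)))))) (K a40 (M a85 (F (L l439 (T t52 (L l392 (L l441 (T t114 (L l22 (T t1344 N))))))))) (K a21 (M a192 (F (L l441 (T t72 (L l347 (L l487 (T t73 (L l347 (T t74 N))))))))) (K a41 (M a192 (F (T t254 (L l65 (L l439 (T t35 (L l487 (T t73 N)))))))) (K a61 (M a192 (F (T t254 (L l65 (L l439 (L l515 (T t35 (L l130 (T t80 N))))))))) (K a22 (M a192 (F (T t614 (L l11 (L l441 (T t79 (L l11 (L l439 (T t35 N))))))))) (K a42 (M a192 (F (T t614 (L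 l441 (T t79 (L l22 (T t74 N))))))) (K a62 (M a192 (F (T t57 (L l441 (T t79 (L l66 (L l130 (L l516 (T t80 N))))))))) (K a3 (M a85 (L l43 (F (T t447 (T t115 (K a19 (M a35 (F (T t447 (T t115 N)))) (K a35 (M a19 (F (T t447 (T t115 N)))) N))))))) N))))))))))))))))))))⟩
def e0_63__74_31 : Ent 4 := ⟨[a0, a63], [a74, a53], (M a12 (F (T t151 (L l47 (T t122 (L l47 (T t152 (L l31 (T t153 (K a4 (M a60 (F (T t43 (L l35 (L l336 (L l339 (T t398 (T t448 N)))))))) (K a8 (M a60 (F (T t570 (L l47 (T t67 (L l52 (L l56 (T t448 N)))))))) (K a21 (M a192 (L l47 (F (T t156 (L l15 (L l347 (L l491 (T t450 (L l15 (L l347 (L l491 (T t157 (K a5 (M a37 (F (T t156 (L l15 (L l347 (L l491 (T t450 (L l1 (L l50 (L l84 (L l130 (T t681 N)))))))))))) (K a37 (M a5 (F (T t156 (L l28 (L l318 (T t1107 N)))))) N)))))))))))))) (K a25 (M a192 (F (T t156 (L l15 (L l491 (T t450 (L l491 (T t21 N)))))))) (K a29 (M a192 (F (T t156 (L l371 (L l491 (T t21 (L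 l78 (L l130 (T t160 N))))))))) (K a38 (M a192 (F (T t156 (L l491 (T t450 (L l491 (T t21 N))))))) (K a42 (M a192 (F (T t156 (L l491 (T t450 (L l56 (L l491 (T t157 N)))))))) (K a46 (M a192 (F (T t156 (L l491 (T t21 (L l26 (L l78 (L l130 (L l408 (T t160 N)))))))))) (K a51 (M a192 (F (T t159 (L l415 (L l491 (T t450 (L l439 (L l491 (T t21 N))))))))) N))))))))))))))))))⟩
def e0_63__74_32 : Ent 4 := ⟨[a0, a63], [a74, a54], (M a149 (F (T t25 (L l339 (T t175 (T t176 (L l84 (L l130 (T t177 (K a192 (M a15 (F (T t2354 (L l268 (T t1026 (L l296 (L l318 (T t1030 (L l268 (L l296 (T t1031 N))))))))))) (K a21 (M a48 (F (L l36 (T t16 (L l130 (T t13 (L l18 (L l36 (T t14 N))))))))) (K a85 (M a16 (F (L l36 (T t504 (L l130 (L l144 (T t190 (L l94 (L l130 (T t278 N)))))))))) (K a213 (Fr a106 a192 l519 (Fr a42 a21 l68 (Fr a170 a234 l390 (Fr a255 a85 l476 (V t582))))) (K a42 (M a48 (F (L l36 (L l54 (T t16 (L l130 (L l390 (T t13 (L l36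 (L l54 (T t14 N))))))))))) (K a106 (M a90 (F (L l390 (T t1072 (L l411 (T t1040 (L l390 (T t1073 (L l31 (L l318 (L l390 (L l411 (T t1074 (L l318 (L l411 (T t1075 N)))))))))))))))) (K a170 (M a48 (F (L l36 (T t184 (L l31 (T t607 (L l130 (L l390 (T t13 N))))))))) (K a191 (M a16 (F (L l339 (T t97 (L l130 (T t190 (L l213 (T t191 N)))))))) (K a255 (M a16 (F (L l36 (T t112 (L l130 (L l266 (T t190 (L l289 (L l296 (T t191 N)))))))))) N))))))))))))))))))⟩
def e0_63__74_33 : Ent 4 := ⟨[a0, a63], [a74, a55], (M a60 (F (T t69 (L l50 (T t67 (L l49 (T t43 (L l50 (T t68 (K a20 (M a48 (F (L l31 (T t64 (L l339 (T t2 (L l11 (L l49 (L l50 (T t235 N)))))))))) (K a40 (M a48 (F (L l31 (T t64 (L l22 (L l339 (T t2 (L l49 (L l50 (L l52 (T t235 N))))))))))) (K a21 (M a12 (L l50 (F (L l31 (T t409 (L l15 (L l65 (L l336 (L l339 (T t398 (L l11 (L l15 (L l65 (L l336 (L l339 (T t1665 (L l18 (L l31 (T t2437 (K a4 (M a38 (F (L l15 (T t1669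 (L l11 (T t2438 (L l339 (T t680 N)))))))) (K a38 (Fr a4 a8 l4 (V t1671)) N))))))))))))))))))))) (K a41 (M a192 (F (T t77 (L l50 (L l65 (L l495 (T t35 (L l495 (T t73 N))))))))) (K a61 (M a192 (F (T t72 (L l50 (L l65 (L l495 (L l515 (T t35 (L l130 (L l493 (T t80 N))))))))))) (K a22 (M a192 (F (T t72 (L l495 (T t21 (L l495 (T t73 N))))))) (K a42 (M a192 (F (T t77 (L l495 (T t73 (L l22 (L l495 (T t74 N)))))))) (K a62 (M a192 (F (T t72 (L l50 (L l495 (T t35 (L l66 (L l130 (L l493 (L l516 (T t80 N))))))))))) (K a3 (M a192 (F (T t254 (L l50 (L l475 (L l495 (T t35 (L l307 (L l495 (T t73 N)))))))))) N))))))))))))))))))⟩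
def e0_63__74_34 : Ent 4 := ⟨[a0, a63], [a74, a58], (M a12 (F (T t122 (L l54 (T t151 (L l32 (T t152 (L l54 (T t153 (K a4 (M a60 (F (T t423 (L l46 (L l50 (T t67 (L l54 (T t448 N)))))))) (K a8 (M a60 (F (T t68 (L l336 (L l339 (T t398 (L l52 (L l54 (L l56 (T t448 N)))))))))) (K a21 (M a192 (F (T t156 (L l15 (L l347 (T t450 (L l15 (L l347 (T t157 N))))))))) (K a25 (M a192 (F (T t156 (L l15 (T t450 (T t21 N)))))) (K a29 (M a192 (F (T t156 (L l371 (T t21 (L l54 (L l78 (L l130 (L l498 (T t160 N)))))))))) (K a38 (M a192 (F (T t156 (T t450 (T t21 N))))) (K a42 (M a106 (L l54 (F (T t2414 (L l56 (L l84 (T t2415 (L l78 (L l84 (T t2305 (K a10 (M a26 (L l318 (F (T t2414 (L l2 (L l56 (L l84 (T t2415 (L l78 (L l84 (T t2305 (K a138 (M a202 (F (T t2416 (L l2 (L l56 (L l84 (L l320 (T t2415 (L l78 (L l84 (T t2305 N))))))))))) (K a202 (M a138 (F (T t2419 (L l84 (L l230 (T t2439 N)))))) N))))))))))))) (K a26 (M a10 (F (T t2418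 (L l57 (L l66 (L l321 (T t2421 N))))))) N)))))))))))) (K a46 (M a192 (F (T t156 (T t21 (L l26 (L l54 (L l78 (L l130 (L l408 (L l498 (T t160 N))))))))))) (K a51 (M a192 (F (T t57 (L l513 (T t156 (L l415 (T t450 N))))))) N))))))))))))))))))⟩
def e0_63__74_35 : Ent 4 := ⟨[a0, a63], [a74, a59], (M a60 (F (T t68 (L l55 (T t67 (L l56 (T t43 (L l56 (T t69 (K a20 (M a48 (F (L l32 (T t70 (L l11 (L l318 (L l339 (T t1 (L l46 (L l55 (L l56 (L l321 (T t71 N))))))))))))) (K a40 (M a48 (F (L l32 (T t70 (L l318 (L l339 (T t1 (L l22 (L l24 (L l55 (L l56 (L l321 (T t71 N))))))))))))) (K a21 (M a192 (F (T t72 (L l347 (L l499 (T t73 (L l347 (T t74 N)))))))) (K a41 (M a192 (F (T t77 (L l65 (T t35 (L l499 (T t73 N))))))) (K a61 (M a192 (F (T t72 (L l65 (L l515 (T t35 (L l56 (L l130 (L l501 (T t80 N)))))))))) (K a22 (M a192 (F (T t72 (T t21 (L l499 (T t73 N)))))) (K a42 (M a12 (L l56 (F (L l22 (T t417 (L l336 (L l339 (T t398 (L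 l28 (L l32 (L l336 (T t2440 (L l22 (L l26 (L l66 (L l339 (T t2441 (K a8 (M a25 (F (L l26 (T t2442 (L l66 (T t2443 (L l336 (L l339 (T t398 N))))))))) (K a25 (Fr a8 a4 l4 (V t2444)) N))))))))))))))))))) (K a62 (M a192 (F (T t72 (T t35 (L l56 (L l66 (L l130 (L l501 (L l516 (T t80 N)))))))))) (K a3 (M a192 (F (T t57 (L l477 (T t79 (L l307 (L l499 (T t73 N)))))))) N))))))))))))))))))⟩
def e0_63__74_36 : Ent 4 := ⟨[a0, a63], [a74, a64], (M a60 (L l84 (F (T t67 (T t43 (T t68 (T t69 (K a20 (M a48 (L l84 (F (T t64 (L l11 (L l318 (L l339 (T t1 (L l11 (T t235 (K a69 (M a79 (F (T t451 (L l311 (L l339 (T t2 (L l11 (T t235 N)))))))) (K a79 (M a69 (F (T t451 (L l318 (T t446 N))))) N)))))))))))) (K a40 (M a48 (L l84 (F (T t64 (L l318 (L l339 (T t1 (L l52 (T t235 (K a69 (M a79 (F (T t70 (L l22 (L l311 (L l339 (T t2 (L l52 (T t235 N))))))))) (K a79 (M a69 (F (T t70 (L l318 (T t446 N))))) N))))))))))) (K a21 (M a105 (L l84 (F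 (T t1132 (L l140 (L l339 (T t1128 (L l11 (T t405 (K a69 (M a79 (F (T t1132 (L l140 (L l339 (T t403 (L l11 (T t405 N)))))))) (K a79 (M a69 (F (T t1454 (L l11 (L l318 (T t2445 N)))))) N))))))))))) (K a41 (M a32 (L l84 (F (T t1568 (L l65 (L l339 (T t219 (L l25 (L l65 (T t1569 (K a69 (M a79 (F (T t1568 (L l65 (L l339 (T t219 (L l25 (L l65 (T t1569 N))))))))) (K a79 (M a69 (F (T t1568 (L l137 (L l139 (L l318 (T t452 N))))))) N)))))))))))) (K a61 (M a32 (L l84 (F (T t1573 (L l65 (L l339 (T t219 (L l65 (T t1569 (K a69 (M a79 (F (T t1573 (L l65 (L l339 (T t219 (L l65 (T t1569 N)))))))) (K a79 (M a69 (F (L l318 (T t2446 (L l65 (T t1569 N)))))) N))))))))))) (K a22 (M a16 (L l84 (F (T t2447 (L l66 (L l339 (T t97 (L l16 (L l66 (T t1141 (K a69 (M a79 (F (L l19 (T t1140 (L l66 (L l339 (T t97 (L l16 (L l66 (T t1141 N)))))))))) (K a79 (M a69 (F (T t2447 (L l137 (L l139 (L l318 (T t452 N))))))) N)))))))))))) (K a42 (M a105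 (L l84 (F (T t1129 (L l66 (L l140 (L l339 (T t1128 (L l66 (T t405 (K a69 (M a79 (F (T t404 (L l336 (T t420 (L l66 (T t405 N))))))) (K a79 (M a69 (F (T t404 (L l66 (L l318 (T t455 N)))))) N)))))))))))) (K a62 (M a32 (L l84 (F (T t1573 (L l339 (T t219 (L l60 (T t1569 (K a69 (M a79 (F (T t1573 (L l339 (T t219 (L l60 (T t1569 N))))))) (K a79 (M a69 (F (L l318 (T t2446 (L l60 (T t1569 N)))))) N)))))))))) (K a3 (M a16 (L l84 (F (T t112 (L l9 (T t1140 (T t1141 (K a69 (M a79 (F (T t504 (L l9 (T t1140 (T t1141 N)))))) (K a79 (M a69 (F (T t1574 (L l137 (L l139 (L l318 (L l333 (T t452 N)))))))) N))))))))) (K a69 (M a79 (F (T t67 (T t43 (T t68 (L l329 (T t69 (K a20 (M a15 (F (T t2448 (L l11 (T t732 N))))) (K a40 (M a15 (F (T t2448 (L l24 (T t732 N))))) (K a21 (M a127 (F (T t1461 (T t1462 N)))) (K a41 (M a15 (F (T t1450 (L l25 (L l65 (L l311 (T t1449 N))))))) (K a61 (M a15 (F (T t723 (L l140 (T t1463 N))))) (K a22 (M a15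 (F (T t1450 (L l16 (L l66 (L l318 (T t1451 N))))))) (K a42 (M a127 (F (L l123 (T t1464 (T t1462 N))))) (K a62 (M a15 (F (T t732 (L l140 (L l504 (T t1463 N)))))) (K a3 (M a16 (F (T t504 (L l9 (T t1140 (T t1141 N)))))) N)))))))))))))))) (K a79 (M a69 (F (T t43 (L l137 (L l139 (L l318 (T t452 (K a61 (M a32 (F (L l318 (T t2446 (L l65 (T t1569 N)))))) (K a62 (M a32 (F (L l318 (T t2446 (L l60 (T t1569 N)))))) N))))))))) N))))))))))))))))))⟩
def e0_63__74_37 : Ent 4 := ⟨[a0, a63], [a74, a65], (M a60 (F (T t67 (T t43 (T t68 (L l305 (T t69 (K a20 (M a48 (F (T t64 (L l11 (L l318 (L l339 (T t1 (L l11 (T t235 N))))))))) (K a40 (M a48 (F (T t64 (L l318 (L l339 (T t1 (L l52 (T t235 N)))))))) (K a21 (M a192 (F (T t72 (L l347 (T t73 (L l347 (T t74 N))))))) (K a41 (M a192 (F (T t77 (L l65 (T t35 (T t73 N)))))) (K a61 (M a192 (F (T t72 (L l65 (L l515 (T t35 (L l130 (T t80 N)))))))) (K a22 (M a192 (F (T t72 (T t21 (T t73 N)))))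 (K a42 (M a192 (F (T t79 (T t73 (L l22 (T t74 N)))))) (K a62 (M a192 (F (T t72 (T t35 (L l66 (L l130 (L l516 (T t80 N)))))))) (K a3 (M a85 (F (T t447 (T t115 N)))) N))))))))))))))))⟩
def e0_63__74_38 : Ent 4 := ⟨[a0, a63], [a74, a66], (M a12 (L l82 (F (T t122 (T t151 (T t152 (T t153 (K a4 (M a62 (L l82 (F (T t750 (L l50 (L l306 (L l309 (T t709 (L l50 (L l318 (T t710 (K a70 (M a78 (F (L l46 (L l50 (T t711 (L l142 (T t712 N))))))) (K a78 (M a70 (F (T t750 (L l50 (L l318 (T t751 N)))))) N))))))))))))) (K a8 (M a62 (L l82 (F (T t711 (L l336 (L l339 (T t708 (L l2 (L l318 (T t710 (K a70 (M a78 (F (T t711 (L l142 (T t712 N))))) (K a78 (M a70 (F (T t750 (L l318 (L l320 (T t751 N)))))) N)))))))))))) (K a21 (M a204 (L l82 (F (T t737 (L l76 (L l84 (L l309 (L l339 (T t752 (L l50 (T t753 (L l15 (T t754 (K a70 (M a78 (F (T t735 (L l65 (L l309 (L l318 (L l336 (T t755 N)))))))) (K a78 (M a70 (F (T t735 (L l318 (L l324 (T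 t756 N)))))) N))))))))))))))) (K a25 (M a3 (L l82 (F (L l15 (T t353 (L l321 (L l339 (T t757 (L l53 (L l56 (T t758 (K a70 (M a78 (F (L l15 (T t353 (L l71 (L l306 (L l312 (L l330 (L l339 (T t759 (L l53 (L l56 (T t758 N))))))))))))) (K a78 (M a70 (F (L l321 (T t760 (L l53 (L l56 (T t758 N))))))) N))))))))))))) (K a29 (M a3 (L l82 (F (T t137 (L l339 (T t761 (T t758 (K a70 (M a78 (F (T t137 (L l312 (L l321 (L l339 (T t757 (T t758 N)))))))) (K a78 (M a70 (F (T t137 (L l76 (L l78 (T t762 N)))))) N))))))))) (K a38 (M a62 (L l82 (F (T t750 (L l50 (L l306 (L l309 (T t709 (L l48 (L l50 (L l318 (T t710 (K a70 (M a78 (F (L l50 (T t711 (L l142 (T t712 N)))))) (K a78 (M a70 (F (T t750 (L l48 (L l50 (L l318 (T t751 N))))))) N)))))))))))))) (K a42 (M a204 (L l82 (F (T t735 (L l76 (L l84 (L l309 (L l339 (T t752 (L l26 (T t763 (L l56 (T t764 (K a70 (M a78 (F (T t765 (L l54 (L l309 (L l318 (L l336 (T t755 N)))))))) (K a78 (M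 a70 (F (T t765 (L l318 (L l324 (T t756 N)))))) N))))))))))))))) (K a46 (M a3 (L l82 (F (T t353 (L l339 (T t761 (L l26 (T t758 (K a70 (M a78 (F (T t353 (L l306 (L l312 (L l330 (L l339 (T t759 (L l26 (T t758 N)))))))))) (K a78 (M a70 (F (T t353 (L l76 (L l78 (T t762 N)))))) N)))))))))) (K a51 (M a62 (L l82 (F (T t711 (L l73 (L l336 (L l339 (T t708 (L l318 (T t710 (K a70 (M a78 (F (T t711 (L l142 (T t712 N))))) (K a78 (M a70 (F (T t750 (L l318 (T t751 N))))) N)))))))))))) (K a70 (M a78 (F (T t122 (T t151 (T t152 (T t153 (K a4 (M a204 (F (T t735 (L l50 (T t736 N))))) (K a8 (M a204 (F (T t737 (T t736 N)))) (K a21 (M a76 (F (T t738 (L l76 (L l84 (L l318 (L l330 (T t739 N)))))))) (K a25 (M a76 (F (T t738 (L l76 (L l84 (L l318 (L l330 (T t739 N)))))))) (K a29 (M a204 (F (T t740 (L l76 (L l84 (T t741 N)))))) (K a38 (M a76 (F (T t738 (L l76 (L l84 (L l318 (L l330 (T t739 N)))))))) (K a42 (M a76 (F (T t738 (L l76 (L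 l84 (L l318 (L l330 (T t739 N)))))))) (K a46 (M a204 (F (T t742 (L l76 (L l84 (T t741 N)))))) (K a51 (M a76 (F (T t743 (L l76 (L l84 (L l318 (L l330 (L l487 (T t739 N))))))))) N))))))))))))))) (K a78 (M a70 (F (T t122 (T t151 (T t152 (T t153 (K a4 (M a204 (F (T t765 (L l318 (L l324 (T t756 N)))))) (K a8 (M a204 (F (T t765 (L l316 (L l318 (L l320 (L l324 (T t756 N)))))))) (K a21 (M a68 (F (T t766 (L l15 (T t767 N))))) (K a25 (M a132 (F (L l56 (T t768 (L l78 (L l130 (L l142 (T t769 N)))))))) (K a29 (M a132 (F (T t768 (L l15 (L l78 (L l371 (T t770 N))))))) (K a38 (M a68 (F (T t767 (L l76 (L l318 (L l324 (T t771 N))))))) (K a42 (M a68 (F (T t767 (L l76 (L l318 (L l324 (T t771 N))))))) (K a46 (M a132 (F (T t768 (L l78 (T t770 N))))) (K a51 (M a68 (F (T t772 (L l439 (T t767 N))))) N))))))))))))))) N))))))))))))))))))⟩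
def e0_63__74_39 : Ent 4 := ⟨[a0, a63], [a74, a67], (M a149 (F (T t25 (L l339 (T t175 (T t176 (L l76 (L l84 (L l130 (T t177 (K a192 (M a15 (F (T t1071 (L l268 (T t1026 (L l296 (L l318 (T t1030 (L l268 (L l296 (T t1031 N))))))))))) (K a21 (M a48 (F (T t16 (L l121 (L l130 (T t13 (L l18 (T t14 N)))))))) (K a85 (M a16 (F (T t504 (L l130 (L l144 (T t190 (L l94 (L l130 (T t278 N))))))))) (K a213 (Fr a106 a192 l519 (Fr a42 a21 l68 (Fr a170 a234 l390 (Fr a255 a85 l476 (V t582))))) (K a42 (M a48 (F (L l54 (T t16 (L l121 (L l130 (L l390 (T t13 (L l54 (T t14 N)))))))))) (K a106 (M a90 (F (L l390 (T t1072 (L l411 (T t1040 (L l390 (T t1073 (L l318 (L l390 (L l411 (T t1074 (L l318 (L l411 (T t1075 N))))))))))))))) (K a170 (M a48 (F (T t184 (T t607 (L l121 (L l130 (L l390 (T t13 N)))))))) (K a191 (M a252 (F (T t1076 (L l130 (T t940 N))))) (K a255 (M a16 (F (T t112 (L l130 (L l266 (T t190 (L l289 (L l296 (T t191 N)))))))))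 N)))))))))))))))))))⟩
def e0_63__74_40 : Ent 4 := ⟨[a0, a63], [a74, a69], (M a85 (L l84 (F (T t52 (T t168 (L l339 (T t352 (K a192 (M a15 (L l84 (F (T t1483 (L l296 (L l311 (L l318 (T t1484 (L l318 (L l484 (T t716 (K a64 (M a79 (F (T t1485 (L l296 (L l311 (L l318 (T t1484 (L l484 (T t732 N))))))))) (K a79 (M a64 (F (T t359 (L l318 (L l484 (T t716 N)))))) N))))))))))))) (K a21 (M a12 (L l84 (F (T t1368 (T t124 (L l15 (T t574 (K a64 (M a79 (F (T t1366 (T t124 (L l15 (T t1486 (L l15 (L l339 (T t1487 N))))))))) (K a79 (M a64 (F (T t359 (L l79 (T t1488 N))))) N))))))))) (K a149 (M a4 (L l84 (F (T t1371 (L l495 (T t519 (L l202 (T t1372 (K a64 (M a79 (F (T t1489 (L l495 (T t519 (L l202 (T t1372 N))))))) (K a79 (M a64 (F (L l220 (T t359 (L l495 (T t519 N)))))) N)))))))))) (K a213 (Fr a170 a255 l476 (Fr a42 a21 l68 (Fr a106 a234 l390 (Fr a192 a149 l519 (V t581))))) (K a42 (M a12 (L l84 (F (L l56 (T t1368 (L l390 (T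 t124 (L l56 (T t574 (K a64 (M a79 (F (L l56 (T t1366 (L l390 (T t124 (L l26 (L l56 (T t1490 (L l56 (L l339 (T t1487 N)))))))))))) (K a79 (M a64 (F (T t367 (L l56 (T t1366 N))))) N))))))))))) (K a106 (M a90 (L l84 (F (T t1491 (L l390 (T t126 (L l311 (L l411 (T t1492 (L l311 (L l339 (T t1493 (K a64 (M a79 (F (T t1491 (L l116 (L l390 (T t126 (L l311 (L l411 (T t1492 (L l116 (T t1494 N))))))))))) (K a79 (M a64 (F (L l390 (T t373 (L l137 (L l411 (T t1495 (L l137 (T t1496 N))))))))) N)))))))))))))) (K a170 (M a15 (L l84 (F (L l311 (T t731 (L l318 (L l462 (T t1497 (L l311 (L l318 (L l390 (L l462 (T t1484 (L l390 (T t1498 (K a64 (M a79 (F (T t1499 (L l311 (L l318 (L l390 (L l462 (T t1484 N)))))))) (K a79 (M a64 (F (L l220 (T t367 (L l311 (T t731 N)))))) N))))))))))))))))) (K a234 (Fr a170 a255 l476 (Fr a21 a42 l68 (Fr a149 a213 l347 (Fr a192 a106 l519 (V t583))))) (K a255 (M a1 (L l84 (F (T t538 (L l261 (T t263 (L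 l81 (L l261 (L l296 (T t1500 (K a64 (M a79 (F (T t1501 (L l76 (L l81 (L l261 (L l296 (T t1500 (L l261 (L l296 (L l339 (T t1502 N)))))))))))) (K a79 (M a64 (F (T t367 (L l434 (T t534 N))))) N)))))))))))) (K a64 (M a79 (F (L l116 (T t1503 (L l116 (T t1504 (L l311 (T t1505 (L l116 (T t1506 (K a128 (Fr a255 a170 l476 (Fr a21 a42 l68 (Fr a149 a213 l347 (V t1507)))) (K a149 (M a4 (F (T t1489 (L l495 (T t519 (L l202 (T t1372 N))))))) (K a170 (M a15 (F (T t1499 (L l311 (L l318 (L l390 (L l462 (T t1484 N)))))))) (K a95 (M a48 (F (T t50 (L l361 (T t568 N))))) (K a111 (M a48 (F (T t50 (T t1508 N)))) (K a127 (M a4 (F (T t1509 (T t519 (L l77 (L l80 (T t131 N))))))) (K a191 (M a4 (F (T t1510 (T t519 (L l77 (L l80 (L l189 (T t131 N)))))))) (K a255 (M a1 (F (T t1501 (L l76 (L l81 (L l261 (L l296 (T t1500 (L l261 (L l296 (L l339 (T t1502 N)))))))))))) N)))))))))))))))))) (K a79 (M a64 (F (T t367 (T t359 (L l339 (T t390 N))))))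 N))))))))))))))))))⟩
def e0_63__74_41 : Ent 4 := ⟨[a0, a63], [a74, a70], (M a12 (L l82 (F (T t122 (T t151 (T t152 (T t153 (K a4 (M a62 (L l82 (F (T t750 (L l50 (L l330 (L l333 (T t709 (L l50 (L l318 (T t710 (K a66 (M a78 (F (L l46 (L l50 (T t711 (L l142 (T t712 N))))))) (K a78 (M a66 (F (T t750 (L l50 (L l136 (T t1868 N)))))) N))))))))))))) (K a8 (M a62 (L l82 (F (T t711 (L l336 (L l339 (T t708 (L l2 (L l318 (T t710 (K a66 (M a78 (F (T t711 (L l142 (T t712 N))))) (K a78 (M a66 (F (T t750 (L l136 (T t1868 N))))) N)))))))))))) (K a21 (M a192 (L l82 (F (L l347 (T t467 (L l85 (L l333 (T t156 (L l15 (L l347 (T t157 (K a66 (M a78 (F (L l347 (T t467 (L l78 (L l315 (L l333 (T t468 (L l15 (L l347 (T t157 N))))))))))) (K a78 (M a66 (F (L l347 (T t467 (L l65 (L l336 (T t1869 N))))))) N))))))))))))) (K a25 (M a192 (L l82 (F (T t467 (L l85 (L l333 (T t156 (T t21 (K a66 (M a78 (F (T t467 (L l56 (L l78 (L l315 (L l333 (T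 t468 (L l15 (T t35 N)))))))))) (K a78 (M a66 (F (T t467 (L l336 (T t1869 N))))) N)))))))))) (K a29 (M a192 (L l82 (F (L l371 (T t21 (L l85 (L l333 (T t156 (L l78 (L l130 (T t160 (K a66 (M a78 (F (L l371 (T t21 (L l78 (L l315 (L l333 (T t468 (L l15 (L l371 (T t776 N))))))))))) (K a78 (M a66 (F (T t205 (L l79 (L l85 (T t159 N)))))) N))))))))))))) (K a38 (M a62 (L l82 (F (T t750 (L l50 (L l330 (L l333 (T t709 (L l48 (L l50 (L l318 (T t710 (K a66 (M a78 (F (L l50 (T t711 (L l142 (T t712 N)))))) (K a78 (M a66 (F (T t750 (L l48 (L l50 (L l136 (T t1868 N))))))) N)))))))))))))) (K a42 (M a192 (L l82 (F (T t450 (L l85 (L l333 (T t156 (L l56 (T t157 (K a66 (M a78 (F (T t467 (L l56 (L l78 (L l315 (L l333 (T t468 (L l56 (T t157 N)))))))))) (K a78 (M a66 (F (T t450 (L l336 (T t1869 N))))) N))))))))))) (K a46 (M a192 (L l82 (F (T t21 (L l85 (L l333 (T t156 (L l26 (L l78 (L l130 (L l408 (T t160 (K a66 (M a78 (F (T t35 (L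 l78 (L l315 (L l333 (T t468 (T t776 N)))))))) (K a78 (M a66 (F (T t21 (L l312 (L l321 (L l327 (T t1870 N))))))) N)))))))))))))) (K a51 (M a62 (L l82 (F (T t711 (L l73 (L l336 (L l339 (T t708 (L l318 (T t710 (K a66 (M a78 (F (T t711 (L l142 (T t712 N))))) (K a78 (M a66 (F (T t750 (L l136 (T t1868 N))))) N)))))))))))) (K a66 (M a78 (F (T t122 (T t151 (T t152 (T t153 (K a4 (M a204 (F (T t735 (L l50 (T t736 N))))) (K a8 (M a204 (F (T t737 (T t736 N)))) (K a21 (M a76 (F (T t738 (L l76 (L l84 (L l318 (L l330 (T t739 N)))))))) (K a25 (M a76 (F (T t738 (L l76 (L l84 (L l318 (L l330 (T t739 N)))))))) (K a29 (M a204 (F (T t740 (L l76 (L l84 (T t741 N)))))) (K a38 (M a76 (F (T t738 (L l76 (L l84 (L l318 (L l330 (T t739 N)))))))) (K a42 (M a76 (F (T t738 (L l76 (L l84 (L l318 (L l330 (T t739 N)))))))) (K a46 (M a204 (F (T t742 (L l76 (L l84 (T t741 N)))))) (K a51 (M a76 (F (T t743 (L l76 (L l84 (L l318 (L l330 (L l487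 (T t739 N))))))))) N))))))))))))))) (K a78 (M a66 (F (T t122 (T t151 (T t152 (T t153 (K a4 (M a192 (F (T t450 (L l336 (T t1869 N))))) (K a8 (M a192 (F (T t450 (L l336 (T t1869 N))))) (K a21 (M a64 (F (L l130 (T t746 (L l79 (L l85 (L l312 (L l336 (T t1871 N))))))))) (K a25 (M a64 (F (T t397 (L l79 (L l85 (L l312 (L l336 (T t1871 N)))))))) (K a29 (M a64 (F (L l371 (T t397 (L l79 (L l85 (L l312 (L l336 (T t1871 N))))))))) (K a38 (M a64 (F (T t397 (L l79 (L l85 (L l312 (L l336 (T t1871 N)))))))) (K a42 (M a192 (F (T t450 (L l336 (T t1869 N))))) (K a46 (M a64 (F (T t397 (L l79 (L l85 (L l312 (L l336 (T t1871 N)))))))) (K a51 (M a64 (F (T t1872 (L l79 (L l85 (L l312 (L l336 (L l511 (T t1871 N))))))))) N))))))))))))))) N))))))))))))))))))⟩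
def e0_63__74_42 : Ent 4 := ⟨[a0, a63], [a74, a71], (M a149 (F (T t25 (L l339 (T t175 (T t176 (L l84 (L l130 (T t177 (K a192 (M a15 (F (T t1071 (L l268 (T t1026 (L l296 (L l318 (T t1030 (L l268 (L l296 (T t1031 N))))))))))) (K a21 (M a48 (F (T t16 (L l130 (T t13 (L l18 (T t14 N))))))) (K a85 (M a16 (F (T t504 (L l130 (L l144 (T t190 (L l94 (L l130 (T t278 N))))))))) (K a213 (Fr a106 a192 l519 (Fr a42 a21 l68 (Fr a170 a234 l390 (Fr a255 a85 l476 (V t582))))) (K a42 (M a48 (F (L l54 (T t16 (L l130 (L l390 (T t13 (L l54 (T t14 N))))))))) (K a106 (M a90 (F (L l390 (T t1072 (L l411 (T t1040 (L l390 (T t1073 (L l318 (L l390 (L l411 (T t1074 (L l318 (L l411 (T t1075 N))))))))))))))) (K a170 (M a48 (F (T t607 (L l206 (T t16 (L l130 (L l390 (T t13 N)))))))) (K a191 (M a204 (F (T t1066 (L l130 (T t1283 N))))) (K a255 (M a16 (F (T t112 (L l130 (L l266 (T t190 (L l289 (L l296 (T t191 N))))))))) N))))))))))))))))))⟩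
def e0_63__74_43 : Ent 4 := ⟨[a0, a63], [a74, a75], (M a60 (L l78 (F (T t67 (T t43 (T t68 (T t69 (K a20 (M a12 (L l78 (F (T t151 (L l336 (L l337 (L l339 (T t398 (L l11 (L l46 (T t399 (K a72 (M a73 (F (T t151 (L l336 (L l350 (T t401 N)))))) (K a73 (M a72 (F (T t151 (L l133 (L l346 (T t2449 N)))))) N))))))))))))) (K a40 (M a12 (L l78 (F (T t122 (L l336 (L l337 (L l339 (T t398 (L l24 (T t399 (K a72 (M a73 (F (T t152 (L l336 (T t401 N))))) (K a73 (M a72 (F (T t152 (L l133 (T t2449 N))))) N)))))))))))) (K a21 (M a192 (L l78 (F (T t72 (L l131 (L l337 (L l347 (T t73 (L l347 (T t74 (K a72 (M a73 (F (T t77 (L l128 (L l130 (L l132 (L l337 (T t75 (L l347 (T t74 N)))))))))) (K a73 (M a72 (F (T t77 (L l131 (L l347 (T t2450 N)))))) N)))))))))))) (K a41 (M a8 (L l78 (F (T t454 (L l65 (T t414 (L l53 (L l65 (T t415 (K a72 (M a73 (F (L l65 (T t414 (L l318 (T t416 N)))))) (K a73 (M a72 (F (T t454 (L l53 (L l65 (L l131 (T t2451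 N))))))) N))))))))))) (K a61 (M a8 (L l78 (F (T t413 (L l65 (T t414 (L l65 (T t415 (K a72 (M a73 (F (L l65 (T t414 (L l318 (L l443 (T t416 N))))))) (K a73 (M a72 (F (T t413 (L l65 (L l131 (T t2451 N)))))) N)))))))))) (K a22 (M a4 (L l78 (F (T t1624 (L l66 (T t519 (L l48 (L l66 (T t1623 (K a72 (M a73 (F (L l316 (L l337 (T t2452 (L l48 (L l66 (T t1623 N)))))))) (K a73 (M a72 (F (L l320 (L l339 (T t2453 (L l48 (L l66 (T t1623 N)))))))) N))))))))))) (K a42 (M a192 (L l78 (F (T t77 (L l131 (L l337 (T t73 (L l22 (T t74 (K a72 (M a73 (F (T t77 (L l128 (L l130 (L l132 (L l337 (L l390 (T t75 (L l22 (T t74 N))))))))))) (K a73 (M a72 (F (T t79 (L l131 (T t2450 N))))) N))))))))))) (K a62 (M a4 (L l78 (F (T t1443 (L l66 (T t519 (L l66 (T t1623 (K a72 (M a73 (F (L l316 (L l337 (T t2452 (L l66 (T t1623 N))))))) (K a73 (M a72 (F (L l320 (L l339 (T t2453 (L l66 (T t1623 N))))))) N)))))))))) (K a3 (M a8 (L l78 (F (T t428 (L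 l45 (T t413 (T t415 (K a72 (M a73 (F (T t2407 (L l318 (T t416 N))))) (K a73 (M a72 (F (T t2407 (T t2454 N)))) N))))))))) (K a72 (M a73 (F (T t67 (T t43 (T t68 (T t69 (K a20 (M a12 (F (T t151 (L l336 (L l350 (T t401 N)))))) (K a40 (M a12 (F (T t152 (L l336 (T t401 N))))) (K a21 (M a56 (F (L l47 (T t199 (L l11 (L l318 (T t426 N))))))) (K a41 (M a8 (F (L l65 (T t414 (L l318 (T t416 N)))))) (K a61 (M a8 (F (L l65 (T t414 (L l318 (L l443 (T t416 N))))))) (K a22 (M a4 (F (L l316 (L l337 (T t2452 (L l48 (L l66 (T t1623 N)))))))) (K a42 (M a56 (F (T t427 (L l318 (T t426 N))))) (K a62 (M a4 (F (L l316 (L l337 (T t2452 (L l66 (T t1623 N))))))) (K a3 (M a8 (F (T t2407 (L l318 (T t416 N))))) N))))))))))))))) (K a73 (M a72 (F (T t67 (T t43 (T t68 (T t69 (K a20 (M a192 (F (T t21 (L l133 (L l346 (T t2455 N)))))) (K a40 (M a192 (F (T t35 (L l133 (T t2455 N))))) (K a21 (M a192 (F (T t77 (L l131 (L l347 (T t2450 N)))))) (K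 a41 (M a192 (F (T t79 (L l131 (T t2450 N))))) (K a61 (M a192 (F (T t72 (L l131 (L l515 (T t2450 N)))))) (K a22 (M a192 (F (T t21 (L l133 (T t2455 N))))) (K a42 (M a192 (F (T t79 (L l131 (T t2450 N))))) (K a62 (M a192 (F (T t72 (L l131 (T t2450 N))))) (K a3 (M a192 (F (T t2456 (L l477 (T t72 N))))) N))))))))))))))) N))))))))))))))))))⟩
def e0_63__74_44 : Ent 4 := ⟨[a0, a63], [a74, a79], (M a85 (L l84 (F (T t168 (L l137 (T t52 (L l339 (T t352 (K a192 (M a15 (L l84 (F (T t2354 (L l268 (L l318 (T t2355 (L l137 (L l236 (T t1592 (K a64 (M a69 (F (T t2354 (L l130 (L l151 (L l296 (L l318 (T t2457 (L l296 (T t2458 N)))))))))) (K a69 (M a64 (F (T t359 (L l318 (L l484 (T t716 N)))))) N)))))))))))) (K a21 (M a12 (L l84 (F (T t1368 (L l137 (T t124 (L l15 (L l137 (T t574 (K a64 (M a69 (F (L l325 (T t2459 (L l137 (T t124 N)))))) (K a69 (M a64 (F (T t359 (L l79 (T t1488 N))))) N))))))))))) (K a149 (M a48 (L l84 (F (T t99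 (T t132 (L l137 (L l220 (T t50 (K a64 (M a69 (F (T t1853 (L l375 (T t610 N))))) (K a69 (M a64 (F (L l220 (T t359 (L l318 (L l325 (L l339 (L l491 (T t1 N))))))))) N)))))))))) (K a213 (Fr a170 a255 l476 (Fr a42 a21 l68 (Fr a106 a234 l390 (Fr a192 a149 l519 (V t581))))) (K a42 (M a204 (L l84 (F (T t1684 (L l137 (L l390 (T t1744 (L l137 (T t1691 (K a64 (M a69 (F (T t1684 (L l66 (L l318 (T t2460 N)))))) (K a69 (M a64 (F (T t367 (T t2461 N)))) N))))))))))) (K a106 (M a90 (L l84 (F (L l390 (T t2462 (L l390 (T t126 (L l411 (T t1492 (L l137 (L l325 (L l339 (T t2463 (K a64 (M a69 (F (T t2458 (L l137 (L l390 (T t1799 (L l137 (L l318 (T t2464 N))))))))) (K a69 (M a64 (F (L l390 (T t373 (L l137 (L l411 (T t1495 (L l137 (T t1496 N))))))))) N))))))))))))))) (K a170 (M a48 (L l84 (F (T t607 (L l137 (L l318 (L l404 (T t100 (L l390 (L l404 (T t568 (L l390 (T t51 (K a64 (M a69 (F (T t1853 (T t607 N)))) (K a69 (M a64 (F (L l220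 (T t367 (L l318 (L l462 (T t48 N))))))) N))))))))))))))) (K a234 (Fr a170 a255 l476 (Fr a21 a42 l68 (Fr a149 a213 l347 (Fr a192 a106 l519 (V t583))))) (K a255 (M a4 (L l84 (F (T t129 (L l137 (L l265 (T t130 (L l265 (L l296 (T t131 (K a64 (M a69 (F (T t1604 (L l265 (L l336 (L l440 (T t2465 N))))))) (K a69 (M a64 (F (T t367 (L l439 (T t519 N))))) N)))))))))))) (K a64 (M a69 (F (T t2458 (L l116 (L l318 (T t2466 (L l137 (L l318 (T t2467 (L l130 (L l137 (L l151 (T t2468 (L l151 (T t2469 N))))))))))))))) (K a69 (M a64 (F (T t367 (T t359 (L l339 (T t390 N)))))) N)))))))))))))))))))⟩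
def e0_63__74_45 : Ent 4 := ⟨[a0, a63], [a74, a80], (M a12 (F (T t122 (T t151 (T t152 (T t153 (K a4 (M a60 (F (T t43 (L l336 (L l339 (T t398 (T t448 N))))))) (K a8 (M a60 (F (T t67 (L l336 (L l339 (T t398 (L l52 (L l56 (T t448 N))))))))) (K a21 (M a192 (F (T t156 (L l15 (L l347 (T t450 (L l15 (L l347 (T t157 N))))))))) (K a25 (M a192 (F (T t156 (L l15 (T t450 (T t21 N)))))) (K a29 (M a192 (F (T t156 (L l371 (T t21 (L l78 (L l130 (T t160 N)))))))) (K a38 (M a192 (F (T t156 (T t450 (T t21 N))))) (K a42 (M a192 (F (T t156 (T t450 (L l56 (T t157 N)))))) (K a46 (M a192 (F (T t156 (T t21 (L l26 (L l78 (L l130 (L l408 (T t160 N))))))))) (K a51 (M a192 (F (T t57 (L l513 (T t156 (L l415 (T t450 N))))))) N)))))))))))))))⟩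
def e0_63__74_46 : Ent 4 := ⟨[a0, a63], [a74, a81], (M a12 (F (T t122 (L l341 (T t151 (T t152 (T t153 (K a4 (M a60 (F (T t43 (L l336 (L l339 (T t398 (L l341 (T t448 N)))))))) (K a8 (M a60 (F (T t68 (L l336 (L l339 (T t398 (L l52 (L l56 (L l341 (T t448 N)))))))))) (K a21 (M a192 (F (T t156 (L l15 (L l347 (T t450 (L l15 (L l347 (T t157 N))))))))) (K a25 (M a192 (F (T t156 (L l15 (T t450 (T t21 N)))))) (K a29 (M a192 (F (T t156 (L l371 (T t21 (L l78 (L l130 (T t160 N)))))))) (K a38 (M a192 (F (T t156 (T t450 (T t21 N))))) (K a42 (M a192 (F (T t156 (T t450 (L l56 (T t157 N)))))) (K a46 (M a192 (F (T t156 (T t21 (L l26 (L l78 (L l130 (L l408 (T t160 N))))))))) (K a51 (M a192 (F (T t47 (L l513 (T t156 (L l415 (T t450 N))))))) N))))))))))))))))⟩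
def e0_63__74_47 : Ent 4 := ⟨[a0, a63], [a74, a82], (M a12 (F (T t122 (T t151 (T t152 (T t153 (K a4 (M a60 (F (T t570 (L l46 (L l50 (L l453 (T t67 (T t448 N)))))))) (K a8 (M a60 (F (T t570 (L l453 (T t67 (L l52 (L l56 (T t448 N)))))))) (K a21 (M a192 (F (T t156 (L l15 (L l347 (T t450 (L l15 (L l347 (T t157 N))))))))) (K a25 (M a192 (F (T t156 (L l15 (T t450 (T t21 N)))))) (K a29 (M a192 (F (T t156 (L l371 (T t21 (L l78 (L l130 (T t160 N)))))))) (K a38 (M a192 (F (T t156 (T t450 (T t21 N))))) (K a42 (M a192 (F (T t156 (T t450 (L l56 (T t157 N)))))) (K a46 (M a192 (F (T t156 (T t21 (L l26 (L l78 (L l130 (L l408 (T t160 N))))))))) (K a51 (M a192 (F (T t57 (L l513 (T t156 (L l415 (T t450 N))))))) N)))))))))))))))⟩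
def e0_63__74_48 : Ent 4 := ⟨[a0, a63], [a74, a83], (M a12 (F (T t122 (T t151 (T t152 (T t153 (K a4 (M a60 (F (T t570 (L l46 (L l50 (L l451 (T t67 (T t448 N)))))))) (K a8 (M a60 (F (T t570 (L l451 (T t67 (L l52 (L l56 (T t448 N)))))))) (K a21 (M a192 (F (T t156 (L l15 (L l347 (L l451 (T t450 (L l15 (L l347 (T t157 N)))))))))) (K a25 (M a192 (F (T t156 (L l15 (L l451 (T t450 (T t21 N))))))) (K a29 (M a192 (F (T t156 (L l371 (T t21 (L l78 (L l130 (T t160 N)))))))) (K a38 (M a192 (F (T t156 (L l451 (T t450 (T t21 N)))))) (K a42 (M a192 (F (T t156 (L l451 (T t450 (L l56 (T t157 N))))))) (K a46 (M a192 (F (T t156 (T t21 (L l26 (L l78 (L l130 (L l408 (T t160 N))))))))) (K a51 (M a192 (F (T t57 (L l513 (T t156 (L l415 (L l451 (T t450 N)))))))) N)))))))))))))))⟩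
def e0_63__74_49 : Ent 4 := ⟨[a0, a63], [a74, a85], (M a12 (F (T t153 (L l347 (T t122 (L l365 (T t151 (L l347 (L l458 (T t152 (K a4 (M a60 (L l458 (F (T t43 (L l336 (L l339 (T t398 (L l365 (T t448 (K a166 (M a247 (F (T t43 (L l339 (L l408 (T t680 (L l365 (L l408 (T t448 N))))))))) (K a247 (M a166 (F (T t43 (L l310 (L l339 (T t2470 N)))))) N))))))))))) (K a8 (M a60 (F (T t570 (L l347 (L l350 (T t67 (L l52 (L l56 (L l365 (T t448 N)))))))))) (K a21 (M a149 (F (T t650 (L l130 (L l144 (T t648 (L l50 (L l91 (L l144 (L l458 (T t2471 (L l50 (L l91 (L l458 (T t2472 N))))))))))))))) (K a25 (M a192 (F (T t156 (L l15 (L l347 (T t450 (L l130 (L l144 (L l458 (T t2473 N)))))))))) (K a29 (M a48 (F (T t1580 (L l15 (L l318 (L l339 (L l347 (T t1 (L l455 (T t866 N)))))))))) (K a38 (M a192 (F (T t156 (L l347 (T t450 (L l26 (L l50 (L l130 (L l144 (L l458 (T t2473 N))))))))))) (K a42 (M a192 (F (T t156 (L l347 (T t450 (L l26 (L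 l130 (L l144 (L l390 (L l458 (T t2473 N))))))))))) (K a46 (M a48 (F (T t443 (L l318 (L l339 (L l347 (T t1 (L l26 (L l455 (T t866 N)))))))))) (K a51 (M a192 (F (L l513 (T t156 (L l347 (L l415 (T t450 (L l130 (L l144 (L l458 (T t2473 N))))))))))) N)))))))))))))))))))⟩
def e0_63__74_50 : Ent 4 := ⟨[a0, a63], [a74, a86], (M a12 (F (T t122 (T t151 (T t152 (T t153 (K a4 (M a60 (F (T t662 (L l336 (L l339 (T t398 (L l351 (T t448 N)))))))) (K a8 (M a60 (F (T t570 (L l477 (T t67 (L l52 (L l56 (L l351 (T t448 N))))))))) (K a21 (M a192 (F (T t156 (L l15 (L l347 (L l351 (T t450 (L l15 (L l347 (L l351 (T t157 N))))))))))) (K a25 (M a192 (F (T t156 (L l15 (L l351 (T t450 (L l351 (T t21 N)))))))) (K a29 (M a192 (F (T t156 (L l351 (L l371 (T t21 (L l78 (L l130 (L l142 (T t160 N)))))))))) (K a38 (M a192 (F (T t156 (L l351 (T t450 (L l351 (T t21 N))))))) (K a42 (M a192 (F (T t156 (L l351 (T t450 (L l56 (L l351 (T t157 N))))))))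 (K a46 (M a192 (F (T t156 (L l351 (T t21 (L l26 (L l78 (L l130 (L l142 (L l408 (T t160 N))))))))))) (K a51 (M a192 (F (T t159 (L l351 (L l415 (T t450 (L l351 (L l439 (T t21 N))))))))) N)))))))))))))))⟩
def e0_63__74_51 : Ent 4 := ⟨[a0, a63], [a74, a87], (M a12 (F (T t122 (T t151 (T t152 (T t153 (K a4 (M a60 (F (T t570 (L l46 (L l50 (L l475 (T t67 (L l349 (T t448 N))))))))) (K a8 (M a60 (F (T t570 (L l475 (T t67 (L l52 (L l56 (L l349 (T t448 N))))))))) (K a21 (M a192 (F (T t156 (L l15 (L l347 (T t450 (L l15 (L l347 (L l457 (T t157 N)))))))))) (K a25 (M a192 (F (T t156 (L l15 (T t450 (L l143 (L l475 (T t21 N)))))))) (K a29 (M a192 (F (T t156 (L l143 (L l371 (L l475 (T t21 (L l78 (L l130 (T t160 N)))))))))) (K a38 (M a192 (F (T t156 (T t450 (L l143 (L l475 (T t21 N))))))) (K a42 (M a192 (F (T t156 (T t450 (L l56 (L l457 (T t157 N))))))) (K a46 (M a192 (F (T t156 (L l143 (L l475 (T t21 (L l26 (L l78 (L l130 (L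 l408 (T t160 N))))))))))) (K a51 (M a192 (F (T t161 (L l513 (T t156 (L l143 (L l439 (L l475 (T t21 N))))))))) N)))))))))))))))⟩
def e0_63__74_52 : Ent 4 := ⟨[a0, a63], [a74, a90], (M a12 (L l130 (F (T t122 (T t151 (T t152 (T t153 (K a4 (M a106 (F (T t2414 (L l84 (L l339 (T t586 (L l50 (T t2474 N)))))))) (K a8 (M a106 (F (T t2414 (L l56 (L l84 (L l339 (T t586 (T t2474 N)))))))) (K a21 (M a106 (F (L l15 (T t2414 (L l78 (L l84 (L l347 (L l375 (T t2305 (L l15 (L l84 (T t2415 N)))))))))))) (K a25 (M a106 (F (L l375 (T t564 (L l78 (L l339 (T t2475 (L l15 (L l56 (L l84 (T t2415 N))))))))))) (K a29 (M a106 (F (L l15 (T t778 (L l78 (L l84 (L l371 (L l375 (T t2305 (L l15 (L l78 (T t2476 N)))))))))))) (K a38 (M a106 (F (T t2414 (L l50 (L l94 (T t310 (L l84 (T t2415 N)))))))) (K a42 (M a106 (F (T t2414 (L l56 (L l84 (T t2415 (L l78 (L l84 (L l375 (T t2305 N)))))))))) (K a46 (M a106 (F (T t778 (L l78 (L l84 (L l375 (T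 t2305 (L l78 (T t2476 N))))))))) (K a51 (M a106 (F (T t2477 (L l78 (T t2476 (L l84 (L l339 (L l489 (T t586 N))))))))) (K a106 (M a122 (F (T t122 (T t2478 (K a4 (M a48 (F (L l144 (T t2479 (L l50 (T t146 N)))))) (K a8 (M a48 (F (L l144 (T t2479 (L l52 (T t146 N)))))) N)))))) (K a122 (M a106 (F (T t122 (L l88 (L l108 (T t2419 (L l84 (L l339 (T t586 N))))))))) N))))))))))))))))))⟩
def e0_63__74_53 : Ent 4 := ⟨[a0, a63], [a74, a91], (M a12 (F (T t122 (T t151 (T t152 (T t153 (K a4 (M a60 (F (T t43 (L l336 (L l339 (L l481 (T t398 (T t448 N)))))))) (K a8 (M a60 (F (T t67 (L l336 (L l339 (L l481 (T t398 (L l52 (L l56 (T t448 N)))))))))) (K a21 (M a192 (F (T t156 (L l15 (L l347 (L l481 (T t450 (L l15 (L l347 (T t157 N)))))))))) (K a25 (M a192 (F (T t156 (L l15 (L l481 (T t450 (T t21 N))))))) (K a29 (M a192 (F (T t156 (L l371 (T t21 (L l78 (L l130 (T t160 N)))))))) (K a38 (M a192 (F (T t156 (L l481 (T t450 (T t21 N))))))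 (K a42 (M a192 (F (T t156 (L l481 (T t450 (L l56 (T t157 N))))))) (K a46 (M a192 (F (T t156 (T t21 (L l26 (L l78 (L l130 (L l408 (T t160 N))))))))) (K a51 (M a192 (F (T t47 (L l513 (T t156 (L l415 (L l481 (T t450 N)))))))) N)))))))))))))))⟩
def e0_63__74_54 : Ent 4 := ⟨[a0, a63], [a74, a95], (M a12 (F (T t122 (T t151 (T t152 (T t153 (K a4 (M a60 (F (T t43 (L l336 (L l339 (L l469 (T t398 (T t448 N)))))))) (K a8 (M a60 (F (T t67 (L l336 (L l339 (L l469 (T t398 (L l52 (L l56 (T t448 N)))))))))) (K a21 (M a192 (F (T t156 (L l15 (L l347 (T t450 (L l15 (L l347 (T t157 N))))))))) (K a25 (M a192 (F (T t156 (L l15 (T t450 (L l137 (L l469 (T t21 N)))))))) (K a29 (M a192 (F (T t156 (L l137 (L l371 (L l469 (T t21 (L l78 (L l130 (T t160 N)))))))))) (K a38 (M a192 (F (T t156 (T t450 (L l137 (L l469 (T t21 N))))))) (K a42 (M a192 (F (T t156 (T t450 (L l56 (T t157 N)))))) (K a46 (M a192 (F (T t156 (L l137 (L l469 (T t21 (L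 l26 (L l78 (L l130 (L l408 (T t160 N))))))))))) (K a51 (M a192 (F (T t57 (L l513 (T t156 (L l415 (T t450 N))))))) N)))))))))))))))⟩
def e0_63__74_55 : Ent 4 := ⟨[a0, a63], [a74, a96], (M a12 (F (T t122 (T t151 (T t152 (T t153 (K a4 (M a60 (F (T t43 (L l336 (L l339 (T t398 (T t448 N))))))) (K a8 (M a60 (F (T t67 (L l336 (L l339 (T t398 (L l52 (L l56 (T t448 N))))))))) (K a21 (M a192 (F (T t156 (L l15 (L l347 (T t450 (L l15 (L l347 (T t157 N))))))))) (K a25 (M a192 (F (T t156 (L l15 (T t450 (T t21 N)))))) (K a29 (M a192 (F (T t156 (L l371 (T t21 (L l78 (L l104 (L l130 (T t160 N))))))))) (K a38 (M a192 (F (T t156 (T t450 (T t21 N))))) (K a42 (M a192 (F (T t156 (T t450 (L l56 (T t157 N)))))) (K a46 (M a192 (F (T t156 (T t21 (L l26 (L l78 (L l104 (L l130 (L l408 (T t160 N)))))))))) (K a51 (M a192 (F (T t57 (L l513 (T t156 (L l415 (T t450 N))))))) N)))))))))))))))⟩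
def e0_63__74_56 : Ent 4 := ⟨[a0, a63], [a74, a97], (M a12 (F (T t122 (T t151 (T t152 (T t153 (K a4 (M a60 (F (T t43 (L l336 (L l339 (T t398 (T t448 N))))))) (K a8 (M a60 (F (T t67 (L l336 (L l339 (T t398 (L l52 (L l56 (T t448 N))))))))) (K a21 (M a192 (F (T t156 (L l15 (L l347 (T t450 (L l15 (L l347 (T t157 N))))))))) (K a25 (M a192 (F (T t156 (L l15 (T t450 (T t21 N)))))) (K a29 (M a192 (F (T t156 (L l371 (T t21 (L l78 (L l130 (T t160 N)))))))) (K a38 (M a192 (F (T t156 (T t450 (T t21 N))))) (K a42 (M a192 (F (T t156 (T t450 (L l56 (T t157 N)))))) (K a46 (M a192 (F (T t156 (T t21 (L l26 (L l78 (L l130 (L l408 (T t160 N))))))))) (K a51 (M a192 (F (T t57 (L l513 (T t156 (L l415 (T t450 N))))))) N)))))))))))))))⟩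
def e0_63__74_57 : Ent 4 := ⟨[a0, a63], [a74, a98], (M a60 (F (T t67 (T t43 (T t68 (T t69 (K a20 (M a48 (F (T t138 (L l11 (L l318 (L l339 (T t1 (L l11 (T t235 N))))))))) (K a40 (M a48 (F (T t246 (L l318 (L l339 (T t1 (L l52 (T t235 N)))))))) (K a21 (M a192 (F (T t72 (L l347 (T t73 (L l347 (T t74 N))))))) (K a41 (M a192 (F (T t77 (L l65 (T t35 (T t73 N)))))) (K a61 (M a192 (F (T t72 (L l65 (L l515 (T t35 (L l102 (L l130 (T t80 N))))))))) (K a22 (M a192 (F (T t72 (T t21 (T t73 N))))) (K a42 (M a192 (F (T t79 (T t73 (L l22 (T t74 N)))))) (K a62 (M a192 (F (T t72 (T t35 (L l66 (L l102 (L l130 (L l516 (T t80 N))))))))) (K a3 (M a192 (F (T t47 (L l477 (T t79 (L l307 (T t73 N))))))) N)))))))))))))))⟩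
def e0_63__74_58 : Ent 4 := ⟨[a0, a63], [a74, a99], (M a60 (F (T t67 (T t43 (T t68 (T t69 (K a20 (M a48 (F (T t138 (L l11 (L l318 (L l339 (T t1 (L l11 (T t235 N))))))))) (K a40 (M a48 (F (T t246 (L l318 (L l339 (T t1 (L l52 (T t235 N)))))))) (K a21 (M a192 (F (T t72 (L l103 (L l347 (L l487 (T t73 (L l347 (T t74 N))))))))) (K a41 (M a192 (F (T t79 (L l65 (T t35 (L l103 (L l487 (T t73 N)))))))) (K a61 (M a192 (F (T t72 (L l65 (L l515 (T t35 (L l130 (T t80 N)))))))) (K a22 (M a192 (F (T t72 (T t21 (L l103 (L l487 (T t73 N))))))) (K a42 (M a192 (F (T t77 (L l103 (L l487 (T t73 (L l22 (T t74 N)))))))) (K a62 (M a192 (F (T t72 (T t35 (L l66 (L l130 (L l516 (T t80 N)))))))) (K a3 (M a192 (F (T t57 (L l477 (T t79 (L l103 (L l307 (L l487 (T t73 N))))))))) N)))))))))))))))⟩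
def e0_63__74_59 : Ent 4 := ⟨[a0, a63], [a74, a101], (M a12 (F (T t122 (T t151 (T t152 (T t153 (K a4 (M a60 (F (T t43 (L l336 (L l339 (T t398 (T t448 N))))))) (K a8 (M a60 (F (T t67 (L l336 (L l339 (T t398 (L l52 (L l56 (T t448 N))))))))) (K a21 (M a192 (F (T t156 (L l15 (L l347 (L l491 (T t450 (L l15 (L l347 (L l491 (T t157 N))))))))))) (K a25 (M a192 (F (T t156 (L l15 (L l491 (T t450 (L l491 (T t21 N)))))))) (K a29 (M a192 (F (T t156 (L l371 (L l491 (T t21 (L l78 (L l104 (L l130 (T t160 N)))))))))) (K a38 (M a192 (F (T t156 (L l491 (T t450 (L l491 (T t21 N))))))) (K a42 (M a192 (F (T t156 (L l491 (T t450 (L l56 (L l491 (T t157 N)))))))) (K a46 (M a192 (F (T t156 (L l491 (T t21 (L l26 (L l78 (L l104 (L l130 (L l408 (T t160 N))))))))))) (K a51 (M a192 (F (T t159 (L l415 (L l491 (T t450 (L l439 (L l491 (T t21 N))))))))) N)))))))))))))))⟩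
def e0_63__74_60 : Ent 4 := ⟨[a0, a63], [a74, a102], (M a60 (F (T t67 (T t43 (T t68 (T t69 (K a20 (M a48 (F (T t138 (L l11 (L l318 (L l339 (T t1 (L l11 (T t235 N))))))))) (K a40 (M a48 (F (T t246 (L l318 (L l339 (T t1 (L l52 (T t235 N)))))))) (K a21 (M a192 (F (T t72 (L l347 (L l495 (T t73 (L l347 (L l495 (T t74 N))))))))) (K a41 (M a192 (F (T t77 (L l65 (L l495 (T t35 (L l495 (T t73 N)))))))) (K a61 (M a192 (F (T t72 (L l65 (L l495 (L l515 (T t35 (L l102 (L l130 (T t80 N)))))))))) (K a22 (M a192 (F (T t72 (L l495 (T t21 (L l495 (T t73 N))))))) (K a42 (M a192 (F (T t77 (L l495 (T t73 (L l22 (L l495 (T t74 N)))))))) (K a62 (M a192 (F (T t72 (L l495 (T t35 (L l66 (L l102 (L l130 (L l516 (T t80 N)))))))))) (K a3 (M a192 (F (T t254 (L l475 (L l495 (T t35 (L l307 (L l495 (T t73 N))))))))) N)))))))))))))))⟩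
def e0_63__74_61 : Ent 4 := ⟨[a0, a63], [a74, a103], (M a149 (F (T t25 (L l339 (T t175 (T t176 (L l84 (L l130 (T t177 (K a192 (M a15 (F (T t1071 (L l268 (T t1026 (L l296 (L l318 (T t1030 (L l268 (L l296 (T t1031 N))))))))))) (K a21 (M a48 (F (T t16 (L l130 (T t13 (L l18 (L l403 (T t14 N)))))))) (K a85 (M a16 (F (T t504 (L l130 (L l144 (T t190 (L l94 (L l130 (T t278 N))))))))) (K a213 (Fr a106 a192 l519 (Fr a42 a21 l68 (Fr a170 a234 l390 (Fr a255 a85 l476 (V t582))))) (K a42 (M a48 (F (L l54 (T t16 (L l130 (L l390 (T t13 (L l54 (L l403 (T t14 N)))))))))) (K a106 (M a90 (F (L l390 (T t1072 (L l411 (T t1040 (L l390 (T t1073 (L l318 (L l390 (L l411 (T t1074 (L l318 (L l411 (T t1075 N))))))))))))))) (K a170 (M a48 (F (T t607 (L l206 (T t16 (L l130 (L l390 (T t13 N)))))))) (K a191 (M a204 (F (T t1066 (L l130 (T t1283 N))))) (K a255 (M a16 (F (T t112 (L l130 (L l266 (T t190 (L l289 (L l296 (T t191 N))))))))) N))))))))))))))))))⟩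
def e0_63__74_62 : Ent 4 := ⟨[a0, a63], [a74, a106], (M a12 (L l130 (F (T t122 (L l390 (L l408 (T t151 (L l501 (T t152 (L l390 (T t153 (K a4 (M a28 (L l130 (F (L l50 (T t2480 (L l339 (L l408 (T t2481 (L l46 (L l390 (L l408 (T t2482 (L l390 (L l408 (T t2483 (K a90 (M a122 (F (L l50 (T t2480 (L l339 (L l375 (L l454 (T t2484 (L l46 (L l354 (L l372 (L l390 (L l408 (T t2482 N)))))))))))))) (K a122 (M a90 (F (L l50 (T t2480 (L l408 (L l516 (T t2485 (L l390 (L l408 (T t2483 N)))))))))) N))))))))))))))))) (K a8 (M a28 (L l130 (F (T t2480 (L l339 (L l408 (T t2481 (L l56 (L l390 (L l408 (T t2482 (L l56 (L l390 (L l408 (T t2483 (K a90 (M a122 (F (T t2480 (L l339 (L l375 (T t2484 (L l56 (L l354 (L l372 (L l390 (L l408 (T t2482 N)))))))))))) (K a122 (M a90 (F (T t2480 (L l408 (L l516 (T t2485 (L l56 (L l390 (L l408 (T t2483 N)))))))))) N))))))))))))))))) (K a21 (M a255 (L l130 (F (T t2486 (L l390 (T t2137 (L l50 (L l144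 (L l347 (L l408 (T t2487 (K a90 (M a122 (F (T t2486 (L l88 (L l94 (T t2488 N)))))) (K a122 (M a90 (F (T t2486 (L l339 (L l390 (T t2489 N)))))) N))))))))))))) (K a25 (M a16 (L l130 (F (T t652 (L l56 (L l339 (L l390 (T t97 (L l12 (L l56 (L l390 (L l408 (T t2243 (L l408 (T t2490 (K a90 (M a122 (F (T t652 (T t2478 (L l144 (L l462 (T t2491 N))))))) (K a122 (M a90 (F (T t652 (L l12 (L l56 (L l390 (L l498 (T t2492 (L l56 (L l339 (L l390 (T t97 (L l408 (T t2490 N)))))))))))))) N))))))))))))))))) (K a29 (M a48 (L l130 (F (T t550 (L l15 (L l318 (L l339 (T t1 (L l390 (L l498 (T t866 (K a90 (M a122 (F (T t445 (L l144 (T t2479 N))))) (K a122 (M a90 (F (T t445 (L l339 (L l390 (L l426 (L l498 (T t2 (L l390 (L l426 (L l498 (T t866 N)))))))))))) N))))))))))))) (K a38 (M a32 (L l130 (F (T t682 (L l50 (L l339 (L l411 (T t219 (L l21 (L l50 (T t2493 (T t2494 (K a90 (M a122 (F (T t682 (L l50 (L l465 (T t2495 (L l144 (L l462 (T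 t2496 N))))))))) (K a122 (M a90 (F (T t682 (L l50 (L l339 (L l411 (T t219 (L l21 (L l50 (T t2493 (T t2494 N))))))))))) N)))))))))))))) (K a42 (M a170 (L l130 (F (T t2497 (L l144 (T t2498 (L l26 (L l78 (L l84 (L l132 (L l144 (L l408 (T t2499 (L l26 (L l408 (T t2500 (K a90 (M a122 (F (T t2501 (L l54 (L l94 (L l144 (L l151 (L l498 (T t2502 (L l465 (T t2495 N))))))))))) (K a122 (M a90 (F (T t2497 (L l54 (L l144 (L l318 (L l339 (T t2503 (L l56 (L l339 (L l426 (T t2504 N)))))))))))) N)))))))))))))))))) (K a46 (M a14 (L l130 (L l408 (F (T t727 (L l26 (L l390 (T t2505 (L l26 (L l318 (L l390 (T t2506 (K a226 (M a166 (L l130 (F (T t727 (L l270 (T t2507 (L l272 (L l390 (T t2508 (K a90 (M a122 (F (T t727 (L l88 (L l132 (L l133 (L l516 (T t2509 N)))))))) (K a122 (Fr a90 a242 l480 (V t2510)) N))))))))))) (K a166 (M a226 (L l130 (F (T t727 (L l26 (L l318 (L l390 (T t2506 (L l321 (L l458 (L l498 (L l501 (T t2511 (L l26 (L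 l390 (T t2512 (K a90 (M a122 (F (L l375 (T t2513 (L l88 (L l94 (L l181 (T t2488 N)))))))) (K a122 (M a90 (F (L l318 (T t2514 (L l26 (L l390 (T t2512 (L l321 (L l426 (L l429 (L l458 (L l498 (L l501 (T t2511 N)))))))))))))) N)))))))))))))))))) (K a90 (M a122 (L l408 (F (T t2478 (L l23 (L l26 (L l390 (L l411 (T t2515 (K a226 (M a166 (F (T t727 (L l88 (L l132 (L l133 (L l516 (T t2509 N)))))))) (K a166 (M a226 (F (L l375 (T t2513 (L l88 (L l94 (L l181 (T t2488 N)))))))) N))))))))))) (K a122 (M a90 (L l408 (F (T t2513 (L l396 (L l444 (T t2516 (K a226 (Fr a166 a242 l480 (V t2510)) (K a166 (M a226 (F (L l318 (T t2514 (L l26 (L l390 (T t2512 (L l321 (L l426 (L l429 (L l458 (L l498 (L l501 (T t2511 N)))))))))))))) N))))))))) N)))))))))))))))) (K a51 (M a16 (L l130 (F (T t2517 (L l73 (L l339 (L l390 (T t97 (L l390 (L l408 (T t872 (K a90 (M a122 (F (T t2518 (L l390 (L l498 (T t112 N)))))) (K a122 (M a90 (F (T t652 (L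 l390 (L l498 (T t2492 N)))))) N))))))))))))) (K a90 (M a122 (F (T t122 (T t2478 (K a4 (M a16 (F (L l144 (T t2519 (L l354 (L l372 (L l390 (L l408 (T t872 (L l339 (L l375 (T t2520 N)))))))))))) (K a8 (M a16 (F (L l462 (T t2521 (L l372 (L l408 (T t2490 (L l52 (L l56 (L l354 (L l372 (L l390 (L l408 (T t872 N)))))))))))))) N)))))) (K a122 (M a90 (F (T t122 (L l390 (L l408 (T t151 (L l429 (L l501 (T t152 (L l390 (T t153 (K a4 (M a240 (F (L l411 (T t2522 (L l454 (T t2523 N)))))) (K a8 (M a240 (F (L l339 (T t2524 (L l411 (T t2525 (T t2523 N))))))) (K a21 (M a80 (F (T t2526 (L l339 (L l390 (T t2527 (T t2528 N))))))) (K a25 (M a16 (F (T t652 (L l12 (L l56 (L l390 (L l498 (T t2492 (L l56 (L l339 (L l390 (T t97 (L l408 (T t2490 N)))))))))))))) (K a29 (M a16 (F (T t652 (L l390 (L l498 (T t2492 N)))))) (K a38 (M a16 (F (L l21 (T t871 (L l26 (L l72 (L l390 (L l498 (T t2492 N))))))))) (K a42 (M a170 (F (T t2497 (L l54 (L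 l144 (L l318 (L l339 (T t2503 (L l56 (L l339 (L l426 (T t2504 N)))))))))))) (K a46 (M a166 (F (T t2529 (L l411 (L l444 (T t2530 (L l444 (T t2531 N)))))))) (K a51 (M a16 (F (T t652 (L l390 (L l498 (T t2492 N)))))) N)))))))))))))))))))) N))))))))))))))))))))))⟩
def e0_63__74_63 : Ent 4 := ⟨[a0, a63], [a74, a107], (M a12 (F (T t122 (T t151 (L l499 (T t152 (T t153 (K a4 (M a60 (F (T t43 (L l336 (L l339 (T t398 (T t448 N))))))) (K a8 (M a60 (F (T t68 (L l336 (L l339 (T t398 (L l52 (L l56 (T t448 N))))))))) (K a21 (M a192 (F (T t156 (L l15 (L l347 (T t450 (L l15 (L l347 (T t157 N))))))))) (K a25 (M a192 (F (T t156 (L l15 (T t450 (L l143 (T t21 N))))))) (K a29 (M a192 (F (T t156 (L l143 (L l371 (T t21 (L l78 (L l98 (L l130 (T t160 N)))))))))) (K a38 (M a192 (F (T t156 (T t450 (L l143 (T t21 N)))))) (K a42 (M a192 (F (T t156 (T t450 (L l56 (T t157 N)))))) (K a46 (M a192 (F (T t156 (L l143 (T t21 (L l26 (L l78 (L l98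 (L l130 (L l408 (T t160 N))))))))))) (K a51 (M a192 (F (T t57 (L l513 (T t156 (L l415 (T t450 N))))))) N))))))))))))))))⟩
def e0_63__74_64 : Ent 4 := ⟨[a0, a63], [a74, a111], (M a12 (F (T t122 (T t151 (T t152 (T t153 (K a4 (M a60 (F (T t43 (L l336 (L l339 (T t398 (T t448 N))))))) (K a8 (M a60 (F (T t67 (L l336 (L l339 (T t398 (L l52 (L l56 (T t448 N))))))))) (K a21 (M a192 (F (T t156 (L l15 (L l347 (T t450 (L l15 (L l347 (T t157 N))))))))) (K a25 (M a192 (F (T t156 (L l15 (T t450 (L l137 (T t21 N))))))) (K a29 (M a192 (F (T t156 (L l137 (L l371 (T t21 (L l78 (L l104 (L l130 (T t160 N)))))))))) (K a38 (M a192 (F (T t156 (T t450 (L l137 (T t21 N)))))) (K a42 (M a192 (F (T t156 (T t450 (L l56 (T t157 N)))))) (K a46 (M a192 (F (T t156 (L l137 (T t21 (L l26 (L l78 (L l104 (L l130 (L l408 (T t160 N))))))))))) (K a51 (M a192 (F (T t57 (L l513 (T t156 (L l415 (T t450 N))))))) N)))))))))))))))⟩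
def e0_63__74_65 : Ent 4 := ⟨[a0, a63], [a74, a112], (M a12 (F (T t122 (T t151 (T t152 (T t153 (K a4 (M a60 (F (T t43 (L l336 (L l339 (T t398 (T t448 N))))))) (K a8 (M a60 (F (T t67 (L l336 (L l339 (T t398 (L l52 (L l56 (T t448 N))))))))) (K a21 (M a192 (F (L l78 (T t468 (L l15 (L l347 (T t450 (L l15 (L l347 (T t157 N)))))))))) (K a25 (M a192 (F (T t467 (L l146 (T t156 (L l114 (T t21 N))))))) (K a29 (M a192 (F (L l321 (T t449 (L l114 (L l371 (T t21 (L l78 (L l130 (T t160 N)))))))))) (K a38 (M a192 (F (T t450 (L l146 (T t156 (L l114 (T t21 N))))))) (K a42 (M a192 (F (T t467 (L l146 (T t156 (L l56 (T t157 N))))))) (K a46 (M a192 (F (T t35 (L l146 (T t156 (L l26 (L l78 (L l130 (L l408 (T t160 N)))))))))) (K a51 (M a192 (F (T t57 (L l146 (L l513 (T t156 (L l415 (T t450 N)))))))) N)))))))))))))))⟩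
def e0_63__74_66 : Ent 4 := ⟨[a0, a63], [a74, a113], (M a12 (F (T t122 (T t151 (T t152 (T t153 (K a4 (M a60 (F (T t43 (L l336 (L l339 (T t398 (T t448 N))))))) (K a8 (M a60 (F (T t67 (L l336 (L l339 (T t398 (L l52 (L l56 (T t448 N))))))))) (K a21 (M a192 (F (T t156 (L l15 (L l347 (L l416 (T t450 (L l15 (L l347 (T t157 N)))))))))) (K a25 (M a192 (F (T t156 (L l15 (L l416 (T t450 (T t21 N))))))) (K a29 (M a192 (F (T t156 (L l371 (T t21 (L l78 (L l130 (T t160 N)))))))) (K a38 (M a192 (F (T t156 (L l416 (T t450 (T t21 N)))))) (K a42 (M a192 (F (T t156 (L l416 (T t450 (L l56 (T t157 N))))))) (K a46 (M a192 (F (T t156 (T t21 (L l26 (L l78 (L l130 (L l408 (T t160 N))))))))) (K a51 (M a192 (F (T t57 (L l513 (T t156 (L l415 (L l416 (T t450 N)))))))) N)))))))))))))))⟩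
def e0_63__74_67 : Ent 4 := ⟨[a0, a63], [a74, a114], (M a60 (F (T t67 (T t43 (T t68 (T t69 (K a20 (M a48 (F (T t138 (L l11 (L l318 (L l339 (T t1 (L l11 (T t235 N))))))))) (K a40 (M a48 (F (T t246 (L l318 (L l339 (T t1 (L l52 (T t235 N)))))))) (K a21 (M a192 (F (T t72 (L l347 (T t73 (L l347 (T t74 N))))))) (K a41 (M a192 (F (T t77 (L l65 (T t35 (T t73 N)))))) (K a61 (M a192 (F (T t72 (L l65 (L l515 (T t35 (L l130 (T t80 N)))))))) (K a22 (M a192 (F (T t72 (T t21 (T t73 N))))) (K a42 (M a192 (F (T t79 (T t73 (L l22 (T t74 N)))))) (K a62 (M a192 (F (T t72 (T t35 (L l66 (L l130 (L l516 (T t80 N)))))))) (K a3 (M a192 (F (T t614 (L l477 (T t79 (L l475 (T t35 N))))))) N)))))))))))))))⟩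
def e0_63__74_68 : Ent 4 := ⟨[a0, a63], [a74, a115], (M a60 (F (T t67 (T t43 (T t68 (T t69 (K a20 (M a48 (F (T t138 (L l11 (L l318 (L l339 (T t1 (L l11 (T t235 N))))))))) (K a40 (M a48 (F (T t246 (L l318 (L l339 (T t1 (L l52 (T t235 N)))))))) (K a21 (M a192 (F (T t72 (L l347 (T t73 (L l113 (L l347 (T t74 N)))))))) (K a41 (M a192 (F (T t79 (L l65 (T t35 (T t73 N)))))) (K a61 (M a192 (F (T t72 (L l65 (L l515 (T t35 (L l130 (T t80 N)))))))) (K a22 (M a192 (F (T t72 (L l113 (T t21 (T t73 N)))))) (K a42 (M a192 (F (T t79 (T t73 (L l22 (L l113 (T t74 N))))))) (K a62 (M a192 (F (T t72 (T t35 (L l66 (L l130 (L l516 (T t80 N)))))))) (K a3 (M a192 (F (T t614 (L l477 (T t79 (L l475 (T t35 N))))))) N)))))))))))))))⟩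
def e0_63__74_69 : Ent 4 := ⟨[a0, a63], [a74, a117], (M a12 (F (T t122 (T t151 (T t152 (T t153 (K a4 (M a60 (F (T t43 (L l336 (L l339 (T t398 (T t448 N))))))) (K a8 (M a60 (F (T t67 (L l336 (L l339 (T t398 (L l52 (L l56 (T t448 N))))))))) (K a21 (M a192 (F (T t156 (L l15 (L l347 (T t450 (L l15 (L l347 (L l422 (T t157 N)))))))))) (K a25 (M a192 (F (T t156 (L l15 (T t450 (L l114 (L l440 (T t21 N)))))))) (K a29 (M a192 (F (T t156 (L l114 (L l371 (L l440 (T t21 (L l78 (L l130 (T t160 N)))))))))) (K a38 (M a192 (F (T t156 (T t450 (L l114 (L l440 (T t21 N))))))) (K a42 (M a192 (F (T t156 (T t450 (L l56 (L l422 (T t157 N))))))) (K a46 (M a192 (F (T t156 (L l114 (L l440 (T t21 (L l26 (L l78 (L l130 (L l408 (T t160 N))))))))))) (K a51 (M a192 (F (T t161 (L l513 (T t156 (L l114 (L l439 (L l440 (T t21 N))))))))) N)))))))))))))))⟩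
def e0_63__74_70 : Ent 4 := ⟨[a0, a63], [a74, a118], (M a149 (F (T t25 (L l339 (T t175 (T t176 (L l84 (L l130 (T t177 (K a192 (M a15 (F (T t1071 (L l268 (T t1026 (L l296 (L l318 (T t1030 (L l268 (L l296 (T t1031 N))))))))))) (K a21 (M a48 (F (T t16 (L l130 (T t13 (L l18 (T t14 N))))))) (K a85 (M a16 (F (T t504 (L l130 (L l144 (T t190 (L l94 (L l130 (T t278 N))))))))) (K a213 (Fr a106 a192 l519 (Fr a42 a21 l68 (Fr a170 a234 l390 (Fr a255 a85 l476 (V t582))))) (K a42 (M a48 (F (L l54 (T t16 (L l130 (L l390 (T t13 (L l54 (T t14 N))))))))) (K a106 (M a90 (F (L l411 (T t1040 (L l112 (L l390 (T t1072 (L l390 (T t1073 (L l318 (L l390 (L l411 (T t1074 (L l318 (L l411 (T t1075 N)))))))))))))))) (K a170 (M a48 (F (T t184 (T t607 (L l130 (L l390 (T t13 N))))))) (K a191 (M a204 (F (T t1066 (L l130 (T t1283 N))))) (K a255 (M a16 (F (T t112 (L l130 (L l266 (T t190 (L l289 (L l296 (T t191 N))))))))) N))))))))))))))))))⟩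
def e0_63__74_71 : Ent 4 := ⟨[a0, a63], [a74, a119], (M a60 (F (T t67 (T t43 (T t68 (T t69 (K a20 (M a48 (F (T t138 (L l11 (L l318 (L l339 (T t1 (L l11 (T t235 N))))))))) (K a40 (M a48 (F (T t246 (L l318 (L l339 (T t1 (L l52 (T t235 N)))))))) (K a21 (M a192 (F (T t72 (L l347 (T t73 (L l113 (L l347 (T t74 N)))))))) (K a41 (M a192 (F (T t77 (L l65 (L l439 (T t35 (T t73 N))))))) (K a61 (M a192 (F (T t72 (L l65 (L l439 (L l515 (T t35 (L l130 (T t80 N))))))))) (K a22 (M a192 (F (T t72 (L l113 (L l439 (T t21 (T t73 N))))))) (K a42 (M a192 (F (T t79 (T t73 (L l22 (L l113 (T t74 N))))))) (K a62 (M a192 (F (T t72 (L l439 (T t35 (L l66 (L l130 (L l516 (T t80 N))))))))) (K a3 (M a192 (F (T t614 (L l477 (T t79 (L l439 (L l475 (T t35 N)))))))) N)))))))))))))))⟩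
def e0_63__74_72 : Ent 4 := ⟨[a0, a63], [a74, a122], (M a106 (F (T t393 (L l84 (L l339 (T t586 (L l339 (T t305 (L l114 (T t564 (K a192 (M a15 (F (T t2354 (L l84 (L l268 (L l318 (T t2532 (L l268 (L l296 (T t2533 (L l268 (L l296 (L l426 (T t2534 N)))))))))))))) (K a21 (M a48 (F (L l339 (L l426 (T t777 (L l84 (L l347 (T t551 (L l47 (L l84 (L l318 (T t579 N)))))))))))) (K a85 (M a48 (F (L l318 (T t304 (L l339 (T t0 (L l347 (L l368 (T t599 N))))))))) (K a149 (M a48 (F (L l426 (T t132 (L l84 (L l318 (L l491 (T t579 (L l347 (T t599 (L l318 (L l347 (L l426 (L l491 (T t306 N))))))))))))))) (K a42 (M a48 (F (T t578 (L l28 (L l84 (L l318 (T t579 (L l84 (T t551 N))))))))) (K a170 (M a32 (F (T t612 (L l220 (T t812 (L l180 (T t813 N))))))) (K a234 (Fr a149 a192 l519 (Fr a21 a42 l68 (Fr a85 a213 l347 (Fr a255 a170 l476 (V t875))))) (K a127 (M a252 (L l114 (F (T t2535 (L l82 (T t2536 (K a112 (M a117 (F (T t2537 (L l82 (L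 l143 (T t2538 (T t2535 N))))))) (K a117 (M a112 (F (T t2535 (L l82 (T t2536 N))))) N)))))))) (K a255 (M a32 (F (T t612 (L l266 (T t812 (L l289 (L l296 (T t821 N)))))))) N)))))))))))))))))))⟩
def e0_63__74_73 : Ent 4 := ⟨[a0, a63], [a74, a123], (M a12 (F (T t122 (T t151 (L l427 (T t152 (T t153 (K a4 (M a60 (F (T t43 (L l336 (L l339 (T t398 (T t448 N))))))) (K a8 (M a60 (F (T t67 (L l336 (L l339 (T t398 (L l52 (L l56 (T t448 N))))))))) (K a21 (M a192 (F (T t156 (L l130 (L l132 (T t221 (L l15 (L l347 (T t157 N))))))))) (K a25 (M a192 (F (T t156 (L l130 (L l132 (T t221 (L l113 (T t21 N)))))))) (K a29 (M a192 (F (T t156 (L l113 (L l371 (T t21 (L l130 (L l132 (T t2539 N))))))))) (K a38 (M a192 (F (T t156 (L l26 (L l130 (L l132 (T t221 (L l113 (T t21 N))))))))) (K a42 (M a192 (F (T t156 (L l26 (L l130 (L l132 (L l390 (T t221 (L l56 (T t157 N)))))))))) (K a46 (M a192 (F (T t35 (T t156 (L l26 (L l130 (L l132 (L l408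 (T t2539 N))))))))) (K a51 (M a192 (F (T t57 (L l513 (T t156 (L l130 (L l132 (L l415 (T t221 N))))))))) N))))))))))))))))⟩
def e0_63__74_74 : Ent 4 := ⟨[a0, a63], [a74, a127], (M a12 (F (T t122 (T t151 (T t152 (T t153 (K a4 (M a60 (F (T t43 (L l336 (L l339 (T t398 (T t448 N))))))) (K a8 (M a60 (F (T t67 (L l336 (L l339 (T t398 (L l52 (L l56 (T t448 N))))))))) (K a21 (M a192 (F (L l78 (T t468 (L l15 (L l347 (T t450 (L l50 (L l130 (L l144 (T t2473 N))))))))))) (K a25 (M a192 (F (L l321 (T t449 (L l15 (T t450 (L l56 (L l130 (L l144 (T t37 N)))))))))) (K a29 (M a192 (F (L l321 (T t449 (L l130 (L l144 (T t37 (L l15 (L l113 (L l371 (T t776 N))))))))))) (K a38 (M a192 (F (T t450 (L l138 (T t156 (L l26 (L l130 (L l144 (T t37 N))))))))) (K a42 (M a192 (F (T t450 (L l138 (T t156 (L l26 (L l130 (L l144 (L l390 (T t2473 N)))))))))) (K a46 (M a192 (F (L l321 (T t449 (L l26 (L l130 (L l144 (L l408 (T t37 (L l113 (T t776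 N))))))))))) (K a51 (M a192 (F (T t161 (L l138 (L l513 (T t156 (L l130 (L l144 (L l439 (T t37 N)))))))))) N)))))))))))))))⟩
def e0_63__74_75 : Ent 4 := ⟨[a0, a63], [a74, a128], (M a12 (F (T t122 (T t151 (T t152 (T t153 (K a4 (M a60 (F (T t43 (L l336 (L l339 (T t398 (T t448 N))))))) (K a8 (M a60 (F (T t67 (L l336 (L l339 (T t398 (L l52 (L l56 (T t448 N))))))))) (K a21 (M a166 (F (T t2540 (L l15 (L l156 (L l339 (T t2470 (L l15 (L l84 (T t2541 N)))))))))) (K a25 (M a48 (F (T t550 (L l15 (L l318 (L l339 (T t1 (L l12 (L l56 (T t866 N)))))))))) (K a29 (M a48 (F (T t550 (L l15 (L l318 (L l339 (T t1 (T t866 N)))))))) (K a38 (M a48 (F (T t1580 (L l26 (L l339 (T t2 (L l21 (L l50 (L l318 (T t868 N)))))))))) (K a42 (M a166 (F (T t2542 (L l56 (T t2543 (L l56 (L l84 (T t2541 N)))))))) (K a46 (M a48 (F (T t443 (L l318 (L l339 (T t1 (L l26 (T t866 N)))))))) (K a51 (M a16 (F (T t112 (L l39 (T t871 (T t872 N)))))) N)))))))))))))))⟩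
def e0_63__74_76 : Ent 4 := ⟨[a0, a63], [a74, a129], (M a12 (F (T t122 (T t151 (T t152 (T t153 (K a4 (M a60 (F (T t570 (L l46 (L l50 (L l309 (T t67 (T t448 N)))))))) (K a8 (M a60 (F (T t116 (L l336 (L l339 (T t398 (L l52 (L l56 (T t448 N))))))))) (K a21 (M a192 (F (L l78 (T t468 (L l15 (L l217 (L l347 (T t450 (L l15 (L l217 (L l347 (T t157 N)))))))))))) (K a25 (M a192 (F (L l321 (T t449 (L l15 (L l217 (T t450 (L l152 (L l217 (T t21 N)))))))))) (K a29 (M a192 (F (L l321 (T t449 (L l152 (L l217 (L l371 (T t21 (L l78 (L l130 (T t160 N))))))))))) (K a38 (M a192 (F (L l152 (T t156 (L l217 (T t450 (L l152 (L l217 (T t21 N))))))))) (K a42 (M a192 (F (L l321 (T t449 (L l217 (T t450 (L l56 (L l217 (T t157 N))))))))) (K a46 (M a192 (F (L l321 (T t449 (L l152 (L l217 (T t21 (L l26 (L l78 (L l130 (L l408 (T t160 N)))))))))))) (K a51 (M a192 (F (L l217 (T t161 (L l152 (L l513 (T t156 (L l152 (L l217 (L l439 (T t21 N)))))))))))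 N)))))))))))))))⟩
def e0_63__74_77 : Ent 4 := ⟨[a0, a63], [a74, a130], (M a12 (F (T t122 (T t151 (T t152 (T t153 (K a4 (M a60 (F (T t43 (L l336 (L l339 (T t398 (T t448 N))))))) (K a8 (M a60 (F (T t67 (L l336 (L l339 (T t398 (L l52 (L l56 (T t448 N))))))))) (K a21 (M a192 (F (L l78 (T t468 (L l15 (L l347 (T t450 (L l15 (L l347 (T t157 N)))))))))) (K a25 (M a192 (F (T t467 (L l152 (T t156 (L l152 (T t21 N))))))) (K a29 (M a192 (F (L l321 (T t449 (L l152 (L l371 (T t21 (L l78 (L l130 (T t160 N)))))))))) (K a38 (M a192 (F (T t450 (L l152 (T t156 (L l152 (T t21 N))))))) (K a42 (M a192 (F (T t467 (L l152 (T t156 (L l56 (T t157 N))))))) (K a46 (M a192 (F (T t35 (L l152 (T t156 (L l26 (L l78 (L l130 (L l408 (T t160 N)))))))))) (K a51 (M a192 (F (T t161 (L l152 (L l513 (T t156 (L l152 (L l439 (T t21 N))))))))) N)))))))))))))))⟩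
def e0_63__74_78 : Ent 4 := ⟨[a0, a63], [a74, a131], (M a12 (F (T t122 (T t151 (T t152 (T t153 (K a4 (M a60 (F (T t570 (L l46 (L l50 (L l307 (T t67 (T t448 N)))))))) (K a8 (M a60 (F (T t570 (L l307 (T t67 (L l52 (L l56 (T t448 N)))))))) (K a21 (M a192 (F (L l78 (T t468 (L l15 (L l347 (T t450 (L l15 (L l347 (T t157 N)))))))))) (K a25 (M a192 (F (T t467 (L l152 (T t156 (L l152 (T t21 N))))))) (K a29 (M a192 (F (L l321 (T t449 (L l152 (L l371 (T t21 (L l78 (L l130 (T t160 N)))))))))) (K a38 (M a192 (F (T t450 (L l152 (T t156 (L l152 (T t21 N))))))) (K a42 (M a192 (F (T t467 (L l152 (T t156 (L l56 (T t157 N))))))) (K a46 (M a192 (F (T t35 (L l152 (T t156 (L l26 (L l78 (L l130 (L l408 (T t160 N)))))))))) (K a51 (M a192 (F (T t161 (L l152 (L l513 (T t156 (L l152 (L l439 (T t21 N))))))))) N)))))))))))))))⟩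
def e0_63__74_79 : Ent 4 := ⟨[a0, a63], [a74, a133], (M a12 (L l339 (F (T t122 (T t151 (T t152 (T t153 (K a4 (M a15 (F (T t2544 (L l318 (T t716 (L l1 (L l50 (L l311 (T t2545 N))))))))) (K a8 (M a15 (F (T t2544 (L l2 (L l56 (L l318 (T t716 (L l311 (T t2545 N))))))))) (K a21 (M a192 (F (L l130 (T t221 (L l153 (L l160 (T t156 (L l15 (L l199 (L l347 (T t157 N))))))))))) (K a25 (M a192 (F (L l130 (T t221 (L l153 (L l160 (T t156 (L l160 (L l199 (T t21 N)))))))))) (K a29 (M a192 (F (L l130 (T t37 (L l153 (L l160 (T t156 (L l78 (L l130 (T t160 N)))))))))) (K a38 (M a192 (F (L l199 (T t450 (L l153 (L l160 (T t156 (L l160 (L l199 (T t21 N)))))))))) (K a42 (M a192 (F (L l199 (T t450 (L l153 (L l160 (T t156 (L l56 (L l199 (T t157 N)))))))))) (K a46 (M a192 (F (L l199 (T t35 (L l153 (L l160 (T t156 (L l26 (L l78 (L l130 (L l408 (T t160 N)))))))))))) (K a51 (M a192 (F (L l199 (L l415 (T t450 (L l153 (L l160 (L l513 (T t156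 (L l160 (L l199 (L l439 (T t21 N))))))))))))) (K a192 (M a15 (F (T t1252 (L l318 (L l484 (T t716 (L l309 (L l311 (L l335 (T t717 N)))))))))) (K a15 (M a192 (F (T t2061 (L l153 (L l160 (L l327 (T t156 (L l199 (L l481 (T t450 N)))))))))) N))))))))))))))))))⟩
def e0_63__74_80 : Ent 4 := ⟨[a0, a63], [a74, a134], (M a60 (L l336 (F (T t67 (T t43 (T t68 (T t69 (K a20 (M a12 (L l336 (F (T t151 (L l14 (L l339 (T t408 (L l11 (L l46 (L l314 (T t399 (K a194 (M a14 (F (T t2546 (L l306 (T t727 N))))) (K a14 (M a194 (F (T t153 (L l60 (L l339 (T t402 (L l11 (L l46 (L l314 (T t399 N)))))))))) N))))))))))))) (K a40 (M a12 (L l336 (F (T t122 (L l339 (T t408 (L l24 (L l314 (T t399 (K a194 (M a14 (F (T t2546 (L l306 (T t727 N))))) (K a14 (M a194 (F (T t122 (L l24 (L l60 (L l339 (T t402 (L l24 (L l314 (T t399 N)))))))))) N))))))))))) (K a21 (M a192 (L l336 (F (T t72 (L l338 (L l347 (T t73 (L l347 (T t74 (K a194 (M a14 (F (T t77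 (L l130 (L l338 (L l516 (T t75 (L l11 (L l84 (L l130 (L l516 (T t78 N)))))))))))) (K a14 (M a194 (F (L l347 (T t2547 (L l6 (T t2413 N)))))) N))))))))))) (K a41 (M a192 (L l336 (F (T t77 (L l65 (T t35 (L l338 (T t73 (K a194 (M a14 (F (T t77 (L l25 (L l65 (L l312 (T t2548 N))))))) (K a14 (M a194 (F (T t2547 (L l6 (T t2413 N))))) N)))))))))) (K a61 (M a192 (L l336 (F (T t72 (L l65 (L l515 (T t35 (L l130 (T t80 (K a194 (M a14 (F (T t77 (L l65 (L l294 (L l515 (T t35 (L l65 (L l294 (L l515 (T t2549 N))))))))))) (K a14 (M a194 (F (L l60 (L l515 (T t2550 (L l84 (T t1333 N))))))) N))))))))))) (K a22 (M a192 (L l336 (F (T t72 (T t21 (L l338 (T t73 (K a194 (M a14 (F (T t21 (L l130 (L l338 (L l516 (T t75 (L l84 (T t1333 N))))))))) (K a14 (M a194 (F (T t2547 (L l84 (T t1333 N))))) N))))))))) (K a42 (M a192 (L l336 (F (T t77 (L l338 (T t73 (L l22 (T t74 (K a194 (M a14 (F (T t77 (L l130 (L l338 (L l390 (L l516 (T t75 (L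 l84 (L l130 (L l390 (L l516 (T t78 N))))))))))))) (K a14 (M a194 (F (T t2547 (L l84 (T t1333 N))))) N)))))))))) (K a62 (M a106 (L l336 (F (T t310 (L l84 (T t565 (T t566 (K a194 (M a14 (F (T t564 (L l84 (T t565 (L l294 (T t566 N))))))) (K a14 (M a194 (L l60 (F (T t2551 (L l66 (L l84 (L l339 (T t586 (T t566 (K a30 (M a46 (F (T t2551 (L l13 (T t2552 N))))) (K a46 (M a30 (F (T t2551 (L l6 (L l23 (L l26 (L l66 (L l318 (T t2553 N))))))))) N))))))))))) N))))))))) (K a3 (M a192 (L l336 (F (T t614 (L l477 (T t79 (L l475 (T t35 (K a194 (M a14 (F (T t254 (L l9 (L l312 (T t2548 N)))))) (K a14 (M a194 (F (T t2547 (L l84 (L l477 (T t1333 N)))))) N)))))))))) (K a194 (M a14 (F (T t43 (T t2554 (L l312 (T t2548 (L l312 (L l516 (T t2555 (K a62 (M a106 (F (T t564 (L l84 (T t565 (L l294 (T t566 N))))))) N)))))))))) (K a14 (M a194 (F (T t67 (L l200 (T t2556 (L l130 (T t2557 (K a61 (M a192 (F (L l60 (L l515 (T t2550 (L l84 (T t1333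 N))))))) (K a62 (M a46 (F (T t2552 (L l314 (T t2558 (T t2559 (T t2560 N))))))) N))))))))) N))))))))))))))))))⟩
def e0_63__74_81 : Ent 4 := ⟨[a0, a63], [a74, a135], (M a12 (F (T t122 (T t151 (T t152 (T t153 (K a4 (M a60 (F (T t43 (L l336 (L l337 (L l339 (T t398 (T t448 N)))))))) (K a8 (M a60 (F (T t67 (L l336 (L l337 (L l339 (T t398 (L l52 (L l56 (T t448 N)))))))))) (K a21 (M a192 (F (L l78 (T t468 (L l15 (L l347 (T t450 (L l15 (L l347 (T t157 N)))))))))) (K a25 (M a192 (F (T t21 (L l153 (T t156 (L l15 (T t450 N))))))) (K a29 (M a192 (F (L l78 (T t468 (L l371 (T t21 (L l78 (L l130 (L l201 (T t160 N)))))))))) (K a38 (M a192 (F (T t450 (L l153 (T t156 (T t21 N)))))) (K a42 (M a192 (F (T t450 (L l153 (T t156 (L l56 (T t157 N))))))) (K a46 (M a192 (F (T t21 (L l153 (T t156 (L l26 (L l78 (L l130 (L l201 (L l408 (T t160 N))))))))))) (K a51 (M a192 (F (T t47 (L l153 (L l513 (T t156 (L l415 (T t450 N)))))))) N)))))))))))))))⟩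
def e0_63__74_82 : Ent 4 := ⟨[a0, a63], [a74, a138], (M a60 (L l318 (F (T t67 (T t43 (L l330 (T t68 (T t69 (K a20 (M a10 (F (L l11 (T t2561 (L l336 (T t2562 (L l11 (T t2563 (L l11 (T t2564 N)))))))))) (K a40 (M a10 (F (T t2561 (L l336 (T t2562 (T t2563 (T t2564 N))))))) (K a21 (M a192 (L l318 (F (T t72 (L l347 (T t73 (L l160 (L l347 (T t74 (K a10 (M a202 (F (T t72 (L l54 (L l347 (T t2368 N)))))) (K a202 (M a10 (F (T t72 (L l47 (L l65 (L l336 (T t2562 N))))))) N))))))))))) (K a41 (M a192 (L l318 (F (T t73 (T t79 (L l65 (T t35 (K a10 (M a202 (F (T t79 (L l54 (T t2368 N))))) (K a202 (M a10 (F (T t79 (L l65 (L l498 (T t2561 N)))))) N))))))))) (K a61 (M a192 (L l318 (F (T t72 (L l65 (L l515 (T t35 (L l130 (T t80 (K a10 (M a202 (F (T t72 (L l54 (L l515 (T t2368 N)))))) (K a202 (M a10 (F (T t72 (L l65 (L l498 (T t2561 N)))))) N))))))))))) (K a22 (M a192 (L l318 (F (T t72 (L l160 (T t21 (T t73 (K a10 (M a202 (F (T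 t72 (L l54 (T t2368 N))))) (K a202 (M a10 (F (T t73 (L l11 (T t2565 N))))) N))))))))) (K a42 (M a106 (L l318 (F (T t1514 (L l22 (L l84 (L l336 (T t2369 (L l84 (T t565 (K a10 (M a202 (L l54 (F (T t2360 (L l22 (L l84 (L l336 (T t2369 (K a26 (Fr a58 a154 l498 (V t2370)) (K a58 (M a26 (F (T t1514 (L l22 (L l84 (L l336 (T t2369 (L l84 (T t565 N))))))))) N)))))))))) (K a202 (M a10 (F (T t2566 (L l84 (T t565 N))))) N)))))))))))) (K a62 (M a192 (L l318 (F (T t72 (T t35 (L l66 (L l130 (L l516 (T t80 (K a10 (M a202 (F (T t72 (L l36 (L l54 (T t2368 N)))))) (K a202 (M a10 (F (T t72 (L l36 (L l498 (T t2561 N)))))) N))))))))))) (K a3 (M a192 (L l318 (F (T t614 (L l477 (T t79 (L l475 (T t35 (K a10 (M a202 (F (T t2380 (L l84 (L l477 (T t1333 N)))))) (K a202 (M a10 (F (T t614 (T t2565 N)))) N)))))))))) (K a10 (M a202 (F (T t67 (L l54 (T t43 (L l6 (L l330 (T t68 (L l54 (T t69 (K a20 (M a192 (F (L l160 (T t21 (T t2377 N)))))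 (K a40 (M a192 (F (T t35 (T t2377 N)))) (K a21 (M a192 (F (T t72 (L l54 (L l347 (T t2368 N)))))) (K a41 (M a192 (F (T t79 (L l54 (T t2368 N))))) (K a61 (M a192 (F (T t72 (L l54 (L l515 (T t2368 N)))))) (K a22 (M a192 (F (T t72 (L l54 (T t2368 N))))) (K a42 (M a58 (F (T t2378 (L l206 (L l336 (T t2379 (T t2374 N))))))) (K a62 (M a192 (F (T t72 (L l36 (L l54 (T t2368 N)))))) (K a3 (M a192 (F (T t2380 (L l84 (L l477 (T t1333 N)))))) N))))))))))))))))))) (K a202 (M a10 (F (T t67 (L l498 (T t2561 (L l336 (T t2562 N))))))) N)))))))))))))))))))⟩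
def e0_63__74_83 : Ent 4 := ⟨[a0, a63], [a74, a139], (M a12 (F (T t122 (T t151 (T t152 (T t153 (K a4 (M a60 (F (T t570 (L l46 (L l50 (L l331 (T t67 (T t448 N)))))))) (K a8 (M a60 (F (T t570 (L l331 (T t67 (L l52 (L l56 (T t448 N)))))))) (K a21 (M a192 (F (T t156 (L l15 (L l347 (T t450 (L l15 (L l347 (T t157 N))))))))) (K a25 (M a192 (F (T t156 (L l15 (T t450 (T t21 N)))))) (K a29 (M a192 (F (T t156 (L l371 (T t21 (L l78 (L l130 (T t160 N)))))))) (K a38 (M a192 (F (T t156 (T t450 (T t21 N))))) (K a42 (M a192 (F (T t156 (T t450 (L l56 (T t157 N)))))) (K a46 (M a192 (F (T t21 (T t156 (L l26 (L l78 (L l130 (L l408 (T t160 N))))))))) (K a51 (M a192 (F (T t57 (L l513 (T t156 (L l415 (T t450 N))))))) N)))))))))))))))⟩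
def e0_63__74_84 : Ent 4 := ⟨[a0, a63], [a74, a143], (M a12 (F (T t122 (T t151 (T t152 (T t153 (K a4 (M a60 (F (T t43 (L l325 (L l336 (L l339 (T t398 (T t448 N)))))))) (K a8 (M a60 (F (T t67 (L l325 (L l336 (L l339 (T t398 (L l52 (L l56 (T t448 N)))))))))) (K a21 (M a192 (F (L l78 (T t468 (L l15 (L l347 (T t450 (L l15 (L l347 (T t157 N)))))))))) (K a25 (M a192 (F (T t467 (L l160 (T t156 (L l160 (T t21 N))))))) (K a29 (M a192 (F (L l321 (T t449 (L l160 (L l371 (T t21 (L l78 (L l130 (T t160 N)))))))))) (K a38 (M a192 (F (T t450 (L l160 (T t156 (L l160 (T t21 N))))))) (K a42 (M a192 (F (T t467 (L l160 (T t156 (L l56 (T t157 N))))))) (K a46 (M a192 (F (T t35 (L l160 (T t156 (L l26 (L l78 (L l130 (L l408 (T t160 N)))))))))) (K a51 (M a192 (F (T t161 (L l160 (L l513 (T t156 (L l160 (L l439 (T t21 N))))))))) N)))))))))))))))⟩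
def e0_63__74_85 : Ent 4 := ⟨[a0, a63], [a74, a144], (M a12 (F (T t122 (T t151 (T t152 (T t153 (K a4 (M a60 (F (T t43 (L l336 (L l339 (T t398 (T t448 N))))))) (K a8 (M a60 (F (T t67 (L l336 (L l339 (T t398 (L l52 (L l56 (T t448 N))))))))) (K a21 (M a192 (F (L l78 (T t468 (L l15 (L l170 (L l347 (T t450 (L l15 (L l170 (L l347 (T t157 N)))))))))))) (K a25 (M a192 (F (L l321 (T t449 (L l15 (L l170 (T t450 (L l170 (L l192 (T t21 N)))))))))) (K a29 (M a192 (F (L l321 (T t449 (L l170 (L l192 (L l371 (T t21 (L l78 (L l130 (T t160 N))))))))))) (K a38 (M a192 (F (L l192 (T t156 (L l170 (T t450 (L l170 (L l192 (T t21 N))))))))) (K a42 (M a192 (F (L l321 (T t449 (L l170 (T t450 (L l56 (L l170 (T t157 N))))))))) (K a46 (M a192 (F (L l321 (T t449 (L l170 (L l192 (T t21 (L l26 (L l78 (L l130 (L l408 (T t160 N)))))))))))) (K a51 (M a192 (F (L l170 (T t161 (L l192 (L l513 (T t156 (L l170 (L l192 (L l439 (T t21 N)))))))))))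 N)))))))))))))))⟩
def e0_63__74_86 : Ent 4 := ⟨[a0, a63], [a74, a145], (M a60 (F (T t67 (T t43 (T t68 (T t69 (K a20 (M a48 (F (T t277 (L l11 (L l318 (L l339 (T t1 (L l11 (T t235 N))))))))) (K a40 (M a48 (F (T t246 (L l318 (L l339 (T t1 (L l52 (T t235 N)))))))) (K a21 (M a192 (F (T t72 (L l167 (L l347 (T t73 (L l167 (L l196 (L l347 (T t74 N)))))))))) (K a41 (M a192 (F (T t79 (L l65 (L l167 (T t35 (L l167 (T t73 N)))))))) (K a61 (M a192 (F (T t72 (L l65 (L l167 (L l515 (T t35 (L l130 (T t80 N))))))))) (K a22 (M a192 (F (T t72 (L l167 (L l196 (T t21 (L l167 (T t73 N)))))))) (K a42 (M a192 (F (T t79 (L l167 (T t73 (L l22 (L l167 (L l196 (T t74 N))))))))) (K a62 (M a192 (F (T t72 (L l167 (T t35 (L l66 (L l130 (L l516 (T t80 N))))))))) (K a3 (M a192 (F (L l477 (T t72 (L l167 (L l475 (T t35 (L l167 (L l307 (T t73 N)))))))))) N)))))))))))))))⟩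
def e0_63__74_87 : Ent 4 := ⟨[a0, a63], [a74, a146], (M a12 (F (T t122 (T t151 (T t152 (T t153 (K a4 (M a60 (F (T t43 (L l336 (L l339 (T t398 (T t448 N))))))) (K a8 (M a60 (F (T t67 (L l336 (L l339 (T t398 (L l52 (L l56 (T t448 N))))))))) (K a21 (M a192 (F (T t156 (L l15 (L l347 (T t450 (L l15 (L l347 (T t157 N))))))))) (K a25 (M a192 (F (T t156 (L l15 (T t450 (T t21 N)))))) (K a29 (M a192 (F (T t156 (L l371 (T t21 (L l78 (L l130 (T t160 N)))))))) (K a38 (M a192 (F (T t156 (T t450 (T t21 N))))) (K a42 (M a192 (F (T t156 (T t450 (L l56 (T t157 N)))))) (K a46 (M a192 (F (T t156 (T t21 (L l26 (L l78 (L l130 (L l408 (T t160 N))))))))) (K a51 (M a192 (F (T t57 (L l513 (T t156 (L l415 (T t450 N))))))) N)))))))))))))))⟩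
def e0_63__74_88 : Ent 4 := ⟨[a0, a63], [a74, a147], (M a60 (F (T t67 (T t43 (T t68 (T t69 (K a20 (M a48 (F (T t138 (L l11 (L l318 (L l339 (T t1 (L l11 (T t235 N))))))))) (K a40 (M a48 (F (T t246 (L l318 (L l339 (T t1 (L l52 (T t235 N)))))))) (K a21 (M a192 (F (T t72 (L l347 (L l487 (T t73 (L l347 (T t74 N)))))))) (K a41 (M a192 (F (T t77 (L l65 (T t35 (L l487 (T t73 N))))))) (K a61 (M a192 (F (T t72 (L l65 (L l515 (T t35 (L l130 (L l169 (T t80 N))))))))) (K a22 (M a192 (F (T t72 (T t21 (L l487 (T t73 N)))))) (K a42 (M a192 (F (T t79 (L l487 (T t73 (L l22 (T t74 N))))))) (K a62 (M a192 (F (T t72 (T t35 (L l66 (L l130 (L l169 (L l516 (T t80 N))))))))) (K a3 (M a192 (F (T t614 (L l477 (T t79 (L l475 (T t35 N))))))) N)))))))))))))))⟩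
def e0_63__74_89 : Ent 4 := ⟨[a0, a63], [a74, a149], (M a12 (F (T t151 (L l347 (L l371 (T t122 (L l347 (T t152 (L l495 (T t153 (K a4 (M a60 (F (T t69 (L l336 (L l339 (L l371 (L l515 (T t398 (L l351 (T t448 N)))))))))) (K a8 (M a60 (F (T t570 (L l347 (T t67 (L l52 (L l56 (L l351 (T t448 N))))))))) (K a21 (M a85 (F (T t1368 (L l220 (T t124 (L l15 (L l202 (L l220 (L l371 (T t2301 (L l15 (L l371 (T t2302 N))))))))))))) (K a25 (M a48 (F (T t550 (L l15 (L l318 (L l339 (L l347 (L l491 (T t1 (L l12 (L l56 (T t866 N)))))))))))) (K a29 (M a48 (L l371 (F (T t550 (L l15 (L l318 (L l339 (L l347 (L l491 (T t1 (T t866 (K a209 (M a89 (F (T t2567 (L l339 (T t2 N))))) (K a89 (M a209 (F (T t550 (L l339 (T t2 (L l356 (T t866 N))))))) N))))))))))))) (K a38 (M a48 (F (T t1580 (L l26 (L l339 (T t2 (L l21 (L l50 (L l318 (L l347 (L l491 (T t868 N)))))))))))) (K a42 (M a255 (F (T t2124 (L l347 (T t2031 (L l56 (L l220 (L l371 (L l390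 (T t2032 N)))))))))) (K a46 (M a48 (F (T t443 (L l318 (L l339 (L l347 (L l491 (T t1 (L l26 (T t866 N)))))))))) (K a51 (M a16 (F (T t112 (L l39 (T t871 (T t872 N)))))) N)))))))))))))))))))⟩
def e0_63__74_90 : Ent 4 := ⟨[a0, a63], [a74, a150], (M a12 (F (T t122 (T t151 (T t152 (T t153 (K a4 (M a60 (F (T t43 (L l336 (L l339 (T t398 (T t448 N))))))) (K a8 (M a60 (F (T t68 (L l336 (L l339 (T t398 (L l52 (L l56 (T t448 N))))))))) (K a21 (M a192 (F (T t156 (L l15 (L l163 (L l347 (T t450 (L l15 (L l163 (L l347 (T t157 N))))))))))) (K a25 (M a192 (F (T t156 (L l15 (L l163 (T t450 (L l163 (T t21 N)))))))) (K a29 (M a192 (F (T t156 (L l163 (L l371 (T t21 (L l78 (L l130 (L l516 (T t160 N)))))))))) (K a38 (M a192 (F (T t156 (L l163 (T t450 (L l163 (T t21 N))))))) (K a42 (M a192 (F (T t156 (L l163 (T t450 (L l56 (L l163 (T t157 N)))))))) (K a46 (M a192 (F (T t156 (L l163 (T t21 (L l26 (L l78 (L l130 (L l408 (L l516 (T t160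 N))))))))))) (K a51 (M a192 (F (T t159 (L l163 (L l415 (T t450 (L l163 (L l439 (T t21 N))))))))) N)))))))))))))))⟩
def e0_63__74_91 : Ent 4 := ⟨[a0, a63], [a74, a151], (M a12 (F (T t122 (T t151 (T t152 (L l493 (T t153 (K a4 (M a60 (F (T t69 (L l336 (L l339 (T t398 (L l349 (T t448 N)))))))) (K a8 (M a60 (F (T t68 (L l336 (L l339 (T t398 (L l52 (L l56 (L l349 (T t448 N)))))))))) (K a21 (M a192 (F (T t156 (L l15 (L l163 (L l347 (T t450 (L l15 (L l163 (L l347 (T t157 N))))))))))) (K a25 (M a192 (F (T t156 (L l15 (L l163 (T t450 (L l163 (T t21 N)))))))) (K a29 (M a192 (F (T t156 (L l163 (L l371 (T t21 (L l78 (L l130 (L l201 (T t160 N)))))))))) (K a38 (M a192 (F (T t156 (L l163 (T t450 (L l163 (T t21 N))))))) (K a42 (M a192 (F (T t156 (L l163 (T t450 (L l56 (L l163 (T t157 N)))))))) (K a46 (M a192 (F (T t156 (L l163 (T t21 (L l26 (L l78 (L l130 (L l201 (L l408 (T t160 N))))))))))) (K a51 (M a192 (F (T t159 (L l163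 (L l415 (T t450 (L l163 (L l439 (T t21 N))))))))) N))))))))))))))))⟩
def e0_63__74_92 : Ent 4 := ⟨[a0, a63], [a74, a154], (M a12 (F (T t122 (T t151 (T t152 (T t153 (K a4 (M a60 (F (T t43 (L l336 (L l339 (T t398 (T t448 N))))))) (K a8 (M a60 (F (T t67 (L l336 (L l339 (T t398 (L l52 (L l56 (T t448 N))))))))) (K a21 (M a192 (F (T t156 (L l15 (L l170 (L l347 (T t450 (L l15 (L l170 (L l347 (T t157 N))))))))))) (K a25 (M a192 (F (T t156 (L l15 (L l170 (T t450 (L l170 (T t21 N)))))))) (K a29 (M a192 (F (T t156 (L l170 (L l371 (T t21 (L l78 (L l130 (L l498 (T t160 N)))))))))) (K a38 (M a192 (F (T t156 (L l170 (T t450 (L l170 (T t21 N))))))) (K a42 (M a192 (F (T t156 (L l170 (T t450 (L l56 (L l170 (T t157 N)))))))) (K a46 (M a192 (F (T t156 (L l170 (T t21 (L l26 (L l78 (L l130 (L l408 (L l498 (T t160 N))))))))))) (K a51 (M a192 (F (T t159 (L l170 (L l415 (T t450 (L l170 (L l439 (T t21 N))))))))) N)))))))))))))))⟩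
def e0_63__74_93 : Ent 4 := ⟨[a0, a63], [a74, a155], (M a60 (F (T t67 (T t43 (T t68 (T t69 (K a20 (M a48 (F (T t138 (L l11 (L l318 (L l339 (T t1 (L l11 (T t235 N))))))))) (K a40 (M a48 (F (T t236 (L l318 (L l339 (T t1 (L l52 (T t235 N)))))))) (K a21 (M a192 (F (T t72 (L l347 (L l499 (T t73 (L l347 (T t74 N)))))))) (K a41 (M a192 (F (T t79 (L l65 (T t35 (L l499 (T t73 N))))))) (K a61 (M a192 (F (T t72 (L l65 (L l515 (T t35 (L l130 (L l169 (T t80 N))))))))) (K a22 (M a192 (F (T t72 (T t21 (L l499 (T t73 N)))))) (K a42 (M a192 (F (T t77 (L l499 (T t73 (L l22 (T t74 N))))))) (K a62 (M a192 (F (T t72 (T t35 (L l66 (L l130 (L l169 (L l516 (T t80 N))))))))) (K a3 (M a192 (F (T t57 (L l477 (T t79 (L l307 (L l499 (T t73 N)))))))) N)))))))))))))))⟩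
def e0_63__74_94 : Ent 4 := ⟨[a0, a63], [a74, a159], (M a12 (F (T t122 (T t151 (T t152 (T t153 (K a4 (M a60 (F (T t43 (L l336 (L l339 (T t398 (T t448 N))))))) (K a8 (M a60 (F (T t67 (L l336 (L l339 (T t398 (L l52 (L l56 (T t448 N))))))))) (K a21 (M a192 (F (T t156 (L l15 (L l170 (L l347 (T t450 (L l15 (L l170 (L l347 (T t157 N))))))))))) (K a25 (M a192 (F (T t156 (L l15 (L l170 (T t450 (L l170 (T t21 N)))))))) (K a29 (M a192 (F (T t156 (L l170 (L l371 (T t21 (L l78 (L l130 (T t160 N))))))))) (K a38 (M a192 (F (T t156 (L l170 (T t450 (L l170 (T t21 N))))))) (K a42 (M a192 (F (T t156 (L l170 (T t450 (L l56 (L l170 (T t157 N)))))))) (K a46 (M a192 (F (T t156 (L l170 (T t21 (L l26 (L l78 (L l130 (L l408 (T t160 N)))))))))) (K a51 (M a192 (F (T t159 (L l170 (L l415 (T t450 (L l170 (L l439 (T t21 N))))))))) N)))))))))))))))⟩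
def e0_63__74_95 : Ent 4 := ⟨[a0, a63], [a74, a160], (M a12 (F (T t122 (T t151 (T t152 (T t153 (K a4 (M a60 (F (T t43 (L l336 (L l339 (T t398 (T t448 N))))))) (K a8 (M a60 (F (T t67 (L l336 (L l339 (T t398 (L l52 (L l56 (T t448 N))))))))) (K a21 (M a192 (F (L l78 (T t468 (L l15 (L l347 (T t450 (L l15 (L l347 (T t157 N)))))))))) (K a25 (M a192 (F (T t467 (L l192 (T t156 (L l192 (T t21 N))))))) (K a29 (M a192 (F (L l321 (T t449 (L l192 (L l371 (T t21 (L l78 (L l130 (T t160 N)))))))))) (K a38 (M a192 (F (T t450 (L l192 (T t156 (L l192 (T t21 N))))))) (K a42 (M a192 (F (T t467 (L l192 (T t156 (L l56 (T t157 N))))))) (K a46 (M a192 (F (T t35 (L l192 (T t156 (L l26 (L l78 (L l130 (L l408 (T t160 N)))))))))) (K a51 (M a192 (F (T t161 (L l192 (L l513 (T t156 (L l192 (L l439 (T t21 N))))))))) N)))))))))))))))⟩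
def e0_63__74_96 : Ent 4 := ⟨[a0, a63], [a74, a161], (M a12 (F (T t122 (T t151 (T t152 (T t153 (K a4 (M a60 (F (T t570 (L l46 (L l50 (L l453 (T t67 (T t448 N)))))))) (K a8 (M a60 (F (T t116 (L l336 (L l339 (T t398 (L l52 (L l56 (T t448 N))))))))) (K a21 (M a192 (F (T t156 (L l15 (L l347 (T t450 (L l15 (L l347 (T t157 N))))))))) (K a25 (M a192 (F (T t156 (L l15 (T t450 (T t21 N)))))) (K a29 (M a192 (F (T t156 (L l371 (T t21 (L l78 (L l130 (T t160 N)))))))) (K a38 (M a192 (F (T t156 (T t450 (T t21 N))))) (K a42 (M a192 (F (T t156 (T t450 (L l56 (T t157 N)))))) (K a46 (M a192 (F (T t156 (T t21 (L l26 (L l78 (L l130 (L l408 (T t160 N))))))))) (K a51 (M a192 (F (T t57 (L l513 (T t156 (L l415 (T t450 N))))))) N)))))))))))))))⟩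
def e0_63__74_97 : Ent 4 := ⟨[a0, a63], [a74, a162], (M a12 (F (T t151 (L l378 (T t122 (T t152 (T t153 (K a4 (M a60 (F (T t43 (L l336 (L l339 (T t398 (T t448 N))))))) (K a8 (M a60 (F (T t67 (L l336 (L l339 (T t398 (L l52 (L l56 (T t448 N))))))))) (K a21 (M a192 (F (L l78 (T t468 (L l15 (L l347 (L l378 (T t450 (L l15 (L l347 (L l378 (T t157 N)))))))))))) (K a25 (M a192 (F (T t467 (L l196 (T t156 (L l196 (T t21 N))))))) (K a29 (M a192 (F (L l321 (T t449 (L l196 (L l371 (T t21 (L l78 (L l130 (T t160 N)))))))))) (K a38 (M a192 (F (T t467 (L l196 (T t156 (L l196 (T t21 N))))))) (K a42 (M a192 (F (T t467 (L l196 (T t156 (L l56 (L l378 (T t157 N)))))))) (K a46 (M a192 (F (T t35 (L l196 (T t156 (L l26 (L l78 (L l130 (L l408 (T t160 N)))))))))) (K a51 (M a192 (F (T t576 (L l196 (L l513 (T t156 (L l196 (L l439 (T t21 N))))))))) N))))))))))))))))⟩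
def e0_63__74_98 : Ent 4 := ⟨[a0, a63], [a74, a163], (M a12 (F (T t122 (T t151 (T t152 (T t153 (K a4 (M a60 (F (T t570 (L l46 (L l50 (L l451 (T t67 (T t448 N)))))))) (K a8 (M a60 (F (T t570 (L l451 (T t67 (L l52 (L l56 (T t448 N)))))))) (K a21 (M a192 (F (T t156 (L l15 (L l347 (L l451 (T t450 (L l15 (L l347 (T t157 N)))))))))) (K a25 (M a192 (F (T t156 (L l15 (L l451 (T t450 (T t21 N))))))) (K a29 (M a192 (F (T t156 (L l371 (T t21 (L l78 (L l130 (T t160 N)))))))) (K a38 (M a192 (F (T t156 (L l451 (T t450 (T t21 N)))))) (K a42 (M a192 (F (T t156 (L l451 (T t450 (L l56 (T t157 N))))))) (K a46 (M a192 (F (T t156 (T t21 (L l26 (L l78 (L l130 (L l408 (T t160 N))))))))) (K a51 (M a192 (F (T t57 (L l513 (T t156 (L l415 (L l451 (T t450 N)))))))) N)))))))))))))))⟩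
def e0_63__74_99 : Ent 4 := ⟨[a0, a63], [a74, a165], (M a12 (F (T t122 (T t151 (T t152 (T t153 (K a4 (M a60 (F (T t43 (L l336 (L l339 (L l483 (T t398 (T t448 N)))))))) (K a8 (M a60 (F (T t67 (L l336 (L l339 (L l483 (T t398 (L l52 (L l56 (T t448 N)))))))))) (K a21 (M a192 (F (T t156 (L l15 (L l199 (L l347 (T t450 (L l15 (L l199 (L l347 (T t157 N))))))))))) (K a25 (M a192 (F (T t156 (L l15 (L l199 (T t450 (L l199 (T t21 N)))))))) (K a29 (M a192 (F (T t156 (L l199 (L l371 (T t21 (L l78 (L l130 (L l411 (T t160 N)))))))))) (K a38 (M a192 (F (T t156 (L l199 (T t450 (L l199 (T t21 N))))))) (K a42 (M a192 (F (T t156 (L l199 (T t450 (L l56 (L l199 (T t157 N)))))))) (K a46 (M a192 (F (T t156 (L l199 (T t21 (L l26 (L l78 (L l130 (L l408 (L l411 (T t160 N))))))))))) (K a51 (M a192 (F (T t159 (L l199 (L l415 (T t450 (L l199 (L l439 (T t21 N))))))))) N)))))))))))))))⟩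
def e0_63__74_100 : Ent 4 := ⟨[a0, a63], [a74, a166], (M a60 (F (T t67 (T t43 (T t68 (T t69 (K a20 (M a48 (F (T t64 (L l11 (L l318 (L l339 (T t1 (L l11 (T t235 N))))))))) (K a40 (M a48 (F (T t64 (L l318 (L l339 (T t1 (L l52 (T t235 N)))))))) (K a21 (M a192 (F (T t72 (L l202 (L l347 (T t73 (L l202 (L l347 (T t74 N))))))))) (K a41 (M a192 (F (T t77 (L l65 (L l202 (T t35 (L l202 (T t73 N)))))))) (K a61 (M a192 (F (T t72 (L l65 (L l202 (L l515 (T t35 (L l130 (L l408 (T t80 N)))))))))) (K a22 (M a192 (F (T t72 (L l202 (T t21 (L l202 (T t73 N))))))) (K a42 (M a192 (F (T t77 (L l202 (T t73 (L l22 (L l202 (T t74 N)))))))) (K a62 (M a192 (F (T t72 (L l202 (T t35 (L l66 (L l130 (L l408 (L l516 (T t80 N)))))))))) (K a3 (M a192 (F (T t254 (L l202 (L l475 (T t35 (L l202 (L l307 (T t73 N))))))))) N)))))))))))))))⟩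
def e0_63__74_101 : Ent 4 := ⟨[a0, a63], [a74, a167], (M a12 (F (T t122 (T t151 (T t152 (T t153 (K a4 (M a60 (F (T t43 (L l336 (L l339 (L l481 (T t398 (T t448 N)))))))) (K a8 (M a60 (F (T t67 (L l336 (L l339 (L l481 (T t398 (L l52 (L l56 (T t448 N)))))))))) (K a21 (M a192 (F (T t156 (L l15 (L l347 (L l481 (T t450 (L l15 (L l347 (L l457 (T t157 N))))))))))) (K a25 (M a192 (F (T t156 (L l15 (L l481 (T t450 (T t21 N))))))) (K a29 (M a192 (F (T t156 (L l371 (T t21 (L l78 (L l130 (L l201 (T t160 N))))))))) (K a38 (M a192 (F (T t156 (L l481 (T t450 (T t21 N)))))) (K a42 (M a192 (F (T t156 (L l481 (T t450 (L l56 (L l457 (T t157 N)))))))) (K a46 (M a192 (F (T t156 (T t21 (L l26 (L l78 (L l130 (L l201 (L l408 (T t160 N)))))))))) (K a51 (M a192 (F (T t57 (L l513 (T t156 (L l415 (L l481 (T t450 N)))))))) N)))))))))))))))⟩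
def e0_63__74_102 : Ent 4 := ⟨[a0, a63], [a74, a170], (M a12 (F (T t152 (L l402 (T t122 (L l390 (T t151 (L l390 (L l464 (T t153 (K a4 (M a60 (F (T t570 (L l46 (L l50 (T t67 (L l390 (L l392 (T t448 N))))))))) (K a8 (M a60 (L l464 (F (T t67 (L l336 (L l339 (T t398 (L l52 (L l56 (L l390 (L l392 (T t448 (K a89 (M a251 (F (T t67 (L l339 (L l479 (T t680 (L l52 (L l56 (L l390 (L l392 (T t448 N))))))))))) (K a251 (M a89 (F (T t67 (L l78 (L l316 (L l339 (T t870 N))))))) N)))))))))))))) (K a21 (M a192 (F (L l50 (L l321 (T t449 (L l130 (L l390 (T t221 (L l15 (L l220 (L l347 (L l464 (T t157 N))))))))))))) (K a25 (M a192 (F (L l321 (T t449 (L l130 (L l390 (T t221 (L l15 (L l56 (L l220 (L l464 (T t157 N)))))))))))) (K a29 (M a48 (F (T t550 (L l15 (L l318 (L l339 (L l462 (T t1 (L l390 (T t866 N)))))))))) (K a38 (M a192 (F (L l50 (L l321 (T t449 (L l26 (L l130 (L l390 (T t221 (L l220 (L l464 (T t157 N)))))))))))) (K a42 (M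 a106 (F (T t2414 (L l78 (L l84 (L l220 (T t2305 (L l56 (L l84 (L l178 (L l220 (L l464 (T t2306 (L l56 (L l178 (L l464 (T t2307 N))))))))))))))))) (K a46 (M a48 (F (T t550 (L l318 (L l339 (L l462 (T t1 (L l26 (L l390 (T t866 N)))))))))) (K a51 (M a192 (F (L l321 (L l513 (T t449 (L l130 (L l390 (L l415 (T t221 (L l220 (L l464 (T t157 N)))))))))))) N)))))))))))))))))))⟩
def e0_63__74_103 : Ent 4 := ⟨[a0, a63], [a74, a171], (M a12 (F (T t122 (T t151 (T t152 (T t153 (K a4 (M a60 (F (T t570 (L l46 (L l50 (L l391 (L l475 (T t67 (T t448 N))))))))) (K a8 (M a60 (F (T t2568 (L l336 (L l339 (T t398 (L l52 (L l56 (T t448 N))))))))) (K a21 (M a192 (F (T t156 (L l15 (L l347 (T t450 (L l15 (L l347 (T t157 N))))))))) (K a25 (M a192 (F (T t156 (L l15 (T t450 (L l475 (T t21 N))))))) (K a29 (M a192 (F (T t156 (L l371 (L l475 (T t21 (L l78 (L l130 (T t160 N))))))))) (K a38 (M a192 (F (T t156 (T t450 (L l475 (T t21 N)))))) (K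 a42 (M a192 (F (T t156 (T t450 (L l56 (T t157 N)))))) (K a46 (M a192 (F (T t156 (L l475 (T t21 (L l26 (L l78 (L l130 (L l408 (T t160 N)))))))))) (K a51 (M a192 (F (T t57 (L l513 (T t156 (L l415 (T t450 N))))))) N)))))))))))))))⟩
def e0_63__74_104 : Ent 4 := ⟨[a0, a63], [a74, a175], (M a12 (F (T t122 (T t151 (T t152 (T t153 (K a4 (M a60 (F (T t43 (L l336 (L l339 (L l469 (T t398 (T t448 N)))))))) (K a8 (M a60 (F (T t67 (L l336 (L l339 (L l469 (T t398 (L l52 (L l56 (T t448 N)))))))))) (K a21 (M a192 (F (T t156 (L l15 (L l347 (T t450 (L l15 (L l347 (T t157 N))))))))) (K a25 (M a192 (F (T t156 (L l15 (T t450 (L l469 (T t21 N))))))) (K a29 (M a192 (F (T t156 (L l371 (L l469 (T t21 (L l78 (L l130 (T t160 N))))))))) (K a38 (M a192 (F (T t156 (T t450 (L l469 (T t21 N)))))) (K a42 (M a192 (F (T t156 (T t450 (L l56 (T t157 N)))))) (K a46 (M a192 (F (T t156 (L l469 (T t21 (L l26 (L l78 (L l130 (L l408 (T t160 N))))))))))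 (K a51 (M a192 (F (T t161 (L l513 (T t156 (L l439 (L l469 (T t21 N)))))))) N)))))))))))))))⟩
def e0_63__74_105 : Ent 4 := ⟨[a0, a63], [a74, a176], (M a12 (F (T t122 (T t151 (T t152 (T t153 (K a4 (M a60 (F (T t43 (L l336 (L l339 (T t398 (T t448 N))))))) (K a8 (M a60 (F (T t67 (L l336 (L l339 (T t398 (L l52 (L l56 (T t448 N))))))))) (K a21 (M a192 (F (L l78 (T t468 (L l15 (L l347 (T t450 (L l15 (L l347 (T t157 N)))))))))) (K a25 (M a192 (F (T t467 (L l192 (T t156 (L l192 (T t21 N))))))) (K a29 (M a192 (F (L l321 (T t449 (L l192 (L l371 (T t21 (L l78 (L l130 (T t160 N)))))))))) (K a38 (M a192 (F (T t450 (L l192 (T t156 (L l192 (T t21 N))))))) (K a42 (M a192 (F (T t467 (L l192 (T t156 (L l56 (T t157 N))))))) (K a46 (M a192 (F (T t35 (L l192 (T t156 (L l26 (L l78 (L l130 (L l408 (T t160 N)))))))))) (K a51 (M a192 (F (T t161 (L l192 (L l513 (T t156 (L l192 (L l439 (T t21 N))))))))) N)))))))))))))))⟩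
def e0_63__74_106 : Ent 4 := ⟨[a0, a63], [a74, a177], (M a60 (F (T t67 (T t43 (T t68 (T t69 (K a20 (M a48 (F (T t277 (L l11 (L l318 (L l339 (T t1 (L l11 (T t235 N))))))))) (K a40 (M a48 (F (T t246 (L l318 (L l339 (T t1 (L l52 (T t235 N)))))))) (K a21 (M a192 (F (T t72 (L l347 (T t73 (L l347 (T t74 N))))))) (K a41 (M a192 (F (T t77 (L l65 (T t35 (T t73 N)))))) (K a61 (M a192 (F (T t72 (L l65 (L l515 (T t35 (L l130 (T t80 N)))))))) (K a22 (M a192 (F (T t72 (T t21 (T t73 N))))) (K a42 (M a192 (F (T t79 (T t73 (L l22 (T t74 N)))))) (K a62 (M a192 (F (T t72 (T t35 (L l66 (L l130 (L l516 (T t80 N)))))))) (K a3 (M a192 (F (T t614 (L l477 (T t79 (L l475 (T t35 N))))))) N)))))))))))))))⟩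
def e0_63__74_107 : Ent 4 := ⟨[a0, a63], [a74, a178], (M a12 (F (T t122 (T t151 (T t152 (T t153 (K a4 (M a60 (F (T t43 (L l336 (L l339 (T t398 (T t448 N))))))) (K a8 (M a60 (F (T t67 (L l336 (L l339 (T t398 (L l52 (L l56 (T t448 N))))))))) (K a21 (M a192 (F (T t156 (L l15 (L l347 (L l416 (T t450 (L l15 (L l347 (T t157 N)))))))))) (K a25 (M a192 (F (T t156 (L l15 (L l416 (T t450 (T t21 N))))))) (K a29 (M a192 (F (T t156 (L l371 (T t21 (L l78 (L l130 (T t160 N)))))))) (K a38 (M a192 (F (T t156 (L l416 (T t450 (T t21 N)))))) (K a42 (M a192 (F (T t156 (L l416 (T t450 (L l56 (T t157 N))))))) (K a46 (M a192 (F (T t156 (T t21 (L l26 (L l78 (L l130 (L l408 (T t160 N))))))))) (K a51 (M a192 (F (T t57 (L l513 (T t156 (L l415 (L l416 (T t450 N)))))))) N)))))))))))))))⟩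
def e0_63__74_108 : Ent 4 := ⟨[a0, a63], [a74, a179], (M a60 (F (T t67 (T t43 (T t68 (T t69 (K a20 (M a48 (F (T t138 (L l11 (L l318 (L l339 (T t1 (L l11 (T t235 N))))))))) (K a40 (M a48 (F (T t246 (L l318 (L l339 (T t1 (L l52 (T t235 N)))))))) (K a21 (M a192 (F (T t72 (L l347 (T t73 (L l196 (L l347 (T t74 N)))))))) (K a41 (M a192 (F (T t79 (L l65 (T t35 (T t73 N)))))) (K a61 (M a192 (F (T t72 (L l65 (L l515 (T t35 (L l130 (T t80 N)))))))) (K a22 (M a192 (F (T t72 (L l196 (T t21 (T t73 N)))))) (K a42 (M a192 (F (T t79 (T t73 (L l22 (L l196 (T t74 N))))))) (K a62 (M a192 (F (T t72 (T t35 (L l66 (L l130 (L l516 (T t80 N)))))))) (K a3 (M a192 (F (T t614 (L l477 (T t79 (L l475 (T t35 N))))))) N)))))))))))))))⟩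
def e0_63__74_109 : Ent 4 := ⟨[a0, a63], [a74, a181], (M a12 (F (T t122 (T t151 (T t152 (L l423 (T t153 (K a4 (M a60 (F (T t43 (L l336 (L l339 (L l443 (T t398 (T t448 N)))))))) (K a8 (M a60 (F (T t67 (L l336 (L l339 (L l443 (T t398 (L l52 (L l56 (T t448 N)))))))))) (K a21 (M a192 (F (T t156 (L l15 (L l199 (L l347 (T t450 (L l15 (L l199 (L l347 (T t157 N))))))))))) (K a25 (M a192 (F (T t156 (L l15 (L l199 (T t450 (L l199 (T t21 N)))))))) (K a29 (M a192 (F (T t156 (L l199 (L l371 (T t21 (L l78 (L l130 (L l183 (T t160 N)))))))))) (K a38 (M a192 (F (T t156 (L l199 (T t450 (L l199 (T t21 N))))))) (K a42 (M a192 (F (T t156 (L l199 (T t450 (L l56 (L l199 (T t157 N)))))))) (K a46 (M a192 (F (T t156 (L l199 (T t21 (L l26 (L l78 (L l130 (L l183 (L l408 (T t160 N))))))))))) (K a51 (M a192 (F (T t159 (L l199 (L l415 (T t450 (L l199 (L l439 (T t21 N))))))))) N))))))))))))))))⟩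
def e0_63__74_110 : Ent 4 := ⟨[a0, a63], [a74, a182], (M a12 (F (T t122 (T t151 (T t152 (T t153 (K a4 (M a60 (F (T t43 (L l336 (L l339 (T t398 (T t448 N))))))) (K a8 (M a60 (F (T t67 (L l336 (L l339 (T t398 (L l52 (L l56 (T t448 N))))))))) (K a21 (M a192 (F (T t156 (L l15 (L l347 (L l446 (T t450 (L l15 (L l347 (L l422 (T t157 N))))))))))) (K a25 (M a192 (F (T t156 (L l15 (L l446 (T t450 (T t21 N))))))) (K a29 (M a192 (F (T t156 (L l371 (T t21 (L l78 (L l130 (L l183 (T t160 N))))))))) (K a38 (M a192 (F (T t156 (L l446 (T t450 (T t21 N)))))) (K a42 (M a192 (F (T t156 (L l446 (T t450 (L l56 (L l422 (T t157 N)))))))) (K a46 (M a192 (F (T t156 (T t21 (L l26 (L l78 (L l130 (L l183 (L l408 (T t160 N)))))))))) (K a51 (M a192 (F (T t57 (L l513 (T t156 (L l415 (L l446 (T t450 N)))))))) N)))))))))))))))⟩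
def e0_63__74_111 : Ent 4 := ⟨[a0, a63], [a74, a183], (M a12 (F (T t122 (T t151 (T t152 (L l421 (T t153 (K a4 (M a60 (F (T t43 (L l336 (L l339 (T t398 (T t448 N))))))) (K a8 (M a60 (F (T t67 (L l336 (L l339 (T t398 (L l52 (L l56 (T t448 N))))))))) (K a21 (M a192 (F (L l78 (T t468 (L l15 (L l202 (L l347 (T t450 (L l50 (L l130 (T t2473 N))))))))))) (K a25 (M a192 (F (L l15 (L l202 (T t450 (L l78 (L l84 (T t836 (L l84 (L l130 (L l189 (T t202 N)))))))))))) (K a29 (M a192 (F (L l78 (T t468 (L l84 (L l130 (L l189 (T t202 (L l15 (L l202 (L l371 (T t2569 N)))))))))))) (K a38 (M a192 (F (L l202 (T t450 (L l78 (L l84 (T t836 (L l84 (L l130 (L l189 (T t202 N))))))))))) (K a42 (M a192 (F (L l202 (T t450 (L l78 (L l84 (T t836 (L l26 (L l130 (L l390 (T t2473 N))))))))))) (K a46 (M a192 (F (L l78 (T t468 (L l84 (L l130 (L l189 (L l408 (T t202 (L l202 (T t2569 N))))))))))) (K a51 (M a192 (F (L l202 (L l415 (T t450 (L l78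 (L l84 (L l513 (T t836 (L l84 (L l130 (L l189 (L l439 (T t202 N)))))))))))))) N))))))))))))))))⟩
def e0_63__74_112 : Ent 4 := ⟨[a0, a63], [a74, a186], (M a12 (F (T t122 (T t151 (T t152 (T t153 (K a4 (M a60 (F (T t43 (L l336 (L l339 (T t398 (T t448 N))))))) (K a8 (M a60 (F (T t67 (L l336 (L l339 (T t398 (L l52 (L l56 (T t448 N))))))))) (K a21 (M a192 (F (T t156 (L l15 (L l347 (T t450 (L l15 (L l347 (T t157 N))))))))) (K a25 (M a192 (F (T t156 (L l15 (T t450 (L l440 (T t21 N))))))) (K a29 (M a192 (F (T t156 (L l371 (L l440 (T t21 (L l78 (L l130 (T t160 N))))))))) (K a38 (M a192 (F (T t156 (T t450 (L l440 (T t21 N)))))) (K a42 (M a192 (F (T t156 (T t450 (L l56 (T t157 N)))))) (K a46 (M a192 (F (T t156 (L l440 (T t21 (L l26 (L l78 (L l130 (L l408 (T t160 N)))))))))) (K a51 (M a192 (F (T t57 (L l513 (T t156 (L l415 (T t450 N))))))) N)))))))))))))))⟩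
def e0_63__74_113 : Ent 4 := ⟨[a0, a63], [a74, a187], (M a60 (F (T t67 (T t43 (T t68 (T t69 (K a20 (M a48 (F (T t138 (L l11 (L l318 (L l339 (T t1 (L l11 (T t235 N))))))))) (K a40 (M a48 (F (T t236 (L l318 (L l339 (T t1 (L l52 (T t235 N)))))))) (K a21 (M a192 (F (T t72 (L l347 (T t73 (L l347 (T t74 N))))))) (K a41 (M a192 (F (T t77 (L l65 (L l439 (T t35 (T t73 N))))))) (K a61 (M a192 (F (T t72 (L l65 (L l439 (L l515 (T t35 (L l130 (T t80 N))))))))) (K a22 (M a192 (F (T t72 (L l439 (T t21 (T t73 N)))))) (K a42 (M a192 (F (T t79 (T t73 (L l22 (T t74 N)))))) (K a62 (M a192 (F (T t72 (L l439 (T t35 (L l66 (L l130 (L l516 (T t80 N))))))))) (K a3 (M a192 (F (T t614 (L l477 (T t79 (L l439 (L l475 (T t35 N)))))))) N)))))))))))))))⟩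
def e0_63__74_114 : Ent 4 := ⟨[a0, a63], [a74, a191], (M a12 (F (T t122 (T t151 (T t152 (T t153 (K a4 (M a60 (F (T t43 (L l336 (L l339 (T t398 (T t448 N))))))) (K a8 (M a60 (F (T t67 (L l336 (L l339 (T t398 (L l52 (L l56 (T t448 N))))))))) (K a21 (M a192 (F (L l78 (T t468 (L l130 (T t221 (L l15 (L l220 (L l347 (T t157 N)))))))))) (K a25 (M a192 (F (L l321 (T t449 (L l130 (T t221 (L l15 (L l220 (T t35 N))))))))) (K a29 (M a192 (F (L l321 (T t449 (L l15 (L l220 (L l371 (T t35 (L l78 (L l130 (L l189 (T t160 N)))))))))))) (K a38 (M a192 (F (L l78 (T t468 (L l26 (L l130 (T t221 (L l50 (L l220 (T t35 N)))))))))) (K a42 (M a192 (F (L l321 (T t449 (L l26 (L l130 (L l390 (T t221 (L l56 (L l220 (T t157 N))))))))))) (K a46 (M a192 (F (L l220 (T t35 (L l321 (T t449 (L l26 (L l78 (L l130 (L l189 (L l408 (T t160 N)))))))))))) (K a51 (M a192 (F (L l220 (L l439 (T t35 (L l321 (L l513 (T t449 (L l130 (L l415 (T t221 N)))))))))))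 N)))))))))))))))⟩
def e0_63__74_115 : Ent 4 := ⟨[a0, a63], [a74, a192], (M a15 (F (T t1071 (L l318 (L l484 (T t716 (L l484 (T t731 (L l484 (T t723 (L l484 (T t732 (K a48 (M a4 (L l484 (F (T t129 (L l45 (L l309 (L l318 (T t2570 (L l318 (T t2571 (K a144 (M a96 (F (T t129 (L l45 (L l309 (L l318 (T t2570 (L l318 (T t2571 N))))))))) (K a96 (M a144 (F (T t129 (L l45 (L l309 (L l318 (T t2570 (L l318 (T t2571 N))))))))) N)))))))))))) (K a5 (M a12 (F (T t2061 (L l514 (T t2544 (L l5 (T t722 N))))))) (K a21 (M a255 (F (T t2572 (L l268 (L l318 (T t2573 (L l47 (L l268 (L l347 (T t2574 N)))))))))) (K a37 (M a4 (F (L l28 (T t129 (L l51 (L l309 (L l318 (T t2570 (L l21 (L l28 (L l318 (T t2571 N)))))))))))) (K a10 (M a12 (L l318 (F (T t150 (L l514 (T t2544 (L l54 (T t722 (K a138 (M a202 (F (T t2575 (L l514 (T t2576 (L l2 (L l54 (L l320 (T t2577 N))))))))) (K a202 (M a138 (L l236 (F (T t2575 (L l84 (L l232 (T t2578 (K a197 (Fr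 a207 a69 l332 (V t2579)) (K a207 (M a197 (F (T t2580 (L l489 (L l511 (T t122 (L l2 (L l54 (T t2577 N))))))))) N))))))))) N)))))))))) (K a26 (M a8 (F (T t2581 (L l18 (L l489 (T t414 (L l12 (L l18 (T t2582 N))))))))) (K a42 (M a255 (F (T t2583 (L l84 (L l236 (T t2584 (L l28 (L l268 (T t2574 N))))))))) (K a31 (M a4 (F (T t129 (L l309 (L l318 (T t2570 (L l17 (L l318 (T t2571 N))))))))) (K a47 (M a4 (F (L l309 (L l318 (T t2570 (L l28 (L l489 (T t519 (L l28 (L l318 (T t2571 N))))))))))) N)))))))))))))))))))))⟩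
def e0_63__74_116 : Ent 4 := ⟨[a0, a63], [a74, a193], (M a12 (F (T t122 (T t151 (T t152 (T t153 (K a4 (M a60 (F (T t43 (L l336 (L l339 (L l515 (T t398 (T t448 N)))))))) (K a8 (M a60 (F (T t67 (L l336 (L l339 (L l515 (T t398 (L l52 (L l56 (T t448 N)))))))))) (K a21 (M a192 (F (T t156 (L l15 (L l347 (L l515 (T t450 (L l15 (L l347 (L l515 (T t157 N))))))))))) (K a25 (M a192 (F (T t156 (L l15 (L l515 (T t450 (L l515 (T t21 N)))))))) (K a29 (M a192 (F (T t156 (L l371 (L l515 (T t21 (L l78 (L l130 (L l293 (T t160 N)))))))))) (K a38 (M a192 (F (T t156 (L l515 (T t450 (L l515 (T t21 N))))))) (K a42 (M a192 (F (T t156 (L l515 (T t450 (L l56 (L l515 (T t157 N)))))))) (K a46 (M a192 (F (T t156 (L l515 (T t21 (L l26 (L l78 (L l130 (L l293 (L l408 (T t160 N))))))))))) (K a51 (M a192 (F (T t159 (L l415 (L l515 (T t450 (L l439 (L l515 (T t21 N))))))))) N)))))))))))))))⟩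
def e0_63__74_117 : Ent 4 := ⟨[a0, a63], [a74, a194], (M a12 (L l336 (F (T t122 (T t151 (T t152 (T t153 (K a4 (M a14 (F (T t734 (L l318 (T t2506 (L l50 (L l318 (T t728 (L l50 (L l486 (T t2585 N))))))))))) (K a8 (M a14 (F (T t734 (L l2 (L l56 (L l318 (T t2506 (L l2 (L l318 (T t728 (L l486 (T t2585 N)))))))))))) (K a21 (M a15 (L l336 (F (T t2544 (L l47 (L l306 (T t717 (L l15 (L l18 (L l47 (L l50 (L l306 (L l321 (T t2586 (K a134 (Fr a14 a13 l3 (V t2587)) (K a14 (M a134 (F (L l228 (T t2588 (L l78 (T t2589 (L l6 (L l318 (T t2590 N))))))))) N)))))))))))))))) (K a25 (M a15 (L l336 (F (L l321 (T t2591 (L l19 (T t2544 (L l56 (L l318 (T t716 (K a134 (Fr a14 a13 l3 (V t2587)) (K a14 (M a134 (F (L l15 (T t732 (L l228 (L l306 (T t2592 N))))))) N)))))))))))) (K a29 (M a14 (F (L l59 (T t2515 (L l59 (L l306 (T t727 (L l13 (L l486 (T t2593 N)))))))))) (K a38 (M a14 (F (L l516 (T t726 (L l306 (T t727 (L l48 (L l50 (L l318 (T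 t728 N)))))))))) (K a42 (M a15 (L l336 (F (T t720 (L l321 (T t2591 (L l66 (L l306 (L l321 (T t2586 (K a134 (Fr a14 a13 l3 (V t2587)) (K a14 (M a134 (F (L l78 (T t2589 (L l6 (L l54 (L l56 (L l318 (T t2594 (L l228 (L l306 (T t2592 N)))))))))))) N)))))))))))) (K a46 (M a14 (F (T t2513 (L l306 (T t727 (L l26 (L l486 (T t2505 N)))))))) (K a51 (M a14 (F (T t734 (L l43 (L l306 (T t727 (L l318 (T t728 N)))))))) (K a134 (M a14 (F (T t151 (L l306 (T t727 (L l516 (T t726 N))))))) (K a14 (M a134 (F (T t122 (L l318 (L l324 (T t2595 (L l60 (L l78 (L l324 (T t2596 (K a4 (M a32 (F (L l78 (L l486 (T t2597 (L l50 (T t2493 N))))))) N))))))))))) N))))))))))))))))))⟩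
def e0_63__74_118 : Ent 4 := ⟨[a0, a63], [a74, a195], (M a12 (F (T t150 (L l487 (T t122 (L l487 (T t151 (L l487 (T t152 (L l487 (T t153 (K a4 (M a60 (F (T t570 (L l46 (L l50 (L l307 (T t67 (T t448 N)))))))) (K a8 (M a60 (F (T t116 (L l336 (L l337 (L l339 (T t398 (L l52 (L l56 (T t448 N)))))))))) (K a21 (M a192 (F (L l237 (T t156 (L l15 (L l271 (L l347 (T t450 (L l15 (L l347 (T t157 N))))))))))) (K a25 (M a192 (F (T t159 (L l15 (L l271 (T t450 (L l295 (T t21 N)))))))) (K a29 (M a192 (F (T t159 (L l295 (L l371 (T t21 (L l78 (L l130 (T t160 N))))))))) (K a38 (M a192 (F (T t161 (L l237 (T t156 (L l295 (T t21 N))))))) (K a42 (M a192 (F (T t161 (L l237 (T t156 (L l56 (T t157 N))))))) (K a46 (M a192 (F (T t57 (L l237 (T t156 (L l26 (L l78 (L l130 (L l408 (T t160 N)))))))))) (K a51 (M a192 (L l487 (F (T t47 (L l237 (L l513 (T t156 (L l271 (L l415 (T t450 (K a147 (M a99 (F (T t47 (L l271 (L l415 (T t467 (L l78 (L l237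 (L l513 (T t468 N)))))))))) (K a99 (M a147 (F (T t47 (L l271 (L l415 (T t467 (L l78 (L l237 (L l513 (T t468 N)))))))))) N)))))))))))) N))))))))))))))))))))⟩
def e0_63__74_119 : Ent 4 := ⟨[a0, a63], [a74, a197], (M a12 (F (T t122 (T t151 (T t152 (T t153 (K a4 (M a60 (F (T t43 (L l336 (L l339 (T t398 (T t448 N))))))) (K a8 (M a60 (F (T t67 (L l336 (L l339 (T t398 (L l52 (L l56 (T t448 N))))))))) (K a21 (M a192 (F (T t156 (L l15 (L l347 (L l491 (T t450 (L l15 (L l347 (L l491 (T t157 N))))))))))) (K a25 (M a192 (F (T t156 (L l15 (L l491 (T t450 (L l491 (T t21 N)))))))) (K a29 (M a192 (F (T t156 (L l371 (L l491 (T t21 (L l78 (L l130 (L l275 (T t160 N)))))))))) (K a38 (M a192 (F (T t156 (L l491 (T t450 (L l491 (T t21 N))))))) (K a42 (M a192 (F (T t156 (L l491 (T t450 (L l56 (L l491 (T t157 N)))))))) (K a46 (M a192 (F (T t156 (L l491 (T t21 (L l26 (L l78 (L l130 (L l275 (L l408 (T t160 N))))))))))) (K a51 (M a192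 (F (T t159 (L l415 (L l491 (T t450 (L l439 (L l491 (T t21 N))))))))) N)))))))))))))))⟩
def e0_63__74_120 : Ent 4 := ⟨[a0, a63], [a74, a198], (M a12 (F (T t122 (T t151 (T t152 (T t153 (K a4 (M a60 (F (T t43 (L l336 (L l339 (T t398 (T t448 N))))))) (K a8 (M a60 (F (T t67 (L l336 (L l339 (T t398 (L l52 (L l56 (T t448 N))))))))) (K a21 (M a192 (F (L l237 (T t156 (L l15 (L l347 (T t450 (L l15 (L l347 (T t157 N)))))))))) (K a25 (M a192 (F (T t467 (L l237 (T t156 (T t21 N)))))) (K a29 (M a192 (F (T t159 (L l371 (T t21 (L l78 (L l130 (T t160 N)))))))) (K a38 (M a192 (F (T t450 (L l237 (T t156 (T t21 N)))))) (K a42 (M a192 (F (T t450 (L l237 (T t156 (L l56 (T t157 N))))))) (K a46 (M a192 (F (T t21 (L l237 (T t156 (L l26 (L l78 (L l130 (L l408 (T t160 N)))))))))) (K a51 (M a192 (F (T t57 (L l237 (L l513 (T t156 (L l415 (T t450 N)))))))) N)))))))))))))))⟩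
def e0_63__74_121 : Ent 4 := ⟨[a0, a63], [a74, a199], (M a60 (F (T t67 (T t43 (T t68 (T t69 (K a20 (M a48 (F (T t64 (L l11 (L l318 (L l339 (T t1 (L l11 (L l313 (T t235 N)))))))))) (K a40 (M a48 (F (T t64 (L l318 (L l339 (T t1 (L l52 (L l313 (T t235 N))))))))) (K a21 (M a192 (F (T t72 (L l235 (L l347 (T t73 (L l277 (L l347 (T t74 N))))))))) (K a41 (M a192 (F (T t77 (L l65 (T t35 (L l235 (T t73 N))))))) (K a61 (M a192 (F (T t72 (L l65 (L l515 (T t35 (L l130 (L l493 (T t80 N))))))))) (K a22 (M a192 (F (T t72 (T t21 (L l235 (T t73 N)))))) (K a42 (M a192 (F (T t79 (L l235 (T t73 (L l22 (L l277 (T t74 N)))))))) (K a62 (M a192 (F (T t72 (T t35 (L l66 (L l130 (L l493 (L l516 (T t80 N))))))))) (K a3 (M a192 (F (T t614 (L l477 (T t79 (L l475 (T t35 N))))))) N)))))))))))))))⟩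
def e0_63__74_122 : Ent 4 := ⟨[a0, a63], [a74, a202], (M a12 (L l318 (F (T t122 (T t151 (T t152 (T t153 (K a4 (M a10 (F (L l1 (T t1374 (L l1 (L l50 (L l498 (T t2561 (L l50 (L l498 (T t2598 (L l50 (L l498 (T t2599 N)))))))))))))) (K a8 (M a10 (F (T t2565 (L l336 (T t2151 (L l498 (T t2599 (L l498 (T t2600 N))))))))) (K a21 (M a192 (L l318 (F (T t156 (L l15 (L l347 (T t450 (L l15 (L l347 (T t157 (K a10 (M a138 (F (L l347 (T t467 (L l50 (L l230 (L l336 (T t2420 N)))))))) (K a138 (M a10 (F (L l160 (T t156 (L l15 (L l18 (L l47 (T t2149 N)))))))) N)))))))))))) (K a25 (M a10 (F (L l321 (T t2421 (L l15 (L l498 (T t2561 (L l15 (L l321 (L l336 (T t2601 (L l15 (L l321 (T t2602 N)))))))))))))) (K a29 (M a10 (F (L l321 (T t2421 (L l15 (L l498 (T t2561 (L l15 (L l321 (T t2603 N)))))))))) (K a38 (M a10 (F (L l50 (T t2604 (L l26 (L l72 (L l336 (T t2151 (L l26 (L l48 (L l50 (L l321 (T t2605 (L l29 (L l50 (L l321 (T t2606 N)))))))))))))))))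 (K a42 (M a106 (L l318 (F (T t2414 (L l56 (L l84 (T t2415 (L l78 (L l84 (T t2305 (K a10 (M a138 (L l54 (F (T t2418 (L l230 (L l336 (T t2420 (K a26 (M a58 (F (T t2419 (L l84 (L l230 (T t2439 N)))))) (K a58 (M a26 (F (T t2414 (L l230 (T t2607 N))))) N))))))))) (K a138 (M a10 (F (T t2414 (L l321 (T t2608 N))))) N)))))))))))) (K a46 (M a10 (F (T t2609 (L l498 (T t2561 (T t2610 N)))))) (K a51 (M a192 (L l318 (F (T t47 (L l513 (T t156 (L l415 (T t450 (K a10 (M a138 (F (T t47 (L l230 (L l336 (T t2420 N)))))) (K a138 (M a10 (F (T t576 (L l73 (L l321 (T t2611 N)))))) N)))))))))) (K a10 (M a138 (F (T t122 (L l230 (L l336 (T t2420 (L l84 (T t2612 (K a8 (M a192 (L l2 (F (T t467 (T t21 (L l78 (L l84 (L l316 (T t2613 (K a9 (M a11 (F (T t467 (T t21 (L l78 (L l84 (L l316 (T t2613 N)))))))) (K a11 (M a9 (L l321 (F (T t450 (L l6 (L l84 (L l234 (T t2614 (K a200 (M a137 (L l230 (L l316 (F (T t450 (L l7 (L l84 (L l319 (T t2615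 (K a72 (Fr a136 a139 l154 (V t2616)) (K a136 (Fr a72 a132 l334 (V t2617)) (K a201 (M a203 (L l316 (F (T t467 (L l84 (T t2618 (K a72 (Fr a136 a139 l154 (V t2616)) (K a136 (Fr a72 a132 l334 (V t2617)) N)))))))) (K a203 (Fr a201 a73 l317 (V t2619)) N))))))))))))) (K a137 (M a200 (F (T t2620 (L l6 (T t2621 N))))) N)))))))))) N))))))))))) N))))))))) (K a138 (M a10 (F (T t122 (L l321 (L l330 (T t2421 (L l498 (T t2561 N)))))))) N))))))))))))))))))⟩
def e0_63__74_123 : Ent 4 := ⟨[a0, a63], [a74, a203], (M a60 (F (T t67 (T t43 (T t68 (T t69 (K a20 (M a48 (F (T t64 (L l11 (L l318 (L l339 (T t1 (L l11 (L l500 (T t235 N)))))))))) (K a40 (M a48 (F (T t64 (L l318 (L l339 (T t1 (L l52 (L l500 (T t235 N))))))))) (K a21 (M a192 (F (T t72 (L l235 (L l347 (L l499 (T t73 (L l347 (T t74 N))))))))) (K a41 (M a192 (F (T t77 (L l65 (T t35 (L l235 (L l499 (T t73 N)))))))) (K a61 (M a192 (F (T t72 (L l65 (L l515 (T t35 (L l130 (T t80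 N)))))))) (K a22 (M a192 (F (T t72 (T t21 (L l235 (L l499 (T t73 N))))))) (K a42 (M a192 (F (T t77 (L l235 (L l499 (T t73 (L l22 (T t74 N)))))))) (K a62 (M a192 (F (T t72 (T t35 (L l66 (L l130 (L l516 (T t80 N)))))))) (K a3 (M a192 (F (T t57 (L l477 (T t79 (L l235 (L l307 (L l499 (T t73 N))))))))) N)))))))))))))))⟩
def e0_63__74_124 : Ent 4 := ⟨[a0, a63], [a74, a207], (M a60 (F (T t116 (L l331 (T t67 (L l331 (T t43 (L l331 (T t68 (L l331 (T t69 (K a20 (M a48 (F (T t138 (L l11 (L l318 (L l325 (L l339 (T t1 (L l11 (T t235 N)))))))))) (K a40 (M a48 (F (T t607 (L l511 (T t64 (L l52 (T t235 N))))))) (K a21 (M a192 (F (L l291 (T t72 (L l235 (L l347 (T t73 (L l347 (T t74 N))))))))) (K a41 (M a192 (F (T t254 (L l65 (L l289 (T t35 (L l235 (T t73 N)))))))) (K a61 (M a192 (F (T t254 (L l65 (L l289 (L l515 (T t35 (L l130 (T t80 N))))))))) (K a22 (M a192 (F (T t614 (L l11 (L l291 (T t79 (L l11 (L l289 (T t35 N)))))))))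 (K a42 (M a192 (F (T t614 (L l291 (T t79 (L l22 (T t74 N))))))) (K a62 (M a192 (F (T t57 (L l291 (T t79 (L l66 (L l130 (L l516 (T t80 N))))))))) (K a3 (M a85 (L l331 (F (T t447 (T t115 (K a71 (M a139 (F (T t447 (T t115 N)))) (K a139 (M a71 (F (T t447 (T t115 N)))) N))))))) N))))))))))))))))))))⟩
def e0_63__74_125 : Ent 4 := ⟨[a0, a63], [a74, a208], (M a12 (F (T t122 (T t151 (T t152 (T t153 (K a4 (M a60 (F (T t43 (L l336 (L l339 (T t398 (T t448 N))))))) (K a8 (M a60 (F (T t68 (L l336 (L l339 (T t398 (L l52 (L l56 (T t448 N))))))))) (K a21 (M a192 (F (T t156 (L l15 (L l347 (L l375 (T t450 (L l15 (L l347 (L l375 (T t157 N))))))))))) (K a25 (M a192 (F (T t156 (L l15 (L l375 (T t450 (L l375 (T t21 N)))))))) (K a29 (M a192 (F (T t156 (L l371 (L l375 (T t21 (L l78 (L l130 (L l246 (T t160 N)))))))))) (K a38 (M a192 (F (T t156 (L l375 (T t450 (L l375 (T t21 N))))))) (K a42 (M a192 (F (T t156 (L l375 (T t450 (L l56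 (L l375 (T t157 N)))))))) (K a46 (M a192 (F (T t156 (L l375 (T t21 (L l26 (L l78 (L l130 (L l246 (L l408 (T t160 N))))))))))) (K a51 (M a192 (F (T t159 (L l375 (L l415 (T t450 (L l375 (L l439 (T t21 N))))))))) N)))))))))))))))⟩
def e0_63__74_126 : Ent 4 := ⟨[a0, a63], [a74, a209], (M a12 (F (T t152 (L l371 (T t122 (L l341 (T t151 (T t153 (K a4 (M a60 (F (T t43 (L l336 (L l339 (L l371 (T t398 (L l341 (T t448 N))))))))) (K a8 (M a60 (F (T t67 (L l336 (L l339 (L l371 (T t398 (L l52 (L l56 (L l341 (T t448 N))))))))))) (K a21 (M a192 (F (T t156 (L l347 (L l371 (T t467 (L l347 (L l371 (T t2622 N))))))))) (K a25 (M a192 (F (T t156 (L l371 (T t467 (L l371 (T t21 N))))))) (K a29 (M a149 (F (L l243 (T t25 (L l130 (T t648 (L l243 (T t961 N)))))))) (K a38 (M a192 (F (L l371 (T t467 (T t156 (L l371 (T t21 N))))))) (K a42 (M a192 (F (T t156 (L l371 (T t467 (L l56 (L l371 (T t2622 N)))))))) (K a46 (M a192 (F (T t156 (L l371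 (T t21 (L l26 (L l78 (L l130 (L l243 (L l408 (T t160 N))))))))))) (K a51 (M a192 (F (T t159 (L l371 (L l415 (T t467 (L l371 (L l439 (T t21 N))))))))) N)))))))))))))))))⟩
def e0_63__74_127 : Ent 4 := ⟨[a0, a63], [a74, a210], (M a12 (F (T t122 (T t151 (T t152 (T t153 (K a4 (M a60 (F (T t43 (L l336 (L l339 (T t398 (T t448 N))))))) (K a8 (M a60 (F (T t67 (L l336 (L l339 (T t398 (L l52 (L l56 (T t448 N))))))))) (K a21 (M a192 (F (T t156 (L l15 (L l270 (L l347 (T t450 (L l15 (L l270 (L l347 (T t157 N))))))))))) (K a25 (M a192 (F (T t156 (L l15 (L l270 (T t450 (T t21 N))))))) (K a29 (M a192 (F (T t156 (L l371 (T t21 (L l78 (L l130 (T t160 N)))))))) (K a38 (M a192 (F (T t156 (L l270 (T t450 (T t21 N)))))) (K a42 (M a192 (F (T t156 (L l270 (T t450 (L l56 (L l270 (T t157 N)))))))) (K a46 (M a192 (F (T t156 (T t21 (L l26 (L l78 (L l130 (L l408 (T t160 N))))))))) (K a51 (M a192 (F (T t47 (L l513 (T t156 (L l270 (L l415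 (T t450 N)))))))) N)))))))))))))))⟩
def e0_63__74_128 : Ent 4 := ⟨[a0, a63], [a74, a211], (M a12 (F (T t122 (T t151 (T t152 (T t153 (K a4 (M a60 (F (T t43 (L l336 (L l339 (T t398 (T t448 N))))))) (K a8 (M a60 (F (T t68 (L l336 (L l339 (T t398 (L l52 (L l56 (T t448 N))))))))) (K a21 (M a192 (F (T t156 (L l15 (L l271 (L l347 (T t450 (L l15 (L l347 (T t157 N)))))))))) (K a25 (M a192 (F (T t156 (L l15 (L l271 (T t450 (T t21 N))))))) (K a29 (M a192 (F (T t156 (L l371 (T t21 (L l78 (L l130 (T t160 N)))))))) (K a38 (M a192 (F (T t156 (L l271 (T t450 (T t21 N)))))) (K a42 (M a192 (F (T t156 (L l271 (T t450 (L l56 (T t157 N))))))) (K a46 (M a192 (F (T t156 (T t21 (L l26 (L l78 (L l130 (L l408 (T t160 N))))))))) (K a51 (M a192 (F (T t47 (L l513 (T t156 (L l271 (L l415 (T t450 N)))))))) N)))))))))))))))⟩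
def e0_63__74_129 : Ent 4 := ⟨[a0, a63], [a74, a213], (M a12 (F (T t151 (L l347 (T t122 (L l347 (T t152 (T t153 (K a4 (M a60 (F (T t43 (L l336 (L l339 (T t398 (T t448 N))))))) (K a8 (M a60 (F (T t570 (L l347 (T t67 (L l52 (L l56 (T t448 N)))))))) (K a21 (M a85 (F (T t1370 (L l15 (L l278 (T t574 (T t124 N))))))) (K a25 (M a192 (F (T t156 (L l15 (L l347 (T t450 (L l347 (T t21 N)))))))) (K a29 (M a192 (F (T t156 (L l347 (L l371 (T t21 (L l347 (L l371 (T t2623 N))))))))) (K a38 (M a192 (F (T t156 (L l347 (T t450 (L l347 (T t21 N))))))) (K a42 (M a192 (F (T t156 (L l347 (T t450 (L l56 (L l278 (L l347 (T t157 N))))))))) (K a46 (M a192 (F (T t156 (L l347 (T t21 (L l347 (T t2623 N))))))) (K a51 (M a192 (F (T t159 (L l347 (L l415 (T t450 (L l347 (L l439 (T t21 N))))))))) N)))))))))))))))))⟩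
def e0_63__74_130 : Ent 4 := ⟨[a0, a63], [a74, a214], (M a12 (F (T t122 (T t151 (T t152 (T t153 (K a4 (M a60 (F (T t43 (L l336 (L l339 (T t398 (T t448 N))))))) (K a8 (M a60 (F (T t67 (L l336 (L l339 (T t398 (L l52 (L l56 (T t448 N))))))))) (K a21 (M a192 (F (T t156 (L l15 (L l347 (T t450 (L l15 (L l347 (T t157 N))))))))) (K a25 (M a192 (F (T t467 (T t156 (T t21 N))))) (K a29 (M a192 (F (T t156 (L l371 (T t21 (L l78 (L l130 (L l239 (T t160 N))))))))) (K a38 (M a192 (F (T t156 (T t450 (T t21 N))))) (K a42 (M a192 (F (T t156 (T t450 (L l56 (T t157 N)))))) (K a46 (M a192 (F (T t156 (T t21 (L l26 (L l78 (L l130 (L l239 (L l408 (T t160 N)))))))))) (K a51 (M a192 (F (T t47 (L l513 (T t156 (L l415 (T t450 N))))))) N)))))))))))))))⟩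
def e0_63__74_131 : Ent 4 := ⟨[a0, a63], [a74, a215], (M a12 (F (T t122 (T t151 (T t152 (T t153 (K a4 (M a60 (F (T t69 (L l336 (L l339 (T t398 (L l349 (T t448 N)))))))) (K a8 (M a60 (F (T t68 (L l336 (L l339 (T t398 (L l52 (L l56 (L l349 (T t448 N)))))))))) (K a21 (M a192 (F (T t156 (L l15 (L l347 (T t450 (L l15 (L l277 (L l347 (T t157 N)))))))))) (K a25 (M a192 (F (T t156 (L l15 (T t450 (L l295 (T t21 N))))))) (K a29 (M a192 (F (T t156 (L l295 (L l371 (T t21 (L l78 (L l130 (L l239 (T t160 N)))))))))) (K a38 (M a192 (F (T t156 (T t450 (L l295 (T t21 N)))))) (K a42 (M a192 (F (T t156 (T t450 (L l56 (L l277 (T t157 N))))))) (K a46 (M a192 (F (T t156 (L l295 (T t21 (L l26 (L l78 (L l130 (L l239 (L l408 (T t160 N))))))))))) (K a51 (M a85 (F (T t571 (L l239 (L l277 (T t572 N)))))) N)))))))))))))))⟩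
def e0_63__74_132 : Ent 4 := ⟨[a0, a63], [a74, a218], (M a12 (F (T t122 (T t151 (T t152 (T t153 (K a4 (M a60 (F (T t43 (L l336 (L l339 (T t398 (T t448 N))))))) (K a8 (M a60 (F (T t67 (L l336 (L l339 (T t398 (L l52 (L l56 (T t448 N))))))))) (K a21 (M a192 (F (T t156 (L l15 (L l347 (T t450 (L l15 (L l347 (T t157 N))))))))) (K a25 (M a192 (F (T t467 (T t156 (T t21 N))))) (K a29 (M a192 (F (T t156 (L l371 (T t21 (L l78 (L l130 (L l246 (T t160 N))))))))) (K a38 (M a192 (F (T t156 (T t450 (T t21 N))))) (K a42 (M a192 (F (T t156 (T t450 (L l56 (T t157 N)))))) (K a46 (M a192 (F (T t156 (T t21 (L l26 (L l78 (L l130 (L l246 (L l408 (T t160 N)))))))))) (K a51 (M a192 (F (T t47 (L l513 (T t156 (L l415 (T t450 N))))))) N)))))))))))))))⟩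
def e0_63__74_133 : Ent 4 := ⟨[a0, a63], [a74, a219], (M a12 (F (T t122 (T t151 (T t152 (T t153 (K a4 (M a60 (F (T t43 (L l336 (L l339 (T t398 (T t448 N))))))) (K a8 (M a60 (F (T t67 (L l336 (L l339 (T t398 (L l52 (L l56 (T t448 N))))))))) (K a21 (M a192 (F (T t156 (L l15 (L l301 (L l347 (T t450 (L l15 (L l347 (T t157 N)))))))))) (K a25 (M a192 (F (T t156 (L l15 (L l301 (T t450 (T t21 N))))))) (K a29 (M a192 (F (T t156 (L l371 (T t21 (L l78 (L l130 (T t160 N)))))))) (K a38 (M a192 (F (T t156 (L l301 (T t450 (T t21 N)))))) (K a42 (M a192 (F (T t156 (L l301 (T t450 (L l56 (T t157 N))))))) (K a46 (M a192 (F (T t156 (T t21 (L l26 (L l78 (L l130 (L l408 (T t160 N))))))))) (K a51 (M a192 (F (T t57 (L l513 (T t156 (L l301 (L l415 (T t450 N)))))))) N)))))))))))))))⟩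
def e0_63__74_134 : Ent 4 := ⟨[a0, a63], [a74, a223], (M a12 (F (T t122 (T t151 (T t152 (T t153 (K a4 (M a60 (F (T t43 (L l336 (L l339 (T t398 (T t448 N))))))) (K a8 (M a60 (F (T t68 (L l336 (L l339 (T t398 (L l52 (L l56 (T t448 N))))))))) (K a21 (M a192 (F (T t156 (L l15 (L l347 (T t450 (L l15 (L l347 (T t157 N))))))))) (K a25 (M a192 (F (T t156 (L l15 (T t450 (L l289 (T t21 N))))))) (K a29 (M a192 (F (T t156 (L l289 (L l371 (T t21 (L l78 (L l130 (L l246 (T t160 N)))))))))) (K a38 (M a192 (F (T t156 (T t450 (L l289 (T t21 N)))))) (K a42 (M a192 (F (T t156 (T t450 (L l56 (T t157 N)))))) (K a46 (M a192 (F (T t156 (L l289 (T t21 (L l26 (L l78 (L l130 (L l246 (L l408 (T t160 N))))))))))) (K a51 (M a192 (F (T t57 (L l513 (T t156 (L l415 (T t450 N))))))) N)))))))))))))))⟩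
def e0_63__74_135 : Ent 4 := ⟨[a0, a63], [a74, a224], (M a12 (F (T t122 (T t151 (T t152 (T t153 (K a4 (M a60 (F (T t43 (L l336 (L l339 (T t398 (T t448 N))))))) (K a8 (M a60 (F (T t68 (L l336 (L l339 (T t398 (L l52 (L l56 (T t448 N))))))))) (K a21 (M a192 (F (T t156 (L l15 (L l248 (L l347 (T t450 (L l15 (L l248 (L l347 (T t157 N))))))))))) (K a25 (M a192 (F (T t467 (T t156 (T t21 N))))) (K a29 (M a192 (F (T t156 (L l371 (T t21 (L l78 (L l130 (L l411 (T t160 N))))))))) (K a38 (M a192 (F (T t467 (T t156 (T t21 N))))) (K a42 (M a192 (F (T t156 (L l248 (T t450 (L l56 (L l248 (T t157 N)))))))) (K a46 (M a192 (F (T t156 (T t21 (L l26 (L l78 (L l130 (L l408 (L l411 (T t160 N)))))))))) (K a51 (M a192 (F (T t47 (L l513 (T t156 (L l248 (L l415 (T t450 N)))))))) N)))))))))))))))⟩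
def e0_63__74_136 : Ent 4 := ⟨[a0, a63], [a74, a225], (M a12 (F (T t122 (T t151 (T t152 (T t153 (K a4 (M a60 (F (T t43 (L l336 (L l339 (T t398 (T t448 N))))))) (K a8 (M a60 (F (T t67 (L l336 (L l339 (T t398 (L l52 (L l56 (T t448 N))))))))) (K a21 (M a192 (F (T t156 (L l15 (L l248 (L l347 (T t450 (L l15 (L l248 (L l347 (T t157 N))))))))))) (K a25 (M a192 (F (T t156 (L l15 (L l248 (T t450 (T t21 N))))))) (K a29 (M a192 (F (T t156 (L l371 (T t21 (L l78 (L l130 (T t160 N)))))))) (K a38 (M a192 (F (T t156 (L l248 (T t450 (T t21 N)))))) (K a42 (M a192 (F (T t156 (L l248 (T t450 (L l56 (L l248 (T t157 N)))))))) (K a46 (M a192 (F (T t156 (T t21 (L l26 (L l78 (L l130 (L l408 (T t160 N))))))))) (K a51 (M a192 (F (T t47 (L l513 (T t156 (L l248 (L l415 (T t450 N)))))))) N)))))))))))))))⟩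
def e0_63__74_137 : Ent 4 := ⟨[a0, a63], [a74, a226], (M a12 (F (T t152 (L l378 (T t122 (L l408 (T t151 (T t153 (K a4 (M a60 (F (T t43 (L l336 (L l339 (T t398 (L l408 (T t448 N)))))))) (K a8 (M a60 (F (T t68 (L l336 (L l339 (T t398 (L l52 (L l56 (L l408 (T t448 N)))))))))) (K a21 (M a192 (F (T t156 (L l78 (L l130 (L l408 (T t543 (L l50 (L l84 (L l130 (L l408 (T t681 N)))))))))))) (K a25 (M a192 (F (T t156 (L l78 (L l130 (L l408 (T t543 (T t21 N)))))))) (K a29 (M a192 (F (T t156 (L l371 (T t21 (L l78 (L l130 (L l408 (T t160 N))))))))) (K a38 (M a192 (F (T t156 (L l78 (L l130 (L l408 (T t543 (T t21 N)))))))) (K a42 (M a192 (F (T t156 (L l78 (L l130 (L l390 (L l408 (T t543 (L l84 (L l130 (L l390 (L l408 (T t681 N))))))))))))) (K a46 (M a106 (F (T t564 (L l78 (L l84 (T t2305 (L l78 (L l254 (T t2476 N))))))))) (K a51 (M a192 (F (T t159 (L l78 (L l130 (L l408 (L l415 (T t543 (L l439 (T t21 N)))))))))) N)))))))))))))))))⟩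
def e0_63__74_138 : Ent 4 := ⟨[a0, a63], [a74, a227], (M a12 (F (T t122 (T t151 (T t152 (T t153 (K a4 (M a60 (F (T t43 (L l336 (L l339 (T t398 (T t448 N))))))) (K a8 (M a60 (F (T t68 (L l336 (L l339 (T t398 (L l52 (L l56 (T t448 N))))))))) (K a21 (M a192 (F (T t156 (L l15 (L l248 (L l271 (L l347 (T t450 (L l15 (L l248 (L l347 (T t157 N)))))))))))) (K a25 (M a192 (F (T t156 (L l15 (L l248 (L l271 (T t450 (T t21 N)))))))) (K a29 (M a192 (F (T t156 (L l371 (T t21 (L l78 (L l130 (T t160 N)))))))) (K a38 (M a192 (F (T t156 (L l248 (L l271 (T t450 (T t21 N))))))) (K a42 (M a192 (F (T t156 (L l248 (L l271 (T t450 (L l56 (L l248 (T t157 N))))))))) (K a46 (M a192 (F (T t156 (T t21 (L l26 (L l78 (L l130 (L l408 (T t160 N))))))))) (K a51 (M a192 (F (T t47 (L l513 (T t156 (L l248 (L l271 (L l415 (T t450 N))))))))) N)))))))))))))))⟩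
def e0_63__74_139 : Ent 4 := ⟨[a0, a63], [a74, a229], (M a12 (F (T t122 (T t151 (T t152 (T t153 (K a4 (M a60 (F (T t43 (L l336 (L l339 (T t398 (T t448 N))))))) (K a8 (M a60 (F (T t67 (L l336 (L l339 (T t398 (L l52 (L l56 (T t448 N))))))))) (K a21 (M a192 (F (T t156 (L l15 (L l347 (T t450 (L l15 (L l347 (T t157 N))))))))) (K a25 (M a192 (F (T t467 (T t156 (T t21 N))))) (K a29 (M a192 (F (T t156 (L l371 (T t21 (L l78 (L l130 (L l275 (T t160 N))))))))) (K a38 (M a192 (F (T t156 (T t450 (T t21 N))))) (K a42 (M a192 (F (T t156 (T t450 (L l56 (T t157 N)))))) (K a46 (M a192 (F (T t156 (T t21 (L l26 (L l78 (L l130 (L l275 (L l408 (T t160 N)))))))))) (K a51 (M a192 (F (T t47 (L l513 (T t156 (L l415 (T t450 N))))))) N)))))))))))))))⟩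
def e0_63__74_140 : Ent 4 := ⟨[a0, a63], [a74, a230], (M a12 (F (T t122 (T t151 (T t152 (T t153 (K a4 (M a60 (F (T t43 (L l336 (L l339 (T t398 (T t448 N))))))) (K a8 (M a60 (F (T t67 (L l336 (L l339 (T t398 (L l52 (L l56 (T t448 N))))))))) (K a21 (M a192 (F (L l302 (T t156 (L l15 (L l347 (T t576 (L l15 (L l254 (L l278 (L l347 (T t157 N)))))))))))) (K a25 (M a192 (F (T t21 (L l302 (T t156 (L l15 (L l254 (L l302 (T t450 N))))))))) (K a29 (M a192 (F (T t159 (L l371 (T t21 (L l78 (L l130 (L l278 (T t160 N))))))))) (K a38 (M a166 (F (T t2624 (L l254 (L l339 (T t2470 (L l84 (L l254 (L l278 (T t2541 N)))))))))) (K a42 (M a192 (F (T t576 (T t159 (L l56 (L l254 (L l278 (T t157 N)))))))) (K a46 (M a192 (F (T t21 (L l302 (T t156 (L l26 (L l78 (L l130 (L l278 (L l408 (T t160 N))))))))))) (K a51 (M a192 (F (T t576 (L l439 (T t21 (L l302 (L l513 (T t156 N)))))))) N)))))))))))))))⟩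
def e0_63__74_141 : Ent 4 := ⟨[a0, a63], [a74, a231], (M a12 (F (T t122 (T t151 (T t152 (T t153 (K a4 (M a60 (F (T t43 (L l336 (L l339 (T t398 (T t448 N))))))) (K a8 (M a60 (F (T t67 (L l336 (L l339 (T t398 (L l52 (L l56 (T t448 N))))))))) (K a21 (M a192 (F (T t156 (L l15 (L l301 (L l347 (T t450 (L l15 (L l277 (L l347 (T t157 N))))))))))) (K a25 (M a192 (F (T t156 (L l15 (L l301 (T t450 (T t21 N))))))) (K a29 (M a192 (F (T t156 (L l371 (T t21 (L l78 (L l130 (T t160 N)))))))) (K a38 (M a192 (F (T t156 (L l301 (T t450 (T t21 N)))))) (K a42 (M a192 (F (T t156 (L l301 (T t450 (L l56 (L l277 (T t157 N)))))))) (K a46 (M a192 (F (T t156 (T t21 (L l26 (L l78 (L l130 (L l408 (T t160 N))))))))) (K a51 (M a192 (F (T t57 (L l513 (T t156 (L l301 (L l415 (T t450 N)))))))) N)))))))))))))))⟩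
def e0_63__74_142 : Ent 4 := ⟨[a0, a63], [a74, a234], (M a12 (F (T t122 (L l390 (T t151 (T t152 (L l390 (T t153 (K a4 (M a60 (F (T t570 (L l46 (L l50 (T t67 (L l390 (T t448 N)))))))) (K a8 (M a60 (F (T t68 (L l336 (L l339 (T t398 (L l52 (L l56 (L l390 (T t448 N)))))))))) (K a21 (M a192 (F (T t156 (L l15 (L l254 (L l347 (T t450 (L l15 (L l254 (L l347 (T t157 N))))))))))) (K a25 (M a192 (F (T t467 (T t156 (L l84 (L l130 (L l390 (T t202 N)))))))) (K a29 (M a192 (F (T t156 (L l84 (L l130 (L l390 (T t202 (L l78 (L l130 (L l390 (T t2625 N))))))))))) (K a38 (M a192 (F (T t156 (L l254 (T t450 (L l84 (L l130 (L l390 (T t202 N))))))))) (K a42 (M a106 (F (T t2416 (L l56 (L l84 (L l254 (T t2415 (L l78 (L l84 (T t2305 N)))))))))) (K a46 (M a192 (F (T t156 (L l84 (L l130 (L l390 (L l408 (T t202 (L l78 (L l130 (L l390 (L l408 (T t2625 N))))))))))))) (K a51 (M a192 (F (T t159 (L l254 (L l415 (T t450 (L l84 (L l130 (L l390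 (L l439 (T t202 N))))))))))) N)))))))))))))))))⟩
def e0_63__74_143 : Ent 4 := ⟨[a0, a63], [a74, a235], (M a12 (F (T t122 (T t151 (T t152 (T t153 (K a4 (M a60 (F (T t69 (L l336 (L l339 (T t398 (L l392 (T t448 N)))))))) (K a8 (M a60 (F (T t68 (L l336 (L l339 (T t398 (L l52 (L l56 (L l392 (T t448 N)))))))))) (K a21 (M a192 (F (T t156 (L l15 (L l347 (T t450 (L l15 (L l347 (T t157 N))))))))) (K a25 (M a192 (F (T t467 (T t156 (L l295 (T t21 N)))))) (K a29 (M a192 (F (T t156 (L l295 (L l371 (T t21 (L l78 (L l130 (T t160 N))))))))) (K a38 (M a192 (F (T t450 (T t156 (L l295 (T t21 N)))))) (K a42 (M a192 (F (T t156 (T t450 (L l56 (T t157 N)))))) (K a46 (M a192 (F (T t156 (L l295 (T t21 (L l26 (L l78 (L l130 (L l408 (T t160 N)))))))))) (K a51 (M a192 (F (T t47 (L l513 (T t156 (L l415 (T t450 N))))))) N)))))))))))))))⟩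
def e0_63__74_144 : Ent 4 := ⟨[a0, a63], [a74, a239], (M a12 (F (T t122 (T t151 (T t152 (T t153 (K a4 (M a60 (F (T t43 (L l336 (L l339 (T t398 (T t448 N))))))) (K a8 (M a60 (F (T t68 (L l336 (L l339 (T t398 (L l52 (L l56 (T t448 N))))))))) (K a21 (M a192 (F (T t156 (L l15 (L l347 (T t450 (L l15 (L l347 (T t157 N))))))))) (K a25 (M a192 (F (T t467 (T t156 (L l289 (T t21 N)))))) (K a29 (M a192 (F (T t156 (L l289 (L l371 (T t21 (L l78 (L l130 (T t160 N))))))))) (K a38 (M a192 (F (T t450 (T t156 (L l289 (T t21 N)))))) (K a42 (M a192 (F (T t156 (T t450 (L l56 (T t157 N)))))) (K a46 (M a192 (F (T t156 (L l289 (T t21 (L l26 (L l78 (L l130 (L l408 (T t160 N)))))))))) (K a51 (M a192 (F (T t47 (L l513 (T t156 (L l415 (T t450 N))))))) N)))))))))))))))⟩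
def e0_63__74_145 : Ent 4 := ⟨[a0, a63], [a74, a240], (M a60 (F (T t116 (L l453 (T t67 (L l453 (T t43 (L l453 (T t68 (L l453 (T t69 (K a20 (M a48 (F (T t138 (L l11 (L l318 (L l339 (L l483 (T t1 (L l11 (T t235 N)))))))))) (K a40 (M a48 (F (T t607 (L l417 (T t64 (L l52 (T t235 N))))))) (K a21 (M a192 (F (L l262 (T t72 (L l273 (L l347 (T t73 (L l347 (T t74 N))))))))) (K a41 (M a192 (F (T t254 (L l65 (L l266 (T t35 (L l273 (T t73 N)))))))) (K a61 (M a192 (F (T t254 (L l65 (L l266 (L l515 (T t35 (L l130 (T t80 N))))))))) (K a22 (M a192 (F (T t614 (L l11 (L l262 (T t79 (L l11 (L l266 (T t35 N))))))))) (K a42 (M a192 (F (T t614 (L l262 (T t79 (L l22 (T t74 N))))))) (K a62 (M a192 (F (T t57 (L l262 (T t79 (L l66 (L l130 (L l516 (T t80 N))))))))) (K a3 (M a85 (L l453 (F (T t447 (T t115 (K a161 (M a82 (F (T t447 (T t115 N)))) (K a82 (M a161 (F (T t447 (T t115 N)))) N))))))) N))))))))))))))))))))⟩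
def e0_63__74_146 : Ent 4 := ⟨[a0, a63], [a74, a241], (M a12 (F (T t122 (T t151 (T t152 (T t153 (K a4 (M a60 (F (T t43 (L l336 (L l339 (L l443 (T t398 (T t448 N)))))))) (K a8 (M a60 (F (T t67 (L l336 (L l339 (L l443 (T t398 (L l52 (L l56 (T t448 N)))))))))) (K a21 (M a192 (F (T t156 (L l15 (L l258 (L l347 (T t450 (L l15 (L l347 (T t157 N)))))))))) (K a25 (M a192 (F (T t156 (L l15 (L l258 (T t450 (T t21 N))))))) (K a29 (M a192 (F (T t156 (L l371 (T t21 (L l78 (L l130 (T t160 N)))))))) (K a38 (M a192 (F (T t156 (L l258 (T t450 (T t21 N)))))) (K a42 (M a192 (F (T t156 (L l258 (T t450 (L l56 (T t157 N))))))) (K a46 (M a192 (F (T t156 (T t21 (L l26 (L l78 (L l130 (L l408 (T t160 N))))))))) (K a51 (M a192 (F (T t47 (L l513 (T t156 (L l258 (L l415 (T t450 N)))))))) N)))))))))))))))⟩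
def e0_63__74_147 : Ent 4 := ⟨[a0, a63], [a74, a242], (M a12 (F (T t122 (T t151 (T t152 (T t153 (K a4 (M a60 (F (T t43 (L l336 (L l339 (L l480 (T t398 (T t448 N)))))))) (K a8 (M a60 (F (T t67 (L l336 (L l339 (L l480 (T t398 (L l52 (L l56 (T t448 N)))))))))) (K a21 (M a192 (F (T t156 (L l15 (L l258 (L l270 (L l347 (T t450 (L l15 (L l270 (L l347 (T t157 N)))))))))))) (K a25 (M a192 (F (T t156 (L l15 (L l258 (L l270 (T t450 (T t21 N)))))))) (K a29 (M a192 (F (T t156 (L l371 (T t21 (L l78 (L l130 (T t160 N)))))))) (K a38 (M a192 (F (T t156 (L l258 (L l270 (T t450 (T t21 N))))))) (K a42 (M a192 (F (T t156 (L l258 (L l270 (T t450 (L l56 (L l270 (T t157 N))))))))) (K a46 (M a192 (F (T t156 (T t21 (L l26 (L l78 (L l130 (L l408 (T t160 N))))))))) (K a51 (M a192 (F (T t47 (L l513 (T t156 (L l258 (L l270 (L l415 (T t450 N))))))))) N)))))))))))))))⟩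
def e0_63__74_148 : Ent 4 := ⟨[a0, a63], [a74, a243], (M a60 (F (T t116 (L l451 (T t67 (L l451 (T t43 (L l451 (T t68 (L l451 (T t69 (K a20 (M a48 (F (T t138 (L l11 (L l318 (L l339 (L l481 (T t1 (L l11 (T t235 N)))))))))) (K a40 (M a48 (F (T t607 (L l415 (T t64 (L l52 (T t235 N))))))) (K a21 (M a192 (F (L l267 (T t72 (L l271 (L l347 (T t73 (L l347 (T t74 N))))))))) (K a41 (M a192 (F (T t254 (L l65 (L l265 (T t35 (L l271 (T t73 N)))))))) (K a61 (M a192 (F (T t254 (L l65 (L l265 (L l515 (T t35 (L l130 (T t80 N))))))))) (K a22 (M a192 (F (T t614 (L l11 (L l267 (T t79 (L l11 (L l265 (T t35 N))))))))) (K a42 (M a192 (F (T t614 (L l267 (T t79 (L l22 (T t74 N))))))) (K a62 (M a192 (F (T t57 (L l267 (T t79 (L l66 (L l130 (L l516 (T t80 N))))))))) (K a3 (M a85 (L l451 (F (T t447 (T t115 (K a83 (M a163 (F (T t447 (T t115 N)))) (K a163 (M a83 (F (T t447 (T t115 N)))) N))))))) N))))))))))))))))))))⟩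
def e0_63__74_149 : Ent 4 := ⟨[a0, a63], [a74, a245], (M a12 (F (T t122 (T t151 (T t152 (T t153 (K a4 (M a60 (F (T t43 (L l336 (L l339 (T t398 (T t448 N))))))) (K a8 (M a60 (F (T t67 (L l336 (L l339 (T t398 (L l52 (L l56 (T t448 N))))))))) (K a21 (M a192 (F (T t156 (L l15 (L l347 (T t450 (L l15 (L l259 (L l347 (T t157 N)))))))))) (K a25 (M a192 (F (T t156 (L l15 (T t450 (L l266 (T t21 N))))))) (K a29 (M a192 (F (T t156 (L l266 (L l371 (T t21 (L l78 (L l130 (L l275 (T t160 N)))))))))) (K a38 (M a192 (F (T t156 (T t450 (L l266 (T t21 N)))))) (K a42 (M a192 (F (T t156 (T t450 (L l56 (L l259 (T t157 N))))))) (K a46 (M a192 (F (T t156 (L l266 (T t21 (L l26 (L l78 (L l130 (L l275 (L l408 (T t160 N))))))))))) (K a51 (M a85 (F (T t571 (L l259 (L l275 (T t572 N)))))) N)))))))))))))))⟩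
def e0_63__74_150 : Ent 4 := ⟨[a0, a63], [a74, a246], (M a12 (F (T t122 (T t151 (T t152 (T t153 (K a4 (M a60 (F (T t43 (L l336 (L l339 (T t398 (T t448 N))))))) (K a8 (M a60 (F (T t67 (L l336 (L l339 (T t398 (L l52 (L l56 (T t448 N))))))))) (K a21 (M a192 (F (T t156 (L l15 (L l267 (L l347 (T t450 (L l15 (L l259 (L l347 (T t157 N))))))))))) (K a25 (M a192 (F (T t156 (L l15 (L l267 (T t450 (T t21 N))))))) (K a29 (M a192 (F (T t156 (L l371 (T t21 (L l78 (L l130 (T t160 N)))))))) (K a38 (M a192 (F (T t156 (L l267 (T t450 (T t21 N)))))) (K a42 (M a192 (F (T t156 (L l267 (T t450 (L l56 (L l259 (T t157 N)))))))) (K a46 (M a192 (F (T t156 (T t21 (L l26 (L l78 (L l130 (L l408 (T t160 N))))))))) (K a51 (M a192 (F (T t57 (L l513 (T t156 (L l267 (L l415 (T t450 N)))))))) N)))))))))))))))⟩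
def e0_63__74_151 : Ent 4 := ⟨[a0, a63], [a74, a247], (M a12 (F (T t122 (T t151 (L l458 (T t152 (L l421 (T t153 (K a4 (M a85 (F (T t124 (L l50 (L l265 (T t52 (L l278 (T t154 N)))))))) (K a8 (M a60 (F (T t67 (L l336 (L l339 (T t398 (L l52 (L l56 (T t448 N))))))))) (K a21 (M a192 (F (T t156 (L l15 (L l265 (L l347 (T t450 (L l50 (L l130 (L l265 (L l458 (T t2473 N)))))))))))) (K a25 (M a192 (F (T t156 (L l15 (L l265 (T t450 (L l265 (T t21 N)))))))) (K a29 (M a192 (F (T t156 (L l265 (L l371 (T t21 (L l15 (L l371 (T t776 N))))))))) (K a38 (M a192 (F (T t156 (L l265 (T t450 (L l265 (T t21 N))))))) (K a42 (M a192 (F (T t156 (L l265 (T t450 (L l26 (L l130 (L l265 (L l390 (L l458 (T t2473 N))))))))))) (K a46 (M a192 (F (T t156 (L l265 (T t21 (T t776 N)))))) (K a51 (M a192 (F (T t57 (L l513 (T t156 (L l265 (L l415 (T t450 N)))))))) N)))))))))))))))))⟩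
def e0_63__74_152 : Ent 4 := ⟨[a0, a63], [a74, a250], (M a12 (F (T t122 (T t151 (T t152 (T t153 (K a4 (M a60 (F (T t43 (L l336 (L l339 (T t398 (T t448 N))))))) (K a8 (M a60 (F (T t67 (L l336 (L l339 (T t398 (L l52 (L l56 (T t448 N))))))))) (K a21 (M a192 (F (T t156 (L l15 (L l347 (T t450 (L l15 (L l347 (T t157 N))))))))) (K a25 (M a192 (F (T t467 (T t156 (L l266 (T t21 N)))))) (K a29 (M a192 (F (T t156 (L l266 (L l371 (T t21 (L l78 (L l130 (T t160 N))))))))) (K a38 (M a192 (F (T t450 (T t156 (L l266 (T t21 N)))))) (K a42 (M a192 (F (T t156 (T t450 (L l56 (T t157 N)))))) (K a46 (M a192 (F (T t156 (L l266 (T t21 (L l26 (L l78 (L l130 (L l408 (T t160 N)))))))))) (K a51 (M a192 (F (T t47 (L l513 (T t156 (L l415 (T t450 N))))))) N)))))))))))))))⟩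
def e0_63__74_153 : Ent 4 := ⟨[a0, a63], [a74, a251], (M a12 (F (T t122 (T t151 (L l427 (T t152 (L l464 (T t153 (K a4 (M a60 (F (T t43 (L l336 (L l339 (T t398 (T t448 N))))))) (K a8 (M a170 (F (T t874 (T t2498 (L l284 (T t2626 N)))))) (K a21 (M a192 (F (T t156 (L l15 (L l265 (L l347 (T t450 (L l15 (L l265 (L l347 (L l464 (T t157 N)))))))))))) (K a25 (M a192 (F (T t156 (L l15 (L l265 (T t450 (L l265 (T t21 N)))))))) (K a29 (M a192 (F (T t156 (L l265 (L l371 (T t21 (L l78 (L l130 (T t160 N))))))))) (K a38 (M a192 (F (T t156 (L l265 (T t450 (L l265 (T t21 N))))))) (K a42 (M a192 (F (T t156 (L l265 (T t450 (L l56 (L l265 (L l464 (T t157 N))))))))) (K a46 (M a192 (F (T t156 (L l265 (T t21 (L l26 (L l78 (L l130 (L l408 (T t160 N)))))))))) (K a51 (M a192 (F (T t161 (L l513 (T t156 (L l265 (L l439 (T t21 N)))))))) N)))))))))))))))))⟩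
def e0_63__74_154 : Ent 4 := ⟨[a0, a63], [a74, a255], (M a48 (F (T t132 (L l318 (L l339 (L l469 (T t1 (L l339 (L l469 (T t2 (L l339 (L l469 (T t3 (L l339 (L l469 (T t0 (K a16 (M a60 (F (T t138 (L l14 (L l18 (L l475 (T t67 (T t65 N)))))))) (K a32 (M a60 (F (T t116 (L l439 (T t64 (L l24 (L l28 (T t65 N)))))))) (K a21 (M a192 (F (L l266 (T t28 (L l47 (L l289 (L l318 (L l347 (T t20 (L l47 (L l289 (L l318 (L l347 (T t29 N)))))))))))))) (K a37 (M a192 (F (T t36 (L l47 (L l289 (L l318 (T t20 (L l28 (L l47 (L l289 (L l318 (T t29 N)))))))))))) (K a53 (M a12 (F (T t145 (L l47 (L l439 (T t122 (L l47 (T t146 N)))))))) (K a26 (M a192 (F (T t33 (L l266 (T t27 (L l289 (L l318 (T t29 N)))))))) (K a42 (M a192 (F (T t33 (L l266 (T t27 (L l28 (L l289 (L l318 (T t29 N))))))))) (K a58 (M a12 (F (T t145 (L l439 (T t122 (T t146 N)))))) (K a15 (M a192 (L l469 (F (T t33 (L l266 (L l483 (T t27 (L l289 (L l318 (T t29 (K a95 (M a175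 (F (T t36 (L l137 (L l289 (L l325 (T t225 (L l289 (L l318 (L l361 (T t29 N))))))))))) (K a175 (M a95 (F (T t36 (L l289 (L l325 (L l397 (T t225 (L l289 (L l318 (T t29 N)))))))))) N)))))))))))) N)))))))))))))))))))))))))⟩
def b0_63__74 : Blk 4 := ⟨[0, 63], [74], [1, 2, 3, 5, 6, 7, 10, 11, 15, 16, 17, 18, 19, 22, 23, 26, 27, 31, 32, 33, 34, 35, 37, 38, 39, 43, 47, 48, 49, 50, 51, 53, 54, 55, 58, 59, 64, 65, 66, 67, 69, 70, 71, 75, 79, 80, 81, 82, 83, 85, 86, 87, 90, 91, 95, 96, 97, 98, 99, 101, 102, 103, 106, 107, 111, 112, 113, 114, 115, 117, 118, 119, 122, 123, 127, 128, 129, 130, 131, 133, 134, 135, 138, 139, 143, 144, 145, 146, 147, 149, 150, 151, 154, 155, 159, 160, 161, 162, 163, 165, 166, 167, 170, 171, 175, 176, 177, 178, 179, 181, 182, 183, 186, 187, 191, 192, 193, 194, 195, 197, 198, 199, 202, 203, 207, 208, 209, 210, 211, 213, 214, 215, 218, 219, 223, 224, 225, 226, 227, 229, 230, 231, 234, 235, 239,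 240, 241, 242, 243, 245, 246, 247, 250, 251, 255], [e0_63__74_0, e0_63__74_1, e0_63__74_2, e0_63__74_3, e0_63__74_4, e0_63__74_5, e0_63__74_6, e0_63__74_7, e0_63__74_8, e0_63__74_9, e0_63__74_10, e0_63__74_11, e0_63__74_12, e0_63__74_13, e0_63__74_14, e0_63__74_15, e0_63__74_16, e0_63__74_17, e0_63__74_18, e0_63__74_19, e0_63__74_20, e0_63__74_21, e0_63__74_22, e0_63__74_23, e0_63__74_24, e0_63__74_25, e0_63__74_26, e0_63__74_27, e0_63__74_28, e0_63__74_29, e0_63__74_30, e0_63__74_31, e0_63__74_32, e0_63__74_33, e0_63__74_34, e0_63__74_35, e0_63__74_36, e0_63__74_37, e0_63__74_38, e0_63__74_39, e0_63__74_40, e0_63__74_41, e0_63__74_42, e0_63__74_43, e0_63__74_44, e0_63__74_45, e0_63__74_46, e0_63__74_47, e0_63__74_48, e0_63__74_49, e0_63__74_50, e0_63__74_51, e0_63__74_52, e0_63__74_53, e0_63__74_54, e0_63__74_55, e0_63__74_56, e0_63__74_57, e0_63__74_58, e0_63__74_59, e0_63__74_60, e0_63__74_61, e0_63__74_62,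 e0_63__74_63, e0_63__74_64, e0_63__74_65, e0_63__74_66, e0_63__74_67, e0_63__74_68, e0_63__74_69, e0_63__74_70, e0_63__74_71, e0_63__74_72, e0_63__74_73, e0_63__74_74, e0_63__74_75, e0_63__74_76, e0_63__74_77, e0_63__74_78, e0_63__74_79, e0_63__74_80, e0_63__74_81, e0_63__74_82, e0_63__74_83, e0_63__74_84, e0_63__74_85, e0_63__74_86, e0_63__74_87, e0_63__74_88, e0_63__74_89, e0_63__74_90, e0_63__74_91, e0_63__74_92, e0_63__74_93, e0_63__74_94, e0_63__74_95, e0_63__74_96, e0_63__74_97, e0_63__74_98, e0_63__74_99, e0_63__74_100, e0_63__74_101, e0_63__74_102, e0_63__74_103, e0_63__74_104, e0_63__74_105, e0_63__74_106, e0_63__74_107, e0_63__74_108, e0_63__74_109, e0_63__74_110, e0_63__74_111, e0_63__74_112, e0_63__74_113, e0_63__74_114, e0_63__74_115, e0_63__74_116, e0_63__74_117, e0_63__74_118, e0_63__74_119, e0_63__74_120, e0_63__74_121, e0_63__74_122, e0_63__74_123, e0_63__74_124, e0_63__74_125, e0_63__74_126,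 e0_63__74_127, e0_63__74_128, e0_63__74_129, e0_63__74_130, e0_63__74_131, e0_63__74_132, e0_63__74_133, e0_63__74_134, e0_63__74_135, e0_63__74_136, e0_63__74_137, e0_63__74_138, e0_63__74_139, e0_63__74_140, e0_63__74_141, e0_63__74_142, e0_63__74_143, e0_63__74_144, e0_63__74_145, e0_63__74_146, e0_63__74_147, e0_63__74_148, e0_63__74_149, e0_63__74_150, e0_63__74_151, e0_63__74_152, e0_63__74_153, e0_63__74_154], by decide +kernel, by decide +kernel⟩

end Pool.Agent.Lib_TTT.K4
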