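import Pool.Agent.Lib_TTT.K4Base
import Pool.Agent.Lib_TTT.K4T00
import Pool.Agent.Lib_TTT.K4T01
import Pool.Agent.Lib_TTT.K4T02
import Pool.Agent.Lib_TTT.K4T03

/-! Certificates in `4^4`. -/

set_option autoImplicit false
set_option maxRecDepth 200000

namespace Pool.Agent.Lib_TTT.K4

open Lib_TTT AC DC

def e0_63__75_0 : Ent 4 := ⟨[a0, a63], [a75, a1], (M a85 (F (T t88 (L l65 (T t52 (T t89 (T t90 (K a64 (M a252 (F (T t93 (T t92 N)))) (K a192 (M a16 (F (T t504 (L l329 (T t96 (L l296 (T t98 N))))))) (K a21 (M a48 (L l65 (F (T t99 (T t50 (L l47 (T t100 (K a41 (M a61 (F (T t261 (L l41 (T t262 N))))) (K a61 (M a41 (F (T t261 (L l35 (L l47 (T t100 (T t50 N))))))) N))))))))) (K a149 (M a16 (F (T t101 (L l337 (L l375 (T t97 (L l170 (T t102 N)))))))) (K a213 (Fr a170 a255 l476 (Fr a42 a21 l68 (Fr a106 a234 l390 (Fr a192 a149 l519 (V t581))))) (K a42 (M a48 (F (T t364 (L l390 (T t50 (L l28 (T t100 N))))))) (K a106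 (M a48 (F (T t99 (L l65 (L l337 (T t1 (L l390 (T t50 N)))))))) (K a170 (M a16 (F (L l404 (T t113 (L l390 (T t98 (L l337 (L l390 (L l404 (T t97 (L l404 (T t174 N)))))))))))) (K a255 (M a16 (F (T t504 (L l289 (T t113 (L l289 (L l296 (T t98 N)))))))) N))))))))))))))))⟩
def e0_63__75_1 : Ent 4 := ⟨[a0, a63], [a75, a2], (M a85 (F (T t52 (L l66 (T t88 (L l66 (T t89 (L l474 (T t90 (K a64 (M a16 (F (T t258 (L l66 (L l337 (T t97 (L l66 (L l116 (T t98 N))))))))) (K a192 (M a16 (F (T t96 (L l66 (L l337 (L l339 (T t97 (L l66 (L l296 (T t98 N)))))))))) (K a21 (M a48 (F (T t99 (L l474 (T t50 (L l47 (T t100 N))))))) (K a149 (M a16 (F (T t173 (L l66 (L l337 (L l375 (T t97 (L l66 (L l170 (T t102 N)))))))))) (K a213 (Fr a170 a255 l476 (Fr a42 a21 l68 (Fr a106 a234 l390 (Fr a192 a149 l519 (V t581))))) (K a42 (M a62 (F (T t1693 (L l390 (L l474 (T t1694 (L l22 (L l306 (T t1695 (L l306 (L l390 (L l474 (T t1696 N)))))))))))))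 (K a106 (M a48 (F (T t99 (L l6 (L l337 (T t1 (L l390 (L l474 (T t50 N))))))))) (K a170 (M a86 (F (L l174 (T t1703 (L l66 (L l390 (T t369 (L l174 (L l306 (T t1701 (L l66 (L l174 (L l390 (T t1702 N)))))))))))))) (K a255 (M a16 (F (L l66 (T t112 (L l289 (T t113 (L l66 (L l289 (L l296 (T t98 N)))))))))) N))))))))))))))))))⟩
def e0_63__75_2 : Ent 4 := ⟨[a0, a63], [a75, a3], (M a12 (F (T t150 (L l43 (T t122 (L l43 (T t151 (L l43 (T t152 (L l43 (T t153 (K a4 (M a85 (F (T t89 (L l333 (T t124 (T t154 N)))))) (K a8 (M a85 (F (L l475 (T t52 (L l333 (L l464 (T t124 (L l56 (T t154 N))))))))) (K a21 (M a192 (F (L l333 (T t156 (L l15 (L l347 (L l451 (T t450 (L l15 (L l347 (T t157 N))))))))))) (K a25 (M a192 (F (T t159 (L l15 (L l451 (T t450 (L l475 (T t21 N)))))))) (K a29 (M a192 (F (T t1681 (L l333 (T t156 (L l78 (T t160 N))))))) (K a38 (M a192 (F (T t161 (L l333 (T t156 (L l475 (T t21 N))))))) (K a42 (M a192 (F (T t161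 (L l333 (T t156 (L l56 (T t157 N))))))) (K a46 (M a192 (F (T t57 (L l333 (T t156 (L l26 (L l78 (L l408 (T t160 N))))))))) (K a51 (M a192 (L l43 (F (T t496 (L l415 (L l451 (T t450 (L l439 (L l475 (T t21 (K a19 (M a35 (F (T t159 (L l439 (L l475 (T t35 (L l78 (L l415 (L l451 (T t543 N)))))))))) (K a35 (M a19 (F (T t159 (L l439 (L l475 (T t35 (L l78 (L l415 (L l451 (T t543 N)))))))))) N)))))))))))) N))))))))))))))))))))⟩
def e0_63__75_3 : Ent 4 := ⟨[a0, a63], [a75, a4], (M a85 (F (T t88 (L l50 (T t52 (T t89 (T t90 (K a64 (M a16 (F (T t258 (L l337 (T t97 (L l116 (T t98 N))))))) (K a192 (M a16 (F (T t504 (L l314 (T t96 (L l296 (T t98 N))))))) (K a21 (M a48 (L l50 (F (T t99 (T t50 (L l47 (T t100 (K a38 (M a55 (F (T t360 (L l46 (T t1743 N))))) (K a55 (M a38 (F (T t99 (T t50 (L l31 (L l47 (T t100 N))))))) N))))))))) (K a149 (M a16 (F (T t101 (L l337 (L l375 (T t97 (L l170 (T t102 N)))))))) (K a213 (Fr a170 a255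 l476 (Fr a42 a21 l68 (Fr a106 a234 l390 (Fr a192 a149 l519 (V t581))))) (K a42 (M a48 (F (T t364 (L l390 (T t50 (L l28 (T t100 N))))))) (K a106 (M a48 (F (T t99 (L l50 (L l337 (T t1 (L l390 (T t50 N)))))))) (K a170 (M a16 (F (L l404 (T t113 (L l390 (T t98 (L l337 (L l390 (L l404 (T t97 (L l404 (T t174 N)))))))))))) (K a255 (M a16 (F (T t504 (L l289 (T t113 (L l289 (L l296 (T t98 N)))))))) N))))))))))))))))⟩
def e0_63__75_4 : Ent 4 := ⟨[a0, a63], [a75, a5], (M a85 (F (T t88 (L l47 (T t52 (T t89 (T t90 (K a64 (M a240 (F (T t933 (T t387 N)))) (K a192 (M a48 (F (T t935 (L l47 (L l337 (L l339 (T t3 (L l268 (T t50 N))))))))) (K a21 (M a60 (L l47 (F (T t936 (T t114 (L l65 (T t523 (K a37 (M a53 (F (T t936 (L l50 (L l71 (T t937 N)))))) (K a53 (M a37 (F (T t936 (T t114 (L l35 (L l65 (T t523 N))))))) N))))))))) (K a149 (M a48 (F (T t99 (L l47 (L l337 (T t3 (L l220 (T t50 N)))))))) (K a213 (Fr a170 a255 l476 (Fr a42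 a21 l68 (Fr a106 a234 l390 (Fr a192 a149 l519 (V t581))))) (K a42 (M a48 (F (T t364 (L l390 (T t50 (L l28 (L l47 (T t100 N)))))))) (K a106 (M a48 (F (T t99 (L l47 (L l337 (L l411 (T t3 (L l390 (T t50 N))))))))) (K a170 (M a4 (F (L l464 (T t130 (L l390 (T t131 (L l390 (L l464 (T t519 (L l464 (T t938 N))))))))))) (K a255 (M a4 (F (T t129 (L l265 (T t130 (L l265 (L l296 (T t131 N)))))))) N))))))))))))))))⟩
def e0_63__75_5 : Ent 4 := ⟨[a0, a63], [a75, a6], (M a85 (F (T t88 (T t52 (T t89 (T t90 (K a64 (M a16 (F (T t258 (L l337 (T t97 (L l116 (T t98 N))))))) (K a192 (M a16 (F (T t96 (L l337 (L l339 (T t97 (L l296 (T t98 N)))))))) (K a21 (M a48 (F (T t99 (T t50 (L l47 (T t100 N)))))) (K a149 (M a16 (F (T t173 (L l337 (L l375 (T t97 (L l170 (T t102 N)))))))) (K a213 (Fr a170 a255 l476 (Fr a42 a21 l68 (Fr a106 a234 l390 (Fr a192 a149 l519 (V t581))))) (K a42 (M a48 (F (T t364 (L l390 (T t50 (L l28 (T t100 N)))))))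 (K a106 (M a48 (F (T t99 (L l6 (L l337 (T t1 (L l390 (T t50 N)))))))) (K a170 (M a16 (F (L l404 (T t113 (L l390 (T t98 (L l337 (L l390 (L l404 (T t97 (L l404 (T t174 N)))))))))))) (K a255 (M a16 (F (T t504 (L l289 (T t113 (L l289 (L l296 (T t98 N)))))))) N)))))))))))))))⟩
def e0_63__75_6 : Ent 4 := ⟨[a0, a63], [a75, a7], (M a149 (F (T t5 (T t175 (T t176 (T t177 (K a192 (M a53 (F (T t939 (L l236 (T t179 (L l236 (L l296 (T t180 N)))))))) (K a21 (M a48 (F (T t4 (T t13 (L l18 (T t14 N)))))) (K a85 (M a16 (F (T t504 (L l144 (T t190 (L l94 (L l133 (T t278 N)))))))) (K a213 (Fr a106 a192 l519 (Fr a42 a21 l68 (Fr a170 a234 l390 (Fr a255 a85 l476 (V t582))))) (K a42 (M a48 (F (T t187 (L l390 (T t13 (L l54 (T t14 N))))))) (K a106 (M a48 (F (T t48 (L l498 (T t14 (L l390 (L l498 (T t6 (L l390 (T t26 N)))))))))) (K a170 (M a48 (F (T t4 (L l7 (L l337 (L l462 (T t1 (L l390 (T t13 N))))))))) (K a191 (M a240 (F (T t962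 (L l315 (T t963 N))))) (K a255 (M a16 (F (T t504 (L l266 (T t190 (L l289 (L l296 (T t191 N)))))))) N)))))))))))))))⟩
def e0_63__75_7 : Ent 4 := ⟨[a0, a63], [a75, a8], (M a85 (F (T t52 (L l56 (T t88 (L l56 (T t89 (L l464 (T t90 (K a64 (M a16 (F (T t258 (L l56 (L l337 (T t97 (L l56 (L l116 (T t98 N))))))))) (K a192 (M a16 (F (T t96 (L l56 (L l337 (L l339 (T t97 (L l56 (L l296 (T t98 N)))))))))) (K a21 (M a48 (F (T t99 (L l464 (T t50 (L l47 (T t100 N))))))) (K a149 (M a16 (F (T t173 (L l56 (L l337 (L l375 (T t97 (L l56 (L l170 (T t102 N)))))))))) (K a213 (Fr a170 a255 l476 (Fr a42 a21 l68 (Fr a106 a234 l390 (Fr a192 a149 l519 (V t581))))) (K a42 (M a59 (F (T t104 (L l390 (L l464 (T t105 (L l26 (L l316 (T t106 (L l316 (L l390 (L l464 (T t107 N))))))))))))) (K a106 (M a48 (F (T t99 (L l2 (L l337 (T t1 (L l390 (L l464 (T t50 N))))))))) (K a170 (M a89 (F (L l56 (L l390 (T t109 (L l78 (L l178 (L l316 (T t110 (L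 l56 (L l178 (L l390 (T t111 (L l131 (L l178 (T t108 N)))))))))))))))) (K a255 (M a16 (F (L l56 (T t112 (L l289 (T t113 (L l56 (L l289 (L l296 (T t98 N)))))))))) N))))))))))))))))))⟩
def e0_63__75_8 : Ent 4 := ⟨[a0, a63], [a75, a9], (M a85 (F (T t88 (T t52 (T t89 (T t90 (K a64 (M a16 (F (T t258 (L l337 (T t97 (L l116 (T t98 N))))))) (K a192 (M a16 (F (T t96 (L l337 (L l339 (T t97 (L l296 (T t98 N)))))))) (K a21 (M a48 (F (T t99 (T t50 (L l47 (T t100 N)))))) (K a149 (M a16 (F (T t173 (L l337 (L l375 (T t97 (L l170 (T t102 N)))))))) (K a213 (Fr a170 a255 l476 (Fr a42 a21 l68 (Fr a106 a234 l390 (Fr a192 a149 l519 (V t581))))) (K a42 (M a48 (F (T t364 (L l390 (T t50 (L l28 (T t100 N))))))) (K a106 (M a48 (F (T t99 (L l2 (L l337 (T t1 (L l390 (T t50 N)))))))) (K a170 (M a16 (F (L l404 (T t113 (L l390 (T t98 (L l337 (L l390 (L l404 (T t97 (L l404 (T t174 N)))))))))))) (K a255 (M a16 (F (T t504 (L l289 (T t113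 (L l289 (L l296 (T t98 N)))))))) N)))))))))))))))⟩
def e0_63__75_9 : Ent 4 := ⟨[a0, a63], [a75, a10], (M a85 (F (T t52 (L l54 (T t88 (L l54 (T t89 (L l462 (T t90 (K a64 (M a16 (F (T t258 (L l54 (L l337 (T t97 (L l54 (L l116 (T t98 N))))))))) (K a192 (M a16 (F (T t96 (L l54 (L l337 (L l339 (T t97 (L l54 (L l296 (T t98 N)))))))))) (K a21 (M a48 (F (T t99 (L l462 (T t50 (L l47 (L l318 (T t100 N)))))))) (K a149 (M a48 (F (T t99 (L l54 (L l337 (L l375 (T t0 (L l220 (L l462 (T t50 N)))))))))) (K a213 (Fr a170 a255 l476 (Fr a42 a21 l68 (Fr a106 a234 l390 (Fr a192 a149 l519 (V t581))))) (K a42 (M a58 (F (T t118 (L l390 (L l462 (T t119 (L l28 (L l318 (T t120 (L l318 (L l390 (L l462 (T t121 N))))))))))))) (K a106 (M a12 (F (T t122 (L l2 (L l132 (T t123 (L l390 (L l462 (T t124 N))))))))) (K a170 (M a90 (F (L l180 (L l337 (T t125 (L l54 (L l390 (T t126 (L l78 (L l180 (L l318 (L l337 (T t127 (L l54 (L l180 (L l390 (T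 t128 N))))))))))))))))) (K a255 (M a4 (F (L l2 (L l54 (T t129 (L l2 (L l265 (T t130 (L l54 (L l265 (L l296 (T t131 N)))))))))))) N))))))))))))))))))⟩
def e0_63__75_10 : Ent 4 := ⟨[a0, a63], [a75, a11], (M a149 (L l319 (F (T t5 (T t175 (T t176 (T t177 (K a192 (M a53 (L l319 (F (T t178 (L l236 (T t179 (L l236 (L l296 (T t180 (K a139 (M a203 (F (T t939 (L l236 (T t179 (L l236 (L l296 (T t180 N)))))))) (K a203 (M a139 (F (T t939 (L l236 (T t179 (L l236 (L l296 (T t180 N)))))))) N))))))))))) (K a21 (M a207 (L l319 (F (T t2627 (L l2 (L l7 (L l337 (T t1287 (T t2628 (K a139 (M a203 (F (T t2629 (L l2 (T t2630 N))))) (K a203 (M a139 (F (T t2631 (L l83 (T t2632 N))))) N))))))))))) (K a85 (M a3 (L l319 (F (T t1052 (L l55 (L l350 (T t137 (L l83 (L l144 (L l337 (T t1883 (K a139 (M a203 (F (T t1052 (T t665 (L l83 (L l144 (L l337 (T t1883 N)))))))) (K a203 (M a139 (F (T t1052 (L l83 (L l123 (T t2633 N)))))) N)))))))))))))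 (K a213 (Fr a106 a192 l519 (Fr a42 a21 l68 (Fr a170 a234 l390 (Fr a255 a85 l476 (V t582))))) (K a42 (M a207 (L l319 (F (T t1286 (L l7 (L l83 (L l337 (L l390 (T t2634 (T t2628 (K a139 (M a203 (F (T t2635 (L l2 (L l56 (T t2630 N)))))) (K a203 (M a139 (F (T t2635 (L l83 (T t2632 N))))) N)))))))))))) (K a106 (M a3 (L l319 (F (T t353 (L l55 (L l393 (T t615 (L l55 (L l390 (L l393 (T t616 (L l390 (T t617 (K a139 (M a203 (F (T t353 (L l55 (L l393 (T t615 (L l390 (T t617 (L l55 (L l390 (L l393 (T t616 N)))))))))))) (K a203 (M a139 (F (T t353 (L l83 (L l104 (T t2636 N)))))) N))))))))))))))) (K a170 (M a12 (L l319 (F (T t650 (L l402 (T t122 (L l390 (T t648 (K a139 (M a203 (F (T t650 (L l154 (L l206 (T t2637 N)))))) (K a203 (M a139 (F (T t650 (L l402 (T t122 (L l390 (T t648 N))))))) N)))))))))) (K a191 (M a12 (L l319 (F (T t122 (T t991 (T t648 (K a139 (M a203 (F (T t2638 (L l154 (L l219 (T t2637 N)))))) (K a203 (M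 a139 (F (T t1984 (T t122 (T t648 N))))) N)))))))) (K a255 (M a12 (L l319 (F (T t647 (L l439 (T t122 (L l290 (T t648 (K a139 (M a203 (F (T t647 (L l154 (T t2637 N))))) (K a203 (M a139 (F (T t647 (L l439 (T t122 (L l290 (T t648 N))))))) N)))))))))) (K a139 (M a203 (F (T t5 (T t175 (T t176 (T t177 (K a192 (M a138 (F (L l78 (T t2639 (L l484 (T t2640 N)))))) (K a21 (M a195 (F (T t1117 (L l2 (T t2641 N))))) (K a85 (M a16 (F (T t504 (L l144 (T t190 (L l57 (L l94 (L l133 (L l465 (T t278 N)))))))))) (K a213 (Fr a106 a192 l519 (Fr a42 a21 l68 (Fr a170 a234 l390 (Fr a255 a85 l476 (V t582))))) (K a42 (M a195 (F (T t1117 (L l2 (L l56 (T t2641 N)))))) (K a106 (M a195 (F (T t2642 (L l390 (T t2643 N))))) (K a170 (M a12 (F (T t650 (L l154 (L l206 (T t2637 N)))))) (K a191 (M a8 (F (T t644 (L l207 (L l219 (T t2644 N)))))) (K a255 (M a8 (F (T t644 (L l207 (T t2644 N))))) N))))))))))))))) (K a203 (M a139 (F (T t5 (T t175 (T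 t176 (T t177 (K a192 (M a3 (F (T t630 (L l83 (L l484 (T t2636 N)))))) (K a21 (M a252 (F (T t2645 (T t940 N)))) (K a85 (M a252 (F (T t2645 (L l144 (T t1850 N))))) (K a213 (Fr a106 a192 l519 (Fr a42 a21 l68 (Fr a170 a234 l390 (Fr a255 a85 l476 (V t582))))) (K a42 (M a252 (F (T t2645 (L l22 (L l390 (T t940 N)))))) (K a106 (M a169 (F (L l390 (T t977 (L l55 (L l83 (L l104 (T t2646 N)))))))) (K a170 (M a252 (F (T t2645 (L l390 (L l392 (T t940 N)))))) (K a191 (M a252 (F (T t2645 (T t940 N)))) (K a255 (M a252 (F (T t2645 (L l434 (T t940 N))))) N))))))))))))))) N))))))))))))))))))⟩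
def e0_63__75_11 : Ent 4 := ⟨[a0, a63], [a75, a12], (M a60 (F (T t116 (L l9 (T t67 (L l9 (T t43 (L l9 (T t68 (L l9 (T t69 (K a20 (M a48 (F (T t138 (L l3 (L l11 (L l337 (T t1 (L l11 (T t235 N))))))))) (K a40 (M a48 (F (T t48 (L l74 (T t64 (L l52 (T t235 N))))))) (K a21 (M a192 (F (T t2647 (L l131 (L l337 (L l338 (L l347 (T t73 (L l347 (T t74 N)))))))))) (K a41 (M a192 (F (T t1343 (L l466 (T t79 (L l65 (L l470 (T t35 N)))))))) (K a61 (M a192 (F (T t1334 (L l65 (L l470 (L l515 (T t35 (T t80 N)))))))) (K a22 (M a192 (F (T t237 (L l11 (L l466 (T t79 (L l11 (L l470 (T t35 N))))))))) (K a42 (M a192 (F (T t237 (L l466 (T t79 (L l22 (T t74 N))))))) (K a62 (M a192 (F (T t57 (L l466 (T t79 (L l66 (L l516 (T t80 N)))))))) (K a3 (M a84 (L l9 (F (T t2648 (T t1415 (L l470 (L l475 (L l477 (T t1416 (K a9 (M a6 (F (T t1414 (L l70 (T t2649 N))))) (K a6 (M a9 (F (T t1414 (L l70 (T t2650 N))))) N))))))))))) N))))))))))))))))))))⟩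
def e0_63__75_12 : Ent 4 := ⟨[a0, a63], [a75, a13], (M a149 (F (T t5 (T t175 (T t176 (T t177 (K a192 (M a53 (F (T t939 (L l236 (T t179 (L l236 (L l296 (T t180 N)))))))) (K a21 (M a48 (F (T t4 (T t13 (L l18 (T t14 N)))))) (K a85 (M a16 (F (T t504 (L l144 (T t190 (L l94 (L l133 (T t278 N)))))))) (K a213 (Fr a106 a192 l519 (Fr a42 a21 l68 (Fr a170 a234 l390 (Fr a255 a85 l476 (V t582))))) (K a42 (M a48 (F (T t187 (L l390 (T t13 (L l54 (T t14 N))))))) (K a106 (M a48 (F (T t48 (L l498 (T t14 (L l390 (L l498 (T t6 (L l390 (T t26 N)))))))))) (K a170 (M a48 (F (T t4 (L l3 (L l337 (L l462 (T t1 (L l390 (T t13 N))))))))) (K a191 (M a240 (F (T t962 (L l335 (T t963 N))))) (K a255 (M a16 (F (T t504 (L l266 (T t190 (L l289 (L l296 (T t191 N)))))))) N)))))))))))))))⟩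
def e0_63__75_13 : Ent 4 := ⟨[a0, a63], [a75, a14], (M a85 (F (T t88 (T t52 (T t89 (T t90 (K a64 (M a16 (F (T t258 (L l3 (L l337 (T t97 (L l116 (T t98 N)))))))) (K a192 (M a16 (F (T t96 (L l3 (L l337 (L l339 (T t97 (L l296 (T t98 N))))))))) (K a21 (M a48 (F (T t99 (T t50 (L l47 (T t100 N)))))) (K a149 (M a16 (F (T t173 (L l3 (L l337 (L l375 (T t97 (L l72 (L l170 (T t102 N)))))))))) (K a213 (Fr a170 a255 l476 (Fr a42 a21 l68 (Fr a106 a234 l390 (Fr a192 a149 l519 (V t581))))) (K a42 (M a48 (F (T t364 (L l390 (T t50 (L l28 (T t100 N))))))) (K a106 (M a48 (F (T t99 (L l3 (L l6 (L l337 (T t1 (L l390 (T t50 N))))))))) (K a170 (M a16 (F (L l404 (T t113 (L l390 (T t98 (L l3 (L l337 (L l390 (L l404 (T t97 (L l404 (T t174 N))))))))))))) (K a255 (M a16 (F (T t112 (L l289 (T t113 (L l289 (L l296 (T t98 N)))))))) N)))))))))))))))⟩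
def e0_63__75_14 : Ent 4 := ⟨[a0, a63], [a75, a15], (M a192 (L l337 (F (T t47 (L l469 (T t21 (L l469 (T t35 (L l469 (T t202 (L l469 (T t37 (K a64 (M a60 (L l337 (F (T t237 (L l7 (T t67 (L l140 (L l144 (T t80 (K a195 (M a135 (F (T t2568 (L l140 (L l144 (L l483 (T t2651 N))))))) (K a135 (M a195 (F (T t2652 (L l7 (T t67 N))))) N))))))))))) (K a128 (M a12 (L l337 (F (T t150 (L l220 (L l481 (T t450 (L l78 (T t160 (K a195 (M a135 (F (T t2575 (L l78 (L l271 (L l481 (T t543 (L l131 (L l156 (L l220 (T t776 N))))))))))) (K a135 (M a195 (F (T t150 (L l63 (L l131 (L l216 (T t2653 N))))))) N))))))))))) (K a21 (M a195 (F (T t2654 (L l63 (L l131 (T t2653 (L l131 (T t2655 N)))))))) (K a85 (M a195 (F (L l347 (T t2656 (L l7 (L l83 (T t2657 (L l131 (L l141 (L l144 (T t2655 N))))))))))) (K a149 (M a60 (L l337 (F (T t2658 (L l7 (L l347 (T t67 (L l163 (L l220 (L l347 (L l471 (L l515 (T t2659 (L l351 (L l471 (T t2660 (K a195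 (M a135 (F (T t662 (L l297 (L l471 (T t1333 (L l163 (L l220 (L l297 (L l347 (L l471 (L l515 (T t2659 (L l297 (L l351 (L l471 (T t2660 N))))))))))))))))) (K a135 (M a195 (F (T t2658 (L l133 (L l347 (L l515 (T t2661 N))))))) N)))))))))))))))))) (K a42 (M a195 (F (T t2662 (L l7 (T t2663 (L l131 (L l390 (T t2655 N)))))))) (K a106 (M a60 (L l337 (F (T t254 (L l7 (L l390 (T t43 (L l393 (L l471 (T t2664 (L l98 (L l144 (L l390 (L l471 (L l516 (T t2665 (K a195 (M a135 (F (T t2568 (L l98 (L l144 (L l297 (L l471 (T t1333 (L l297 (L l393 (L l471 (T t2664 (L l98 (L l144 (L l297 (L l390 (L l471 (L l516 (T t2665 N))))))))))))))))))) (K a135 (M a195 (F (T t2568 (L l98 (L l133 (L l144 (T t2666 N))))))) N)))))))))))))))))) (K a170 (M a195 (F (T t2654 (L l63 (L l131 (L l390 (T t2653 (L l218 (L l220 (T t2667 N)))))))))) (K a255 (M a195 (L l469 (F (T t2656 (L l7 (L l475 (T t2668 (L l131 (L l434 (T t2655 (K a95 (M a175 (F (T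 t2654 (L l63 (L l434 (T t2669 (L l131 (L l434 (T t2655 N))))))))) (K a175 (M a95 (F (T t2654 (L l63 (L l434 (T t2669 (L l131 (L l434 (T t2655 N))))))))) N)))))))))))) (K a195 (M a135 (F (T t47 (L l295 (L l469 (T t21 (L l295 (L l469 (T t35 (L l295 (L l469 (T t202 (L l295 (L l469 (T t37 (K a64 (M a132 (F (L l144 (T t2670 (L l73 (L l78 (L l80 (L l487 (T t2671 N))))))))) (K a128 (M a132 (F (L l160 (T t2670 (L l73 (L l78 (L l487 (T t2671 N)))))))) (K a21 (M a132 (F (T t2672 (T t2670 N)))) (K a85 (M a132 (F (L l144 (T t2670 (L l73 (L l78 (L l365 (L l487 (T t1740 N))))))))) (K a149 (M a129 (F (L l63 (L l518 (T t2673 (L l202 (L l319 (T t2674 N)))))))) (K a42 (M a132 (F (T t2672 (L l390 (T t2670 N))))) (K a106 (M a129 (F (L l142 (T t2675 (L l144 (L l319 (T t2674 N))))))) (K a170 (M a132 (F (T t2672 (L l390 (T t2670 N))))) (K a255 (M a132 (L l295 (L l469 (F (T t2672 (T t2670 (K a215 (M a235 (L l469 (F (T t2672 (L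 l349 (T t2670 (K a95 (M a175 (F (T t2672 (L l349 (T t2670 N))))) (K a175 (M a95 (F (T t2672 (L l349 (T t2670 N))))) N)))))))) (K a235 (M a215 (L l469 (F (T t2672 (T t2670 (K a95 (M a175 (F (T t2672 (T t2670 N)))) (K a175 (M a95 (F (T t2672 (T t2670 N)))) N))))))) (K a95 (M a175 (L l295 (F (T t2672 (T t2670 (K a215 (M a235 (F (T t2672 (L l349 (T t2670 N))))) (K a235 (M a215 (F (T t2672 (T t2670 N)))) N))))))) (K a175 (M a95 (L l295 (F (T t2672 (T t2670 (K a215 (M a235 (F (T t2672 (L l349 (T t2670 N))))) (K a235 (M a215 (F (T t2672 (T t2670 N)))) N))))))) N)))))))))) N)))))))))))))))))))))))) (K a135 (M a195 (F (T t1681 (L l7 (T t2668 (L l63 (L l131 (T t2653 N)))))))) N)))))))))))))))))))))))⟩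
def e0_63__75_15 : Ent 4 := ⟨[a0, a63], [a75, a16], (M a85 (F (T t88 (L l18 (T t52 (T t89 (T t90 (K a64 (M a240 (F (T t1384 (T t933 (T t1550 N))))) (K a192 (M a240 (F (L l296 (T t1550 (L l484 (T t933 (L l340 (T t2676 N)))))))) (K a21 (M a12 (L l18 (F (T t1368 (T t124 (L l15 (T t574 (K a26 (M a31 (F (T t2427 (L l14 (T t1369 N))))) (K a31 (M a26 (F (T t1368 (T t124 (L l13 (L l15 (T t574 N))))))) N))))))))) (K a149 (M a4 (F (T t1489 (L l495 (T t519 (L l131 (L l202 (T t1372 N)))))))) (K a213 (Fr a170 a255 l476 (Fr a42 a21 l68 (Fr a106 a234 l390 (Fr a192 a149 l519 (V t581))))) (K a42 (M a240 (F (T t1384 (L l390 (T t386 (L l78 (T t1385 N))))))) (K a106 (M a12 (F (T t1368 (L l18 (T t122 (L l390 (T t124 N))))))) (K a170 (M a4 (F (L l464 (T t130 (L l390 (T t131 (L l390 (L l464 (T t519 (L l464 (T t938 N))))))))))) (K a255 (M a4 (F (T t1604 (L l265 (T t130 (L l265 (L l296 (T t131 N)))))))) N))))))))))))))))⟩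
def e0_63__75_16 : Ent 4 := ⟨[a0, a63], [a75, a17], (M a85 (F (T t88 (L l15 (T t52 (T t89 (T t90 (K a64 (M a204 (F (T t1575 (T t1576 N)))) (K a192 (M a16 (F (T t96 (L l337 (L l339 (T t97 (L l296 (T t98 N)))))))) (K a21 (M a60 (L l15 (F (T t936 (T t114 (L l65 (T t523 (K a25 (M a29 (F (T t936 (L l18 (L l71 (T t2677 N)))))) (K a29 (M a25 (F (T t936 (T t114 (L l59 (L l65 (T t523 N))))))) N))))))))) (K a149 (M a16 (F (T t173 (L l337 (L l375 (T t97 (L l170 (T t102 N)))))))) (K a213 (Fr a170 a255 l476 (Fr a42 a21 l68 (Fr a106 a234 l390 (Fr a192 a149 l519 (V t581))))) (K a42 (M a48 (F (L l28 (T t99 (L l390 (T t50 (L l28 (T t100 N)))))))) (K a106 (M a48 (F (T t99 (L l15 (L l337 (T t1 (L l390 (T t50 N)))))))) (K a170 (M a16 (F (L l404 (T t113 (L l390 (T t98 (L l337 (L l390 (L l404 (T t97 (L l404 (T t174 N)))))))))))) (K a255 (M a16 (F (T t112 (L l289 (T t113 (L l289 (L l296 (T t98 N)))))))) N))))))))))))))))⟩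
def e0_63__75_17 : Ent 4 := ⟨[a0, a63], [a75, a18], (M a85 (F (T t88 (T t52 (T t89 (T t90 (K a64 (M a16 (F (T t258 (L l337 (T t97 (L l116 (T t98 N))))))) (K a192 (M a16 (F (T t96 (L l337 (L l339 (T t97 (L l296 (T t98 N)))))))) (K a21 (M a48 (F (T t99 (T t50 (L l47 (T t100 N)))))) (K a149 (M a16 (F (T t173 (L l337 (L l375 (T t97 (L l16 (L l170 (L l366 (T t102 N)))))))))) (K a213 (Fr a170 a255 l476 (Fr a42 a21 l68 (Fr a106 a234 l390 (Fr a192 a149 l519 (V t581))))) (K a42 (M a48 (F (L l28 (T t99 (L l390 (T t50 (L l28 (T t100 N)))))))) (K a106 (M a48 (F (T t99 (L l337 (T t1 (L l390 (T t50 N))))))) (K a170 (M a16 (F (L l404 (T t113 (L l390 (T t98 (L l337 (L l390 (L l404 (T t97 (L l404 (T t174 N)))))))))))) (K a255 (M a16 (F (T t112 (L l289 (T t113 (L l289 (L l296 (T t98 N)))))))) N)))))))))))))))⟩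
def e0_63__75_18 : Ent 4 := ⟨[a0, a63], [a75, a19], (M a85 (F (T t88 (T t52 (T t89 (T t90 (K a64 (M a48 (F (T t50 (L l367 (T t568 N))))) (K a192 (M a16 (F (T t112 (L l367 (T t96 (L l296 (L l367 (T t98 N)))))))) (K a21 (M a48 (F (T t873 (L l47 (L l367 (T t100 (T t50 N))))))) (K a149 (M a16 (F (T t112 (L l367 (T t173 (L l170 (T t102 N))))))) (K a213 (Fr a170 a255 l476 (Fr a42 a21 l68 (Fr a106 a234 l390 (Fr a192 a149 l519 (V t581))))) (K a42 (M a48 (F (L l10 (T t364 (L l390 (T t50 (L l28 (L l367 (T t100 N))))))))) (K a106 (M a48 (F (L l337 (T t1 (L l104 (L l367 (T t509 (L l390 (T t50 N))))))))) (K a170 (M a16 (F (L l390 (L l404 (T t112 (L l367 (L l390 (T t98 (L l367 (L l404 (T t113 (L l367 (L l404 (T t174 N)))))))))))))) (K a255 (M a16 (F (T t112 (L l289 (L l367 (T t113 (L l289 (L l296 (L l367 (T t98 N)))))))))) N)))))))))))))))⟩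
def e0_63__75_19 : Ent 4 := ⟨[a0, a63], [a75, a20], (M a85 (F (T t88 (L l11 (T t52 (T t89 (T t90 (K a64 (M a16 (F (T t258 (L l337 (T t97 (L l116 (T t98 N))))))) (K a192 (M a16 (F (T t96 (L l337 (L l339 (T t97 (L l296 (T t98 N)))))))) (K a21 (M a51 (L l11 (F (T t943 (T t944 (L l50 (T t945 (K a22 (M a23 (F (T t943 (L l19 (L l50 (L l69 (L l319 (T t946 N)))))))) (K a23 (M a22 (F (T t2678 (L l49 (L l50 (T t945 (T t944 N))))))) N))))))))) (K a149 (M a16 (F (T t173 (L l337 (L l375 (T t97 (L l170 (T t102 N)))))))) (K a213 (Fr a170 a255 l476 (Fr a42 a21 l68 (Fr a106 a234 l390 (Fr a192 a149 l519 (V t581))))) (K a42 (M a48 (F (L l28 (T t99 (L l390 (T t50 (L l28 (T t100 N)))))))) (K a106 (M a48 (F (T t99 (L l11 (L l337 (T t1 (L l390 (T t50 N)))))))) (K a170 (M a16 (F (L l404 (T t113 (L l390 (T t98 (L l337 (L l390 (L l404 (T t97 (L l404 (T t174 N)))))))))))) (K a255 (M a16 (F (T t112 (L l289 (T t113 (L l289 (L l296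 (T t98 N)))))))) N))))))))))))))))⟩
def e0_63__75_20 : Ent 4 := ⟨[a0, a63], [a75, a22], (M a192 (F (T t21 (L l11 (T t35 (T t202 (L l66 (T t37 (K a64 (M a48 (F (T t20 (L l11 (L l337 (T t1 (L l66 (L l116 (L l144 (T t31 N)))))))))) (K a128 (M a48 (F (T t206 (L l11 (L l337 (T t1 (L l66 (T t31 N)))))))) (K a21 (M a20 (F (T t948 (L l66 (L l347 (T t949 (L l65 (L l337 (L l347 (T t950 N)))))))))) (K a85 (M a16 (F (T t210 (L l66 (L l337 (T t97 (L l16 (L l66 (L l94 (L l133 (L l144 (T t211 N)))))))))))) (K a149 (M a48 (F (T t837 (L l11 (L l337 (L l347 (L l491 (T t1 (L l11 (L l170 (L l220 (L l337 (L l347 (L l491 (T t213 (L l66 (L l337 (L l375 (T t214 N))))))))))))))))))) (K a42 (M a2 (F (T t2679 (L l11 (L l390 (T t1804 (L l390 (T t1365 N)))))))) (K a106 (M a48 (F (T t27 (L l11 (L l337 (T t1 (L l11 (L l337 (L l411 (T t213 (L l66 (L l104 (L l144 (L l337 (L l390 (L l498 (T t214 N))))))))))))))))) (K a170 (M a32 (F (T t218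 (L l11 (L l337 (T t219 (L l11 (L l51 (L l180 (L l220 (T t220 N))))))))))) (K a255 (M a16 (F (T t2680 (L l66 (L l337 (L l469 (T t97 (L l16 (L l66 (L l133 (T t211 N))))))))))) N)))))))))))))))))⟩
def e0_63__75_21 : Ent 4 := ⟨[a0, a63], [a75, a23], (M a149 (F (T t5 (L l11 (T t175 (T t176 (T t177 (K a192 (M a53 (F (T t178 (L l236 (T t179 (L l236 (L l296 (T t180 N)))))))) (K a21 (M a48 (L l11 (F (T t4 (T t13 (L l18 (T t14 (K a20 (M a22 (F (T t4 (T t13 (L l14 (L l18 (T t14 N))))))) (K a22 (M a20 (F (T t181 (L l19 (L l50 (T t183 N)))))) N))))))))) (K a85 (M a16 (F (L l455 (T t112 (L l144 (T t190 (L l94 (L l133 (T t278 N))))))))) (K a213 (Fr a106 a192 l519 (Fr a42 a21 l68 (Fr a170 a234 l390 (Fr a255 a85 l476 (V t582))))) (K a42 (M a48 (F (T t187 (L l390 (T t13 (L l54 (T t14 N))))))) (K a106 (M a48 (F (L l11 (T t48 (L l498 (T t14 (L l390 (L l498 (T t6 (L l390 (T t26 N))))))))))) (K a170 (M a48 (F (T t4 (L l11 (L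 l337 (L l462 (T t1 (L l390 (T t13 N))))))))) (K a191 (M a240 (F (T t962 (T t963 N)))) (K a255 (M a16 (F (T t112 (L l266 (T t190 (L l289 (L l296 (T t191 N)))))))) N))))))))))))))))⟩
def e0_63__75_22 : Ent 4 := ⟨[a0, a63], [a75, a24], (M a85 (F (T t88 (T t52 (T t89 (T t90 (K a64 (M a16 (F (T t258 (L l337 (T t97 (L l116 (T t98 N))))))) (K a192 (M a16 (F (T t96 (L l337 (L l339 (T t97 (L l296 (T t98 N)))))))) (K a21 (M a48 (F (T t99 (T t50 (L l47 (T t100 N)))))) (K a149 (M a16 (F (T t173 (L l337 (L l375 (T t97 (L l12 (L l170 (L l356 (T t102 N)))))))))) (K a213 (Fr a170 a255 l476 (Fr a42 a21 l68 (Fr a106 a234 l390 (Fr a192 a149 l519 (V t581))))) (K a42 (M a48 (F (L l28 (T t99 (L l390 (T t50 (L l28 (T t100 N)))))))) (K a106 (M a48 (F (T t99 (L l337 (T t1 (L l390 (T t50 N))))))) (K a170 (M a16 (F (L l404 (T t113 (L l390 (T t98 (L l337 (L l390 (L l404 (T t97 (L l404 (T t174 N)))))))))))) (K a255 (M a16 (F (T t112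 (L l289 (T t113 (L l289 (L l296 (T t98 N)))))))) N)))))))))))))))⟩
def e0_63__75_23 : Ent 4 := ⟨[a0, a63], [a75, a25], (M a192 (F (T t21 (L l15 (T t35 (T t202 (L l56 (T t37 (K a64 (M a48 (F (T t20 (L l15 (L l337 (T t1 (L l56 (L l116 (L l144 (T t31 N)))))))))) (K a128 (M a48 (F (T t206 (L l15 (L l337 (T t1 (L l56 (T t31 N)))))))) (K a21 (M a17 (F (T t207 (L l56 (L l347 (T t208 (L l56 (T t209 N)))))))) (K a85 (M a16 (F (T t210 (L l56 (L l337 (T t97 (L l12 (L l56 (L l94 (L l133 (L l144 (T t211 N)))))))))))) (K a149 (M a48 (F (T t837 (L l15 (L l337 (L l347 (L l491 (T t1 (L l15 (L l170 (L l220 (L l337 (L l347 (L l491 (T t213 (L l56 (L l337 (L l375 (T t214 N))))))))))))))))))) (K a42 (M a8 (F (T t215 (L l15 (L l390 (T t1807 (L l15 (T t217 N)))))))) (K a106 (M a48 (F (T t27 (L l15 (L l337 (T t1 (L l15 (L l337 (L l411 (T t213 (L l56 (L l104 (L l144 (L l337 (L l390 (L l498 (T t214 N))))))))))))))))) (K a170 (M a32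 (F (T t218 (L l15 (L l337 (T t219 (L l15 (L l71 (L l180 (L l220 (T t220 N))))))))))) (K a255 (M a16 (F (T t2680 (L l56 (L l337 (L l469 (T t97 (L l12 (L l56 (L l133 (T t211 N))))))))))) N)))))))))))))))))⟩
def e0_63__75_24 : Ent 4 := ⟨[a0, a63], [a75, a26], (M a192 (F (T t21 (L l18 (T t35 (T t202 (L l54 (T t37 (K a64 (M a12 (F (T t450 (L l18 (T t122 (L l54 (L l78 (L l80 (L l144 (T t160 N)))))))))) (K a128 (M a12 (F (T t221 (L l18 (T t122 (L l54 (L l78 (T t160 N)))))))) (K a21 (M a16 (F (T t210 (L l54 (L l347 (T t222 (L l347 (T t223 N)))))))) (K a85 (M a48 (F (T t28 (L l347 (T t20 (L l18 (L l54 (L l144 (L l368 (T t224 N)))))))))) (K a149 (M a12 (F (L l54 (T t151 (L l202 (L l220 (T t156 (L l18 (L l202 (L l220 (L l347 (L l371 (T t227 (L l54 (L l78 (L l495 (T t228 N))))))))))))))))) (K a42 (M a10 (F (T t229 (L l18 (L l390 (T t230 (L l78 (L l390 (T t231 N))))))))) (K a106 (M a12 (F (T t156 (L l18 (T t122 (L l18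 (L l501 (T t227 (L l54 (L l78 (L l132 (L l144 (L l390 (L l408 (T t228 N))))))))))))))) (K a170 (M a48 (F (T t837 (L l54 (L l390 (T t206 (L l220 (L l404 (T t29 N))))))))) (K a255 (M a224 (F (T t233 (L l78 (T t232 (L l18 (L l75 (T t234 N)))))))) N)))))))))))))))))⟩
def e0_63__75_25 : Ent 4 := ⟨[a0, a63], [a75, a27], (M a149 (F (T t5 (T t175 (T t176 (T t177 (K a192 (M a53 (F (T t178 (L l236 (T t179 (L l236 (L l296 (T t180 N)))))))) (K a21 (M a48 (F (T t4 (T t13 (L l18 (T t14 N)))))) (K a85 (M a16 (F (L l455 (T t112 (L l144 (T t190 (L l12 (L l94 (L l133 (L l357 (T t278 N))))))))))) (K a213 (Fr a106 a192 l519 (Fr a42 a21 l68 (Fr a170 a234 l390 (Fr a255 a85 l476 (V t582))))) (K a42 (M a48 (F (T t187 (L l390 (T t13 (L l54 (T t14 N))))))) (K a106 (M a48 (F (T t48 (L l498 (T t14 (L l390 (L l498 (T t6 (L l390 (T t26 N)))))))))) (K a170 (M a48 (F (T t4 (L l73 (L l337 (L l462 (T t1 (L l390 (T t13 N))))))))) (K a191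 (M a240 (F (T t962 (T t963 N)))) (K a255 (M a16 (F (T t112 (L l266 (T t190 (L l289 (L l296 (T t191 N)))))))) N)))))))))))))))⟩
def e0_63__75_26 : Ent 4 := ⟨[a0, a63], [a75, a28], (M a85 (F (T t88 (T t52 (T t89 (T t90 (K a64 (M a48 (F (T t50 (L l362 (T t568 N))))) (K a192 (M a16 (F (T t112 (L l362 (T t96 (L l296 (L l362 (T t98 N)))))))) (K a21 (M a48 (F (T t873 (L l47 (L l362 (T t100 (T t50 N))))))) (K a149 (M a16 (F (T t112 (L l362 (T t173 (L l170 (T t102 N))))))) (K a213 (Fr a170 a255 l476 (Fr a42 a21 l68 (Fr a106 a234 l390 (Fr a192 a149 l519 (V t581))))) (K a42 (M a48 (F (L l14 (T t364 (L l390 (T t50 (L l28 (L l362 (T t100 N))))))))) (K a106 (M a48 (F (L l337 (T t1 (L l104 (L l362 (T t509 (L l390 (T t50 N))))))))) (K a170 (M a16 (F (L l390 (L l404 (T t112 (L l362 (L l390 (T t98 (L l362 (L l404 (T t113 (L l362 (L l404 (T t174 N)))))))))))))) (K a255 (M a16 (F (T t112 (L l289 (L l362 (T t113 (L l289 (L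 l296 (L l362 (T t98 N)))))))))) N)))))))))))))))⟩
def e0_63__75_27 : Ent 4 := ⟨[a0, a63], [a75, a29], (M a149 (F (T t5 (L l15 (T t175 (T t176 (T t177 (K a192 (M a53 (F (T t178 (L l236 (T t179 (L l236 (L l296 (T t180 N)))))))) (K a21 (M a48 (L l15 (F (T t4 (T t13 (L l18 (T t14 (K a17 (M a25 (F (T t4 (T t13 (L l10 (L l18 (T t14 N))))))) (K a25 (M a17 (F (T t181 (L l19 (L l65 (T t642 N)))))) N))))))))) (K a85 (M a16 (F (L l455 (T t112 (L l144 (T t190 (L l94 (L l133 (T t278 N))))))))) (K a213 (Fr a106 a192 l519 (Fr a42 a21 l68 (Fr a170 a234 l390 (Fr a255 a85 l476 (V t582))))) (K a42 (M a48 (F (T t187 (L l390 (T t13 (L l54 (T t14 N))))))) (K a106 (M a48 (F (L l15 (T t48 (L l498 (T t14 (L l390 (L l498 (T t6 (L l390 (T t26 N))))))))))) (K a170 (M a48 (F (T t4 (L l15 (L l337 (L l462 (T t1 (L l390 (T t13 N))))))))) (K a191 (M a240 (F (T t962 (T t963 N)))) (K a255 (M a16 (F (T t112 (L l266 (T t190 (L l289 (L l296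 (T t191 N)))))))) N))))))))))))))))⟩
def e0_63__75_28 : Ent 4 := ⟨[a0, a63], [a75, a30], (M a149 (F (T t5 (T t175 (T t176 (T t177 (K a192 (M a53 (F (T t178 (L l236 (T t179 (L l236 (L l296 (T t180 N)))))))) (K a21 (M a48 (F (T t4 (T t13 (L l18 (T t14 N)))))) (K a85 (M a16 (F (L l455 (T t112 (L l144 (T t190 (L l16 (L l94 (L l133 (L l372 (T t278 N))))))))))) (K a213 (Fr a106 a192 l519 (Fr a42 a21 l68 (Fr a170 a234 l390 (Fr a255 a85 l476 (V t582))))) (K a42 (M a48 (F (T t187 (L l390 (T t13 (L l54 (T t14 N))))))) (K a106 (M a48 (F (T t48 (L l498 (T t14 (L l390 (L l498 (T t6 (L l390 (T t26 N)))))))))) (K a170 (M a48 (F (T t4 (L l63 (L l337 (L l462 (T t1 (L l390 (T t13 N))))))))) (K a191 (M a240 (F (T t962 (T t963 N)))) (K a255 (M a16 (F (T t112 (L l266 (T t190 (L l289 (L l296 (T t191 N)))))))) N)))))))))))))))⟩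
def e0_63__75_29 : Ent 4 := ⟨[a0, a63], [a75, a31], (M a149 (F (T t5 (L l18 (T t175 (T t176 (T t177 (K a192 (M a29 (F (T t956 (L l272 (T t641 (L l272 (L l296 (L l363 (T t957 N))))))))) (K a21 (M a12 (L l18 (F (T t647 (T t648 (L l50 (T t649 (K a16 (M a26 (F (T t647 (T t648 (L l50 (T t649 N)))))) (K a26 (M a16 (F (T t647 (L l50 (L l57 (T t652 N)))))) N))))))))) (K a85 (M a48 (F (T t4 (L l18 (L l337 (T t1 (L l144 (T t13 N)))))))) (K a213 (Fr a106 a192 l519 (Fr a42 a21 l68 (Fr a170 a234 l390 (Fr a255 a85 l476 (V t582))))) (K a42 (M a48 (F (T t187 (L l390 (T t13 (L l18 (L l54 (T t14 N)))))))) (K a106 (M a12 (F (L l408 (T t649 (L l13 (L l18 (T t122 (L l390 (L l408 (T t960 (L l390 (T t961 N)))))))))))) (K a170 (M a48 (F (T t4 (L l18 (L l337 (L l462 (T t1 (L l390 (T t13 N))))))))) (K a191 (M a240 (F (T t1091 (T t963 N)))) (K a255 (M a48 (F (T t964 (L l18 (L l337 (L l469 (T t1 (L l266 (T t13 N))))))))) N))))))))))))))))⟩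
def e0_63__75_30 : Ent 4 := ⟨[a0, a63], [a75, a32], (M a85 (F (T t52 (L l28 (T t88 (L l28 (T t89 (L l404 (T t90 (K a64 (M a240 (F (L l376 (T t1384 (L l404 (T t933 (L l28 (L l376 (T t1550 N))))))))) (K a192 (M a4 (F (T t1399 (L l28 (L l489 (T t519 (L l28 (L l296 (T t131 N))))))))) (K a21 (M a240 (F (T t1552 (L l404 (T t933 (L l78 (L l376 (T t1385 N)))))))) (K a149 (M a4 (F (T t1371 (L l28 (L l495 (T t519 (L l28 (L l131 (L l202 (T t1372 N)))))))))) (K a213 (Fr a170 a255 l476 (Fr a42 a21 l68 (Fr a106 a234 l390 (Fr a192 a149 l519 (V t581))))) (K a42 (M a47 (F (T t1808 (L l390 (L l404 (T t1404 (L l54 (L l376 (T t1403 (L l376 (L l390 (L l404 (T t1809 N))))))))))))) (K a106 (M a12 (F (T t1368 (L l20 (T t122 (L l390 (L l404 (T t124 N)))))))) (K a170 (M a101 (F (L l206 (T t1810 (L l28 (L l390 (T t1811 (L l206 (L l376 (T t1812 (L l28 (L l206 (L l390 (T t1813 N)))))))))))))) (K a255 (M a4 (F (L l28 (T t129 (L l265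 (T t130 (L l28 (L l265 (L l296 (T t131 N)))))))))) N))))))))))))))))))⟩
def e0_63__75_31 : Ent 4 := ⟨[a0, a63], [a75, a33], (M a85 (F (T t88 (T t52 (T t89 (T t90 (K a64 (M a16 (F (L l20 (T t259 (L l116 (T t98 (L l20 (L l337 (T t97 N))))))))) (K a192 (M a16 (F (L l20 (T t112 (L l296 (T t666 (L l296 (T t98 N)))))))) (K a21 (M a48 (F (T t873 (L l20 (L l47 (T t100 (T t50 N))))))) (K a149 (M a16 (F (T t666 (L l20 (L l337 (L l375 (T t97 (L l170 (T t102 N))))))))) (K a213 (Fr a170 a255 l476 (Fr a42 a21 l68 (Fr a106 a234 l390 (Fr a192 a149 l519 (V t581))))) (K a42 (M a48 (F (T t364 (L l390 (T t50 (L l20 (L l28 (T t100 N)))))))) (K a106 (M a48 (F (T t364 (L l337 (T t1 (L l390 (T t50 N))))))) (K a170 (M a16 (F (L l20 (L l404 (T t113 (L l390 (T t98 (L l20 (L l337 (L l390 (L l404 (T t97 (L l20 (L l404 (T t174 N))))))))))))))) (K a255 (M a16 (F (L l20 (T t112 (L l289 (L l296 (T t98 (L l20 (L l289 (T t113 N))))))))))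 N)))))))))))))))⟩
def e0_63__75_32 : Ent 4 := ⟨[a0, a63], [a75, a34], (M a85 (F (T t52 (L l26 (T t88 (L l26 (T t89 (L l402 (T t90 (K a64 (M a16 (F (L l20 (T t258 (L l26 (L l116 (T t98 (L l20 (L l26 (L l337 (T t97 N))))))))))) (K a192 (M a16 (F (L l20 (T t96 (L l26 (T t966 (L l20 (L l26 (L l337 (L l339 (T t97 N))))))))))) (K a21 (M a48 (F (L l20 (T t99 (L l402 (T t50 (L l20 (L l47 (T t100 N))))))))) (K a149 (M a16 (F (T t666 (L l20 (L l26 (L l337 (L l375 (T t97 (L l26 (L l170 (T t102 N))))))))))) (K a213 (Fr a170 a255 l476 (Fr a42 a21 l68 (Fr a106 a234 l390 (Fr a192 a149 l519 (V t581))))) (K a42 (M a46 (F (T t1814 (L l390 (L l402 (T t1389 (L l56 (L l378 (T t1390 (L l378 (L l390 (L l402 (T t1391 N))))))))))))) (K a106 (M a48 (F (T t364 (L l337 (T t1 (L l390 (L l402 (T t50 N)))))))) (K a170 (M a102 (F (L l208 (T t1392 (L l26 (L l390 (T t1393 (L l208 (L l378 (T t1394 (L l26 (L l208 (L l390 (T t1395 N))))))))))))))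 (K a255 (M a16 (F (L l20 (L l26 (T t112 (L l20 (L l289 (T t113 (L l26 (L l289 (L l296 (T t98 N)))))))))))) N))))))))))))))))))⟩
def e0_63__75_33 : Ent 4 := ⟨[a0, a63], [a75, a35], (M a85 (F (T t88 (T t52 (T t89 (T t90 (K a64 (M a48 (F (T t50 (L l20 (T t568 N))))) (K a192 (M a16 (F (L l20 (T t96 (T t966 (L l20 (L l337 (L l339 (T t97 N))))))))) (K a21 (M a48 (F (T t873 (L l20 (L l47 (T t100 (T t50 N))))))) (K a149 (M a16 (F (T t666 (L l20 (L l337 (L l375 (T t97 (L l170 (T t102 N))))))))) (K a213 (Fr a170 a255 l476 (Fr a42 a21 l68 (Fr a106 a234 l390 (Fr a192 a149 l519 (V t581))))) (K a42 (M a48 (F (L l403 (T t364 (L l390 (T t50 (L l20 (L l28 (T t100 N))))))))) (K a106 (M a48 (F (T t48 (L l20 (L l104 (T t509 (L l390 (T t50 N)))))))) (K a170 (M a16 (F (L l20 (L l404 (T t113 (L l390 (T t98 (L l20 (L l337 (L l390 (L l404 (T t97 (L l20 (L l404 (T t174 N))))))))))))))) (K a255 (M a16 (F (L l20 (T t112 (L l289 (L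 l296 (T t98 (L l20 (L l289 (T t113 N)))))))))) N)))))))))))))))⟩
def e0_63__75_34 : Ent 4 := ⟨[a0, a63], [a75, a36], (M a85 (F (T t88 (T t52 (T t89 (T t90 (K a64 (M a16 (F (L l24 (T t259 (L l116 (T t98 (L l24 (L l337 (T t97 N))))))))) (K a192 (M a16 (F (L l24 (T t112 (L l296 (T t666 (L l296 (T t98 N)))))))) (K a21 (M a48 (F (T t873 (L l24 (L l47 (T t100 (T t50 N))))))) (K a149 (M a16 (F (T t666 (L l24 (L l337 (L l375 (T t97 (L l170 (T t102 N))))))))) (K a213 (Fr a170 a255 l476 (Fr a42 a21 l68 (Fr a106 a234 l390 (Fr a192 a149 l519 (V t581))))) (K a42 (M a48 (F (T t364 (L l390 (T t50 (L l24 (L l28 (T t100 N)))))))) (K a106 (M a48 (F (T t364 (L l337 (T t1 (L l390 (T t50 N))))))) (K a170 (M a16 (F (L l24 (L l404 (T t113 (L l390 (T t98 (L l24 (L l337 (L l390 (L l404 (T t97 (L l24 (L l404 (T t174 N))))))))))))))) (K a255 (M a16 (F (L l24 (T t112 (L l289 (L l296 (T t98 (L l24 (L l289 (T t113 N)))))))))) N)))))))))))))))⟩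
def e0_63__75_35 : Ent 4 := ⟨[a0, a63], [a75, a37], (M a192 (F (T t21 (L l47 (T t35 (T t202 (L l28 (T t37 (K a64 (M a12 (F (T t450 (L l47 (T t122 (L l28 (L l78 (L l80 (L l144 (T t160 N)))))))))) (K a128 (M a12 (F (T t221 (L l47 (T t122 (L l28 (L l78 (T t160 N)))))))) (K a21 (M a5 (F (L l78 (T t1815 (L l28 (L l347 (T t1816 (L l28 (T t1817 N))))))))) (K a85 (M a48 (F (T t27 (L l47 (L l347 (T t20 (L l144 (L l368 (T t224 N))))))))) (K a149 (M a12 (F (L l28 (T t151 (L l202 (L l220 (T t156 (L l47 (L l202 (L l220 (L l347 (L l371 (T t227 (L l28 (L l78 (L l495 (T t228 N))))))))))))))))) (K a42 (M a32 (F (T t218 (L l47 (L l390 (T t1818 (L l47 (T t1819 N)))))))) (K a106 (M a12 (F (T t156 (L l47 (T t122 (L l47 (L l501 (T t227 (L l28 (L l78 (L l132 (L l144 (L l390 (L l408 (T t228 N))))))))))))))) (K a170 (M a48 (F (T t19 (L l390 (T t206 (L l28 (L l47 (L l220 (L l404 (T t29 N)))))))))) (K a255 (M a208 (F (T t1820 (T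 t1821 (L l28 (L l75 (L l133 (T t1822 N)))))))) N)))))))))))))))))⟩
def e0_63__75_36 : Ent 4 := ⟨[a0, a63], [a75, a38], (M a192 (F (T t21 (L l50 (T t35 (T t202 (L l26 (T t37 (K a64 (M a48 (F (T t20 (L l50 (L l337 (T t1 (L l26 (L l116 (L l144 (T t31 N)))))))))) (K a128 (M a48 (F (T t206 (L l50 (L l337 (T t1 (L l26 (T t31 N)))))))) (K a21 (M a4 (F (L l78 (T t1407 (L l26 (L l347 (T t1408 (L l131 (L l347 (T t1409 N)))))))))) (K a85 (M a16 (F (T t210 (L l26 (L l337 (T t97 (L l26 (L l72 (L l94 (L l133 (L l144 (T t211 N)))))))))))) (K a149 (M a48 (F (T t837 (L l50 (L l337 (L l347 (L l491 (T t1 (L l50 (L l170 (L l220 (L l337 (L l347 (L l491 (T t213 (L l26 (L l337 (L l375 (T t214 N))))))))))))))))))) (K a42 (M a34 (F (T t1410 (L l50 (L l390 (T t1411 (L l390 (T t1412 N)))))))) (K a106 (M a48 (F (T t27 (L l50 (L l337 (T t1 (L l50 (L l337 (L l411 (T t213 (L l26 (L l104 (L l144 (L l337 (L l390 (L l498 (T t214 N)))))))))))))))))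 (K a170 (M a32 (F (T t218 (L l50 (L l337 (T t219 (L l21 (L l50 (L l180 (L l220 (T t220 N))))))))))) (K a255 (M a16 (F (T t2680 (L l26 (L l337 (L l469 (T t97 (L l26 (L l72 (L l133 (T t211 N))))))))))) N)))))))))))))))))⟩
def e0_63__75_37 : Ent 4 := ⟨[a0, a63], [a75, a39], (M a85 (F (T t88 (T t52 (T t89 (T t90 (K a64 (M a16 (F (T t258 (L l73 (L l337 (T t97 (L l116 (T t98 N)))))))) (K a192 (M a16 (F (T t96 (L l73 (L l337 (L l339 (T t97 (L l296 (T t98 N))))))))) (K a21 (M a48 (F (T t99 (T t50 (L l47 (T t100 N)))))) (K a149 (M a16 (F (T t173 (L l73 (L l337 (L l375 (T t97 (L l170 (T t102 N))))))))) (K a213 (Fr a170 a255 l476 (Fr a42 a21 l68 (Fr a106 a234 l390 (Fr a192 a149 l519 (V t581))))) (K a42 (M a48 (F (T t364 (L l390 (T t50 (L l28 (T t100 N))))))) (K a106 (M a48 (F (T t99 (L l73 (L l337 (T t1 (L l390 (T t50 N)))))))) (K a170 (M a16 (F (L l404 (T t113 (L l390 (T t98 (L l73 (L l337 (L l390 (L l404 (T t97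 (L l404 (T t174 N))))))))))))) (K a255 (M a16 (F (T t112 (L l289 (T t113 (L l289 (L l296 (T t98 N)))))))) N)))))))))))))))⟩
def e0_63__75_38 : Ent 4 := ⟨[a0, a63], [a75, a40], (M a85 (F (T t52 (L l22 (T t88 (L l22 (T t89 (L l392 (T t90 (K a64 (M a16 (F (L l24 (T t258 (L l22 (L l116 (T t98 (L l22 (L l24 (L l337 (T t97 N))))))))))) (K a192 (M a16 (F (L l24 (T t96 (L l22 (T t966 (L l22 (L l24 (L l337 (L l339 (T t97 N))))))))))) (K a21 (M a48 (F (L l24 (T t99 (L l392 (T t50 (L l24 (L l47 (T t100 N))))))))) (K a149 (M a16 (F (T t666 (L l22 (L l24 (L l337 (L l375 (T t97 (L l22 (L l170 (T t102 N))))))))))) (K a213 (Fr a170 a255 l476 (Fr a42 a21 l68 (Fr a106 a234 l390 (Fr a192 a149 l519 (V t581))))) (K a42 (M a43 (F (T t667 (L l390 (L l392 (T t265 (L l66 (L l388 (T t264 (L l388 (L l390 (L l392 (T t1824 N))))))))))))) (K a106 (M a48 (F (T t364 (L l337 (T t1 (L l390 (L l392 (T t50 N)))))))) (K a170 (M a105 (F (L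 l131 (L l218 (T t669 (L l22 (L l390 (T t670 (L l218 (L l388 (T t967 (L l22 (L l218 (L l390 (T t672 N))))))))))))))) (K a255 (M a16 (F (L l22 (L l24 (T t112 (L l24 (L l289 (T t113 (L l22 (L l289 (L l296 (T t98 N)))))))))))) N))))))))))))))))))⟩
def e0_63__75_39 : Ent 4 := ⟨[a0, a63], [a75, a41], (M a192 (F (T t21 (L l65 (T t35 (T t202 (L l22 (T t37 (K a64 (M a48 (F (T t20 (L l65 (L l337 (T t1 (L l22 (L l116 (L l144 (T t31 N)))))))))) (K a128 (M a48 (F (T t206 (L l65 (L l337 (T t1 (L l22 (T t31 N)))))))) (K a21 (M a1 (F (T t2681 (L l22 (L l347 (T t1826 (L l22 (T t1827 N)))))))) (K a85 (M a16 (F (T t210 (L l22 (L l337 (T t97 (L l22 (L l57 (L l94 (L l133 (L l144 (T t211 N)))))))))))) (K a149 (M a48 (F (T t837 (L l65 (L l337 (L l347 (L l491 (T t1 (L l65 (L l170 (L l220 (L l337 (L l347 (L l491 (T t213 (L l22 (L l337 (L l375 (T t214 N))))))))))))))))))) (K a42 (M a40 (F (T t1828 (L l65 (L l390 (T t1829 (L l65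 (L l337 (T t1830 N))))))))) (K a106 (M a48 (F (T t27 (L l65 (L l337 (T t1 (L l65 (L l337 (L l411 (T t213 (L l22 (L l104 (L l144 (L l337 (L l390 (L l498 (T t214 N))))))))))))))))) (K a170 (M a32 (F (T t218 (L l65 (L l337 (T t219 (L l25 (L l65 (L l180 (L l220 (T t220 N))))))))))) (K a255 (M a16 (F (T t2680 (L l22 (L l337 (L l469 (T t97 (L l22 (L l57 (L l133 (T t211 N))))))))))) N)))))))))))))))))⟩
def e0_63__75_40 : Ent 4 := ⟨[a0, a63], [a75, a43], (M a149 (F (T t175 (L l22 (T t5 (L l22 (T t176 (L l393 (T t177 (K a192 (M a53 (F (L l22 (T t178 (L l236 (T t179 (L l22 (L l236 (L l296 (T t180 N)))))))))) (K a21 (M a48 (F (T t4 (L l393 (T t13 (L l18 (T t14 N))))))) (K a85 (M a16 (F (L l22 (T t504 (L l144 (L l393 (T t190 (L l22 (L l94 (L l133 (T t278 N))))))))))) (K a213 (Fr a106 a192 l519 (Fr a42 a21 l68 (Fr a170 a234 l390 (Fr a255 a85 l476 (V t582))))) (K a42 (M a40 (F (L l133 (T t973 (L l390 (L l393 (T t974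 (L l66 (L l391 (T t969 (L l390 (L l391 (L l393 (T t972 N)))))))))))))) (K a106 (M a169 (F (L l142 (T t981 (L l22 (L l390 (T t977 (L l142 (L l391 (T t978 (L l22 (L l142 (L l390 (T t979 N)))))))))))))) (K a170 (M a48 (F (T t4 (L l337 (L l462 (T t1 (L l390 (L l393 (T t13 N))))))))) (K a191 (M a16 (F (T t2682 (L l22 (L l213 (T t191 (L l22 (L l337 (T t97 N))))))))) (K a255 (M a16 (F (T t192 (L l22 (L l133 (T t193 (L l266 (L l393 (T t190 N))))))))) N))))))))))))))))))⟩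
def e0_63__75_41 : Ent 4 := ⟨[a0, a63], [a75, a44], (M a85 (F (T t88 (T t52 (T t89 (T t90 (K a64 (M a48 (F (T t50 (L l24 (T t568 N))))) (K a192 (M a16 (F (L l24 (T t96 (T t966 (L l24 (L l337 (L l339 (T t97 N))))))))) (K a21 (M a48 (F (T t873 (L l24 (L l47 (T t100 (T t50 N))))))) (K a149 (M a16 (F (T t666 (L l24 (L l337 (L l375 (T t97 (L l170 (T t102 N))))))))) (K a213 (Fr a170 a255 l476 (Fr a42 a21 l68 (Fr a106 a234 l390 (Fr a192 a149 l519 (V t581))))) (K a42 (M a48 (F (L l398 (T t364 (L l390 (T t50 (L l24 (L l28 (T t100 N))))))))) (K a106 (M a48 (F (T t48 (L l24 (L l104 (T t509 (L l390 (T t50 N)))))))) (K a170 (M a16 (F (L l24 (L l404 (T t113 (L l390 (T t98 (L l24 (L l337 (L l390 (L l404 (T t97 (L l24 (L l404 (T t174 N))))))))))))))) (K a255 (M a16 (F (L l24 (T t112 (L l289 (L l296 (T t98 (L l24 (L l289 (T t113 N)))))))))) N)))))))))))))))⟩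
def e0_63__75_42 : Ent 4 := ⟨[a0, a63], [a75, a45], (M a149 (F (T t5 (T t175 (T t176 (T t177 (K a192 (M a53 (F (T t178 (L l236 (T t179 (L l236 (L l296 (T t180 N)))))))) (K a21 (M a48 (F (T t4 (T t13 (L l18 (T t14 N)))))) (K a85 (M a16 (F (T t504 (L l144 (T t190 (L l94 (L l133 (T t278 N)))))))) (K a213 (Fr a106 a192 l519 (Fr a42 a21 l68 (Fr a170 a234 l390 (Fr a255 a85 l476 (V t582))))) (K a42 (M a48 (F (T t187 (L l390 (T t13 (L l54 (T t14 N))))))) (K a106 (M a48 (F (T t48 (L l498 (T t14 (L l390 (L l498 (T t6 (L l390 (T t26 N)))))))))) (K a170 (M a48 (F (T t4 (L l63 (L l337 (L l462 (T t1 (L l390 (T t13 N))))))))) (K a191 (M a12 (F (T t648 (L l23 (T t960 N))))) (K a255 (M a16 (F (T t112 (L l266 (T t190 (L l289 (L l296 (T t191 N)))))))) N)))))))))))))))⟩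
def e0_63__75_43 : Ent 4 := ⟨[a0, a63], [a75, a46], (M a149 (F (T t175 (L l26 (T t5 (L l26 (T t176 (L l408 (T t177 (K a192 (M a53 (F (L l26 (T t178 (L l236 (T t179 (L l26 (L l236 (L l296 (T t180 N)))))))))) (K a21 (M a48 (F (T t4 (L l408 (T t13 (L l18 (T t14 N))))))) (K a85 (M a16 (F (L l26 (T t504 (L l144 (L l408 (T t190 (L l26 (L l94 (L l133 (T t278 N))))))))))) (K a213 (Fr a106 a192 l519 (Fr a42 a21 l68 (Fr a170 a234 l390 (Fr a255 a85 l476 (V t582))))) (K a42 (M a34 (F (T t279 (L l390 (L l408 (T t280 (L l56 (L l396 (T t281 (L l390 (L l396 (L l408 (T t282 N))))))))))))) (K a106 (M a166 (F (L l131 (L l132 (T t283 (L l26 (L l390 (T t284 (L l131 (L l132 (L l396 (T t285 (L l26 (L l132 (L l390 (T t286 N)))))))))))))))) (K a170 (M a48 (F (T t4 (L l337 (L l462 (T t1 (L l390 (L l408 (T t13 N))))))))) (K a191 (M a16 (F (T t2682 (L l26 (L l213 (T t191 (L l26 (L l337 (T t97 N))))))))) (K a255 (M a16 (F (T t192 (L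 l26 (L l133 (T t193 (L l266 (L l408 (T t190 N))))))))) N))))))))))))))))))⟩
def e0_63__75_44 : Ent 4 := ⟨[a0, a63], [a75, a47], (M a149 (F (T t175 (L l28 (T t5 (L l28 (T t176 (L l411 (T t177 (K a192 (M a29 (F (L l23 (L l28 (T t956 (L l23 (L l272 (T t641 (L l28 (L l272 (L l296 (T t957 N)))))))))))) (K a21 (M a48 (F (T t4 (L l411 (T t13 (L l18 (L l397 (T t14 N)))))))) (K a85 (M a48 (F (T t4 (L l28 (L l337 (L l455 (T t2 (L l144 (L l411 (T t13 N)))))))))) (K a213 (Fr a106 a192 l519 (Fr a42 a21 l68 (Fr a170 a234 l390 (Fr a255 a85 l476 (V t582))))) (K a42 (M a32 (F (T t983 (L l390 (L l411 (T t984 (L l54 (L l397 (T t985 (L l390 (L l397 (L l411 (T t986 N))))))))))))) (K a106 (M a165 (F (L l28 (L l390 (T t988 (L l130 (L l337 (L l397 (T t989 (L l28 (L l130 (L l133 (L l390 (T t990 (L l130 (L l337 (T t987 N))))))))))))))))) (K a170 (M a12 (F (T t991 (L l402 (T t122 (L l390 (L l411 (T t648 N)))))))) (K a191 (M a144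 (F (L l411 (T t992 (L l28 (L l213 (T t993 (L l411 (T t994 N))))))))) (K a255 (M a48 (F (T t16 (L l28 (L l337 (L l469 (T t2 (L l266 (L l411 (T t13 N)))))))))) N))))))))))))))))))⟩
def e0_63__75_45 : Ent 4 := ⟨[a0, a63], [a75, a48], (M a60 (F (T t116 (L l45 (T t67 (L l45 (T t43 (L l45 (T t68 (L l45 (T t69 (K a20 (M a12 (F (T t570 (L l11 (L l30 (T t122 (L l11 (L l46 (T t399 N))))))))) (K a40 (M a12 (F (T t1413 (L l30 (T t122 (L l24 (T t399 N))))))) (K a21 (M a192 (F (T t2647 (L l131 (L l337 (L l347 (L l488 (T t73 (L l347 (T t74 N)))))))))) (K a41 (M a192 (F (T t1343 (L l436 (T t79 (L l65 (L l440 (T t35 N)))))))) (K a61 (M a192 (F (T t1334 (L l65 (L l440 (L l515 (T t35 (T t80 N)))))))) (K a22 (M a192 (F (T t237 (L l11 (L l436 (T t79 (L l11 (L l440 (T t35 N))))))))) (K a42 (M a192 (F (T t237 (L l436 (T t79 (L l22 (T t74 N))))))) (K a62 (M a192 (F (T t57 (L l436 (T t79 (L l66 (L l516 (T t80 N)))))))) (K a3 (M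 a84 (L l45 (F (T t2648 (T t1415 (L l440 (L l475 (L l477 (T t1416 (K a33 (M a18 (F (T t1414 (L l70 (T t1417 N))))) (K a18 (M a33 (F (T t1414 (L l70 (T t1418 N))))) N))))))))))) N))))))))))))))))))))⟩
def e0_63__75_46 : Ent 4 := ⟨[a0, a63], [a75, a49], (M a85 (F (T t88 (T t52 (T t89 (T t90 (K a64 (M a16 (F (T t259 (L l337 (T t97 (L l116 (T t98 N))))))) (K a192 (M a16 (F (T t260 (L l337 (L l339 (T t97 (L l296 (T t98 N)))))))) (K a21 (M a48 (F (T t99 (L l437 (T t50 (L l35 (L l47 (T t100 N)))))))) (K a149 (M a16 (F (T t173 (L l337 (L l375 (T t97 (L l170 (T t102 N)))))))) (K a213 (Fr a170 a255 l476 (Fr a42 a21 l68 (Fr a106 a234 l390 (Fr a192 a149 l519 (V t581))))) (K a42 (M a48 (F (T t365 (L l390 (L l437 (T t50 (L l28 (L l35 (T t100 N))))))))) (K a106 (M a48 (F (T t99 (L l35 (L l337 (T t1 (L l390 (L l437 (T t50 N))))))))) (K a170 (M a16 (F (L l390 (L l404 (T t112 (L l390 (T t98 (L l35 (L l404 (T t113 (L l404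 (T t174 N)))))))))))) (K a255 (M a16 (F (T t112 (L l35 (L l289 (T t113 (L l289 (L l296 (T t98 N))))))))) N)))))))))))))))⟩
def e0_63__75_47 : Ent 4 := ⟨[a0, a63], [a75, a50], (M a85 (F (T t88 (T t52 (T t89 (T t90 (K a64 (M a48 (F (T t50 (T t568 N)))) (K a192 (M a16 (F (T t96 (L l337 (L l339 (T t97 (L l296 (T t98 N)))))))) (K a21 (M a48 (F (T t1699 (L l47 (T t100 (T t50 N)))))) (K a149 (M a16 (F (T t173 (L l337 (L l375 (T t97 (L l72 (L l170 (L l510 (T t102 N)))))))))) (K a213 (Fr a170 a255 l476 (Fr a42 a21 l68 (Fr a106 a234 l390 (Fr a192 a149 l519 (V t581))))) (K a42 (M a48 (F (T t364 (L l390 (T t50 (L l28 (T t100 N))))))) (K a106 (M a48 (F (T t364 (L l337 (T t1 (L l390 (T t50 N))))))) (K a170 (M a16 (F (L l404 (T t113 (L l390 (T t98 (L l337 (L l390 (L l404 (T t97 (L l36 (L l404 (T t174 N))))))))))))) (K a255 (M a16 (F (L l36 (T t112 (L l289 (T t113 (L l289 (L l296 (T t98 N))))))))) N)))))))))))))))⟩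
def e0_63__75_48 : Ent 4 := ⟨[a0, a63], [a75, a51], (M a60 (F (T t116 (L l43 (T t67 (L l43 (T t43 (L l43 (T t68 (L l43 (T t69 (K a20 (M a85 (F (T t89 (L l441 (T t114 (T t1344 N)))))) (K a40 (M a85 (F (L l439 (T t52 (L l392 (L l441 (T t114 (L l22 (T t1344 N))))))))) (K a21 (M a192 (F (T t2647 (L l131 (L l337 (L l347 (L l487 (T t73 (L l347 (T t74 N)))))))))) (K a41 (M a192 (F (T t1343 (L l441 (T t79 (L l65 (L l439 (T t35 N)))))))) (K a61 (M a192 (F (T t1334 (L l65 (L l439 (L l515 (T t35 (T t80 N)))))))) (K a22 (M a192 (F (T t237 (L l11 (L l441 (T t79 (L l11 (L l439 (T t35 N))))))))) (K a42 (M a192 (F (T t237 (L l441 (T t79 (L l22 (T t74 N))))))) (K a62 (M a192 (F (T t57 (L l441 (T t79 (L l66 (L l516 (T t80 N)))))))) (K a3 (M a192 (L l43 (F (T t237 (L l441 (L l477 (T t79 (L l439 (L l475 (T t35 (K a19 (M a35 (F (T t1800 (L l307 (L l337 (L l487 (T t75 (L l441 (L l477 (T t1333 N)))))))))) (K a35 (M a19 (F (T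 t1800 (L l307 (L l337 (L l487 (T t75 (L l441 (L l477 (T t1333 N)))))))))) N)))))))))))) N))))))))))))))))))))⟩
def e0_63__75_49 : Ent 4 := ⟨[a0, a63], [a75, a52], (M a85 (F (T t88 (T t52 (T t89 (T t90 (K a64 (M a16 (F (T t259 (L l337 (T t97 (L l116 (T t98 N))))))) (K a192 (M a16 (F (T t260 (L l337 (L l339 (T t97 (L l296 (T t98 N)))))))) (K a21 (M a48 (F (T t99 (L l422 (T t50 (L l31 (L l47 (T t100 N)))))))) (K a149 (M a16 (F (T t173 (L l337 (L l375 (T t97 (L l170 (T t102 N)))))))) (K a213 (Fr a170 a255 l476 (Fr a42 a21 l68 (Fr a106 a234 l390 (Fr a192 a149 l519 (V t581))))) (K a42 (M a48 (F (T t365 (L l390 (L l422 (T t50 (L l28 (L l31 (T t100 N))))))))) (K a106 (M a48 (F (T t99 (L l31 (L l337 (T t1 (L l390 (L l422 (T t50 N))))))))) (K a170 (M a16 (F (L l390 (L l404 (T t112 (L l390 (T t98 (L l31 (L l404 (T t113 (L l404 (T t174 N)))))))))))) (K a255 (M a16 (F (T t112 (L l31 (L l289 (T t113 (L l289 (L l296 (T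 t98 N))))))))) N)))))))))))))))⟩
def e0_63__75_50 : Ent 4 := ⟨[a0, a63], [a75, a53], (M a149 (F (T t5 (L l47 (T t175 (T t176 (T t177 (K a192 (M a29 (F (T t956 (L l272 (T t641 (L l272 (L l296 (T t957 N)))))))) (K a21 (M a12 (L l47 (F (T t647 (T t648 (L l50 (T t649 (K a5 (M a37 (F (T t647 (T t648 (L l1 (L l50 (T t649 N))))))) (K a37 (M a5 (F (T t959 (L l51 (L l65 (T t1428 N)))))) N))))))))) (K a85 (M a4 (F (L l31 (T t519 (L l78 (L l144 (T t653 (L l126 (T t654 N))))))))) (K a213 (Fr a106 a192 l519 (Fr a42 a21 l68 (Fr a170 a234 l390 (Fr a255 a85 l476 (V t582))))) (K a42 (M a240 (F (T t1090 (L l390 (T t1091 (T t1207 N)))))) (K a106 (M a12 (F (L l47 (T t122 (L l408 (T t649 (L l390 (L l408 (T t960 (L l390 (T t961 N))))))))))) (K a170 (M a12 (F (T t991 (L l47 (L l402 (T t122 (L l390 (T t648 N)))))))) (K a191 (M a16 (F (T t2683 (T t190 (L l213 (T t2684 N)))))) (K a255 (M a208 (F (T t2180 (L l133 (T t1833 (L l440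 (T t1277 N))))))) N))))))))))))))))⟩
def e0_63__75_51 : Ent 4 := ⟨[a0, a63], [a75, a54], (M a149 (F (T t5 (T t175 (T t176 (T t177 (K a192 (M a53 (F (L l36 (T t178 (L l236 (L l296 (T t180 (L l36 (L l236 (T t179 N)))))))))) (K a21 (M a48 (F (T t7 (L l18 (L l36 (T t14 (T t13 N))))))) (K a85 (M a16 (F (L l337 (T t97 (L l144 (T t190 (L l94 (L l133 (T t278 N))))))))) (K a213 (Fr a106 a192 l519 (Fr a42 a21 l68 (Fr a170 a234 l390 (Fr a255 a85 l476 (V t582))))) (K a42 (M a48 (F (L l31 (T t187 (L l390 (T t13 (L l36 (L l54 (T t14 N))))))))) (K a106 (M a48 (F (L l31 (T t48 (L l36 (L l498 (T t14 (L l36 (L l390 (L l498 (T t6 (L l390 (T t26 N))))))))))))) (K a170 (M a48 (F (L l36 (T t4 (L l31 (L l337 (L l462 (T t1 (L l390 (T t13 N)))))))))) (K a191 (M a48 (F (T t13 (L l36 (T t6 N))))) (K a255 (M a16 (F (L l36 (T t112 (L l266 (T t190 (L l289 (L l296 (T t191 N))))))))) N)))))))))))))))⟩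
def e0_63__75_52 : Ent 4 := ⟨[a0, a63], [a75, a55], (M a149 (F (T t5 (L l50 (T t175 (T t176 (T t177 (K a192 (M a53 (F (T t178 (L l236 (T t179 (L l236 (L l296 (L l423 (T t180 N))))))))) (K a21 (M a48 (L l50 (F (T t4 (T t13 (L l18 (T t14 (K a4 (M a38 (F (T t4 (T t13 (L l18 (T t14 N)))))) (K a38 (M a4 (F (T t7 (L l18 (L l29 (T t518 N)))))) N))))))))) (K a85 (M a16 (F (T t504 (L l144 (T t190 (L l94 (L l133 (T t278 N)))))))) (K a213 (Fr a106 a192 l519 (Fr a42 a21 l68 (Fr a170 a234 l390 (Fr a255 a85 l476 (V t582))))) (K a42 (M a48 (F (L l54 (T t4 (L l390 (T t13 (L l54 (T t14 N)))))))) (K a106 (M a48 (F (L l498 (T t14 (L l31 (L l50 (L l337 (T t1 (L l390 (L l498 (T t6 (L l390 (T t26 N))))))))))))) (K a170 (M a48 (F (T t4 (L l31 (L l50 (L l337 (L l462 (T t1 (L l390 (T t13 N)))))))))) (K a191 (M a204 (F (T t1283 (T t1112 N)))) (K a255 (M a16 (F (T t112 (L l266 (T t190 (L l289 (L l296 (T t191 N)))))))) N))))))))))))))))⟩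
def e0_63__75_53 : Ent 4 := ⟨[a0, a63], [a75, a56], (M a85 (F (T t88 (T t52 (T t89 (T t90 (K a64 (M a48 (F (T t50 (T t568 N)))) (K a192 (M a16 (F (T t96 (L l337 (L l339 (T t97 (L l296 (T t98 N)))))))) (K a21 (M a48 (F (T t1699 (L l47 (T t100 (T t50 N)))))) (K a149 (M a16 (F (T t173 (L l337 (L l375 (T t97 (L l57 (L l170 (L l500 (T t102 N)))))))))) (K a213 (Fr a170 a255 l476 (Fr a42 a21 l68 (Fr a106 a234 l390 (Fr a192 a149 l519 (V t581))))) (K a42 (M a48 (F (T t364 (L l390 (T t50 (L l28 (T t100 N))))))) (K a106 (M a48 (F (T t364 (L l337 (T t1 (L l390 (T t50 N))))))) (K a170 (M a16 (F (L l404 (T t113 (L l390 (T t98 (L l337 (L l390 (L l404 (T t97 (L l32 (L l404 (T t174 N))))))))))))) (K a255 (M a16 (F (L l32 (T t112 (L l289 (T t113 (L l289 (L l296 (T t98 N))))))))) N)))))))))))))))⟩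
def e0_63__75_54 : Ent 4 := ⟨[a0, a63], [a75, a57], (M a149 (F (T t5 (T t175 (T t176 (T t177 (K a192 (M a53 (F (L l32 (T t178 (L l236 (L l296 (T t180 (L l32 (L l236 (T t179 N)))))))))) (K a21 (M a48 (F (T t7 (L l18 (L l32 (T t14 (T t13 N))))))) (K a85 (M a16 (F (L l337 (T t97 (L l144 (T t190 (L l94 (L l133 (T t278 N))))))))) (K a213 (Fr a106 a192 l519 (Fr a42 a21 l68 (Fr a170 a234 l390 (Fr a255 a85 l476 (V t582))))) (K a42 (M a48 (F (L l35 (T t187 (L l390 (T t13 (L l32 (L l54 (T t14 N))))))))) (K a106 (M a48 (F (L l35 (T t48 (L l32 (L l498 (T t14 (L l32 (L l390 (L l498 (T t6 (L l390 (T t26 N))))))))))))) (K a170 (M a48 (F (L l32 (T t4 (L l35 (L l337 (L l462 (T t1 (L l390 (T t13 N)))))))))) (K a191 (M a48 (F (T t13 (L l32 (T t6 N))))) (K a255 (M a16 (F (L l32 (T t112 (L l266 (T t190 (L l289 (L l296 (T t191 N))))))))) N)))))))))))))))⟩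
def e0_63__75_55 : Ent 4 := ⟨[a0, a63], [a75, a58], (M a149 (F (T t175 (L l54 (T t5 (L l54 (T t176 (L l498 (T t177 (K a192 (M a29 (F (L l54 (T t956 (L l272 (T t641 (L l54 (L l272 (L l296 (T t957 N)))))))))) (K a21 (M a240 (F (L l426 (T t1090 (L l498 (T t1091 (L l426 (T t1207 N)))))))) (K a85 (M a4 (F (L l54 (T t519 (L l78 (L l144 (L l498 (T t653 (L l54 (L l126 (T t654 N))))))))))) (K a213 (Fr a106 a192 l519 (Fr a42 a21 l68 (Fr a170 a234 l390 (Fr a255 a85 l476 (V t582))))) (K a42 (M a10 (F (L l28 (T t657 (L l83 (L l390 (L l498 (T t656 (L l28 (L l426 (T t655 (L l390 (L l426 (L l498 (T t658 N))))))))))))))) (K a106 (M a154 (F (L l104 (T t1836 (L l54 (L l390 (T t1837 (L l104 (L l426 (T t1838 (L l54 (L l104 (L l390 (T t1839 N)))))))))))))) (K a170 (M a12 (F (T t650 (L l402 (T t122 (L l390 (L l498 (T t648 N)))))))) (K a191 (M a240 (F (L l498 (T t962 (L l54 (L l426 (T t963 N))))))) (K a255 (M a208 (F (L l498 (T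 t1840 (L l54 (L l133 (L l440 (T t1276 (L l54 (L l296 (L l469 (T t1275 N)))))))))))) N))))))))))))))))))⟩
def e0_63__75_56 : Ent 4 := ⟨[a0, a63], [a75, a59], (M a149 (F (T t175 (L l56 (T t5 (L l56 (T t176 (L l501 (T t177 (K a192 (M a53 (F (L l32 (L l56 (T t178 (L l32 (L l236 (T t179 (L l56 (L l236 (L l296 (T t180 N)))))))))))) (K a21 (M a48 (F (L l32 (T t4 (L l501 (T t13 (L l18 (L l32 (T t14 N))))))))) (K a85 (M a16 (F (L l56 (L l337 (T t97 (L l144 (L l501 (T t190 (L l56 (L l94 (L l133 (T t278 N)))))))))))) (K a213 (Fr a106 a192 l519 (Fr a42 a21 l68 (Fr a170 a234 l390 (Fr a255 a85 l476 (V t582))))) (K a42 (M a8 (F (T t1841 (L l390 (L l501 (T t644 (L l26 (L l427 (T t643 (L l390 (L l427 (L l501 (T t1842 N))))))))))))) (K a106 (M a153 (F (L l102 (T t1843 (L l56 (L l390 (T t1844 (L l102 (L l427 (T t1845 (L l56 (L l102 (L l390 (T t1846 N)))))))))))))) (K a170 (M a48 (F (T t11 (L l337 (L l462 (T t1 (L l390 (L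 l501 (T t13 N))))))))) (K a191 (M a240 (F (L l501 (T t1091 (L l56 (L l429 (T t963 N))))))) (K a255 (M a16 (F (L l32 (T t192 (L l56 (L l133 (T t193 (L l266 (L l501 (T t190 N)))))))))) N))))))))))))))))))⟩
def e0_63__75_57 : Ent 4 := ⟨[a0, a63], [a75, a60], (M a12 (F (T t150 (L l39 (T t122 (L l39 (T t151 (L l39 (T t152 (L l39 (T t153 (K a4 (M a85 (F (T t89 (L l502 (T t124 (T t154 N)))))) (K a8 (M a85 (F (L l434 (T t52 (L l464 (L l502 (T t124 (L l56 (T t154 N))))))))) (K a21 (M a192 (F (L l502 (T t156 (L l15 (L l347 (L l446 (T t450 (L l15 (L l347 (T t157 N))))))))))) (K a25 (M a192 (F (T t159 (L l15 (L l446 (T t450 (L l434 (T t21 N)))))))) (K a29 (M a192 (F (T t1681 (L l502 (T t156 (L l78 (T t160 N))))))) (K a38 (M a192 (F (T t161 (L l502 (T t156 (L l434 (T t21 N))))))) (K a42 (M a192 (F (T t161 (L l502 (T t156 (L l56 (T t157 N))))))) (K a46 (M a192 (F (T t57 (L l502 (T t156 (L l26 (L l78 (L l408 (T t160 N)))))))))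 (K a51 (M a68 (L l39 (F (T t162 (L l78 (T t163 (L l434 (L l439 (L l513 (T t164 (K a57 (M a54 (F (T t165 (L l63 (T t2685 N))))) (K a54 (M a57 (F (T t165 (L l63 (T t2686 N))))) N)))))))))))) N))))))))))))))))))))⟩
def e0_63__75_58 : Ent 4 := ⟨[a0, a63], [a75, a61], (M a149 (F (T t5 (L l65 (T t175 (T t176 (T t177 (K a192 (M a53 (F (T t178 (L l236 (T t179 (L l236 (L l296 (L l443 (T t180 N))))))))) (K a21 (M a48 (L l65 (F (T t4 (T t13 (L l18 (T t14 (K a1 (M a41 (F (T t7 (L l18 (T t14 (T t13 N)))))) (K a41 (M a1 (F (T t16 (L l18 (L l29 (T t295 N)))))) N))))))))) (K a85 (M a16 (F (T t504 (L l144 (T t190 (L l94 (L l133 (T t278 N)))))))) (K a213 (Fr a106 a192 l519 (Fr a42 a21 l68 (Fr a170 a234 l390 (Fr a255 a85 l476 (V t582))))) (K a42 (M a48 (F (L l54 (T t4 (L l390 (T t13 (L l54 (T t14 N)))))))) (K a106 (M a48 (F (L l498 (T t14 (L l35 (L l65 (L l337 (T t1 (L l390 (L l498 (T t6 (L l390 (T t26 N))))))))))))) (K a170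 (M a48 (F (T t4 (L l35 (L l65 (L l337 (L l462 (T t1 (L l390 (T t13 N)))))))))) (K a191 (M a16 (F (T t112 (T t190 (L l213 (T t191 N)))))) (K a255 (M a16 (F (T t112 (L l266 (T t190 (L l289 (L l296 (T t191 N)))))))) N))))))))))))))))⟩
def e0_63__75_59 : Ent 4 := ⟨[a0, a63], [a75, a62], (M a149 (F (T t175 (L l66 (T t5 (L l66 (T t176 (L l516 (T t177 (K a192 (M a53 (F (L l36 (L l66 (T t178 (L l36 (L l236 (T t179 (L l66 (L l236 (L l296 (T t180 N)))))))))))) (K a21 (M a48 (F (L l36 (T t4 (L l516 (T t13 (L l18 (L l36 (T t14 N))))))))) (K a85 (M a16 (F (L l66 (L l337 (T t97 (L l144 (L l516 (T t190 (L l66 (L l94 (L l133 (T t278 N)))))))))))) (K a213 (Fr a106 a192 l519 (Fr a42 a21 l68 (Fr a170 a234 l390 (Fr a255 a85 l476 (V t582))))) (K a42 (M a2 (F (T t2687 (L l83 (L l390 (L l516 (T t1848 (L l22 (L l432 (T t189 (L l390 (L l432 (L l516 (T t2688 N)))))))))))))) (K a106 (M a150 (F (L l66 (L l390 (T t999 (L l98 (L l131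 (L l432 (T t1000 (L l66 (L l98 (L l133 (L l390 (T t1001 (L l98 (L l131 (T t1002 N))))))))))))))))) (K a170 (M a48 (F (T t11 (L l337 (L l462 (T t1 (L l390 (L l516 (T t13 N))))))))) (K a191 (M a240 (F (L l516 (T t1091 (L l66 (L l444 (T t963 N))))))) (K a255 (M a16 (F (L l36 (T t192 (L l66 (L l133 (T t193 (L l266 (L l516 (T t190 N)))))))))) N))))))))))))))))))⟩
def e0_63__75_60 : Ent 4 := ⟨[a0, a63], [a75, a64], (M a60 (F (T t67 (T t43 (T t68 (T t69 (K a20 (M a48 (F (T t64 (L l11 (L l337 (T t1 (L l11 (T t235 N)))))))) (K a40 (M a48 (F (T t64 (L l337 (T t1 (L l52 (T t235 N))))))) (K a21 (M a105 (F (T t1217 (L l11 (L l337 (T t404 (L l11 (T t405 N)))))))) (K a41 (M a32 (F (T t1568 (L l65 (L l337 (T t219 (L l25 (L l65 (T t1569 N))))))))) (K a61 (M a16 (F (T t1140 (L l337 (T t97 (L l59 (T t1141 N))))))) (K a22 (M a16 (F (T t2447 (L l66 (L l337 (T t97 (L l16 (L l66 (T t1141 N))))))))) (K a42 (M a105 (F (T t1129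 (L l66 (L l140 (T t1128 (L l66 (T t405 N)))))))) (K a62 (M a16 (F (T t1140 (L l66 (L l337 (T t97 (L l66 (T t1141 N)))))))) (K a3 (M a85 (F (T t447 (T t115 N)))) N)))))))))))))))⟩
def e0_63__75_61 : Ent 4 := ⟨[a0, a63], [a75, a65], (M a12 (F (T t122 (T t151 (T t152 (T t153 (K a4 (M a60 (F (T t43 (L l337 (T t398 (T t448 N)))))) (K a8 (M a60 (F (T t67 (L l337 (T t398 (L l52 (L l56 (T t448 N)))))))) (K a21 (M a192 (F (T t221 (T t156 (L l15 (L l347 (T t157 N))))))) (K a25 (M a192 (F (T t449 (L l15 (T t450 (T t21 N)))))) (K a29 (M a192 (F (T t449 (L l371 (T t21 (L l78 (T t160 N))))))) (K a38 (M a192 (F (T t450 (T t156 (T t21 N))))) (K a42 (M a192 (F (T t449 (T t450 (L l56 (T t157 N)))))) (K a46 (M a192 (F (T t449 (T t21 (L l26 (L l78 (L l408 (T t160 N)))))))) (K a51 (M a192 (F (T t57 (L l513 (T t156 (L l415 (T t450 N))))))) N)))))))))))))))⟩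
def e0_63__75_62 : Ent 4 := ⟨[a0, a63], [a75, a66], (M a12 (F (T t122 (T t151 (T t152 (T t153 (K a4 (M a60 (F (T t570 (L l46 (L l50 (L l309 (T t67 (T t448 N)))))))) (K a8 (M a60 (F (T t570 (L l309 (T t67 (L l52 (L l56 (T t448 N)))))))) (K a21 (M a192 (F (T t156 (L l15 (L l347 (T t450 (L l15 (L l347 (T t157 N))))))))) (K a25 (M a192 (F (T t449 (L l15 (T t450 (T t21 N)))))) (K a29 (M a192 (F (T t449 (L l371 (T t21 (L l78 (L l142 (T t160 N)))))))) (K a38 (M a192 (F (T t450 (T t156 (T t21 N))))) (K a42 (M a192 (F (T t449 (T t450 (L l56 (T t157 N)))))) (K a46 (M a192 (F (T t449 (T t21 (L l26 (L l78 (L l142 (L l408 (T t160 N))))))))) (K a51 (M a192 (F (T t57 (L l513 (T t156 (L l415 (T t450 N))))))) N)))))))))))))))⟩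
def e0_63__75_63 : Ent 4 := ⟨[a0, a63], [a75, a67], (M a149 (L l83 (F (T t25 (T t175 (T t176 (L l76 (T t177 (K a192 (M a23 (L l83 (F (T t1077 (L l292 (T t182 (L l292 (L l296 (T t1078 (K a71 (M a79 (F (T t1079 (L l292 (T t182 (L l292 (L l296 (T t1078 N)))))))) (K a79 (M a71 (F (L l319 (T t1080 (L l292 (L l296 (T t1078 N))))))) N))))))))))) (K a21 (M a48 (L l83 (F (T t4 (L l121 (T t13 (L l18 (T t14 (K a71 (M a79 (F (T t15 (L l121 (T t13 (L l18 (T t14 N))))))) (K a79 (M a71 (F (T t1081 (L l18 (T t1082 N))))) N)))))))))) (K a85 (M a1 (L l83 (F (T t534 (L l76 (L l144 (L l307 (L l337 (T t1083 (L l133 (L l141 (L l145 (T t1084 (K a71 (M a79 (F (T t534 (L l76 (L l144 (L l307 (L l337 (T t1083 (L l133 (L l141 (L l145 (T t1084 N)))))))))))) (K a79 (M a71 (F (L l319 (T t1085 (L l133 (L l141 (L l145 (T t1084 N)))))))) N))))))))))))))) (K a213 (Fr a106 a192 l519 (Fr a42 a21 l68 (Fr a170 a234 l390 (Fr a255 a85 l476 (V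 t582))))) (K a42 (M a15 (L l83 (F (T t1024 (L l390 (T t1025 (L l28 (T t1026 (K a71 (M a79 (F (T t1027 (L l28 (T t1026 N))))) (K a79 (M a71 (F (T t1024 (L l28 (T t1026 (L l54 (L l76 (L l84 (L l390 (T t1086 N)))))))))) N)))))))))) (K a106 (M a53 (L l83 (F (L l498 (T t179 (L l390 (T t180 (L l337 (L l390 (L l498 (T t982 (L l498 (T t1087 (K a71 (M a79 (F (L l121 (L l411 (T t1088 (L l77 (L l390 (T t180 (L l337 (L l390 (L l498 (T t982 N)))))))))))) (K a79 (M a71 (F (L l393 (L l498 (T t1089 (L l84 (L l390 (T t180 (L l325 (L l337 (L l390 (L l498 (T t982 N))))))))))))) N))))))))))))))) (K a170 (M a48 (L l83 (F (T t4 (L l337 (L l462 (T t1 (L l121 (L l390 (T t13 (K a71 (M a79 (F (T t4 (L l337 (L l462 (T t1 (L l121 (L l390 (T t13 N))))))))) (K a79 (M a71 (F (T t1081 (L l390 (T t1082 N))))) N)))))))))))) (K a191 (M a240 (L l83 (F (T t1090 (L l121 (T t1091 (T t1092 (K a71 (M a79 (F (T t1090 (L l121 (T t1091 (T t1093 N))))))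 (K a79 (M a71 (F (T t962 (T t963 N)))) N))))))))) (K a255 (M a48 (L l83 (F (T t16 (L l337 (L l469 (T t1 (L l121 (L l266 (T t13 (K a71 (M a79 (F (T t16 (L l337 (L l469 (T t1 (L l121 (L l266 (T t13 N))))))))) (K a79 (M a71 (F (T t1081 (L l266 (T t1082 N))))) N)))))))))))) (K a71 (M a79 (F (T t25 (L l78 (T t1035 (T t1036 (K a106 (M a5 (F (T t1037 (L l77 (L l390 (T t1038 N)))))) N))))))) (K a79 (M a71 (F (T t25 (T t175 (T t176 (L l76 (L l84 (T t177 (K a192 (M a1 (F (L l319 (T t1085 (L l76 (L l296 (T t1094 N))))))) (K a21 (M a48 (F (T t1081 (L l18 (T t1082 N))))) (K a85 (M a1 (F (L l319 (T t1085 (L l133 (L l141 (L l145 (T t1084 N)))))))) (K a213 (Fr a106 a192 l519 (Fr a42 a21 l68 (Fr a170 a234 l390 (Fr a255 a85 l476 (V t582))))) (K a42 (M a86 (F (T t1095 (L l22 (T t618 N))))) (K a106 (M a1 (F (L l319 (T t1085 (L l76 (L l390 (T t1094 N))))))) (K a170 (M a48 (F (T t1081 (L l390 (T t1082 N))))) (K a191 (M a240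 (F (T t962 (T t963 N)))) (K a255 (M a48 (F (T t1081 (L l266 (T t1082 N))))) N))))))))))))))))) N)))))))))))))))))))⟩
def e0_63__75_64 : Ent 4 := ⟨[a0, a63], [a75, a68], (M a60 (F (T t67 (T t43 (T t68 (T t69 (K a20 (M a48 (F (T t64 (L l11 (L l337 (T t1 (L l11 (T t235 N)))))))) (K a40 (M a48 (F (T t64 (L l337 (T t1 (L l52 (T t235 N))))))) (K a21 (M a192 (F (T t72 (L l131 (L l337 (L l347 (T t73 (L l347 (T t74 N))))))))) (K a41 (M a192 (F (T t77 (L l65 (T t35 (L l131 (L l337 (T t73 N)))))))) (K a61 (M a192 (F (T t72 (L l65 (L l515 (T t35 (T t80 N))))))) (K a22 (M a192 (F (T t72 (T t21 (L l131 (L l337 (T t73 N))))))) (K a42 (M a192 (F (T t77 (L l131 (L l337 (T t73 (L l22 (T t74 N)))))))) (K a62 (M a192 (F (T t72 (T t35 (L l66 (L l516 (T t80 N))))))) (K a3 (M a192 (F (T t1343 (L l477 (T t79 (L l475 (T t35 N))))))) N)))))))))))))))⟩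
def e0_63__75_65 : Ent 4 := ⟨[a0, a63], [a75, a69], (M a60 (F (T t67 (T t43 (T t68 (L l329 (T t69 (K a20 (M a48 (F (T t64 (L l11 (L l337 (T t1 (L l11 (T t235 N)))))))) (K a40 (M a48 (F (T t64 (L l337 (T t1 (L l52 (T t235 N))))))) (K a21 (M a192 (F (T t72 (L l131 (L l337 (L l347 (T t73 (L l347 (T t74 N))))))))) (K a41 (M a192 (F (T t77 (L l65 (T t35 (L l131 (L l337 (T t73 N)))))))) (K a61 (M a192 (F (T t72 (L l65 (L l515 (T t35 (T t80 N))))))) (K a22 (M a192 (F (T t72 (T t21 (L l131 (L l337 (T t73 N))))))) (K a42 (M a192 (F (T t77 (L l131 (L l337 (T t73 (L l22 (T t74 N)))))))) (K a62 (M a192 (F (T t72 (T t35 (L l66 (L l516 (T t80 N))))))) (K a3 (M a192 (F (T t1343 (L l477 (T t79 (L l475 (T t35 N))))))) N))))))))))))))))⟩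
def e0_63__75_66 : Ent 4 := ⟨[a0, a63], [a75, a70], (M a149 (F (T t5 (T t175 (T t176 (T t177 (K a192 (M a53 (F (T t178 (L l236 (T t179 (L l77 (L l236 (L l296 (T t180 N))))))))) (K a21 (M a48 (F (T t4 (T t13 (L l18 (T t14 N)))))) (K a85 (M a16 (F (T t504 (L l144 (T t190 (L l94 (L l133 (T t278 N)))))))) (K a213 (Fr a106 a192 l519 (Fr a42 a21 l68 (Fr a170 a234 l390 (Fr a255 a85 l476 (V t582))))) (K a42 (M a48 (F (T t187 (L l390 (T t13 (L l54 (T t14 N))))))) (K a106 (M a48 (F (T t48 (L l498 (T t14 (L l390 (L l498 (T t6 (L l390 (T t26 N)))))))))) (K a170 (M a48 (F (T t4 (L l337 (L l462 (T t1 (L l390 (T t13 N)))))))) (K a191 (M a240 (F (T t962 (L l315 (T t963 N))))) (K a255 (M a16 (F (T t112 (L l266 (T t190 (L l289 (L l296 (T t191 N)))))))) N)))))))))))))))⟩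
def e0_63__75_67 : Ent 4 := ⟨[a0, a63], [a75, a71], (M a149 (L l83 (F (T t5 (T t175 (T t176 (T t177 (K a192 (M a53 (L l83 (F (T t178 (L l236 (T t179 (L l77 (L l236 (L l296 (T t180 (K a67 (M a79 (F (T t178 (L l236 (T t179 (L l77 (L l236 (L l296 (T t180 N))))))))) (K a79 (M a67 (F (T t939 (L l236 (T t179 (L l77 (L l84 (L l236 (L l296 (T t180 N)))))))))) N)))))))))))) (K a21 (M a48 (L l83 (F (T t4 (T t13 (L l18 (T t14 (K a67 (M a79 (F (T t15 (L l121 (T t13 (L l18 (T t14 N))))))) (K a79 (M a67 (F (T t15 (L l18 (T t1082 (L l18 (T t14 N))))))) N))))))))) (K a85 (M a16 (L l83 (F (T t504 (L l144 (T t190 (L l94 (L l133 (T t278 (K a67 (M a79 (F (T t504 (L l144 (T t190 (L l94 (L l133 (T t278 N)))))))) (K a79 (M a67 (F (T t504 (L l144 (T t190 (L l94 (L l133 (L l151 (T t278 N))))))))) N))))))))))) (K a213 (Fr a106 a192 l519 (Fr a42 a21 l68 (Fr a170 a234 l390 (Fr a255 a85 l476 (V t582))))) (K a42 (M a15 (L l83 (F (T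 t1024 (L l331 (L l390 (T t1025 (L l28 (T t1026 (K a67 (M a79 (F (T t1027 (L l28 (T t1026 N))))) (K a79 (M a67 (F (T t1024 (L l28 (T t1026 (L l54 (L l84 (L l390 (T t1086 N))))))))) N))))))))))) (K a106 (M a3 (L l83 (F (T t353 (L l393 (T t615 (L l125 (L l390 (L l393 (T t616 (L l390 (T t617 (K a67 (M a79 (F (T t353 (L l393 (T t615 (L l390 (T t617 (L l125 (L l143 (L l390 (L l393 (T t616 N)))))))))))) (K a79 (M a67 (F (T t344 (L l390 (T t617 N))))) N)))))))))))))) (K a170 (M a48 (L l83 (F (T t4 (L l337 (L l462 (T t1 (L l390 (T t13 (K a67 (M a79 (F (T t4 (L l337 (L l462 (T t1 (L l121 (L l390 (T t13 N))))))))) (K a79 (M a67 (F (T t11 (L l462 (T t48 (L l151 (L l390 (T t13 N)))))))) N))))))))))) (K a191 (M a240 (L l83 (F (T t1090 (T t1091 (T t1092 (K a67 (M a79 (F (T t1090 (L l121 (T t1091 (T t1093 N)))))) (K a79 (M a67 (F (T t962 (T t963 N)))) N)))))))) (K a255 (M a16 (L l83 (F (T t112 (L l266 (T t190 (L l289 (L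 l296 (T t191 (K a67 (M a79 (F (T t112 (L l266 (T t190 (L l289 (L l296 (T t191 N)))))))) (K a79 (M a67 (F (T t112 (L l266 (T t190 (L l289 (L l296 (T t191 N)))))))) N))))))))))) (K a67 (M a79 (F (T t25 (L l78 (T t1035 (T t1036 (K a106 (M a5 (F (T t1037 (L l77 (L l390 (T t1038 N)))))) N))))))) (K a79 (M a67 (F (T t25 (L l131 (T t1865 (L l131 (T t1866 (K a106 (M a1 (F (T t1867 (L l390 (T t1094 N))))) N)))))))) N))))))))))))))))))⟩
def e0_63__75_68 : Ent 4 := ⟨[a0, a63], [a75, a72], (M a60 (L l78 (F (T t67 (T t43 (T t68 (T t69 (K a20 (M a12 (L l78 (F (T t151 (L l337 (T t398 (L l11 (L l46 (T t399 (K a73 (M a74 (F (T t151 (L l335 (L l337 (T t680 (L l11 (L l46 (T t399 N))))))))) (K a74 (M a73 (F (T t151 (L l336 (L l350 (T t401 N)))))) N))))))))))) (K a40 (M a12 (L l78 (F (T t122 (L l337 (T t398 (L l24 (T t399 (K a73 (M a74 (F (T t122 (L l335 (L l337 (T t680 (L l24 (T t399 N)))))))) (K a74 (M a73 (F (T t152 (L l336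 (T t401 N))))) N)))))))))) (K a21 (M a192 (L l78 (F (T t77 (L l131 (L l337 (L l347 (T t73 (L l347 (T t74 (K a73 (M a74 (F (T t77 (L l335 (L l347 (T t1358 N)))))) (K a74 (M a73 (F (T t77 (L l128 (L l130 (L l132 (L l337 (T t75 (L l347 (T t74 N)))))))))) N)))))))))))) (K a41 (M a192 (L l78 (F (T t77 (L l65 (T t35 (L l131 (L l337 (T t73 (K a73 (M a74 (F (T t77 (L l335 (T t1358 N))))) (K a74 (M a73 (F (T t77 (L l65 (T t35 (L l128 (L l130 (L l132 (L l337 (T t75 N)))))))))) N))))))))))) (K a61 (M a170 (L l78 (F (T t1456 (L l65 (L l334 (T t317 (L l65 (L l128 (T t458 (K a73 (M a74 (F (T t1456 (L l65 (L l320 (T t1458 N)))))) (K a74 (M a73 (F (T t456 (L l318 (L l443 (T t459 N)))))) N)))))))))))) (K a22 (M a170 (L l78 (F (T t2689 (L l66 (T t456 (L l11 (L l66 (T t2690 (K a73 (M a74 (F (T t1570 (L l11 (L l320 (T t1458 N)))))) (K a74 (M a73 (F (T t1570 (L l11 (L l318 (T t459 N)))))) N))))))))))) (K a42 (M a192 (L l78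 (F (T t79 (L l131 (L l337 (T t73 (L l22 (T t74 (K a73 (M a74 (F (T t77 (L l335 (T t1358 N))))) (K a74 (M a73 (F (T t77 (L l128 (L l130 (L l132 (L l337 (L l390 (T t75 (L l22 (T t74 N))))))))))) N))))))))))) (K a62 (M a170 (L l78 (F (T t2691 (L l334 (T t317 (L l128 (T t458 (K a73 (M a74 (F (T t2691 (L l320 (L l444 (T t1458 N)))))) (K a74 (M a73 (F (T t2190 (L l318 (T t459 N))))) N)))))))))) (K a3 (M a170 (L l78 (F (T t1456 (L l309 (L l334 (T t317 (T t2690 (K a73 (M a74 (F (T t1456 (L l320 (T t1458 N))))) (K a74 (M a73 (F (T t439 (L l318 (T t459 N))))) N)))))))))) (K a73 (M a74 (F (T t67 (T t43 (T t68 (T t69 (K a20 (M a192 (F (T t21 (L l14 (L l335 (L l338 (T t1467 N))))))) (K a40 (M a192 (F (T t35 (L l335 (L l338 (T t1467 N)))))) (K a21 (M a192 (F (T t77 (L l335 (L l347 (T t1358 N)))))) (K a41 (M a192 (F (T t77 (L l335 (T t1358 N))))) (K a61 (M a192 (F (T t77 (L l335 (L l515 (T t1358 N)))))) (K a22 (M a192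 (F (T t77 (L l335 (T t1358 N))))) (K a42 (M a192 (F (T t77 (L l335 (T t1358 N))))) (K a62 (M a192 (F (T t77 (L l335 (L l444 (T t1358 N)))))) (K a3 (M a192 (F (T t1334 (L l335 (L l453 (T t1358 N)))))) N))))))))))))))) (K a74 (M a73 (F (T t67 (T t43 (T t68 (T t69 (K a20 (M a12 (F (T t151 (L l336 (L l350 (T t401 N)))))) (K a40 (M a12 (F (T t152 (L l336 (T t401 N))))) (K a21 (M a56 (F (L l47 (T t199 (L l11 (L l318 (T t426 N))))))) (K a41 (M a8 (F (L l65 (T t414 (L l318 (T t416 N)))))) (K a61 (M a8 (F (L l65 (T t414 (L l318 (L l443 (T t416 N))))))) (K a22 (M a4 (F (L l316 (L l337 (T t2452 (L l48 (L l66 (T t1623 N)))))))) (K a42 (M a56 (F (T t427 (L l318 (T t426 N))))) (K a62 (M a4 (F (L l316 (L l337 (T t2452 (L l66 (T t1623 N))))))) (K a3 (M a8 (F (T t2407 (L l318 (T t416 N))))) N))))))))))))))) N))))))))))))))))))⟩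
def e0_63__75_69 : Ent 4 := ⟨[a0, a63], [a75, a73], (M a149 (L l78 (F (T t5 (T t175 (T t176 (T t177 (K a192 (M a15 (L l78 (F (T t1254 (L l268 (T t1026 (L l296 (L l335 (T t1030 (L l268 (L l296 (T t1031 (K a72 (M a74 (L l334 (F (L l268 (T t1879 (L l484 (T t716 (L l296 (L l335 (T t1030 (K a132 (M a12 (F (L l268 (T t1879 (L l309 (T t2692 N)))))) (K a12 (M a132 (L l338 (F (L l268 (T t1879 (L l80 (L l296 (T t2693 (K a134 (M a195 (F (L l268 (T t1879 (L l81 (L l131 (L l514 (T t2694 N)))))))) (K a195 (M a134 (L l228 (F (L l268 (T t1879 (L l80 (L l296 (T t2693 (K a193 (Fr a194 a14 l336 (V t1879)) (K a194 (M a193 (F (L l268 (T t1879 (L l80 (L l296 (T t2693 N))))))) N)))))))))) N)))))))))) N)))))))))))) (K a74 (M a72 (F (T t1071 (L l268 (T t1026 (L l296 (L l318 (L l335 (T t1030 (L l268 (L l296 (T t1031 N)))))))))))) N)))))))))))))) (K a21 (M a12 (L l78 (F (T t647 (L l85 (T t648 (L l50 (T t649 (K a72 (M a74 (F (L l50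 (T t649 (L l83 (L l132 (L l335 (T t2695 (L l335 (T t2696 N)))))))))) (K a74 (M a72 (F (T t2697 (L l50 (T t649 N))))) N)))))))))) (K a85 (M a20 (L l78 (F (T t238 (L l144 (T t1269 (L l87 (T t1270 (K a72 (M a74 (F (T t238 (L l83 (L l132 (L l144 (L l337 (L l455 (T t1884 N))))))))) (K a74 (M a72 (F (T t238 (L l85 (L l130 (L l144 (L l338 (T t2698 N)))))))) N)))))))))) (K a213 (Fr a106 a192 l519 (Fr a42 a21 l68 (Fr a170 a234 l390 (Fr a255 a85 l476 (V t582))))) (K a42 (M a12 (L l78 (F (T t991 (L l85 (L l390 (T t648 (L l26 (T t649 (K a72 (M a74 (F (L l26 (T t649 (L l28 (L l335 (T t2696 (L l83 (L l132 (L l335 (L l390 (T t2695 N)))))))))))) (K a74 (M a72 (F (T t2697 (L l26 (T t649 N))))) N))))))))))) (K a106 (M a89 (L l78 (F (L l408 (T t1956 (L l131 (L l390 (T t2699 (L l390 (T t1955 (L l320 (L l390 (L l408 (T t1958 (L l320 (L l408 (T t1959 (K a72 (M a74 (F (L l408 (T t1956 (L l131 (L l390 (T t2699 (L l390 (T t1955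 (L l316 (L l320 (L l390 (L l408 (T t1958 (L l316 (L l320 (L l408 (T t1959 N)))))))))))))))))) (K a74 (M a72 (L l130 (F (L l408 (T t2700 (L l390 (T t1955 (L l131 (L l390 (T t2699 (K a90 (M a122 (L l133 (F (L l408 (T t2700 (L l390 (T t1955 (L l131 (L l390 (T t2699 (K a120 (M a105 (F (L l408 (T t2700 (L l131 (L l390 (T t2259 N))))))) (K a105 (M a120 (L l98 (F (L l131 (T t2701 (L l408 (T t1956 (K a104 (M a107 (F (T t2701 (L l408 (T t1956 N))))) (K a107 (Fr a104 a88 l128 (V t2702)) N))))))))) N)))))))))))) (K a122 (M a90 (F (L l408 (T t2700 (L l411 (L l426 (T t1040 N))))))) N)))))))))))) N))))))))))))))))))) (K a170 (M a12 (L l78 (F (T t650 (L l402 (T t122 (L l85 (L l390 (T t648 (K a72 (M a74 (F (T t991 (L l402 (T t122 (L l83 (L l132 (L l335 (L l390 (T t2695 N)))))))))) (K a74 (M a72 (F (T t2697 (T t152 N)))) N))))))))))) (K a191 (M a20 (L l78 (F (T t238 (T t1269 (L l219 (T t2703 (K a72 (M a74 (F (T t238 (L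 l83 (L l132 (L l337 (T t1884 N))))))) (K a74 (M a72 (F (T t238 (L l85 (L l130 (L l338 (T t2698 N))))))) N))))))))) (K a255 (M a20 (L l78 (F (T t1268 (L l261 (T t1269 (L l295 (L l296 (T t2703 (K a72 (M a74 (F (T t1268 (L l83 (L l132 (L l337 (L l469 (T t1884 N)))))))) (K a74 (M a72 (F (T t1268 (L l85 (L l130 (L l338 (L l470 (T t2698 N)))))))) N))))))))))) (K a72 (M a74 (F (L l334 (T t175 (L l83 (L l132 (L l337 (T t1884 (L l80 (T t1891 (L l80 (L l335 (T t1892 N))))))))))))) (K a74 (M a72 (F (L l339 (T t175 (L l85 (L l130 (L l338 (T t2698 (L l84 (L l131 (T t2704 (L l84 (T t2705 N))))))))))))) N))))))))))))))))))⟩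
def e0_63__75_70 : Ent 4 := ⟨[a0, a63], [a75, a74], (M a60 (L l78 (F (T t67 (T t43 (T t68 (T t69 (K a20 (M a12 (L l78 (F (T t151 (L l336 (L l337 (L l339 (T t398 (L l11 (L l46 (T t399 (K a72 (M a73 (F (T t151 (L l336 (L l350 (T t401 N)))))) (K a73 (M a72 (F (T t151 (L l133 (L l346 (T t2449 N)))))) N))))))))))))) (K a40 (M a12 (L l78 (F (T t122 (L l336 (L l337 (L l339 (T t398 (L l24 (T t399 (K a72 (M a73 (F (T t152 (L l336 (T t401 N))))) (K a73 (M a72 (F (T t152 (L l133 (T t2449 N))))) N)))))))))))) (K a21 (M a192 (L l78 (F (T t72 (L l131 (L l337 (L l347 (T t73 (L l347 (T t74 (K a72 (M a73 (F (T t77 (L l128 (L l130 (L l132 (L l337 (T t75 (L l347 (T t74 N)))))))))) (K a73 (M a72 (F (T t77 (L l131 (L l347 (T t2450 N)))))) N)))))))))))) (K a41 (M a8 (L l78 (F (T t454 (L l65 (T t414 (L l53 (L l65 (T t415 (K a72 (M a73 (F (L l65 (T t414 (L l318 (T t416 N)))))) (K a73 (M a72 (F (T t454 (L l53 (L l65 (L l131 (T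 t2451 N))))))) N))))))))))) (K a61 (M a8 (L l78 (F (T t413 (L l65 (T t414 (L l65 (T t415 (K a72 (M a73 (F (L l65 (T t414 (L l318 (L l443 (T t416 N))))))) (K a73 (M a72 (F (T t413 (L l65 (L l131 (T t2451 N)))))) N)))))))))) (K a22 (M a4 (L l78 (F (T t1624 (L l66 (T t519 (L l48 (L l66 (T t1623 (K a72 (M a73 (F (L l316 (L l337 (T t2452 (L l48 (L l66 (T t1623 N)))))))) (K a73 (M a72 (F (L l320 (L l339 (T t2453 (L l48 (L l66 (T t1623 N)))))))) N))))))))))) (K a42 (M a192 (L l78 (F (T t77 (L l131 (L l337 (T t73 (L l22 (T t74 (K a72 (M a73 (F (T t77 (L l128 (L l130 (L l132 (L l337 (L l390 (T t75 (L l22 (T t74 N))))))))))) (K a73 (M a72 (F (T t79 (L l131 (T t2450 N))))) N))))))))))) (K a62 (M a4 (L l78 (F (T t1443 (L l66 (T t519 (L l66 (T t1623 (K a72 (M a73 (F (L l316 (L l337 (T t2452 (L l66 (T t1623 N))))))) (K a73 (M a72 (F (L l320 (L l339 (T t2453 (L l66 (T t1623 N))))))) N)))))))))) (K a3 (M a8 (L l78 (F (T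 t428 (L l45 (T t413 (T t415 (K a72 (M a73 (F (T t2407 (L l318 (T t416 N))))) (K a73 (M a72 (F (T t2407 (T t2454 N)))) N))))))))) (K a72 (M a73 (F (T t67 (T t43 (T t68 (T t69 (K a20 (M a12 (F (T t151 (L l336 (L l350 (T t401 N)))))) (K a40 (M a12 (F (T t152 (L l336 (T t401 N))))) (K a21 (M a56 (F (L l47 (T t199 (L l11 (L l318 (T t426 N))))))) (K a41 (M a8 (F (L l65 (T t414 (L l318 (T t416 N)))))) (K a61 (M a8 (F (L l65 (T t414 (L l318 (L l443 (T t416 N))))))) (K a22 (M a4 (F (L l316 (L l337 (T t2452 (L l48 (L l66 (T t1623 N)))))))) (K a42 (M a56 (F (T t427 (L l318 (T t426 N))))) (K a62 (M a4 (F (L l316 (L l337 (T t2452 (L l66 (T t1623 N))))))) (K a3 (M a8 (F (T t2407 (L l318 (T t416 N))))) N))))))))))))))) (K a73 (M a72 (F (T t67 (T t43 (T t68 (T t69 (K a20 (M a192 (F (T t21 (L l133 (L l346 (T t2455 N)))))) (K a40 (M a192 (F (T t35 (L l133 (T t2455 N))))) (K a21 (M a192 (F (T t77 (L l131 (L l347 (T t2450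 N)))))) (K a41 (M a192 (F (T t79 (L l131 (T t2450 N))))) (K a61 (M a192 (F (T t72 (L l131 (L l515 (T t2450 N)))))) (K a22 (M a192 (F (T t21 (L l133 (T t2455 N))))) (K a42 (M a192 (F (T t79 (L l131 (T t2450 N))))) (K a62 (M a192 (F (T t72 (L l131 (T t2450 N))))) (K a3 (M a192 (F (T t2456 (L l477 (T t72 N))))) N))))))))))))))) N))))))))))))))))))⟩
def e0_63__75_71 : Ent 4 := ⟨[a0, a63], [a75, a76], (M a149 (F (T t25 (T t175 (T t176 (L l80 (T t177 (K a192 (M a53 (F (T t178 (L l236 (T t179 (L l236 (L l296 (T t180 N)))))))) (K a21 (M a48 (F (T t4 (L l146 (T t13 (L l18 (T t14 N))))))) (K a85 (M a16 (F (T t504 (L l144 (T t190 (L l94 (L l133 (T t278 N)))))))) (K a213 (Fr a106 a192 l519 (Fr a42 a21 l68 (Fr a170 a234 l390 (Fr a255 a85 l476 (V t582))))) (K a42 (M a48 (F (T t187 (L l146 (L l390 (T t13 (L l54 (T t14 N)))))))) (K a106 (M a48 (F (T t48 (L l498 (T t14 (L l390 (L l498 (T t6 (L l390 (T t26 N)))))))))) (K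 a170 (M a48 (F (T t4 (L l337 (L l462 (T t1 (L l146 (L l390 (T t13 N))))))))) (K a191 (M a16 (F (T t112 (T t190 (L l213 (T t191 N)))))) (K a255 (M a16 (F (T t112 (L l266 (T t190 (L l289 (L l296 (T t191 N)))))))) N))))))))))))))))⟩
def e0_63__75_72 : Ent 4 := ⟨[a0, a63], [a75, a77], (M a85 (F (T t88 (T t52 (T t89 (T t90 (K a64 (M a16 (F (T t260 (L l337 (T t97 (L l116 (T t98 N))))))) (K a192 (M a16 (F (T t260 (L l337 (L l339 (T t97 (L l296 (T t98 N)))))))) (K a21 (M a48 (F (T t99 (T t50 (L l47 (T t100 N)))))) (K a149 (M a16 (F (T t112 (L l81 (L l326 (T t173 (L l170 (T t102 N)))))))) (K a213 (Fr a170 a255 l476 (Fr a42 a21 l68 (Fr a106 a234 l390 (Fr a192 a149 l519 (V t581))))) (K a42 (M a48 (F (T t364 (L l390 (T t50 (L l28 (T t100 N))))))) (K a106 (M a48 (F (T t99 (L l337 (T t1 (L l390 (T t50 N))))))) (K a170 (M a16 (F (L l404 (T t113 (L l390 (T t98 (L l337 (L l390 (L l404 (T t97 (L l326 (L l404 (T t174 N)))))))))))))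 (K a255 (M a16 (F (T t112 (L l289 (T t113 (L l289 (L l296 (T t98 N)))))))) N)))))))))))))))⟩
def e0_63__75_73 : Ent 4 := ⟨[a0, a63], [a75, a78], (M a149 (F (T t5 (T t175 (T t176 (T t177 (K a192 (M a53 (F (T t178 (L l236 (T t179 (L l236 (L l296 (T t180 N)))))))) (K a21 (M a48 (F (T t4 (T t13 (L l18 (T t14 N)))))) (K a85 (M a16 (F (T t504 (L l144 (T t190 (L l94 (L l133 (L l148 (T t278 N))))))))) (K a213 (Fr a106 a192 l519 (Fr a42 a21 l68 (Fr a170 a234 l390 (Fr a255 a85 l476 (V t582))))) (K a42 (M a48 (F (T t187 (L l390 (T t13 (L l54 (T t14 N))))))) (K a106 (M a48 (F (T t48 (L l498 (T t14 (L l390 (L l498 (T t6 (L l390 (T t26 N)))))))))) (K a170 (M a48 (F (T t4 (L l327 (L l337 (L l462 (T t1 (L l390 (T t13 N))))))))) (K a191 (M a252 (F (T t1850 (L l136 (T t941 N))))) (K a255 (M a16 (F (T t112 (L l266 (T t190 (L l289 (L l296 (T t191 N)))))))) N)))))))))))))))⟩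
def e0_63__75_74 : Ent 4 := ⟨[a0, a63], [a75, a79], (M a149 (L l83 (F (T t25 (T t175 (T t176 (L l84 (T t177 (K a192 (M a23 (L l83 (F (T t1077 (L l292 (T t182 (L l292 (L l296 (T t1078 (K a67 (M a71 (F (L l319 (T t1080 (L l292 (L l296 (T t1078 N))))))) (K a71 (M a67 (F (T t1079 (L l131 (L l139 (L l292 (T t2706 (L l292 (L l296 (T t1078 N)))))))))) N))))))))))) (K a21 (M a48 (L l83 (F (T t4 (L l18 (T t1082 (L l18 (T t14 (K a67 (M a71 (F (T t1081 (L l18 (T t1082 N))))) (K a71 (M a67 (F (T t15 (L l18 (T t1082 (L l18 (T t14 N))))))) N)))))))))) (K a85 (M a1 (L l83 (F (T t534 (L l144 (L l337 (T t1083 (L l133 (L l141 (T t1084 (K a67 (M a71 (F (L l319 (T t1085 (L l133 (L l141 (L l145 (T t1084 N)))))))) (K a71 (M a67 (F (T t534 (T t2707 (L l133 (L l141 (T t1084 N))))))) N)))))))))))) (K a213 (Fr a106 a192 l519 (Fr a42 a21 l68 (Fr a170 a234 l390 (Fr a255 a85 l476 (V t582))))) (K a42 (M a3 (L l83 (F (T t1052 (L l337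 (L l390 (T t1862 (L l22 (T t615 (K a67 (M a71 (F (T t1052 (L l319 (T t1118 N))))) (K a71 (M a67 (F (T t1052 (L l84 (T t2708 (L l137 (T t349 N))))))) N))))))))))) (K a106 (M a3 (L l83 (F (T t353 (L l393 (T t615 (L l390 (L l393 (T t616 (L l390 (T t617 (K a67 (M a71 (F (L l319 (T t1118 (L l143 (L l390 (L l393 (T t616 N)))))))) (K a71 (M a67 (F (T t344 (L l390 (T t617 N))))) N))))))))))))) (K a170 (M a48 (L l83 (F (T t4 (L l462 (T t48 (L l151 (L l390 (T t13 (K a67 (M a71 (F (T t1081 (L l390 (T t1082 N))))) (K a71 (M a67 (F (T t11 (L l462 (T t48 (L l151 (L l390 (T t13 N)))))))) N))))))))))) (K a191 (M a240 (L l83 (F (T t962 (T t963 (K a67 (M a71 (F (T t962 (T t963 N)))) (K a71 (M a67 (F (T t962 (T t963 N)))) N))))))) (K a255 (M a48 (L l83 (F (T t16 (T t48 (L l151 (L l266 (T t13 (K a67 (M a71 (F (T t1081 (L l266 (T t1082 N))))) (K a71 (M a67 (F (T t16 (T t48 (L l151 (L l266 (T t13 N))))))) N)))))))))) (K a67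 (M a71 (F (T t25 (T t175 (T t176 (L l76 (L l84 (T t177 (K a192 (M a1 (F (L l319 (T t1085 (L l76 (L l296 (T t1094 N))))))) (K a21 (M a48 (F (T t1081 (L l18 (T t1082 N))))) (K a85 (M a1 (F (L l319 (T t1085 (L l133 (L l141 (L l145 (T t1084 N)))))))) (K a213 (Fr a106 a192 l519 (Fr a42 a21 l68 (Fr a170 a234 l390 (Fr a255 a85 l476 (V t582))))) (K a42 (M a86 (F (T t1095 (L l22 (T t618 N))))) (K a106 (M a1 (F (L l319 (T t1085 (L l76 (L l390 (T t1094 N))))))) (K a170 (M a48 (F (T t1081 (L l390 (T t1082 N))))) (K a191 (M a240 (F (T t962 (T t963 N)))) (K a255 (M a48 (F (T t1081 (L l266 (T t1082 N))))) N))))))))))))))))) (K a71 (M a67 (F (T t25 (L l131 (T t1865 (L l131 (T t1866 (K a106 (M a1 (F (T t1867 (L l390 (T t1094 N))))) N)))))))) N)))))))))))))))))))⟩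
def e0_63__75_75 : Ent 4 := ⟨[a0, a63], [a75, a80], (M a12 (F (T t122 (T t151 (T t152 (T t153 (K a4 (M a60 (F (T t43 (L l337 (T t398 (T t448 N)))))) (K a8 (M a60 (F (T t67 (L l337 (T t398 (L l52 (L l56 (T t448 N)))))))) (K a21 (M a192 (F (T t221 (T t156 (L l15 (L l347 (T t157 N))))))) (K a25 (M a192 (F (T t449 (L l15 (T t450 (T t21 N)))))) (K a29 (M a192 (F (T t449 (L l371 (T t21 (L l78 (T t160 N))))))) (K a38 (M a192 (F (T t450 (T t156 (T t21 N))))) (K a42 (M a192 (F (T t449 (T t450 (L l56 (T t157 N)))))) (K a46 (M a192 (F (T t449 (T t21 (L l26 (L l78 (L l408 (T t160 N)))))))) (K a51 (M a192 (F (T t57 (L l513 (T t156 (L l415 (T t450 N))))))) N)))))))))))))))⟩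
def e0_63__75_76 : Ent 4 := ⟨[a0, a63], [a75, a81], (M a12 (F (T t122 (L l341 (T t151 (T t152 (T t153 (K a4 (M a60 (F (T t43 (L l337 (T t398 (L l341 (T t448 N))))))) (K a8 (M a60 (F (T t68 (L l337 (T t398 (L l52 (L l56 (L l341 (T t448 N))))))))) (K a21 (M a192 (F (T t156 (L l15 (L l347 (T t450 (L l15 (L l347 (T t157 N))))))))) (K a25 (M a192 (F (T t449 (L l15 (T t450 (T t21 N)))))) (K a29 (M a192 (F (T t449 (L l371 (T t21 (L l78 (T t160 N))))))) (K a38 (M a192 (F (T t450 (T t156 (T t21 N))))) (K a42 (M a192 (F (T t449 (T t450 (L l56 (T t157 N)))))) (K a46 (M a192 (F (T t449 (T t21 (L l26 (L l78 (L l408 (T t160 N)))))))) (K a51 (M a192 (F (T t57 (L l513 (T t156 (L l415 (T t450 N))))))) N))))))))))))))))⟩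
def e0_63__75_77 : Ent 4 := ⟨[a0, a63], [a75, a82], (M a149 (F (T t5 (T t175 (T t176 (T t177 (K a192 (M a53 (F (T t178 (L l236 (T t179 (L l236 (L l296 (T t180 N)))))))) (K a21 (M a48 (F (T t4 (L l121 (L l453 (T t13 (L l18 (T t14 N)))))))) (K a85 (M a16 (F (T t504 (L l144 (L l345 (L l453 (T t190 (L l92 (L l94 (L l133 (T t278 N))))))))))) (K a213 (Fr a106 a192 l519 (Fr a42 a21 l68 (Fr a170 a234 l390 (Fr a255 a85 l476 (V t582))))) (K a42 (M a48 (F (T t187 (L l121 (L l390 (L l453 (T t13 (L l54 (T t14 N))))))))) (K a106 (M a48 (F (T t48 (L l498 (T t14 (L l390 (L l498 (T t6 (L l390 (T t26 N)))))))))) (K a170 (M a48 (F (T t4 (L l337 (L l462 (T t1 (L l121 (L l390 (L l453 (T t13 N)))))))))) (K a191 (M a204 (F (T t1043 (L l345 (T t1112 N))))) (K a255 (M a16 (F (T t112 (L l266 (L l345 (L l453 (T t190 (L l86 (L l289 (L l296 (T t191 N))))))))))) N)))))))))))))))⟩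
def e0_63__75_78 : Ent 4 := ⟨[a0, a63], [a75, a83], (M a85 (F (T t88 (T t52 (T t89 (T t90 (K a64 (M a240 (F (T t386 (L l93 (T t387 N))))) (K a192 (M a16 (F (T t96 (L l337 (L l339 (T t97 (L l86 (L l296 (T t98 N))))))))) (K a21 (M a48 (F (T t99 (T t50 (L l47 (T t100 N)))))) (K a149 (M a16 (F (T t173 (L l337 (L l375 (T t97 (L l93 (L l170 (T t102 N))))))))) (K a213 (Fr a170 a255 l476 (Fr a42 a21 l68 (Fr a106 a234 l390 (Fr a192 a149 l519 (V t581))))) (K a42 (M a48 (F (T t364 (L l390 (T t50 (L l28 (T t100 N))))))) (K a106 (M a48 (F (T t99 (L l337 (T t1 (L l390 (T t50 N))))))) (K a170 (M a16 (F (L l404 (T t113 (L l86 (L l390 (T t98 (L l337 (L l390 (L l404 (T t97 (L l404 (T t174 N))))))))))))) (K a255 (M a16 (F (T t112 (L l289 (T t113 (L l86 (L l289 (L l296 (T t98 N))))))))) N)))))))))))))))⟩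
def e0_63__75_79 : Ent 4 := ⟨[a0, a63], [a75, a84], (M a85 (F (T t52 (L l140 (T t88 (L l140 (T t89 (L l140 (T t90 (K a64 (M a60 (L l140 (F (T t114 (L l346 (T t115 (K a104 (M a124 (F (T t1126 (L l346 (L l388 (T t115 N)))))) (K a124 (M a104 (F (T t936 (L l346 (T t67 (L l109 (T t1895 N))))))) N)))))))) (K a192 (M a16 (F (T t96 (L l337 (L l339 (T t97 (L l90 (L l296 (T t98 N))))))))) (K a21 (M a48 (F (T t99 (T t50 (L l47 (T t100 N)))))) (K a149 (M a16 (F (T t173 (L l337 (L l375 (T t97 (L l170 (T t102 N)))))))) (K a213 (Fr a170 a255 l476 (Fr a42 a21 l68 (Fr a106 a234 l390 (Fr a192 a149 l519 (V t581))))) (K a42 (M a48 (F (L l28 (T t99 (L l390 (T t50 (L l28 (T t100 N)))))))) (K a106 (M a48 (F (T t99 (L l337 (T t1 (L l390 (T t50 N))))))) (K a170 (M a16 (F (L l404 (T t113 (L l90 (L l390 (T t98 (L l337 (L l390 (L l404 (T t97 (L l404 (T t174 N))))))))))))) (K a255 (M a16 (F (T t112 (L l289 (T t113 (L l90 (L l289 (L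 l296 (T t98 N))))))))) N))))))))))))))))))⟩
def e0_63__75_80 : Ent 4 := ⟨[a0, a63], [a75, a85], (M a12 (F (T t153 (L l347 (T t122 (L l365 (T t151 (L l347 (L l458 (T t152 (K a4 (M a60 (L l458 (F (T t43 (L l337 (T t398 (L l365 (T t448 (K a166 (M a247 (F (T t43 (L l337 (L l408 (T t680 (L l365 (L l408 (T t448 N))))))))) (K a247 (M a166 (F (T t43 (L l310 (T t2470 N))))) N)))))))))) (K a8 (M a60 (F (T t570 (L l347 (L l350 (T t67 (L l52 (L l56 (L l365 (T t448 N)))))))))) (K a21 (M a149 (F (T t650 (L l144 (T t648 (L l50 (L l91 (L l144 (L l458 (T t2471 (L l50 (L l91 (L l458 (T t2472 N)))))))))))))) (K a25 (M a192 (F (T t156 (L l15 (L l347 (T t450 (L l144 (L l458 (T t2473 N))))))))) (K a29 (M a48 (F (T t1580 (L l15 (L l337 (L l347 (T t1 (L l455 (T t866 N))))))))) (K a38 (M a192 (F (T t156 (L l347 (T t450 (L l26 (L l50 (L l144 (L l458 (T t2473 N)))))))))) (K a42 (M a192 (F (T t156 (L l347 (T t450 (L l26 (L l144 (L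 l390 (L l458 (T t2473 N)))))))))) (K a46 (M a48 (F (T t443 (L l337 (L l347 (T t1 (L l26 (L l455 (T t866 N))))))))) (K a51 (M a192 (F (L l513 (T t156 (L l347 (L l415 (T t450 (L l144 (L l458 (T t2473 N)))))))))) N)))))))))))))))))))⟩
def e0_63__75_81 : Ent 4 := ⟨[a0, a63], [a75, a86], (M a12 (F (T t122 (T t151 (T t152 (T t153 (K a4 (M a60 (F (T t662 (L l337 (T t398 (L l351 (T t448 N))))))) (K a8 (M a60 (F (T t570 (L l477 (T t67 (L l52 (L l56 (L l351 (T t448 N))))))))) (K a21 (M a192 (F (T t156 (L l15 (L l347 (L l351 (T t450 (L l15 (L l347 (L l351 (T t157 N))))))))))) (K a25 (M a192 (F (T t449 (L l15 (L l351 (T t450 (L l351 (T t21 N)))))))) (K a29 (M a192 (F (T t449 (L l351 (L l371 (T t21 (L l78 (L l142 (T t160 N))))))))) (K a38 (M a192 (F (T t156 (L l351 (T t450 (L l351 (T t21 N))))))) (K a42 (M a192 (F (T t449 (L l351 (T t450 (L l56 (L l351 (T t157 N)))))))) (K a46 (M a192 (F (T t449 (L l351 (T t21 (L l26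 (L l78 (L l142 (L l408 (T t160 N)))))))))) (K a51 (M a192 (F (T t496 (L l351 (L l415 (T t450 (L l351 (L l439 (T t21 N))))))))) N)))))))))))))))⟩
def e0_63__75_82 : Ent 4 := ⟨[a0, a63], [a75, a87], (M a85 (F (T t88 (L l143 (L l475 (T t52 (T t89 (T t90 (K a64 (M a240 (F (T t933 (L l93 (T t387 N))))) (K a192 (M a16 (F (T t1924 (L l337 (L l339 (T t97 (L l296 (L l367 (T t98 N))))))))) (K a21 (M a48 (F (T t873 (L l47 (L l143 (L l367 (T t100 (L l143 (T t50 N))))))))) (K a149 (M a16 (F (T t112 (L l367 (T t173 (L l93 (L l170 (T t102 N)))))))) (K a213 (Fr a170 a255 l476 (Fr a42 a21 l68 (Fr a106 a234 l390 (Fr a192 a149 l519 (V t581))))) (K a42 (M a48 (F (L l475 (T t364 (L l143 (L l390 (T t50 (L l28 (L l143 (L l367 (T t100 N))))))))))) (K a106 (M a48 (F (T t48 (L l104 (L l367 (T t509 (L l143 (L l390 (T t50 N))))))))) (K a170 (M a16 (F (L l390 (L l404 (T t112 (L l367 (L l390 (T t98 (L l143 (L l367 (L l404 (T t113 (L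 l367 (L l404 (T t174 N))))))))))))))) (K a255 (M a3 (F (T t85 (L l143 (L l261 (L l349 (T t376 (L l261 (L l296 (T t357 (L l261 (L l296 (T t1921 N))))))))))))) N)))))))))))))))))⟩
def e0_63__75_83 : Ent 4 := ⟨[a0, a63], [a75, a88], (M a85 (F (T t88 (T t52 (T t89 (T t90 (K a64 (M a252 (F (T t91 (L l460 (T t92 N))))) (K a192 (M a16 (F (T t96 (L l337 (L l339 (T t97 (L l90 (L l296 (T t98 N))))))))) (K a21 (M a48 (F (T t99 (L l478 (T t50 (L l47 (T t100 N))))))) (K a149 (M a16 (F (T t173 (L l337 (L l375 (T t97 (L l170 (T t102 N)))))))) (K a213 (Fr a170 a255 l476 (Fr a42 a21 l68 (Fr a106 a234 l390 (Fr a192 a149 l519 (V t581))))) (K a42 (M a48 (F (T t364 (L l390 (L l478 (T t50 (L l28 (T t100 N)))))))) (K a106 (M a48 (F (T t99 (L l337 (T t1 (L l390 (L l478 (T t50 N)))))))) (K a170 (M a16 (F (L l404 (T t113 (L l90 (L l390 (T t98 (L l337 (L l390 (L l404 (T t97 (L l404 (T t174 N))))))))))))) (K a255 (M a16 (F (T t112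 (L l289 (T t113 (L l90 (L l289 (L l296 (T t98 N))))))))) N)))))))))))))))⟩
def e0_63__75_84 : Ent 4 := ⟨[a0, a63], [a75, a89], (M a60 (F (T t67 (T t43 (T t68 (T t69 (K a20 (M a48 (F (T t64 (L l11 (L l337 (T t1 (L l11 (T t235 N)))))))) (K a40 (M a48 (F (T t64 (L l337 (T t1 (L l52 (T t235 N))))))) (K a21 (M a192 (F (T t72 (L l131 (L l337 (L l347 (L l371 (T t73 (L l347 (L l371 (T t74 N))))))))))) (K a41 (M a192 (F (T t79 (L l65 (L l371 (T t35 (L l131 (L l337 (L l371 (T t73 N)))))))))) (K a61 (M a192 (F (T t72 (L l65 (L l371 (L l515 (T t35 (L l132 (T t80 N))))))))) (K a22 (M a192 (F (T t72 (L l371 (T t21 (L l131 (L l337 (L l371 (T t73 N))))))))) (K a42 (M a192 (F (T t77 (L l131 (L l337 (L l371 (T t73 (L l22 (L l371 (T t74 N)))))))))) (K a62 (M a192 (F (T t72 (L l371 (T t35 (L l66 (L l132 (L l516 (T t80 N))))))))) (K a3 (M a192 (F (T t2658 (L l371 (L l475 (T t35 (L l131 (L l307 (L l337 (L l371 (T t73 N)))))))))))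 N)))))))))))))))⟩
def e0_63__75_85 : Ent 4 := ⟨[a0, a63], [a75, a90], (M a60 (L l133 (F (T t67 (T t43 (T t68 (T t69 (K a20 (M a48 (L l133 (F (T t64 (L l11 (L l337 (L l462 (L l483 (T t1 (L l11 (T t235 (K a120 (M a105 (F (T t70 (L l350 (L l372 (T t1120 N)))))) (K a105 (M a120 (F (T t70 (L l375 (T t2709 N))))) N))))))))))))) (K a40 (M a170 (L l133 (F (T t2190 (L l94 (T t1570 (T t1123 (K a120 (M a105 (F (T t2710 (L l128 (L l388 (T t1128 (L l94 (T t2102 N)))))))) (K a105 (M a120 (F (T t317 (L l131 (T t2711 N))))) N))))))))) (K a21 (M a105 (F (T t1128 (L l11 (L l337 (T t404 (L l11 (T t405 N)))))))) (K a41 (M a105 (F (T t1129 (T t1128 (T t405 N))))) (K a61 (M a149 (L l133 (F (T t5 (L l130 (T t463 (T t1130 (K a120 (M a105 (F (L l372 (T t1131 (L l337 (T t2712 (L l130 (T t177 N)))))))) (K a105 (M a120 (F (T t176 (L l98 (L l130 (L l410 (T t2713 (L l130 (L l392 (L l462 (T t2714 (L l94 (T t2715 N))))))))))))) N)))))))))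 (K a22 (M a105 (F (L l11 (T t1129 (L l66 (T t1128 (L l11 (L l66 (T t405 N))))))))) (K a42 (M a105 (F (T t1129 (L l66 (T t1128 (L l66 (T t405 N))))))) (K a62 (M a192 (L l133 (F (T t72 (L l375 (T t35 (L l66 (L l130 (L l516 (T t80 (K a120 (M a105 (F (T t2716 (L l337 (T t2712 N))))) (K a105 (M a120 (F (T t2717 (L l66 (L l98 (L l130 (L l392 (L l516 (T t2718 N))))))))) N)))))))))))) (K a3 (M a105 (F (T t406 (L l307 (L l337 (T t404 (L l309 (T t1128 N)))))))) (K a120 (M a105 (F (T t1129 (T t67 (L l128 (T t1128 N)))))) (K a105 (M a120 (F (T t67 (L l131 (T t2711 (L l131 (T t2719 (K a62 (M a64 (F (L l375 (L l515 (T t397 (T t2720 N)))))) N)))))))) N))))))))))))))))))⟩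
def e0_63__75_86 : Ent 4 := ⟨[a0, a63], [a75, a91], (M a60 (L l131 (F (T t67 (T t43 (T t68 (T t69 (K a20 (M a48 (L l131 (F (T t64 (L l11 (L l337 (L l481 (T t1 (L l11 (T t235 (K a107 (M a123 (F (T t451 (L l337 (L l373 (T t2721 N)))))) (K a123 (M a107 (F (T t451 (L l373 (L l481 (T t1173 N)))))) N)))))))))))) (K a40 (M a48 (L l131 (F (T t64 (L l337 (L l481 (T t1 (L l52 (T t235 (K a107 (M a123 (F (T t70 (L l24 (L l337 (L l373 (T t2721 N))))))) (K a123 (M a107 (F (T t70 (L l373 (L l481 (T t1173 N)))))) N))))))))))) (K a21 (M a192 (L l131 (F (T t72 (L l65 (L l337 (L l347 (T t569 (L l347 (T t74 (K a107 (M a123 (F (T t77 (L l78 (L l347 (T t2722 N)))))) (K a123 (M a107 (F (T t2723 (L l65 (L l373 (T t2724 N)))))) N)))))))))))) (K a41 (M a192 (L l131 (F (T t79 (L l65 (T t35 (L l65 (L l337 (T t569 (K a107 (M a123 (F (T t77 (L l78 (T t2722 N))))) (K a123 (M a107 (F (T t2725 (L l65 (L l373 (T t2724 N)))))) N)))))))))))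 (K a61 (M a192 (L l131 (F (T t72 (L l65 (L l515 (T t35 (L l373 (T t80 (K a107 (M a123 (F (T t77 (L l78 (L l515 (T t2722 N)))))) (K a123 (M a107 (F (T t2723 (L l65 (L l373 (T t2724 N)))))) N))))))))))) (K a22 (M a192 (L l131 (F (T t72 (T t21 (L l337 (T t569 (K a107 (M a123 (F (T t77 (L l78 (T t2722 N))))) (K a123 (M a107 (F (T t2725 (L l373 (T t2724 N))))) N))))))))) (K a42 (M a192 (L l131 (F (T t77 (L l337 (T t569 (L l22 (T t74 (K a107 (M a123 (F (T t77 (L l78 (T t2722 N))))) (K a123 (M a107 (F (T t2725 (L l373 (T t2724 N))))) N)))))))))) (K a62 (M a192 (L l131 (F (T t72 (T t35 (L l66 (L l373 (L l516 (T t80 (K a107 (M a123 (F (T t77 (L l78 (T t2722 N))))) (K a123 (M a107 (F (T t2725 (L l66 (L l373 (T t1174 N)))))) N))))))))))) (K a3 (M a16 (L l131 (F (T t112 (L l9 (T t1140 (T t1141 (K a107 (M a123 (F (T t2447 (L l133 (L l453 (T t2726 N)))))) (K a123 (M a107 (F (T t2447 (L l309 (L l373 (T t2727 N)))))) N)))))))))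 (K a107 (M a123 (F (T t43 (L l133 (T t2726 (L l133 (T t2728 (K a61 (M a64 (F (T t465 (T t2729 N)))) N)))))))) (K a123 (M a107 (F (T t43 (L l373 (T t2727 (L l133 (L l373 (T t1159 N)))))))) N))))))))))))))))))⟩
def e0_63__75_87 : Ent 4 := ⟨[a0, a63], [a75, a92], (M a85 (F (T t88 (T t52 (T t89 (T t90 (K a64 (M a240 (F (T t386 (L l89 (T t387 N))))) (K a192 (M a16 (F (T t96 (L l337 (L l339 (T t97 (L l90 (L l296 (T t98 N))))))))) (K a21 (M a48 (F (T t99 (T t50 (L l47 (T t100 N)))))) (K a149 (M a16 (F (T t173 (L l337 (L l375 (T t97 (L l89 (L l170 (T t102 N))))))))) (K a213 (Fr a170 a255 l476 (Fr a42 a21 l68 (Fr a106 a234 l390 (Fr a192 a149 l519 (V t581))))) (K a42 (M a48 (F (T t364 (L l390 (T t50 (L l28 (T t100 N))))))) (K a106 (M a48 (F (T t99 (L l337 (T t1 (L l390 (T t50 N))))))) (K a170 (M a16 (F (L l404 (T t113 (L l90 (L l390 (T t98 (L l337 (L l390 (L l404 (T t97 (L l404 (T t174 N))))))))))))) (K a255 (M a16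 (F (T t112 (L l289 (T t113 (L l90 (L l289 (L l296 (T t98 N))))))))) N)))))))))))))))⟩
def e0_63__75_88 : Ent 4 := ⟨[a0, a63], [a75, a93], (M a85 (F (T t88 (L l138 (L l470 (T t52 (T t89 (T t90 (K a64 (M a240 (F (T t933 (L l89 (T t387 N))))) (K a192 (M a16 (F (T t1924 (L l337 (L l339 (T t97 (L l296 (L l362 (T t98 N))))))))) (K a21 (M a48 (F (T t873 (L l47 (L l138 (L l362 (T t100 (L l138 (T t50 N))))))))) (K a149 (M a16 (F (T t112 (L l362 (T t173 (L l89 (L l170 (T t102 N)))))))) (K a213 (Fr a170 a255 l476 (Fr a42 a21 l68 (Fr a106 a234 l390 (Fr a192 a149 l519 (V t581))))) (K a42 (M a48 (F (L l470 (T t364 (L l138 (L l390 (T t50 (L l28 (L l138 (L l362 (T t100 N))))))))))) (K a106 (M a48 (F (T t48 (L l104 (L l362 (T t509 (L l138 (L l390 (T t50 N))))))))) (K a170 (M a16 (F (L l390 (L l404 (T t112 (L l362 (L l390 (T t98 (L l138 (L l362 (L l404 (T t113 (L l362 (L l404 (T t174 N))))))))))))))) (K a255 (M a12 (F (T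 t1252 (L l138 (L l265 (L l359 (T t574 (L l265 (L l296 (T t572 (L l265 (L l296 (T t1923 N))))))))))))) N)))))))))))))))))⟩
def e0_63__75_89 : Ent 4 := ⟨[a0, a63], [a75, a94], (M a85 (F (T t88 (T t52 (T t89 (T t90 (K a64 (M a240 (F (T t386 (L l89 (T t387 N))))) (K a192 (M a16 (F (T t96 (L l337 (L l339 (L l363 (L l471 (T t97 (L l296 (T t98 N)))))))))) (K a21 (M a48 (F (T t99 (T t50 (L l47 (T t100 N)))))) (K a149 (M a16 (F (T t173 (L l337 (L l363 (L l375 (L l471 (T t97 (L l89 (L l170 (T t102 N))))))))))) (K a213 (Fr a170 a255 l476 (Fr a42 a21 l68 (Fr a106 a234 l390 (Fr a192 a149 l519 (V t581))))) (K a42 (M a48 (F (T t364 (L l390 (T t50 (L l28 (T t100 N))))))) (K a106 (M a48 (F (T t99 (L l337 (L l471 (T t1 (L l390 (T t50 N)))))))) (K a170 (M a16 (F (L l404 (T t113 (L l390 (T t98 (L l337 (L l363 (L l390 (L l404 (L l471 (T t97 (L l404 (T t174 N)))))))))))))) (K a255 (M a16 (F (T t112 (L l289 (T t113 (L l289 (L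 l296 (T t98 N)))))))) N)))))))))))))))⟩
def e0_63__75_90 : Ent 4 := ⟨[a0, a63], [a75, a95], (M a85 (F (T t88 (L l137 (L l469 (T t52 (T t89 (T t90 (K a64 (M a252 (F (T t93 (L l93 (T t92 N))))) (K a192 (M a16 (F (T t112 (T t1924 (L l133 (L l296 (T t1925 N))))))) (K a21 (M a48 (F (T t873 (L l47 (L l137 (L l361 (T t100 (L l137 (T t50 N))))))))) (K a149 (M a48 (F (T t132 (L l220 (T t873 (L l137 (L l220 (T t50 N)))))))) (K a213 (Fr a170 a255 l476 (Fr a42 a21 l68 (Fr a106 a234 l390 (Fr a192 a149 l519 (V t581))))) (K a42 (M a48 (F (L l469 (T t364 (L l137 (L l390 (T t50 (L l28 (L l137 (L l361 (T t100 N))))))))))) (K a106 (M a48 (F (T t48 (L l104 (L l361 (T t509 (L l137 (L l390 (T t50 N))))))))) (K a170 (M a48 (F (T t607 (L l137 (L l361 (L l404 (T t100 (L l390 (T t51 (L l361 (L l390 (L l404 (T t568 N))))))))))))) (K a255 (M a15 (F (T t1254 (L l137 (L l266 (L l361 (T t1497 (L l266 (L l296 (T t1484 (L l266 (L l296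 (T t1926 N))))))))))))) N)))))))))))))))))⟩
def e0_63__75_91 : Ent 4 := ⟨[a0, a63], [a75, a96], (M a12 (F (T t122 (T t151 (T t152 (T t153 (K a4 (M a60 (F (T t43 (L l337 (T t398 (T t448 N)))))) (K a8 (M a60 (F (T t67 (L l337 (T t398 (L l52 (L l56 (T t448 N)))))))) (K a21 (M a192 (F (T t156 (L l15 (L l347 (T t450 (L l15 (L l347 (T t157 N))))))))) (K a25 (M a192 (F (T t449 (L l15 (T t450 (T t21 N)))))) (K a29 (M a192 (F (T t449 (L l371 (T t21 (L l78 (L l104 (T t160 N)))))))) (K a38 (M a192 (F (T t450 (T t156 (T t21 N))))) (K a42 (M a192 (F (T t449 (T t450 (L l56 (T t157 N)))))) (K a46 (M a192 (F (T t449 (T t21 (L l26 (L l78 (L l104 (L l408 (T t160 N))))))))) (K a51 (M a192 (F (T t57 (L l513 (T t156 (L l415 (T t450 N))))))) N)))))))))))))))⟩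
def e0_63__75_92 : Ent 4 := ⟨[a0, a63], [a75, a97], (M a149 (F (T t5 (T t175 (T t176 (T t177 (K a192 (M a53 (F (L l380 (T t178 (L l236 (T t179 (L l236 (L l296 (T t180 N))))))))) (K a21 (M a48 (F (T t16 (L l121 (T t13 (L l18 (T t14 N))))))) (K a85 (M a16 (F (L l380 (T t504 (L l96 (L l144 (L l380 (T t190 (L l94 (L l133 (T t278 N))))))))))) (K a213 (Fr a106 a192 l519 (Fr a42 a21 l68 (Fr a170 a234 l390 (Fr a255 a85 l476 (V t582))))) (K a42 (M a48 (F (T t11 (L l121 (L l390 (T t13 (L l54 (T t14 N)))))))) (K a106 (M a48 (F (T t48 (L l498 (T t14 (L l390 (L l498 (T t6 (L l380 (L l390 (T t26 N))))))))))) (K a170 (M a48 (F (T t11 (L l337 (L l462 (T t1 (L l121 (L l390 (T t13 N))))))))) (K a191 (M a204 (F (T t1043 (L l485 (T t1112 N))))) (K a255 (M a16 (F (L l380 (T t112 (L l289 (L l296 (T t191 (L l380 (T t192 N))))))))) N)))))))))))))))⟩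
def e0_63__75_93 : Ent 4 := ⟨[a0, a63], [a75, a98], (M a60 (F (T t67 (T t43 (T t68 (T t69 (K a20 (M a48 (F (T t138 (L l11 (L l337 (T t1 (L l11 (T t235 N)))))))) (K a40 (M a48 (F (T t246 (L l337 (T t1 (L l52 (T t235 N))))))) (K a21 (M a192 (F (T t72 (L l131 (L l337 (L l347 (T t73 (L l347 (T t74 N))))))))) (K a41 (M a192 (F (T t79 (L l65 (T t35 (L l131 (L l337 (T t73 N)))))))) (K a61 (M a192 (F (T t72 (L l65 (L l515 (T t35 (L l102 (T t80 N)))))))) (K a22 (M a192 (F (T t72 (T t21 (L l131 (L l337 (T t73 N))))))) (K a42 (M a192 (F (T t77 (L l131 (L l337 (T t73 (L l22 (T t74 N)))))))) (K a62 (M a192 (F (T t72 (T t35 (L l66 (L l102 (L l516 (T t80 N)))))))) (K a3 (M a192 (F (T t57 (L l477 (T t79 (L l131 (L l307 (L l337 (T t73 N))))))))) N)))))))))))))))⟩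
def e0_63__75_94 : Ent 4 := ⟨[a0, a63], [a75, a99], (M a85 (F (T t88 (T t52 (T t89 (T t90 (K a64 (M a16 (F (T t258 (L l337 (T t97 (L l116 (T t98 N))))))) (K a192 (M a16 (F (T t96 (L l337 (L l339 (T t97 (L l296 (T t98 N)))))))) (K a21 (M a48 (F (T t99 (T t50 (L l47 (T t100 N)))))) (K a149 (M a16 (F (T t173 (L l337 (L l375 (T t97 (L l103 (L l170 (T t102 N))))))))) (K a213 (Fr a170 a255 l476 (Fr a42 a21 l68 (Fr a106 a234 l390 (Fr a192 a149 l519 (V t581))))) (K a42 (M a48 (F (T t364 (L l390 (T t50 (L l28 (T t100 N))))))) (K a106 (M a48 (F (T t99 (L l337 (T t1 (L l390 (T t50 N))))))) (K a170 (M a16 (F (L l404 (T t113 (L l390 (T t98 (L l337 (L l390 (L l404 (T t97 (L l404 (T t174 N)))))))))))) (K a255 (M a16 (F (T t112 (L l289 (T t113 (L l289 (L l296 (T t98 N)))))))) N)))))))))))))))⟩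
def e0_63__75_95 : Ent 4 := ⟨[a0, a63], [a75, a100], (M a85 (F (T t88 (T t52 (T t89 (T t90 (K a64 (M a252 (F (T t91 (L l400 (T t92 N))))) (K a192 (M a16 (F (L l400 (T t112 (L l296 (T t666 (L l296 (T t98 N)))))))) (K a21 (M a48 (F (T t873 (L l47 (L l400 (T t100 (T t50 N))))))) (K a149 (M a16 (F (T t666 (L l337 (L l375 (L l400 (T t97 (L l170 (T t102 N))))))))) (K a213 (Fr a170 a255 l476 (Fr a42 a21 l68 (Fr a106 a234 l390 (Fr a192 a149 l519 (V t581))))) (K a42 (M a48 (F (T t364 (L l390 (T t50 (L l28 (L l400 (T t100 N)))))))) (K a106 (M a48 (F (T t364 (L l337 (T t1 (L l390 (T t50 N))))))) (K a170 (M a16 (F (L l400 (L l404 (T t113 (L l390 (T t98 (L l337 (L l390 (L l400 (L l404 (T t97 (L l400 (L l404 (T t174 N))))))))))))))) (K a255 (M a16 (F (L l400 (T t112 (L l289 (L l296 (T t98 (L l289 (L l400 (T t113 N)))))))))) N)))))))))))))))⟩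
def e0_63__75_96 : Ent 4 := ⟨[a0, a63], [a75, a101], (M a12 (F (T t122 (T t151 (T t152 (T t153 (K a4 (M a60 (F (T t43 (L l337 (T t398 (T t448 N)))))) (K a8 (M a60 (F (T t67 (L l337 (T t398 (L l52 (L l56 (T t448 N)))))))) (K a21 (M a192 (F (T t156 (L l15 (L l347 (L l491 (T t450 (L l15 (L l347 (L l491 (T t157 N))))))))))) (K a25 (M a192 (F (T t449 (L l15 (L l491 (T t450 (L l491 (T t21 N)))))))) (K a29 (M a192 (F (T t449 (L l371 (L l491 (T t21 (L l78 (L l104 (T t160 N))))))))) (K a38 (M a192 (F (T t156 (L l491 (T t450 (L l491 (T t21 N))))))) (K a42 (M a192 (F (T t449 (L l491 (T t450 (L l56 (L l491 (T t157 N)))))))) (K a46 (M a192 (F (T t449 (L l491 (T t21 (L l26 (L l78 (L l104 (L l408 (T t160 N)))))))))) (K a51 (M a192 (F (T t496 (L l415 (L l491 (T t450 (L l439 (L l491 (T t21 N))))))))) N)))))))))))))))⟩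
def e0_63__75_97 : Ent 4 := ⟨[a0, a63], [a75, a102], (M a60 (F (T t67 (T t43 (T t68 (T t69 (K a20 (M a48 (F (T t138 (L l11 (L l337 (T t1 (L l11 (T t235 N)))))))) (K a40 (M a48 (F (T t246 (L l337 (T t1 (L l52 (T t235 N))))))) (K a21 (M a192 (F (T t72 (L l131 (L l337 (L l347 (L l495 (T t73 (L l347 (L l495 (T t74 N))))))))))) (K a41 (M a192 (F (T t79 (L l65 (L l495 (T t35 (L l131 (L l337 (L l495 (T t73 N)))))))))) (K a61 (M a192 (F (T t72 (L l65 (L l495 (L l515 (T t35 (L l102 (T t80 N))))))))) (K a22 (M a192 (F (T t72 (L l495 (T t21 (L l131 (L l337 (L l495 (T t73 N))))))))) (K a42 (M a192 (F (T t77 (L l131 (L l337 (L l495 (T t73 (L l22 (L l495 (T t74 N)))))))))) (K a62 (M a192 (F (T t72 (L l495 (T t35 (L l66 (L l102 (L l516 (T t80 N))))))))) (K a3 (M a192 (F (T t2658 (L l475 (L l495 (T t35 (L l131 (L l307 (L l337 (L l495 (T t73 N))))))))))) N)))))))))))))))⟩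
def e0_63__75_98 : Ent 4 := ⟨[a0, a63], [a75, a103], (M a85 (F (T t88 (T t52 (T t89 (T t90 (K a64 (M a204 (F (T t1575 (L l125 (T t1576 N))))) (K a192 (M a16 (F (T t112 (L l97 (T t96 (L l296 (T t98 N))))))) (K a21 (M a48 (F (T t99 (T t50 (L l47 (T t100 N)))))) (K a149 (M a16 (F (T t112 (L l511 (T t173 (L l103 (L l170 (T t102 N)))))))) (K a213 (Fr a170 a255 l476 (Fr a42 a21 l68 (Fr a106 a234 l390 (Fr a192 a149 l519 (V t581))))) (K a42 (M a48 (F (L l28 (T t99 (L l390 (T t50 (L l28 (T t100 N)))))))) (K a106 (M a48 (F (T t99 (L l337 (T t1 (L l390 (T t50 N))))))) (K a170 (M a16 (F (L l404 (T t113 (L l390 (T t98 (L l337 (L l390 (L l404 (T t97 (L l404 (L l511 (T t174 N))))))))))))) (K a255 (M a16 (F (T t112 (L l289 (T t113 (L l289 (L l296 (T t98 N)))))))) N)))))))))))))))⟩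
def e0_63__75_99 : Ent 4 := ⟨[a0, a63], [a75, a104], (M a12 (F (T t122 (T t151 (T t152 (T t153 (K a4 (M a60 (F (T t69 (L l337 (T t398 (L l388 (T t448 N))))))) (K a8 (M a60 (F (T t68 (L l337 (T t398 (L l52 (L l56 (L l388 (T t448 N))))))))) (K a21 (M a192 (F (T t156 (L l15 (L l347 (T t450 (L l15 (L l347 (T t157 N))))))))) (K a25 (M a192 (F (T t156 (L l15 (T t450 (T t21 N)))))) (K a29 (M a192 (F (T t156 (L l371 (T t21 (L l78 (L l98 (L l128 (T t160 N))))))))) (K a38 (M a192 (F (T t156 (T t450 (T t21 N))))) (K a42 (M a192 (F (T t156 (T t450 (L l56 (T t157 N)))))) (K a46 (M a192 (F (T t156 (T t21 (L l26 (L l78 (L l98 (L l128 (L l408 (T t160 N)))))))))) (K a51 (M a192 (F (T t57 (L l513 (T t156 (L l415 (T t450 N))))))) N)))))))))))))))⟩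
def e0_63__75_100 : Ent 4 := ⟨[a0, a63], [a75, a105], (M a12 (L l133 (F (T t122 (T t151 (T t152 (T t153 (K a4 (M a62 (L l133 (F (L l515 (T t2730 (L l50 (L l515 (T t709 (L l50 (T t710 (K a120 (M a90 (F (L l50 (L l515 (T t709 (L l108 (T t2731 N))))))) (K a90 (M a120 (F (L l131 (L l515 (T t2732 (L l50 (L l372 (L l462 (T t710 N))))))))) N)))))))))))) (K a8 (M a62 (L l133 (F (L l515 (T t709 (L l337 (L l515 (T t708 (L l2 (T t710 (K a120 (M a90 (F (L l515 (T t709 (L l108 (T t2731 N)))))) (K a90 (M a120 (F (L l131 (L l515 (T t2732 (L l2 (L l372 (L l462 (T t710 N))))))))) N)))))))))))) (K a21 (M a192 (L l133 (F (T t156 (L l15 (L l347 (L l515 (T t450 (L l15 (L l347 (L l515 (T t157 (K a120 (M a90 (F (T t156 (L l18 (L l98 (L l337 (T t2733 N))))))) (K a90 (M a120 (F (T t156 (L l78 (L l98 (L l130 (T t543 (L l50 (L l98 (L l130 (T t2473 N))))))))))) N)))))))))))))) (K a25 (M a28 (L l133 (F (L l410 (T t2734 (L l392 (L l410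 (T t2735 (L l12 (L l56 (T t2482 (K a120 (M a90 (F (L l392 (L l410 (T t2735 (L l128 (T t2736 N))))))) (K a90 (M a120 (F (L l78 (L l410 (T t2737 (L l12 (L l56 (L l354 (L l372 (T t2482 N)))))))))) N))))))))))))) (K a29 (M a192 (L l133 (F (T t449 (L l371 (L l515 (T t21 (L l78 (L l98 (T t160 (K a120 (M a90 (F (T t449 (L l13 (L l98 (L l337 (T t2733 N))))))) (K a90 (M a120 (F (T t449 (L l371 (L l375 (L l515 (T t21 (L l15 (L l131 (L l371 (L l375 (L l515 (T t776 N))))))))))))) N)))))))))))) (K a38 (M a62 (L l133 (F (L l515 (T t750 (L l50 (L l515 (T t709 (L l48 (L l50 (T t710 (K a120 (M a90 (F (L l50 (L l515 (T t709 (L l108 (T t2731 N))))))) (K a90 (M a120 (F (L l131 (L l515 (T t2732 (L l48 (L l50 (L l372 (L l462 (T t710 N)))))))))) N))))))))))))) (K a42 (M a192 (L l133 (F (T t449 (L l515 (T t450 (L l56 (L l515 (T t157 (K a120 (M a90 (F (T t449 (L l98 (L l337 (L l390 (T t2733 N))))))) (K a90 (M a120 (F (T t449 (L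 l78 (L l98 (L l130 (L l390 (T t543 (L l26 (L l98 (L l130 (L l390 (T t2473 N))))))))))))) N))))))))))) (K a46 (M a192 (L l133 (F (T t449 (L l515 (T t21 (L l26 (L l78 (L l98 (L l408 (T t160 (K a120 (M a90 (F (T t449 (L l98 (L l337 (L l408 (T t2733 N))))))) (K a90 (M a120 (F (T t449 (L l375 (L l515 (T t21 (L l131 (L l375 (L l515 (T t776 N)))))))))) N))))))))))))) (K a51 (M a28 (L l133 (F (L l410 (T t2738 (L l30 (L l392 (L l410 (T t2735 (T t2482 (K a120 (M a90 (F (L l392 (L l410 (T t2739 (L l128 (T t2736 N))))))) (K a90 (M a120 (F (L l78 (L l410 (T t2737 (L l354 (L l372 (T t2482 N)))))))) N)))))))))))) (K a120 (M a90 (F (T t122 (T t151 (T t152 (T t153 (K a4 (M a80 (F (T t2740 (L l128 (L l337 (T t2741 N)))))) (K a8 (M a240 (F (T t2742 (L l78 (T t2743 N))))) (K a21 (M a192 (F (T t156 (L l18 (L l98 (L l337 (T t2733 N))))))) (K a25 (M a192 (F (T t449 (L l98 (L l337 (T t2733 N)))))) (K a29 (M a192 (F (T t449 (L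 l13 (L l98 (L l337 (T t2733 N))))))) (K a38 (M a192 (F (T t156 (L l98 (L l337 (T t2733 N)))))) (K a42 (M a192 (F (T t449 (L l98 (L l337 (L l390 (T t2733 N))))))) (K a46 (M a192 (F (T t449 (L l98 (L l337 (L l408 (T t2733 N))))))) (K a51 (M a192 (F (T t496 (L l73 (L l98 (L l337 (T t2733 N))))))) N))))))))))))))) (K a90 (M a120 (F (T t122 (T t151 (T t152 (T t153 (K a4 (M a28 (F (L l78 (L l410 (L l454 (T t2737 (L l46 (L l354 (L l372 (T t2482 N)))))))))) (K a8 (M a60 (F (T t67 (L l78 (L l316 (T t2744 N)))))) (K a21 (M a240 (F (T t2745 (L l131 (T t2746 N))))) (K a25 (M a240 (F (T t2745 (L l131 (T t2746 N))))) (K a29 (M a240 (F (T t2745 (L l131 (T t2746 N))))) (K a38 (M a240 (F (T t2745 (L l131 (T t2746 N))))) (K a42 (M a240 (F (T t2745 (L l131 (T t2746 N))))) (K a46 (M a240 (F (T t2745 (L l131 (T t2746 N))))) (K a51 (M a240 (F (T t2747 (L l131 (L l415 (T t2746 N)))))) N))))))))))))))) N))))))))))))))))))⟩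
def e0_63__75_101 : Ent 4 := ⟨[a0, a63], [a75, a106], (M a12 (F (T t122 (L l390 (L l408 (T t151 (L l501 (T t152 (L l390 (T t153 (K a4 (M a60 (F (T t1413 (L l46 (L l50 (L l393 (T t67 (L l390 (L l408 (T t448 N)))))))))) (K a8 (M a60 (F (T t68 (L l337 (T t398 (L l52 (L l56 (L l390 (L l408 (T t448 N)))))))))) (K a21 (M a255 (F (T t2486 (L l390 (T t2137 (L l50 (L l144 (L l347 (L l408 (T t2487 N)))))))))) (K a25 (M a48 (F (T t550 (L l15 (L l337 (T t1 (L l12 (L l56 (L l390 (L l498 (T t866 N))))))))))) (K a29 (M a48 (F (T t550 (L l15 (L l337 (T t1 (L l390 (L l498 (T t866 N))))))))) (K a38 (M a48 (F (T t1580 (L l26 (L l337 (L l390 (L l498 (T t2 (L l21 (L l50 (T t868 N))))))))))) (K a42 (M a170 (F (T t2497 (L l144 (T t2498 (L l26 (L l78 (L l132 (L l144 (L l408 (T t2499 (L l26 (L l408 (T t2500 N)))))))))))))) (K a46 (M a48 (L l408 (F (T t443 (L l337 (T t1 (L l26 (L l390 (L l498 (T t866 (K a226 (M a166 (F (T t2748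 (L l337 (T t1 N))))) (K a166 (M a226 (F (T t1580 (L l26 (L l337 (L l390 (L l498 (T t2 (L l26 (L l390 (L l498 (T t866 N)))))))))))) N)))))))))))) (K a51 (M a16 (F (T t2517 (L l73 (L l337 (L l390 (T t97 (L l390 (L l408 (T t872 N)))))))))) N)))))))))))))))))))⟩
def e0_63__75_102 : Ent 4 := ⟨[a0, a63], [a75, a107], (M a12 (L l131 (F (T t122 (T t151 (L l499 (T t152 (T t153 (K a4 (M a149 (L l131 (F (T t1984 (T t5 (T t960 (K a91 (M a123 (F (T t2749 (L l98 (T t1245 N))))) (K a123 (M a91 (F (T t424 (T t2750 N)))) N)))))))) (K a8 (M a149 (L l131 (F (T t647 (L l56 (T t5 (L l56 (T t960 (K a91 (M a123 (F (T t2751 (L l56 (L l98 (T t1245 N)))))) (K a123 (M a91 (F (T t1007 (L l460 (T t2750 N))))) N)))))))))) (K a21 (M a89 (L l131 (F (T t2752 (L l50 (T t863 (L l50 (T t864 (K a91 (M a123 (F (T t2753 (L l78 (T t2754 N))))) (K a123 (M a91 (F (T t2755 (T t2756 N)))) N)))))))))) (K a25 (M a28 (L l131 (F (T t2735 (L l337 (T t2481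 (L l12 (L l56 (T t2482 (K a91 (M a123 (F (T t2735 (L l78 (T t2757 N))))) (K a123 (M a91 (F (T t2735 (T t2758 N)))) N))))))))))) (K a29 (M a192 (L l131 (F (T t449 (L l143 (L l371 (T t21 (L l78 (L l98 (T t160 (K a91 (M a123 (F (T t2759 (L l15 (T t2760 N))))) (K a123 (M a91 (F (T t449 (L l15 (L l371 (T t35 (L l98 (L l132 (T t2539 N))))))))) N)))))))))))) (K a38 (M a89 (L l131 (F (T t2303 (L l50 (T t863 (L l26 (L l50 (T t864 (K a91 (M a123 (F (T t2753 (L l78 (T t2754 N))))) (K a123 (M a91 (F (T t2755 (L l26 (T t2756 N))))) N))))))))))) (K a42 (M a89 (L l131 (F (T t2303 (T t863 (L l26 (T t864 (K a91 (M a123 (F (T t2753 (L l78 (T t2754 N))))) (K a123 (M a91 (F (T t2761 (L l26 (T t2756 N))))) N))))))))) (K a46 (M a192 (L l131 (F (T t449 (L l143 (T t21 (L l26 (L l78 (L l98 (L l408 (T t160 (K a91 (M a123 (F (T t2762 (L l26 (T t2763 N))))) (K a123 (M a91 (F (T t35 (T t449 (L l26 (L l98 (L l132 (L l408 (T t2539 N)))))))))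 N))))))))))))) (K a51 (M a16 (L l131 (F (T t112 (L l39 (T t871 (T t872 (K a91 (M a123 (F (T t112 (L l78 (L l489 (T t2757 N)))))) (K a123 (M a91 (F (T t652 (T t2764 N)))) N))))))))) (K a91 (M a123 (F (T t151 (L l78 (T t2757 (L l88 (T t2765 N))))))) (K a123 (M a91 (F (T t122 (T t151 (L l427 (L l499 (T t152 (T t153 (K a4 (M a149 (F (T t424 (T t2750 N)))) (K a8 (M a149 (F (T t1007 (L l460 (T t2750 N))))) (K a21 (M a88 (F (T t2766 (L l133 (T t2767 N))))) (K a25 (M a88 (F (T t2768 (L l133 (T t2767 N))))) (K a29 (M a16 (F (T t652 (T t2764 N)))) (K a38 (M a16 (F (L l21 (T t871 (L l26 (L l72 (T t2764 N))))))) (K a42 (M a88 (F (T t2768 (L l26 (L l133 (T t2767 N)))))) (K a46 (M a16 (F (T t871 (L l26 (T t2764 N))))) (K a51 (M a16 (F (T t652 (T t2764 N)))) N))))))))))))))))) N)))))))))))))))))))⟩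
def e0_63__75_103 : Ent 4 := ⟨[a0, a63], [a75, a108], (M a85 (F (T t88 (T t52 (T t89 (T t90 (K a64 (M a16 (F (T t258 (L l337 (T t97 (L l116 (T t98 N))))))) (K a192 (M a16 (F (T t96 (L l337 (L l339 (T t97 (L l296 (T t98 N)))))))) (K a21 (M a48 (F (T t99 (T t50 (L l47 (T t100 N)))))) (K a149 (M a16 (F (T t173 (L l337 (L l375 (T t97 (L l99 (L l170 (T t102 N))))))))) (K a213 (Fr a170 a255 l476 (Fr a42 a21 l68 (Fr a106 a234 l390 (Fr a192 a149 l519 (V t581))))) (K a42 (M a48 (F (T t364 (L l390 (T t50 (L l28 (T t100 N))))))) (K a106 (M a48 (F (T t99 (L l337 (T t1 (L l390 (T t50 N))))))) (K a170 (M a16 (F (L l404 (T t113 (L l390 (T t98 (L l337 (L l390 (L l404 (T t97 (L l404 (T t174 N)))))))))))) (K a255 (M a16 (F (T t112 (L l289 (T t113 (L l289 (L l296 (T t98 N)))))))) N)))))))))))))))⟩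
def e0_63__75_104 : Ent 4 := ⟨[a0, a63], [a75, a109], (M a149 (F (T t5 (T t175 (T t176 (T t177 (K a192 (M a53 (F (T t178 (L l236 (L l398 (T t179 (L l236 (L l296 (T t180 N))))))))) (K a21 (M a48 (F (T t4 (T t13 (L l18 (L l398 (T t14 N))))))) (K a85 (M a16 (F (T t504 (L l144 (T t190 (L l94 (L l133 (T t278 N)))))))) (K a213 (Fr a106 a192 l519 (Fr a42 a21 l68 (Fr a170 a234 l390 (Fr a255 a85 l476 (V t582))))) (K a42 (M a48 (F (T t11 (L l390 (T t13 (L l54 (L l398 (T t14 N)))))))) (K a106 (M a48 (F (T t48 (L l398 (L l498 (T t14 (L l390 (L l498 (T t6 (L l390 (T t26 N))))))))))) (K a170 (M a48 (F (T t4 (L l337 (L l462 (T t1 (L l390 (T t13 N)))))))) (K a191 (M a204 (F (T t1043 (L l99 (T t1112 N))))) (K a255 (M a16 (F (T t112 (L l266 (T t190 (L l289 (L l296 (T t191 N)))))))) N)))))))))))))))⟩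
def e0_63__75_105 : Ent 4 := ⟨[a0, a63], [a75, a110], (M a149 (F (T t5 (T t175 (T t176 (L l102 (T t177 (K a192 (M a53 (F (T t178 (L l236 (T t179 (L l236 (L l296 (T t180 N)))))))) (K a21 (M a48 (F (T t4 (L l102 (T t13 (L l18 (T t14 N))))))) (K a85 (M a16 (F (T t504 (L l102 (L l144 (T t190 (L l94 (L l133 (T t278 N))))))))) (K a213 (Fr a106 a192 l519 (Fr a42 a21 l68 (Fr a170 a234 l390 (Fr a255 a85 l476 (V t582))))) (K a42 (M a48 (F (T t187 (L l102 (L l390 (T t13 (L l54 (T t14 N)))))))) (K a106 (M a102 (F (L l390 (T t1202 (L l396 (L l501 (T t1203 (L l390 (L l501 (T t1204 (L l390 (L l501 (T t1205 (L l501 (T t1206 N))))))))))))))) (K a170 (M a48 (F (T t4 (L l337 (L l462 (T t1 (L l102 (L l390 (T t13 N))))))))) (K a191 (M a16 (F (T t112 (L l102 (T t190 (L l213 (T t191 N))))))) (K a255 (M a16 (F (T t112 (L l102 (L l266 (T t190 (L l289 (L l296 (T t191 N))))))))) N))))))))))))))))⟩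
def e0_63__75_106 : Ent 4 := ⟨[a0, a63], [a75, a111], (M a149 (F (T t5 (T t175 (T t176 (L l104 (T t177 (K a192 (M a53 (F (T t178 (L l236 (L l296 (T t180 (L l236 (L l397 (T t179 N))))))))) (K a21 (M a240 (F (T t1090 (L l104 (T t1091 (L l397 (T t1207 N))))))) (K a85 (M a48 (F (T t184 (L l337 (T t1 (L l104 (L l144 (T t13 N)))))))) (K a213 (Fr a106 a192 l519 (Fr a42 a21 l68 (Fr a170 a234 l390 (Fr a255 a85 l476 (V t582))))) (K a42 (M a240 (F (T t1090 (L l104 (L l390 (T t1091 (L l397 (T t1207 N)))))))) (K a106 (M a101 (F (L l390 (T t1208 (L l397 (L l498 (T t1209 (L l390 (L l397 (L l498 (T t1210 (L l390 (L l498 (T t1211 (L l498 (T t1212 N)))))))))))))))) (K a170 (M a48 (F (T t184 (L l337 (L l462 (T t1 (L l104 (L l390 (T t13 N))))))))) (K a191 (M a16 (F (T t112 (L l213 (T t1213 (L l213 (T t191 N))))))) (K a255 (M a16 (F (T t112 (L l289 (T t1213 (L l289 (L l296 (T t191 N)))))))) N))))))))))))))))⟩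
def e0_63__75_107 : Ent 4 := ⟨[a0, a63], [a75, a112], (M a149 (F (T t25 (T t175 (T t176 (L l116 (T t177 (K a192 (M a53 (F (T t178 (L l236 (T t179 (L l236 (L l296 (T t180 N)))))))) (K a21 (M a240 (F (L l114 (T t1090 (L l116 (T t962 (L l114 (L l116 (T t1207 N))))))))) (K a85 (M a16 (F (T t504 (L l116 (L l144 (L l412 (T t190 (L l94 (L l133 (L l151 (T t278 N))))))))))) (K a213 (Fr a106 a192 l519 (Fr a42 a21 l68 (Fr a170 a234 l390 (Fr a255 a85 l476 (V t582))))) (K a42 (M a240 (F (L l78 (T t1937 (L l28 (L l116 (L l390 (T t962 (L l114 (L l116 (T t1207 N))))))))))) (K a106 (M a48 (F (T t48 (L l498 (T t14 (L l114 (L l390 (L l498 (T t6 (L l390 (T t26 N))))))))))) (K a170 (M a48 (F (T t184 (L l337 (L l462 (T t1 (L l116 (L l390 (L l404 (T t1938 N)))))))))) (K a191 (M a240 (F (L l116 (T t962 (L l114 (T t963 N)))))) (K a255 (M a16 (F (T t112 (L l116 (L l266 (L l412 (T t190 (L l116 (L l289 (L l296 (T t191 N)))))))))))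 N))))))))))))))))⟩
def e0_63__75_108 : Ent 4 := ⟨[a0, a63], [a75, a113], (M a85 (F (T t88 (T t52 (T t89 (T t90 (K a64 (M a16 (F (T t259 (L l337 (T t97 (L l116 (T t98 N))))))) (K a192 (M a16 (F (T t260 (L l337 (L l339 (T t97 (L l296 (T t98 N)))))))) (K a21 (M a48 (F (T t99 (L l111 (T t50 (L l47 (T t100 N))))))) (K a149 (M a16 (F (T t173 (L l337 (L l375 (T t97 (L l170 (T t102 N)))))))) (K a213 (Fr a170 a255 l476 (Fr a42 a21 l68 (Fr a106 a234 l390 (Fr a192 a149 l519 (V t581))))) (K a42 (M a48 (F (T t365 (L l111 (L l390 (T t50 (L l28 (T t100 N)))))))) (K a106 (M a48 (F (T t99 (L l337 (T t1 (L l111 (L l390 (T t50 N)))))))) (K a170 (M a16 (F (L l404 (T t113 (L l390 (T t98 (L l337 (L l390 (L l404 (T t97 (L l404 (T t174 N)))))))))))) (K a255 (M a16 (F (T t112 (L l289 (T t113 (L l289 (L l296 (T t98 N)))))))) N)))))))))))))))⟩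
def e0_63__75_109 : Ent 4 := ⟨[a0, a63], [a75, a114], (M a149 (F (T t5 (T t175 (T t176 (T t177 (K a192 (M a53 (F (T t178 (L l236 (T t179 (L l236 (L l296 (T t180 N)))))))) (K a21 (M a48 (F (T t4 (L l106 (L l417 (T t13 (L l18 (T t14 N)))))))) (K a85 (M a16 (F (T t504 (L l144 (L l417 (T t190 (L l94 (L l133 (L l148 (T t278 N)))))))))) (K a213 (Fr a106 a192 l519 (Fr a42 a21 l68 (Fr a170 a234 l390 (Fr a255 a85 l476 (V t582))))) (K a42 (M a48 (F (T t187 (L l106 (L l390 (L l417 (T t13 (L l54 (T t14 N))))))))) (K a106 (M a48 (F (T t48 (L l498 (T t14 (L l390 (L l498 (T t6 (L l390 (T t26 N)))))))))) (K a170 (M a48 (F (T t4 (L l337 (L l462 (T t1 (L l106 (L l390 (L l417 (T t13 N)))))))))) (K a191 (M a240 (F (T t962 (L l112 (T t963 N))))) (K a255 (M a16 (F (T t112 (L l266 (L l417 (T t190 (L l289 (L l296 (T t191 N))))))))) N)))))))))))))))⟩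
def e0_63__75_110 : Ent 4 := ⟨[a0, a63], [a75, a115], (M a149 (F (T t25 (T t175 (T t176 (L l120 (T t177 (K a192 (M a53 (F (T t178 (L l236 (T t179 (L l236 (L l296 (T t180 N)))))))) (K a21 (M a48 (F (T t4 (L l106 (T t13 (L l18 (T t14 N))))))) (K a85 (M a16 (F (T t504 (L l144 (T t190 (L l94 (L l133 (T t278 N)))))))) (K a213 (Fr a106 a192 l519 (Fr a42 a21 l68 (Fr a170 a234 l390 (Fr a255 a85 l476 (V t582))))) (K a42 (M a48 (F (T t187 (L l106 (L l390 (T t13 (L l54 (T t14 N)))))))) (K a106 (M a48 (F (T t48 (L l498 (T t14 (L l390 (L l498 (T t6 (L l390 (T t26 N)))))))))) (K a170 (M a48 (F (T t4 (L l337 (L l462 (T t1 (L l106 (L l390 (T t13 N))))))))) (K a191 (M a204 (F (T t1043 (T t1112 N)))) (K a255 (M a16 (F (T t112 (L l266 (T t190 (L l289 (L l296 (T t191 N)))))))) N))))))))))))))))⟩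
def e0_63__75_111 : Ent 4 := ⟨[a0, a63], [a75, a116], (M a85 (F (T t88 (T t52 (T t89 (T t90 (K a64 (M a204 (F (T t1744 (L l107 (T t1576 N))))) (K a192 (M a16 (F (T t260 (L l337 (L l339 (T t97 (L l296 (T t98 N)))))))) (K a21 (M a48 (F (T t99 (L l107 (T t50 (L l47 (T t100 N))))))) (K a149 (M a16 (F (T t173 (L l337 (L l375 (T t97 (L l170 (T t102 N)))))))) (K a213 (Fr a170 a255 l476 (Fr a42 a21 l68 (Fr a106 a234 l390 (Fr a192 a149 l519 (V t581))))) (K a42 (M a48 (F (T t365 (L l107 (L l390 (T t50 (L l28 (T t100 N)))))))) (K a106 (M a48 (F (T t99 (L l337 (T t1 (L l107 (L l390 (T t50 N)))))))) (K a170 (M a16 (F (L l404 (T t113 (L l390 (T t98 (L l337 (L l390 (L l404 (T t97 (L l404 (T t174 N)))))))))))) (K a255 (M a16 (F (T t112 (L l289 (T t113 (L l289 (L l296 (T t98 N)))))))) N)))))))))))))))⟩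
def e0_63__75_112 : Ent 4 := ⟨[a0, a63], [a75, a117], (M a85 (F (T t88 (L l114 (L l440 (T t52 (T t89 (T t90 (K a64 (M a204 (F (T t1575 (L l107 (T t1576 N))))) (K a192 (M a16 (F (T t96 (L l337 (L l339 (T t97 (L l296 (T t98 N)))))))) (K a21 (M a12 (F (T t1370 (L l15 (L l114 (L l422 (T t574 (L l114 (T t124 N))))))))) (K a149 (M a16 (F (T t112 (L l491 (T t96 (L l170 (T t102 N))))))) (K a213 (Fr a170 a255 l476 (Fr a42 a21 l68 (Fr a106 a234 l390 (Fr a192 a149 l519 (V t581))))) (K a42 (M a12 (F (L l440 (T t1373 (L l114 (L l390 (T t124 (L l56 (L l114 (L l422 (T t574 N))))))))))) (K a106 (M a12 (F (T t122 (L l132 (L l422 (T t123 (L l114 (L l390 (T t124 N))))))))) (K a170 (M a16 (F (L l390 (L l404 (T t112 (L l390 (T t98 (L l114 (L l404 (L l419 (T t113 (L l404 (T t174 N))))))))))))) (K a255 (M a48 (F (T t132 (L l114 (L l289 (L l419 (T t100 (L l289 (L l296 (T t568 (L l289 (L l296 (T t1579 N))))))))))))) N)))))))))))))))))⟩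
def e0_63__75_113 : Ent 4 := ⟨[a0, a63], [a75, a118], (M a85 (F (T t88 (T t52 (T t89 (T t90 (K a64 (M a204 (F (T t1575 (L l107 (T t1576 N))))) (K a192 (M a16 (F (T t96 (L l337 (L l339 (T t97 (L l296 (T t98 N)))))))) (K a21 (M a48 (F (T t1699 (L l47 (T t100 (L l107 (T t50 N))))))) (K a149 (M a16 (F (T t173 (L l337 (L l375 (T t97 (L l170 (T t102 N)))))))) (K a213 (Fr a170 a255 l476 (Fr a42 a21 l68 (Fr a106 a234 l390 (Fr a192 a149 l519 (V t581))))) (K a42 (M a48 (F (T t365 (L l107 (L l390 (T t50 (L l28 (T t100 N)))))))) (K a106 (M a48 (F (T t1699 (L l337 (T t1 (L l107 (L l390 (T t50 N)))))))) (K a170 (M a16 (F (L l404 (T t113 (L l390 (T t98 (L l337 (L l390 (L l404 (T t97 (L l404 (T t174 N)))))))))))) (K a255 (M a16 (F (T t112 (L l289 (T t113 (L l289 (L l296 (T t98 N)))))))) N)))))))))))))))⟩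
def e0_63__75_114 : Ent 4 := ⟨[a0, a63], [a75, a119], (M a85 (F (T t88 (L l113 (L l439 (T t52 (T t89 (T t90 (K a64 (M a252 (F (T t93 (L l125 (T t92 N))))) (K a192 (M a16 (F (T t96 (L l337 (L l339 (T t97 (L l296 (T t98 N)))))))) (K a21 (M a48 (F (T t1699 (L l47 (L l113 (T t100 (L l107 (L l113 (T t50 N))))))))) (K a149 (M a16 (F (T t173 (L l337 (L l375 (T t97 (L l170 (T t102 N)))))))) (K a213 (Fr a170 a255 l476 (Fr a42 a21 l68 (Fr a106 a234 l390 (Fr a192 a149 l519 (V t581))))) (K a42 (M a48 (F (L l28 (T t1699 (L l107 (L l113 (L l390 (T t50 (L l28 (L l113 (T t100 N))))))))))) (K a106 (M a48 (F (T t1699 (L l337 (T t1 (L l107 (L l113 (L l390 (T t50 N))))))))) (K a170 (M a16 (F (L l390 (L l404 (T t112 (L l390 (T t98 (L l113 (L l404 (T t113 (L l404 (T t174 N)))))))))))) (K a255 (M a51 (F (T t1355 (L l113 (L l290 (L l421 (T t945 (L l290 (L l296 (T t1952 (L l290 (L l296 (T t1953 N))))))))))))) N)))))))))))))))))⟩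
def e0_63__75_115 : Ent 4 := ⟨[a0, a63], [a75, a120], (M a149 (L l133 (F (T t5 (T t175 (T t176 (T t177 (K a192 (M a105 (F (L l228 (T t1932 (L l131 (L l296 (T t2259 (L l228 (T t1934 (L l228 (L l296 (T t1931 (L l296 (T t2769 N)))))))))))))) (K a21 (M a240 (L l133 (F (L l108 (T t1090 (L l110 (T t1091 (L l108 (T t1207 (K a105 (M a90 (F (T t2770 (T t2771 N)))) (K a90 (M a105 (F (L l11 (T t1932 (L l108 (L l130 (L l372 (T t2772 N)))))))) N))))))))))) (K a85 (M a61 (L l133 (F (L l350 (T t2773 (L l473 (T t505 (L l144 (T t2774 (L l128 (L l350 (T t2775 (K a105 (M a90 (L l141 (F (L l473 (T t505 (L l98 (L l108 (L l144 (T t2776 (K a65 (M a125 (F (L l473 (T t2777 (L l407 (L l455 (T t2778 N))))))) (K a125 (M a65 (F (L l473 (T t505 (L l98 (L l144 (L l337 (T t2779 N)))))))) N))))))))))) (K a90 (Fr a105 a193 l515 (V t2780)) N)))))))))))))) (K a213 (Fr a106 a192 l519 (Fr a42 a21 l68 (Fr a170 a234 l390 (Fr a255 a85 l476 (V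 t582))))) (K a42 (M a48 (L l133 (F (T t187 (L l110 (L l390 (L l442 (T t13 (L l54 (T t14 (K a105 (M a90 (F (T t11 (L l28 (T t1040 N))))) (K a90 (M a105 (F (T t11 (L l66 (T t1932 N))))) N)))))))))))) (K a106 (M a105 (F (L l516 (T t1932 (L l131 (L l390 (T t2259 (L l390 (T t1931 (L l390 (L l516 (T t1934 (L l337 (L l516 (T t1935 N))))))))))))))) (K a170 (M a105 (F (L l218 (T t2781 (L l390 (T t1931 (L l218 (L l390 (T t2782 (L l337 (T t1935 N))))))))))) (K a191 (M a105 (F (T t2783 (L l185 (T t1931 (L l219 (T t2782 N))))))) (K a255 (M a105 (F (T t2781 (L l296 (T t1931 (L l296 (L l434 (T t2782 (T t1934 N))))))))) (K a105 (M a90 (F (T t175 (L l407 (T t2784 (T t1040 N)))))) (K a90 (M a105 (F (T t5 (L l130 (L l131 (T t185 (L l131 (T t2259 N)))))))) N))))))))))))))))))⟩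
def e0_63__75_116 : Ent 4 := ⟨[a0, a63], [a75, a121], (M a149 (F (T t5 (T t175 (T t176 (T t177 (K a192 (M a53 (F (T t178 (L l236 (T t179 (L l236 (L l296 (L l443 (T t180 N))))))))) (K a21 (M a48 (F (T t4 (T t13 (L l18 (T t14 N)))))) (K a85 (M a16 (F (T t504 (L l144 (T t190 (L l94 (L l133 (T t278 N)))))))) (K a213 (Fr a106 a192 l519 (Fr a42 a21 l68 (Fr a170 a234 l390 (Fr a255 a85 l476 (V t582))))) (K a42 (M a48 (F (T t187 (L l390 (T t13 (L l54 (T t14 N))))))) (K a106 (M a48 (F (T t48 (L l498 (T t14 (L l111 (L l390 (L l498 (T t6 (L l390 (T t26 N))))))))))) (K a170 (M a48 (F (T t4 (L l337 (L l462 (T t1 (L l390 (T t13 N)))))))) (K a191 (M a240 (F (T t962 (L l108 (T t963 N))))) (K a255 (M a16 (F (T t112 (L l266 (T t190 (L l289 (L l296 (T t191 N)))))))) N)))))))))))))))⟩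
def e0_63__75_117 : Ent 4 := ⟨[a0, a63], [a75, a122], (M a149 (F (T t5 (T t175 (T t176 (L l130 (T t177 (K a192 (M a53 (F (L l426 (T t178 (L l236 (L l296 (T t180 (L l236 (L l426 (T t179 N)))))))))) (K a21 (M a48 (F (L l426 (T t4 (L l114 (L l130 (T t13 (L l18 (L l426 (T t14 N)))))))))) (K a85 (M a16 (F (L l337 (T t97 (L l130 (L l144 (T t190 (L l94 (L l130 (L l133 (T t278 N))))))))))) (K a213 (Fr a106 a192 l519 (Fr a42 a21 l68 (Fr a170 a234 l390 (Fr a255 a85 l476 (V t582))))) (K a42 (M a48 (F (T t187 (L l114 (L l130 (L l390 (T t13 (L l54 (L l426 (T t14 N)))))))))) (K a106 (M a90 (F (L l390 (T t1073 (L l411 (L l426 (T t1040 (L l390 (L l411 (T t1954 (L l390 (L l411 (T t1074 (L l411 (T t1075 N))))))))))))))) (K a170 (M a48 (F (T t11 (L l337 (L l462 (T t1 (L l114 (L l130 (L l390 (T t13 N)))))))))) (K a191 (M a16 (F (L l337 (T t97 (L l130 (T t190 (L l213 (T t191 N)))))))) (K a255 (M a16 (F (L l426 (T t112 (L l130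 (T t2785 (L l289 (L l296 (T t191 N))))))))) N))))))))))))))))⟩
def e0_63__75_118 : Ent 4 := ⟨[a0, a63], [a75, a123], (M a12 (L l131 (F (T t122 (T t151 (L l427 (T t152 (T t153 (K a4 (M a149 (L l131 (F (T t5 (T t650 (T t960 (K a91 (M a107 (F (T t1240 (T t960 N)))) (K a107 (M a91 (F (T t424 (T t2750 N)))) N)))))))) (K a8 (M a149 (L l131 (F (T t175 (T t650 (L l56 (T t960 (K a91 (M a107 (F (T t1240 (L l56 (T t960 N))))) (K a107 (M a91 (F (T t1007 (L l460 (T t2750 N))))) N))))))))) (K a21 (M a89 (L l131 (F (T t2786 (L l50 (L l427 (T t863 (L l50 (L l427 (T t864 (K a91 (M a107 (F (T t2761 (L l108 (L l373 (T t2787 N)))))) (K a107 (M a91 (F (T t2755 (T t2756 N)))) N)))))))))))) (K a25 (M a149 (L l131 (F (T t650 (L l56 (T t5 (L l427 (T t649 (K a91 (M a107 (F (T t1240 (L l427 (L l463 (T t649 N)))))) (K a107 (M a91 (F (L l56 (T t5 (T t2750 N))))) N)))))))))) (K a29 (M a192 (L l131 (F (T t449 (L l113 (L l371 (T t21 (L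 l132 (T t2539 (K a91 (M a107 (F (T t449 (L l371 (L l373 (T t1172 N)))))) (K a107 (M a91 (F (T t449 (L l15 (L l371 (T t35 (L l98 (L l132 (T t2539 N))))))))) N))))))))))) (K a38 (M a89 (L l131 (F (T t2755 (L l26 (L l78 (T t2788 (L l26 (L l50 (L l427 (T t864 (K a91 (M a107 (F (L l481 (T t2755 (L l26 (L l108 (L l373 (T t2787 N)))))))) (K a107 (M a91 (F (T t2755 (L l26 (T t2756 N))))) N))))))))))))) (K a42 (M a89 (L l131 (F (T t2761 (L l26 (T t2786 (L l26 (L l427 (T t864 (K a91 (M a107 (F (T t2761 (L l26 (L l108 (L l373 (T t2787 N))))))) (K a107 (M a91 (F (T t2761 (L l26 (T t2756 N))))) N))))))))))) (K a46 (M a192 (L l131 (F (T t449 (L l113 (T t21 (L l26 (L l132 (L l408 (T t2539 (K a91 (M a107 (F (T t449 (L l373 (T t1172 N))))) (K a107 (M a91 (F (T t35 (T t449 (L l26 (L l98 (L l132 (L l408 (T t2539 N))))))))) N)))))))))))) (K a51 (M a28 (L l131 (F (T t2738 (L l30 (T t2735 (T t2482 (K a91 (M a107 (F (T t2789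 (L l78 (L l373 (L l511 (T t2790 N))))))) (K a107 (M a91 (F (T t2739 (T t2758 N)))) N))))))))) (K a91 (M a107 (F (T t151 (L l78 (L l373 (T t2790 (K a4 (M a192 (F (L l113 (T t21 (L l78 (L l337 (L l373 (L l481 (T t2791 N))))))))) (K a8 (M a192 (F (T t35 (L l78 (L l320 (L l337 (L l373 (L l481 (T t2791 N))))))))) N)))))))) (K a107 (M a91 (F (T t122 (T t151 (L l427 (L l499 (T t152 (T t153 (K a4 (M a149 (F (T t424 (T t2750 N)))) (K a8 (M a149 (F (T t1007 (L l460 (T t2750 N))))) (K a21 (M a88 (F (T t2766 (L l133 (T t2767 N))))) (K a25 (M a88 (F (T t2768 (L l133 (T t2767 N))))) (K a29 (M a16 (F (T t652 (T t2764 N)))) (K a38 (M a16 (F (L l21 (T t871 (L l26 (L l72 (T t2764 N))))))) (K a42 (M a88 (F (T t2768 (L l26 (L l133 (T t2767 N)))))) (K a46 (M a16 (F (T t871 (L l26 (T t2764 N))))) (K a51 (M a16 (F (T t652 (T t2764 N)))) N))))))))))))))))) N)))))))))))))))))))⟩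
def e0_63__75_119 : Ent 4 := ⟨[a0, a63], [a75, a124], (M a149 (F (T t25 (T t175 (T t176 (L l140 (T t177 (K a192 (M a53 (F (T t178 (L l236 (T t179 (L l236 (L l296 (T t180 N)))))))) (K a21 (M a48 (F (T t4 (L l110 (T t13 (L l18 (T t14 N))))))) (K a85 (M a16 (F (T t504 (L l144 (T t190 (L l94 (L l133 (T t278 N)))))))) (K a213 (Fr a106 a192 l519 (Fr a42 a21 l68 (Fr a170 a234 l390 (Fr a255 a85 l476 (V t582))))) (K a42 (M a48 (F (T t187 (L l110 (L l390 (T t13 (L l54 (T t14 N)))))))) (K a106 (M a48 (F (T t48 (L l498 (T t14 (L l390 (L l498 (T t6 (L l390 (T t26 N)))))))))) (K a170 (M a48 (F (T t4 (L l337 (L l462 (T t1 (L l110 (L l390 (T t13 N))))))))) (K a191 (M a252 (F (L l140 (T t940 (L l109 (T t941 N)))))) (K a255 (M a16 (F (T t112 (L l266 (T t190 (L l289 (L l296 (T t191 N)))))))) N))))))))))))))))⟩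
def e0_63__75_120 : Ent 4 := ⟨[a0, a63], [a75, a125], (M a85 (F (T t88 (L l109 (L l434 (T t52 (T t89 (T t90 (K a64 (M a16 (F (T t259 (L l337 (T t97 (L l116 (T t98 N))))))) (K a192 (M a16 (F (T t96 (L l337 (L l339 (T t97 (L l296 (T t98 N)))))))) (K a21 (M a48 (F (T t1699 (L l47 (L l109 (T t100 (L l109 (L l111 (T t50 N))))))))) (K a149 (M a16 (F (T t173 (L l337 (L l375 (T t97 (L l170 (T t102 N)))))))) (K a213 (Fr a170 a255 l476 (Fr a42 a21 l68 (Fr a106 a234 l390 (Fr a192 a149 l519 (V t581))))) (K a42 (M a48 (F (L l28 (T t1699 (L l109 (L l111 (L l390 (T t50 (L l28 (L l109 (T t100 N))))))))))) (K a106 (M a48 (F (T t1699 (L l337 (T t1 (L l109 (L l111 (L l390 (T t50 N))))))))) (K a170 (M a16 (F (L l390 (L l404 (T t112 (L l390 (T t98 (L l109 (L l404 (T t113 (L l404 (T t174 N)))))))))))) (K a255 (M a60 (F (T t522 (L l109 (L l295 (L l431 (T t523 (L l295 (L l296 (T t115 (L l295 (L l296 (L l337 (T t524 N))))))))))))))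 N)))))))))))))))))⟩
def e0_63__75_121 : Ent 4 := ⟨[a0, a63], [a75, a126], (M a149 (F (T t5 (T t175 (T t176 (L l142 (T t177 (K a192 (M a53 (F (T t178 (L l236 (T t179 (L l236 (L l296 (T t180 N)))))))) (K a21 (M a48 (F (T t4 (L l142 (T t13 (L l18 (T t14 N))))))) (K a85 (M a16 (F (T t504 (L l142 (L l144 (T t190 (L l94 (L l133 (T t278 N))))))))) (K a213 (Fr a106 a192 l519 (Fr a42 a21 l68 (Fr a170 a234 l390 (Fr a255 a85 l476 (V t582))))) (K a42 (M a48 (F (T t187 (L l142 (L l390 (T t13 (L l54 (T t14 N)))))))) (K a106 (M a86 (F (L l393 (L l432 (T t618 (L l390 (T t620 (L l390 (L l393 (T t1239 (L l390 (L l393 (T t621 (L l393 (T t622 N))))))))))))))) (K a170 (M a48 (F (T t4 (L l337 (L l462 (T t1 (L l142 (L l390 (T t13 N))))))))) (K a191 (M a16 (F (T t112 (L l142 (T t190 (L l213 (T t191 N))))))) (K a255 (M a16 (F (T t112 (L l142 (L l266 (T t190 (L l289 (L l296 (T t191 N))))))))) N))))))))))))))))⟩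
def e0_63__75_122 : Ent 4 := ⟨[a0, a63], [a75, a127], (M a60 (F (T t67 (T t43 (T t68 (T t69 (K a20 (M a48 (F (T t64 (L l11 (L l337 (T t1 (L l11 (T t235 N)))))))) (K a40 (M a48 (F (T t64 (L l337 (T t1 (L l52 (T t235 N))))))) (K a21 (M a192 (F (T t72 (L l131 (L l143 (L l337 (L l347 (T t73 (L l11 (L l144 (T t1541 N))))))))))) (K a41 (M a192 (F (T t79 (L l131 (L l143 (L l337 (T t73 (L l22 (L l144 (T t37 N)))))))))) (K a61 (M a192 (F (T t72 (L l144 (T t37 (L l65 (L l131 (L l143 (L l515 (T t2549 N)))))))))) (K a22 (M a192 (F (T t72 (L l66 (L l144 (T t37 (L l131 (L l143 (L l337 (T t73 N)))))))))) (K a42 (M a192 (F (T t79 (L l131 (L l143 (L l337 (T t73 (L l66 (L l144 (L l390 (T t1541 N))))))))))) (K a62 (M a192 (F (T t72 (L l66 (L l144 (L l516 (T t37 (L l131 (L l143 (T t2549 N)))))))))) (K a3 (M a106 (F (T t2792 (T t1513 N)))) N)))))))))))))))⟩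
def e0_63__75_123 : Ent 4 := ⟨[a0, a63], [a75, a128], (M a12 (F (T t122 (T t151 (T t152 (T t153 (K a4 (M a60 (F (T t43 (L l337 (T t398 (T t448 N)))))) (K a8 (M a60 (F (T t67 (L l337 (T t398 (L l52 (L l56 (T t448 N)))))))) (K a21 (M a166 (F (T t2793 (T t2543 (L l15 (T t2541 N)))))) (K a25 (M a48 (F (T t550 (L l15 (L l337 (T t1 (L l12 (L l56 (T t866 N))))))))) (K a29 (M a48 (F (T t550 (L l15 (L l337 (T t1 (T t866 N))))))) (K a38 (M a48 (F (T t1580 (L l26 (L l337 (T t2 (L l21 (L l50 (T t868 N))))))))) (K a42 (M a166 (F (T t2794 (L l56 (T t2543 (L l56 (T t2541 N))))))) (K a46 (M a48 (F (T t443 (L l337 (T t1 (L l26 (T t866 N))))))) (K a51 (M a16 (F (T t112 (L l39 (T t871 (T t872 N)))))) N)))))))))))))))⟩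
def e0_63__75_124 : Ent 4 := ⟨[a0, a63], [a75, a129], (M a149 (F (T t25 (L l152 (L l309 (T t175 (T t176 (T t177 (K a192 (M a3 (F (T t85 (L l152 (L l292 (L l305 (T t615 (L l292 (L l296 (T t616 (L l292 (L l296 (T t1244 N))))))))))))) (K a21 (M a48 (F (T t16 (L l152 (T t13 (L l18 (L l152 (T t14 N)))))))) (K a85 (M a16 (F (T t504 (L l144 (T t190 (L l94 (L l133 (T t278 N)))))))) (K a213 (Fr a106 a192 l519 (Fr a42 a21 l68 (Fr a170 a234 l390 (Fr a255 a85 l476 (V t582))))) (K a42 (M a48 (F (L l54 (T t16 (L l152 (L l390 (T t13 (L l54 (L l152 (T t14 N)))))))))) (K a106 (M a48 (F (T t48 (L l152 (L l498 (T t14 (L l390 (L l498 (T t6 (L l390 (T t26 N))))))))))) (K a170 (M a48 (F (T t184 (L l337 (L l462 (T t1 (L l152 (L l390 (T t13 N))))))))) (K a191 (M a240 (F (T t962 (L l157 (T t963 N))))) (K a255 (M a16 (F (T t112 (L l266 (T t190 (L l289 (L l296 (T t191 N)))))))) N)))))))))))))))))⟩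
def e0_63__75_125 : Ent 4 := ⟨[a0, a63], [a75, a130], (M a85 (F (T t88 (T t52 (T t89 (L l218 (T t90 (K a64 (M a16 (F (T t258 (L l337 (T t97 (L l116 (T t98 N))))))) (K a192 (M a16 (F (T t96 (L l337 (L l339 (T t97 (L l296 (T t98 N)))))))) (K a21 (M a48 (F (T t99 (L l218 (T t50 (L l47 (T t100 N))))))) (K a149 (M a16 (F (T t173 (L l337 (L l375 (T t97 (L l170 (T t102 N)))))))) (K a213 (Fr a170 a255 l476 (Fr a42 a21 l68 (Fr a106 a234 l390 (Fr a192 a149 l519 (V t581))))) (K a42 (M a48 (F (T t364 (L l218 (L l390 (T t50 (L l28 (T t100 N)))))))) (K a106 (M a48 (F (T t99 (L l337 (T t1 (L l218 (L l390 (T t50 N)))))))) (K a170 (M a150 (F (L l390 (T t1961 (L l306 (L l392 (T t1960 (L l131 (L l133 (L l390 (L l392 (T t1962 (L l390 (L l392 (T t1963 (L l337 (L l392 (T t1964 N)))))))))))))))))) (K a255 (M a16 (F (T t112 (L l289 (T t113 (L l289 (L l296 (T t98 N)))))))) N))))))))))))))))⟩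
def e0_63__75_126 : Ent 4 := ⟨[a0, a63], [a75, a131], (M a85 (F (T t88 (T t52 (T t89 (L l219 (T t90 (K a64 (M a16 (F (T t258 (L l337 (T t97 (L l116 (T t98 N))))))) (K a192 (M a16 (F (T t96 (L l337 (L l339 (T t97 (L l296 (T t98 N)))))))) (K a21 (M a48 (F (T t99 (L l197 (T t50 (L l47 (T t100 N))))))) (K a149 (M a16 (F (T t173 (L l337 (L l375 (T t97 (L l170 (T t102 N)))))))) (K a213 (Fr a170 a255 l476 (Fr a42 a21 l68 (Fr a106 a234 l390 (Fr a192 a149 l519 (V t581))))) (K a42 (M a48 (F (T t364 (L l197 (L l390 (T t50 (L l28 (T t100 N)))))))) (K a106 (M a48 (F (T t99 (L l337 (T t1 (L l197 (L l390 (T t50 N)))))))) (K a170 (M a16 (F (L l404 (T t113 (L l390 (T t98 (L l337 (L l390 (L l404 (T t97 (L l404 (T t174 N)))))))))))) (K a255 (M a16 (F (T t112 (L l289 (T t113 (L l289 (L l296 (T t98 N)))))))) N))))))))))))))))⟩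
def e0_63__75_127 : Ent 4 := ⟨[a0, a63], [a75, a132], (M a149 (F (T t25 (L l156 (L l334 (T t175 (T t176 (T t177 (K a192 (M a12 (F (T t1252 (L l156 (L l272 (L l310 (T t649 (L l272 (L l296 (T t960 (L l272 (L l296 (T t1253 N))))))))))))) (K a21 (M a48 (F (T t16 (L l156 (T t13 (L l18 (L l156 (T t14 N)))))))) (K a85 (M a16 (F (T t504 (L l144 (T t190 (L l94 (L l133 (T t278 N)))))))) (K a213 (Fr a106 a192 l519 (Fr a42 a21 l68 (Fr a170 a234 l390 (Fr a255 a85 l476 (V t582))))) (K a42 (M a48 (F (L l54 (T t16 (L l156 (L l390 (T t13 (L l54 (L l156 (T t14 N)))))))))) (K a106 (M a48 (F (T t48 (L l156 (L l498 (T t14 (L l390 (L l498 (T t6 (L l390 (T t26 N))))))))))) (K a170 (M a48 (F (T t184 (L l337 (L l462 (T t1 (L l156 (L l390 (T t13 N))))))))) (K a191 (M a240 (F (T t962 (L l153 (T t963 N))))) (K a255 (M a16 (F (T t112 (L l266 (T t190 (L l289 (L l296 (T t191 N)))))))) N)))))))))))))))))⟩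
def e0_63__75_128 : Ent 4 := ⟨[a0, a63], [a75, a133], (M a149 (F (T t25 (L l160 (L l339 (T t175 (T t176 (T t177 (K a192 (M a15 (F (T t1254 (L l160 (L l268 (L l311 (T t1026 (L l268 (L l296 (T t1031 (L l268 (L l296 (T t1255 N))))))))))))) (K a21 (M a48 (F (T t7 (L l18 (L l160 (L l311 (T t14 (L l160 (T t13 N))))))))) (K a85 (M a16 (F (T t504 (L l144 (T t190 (L l94 (L l133 (T t278 N)))))))) (K a213 (Fr a106 a192 l519 (Fr a42 a21 l68 (Fr a170 a234 l390 (Fr a255 a85 l476 (V t582))))) (K a42 (M a48 (F (L l339 (T t187 (L l160 (L l390 (T t13 (L l54 (L l160 (L l311 (T t14 N))))))))))) (K a106 (M a48 (F (T t48 (L l160 (L l311 (L l498 (T t14 (L l390 (T t26 (L l311 (L l390 (L l498 (T t6 N))))))))))))) (K a170 (M a48 (F (T t607 (L l339 (T t11 (L l160 (L l390 (T t13 N)))))))) (K a191 (M a252 (F (T t940 (L l157 (T t941 N))))) (K a255 (M a16 (F (T t504 (L l266 (T t190 (L l289 (L l296 (T t191 N)))))))) N)))))))))))))))))⟩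
def e0_63__75_129 : Ent 4 := ⟨[a0, a63], [a75, a134], (M a149 (F (T t5 (T t175 (T t176 (T t177 (K a192 (M a53 (F (T t178 (L l236 (T t179 (L l236 (L l296 (L l314 (T t180 N))))))))) (K a21 (M a48 (F (T t4 (T t13 (L l18 (T t14 N)))))) (K a85 (M a16 (F (T t504 (L l144 (T t190 (L l94 (L l133 (T t278 N)))))))) (K a213 (Fr a106 a192 l519 (Fr a42 a21 l68 (Fr a170 a234 l390 (Fr a255 a85 l476 (V t582))))) (K a42 (M a48 (F (T t187 (L l390 (T t13 (L l54 (T t14 N))))))) (K a106 (M a48 (F (T t48 (L l498 (T t14 (L l390 (L l498 (T t6 (L l390 (T t26 N)))))))))) (K a170 (M a48 (F (T t4 (L l337 (L l462 (T t1 (L l390 (T t13 N)))))))) (K a191 (M a240 (F (T t962 (L l153 (T t963 N))))) (K a255 (M a16 (F (T t112 (L l266 (T t190 (L l289 (L l296 (T t191 N)))))))) N)))))))))))))))⟩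
def e0_63__75_130 : Ent 4 := ⟨[a0, a63], [a75, a135], (M a15 (F (T t716 (T t731 (T t723 (T t732 (K a48 (M a192 (F (T t1681 (L l153 (L l512 (T t2795 (L l78 (L l412 (T t2796 N))))))))) (K a5 (M a12 (F (T t151 (T t2544 (L l5 (T t722 N)))))) (K a21 (M a192 (F (T t2797 (L l47 (L l153 (T t2795 (L l47 (T t2798 N)))))))) (K a37 (M a192 (F (T t21 (L l78 (T t2799 (L l78 (T t2796 N))))))) (K a10 (M a12 (F (T t2544 (T t122 (L l54 (T t722 N)))))) (K a26 (M a192 (F (T t2797 (L l153 (T t2795 (L l18 (T t35 N))))))) (K a42 (M a192 (F (T t2800 (L l153 (T t2795 (L l28 (L l390 (T t2798 N)))))))) (K a31 (M a192 (F (T t202 (L l153 (T t2795 (L l18 (L l153 (L l375 (T t2801 N))))))))) (K a47 (M a192 (F (T t35 (L l153 (T t2795 (L l153 (T t2801 N))))))) N)))))))))))))))⟩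
def e0_63__75_131 : Ent 4 := ⟨[a0, a63], [a75, a136], (M a85 (F (T t88 (T t52 (T t89 (L l208 (T t90 (K a64 (M a16 (F (T t258 (L l337 (T t97 (L l116 (T t98 N))))))) (K a192 (M a16 (F (T t96 (L l337 (L l339 (T t97 (L l296 (T t98 N)))))))) (K a21 (M a48 (F (T t99 (L l208 (T t50 (L l47 (T t100 N))))))) (K a149 (M a16 (F (T t173 (L l337 (L l375 (T t97 (L l170 (T t102 N)))))))) (K a213 (Fr a170 a255 l476 (Fr a42 a21 l68 (Fr a106 a234 l390 (Fr a192 a149 l519 (V t581))))) (K a42 (M a48 (F (T t364 (L l208 (L l390 (T t50 (L l28 (T t100 N)))))))) (K a106 (M a48 (F (T t99 (L l337 (T t1 (L l208 (L l390 (T t50 N)))))))) (K a170 (M a153 (F (L l316 (L l402 (T t1989 (L l390 (T t1988 (L l390 (L l402 (T t1990 (L l390 (L l402 (T t1991 (L l402 (T t1992 N))))))))))))))) (K a255 (M a16 (F (T t112 (L l289 (T t113 (L l289 (L l296 (T t98 N)))))))) N))))))))))))))))⟩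
def e0_63__75_132 : Ent 4 := ⟨[a0, a63], [a75, a137], (M a85 (F (T t88 (T t52 (T t89 (T t90 (K a64 (M a252 (F (T t93 (T t92 N)))) (K a192 (M a16 (F (T t112 (L l329 (T t96 (L l296 (T t98 N))))))) (K a21 (M a48 (F (T t99 (T t50 (L l47 (T t100 N)))))) (K a149 (M a16 (F (T t112 (L l329 (T t173 (L l170 (T t102 N))))))) (K a213 (Fr a170 a255 l476 (Fr a42 a21 l68 (Fr a106 a234 l390 (Fr a192 a149 l519 (V t581))))) (K a42 (M a48 (F (T t364 (L l390 (T t50 (L l28 (T t100 N))))))) (K a106 (M a48 (F (T t99 (L l337 (T t1 (L l390 (T t50 N))))))) (K a170 (M a16 (F (L l404 (T t113 (L l390 (T t98 (L l337 (L l390 (L l404 (T t97 (L l404 (T t174 N)))))))))))) (K a255 (M a16 (F (T t112 (L l289 (T t113 (L l289 (L l296 (T t98 N)))))))) N)))))))))))))))⟩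
def e0_63__75_133 : Ent 4 := ⟨[a0, a63], [a75, a138], (M a85 (F (T t88 (T t52 (T t89 (L l206 (T t90 (K a64 (M a16 (F (L l206 (T t259 (L l337 (T t97 (L l116 (T t98 N)))))))) (K a192 (M a16 (F (T t112 (L l236 (T t173 (L l296 (T t98 N))))))) (K a21 (M a240 (F (T t1384 (L l206 (T t933 (L l78 (L l318 (T t1385 N)))))))) (K a149 (M a16 (F (T t173 (L l337 (L l375 (T t97 (L l170 (L l206 (T t102 N))))))))) (K a213 (Fr a170 a255 l476 (Fr a42 a21 l68 (Fr a106 a234 l390 (Fr a192 a149 l519 (V t581))))) (K a42 (M a240 (F (T t1384 (L l206 (L l390 (T t386 (L l78 (L l318 (T t1385 N))))))))) (K a106 (M a48 (F (T t1699 (L l318 (L l337 (T t1 (L l206 (L l390 (T t50 N))))))))) (K a170 (M a154 (F (L l390 (T t2294 (L l318 (L l404 (T t1705 (L l390 (L l404 (T t2295 (L l390 (L l404 (T t1711 (L l404 (T t2296 N))))))))))))))) (K a255 (M a16 (F (T t112 (L l289 (L l296 (T t98 (L l289 (L l318 (T t113 N))))))))) N))))))))))))))))⟩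
def e0_63__75_134 : Ent 4 := ⟨[a0, a63], [a75, a139], (M a85 (L l319 (F (T t88 (T t52 (T t89 (T t90 (K a64 (M a204 (L l319 (F (T t1575 (L l154 (T t1576 (K a11 (M a203 (F (T t1744 (L l154 (T t1576 N))))) (K a203 (M a11 (F (T t1744 (L l154 (T t1576 N))))) N)))))))) (K a192 (M a12 (L l319 (F (T t123 (L l489 (T t122 (L l232 (T t124 (K a11 (M a203 (F (T t571 (L l154 (T t2637 N))))) (K a203 (M a11 (F (T t571 (T t2802 N)))) N)))))))))) (K a21 (M a240 (L l319 (F (T t1384 (T t933 (L l78 (T t1385 (K a11 (M a203 (F (T t2803 (T t933 (L l78 (L l321 (T t2804 N))))))) (K a203 (M a11 (F (T t386 (L l285 (T t2805 N))))) N))))))))) (K a149 (M a1 (L l319 (F (T t2806 (L l515 (T t534 (L l209 (L l217 (T t2807 (K a11 (M a203 (F (T t2806 (L l515 (T t534 (L l57 (L l209 (L l217 (L l465 (T t2807 N)))))))))) (K a203 (M a11 (F (T t538 (L l285 (L l337 (T t2808 N)))))) N))))))))))) (K a213 (Fr a170 a255 l476 (Fr a42 a21 l68 (Fr a106 a234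 l390 (Fr a192 a149 l519 (V t581))))) (K a42 (M a3 (L l319 (F (T t664 (L l159 (L l337 (L l390 (T t355 (L l66 (T t376 (K a11 (M a203 (F (T t664 (L l159 (L l337 (L l390 (T t355 (L l66 (T t376 N))))))))) (K a203 (M a11 (F (T t664 (L l56 (L l499 (T t2809 N)))))) N)))))))))))) (K a106 (M a48 (L l319 (F (T t99 (L l337 (T t1 (L l390 (T t50 (K a11 (M a203 (F (T t364 (L l2 (L l7 (L l337 (T t1 (L l390 (T t50 N))))))))) (K a203 (M a11 (F (T t364 (L l337 (T t1 (L l390 (T t50 N))))))) N)))))))))) (K a170 (M a12 (L l319 (F (T t152 (L l464 (T t574 (L l390 (T t154 (L l390 (L l464 (T t572 (K a11 (M a203 (F (L l2 (L l464 (T t574 (L l154 (L l206 (T t2637 (L l390 (T t154 N)))))))))) (K a203 (M a11 (F (L l320 (L l464 (T t574 (L l462 (T t2802 (L l390 (T t154 N))))))))) N))))))))))))) (K a255 (M a1 (L l319 (F (T t538 (L l261 (T t263 (L l261 (L l296 (T t1500 (K a11 (M a203 (F (L l434 (T t534 (L l261 (T t263 (L l261 (L l296 (T t1500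 N))))))))) (K a203 (M a11 (F (T t2810 (L l261 (L l296 (T t1500 N)))))) N))))))))))) (K a11 (M a203 (F (T t88 (T t52 (T t89 (T t90 (K a64 (M a8 (F (T t428 (L l57 (T t2811 N))))) (K a192 (M a8 (F (T t428 (L l57 (L l296 (T t2811 N)))))) (K a21 (M a195 (F (T t902 (L l55 (T t2812 N))))) (K a149 (M a8 (F (L l55 (T t414 (L l78 (T t2813 N)))))) (K a213 (Fr a170 a255 l476 (Fr a42 a21 l68 (Fr a106 a234 l390 (Fr a192 a149 l519 (V t581))))) (K a42 (M a154 (F (L l28 (T t1705 (L l22 (L l57 (T t2814 N))))))) (K a106 (M a8 (F (T t428 (L l57 (L l132 (T t2811 N)))))) (K a170 (M a195 (F (T t2642 (L l218 (L l390 (T t919 N)))))) (K a255 (M a195 (F (T t2642 (L l296 (L l434 (T t921 N)))))) N))))))))))))))) (K a203 (M a11 (F (T t88 (T t52 (T t89 (T t90 (K a64 (M a8 (F (T t428 (L l131 (L l285 (T t2815 N)))))) (K a192 (M a8 (F (T t428 (L l131 (L l285 (L l296 (T t2815 N))))))) (K a21 (M a240 (F (T t386 (L l285 (T t2805 N))))) (K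 a149 (M a240 (F (L l220 (T t386 (L l285 (T t2805 N)))))) (K a213 (Fr a170 a255 l476 (Fr a42 a21 l68 (Fr a106 a234 l390 (Fr a192 a149 l519 (V t581))))) (K a42 (M a3 (F (T t664 (L l56 (L l499 (T t2809 N)))))) (K a106 (M a8 (F (T t428 (L l131 (L l132 (L l285 (T t2815 N))))))) (K a170 (M a5 (F (L l462 (T t2816 (L l390 (T t2817 N)))))) (K a255 (M a1 (F (T t2810 (L l261 (L l296 (T t1500 N)))))) N))))))))))))))) N))))))))))))))))))⟩
def e0_63__75_135 : Ent 4 := ⟨[a0, a63], [a75, a140], (M a85 (F (T t88 (T t52 (T t89 (L l214 (T t90 (K a64 (M a16 (F (T t258 (L l337 (T t97 (L l116 (T t98 N))))))) (K a192 (M a16 (F (T t96 (L l337 (L l339 (T t97 (L l296 (T t98 N)))))))) (K a21 (M a48 (F (T t99 (L l222 (T t50 (L l47 (T t100 N))))))) (K a149 (M a16 (F (T t173 (L l337 (L l375 (T t97 (L l170 (T t102 N)))))))) (K a213 (Fr a170 a255 l476 (Fr a42 a21 l68 (Fr a106 a234 l390 (Fr a192 a149 l519 (V t581))))) (K a42 (M a48 (F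 (T t364 (L l222 (L l390 (T t50 (L l28 (T t100 N)))))))) (K a106 (M a48 (F (T t99 (L l337 (T t1 (L l222 (L l390 (T t50 N)))))))) (K a170 (M a16 (F (L l404 (T t113 (L l390 (T t98 (L l337 (L l390 (L l404 (T t97 (L l404 (T t174 N)))))))))))) (K a255 (M a16 (F (T t112 (L l289 (T t113 (L l289 (L l296 (T t98 N)))))))) N))))))))))))))))⟩
def e0_63__75_136 : Ent 4 := ⟨[a0, a63], [a75, a141], (M a149 (F (T t5 (T t175 (T t176 (T t177 (K a192 (M a53 (F (T t178 (L l236 (T t179 (L l236 (L l296 (T t180 N)))))))) (K a21 (M a48 (F (T t4 (T t13 (L l18 (T t14 N)))))) (K a85 (M a16 (F (T t504 (L l144 (T t190 (L l94 (L l133 (T t278 N)))))))) (K a213 (Fr a106 a192 l519 (Fr a42 a21 l68 (Fr a170 a234 l390 (Fr a255 a85 l476 (V t582))))) (K a42 (M a48 (F (T t187 (L l390 (T t13 (L l54 (T t14 N))))))) (K a106 (M a48 (F (T t48 (L l498 (T t14 (L l390 (L l498 (T t6 (L l390 (T t26 N)))))))))) (K a170 (M a48 (F (T t4 (L l327 (L l337 (L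 l462 (T t1 (L l390 (T t13 N))))))))) (K a191 (M a240 (F (T t962 (L l157 (T t963 N))))) (K a255 (M a16 (F (T t112 (L l266 (T t190 (L l289 (L l296 (T t191 N)))))))) N)))))))))))))))⟩
def e0_63__75_137 : Ent 4 := ⟨[a0, a63], [a75, a142], (M a85 (F (T t88 (T t52 (T t89 (T t90 (K a64 (M a16 (F (T t258 (L l337 (T t97 (L l116 (T t98 N))))))) (K a192 (M a16 (F (T t96 (L l337 (L l339 (T t97 (L l296 (T t98 N)))))))) (K a21 (M a48 (F (T t99 (T t50 (L l47 (T t100 N)))))) (K a149 (M a16 (F (T t112 (L l326 (T t173 (L l170 (L l224 (T t102 N)))))))) (K a213 (Fr a170 a255 l476 (Fr a42 a21 l68 (Fr a106 a234 l390 (Fr a192 a149 l519 (V t581))))) (K a42 (M a48 (F (T t364 (L l390 (T t50 (L l28 (T t100 N))))))) (K a106 (M a48 (F (T t99 (L l337 (T t1 (L l390 (T t50 N))))))) (K a170 (M a16 (F (L l404 (T t113 (L l390 (T t98 (L l337 (L l390 (L l404 (T t97 (L l326 (L l404 (T t174 N))))))))))))) (K a255 (M a16 (F (T t112 (L l289 (T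 t113 (L l289 (L l296 (T t98 N)))))))) N)))))))))))))))⟩
def e0_63__75_138 : Ent 4 := ⟨[a0, a63], [a75, a143], (M a85 (F (T t88 (T t52 (T t89 (L l213 (T t90 (K a64 (M a16 (F (T t258 (T t112 (L l116 (L l213 (T t98 N))))))) (K a192 (M a16 (F (T t96 (T t112 (L l213 (L l296 (T t98 N))))))) (K a21 (M a48 (F (T t99 (L l47 (T t903 (L l47 (T t100 N))))))) (K a149 (M a16 (F (T t112 (T t666 (L l170 (L l227 (T t102 N))))))) (K a213 (Fr a170 a255 l476 (Fr a42 a21 l68 (Fr a106 a234 l390 (Fr a192 a149 l519 (V t581))))) (K a42 (M a48 (F (T t364 (L l390 (T t903 (L l28 (T t100 N))))))) (K a106 (M a48 (F (T t99 (T t48 (L l227 (L l390 (T t50 N))))))) (K a170 (M a16 (F (L l404 (T t113 (L l213 (L l390 (T t98 (L l325 (L l337 (L l390 (L l404 (T t97 (L l325 (L l404 (T t174 N))))))))))))))) (K a255 (M a16 (F (T t112 (L l289 (T t113 (L l213 (L l289 (L l296 (T t98 N))))))))) N))))))))))))))))⟩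
def e0_63__75_139 : Ent 4 := ⟨[a0, a63], [a75, a144], (M a149 (F (T t25 (L l192 (L l484 (T t175 (T t176 (T t177 (K a192 (M a48 (F (T t132 (L l192 (L l236 (L l340 (T t14 (L l236 (L l296 (T t6 (L l236 (L l296 (T t2007 N))))))))))))) (K a21 (M a12 (F (T t647 (L l192 (T t648 (L l50 (L l192 (T t649 N)))))))) (K a85 (M a4 (F (T t519 (L l78 (L l144 (T t653 (L l126 (T t654 N)))))))) (K a213 (Fr a106 a192 l519 (Fr a42 a21 l68 (Fr a170 a234 l390 (Fr a255 a85 l476 (V t582))))) (K a42 (M a12 (F (L l484 (T t991 (L l192 (L l390 (T t648 (L l26 (L l192 (T t649 N)))))))))) (K a106 (M a12 (F (T t122 (L l192 (L l408 (T t649 (L l390 (L l408 (T t960 (L l390 (T t961 N))))))))))) (K a170 (M a12 (F (T t650 (L l402 (T t122 (L l192 (L l390 (T t648 N)))))))) (K a191 (M a204 (F (T t1043 (L l162 (T t1112 N))))) (K a255 (M a4 (F (T t129 (L l78 (L l290 (T t653 (L l265 (L l296 (T t1070 N))))))))) N)))))))))))))))))⟩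
def e0_63__75_140 : Ent 4 := ⟨[a0, a63], [a75, a145], (M a149 (F (T t25 (L l196 (L l489 (T t175 (T t176 (T t177 (K a192 (M a51 (F (T t1355 (L l196 (L l232 (L l341 (T t2011 (L l232 (L l296 (T t2012 (L l232 (L l296 (T t2013 N))))))))))))) (K a21 (M a48 (F (T t16 (L l162 (L l196 (T t13 (L l18 (L l196 (T t14 N))))))))) (K a85 (M a16 (F (T t504 (L l144 (L l345 (T t190 (L l94 (L l133 (L l162 (T t278 N)))))))))) (K a213 (Fr a106 a192 l519 (Fr a42 a21 l68 (Fr a170 a234 l390 (Fr a255 a85 l476 (V t582))))) (K a42 (M a48 (F (L l54 (T t16 (L l162 (L l196 (L l390 (T t13 (L l54 (L l196 (T t14 N))))))))))) (K a106 (M a48 (F (T t48 (L l196 (L l498 (T t14 (L l390 (L l498 (T t6 (L l162 (L l390 (T t26 N)))))))))))) (K a170 (M a48 (F (T t184 (L l337 (L l462 (T t1 (L l162 (L l196 (L l390 (T t13 N)))))))))) (K a191 (M a252 (F (T t940 (L l193 (T t941 N))))) (K a255 (M a16 (F (T t112 (L l266 (L l345 (T t190 (L l289 (L l296 (T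 t191 N))))))))) N)))))))))))))))))⟩
def e0_63__75_141 : Ent 4 := ⟨[a0, a63], [a75, a146], (M a149 (F (T t5 (T t175 (T t176 (T t177 (K a192 (M a53 (F (T t178 (L l236 (L l344 (T t179 (L l236 (L l296 (T t180 N))))))))) (K a21 (M a48 (F (T t4 (L l162 (T t13 (L l18 (L l344 (T t14 N)))))))) (K a85 (M a16 (F (T t504 (L l144 (T t190 (L l94 (L l133 (L l162 (T t278 N))))))))) (K a213 (Fr a106 a192 l519 (Fr a42 a21 l68 (Fr a170 a234 l390 (Fr a255 a85 l476 (V t582))))) (K a42 (M a48 (F (T t187 (L l162 (L l390 (T t13 (L l54 (L l344 (T t14 N))))))))) (K a106 (M a48 (F (L l337 (T t1 (L l344 (L l498 (T t14 (L l390 (L l498 (T t6 (L l162 (L l390 (T t26 N))))))))))))) (K a170 (M a48 (F (T t4 (L l337 (L l462 (T t1 (L l162 (L l390 (T t13 N))))))))) (K a191 (M a204 (F (T t1043 (L l162 (T t1112 N))))) (K a255 (M a16 (F (T t112 (L l266 (T t190 (L l289 (L l296 (T t191 N)))))))) N)))))))))))))))⟩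
def e0_63__75_142 : Ent 4 := ⟨[a0, a63], [a75, a147], (M a85 (F (T t88 (T t52 (T t89 (T t90 (K a64 (M a16 (F (T t258 (L l337 (T t97 (L l116 (L l169 (T t98 N)))))))) (K a192 (M a16 (F (T t96 (L l337 (L l339 (T t97 (L l169 (L l296 (T t98 N))))))))) (K a21 (M a48 (F (T t99 (T t50 (L l47 (T t100 N)))))) (K a149 (M a16 (F (T t173 (L l337 (L l375 (T t97 (L l170 (T t102 N)))))))) (K a213 (Fr a170 a255 l476 (Fr a42 a21 l68 (Fr a106 a234 l390 (Fr a192 a149 l519 (V t581))))) (K a42 (M a48 (F (T t364 (L l390 (T t50 (L l28 (T t100 N))))))) (K a106 (M a48 (F (T t99 (L l337 (T t1 (L l390 (T t50 N))))))) (K a170 (M a16 (F (L l404 (T t113 (L l169 (L l390 (T t98 (L l337 (L l390 (L l404 (T t97 (L l404 (T t174 N))))))))))))) (K a255 (M a16 (F (T t112 (L l289 (T t113 (L l169 (L l289 (L l296 (T t98 N))))))))) N)))))))))))))))⟩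
def e0_63__75_143 : Ent 4 := ⟨[a0, a63], [a75, a148], (M a149 (F (T t25 (L l216 (L l514 (T t175 (T t176 (T t177 (K a192 (M a60 (F (T t522 (L l216 (L l228 (L l346 (T t462 (L l228 (L l296 (T t1256 (L l228 (L l296 (L l337 (T t1257 N)))))))))))))) (K a21 (M a48 (F (T t16 (L l166 (L l216 (T t13 (L l18 (L l216 (T t14 N))))))))) (K a85 (M a16 (F (T t504 (L l144 (L l370 (T t190 (L l94 (L l133 (L l166 (T t278 N)))))))))) (K a213 (Fr a106 a192 l519 (Fr a42 a21 l68 (Fr a170 a234 l390 (Fr a255 a85 l476 (V t582))))) (K a42 (M a48 (F (L l54 (T t16 (L l166 (L l216 (L l390 (T t13 (L l54 (L l216 (T t14 N))))))))))) (K a106 (M a48 (F (T t48 (L l216 (L l498 (T t14 (L l390 (L l498 (T t6 (L l166 (L l390 (T t26 N)))))))))))) (K a170 (M a48 (F (T t184 (L l337 (L l462 (T t1 (L l166 (L l216 (L l390 (T t13 N)))))))))) (K a191 (M a16 (F (T t112 (L l370 (T t190 (L l213 (T t191 N))))))) (K a255 (M a16 (F (T t112 (L l266 (L l370 (T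 t190 (L l289 (L l296 (T t191 N))))))))) N)))))))))))))))))⟩
def e0_63__75_144 : Ent 4 := ⟨[a0, a63], [a75, a149], (M a12 (F (T t151 (L l347 (L l371 (T t122 (L l347 (T t152 (L l495 (T t153 (K a4 (M a60 (F (T t69 (L l337 (L l371 (L l515 (T t398 (L l351 (T t448 N))))))))) (K a8 (M a60 (F (T t570 (L l347 (T t67 (L l52 (L l56 (L l351 (T t448 N))))))))) (K a21 (M a85 (F (T t1368 (L l220 (T t124 (L l15 (L l202 (L l220 (L l371 (T t2301 (L l15 (L l371 (T t2302 N))))))))))))) (K a25 (M a48 (F (T t550 (L l15 (L l337 (L l347 (L l491 (T t1 (L l12 (L l56 (T t866 N))))))))))) (K a29 (M a48 (L l371 (F (T t550 (L l15 (L l337 (L l347 (L l491 (T t1 (T t866 (K a209 (M a89 (F (T t2567 (L l337 (T t2 N))))) (K a89 (M a209 (F (T t550 (L l337 (T t2 (L l356 (T t866 N))))))) N)))))))))))) (K a38 (M a48 (F (T t1580 (L l26 (L l337 (T t2 (L l21 (L l50 (L l347 (L l491 (T t868 N))))))))))) (K a42 (M a255 (F (T t2124 (L l347 (T t2031 (L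 l56 (L l220 (L l371 (L l390 (T t2032 N)))))))))) (K a46 (M a48 (F (T t443 (L l337 (L l347 (L l491 (T t1 (L l26 (T t866 N))))))))) (K a51 (M a16 (F (T t112 (L l39 (T t871 (T t872 N)))))) N)))))))))))))))))))⟩
def e0_63__75_145 : Ent 4 := ⟨[a0, a63], [a75, a150], (M a12 (F (T t122 (T t151 (T t152 (T t153 (K a4 (M a60 (F (T t43 (L l337 (T t398 (T t448 N)))))) (K a8 (M a60 (F (T t68 (L l337 (T t398 (L l52 (L l56 (T t448 N)))))))) (K a21 (M a192 (F (T t156 (L l15 (L l163 (L l347 (T t450 (L l15 (L l163 (L l347 (T t157 N))))))))))) (K a25 (M a192 (F (T t449 (L l15 (L l163 (T t450 (L l163 (T t21 N)))))))) (K a29 (M a192 (F (T t449 (L l163 (L l371 (T t21 (L l78 (L l516 (T t160 N))))))))) (K a38 (M a192 (F (T t156 (L l163 (T t450 (L l163 (T t21 N))))))) (K a42 (M a192 (F (T t449 (L l163 (T t450 (L l56 (L l163 (T t157 N)))))))) (K a46 (M a192 (F (T t449 (L l163 (T t21 (L l26 (L l78 (L l408 (L l516 (T t160 N))))))))))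 (K a51 (M a192 (F (T t496 (L l163 (L l415 (T t450 (L l163 (L l439 (T t21 N))))))))) N)))))))))))))))⟩
def e0_63__75_146 : Ent 4 := ⟨[a0, a63], [a75, a151], (M a12 (F (T t122 (T t151 (T t152 (L l493 (T t153 (K a4 (M a60 (F (T t69 (L l337 (T t398 (L l349 (T t448 N))))))) (K a8 (M a60 (F (T t68 (L l337 (T t398 (L l52 (L l56 (L l349 (T t448 N))))))))) (K a21 (M a192 (F (T t156 (L l15 (L l163 (L l347 (T t450 (L l15 (L l163 (L l347 (T t157 N))))))))))) (K a25 (M a192 (F (T t449 (L l15 (L l163 (T t450 (L l163 (T t21 N)))))))) (K a29 (M a192 (F (T t449 (L l163 (L l371 (T t21 (L l78 (L l201 (T t160 N))))))))) (K a38 (M a192 (F (T t156 (L l163 (T t450 (L l163 (T t21 N))))))) (K a42 (M a192 (F (T t449 (L l163 (T t450 (L l56 (L l163 (T t157 N)))))))) (K a46 (M a192 (F (T t449 (L l163 (T t21 (L l26 (L l78 (L l201 (L l408 (T t160 N)))))))))) (K a51 (M a192 (F (T t159 (L l163 (L l415 (T t450 (L l163 (L l439 (T t21 N)))))))))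 N))))))))))))))))⟩
def e0_63__75_147 : Ent 4 := ⟨[a0, a63], [a75, a152], (M a85 (F (T t88 (T t52 (T t89 (T t90 (K a64 (M a252 (F (T t91 (L l204 (T t92 N))))) (K a192 (M a16 (F (T t96 (L l337 (L l339 (T t97 (L l296 (T t98 N)))))))) (K a21 (M a48 (F (T t99 (L l222 (T t50 (L l47 (T t100 N))))))) (K a149 (M a16 (F (T t173 (L l337 (L l375 (T t97 (L l164 (L l170 (T t102 N))))))))) (K a213 (Fr a170 a255 l476 (Fr a42 a21 l68 (Fr a106 a234 l390 (Fr a192 a149 l519 (V t581))))) (K a42 (M a48 (F (L l28 (T t99 (L l222 (L l390 (T t50 (L l28 (T t100 N))))))))) (K a106 (M a48 (F (T t99 (L l337 (T t1 (L l222 (L l390 (T t50 N)))))))) (K a170 (M a16 (F (L l404 (T t113 (L l390 (T t98 (L l337 (L l390 (L l404 (T t97 (L l404 (T t174 N)))))))))))) (K a255 (M a16 (F (T t112 (L l289 (T t113 (L l289 (L l296 (T t98 N)))))))) N)))))))))))))))⟩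
def e0_63__75_148 : Ent 4 := ⟨[a0, a63], [a75, a153], (M a60 (F (T t67 (T t43 (T t68 (T t69 (K a20 (M a48 (F (T t132 (L l513 (T t64 (L l11 (T t235 N))))))) (K a40 (M a48 (F (T t236 (L l337 (T t1 (L l52 (T t235 N))))))) (K a21 (M a192 (F (T t72 (L l131 (L l167 (L l337 (L l347 (T t73 (L l167 (L l347 (T t74 N))))))))))) (K a41 (M a192 (F (T t79 (L l65 (L l167 (T t35 (L l131 (L l167 (L l337 (T t73 N)))))))))) (K a61 (M a192 (F (T t72 (L l65 (L l167 (L l515 (T t35 (L l501 (T t80 N))))))))) (K a22 (M a192 (F (T t72 (L l167 (T t21 (L l131 (L l167 (L l337 (T t73 N))))))))) (K a42 (M a192 (F (T t77 (L l131 (L l167 (L l337 (T t73 (L l22 (L l167 (T t74 N)))))))))) (K a62 (M a192 (F (T t72 (L l167 (T t35 (L l66 (L l501 (L l516 (T t80 N))))))))) (K a3 (M a192 (F (T t2658 (L l167 (L l475 (T t35 (L l131 (L l167 (L l307 (L l337 (T t73 N))))))))))) N)))))))))))))))⟩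
def e0_63__75_149 : Ent 4 := ⟨[a0, a63], [a75, a154], (M a12 (F (T t122 (T t151 (T t152 (T t153 (K a4 (M a60 (F (T t43 (L l337 (T t398 (T t448 N)))))) (K a8 (M a60 (F (T t67 (L l337 (T t398 (L l52 (L l56 (T t448 N)))))))) (K a21 (M a192 (F (T t156 (L l15 (L l170 (L l347 (T t450 (L l15 (L l170 (L l347 (T t157 N))))))))))) (K a25 (M a192 (F (T t449 (L l15 (L l170 (T t450 (L l170 (T t21 N)))))))) (K a29 (M a192 (F (T t449 (L l170 (L l371 (T t21 (L l78 (L l498 (T t160 N))))))))) (K a38 (M a192 (F (T t156 (L l170 (T t450 (L l170 (T t21 N))))))) (K a42 (M a192 (F (T t449 (L l170 (T t450 (L l56 (L l170 (T t157 N)))))))) (K a46 (M a192 (F (T t449 (L l170 (T t21 (L l26 (L l78 (L l408 (L l498 (T t160 N)))))))))) (K a51 (M a192 (F (T t496 (L l170 (L l415 (T t450 (L l170 (L l439 (T t21 N))))))))) N)))))))))))))))⟩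
def e0_63__75_150 : Ent 4 := ⟨[a0, a63], [a75, a155], (M a85 (F (T t88 (T t52 (T t89 (T t90 (K a64 (M a252 (F (T t91 (L l367 (T t92 N))))) (K a192 (M a16 (F (T t112 (L l367 (T t96 (L l169 (L l296 (L l367 (T t98 N))))))))) (K a21 (M a48 (F (T t1243 (L l47 (L l367 (T t100 (T t50 N))))))) (K a149 (M a16 (F (T t112 (L l367 (L l511 (T t173 (L l164 (L l170 (T t102 N))))))))) (K a213 (Fr a170 a255 l476 (Fr a42 a21 l68 (Fr a106 a234 l390 (Fr a192 a149 l519 (V t581))))) (K a42 (M a48 (F (T t364 (L l390 (T t50 (L l28 (L l367 (T t100 N)))))))) (K a106 (M a48 (F (T t364 (L l337 (T t1 (L l390 (T t50 N))))))) (K a170 (M a16 (F (L l390 (L l404 (T t112 (L l169 (L l367 (L l390 (T t98 (L l367 (L l404 (T t113 (L l367 (L l404 (L l511 (T t174 N)))))))))))))))) (K a255 (M a16 (F (T t112 (L l289 (L l367 (T t113 (L l169 (L l289 (L l296 (L l367 (T t98 N))))))))))) N)))))))))))))))⟩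
def e0_63__75_151 : Ent 4 := ⟨[a0, a63], [a75, a156], (M a85 (F (T t88 (T t52 (T t89 (T t90 (K a64 (M a16 (F (T t258 (L l337 (T t97 (L l116 (L l165 (T t98 N)))))))) (K a192 (M a16 (F (T t96 (L l337 (L l339 (T t97 (L l165 (L l296 (T t98 N))))))))) (K a21 (M a48 (F (T t99 (T t50 (L l47 (T t100 N)))))) (K a149 (M a16 (F (T t173 (L l337 (L l375 (T t97 (L l170 (T t102 N)))))))) (K a213 (Fr a170 a255 l476 (Fr a42 a21 l68 (Fr a106 a234 l390 (Fr a192 a149 l519 (V t581))))) (K a42 (M a48 (F (T t364 (L l390 (T t50 (L l28 (T t100 N))))))) (K a106 (M a48 (F (T t99 (L l337 (T t1 (L l390 (T t50 N))))))) (K a170 (M a16 (F (L l404 (T t113 (L l165 (L l390 (T t98 (L l337 (L l390 (L l404 (T t97 (L l404 (T t174 N))))))))))))) (K a255 (M a16 (F (T t112 (L l289 (T t113 (L l165 (L l289 (L l296 (T t98 N))))))))) N)))))))))))))))⟩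
def e0_63__75_152 : Ent 4 := ⟨[a0, a63], [a75, a157], (M a149 (F (T t5 (T t175 (L l214 (T t176 (L l214 (T t177 (K a192 (M a53 (F (T t178 (L l236 (T t179 (L l236 (L l296 (T t180 N)))))))) (K a21 (M a48 (F (T t4 (T t13 (L l18 (T t14 N)))))) (K a85 (M a16 (F (L l455 (T t112 (L l144 (T t190 (L l94 (L l133 (T t278 N))))))))) (K a213 (Fr a106 a192 l519 (Fr a42 a21 l68 (Fr a170 a234 l390 (Fr a255 a85 l476 (V t582))))) (K a42 (M a48 (F (T t187 (L l390 (T t13 (L l54 (T t14 N))))))) (K a106 (M a48 (F (T t48 (L l498 (T t14 (L l390 (L l498 (T t6 (L l390 (T t26 N)))))))))) (K a170 (M a48 (F (T t4 (L l337 (L l462 (T t1 (L l390 (T t13 N)))))))) (K a191 (M a12 (L l214 (F (T t648 (L l359 (T t960 (K a140 (M a174 (F (T t959 (L l359 (T t122 (L l156 (T t2818 N))))))) (K a174 (M a140 (F (T t2819 (L l359 (L l396 (T t960 N)))))) N)))))))) (K a255 (M a16 (F (T t112 (L l266 (T t190 (L l165 (L l289 (L l296 (T t191 N))))))))) N)))))))))))))))))⟩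
def e0_63__75_153 : Ent 4 := ⟨[a0, a63], [a75, a158], (M a149 (F (T t5 (T t175 (T t176 (T t177 (K a192 (M a53 (F (T t178 (L l236 (T t179 (L l236 (L l296 (T t180 N)))))))) (K a21 (M a48 (F (T t4 (T t13 (L l18 (T t14 N)))))) (K a85 (M a16 (F (T t504 (L l144 (T t190 (L l94 (L l133 (T t278 N)))))))) (K a213 (Fr a106 a192 l519 (Fr a42 a21 l68 (Fr a170 a234 l390 (Fr a255 a85 l476 (V t582))))) (K a42 (M a48 (F (T t187 (L l390 (T t13 (L l54 (T t14 N))))))) (K a106 (M a48 (F (T t48 (L l498 (T t14 (L l390 (L l498 (T t6 (L l362 (L l390 (T t26 N))))))))))) (K a170 (M a48 (F (T t4 (L l337 (L l462 (T t1 (L l390 (T t13 N)))))))) (K a191 (M a204 (F (T t1043 (L l504 (T t1112 N))))) (K a255 (M a16 (F (T t112 (L l266 (T t190 (L l165 (L l289 (L l296 (L l362 (T t191 N)))))))))) N)))))))))))))))⟩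
def e0_63__75_154 : Ent 4 := ⟨[a0, a63], [a75, a159], (M a12 (F (T t122 (T t151 (T t152 (T t153 (K a4 (M a60 (F (T t43 (L l337 (T t398 (T t448 N)))))) (K a8 (M a60 (F (T t67 (L l337 (T t398 (L l52 (L l56 (T t448 N)))))))) (K a21 (M a192 (F (T t221 (T t156 (L l15 (L l170 (L l347 (T t157 N)))))))) (K a25 (M a192 (F (T t449 (L l15 (L l170 (T t450 (L l170 (T t21 N)))))))) (K a29 (M a192 (F (T t449 (L l170 (L l371 (T t21 (L l78 (T t160 N)))))))) (K a38 (M a192 (F (T t156 (L l170 (T t450 (L l170 (T t21 N))))))) (K a42 (M a192 (F (T t449 (L l170 (T t450 (L l56 (L l170 (T t157 N)))))))) (K a46 (M a192 (F (T t449 (L l170 (T t21 (L l26 (L l78 (L l408 (T t160 N))))))))) (K a51 (M a192 (F (T t1681 (L l513 (T t156 (L l170 (L l415 (T t450 N)))))))) N)))))))))))))))⟩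
def e0_63__75_155 : Ent 4 := ⟨[a0, a63], [a75, a160], (M a85 (F (T t88 (T t52 (T t89 (L l180 (T t90 (K a64 (M a16 (F (L l376 (T t258 (T t2820 (L l337 (L l376 (T t97 N)))))))) (K a192 (M a16 (F (L l376 (T t96 (T t966 (L l337 (L l339 (L l376 (T t97 N))))))))) (K a21 (M a48 (F (L l376 (T t99 (L l180 (L l192 (T t50 (L l47 (L l376 (T t100 N)))))))))) (K a149 (M a16 (F (T t666 (L l337 (L l375 (L l376 (T t97 (L l170 (T t102 N))))))))) (K a213 (Fr a170 a255 l476 (Fr a42 a21 l68 (Fr a106 a234 l390 (Fr a192 a149 l519 (V t581))))) (K a42 (M a48 (F (T t364 (L l180 (L l192 (L l390 (T t50 (L l28 (L l376 (T t100 N)))))))))) (K a106 (M a48 (F (T t364 (L l337 (T t1 (L l180 (L l192 (L l390 (T t50 N))))))))) (K a170 (M a165 (F (L l390 (T t2015 (L l376 (L l462 (T t2016 (L l133 (L l390 (L l462 (T t2017 (L l390 (L l462 (T t2018 (L l462 (T t2014 N)))))))))))))))) (K a255 (M a16 (F (L l376 (T t112 (L l289 (L l296 (T t98 (L l289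 (L l376 (T t113 N)))))))))) N))))))))))))))))⟩
def e0_63__75_156 : Ent 4 := ⟨[a0, a63], [a75, a161], (M a85 (F (T t88 (T t52 (T t89 (T t90 (K a64 (M a240 (F (T t933 (L l172 (T t387 N))))) (K a192 (M a16 (F (T t96 (L l337 (L l339 (T t97 (L l296 (T t98 N)))))))) (K a21 (M a48 (F (T t99 (L l197 (L l453 (T t50 (L l47 (T t100 N)))))))) (K a149 (M a16 (F (T t173 (L l337 (L l375 (T t97 (L l170 (T t102 N)))))))) (K a213 (Fr a170 a255 l476 (Fr a42 a21 l68 (Fr a106 a234 l390 (Fr a192 a149 l519 (V t581))))) (K a42 (M a48 (F (T t364 (L l197 (L l390 (L l453 (T t50 (L l28 (T t100 N))))))))) (K a106 (M a48 (F (T t99 (L l337 (T t1 (L l197 (L l390 (L l453 (T t50 N))))))))) (K a170 (M a16 (F (L l404 (T t113 (L l390 (T t98 (L l337 (L l390 (L l404 (T t97 (L l404 (T t174 N)))))))))))) (K a255 (M a16 (F (T t112 (L l289 (T t113 (L l289 (L l296 (T t98 N)))))))) N)))))))))))))))⟩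
def e0_63__75_157 : Ent 4 := ⟨[a0, a63], [a75, a162], (M a85 (F (T t88 (T t52 (T t89 (L l178 (T t90 (K a64 (M a16 (F (L l380 (T t258 (L l116 (T t98 (L l337 (L l380 (T t97 N))))))))) (K a192 (M a16 (F (L l380 (T t96 (T t966 (L l337 (L l339 (L l380 (T t97 N))))))))) (K a21 (M a48 (F (L l380 (T t99 (L l178 (T t50 (L l47 (L l380 (T t100 N))))))))) (K a149 (M a16 (F (T t666 (L l337 (L l375 (L l380 (T t97 (L l170 (T t102 N))))))))) (K a213 (Fr a170 a255 l476 (Fr a42 a21 l68 (Fr a106 a234 l390 (Fr a192 a149 l519 (V t581))))) (K a42 (M a48 (F (T t364 (L l178 (L l390 (T t50 (L l28 (L l380 (T t100 N))))))))) (K a106 (M a48 (F (T t364 (L l337 (T t1 (L l178 (L l390 (T t50 N)))))))) (K a170 (M a166 (F (L l390 (T t2020 (L l378 (L l464 (T t2019 (L l131 (L l390 (L l464 (T t2021 (L l390 (L l464 (T t2022 (L l464 (T t2023 N)))))))))))))))) (K a255 (M a16 (F (L l380 (T t112 (L l289 (L l296 (T t98 (L l289 (L l380 (T t113 N))))))))))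 N))))))))))))))))⟩
def e0_63__75_158 : Ent 4 := ⟨[a0, a63], [a75, a163], (M a85 (F (T t88 (T t52 (T t89 (T t90 (K a64 (M a240 (F (T t386 (L l172 (T t387 N))))) (K a192 (M a16 (F (T t96 (L l337 (L l339 (T t97 (L l296 (T t98 N)))))))) (K a21 (M a48 (F (T t99 (T t50 (L l47 (T t100 N)))))) (K a149 (M a16 (F (T t173 (L l337 (L l375 (T t97 (L l170 (T t102 N)))))))) (K a213 (Fr a170 a255 l476 (Fr a42 a21 l68 (Fr a106 a234 l390 (Fr a192 a149 l519 (V t581))))) (K a42 (M a48 (F (T t364 (L l390 (T t50 (L l28 (T t100 N))))))) (K a106 (M a48 (F (T t99 (L l337 (T t1 (L l390 (T t50 N))))))) (K a170 (M a16 (F (L l404 (T t113 (L l390 (T t98 (L l337 (L l390 (L l404 (T t97 (L l404 (T t174 N)))))))))))) (K a255 (M a16 (F (T t112 (L l289 (T t113 (L l289 (L l296 (T t98 N)))))))) N)))))))))))))))⟩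
def e0_63__75_159 : Ent 4 := ⟨[a0, a63], [a75, a164], (M a85 (F (T t88 (T t52 (T t89 (T t90 (K a64 (M a240 (F (T t933 (L l176 (T t387 N))))) (K a192 (M a16 (F (T t96 (L l337 (L l339 (T t97 (L l296 (T t98 N)))))))) (K a21 (M a48 (F (T t99 (L l222 (L l478 (T t50 (L l47 (T t100 N)))))))) (K a149 (M a16 (F (T t173 (L l337 (L l375 (T t97 (L l170 (T t102 N)))))))) (K a213 (Fr a170 a255 l476 (Fr a42 a21 l68 (Fr a106 a234 l390 (Fr a192 a149 l519 (V t581))))) (K a42 (M a48 (F (T t364 (L l222 (L l390 (L l478 (T t50 (L l28 (T t100 N))))))))) (K a106 (M a48 (F (T t99 (L l337 (T t1 (L l222 (L l390 (L l478 (T t50 N))))))))) (K a170 (M a16 (F (L l404 (T t113 (L l390 (T t98 (L l337 (L l390 (L l404 (T t97 (L l404 (T t174 N)))))))))))) (K a255 (M a16 (F (T t112 (L l289 (T t113 (L l289 (L l296 (T t98 N)))))))) N)))))))))))))))⟩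
def e0_63__75_160 : Ent 4 := ⟨[a0, a63], [a75, a165], (M a12 (F (T t122 (T t151 (T t152 (T t153 (K a4 (M a60 (F (T t43 (L l337 (L l483 (T t398 (T t448 N))))))) (K a8 (M a60 (F (T t67 (L l337 (L l483 (T t398 (L l52 (L l56 (T t448 N))))))))) (K a21 (M a192 (F (T t156 (L l15 (L l199 (L l347 (T t450 (L l15 (L l199 (L l347 (T t157 N))))))))))) (K a25 (M a192 (F (T t449 (L l15 (L l199 (T t450 (L l199 (T t21 N)))))))) (K a29 (M a192 (F (T t449 (L l199 (L l371 (T t21 (L l78 (L l411 (T t160 N))))))))) (K a38 (M a192 (F (T t156 (L l199 (T t450 (L l199 (T t21 N))))))) (K a42 (M a192 (F (T t449 (L l199 (T t450 (L l56 (L l199 (T t157 N)))))))) (K a46 (M a192 (F (T t449 (L l199 (T t21 (L l26 (L l78 (L l408 (L l411 (T t160 N)))))))))) (K a51 (M a192 (F (T t496 (L l199 (L l415 (T t450 (L l199 (L l439 (T t21 N))))))))) N)))))))))))))))⟩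
def e0_63__75_161 : Ent 4 := ⟨[a0, a63], [a75, a166], (M a60 (F (T t67 (T t43 (T t68 (T t69 (K a20 (M a48 (F (T t64 (L l11 (L l337 (T t1 (L l11 (T t235 N)))))))) (K a40 (M a48 (F (T t64 (L l337 (T t1 (L l52 (T t235 N))))))) (K a21 (M a192 (F (T t72 (L l131 (L l202 (L l337 (L l347 (T t73 (L l202 (L l347 (T t74 N))))))))))) (K a41 (M a192 (F (T t79 (L l65 (L l202 (T t35 (L l131 (L l202 (L l337 (T t73 N)))))))))) (K a61 (M a192 (F (T t72 (L l65 (L l202 (L l515 (T t35 (L l408 (T t80 N))))))))) (K a22 (M a192 (F (T t72 (L l202 (T t21 (L l131 (L l202 (L l337 (T t73 N))))))))) (K a42 (M a192 (F (T t77 (L l131 (L l202 (L l337 (T t73 (L l22 (L l202 (T t74 N)))))))))) (K a62 (M a192 (F (T t72 (L l202 (T t35 (L l66 (L l408 (L l516 (T t80 N))))))))) (K a3 (M a192 (F (T t2658 (L l202 (L l475 (T t35 (L l131 (L l202 (L l307 (L l337 (T t73 N))))))))))) N)))))))))))))))⟩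
def e0_63__75_162 : Ent 4 := ⟨[a0, a63], [a75, a167], (M a85 (F (T t88 (T t52 (T t89 (T t90 (K a64 (M a252 (F (T t91 (L l457 (T t92 N))))) (K a192 (M a16 (F (T t96 (L l337 (L l339 (L l481 (T t97 (L l296 (T t98 N))))))))) (K a21 (M a48 (F (T t99 (T t50 (L l47 (T t100 N)))))) (K a149 (M a16 (F (T t173 (L l337 (L l375 (L l481 (T t97 (L l170 (T t102 N))))))))) (K a213 (Fr a170 a255 l476 (Fr a42 a21 l68 (Fr a106 a234 l390 (Fr a192 a149 l519 (V t581))))) (K a42 (M a48 (F (T t364 (L l390 (T t50 (L l28 (T t100 N))))))) (K a106 (M a48 (F (T t99 (L l337 (L l481 (T t1 (L l390 (T t50 N)))))))) (K a170 (M a16 (F (L l404 (T t113 (L l390 (T t98 (L l337 (L l390 (L l404 (L l481 (T t97 (L l404 (T t174 N))))))))))))) (K a255 (M a16 (F (T t112 (L l289 (T t113 (L l289 (L l296 (T t98 N)))))))) N)))))))))))))))⟩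
def e0_63__75_163 : Ent 4 := ⟨[a0, a63], [a75, a168], (M a85 (F (T t88 (T t52 (T t89 (L l174 (T t90 (K a64 (M a16 (F (L l400 (T t258 (L l116 (T t98 (L l337 (L l400 (T t97 N))))))))) (K a192 (M a16 (F (L l400 (T t96 (T t966 (L l337 (L l339 (L l400 (T t97 N))))))))) (K a21 (M a48 (F (L l400 (T t99 (L l174 (T t50 (L l47 (L l400 (T t100 N))))))))) (K a149 (M a16 (F (T t666 (L l337 (L l375 (L l400 (T t97 (L l170 (T t102 N))))))))) (K a213 (Fr a170 a255 l476 (Fr a42 a21 l68 (Fr a106 a234 l390 (Fr a192 a149 l519 (V t581))))) (K a42 (M a48 (F (T t364 (L l174 (L l390 (T t50 (L l28 (L l400 (T t100 N))))))))) (K a106 (M a48 (F (T t364 (L l337 (T t1 (L l174 (L l390 (T t50 N)))))))) (K a170 (M a169 (F (L l390 (T t2024 (L l388 (L l474 (T t2025 (L l390 (L l474 (T t2026 (L l390 (L l474 (T t2027 (L l474 (T t2028 N))))))))))))))) (K a255 (M a16 (F (L l400 (T t112 (L l289 (L l296 (T t98 (L l289 (L l400 (T t113 N))))))))))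 N))))))))))))))))⟩
def e0_63__75_164 : Ent 4 := ⟨[a0, a63], [a75, a169], (M a12 (F (T t122 (T t151 (T t152 (T t153 (K a4 (M a60 (F (T t570 (L l46 (L l50 (L l393 (L l477 (T t67 (T t448 N))))))))) (K a8 (M a60 (F (T t570 (L l393 (L l477 (T t67 (L l52 (L l56 (T t448 N))))))))) (K a21 (M a192 (F (T t156 (L l15 (L l217 (L l347 (T t450 (L l15 (L l217 (L l347 (T t157 N))))))))))) (K a25 (M a192 (F (T t449 (L l15 (L l217 (T t450 (L l217 (T t21 N)))))))) (K a29 (M a192 (F (T t449 (L l217 (L l371 (T t21 (L l78 (L l393 (T t160 N))))))))) (K a38 (M a192 (F (T t156 (L l217 (T t450 (L l217 (T t21 N))))))) (K a42 (M a192 (F (T t449 (L l217 (T t450 (L l56 (L l217 (T t157 N)))))))) (K a46 (M a192 (F (T t449 (L l217 (T t21 (L l26 (L l78 (L l393 (L l408 (T t160 N)))))))))) (K a51 (M a192 (F (T t496 (L l217 (L l415 (T t450 (L l217 (L l439 (T t21 N))))))))) N)))))))))))))))⟩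
def e0_63__75_165 : Ent 4 := ⟨[a0, a63], [a75, a170], (M a12 (F (T t152 (L l402 (T t122 (L l390 (T t151 (L l390 (L l464 (T t153 (K a4 (M a60 (F (T t570 (L l46 (L l50 (T t67 (L l390 (L l392 (T t448 N))))))))) (K a8 (M a60 (L l464 (F (T t67 (L l337 (T t398 (L l52 (L l56 (L l390 (L l392 (T t448 (K a89 (M a251 (F (T t67 (L l337 (L l479 (T t680 (L l52 (L l56 (L l390 (L l392 (T t448 N))))))))))) (K a251 (M a89 (F (T t67 (L l78 (L l316 (T t870 N)))))) N))))))))))))) (K a21 (M a192 (F (L l50 (T t449 (L l390 (T t221 (L l15 (L l220 (L l347 (L l464 (T t157 N))))))))))) (K a25 (M a192 (F (T t449 (L l390 (T t221 (L l15 (L l56 (L l220 (L l464 (T t157 N)))))))))) (K a29 (M a48 (F (T t550 (L l15 (L l337 (L l462 (T t1 (L l390 (T t866 N))))))))) (K a38 (M a192 (F (L l50 (T t449 (L l26 (L l390 (T t221 (L l220 (L l464 (T t157 N)))))))))) (K a42 (M a106 (F (T t2304 (L l78 (L l220 (T t2305 (L l56 (L l178 (L l220 (L l464 (T t2306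 (L l56 (L l178 (L l464 (T t2307 N))))))))))))))) (K a46 (M a48 (F (T t550 (L l337 (L l462 (T t1 (L l26 (L l390 (T t866 N))))))))) (K a51 (M a192 (F (L l513 (T t449 (L l390 (L l415 (T t221 (L l220 (L l464 (T t157 N)))))))))) N)))))))))))))))))))⟩
def e0_63__75_166 : Ent 4 := ⟨[a0, a63], [a75, a171], (M a12 (F (T t122 (T t151 (T t152 (T t153 (K a4 (M a60 (F (T t570 (L l46 (L l50 (L l391 (L l475 (T t67 (T t448 N))))))))) (K a8 (M a60 (F (T t2568 (L l337 (T t398 (L l52 (L l56 (T t448 N)))))))) (K a21 (M a192 (F (T t221 (T t156 (L l15 (L l347 (T t157 N))))))) (K a25 (M a192 (F (T t449 (L l15 (T t450 (L l475 (T t21 N))))))) (K a29 (M a192 (F (T t449 (L l371 (L l475 (T t21 (L l78 (T t160 N)))))))) (K a38 (M a192 (F (T t450 (T t156 (L l475 (T t21 N)))))) (K a42 (M a192 (F (T t449 (T t450 (L l56 (T t157 N)))))) (K a46 (M a192 (F (T t449 (L l475 (T t21 (L l26 (L l78 (L l408 (T t160 N))))))))) (K a51 (M a192 (F (T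 t1681 (L l513 (T t156 (L l415 (T t450 N))))))) N)))))))))))))))⟩
def e0_63__75_167 : Ent 4 := ⟨[a0, a63], [a75, a172], (M a85 (F (T t88 (T t52 (T t89 (T t90 (K a64 (M a240 (F (T t386 (L l176 (T t387 N))))) (K a192 (M a16 (F (T t96 (L l337 (L l339 (T t97 (L l296 (T t98 N)))))))) (K a21 (M a48 (F (T t99 (T t50 (L l47 (T t100 N)))))) (K a149 (M a16 (F (T t173 (L l337 (L l375 (T t97 (L l170 (T t102 N)))))))) (K a213 (Fr a170 a255 l476 (Fr a42 a21 l68 (Fr a106 a234 l390 (Fr a192 a149 l519 (V t581))))) (K a42 (M a48 (F (T t364 (L l390 (T t50 (L l28 (T t100 N))))))) (K a106 (M a48 (F (T t99 (L l337 (T t1 (L l390 (T t50 N))))))) (K a170 (M a16 (F (L l404 (T t113 (L l390 (T t98 (L l337 (L l390 (L l404 (T t97 (L l404 (T t174 N)))))))))))) (K a255 (M a16 (F (T t112 (L l289 (T t113 (L l289 (L l296 (T t98 N)))))))) N)))))))))))))))⟩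
def e0_63__75_168 : Ent 4 := ⟨[a0, a63], [a75, a173], (M a149 (F (T t5 (T t175 (T t176 (T t177 (K a192 (M a53 (F (T t178 (L l236 (T t179 (L l236 (L l296 (T t180 N)))))))) (K a21 (M a48 (F (T t4 (T t13 (L l18 (T t14 N)))))) (K a85 (M a16 (F (T t504 (L l144 (T t190 (L l94 (L l133 (T t278 N)))))))) (K a213 (Fr a106 a192 l519 (Fr a42 a21 l68 (Fr a170 a234 l390 (Fr a255 a85 l476 (V t582))))) (K a42 (M a48 (F (T t187 (L l390 (T t13 (L l54 (T t14 N))))))) (K a106 (M a48 (F (T t48 (L l498 (T t14 (L l390 (L l498 (T t6 (L l390 (T t26 N)))))))))) (K a170 (M a48 (F (T t4 (L l337 (L l462 (L l471 (T t1 (L l390 (T t13 N))))))))) (K a191 (M a204 (F (T t1043 (L l399 (T t1112 N))))) (K a255 (M a16 (F (T t112 (L l266 (T t190 (L l289 (L l296 (T t191 N)))))))) N)))))))))))))))⟩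
def e0_63__75_169 : Ent 4 := ⟨[a0, a63], [a75, a174], (M a60 (F (T t67 (T t43 (T t68 (T t69 (K a20 (M a48 (F (T t64 (L l11 (L l337 (T t1 (L l11 (T t235 N)))))))) (K a40 (M a48 (F (T t64 (L l337 (T t1 (L l52 (T t235 N))))))) (K a21 (M a192 (F (T t72 (L l131 (L l337 (L l347 (T t73 (L l347 (T t74 N))))))))) (K a41 (M a192 (F (T t77 (L l65 (L l470 (T t35 (L l131 (L l337 (T t73 N))))))))) (K a61 (M a192 (F (T t72 (L l65 (L l470 (L l515 (T t35 (T t80 N)))))))) (K a22 (M a192 (F (T t72 (L l470 (T t21 (L l131 (L l337 (T t73 N)))))))) (K a42 (M a192 (F (T t77 (L l131 (L l337 (T t73 (L l22 (T t74 N)))))))) (K a62 (M a192 (F (T t72 (L l470 (T t35 (L l66 (L l516 (T t80 N)))))))) (K a3 (M a192 (F (T t1343 (L l477 (T t79 (L l470 (L l475 (T t35 N)))))))) N)))))))))))))))⟩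
def e0_63__75_170 : Ent 4 := ⟨[a0, a63], [a75, a175], (M a12 (F (T t122 (T t151 (T t152 (T t153 (K a4 (M a60 (F (T t43 (L l337 (L l469 (T t398 (T t448 N))))))) (K a8 (M a60 (F (T t67 (L l337 (L l469 (T t398 (L l52 (L l56 (T t448 N))))))))) (K a21 (M a192 (F (T t221 (T t156 (L l15 (L l347 (T t157 N))))))) (K a25 (M a192 (F (T t449 (L l15 (T t450 (L l469 (T t21 N))))))) (K a29 (M a192 (F (T t449 (L l371 (L l469 (T t21 (L l78 (T t160 N)))))))) (K a38 (M a192 (F (T t450 (T t156 (L l469 (T t21 N)))))) (K a42 (M a192 (F (T t449 (T t450 (L l56 (T t157 N)))))) (K a46 (M a192 (F (T t449 (L l469 (T t21 (L l26 (L l78 (L l408 (T t160 N))))))))) (K a51 (M a192 (F (T t1681 (L l513 (T t156 (L l415 (T t450 N))))))) N)))))))))))))))⟩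
def e0_63__75_171 : Ent 4 := ⟨[a0, a63], [a75, a176], (M a85 (F (T t88 (T t52 (T t89 (L l190 (T t90 (K a64 (M a240 (F (L l190 (T t933 (L l192 (T t387 N)))))) (K a192 (M a16 (F (T t96 (L l337 (L l339 (T t97 (L l296 (T t98 N)))))))) (K a21 (M a240 (F (T t1552 (L l190 (T t933 (L l78 (L l190 (L l192 (T t1385 N))))))))) (K a149 (M a16 (F (T t173 (L l337 (L l375 (T t97 (L l170 (L l227 (T t102 N))))))))) (K a213 (Fr a170 a255 l476 (Fr a42 a21 l68 (Fr a106 a234 l390 (Fr a192 a149 l519 (V t581))))) (K a42 (M a240 (F (T t1552 (L l54 (L l190 (L l390 (T t933 (L l78 (L l190 (L l192 (T t1385 N))))))))))) (K a106 (M a48 (F (T t1699 (L l337 (T t1 (L l190 (L l390 (L l498 (T t2029 N))))))))) (K a170 (M a16 (F (L l404 (T t113 (L l390 (T t98 (L l337 (L l390 (L l404 (T t97 (L l404 (T t174 N)))))))))))) (K a255 (M a16 (F (T t112 (L l289 (T t113 (L l289 (L l296 (T t98 N)))))))) N))))))))))))))))⟩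
def e0_63__75_172 : Ent 4 := ⟨[a0, a63], [a75, a177], (M a85 (F (T t88 (T t52 (T t89 (T t90 (K a64 (M a16 (F (T t258 (L l337 (T t97 (L l116 (T t98 N))))))) (K a192 (M a16 (F (T t96 (L l337 (L l339 (T t97 (L l296 (T t98 N)))))))) (K a21 (M a48 (F (T t99 (L l182 (L l417 (T t50 (L l47 (T t100 N)))))))) (K a149 (M a16 (F (T t173 (L l337 (L l375 (T t97 (L l170 (T t102 N)))))))) (K a213 (Fr a170 a255 l476 (Fr a42 a21 l68 (Fr a106 a234 l390 (Fr a192 a149 l519 (V t581))))) (K a42 (M a48 (F (T t364 (L l182 (L l390 (L l417 (T t50 (L l28 (T t100 N))))))))) (K a106 (M a48 (F (T t99 (L l337 (T t1 (L l182 (L l390 (L l417 (T t50 N))))))))) (K a170 (M a16 (F (L l404 (T t113 (L l390 (T t98 (L l337 (L l390 (L l404 (T t97 (L l404 (T t174 N)))))))))))) (K a255 (M a16 (F (T t112 (L l289 (T t113 (L l289 (L l296 (T t98 N)))))))) N)))))))))))))))⟩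
def e0_63__75_173 : Ent 4 := ⟨[a0, a63], [a75, a178], (M a85 (F (T t88 (T t52 (T t89 (T t90 (K a64 (M a16 (F (T t258 (L l337 (T t97 (L l116 (T t98 N))))))) (K a192 (M a16 (F (T t96 (L l337 (L l339 (T t97 (L l296 (T t98 N)))))))) (K a21 (M a48 (F (T t1699 (L l47 (T t100 (L l182 (T t50 N))))))) (K a149 (M a16 (F (T t173 (L l337 (L l375 (T t97 (L l170 (L l224 (T t102 N))))))))) (K a213 (Fr a170 a255 l476 (Fr a42 a21 l68 (Fr a106 a234 l390 (Fr a192 a149 l519 (V t581))))) (K a42 (M a48 (F (T t364 (L l182 (L l390 (T t50 (L l28 (T t100 N)))))))) (K a106 (M a48 (F (T t364 (L l337 (T t1 (L l182 (L l390 (T t50 N)))))))) (K a170 (M a16 (F (L l404 (T t113 (L l390 (T t98 (L l337 (L l390 (L l404 (T t97 (L l404 (T t174 N)))))))))))) (K a255 (M a16 (F (T t112 (L l289 (T t113 (L l289 (L l296 (T t98 N)))))))) N)))))))))))))))⟩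
def e0_63__75_174 : Ent 4 := ⟨[a0, a63], [a75, a179], (M a85 (F (T t88 (T t52 (T t89 (L l189 (T t90 (K a64 (M a16 (F (T t258 (L l337 (T t97 (L l116 (T t98 N))))))) (K a192 (M a16 (F (T t96 (L l337 (L l339 (T t97 (L l296 (T t98 N)))))))) (K a21 (M a48 (F (T t99 (L l182 (T t50 (L l47 (T t100 N))))))) (K a149 (M a16 (F (T t173 (L l337 (L l375 (T t97 (L l170 (T t102 N)))))))) (K a213 (Fr a170 a255 l476 (Fr a42 a21 l68 (Fr a106 a234 l390 (Fr a192 a149 l519 (V t581))))) (K a42 (M a48 (F (T t364 (L l182 (L l390 (T t50 (L l28 (T t100 N)))))))) (K a106 (M a48 (F (T t99 (L l337 (T t1 (L l182 (L l390 (T t50 N)))))))) (K a170 (M a16 (F (L l404 (T t113 (L l390 (T t98 (L l337 (L l390 (L l404 (T t97 (L l404 (T t174 N)))))))))))) (K a255 (M a16 (F (T t112 (L l289 (T t113 (L l289 (L l296 (T t98 N)))))))) N))))))))))))))))⟩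
def e0_63__75_175 : Ent 4 := ⟨[a0, a63], [a75, a180], (M a85 (F (T t88 (T t52 (T t89 (T t90 (K a64 (M a16 (F (T t258 (L l337 (T t97 (L l116 (T t98 N))))))) (K a192 (M a16 (F (T t96 (L l337 (L l339 (T t97 (L l296 (T t98 N)))))))) (K a21 (M a48 (F (T t99 (L l186 (L l442 (T t50 (L l47 (T t100 N)))))))) (K a149 (M a16 (F (T t173 (L l337 (L l375 (T t97 (L l170 (T t102 N)))))))) (K a213 (Fr a170 a255 l476 (Fr a42 a21 l68 (Fr a106 a234 l390 (Fr a192 a149 l519 (V t581))))) (K a42 (M a48 (F (T t364 (L l186 (L l390 (L l442 (T t50 (L l28 (T t100 N))))))))) (K a106 (M a48 (F (T t99 (L l337 (T t1 (L l186 (L l390 (L l442 (T t50 N))))))))) (K a170 (M a16 (F (L l404 (T t113 (L l390 (T t98 (L l337 (L l390 (L l404 (T t97 (L l404 (T t174 N)))))))))))) (K a255 (M a16 (F (T t112 (L l289 (T t113 (L l289 (L l296 (T t98 N)))))))) N)))))))))))))))⟩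
def e0_63__75_176 : Ent 4 := ⟨[a0, a63], [a75, a181], (M a12 (F (T t122 (T t151 (T t152 (L l423 (T t153 (K a4 (M a60 (F (T t43 (L l337 (L l443 (T t398 (T t448 N))))))) (K a8 (M a60 (F (T t67 (L l337 (L l443 (T t398 (L l52 (L l56 (T t448 N))))))))) (K a21 (M a192 (F (T t156 (L l15 (L l199 (L l347 (T t450 (L l15 (L l199 (L l347 (T t157 N))))))))))) (K a25 (M a192 (F (T t449 (L l15 (L l199 (T t450 (L l199 (T t21 N)))))))) (K a29 (M a192 (F (T t449 (L l199 (L l371 (T t21 (L l78 (L l183 (T t160 N))))))))) (K a38 (M a192 (F (T t156 (L l199 (T t450 (L l199 (T t21 N))))))) (K a42 (M a192 (F (T t449 (L l199 (T t450 (L l56 (L l199 (T t157 N)))))))) (K a46 (M a192 (F (T t449 (L l199 (T t21 (L l26 (L l78 (L l183 (L l408 (T t160 N)))))))))) (K a51 (M a192 (F (T t159 (L l199 (L l415 (T t450 (L l199 (L l439 (T t21 N))))))))) N))))))))))))))))⟩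
def e0_63__75_177 : Ent 4 := ⟨[a0, a63], [a75, a182], (M a149 (F (T t5 (T t175 (T t176 (T t177 (K a192 (M a53 (F (T t178 (L l236 (T t179 (L l183 (L l236 (L l296 (T t180 N))))))))) (K a21 (M a48 (F (T t4 (T t13 (L l18 (T t14 N)))))) (K a85 (M a16 (F (T t504 (L l144 (T t190 (L l94 (L l133 (T t278 N)))))))) (K a213 (Fr a106 a192 l519 (Fr a42 a21 l68 (Fr a170 a234 l390 (Fr a255 a85 l476 (V t582))))) (K a42 (M a48 (F (T t187 (L l390 (T t13 (L l54 (T t14 N))))))) (K a106 (M a48 (F (T t48 (L l498 (T t14 (L l390 (L l422 (L l498 (T t6 (L l390 (T t26 N))))))))))) (K a170 (M a48 (F (T t4 (L l337 (L l462 (T t1 (L l390 (T t13 N)))))))) (K a191 (M a240 (F (T t962 (L l444 (T t963 N))))) (K a255 (M a16 (F (T t112 (L l266 (T t190 (L l289 (L l296 (T t191 N)))))))) N)))))))))))))))⟩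
def e0_63__75_178 : Ent 4 := ⟨[a0, a63], [a75, a183], (M a12 (F (T t122 (T t151 (T t152 (L l421 (T t153 (K a4 (M a60 (F (T t43 (L l337 (T t398 (T t448 N)))))) (K a8 (M a60 (F (T t67 (L l337 (T t398 (L l52 (L l56 (T t448 N)))))))) (K a21 (M a192 (F (L l78 (T t836 (L l15 (L l202 (L l347 (T t450 (L l50 (T t2473 N)))))))))) (K a25 (M a192 (F (L l78 (T t836 (L l15 (L l202 (T t450 (L l189 (T t202 N))))))))) (K a29 (M a192 (F (T t37 (L l78 (T t836 (L l15 (L l202 (L l371 (T t2569 N))))))))) (K a38 (M a192 (F (L l202 (T t450 (L l78 (T t836 (L l189 (T t202 N)))))))) (K a42 (M a192 (F (L l202 (T t450 (L l78 (T t836 (L l26 (L l390 (T t2473 N))))))))) (K a46 (M a192 (F (L l78 (T t836 (L l189 (L l408 (T t202 (L l202 (T t2569 N))))))))) (K a51 (M a192 (F (T t1681 (L l78 (L l513 (T t836 (L l202 (L l415 (T t450 N))))))))) N))))))))))))))))⟩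
def e0_63__75_179 : Ent 4 := ⟨[a0, a63], [a75, a184], (M a85 (F (T t88 (T t52 (T t89 (T t90 (K a64 (M a204 (F (T t1575 (L l204 (T t1576 N))))) (K a192 (M a16 (F (T t96 (L l337 (L l339 (T t97 (L l296 (T t98 N)))))))) (K a21 (M a48 (F (T t1699 (L l47 (T t100 (L l186 (T t50 N))))))) (K a149 (M a16 (F (T t173 (L l337 (L l375 (T t97 (L l170 (L l209 (T t102 N))))))))) (K a213 (Fr a170 a255 l476 (Fr a42 a21 l68 (Fr a106 a234 l390 (Fr a192 a149 l519 (V t581))))) (K a42 (M a48 (F (T t364 (L l186 (L l390 (T t50 (L l28 (T t100 N)))))))) (K a106 (M a48 (F (T t364 (L l337 (T t1 (L l186 (L l390 (T t50 N)))))))) (K a170 (M a16 (F (L l404 (T t113 (L l390 (T t98 (L l337 (L l390 (L l404 (T t97 (L l404 (T t174 N)))))))))))) (K a255 (M a16 (F (T t112 (L l289 (T t113 (L l289 (L l296 (T t98 N)))))))) N)))))))))))))))⟩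
def e0_63__75_180 : Ent 4 := ⟨[a0, a63], [a75, a185], (M a149 (F (T t5 (T t175 (T t176 (T t177 (K a192 (M a53 (F (T t178 (L l236 (T t179 (L l187 (L l236 (L l296 (T t180 N))))))))) (K a21 (M a48 (F (T t4 (T t13 (L l18 (T t14 N)))))) (K a85 (M a16 (F (T t504 (L l144 (T t190 (L l94 (L l133 (T t278 N)))))))) (K a213 (Fr a106 a192 l519 (Fr a42 a21 l68 (Fr a170 a234 l390 (Fr a255 a85 l476 (V t582))))) (K a42 (M a48 (F (T t187 (L l390 (T t13 (L l54 (T t14 N))))))) (K a106 (M a48 (F (T t48 (L l498 (T t14 (L l390 (L l437 (L l498 (T t6 (L l390 (T t26 N))))))))))) (K a170 (M a48 (F (T t4 (L l337 (L l462 (T t1 (L l390 (T t13 N)))))))) (K a191 (M a240 (F (T t962 (L l429 (T t963 N))))) (K a255 (M a16 (F (T t112 (L l266 (T t190 (L l289 (L l296 (T t191 N)))))))) N)))))))))))))))⟩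
def e0_63__75_181 : Ent 4 := ⟨[a0, a63], [a75, a186], (M a12 (F (T t122 (T t151 (T t152 (T t153 (K a4 (M a60 (F (T t43 (L l337 (T t398 (T t448 N)))))) (K a8 (M a60 (F (T t67 (L l337 (T t398 (L l52 (L l56 (T t448 N)))))))) (K a21 (M a192 (F (T t221 (T t156 (L l15 (L l347 (T t157 N))))))) (K a25 (M a192 (F (T t449 (L l15 (T t450 (L l440 (T t21 N))))))) (K a29 (M a192 (F (T t449 (L l371 (L l440 (T t21 (L l78 (T t160 N)))))))) (K a38 (M a192 (F (T t450 (T t156 (L l440 (T t21 N)))))) (K a42 (M a192 (F (T t449 (T t450 (L l56 (T t157 N)))))) (K a46 (M a192 (F (T t449 (L l440 (T t21 (L l26 (L l78 (L l408 (T t160 N))))))))) (K a51 (M a192 (F (T t1681 (L l513 (T t156 (L l415 (T t450 N))))))) N)))))))))))))))⟩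
def e0_63__75_182 : Ent 4 := ⟨[a0, a63], [a75, a187], (M a60 (F (T t67 (T t43 (T t68 (T t69 (K a20 (M a48 (F (T t138 (L l11 (L l337 (T t1 (L l11 (T t235 N)))))))) (K a40 (M a48 (F (T t48 (L l439 (T t64 (L l52 (T t235 N))))))) (K a21 (M a192 (F (T t72 (L l131 (L l337 (L l347 (T t73 (L l347 (T t74 N))))))))) (K a41 (M a192 (F (T t77 (L l65 (L l439 (T t35 (L l131 (L l337 (T t73 N))))))))) (K a61 (M a192 (F (T t72 (L l65 (L l439 (L l515 (T t35 (T t80 N)))))))) (K a22 (M a192 (F (T t72 (L l439 (T t21 (L l131 (L l337 (T t73 N)))))))) (K a42 (M a192 (F (T t77 (L l131 (L l337 (T t73 (L l22 (T t74 N)))))))) (K a62 (M a192 (F (T t72 (L l439 (T t35 (L l66 (L l516 (T t80 N)))))))) (K a3 (M a192 (F (T t1343 (L l477 (T t79 (L l439 (L l475 (T t35 N)))))))) N)))))))))))))))⟩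
def e0_63__75_183 : Ent 4 := ⟨[a0, a63], [a75, a188], (M a85 (F (T t88 (T t52 (T t89 (L l185 (T t90 (K a64 (M a16 (F (T t258 (L l337 (T t97 (L l116 (T t98 N))))))) (K a192 (M a16 (F (T t96 (L l337 (L l339 (T t97 (L l296 (T t98 N)))))))) (K a21 (M a48 (F (T t99 (L l186 (T t50 (L l47 (T t100 N))))))) (K a149 (M a16 (F (T t173 (L l337 (L l375 (T t97 (L l170 (T t102 N)))))))) (K a213 (Fr a170 a255 l476 (Fr a42 a21 l68 (Fr a106 a234 l390 (Fr a192 a149 l519 (V t581))))) (K a42 (M a48 (F (T t364 (L l186 (L l390 (T t50 (L l28 (T t100 N)))))))) (K a106 (M a48 (F (T t99 (L l337 (T t1 (L l186 (L l390 (T t50 N)))))))) (K a170 (M a16 (F (L l404 (T t113 (L l390 (T t98 (L l337 (L l390 (L l404 (T t97 (L l404 (T t174 N)))))))))))) (K a255 (M a16 (F (T t112 (L l289 (T t113 (L l289 (L l296 (T t98 N)))))))) N))))))))))))))))⟩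
def e0_63__75_184 : Ent 4 := ⟨[a0, a63], [a75, a189], (M a12 (F (T t122 (T t151 (T t152 (T t153 (K a4 (M a60 (F (T t43 (L l337 (L l431 (T t398 (T t448 N))))))) (K a8 (M a60 (F (T t67 (L l337 (L l431 (T t398 (L l52 (L l56 (T t448 N))))))))) (K a21 (M a192 (F (T t221 (T t156 (L l15 (L l217 (L l347 (T t157 N)))))))) (K a25 (M a192 (F (T t449 (L l15 (L l217 (T t450 (L l217 (T t21 N)))))))) (K a29 (M a192 (F (T t449 (L l217 (L l371 (T t21 (L l78 (T t160 N)))))))) (K a38 (M a192 (F (T t156 (L l217 (T t450 (L l217 (T t21 N))))))) (K a42 (M a192 (F (T t449 (L l217 (T t450 (L l56 (L l217 (T t157 N)))))))) (K a46 (M a192 (F (T t449 (L l217 (T t21 (L l26 (L l78 (L l408 (T t160 N))))))))) (K a51 (M a192 (F (T t1681 (L l513 (T t156 (L l217 (L l415 (T t450 N)))))))) N)))))))))))))))⟩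
def e0_63__75_185 : Ent 4 := ⟨[a0, a63], [a75, a190], (M a12 (F (T t122 (T t151 (T t152 (T t153 (K a4 (M a60 (F (T t43 (L l337 (T t398 (T t448 N)))))) (K a8 (M a60 (F (T t67 (L l337 (T t398 (L l52 (L l56 (T t448 N)))))))) (K a21 (M a192 (F (T t221 (T t156 (L l15 (L l347 (T t157 N))))))) (K a25 (M a192 (F (T t449 (L l15 (T t450 (L l434 (T t21 N))))))) (K a29 (M a192 (F (T t449 (L l371 (L l434 (T t21 (L l78 (T t160 N)))))))) (K a38 (M a192 (F (T t450 (T t156 (L l434 (T t21 N)))))) (K a42 (M a192 (F (T t449 (T t450 (L l56 (T t157 N)))))) (K a46 (M a192 (F (T t449 (L l434 (T t21 (L l26 (L l78 (L l408 (T t160 N))))))))) (K a51 (M a192 (F (T t1681 (L l513 (T t156 (L l415 (T t450 N))))))) N)))))))))))))))⟩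
def e0_63__75_186 : Ent 4 := ⟨[a0, a63], [a75, a191], (M a12 (F (T t122 (T t151 (T t152 (T t153 (K a4 (M a60 (F (T t43 (L l337 (T t398 (T t448 N)))))) (K a8 (M a60 (F (T t67 (L l337 (T t398 (L l52 (L l56 (T t448 N)))))))) (K a21 (M a192 (F (T t221 (L l50 (T t449 (L l15 (L l220 (L l347 (T t157 N))))))))) (K a25 (M a192 (F (T t449 (T t221 (L l15 (L l220 (T t35 N))))))) (K a29 (M a192 (F (T t449 (L l15 (L l220 (L l371 (T t35 (L l78 (L l189 (T t160 N)))))))))) (K a38 (M a192 (F (L l50 (T t449 (L l26 (T t221 (L l50 (L l220 (T t35 N))))))))) (K a42 (M a192 (F (T t449 (L l26 (L l390 (T t221 (L l56 (L l220 (T t157 N))))))))) (K a46 (M a192 (F (T t449 (L l220 (T t35 (L l26 (L l78 (L l189 (L l408 (T t160 N)))))))))) (K a51 (M a192 (F (L l513 (T t449 (L l415 (T t221 (L l220 (L l439 (T t35 N))))))))) N)))))))))))))))⟩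
def e0_63__75_187 : Ent 4 := ⟨[a0, a63], [a75, a192], (M a12 (F (T t150 (L l489 (T t122 (L l489 (T t151 (L l489 (T t152 (L l489 (T t153 (K a4 (M a60 (F (T t570 (L l46 (L l50 (L l309 (T t67 (T t448 N)))))))) (K a8 (M a60 (F (T t570 (L l309 (T t67 (L l52 (L l56 (T t448 N)))))))) (K a21 (M a255 (F (T t2030 (L l272 (L l347 (T t2031 (L l15 (L l272 (T t2032 N))))))))) (K a25 (M a48 (F (T t865 (L l15 (L l337 (L l339 (T t1 (L l12 (L l56 (T t866 N)))))))))) (K a29 (M a48 (F (T t145 (L l15 (L l337 (L l339 (T t1 (T t866 N)))))))) (K a38 (M a48 (F (T t867 (L l26 (L l337 (L l339 (T t2 (L l21 (L l50 (T t868 N)))))))))) (K a42 (M a255 (F (T t2033 (L l26 (L l232 (T t2034 (L l56 (L l272 (L l390 (T t2032 N)))))))))) (K a46 (M a48 (F (T t867 (L l337 (L l339 (T t1 (L l26 (T t866 N)))))))) (K a51 (M a16 (L l489 (F (T t112 (L l39 (L l514 (T t871 (T t872 (K a145 (M a98 (F (T t112 (L l39 (L l514 (T t871 (T t872 N))))))) (K a98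 (M a145 (F (T t112 (L l39 (L l514 (T t871 (T t872 N))))))) N)))))))))) N))))))))))))))))))))⟩
def e0_63__75_188 : Ent 4 := ⟨[a0, a63], [a75, a193], (M a85 (F (T t52 (L l228 (L l293 (T t88 (L l293 (T t89 (L l228 (T t90 (K a64 (M a16 (F (T t258 (L l337 (T t97 (L l116 (L l293 (T t98 N)))))))) (K a192 (M a195 (F (T t883 (L l309 (T t2035 (L l131 (L l293 (L l296 (T t894 (L l305 (T t2036 N))))))))))) (K a21 (M a48 (F (T t99 (T t50 (L l47 (T t100 N)))))) (K a149 (M a61 (F (L l305 (T t505 (L l220 (L l293 (T t506 (L l217 (T t2037 N))))))))) (K a213 (Fr a170 a255 l476 (Fr a42 a21 l68 (Fr a106 a234 l390 (Fr a192 a149 l519 (V t581))))) (K a42 (M a48 (F (T t364 (L l390 (T t50 (L l28 (T t100 N))))))) (K a106 (M a48 (F (T t99 (L l337 (T t1 (L l390 (T t50 N))))))) (K a170 (M a16 (F (L l404 (T t113 (L l293 (L l390 (T t98 (L l337 (L l390 (L l404 (T t97 (L l233 (L l404 (T t174 N)))))))))))))) (K a255 (M a16 (F (T t112 (L l289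 (T t113 (L l289 (L l293 (L l296 (T t98 N))))))))) N)))))))))))))))))))⟩
def e0_63__75_189 : Ent 4 := ⟨[a0, a63], [a75, a194], (M a12 (F (T t122 (T t151 (T t152 (T t153 (K a4 (M a60 (F (T t43 (L l336 (L l337 (T t398 (T t448 N))))))) (K a8 (M a60 (F (T t67 (L l336 (L l337 (T t398 (L l52 (L l56 (T t448 N))))))))) (K a21 (M a192 (F (T t156 (L l15 (L l270 (L l347 (T t450 (L l15 (L l270 (L l347 (T t157 N))))))))))) (K a25 (M a192 (F (T t449 (L l15 (L l270 (T t450 (T t21 N))))))) (K a29 (M a192 (F (T t449 (L l371 (T t21 (L l78 (L l516 (T t160 N)))))))) (K a38 (M a192 (F (T t21 (T t156 (L l270 (T t450 N)))))) (K a42 (M a192 (F (T t449 (L l270 (T t450 (L l56 (L l270 (T t157 N)))))))) (K a46 (M a192 (F (T t449 (T t21 (L l26 (L l78 (L l408 (L l516 (T t160 N))))))))) (K a51 (M a192 (F (T t47 (L l513 (T t156 (L l270 (L l415 (T t450 N)))))))) N)))))))))))))))⟩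
def e0_63__75_190 : Ent 4 := ⟨[a0, a63], [a75, a195], (M a15 (F (T t1254 (L l488 (T t716 (L l488 (T t731 (L l488 (T t723 (L l488 (T t732 (K a48 (M a192 (L l488 (F (T t57 (L l235 (L l512 (T t2795 (L l78 (L l273 (L l412 (T t2796 (K a97 (M a146 (F (T t2821 (L l295 (L l440 (T t35 (L l273 (L l412 (T t2822 N))))))))) (K a146 (M a97 (F (T t2821 (L l295 (L l440 (T t35 (L l273 (L l412 (T t2822 N))))))))) N))))))))))))) (K a5 (M a12 (F (T t2823 (L l47 (L l487 (T t122 (L l5 (T t722 N)))))))) (K a21 (M a192 (F (L l273 (T t2797 (L l47 (L l235 (T t2795 (L l47 (T t2798 N))))))))) (K a37 (M a192 (F (T t2824 (L l47 (L l235 (T t2795 (L l47 (L l295 (T t35 N))))))))) (K a10 (M a12 (F (T t2825 (L l487 (T t122 (L l54 (T t722 N))))))) (K a26 (M a192 (F (T t2821 (L l18 (L l295 (T t35 (L l78 (L l273 (T t2796 N))))))))) (K a42 (M a192 (F (T t2821 (L l78 (L l273 (L l390 (T t2796 (L l28 (L l390 (T t2798 N)))))))))) (K a31 (M a192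 (F (T t1681 (L l235 (T t2795 (L l18 (L l375 (T t2801 N)))))))) (K a47 (M a192 (F (T t2821 (L l295 (T t35 (T t2801 N)))))) N))))))))))))))))))))⟩
def e0_63__75_191 : Ent 4 := ⟨[a0, a63], [a75, a196], (M a85 (F (T t52 (L l232 (L l278 (T t88 (L l278 (T t89 (L l232 (T t90 (K a64 (M a16 (F (T t258 (L l337 (T t97 (L l116 (L l278 (T t98 N)))))))) (K a192 (M a204 (F (T t1993 (L l334 (T t1575 (L l278 (L l296 (T t1685 (L l310 (T t2309 N)))))))))) (K a21 (M a48 (F (T t99 (T t50 (L l47 (T t100 N)))))) (K a149 (M a55 (F (L l310 (T t2039 (L l220 (L l278 (T t2310 (L l131 (L l202 (T t2311 N)))))))))) (K a213 (Fr a170 a255 l476 (Fr a42 a21 l68 (Fr a106 a234 l390 (Fr a192 a149 l519 (V t581))))) (K a42 (M a48 (F (T t364 (L l390 (T t50 (L l28 (T t100 N))))))) (K a106 (M a48 (F (T t99 (L l337 (T t1 (L l390 (T t50 N))))))) (K a170 (M a16 (F (L l404 (T t113 (L l278 (L l390 (T t98 (L l337 (L l390 (L l404 (T t97 (L l229 (L l404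 (T t174 N)))))))))))))) (K a255 (M a16 (F (T t112 (L l289 (T t113 (L l278 (L l289 (L l296 (T t98 N))))))))) N)))))))))))))))))))⟩
def e0_63__75_192 : Ent 4 := ⟨[a0, a63], [a75, a197], (M a85 (F (T t52 (L l236 (L l275 (T t88 (L l275 (T t89 (L l236 (T t90 (K a64 (M a48 (F (T t50 (L l275 (T t568 N))))) (K a192 (M a207 (F (T t2056 (L l337 (L l339 (T t2057 (L l275 (L l296 (L l484 (T t2058 (L l337 (L l339 (T t2059 N))))))))))))) (K a21 (M a48 (F (T t99 (T t50 (L l47 (L l236 (L l491 (T t100 N)))))))) (K a149 (M a53 (F (L l311 (T t178 (L l220 (L l275 (T t1560 (L l199 (T t2060 N))))))))) (K a213 (Fr a170 a255 l476 (Fr a42 a21 l68 (Fr a106 a234 l390 (Fr a192 a149 l519 (V t581))))) (K a42 (M a48 (F (T t364 (L l390 (T t50 (L l28 (L l236 (L l491 (T t100 N))))))))) (K a106 (M a48 (F (T t99 (L l337 (L l411 (T t3 (L l390 (T t50 N)))))))) (K a170 (M a4 (F (L l464 (T t130 (L l275 (L l390 (T t131 (L l390 (L l464 (T t519 (L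 l464 (T t938 N)))))))))))) (K a255 (M a16 (F (T t504 (L l236 (L l289 (L l491 (T t113 (L l275 (L l289 (L l296 (T t98 N))))))))))) N)))))))))))))))))))⟩
def e0_63__75_193 : Ent 4 := ⟨[a0, a63], [a75, a198], (M a85 (F (T t88 (T t52 (T t89 (T t90 (K a64 (M a16 (F (T t258 (L l337 (T t97 (L l116 (T t98 N))))))) (K a192 (M a16 (F (T t96 (L l337 (L l339 (T t97 (L l296 (T t98 N)))))))) (K a21 (M a48 (F (T t99 (T t50 (L l47 (L l234 (T t100 N))))))) (K a149 (M a16 (F (T t173 (L l337 (L l375 (T t97 (L l170 (T t102 N)))))))) (K a213 (Fr a170 a255 l476 (Fr a42 a21 l68 (Fr a106 a234 l390 (Fr a192 a149 l519 (V t581))))) (K a42 (M a48 (F (T t364 (L l390 (T t50 (L l28 (L l234 (T t100 N)))))))) (K a106 (M a48 (F (T t99 (L l337 (T t1 (L l390 (T t50 N))))))) (K a170 (M a16 (F (L l390 (L l404 (T t112 (L l390 (T t98 (L l234 (L l404 (T t113 (L l229 (L l404 (T t174 N))))))))))))) (K a255 (M a16 (F (T t112 (L l234 (L l289 (T t113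 (L l289 (L l296 (T t98 N))))))))) N)))))))))))))))⟩
def e0_63__75_194 : Ent 4 := ⟨[a0, a63], [a75, a199], (M a85 (F (T t88 (T t52 (T t89 (T t90 (K a64 (M a16 (F (T t260 (L l337 (T t97 (L l116 (T t98 N))))))) (K a192 (M a16 (F (T t260 (L l337 (L l339 (T t97 (L l296 (T t98 N)))))))) (K a21 (M a48 (F (T t99 (T t50 (L l47 (T t100 N)))))) (K a149 (M a16 (F (T t112 (L l235 (L l314 (T t173 (L l170 (T t102 N)))))))) (K a213 (Fr a170 a255 l476 (Fr a42 a21 l68 (Fr a106 a234 l390 (Fr a192 a149 l519 (V t581))))) (K a42 (M a48 (F (T t364 (L l390 (T t50 (L l28 (T t100 N))))))) (K a106 (M a48 (F (T t99 (L l337 (T t1 (L l390 (T t50 N))))))) (K a170 (M a16 (F (L l404 (T t113 (L l390 (T t98 (L l337 (L l390 (L l404 (T t97 (L l229 (L l235 (L l404 (T t174 N)))))))))))))) (K a255 (M a16 (F (T t112 (L l289 (T t113 (L l289 (L l296 (T t98 N)))))))) N)))))))))))))))⟩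
def e0_63__75_195 : Ent 4 := ⟨[a0, a63], [a75, a200], (M a60 (F (T t67 (T t43 (T t68 (T t69 (K a20 (M a48 (F (T t64 (L l11 (L l337 (T t1 (L l11 (L l496 (T t235 N))))))))) (K a40 (M a48 (F (T t64 (L l337 (T t1 (L l52 (L l496 (T t235 N)))))))) (K a21 (M a192 (F (T t77 (L l131 (L l337 (L l347 (T t73 (L l347 (T t74 N))))))))) (K a41 (M a192 (F (T t77 (L l65 (L l284 (T t35 (L l131 (L l337 (T t73 N))))))))) (K a61 (M a192 (F (T t77 (L l65 (L l284 (L l515 (T t35 (L l496 (L l501 (T t80 N)))))))))) (K a22 (M a192 (F (T t77 (T t21 (L l131 (L l337 (T t73 N))))))) (K a42 (M a192 (F (T t77 (L l131 (L l337 (T t73 (L l22 (T t74 N)))))))) (K a62 (M a192 (F (T t77 (L l284 (T t35 (L l66 (L l496 (L l501 (L l516 (T t80 N)))))))))) (K a3 (M a192 (F (T t237 (L l280 (L l477 (T t79 (L l284 (L l475 (T t35 N))))))))) N)))))))))))))))⟩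
def e0_63__75_196 : Ent 4 := ⟨[a0, a63], [a75, a201], (M a85 (F (T t88 (T t52 (T t89 (T t90 (K a64 (M a16 (F (T t258 (L l337 (T t97 (L l116 (T t98 N))))))) (K a192 (M a16 (F (T t96 (L l337 (L l339 (T t97 (L l296 (T t98 N)))))))) (K a21 (M a48 (F (T t99 (T t50 (L l47 (L l230 (T t100 N))))))) (K a149 (M a16 (F (T t173 (L l337 (L l375 (T t97 (L l170 (T t102 N)))))))) (K a213 (Fr a170 a255 l476 (Fr a42 a21 l68 (Fr a106 a234 l390 (Fr a192 a149 l519 (V t581))))) (K a42 (M a48 (F (T t364 (L l390 (T t50 (L l28 (L l230 (T t100 N)))))))) (K a106 (M a48 (F (T t99 (L l337 (T t1 (L l390 (T t50 N))))))) (K a170 (M a16 (F (L l390 (L l404 (T t112 (L l390 (T t98 (L l230 (L l404 (T t113 (L l233 (L l404 (T t174 N))))))))))))) (K a255 (M a16 (F (T t112 (L l230 (L l289 (T t113 (L l289 (L l296 (T t98 N))))))))) N)))))))))))))))⟩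
def e0_63__75_197 : Ent 4 := ⟨[a0, a63], [a75, a202], (M a60 (F (T t67 (T t43 (T t68 (T t69 (K a20 (M a48 (F (T t64 (L l11 (L l318 (L l337 (T t1 (L l11 (T t235 N))))))))) (K a40 (M a48 (F (T t64 (L l318 (L l337 (T t1 (L l52 (T t235 N)))))))) (K a21 (M a192 (F (T t72 (L l131 (L l337 (L l347 (T t73 (L l347 (T t74 N))))))))) (K a41 (M a192 (F (T t79 (L l65 (L l282 (T t35 (L l131 (L l337 (T t73 N))))))))) (K a61 (M a192 (F (T t72 (L l65 (L l282 (L l515 (T t35 (L l498 (T t80 N))))))))) (K a22 (M a192 (F (T t72 (T t21 (L l131 (L l337 (T t73 N))))))) (K a42 (M a192 (F (T t77 (L l131 (L l337 (T t73 (L l22 (T t74 N)))))))) (K a62 (M a192 (F (T t72 (L l282 (T t35 (L l66 (L l498 (L l516 (T t80 N))))))))) (K a3 (M a106 (F (T t2792 (L l234 (L l282 (T t1513 N)))))) N)))))))))))))))⟩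
def e0_63__75_198 : Ent 4 := ⟨[a0, a63], [a75, a203], (M a85 (L l319 (F (T t88 (T t52 (T t89 (T t90 (K a64 (M a1 (L l319 (F (T t2826 (T t534 (L l76 (T t1500 (K a11 (M a139 (F (T t534 (L l235 (T t2827 N))))) (K a139 (M a11 (F (T t534 (L l285 (L l337 (T t2808 N)))))) N))))))))) (K a192 (M a1 (L l319 (F (T t2828 (L l514 (T t534 (L l296 (T t1500 (K a11 (M a139 (F (L l514 (T t534 (L l235 (L l236 (L l296 (T t2827 N)))))))) (K a139 (M a11 (F (T t538 (L l285 (L l296 (L l337 (L l339 (T t2808 N)))))))) N)))))))))) (K a21 (M a3 (L l319 (F (T t2829 (L l235 (L l337 (T t355 (L l11 (T t376 (K a11 (M a139 (F (T t2830 (L l11 (T t2062 N))))) (K a139 (M a11 (F (T t693 (L l11 (L l499 (T t2809 N)))))) N))))))))))) (K a149 (M a1 (L l319 (F (T t2806 (L l515 (T t534 (L l217 (T t2807 (K a11 (M a139 (F (L l515 (T t534 (L l235 (T t2827 N)))))) (K a139 (M a11 (F (T t538 (L l285 (L l337 (T t2808 N)))))) N)))))))))) (K a213 (Fr a170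 a255 l476 (Fr a42 a21 l68 (Fr a106 a234 l390 (Fr a192 a149 l519 (V t581))))) (K a42 (M a3 (L l319 (F (T t664 (L l235 (L l337 (L l390 (T t355 (L l66 (T t376 (K a11 (M a139 (F (T t664 (L l83 (T t2633 (L l83 (L l320 (T t2831 N)))))))) (K a139 (M a11 (F (T t664 (L l56 (L l499 (T t2809 N)))))) N)))))))))))) (K a106 (M a48 (L l319 (F (T t99 (L l337 (T t1 (L l390 (T t50 (K a11 (M a139 (F (T t2832 (L l390 (T t50 N))))) (K a139 (M a11 (F (T t364 (L l337 (T t1 (L l390 (T t50 N))))))) N)))))))))) (K a170 (M a3 (L l319 (F (T t358 (L l474 (T t376 (L l390 (T t377 (L l390 (L l474 (T t357 (K a11 (M a139 (F (L l83 (T t2833 (L l55 (L l390 (T t377 N))))))) (K a139 (M a11 (F (T t2834 (L l390 (L l474 (T t357 N)))))) N))))))))))))) (K a255 (M a1 (L l319 (F (T t538 (L l261 (T t263 (L l261 (L l296 (T t1500 (K a11 (M a139 (F (L l434 (T t534 (L l261 (L l289 (T t2835 (L l261 (L l296 (T t1500 N)))))))))) (K a139 (M a11 (F (T t2810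 (L l261 (L l296 (T t1500 N)))))) N))))))))))) (K a11 (M a139 (F (T t88 (T t52 (T t89 (T t90 (K a64 (M a12 (F (T t124 (L l2 (L l320 (T t572 N)))))) (K a192 (M a1 (F (L l514 (T t534 (L l235 (L l236 (L l296 (T t2827 N)))))))) (K a21 (M a48 (F (T t2832 (T t50 N)))) (K a149 (M a48 (F (T t2832 (L l220 (T t50 N))))) (K a213 (Fr a170 a255 l476 (Fr a42 a21 l68 (Fr a106 a234 l390 (Fr a192 a149 l519 (V t581))))) (K a42 (M a48 (F (T t364 (L l390 (T t50 (L l28 (L l230 (T t100 N)))))))) (K a106 (M a48 (F (T t2832 (L l390 (T t50 N))))) (K a170 (M a3 (F (L l83 (T t2833 (L l55 (L l390 (T t377 N))))))) (K a255 (M a23 (F (L l296 (T t2836 (L l55 (L l83 (L l290 (T t2837 N)))))))) N))))))))))))))) (K a139 (M a11 (F (T t88 (T t52 (T t89 (T t90 (K a64 (M a8 (F (T t428 (L l131 (L l285 (T t2815 N)))))) (K a192 (M a8 (F (T t428 (L l131 (L l285 (L l296 (T t2815 N))))))) (K a21 (M a240 (F (T t386 (L l285 (T t2805 N))))) (K a149 (M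 a240 (F (L l220 (T t386 (L l285 (T t2805 N)))))) (K a213 (Fr a170 a255 l476 (Fr a42 a21 l68 (Fr a106 a234 l390 (Fr a192 a149 l519 (V t581))))) (K a42 (M a3 (F (T t664 (L l56 (L l499 (T t2809 N)))))) (K a106 (M a8 (F (T t428 (L l131 (L l132 (L l285 (T t2815 N))))))) (K a170 (M a5 (F (L l462 (T t2816 (L l390 (T t2817 N)))))) (K a255 (M a1 (F (T t2810 (L l261 (L l296 (T t1500 N)))))) N))))))))))))))) N))))))))))))))))))⟩
def e0_63__75_199 : Ent 4 := ⟨[a0, a63], [a75, a204], (M a12 (F (T t150 (L l513 (T t122 (L l513 (T t151 (L l513 (T t152 (L l513 (T t153 (K a4 (M a60 (F (T t570 (L l46 (L l50 (L l333 (T t67 (T t448 N)))))))) (K a8 (M a60 (F (T t570 (L l333 (T t67 (L l52 (L l56 (T t448 N)))))))) (K a21 (M a89 (F (T t862 (L l50 (L l302 (T t863 (L l50 (T t864 N)))))))) (K a25 (M a48 (F (T t865 (L l15 (L l327 (L l337 (T t1 (L l12 (L l56 (T t866 N)))))))))) (K a29 (M a48 (F (T t145 (L l15 (L l327 (L l337 (T t1 (T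 t866 N)))))))) (K a38 (M a48 (F (T t867 (L l26 (L l327 (L l337 (T t2 (L l21 (L l50 (T t868 N)))))))))) (K a42 (M a89 (F (T t869 (L l26 (L l78 (L l232 (T t870 (L l26 (T t864 N))))))))) (K a46 (M a48 (F (T t867 (L l327 (L l337 (T t1 (L l26 (T t866 N)))))))) (K a51 (M a16 (L l513 (F (T t112 (L l39 (L l502 (T t871 (T t872 (K a153 (M a102 (F (T t112 (L l39 (L l502 (T t871 (T t872 N))))))) (K a102 (M a153 (F (T t112 (L l39 (L l502 (T t871 (T t872 N))))))) N)))))))))) N))))))))))))))))))))⟩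
def e0_63__75_200 : Ent 4 := ⟨[a0, a63], [a75, a205], (M a85 (F (T t88 (T t52 (T t89 (T t90 (K a64 (M a16 (F (T t260 (L l337 (T t97 (L l116 (T t98 N))))))) (K a192 (M a16 (F (T t260 (L l337 (L l339 (T t97 (L l296 (T t98 N)))))))) (K a21 (M a48 (F (T t99 (T t50 (L l47 (T t100 N)))))) (K a149 (M a16 (F (T t112 (L l231 (L l329 (T t173 (L l170 (T t102 N)))))))) (K a213 (Fr a170 a255 l476 (Fr a42 a21 l68 (Fr a106 a234 l390 (Fr a192 a149 l519 (V t581))))) (K a42 (M a48 (F (T t364 (L l390 (T t50 (L l28 (T t100 N))))))) (K a106 (M a48 (F (T t99 (L l337 (T t1 (L l390 (T t50 N))))))) (K a170 (M a16 (F (L l404 (T t113 (L l390 (T t98 (L l337 (L l390 (L l404 (T t97 (L l231 (L l233 (L l404 (T t174 N)))))))))))))) (K a255 (M a16 (F (T t112 (L l289 (T t113 (L l289 (L l296 (T t98 N)))))))) N)))))))))))))))⟩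
def e0_63__75_201 : Ent 4 := ⟨[a0, a63], [a75, a206], (M a149 (F (T t5 (T t175 (T t176 (T t177 (K a192 (M a53 (F (T t178 (L l236 (T t179 (L l236 (L l296 (T t180 N)))))))) (K a21 (M a48 (F (T t4 (T t13 (L l18 (T t14 N)))))) (K a85 (M a16 (F (T t504 (L l144 (T t190 (L l94 (L l133 (T t278 N)))))))) (K a213 (Fr a106 a192 l519 (Fr a42 a21 l68 (Fr a170 a234 l390 (Fr a255 a85 l476 (V t582))))) (K a42 (M a48 (F (L l54 (T t4 (L l390 (T t13 (L l54 (T t14 N)))))))) (K a106 (M a48 (F (T t48 (L l498 (T t14 (L l390 (L l498 (T t6 (L l390 (T t26 N)))))))))) (K a170 (M a48 (F (T t4 (L l337 (L l462 (T t1 (L l390 (T t13 N)))))))) (K a191 (M a204 (F (T t1043 (L l504 (T t1112 N))))) (K a255 (M a16 (F (T t112 (L l266 (T t190 (L l289 (L l296 (T t191 N)))))))) N)))))))))))))))⟩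
def e0_63__75_202 : Ent 4 := ⟨[a0, a63], [a75, a207], (M a12 (F (T t150 (L l511 (T t122 (L l511 (T t151 (L l511 (T t152 (L l511 (T t153 (K a4 (M a60 (F (T t570 (L l46 (L l50 (L l331 (T t67 (T t448 N)))))))) (K a8 (M a60 (F (T t570 (L l331 (T t67 (L l52 (L l56 (T t448 N)))))))) (K a21 (M a192 (F (L l231 (T t156 (L l15 (L l301 (L l347 (T t450 (L l15 (L l347 (T t157 N))))))))))) (K a25 (M a192 (F (T t159 (L l15 (L l301 (T t450 (L l289 (T t21 N)))))))) (K a29 (M a192 (F (T t1681 (L l231 (T t156 (L l78 (T t160 N))))))) (K a38 (M a192 (F (T t161 (L l231 (T t156 (L l289 (T t21 N))))))) (K a42 (M a192 (F (T t161 (L l231 (T t156 (L l56 (T t157 N))))))) (K a46 (M a192 (F (T t57 (L l231 (T t156 (L l26 (L l78 (L l408 (T t160 N))))))))) (K a51 (M a192 (L l511 (F (T t496 (L l301 (L l415 (T t450 (L l289 (L l439 (T t21 (K a103 (M a155 (F (T t159 (L l289 (L l439 (T t35 (L l78 (L l301 (L l415 (T t543 N)))))))))) (K a155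 (M a103 (F (T t159 (L l289 (L l439 (T t35 (L l78 (L l301 (L l415 (T t543 N)))))))))) N)))))))))))) N))))))))))))))))))))⟩
def e0_63__75_203 : Ent 4 := ⟨[a0, a63], [a75, a208], (M a85 (F (T t52 (L l246 (L l268 (T t88 (L l246 (T t89 (L l268 (T t90 (K a64 (M a16 (F (T t112 (L l84 (L l246 (T t96 (T t102 N))))))) (K a192 (M a240 (F (T t2082 (L l484 (T t933 (L l246 (L l296 (T t1550 (L l340 (T t2083 N)))))))))) (K a21 (M a48 (F (T t873 (L l47 (L l246 (T t100 (L l268 (T t50 N)))))))) (K a149 (M a31 (F (L l340 (T t2084 (L l220 (L l246 (T t2085 (L l170 (T t2086 N))))))))) (K a213 (Fr a170 a255 l476 (Fr a42 a21 l68 (Fr a106 a234 l390 (Fr a192 a149 l519 (V t581))))) (K a42 (M a48 (F (L l340 (T t364 (L l268 (L l390 (T t50 (L l28 (L l246 (T t100 N)))))))))) (K a106 (M a48 (F (L l337 (T t1 (L l104 (L l246 (T t509 (L l268 (L l390 (T t50 N)))))))))) (K a170 (M a4 (F (L l464 (T t130 (L l246 (L l390 (T t131 (L l390 (L l464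 (T t519 (L l238 (L l464 (T t938 N))))))))))))) (K a255 (M a4 (F (T t129 (L l265 (T t130 (L l246 (L l265 (L l296 (T t131 N))))))))) N)))))))))))))))))))⟩
def e0_63__75_204 : Ent 4 := ⟨[a0, a63], [a75, a209], (M a85 (F (T t52 (L l243 (L l272 (T t88 (L l243 (T t89 (L l272 (T t90 (K a64 (M a16 (F (T t258 (L l337 (T t97 (L l116 (L l243 (T t98 N)))))))) (K a192 (M a243 (F (T t2087 (L l131 (L l489 (T t2088 (L l131 (L l243 (L l296 (L l334 (T t2089 (L l489 (T t2090 N))))))))))))) (K a21 (M a48 (F (T t99 (T t50 (L l47 (T t100 N)))))) (K a149 (M a29 (F (L l341 (T t2091 (L l220 (L l243 (T t2092 (L l167 (T t2093 N))))))))) (K a213 (Fr a170 a255 l476 (Fr a42 a21 l68 (Fr a106 a234 l390 (Fr a192 a149 l519 (V t581))))) (K a42 (M a48 (F (T t364 (L l390 (T t50 (L l28 (T t100 N))))))) (K a106 (M a48 (F (T t99 (L l337 (T t1 (L l390 (T t50 N))))))) (K a170 (M a16 (F (L l404 (T t113 (L l243 (L l390 (T t98 (L l337 (L l390 (L l404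 (T t97 (L l404 (T t174 N))))))))))))) (K a255 (M a16 (F (T t112 (L l289 (T t113 (L l243 (L l289 (L l296 (T t98 N))))))))) N)))))))))))))))))))⟩
def e0_63__75_205 : Ent 4 := ⟨[a0, a63], [a75, a210], (M a85 (F (T t88 (T t52 (T t89 (T t90 (K a64 (M a16 (F (T t258 (L l337 (T t97 (L l116 (T t98 N))))))) (K a192 (M a16 (F (T t96 (L l337 (L l339 (T t97 (L l296 (T t98 N)))))))) (K a21 (M a48 (F (T t99 (L l273 (T t50 (L l47 (T t100 N))))))) (K a149 (M a16 (F (T t173 (L l337 (L l375 (T t97 (L l170 (T t102 N)))))))) (K a213 (Fr a170 a255 l476 (Fr a42 a21 l68 (Fr a106 a234 l390 (Fr a192 a149 l519 (V t581))))) (K a42 (M a48 (F (T t364 (L l273 (L l390 (T t50 (L l28 (T t100 N)))))))) (K a106 (M a48 (F (T t99 (L l337 (T t1 (L l273 (L l390 (T t50 N)))))))) (K a170 (M a16 (F (L l404 (T t113 (L l390 (T t98 (L l337 (L l390 (L l404 (T t97 (L l404 (T t174 N)))))))))))) (K a255 (M a16 (F (T t112 (L l289 (T t113 (L l289 (L l296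 (T t98 N)))))))) N)))))))))))))))⟩
def e0_63__75_206 : Ent 4 := ⟨[a0, a63], [a75, a211], (M a85 (F (T t88 (T t52 (T t89 (T t90 (K a64 (M a48 (F (T t50 (L l245 (T t568 N))))) (K a192 (M a16 (F (T t112 (L l245 (T t96 (L l245 (L l296 (T t98 N)))))))) (K a21 (M a48 (F (T t873 (L l47 (L l245 (T t100 (T t50 N))))))) (K a149 (M a16 (F (T t112 (L l245 (T t173 (L l170 (T t102 N))))))) (K a213 (Fr a170 a255 l476 (Fr a42 a21 l68 (Fr a106 a234 l390 (Fr a192 a149 l519 (V t581))))) (K a42 (M a48 (F (L l344 (T t364 (L l390 (T t50 (L l28 (L l245 (T t100 N))))))))) (K a106 (M a48 (F (L l337 (T t1 (L l104 (L l245 (T t509 (L l390 (T t50 N))))))))) (K a170 (M a16 (F (L l390 (L l404 (T t112 (L l245 (L l390 (T t98 (L l245 (L l404 (T t113 (L l245 (L l404 (T t174 N)))))))))))))) (K a255 (M a16 (F (T t112 (L l245 (L l289 (T t113 (L l245 (L l289 (L l296 (T t98 N)))))))))) N)))))))))))))))⟩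
def e0_63__75_207 : Ent 4 := ⟨[a0, a63], [a75, a212], (M a85 (F (T t52 (L l239 (L l292 (T t88 (L l239 (T t89 (L l292 (T t90 (K a64 (M a16 (F (T t258 (L l337 (T t97 (L l116 (L l239 (T t98 N)))))))) (K a192 (M a252 (F (T t2094 (L l514 (T t93 (L l239 (L l296 (L l309 (T t170 (L l514 (T t2095 N))))))))))) (K a21 (M a48 (F (T t99 (T t50 (L l47 (T t100 N)))))) (K a149 (M a23 (F (L l346 (T t1941 (L l220 (L l239 (L l337 (T t2096 (L l131 (L l163 (T t2097 N))))))))))) (K a213 (Fr a170 a255 l476 (Fr a42 a21 l68 (Fr a106 a234 l390 (Fr a192 a149 l519 (V t581))))) (K a42 (M a48 (F (T t364 (L l390 (T t50 (L l28 (T t100 N))))))) (K a106 (M a48 (F (T t99 (L l337 (T t1 (L l390 (T t50 N))))))) (K a170 (M a16 (F (L l404 (T t113 (L l239 (L l390 (T t98 (L l337 (L l390 (L l404 (T t97 (L l404 (T t174 N))))))))))))) (K a255 (M a16 (F (T t112 (L l289 (T t113 (L l239 (L l289 (L l296 (T t98 N))))))))) N)))))))))))))))))))⟩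
def e0_63__75_208 : Ent 4 := ⟨[a0, a63], [a75, a213], (M a12 (F (T t151 (L l347 (T t122 (L l347 (T t152 (T t153 (K a4 (M a60 (F (T t43 (L l337 (T t398 (T t448 N)))))) (K a8 (M a60 (F (T t570 (L l347 (T t67 (L l52 (L l56 (T t448 N)))))))) (K a21 (M a85 (F (T t1370 (L l15 (L l278 (T t574 (T t124 N))))))) (K a25 (M a192 (F (T t449 (L l15 (L l347 (T t450 (L l347 (T t21 N)))))))) (K a29 (M a192 (F (T t156 (L l347 (L l371 (T t21 (L l131 (L l347 (L l371 (T t2623 N)))))))))) (K a38 (M a192 (F (T t156 (L l347 (T t450 (L l347 (T t21 N))))))) (K a42 (M a192 (F (T t449 (L l347 (T t450 (L l56 (L l278 (L l347 (T t157 N))))))))) (K a46 (M a192 (F (T t156 (L l347 (T t21 (L l131 (L l347 (T t2623 N)))))))) (K a51 (M a192 (F (T t496 (L l347 (L l415 (T t450 (L l347 (L l439 (T t21 N))))))))) N)))))))))))))))))⟩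
def e0_63__75_209 : Ent 4 := ⟨[a0, a63], [a75, a214], (M a85 (F (T t90 (L l239 (T t88 (L l294 (T t52 (L l239 (T t89 (K a64 (M a16 (F (T t258 (L l337 (T t97 (L l116 (L l239 (T t98 N)))))))) (K a192 (M a16 (F (T t96 (L l337 (L l339 (T t97 (L l239 (L l296 (T t98 N))))))))) (K a21 (M a48 (F (T t99 (T t50 (L l47 (T t100 N)))))) (K a149 (M a16 (F (T t173 (L l337 (L l375 (T t97 (L l170 (T t102 N)))))))) (K a213 (Fr a170 a255 l476 (Fr a42 a21 l68 (Fr a106 a234 l390 (Fr a192 a149 l519 (V t581))))) (K a42 (M a48 (F (T t364 (L l390 (T t50 (L l28 (T t100 N))))))) (K a106 (M a48 (F (T t99 (L l337 (T t1 (L l390 (T t50 N))))))) (K a170 (M a16 (F (L l404 (T t113 (L l239 (L l390 (T t98 (L l337 (L l390 (L l404 (T t97 (L l404 (T t174 N))))))))))))) (K a255 (M a16 (F (T t112 (L l289 (T t113 (L l239 (L l289 (L l296 (T t98 N))))))))) N))))))))))))))))))⟩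
def e0_63__75_210 : Ent 4 := ⟨[a0, a63], [a75, a215], (M a149 (F (T t175 (L l239 (T t5 (L l239 (L l295 (T t176 (L l295 (T t177 (K a192 (M a53 (F (T t178 (L l236 (T t179 (L l236 (L l239 (L l296 (T t180 N))))))))) (K a21 (M a48 (F (T t4 (T t13 (L l18 (T t14 N)))))) (K a85 (M a20 (F (L l349 (T t238 (L l144 (L l239 (T t1269 (L l87 (T t1270 N))))))))) (K a213 (Fr a106 a192 l519 (Fr a42 a21 l68 (Fr a170 a234 l390 (Fr a255 a85 l476 (V t582))))) (K a42 (M a48 (F (T t187 (L l390 (T t13 (L l54 (T t14 N))))))) (K a106 (M a48 (F (T t48 (L l498 (T t14 (L l239 (L l390 (L l498 (T t6 (L l239 (L l245 (L l390 (T t26 N))))))))))))) (K a170 (M a48 (F (T t4 (L l337 (L l462 (T t1 (L l390 (T t13 N)))))))) (K a191 (M a16 (F (T t112 (T t190 (L l213 (L l239 (L l245 (T t191 N)))))))) (K a255 (M a195 (F (L l434 (T t1271 (L l475 (T t1114 (L l131 (L l239 (L l296 (L l434 (T t1272 (L l131 (L l133 (L l349 (T t1273 N))))))))))))))) N)))))))))))))))))))⟩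
def e0_63__75_211 : Ent 4 := ⟨[a0, a63], [a75, a216], (M a85 (F (T t88 (T t52 (T t89 (T t90 (K a64 (M a16 (F (T t258 (L l337 (T t97 (L l116 (T t98 N))))))) (K a192 (M a16 (F (T t96 (L l337 (L l339 (T t97 (L l296 (T t98 N)))))))) (K a21 (M a48 (F (T t99 (L l298 (T t50 (L l47 (T t100 N))))))) (K a149 (M a16 (F (T t173 (L l337 (L l375 (T t97 (L l170 (T t102 N)))))))) (K a213 (Fr a170 a255 l476 (Fr a42 a21 l68 (Fr a106 a234 l390 (Fr a192 a149 l519 (V t581))))) (K a42 (M a48 (F (T t364 (L l298 (L l390 (T t50 (L l28 (T t100 N)))))))) (K a106 (M a48 (F (T t99 (L l337 (T t1 (L l298 (L l390 (T t50 N)))))))) (K a170 (M a16 (F (L l404 (T t113 (L l390 (T t98 (L l337 (L l390 (L l404 (T t97 (L l404 (T t174 N)))))))))))) (K a255 (M a16 (F (T t112 (L l289 (T t113 (L l289 (L l296 (T t98 N)))))))) N)))))))))))))))⟩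
def e0_63__75_212 : Ent 4 := ⟨[a0, a63], [a75, a217], (M a85 (F (T t90 (L l243 (T t88 (L l284 (T t52 (L l243 (T t89 (K a64 (M a16 (F (T t258 (L l337 (T t97 (L l116 (L l243 (T t98 N)))))))) (K a192 (M a16 (F (T t96 (L l337 (L l339 (T t97 (L l243 (L l296 (T t98 N))))))))) (K a21 (M a48 (F (T t99 (T t50 (L l47 (T t100 N)))))) (K a149 (M a16 (F (T t173 (L l337 (L l375 (T t97 (L l170 (T t102 N)))))))) (K a213 (Fr a170 a255 l476 (Fr a42 a21 l68 (Fr a106 a234 l390 (Fr a192 a149 l519 (V t581))))) (K a42 (M a48 (F (T t364 (L l390 (T t50 (L l28 (T t100 N))))))) (K a106 (M a48 (F (T t99 (L l337 (T t1 (L l390 (T t50 N))))))) (K a170 (M a16 (F (L l404 (T t113 (L l243 (L l390 (T t98 (L l337 (L l390 (L l404 (T t97 (L l404 (T t174 N))))))))))))) (K a255 (M a16 (F (T t112 (L l289 (T t113 (L l243 (L l289 (L l296 (T t98 N))))))))) N))))))))))))))))))⟩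
def e0_63__75_213 : Ent 4 := ⟨[a0, a63], [a75, a218], (M a85 (F (T t90 (L l246 (T t88 (L l282 (T t52 (L l246 (T t89 (K a64 (M a240 (F (T t933 (L l246 (T t2099 N))))) (K a192 (M a48 (F (T t1243 (L l337 (L l339 (T t1 (L l268 (L l303 (T t50 N))))))))) (K a21 (M a48 (F (T t1243 (L l47 (L l246 (L l282 (T t100 (L l303 (T t50 N))))))))) (K a149 (M a48 (F (T t364 (L l337 (T t2 (L l220 (L l303 (T t50 N)))))))) (K a213 (Fr a170 a255 l476 (Fr a42 a21 l68 (Fr a106 a234 l390 (Fr a192 a149 l519 (V t581))))) (K a42 (M a48 (F (T t364 (L l390 (T t567 (L l28 (L l246 (L l282 (T t100 N))))))))) (K a106 (M a48 (F (T t364 (L l337 (T t1 (L l303 (L l390 (T t50 N)))))))) (K a170 (M a4 (F (L l464 (T t130 (L l246 (L l390 (T t131 (L l390 (L l464 (T t519 (L l464 (T t938 N)))))))))))) (K a255 (M a4 (F (T t129 (L l265 (T t130 (L l246 (L l265 (L l296 (T t131 N))))))))) N))))))))))))))))))⟩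
def e0_63__75_214 : Ent 4 := ⟨[a0, a63], [a75, a219], (M a85 (F (T t88 (T t52 (T t89 (T t90 (K a64 (M a16 (F (T t112 (L l84 (L l245 (T t96 (L l116 (L l245 (T t98 N))))))))) (K a192 (M a16 (F (T t1924 (L l337 (L l339 (T t97 (L l245 (L l296 (T t98 N))))))))) (K a21 (M a48 (F (T t1243 (L l47 (L l245 (T t100 (T t50 N))))))) (K a149 (M a16 (F (T t112 (L l245 (L l301 (T t173 (L l170 (L l356 (T t102 N))))))))) (K a213 (Fr a170 a255 l476 (Fr a42 a21 l68 (Fr a106 a234 l390 (Fr a192 a149 l519 (V t581))))) (K a42 (M a48 (F (T t364 (L l390 (T t50 (L l28 (L l245 (T t100 N)))))))) (K a106 (M a48 (F (T t364 (L l337 (T t1 (L l390 (T t50 N))))))) (K a170 (M a16 (F (L l390 (L l404 (T t112 (L l245 (L l390 (T t98 (L l245 (L l404 (T t113 (L l245 (L l301 (L l404 (T t174 N))))))))))))))) (K a255 (M a16 (F (T t112 (L l245 (L l289 (T t113 (L l245 (L l289 (L l296 (T t98 N)))))))))) N)))))))))))))))⟩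
def e0_63__75_215 : Ent 4 := ⟨[a0, a63], [a75, a220], (M a85 (F (T t88 (T t52 (T t89 (T t90 (K a64 (M a48 (F (T t50 (L l241 (T t568 N))))) (K a192 (M a16 (F (T t112 (L l241 (T t96 (L l241 (L l296 (T t98 N)))))))) (K a21 (M a48 (F (T t873 (L l47 (L l241 (T t100 (T t50 N))))))) (K a149 (M a16 (F (T t112 (L l241 (T t173 (L l170 (T t102 N))))))) (K a213 (Fr a170 a255 l476 (Fr a42 a21 l68 (Fr a106 a234 l390 (Fr a192 a149 l519 (V t581))))) (K a42 (M a48 (F (L l364 (T t364 (L l390 (T t50 (L l28 (L l241 (T t100 N))))))))) (K a106 (M a48 (F (L l337 (T t1 (L l104 (L l241 (T t509 (L l390 (T t50 N))))))))) (K a170 (M a16 (F (L l390 (L l404 (T t112 (L l241 (L l390 (T t98 (L l241 (L l404 (T t113 (L l241 (L l404 (T t174 N)))))))))))))) (K a255 (M a16 (F (T t112 (L l241 (L l289 (T t113 (L l241 (L l289 (L l296 (T t98 N)))))))))) N)))))))))))))))⟩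
def e0_63__75_216 : Ent 4 := ⟨[a0, a63], [a75, a221], (M a149 (F (T t175 (L l243 (T t5 (L l243 (L l290 (T t176 (L l290 (T t177 (K a192 (M a53 (F (T t178 (L l236 (T t179 (L l236 (L l243 (L l296 (T t180 N))))))))) (K a21 (M a48 (F (T t4 (T t13 (L l18 (T t14 N)))))) (K a85 (M a17 (F (L l359 (T t1279 (L l144 (L l243 (T t1280 (L l91 (T t1281 N))))))))) (K a213 (Fr a106 a192 l519 (Fr a42 a21 l68 (Fr a170 a234 l390 (Fr a255 a85 l476 (V t582))))) (K a42 (M a48 (F (T t187 (L l390 (T t13 (L l54 (T t14 N))))))) (K a106 (M a48 (F (T t48 (L l498 (T t14 (L l243 (L l390 (L l498 (T t6 (L l241 (L l243 (L l390 (T t26 N))))))))))))) (K a170 (M a48 (F (T t4 (L l337 (L l462 (T t1 (L l390 (T t13 N)))))))) (K a191 (M a16 (F (T t112 (T t190 (L l213 (L l241 (L l243 (T t191 N)))))))) (K a255 (M a204 (F (T t1282 (L l470 (T t1283 (L l243 (L l296 (L l439 (T t1055 (L l359 (T t1284 N))))))))))) N)))))))))))))))))))⟩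
def e0_63__75_217 : Ent 4 := ⟨[a0, a63], [a75, a222], (M a85 (F (T t88 (T t52 (T t89 (T t90 (K a64 (M a16 (F (T t112 (L l84 (L l241 (T t96 (L l116 (L l241 (T t98 N))))))))) (K a192 (M a16 (F (T t1924 (L l337 (L l339 (T t97 (L l241 (L l296 (T t98 N))))))))) (K a21 (M a48 (F (T t1243 (L l47 (L l241 (T t100 (T t50 N))))))) (K a149 (M a16 (F (T t112 (L l241 (L l291 (T t173 (L l170 (L l366 (T t102 N))))))))) (K a213 (Fr a170 a255 l476 (Fr a42 a21 l68 (Fr a106 a234 l390 (Fr a192 a149 l519 (V t581))))) (K a42 (M a48 (F (T t364 (L l390 (T t50 (L l28 (L l241 (T t100 N)))))))) (K a106 (M a48 (F (T t364 (L l337 (T t1 (L l390 (T t50 N))))))) (K a170 (M a16 (F (L l390 (L l404 (T t112 (L l241 (L l390 (T t98 (L l241 (L l404 (T t113 (L l241 (L l291 (L l404 (T t174 N))))))))))))))) (K a255 (M a16 (F (T t112 (L l241 (L l289 (T t113 (L l241 (L l289 (L l296 (T t98 N)))))))))) N)))))))))))))))⟩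
def e0_63__75_218 : Ent 4 := ⟨[a0, a63], [a75, a223], (M a149 (F (T t175 (L l246 (T t5 (L l246 (L l289 (T t176 (L l289 (T t177 (K a192 (M a53 (F (T t178 (L l236 (L l289 (L l368 (T t179 (L l236 (L l246 (L l296 (T t180 N))))))))))) (K a21 (M a48 (F (T t4 (T t13 (L l18 (L l289 (L l368 (T t14 N)))))))) (K a85 (M a16 (F (L l455 (T t112 (L l144 (L l246 (T t190 (L l94 (L l133 (T t278 N)))))))))) (K a213 (Fr a106 a192 l519 (Fr a42 a21 l68 (Fr a170 a234 l390 (Fr a255 a85 l476 (V t582))))) (K a42 (M a48 (F (T t11 (L l390 (T t13 (L l54 (L l289 (L l368 (T t14 N))))))))) (K a106 (M a48 (F (L l337 (T t1 (L l104 (L l144 (L l246 (L l289 (L l361 (L l390 (T t1285 (L l289 (L l368 (L l498 (T t14 N))))))))))))))) (K a170 (M a48 (F (T t4 (L l337 (L l462 (T t1 (L l390 (T t13 N)))))))) (K a191 (M a16 (F (T t112 (L l246 (T t190 (L l133 (T t278 N))))))) (K a255 (M a207 (F (T t1286 (L l337 (L l469 (T t1287 (L l246 (L l296 (T t1288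 (L l361 (T t1289 N))))))))))) N)))))))))))))))))))⟩
def e0_63__75_219 : Ent 4 := ⟨[a0, a63], [a75, a224], (M a12 (F (T t122 (T t151 (T t152 (T t153 (K a4 (M a60 (F (T t43 (L l337 (T t398 (T t448 N)))))) (K a8 (M a60 (F (T t68 (L l337 (T t398 (L l52 (L l56 (T t448 N)))))))) (K a21 (M a192 (F (T t156 (L l15 (L l248 (L l347 (T t450 (L l15 (L l248 (L l347 (T t157 N))))))))))) (K a25 (M a192 (F (T t449 (L l15 (L l248 (T t450 (T t21 N))))))) (K a29 (M a192 (F (T t449 (L l371 (T t21 (L l78 (L l411 (T t160 N)))))))) (K a38 (M a192 (F (T t21 (T t156 (L l248 (T t450 N)))))) (K a42 (M a192 (F (T t449 (L l248 (T t450 (L l56 (L l248 (T t157 N)))))))) (K a46 (M a192 (F (T t449 (T t21 (L l26 (L l78 (L l408 (L l411 (T t160 N))))))))) (K a51 (M a192 (F (T t47 (L l513 (T t156 (L l248 (L l415 (T t450 N)))))))) N)))))))))))))))⟩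
def e0_63__75_220 : Ent 4 := ⟨[a0, a63], [a75, a225], (M a85 (F (T t88 (T t52 (T t89 (T t90 (K a64 (M a16 (F (T t258 (L l337 (T t97 (L l116 (T t98 N))))))) (K a192 (M a16 (F (T t96 (L l337 (L l339 (T t97 (L l296 (T t98 N)))))))) (K a21 (M a48 (F (T t99 (L l273 (T t50 (L l47 (T t100 N))))))) (K a149 (M a16 (F (T t173 (L l337 (L l375 (T t97 (L l170 (T t102 N)))))))) (K a213 (Fr a170 a255 l476 (Fr a42 a21 l68 (Fr a106 a234 l390 (Fr a192 a149 l519 (V t581))))) (K a42 (M a48 (F (T t364 (L l273 (L l390 (T t50 (L l28 (T t100 N)))))))) (K a106 (M a48 (F (T t99 (L l337 (T t1 (L l273 (L l390 (T t50 N)))))))) (K a170 (M a16 (F (L l404 (T t113 (L l390 (T t98 (L l337 (L l390 (L l404 (T t97 (L l404 (T t174 N)))))))))))) (K a255 (M a16 (F (T t112 (L l289 (T t113 (L l289 (L l296 (T t98 N)))))))) N)))))))))))))))⟩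
def e0_63__75_221 : Ent 4 := ⟨[a0, a63], [a75, a226], (M a60 (F (T t67 (T t43 (T t68 (T t69 (K a20 (M a48 (F (T t64 (L l11 (L l337 (T t1 (L l11 (T t235 N)))))))) (K a40 (M a48 (F (T t64 (L l337 (T t1 (L l52 (T t235 N))))))) (K a21 (M a192 (F (T t72 (L l131 (L l337 (L l347 (T t73 (L l347 (T t74 N))))))))) (K a41 (M a192 (F (T t79 (L l65 (L l254 (T t35 (L l131 (L l337 (T t73 N))))))))) (K a61 (M a192 (F (T t72 (L l65 (L l254 (L l515 (T t35 (L l408 (T t80 N))))))))) (K a22 (M a192 (F (T t72 (T t21 (L l131 (L l337 (T t73 N))))))) (K a42 (M a192 (F (T t77 (L l131 (L l337 (T t73 (L l22 (T t74 N)))))))) (K a62 (M a192 (F (T t72 (L l254 (T t35 (L l66 (L l408 (L l516 (T t80 N))))))))) (K a3 (M a106 (F (T t2792 (L l254 (L l270 (T t1513 N)))))) N)))))))))))))))⟩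
def e0_63__75_222 : Ent 4 := ⟨[a0, a63], [a75, a227], (M a85 (F (T t88 (T t52 (T t89 (T t90 (K a64 (M a48 (F (T t50 (L l380 (T t568 N))))) (K a192 (M a16 (F (L l380 (T t96 (T t966 (L l337 (L l339 (L l380 (T t97 N))))))))) (K a21 (M a48 (F (T t873 (L l47 (L l380 (T t100 (T t50 N))))))) (K a149 (M a16 (F (T t666 (L l337 (L l375 (L l380 (T t97 (L l170 (T t102 N))))))))) (K a213 (Fr a170 a255 l476 (Fr a42 a21 l68 (Fr a106 a234 l390 (Fr a192 a149 l519 (V t581))))) (K a42 (M a48 (F (L l255 (T t364 (L l390 (T t50 (L l28 (L l380 (T t100 N))))))))) (K a106 (M a48 (F (T t48 (L l104 (L l380 (T t509 (L l390 (T t50 N)))))))) (K a170 (M a16 (F (L l380 (L l404 (T t113 (L l390 (T t98 (L l337 (L l380 (L l390 (L l404 (T t97 (L l380 (L l404 (T t174 N))))))))))))))) (K a255 (M a16 (F (L l380 (T t112 (L l289 (L l296 (T t98 (L l289 (L l380 (T t113 N)))))))))) N)))))))))))))))⟩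
def e0_63__75_223 : Ent 4 := ⟨[a0, a63], [a75, a228], (M a85 (F (T t88 (T t52 (T t89 (T t90 (K a64 (M a16 (F (T t258 (L l337 (T t97 (L l116 (T t98 N))))))) (K a192 (M a16 (F (T t96 (L l337 (L l339 (T t97 (L l296 (T t98 N)))))))) (K a21 (M a48 (F (T t99 (L l298 (T t50 (L l47 (T t100 N))))))) (K a149 (M a16 (F (T t173 (L l337 (L l375 (T t97 (L l170 (T t102 N)))))))) (K a213 (Fr a170 a255 l476 (Fr a42 a21 l68 (Fr a106 a234 l390 (Fr a192 a149 l519 (V t581))))) (K a42 (M a48 (F (T t364 (L l298 (L l390 (T t50 (L l28 (T t100 N)))))))) (K a106 (M a48 (F (T t99 (L l337 (T t1 (L l298 (L l390 (T t50 N)))))))) (K a170 (M a16 (F (L l404 (T t113 (L l390 (T t98 (L l337 (L l390 (L l404 (T t97 (L l404 (T t174 N)))))))))))) (K a255 (M a16 (F (T t112 (L l289 (T t113 (L l289 (L l296 (T t98 N)))))))) N)))))))))))))))⟩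
def e0_63__75_224 : Ent 4 := ⟨[a0, a63], [a75, a229], (M a149 (F (T t177 (L l275 (T t5 (L l256 (T t175 (L l275 (T t176 (K a192 (M a29 (F (T t956 (L l272 (T t641 (L l272 (L l275 (L l296 (T t957 N))))))))) (K a21 (M a48 (F (T t1267 (L l18 (L l256 (L l275 (T t14 (L l303 (T t13 N))))))))) (K a85 (M a16 (F (T t504 (L l144 (L l303 (T t190 (L l94 (L l133 (T t278 N))))))))) (K a213 (Fr a106 a192 l519 (Fr a42 a21 l68 (Fr a170 a234 l390 (Fr a255 a85 l476 (V t582))))) (K a42 (M a48 (F (T t11 (L l390 (T t1274 (L l54 (L l256 (L l275 (T t14 N))))))))) (K a106 (M a12 (F (T t122 (L l408 (T t649 (L l275 (L l390 (L l408 (T t960 (L l275 (L l390 (T t961 N)))))))))))) (K a170 (M a48 (F (T t11 (L l337 (L l462 (T t1 (L l303 (L l390 (T t13 N))))))))) (K a191 (M a240 (F (T t962 (L l275 (T t2009 N))))) (K a255 (M a16 (F (T t112 (L l266 (L l303 (T t190 (L l275 (L l289 (L l296 (T t191 N)))))))))) N))))))))))))))))))⟩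
def e0_63__75_225 : Ent 4 := ⟨[a0, a63], [a75, a230], (M a85 (F (T t90 (L l278 (T t88 (L l254 (T t52 (L l278 (T t89 (K a64 (M a16 (F (T t258 (L l337 (T t97 (L l116 (L l278 (T t98 N)))))))) (K a192 (M a16 (F (T t96 (L l337 (L l339 (T t97 (L l278 (L l296 (T t98 N))))))))) (K a21 (M a48 (F (T t99 (T t50 (L l47 (T t100 N)))))) (K a149 (M a16 (F (T t173 (L l337 (L l375 (T t97 (L l170 (T t102 N)))))))) (K a213 (Fr a170 a255 l476 (Fr a42 a21 l68 (Fr a106 a234 l390 (Fr a192 a149 l519 (V t581))))) (K a42 (M a48 (F (T t364 (L l390 (T t50 (L l28 (T t100 N))))))) (K a106 (M a48 (F (T t99 (L l337 (T t1 (L l390 (T t50 N))))))) (K a170 (M a16 (F (L l404 (T t113 (L l278 (L l390 (T t98 (L l337 (L l390 (L l404 (T t97 (L l404 (T t174 N))))))))))))) (K a255 (M a16 (F (T t112 (L l289 (T t113 (L l278 (L l289 (L l296 (T t98 N))))))))) N))))))))))))))))))⟩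
def e0_63__75_226 : Ent 4 := ⟨[a0, a63], [a75, a231], (M a85 (F (T t88 (T t52 (T t89 (T t90 (K a64 (M a16 (F (T t260 (L l337 (T t97 (L l116 (T t98 N))))))) (K a192 (M a16 (F (T t260 (L l337 (L l339 (T t97 (L l296 (T t98 N)))))))) (K a21 (M a48 (F (T t99 (T t50 (L l47 (T t100 N)))))) (K a149 (M a16 (F (T t112 (L l301 (T t173 (L l170 (T t102 N))))))) (K a213 (Fr a170 a255 l476 (Fr a42 a21 l68 (Fr a106 a234 l390 (Fr a192 a149 l519 (V t581))))) (K a42 (M a48 (F (L l28 (T t99 (L l390 (T t50 (L l28 (T t100 N)))))))) (K a106 (M a48 (F (T t99 (L l337 (T t1 (L l390 (T t50 N))))))) (K a170 (M a16 (F (L l404 (T t113 (L l390 (T t98 (L l337 (L l390 (L l404 (T t97 (L l301 (L l404 (T t174 N))))))))))))) (K a255 (M a16 (F (T t112 (L l289 (T t113 (L l289 (L l296 (T t98 N)))))))) N)))))))))))))))⟩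
def e0_63__75_227 : Ent 4 := ⟨[a0, a63], [a75, a232], (M a12 (F (T t122 (T t151 (T t152 (T t153 (K a4 (M a60 (F (T t69 (L l337 (T t398 (L l388 (T t448 N))))))) (K a8 (M a60 (F (T t68 (L l337 (T t398 (L l52 (L l56 (L l388 (T t448 N))))))))) (K a21 (M a192 (F (T t156 (L l15 (L l347 (T t450 (L l15 (L l347 (T t157 N))))))))) (K a25 (M a192 (F (T t156 (L l15 (T t450 (T t21 N)))))) (K a29 (M a192 (F (T t156 (L l371 (T t21 (L l78 (L l393 (T t160 N)))))))) (K a38 (M a192 (F (T t450 (T t156 (T t21 N))))) (K a42 (M a192 (F (T t156 (T t450 (L l56 (T t157 N)))))) (K a46 (M a192 (F (T t156 (T t21 (L l26 (L l78 (L l393 (L l408 (T t160 N))))))))) (K a51 (M a192 (F (T t47 (L l513 (T t156 (L l415 (T t450 N))))))) N)))))))))))))))⟩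
def e0_63__75_228 : Ent 4 := ⟨[a0, a63], [a75, a233], (M a85 (F (T t90 (L l293 (T t88 (L l250 (T t52 (L l293 (T t89 (K a64 (M a16 (F (T t258 (L l337 (T t97 (L l116 (L l293 (T t98 N)))))))) (K a192 (M a16 (F (T t96 (L l337 (L l339 (T t97 (L l293 (L l296 (T t98 N))))))))) (K a21 (M a48 (F (T t99 (T t50 (L l47 (T t100 N)))))) (K a149 (M a16 (F (T t173 (L l337 (L l375 (T t97 (L l170 (T t102 N)))))))) (K a213 (Fr a170 a255 l476 (Fr a42 a21 l68 (Fr a106 a234 l390 (Fr a192 a149 l519 (V t581))))) (K a42 (M a48 (F (T t364 (L l390 (T t50 (L l28 (T t100 N))))))) (K a106 (M a48 (F (T t99 (L l337 (T t1 (L l390 (T t50 N))))))) (K a170 (M a16 (F (L l404 (T t113 (L l293 (L l390 (T t98 (L l337 (L l390 (L l404 (T t97 (L l404 (T t174 N))))))))))))) (K a255 (M a16 (F (T t112 (L l289 (T t113 (L l289 (L l293 (L l296 (T t98 N))))))))) N))))))))))))))))))⟩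
def e0_63__75_229 : Ent 4 := ⟨[a0, a63], [a75, a234], (M a12 (F (T t122 (L l390 (T t151 (T t152 (L l390 (T t153 (K a4 (M a60 (F (T t570 (L l46 (L l50 (T t67 (L l390 (T t448 N)))))))) (K a8 (M a60 (F (T t68 (L l337 (T t398 (L l52 (L l56 (L l390 (T t448 N))))))))) (K a21 (M a192 (F (T t156 (L l15 (L l254 (L l347 (T t450 (L l15 (L l254 (L l347 (T t157 N))))))))))) (K a25 (M a192 (F (L l390 (T t202 (T t156 (L l15 (L l254 (T t450 N)))))))) (K a29 (M a192 (F (T t156 (L l390 (T t202 (L l78 (L l390 (T t2625 N)))))))) (K a38 (M a192 (F (T t156 (L l254 (T t450 (L l390 (T t202 N))))))) (K a42 (M a106 (F (L l254 (T t2418 (L l78 (T t2305 (L l56 (L l254 (T t2415 N))))))))) (K a46 (M a192 (F (T t156 (L l390 (L l408 (T t202 (L l78 (L l390 (L l408 (T t2625 N)))))))))) (K a51 (M a192 (F (T t159 (L l254 (L l415 (T t450 (L l390 (L l439 (T t202 N))))))))) N)))))))))))))))))⟩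
def e0_63__75_230 : Ent 4 := ⟨[a0, a63], [a75, a235], (M a12 (F (T t122 (T t151 (T t152 (T t153 (K a4 (M a60 (F (T t69 (L l337 (T t398 (L l392 (T t448 N))))))) (K a8 (M a60 (F (T t68 (L l337 (T t398 (L l52 (L l56 (L l392 (T t448 N))))))))) (K a21 (M a192 (F (T t221 (T t156 (L l15 (L l347 (T t157 N))))))) (K a25 (M a192 (F (T t449 (L l15 (T t450 (L l295 (T t21 N))))))) (K a29 (M a192 (F (T t449 (L l295 (L l371 (T t21 (L l78 (T t160 N)))))))) (K a38 (M a192 (F (T t450 (T t156 (L l295 (T t21 N)))))) (K a42 (M a192 (F (T t449 (T t450 (L l56 (T t157 N)))))) (K a46 (M a192 (F (T t449 (L l295 (T t21 (L l26 (L l78 (L l408 (T t160 N))))))))) (K a51 (M a192 (F (T t1681 (L l513 (T t156 (L l415 (T t450 N))))))) N)))))))))))))))⟩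
def e0_63__75_231 : Ent 4 := ⟨[a0, a63], [a75, a236], (M a85 (F (T t88 (T t52 (T t89 (T t90 (K a64 (M a48 (F (T t50 (L l400 (T t568 N))))) (K a192 (M a16 (F (L l400 (T t96 (T t966 (L l337 (L l339 (L l400 (T t97 N))))))))) (K a21 (M a48 (F (T t873 (L l47 (L l400 (T t100 (T t50 N))))))) (K a149 (M a16 (F (T t666 (L l337 (L l375 (L l400 (T t97 (L l170 (T t102 N))))))))) (K a213 (Fr a170 a255 l476 (Fr a42 a21 l68 (Fr a106 a234 l390 (Fr a192 a149 l519 (V t581))))) (K a42 (M a48 (F (L l251 (T t364 (L l390 (T t50 (L l28 (L l400 (T t100 N))))))))) (K a106 (M a48 (F (T t48 (L l104 (L l400 (T t509 (L l390 (T t50 N)))))))) (K a170 (M a16 (F (L l400 (L l404 (T t113 (L l390 (T t98 (L l337 (L l390 (L l400 (L l404 (T t97 (L l400 (L l404 (T t174 N))))))))))))))) (K a255 (M a16 (F (L l400 (T t112 (L l289 (L l296 (T t98 (L l289 (L l400 (T t113 N)))))))))) N)))))))))))))))⟩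
def e0_63__75_232 : Ent 4 := ⟨[a0, a63], [a75, a237], (M a85 (F (T t88 (T t52 (T t89 (T t90 (K a64 (M a16 (F (T t260 (L l337 (T t97 (L l116 (T t98 N))))))) (K a192 (M a16 (F (T t260 (L l337 (L l339 (T t97 (L l296 (T t98 N)))))))) (K a21 (M a48 (F (T t99 (T t50 (L l47 (T t100 N)))))) (K a149 (M a16 (F (T t112 (L l291 (T t173 (L l170 (T t102 N))))))) (K a213 (Fr a170 a255 l476 (Fr a42 a21 l68 (Fr a106 a234 l390 (Fr a192 a149 l519 (V t581))))) (K a42 (M a48 (F (L l28 (T t99 (L l390 (T t50 (L l28 (T t100 N)))))))) (K a106 (M a48 (F (T t99 (L l337 (T t1 (L l390 (T t50 N))))))) (K a170 (M a16 (F (L l404 (T t113 (L l390 (T t98 (L l337 (L l390 (L l404 (T t97 (L l291 (L l404 (T t174 N))))))))))))) (K a255 (M a16 (F (T t112 (L l289 (T t113 (L l289 (L l296 (T t98 N)))))))) N)))))))))))))))⟩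
def e0_63__75_233 : Ent 4 := ⟨[a0, a63], [a75, a238], (M a60 (F (T t67 (T t43 (T t68 (T t69 (K a20 (M a48 (F (T t64 (L l11 (L l337 (T t1 (L l11 (T t235 N)))))))) (K a40 (M a48 (F (T t64 (L l337 (T t1 (L l52 (T t235 N))))))) (K a21 (M a192 (F (T t72 (L l131 (L l337 (L l347 (T t73 (L l347 (T t74 N))))))))) (K a41 (M a192 (F (T t77 (L l65 (L l254 (L l290 (T t35 (L l131 (L l337 (T t73 N)))))))))) (K a61 (M a192 (F (T t72 (L l65 (L l254 (L l290 (L l515 (T t35 (T t80 N))))))))) (K a22 (M a192 (F (T t72 (L l290 (T t21 (L l131 (L l337 (T t73 N)))))))) (K a42 (M a192 (F (T t77 (L l131 (L l337 (T t73 (L l22 (T t74 N)))))))) (K a62 (M a192 (F (T t72 (L l254 (L l290 (T t35 (L l66 (L l516 (T t80 N))))))))) (K a3 (M a192 (F (T t81 (L l477 (T t79 (L l254 (L l290 (L l475 (T t35 N))))))))) N)))))))))))))))⟩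
def e0_63__75_234 : Ent 4 := ⟨[a0, a63], [a75, a239], (M a12 (F (T t122 (T t151 (T t152 (T t153 (K a4 (M a60 (F (T t43 (L l337 (T t398 (T t448 N)))))) (K a8 (M a60 (F (T t68 (L l337 (T t398 (L l52 (L l56 (T t448 N)))))))) (K a21 (M a192 (F (T t221 (T t156 (L l15 (L l347 (T t157 N))))))) (K a25 (M a192 (F (T t449 (L l15 (T t450 (L l289 (T t21 N))))))) (K a29 (M a192 (F (T t449 (L l289 (L l371 (T t21 (L l78 (T t160 N)))))))) (K a38 (M a192 (F (T t450 (T t156 (L l289 (T t21 N)))))) (K a42 (M a192 (F (T t449 (T t450 (L l56 (T t157 N)))))) (K a46 (M a192 (F (T t449 (L l289 (T t21 (L l26 (L l78 (L l408 (T t160 N))))))))) (K a51 (M a192 (F (T t1681 (L l513 (T t156 (L l415 (T t450 N))))))) N)))))))))))))))⟩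
def e0_63__75_235 : Ent 4 := ⟨[a0, a63], [a75, a240], (M a12 (F (T t150 (L l417 (T t122 (L l417 (T t151 (L l417 (T t152 (L l417 (T t153 (K a4 (M a60 (F (T t570 (L l46 (L l50 (L l453 (T t67 (T t448 N)))))))) (K a8 (M a60 (F (T t570 (L l453 (T t67 (L l52 (L l56 (T t448 N)))))))) (K a21 (M a192 (F (L l298 (T t156 (L l15 (L l258 (L l347 (T t450 (L l15 (L l347 (T t157 N))))))))))) (K a25 (M a192 (F (T t159 (L l15 (L l258 (T t450 (L l266 (T t21 N)))))))) (K a29 (M a192 (F (T t1681 (L l298 (T t156 (L l78 (T t160 N))))))) (K a38 (M a192 (F (T t161 (L l298 (T t156 (L l266 (T t21 N))))))) (K a42 (M a192 (F (T t161 (L l298 (T t156 (L l56 (T t157 N))))))) (K a46 (M a192 (F (T t57 (L l298 (T t156 (L l26 (L l78 (L l408 (T t160 N))))))))) (K a51 (M a192 (L l417 (F (T t496 (L l258 (L l415 (T t450 (L l266 (L l439 (T t21 (K a177 (M a114 (F (T t159 (L l266 (L l439 (T t35 (L l78 (L l258 (L l415 (T t543 N)))))))))) (K a114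 (M a177 (F (T t159 (L l266 (L l439 (T t35 (L l78 (L l258 (L l415 (T t543 N)))))))))) N)))))))))))) N))))))))))))))))))))⟩
def e0_63__75_236 : Ent 4 := ⟨[a0, a63], [a75, a241], (M a85 (F (T t88 (T t52 (T t89 (T t90 (K a64 (M a16 (F (T t258 (L l337 (T t97 (L l116 (T t98 N))))))) (K a192 (M a16 (F (T t96 (L l337 (L l339 (T t97 (L l296 (T t98 N)))))))) (K a21 (M a48 (F (T t99 (L l258 (T t50 (L l47 (T t100 N))))))) (K a149 (M a16 (F (T t173 (L l337 (L l375 (T t97 (L l170 (T t102 N)))))))) (K a213 (Fr a170 a255 l476 (Fr a42 a21 l68 (Fr a106 a234 l390 (Fr a192 a149 l519 (V t581))))) (K a42 (M a48 (F (T t364 (L l258 (L l390 (T t50 (L l28 (T t100 N)))))))) (K a106 (M a48 (F (T t99 (L l337 (T t1 (L l258 (L l390 (T t50 N)))))))) (K a170 (M a16 (F (L l404 (T t113 (L l390 (T t98 (L l337 (L l390 (L l404 (T t97 (L l404 (T t174 N)))))))))))) (K a255 (M a16 (F (T t112 (L l289 (T t113 (L l289 (L l296 (T t98 N)))))))) N)))))))))))))))⟩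
def e0_63__75_237 : Ent 4 := ⟨[a0, a63], [a75, a242], (M a149 (F (T t5 (T t175 (T t176 (T t177 (K a192 (M a53 (F (T t178 (L l236 (T t179 (L l236 (L l296 (T t180 N)))))))) (K a21 (M a48 (F (T t4 (L l258 (T t13 (L l18 (T t14 N))))))) (K a85 (M a16 (F (T t504 (L l144 (L l258 (T t190 (L l94 (L l133 (L l480 (T t278 N)))))))))) (K a213 (Fr a106 a192 l519 (Fr a42 a21 l68 (Fr a170 a234 l390 (Fr a255 a85 l476 (V t582))))) (K a42 (M a48 (F (T t187 (L l258 (L l390 (T t13 (L l54 (T t14 N)))))))) (K a106 (M a48 (F (T t48 (L l498 (T t14 (L l390 (L l498 (T t6 (L l390 (T t26 N)))))))))) (K a170 (M a48 (F (T t4 (L l337 (L l462 (T t1 (L l258 (L l390 (T t13 N))))))))) (K a191 (M a240 (F (T t962 (L l444 (T t963 N))))) (K a255 (M a16 (F (T t112 (L l258 (L l266 (T t190 (L l289 (L l296 (T t191 N))))))))) N)))))))))))))))⟩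
def e0_63__75_238 : Ent 4 := ⟨[a0, a63], [a75, a243], (M a60 (F (T t116 (L l451 (T t67 (L l451 (T t43 (L l451 (T t68 (L l451 (T t69 (K a20 (M a48 (F (T t138 (L l11 (L l337 (L l481 (T t1 (L l11 (T t235 N))))))))) (K a40 (M a48 (F (T t48 (L l415 (T t64 (L l52 (T t235 N))))))) (K a21 (M a192 (F (T t2647 (L l131 (L l271 (L l337 (L l347 (T t73 (L l347 (T t74 N)))))))))) (K a41 (M a192 (F (T t1343 (L l267 (T t79 (L l65 (L l265 (T t35 N)))))))) (K a61 (M a192 (F (T t1334 (L l65 (L l265 (L l515 (T t35 (T t80 N)))))))) (K a22 (M a192 (F (T t237 (L l11 (L l267 (T t79 (L l11 (L l265 (T t35 N))))))))) (K a42 (M a192 (F (T t237 (L l267 (T t79 (L l22 (T t74 N))))))) (K a62 (M a192 (F (T t57 (L l267 (T t79 (L l66 (L l516 (T t80 N)))))))) (K a3 (M a192 (L l451 (F (T t237 (L l267 (L l477 (T t79 (L l265 (L l475 (T t35 (K a83 (M a163 (F (T t1800 (L l271 (L l307 (L l337 (T t75 (L l267 (L l477 (T t1333 N)))))))))) (K a163 (M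 a83 (F (T t1800 (L l271 (L l307 (L l337 (T t75 (L l267 (L l477 (T t1333 N)))))))))) N)))))))))))) N))))))))))))))))))))⟩
def e0_63__75_239 : Ent 4 := ⟨[a0, a63], [a75, a244], (M a85 (F (T t88 (T t52 (T t89 (T t90 (K a64 (M a16 (F (T t258 (L l337 (T t97 (L l116 (T t98 N))))))) (K a192 (M a16 (F (T t96 (L l337 (L l339 (T t97 (L l296 (T t98 N)))))))) (K a21 (M a48 (F (T t99 (L l262 (T t50 (L l47 (T t100 N))))))) (K a149 (M a16 (F (T t173 (L l337 (L l375 (T t97 (L l170 (T t102 N)))))))) (K a213 (Fr a170 a255 l476 (Fr a42 a21 l68 (Fr a106 a234 l390 (Fr a192 a149 l519 (V t581))))) (K a42 (M a48 (F (T t364 (L l262 (L l390 (T t50 (L l28 (T t100 N)))))))) (K a106 (M a48 (F (T t99 (L l337 (T t1 (L l262 (L l390 (T t50 N)))))))) (K a170 (M a16 (F (L l404 (T t113 (L l390 (T t98 (L l337 (L l390 (L l404 (T t97 (L l404 (T t174 N)))))))))))) (K a255 (M a16 (F (T t112 (L l289 (T t113 (L l289 (L l296 (T t98 N)))))))) N)))))))))))))))⟩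
def e0_63__75_240 : Ent 4 := ⟨[a0, a63], [a75, a245], (M a149 (F (T t175 (L l275 (T t5 (L l266 (L l275 (T t176 (L l266 (T t177 (K a192 (M a29 (F (T t956 (L l272 (T t641 (L l272 (L l275 (L l296 (T t957 N))))))))) (K a21 (M a48 (F (T t7 (L l18 (L l275 (T t14 (L l266 (T t13 N)))))))) (K a85 (M a5 (F (L l419 (T t1110 (L l78 (L l144 (L l275 (T t2104 (L l123 (T t2105 N)))))))))) (K a213 (Fr a106 a192 l519 (Fr a42 a21 l68 (Fr a170 a234 l390 (Fr a255 a85 l476 (V t582))))) (K a42 (M a48 (F (L l419 (T t187 (L l266 (L l390 (T t13 (L l54 (L l275 (T t14 N)))))))))) (K a106 (M a12 (F (T t122 (L l408 (T t649 (L l275 (L l390 (L l408 (T t960 (L l259 (L l275 (L l390 (T t961 N))))))))))))) (K a170 (M a48 (F (L l275 (T t4 (L l337 (L l419 (L l462 (T t1 (L l266 (L l390 (T t13 N))))))))))) (K a191 (M a16 (F (T t504 (L l266 (T t190 (L l213 (L l275 (T t191 N)))))))) (K a255 (M a240 (F (T t2106 (L l440 (T t1091 (L l275 (L l296 (L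 l469 (T t1092 (L l133 (L l419 (T t2107 N)))))))))))) N)))))))))))))))))))⟩
def e0_63__75_241 : Ent 4 := ⟨[a0, a63], [a75, a246], (M a85 (F (T t88 (T t52 (T t89 (T t90 (K a64 (M a16 (F (T t258 (L l337 (T t97 (L l116 (T t98 N))))))) (K a192 (M a16 (F (T t96 (L l337 (L l339 (T t97 (L l296 (T t98 N)))))))) (K a21 (M a48 (F (T t99 (T t50 (L l47 (T t100 N)))))) (K a149 (M a16 (F (T t173 (L l337 (L l375 (T t97 (L l170 (T t102 N)))))))) (K a213 (Fr a170 a255 l476 (Fr a42 a21 l68 (Fr a106 a234 l390 (Fr a192 a149 l519 (V t581))))) (K a42 (M a48 (F (T t364 (L l390 (T t50 (L l28 (T t100 N))))))) (K a106 (M a48 (F (T t99 (L l337 (T t1 (L l390 (T t50 N))))))) (K a170 (M a16 (F (L l404 (T t113 (L l390 (T t98 (L l337 (L l390 (L l404 (T t97 (L l404 (T t174 N)))))))))))) (K a255 (M a16 (F (T t112 (L l289 (T t113 (L l289 (L l296 (T t98 N)))))))) N)))))))))))))))⟩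
def e0_63__75_242 : Ent 4 := ⟨[a0, a63], [a75, a247], (M a60 (F (T t67 (T t43 (T t68 (T t69 (K a20 (M a48 (F (T t64 (L l11 (L l337 (T t1 (L l11 (L l457 (T t235 N))))))))) (K a40 (M a48 (F (T t64 (L l337 (T t1 (L l52 (L l457 (T t235 N)))))))) (K a21 (M a192 (F (T t72 (L l131 (L l337 (L l347 (T t73 (L l277 (L l347 (T t74 N)))))))))) (K a41 (M a192 (F (T t77 (L l65 (L l265 (T t35 (L l131 (L l337 (T t73 N))))))))) (K a61 (M a192 (F (T t72 (L l65 (L l265 (L l515 (T t35 (L l278 (T t80 N))))))))) (K a22 (M a192 (F (T t72 (L l265 (T t21 (L l131 (L l337 (T t73 N)))))))) (K a42 (M a192 (F (T t77 (L l131 (L l337 (T t73 (L l22 (L l277 (T t74 N))))))))) (K a62 (M a192 (F (T t72 (L l265 (T t35 (L l66 (L l278 (L l516 (T t80 N))))))))) (K a3 (M a85 (F (T t447 (L l277 (L l278 (T t115 N)))))) N)))))))))))))))⟩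
def e0_63__75_243 : Ent 4 := ⟨[a0, a63], [a75, a248], (M a85 (F (T t88 (T t52 (T t89 (T t90 (K a64 (M a252 (F (T t91 (L l460 (T t92 N))))) (K a192 (M a16 (F (T t96 (L l337 (L l339 (T t97 (L l296 (T t98 N)))))))) (K a21 (M a48 (F (T t99 (L l262 (T t50 (L l47 (T t100 N))))))) (K a149 (M a16 (F (T t173 (L l337 (L l375 (T t97 (L l170 (T t102 N)))))))) (K a213 (Fr a170 a255 l476 (Fr a42 a21 l68 (Fr a106 a234 l390 (Fr a192 a149 l519 (V t581))))) (K a42 (M a48 (F (T t364 (L l262 (L l390 (T t50 (L l28 (T t100 N)))))))) (K a106 (M a48 (F (T t99 (L l337 (T t1 (L l262 (L l390 (T t50 N)))))))) (K a170 (M a16 (F (L l404 (T t113 (L l390 (T t98 (L l337 (L l390 (L l404 (T t97 (L l404 (T t174 N)))))))))))) (K a255 (M a16 (F (T t112 (L l289 (T t113 (L l289 (L l296 (T t98 N)))))))) N)))))))))))))))⟩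
def e0_63__75_244 : Ent 4 := ⟨[a0, a63], [a75, a249], (M a85 (F (T t88 (T t52 (T t89 (T t90 (K a64 (M a16 (F (T t258 (L l337 (T t97 (L l116 (T t98 N))))))) (K a192 (M a16 (F (T t96 (L l337 (L l339 (T t97 (L l296 (T t98 N)))))))) (K a21 (M a48 (F (T t99 (T t50 (L l47 (T t100 N)))))) (K a149 (M a16 (F (T t173 (L l337 (L l375 (T t97 (L l170 (T t102 N)))))))) (K a213 (Fr a170 a255 l476 (Fr a42 a21 l68 (Fr a106 a234 l390 (Fr a192 a149 l519 (V t581))))) (K a42 (M a48 (F (T t364 (L l390 (T t50 (L l28 (T t100 N))))))) (K a106 (M a48 (F (T t99 (L l337 (T t1 (L l390 (T t50 N))))))) (K a170 (M a16 (F (L l404 (T t113 (L l390 (T t98 (L l337 (L l390 (L l404 (T t97 (L l404 (T t174 N)))))))))))) (K a255 (M a16 (F (T t112 (L l289 (T t113 (L l289 (L l296 (T t98 N)))))))) N)))))))))))))))⟩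
def e0_63__75_245 : Ent 4 := ⟨[a0, a63], [a75, a250], (M a12 (F (T t122 (T t151 (T t152 (T t153 (K a4 (M a60 (F (T t43 (L l337 (T t398 (T t448 N)))))) (K a8 (M a60 (F (T t67 (L l337 (T t398 (L l52 (L l56 (T t448 N)))))))) (K a21 (M a192 (F (T t221 (T t156 (L l15 (L l347 (T t157 N))))))) (K a25 (M a192 (F (T t449 (L l15 (T t450 (L l266 (T t21 N))))))) (K a29 (M a192 (F (T t449 (L l266 (L l371 (T t21 (L l78 (T t160 N)))))))) (K a38 (M a192 (F (T t450 (T t156 (L l266 (T t21 N)))))) (K a42 (M a192 (F (T t449 (T t450 (L l56 (T t157 N)))))) (K a46 (M a192 (F (T t449 (L l266 (T t21 (L l26 (L l78 (L l408 (T t160 N))))))))) (K a51 (M a192 (F (T t1681 (L l513 (T t156 (L l415 (T t450 N))))))) N)))))))))))))))⟩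
def e0_63__75_246 : Ent 4 := ⟨[a0, a63], [a75, a251], (M a12 (F (T t122 (T t151 (L l427 (T t152 (L l464 (T t153 (K a4 (M a60 (F (T t43 (L l337 (T t398 (T t448 N)))))) (K a8 (M a170 (F (T t2102 (T t2498 (L l284 (T t2626 N)))))) (K a21 (M a192 (F (T t156 (L l15 (L l265 (L l347 (T t450 (L l15 (L l265 (L l347 (L l464 (T t157 N)))))))))))) (K a25 (M a192 (F (T t156 (L l15 (L l265 (T t450 (L l265 (T t21 N)))))))) (K a29 (M a192 (F (T t156 (L l265 (L l371 (T t21 (L l78 (T t160 N)))))))) (K a38 (M a192 (F (T t156 (L l265 (T t450 (L l265 (T t21 N))))))) (K a42 (M a192 (F (T t156 (L l265 (T t450 (L l56 (L l265 (L l464 (T t157 N))))))))) (K a46 (M a192 (F (T t156 (L l265 (T t21 (L l26 (L l78 (L l408 (T t160 N))))))))) (K a51 (M a192 (F (T t1681 (L l513 (T t156 (L l265 (L l415 (T t450 N)))))))) N)))))))))))))))))⟩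
def e0_63__75_247 : Ent 4 := ⟨[a0, a63], [a75, a252], (M a12 (F (T t150 (L l441 (T t122 (L l441 (T t151 (L l441 (T t152 (L l441 (T t153 (K a4 (M a60 (F (T t570 (L l46 (L l50 (L l477 (T t67 (T t448 N)))))))) (K a8 (M a60 (F (T t570 (L l477 (T t67 (L l52 (L l56 (T t448 N)))))))) (K a21 (M a192 (F (L l286 (T t156 (L l15 (L l267 (L l347 (T t450 (L l15 (L l347 (T t157 N))))))))))) (K a25 (M a192 (F (T t159 (L l15 (L l267 (T t450 (L l261 (T t21 N)))))))) (K a29 (M a192 (F (T t1681 (L l286 (T t156 (L l78 (T t160 N))))))) (K a38 (M a192 (F (T t161 (L l286 (T t156 (L l261 (T t21 N))))))) (K a42 (M a192 (F (T t161 (L l286 (T t156 (L l56 (T t157 N))))))) (K a46 (M a192 (F (T t57 (L l286 (T t156 (L l26 (L l78 (L l408 (T t160 N))))))))) (K a51 (M a192 (L l441 (F (T t496 (L l267 (L l415 (T t450 (L l261 (L l439 (T t21 (K a185 (M a118 (F (T t159 (L l261 (L l439 (T t35 (L l78 (L l267 (L l415 (T t543 N)))))))))) (K a118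 (M a185 (F (T t159 (L l261 (L l439 (T t35 (L l78 (L l267 (L l415 (T t543 N)))))))))) N)))))))))))) N))))))))))))))))))))⟩
def e0_63__75_248 : Ent 4 := ⟨[a0, a63], [a75, a253], (M a149 (F (T t175 (L l293 (T t5 (L l261 (L l293 (T t176 (L l261 (T t177 (K a192 (M a53 (F (T t178 (L l236 (T t179 (L l236 (L l293 (L l296 (T t180 N))))))))) (K a21 (M a48 (F (T t4 (T t13 (L l18 (T t14 N)))))) (K a85 (M a1 (F (L l431 (T t534 (L l144 (L l293 (L l337 (T t1083 (L l133 (L l141 (T t1084 N))))))))))) (K a213 (Fr a106 a192 l519 (Fr a42 a21 l68 (Fr a170 a234 l390 (Fr a255 a85 l476 (V t582))))) (K a42 (M a48 (F (T t187 (L l390 (T t13 (L l54 (T t14 N))))))) (K a106 (M a48 (F (T t48 (L l498 (T t14 (L l293 (L l390 (L l437 (L l498 (T t6 (L l293 (L l390 (T t26 N))))))))))))) (K a170 (M a48 (F (T t4 (L l337 (L l462 (T t1 (L l390 (T t13 N)))))))) (K a191 (M a16 (F (T t112 (T t190 (L l213 (L l293 (T t191 N))))))) (K a255 (M a252 (F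 (T t2838 (L l434 (T t940 (L l293 (L l296 (T t1291 (L l431 (T t1292 N)))))))))) N)))))))))))))))))))⟩
def e0_63__75_249 : Ent 4 := ⟨[a0, a63], [a75, a254], (M a12 (F (T t122 (T t151 (T t152 (T t153 (K a4 (M a60 (F (T t43 (L l337 (L l468 (T t398 (T t448 N))))))) (K a8 (M a60 (F (T t67 (L l337 (L l468 (T t398 (L l52 (L l56 (T t448 N))))))))) (K a21 (M a192 (F (T t221 (T t156 (L l15 (L l347 (T t157 N))))))) (K a25 (M a192 (F (T t449 (L l15 (T t450 (L l261 (T t21 N))))))) (K a29 (M a192 (F (T t449 (L l261 (L l371 (T t21 (L l78 (T t160 N)))))))) (K a38 (M a192 (F (T t450 (T t156 (L l261 (T t21 N)))))) (K a42 (M a192 (F (T t449 (T t450 (L l56 (T t157 N)))))) (K a46 (M a192 (F (T t449 (L l261 (T t21 (L l26 (L l78 (L l408 (T t160 N))))))))) (K a51 (M a192 (F (T t1681 (L l513 (T t156 (L l415 (T t450 N))))))) N)))))))))))))))⟩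
def e0_63__75_250 : Ent 4 := ⟨[a0, a63], [a75, a255], (M a12 (F (T t150 (L l439 (T t122 (L l439 (T t151 (L l439 (T t152 (L l439 (T t153 (K a4 (M a60 (F (T t570 (L l46 (L l50 (L l475 (T t67 (T t448 N)))))))) (K a8 (M a60 (F (T t570 (L l475 (T t67 (L l52 (L l56 (T t448 N)))))))) (K a21 (M a192 (F (L l265 (T t221 (L l290 (T t156 (L l15 (L l265 (L l347 (T t157 N)))))))))) (K a25 (M a192 (F (T t496 (L l15 (L l265 (T t450 (L l15 (L l56 (L l265 (T t157 N)))))))))) (K a29 (M a48 (F (T t145 (L l15 (L l337 (L l469 (T t1 (T t866 N)))))))) (K a38 (M a192 (F (T t161 (L l290 (T t156 (L l265 (T t157 N))))))) (K a42 (M a192 (F (T t161 (L l290 (T t156 (L l56 (L l265 (T t157 N)))))))) (K a46 (M a48 (F (T t867 (L l337 (L l469 (T t1 (L l26 (T t866 N)))))))) (K a51 (M a192 (L l439 (F (T t161 (L l290 (L l513 (T t156 (L l265 (T t157 (K a119 (M a187 (F (T t161 (L l78 (L l290 (L l513 (T t468 (L l265 (L l421 (T t157 N))))))))))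 (K a187 (M a119 (F (T t161 (L l78 (L l290 (L l513 (T t468 (L l265 (T t157 N))))))))) N))))))))))) N))))))))))))))))))))⟩
def b0_63__75 : Blk 4 := ⟨[0, 63], [75], [1, 2, 3, 4, 5, 6, 7, 8, 9, 10, 11, 12, 13, 14, 15, 16, 17, 18, 19, 20, 22, 23, 24, 25, 26, 27, 28, 29, 30, 31, 32, 33, 34, 35, 36, 37, 38, 39, 40, 41, 43, 44, 45, 46, 47, 48, 49, 50, 51, 52, 53, 54, 55, 56, 57, 58, 59, 60, 61, 62, 64, 65, 66, 67, 68, 69, 70, 71, 72, 73, 74, 76, 77, 78, 79, 80, 81, 82, 83, 84, 85, 86, 87, 88, 89, 90, 91, 92, 93, 94, 95, 96, 97, 98, 99, 100, 101, 102, 103, 104, 105, 106, 107, 108, 109, 110, 111, 112, 113, 114, 115, 116, 117, 118, 119, 120, 121, 122, 123, 124, 125, 126, 127, 128, 129, 130, 131, 132, 133, 134, 135, 136, 137, 138, 139, 140, 141, 142, 143, 144, 145, 146, 147, 148, 149, 150, 151, 152, 153, 154, 155, 156, 157, 158, 159, 160, 161, 162, 163, 164, 165, 166, 167, 168, 169, 170, 171, 172, 173, 174, 175, 176,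 177, 178, 179, 180, 181, 182, 183, 184, 185, 186, 187, 188, 189, 190, 191, 192, 193, 194, 195, 196, 197, 198, 199, 200, 201, 202, 203, 204, 205, 206, 207, 208, 209, 210, 211, 212, 213, 214, 215, 216, 217, 218, 219, 220, 221, 222, 223, 224, 225, 226, 227, 228, 229, 230, 231, 232, 233, 234, 235, 236, 237, 238, 239, 240, 241, 242, 243, 244, 245, 246, 247, 248, 249, 250, 251, 252, 253, 254, 255], [e0_63__75_0, e0_63__75_1, e0_63__75_2, e0_63__75_3, e0_63__75_4, e0_63__75_5, e0_63__75_6, e0_63__75_7, e0_63__75_8, e0_63__75_9, e0_63__75_10, e0_63__75_11, e0_63__75_12, e0_63__75_13, e0_63__75_14, e0_63__75_15, e0_63__75_16, e0_63__75_17, e0_63__75_18, e0_63__75_19, e0_63__75_20, e0_63__75_21, e0_63__75_22, e0_63__75_23, e0_63__75_24, e0_63__75_25, e0_63__75_26, e0_63__75_27, e0_63__75_28, e0_63__75_29, e0_63__75_30, e0_63__75_31, e0_63__75_32, e0_63__75_33, e0_63__75_34, e0_63__75_35, e0_63__75_36, e0_63__75_37,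 e0_63__75_38, e0_63__75_39, e0_63__75_40, e0_63__75_41, e0_63__75_42, e0_63__75_43, e0_63__75_44, e0_63__75_45, e0_63__75_46, e0_63__75_47, e0_63__75_48, e0_63__75_49, e0_63__75_50, e0_63__75_51, e0_63__75_52, e0_63__75_53, e0_63__75_54, e0_63__75_55, e0_63__75_56, e0_63__75_57, e0_63__75_58, e0_63__75_59, e0_63__75_60, e0_63__75_61, e0_63__75_62, e0_63__75_63, e0_63__75_64, e0_63__75_65, e0_63__75_66, e0_63__75_67, e0_63__75_68, e0_63__75_69, e0_63__75_70, e0_63__75_71, e0_63__75_72, e0_63__75_73, e0_63__75_74, e0_63__75_75, e0_63__75_76, e0_63__75_77, e0_63__75_78, e0_63__75_79, e0_63__75_80, e0_63__75_81, e0_63__75_82, e0_63__75_83, e0_63__75_84, e0_63__75_85, e0_63__75_86, e0_63__75_87, e0_63__75_88, e0_63__75_89, e0_63__75_90, e0_63__75_91, e0_63__75_92, e0_63__75_93, e0_63__75_94, e0_63__75_95, e0_63__75_96, e0_63__75_97, e0_63__75_98, e0_63__75_99, e0_63__75_100, e0_63__75_101, e0_63__75_102, e0_63__75_103,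 e0_63__75_104, e0_63__75_105, e0_63__75_106, e0_63__75_107, e0_63__75_108, e0_63__75_109, e0_63__75_110, e0_63__75_111, e0_63__75_112, e0_63__75_113, e0_63__75_114, e0_63__75_115, e0_63__75_116, e0_63__75_117, e0_63__75_118, e0_63__75_119, e0_63__75_120, e0_63__75_121, e0_63__75_122, e0_63__75_123, e0_63__75_124, e0_63__75_125, e0_63__75_126, e0_63__75_127, e0_63__75_128, e0_63__75_129, e0_63__75_130, e0_63__75_131, e0_63__75_132, e0_63__75_133, e0_63__75_134, e0_63__75_135, e0_63__75_136, e0_63__75_137, e0_63__75_138, e0_63__75_139, e0_63__75_140, e0_63__75_141, e0_63__75_142, e0_63__75_143, e0_63__75_144, e0_63__75_145, e0_63__75_146, e0_63__75_147, e0_63__75_148, e0_63__75_149, e0_63__75_150, e0_63__75_151, e0_63__75_152, e0_63__75_153, e0_63__75_154, e0_63__75_155, e0_63__75_156, e0_63__75_157, e0_63__75_158, e0_63__75_159, e0_63__75_160, e0_63__75_161, e0_63__75_162, e0_63__75_163, e0_63__75_164, e0_63__75_165,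 e0_63__75_166, e0_63__75_167, e0_63__75_168, e0_63__75_169, e0_63__75_170, e0_63__75_171, e0_63__75_172, e0_63__75_173, e0_63__75_174, e0_63__75_175, e0_63__75_176, e0_63__75_177, e0_63__75_178, e0_63__75_179, e0_63__75_180, e0_63__75_181, e0_63__75_182, e0_63__75_183, e0_63__75_184, e0_63__75_185, e0_63__75_186, e0_63__75_187, e0_63__75_188, e0_63__75_189, e0_63__75_190, e0_63__75_191, e0_63__75_192, e0_63__75_193, e0_63__75_194, e0_63__75_195, e0_63__75_196, e0_63__75_197, e0_63__75_198, e0_63__75_199, e0_63__75_200, e0_63__75_201, e0_63__75_202, e0_63__75_203, e0_63__75_204, e0_63__75_205, e0_63__75_206, e0_63__75_207, e0_63__75_208, e0_63__75_209, e0_63__75_210, e0_63__75_211, e0_63__75_212, e0_63__75_213, e0_63__75_214, e0_63__75_215, e0_63__75_216, e0_63__75_217, e0_63__75_218, e0_63__75_219, e0_63__75_220, e0_63__75_221, e0_63__75_222, e0_63__75_223, e0_63__75_224, e0_63__75_225, e0_63__75_226, e0_63__75_227,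 e0_63__75_228, e0_63__75_229, e0_63__75_230, e0_63__75_231, e0_63__75_232, e0_63__75_233, e0_63__75_234, e0_63__75_235, e0_63__75_236, e0_63__75_237, e0_63__75_238, e0_63__75_239, e0_63__75_240, e0_63__75_241, e0_63__75_242, e0_63__75_243, e0_63__75_244, e0_63__75_245, e0_63__75_246, e0_63__75_247, e0_63__75_248, e0_63__75_249, e0_63__75_250], by decide +kernel, by decide +kernel⟩

end Pool.Agent.Lib_TTT.K4
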