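import Pool.Agent.Lib_TTT.K4Base
import Pool.Agent.Lib_TTT.K4T00
import Pool.Agent.Lib_TTT.K4T01
import Pool.Agent.Lib_TTT.K4T02
import Pool.Agent.Lib_TTT.K4T03

/-! Certificates in `4^4`. -/

set_option autoImplicit false
set_option maxRecDepth 200000

namespace Pool.Agent.Lib_TTT.K4

open Lib_TTT AC DC

def e0_63__79_0 : Ent 4 := ⟨[a0, a63], [a79, a1], (M a12 (F (T t153 (L l65 (T t122 (L l41 (T t151 (L l65 (T t152 (K a4 (M a60 (F (T t835 (L l46 (L l50 (L l65 (T t67 (L l41 (T t448 N))))))))) (K a8 (M a60 (F (L l65 (T t67 (L l325 (T t408 (L l41 (L l52 (L l56 (T t448 N)))))))))) (K a21 (M a60 (L l65 (F (T t409 (L l15 (L l325 (T t408 (L l11 (L l15 (L l50 (L l325 (T t2839 (L l5 (L l18 (T t2437 (K a41 (Fr a61 a62 l33 (V t2840)) (K a61 (M a41 (F (L l11 (T t878 (L l35 (T t2841 (T t409 N))))))) N))))))))))))))))) (K a25 (M a192 (F (T t449 (L l15 (T t450 (L l137 (T t21 N))))))) (K a29 (M a192 (F (T t449 (L l137 (L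 l371 (T t21 (T t160 N))))))) (K a38 (M a192 (F (T t468 (T t450 (L l137 (T t21 N)))))) (K a42 (M a192 (F (T t449 (T t450 (L l56 (T t157 N)))))) (K a46 (M a192 (F (T t449 (L l137 (T t21 (L l26 (L l408 (T t160 N)))))))) (K a51 (M a192 (F (T t161 (L l79 (L l513 (T t156 (L l137 (L l439 (T t21 N))))))))) N))))))))))))))))))⟩
def e0_63__79_1 : Ent 4 := ⟨[a0, a63], [a79, a2], (M a12 (F (T t152 (L l42 (T t122 (L l66 (T t151 (L l66 (T t153 (K a4 (M a60 (F (L l66 (T t43 (L l6 (L l325 (T t398 (L l42 (L l46 (L l50 (T t1096 N))))))))))) (K a8 (M a60 (F (T t423 (L l52 (L l56 (L l66 (T t43 (L l42 (T t1096 N))))))))) (K a21 (M a192 (F (T t468 (L l15 (L l347 (T t450 (L l15 (L l347 (T t157 N))))))))) (K a25 (M a192 (F (T t449 (L l15 (T t450 (L l137 (T t21 N))))))) (K a29 (M a192 (F (T t449 (L l137 (L l371 (T t21 (L l66 (T t160 N)))))))) (K a38 (M a192 (F (T t468 (T t450 (L l137 (T t21 N)))))) (K a42 (M a60 (L l66 (F (T t2842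 (L l6 (L l325 (T t398 (L l6 (L l28 (T t2440 (L l22 (L l26 (L l56 (L l325 (T t2843 (K a22 (Fr a62 a61 l33 (V t2844)) (K a62 (M a22 (F (L l22 (T t881 (L l26 (L l36 (T t2845 (T t2842 N)))))))) N))))))))))))))))) (K a46 (M a192 (F (T t449 (L l137 (T t21 (L l26 (L l66 (L l408 (T t160 N))))))))) (K a51 (M a192 (F (T t57 (L l79 (L l513 (T t156 (L l415 (T t450 N)))))))) N))))))))))))))))))⟩
def e0_63__79_2 : Ent 4 := ⟨[a0, a63], [a79, a3], (M a12 (F (T t150 (L l43 (T t122 (L l43 (T t151 (L l43 (T t152 (L l43 (T t153 (K a4 (M a85 (F (T t49 (L l137 (L l333 (T t124 (T t154 N))))))) (K a8 (M a85 (F (L l475 (T t255 (L l137 (L l333 (L l464 (T t124 (L l56 (T t154 N)))))))))) (K a21 (M a192 (F (T t158 (L l79 (L l333 (T t156 (L l15 (L l347 (T t157 N))))))))) (K a25 (M a192 (F (T t158 (L l79 (L l333 (T t156 (L l137 (L l475 (T t21 N))))))))) (K a29 (M a192 (F (T t496 (L l137 (L l371 (L l475 (T t21 (T t160 N)))))))) (K a38 (M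 a192 (F (T t161 (L l79 (L l333 (T t156 (L l137 (L l475 (T t21 N))))))))) (K a42 (M a192 (F (T t161 (L l79 (L l333 (T t156 (L l56 (T t157 N)))))))) (K a46 (M a192 (F (T t57 (L l79 (L l333 (T t156 (L l26 (L l408 (T t160 N))))))))) (K a51 (M a68 (L l43 (F (T t165 (L l439 (L l475 (T t767 (L l439 (L l475 (L l513 (T t164 (T t163 (K a19 (M a35 (F (T t165 (L l69 (T t2357 N))))) (K a35 (M a19 (F (T t165 (L l69 (T t2358 N))))) N)))))))))))))) N))))))))))))))))))))⟩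
def e0_63__79_3 : Ent 4 := ⟨[a0, a63], [a79, a5], (M a60 (F (T t43 (L l47 (T t67 (L l47 (T t68 (L l5 (T t69 (K a20 (M a48 (F (T t70 (L l11 (L l14 (L l47 (L l325 (T t3 (L l46 (T t71 N)))))))))) (K a40 (M a48 (F (T t70 (L l47 (L l325 (T t3 (L l22 (L l24 (T t71 N))))))))) (K a21 (M a192 (L l47 (F (T t72 (L l347 (T t73 (L l137 (L l347 (T t74 (K a37 (M a53 (F (T t75 (L l28 (T t76 N))))) (K a53 (M a37 (F (T t1516 (T t72 (L l11 (L l84 (T t78 N))))))) N))))))))))) (K a41 (M a192 (F (T t79 (L l47 (L l65 (T t35 (T t73 N))))))) (K a61 (M a192 (F (T t72 (L l47 (L l65 (L l515 (T t35 (T t80 N)))))))) (K a22 (M a192 (F (T t72 (L l137 (T t21 (T t73 N)))))) (K a42 (M a192 (F (T t79 (T t73 (L l22 (L l137 (T t74 N))))))) (K a62 (M a192 (F (T t72 (L l47 (T t35 (L l66 (L l516 (T t80 N)))))))) (K a3 (M a192 (F (T t1343 (L l477 (T t79 (L l47 (L l475 (T t35 N)))))))) N))))))))))))))))))⟩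
def e0_63__79_4 : Ent 4 := ⟨[a0, a63], [a79, a6], (M a149 (F (T t25 (T t175 (T t176 (L l84 (T t177 (K a192 (M a53 (F (T t939 (L l236 (T t179 (L l84 (L l236 (L l296 (T t180 N))))))))) (K a21 (M a48 (F (T t4 (L l18 (T t1082 (L l18 (T t14 N))))))) (K a85 (M a16 (F (T t504 (L l144 (T t190 (L l94 (L l151 (T t278 N)))))))) (K a213 (Fr a106 a192 l519 (Fr a42 a21 l68 (Fr a170 a234 l390 (Fr a255 a85 l476 (V t582))))) (K a42 (M a48 (F (T t11 (L l390 (T t1082 (L l54 (T t14 N))))))) (K a106 (M a48 (F (L l6 (T t48 (L l498 (T t14 (L l390 (L l498 (T t6 (L l390 (T t26 N))))))))))) (K a170 (M a48 (F (T t4 (L l6 (L l462 (T t48 (L l151 (L l390 (T t13 N))))))))) (K a191 (M a240 (F (T t962 (T t963 N)))) (K a255 (M a16 (F (T t504 (L l266 (T t190 (L l289 (L l296 (T t191 N)))))))) N))))))))))))))))⟩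
def e0_63__79_5 : Ent 4 := ⟨[a0, a63], [a79, a7], (M a149 (F (T t25 (T t175 (T t176 (L l84 (T t177 (K a192 (M a53 (F (T t939 (L l236 (T t179 (L l84 (L l236 (L l296 (T t180 N))))))))) (K a21 (M a48 (F (T t4 (L l18 (T t1082 (L l18 (T t14 N))))))) (K a85 (M a16 (F (T t504 (L l144 (T t190 (L l94 (L l151 (T t278 N)))))))) (K a213 (Fr a106 a192 l519 (Fr a42 a21 l68 (Fr a170 a234 l390 (Fr a255 a85 l476 (V t582))))) (K a42 (M a48 (F (T t11 (L l390 (T t1082 (L l54 (T t14 N))))))) (K a106 (M a48 (F (T t48 (L l498 (T t14 (L l390 (L l498 (T t6 (L l390 (T t26 N)))))))))) (K a170 (M a48 (F (T t4 (L l462 (T t48 (L l151 (L l390 (T t13 N)))))))) (K a191 (M a240 (F (T t962 (L l315 (T t963 N))))) (K a255 (M a16 (F (T t504 (L l266 (T t190 (L l289 (L l296 (T t191 N)))))))) N))))))))))))))))⟩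
def e0_63__79_6 : Ent 4 := ⟨[a0, a63], [a79, a10], (M a60 (F (T t67 (L l54 (T t43 (L l6 (T t68 (L l54 (T t69 (K a20 (M a48 (F (T t64 (L l54 (L l325 (T t0 (L l6 (L l11 (T t235 N))))))))) (K a40 (M a48 (F (T t42 (L l22 (L l24 (L l54 (L l325 (T t0 (L l6 (L l52 (T t235 N))))))))))) (K a21 (M a192 (F (T t72 (L l347 (T t73 (L l137 (L l347 (T t74 N)))))))) (K a41 (M a192 (F (T t79 (L l65 (T t35 (T t73 N)))))) (K a61 (M a192 (F (T t72 (L l65 (L l515 (T t35 (L l54 (T t80 N)))))))) (K a22 (M a192 (F (T t72 (L l137 (T t21 (T t73 N)))))) (K a42 (M a192 (L l54 (F (T t79 (T t73 (L l22 (L l137 (T t74 (K a26 (M a58 (F (T t569 (L l22 (L l57 (T t1342 N)))))) (K a58 (M a26 (F (T t79 (T t73 (L l84 (L l390 (L l498 (T t78 N)))))))) N)))))))))) (K a62 (M a192 (F (T t72 (T t35 (L l54 (L l66 (L l516 (T t80 N)))))))) (K a3 (M a192 (F (T t1343 (L l477 (T t79 (L l475 (T t35 N))))))) N))))))))))))))))))⟩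
def e0_63__79_7 : Ent 4 := ⟨[a0, a63], [a79, a11], (M a149 (F (T t25 (T t175 (T t176 (L l84 (T t177 (K a192 (M a53 (F (T t178 (L l236 (T t179 (L l84 (L l236 (L l296 (T t180 N))))))))) (K a21 (M a48 (F (T t4 (L l18 (T t1082 (L l18 (T t14 N))))))) (K a85 (M a16 (F (T t504 (L l144 (T t190 (L l57 (L l94 (L l151 (L l465 (T t278 N)))))))))) (K a213 (Fr a106 a192 l519 (Fr a42 a21 l68 (Fr a170 a234 l390 (Fr a255 a85 l476 (V t582))))) (K a42 (M a48 (F (T t11 (L l390 (T t1082 (L l54 (T t14 N))))))) (K a106 (M a48 (F (L l2 (T t48 (L l498 (T t14 (L l390 (L l498 (T t6 (L l390 (T t26 N))))))))))) (K a170 (M a48 (F (T t4 (L l2 (L l462 (T t48 (L l151 (L l390 (T t13 N))))))))) (K a191 (M a240 (F (T t962 (T t963 N)))) (K a255 (M a16 (F (T t112 (L l266 (T t190 (L l289 (L l296 (T t191 N)))))))) N))))))))))))))))⟩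
def e0_63__79_8 : Ent 4 := ⟨[a0, a63], [a79, a15], (M a85 (L l325 (F (L l84 (T t89 (L l137 (L l469 (T t52 (L l84 (L l339 (T t88 (L l84 (L l339 (T t90 (K a64 (M a207 (L l84 (F (T t2056 (L l116 (T t2846 (L l137 (T t2847 (K a69 (M a74 (F (L l137 (T t1643 (L l311 (L l469 (T t2848 (L l137 (T t2849 (L l137 (T t2847 (T t2850 (L l75 (L l137 (T t2851 (L l137 (T t2852 N))))))))))))))))) (K a74 (Fr a69 a138 l332 (V t2853)) N)))))))))) (K a192 (M a207 (L l339 (F (T t2056 (L l137 (L l296 (L l484 (T t2847 (L l484 (T t2854 (L l137 (L l296 (L l484 (T t2058 (T t2855 (L l296 (T t2850 (K a133 (M a74 (F (L l160 (T t2056 (L l137 (L l296 (L l484 (T t1643 (L l137 (L l296 (L l311 (L l484 (T t2856 (L l160 (L l484 (T t2854 (L l160 (T t2857 (L l160 (L l311 (T t2855 N))))))))))))))))))))) (K a74 (M a133 (L l84 (F (L l318 (T t2056 (L l75 (L l296 (T t2858 (L l137 (L l296 (L l484 (T t2847 (L l318 (T t2855 (L l296 (T t2850 (K a64 (Fr a69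 a138 l332 (V t2853)) (K a69 (M a64 (F (T t359 (L l137 (L l296 (L l484 (T t1643 (L l296 (T t2850 (L l137 (L l484 (T t2859 N)))))))))))) N)))))))))))))))))) N))))))))))))))))))) (K a21 (M a12 (L l325 (F (T t123 (L l137 (L l327 (T t124 (L l15 (L l137 (T t574 (K a143 (M a207 (F (T t123 (L l160 (L l213 (T t2211 N)))))) (K a207 (M a143 (F (T t123 (L l137 (L l231 (L l327 (T t124 (L l15 (L l137 (T t574 N)))))))))) N)))))))))))) (K a149 (M a4 (L l325 (F (T t129 (L l481 (T t1371 (L l202 (T t1372 (K a143 (M a207 (F (T t129 (L l84 (L l469 (T t2115 N)))))) (K a207 (M a143 (F (T t129 (L l220 (L l301 (L l481 (T t1509 (L l202 (T t1372 N))))))))) N)))))))))) (K a213 (Fr a170 a255 l476 (Fr a42 a21 l68 (Fr a106 a234 l390 (Fr a192 a149 l519 (V t581))))) (K a42 (M a12 (L l325 (F (L l469 (T t1373 (L l327 (L l390 (T t2860 (L l56 (L l137 (T t574 (K a143 (M a207 (F (L l56 (T t123 (L l160 (L l213 (T t2211 N))))))) (K a207 (M a143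 (F (L l56 (T t123 (L l137 (L l231 (L l327 (L l390 (T t124 (L l56 (L l137 (T t574 N)))))))))))) N))))))))))))) (K a106 (M a12 (L l325 (F (T t150 (L l132 (T t123 (L l137 (L l327 (L l390 (T t124 (K a143 (M a207 (F (T t150 (L l160 (L l227 (L l469 (L l498 (T t2861 N)))))))) (K a207 (M a143 (F (T t150 (L l132 (L l289 (L l469 (T t1366 (L l137 (L l231 (L l327 (L l390 (T t124 N)))))))))))) N)))))))))))) (K a170 (M a207 (F (L l206 (L l390 (T t2862 (L l137 (L l390 (T t1643 (L l75 (L l206 (L l404 (T t2863 (L l206 (L l390 (T t2864 (L l339 (L l390 (T t2865 (L l75 (L l137 (L l206 (T t2866 (L l84 (L l137 (L l220 (L l339 (L l390 (T t2867 N)))))))))))))))))))))))))))) (K a255 (M a207 (L l469 (F (L l137 (L l440 (T t2210 (L l137 (L l296 (T t1643 (L l296 (T t2868 (L l440 (T t2855 (L l296 (L l440 (T t2869 (L l84 (L l137 (L l296 (L l440 (T t2870 (K a95 (M a175 (L l137 (F (L l361 (L l440 (T t2871 (L l84 (L l296 (T t2872 (L l75 (L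 l296 (L l440 (T t2873 (L l361 (L l440 (T t2846 (L l296 (T t2868 (K a111 (M a127 (F (L l296 (T t917 (L l84 (L l440 (T t2874 (L l296 (L l440 (T t2875 (L l440 (T t2855 (L l84 (L l296 (L l440 (T t2876 N)))))))))))))))) (K a127 (Fr a111 a159 l505 (V t2875)) N)))))))))))))))))))) (K a175 (M a95 (F (L l397 (L l440 (T t2877 (L l213 (L l296 (T t2878 (L l296 (L l440 (T t2864 N))))))))))) N))))))))))))))))))))))) (K a143 (M a207 (F (L l84 (T t89 (L l75 (T t2114 (L l137 (T t1643 N)))))))) (K a207 (M a143 (F (L l236 (L l339 (T t352 (L l289 (L l469 (L l512 (T t2879 (L l137 (L l289 (L l469 (T t52 (L l84 (L l236 (L l339 (T t90 (L l84 (L l512 (T t2880 (K a192 (M a4 (L l236 (L l339 (F (T t1399 (L l73 (L l489 (L l511 (T t519 (L l296 (T t131 (K a133 (M a74 (L l236 (F (T t1399 (L l73 (L l489 (L l511 (T t519 (L l296 (T t131 (K a197 (M a202 (L l311 (F (T t1399 (L l75 (L l512 (T t2881 (L l73 (L l489 (L l511 (T t519 (K a5 (M a69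 (F (T t1604 (L l153 (T t2882 N))))) (K a69 (M a5 (F (T t1399 (L l491 (T t2883 N))))) N))))))))))))) (K a202 (M a197 (F (T t1399 (L l73 (L l489 (L l511 (T t519 (L l296 (T t131 N))))))))) N)))))))))))) (K a197 (M a202 (L l339 (F (T t1399 (L l73 (L l489 (L l511 (T t519 (L l275 (L l296 (T t131 (K a133 (M a74 (L l311 (F (T t1399 (L l75 (L l512 (T t2881 (L l73 (L l489 (L l511 (T t519 (K a5 (M a69 (F (T t1604 (L l153 (T t2882 N))))) (K a69 (M a5 (F (T t1399 (L l491 (T t2883 N))))) N))))))))))))) (K a74 (M a133 (L l84 (F (T t129 (L l289 (L l296 (L l469 (L l512 (T t2884 (K a64 (M a69 (F (T t2885 (L l229 (L l235 (L l321 (L l327 (T t2886 N)))))))) (K a69 (M a64 (F (T t359 (L l73 (L l489 (L l511 (T t519 N))))))) N))))))))))) N))))))))))))) (K a74 (M a133 (L l84 (L l236 (F (T t129 (L l289 (L l296 (L l318 (L l469 (L l512 (T t2884 (K a64 (M a69 (L l236 (F (T t1604 (L l336 (T t2465 (K a197 (M a202 (F (T t2885 (L l229 (L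 l235 (L l321 (L l327 (T t2886 N)))))))) (K a202 (Fr a197 a5 l311 (V t2887)) N)))))))) (K a69 (M a64 (L l236 (F (T t359 (L l73 (L l489 (L l511 (T t519 (K a197 (M a202 (F (T t359 (L l73 (L l489 (L l511 (T t519 N))))))) (K a202 (M a197 (L l318 (F (T t359 (L l73 (L l489 (L l511 (T t519 (K a10 (Fr a138 a128 l160 (V t359)) (K a138 (M a10 (F (L l206 (T t359 (L l73 (L l320 (L l489 (L l511 (T t519 N))))))))) N)))))))))) N)))))))))) (K a197 (M a202 (L l84 (F (T t129 (L l289 (L l296 (L l469 (L l512 (T t2884 (K a64 (M a69 (F (T t2885 (L l229 (L l235 (L l321 (L l327 (T t2886 N)))))))) (K a69 (M a64 (F (T t359 (L l73 (L l489 (L l511 (T t519 N))))))) N))))))))))) (K a202 (M a197 (L l84 (L l318 (F (T t1399 (L l7 (L l234 (L l336 (T t2888 (K a64 (Fr a69 a5 l311 (V t2887)) (K a69 (M a64 (L l318 (F (T t359 (L l73 (L l489 (L l511 (T t519 (K a10 (Fr a138 a128 l160 (V t359)) (K a138 (M a10 (F (L l206 (T t359 (L l73 (L l320 (L l489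 (L l511 (T t519 N))))))))) N)))))))))) (K a10 (Fr a138 a128 l160 (V t519)) (K a138 (M a10 (L l84 (F (L l320 (T t1399 (L l7 (L l158 (L l234 (L l336 (T t2888 (K a64 (Fr a69 a5 l311 (V t2887)) (K a69 (M a64 (F (L l206 (T t359 (L l73 (L l320 (L l489 (L l511 (T t519 N))))))))) N)))))))))))) N))))))))))))) N))))))))))))))) (K a202 (M a197 (L l339 (F (T t1399 (L l75 (L l84 (L l151 (L l296 (L l512 (T t2889 (L l73 (L l489 (L l511 (T t519 (K a133 (M a74 (F (T t1399 (L l73 (L l489 (L l511 (T t519 (L l296 (T t131 N))))))))) (K a74 (M a133 (L l84 (L l318 (F (T t1399 (L l7 (L l234 (L l336 (T t2888 (K a64 (Fr a69 a5 l311 (V t2887)) (K a69 (M a64 (L l318 (F (T t359 (L l73 (L l489 (L l511 (T t519 (K a10 (Fr a138 a128 l160 (V t359)) (K a138 (M a10 (F (L l206 (T t359 (L l73 (L l320 (L l489 (L l511 (T t519 N))))))))) N)))))))))) (K a10 (Fr a138 a128 l160 (V t519)) (K a138 (M a10 (L l84 (F (L l320 (T t1399 (L l7 (L l158 (L l234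 (L l336 (T t2888 (K a64 (Fr a69 a5 l311 (V t2887)) (K a69 (M a64 (F (L l206 (T t359 (L l73 (L l320 (L l489 (L l511 (T t519 N))))))))) N)))))))))))) N))))))))))))) N)))))))))))))))) N))))))))))))))) (K a21 (M a12 (F (T t123 (L l137 (L l231 (L l327 (T t124 (L l15 (L l137 (T t574 N)))))))))) (K a149 (M a4 (F (T t129 (L l220 (L l301 (L l481 (T t1509 (L l202 (T t1372 N))))))))) (K a213 (Fr a170 a255 l476 (Fr a42 a21 l68 (Fr a106 a234 l390 (Fr a192 a149 l519 (V t581))))) (K a42 (M a12 (F (L l56 (T t123 (L l137 (L l231 (L l327 (L l390 (T t124 (L l56 (L l137 (T t574 N)))))))))))) (K a170 (M a4 (F (L l390 (L l464 (T t129 (L l390 (T t131 (L l137 (L l464 (T t130 (L l301 (L l464 (L l481 (T t938 N)))))))))))))) N)))))))))))))))))))))))))) N)))))))))))))))))))))))))⟩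
def e0_63__79_9 : Ent 4 := ⟨[a0, a63], [a79, a16], (M a12 (F (T t153 (L l18 (T t122 (L l10 (T t151 (L l18 (T t152 (K a4 (M a60 (F (T t43 (L l325 (T t398 (L l10 (T t448 N))))))) (K a8 (M a60 (F (T t570 (L l52 (L l56 (T t43 (L l10 (L l52 (L l56 (T t448 N)))))))))) (K a21 (M a192 (L l18 (F (T t468 (L l15 (L l347 (T t450 (L l15 (L l347 (T t157 (K a26 (M a31 (F (T t468 (L l340 (T t1348 N))))) (K a31 (M a26 (F (T t468 (L l13 (L l15 (L l347 (L l375 (T t450 (L l50 (L l84 (T t681 N))))))))))) N)))))))))))) (K a25 (M a192 (F (T t449 (L l15 (T t450 (L l137 (T t21 N))))))) (K a29 (M a192 (F (T t449 (L l137 (L l371 (T t21 (T t160 N))))))) (K a38 (M a192 (F (T t468 (T t450 (L l137 (T t21 N)))))) (K a42 (M a192 (F (T t449 (T t450 (L l56 (T t157 N)))))) (K a46 (M a192 (F (T t449 (L l137 (T t21 (L l26 (L l408 (T t160 N)))))))) (K a51 (M a192 (F (T t161 (L l79 (L l513 (T t156 (L l137 (L l439 (T t21 N))))))))) N))))))))))))))))))⟩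
def e0_63__79_10 : Ent 4 := ⟨[a0, a63], [a79, a17], (M a60 (F (T t43 (L l15 (T t67 (L l15 (T t68 (L l41 (T t69 (K a20 (M a48 (F (T t64 (L l11 (L l15 (L l325 (T t1 (L l11 (L l15 (T t235 N)))))))))) (K a40 (M a48 (F (T t64 (L l15 (L l325 (T t1 (L l15 (L l52 (T t235 N))))))))) (K a21 (M a192 (L l15 (F (T t72 (L l347 (T t73 (L l137 (L l347 (T t74 (K a25 (M a29 (F (T t75 (L l56 (T t1349 N))))) (K a29 (M a25 (F (T t1516 (T t72 (L l11 (L l84 (T t78 N))))))) N))))))))))) (K a41 (M a192 (F (T t79 (L l15 (L l65 (T t35 (T t73 N))))))) (K a61 (M a192 (F (T t72 (L l15 (L l65 (L l515 (T t35 (T t80 N)))))))) (K a22 (M a192 (F (T t72 (L l137 (T t21 (T t73 N)))))) (K a42 (M a192 (F (T t79 (T t73 (L l22 (L l137 (T t74 N))))))) (K a62 (M a192 (F (T t72 (L l15 (T t35 (L l66 (L l516 (T t80 N)))))))) (K a3 (M a192 (F (T t1343 (L l477 (T t79 (L l15 (L l475 (T t35 N)))))))) N))))))))))))))))))⟩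
def e0_63__79_11 : Ent 4 := ⟨[a0, a63], [a79, a18], (M a149 (F (T t25 (T t175 (T t176 (L l84 (T t177 (K a192 (M a53 (F (T t178 (L l10 (L l236 (T t179 (L l84 (L l236 (L l296 (T t180 N)))))))))) (K a21 (M a48 (F (T t4 (L l10 (L l18 (T t1082 (L l10 (L l18 (T t14 N))))))))) (K a85 (M a16 (F (T t504 (L l144 (T t190 (L l16 (L l94 (L l151 (T t278 N))))))))) (K a213 (Fr a106 a192 l519 (Fr a42 a21 l68 (Fr a170 a234 l390 (Fr a255 a85 l476 (V t582))))) (K a42 (M a48 (F (T t11 (L l10 (L l390 (T t1082 (L l10 (L l54 (T t14 N))))))))) (K a106 (M a48 (F (L l325 (T t1 (L l10 (L l498 (T t14 (L l390 (L l498 (T t6 (L l390 (T t26 N)))))))))))) (K a170 (M a48 (F (T t4 (L l10 (L l462 (T t48 (L l151 (L l390 (T t13 N))))))))) (K a191 (M a16 (F (T t112 (T t190 (L l213 (T t191 N)))))) (K a255 (M a16 (F (T t112 (L l266 (T t190 (L l289 (L l296 (T t191 N)))))))) N))))))))))))))))⟩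
def e0_63__79_12 : Ent 4 := ⟨[a0, a63], [a79, a19], (M a149 (F (T t25 (T t175 (T t176 (L l84 (T t177 (K a192 (M a53 (F (T t178 (L l10 (L l236 (T t179 (L l84 (L l236 (L l296 (T t180 N)))))))))) (K a21 (M a48 (F (T t4 (L l10 (L l18 (T t1082 (L l10 (L l18 (T t14 N))))))))) (K a85 (M a16 (F (L l455 (T t112 (L l144 (L l345 (T t190 (L l94 (L l151 (T t278 N)))))))))) (K a213 (Fr a106 a192 l519 (Fr a42 a21 l68 (Fr a170 a234 l390 (Fr a255 a85 l476 (V t582))))) (K a42 (M a48 (F (T t11 (L l10 (L l390 (T t1082 (L l10 (L l54 (T t14 N))))))))) (K a106 (M a48 (F (L l325 (T t1 (L l10 (L l498 (T t14 (L l390 (L l498 (T t6 (L l367 (L l390 (T t26 N))))))))))))) (K a170 (M a48 (F (T t4 (L l10 (L l462 (T t48 (L l151 (L l390 (T t13 N))))))))) (K a191 (M a252 (F (T t940 (T t941 N)))) (K a255 (M a16 (F (T t112 (L l266 (L l345 (T t190 (L l289 (L l296 (L l367 (T t191 N)))))))))) N))))))))))))))))⟩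
def e0_63__79_13 : Ent 4 := ⟨[a0, a63], [a79, a22], (M a149 (F (L l66 (T t25 (L l11 (T t175 (L l66 (T t176 (L l84 (T t177 (K a192 (M a53 (F (L l66 (T t178 (L l236 (T t179 (L l66 (L l84 (L l236 (L l296 (T t180 N))))))))))) (K a21 (M a48 (L l11 (F (T t4 (L l18 (T t1082 (L l18 (T t14 (K a20 (M a23 (F (T t15 (L l65 (L l346 (T t182 N)))))) (K a23 (M a20 (F (T t4 (L l19 (L l50 (T t183 N)))))) N)))))))))) (K a85 (M a16 (F (L l66 (T t504 (L l144 (T t190 (L l16 (L l66 (L l94 (L l151 (T t278 N))))))))))) (K a213 (Fr a106 a192 l519 (Fr a42 a21 l68 (Fr a170 a234 l390 (Fr a255 a85 l476 (V t582))))) (K a42 (M a2 (F (L l22 (T t189 (L l83 (L l390 (T t1848 (L l22 (T t1847 (L l11 (L l84 (L l390 (T t1849 N))))))))))))) (K a106 (M a48 (F (L l11 (T t48 (L l498 (T t14 (L l66 (L l390 (L l498 (T t6 (L l66 (L l390 (T t26 N))))))))))))) (K a170 (M a48 (F (T t4 (L l11 (L l462 (T t48 (L l151 (L l390 (T t13 N))))))))) (K a191 (M a240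 (F (T t962 (L l66 (T t963 N))))) (K a255 (M a16 (F (T t192 (L l66 (T t112 (L l66 (L l289 (L l296 (T t191 N))))))))) N)))))))))))))))))))⟩
def e0_63__79_14 : Ent 4 := ⟨[a0, a63], [a79, a23], (M a149 (F (T t25 (L l11 (T t175 (T t176 (L l84 (T t177 (K a192 (M a53 (F (T t178 (L l236 (T t179 (L l84 (L l236 (L l296 (T t180 N))))))))) (K a21 (M a48 (L l11 (F (T t4 (L l18 (T t1082 (L l18 (T t14 (K a20 (M a22 (F (T t4 (L l14 (L l18 (T t1082 (L l14 (L l18 (T t14 N))))))))) (K a22 (M a20 (F (T t4 (L l19 (L l50 (T t183 N)))))) N)))))))))) (K a85 (M a16 (F (L l455 (T t112 (L l144 (T t190 (L l94 (L l151 (T t278 N))))))))) (K a213 (Fr a106 a192 l519 (Fr a42 a21 l68 (Fr a170 a234 l390 (Fr a255 a85 l476 (V t582))))) (K a42 (M a48 (F (T t11 (L l390 (T t1082 (L l54 (T t14 N))))))) (K a106 (M a48 (F (L l11 (T t48 (L l498 (T t14 (L l390 (L l498 (T t6 (L l390 (T t26 N))))))))))) (K a170 (M a48 (F (T t4 (L l11 (L l462 (T t48 (L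 l151 (L l390 (T t13 N))))))))) (K a191 (M a252 (F (T t940 (T t941 N)))) (K a255 (M a16 (F (T t112 (L l266 (T t190 (L l289 (L l296 (T t191 N)))))))) N)))))))))))))))))⟩
def e0_63__79_15 : Ent 4 := ⟨[a0, a63], [a79, a26], (M a192 (F (L l137 (T t21 (L l18 (T t35 (L l84 (T t202 (L l54 (T t37 (K a64 (M a12 (L l84 (F (T t450 (L l18 (T t122 (L l54 (L l80 (L l144 (T t160 (K a69 (M a74 (F (T t450 (L l54 (L l72 (L l311 (L l329 (T t2890 N)))))))) (K a74 (M a69 (F (T t467 (L l318 (T t2402 N))))) N)))))))))))) (K a128 (M a12 (F (T t221 (L l18 (T t122 (L l54 (T t160 N))))))) (K a21 (M a16 (F (T t210 (L l54 (L l137 (L l347 (T t222 (L l137 (L l325 (L l347 (T t223 N))))))))))) (K a85 (M a48 (F (T t28 (L l325 (L l347 (T t20 (L l18 (L l54 (L l144 (L l368 (T t224 N))))))))))) (K a149 (M a12 (F (L l54 (T t151 (L l79 (L l202 (L l220 (T t156 (L l18 (L l79 (L l202 (L l220 (L l347 (L l371 (T t227 (L l54 (L l84 (L l495 (T t228 N)))))))))))))))))))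 (K a42 (M a58 (F (T t2891 (L l18 (T t2892 (L l28 (T t2893 (L l28 (L l137 (L l325 (T t2894 (K a48 (Fr a106 a149 l519 (Fr a202 a154 l498 (Fr a207 a197 l236 (Fr a138 a69 l332 (Fr a74 a10 l318 (V t2895)))))) N)))))))))))) (K a106 (M a12 (F (L l79 (T t156 (L l18 (T t122 (L l18 (L l79 (L l501 (T t227 (L l54 (L l84 (L l132 (L l144 (L l390 (L l408 (T t228 N))))))))))))))))) (K a170 (M a48 (F (L l18 (T t19 (L l54 (L l325 (L l390 (T t206 (L l220 (L l404 (T t29 N))))))))))) (K a255 (M a224 (F (L l84 (T t233 (T t2896 (L l18 (L l75 (T t234 N)))))))) N)))))))))))))))))))⟩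
def e0_63__79_16 : Ent 4 := ⟨[a0, a63], [a79, a27], (M a149 (F (T t25 (T t175 (T t176 (L l84 (T t177 (K a192 (M a53 (F (T t178 (L l236 (T t179 (L l84 (L l236 (L l296 (T t180 N))))))))) (K a21 (M a48 (F (T t4 (L l18 (T t1082 (L l18 (T t14 N))))))) (K a85 (M a16 (F (L l455 (T t112 (L l144 (T t190 (L l12 (L l94 (L l151 (L l357 (T t278 N))))))))))) (K a213 (Fr a106 a192 l519 (Fr a42 a21 l68 (Fr a170 a234 l390 (Fr a255 a85 l476 (V t582))))) (K a42 (M a48 (F (T t11 (L l390 (T t1082 (L l54 (T t14 N))))))) (K a106 (M a48 (F (T t48 (L l498 (T t14 (L l390 (L l498 (T t6 (L l390 (T t26 N)))))))))) (K a170 (M a48 (F (T t4 (L l462 (T t48 (L l151 (L l390 (T t13 N)))))))) (K a191 (M a240 (F (T t962 (T t963 N)))) (K a255 (M a16 (F (T t112 (L l266 (T t190 (L l289 (L l296 (T t191 N)))))))) N))))))))))))))))⟩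
def e0_63__79_17 : Ent 4 := ⟨[a0, a63], [a79, a31], (M a149 (F (T t25 (L l18 (T t175 (T t176 (L l84 (T t177 (K a192 (M a29 (F (T t956 (L l272 (T t641 (L l272 (L l296 (L l363 (T t957 N))))))))) (K a21 (M a12 (L l18 (F (T t958 (L l79 (T t648 (L l50 (T t649 (K a16 (M a26 (F (T t958 (L l79 (T t648 (L l50 (T t649 N))))))) (K a26 (M a16 (F (T t958 (L l50 (L l57 (T t652 N)))))) N)))))))))) (K a85 (M a48 (F (T t4 (L l18 (L l325 (T t1 (L l144 (L l151 (T t13 N))))))))) (K a213 (Fr a106 a192 l519 (Fr a42 a21 l68 (Fr a170 a234 l390 (Fr a255 a85 l476 (V t582))))) (K a42 (M a48 (F (T t11 (L l18 (L l390 (T t1082 (L l18 (L l54 (T t14 N))))))))) (K a106 (M a12 (F (L l408 (T t649 (L l13 (L l18 (T t122 (L l390 (L l408 (T t960 (L l390 (T t961 N)))))))))))) (K a170 (M a48 (F (T t4 (L l18 (L l325 (L l462 (T t1 (L l151 (L l390 (T t13 N)))))))))) (K a191 (M a240 (F (T t962 (T t963 N)))) (K a255 (M a48 (F (T t964 (L l18 (L l325 (L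 l469 (T t1 (L l151 (L l266 (T t13 N)))))))))) N)))))))))))))))))⟩
def e0_63__79_18 : Ent 4 := ⟨[a0, a63], [a79, a32], (M a12 (F (T t152 (L l20 (T t122 (L l28 (T t151 (L l28 (T t153 (K a4 (M a60 (F (T t1413 (L l46 (L l50 (T t67 (L l24 (L l28 (T t448 N))))))))) (K a8 (M a60 (F (T t68 (L l325 (T t398 (L l24 (L l28 (L l52 (L l56 (T t448 N)))))))))) (K a21 (M a192 (F (T t468 (L l15 (L l347 (T t450 (L l15 (L l347 (T t157 N))))))))) (K a25 (M a192 (F (T t449 (L l15 (T t450 (L l137 (T t21 N))))))) (K a29 (M a192 (F (T t449 (L l137 (L l371 (T t21 (L l28 (T t160 N)))))))) (K a38 (M a192 (F (T t468 (T t450 (L l137 (T t21 N)))))) (K a42 (M a192 (L l28 (F (T t449 (T t450 (L l56 (T t157 (K a37 (M a47 (F (T t449 (L l376 (T t1378 N))))) (K a47 (M a37 (F (T t450 (T t449 (L l84 (L l390 (L l411 (T t681 N)))))))) N))))))))) (K a46 (M a192 (F (T t449 (L l137 (T t21 (L l26 (L l28 (L l408 (T t160 N))))))))) (K a51 (M a192 (F (T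 t57 (L l79 (L l513 (T t156 (L l415 (T t450 N)))))))) N))))))))))))))))))⟩
def e0_63__79_19 : Ent 4 := ⟨[a0, a63], [a79, a33], (M a149 (F (T t25 (T t175 (T t176 (L l84 (T t177 (K a192 (M a53 (F (L l20 (T t178 (L l236 (T t179 (L l84 (L l236 (L l296 (T t180 N)))))))))) (K a21 (M a48 (F (T t4 (L l18 (T t1082 (L l18 (T t14 N))))))) (K a85 (M a16 (F (L l20 (T t504 (L l20 (L l144 (T t190 (L l94 (L l151 (T t278 N)))))))))) (K a213 (Fr a106 a192 l519 (Fr a42 a21 l68 (Fr a170 a234 l390 (Fr a255 a85 l476 (V t582))))) (K a42 (M a48 (F (T t11 (L l390 (T t1082 (L l54 (T t14 N))))))) (K a106 (M a48 (F (T t48 (L l498 (T t14 (L l390 (L l498 (T t6 (L l20 (L l390 (T t26 N))))))))))) (K a170 (M a48 (F (T t4 (L l462 (T t48 (L l151 (L l390 (T t13 N)))))))) (K a191 (M a16 (F (L l20 (T t112 (L l213 (T t191 (L l20 (L l213 (T t192 N))))))))) (K a255 (M a16 (F (L l20 (T t112 (L l289 (L l296 (T t191 (L l20 (T t192 N))))))))) N))))))))))))))))⟩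
def e0_63__79_20 : Ent 4 := ⟨[a0, a63], [a79, a34], (M a85 (F (T t255 (L l26 (L l84 (T t88 (L l26 (L l84 (T t89 (L l84 (L l402 (T t90 (K a64 (M a16 (L l84 (F (L l20 (T t101 (L l26 (L l116 (T t98 (L l20 (L l26 (L l325 (T t97 (K a69 (M a74 (F (L l20 (L l26 (L l325 (T t97 (L l26 (L l116 (T t98 (L l20 (T t2897 N))))))))))) (K a74 (M a69 (F (T t2898 (L l26 (L l116 (T t98 N)))))) N)))))))))))))) (K a192 (M a16 (F (L l20 (L l26 (T t112 (L l84 (L l296 (T t666 (L l26 (L l296 (T t98 N))))))))))) (K a21 (M a48 (F (L l20 (T t99 (L l137 (L l402 (T t50 (L l20 (L l47 (L l137 (T t100 N))))))))))) (K a149 (M a16 (F (L l84 (T t666 (L l20 (L l26 (T t112 (L l26 (L l137 (L l170 (L l220 (L l402 (T t2899 N))))))))))))) (K a213 (Fr a170 a255 l476 (Fr a42 a21 l68 (Fr a106 a234 l390 (Fr a192 a149 l519 (V t581))))) (K a42 (M a46 (F (T t1814 (L l137 (L l390 (L l402 (T t1389 (L l56 (L l137 (L l378 (T t1390 (L l84 (L l378 (L l390 (L l402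 (T t1391 N)))))))))))))))) (K a106 (M a48 (F (T t364 (T t48 (L l137 (L l390 (L l402 (T t50 N)))))))) (K a170 (M a102 (F (L l208 (T t1392 (L l26 (L l390 (T t1393 (L l208 (L l378 (T t1394 (L l26 (L l208 (L l390 (T t1395 N)))))))))))))) (K a255 (M a16 (F (L l20 (L l26 (T t112 (L l20 (L l137 (L l289 (T t113 (L l26 (L l289 (L l296 (T t98 N))))))))))))) N)))))))))))))))))))))⟩
def e0_63__79_21 : Ent 4 := ⟨[a0, a63], [a79, a35], (M a149 (F (T t25 (T t175 (T t176 (L l84 (T t177 (K a192 (M a53 (F (L l20 (T t178 (L l236 (L l403 (T t179 (L l84 (L l236 (L l296 (T t180 N))))))))))) (K a21 (M a48 (F (T t4 (L l18 (L l381 (T t1082 (L l18 (L l403 (T t14 N))))))))) (K a85 (M a16 (F (L l20 (T t504 (L l20 (L l144 (T t190 (L l94 (L l151 (T t278 N)))))))))) (K a213 (Fr a106 a192 l519 (Fr a42 a21 l68 (Fr a170 a234 l390 (Fr a255 a85 l476 (V t582))))) (K a42 (M a48 (F (T t11 (L l381 (L l390 (T t1082 (L l54 (L l403 (T t14 N)))))))))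 (K a106 (M a48 (F (T t48 (L l403 (L l498 (T t14 (L l390 (L l498 (T t6 (L l20 (L l390 (T t26 N)))))))))))) (K a170 (M a48 (F (T t4 (L l462 (T t48 (L l151 (L l390 (T t13 N)))))))) (K a191 (M a16 (F (L l20 (T t112 (L l213 (T t191 (L l20 (L l213 (T t192 N))))))))) (K a255 (M a16 (F (L l20 (T t112 (L l289 (L l296 (T t191 (L l20 (T t192 N))))))))) N))))))))))))))))⟩
def e0_63__79_22 : Ent 4 := ⟨[a0, a63], [a79, a37], (M a149 (F (L l28 (T t25 (L l47 (T t175 (L l28 (T t176 (L l84 (T t177 (K a192 (M a29 (F (L l28 (T t956 (L l272 (T t641 (L l28 (L l272 (L l296 (T t957 N)))))))))) (K a21 (M a48 (L l47 (F (T t16 (L l18 (T t14 (L l18 (T t1082 (K a5 (Fr a53 a58 l38 (V t2900)) (K a53 (M a5 (F (L l84 (L l325 (T t2104 (L l28 (T t1938 (L l28 (L l137 (L l383 (T t2901 (L l28 (L l419 (T t2902 N)))))))))))))) N)))))))))) (K a85 (M a4 (F (L l28 (T t519 (L l144 (T t653 (L l21 (L l28 (L l126 (T t654 N)))))))))) (K a213 (Fr a106 a192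 l519 (Fr a42 a21 l68 (Fr a170 a234 l390 (Fr a255 a85 l476 (V t582))))) (K a42 (M a32 (F (L l54 (T t985 (L l390 (T t2903 (L l54 (L l325 (T t2904 (L l47 (L l84 (L l390 (T t2179 N))))))))))))) (K a106 (M a12 (F (L l47 (T t122 (L l408 (T t649 (L l28 (L l390 (L l408 (T t960 (L l28 (L l390 (T t961 N))))))))))))) (K a170 (M a12 (F (T t958 (L l47 (L l402 (T t122 (L l79 (L l390 (T t648 N))))))))) (K a191 (M a144 (F (T t992 (L l28 (L l213 (T t993 (L l75 (L l151 (T t994 N))))))))) (K a255 (M a4 (F (T t660 (L l21 (L l28 (T t661 (L l290 (T t653 N)))))))) N)))))))))))))))))))⟩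
def e0_63__79_23 : Ent 4 := ⟨[a0, a63], [a79, a38], (M a149 (F (L l26 (T t25 (L l50 (T t175 (L l26 (T t176 (L l84 (T t177 (K a192 (M a53 (F (L l26 (T t178 (L l236 (T t179 (L l26 (L l84 (L l236 (L l296 (T t180 N))))))))))) (K a21 (M a48 (L l50 (F (T t4 (L l18 (T t1082 (L l18 (T t14 (K a4 (M a55 (F (T t15 (L l15 (L l310 (T t2433 N)))))) (K a55 (M a4 (F (T t15 (L l18 (L l29 (T t518 N)))))) N)))))))))) (K a85 (M a16 (F (L l26 (T t504 (L l144 (T t190 (L l26 (L l72 (L l94 (L l151 (T t278 N))))))))))) (K a213 (Fr a106 a192 l519 (Fr a42 a21 l68 (Fr a170 a234 l390 (Fr a255 a85 l476 (V t582))))) (K a42 (M a34 (F (L l56 (T t281 (L l149 (L l390 (T t280 (L l56 (T t2434 (L l50 (L l84 (L l390 (T t282 N))))))))))))) (K a106 (M a48 (F (L l50 (T t48 (L l498 (T t14 (L l26 (L l390 (L l498 (T t6 (L l26 (L l390 (T t26 N))))))))))))) (K a170 (M a48 (F (T t4 (L l50 (L l462 (T t48 (L l151 (L l390 (T t13 N))))))))) (K a191 (M a240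 (F (T t962 (L l26 (T t963 N))))) (K a255 (M a16 (F (T t192 (L l26 (T t112 (L l26 (L l289 (L l296 (T t191 N))))))))) N)))))))))))))))))))⟩
def e0_63__79_24 : Ent 4 := ⟨[a0, a63], [a79, a39], (M a149 (F (T t25 (T t175 (T t176 (L l84 (T t177 (K a192 (M a53 (F (T t178 (L l236 (T t179 (L l84 (L l236 (L l296 (T t180 N))))))))) (K a21 (M a48 (F (T t4 (L l18 (T t1082 (L l18 (T t14 N))))))) (K a85 (M a16 (F (T t504 (L l144 (T t190 (L l94 (L l151 (T t278 N)))))))) (K a213 (Fr a106 a192 l519 (Fr a42 a21 l68 (Fr a170 a234 l390 (Fr a255 a85 l476 (V t582))))) (K a42 (M a48 (F (T t11 (L l390 (T t1082 (L l54 (T t14 N))))))) (K a106 (M a48 (F (T t48 (L l498 (T t14 (L l390 (L l498 (T t6 (L l390 (T t26 N)))))))))) (K a170 (M a48 (F (T t4 (L l462 (T t48 (L l151 (L l390 (T t13 N)))))))) (K a191 (M a16 (F (T t112 (T t190 (L l213 (T t191 N)))))) (K a255 (M a16 (F (T t112 (L l266 (T t190 (L l289 (L l296 (T t191 N)))))))) N))))))))))))))))⟩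
def e0_63__79_25 : Ent 4 := ⟨[a0, a63], [a79, a43], (M a149 (F (T t175 (L l22 (L l84 (T t5 (L l22 (T t176 (L l84 (L l393 (T t177 (K a192 (M a53 (F (L l22 (T t178 (L l236 (T t179 (L l22 (L l84 (L l236 (L l296 (T t180 N))))))))))) (K a21 (M a48 (F (T t4 (L l18 (L l393 (T t1082 (L l18 (T t14 N)))))))) (K a85 (M a16 (F (L l22 (T t504 (L l144 (L l393 (T t190 (L l22 (L l94 (L l151 (T t278 N))))))))))) (K a213 (Fr a106 a192 l519 (Fr a42 a21 l68 (Fr a170 a234 l390 (Fr a255 a85 l476 (V t582))))) (K a42 (M a40 (F (T t973 (L l139 (L l390 (L l393 (T t974 (L l66 (L l391 (T t969 (L l84 (L l390 (L l391 (L l393 (T t972 N))))))))))))))) (K a106 (M a169 (F (L l142 (T t981 (L l22 (L l390 (T t977 (L l142 (L l391 (T t978 (L l22 (L l142 (L l390 (T t979 N)))))))))))))) (K a170 (M a48 (F (T t4 (L l462 (T t48 (L l151 (L l390 (L l393 (T t13 N))))))))) (K a191 (M a16 (F (T t2682 (L l22 (L l213 (T t191 (L l22 (L l325 (T t97 N)))))))))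 (K a255 (M a16 (F (T t192 (L l22 (T t112 (L l22 (L l289 (L l296 (T t191 N))))))))) N))))))))))))))))))))⟩
def e0_63__79_26 : Ent 4 := ⟨[a0, a63], [a79, a47], (M a149 (F (T t175 (L l28 (L l84 (T t5 (L l28 (T t176 (L l84 (L l411 (T t177 (K a192 (M a29 (F (L l23 (L l28 (T t956 (L l23 (L l272 (T t641 (L l28 (L l272 (L l296 (T t957 N)))))))))))) (K a21 (M a12 (F (L l23 (T t958 (L l79 (L l411 (T t648 (L l23 (L l50 (T t649 N)))))))))) (K a85 (M a48 (F (T t4 (L l28 (L l325 (L l455 (T t2 (L l144 (L l151 (L l411 (T t13 N))))))))))) (K a213 (Fr a106 a192 l519 (Fr a42 a21 l68 (Fr a170 a234 l390 (Fr a255 a85 l476 (V t582))))) (K a42 (M a32 (F (L l151 (T t983 (L l54 (L l397 (T t985 (L l151 (L l390 (L l411 (T t984 (L l84 (L l390 (L l397 (L l411 (T t2179 (K a101 (Fr a192 a106 l519 (Fr a48 a16 l40 (Fr a128 a64 l304 (Fr a170 a191 l220 (Fr a96 a144 l484 (Fr a160 a224 l376 (Fr a165 a175 l180 (V t3067)))))))) N)))))))))))))))))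 (K a106 (M a165 (F (L l28 (L l130 (L l390 (T t2906 (L l28 (L l84 (L l390 (T t988 (L l130 (L l325 (L l397 (T t989 (L l28 (L l130 (L l151 (L l390 (T t990 (L l28 (L l390 (T t2907 (L l130 (L l137 (L l325 (T t987 N)))))))))))))))))))))))))) (K a170 (M a12 (F (T t991 (L l402 (T t122 (L l79 (L l390 (L l411 (T t648 N))))))))) (K a191 (M a144 (F (L l411 (T t992 (L l28 (L l213 (T t993 (L l151 (L l411 (T t994 N)))))))))) (K a255 (M a48 (F (T t16 (L l28 (L l325 (L l469 (T t2 (L l151 (L l266 (L l411 (T t13 N))))))))))) N))))))))))))))))))))⟩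
def e0_63__79_27 : Ent 4 := ⟨[a0, a63], [a79, a48], (M a60 (F (T t116 (L l45 (T t67 (L l45 (T t43 (L l45 (T t68 (L l45 (T t69 (K a20 (M a12 (F (T t570 (L l11 (L l30 (T t122 (L l11 (L l46 (T t399 N))))))))) (K a40 (M a12 (F (T t1413 (L l30 (T t122 (L l24 (T t399 N))))))) (K a21 (M a192 (F (T t1343 (L l11 (L l436 (T t79 (L l137 (L l347 (T t74 N))))))))) (K a41 (M a192 (F (T t1343 (L l436 (T t79 (L l65 (L l440 (T t35 N)))))))) (K a61 (M a192 (F (T t1334 (L l65 (L l440 (L l515 (T t35 (T t80 N)))))))) (K a22 (M a192 (F (T t614 (L l11 (L l436 (T t79 (L l11 (L l440 (T t35 N))))))))) (K a42 (M a192 (F (T t614 (L l436 (T t79 (L l22 (L l137 (T t74 N)))))))) (K a62 (M a192 (F (T t57 (L l436 (T t79 (L l66 (L l516 (T t80 N)))))))) (K a3 (M a168 (L l45 (F (T t2908 (T t2909 (L l440 (L l475 (L l477 (T t2910 (K a33 (M a18 (F (T t2908 (L l70 (T t2911 N))))) (K a18 (M a33 (F (T t2908 (L l70 (T t2912 N))))) N))))))))))) N))))))))))))))))))))⟩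
def e0_63__79_28 : Ent 4 := ⟨[a0, a63], [a79, a49], (M a149 (F (T t25 (T t175 (T t176 (L l84 (T t177 (K a192 (M a53 (F (T t178 (L l236 (T t179 (L l84 (L l236 (L l296 (T t180 N))))))))) (K a21 (M a48 (F (T t4 (L l18 (T t1082 (L l18 (T t14 N))))))) (K a85 (M a16 (F (T t504 (L l144 (T t190 (L l94 (L l151 (T t278 N)))))))) (K a213 (Fr a106 a192 l519 (Fr a42 a21 l68 (Fr a170 a234 l390 (Fr a255 a85 l476 (V t582))))) (K a42 (M a48 (F (L l54 (T t4 (L l390 (T t1082 (L l54 (T t14 N)))))))) (K a106 (M a48 (F (L l35 (T t48 (L l498 (T t14 (L l390 (L l437 (L l498 (T t6 (L l390 (T t26 N)))))))))))) (K a170 (M a48 (F (T t4 (L l35 (L l462 (T t48 (L l151 (L l390 (T t13 N))))))))) (K a191 (M a16 (F (T t112 (T t190 (L l213 (T t191 N)))))) (K a255 (M a16 (F (T t112 (L l266 (T t190 (L l289 (L l296 (T t191 N)))))))) N))))))))))))))))⟩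
def e0_63__79_29 : Ent 4 := ⟨[a0, a63], [a79, a50], (M a149 (F (T t25 (T t175 (T t176 (L l84 (T t177 (K a192 (M a53 (F (L l36 (T t178 (L l84 (L l236 (L l296 (T t180 (L l36 (L l236 (T t179 N))))))))))) (K a21 (M a48 (F (L l36 (T t4 (L l18 (T t1082 (L l18 (L l36 (T t14 N))))))))) (K a85 (M a16 (F (L l325 (T t97 (L l144 (T t190 (L l72 (L l94 (L l151 (T t278 N)))))))))) (K a213 (Fr a106 a192 l519 (Fr a42 a21 l68 (Fr a170 a234 l390 (Fr a255 a85 l476 (V t582))))) (K a42 (M a48 (F (T t11 (L l390 (T t1082 (L l36 (L l54 (T t14 N)))))))) (K a106 (M a48 (F (T t48 (L l36 (L l498 (T t14 (L l36 (L l390 (L l498 (T t6 (L l390 (T t26 N)))))))))))) (K a170 (M a48 (F (T t11 (L l462 (T t48 (L l151 (L l390 (T t13 N)))))))) (K a191 (M a16 (F (L l325 (T t97 (T t190 (L l213 (T t191 N))))))) (K a255 (M a16 (F (L l36 (T t112 (L l266 (T t190 (L l289 (L l296 (T t191 N))))))))) N))))))))))))))))⟩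
def e0_63__79_30 : Ent 4 := ⟨[a0, a63], [a79, a51], (M a60 (F (T t116 (L l43 (T t67 (L l43 (T t43 (L l43 (T t68 (L l43 (T t69 (K a20 (M a85 (F (T t49 (L l137 (L l441 (T t114 (T t1344 N))))))) (K a40 (M a85 (F (L l439 (T t255 (L l137 (L l392 (L l441 (T t114 (L l22 (T t1344 N)))))))))) (K a21 (M a192 (F (T t1343 (L l11 (L l441 (T t79 (L l137 (L l347 (T t74 N))))))))) (K a41 (M a192 (F (T t1343 (L l441 (T t79 (L l65 (L l439 (T t35 N)))))))) (K a61 (M a192 (F (T t1334 (L l65 (L l439 (L l515 (T t35 (T t80 N)))))))) (K a22 (M a192 (F (T t614 (L l11 (L l441 (T t79 (L l11 (L l439 (T t35 N))))))))) (K a42 (M a192 (F (T t614 (L l441 (T t79 (L l22 (L l137 (T t74 N)))))))) (K a62 (M a192 (F (T t57 (L l441 (T t79 (L l66 (L l516 (T t80 N)))))))) (K a3 (M a192 (L l43 (F (T t1343 (L l441 (L l477 (T t79 (L l439 (L l475 (T t35 (K a19 (M a35 (F (T t57 (L l307 (L l487 (T t75 (L l84 (L l441 (L l477 (T t1333 N)))))))))) (K a35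 (M a19 (F (T t57 (L l307 (L l487 (T t75 (L l84 (L l441 (L l477 (T t1333 N)))))))))) N)))))))))))) N))))))))))))))))))))⟩
def e0_63__79_31 : Ent 4 := ⟨[a0, a63], [a79, a53], (M a149 (F (T t25 (L l47 (T t175 (T t176 (L l84 (T t177 (K a192 (M a29 (F (T t956 (L l272 (T t641 (L l272 (L l296 (T t957 N)))))))) (K a21 (M a12 (L l47 (F (T t958 (L l79 (T t648 (L l50 (T t649 (K a5 (M a37 (F (T t958 (L l79 (T t648 (L l1 (L l50 (T t649 N)))))))) (K a37 (M a5 (F (T t647 (L l51 (L l65 (T t1428 N)))))) N)))))))))) (K a85 (M a4 (F (L l31 (T t519 (L l144 (T t653 (L l126 (T t654 N)))))))) (K a213 (Fr a106 a192 l519 (Fr a42 a21 l68 (Fr a170 a234 l390 (Fr a255 a85 l476 (V t582))))) (K a42 (M a240 (F (T t1090 (L l151 (L l390 (T t1091 (T t1207 N))))))) (K a106 (M a12 (F (L l47 (T t122 (L l408 (T t649 (L l390 (L l408 (T t960 (L l390 (T t961 N))))))))))) (K a170 (M a12 (F (T t958 (L l47 (L l402 (T t122 (L l79 (L l390 (T t648 N)))))))))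 (K a191 (M a16 (F (T t2683 (T t190 (L l213 (T t2684 N)))))) (K a255 (M a208 (F (T t2180 (L l151 (T t1833 (L l440 (T t1277 N))))))) N)))))))))))))))))⟩
def e0_63__79_32 : Ent 4 := ⟨[a0, a63], [a79, a54], (M a149 (F (T t25 (T t175 (T t176 (L l84 (T t177 (K a192 (M a53 (F (L l36 (T t178 (L l84 (L l236 (L l296 (T t180 (L l36 (L l236 (T t179 N))))))))))) (K a21 (M a48 (F (L l36 (T t4 (L l18 (T t1082 (L l18 (L l36 (T t14 N))))))))) (K a85 (M a16 (F (L l325 (T t97 (L l144 (T t190 (L l94 (L l151 (T t278 N))))))))) (K a213 (Fr a106 a192 l519 (Fr a42 a21 l68 (Fr a170 a234 l390 (Fr a255 a85 l476 (V t582))))) (K a42 (M a48 (F (L l31 (T t11 (L l390 (T t1082 (L l36 (L l54 (T t14 N))))))))) (K a106 (M a48 (F (L l31 (T t48 (L l36 (L l498 (T t14 (L l36 (L l390 (L l498 (T t6 (L l390 (T t26 N))))))))))))) (K a170 (M a48 (F (L l36 (T t4 (L l31 (L l462 (T t48 (L l151 (L l390 (T t13 N)))))))))) (K a191 (M a240 (F (T t962 (T t963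 N)))) (K a255 (M a16 (F (L l36 (T t112 (L l266 (T t190 (L l289 (L l296 (T t191 N))))))))) N))))))))))))))))⟩
def e0_63__79_33 : Ent 4 := ⟨[a0, a63], [a79, a55], (M a149 (F (T t25 (L l50 (T t175 (T t176 (L l84 (T t177 (K a192 (M a53 (F (T t178 (L l236 (T t179 (L l84 (L l236 (L l296 (L l423 (T t180 N)))))))))) (K a21 (M a48 (L l50 (F (T t4 (L l18 (T t1082 (L l18 (T t14 (K a4 (M a38 (F (T t4 (L l18 (T t1082 (L l18 (T t14 N))))))) (K a38 (M a4 (F (T t15 (L l18 (L l29 (T t518 N)))))) N)))))))))) (K a85 (M a16 (F (T t504 (L l144 (T t190 (L l94 (L l151 (T t278 N)))))))) (K a213 (Fr a106 a192 l519 (Fr a42 a21 l68 (Fr a170 a234 l390 (Fr a255 a85 l476 (V t582))))) (K a42 (M a48 (F (L l54 (T t4 (L l390 (T t1082 (L l54 (T t14 N)))))))) (K a106 (M a48 (F (L l498 (T t14 (L l31 (L l50 (L l325 (T t1 (L l390 (L l498 (T t6 (L l390 (T t26 N))))))))))))) (K a170 (M a48 (F (T t4 (L l31 (L l50 (L l462 (T t48 (L l151 (L l390 (T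 t13 N)))))))))) (K a191 (M a204 (F (T t1043 (T t1112 N)))) (K a255 (M a16 (F (T t112 (L l266 (T t190 (L l289 (L l296 (T t191 N)))))))) N)))))))))))))))))⟩
def e0_63__79_34 : Ent 4 := ⟨[a0, a63], [a79, a58], (M a149 (F (T t175 (L l54 (L l84 (T t5 (L l54 (T t176 (L l84 (L l498 (T t177 (K a192 (M a29 (F (L l54 (T t956 (L l272 (T t641 (L l54 (L l272 (L l296 (T t957 N)))))))))) (K a21 (M a240 (F (L l426 (T t1090 (L l498 (T t962 (L l426 (T t1207 N)))))))) (K a85 (M a4 (F (L l54 (T t519 (L l144 (L l498 (T t653 (L l54 (L l126 (T t654 N)))))))))) (K a213 (Fr a106 a192 l519 (Fr a42 a21 l68 (Fr a170 a234 l390 (Fr a255 a85 l476 (V t582))))) (K a42 (M a12 (L l54 (F (T t1984 (L l79 (L l390 (L l498 (T t648 (L l26 (T t649 (K a10 (M a26 (F (T t1984 (L l79 (L l390 (L l498 (T t648 (L l26 (T t649 N))))))))) (K a26 (M a10 (F (T t1984 (L l56 (L l72 (L l75 (L l325 (T t2913 N)))))))) N)))))))))))) (K a106 (M a154 (F (L l104 (L l137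 (T t1836 (L l54 (L l390 (T t1837 (L l84 (L l104 (L l137 (L l426 (T t1838 (L l54 (L l104 (L l151 (L l390 (T t1839 N)))))))))))))))))) (K a170 (M a12 (F (T t958 (L l402 (T t122 (L l79 (L l390 (L l498 (T t648 N))))))))) (K a191 (M a208 (F (L l498 (T t1277 (L l54 (L l151 (T t1276 (L l54 (L l137 (T t1275 N)))))))))) (K a255 (M a208 (F (L l498 (T t1278 (L l54 (L l151 (L l440 (T t1276 (L l54 (L l137 (L l296 (L l469 (T t1275 N))))))))))))) N))))))))))))))))))))⟩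
def e0_63__79_35 : Ent 4 := ⟨[a0, a63], [a79, a59], (M a149 (F (T t175 (L l56 (L l84 (T t5 (L l56 (T t176 (L l84 (L l501 (T t177 (K a192 (M a53 (F (L l32 (L l56 (T t178 (L l32 (L l236 (T t179 (L l56 (L l84 (L l236 (L l296 (T t180 N))))))))))))) (K a21 (M a48 (F (L l32 (T t4 (L l18 (L l501 (T t1082 (L l18 (L l32 (T t14 N)))))))))) (K a85 (M a16 (F (L l56 (L l325 (T t97 (L l144 (L l501 (T t190 (L l56 (L l94 (L l151 (T t278 N)))))))))))) (K a213 (Fr a106 a192 l519 (Fr a42 a21 l68 (Fr a170 a234 l390 (Fr a255 a85 l476 (V t582))))) (K a42 (M a8 (F (T t1841 (L l79 (L l390 (L l501 (T t644 (L l26 (L l427 (T t643 (L l84 (L l390 (L l427 (L l501 (T t1842 N))))))))))))))) (K a106 (M a153 (F (L l102 (T t1843 (L l56 (L l390 (T t1844 (L l102 (L l427 (T t1845 (L l56 (L l102 (L l390 (T t1846 N)))))))))))))) (K a170 (M a48 (F (T t11 (L l462 (T t48 (L l151 (L l390 (L l501 (T t13 N))))))))) (K a191 (M a16 (F (T t2914 (L l56 (L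 l213 (T t191 (L l56 (L l325 (T t97 N))))))))) (K a255 (M a16 (F (L l32 (T t192 (L l56 (L l289 (L l296 (T t191 (L l32 (L l56 (T t112 N))))))))))) N))))))))))))))))))))⟩
def e0_63__79_36 : Ent 4 := ⟨[a0, a63], [a79, a64], (M a60 (L l84 (F (T t67 (T t43 (T t68 (T t69 (K a20 (M a106 (L l84 (F (T t2359 (L l11 (T t305 (L l11 (T t1513 (K a69 (M a74 (F (T t2915 (L l11 (T t1515 N))))) (K a74 (M a69 (F (L l336 (T t2359 (L l11 (L l116 (L l318 (T t2916 N)))))))) N)))))))))) (K a40 (M a106 (L l84 (F (T t305 (T t1512 (T t1513 (K a69 (M a74 (F (T t1514 (T t1515 N)))) (K a74 (M a69 (F (T t1514 (L l116 (L l318 (T t2916 N)))))) N)))))))) (K a21 (M a105 (L l84 (F (T t1217 (L l11 (T t404 (L l11 (T t405 (K a69 (M a74 (F (T t1454 (T t1132 (L l11 (T t405 N)))))) (K a74 (M a69 (F (T t1454 (L l11 (L l318 (T t2445 N)))))) N)))))))))) (K a41 (M a170 (L l84 (F (T t457 (L l65 (T t317 (L l65 (T t1455 (K a69 (M a74 (F (T t1456 (L l65 (T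 t1458 N))))) (K a74 (M a69 (F (T t2917 (L l137 (L l139 (L l318 (T t452 N))))))) N)))))))))) (K a61 (M a170 (L l84 (F (T t457 (L l65 (T t317 (L l65 (L l140 (T t458 (K a69 (M a74 (F (T t1456 (L l65 (T t1458 N))))) (K a74 (M a69 (F (T t460 (L l65 (L l140 (T t458 N)))))) N))))))))))) (K a22 (M a150 (L l84 (F (T t2918 (T t1135 (L l11 (T t2919 (K a69 (M a74 (F (T t1436 (T t1465 N)))) (K a74 (M a69 (F (T t1135 (L l137 (L l139 (L l318 (T t452 N))))))) N))))))))) (K a42 (M a105 (L l84 (F (T t1129 (L l66 (L l140 (T t1128 (L l66 (T t405 (K a69 (M a74 (F (T t420 (T t1143 (L l66 (T t405 N)))))) (K a74 (M a69 (F (T t404 (L l66 (L l318 (T t455 N)))))) N))))))))))) (K a62 (M a170 (L l84 (F (T t457 (T t317 (L l140 (T t458 (K a69 (M a74 (F (T t1459 (L l444 (T t1458 N))))) (K a74 (M a69 (F (T t460 (L l140 (T t458 N))))) N))))))))) (K a3 (M a150 (L l84 (F (T t1434 (L l309 (T t1136 (T t2919 (K a69 (M a74 (F (T t1434 (T t1465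 N)))) (K a74 (M a69 (F (T t1434 (L l137 (L l139 (L l318 (L l333 (T t452 N)))))))) N))))))))) (K a69 (M a74 (F (T t67 (T t43 (T t68 (L l329 (T t69 (K a20 (M a192 (F (T t569 (L l311 (T t1360 N))))) (K a40 (M a192 (F (T t569 (L l22 (L l311 (T t1360 N)))))) (K a21 (M a150 (F (T t1436 (L l65 (T t1465 N))))) (K a41 (M a192 (F (T t73 (L l22 (L l311 (T t1360 N)))))) (K a61 (M a170 (F (T t1456 (L l65 (T t1458 N))))) (K a22 (M a192 (F (T t569 (L l11 (L l311 (T t1466 N)))))) (K a42 (M a192 (F (T t569 (L l311 (T t1358 (L l28 (L l311 (T t1467 N)))))))) (K a62 (M a106 (F (L l311 (T t1468 (L l140 (T t566 N)))))) (K a3 (M a192 (F (T t237 (L l45 (L l311 (T t1360 N)))))) N)))))))))))))))) (K a74 (M a69 (F (T t43 (L l137 (L l139 (L l318 (T t452 (K a61 (M a32 (F (L l318 (T t2446 (L l65 (T t1569 N)))))) (K a62 (M a32 (F (L l318 (T t2446 (L l60 (T t1569 N)))))) N))))))))) N))))))))))))))))))⟩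
def e0_63__79_37 : Ent 4 := ⟨[a0, a63], [a79, a65], (M a12 (F (T t122 (T t151 (T t152 (T t153 (K a4 (M a60 (F (T t43 (L l325 (T t398 (T t448 N)))))) (K a8 (M a60 (F (T t67 (L l325 (T t398 (L l52 (L l56 (T t448 N)))))))) (K a21 (M a192 (F (T t468 (L l15 (L l347 (T t450 (L l15 (L l347 (T t157 N))))))))) (K a25 (M a192 (F (T t449 (L l15 (T t450 (L l137 (T t21 N))))))) (K a29 (M a192 (F (T t449 (L l137 (L l371 (T t21 (T t160 N))))))) (K a38 (M a192 (F (T t468 (T t450 (L l137 (T t21 N)))))) (K a42 (M a192 (F (T t449 (T t450 (L l56 (T t157 N)))))) (K a46 (M a192 (F (T t449 (L l137 (T t21 (L l26 (L l408 (T t160 N)))))))) (K a51 (M a192 (F (T t57 (L l79 (L l513 (T t156 (L l415 (T t450 N)))))))) N)))))))))))))))⟩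
def e0_63__79_38 : Ent 4 := ⟨[a0, a63], [a79, a66], (M a12 (F (T t122 (T t151 (T t152 (T t153 (K a4 (M a60 (F (T t570 (L l46 (L l50 (L l309 (T t67 (T t448 N)))))))) (K a8 (M a60 (F (T t570 (L l309 (T t67 (L l52 (L l56 (T t448 N)))))))) (K a21 (M a192 (F (T t468 (L l15 (L l347 (T t450 (L l15 (L l347 (T t157 N))))))))) (K a25 (M a192 (F (T t449 (L l15 (T t450 (L l137 (T t21 N))))))) (K a29 (M a192 (F (T t449 (L l137 (L l371 (T t21 (L l142 (T t160 N)))))))) (K a38 (M a192 (F (T t468 (T t450 (L l137 (T t21 N)))))) (K a42 (M a192 (F (T t449 (T t450 (L l56 (T t157 N)))))) (K a46 (M a192 (F (T t449 (L l137 (T t21 (L l26 (L l142 (L l408 (T t160 N))))))))) (K a51 (M a192 (F (T t57 (L l79 (L l513 (T t156 (L l415 (T t450 N)))))))) N)))))))))))))))⟩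
def e0_63__79_39 : Ent 4 := ⟨[a0, a63], [a79, a67], (M a149 (L l83 (F (T t25 (T t175 (T t176 (L l76 (L l84 (T t177 (K a192 (M a23 (L l83 (F (T t1077 (L l292 (T t182 (L l292 (L l296 (T t1078 (K a71 (M a75 (F (T t1079 (L l292 (T t182 (L l292 (L l296 (T t1078 N)))))))) (K a75 (M a71 (F (L l319 (T t1080 (L l292 (L l296 (T t1078 N))))))) N))))))))))) (K a21 (M a48 (L l83 (F (T t4 (L l18 (T t1082 (L l18 (T t14 (K a71 (M a75 (F (T t15 (L l18 (T t1082 (L l18 (T t14 N))))))) (K a75 (M a71 (F (T t1081 (L l18 (T t1082 N))))) N)))))))))) (K a85 (M a1 (L l83 (F (T t534 (L l76 (L l144 (L l307 (T t1083 (L l141 (L l145 (T t1084 (K a71 (M a75 (F (T t534 (L l76 (L l144 (L l307 (T t1083 (L l141 (L l145 (T t1084 N)))))))))) (K a75 (M a71 (F (L l319 (T t1085 (L l133 (L l141 (L l145 (T t1084 N)))))))) N))))))))))))) (K a213 (Fr a106 a192 l519 (Fr a42 a21 l68 (Fr a170 a234 l390 (Fr a255 a85 l476 (V t582))))) (K a42 (M a195 (L l83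 (F (T t1113 (L l66 (L l76 (L l390 (T t1114 (L l76 (L l143 (T t1115 (K a71 (M a75 (F (L l313 (T t1116 (L l66 (L l76 (L l331 (L l390 (T t1114 N))))))))) (K a75 (M a71 (F (T t1117 (L l66 (L l76 (L l390 (T t1114 (L l76 (L l131 (L l143 (T t1115 N))))))))))) N))))))))))))) (K a106 (M a3 (L l83 (F (T t353 (L l393 (T t615 (L l143 (L l390 (L l393 (T t616 (L l390 (T t617 (K a71 (M a75 (F (T t353 (L l393 (T t615 (L l390 (T t617 (L l125 (L l143 (L l390 (L l393 (T t616 N)))))))))))) (K a75 (M a71 (F (L l319 (T t1118 (L l143 (L l390 (L l393 (T t616 N)))))))) N)))))))))))))) (K a170 (M a48 (L l83 (F (T t4 (L l462 (T t48 (L l121 (L l151 (L l390 (T t13 (K a71 (M a75 (F (T t4 (L l462 (T t48 (L l121 (L l151 (L l390 (T t13 N))))))))) (K a75 (M a71 (F (T t1081 (L l390 (T t1082 N))))) N)))))))))))) (K a191 (M a240 (L l83 (F (T t962 (T t963 (K a71 (M a75 (F (T t1090 (T t962 (T t1093 N))))) (K a75 (M a71 (F (T t962 (T t963 N))))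 N))))))) (K a255 (M a48 (L l83 (F (T t16 (T t48 (L l121 (L l151 (L l266 (T t13 (K a71 (M a75 (F (T t16 (T t48 (L l121 (L l151 (L l266 (T t13 N)))))))) (K a75 (M a71 (F (T t1081 (L l266 (T t1082 N))))) N))))))))))) (K a71 (M a75 (F (T t25 (T t175 (T t176 (L l76 (L l84 (T t177 (K a192 (M a5 (F (L l313 (T t1039 (L l77 (L l84 (L l296 (T t1038 N)))))))) (K a21 (M a60 (F (T t1023 (L l11 (T t1021 N))))) (K a85 (M a16 (F (T t504 (L l144 (T t190 (L l94 (L l151 (T t278 N)))))))) (K a213 (Fr a106 a192 l519 (Fr a42 a21 l68 (Fr a170 a234 l390 (Fr a255 a85 l476 (V t582))))) (K a42 (M a90 (F (L l28 (T t1040 (L l66 (L l307 (T t1041 N))))))) (K a106 (M a5 (F (L l313 (T t1039 (L l77 (L l84 (L l390 (T t1038 N)))))))) (K a170 (M a60 (F (T t1023 (L l390 (T t1021 N))))) (K a191 (M a252 (F (T t940 (T t941 N)))) (K a255 (M a60 (F (T t1023 (L l261 (T t1021 N))))) N))))))))))))))))) (K a75 (M a71 (F (T t25 (T t175 (T t176 (L l76 (L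 l84 (T t177 (K a192 (M a1 (F (L l319 (T t1085 (L l76 (L l296 (T t1094 N))))))) (K a21 (M a48 (F (T t1081 (L l18 (T t1082 N))))) (K a85 (M a1 (F (L l319 (T t1085 (L l133 (L l141 (L l145 (T t1084 N)))))))) (K a213 (Fr a106 a192 l519 (Fr a42 a21 l68 (Fr a170 a234 l390 (Fr a255 a85 l476 (V t582))))) (K a42 (M a86 (F (T t1095 (L l22 (T t618 N))))) (K a106 (M a1 (F (L l319 (T t1085 (L l76 (L l390 (T t1094 N))))))) (K a170 (M a48 (F (T t1081 (L l390 (T t1082 N))))) (K a191 (M a240 (F (T t962 (T t963 N)))) (K a255 (M a48 (F (T t1081 (L l266 (T t1082 N))))) N))))))))))))))))) N))))))))))))))))))))⟩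
def e0_63__79_40 : Ent 4 := ⟨[a0, a63], [a79, a69], (M a60 (L l84 (F (T t67 (T t43 (T t68 (L l329 (T t69 (K a20 (M a192 (L l84 (F (T t37 (L l346 (T t73 (L l11 (L l139 (L l346 (T t1511 (K a64 (M a74 (F (T t569 (L l311 (T t1360 N))))) (K a74 (Fr a64 a128 l304 (V t392)) N)))))))))))) (K a40 (M a106 (L l84 (F (T t393 (T t1512 (T t1513 (K a64 (M a74 (F (T t1514 (T t1515 N)))) (K a74 (M a64 (F (T t394 (L l137 (T t395 N))))) N)))))))) (K a21 (M a192 (L l84 (F (T t72 (L l347 (T t73 (L l137 (L l347 (T t74 (K a64 (M a74 (F (L l144 (T t1516 (L l311 (T t1467 (L l311 (L l347 (T t1358 N))))))))) (K a74 (Fr a64 a128 l304 (V t1517)) N))))))))))) (K a41 (M a192 (L l84 (F (T t79 (L l65 (T t35 (T t73 (K a64 (M a74 (F (T t73 (L l22 (L l311 (T t1360 N)))))) (K a74 (Fr a64 a128 l304 (V t392)) N))))))))) (K a61 (M a192 (L l84 (F (T t72 (L l65 (L l515 (T t35 (T t80 (K a64 (M a74 (F (L l311 (T t1518 (L l140 (L l144 (T t80 (L l311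 (L l515 (T t1358 N)))))))))) (K a74 (Fr a64 a128 l304 (V t392)) N)))))))))) (K a22 (M a192 (L l84 (F (T t72 (L l137 (T t21 (T t73 (K a64 (M a74 (F (T t569 (L l11 (L l311 (T t1466 N)))))) (K a74 (Fr a64 a128 l304 (V t392)) N))))))))) (K a42 (M a192 (L l84 (F (T t79 (T t73 (L l22 (L l137 (T t74 (K a64 (M a74 (F (T t569 (L l311 (T t1358 (L l28 (L l311 (T t1467 N)))))))) (K a74 (Fr a64 a128 l304 (V t1517)) N)))))))))) (K a62 (M a192 (L l84 (F (T t72 (T t35 (L l66 (L l516 (T t80 (K a64 (M a74 (F (L l311 (T t1519 (L l66 (L l140 (L l144 (L l516 (T t80 (L l66 (L l311 (T t1360 N)))))))))))) (K a74 (Fr a64 a128 l304 (V t392)) N)))))))))) (K a3 (M a192 (L l84 (F (T t57 (L l477 (T t79 (L l307 (T t73 (K a64 (M a74 (F (T t237 (L l45 (L l311 (T t1360 N)))))) (K a74 (Fr a64 a128 l304 (V t392)) N)))))))))) (K a64 (M a74 (F (T t67 (T t43 (T t68 (L l329 (T t69 (K a20 (M a192 (F (T t569 (L l311 (T t1360 N))))) (K a40 (M a192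 (F (T t569 (L l22 (L l311 (T t1360 N)))))) (K a21 (M a150 (F (T t1436 (L l65 (T t1465 N))))) (K a41 (M a192 (F (T t73 (L l22 (L l311 (T t1360 N)))))) (K a61 (M a170 (F (T t1456 (L l65 (T t1458 N))))) (K a22 (M a192 (F (T t569 (L l11 (L l311 (T t1466 N)))))) (K a42 (M a192 (F (T t569 (L l311 (T t1358 (L l28 (L l311 (T t1467 N)))))))) (K a62 (M a106 (F (L l311 (T t1468 (L l140 (T t566 N)))))) (K a3 (M a192 (F (T t237 (L l45 (L l311 (T t1360 N)))))) N)))))))))))))))) (K a74 (M a64 (F (T t43 (L l139 (T t465 (L l137 (T t397 N))))))) N)))))))))))))))))))⟩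
def e0_63__79_41 : Ent 4 := ⟨[a0, a63], [a79, a70], (M a149 (F (T t25 (T t175 (T t176 (L l84 (T t177 (K a192 (M a53 (F (T t178 (L l236 (T t179 (L l77 (L l84 (L l236 (L l296 (T t180 N)))))))))) (K a21 (M a48 (F (T t4 (L l18 (T t1082 (L l18 (T t14 N))))))) (K a85 (M a16 (F (T t504 (L l144 (T t190 (L l94 (L l151 (T t278 N)))))))) (K a213 (Fr a106 a192 l519 (Fr a42 a21 l68 (Fr a170 a234 l390 (Fr a255 a85 l476 (V t582))))) (K a42 (M a48 (F (T t11 (L l390 (T t1082 (L l54 (T t14 N))))))) (K a106 (M a48 (F (T t48 (L l498 (T t14 (L l390 (L l498 (T t6 (L l390 (T t26 N)))))))))) (K a170 (M a48 (F (T t4 (L l462 (T t48 (L l151 (L l390 (T t13 N)))))))) (K a191 (M a240 (F (T t962 (L l315 (T t963 N))))) (K a255 (M a16 (F (T t112 (L l266 (T t190 (L l289 (L l296 (T t191 N)))))))) N))))))))))))))))⟩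
def e0_63__79_42 : Ent 4 := ⟨[a0, a63], [a79, a71], (M a149 (L l83 (F (T t25 (T t175 (T t176 (L l84 (T t177 (K a192 (M a53 (L l83 (F (T t178 (L l236 (T t179 (L l77 (L l84 (L l236 (L l296 (T t180 (K a67 (M a75 (F (T t939 (L l236 (T t179 (L l77 (L l84 (L l236 (L l296 (T t180 N)))))))))) (K a75 (M a67 (F (T t939 (L l236 (T t179 (L l77 (L l84 (L l236 (L l296 (T t180 N)))))))))) N))))))))))))) (K a21 (M a60 (L l83 (F (T t1020 (L l139 (T t463 (L l11 (T t462 (K a67 (M a75 (F (T t1023 (L l11 (T t1021 N))))) (K a75 (M a67 (F (T t1022 (L l139 (T t463 (L l11 (T t462 N))))))) N)))))))))) (K a85 (M a16 (L l83 (F (T t504 (L l144 (T t190 (L l94 (L l151 (T t278 (K a67 (M a75 (F (T t504 (L l144 (T t190 (L l94 (L l151 (T t278 N)))))))) (K a75 (M a67 (F (T t504 (L l144 (T t190 (L l94 (L l133 (L l151 (T t278 N))))))))) N))))))))))) (K a213 (Fr a106 a192 l519 (Fr a42 a21 l68 (Fr a170 a234 l390 (Fr a255 a85 l476 (V t582))))) (K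 a42 (M a195 (L l83 (F (T t1750 (L l84 (L l331 (L l390 (T t2184 (T t1115 (K a67 (M a75 (F (L l313 (T t1116 (L l66 (L l76 (L l331 (L l390 (T t1114 N))))))))) (K a75 (M a67 (F (T t1117 (L l84 (T t1873 (L l137 (T t1874 N))))))) N))))))))))) (K a106 (M a61 (L l83 (F (L l516 (T t968 (L l390 (T t2185 (L l331 (L l390 (L l516 (T t505 (L l516 (T t2186 (K a67 (M a75 (F (L l411 (L l516 (T t2187 (L l76 (L l390 (T t2185 (L l307 (L l331 (L l390 (L l516 (T t505 N))))))))))))) (K a75 (M a67 (F (L l139 (L l393 (T t2188 (L l390 (T t2185 (L l331 (L l390 (L l516 (T t505 N))))))))))) N))))))))))))))) (K a170 (M a60 (L l83 (F (T t461 (L l331 (T t67 (L l139 (L l390 (T t463 (K a67 (M a75 (F (T t1023 (L l390 (T t1021 N))))) (K a75 (M a67 (F (T t1034 (L l331 (T t67 (L l139 (L l390 (T t463 N)))))))) N))))))))))) (K a191 (M a240 (L l83 (F (T t962 (T t963 (K a67 (M a75 (F (T t1090 (T t962 (T t1093 N))))) (K a75 (M a67 (F (T t962 (T t963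 N)))) N))))))) (K a255 (M a60 (L l83 (F (T t1020 (L l331 (L l475 (T t67 (L l139 (L l261 (T t463 (K a67 (M a75 (F (T t1023 (L l261 (T t1021 N))))) (K a75 (M a67 (F (T t1020 (L l331 (L l475 (T t67 (L l139 (L l261 (T t463 N))))))))) N)))))))))))) (K a67 (M a75 (F (T t25 (T t175 (T t176 (L l76 (L l84 (T t177 (K a192 (M a5 (F (L l313 (T t1039 (L l77 (L l84 (L l296 (T t1038 N)))))))) (K a21 (M a60 (F (T t1023 (L l11 (T t1021 N))))) (K a85 (M a16 (F (T t504 (L l144 (T t190 (L l94 (L l151 (T t278 N)))))))) (K a213 (Fr a106 a192 l519 (Fr a42 a21 l68 (Fr a170 a234 l390 (Fr a255 a85 l476 (V t582))))) (K a42 (M a90 (F (L l28 (T t1040 (L l66 (L l307 (T t1041 N))))))) (K a106 (M a5 (F (L l313 (T t1039 (L l77 (L l84 (L l390 (T t1038 N)))))))) (K a170 (M a60 (F (T t1023 (L l390 (T t1021 N))))) (K a191 (M a252 (F (T t940 (T t941 N)))) (K a255 (M a60 (F (T t1023 (L l261 (T t1021 N))))) N))))))))))))))))) (K a75 (M a67 (F (T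 t25 (L l131 (T t1865 (L l131 (T t1866 (K a106 (M a1 (F (T t1867 (L l390 (T t1094 N))))) N)))))))) N)))))))))))))))))))⟩
def e0_63__79_43 : Ent 4 := ⟨[a0, a63], [a79, a74], (M a85 (L l84 (F (T t168 (L l137 (T t52 (L l339 (T t352 (K a192 (M a15 (L l84 (F (T t2354 (L l268 (L l318 (T t2355 (L l137 (L l236 (T t1592 (K a64 (M a69 (F (T t2354 (L l130 (L l151 (L l296 (L l318 (T t2457 (L l296 (T t2458 N)))))))))) (K a69 (M a64 (F (T t359 (L l318 (L l484 (T t716 N)))))) N)))))))))))) (K a21 (M a12 (L l84 (F (T t1368 (L l137 (T t124 (L l15 (L l137 (T t574 (K a64 (M a69 (F (L l325 (T t2459 (L l137 (T t124 N)))))) (K a69 (M a64 (F (T t359 (L l79 (T t1488 N))))) N))))))))))) (K a149 (M a48 (L l84 (F (T t99 (T t132 (L l137 (L l220 (T t50 (K a64 (M a69 (F (T t1853 (L l375 (T t610 N))))) (K a69 (M a64 (F (L l220 (T t359 (L l318 (L l325 (L l339 (L l491 (T t1 N))))))))) N)))))))))) (K a213 (Fr a170 a255 l476 (Fr a42 a21 l68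 (Fr a106 a234 l390 (Fr a192 a149 l519 (V t581))))) (K a42 (M a204 (L l84 (F (T t1684 (L l137 (L l390 (T t1744 (L l137 (T t1691 (K a64 (M a69 (F (T t1684 (L l66 (L l318 (T t2460 N)))))) (K a69 (M a64 (F (T t367 (T t2461 N)))) N))))))))))) (K a106 (M a90 (L l84 (F (L l390 (T t2462 (L l390 (T t126 (L l411 (T t1492 (L l137 (L l325 (L l339 (T t2463 (K a64 (M a69 (F (T t2458 (L l137 (L l390 (T t1799 (L l137 (L l318 (T t2464 N))))))))) (K a69 (M a64 (F (L l390 (T t373 (L l137 (L l411 (T t1495 (L l137 (T t1496 N))))))))) N))))))))))))))) (K a170 (M a48 (L l84 (F (T t607 (L l137 (L l318 (L l404 (T t100 (L l390 (L l404 (T t568 (L l390 (T t51 (K a64 (M a69 (F (T t1853 (T t607 N)))) (K a69 (M a64 (F (L l220 (T t367 (L l318 (L l462 (T t48 N))))))) N))))))))))))))) (K a234 (Fr a170 a255 l476 (Fr a21 a42 l68 (Fr a149 a213 l347 (Fr a192 a106 l519 (V t583))))) (K a255 (M a4 (L l84 (F (T t129 (L l137 (L l265 (T t130 (L l265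 (L l296 (T t131 (K a64 (M a69 (F (T t1604 (L l336 (L l440 (T t2920 N)))))) (K a69 (M a64 (F (T t367 (L l439 (T t519 N))))) N)))))))))))) (K a64 (M a69 (F (T t2458 (L l116 (L l318 (T t2466 (L l137 (L l318 (T t2467 (L l130 (L l137 (L l151 (T t2468 (L l151 (T t2469 N))))))))))))))) (K a69 (M a64 (F (T t367 (T t359 (L l339 (T t390 N)))))) N)))))))))))))))))))⟩
def e0_63__79_44 : Ent 4 := ⟨[a0, a63], [a79, a75], (M a149 (L l83 (F (T t25 (T t175 (T t176 (L l84 (T t177 (K a192 (M a23 (L l83 (F (T t1077 (L l292 (T t182 (L l292 (L l296 (T t1078 (K a67 (M a71 (F (L l319 (T t1080 (L l292 (L l296 (T t1078 N))))))) (K a71 (M a67 (F (T t1079 (L l131 (L l139 (L l292 (T t2706 (L l292 (L l296 (T t1078 N)))))))))) N))))))))))) (K a21 (M a48 (L l83 (F (T t4 (L l18 (T t1082 (L l18 (T t14 (K a67 (M a71 (F (T t1081 (L l18 (T t1082 N))))) (K a71 (M a67 (F (T t15 (L l18 (T t1082 (L l18 (T t14 N))))))) N)))))))))) (K a85 (M a1 (L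 l83 (F (T t534 (L l144 (L l337 (T t1083 (L l133 (L l141 (T t1084 (K a67 (M a71 (F (L l319 (T t1085 (L l133 (L l141 (L l145 (T t1084 N)))))))) (K a71 (M a67 (F (T t534 (T t2707 (L l133 (L l141 (T t1084 N))))))) N)))))))))))) (K a213 (Fr a106 a192 l519 (Fr a42 a21 l68 (Fr a170 a234 l390 (Fr a255 a85 l476 (V t582))))) (K a42 (M a3 (L l83 (F (T t1052 (L l337 (L l390 (T t1862 (L l22 (T t615 (K a67 (M a71 (F (T t1052 (L l319 (T t1118 N))))) (K a71 (M a67 (F (T t1052 (L l84 (T t2708 (L l137 (T t349 N))))))) N))))))))))) (K a106 (M a3 (L l83 (F (T t353 (L l393 (T t615 (L l390 (L l393 (T t616 (L l390 (T t617 (K a67 (M a71 (F (L l319 (T t1118 (L l143 (L l390 (L l393 (T t616 N)))))))) (K a71 (M a67 (F (T t2183 (L l125 (L l390 (L l393 (T t616 N))))))) N))))))))))))) (K a170 (M a48 (L l83 (F (T t4 (L l462 (T t48 (L l151 (L l390 (T t13 (K a67 (M a71 (F (T t1081 (L l390 (T t1082 N))))) (K a71 (M a67 (F (T t11 (L l462 (T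 t48 (L l151 (L l390 (T t13 N)))))))) N))))))))))) (K a191 (M a240 (L l83 (F (T t962 (T t963 (K a67 (M a71 (F (T t962 (T t963 N)))) (K a71 (M a67 (F (T t962 (T t963 N)))) N))))))) (K a255 (M a48 (L l83 (F (T t16 (T t48 (L l151 (L l266 (T t13 (K a67 (M a71 (F (T t1081 (L l266 (T t1082 N))))) (K a71 (M a67 (F (T t16 (T t48 (L l151 (L l266 (T t13 N))))))) N)))))))))) (K a67 (M a71 (F (T t25 (T t175 (T t176 (L l76 (L l84 (T t177 (K a192 (M a1 (F (L l319 (T t1085 (L l76 (L l296 (T t1094 N))))))) (K a21 (M a48 (F (T t1081 (L l18 (T t1082 N))))) (K a85 (M a1 (F (L l319 (T t1085 (L l133 (L l141 (L l145 (T t1084 N)))))))) (K a213 (Fr a106 a192 l519 (Fr a42 a21 l68 (Fr a170 a234 l390 (Fr a255 a85 l476 (V t582))))) (K a42 (M a86 (F (T t1095 (L l22 (T t618 N))))) (K a106 (M a1 (F (L l319 (T t1085 (L l76 (L l390 (T t1094 N))))))) (K a170 (M a48 (F (T t1081 (L l390 (T t1082 N))))) (K a191 (M a240 (F (T t962 (T t963 N))))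 (K a255 (M a48 (F (T t1081 (L l266 (T t1082 N))))) N))))))))))))))))) (K a71 (M a67 (F (T t25 (L l131 (T t1865 (L l131 (T t1866 (K a106 (M a1 (F (T t1867 (L l390 (T t1094 N))))) N)))))))) N)))))))))))))))))))⟩
def e0_63__79_45 : Ent 4 := ⟨[a0, a63], [a79, a80], (M a12 (F (T t122 (T t151 (T t152 (T t153 (K a4 (M a60 (F (T t43 (L l325 (T t398 (T t448 N)))))) (K a8 (M a60 (F (T t67 (L l325 (T t398 (L l52 (L l56 (T t448 N)))))))) (K a21 (M a192 (F (T t468 (L l15 (L l347 (T t450 (L l15 (L l347 (T t157 N))))))))) (K a25 (M a192 (F (T t449 (L l15 (T t450 (L l137 (T t21 N))))))) (K a29 (M a192 (F (T t449 (L l137 (L l371 (T t21 (T t160 N))))))) (K a38 (M a192 (F (T t468 (T t450 (L l137 (T t21 N)))))) (K a42 (M a192 (F (T t449 (T t450 (L l56 (T t157 N)))))) (K a46 (M a192 (F (T t449 (L l137 (T t21 (L l26 (L l408 (T t160 N)))))))) (K a51 (M a192 (F (T t57 (L l79 (L l513 (T t156 (L l415 (T t450 N)))))))) N)))))))))))))))⟩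
def e0_63__79_46 : Ent 4 := ⟨[a0, a63], [a79, a81], (M a12 (F (T t122 (L l341 (T t151 (T t152 (T t153 (K a4 (M a60 (F (T t43 (L l325 (T t398 (L l341 (T t448 N))))))) (K a8 (M a60 (F (T t68 (L l325 (T t398 (L l52 (L l56 (L l341 (T t448 N))))))))) (K a21 (M a192 (F (T t468 (L l15 (L l347 (T t450 (L l15 (L l347 (T t157 N))))))))) (K a25 (M a192 (F (T t449 (L l15 (T t450 (L l137 (T t21 N))))))) (K a29 (M a192 (F (T t449 (L l137 (L l371 (T t21 (T t160 N))))))) (K a38 (M a192 (F (T t468 (T t450 (L l137 (T t21 N)))))) (K a42 (M a192 (F (T t449 (T t450 (L l56 (T t157 N)))))) (K a46 (M a192 (F (T t449 (L l137 (T t21 (L l26 (L l408 (T t160 N)))))))) (K a51 (M a192 (F (T t57 (L l79 (L l513 (T t156 (L l415 (T t450 N)))))))) N))))))))))))))))⟩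
def e0_63__79_47 : Ent 4 := ⟨[a0, a63], [a79, a82], (M a149 (F (T t25 (T t175 (T t176 (L l84 (T t177 (K a192 (M a53 (F (T t178 (L l236 (T t179 (L l84 (L l236 (L l296 (T t180 N))))))))) (K a21 (M a48 (F (T t4 (L l18 (L l453 (T t1082 (L l18 (T t14 N)))))))) (K a85 (M a16 (F (T t504 (L l144 (L l345 (L l453 (T t190 (L l92 (L l94 (L l151 (T t278 N))))))))))) (K a213 (Fr a106 a192 l519 (Fr a42 a21 l68 (Fr a170 a234 l390 (Fr a255 a85 l476 (V t582))))) (K a42 (M a48 (F (T t11 (L l390 (L l453 (T t1082 (L l54 (T t14 N)))))))) (K a106 (M a48 (F (T t48 (L l498 (T t14 (L l390 (L l498 (T t6 (L l390 (T t26 N)))))))))) (K a170 (M a48 (F (T t4 (L l462 (T t48 (L l121 (L l151 (L l390 (L l453 (T t13 N)))))))))) (K a191 (M a204 (F (T t1043 (L l345 (T t1112 N))))) (K a255 (M a16 (F (T t112 (L l266 (L l345 (L l453 (T t190 (L l86 (L l289 (L l296 (T t191 N))))))))))) N))))))))))))))))⟩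
def e0_63__79_48 : Ent 4 := ⟨[a0, a63], [a79, a83], (M a149 (F (T t25 (T t175 (T t176 (L l84 (T t177 (K a192 (M a53 (F (T t178 (L l236 (T t179 (L l84 (L l236 (L l296 (T t180 N))))))))) (K a21 (M a48 (F (T t4 (L l18 (T t1082 (L l18 (T t14 N))))))) (K a85 (M a16 (F (T t504 (L l144 (T t190 (L l94 (L l151 (T t278 N)))))))) (K a213 (Fr a106 a192 l519 (Fr a42 a21 l68 (Fr a170 a234 l390 (Fr a255 a85 l476 (V t582))))) (K a42 (M a48 (F (T t11 (L l390 (T t1082 (L l54 (T t14 N))))))) (K a106 (M a48 (F (T t48 (L l498 (T t14 (L l390 (L l498 (T t6 (L l390 (T t26 N)))))))))) (K a170 (M a48 (F (T t4 (L l462 (T t48 (L l151 (L l390 (T t13 N)))))))) (K a191 (M a16 (F (T t112 (T t190 (L l86 (L l213 (T t191 N))))))) (K a255 (M a16 (F (T t112 (L l266 (T t190 (L l86 (L l289 (L l296 (T t191 N))))))))) N))))))))))))))))⟩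
def e0_63__79_49 : Ent 4 := ⟨[a0, a63], [a79, a85], (M a12 (F (T t153 (L l347 (T t122 (L l365 (T t151 (L l347 (L l458 (T t152 (K a4 (M a60 (L l458 (F (T t43 (L l325 (T t398 (L l365 (T t448 (K a166 (M a247 (F (T t43 (L l325 (L l408 (T t680 (L l365 (L l408 (T t448 N))))))))) (K a247 (M a166 (F (T t43 (L l310 (T t2470 N))))) N)))))))))) (K a8 (M a60 (F (T t570 (L l347 (L l350 (T t67 (L l52 (L l56 (L l365 (T t448 N)))))))))) (K a21 (M a149 (F (T t958 (L l79 (L l144 (T t648 (L l50 (L l91 (L l137 (L l144 (L l458 (T t2471 (L l50 (L l91 (L l458 (T t2472 N)))))))))))))))) (K a25 (M a192 (F (L l56 (T t468 (L l15 (L l347 (T t450 (L l144 (L l458 (T t2473 N)))))))))) (K a29 (M a48 (F (T t1580 (L l15 (L l325 (L l347 (T t1 (L l455 (T t866 N))))))))) (K a38 (M a192 (F (T t468 (L l347 (T t450 (L l26 (L l50 (L l144 (L l458 (T t2473 N)))))))))) (K a42 (M a192 (F (L l56 (T t468 (L l347 (T t450 (L l26 (L l144 (L l390 (L l458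 (T t2473 N))))))))))) (K a46 (M a48 (F (T t443 (L l325 (L l347 (T t1 (L l26 (L l455 (T t866 N))))))))) (K a51 (M a192 (F (L l513 (T t468 (L l347 (L l415 (T t450 (L l144 (L l458 (T t2473 N)))))))))) N)))))))))))))))))))⟩
def e0_63__79_50 : Ent 4 := ⟨[a0, a63], [a79, a86], (M a12 (F (T t122 (T t151 (T t152 (T t153 (K a4 (M a60 (F (T t662 (L l325 (T t398 (L l351 (T t448 N))))))) (K a8 (M a60 (F (T t570 (L l477 (T t67 (L l52 (L l56 (L l351 (T t448 N))))))))) (K a21 (M a192 (F (T t468 (L l15 (L l347 (L l351 (T t450 (L l15 (L l347 (L l351 (T t157 N))))))))))) (K a25 (M a192 (F (T t449 (L l15 (L l351 (T t450 (L l137 (L l351 (T t21 N))))))))) (K a29 (M a192 (F (T t449 (L l137 (L l351 (L l371 (T t21 (L l142 (T t160 N))))))))) (K a38 (M a192 (F (T t468 (L l351 (T t450 (L l137 (L l351 (T t21 N)))))))) (K a42 (M a192 (F (T t449 (L l351 (T t450 (L l56 (L l351 (T t157 N)))))))) (K a46 (M a192 (F (T t449 (L l137 (L l351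 (T t21 (L l26 (L l142 (L l408 (T t160 N)))))))))) (K a51 (M a192 (F (T t496 (L l351 (L l415 (T t450 (L l137 (L l351 (L l439 (T t21 N)))))))))) N)))))))))))))))⟩
def e0_63__79_51 : Ent 4 := ⟨[a0, a63], [a79, a87], (M a12 (F (T t122 (T t151 (T t152 (T t153 (K a4 (M a60 (F (T t570 (L l46 (L l50 (L l475 (T t67 (L l349 (T t448 N))))))))) (K a8 (M a60 (F (T t570 (L l475 (T t67 (L l52 (L l56 (L l349 (T t448 N))))))))) (K a21 (M a192 (F (T t468 (L l15 (L l347 (T t450 (L l15 (L l347 (L l457 (T t157 N)))))))))) (K a25 (M a192 (F (T t449 (L l15 (T t450 (L l137 (L l143 (L l475 (T t21 N))))))))) (K a29 (M a192 (F (T t449 (L l137 (L l143 (L l371 (L l475 (T t21 (T t160 N))))))))) (K a38 (M a192 (F (T t468 (T t450 (L l137 (L l143 (L l475 (T t21 N)))))))) (K a42 (M a192 (F (T t449 (T t450 (L l56 (L l457 (T t157 N))))))) (K a46 (M a192 (F (T t449 (L l137 (L l143 (L l475 (T t21 (L l26 (L l408 (T t160 N)))))))))) (K a51 (M a192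 (F (T t57 (L l79 (L l513 (T t156 (L l415 (T t450 N)))))))) N)))))))))))))))⟩
def e0_63__79_52 : Ent 4 := ⟨[a0, a63], [a79, a90], (M a48 (L l151 (F (T t132 (L l325 (L l462 (L l483 (T t1 (L l325 (L l483 (T t2 (L l325 (L l483 (T t3 (L l325 (L l375 (L l483 (T t0 (K a16 (M a60 (L l151 (F (T t43 (T t64 (T t65 (K a112 (M a101 (F (T t69 (L l116 (T t313 N))))) (K a101 (M a112 (F (T t69 (L l139 (T t2921 N))))) N)))))))) (K a32 (M a170 (L l151 (F (T t317 (L l94 (L l483 (T t2922 (T t580 (K a112 (M a101 (F (L l325 (T t2191 (L l94 (T t320 (L l325 (T t687 N)))))))) (K a101 (M a112 (F (T t317 (L l137 (T t346 (L l375 (L l491 (T t2923 N)))))))) N)))))))))) (K a21 (M a101 (F (T t313 (L l18 (L l325 (T t334 (L l18 (T t314 N)))))))) (K a37 (M a101 (F (T t313 (L l325 (T t334 (T t314 N)))))) (K a53 (M a149 (L l151 (F (T t176 (L l130 (L l483 (T t1082 (T t26 (K a112 (M a101 (F (L l354 (T t2924 (L l325 (L l462 (T t312 (L l47 (T t175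 N))))))))) (K a101 (M a112 (F (T t176 (L l84 (T t2925 (L l404 (L l462 (T t2926 N)))))))) N)))))))))) (K a26 (M a154 (L l151 (F (T t473 (T t327 (L l84 (T t527 (K a112 (Fr a101 a207 l512 (V t2927)) (K a101 (M a112 (F (L l84 (T t2925 (L l137 (T t346 (L l137 (L l404 (L l491 (T t2000 N)))))))))) N))))))))) (K a42 (M a101 (F (T t2197 (L l54 (T t313 (L l54 (T t314 N))))))) (K a58 (M a12 (L l151 (F (T t443 (T t122 (T t146 (K a112 (M a101 (F (T t122 (L l94 (L l325 (T t1307 N)))))) (K a101 (M a112 (F (T t122 (L l79 (T t2928 N))))) N)))))))) (K a15 (M a101 (L l325 (L l483 (F (L l130 (T t440 (L l94 (T t2103 (T t314 (K a240 (M a165 (L l325 (F (L l94 (T t2103 (L l268 (L l339 (L l354 (T t315 (T t431 (K a143 (Fr a207 a154 l512 (V t2929)) (K a207 (M a143 (L l303 (F (L l462 (T t2930 (L l94 (L l236 (L l339 (T t2931 (L l236 (L l289 (T t431 (K a229 (M a218 (F (L l289 (L l462 (T t2932 (L l130 (L l236 (L l275 (T t2933 (L l236 (L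 l256 (L l275 (L l289 (T t431 N)))))))))))))) (K a218 (Fr a229 a37 l383 (V t431)) N)))))))))))))) N)))))))))))) (K a165 (M a240 (L l325 (F (T t314 (L l130 (L l411 (T t440 (L l94 (L l455 (T t2103 (K a143 (Fr a207 a154 l512 (Fr a176 a112 l412 (V t2929))) (K a207 (M a143 (F (L l130 (T t2934 (L l94 (T t2935 (L l236 (L l289 (T t314 N))))))))) N)))))))))))) (K a143 (Fr a207 a154 l512 (V t2929)) (K a207 (M a143 (L l483 (F (L l236 (L l289 (T t314 (L l84 (L l236 (T t2936 (L l137 (L l289 (T t1477 (L l94 (L l137 (L l289 (T t2937 (L l84 (L l130 (L l236 (T t2938 (K a240 (M a165 (L l303 (F (L l462 (T t2930 (L l94 (L l236 (L l339 (T t2931 (L l236 (L l289 (T t431 (K a229 (M a218 (F (L l289 (L l462 (T t2932 (L l130 (L l236 (L l275 (T t2933 (L l236 (L l256 (L l275 (L l289 (T t431 N)))))))))))))) (K a218 (Fr a229 a37 l383 (V t431)) N)))))))))))))) (K a165 (M a240 (F (L l130 (T t2934 (L l94 (T t2935 (L l236 (L l289 (T t314 N)))))))))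 N)))))))))))))))))))))) N))))))))))))) (K a112 (M a101 (F (T t132 (L l116 (T t313 (L l325 (T t334 N))))))) (K a101 (M a112 (F (L l84 (T t2925 (L l137 (T t346 (L l462 (L l491 (T t48 N))))))))) N)))))))))))))))))))))))))))))⟩
def e0_63__79_53 : Ent 4 := ⟨[a0, a63], [a79, a91], (M a149 (L l149 (F (T t25 (T t175 (T t176 (L l84 (T t177 (K a192 (M a53 (L l149 (F (T t178 (L l236 (T t179 (L l84 (L l236 (L l296 (T t180 (K a115 (M a103 (F (T t178 (L l232 (L l236 (T t2939 N)))))) (K a103 (M a115 (F (T t178 (L l236 (L l403 (T t179 (L l84 (L l236 (L l296 (T t180 N)))))))))) N)))))))))))) (K a21 (M a195 (L l149 (F (L l131 (T t1750 (T t1114 (L l131 (T t1115 (K a115 (M a103 (F (T t1114 (L l50 (L l131 (L l415 (T t2940 N))))))) (K a103 (M a115 (F (L l65 (T t1271 (L l103 (L l131 (T t1115 (T t1114 N)))))))) N)))))))))) (K a85 (M a53 (L l149 (F (T t2941 (L l455 (T t178 (L l123 (L l151 (T t2942 (K a115 (M a103 (F (T t2939 (L l325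 (L l455 (L l481 (T t982 N))))))) (K a103 (M a115 (F (T t2943 (L l373 (T t939 (L l97 (L l123 (L l151 (T t2942 N))))))))) N))))))))))) (K a213 (Fr a106 a192 l519 (Fr a42 a21 l68 (Fr a170 a234 l390 (Fr a255 a85 l476 (V t582))))) (K a42 (M a51 (L l149 (F (T t2944 (L l390 (L l481 (T t2945 (L l56 (T t2011 (K a115 (M a103 (F (L l56 (T t2011 (L l355 (T t2946 N)))))) (K a103 (M a115 (F (L l84 (T t2947 (L l56 (T t2948 (L l137 (T t2949 N)))))))) N))))))))))) (K a106 (M a51 (L l149 (F (T t592 (L l501 (T t2011 (L l390 (T t2950 (L l390 (L l501 (T t2012 (K a115 (M a103 (F (T t592 (L l325 (L l373 (T t2951 (L l390 (T t2950 N)))))))) (K a103 (M a115 (F (T t2952 (L l125 (L l390 (L l501 (T t2012 N))))))) N))))))))))))) (K a170 (M a48 (L l149 (F (T t4 (L l462 (T t48 (L l151 (L l390 (T t13 (K a115 (M a103 (F (T t4 (L l462 (T t48 (L l106 (L l151 (L l390 (T t13 N))))))))) (K a103 (M a115 (F (T t4 (L l462 (T t48 (L l151 (L l390 (T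 t13 N)))))))) N))))))))))) (K a191 (M a240 (L l149 (F (T t962 (T t963 (K a115 (M a103 (F (T t962 (T t963 N)))) (K a103 (M a115 (F (T t962 (T t963 N)))) N))))))) (K a255 (M a53 (L l149 (F (T t2953 (T t178 (L l84 (L l296 (T t180 (K a115 (M a103 (F (T t178 (T t2939 N)))) (K a103 (M a115 (F (T t2953 (L l373 (T t939 (L l84 (L l296 (T t180 N)))))))) N)))))))))) (K a115 (M a103 (F (T t25 (T t175 (T t176 (L l84 (L l120 (T t177 (K a192 (M a17 (F (L l355 (T t2954 (L l120 (L l296 (T t2955 N))))))) (K a21 (M a144 (F (L l106 (L l151 (T t994 (L l50 (L l137 (L l415 (T t2956 N))))))))) (K a85 (M a53 (F (T t2939 (L l325 (L l455 (L l481 (T t982 N))))))) (K a213 (Fr a106 a192 l519 (Fr a42 a21 l68 (Fr a170 a234 l390 (Fr a255 a85 l476 (V t582))))) (K a42 (M a144 (F (L l137 (L l415 (T t2956 (L l106 (L l151 (L l390 (T t994 N))))))))) (K a106 (M a101 (F (T t2957 (L l137 (L l390 (T t2958 N)))))) (K a170 (M a148 (F (L l131 (L l137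 (L l218 (T t2959 (L l115 (L l139 (L l174 (L l390 (T t1767 N))))))))))) (K a191 (M a144 (F (L l106 (L l151 (T t994 (L l137 (L l415 (T t2956 N)))))))) (K a255 (M a148 (F (L l131 (L l137 (T t2959 (L l115 (L l139 (L l434 (T t1767 N))))))))) N))))))))))))))))) (K a103 (M a115 (F (T t25 (L l131 (T t2960 (L l131 (T t2961 (K a106 (M a17 (F (L l390 (T t2955 (L l463 (L l493 (T t2962 N))))))) N)))))))) N)))))))))))))))))))⟩
def e0_63__79_54 : Ent 4 := ⟨[a0, a63], [a79, a95], (M a60 (L l137 (F (T t67 (T t43 (T t68 (T t69 (K a20 (M a255 (L l137 (F (T t2963 (T t2142 (L l11 (L l94 (L l350 (T t2964 (K a111 (Fr a127 a191 l433 (V t2965)) (K a127 (M a111 (F (L l361 (T t1564 (L l11 (L l94 (L l109 (L l144 (L l350 (T t2964 (L l84 (L l94 (L l144 (L l350 (L l361 (T t2966 N)))))))))))))))) N))))))))))) (K a40 (M a255 (L l137 (F (T t2963 (L l22 (L l392 (T t2142 (L l94 (T t2964 (K a111 (Fr a127 a191 l433 (V t2965)) (K a127 (M a111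 (F (L l361 (T t1564 (L l94 (L l109 (L l144 (T t2964 (L l84 (L l94 (L l144 (L l361 (T t2966 N))))))))))))) N))))))))))) (K a21 (M a255 (L l137 (F (T t2963 (L l11 (L l94 (L l347 (T t1634 (L l65 (T t1635 (K a111 (Fr a127 a191 l433 (V t2965)) (K a127 (M a111 (F (T t1566 (L l361 (T t1564 N))))) N)))))))))))) (K a41 (M a255 (L l137 (F (T t2963 (L l22 (T t2142 (L l94 (T t1634 (K a111 (Fr a127 a191 l433 (V t2965)) (K a127 (M a111 (F (T t2967 (L l361 (T t1564 N))))) N)))))))))) (K a61 (M a32 (L l137 (F (T t1573 (L l65 (L l325 (L l469 (T t219 (L l65 (T t1569 (K a111 (M a127 (F (T t1573 (L l84 (T t1158 N))))) (K a127 (M a111 (F (T t1573 (L l65 (L l151 (L l361 (L l469 (T t2968 N)))))))) N)))))))))))) (K a22 (M a255 (L l137 (F (T t2969 (L l84 (T t1165 (L l11 (L l94 (T t1634 (K a111 (Fr a127 a191 l433 (V t2965)) (K a127 (M a111 (F (T t1566 (L l361 (T t1564 N))))) N))))))))))) (K a42 (M a255 (L l137 (F (T t2969 (L l94 (T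 t1634 (L l22 (L l390 (T t1635 (K a111 (Fr a127 a191 l433 (V t2965)) (K a127 (M a111 (F (L l390 (T t2967 (L l361 (T t1564 N)))))) N))))))))))) (K a62 (M a32 (L l137 (F (T t1573 (L l325 (L l469 (T t219 (L l60 (T t1569 (K a111 (M a127 (F (T t1573 (L l84 (T t1158 N))))) (K a127 (M a111 (F (T t1573 (L l151 (L l361 (L l469 (T t2968 N))))))) N))))))))))) (K a3 (M a192 (L l137 (F (T t57 (L l477 (T t79 (L l307 (T t73 (K a111 (M a127 (F (T t1170 (L l139 (L l477 (T t2970 N)))))) (K a127 (M a111 (F (T t1334 (L l45 (L l361 (T t2971 N)))))) N)))))))))) (K a111 (M a127 (F (T t43 (L l139 (T t2970 (L l84 (T t1158 N))))))) (K a127 (M a111 (F (T t67 (L l361 (T t1564 (L l361 (T t2972 (K a61 (M a192 (F (T t72 (L l361 (L l515 (T t2971 N)))))) N)))))))) N))))))))))))))))))⟩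
def e0_63__79_55 : Ent 4 := ⟨[a0, a63], [a79, a96], (M a12 (F (T t122 (T t151 (T t152 (T t153 (K a4 (M a60 (F (T t43 (L l325 (T t398 (T t448 N)))))) (K a8 (M a60 (F (T t67 (L l325 (T t398 (L l52 (L l56 (T t448 N)))))))) (K a21 (M a192 (F (T t468 (L l15 (L l347 (T t450 (L l15 (L l347 (T t157 N))))))))) (K a25 (M a192 (F (T t449 (L l15 (T t450 (L l137 (T t21 N))))))) (K a29 (M a192 (F (T t449 (L l137 (L l371 (T t21 (L l104 (T t160 N)))))))) (K a38 (M a192 (F (T t468 (T t450 (L l137 (T t21 N)))))) (K a42 (M a192 (F (T t449 (T t450 (L l56 (T t157 N)))))) (K a46 (M a192 (F (T t449 (L l137 (T t21 (L l26 (L l104 (L l408 (T t160 N))))))))) (K a51 (M a192 (F (T t57 (L l79 (L l513 (T t156 (L l415 (T t450 N)))))))) N)))))))))))))))⟩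
def e0_63__79_56 : Ent 4 := ⟨[a0, a63], [a79, a97], (M a149 (F (T t25 (T t175 (T t176 (L l84 (T t177 (K a192 (M a53 (F (L l380 (T t178 (L l236 (T t179 (L l84 (L l236 (L l296 (T t180 N)))))))))) (K a21 (M a48 (F (T t16 (L l18 (T t1082 (L l18 (T t14 N))))))) (K a85 (M a16 (F (L l380 (T t504 (L l96 (L l144 (L l380 (T t190 (L l94 (L l151 (T t278 N))))))))))) (K a213 (Fr a106 a192 l519 (Fr a42 a21 l68 (Fr a170 a234 l390 (Fr a255 a85 l476 (V t582))))) (K a42 (M a48 (F (T t11 (L l390 (T t1082 (L l54 (T t14 N))))))) (K a106 (M a48 (F (T t48 (L l498 (T t14 (L l390 (L l498 (T t6 (L l380 (L l390 (T t26 N))))))))))) (K a170 (M a48 (F (T t11 (L l462 (T t48 (L l121 (L l151 (L l390 (T t13 N))))))))) (K a191 (M a204 (F (T t1043 (L l485 (T t1112 N))))) (K a255 (M a16 (F (L l380 (T t112 (L l289 (L l296 (T t191 (L l380 (T t192 N))))))))) N))))))))))))))))⟩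
def e0_63__79_57 : Ent 4 := ⟨[a0, a63], [a79, a98], (M a60 (F (T t67 (T t43 (T t68 (T t69 (K a20 (M a48 (F (T t138 (L l11 (L l325 (T t1 (L l11 (T t235 N)))))))) (K a40 (M a48 (F (T t48 (L l486 (L l489 (T t64 (L l52 (T t235 N)))))))) (K a21 (M a192 (F (T t72 (L l347 (T t73 (L l137 (L l347 (T t74 N)))))))) (K a41 (M a192 (F (T t79 (L l65 (T t35 (T t73 N)))))) (K a61 (M a192 (F (T t72 (L l65 (L l515 (T t35 (L l102 (T t80 N)))))))) (K a22 (M a192 (F (T t72 (L l137 (T t21 (T t73 N)))))) (K a42 (M a192 (F (T t79 (T t73 (L l22 (L l137 (T t74 N))))))) (K a62 (M a192 (F (T t72 (T t35 (L l66 (L l102 (L l516 (T t80 N)))))))) (K a3 (M a192 (F (T t614 (L l477 (T t79 (L l475 (T t35 N))))))) N)))))))))))))))⟩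
def e0_63__79_58 : Ent 4 := ⟨[a0, a63], [a79, a99], (M a149 (F (T t25 (T t175 (T t176 (L l84 (T t177 (K a192 (M a53 (F (T t178 (L l236 (T t179 (L l84 (L l236 (L l296 (T t180 N))))))))) (K a21 (M a48 (F (T t16 (L l18 (T t1082 (L l18 (T t14 N))))))) (K a85 (M a16 (F (T t504 (L l96 (L l144 (T t190 (L l94 (L l151 (T t278 N))))))))) (K a213 (Fr a106 a192 l519 (Fr a42 a21 l68 (Fr a170 a234 l390 (Fr a255 a85 l476 (V t582))))) (K a42 (M a48 (F (T t11 (L l390 (T t1082 (L l54 (T t14 N))))))) (K a106 (M a48 (F (T t48 (L l498 (T t14 (L l390 (L l498 (T t6 (L l390 (T t26 N)))))))))) (K a170 (M a48 (F (T t11 (L l462 (T t48 (L l151 (L l390 (T t13 N)))))))) (K a191 (M a240 (F (T t962 (T t963 N)))) (K a255 (M a16 (F (T t112 (L l96 (L l266 (T t190 (L l289 (L l296 (T t191 N))))))))) N))))))))))))))))⟩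
def e0_63__79_59 : Ent 4 := ⟨[a0, a63], [a79, a101], (M a60 (L l151 (F (T t67 (T t43 (T t68 (T t69 (K a20 (M a48 (L l151 (F (T t451 (L l11 (L l325 (L l491 (T t1 (L l11 (T t235 (K a112 (M a90 (F (T t451 (L l325 (T t2 (L l11 (T t235 N))))))) (K a90 (M a112 (F (T t451 (L l84 (T t2925 N))))) N)))))))))))) (K a40 (M a48 (L l151 (F (L l491 (T t64 (L l22 (L l325 (T t2 (L l52 (T t235 (K a112 (M a90 (F (L l52 (T t451 (L l22 (L l325 (T t2 (L l52 (T t235 N))))))))) (K a90 (M a112 (F (L l139 (T t2921 (L l22 (L l24 (L l375 (L l404 (T t610 N))))))))) N)))))))))))) (K a21 (M a192 (L l151 (F (T t72 (L l347 (L l491 (T t73 (L l137 (L l347 (L l491 (T t74 (K a112 (M a90 (F (T t72 (L l18 (L l104 (L l325 (T t2733 N))))))) (K a90 (M a112 (F (T t72 (L l347 (L l375 (L l491 (T t73 (L l11 (L l84 (L l104 (L l130 (T t78 N)))))))))))) N))))))))))))) (K a41 (M a192 (L l151 (F (T t79 (L l65 (L l491 (T t35 (L l491 (T t73 (K a112 (M a90 (F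 (T t79 (L l104 (L l325 (T t2733 N)))))) (K a90 (M a112 (F (T t79 (L l65 (L l375 (L l491 (T t35 (L l375 (L l491 (T t73 N)))))))))) N))))))))))) (K a61 (M a16 (L l151 (F (L l404 (T t1140 (L l325 (L l404 (T t97 (L l59 (T t1141 (K a112 (M a90 (F (L l404 (T t1140 (L l116 (T t2973 N)))))) (K a90 (M a112 (F (L l84 (L l404 (T t2974 (L l59 (L l354 (T t1141 N)))))))) N)))))))))))) (K a22 (M a16 (L l151 (F (L l404 (T t2447 (L l66 (L l325 (L l404 (T t97 (L l16 (L l66 (T t1141 (K a112 (M a90 (F (L l404 (T t2447 (L l16 (L l66 (L l116 (T t2973 N)))))))) (K a90 (M a112 (F (L l84 (L l404 (T t2974 (L l16 (L l66 (L l354 (T t1141 N))))))))) N)))))))))))))) (K a42 (M a192 (L l151 (F (T t79 (L l491 (T t73 (L l22 (L l137 (L l491 (T t74 (K a112 (M a90 (F (T t79 (L l104 (L l325 (L l390 (T t2733 N))))))) (K a90 (M a112 (F (T t79 (L l375 (L l491 (T t73 (L l84 (L l104 (L l130 (L l390 (T t78 N))))))))))) N)))))))))))) (K a62 (M a16 (L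 l151 (F (L l404 (T t1140 (L l66 (L l325 (L l404 (T t97 (L l66 (T t1141 (K a112 (M a90 (F (L l404 (T t1140 (L l66 (L l116 (T t2973 N))))))) (K a90 (M a112 (F (L l84 (L l404 (T t2974 (L l66 (L l354 (T t1141 N)))))))) N))))))))))))) (K a3 (M a16 (L l151 (F (L l404 (T t112 (L l9 (L l404 (T t1140 (T t1141 (K a112 (M a90 (F (L l404 (T t1574 (L l116 (T t2973 N)))))) (K a90 (M a112 (F (L l84 (L l404 (T t2974 (L l354 (T t1141 N))))))) N))))))))))) (K a112 (M a90 (F (T t67 (T t43 (T t68 (T t69 (K a20 (M a80 (F (T t2975 (L l84 (L l137 (L l404 (T t2976 N))))))) (K a40 (M a80 (F (T t2975 (L l84 (L l137 (L l392 (L l404 (T t2976 N)))))))) (K a21 (M a192 (F (T t72 (L l18 (L l104 (L l325 (T t2733 N))))))) (K a41 (M a192 (F (T t79 (L l104 (L l325 (T t2733 N)))))) (K a61 (M a192 (F (T t72 (L l104 (L l325 (T t2733 N)))))) (K a22 (M a192 (F (T t72 (L l104 (L l325 (T t2733 N)))))) (K a42 (M a192 (F (T t79 (L l104 (L l325 (L l390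 (T t2733 N))))))) (K a62 (M a192 (F (T t72 (L l104 (L l325 (L l516 (T t2733 N))))))) (K a3 (M a192 (F (T t1334 (L l7 (L l104 (L l325 (T t2733 N))))))) N))))))))))))))) (K a90 (M a112 (F (T t67 (T t43 (T t68 (T t69 (K a20 (M a80 (F (T t2977 (L l104 (L l137 (L l375 (L l491 (T t2978 N)))))))) (K a40 (M a80 (F (T t2977 (L l104 (L l137 (L l375 (L l491 (T t2978 N)))))))) (K a21 (M a64 (F (L l139 (T t465 (L l104 (L l123 (T t2979 N))))))) (K a41 (M a64 (F (T t2980 (L l104 (L l123 (T t2979 N)))))) (K a61 (M a64 (F (T t2980 (L l104 (L l123 (L l443 (T t2979 N))))))) (K a22 (M a64 (F (L l139 (T t465 (L l104 (L l123 (T t2979 N))))))) (K a42 (M a64 (F (T t2980 (L l104 (L l123 (T t2979 N)))))) (K a62 (M a64 (F (T t2980 (L l104 (L l123 (T t2979 N)))))) (K a3 (M a64 (F (T t2980 (L l104 (L l123 (T t2979 N)))))) N))))))))))))))) N))))))))))))))))))⟩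
def e0_63__79_60 : Ent 4 := ⟨[a0, a63], [a79, a102], (M a60 (F (T t67 (T t43 (T t68 (T t69 (K a20 (M a48 (F (T t138 (L l11 (L l325 (T t1 (L l11 (T t235 N)))))))) (K a40 (M a48 (F (T t246 (L l325 (T t1 (L l52 (T t235 N))))))) (K a21 (M a192 (F (T t72 (L l347 (L l495 (T t73 (L l137 (L l347 (L l495 (T t74 N)))))))))) (K a41 (M a192 (F (T t79 (L l65 (L l495 (T t35 (L l495 (T t73 N)))))))) (K a61 (M a192 (F (T t72 (L l65 (L l495 (L l515 (T t35 (L l102 (T t80 N))))))))) (K a22 (M a192 (F (T t72 (L l137 (L l495 (T t21 (L l495 (T t73 N)))))))) (K a42 (M a192 (F (T t79 (L l495 (T t73 (L l22 (L l137 (L l495 (T t74 N))))))))) (K a62 (M a192 (F (T t72 (L l495 (T t35 (L l66 (L l102 (L l516 (T t80 N))))))))) (K a3 (M a192 (F (T t1334 (L l475 (L l495 (T t35 (L l307 (L l495 (T t73 N))))))))) N)))))))))))))))⟩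
def e0_63__79_61 : Ent 4 := ⟨[a0, a63], [a79, a103], (M a149 (L l149 (F (T t25 (T t175 (T t176 (L l84 (T t177 (K a192 (M a29 (L l149 (F (T t956 (L l272 (T t641 (L l272 (L l296 (T t957 (K a115 (M a91 (F (T t956 (L l268 (L l272 (T t2981 N)))))) (K a91 (M a115 (F (T t956 (L l272 (L l463 (T t641 (L l272 (L l296 (T t957 N))))))))) N))))))))))) (K a21 (M a243 (L l149 (F (T t2982 (L l511 (T t2109 (T t2983 (K a115 (M a91 (F (L l83 (T t2984 (L l120 (L l511 (T t2109 N))))))) (K a91 (M a115 (F (T t2985 (L l131 (T t2983 N))))) N))))))))) (K a85 (M a29 (L l149 (F (T t2986 (L l365 (L l511 (T t2091 (L l91 (T t2987 (K a115 (M a91 (F (T t2981 (L l365 (L l415 (L l511 (T t2091 N))))))) (K a91 (M a115 (F (T t2988 (L l365 (L l511 (T t2091 (L l88 (L l91 (T t2987 N))))))))) N))))))))))) (K a213 (Fr a106 a192 l519 (Fr a42 a21 l68 (Fr a170 a234 l390 (Fr a255 a85 l476 (V t582))))) (K a42 (M a243 (L l149 (F (T t2108 (L l84 (L l390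 (L l511 (T t2989 (T t2983 (K a115 (M a91 (F (L l83 (T t2984 (L l26 (L l120 (L l390 (L l511 (T t2109 N))))))))) (K a91 (M a115 (F (T t2990 (L l137 (T t2991 (L l84 (T t2992 N))))))) N))))))))))) (K a106 (M a29 (L l149 (F (L l408 (T t641 (L l390 (T t957 (L l390 (L l408 (L l511 (T t2091 (L l408 (T t2993 (K a115 (M a91 (F (T t2981 (L l390 (L l408 (L l415 (L l511 (T t2091 N)))))))) (K a91 (M a115 (F (L l79 (L l501 (T t2994 (L l390 (T t957 (L l390 (L l408 (L l511 (T t2091 N))))))))))) N))))))))))))))) (K a170 (M a48 (L l149 (F (T t4 (L l462 (T t48 (L l151 (L l390 (T t13 (K a115 (M a91 (F (T t4 (L l462 (T t48 (L l106 (L l151 (L l390 (T t13 N))))))))) (K a91 (M a115 (F (T t4 (L l462 (T t48 (L l151 (L l390 (T t13 N)))))))) N))))))))))) (K a191 (M a240 (L l149 (F (T t962 (T t963 (K a115 (M a91 (F (T t1090 (T t962 (T t1093 N))))) (K a91 (M a115 (F (T t962 (T t963 N)))) N))))))) (K a255 (M a16 (L l149 (F (T t112 (L l266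 (T t190 (L l289 (L l296 (T t191 (K a115 (M a91 (F (T t112 (L l266 (T t190 (L l289 (L l296 (T t191 N)))))))) (K a91 (M a115 (F (T t112 (L l266 (T t190 (L l289 (L l296 (T t191 N)))))))) N))))))))))) (K a115 (M a91 (F (T t25 (T t175 (T t176 (L l84 (L l120 (T t177 (K a192 (M a5 (F (L l385 (T t2995 (L l84 (L l296 (T t1038 N))))))) (K a21 (M a132 (F (L l79 (L l150 (T t1775 (L l18 (L l113 (L l325 (T t2996 N))))))))) (K a85 (M a29 (F (T t2981 (L l365 (L l415 (L l511 (T t2091 N))))))) (K a213 (Fr a106 a192 l519 (Fr a42 a21 l68 (Fr a170 a234 l390 (Fr a255 a85 l476 (V t582))))) (K a42 (M a132 (F (L l113 (L l325 (T t2996 (L l79 (L l150 (L l390 (T t1775 N))))))))) (K a106 (M a89 (F (T t2997 (L l113 (L l390 (T t2699 N)))))) (K a170 (M a148 (F (L l103 (L l113 (L l218 (T t2998 (L l115 (L l139 (L l174 (L l390 (T t1767 N))))))))))) (K a191 (M a132 (F (L l79 (L l150 (T t1775 (L l113 (L l325 (T t2996 N)))))))) (K a255 (M a148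 (F (L l103 (L l113 (T t2998 (L l115 (L l139 (L l434 (T t1767 N))))))))) N))))))))))))))))) (K a91 (M a115 (F (T t25 (L l131 (T t2960 (L l131 (T t2961 (K a106 (M a17 (F (L l390 (T t2955 (L l463 (L l493 (T t2962 N))))))) N)))))))) N)))))))))))))))))))⟩
def e0_63__79_62 : Ent 4 := ⟨[a0, a63], [a79, a106], (M a12 (F (T t122 (L l390 (L l408 (T t151 (L l501 (T t152 (L l390 (T t153 (K a4 (M a60 (F (T t1413 (L l46 (L l50 (L l393 (T t67 (L l390 (L l408 (T t448 N)))))))))) (K a8 (M a60 (F (T t68 (L l325 (T t398 (L l52 (L l56 (L l390 (L l408 (T t448 N)))))))))) (K a21 (M a255 (F (L l15 (T t2999 (L l390 (T t2137 (L l50 (L l144 (L l347 (L l408 (T t2487 N))))))))))) (K a25 (M a48 (F (T t550 (L l15 (L l325 (T t1 (L l12 (L l56 (L l390 (L l498 (T t866 N))))))))))) (K a29 (M a48 (F (T t550 (L l15 (L l325 (T t1 (L l390 (L l498 (T t866 N))))))))) (K a38 (M a48 (F (T t1580 (L l26 (L l325 (L l390 (L l498 (T t2 (L l21 (L l50 (T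 t868 N))))))))))) (K a42 (M a170 (F (T t2497 (L l79 (L l144 (T t2498 (L l26 (L l84 (L l132 (L l144 (L l408 (T t2499 (L l26 (L l408 (T t2500 N))))))))))))))) (K a46 (M a48 (L l408 (F (T t443 (L l325 (T t1 (L l26 (L l390 (L l498 (T t866 (K a226 (M a166 (F (T t48 (L l132 (L l396 (T t2624 N)))))) (K a166 (M a226 (F (T t1580 (L l26 (L l325 (L l390 (L l498 (T t2 (L l26 (L l390 (L l498 (T t866 N)))))))))))) N)))))))))))) (K a51 (M a16 (F (T t2517 (L l73 (L l325 (L l390 (T t97 (L l390 (L l408 (T t872 N)))))))))) N)))))))))))))))))))⟩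
def e0_63__79_63 : Ent 4 := ⟨[a0, a63], [a79, a107], (M a149 (F (T t25 (T t175 (T t176 (L l84 (L l98 (T t177 (K a192 (M a53 (F (T t178 (L l236 (T t179 (L l84 (L l236 (L l296 (T t180 N))))))))) (K a21 (M a48 (F (T t4 (L l18 (L l98 (T t1082 (L l18 (T t14 N)))))))) (K a85 (M a16 (F (T t504 (L l98 (L l144 (T t190 (L l94 (L l151 (T t278 N))))))))) (K a213 (Fr a106 a192 l519 (Fr a42 a21 l68 (Fr a170 a234 l390 (Fr a255 a85 l476 (V t582))))) (K a42 (M a48 (F (T t11 (L l98 (L l390 (T t1082 (L l54 (T t14 N)))))))) (K a106 (M a105 (F (L l390 (T t1931 (L l391 (L l516 (T t1932 (L l390 (L l391 (L l516 (T t1933 (L l390 (L l516 (T t1934 (L l516 (T t1935 N)))))))))))))))) (K a170 (M a48 (F (T t4 (L l462 (T t48 (L l98 (L l151 (L l390 (T t13 N))))))))) (K a191 (M a16 (F (T t112 (L l98 (T t190 (L l213 (T t191 N))))))) (K a255 (M a16 (F (T t112 (L l98 (L l266 (T t190 (L l289 (L l296 (T t191 N))))))))) N)))))))))))))))))⟩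
def e0_63__79_64 : Ent 4 := ⟨[a0, a63], [a79, a111], (M a12 (L l137 (F (T t122 (T t151 (T t152 (T t153 (K a4 (M a255 (L l137 (F (T t2999 (L l84 (T t1165 (L l50 (L l458 (T t3000 (K a95 (Fr a127 a191 l433 (V t3001)) (K a127 (M a95 (F (L l397 (T t3002 (T t3003 (L l397 (T t3004 N))))))) N))))))))))) (K a8 (M a255 (L l137 (F (T t2999 (L l84 (L l464 (T t1165 (T t3000 (K a95 (Fr a127 a191 l433 (V t3001)) (K a127 (M a95 (F (L l397 (T t3002 (L l56 (L l464 (T t3003 (L l397 (L l464 (T t3004 N)))))))))) N)))))))))) (K a21 (M a255 (L l137 (F (T t2034 (L l347 (T t2031 (L l15 (T t2032 (K a95 (Fr a127 a191 l433 (V t3001)) (K a127 (M a95 (F (T t2137 (L l15 (L l397 (T t3005 N)))))) N)))))))))) (K a25 (M a255 (L l137 (F (T t2034 (L l84 (T t1165 (T t2031 (K a95 (Fr a127 a191 l433 (V t3001)) (K a127 (M a95 (F (T t2123 (L l15 (L l71 (L l397 (T t3005 N))))))) N))))))))) (K a29 (M a85 (L l137 (F (T t352 (T t1368 (T t572 (K a95 (M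 a127 (F (T t1190 (L l84 (T t1191 N))))) (K a127 (M a95 (F (T t1370 (T t2878 N)))) N)))))))) (K a38 (M a255 (L l137 (F (T t2999 (L l84 (T t1165 (T t2031 (K a95 (Fr a127 a191 l433 (V t3001)) (K a127 (M a95 (F (T t2137 (L l26 (L l397 (T t3006 N)))))) N))))))))) (K a42 (M a255 (L l137 (F (T t2999 (T t2031 (L l56 (L l390 (T t2032 (K a95 (Fr a127 a191 l433 (V t3001)) (K a127 (M a95 (F (L l144 (T t2134 (L l66 (L l397 (T t3005 N))))))) N)))))))))) (K a46 (M a85 (L l137 (F (T t255 (T t123 (L l26 (T t572 (K a95 (M a127 (F (T t1190 (L l26 (L l84 (T t1191 N)))))) (K a127 (M a95 (F (T t2427 (L l26 (T t2878 N))))) N))))))))) (K a51 (M a16 (L l137 (F (T t112 (L l39 (T t871 (T t872 (K a95 (M a127 (F (T t112 (L l79 (L l513 (T t1168 N)))))) (K a127 (M a95 (F (T t652 (T t3007 N)))) N))))))))) (K a95 (M a127 (F (T t151 (L l79 (T t1168 (L l84 (T t1158 N))))))) (K a127 (M a95 (F (T t122 (T t151 (T t152 (T t153 (K a4 (M a85 (F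 (L l397 (T t3008 (L l138 (T t154 N)))))) (K a8 (M a85 (F (L l56 (T t2878 (L l397 (L l464 (T t3009 N))))))) (K a21 (M a28 (F (T t2739 (T t3010 N)))) (K a25 (M a28 (F (T t2735 (T t3010 N)))) (K a29 (M a16 (F (T t652 (T t3007 N)))) (K a38 (M a16 (F (L l21 (T t871 (L l26 (L l72 (T t3007 N))))))) (K a42 (M a28 (F (L l22 (T t2735 (L l26 (T t3010 N)))))) (K a46 (M a16 (F (T t871 (L l26 (T t3007 N))))) (K a51 (M a16 (F (T t652 (T t3007 N)))) N))))))))))))))) N))))))))))))))))))⟩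
def e0_63__79_65 : Ent 4 := ⟨[a0, a63], [a79, a112], (M a48 (L l151 (F (T t48 (L l325 (T t1 (L l325 (T t2 (L l325 (T t3 (L l325 (T t0 (K a16 (M a60 (L l151 (F (T t43 (T t64 (T t65 (K a101 (M a90 (F (T t69 (T t451 (L l14 (L l18 (L l491 (T t44 N)))))))) (K a90 (M a101 (F (T t69 (L l116 (T t313 N))))) N)))))))) (K a32 (M a170 (L l151 (F (T t439 (L l114 (T t3011 (T t580 (K a101 (M a90 (F (T t317 (L l123 (L l325 (T t2503 (L l84 (L l116 (T t3012 N))))))))) (K a90 (M a101 (F (L l325 (T t2191 (L l94 (T t320 (L l325 (T t687 N)))))))) N))))))))) (K a21 (M a101 (F (T t315 (L l18 (L l325 (T t334 (L l18 (T t314 N)))))))) (K a37 (M a101 (F (T t335 (L l116 (T t313 (T t314 N)))))) (K a53 (M a149 (L l151 (F (T t25 (L l116 (T t1938 (T t26 (K a101 (M a90 (F (T t176 (L l104 (L l325 (T t2779 (L l114 (L l137 (T t1072 N))))))))) (K a90 (M a101 (F (L l354 (T t2924 (L l325 (L l462 (T t312 (L l47 (T t175 N))))))))) N))))))))) (K a26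 (M a101 (F (L l325 (T t312 (L l54 (L l116 (T t313 (L l18 (L l54 (T t314 N)))))))))) (K a42 (M a101 (F (T t335 (L l54 (L l116 (T t313 (L l54 (T t314 N)))))))) (K a58 (M a12 (L l151 (F (T t443 (T t122 (T t146 (K a101 (M a90 (F (T t445 (T t122 (T t146 N))))) (K a90 (M a101 (F (T t122 (L l94 (L l325 (T t1307 N)))))) N)))))))) (K a15 (M a101 (L l325 (F (T t3013 (L l116 (L l339 (T t313 (T t314 (K a143 (Fr a207 a154 l512 (V t2929)) (K a207 (M a143 (F (L l236 (L l289 (T t314 (L l116 (L l236 (L l483 (T t3014 (L l114 (L l289 (L l483 (T t3015 N))))))))))))) N)))))))))) (K a101 (M a90 (F (L l325 (T t2 (L l404 (T t3016 (L l491 (T t3017 (L l325 (L l491 (T t1 (L l325 (L l404 (T t0 (L l404 (T t3018 (K a21 (M a15 (F (T t3019 (L l47 (L l404 (T t3020 (L l47 (T t3021 N)))))))) (K a37 (M a240 (L l383 (F (L l84 (T t3022 (L l47 (L l137 (L l325 (T t2524 (L l28 (L l137 (T t3023 (K a165 (M a229 (F (L l28 (L l227 (L l325 (L l404 (T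 t3024 (L l47 (L l84 (L l180 (L l199 (T t3025 (L l84 (L l199 (L l325 (T t3026 N)))))))))))))))) (K a229 (Fr a165 a15 l483 (V t3027)) N)))))))))))))) (K a26 (M a80 (F (L l404 (T t3028 (L l54 (L l114 (L l137 (T t3029 (L l54 (L l137 (L l404 (T t3030 N)))))))))))) (K a42 (M a15 (F (T t3031 (L l28 (L l491 (T t3032 (L l28 (T t3021 N)))))))) N)))))))))))))))))))) (K a90 (M a101 (F (T t132 (L l116 (T t313 (L l325 (T t334 N))))))) N)))))))))))))))))))))))⟩
def e0_63__79_66 : Ent 4 := ⟨[a0, a63], [a79, a113], (M a149 (F (T t25 (T t175 (T t176 (L l84 (T t177 (K a192 (M a53 (F (T t178 (L l236 (T t179 (L l84 (L l236 (L l296 (T t180 N))))))))) (K a21 (M a48 (F (T t4 (L l18 (T t1082 (L l18 (T t14 N))))))) (K a85 (M a16 (F (T t504 (L l144 (T t190 (L l94 (L l151 (T t278 N)))))))) (K a213 (Fr a106 a192 l519 (Fr a42 a21 l68 (Fr a170 a234 l390 (Fr a255 a85 l476 (V t582))))) (K a42 (M a48 (F (T t11 (L l390 (T t1082 (L l54 (T t14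 N))))))) (K a106 (M a48 (F (T t48 (L l498 (T t14 (L l111 (L l390 (L l498 (T t6 (L l390 (T t26 N))))))))))) (K a170 (M a48 (F (T t4 (L l462 (T t48 (L l106 (L l151 (L l390 (T t13 N))))))))) (K a191 (M a16 (F (T t112 (T t190 (L l213 (T t191 N)))))) (K a255 (M a16 (F (T t112 (L l266 (T t190 (L l289 (L l296 (T t191 N)))))))) N))))))))))))))))⟩
def e0_63__79_67 : Ent 4 := ⟨[a0, a63], [a79, a114], (M a149 (F (T t25 (T t175 (T t176 (L l84 (T t177 (K a192 (M a53 (F (T t178 (L l236 (T t179 (L l84 (L l236 (L l296 (T t180 N))))))))) (K a21 (M a48 (F (T t4 (L l18 (L l417 (T t1082 (L l18 (T t14 N)))))))) (K a85 (M a16 (F (T t504 (L l144 (L l417 (T t190 (L l94 (L l148 (L l151 (T t278 N)))))))))) (K a213 (Fr a106 a192 l519 (Fr a42 a21 l68 (Fr a170 a234 l390 (Fr a255 a85 l476 (V t582))))) (K a42 (M a48 (F (T t11 (L l390 (L l417 (T t1082 (L l54 (T t14 N)))))))) (K a106 (M a48 (F (T t48 (L l498 (T t14 (L l390 (L l498 (T t6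 (L l390 (T t26 N)))))))))) (K a170 (M a48 (F (T t4 (L l462 (T t48 (L l106 (L l151 (L l390 (L l417 (T t13 N)))))))))) (K a191 (M a240 (F (T t962 (L l112 (T t963 N))))) (K a255 (M a16 (F (T t112 (L l266 (L l417 (T t190 (L l289 (L l296 (T t191 N))))))))) N))))))))))))))))⟩
def e0_63__79_68 : Ent 4 := ⟨[a0, a63], [a79, a115], (M a149 (L l149 (F (T t25 (T t175 (T t176 (L l84 (L l120 (T t177 (K a192 (M a53 (L l149 (F (T t178 (L l236 (T t179 (L l84 (L l236 (L l296 (T t180 (K a103 (M a91 (F (T t939 (L l236 (L l403 (T t179 (L l84 (L l236 (L l296 (T t180 N)))))))))) (K a91 (M a103 (F (T t178 (L l232 (L l236 (T t2939 N)))))) N)))))))))))) (K a21 (M a195 (L l149 (F (T t1750 (T t1114 (T t1115 (K a103 (M a91 (F (T t1114 (L l103 (L l415 (T t3033 N)))))) (K a91 (M a103 (F (T t1114 (L l50 (L l131 (L l415 (T t2940 N))))))) N)))))))) (K a85 (M a53 (L l149 (F (T t939 (T t2941 (L l123 (L l151 (T t2942 (K a103 (M a91 (F (T t2943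 (T t939 (L l97 (L l123 (L l151 (T t2942 N)))))))) (K a91 (M a103 (F (T t2939 (L l325 (L l455 (L l481 (T t982 N))))))) N)))))))))) (K a213 (Fr a106 a192 l519 (Fr a42 a21 l68 (Fr a170 a234 l390 (Fr a255 a85 l476 (V t582))))) (K a42 (M a243 (L l149 (F (T t2982 (L l26 (L l120 (L l390 (T t2109 (L l113 (L l120 (T t2983 (K a103 (M a91 (F (L l83 (T t2984 (L l26 (L l120 (L l390 (L l511 (T t2109 N))))))))) (K a91 (M a103 (F (T t2990 (L l26 (L l120 (L l390 (T t2109 (L l113 (L l120 (L l131 (T t2983 N))))))))))) N))))))))))))) (K a106 (M a53 (L l149 (F (L l498 (T t179 (L l84 (L l390 (T t180 (L l325 (L l390 (L l498 (T t982 (L l325 (L l498 (T t1087 (K a103 (M a91 (F (L l403 (L l498 (T t179 (L l84 (L l390 (T t180 (L l325 (L l390 (L l498 (T t982 (L l325 (L l498 (L l511 (T t1087 N)))))))))))))))) (K a91 (M a103 (F (T t2939 (L l325 (L l390 (L l481 (L l498 (T t982 N)))))))) N))))))))))))))))) (K a170 (M a48 (L l149 (F (T t4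 (L l462 (T t48 (L l106 (L l151 (L l390 (T t13 (K a103 (M a91 (F (T t4 (L l462 (T t48 (L l106 (L l151 (L l390 (T t13 N))))))))) (K a91 (M a103 (F (T t4 (L l462 (T t48 (L l106 (L l151 (L l390 (T t13 N))))))))) N)))))))))))) (K a191 (M a240 (L l149 (F (T t962 (T t963 (K a103 (M a91 (F (T t1090 (T t962 (T t1093 N))))) (K a91 (M a103 (F (T t962 (T t963 N)))) N))))))) (K a255 (M a53 (L l149 (F (T t2953 (T t178 (L l84 (L l296 (T t180 (K a103 (M a91 (F (T t2953 (T t939 (L l84 (L l296 (T t180 N))))))) (K a91 (M a103 (F (T t178 (T t2939 N)))) N)))))))))) (K a103 (M a91 (F (T t25 (T t175 (T t176 (L l84 (L l120 (T t177 (K a192 (M a5 (F (L l385 (T t2995 (L l84 (L l296 (T t1038 N))))))) (K a21 (M a132 (F (L l79 (L l150 (T t1775 (L l18 (L l113 (L l325 (T t2996 N))))))))) (K a85 (M a29 (F (T t2981 (L l365 (L l415 (L l511 (T t2091 N))))))) (K a213 (Fr a106 a192 l519 (Fr a42 a21 l68 (Fr a170 a234 l390 (Fr a255 a85 l476 (V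 t582))))) (K a42 (M a132 (F (L l113 (L l325 (T t2996 (L l79 (L l150 (L l390 (T t1775 N))))))))) (K a106 (M a89 (F (T t2997 (L l113 (L l390 (T t2699 N)))))) (K a170 (M a148 (F (L l103 (L l113 (L l218 (T t2998 (L l115 (L l139 (L l174 (L l390 (T t1767 N))))))))))) (K a191 (M a132 (F (L l79 (L l150 (T t1775 (L l113 (L l325 (T t2996 N)))))))) (K a255 (M a148 (F (L l103 (L l113 (T t2998 (L l115 (L l139 (L l434 (T t1767 N))))))))) N))))))))))))))))) (K a91 (M a103 (F (T t25 (T t175 (T t176 (L l84 (L l120 (T t177 (K a192 (M a17 (F (L l355 (T t2954 (L l120 (L l296 (T t2955 N))))))) (K a21 (M a144 (F (L l106 (L l151 (T t994 (L l50 (L l137 (L l415 (T t2956 N))))))))) (K a85 (M a53 (F (T t2939 (L l325 (L l455 (L l481 (T t982 N))))))) (K a213 (Fr a106 a192 l519 (Fr a42 a21 l68 (Fr a170 a234 l390 (Fr a255 a85 l476 (V t582))))) (K a42 (M a144 (F (L l137 (L l415 (T t2956 (L l106 (L l151 (L l390 (T t994 N))))))))) (K a106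 (M a101 (F (T t2957 (L l137 (L l390 (T t2958 N)))))) (K a170 (M a148 (F (L l131 (L l137 (L l218 (T t2959 (L l115 (L l139 (L l174 (L l390 (T t1767 N))))))))))) (K a191 (M a144 (F (L l106 (L l151 (T t994 (L l137 (L l415 (T t2956 N)))))))) (K a255 (M a148 (F (L l131 (L l137 (T t2959 (L l115 (L l139 (L l434 (T t1767 N))))))))) N))))))))))))))))) N))))))))))))))))))))⟩
def e0_63__79_69 : Ent 4 := ⟨[a0, a63], [a79, a117], (M a12 (F (T t122 (T t151 (T t152 (T t153 (K a4 (M a60 (F (T t43 (L l325 (T t398 (T t448 N)))))) (K a8 (M a60 (F (T t67 (L l325 (T t398 (L l52 (L l56 (T t448 N)))))))) (K a21 (M a192 (F (T t468 (L l15 (L l347 (T t450 (L l15 (L l347 (L l422 (T t157 N)))))))))) (K a25 (M a192 (F (T t449 (L l15 (T t450 (L l114 (L l137 (L l440 (T t21 N))))))))) (K a29 (M a192 (F (T t449 (L l114 (L l137 (L l371 (L l440 (T t21 (T t160 N))))))))) (K a38 (M a192 (F (T t468 (T t450 (L l114 (L l137 (L l440 (T t21 N))))))))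 (K a42 (M a192 (F (T t449 (T t450 (L l56 (L l422 (T t157 N))))))) (K a46 (M a192 (F (T t449 (L l114 (L l137 (L l440 (T t21 (L l26 (L l408 (T t160 N)))))))))) (K a51 (M a192 (F (T t57 (L l79 (L l513 (T t156 (L l415 (T t450 N)))))))) N)))))))))))))))⟩
def e0_63__79_70 : Ent 4 := ⟨[a0, a63], [a79, a118], (M a149 (F (T t25 (T t175 (T t176 (L l84 (T t177 (K a192 (M a53 (F (T t178 (L l236 (T t179 (L l84 (L l236 (L l296 (L l423 (T t180 N)))))))))) (K a21 (M a48 (F (T t4 (L l18 (T t1082 (L l18 (T t14 N))))))) (K a85 (M a16 (F (T t504 (L l144 (T t190 (L l94 (L l151 (T t278 N)))))))) (K a213 (Fr a106 a192 l519 (Fr a42 a21 l68 (Fr a170 a234 l390 (Fr a255 a85 l476 (V t582))))) (K a42 (M a48 (F (T t11 (L l390 (T t1082 (L l54 (T t14 N))))))) (K a106 (M a48 (F (T t48 (L l498 (T t14 (L l107 (L l390 (L l498 (T t6 (L l390 (T t26 N))))))))))) (K a170 (M a48 (F (T t4 (L l462 (T t48 (L l151 (L l390 (T t13 N)))))))) (K a191 (M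 a240 (F (T t962 (L l112 (T t963 N))))) (K a255 (M a16 (F (T t112 (L l266 (T t190 (L l289 (L l296 (T t191 N)))))))) N))))))))))))))))⟩
def e0_63__79_71 : Ent 4 := ⟨[a0, a63], [a79, a119], (M a60 (F (T t67 (T t43 (T t68 (T t69 (K a20 (M a48 (F (T t138 (L l11 (L l325 (T t1 (L l11 (T t235 N)))))))) (K a40 (M a48 (F (T t48 (L l439 (T t64 (L l52 (T t235 N))))))) (K a21 (M a192 (F (T t72 (L l347 (T t73 (L l113 (L l137 (L l347 (T t74 N))))))))) (K a41 (M a192 (F (T t79 (L l65 (L l439 (T t35 (T t73 N))))))) (K a61 (M a192 (F (T t72 (L l65 (L l439 (L l515 (T t35 (T t80 N)))))))) (K a22 (M a192 (F (T t72 (L l113 (L l137 (L l439 (T t21 (T t73 N)))))))) (K a42 (M a192 (F (T t79 (T t73 (L l22 (L l113 (L l137 (T t74 N)))))))) (K a62 (M a192 (F (T t72 (L l439 (T t35 (L l66 (L l516 (T t80 N)))))))) (K a3 (M a192 (F (T t1343 (L l477 (T t79 (L l439 (L l475 (T t35 N)))))))) N)))))))))))))))⟩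
def e0_63__79_72 : Ent 4 := ⟨[a0, a63], [a79, a122], (M a149 (F (T t25 (T t175 (T t176 (L l84 (L l130 (T t177 (K a192 (M a53 (F (L l426 (T t178 (L l84 (L l236 (L l296 (T t180 (L l236 (L l426 (T t179 N))))))))))) (K a21 (M a48 (F (L l426 (T t4 (L l18 (L l130 (T t1082 (L l18 (L l426 (T t14 N)))))))))) (K a85 (M a16 (F (L l325 (T t97 (L l130 (L l144 (T t190 (L l94 (L l130 (L l151 (T t278 N))))))))))) (K a213 (Fr a106 a192 l519 (Fr a42 a21 l68 (Fr a170 a234 l390 (Fr a255 a85 l476 (V t582))))) (K a42 (M a48 (F (T t11 (L l130 (L l390 (T t1082 (L l54 (L l426 (T t14 N))))))))) (K a106 (M a90 (F (L l390 (T t1073 (L l411 (L l426 (T t1040 (L l137 (L l390 (L l411 (T t1954 (L l390 (L l411 (T t1074 (L l411 (T t1075 N)))))))))))))))) (K a170 (M a48 (F (T t11 (L l462 (T t48 (L l114 (L l130 (L l151 (L l390 (T t13 N)))))))))) (K a191 (M a16 (F (L l325 (T t97 (L l130 (T t190 (L l213 (T t191 N)))))))) (K a255 (M a16 (F (L l426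 (T t112 (L l84 (L l130 (T t2785 (L l289 (L l296 (T t191 N)))))))))) N)))))))))))))))))⟩
def e0_63__79_73 : Ent 4 := ⟨[a0, a63], [a79, a123], (M a149 (F (T t25 (T t175 (T t176 (L l84 (L l132 (T t177 (K a192 (M a53 (F (T t178 (L l236 (T t179 (L l84 (L l236 (L l296 (T t180 N))))))))) (K a21 (M a48 (F (T t4 (L l18 (L l132 (T t1082 (L l18 (T t14 N)))))))) (K a85 (M a16 (F (T t504 (L l132 (L l144 (T t190 (L l94 (L l151 (T t278 N))))))))) (K a213 (Fr a106 a192 l519 (Fr a42 a21 l68 (Fr a170 a234 l390 (Fr a255 a85 l476 (V t582))))) (K a42 (M a48 (F (T t11 (L l132 (L l390 (T t1082 (L l54 (T t14 N)))))))) (K a106 (M a89 (F (L l390 (T t1955 (L l408 (L l427 (T t1956 (L l390 (L l408 (L l427 (T t1957 (L l390 (L l408 (T t1958 (L l408 (T t1959 N)))))))))))))))) (K a170 (M a48 (F (T t4 (L l462 (T t48 (L l132 (L l151 (L l390 (T t13 N))))))))) (K a191 (M a16 (F (T t112 (L l132 (T t190 (L l213 (T t191 N))))))) (K a255 (M a16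 (F (T t112 (L l132 (L l266 (T t190 (L l289 (L l296 (T t191 N))))))))) N)))))))))))))))))⟩
def e0_63__79_74 : Ent 4 := ⟨[a0, a63], [a79, a127], (M a60 (L l137 (F (T t67 (T t43 (T t68 (T t69 (K a20 (M a149 (L l137 (F (T t1034 (T t176 (L l109 (T t1256 (K a95 (M a111 (F (T t3034 (L l109 (T t1256 N))))) (K a111 (M a95 (F (T t3035 (T t3036 N)))) N))))))))) (K a40 (M a149 (L l137 (F (T t461 (L l22 (T t176 (L l22 (L l109 (T t1256 (K a95 (M a111 (F (T t3034 (L l22 (L l109 (T t1256 N)))))) (K a111 (M a95 (F (T t1534 (L l22 (T t3036 N))))) N))))))))))) (K a21 (M a192 (L l137 (F (T t72 (L l143 (L l347 (T t73 (L l11 (L l144 (T t1541 (K a95 (M a111 (F (T t72 (L l347 (L l361 (T t2971 N)))))) (K a111 (M a95 (F (T t72 (L l65 (L l347 (T t569 (L l11 (L l104 (L l144 (T t1541 N)))))))))) N)))))))))))) (K a41 (M a149 (L l137 (F (T t1020 (L l22 (T t176 (L l22 (T t3037 (K a95 (M a111 (F (T t3034 (L l469 (T t3038 N))))) (K a111 (M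 a95 (F (T t1022 (L l22 (T t3036 N))))) N)))))))))) (K a61 (M a85 (L l137 (F (T t936 (T t168 (T t115 (K a95 (M a111 (F (T t1401 (L l114 (L l361 (T t3039 N)))))) (K a111 (M a95 (F (T t3040 (T t2878 N)))) N)))))))) (K a22 (M a16 (L l137 (F (T t2447 (L l66 (L l325 (T t97 (L l16 (L l66 (T t1141 (K a95 (M a111 (F (T t2447 (L l361 (T t1564 N))))) (K a111 (M a95 (F (T t2447 (L l16 (L l66 (T t3041 N)))))) N)))))))))))) (K a42 (M a192 (L l137 (F (T t79 (L l143 (T t73 (L l66 (L l144 (L l390 (T t1541 (K a95 (M a111 (F (T t79 (L l361 (T t2971 N))))) (K a111 (M a95 (F (T t569 (L l109 (L l139 (T t77 (L l66 (L l104 (L l144 (L l390 (T t1541 N))))))))))) N)))))))))))) (K a62 (M a85 (L l137 (F (T t3042 (L l66 (T t168 (L l66 (T t115 (K a95 (M a111 (F (T t1401 (L l66 (L l114 (L l361 (T t3039 N))))))) (K a111 (M a95 (F (T t1401 (L l66 (T t2878 N))))) N)))))))))) (K a3 (M a16 (L l137 (F (T t112 (L l9 (T t1140 (T t1141 (K a95 (M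 a111 (F (T t2447 (L l333 (L l361 (T t1564 N)))))) (K a111 (M a95 (F (T t1574 (T t3041 N)))) N))))))))) (K a95 (M a111 (F (T t67 (L l361 (T t1564 (L l361 (T t2972 (K a61 (M a192 (F (T t72 (L l361 (L l515 (T t2971 N)))))) N)))))))) (K a111 (M a95 (F (T t67 (T t43 (T t68 (T t69 (K a20 (M a80 (F (T t2975 (L l151 (T t3043 N))))) (K a40 (M a80 (F (T t2975 (L l22 (L l151 (T t3043 N)))))) (K a21 (M a80 (F (L l151 (T t3044 (L l113 (T t2977 N)))))) (K a41 (M a80 (F (L l113 (T t2977 (L l22 (L l151 (T t3043 N))))))) (K a61 (M a16 (F (T t1140 (T t3041 N)))) (K a22 (M a16 (F (T t2447 (L l16 (L l66 (T t3041 N)))))) (K a42 (M a80 (F (T t2975 (L l22 (L l151 (T t3045 N)))))) (K a62 (M a16 (F (T t1140 (L l66 (T t3041 N))))) (K a3 (M a16 (F (T t1574 (T t3041 N)))) N))))))))))))))) N))))))))))))))))))⟩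
def e0_63__79_75 : Ent 4 := ⟨[a0, a63], [a79, a128], (M a12 (F (T t122 (T t151 (T t152 (T t153 (K a4 (M a60 (F (T t43 (L l325 (T t398 (T t448 N)))))) (K a8 (M a60 (F (T t67 (L l325 (T t398 (L l52 (L l56 (T t448 N)))))))) (K a21 (M a166 (F (T t2540 (L l15 (L l156 (T t2470 (L l15 (L l84 (T t2541 N))))))))) (K a25 (M a48 (F (T t550 (L l15 (L l325 (T t1 (L l12 (L l56 (T t866 N))))))))) (K a29 (M a48 (F (T t550 (L l15 (L l325 (T t1 (T t866 N))))))) (K a38 (M a48 (F (T t1580 (L l26 (L l325 (T t2 (L l21 (L l50 (T t868 N))))))))) (K a42 (M a166 (F (T t2542 (L l56 (T t2543 (L l56 (L l84 (T t2541 N)))))))) (K a46 (M a48 (F (T t443 (L l325 (T t1 (L l26 (T t866 N))))))) (K a51 (M a16 (F (T t112 (L l39 (T t871 (T t872 N)))))) N)))))))))))))))⟩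
def e0_63__79_76 : Ent 4 := ⟨[a0, a63], [a79, a129], (M a149 (F (T t25 (L l152 (L l309 (T t175 (T t176 (L l84 (T t177 (K a192 (M a3 (F (T t85 (L l152 (L l292 (L l305 (T t615 (L l292 (L l296 (T t616 (L l292 (L l296 (T t1244 N))))))))))))) (K a21 (M a48 (F (T t16 (L l18 (T t1082 (L l18 (L l152 (T t14 N)))))))) (K a85 (M a16 (F (T t504 (L l144 (T t190 (L l94 (L l151 (T t278 N)))))))) (K a213 (Fr a106 a192 l519 (Fr a42 a21 l68 (Fr a170 a234 l390 (Fr a255 a85 l476 (V t582))))) (K a42 (M a48 (F (L l54 (T t16 (L l390 (T t1082 (L l54 (L l152 (T t14 N))))))))) (K a106 (M a48 (F (T t48 (L l152 (L l498 (T t14 (L l390 (L l498 (T t6 (L l390 (T t26 N))))))))))) (K a170 (M a48 (F (T t607 (L l309 (T t11 (L l151 (L l152 (L l390 (T t13 N))))))))) (K a191 (M a240 (F (T t962 (L l157 (T t963 N))))) (K a255 (M a16 (F (T t112 (L l266 (T t190 (L l289 (L l296 (T t191 N)))))))) N))))))))))))))))))⟩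
def e0_63__79_77 : Ent 4 := ⟨[a0, a63], [a79, a130], (M a12 (F (T t122 (T t151 (T t152 (T t153 (K a4 (M a60 (F (T t43 (L l325 (T t398 (T t448 N)))))) (K a8 (M a60 (F (T t67 (L l325 (T t398 (L l52 (L l56 (T t448 N)))))))) (K a21 (M a192 (F (T t468 (L l15 (L l347 (T t450 (L l15 (L l347 (T t157 N))))))))) (K a25 (M a192 (F (T t449 (L l15 (T t450 (L l137 (L l152 (T t21 N)))))))) (K a29 (M a192 (F (T t449 (L l137 (L l152 (L l371 (T t21 (T t160 N)))))))) (K a38 (M a192 (F (T t468 (T t450 (L l137 (L l152 (T t21 N))))))) (K a42 (M a192 (F (T t449 (T t450 (L l56 (T t157 N)))))) (K a46 (M a192 (F (T t449 (L l137 (L l152 (T t21 (L l26 (L l408 (T t160 N))))))))) (K a51 (M a192 (F (T t576 (L l79 (L l152 (L l513 (T t156 (L l137 (L l152 (L l439 (T t21 N))))))))))) N)))))))))))))))⟩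
def e0_63__79_78 : Ent 4 := ⟨[a0, a63], [a79, a131], (M a12 (F (T t122 (T t151 (T t152 (T t153 (K a4 (M a60 (F (T t570 (L l46 (L l50 (L l307 (T t67 (T t448 N)))))))) (K a8 (M a60 (F (T t570 (L l307 (T t67 (L l52 (L l56 (T t448 N)))))))) (K a21 (M a192 (F (T t468 (L l15 (L l347 (T t450 (L l15 (L l347 (T t157 N))))))))) (K a25 (M a192 (F (T t449 (L l15 (T t450 (L l137 (L l152 (T t21 N)))))))) (K a29 (M a192 (F (T t449 (L l137 (L l152 (L l371 (T t21 (T t160 N)))))))) (K a38 (M a192 (F (T t468 (T t450 (L l137 (L l152 (T t21 N))))))) (K a42 (M a192 (F (T t449 (T t450 (L l56 (T t157 N)))))) (K a46 (M a192 (F (T t449 (L l137 (L l152 (T t21 (L l26 (L l408 (T t160 N))))))))) (K a51 (M a192 (F (T t158 (L l79 (L l152 (L l513 (T t156 (L l137 (L l152 (L l439 (T t21 N))))))))))) N)))))))))))))))⟩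
def e0_63__79_79 : Ent 4 := ⟨[a0, a63], [a79, a133], (M a149 (F (T t25 (L l160 (L l339 (T t175 (T t176 (L l84 (T t177 (K a192 (M a15 (F (T t1254 (L l160 (L l268 (L l311 (T t1026 (L l137 (L l268 (L l296 (T t1031 (L l268 (L l296 (T t1255 N)))))))))))))) (K a21 (M a48 (F (T t1267 (L l18 (L l160 (L l311 (T t14 (L l18 (T t1082 N))))))))) (K a85 (M a16 (F (T t504 (L l144 (T t190 (L l94 (L l151 (T t278 N)))))))) (K a213 (Fr a106 a192 l519 (Fr a42 a21 l68 (Fr a170 a234 l390 (Fr a255 a85 l476 (V t582))))) (K a42 (M a48 (F (L l339 (T t11 (L l390 (T t1082 (L l54 (L l160 (L l311 (T t14 N)))))))))) (K a106 (M a48 (F (T t48 (L l160 (L l311 (L l498 (T t14 (L l390 (T t26 (L l311 (L l390 (L l498 (T t6 N))))))))))))) (K a170 (M a48 (F (T t607 (L l339 (T t11 (L l151 (L l160 (L l390 (T t13 N))))))))) (K a191 (M a252 (F (T t940 (L l157 (T t941 N))))) (K a255 (M a16 (F (T t504 (L l266 (T t190 (L l289 (L l296 (T t191 N))))))))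 N))))))))))))))))))⟩
def e0_63__79_80 : Ent 4 := ⟨[a0, a63], [a79, a134], (M a149 (F (T t25 (T t175 (T t176 (L l84 (T t177 (K a192 (M a53 (F (T t178 (L l236 (T t179 (L l84 (L l236 (L l296 (L l314 (T t180 N)))))))))) (K a21 (M a48 (F (T t4 (L l18 (T t1082 (L l18 (T t14 N))))))) (K a85 (M a16 (F (T t504 (L l144 (T t190 (L l94 (L l151 (T t278 N)))))))) (K a213 (Fr a106 a192 l519 (Fr a42 a21 l68 (Fr a170 a234 l390 (Fr a255 a85 l476 (V t582))))) (K a42 (M a48 (F (T t11 (L l390 (T t1082 (L l54 (T t14 N))))))) (K a106 (M a48 (F (T t48 (L l498 (T t14 (L l390 (L l498 (T t6 (L l390 (T t26 N)))))))))) (K a170 (M a48 (F (T t4 (L l462 (T t48 (L l151 (L l390 (T t13 N)))))))) (K a191 (M a240 (F (T t962 (L l153 (T t963 N))))) (K a255 (M a16 (F (T t112 (L l266 (T t190 (L l289 (L l296 (T t191 N)))))))) N))))))))))))))))⟩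
def e0_63__79_81 : Ent 4 := ⟨[a0, a63], [a79, a135], (M a149 (F (T t25 (T t175 (T t176 (L l84 (T t177 (K a192 (M a53 (F (T t178 (L l236 (T t179 (L l84 (L l236 (L l296 (T t180 N))))))))) (K a21 (M a48 (F (T t4 (L l18 (T t1082 (L l18 (T t14 N))))))) (K a85 (M a16 (F (T t504 (L l144 (T t190 (L l94 (L l151 (T t278 N)))))))) (K a213 (Fr a106 a192 l519 (Fr a42 a21 l68 (Fr a170 a234 l390 (Fr a255 a85 l476 (V t582))))) (K a42 (M a48 (F (T t11 (L l390 (T t1082 (L l54 (T t14 N))))))) (K a106 (M a48 (F (T t48 (L l498 (T t14 (L l390 (L l498 (T t6 (L l390 (T t26 N)))))))))) (K a170 (M a48 (F (T t4 (L l462 (T t48 (L l151 (L l390 (T t13 N)))))))) (K a191 (M a240 (F (T t962 (L l153 (T t963 N))))) (K a255 (M a16 (F (T t112 (L l266 (T t190 (L l289 (L l296 (T t191 N)))))))) N))))))))))))))))⟩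
def e0_63__79_82 : Ent 4 := ⟨[a0, a63], [a79, a138], (M a60 (F (T t67 (T t43 (L l330 (T t68 (T t69 (K a20 (M a48 (F (T t64 (L l11 (L l318 (L l325 (T t1 (L l11 (L l330 (T t235 N)))))))))) (K a40 (M a48 (F (T t64 (L l318 (L l325 (T t1 (L l52 (L l330 (T t235 N))))))))) (K a21 (M a192 (F (T t72 (L l347 (T t73 (L l137 (L l160 (L l347 (T t74 N))))))))) (K a41 (M a192 (F (T t73 (T t79 (L l65 (T t35 N)))))) (K a61 (M a192 (F (T t72 (L l65 (L l515 (T t35 (T t80 N))))))) (K a22 (M a192 (F (T t72 (L l137 (L l160 (T t21 (T t73 N))))))) (K a42 (M a192 (F (T t79 (T t73 (L l22 (L l137 (L l160 (T t74 N)))))))) (K a62 (M a192 (F (T t72 (T t35 (L l66 (L l516 (T t80 N))))))) (K a3 (M a192 (F (T t1343 (L l477 (T t79 (L l475 (T t35 N))))))) N))))))))))))))))⟩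
def e0_63__79_83 : Ent 4 := ⟨[a0, a63], [a79, a139], (M a149 (F (T t25 (T t175 (T t176 (L l84 (T t177 (K a192 (M a53 (F (T t178 (L l236 (T t179 (L l84 (L l236 (L l296 (T t180 N))))))))) (K a21 (M a48 (F (T t4 (L l18 (T t1082 (L l18 (T t14 N))))))) (K a85 (M a16 (F (T t504 (L l144 (T t190 (L l94 (L l151 (T t278 N)))))))) (K a213 (Fr a106 a192 l519 (Fr a42 a21 l68 (Fr a170 a234 l390 (Fr a255 a85 l476 (V t582))))) (K a42 (M a48 (F (T t11 (L l390 (T t1082 (L l54 (T t14 N))))))) (K a106 (M a48 (F (T t48 (L l498 (T t14 (L l390 (L l498 (T t6 (L l390 (T t26 N)))))))))) (K a170 (M a48 (F (T t4 (L l462 (T t48 (L l151 (L l390 (T t13 N)))))))) (K a191 (M a240 (F (T t962 (T t963 N)))) (K a255 (M a16 (F (T t112 (L l266 (T t190 (L l289 (L l296 (T t191 N)))))))) N))))))))))))))))⟩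
def e0_63__79_84 : Ent 4 := ⟨[a0, a63], [a79, a143], (M a15 (F (T t716 (T t731 (T t723 (T t732 (K a48 (M a4 (F (T t129 (L l45 (T t2570 (T t2571 N)))))) (K a5 (M a12 (F (T t151 (T t2544 (L l5 (T t722 N)))))) (K a21 (M a165 (F (T t3046 (T t3047 (L l18 (L l84 (T t3048 N))))))) (K a37 (M a4 (F (T t3049 (L l28 (T t519 (L l21 (L l28 (T t2571 N)))))))) (K a10 (M a12 (F (T t2544 (T t122 (L l54 (T t722 N)))))) (K a26 (M a8 (F (T t2581 (L l18 (T t414 (L l12 (L l18 (T t2582 N)))))))) (K a42 (M a165 (F (T t3050 (L l28 (T t3046 (L l54 (L l84 (T t3048 N)))))))) (K a31 (M a4 (F (T t2570 (T t519 (L l17 (T t2571 N)))))) (K a47 (M a4 (F (T t2570 (L l28 (T t519 (L l28 (T t2571 N))))))) N)))))))))))))))⟩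
def e0_63__79_85 : Ent 4 := ⟨[a0, a63], [a79, a144], (M a149 (F (T t25 (L l192 (L l484 (T t175 (T t176 (L l84 (T t177 (K a192 (M a48 (F (T t132 (L l192 (L l236 (L l340 (T t14 (L l236 (L l296 (T t6 (L l236 (L l296 (L l325 (T t2007 N)))))))))))))) (K a21 (M a12 (F (T t647 (L l79 (L l192 (T t648 (L l50 (L l192 (T t649 N))))))))) (K a85 (M a4 (F (T t519 (L l144 (T t653 (L l126 (T t654 N))))))) (K a213 (Fr a106 a192 l519 (Fr a42 a21 l68 (Fr a170 a234 l390 (Fr a255 a85 l476 (V t582))))) (K a42 (M a12 (F (L l26 (T t647 (L l79 (L l192 (L l390 (T t648 (L l26 (L l192 (T t649 N))))))))))) (K a106 (M a12 (F (T t122 (L l192 (L l408 (T t649 (L l390 (L l408 (T t960 (L l390 (T t961 N))))))))))) (K a170 (M a12 (F (T t650 (L l402 (T t122 (L l79 (L l192 (L l390 (T t648 N))))))))) (K a191 (M a204 (F (T t1043 (L l162 (T t1112 N))))) (K a255 (M a4 (F (T t129 (L l290 (T t653 (L l265 (L l296 (T t1070 N)))))))) N))))))))))))))))))⟩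
def e0_63__79_86 : Ent 4 := ⟨[a0, a63], [a79, a145], (M a149 (F (T t25 (L l196 (L l489 (T t175 (T t176 (L l84 (T t177 (K a192 (M a51 (F (T t1355 (L l196 (L l232 (L l341 (T t2011 (L l232 (L l296 (T t2012 (L l232 (L l296 (T t2013 N))))))))))))) (K a21 (M a48 (F (T t16 (L l18 (L l162 (T t1082 (L l18 (L l196 (T t14 N))))))))) (K a85 (M a16 (F (T t504 (L l144 (L l345 (T t190 (L l94 (L l151 (L l162 (T t278 N)))))))))) (K a213 (Fr a106 a192 l519 (Fr a42 a21 l68 (Fr a170 a234 l390 (Fr a255 a85 l476 (V t582))))) (K a42 (M a48 (F (L l54 (T t16 (L l162 (L l390 (T t1082 (L l54 (L l196 (T t14 N)))))))))) (K a106 (M a48 (F (T t48 (L l196 (L l498 (T t14 (L l390 (L l498 (T t6 (L l162 (L l390 (T t26 N)))))))))))) (K a170 (M a48 (F (T t607 (L l162 (L l489 (T t11 (L l151 (L l162 (L l196 (L l390 (T t13 N))))))))))) (K a191 (M a252 (F (T t940 (L l193 (T t941 N))))) (K a255 (M a16 (F (T t112 (L l266 (L l345 (T t190 (L l289 (L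 l296 (T t191 N))))))))) N))))))))))))))))))⟩
def e0_63__79_87 : Ent 4 := ⟨[a0, a63], [a79, a146], (M a149 (F (T t25 (T t175 (T t176 (L l84 (T t177 (K a192 (M a53 (F (T t178 (L l236 (L l344 (T t179 (L l84 (L l236 (L l296 (T t180 N)))))))))) (K a21 (M a48 (F (T t4 (L l18 (L l162 (L l344 (T t1082 (L l18 (L l344 (T t14 N)))))))))) (K a85 (M a16 (F (T t504 (L l144 (T t190 (L l94 (L l151 (L l162 (T t278 N))))))))) (K a213 (Fr a106 a192 l519 (Fr a42 a21 l68 (Fr a170 a234 l390 (Fr a255 a85 l476 (V t582))))) (K a42 (M a48 (F (L l54 (T t4 (L l162 (L l344 (L l390 (T t1082 (L l54 (L l344 (T t14 N))))))))))) (K a106 (M a48 (F (L l325 (T t1 (L l344 (L l498 (T t14 (L l390 (L l498 (T t6 (L l162 (L l390 (T t26 N))))))))))))) (K a170 (M a48 (F (T t4 (L l344 (L l462 (T t48 (L l151 (L l162 (L l390 (T t13 N)))))))))) (K a191 (M a204 (F (T t1043 (L l162 (T t1112 N))))) (K a255 (M a16 (F (T t112 (L l266 (T t190 (L l289 (L l296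 (T t191 N)))))))) N))))))))))))))))⟩
def e0_63__79_88 : Ent 4 := ⟨[a0, a63], [a79, a147], (M a149 (F (T t25 (T t175 (T t176 (L l84 (T t177 (K a192 (M a53 (F (T t178 (L l236 (T t179 (L l84 (L l236 (L l296 (T t180 N))))))))) (K a21 (M a48 (F (T t4 (L l18 (L l162 (T t1082 (L l18 (T t14 N)))))))) (K a85 (M a16 (F (T t504 (L l144 (T t190 (L l94 (L l151 (L l162 (T t278 N))))))))) (K a213 (Fr a106 a192 l519 (Fr a42 a21 l68 (Fr a170 a234 l390 (Fr a255 a85 l476 (V t582))))) (K a42 (M a48 (F (L l54 (T t4 (L l162 (L l390 (T t1082 (L l54 (T t14 N))))))))) (K a106 (M a48 (F (T t48 (L l498 (T t14 (L l390 (L l498 (T t6 (L l162 (L l390 (T t26 N))))))))))) (K a170 (M a48 (F (T t4 (L l462 (T t48 (L l151 (L l162 (L l390 (T t13 N))))))))) (K a191 (M a240 (F (T t962 (T t963 N)))) (K a255 (M a16 (F (T t112 (L l266 (T t190 (L l169 (L l289 (L l296 (T t191 N))))))))) N))))))))))))))))⟩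
def e0_63__79_89 : Ent 4 := ⟨[a0, a63], [a79, a149], (M a12 (F (T t151 (L l347 (L l371 (T t122 (L l347 (T t152 (L l495 (T t153 (K a4 (M a60 (F (T t69 (L l325 (L l371 (L l515 (T t398 (L l351 (T t448 N))))))))) (K a8 (M a60 (F (T t570 (L l347 (T t67 (L l52 (L l56 (L l351 (T t448 N))))))))) (K a21 (M a85 (F (T t1368 (L l137 (L l220 (T t124 (L l15 (L l137 (L l202 (L l220 (L l371 (T t2301 (L l15 (L l371 (T t2302 N))))))))))))))) (K a25 (M a48 (F (T t550 (L l15 (L l325 (L l347 (L l491 (T t1 (L l12 (L l56 (T t866 N))))))))))) (K a29 (M a60 (L l371 (F (T t409 (L l15 (L l347 (T t67 (L l15 (L l347 (T t399 (K a209 (M a89 (F (T t2842 (L l202 (T t3051 N))))) (K a89 (M a209 (F (T t2842 (T t69 (L l15 (L l59 (L l347 (L l515 (T t3052 N))))))))) N)))))))))))) (K a38 (M a48 (F (T t1580 (L l26 (L l325 (T t2 (L l21 (L l50 (L l347 (L l491 (T t868 N))))))))))) (K a42 (M a255 (F (L l137 (T t2124 (L l347 (T t2031 (L l56 (L l220 (L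 l371 (L l390 (T t2032 N))))))))))) (K a46 (M a48 (F (T t443 (L l325 (L l347 (L l491 (T t1 (L l26 (T t866 N))))))))) (K a51 (M a16 (F (T t112 (L l39 (T t871 (T t872 N)))))) N)))))))))))))))))))⟩
def e0_63__79_90 : Ent 4 := ⟨[a0, a63], [a79, a150], (M a12 (F (T t122 (T t151 (T t152 (T t153 (K a4 (M a60 (F (T t43 (L l325 (T t398 (T t448 N)))))) (K a8 (M a60 (F (T t68 (L l325 (T t398 (L l52 (L l56 (T t448 N)))))))) (K a21 (M a192 (F (T t468 (L l15 (L l163 (L l347 (T t450 (L l15 (L l163 (L l347 (T t157 N))))))))))) (K a25 (M a192 (F (T t449 (L l15 (L l163 (T t450 (L l137 (L l163 (T t21 N))))))))) (K a29 (M a192 (F (T t449 (L l137 (L l163 (L l371 (T t21 (L l516 (T t160 N))))))))) (K a38 (M a192 (F (T t468 (L l163 (T t450 (L l137 (L l163 (T t21 N)))))))) (K a42 (M a192 (F (T t449 (L l163 (T t450 (L l56 (L l163 (T t157 N)))))))) (K a46 (M a192 (F (T t449 (L l137 (L l163 (T t21 (L l26 (L l408 (L l516 (T t160 N))))))))))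 (K a51 (M a192 (F (T t496 (L l163 (L l415 (T t450 (L l137 (L l163 (L l439 (T t21 N)))))))))) N)))))))))))))))⟩
def e0_63__79_91 : Ent 4 := ⟨[a0, a63], [a79, a151], (M a12 (F (T t122 (T t151 (T t152 (L l493 (T t153 (K a4 (M a60 (F (T t69 (L l325 (T t398 (L l349 (T t448 N))))))) (K a8 (M a60 (F (T t68 (L l325 (T t398 (L l52 (L l56 (L l349 (T t448 N))))))))) (K a21 (M a192 (F (T t468 (L l15 (L l163 (L l347 (T t450 (L l15 (L l163 (L l347 (T t157 N))))))))))) (K a25 (M a192 (F (T t449 (L l15 (L l163 (T t450 (L l137 (L l163 (T t21 N))))))))) (K a29 (M a192 (F (T t449 (L l137 (L l163 (L l371 (T t21 (L l201 (T t160 N))))))))) (K a38 (M a192 (F (T t468 (L l163 (T t450 (L l137 (L l163 (T t21 N)))))))) (K a42 (M a192 (F (T t449 (L l163 (T t450 (L l56 (L l163 (T t157 N)))))))) (K a46 (M a192 (F (T t449 (L l137 (L l163 (T t21 (L l26 (L l201 (L l408 (T t160 N)))))))))) (K a51 (M a192 (F (T t155 (L l79 (L l513 (T t156 (L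 l137 (L l163 (L l439 (T t21 N)))))))))) N))))))))))))))))⟩
def e0_63__79_92 : Ent 4 := ⟨[a0, a63], [a79, a154], (M a12 (F (T t122 (T t151 (T t152 (T t153 (K a4 (M a60 (F (T t43 (L l325 (T t398 (T t448 N)))))) (K a8 (M a60 (F (T t67 (L l325 (T t398 (L l52 (L l56 (T t448 N)))))))) (K a21 (M a192 (F (T t468 (L l15 (L l170 (L l347 (T t450 (L l15 (L l170 (L l347 (T t157 N))))))))))) (K a25 (M a192 (F (T t449 (L l15 (L l170 (T t450 (L l137 (L l170 (T t21 N))))))))) (K a29 (M a192 (F (T t449 (L l137 (L l170 (L l371 (T t21 (L l498 (T t160 N))))))))) (K a38 (M a192 (F (T t468 (L l170 (T t450 (L l137 (L l170 (T t21 N)))))))) (K a42 (M a192 (F (T t449 (L l170 (T t450 (L l56 (L l170 (T t157 N)))))))) (K a46 (M a192 (F (T t449 (L l137 (L l170 (T t21 (L l26 (L l408 (L l498 (T t160 N)))))))))) (K a51 (M a192 (F (T t496 (L l170 (L l415 (T t450 (L l137 (L l170 (L l439 (T t21 N)))))))))) N)))))))))))))))⟩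
def e0_63__79_93 : Ent 4 := ⟨[a0, a63], [a79, a155], (M a149 (F (T t25 (T t175 (T t176 (L l84 (T t177 (K a192 (M a53 (F (T t178 (L l236 (T t179 (L l84 (L l236 (L l296 (T t180 N))))))))) (K a21 (M a48 (F (T t4 (L l18 (T t1082 (L l18 (T t14 N))))))) (K a85 (M a16 (F (T t504 (L l144 (T t190 (L l94 (L l151 (T t278 N)))))))) (K a213 (Fr a106 a192 l519 (Fr a42 a21 l68 (Fr a170 a234 l390 (Fr a255 a85 l476 (V t582))))) (K a42 (M a48 (F (T t11 (L l390 (T t1082 (L l54 (T t14 N))))))) (K a106 (M a48 (F (T t48 (L l498 (T t14 (L l390 (L l498 (T t6 (L l367 (L l390 (T t26 N))))))))))) (K a170 (M a48 (F (T t4 (L l462 (T t48 (L l151 (L l390 (T t13 N)))))))) (K a191 (M a240 (F (T t962 (T t963 N)))) (K a255 (M a16 (F (T t112 (L l266 (T t190 (L l169 (L l289 (L l296 (L l367 (T t191 N)))))))))) N))))))))))))))))⟩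
def e0_63__79_94 : Ent 4 := ⟨[a0, a63], [a79, a159], (M a12 (F (T t122 (T t151 (T t152 (T t153 (K a4 (M a60 (F (T t43 (L l325 (T t398 (T t448 N)))))) (K a8 (M a60 (F (T t67 (L l325 (T t398 (L l52 (L l56 (T t448 N)))))))) (K a21 (M a192 (F (T t468 (L l15 (L l170 (L l347 (T t450 (L l15 (L l170 (L l347 (T t157 N))))))))))) (K a25 (M a192 (F (T t449 (L l15 (L l170 (T t450 (L l137 (L l170 (T t21 N))))))))) (K a29 (M a192 (F (T t449 (L l137 (L l170 (L l371 (T t21 (T t160 N)))))))) (K a38 (M a192 (F (T t543 (L l79 (T t156 (L l137 (L l170 (T t21 N)))))))) (K a42 (M a192 (F (T t449 (L l170 (T t450 (L l56 (L l170 (T t157 N)))))))) (K a46 (M a192 (F (T t449 (L l137 (L l170 (T t21 (L l26 (L l408 (T t160 N))))))))) (K a51 (M a192 (F (T t158 (L l79 (L l513 (T t156 (L l137 (L l170 (L l439 (T t21 N)))))))))) N)))))))))))))))⟩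
def e0_63__79_95 : Ent 4 := ⟨[a0, a63], [a79, a160], (M a12 (F (T t122 (T t151 (T t152 (T t153 (K a4 (M a60 (F (T t43 (L l325 (T t398 (T t448 N)))))) (K a8 (M a60 (F (T t67 (L l325 (T t398 (L l52 (L l56 (T t448 N)))))))) (K a21 (M a192 (F (T t468 (L l15 (L l347 (T t450 (L l15 (L l347 (T t157 N))))))))) (K a25 (M a192 (F (T t449 (L l15 (T t450 (L l137 (L l192 (T t21 N)))))))) (K a29 (M a192 (F (T t449 (L l137 (L l192 (L l371 (T t21 (T t160 N)))))))) (K a38 (M a192 (F (T t468 (T t450 (L l137 (L l192 (T t21 N))))))) (K a42 (M a192 (F (T t449 (T t450 (L l56 (T t157 N)))))) (K a46 (M a192 (F (T t449 (L l137 (L l192 (T t21 (L l26 (L l408 (T t160 N))))))))) (K a51 (M a192 (F (T t576 (L l79 (L l192 (L l513 (T t156 (L l137 (L l192 (L l439 (T t21 N))))))))))) N)))))))))))))))⟩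
def e0_63__79_96 : Ent 4 := ⟨[a0, a63], [a79, a161], (M a149 (F (T t25 (T t175 (T t176 (L l84 (T t177 (K a192 (M a53 (F (T t178 (L l236 (T t179 (L l84 (L l236 (L l296 (T t180 N))))))))) (K a21 (M a48 (F (T t4 (L l18 (L l381 (L l453 (T t1082 (L l18 (T t14 N))))))))) (K a85 (M a16 (F (T t504 (L l144 (L l453 (T t190 (L l94 (L l151 (L l172 (T t278 N)))))))))) (K a213 (Fr a106 a192 l519 (Fr a42 a21 l68 (Fr a170 a234 l390 (Fr a255 a85 l476 (V t582))))) (K a42 (M a48 (F (T t11 (L l381 (L l390 (L l453 (T t1082 (L l54 (T t14 N))))))))) (K a106 (M a48 (F (T t48 (L l498 (T t14 (L l390 (L l498 (T t6 (L l390 (T t26 N)))))))))) (K a170 (M a48 (F (T t4 (L l462 (T t48 (L l151 (L l390 (L l453 (T t13 N))))))))) (K a191 (M a204 (F (T t1043 (L l193 (T t1112 N))))) (K a255 (M a16 (F (T t112 (L l266 (L l453 (T t190 (L l289 (L l296 (T t191 N))))))))) N))))))))))))))))⟩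
def e0_63__79_97 : Ent 4 := ⟨[a0, a63], [a79, a162], (M a12 (F (T t151 (L l378 (T t122 (T t152 (T t153 (K a4 (M a60 (F (T t43 (L l325 (T t398 (T t448 N)))))) (K a8 (M a60 (F (T t67 (L l325 (T t398 (L l52 (L l56 (T t448 N)))))))) (K a21 (M a192 (F (T t468 (L l15 (L l347 (L l378 (T t450 (L l15 (L l347 (L l378 (T t157 N))))))))))) (K a25 (M a192 (F (T t449 (L l15 (L l378 (T t450 (L l137 (L l196 (T t21 N))))))))) (K a29 (M a192 (F (T t449 (L l137 (L l196 (L l371 (T t21 (T t160 N)))))))) (K a38 (M a192 (F (T t468 (L l378 (T t450 (L l137 (L l196 (T t21 N)))))))) (K a42 (M a192 (F (T t449 (L l378 (T t450 (L l56 (L l378 (T t157 N)))))))) (K a46 (M a192 (F (T t449 (L l137 (L l196 (T t21 (L l26 (L l408 (T t160 N))))))))) (K a51 (M a192 (F (T t158 (L l79 (L l196 (L l513 (T t156 (L l137 (L l196 (L l439 (T t21 N))))))))))) N))))))))))))))))⟩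
def e0_63__79_98 : Ent 4 := ⟨[a0, a63], [a79, a163], (M a149 (F (T t25 (T t175 (T t176 (L l84 (T t177 (K a192 (M a53 (F (T t178 (L l236 (T t179 (L l84 (L l236 (L l296 (T t180 N))))))))) (K a21 (M a48 (F (T t4 (L l18 (T t1082 (L l18 (T t14 N))))))) (K a85 (M a16 (F (T t504 (L l144 (T t190 (L l94 (L l151 (L l172 (T t278 N))))))))) (K a213 (Fr a106 a192 l519 (Fr a42 a21 l68 (Fr a170 a234 l390 (Fr a255 a85 l476 (V t582))))) (K a42 (M a48 (F (T t11 (L l390 (T t1082 (L l54 (T t14 N))))))) (K a106 (M a48 (F (T t48 (L l498 (T t14 (L l390 (L l498 (T t6 (L l390 (T t26 N)))))))))) (K a170 (M a48 (F (T t4 (L l462 (T t48 (L l151 (L l390 (T t13 N)))))))) (K a191 (M a240 (F (T t962 (T t963 N)))) (K a255 (M a16 (F (T t112 (L l266 (T t190 (L l289 (L l296 (T t191 N)))))))) N))))))))))))))))⟩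
def e0_63__79_99 : Ent 4 := ⟨[a0, a63], [a79, a165], (M a12 (F (T t122 (T t151 (T t152 (T t153 (K a4 (M a60 (F (T t43 (L l325 (L l483 (T t398 (T t448 N))))))) (K a8 (M a60 (F (T t67 (L l325 (L l483 (T t398 (L l52 (L l56 (T t448 N))))))))) (K a21 (M a192 (F (T t468 (L l15 (L l199 (L l347 (T t450 (L l15 (L l199 (L l347 (T t157 N))))))))))) (K a25 (M a192 (F (T t449 (L l15 (L l199 (T t450 (L l137 (L l199 (T t21 N))))))))) (K a29 (M a192 (F (T t449 (L l137 (L l199 (L l371 (T t21 (L l411 (T t160 N))))))))) (K a38 (M a192 (F (T t468 (L l199 (T t450 (L l137 (L l199 (T t21 N)))))))) (K a42 (M a192 (F (T t449 (L l199 (T t450 (L l56 (L l199 (T t157 N)))))))) (K a46 (M a192 (F (T t449 (L l137 (L l199 (T t21 (L l26 (L l408 (L l411 (T t160 N)))))))))) (K a51 (M a192 (F (T t496 (L l199 (L l415 (T t450 (L l137 (L l199 (L l439 (T t21 N)))))))))) N)))))))))))))))⟩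
def e0_63__79_100 : Ent 4 := ⟨[a0, a63], [a79, a166], (M a60 (F (T t67 (T t43 (T t68 (T t69 (K a20 (M a48 (F (T t64 (L l11 (L l325 (T t1 (L l11 (T t235 N)))))))) (K a40 (M a48 (F (T t64 (L l325 (T t1 (L l52 (T t235 N))))))) (K a21 (M a192 (F (T t72 (L l202 (L l347 (T t73 (L l137 (L l202 (L l347 (T t74 N)))))))))) (K a41 (M a192 (F (T t79 (L l65 (L l202 (T t35 (L l202 (T t73 N)))))))) (K a61 (M a192 (F (T t72 (L l65 (L l202 (L l515 (T t35 (L l408 (T t80 N))))))))) (K a22 (M a192 (F (T t72 (L l137 (L l202 (T t21 (L l202 (T t73 N)))))))) (K a42 (M a192 (F (T t79 (L l202 (T t73 (L l22 (L l137 (L l202 (T t74 N))))))))) (K a62 (M a192 (F (T t72 (L l202 (T t35 (L l66 (L l408 (L l516 (T t80 N))))))))) (K a3 (M a192 (F (T t1334 (L l202 (L l475 (T t35 (L l202 (L l307 (T t73 N))))))))) N)))))))))))))))⟩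
def e0_63__79_101 : Ent 4 := ⟨[a0, a63], [a79, a167], (M a149 (F (T t25 (T t175 (T t176 (L l84 (T t177 (K a192 (M a53 (F (T t178 (L l236 (T t179 (L l84 (L l236 (L l296 (T t180 N))))))))) (K a21 (M a48 (F (T t4 (L l18 (T t1082 (L l18 (T t14 N))))))) (K a85 (M a16 (F (T t504 (L l144 (T t190 (L l94 (L l151 (T t278 N)))))))) (K a213 (Fr a106 a192 l519 (Fr a42 a21 l68 (Fr a170 a234 l390 (Fr a255 a85 l476 (V t582))))) (K a42 (M a48 (F (T t11 (L l390 (T t1082 (L l54 (T t14 N))))))) (K a106 (M a48 (F (T t48 (L l498 (T t14 (L l390 (L l498 (T t6 (L l390 (T t26 N)))))))))) (K a170 (M a48 (F (T t4 (L l462 (T t48 (L l151 (L l390 (T t13 N)))))))) (K a191 (M a16 (F (T t112 (T t190 (L l213 (T t191 N)))))) (K a255 (M a16 (F (T t112 (L l266 (T t190 (L l289 (L l296 (T t191 N)))))))) N))))))))))))))))⟩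
def e0_63__79_102 : Ent 4 := ⟨[a0, a63], [a79, a170], (M a12 (F (T t152 (L l402 (T t122 (L l390 (T t151 (L l390 (L l464 (T t153 (K a4 (M a60 (F (T t570 (L l46 (L l50 (T t67 (L l390 (L l392 (T t448 N))))))))) (K a8 (M a60 (L l464 (F (T t67 (L l325 (T t398 (L l52 (L l56 (L l390 (L l392 (T t448 (K a89 (M a251 (F (T t67 (L l325 (L l479 (T t680 (L l52 (L l56 (L l390 (L l392 (T t448 N))))))))))) (K a251 (M a89 (F (T t67 (L l316 (T t870 N))))) N))))))))))))) (K a21 (M a192 (F (L l50 (T t449 (L l390 (T t221 (L l15 (L l220 (L l347 (L l464 (T t157 N))))))))))) (K a25 (M a192 (F (T t449 (L l390 (T t221 (L l15 (L l56 (L l220 (L l464 (T t157 N)))))))))) (K a29 (M a48 (F (T t550 (L l15 (L l325 (L l462 (T t1 (L l390 (T t866 N))))))))) (K a38 (M a192 (F (L l50 (T t449 (L l26 (L l390 (T t221 (L l220 (L l464 (T t157 N)))))))))) (K a42 (M a106 (F (T t2304 (L l84 (L l220 (T t2305 (L l56 (L l84 (L l178 (L l220 (L l464 (T t2306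 (L l56 (L l178 (L l464 (T t2307 N)))))))))))))))) (K a46 (M a48 (F (T t550 (L l325 (L l462 (T t1 (L l26 (L l390 (T t866 N))))))))) (K a51 (M a192 (F (L l513 (T t449 (L l390 (L l415 (T t221 (L l220 (L l464 (T t157 N)))))))))) N)))))))))))))))))))⟩
def e0_63__79_103 : Ent 4 := ⟨[a0, a63], [a79, a171], (M a12 (F (T t122 (T t151 (T t152 (T t153 (K a4 (M a60 (F (T t570 (L l46 (L l50 (L l391 (L l475 (T t67 (T t448 N))))))))) (K a8 (M a60 (F (T t2568 (L l325 (T t398 (L l52 (L l56 (T t448 N)))))))) (K a21 (M a192 (F (T t468 (L l15 (L l347 (T t450 (L l15 (L l347 (T t157 N))))))))) (K a25 (M a192 (F (T t449 (L l15 (T t450 (L l137 (L l475 (T t21 N)))))))) (K a29 (M a192 (F (T t449 (L l137 (L l371 (L l475 (T t21 (T t160 N)))))))) (K a38 (M a192 (F (T t468 (T t450 (L l137 (L l475 (T t21 N))))))) (K a42 (M a192 (F (T t449 (T t450 (L l56 (T t157 N)))))) (K a46 (M a192 (F (T t449 (L l137 (L l475 (T t21 (L l26 (L l408 (T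 t160 N))))))))) (K a51 (M a192 (F (T t57 (L l79 (L l513 (T t156 (L l415 (T t450 N)))))))) N)))))))))))))))⟩
def e0_63__79_104 : Ent 4 := ⟨[a0, a63], [a79, a175], (M a12 (F (T t122 (T t151 (T t152 (T t153 (K a4 (M a60 (F (T t43 (L l325 (L l469 (T t398 (T t448 N))))))) (K a8 (M a60 (F (T t67 (L l325 (L l469 (T t398 (L l52 (L l56 (T t448 N))))))))) (K a21 (M a192 (F (T t468 (L l15 (L l347 (T t450 (L l15 (L l347 (T t157 N))))))))) (K a25 (M a192 (F (T t449 (L l15 (T t450 (L l137 (L l469 (T t21 N)))))))) (K a29 (M a192 (F (T t449 (L l137 (L l371 (L l469 (T t21 (T t160 N)))))))) (K a38 (M a192 (F (T t468 (T t450 (L l137 (L l469 (T t21 N))))))) (K a42 (M a192 (F (T t449 (T t450 (L l56 (T t157 N)))))) (K a46 (M a192 (F (T t449 (L l137 (L l469 (T t21 (L l26 (L l408 (T t160 N))))))))) (K a51 (M a192 (F (T t57 (L l79 (L l513 (T t156 (L l415 (T t450 N)))))))) N)))))))))))))))⟩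
def e0_63__79_105 : Ent 4 := ⟨[a0, a63], [a79, a176], (M a12 (F (T t122 (T t151 (T t152 (T t153 (K a4 (M a60 (F (T t43 (L l325 (T t398 (T t448 N)))))) (K a8 (M a60 (F (T t67 (L l325 (T t398 (L l52 (L l56 (T t448 N)))))))) (K a21 (M a192 (F (T t468 (L l15 (L l347 (T t450 (L l15 (L l347 (T t157 N))))))))) (K a25 (M a192 (F (T t449 (L l15 (T t450 (L l137 (L l192 (T t21 N)))))))) (K a29 (M a192 (F (T t449 (L l137 (L l192 (L l371 (T t21 (T t160 N)))))))) (K a38 (M a192 (F (T t468 (T t450 (L l137 (L l192 (T t21 N))))))) (K a42 (M a192 (F (T t449 (T t450 (L l56 (T t157 N)))))) (K a46 (M a192 (F (T t449 (L l137 (L l192 (T t21 (L l26 (L l408 (T t160 N))))))))) (K a51 (M a192 (F (T t158 (L l79 (L l192 (L l513 (T t156 (L l137 (L l192 (L l439 (T t21 N))))))))))) N)))))))))))))))⟩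
def e0_63__79_106 : Ent 4 := ⟨[a0, a63], [a79, a177], (M a149 (F (T t25 (T t175 (T t176 (L l84 (T t177 (K a192 (M a53 (F (T t178 (L l236 (T t179 (L l84 (L l187 (L l236 (L l296 (T t180 N)))))))))) (K a21 (M a48 (F (T t4 (L l18 (L l417 (T t1082 (L l18 (T t14 N)))))))) (K a85 (M a16 (F (T t504 (L l144 (L l417 (T t190 (L l94 (L l151 (T t278 N))))))))) (K a213 (Fr a106 a192 l519 (Fr a42 a21 l68 (Fr a170 a234 l390 (Fr a255 a85 l476 (V t582))))) (K a42 (M a48 (F (T t11 (L l390 (L l417 (T t1082 (L l54 (T t14 N)))))))) (K a106 (M a48 (F (T t48 (L l498 (T t14 (L l390 (L l498 (T t6 (L l390 (T t26 N)))))))))) (K a170 (M a48 (F (T t4 (L l462 (T t48 (L l151 (L l390 (L l417 (T t13 N))))))))) (K a191 (M a240 (F (T t962 (T t963 N)))) (K a255 (M a16 (F (T t112 (L l266 (L l417 (T t190 (L l289 (L l296 (T t191 N))))))))) N))))))))))))))))⟩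
def e0_63__79_107 : Ent 4 := ⟨[a0, a63], [a79, a178], (M a149 (F (T t25 (T t175 (T t176 (L l84 (T t177 (K a192 (M a53 (F (T t178 (L l236 (T t179 (L l84 (L l236 (L l296 (T t180 N))))))))) (K a21 (M a48 (F (T t4 (L l18 (T t1082 (L l18 (T t14 N))))))) (K a85 (M a16 (F (T t504 (L l144 (T t190 (L l94 (L l151 (T t278 N)))))))) (K a213 (Fr a106 a192 l519 (Fr a42 a21 l68 (Fr a170 a234 l390 (Fr a255 a85 l476 (V t582))))) (K a42 (M a48 (F (T t11 (L l390 (T t1082 (L l54 (T t14 N))))))) (K a106 (M a48 (F (T t48 (L l498 (T t14 (L l390 (L l498 (T t6 (L l390 (T t26 N)))))))))) (K a170 (M a48 (F (T t4 (L l462 (T t48 (L l151 (L l390 (T t13 N)))))))) (K a191 (M a16 (F (T t112 (T t190 (L l213 (T t191 N)))))) (K a255 (M a16 (F (T t112 (L l266 (T t190 (L l289 (L l296 (T t191 N)))))))) N))))))))))))))))⟩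
def e0_63__79_108 : Ent 4 := ⟨[a0, a63], [a79, a179], (M a60 (F (T t67 (T t43 (T t68 (T t69 (K a20 (M a48 (F (T t138 (L l11 (L l325 (T t1 (L l11 (T t235 N)))))))) (K a40 (M a48 (F (T t48 (L l415 (T t64 (L l52 (T t235 N))))))) (K a21 (M a192 (F (T t72 (L l347 (T t73 (L l137 (L l196 (L l347 (T t74 N))))))))) (K a41 (M a192 (F (T t79 (L l65 (T t35 (T t73 N)))))) (K a61 (M a192 (F (T t72 (L l65 (L l515 (T t35 (T t80 N))))))) (K a22 (M a192 (F (T t72 (L l137 (L l196 (T t21 (T t73 N))))))) (K a42 (M a192 (F (T t79 (T t73 (L l22 (L l137 (L l196 (T t74 N)))))))) (K a62 (M a192 (F (T t72 (T t35 (L l66 (L l516 (T t80 N))))))) (K a3 (M a192 (F (T t237 (L l477 (T t79 (L l475 (T t35 N))))))) N)))))))))))))))⟩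
def e0_63__79_109 : Ent 4 := ⟨[a0, a63], [a79, a181], (M a12 (F (T t122 (T t151 (T t152 (L l423 (T t153 (K a4 (M a60 (F (T t43 (L l325 (L l443 (T t398 (T t448 N))))))) (K a8 (M a60 (F (T t67 (L l325 (L l443 (T t398 (L l52 (L l56 (T t448 N))))))))) (K a21 (M a192 (F (T t468 (L l15 (L l199 (L l347 (T t450 (L l15 (L l199 (L l347 (T t157 N))))))))))) (K a25 (M a192 (F (T t449 (L l15 (L l199 (T t450 (L l137 (L l199 (T t21 N))))))))) (K a29 (M a192 (F (T t449 (L l137 (L l199 (L l371 (T t21 (L l183 (T t160 N))))))))) (K a38 (M a192 (F (T t468 (L l199 (T t450 (L l137 (L l199 (T t21 N)))))))) (K a42 (M a192 (F (T t449 (L l199 (T t450 (L l56 (L l199 (T t157 N)))))))) (K a46 (M a192 (F (T t449 (L l137 (L l199 (T t21 (L l26 (L l183 (L l408 (T t160 N)))))))))) (K a51 (M a192 (F (T t155 (L l79 (L l513 (T t156 (L l137 (L l199 (L l439 (T t21 N)))))))))) N))))))))))))))))⟩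
def e0_63__79_110 : Ent 4 := ⟨[a0, a63], [a79, a182], (M a149 (F (T t25 (T t175 (T t176 (L l84 (T t177 (K a192 (M a53 (F (T t178 (L l236 (T t179 (L l84 (L l183 (L l236 (L l296 (T t180 N)))))))))) (K a21 (M a48 (F (T t4 (L l18 (T t1082 (L l18 (T t14 N))))))) (K a85 (M a16 (F (T t504 (L l144 (T t190 (L l94 (L l151 (T t278 N)))))))) (K a213 (Fr a106 a192 l519 (Fr a42 a21 l68 (Fr a170 a234 l390 (Fr a255 a85 l476 (V t582))))) (K a42 (M a48 (F (T t11 (L l390 (T t1082 (L l54 (T t14 N))))))) (K a106 (M a48 (F (T t48 (L l498 (T t14 (L l390 (L l422 (L l498 (T t6 (L l390 (T t26 N))))))))))) (K a170 (M a48 (F (T t4 (L l462 (T t48 (L l151 (L l390 (T t13 N)))))))) (K a191 (M a240 (F (T t962 (L l444 (T t963 N))))) (K a255 (M a16 (F (T t112 (L l266 (T t190 (L l289 (L l296 (T t191 N)))))))) N))))))))))))))))⟩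
def e0_63__79_111 : Ent 4 := ⟨[a0, a63], [a79, a183], (M a12 (F (T t122 (T t151 (T t152 (L l421 (T t153 (K a4 (M a60 (F (T t43 (L l325 (T t398 (T t448 N)))))) (K a8 (M a60 (F (T t67 (L l325 (T t398 (L l52 (L l56 (T t448 N)))))))) (K a21 (M a192 (F (T t468 (L l15 (L l202 (L l347 (T t450 (L l50 (T t2473 N))))))))) (K a25 (M a192 (F (L l84 (T t836 (L l15 (L l202 (T t450 (L l84 (L l189 (T t202 N)))))))))) (K a29 (M a192 (F (T t468 (L l84 (L l189 (T t202 (L l15 (L l202 (L l371 (T t2569 N)))))))))) (K a38 (M a192 (F (T t468 (L l202 (T t450 (L l84 (L l189 (T t202 N)))))))) (K a42 (M a192 (F (L l202 (T t450 (L l84 (T t836 (L l26 (L l390 (T t2473 N))))))))) (K a46 (M a192 (F (T t468 (L l84 (L l189 (L l408 (T t202 (L l202 (T t2569 N))))))))) (K a51 (M a192 (F (L l513 (T t468 (L l202 (L l415 (T t450 (L l84 (L l189 (L l439 (T t202 N))))))))))) N))))))))))))))))⟩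
def e0_63__79_112 : Ent 4 := ⟨[a0, a63], [a79, a186], (M a12 (F (T t122 (T t151 (T t152 (T t153 (K a4 (M a60 (F (T t43 (L l325 (T t398 (T t448 N)))))) (K a8 (M a60 (F (T t67 (L l325 (T t398 (L l52 (L l56 (T t448 N)))))))) (K a21 (M a192 (F (T t468 (L l15 (L l347 (T t450 (L l15 (L l347 (T t157 N))))))))) (K a25 (M a192 (F (T t449 (L l15 (T t450 (L l137 (L l440 (T t21 N)))))))) (K a29 (M a192 (F (T t449 (L l137 (L l371 (L l440 (T t21 (T t160 N)))))))) (K a38 (M a192 (F (T t468 (T t450 (L l137 (L l440 (T t21 N))))))) (K a42 (M a192 (F (T t449 (T t450 (L l56 (T t157 N)))))) (K a46 (M a192 (F (T t449 (L l137 (L l440 (T t21 (L l26 (L l408 (T t160 N))))))))) (K a51 (M a192 (F (T t57 (L l79 (L l513 (T t156 (L l415 (T t450 N)))))))) N)))))))))))))))⟩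
def e0_63__79_113 : Ent 4 := ⟨[a0, a63], [a79, a187], (M a60 (F (T t67 (T t43 (T t68 (T t69 (K a20 (M a48 (F (T t132 (L l439 (T t64 (L l11 (T t235 N))))))) (K a40 (M a48 (F (T t48 (L l439 (T t64 (L l52 (T t235 N))))))) (K a21 (M a192 (F (T t72 (L l347 (T t73 (L l137 (L l347 (T t74 N)))))))) (K a41 (M a192 (F (T t79 (L l65 (L l439 (T t35 (T t73 N))))))) (K a61 (M a192 (F (T t72 (L l65 (L l439 (L l515 (T t35 (T t80 N)))))))) (K a22 (M a192 (F (T t72 (L l137 (L l439 (T t21 (T t73 N))))))) (K a42 (M a192 (F (T t79 (T t73 (L l22 (L l137 (T t74 N))))))) (K a62 (M a192 (F (T t72 (L l439 (T t35 (L l66 (L l516 (T t80 N)))))))) (K a3 (M a192 (F (T t1343 (L l477 (T t79 (L l439 (L l475 (T t35 N)))))))) N)))))))))))))))⟩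
def e0_63__79_114 : Ent 4 := ⟨[a0, a63], [a79, a191], (M a12 (F (T t122 (T t151 (T t152 (T t153 (K a4 (M a60 (F (T t43 (L l325 (T t398 (T t448 N)))))) (K a8 (M a60 (F (T t67 (L l325 (T t398 (L l52 (L l56 (T t448 N)))))))) (K a21 (M a192 (F (T t468 (T t221 (L l15 (L l220 (L l347 (T t157 N)))))))) (K a25 (M a192 (F (T t449 (T t221 (L l15 (L l220 (T t35 N))))))) (K a29 (M a192 (F (T t449 (L l15 (L l220 (L l371 (T t35 (L l189 (T t160 N))))))))) (K a38 (M a192 (F (T t468 (L l26 (T t221 (L l50 (L l220 (T t35 N)))))))) (K a42 (M a192 (F (T t449 (L l26 (L l390 (T t221 (L l56 (L l220 (T t157 N))))))))) (K a46 (M a192 (F (T t449 (L l220 (T t35 (L l26 (L l189 (L l408 (T t160 N))))))))) (K a51 (M a192 (F (T t155 (L l513 (T t449 (L l220 (L l439 (T t35 N)))))))) N)))))))))))))))⟩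
def e0_63__79_115 : Ent 4 := ⟨[a0, a63], [a79, a192], (M a12 (F (T t150 (L l489 (T t122 (L l489 (T t151 (L l489 (T t152 (L l489 (T t153 (K a4 (M a60 (F (T t570 (L l46 (L l50 (L l309 (T t67 (T t448 N)))))))) (K a8 (M a60 (F (T t570 (L l309 (T t67 (L l52 (L l56 (T t448 N)))))))) (K a21 (M a255 (F (T t2126 (L l232 (T t2034 (L l15 (L l272 (T t2032 N)))))))) (K a25 (M a48 (F (T t865 (L l15 (L l325 (L l339 (T t1 (L l12 (L l56 (T t866 N)))))))))) (K a29 (M a48 (F (T t145 (L l15 (L l325 (L l339 (T t1 (T t866 N)))))))) (K a38 (M a48 (F (T t867 (L l26 (L l325 (L l339 (T t2 (L l21 (L l50 (T t868 N)))))))))) (K a42 (M a255 (F (T t2033 (L l26 (L l232 (T t2034 (L l56 (L l272 (L l390 (T t2032 N)))))))))) (K a46 (M a48 (F (T t867 (L l325 (L l339 (T t1 (L l26 (T t866 N)))))))) (K a51 (M a16 (L l489 (F (T t112 (L l39 (L l514 (T t871 (T t872 (K a145 (M a98 (F (T t112 (L l39 (L l514 (T t871 (T t872 N))))))) (K a98 (M a145 (F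 (T t112 (L l39 (L l514 (T t871 (T t872 N))))))) N)))))))))) N))))))))))))))))))))⟩
def e0_63__79_116 : Ent 4 := ⟨[a0, a63], [a79, a193], (M a12 (F (T t122 (T t151 (T t152 (T t153 (K a4 (M a60 (F (T t43 (L l325 (L l515 (T t398 (T t448 N))))))) (K a8 (M a60 (F (T t67 (L l325 (L l515 (T t398 (L l52 (L l56 (T t448 N))))))))) (K a21 (M a192 (F (T t468 (L l15 (L l347 (L l515 (T t450 (L l15 (L l347 (L l515 (T t157 N))))))))))) (K a25 (M a192 (F (T t449 (L l15 (L l515 (T t450 (L l137 (L l515 (T t21 N))))))))) (K a29 (M a192 (F (T t449 (L l137 (L l371 (L l515 (T t21 (L l293 (T t160 N))))))))) (K a38 (M a192 (F (T t543 (L l79 (T t156 (L l137 (L l515 (T t21 N)))))))) (K a42 (M a192 (F (T t449 (L l515 (T t450 (L l56 (L l515 (T t157 N)))))))) (K a46 (M a192 (F (T t449 (L l137 (L l515 (T t21 (L l26 (L l293 (L l408 (T t160 N)))))))))) (K a51 (M a192 (F (T t158 (L l79 (L l513 (T t156 (L l137 (L l439 (L l515 (T t21 N))))))))))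 N)))))))))))))))⟩
def e0_63__79_117 : Ent 4 := ⟨[a0, a63], [a79, a194], (M a12 (F (T t122 (T t151 (T t152 (T t153 (K a4 (M a60 (F (T t43 (L l325 (L l336 (T t398 (T t448 N))))))) (K a8 (M a60 (F (T t67 (L l325 (L l336 (T t398 (L l52 (L l56 (T t448 N))))))))) (K a21 (M a192 (F (T t468 (L l15 (L l270 (L l347 (T t450 (L l15 (L l270 (L l347 (T t157 N))))))))))) (K a25 (M a192 (F (T t449 (L l15 (L l270 (T t450 (L l137 (T t21 N)))))))) (K a29 (M a192 (F (T t449 (L l137 (L l371 (T t21 (L l516 (T t160 N)))))))) (K a38 (M a192 (F (T t468 (L l270 (T t450 (L l137 (T t21 N))))))) (K a42 (M a192 (F (T t449 (L l270 (T t450 (L l56 (L l270 (T t157 N)))))))) (K a46 (M a192 (F (T t449 (L l137 (T t21 (L l26 (L l408 (L l516 (T t160 N))))))))) (K a51 (M a192 (F (T t576 (L l79 (L l513 (T t156 (L l137 (L l439 (T t21 N))))))))) N)))))))))))))))⟩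
def e0_63__79_118 : Ent 4 := ⟨[a0, a63], [a79, a195], (M a12 (F (T t150 (L l487 (T t122 (L l487 (T t151 (L l487 (T t152 (L l487 (T t153 (K a4 (M a60 (F (T t570 (L l46 (L l50 (L l307 (T t67 (T t448 N)))))))) (K a8 (M a60 (F (T t570 (L l307 (T t67 (L l52 (L l56 (T t448 N)))))))) (K a21 (M a192 (F (T t158 (L l79 (L l237 (T t156 (L l15 (L l347 (T t157 N))))))))) (K a25 (M a192 (F (T t158 (L l79 (L l237 (T t156 (L l137 (L l295 (T t21 N))))))))) (K a29 (M a192 (F (T t496 (L l137 (L l295 (L l371 (T t21 (T t160 N)))))))) (K a38 (M a192 (F (T t161 (L l79 (L l237 (T t156 (L l137 (L l295 (T t21 N))))))))) (K a42 (M a192 (F (T t161 (L l79 (L l237 (T t156 (L l56 (T t157 N)))))))) (K a46 (M a192 (F (T t57 (L l79 (L l237 (T t156 (L l26 (L l408 (T t160 N))))))))) (K a51 (M a192 (L l487 (F (T t57 (L l79 (L l237 (L l513 (T t156 (L l271 (L l415 (T t450 (K a147 (M a99 (F (T t57 (L l271 (L l415 (T t543 (L l237 (L l513 (T t468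 N))))))))) (K a99 (M a147 (F (T t57 (L l271 (L l415 (T t543 (L l237 (L l513 (T t468 N))))))))) N))))))))))))) N))))))))))))))))))))⟩
def e0_63__79_119 : Ent 4 := ⟨[a0, a63], [a79, a197], (M a12 (F (T t122 (T t151 (T t152 (T t153 (K a4 (M a60 (F (T t43 (L l325 (T t398 (T t448 N)))))) (K a8 (M a60 (F (T t67 (L l325 (T t398 (L l52 (L l56 (T t448 N)))))))) (K a21 (M a192 (F (T t221 (L l79 (T t156 (L l15 (L l347 (L l491 (T t157 N))))))))) (K a25 (M a192 (F (T t449 (L l15 (L l491 (T t450 (L l137 (L l491 (T t21 N))))))))) (K a29 (M a192 (F (T t449 (L l137 (L l371 (L l491 (T t21 (L l275 (T t160 N))))))))) (K a38 (M a192 (F (T t543 (L l79 (T t156 (L l137 (L l491 (T t21 N)))))))) (K a42 (M a192 (F (T t449 (L l491 (T t450 (L l56 (L l491 (T t157 N)))))))) (K a46 (M a192 (F (T t449 (L l137 (L l491 (T t21 (L l26 (L l275 (L l408 (T t160 N)))))))))) (K a51 (M a192 (F (T t158 (L l79 (L l513 (T t156 (L l137 (L l439 (L l491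 (T t21 N)))))))))) N)))))))))))))))⟩
def e0_63__79_120 : Ent 4 := ⟨[a0, a63], [a79, a198], (M a149 (F (T t25 (T t175 (T t176 (L l84 (T t177 (K a192 (M a53 (F (T t178 (L l229 (L l236 (T t179 (L l84 (L l229 (L l236 (L l296 (T t180 N))))))))))) (K a21 (M a48 (F (T t1267 (L l18 (L l229 (T t14 (L l18 (T t1082 N)))))))) (K a85 (M a16 (F (T t504 (L l144 (T t190 (L l94 (L l151 (T t278 N)))))))) (K a213 (Fr a106 a192 l519 (Fr a42 a21 l68 (Fr a170 a234 l390 (Fr a255 a85 l476 (V t582))))) (K a42 (M a48 (F (L l234 (T t11 (L l390 (T t1082 (L l54 (L l229 (T t14 N))))))))) (K a106 (M a48 (F (T t48 (L l229 (L l498 (T t14 (L l229 (L l390 (L l498 (T t6 (L l390 (T t26 N)))))))))))) (K a170 (M a48 (F (T t607 (L l234 (T t11 (L l151 (L l390 (T t13 N)))))))) (K a191 (M a240 (F (T t962 (T t963 N)))) (K a255 (M a16 (F (T t112 (L l266 (T t190 (L l289 (L l296 (T t191 N)))))))) N))))))))))))))))⟩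
def e0_63__79_121 : Ent 4 := ⟨[a0, a63], [a79, a199], (M a149 (F (T t25 (T t175 (T t176 (L l84 (T t177 (K a192 (M a53 (F (T t178 (L l229 (L l236 (T t179 (L l84 (L l229 (L l236 (L l296 (L l314 (T t180 N)))))))))))) (K a21 (M a48 (F (T t1267 (L l18 (L l229 (T t14 (L l18 (T t1082 N)))))))) (K a85 (M a16 (F (T t504 (L l144 (T t190 (L l94 (L l151 (T t278 N)))))))) (K a213 (Fr a106 a192 l519 (Fr a42 a21 l68 (Fr a170 a234 l390 (Fr a255 a85 l476 (V t582))))) (K a42 (M a48 (F (T t11 (L l390 (T t1082 (L l54 (L l229 (T t14 N)))))))) (K a106 (M a48 (F (T t48 (L l229 (L l498 (T t14 (L l229 (L l390 (L l498 (T t6 (L l390 (T t26 N)))))))))))) (K a170 (M a48 (F (T t11 (L l462 (T t48 (L l151 (L l390 (T t13 N)))))))) (K a191 (M a240 (F (T t962 (T t963 N)))) (K a255 (M a16 (F (T t112 (L l266 (T t190 (L l289 (L l296 (T t191 N)))))))) N))))))))))))))))⟩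
def e0_63__79_122 : Ent 4 := ⟨[a0, a63], [a79, a202], (M a12 (F (T t122 (T t151 (T t152 (T t153 (K a4 (M a60 (F (T t43 (L l325 (T t398 (T t448 N)))))) (K a8 (M a60 (F (T t67 (L l325 (T t398 (L l52 (L l56 (T t448 N)))))))) (K a21 (M a192 (F (T t468 (L l15 (L l347 (T t450 (L l15 (L l347 (T t157 N))))))))) (K a25 (M a192 (F (T t467 (L l79 (T t156 (L l137 (T t21 N))))))) (K a29 (M a192 (F (T t468 (L l137 (L l371 (T t21 (L l498 (T t160 N)))))))) (K a38 (M a192 (F (T t468 (T t450 (L l137 (T t21 N)))))) (K a42 (M a192 (F (T t467 (L l79 (T t156 (L l56 (T t157 N))))))) (K a46 (M a192 (F (T t468 (L l137 (T t21 (L l26 (L l408 (L l498 (T t160 N))))))))) (K a51 (M a192 (F (T t161 (L l79 (L l513 (T t156 (L l137 (L l439 (T t21 N))))))))) N)))))))))))))))⟩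
def e0_63__79_123 : Ent 4 := ⟨[a0, a63], [a79, a203], (M a149 (F (T t25 (T t175 (T t176 (L l84 (T t177 (K a192 (M a53 (F (T t178 (L l236 (T t179 (L l84 (L l236 (L l296 (T t180 N))))))))) (K a21 (M a48 (F (T t4 (L l18 (T t1082 (L l18 (T t14 N))))))) (K a85 (M a16 (F (T t504 (L l144 (T t190 (L l94 (L l151 (T t278 N)))))))) (K a213 (Fr a106 a192 l519 (Fr a42 a21 l68 (Fr a170 a234 l390 (Fr a255 a85 l476 (V t582))))) (K a42 (M a48 (F (L l54 (T t4 (L l390 (T t1082 (L l54 (T t14 N)))))))) (K a106 (M a48 (F (T t48 (L l498 (T t14 (L l390 (L l498 (T t6 (L l390 (T t26 N)))))))))) (K a170 (M a48 (F (T t4 (L l462 (T t48 (L l151 (L l390 (T t13 N)))))))) (K a191 (M a240 (F (T t962 (T t963 N)))) (K a255 (M a16 (F (T t112 (L l266 (T t190 (L l289 (L l296 (T t191 N)))))))) N))))))))))))))))⟩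
def e0_63__79_124 : Ent 4 := ⟨[a0, a63], [a79, a207], (M a15 (F (T t1254 (L l512 (T t716 (L l512 (T t731 (L l512 (T t723 (L l512 (T t732 (K a48 (M a90 (L l512 (F (T t3053 (L l303 (L l412 (T t3054 (T t3021 (K a101 (M a154 (F (T t3021 (L l303 (L l412 (L l491 (T t3055 (L l123 (L l303 (L l412 (T t3056 N))))))))))) (K a154 (M a101 (F (T t3057 (L l137 (L l227 (L l289 (L l440 (T t3058 (L l84 (L l498 (T t3059 N))))))))))) N)))))))))) (K a5 (M a12 (F (T t2823 (L l47 (L l511 (T t122 (L l5 (T t722 N)))))))) (K a21 (M a165 (F (T t3060 (L l303 (T t3046 (L l18 (L l84 (T t3048 N)))))))) (K a37 (M a4 (F (T t3049 (L l28 (L l511 (T t519 (L l21 (L l28 (T t2571 N))))))))) (K a10 (M a12 (F (T t2825 (L l511 (T t122 (L l54 (T t722 N))))))) (K a26 (M a8 (F (T t2581 (L l18 (L l511 (T t414 (L l12 (L l18 (T t2582 N))))))))) (K a42 (M a165 (F (T t3061 (L l54 (L l303 (T t3047 (L l54 (L l84 (T t3048 N))))))))) (K a31 (M a4 (F (T t129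 (L l331 (T t2570 (L l17 (T t2571 N))))))) (K a47 (M a4 (F (T t3062 (L l28 (L l511 (T t519 (L l28 (T t2571 N)))))))) N))))))))))))))))))))⟩
def e0_63__79_125 : Ent 4 := ⟨[a0, a63], [a79, a208], (M a12 (F (T t122 (T t151 (T t152 (T t153 (K a4 (M a60 (F (T t43 (L l325 (T t398 (T t448 N)))))) (K a8 (M a60 (F (T t68 (L l325 (T t398 (L l52 (L l56 (T t448 N)))))))) (K a21 (M a192 (F (T t468 (L l15 (L l347 (L l375 (T t450 (L l15 (L l347 (L l375 (T t157 N))))))))))) (K a25 (M a192 (F (T t449 (L l15 (L l375 (T t450 (L l137 (L l375 (T t21 N))))))))) (K a29 (M a192 (F (T t449 (L l137 (L l371 (L l375 (T t21 (L l246 (T t160 N))))))))) (K a38 (M a192 (F (T t543 (L l79 (T t156 (L l137 (L l375 (T t21 N)))))))) (K a42 (M a192 (F (T t449 (L l375 (T t450 (L l56 (L l375 (T t157 N)))))))) (K a46 (M a192 (F (T t449 (L l137 (L l375 (T t21 (L l26 (L l246 (L l408 (T t160 N)))))))))) (K a51 (M a192 (F (T t158 (L l79 (L l513 (T t156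 (L l137 (L l375 (L l439 (T t21 N)))))))))) N)))))))))))))))⟩
def e0_63__79_126 : Ent 4 := ⟨[a0, a63], [a79, a209], (M a12 (F (T t152 (L l371 (T t122 (L l341 (T t151 (T t153 (K a4 (M a60 (F (T t43 (L l325 (L l371 (T t398 (L l341 (T t448 N)))))))) (K a8 (M a60 (F (T t67 (L l325 (L l371 (T t398 (L l52 (L l56 (L l341 (T t448 N)))))))))) (K a21 (M a192 (F (T t468 (L l347 (L l371 (T t467 (L l137 (L l347 (L l371 (T t2622 N)))))))))) (K a25 (M a192 (F (T t449 (L l371 (T t467 (L l137 (L l371 (T t21 N)))))))) (K a29 (M a149 (F (L l243 (T t25 (L l79 (T t648 (L l243 (T t961 N)))))))) (K a38 (M a192 (F (T t468 (L l371 (T t467 (L l137 (L l371 (T t21 N)))))))) (K a42 (M a192 (F (T t449 (L l371 (T t467 (L l56 (L l137 (L l371 (T t2622 N))))))))) (K a46 (M a192 (F (T t449 (L l137 (L l371 (T t21 (L l26 (L l243 (L l408 (T t160 N)))))))))) (K a51 (M a192 (F (T t496 (L l371 (L l415 (T t467 (L l137 (L l371 (L l439 (T t21 N))))))))))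 N)))))))))))))))))⟩
def e0_63__79_127 : Ent 4 := ⟨[a0, a63], [a79, a210], (M a149 (F (T t25 (T t175 (T t176 (L l84 (T t177 (K a192 (M a53 (F (T t178 (L l236 (T t179 (L l84 (L l236 (L l296 (T t180 N))))))))) (K a21 (M a48 (F (T t4 (L l18 (L l273 (T t1082 (L l18 (T t14 N)))))))) (K a85 (M a16 (F (T t504 (L l144 (L l238 (L l273 (T t190 (L l94 (L l151 (L l372 (T t278 N))))))))))) (K a213 (Fr a106 a192 l519 (Fr a42 a21 l68 (Fr a170 a234 l390 (Fr a255 a85 l476 (V t582))))) (K a42 (M a48 (F (T t11 (L l273 (L l390 (T t1082 (L l54 (T t14 N)))))))) (K a106 (M a48 (F (T t48 (L l498 (T t14 (L l390 (L l498 (T t6 (L l390 (T t26 N)))))))))) (K a170 (M a48 (F (T t4 (L l462 (T t48 (L l151 (L l273 (L l390 (T t13 N))))))))) (K a191 (M a16 (F (T t112 (L l238 (L l273 (T t190 (L l213 (T t191 N)))))))) (K a255 (M a16 (F (T t112 (L l238 (L l266 (L l273 (T t190 (L l289 (L l296 (T t191 N)))))))))) N))))))))))))))))⟩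
def e0_63__79_128 : Ent 4 := ⟨[a0, a63], [a79, a211], (M a149 (F (T t25 (T t175 (T t176 (L l84 (T t177 (K a192 (M a53 (F (T t178 (L l236 (L l344 (T t179 (L l84 (L l236 (L l296 (T t180 N)))))))))) (K a21 (M a48 (F (T t4 (L l18 (L l344 (T t1082 (L l18 (L l344 (T t14 N))))))))) (K a85 (M a16 (F (L l455 (T t112 (L l144 (L l238 (T t190 (L l94 (L l151 (T t278 N)))))))))) (K a213 (Fr a106 a192 l519 (Fr a42 a21 l68 (Fr a170 a234 l390 (Fr a255 a85 l476 (V t582))))) (K a42 (M a48 (F (T t11 (L l344 (L l390 (T t1082 (L l54 (L l344 (T t14 N))))))))) (K a106 (M a48 (F (L l325 (T t1 (L l344 (L l498 (T t14 (L l390 (L l498 (T t6 (L l245 (L l390 (T t26 N))))))))))))) (K a170 (M a48 (F (T t4 (L l344 (L l462 (T t48 (L l151 (L l390 (T t13 N))))))))) (K a191 (M a16 (F (T t112 (L l238 (T t190 (L l213 (L l245 (T t191 N)))))))) (K a255 (M a16 (F (T t112 (L l238 (L l266 (T t190 (L l245 (L l289 (L l296 (T t191 N)))))))))) N))))))))))))))))⟩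
def e0_63__79_129 : Ent 4 := ⟨[a0, a63], [a79, a213], (M a12 (F (T t151 (L l347 (T t122 (L l347 (T t152 (T t153 (K a4 (M a60 (F (T t43 (L l325 (T t398 (T t448 N)))))) (K a8 (M a60 (F (T t570 (L l347 (T t67 (L l52 (L l56 (T t448 N)))))))) (K a21 (M a85 (F (T t1370 (L l15 (L l137 (L l278 (T t574 (L l137 (T t124 N))))))))) (K a25 (M a192 (F (T t449 (L l15 (L l347 (T t450 (L l137 (L l347 (T t21 N))))))))) (K a29 (M a192 (F (T t449 (L l137 (L l347 (L l371 (T t21 (L l347 (L l371 (T t2623 N)))))))))) (K a38 (M a192 (F (T t543 (L l79 (T t156 (L l137 (L l347 (T t21 N)))))))) (K a42 (M a192 (F (T t449 (L l347 (T t450 (L l56 (L l278 (L l347 (T t157 N))))))))) (K a46 (M a192 (F (T t449 (L l137 (L l347 (T t21 (L l347 (T t2623 N)))))))) (K a51 (M a192 (F (T t158 (L l79 (L l513 (T t156 (L l137 (L l347 (L l439 (T t21 N)))))))))) N)))))))))))))))))⟩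
def e0_63__79_130 : Ent 4 := ⟨[a0, a63], [a79, a214], (M a149 (F (L l239 (T t25 (L l294 (T t175 (L l239 (T t176 (L l84 (T t177 (K a192 (M a53 (F (T t178 (L l236 (T t179 (L l84 (L l236 (L l239 (L l296 (T t180 N)))))))))) (K a21 (M a48 (F (T t4 (L l18 (T t1082 (L l18 (T t14 N))))))) (K a85 (M a16 (F (T t504 (L l144 (T t190 (L l94 (L l151 (T t278 N)))))))) (K a213 (Fr a106 a192 l519 (Fr a42 a21 l68 (Fr a170 a234 l390 (Fr a255 a85 l476 (V t582))))) (K a42 (M a48 (F (T t11 (L l390 (T t1082 (L l54 (T t14 N))))))) (K a106 (M a48 (F (T t48 (L l498 (T t14 (L l239 (L l390 (L l498 (T t6 (L l239 (L l390 (T t26 N)))))))))))) (K a170 (M a48 (F (T t4 (L l462 (T t48 (L l151 (L l390 (T t13 N)))))))) (K a191 (M a16 (F (T t112 (T t190 (L l213 (L l239 (T t191 N))))))) (K a255 (M a16 (F (T t112 (L l266 (T t190 (L l239 (L l289 (L l296 (T t191 N))))))))) N)))))))))))))))))))⟩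
def e0_63__79_131 : Ent 4 := ⟨[a0, a63], [a79, a215], (M a149 (F (T t175 (L l84 (L l239 (T t5 (L l239 (L l295 (T t176 (L l84 (L l295 (T t177 (K a192 (M a53 (F (T t178 (L l236 (T t179 (L l84 (L l236 (L l239 (L l296 (T t180 N)))))))))) (K a21 (M a48 (F (T t4 (L l18 (T t1082 (L l18 (T t14 N))))))) (K a85 (M a20 (F (L l349 (T t238 (L l144 (L l239 (T t1269 (L l87 (T t1270 N))))))))) (K a213 (Fr a106 a192 l519 (Fr a42 a21 l68 (Fr a170 a234 l390 (Fr a255 a85 l476 (V t582))))) (K a42 (M a48 (F (T t11 (L l390 (T t1082 (L l54 (T t14 N))))))) (K a106 (M a48 (F (T t48 (L l498 (T t14 (L l239 (L l390 (L l498 (T t6 (L l239 (L l245 (L l390 (T t26 N))))))))))))) (K a170 (M a48 (F (T t4 (L l462 (T t48 (L l151 (L l390 (T t13 N)))))))) (K a191 (M a240 (F (T t962 (L l239 (T t963 N))))) (K a255 (M a195 (F (T t2098 (L l475 (T t1114 (L l239 (L l296 (L l434 (T t1272 (L l349 (T t1273 N))))))))))) N)))))))))))))))))))))⟩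
def e0_63__79_132 : Ent 4 := ⟨[a0, a63], [a79, a218], (M a149 (F (L l246 (T t25 (L l282 (T t175 (L l246 (T t176 (L l84 (T t177 (K a192 (M a53 (F (T t178 (L l236 (T t179 (L l84 (L l236 (L l246 (L l296 (T t180 N)))))))))) (K a21 (M a48 (F (T t4 (L l18 (T t3063 (L l18 (T t14 N))))))) (K a85 (M a48 (F (T t4 (L l455 (T t132 (L l144 (L l151 (L l303 (T t13 N))))))))) (K a213 (Fr a106 a192 l519 (Fr a42 a21 l68 (Fr a170 a234 l390 (Fr a255 a85 l476 (V t582))))) (K a42 (M a48 (F (L l54 (T t4 (L l390 (T t3063 (L l54 (T t14 N)))))))) (K a106 (M a12 (F (T t122 (L l408 (T t649 (L l246 (L l390 (L l408 (T t960 (L l246 (L l390 (T t961 N)))))))))))) (K a170 (M a48 (F (T t4 (L l462 (T t48 (L l151 (L l303 (L l390 (T t13 N))))))))) (K a191 (M a208 (F (T t1277 (L l151 (L l354 (T t1276 (L l137 (T t1275 N)))))))) (K a255 (M a208 (F (T t1278 (L l151 (L l354 (L l440 (T t1276 (L l137 (L l296 (L l469 (T t1275 N))))))))))) N)))))))))))))))))))⟩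
def e0_63__79_133 : Ent 4 := ⟨[a0, a63], [a79, a219], (M a149 (F (T t25 (T t175 (T t176 (L l84 (T t177 (K a192 (M a53 (F (T t178 (L l236 (T t179 (L l84 (L l236 (L l296 (T t180 N))))))))) (K a21 (M a48 (F (T t4 (L l18 (T t1082 (L l18 (T t14 N))))))) (K a85 (M a16 (F (T t504 (L l144 (T t190 (L l94 (L l151 (T t278 N)))))))) (K a213 (Fr a106 a192 l519 (Fr a42 a21 l68 (Fr a170 a234 l390 (Fr a255 a85 l476 (V t582))))) (K a42 (M a48 (F (T t11 (L l390 (T t1082 (L l54 (T t14 N))))))) (K a106 (M a48 (F (T t48 (L l498 (T t14 (L l390 (L l498 (T t6 (L l245 (L l390 (T t26 N))))))))))) (K a170 (M a48 (F (T t4 (L l462 (T t48 (L l151 (L l390 (T t13 N)))))))) (K a191 (M a240 (F (T t962 (T t963 N)))) (K a255 (M a16 (F (T t112 (L l266 (T t190 (L l245 (L l289 (L l296 (T t191 N))))))))) N))))))))))))))))⟩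
def e0_63__79_134 : Ent 4 := ⟨[a0, a63], [a79, a223], (M a149 (F (T t175 (L l84 (L l246 (T t5 (L l246 (L l289 (T t176 (L l84 (L l289 (T t177 (K a192 (M a53 (F (T t178 (L l236 (L l289 (L l368 (T t179 (L l84 (L l236 (L l246 (L l296 (T t180 N)))))))))))) (K a21 (M a240 (F (T t1090 (L l246 (T t962 (T t1207 N)))))) (K a85 (M a16 (F (L l455 (T t112 (L l144 (L l246 (T t190 (L l94 (L l151 (T t278 N)))))))))) (K a213 (Fr a106 a192 l519 (Fr a42 a21 l68 (Fr a170 a234 l390 (Fr a255 a85 l476 (V t582))))) (K a42 (M a240 (F (T t1090 (L l151 (L l390 (T t1091 (T t1207 N))))))) (K a106 (M a12 (F (T t122 (L l408 (T t649 (L l246 (L l362 (L l390 (L l408 (T t960 (L l246 (L l390 (T t961 N))))))))))))) (K a170 (M a48 (F (T t4 (L l325 (L l462 (T t1 (L l151 (L l390 (T t13 N))))))))) (K a191 (M a16 (F (T t112 (L l246 (T t190 (L l151 (T t278 N))))))) (K a255 (M a207 (F (L l440 (T t3064 (L l84 (L l469 (T t1287 (L l137 (L l246 (L l296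 (T t1288 (L l137 (L l151 (L l361 (L l469 (T t3065 N)))))))))))))))) N)))))))))))))))))))))⟩
def e0_63__79_135 : Ent 4 := ⟨[a0, a63], [a79, a224], (M a12 (F (T t122 (T t151 (T t152 (T t153 (K a4 (M a60 (F (T t43 (L l325 (T t398 (T t448 N)))))) (K a8 (M a60 (F (T t68 (L l325 (T t398 (L l52 (L l56 (T t448 N)))))))) (K a21 (M a192 (F (T t468 (L l15 (L l248 (L l347 (T t450 (L l15 (L l248 (L l347 (T t157 N))))))))))) (K a25 (M a192 (F (T t449 (L l15 (L l248 (T t450 (L l137 (T t21 N)))))))) (K a29 (M a192 (F (T t449 (L l137 (L l371 (T t21 (L l411 (T t160 N)))))))) (K a38 (M a192 (F (T t468 (L l248 (T t450 (L l137 (T t21 N))))))) (K a42 (M a192 (F (T t449 (L l248 (T t450 (L l56 (L l248 (T t157 N)))))))) (K a46 (M a192 (F (T t449 (L l137 (T t21 (L l26 (L l408 (L l411 (T t160 N))))))))) (K a51 (M a192 (F (T t576 (L l79 (L l513 (T t156 (L l137 (L l439 (T t21 N))))))))) N)))))))))))))))⟩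
def e0_63__79_136 : Ent 4 := ⟨[a0, a63], [a79, a225], (M a149 (F (T t25 (T t175 (T t176 (L l84 (T t177 (K a192 (M a53 (F (T t178 (L l236 (T t179 (L l84 (L l236 (L l296 (T t180 N))))))))) (K a21 (M a48 (F (T t4 (L l18 (L l248 (L l273 (T t1082 (L l18 (T t14 N))))))))) (K a85 (M a16 (F (T t504 (L l144 (L l273 (T t190 (L l94 (L l151 (T t278 N))))))))) (K a213 (Fr a106 a192 l519 (Fr a42 a21 l68 (Fr a170 a234 l390 (Fr a255 a85 l476 (V t582))))) (K a42 (M a48 (F (T t11 (L l248 (L l273 (L l390 (T t1082 (L l54 (T t14 N))))))))) (K a106 (M a48 (F (T t48 (L l498 (T t14 (L l390 (L l498 (T t6 (L l390 (T t26 N)))))))))) (K a170 (M a48 (F (T t4 (L l462 (T t48 (L l151 (L l273 (L l390 (T t13 N))))))))) (K a191 (M a16 (F (T t112 (L l273 (T t190 (L l213 (T t191 N))))))) (K a255 (M a16 (F (T t112 (L l266 (L l273 (T t190 (L l289 (L l296 (T t191 N))))))))) N))))))))))))))))⟩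
def e0_63__79_137 : Ent 4 := ⟨[a0, a63], [a79, a226], (M a12 (F (T t152 (L l378 (T t122 (L l408 (T t151 (T t153 (K a4 (M a60 (F (T t43 (L l325 (T t398 (L l408 (T t448 N))))))) (K a8 (M a60 (F (T t68 (L l325 (T t398 (L l52 (L l56 (L l408 (T t448 N))))))))) (K a21 (M a192 (F (T t468 (L l408 (T t543 (L l50 (L l84 (L l408 (T t681 N))))))))) (K a25 (M a192 (F (T t449 (L l408 (T t543 (L l137 (T t21 N))))))) (K a29 (M a192 (F (T t449 (L l137 (L l371 (T t21 (L l408 (T t160 N)))))))) (K a38 (M a192 (F (T t468 (L l408 (T t543 (L l137 (T t21 N))))))) (K a42 (M a192 (F (T t449 (L l390 (L l408 (T t543 (L l84 (L l390 (L l408 (T t681 N)))))))))) (K a46 (M a106 (F (L l254 (T t393 (L l84 (T t2305 (L l254 (T t2476 N)))))))) (K a51 (M a192 (F (T t496 (L l408 (L l415 (T t543 (L l137 (L l439 (T t21 N))))))))) N)))))))))))))))))⟩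
def e0_63__79_138 : Ent 4 := ⟨[a0, a63], [a79, a227], (M a149 (F (T t25 (T t175 (T t176 (L l84 (T t177 (K a192 (M a53 (F (L l380 (T t178 (L l236 (L l255 (T t179 (L l84 (L l236 (L l296 (T t180 N))))))))))) (K a21 (M a48 (F (T t4 (L l18 (L l248 (T t1082 (L l18 (L l255 (T t14 N))))))))) (K a85 (M a16 (F (L l380 (T t504 (L l144 (L l380 (T t190 (L l94 (L l151 (T t278 N)))))))))) (K a213 (Fr a106 a192 l519 (Fr a42 a21 l68 (Fr a170 a234 l390 (Fr a255 a85 l476 (V t582))))) (K a42 (M a48 (F (T t11 (L l248 (L l390 (T t1082 (L l54 (L l255 (T t14 N))))))))) (K a106 (M a48 (F (T t48 (L l255 (L l498 (T t14 (L l390 (L l498 (T t6 (L l380 (L l390 (T t26 N)))))))))))) (K a170 (M a48 (F (T t4 (L l462 (T t48 (L l151 (L l390 (T t13 N)))))))) (K a191 (M a16 (F (L l380 (T t112 (L l213 (T t191 (L l213 (L l380 (T t192 N))))))))) (K a255 (M a16 (F (L l380 (T t112 (L l289 (L l296 (T t191 (L l380 (T t192 N))))))))) N))))))))))))))))⟩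
def e0_63__79_139 : Ent 4 := ⟨[a0, a63], [a79, a229], (M a149 (F (L l275 (T t25 (L l256 (T t175 (L l275 (T t176 (L l84 (T t177 (K a192 (M a29 (F (T t956 (L l272 (T t641 (L l272 (L l275 (L l296 (T t957 N))))))))) (K a21 (M a48 (F (T t1267 (L l18 (L l256 (L l275 (T t14 (L l18 (L l256 (L l303 (T t1082 N))))))))))) (K a85 (M a16 (F (T t504 (L l144 (L l303 (T t190 (L l94 (L l151 (T t278 N))))))))) (K a213 (Fr a106 a192 l519 (Fr a42 a21 l68 (Fr a170 a234 l390 (Fr a255 a85 l476 (V t582))))) (K a42 (M a48 (F (T t11 (L l256 (L l390 (T t3063 (L l54 (L l256 (L l275 (T t14 N)))))))))) (K a106 (M a12 (F (T t122 (L l408 (T t649 (L l275 (L l390 (L l408 (T t960 (L l275 (L l390 (T t961 N)))))))))))) (K a170 (M a48 (F (T t11 (L l462 (T t48 (L l151 (L l303 (L l390 (T t13 N))))))))) (K a191 (M a240 (F (T t962 (L l275 (T t2009 N))))) (K a255 (M a16 (F (T t112 (L l266 (L l303 (T t190 (L l275 (L l289 (L l296 (T t191 N))))))))))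 N)))))))))))))))))))⟩
def e0_63__79_140 : Ent 4 := ⟨[a0, a63], [a79, a230], (M a149 (F (L l278 (T t25 (L l254 (T t175 (L l278 (T t176 (L l84 (T t177 (K a192 (M a53 (F (T t178 (L l236 (T t179 (L l84 (L l236 (L l278 (L l296 (T t180 N)))))))))) (K a21 (M a48 (F (T t4 (L l18 (T t1082 (L l18 (T t14 N))))))) (K a85 (M a16 (F (T t504 (L l144 (T t190 (L l94 (L l151 (T t278 N)))))))) (K a213 (Fr a106 a192 l519 (Fr a42 a21 l68 (Fr a170 a234 l390 (Fr a255 a85 l476 (V t582))))) (K a42 (M a48 (F (T t11 (L l390 (T t1082 (L l54 (T t14 N))))))) (K a106 (M a48 (F (T t48 (L l498 (T t14 (L l278 (L l390 (L l498 (T t6 (L l278 (L l390 (T t26 N)))))))))))) (K a170 (M a48 (F (T t4 (L l462 (T t48 (L l151 (L l390 (T t13 N)))))))) (K a191 (M a16 (F (T t112 (T t190 (L l213 (L l278 (T t191 N))))))) (K a255 (M a16 (F (T t112 (L l266 (T t190 (L l278 (L l289 (L l296 (T t191 N))))))))) N)))))))))))))))))))⟩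
def e0_63__79_141 : Ent 4 := ⟨[a0, a63], [a79, a231], (M a149 (F (T t25 (T t175 (T t176 (L l84 (T t177 (K a192 (M a53 (F (T t178 (L l236 (L l255 (T t179 (L l84 (L l236 (L l296 (T t180 N)))))))))) (K a21 (M a48 (F (T t4 (L l18 (T t1082 (L l18 (L l255 (T t14 N)))))))) (K a85 (M a16 (F (T t504 (L l144 (T t190 (L l94 (L l151 (T t278 N)))))))) (K a213 (Fr a106 a192 l519 (Fr a42 a21 l68 (Fr a170 a234 l390 (Fr a255 a85 l476 (V t582))))) (K a42 (M a48 (F (T t11 (L l390 (T t1082 (L l54 (L l255 (T t14 N)))))))) (K a106 (M a48 (F (T t48 (L l255 (L l498 (T t14 (L l390 (L l498 (T t6 (L l390 (T t26 N))))))))))) (K a170 (M a48 (F (T t4 (L l462 (T t48 (L l151 (L l390 (T t13 N)))))))) (K a191 (M a240 (F (T t962 (T t963 N)))) (K a255 (M a16 (F (T t112 (L l266 (T t190 (L l289 (L l296 (T t191 N)))))))) N))))))))))))))))⟩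
def e0_63__79_142 : Ent 4 := ⟨[a0, a63], [a79, a234], (M a12 (F (T t122 (L l390 (T t151 (T t152 (L l390 (T t153 (K a4 (M a60 (F (T t570 (L l46 (L l50 (T t67 (L l390 (T t448 N)))))))) (K a8 (M a60 (F (T t68 (L l325 (T t398 (L l52 (L l56 (L l390 (T t448 N))))))))) (K a21 (M a192 (F (T t468 (L l15 (L l254 (L l347 (T t450 (L l15 (L l254 (L l347 (T t157 N))))))))))) (K a25 (M a192 (F (T t467 (L l79 (T t156 (L l84 (L l390 (T t202 N)))))))) (K a29 (M a192 (F (T t468 (L l84 (L l390 (T t202 (L l390 (T t2625 N)))))))) (K a38 (M a192 (F (T t468 (L l254 (T t450 (L l84 (L l390 (T t202 N)))))))) (K a42 (M a106 (F (T t2416 (L l56 (L l84 (L l254 (T t2415 (L l84 (T t2305 N))))))))) (K a46 (M a192 (F (T t468 (L l84 (L l390 (L l408 (T t202 (L l390 (L l408 (T t2625 N)))))))))) (K a51 (M a192 (F (T t576 (L l79 (L l513 (T t156 (L l84 (L l390 (L l439 (T t202 N)))))))))) N)))))))))))))))))⟩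
def e0_63__79_143 : Ent 4 := ⟨[a0, a63], [a79, a235], (M a12 (F (T t122 (T t151 (T t152 (T t153 (K a4 (M a60 (F (T t69 (L l325 (T t398 (L l392 (T t448 N))))))) (K a8 (M a60 (F (T t68 (L l325 (T t398 (L l52 (L l56 (L l392 (T t448 N))))))))) (K a21 (M a192 (F (T t468 (L l15 (L l347 (T t450 (L l15 (L l347 (T t157 N))))))))) (K a25 (M a192 (F (T t449 (L l15 (T t450 (L l137 (L l295 (T t21 N)))))))) (K a29 (M a192 (F (T t449 (L l137 (L l295 (L l371 (T t21 (T t160 N)))))))) (K a38 (M a192 (F (T t468 (T t450 (L l137 (L l295 (T t21 N))))))) (K a42 (M a192 (F (T t449 (T t450 (L l56 (T t157 N)))))) (K a46 (M a192 (F (T t449 (L l137 (L l295 (T t21 (L l26 (L l408 (T t160 N))))))))) (K a51 (M a192 (F (T t158 (L l79 (L l513 (T t156 (L l137 (L l295 (L l439 (T t21 N)))))))))) N)))))))))))))))⟩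
def e0_63__79_144 : Ent 4 := ⟨[a0, a63], [a79, a239], (M a12 (F (T t122 (T t151 (T t152 (T t153 (K a4 (M a60 (F (T t43 (L l325 (T t398 (T t448 N)))))) (K a8 (M a60 (F (T t68 (L l325 (T t398 (L l52 (L l56 (T t448 N)))))))) (K a21 (M a192 (F (T t468 (L l15 (L l347 (T t450 (L l15 (L l347 (T t157 N))))))))) (K a25 (M a192 (F (T t449 (L l15 (T t450 (L l137 (L l289 (T t21 N)))))))) (K a29 (M a192 (F (T t449 (L l137 (L l289 (L l371 (T t21 (T t160 N)))))))) (K a38 (M a192 (F (T t468 (T t450 (L l137 (L l289 (T t21 N))))))) (K a42 (M a192 (F (T t449 (T t450 (L l56 (T t157 N)))))) (K a46 (M a192 (F (T t449 (L l137 (L l289 (T t21 (L l26 (L l408 (T t160 N))))))))) (K a51 (M a192 (F (T t158 (L l79 (L l513 (T t156 (L l137 (L l289 (L l439 (T t21 N)))))))))) N)))))))))))))))⟩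
def e0_63__79_145 : Ent 4 := ⟨[a0, a63], [a79, a240], (M a12 (F (T t150 (L l417 (T t122 (L l417 (T t151 (L l417 (T t152 (L l417 (T t153 (K a4 (M a60 (F (T t570 (L l46 (L l50 (L l453 (T t67 (T t448 N)))))))) (K a8 (M a60 (F (T t570 (L l453 (T t67 (L l52 (L l56 (T t448 N)))))))) (K a21 (M a192 (F (T t158 (L l79 (L l298 (T t156 (L l15 (L l347 (T t157 N))))))))) (K a25 (M a192 (F (T t158 (L l79 (L l298 (T t156 (L l137 (L l266 (T t21 N))))))))) (K a29 (M a192 (F (T t496 (L l137 (L l266 (L l371 (T t21 (T t160 N)))))))) (K a38 (M a192 (F (T t161 (L l79 (L l298 (T t156 (L l137 (L l266 (T t21 N))))))))) (K a42 (M a192 (F (T t161 (L l79 (L l298 (T t156 (L l56 (T t157 N)))))))) (K a46 (M a192 (F (T t57 (L l79 (L l298 (T t156 (L l26 (L l408 (T t160 N))))))))) (K a51 (M a192 (L l417 (F (T t57 (L l79 (L l298 (L l513 (T t156 (L l258 (L l415 (T t450 (K a177 (M a114 (F (T t57 (L l258 (L l415 (T t543 (L l298 (L l513 (T t468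 N))))))))) (K a114 (M a177 (F (T t57 (L l258 (L l415 (T t543 (L l298 (L l513 (T t468 N))))))))) N))))))))))))) N))))))))))))))))))))⟩
def e0_63__79_146 : Ent 4 := ⟨[a0, a63], [a79, a241], (M a149 (F (T t25 (T t175 (T t176 (L l84 (T t177 (K a192 (M a53 (F (T t178 (L l236 (T t179 (L l84 (L l236 (L l296 (L l443 (T t180 N)))))))))) (K a21 (M a48 (F (T t4 (L l18 (L l258 (T t1082 (L l18 (T t14 N)))))))) (K a85 (M a16 (F (T t504 (L l144 (L l258 (T t190 (L l94 (L l151 (T t278 N))))))))) (K a213 (Fr a106 a192 l519 (Fr a42 a21 l68 (Fr a170 a234 l390 (Fr a255 a85 l476 (V t582))))) (K a42 (M a48 (F (T t11 (L l258 (L l390 (T t1082 (L l54 (T t14 N)))))))) (K a106 (M a48 (F (T t48 (L l498 (T t14 (L l390 (L l498 (T t6 (L l390 (T t26 N)))))))))) (K a170 (M a48 (F (T t4 (L l462 (T t48 (L l151 (L l258 (L l390 (T t13 N))))))))) (K a191 (M a240 (F (T t962 (L l263 (T t963 N))))) (K a255 (M a16 (F (T t112 (L l258 (L l266 (T t190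 (L l289 (L l296 (T t191 N))))))))) N))))))))))))))))⟩
def e0_63__79_147 : Ent 4 := ⟨[a0, a63], [a79, a242], (M a149 (F (T t25 (T t175 (T t176 (L l84 (T t177 (K a192 (M a53 (F (T t178 (L l236 (T t179 (L l84 (L l236 (L l296 (T t180 N))))))))) (K a21 (M a48 (F (T t4 (L l18 (L l258 (T t1082 (L l18 (T t14 N)))))))) (K a85 (M a16 (F (T t504 (L l144 (L l258 (T t190 (L l94 (L l151 (L l480 (T t278 N)))))))))) (K a213 (Fr a106 a192 l519 (Fr a42 a21 l68 (Fr a170 a234 l390 (Fr a255 a85 l476 (V t582))))) (K a42 (M a48 (F (T t11 (L l258 (L l390 (T t1082 (L l54 (T t14 N)))))))) (K a106 (M a48 (F (T t48 (L l498 (T t14 (L l390 (L l498 (T t6 (L l390 (T t26 N)))))))))) (K a170 (M a48 (F (T t4 (L l462 (T t48 (L l151 (L l258 (L l390 (T t13 N))))))))) (K a191 (M a240 (F (T t962 (L l444 (T t963 N))))) (K a255 (M a16 (F (T t112 (L l258 (L l266 (T t190 (L l289 (L l296 (T t191 N))))))))) N))))))))))))))))⟩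
def e0_63__79_148 : Ent 4 := ⟨[a0, a63], [a79, a243], (M a60 (F (T t116 (L l451 (T t67 (L l451 (T t43 (L l451 (T t68 (L l451 (T t69 (K a20 (M a48 (F (T t138 (L l11 (L l325 (L l481 (T t1 (L l11 (T t235 N))))))))) (K a40 (M a48 (F (T t246 (L l325 (L l481 (T t1 (L l52 (T t235 N)))))))) (K a21 (M a192 (F (T t1343 (L l11 (L l267 (T t79 (L l137 (L l347 (T t74 N))))))))) (K a41 (M a192 (F (T t1343 (L l267 (T t79 (L l65 (L l265 (T t35 N)))))))) (K a61 (M a192 (F (T t1334 (L l65 (L l265 (L l515 (T t35 (T t80 N)))))))) (K a22 (M a192 (F (T t614 (L l11 (L l267 (T t79 (L l11 (L l265 (T t35 N))))))))) (K a42 (M a192 (F (T t614 (L l267 (T t79 (L l22 (L l137 (T t74 N)))))))) (K a62 (M a192 (F (T t57 (L l267 (T t79 (L l66 (L l516 (T t80 N)))))))) (K a3 (M a192 (L l451 (F (T t1343 (L l267 (L l477 (T t79 (L l265 (L l475 (T t35 (K a83 (M a163 (F (T t57 (L l271 (L l307 (T t75 (L l84 (L l267 (L l477 (T t1333 N)))))))))) (K a163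 (M a83 (F (T t57 (L l271 (L l307 (T t75 (L l84 (L l267 (L l477 (T t1333 N)))))))))) N)))))))))))) N))))))))))))))))))))⟩
def e0_63__79_149 : Ent 4 := ⟨[a0, a63], [a79, a245], (M a149 (F (T t175 (L l84 (L l275 (T t5 (L l266 (L l275 (T t176 (L l84 (L l266 (T t177 (K a192 (M a29 (F (T t956 (L l272 (T t641 (L l272 (L l275 (L l296 (T t957 N))))))))) (K a21 (M a48 (F (T t1267 (L l18 (L l275 (T t14 (L l18 (L l266 (T t1082 N))))))))) (K a85 (M a5 (F (L l419 (T t1110 (L l84 (L l144 (L l275 (L l325 (T t2104 (L l123 (L l151 (T t2105 N)))))))))))) (K a213 (Fr a106 a192 l519 (Fr a42 a21 l68 (Fr a170 a234 l390 (Fr a255 a85 l476 (V t582))))) (K a42 (M a48 (F (L l419 (T t11 (L l266 (L l390 (T t1082 (L l54 (L l275 (T t14 N)))))))))) (K a106 (M a12 (F (T t122 (L l408 (T t649 (L l275 (L l390 (L l408 (T t960 (L l259 (L l275 (L l390 (T t961 N))))))))))))) (K a170 (M a48 (F (L l275 (T t4 (L l419 (L l462 (T t48 (L l151 (L l266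 (L l390 (T t13 N))))))))))) (K a191 (M a16 (F (T t504 (L l266 (T t190 (L l213 (L l275 (T t191 N)))))))) (K a255 (M a240 (F (T t3066 (L l440 (T t962 (L l137 (L l275 (L l296 (L l469 (T t1092 (L l151 (L l419 (T t2107 N))))))))))))) N)))))))))))))))))))))⟩
def e0_63__79_150 : Ent 4 := ⟨[a0, a63], [a79, a246], (M a149 (F (T t25 (T t175 (T t176 (L l84 (T t177 (K a192 (M a53 (F (T t178 (L l236 (T t179 (L l84 (L l236 (L l296 (T t180 N))))))))) (K a21 (M a48 (F (T t4 (L l18 (T t1082 (L l18 (T t14 N))))))) (K a85 (M a16 (F (T t504 (L l144 (T t190 (L l94 (L l151 (T t278 N)))))))) (K a213 (Fr a106 a192 l519 (Fr a42 a21 l68 (Fr a170 a234 l390 (Fr a255 a85 l476 (V t582))))) (K a42 (M a48 (F (T t11 (L l390 (T t1082 (L l54 (T t14 N))))))) (K a106 (M a48 (F (T t48 (L l498 (T t14 (L l390 (L l498 (T t6 (L l390 (T t26 N)))))))))) (K a170 (M a48 (F (T t4 (L l462 (T t48 (L l151 (L l390 (T t13 N)))))))) (K a191 (M a240 (F (T t962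 (L l259 (T t963 N))))) (K a255 (M a16 (F (T t112 (L l266 (T t190 (L l289 (L l296 (T t191 N)))))))) N))))))))))))))))⟩
def e0_63__79_151 : Ent 4 := ⟨[a0, a63], [a79, a247], (M a149 (F (T t175 (L l84 (L l278 (T t5 (L l265 (L l278 (T t176 (L l84 (L l265 (T t177 (K a192 (M a53 (F (T t178 (L l236 (T t179 (L l84 (L l236 (L l278 (L l296 (T t180 N)))))))))) (K a21 (M a48 (F (T t4 (L l18 (T t1082 (L l18 (T t14 N))))))) (K a85 (M a4 (F (L l421 (T t519 (L l144 (L l278 (T t653 (L l126 (T t654 N))))))))) (K a213 (Fr a106 a192 l519 (Fr a42 a21 l68 (Fr a170 a234 l390 (Fr a255 a85 l476 (V t582))))) (K a42 (M a48 (F (T t11 (L l390 (T t1082 (L l54 (T t14 N))))))) (K a106 (M a48 (F (T t48 (L l498 (T t14 (L l278 (L l390 (L l422 (L l498 (T t6 (L l278 (L l390 (T t26 N))))))))))))) (K a170 (M a48 (F (T t4 (L l462 (T t48 (L l151 (L l390 (T t13 N)))))))) (K a191 (M a16 (F (T t112 (T t190 (L l213 (L l278 (T t191 N))))))) (K a255 (M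 a243 (F (T t2108 (L l439 (T t2109 (L l278 (L l296 (T t2110 (L l421 (T t2111 N)))))))))) N)))))))))))))))))))))⟩
def e0_63__79_152 : Ent 4 := ⟨[a0, a63], [a79, a250], (M a12 (F (T t122 (T t151 (T t152 (T t153 (K a4 (M a60 (F (T t43 (L l325 (T t398 (T t448 N)))))) (K a8 (M a60 (F (T t67 (L l325 (T t398 (L l52 (L l56 (T t448 N)))))))) (K a21 (M a192 (F (T t468 (L l15 (L l347 (T t450 (L l15 (L l347 (T t157 N))))))))) (K a25 (M a192 (F (T t449 (L l15 (T t450 (L l137 (L l266 (T t21 N)))))))) (K a29 (M a192 (F (T t449 (L l137 (L l266 (L l371 (T t21 (T t160 N)))))))) (K a38 (M a192 (F (T t468 (T t450 (L l137 (L l266 (T t21 N))))))) (K a42 (M a192 (F (T t449 (T t450 (L l56 (T t157 N)))))) (K a46 (M a192 (F (T t449 (L l137 (L l266 (T t21 (L l26 (L l408 (T t160 N))))))))) (K a51 (M a192 (F (T t158 (L l79 (L l513 (T t156 (L l137 (L l266 (L l439 (T t21 N)))))))))) N)))))))))))))))⟩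
def e0_63__79_153 : Ent 4 := ⟨[a0, a63], [a79, a251], (M a12 (F (T t122 (T t151 (L l427 (T t152 (L l464 (T t153 (K a4 (M a60 (F (T t43 (L l325 (T t398 (T t448 N)))))) (K a8 (M a170 (F (L l284 (T t439 (L l79 (T t2498 (L l284 (T t2626 N)))))))) (K a21 (M a192 (F (T t158 (L l79 (T t156 (L l15 (L l265 (L l347 (L l464 (T t157 N)))))))))) (K a25 (M a192 (F (T t158 (L l79 (T t156 (L l137 (L l265 (T t21 N)))))))) (K a29 (M a192 (F (L l284 (T t449 (L l84 (L l265 (T t202 (T t160 N)))))))) (K a38 (M a192 (F (T t161 (L l79 (T t156 (L l137 (L l265 (T t21 N)))))))) (K a42 (M a192 (F (T t161 (L l79 (T t156 (L l56 (L l265 (L l464 (T t157 N))))))))) (K a46 (M a192 (F (L l284 (T t449 (L l84 (L l265 (L l408 (T t202 (L l26 (L l408 (T t160 N))))))))))) (K a51 (M a192 (F (T t158 (L l79 (L l513 (T t156 (L l137 (L l265 (L l439 (T t21 N)))))))))) N)))))))))))))))))⟩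
def e0_63__79_154 : Ent 4 := ⟨[a0, a63], [a79, a255], (M a12 (F (T t150 (L l439 (T t122 (L l439 (T t151 (L l439 (T t152 (L l439 (T t153 (K a4 (M a60 (F (T t570 (L l46 (L l50 (L l475 (T t67 (T t448 N)))))))) (K a8 (M a60 (F (T t570 (L l475 (T t67 (L l52 (L l56 (T t448 N)))))))) (K a21 (M a192 (F (T t158 (L l79 (L l290 (T t156 (L l15 (L l265 (L l347 (T t157 N)))))))))) (K a25 (M a192 (F (T t496 (L l15 (L l265 (T t450 (L l15 (L l56 (L l265 (T t157 N)))))))))) (K a29 (M a48 (F (T t145 (L l15 (L l325 (L l469 (T t1 (T t866 N)))))))) (K a38 (M a192 (F (T t161 (L l79 (L l290 (T t156 (L l265 (T t157 N)))))))) (K a42 (M a192 (F (T t161 (L l79 (L l290 (T t156 (L l56 (L l265 (T t157 N))))))))) (K a46 (M a48 (F (T t867 (L l325 (L l469 (T t1 (L l26 (T t866 N)))))))) (K a51 (M a192 (L l439 (F (T t158 (L l79 (L l290 (L l513 (T t156 (L l265 (T t157 (K a119 (M a187 (F (T t155 (L l290 (L l513 (T t468 (L l265 (L l421 (T t157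 N))))))))) (K a187 (M a119 (F (T t155 (L l290 (L l513 (T t468 (L l265 (T t157 N)))))))) N)))))))))))) N))))))))))))))))))))⟩
def b0_63__79 : Blk 4 := ⟨[0, 63], [79], [1, 2, 3, 5, 6, 7, 10, 11, 15, 16, 17, 18, 19, 22, 23, 26, 27, 31, 32, 33, 34, 35, 37, 38, 39, 43, 47, 48, 49, 50, 51, 53, 54, 55, 58, 59, 64, 65, 66, 67, 69, 70, 71, 74, 75, 80, 81, 82, 83, 85, 86, 87, 90, 91, 95, 96, 97, 98, 99, 101, 102, 103, 106, 107, 111, 112, 113, 114, 115, 117, 118, 119, 122, 123, 127, 128, 129, 130, 131, 133, 134, 135, 138, 139, 143, 144, 145, 146, 147, 149, 150, 151, 154, 155, 159, 160, 161, 162, 163, 165, 166, 167, 170, 171, 175, 176, 177, 178, 179, 181, 182, 183, 186, 187, 191, 192, 193, 194, 195, 197, 198, 199, 202, 203, 207, 208, 209, 210, 211, 213, 214, 215, 218, 219, 223, 224, 225, 226, 227, 229, 230, 231, 234, 235, 239, 240, 241, 242, 243, 245, 246, 247, 250, 251, 255], [e0_63__79_0, e0_63__79_1, e0_63__79_2,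 e0_63__79_3, e0_63__79_4, e0_63__79_5, e0_63__79_6, e0_63__79_7, e0_63__79_8, e0_63__79_9, e0_63__79_10, e0_63__79_11, e0_63__79_12, e0_63__79_13, e0_63__79_14, e0_63__79_15, e0_63__79_16, e0_63__79_17, e0_63__79_18, e0_63__79_19, e0_63__79_20, e0_63__79_21, e0_63__79_22, e0_63__79_23, e0_63__79_24, e0_63__79_25, e0_63__79_26, e0_63__79_27, e0_63__79_28, e0_63__79_29, e0_63__79_30, e0_63__79_31, e0_63__79_32, e0_63__79_33, e0_63__79_34, e0_63__79_35, e0_63__79_36, e0_63__79_37, e0_63__79_38, e0_63__79_39, e0_63__79_40, e0_63__79_41, e0_63__79_42, e0_63__79_43, e0_63__79_44, e0_63__79_45, e0_63__79_46, e0_63__79_47, e0_63__79_48, e0_63__79_49, e0_63__79_50, e0_63__79_51, e0_63__79_52, e0_63__79_53, e0_63__79_54, e0_63__79_55, e0_63__79_56, e0_63__79_57, e0_63__79_58, e0_63__79_59, e0_63__79_60, e0_63__79_61, e0_63__79_62, e0_63__79_63, e0_63__79_64, e0_63__79_65, e0_63__79_66, e0_63__79_67, e0_63__79_68, e0_63__79_69,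 e0_63__79_70, e0_63__79_71, e0_63__79_72, e0_63__79_73, e0_63__79_74, e0_63__79_75, e0_63__79_76, e0_63__79_77, e0_63__79_78, e0_63__79_79, e0_63__79_80, e0_63__79_81, e0_63__79_82, e0_63__79_83, e0_63__79_84, e0_63__79_85, e0_63__79_86, e0_63__79_87, e0_63__79_88, e0_63__79_89, e0_63__79_90, e0_63__79_91, e0_63__79_92, e0_63__79_93, e0_63__79_94, e0_63__79_95, e0_63__79_96, e0_63__79_97, e0_63__79_98, e0_63__79_99, e0_63__79_100, e0_63__79_101, e0_63__79_102, e0_63__79_103, e0_63__79_104, e0_63__79_105, e0_63__79_106, e0_63__79_107, e0_63__79_108, e0_63__79_109, e0_63__79_110, e0_63__79_111, e0_63__79_112, e0_63__79_113, e0_63__79_114, e0_63__79_115, e0_63__79_116, e0_63__79_117, e0_63__79_118, e0_63__79_119, e0_63__79_120, e0_63__79_121, e0_63__79_122, e0_63__79_123, e0_63__79_124, e0_63__79_125, e0_63__79_126, e0_63__79_127, e0_63__79_128, e0_63__79_129, e0_63__79_130, e0_63__79_131, e0_63__79_132, e0_63__79_133,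 e0_63__79_134, e0_63__79_135, e0_63__79_136, e0_63__79_137, e0_63__79_138, e0_63__79_139, e0_63__79_140, e0_63__79_141, e0_63__79_142, e0_63__79_143, e0_63__79_144, e0_63__79_145, e0_63__79_146, e0_63__79_147, e0_63__79_148, e0_63__79_149, e0_63__79_150, e0_63__79_151, e0_63__79_152, e0_63__79_153, e0_63__79_154], by decide +kernel, by decide +kernel⟩

end Pool.Agent.Lib_TTT.K4
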