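import Pool.Agent.Lib_TTT.K4Base
import Pool.Agent.Lib_TTT.K4T00
import Pool.Agent.Lib_TTT.K4T01
import Pool.Agent.Lib_TTT.K4T02
import Pool.Agent.Lib_TTT.K4T03

/-! Certificates in `4^4`. -/

set_option autoImplicit false
set_option maxRecDepth 200000

namespace Pool.Agent.Lib_TTT.K4

open Lib_TTT AC DC

def e0_63__86_0 : Ent 4 := ⟨[a0, a63], [a86, a1], (M a48 (F (T t0 (L l65 (T t1 (L l5 (T t2 (L l65 (T t3 (K a16 (M a60 (F (T t42 (L l14 (L l18 (L l65 (L l477 (T t67 (L l5 (L l351 (T t65 N))))))))))) (K a32 (M a60 (F (T t42 (L l65 (L l477 (T t67 (L l5 (L l24 (L l28 (L l351 (T t65 N))))))))))) (K a21 (M a192 (L l65 (F (T t837 (L l47 (L l347 (L l351 (T t20 (L l47 (L l347 (L l351 (T t29 (K a41 (M a61 (F (T t27 (L l142 (L l305 (T t584 N)))))) (K a61 (M a41 (F (T t27 (L l35 (L l47 (L l347 (L l351 (L l515 (T t20 (L l18 (L l142 (T t46 N)))))))))))) N)))))))))))))) (K a37 (M a192 (F (T t19 (L l47 (L l351 (T t20 (L l351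 (T t21 N)))))))) (K a53 (M a192 (F (T t19 (L l351 (L l491 (T t21 (L l142 (T t31 N)))))))) (K a26 (M a192 (F (T t27 (L l351 (T t20 (L l351 (T t21 N))))))) (K a42 (M a192 (F (T t19 (L l351 (T t20 (L l28 (L l351 (T t29 N)))))))) (K a58 (M a192 (F (T t19 (L l351 (T t21 (L l54 (L l142 (L l498 (T t31 N))))))))) (K a15 (M a192 (F (T t1922 (L l325 (L l351 (T t20 (L l351 (L l469 (T t21 N))))))))) N))))))))))))))))))⟩
def e0_63__86_1 : Ent 4 := ⟨[a0, a63], [a86, a2], (M a170 (F (T t317 (T t2190 (L l66 (T t456 (L l87 (T t2102 (K a128 (M a32 (F (T t219 (L l160 (L l330 (T t3068 (L l192 (T t3069 N)))))))) (K a192 (M a32 (F (T t612 (L l236 (L l330 (T t3068 (L l296 (T t3069 N)))))))) (K a21 (M a48 (F (T t323 (L l87 (L l347 (T t514 (L l18 (T t3070 N)))))))) (K a85 (M a32 (L l87 (F (L l368 (T t3071 (L l347 (T t3069 (L l347 (L l368 (T t219 (L l368 (T t3072 (K a84 (M a87 (F (L l364 (L l368 (T t3071 (L l347 (T t3069 (L l347 (L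 l364 (L l368 (T t219 (L l364 (L l368 (T t3072 N)))))))))))))) (K a87 (M a84 (F (L l368 (L l477 (T t3073 (L l347 (T t3069 N))))))) N)))))))))))))) (K a149 (M a48 (L l351 (F (T t323 (L l66 (T t2 (L l87 (L l347 (T t514 (K a212 (M a23 (F (T t323 (L l66 (T t2 (L l87 (L l347 (T t514 N)))))))) (K a23 (M a212 (F (T t319 (L l17 (L l66 (L l375 (T t0 (L l87 (L l347 (T t514 N)))))))))) N))))))))))) (K a42 (M a48 (L l66 (F (T t319 (L l87 (T t514 (L l54 (T t3070 (K a22 (M a62 (L l348 (F (T t319 (L l42 (T t825 (K a150 (M a214 (F (T t319 (L l42 (T t825 N))))) (K a214 (M a150 (F (T t319 (L l294 (L l297 (L l306 (L l351 (T t3074 N)))))))) N)))))))) (K a62 (M a22 (F (T t319 (L l87 (T t514 (L l36 (L l54 (T t3070 N)))))))) N)))))))))) (K a106 (M a60 (L l142 (F (T t2691 (L l66 (L l351 (L l477 (T t43 (L l87 (L l144 (L l145 (L l477 (T t1570 (K a66 (M a126 (L l306 (F (T t2691 (L l66 (L l309 (L l351 (L l477 (T t43 (L l144 (T t3075 (K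 a130 (M a194 (F (L l477 (T t3076 (L l87 (L l145 (L l152 (T t3077 (L l66 (L l152 (T t3078 N))))))))))) (K a194 (M a130 (L l516 (F (T t3079 (L l66 (L l309 (L l351 (L l477 (T t43 (K a150 (Fr a62 a61 l33 (V t3080)) (K a62 (Fr a150 a190 l218 (V t3081)) N))))))))))) N))))))))))))) (K a126 (M a66 (F (T t457 (L l66 (L l351 (L l477 (T t43 (L l66 (L l87 (L l109 (L l144 (L l432 (L l516 (T t3082 N)))))))))))))) N))))))))))))))) (K a234 (Fr a85 a255 l476 (Fr a21 a42 l68 (Fr a149 a213 l347 (Fr a192 a106 l519 (V t583))))) (K a255 (M a32 (F (T t612 (L l289 (T t3071 (L l289 (L l296 (T t3069 N)))))))) N)))))))))))))))))⟩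
def e0_63__86_2 : Ent 4 := ⟨[a0, a63], [a86, a3], (M a85 (L l477 (F (L l309 (T t88 (L l475 (T t52 (L l142 (T t89 (L l309 (L l474 (T t90 (K a64 (M a240 (L l477 (F (T t1551 (L l45 (L l474 (T t933 (L l459 (T t2082 (K a252 (M a169 (F (T t387 (L l45 (L l436 (L l474 (T t933 N))))))) (K a169 (M a252 (F (T t1551 (L l174 (L l451 (L l474 (T t3083 N))))))) N))))))))))) (K a192 (M a17 (L l309 (L l477 (F (T t3084 (L l232 (L l333 (T t3085 (L l296 (T t2205 (K a252 (M a169 (L l292 (L l309 (F (T t3084 (L l45 (L l127 (L l261 (T t3086 (K a212 (M a232 (L l309 (L l351 (F (T t3084 (L l45 (L l127 (L l261 (T t3086 (K a129 (M a66 (L l351 (F (T t3084 (L l45 (L l127 (L l261 (T t3086 (K a149 (M a23 (F (T t3087 (L l45 (L l127 (L l261 (L l491 (T t3086 N)))))))) (K a23 (M a149 (F (T t3088 (L l45 (L l127 (L l261 (T t3086 N))))))) N)))))))))) (K a149 (M a23 (L l309 (F (T t3087 (L l45 (L l127 (L l261 (L l491 (T t3086 (K a129 (M a66 (F (T t3087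 (L l45 (L l127 (L l261 (L l491 (T t3086 N)))))))) (K a66 (M a129 (L l142 (F (T t3087 (L l45 (L l127 (L l261 (L l491 (T t3086 (K a106 (M a126 (F (L l390 (L l501 (T t3087 (L l45 (L l76 (L l261 (T t3089 N))))))))) (K a126 (Fr a106 a43 l393 (V t814)) N))))))))))) N))))))))))) (K a66 (M a129 (L l142 (L l351 (F (T t3087 (L l45 (L l127 (L l261 (T t3086 (K a149 (M a23 (L l142 (F (T t3087 (L l45 (L l127 (L l261 (L l491 (T t3086 (K a106 (M a126 (F (L l390 (L l501 (T t3087 (L l45 (L l76 (L l261 (T t3089 N))))))))) (K a126 (Fr a106 a43 l393 (V t814)) N))))))))))) (K a106 (M a126 (L l351 (F (L l390 (L l501 (T t3087 (L l45 (L l76 (L l261 (T t3089 (K a149 (M a23 (F (L l390 (L l501 (T t3087 (L l45 (L l76 (L l261 (T t3089 N))))))))) (K a23 (Fr a149 a189 l217 (V t3088)) N)))))))))))) (K a126 (Fr a106 a43 l393 (V t3090)) (K a23 (Fr a149 a189 l217 (V t3088)) N))))))))))))) (K a23 (M a149 (L l309 (F (T t3088 (L l45 (L l127 (L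 l261 (T t3086 (K a129 (M a66 (F (T t3088 (L l45 (L l127 (L l261 (T t3086 N))))))) (K a66 (Fr a129 a189 l217 (V t3088)) N)))))))))) N))))))))))))) (K a232 (M a212 (L l309 (F (T t3084 (L l45 (L l127 (L l261 (T t3086 (K a129 (M a66 (F (T t3087 (L l45 (L l127 (L l261 (T t3086 N))))))) (K a66 (M a129 (L l142 (F (T t3087 (L l45 (L l127 (L l261 (T t3086 (K a106 (M a126 (F (L l333 (T t3091 (L l9 (L l334 (L l390 (L l466 (T t1279 N))))))))) (K a126 (M a106 (F (T t3090 (L l339 (L l441 (L l453 (L l459 (T t3092 N)))))))) N)))))))))) N)))))))))) (K a129 (M a66 (L l292 (F (T t3087 (L l45 (L l127 (L l261 (T t3086 (K a212 (M a232 (L l351 (F (T t3084 (L l45 (L l127 (L l261 (T t3086 (K a149 (M a23 (F (T t3087 (L l45 (L l127 (L l261 (L l491 (T t3086 N)))))))) (K a23 (M a149 (F (T t3088 (L l45 (L l127 (L l261 (T t3086 N))))))) N)))))))))) (K a232 (M a212 (F (T t3087 (L l45 (L l127 (L l261 (T t3086 N))))))) N)))))))))) (K a66 (M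 a129 (L l142 (L l292 (F (T t3084 (L l45 (L l127 (L l261 (T t3086 (K a212 (M a232 (L l142 (L l351 (F (T t3087 (L l45 (L l127 (L l261 (T t3086 (K a149 (M a23 (L l142 (F (T t3087 (L l45 (L l127 (L l261 (L l491 (T t3086 (K a106 (M a126 (F (L l390 (L l501 (T t3087 (L l45 (L l76 (L l261 (T t3089 N))))))))) (K a126 (Fr a106 a43 l393 (V t814)) N))))))))))) (K a106 (M a126 (L l351 (F (L l390 (L l501 (T t3087 (L l45 (L l76 (L l261 (T t3089 (K a149 (M a23 (F (L l390 (L l501 (T t3087 (L l45 (L l76 (L l261 (T t3089 N))))))))) (K a23 (Fr a149 a189 l217 (V t3088)) N)))))))))))) (K a126 (Fr a106 a43 l393 (V t3090)) (K a23 (Fr a149 a189 l217 (V t3088)) N))))))))))))) (K a232 (M a212 (L l142 (F (T t3087 (L l45 (L l127 (L l261 (T t3086 (K a106 (M a126 (F (L l333 (T t3091 (L l9 (L l334 (L l390 (L l466 (T t1279 N))))))))) (K a126 (M a106 (F (T t3090 (L l339 (L l441 (L l453 (L l459 (T t3092 N)))))))) N)))))))))) (K a106 (M a126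 (L l292 (F (L l333 (L l351 (T t3091 (L l9 (L l334 (L l390 (L l466 (T t1279 (K a212 (M a232 (L l351 (F (L l390 (L l501 (T t3087 (L l45 (L l76 (L l261 (T t3089 (K a149 (M a23 (F (L l390 (L l501 (T t3087 (L l45 (L l76 (L l261 (T t3089 N))))))))) (K a23 (Fr a149 a189 l217 (V t3088)) N)))))))))))) (K a232 (M a212 (F (L l333 (T t3091 (L l9 (L l334 (L l390 (L l466 (T t1279 N))))))))) N))))))))))))) (K a126 (M a106 (L l292 (F (T t3090 (L l339 (L l351 (L l441 (T t3093 (K a212 (Fr a232 a43 l393 (V t3090)) (K a232 (M a212 (F (T t3090 (L l339 (L l441 (L l453 (L l459 (T t3092 N)))))))) N)))))))))) N))))))))))))) N))))))))))))) (K a129 (M a66 (L l477 (F (T t3084 (L l124 (L l296 (L l475 (T t3094 (L l296 (T t2205 (K a252 (M a169 (L l292 (F (T t3087 (L l45 (L l127 (L l261 (T t3086 (K a212 (M a232 (L l351 (F (T t3084 (L l45 (L l127 (L l261 (T t3086 (K a149 (M a23 (F (T t3087 (L l45 (L l127 (L l261 (L l491 (T t3086 N))))))))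 (K a23 (M a149 (F (T t3088 (L l45 (L l127 (L l261 (T t3086 N))))))) N)))))))))) (K a232 (M a212 (F (T t3087 (L l45 (L l127 (L l261 (T t3086 N))))))) N)))))))))) (K a169 (M a252 (L l217 (F (T t3087 (L l69 (L l174 (L l221 (L l474 (L l514 (T t91 (K a149 (Fr a189 a126 l435 (V t3085)) (K a189 (M a149 (F (T t3088 (L l232 (L l333 (T t3085 N)))))) N)))))))))))) N)))))))))))) (K a169 (M a252 (L l309 (F (T t3084 (L l69 (L l142 (L l174 (L l221 (L l474 (L l514 (T t91 (K a129 (M a66 (L l217 (F (T t3087 (L l69 (L l174 (L l221 (L l474 (L l514 (T t91 (K a149 (Fr a189 a126 l435 (V t3085)) (K a189 (M a149 (F (T t3088 (L l232 (L l333 (T t3085 N)))))) N)))))))))))) (K a66 (M a129 (L l142 (F (T t3087 (L l69 (L l174 (L l474 (L l514 (T t93 (K a106 (Fr a126 a189 l435 (V t2278)) (K a126 (M a106 (F (L l76 (T t3095 (L l9 (L l334 (T t1279 N))))))) N))))))))))) N))))))))))))) (K a66 (M a129 (L l142 (L l477 (F (T t3087 (L l232 (L l333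 (T t3085 (L l296 (T t2205 (K a252 (M a169 (L l142 (L l292 (F (T t3084 (L l45 (L l127 (L l261 (T t3086 (K a212 (M a232 (L l142 (L l351 (F (T t3087 (L l45 (L l127 (L l261 (T t3086 (K a149 (M a23 (L l142 (F (T t3087 (L l45 (L l127 (L l261 (L l491 (T t3086 (K a106 (M a126 (F (L l390 (L l501 (T t3087 (L l45 (L l76 (L l261 (T t3089 N))))))))) (K a126 (Fr a106 a43 l393 (V t814)) N))))))))))) (K a106 (M a126 (L l351 (F (L l390 (L l501 (T t3087 (L l45 (L l76 (L l261 (T t3089 (K a149 (M a23 (F (L l390 (L l501 (T t3087 (L l45 (L l76 (L l261 (T t3089 N))))))))) (K a23 (Fr a149 a189 l217 (V t3088)) N)))))))))))) (K a126 (Fr a106 a43 l393 (V t3090)) (K a23 (Fr a149 a189 l217 (V t3088)) N))))))))))))) (K a232 (M a212 (L l142 (F (T t3087 (L l45 (L l127 (L l261 (T t3086 (K a106 (M a126 (F (L l333 (T t3091 (L l9 (L l334 (L l390 (L l466 (T t1279 N))))))))) (K a126 (M a106 (F (T t3090 (L l339 (L l441 (L l453 (L l459 (T t3092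 N)))))))) N)))))))))) (K a106 (M a126 (L l292 (F (L l333 (L l351 (T t3091 (L l9 (L l334 (L l390 (L l466 (T t1279 (K a212 (M a232 (L l351 (F (L l390 (L l501 (T t3087 (L l45 (L l76 (L l261 (T t3089 (K a149 (M a23 (F (L l390 (L l501 (T t3087 (L l45 (L l76 (L l261 (T t3089 N))))))))) (K a23 (Fr a149 a189 l217 (V t3088)) N)))))))))))) (K a232 (M a212 (F (L l333 (T t3091 (L l9 (L l334 (L l390 (L l466 (T t1279 N))))))))) N))))))))))))) (K a126 (M a106 (L l292 (F (T t3090 (L l339 (L l351 (L l441 (T t3093 (K a212 (Fr a232 a43 l393 (V t3090)) (K a232 (M a212 (F (T t3090 (L l339 (L l441 (L l453 (L l459 (T t3092 N)))))))) N)))))))))) N))))))))))))) (K a169 (M a252 (L l142 (F (T t3087 (L l69 (L l174 (L l474 (L l514 (T t93 (K a106 (Fr a126 a189 l435 (V t2278)) (K a126 (M a106 (F (L l76 (T t3095 (L l9 (L l334 (T t1279 N))))))) N))))))))))) (K a106 (M a126 (L l477 (F (L l102 (L l124 (T t2278 (L l69 (L l390 (L l474 (L l514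 (L l516 (T t3096 (L l118 (L l268 (L l453 (T t3097 (K a252 (M a169 (L l292 (F (L l333 (L l351 (T t3091 (L l9 (L l334 (L l390 (L l466 (T t1279 (K a212 (M a232 (L l351 (F (L l390 (L l501 (T t3087 (L l45 (L l76 (L l261 (T t3089 (K a149 (M a23 (F (L l390 (L l501 (T t3087 (L l45 (L l76 (L l261 (T t3089 N))))))))) (K a23 (Fr a149 a189 l217 (V t3088)) N)))))))))))) (K a232 (M a212 (F (L l333 (T t3091 (L l9 (L l334 (L l390 (L l466 (T t1279 N))))))))) N))))))))))))) (K a169 (Fr a252 a189 l435 (V t2278)) N)))))))))))))))))) (K a126 (M a106 (L l477 (F (L l76 (T t3095 (L l9 (L l334 (T t1279 (K a252 (M a169 (L l292 (F (T t3090 (L l339 (L l351 (L l441 (T t3093 (K a212 (Fr a232 a43 l393 (V t3090)) (K a232 (M a212 (F (T t3090 (L l339 (L l441 (L l453 (L l459 (T t3092 N)))))))) N)))))))))) (K a169 (M a252 (F (L l76 (T t3095 (L l9 (L l334 (T t1279 N))))))) N)))))))))) N)))))))))))))) N)))))))))))))) (K a21 (M a48 (L l477 (F (L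 l475 (T t99 (L l453 (L l474 (T t50 (L l47 (T t100 (K a252 (M a169 (F (L l127 (T t509 (L l262 (L l453 (L l474 (T t50 (L l47 (T t100 N)))))))))) (K a169 (M a252 (F (L l47 (T t100 (L l43 (L l174 (L l474 (T t3098 N)))))))) N)))))))))))) (K a149 (M a17 (L l351 (L l477 (F (T t3087 (L l333 (T t3085 (L l167 (L l369 (T t3099 (K a212 (M a23 (L l477 (F (L l333 (T t3085 (L l346 (L l371 (T t3100 (K a252 (M a169 (L l292 (F (T t3087 (L l45 (L l127 (L l261 (L l491 (T t3086 (K a192 (M a232 (L l309 (F (T t3087 (L l45 (L l127 (L l261 (L l491 (T t3086 (K a129 (M a66 (F (T t3087 (L l45 (L l127 (L l261 (L l491 (T t3086 N)))))))) (K a66 (M a129 (L l142 (F (T t3087 (L l45 (L l127 (L l261 (L l491 (T t3086 (K a106 (M a126 (F (L l390 (L l501 (T t3087 (L l45 (L l76 (L l261 (T t3089 N))))))))) (K a126 (Fr a106 a43 l393 (V t814)) N))))))))))) N))))))))))) (K a232 (M a192 (F (L l142 (L l220 (T t3101 (L l9 (L l371 (L l466 (T t1279 N)))))))))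 N))))))))))) (K a169 (M a252 (L l217 (F (T t3087 (L l69 (L l142 (L l174 (L l220 (L l221 (L l474 (T t91 (K a129 (Fr a189 a126 l435 (V t1279)) (K a189 (M a129 (F (L l333 (T t3085 (L l45 (L l346 (L l366 (L l371 (T t3102 N))))))))) N))))))))))))) N)))))))))) (K a252 (M a169 (L l351 (F (T t3087 (L l45 (L l127 (L l261 (L l491 (T t3086 (K a212 (M a23 (L l292 (F (T t3087 (L l45 (L l127 (L l261 (L l491 (T t3086 (K a192 (M a232 (L l309 (F (T t3087 (L l45 (L l127 (L l261 (L l491 (T t3086 (K a129 (M a66 (F (T t3087 (L l45 (L l127 (L l261 (L l491 (T t3086 N)))))))) (K a66 (M a129 (L l142 (F (T t3087 (L l45 (L l127 (L l261 (L l491 (T t3086 (K a106 (M a126 (F (L l390 (L l501 (T t3087 (L l45 (L l76 (L l261 (T t3089 N))))))))) (K a126 (Fr a106 a43 l393 (V t814)) N))))))))))) N))))))))))) (K a232 (M a192 (F (L l142 (L l220 (T t3101 (L l9 (L l371 (L l466 (T t1279 N))))))))) N))))))))))) (K a23 (M a212 (F (T t3087 (L l45 (L l127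 (L l261 (L l491 (T t3086 N)))))))) N))))))))))) (K a169 (M a252 (L l217 (L l351 (F (T t3087 (L l69 (L l142 (L l174 (L l220 (L l221 (L l474 (T t91 (K a212 (M a23 (L l217 (F (T t3087 (L l69 (L l142 (L l174 (L l220 (L l221 (L l474 (T t91 (K a129 (Fr a189 a126 l435 (V t1279)) (K a189 (M a129 (F (L l333 (T t3085 (L l45 (L l346 (L l366 (L l371 (T t3102 N))))))))) N))))))))))))) (K a129 (Fr a189 a126 l435 (V t2278)) (K a189 (M a129 (L l351 (F (T t3087 (L l333 (T t3085 (L l167 (L l205 (L l369 (T t3099 (K a212 (M a23 (F (L l333 (T t3085 (L l45 (L l346 (L l366 (L l371 (T t3102 N))))))))) (K a23 (M a212 (F (T t3087 (L l145 (L l174 (L l220 (L l393 (T t3103 N)))))))) N)))))))))))) (K a23 (M a212 (L l217 (F (T t3087 (L l145 (L l174 (L l220 (L l393 (T t3103 (K a129 (Fr a189 a126 l435 (V t3085)) (K a189 (M a129 (F (T t3087 (L l145 (L l174 (L l220 (L l393 (T t3103 N)))))))) N))))))))))) N)))))))))))))))) (K a23 (M a212 (L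 l477 (F (T t3087 (L l333 (T t3085 (L l167 (L l369 (T t3099 (K a252 (M a169 (F (T t3087 (L l45 (L l127 (L l261 (L l491 (T t3086 N)))))))) (K a169 (M a252 (L l217 (F (T t3087 (L l145 (L l174 (L l220 (L l393 (T t3103 (K a129 (Fr a189 a126 l435 (V t3085)) (K a189 (M a129 (F (T t3087 (L l145 (L l174 (L l220 (L l393 (T t3103 N)))))))) N))))))))))) N))))))))))) N)))))))))))))) (K a213 (Fr a170 a255 l476 (Fr a42 a21 l68 (Fr a106 a234 l390 (Fr a192 a149 l519 (V t581))))) (K a42 (M a240 (L l477 (F (L l475 (T t1384 (L l45 (L l390 (L l474 (T t386 (T t1385 (K a252 (M a169 (F (L l459 (T t2082 (L l45 (L l390 (L l436 (L l474 (T t386 (T t1385 N)))))))))) (K a169 (M a252 (F (L l7 (T t3104 (L l43 (L l142 (T t3105 N))))))) N)))))))))))) (K a106 (M a48 (L l142 (L l477 (F (T t48 (L l104 (L l127 (T t509 (L l390 (L l453 (L l474 (T t50 (K a252 (M a169 (L l142 (F (T t48 (L l261 (L l475 (T t99 (L l262 (L l390 (L l453 (L l474 (T t50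 (K a66 (M a126 (L l309 (F (T t48 (L l261 (L l475 (T t99 (L l262 (L l390 (L l453 (L l474 (T t50 (K a192 (M a129 (L l292 (F (T t48 (L l261 (L l296 (L l306 (L l348 (L l475 (L l516 (T t3106 (K a212 (M a232 (L l351 (F (T t48 (L l261 (L l296 (L l306 (L l348 (L l475 (L l516 (T t3106 (K a149 (M a23 (F (L l491 (T t48 (L l261 (L l296 (L l475 (T t99 (L l220 (L l262 (L l268 (L l390 (L l453 (L l474 (T t50 N))))))))))))))) (K a23 (Fr a149 a189 l217 (V t3088)) N))))))))))))) (K a232 (M a212 (F (T t48 (L l261 (L l296 (L l306 (L l348 (L l475 (L l516 (T t3106 N)))))))))) N))))))))))))) (K a129 (M a192 (F (L l351 (L l390 (T t3107 (L l152 (L l262 (L l453 (T t27 N))))))))) N)))))))))))))) (K a126 (M a66 (F (T t48 (L l104 (L l127 (T t509 (L l109 (L l262 (L l390 (L l453 (L l474 (T t50 N)))))))))))) N)))))))))))))) (K a169 (M a252 (L l142 (L l393 (F (T t48 (L l43 (L l174 (L l390 (L l474 (T t3098 (L l174 (L l333 (L l369 (T t3108 (K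 a232 (M a43 (L l142 (F (T t48 (L l43 (L l174 (L l390 (L l474 (T t3098 (L l127 (L l333 (T t3109 (K a66 (Fr a126 a189 l435 (V t873)) (K a126 (M a66 (F (T t48 (L l43 (L l174 (L l390 (L l474 (T t3098 (L l252 (L l333 (L l405 (T t801 N)))))))))))) N)))))))))))))) (K a66 (Fr a126 a189 l435 (V t873)) (K a126 (M a66 (L l393 (F (T t48 (L l43 (L l174 (L l390 (L l474 (T t3098 (L l174 (L l333 (L l369 (T t3108 (K a232 (M a43 (F (T t48 (L l43 (L l174 (L l390 (L l474 (T t3098 (L l252 (L l333 (L l405 (T t801 N)))))))))))) (K a43 (M a232 (F (T t48 (L l221 (L l351 (T t3110 N)))))) N))))))))))))))) (K a43 (M a232 (L l142 (F (T t48 (L l221 (L l351 (T t3110 (K a66 (Fr a126 a189 l435 (V t509)) (K a126 (M a66 (F (T t48 (L l221 (L l351 (T t3110 N)))))) N))))))))) N)))))))))))))))))) (K a66 (M a126 (L l309 (L l477 (F (T t798 (L l390 (L l453 (L l474 (T t50 (K a192 (M a129 (L l477 (F (T t798 (L l268 (L l390 (L l453 (L l474 (T t50 (K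 a252 (M a169 (L l292 (F (T t48 (L l261 (L l296 (L l306 (L l348 (L l475 (L l516 (T t3106 (K a212 (M a232 (L l351 (F (T t48 (L l261 (L l296 (L l306 (L l348 (L l475 (L l516 (T t3106 (K a149 (M a23 (F (L l491 (T t48 (L l261 (L l296 (L l475 (T t99 (L l220 (L l262 (L l268 (L l390 (L l453 (L l474 (T t50 N))))))))))))))) (K a23 (Fr a149 a189 l217 (V t3088)) N))))))))))))) (K a232 (M a212 (F (T t48 (L l261 (L l296 (L l306 (L l348 (L l475 (L l516 (T t3106 N)))))))))) N))))))))))))) (K a169 (Fr a252 a189 l435 (V t873)) N))))))))))) (K a252 (M a169 (L l309 (F (T t48 (L l261 (L l475 (T t99 (L l262 (L l390 (L l453 (L l474 (T t50 (K a192 (M a129 (L l292 (F (T t48 (L l261 (L l296 (L l306 (L l348 (L l475 (L l516 (T t3106 (K a212 (M a232 (L l351 (F (T t48 (L l261 (L l296 (L l306 (L l348 (L l475 (L l516 (T t3106 (K a149 (M a23 (F (L l491 (T t48 (L l261 (L l296 (L l475 (T t99 (L l220 (L l262 (L l268 (L l390 (L l453 (L l474 (T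 t50 N))))))))))))))) (K a23 (Fr a149 a189 l217 (V t3088)) N))))))))))))) (K a232 (M a212 (F (T t48 (L l261 (L l296 (L l306 (L l348 (L l475 (L l516 (T t3106 N)))))))))) N))))))))))))) (K a129 (M a192 (F (L l351 (L l390 (T t3107 (L l152 (L l262 (L l453 (T t27 N))))))))) N)))))))))))))) (K a129 (M a192 (L l477 (F (L l217 (L l351 (L l390 (T t3107 (L l76 (L l104 (L l453 (T t837 (K a252 (M a169 (F (L l351 (L l390 (T t3107 (L l152 (L l262 (L l453 (T t27 N))))))))) (K a169 (Fr a252 a189 l435 (M a149 (L l393 (F (T t3088 (L l475 (T t3111 (K a232 (M a43 (F (T t3088 (L l76 (T t3112 N))))) (K a43 (Fr a232 a212 l292 (V t3088)) N))))))))) N))))))))))))) (K a169 (Fr a252 a189 l435 (V t873)) N))))))))))))) (K a126 (M a66 (L l477 (F (T t48 (L l104 (L l127 (L l475 (T t360 (L l109 (L l390 (L l453 (L l474 (T t50 (K a252 (M a169 (F (T t48 (L l104 (L l127 (T t509 (L l109 (L l262 (L l390 (L l453 (L l474 (T t50 N)))))))))))) (K a169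 (M a252 (L l393 (F (T t48 (L l43 (L l174 (L l390 (L l474 (T t3098 (L l174 (L l333 (L l369 (T t3108 (K a232 (M a43 (F (T t48 (L l43 (L l174 (L l390 (L l474 (T t3098 (L l252 (L l333 (L l405 (T t801 N)))))))))))) (K a43 (M a232 (F (T t48 (L l221 (L l351 (T t3110 N)))))) N))))))))))))))) N))))))))))))))) N)))))))))))))))) (K a170 (M a17 (L l474 (L l477 (F (L l402 (T t2281 (L l390 (T t2205 (L l9 (L l390 (L l402 (T t1279 (L l333 (L l402 (T t2279 (K a252 (M a169 (L l474 (F (L l390 (L l402 (T t3084 (L l45 (L l127 (L l261 (L l404 (T t3086 (K a2 (M a254 (F (L l441 (T t3113 (L l9 (L l42 (L l66 (L l390 (L l402 (L l466 (T t1279 (L l45 (L l127 (L l404 (T t3086 N))))))))))))))) (K a254 (M a2 (L l261 (F (L l402 (T t2281 (L l390 (T t2205 (L l9 (L l390 (L l402 (L l466 (T t1279 (L l286 (L l333 (L l402 (T t2279 (K a253 (M a255 (F (L l208 (L l402 (T t3114 (L l220 (L l292 (L l309 (T t3115 N))))))))) (K a255 (Fr a253 a1 l473 (V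 t1279)) N)))))))))))))))))) N))))))))))))) (K a169 (M a252 (L l174 (L l474 (F (L l390 (T t2205 (L l124 (L l402 (L l453 (L l465 (T t3116 (K a168 (M a171 (L l474 (F (L l390 (T t2205 (L l124 (L l402 (L l453 (L l460 (L l465 (T t3116 (K a2 (M a254 (F (L l66 (L l390 (T t2205 (L l42 (L l124 (L l402 (L l453 (L l460 (L l465 (T t3116 N)))))))))))) (K a254 (M a2 (F (L l390 (T t2205 (L l124 (L l402 (L l438 (L l453 (L l460 (L l465 (T t3116 N))))))))))) N))))))))))))) (K a2 (M a254 (L l174 (F (L l66 (L l390 (T t2205 (L l42 (L l124 (L l402 (L l453 (L l465 (T t3116 (K a168 (M a171 (F (L l66 (L l390 (T t2205 (L l42 (L l124 (L l402 (L l453 (L l460 (L l465 (T t3116 N)))))))))))) (K a171 (Fr a168 a84 l472 (V t3117)) N)))))))))))))) (K a254 (M a2 (L l174 (F (L l390 (T t2205 (L l124 (L l402 (L l438 (L l453 (L l465 (T t3116 (K a168 (M a171 (F (L l390 (T t2205 (L l124 (L l402 (L l438 (L l453 (L l460 (L l465 (T t3116 N)))))))))))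 (K a171 (Fr a168 a84 l472 (V t1279)) N))))))))))))) (K a171 (Fr a168 a84 l472 (V t1279)) N))))))))))))))) (K a2 (M a254 (L l477 (F (L l42 (L l402 (T t2281 (L l66 (L l390 (T t2205 (L l9 (L l42 (L l66 (L l390 (L l402 (T t1279 (L l42 (L l333 (L l402 (T t2279 (K a252 (M a169 (F (L l441 (T t3113 (L l9 (L l42 (L l66 (L l390 (L l402 (L l466 (T t1279 (L l45 (L l127 (L l404 (T t3086 N))))))))))))))) (K a169 (M a252 (L l174 (F (L l66 (L l390 (T t2205 (L l42 (L l124 (L l402 (L l453 (L l465 (T t3116 (K a168 (M a171 (F (L l66 (L l390 (T t2205 (L l42 (L l124 (L l402 (L l453 (L l460 (L l465 (T t3116 N)))))))))))) (K a171 (Fr a168 a84 l472 (V t3117)) N)))))))))))))) N))))))))))))))))))))) (K a254 (M a2 (L l477 (F (L l402 (T t2281 (L l390 (T t2205 (L l9 (L l390 (L l402 (T t1279 (L l333 (L l402 (T t2279 (K a252 (M a169 (L l261 (F (L l402 (T t2281 (L l390 (T t2205 (L l9 (L l390 (L l402 (L l466 (T t1279 (L l286 (L l333 (L l402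 (T t2279 (K a253 (M a255 (F (L l208 (L l402 (T t3114 (L l220 (L l292 (L l309 (T t3115 N))))))))) (K a255 (Fr a253 a1 l473 (V t1279)) N)))))))))))))))))) (K a169 (M a252 (L l174 (F (L l390 (T t2205 (L l124 (L l402 (L l438 (L l453 (L l465 (T t3116 (K a168 (M a171 (F (L l390 (T t2205 (L l124 (L l402 (L l438 (L l453 (L l460 (L l465 (T t3116 N))))))))))) (K a171 (Fr a168 a84 l472 (V t1279)) N))))))))))))) N)))))))))))))))) N))))))))))))))))))) (K a255 (M a17 (L l475 (L l477 (F (T t3084 (L l290 (T t2281 (L l290 (L l296 (T t2205 (K a252 (M a169 (L l261 (L l475 (F (T t3084 (L l290 (T t2281 (L l290 (L l296 (T t2205 (K a253 (M a254 (L l475 (F (T t3084 (L l287 (L l290 (T t2281 (L l287 (L l290 (L l293 (L l296 (T t2205 (K a87 (M a171 (F (T t3084 (L l287 (L l290 (L l366 (L l367 (T t3118 N)))))))) (K a171 (M a87 (F (T t3084 (L l287 (L l290 (T t2281 (L l287 (L l290 (L l293 (L l296 (T t2205 N))))))))))) N)))))))))))))) (K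 a254 (Fr a253 a1 l473 (V t1279)) (K a87 (M a171 (L l261 (F (T t3084 (L l290 (L l366 (L l367 (T t3118 (K a253 (M a254 (F (T t3084 (L l287 (L l290 (L l366 (L l367 (T t3118 N)))))))) (K a254 (Fr a253 a1 l473 (V t1279)) N)))))))))) (K a171 (M a87 (L l261 (F (T t3084 (L l290 (T t2281 (L l290 (L l296 (T t2205 (K a253 (M a254 (F (T t3084 (L l287 (L l290 (T t2281 (L l287 (L l290 (L l293 (L l296 (T t2205 N))))))))))) (K a254 (Fr a253 a1 l473 (V t1279)) N))))))))))) N)))))))))))))) (K a169 (M a252 (L l475 (F (T t3084 (L l290 (T t2281 (L l290 (L l296 (T t2205 (K a87 (M a171 (F (T t3084 (L l143 (L l290 (T t2281 (L l290 (L l296 (T t2205 N))))))))) (K a171 (M a87 (L l174 (F (T t3084 (L l290 (T t2281 (L l290 (L l296 (T t2205 (K a168 (M a170 (F (L l296 (T t3119 (L l124 (L l290 (L l405 (T t3120 N)))))))) (K a170 (Fr a168 a84 l472 (V t1279)) N))))))))))) N))))))))))) (K a87 (M a171 (L l477 (F (T t3084 (L l143 (L l290 (T t2281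 (L l290 (L l296 (T t2205 (K a252 (M a169 (L l261 (F (T t3084 (L l290 (L l366 (L l367 (T t3118 (K a253 (M a254 (F (T t3084 (L l287 (L l290 (L l366 (L l367 (T t3118 N)))))))) (K a254 (Fr a253 a1 l473 (V t1279)) N)))))))))) (K a169 (M a252 (F (T t3084 (L l143 (L l290 (T t2281 (L l290 (L l296 (T t2205 N))))))))) N)))))))))))) (K a171 (M a87 (L l477 (F (T t3084 (L l290 (T t2281 (L l290 (L l296 (T t2205 (K a252 (M a169 (L l261 (F (T t3084 (L l290 (T t2281 (L l290 (L l296 (T t2205 (K a253 (M a254 (F (T t3084 (L l287 (L l290 (T t2281 (L l287 (L l290 (L l293 (L l296 (T t2205 N))))))))))) (K a254 (Fr a253 a1 l473 (V t1279)) N))))))))))) (K a169 (M a252 (L l174 (F (T t3084 (L l290 (T t2281 (L l290 (L l296 (T t2205 (K a168 (M a170 (F (L l296 (T t3119 (L l124 (L l290 (L l405 (T t3120 N)))))))) (K a170 (Fr a168 a84 l472 (V t1279)) N))))))))))) N))))))))))) N)))))))))))))) (K a252 (M a169 (F (L l142 (T t89 (L l261 (T t2024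 (L l69 (L l261 (L l292 (L l475 (T t3121 (L l69 (L l261 (L l292 (L l309 (L l474 (T t3122 (L l142 (L l348 (T t3123 (K a21 (M a101 (F (T t2271 (L l124 (L l261 (L l475 (T t3124 N))))))) (K a213 (Fr a170 a255 l476 (Fr a42 a21 l68 (Fr a106 a234 l390 (Fr a192 a149 l519 (V t581))))) N)))))))))))))))))))))) (K a169 (M a252 (F (L l475 (T t52 (L l69 (L l174 (L l217 (L l474 (T t93 (L l142 (L l221 (L l351 (L l393 (T t3125 (L l69 (L l142 (L l174 (L l221 (L l474 (T t91 (L l145 (L l217 (L l309 (T t3126 N)))))))))))))))))))))))) N)))))))))))))))))))))))⟩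
def e0_63__86_3 : Ent 4 := ⟨[a0, a63], [a86, a4], (M a48 (F (T t0 (L l50 (T t1 (L l1 (T t2 (L l50 (T t3 (K a16 (M a60 (F (T t64 (L l351 (L l477 (T t43 (L l1 (L l351 (T t65 N))))))))) (K a32 (M a60 (F (T t64 (L l24 (L l28 (L l351 (L l477 (T t43 (L l1 (L l24 (L l28 (L l351 (T t65 N))))))))))))) (K a21 (M a192 (L l50 (F (T t837 (L l47 (L l347 (L l351 (T t20 (L l47 (L l347 (L l351 (T t29 (K a38 (M a55 (F (T t837 (L l142 (L l310 (T t66 N)))))) (K a55 (M a38 (F (T t27 (L l31 (L l47 (L l347 (L l351 (L l495 (T t20 (L l18 (L l142 (T t46 N)))))))))))) N)))))))))))))) (K a37 (M a192 (F (T t19 (L l47 (L l351 (T t20 (L l351 (T t21 N)))))))) (K a53 (M a192 (F (T t19 (L l351 (L l491 (T t21 (L l142 (T t31 N)))))))) (K a26 (M a192 (F (T t27 (L l351 (T t20 (L l351 (T t21 N))))))) (K a42 (M a192 (F (T t19 (L l351 (T t20 (L l28 (L l351 (T t29 N)))))))) (K a58 (M a192 (F (T t19 (L l351 (T t21 (L l54 (L l142 (L l498 (T t31 N)))))))))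 (K a15 (M a192 (F (T t1922 (L l325 (L l351 (T t20 (L l351 (L l469 (T t21 N))))))))) N))))))))))))))))))⟩
def e0_63__86_4 : Ent 4 := ⟨[a0, a63], [a86, a5], (M a60 (F (L l47 (T t116 (L l351 (L l477 (T t43 (L l47 (L l477 (T t67 (L l47 (L l474 (L l477 (T t68 (L l5 (L l477 (T t69 (K a20 (M a48 (F (T t70 (L l11 (L l14 (L l47 (T t3 (L l46 (T t71 N))))))))) (K a40 (M a48 (F (T t70 (L l47 (T t3 (L l22 (L l24 (T t71 N)))))))) (K a21 (M a192 (L l47 (F (T t2658 (L l142 (T t1516 (L l347 (L l351 (T t74 (K a37 (M a53 (F (T t2658 (L l142 (L l311 (T t613 N)))))) (K a53 (M a37 (F (T t2658 (L l142 (T t1516 (L l11 (L l142 (T t78 N)))))))) N))))))))))) (K a41 (M a192 (F (T t1334 (L l142 (T t202 (L l351 (T t73 N))))))) (K a61 (M a192 (F (T t2658 (L l142 (T t37 (L l142 (T t80 N))))))) (K a22 (M a150 (F (T t1135 (T t1136 (T t1137 N))))) (K a42 (M a192 (F (T t1334 (L l66 (L l142 (L l390 (T t1516 (L l22 (L l351 (T t74 N)))))))))) (K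 a62 (M a192 (F (T t1334 (L l66 (L l142 (L l516 (T t37 (L l66 (L l142 (L l516 (T t80 N))))))))))) (K a3 (M a48 (L l477 (F (T t1308 (L l43 (L l47 (T t64 (L l7 (L l47 (T t3 (K a252 (M a169 (F (T t1308 (L l43 (L l441 (T t451 (L l7 (L l47 (L l471 (T t3 N)))))))))) (K a169 (M a252 (F (T t1308 (L l217 (L l474 (L l475 (T t3127 N))))))) N)))))))))))) N))))))))))))))))))))))))))⟩
def e0_63__86_5 : Ent 4 := ⟨[a0, a63], [a86, a6], (M a48 (L l456 (F (T t3 (L l6 (T t1 (L l1 (T t2 (T t0 (K a16 (M a85 (L l456 (F (T t168 (L l474 (T t50 (T t51 (K a166 (M a246 (F (T t168 (L l178 (L l474 (T t50 (T t51 N))))))) (K a246 (M a166 (F (T t88 (L l14 (L l259 (L l366 (T t3128 N))))))) N))))))))) (K a32 (M a85 (L l456 (F (T t52 (L l404 (L l474 (T t50 (L l28 (T t51 (K a166 (M a246 (F (T t52 (L l178 (L l404 (L l474 (T t50 (L l28 (T t51 N))))))))) (K a246 (M a166 (F (T t52 (L l259 (L l366 (T t3128 N)))))) N))))))))))) (K a21 (M a192 (L l456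 (F (T t837 (L l47 (L l347 (L l351 (T t20 (L l47 (L l347 (L l351 (T t29 (K a166 (M a246 (F (T t28 (L l142 (L l408 (T t22 (L l47 (L l202 (L l347 (L l351 (T t29 N))))))))))) (K a246 (M a166 (F (T t28 (L l142 (L l267 (T t3129 N)))))) N)))))))))))))) (K a37 (M a192 (L l456 (F (T t19 (L l47 (L l351 (T t20 (L l351 (T t21 (K a166 (M a246 (F (T t837 (L l47 (L l202 (L l351 (T t35 (L l142 (L l408 (T t22 N)))))))))) (K a246 (M a166 (F (T t837 (L l142 (L l267 (T t3129 N)))))) N))))))))))) (K a53 (M a192 (L l456 (F (T t19 (L l351 (L l491 (T t21 (L l142 (T t31 (K a166 (M a246 (F (T t28 (L l47 (L l202 (L l351 (L l491 (T t35 (L l47 (L l202 (L l351 (L l491 (T t525 N))))))))))))) (K a246 (M a166 (F (T t28 (L l142 (L l267 (T t3129 N)))))) N))))))))))) (K a26 (M a192 (L l456 (F (T t27 (L l351 (T t20 (L l351 (T t21 (K a166 (M a246 (F (T t28 (L l142 (L l408 (T t22 (L l18 (L l202 (L l351 (T t35 N)))))))))) (K a246 (M a166 (F (T t28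 (L l142 (L l267 (T t3129 N)))))) N)))))))))) (K a42 (M a192 (L l456 (F (T t19 (L l351 (T t20 (L l28 (L l351 (T t29 (K a166 (M a246 (F (T t837 (L l142 (L l390 (L l408 (T t22 (L l28 (L l202 (L l351 (T t29 N))))))))))) (K a246 (M a166 (F (T t837 (L l142 (L l267 (L l390 (T t3129 N))))))) N))))))))))) (K a58 (M a192 (L l456 (F (T t19 (L l351 (T t21 (L l54 (L l142 (L l498 (T t31 (K a166 (M a246 (F (T t28 (L l202 (L l351 (T t35 (L l202 (L l351 (T t525 N))))))))) (K a246 (M a166 (F (T t28 (L l142 (L l267 (L l498 (T t3129 N))))))) N)))))))))))) (K a15 (M a192 (L l456 (F (T t1922 (L l325 (L l351 (T t20 (L l351 (L l469 (T t21 (K a166 (M a246 (F (T t55 (L l202 (L l351 (L l469 (T t35 (L l142 (L l325 (L l408 (T t22 N))))))))))) (K a246 (M a166 (F (T t36 (L l142 (L l267 (L l481 (T t3129 N))))))) N)))))))))))) (K a166 (M a246 (F (T t3 (L l6 (T t1 (L l1 (T t2 (T t0 (K a16 (M a60 (F (T t70 (L l9 (L l477 (T t69 (L l6 (L l14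 (L l18 (T t44 N)))))))))) (K a32 (M a60 (F (T t70 (L l9 (L l28 (L l477 (T t69 (L l6 (T t44 N))))))))) (K a21 (M a192 (F (T t28 (L l142 (L l408 (T t22 (L l47 (L l202 (L l347 (L l351 (T t29 N))))))))))) (K a37 (M a62 (F (L l28 (T t3130 (L l47 (L l124 (L l480 (T t3131 N)))))))) (K a53 (M a192 (F (T t28 (L l47 (L l202 (L l351 (L l491 (T t35 (L l47 (L l202 (L l351 (L l491 (T t525 N))))))))))))) (K a26 (M a62 (F (L l18 (T t711 (L l72 (L l124 (L l480 (T t3131 N)))))))) (K a42 (M a192 (F (T t837 (L l142 (L l390 (L l408 (T t22 (L l28 (L l202 (L l351 (T t29 N))))))))))) (K a58 (M a192 (F (T t28 (L l202 (L l351 (T t35 (L l202 (L l351 (T t525 N))))))))) (K a15 (M a192 (F (T t55 (L l202 (L l351 (L l469 (T t35 (L l142 (L l325 (L l408 (T t22 N))))))))))) N))))))))))))))))) (K a246 (M a166 (F (T t3 (L l6 (T t1 (L l1 (T t2 (T t0 (K a16 (M a36 (F (T t3132 (L l1 (L l14 (L l267 (T t3133 N))))))) (K a32 (M a12 (F (T t2470 (L l1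 (L l28 (T t866 N)))))) (K a21 (M a192 (F (T t28 (L l142 (L l267 (T t3129 N)))))) (K a37 (M a192 (F (T t837 (L l142 (L l267 (T t3129 N)))))) (K a53 (M a192 (F (T t28 (L l142 (L l267 (T t3129 N)))))) (K a26 (M a192 (F (T t28 (L l142 (L l267 (T t3129 N)))))) (K a42 (M a192 (F (T t837 (L l142 (L l267 (L l390 (T t3129 N))))))) (K a58 (M a192 (F (T t28 (L l142 (L l267 (L l498 (T t3129 N))))))) (K a15 (M a192 (F (T t36 (L l142 (L l267 (L l481 (T t3129 N))))))) N))))))))))))))))) N))))))))))))))))))))⟩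
def e0_63__86_6 : Ent 4 := ⟨[a0, a63], [a86, a7], (M a12 (L l459 (F (T t122 (T t151 (L l1 (T t152 (L l49 (T t153 (K a4 (M a5 (L l459 (F (T t1110 (T t1107 (T t3134 (T t3135 (K a244 (M a165 (L l454 (F (T t3136 (L l259 (L l474 (T t3137 (K a84 (M a164 (L l87 (F (T t1110 (L l90 (L l315 (L l457 (T t3138 (K a85 (M a87 (L l458 (F (T t1110 (L l90 (L l315 (T t3139 (K a166 (M a247 (L l456 (F (T t1110 (L l7 (L l90 (L l423 (T t3140 (L l7 (L l90 (L l315 (T t3141 (L l365 (L l408 (T t3134 (K a6 (M a246 (F (L l6 (T t1110 (L l7 (L l90 (L l142 (L l144 (L l315 (L l408 (T t3142 (L l365 (L l408 (T t3143 N)))))))))))))) (K a246 (M a6 (F (L l7 (T t3144 (L l90 (L l142 (L l144 (L l315 (L l408 (T t3145 (L l350 (T t3146 N)))))))))))) N))))))))))))))))) (K a247 (Fr a166 a167 l173 (V t3147)) N))))))))) (K a87 (Fr a85 a245 l455 (V t1600)) N)))))))))) (K a164 (M a84 (F (T t3136 (L l259 (L l474 (T t3137 N)))))) N))))))))) (K a165 (M a244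 (F (T t1110 (L l479 (T t3136 (L l407 (T t3134 (T t3135 N)))))))) N))))))))) (K a8 (M a85 (L l459 (F (T t52 (L l464 (L l474 (T t124 (L l56 (T t154 (K a244 (M a165 (F (T t52 (L l2 (L l259 (T t3148 N)))))) (K a165 (M a244 (F (T t52 (L l180 (L l464 (L l474 (T t124 (L l56 (T t154 N))))))))) N))))))))))) (K a21 (M a255 (L l459 (F (T t2486 (L l87 (L l347 (T t2031 (L l15 (L l457 (L l474 (T t2032 (K a244 (M a165 (F (T t2486 (L l7 (L l87 (L l347 (T t3149 N))))))) (K a165 (M a244 (F (T t2034 (L l87 (L l456 (T t3150 N)))))) N))))))))))))) (K a25 (M a149 (L l459 (F (T t958 (L l56 (T t5 (L l1 (T t649 (K a244 (M a165 (F (T t650 (L l56 (L l315 (T t3151 N)))))) (K a165 (M a244 (F (T t650 (L l56 (L l87 (L l124 (T t3152 N))))))) N)))))))))) (K a29 (M a192 (L l459 (F (T t836 (L l351 (L l371 (T t21 (L l142 (T t160 (K a244 (M a165 (F (T t836 (L l7 (L l351 (L l371 (T t3153 N))))))) (K a165 (M a244 (F (T t836 (L l15 (L l199 (L l351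 (L l371 (T t35 (L l87 (L l124 (T t3154 N))))))))))) N))))))))))) (K a38 (M a255 (L l459 (F (T t2999 (L l474 (T t1165 (L l87 (T t2031 (K a244 (M a165 (F (T t2999 (L l7 (L l87 (T t3149 N)))))) (K a165 (M a244 (F (T t2999 (L l87 (L l456 (T t3150 N)))))) N)))))))))) (K a42 (M a255 (L l459 (F (T t2999 (L l87 (T t2031 (L l56 (L l390 (L l457 (L l474 (T t2032 (K a244 (M a165 (F (T t2999 (L l7 (L l87 (T t3149 N)))))) (K a165 (M a244 (F (T t2999 (L l56 (L l87 (L l456 (T t3150 N))))))) N))))))))))))) (K a46 (M a192 (L l459 (F (T t836 (L l351 (T t21 (L l26 (L l142 (L l408 (T t160 (K a244 (M a165 (F (T t836 (L l7 (L l23 (L l351 (T t3153 N))))))) (K a165 (M a244 (F (T t836 (L l199 (L l351 (T t35 (L l199 (L l351 (T t776 N))))))))) N)))))))))))) (K a51 (M a44 (L l459 (F (T t3155 (L l30 (T t3156 (L l51 (T t3157 (K a244 (M a165 (F (L l30 (T t3156 (L l145 (T t3158 N)))))) (K a165 (M a244 (F (T t3159 (L l87 (T t3160 N))))) N))))))))))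 (K a244 (M a165 (F (T t122 (T t151 (L l1 (L l454 (T t152 (L l49 (L l423 (T t153 (K a4 (M a164 (L l1 (F (L l457 (T t3161 (L l7 (L l423 (T t3140 (L l310 (L l457 (T t3162 (K a5 (M a6 (F (L l457 (T t3163 (L l5 (L l474 (T t3164 N))))))) (K a6 (M a5 (L l456 (F (L l457 (T t3163 (L l6 (T t1110 (K a166 (M a246 (L l458 (F (T t3165 (L l314 (L l423 (T t3166 (L l6 (T t1110 (K a85 (M a247 (L l87 (F (L l6 (T t1110 (L l94 (L l142 (L l144 (L l315 (L l408 (T t3167 (K a84 (M a87 (F (L l6 (T t1110 (L l7 (L l90 (L l142 (L l144 (L l315 (L l408 (T t3142 (L l365 (L l408 (T t3143 N)))))))))))))) (K a87 (M a84 (F (L l262 (T t3168 (L l6 (T t1110 N)))))) N))))))))))))) (K a247 (Fr a85 a245 l455 (V t1600)) N))))))))))) (K a246 (Fr a166 a167 l173 (V t3147)) N))))))))) N))))))))))))) (K a8 (M a160 (F (T t3169 (L l7 (L l454 (T t3170 N)))))) (K a21 (M a192 (F (T t836 (L l7 (L l347 (L l351 (T t3153 N))))))) (K a25 (M a192 (F (T t836 (L l7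 (L l351 (T t3153 N)))))) (K a29 (M a192 (F (T t836 (L l7 (L l351 (L l371 (T t3153 N))))))) (K a38 (M a192 (F (T t836 (L l7 (L l351 (T t3153 N)))))) (K a42 (M a192 (F (T t836 (L l7 (L l28 (L l351 (T t3153 N))))))) (K a46 (M a192 (F (T t836 (L l7 (L l23 (L l351 (T t3153 N))))))) (K a51 (M a192 (F (T t1725 (L l7 (L l73 (L l351 (T t3153 N))))))) N))))))))))))))))))) (K a165 (M a244 (F (T t122 (L l87 (L l124 (T t3152 (L l87 (L l124 (T t3171 (K a4 (M a5 (F (T t1110 (L l479 (T t3136 (L l407 (T t3134 (T t3135 N)))))))) (K a8 (M a240 (F (L l460 (T t3172 (L l1 (L l56 (L l124 (T t3173 N)))))))) (K a21 (M a240 (F (T t3174 (L l142 (L l223 (T t3175 N)))))) (K a38 (M a48 (F (L l26 (T t610 (L l173 (T t3176 N)))))) N))))))))))))) N))))))))))))))))))))⟩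
def e0_63__86_7 : Ent 4 := ⟨[a0, a63], [a86, a8], (M a48 (F (T t3 (L l2 (T t1 (L l56 (T t2 (L l56 (T t0 (K a16 (M a60 (F (T t64 (L l14 (L l18 (L l477 (T t67 (L l52 (L l56 (L l351 (T t65 N))))))))))) (K a32 (M a60 (F (T t64 (L l477 (T t67 (L l24 (L l28 (L l52 (L l56 (L l351 (T t65 N))))))))))) (K a21 (M a192 (F (T t837 (L l47 (L l347 (L l351 (T t20 (L l47 (L l347 (L l351 (T t29 N))))))))))) (K a37 (M a192 (F (T t19 (L l47 (L l351 (T t20 (L l351 (T t21 N)))))))) (K a53 (M a192 (F (T t19 (L l351 (L l491 (T t21 (L l56 (L l142 (T t31 N))))))))) (K a26 (M a192 (F (T t27 (L l351 (T t20 (L l351 (T t21 N))))))) (K a42 (M a192 (L l56 (F (T t19 (L l351 (T t20 (L l28 (L l351 (T t29 (K a25 (M a59 (F (T t19 (L l316 (L l351 (T t3177 N)))))) (K a59 (M a25 (F (T t27 (L l351 (T t20 (L l142 (L l390 (L l501 (T t46 N))))))))) N))))))))))) (K a58 (M a192 (F (T t19 (L l351 (T t21 (L l54 (L l56 (L l142 (L l498 (T t31 N))))))))))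 (K a15 (M a192 (F (T t1922 (L l325 (L l351 (T t20 (L l351 (L l469 (T t21 N))))))))) N))))))))))))))))))⟩
def e0_63__86_8 : Ent 4 := ⟨[a0, a63], [a86, a9], (M a48 (F (T t3 (L l2 (T t1 (L l5 (T t2 (T t0 (K a16 (M a60 (F (T t64 (L l9 (L l14 (L l18 (L l477 (T t67 (L l5 (L l351 (T t65 N))))))))))) (K a32 (M a60 (F (T t64 (L l9 (L l477 (T t67 (L l5 (L l24 (L l28 (L l351 (T t65 N))))))))))) (K a21 (M a192 (F (T t837 (L l47 (L l347 (L l351 (T t20 (L l47 (L l347 (L l351 (T t29 N))))))))))) (K a37 (M a192 (F (T t19 (L l47 (L l351 (T t20 (L l351 (T t21 N)))))))) (K a53 (M a192 (F (T t19 (L l351 (L l491 (T t21 (L l142 (T t31 N)))))))) (K a26 (M a192 (F (T t27 (L l351 (T t20 (L l351 (T t21 N))))))) (K a42 (M a192 (F (T t19 (L l351 (T t20 (L l28 (L l351 (T t29 N)))))))) (K a58 (M a192 (F (T t19 (L l351 (T t21 (L l54 (L l142 (L l498 (T t31 N))))))))) (K a15 (M a192 (F (T t1922 (L l325 (L l351 (T t20 (L l351 (L l469 (T t21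 N))))))))) N)))))))))))))))))⟩
def e0_63__86_9 : Ent 4 := ⟨[a0, a63], [a86, a10], (M a12 (F (T t122 (L l54 (T t151 (T t152 (L l2 (L l54 (T t153 (K a4 (M a60 (F (T t408 (L l46 (L l50 (L l477 (T t67 (L l54 (L l351 (T t448 N)))))))))) (K a8 (M a255 (L l2 (F (T t2999 (L l462 (L l464 (L l474 (T t1165 (L l87 (T t3000 (K a9 (M a11 (F (T t2999 (L l87 (T t2139 (L l87 (T t3000 N))))))) (K a11 (M a9 (F (T t2999 (L l6 (L l456 (T t3178 N)))))) N)))))))))))) (K a21 (M a192 (F (T t836 (L l15 (L l347 (L l351 (T t450 (L l2 (L l15 (L l347 (L l351 (T t157 N)))))))))))) (K a25 (M a192 (F (T t449 (L l15 (L l351 (T t450 (L l351 (T t21 N)))))))) (K a29 (M a192 (F (T t449 (L l351 (L l371 (T t21 (L l54 (L l142 (T t160 N))))))))) (K a38 (M a192 (F (T t836 (L l351 (T t450 (L l351 (T t21 N))))))) (K a42 (M a192 (L l54 (F (T t449 (L l351 (T t450 (L l2 (L l56 (L l351 (T t157 (K a26 (M a58 (F (T t156 (L l318 (L l351 (T t3179 N)))))) (K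 a58 (M a26 (F (T t156 (L l351 (T t450 (L l142 (L l390 (L l498 (T t681 N))))))))) N)))))))))))) (K a46 (M a192 (F (T t449 (L l351 (T t21 (L l26 (L l54 (L l142 (L l408 (T t160 N)))))))))) (K a51 (M a192 (F (T t496 (L l351 (L l415 (T t450 (L l351 (L l439 (T t21 N))))))))) N))))))))))))))))))⟩
def e0_63__86_10 : Ent 4 := ⟨[a0, a63], [a86, a11], (M a48 (F (T t132 (L l2 (L l7 (T t1 (L l7 (T t2 (L l7 (T t3 (L l7 (T t0 (K a16 (M a60 (F (T t64 (L l7 (L l351 (L l477 (T t43 (L l351 (T t65 N))))))))) (K a32 (M a60 (F (T t64 (L l7 (L l24 (L l28 (L l351 (L l477 (T t43 (L l24 (L l28 (L l351 (T t65 N))))))))))))) (K a21 (M a192 (F (T t837 (L l47 (L l347 (L l351 (T t20 (L l47 (L l347 (L l351 (T t29 N))))))))))) (K a37 (M a192 (F (T t19 (L l47 (L l351 (T t20 (L l351 (T t21 N)))))))) (K a53 (M a192 (F (T t19 (L l351 (L l491 (T t21 (L l142 (T t31 N)))))))) (K a26 (M a56 (F (L l2 (T t133 (L l55 (T t134 (L l12 (L l18 (T t135 N)))))))))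 (K a42 (M a192 (F (T t19 (L l351 (T t20 (L l28 (L l351 (T t29 N)))))))) (K a58 (M a192 (F (T t19 (L l351 (T t21 (L l54 (L l142 (L l498 (T t31 N))))))))) (K a15 (M a3 (F (T t797 (L l55 (L l63 (T t137 (L l55 (L l63 (T t87 N))))))))) N)))))))))))))))))))))⟩
def e0_63__86_11 : Ent 4 := ⟨[a0, a63], [a86, a12], (M a48 (F (T t48 (L l3 (T t1 (L l3 (T t2 (L l3 (T t3 (L l3 (T t0 (K a16 (M a60 (F (T t138 (L l9 (L l14 (L l18 (L l477 (T t67 (L l351 (T t65 N)))))))))) (K a32 (M a60 (F (T t138 (L l9 (L l477 (T t67 (L l24 (L l28 (L l351 (T t65 N)))))))))) (K a21 (M a192 (F (T t1922 (L l47 (L l326 (L l347 (L l351 (T t20 (L l47 (L l347 (L l351 (T t29 N)))))))))))) (K a37 (M a192 (F (T t36 (L l47 (L l326 (L l351 (T t20 (L l351 (L l470 (T t21 N)))))))))) (K a53 (M a192 (F (T t55 (L l351 (L l470 (L l491 (T t21 (L l142 (T t31 N))))))))) (K a26 (M a192 (F (T t1922 (L l326 (L l351 (T t20 (L l351 (L l470 (T t21 N))))))))) (K a42 (M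 a192 (F (T t36 (L l326 (L l351 (T t20 (L l28 (L l351 (T t29 N))))))))) (K a58 (M a192 (F (T t1922 (L l351 (L l470 (T t21 (L l54 (L l142 (L l498 (T t31 N)))))))))) (K a15 (M a192 (L l3 (F (T t1922 (L l325 (L l326 (L l351 (T t20 (L l351 (L l469 (L l470 (T t21 (K a13 (M a14 (F (T t55 (L l351 (L l469 (L l470 (T t35 (L l142 (L l325 (L l326 (T t22 N))))))))))) (K a14 (M a13 (F (T t55 (L l351 (L l469 (L l470 (T t35 (L l142 (L l325 (L l326 (T t22 N))))))))))) N)))))))))))))) N))))))))))))))))))))⟩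
def e0_63__86_12 : Ent 4 := ⟨[a0, a63], [a86, a13], (M a48 (F (T t48 (L l3 (T t1 (L l3 (L l5 (T t2 (L l3 (T t3 (L l3 (T t0 (K a16 (M a60 (F (T t42 (L l14 (L l18 (L l477 (T t67 (L l5 (L l351 (T t65 N)))))))))) (K a32 (M a60 (F (T t42 (L l477 (T t67 (L l5 (L l24 (L l28 (L l351 (T t65 N)))))))))) (K a21 (M a192 (F (T t837 (L l47 (L l347 (L l351 (T t20 (L l47 (L l347 (L l351 (T t29 N))))))))))) (K a37 (M a49 (F (L l59 (T t142 (L l5 (L l477 (T t143 (L l25 (L l28 (T t144 N)))))))))) (K a53 (M a192 (F (T t19 (L l351 (L l491 (T t21 (L l142 (T t31 N)))))))) (K a26 (M a192 (F (T t27 (L l351 (T t20 (L l351 (T t21 N))))))) (K a42 (M a192 (F (T t19 (L l351 (T t20 (L l28 (L l351 (T t29 N)))))))) (K a58 (M a192 (F (T t19 (L l351 (T t21 (L l54 (L l142 (L l498 (T t31 N))))))))) (K a15 (M a12 (F (T t145 (L l59 (L l73 (T t122 (L l59 (L l73 (T t146 N))))))))) N)))))))))))))))))))))⟩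
def e0_63__86_13 : Ent 4 := ⟨[a0, a63], [a86, a14], (M a48 (F (T t132 (L l3 (L l6 (T t1 (L l3 (T t2 (L l3 (T t3 (L l3 (T t0 (K a16 (M a60 (F (T t42 (L l14 (L l18 (L l477 (T t67 (L l351 (T t65 N))))))))) (K a32 (M a60 (F (T t42 (L l477 (T t67 (L l24 (L l28 (L l351 (T t65 N))))))))) (K a21 (M a192 (F (T t837 (L l47 (L l347 (L l351 (T t20 (L l47 (L l347 (L l351 (T t29 N))))))))))) (K a37 (M a192 (F (T t19 (L l47 (L l351 (T t20 (L l351 (T t21 N)))))))) (K a53 (M a192 (F (T t19 (L l351 (L l491 (T t21 (L l142 (T t31 N)))))))) (K a26 (M a50 (F (L l60 (T t147 (L l6 (L l474 (L l477 (T t148 (L l16 (L l18 (L l348 (T t149 N)))))))))))) (K a42 (M a192 (F (T t19 (L l351 (T t20 (L l28 (L l351 (T t29 N)))))))) (K a58 (M a192 (F (T t19 (L l351 (T t21 (L l54 (L l142 (L l498 (T t31 N))))))))) (K a15 (M a12 (F (T t145 (L l73 (T t122 (L l73 (T t146 N))))))) N)))))))))))))))))))))⟩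
def e0_63__86_14 : Ent 4 := ⟨[a0, a63], [a86, a15], (M a12 (F (T t150 (L l73 (T t122 (L l73 (T t151 (L l73 (T t152 (L l73 (T t153 (K a4 (M a85 (F (L l469 (T t168 (L l327 (L l474 (T t124 (T t154 N)))))))) (K a8 (M a85 (F (L l469 (T t52 (L l327 (L l464 (L l474 (T t124 (L l56 (T t154 N)))))))))) (K a21 (M a192 (F (T t1725 (L l15 (L l347 (L l351 (L l481 (T t450 (L l15 (L l347 (L l351 (T t157 N)))))))))))) (K a25 (M a192 (F (T t496 (L l15 (L l351 (L l481 (T t450 (L l351 (L l469 (T t21 N)))))))))) (K a29 (M a192 (F (T t159 (L l351 (L l371 (L l469 (T t21 (L l142 (T t160 N))))))))) (K a38 (M a192 (F (T t1725 (L l351 (L l481 (T t450 (L l351 (L l469 (T t21 N))))))))) (K a42 (M a192 (F (T t496 (L l351 (L l481 (T t450 (L l56 (L l351 (T t157 N))))))))) (K a46 (M a192 (F (T t1725 (L l351 (L l469 (T t21 (L l26 (L l142 (L l408 (T t160 N)))))))))) (K a51 (M a68 (L l73 (F (T t2173 (L l142 (T t163 (L l124 (L l142 (L l439 (L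 l469 (L l513 (T t164 (K a39 (M a27 (F (T t2174 (L l63 (T t166 N))))) (K a27 (M a39 (F (T t2174 (L l63 (T t167 N))))) N)))))))))))))) N))))))))))))))))))))⟩
def e0_63__86_15 : Ent 4 := ⟨[a0, a63], [a86, a20], (M a48 (F (T t2 (L l11 (T t1 (L l11 (L l14 (T t3 (T t0 (K a16 (M a149 (L l14 (F (T t4 (T t5 (T t6 (K a24 (M a28 (F (T t5 (L l142 (T t181 (T t6 N)))))) (K a28 (M a24 (F (T t4 (L l10 (L l46 (T t3180 N)))))) N)))))))) (K a32 (M a85 (F (L l11 (T t52 (L l404 (L l474 (T t50 (L l28 (T t51 N))))))))) (K a21 (M a149 (L l11 (F (T t4 (L l142 (T t13 (L l14 (L l18 (T t14 (K a22 (M a23 (L l348 (F (T t184 (L l19 (L l369 (T t172 (K a150 (M a214 (L l350 (F (T t184 (L l19 (L l369 (T t172 (K a85 (M a215 (L l87 (F (T t4 (L l65 (L l473 (T t3181 (K a84 (Fr a87 a151 l349 (V t184)) (K a87 (M a84 (F (T t184 (L l369 (T t3182 N))))) N))))))))) (K a215 (M a85 (F (T t3183 (L l19 (L l369 (T t172 N)))))) N))))))))) (K a214 (M a150 (F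 (T t184 (L l239 (L l346 (T t3184 N)))))) N))))))))) (K a23 (M a22 (F (T t4 (L l142 (T t13 (L l14 (L l18 (T t14 N)))))))) N))))))))))) (K a37 (M a192 (F (T t837 (L l47 (L l351 (T t20 (L l351 (T t21 N)))))))) (K a53 (M a192 (F (T t837 (L l351 (L l491 (T t21 (L l142 (T t31 N)))))))) (K a26 (M a192 (F (T t837 (L l351 (T t20 (L l351 (T t21 N))))))) (K a42 (M a192 (F (T t837 (L l351 (T t20 (L l28 (L l351 (T t29 N)))))))) (K a58 (M a192 (F (T t837 (L l351 (T t21 (L l54 (L l142 (L l498 (T t31 N))))))))) (K a15 (M a192 (F (T t2113 (L l325 (L l351 (T t20 (L l351 (L l469 (T t21 N))))))))) N))))))))))))))))))⟩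
def e0_63__86_16 : Ent 4 := ⟨[a0, a63], [a86, a22], (M a48 (L l348 (F (L l11 (T t1 (L l66 (T t2 (L l11 (T t3 (L l66 (T t0 (K a16 (M a149 (L l348 (F (T t4 (L l66 (T t5 (L l66 (T t6 (K a150 (M a214 (F (T t184 (L l66 (L l218 (L l474 (T t424 (L l66 (T t6 N))))))))) (K a214 (M a150 (F (T t184 (L l66 (T t3185 N))))) N)))))))))) (K a32 (M a149 (L l348 (F (T t184 (L l28 (L l66 (T t5 (L l28 (L l66 (T t6 (K a150 (M a214 (F (T t184 (L l28 (L l66 (L l142 (L l516 (T t1245 (L l28 (L l66 (T t6 N))))))))))) (K a214 (M a150 (F (T t11 (L l28 (L l66 (T t3185 N)))))) N)))))))))))) (K a21 (M a149 (L l11 (L l348 (F (T t4 (L l142 (T t13 (L l18 (T t14 (K a20 (M a23 (L l348 (F (T t184 (L l19 (L l369 (T t172 (K a150 (M a214 (L l350 (F (T t184 (L l19 (L l369 (T t172 (K a85 (M a215 (L l87 (F (T t4 (L l65 (L l473 (T t3181 (K a84 (Fr a87 a151 l349 (V t184)) (K a87 (M a84 (F (T t184 (L l369 (T t3182 N))))) N))))))))) (K a215 (M a85 (F (T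 t3183 (L l19 (L l369 (T t172 N)))))) N))))))))) (K a214 (M a150 (F (T t184 (L l239 (L l346 (T t3184 N)))))) N))))))))) (K a150 (M a214 (L l11 (F (T t184 (L l18 (T t14 (L l142 (L l516 (T t13 (K a20 (M a23 (L l350 (F (T t184 (L l19 (L l369 (T t172 (K a85 (M a215 (L l87 (F (T t4 (L l65 (L l473 (T t3181 (K a84 (Fr a87 a151 l349 (V t184)) (K a87 (M a84 (F (T t184 (L l369 (T t3182 N))))) N))))))))) (K a215 (M a85 (F (T t3183 (L l19 (L l369 (T t172 N)))))) N))))))))) (K a23 (M a20 (F (T t4 (L l19 (L l50 (L l374 (T t183 N))))))) N))))))))))) (K a214 (M a150 (L l11 (F (T t184 (T t3186 (K a20 (M a23 (F (T t184 (L l239 (L l346 (T t3184 N)))))) (K a23 (M a20 (F (T t4 (L l239 (L l297 (L l349 (L l474 (T t3187 N)))))))) N))))))) (K a23 (M a20 (L l348 (F (T t4 (L l19 (L l50 (T t183 (K a150 (M a214 (F (T t4 (L l19 (L l50 (L l374 (T t183 N))))))) (K a214 (M a150 (F (T t4 (L l239 (L l297 (L l349 (L l474 (T t3187 N)))))))) N)))))))))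 N))))))))))))) (K a37 (M a101 (L l51 (L l348 (F (T t313 (T t334 (T t314 (K a52 (M a7 (L l348 (F (T t334 (L l142 (T t3188 (T t431 (K a150 (M a214 (F (T t334 (L l142 (L l516 (T t3188 (T t431 N))))))) (K a214 (M a150 (F (T t313 (L l69 (T t3189 N))))) N))))))))) (K a150 (M a214 (L l51 (F (T t334 (L l142 (L l516 (T t3188 (T t431 (K a52 (M a7 (F (T t334 (L l142 (L l516 (T t3188 (T t431 N))))))) (K a7 (M a52 (L l459 (F (T t313 (L l1 (T t82 (K a244 (M a165 (F (T t334 (L l49 (L l423 (T t83 N)))))) (K a165 (M a244 (L l203 (F (T t313 (L l1 (T t82 (K a180 (M a135 (F (T t313 (L l1 (T t82 N))))) (K a135 (Fr a180 a116 l418 (V t1306)) N)))))))) N)))))))) N)))))))))) (K a214 (M a150 (L l51 (F (T t313 (L l279 (T t3190 (K a52 (M a7 (F (T t313 (L l69 (T t3189 N))))) (K a7 (Fr a52 a199 l494 (V t3191)) N)))))))) (K a7 (M a52 (L l348 (L l459 (F (T t313 (L l1 (T t82 (K a244 (M a165 (L l348 (F (T t313 (L l1 (L l454 (T t82 (K a150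 (M a214 (F (T t334 (L l49 (L l423 (T t83 N)))))) (K a214 (Fr a150 a199 l494 (M a229 (L l313 (F (L l235 (T t3192 (L l229 (T t314 (K a71 (Fr a135 a180 l203 (V t3191)) (K a135 (M a71 (F (L l235 (T t3193 (L l229 (T t314 N)))))) N)))))))))) N))))))))) (K a165 (M a244 (L l348 (F (T t313 (L l1 (T t82 (K a150 (M a214 (L l203 (F (T t313 (L l1 (T t82 (K a180 (M a135 (F (T t313 (L l1 (T t82 N))))) (K a135 (Fr a180 a116 l418 (V t1306)) N)))))))) (K a214 (Fr a150 a199 l494 (V t3191)) N)))))))) (K a150 (M a214 (L l459 (F (T t313 (L l1 (T t82 (K a244 (M a165 (F (T t334 (L l49 (L l423 (T t83 N)))))) (K a165 (M a244 (L l203 (F (T t313 (L l1 (T t82 (K a180 (M a135 (F (T t313 (L l1 (T t82 N))))) (K a135 (Fr a180 a116 l418 (V t1306)) N)))))))) N)))))))) (K a214 (Fr a150 a199 l494 (V t3191)) N))))))))))) N))))))))))) (K a53 (M a192 (L l348 (F (T t19 (L l351 (L l491 (T t21 (L l66 (L l142 (T t31 (K a150 (M a214 (F (T t28 (L l11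 (L l47 (L l163 (L l351 (L l491 (T t35 (L l11 (L l47 (L l163 (L l351 (L l491 (T t525 N))))))))))))))) (K a214 (M a150 (F (T t19 (L l35 (L l294 (L l297 (L l351 (L l491 (T t3194 N))))))))) N)))))))))))) (K a26 (M a154 (L l16 (L l348 (F (T t493 (T t327 (T t527 (K a18 (M a30 (L l348 (F (T t327 (L l54 (L l142 (T t3195 (T t2000 (K a150 (M a214 (F (T t327 (L l54 (L l142 (L l516 (T t3195 (T t2000 N)))))))) (K a214 (M a150 (F (T t1998 (T t3196 N)))) N)))))))))) (K a150 (M a214 (L l16 (F (T t327 (L l54 (L l142 (L l516 (T t3195 (T t2000 (K a18 (M a30 (F (T t327 (L l54 (L l142 (L l516 (T t3195 (T t2000 N)))))))) (K a30 (M a18 (L l372 (F (T t473 (L l19 (L l69 (L l369 (L l477 (T t637 (K a210 (M a90 (F (T t493 (L l19 (L l72 (L l369 (T t3197 N))))))) (K a90 (M a210 (L l92 (F (T t473 (L l18 (L l66 (L l69 (L l474 (L l477 (T t3198 (K a82 (M a94 (F (T t493 (L l19 (L l72 (L l345 (L l369 (T t3197 N)))))))) (K a94 (Fr a82 a146 l342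 (V t326)) N)))))))))))) N))))))))))) N))))))))))) (K a214 (M a150 (L l16 (F (T t1998 (T t3199 (K a18 (M a30 (F (T t1998 (T t3196 N)))) (K a30 (M a18 (F (T t473 (L l19 (L l69 (L l369 (L l477 (T t3200 N)))))))) N))))))) (K a30 (M a18 (L l348 (F (T t473 (L l19 (L l69 (L l369 (L l477 (T t637 (K a150 (M a214 (L l372 (F (T t473 (L l19 (L l69 (L l369 (L l477 (T t637 (K a210 (M a90 (F (T t493 (L l19 (L l72 (L l369 (T t3197 N))))))) (K a90 (M a210 (L l92 (F (T t473 (L l18 (L l66 (L l69 (L l474 (L l477 (T t3198 (K a82 (M a94 (F (T t493 (L l19 (L l72 (L l345 (L l369 (T t3197 N)))))))) (K a94 (Fr a82 a146 l342 (V t326)) N)))))))))))) N))))))))))) (K a214 (M a150 (F (T t473 (L l19 (L l69 (L l369 (L l477 (T t3200 N)))))))) N))))))))))) N))))))))))) (K a42 (M a170 (L l66 (L l348 (F (T t316 (L l54 (T t3070 (L l87 (T t514 (K a2 (M a62 (L l348 (F (T t319 (L l42 (T t825 (K a150 (M a214 (F (T t319 (L l42 (T t825 N))))) (K a214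 (M a150 (F (T t319 (L l294 (L l297 (L l306 (L l351 (T t3074 N)))))))) N)))))))) (K a150 (M a214 (L l66 (F (T t319 (L l87 (L l350 (T t514 (L l54 (T t3070 (K a2 (M a62 (F (T t319 (L l42 (T t825 N))))) (K a62 (M a2 (L l516 (F (T t319 (L l36 (T t339 (L l87 (L l350 (T t514 (K a194 (M a106 (F (T t3201 (L l36 (L l486 (T t339 N)))))) (K a106 (M a194 (L l142 (F (T t319 (L l26 (L l102 (T t3202 (L l87 (L l144 (L l350 (T t514 (K a66 (M a126 (F (T t3203 (L l36 (T t339 N))))) (K a126 (Fr a66 a130 l306 (V t3204)) N))))))))))))) N))))))))))) N))))))))))) (K a214 (M a150 (L l66 (F (T t319 (T t3205 (K a2 (M a62 (F (T t319 (L l294 (L l297 (L l306 (L l351 (T t3074 N)))))))) (K a62 (M a2 (F (T t316 (L l294 (L l432 (T t3206 N)))))) N))))))) (K a62 (M a2 (L l348 (F (T t316 (L l36 (T t339 (L l87 (T t514 (K a150 (M a214 (L l516 (F (T t319 (L l36 (T t339 (L l87 (L l350 (T t514 (K a194 (M a106 (F (T t3201 (L l36 (L l486 (T t339 N))))))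 (K a106 (M a194 (L l142 (F (T t319 (L l26 (L l102 (T t3202 (L l87 (L l144 (L l350 (T t514 (K a66 (M a126 (F (T t3203 (L l36 (T t339 N))))) (K a126 (Fr a66 a130 l306 (V t3204)) N))))))))))))) N))))))))))) (K a214 (M a150 (F (T t316 (L l294 (L l432 (T t3206 N)))))) N)))))))))) N))))))))))))) (K a58 (M a192 (L l348 (F (T t19 (L l351 (T t21 (L l54 (L l66 (L l142 (L l498 (T t31 (K a150 (M a214 (F (T t28 (L l11 (L l163 (L l351 (T t35 (L l11 (L l163 (L l351 (T t525 N))))))))))) (K a214 (M a150 (F (T t19 (L l294 (L l297 (L l351 (T t3194 N))))))) N))))))))))))) (K a15 (M a192 (L l348 (F (T t1922 (L l325 (L l351 (T t20 (L l351 (L l469 (T t21 (K a150 (M a214 (F (T t55 (L l11 (L l163 (L l351 (L l469 (T t35 (L l142 (L l325 (L l516 (T t22 N)))))))))))) (K a214 (M a150 (F (T t2113 (L l294 (L l297 (L l337 (L l351 (T t3194 N)))))))) N)))))))))))) (K a150 (M a214 (F (L l11 (T t1 (L l66 (T t2 (L l11 (T t3 (L l66 (T t0 (K a16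 (M a85 (F (L l11 (L l18 (T t52 (L l218 (L l474 (T t50 (L l66 (T t51 N)))))))))) (K a32 (M a85 (F (L l11 (T t52 (L l218 (L l404 (L l474 (T t50 (L l28 (L l66 (T t51 N))))))))))) (K a21 (M a149 (L l11 (F (T t184 (L l18 (T t14 (L l142 (L l516 (T t13 (K a20 (M a23 (L l350 (F (T t184 (L l19 (L l369 (T t172 (K a85 (M a215 (L l87 (F (T t4 (L l65 (L l473 (T t3181 (K a84 (Fr a87 a151 l349 (V t184)) (K a87 (M a84 (F (T t184 (L l369 (T t3182 N))))) N))))))))) (K a215 (M a85 (F (T t3183 (L l19 (L l369 (T t172 N)))))) N))))))))) (K a23 (M a20 (F (T t4 (L l19 (L l50 (L l374 (T t183 N))))))) N))))))))))) (K a37 (M a101 (L l51 (F (T t334 (L l142 (L l516 (T t3188 (T t431 (K a52 (M a7 (F (T t334 (L l142 (L l516 (T t3188 (T t431 N))))))) (K a7 (M a52 (L l459 (F (T t313 (L l1 (T t82 (K a244 (M a165 (F (T t334 (L l49 (L l423 (T t83 N)))))) (K a165 (M a244 (L l203 (F (T t313 (L l1 (T t82 (K a180 (M a135 (F (T t313 (L l1 (T t82 N)))))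 (K a135 (Fr a180 a116 l418 (V t1306)) N)))))))) N)))))))) N)))))))))) (K a53 (M a192 (F (T t28 (L l11 (L l47 (L l163 (L l351 (L l491 (T t35 (L l11 (L l47 (L l163 (L l351 (L l491 (T t525 N))))))))))))))) (K a26 (M a154 (L l16 (F (T t327 (L l54 (L l142 (L l516 (T t3195 (T t2000 (K a18 (M a30 (F (T t327 (L l54 (L l142 (L l516 (T t3195 (T t2000 N)))))))) (K a30 (M a18 (L l372 (F (T t473 (L l19 (L l69 (L l369 (L l477 (T t637 (K a210 (M a90 (F (T t493 (L l19 (L l72 (L l369 (T t3197 N))))))) (K a90 (M a210 (L l92 (F (T t473 (L l18 (L l66 (L l69 (L l474 (L l477 (T t3198 (K a82 (M a94 (F (T t493 (L l19 (L l72 (L l345 (L l369 (T t3197 N)))))))) (K a94 (Fr a82 a146 l342 (V t326)) N)))))))))))) N))))))))))) N))))))))))) (K a42 (M a106 (L l66 (F (T t304 (L l28 (T t579 (L l163 (L l351 (T t551 (K a2 (M a62 (L l474 (F (T t304 (L l11 (L l350 (T t602 (K a170 (M a254 (L l218 (F (T t309 (L l11 (L l350 (T t602 (K a130 (Fr a190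 a126 l432 (V t825)) (K a190 (M a130 (F (T t309 (L l188 (T t596 N))))) N))))))))) (K a254 (M a170 (F (T t3207 (L l42 (L l438 (T t825 N)))))) N))))))))) (K a62 (M a2 (F (T t304 (L l19 (L l28 (L l369 (T t342 N))))))) N))))))))))) (K a58 (M a192 (F (T t28 (L l11 (L l163 (L l351 (T t35 (L l11 (L l163 (L l351 (T t525 N))))))))))) (K a15 (M a192 (F (T t55 (L l11 (L l163 (L l351 (L l469 (T t35 (L l142 (L l325 (L l516 (T t22 N)))))))))))) N))))))))))))))))))) (K a214 (M a150 (F (L l11 (T t1 (L l66 (T t2 (L l11 (T t3 (L l66 (T t0 (K a16 (M a20 (F (T t239 (L l239 (L l474 (T t3208 N)))))) (K a32 (M a20 (F (L l24 (T t239 (L l239 (L l404 (L l474 (T t3208 N)))))))) (K a21 (M a20 (F (L l19 (T t3209 (L l239 (L l297 (L l474 (T t3187 (L l239 (L l474 (T t3210 N))))))))))) (K a37 (M a52 (F (T t82 (L l279 (L l366 (T t3211 N)))))) (K a53 (M a192 (F (T t19 (L l35 (L l294 (L l297 (L l351 (L l491 (T t3194 N))))))))) (K a26 (M a154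 (L l16 (F (T t1998 (T t3199 (K a18 (M a30 (F (T t1998 (T t3196 N)))) (K a30 (M a18 (F (T t473 (L l19 (L l69 (L l369 (L l477 (T t3200 N)))))))) N))))))) (K a42 (M a62 (F (T t825 (L l294 (L l351 (T t3212 (L l294 (L l351 (T t3213 N))))))))) (K a58 (M a192 (F (T t19 (L l294 (L l297 (L l351 (T t3194 N))))))) (K a15 (M a192 (F (T t2113 (L l294 (L l297 (L l337 (L l351 (T t3194 N)))))))) N))))))))))))))))))) N))))))))))))))))))))))⟩
def e0_63__86_17 : Ent 4 := ⟨[a0, a63], [a86, a23], (M a149 (F (T t5 (L l11 (T t175 (T t176 (L l142 (T t177 (K a192 (M a53 (F (T t178 (L l236 (T t179 (L l236 (L l296 (T t180 N)))))))) (K a21 (M a48 (L l11 (F (T t4 (L l142 (T t13 (L l18 (T t14 (K a20 (M a22 (F (T t4 (L l142 (T t13 (L l14 (L l18 (T t14 N)))))))) (K a22 (M a20 (L l348 (F (T t4 (L l19 (L l50 (T t183 (K a150 (M a214 (F (T t4 (L l19 (L l50 (L l374 (T t183 N))))))) (K a214 (M a150 (F (T t4 (L l239 (L l297 (L l349 (L l474 (T t3187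 N)))))))) N))))))))) N)))))))))) (K a85 (M a60 (L l87 (F (T t1034 (L l11 (L l474 (L l477 (T t68 (L l142 (L l144 (L l145 (L l477 (T t463 (K a84 (M a87 (F (T t1534 (L l11 (L l474 (L l477 (T t68 (L l11 (L l140 (L l142 (L l144 (L l346 (L l350 (T t3214 N)))))))))))))) (K a87 (M a84 (L l349 (F (T t461 (T t3215 (L l11 (L l474 (L l475 (L l477 (T t68 (K a151 (M a215 (F (L l477 (T t3216 (L l142 (L l145 (L l219 (T t1414 (L l11 (L l219 (T t3217 N))))))))))) (K a215 (M a151 (L l350 (F (T t3218 (L l11 (L l474 (L l475 (L l477 (T t68 (K a20 (Fr a150 a148 l163 (V t1441)) (K a150 (Fr a20 a40 l64 (V t3219)) N))))))))))) N)))))))))))) N))))))))))))))) (K a213 (Fr a106 a192 l519 (Fr a42 a21 l68 (Fr a170 a234 l390 (Fr a255 a85 l476 (V t582))))) (K a42 (M a48 (F (T t11 (L l142 (L l390 (T t13 (L l54 (T t14 N)))))))) (K a106 (M a48 (L l142 (F (L l11 (T t1 (L l498 (T t14 (L l390 (L l498 (T t6 (L l390 (T t26 (K a66 (M a126 (F (T t780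 (L l390 (L l498 (T t6 N)))))) (K a126 (M a66 (F (L l11 (T t1 (L l498 (T t14 (L l390 (L l498 (T t6 (L l390 (T t26 N))))))))))) N)))))))))))))) (K a170 (M a48 (L l474 (F (T t4 (L l11 (L l462 (T t1 (L l142 (L l390 (T t13 (K a2 (M a254 (F (T t184 (L l6 (L l11 (L l462 (T t1 (L l142 (L l390 (T t13 N)))))))))) (K a254 (M a2 (F (T t184 (L l438 (T t339 N))))) N)))))))))))) (K a191 (M a16 (F (T t112 (L l142 (T t190 (L l213 (T t191 N))))))) (K a255 (M a16 (F (T t112 (L l142 (L l266 (T t190 (L l289 (L l296 (T t191 N))))))))) N)))))))))))))))))⟩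
def e0_63__86_18 : Ent 4 := ⟨[a0, a63], [a86, a24], (M a48 (F (T t1 (T t2 (L l14 (T t3 (T t0 (K a16 (M a20 (F (L l52 (T t2163 (L l351 (L l459 (T t3220 (L l52 (T t239 N))))))))) (K a32 (M a60 (F (T t64 (L l14 (L l477 (T t67 (L l24 (L l28 (L l52 (L l351 (T t65 N))))))))))) (K a21 (M a192 (F (T t837 (L l47 (L l347 (L l351 (T t20 (L l47 (L l347 (L l351 (T t29 N))))))))))) (K a37 (M a192 (F (T t27 (L l47 (L l351 (T t20 (L l351 (T t21 N)))))))) (K a53 (M a192 (F (T t837 (L l351 (L l491 (T t21 (L l142 (T t31 N)))))))) (K a26 (M a192 (L l12 (F (T t27 (L l351 (T t20 (L l351 (T t21 (K a25 (M a27 (F (T t28 (L l142 (T t22 (L l15 (L l18 (L l351 (T t35 N))))))))) (K a27 (M a25 (F (T t28 (L l52 (L l54 (T t3221 N)))))) N)))))))))) (K a42 (M a192 (F (T t837 (L l351 (T t20 (L l28 (L l351 (T t29 N)))))))) (K a58 (M a192 (F (T t837 (L l351 (T t21 (L l54 (L l142 (L l498 (T t31 N))))))))) (K a15 (M a192 (F (T t2113 (L l325 (L l351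 (T t20 (L l351 (L l469 (T t21 N))))))))) N))))))))))))))))⟩
def e0_63__86_19 : Ent 4 := ⟨[a0, a63], [a86, a25], (M a85 (F (L l56 (T t88 (L l15 (T t52 (L l56 (L l142 (T t89 (L l474 (T t90 (K a64 (M a16 (F (T t101 (L l56 (T t97 (L l56 (L l116 (T t98 N)))))))) (K a192 (M a16 (F (L l127 (T t96 (L l56 (L l339 (T t97 (L l56 (L l296 (T t98 N)))))))))) (K a21 (M a60 (L l15 (F (T t936 (L l474 (L l477 (T t114 (L l65 (T t523 (K a17 (M a29 (F (T t936 (L l18 (L l71 (T t1802 N)))))) (K a29 (M a17 (F (T t3042 (L l50 (L l359 (T t2281 N)))))) N))))))))))) (K a149 (M a23 (F (L l56 (T t1941 (L l220 (L l474 (T t2096 (L l19 (L l56 (L l348 (T t3222 (L l15 (L l53 (L l477 (T t3223 N))))))))))))))) (K a213 (Fr a170 a255 l476 (Fr a42 a21 l68 (Fr a106 a234 l390 (Fr a192 a149 l519 (V t581))))) (K a42 (M a59 (F (L l26 (T t106 (L l390 (L l474 (T t105 (L l26 (T t3224 (L l15 (L l390 (L l474 (T t3225 N))))))))))))) (K a106 (M a48 (L l142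 (F (T t99 (L l15 (T t1 (L l390 (L l474 (T t50 (K a66 (M a126 (F (T t780 (L l390 (L l474 (T t50 N)))))) (K a126 (M a66 (F (T t1699 (L l15 (T t1 (L l109 (L l390 (L l474 (T t50 N))))))))) N))))))))))) (K a170 (M a16 (L l474 (F (L l404 (T t113 (L l56 (L l390 (T t98 (L l56 (L l390 (L l404 (T t97 (L l404 (T t174 (K a2 (M a254 (F (L l404 (T t113 (L l56 (L l66 (L l390 (T t98 (L l56 (L l66 (L l390 (L l404 (T t97 (L l404 (T t174 N))))))))))))))) (K a254 (M a2 (F (L l404 (T t113 (L l15 (L l432 (T t824 N))))))) N)))))))))))))))) (K a255 (M a16 (F (L l56 (T t112 (L l289 (T t113 (L l56 (L l289 (L l296 (T t98 N)))))))))) N))))))))))))))))))))⟩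
def e0_63__86_20 : Ent 4 := ⟨[a0, a63], [a86, a26], (M a85 (F (L l54 (T t88 (L l18 (T t52 (L l54 (L l142 (T t89 (L l474 (T t90 (K a64 (M a48 (F (T t99 (L l474 (T t50 (L l54 (T t1194 N))))))) (K a192 (M a4 (F (L l95 (T t1399 (L l54 (L l489 (T t519 (L l54 (L l296 (T t131 N)))))))))) (K a21 (M a48 (L l18 (F (T t99 (L l47 (T t100 (L l474 (T t50 (K a16 (M a31 (F (L l474 (T t2085 (L l54 (L l142 (L l340 (T t3226 (L l474 (T t50 (L l54 (L l92 (L l351 (L l354 (T t3227 N))))))))))))))) (K a31 (Fr a16 a32 l40 (V t3228)) N)))))))))) (K a149 (M a23 (F (L l54 (T t1941 (L l220 (L l474 (T t2096 (L l16 (L l54 (L l348 (T t3222 (L l18 (L l57 (L l477 (T t3223 N))))))))))))))) (K a213 (Fr a170 a255 l476 (Fr a42 a21 l68 (Fr a106 a234 l390 (Fr a192 a149 l519 (V t581))))) (K a42 (M a58 (F (L l28 (T t120 (L l390 (L l474 (T t119 (L l28 (T t3229 (L l18 (L l390 (L l474 (T t3230 N))))))))))))) (K a106 (M a12 (L l142 (F (T t1368 (L l18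 (T t122 (L l390 (L l474 (T t124 (K a66 (M a126 (F (T t3231 (L l390 (L l474 (T t124 N)))))) (K a126 (M a66 (F (T t1601 (L l18 (T t122 (L l109 (L l390 (L l474 (T t124 N))))))))) N))))))))))) (K a170 (M a4 (L l474 (F (L l464 (T t130 (L l54 (L l390 (T t131 (L l54 (L l390 (L l464 (T t519 (L l464 (T t938 (K a2 (M a254 (F (L l464 (T t130 (L l54 (L l66 (L l390 (T t131 (L l54 (L l66 (L l390 (L l464 (T t519 (L l464 (T t938 N))))))))))))))) (K a254 (M a2 (F (L l464 (T t130 (L l18 (L l432 (T t824 N))))))) N)))))))))))))))) (K a255 (M a4 (F (L l54 (T t129 (L l265 (T t130 (L l54 (L l265 (L l296 (T t131 N)))))))))) N))))))))))))))))))))⟩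
def e0_63__86_21 : Ent 4 := ⟨[a0, a63], [a86, a27], (M a48 (F (T t48 (L l73 (T t1 (L l73 (T t2 (L l73 (T t3 (L l17 (L l73 (T t0 (K a16 (M a60 (F (T t138 (L l17 (L l351 (L l477 (T t43 (L l17 (L l351 (T t65 N)))))))))) (K a32 (M a60 (F (T t138 (L l17 (L l24 (L l28 (L l351 (L l477 (T t43 (L l17 (L l24 (L l28 (L l351 (T t65 N)))))))))))))) (K a21 (M a192 (F (T t837 (L l47 (L l347 (L l351 (T t20 (L l47 (L l347 (L l351 (T t29 N))))))))))) (K a37 (M a192 (F (T t19 (L l47 (L l351 (T t20 (L l351 (T t21 N)))))))) (K a53 (M a192 (F (T t19 (L l351 (L l491 (T t21 (L l142 (T t31 N)))))))) (K a26 (M a24 (F (T t3232 (L l54 (L l73 (T t3180 (L l16 (L l54 (L l55 (L l72 (L l348 (T t3233 N)))))))))))) (K a42 (M a192 (F (T t19 (L l351 (T t20 (L l28 (L l351 (T t29 N)))))))) (K a58 (M a192 (F (T t19 (L l351 (T t21 (L l54 (L l142 (L l498 (T t31 N))))))))) (K a15 (M a51 (F (T t3234 (L l3 (T t1294 (L l7 (L l474 (L l477 (T t1901 N)))))))))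 N)))))))))))))))))))))⟩
def e0_63__86_22 : Ent 4 := ⟨[a0, a63], [a86, a28], (M a48 (F (T t1 (T t2 (L l14 (T t3 (L l13 (T t0 (K a16 (M a20 (F (T t2163 (T t239 (L l351 (L l459 (T t240 (L l351 (T t241 N))))))))) (K a32 (M a60 (F (T t64 (L l14 (L l477 (T t67 (L l24 (L l28 (L l351 (T t65 N)))))))))) (K a21 (M a192 (F (T t837 (L l47 (L l347 (L l351 (T t20 (L l47 (L l347 (L l351 (L l362 (T t29 N)))))))))))) (K a37 (M a192 (F (T t27 (L l47 (L l351 (T t20 (L l351 (T t21 N)))))))) (K a53 (M a192 (F (T t837 (L l351 (L l491 (T t21 (L l142 (T t31 N)))))))) (K a26 (M a192 (F (T t27 (L l351 (T t20 (L l351 (T t21 N))))))) (K a42 (M a192 (F (T t837 (L l351 (T t20 (L l28 (L l351 (L l362 (T t29 N))))))))) (K a58 (M a192 (F (T t837 (L l351 (T t21 (L l54 (L l142 (L l498 (T t31 N))))))))) (K a15 (M a192 (F (T t1922 (L l325 (L l351 (T t20 (L l351 (L l469 (T t21 N))))))))) N)))))))))))))))))⟩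
def e0_63__86_23 : Ent 4 := ⟨[a0, a63], [a86, a29], (M a48 (F (T t2 (L l15 (T t1 (L l15 (T t3 (L l13 (T t0 (K a16 (M a60 (F (T t42 (L l14 (L l15 (L l18 (L l477 (T t67 (L l351 (T t65 N)))))))))) (K a32 (M a60 (F (T t42 (L l15 (L l477 (T t67 (L l24 (L l28 (L l351 (T t65 N)))))))))) (K a21 (M a192 (L l15 (F (T t27 (L l47 (L l347 (L l351 (L l371 (T t20 (L l47 (L l347 (L l351 (L l371 (T t29 (K a17 (M a25 (F (T t27 (L l47 (L l347 (L l351 (L l371 (T t20 (L l10 (L l18 (L l142 (T t46 N)))))))))))) (K a25 (M a17 (F (T t27 (L l347 (L l351 (L l371 (T t242 N))))))) N)))))))))))))))) (K a37 (M a192 (F (T t19 (L l47 (L l351 (L l371 (T t20 (L l351 (L l371 (T t21 N)))))))))) (K a53 (M a192 (F (T t19 (L l351 (L l371 (L l491 (T t21 (L l142 (T t31 N))))))))) (K a26 (M a192 (F (T t27 (L l351 (L l371 (T t20 (L l351 (L l371 (T t21 N))))))))) (K a42 (M a192 (F (T t19 (L l351 (L l371 (T t20 (L l28 (L l351 (L l371 (T t29 N))))))))))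 (K a58 (M a192 (F (T t19 (L l351 (L l371 (T t21 (L l54 (L l142 (L l498 (T t31 N)))))))))) (K a15 (M a192 (F (T t1922 (L l325 (L l351 (L l371 (T t20 (L l351 (L l371 (L l469 (T t21 N))))))))))) N))))))))))))))))))⟩
def e0_63__86_24 : Ent 4 := ⟨[a0, a63], [a86, a30], (M a48 (F (T t48 (L l63 (T t1 (L l63 (T t2 (L l63 (T t3 (L l13 (L l63 (T t0 (K a16 (M a60 (F (T t64 (L l14 (L l18 (L l477 (T t67 (L l351 (T t65 N))))))))) (K a32 (M a60 (F (T t64 (L l477 (T t67 (L l24 (L l28 (L l351 (T t65 N))))))))) (K a21 (M a192 (F (T t837 (L l47 (L l347 (L l351 (T t20 (L l47 (L l347 (L l351 (T t29 N))))))))))) (K a37 (M a192 (F (T t19 (L l47 (L l351 (T t20 (L l351 (T t21 N)))))))) (K a53 (M a192 (F (T t19 (L l351 (L l491 (T t21 (L l142 (T t31 N)))))))) (K a26 (M a18 (F (L l369 (T t243 (L l54 (L l63 (T t244 (L l12 (L l54 (L l57 (L l60 (L l369 (T t245 N))))))))))))) (K a42 (M a192 (F (T t19 (L l351 (T t20 (L l28 (L l351 (T t29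 N)))))))) (K a58 (M a192 (F (T t19 (L l351 (T t21 (L l54 (L l142 (L l498 (T t31 N))))))))) (K a15 (M a60 (F (T t3235 (L l7 (L l477 (T t67 (L l73 (T t64 N)))))))) N)))))))))))))))))))))⟩
def e0_63__86_25 : Ent 4 := ⟨[a0, a63], [a86, a31], (M a12 (F (T t151 (L l13 (L l18 (T t122 (L l18 (T t152 (T t153 (K a4 (M a60 (F (L l13 (T t398 (L l18 (L l46 (L l50 (L l477 (T t67 (L l17 (L l351 (T t448 N)))))))))))) (K a8 (M a60 (F (L l13 (T t398 (L l18 (L l477 (T t67 (L l17 (L l52 (L l56 (L l351 (T t448 N)))))))))))) (K a21 (M a192 (L l18 (F (T t836 (L l13 (L l15 (L l347 (L l351 (L l375 (T t450 (L l13 (L l15 (L l347 (L l351 (L l375 (T t157 (K a16 (M a26 (F (T t156 (L l13 (L l15 (L l347 (L l351 (L l375 (T t450 (L l50 (L l142 (T t681 N)))))))))))) (K a26 (M a16 (F (T t468 (L l347 (L l351 (L l375 (T t223 N))))))) N)))))))))))))))))) (K a25 (M a192 (F (T t449 (L l13 (L l15 (L l351 (L l375 (T t450 (L l351 (L l375 (T t21 N)))))))))))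 (K a29 (M a28 (F (T t2739 (L l477 (T t3236 (L l15 (L l17 (L l18 (L l59 (L l369 (L l474 (T t3237 (L l17 (L l369 (T t3238 N))))))))))))))) (K a38 (M a192 (F (T t156 (L l13 (L l351 (L l375 (T t450 (L l351 (L l375 (T t21 N)))))))))) (K a42 (M a192 (F (T t449 (L l13 (L l351 (L l375 (T t450 (L l13 (L l56 (L l351 (L l375 (T t157 N)))))))))))) (K a46 (M a192 (F (T t449 (L l351 (L l375 (T t21 (L l26 (L l142 (L l408 (T t160 N)))))))))) (K a51 (M a192 (F (T t1725 (L l13 (L l351 (L l375 (L l415 (T t450 (L l351 (L l375 (L l439 (T t21 N)))))))))))) N))))))))))))))))))⟩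
def e0_63__86_26 : Ent 4 := ⟨[a0, a63], [a86, a40], (M a48 (F (T t1 (L l22 (T t2 (T t3 (L l22 (L l24 (T t0 (K a16 (M a85 (F (L l18 (T t52 (L l392 (L l474 (T t50 (L l22 (T t51 N))))))))) (K a32 (M a85 (L l24 (F (T t52 (L l392 (L l404 (L l474 (T t50 (L l22 (L l28 (T t51 (K a36 (M a44 (F (T t52 (L l392 (L l404 (L l474 (T t50 (L l22 (L l28 (T t51 N)))))))))) (K a44 (M a36 (F (L l52 (T t256 (L l392 (L l404 (L l474 (T t50 N)))))))) N))))))))))))) (K a21 (M a192 (F (T t837 (L l47 (L l347 (L l351 (T t20 (L l24 (L l47 (L l347 (L l351 (T t29 N)))))))))))) (K a37 (M a192 (F (T t19 (L l47 (L l351 (T t20 (L l351 (T t21 N)))))))) (K a53 (M a192 (F (T t19 (L l351 (L l491 (T t21 (L l22 (L l142 (T t31 N))))))))) (K a26 (M a192 (F (T t837 (L l351 (T t20 (L l351 (T t21 N))))))) (K a42 (M a149 (L l22 (F (T t11 (L l142 (L l390 (T t13 (L l54 (T t14 (K a41 (M a43 (F (T t11 (L l25 (L l65 (T t3239 N)))))) (K a43 (M a41 (F (T t11 (L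 l142 (L l390 (L l393 (T t13 (L l54 (T t14 N))))))))) N))))))))))) (K a58 (M a192 (F (T t19 (L l351 (T t21 (L l22 (L l54 (L l142 (L l498 (T t31 N)))))))))) (K a15 (M a192 (F (T t36 (L l325 (L l351 (T t20 (L l351 (L l469 (T t21 N))))))))) N))))))))))))))))))⟩
def e0_63__86_27 : Ent 4 := ⟨[a0, a63], [a86, a41], (M a48 (F (L l65 (T t1 (L l22 (T t2 (L l65 (T t3 (L l22 (T t0 (K a16 (M a85 (F (L l22 (T t168 (L l474 (T t50 (L l22 (T t51 N)))))))) (K a32 (M a85 (F (L l65 (T t52 (L l404 (L l474 (T t50 (L l22 (L l28 (T t51 N)))))))))) (K a21 (M a154 (L l65 (F (T t526 (T t327 (L l47 (T t527 (K a1 (M a61 (F (T t526 (L l22 (T t18 N))))) (K a61 (M a1 (F (T t526 (L l18 (L l29 (L l474 (T t295 N))))))) N))))))))) (K a37 (M a192 (L l25 (F (T t19 (L l47 (L l351 (T t20 (L l351 (T t21 (K a33 (M a45 (F (T t27 (L l47 (L l65 (L l351 (T t35 (L l142 (T t22 N))))))))) (K a45 (M a33 (F (T t27 (L l142 (L l366 (L l395 (T t3240 N)))))))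 N))))))))))) (K a53 (M a192 (F (T t19 (L l351 (L l491 (T t21 (L l22 (L l142 (T t31 N))))))))) (K a26 (M a192 (L l57 (F (T t837 (L l351 (T t20 (L l351 (T t21 (K a56 (M a11 (F (T t28 (L l142 (T t22 (L l18 (L l65 (L l351 (T t35 N))))))))) (K a11 (M a56 (F (T t28 (L l55 (T t134 N))))) N)))))))))) (K a42 (M a149 (L l22 (F (T t11 (L l142 (L l390 (T t13 (L l54 (T t14 (K a40 (M a43 (F (T t11 (L l25 (L l65 (T t3239 N)))))) (K a43 (M a40 (F (T t11 (L l28 (L l57 (L l69 (T t3241 N))))))) N))))))))))) (K a58 (M a192 (F (T t19 (L l351 (T t21 (L l22 (L l54 (L l142 (L l498 (T t31 N)))))))))) (K a15 (M a192 (F (T t1922 (L l325 (L l351 (T t20 (L l351 (L l469 (T t21 N))))))))) N)))))))))))))))))))⟩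
def e0_63__86_28 : Ent 4 := ⟨[a0, a63], [a86, a43], (M a48 (F (T t1 (L l22 (T t2 (L l27 (T t3 (L l22 (T t0 (K a16 (M a60 (F (T t64 (L l22 (L l477 (T t69 (L l22 (L l459 (T t268 N))))))))) (K a32 (M a60 (F (T t64 (L l22 (L l28 (L l477 (T t69 (L l22 (L l28 (L l459 (T t268 N))))))))))) (K a21 (M a192 (F (T t837 (L l47 (L l347 (L l351 (T t20 (L l47 (L l347 (L l351 (T t29 N))))))))))) (K a37 (M a192 (F (T t19 (L l47 (L l351 (T t20 (L l351 (T t21 N)))))))) (K a53 (M a192 (F (T t19 (L l351 (L l491 (T t21 (L l22 (L l142 (L l393 (T t31 N)))))))))) (K a26 (M a192 (F (T t837 (L l351 (T t20 (L l351 (T t21 N))))))) (K a42 (M a192 (L l22 (F (T t19 (L l351 (T t20 (L l28 (L l351 (T t29 (K a40 (M a41 (F (T t27 (L l351 (T t20 (L l142 (L l390 (L l393 (T t46 N))))))))) (K a41 (M a40 (F (T t27 (L l66 (L l142 (L l390 (L l393 (T t269 N)))))))) N))))))))))) (K a58 (M a192 (F (T t19 (L l351 (T t21 (L l22 (L l54 (L l142 (L l393 (L l498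 (T t31 N))))))))))) (K a15 (M a192 (F (T t1922 (L l325 (L l351 (T t20 (L l351 (L l469 (T t21 N))))))))) N))))))))))))))))))⟩
def e0_63__86_29 : Ent 4 := ⟨[a0, a63], [a86, a44], (M a48 (F (T t1 (T t2 (L l23 (T t3 (L l24 (T t0 (K a16 (M a60 (F (T t64 (L l14 (L l18 (L l477 (T t67 (L l24 (L l351 (T t65 N)))))))))) (K a32 (M a40 (F (T t3242 (T t271 (T t272 (T t273 N)))))) (K a21 (M a192 (F (T t837 (L l47 (L l347 (L l351 (T t20 (L l24 (L l47 (L l347 (L l351 (T t29 N)))))))))))) (K a37 (M a192 (F (T t27 (L l47 (L l351 (T t20 (L l351 (T t21 N)))))))) (K a53 (M a192 (F (T t837 (L l351 (L l491 (T t21 (L l142 (T t31 N)))))))) (K a26 (M a192 (F (T t27 (L l351 (T t20 (L l351 (T t21 N))))))) (K a42 (M a192 (F (T t837 (L l351 (T t20 (L l24 (L l28 (L l351 (T t29 N))))))))) (K a58 (M a192 (F (T t837 (L l351 (T t21 (L l54 (L l142 (L l498 (T t31 N))))))))) (K a15 (M a192 (F (T t55 (L l325 (L l351 (T t20 (L l351 (L l469 (T t21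 N))))))))) N)))))))))))))))))⟩
def e0_63__86_30 : Ent 4 := ⟨[a0, a63], [a86, a45], (M a48 (F (T t48 (L l63 (T t1 (L l63 (T t2 (L l23 (L l63 (T t3 (L l63 (T t0 (K a16 (M a60 (F (T t42 (L l14 (L l18 (L l477 (T t67 (L l351 (T t65 N))))))))) (K a32 (M a60 (F (T t42 (L l477 (T t67 (L l24 (L l28 (L l351 (T t65 N))))))))) (K a21 (M a192 (F (T t837 (L l47 (L l347 (L l351 (T t20 (L l47 (L l347 (L l351 (T t29 N))))))))))) (K a37 (M a33 (F (L l477 (T t274 (L l47 (L l63 (L l351 (L l366 (T t275 (L l21 (L l47 (L l51 (L l59 (T t276 N)))))))))))))) (K a53 (M a192 (F (T t19 (L l351 (L l491 (T t21 (L l142 (T t31 N)))))))) (K a26 (M a192 (F (T t27 (L l351 (T t20 (L l351 (T t21 N))))))) (K a42 (M a192 (F (T t19 (L l351 (T t20 (L l28 (L l351 (T t29 N)))))))) (K a58 (M a192 (F (T t19 (L l351 (T t21 (L l54 (L l142 (L l498 (T t31 N))))))))) (K a15 (M a60 (F (T t1308 (L l7 (L l477 (T t67 (L l59 (L l73 (T t64 N))))))))) N)))))))))))))))))))))⟩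
def e0_63__86_31 : Ent 4 := ⟨[a0, a63], [a86, a46], (M a48 (F (T t1 (L l26 (T t2 (L l23 (T t3 (L l26 (T t0 (K a16 (M a60 (F (T t64 (L l14 (L l18 (L l477 (T t67 (L l26 (L l351 (T t65 N)))))))))) (K a32 (M a60 (F (T t64 (L l477 (T t67 (L l24 (L l26 (L l28 (L l351 (T t65 N)))))))))) (K a21 (M a192 (F (T t837 (L l47 (L l347 (L l351 (T t20 (L l47 (L l347 (L l351 (T t29 N))))))))))) (K a37 (M a192 (F (T t19 (L l47 (L l351 (T t20 (L l351 (T t21 N)))))))) (K a53 (M a192 (F (T t19 (L l351 (L l491 (T t21 (L l26 (L l142 (L l408 (T t31 N)))))))))) (K a26 (M a192 (F (T t837 (L l351 (T t20 (L l351 (T t21 N))))))) (K a42 (M a192 (L l26 (F (T t19 (L l351 (T t20 (L l28 (L l351 (T t29 (K a34 (M a38 (F (T t27 (L l351 (T t20 (L l142 (L l390 (L l408 (T t46 N))))))))) (K a38 (M a34 (F (T t27 (L l56 (L l142 (L l390 (L l408 (T t679 N)))))))) N))))))))))) (K a58 (M a192 (F (T t19 (L l351 (T t21 (L l26 (L l54 (L l142 (L l408 (L l498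 (T t31 N))))))))))) (K a15 (M a192 (F (T t1922 (L l325 (L l351 (T t20 (L l351 (L l469 (T t21 N))))))))) N))))))))))))))))))⟩
def e0_63__86_32 : Ent 4 := ⟨[a0, a63], [a86, a47], (M a12 (F (T t122 (L l23 (L l28 (T t151 (T t152 (L l28 (T t153 (K a4 (M a60 (F (L l23 (T t680 (L l27 (L l46 (L l50 (L l477 (T t67 (L l23 (L l28 (L l351 (T t448 N))))))))))))) (K a8 (M a60 (F (L l23 (T t680 (L l27 (L l477 (T t67 (L l23 (L l28 (L l52 (L l56 (L l351 (T t448 N))))))))))))) (K a21 (M a192 (F (T t836 (L l15 (L l347 (L l351 (T t450 (L l15 (L l347 (L l351 (T t157 N))))))))))) (K a25 (M a192 (F (T t449 (L l15 (L l351 (T t450 (L l351 (T t21 N)))))))) (K a29 (M a192 (F (T t449 (L l351 (L l371 (T t21 (L l28 (L l142 (L l411 (T t160 N)))))))))) (K a38 (M a192 (F (T t836 (L l351 (T t450 (L l351 (T t21 N))))))) (K a42 (M a192 (L l28 (F (T t449 (L l351 (T t450 (L l56 (L l351 (T t157 (K a32 (M a37 (F (T t156 (L l351 (T t450 (L l142 (L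 l390 (L l411 (T t681 N))))))))) (K a37 (M a32 (F (T t836 (L l47 (L l351 (T t1819 N)))))) N))))))))))) (K a46 (M a44 (F (T t683 (L l26 (L l27 (L l28 (L l474 (T t684 (L l474 (L l477 (T t685 N))))))))))) (K a51 (M a192 (F (T t1725 (L l351 (L l415 (T t450 (L l351 (L l439 (T t21 N))))))))) N))))))))))))))))))⟩
def e0_63__86_33 : Ent 4 := ⟨[a0, a63], [a86, a60], (M a48 (F (T t48 (L l63 (T t1 (L l63 (T t2 (L l63 (T t3 (L l63 (T t0 (K a16 (M a85 (F (L l434 (T t168 (L l442 (L l474 (T t50 (T t51 N)))))))) (K a32 (M a85 (F (L l434 (T t52 (L l404 (L l442 (L l474 (T t50 (L l28 (T t51 N)))))))))) (K a21 (M a192 (F (T t1922 (L l47 (L l347 (L l351 (L l506 (T t20 (L l47 (L l347 (L l351 (T t29 N)))))))))))) (K a37 (M a192 (F (T t36 (L l47 (L l351 (L l506 (T t20 (L l351 (L l434 (T t21 N)))))))))) (K a53 (M a192 (F (T t55 (L l351 (L l434 (L l491 (T t21 (L l142 (T t31 N))))))))) (K a26 (M a192 (F (T t1922 (L l351 (L l506 (T t20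 (L l351 (L l434 (T t21 N))))))))) (K a42 (M a192 (F (T t36 (L l351 (L l506 (T t20 (L l28 (L l351 (T t29 N))))))))) (K a58 (M a192 (F (T t1922 (L l351 (L l434 (T t21 (L l54 (L l142 (L l498 (T t31 N)))))))))) (K a15 (M a80 (L l63 (F (T t58 (L l142 (T t59 (L l92 (L l142 (L l434 (L l469 (L l483 (T t60 (K a45 (M a30 (F (T t1831 (L l39 (L l366 (L l474 (T t293 N))))))) (K a30 (M a45 (F (T t1831 (L l39 (T t294 N))))) N)))))))))))))) N))))))))))))))))))))⟩
def e0_63__86_34 : Ent 4 := ⟨[a0, a63], [a86, a61], (M a48 (F (T t2 (L l35 (L l65 (T t1 (L l65 (T t3 (T t0 (K a16 (M a85 (F (T t88 (L l474 (T t50 (T t51 N)))))) (K a32 (M a85 (F (L l65 (T t52 (L l404 (L l474 (T t50 (L l28 (T t51 N))))))))) (K a21 (M a154 (L l65 (F (T t526 (T t327 (L l35 (L l47 (T t527 (K a1 (M a41 (F (T t526 (L l474 (T t3243 (L l35 (L l47 (T t2000 N)))))))) (K a41 (M a1 (F (T t526 (L l18 (L l29 (L l474 (T t295 N))))))) N)))))))))) (K a37 (M a192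 (F (T t19 (L l35 (L l47 (L l351 (L l515 (T t20 (L l351 (L l515 (T t21 N))))))))))) (K a53 (M a49 (F (T t297 (L l369 (T t296 (L l31 (L l47 (L l59 (L l65 (T t298 (L l59 (T t299 N)))))))))))) (K a26 (M a192 (F (T t27 (L l35 (L l351 (L l515 (T t20 (L l351 (L l515 (T t21 N)))))))))) (K a42 (M a192 (F (T t19 (L l35 (L l351 (L l515 (T t20 (L l28 (L l35 (L l351 (L l515 (T t29 N)))))))))))) (K a58 (M a192 (F (T t19 (L l351 (L l515 (T t21 (L l54 (L l142 (L l498 (T t31 N)))))))))) (K a15 (M a192 (F (T t1922 (L l35 (L l325 (L l351 (L l515 (T t20 (L l351 (L l469 (L l515 (T t21 N)))))))))))) N))))))))))))))))))⟩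
def e0_63__86_35 : Ent 4 := ⟨[a0, a63], [a86, a62], (M a48 (F (T t1 (L l36 (L l66 (T t2 (T t3 (L l66 (T t0 (K a16 (M a85 (F (L l18 (T t52 (L l474 (T t50 (L l36 (L l66 (T t51 N))))))))) (K a32 (M a85 (F (T t52 (L l404 (L l474 (T t50 (L l28 (L l36 (L l66 (T t51 N)))))))))) (K a21 (M a192 (F (T t837 (L l47 (L l347 (L l351 (T t20 (L l47 (L l347 (L l351 (T t29 N))))))))))) (K a37 (M a192 (F (T t19 (L l47 (L l351 (T t20 (L l351 (T t21 N)))))))) (K a53 (M a192 (F (T t19 (L l351 (L l491 (T t21 (L l66 (L l142 (L l516 (T t31 N)))))))))) (K a26 (M a192 (F (T t837 (L l351 (T t20 (L l351 (T t21 N))))))) (K a42 (M a170 (L l66 (F (T t316 (L l36 (L l54 (T t3070 (L l87 (T t514 (K a2 (M a22 (F (T t319 (L l87 (T t514 (L l36 (L l54 (T t3070 N)))))))) (K a22 (M a2 (L l348 (F (T t316 (L l36 (T t339 (L l87 (T t514 (K a150 (M a214 (L l516 (F (T t319 (L l36 (T t339 (L l87 (L l350 (T t514 (K a194 (M a106 (F (T t3201 (L l36 (L l486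 (T t339 N)))))) (K a106 (M a194 (L l142 (F (T t319 (L l26 (L l102 (T t3202 (L l87 (L l144 (L l350 (T t514 (K a66 (M a126 (F (T t3203 (L l36 (T t339 N))))) (K a126 (Fr a66 a130 l306 (V t3204)) N))))))))))))) N))))))))))) (K a214 (M a150 (F (T t316 (L l294 (L l432 (T t3206 N)))))) N)))))))))) N))))))))))) (K a58 (M a50 (F (T t301 (L l54 (L l60 (L l66 (T t302 (T t303 N)))))))) (K a15 (M a192 (F (T t1922 (L l325 (L l351 (T t20 (L l351 (L l469 (T t21 N))))))))) N))))))))))))))))))⟩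
def e0_63__86_36 : Ent 4 := ⟨[a0, a63], [a86, a64], (M a48 (F (T t1 (T t2 (T t3 (T t0 (K a16 (M a60 (F (T t64 (L l14 (L l18 (L l477 (T t67 (L l351 (T t65 N))))))))) (K a32 (M a60 (F (T t64 (L l477 (T t67 (L l24 (L l28 (L l351 (T t65 N))))))))) (K a21 (M a101 (F (T t687 (L l18 (T t334 (L l18 (T t314 N))))))) (K a37 (M a52 (F (T t82 (T t83 (L l21 (L l28 (T t84 N))))))) (K a53 (M a12 (F (T t151 (T t443 (L l47 (T t146 N)))))) (K a26 (M a56 (F (T t133 (T t134 (L l12 (L l18 (T t135 N))))))) (K a42 (M a101 (F (T t333 (T t334 (L l54 (T t314 N)))))) (K a58 (M a12 (F (T t443 (T t122 (T t146 N))))) (K a15 (M a4 (F (T t129 (L l63 (T t528 (T t520 N)))))) N)))))))))))))))⟩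
def e0_63__86_37 : Ent 4 := ⟨[a0, a63], [a86, a65], (M a48 (F (T t1 (T t2 (T t3 (T t0 (K a16 (M a60 (F (T t64 (L l14 (L l18 (L l477 (T t67 (L l351 (T t65 N))))))))) (K a32 (M a60 (F (T t64 (L l477 (T t67 (L l24 (L l28 (L l351 (T t65 N))))))))) (K a21 (M a192 (F (T t28 (L l47 (L l347 (L l351 (T t20 (L l47 (L l347 (L l351 (T t29 N))))))))))) (K a37 (M a192 (F (T t19 (L l47 (L l351 (T t20 (L l351 (T t21 N)))))))) (K a53 (M a192 (F (T t19 (L l351 (L l491 (T t21 (L l142 (T t31 N)))))))) (K a26 (M a192 (F (T t27 (L l351 (T t20 (L l351 (T t21 N))))))) (K a42 (M a192 (F (T t19 (L l351 (T t20 (L l28 (L l351 (T t29 N)))))))) (K a58 (M a192 (F (T t19 (L l351 (T t21 (L l54 (L l142 (L l498 (T t31 N))))))))) (K a15 (M a192 (F (T t36 (L l325 (L l351 (T t20 (L l351 (L l469 (T t21 N))))))))) N)))))))))))))))⟩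
def e0_63__86_38 : Ent 4 := ⟨[a0, a63], [a86, a66], (M a48 (L l142 (F (T t1 (T t2 (T t3 (T t0 (K a16 (M a106 (F (T t304 (L l76 (L l309 (T t586 (L l18 (T t306 N)))))))) (K a32 (M a106 (F (T t304 (L l28 (L l76 (L l309 (T t586 (T t306 N)))))))) (K a21 (M a106 (F (L l309 (T t777 (L l76 (L l347 (L l351 (T t551 (L l47 (L l76 (T t579 N))))))))))) (K a37 (M a106 (F (L l351 (T t564 (L l309 (T t777 (L l28 (L l47 (L l76 (T t579 N)))))))))) (K a53 (M a106 (F (L l47 (T t778 (L l76 (L l351 (L l491 (T t551 (L l47 (T t599 N)))))))))) (K a26 (M a106 (F (T t304 (L l18 (L l87 (T t310 (L l76 (T t579 N)))))))) (K a42 (M a106 (F (T t304 (L l28 (L l76 (T t579 (L l76 (L l351 (T t551 N))))))))) (K a58 (M a106 (F (T t778 (L l76 (L l351 (T t551 (T t599 N))))))) (K a15 (M a106 (F (T t779 (T t599 (L l76 (L l309 (L l339 (T t586 N)))))))) (K a106 (M a126 (F (T t1 (T t780 (K a16 (M a240 (F (T t781 (L l87 (L l364 (L l459 (T t782 N)))))))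 (K a32 (M a240 (F (T t781 (L l87 (L l459 (T t782 N)))))) N)))))) (K a126 (M a106 (F (T t304 (T t1 (L l76 (L l309 (T t586 N))))))) N))))))))))))))))))⟩
def e0_63__86_39 : Ent 4 := ⟨[a0, a63], [a86, a67], (M a60 (L l145 (F (T t116 (L l307 (L l477 (T t67 (L l307 (L l351 (L l477 (T t43 (L l307 (L l474 (L l477 (T t68 (L l307 (L l477 (T t69 (K a20 (M a48 (L l145 (F (T t2 (T t64 (L l11 (L l459 (L l474 (T t235 (K a124 (M a105 (F (T t64 (L l76 (L l121 (L l348 (L l350 (T t1120 N)))))))) (K a105 (M a124 (F (T t70 (L l87 (L l127 (L l346 (T t1121 N))))))) N))))))))))) (K a40 (M a170 (L l145 (F (T t317 (L l87 (L l477 (T t1122 (T t1123 (K a124 (M a105 (F (L l348 (T t3244 (L l140 (L l142 (L l388 (T t1142 (L l22 (L l142 (T t434 N))))))))))) (K a105 (M a124 (F (T t317 (L l143 (T t1126 (L l351 (L l515 (T t1127 N)))))))) N)))))))))) (K a21 (M a105 (F (T t1128 (L l11 (L l307 (T t404 (L l11 (T t405 N)))))))) (K a41 (M a105 (F (T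 t1129 (T t1128 (T t405 N))))) (K a61 (M a149 (L l145 (F (T t176 (L l142 (L l477 (T t1021 (T t1130 (K a124 (M a105 (F (L l348 (T t1131 (L l76 (L l307 (T t2712 (L l76 (L l140 (L l142 (T t177 N))))))))))) (K a105 (M a124 (F (T t176 (L l76 (T t1133 (L l392 (L l474 (T t1134 N)))))))) N)))))))))) (K a22 (M a150 (L l145 (F (T t1135 (T t1136 (L l76 (T t1137 (K a124 (Fr a105 a195 l518 (V t1138)) (K a105 (M a124 (F (L l76 (T t1133 (L l143 (T t1126 (L l143 (L l392 (L l515 (T t1139 N)))))))))) N))))))))) (K a42 (M a105 (F (T t1129 (L l66 (T t1128 (L l66 (T t405 N))))))) (K a62 (M a16 (L l145 (F (T t1140 (L l66 (T t97 (L l66 (T t1141 (K a124 (M a105 (F (L l307 (T t404 (L l66 (T t97 N)))))) (K a105 (M a124 (F (L l66 (T t97 (L l76 (T t1133 N)))))) N)))))))))) (K a3 (M a105 (L l307 (L l477 (F (L l475 (T t1129 (L l309 (T t1128 (T t405 (K a252 (M a169 (L l307 (F (L l142 (T t1142 (L l261 (L l348 (L l475 (T t1220 (T t406 (K a131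 (Fr a195 a150 l518 (V t1153)) (K a195 (M a131 (L l297 (F (L l474 (T t1145 (L l87 (L l228 (L l309 (T t1146 (L l228 (L l295 (T t405 (K a233 (M a214 (F (L l295 (L l474 (T t1147 (L l142 (L l228 (L l293 (T t1148 (L l228 (L l250 (L l293 (L l295 (T t405 N)))))))))))))) (K a214 (Fr a233 a41 l389 (V t406)) N)))))))))))))) N)))))))))))) (K a169 (M a252 (L l307 (F (L l475 (T t1129 (L l221 (L l309 (L l348 (T t1217 (L l174 (L l309 (L l351 (T t3245 (K a131 (Fr a195 a150 l518 (Fr a188 a124 l430 (V t1150))) (K a195 (M a131 (F (L l142 (T t1151 (L l174 (L l351 (T t3246 (L l228 (L l295 (T t406 N)))))))))) N))))))))))))))) (K a131 (Fr a195 a150 l518 (V t1153)) (K a195 (M a131 (L l477 (F (L l228 (L l295 (T t405 (L l228 (L l474 (T t1154 (L l143 (L l295 (T t1155 (L l87 (L l143 (L l295 (T t1156 (L l76 (L l142 (L l228 (T t1157 (K a252 (M a169 (L l297 (F (L l474 (T t1145 (L l87 (L l228 (L l309 (T t1146 (L l228 (L l295 (T t405 (K a233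 (M a214 (F (L l295 (L l474 (T t1147 (L l142 (L l228 (L l293 (T t1148 (L l228 (L l250 (L l293 (L l295 (T t405 N)))))))))))))) (K a214 (Fr a233 a41 l389 (V t406)) N)))))))))))))) (K a169 (M a252 (F (L l142 (T t1151 (L l174 (L l351 (T t3246 (L l228 (L l295 (T t406 N)))))))))) N)))))))))))))))))))))) N))))))))))))) (K a124 (M a105 (F (T t406 (L l307 (T t404 (L l140 (T t1128 N))))))) (K a105 (M a124 (F (L l143 (T t1126 (L l76 (T t1133 (L l515 (T t116 N)))))))) N)))))))))))))))))))))))))))))⟩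
def e0_63__86_40 : Ent 4 := ⟨[a0, a63], [a86, a68], (M a48 (F (T t1 (T t2 (T t3 (T t0 (K a16 (M a60 (F (T t64 (L l14 (L l18 (L l477 (T t67 (L l351 (T t65 N))))))))) (K a32 (M a60 (F (T t64 (L l477 (T t67 (L l24 (L l28 (L l351 (T t65 N))))))))) (K a21 (M a192 (F (T t28 (L l47 (L l347 (L l351 (T t20 (L l47 (L l347 (L l351 (T t29 N))))))))))) (K a37 (M a192 (F (T t19 (L l47 (L l351 (T t20 (L l351 (T t21 N)))))))) (K a53 (M a192 (F (T t19 (L l351 (L l491 (T t21 (L l142 (T t31 N)))))))) (K a26 (M a192 (F (T t27 (L l351 (T t20 (L l351 (T t21 N))))))) (K a42 (M a192 (F (T t19 (L l351 (T t20 (L l28 (L l351 (T t29 N)))))))) (K a58 (M a192 (F (T t19 (L l351 (T t21 (L l54 (L l142 (L l498 (T t31 N))))))))) (K a15 (M a192 (F (T t36 (L l325 (L l351 (T t20 (L l351 (L l469 (T t21 N))))))))) N)))))))))))))))⟩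
def e0_63__86_41 : Ent 4 := ⟨[a0, a63], [a86, a69], (M a48 (F (T t1 (L l311 (T t2 (T t3 (T t0 (K a16 (M a60 (F (T t64 (L l14 (L l18 (L l477 (T t67 (L l311 (L l351 (T t65 N)))))))))) (K a32 (M a60 (F (T t64 (L l477 (T t67 (L l24 (L l28 (L l311 (L l351 (T t65 N)))))))))) (K a21 (M a192 (F (T t28 (L l47 (L l347 (L l351 (T t20 (L l47 (L l347 (L l351 (T t29 N))))))))))) (K a37 (M a192 (F (T t19 (L l47 (L l351 (T t20 (L l351 (T t21 N)))))))) (K a53 (M a192 (F (T t19 (L l351 (L l491 (T t21 (L l142 (T t31 N)))))))) (K a26 (M a192 (F (T t27 (L l351 (T t20 (L l351 (T t21 N))))))) (K a42 (M a192 (F (T t19 (L l351 (T t20 (L l28 (L l351 (T t29 N)))))))) (K a58 (M a192 (F (T t19 (L l351 (T t21 (L l54 (L l142 (L l498 (T t31 N))))))))) (K a15 (M a192 (F (T t36 (L l325 (L l351 (T t20 (L l351 (L l469 (T t21 N))))))))) N))))))))))))))))⟩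
def e0_63__86_42 : Ent 4 := ⟨[a0, a63], [a86, a70], (M a48 (L l124 (F (T t1 (T t2 (T t3 (T t0 (K a16 (M a62 (L l124 (F (T t825 (L l18 (L l330 (L l333 (L l474 (L l477 (T t709 (L l18 (L l348 (T t826 (K a102 (M a118 (F (L l14 (L l18 (T t711 (L l492 (T t1896 N))))))) (K a118 (M a102 (F (L l14 (L l18 (T t711 (L l366 (L l368 (L l420 (T t1897 N))))))))) N))))))))))))))) (K a32 (M a62 (L l124 (F (T t825 (L l330 (L l333 (L l474 (L l477 (T t709 (L l20 (L l348 (T t826 (K a102 (M a118 (F (T t711 (L l492 (T t1896 N))))) (K a118 (M a102 (F (T t711 (L l366 (L l420 (T t1897 N)))))) N)))))))))))))) (K a21 (M a192 (L l124 (F (T t837 (L l47 (L l347 (L l351 (T t20 (L l47 (L l347 (L l351 (T t29 (K a102 (M a118 (F (T t28 (L l102 (L l142 (T t22 (L l47 (L l347 (L l351 (L l495 (T t29 N))))))))))) (K a118 (M a102 (F (T t837 (L l347 (L l351 (L l441 (T t1898 N))))))) N)))))))))))))) (K a37 (M a52 (L l124 (F (T t82 (T t83 (L l21 (L l28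 (T t84 (K a102 (M a118 (F (T t82 (L l459 (L l492 (T t1899 N)))))) (K a118 (M a102 (F (T t82 (L l315 (L l348 (L l420 (T t1900 N))))))) N)))))))))) (K a53 (M a51 (L l124 (F (T t1294 (L l35 (L l330 (L l333 (L l474 (L l477 (T t1901 (L l35 (T t1902 (K a102 (M a118 (F (T t1296 (L l35 (L l126 (L l419 (L l474 (T t1903 N)))))))) (K a118 (M a102 (F (T t1296 (L l35 (L l330 (L l369 (T t1904 N))))))) N)))))))))))))) (K a26 (M a50 (L l124 (F (T t147 (L l330 (L l333 (L l474 (L l477 (T t148 (L l16 (L l18 (L l348 (T t149 (K a102 (M a118 (F (T t147 (L l87 (L l126 (L l330 (L l474 (T t1905 N)))))))) (K a118 (M a102 (F (T t147 (L l330 (T t1906 N))))) N))))))))))))))) (K a42 (M a192 (L l124 (F (T t19 (L l351 (T t20 (L l28 (L l351 (T t29 (K a102 (M a118 (F (T t837 (L l102 (L l142 (L l390 (T t22 (L l28 (L l351 (L l495 (T t29 N))))))))))) (K a118 (M a102 (F (T t19 (L l351 (L l441 (T t1898 N)))))) N))))))))))) (K a58 (M a51 (L l124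 (F (T t589 (L l330 (L l333 (L l474 (L l477 (T t1901 (L l32 (L l54 (T t1902 (K a102 (M a118 (F (T t589 (L l126 (L l474 (T t1903 N)))))) (K a118 (M a102 (F (T t589 (L l330 (L l369 (T t1904 N)))))) N)))))))))))))) (K a15 (M a4 (L l124 (F (T t129 (L l63 (T t528 (T t520 (K a102 (M a118 (F (T t518 (L l384 (T t1907 N))))) (K a118 (M a102 (F (T t558 (L l315 (L l456 (T t1908 N)))))) N))))))))) (K a102 (M a118 (F (T t1 (T t2 (T t3 (T t0 (K a16 (M a181 (F (T t1909 (L l402 (L l459 (T t1910 N)))))) (K a32 (M a252 (F (T t1911 (L l126 (T t1912 N))))) (K a21 (M a240 (F (T t1913 (L l50 (L l495 (L l513 (T t1914 N))))))) (K a37 (M a240 (F (T t1913 (L l495 (L l513 (T t1914 N)))))) (K a53 (M a240 (F (T t1913 (L l31 (L l495 (L l513 (T t1914 N))))))) (K a26 (M a240 (F (T t1913 (L l495 (L l513 (T t1914 N)))))) (K a42 (M a240 (F (T t1913 (L l495 (L l513 (T t1914 N)))))) (K a58 (M a240 (F (T t1915 (L l426 (L l495 (L l513 (T t1914 N)))))))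 (K a15 (M a240 (F (T t1916 (L l73 (L l495 (L l513 (T t1914 N))))))) N))))))))))))))) (K a118 (M a102 (F (T t1 (T t2 (T t3 (T t0 (K a16 (M a100 (F (T t1917 (L l77 (L l364 (L l441 (T t1918 N))))))) (K a32 (M a204 (F (T t1919 (L l107 (T t1920 N))))) (K a21 (M a192 (F (T t837 (L l347 (L l351 (L l441 (T t1898 N))))))) (K a37 (M a192 (F (T t19 (L l351 (L l441 (T t1898 N)))))) (K a53 (M a192 (F (T t19 (L l351 (L l441 (L l491 (T t1898 N))))))) (K a26 (M a192 (F (T t837 (L l351 (L l441 (T t1898 N)))))) (K a42 (M a192 (F (T t19 (L l351 (L l441 (T t1898 N)))))) (K a58 (M a192 (F (T t19 (L l351 (L l441 (T t1898 N)))))) (K a15 (M a192 (F (T t55 (L l73 (L l351 (L l441 (T t1898 N))))))) N))))))))))))))) N))))))))))))))))))⟩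
def e0_63__86_43 : Ent 4 := ⟨[a0, a63], [a86, a71], (M a48 (L l127 (F (T t1 (T t2 (T t3 (T t0 (K a16 (M a60 (L l127 (F (T t64 (L l14 (L l18 (L l331 (L l477 (T t67 (L l351 (T t65 (K a116 (M a101 (F (T t313 (T t662 N)))) (K a101 (M a116 (F (T t451 (L l14 (L l87 (L l364 (T t2189 N))))))) N))))))))))))) (K a32 (M a170 (L l127 (F (T t2190 (L l87 (T t514 (T t580 (K a116 (M a101 (F (L l331 (T t2191 (L l87 (T t2102 (L l376 (T t313 N)))))))) (K a101 (M a116 (F (T t2190 (L l87 (L l123 (L l509 (T t2192 (L l142 (T t2193 (L l87 (L l351 (L l491 (T t2194 N))))))))))))) N))))))))) (K a21 (M a101 (F (T t313 (L l18 (L l331 (T t334 (L l18 (T t314 N)))))))) (K a37 (M a101 (F (T t313 (L l331 (T t334 (T t314 N)))))) (K a53 (M a149 (L l127 (F (T t176 (L l142 (T t13 (T t26 (K a116 (M a101 (F (T t2195 (L l331 (L l474 (T t312 (L l47 (T t175 N)))))))) (K a101 (M a116 (F (T t5 (L l77 (T t2196 N))))) N))))))))) (K a26 (M a101 (F (L l331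 (T t333 (L l18 (L l87 (T t2103 (L l18 (L l54 (T t314 N)))))))))) (K a42 (M a101 (F (T t2197 (L l54 (T t313 (L l54 (T t314 N))))))) (K a58 (M a192 (L l127 (F (T t19 (L l351 (T t21 (L l54 (L l142 (L l498 (T t31 (K a116 (M a101 (F (T t1362 (L l77 (L l331 (T t2198 N)))))) (K a101 (M a116 (F (L l77 (T t2196 (L l351 (L l491 (T t35 N))))))) N)))))))))))) (K a15 (M a101 (F (T t431 (L l325 (L l331 (T t334 (L l339 (T t313 N)))))))) (K a116 (M a101 (F (T t313 (T t1 (L l331 (T t334 N)))))) (K a101 (M a116 (F (T t2 (L l77 (T t2196 (L l77 (L l369 (T t2199 (K a16 (M a64 (F (L l351 (L l491 (T t397 (T t2200 N)))))) N))))))))) N))))))))))))))))))⟩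
def e0_63__86_44 : Ent 4 := ⟨[a0, a63], [a86, a72], (M a48 (F (T t1 (T t2 (T t3 (T t0 (K a16 (M a60 (F (T t64 (L l14 (L l18 (L l477 (T t67 (L l351 (T t65 N))))))))) (K a32 (M a60 (F (T t64 (L l477 (T t67 (L l24 (L l28 (L l351 (T t65 N))))))))) (K a21 (M a192 (F (T t28 (L l47 (L l347 (L l351 (T t20 (L l47 (L l347 (L l351 (T t29 N))))))))))) (K a37 (M a192 (F (T t19 (L l47 (L l351 (T t20 (L l351 (T t21 N)))))))) (K a53 (M a192 (F (T t19 (L l351 (L l491 (T t21 (L l132 (L l142 (T t31 N))))))))) (K a26 (M a192 (F (T t28 (L l351 (T t20 (L l351 (T t21 N))))))) (K a42 (M a192 (F (T t19 (L l351 (T t20 (L l28 (L l351 (T t29 N)))))))) (K a58 (M a192 (F (T t19 (L l351 (T t21 (L l54 (L l132 (L l142 (L l498 (T t31 N)))))))))) (K a15 (M a192 (F (T t36 (L l325 (L l351 (T t20 (L l351 (L l469 (T t21 N))))))))) N)))))))))))))))⟩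
def e0_63__86_45 : Ent 4 := ⟨[a0, a63], [a86, a73], (M a48 (F (T t1 (T t2 (T t3 (T t0 (K a16 (M a60 (F (T t64 (L l14 (L l18 (L l477 (T t67 (L l351 (T t65 N))))))))) (K a32 (M a60 (F (T t64 (L l477 (T t67 (L l24 (L l28 (L l351 (T t65 N))))))))) (K a21 (M a192 (F (T t837 (L l47 (L l347 (L l351 (T t20 (L l47 (L l347 (L l351 (T t29 N))))))))))) (K a37 (M a192 (F (T t19 (L l47 (L l351 (T t20 (L l351 (T t21 N)))))))) (K a53 (M a192 (F (T t19 (L l351 (L l491 (T t21 (L l142 (T t31 N)))))))) (K a26 (M a192 (F (T t27 (L l351 (T t20 (L l351 (T t21 N))))))) (K a42 (M a192 (F (T t19 (L l351 (T t20 (L l28 (L l351 (T t29 N)))))))) (K a58 (M a192 (F (T t19 (L l351 (T t21 (L l54 (L l142 (L l498 (T t31 N))))))))) (K a15 (M a192 (F (T t1922 (L l325 (L l351 (T t20 (L l351 (L l469 (T t21 N))))))))) N)))))))))))))))⟩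
def e0_63__86_46 : Ent 4 := ⟨[a0, a63], [a86, a74], (M a12 (F (T t122 (T t151 (T t152 (T t153 (K a4 (M a60 (F (T t662 (L l336 (L l339 (T t398 (L l351 (T t448 N)))))))) (K a8 (M a60 (F (T t570 (L l477 (T t67 (L l52 (L l56 (L l351 (T t448 N))))))))) (K a21 (M a192 (F (T t156 (L l15 (L l347 (L l351 (T t450 (L l15 (L l347 (L l351 (T t157 N))))))))))) (K a25 (M a192 (F (T t156 (L l15 (L l351 (T t450 (L l351 (T t21 N)))))))) (K a29 (M a192 (F (T t156 (L l351 (L l371 (T t21 (L l78 (L l130 (L l142 (T t160 N)))))))))) (K a38 (M a192 (F (T t156 (L l351 (T t450 (L l351 (T t21 N))))))) (K a42 (M a192 (F (T t156 (L l351 (T t450 (L l56 (L l351 (T t157 N)))))))) (K a46 (M a192 (F (T t156 (L l351 (T t21 (L l26 (L l78 (L l130 (L l142 (L l408 (T t160 N))))))))))) (K a51 (M a192 (F (T t159 (L l351 (L l415 (T t450 (L l351 (L l439 (T t21 N))))))))) N)))))))))))))))⟩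
def e0_63__86_47 : Ent 4 := ⟨[a0, a63], [a86, a75], (M a12 (F (T t122 (T t151 (T t152 (T t153 (K a4 (M a60 (F (T t662 (L l337 (T t398 (L l351 (T t448 N))))))) (K a8 (M a60 (F (T t570 (L l477 (T t67 (L l52 (L l56 (L l351 (T t448 N))))))))) (K a21 (M a192 (F (T t156 (L l15 (L l347 (L l351 (T t450 (L l15 (L l347 (L l351 (T t157 N))))))))))) (K a25 (M a192 (F (T t449 (L l15 (L l351 (T t450 (L l351 (T t21 N)))))))) (K a29 (M a192 (F (T t449 (L l351 (L l371 (T t21 (L l78 (L l142 (T t160 N))))))))) (K a38 (M a192 (F (T t156 (L l351 (T t450 (L l351 (T t21 N))))))) (K a42 (M a192 (F (T t449 (L l351 (T t450 (L l56 (L l351 (T t157 N)))))))) (K a46 (M a192 (F (T t449 (L l351 (T t21 (L l26 (L l78 (L l142 (L l408 (T t160 N)))))))))) (K a51 (M a192 (F (T t496 (L l351 (L l415 (T t450 (L l351 (L l439 (T t21 N))))))))) N)))))))))))))))⟩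
def e0_63__86_48 : Ent 4 := ⟨[a0, a63], [a86, a76], (M a48 (F (T t1 (T t2 (T t3 (T t0 (K a16 (M a60 (F (T t64 (L l14 (L l18 (L l477 (T t67 (L l351 (T t65 N))))))))) (K a32 (M a60 (F (T t64 (L l477 (T t67 (L l24 (L l28 (L l351 (T t65 N))))))))) (K a21 (M a192 (F (T t28 (L l47 (L l347 (L l351 (T t20 (L l47 (L l347 (L l351 (T t29 N))))))))))) (K a37 (M a192 (F (T t19 (L l47 (L l351 (T t20 (L l138 (L l351 (T t21 N))))))))) (K a53 (M a192 (F (T t19 (L l138 (L l351 (L l491 (T t21 (L l142 (T t31 N))))))))) (K a26 (M a192 (F (T t28 (L l351 (T t20 (L l138 (L l351 (T t21 N)))))))) (K a42 (M a192 (F (T t19 (L l351 (T t20 (L l28 (L l351 (T t29 N)))))))) (K a58 (M a192 (F (T t19 (L l138 (L l351 (T t21 (L l54 (L l142 (L l498 (T t31 N)))))))))) (K a15 (M a192 (F (T t36 (L l325 (L l351 (T t20 (L l138 (L l351 (L l469 (T t21 N)))))))))) N)))))))))))))))⟩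
def e0_63__86_49 : Ent 4 := ⟨[a0, a63], [a86, a77], (M a48 (F (T t1 (T t2 (T t3 (T t0 (K a16 (M a60 (F (T t64 (L l14 (L l18 (L l477 (T t67 (L l351 (T t65 N))))))))) (K a32 (M a60 (F (T t64 (L l477 (T t67 (L l24 (L l28 (L l351 (T t65 N))))))))) (K a21 (M a192 (F (T t837 (L l47 (L l326 (L l347 (L l351 (T t20 (L l47 (L l347 (L l351 (T t29 N)))))))))))) (K a37 (M a192 (F (T t19 (L l47 (L l326 (L l351 (T t20 (L l351 (T t21 N))))))))) (K a53 (M a192 (F (T t19 (L l351 (L l491 (T t21 (L l142 (T t31 N)))))))) (K a26 (M a192 (F (T t27 (L l326 (L l351 (T t20 (L l351 (T t21 N)))))))) (K a42 (M a192 (F (T t19 (L l326 (L l351 (T t20 (L l28 (L l351 (T t29 N))))))))) (K a58 (M a192 (F (T t19 (L l351 (T t21 (L l54 (L l142 (L l498 (T t31 N))))))))) (K a15 (M a192 (F (T t1922 (L l325 (L l326 (L l351 (T t20 (L l351 (L l469 (T t21 N)))))))))) N)))))))))))))))⟩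
def e0_63__86_50 : Ent 4 := ⟨[a0, a63], [a86, a78], (M a12 (F (T t122 (T t151 (T t152 (T t153 (K a4 (M a60 (F (T t662 (L l324 (L l327 (T t398 (L l351 (T t448 N)))))))) (K a8 (M a60 (F (T t570 (L l477 (T t67 (L l52 (L l56 (L l351 (T t448 N))))))))) (K a21 (M a192 (F (T t1725 (L l15 (L l347 (L l351 (T t450 (L l15 (L l347 (L l351 (T t157 N))))))))))) (K a25 (M a192 (F (T t496 (L l15 (L l351 (T t450 (L l351 (T t21 N)))))))) (K a29 (M a192 (F (T t496 (L l351 (L l371 (T t21 (L l142 (T t160 N)))))))) (K a38 (M a192 (F (T t1725 (L l351 (T t450 (L l351 (T t21 N))))))) (K a42 (M a192 (F (T t496 (L l351 (T t450 (L l56 (L l351 (T t157 N)))))))) (K a46 (M a192 (F (T t1725 (L l351 (T t21 (L l26 (L l142 (L l408 (T t160 N))))))))) (K a51 (M a192 (F (T t1725 (L l351 (L l415 (T t450 (L l351 (L l439 (T t21 N))))))))) N)))))))))))))))⟩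
def e0_63__86_51 : Ent 4 := ⟨[a0, a63], [a86, a79], (M a12 (F (T t122 (T t151 (T t152 (T t153 (K a4 (M a60 (F (T t662 (L l325 (T t398 (L l351 (T t448 N))))))) (K a8 (M a60 (F (T t570 (L l477 (T t67 (L l52 (L l56 (L l351 (T t448 N))))))))) (K a21 (M a192 (F (T t468 (L l15 (L l347 (L l351 (T t450 (L l15 (L l347 (L l351 (T t157 N))))))))))) (K a25 (M a192 (F (T t449 (L l15 (L l351 (T t450 (L l137 (L l351 (T t21 N))))))))) (K a29 (M a192 (F (T t449 (L l137 (L l351 (L l371 (T t21 (L l142 (T t160 N))))))))) (K a38 (M a192 (F (T t468 (L l351 (T t450 (L l137 (L l351 (T t21 N)))))))) (K a42 (M a192 (F (T t449 (L l351 (T t450 (L l56 (L l351 (T t157 N)))))))) (K a46 (M a192 (F (T t449 (L l137 (L l351 (T t21 (L l26 (L l142 (L l408 (T t160 N)))))))))) (K a51 (M a192 (F (T t496 (L l351 (L l415 (T t450 (L l137 (L l351 (L l439 (T t21 N)))))))))) N)))))))))))))))⟩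
def e0_63__86_52 : Ent 4 := ⟨[a0, a63], [a86, a84], (M a85 (F (T t52 (L l140 (T t88 (L l140 (L l142 (T t89 (L l140 (L l474 (T t90 (K a64 (M a105 (L l140 (F (T t674 (L l346 (T t623 (L l346 (T t675 (K a104 (M a124 (F (T t3247 (L l76 (T t670 (L l346 (T t625 N))))))) (K a124 (M a104 (F (L l346 (L l351 (T t3248 (T t3249 (L l76 (L l474 (T t3250 N))))))))) N)))))))))) (K a192 (M a16 (F (T t112 (L l127 (T t96 (L l90 (L l296 (T t98 N)))))))) (K a21 (M a48 (F (T t99 (L l474 (T t50 (L l47 (T t100 N))))))) (K a149 (M a23 (F (L l346 (T t1941 (L l220 (L l474 (T t2096 (L l348 (T t3222 (L l477 (T t3251 N))))))))))) (K a213 (Fr a170 a255 l476 (Fr a42 a21 l68 (Fr a106 a234 l390 (Fr a192 a149 l519 (V t581))))) (K a42 (M a48 (F (L l28 (T t99 (L l390 (L l474 (T t50 (L l28 (T t100 N))))))))) (K a106 (M a60 (L l142 (F (T t936 (L l346 (L l393 (L l477 (T t67 (L l390 (L l474 (L l477 (T t114 (K a66 (M a126 (F (T t3252 (L l346 (L l390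 (T t115 N)))))) (K a126 (M a66 (F (T t3042 (L l346 (L l393 (L l477 (T t67 (L l109 (L l390 (L l432 (L l516 (T t1344 N)))))))))))) N)))))))))))))) (K a170 (M a16 (L l474 (F (L l404 (T t113 (L l90 (L l390 (T t98 (L l390 (L l404 (T t97 (L l404 (T t174 (K a2 (M a254 (F (L l404 (T t113 (L l66 (L l90 (L l390 (T t98 (L l66 (L l390 (L l404 (T t97 (L l404 (T t174 N)))))))))))))) (K a254 (M a2 (F (L l432 (T t824 (L l404 (T t113 N)))))) N))))))))))))))) (K a255 (M a16 (F (T t112 (L l289 (T t113 (L l90 (L l289 (L l296 (T t98 N))))))))) N))))))))))))))))))))⟩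
def e0_63__86_53 : Ent 4 := ⟨[a0, a63], [a86, a85], (M a51 (L l87 (F (T t1294 (L l347 (L l365 (T t589 (L l458 (T t1296 (L l347 (T t592 (K a12 (M a192 (L l87 (F (L l482 (T t3253 (L l322 (L l347 (L l351 (T t3254 (L l142 (L l144 (L l365 (T t3255 (K a84 (M a87 (F (L l482 (T t3256 (L l322 (L l347 (L l351 (T t3257 (L l142 (L l144 (L l365 (T t3255 N)))))))))))) (K a87 (M a84 (F (L l482 (T t3256 (L l478 (T t3258 N)))))) N))))))))))))))) (K a17 (M a16 (L l87 (L l365 (F (T t97 (T t3259 (L l458 (T t3260 (L l41 (L l458 (T t3261 (L l369 (T t3262 (K a84 (M a87 (L l365 (F (T t97 (T t3259 (L l41 (T t3263 (L l41 (L l454 (L l458 (T t3261 (L l369 (T t3262 (K a153 (M a221 (L l369 (F (T t97 (L l501 (T t3259 (L l41 (L l509 (T t3263 (L l41 (L l454 (L l458 (L l501 (L l509 (T t3261 (T t3264 (K a220 (M a19 (F (T t3265 (L l363 (T t97 N))))) (K a19 (M a220 (F (T t3266 (L l91 (L l92 (L l501 (T t3267 (L l17 (T t97 (L l17 (L l454 (L l458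 (L l501 (T t3260 N)))))))))))))) N)))))))))))))))))) (K a221 (M a153 (F (T t97 (L l341 (T t3268 N))))) N))))))))))))))) (K a153 (M a221 (L l87 (L l369 (F (T t97 (L l501 (T t3259 (L l41 (L l509 (T t3263 (L l41 (L l458 (L l501 (L l509 (T t3261 (T t3264 (K a84 (M a87 (L l369 (F (T t97 (L l501 (T t3259 (L l41 (L l509 (T t3263 (L l41 (L l454 (L l458 (L l501 (L l509 (T t3261 (T t3264 (K a220 (M a19 (F (T t3265 (L l363 (T t97 N))))) (K a19 (M a220 (F (T t3266 (L l91 (L l92 (L l501 (T t3267 (L l17 (T t97 (L l17 (L l454 (L l458 (L l501 (T t3260 N)))))))))))))) N)))))))))))))))))) (K a220 (M a19 (L l87 (F (L l363 (T t3269 (L l501 (T t3259 (L l363 (T t97 (K a84 (M a87 (F (T t3265 (L l363 (T t97 N))))) (K a87 (M a84 (F (L l363 (T t97 (L l205 (L l459 (L l501 (T t3270 N)))))))) N))))))))))) (K a19 (M a220 (L l87 (F (T t3266 (L l92 (L l164 (T t3271 (L l17 (L l41 (L l509 (T t3263 (K a84 (M a87 (F (T t3266 (L l91 (L l92 (L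 l501 (T t3267 (L l17 (T t97 (L l17 (L l454 (L l458 (L l501 (T t3260 N)))))))))))))) (K a87 (Fr a84 a152 l364 (V t97)) N))))))))))))) (K a87 (M a84 (L l369 (F (T t97 (L l205 (T t3258 (K a220 (M a19 (F (L l363 (T t97 (L l205 (L l459 (L l501 (T t3270 N)))))))) (K a19 (Fr a220 a152 l364 (V t97)) N)))))))) N)))))))))))))))))))) (K a221 (M a153 (L l87 (F (T t97 (L l124 (L l126 (L l341 (T t3272 (K a84 (M a87 (F (T t97 (L l341 (T t3268 N))))) (K a87 (M a84 (F (T t97 (L l290 (L l359 (T t3273 N)))))) N)))))))))) (K a87 (M a84 (L l365 (F (T t97 (T t3258 (K a153 (M a221 (L l369 (F (T t97 (L l205 (T t3258 (K a220 (M a19 (F (L l363 (T t97 (L l205 (L l459 (L l501 (T t3270 N)))))))) (K a19 (Fr a220 a152 l364 (V t97)) N)))))))) (K a221 (M a153 (F (T t97 (L l290 (L l359 (T t3273 N)))))) N))))))) N))))))))))))))))) (K a21 (M a149 (L l87 (F (T t3274 (L l142 (L l144 (T t3275 (L l15 (L l126 (L l144 (L l365 (T t3276 (L l15 (L l365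 (T t3277 (K a84 (M a87 (F (T t3278 (L l142 (L l144 (T t3275 (L l15 (L l126 (L l144 (L l365 (T t3276 (L l15 (L l365 (T t3277 N)))))))))))))) (K a87 (M a84 (F (T t3274 (L l459 (T t3270 (L l142 (L l144 (T t3275 N)))))))) N))))))))))))))))) (K a25 (M a192 (L l87 (F (T t3253 (L l347 (L l351 (T t3254 (L l15 (L l56 (L l142 (L l144 (L l365 (T t3255 (K a84 (M a87 (F (T t3256 (L l347 (L l351 (T t3257 (L l15 (L l56 (L l142 (L l144 (L l365 (T t3255 N)))))))))))) (K a87 (M a84 (F (T t3256 (T t3258 N)))) N))))))))))))))) (K a34 (M a48 (L l87 (F (T t590 (L l347 (T t1 (L l26 (L l458 (T t1902 (K a84 (M a87 (F (T t3279 (L l26 (L l455 (T t2 (L l26 (L l454 (L l458 (T t1902 N)))))))))) (K a87 (M a84 (F (T t590 (L l126 (T t3280 N))))) N))))))))))) (K a38 (M a192 (L l87 (F (T t3256 (L l50 (L l347 (L l351 (T t3254 (L l142 (L l144 (L l365 (T t3255 (K a84 (M a87 (F (T t3256 (L l347 (L l351 (T t3257 (L l142 (L l144 (L l365 (T t3255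 N)))))))))) (K a87 (M a84 (F (T t3256 (T t3258 N)))) N)))))))))))))) (K a42 (M a192 (L l87 (F (T t3256 (L l347 (L l351 (T t3254 (L l56 (L l142 (L l144 (L l365 (L l390 (T t3255 (K a84 (M a87 (F (T t3256 (L l347 (L l351 (T t3257 (L l56 (L l142 (L l144 (L l365 (L l390 (T t3255 N)))))))))))) (K a87 (M a84 (F (T t3256 (T t3258 N)))) N))))))))))))))) (K a55 (M a16 (L l87 (F (T t97 (L l369 (L l477 (T t3281 (L l49 (L l351 (L l366 (T t3282 (K a84 (M a87 (F (T t97 (L l369 (L l477 (T t3281 (L l49 (L l351 (L l366 (T t3282 N)))))))))) (K a87 (M a84 (F (L l126 (T t3283 (L l49 (L l349 (L l351 (L l366 (T t3282 N))))))))) N))))))))))))) (K a59 (M a16 (L l87 (F (L l56 (T t97 (L l369 (L l477 (T t3281 (L l56 (L l351 (L l366 (T t3282 (K a84 (M a87 (F (L l56 (T t97 (L l369 (L l477 (T t3281 (L l56 (L l351 (L l366 (T t3282 N))))))))))) (K a87 (M a84 (F (L l473 (T t3284 (L l56 (T t3285 N)))))) N)))))))))))))) (K a84 (M a87 (F (T t1294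 (L l347 (L l365 (T t589 (L l454 (L l458 (T t1296 (L l347 (T t592 (K a12 (M a192 (F (L l482 (T t3256 (L l322 (L l347 (L l351 (T t3257 (L l142 (L l144 (L l365 (T t3255 N)))))))))))) (K a17 (M a48 (L l365 (F (T t3279 (L l455 (T t2 (L l41 (L l454 (L l458 (T t1902 (K a153 (M a221 (L l369 (F (T t3279 (L l15 (L l347 (T t1 (L l41 (L l509 (T t3286 (K a220 (M a19 (L l364 (F (T t3279 (L l127 (L l368 (T t3287 (K a16 (M a152 (L l368 (F (T t1995 (L l127 (L l208 (T t3288 (K a154 (Fr a223 a155 l367 (V t3269)) (K a223 (M a154 (F (T t1995 (L l15 (L l122 (T t3289 N)))))) N))))))))) (K a152 (Fr a16 a32 l40 (V t3290)) N))))))))) (K a19 (M a220 (L l10 (F (T t3279 (L l15 (L l347 (T t1 (L l41 (L l454 (L l458 (L l501 (L l509 (T t1902 (K a16 (M a18 (L l368 (F (L l41 (L l509 (T t3291 (L l501 (T t590 (L l15 (L l18 (L l347 (T t3292 (K a154 (Fr a223 a222 l241 (V t3291)) (K a223 (M a154 (F (L l289 (T t493 (L l14 (L l41 (L l346 (L l350 (T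 t244 N))))))))) N)))))))))))))) (K a18 (Fr a16 a32 l40 (V t3290)) N))))))))))))))) N)))))))))))) (K a221 (M a153 (F (T t0 (L l290 (L l359 (T t3273 N)))))) N)))))))))))) (K a21 (M a3 (L l347 (F (L l350 (T t3293 (L l18 (L l364 (L l368 (T t3294 (K a149 (M a213 (L l351 (F (L l350 (T t3295 (L l18 (L l364 (L l368 (T t3294 (K a212 (Fr a23 a43 l67 (V t3296)) (K a23 (M a212 (L l11 (F (L l474 (T t3297 (L l126 (L l144 (T t3298 (K a20 (M a22 (L l350 (F (L l65 (L l473 (T t3299 (L l17 (L l126 (L l369 (T t3300 (K a150 (Fr a215 a214 l239 (V t3299)) (K a215 (M a150 (F (L l65 (L l473 (T t3299 (L l17 (L l295 (L l369 (T t3301 N))))))))) N)))))))))))) (K a22 (M a20 (L l348 (F (T t3302 (L l15 (L l17 (L l19 (L l365 (L l369 (T t3303 (K a150 (Fr a214 a215 l239 (V t3294)) (K a214 (M a150 (F (L l368 (T t3304 (L l48 (L l297 (T t3305 N))))))) N)))))))))))) N)))))))))) N))))))))))) (K a213 (M a149 (F (L l459 (T t842 (L l142 (L l144 (L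 l145 (T t1883 N)))))))) N))))))))))) (K a25 (M a192 (F (T t3256 (L l347 (L l351 (T t3257 (L l15 (L l56 (L l142 (L l144 (L l365 (T t3255 N)))))))))))) (K a34 (M a48 (F (T t3279 (L l26 (L l455 (T t2 (L l26 (L l454 (L l458 (T t1902 N)))))))))) (K a38 (M a192 (F (T t3256 (L l347 (L l351 (T t3257 (L l142 (L l144 (L l365 (T t3255 N)))))))))) (K a42 (M a192 (F (T t3256 (L l347 (L l351 (T t3257 (L l56 (L l142 (L l144 (L l365 (L l390 (T t3255 N)))))))))))) (K a55 (M a16 (F (T t97 (L l369 (L l477 (T t3281 (L l49 (L l351 (L l366 (T t3282 N)))))))))) (K a59 (M a16 (F (L l56 (T t97 (L l369 (L l477 (T t3281 (L l56 (L l351 (L l366 (T t3282 N))))))))))) N)))))))))))))))))))) (K a87 (M a84 (F (T t1294 (T t3258 (K a55 (M a64 (F (T t3306 (L l145 (L l350 (T t3307 (T t3308 N))))))) (K a59 (M a64 (F (T t3306 (L l145 (L l350 (T t3307 (L l429 (T t3308 N)))))))) N)))))) N))))))))))))))))))))))⟩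
def e0_63__86_54 : Ent 4 := ⟨[a0, a63], [a86, a87], (M a85 (F (T t88 (L l143 (L l475 (T t52 (L l142 (T t89 (L l474 (T t90 (K a64 (M a16 (F (T t97 (L l84 (L l127 (L l367 (T t96 (L l116 (L l367 (T t98 N)))))))))) (K a192 (M a16 (F (T t112 (L l127 (L l367 (T t96 (L l296 (L l367 (T t98 N))))))))) (K a21 (M a48 (F (L l367 (T t1699 (L l143 (L l474 (T t50 (L l47 (L l143 (L l367 (T t100 N))))))))))) (K a149 (M a16 (L l351 (F (T t112 (L l367 (T t173 (L l93 (L l170 (L l366 (T t102 (K a212 (M a23 (F (L l367 (T t173 (L l346 (T t1941 N)))))) (K a23 (M a212 (L l349 (F (T t112 (L l220 (L l367 (L l474 (T t259 (L l93 (L l170 (L l366 (T t102 (K a151 (M a215 (L l163 (F (T t112 (L l170 (L l366 (T t3309 (K a148 (Fr a150 a20 l350 (V t3310)) (K a150 (M a148 (L l348 (F (T t112 (L l168 (L l170 (L l218 (L l220 (L l366 (L l474 (T t3311 (K a22 (Fr a214 a213 l239 (V t97)) (K a214 (M a22 (F (T t112 (L l518 (T t3312 N))))) N)))))))))))))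 N))))))))) (K a215 (M a151 (F (T t112 (L l143 (L l295 (L l348 (L l475 (T t3313 N)))))))) N)))))))))))))) N)))))))))))) (K a213 (Fr a170 a255 l476 (Fr a42 a21 l68 (Fr a106 a234 l390 (Fr a192 a149 l519 (V t581))))) (K a42 (M a48 (F (L l475 (T t364 (L l143 (L l390 (L l474 (T t50 (L l28 (L l143 (L l367 (T t100 N)))))))))))) (K a106 (M a48 (L l142 (F (T t1 (L l104 (L l127 (L l367 (T t509 (L l143 (L l390 (L l474 (T t50 (K a66 (M a126 (F (T t780 (L l143 (L l390 (L l474 (T t50 N))))))) (K a126 (M a66 (F (T t1 (L l104 (L l127 (L l367 (L l475 (T t360 (L l109 (L l143 (L l390 (L l474 (T t50 N))))))))))))) N)))))))))))))) (K a170 (M a16 (L l474 (F (L l390 (L l404 (T t97 (L l367 (L l390 (T t98 (L l143 (L l367 (L l404 (T t113 (L l367 (L l404 (T t174 (K a2 (M a254 (F (L l66 (L l390 (L l404 (T t97 (L l143 (L l367 (L l404 (T t113 (L l66 (L l367 (L l390 (T t98 (L l367 (L l404 (T t174 N))))))))))))))))) (K a254 (M a2 (F (L l432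 (T t824 (L l143 (L l367 (L l404 (T t113 N)))))))) N)))))))))))))))))) (K a255 (M a3 (F (L l434 (T t137 (L l143 (L l261 (L l349 (L l351 (L l474 (T t376 (L l261 (L l296 (L l474 (T t3314 (L l142 (L l261 (L l296 (L l434 (T t3315 (K a1 (Fr a21 a42 l68 (Fr a149 a213 l347 (Fr a192 a106 l519 (Fr a23 a43 l67 (V t3316))))) N)))))))))))))))))))) N)))))))))))))))))))⟩
def e0_63__86_55 : Ent 4 := ⟨[a0, a63], [a86, a88], (M a48 (F (T t1 (T t2 (T t3 (T t0 (K a16 (M a60 (F (T t64 (L l14 (L l18 (L l477 (T t67 (L l351 (T t65 N))))))))) (K a32 (M a60 (F (T t64 (L l477 (T t67 (L l24 (L l28 (L l351 (T t65 N))))))))) (K a21 (M a192 (F (T t1922 (L l47 (L l347 (L l351 (T t20 (L l47 (L l347 (L l351 (T t29 N))))))))))) (K a37 (M a192 (F (T t36 (L l47 (L l351 (T t20 (L l351 (T t21 N)))))))) (K a53 (M a192 (F (T t36 (L l351 (L l491 (T t21 (L l142 (T t31 N)))))))) (K a26 (M a192 (F (T t1922 (L l351 (T t20 (L l351 (T t21 N))))))) (K a42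 (M a192 (F (T t36 (L l351 (T t20 (L l28 (L l351 (T t29 N)))))))) (K a58 (M a192 (F (T t1922 (L l351 (T t21 (L l54 (L l142 (L l498 (T t31 N))))))))) (K a15 (M a192 (F (T t1922 (L l325 (L l351 (T t20 (L l351 (L l469 (T t21 N))))))))) N)))))))))))))))⟩
def e0_63__86_56 : Ent 4 := ⟨[a0, a63], [a86, a89], (M a48 (L l95 (F (T t1 (T t2 (T t3 (T t0 (K a16 (M a60 (L l95 (F (T t64 (L l14 (L l18 (L l477 (T t67 (L l351 (T t65 (K a92 (M a83 (F (T t70 (L l477 (T t69 (L l14 (L l18 (T t44 N)))))))) (K a83 (M a92 (F (T t70 (L l451 (L l477 (T t69 (L l14 (L l18 (T t44 N))))))))) N)))))))))))) (K a32 (M a60 (L l95 (F (T t64 (L l477 (T t67 (L l24 (L l28 (L l351 (T t65 (K a92 (M a83 (F (T t70 (L l28 (L l477 (T t69 (T t44 N))))))) (K a83 (M a92 (F (T t70 (L l28 (L l451 (L l477 (T t69 (T t44 N)))))))) N)))))))))))) (K a21 (M a240 (L l95 (F (T t3317 (T t3318 (L l18 (T t3319 (L l47 (T t3320 (K a92 (M a83 (F (T t3321 (L l18 (L l92 (L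 l482 (T t3322 N))))))) (K a83 (M a92 (F (T t3321 (L l18 (L l88 (L l477 (T t3323 N))))))) N))))))))))) (K a37 (M a12 (L l95 (F (L l356 (T t445 (L l47 (L l371 (T t122 (L l21 (L l28 (T t3324 (K a92 (M a83 (F (L l47 (T t152 (L l356 (T t445 (L l21 (L l28 (T t3324 N))))))))) (K a83 (M a92 (F (L l86 (T t3325 (L l21 (L l28 (T t3324 N))))))) N))))))))))))) (K a53 (M a12 (L l95 (F (T t151 (L l374 (T t443 (L l47 (L l356 (L l371 (T t146 (K a92 (M a83 (F (T t151 (L l356 (T t445 (L l47 (L l356 (L l371 (T t146 N))))))))) (K a83 (M a92 (F (T t151 (L l87 (L l127 (T t3326 N)))))) N)))))))))))) (K a26 (M a12 (L l95 (F (L l54 (T t151 (L l374 (T t443 (L l12 (L l18 (L l356 (L l371 (T t146 (K a92 (M a83 (F (L l54 (T t151 (L l57 (T t550 (L l12 (L l18 (L l356 (L l371 (T t146 N))))))))))) (K a83 (M a92 (F (L l86 (T t3325 (L l12 (L l18 (L l356 (L l371 (T t146 N))))))))) N)))))))))))))) (K a42 (M a80 (L l95 (F (T t1678 (T t942 (L l28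 (L l132 (L l142 (L l390 (T t3327 (L l28 (T t3328 (K a92 (M a83 (F (T t3329 (L l28 (L l92 (L l374 (T t3330 N))))))) (K a83 (M a92 (F (T t3329 (L l88 (L l127 (L l477 (T t3331 N))))))) N)))))))))))))) (K a58 (M a12 (L l95 (F (L l54 (T t151 (L l374 (T t443 (L l356 (L l371 (T t146 (K a92 (M a83 (F (L l54 (T t151 (L l356 (T t445 (L l356 (L l371 (T t146 N))))))))) (K a83 (M a92 (F (L l86 (T t3325 (L l356 (L l371 (T t146 N))))))) N)))))))))))) (K a15 (M a4 (L l95 (F (L l464 (T t129 (L l63 (L l356 (L l464 (T t528 (T t520 (K a92 (M a83 (F (L l464 (T t1604 (L l63 (L l356 (L l464 (T t528 (T t520 N))))))))) (K a83 (M a92 (F (L l459 (L l464 (T t3332 (T t520 N)))))) N)))))))))))) (K a92 (M a83 (F (T t1 (T t2 (T t3 (T t0 (K a16 (M a1 (F (L l474 (L l479 (T t3333 (T t542 N)))))) (K a32 (M a1 (F (L l380 (L l474 (L l479 (T t3333 (L l20 (L l28 (T t542 N))))))))) (K a21 (M a17 (F (T t3334 (L l90 (L l366 (T t3335 N)))))) (K a37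 (M a80 (F (T t3336 (L l28 (L l92 (L l374 (T t3330 N))))))) (K a53 (M a17 (F (T t3087 (L l90 (L l366 (T t3335 N)))))) (K a26 (M a17 (F (T t3337 (L l16 (L l90 (L l366 (T t3335 N))))))) (K a42 (M a80 (F (T t3329 (L l28 (L l92 (L l374 (T t3330 N))))))) (K a58 (M a3 (F (L l36 (T t358 (L l91 (L l147 (T t3338 N))))))) (K a15 (M a1 (F (L l474 (L l479 (T t3333 (T t542 N)))))) N))))))))))))))) (K a83 (M a92 (F (T t1 (T t2 (T t3 (T t0 (K a16 (M a4 (F (L l459 (L l464 (T t3332 (T t520 N)))))) (K a32 (M a4 (F (L l400 (L l459 (L l464 (T t3332 (L l24 (L l28 (T t520 N))))))))) (K a21 (M a20 (F (T t3339 (L l86 (L l356 (T t3340 N)))))) (K a37 (M a80 (F (T t3336 (L l88 (L l127 (L l477 (T t3331 N))))))) (K a53 (M a20 (F (T t2163 (L l86 (L l356 (T t3340 N)))))) (K a26 (M a20 (F (T t3341 (L l12 (L l86 (L l356 (T t3340 N))))))) (K a42 (M a80 (F (T t3329 (L l88 (L l127 (L l477 (T t3331 N))))))) (K a58 (M a12 (F (L l86 (T t3325 (L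 l356 (L l371 (T t146 N))))))) (K a15 (M a4 (F (L l459 (L l464 (T t3332 (T t520 N)))))) N))))))))))))))) N))))))))))))))))))⟩
def e0_63__86_57 : Ent 4 := ⟨[a0, a63], [a86, a90], (M a12 (L l92 (F (T t122 (T t151 (T t152 (T t153 (K a4 (M a62 (L l92 (F (T t750 (L l50 (L l474 (L l477 (T t709 (L l50 (L l348 (L l372 (L l462 (T t710 (K a82 (M a94 (F (L l46 (L l50 (T t711 (L l372 (T t3342 N))))))) (K a94 (M a82 (F (T t750 (L l50 (L l348 (T t3343 N)))))) N))))))))))))))) (K a8 (M a62 (L l92 (F (T t711 (L l480 (L l483 (T t708 (L l2 (L l348 (L l372 (L l462 (T t710 (K a82 (M a94 (F (T t711 (L l372 (T t3342 N))))) (K a94 (M a82 (F (T t750 (L l348 (T t3343 N))))) N)))))))))))))) (K a21 (M a192 (L l92 (F (T t836 (L l15 (L l347 (L l351 (L l375 (T t450 (L l15 (L l347 (L l351 (L l375 (T t157 (K a82 (M a94 (F (T t468 (L l130 (L l142 (T t543 (L l15 (L l347 (L l351 (L l375 (T t157 N))))))))))) (K a94 (M a82 (F (T t468 (L l130 (L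 l142 (T t543 (L l15 (L l347 (L l351 (L l375 (T t157 N))))))))))) N)))))))))))))))) (K a25 (M a28 (L l92 (F (T t2735 (L l375 (L l483 (T t2481 (L l12 (L l56 (L l354 (L l372 (T t2482 (K a82 (M a94 (F (T t2735 (L l369 (L l372 (T t3344 N)))))) (K a94 (M a82 (F (T t2735 (L l363 (L l375 (L l471 (L l483 (T t2481 (L l12 (L l56 (L l354 (L l360 (L l372 (T t2482 N)))))))))))))) N)))))))))))))) (K a29 (M a3 (L l92 (F (T t137 (L l459 (L l483 (T t761 (T t758 (K a82 (M a94 (F (T t137 (L l456 (L l465 (L l483 (T t757 (T t758 N)))))))) (K a94 (M a82 (F (T t137 (L l88 (L l459 (L l471 (T t3345 N))))))) N)))))))))) (K a38 (M a62 (L l92 (F (T t750 (L l50 (L l474 (L l477 (T t709 (L l48 (L l50 (L l348 (L l372 (L l462 (T t710 (K a82 (M a94 (F (L l50 (T t711 (L l372 (T t3342 N)))))) (K a94 (M a82 (F (T t750 (L l48 (L l50 (L l348 (T t3343 N))))))) N)))))))))))))))) (K a42 (M a192 (L l92 (F (T t449 (L l351 (L l375 (T t450 (L l56 (L l351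 (L l375 (T t157 (K a82 (M a94 (F (T t836 (L l130 (L l142 (L l390 (T t543 (L l56 (L l351 (L l375 (T t157 N))))))))))) (K a94 (M a82 (F (T t836 (L l130 (L l142 (L l390 (T t543 (L l56 (L l351 (L l375 (T t157 N))))))))))) N))))))))))))) (K a46 (M a3 (L l92 (F (L l351 (T t353 (L l459 (L l483 (T t761 (L l26 (T t758 (K a82 (M a94 (F (L l351 (T t353 (L l456 (L l465 (L l483 (T t757 (L l26 (T t758 N)))))))))) (K a94 (M a82 (F (L l95 (T t3346 (L l26 (T t758 N)))))) N)))))))))))) (K a51 (M a62 (L l92 (F (T t711 (L l73 (L l480 (L l483 (T t708 (L l348 (L l372 (L l462 (T t710 (K a82 (M a94 (F (T t711 (L l372 (T t3342 N))))) (K a94 (M a82 (F (T t750 (L l348 (T t3343 N))))) N)))))))))))))) (K a82 (M a94 (F (T t122 (T t151 (T t152 (T t153 (K a4 (M a157 (F (T t3347 (L l369 (L l462 (T t3348 N)))))) (K a8 (M a252 (F (T t3349 (L l94 (T t3350 N))))) (K a21 (M a204 (F (T t3351 (L l18 (L l375 (L l483 (T t3352 N))))))) (K a25 (M a204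 (F (T t3351 (L l375 (L l483 (T t3352 N)))))) (K a29 (M a16 (F (T t652 (L l354 (L l359 (T t3353 N)))))) (K a38 (M a16 (F (L l21 (T t871 (L l26 (L l72 (L l354 (T t3353 N)))))))) (K a42 (M a204 (F (T t3351 (L l375 (L l483 (T t3352 N)))))) (K a46 (M a16 (F (T t871 (L l26 (L l354 (T t3353 N)))))) (K a51 (M a16 (F (T t652 (L l354 (T t3353 N))))) N))))))))))))))) (K a94 (M a82 (F (T t122 (T t151 (T t152 (T t153 (K a4 (M a2 (F (L l95 (T t3354 (L l1 (L l50 (L l348 (L l360 (L l372 (L l456 (T t3355 N))))))))))) (K a8 (M a2 (F (L l95 (T t3354 (L l348 (L l360 (L l372 (L l456 (T t3355 N))))))))) (K a21 (M a243 (F (L l474 (L l477 (T t3356 (L l88 (L l95 (T t3357 N)))))))) (K a25 (M a240 (F (L l465 (T t3358 (L l15 (L l351 (T t3359 N))))))) (K a29 (M a240 (F (T t3360 (L l88 (L l94 (L l459 (T t3361 N))))))) (K a38 (M a2 (F (L l95 (T t3354 (L l48 (L l50 (L l348 (L l360 (L l372 (T t3362 N)))))))))) (K a42 (M a243 (F (L l88 (L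 l95 (T t3363 (L l66 (L l474 (L l477 (T t3356 N))))))))) (K a46 (M a240 (F (L l480 (T t3364 (T t3365 N))))) (K a51 (M a240 (F (L l465 (T t3358 (L l39 (T t3360 N)))))) N))))))))))))))) N))))))))))))))))))⟩
def e0_63__86_58 : Ent 4 := ⟨[a0, a63], [a86, a91], (M a12 (F (T t122 (T t151 (T t152 (T t153 (K a4 (M a60 (F (T t662 (L l481 (T t398 (L l351 (T t448 N))))))) (K a8 (M a60 (F (T t570 (L l477 (T t67 (L l52 (L l56 (L l351 (T t448 N))))))))) (K a21 (M a192 (F (T t836 (L l15 (L l347 (L l351 (L l481 (T t450 (L l15 (L l347 (L l351 (T t157 N)))))))))))) (K a25 (M a192 (F (T t449 (L l15 (L l351 (L l481 (T t450 (L l351 (T t21 N))))))))) (K a29 (M a192 (F (T t449 (L l351 (L l371 (T t21 (L l142 (T t160 N)))))))) (K a38 (M a192 (F (T t156 (L l351 (L l481 (T t450 (L l351 (T t21 N)))))))) (K a42 (M a192 (F (T t449 (L l351 (L l481 (T t450 (L l56 (L l351 (T t157 N))))))))) (K a46 (M a192 (F (T t449 (L l351 (T t21 (L l26 (L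 l142 (L l408 (T t160 N))))))))) (K a51 (M a192 (F (T t1725 (L l351 (L l415 (L l481 (T t450 (L l351 (L l439 (T t21 N)))))))))) N)))))))))))))))⟩
def e0_63__86_59 : Ent 4 := ⟨[a0, a63], [a86, a92], (M a12 (L l95 (F (T t122 (T t151 (T t152 (T t153 (K a4 (M a60 (L l95 (F (T t398 (L l46 (L l50 (L l477 (T t67 (L l351 (T t448 (K a89 (M a83 (F (T t402 (L l477 (T t69 (L l46 (L l50 (L l371 (T t1096 N))))))))) (K a83 (M a89 (F (T t870 (T t662 N)))) N)))))))))))) (K a8 (M a170 (L l95 (F (T t2190 (L l87 (L l134 (T t2498 (T t2626 (K a89 (M a83 (F (T t2190 (L l87 (L l91 (L l134 (L l150 (T t2498 (L l371 (T t3366 N)))))))))) (K a83 (M a89 (F (L l451 (T t3367 (L l87 (T t2102 (L l316 (T t870 N)))))))) N)))))))))) (K a21 (M a89 (F (T t2786 (L l50 (T t863 (L l50 (T t864 N))))))) (K a25 (M a89 (F (T t2786 (T t863 (T t864 N))))) (K a29 (M a149 (L l95 (F (T t176 (L l134 (L l142 (T t648 (T t961 (K a89 (M a83 (F (T t176 (L l132 (L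 l134 (L l142 (L l150 (T t648 (L l124 (L l150 (L l464 (T t3368 N)))))))))))) (K a83 (M a89 (F (T t3369 (L l451 (L l474 (T t2755 (L l15 (T t175 N)))))))) N)))))))))) (K a38 (M a89 (F (T t3370 (L l50 (T t863 (L l26 (L l50 (T t864 N)))))))) (K a42 (M a89 (F (T t3370 (T t863 (L l26 (T t864 N)))))) (K a46 (M a3 (L l95 (F (L l351 (T t353 (L l459 (T t761 (L l26 (T t758 (K a89 (M a83 (F (L l90 (T t3371 (L l351 (L l456 (T t1099 N))))))) (K a83 (M a89 (F (T t863 (L l60 (T t358 N))))) N))))))))))) (K a51 (M a89 (F (T t3372 (L l415 (T t863 (L l489 (T t870 N))))))) (K a89 (M a83 (F (T t151 (L l371 (T t122 (T t152 (L l464 (T t153 (K a4 (M a1 (F (L l90 (L l474 (T t3373 (L l461 (T t1103 N))))))) (K a8 (M a170 (F (T t2190 (L l87 (L l91 (L l134 (L l150 (T t2498 (L l371 (T t3366 N)))))))))) (K a21 (M a68 (F (T t3374 (L l15 (L l371 (T t767 (L l132 (L l347 (L l351 (L l371 (L l464 (T t3375 (L l15 (L l371 (L l464 (T t3376 N))))))))))))))))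 (K a25 (M a28 (L l353 (F (T t2481 (T t2735 (L l12 (L l56 (T t2482 (K a153 (M a217 (L l369 (F (T t2481 (T t2735 (L l12 (L l56 (T t2482 (K a220 (M a19 (F (L l364 (T t2735 (L l363 (T t2481 (L l12 (L l56 (T t2482 N))))))))) (K a19 (M a220 (F (L l10 (T t2735 (L l17 (T t2481 (L l12 (L l56 (T t2482 N))))))))) N)))))))))) (K a217 (M a153 (F (T t2481 (T t2735 (L l12 (L l56 (T t2482 N))))))) N)))))))))) (K a29 (M a149 (F (T t176 (L l132 (L l134 (L l142 (L l150 (T t648 (L l124 (L l150 (L l464 (T t3368 N)))))))))))) (K a38 (M a3 (F (L l90 (T t3371 (L l48 (L l50 (L l351 (L l456 (T t1099 N))))))))) (K a42 (M a68 (F (T t3374 (L l371 (T t767 (L l56 (L l132 (L l351 (L l371 (L l464 (T t3375 (L l56 (L l371 (L l464 (T t3376 N))))))))))))))) (K a46 (M a3 (F (L l90 (T t3371 (L l351 (L l456 (T t1099 N))))))) (K a51 (M a1 (F (L l90 (L l474 (T t3373 (L l461 (T t1103 N))))))) N))))))))))))))))) (K a83 (M a89 (F (T t870 (T t122 (L l451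 (T t863 N)))))) N))))))))))))))))))⟩
def e0_63__86_60 : Ent 4 := ⟨[a0, a63], [a86, a93], (M a48 (F (T t1 (T t2 (T t3 (T t0 (K a16 (M a60 (F (T t64 (L l14 (L l18 (L l477 (T t67 (L l351 (T t65 N))))))))) (K a32 (M a60 (F (T t64 (L l477 (T t67 (L l24 (L l28 (L l351 (T t65 N))))))))) (K a21 (M a192 (F (T t837 (L l47 (L l347 (L l351 (T t20 (L l47 (L l347 (L l351 (L l362 (T t29 N)))))))))))) (K a37 (M a192 (F (T t19 (L l47 (L l351 (T t20 (L l138 (L l351 (L l470 (T t21 N)))))))))) (K a53 (M a192 (F (T t19 (L l138 (L l351 (L l470 (L l491 (T t21 (L l142 (T t31 N)))))))))) (K a26 (M a192 (F (T t837 (L l351 (T t20 (L l138 (L l351 (L l470 (T t21 N))))))))) (K a42 (M a192 (F (T t19 (L l351 (T t20 (L l28 (L l351 (L l362 (T t29 N))))))))) (K a58 (M a192 (F (T t19 (L l138 (L l351 (L l470 (T t21 (L l54 (L l142 (L l498 (T t31 N))))))))))) (K a15 (M a192 (F (T t1922 (L l325 (L l351 (T t20 (L l138 (L l351 (L l469 (L l470 (T t21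 N))))))))))) N)))))))))))))))⟩
def e0_63__86_61 : Ent 4 := ⟨[a0, a63], [a86, a94], (M a12 (L l92 (F (T t122 (T t151 (T t152 (T t153 (K a4 (M a62 (L l92 (F (T t750 (L l50 (L l474 (L l477 (T t709 (L l50 (L l348 (L l360 (T t710 (K a82 (M a90 (F (L l46 (L l50 (T t711 (L l360 (L l456 (L l458 (T t3377 N))))))))) (K a90 (M a82 (F (T t750 (L l50 (L l348 (T t3343 N)))))) N)))))))))))))) (K a8 (M a62 (L l92 (F (T t711 (L l468 (L l471 (T t708 (L l2 (L l348 (L l360 (T t710 (K a82 (M a90 (F (T t711 (L l360 (L l456 (T t3377 N)))))) (K a90 (M a82 (F (T t750 (L l348 (T t3343 N))))) N))))))))))))) (K a21 (M a192 (L l92 (F (T t836 (L l15 (L l347 (L l351 (T t450 (L l15 (L l347 (L l351 (T t157 (K a82 (M a90 (F (T t836 (L l347 (L l351 (L l471 (T t3378 N))))))) (K a90 (M a82 (F (T t468 (L l130 (L l142 (T t543 (L l15 (L l347 (L l351 (L l375 (T t157 N))))))))))) N)))))))))))))) (K a25 (M a192 (L l92 (F (T t449 (L l15 (L l351 (T t450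 (L l351 (T t21 (K a82 (M a90 (F (T t449 (L l351 (L l471 (T t3378 N)))))) (K a90 (M a82 (F (T t836 (L l15 (L l351 (L l375 (T t35 (L l130 (L l142 (T t543 N)))))))))) N))))))))))) (K a29 (M a192 (L l92 (F (T t449 (L l351 (L l371 (T t21 (L l142 (T t160 (K a82 (M a90 (F (T t449 (L l351 (L l371 (L l471 (T t3378 N))))))) (K a90 (M a82 (F (T t468 (L l15 (L l351 (L l371 (L l375 (T t35 (L l15 (L l351 (L l371 (L l375 (T t776 N))))))))))))) N))))))))))) (K a38 (M a62 (L l92 (F (T t750 (L l50 (L l474 (L l477 (T t709 (L l48 (L l50 (L l348 (L l360 (T t710 (K a82 (M a90 (F (L l50 (T t711 (L l360 (L l384 (L l456 (T t3377 N)))))))) (K a90 (M a82 (F (T t750 (L l48 (L l50 (L l348 (T t3343 N))))))) N))))))))))))))) (K a42 (M a192 (L l92 (F (T t449 (L l351 (T t450 (L l56 (L l351 (T t157 (K a82 (M a90 (F (T t449 (L l351 (L l471 (T t3378 N)))))) (K a90 (M a82 (F (T t836 (L l130 (L l142 (L l390 (T t543 (L l56 (L l351 (L l375 (T t157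 N))))))))))) N))))))))))) (K a46 (M a192 (L l92 (F (T t449 (L l351 (T t21 (L l26 (L l142 (L l408 (T t160 (K a82 (M a90 (F (T t449 (L l351 (L l471 (T t3378 N)))))) (K a90 (M a82 (F (T t468 (L l351 (L l375 (T t35 (L l351 (L l375 (T t776 N))))))))) N)))))))))))) (K a51 (M a62 (L l92 (F (T t711 (L l73 (L l468 (L l471 (T t708 (L l348 (L l360 (T t710 (K a82 (M a90 (F (T t711 (L l360 (L l456 (T t3377 N)))))) (K a90 (M a82 (F (T t750 (L l348 (T t3343 N))))) N))))))))))))) (K a82 (M a90 (F (T t122 (T t151 (T t152 (T t153 (K a4 (M a240 (F (L l89 (T t2742 (L l454 (T t2743 N)))))) (K a8 (M a240 (F (T t2743 (L l89 (T t2742 N))))) (K a21 (M a192 (F (T t836 (L l347 (L l351 (L l471 (T t3378 N))))))) (K a25 (M a192 (F (T t449 (L l351 (L l471 (T t3378 N)))))) (K a29 (M a192 (F (T t449 (L l351 (L l371 (L l471 (T t3378 N))))))) (K a38 (M a192 (F (T t836 (L l351 (L l471 (T t3378 N)))))) (K a42 (M a192 (F (T t449 (L l351 (L l471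 (T t3378 N)))))) (K a46 (M a192 (F (T t449 (L l351 (L l471 (T t3378 N)))))) (K a51 (M a192 (F (T t159 (L l73 (L l351 (L l471 (T t3378 N))))))) N))))))))))))))) (K a90 (M a82 (F (T t122 (T t151 (T t152 (T t153 (K a4 (M a2 (F (L l95 (T t3354 (L l1 (L l50 (L l348 (L l360 (L l372 (L l456 (T t3355 N))))))))))) (K a8 (M a2 (F (L l95 (T t3354 (L l348 (L l360 (L l372 (L l456 (T t3355 N))))))))) (K a21 (M a243 (F (L l474 (L l477 (T t3356 (L l88 (L l95 (T t3357 N)))))))) (K a25 (M a240 (F (L l465 (T t3358 (L l15 (L l351 (T t3359 N))))))) (K a29 (M a240 (F (T t3360 (L l88 (L l94 (L l459 (T t3361 N))))))) (K a38 (M a2 (F (L l95 (T t3354 (L l48 (L l50 (L l348 (L l360 (L l372 (T t3362 N)))))))))) (K a42 (M a243 (F (L l88 (L l95 (T t3363 (L l66 (L l474 (L l477 (T t3356 N))))))))) (K a46 (M a240 (F (L l480 (T t3364 (T t3365 N))))) (K a51 (M a240 (F (L l465 (T t3358 (L l39 (T t3360 N)))))) N))))))))))))))) N))))))))))))))))))⟩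
def e0_63__86_62 : Ent 4 := ⟨[a0, a63], [a86, a95], (M a12 (F (T t122 (T t151 (T t152 (T t153 (K a4 (M a60 (F (T t662 (L l469 (T t398 (L l351 (T t448 N))))))) (K a8 (M a60 (F (T t570 (L l477 (T t67 (L l52 (L l56 (L l351 (T t448 N))))))))) (K a21 (M a192 (F (T t836 (L l15 (L l347 (L l351 (T t450 (L l15 (L l347 (L l351 (T t157 N))))))))))) (K a25 (M a192 (F (T t449 (L l15 (L l351 (T t450 (L l137 (L l351 (L l469 (T t21 N)))))))))) (K a29 (M a192 (F (T t449 (L l137 (L l351 (L l371 (L l469 (T t21 (L l142 (T t160 N)))))))))) (K a38 (M a192 (F (T t156 (L l351 (T t450 (L l137 (L l351 (L l469 (T t21 N))))))))) (K a42 (M a192 (F (T t449 (L l351 (T t450 (L l56 (L l351 (T t157 N)))))))) (K a46 (M a192 (F (T t449 (L l137 (L l351 (L l469 (T t21 (L l26 (L l142 (L l408 (T t160 N))))))))))) (K a51 (M a192 (F (T t1725 (L l351 (L l415 (T t450 (L l137 (L l351 (L l439 (L l469 (T t21 N))))))))))) N)))))))))))))))⟩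
def e0_63__86_63 : Ent 4 := ⟨[a0, a63], [a86, a104], (M a48 (F (T t1 (T t2 (T t3 (T t0 (K a16 (M a60 (F (T t64 (L l14 (L l18 (L l477 (T t67 (L l351 (L l388 (T t65 N)))))))))) (K a32 (M a60 (F (T t64 (L l477 (T t67 (L l24 (L l28 (L l351 (L l388 (T t65 N)))))))))) (K a21 (M a192 (F (T t27 (L l47 (L l347 (L l351 (T t20 (L l47 (L l347 (L l351 (T t29 N))))))))))) (K a37 (M a192 (F (T t27 (L l47 (L l351 (T t20 (L l351 (T t21 N)))))))) (K a53 (M a192 (F (T t27 (L l351 (L l491 (T t21 (L l98 (L l100 (L l142 (T t31 N)))))))))) (K a26 (M a192 (F (T t27 (L l351 (T t20 (L l351 (T t21 N))))))) (K a42 (M a192 (F (T t27 (L l351 (T t20 (L l28 (L l351 (T t29 N)))))))) (K a58 (M a192 (F (T t27 (L l351 (T t21 (L l54 (L l98 (L l100 (L l142 (L l498 (T t31 N))))))))))) (K a15 (M a192 (F (T t55 (L l325 (L l351 (T t20 (L l351 (L l469 (T t21 N))))))))) N)))))))))))))))⟩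
def e0_63__86_64 : Ent 4 := ⟨[a0, a63], [a86, a105], (M a48 (L l145 (F (T t1 (T t2 (T t3 (T t0 (K a16 (M a60 (L l145 (F (T t42 (L l14 (L l18 (L l477 (T t67 (L l351 (L l392 (T t65 (K a124 (M a67 (F (T t70 (L l477 (T t69 (L l351 (L l392 (T t65 N)))))))) (K a67 (M a124 (F (T t70 (L l76 (T t1133 N))))) N))))))))))))) (K a32 (M a60 (L l145 (F (T t42 (L l477 (T t67 (L l24 (L l28 (L l351 (L l392 (T t65 (K a124 (M a67 (F (T t70 (L l28 (L l477 (T t69 (L l24 (L l28 (L l351 (L l392 (T t65 N))))))))))) (K a67 (M a124 (F (T t70 (L l76 (L l400 (T t1133 N)))))) N))))))))))))) (K a21 (M a192 (L l145 (F (T t837 (L l47 (L l347 (L l351 (L l515 (T t20 (L l47 (L l347 (L l351 (L l515 (T t29 (K a124 (M a67 (F (T t28 (L l98 (L l142 (T t206 (L l109 (L l347 (L l351 (L l515 (T t861 N))))))))))) (K a67 (M a124 (F (T t28 (L l98 (L l142 (T t206 (L l143 (L l347 (L l351 (L l515 (T t861 N))))))))))) N)))))))))))))))) (K a37 (M a52 (L l145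 (F (L l500 (T t83 (L l392 (L l500 (T t82 (L l21 (L l28 (T t84 (K a124 (M a67 (F (L l500 (T t83 (L l392 (L l500 (T t82 (L l21 (L l28 (T t84 N)))))))))) (K a67 (M a124 (F (L l121 (L l500 (T t3379 (L l21 (L l28 (T t84 N)))))))) N))))))))))))) (K a53 (M a60 (L l145 (F (L l392 (T t248 (L l47 (L l477 (T t67 (L l35 (L l47 (L l459 (L l474 (L l500 (L l515 (T t235 (K a124 (M a67 (F (L l410 (T t880 (L l477 (T t69 (L l35 (L l47 (L l459 (L l474 (L l500 (L l515 (T t235 N))))))))))))) (K a67 (M a124 (F (L l392 (T t248 (L l143 (T t1126 N)))))) N))))))))))))))))) (K a26 (M a60 (L l145 (F (T t42 (L l18 (L l477 (T t67 (L l57 (L l392 (L l500 (T t247 (K a124 (M a67 (F (T t489 (L l54 (L l57 (L l500 (T t451 (L l54 (L l477 (T t69 N)))))))))) (K a67 (M a124 (F (T t489 (L l143 (T t1126 N))))) N))))))))))))) (K a42 (M a192 (L l145 (F (T t19 (L l351 (L l515 (T t20 (L l28 (L l351 (L l515 (T t29 (K a124 (M a67 (F (T t19 (L l54 (L l98 (L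 l142 (L l390 (T t206 (L l28 (L l109 (L l351 (L l515 (T t861 N))))))))))))) (K a67 (M a124 (F (T t19 (L l54 (L l98 (L l142 (L l390 (T t206 (L l28 (L l143 (L l351 (L l515 (T t861 N))))))))))))) N))))))))))))) (K a58 (M a60 (L l145 (F (T t489 (L l477 (T t67 (L l32 (L l459 (L l474 (L l500 (L l515 (T t235 (K a124 (M a67 (F (T t489 (L l36 (L l54 (L l477 (T t69 (L l32 (L l459 (L l474 (L l500 (L l515 (T t235 N))))))))))))) (K a67 (M a124 (F (T t489 (L l143 (T t1126 N))))) N)))))))))))))) (K a15 (M a52 (L l145 (F (L l500 (T t491 (L l3 (L l392 (L l500 (T t82 (T t84 (K a124 (M a67 (F (L l500 (T t491 (L l3 (L l392 (L l500 (T t82 (T t84 N))))))))) (K a67 (M a124 (F (L l121 (L l500 (T t3379 (T t84 N)))))) N)))))))))))) (K a124 (M a67 (F (T t1 (T t2 (T t3 (T t0 (K a16 (M a112 (F (T t350 (L l92 (L l142 (L l344 (T t3380 N))))))) (K a32 (M a112 (F (T t350 (L l92 (L l142 (T t3380 N)))))) (K a21 (M a64 (F (L l110 (T t363 (L l87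 (L l142 (T t3381 N))))))) (K a37 (M a64 (F (T t1184 (L l87 (L l142 (T t3381 N)))))) (K a53 (M a64 (F (T t1184 (L l87 (L l142 (T t3381 N)))))) (K a26 (M a64 (F (L l110 (T t363 (L l87 (L l142 (T t3381 N))))))) (K a42 (M a64 (F (T t1184 (L l87 (L l142 (T t3381 N)))))) (K a58 (M a64 (F (T t1184 (L l87 (L l142 (T t3381 N)))))) (K a15 (M a64 (F (T t1184 (L l87 (L l142 (T t3381 N)))))) N))))))))))))))) (K a67 (M a124 (F (T t1 (T t2 (T t3 (T t0 (K a16 (M a112 (F (T t350 (L l98 (L l133 (L l340 (T t1182 N))))))) (K a32 (M a112 (F (T t350 (L l98 (L l133 (L l400 (T t1182 N))))))) (K a21 (M a64 (F (L l121 (T t363 (L l98 (L l141 (T t1183 N))))))) (K a37 (M a64 (F (T t1184 (L l98 (L l141 (T t1183 N)))))) (K a53 (M a64 (F (T t1184 (L l98 (L l141 (T t1183 N)))))) (K a26 (M a64 (F (L l121 (T t363 (L l98 (L l141 (T t1183 N))))))) (K a42 (M a64 (F (T t1184 (L l98 (L l141 (T t1183 N)))))) (K a58 (M a64 (F (T t1184 (L l98 (L l141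 (T t1183 N)))))) (K a15 (M a64 (F (T t1184 (L l98 (L l141 (T t1183 N)))))) N))))))))))))))) N))))))))))))))))))⟩
def e0_63__86_65 : Ent 4 := ⟨[a0, a63], [a86, a106], (M a48 (L l142 (F (T t1 (L l390 (L l498 (T t2 (L l411 (T t3 (L l390 (T t0 (K a16 (M a60 (L l142 (F (T t64 (L l14 (L l18 (L l393 (L l477 (T t67 (L l351 (L l390 (L l498 (T t65 (K a66 (M a126 (F (T t64 (L l309 (L l351 (T t783 N)))))) (K a126 (M a66 (F (T t64 (L l390 (L l432 (L l477 (L l516 (T t69 (L l351 (L l390 (L l498 (T t65 N)))))))))))) N))))))))))))))) (K a32 (M a60 (L l142 (F (T t64 (L l393 (L l477 (T t67 (L l24 (L l28 (L l351 (L l390 (L l498 (T t65 (K a66 (M a126 (F (T t64 (L l24 (L l309 (L l351 (L l400 (T t783 N)))))))) (K a126 (M a66 (F (T t64 (L l28 (L l390 (L l432 (L l477 (L l516 (T t69 (L l24 (L l28 (L l351 (L l390 (L l498 (T t65 N))))))))))))))) N))))))))))))))) (K a21 (M a255 (L l142 (F (T t511 (L l390 (L l474 (T t512 (L l18 (L l87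 (L l144 (L l347 (L l498 (T t513 (K a66 (M a126 (F (T t511 (L l87 (L l127 (T t3382 N)))))) (K a126 (M a66 (F (T t511 (L l390 (L l474 (T t1162 (L l18 (L l87 (L l144 (L l347 (L l498 (T t513 N)))))))))))) N))))))))))))))) (K a37 (M a3 (L l142 (F (L l366 (T t348 (L l47 (L l351 (T t353 (L l25 (L l28 (L l390 (L l393 (T t87 (K a66 (M a126 (F (T t780 (L l47 (L l351 (T t353 N)))))) (K a126 (M a66 (F (L l516 (T t3383 (L l25 (L l28 (L l390 (L l393 (T t87 N))))))))) N))))))))))))))) (K a53 (M a3 (L l142 (F (T t86 (L l390 (L l393 (T t137 (L l390 (L l393 (T t87 (K a66 (M a126 (F (T t780 (L l35 (L l306 (L l390 (L l474 (T t665 N)))))))) (K a126 (M a66 (F (L l474 (T t3384 (L l47 (L l351 (L l366 (T t560 N)))))))) N)))))))))))) (K a26 (M a3 (L l142 (F (L l72 (T t86 (L l54 (L l390 (L l393 (T t137 (L l16 (L l18 (L l351 (L l366 (T t560 (K a66 (M a126 (F (T t780 (L l54 (L l306 (L l390 (L l474 (T t665 N)))))))) (K a126 (M a66 (F (L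 l474 (T t3384 (L l16 (L l18 (L l351 (L l366 (T t560 N))))))))) N)))))))))))))))) (K a42 (M a170 (L l142 (F (T t316 (L l87 (L l144 (T t514 (L l54 (L l104 (L l144 (L l498 (T t515 (L l54 (L l498 (T t516 (K a66 (M a126 (F (T t316 (T t780 (L l66 (L l87 (L l144 (L l145 (L l516 (T t3385 N)))))))))) (K a126 (M a66 (F (T t316 (L l87 (L l144 (T t514 (L l54 (L l104 (L l144 (L l498 (T t515 (L l54 (L l498 (T t516 N)))))))))))))) N))))))))))))))))) (K a58 (M a12 (L l142 (L l498 (F (T t122 (T t443 (T t146 (K a66 (M a126 (L l498 (F (T t122 (L l87 (L l127 (T t3382 (K a202 (M a154 (F (T t3386 (T t122 N)))) (K a154 (M a202 (L l366 (F (T t122 (L l87 (L l127 (T t3382 (K a18 (M a222 (F (T t3231 (L l42 (L l356 (T t146 N)))))) (K a222 (M a18 (F (T t122 (L l87 (L l368 (T t791 N)))))) N))))))))) N))))))))) (K a202 (M a154 (L l142 (F (T t122 (L l104 (L l127 (T t822 (K a66 (M a126 (F (T t3386 (T t122 N)))) (K a126 (M a66 (F (T t3386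 (L l54 (L l390 (T t153 N)))))) N))))))))) (K a154 (M a202 (L l142 (L l366 (F (T t443 (L l54 (L l390 (T t153 (L l54 (L l390 (L l408 (T t3324 (K a66 (M a126 (L l366 (F (T t122 (L l87 (L l127 (T t3382 (K a18 (M a222 (F (T t3231 (L l42 (L l356 (T t146 N)))))) (K a222 (M a18 (F (T t122 (L l87 (L l368 (T t791 N)))))) N))))))))) (K a18 (M a222 (L l142 (F (T t443 (L l54 (L l390 (T t153 (L l10 (L l54 (L l390 (L l408 (T t3324 (K a66 (M a126 (F (T t3231 (L l42 (L l356 (T t146 N)))))) (K a126 (M a66 (F (T t443 (L l54 (L l390 (T t153 (L l10 (L l54 (L l390 (L l408 (T t3324 N))))))))))) N)))))))))))))) (K a222 (M a18 (L l142 (F (T t443 (L l36 (L l510 (T t3387 (L l54 (L l390 (T t153 (K a66 (M a126 (F (T t122 (L l87 (L l368 (T t791 N)))))) (K a126 (M a66 (F (T t443 (L l474 (T t3388 N))))) N)))))))))))) (K a126 (M a66 (L l366 (F (T t443 (L l54 (L l390 (T t153 (L l54 (L l390 (L l408 (T t3324 (K a18 (M a222 (F (T t443 (L l54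 (L l390 (T t153 (L l10 (L l54 (L l390 (L l408 (T t3324 N))))))))))) (K a222 (M a18 (F (T t443 (L l474 (T t3388 N))))) N))))))))))))) N)))))))))))))))) (K a126 (M a66 (L l498 (F (T t445 (L l54 (L l390 (T t153 (L l54 (L l390 (L l408 (T t3324 (K a202 (M a154 (F (T t3386 (L l54 (L l390 (T t153 N)))))) (K a154 (M a202 (L l366 (F (T t443 (L l54 (L l390 (T t153 (L l54 (L l390 (L l408 (T t3324 (K a18 (M a222 (F (T t443 (L l54 (L l390 (T t153 (L l10 (L l54 (L l390 (L l408 (T t3324 N))))))))))) (K a222 (M a18 (F (T t443 (L l474 (T t3388 N))))) N))))))))))))) N))))))))))))) N))))))))))) (K a15 (M a2 (L l142 (F (T t3389 (L l63 (L l516 (T t824 (L l348 (L l366 (T t340 (K a66 (M a126 (F (L l351 (T t338 (L l327 (L l369 (T t784 N))))))) (K a126 (M a66 (F (L l145 (T t3390 (L l348 (T t832 N)))))) N)))))))))))) (K a66 (M a126 (F (T t1 (T t780 (K a16 (M a240 (F (T t781 (T t3391 N)))) (K a32 (M a240 (F (T t781 (L l400 (T t3391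 N))))) N)))))) (K a126 (M a66 (F (T t1 (L l390 (L l498 (T t2 (L l411 (T t3 (L l390 (T t0 (K a16 (M a2 (F (L l145 (T t3390 (L l18 (L l348 (T t832 N))))))) (K a32 (M a2 (F (L l145 (T t3390 (L l348 (T t832 N)))))) (K a21 (M a64 (F (T t363 (L l65 (L l145 (L l477 (T t3392 (L l145 (T t3393 N))))))))) (K a37 (M a192 (F (T t27 (L l47 (L l351 (T t3394 N)))))) (K a53 (M a192 (F (T t27 (L l390 (L l393 (T t205 N)))))) (K a26 (M a192 (F (T t27 (L l54 (L l390 (L l393 (T t205 N))))))) (K a42 (M a170 (F (T t316 (L l87 (L l144 (T t514 (L l54 (L l104 (L l144 (L l498 (T t515 (L l54 (L l498 (T t516 N)))))))))))))) (K a58 (M a3 (L l498 (F (L l474 (T t3384 (L l351 (L l366 (T t560 (K a202 (M a154 (F (L l351 (T t353 (L l104 (L l127 (L l426 (T t517 N)))))))) (K a154 (M a202 (L l366 (F (L l369 (T t559 (L l54 (T t3395 (K a18 (M a222 (F (L l351 (T t353 (L l104 (L l144 (L l227 (T t3396 N)))))))) (K a222 (Fr a18 a33 l45 (V t3397)) N)))))))))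 N)))))))))) (K a15 (M a192 (F (T t55 (L l63 (L l390 (L l393 (T t205 N))))))) N))))))))))))))))))) N))))))))))))))))))))))⟩
def e0_63__86_66 : Ent 4 := ⟨[a0, a63], [a86, a107], (M a48 (F (T t1 (T t2 (L l409 (T t3 (T t0 (K a16 (M a60 (F (T t64 (L l14 (L l18 (L l391 (L l477 (T t67 (L l351 (T t65 N)))))))))) (K a32 (M a60 (F (T t64 (L l391 (L l477 (T t67 (L l24 (L l28 (L l351 (T t65 N)))))))))) (K a21 (M a192 (F (T t837 (L l47 (L l347 (L l351 (T t20 (L l47 (L l347 (L l351 (T t29 N))))))))))) (K a37 (M a192 (F (T t19 (L l47 (L l351 (T t20 (L l143 (L l351 (T t21 N))))))))) (K a53 (M a192 (F (T t19 (L l143 (L l351 (L l491 (T t21 (L l98 (L l142 (T t31 N)))))))))) (K a26 (M a192 (F (T t837 (L l351 (T t20 (L l143 (L l351 (T t21 N)))))))) (K a42 (M a192 (F (T t19 (L l351 (T t20 (L l28 (L l351 (T t29 N)))))))) (K a58 (M a192 (F (T t19 (L l143 (L l351 (T t21 (L l54 (L l98 (L l142 (L l498 (T t31 N))))))))))) (K a15 (M a192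 (F (T t1922 (L l325 (L l351 (T t20 (L l143 (L l351 (L l469 (T t21 N)))))))))) N))))))))))))))))⟩
def e0_63__86_67 : Ent 4 := ⟨[a0, a63], [a86, a108], (M a48 (F (T t1 (T t2 (T t3 (T t0 (K a16 (M a60 (F (T t64 (L l14 (L l18 (L l477 (T t67 (L l351 (T t65 N))))))))) (K a32 (M a60 (F (T t64 (L l477 (T t67 (L l24 (L l28 (L l351 (T t65 N))))))))) (K a21 (M a192 (F (T t27 (L l47 (L l347 (L l351 (T t20 (L l47 (L l347 (L l351 (T t29 N))))))))))) (K a37 (M a192 (F (T t19 (L l47 (L l351 (T t20 (L l351 (T t21 N)))))))) (K a53 (M a192 (F (T t19 (L l351 (L l491 (T t21 (L l100 (L l142 (T t31 N))))))))) (K a26 (M a192 (F (T t27 (L l351 (T t20 (L l351 (T t21 N))))))) (K a42 (M a192 (F (T t19 (L l351 (T t20 (L l28 (L l351 (T t29 N)))))))) (K a58 (M a192 (F (T t19 (L l351 (T t21 (L l54 (L l100 (L l142 (L l498 (T t31 N)))))))))) (K a15 (M a192 (F (T t36 (L l325 (L l351 (T t20 (L l351 (L l469 (T t21 N))))))))) N)))))))))))))))⟩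
def e0_63__86_68 : Ent 4 := ⟨[a0, a63], [a86, a109], (M a48 (F (T t1 (T t2 (T t3 (T t0 (K a16 (M a60 (F (T t42 (L l14 (L l18 (L l477 (T t67 (L l351 (T t65 N))))))))) (K a32 (M a60 (F (T t42 (L l477 (T t67 (L l24 (L l28 (L l351 (T t65 N))))))))) (K a21 (M a192 (F (T t837 (L l47 (L l347 (L l351 (L l506 (T t20 (L l47 (L l347 (L l351 (T t29 N)))))))))))) (K a37 (M a192 (F (T t19 (L l47 (L l351 (L l506 (T t20 (L l351 (T t21 N))))))))) (K a53 (M a192 (F (T t19 (L l351 (L l491 (T t21 (L l142 (T t31 N)))))))) (K a26 (M a192 (F (T t27 (L l351 (L l506 (T t20 (L l351 (T t21 N)))))))) (K a42 (M a192 (F (T t19 (L l351 (L l506 (T t20 (L l28 (L l351 (T t29 N))))))))) (K a58 (M a192 (F (T t19 (L l351 (T t21 (L l54 (L l142 (L l498 (T t31 N))))))))) (K a15 (M a192 (F (T t1922 (L l325 (L l351 (L l506 (T t20 (L l351 (L l469 (T t21 N)))))))))) N)))))))))))))))⟩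
def e0_63__86_69 : Ent 4 := ⟨[a0, a63], [a86, a110], (M a48 (F (T t1 (T t2 (L l399 (T t3 (T t0 (K a16 (M a60 (F (T t64 (L l14 (L l18 (L l477 (T t67 (L l351 (T t65 N))))))))) (K a32 (M a60 (F (T t64 (L l477 (T t67 (L l24 (L l28 (L l351 (T t65 N))))))))) (K a21 (M a192 (F (T t837 (L l47 (L l347 (L l351 (T t20 (L l47 (L l347 (L l351 (T t29 N))))))))))) (K a37 (M a192 (F (T t19 (L l47 (L l351 (T t20 (L l138 (L l351 (T t21 N))))))))) (K a53 (M a192 (F (T t19 (L l138 (L l351 (L l491 (T t21 (L l102 (L l142 (T t31 N)))))))))) (K a26 (M a192 (F (T t837 (L l351 (T t20 (L l138 (L l351 (T t21 N)))))))) (K a42 (M a192 (F (T t19 (L l351 (T t20 (L l28 (L l351 (T t29 N)))))))) (K a58 (M a192 (F (T t19 (L l138 (L l351 (T t21 (L l54 (L l102 (L l142 (L l498 (T t31 N))))))))))) (K a15 (M a192 (F (T t1922 (L l325 (L l351 (T t20 (L l138 (L l351 (L l469 (T t21 N)))))))))) N))))))))))))))))⟩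
def e0_63__86_70 : Ent 4 := ⟨[a0, a63], [a86, a111], (M a48 (F (T t1 (T t2 (L l397 (T t3 (T t0 (K a16 (M a60 (F (T t64 (L l14 (L l18 (L l477 (T t67 (L l351 (T t65 N))))))))) (K a32 (M a60 (F (T t64 (L l477 (T t67 (L l24 (L l28 (L l351 (T t65 N))))))))) (K a21 (M a192 (F (T t27 (L l104 (L l142 (T t206 (L l47 (L l347 (L l351 (T t29 N)))))))))) (K a37 (M a192 (F (T t19 (L l104 (L l142 (T t206 (L l137 (L l351 (T t21 N))))))))) (K a53 (M a192 (F (T t19 (L l137 (L l351 (L l491 (T t21 (L l104 (L l142 (T t521 N)))))))))) (K a26 (M a192 (F (T t27 (L l54 (L l104 (L l142 (T t206 (L l137 (L l351 (T t21 N)))))))))) (K a42 (M a192 (F (T t19 (L l54 (L l104 (L l142 (L l390 (T t206 (L l28 (L l351 (T t29 N))))))))))) (K a58 (M a192 (F (T t19 (L l137 (L l351 (T t21 (L l54 (L l104 (L l142 (L l498 (T t521 N))))))))))) (K a15 (M a192 (F (T t55 (L l104 (L l142 (L l325 (T t206 (L l137 (L l351 (L l469 (T t21 N))))))))))) N))))))))))))))))⟩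
def e0_63__86_71 : Ent 4 := ⟨[a0, a63], [a86, a124], (M a48 (L l145 (F (T t1 (T t2 (T t3 (T t0 (K a16 (M a60 (L l145 (F (T t64 (L l14 (L l18 (L l477 (T t67 (L l351 (T t65 (K a105 (M a67 (F (T t70 (L l477 (T t69 (L l351 (L l392 (T t65 N)))))))) (K a67 (M a105 (F (T t451 (L l14 (L l87 (L l109 (L l368 (T t419 N)))))))) N)))))))))))) (K a32 (M a60 (L l145 (F (T t64 (L l477 (T t67 (L l24 (L l28 (L l351 (T t65 (K a105 (M a67 (F (T t70 (L l28 (L l477 (T t69 (L l24 (L l28 (L l351 (L l392 (T t65 N))))))))))) (K a67 (M a105 (F (T t451 (L l87 (L l109 (T t419 N)))))) N)))))))))))) (K a21 (M a192 (L l145 (F (T t28 (L l47 (L l347 (L l351 (T t20 (L l47 (L l347 (L l351 (T t29 (K a105 (M a67 (F (T t28 (L l98 (L l142 (T t206 (L l109 (L l347 (L l351 (L l515 (T t861 N))))))))))) (K a67 (M a105 (F (T t28 (L l65 (L l142 (L l143 (T t3398 N))))))) N)))))))))))))) (K a37 (M a192 (L l145 (F (T t19 (L l47 (L l351 (T t20 (L l109 (L l351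 (T t21 (K a105 (M a67 (F (T t19 (L l98 (L l142 (T t206 (L l47 (L l351 (L l515 (T t35 N)))))))))) (K a67 (M a105 (F (T t19 (L l142 (L l143 (T t3398 N)))))) N)))))))))))) (K a53 (M a192 (L l145 (F (T t19 (L l109 (L l351 (L l491 (T t21 (L l142 (T t31 (K a105 (M a67 (F (T t28 (L l47 (L l351 (L l491 (L l515 (T t35 (L l98 (L l142 (T t31 N))))))))))) (K a67 (M a105 (F (T t19 (L l35 (L l142 (L l143 (T t3398 N))))))) N)))))))))))) (K a26 (M a192 (L l145 (F (T t28 (L l351 (T t20 (L l109 (L l351 (T t21 (K a105 (M a67 (F (T t28 (L l54 (L l98 (L l142 (T t206 (L l18 (L l351 (L l515 (T t35 N))))))))))) (K a67 (M a105 (F (T t28 (L l142 (L l143 (T t3398 N)))))) N))))))))))) (K a42 (M a192 (L l145 (F (T t19 (L l351 (T t20 (L l28 (L l351 (T t29 (K a105 (M a67 (F (T t19 (L l54 (L l98 (L l142 (L l390 (T t206 (L l28 (L l109 (L l351 (L l515 (T t861 N))))))))))))) (K a67 (M a105 (F (T t19 (L l142 (L l143 (L l390 (T t3398 N)))))))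 N))))))))))) (K a58 (M a192 (L l145 (F (T t19 (L l109 (L l351 (T t21 (L l54 (L l142 (L l498 (T t31 (K a105 (M a67 (F (T t28 (L l351 (L l515 (T t35 (L l54 (L l98 (L l142 (L l498 (T t31 N))))))))))) (K a67 (M a105 (F (T t19 (L l142 (L l143 (L l498 (T t3398 N))))))) N))))))))))))) (K a15 (M a1 (L l145 (F (L l474 (T t538 (L l73 (L l366 (L l474 (T t535 (T t542 (K a105 (M a67 (F (L l140 (L l474 (T t3399 (L l389 (L l497 (T t536 N)))))))) (K a67 (M a105 (F (L l366 (L l474 (T t295 (L l76 (T t3400 N))))))) N)))))))))))) (K a105 (M a67 (F (T t1 (T t2 (T t3 (T t0 (K a16 (M a112 (F (T t350 (L l92 (L l142 (L l344 (T t3380 N))))))) (K a32 (M a112 (F (T t350 (L l92 (L l142 (T t3380 N)))))) (K a21 (M a64 (F (L l110 (T t363 (L l87 (L l142 (T t3381 N))))))) (K a37 (M a64 (F (T t1184 (L l87 (L l142 (T t3381 N)))))) (K a53 (M a64 (F (T t1184 (L l87 (L l142 (T t3381 N)))))) (K a26 (M a64 (F (L l110 (T t363 (L l87 (L l142 (T t3381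 N))))))) (K a42 (M a64 (F (T t1184 (L l87 (L l142 (T t3381 N)))))) (K a58 (M a64 (F (T t1184 (L l87 (L l142 (T t3381 N)))))) (K a15 (M a64 (F (T t1184 (L l87 (L l142 (T t3381 N)))))) N))))))))))))))) (K a67 (M a105 (F (T t1 (T t2 (T t3 (T t0 (K a16 (M a52 (F (L l121 (L l307 (T t3401 (L l14 (T t84 N))))))) (K a32 (M a52 (F (L l307 (L l366 (T t486 (L l28 (T t84 N))))))) (K a21 (M a192 (F (T t28 (L l65 (L l142 (L l143 (T t3398 N))))))) (K a37 (M a192 (F (T t19 (L l142 (L l143 (T t3398 N)))))) (K a53 (M a192 (F (T t19 (L l35 (L l142 (L l143 (T t3398 N))))))) (K a26 (M a192 (F (T t28 (L l142 (L l143 (T t3398 N)))))) (K a42 (M a192 (F (T t19 (L l142 (L l143 (L l390 (T t3398 N))))))) (K a58 (M a192 (F (T t19 (L l142 (L l143 (L l498 (T t3398 N))))))) (K a15 (M a192 (F (T t36 (L l142 (L l143 (T t3398 N)))))) N))))))))))))))) N))))))))))))))))))⟩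
def e0_63__86_72 : Ent 4 := ⟨[a0, a63], [a86, a125], (M a48 (F (T t1 (T t2 (T t3 (T t0 (K a16 (M a60 (F (T t42 (L l14 (L l18 (L l477 (T t67 (L l351 (T t65 N))))))))) (K a32 (M a60 (F (T t42 (L l477 (T t67 (L l24 (L l28 (L l351 (T t65 N))))))))) (K a21 (M a192 (F (T t837 (L l47 (L l347 (L l351 (T t20 (L l47 (L l347 (L l351 (T t29 N))))))))))) (K a37 (M a192 (F (T t19 (L l47 (L l351 (T t20 (L l109 (L l351 (L l434 (T t21 N)))))))))) (K a53 (M a192 (F (T t19 (L l109 (L l351 (L l434 (L l491 (T t21 (L l142 (T t31 N)))))))))) (K a26 (M a192 (F (T t27 (L l351 (T t20 (L l109 (L l351 (L l434 (T t21 N))))))))) (K a42 (M a192 (F (T t19 (L l351 (T t20 (L l28 (L l351 (T t29 N)))))))) (K a58 (M a192 (F (T t19 (L l109 (L l351 (L l434 (T t21 (L l54 (L l142 (L l498 (T t31 N))))))))))) (K a15 (M a192 (F (T t1922 (L l325 (L l351 (T t20 (L l109 (L l351 (L l434 (L l469 (T t21 N))))))))))) N)))))))))))))))⟩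
def e0_63__86_73 : Ent 4 := ⟨[a0, a63], [a86, a126], (M a106 (F (T t586 (T t305 (L l109 (T t778 (L l109 (L l351 (T t564 (K a192 (M a58 (F (T t3402 (L l236 (T t3403 (L l112 (L l236 (L l296 (T t3404 N))))))))) (K a21 (M a48 (F (T t777 (L l347 (L l351 (T t551 (L l47 (T t579 N)))))))) (K a85 (M a48 (L l87 (F (T t309 (L l455 (T t2 (L l347 (L l351 (T t551 (K a84 (M a87 (F (T t0 (L l123 (L l127 (T t3405 (L l140 (L l347 (L l351 (T t551 N)))))))))) (K a87 (M a84 (F (T t777 (L l369 (L l477 (T t3406 N)))))) N))))))))))) (K a149 (M a48 (L l351 (F (T t2 (L l491 (T t579 (L l347 (L l491 (T t306 (L l347 (T t599 (K a212 (M a23 (F (L l346 (T t1941 (L l491 (T t579 N)))))) (K a23 (M a212 (F (T t2 (L l491 (T t579 (L l11 (L l347 (L l491 (T t306 (L l11 (L l347 (T t599 N)))))))))))) N))))))))))))) (K a42 (M a48 (F (T t309 (L l351 (T t551 (L l28 (T t579 N))))))) (K a170 (M a2 (F (L l432 (T t824 (L l220 (L l351 (T t3407 (L l348 (T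 t3408 (L l477 (T t3409 N))))))))))) (K a234 (Fr a149 a192 l519 (Fr a21 a42 l68 (Fr a85 a213 l347 (Fr a255 a170 l476 (V t875))))) (K a127 (M a105 (L l109 (F (T t3410 (L l432 (T t3411 (L l432 (T t3412 (K a124 (M a125 (F (T t3413 (L l143 (L l351 (T t3414 (L l432 (L l474 (T t3415 N))))))))) (K a125 (M a124 (F (T t3416 (L l143 (T t3417 (L l432 (T t3418 N))))))) N)))))))))) (K a255 (M a32 (F (T t820 (L l266 (L l351 (T t812 (L l289 (L l296 (T t821 N))))))))) N))))))))))))))))))⟩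
def e0_63__86_74 : Ent 4 := ⟨[a0, a63], [a86, a127], (M a48 (F (T t1 (T t2 (T t3 (T t0 (K a16 (M a60 (F (T t64 (L l14 (L l18 (L l477 (T t67 (L l351 (T t65 N))))))))) (K a32 (M a60 (F (T t64 (L l477 (T t67 (L l24 (L l28 (L l351 (T t65 N))))))))) (K a21 (M a192 (F (T t28 (L l47 (L l347 (L l351 (T t20 (L l18 (L l142 (L l144 (T t224 N))))))))))) (K a37 (M a192 (F (T t19 (L l47 (L l351 (T t20 (L l28 (L l142 (L l144 (T t37 N)))))))))) (K a53 (M a192 (F (T t19 (L l142 (L l144 (T t37 (L l47 (L l137 (L l351 (L l491 (T t525 N))))))))))) (K a26 (M a192 (F (T t28 (L l351 (T t20 (L l54 (L l142 (L l144 (T t37 N))))))))) (K a42 (M a192 (F (T t19 (L l351 (T t20 (L l54 (L l142 (L l144 (L l390 (T t224 N)))))))))) (K a58 (M a192 (F (T t19 (L l54 (L l142 (L l144 (L l498 (T t37 (L l137 (L l351 (T t525 N))))))))))) (K a15 (M a192 (F (T t36 (L l325 (L l351 (T t20 (L l142 (L l144 (L l469 (T t37 N)))))))))) N)))))))))))))))⟩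
def e0_63__86_75 : Ent 4 := ⟨[a0, a63], [a86, a128], (M a48 (F (T t1 (T t2 (T t3 (T t0 (K a16 (M a60 (F (T t64 (L l14 (L l18 (L l477 (T t67 (L l351 (T t65 N))))))))) (K a32 (M a60 (F (T t64 (L l477 (T t67 (L l24 (L l28 (L l351 (T t65 N))))))))) (K a21 (M a154 (F (T t526 (T t327 (L l47 (T t527 N)))))) (K a37 (M a52 (F (T t82 (T t83 (L l21 (L l28 (T t84 N))))))) (K a53 (M a12 (F (T t151 (T t443 (L l47 (T t146 N)))))) (K a26 (M a56 (F (T t133 (T t134 (L l12 (L l18 (T t135 N))))))) (K a42 (M a154 (F (T t493 (L l28 (T t327 (L l28 (T t527 N))))))) (K a58 (M a12 (F (T t443 (T t122 (T t146 N))))) (K a15 (M a4 (F (T t129 (L l63 (T t528 (T t520 N)))))) N)))))))))))))))⟩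
def e0_63__86_76 : Ent 4 := ⟨[a0, a63], [a86, a129], (M a48 (F (T t1 (T t2 (T t3 (T t0 (K a16 (M a60 (F (T t64 (L l14 (L l18 (L l309 (L l477 (T t67 (L l351 (T t65 N)))))))))) (K a32 (M a60 (F (T t64 (L l309 (L l477 (T t67 (L l24 (L l28 (L l351 (T t65 N)))))))))) (K a21 (M a192 (F (T t837 (L l47 (L l217 (L l347 (L l351 (T t20 (L l47 (L l217 (L l347 (L l351 (T t29 N))))))))))))) (K a37 (M a192 (F (T t19 (L l47 (L l217 (L l351 (T t20 (L l152 (L l217 (L l351 (T t21 N))))))))))) (K a53 (M a192 (F (T t19 (L l152 (L l217 (L l351 (L l491 (T t21 (L l142 (T t31 N)))))))))) (K a26 (M a192 (F (T t837 (L l217 (L l351 (T t20 (L l152 (L l217 (L l351 (T t21 N)))))))))) (K a42 (M a192 (F (T t19 (L l217 (L l351 (T t20 (L l28 (L l217 (L l351 (T t29 N)))))))))) (K a58 (M a192 (F (T t19 (L l152 (L l217 (L l351 (T t21 (L l54 (L l142 (L l498 (T t31 N))))))))))) (K a15 (M a192 (F (T t1922 (L l217 (L l325 (L l351 (T t20 (L l152 (L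 l217 (L l351 (L l469 (T t21 N)))))))))))) N)))))))))))))))⟩
def e0_63__86_77 : Ent 4 := ⟨[a0, a63], [a86, a130], (M a48 (F (T t1 (T t2 (T t3 (T t0 (K a16 (M a60 (F (T t64 (L l14 (L l18 (L l477 (T t67 (L l351 (T t65 N))))))))) (K a32 (M a60 (F (T t64 (L l477 (T t67 (L l24 (L l28 (L l351 (T t65 N))))))))) (K a21 (M a192 (F (T t837 (L l47 (L l347 (L l351 (T t20 (L l47 (L l347 (L l351 (T t29 N))))))))))) (K a37 (M a192 (F (T t19 (L l47 (L l351 (T t20 (L l152 (L l351 (T t21 N))))))))) (K a53 (M a192 (F (T t19 (L l152 (L l351 (L l491 (T t21 (L l142 (T t31 N))))))))) (K a26 (M a192 (F (T t837 (L l351 (T t20 (L l152 (L l351 (T t21 N)))))))) (K a42 (M a192 (F (T t19 (L l351 (T t20 (L l28 (L l351 (T t29 N)))))))) (K a58 (M a192 (F (T t19 (L l152 (L l351 (T t21 (L l54 (L l142 (L l498 (T t31 N)))))))))) (K a15 (M a192 (F (T t1922 (L l325 (L l351 (T t20 (L l152 (L l351 (L l469 (T t21 N)))))))))) N)))))))))))))))⟩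
def e0_63__86_78 : Ent 4 := ⟨[a0, a63], [a86, a131], (M a48 (F (T t1 (T t2 (T t3 (T t0 (K a16 (M a60 (F (T t64 (L l14 (L l18 (L l307 (L l477 (T t67 (L l351 (T t65 N)))))))))) (K a32 (M a60 (F (T t64 (L l307 (L l477 (T t67 (L l24 (L l28 (L l351 (T t65 N)))))))))) (K a21 (M a192 (F (T t28 (L l47 (L l347 (L l351 (T t20 (L l47 (L l347 (L l351 (T t29 N))))))))))) (K a37 (M a192 (F (T t19 (L l47 (L l351 (T t20 (L l152 (L l351 (T t21 N))))))))) (K a53 (M a192 (F (T t19 (L l152 (L l351 (L l491 (T t21 (L l142 (T t31 N))))))))) (K a26 (M a192 (F (T t28 (L l351 (T t20 (L l152 (L l351 (T t21 N)))))))) (K a42 (M a192 (F (T t19 (L l351 (T t20 (L l28 (L l351 (T t29 N)))))))) (K a58 (M a192 (F (T t19 (L l152 (L l351 (T t21 (L l54 (L l142 (L l498 (T t31 N)))))))))) (K a15 (M a192 (F (T t2113 (L l325 (L l351 (T t20 (L l152 (L l351 (L l469 (T t21 N)))))))))) N)))))))))))))))⟩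
def e0_63__86_79 : Ent 4 := ⟨[a0, a63], [a86, a132], (M a48 (F (T t1 (T t2 (T t3 (T t0 (K a16 (M a60 (F (T t64 (L l14 (L l18 (L l477 (T t67 (L l351 (T t65 N))))))))) (K a32 (M a60 (F (T t64 (L l477 (T t67 (L l24 (L l28 (L l351 (T t65 N))))))))) (K a21 (M a192 (F (T t837 (L l47 (L l202 (L l347 (L l351 (T t20 (L l47 (L l202 (L l347 (L l351 (T t29 N))))))))))))) (K a37 (M a192 (F (T t19 (L l47 (L l202 (L l351 (T t20 (L l156 (L l202 (L l351 (T t21 N))))))))))) (K a53 (M a192 (F (T t19 (L l156 (L l202 (L l351 (L l491 (T t21 (L l142 (T t31 N)))))))))) (K a26 (M a192 (F (T t837 (L l202 (L l351 (T t20 (L l156 (L l202 (L l351 (T t21 N)))))))))) (K a42 (M a192 (F (T t19 (L l202 (L l351 (T t20 (L l28 (L l202 (L l351 (T t29 N)))))))))) (K a58 (M a192 (F (T t19 (L l156 (L l202 (L l351 (T t21 (L l54 (L l142 (L l498 (T t31 N))))))))))) (K a15 (M a192 (F (T t1922 (L l202 (L l325 (L l351 (T t20 (L l156 (L l202 (L l351 (L l469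 (T t21 N)))))))))))) N)))))))))))))))⟩
def e0_63__86_80 : Ent 4 := ⟨[a0, a63], [a86, a133], (M a12 (F (T t122 (T t151 (T t152 (T t153 (K a4 (M a60 (F (T t662 (L l339 (T t398 (L l351 (T t448 N))))))) (K a8 (M a60 (F (T t835 (L l477 (T t67 (L l52 (L l56 (L l351 (T t448 N))))))))) (K a21 (M a192 (F (T t836 (L l15 (L l199 (L l347 (L l351 (T t450 (L l15 (L l199 (L l347 (L l351 (T t157 N))))))))))))) (K a25 (M a192 (F (T t836 (L l15 (L l199 (L l351 (T t450 (L l160 (L l199 (L l351 (T t21 N))))))))))) (K a29 (M a192 (F (T t836 (L l160 (L l199 (L l351 (L l371 (T t21 (L l142 (T t160 N)))))))))) (K a38 (M a192 (F (T t836 (L l199 (L l351 (T t450 (L l160 (L l199 (L l351 (T t21 N)))))))))) (K a42 (M a192 (F (T t836 (L l199 (L l351 (T t450 (L l56 (L l199 (L l351 (T t157 N)))))))))) (K a46 (M a192 (F (T t836 (L l160 (L l199 (L l351 (T t21 (L l26 (L l142 (L l408 (T t160 N))))))))))) (K a51 (M a192 (F (T t1725 (L l199 (L l351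 (L l415 (T t450 (L l160 (L l199 (L l351 (L l439 (T t21 N)))))))))))) N)))))))))))))))⟩
def e0_63__86_81 : Ent 4 := ⟨[a0, a63], [a86, a134], (M a48 (F (T t1 (T t2 (T t3 (T t0 (K a16 (M a60 (F (T t64 (L l14 (L l18 (L l477 (T t67 (L l351 (T t65 N))))))))) (K a32 (M a60 (F (T t64 (L l477 (T t67 (L l24 (L l28 (L l351 (T t65 N))))))))) (K a21 (M a192 (F (T t837 (L l47 (L l347 (L l351 (T t20 (L l47 (L l347 (L l351 (T t29 N))))))))))) (K a37 (M a192 (F (T t19 (L l47 (L l351 (T t20 (L l351 (T t21 N)))))))) (K a53 (M a192 (F (T t19 (L l351 (L l491 (T t21 (L l142 (T t31 N)))))))) (K a26 (M a192 (F (T t27 (L l351 (T t20 (L l351 (T t21 N))))))) (K a42 (M a192 (F (T t19 (L l351 (T t20 (L l28 (L l351 (T t29 N)))))))) (K a58 (M a192 (F (T t19 (L l351 (T t21 (L l54 (L l142 (L l498 (T t31 N))))))))) (K a15 (M a192 (F (T t1922 (L l325 (L l351 (T t20 (L l351 (L l469 (T t21 N))))))))) N)))))))))))))))⟩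
def e0_63__86_82 : Ent 4 := ⟨[a0, a63], [a86, a135], (M a12 (F (T t122 (T t151 (T t152 (T t153 (K a4 (M a60 (F (T t662 (L l337 (T t398 (L l351 (T t448 N))))))) (K a8 (M a60 (F (T t570 (L l477 (T t67 (L l52 (L l56 (L l351 (T t448 N))))))))) (K a21 (M a192 (F (T t836 (L l15 (L l347 (L l351 (T t450 (L l15 (L l347 (L l351 (T t157 N))))))))))) (K a25 (M a192 (F (T t836 (L l15 (L l351 (T t450 (L l351 (T t21 N)))))))) (K a29 (M a192 (F (T t836 (L l351 (L l371 (T t21 (L l142 (L l201 (T t160 N))))))))) (K a38 (M a192 (F (T t836 (L l351 (T t450 (L l351 (T t21 N))))))) (K a42 (M a192 (F (T t836 (L l351 (T t450 (L l56 (L l351 (T t157 N)))))))) (K a46 (M a192 (F (T t836 (L l351 (T t21 (L l26 (L l142 (L l201 (L l408 (T t160 N)))))))))) (K a51 (M a192 (F (T t1725 (L l351 (L l415 (T t450 (L l351 (L l439 (T t21 N))))))))) N)))))))))))))))⟩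
def e0_63__86_83 : Ent 4 := ⟨[a0, a63], [a86, a136], (M a48 (F (T t1 (T t2 (T t3 (T t0 (K a16 (M a60 (F (T t64 (L l14 (L l18 (L l477 (T t67 (L l351 (T t65 N))))))))) (K a32 (M a60 (F (T t64 (L l477 (T t67 (L l24 (L l28 (L l351 (T t65 N))))))))) (K a21 (M a192 (F (T t837 (L l47 (L l347 (L l351 (T t20 (L l47 (L l347 (L l351 (T t29 N))))))))))) (K a37 (M a192 (F (T t19 (L l47 (L l351 (T t20 (L l156 (L l351 (T t21 N))))))))) (K a53 (M a192 (F (T t19 (L l156 (L l351 (L l491 (T t21 (L l142 (T t31 N))))))))) (K a26 (M a192 (F (T t837 (L l351 (T t20 (L l156 (L l351 (T t21 N)))))))) (K a42 (M a192 (F (T t19 (L l351 (T t20 (L l28 (L l351 (T t29 N)))))))) (K a58 (M a192 (F (T t19 (L l156 (L l351 (T t21 (L l54 (L l142 (L l498 (T t31 N)))))))))) (K a15 (M a192 (F (T t1922 (L l325 (L l351 (T t20 (L l156 (L l351 (L l469 (T t21 N)))))))))) N)))))))))))))))⟩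
def e0_63__86_84 : Ent 4 := ⟨[a0, a63], [a86, a137], (M a48 (F (T t1 (T t2 (T t3 (T t0 (K a16 (M a60 (F (T t64 (L l14 (L l18 (L l333 (L l477 (T t67 (L l351 (T t65 N)))))))))) (K a32 (M a60 (F (T t64 (L l333 (L l477 (T t67 (L l24 (L l28 (L l351 (T t65 N)))))))))) (K a21 (M a192 (F (T t837 (L l47 (L l347 (L l351 (T t20 (L l47 (L l347 (L l351 (T t29 N))))))))))) (K a37 (M a192 (F (T t19 (L l47 (L l351 (T t20 (L l351 (T t21 N)))))))) (K a53 (M a192 (F (T t19 (L l351 (L l491 (T t21 (L l142 (T t31 N)))))))) (K a26 (M a192 (F (T t27 (L l351 (T t20 (L l351 (T t21 N))))))) (K a42 (M a192 (F (T t19 (L l351 (T t20 (L l28 (L l351 (T t29 N)))))))) (K a58 (M a192 (F (T t19 (L l351 (T t21 (L l54 (L l142 (L l498 (T t31 N))))))))) (K a15 (M a192 (F (T t1922 (L l325 (L l351 (T t20 (L l351 (L l469 (T t21 N))))))))) N)))))))))))))))⟩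
def e0_63__86_85 : Ent 4 := ⟨[a0, a63], [a86, a138], (M a48 (F (T t2 (L l318 (T t1 (T t3 (T t0 (K a16 (M a60 (F (T t64 (L l14 (L l18 (L l477 (T t67 (L l351 (T t65 N))))))))) (K a32 (M a60 (F (T t64 (L l477 (T t67 (L l24 (L l28 (L l351 (T t65 N))))))))) (K a21 (M a192 (F (T t837 (L l47 (L l318 (L l347 (L l351 (T t20 (L l47 (L l318 (L l347 (L l351 (T t29 N))))))))))))) (K a37 (M a192 (F (T t19 (L l47 (L l318 (L l351 (T t20 (L l160 (L l351 (T t21 N)))))))))) (K a53 (M a192 (F (T t19 (L l160 (L l351 (L l491 (T t21 (L l142 (T t31 N))))))))) (K a26 (M a192 (F (T t837 (L l318 (L l351 (T t20 (L l160 (L l351 (T t21 N))))))))) (K a42 (M a192 (F (T t19 (L l318 (L l351 (T t20 (L l28 (L l318 (L l351 (T t29 N)))))))))) (K a58 (M a192 (F (T t19 (L l160 (L l351 (T t21 (L l54 (L l142 (L l498 (T t31 N)))))))))) (K a15 (M a192 (F (T t1922 (L l318 (L l325 (L l351 (T t20 (L l160 (L l351 (L l469 (T t21 N))))))))))) N))))))))))))))))⟩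
def e0_63__86_86 : Ent 4 := ⟨[a0, a63], [a86, a139], (M a48 (F (T t1 (T t2 (T t3 (T t0 (K a16 (M a60 (F (T t64 (L l14 (L l18 (L l331 (L l477 (T t67 (L l351 (T t65 N)))))))))) (K a32 (M a60 (F (T t64 (L l331 (L l477 (T t67 (L l24 (L l28 (L l351 (T t65 N)))))))))) (K a21 (M a192 (F (T t837 (L l47 (L l331 (L l347 (L l351 (T t20 (L l47 (L l347 (L l351 (T t29 N)))))))))))) (K a37 (M a192 (F (T t19 (L l47 (L l331 (L l351 (T t20 (L l351 (T t21 N))))))))) (K a53 (M a192 (F (T t19 (L l351 (L l491 (T t21 (L l142 (T t31 N)))))))) (K a26 (M a192 (F (T t27 (L l331 (L l351 (T t20 (L l351 (T t21 N)))))))) (K a42 (M a192 (F (T t19 (L l331 (L l351 (T t20 (L l28 (L l351 (T t29 N))))))))) (K a58 (M a192 (F (T t19 (L l351 (T t21 (L l54 (L l142 (L l498 (T t31 N))))))))) (K a15 (M a192 (F (T t1922 (L l325 (L l331 (L l351 (T t20 (L l351 (L l469 (T t21 N)))))))))) N)))))))))))))))⟩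
def e0_63__86_87 : Ent 4 := ⟨[a0, a63], [a86, a140], (M a48 (F (T t1 (T t2 (T t3 (T t0 (K a16 (M a60 (F (T t64 (L l14 (L l18 (L l477 (T t67 (L l351 (T t65 N))))))))) (K a32 (M a60 (F (T t64 (L l477 (T t67 (L l24 (L l28 (L l351 (T t65 N))))))))) (K a21 (M a192 (F (T t28 (L l47 (L l347 (L l351 (T t20 (L l47 (L l347 (L l351 (T t29 N))))))))))) (K a37 (M a192 (F (T t19 (L l47 (L l351 (T t20 (L l156 (L l351 (T t21 N))))))))) (K a53 (M a192 (F (T t19 (L l156 (L l351 (L l491 (T t21 (L l142 (T t31 N))))))))) (K a26 (M a192 (F (T t28 (L l351 (T t20 (L l156 (L l351 (T t21 N)))))))) (K a42 (M a192 (F (T t19 (L l351 (T t20 (L l28 (L l351 (T t29 N)))))))) (K a58 (M a192 (F (T t19 (L l156 (L l351 (T t21 (L l54 (L l142 (L l498 (T t31 N)))))))))) (K a15 (M a192 (F (T t2113 (L l325 (L l351 (T t20 (L l156 (L l351 (L l469 (T t21 N)))))))))) N)))))))))))))))⟩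
def e0_63__86_88 : Ent 4 := ⟨[a0, a63], [a86, a141], (M a12 (F (T t122 (T t151 (T t152 (T t153 (K a4 (M a60 (F (T t662 (L l327 (T t398 (L l351 (T t448 N))))))) (K a8 (M a60 (F (T t835 (L l477 (T t67 (L l52 (L l56 (L l351 (T t448 N))))))))) (K a21 (M a192 (F (T t2119 (L l15 (L l347 (L l351 (T t450 (L l15 (L l347 (L l351 (T t157 N))))))))))) (K a25 (M a192 (F (T t496 (L l15 (L l351 (T t450 (L l351 (T t21 N)))))))) (K a29 (M a192 (F (T t159 (L l351 (L l371 (T t21 (L l142 (T t160 N)))))))) (K a38 (M a192 (F (T t2119 (L l351 (T t450 (L l351 (T t21 N))))))) (K a42 (M a192 (F (T t496 (L l351 (T t450 (L l56 (L l351 (T t157 N)))))))) (K a46 (M a192 (F (T t2119 (L l351 (T t21 (L l26 (L l142 (L l408 (T t160 N))))))))) (K a51 (M a192 (F (T t2119 (L l351 (L l415 (T t450 (L l351 (L l439 (T t21 N))))))))) N)))))))))))))))⟩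
def e0_63__86_89 : Ent 4 := ⟨[a0, a63], [a86, a142], (M a48 (F (T t1 (T t2 (T t3 (T t0 (K a16 (M a60 (F (T t64 (L l14 (L l18 (L l477 (T t67 (L l351 (T t65 N))))))))) (K a32 (M a60 (F (T t64 (L l477 (T t67 (L l24 (L l28 (L l351 (T t65 N))))))))) (K a21 (M a192 (F (T t837 (L l47 (L l326 (L l347 (L l351 (T t20 (L l47 (L l347 (L l351 (T t29 N)))))))))))) (K a37 (M a192 (F (T t19 (L l47 (L l326 (L l351 (T t20 (L l351 (T t21 N))))))))) (K a53 (M a192 (F (T t19 (L l351 (L l491 (T t21 (L l142 (T t31 N)))))))) (K a26 (M a192 (F (T t27 (L l326 (L l351 (T t20 (L l351 (T t21 N)))))))) (K a42 (M a192 (F (T t19 (L l326 (L l351 (T t20 (L l28 (L l351 (T t29 N))))))))) (K a58 (M a192 (F (T t19 (L l351 (T t21 (L l54 (L l142 (L l498 (T t31 N))))))))) (K a15 (M a192 (F (T t1922 (L l325 (L l326 (L l351 (T t20 (L l351 (L l469 (T t21 N)))))))))) N)))))))))))))))⟩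
def e0_63__86_90 : Ent 4 := ⟨[a0, a63], [a86, a143], (M a12 (F (T t122 (T t151 (T t152 (T t153 (K a4 (M a60 (F (T t662 (L l325 (T t398 (L l351 (T t448 N))))))) (K a8 (M a60 (F (T t570 (L l477 (T t67 (L l52 (L l56 (L l351 (T t448 N))))))))) (K a21 (M a192 (F (T t468 (L l15 (L l347 (L l351 (T t450 (L l15 (L l347 (L l351 (T t157 N))))))))))) (K a25 (M a192 (F (T t449 (L l15 (L l351 (T t450 (L l160 (L l351 (T t21 N))))))))) (K a29 (M a192 (F (T t449 (L l160 (L l351 (L l371 (T t21 (L l142 (T t160 N))))))))) (K a38 (M a192 (F (T t468 (L l351 (T t450 (L l160 (L l351 (T t21 N)))))))) (K a42 (M a192 (F (T t449 (L l351 (T t450 (L l56 (L l351 (T t157 N)))))))) (K a46 (M a192 (F (T t449 (L l160 (L l351 (T t21 (L l26 (L l142 (L l408 (T t160 N)))))))))) (K a51 (M a192 (F (T t2119 (L l351 (L l415 (T t450 (L l160 (L l351 (L l439 (T t21 N)))))))))) N)))))))))))))))⟩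
def e0_63__86_91 : Ent 4 := ⟨[a0, a63], [a86, a148], (M a48 (F (T t1 (T t2 (T t3 (T t0 (K a16 (M a60 (F (T t64 (L l14 (L l18 (L l346 (L l477 (T t67 (L l351 (T t65 N)))))))))) (K a32 (M a60 (F (T t64 (L l346 (L l477 (T t67 (L l24 (L l28 (L l351 (T t65 N)))))))))) (K a21 (M a192 (F (T t837 (L l47 (L l163 (L l347 (L l351 (T t20 (L l47 (L l163 (L l347 (L l351 (T t29 N))))))))))))) (K a37 (M a192 (F (T t837 (L l47 (L l163 (L l351 (T t20 (L l163 (L l216 (L l351 (T t21 N))))))))))) (K a53 (M a192 (F (T t837 (L l163 (L l216 (L l351 (L l491 (T t21 (L l142 (T t31 N)))))))))) (K a26 (M a192 (F (T t837 (L l163 (L l351 (T t20 (L l163 (L l216 (L l351 (T t21 N)))))))))) (K a42 (M a192 (F (T t837 (L l163 (L l351 (T t20 (L l28 (L l163 (L l351 (T t29 N)))))))))) (K a58 (M a192 (F (T t837 (L l163 (L l216 (L l351 (T t21 (L l54 (L l142 (L l498 (T t31 N))))))))))) (K a15 (M a192 (F (T t1922 (L l163 (L l325 (L l351 (T t20 (L l163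 (L l216 (L l351 (L l469 (T t21 N)))))))))))) N)))))))))))))))⟩
def e0_63__86_92 : Ent 4 := ⟨[a0, a63], [a86, a149], (M a48 (L l351 (F (T t2 (L l347 (L l491 (T t1 (L l347 (T t3 (L l375 (T t0 (K a16 (M a60 (L l351 (F (T t70 (L l14 (L l18 (L l347 (L l477 (T t67 (L l14 (L l18 (L l347 (L l491 (T t44 (K a212 (M a23 (F (T t3419 (L l491 (L l515 (T t64 N)))))) (K a23 (M a212 (F (T t70 (L l11 (L l18 (L l347 (L l474 (L l477 (L l515 (T t68 (L l11 (L l18 (L l347 (L l491 (T t194 N))))))))))))))) N)))))))))))))))) (K a32 (M a60 (L l351 (F (T t70 (L l347 (L l477 (T t67 (L l347 (L l491 (T t44 (K a212 (M a23 (F (L l24 (T t3419 (L l491 (L l515 (T t64 N))))))) (K a23 (M a212 (F (T t70 (L l11 (L l347 (L l474 (L l477 (L l515 (T t68 (L l11 (L l347 (L l491 (T t194 N))))))))))))) N)))))))))))) (K a21 (M a85 (L l351 (F (T t99 (L l220 (L l474 (T t50 (L l47 (L l170 (L l220 (L l491 (T t544 (L l47 (L l491 (T t545 (K a212 (M a23 (F (T t1699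 (L l369 (T t172 (L l220 (L l474 (T t50 N)))))))) (K a23 (M a212 (L l11 (F (T t1699 (L l220 (L l474 (T t50 (L l47 (L l170 (L l220 (L l491 (T t544 (L l47 (L l491 (T t545 (K a20 (M a22 (F (T t99 (L l220 (L l474 (T t50 (L l47 (L l170 (L l220 (L l491 (T t544 (L l47 (L l491 (T t545 N)))))))))))))) (K a22 (M a20 (L l348 (F (T t1699 (L l66 (T t3339 (K a150 (M a214 (L l163 (F (T t1699 (L l66 (L l516 (T t3339 (K a148 (M a151 (F (T t1699 (L l66 (L l516 (T t3339 N)))))) (K a151 (Fr a148 a84 l346 (V t3209)) N))))))))) (K a214 (Fr a150 a215 l350 (V t3420)) N)))))))) N))))))))))))))))) N))))))))))))))))) (K a37 (M a23 (F (L l25 (L l28 (T t3421 (L l71 (L l366 (L l474 (T t636 (L l21 (L l28 (L l51 (L l348 (T t3422 (L l366 (L l474 (T t3423 (L l28 (L l51 (L l348 (T t3424 N))))))))))))))))))))) (K a53 (M a23 (L l491 (F (T t1941 (L l369 (T t172 (L l348 (T t3425 (T t3421 (K a197 (M a101 (F (T t1941 (L l170 (L l366 (L l419 (T t2181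 N))))))) (K a101 (M a197 (L l127 (F (T t1941 (L l369 (L l401 (L l404 (T t172 (L l348 (L l386 (L l404 (T t3425 (L l401 (T t3421 (K a116 (M a71 (F (L l122 (T t3426 (L l348 (L l386 (L l404 (T t3425 (L l401 (T t3421 N)))))))))) (K a71 (M a116 (F (T t1941 (L l77 (T t2196 N))))) N)))))))))))))))) N))))))))))) (K a26 (M a60 (L l351 (F (T t248 (L l72 (L l491 (L l515 (T t64 (L l18 (L l347 (L l477 (T t67 (K a212 (M a23 (F (T t3419 (L l72 (L l491 (L l515 (T t64 N))))))) (K a23 (M a212 (F (T t248 (L l49 (L l54 (L l57 (L l495 (T t451 (L l11 (L l18 (L l347 (L l474 (L l477 (L l515 (T t68 N))))))))))))))) N)))))))))))))) (K a42 (M a255 (L l351 (F (T t546 (L l87 (L l347 (T t547 (L l28 (L l220 (L l390 (L l474 (L l491 (T t548 (K a212 (M a23 (F (T t546 (L l22 (L l28 (L l369 (T t172 N))))))) (K a23 (M a212 (F (T t546 (L l87 (L l347 (T t1193 (L l28 (L l220 (L l390 (L l474 (L l491 (T t548 N)))))))))))) N))))))))))))))) (K a58 (M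 a23 (F (L l54 (T t1941 (L l369 (T t172 (L l54 (L l348 (T t3425 (L l54 (T t3421 N))))))))))) (K a15 (M a23 (F (L l63 (T t1941 (L l73 (L l369 (T t172 (L l348 (T t3425 (L l63 (T t3421 N))))))))))) (K a212 (M a23 (F (T t2 (L l346 (T t1941 (L l369 (T t172 N))))))) (K a23 (M a212 (F (T t2 (L l11 (L l347 (L l491 (T t1 (L l11 (L l347 (T t3 (L l17 (L l375 (T t0 (K a16 (M a60 (F (T t70 (L l11 (L l18 (L l347 (L l474 (L l477 (L l515 (T t68 (L l11 (L l18 (L l347 (L l491 (T t194 N))))))))))))))) (K a32 (M a60 (F (T t70 (L l11 (L l347 (L l474 (L l477 (L l515 (T t68 (L l11 (L l347 (L l491 (T t194 N))))))))))))) (K a21 (M a85 (L l11 (F (T t1699 (L l220 (L l474 (T t50 (L l47 (L l170 (L l220 (L l491 (T t544 (L l47 (L l491 (T t545 (K a20 (M a22 (F (T t99 (L l220 (L l474 (T t50 (L l47 (L l170 (L l220 (L l491 (T t544 (L l47 (L l491 (T t545 N)))))))))))))) (K a22 (M a20 (L l348 (F (T t1699 (L l66 (T t3339 (K a150 (M a214 (L l163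 (F (T t1699 (L l66 (L l516 (T t3339 (K a148 (M a151 (F (T t1699 (L l66 (L l516 (T t3339 N)))))) (K a151 (Fr a148 a84 l346 (V t3209)) N))))))))) (K a214 (Fr a150 a215 l350 (V t3420)) N)))))))) N))))))))))))))))) (K a37 (M a80 (F (T t3336 (L l28 (L l95 (L l170 (T t3427 N))))))) (K a53 (M a252 (L l491 (F (T t3428 (L l11 (T t3429 (L l170 (L l220 (T t3430 (K a197 (M a101 (F (L l419 (T t2197 (L l11 (T t3429 N)))))) (K a101 (M a197 (L l127 (F (T t3428 (L l47 (T t3431 (K a116 (M a71 (F (L l47 (T t3431 (L l95 (L l170 (L l404 (T t3432 N)))))))) (K a71 (Fr a116 a184 l436 (V t3433)) N)))))))) N))))))))))) (K a26 (M a192 (F (T t837 (L l11 (T t3434 (L l87 (L l127 (T t3435 N)))))))) (K a42 (M a60 (F (L l54 (L l66 (T t70 (L l22 (L l28 (L l163 (T t3436 N))))))))) (K a58 (M a192 (F (T t837 (L l11 (T t3434 (L l87 (L l127 (T t3435 N)))))))) (K a15 (M a80 (F (T t58 (L l95 (L l170 (T t3427 N)))))) N)))))))))))))))))))))) N))))))))))))))))))))))⟩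
def e0_63__86_93 : Ent 4 := ⟨[a0, a63], [a86, a150], (M a48 (L l348 (F (T t1 (T t2 (T t3 (T t0 (K a16 (M a85 (L l348 (F (T t168 (L l218 (L l474 (T t50 (T t51 (K a22 (M a214 (F (L l11 (L l18 (T t52 (L l218 (L l474 (T t50 (L l66 (T t51 N)))))))))) (K a214 (M a22 (F (L l351 (L l516 (T t3437 (L l218 (L l474 (T t50 N)))))))) N)))))))))) (K a32 (M a149 (L l348 (F (T t184 (L l28 (T t5 (L l28 (T t6 (K a22 (M a214 (F (T t184 (L l11 (L l87 (L l350 (T t1007 (L l28 (L l66 (T t6 N)))))))))) (K a214 (M a22 (F (T t184 (L l28 (L l350 (L l518 (T t3438 N))))))) N)))))))))) (K a21 (M a149 (L l348 (F (T t4 (L l142 (L l516 (T t13 (L l18 (T t14 (K a22 (M a214 (L l11 (F (T t184 (L l18 (T t14 (L l142 (L l516 (T t13 (K a20 (M a23 (L l350 (F (T t184 (L l19 (L l369 (T t172 (K a85 (M a215 (L l87 (F (T t4 (L l19 (L l369 (T t172 (K a84 (Fr a87 a151 l349 (V t11)) (K a87 (M a84 (F (T t184 (L l369 (T t3182 N))))) N))))))))) (K a215 (M a85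 (F (T t3183 (L l65 (T t3181 N))))) N))))))))) (K a23 (M a20 (F (T t184 (L l18 (L l69 (L l518 (T t3439 N))))))) N))))))))))) (K a214 (M a22 (F (T t184 (L l18 (T t14 (L l142 (L l516 (T t13 N)))))))) N))))))))))) (K a37 (M a101 (L l348 (F (T t687 (T t334 (T t314 (K a22 (M a214 (L l51 (F (T t2197 (L l47 (L l163 (L l351 (T t336 (T t314 (K a52 (M a7 (F (T t313 (L l168 (L l366 (T t335 (T t314 N))))))) (K a7 (M a52 (L l459 (F (T t2197 (L l49 (T t83 (K a244 (M a165 (F (T t313 (L l1 (L l454 (T t82 N)))))) (K a165 (M a244 (L l203 (F (T t334 (L l49 (T t83 (K a180 (M a135 (F (T t313 (L l1 (T t82 N))))) (K a135 (Fr a180 a116 l418 (V t2198)) N)))))))) N)))))))) N))))))))))) (K a214 (M a22 (F (T t313 (L l28 (L l350 (L l474 (T t3440 N))))))) N)))))))) (K a53 (M a192 (L l348 (F (T t19 (L l163 (L l351 (L l491 (T t21 (L l142 (L l516 (T t31 (K a22 (M a214 (F (T t28 (L l11 (L l47 (L l163 (L l351 (L l491 (T t35 (L l66 (L l142 (L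 l516 (T t31 N))))))))))))) (K a214 (M a22 (F (T t28 (L l35 (L l47 (L l474 (L l477 (T t3441 N)))))))) N))))))))))))) (K a26 (M a154 (L l348 (F (T t493 (T t327 (T t527 (K a22 (M a214 (L l16 (F (T t493 (L l218 (L l474 (T t329 (T t527 (K a18 (M a30 (F (T t493 (L l218 (L l474 (T t329 (T t527 N))))))) (K a30 (M a18 (L l372 (F (T t473 (L l19 (L l369 (T t243 (K a210 (M a90 (F (T t493 (L l19 (L l72 (L l369 (T t3442 N))))))) (K a90 (M a210 (L l92 (F (T t473 (L l19 (L l69 (L l369 (L l477 (T t637 (K a82 (M a94 (F (T t493 (L l72 (T t3387 N))))) (K a94 (Fr a82 a146 l342 (V t330)) N))))))))))) N))))))))) N)))))))))) (K a214 (M a22 (F (T t493 (L l18 (L l474 (L l477 (T t3441 N))))))) N)))))))) (K a42 (M a106 (L l348 (F (T t309 (L l163 (L l351 (T t551 (L l28 (T t579 (K a22 (M a214 (L l66 (F (T t309 (L l163 (L l351 (T t551 (L l28 (T t579 (K a2 (M a62 (L l474 (F (T t304 (L l19 (L l22 (L l28 (L l374 (T t598 (K a170 (M a254 (L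 l218 (F (T t309 (L l22 (L l392 (T t3443 (K a130 (Fr a190 a126 l432 (V t309)) (K a190 (M a130 (F (T t309 (L l188 (T t596 N))))) N))))))))) (K a254 (M a170 (F (T t3207 (L l42 (L l438 (T t825 N)))))) N))))))))))) (K a62 (M a2 (F (T t309 (L l19 (L l28 (L l369 (T t342 N))))))) N))))))))))) (K a214 (M a22 (F (T t309 (L l163 (L l351 (T t551 (L l28 (T t579 N)))))))) N))))))))))) (K a58 (M a192 (L l348 (F (T t19 (L l163 (L l351 (T t21 (L l54 (L l142 (L l498 (L l516 (T t31 (K a22 (M a214 (F (T t28 (L l11 (L l163 (L l351 (T t35 (L l54 (L l66 (L l142 (L l498 (L l516 (T t31 N))))))))))))) (K a214 (M a22 (F (T t28 (L l474 (L l477 (T t3441 N)))))) N)))))))))))))) (K a15 (M a192 (L l348 (F (T t1922 (L l163 (L l325 (L l351 (T t20 (L l163 (L l351 (L l469 (T t21 (K a22 (M a214 (F (T t1922 (L l142 (L l325 (L l516 (T t206 (L l11 (L l163 (L l351 (L l469 (T t35 N)))))))))))) (K a214 (M a22 (F (T t1922 (L l7 (L l474 (L l477 (T t3441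 N))))))) N)))))))))))))) (K a22 (M a214 (F (L l11 (T t1 (L l66 (T t2 (L l11 (T t3 (L l66 (T t0 (K a16 (M a85 (F (L l11 (L l18 (T t52 (L l218 (L l474 (T t50 (L l66 (T t51 N)))))))))) (K a32 (M a85 (F (L l11 (T t52 (L l218 (L l404 (L l474 (T t50 (L l28 (L l66 (T t51 N))))))))))) (K a21 (M a149 (L l11 (F (T t184 (L l18 (T t14 (L l142 (L l516 (T t13 (K a20 (M a23 (L l350 (F (T t184 (L l19 (L l369 (T t172 (K a85 (M a215 (L l87 (F (T t4 (L l19 (L l369 (T t172 (K a84 (Fr a87 a151 l349 (V t11)) (K a87 (M a84 (F (T t184 (L l369 (T t3182 N))))) N))))))))) (K a215 (M a85 (F (T t3183 (L l65 (T t3181 N))))) N))))))))) (K a23 (M a20 (F (T t184 (L l18 (L l69 (L l518 (T t3439 N))))))) N))))))))))) (K a37 (M a101 (L l51 (F (T t2197 (L l47 (L l163 (L l351 (T t336 (T t314 (K a52 (M a7 (F (T t313 (L l168 (L l366 (T t335 (T t314 N))))))) (K a7 (M a52 (L l459 (F (T t2197 (L l49 (T t83 (K a244 (M a165 (F (T t313 (L l1 (L l454 (T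 t82 N)))))) (K a165 (M a244 (L l203 (F (T t334 (L l49 (T t83 (K a180 (M a135 (F (T t313 (L l1 (T t82 N))))) (K a135 (Fr a180 a116 l418 (V t2198)) N)))))))) N)))))))) N))))))))))) (K a53 (M a192 (F (T t28 (L l11 (L l47 (L l163 (L l351 (L l491 (T t35 (L l66 (L l142 (L l516 (T t31 N))))))))))))) (K a26 (M a154 (L l16 (F (T t493 (L l218 (L l474 (T t329 (T t527 (K a18 (M a30 (F (T t493 (L l218 (L l474 (T t329 (T t527 N))))))) (K a30 (M a18 (L l372 (F (T t473 (L l19 (L l369 (T t243 (K a210 (M a90 (F (T t493 (L l19 (L l72 (L l369 (T t3442 N))))))) (K a90 (M a210 (L l92 (F (T t473 (L l19 (L l69 (L l369 (L l477 (T t637 (K a82 (M a94 (F (T t493 (L l72 (T t3387 N))))) (K a94 (Fr a82 a146 l342 (V t330)) N))))))))))) N))))))))) N)))))))))) (K a42 (M a106 (L l66 (F (T t309 (L l163 (L l351 (T t551 (L l28 (T t579 (K a2 (M a62 (L l474 (F (T t304 (L l19 (L l22 (L l28 (L l374 (T t598 (K a170 (M a254 (L l218 (F (T t309 (L l22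 (L l392 (T t3443 (K a130 (Fr a190 a126 l432 (V t309)) (K a190 (M a130 (F (T t309 (L l188 (T t596 N))))) N))))))))) (K a254 (M a170 (F (T t3207 (L l42 (L l438 (T t825 N)))))) N))))))))))) (K a62 (M a2 (F (T t309 (L l19 (L l28 (L l369 (T t342 N))))))) N))))))))))) (K a58 (M a192 (F (T t28 (L l11 (L l163 (L l351 (T t35 (L l54 (L l66 (L l142 (L l498 (L l516 (T t31 N))))))))))))) (K a15 (M a192 (F (T t1922 (L l142 (L l325 (L l516 (T t206 (L l11 (L l163 (L l351 (L l469 (T t35 N)))))))))))) N))))))))))))))))))) (K a214 (M a22 (F (T t1 (L l350 (L l474 (T t3440 (K a21 (M a60 (F (L l65 (T t3444 (L l350 (L l494 (T t489 N))))))) (K a42 (M a60 (F (L l22 (T t881 (L l54 (T t451 N)))))) N)))))))) N))))))))))))))))))⟩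
def e0_63__86_94 : Ent 4 := ⟨[a0, a63], [a86, a151], (M a48 (F (T t1 (T t2 (T t3 (L l373 (T t0 (K a16 (M a60 (F (T t64 (L l14 (L l18 (L l477 (T t67 (L l349 (L l351 (T t65 N)))))))))) (K a32 (M a60 (F (T t64 (L l477 (T t67 (L l24 (L l28 (L l349 (L l351 (T t65 N)))))))))) (K a21 (M a192 (F (T t837 (L l47 (L l163 (L l347 (L l351 (T t20 (L l47 (L l163 (L l347 (L l351 (T t29 N))))))))))))) (K a37 (M a192 (F (T t19 (L l47 (L l163 (L l351 (T t20 (L l163 (L l351 (T t21 N)))))))))) (K a53 (M a192 (F (T t19 (L l163 (L l351 (L l491 (T t21 (L l142 (L l169 (T t31 N)))))))))) (K a26 (M a192 (F (T t837 (L l163 (L l351 (T t20 (L l163 (L l351 (T t21 N))))))))) (K a42 (M a192 (F (T t19 (L l163 (L l351 (T t20 (L l28 (L l163 (L l351 (T t29 N)))))))))) (K a58 (M a192 (F (T t19 (L l163 (L l351 (T t21 (L l54 (L l142 (L l169 (L l498 (T t31 N))))))))))) (K a15 (M a192 (F (T t1922 (L l163 (L l325 (L l351 (T t20 (L l163 (L l351 (L l469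 (T t21 N))))))))))) N))))))))))))))))⟩
def e0_63__86_95 : Ent 4 := ⟨[a0, a63], [a86, a152], (M a12 (F (T t122 (T t151 (T t152 (T t153 (K a4 (M a60 (F (T t398 (L l46 (L l50 (L l477 (T t67 (L l351 (T t448 N))))))))) (K a8 (M a60 (F (T t398 (L l477 (T t67 (L l52 (L l56 (L l351 (T t448 N))))))))) (K a21 (M a192 (F (T t2119 (L l15 (L l347 (L l351 (T t450 (L l15 (L l347 (L l351 (T t157 N))))))))))) (K a25 (M a192 (F (T t159 (L l15 (L l351 (T t450 (L l351 (T t21 N)))))))) (K a29 (M a192 (F (T t159 (L l351 (L l371 (T t21 (L l142 (T t160 N)))))))) (K a38 (M a192 (F (T t2119 (L l351 (T t450 (L l351 (T t21 N))))))) (K a42 (M a192 (F (T t159 (L l351 (T t450 (L l56 (L l351 (T t157 N)))))))) (K a46 (M a192 (F (T t159 (L l351 (T t21 (L l26 (L l142 (L l408 (T t160 N))))))))) (K a51 (M a192 (F (T t2119 (L l351 (L l415 (T t450 (L l351 (L l439 (T t21 N))))))))) N)))))))))))))))⟩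
def e0_63__86_96 : Ent 4 := ⟨[a0, a63], [a86, a153], (M a12 (L l369 (F (T t150 (L l513 (T t122 (L l365 (L l513 (T t151 (L l501 (L l513 (T t152 (L l513 (T t153 (K a4 (M a31 (L l369 (F (T t1369 (T t2084 (L l46 (T t3445 (K a220 (M a19 (F (T t3446 (L l357 (L l365 (T t3447 N)))))) (K a19 (M a220 (F (T t3446 (L l92 (L l164 (T t3448 N)))))) N))))))))) (K a8 (M a31 (L l369 (F (T t1369 (L l56 (T t2084 (L l56 (T t3445 (K a220 (M a19 (F (T t3446 (L l56 (L l357 (L l365 (T t3447 N))))))) (K a19 (M a220 (F (T t3446 (L l56 (L l92 (L l164 (L l460 (T t3448 N)))))))) N)))))))))) (K a21 (M a192 (L l369 (F (T t2119 (L l15 (L l167 (L l347 (L l351 (T t450 (L l15 (L l167 (L l347 (L l351 (T t157 (K a220 (M a19 (F (T t2119 (L l167 (L l347 (L l351 (T t467 (L l50 (L l142 (L l501 (T t681 N))))))))))) (K a19 (M a220 (F (T t2119 (L l167 (L l347 (L l351 (T t467 (L l50 (L l142 (L l501 (T t681 N))))))))))) N)))))))))))))))) (K a25 (M a89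 (L l369 (F (T t2786 (T t863 (T t864 (K a220 (M a19 (F (T t3449 (L l142 (L l501 (T t3450 (T t864 N))))))) (K a19 (M a220 (L l19 (F (T t3449 (L l142 (L l501 (T t3450 (T t864 (K a28 (M a22 (F (T t870 (L l14 (L l56 (T t3438 N)))))) (K a22 (M a28 (L l348 (F (T t870 (L l10 (T t2735 (K a150 (M a214 (L l171 (F (T t870 (L l10 (T t2735 (K a156 (M a147 (F (T t2786 (L l10 (T t2735 N))))) (K a147 (Fr a156 a92 l358 (V t2788)) N)))))))) (K a214 (Fr a150 a211 l374 (V t3451)) N)))))))) N)))))))))) N)))))))) (K a29 (M a3 (L l369 (F (T t137 (L l459 (T t761 (T t758 (K a220 (M a19 (F (T t3452 (L l357 (T t3453 N))))) (K a19 (M a220 (F (T t3452 (L l15 (L l17 (L l351 (T t353 (T t758 N)))))))) N))))))))) (K a38 (M a3 (L l369 (F (L l459 (T t761 (L l26 (T t137 (L l48 (L l50 (L l351 (L l456 (L l497 (T t1099 (K a220 (M a19 (F (L l72 (T t3452 (L l26 (L l358 (T t3454 N))))))) (K a19 (M a220 (F (L l72 (T t3452 (L l26 (L l474 (T t665 (L l17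 (L l48 (L l50 (L l351 (L l456 (L l497 (T t1099 N)))))))))))))) N))))))))))))))) (K a42 (M a192 (L l369 (F (T t159 (L l167 (L l351 (T t450 (L l56 (L l167 (L l351 (T t157 (K a220 (M a19 (F (T t159 (L l167 (L l351 (T t467 (L l142 (L l390 (L l501 (T t681 N)))))))))) (K a19 (M a220 (F (T t159 (L l167 (L l351 (T t467 (L l142 (L l390 (L l501 (T t681 N)))))))))) N))))))))))))) (K a46 (M a3 (L l369 (F (L l351 (T t353 (L l459 (T t761 (L l26 (T t758 (K a220 (M a19 (F (L l60 (T t3452 (L l26 (L l358 (T t3455 N))))))) (K a19 (M a220 (F (L l60 (T t3452 (L l26 (T t137 (L l26 (T t758 N)))))))) N))))))))))) (K a51 (M a3 (L l369 (L l513 (F (T t3456 (L l39 (T t137 (L l39 (T t758 (K a204 (M a102 (L l369 (F (T t3456 (L l39 (L l474 (L l502 (T t665 (L l39 (T t758 (K a220 (M a19 (L l286 (F (T t3456 (L l39 (L l474 (L l502 (T t665 (L l39 (T t758 (K a236 (M a252 (F (L l474 (T t85 (L l87 (L l298 (L l364 (L l417 (T t3457 N))))))))) (K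 a252 (M a236 (L l441 (F (T t3456 (L l39 (L l430 (L l502 (T t137 (L l39 (L l351 (L l456 (L l497 (T t1099 (K a185 (M a118 (L l205 (F (T t3456 (L l39 (L l430 (L l474 (L l502 (T t665 (L l39 (T t758 (K a137 (Fr a169 a35 l405 (V t759)) (K a169 (M a137 (F (L l456 (L l474 (T t3458 (L l39 (L l351 (L l430 (L l502 (T t353 (L l39 (L l393 (L l461 (T t758 N)))))))))))))) N))))))))))))) (K a118 (M a185 (F (T t3456 (L l39 (L l430 (L l474 (L l502 (T t665 (L l39 (L l420 (T t758 N))))))))))) N))))))))))))))) N)))))))))))) (K a19 (M a220 (F (T t3456 (L l39 (L l474 (L l502 (T t665 (L l39 (T t758 N))))))))) N)))))))))))) (K a220 (M a19 (L l513 (F (T t3456 (L l39 (L l474 (T t665 (L l39 (T t758 (K a204 (M a102 (L l286 (F (T t3456 (L l39 (L l474 (L l502 (T t665 (L l39 (T t758 (K a236 (M a252 (F (L l474 (T t85 (L l87 (L l298 (L l364 (L l417 (T t3457 N))))))))) (K a252 (M a236 (L l441 (F (T t3456 (L l39 (L l430 (L l502 (T t137 (L l39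 (L l351 (L l456 (L l497 (T t1099 (K a185 (M a118 (L l205 (F (T t3456 (L l39 (L l430 (L l474 (L l502 (T t665 (L l39 (T t758 (K a137 (Fr a169 a35 l405 (V t759)) (K a169 (M a137 (F (L l456 (L l474 (T t3458 (L l39 (L l351 (L l430 (L l502 (T t353 (L l39 (L l393 (L l461 (T t758 N)))))))))))))) N))))))))))))) (K a118 (M a185 (F (T t3456 (L l39 (L l430 (L l474 (L l502 (T t665 (L l39 (L l420 (T t758 N))))))))))) N))))))))))))))) N)))))))))))) (K a102 (M a204 (L l124 (F (T t3456 (L l102 (L l241 (L l365 (L l439 (T t737 (K a70 (M a118 (F (T t3456 (L l85 (L l102 (L l150 (L l439 (T t3459 N)))))))) (K a118 (Fr a70 a137 l333 (V t3460)) N))))))))))) N))))))))))) (K a102 (M a204 (L l124 (L l369 (F (T t3456 (L l167 (L l402 (L l439 (T t765 (K a220 (M a19 (L l124 (F (T t3456 (L l102 (L l241 (L l365 (L l439 (T t737 (K a70 (M a118 (F (T t3456 (L l85 (L l102 (L l150 (L l439 (T t3459 N)))))))) (K a118 (Fr a70 a137 l333 (V t3460))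 N))))))))))) (K a70 (M a118 (L l369 (F (T t3456 (L l167 (L l402 (L l439 (T t765 (K a220 (M a19 (F (T t3456 (L l85 (L l102 (L l150 (L l439 (T t3459 N)))))))) (K a19 (M a220 (F (T t3456 (L l10 (L l30 (L l405 (T t3461 N))))))) N)))))))))) (K a118 (Fr a70 a137 l333 (V t3462)) (K a19 (M a220 (L l124 (F (T t3456 (L l102 (L l365 (L l439 (T t737 (K a70 (M a118 (F (T t3456 (L l10 (L l30 (L l405 (T t3461 N))))))) (K a118 (Fr a70 a137 l333 (V t3462)) N)))))))))) N))))))))))))) (K a19 (M a220 (L l513 (F (T t3456 (L l39 (L l474 (T t665 (L l39 (T t758 (K a204 (M a102 (F (T t3456 (L l39 (L l474 (L l502 (T t665 (L l39 (T t758 N))))))))) (K a102 (M a204 (L l124 (F (T t3456 (L l102 (L l365 (L l439 (T t737 (K a70 (M a118 (F (T t3456 (L l10 (L l30 (L l405 (T t3461 N))))))) (K a118 (Fr a70 a137 l333 (V t3462)) N)))))))))) N))))))))))) N))))))))))))) (K a220 (M a19 (F (T t150 (L l348 (L l351 (L l365 (T t2358 (L l358 (L l501 (T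 t3463 (K a21 (M a28 (F (T t2739 (L l357 (T t3464 N))))) (K a25 (M a89 (F (T t3449 (L l142 (L l501 (T t3450 (T t864 N))))))) (K a38 (M a17 (F (L l26 (T t3465 (L l21 (L l358 (L l366 (T t3466 N)))))))) (K a42 (M a17 (F (L l26 (T t3467 (L l28 (L l358 (L l366 (T t3466 N)))))))) N)))))))))))))) (K a19 (M a220 (F (T t150 (L l43 (L l513 (T t122 (L l10 (L l43 (L l365 (L l513 (T t151 (L l43 (L l501 (L l513 (T t152 (L l43 (L l513 (T t153 (K a4 (M a16 (F (L l17 (T t97 (L l164 (L l171 (T t3468 N))))))) (K a8 (M a16 (F (L l56 (T t112 (L l52 (L l164 (L l171 (L l460 (T t3468 N))))))))) (K a21 (M a204 (F (T t3459 (L l10 (L l18 (T t3461 N)))))) (K a25 (M a28 (L l353 (F (L l10 (T t2735 (L l92 (L l95 (T t3469 (K a89 (M a217 (L l95 (F (L l17 (T t2481 (L l171 (T t3470 (K a92 (M a83 (F (L l10 (T t2735 (L l17 (T t2481 (L l12 (L l56 (T t2482 N))))))))) (K a83 (Fr a92 a156 l358 (V t2735)) N))))))))) (K a217 (M a89 (F (L l10 (T t2735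 (L l142 (L l243 (L l302 (L l501 (T t3450 N))))))))) N)))))))))) (K a29 (M a16 (F (T t112 (L l95 (L l164 (L l477 (T t3471 N))))))) (K a38 (M a16 (F (L l26 (T t112 (L l164 (L l459 (L l477 (T t3472 N)))))))) (K a42 (M a204 (F (T t3459 (L l10 (T t3461 N))))) (K a46 (M a16 (F (T t652 (L l26 (L l164 (L l167 (T t3473 N))))))) (K a51 (M a3 (L l513 (F (T t3456 (L l39 (L l474 (T t665 (L l39 (T t758 (K a204 (M a102 (F (T t3456 (L l39 (L l474 (L l502 (T t665 (L l39 (T t758 N))))))))) (K a102 (M a204 (L l124 (F (T t3456 (L l102 (L l365 (L l439 (T t737 (K a70 (M a118 (F (T t3456 (L l10 (L l30 (L l405 (T t3461 N))))))) (K a118 (Fr a70 a137 l333 (V t3462)) N)))))))))) N))))))))))) N))))))))))))))))))))))))))) N)))))))))))))))))))))))))⟩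
def e0_63__86_97 : Ent 4 := ⟨[a0, a63], [a86, a154], (M a12 (L l366 (F (T t122 (T t151 (T t152 (T t153 (K a4 (M a60 (L l366 (F (T t398 (L l46 (L l50 (L l477 (T t67 (L l351 (T t448 (K a18 (M a222 (F (T t402 (L l45 (L l46 (L l50 (L l477 (T t67 (L l10 (L l351 (T t448 N))))))))))) (K a222 (M a18 (F (T t402 (L l46 (L l50 (L l477 (T t67 (L l351 (T t448 N))))))))) N)))))))))))) (K a8 (M a60 (L l366 (F (T t398 (L l477 (T t67 (L l52 (L l56 (L l351 (T t448 (K a18 (M a222 (F (T t402 (L l45 (L l477 (T t67 (L l10 (L l52 (L l56 (L l351 (T t448 N))))))))))) (K a222 (M a18 (F (T t402 (L l477 (T t67 (L l52 (L l56 (L l351 (T t448 N))))))))) N)))))))))))) (K a21 (M a192 (L l366 (F (T t836 (L l15 (L l170 (L l347 (L l351 (T t450 (L l15 (L l170 (L l347 (L l351 (T t157 (K a18 (M a222 (F (T t468 (L l142 (L l498 (T t543 (L l50 (L l142 (L l498 (T t681 N)))))))))) (K a222 (M a18 (F (T t468 (L l142 (L l498 (T t543 (L l50 (L l142 (L l498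 (T t681 N)))))))))) N)))))))))))))))) (K a25 (M a48 (L l366 (F (L l15 (T t1 (L l19 (T t443 (L l12 (L l56 (L l356 (L l498 (T t866 (K a18 (M a222 (F (L l500 (T t550 (L l10 (L l15 (L l368 (T t3 (L l12 (L l56 (L l356 (L l498 (T t866 N))))))))))))) (K a222 (M a18 (F (L l510 (T t3387 (L l12 (L l56 (L l356 (L l498 (T t866 N))))))))) N)))))))))))))) (K a29 (M a48 (L l366 (F (L l498 (T t2 (L l500 (T t550 (L l356 (L l498 (T t866 (K a18 (M a222 (F (L l500 (T t550 (L l10 (L l15 (L l368 (T t3 (L l15 (T t868 N)))))))))) (K a222 (M a18 (F (L l510 (T t3387 (L l356 (L l498 (T t866 N))))))) N)))))))))))) (K a38 (M a48 (L l366 (F (L l356 (T t1580 (L l26 (L l498 (T t2 (L l21 (L l50 (T t868 (K a18 (M a222 (F (L l356 (T t1580 (L l26 (T t0 (L l21 (L l50 (T t868 N))))))))) (K a222 (M a18 (F (L l369 (T t243 (L l21 (L l50 (T t868 N))))))) N))))))))))))) (K a42 (M a192 (L l366 (F (T t449 (L l170 (L l351 (T t450 (L l56 (L l170 (L l351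 (T t157 (K a18 (M a222 (F (T t836 (L l142 (L l390 (L l498 (T t543 (L l142 (L l390 (L l498 (T t681 N))))))))))) (K a222 (M a18 (F (T t836 (L l142 (L l390 (L l498 (T t543 (L l142 (L l390 (L l498 (T t681 N))))))))))) N))))))))))))) (K a46 (M a48 (L l366 (F (T t443 (T t1 (L l26 (L l356 (L l498 (T t866 (K a18 (M a222 (F (T t443 (L l26 (T t0 (T t868 N)))))) (K a222 (M a18 (F (T t443 (L l60 (L l360 (T t3474 N)))))) N))))))))))) (K a51 (M a48 (L l366 (F (T t3475 (L l73 (T t1 (L l73 (L l356 (L l498 (T t866 (K a18 (M a222 (F (T t3475 (L l73 (T t0 (L l73 (T t868 N))))))) (K a222 (M a18 (F (T t3475 (L l360 (T t3474 N))))) N)))))))))))) (K a18 (M a222 (F (T t152 (L l42 (T t122 (L l10 (T t151 (T t153 (K a4 (M a60 (F (T t402 (L l45 (L l46 (L l50 (L l477 (T t67 (L l10 (L l351 (T t448 N))))))))))) (K a8 (M a60 (F (T t402 (L l45 (L l477 (T t67 (L l10 (L l52 (L l56 (L l351 (T t448 N))))))))))) (K a21 (M a192 (F (T t468 (L l142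 (L l498 (T t543 (L l50 (L l142 (L l498 (T t681 N)))))))))) (K a25 (M a62 (F (L l56 (T t3476 (L l15 (L l92 (L l510 (T t3477 N)))))))) (K a29 (M a192 (F (T t468 (L l142 (L l498 (T t202 (L l142 (L l498 (T t160 N))))))))) (K a38 (M a62 (F (L l50 (T t711 (L l72 (L l92 (L l510 (T t3477 N)))))))) (K a42 (M a192 (F (T t836 (L l142 (L l390 (L l498 (T t543 (L l142 (L l390 (L l498 (T t681 N))))))))))) (K a46 (M a192 (F (T t468 (L l142 (L l408 (L l498 (T t202 (L l26 (L l142 (L l408 (L l498 (T t160 N)))))))))))) (K a51 (M a192 (F (T t2119 (L l142 (L l439 (L l498 (T t202 (L l142 (L l415 (L l498 (T t543 N))))))))))) N))))))))))))))))) (K a222 (M a18 (F (T t122 (L l510 (T t3478 (L l510 (T t3479 (L l369 (T t3480 (L l354 (L l360 (L l369 (T t3481 (K a21 (M a34 (F (L l15 (T t3482 (L l65 (L l459 (L l510 (T t3483 N)))))))) (K a25 (M a48 (F (L l510 (T t3387 (L l12 (L l56 (L l356 (L l498 (T t866 N))))))))) (K a38 (M a48 (F (L l369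 (T t243 (L l21 (L l50 (T t868 N))))))) (K a42 (M a17 (F (L l26 (T t3467 (L l28 (L l369 (L l500 (T t3484 N)))))))) N))))))))))))))))) N))))))))))))))))))⟩
def e0_63__86_98 : Ent 4 := ⟨[a0, a63], [a86, a155], (M a48 (F (T t1 (T t2 (T t3 (T t0 (K a16 (M a60 (F (T t662 (L l511 (T t64 (L l351 (T t65 N))))))) (K a32 (M a60 (F (T t138 (L l477 (T t67 (L l24 (L l28 (L l351 (T t65 N))))))))) (K a21 (M a192 (F (T t837 (L l47 (L l347 (L l351 (L l511 (T t20 (L l47 (L l347 (L l351 (L l367 (T t29 N))))))))))))) (K a37 (M a192 (F (T t19 (L l47 (L l351 (L l511 (T t20 (L l351 (T t21 N))))))))) (K a53 (M a192 (F (T t19 (L l351 (L l491 (T t21 (L l142 (L l169 (T t31 N))))))))) (K a26 (M a192 (F (T t27 (L l351 (L l511 (T t20 (L l351 (T t21 N)))))))) (K a42 (M a192 (F (T t19 (L l351 (L l511 (T t20 (L l28 (L l351 (L l367 (T t29 N)))))))))) (K a58 (M a192 (F (T t19 (L l351 (T t21 (L l54 (L l142 (L l169 (L l498 (T t31 N)))))))))) (K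 a15 (M a192 (F (T t1922 (L l325 (L l351 (L l511 (T t20 (L l351 (L l469 (T t21 N)))))))))) N)))))))))))))))⟩
def e0_63__86_99 : Ent 4 := ⟨[a0, a63], [a86, a156], (M a48 (F (T t1 (T t2 (T t3 (T t0 (K a16 (M a60 (F (T t64 (L l14 (L l18 (L l477 (T t67 (L l351 (T t65 N))))))))) (K a32 (M a60 (F (T t64 (L l477 (T t67 (L l24 (L l28 (L l351 (T t65 N))))))))) (K a21 (M a192 (F (T t837 (L l47 (L l347 (L l351 (T t20 (L l47 (L l347 (L l351 (T t29 N))))))))))) (K a37 (M a192 (F (T t837 (L l47 (L l351 (T t20 (L l351 (T t21 N)))))))) (K a53 (M a192 (F (T t837 (L l351 (L l491 (T t21 (L l142 (L l165 (T t31 N))))))))) (K a26 (M a192 (F (T t837 (L l351 (T t20 (L l351 (T t21 N))))))) (K a42 (M a192 (F (T t837 (L l351 (T t20 (L l28 (L l351 (T t29 N)))))))) (K a58 (M a192 (F (T t837 (L l351 (T t21 (L l54 (L l142 (L l165 (L l498 (T t31 N)))))))))) (K a15 (M a192 (F (T t1922 (L l325 (L l351 (T t20 (L l351 (L l469 (T t21 N)))))))))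 N)))))))))))))))⟩
def e0_63__86_100 : Ent 4 := ⟨[a0, a63], [a86, a157], (M a48 (F (T t1 (T t2 (T t3 (L l363 (T t0 (K a16 (M a60 (F (T t42 (L l14 (L l18 (L l477 (T t67 (L l351 (T t65 N))))))))) (K a32 (M a60 (F (T t42 (L l477 (T t67 (L l24 (L l28 (L l351 (T t65 N))))))))) (K a21 (M a192 (F (T t837 (L l47 (L l167 (L l347 (L l351 (T t20 (L l47 (L l167 (L l347 (L l351 (T t29 N))))))))))))) (K a37 (M a192 (F (T t19 (L l47 (L l167 (L l351 (T t20 (L l167 (L l351 (T t21 N)))))))))) (K a53 (M a192 (F (T t19 (L l167 (L l351 (L l491 (T t21 (L l142 (L l165 (T t31 N)))))))))) (K a26 (M a192 (F (T t837 (L l167 (L l351 (T t20 (L l167 (L l351 (T t21 N))))))))) (K a42 (M a192 (F (T t19 (L l167 (L l351 (T t20 (L l28 (L l167 (L l351 (T t29 N)))))))))) (K a58 (M a192 (F (T t19 (L l167 (L l351 (T t21 (L l54 (L l142 (L l165 (L l498 (T t31 N))))))))))) (K a15 (M a192 (F (T t1922 (L l167 (L l325 (L l351 (T t20 (L l167 (L l351 (L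 l469 (T t21 N))))))))))) N))))))))))))))))⟩
def e0_63__86_101 : Ent 4 := ⟨[a0, a63], [a86, a158], (M a48 (F (T t1 (T t2 (T t3 (T t0 (K a16 (M a60 (F (T t64 (L l14 (L l18 (L l477 (T t67 (L l351 (T t65 N))))))))) (K a32 (M a60 (F (T t64 (L l477 (T t67 (L l24 (L l28 (L l351 (T t65 N))))))))) (K a21 (M a192 (F (T t837 (L l47 (L l347 (L l351 (L l506 (T t20 (L l47 (L l347 (L l351 (L l362 (T t29 N))))))))))))) (K a37 (M a192 (F (T t19 (L l47 (L l351 (L l506 (T t20 (L l351 (T t21 N))))))))) (K a53 (M a192 (F (T t19 (L l351 (L l491 (T t21 (L l142 (L l165 (T t31 N))))))))) (K a26 (M a192 (F (T t27 (L l351 (L l506 (T t20 (L l351 (T t21 N)))))))) (K a42 (M a192 (F (T t19 (L l351 (L l506 (T t20 (L l28 (L l351 (L l362 (T t29 N)))))))))) (K a58 (M a192 (F (T t19 (L l351 (T t21 (L l54 (L l142 (L l165 (L l498 (T t31 N)))))))))) (K a15 (M a192 (F (T t1922 (L l325 (L l351 (L l506 (T t20 (L l351 (L l469 (T t21 N)))))))))) N)))))))))))))))⟩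
def e0_63__86_102 : Ent 4 := ⟨[a0, a63], [a86, a159], (M a48 (F (T t1 (T t2 (T t3 (L l361 (T t0 (K a16 (M a60 (F (T t64 (L l14 (L l18 (L l477 (T t67 (L l351 (T t65 N))))))))) (K a32 (M a60 (F (T t64 (L l477 (T t67 (L l24 (L l28 (L l351 (T t65 N))))))))) (K a21 (M a192 (F (T t837 (L l47 (L l170 (L l347 (L l351 (T t20 (L l18 (L l142 (T t224 N))))))))))) (K a37 (M a192 (F (T t837 (L l47 (L l170 (L l351 (T t20 (L l142 (L l213 (T t202 N)))))))))) (K a53 (M a192 (F (T t837 (L l142 (L l213 (T t202 (L l47 (L l170 (L l351 (L l491 (T t838 N))))))))))) (K a26 (M a192 (F (T t837 (L l170 (L l351 (T t20 (L l142 (L l213 (T t202 N))))))))) (K a42 (M a192 (F (T t837 (L l170 (L l351 (T t20 (L l54 (L l142 (L l390 (T t224 N)))))))))) (K a58 (M a192 (F (T t837 (L l142 (L l213 (L l498 (T t202 (L l170 (L l351 (T t838 N)))))))))) (K a15 (M a192 (F (T t1922 (L l170 (L l325 (L l351 (T t20 (L l142 (L l213 (L l469 (T t202 N)))))))))))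 N))))))))))))))))⟩
def e0_63__86_103 : Ent 4 := ⟨[a0, a63], [a86, a168], (M a48 (F (T t1 (T t2 (T t3 (L l400 (T t0 (K a16 (M a60 (F (T t64 (L l14 (L l18 (L l477 (T t67 (L l351 (L l388 (T t65 N)))))))))) (K a32 (M a149 (L l400 (F (T t184 (L l28 (T t5 (L l28 (T t6 (K a100 (M a236 (F (T t11 (L l87 (T t1007 (L l28 (T t6 N))))))) (K a236 (M a100 (F (L l142 (T t177 (L l204 (L l399 (T t3485 N))))))) N)))))))))) (K a21 (M a192 (F (T t837 (L l47 (L l347 (L l351 (T t20 (L l47 (L l347 (L l351 (L l400 (T t29 N)))))))))))) (K a37 (M a192 (F (T t19 (L l47 (L l351 (T t20 (L l216 (L l351 (T t21 N))))))))) (K a53 (M a192 (F (T t19 (L l216 (L l351 (L l491 (T t21 (L l142 (T t31 N))))))))) (K a26 (M a192 (F (T t837 (L l351 (T t20 (L l216 (L l351 (T t21 N)))))))) (K a42 (M a192 (F (T t19 (L l351 (T t20 (L l28 (L l351 (L l400 (T t29 N))))))))) (K a58 (M a192 (F (T t19 (L l216 (L l351 (T t21 (L l54 (L l142 (L l498 (T t31 N))))))))))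 (K a15 (M a192 (F (L l483 (T t19 (L l325 (L l351 (T t20 (L l216 (L l351 (L l469 (T t21 N))))))))))) N))))))))))))))))⟩
def e0_63__86_104 : Ent 4 := ⟨[a0, a63], [a86, a169], (M a3 (F (L l393 (T t137 (L l351 (T t353 (L l474 (T t665 (L l473 (T t358 (K a60 (M a16 (F (T t112 (L l39 (L l369 (L l401 (T t839 (L l366 (L l393 (T t840 N)))))))))) (K a1 (M a85 (F (T t88 (L l174 (L l221 (L l474 (T t355 (L l348 (L l393 (T t3486 N)))))))))) (K a21 (M a195 (F (L l393 (T t3487 (L l474 (T t3488 (L l65 (L l393 (L l473 (T t3489 (L l11 (L l351 (L l474 (T t3490 N)))))))))))))) (K a41 (M a48 (L l389 (F (L l22 (T t2 (L l29 (L l366 (L l405 (T t348 (L l25 (L l65 (L l401 (T t847 (K a105 (M a233 (L l145 (F (L l22 (T t0 (L l366 (L l474 (T t1249 (L l25 (L l65 (L l401 (T t847 (K a124 (M a67 (F (L l65 (T t1 (L l110 (L l221 (T t3491 N))))))) (K a67 (M a124 (F (L l22 (T t0 (L l366 (L l474 (T t1249 (L l25 (L l65 (L l401 (T t847 N)))))))))))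 N)))))))))))))) (K a233 (M a105 (F (L l22 (T t0 (L l366 (L l474 (T t1249 (L l25 (L l65 (L l401 (T t847 N))))))))))) N))))))))))))))) (K a2 (M a170 (F (T t317 (L l87 (L l145 (L l473 (T t3492 (L l351 (L l389 (T t3493 N)))))))))) (K a22 (M a48 (L l348 (F (L l11 (T t3 (L l401 (L l473 (T t86 (L l16 (L l66 (L l366 (T t345 (K a150 (M a214 (L l221 (F (L l11 (T t1 (L l19 (L l369 (L l401 (T t559 (L l16 (L l66 (L l366 (T t345 (K a188 (M a131 (F (L l11 (T t1 (L l145 (L l216 (T t3494 N))))))) (K a131 (M a188 (F (L l11 (T t1 (L l19 (L l369 (L l401 (T t559 (L l16 (L l66 (L l366 (T t345 N)))))))))))) N))))))))))))))) (K a214 (M a150 (F (L l11 (T t1 (L l19 (L l369 (L l401 (T t559 (L l16 (L l66 (L l366 (T t345 N)))))))))))) N)))))))))))))) (K a42 (M a195 (F (L l221 (T t3495 (L l351 (T t3496 (L l22 (L l393 (L l473 (T t3497 (L l66 (L l351 (L l474 (T t3498 N)))))))))))))) (K a23 (M a149 (F (T t5 (L l142 (L l145 (L l393 (T t1883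 (L l389 (L l474 (T t3499 N)))))))))) (K a43 (M a106 (F (T t305 (L l217 (L l221 (L l351 (T t3500 (L l348 (L l473 (T t3501 N)))))))))) N)))))))))))))))))))⟩
def e0_63__86_105 : Ent 4 := ⟨[a0, a63], [a86, a170], (M a48 (L l474 (F (T t3 (L l462 (T t1 (L l390 (T t2 (L l390 (L l404 (T t0 (K a16 (M a50 (L l474 (F (T t147 (L l390 (L l402 (T t1433 (L l18 (L l348 (L l402 (T t149 (L l18 (L l462 (T t3502 (K a2 (M a254 (F (L l66 (L l390 (T t3503 (L l124 (L l462 (T t3504 N)))))))) (K a254 (M a2 (F (T t3505 (L l432 (T t147 N))))) N)))))))))))))))) (K a32 (M a51 (L l404 (L l474 (F (T t589 (T t1995 (L l462 (T t591 (K a101 (M a239 (L l127 (L l474 (F (T t1995 (T t589 (L l462 (L l491 (T t591 (K a116 (M a71 (L l474 (F (T t1995 (T t589 (L l462 (L l491 (T t591 (K a2 (M a254 (F (T t589 (L l206 (L l491 (L l509 (T t3506 N))))))) (K a254 (M a2 (F (T t3507 (L l432 (T t824 N))))) N)))))))))) (K a2 (M a254 (L l127 (F (T t589 (L l206 (L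 l491 (L l509 (T t3506 (K a116 (M a71 (F (T t589 (L l206 (L l491 (L l509 (T t3506 N))))))) (K a71 (M a116 (F (T t3508 (L l464 (T t592 N))))) N)))))))))) (K a254 (M a2 (L l127 (F (T t3507 (L l432 (T t824 (K a116 (M a71 (F (T t3507 (L l432 (T t824 N))))) (K a71 (M a116 (F (T t3507 (L l432 (T t824 N))))) N)))))))) (K a71 (M a116 (L l474 (F (T t589 (L l125 (T t3509 (K a2 (M a254 (F (T t3508 (L l464 (T t592 N))))) (K a254 (M a2 (F (T t3507 (L l432 (T t824 N))))) N)))))))) N))))))))))))) (K a2 (M a254 (L l404 (F (T t589 (L l206 (T t3506 (K a101 (M a239 (L l127 (F (T t589 (L l206 (L l491 (L l509 (T t3506 (K a116 (M a71 (F (T t589 (L l206 (L l491 (L l509 (T t3506 N))))))) (K a71 (M a116 (F (T t3508 (L l464 (T t592 N))))) N)))))))))) (K a239 (M a101 (F (T t589 (L l206 (L l366 (T t315 N)))))) N)))))))) (K a254 (M a2 (L l404 (F (T t1997 (L l432 (T t824 (K a101 (M a239 (L l127 (F (T t3507 (L l432 (T t824 (K a116 (M a71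 (F (T t3507 (L l432 (T t824 N))))) (K a71 (M a116 (F (T t3507 (L l432 (T t824 N))))) N)))))))) (K a239 (M a101 (F (T t3507 (L l289 (T t687 N))))) N)))))))) (K a239 (M a101 (L l474 (F (T t589 (L l208 (L l289 (L l369 (T t3510 (K a2 (M a254 (F (T t589 (L l206 (L l366 (T t315 N)))))) (K a254 (M a2 (F (T t3507 (L l289 (T t687 N))))) N)))))))))) N)))))))))))) (K a21 (M a240 (L l474 (F (T t3317 (L l180 (T t3318 (L l18 (L l220 (T t3511 (L l47 (L l180 (L l404 (L l462 (T t3512 (K a2 (M a254 (F (L l180 (T t3318 (L l47 (L l124 (L l142 (L l462 (T t3513 N))))))))) (K a254 (M a2 (F (T t3514 (L l65 (L l95 (L l180 (T t3515 N))))))) N)))))))))))))))) (K a37 (M a60 (L l474 (F (T t451 (L l28 (L l351 (L l390 (L l392 (L l477 (T t43 (L l392 (T t247 (K a2 (M a254 (F (T t880 (L l124 (L l142 (T t3516 N)))))) (K a254 (M a2 (F (T t2002 (T t880 N)))) N)))))))))))))) (K a53 (M a2 (F (T t339 (L l47 (T t824 (L l47 (T t830 (L l35 (L l47 (L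 l348 (L l392 (L l404 (T t831 N))))))))))))) (K a26 (M a2 (F (L l72 (T t339 (L l18 (T t824 (L l16 (L l18 (L l348 (T t832 (L l402 (T t833 N)))))))))))) (K a42 (M a106 (L l474 (F (T t309 (L l220 (L l351 (T t551 (L l28 (L l206 (L l220 (L l404 (T t552 (L l28 (L l206 (L l404 (T t553 (K a2 (M a254 (L l66 (F (T t309 (L l220 (L l351 (T t551 (L l28 (L l206 (L l220 (L l404 (T t552 (L l28 (L l206 (L l404 (T t553 (K a22 (M a62 (L l348 (F (T t309 (L l11 (T t602 (K a150 (M a214 (L l218 (F (T t309 (L l22 (L l392 (T t3443 (K a130 (Fr a190 a126 l432 (V t309)) (K a190 (M a130 (F (T t309 (L l188 (T t596 N))))) N))))))))) (K a214 (Fr a150 a194 l516 (V t3517)) N)))))))) (K a62 (M a22 (F (T t309 (L l220 (L l351 (T t551 (L l28 (L l206 (L l220 (L l404 (T t552 (L l28 (L l206 (L l404 (T t553 N))))))))))))))) N)))))))))))))))))) (K a254 (M a2 (F (T t309 (L l438 (T t339 N))))) N)))))))))))))))))) (K a58 (M a2 (F (L l36 (T t824 (L l369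 (L l404 (T t342 (L l32 (L l348 (L l392 (L l404 (T t831 (L l32 (L l36 (L l459 (T t834 N)))))))))))))))) (K a15 (M a2 (F (L l63 (T t824 (L l73 (T t339 (L l348 (L l366 (T t340 N))))))))) (K a2 (M a254 (F (T t3 (L l6 (L l462 (T t1 (L l66 (L l390 (T t2 (L l66 (L l390 (L l404 (T t0 (K a16 (M a50 (F (L l66 (L l390 (T t3503 (L l124 (L l462 (T t3504 N)))))))) (K a32 (M a50 (L l404 (F (L l464 (T t303 (L l124 (L l462 (T t3504 (K a101 (M a239 (L l127 (F (L l509 (T t3518 (L l124 (L l462 (L l491 (T t3504 (K a116 (M a71 (F (L l509 (T t3518 (L l107 (L l124 (L l462 (L l491 (T t3504 N))))))))) (K a71 (M a116 (F (T t3519 (L l66 (L l491 (L l509 (T t147 N))))))) N))))))))))) (K a239 (M a101 (F (L l289 (T t687 (L l464 (T t303 N)))))) N)))))))))) (K a21 (M a60 (F (L l392 (L l404 (T t248 (L l65 (L l124 (L l142 (T t3516 N))))))))) (K a37 (M a60 (F (T t880 (L l124 (L l142 (T t3516 N)))))) (K a53 (M a252 (F (L l66 (T t3117 (L l174 (T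 t3428 N)))))) (K a26 (M a60 (F (L l18 (T t880 (L l124 (L l142 (T t3516 N))))))) (K a42 (M a106 (L l66 (F (T t309 (L l220 (L l351 (T t551 (L l28 (L l206 (L l220 (L l404 (T t552 (L l28 (L l206 (L l404 (T t553 (K a22 (M a62 (L l348 (F (T t309 (L l11 (T t602 (K a150 (M a214 (L l218 (F (T t309 (L l22 (L l392 (T t3443 (K a130 (Fr a190 a126 l432 (V t309)) (K a190 (M a130 (F (T t309 (L l188 (T t596 N))))) N))))))))) (K a214 (Fr a150 a194 l516 (V t3517)) N)))))))) (K a62 (M a22 (F (T t309 (L l220 (L l351 (T t551 (L l28 (L l206 (L l220 (L l404 (T t552 (L l28 (L l206 (L l404 (T t553 N))))))))))))))) N)))))))))))))))))) (K a58 (M a252 (F (L l174 (T t3428 (L l36 (L l66 (T t3117 N))))))) (K a15 (M a60 (F (T t3520 (L l124 (L l142 (T t3516 N)))))) N)))))))))))))))))))))) (K a254 (M a2 (F (T t3 (L l438 (T t339 (L l432 (T t824 N))))))) N))))))))))))))))))))))⟩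
def e0_63__86_106 : Ent 4 := ⟨[a0, a63], [a86, a171], (M a48 (F (T t1 (T t2 (T t3 (T t0 (K a16 (M a60 (F (T t64 (L l14 (L l18 (L l391 (L l475 (L l477 (T t67 (L l351 (T t65 N))))))))))) (K a32 (M a60 (F (T t64 (L l391 (L l475 (L l477 (T t67 (L l24 (L l28 (L l351 (T t65 N))))))))))) (K a21 (M a192 (F (T t837 (L l47 (L l347 (L l351 (T t20 (L l47 (L l347 (L l351 (T t29 N))))))))))) (K a37 (M a192 (F (T t19 (L l47 (L l351 (T t20 (L l351 (L l475 (T t21 N))))))))) (K a53 (M a192 (F (T t19 (L l351 (L l475 (L l491 (T t21 (L l142 (T t31 N))))))))) (K a26 (M a192 (F (T t837 (L l351 (T t20 (L l351 (L l475 (T t21 N)))))))) (K a42 (M a192 (F (T t19 (L l351 (T t20 (L l28 (L l351 (T t29 N)))))))) (K a58 (M a192 (F (T t19 (L l351 (L l475 (T t21 (L l54 (L l142 (L l498 (T t31 N)))))))))) (K a15 (M a192 (F (T t1922 (L l325 (L l351 (T t20 (L l351 (L l469 (L l475 (T t21 N)))))))))) N)))))))))))))))⟩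
def e0_63__86_107 : Ent 4 := ⟨[a0, a63], [a86, a172], (M a48 (F (T t1 (T t2 (T t3 (T t0 (K a16 (M a60 (F (T t64 (L l14 (L l18 (L l477 (T t67 (L l351 (T t65 N))))))))) (K a32 (M a60 (F (T t64 (L l477 (T t67 (L l24 (L l28 (L l351 (T t65 N))))))))) (K a21 (M a192 (F (T t837 (L l47 (L l347 (L l351 (T t20 (L l47 (L l347 (L l351 (T t29 N))))))))))) (K a37 (M a192 (F (T t19 (L l47 (L l351 (T t20 (L l351 (T t21 N)))))))) (K a53 (M a192 (F (T t19 (L l351 (L l491 (T t21 (L l142 (T t31 N)))))))) (K a26 (M a192 (F (T t27 (L l351 (T t20 (L l351 (T t21 N))))))) (K a42 (M a192 (F (T t19 (L l351 (T t20 (L l28 (L l351 (T t29 N)))))))) (K a58 (M a192 (F (T t19 (L l351 (T t21 (L l54 (L l142 (L l498 (T t31 N))))))))) (K a15 (M a192 (F (T t1922 (L l325 (L l351 (T t20 (L l351 (L l469 (T t21 N))))))))) N)))))))))))))))⟩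
def e0_63__86_108 : Ent 4 := ⟨[a0, a63], [a86, a173], (M a12 (F (T t122 (T t151 (T t152 (T t153 (K a4 (M a60 (F (T t662 (L l471 (T t398 (L l351 (T t448 N))))))) (K a8 (M a60 (F (T t835 (L l477 (T t67 (L l52 (L l56 (L l351 (T t448 N))))))))) (K a21 (M a192 (F (T t836 (L l15 (L l347 (L l351 (T t450 (L l15 (L l347 (L l351 (T t157 N))))))))))) (K a25 (M a192 (F (T t449 (L l15 (L l351 (T t450 (L l351 (T t21 N)))))))) (K a29 (M a192 (F (T t449 (L l351 (L l371 (T t21 (L l142 (T t160 N)))))))) (K a38 (M a192 (F (T t156 (L l351 (T t450 (L l351 (T t21 N))))))) (K a42 (M a192 (F (T t449 (L l351 (T t450 (L l56 (L l351 (T t157 N)))))))) (K a46 (M a192 (F (T t449 (L l351 (T t21 (L l26 (L l142 (L l408 (T t160 N))))))))) (K a51 (M a192 (F (T t1725 (L l351 (L l415 (T t450 (L l351 (L l439 (T t21 N))))))))) N)))))))))))))))⟩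
def e0_63__86_109 : Ent 4 := ⟨[a0, a63], [a86, a174], (M a48 (F (T t1 (T t2 (T t3 (T t0 (K a16 (M a60 (F (T t64 (L l14 (L l18 (L l477 (T t67 (L l351 (T t65 N))))))))) (K a32 (M a60 (F (T t64 (L l477 (T t67 (L l24 (L l28 (L l351 (T t65 N))))))))) (K a21 (M a192 (F (T t837 (L l47 (L l347 (L l351 (T t20 (L l47 (L l347 (L l351 (T t29 N))))))))))) (K a37 (M a192 (F (T t19 (L l47 (L l351 (T t20 (L l351 (L l470 (T t21 N))))))))) (K a53 (M a192 (F (T t19 (L l351 (L l470 (L l491 (T t21 (L l142 (T t31 N))))))))) (K a26 (M a192 (F (T t837 (L l351 (T t20 (L l351 (L l470 (T t21 N)))))))) (K a42 (M a192 (F (T t19 (L l351 (T t20 (L l28 (L l351 (T t29 N)))))))) (K a58 (M a192 (F (T t19 (L l351 (L l470 (T t21 (L l54 (L l142 (L l498 (T t31 N)))))))))) (K a15 (M a192 (F (T t1922 (L l325 (L l351 (T t20 (L l351 (L l469 (L l470 (T t21 N)))))))))) N)))))))))))))))⟩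
def e0_63__86_110 : Ent 4 := ⟨[a0, a63], [a86, a175], (M a12 (F (T t122 (T t151 (T t152 (T t153 (K a4 (M a60 (F (T t662 (L l469 (T t398 (L l351 (T t448 N))))))) (K a8 (M a60 (F (T t570 (L l477 (T t67 (L l52 (L l56 (L l351 (T t448 N))))))))) (K a21 (M a192 (F (T t836 (L l15 (L l347 (L l351 (T t450 (L l15 (L l347 (L l351 (T t157 N))))))))))) (K a25 (M a192 (F (T t449 (L l15 (L l351 (T t450 (L l351 (L l469 (T t21 N))))))))) (K a29 (M a192 (F (T t449 (L l351 (L l371 (L l469 (T t21 (L l142 (T t160 N))))))))) (K a38 (M a192 (F (T t836 (L l351 (T t450 (L l351 (L l469 (T t21 N)))))))) (K a42 (M a192 (F (T t449 (L l351 (T t450 (L l56 (L l351 (T t157 N)))))))) (K a46 (M a192 (F (T t449 (L l351 (L l469 (T t21 (L l26 (L l142 (L l408 (T t160 N)))))))))) (K a51 (M a192 (F (T t1725 (L l351 (L l415 (T t450 (L l351 (L l439 (L l469 (T t21 N)))))))))) N)))))))))))))))⟩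
def e0_63__86_111 : Ent 4 := ⟨[a0, a63], [a86, a188], (M a48 (F (T t1 (T t2 (T t3 (T t0 (K a16 (M a60 (F (T t64 (L l14 (L l18 (L l477 (T t67 (L l351 (T t65 N))))))))) (K a32 (M a60 (F (T t64 (L l477 (T t67 (L l24 (L l28 (L l351 (T t65 N))))))))) (K a21 (M a192 (F (T t28 (L l47 (L l347 (L l351 (T t20 (L l47 (L l347 (L l351 (T t29 N))))))))))) (K a37 (M a192 (F (T t19 (L l47 (L l351 (T t20 (L l216 (L l351 (T t21 N))))))))) (K a53 (M a192 (F (T t19 (L l216 (L l351 (L l491 (T t21 (L l142 (T t31 N))))))))) (K a26 (M a192 (F (T t28 (L l351 (T t20 (L l216 (L l351 (T t21 N)))))))) (K a42 (M a192 (F (T t19 (L l351 (T t20 (L l28 (L l351 (T t29 N)))))))) (K a58 (M a192 (F (T t19 (L l216 (L l351 (T t21 (L l54 (L l142 (L l498 (T t31 N)))))))))) (K a15 (M a192 (F (T t2113 (L l325 (L l351 (T t20 (L l216 (L l351 (L l469 (T t21 N)))))))))) N)))))))))))))))⟩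
def e0_63__86_112 : Ent 4 := ⟨[a0, a63], [a86, a189], (M a48 (F (T t1 (T t2 (T t3 (T t0 (K a16 (M a60 (F (T t42 (L l14 (L l18 (L l477 (T t67 (L l351 (T t65 N))))))))) (K a32 (M a60 (F (T t42 (L l477 (T t67 (L l24 (L l28 (L l351 (T t65 N))))))))) (K a21 (M a192 (F (T t837 (L l47 (L l217 (L l347 (L l351 (T t20 (L l47 (L l217 (L l347 (L l351 (T t29 N))))))))))))) (K a37 (M a192 (F (T t19 (L l47 (L l217 (L l351 (T t20 (L l217 (L l351 (T t21 N)))))))))) (K a53 (M a192 (F (T t19 (L l217 (L l351 (L l491 (T t21 (L l142 (T t31 N))))))))) (K a26 (M a192 (F (T t837 (L l217 (L l351 (T t20 (L l217 (L l351 (T t21 N))))))))) (K a42 (M a192 (F (T t19 (L l217 (L l351 (T t20 (L l28 (L l217 (L l351 (T t29 N)))))))))) (K a58 (M a192 (F (T t19 (L l217 (L l351 (T t21 (L l54 (L l142 (L l498 (T t31 N)))))))))) (K a15 (M a192 (F (T t1922 (L l217 (L l325 (L l351 (T t20 (L l217 (L l351 (L l469 (T t21 N))))))))))) N)))))))))))))))⟩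
def e0_63__86_113 : Ent 4 := ⟨[a0, a63], [a86, a190], (M a48 (F (T t1 (T t2 (T t3 (T t0 (K a16 (M a60 (F (T t64 (L l14 (L l18 (L l477 (T t67 (L l351 (T t65 N))))))))) (K a32 (M a60 (F (T t64 (L l477 (T t67 (L l24 (L l28 (L l351 (T t65 N))))))))) (K a21 (M a192 (F (T t837 (L l47 (L l347 (L l351 (T t20 (L l47 (L l347 (L l351 (T t29 N))))))))))) (K a37 (M a192 (F (T t19 (L l47 (L l351 (T t20 (L l351 (L l434 (T t21 N))))))))) (K a53 (M a192 (F (T t19 (L l351 (L l434 (L l491 (T t21 (L l142 (T t31 N))))))))) (K a26 (M a192 (F (T t837 (L l351 (T t20 (L l351 (L l434 (T t21 N)))))))) (K a42 (M a192 (F (T t19 (L l351 (T t20 (L l28 (L l351 (T t29 N)))))))) (K a58 (M a192 (F (T t19 (L l351 (L l434 (T t21 (L l54 (L l142 (L l498 (T t31 N)))))))))) (K a15 (M a192 (F (T t1922 (L l325 (L l351 (T t20 (L l351 (L l434 (L l469 (T t21 N)))))))))) N)))))))))))))))⟩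
def e0_63__86_114 : Ent 4 := ⟨[a0, a63], [a86, a191], (M a48 (F (T t1 (T t2 (T t3 (T t0 (K a16 (M a60 (F (T t64 (L l14 (L l18 (L l477 (T t67 (L l351 (T t65 N))))))))) (K a32 (M a60 (F (T t64 (L l477 (T t67 (L l24 (L l28 (L l351 (T t65 N))))))))) (K a21 (M a192 (F (T t28 (L l142 (T t206 (L l47 (L l220 (L l347 (L l351 (T t29 N)))))))))) (K a37 (M a192 (F (T t19 (L l142 (T t206 (L l47 (L l220 (L l351 (T t35 N))))))))) (K a53 (M a192 (F (T t19 (L l47 (L l220 (L l351 (L l491 (T t35 (L l142 (L l213 (T t31 N))))))))))) (K a26 (M a192 (F (T t28 (L l54 (L l142 (T t206 (L l18 (L l220 (L l351 (T t35 N)))))))))) (K a42 (M a192 (F (T t19 (L l54 (L l142 (L l390 (T t206 (L l28 (L l220 (L l351 (T t29 N))))))))))) (K a58 (M a192 (F (T t19 (L l220 (L l351 (T t35 (L l54 (L l142 (L l213 (L l498 (T t31 N))))))))))) (K a15 (M a192 (F (T t2113 (L l142 (L l325 (T t206 (L l220 (L l351 (L l469 (T t35 N)))))))))) N)))))))))))))))⟩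
def e0_63__86_115 : Ent 4 := ⟨[a0, a63], [a86, a192], (M a48 (F (T t48 (L l339 (T t1 (L l339 (T t2 (L l339 (T t3 (L l339 (T t0 (K a16 (M a60 (F (T t138 (L l14 (L l18 (L l309 (L l477 (T t67 (L l351 (T t65 N)))))))))) (K a32 (M a60 (F (T t138 (L l309 (L l477 (T t67 (L l24 (L l28 (L l351 (T t65 N)))))))))) (K a21 (M a255 (F (T t554 (L l87 (L l236 (L l347 (T t547 (L l47 (L l236 (L l474 (T t548 N))))))))))) (K a37 (M a52 (F (T t555 (L l334 (T t82 (L l21 (L l28 (T t84 N)))))))) (K a53 (M a12 (F (T t145 (L l47 (L l489 (T t122 (L l47 (T t146 N)))))))) (K a26 (M a56 (F (T t556 (L l334 (T t133 (L l12 (L l18 (T t135 N)))))))) (K a42 (M a255 (F (T t557 (L l87 (L l236 (T t547 (L l28 (L l236 (L l390 (L l474 (T t548 N))))))))))) (K a58 (M a12 (F (T t145 (L l489 (T t122 (T t146 N)))))) (K a15 (M a4 (L l339 (F (T t129 (L l63 (L l514 (T t528 (T t520 (K a133 (M a74 (F (T t1604 (L l63 (L l514 (T t528 (T t520 N))))))) (K a74 (M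 a133 (F (T t1604 (L l63 (L l514 (T t528 (T t520 N))))))) N)))))))))) N))))))))))))))))))))⟩
def e0_63__86_116 : Ent 4 := ⟨[a0, a63], [a86, a193], (M a48 (F (T t1 (T t2 (T t3 (T t0 (K a16 (M a60 (F (T t42 (L l14 (L l18 (L l477 (T t67 (L l351 (T t65 N))))))))) (K a32 (M a60 (F (T t42 (L l477 (T t67 (L l24 (L l28 (L l351 (T t65 N))))))))) (K a21 (M a192 (F (T t837 (L l47 (L l347 (L l351 (L l515 (T t20 (L l47 (L l347 (L l351 (L l515 (T t29 N))))))))))))) (K a37 (M a192 (F (T t19 (L l47 (L l351 (L l515 (T t20 (L l351 (L l515 (T t21 N)))))))))) (K a53 (M a192 (F (T t19 (L l351 (L l491 (L l515 (T t21 (L l142 (L l293 (T t31 N)))))))))) (K a26 (M a192 (F (T t837 (L l351 (L l515 (T t20 (L l351 (L l515 (T t21 N))))))))) (K a42 (M a192 (F (T t19 (L l351 (L l515 (T t20 (L l28 (L l351 (L l515 (T t29 N)))))))))) (K a58 (M a192 (F (T t19 (L l351 (L l515 (T t21 (L l54 (L l142 (L l293 (L l498 (T t31 N))))))))))) (K a15 (M a192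 (F (T t1922 (L l325 (L l351 (L l515 (T t20 (L l351 (L l469 (L l515 (T t21 N))))))))))) N)))))))))))))))⟩
def e0_63__86_117 : Ent 4 := ⟨[a0, a63], [a86, a194], (M a48 (F (T t1 (T t2 (T t3 (T t0 (K a16 (M a60 (F (T t42 (L l14 (L l18 (L l477 (T t67 (L l351 (T t65 N))))))))) (K a32 (M a60 (F (T t42 (L l477 (T t67 (L l24 (L l28 (L l351 (T t65 N))))))))) (K a21 (M a192 (F (T t837 (L l47 (L l234 (L l347 (L l351 (T t20 (L l47 (L l234 (L l347 (L l351 (T t29 N))))))))))))) (K a37 (M a192 (F (T t19 (L l47 (L l234 (L l351 (T t20 (L l351 (T t21 N))))))))) (K a53 (M a192 (F (T t19 (L l351 (L l491 (T t21 (L l142 (L l516 (T t31 N))))))))) (K a26 (M a192 (F (T t837 (L l234 (L l351 (T t20 (L l351 (T t21 N)))))))) (K a42 (M a192 (F (T t19 (L l234 (L l351 (T t20 (L l28 (L l234 (L l351 (T t29 N)))))))))) (K a58 (M a192 (F (T t19 (L l351 (T t21 (L l54 (L l142 (L l498 (L l516 (T t31 N)))))))))) (K a15 (M a192 (F (T t1922 (L l234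 (L l325 (L l351 (T t20 (L l351 (L l469 (T t21 N)))))))))) N)))))))))))))))⟩
def e0_63__86_118 : Ent 4 := ⟨[a0, a63], [a86, a195], (M a48 (F (T t48 (L l337 (T t1 (L l337 (T t2 (L l337 (T t3 (L l337 (T t0 (K a16 (M a60 (F (T t138 (L l14 (L l18 (L l307 (L l477 (T t67 (L l351 (T t65 N)))))))))) (K a32 (M a60 (F (T t138 (L l307 (L l477 (T t67 (L l24 (L l28 (L l351 (T t65 N)))))))))) (K a21 (M a192 (F (T t1922 (L l47 (L l235 (L l347 (L l351 (T t20 (L l47 (L l347 (L l351 (T t29 N)))))))))))) (K a37 (M a192 (F (T t36 (L l47 (L l235 (L l351 (T t20 (L l295 (L l351 (T t21 N)))))))))) (K a53 (M a192 (F (T t55 (L l295 (L l351 (L l491 (T t21 (L l142 (T t31 N))))))))) (K a26 (M a192 (F (T t1922 (L l235 (L l351 (T t20 (L l295 (L l351 (T t21 N))))))))) (K a42 (M a192 (F (T t36 (L l235 (L l351 (T t20 (L l28 (L l351 (T t29 N))))))))) (K a58 (M a192 (F (T t1922 (L l295 (L l351 (T t21 (L l54 (L l142 (L l498 (T t31 N))))))))))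 (K a15 (M a192 (L l337 (F (T t1922 (L l235 (L l325 (L l351 (T t20 (L l295 (L l351 (L l469 (T t21 (K a135 (M a75 (F (T t55 (L l142 (L l235 (L l325 (T t206 (L l295 (L l351 (L l469 (T t35 N))))))))))) (K a75 (M a135 (F (T t55 (L l142 (L l235 (L l325 (T t206 (L l295 (L l351 (L l469 (T t35 N))))))))))) N)))))))))))))) N))))))))))))))))))))⟩
def e0_63__86_119 : Ent 4 := ⟨[a0, a63], [a86, a196], (M a48 (F (T t1 (T t2 (T t3 (T t0 (K a16 (M a60 (F (T t64 (L l14 (L l18 (L l477 (T t67 (L l351 (T t65 N))))))))) (K a32 (M a60 (F (T t64 (L l477 (T t67 (L l24 (L l28 (L l351 (T t65 N))))))))) (K a21 (M a192 (F (T t837 (L l47 (L l347 (L l351 (L l495 (T t20 (L l47 (L l347 (L l351 (L l495 (T t29 N))))))))))))) (K a37 (M a192 (F (T t19 (L l47 (L l351 (L l495 (T t20 (L l351 (L l495 (T t21 N)))))))))) (K a53 (M a192 (F (T t19 (L l351 (L l491 (L l495 (T t21 (L l142 (L l278 (T t31 N)))))))))) (K a26 (M a192 (F (T t837 (L l351 (L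 l495 (T t20 (L l351 (L l495 (T t21 N))))))))) (K a42 (M a192 (F (T t19 (L l351 (L l495 (T t20 (L l28 (L l351 (L l495 (T t29 N)))))))))) (K a58 (M a192 (F (T t19 (L l351 (L l495 (T t21 (L l54 (L l142 (L l278 (L l498 (T t31 N))))))))))) (K a15 (M a192 (F (T t1922 (L l325 (L l351 (L l495 (T t20 (L l351 (L l469 (L l495 (T t21 N))))))))))) N)))))))))))))))⟩
def e0_63__86_120 : Ent 4 := ⟨[a0, a63], [a86, a197], (M a48 (F (T t3 (L l491 (T t1 (L l311 (T t2 (T t0 (K a16 (M a60 (F (T t70 (L l14 (L l18 (L l477 (T t67 (L l311 (L l351 (T t65 N)))))))))) (K a32 (M a60 (F (T t70 (L l477 (T t67 (L l24 (L l28 (L l311 (L l351 (T t65 N)))))))))) (K a21 (M a192 (F (T t27 (L l347 (L l351 (L l491 (T t225 (L l347 (L l351 (L l491 (T t861 N))))))))))) (K a37 (M a192 (F (T t19 (L l351 (L l491 (T t225 (L l351 (L l491 (T t21 N))))))))) (K a53 (M a149 (F (L l275 (T t176 (L l142 (T t13 (L l275 (T t26 N)))))))) (K a26 (M a192 (F (T t837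 (L l351 (L l491 (T t225 (L l351 (L l491 (T t21 N))))))))) (K a42 (M a192 (F (T t27 (L l351 (L l491 (T t225 (L l28 (L l351 (L l491 (T t861 N)))))))))) (K a58 (M a192 (F (T t19 (L l351 (L l491 (T t21 (L l54 (L l142 (L l275 (L l498 (T t31 N))))))))))) (K a15 (M a192 (F (T t1922 (L l325 (L l351 (L l491 (T t225 (L l351 (L l469 (L l491 (T t21 N))))))))))) N)))))))))))))))))⟩
def e0_63__86_121 : Ent 4 := ⟨[a0, a63], [a86, a198], (M a48 (F (T t1 (T t2 (T t3 (T t0 (K a16 (M a60 (F (T t64 (L l14 (L l18 (L l477 (T t67 (L l351 (T t65 N))))))))) (K a32 (M a60 (F (T t64 (L l477 (T t67 (L l24 (L l28 (L l351 (T t65 N))))))))) (K a21 (M a192 (F (T t837 (L l47 (L l234 (L l347 (L l351 (T t20 (L l47 (L l234 (L l347 (L l351 (T t29 N))))))))))))) (K a37 (M a192 (F (T t19 (L l47 (L l234 (L l351 (T t20 (L l351 (T t21 N))))))))) (K a53 (M a192 (F (T t19 (L l351 (L l491 (T t21 (L l142 (T t31 N)))))))) (K a26 (M a192 (F (T t27 (L l234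 (L l351 (T t20 (L l351 (T t21 N)))))))) (K a42 (M a192 (F (T t19 (L l234 (L l351 (T t20 (L l28 (L l234 (L l351 (T t29 N)))))))))) (K a58 (M a192 (F (T t19 (L l351 (T t21 (L l54 (L l142 (L l498 (T t31 N))))))))) (K a15 (M a192 (F (T t1922 (L l234 (L l325 (L l351 (T t20 (L l351 (L l469 (T t21 N)))))))))) N)))))))))))))))⟩
def e0_63__86_122 : Ent 4 := ⟨[a0, a63], [a86, a199], (M a48 (F (T t1 (T t2 (T t3 (T t0 (K a16 (M a60 (F (T t64 (L l14 (L l18 (L l477 (T t67 (L l351 (T t65 N))))))))) (K a32 (M a60 (F (T t64 (L l477 (T t67 (L l24 (L l28 (L l351 (T t65 N))))))))) (K a21 (M a192 (F (T t837 (L l47 (L l235 (L l347 (L l351 (T t20 (L l47 (L l347 (L l351 (T t29 N)))))))))))) (K a37 (M a192 (F (T t19 (L l47 (L l235 (L l351 (T t20 (L l351 (T t21 N))))))))) (K a53 (M a192 (F (T t19 (L l351 (L l491 (T t21 (L l142 (T t31 N)))))))) (K a26 (M a192 (F (T t27 (L l235 (L l351 (T t20 (L l351 (T t21 N)))))))) (K a42 (M a192 (F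 (T t19 (L l235 (L l351 (T t20 (L l28 (L l351 (T t29 N))))))))) (K a58 (M a192 (F (T t19 (L l351 (T t21 (L l54 (L l142 (L l498 (T t31 N))))))))) (K a15 (M a192 (F (T t1922 (L l235 (L l325 (L l351 (T t20 (L l351 (L l469 (T t21 N)))))))))) N)))))))))))))))⟩
def e0_63__86_123 : Ent 4 := ⟨[a0, a63], [a86, a200], (M a48 (F (T t1 (T t2 (T t3 (T t0 (K a16 (M a60 (F (T t64 (L l14 (L l18 (L l477 (T t67 (L l351 (T t65 N))))))))) (K a32 (M a60 (F (T t64 (L l477 (T t67 (L l24 (L l28 (L l351 (T t65 N))))))))) (K a21 (M a192 (F (T t837 (L l47 (L l230 (L l347 (L l351 (T t20 (L l47 (L l230 (L l347 (L l351 (T t29 N))))))))))))) (K a37 (M a192 (F (T t19 (L l47 (L l230 (L l351 (T t20 (L l351 (T t21 N))))))))) (K a53 (M a192 (F (T t19 (L l351 (L l491 (T t21 (L l142 (L l501 (T t31 N))))))))) (K a26 (M a192 (F (T t837 (L l230 (L l351 (T t20 (L l351 (T t21 N)))))))) (K a42 (M a192 (F (T t19 (L l230 (L l351 (T t20 (L l28 (L l230 (L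 l351 (T t29 N)))))))))) (K a58 (M a192 (F (T t19 (L l351 (T t21 (L l54 (L l142 (L l498 (L l501 (T t31 N)))))))))) (K a15 (M a192 (F (T t1922 (L l230 (L l325 (L l351 (T t20 (L l351 (L l469 (T t21 N)))))))))) N)))))))))))))))⟩
def e0_63__86_124 : Ent 4 := ⟨[a0, a63], [a86, a201], (M a48 (F (T t1 (T t2 (T t3 (T t0 (K a16 (M a60 (F (T t64 (L l14 (L l18 (L l477 (T t67 (L l351 (T t65 N))))))))) (K a32 (M a60 (F (T t64 (L l477 (T t67 (L l24 (L l28 (L l351 (T t65 N))))))))) (K a21 (M a192 (F (T t837 (L l47 (L l230 (L l347 (L l351 (T t20 (L l47 (L l230 (L l347 (L l351 (T t29 N))))))))))))) (K a37 (M a192 (F (T t19 (L l47 (L l230 (L l351 (T t20 (L l351 (T t21 N))))))))) (K a53 (M a192 (F (T t19 (L l351 (L l491 (T t21 (L l142 (T t31 N)))))))) (K a26 (M a192 (F (T t27 (L l230 (L l351 (T t20 (L l351 (T t21 N)))))))) (K a42 (M a192 (F (T t19 (L l230 (L l351 (T t20 (L l28 (L l230 (L l351 (T t29 N)))))))))) (K a58 (M a192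 (F (T t19 (L l351 (T t21 (L l54 (L l142 (L l498 (T t31 N))))))))) (K a15 (M a192 (F (T t1922 (L l230 (L l325 (L l351 (T t20 (L l351 (L l469 (T t21 N)))))))))) N)))))))))))))))⟩
def e0_63__86_125 : Ent 4 := ⟨[a0, a63], [a86, a202], (M a48 (F (T t3 (L l318 (T t1 (L l498 (T t2 (T t0 (K a16 (M a60 (F (T t64 (L l14 (L l18 (L l477 (T t67 (L l351 (L l498 (T t65 N)))))))))) (K a32 (M a60 (F (T t64 (L l477 (T t67 (L l24 (L l28 (L l351 (L l498 (T t65 N)))))))))) (K a21 (M a192 (F (T t27 (L l142 (L l498 (T t22 (L l18 (L l142 (L l498 (T t46 N)))))))))) (K a37 (M a192 (F (T t19 (L l142 (L l498 (T t22 (L l351 (T t21 N)))))))) (K a53 (M a192 (F (T t19 (L l351 (L l491 (T t21 (L l142 (L l498 (T t31 N))))))))) (K a26 (M a192 (F (T t837 (L l142 (L l498 (T t22 (L l351 (T t21 N)))))))) (K a42 (M a192 (F (T t27 (L l142 (L l390 (L l498 (T t22 (L l142 (L l390 (L l498 (T t46 N))))))))))) (K a58 (M a106 (F (L l282 (T t778 (L l351 (T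 t551 (L l282 (T t599 N)))))))) (K a15 (M a192 (F (T t1922 (L l142 (L l325 (L l498 (T t22 (L l351 (L l469 (T t21 N)))))))))) N)))))))))))))))))⟩
def e0_63__86_126 : Ent 4 := ⟨[a0, a63], [a86, a203], (M a48 (F (T t1 (T t2 (T t3 (T t0 (K a16 (M a60 (F (T t64 (L l14 (L l18 (L l477 (T t67 (L l351 (T t65 N))))))))) (K a32 (M a60 (F (T t64 (L l477 (T t67 (L l24 (L l28 (L l351 (T t65 N))))))))) (K a21 (M a192 (F (T t837 (L l47 (L l230 (L l235 (L l347 (L l351 (T t20 (L l47 (L l230 (L l347 (L l351 (T t29 N)))))))))))))) (K a37 (M a192 (F (T t19 (L l47 (L l230 (L l235 (L l351 (T t20 (L l351 (T t21 N)))))))))) (K a53 (M a192 (F (T t19 (L l351 (L l491 (T t21 (L l142 (T t31 N)))))))) (K a26 (M a192 (F (T t27 (L l230 (L l235 (L l351 (T t20 (L l351 (T t21 N))))))))) (K a42 (M a192 (F (T t19 (L l230 (L l235 (L l351 (T t20 (L l28 (L l230 (L l351 (T t29 N))))))))))) (K a58 (M a192 (F (T t19 (L l351 (T t21 (L l54 (L l142 (L l498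 (T t31 N))))))))) (K a15 (M a192 (F (T t1922 (L l230 (L l235 (L l325 (L l351 (T t20 (L l351 (L l469 (T t21 N))))))))))) N)))))))))))))))⟩
def e0_63__86_127 : Ent 4 := ⟨[a0, a63], [a86, a204], (M a48 (F (T t48 (L l327 (T t1 (L l327 (T t2 (L l327 (T t3 (L l327 (T t0 (K a16 (M a60 (F (T t138 (L l14 (L l18 (L l333 (L l477 (T t67 (L l351 (T t65 N)))))))))) (K a32 (M a60 (F (T t138 (L l333 (L l477 (T t67 (L l24 (L l28 (L l351 (T t65 N)))))))))) (K a21 (M a192 (F (T t1922 (L l47 (L l231 (L l347 (L l351 (T t20 (L l47 (L l347 (L l351 (T t29 N)))))))))))) (K a37 (M a192 (F (T t36 (L l47 (L l231 (L l351 (T t20 (L l290 (L l351 (T t21 N)))))))))) (K a53 (M a192 (F (T t55 (L l290 (L l351 (L l491 (T t21 (L l142 (T t31 N))))))))) (K a26 (M a192 (F (T t1922 (L l231 (L l351 (T t20 (L l290 (L l351 (T t21 N))))))))) (K a42 (M a192 (F (T t36 (L l231 (L l351 (T t20 (L l28 (L l351 (T t29 N))))))))) (K a58 (M a192 (F (T t1922 (L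 l290 (L l351 (T t21 (L l54 (L l142 (L l498 (T t31 N)))))))))) (K a15 (M a192 (L l327 (F (T t1922 (L l231 (L l325 (L l351 (T t20 (L l290 (L l351 (L l469 (T t21 (K a141 (M a78 (F (T t55 (L l142 (L l231 (L l325 (T t206 (L l290 (L l351 (L l469 (T t35 N))))))))))) (K a78 (M a141 (F (T t55 (L l142 (L l231 (L l325 (T t206 (L l290 (L l351 (L l469 (T t35 N))))))))))) N)))))))))))))) N))))))))))))))))))))⟩
def e0_63__86_128 : Ent 4 := ⟨[a0, a63], [a86, a205], (M a48 (F (T t1 (T t2 (T t3 (T t0 (K a16 (M a60 (F (T t42 (L l14 (L l18 (L l477 (T t67 (L l351 (T t65 N))))))))) (K a32 (M a60 (F (T t42 (L l477 (T t67 (L l24 (L l28 (L l351 (T t65 N))))))))) (K a21 (M a192 (F (T t837 (L l47 (L l231 (L l347 (L l351 (T t20 (L l47 (L l347 (L l351 (T t29 N)))))))))))) (K a37 (M a192 (F (T t19 (L l47 (L l231 (L l351 (T t20 (L l351 (T t21 N))))))))) (K a53 (M a192 (F (T t19 (L l351 (L l491 (T t21 (L l142 (T t31 N)))))))) (K a26 (M a192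 (F (T t27 (L l231 (L l351 (T t20 (L l351 (T t21 N)))))))) (K a42 (M a192 (F (T t19 (L l231 (L l351 (T t20 (L l28 (L l351 (T t29 N))))))))) (K a58 (M a192 (F (T t19 (L l351 (T t21 (L l54 (L l142 (L l498 (T t31 N))))))))) (K a15 (M a192 (F (T t1922 (L l231 (L l325 (L l351 (T t20 (L l351 (L l469 (T t21 N)))))))))) N)))))))))))))))⟩
def e0_63__86_129 : Ent 4 := ⟨[a0, a63], [a86, a206], (M a48 (F (T t1 (T t2 (T t3 (T t0 (K a16 (M a60 (F (T t42 (L l14 (L l18 (L l477 (T t67 (L l351 (T t65 N))))))))) (K a32 (M a60 (F (T t42 (L l477 (T t67 (L l24 (L l28 (L l351 (T t65 N))))))))) (K a21 (M a192 (F (T t837 (L l47 (L l231 (L l234 (L l347 (L l351 (T t20 (L l47 (L l234 (L l347 (L l351 (T t29 N)))))))))))))) (K a37 (M a192 (F (T t19 (L l47 (L l231 (L l234 (L l351 (T t20 (L l351 (T t21 N)))))))))) (K a53 (M a192 (F (T t19 (L l351 (L l491 (T t21 (L l142 (T t31 N)))))))) (K a26 (M a192 (F (T t27 (L l231 (L l234 (L l351 (T t20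 (L l351 (T t21 N))))))))) (K a42 (M a192 (F (T t19 (L l231 (L l234 (L l351 (T t20 (L l28 (L l234 (L l351 (T t29 N))))))))))) (K a58 (M a192 (F (T t19 (L l351 (T t21 (L l54 (L l142 (L l498 (T t31 N))))))))) (K a15 (M a192 (F (T t1922 (L l231 (L l234 (L l325 (L l351 (T t20 (L l351 (L l469 (T t21 N))))))))))) N)))))))))))))))⟩
def e0_63__86_130 : Ent 4 := ⟨[a0, a63], [a86, a207], (M a12 (F (T t150 (L l511 (T t122 (L l511 (T t151 (L l511 (T t152 (L l511 (T t153 (K a4 (M a60 (F (T t570 (L l46 (L l50 (L l331 (L l477 (T t67 (L l351 (T t448 N)))))))))) (K a8 (M a60 (F (T t570 (L l331 (L l477 (T t67 (L l52 (L l56 (L l351 (T t448 N)))))))))) (K a21 (M a192 (F (T t1725 (L l15 (L l301 (L l347 (L l351 (T t450 (L l15 (L l347 (L l351 (T t157 N)))))))))))) (K a25 (M a192 (F (T t496 (L l15 (L l301 (L l351 (T t450 (L l289 (L l351 (T t21 N)))))))))) (K a29 (M a192 (F (T t159 (L l289 (L l351 (L l371 (T t21 (L l142 (T t160 N)))))))))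 (K a38 (M a192 (F (T t1725 (L l301 (L l351 (T t450 (L l289 (L l351 (T t21 N))))))))) (K a42 (M a192 (F (T t496 (L l301 (L l351 (T t450 (L l56 (L l351 (T t157 N))))))))) (K a46 (M a192 (F (T t1725 (L l289 (L l351 (T t21 (L l26 (L l142 (L l408 (T t160 N)))))))))) (K a51 (M a192 (L l511 (F (T t1725 (L l301 (L l351 (L l415 (T t450 (L l289 (L l351 (L l439 (T t21 (K a103 (M a155 (F (T t1725 (L l142 (L l289 (L l439 (T t202 (L l142 (L l301 (L l415 (T t543 N))))))))))) (K a155 (M a103 (F (T t1725 (L l142 (L l289 (L l439 (T t202 (L l142 (L l301 (L l415 (T t543 N))))))))))) N)))))))))))))) N))))))))))))))))))))⟩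
def e0_63__86_131 : Ent 4 := ⟨[a0, a63], [a86, a212], (M a48 (L l351 (F (T t1 (T t2 (T t3 (T t0 (K a16 (M a149 (F (T t184 (L l239 (L l292 (T t5 (L l239 (T t6 N)))))))) (K a32 (M a149 (F (T t184 (L l28 (L l239 (L l292 (T t5 (L l28 (L l239 (T t6 N)))))))))) (K a21 (M a149 (F (T t184 (L l18 (T t14 (L l142 (T t13 N))))))) (K a37 (M a149 (F (T t184 (L l28 (L l239 (L l292 (T t5 (T t14 N)))))))) (K a53 (M a149 (F (L l239 (T t176 (L l142 (T t13 (L l239 (T t26 N)))))))) (K a26 (M a149 (F (L l142 (T t7 (L l18 (L l292 (T t175 (L l18 (L l54 (T t14 N)))))))))) (K a42 (M a149 (F (L l54 (T t184 (L l142 (L l390 (T t13 (L l54 (T t14 N))))))))) (K a58 (M a149 (F (L l292 (T t175 (L l142 (L l498 (T t13 (L l54 (L l239 (T t26 N)))))))))) (K a15 (M a149 (F (T t3521 (L l239 (T t26 (L l239 (L l292 (L l339 (T t5 N))))))))) (K a149 (M a23 (F (T t2 (L l346 (T t1941 (L l369 (T t172 N))))))) (K a23 (M a149 (F (T t184 (L l11 (T t1 (L l239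 (L l292 (T t5 N)))))))) N))))))))))))))))))⟩
def e0_63__86_132 : Ent 4 := ⟨[a0, a63], [a86, a213], (M a48 (F (T t2 (L l347 (T t1 (L l347 (T t3 (T t0 (K a16 (M a60 (F (T t64 (L l14 (L l18 (L l347 (L l477 (T t67 (L l351 (T t65 N)))))))))) (K a32 (M a60 (F (T t64 (L l347 (L l477 (T t67 (L l24 (L l28 (L l351 (T t65 N)))))))))) (K a21 (M a85 (F (L l246 (T t1699 (L l474 (T t50 (L l47 (L l246 (T t100 N))))))))) (K a37 (M a192 (F (T t19 (L l47 (L l347 (L l351 (T t20 (L l347 (L l351 (T t21 N)))))))))) (K a53 (M a192 (F (T t27 (L l347 (L l351 (L l491 (T t21 (L l347 (L l351 (L l491 (T t575 N))))))))))) (K a26 (M a192 (F (T t837 (L l347 (L l351 (T t20 (L l347 (L l351 (T t21 N))))))))) (K a42 (M a192 (F (T t19 (L l347 (L l351 (T t20 (L l28 (L l246 (L l347 (L l351 (T t29 N))))))))))) (K a58 (M a192 (F (T t27 (L l347 (L l351 (T t21 (L l347 (L l351 (T t575 N))))))))) (K a15 (M a192 (F (T t1922 (L l325 (L l347 (L l351 (T t20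 (L l347 (L l351 (L l469 (T t21 N))))))))))) N)))))))))))))))))⟩
def e0_63__86_133 : Ent 4 := ⟨[a0, a63], [a86, a214], (M a60 (L l348 (F (T t116 (L l477 (T t67 (L l351 (L l477 (T t43 (L l474 (L l477 (T t68 (L l477 (T t69 (K a20 (M a85 (L l348 (F (L l239 (T t88 (L l297 (L l474 (L l477 (T t114 (L l239 (T t1344 (K a22 (M a150 (L l11 (F (T t3522 (L l66 (L l142 (L l297 (T t1435 (L l66 (L l239 (L l474 (T t352 (K a21 (M a23 (F (T t3522 (L l66 (L l297 (T t3523 (L l65 (L l474 (T t447 N))))))))) (K a23 (Fr a21 a42 l68 (V t3524)) N)))))))))))))) (K a150 (M a22 (F (T t3525 (L l163 (L l294 (L l351 (T t255 (L l218 (L l221 (L l297 (L l474 (L l477 (T t114 N))))))))))))) N))))))))))))) (K a40 (M a48 (L l348 (F (T t1 (T t64 (L l52 (L l459 (L l474 (T t235 (K a22 (M a150 (F (T t64 (L l145 (L l392 (T t3526 N)))))) (K a150 (M a22 (F (T t3525 (L l52 (L l459 (L l477 (T t3527 N))))))) N))))))))))) (K a21 (M a150 (F (L l297 (T t3523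 (L l239 (T t1135 (L l65 (L l239 (L l294 (T t1137 N)))))))))) (K a41 (M a150 (F (L l297 (T t2366 (L l65 (L l294 (T t1136 (L l22 (L l65 (L l239 (L l294 (T t1137 N)))))))))))) (K a61 (M a192 (L l348 (F (T t1334 (L l142 (T t202 (L l142 (L l239 (T t80 (K a22 (M a150 (F (T t3528 (L l239 (L l474 (T t1434 N)))))) (K a150 (M a22 (F (L l65 (L l516 (T t3529 (L l163 (L l350 (T t1334 N)))))))) N))))))))))) (K a42 (M a150 (F (L l297 (T t2366 (L l294 (T t1136 (L l22 (L l239 (L l294 (T t1137 N)))))))))) (K a62 (M a106 (L l348 (F (L l294 (T t305 (L l297 (L l351 (L l477 (T t565 (L l294 (T t566 (K a22 (M a150 (L l66 (F (T t3530 (L l11 (L l294 (L l351 (T t393 (L l239 (L l297 (L l474 (T t1436 (K a2 (Fr a42 a21 l68 (V t3531)) (K a42 (M a2 (F (T t3530 (L l22 (L l239 (L l297 (T t1436 (L l22 (L l351 (T t2792 N)))))))))) N)))))))))))))) (K a150 (M a22 (F (T t3532 (L l294 (T t778 (L l163 (L l221 (L l297 (L l351 (L l477 (T t565 N)))))))))))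 N))))))))))))) (K a3 (M a150 (L l477 (F (L l297 (L l307 (T t2366 (L l294 (L l309 (T t1136 (L l239 (L l294 (T t1137 (K a252 (M a169 (L l297 (F (L l145 (T t2375 (L l239 (L l261 (L l475 (T t1135 (L l239 (L l294 (T t1137 (K a233 (Fr a195 a105 l518 (V t3533)) (K a195 (M a233 (L l307 (F (L l294 (L l474 (T t3534 (L l239 (L l351 (T t3535 (L l228 (L l239 (L l294 (L l295 (T t1139 (K a67 (Fr a131 a188 l221 (V t1139)) (K a131 (M a67 (F (L l239 (L l351 (T t3536 (L l294 (L l474 (T t3537 (L l228 (L l239 (L l294 (L l295 (T t1137 N))))))))))))) N)))))))))))))))) N)))))))))))))) (K a169 (M a252 (F (L l307 (T t2366 (L l217 (L l294 (L l351 (T t3538 (L l174 (L l239 (L l309 (L l351 (T t3245 N))))))))))))) N)))))))))))))) (K a22 (M a150 (F (L l239 (T t1135 (L l294 (T t1136 (L l239 (L l294 (T t1137 N))))))))) (K a150 (M a22 (F (T t3539 (T t881 (T t3444 N))))) N))))))))))))))))))))))))⟩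
def e0_63__86_134 : Ent 4 := ⟨[a0, a63], [a86, a215], (M a48 (F (T t1 (T t2 (T t3 (T t0 (K a16 (M a60 (F (T t64 (L l14 (L l18 (L l350 (L l477 (T t67 (L l349 (L l351 (T t65 N))))))))))) (K a32 (M a60 (F (T t64 (L l350 (L l477 (T t67 (L l24 (L l28 (L l349 (L l351 (T t65 N))))))))))) (K a21 (M a192 (F (T t837 (L l47 (L l347 (L l351 (T t20 (L l47 (L l245 (L l347 (L l351 (T t29 N)))))))))))) (K a37 (M a192 (F (T t19 (L l47 (L l351 (T t20 (L l295 (L l351 (T t21 N))))))))) (K a53 (M a192 (F (T t19 (L l295 (L l351 (L l491 (T t21 (L l142 (L l239 (T t31 N)))))))))) (K a26 (M a192 (F (T t837 (L l351 (T t20 (L l295 (L l351 (T t21 N)))))))) (K a42 (M a192 (F (T t19 (L l351 (T t20 (L l28 (L l245 (L l351 (T t29 N))))))))) (K a58 (M a192 (F (T t19 (L l295 (L l351 (T t21 (L l54 (L l142 (L l239 (L l498 (T t31 N))))))))))) (K a15 (M a192 (F (T t1922 (L l325 (L l351 (T t20 (L l295 (L l351 (L l469 (T t21 N)))))))))) N)))))))))))))))⟩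
def e0_63__86_135 : Ent 4 := ⟨[a0, a63], [a86, a216], (M a48 (F (T t1 (T t2 (T t3 (T t0 (K a16 (M a60 (F (T t64 (L l14 (L l18 (L l477 (T t67 (L l351 (T t65 N))))))))) (K a32 (M a60 (F (T t64 (L l477 (T t67 (L l24 (L l28 (L l351 (T t65 N))))))))) (K a21 (M a192 (F (T t1922 (L l47 (L l347 (L l351 (T t20 (L l47 (L l347 (L l351 (T t29 N))))))))))) (K a37 (M a192 (F (T t36 (L l47 (L l351 (T t20 (L l351 (T t21 N)))))))) (K a53 (M a192 (F (T t55 (L l351 (L l491 (T t21 (L l142 (T t31 N)))))))) (K a26 (M a192 (F (T t1922 (L l351 (T t20 (L l351 (T t21 N))))))) (K a42 (M a192 (F (T t55 (L l351 (T t20 (L l28 (L l351 (T t29 N)))))))) (K a58 (M a192 (F (T t55 (L l351 (T t21 (L l54 (L l142 (L l498 (T t31 N))))))))) (K a15 (M a192 (F (T t1922 (L l325 (L l351 (T t20 (L l351 (L l469 (T t21 N))))))))) N)))))))))))))))⟩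
def e0_63__86_136 : Ent 4 := ⟨[a0, a63], [a86, a217], (M a48 (F (T t1 (T t2 (T t3 (T t0 (K a16 (M a60 (F (T t64 (L l14 (L l18 (L l477 (T t67 (L l351 (T t65 N))))))))) (K a32 (M a60 (F (T t64 (L l477 (T t67 (L l24 (L l28 (L l351 (T t65 N))))))))) (K a21 (M a192 (F (T t837 (L l47 (L l347 (L l351 (T t20 (L l47 (L l347 (L l351 (T t29 N))))))))))) (K a37 (M a192 (F (T t19 (L l47 (L l351 (T t20 (L l351 (T t21 N)))))))) (K a53 (M a192 (F (T t19 (L l351 (L l491 (T t21 (L l142 (L l243 (T t31 N))))))))) (K a26 (M a192 (F (T t27 (L l351 (T t20 (L l351 (T t21 N))))))) (K a42 (M a192 (F (T t19 (L l351 (T t20 (L l28 (L l351 (T t29 N)))))))) (K a58 (M a192 (F (T t19 (L l351 (T t21 (L l54 (L l142 (L l243 (L l498 (T t31 N)))))))))) (K a15 (M a192 (F (T t1922 (L l325 (L l351 (T t20 (L l351 (L l469 (T t21 N))))))))) N)))))))))))))))⟩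
def e0_63__86_137 : Ent 4 := ⟨[a0, a63], [a86, a218], (M a48 (F (T t1 (T t2 (T t3 (T t0 (K a16 (M a60 (F (T t64 (L l14 (L l18 (L l477 (T t67 (L l351 (T t65 N))))))))) (K a32 (M a60 (F (T t64 (L l477 (T t67 (L l24 (L l28 (L l351 (T t65 N))))))))) (K a21 (M a192 (F (T t1922 (L l47 (L l347 (L l351 (T t33 (L l47 (L l246 (L l282 (L l347 (L l351 (T t29 N))))))))))))) (K a37 (M a192 (F (T t36 (L l351 (T t21 (L l47 (L l282 (L l303 (L l351 (T t20 N)))))))))) (K a53 (M a192 (F (T t55 (L l351 (L l491 (T t21 (L l142 (L l246 (T t31 N))))))))) (K a26 (M a154 (F (L l282 (T t473 (L l246 (T t327 (L l246 (L l282 (T t527 N))))))))) (K a42 (M a192 (F (T t55 (L l351 (T t33 (L l28 (L l246 (L l282 (L l351 (T t29 N)))))))))) (K a58 (M a192 (F (T t1922 (L l351 (T t21 (L l54 (L l142 (L l246 (L l498 (T t31 N)))))))))) (K a15 (M a192 (F (T t1922 (L l351 (L l469 (T t21 (L l282 (L l303 (L l325 (L l351 (T t20 N))))))))))) N)))))))))))))))⟩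
def e0_63__86_138 : Ent 4 := ⟨[a0, a63], [a86, a219], (M a48 (F (T t1 (T t2 (T t3 (T t0 (K a16 (M a60 (F (T t64 (L l14 (L l18 (L l477 (T t67 (L l351 (T t65 N))))))))) (K a32 (M a60 (F (T t64 (L l477 (T t67 (L l24 (L l28 (L l351 (T t65 N))))))))) (K a21 (M a192 (F (T t837 (L l47 (L l301 (L l347 (L l351 (T t20 (L l47 (L l245 (L l347 (L l351 (T t29 N))))))))))))) (K a37 (M a192 (F (T t19 (L l47 (L l301 (L l351 (T t20 (L l351 (T t21 N))))))))) (K a53 (M a192 (F (T t19 (L l351 (L l491 (T t21 (L l142 (T t31 N)))))))) (K a26 (M a192 (F (T t27 (L l301 (L l351 (T t20 (L l351 (T t21 N)))))))) (K a42 (M a192 (F (T t19 (L l301 (L l351 (T t20 (L l28 (L l245 (L l351 (T t29 N)))))))))) (K a58 (M a192 (F (T t19 (L l351 (T t21 (L l54 (L l142 (L l498 (T t31 N))))))))) (K a15 (M a192 (F (T t1922 (L l301 (L l325 (L l351 (T t20 (L l351 (L l469 (T t21 N)))))))))) N)))))))))))))))⟩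
def e0_63__86_139 : Ent 4 := ⟨[a0, a63], [a86, a220], (M a12 (L l369 (F (T t122 (T t151 (T t152 (T t153 (K a4 (M a149 (L l369 (F (T t958 (T t5 (T t960 (K a153 (M a19 (F (T t650 (L l208 (L l474 (T t25 (T t960 N))))))) (K a19 (M a153 (F (T t650 (L l345 (T t3540 N))))) N)))))))) (K a8 (M a149 (L l369 (F (T t650 (L l56 (T t5 (L l56 (T t960 (K a153 (M a19 (F (T t650 (L l87 (L l365 (T t1007 (L l56 (T t960 N)))))))) (K a19 (M a153 (F (T t991 (L l56 (L l316 (L l345 (T t3540 N))))))) N)))))))))) (K a21 (M a192 (L l369 (F (T t2119 (L l15 (L l347 (L l351 (T t450 (L l15 (L l347 (L l351 (T t157 (K a153 (M a19 (F (T t2119 (L l167 (L l347 (L l351 (T t467 (L l50 (L l142 (L l501 (T t681 N))))))))))) (K a19 (M a153 (F (T t2119 (L l142 (L l247 (L l363 (T t3541 N))))))) N)))))))))))))) (K a25 (M a89 (L l369 (F (T t870 (T t863 (T t864 (K a153 (M a19 (F (T t3449 (L l142 (L l501 (T t3450 (T t864 N))))))) (K a19 (M a153 (L l19 (F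 (T t3449 (L l345 (T t3542 (L l456 (T t3543 (K a28 (M a22 (L l358 (F (T t863 (L l15 (T t3544 (K a92 (M a156 (F (T t870 (L l14 (L l56 (T t3438 N)))))) (K a156 (M a92 (F (T t863 (L l15 (L l502 (T t3544 N)))))) N)))))))) (K a22 (M a28 (L l348 (F (T t3449 (L l17 (L l363 (T t2481 (K a150 (M a214 (F (T t870 (L l10 (L l364 (T t2735 N)))))) (K a214 (Fr a150 a211 l374 (M a217 (L l343 (F (L l271 (T t3545 (L l238 (T t3372 (K a83 (Fr a147 a156 l171 (V t3451)) (K a147 (M a83 (F (L l271 (T t3545 (L l238 (T t864 N)))))) N)))))))))) N))))))))) N)))))))))) N)))))))) (K a29 (M a192 (L l369 (F (T t159 (L l351 (L l371 (T t21 (L l142 (T t160 (K a153 (M a19 (F (T t159 (L l167 (L l351 (L l371 (T t21 (L l142 (L l501 (T t160 N)))))))))) (K a19 (M a153 (F (T t1725 (L l142 (L l359 (L l363 (T t3546 N))))))) N))))))))))) (K a38 (M a192 (L l369 (F (T t1725 (L l351 (T t450 (L l351 (T t21 (K a153 (M a19 (F (T t2119 (L l167 (L l351 (T t467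 (L l142 (L l501 (T t202 N))))))))) (K a19 (M a153 (F (T t1725 (L l26 (L l142 (L l363 (T t3546 N))))))) N)))))))))) (K a42 (M a192 (L l369 (F (T t159 (L l351 (T t450 (L l56 (L l351 (T t157 (K a153 (M a19 (F (T t159 (L l167 (L l351 (T t467 (L l142 (L l390 (L l501 (T t681 N)))))))))) (K a19 (M a153 (F (T t159 (L l26 (L l142 (L l247 (L l363 (L l390 (T t3547 N))))))))) N))))))))))) (K a46 (M a192 (L l369 (F (T t159 (L l351 (T t21 (L l26 (L l142 (L l408 (T t160 (K a153 (M a19 (F (T t159 (L l167 (L l351 (T t21 (L l26 (L l142 (L l408 (L l501 (T t160 N))))))))))) (K a19 (M a153 (F (T t1725 (L l26 (L l142 (L l363 (L l408 (T t3546 N)))))))) N)))))))))))) (K a51 (M a3 (L l369 (F (T t3456 (L l39 (T t137 (L l39 (T t758 (K a153 (M a19 (L l513 (F (T t3456 (L l39 (L l474 (T t665 (L l39 (T t758 (K a204 (M a102 (L l286 (F (T t3456 (L l39 (L l474 (L l502 (T t665 (L l39 (T t758 (K a236 (M a252 (F (L l474 (T t85 (L l87 (L l298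 (L l364 (L l417 (T t3457 N))))))))) (K a252 (M a236 (L l441 (F (T t3456 (L l39 (L l430 (L l502 (T t137 (L l39 (L l351 (L l456 (L l497 (T t1099 (K a185 (M a118 (L l205 (F (T t3456 (L l39 (L l430 (L l474 (L l502 (T t665 (L l39 (T t758 (K a137 (Fr a169 a35 l405 (V t759)) (K a169 (M a137 (F (L l456 (L l474 (T t3458 (L l39 (L l351 (L l430 (L l502 (T t353 (L l39 (L l393 (L l461 (T t758 N)))))))))))))) N))))))))))))) (K a118 (M a185 (F (T t3456 (L l39 (L l430 (L l474 (L l502 (T t665 (L l39 (L l420 (T t758 N))))))))))) N))))))))))))))) N)))))))))))) (K a102 (M a204 (L l124 (F (T t3456 (L l102 (L l241 (L l365 (L l439 (T t737 (K a70 (M a118 (F (T t3456 (L l85 (L l102 (L l150 (L l439 (T t3459 N)))))))) (K a118 (Fr a70 a137 l333 (V t3460)) N))))))))))) N))))))))))) (K a19 (M a153 (F (T t3456 (L l39 (L l474 (T t665 (L l39 (T t758 N)))))))) N)))))))))) (K a153 (M a19 (F (T t150 (L l348 (L l351 (L l365 (T t2358 (L l358 (L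 l501 (T t3463 (K a21 (M a28 (F (T t2739 (L l357 (T t3464 N))))) (K a25 (M a89 (F (T t3449 (L l142 (L l501 (T t3450 (T t864 N))))))) (K a38 (M a17 (F (L l26 (T t3465 (L l21 (L l358 (L l366 (T t3466 N)))))))) (K a42 (M a17 (F (L l26 (T t3467 (L l28 (L l358 (L l366 (T t3466 N)))))))) N)))))))))))))) (K a19 (M a153 (F (T t150 (L l10 (L l142 (L l247 (T t3548 (L l87 (L l247 (T t3549 (K a21 (M a192 (F (T t2119 (L l142 (L l247 (L l363 (T t3541 N))))))) (K a25 (M a28 (F (L l56 (T t2739 (L l17 (L l363 (T t2481 (L l12 (L l56 (T t2482 N)))))))))) (K a38 (M a192 (F (T t1725 (L l26 (L l142 (L l363 (T t3546 N))))))) (K a42 (M a192 (F (T t159 (L l26 (L l142 (L l247 (L l363 (L l390 (T t3547 N))))))))) N)))))))))))))) N))))))))))))))))))⟩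
def e0_63__86_140 : Ent 4 := ⟨[a0, a63], [a86, a221], (M a48 (F (T t1 (T t2 (T t3 (T t0 (K a16 (M a60 (F (T t64 (L l14 (L l18 (L l477 (T t67 (L l351 (T t65 N))))))))) (K a32 (M a60 (F (T t64 (L l477 (T t67 (L l24 (L l28 (L l351 (T t65 N))))))))) (K a21 (M a192 (F (T t837 (L l47 (L l347 (L l351 (T t20 (L l47 (L l241 (L l347 (L l351 (T t29 N)))))))))))) (K a37 (M a192 (F (T t19 (L l47 (L l351 (T t20 (L l290 (L l351 (T t21 N))))))))) (K a53 (M a192 (F (T t19 (L l290 (L l351 (L l491 (T t21 (L l142 (L l243 (T t31 N)))))))))) (K a26 (M a192 (F (T t837 (L l351 (T t20 (L l290 (L l351 (T t21 N)))))))) (K a42 (M a192 (F (T t19 (L l351 (T t20 (L l28 (L l241 (L l351 (T t29 N))))))))) (K a58 (M a192 (F (T t19 (L l290 (L l351 (T t21 (L l54 (L l142 (L l243 (L l498 (T t31 N))))))))))) (K a15 (M a192 (F (T t1922 (L l325 (L l351 (T t20 (L l290 (L l351 (L l469 (T t21 N)))))))))) N)))))))))))))))⟩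
def e0_63__86_141 : Ent 4 := ⟨[a0, a63], [a86, a222], (M a48 (L l366 (F (T t1 (T t2 (T t3 (T t0 (K a16 (M a85 (L l366 (F (T t168 (L l474 (T t50 (T t51 (K a18 (M a154 (L l10 (F (T t3550 (L l127 (L l340 (T t1119 (L l142 (T t924 (K a17 (M a19 (F (T t3550 (L l291 (L l351 (T t330 (T t168 N))))))) (K a19 (M a17 (L l369 (F (T t3550 (L l42 (T t1279 (K a220 (Fr a153 a221 l365 (M a223 (L l364 (F (L l291 (T t3551 (L l42 (L l359 (T t1279 (K a84 (Fr a152 a155 l164 (V t3550)) (K a152 (M a84 (F (L l474 (T t3552 (L l290 (T t3553 (L l291 (T t526 N)))))))) N))))))))))) (K a153 (M a220 (F (T t3550 (L l42 (T t1279 N))))) N)))))))) N))))))))))) (K a154 (M a18 (F (T t88 (L l14 (T t244 (L l206 (L l227 (L l474 (T t50 N))))))))) N))))))))) (K a32 (M a255 (L l366 (F (T t1169 (L l404 (L l474 (T t1165 (L l87 (T t1167 (K a18 (M a154 (F (T t3554 (L l291 (L l351 (T t330 N)))))) (K a154 (M a18 (F (T t1169 (L l20 (L l24 (L l351 (T t3555 N)))))))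 N))))))))))) (K a21 (M a154 (F (L l291 (T t526 (L l241 (T t327 (L l47 (L l241 (T t527 N))))))))) (K a37 (M a154 (F (L l291 (T t526 (L l28 (L l241 (T t327 (L l28 (L l47 (L l241 (T t527 N))))))))))) (K a53 (M a18 (F (T t3387 (T t244 (L l351 (L l360 (T t3556 N))))))) (K a26 (M a154 (F (T t473 (L l241 (T t327 (L l241 (T t527 N))))))) (K a42 (M a154 (F (T t473 (L l28 (L l241 (T t327 (L l28 (L l241 (T t527 N))))))))) (K a58 (M a18 (F (L l369 (T t243 (L l54 (T t244 (L l54 (L l351 (L l360 (T t3556 N)))))))))) (K a15 (M a154 (F (L l351 (T t326 (L l241 (L l469 (T t327 (L l241 (T t527 N))))))))) (K a18 (M a154 (F (T t473 (T t1 (L l241 (T t327 N)))))) (K a154 (M a18 (F (T t1 (L l369 (L l510 (T t3197 (T t244 N))))))) N))))))))))))))))))⟩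
def e0_63__86_142 : Ent 4 := ⟨[a0, a63], [a86, a223], (M a48 (F (T t1 (T t2 (L l368 (T t3 (L l361 (T t0 (K a16 (M a85 (F (L l474 (T t90 (L l246 (T t51 (L l474 (T t50 N)))))))) (K a32 (M a60 (F (T t64 (L l477 (T t67 (L l24 (L l28 (L l351 (T t65 N))))))))) (K a21 (M a192 (F (T t27 (L l47 (L l289 (L l347 (L l351 (T t20 (L l18 (L l142 (L l289 (L l368 (T t224 N))))))))))))) (K a37 (M a192 (F (T t27 (L l47 (L l289 (L l351 (T t20 (L l289 (L l351 (T t21 N)))))))))) (K a53 (M a192 (F (T t837 (L l289 (L l351 (L l491 (T t21 (L l47 (L l351 (L l491 (T t525 N))))))))))) (K a26 (M a192 (F (T t27 (L l289 (L l351 (T t20 (L l289 (L l351 (T t21 N))))))))) (K a42 (M a192 (F (T t837 (L l289 (L l351 (T t20 (L l54 (L l142 (L l289 (L l368 (L l390 (T t224 N)))))))))))) (K a58 (M a192 (F (T t837 (L l289 (L l351 (T t21 (L l351 (T t525 N)))))))) (K a15 (M a192 (F (T t1922 (L l289 (L l325 (L l351 (T t20 (L l289 (L l351 (L l469 (T t21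 N))))))))))) N)))))))))))))))))⟩
def e0_63__86_143 : Ent 4 := ⟨[a0, a63], [a86, a232], (M a48 (F (T t1 (T t2 (T t3 (T t0 (K a16 (M a60 (F (T t64 (L l14 (L l18 (L l393 (L l477 (T t67 (L l351 (L l388 (T t65 N))))))))))) (K a32 (M a60 (F (T t64 (L l393 (L l477 (T t67 (L l24 (L l28 (L l351 (L l388 (T t65 N))))))))))) (K a21 (M a192 (F (T t837 (L l47 (L l347 (L l351 (T t20 (L l47 (L l347 (L l351 (T t29 N))))))))))) (K a37 (M a192 (F (T t27 (L l47 (L l351 (T t20 (L l351 (T t21 N)))))))) (K a53 (M a192 (F (T t27 (L l351 (L l491 (T t21 (L l142 (L l393 (T t31 N))))))))) (K a26 (M a192 (F (T t27 (L l351 (T t20 (L l351 (T t21 N))))))) (K a42 (M a192 (F (T t837 (L l351 (T t20 (L l28 (L l351 (T t29 N)))))))) (K a58 (M a192 (F (T t27 (L l351 (T t21 (L l54 (L l142 (L l393 (L l498 (T t31 N)))))))))) (K a15 (M a192 (F (T t1922 (L l325 (L l351 (T t20 (L l351 (L l469 (T t21 N))))))))) N)))))))))))))))⟩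
def e0_63__86_144 : Ent 4 := ⟨[a0, a63], [a86, a233], (M a48 (F (T t1 (T t2 (T t3 (T t0 (K a16 (M a60 (F (T t64 (L l14 (L l18 (L l477 (T t67 (L l351 (T t65 N))))))))) (K a32 (M a60 (F (T t64 (L l477 (T t67 (L l24 (L l28 (L l351 (T t65 N))))))))) (K a21 (M a192 (F (T t837 (L l47 (L l347 (L l351 (T t20 (L l47 (L l347 (L l351 (T t29 N))))))))))) (K a37 (M a192 (F (T t19 (L l47 (L l351 (T t20 (L l351 (T t21 N)))))))) (K a53 (M a192 (F (T t19 (L l351 (L l491 (T t21 (L l142 (L l293 (T t31 N))))))))) (K a26 (M a192 (F (T t27 (L l351 (T t20 (L l351 (T t21 N))))))) (K a42 (M a192 (F (T t19 (L l351 (T t20 (L l28 (L l351 (T t29 N)))))))) (K a58 (M a192 (F (T t19 (L l351 (T t21 (L l54 (L l142 (L l293 (L l498 (T t31 N)))))))))) (K a15 (M a192 (F (T t1922 (L l325 (L l351 (T t20 (L l351 (L l469 (T t21 N))))))))) N)))))))))))))))⟩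
def e0_63__86_145 : Ent 4 := ⟨[a0, a63], [a86, a234], (M a48 (F (T t1 (L l390 (T t2 (T t3 (L l390 (T t0 (K a16 (M a60 (F (T t64 (L l14 (L l18 (L l477 (T t67 (L l351 (L l390 (T t65 N)))))))))) (K a32 (M a60 (F (T t64 (L l477 (T t67 (L l24 (L l28 (L l351 (L l390 (T t65 N)))))))))) (K a21 (M a192 (F (T t837 (L l47 (L l282 (L l347 (L l351 (T t20 (L l47 (L l282 (L l347 (L l351 (T t29 N))))))))))))) (K a37 (M a192 (F (T t27 (L l47 (L l282 (L l351 (T t20 (L l142 (L l390 (T t202 N)))))))))) (K a53 (M a192 (F (T t27 (L l142 (L l390 (T t202 (L l142 (L l390 (T t577 N))))))))) (K a26 (M a192 (F (T t837 (L l282 (L l351 (T t20 (L l142 (L l390 (T t202 N))))))))) (K a42 (M a106 (F (L l282 (T t304 (L l351 (T t551 (L l28 (L l282 (T t579 N))))))))) (K a58 (M a192 (F (T t27 (L l142 (L l390 (L l498 (T t202 (L l142 (L l390 (L l498 (T t577 N))))))))))) (K a15 (M a192 (F (T t1922 (L l282 (L l325 (L l351 (T t20 (L l142 (L l390 (L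 l469 (T t202 N))))))))))) N)))))))))))))))))⟩
def e0_63__86_146 : Ent 4 := ⟨[a0, a63], [a86, a235], (M a48 (F (T t1 (T t2 (T t3 (T t0 (K a16 (M a60 (F (T t64 (L l14 (L l18 (L l391 (L l477 (T t67 (L l351 (L l392 (T t65 N))))))))))) (K a32 (M a60 (F (T t64 (L l391 (L l477 (T t67 (L l24 (L l28 (L l351 (L l392 (T t65 N))))))))))) (K a21 (M a192 (F (T t837 (L l47 (L l347 (L l351 (T t20 (L l47 (L l347 (L l351 (T t29 N))))))))))) (K a37 (M a192 (F (T t19 (L l47 (L l351 (T t20 (L l295 (L l351 (T t21 N))))))))) (K a53 (M a192 (F (T t19 (L l295 (L l351 (L l491 (T t21 (L l142 (T t31 N))))))))) (K a26 (M a192 (F (T t27 (L l351 (T t20 (L l295 (L l351 (T t21 N)))))))) (K a42 (M a192 (F (T t19 (L l351 (T t20 (L l28 (L l351 (T t29 N)))))))) (K a58 (M a192 (F (T t19 (L l295 (L l351 (T t21 (L l54 (L l142 (L l498 (T t31 N)))))))))) (K a15 (M a192 (F (T t1922 (L l325 (L l351 (T t20 (L l295 (L l351 (L l469 (T t21 N)))))))))) N)))))))))))))))⟩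
def e0_63__86_147 : Ent 4 := ⟨[a0, a63], [a86, a236], (M a12 (F (T t122 (T t151 (T t152 (T t153 (K a4 (M a60 (F (T t398 (L l46 (L l50 (L l477 (T t67 (L l351 (T t448 N))))))))) (K a8 (M a60 (F (T t398 (L l477 (T t67 (L l52 (L l56 (L l351 (T t448 N))))))))) (K a21 (M a192 (F (T t2119 (L l15 (L l347 (L l351 (T t450 (L l15 (L l347 (L l351 (T t157 N))))))))))) (K a25 (M a192 (F (T t496 (L l15 (L l351 (T t450 (L l351 (T t21 N)))))))) (K a29 (M a192 (F (T t159 (L l351 (L l371 (T t21 (L l142 (T t160 N)))))))) (K a38 (M a192 (F (T t1725 (L l351 (T t450 (L l351 (T t21 N))))))) (K a42 (M a192 (F (T t159 (L l351 (T t450 (L l56 (L l351 (T t157 N)))))))) (K a46 (M a192 (F (T t1725 (L l351 (T t21 (L l26 (L l142 (L l408 (T t160 N))))))))) (K a51 (M a192 (F (T t1725 (L l351 (L l415 (T t450 (L l351 (L l439 (T t21 N))))))))) N)))))))))))))))⟩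
def e0_63__86_148 : Ent 4 := ⟨[a0, a63], [a86, a237], (M a48 (F (T t1 (T t2 (T t3 (T t0 (K a16 (M a60 (F (T t64 (L l14 (L l18 (L l477 (T t67 (L l351 (T t65 N))))))))) (K a32 (M a60 (F (T t64 (L l477 (T t67 (L l24 (L l28 (L l351 (T t65 N))))))))) (K a21 (M a192 (F (T t837 (L l47 (L l291 (L l347 (L l351 (T t20 (L l47 (L l347 (L l351 (T t29 N)))))))))))) (K a37 (M a192 (F (T t19 (L l47 (L l291 (L l351 (T t20 (L l351 (T t21 N))))))))) (K a53 (M a192 (F (T t19 (L l351 (L l491 (T t21 (L l142 (T t31 N)))))))) (K a26 (M a192 (F (T t27 (L l291 (L l351 (T t20 (L l351 (T t21 N)))))))) (K a42 (M a192 (F (T t19 (L l291 (L l351 (T t20 (L l28 (L l351 (T t29 N))))))))) (K a58 (M a192 (F (T t19 (L l351 (T t21 (L l54 (L l142 (L l498 (T t31 N))))))))) (K a15 (M a192 (F (T t1922 (L l291 (L l325 (L l351 (T t20 (L l351 (L l469 (T t21 N)))))))))) N)))))))))))))))⟩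
def e0_63__86_149 : Ent 4 := ⟨[a0, a63], [a86, a238], (M a48 (F (T t1 (T t2 (T t3 (T t0 (K a16 (M a60 (F (T t64 (L l14 (L l18 (L l477 (T t67 (L l351 (T t65 N))))))))) (K a32 (M a60 (F (T t64 (L l477 (T t67 (L l24 (L l28 (L l351 (T t65 N))))))))) (K a21 (M a192 (F (T t837 (L l47 (L l347 (L l351 (T t20 (L l47 (L l347 (L l351 (T t29 N))))))))))) (K a37 (M a192 (F (T t19 (L l47 (L l351 (T t20 (L l290 (L l351 (T t21 N))))))))) (K a53 (M a192 (F (T t19 (L l290 (L l351 (L l491 (T t21 (L l142 (T t31 N))))))))) (K a26 (M a192 (F (T t27 (L l351 (T t20 (L l290 (L l351 (T t21 N)))))))) (K a42 (M a192 (F (T t19 (L l351 (T t20 (L l28 (L l351 (T t29 N)))))))) (K a58 (M a192 (F (T t19 (L l290 (L l351 (T t21 (L l54 (L l142 (L l498 (T t31 N)))))))))) (K a15 (M a192 (F (T t1922 (L l325 (L l351 (T t20 (L l290 (L l351 (L l469 (T t21 N)))))))))) N)))))))))))))))⟩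
def e0_63__86_150 : Ent 4 := ⟨[a0, a63], [a86, a239], (M a48 (F (T t1 (T t2 (L l397 (T t3 (L l404 (T t0 (K a16 (M a60 (F (T t64 (L l14 (L l18 (L l477 (T t67 (L l351 (T t65 N))))))))) (K a32 (M a170 (F (L l87 (T t2102 (L l256 (T t580 (L l87 (T t514 N)))))))) (K a21 (M a192 (F (T t27 (L l47 (L l289 (L l347 (L l351 (T t20 (L l47 (L l289 (L l347 (L l351 (L l404 (T t29 N)))))))))))))) (K a37 (M a192 (F (T t837 (L l47 (L l289 (L l351 (T t20 (L l289 (L l351 (T t21 N)))))))))) (K a53 (M a192 (F (T t837 (L l289 (L l351 (L l491 (T t21 (L l142 (T t31 N))))))))) (K a26 (M a192 (F (T t27 (L l289 (L l351 (T t20 (L l289 (L l351 (T t21 N))))))))) (K a42 (M a192 (F (T t837 (L l289 (L l351 (T t20 (L l28 (L l289 (L l351 (L l404 (T t29 N))))))))))) (K a58 (M a192 (F (T t837 (L l289 (L l351 (T t21 (L l54 (L l142 (L l498 (T t31 N)))))))))) (K a15 (M a192 (F (T t55 (L l289 (L l325 (L l351 (T t20 (L l289 (L l351 (L l469 (T t21 N)))))))))))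 N)))))))))))))))))⟩
def e0_63__86_151 : Ent 4 := ⟨[a0, a63], [a86, a252], (M a3 (F (L l430 (T t137 (L l474 (T t85 (L l351 (L l430 (T t353 (L l430 (L l474 (T t665 (L l430 (T t358 (K a60 (M a192 (L l430 (F (T t2068 (L l261 (L l351 (L l434 (T t35 (L l142 (L l261 (L l474 (T t3557 (K a124 (M a188 (L l145 (F (T t2068 (L l109 (L l261 (L l351 (L l434 (T t21 (L l142 (L l261 (L l474 (T t3557 (K a105 (M a67 (L l518 (F (T t3558 (L l109 (L l261 (L l434 (T t349 (K a150 (Fr a195 a131 l307 (V t3559)) (K a195 (M a150 (L l297 (F (T t3558 (L l109 (L l261 (L l295 (L l351 (L l434 (L l515 (T t21 (L l98 (L l142 (L l261 (L l474 (T t3557 (K a233 (M a214 (L l389 (F (T t3558 (L l351 (L l515 (T t3560 (K a41 (Fr a169 a131 l221 (V t3561)) (K a169 (M a41 (F (T t3562 (L l217 (T t3563 N))))) N))))))))) (K a214 (M a233 (F (T t3558 (L l109 (L l261 (L l295 (L l351 (L l434 (L l515 (T t21 (L l98 (L l142 (L l239 (L l261 (L l474 (T t3557 N))))))))))))))))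 N)))))))))))))))))) N)))))))))) (K a67 (M a105 (F (L l351 (T t57 (L l76 (L l142 (L l297 (L l474 (T t2297 (L l109 (L l142 (L l434 (T t3564 (L l351 (L l474 (T t3565 N)))))))))))))))) N))))))))))))))) (K a188 (M a124 (F (L l216 (T t2068 (L l261 (L l351 (L l434 (T t35 (L l142 (L l261 (L l474 (T t3557 N)))))))))))) N)))))))))))))) (K a1 (M a51 (F (T t1355 (L l459 (L l471 (T t842 (T t843 N))))))) (K a21 (M a65 (F (L l292 (T t3566 (L l261 (T t3567 (L l142 (L l261 (L l347 (L l351 (L l474 (T t3568 (L l11 (L l292 (L l351 (L l474 (T t3569 N))))))))))))))))) (K a41 (M a192 (F (L l261 (L l351 (T t21 (L l145 (L l297 (T t2064 (L l22 (L l142 (L l261 (L l474 (T t3557 N))))))))))))) (K a2 (M a170 (F (L l261 (T t2190 (L l87 (L l145 (L l297 (T t3492 (L l292 (L l351 (T t3570 N))))))))))) (K a22 (M a48 (L l348 (F (T t797 (L l11 (L l471 (T t1 (L l16 (L l66 (L l366 (T t345 (K a150 (M a214 (F (T t797 (L l11 (L l471 (T t1 (L l16 (L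 l66 (L l366 (T t345 N)))))))))) (K a214 (M a150 (L l297 (F (T t797 (L l11 (L l471 (T t1 (L l16 (L l66 (L l366 (T t345 (K a233 (M a195 (F (T t3571 (L l145 (L l292 (T t3572 N)))))) (K a195 (M a233 (F (T t797 (L l11 (L l337 (L l471 (T t1 (L l16 (L l66 (L l366 (T t345 N))))))))))) N))))))))))))) N))))))))))))) (K a42 (M a65 (F (L l292 (T t3566 (L l22 (L l261 (T t3567 (L l66 (L l142 (L l261 (L l351 (L l474 (T t3568 (L l66 (L l292 (L l351 (L l474 (T t3569 N)))))))))))))))))) (K a23 (M a149 (F (L l292 (T t5 (L l142 (L l145 (L l297 (T t1883 (L l261 (L l474 (T t3573 N))))))))))) (K a43 (M a192 (F (T t2068 (L l261 (L l351 (T t35 (L l22 (L l142 (L l261 (L l393 (L l474 (T t3557 N)))))))))))) N)))))))))))))))))))))))⟩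
def e0_63__86_152 : Ent 4 := ⟨[a0, a63], [a86, a253], (M a48 (F (T t1 (T t2 (T t3 (T t0 (K a16 (M a60 (F (T t42 (L l14 (L l18 (L l477 (T t67 (L l351 (T t65 N))))))))) (K a32 (M a60 (F (T t42 (L l477 (T t67 (L l24 (L l28 (L l351 (T t65 N))))))))) (K a21 (M a192 (F (T t837 (L l47 (L l347 (L l351 (T t20 (L l47 (L l347 (L l351 (T t29 N))))))))))) (K a37 (M a192 (F (T t19 (L l47 (L l351 (T t20 (L l261 (L l351 (T t21 N))))))))) (K a53 (M a192 (F (T t19 (L l261 (L l351 (L l491 (T t21 (L l142 (L l293 (T t31 N)))))))))) (K a26 (M a192 (F (T t27 (L l351 (T t20 (L l261 (L l351 (T t21 N)))))))) (K a42 (M a192 (F (T t19 (L l351 (T t20 (L l28 (L l351 (T t29 N)))))))) (K a58 (M a192 (F (T t19 (L l261 (L l351 (T t21 (L l54 (L l142 (L l293 (L l498 (T t31 N))))))))))) (K a15 (M a192 (F (T t1922 (L l325 (L l351 (T t20 (L l261 (L l351 (L l469 (T t21 N)))))))))) N)))))))))))))))⟩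
def e0_63__86_153 : Ent 4 := ⟨[a0, a63], [a86, a254], (M a48 (L l474 (F (T t1 (T t2 (T t3 (T t0 (K a16 (M a170 (F (L l261 (T t456 (L l87 (L l368 (L l438 (T t514 (L l18 (L l294 (L l438 (T t580 N)))))))))))) (K a32 (M a170 (F (L l294 (T t317 (L l87 (L l438 (T t514 (L l294 (L l438 (T t580 N)))))))))) (K a21 (M a170 (F (L l18 (T t316 (L l87 (L l347 (L l438 (T t514 (L l18 (T t3070 N)))))))))) (K a37 (M a170 (F (T t316 (L l47 (L l294 (T t317 (T t3070 N))))))) (K a53 (M a170 (F (T t316 (L l47 (L l294 (T t317 (L l47 (L l294 (T t324 N))))))))) (K a26 (M a170 (F (L l87 (T t2102 (L l261 (L l438 (T t323 (L l18 (L l54 (T t3070 N)))))))))) (K a42 (M a170 (F (T t316 (L l54 (T t3070 (L l87 (L l438 (T t514 N)))))))) (K a58 (M a170 (F (T t316 (L l294 (T t317 (L l294 (T t324 N))))))) (K a15 (M a2 (F (L l351 (T t338 (L l73 (L l438 (T t339 (L l348 (L l366 (T t340 N)))))))))) (K a2 (M a170 (F (T t3 (L l294 (T t317 (L l261 (L l438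 (T t323 N)))))))) (K a170 (M a2 (F (T t3 (L l438 (T t339 (L l432 (T t824 N))))))) N))))))))))))))))))⟩
def e0_63__86_154 : Ent 4 := ⟨[a0, a63], [a86, a255], (M a48 (F (T t48 (L l469 (T t1 (L l469 (T t2 (L l469 (T t3 (L l469 (T t0 (K a16 (M a60 (F (T t138 (L l14 (L l18 (L l475 (L l477 (T t67 (L l351 (T t65 N)))))))))) (K a32 (M a60 (F (T t138 (L l475 (L l477 (T t67 (L l24 (L l28 (L l351 (T t65 N)))))))))) (K a21 (M a192 (F (T t2113 (L l47 (L l289 (L l347 (L l351 (T t20 (L l47 (L l289 (L l347 (L l351 (T t29 N))))))))))))) (K a37 (M a192 (F (T t36 (L l47 (L l289 (L l351 (T t20 (L l28 (L l47 (L l289 (L l351 (T t29 N)))))))))))) (K a53 (M a12 (F (T t145 (L l47 (L l439 (T t122 (L l47 (T t146 N)))))))) (K a26 (M a192 (F (T t1922 (L l289 (L l351 (T t20 (L l289 (L l351 (T t29 N))))))))) (K a42 (M a192 (F (T t36 (L l289 (L l351 (T t20 (L l28 (L l289 (L l351 (T t29 N)))))))))) (K a58 (M a12 (F (T t145 (L l439 (T t122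 (T t146 N)))))) (K a15 (M a192 (L l469 (F (T t1922 (L l289 (L l325 (L l351 (T t20 (L l289 (L l351 (T t29 (K a95 (M a175 (F (T t2113 (L l142 (L l289 (L l325 (T t206 (L l142 (L l289 (T t224 N)))))))))) (K a175 (M a95 (F (T t1922 (L l142 (L l289 (L l325 (T t206 (L l142 (L l289 (L l397 (T t224 N))))))))))) N))))))))))))) N))))))))))))))))))))⟩
def b0_63__86 : Blk 4 := ⟨[0, 63], [86], [1, 2, 3, 4, 5, 6, 7, 8, 9, 10, 11, 12, 13, 14, 15, 20, 22, 23, 24, 25, 26, 27, 28, 29, 30, 31, 40, 41, 43, 44, 45, 46, 47, 60, 61, 62, 64, 65, 66, 67, 68, 69, 70, 71, 72, 73, 74, 75, 76, 77, 78, 79, 84, 85, 87, 88, 89, 90, 91, 92, 93, 94, 95, 104, 105, 106, 107, 108, 109, 110, 111, 124, 125, 126, 127, 128, 129, 130, 131, 132, 133, 134, 135, 136, 137, 138, 139, 140, 141, 142, 143, 148, 149, 150, 151, 152, 153, 154, 155, 156, 157, 158, 159, 168, 169, 170, 171, 172, 173, 174, 175, 188, 189, 190, 191, 192, 193, 194, 195, 196, 197, 198,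 199, 200, 201, 202, 203, 204, 205, 206, 207, 212, 213, 214, 215, 216, 217, 218, 219, 220, 221, 222, 223, 232, 233, 234, 235, 236, 237, 238, 239, 252, 253, 254, 255], [e0_63__86_0, e0_63__86_1, e0_63__86_2, e0_63__86_3, e0_63__86_4, e0_63__86_5, e0_63__86_6, e0_63__86_7, e0_63__86_8, e0_63__86_9, e0_63__86_10, e0_63__86_11, e0_63__86_12, e0_63__86_13, e0_63__86_14, e0_63__86_15, e0_63__86_16, e0_63__86_17, e0_63__86_18, e0_63__86_19, e0_63__86_20, e0_63__86_21, e0_63__86_22, e0_63__86_23, e0_63__86_24, e0_63__86_25, e0_63__86_26, e0_63__86_27, e0_63__86_28, e0_63__86_29, e0_63__86_30, e0_63__86_31, e0_63__86_32, e0_63__86_33, e0_63__86_34, e0_63__86_35, e0_63__86_36, e0_63__86_37, e0_63__86_38, e0_63__86_39, e0_63__86_40, e0_63__86_41, e0_63__86_42, e0_63__86_43, e0_63__86_44, e0_63__86_45, e0_63__86_46, e0_63__86_47, e0_63__86_48, e0_63__86_49, e0_63__86_50, e0_63__86_51, e0_63__86_52, e0_63__86_53, e0_63__86_54,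 e0_63__86_55, e0_63__86_56, e0_63__86_57, e0_63__86_58, e0_63__86_59, e0_63__86_60, e0_63__86_61, e0_63__86_62, e0_63__86_63, e0_63__86_64, e0_63__86_65, e0_63__86_66, e0_63__86_67, e0_63__86_68, e0_63__86_69, e0_63__86_70, e0_63__86_71, e0_63__86_72, e0_63__86_73, e0_63__86_74, e0_63__86_75, e0_63__86_76, e0_63__86_77, e0_63__86_78, e0_63__86_79, e0_63__86_80, e0_63__86_81, e0_63__86_82, e0_63__86_83, e0_63__86_84, e0_63__86_85, e0_63__86_86, e0_63__86_87, e0_63__86_88, e0_63__86_89, e0_63__86_90, e0_63__86_91, e0_63__86_92, e0_63__86_93, e0_63__86_94, e0_63__86_95, e0_63__86_96, e0_63__86_97, e0_63__86_98, e0_63__86_99, e0_63__86_100, e0_63__86_101, e0_63__86_102, e0_63__86_103, e0_63__86_104, e0_63__86_105, e0_63__86_106, e0_63__86_107, e0_63__86_108, e0_63__86_109, e0_63__86_110, e0_63__86_111, e0_63__86_112, e0_63__86_113, e0_63__86_114, e0_63__86_115, e0_63__86_116, e0_63__86_117, e0_63__86_118, e0_63__86_119,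 e0_63__86_120, e0_63__86_121, e0_63__86_122, e0_63__86_123, e0_63__86_124, e0_63__86_125, e0_63__86_126, e0_63__86_127, e0_63__86_128, e0_63__86_129, e0_63__86_130, e0_63__86_131, e0_63__86_132, e0_63__86_133, e0_63__86_134, e0_63__86_135, e0_63__86_136, e0_63__86_137, e0_63__86_138, e0_63__86_139, e0_63__86_140, e0_63__86_141, e0_63__86_142, e0_63__86_143, e0_63__86_144, e0_63__86_145, e0_63__86_146, e0_63__86_147, e0_63__86_148, e0_63__86_149, e0_63__86_150, e0_63__86_151, e0_63__86_152, e0_63__86_153, e0_63__86_154], by decide +kernel, by decide +kernel⟩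

end Pool.Agent.Lib_TTT.K4
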