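import Pool.Agent.Lib_TTT.K4Base
import Pool.Agent.Lib_TTT.K4T00
import Pool.Agent.Lib_TTT.K4T01
import Pool.Agent.Lib_TTT.K4T02
import Pool.Agent.Lib_TTT.K4T03
import Pool.Agent.Lib_TTT.K4T04

/-! Certificates in `4^4`. -/

set_option autoImplicit false
set_option maxRecDepth 200000

namespace Pool.Agent.Lib_TTT.K4

open Lib_TTT AC DC

def e0_63__87_0 : Ent 4 := ⟨[a0, a63], [a87, a1], (M a48 (F (T t0 (L l65 (T t1 (L l5 (T t2 (L l65 (T t3 (K a16 (M a60 (F (T t42 (L l14 (L l18 (L l65 (L l475 (T t67 (L l5 (L l349 (T t65 N))))))))))) (K a32 (M a60 (F (T t42 (L l65 (L l475 (T t67 (L l5 (L l24 (L l28 (L l349 (T t65 N))))))))))) (K a21 (M a192 (L l65 (F (T t837 (L l47 (L l347 (T t20 (L l47 (L l347 (L l367 (T t29 (K a41 (M a61 (F (T t837 (L l305 (T t584 N))))) (K a61 (M a41 (F (T t27 (L l35 (L l47 (L l347 (L l515 (T t20 (L l18 (T t46 N)))))))))) N))))))))))))) (K a37 (M a192 (F (T t19 (L l47 (T t20 (L l143 (L l475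 (T t21 N)))))))) (K a53 (M a192 (F (T t19 (L l143 (L l475 (L l491 (T t21 (T t31 N)))))))) (K a26 (M a192 (F (T t837 (T t20 (L l143 (L l475 (T t21 N))))))) (K a42 (M a192 (F (T t19 (T t20 (L l28 (L l367 (T t29 N))))))) (K a58 (M a192 (F (T t19 (L l143 (L l475 (T t21 (L l54 (L l498 (T t31 N))))))))) (K a15 (M a192 (F (T t54 (L l483 (T t27 (L l143 (L l469 (L l475 (T t21 N))))))))) N))))))))))))))))))⟩
def e0_63__87_1 : Ent 4 := ⟨[a0, a63], [a87, a2], (M a48 (F (T t3 (L l6 (T t1 (L l66 (T t2 (L l66 (T t0 (K a16 (M a60 (F (T t42 (L l66 (L l349 (L l475 (T t43 (L l6 (L l14 (L l18 (T t44 N))))))))))) (K a32 (M a60 (F (T t42 (L l24 (L l28 (L l66 (L l349 (L l475 (T t43 (L l6 (T t44 N))))))))))) (K a21 (M a192 (F (T t837 (L l47 (L l347 (T t20 (L l47 (L l347 (L l367 (T t29 N)))))))))) (K a37 (M a192 (F (T t19 (L l47 (T t20 (L l143 (L l475 (T t21 N)))))))) (K a53 (M a192 (F (T t19 (L l143 (L l475 (L l491 (T t21 (L l66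 (T t31 N))))))))) (K a26 (M a192 (F (T t837 (T t20 (L l143 (L l475 (T t21 N))))))) (K a42 (M a192 (L l66 (F (T t19 (T t20 (L l28 (L l367 (T t29 (K a22 (M a62 (F (T t19 (L l306 (T t45 N))))) (K a62 (M a22 (F (T t27 (T t20 (L l390 (L l516 (T t46 N))))))) N)))))))))) (K a58 (M a192 (F (T t19 (L l143 (L l475 (T t21 (L l54 (L l66 (L l498 (T t31 N)))))))))) (K a15 (M a192 (F (T t57 (L l483 (T t27 (L l325 (T t20 N))))))) N))))))))))))))))))⟩
def e0_63__87_2 : Ent 4 := ⟨[a0, a63], [a87, a3], (M a255 (F (T t2132 (L l309 (T t2142 (L l309 (T t1165 (L l87 (L l309 (T t2138 (L l87 (L l143 (L l309 (T t2139 (K a192 (M a16 (L l309 (F (T t112 (L l236 (L l331 (L l367 (T t3574 (L l93 (T t3575 (K a129 (M a66 (F (T t112 (L l236 (L l331 (L l367 (T t3574 (L l93 (T t3575 N))))))))) (K a66 (M a129 (F (T t112 (L l236 (L l331 (L l367 (T t3574 (L l93 (T t3575 N))))))))) N)))))))))))) (K a21 (M a48 (F (T t3576 (L l453 (T t1160 (L l47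 (L l367 (T t548 N)))))))) (K a85 (M a51 (L l87 (F (T t3577 (L l9 (T t1294 (L l9 (L l125 (L l126 (L l143 (L l144 (L l347 (L l365 (T t3578 (L l9 (L l458 (T t3579 (K a84 (M a86 (F (T t1355 (L l451 (T t3580 (L l9 (L l125 (L l126 (L l143 (L l144 (L l347 (L l365 (T t3578 (L l9 (L l454 (L l458 (T t3579 N))))))))))))))))) (K a86 (M a84 (L l477 (F (T t1355 (L l69 (L l145 (T t3581 (K a252 (M a169 (F (T t3577 (L l9 (L l466 (T t1294 (L l9 (L l125 (L l126 (L l143 (L l144 (L l347 (L l365 (L l466 (T t3578 (L l9 (L l458 (L l466 (T t3582 N))))))))))))))))))) (K a169 (Fr a252 a168 l472 (V t1294)) N))))))))) N))))))))))))))))))) (K a149 (M a16 (F (T t112 (L l220 (L l331 (L l367 (T t3574 (L l93 (L l170 (L l220 (T t3575 N))))))))))) (K a42 (M a48 (F (L l453 (T t1169 (L l87 (L l331 (T t547 (L l28 (L l367 (L l390 (T t548 N))))))))))) (K a106 (M a32 (F (T t820 (L l87 (L l144 (L l331 (T t3583 (L l87 (L l104 (L l144 (T t3584 N)))))))))))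 (K a170 (M a48 (F (T t607 (L l206 (L l453 (T t1160 (L l7 (L l143 (L l462 (T t3585 (L l7 (L l206 (L l220 (L l390 (L l404 (T t3586 N)))))))))))))))) (K a127 (M a16 (L l143 (F (T t112 (L l331 (L l367 (T t3574 (L l93 (L l137 (T t3575 (K a67 (M a107 (L l307 (F (T t112 (L l69 (L l109 (L l349 (T t1163 (K a131 (Fr a195 a151 l517 (V t3587)) (K a195 (M a131 (F (T t112 (L l235 (L l331 (L l367 (T t3574 (L l93 (L l137 (T t3575 N)))))))))) N)))))))))) (K a107 (M a67 (F (T t3588 (L l7 (T t97 (L l93 (L l137 (T t3575 N)))))))) N)))))))))))) (K a191 (M a16 (F (T t112 (L l220 (L l331 (L l367 (T t3574 (L l93 (L l220 (T t3575 N)))))))))) N)))))))))))))))))))))))⟩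
def e0_63__87_3 : Ent 4 := ⟨[a0, a63], [a87, a4], (M a85 (F (T t88 (L l50 (L l143 (L l475 (T t52 (T t89 (T t90 (K a64 (M a240 (F (T t933 (L l93 (T t387 N))))) (K a192 (M a16 (F (T t504 (L l314 (L l367 (T t96 (L l296 (L l367 (T t98 N))))))))) (K a21 (M a48 (L l50 (F (L l367 (T t261 (L l143 (T t50 (L l47 (L l143 (L l367 (T t100 (K a38 (M a55 (F (L l46 (T t1743 (L l367 (T t261 N)))))) (K a55 (M a38 (F (L l367 (T t261 (L l143 (T t50 (L l31 (L l47 (L l143 (L l367 (T t100 N))))))))))) N))))))))))))) (K a149 (M a16 (F (L l375 (T t97 (L l314 (L l367 (T t173 (L l93 (L l170 (T t102 N)))))))))) (K a213 (Fr a170 a255 l476 (Fr a42 a21 l68 (Fr a106 a234 l390 (Fr a192 a149 l519 (V t581))))) (K a42 (M a48 (F (L l475 (T t364 (L l143 (L l390 (T t50 (L l28 (L l143 (L l367 (T t100 N))))))))))) (K a106 (M a48 (F (L l50 (T t1 (L l104 (L l314 (L l367 (T t509 (L l143 (L l390 (T t50 N))))))))))) (K a170 (M a16 (F (L l390 (L l404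 (T t97 (L l367 (L l390 (T t98 (L l143 (L l367 (L l404 (T t113 (L l367 (L l404 (T t174 N))))))))))))))) (K a255 (M a3 (F (T t1341 (L l143 (L l261 (L l349 (T t376 (L l261 (L l296 (T t357 (L l261 (L l296 (T t1921 N))))))))))))) N))))))))))))))))))⟩
def e0_63__87_4 : Ent 4 := ⟨[a0, a63], [a87, a5], (M a85 (F (T t88 (L l47 (L l143 (L l475 (T t52 (T t89 (T t90 (K a64 (M a240 (F (T t933 (L l93 (T t387 N))))) (K a192 (M a48 (F (L l47 (L l339 (T t3 (L l296 (L l367 (L l475 (T t99 (L l143 (L l268 (T t50 N)))))))))))) (K a21 (M a204 (L l47 (F (L l475 (T t1687 (T t1575 (L l125 (L l143 (T t1691 (K a37 (M a53 (F (T t1575 (T t1745 N)))) (K a53 (M a37 (F (L l125 (T t1746 (T t1575 (L l125 (L l491 (T t1747 N)))))))) N))))))))))) (K a149 (M a48 (F (L l47 (T t3 (L l367 (L l475 (T t99 (L l143 (L l220 (T t50 N)))))))))) (K a213 (Fr a170 a255 l476 (Fr a42 a21 l68 (Fr a106 a234 l390 (Fr a192 a149 l519 (V t581))))) (K a42 (M a48 (F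 (L l475 (T t364 (L l143 (L l390 (T t50 (L l28 (L l47 (L l143 (L l367 (T t100 N)))))))))))) (K a106 (M a48 (F (L l47 (L l411 (T t3 (L l104 (L l311 (L l367 (T t509 (L l143 (L l390 (T t50 N)))))))))))) (K a170 (M a4 (F (L l390 (L l464 (T t519 (L l390 (L l457 (T t131 (L l143 (L l457 (L l464 (T t130 (L l457 (L l464 (T t938 N))))))))))))))) (K a255 (M a3 (F (T t85 (L l143 (L l261 (L l349 (T t376 (L l261 (L l296 (T t357 (L l261 (L l296 (T t1921 N))))))))))))) N))))))))))))))))))⟩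
def e0_63__87_5 : Ent 4 := ⟨[a0, a63], [a87, a6], (M a85 (F (T t88 (L l143 (L l475 (T t52 (T t89 (T t90 (K a64 (M a240 (F (T t933 (L l93 (T t387 N))))) (K a192 (M a16 (F (T t504 (L l367 (T t96 (L l296 (L l367 (T t98 N)))))))) (K a21 (M a48 (F (T t873 (L l47 (L l143 (L l367 (T t100 (L l143 (T t50 N))))))))) (K a149 (M a16 (F (L l375 (T t97 (L l367 (T t173 (L l93 (L l170 (T t102 N))))))))) (K a213 (Fr a170 a255 l476 (Fr a42 a21 l68 (Fr a106 a234 l390 (Fr a192 a149 l519 (V t581))))) (K a42 (M a48 (F (L l475 (T t364 (L l143 (L l390 (T t50 (L l28 (L l143 (L l367 (T t100 N))))))))))) (K a106 (M a48 (F (L l6 (T t1 (L l104 (L l367 (T t509 (L l143 (L l390 (T t50 N)))))))))) (K a170 (M a16 (F (L l390 (L l404 (T t97 (L l367 (L l390 (T t98 (L l143 (L l367 (L l404 (T t113 (L l367 (L l404 (T t174 N))))))))))))))) (K a255 (M a3 (F (L l434 (T t358 (L l6 (L l143 (L l261 (L l349 (T t376 (L l6 (L l261 (L l296 (T t357 (L l261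 (L l296 (T t1921 N)))))))))))))))) N)))))))))))))))))⟩
def e0_63__87_6 : Ent 4 := ⟨[a0, a63], [a87, a7], (M a85 (L l457 (F (T t88 (L l143 (L l475 (T t52 (T t89 (T t90 (K a64 (M a247 (F (T t3589 (L l315 (T t3590 (L l49 (T t3591 N))))))) (K a192 (M a247 (F (T t3589 (T t3592 (L l49 (L l489 (T t3591 N))))))) (K a21 (M a243 (L l457 (F (T t3593 (L l143 (T t2088 (L l143 (T t3594 (K a167 (M a247 (F (T t3595 (L l1 (L l50 (T t3596 N)))))) (K a247 (M a167 (F (L l475 (T t3597 (L l143 (L l313 (T t3598 N))))))) N)))))))))) (K a149 (M a247 (F (L l220 (T t3589 (L l49 (L l202 (L l495 (T t3599 (L l49 (L l220 (L l495 (T t3591 (L l125 (L l202 (T t3600 N))))))))))))))) (K a213 (Fr a170 a255 l476 (Fr a42 a21 l68 (Fr a106 a234 l390 (Fr a192 a149 l519 (V t581))))) (K a42 (M a243 (L l457 (F (L l475 (T t3601 (L l143 (L l390 (T t2088 (L l143 (T t3594 (K a167 (M a247 (F (T t3595 (L l1 (T t3596 N))))) (K a247 (M a167 (F (L l313 (T t3602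 (L l475 (T t3603 N)))))) N)))))))))))) (K a106 (M a48 (L l457 (F (T t48 (L l104 (L l367 (T t509 (L l143 (L l390 (T t50 (K a167 (M a247 (F (T t48 (L l390 (T t3589 (L l475 (L l498 (T t365 N)))))))) (K a247 (M a167 (F (T t48 (L l104 (L l265 (L l367 (L l475 (T t360 (L l143 (L l390 (L l422 (T t50 N)))))))))))) N)))))))))))) (K a170 (M a15 (L l457 (F (L l1 (T t731 (L l143 (L l462 (T t1497 (L l315 (L l390 (L l462 (T t1484 (L l93 (L l390 (T t1498 (K a167 (M a247 (F (L l1 (T t731 (L l49 (L l173 (L l178 (L l390 (L l464 (T t3599 (L l143 (L l462 (T t1497 N))))))))))))) (K a247 (M a167 (F (L l93 (T t3604 (L l259 (L l278 (L l315 (L l390 (L l462 (T t1484 N)))))))))) N))))))))))))))))) (K a255 (M a3 (L l457 (F (T t85 (L l49 (L l143 (L l261 (L l349 (T t376 (L l261 (L l296 (T t357 (L l261 (L l296 (T t1921 (K a167 (M a247 (F (T t1341 (L l173 (L l296 (L l315 (T t3590 (L l49 (L l143 (L l261 (L l349 (T t376 N)))))))))))) (K a247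 (M a167 (L l265 (F (T t1341 (L l49 (L l143 (L l261 (L l349 (T t376 (L l261 (L l459 (T t2226 (L l261 (L l278 (L l296 (T t1921 (K a243 (M a251 (F (T t85 (L l49 (L l143 (L l261 (L l349 (T t376 (L l261 (L l278 (L l296 (T t357 (L l261 (L l267 (L l278 (L l296 (T t1921 N))))))))))))))))) (K a251 (M a243 (F (T t85 (L l295 (L l313 (L l427 (T t3602 N))))))) N)))))))))))))))))) N))))))))))))))))) (K a167 (M a247 (F (T t88 (L l1 (T t3605 (L l49 (L l173 (T t3599 N)))))))) (K a247 (M a167 (F (T t90 (L l278 (T t88 (L l143 (L l265 (L l475 (T t52 (L l278 (T t89 (K a64 (M a240 (F (L l143 (T t386 (L l93 (L l278 (T t387 N))))))) (K a192 (M a16 (F (T t1924 (L l7 (L l339 (T t97 (L l278 (L l296 (L l367 (T t98 N)))))))))) (K a21 (M a195 (F (T t2230 (L l7 (L l143 (L l313 (T t3606 N))))))) (K a149 (M a195 (F (T t2232 (L l7 (L l143 (L l313 (T t3606 N))))))) (K a213 (Fr a170 a255 l476 (Fr a42 a21 l68 (Fr a106 a234 l390 (Fr a192 a149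 l519 (V t581))))) (K a42 (M a195 (F (T t2232 (L l7 (L l143 (L l313 (T t3606 N))))))) (K a106 (M a5 (F (L l93 (T t3607 (L l259 (L l278 (L l390 (T t2817 N)))))))) (K a170 (M a5 (F (L l265 (L l462 (T t3608 (L l259 (L l278 (L l390 (T t2817 N))))))))) (K a255 (M a3 (L l265 (F (T t1341 (L l49 (L l143 (L l261 (L l349 (T t376 (L l261 (L l459 (T t2226 (L l261 (L l278 (L l296 (T t1921 (K a243 (M a251 (F (T t85 (L l49 (L l143 (L l261 (L l349 (T t376 (L l261 (L l278 (L l296 (T t357 (L l261 (L l267 (L l278 (L l296 (T t1921 N))))))))))))))))) (K a251 (M a243 (F (T t85 (L l295 (L l313 (L l427 (T t3602 N))))))) N)))))))))))))))))) N)))))))))))))))))))) N))))))))))))))))))))⟩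
def e0_63__87_7 : Ent 4 := ⟨[a0, a63], [a87, a8], (M a85 (F (L l56 (T t88 (L l143 (L l475 (T t52 (L l56 (T t89 (L l464 (T t90 (K a64 (M a240 (F (L l464 (T t933 (L l56 (L l93 (T t387 N))))))) (K a192 (M a16 (F (L l367 (T t96 (L l56 (L l339 (T t97 (L l56 (L l296 (L l367 (T t98 N))))))))))) (K a21 (M a48 (F (L l367 (T t509 (L l143 (L l464 (T t50 (L l47 (L l143 (L l367 (T t100 N))))))))))) (K a149 (M a16 (F (L l367 (T t173 (L l56 (L l375 (T t97 (L l56 (L l93 (L l170 (T t102 N))))))))))) (K a213 (Fr a170 a255 l476 (Fr a42 a21 l68 (Fr a106 a234 l390 (Fr a192 a149 l519 (V t581))))) (K a42 (M a59 (F (L l26 (T t3224 (L l125 (L l143 (L l390 (L l464 (T t105 (L l26 (L l143 (L l316 (T t106 (L l316 (L l390 (L l464 (T t107 N))))))))))))))))) (K a106 (M a48 (F (L l2 (T t1 (L l104 (L l367 (T t509 (L l143 (L l390 (L l464 (T t50 N))))))))))) (K a170 (M a89 (F (L l178 (T t108 (L l56 (L l390 (T t109 (L l178 (L l316 (T t110 (L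 l56 (L l178 (L l390 (T t111 N)))))))))))))) (K a255 (M a3 (F (L l434 (T t358 (L l143 (L l261 (L l349 (T t376 (L l56 (L l261 (L l296 (T t357 (L l56 (L l261 (L l296 (T t1921 N)))))))))))))))) N))))))))))))))))))))⟩
def e0_63__87_8 : Ent 4 := ⟨[a0, a63], [a87, a9], (M a85 (F (T t88 (L l143 (L l475 (T t52 (T t89 (T t90 (K a64 (M a240 (F (T t933 (L l93 (T t387 N))))) (K a192 (M a16 (F (T t504 (L l367 (T t96 (L l296 (L l367 (T t98 N)))))))) (K a21 (M a48 (F (T t873 (L l47 (L l143 (L l367 (T t100 (L l143 (T t50 N))))))))) (K a149 (M a16 (F (L l375 (T t97 (L l367 (T t173 (L l93 (L l170 (T t102 N))))))))) (K a213 (Fr a170 a255 l476 (Fr a42 a21 l68 (Fr a106 a234 l390 (Fr a192 a149 l519 (V t581))))) (K a42 (M a48 (F (L l475 (T t364 (L l143 (L l390 (T t50 (L l28 (L l143 (L l367 (T t100 N))))))))))) (K a106 (M a48 (F (L l2 (T t1 (L l104 (L l367 (T t509 (L l143 (L l390 (T t50 N)))))))))) (K a170 (M a16 (F (L l390 (L l404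 (T t97 (L l367 (L l390 (T t98 (L l143 (L l367 (L l404 (T t113 (L l367 (L l404 (T t174 N))))))))))))))) (K a255 (M a3 (F (T t85 (L l143 (L l261 (L l349 (T t376 (L l261 (L l296 (T t357 (L l261 (L l296 (T t1921 N))))))))))))) N)))))))))))))))))⟩
def e0_63__87_9 : Ent 4 := ⟨[a0, a63], [a87, a10], (M a85 (F (L l54 (T t88 (L l143 (L l475 (T t52 (L l54 (T t89 (L l462 (T t90 (K a64 (M a204 (F (L l462 (T t1575 (L l54 (L l125 (T t1576 N))))))) (K a192 (M a16 (F (L l54 (L l339 (T t97 (L l367 (T t96 (L l54 (L l296 (L l367 (T t98 N))))))))))) (K a21 (M a48 (F (L l367 (T t1699 (L l143 (L l462 (T t50 (L l47 (L l143 (L l318 (L l367 (T t100 N)))))))))))) (K a149 (M a48 (F (L l54 (L l375 (T t0 (L l367 (L l475 (T t99 (L l143 (L l220 (L l462 (T t50 N)))))))))))) (K a213 (Fr a170 a255 l476 (Fr a42 a21 l68 (Fr a106 a234 l390 (Fr a192 a149 l519 (V t581))))) (K a42 (M a58 (F (L l475 (T t118 (L l143 (L l390 (L l462 (T t119 (L l28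 (L l143 (L l318 (L l367 (T t120 (L l318 (L l390 (L l462 (T t121 N))))))))))))))))) (K a106 (M a12 (F (T t122 (L l2 (L l132 (L l457 (T t123 (L l143 (L l390 (L l462 (T t124 N))))))))))) (K a170 (M a90 (F (L l93 (L l180 (T t125 (L l54 (L l390 (T t126 (L l93 (L l180 (L l318 (T t127 (L l54 (L l180 (L l390 (T t128 N)))))))))))))))) (K a255 (M a3 (F (L l434 (T t358 (L l6 (L l143 (L l261 (L l349 (T t376 (L l6 (L l54 (L l261 (L l296 (T t357 (L l54 (L l261 (L l296 (T t1921 N)))))))))))))))))) N))))))))))))))))))))⟩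
def e0_63__87_10 : Ent 4 := ⟨[a0, a63], [a87, a11], (M a85 (F (T t88 (L l143 (L l475 (T t52 (T t89 (T t90 (K a64 (M a240 (F (T t933 (L l93 (T t387 N))))) (K a192 (M a16 (F (T t112 (L l367 (T t96 (L l296 (L l367 (T t98 N)))))))) (K a21 (M a48 (F (T t873 (L l47 (L l143 (L l367 (T t100 (L l143 (T t50 N))))))))) (K a149 (M a16 (F (T t112 (L l367 (T t173 (L l57 (L l93 (L l170 (T t102 N))))))))) (K a213 (Fr a170 a255 l476 (Fr a42 a21 l68 (Fr a106 a234 l390 (Fr a192 a149 l519 (V t581))))) (K a42 (M a48 (F (L l475 (T t364 (L l143 (L l390 (T t50 (L l28 (L l143 (L l367 (T t100 N))))))))))) (K a106 (M a48 (F (L l475 (T t364 (L l2 (T t48 (L l143 (L l390 (T t50 N))))))))) (K a170 (M a16 (F (L l390 (L l404 (T t112 (L l367 (L l390 (T t98 (L l143 (L l367 (L l404 (T t113 (L l367 (L l404 (T t174 N))))))))))))))) (K a255 (M a3 (F (L l434 (T t665 (L l143 (L l261 (L l349 (T t376 (L l261 (L l296 (T t357 (L l55 (L l261 (L l296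 (T t1921 N))))))))))))))) N)))))))))))))))))⟩
def e0_63__87_11 : Ent 4 := ⟨[a0, a63], [a87, a12], (M a48 (F (T t48 (L l3 (T t1 (L l3 (T t2 (L l3 (T t3 (L l3 (T t0 (K a16 (M a60 (F (T t662 (L l74 (T t64 (L l349 (T t65 N))))))) (K a32 (M a60 (F (T t116 (L l74 (T t64 (L l24 (L l28 (L l349 (T t65 N))))))))) (K a21 (M a192 (F (T t54 (L l478 (T t27 (L l47 (L l347 (L l367 (T t29 N))))))))) (K a37 (M a192 (F (T t54 (L l478 (T t27 (L l143 (L l470 (L l475 (T t21 N))))))))) (K a53 (M a192 (F (T t1681 (L l478 (T t27 (T t31 N)))))) (K a26 (M a192 (F (T t56 (L l478 (T t27 (L l143 (L l470 (L l475 (T t21 N))))))))) (K a42 (M a192 (F (T t56 (L l478 (T t27 (L l28 (L l367 (T t29 N)))))))) (K a58 (M a192 (F (T t57 (L l478 (T t27 (L l54 (L l498 (T t31 N)))))))) (K a15 (M a106 (L l3 (F (T t2289 (T t306 (K a13 (M a14 (F (T t2289 (T t306 N)))) (K a14 (M a13 (F (T t2289 (T t306 N)))) N))))))) N))))))))))))))))))))⟩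
def e0_63__87_12 : Ent 4 := ⟨[a0, a63], [a87, a13], (M a85 (F (T t88 (L l143 (L l475 (T t52 (T t89 (T t90 (K a64 (M a240 (F (T t933 (L l93 (T t387 N))))) (K a192 (M a16 (F (T t504 (L l367 (T t96 (L l296 (L l367 (T t98 N)))))))) (K a21 (M a48 (F (T t873 (L l47 (L l143 (L l367 (T t100 (L l143 (T t50 N))))))))) (K a149 (M a16 (F (L l367 (T t173 (L l3 (L l375 (T t97 (L l93 (L l170 (T t102 N)))))))))) (K a213 (Fr a170 a255 l476 (Fr a42 a21 l68 (Fr a106 a234 l390 (Fr a192 a149 l519 (V t581))))) (K a42 (M a48 (F (L l475 (T t364 (L l143 (L l390 (T t50 (L l28 (L l143 (L l367 (T t100 N))))))))))) (K a106 (M a48 (F (T t48 (L l104 (L l367 (T t509 (L l143 (L l390 (T t50 N))))))))) (K a170 (M a16 (F (L l390 (L l404 (T t504 (L l367 (L l390 (T t98 (L l143 (L l367 (L l404 (T t113 (L l367 (L l404 (T t174 N))))))))))))))) (K a255 (M a3 (F (T t85 (L l143 (L l261 (L l349 (L l467 (T t376 (L l261 (L l296 (L l467 (T t357 (L l261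 (L l296 (T t1921 N))))))))))))))) N)))))))))))))))))⟩
def e0_63__87_13 : Ent 4 := ⟨[a0, a63], [a87, a14], (M a85 (F (T t88 (L l143 (L l475 (T t52 (T t89 (T t90 (K a64 (M a240 (F (T t933 (L l93 (T t387 N))))) (K a192 (M a16 (F (T t112 (L l367 (T t96 (L l296 (L l367 (T t98 N)))))))) (K a21 (M a48 (F (T t873 (L l47 (L l143 (L l367 (T t100 (L l143 (T t50 N))))))))) (K a149 (M a16 (F (T t112 (L l367 (T t173 (L l72 (L l93 (L l170 (T t102 N))))))))) (K a213 (Fr a170 a255 l476 (Fr a42 a21 l68 (Fr a106 a234 l390 (Fr a192 a149 l519 (V t581))))) (K a42 (M a48 (F (L l475 (T t364 (L l143 (L l390 (T t50 (L l28 (L l143 (L l367 (T t100 N))))))))))) (K a106 (M a48 (F (L l475 (T t364 (L l3 (L l6 (T t1 (L l143 (L l390 (T t50 N)))))))))) (K a170 (M a16 (F (L l390 (L l404 (T t112 (L l367 (L l390 (T t98 (L l143 (L l367 (L l404 (T t113 (L l367 (L l404 (T t174 N))))))))))))))) (K a255 (M a3 (F (L l434 (T t137 (L l6 (L l143 (L l261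 (L l349 (T t376 (L l6 (L l261 (L l296 (T t357 (L l261 (L l296 (T t1921 N)))))))))))))))) N)))))))))))))))))⟩
def e0_63__87_14 : Ent 4 := ⟨[a0, a63], [a87, a15], (M a12 (F (T t150 (L l73 (T t122 (L l73 (T t151 (L l73 (T t152 (L l73 (T t153 (K a4 (M a85 (F (T t89 (L l143 (L l327 (T t124 (T t154 N))))))) (K a8 (M a85 (F (L l56 (T t89 (L l143 (L l327 (L l464 (T t124 (L l56 (T t154 N)))))))))) (K a21 (M a192 (F (T t158 (L l327 (T t156 (L l15 (L l347 (L l457 (T t157 N))))))))) (K a25 (M a192 (F (T t158 (L l327 (T t156 (L l143 (L l469 (L l475 (T t21 N))))))))) (K a29 (M a192 (F (T t1681 (L l327 (T t156 (T t160 N)))))) (K a38 (M a192 (F (T t161 (L l327 (T t156 (L l143 (L l469 (L l475 (T t21 N))))))))) (K a42 (M a192 (F (T t161 (L l327 (T t156 (L l56 (L l457 (T t157 N)))))))) (K a46 (M a192 (F (T t57 (L l327 (T t156 (L l26 (L l408 (T t160 N)))))))) (K a51 (M a106 (L l73 (F (T t3609 (T t2474 (K a39 (M a27 (F (T t3609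 (T t2474 N)))) (K a27 (M a39 (F (T t3609 (T t2474 N)))) N))))))) N))))))))))))))))))))⟩
def e0_63__87_15 : Ent 4 := ⟨[a0, a63], [a87, a20], (M a85 (F (T t88 (L l11 (L l143 (L l475 (T t52 (T t89 (T t90 (K a64 (M a240 (F (T t933 (L l93 (T t387 N))))) (K a192 (M a16 (F (T t112 (L l367 (T t96 (L l296 (L l367 (T t98 N)))))))) (K a21 (M a51 (L l11 (F (T t2213 (L l50 (L l143 (T t945 (L l125 (L l143 (T t944 (K a22 (M a23 (F (T t2213 (L l18 (L l51 (L l457 (T t1803 N))))))) (K a23 (M a22 (L l349 (F (T t2678 (L l49 (L l50 (L l143 (T t945 (L l125 (L l143 (T t944 (K a151 (M a215 (F (T t2678 (L l49 (L l50 (L l143 (L l493 (T t945 (L l125 (L l143 (T t944 N))))))))))) (K a215 (M a151 (F (T t2678 (L l143 (L l277 (T t3610 N)))))) N))))))))))))) N)))))))))))) (K a149 (M a16 (F (T t112 (L l367 (T t173 (L l93 (L l170 (T t102 N)))))))) (K a213 (Fr a170 a255 l476 (Fr a42 a21 l68 (Fr a106 a234 l390 (Fr a192 a149 l519 (V t581)))))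 (K a42 (M a48 (F (L l14 (L l475 (T t364 (L l143 (L l390 (T t50 (L l28 (L l143 (L l367 (T t100 N)))))))))))) (K a106 (M a48 (F (L l11 (T t1 (L l104 (L l367 (T t509 (L l143 (L l390 (T t50 N)))))))))) (K a170 (M a16 (F (L l390 (L l404 (T t97 (L l367 (L l390 (T t98 (L l143 (L l367 (L l404 (T t113 (L l367 (L l404 (T t174 N))))))))))))))) (K a255 (M a3 (F (L l11 (L l434 (T t358 (L l296 (T t3611 (L l261 (L l296 (T t3612 (L l261 (L l296 (T t3613 N))))))))))))) N))))))))))))))))))⟩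
def e0_63__87_16 : Ent 4 := ⟨[a0, a63], [a87, a22], (M a85 (F (T t90 (L l66 (T t88 (L l11 (L l143 (L l475 (T t52 (L l66 (T t89 (K a64 (M a240 (F (T t933 (L l66 (L l93 (T t387 N)))))) (K a192 (M a16 (F (T t1924 (L l66 (L l339 (T t97 (L l66 (L l296 (L l367 (T t98 N)))))))))) (K a21 (M a60 (L l11 (F (T t3040 (L l65 (L l143 (L l349 (T t523 (L l143 (T t114 (K a20 (M a23 (F (L l143 (T t114 (L l66 (L l346 (L l348 (T t3614 (L l346 (T t3615 (L l66 (T t3616 (L l66 (L l346 (T t3617 (L l66 (L l348 (T t3618 N)))))))))))))))))) (K a23 (Fr a20 a40 l64 (V t3619)) N)))))))))))) (K a149 (M a16 (F (L l367 (T t173 (L l66 (L l375 (T t97 (L l16 (L l66 (L l93 (L l170 (T t102 N)))))))))))) (K a213 (Fr a170 a255 l476 (Fr a42 a21 l68 (Fr a106 a234 l390 (Fr a192 a149 l519 (V t581))))) (K a42 (M a62 (F (L l22 (L l349 (T t3620 (L l143 (L l390 (T t1694 (L l22 (L l143 (L l349 (T t1695 (L l11 (L l390 (T t3621 N))))))))))))))) (K a106 (M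 a48 (F (L l11 (T t1 (L l104 (L l367 (T t509 (L l143 (L l390 (T t50 N)))))))))) (K a170 (M a16 (F (L l66 (L l390 (L l404 (T t97 (L l143 (L l367 (L l404 (T t113 (L l66 (L l367 (L l390 (T t98 (L l367 (L l404 (T t174 N))))))))))))))))) (K a255 (M a17 (L l475 (F (L l66 (T t3084 (L l143 (L l290 (T t2281 (L l66 (L l290 (L l296 (T t2205 (K a3 (M a171 (L l69 (F (L l66 (T t3084 (L l143 (L l290 (T t2281 (L l66 (L l290 (L l296 (T t2205 (K a60 (M a41 (L l434 (F (L l143 (L l290 (T t2281 (L l45 (L l51 (L l66 (T t3622 (K a125 (M a190 (F (L l290 (T t3623 (L l45 (L l51 (L l66 (L l431 (T t3622 N))))))))) (K a190 (M a125 (F (L l143 (L l290 (T t2281 (L l45 (L l51 (L l66 (T t3622 N))))))))) N)))))))))))) (K a41 (M a60 (F (L l290 (T t3624 (L l45 (L l48 (L l66 (L l440 (T t3625 (L l22 (L l65 (L l143 (L l295 (L l349 (T t523 N))))))))))))))) N)))))))))))))) (K a171 (M a3 (F (L l439 (T t3626 (L l66 (L l290 (L l296 (T t2205 (L l143 (L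 l290 (T t2281 N))))))))))) N)))))))))))))) N))))))))))))))))))))⟩
def e0_63__87_17 : Ent 4 := ⟨[a0, a63], [a87, a23], (M a48 (L l349 (F (T t2 (L l11 (T t1 (L l11 (T t3 (L l17 (T t0 (K a16 (M a60 (L l349 (F (T t64 (L l11 (L l18 (L l475 (T t68 (L l11 (L l18 (T t194 (K a151 (M a215 (F (T t42 (L l11 (L l18 (L l475 (T t68 (L l11 (L l18 (T t194 N)))))))))) (K a215 (M a151 (F (T t70 (L l143 (L l295 (L l350 (L l475 (T t3627 N)))))))) N))))))))))))) (K a32 (M a60 (L l349 (F (T t64 (L l11 (L l475 (T t68 (L l11 (T t194 (K a151 (M a215 (F (T t42 (L l11 (L l475 (T t68 (L l11 (T t194 N)))))))) (K a215 (M a151 (F (T t70 (L l143 (L l295 (L l350 (L l475 (T t3627 N)))))))) N))))))))))) (K a21 (M a85 (L l11 (L l349 (F (T t873 (L l47 (L l143 (L l367 (T t100 (L l143 (T t50 (K a20 (M a22 (L l349 (F (T t873 (L l47 (L l143 (L l367 (T t100 (L l143 (T t50 (K a151 (M a215 (F (T t873 (L l47 (L l143 (L l367 (T t100 (L l143 (T t50 N)))))))))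 (K a215 (M a151 (F (T t873 (L l143 (T t3628 (L l143 (T t50 N))))))) N)))))))))))) (K a22 (M a20 (L l349 (F (T t3629 (L l47 (L l143 (L l367 (T t100 (K a151 (Fr a215 a150 l350 (V t360)) (K a215 (M a151 (F (T t873 (L l47 (L l65 (T t239 N)))))) N)))))))))) (K a151 (M a215 (L l11 (F (T t3630 (L l47 (L l143 (L l367 (T t100 (K a20 (M a22 (F (T t873 (L l47 (L l143 (L l367 (T t100 (L l143 (T t50 N))))))))) (K a22 (Fr a20 a150 l350 (V t360)) N)))))))))) (K a215 (M a151 (L l11 (F (T t873 (L l143 (L l295 (L l475 (T t3313 (L l47 (L l143 (L l245 (L l367 (T t100 (K a20 (M a22 (F (T t873 (L l143 (T t3628 (L l143 (T t50 N))))))) (K a22 (M a20 (F (T t873 (L l47 (L l65 (T t239 N)))))) N))))))))))))))) N))))))))))))))) (K a37 (M a154 (L l349 (F (T t526 (L l28 (L l367 (L l475 (T t327 (L l28 (L l47 (L l367 (T t527 (K a151 (M a215 (F (T t3195 (L l11 (L l28 (L l367 (T t3631 N))))))) (K a215 (M a151 (F (T t3195 (L l28 (L l143 (L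 l245 (T t3632 N))))))) N)))))))))))))) (K a53 (M a85 (L l349 (F (T t88 (L l367 (L l475 (T t99 (L l367 (T t568 (K a151 (M a215 (F (T t89 (T t3633 N)))) (K a215 (M a151 (F (T t873 (L l143 (L l239 (T t3634 N)))))) N))))))))))) (K a26 (M a85 (L l349 (F (T t90 (L l367 (T t509 (L l143 (L l367 (T t100 (K a151 (M a215 (F (T t3630 (L l143 (L l367 (T t100 N)))))) (K a215 (M a151 (F (T t873 (L l54 (L l143 (L l239 (T t3634 N))))))) N))))))))))) (K a42 (M a154 (L l349 (F (T t473 (L l28 (L l367 (L l475 (T t327 (L l28 (L l367 (T t527 (K a151 (M a215 (F (T t473 (L l11 (L l28 (L l367 (T t3631 N))))))) (K a215 (M a151 (F (T t3635 (L l28 (L l143 (L l245 (T t3632 N))))))) N))))))))))))) (K a58 (M a85 (L l349 (F (T t90 (L l367 (T t509 (L l54 (L l367 (T t568 (K a151 (M a215 (F (T t3630 (L l54 (L l367 (T t568 N)))))) (K a215 (M a151 (F (L l426 (T t873 (L l54 (L l143 (L l239 (T t3634 N)))))))) N))))))))))) (K a15 (M a85 (L l349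 (F (T t89 (L l367 (T t509 (L l143 (L l367 (T t100 (K a151 (M a215 (F (T t89 (T t3633 N)))) (K a215 (M a151 (F (T t1243 (L l143 (L l239 (T t3634 N)))))) N))))))))))) (K a151 (M a215 (F (T t2 (L l11 (T t1 (L l11 (T t3 (L l17 (L l373 (T t0 (K a16 (M a20 (F (T t3339 (L l163 (L l219 (L l475 (T t3636 N))))))) (K a32 (M a20 (F (L l24 (T t3339 (L l28 (L l163 (L l219 (L l475 (T t3636 N))))))))) (K a21 (M a20 (F (T t803 (L l163 (L l367 (L l475 (T t3637 (T t3339 N)))))))) (K a37 (M a20 (F (T t3638 (L l47 (L l143 (L l163 (L l475 (T t3639 N)))))))) (K a53 (M a20 (F (T t803 (L l163 (L l219 (L l475 (T t3636 N))))))) (K a26 (M a20 (F (T t805 (L l54 (L l163 (L l219 (L l475 (T t3636 N)))))))) (K a42 (M a154 (F (T t473 (L l11 (L l28 (L l367 (T t3631 N))))))) (K a58 (M a20 (F (T t1201 (L l54 (L l163 (L l219 (L l475 (T t3636 N)))))))) (K a15 (M a20 (F (T t183 (L l163 (L l219 (L l469 (L l475 (T t3636 N)))))))) N)))))))))))))))))))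 (K a215 (M a151 (F (T t2 (L l143 (T t3628 (K a16 (M a192 (F (T t206 (L l143 (L l475 (T t3640 N)))))) (K a32 (M a192 (F (T t206 (L l143 (L l475 (T t3640 N)))))) N))))))) N)))))))))))))))))))))⟩
def e0_63__87_18 : Ent 4 := ⟨[a0, a63], [a87, a24], (M a85 (F (T t88 (L l143 (L l475 (T t52 (T t89 (T t90 (K a64 (M a16 (F (T t97 (L l84 (L l367 (T t96 (L l116 (L l367 (T t98 N))))))))) (K a192 (M a16 (F (T t112 (L l367 (T t96 (L l296 (L l367 (T t98 N)))))))) (K a21 (M a48 (F (T t873 (L l47 (L l143 (L l367 (T t100 (L l143 (T t50 N))))))))) (K a149 (M a16 (F (T t112 (L l367 (T t173 (L l12 (L l93 (L l170 (L l356 (T t102 N)))))))))) (K a213 (Fr a170 a255 l476 (Fr a42 a21 l68 (Fr a106 a234 l390 (Fr a192 a149 l519 (V t581))))) (K a42 (M a48 (F (L l14 (L l475 (T t364 (L l143 (L l390 (T t50 (L l28 (L l143 (L l367 (T t100 N)))))))))))) (K a106 (M a48 (F (T t1 (L l104 (L l367 (T t509 (L l143 (L l390 (T t50 N))))))))) (K a170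 (M a16 (F (L l390 (L l404 (T t97 (L l367 (L l390 (T t98 (L l143 (L l367 (L l404 (T t113 (L l367 (L l404 (T t174 N))))))))))))))) (K a255 (M a3 (F (T t1341 (L l143 (L l261 (L l349 (T t376 (L l261 (L l296 (T t357 (L l261 (L l296 (T t1921 N))))))))))))) N)))))))))))))))))⟩
def e0_63__87_19 : Ent 4 := ⟨[a0, a63], [a87, a25], (M a85 (F (T t90 (L l56 (T t88 (L l15 (L l143 (L l475 (T t52 (L l56 (T t89 (K a64 (M a240 (F (T t933 (L l56 (L l93 (T t387 N)))))) (K a192 (M a16 (F (T t1924 (L l56 (L l339 (T t97 (L l56 (L l296 (L l367 (T t98 N)))))))))) (K a21 (M a240 (L l15 (F (L l475 (T t1552 (T t933 (L l93 (L l143 (T t1385 (K a17 (M a29 (F (T t933 (T t3641 N)))) (K a29 (M a17 (F (T t3642 (L l93 (L l143 (T t1385 N)))))) N))))))))))) (K a149 (M a16 (F (L l367 (T t173 (L l56 (L l375 (T t97 (L l12 (L l56 (L l93 (L l170 (T t102 N)))))))))))) (K a213 (Fr a170 a255 l476 (Fr a42 a21 l68 (Fr a106 a234 l390 (Fr a192 a149 l519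 (V t581))))) (K a42 (M a59 (F (L l26 (T t3224 (L l125 (L l143 (L l390 (T t105 (L l26 (L l143 (T t106 (L l15 (L l390 (T t3225 N)))))))))))))) (K a106 (M a48 (F (L l15 (T t1 (L l104 (L l367 (T t509 (L l143 (L l390 (T t50 N)))))))))) (K a170 (M a16 (F (L l56 (L l390 (L l404 (T t97 (L l143 (L l367 (L l404 (T t113 (L l56 (L l367 (L l390 (T t98 (L l367 (L l404 (T t174 N))))))))))))))))) (K a255 (M a3 (F (L l56 (T t85 (L l143 (L l261 (L l349 (T t376 (L l56 (L l261 (L l296 (T t357 (L l56 (L l261 (L l296 (T t1921 N)))))))))))))))) N))))))))))))))))))))⟩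
def e0_63__87_20 : Ent 4 := ⟨[a0, a63], [a87, a26], (M a85 (F (T t90 (L l54 (T t88 (L l18 (L l143 (L l475 (T t52 (L l54 (T t89 (K a64 (M a204 (F (T t1575 (L l54 (L l125 (T t1576 N)))))) (K a192 (M a4 (F (T t2152 (L l54 (L l489 (T t519 (L l54 (L l296 (L l457 (T t131 N)))))))))) (K a21 (M a48 (L l18 (F (T t873 (L l47 (L l143 (L l367 (T t100 (L l143 (T t50 (K a16 (M a31 (F (L l54 (T t2029 (L l367 (T t2085 (L l54 (L l340 (T t3226 (L l54 (L l354 (T t3227 N)))))))))))) (K a31 (Fr a16 a32 l40 (V t3228)) N)))))))))))) (K a149 (M a4 (F (L l457 (T t1371 (L l54 (L l495 (T t519 (L l54 (L l72 (L l125 (L l202 (T t1372 N)))))))))))) (K a213 (Fr a170 a255 l476 (Fr a42 a21 l68 (Fr a106 a234 l390 (Fr a192 a149 l519 (V t581))))) (K a42 (M a58 (F (L l28 (L l367 (T t3229 (L l143 (L l390 (T t119 (L l28 (L l143 (L l367 (T t120 (L l18 (L l390 (T t3230 N))))))))))))))) (K a106 (M a12 (F (L l18 (T t122 (L l132 (L l457 (T t123 (L l143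 (L l390 (T t124 N)))))))))) (K a170 (M a4 (F (L l54 (L l390 (L l464 (T t519 (L l143 (L l457 (L l464 (T t130 (L l54 (L l390 (L l457 (T t131 (L l457 (L l464 (T t938 N))))))))))))))))) (K a255 (M a3 (F (L l54 (T t85 (L l143 (L l261 (L l349 (T t376 (L l54 (L l261 (L l296 (T t357 (L l54 (L l261 (L l296 (T t1921 N)))))))))))))))) N))))))))))))))))))))⟩
def e0_63__87_21 : Ent 4 := ⟨[a0, a63], [a87, a27], (M a85 (F (T t88 (L l143 (L l475 (T t52 (T t89 (T t90 (K a64 (M a240 (F (T t933 (L l93 (T t387 N))))) (K a192 (M a16 (F (T t112 (L l367 (T t96 (L l296 (L l367 (T t98 N)))))))) (K a21 (M a48 (F (T t873 (L l47 (L l143 (L l367 (T t100 (L l143 (T t50 N))))))))) (K a149 (M a16 (F (T t112 (L l367 (T t173 (L l12 (L l93 (L l170 (T t102 N))))))))) (K a213 (Fr a170 a255 l476 (Fr a42 a21 l68 (Fr a106 a234 l390 (Fr a192 a149 l519 (V t581))))) (K a42 (M a48 (F (L l475 (T t364 (L l143 (L l390 (T t50 (L l28 (L l143 (L l367 (T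 t100 N))))))))))) (K a106 (M a48 (F (T t48 (L l104 (L l367 (T t509 (L l143 (L l390 (T t50 N))))))))) (K a170 (M a16 (F (L l390 (L l404 (T t112 (L l367 (L l390 (T t98 (L l143 (L l367 (L l404 (T t113 (L l367 (L l404 (T t174 N))))))))))))))) (K a255 (M a3 (F (L l434 (T t665 (L l17 (L l143 (L l261 (L l349 (T t376 (L l261 (L l296 (T t357 (L l55 (L l261 (L l296 (T t1921 N)))))))))))))))) N)))))))))))))))))⟩
def e0_63__87_22 : Ent 4 := ⟨[a0, a63], [a87, a28], (M a85 (F (T t88 (L l143 (L l475 (T t52 (T t89 (T t90 (K a64 (M a240 (F (T t933 (L l93 (L l370 (T t387 N)))))) (K a192 (M a16 (F (T t1924 (L l13 (L l339 (T t97 (L l296 (L l362 (L l367 (T t98 N)))))))))) (K a21 (M a48 (F (T t873 (L l47 (L l143 (L l362 (L l367 (T t100 (L l143 (T t50 N)))))))))) (K a149 (M a16 (F (T t112 (L l362 (L l367 (T t173 (L l93 (L l170 (T t102 N))))))))) (K a213 (Fr a170 a255 l476 (Fr a42 a21 l68 (Fr a106 a234 l390 (Fr a192 a149 l519 (V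 t581))))) (K a42 (M a48 (F (L l14 (L l475 (T t364 (L l143 (L l390 (T t50 (L l28 (L l143 (L l362 (L l367 (T t100 N))))))))))))) (K a106 (M a48 (F (T t1 (L l104 (L l362 (L l367 (T t509 (L l143 (L l390 (T t50 N)))))))))) (K a170 (M a16 (F (L l390 (L l404 (T t112 (L l362 (L l367 (L l390 (T t98 (L l143 (L l362 (L l367 (L l404 (T t113 (L l362 (L l367 (L l404 (T t174 N)))))))))))))))))) (K a255 (M a3 (F (T t1341 (L l143 (L l261 (L l349 (T t376 (L l261 (L l296 (T t357 (L l261 (L l296 (T t1921 N))))))))))))) N)))))))))))))))))⟩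
def e0_63__87_23 : Ent 4 := ⟨[a0, a63], [a87, a29], (M a48 (F (T t2 (L l15 (T t1 (L l15 (T t3 (L l13 (T t0 (K a16 (M a60 (F (T t42 (L l14 (L l15 (L l18 (L l475 (T t67 (L l349 (T t65 N)))))))))) (K a32 (M a60 (F (T t42 (L l15 (L l475 (T t67 (L l24 (L l28 (L l349 (T t65 N)))))))))) (K a21 (M a192 (L l15 (F (T t837 (L l47 (L l347 (L l371 (T t20 (L l47 (L l347 (L l367 (L l371 (T t29 (K a17 (M a25 (F (T t27 (L l47 (L l347 (L l371 (T t20 (L l10 (L l18 (T t46 N)))))))))) (K a25 (M a17 (F (T t27 (L l347 (L l371 (T t242 N)))))) N))))))))))))))) (K a37 (M a192 (F (T t19 (L l47 (L l371 (T t20 (L l143 (L l371 (L l475 (T t21 N)))))))))) (K a53 (M a192 (F (T t19 (L l143 (L l371 (L l475 (L l491 (T t21 (T t31 N))))))))) (K a26 (M a192 (F (T t837 (L l371 (T t20 (L l143 (L l371 (L l475 (T t21 N))))))))) (K a42 (M a192 (F (T t19 (L l371 (T t20 (L l28 (L l367 (L l371 (T t29 N))))))))) (K a58 (M a192 (F (T t19 (L l143 (L l371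 (L l475 (T t21 (L l54 (L l498 (T t31 N)))))))))) (K a15 (M a192 (F (T t1922 (L l325 (L l371 (T t20 (L l143 (L l371 (L l469 (L l475 (T t21 N))))))))))) N))))))))))))))))))⟩
def e0_63__87_24 : Ent 4 := ⟨[a0, a63], [a87, a30], (M a85 (F (T t88 (L l143 (L l475 (T t52 (T t89 (T t90 (K a64 (M a240 (F (T t933 (L l93 (T t387 N))))) (K a192 (M a16 (F (T t112 (L l367 (T t96 (L l296 (L l367 (T t98 N)))))))) (K a21 (M a48 (F (T t873 (L l47 (L l143 (L l367 (T t100 (L l143 (T t50 N))))))))) (K a149 (M a16 (F (T t112 (L l367 (T t173 (L l16 (L l93 (L l170 (T t102 N))))))))) (K a213 (Fr a170 a255 l476 (Fr a42 a21 l68 (Fr a106 a234 l390 (Fr a192 a149 l519 (V t581))))) (K a42 (M a48 (F (L l475 (T t364 (L l143 (L l390 (T t50 (L l28 (L l143 (L l367 (T t100 N))))))))))) (K a106 (M a48 (F (T t48 (L l104 (L l367 (T t509 (L l143 (L l390 (T t50 N))))))))) (K a170 (M a16 (F (L l390 (L l404 (T t112 (L l367 (L l390 (T t98 (L l143 (L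 l367 (L l404 (T t113 (L l367 (L l404 (T t174 N))))))))))))))) (K a255 (M a3 (F (T t85 (L l143 (L l261 (L l349 (T t376 (L l261 (L l296 (T t357 (L l261 (L l296 (T t1921 N))))))))))))) N)))))))))))))))))⟩
def e0_63__87_25 : Ent 4 := ⟨[a0, a63], [a87, a31], (M a60 (F (T t662 (L l18 (L l475 (T t67 (L l17 (L l349 (L l475 (T t43 (L l18 (L l475 (T t68 (L l475 (T t69 (K a20 (M a48 (F (T t64 (L l11 (L l18 (T t1 (L l11 (L l18 (L l457 (T t235 N)))))))))) (K a40 (M a48 (F (L l18 (T t1 (T t64 (L l18 (L l52 (L l457 (T t235 N))))))))) (K a21 (M a48 (L l18 (F (T t70 (L l13 (T t248 (L l11 (L l47 (L l65 (T t249 (L l13 (L l50 (T t250 (K a16 (M a26 (F (L l47 (T t251 (L l11 (T t252 (T t70 N))))))) (K a26 (Fr a16 a32 l40 (V t253)) N))))))))))))))) (K a41 (M a192 (F (T t77 (L l18 (L l65 (L l375 (L l475 (T t35 (L l143 (L l375 (T t73 N))))))))))) (K a61 (M a192 (F (T t72 (L l18 (L l65 (L l375 (L l475 (L l515 (T t35 (L l349 (L l373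 (T t80 N)))))))))))) (K a22 (M a192 (F (T t72 (L l143 (L l375 (L l475 (T t21 (L l143 (L l375 (T t73 N)))))))))) (K a42 (M a192 (F (T t77 (L l143 (L l375 (T t73 (L l22 (L l143 (L l349 (L l375 (T t74 N))))))))))) (K a62 (M a192 (F (T t72 (L l18 (L l375 (L l475 (T t35 (L l66 (L l349 (L l373 (L l516 (T t80 N)))))))))))) (K a3 (M a255 (F (T t2132 (L l477 (T t1565 (L l87 (L l307 (T t1634 N)))))))) N))))))))))))))))))))))))⟩
def e0_63__87_26 : Ent 4 := ⟨[a0, a63], [a87, a40], (M a85 (F (L l22 (T t88 (L l143 (L l475 (T t52 (L l22 (T t89 (L l392 (T t90 (K a64 (M a240 (F (L l392 (T t933 (L l22 (L l93 (T t387 N))))))) (K a192 (M a16 (F (L l24 (L l367 (T t96 (L l22 (T t966 (L l22 (L l24 (L l339 (T t97 N))))))))))) (K a21 (M a48 (F (L l392 (T t873 (L l24 (L l47 (L l143 (L l367 (T t100 (L l143 (L l392 (T t50 N)))))))))))) (K a149 (M a16 (F (L l24 (L l367 (T t173 (L l22 (L l24 (L l375 (T t97 (L l22 (L l93 (L l170 (T t102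 N))))))))))))) (K a213 (Fr a170 a255 l476 (Fr a42 a21 l68 (Fr a106 a234 l390 (Fr a192 a149 l519 (V t581))))) (K a42 (M a48 (L l22 (F (L l475 (T t364 (L l143 (L l390 (L l392 (T t50 (L l24 (L l28 (L l143 (L l367 (T t100 (K a41 (M a43 (F (L l66 (L l349 (T t3643 (L l143 (L l390 (L l392 (T t50 N))))))))) (K a43 (M a41 (F (L l475 (T t365 (L l143 (L l390 (L l392 (T t50 (L l24 (L l28 (L l143 (L l367 (T t100 N))))))))))))) N)))))))))))))))) (K a106 (M a48 (F (T t1 (L l24 (L l104 (L l367 (T t509 (L l143 (L l390 (L l392 (T t50 N))))))))))) (K a170 (M a105 (F (L l143 (L l218 (T t669 (L l22 (L l390 (T t670 (L l143 (L l218 (L l349 (L l388 (T t3644 (L l22 (L l218 (L l390 (T t672 N))))))))))))))))) (K a255 (M a3 (F (L l22 (L l434 (T t665 (L l143 (L l261 (L l349 (L l388 (T t376 (L l261 (T t2226 (L l22 (L l261 (L l296 (T t3612 N)))))))))))))))) N))))))))))))))))))))⟩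
def e0_63__87_27 : Ent 4 := ⟨[a0, a63], [a87, a41], (M a192 (F (L l475 (T t202 (L l65 (L l143 (T t47 (L l143 (L l475 (T t21 (L l65 (L l475 (T t35 (L l22 (L l475 (T t37 (K a64 (M a48 (F (T t20 (L l65 (T t1 (L l22 (L l116 (L l144 (T t31 N))))))))) (K a128 (M a48 (F (T t22 (L l65 (T t1 (L l22 (T t31 N))))))) (K a21 (M a1 (F (T t1825 (L l22 (L l87 (L l143 (L l347 (T t3645 (L l22 (T t1827 N)))))))))) (K a85 (M a16 (L l87 (F (T t210 (L l22 (T t97 (L l22 (L l57 (L l94 (L l144 (T t211 (K a84 (M a86 (F (T t210 (L l347 (L l349 (T t3646 N)))))) (K a86 (M a84 (F (T t210 (L l22 (L l57 (L l92 (T t3647 N))))))) N))))))))))))) (K a149 (M a48 (F (T t837 (L l65 (L l347 (L l491 (T t1 (L l65 (L l170 (L l220 (L l347 (L l491 (T t213 (L l22 (L l375 (T t214 N)))))))))))))))) (K a42 (M a40 (F (T t1828 (L l65 (L l390 (L l475 (T t1829 (L l65 (T t1830 N))))))))) (K a106 (M a48 (F (T t27 (L l65 (T t1 (L l65 (L l411 (T t213 (L l22 (L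 l104 (L l144 (L l390 (L l498 (T t214 N)))))))))))))) (K a170 (M a32 (F (T t218 (L l65 (T t219 (L l25 (L l65 (L l180 (L l220 (T t220 N)))))))))) (K a255 (M a3 (F (T t3648 (L l261 (T t2069 (L l22 (L l65 (L l261 (T t2065 N))))))))) N)))))))))))))))))))))))))⟩
def e0_63__87_28 : Ent 4 := ⟨[a0, a63], [a87, a43], (M a48 (F (T t1 (L l22 (T t2 (L l27 (T t3 (L l22 (T t0 (K a16 (M a60 (F (T t64 (L l22 (L l475 (T t69 (L l22 (L l457 (T t268 N))))))))) (K a32 (M a60 (F (T t64 (L l22 (L l28 (L l475 (T t69 (L l22 (L l28 (L l457 (T t268 N))))))))))) (K a21 (M a192 (F (T t837 (L l47 (L l347 (T t20 (L l47 (L l347 (L l367 (T t29 N)))))))))) (K a37 (M a192 (F (T t19 (L l47 (T t20 (L l143 (L l475 (T t21 N)))))))) (K a53 (M a192 (F (T t19 (L l143 (L l475 (L l491 (T t21 (L l22 (L l393 (T t31 N)))))))))) (K a26 (M a192 (F (T t837 (T t20 (L l143 (L l475 (T t21 N))))))) (K a42 (M a192 (L l22 (F (T t19 (T t20 (L l28 (L l367 (T t29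 (K a40 (M a41 (F (T t27 (T t20 (L l390 (L l393 (T t46 N))))))) (K a41 (M a40 (F (T t27 (L l66 (L l390 (L l393 (T t269 N))))))) N)))))))))) (K a58 (M a192 (F (T t19 (L l143 (L l475 (T t21 (L l22 (L l54 (L l393 (L l498 (T t31 N))))))))))) (K a15 (M a192 (F (T t57 (L l483 (T t27 (L l325 (T t20 N))))))) N))))))))))))))))))⟩
def e0_63__87_29 : Ent 4 := ⟨[a0, a63], [a87, a44], (M a85 (F (T t88 (L l143 (L l475 (T t52 (T t89 (T t90 (K a64 (M a240 (F (T t933 (L l93 (T t387 N))))) (K a192 (M a16 (F (L l24 (T t112 (L l296 (L l367 (L l475 (T t666 (L l296 (L l367 (T t98 N))))))))))) (K a21 (M a48 (F (T t873 (L l24 (L l47 (L l143 (L l367 (T t100 (L l143 (T t50 N)))))))))) (K a149 (M a16 (F (L l24 (T t112 (L l367 (L l475 (T t666 (L l93 (L l170 (T t102 N)))))))))) (K a213 (Fr a170 a255 l476 (Fr a42 a21 l68 (Fr a106 a234 l390 (Fr a192 a149 l519 (V t581))))) (K a42 (M a48 (F (L l398 (L l475 (T t364 (L l143 (L l390 (T t50 (L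 l24 (L l28 (L l143 (L l367 (T t100 N))))))))))))) (K a106 (M a48 (F (T t1 (L l24 (L l104 (L l367 (T t509 (L l143 (L l390 (T t50 N)))))))))) (K a170 (M a16 (F (L l24 (L l390 (L l404 (T t97 (L l367 (L l390 (T t98 (L l24 (L l143 (L l367 (L l404 (T t113 (L l24 (L l367 (L l404 (T t174 N)))))))))))))))))) (K a255 (M a3 (F (T t85 (L l143 (L l261 (L l349 (T t376 (L l261 (L l296 (T t357 (L l261 (L l296 (T t1921 N))))))))))))) N)))))))))))))))))⟩
def e0_63__87_30 : Ent 4 := ⟨[a0, a63], [a87, a45], (M a85 (F (T t88 (L l143 (L l475 (T t52 (T t89 (T t90 (K a64 (M a240 (F (T t933 (L l93 (T t387 N))))) (K a192 (M a16 (F (T t112 (L l367 (T t96 (L l296 (L l367 (T t98 N)))))))) (K a21 (M a48 (F (T t873 (L l47 (L l143 (L l367 (T t100 (L l143 (T t50 N))))))))) (K a149 (M a16 (F (T t112 (L l367 (T t173 (L l93 (L l170 (T t102 N)))))))) (K a213 (Fr a170 a255 l476 (Fr a42 a21 l68 (Fr a106 a234 l390 (Fr a192 a149 l519 (V t581)))))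 (K a42 (M a48 (F (L l475 (T t364 (L l143 (L l390 (T t50 (L l28 (L l143 (L l367 (T t100 N))))))))))) (K a106 (M a48 (F (T t48 (L l104 (L l367 (T t509 (L l143 (L l390 (T t50 N))))))))) (K a170 (M a16 (F (L l390 (L l404 (T t112 (L l367 (L l390 (T t98 (L l143 (L l367 (L l404 (T t113 (L l367 (L l404 (T t174 N))))))))))))))) (K a255 (M a3 (F (T t85 (L l143 (L l261 (L l349 (T t376 (L l261 (L l296 (T t357 (L l261 (L l296 (T t1921 N))))))))))))) N)))))))))))))))))⟩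
def e0_63__87_31 : Ent 4 := ⟨[a0, a63], [a87, a46], (M a149 (F (T t175 (L l26 (T t5 (L l26 (L l475 (T t176 (L l408 (L l475 (T t177 (K a192 (M a53 (F (L l26 (T t178 (L l236 (T t179 (L l26 (L l236 (L l296 (T t180 N)))))))))) (K a21 (M a48 (F (T t4 (L l408 (T t13 (L l18 (T t14 N))))))) (K a85 (M a16 (L l87 (F (L l26 (T t97 (L l144 (L l408 (T t190 (L l26 (L l94 (T t278 (K a84 (M a86 (F (T t1213 (L l26 (L l346 (T t621 N)))))) (K a86 (M a84 (F (L l26 (T t97 (L l142 (L l144 (L l145 (L l350 (L l408 (T t3649 N)))))))))) N))))))))))))) (K a213 (Fr a106 a192 l519 (Fr a42 a21 l68 (Fr a170 a234 l390 (Fr a255 a85 l476 (V t582))))) (K a42 (M a34 (F (T t279 (L l390 (L l408 (T t280 (L l56 (L l396 (T t281 (L l390 (L l396 (L l408 (L l475 (T t282 N)))))))))))))) (K a106 (M a166 (F (L l132 (T t283 (L l26 (L l390 (L l457 (T t284 (L l132 (L l396 (L l457 (T t285 (L l26 (L l132 (L l390 (L l457 (L l475 (T t286 N))))))))))))))))))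 (K a170 (M a48 (F (T t4 (L l462 (T t1 (L l390 (L l408 (T t13 N)))))))) (K a191 (M a16 (F (L l26 (T t97 (L l408 (T t190 (L l26 (L l213 (L l367 (T t191 N)))))))))) (K a255 (M a3 (F (T t1265 (L l26 (L l434 (T t137 (L l143 (L l295 (L l408 (T t1883 N)))))))))) N))))))))))))))))))))⟩
def e0_63__87_32 : Ent 4 := ⟨[a0, a63], [a87, a47], (M a149 (F (T t175 (L l28 (T t5 (L l28 (L l475 (T t176 (L l411 (L l475 (T t177 (K a192 (M a29 (F (L l23 (L l28 (T t956 (L l23 (L l272 (T t641 (L l28 (L l272 (L l296 (T t957 N)))))))))))) (K a21 (M a48 (F (T t4 (L l411 (T t13 (L l18 (L l397 (T t14 N)))))))) (K a85 (M a48 (L l87 (F (T t4 (L l28 (L l455 (T t2 (L l144 (L l411 (T t13 (K a84 (M a86 (F (T t11 (L l27 (L l28 (L l346 (T t621 N))))))) (K a86 (M a84 (F (T t11 (L l28 (L l126 (L l369 (T t3650 N))))))) N)))))))))))) (K a213 (Fr a106 a192 l519 (Fr a42 a21 l68 (Fr a170 a234 l390 (Fr a255 a85 l476 (V t582))))) (K a42 (M a32 (F (T t983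 (L l390 (L l411 (T t984 (L l54 (L l397 (T t985 (L l390 (L l397 (L l411 (L l475 (T t986 N)))))))))))))) (K a106 (M a165 (F (L l28 (L l390 (T t988 (L l130 (L l397 (T t989 (L l28 (L l130 (L l390 (L l475 (T t990 (L l93 (L l130 (T t987 N)))))))))))))))) (K a170 (M a12 (F (T t991 (L l402 (T t122 (L l390 (L l411 (T t648 N)))))))) (K a191 (M a144 (F (L l411 (T t992 (L l28 (L l213 (L l367 (T t993 (L l411 (T t994 N)))))))))) (K a255 (M a3 (F (L l27 (T t1265 (L l349 (L l434 (T t353 (L l143 (L l295 (L l411 (T t1883 N))))))))))) N))))))))))))))))))))⟩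
def e0_63__87_33 : Ent 4 := ⟨[a0, a63], [a87, a60], (M a48 (F (T t48 (L l63 (T t1 (L l63 (T t2 (L l63 (T t3 (L l63 (T t0 (K a16 (M a85 (F (T t89 (L l143 (L l442 (T t50 (T t51 N))))))) (K a32 (M a85 (F (L l28 (T t89 (L l143 (L l404 (L l442 (T t50 (L l28 (T t51 N)))))))))) (K a21 (M a192 (F (T t54 (L l442 (T t27 (L l47 (L l347 (L l367 (T t29 N))))))))) (K a37 (M a192 (F (T t54 (L l442 (T t27 (L l143 (L l434 (L l475 (T t21 N))))))))) (K a53 (M a192 (F (T t1681 (L l442 (T t27 (T t31 N)))))) (K a26 (M a192 (F (T t56 (L l442 (T t27 (L l143 (L l434 (L l475 (T t21 N))))))))) (K a42 (M a192 (F (T t56 (L l442 (T t27 (L l28 (L l367 (T t29 N)))))))) (K a58 (M a192 (F (T t57 (L l442 (T t27 (L l54 (L l498 (T t31 N)))))))) (K a15 (M a106 (L l63 (F (T t2289 (T t306 (K a45 (M a30 (F (T t2289 (T t306 N)))) (K a30 (M a45 (F (T t2289 (T t306 N)))) N))))))) N))))))))))))))))))))⟩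
def e0_63__87_34 : Ent 4 := ⟨[a0, a63], [a87, a61], (M a48 (F (T t2 (L l35 (L l65 (T t1 (L l65 (T t3 (T t0 (K a16 (M a85 (F (T t89 (L l143 (T t50 (T t51 N)))))) (K a32 (M a85 (F (L l28 (T t89 (L l143 (L l404 (T t50 (L l28 (T t51 N))))))))) (K a21 (M a192 (L l65 (F (T t837 (L l35 (L l47 (L l347 (L l515 (T t20 (L l35 (L l47 (L l347 (L l367 (L l515 (T t29 (K a1 (M a41 (F (T t27 (L l35 (L l47 (L l347 (L l515 (T t20 (L l18 (T t46 N)))))))))) (K a41 (M a1 (F (T t206 (T t3651 N)))) N))))))))))))))))) (K a37 (M a192 (F (T t19 (L l35 (L l47 (L l515 (T t20 (L l143 (L l475 (L l515 (T t21 N))))))))))) (K a53 (M a49 (F (T t297 (L l367 (T t296 (L l31 (L l47 (L l59 (L l65 (T t298 (L l59 (T t299 N)))))))))))) (K a26 (M a192 (F (T t837 (L l35 (L l515 (T t20 (L l143 (L l475 (L l515 (T t21 N)))))))))) (K a42 (M a192 (F (T t19 (L l35 (L l515 (T t20 (L l28 (L l35 (L l367 (L l515 (T t29 N))))))))))) (K a58 (M a192 (F (T t19 (L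 l143 (L l475 (L l515 (T t21 (L l54 (L l498 (T t31 N)))))))))) (K a15 (M a192 (F (T t1681 (L l483 (T t27 (L l35 (L l325 (L l515 (T t20 N))))))))) N))))))))))))))))))⟩
def e0_63__87_35 : Ent 4 := ⟨[a0, a63], [a87, a62], (M a48 (F (T t1 (L l36 (L l66 (T t2 (T t3 (L l66 (T t0 (K a16 (M a85 (F (T t90 (L l143 (T t50 (L l36 (L l66 (T t51 N)))))))) (K a32 (M a85 (F (L l475 (T t255 (L l143 (L l404 (T t50 (L l28 (L l36 (L l66 (T t51 N))))))))))) (K a21 (M a192 (F (T t837 (L l47 (L l347 (T t20 (L l47 (L l347 (L l367 (T t29 N)))))))))) (K a37 (M a192 (F (T t19 (L l47 (T t20 (L l143 (L l475 (T t21 N)))))))) (K a53 (M a192 (F (T t19 (L l143 (L l475 (L l491 (T t21 (L l66 (L l516 (T t31 N)))))))))) (K a26 (M a192 (F (T t837 (T t20 (L l143 (L l475 (T t21 N))))))) (K a42 (M a192 (L l66 (F (T t19 (T t20 (L l28 (L l367 (T t29 (K a2 (M a22 (F (T t27 (T t20 (L l390 (L l516 (T t46 N))))))) (K a22 (M a2 (F (T t19 (L l390 (L l516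 (T t1365 N)))))) N)))))))))) (K a58 (M a50 (F (T t301 (L l54 (L l60 (L l66 (T t302 (T t303 N)))))))) (K a15 (M a192 (F (T t57 (L l483 (T t27 (L l325 (T t20 N))))))) N))))))))))))))))))⟩
def e0_63__87_36 : Ent 4 := ⟨[a0, a63], [a87, a64], (M a48 (F (T t1 (T t2 (T t3 (T t0 (K a16 (M a60 (F (T t64 (L l14 (L l18 (L l475 (T t67 (L l349 (T t65 N))))))))) (K a32 (M a60 (F (T t64 (L l475 (T t67 (L l24 (L l28 (L l349 (T t65 N))))))))) (K a21 (M a101 (F (T t687 (L l18 (T t334 (L l18 (T t314 N))))))) (K a37 (M a52 (F (T t82 (T t83 (L l21 (L l28 (T t84 N))))))) (K a53 (M a12 (F (T t151 (T t443 (L l47 (T t146 N)))))) (K a26 (M a56 (F (T t133 (T t134 (L l12 (L l18 (T t135 N))))))) (K a42 (M a101 (F (T t333 (T t334 (L l54 (T t314 N)))))) (K a58 (M a12 (F (T t443 (T t122 (T t146 N))))) (K a15 (M a4 (F (T t129 (L l63 (T t528 (T t520 N)))))) N)))))))))))))))⟩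
def e0_63__87_37 : Ent 4 := ⟨[a0, a63], [a87, a65], (M a48 (F (T t1 (T t2 (T t3 (T t0 (K a16 (M a60 (F (T t64 (L l14 (L l18 (L l475 (T t67 (L l349 (T t65 N))))))))) (K a32 (M a60 (F (T t64 (L l475 (T t67 (L l24 (L l28 (L l349 (T t65 N))))))))) (K a21 (M a192 (F (T t28 (L l47 (L l347 (T t20 (L l47 (L l347 (L l367 (T t29 N)))))))))) (K a37 (M a192 (F (T t19 (L l47 (T t20 (L l143 (L l475 (T t21 N)))))))) (K a53 (M a192 (F (T t19 (L l143 (L l475 (L l491 (T t21 (T t31 N)))))))) (K a26 (M a192 (F (T t28 (T t20 (L l143 (L l475 (T t21 N))))))) (K a42 (M a192 (F (T t19 (T t20 (L l28 (L l367 (T t29 N))))))) (K a58 (M a192 (F (T t19 (L l143 (L l475 (T t21 (L l54 (L l498 (T t31 N))))))))) (K a15 (M a192 (F (T t57 (L l483 (T t27 (L l325 (T t20 N))))))) N)))))))))))))))⟩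
def e0_63__87_38 : Ent 4 := ⟨[a0, a63], [a87, a66], (M a48 (F (T t1 (T t2 (T t3 (T t0 (K a16 (M a60 (F (T t64 (L l14 (L l18 (L l309 (L l475 (T t67 (L l349 (T t65 N)))))))))) (K a32 (M a60 (F (T t64 (L l309 (L l475 (T t67 (L l24 (L l28 (L l349 (T t65 N)))))))))) (K a21 (M a192 (F (T t28 (L l47 (L l347 (T t20 (L l47 (L l347 (L l367 (T t29 N)))))))))) (K a37 (M a192 (F (T t19 (L l47 (T t20 (L l143 (L l475 (T t21 N)))))))) (K a53 (M a192 (F (T t19 (L l143 (L l475 (L l491 (T t21 (L l142 (T t31 N))))))))) (K a26 (M a192 (F (T t28 (T t20 (L l143 (L l475 (T t21 N))))))) (K a42 (M a192 (F (T t19 (T t20 (L l28 (L l367 (T t29 N))))))) (K a58 (M a192 (F (T t19 (L l143 (L l475 (T t21 (L l54 (L l142 (L l498 (T t31 N)))))))))) (K a15 (M a192 (F (T t57 (L l483 (T t27 (L l325 (T t20 N))))))) N)))))))))))))))⟩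
def e0_63__87_39 : Ent 4 := ⟨[a0, a63], [a87, a67], (M a48 (L l143 (F (T t1 (T t2 (T t3 (T t0 (K a16 (M a60 (L l143 (F (T t64 (L l14 (L l18 (L l307 (L l475 (T t67 (L l349 (T t65 (K a107 (M a127 (F (T t70 (L l76 (T t1158 N))))) (K a127 (M a107 (F (T t451 (L l76 (L l145 (L l349 (L l475 (T t1159 N)))))))) N))))))))))))) (K a32 (M a60 (L l143 (F (T t64 (L l307 (L l475 (T t67 (L l24 (L l28 (L l349 (T t65 (K a107 (M a127 (F (T t70 (L l76 (L l404 (T t1158 N)))))) (K a127 (M a107 (F (T t451 (L l76 (L l145 (L l349 (L l475 (T t1159 N)))))))) N))))))))))))) (K a21 (M a255 (L l143 (F (T t1160 (L l87 (L l347 (T t547 (L l47 (L l367 (T t548 (K a107 (Fr a127 a191 l433 (V t1161)) (K a127 (M a107 (F (T t1162 (L l109 (L l349 (T t1163 (L l349 (T t1164 N)))))))) N)))))))))))) (K a37 (M a255 (L l143 (F (T t1160 (L l76 (T t1165 (L l87 (T t547 (K a107 (Fr a127 a191 l433 (V t1161)) (K a127 (M a107 (F (L l349 (T t1166 (L l47 (L l87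 (L l114 (L l144 (T t1167 N))))))))) N)))))))))) (K a53 (M a12 (L l143 (F (T t151 (T t443 (L l47 (T t146 (K a107 (M a127 (F (T t445 (L l85 (T t1168 N))))) (K a127 (M a107 (F (T t151 (L l349 (T t1164 N))))) N))))))))) (K a26 (M a255 (L l143 (F (T t1169 (L l76 (T t1165 (L l87 (T t547 (K a107 (Fr a127 a191 l433 (V t1161)) (K a127 (M a107 (F (T t1162 (L l109 (L l349 (T t1163 (L l349 (T t1164 N)))))))) N)))))))))) (K a42 (M a255 (L l143 (F (T t1169 (L l87 (T t547 (L l28 (L l367 (L l390 (T t548 (K a107 (Fr a127 a191 l433 (V t1161)) (K a127 (M a107 (F (L l390 (T t1162 (L l349 (T t1164 (L l109 (L l349 (L l390 (T t1163 N)))))))))) N)))))))))))) (K a58 (M a12 (L l143 (F (T t443 (T t122 (T t146 (K a107 (M a127 (F (T t445 (L l85 (T t1168 N))))) (K a127 (M a107 (F (T t122 (L l349 (T t1164 N))))) N)))))))) (K a15 (M a192 (L l143 (F (T t57 (L l121 (L l483 (T t27 (L l325 (T t20 (K a107 (M a127 (F (T t1170 (L l121 (L l483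 (T t1171 N)))))) (K a127 (M a107 (F (T t36 (L l63 (L l349 (T t1172 N)))))) N))))))))))) (K a107 (M a127 (F (T t2 (L l121 (T t1171 (L l76 (T t1158 N))))))) (K a127 (M a107 (F (T t2 (L l76 (L l121 (L l349 (T t1173 (K a16 (M a192 (F (T t20 (L l76 (L l307 (L l349 (L l475 (T t1174 N)))))))) (K a32 (M a192 (F (T t20 (L l76 (L l307 (L l349 (L l475 (T t1174 N)))))))) N))))))))) N))))))))))))))))))⟩
def e0_63__87_40 : Ent 4 := ⟨[a0, a63], [a87, a68], (M a48 (F (T t1 (T t2 (T t3 (T t0 (K a16 (M a60 (F (T t64 (L l14 (L l18 (L l475 (T t67 (L l349 (T t65 N))))))))) (K a32 (M a60 (F (T t64 (L l475 (T t67 (L l24 (L l28 (L l349 (T t65 N))))))))) (K a21 (M a192 (F (T t28 (L l47 (L l347 (T t20 (L l47 (L l347 (L l367 (T t29 N)))))))))) (K a37 (M a192 (F (T t19 (L l47 (T t20 (L l143 (L l475 (T t21 N)))))))) (K a53 (M a192 (F (T t19 (L l143 (L l475 (L l491 (T t21 (T t31 N)))))))) (K a26 (M a192 (F (T t28 (T t20 (L l143 (L l475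 (T t21 N))))))) (K a42 (M a192 (F (T t19 (T t20 (L l28 (L l367 (T t29 N))))))) (K a58 (M a192 (F (T t19 (L l143 (L l475 (T t21 (L l54 (L l498 (T t31 N))))))))) (K a15 (M a192 (F (T t57 (L l483 (T t27 (L l325 (T t20 N))))))) N)))))))))))))))⟩
def e0_63__87_41 : Ent 4 := ⟨[a0, a63], [a87, a69], (M a48 (F (T t1 (L l311 (T t2 (T t3 (T t0 (K a16 (M a60 (F (T t64 (L l14 (L l18 (L l475 (T t67 (L l311 (L l349 (T t65 N)))))))))) (K a32 (M a60 (F (T t64 (L l475 (T t67 (L l24 (L l28 (L l311 (L l349 (T t65 N)))))))))) (K a21 (M a192 (F (T t28 (L l47 (L l347 (T t20 (L l47 (L l347 (L l367 (T t29 N)))))))))) (K a37 (M a192 (F (T t19 (L l47 (T t20 (L l143 (L l475 (T t21 N)))))))) (K a53 (M a192 (F (T t19 (L l143 (L l475 (L l491 (T t21 (T t31 N)))))))) (K a26 (M a192 (F (T t28 (T t20 (L l143 (L l475 (T t21 N))))))) (K a42 (M a192 (F (T t19 (T t20 (L l28 (L l367 (T t29 N))))))) (K a58 (M a192 (F (T t19 (L l143 (L l475 (T t21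 (L l54 (L l498 (T t31 N))))))))) (K a15 (M a192 (F (T t57 (L l483 (T t27 (L l325 (T t20 N))))))) N))))))))))))))))⟩
def e0_63__87_42 : Ent 4 := ⟨[a0, a63], [a87, a70], (M a85 (F (T t88 (L l143 (L l475 (T t52 (T t89 (T t90 (K a64 (M a240 (F (T t933 (L l93 (T t387 N))))) (K a192 (M a16 (F (T t112 (L l77 (L l367 (T t96 (L l296 (L l367 (T t98 N))))))))) (K a21 (M a48 (F (L l367 (T t261 (L l143 (T t50 (L l47 (L l143 (L l367 (T t100 N)))))))))) (K a149 (M a16 (F (T t112 (L l77 (L l367 (T t173 (L l93 (L l170 (T t102 N))))))))) (K a213 (Fr a170 a255 l476 (Fr a42 a21 l68 (Fr a106 a234 l390 (Fr a192 a149 l519 (V t581))))) (K a42 (M a48 (F (L l475 (T t364 (L l143 (L l390 (T t50 (L l28 (L l143 (L l367 (T t100 N))))))))))) (K a106 (M a48 (F (T t1 (L l77 (L l104 (L l367 (T t509 (L l143 (L l390 (T t50 N)))))))))) (K a170 (M a16 (F (L l390 (L l404 (T t97 (L l367 (L l390 (T t98 (L l143 (L l367 (L l404 (T t113 (L l367 (L l404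 (T t174 N))))))))))))))) (K a255 (M a3 (F (L l434 (T t358 (L l143 (L l261 (L l330 (L l349 (T t376 (L l261 (L l296 (L l330 (T t357 (L l261 (L l296 (T t1921 N)))))))))))))))) N)))))))))))))))))⟩
def e0_63__87_43 : Ent 4 := ⟨[a0, a63], [a87, a71], (M a85 (L l125 (F (T t88 (L l143 (L l475 (T t52 (T t89 (T t90 (K a64 (M a119 (F (T t2201 (L l77 (L l80 (T t2202 (L l143 (T t2203 N)))))))) (K a192 (M a17 (L l125 (F (T t2204 (L l334 (T t1279 (L l296 (T t2205 (K a103 (M a119 (F (T t2206 (T t2207 N)))) (K a119 (M a103 (F (L l296 (T t2205 (L l143 (L l313 (T t2208 N))))))) N)))))))))) (K a21 (M a207 (L l125 (F (T t2209 (L l143 (T t2057 (L l143 (T t2210 (K a103 (M a119 (F (T t2201 (T t2211 N)))) (K a119 (M a103 (F (L l313 (T t2212 (L l18 (T t2114 N)))))) N)))))))))) (K a149 (M a51 (L l125 (F (T t589 (L l77 (T t2213 (L l220 (L l457 (T t2214 (K a103 (M a119 (F (T t2215 (L l77 (T t2216 N))))) (K a119 (M a103 (F (T t1296 (L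 l77 (L l127 (L l367 (L l475 (L l491 (T t2217 N))))))))) N))))))))))) (K a213 (Fr a170 a255 l476 (Fr a42 a21 l68 (Fr a106 a234 l390 (Fr a192 a149 l519 (V t581))))) (K a42 (M a51 (L l125 (F (L l475 (T t2218 (L l26 (L l143 (T t945 (L l56 (L l390 (T t2219 (K a103 (M a119 (F (T t2215 (L l77 (T t2216 N))))) (K a119 (M a103 (F (L l367 (T t2220 (L l26 (L l475 (T t943 N))))))) N))))))))))))) (K a106 (M a48 (L l125 (F (T t1 (L l77 (L l104 (L l127 (L l367 (T t509 (L l143 (L l390 (T t50 (K a103 (M a119 (F (T t1 (L l77 (L l390 (T t2221 (L l403 (L l475 (L l498 (T t365 N)))))))))) (K a119 (M a103 (F (T t1 (L l104 (L l127 (L l367 (L l439 (L l475 (T t360 (L l107 (L l113 (L l143 (L l390 (T t50 N)))))))))))))) N)))))))))))))) (K a170 (M a51 (L l125 (F (T t589 (L l143 (L l402 (T t945 (L l390 (L l402 (T t1952 (L l208 (L l390 (T t2222 (K a103 (M a119 (F (L l402 (T t2223 (L l149 (L l457 (T t2224 N))))))) (K a119 (M a103 (F (L l313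 (T t2225 (L l390 (L l402 (T t1952 N))))))) N))))))))))))))) (K a255 (M a3 (L l125 (F (T t85 (L l143 (L l261 (L l349 (T t376 (L l261 (L l296 (T t357 (L l261 (L l296 (T t1921 (K a103 (M a119 (F (T t1341 (L l77 (L l296 (T t2202 (L l143 (L l261 (L l349 (T t376 N)))))))))) (K a119 (M a103 (L l439 (F (T t1341 (L l113 (L l143 (L l261 (L l349 (T t376 (L l127 (L l261 (T t2226 (L l261 (L l296 (T t1921 (K a51 (M a187 (F (T t85 (L l113 (L l143 (L l261 (L l349 (T t376 (L l127 (L l261 (T t2226 (L l261 (L l296 (L l441 (T t1921 N))))))))))))))) (K a187 (M a51 (F (T t85 (L l207 (L l295 (L l313 (L l367 (L l427 (T t3652 N))))))))) N))))))))))))))))) N)))))))))))))))) (K a103 (M a119 (F (T t89 (L l77 (T t2221 (L l77 (T t2202 N))))))) (K a119 (M a103 (F (T t88 (L l113 (L l143 (L l439 (L l475 (T t52 (T t89 (T t90 (K a64 (M a240 (F (T t933 (L l93 (T t387 N))))) (K a192 (M a4 (F (T t2152 (L l349 (T t2229 N))))) (K a21 (M a195 (F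 (T t2230 (L l143 (L l313 (L l331 (T t2231 N))))))) (K a149 (M a4 (F (L l220 (T t2152 (L l163 (L l349 (T t2229 N))))))) (K a213 (Fr a170 a255 l476 (Fr a42 a21 l68 (Fr a106 a234 l390 (Fr a192 a149 l519 (V t581))))) (K a42 (M a195 (F (T t2232 (L l56 (L l143 (L l313 (L l331 (T t2231 N)))))))) (K a106 (M a17 (F (L l367 (T t2233 (L l390 (T t2205 N)))))) (K a170 (M a17 (F (L l390 (T t2205 (L l143 (L l313 (L l402 (T t2208 N)))))))) (K a255 (M a3 (L l439 (F (T t1341 (L l113 (L l143 (L l261 (L l349 (T t376 (L l127 (L l261 (T t2226 (L l261 (L l296 (T t1921 (K a51 (M a187 (F (T t85 (L l113 (L l143 (L l261 (L l349 (T t376 (L l127 (L l261 (T t2226 (L l261 (L l296 (L l441 (T t1921 N))))))))))))))) (K a187 (M a51 (F (T t85 (L l207 (L l295 (L l313 (L l367 (L l427 (T t3652 N))))))))) N))))))))))))))))) N))))))))))))))))))) N))))))))))))))))))))⟩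
def e0_63__87_44 : Ent 4 := ⟨[a0, a63], [a87, a72], (M a48 (F (T t1 (T t2 (T t3 (T t0 (K a16 (M a60 (F (T t64 (L l14 (L l18 (L l475 (T t67 (L l349 (T t65 N))))))))) (K a32 (M a60 (F (T t64 (L l475 (T t67 (L l24 (L l28 (L l349 (T t65 N))))))))) (K a21 (M a192 (F (T t28 (L l47 (L l347 (T t20 (L l47 (L l347 (L l367 (T t29 N)))))))))) (K a37 (M a192 (F (T t19 (L l47 (T t20 (L l143 (L l475 (T t21 N)))))))) (K a53 (M a192 (F (T t19 (L l143 (L l475 (L l491 (T t21 (L l132 (T t31 N))))))))) (K a26 (M a192 (F (T t28 (T t20 (L l143 (L l475 (T t21 N))))))) (K a42 (M a192 (F (T t19 (T t20 (L l28 (L l367 (T t29 N))))))) (K a58 (M a192 (F (T t19 (L l143 (L l475 (T t21 (L l54 (L l132 (L l498 (T t31 N)))))))))) (K a15 (M a192 (F (T t57 (L l483 (T t27 (L l325 (T t20 N))))))) N)))))))))))))))⟩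
def e0_63__87_45 : Ent 4 := ⟨[a0, a63], [a87, a73], (M a85 (F (T t88 (L l143 (L l475 (T t52 (T t89 (T t90 (K a64 (M a240 (F (T t933 (L l93 (T t387 N))))) (K a192 (M a16 (F (T t112 (L l81 (L l367 (T t96 (L l296 (L l367 (T t98 N))))))))) (K a21 (M a48 (F (L l367 (T t261 (L l143 (T t50 (L l47 (L l143 (L l367 (T t100 N)))))))))) (K a149 (M a16 (F (T t112 (L l81 (L l367 (T t173 (L l93 (L l170 (T t102 N))))))))) (K a213 (Fr a170 a255 l476 (Fr a42 a21 l68 (Fr a106 a234 l390 (Fr a192 a149 l519 (V t581))))) (K a42 (M a48 (F (L l475 (T t364 (L l143 (L l390 (T t50 (L l28 (L l143 (L l367 (T t100 N))))))))))) (K a106 (M a48 (F (T t1 (L l81 (L l104 (L l367 (T t509 (L l143 (L l390 (T t50 N)))))))))) (K a170 (M a16 (F (L l390 (L l404 (T t97 (L l367 (L l390 (T t98 (L l143 (L l367 (L l404 (T t113 (L l367 (L l404 (T t174 N))))))))))))))) (K a255 (M a3 (F (T t85 (L l143 (L l261 (L l349 (T t376 (L l261 (L l296 (T t357 (L l261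 (L l296 (T t1921 N))))))))))))) N)))))))))))))))))⟩
def e0_63__87_46 : Ent 4 := ⟨[a0, a63], [a87, a74], (M a12 (F (T t122 (T t151 (T t152 (T t153 (K a4 (M a60 (F (T t570 (L l46 (L l50 (L l475 (T t67 (L l349 (T t448 N))))))))) (K a8 (M a60 (F (T t570 (L l475 (T t67 (L l52 (L l56 (L l349 (T t448 N))))))))) (K a21 (M a192 (F (T t156 (L l15 (L l347 (T t450 (L l15 (L l347 (L l457 (T t157 N)))))))))) (K a25 (M a192 (F (T t156 (L l15 (T t450 (L l143 (L l475 (T t21 N)))))))) (K a29 (M a192 (F (T t156 (L l143 (L l371 (L l475 (T t21 (L l78 (L l130 (T t160 N)))))))))) (K a38 (M a192 (F (T t156 (T t450 (L l143 (L l475 (T t21 N))))))) (K a42 (M a192 (F (T t156 (T t450 (L l56 (L l457 (T t157 N))))))) (K a46 (M a192 (F (T t156 (L l143 (L l475 (T t21 (L l26 (L l78 (L l130 (L l408 (T t160 N))))))))))) (K a51 (M a192 (F (T t161 (L l513 (T t156 (L l143 (L l439 (L l475 (T t21 N))))))))) N)))))))))))))))⟩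
def e0_63__87_47 : Ent 4 := ⟨[a0, a63], [a87, a75], (M a85 (F (T t88 (L l143 (L l475 (T t52 (T t89 (T t90 (K a64 (M a240 (F (T t933 (L l93 (T t387 N))))) (K a192 (M a16 (F (T t1924 (L l337 (L l339 (T t97 (L l296 (L l367 (T t98 N))))))))) (K a21 (M a48 (F (T t873 (L l47 (L l143 (L l367 (T t100 (L l143 (T t50 N))))))))) (K a149 (M a16 (F (T t112 (L l367 (T t173 (L l93 (L l170 (T t102 N)))))))) (K a213 (Fr a170 a255 l476 (Fr a42 a21 l68 (Fr a106 a234 l390 (Fr a192 a149 l519 (V t581))))) (K a42 (M a48 (F (L l475 (T t364 (L l143 (L l390 (T t50 (L l28 (L l143 (L l367 (T t100 N))))))))))) (K a106 (M a48 (F (T t48 (L l104 (L l367 (T t509 (L l143 (L l390 (T t50 N))))))))) (K a170 (M a16 (F (L l390 (L l404 (T t112 (L l367 (L l390 (T t98 (L l143 (L l367 (L l404 (T t113 (L l367 (L l404 (T t174 N))))))))))))))) (K a255 (M a3 (F (T t85 (L l143 (L l261 (L l349 (T t376 (L l261 (L l296 (T t357 (L l261 (L l296 (T t1921 N)))))))))))))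 N)))))))))))))))))⟩
def e0_63__87_48 : Ent 4 := ⟨[a0, a63], [a87, a76], (M a48 (F (T t1 (T t2 (T t3 (T t0 (K a16 (M a60 (F (T t64 (L l14 (L l18 (L l475 (T t67 (L l349 (T t65 N))))))))) (K a32 (M a60 (F (T t64 (L l475 (T t67 (L l24 (L l28 (L l349 (T t65 N))))))))) (K a21 (M a192 (F (T t28 (L l47 (L l347 (T t20 (L l47 (L l347 (L l367 (T t29 N)))))))))) (K a37 (M a192 (F (T t19 (L l47 (T t20 (L l138 (L l143 (L l475 (T t21 N))))))))) (K a53 (M a192 (F (T t19 (L l138 (L l143 (L l475 (L l491 (T t21 (T t31 N))))))))) (K a26 (M a192 (F (T t28 (T t20 (L l138 (L l143 (L l475 (T t21 N)))))))) (K a42 (M a192 (F (T t19 (T t20 (L l28 (L l367 (T t29 N))))))) (K a58 (M a192 (F (T t19 (L l138 (L l143 (L l475 (T t21 (L l54 (L l498 (T t31 N)))))))))) (K a15 (M a192 (F (T t57 (L l146 (L l483 (T t27 (L l325 (T t20 N)))))))) N)))))))))))))))⟩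
def e0_63__87_49 : Ent 4 := ⟨[a0, a63], [a87, a77], (M a85 (F (T t88 (L l143 (L l475 (T t52 (T t89 (T t90 (K a64 (M a240 (F (T t933 (L l93 (T t387 N))))) (K a192 (M a16 (F (T t112 (L l81 (L l147 (L l367 (T t96 (L l296 (L l367 (T t98 N)))))))))) (K a21 (M a48 (F (L l367 (T t935 (L l143 (T t50 (L l47 (L l143 (L l367 (T t100 N)))))))))) (K a149 (M a16 (F (T t112 (L l81 (L l326 (L l367 (T t173 (L l93 (L l170 (T t102 N)))))))))) (K a213 (Fr a170 a255 l476 (Fr a42 a21 l68 (Fr a106 a234 l390 (Fr a192 a149 l519 (V t581))))) (K a42 (M a48 (F (L l475 (T t364 (L l143 (L l390 (T t50 (L l28 (L l143 (L l367 (T t100 N))))))))))) (K a106 (M a48 (F (T t1 (L l81 (L l104 (L l147 (L l367 (T t509 (L l143 (L l390 (T t50 N))))))))))) (K a170 (M a16 (F (L l390 (L l404 (T t97 (L l367 (L l390 (T t98 (L l143 (L l367 (L l404 (T t113 (L l326 (L l367 (L l404 (T t174 N)))))))))))))))) (K a255 (M a3 (F (T t85 (L l143 (L l261 (L l349 (T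 t376 (L l261 (L l296 (T t357 (L l261 (L l296 (T t1921 N))))))))))))) N)))))))))))))))))⟩
def e0_63__87_50 : Ent 4 := ⟨[a0, a63], [a87, a78], (M a85 (F (T t88 (L l143 (L l475 (T t52 (T t89 (T t90 (K a64 (M a240 (F (T t933 (L l93 (T t387 N))))) (K a192 (M a16 (F (T t1924 (L l327 (L l339 (T t97 (L l296 (L l367 (T t98 N))))))))) (K a21 (M a48 (F (T t873 (L l47 (L l143 (L l367 (T t100 (L l143 (T t50 N))))))))) (K a149 (M a16 (F (T t112 (L l367 (T t173 (L l93 (L l170 (T t102 N)))))))) (K a213 (Fr a170 a255 l476 (Fr a42 a21 l68 (Fr a106 a234 l390 (Fr a192 a149 l519 (V t581))))) (K a42 (M a48 (F (L l475 (T t364 (L l143 (L l390 (T t50 (L l28 (L l143 (L l367 (T t100 N))))))))))) (K a106 (M a48 (F (T t48 (L l104 (L l367 (T t509 (L l143 (L l390 (T t50 N))))))))) (K a170 (M a16 (F (L l390 (L l404 (T t112 (L l367 (L l390 (T t98 (L l143 (L l367 (L l404 (T t113 (L l367 (L l404 (T t174 N))))))))))))))) (K a255 (M a3 (F (T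 t85 (L l143 (L l261 (L l349 (T t376 (L l261 (L l296 (T t357 (L l261 (L l296 (T t1921 N))))))))))))) N)))))))))))))))))⟩
def e0_63__87_51 : Ent 4 := ⟨[a0, a63], [a87, a79], (M a12 (F (T t122 (T t151 (T t152 (T t153 (K a4 (M a60 (F (T t570 (L l46 (L l50 (L l475 (T t67 (L l349 (T t448 N))))))))) (K a8 (M a60 (F (T t570 (L l475 (T t67 (L l52 (L l56 (L l349 (T t448 N))))))))) (K a21 (M a192 (F (T t468 (L l15 (L l347 (T t450 (L l15 (L l347 (L l457 (T t157 N)))))))))) (K a25 (M a192 (F (T t449 (L l15 (T t450 (L l137 (L l143 (L l475 (T t21 N))))))))) (K a29 (M a192 (F (T t449 (L l137 (L l143 (L l371 (L l475 (T t21 (T t160 N))))))))) (K a38 (M a192 (F (T t468 (T t450 (L l137 (L l143 (L l475 (T t21 N)))))))) (K a42 (M a192 (F (T t449 (T t450 (L l56 (L l457 (T t157 N))))))) (K a46 (M a192 (F (T t449 (L l137 (L l143 (L l475 (T t21 (L l26 (L l408 (T t160 N)))))))))) (K a51 (M a192 (F (T t57 (L l79 (L l513 (T t156 (L l415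 (T t450 N)))))))) N)))))))))))))))⟩
def e0_63__87_52 : Ent 4 := ⟨[a0, a63], [a87, a84], (M a85 (F (T t352 (L l143 (L l475 (T t52 (L l140 (T t89 (L l140 (T t90 (K a64 (M a240 (L l140 (F (T t933 (L l93 (T t387 (K a104 (M a124 (F (T t933 (L l93 (T t387 N))))) (K a124 (M a104 (F (T t3653 (L l84 (L l93 (T t3654 (T t933 N))))))) N)))))))) (K a192 (M a16 (F (T t112 (L l367 (T t96 (L l90 (L l296 (L l367 (T t98 N))))))))) (K a21 (M a48 (F (T t873 (L l47 (L l143 (L l367 (T t100 (L l143 (T t50 N))))))))) (K a149 (M a16 (F (T t112 (L l367 (T t173 (L l93 (L l170 (T t102 N)))))))) (K a213 (Fr a170 a255 l476 (Fr a42 a21 l68 (Fr a106 a234 l390 (Fr a192 a149 l519 (V t581))))) (K a42 (M a48 (F (L l364 (L l475 (T t364 (L l143 (L l390 (T t50 (L l28 (L l143 (L l367 (T t100 N)))))))))))) (K a106 (M a48 (F (T t1 (L l104 (L l367 (T t509 (L l143 (L l390 (T t50 N))))))))) (K a170 (M a16 (F (L l390 (L l404 (T t97 (L l90 (L l367 (L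 l390 (T t98 (L l143 (L l367 (L l404 (T t113 (L l367 (L l404 (T t174 N)))))))))))))))) (K a255 (M a3 (F (T t1341 (L l143 (L l261 (L l349 (T t376 (L l261 (L l296 (T t357 (L l261 (L l296 (L l346 (T t1921 N)))))))))))))) N)))))))))))))))))))⟩
def e0_63__87_53 : Ent 4 := ⟨[a0, a63], [a87, a85], (M a51 (L l87 (F (T t1294 (L l347 (L l365 (T t589 (L l458 (T t1296 (L l347 (T t592 (K a12 (M a192 (L l87 (F (L l482 (T t3253 (L l322 (L l347 (T t3254 (L l144 (L l365 (T t3255 (K a84 (M a86 (F (L l482 (T t3253 (L l9 (L l347 (L l475 (T t3655 N)))))))) (K a86 (M a84 (F (L l482 (T t3256 (L l459 (L l478 (T t3270 N))))))) N))))))))))))) (K a17 (M a16 (L l87 (L l365 (F (T t97 (T t3259 (L l458 (T t3260 (L l41 (L l458 (T t3261 (L l367 (T t3262 (K a84 (M a86 (L l365 (F (T t97 (T t3259 (L l41 (T t3263 (L l41 (L l454 (L l458 (T t3261 (L l367 (T t3262 (K a153 (M a221 (F (T t97 (L l501 (T t3259 (L l41 (L l509 (T t3263 (L l41 (L l454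 (L l458 (L l501 (L l509 (T t3261 (L l367 (T t3262 N)))))))))))))))) (K a221 (M a153 (F (T t97 (L l290 (L l359 (T t3273 N)))))) N))))))))))))))) (K a153 (M a221 (L l87 (F (T t97 (L l501 (T t3259 (L l41 (L l509 (T t3263 (L l41 (L l458 (L l501 (L l509 (T t3261 (L l367 (L l369 (T t3262 (K a84 (M a86 (F (T t97 (L l501 (T t3259 (L l41 (L l509 (T t3263 (L l41 (L l454 (L l458 (L l501 (L l509 (T t3261 (L l367 (T t3262 N)))))))))))))))) (K a86 (M a84 (L l369 (F (T t97 (L l205 (T t3258 (K a220 (M a19 (F (L l363 (T t97 (L l205 (L l459 (L l501 (T t3270 N)))))))) (K a19 (Fr a220 a152 l364 (V t97)) N)))))))) N))))))))))))))))))) (K a221 (M a153 (L l87 (F (T t97 (L l126 (L l341 (T t3272 (K a84 (M a86 (F (T t97 (L l290 (L l359 (T t3273 N)))))) (K a86 (M a84 (F (T t97 (L l124 (L l126 (T t3656 N)))))) N))))))))) (K a86 (M a84 (L l365 (F (T t97 (T t3258 (K a153 (M a221 (L l369 (F (T t97 (L l205 (T t3258 (K a220 (M a19 (F (L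 l363 (T t97 (L l205 (L l459 (L l501 (T t3270 N)))))))) (K a19 (Fr a220 a152 l364 (V t97)) N)))))))) (K a221 (M a153 (F (T t97 (L l124 (L l126 (T t3656 N)))))) N))))))) N))))))))))))))))) (K a21 (M a149 (L l87 (F (T t3274 (L l144 (T t3275 (L l15 (L l125 (L l126 (L l143 (L l144 (L l365 (T t3276 (L l15 (L l365 (T t3277 (K a84 (M a86 (F (T t3274 (L l11 (L l144 (L l349 (L l475 (T t1219 (L l50 (L l346 (L l367 (L l475 (T t3657 N))))))))))))) (K a86 (M a84 (F (T t3274 (L l459 (T t3270 (L l142 (L l144 (L l145 (L l477 (T t3658 N)))))))))) N)))))))))))))))))) (K a25 (M a192 (L l87 (F (T t3253 (L l347 (T t3254 (L l15 (L l56 (L l144 (L l365 (T t3255 (K a84 (M a86 (F (T t3253 (L l347 (L l475 (T t3655 N)))))) (K a86 (M a84 (F (T t3256 (L l56 (L l459 (T t3270 N)))))) N))))))))))))) (K a34 (M a48 (L l87 (F (T t590 (L l347 (T t1 (L l26 (L l458 (T t1902 (K a84 (M a86 (F (T t3279 (L l26 (L l455 (T t2 (L l26 (L l454 (L l458 (T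 t1902 N)))))))))) (K a86 (M a84 (F (T t590 (L l126 (T t3280 N))))) N))))))))))) (K a38 (M a192 (L l87 (F (T t3256 (L l50 (L l347 (T t3254 (L l144 (L l365 (T t3255 (K a84 (M a86 (F (T t3256 (L l347 (L l475 (T t3655 N)))))) (K a86 (M a84 (F (T t3256 (L l459 (T t3270 N))))) N)))))))))))) (K a42 (M a192 (L l87 (F (T t3256 (L l347 (T t3254 (L l56 (L l144 (L l365 (L l390 (T t3255 (K a84 (M a86 (F (T t3256 (L l347 (L l475 (T t3655 N)))))) (K a86 (M a84 (F (T t3256 (L l56 (L l459 (T t3270 N)))))) N))))))))))))) (K a55 (M a16 (L l87 (F (T t97 (L l367 (L l475 (T t3281 (L l49 (L l349 (T t3282 (K a84 (M a86 (F (T t97 (L l367 (L l475 (T t3281 (L l49 (L l349 (T t3282 N))))))))) (K a86 (M a84 (F (L l126 (T t3283 (L l49 (L l349 (L l351 (L l366 (T t3282 N))))))))) N)))))))))))) (K a59 (M a16 (L l87 (F (L l56 (T t97 (L l367 (L l475 (T t3281 (L l56 (L l349 (T t3282 (K a84 (M a86 (F (L l56 (T t97 (L l367 (L l475 (T t3281 (L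 l56 (L l349 (T t3282 N)))))))))) (K a86 (M a84 (F (L l473 (T t3284 (L l56 (T t3285 N)))))) N))))))))))))) (K a84 (M a86 (F (T t1294 (L l347 (L l365 (T t589 (L l454 (L l458 (T t1296 (L l347 (T t592 (K a12 (M a192 (F (L l482 (T t3253 (L l9 (L l347 (L l475 (T t3655 N)))))))) (K a17 (M a153 (F (T t3273 (L l10 (L l126 (L l367 (L l475 (T t3659 (L l364 (T t3660 N)))))))))) (K a21 (M a149 (F (T t3274 (L l11 (L l144 (L l349 (L l475 (T t1219 (L l50 (L l346 (L l367 (L l475 (T t3657 N))))))))))))) (K a25 (M a192 (F (T t3253 (L l347 (L l475 (T t3655 N)))))) (K a34 (M a48 (F (T t3279 (L l26 (L l455 (T t2 (L l26 (L l454 (L l458 (T t1902 N)))))))))) (K a38 (M a192 (F (T t3256 (L l347 (L l475 (T t3655 N)))))) (K a42 (M a192 (F (T t3256 (L l347 (L l475 (T t3655 N)))))) (K a55 (M a192 (F (T t3253 (L l347 (L l475 (L l495 (T t3655 N))))))) (K a59 (M a192 (F (T t3253 (L l347 (L l475 (T t3655 N)))))) N)))))))))))))))))))) (K a86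 (M a84 (F (T t1294 (T t3258 (K a55 (M a64 (F (T t3306 (L l145 (L l350 (T t3307 (T t3308 N))))))) (K a59 (M a64 (F (T t3306 (L l145 (L l350 (T t3307 (L l429 (T t3308 N)))))))) N)))))) N))))))))))))))))))))))⟩
def e0_63__87_54 : Ent 4 := ⟨[a0, a63], [a87, a86], (M a85 (F (T t88 (L l143 (L l475 (T t52 (L l142 (T t89 (L l474 (T t90 (K a64 (M a16 (F (T t97 (L l84 (L l127 (L l367 (T t96 (L l116 (L l367 (T t98 N)))))))))) (K a192 (M a16 (F (T t112 (L l127 (L l367 (T t96 (L l296 (L l367 (T t98 N))))))))) (K a21 (M a48 (F (L l367 (T t1699 (L l143 (L l474 (T t50 (L l47 (L l143 (L l367 (T t100 N))))))))))) (K a149 (M a16 (L l351 (F (T t112 (L l367 (T t173 (L l93 (L l170 (L l366 (T t102 (K a212 (M a23 (F (L l367 (T t173 (L l346 (T t1941 N)))))) (K a23 (M a212 (L l349 (F (T t112 (L l220 (L l367 (L l474 (T t259 (L l93 (L l170 (L l366 (T t102 (K a151 (M a215 (L l163 (F (T t112 (L l170 (L l366 (T t3309 (K a148 (Fr a150 a20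 l350 (V t3310)) (K a150 (M a148 (L l348 (F (T t112 (L l168 (L l170 (L l218 (L l220 (L l366 (L l474 (T t3311 (K a22 (Fr a214 a213 l239 (V t259)) (K a214 (M a22 (F (T t112 (L l170 (T t3661 N))))) N))))))))))))) N))))))))) (K a215 (M a151 (F (T t112 (L l143 (L l295 (L l348 (L l475 (T t3313 N)))))))) N)))))))))))))) N)))))))))))) (K a213 (Fr a170 a255 l476 (Fr a42 a21 l68 (Fr a106 a234 l390 (Fr a192 a149 l519 (V t581))))) (K a42 (M a48 (F (L l475 (T t364 (L l143 (L l390 (L l474 (T t50 (L l28 (L l143 (L l367 (T t100 N)))))))))))) (K a106 (M a48 (L l142 (F (T t1 (L l104 (L l127 (L l367 (T t509 (L l143 (L l390 (L l474 (T t50 (K a66 (M a126 (F (T t780 (L l143 (L l390 (L l474 (T t50 N))))))) (K a126 (M a66 (F (T t1 (L l104 (L l127 (L l367 (L l475 (T t360 (L l109 (L l143 (L l390 (L l474 (T t50 N))))))))))))) N)))))))))))))) (K a170 (M a16 (L l474 (F (L l390 (L l404 (T t97 (L l367 (L l390 (T t98 (L l143 (L l367 (L l404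 (T t113 (L l367 (L l404 (T t174 (K a2 (M a254 (F (L l66 (L l390 (L l404 (T t97 (L l143 (L l367 (L l404 (T t113 (L l66 (L l367 (L l390 (T t98 (L l367 (L l404 (T t174 N))))))))))))))))) (K a254 (M a2 (F (L l432 (T t824 (L l143 (L l367 (L l404 (T t113 N)))))))) N)))))))))))))))))) (K a255 (M a3 (F (L l434 (T t137 (L l143 (L l261 (L l349 (L l351 (L l474 (T t376 (L l261 (L l296 (L l474 (T t3314 (L l142 (L l261 (L l296 (L l434 (T t3315 (K a1 (Fr a21 a42 l68 (Fr a149 a213 l347 (Fr a192 a106 l519 (Fr a23 a43 l67 (V t3316))))) N)))))))))))))))))))) N)))))))))))))))))))⟩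
def e0_63__87_55 : Ent 4 := ⟨[a0, a63], [a87, a88], (M a85 (F (T t88 (L l143 (L l475 (T t52 (T t89 (T t90 (K a64 (M a240 (F (T t933 (L l93 (L l370 (T t387 N)))))) (K a192 (M a16 (F (T t112 (L l367 (T t96 (L l90 (L l296 (L l367 (T t98 N))))))))) (K a21 (M a48 (F (T t873 (L l47 (L l143 (L l367 (T t100 (L l143 (L l478 (T t50 N)))))))))) (K a149 (M a16 (F (T t112 (L l367 (T t173 (L l93 (L l170 (T t102 N)))))))) (K a213 (Fr a170 a255 l476 (Fr a42 a21 l68 (Fr a106 a234 l390 (Fr a192 a149 l519 (V t581))))) (K a42 (M a48 (F (L l475 (T t364 (L l143 (L l390 (L l478 (T t50 (L l28 (L l143 (L l367 (T t100 N)))))))))))) (K a106 (M a48 (F (T t1 (L l104 (L l367 (T t509 (L l143 (L l390 (L l478 (T t50 N)))))))))) (K a170 (M a16 (F (L l390 (L l404 (T t97 (L l90 (L l367 (L l390 (T t98 (L l143 (L l367 (L l404 (T t113 (L l367 (L l404 (T t174 N)))))))))))))))) (K a255 (M a3 (F (T t85 (L l143 (L l261 (L l349 (T t376 (L l261 (L l296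 (T t357 (L l261 (L l296 (T t1921 N))))))))))))) N)))))))))))))))))⟩
def e0_63__87_56 : Ent 4 := ⟨[a0, a63], [a87, a89], (M a48 (F (T t1 (T t2 (T t3 (T t0 (K a16 (M a60 (F (T t64 (L l14 (L l18 (L l475 (T t67 (L l349 (T t65 N))))))))) (K a32 (M a60 (F (T t64 (L l475 (T t67 (L l24 (L l28 (L l349 (T t65 N))))))))) (K a21 (M a192 (F (T t837 (L l47 (L l347 (L l371 (T t20 (L l47 (L l347 (L l367 (L l371 (T t29 N)))))))))))) (K a37 (M a192 (F (T t19 (L l47 (L l371 (T t20 (L l143 (L l371 (L l475 (T t21 N)))))))))) (K a53 (M a192 (F (T t19 (L l143 (L l371 (L l475 (L l491 (T t21 (L l132 (T t31 N)))))))))) (K a26 (M a192 (F (T t837 (L l371 (T t20 (L l143 (L l371 (L l475 (T t21 N))))))))) (K a42 (M a192 (F (T t19 (L l371 (T t20 (L l28 (L l367 (L l371 (T t29 N))))))))) (K a58 (M a192 (F (T t19 (L l143 (L l371 (L l475 (T t21 (L l54 (L l132 (L l498 (T t31 N))))))))))) (K a15 (M a192 (F (T t1922 (L l325 (L l371 (T t20 (L l143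 (L l371 (L l469 (L l475 (T t21 N))))))))))) N)))))))))))))))⟩
def e0_63__87_57 : Ent 4 := ⟨[a0, a63], [a87, a90], (M a12 (F (T t122 (T t151 (T t152 (T t153 (K a4 (M a60 (F (T t570 (L l46 (L l50 (L l475 (T t67 (L l349 (T t448 N))))))))) (K a8 (M a60 (F (T t570 (L l475 (T t67 (L l52 (L l56 (L l349 (T t448 N))))))))) (K a21 (M a192 (F (T t836 (L l15 (L l347 (L l375 (T t450 (L l15 (L l347 (L l375 (L l457 (T t157 N)))))))))))) (K a25 (M a192 (F (T t449 (L l15 (L l375 (T t450 (L l143 (L l375 (L l475 (T t21 N)))))))))) (K a29 (M a192 (F (T t449 (L l143 (L l371 (L l375 (L l475 (T t21 (L l130 (T t160 N)))))))))) (K a38 (M a192 (F (T t836 (L l375 (T t450 (L l143 (L l375 (L l475 (T t21 N))))))))) (K a42 (M a192 (F (T t449 (L l375 (T t450 (L l56 (L l375 (L l457 (T t157 N))))))))) (K a46 (M a192 (F (T t449 (L l143 (L l375 (L l475 (T t21 (L l26 (L l130 (L l408 (T t160 N))))))))))) (K a51 (M a192 (F (T t1725 (L l375 (L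 l415 (T t450 (L l143 (L l375 (L l439 (L l475 (T t21 N))))))))))) N)))))))))))))))⟩
def e0_63__87_58 : Ent 4 := ⟨[a0, a63], [a87, a91], (M a85 (L l93 (F (T t88 (L l143 (L l475 (T t52 (T t89 (T t90 (K a64 (M a95 (F (T t3662 (L l116 (T t2878 (L l143 (L l481 (T t3663 N)))))))) (K a192 (M a1 (L l93 (F (T t2828 (L l514 (T t534 (L l296 (T t1500 (K a83 (M a95 (F (T t1501 (L l86 (L l268 (T t3008 N)))))) (K a95 (M a83 (F (T t3333 (L l296 (T t1500 N))))) N)))))))))) (K a21 (M a243 (L l93 (F (T t3593 (L l131 (L l143 (T t2088 (L l143 (T t3594 (K a83 (M a95 (F (T t3662 (L l143 (T t3594 N))))) (K a95 (M a83 (F (T t3664 (L l131 (L l137 (L l143 (T t2088 N))))))) N))))))))))) (K a149 (M a1 (L l93 (F (T t538 (L l351 (T t2828 (L l217 (T t2807 (K a83 (M a95 (F (T t538 (L l86 (L l220 (T t3008 N)))))) (K a95 (M a83 (F (T t3333 (L l217 (T t2807 N))))) N)))))))))) (K a213 (Fr a170 a255 l476 (Fr a42 a21 l68 (Fr a106 a234 l390 (Fr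 a192 a149 l519 (V t581))))) (K a42 (M a48 (L l93 (F (L l475 (T t364 (L l143 (L l390 (T t50 (L l28 (L l143 (L l367 (T t100 (K a83 (M a95 (F (L l88 (T t3665 (L l143 (L l373 (L l390 (L l481 (T t3666 N))))))))) (K a95 (M a83 (F (L l469 (L l475 (T t365 (L l137 (L l143 (L l390 (T t50 (L l28 (L l137 (L l143 (L l361 (L l367 (T t100 N))))))))))))))) N)))))))))))))) (K a106 (M a48 (L l93 (F (T t48 (L l104 (L l367 (T t509 (L l143 (L l390 (T t50 (K a83 (M a95 (F (T t48 (L l104 (L l367 (L l475 (T t360 (L l86 (L l390 (T t3008 N)))))))))) (K a95 (M a83 (F (T t48 (L l361 (L l367 (T t1699 (L l137 (L l143 (L l390 (T t50 N)))))))))) N)))))))))))) (K a170 (M a1 (L l93 (F (L l390 (L l474 (T t534 (L l390 (T t1500 (L l143 (L l349 (L l474 (T t263 (L l474 (T t3667 (K a83 (M a95 (F (L l390 (L l474 (T t534 (L l86 (L l390 (T t2878 (L l143 (L l349 (L l474 (T t263 (L l474 (T t3667 N)))))))))))))) (K a95 (M a83 (F (L l178 (L l474 (T t3333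 (L l390 (T t1500 N))))))) N)))))))))))))))) (K a255 (M a3 (L l93 (F (T t85 (L l143 (L l261 (L l349 (T t376 (L l261 (L l296 (T t357 (L l261 (L l296 (T t1921 (K a83 (M a95 (F (T t1341 (L l86 (L l296 (T t2878 (L l143 (L l261 (L l349 (T t376 N)))))))))) (K a95 (M a83 (L l469 (F (T t85 (L l266 (T t3371 (L l89 (L l296 (L l470 (T t3668 (K a15 (M a175 (L l481 (F (T t3669 (L l63 (L l434 (T t358 (L l89 (L l296 (L l470 (T t3668 (K a243 (M a167 (L l265 (F (L l261 (T t2226 (L l137 (L l271 (L l295 (L l349 (T t3670 (K a247 (M a251 (F (L l261 (T t2226 (L l137 (L l271 (L l295 (L l349 (T t3670 N))))))))) (K a251 (M a247 (L l463 (F (T t1341 (L l471 (T t3671 (K a11 (Fr a171 a163 l179 (V t3672)) (K a171 (M a11 (F (L l391 (T t85 (L l73 (L l415 (L l439 (L l464 (L l482 (T t3599 (L l137 (L l143 (L l261 (L l349 (T t376 N))))))))))))))) N)))))))) N)))))))))))) (K a167 (Fr a243 a163 l451 (V t3673)) N))))))))))))) (K a175 (M a15 (F (T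 t1341 (L l137 (L l143 (L l266 (L l361 (L l373 (T t1497 N))))))))) N)))))))))))) N)))))))))))))))) (K a83 (M a95 (F (T t89 (L l86 (T t3008 (L l86 (T t2878 N))))))) (K a95 (M a83 (F (T t88 (L l137 (L l143 (L l469 (L l475 (T t52 (T t89 (T t90 (K a64 (M a204 (F (T t1575 (L l125 (T t1576 N))))) (K a192 (M a1 (F (T t3333 (L l296 (T t1500 N))))) (K a21 (M a93 (F (L l88 (T t3674 (L l15 (L l137 (L l143 (T t3675 N)))))))) (K a149 (M a1 (F (T t3333 (L l217 (T t2807 N))))) (K a213 (Fr a170 a255 l476 (Fr a42 a21 l68 (Fr a106 a234 l390 (Fr a192 a149 l519 (V t581))))) (K a42 (M a93 (F (L l88 (T t3674 (L l137 (L l143 (L l390 (T t3675 N)))))))) (K a106 (M a1 (F (T t3333 (L l390 (T t1500 N))))) (K a170 (M a1 (F (L l178 (L l474 (T t3333 (L l390 (T t1500 N))))))) (K a255 (M a15 (L l475 (F (T t1783 (L l137 (L l143 (L l266 (L l361 (L l373 (T t1497 (L l88 (L l266 (T t3676 (L l266 (L l296 (T t1926 (K a3 (M a171 (F (T t1254 (L l137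 (L l143 (L l266 (L l361 (L l373 (T t1497 (L l296 (T t3677 (L l266 (L l296 (L l453 (T t1926 N))))))))))))))) (K a171 (M a3 (L l463 (F (T t1783 (L l179 (L l266 (T t3371 (K a11 (M a251 (F (L l434 (T t665 (L l2 (L l137 (L l143 (L l266 (L l361 (L l373 (T t1497 N))))))))))) (K a251 (Fr a11 a7 l7 (V t3678)) N))))))))) N)))))))))))))))))) N))))))))))))))))))) N))))))))))))))))))))⟩
def e0_63__87_59 : Ent 4 := ⟨[a0, a63], [a87, a92], (M a85 (F (T t88 (L l143 (L l475 (T t52 (T t89 (T t90 (K a64 (M a240 (F (T t933 (L l89 (L l93 (T t387 N)))))) (K a192 (M a16 (F (T t1924 (L l339 (T t97 (L l90 (L l296 (L l367 (T t98 N))))))))) (K a21 (M a48 (F (T t873 (L l47 (L l143 (L l367 (T t100 (L l143 (T t50 N))))))))) (K a149 (M a16 (F (T t112 (L l367 (T t173 (L l89 (L l93 (L l170 (T t102 N))))))))) (K a213 (Fr a170 a255 l476 (Fr a42 a21 l68 (Fr a106 a234 l390 (Fr a192 a149 l519 (V t581))))) (K a42 (M a48 (F (L l475 (T t364 (L l143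 (L l390 (T t50 (L l28 (L l143 (L l367 (T t100 N))))))))))) (K a106 (M a48 (F (T t1 (L l104 (L l367 (T t509 (L l143 (L l390 (T t50 N))))))))) (K a170 (M a16 (F (L l390 (L l404 (T t97 (L l90 (L l367 (L l390 (T t98 (L l143 (L l367 (L l404 (T t113 (L l367 (L l404 (T t174 N)))))))))))))))) (K a255 (M a3 (F (T t85 (L l143 (L l261 (L l349 (T t376 (L l261 (L l296 (T t357 (L l261 (L l296 (L l466 (T t1921 N)))))))))))))) N)))))))))))))))))⟩
def e0_63__87_60 : Ent 4 := ⟨[a0, a63], [a87, a93], (M a48 (F (T t1 (T t2 (T t3 (T t0 (K a16 (M a60 (F (T t64 (L l14 (L l18 (L l475 (T t67 (L l349 (T t65 N))))))))) (K a32 (M a60 (F (T t64 (L l475 (T t67 (L l24 (L l28 (L l349 (T t65 N))))))))) (K a21 (M a192 (F (T t837 (L l47 (L l347 (T t20 (L l47 (L l347 (L l362 (L l367 (T t29 N))))))))))) (K a37 (M a192 (F (T t19 (L l47 (T t20 (L l138 (L l143 (L l470 (L l475 (T t21 N)))))))))) (K a53 (M a192 (F (T t19 (L l138 (L l143 (L l470 (L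 l475 (L l491 (T t21 (T t31 N)))))))))) (K a26 (M a192 (F (T t837 (T t20 (L l138 (L l143 (L l470 (L l475 (T t21 N))))))))) (K a42 (M a192 (F (T t19 (T t20 (L l28 (L l362 (L l367 (T t29 N)))))))) (K a58 (M a192 (F (T t19 (L l138 (L l143 (L l470 (L l475 (T t21 (L l54 (L l498 (T t31 N))))))))))) (K a15 (M a192 (F (T t1681 (L l483 (T t27 (L l325 (T t20 N))))))) N)))))))))))))))⟩
def e0_63__87_61 : Ent 4 := ⟨[a0, a63], [a87, a94], (M a85 (F (T t88 (L l143 (L l475 (T t52 (T t89 (T t90 (K a64 (M a240 (F (T t933 (L l89 (L l93 (T t387 N)))))) (K a192 (M a16 (F (T t112 (L l367 (T t96 (L l296 (L l367 (T t98 N)))))))) (K a21 (M a48 (F (T t873 (L l47 (L l143 (L l367 (T t100 (L l143 (T t50 N))))))))) (K a149 (M a16 (F (T t112 (L l367 (T t173 (L l89 (L l93 (L l170 (T t102 N))))))))) (K a213 (Fr a170 a255 l476 (Fr a42 a21 l68 (Fr a106 a234 l390 (Fr a192 a149 l519 (V t581))))) (K a42 (M a48 (F (L l475 (T t364 (L l143 (L l390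 (T t50 (L l28 (L l143 (L l367 (T t100 N))))))))))) (K a106 (M a48 (F (T t48 (L l104 (L l367 (T t509 (L l143 (L l390 (T t50 N))))))))) (K a170 (M a16 (F (L l390 (L l404 (T t112 (L l367 (L l390 (T t98 (L l143 (L l367 (L l404 (T t113 (L l367 (L l404 (T t174 N))))))))))))))) (K a255 (M a3 (F (T t85 (L l143 (L l261 (L l349 (T t376 (L l261 (L l296 (T t357 (L l261 (L l296 (L l471 (T t1921 N)))))))))))))) N)))))))))))))))))⟩
def e0_63__87_62 : Ent 4 := ⟨[a0, a63], [a87, a95], (M a12 (L l93 (F (T t122 (T t151 (T t152 (T t153 (K a4 (M a149 (L l93 (F (T t958 (T t5 (L l89 (T t960 (K a83 (M a91 (F (T t424 (L l349 (T t2750 N))))) (K a91 (M a83 (F (T t424 (L l89 (T t3679 N))))) N))))))))) (K a8 (M a149 (L l93 (F (T t991 (L l56 (T t5 (L l56 (L l89 (T t960 (K a83 (M a91 (F (T t175 (L l349 (L l460 (T t2750 N)))))) (K a91 (M a83 (F (T t175 (L l89 (T t3679 N))))) N))))))))))) (K a21 (M a89 (L l93 (F (T t2788 (L l50 (T t863 (L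 l50 (T t864 (K a83 (M a91 (F (T t2752 (L l89 (L l94 (T t3680 N)))))) (K a91 (M a83 (F (T t870 (L l87 (L l94 (T t3681 N)))))) N)))))))))) (K a25 (M a89 (L l93 (F (T t870 (T t863 (T t864 (K a83 (M a91 (F (T t870 (L l89 (L l94 (T t3680 N)))))) (K a91 (M a83 (F (T t870 (L l87 (L l94 (T t3681 N)))))) N)))))))) (K a29 (M a170 (L l93 (F (T t2497 (L l15 (T t317 (L l15 (T t3682 (K a83 (M a91 (F (L l15 (T t317 (T t3683 N))))) (K a91 (M a83 (F (L l15 (T t317 (L l89 (L l463 (T t3684 N))))))) N)))))))))) (K a38 (M a149 (L l93 (F (T t991 (L l50 (T t175 (L l26 (L l50 (T t649 (K a83 (M a91 (F (T t648 (L l26 (L l349 (T t2750 N)))))) (K a91 (M a83 (F (T t648 (L l26 (L l89 (T t3679 N)))))) N))))))))))) (K a42 (M a89 (L l93 (F (T t3370 (T t863 (L l26 (T t864 (K a83 (M a91 (F (T t3543 (L l89 (L l94 (T t3680 N)))))) (K a91 (M a83 (F (T t3543 (L l87 (L l94 (T t3681 N)))))) N))))))))) (K a46 (M a170 (L l93 (F (T t439 (L l396 (L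 l457 (L l469 (L l475 (T t3685 (T t3682 (K a83 (M a91 (F (T t317 (T t3683 N)))) (K a91 (M a83 (F (T t439 (L l89 (L l463 (T t3684 N)))))) N)))))))))))) (K a51 (M a149 (L l93 (F (T t647 (L l489 (T t5 (T t649 (K a83 (M a91 (F (T t25 (L l349 (T t2750 N))))) (K a91 (M a83 (F (T t25 (L l89 (T t3679 N))))) N))))))))) (K a83 (M a91 (F (T t122 (T t151 (T t152 (T t153 (K a4 (M a149 (F (T t424 (L l349 (T t2750 N))))) (K a8 (M a149 (F (T t175 (L l349 (L l460 (T t2750 N)))))) (K a21 (M a88 (F (L l50 (T t3686 (L l15 (L l94 (L l451 (T t3687 N)))))))) (K a25 (M a88 (F (T t3686 (L l15 (L l94 (L l451 (T t3687 N))))))) (K a29 (M a16 (F (T t652 (L l349 (T t2764 N))))) (K a38 (M a16 (F (L l21 (T t871 (L l26 (L l72 (L l349 (T t2764 N)))))))) (K a42 (M a88 (F (T t3686 (L l94 (L l451 (T t3687 N)))))) (K a46 (M a16 (F (T t871 (L l26 (L l349 (T t2764 N)))))) (K a51 (M a16 (F (T t652 (L l349 (T t2764 N))))) N))))))))))))))) (K a91 (M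 a83 (F (T t122 (T t151 (T t152 (T t153 (K a4 (M a1 (F (T t3333 (T t1103 N)))) (K a8 (M a1 (F (T t3333 (L l2 (L l56 (T t1103 N)))))) (K a21 (M a81 (F (L l89 (T t3688 (T t3689 N))))) (K a25 (M a1 (F (T t3333 (L l53 (L l56 (T t1105 N)))))) (K a29 (M a89 (F (T t3690 (L l15 (L l131 (L l463 (T t3691 N))))))) (K a38 (M a81 (F (L l89 (T t3688 (L l384 (T t3689 N)))))) (K a42 (M a81 (F (T t3692 (T t3689 N)))) (K a46 (M a170 (F (T t439 (L l89 (L l463 (T t3684 N)))))) (K a51 (M a1 (F (T t3333 (T t1103 N)))) N))))))))))))))) N))))))))))))))))))⟩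
def e0_63__87_63 : Ent 4 := ⟨[a0, a63], [a87, a104], (M a48 (F (T t1 (T t2 (T t3 (T t0 (K a16 (M a60 (F (T t64 (L l14 (L l18 (L l475 (T t67 (L l349 (L l388 (T t65 N)))))))))) (K a32 (M a60 (F (T t64 (L l475 (T t67 (L l24 (L l28 (L l349 (L l388 (T t65 N)))))))))) (K a21 (M a192 (F (T t27 (L l47 (L l347 (T t20 (L l47 (L l347 (L l367 (T t29 N)))))))))) (K a37 (M a192 (F (T t27 (L l47 (T t20 (L l143 (L l475 (T t21 N)))))))) (K a53 (M a192 (F (T t27 (L l143 (L l475 (L l491 (T t21 (L l98 (L l100 (T t31 N)))))))))) (K a26 (M a192 (F (T t27 (T t20 (L l143 (L l475 (T t21 N))))))) (K a42 (M a192 (F (T t27 (T t20 (L l28 (L l367 (T t29 N))))))) (K a58 (M a192 (F (T t27 (L l143 (L l475 (T t21 (L l54 (L l98 (L l100 (L l498 (T t31 N))))))))))) (K a15 (M a192 (F (T t56 (L l483 (T t27 (L l143 (L l469 (L l475 (T t21 N))))))))) N)))))))))))))))⟩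
def e0_63__87_64 : Ent 4 := ⟨[a0, a63], [a87, a105], (M a48 (F (T t1 (T t2 (T t3 (T t0 (K a16 (M a60 (F (T t42 (L l14 (L l18 (L l475 (T t67 (L l349 (L l392 (T t65 N)))))))))) (K a32 (M a60 (F (T t42 (L l475 (T t67 (L l24 (L l28 (L l349 (L l392 (T t65 N)))))))))) (K a21 (M a192 (F (T t837 (L l47 (L l347 (L l515 (T t20 (L l47 (L l347 (L l367 (L l515 (T t29 N)))))))))))) (K a37 (M a192 (F (T t19 (L l47 (L l515 (T t20 (L l143 (L l475 (L l515 (T t21 N)))))))))) (K a53 (M a192 (F (T t19 (L l143 (L l475 (L l491 (L l515 (T t21 (L l98 (T t31 N)))))))))) (K a26 (M a192 (F (T t837 (L l515 (T t20 (L l143 (L l475 (L l515 (T t21 N))))))))) (K a42 (M a192 (F (T t19 (L l515 (T t20 (L l28 (L l367 (L l515 (T t29 N))))))))) (K a58 (M a192 (F (T t19 (L l143 (L l475 (L l515 (T t21 (L l54 (L l98 (L l498 (T t31 N))))))))))) (K a15 (M a192 (F (T t1922 (L l325 (L l515 (T t20 (L l143 (L l469 (L l475 (L l515 (T t21 N))))))))))) N)))))))))))))))⟩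
def e0_63__87_65 : Ent 4 := ⟨[a0, a63], [a87, a106], (M a48 (F (T t1 (L l390 (L l498 (T t2 (L l411 (T t3 (L l390 (T t0 (K a16 (M a60 (F (T t64 (L l14 (L l18 (L l393 (L l475 (T t67 (L l349 (L l390 (L l498 (T t65 N)))))))))))) (K a32 (M a60 (F (T t64 (L l393 (L l475 (T t67 (L l24 (L l28 (L l349 (L l390 (L l498 (T t65 N)))))))))))) (K a21 (M a255 (F (T t511 (L l367 (L l390 (T t512 (L l18 (L l87 (L l144 (L l347 (L l498 (T t513 N)))))))))))) (K a37 (M a52 (F (T t82 (L l498 (T t83 (L l21 (L l28 (L l390 (L l498 (T t84 N)))))))))) (K a53 (M a12 (F (T t443 (L l47 (T t122 (L l47 (T t146 N))))))) (K a26 (M a56 (F (T t133 (L l501 (T t134 (L l12 (L l18 (T t135 N)))))))) (K a42 (M a170 (F (T t316 (L l87 (L l144 (T t514 (L l54 (L l104 (L l144 (L l498 (T t515 (L l54 (L l498 (T t516 N)))))))))))))) (K a58 (M a12 (L l498 (F (T t122 (T t443 (T t146 (K a202 (M a154 (F (T t122 (L l104 (L l426 (L l475 (T t517 N))))))) (K a154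 (M a202 (F (T t122 (L l356 (L l368 (T t445 (L l356 (T t146 N)))))))) N)))))))) (K a15 (M a4 (F (T t518 (L l73 (L l390 (T t519 (L l390 (L l498 (T t520 N))))))))) N)))))))))))))))))))⟩
def e0_63__87_66 : Ent 4 := ⟨[a0, a63], [a87, a107], (M a48 (L l143 (F (T t1 (T t2 (L l409 (T t3 (T t0 (K a16 (M a60 (L l143 (F (T t64 (L l14 (L l18 (L l391 (L l475 (T t67 (L l349 (T t65 (K a67 (M a127 (F (T t70 (L l76 (T t1158 N))))) (K a127 (M a67 (F (T t70 (L l475 (T t69 (L l14 (L l18 (L l391 (T t44 N))))))))) N))))))))))))) (K a32 (M a60 (L l143 (F (T t64 (L l391 (L l475 (T t67 (L l24 (L l28 (L l349 (T t65 (K a67 (M a127 (F (T t70 (L l76 (L l404 (T t1158 N)))))) (K a127 (M a67 (F (T t70 (L l28 (L l475 (T t69 (L l391 (T t44 N)))))))) N))))))))))))) (K a21 (M a192 (L l143 (F (T t27 (L l47 (L l347 (T t20 (L l47 (L l347 (L l367 (T t29 (K a67 (M a127 (F (T t3693 (L l121 (T t1171 N))))) (K a127 (M a67 (F (T t28 (L l103 (L l137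 (L l347 (T t225 (L l18 (L l98 (L l144 (T t224 N))))))))))) N))))))))))))) (K a37 (M a3 (L l143 (F (T t348 (L l47 (L l349 (T t353 (L l25 (L l28 (L l391 (T t87 (K a67 (M a127 (F (T t348 (L l121 (T t1171 N))))) (K a127 (M a67 (F (T t2183 (L l25 (L l28 (L l391 (T t87 N))))))) N))))))))))))) (K a53 (M a3 (L l143 (F (T t86 (L l391 (T t137 (L l391 (T t87 (K a67 (M a127 (F (T t86 (L l76 (T t1158 N))))) (K a127 (M a67 (F (T t3694 (L l47 (T t358 N))))) N)))))))))) (K a26 (M a3 (L l143 (F (L l72 (T t86 (L l54 (L l391 (T t137 (L l16 (L l18 (L l349 (T t560 (K a67 (M a127 (F (L l16 (T t1249 (L l121 (T t1171 N)))))) (K a127 (M a67 (F (T t2183 (L l16 (L l18 (L l349 (T t560 N))))))) N)))))))))))))) (K a42 (M a192 (L l143 (F (T t19 (T t20 (L l28 (L l367 (T t29 (K a67 (M a127 (F (T t1170 (L l121 (T t1171 N))))) (K a127 (M a67 (F (T t20 (L l28 (T t28 (L l54 (L l98 (L l144 (L l390 (T t224 N)))))))))) N)))))))))) (K a58 (M a3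 (L l143 (F (T t348 (L l54 (L l391 (T t137 (L l54 (L l391 (T t87 (K a67 (M a127 (F (T t1249 (L l76 (T t1158 N))))) (K a127 (M a67 (F (T t3694 (L l36 (T t358 N))))) N)))))))))))) (K a15 (M a1 (L l143 (F (T t3695 (L l63 (T t534 (T t542 (K a67 (M a127 (F (T t3696 (L l73 (T t535 N))))) (K a127 (M a67 (F (T t2707 (T t542 N)))) N))))))))) (K a67 (M a127 (F (T t2 (L l121 (T t1171 (L l76 (T t1158 N))))))) (K a127 (M a67 (F (T t1 (T t2 (L l409 (T t3 (T t0 (K a16 (M a1 (F (T t2707 (T t542 N)))) (K a32 (M a1 (F (T t2707 (L l20 (L l28 (T t542 N)))))) (K a21 (M a64 (F (L l98 (T t3697 (T t3698 N))))) (K a37 (M a64 (F (L l98 (T t3697 (T t3698 N))))) (K a53 (M a3 (F (T t3694 (L l47 (T t358 N))))) (K a26 (M a64 (F (L l98 (T t3697 (T t3698 N))))) (K a42 (M a64 (F (T t3699 (T t3698 N)))) (K a58 (M a3 (F (T t3694 (L l36 (T t358 N))))) (K a15 (M a64 (F (L l98 (T t3700 (L l481 (T t3698 N)))))) N)))))))))))))))) N)))))))))))))))))))⟩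
def e0_63__87_67 : Ent 4 := ⟨[a0, a63], [a87, a108], (M a85 (F (T t88 (L l143 (L l475 (T t52 (T t89 (T t90 (K a64 (M a240 (F (T t933 (L l93 (T t387 N))))) (K a192 (M a16 (F (T t112 (L l367 (T t96 (L l296 (L l367 (T t98 N)))))))) (K a21 (M a48 (F (T t873 (L l47 (L l143 (L l367 (T t100 (L l143 (T t50 N))))))))) (K a149 (M a16 (F (T t112 (L l367 (T t173 (L l93 (L l99 (L l170 (T t102 N))))))))) (K a213 (Fr a170 a255 l476 (Fr a42 a21 l68 (Fr a106 a234 l390 (Fr a192 a149 l519 (V t581))))) (K a42 (M a48 (F (L l475 (T t364 (L l143 (L l390 (T t50 (L l28 (L l143 (L l367 (T t100 N))))))))))) (K a106 (M a48 (F (T t1 (L l104 (L l367 (T t509 (L l143 (L l390 (T t50 N))))))))) (K a170 (M a16 (F (L l390 (L l404 (T t97 (L l367 (L l390 (T t98 (L l143 (L l367 (L l404 (T t113 (L l367 (L l404 (T t174 N))))))))))))))) (K a255 (M a3 (F (T t85 (L l143 (L l261 (L l349 (T t376 (L l261 (L l296 (T t357 (L l261 (L l296 (T t1921 N)))))))))))))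 N)))))))))))))))))⟩
def e0_63__87_68 : Ent 4 := ⟨[a0, a63], [a87, a109], (M a85 (F (T t88 (L l143 (L l475 (T t52 (T t89 (T t90 (K a64 (M a240 (F (T t933 (L l93 (T t387 N))))) (K a192 (M a16 (F (T t112 (L l101 (L l367 (T t96 (L l296 (L l367 (T t98 N))))))))) (K a21 (M a48 (F (T t1243 (L l47 (L l143 (L l367 (T t100 (L l143 (T t50 N))))))))) (K a149 (M a16 (F (T t112 (L l367 (L l506 (T t173 (L l93 (L l99 (L l170 (T t102 N)))))))))) (K a213 (Fr a170 a255 l476 (Fr a42 a21 l68 (Fr a106 a234 l390 (Fr a192 a149 l519 (V t581))))) (K a42 (M a48 (F (L l398 (L l475 (T t364 (L l143 (L l390 (T t50 (L l28 (L l143 (L l367 (T t100 N)))))))))))) (K a106 (M a48 (F (T t1 (L l101 (L l104 (L l367 (T t509 (L l143 (L l390 (T t50 N)))))))))) (K a170 (M a16 (F (L l390 (L l404 (T t97 (L l367 (L l390 (T t98 (L l143 (L l367 (L l404 (T t113 (L l367 (L l404 (L l506 (T t174 N)))))))))))))))) (K a255 (M a3 (F (T t85 (L l143 (L l261 (L l349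 (T t376 (L l261 (L l296 (T t357 (L l261 (L l296 (T t1921 N))))))))))))) N)))))))))))))))))⟩
def e0_63__87_69 : Ent 4 := ⟨[a0, a63], [a87, a110], (M a48 (F (T t1 (T t2 (L l399 (T t3 (T t0 (K a16 (M a60 (F (T t64 (L l14 (L l18 (L l475 (T t67 (L l349 (T t65 N))))))))) (K a32 (M a60 (F (T t64 (L l475 (T t67 (L l24 (L l28 (L l349 (T t65 N))))))))) (K a21 (M a192 (F (T t837 (L l47 (L l347 (T t20 (L l47 (L l347 (L l367 (T t29 N)))))))))) (K a37 (M a192 (F (T t19 (L l47 (T t20 (L l138 (L l143 (L l475 (T t21 N))))))))) (K a53 (M a192 (F (T t19 (L l138 (L l143 (L l475 (L l491 (T t21 (L l102 (T t31 N)))))))))) (K a26 (M a192 (F (T t837 (T t20 (L l138 (L l143 (L l475 (T t21 N)))))))) (K a42 (M a192 (F (T t19 (T t20 (L l28 (L l367 (T t29 N))))))) (K a58 (M a192 (F (T t19 (L l138 (L l143 (L l475 (T t21 (L l54 (L l102 (L l498 (T t31 N))))))))))) (K a15 (M a192 (F (T t57 (L l483 (T t27 (L l325 (T t20 N))))))) N))))))))))))))))⟩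
def e0_63__87_70 : Ent 4 := ⟨[a0, a63], [a87, a111], (M a48 (F (T t1 (T t2 (L l397 (T t3 (T t0 (K a16 (M a60 (F (T t64 (L l14 (L l18 (L l475 (T t67 (L l349 (T t65 N))))))))) (K a32 (M a60 (F (T t64 (L l475 (T t67 (L l24 (L l28 (L l349 (T t65 N))))))))) (K a21 (M a192 (F (L l104 (T t206 (T t27 (L l47 (L l347 (L l367 (T t29 N))))))))) (K a37 (M a192 (F (T t19 (L l104 (T t206 (L l137 (L l143 (L l475 (T t21 N))))))))) (K a53 (M a192 (F (T t19 (L l137 (L l143 (L l475 (L l491 (T t21 (L l104 (L l367 (T t521 N))))))))))) (K a26 (M a192 (F (T t27 (L l54 (L l104 (T t206 (L l137 (L l143 (L l475 (T t21 N)))))))))) (K a42 (M a192 (F (T t19 (L l54 (L l104 (L l390 (T t206 (L l28 (L l367 (T t29 N)))))))))) (K a58 (M a192 (F (T t19 (L l137 (L l143 (L l475 (T t21 (L l54 (L l104 (L l367 (L l498 (T t521 N)))))))))))) (K a15 (M a106 (F (T t2289 (T t306 N)))) N))))))))))))))))⟩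
def e0_63__87_71 : Ent 4 := ⟨[a0, a63], [a87, a124], (M a48 (F (T t1 (T t2 (T t3 (T t0 (K a16 (M a60 (F (T t64 (L l14 (L l18 (L l475 (T t67 (L l349 (T t65 N))))))))) (K a32 (M a60 (F (T t64 (L l475 (T t67 (L l24 (L l28 (L l349 (T t65 N))))))))) (K a21 (M a192 (F (T t28 (L l47 (L l347 (T t20 (L l47 (L l347 (L l367 (T t29 N)))))))))) (K a37 (M a192 (F (T t19 (L l47 (T t20 (L l109 (L l143 (L l475 (T t21 N))))))))) (K a53 (M a192 (F (T t19 (L l109 (L l143 (L l475 (L l491 (T t21 (T t31 N))))))))) (K a26 (M a192 (F (T t28 (T t20 (L l109 (L l143 (L l475 (T t21 N)))))))) (K a42 (M a192 (F (T t19 (T t20 (L l28 (L l367 (T t29 N))))))) (K a58 (M a192 (F (T t19 (L l109 (L l143 (L l475 (T t21 (L l54 (L l498 (T t31 N)))))))))) (K a15 (M a192 (F (T t57 (L l110 (L l483 (T t27 (L l325 (T t20 N)))))))) N)))))))))))))))⟩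
def e0_63__87_72 : Ent 4 := ⟨[a0, a63], [a87, a125], (M a48 (F (T t1 (T t2 (T t3 (T t0 (K a16 (M a60 (F (T t42 (L l14 (L l18 (L l475 (T t67 (L l349 (T t65 N))))))))) (K a32 (M a60 (F (T t42 (L l475 (T t67 (L l24 (L l28 (L l349 (T t65 N))))))))) (K a21 (M a192 (F (T t837 (L l47 (L l347 (T t20 (L l47 (L l347 (L l367 (T t29 N)))))))))) (K a37 (M a192 (F (T t19 (L l47 (T t20 (L l109 (L l143 (L l434 (L l475 (T t21 N)))))))))) (K a53 (M a192 (F (T t19 (L l109 (L l143 (L l434 (L l475 (L l491 (T t21 (T t31 N)))))))))) (K a26 (M a192 (F (T t837 (T t20 (L l109 (L l143 (L l434 (L l475 (T t21 N))))))))) (K a42 (M a192 (F (T t19 (T t20 (L l28 (L l367 (T t29 N))))))) (K a58 (M a192 (F (T t19 (L l109 (L l143 (L l434 (L l475 (T t21 (L l54 (L l498 (T t31 N))))))))))) (K a15 (M a192 (F (T t1681 (L l483 (T t27 (L l325 (T t20 N))))))) N)))))))))))))))⟩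
def e0_63__87_73 : Ent 4 := ⟨[a0, a63], [a87, a126], (M a48 (F (T t1 (T t2 (T t3 (T t0 (K a16 (M a60 (F (T t64 (L l14 (L l18 (L l475 (T t67 (L l349 (T t65 N))))))))) (K a32 (M a60 (F (T t64 (L l475 (T t67 (L l24 (L l28 (L l349 (T t65 N))))))))) (K a21 (M a192 (F (T t837 (L l47 (L l347 (T t20 (L l47 (L l347 (L l367 (T t29 N)))))))))) (K a37 (M a192 (F (T t19 (L l47 (T t20 (L l109 (L l143 (L l475 (T t21 N))))))))) (K a53 (M a192 (F (T t19 (L l109 (L l143 (L l475 (L l491 (T t21 (L l142 (T t31 N)))))))))) (K a26 (M a192 (F (T t837 (T t20 (L l109 (L l143 (L l475 (T t21 N)))))))) (K a42 (M a192 (F (T t19 (T t20 (L l28 (L l367 (T t29 N))))))) (K a58 (M a192 (F (T t19 (L l109 (L l143 (L l475 (T t21 (L l54 (L l142 (L l498 (T t31 N))))))))))) (K a15 (M a192 (F (T t57 (L l483 (T t27 (L l325 (T t20 N))))))) N)))))))))))))))⟩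
def e0_63__87_74 : Ent 4 := ⟨[a0, a63], [a87, a127], (M a48 (L l143 (F (T t1 (T t2 (T t3 (T t0 (K a16 (M a60 (L l143 (F (T t64 (L l14 (L l18 (L l475 (T t67 (L l349 (T t65 (K a67 (M a107 (F (T t451 (L l76 (L l145 (L l349 (L l475 (T t1159 N)))))))) (K a107 (M a67 (F (T t70 (L l475 (T t69 (L l14 (L l18 (L l391 (T t44 N))))))))) N)))))))))))) (K a32 (M a60 (L l143 (F (T t64 (L l475 (T t67 (L l24 (L l28 (L l349 (T t65 (K a67 (M a107 (F (T t451 (L l76 (L l145 (L l349 (L l475 (T t1159 N)))))))) (K a107 (M a67 (F (T t70 (L l28 (L l475 (T t69 (L l391 (T t44 N)))))))) N)))))))))))) (K a21 (M a192 (L l143 (F (T t28 (L l47 (L l347 (T t20 (L l18 (L l144 (T t224 (K a67 (M a107 (F (T t28 (L l347 (L l349 (T t1172 N)))))) (K a107 (M a67 (F (T t28 (L l103 (L l137 (L l347 (T t225 (L l18 (L l98 (L l144 (T t224 N))))))))))) N)))))))))))) (K a37 (M a192 (L l143 (F (T t19 (L l47 (T t20 (L l28 (L l144 (L l475 (T t37 (K a67 (M a107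 (F (T t19 (L l349 (T t1172 N))))) (K a107 (M a67 (F (T t19 (L l103 (L l137 (T t225 (L l28 (L l98 (L l144 (L l475 (T t37 N))))))))))) N)))))))))))) (K a53 (M a192 (L l143 (F (T t19 (L l144 (L l475 (T t37 (L l47 (L l137 (L l491 (T t525 (K a67 (M a107 (F (T t28 (L l349 (L l491 (T t1172 N)))))) (K a107 (M a67 (F (T t19 (L l98 (L l144 (L l475 (T t37 (L l47 (L l103 (L l137 (L l491 (T t525 N)))))))))))) N))))))))))))) (K a26 (M a192 (L l143 (F (T t28 (T t20 (L l54 (L l144 (L l475 (T t37 (K a67 (M a107 (F (T t20 (L l76 (L l307 (L l349 (L l475 (T t1174 N)))))))) (K a107 (M a67 (F (T t20 (T t28 (L l54 (L l98 (L l144 (L l475 (T t37 N))))))))) N))))))))))) (K a42 (M a192 (L l143 (F (T t19 (T t20 (L l54 (L l144 (L l390 (T t224 (K a67 (M a107 (F (T t19 (L l349 (T t1172 N))))) (K a107 (M a67 (F (T t20 (L l28 (T t28 (L l54 (L l98 (L l144 (L l390 (T t224 N)))))))))) N))))))))))) (K a58 (M a192 (L l143 (F (T t19 (L l54 (L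 l144 (L l475 (L l498 (T t37 (L l137 (T t525 (K a67 (M a107 (F (T t28 (L l349 (T t1172 N))))) (K a107 (M a67 (F (T t19 (L l54 (L l98 (L l144 (L l475 (L l498 (T t37 (L l103 (L l137 (T t525 N)))))))))))) N))))))))))))) (K a15 (M a192 (L l143 (F (T t56 (L l114 (L l483 (T t27 (L l144 (L l469 (L l475 (T t37 (K a67 (M a107 (F (T t36 (L l63 (L l349 (T t1172 N)))))) (K a107 (M a67 (F (T t36 (L l103 (L l137 (L l325 (T t225 (L l98 (L l144 (L l469 (L l475 (T t37 N)))))))))))) N))))))))))))) (K a67 (M a107 (F (T t2 (L l76 (L l121 (L l349 (T t1173 (K a16 (M a192 (F (T t20 (L l76 (L l307 (L l349 (L l475 (T t1174 N)))))))) (K a32 (M a192 (F (T t20 (L l76 (L l307 (L l349 (L l475 (T t1174 N)))))))) N))))))))) (K a107 (M a67 (F (T t1 (T t2 (L l409 (T t3 (T t0 (K a16 (M a1 (F (T t2707 (T t542 N)))) (K a32 (M a1 (F (T t2707 (L l20 (L l28 (T t542 N)))))) (K a21 (M a64 (F (L l98 (T t3697 (T t3698 N))))) (K a37 (M a64 (F (L l98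 (T t3697 (T t3698 N))))) (K a53 (M a3 (F (T t3694 (L l47 (T t358 N))))) (K a26 (M a64 (F (L l98 (T t3697 (T t3698 N))))) (K a42 (M a64 (F (T t3699 (T t3698 N)))) (K a58 (M a3 (F (T t3694 (L l36 (T t358 N))))) (K a15 (M a64 (F (L l98 (T t3700 (L l481 (T t3698 N)))))) N)))))))))))))))) N))))))))))))))))))⟩
def e0_63__87_75 : Ent 4 := ⟨[a0, a63], [a87, a128], (M a48 (F (T t1 (T t2 (T t3 (T t0 (K a16 (M a60 (F (T t64 (L l14 (L l18 (L l475 (T t67 (L l349 (T t65 N))))))))) (K a32 (M a60 (F (T t64 (L l475 (T t67 (L l24 (L l28 (L l349 (T t65 N))))))))) (K a21 (M a154 (F (T t526 (L l367 (L l475 (T t327 (L l47 (L l367 (T t527 N))))))))) (K a37 (M a52 (F (T t82 (T t83 (L l21 (L l28 (T t84 N))))))) (K a53 (M a12 (F (T t151 (T t443 (L l47 (T t146 N)))))) (K a26 (M a56 (F (T t133 (T t134 (L l12 (L l18 (T t135 N))))))) (K a42 (M a154 (F (T t493 (L l28 (L l367 (L l475 (T t327 (L l28 (L l367 (T t527 N)))))))))) (K a58 (M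 a12 (F (T t443 (T t122 (T t146 N))))) (K a15 (M a4 (F (T t129 (L l63 (T t528 (T t520 N)))))) N)))))))))))))))⟩
def e0_63__87_76 : Ent 4 := ⟨[a0, a63], [a87, a129], (M a48 (F (T t1 (T t2 (T t3 (T t0 (K a16 (M a60 (F (T t64 (L l14 (L l18 (L l309 (L l475 (T t67 (L l349 (T t65 N)))))))))) (K a32 (M a60 (F (T t64 (L l309 (L l475 (T t67 (L l24 (L l28 (L l349 (T t65 N)))))))))) (K a21 (M a192 (F (T t837 (L l47 (L l217 (L l347 (T t20 (L l47 (L l217 (L l347 (L l367 (T t29 N)))))))))))) (K a37 (M a192 (F (T t19 (L l47 (L l217 (T t20 (L l143 (L l152 (L l217 (L l475 (T t21 N))))))))))) (K a53 (M a192 (F (T t19 (L l143 (L l152 (L l217 (L l475 (L l491 (T t21 (T t31 N)))))))))) (K a26 (M a192 (F (T t837 (L l217 (T t20 (L l143 (L l152 (L l217 (L l475 (T t21 N)))))))))) (K a42 (M a192 (F (T t19 (L l217 (T t20 (L l28 (L l217 (L l367 (T t29 N))))))))) (K a58 (M a192 (F (T t19 (L l143 (L l152 (L l217 (L l475 (T t21 (L l54 (L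 l498 (T t31 N))))))))))) (K a15 (M a192 (F (T t1681 (L l152 (L l483 (T t27 (L l217 (L l325 (T t20 N))))))))) N)))))))))))))))⟩
def e0_63__87_77 : Ent 4 := ⟨[a0, a63], [a87, a130], (M a48 (F (T t1 (T t2 (T t3 (T t0 (K a16 (M a60 (F (T t64 (L l14 (L l18 (L l475 (T t67 (L l349 (T t65 N))))))))) (K a32 (M a60 (F (T t64 (L l475 (T t67 (L l24 (L l28 (L l349 (T t65 N))))))))) (K a21 (M a192 (F (T t837 (L l47 (L l347 (T t20 (L l47 (L l347 (L l367 (T t29 N)))))))))) (K a37 (M a192 (F (T t19 (L l47 (T t20 (L l143 (L l152 (L l475 (T t21 N))))))))) (K a53 (M a192 (F (T t19 (L l143 (L l152 (L l475 (L l491 (T t21 (T t31 N))))))))) (K a26 (M a192 (F (T t837 (T t20 (L l143 (L l152 (L l475 (T t21 N)))))))) (K a42 (M a192 (F (T t19 (T t20 (L l28 (L l367 (T t29 N))))))) (K a58 (M a192 (F (T t19 (L l143 (L l152 (L l475 (T t21 (L l54 (L l498 (T t31 N)))))))))) (K a15 (M a192 (F (T t1681 (L l152 (L l483 (T t27 (L l325 (T t20 N))))))))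 N)))))))))))))))⟩
def e0_63__87_78 : Ent 4 := ⟨[a0, a63], [a87, a131], (M a85 (F (T t88 (L l143 (L l475 (T t52 (T t89 (L l219 (T t90 (K a64 (M a240 (F (T t933 (L l93 (T t387 N))))) (K a192 (M a16 (F (T t112 (L l367 (T t96 (L l296 (L l367 (T t98 N)))))))) (K a21 (M a48 (F (T t873 (L l47 (L l143 (L l367 (T t100 (L l143 (L l197 (T t50 N)))))))))) (K a149 (M a16 (F (T t112 (L l367 (T t173 (L l93 (L l170 (T t102 N)))))))) (K a213 (Fr a170 a255 l476 (Fr a42 a21 l68 (Fr a106 a234 l390 (Fr a192 a149 l519 (V t581))))) (K a42 (M a48 (F (L l475 (T t364 (L l143 (L l197 (L l390 (T t50 (L l28 (L l143 (L l367 (T t100 N)))))))))))) (K a106 (M a48 (F (T t1 (L l104 (L l367 (T t509 (L l143 (L l197 (L l390 (T t50 N)))))))))) (K a170 (M a16 (F (L l390 (L l404 (T t97 (L l367 (L l390 (T t98 (L l143 (L l367 (L l404 (T t113 (L l367 (L l404 (T t174 N))))))))))))))) (K a255 (M a3 (F (T t85 (L l143 (L l261 (L l349 (T t376 (L l152 (L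 l261 (L l296 (T t357 (L l261 (L l296 (T t1921 N)))))))))))))) N))))))))))))))))))⟩
def e0_63__87_79 : Ent 4 := ⟨[a0, a63], [a87, a132], (M a48 (F (T t1 (T t2 (T t3 (T t0 (K a16 (M a60 (F (T t64 (L l14 (L l18 (L l475 (T t67 (L l349 (T t65 N))))))))) (K a32 (M a60 (F (T t64 (L l475 (T t67 (L l24 (L l28 (L l349 (T t65 N))))))))) (K a21 (M a192 (F (T t837 (L l47 (L l202 (L l347 (T t20 (L l47 (L l202 (L l347 (L l367 (T t29 N)))))))))))) (K a37 (M a192 (F (T t19 (L l47 (L l202 (T t20 (L l143 (L l156 (L l202 (L l475 (T t21 N))))))))))) (K a53 (M a192 (F (T t19 (L l143 (L l156 (L l202 (L l475 (L l491 (T t21 (T t31 N)))))))))) (K a26 (M a192 (F (T t837 (L l202 (T t20 (L l143 (L l156 (L l202 (L l475 (T t21 N)))))))))) (K a42 (M a192 (F (T t19 (L l202 (T t20 (L l28 (L l202 (L l367 (T t29 N))))))))) (K a58 (M a192 (F (T t19 (L l143 (L l156 (L l202 (L l475 (T t21 (L l54 (L l498 (T t31 N))))))))))) (K a15 (M a192 (F (T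 t1681 (L l156 (L l483 (T t27 (L l202 (L l325 (T t20 N))))))))) N)))))))))))))))⟩
def e0_63__87_80 : Ent 4 := ⟨[a0, a63], [a87, a133], (M a12 (F (T t122 (T t151 (T t152 (T t153 (K a4 (M a60 (F (T t835 (L l46 (L l50 (L l475 (T t67 (L l349 (T t448 N))))))))) (K a8 (M a60 (F (T t835 (L l475 (T t67 (L l52 (L l56 (L l349 (T t448 N))))))))) (K a21 (M a192 (F (T t836 (L l15 (L l199 (L l347 (T t450 (L l15 (L l199 (L l347 (L l457 (T t157 N)))))))))))) (K a25 (M a192 (F (T t836 (L l15 (L l199 (T t450 (L l143 (L l160 (L l199 (L l475 (T t21 N))))))))))) (K a29 (M a192 (F (T t836 (L l143 (L l160 (L l199 (L l371 (L l475 (T t21 (T t160 N)))))))))) (K a38 (M a192 (F (T t836 (L l199 (T t450 (L l143 (L l160 (L l199 (L l475 (T t21 N)))))))))) (K a42 (M a192 (F (T t836 (L l199 (T t450 (L l56 (L l199 (L l457 (T t157 N))))))))) (K a46 (M a192 (F (T t836 (L l143 (L l160 (L l199 (L l475 (T t21 (L l26 (L l408 (T t160 N)))))))))))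 (K a51 (M a192 (F (T t1681 (L l153 (L l160 (L l513 (T t156 (L l199 (L l415 (T t450 N)))))))))) N)))))))))))))))⟩
def e0_63__87_81 : Ent 4 := ⟨[a0, a63], [a87, a134], (M a85 (F (T t88 (L l143 (L l475 (T t52 (T t89 (T t90 (K a64 (M a240 (F (T t933 (L l93 (T t387 N))))) (K a192 (M a16 (F (T t112 (L l314 (L l367 (T t96 (L l296 (L l367 (T t98 N))))))))) (K a21 (M a48 (F (L l367 (T t261 (L l143 (T t50 (L l47 (L l143 (L l367 (T t100 N)))))))))) (K a149 (M a16 (F (T t112 (L l314 (L l367 (T t173 (L l93 (L l170 (T t102 N))))))))) (K a213 (Fr a170 a255 l476 (Fr a42 a21 l68 (Fr a106 a234 l390 (Fr a192 a149 l519 (V t581))))) (K a42 (M a48 (F (L l475 (T t364 (L l143 (L l390 (T t50 (L l28 (L l143 (L l367 (T t100 N))))))))))) (K a106 (M a48 (F (T t1 (L l104 (L l314 (L l367 (T t509 (L l143 (L l390 (T t50 N)))))))))) (K a170 (M a16 (F (L l390 (L l404 (T t97 (L l367 (L l390 (T t98 (L l143 (L l367 (L l404 (T t113 (L l367 (L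 l404 (T t174 N))))))))))))))) (K a255 (M a3 (F (T t85 (L l143 (L l261 (L l349 (T t376 (L l261 (L l296 (T t357 (L l261 (L l296 (T t1921 N))))))))))))) N)))))))))))))))))⟩
def e0_63__87_82 : Ent 4 := ⟨[a0, a63], [a87, a135], (M a85 (F (T t88 (L l143 (L l475 (T t52 (T t89 (T t90 (K a64 (M a240 (F (T t933 (L l93 (T t387 N))))) (K a192 (M a16 (F (T t112 (L l367 (T t96 (L l296 (L l367 (T t98 N)))))))) (K a21 (M a48 (F (T t873 (L l47 (L l143 (L l367 (T t100 (L l143 (T t50 N))))))))) (K a149 (M a16 (F (T t112 (L l367 (T t173 (L l93 (L l170 (T t102 N)))))))) (K a213 (Fr a170 a255 l476 (Fr a42 a21 l68 (Fr a106 a234 l390 (Fr a192 a149 l519 (V t581))))) (K a42 (M a48 (F (L l475 (T t364 (L l143 (L l390 (T t50 (L l28 (L l143 (L l367 (T t100 N))))))))))) (K a106 (M a48 (F (T t48 (L l104 (L l367 (T t509 (L l143 (L l390 (T t50 N))))))))) (K a170 (M a16 (F (L l390 (L l404 (T t112 (L l367 (L l390 (T t98 (L l143 (L l367 (L l404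 (T t113 (L l367 (L l404 (T t174 N))))))))))))))) (K a255 (M a3 (F (T t85 (L l143 (L l261 (L l349 (T t376 (L l261 (L l296 (T t357 (L l261 (L l296 (T t1921 N))))))))))))) N)))))))))))))))))⟩
def e0_63__87_83 : Ent 4 := ⟨[a0, a63], [a87, a136], (M a48 (F (T t1 (T t2 (T t3 (T t0 (K a16 (M a60 (F (T t64 (L l14 (L l18 (L l475 (T t67 (L l349 (T t65 N))))))))) (K a32 (M a60 (F (T t64 (L l475 (T t67 (L l24 (L l28 (L l349 (T t65 N))))))))) (K a21 (M a192 (F (T t837 (L l47 (L l347 (T t20 (L l47 (L l347 (L l367 (T t29 N)))))))))) (K a37 (M a192 (F (T t19 (L l47 (T t20 (L l143 (L l156 (L l475 (T t21 N))))))))) (K a53 (M a192 (F (T t19 (L l143 (L l156 (L l475 (L l491 (T t21 (T t31 N))))))))) (K a26 (M a192 (F (T t837 (T t20 (L l143 (L l156 (L l475 (T t21 N)))))))) (K a42 (M a192 (F (T t19 (T t20 (L l28 (L l367 (T t29 N))))))) (K a58 (M a192 (F (T t19 (L l143 (L l156 (L l475 (T t21 (L l54 (L l498 (T t31 N)))))))))) (K a15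 (M a192 (F (T t1681 (L l156 (L l483 (T t27 (L l325 (T t20 N)))))))) N)))))))))))))))⟩
def e0_63__87_84 : Ent 4 := ⟨[a0, a63], [a87, a137], (M a85 (F (T t88 (L l143 (L l475 (T t52 (T t89 (T t90 (K a64 (M a240 (F (T t933 (L l93 (T t387 N))))) (K a192 (M a16 (F (T t112 (L l329 (L l367 (T t96 (L l296 (L l367 (T t98 N))))))))) (K a21 (M a48 (F (L l367 (T t261 (L l143 (T t50 (L l47 (L l143 (L l367 (T t100 N)))))))))) (K a149 (M a16 (F (T t112 (L l329 (L l367 (T t173 (L l93 (L l170 (T t102 N))))))))) (K a213 (Fr a170 a255 l476 (Fr a42 a21 l68 (Fr a106 a234 l390 (Fr a192 a149 l519 (V t581))))) (K a42 (M a48 (F (L l475 (T t364 (L l143 (L l390 (T t50 (L l28 (L l143 (L l367 (T t100 N))))))))))) (K a106 (M a48 (F (T t1 (L l104 (L l329 (L l367 (T t509 (L l143 (L l390 (T t50 N)))))))))) (K a170 (M a16 (F (L l390 (L l404 (T t97 (L l367 (L l390 (T t98 (L l143 (L l367 (L l404 (T t113 (L l367 (L l404 (T t174 N)))))))))))))))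 (K a255 (M a3 (F (T t85 (L l143 (L l261 (L l349 (T t376 (L l157 (L l261 (L l296 (T t357 (L l261 (L l296 (T t1921 N)))))))))))))) N)))))))))))))))))⟩
def e0_63__87_85 : Ent 4 := ⟨[a0, a63], [a87, a138], (M a85 (F (T t88 (L l143 (L l475 (T t52 (T t89 (L l206 (T t90 (K a64 (M a240 (F (L l206 (T t933 (L l93 (T t387 N)))))) (K a192 (M a16 (F (T t112 (L l236 (L l367 (T t173 (L l296 (L l367 (T t98 N))))))))) (K a21 (M a240 (F (L l475 (T t1552 (L l206 (T t933 (L l93 (L l143 (L l318 (T t1385 N)))))))))) (K a149 (M a16 (F (T t112 (L l367 (T t173 (L l93 (L l170 (L l206 (T t102 N))))))))) (K a213 (Fr a170 a255 l476 (Fr a42 a21 l68 (Fr a106 a234 l390 (Fr a192 a149 l519 (V t581))))) (K a42 (M a240 (F (L l475 (T t1552 (L l143 (L l206 (L l390 (T t386 (L l93 (L l143 (L l318 (T t1385 N)))))))))))) (K a106 (M a48 (F (L l411 (T t3 (L l367 (T t1699 (L l143 (L l206 (L l390 (T t50 N)))))))))) (K a170 (M a154 (F (L l367 (L l390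 (T t2294 (L l143 (L l318 (L l367 (L l404 (T t1705 (L l390 (L l404 (T t2295 (L l367 (L l390 (L l404 (T t1711 (L l367 (L l404 (T t2296 N)))))))))))))))))))) (K a255 (M a3 (F (L l434 (T t358 (L l143 (L l261 (L l330 (L l349 (T t376 (L l261 (L l296 (L l330 (T t357 (L l261 (L l296 (T t1921 N)))))))))))))))) N))))))))))))))))))⟩
def e0_63__87_86 : Ent 4 := ⟨[a0, a63], [a87, a139], (M a85 (F (T t88 (L l143 (L l475 (T t52 (T t89 (T t90 (K a64 (M a240 (F (T t933 (L l93 (T t387 N))))) (K a192 (M a16 (F (T t1924 (L l339 (T t97 (L l296 (L l367 (T t98 N)))))))) (K a21 (M a48 (F (T t1243 (L l47 (L l143 (L l367 (T t100 (L l143 (T t50 N))))))))) (K a149 (M a16 (F (T t112 (L l331 (L l367 (T t173 (L l93 (L l170 (L l209 (T t102 N)))))))))) (K a213 (Fr a170 a255 l476 (Fr a42 a21 l68 (Fr a106 a234 l390 (Fr a192 a149 l519 (V t581))))) (K a42 (M a48 (F (L l475 (T t364 (L l143 (L l390 (T t50 (L l28 (L l143 (L l367 (T t100 N)))))))))))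 (K a106 (M a48 (F (T t1 (L l104 (L l367 (T t509 (L l143 (L l390 (T t50 N))))))))) (K a170 (M a16 (F (L l390 (L l404 (T t97 (L l367 (L l390 (T t98 (L l143 (L l367 (L l404 (T t113 (L l331 (L l367 (L l404 (T t174 N)))))))))))))))) (K a255 (M a3 (F (T t85 (L l143 (L l261 (L l349 (T t376 (L l261 (L l296 (T t357 (L l261 (L l296 (T t1921 N))))))))))))) N)))))))))))))))))⟩
def e0_63__87_87 : Ent 4 := ⟨[a0, a63], [a87, a140], (M a85 (F (T t88 (L l143 (L l475 (T t52 (T t89 (L l214 (T t90 (K a64 (M a240 (F (T t933 (L l93 (T t387 N))))) (K a192 (M a16 (F (T t112 (L l367 (T t96 (L l296 (L l367 (T t98 N)))))))) (K a21 (M a48 (F (T t873 (L l47 (L l143 (L l367 (T t100 (L l143 (L l222 (T t50 N)))))))))) (K a149 (M a16 (F (T t112 (L l367 (T t173 (L l93 (L l170 (T t102 N)))))))) (K a213 (Fr a170 a255 l476 (Fr a42 a21 l68 (Fr a106 a234 l390 (Fr a192 a149 l519 (V t581))))) (K a42 (M a48 (F (L l475 (T t364 (L l143 (L l222 (L l390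 (T t50 (L l28 (L l143 (L l367 (T t100 N)))))))))))) (K a106 (M a48 (F (T t1 (L l104 (L l367 (T t509 (L l143 (L l222 (L l390 (T t50 N)))))))))) (K a170 (M a16 (F (L l390 (L l404 (T t97 (L l367 (L l390 (T t98 (L l143 (L l367 (L l404 (T t113 (L l367 (L l404 (T t174 N))))))))))))))) (K a255 (M a3 (F (T t85 (L l143 (L l261 (L l349 (T t376 (L l261 (L l296 (T t357 (L l261 (L l296 (T t1921 N))))))))))))) N))))))))))))))))))⟩
def e0_63__87_88 : Ent 4 := ⟨[a0, a63], [a87, a141], (M a85 (F (T t88 (L l143 (L l475 (T t52 (T t89 (T t90 (K a64 (M a240 (F (T t933 (L l93 (T t387 N))))) (K a192 (M a16 (F (T t112 (L l367 (T t96 (L l296 (L l367 (T t98 N)))))))) (K a21 (M a48 (F (T t873 (L l47 (L l143 (L l367 (T t100 (L l143 (T t50 N))))))))) (K a149 (M a16 (F (T t112 (L l367 (T t173 (L l93 (L l170 (T t102 N)))))))) (K a213 (Fr a170 a255 l476 (Fr a42 a21 l68 (Fr a106 a234 l390 (Fr a192 a149 l519 (V t581))))) (K a42 (M a48 (F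 (L l475 (T t364 (L l143 (L l390 (T t50 (L l28 (L l143 (L l367 (T t100 N))))))))))) (K a106 (M a48 (F (T t48 (L l104 (L l367 (T t509 (L l143 (L l390 (T t50 N))))))))) (K a170 (M a16 (F (L l390 (L l404 (T t112 (L l367 (L l390 (T t98 (L l143 (L l367 (L l404 (T t113 (L l367 (L l404 (T t174 N))))))))))))))) (K a255 (M a3 (F (T t85 (L l143 (L l261 (L l349 (T t376 (L l157 (L l261 (L l296 (T t357 (L l261 (L l296 (T t1921 N)))))))))))))) N)))))))))))))))))⟩
def e0_63__87_89 : Ent 4 := ⟨[a0, a63], [a87, a142], (M a85 (F (T t88 (L l143 (L l475 (T t52 (T t89 (T t90 (K a64 (M a240 (F (T t933 (L l93 (T t387 N))))) (K a192 (M a16 (F (T t1924 (L l339 (T t97 (L l296 (L l367 (T t98 N)))))))) (K a21 (M a48 (F (T t1243 (L l47 (L l143 (L l367 (T t100 (L l143 (T t50 N))))))))) (K a149 (M a16 (F (T t112 (L l326 (L l367 (T t173 (L l93 (L l170 (L l224 (T t102 N)))))))))) (K a213 (Fr a170 a255 l476 (Fr a42 a21 l68 (Fr a106 a234 l390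 (Fr a192 a149 l519 (V t581))))) (K a42 (M a48 (F (L l475 (T t364 (L l143 (L l390 (T t50 (L l28 (L l143 (L l367 (T t100 N))))))))))) (K a106 (M a48 (F (T t1 (L l104 (L l367 (T t509 (L l143 (L l390 (T t50 N))))))))) (K a170 (M a16 (F (L l390 (L l404 (T t97 (L l367 (L l390 (T t98 (L l143 (L l367 (L l404 (T t113 (L l326 (L l367 (L l404 (T t174 N)))))))))))))))) (K a255 (M a3 (F (T t85 (L l143 (L l261 (L l349 (T t376 (L l261 (L l296 (T t357 (L l261 (L l296 (T t1921 N))))))))))))) N)))))))))))))))))⟩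
def e0_63__87_90 : Ent 4 := ⟨[a0, a63], [a87, a143], (M a85 (F (T t88 (L l143 (L l475 (T t52 (T t89 (L l213 (T t90 (K a64 (M a240 (F (T t933 (L l93 (T t387 N))))) (K a192 (M a16 (F (T t1924 (T t112 (L l213 (L l296 (L l367 (T t98 N)))))))) (K a21 (M a48 (F (T t1243 (L l47 (L l143 (L l367 (T t100 (L l47 (T t903 N))))))))) (K a149 (M a16 (F (T t112 (L l367 (L l475 (T t666 (L l93 (L l170 (L l227 (T t102 N)))))))))) (K a213 (Fr a170 a255 l476 (Fr a42 a21 l68 (Fr a106 a234 l390 (Fr a192 a149 l519 (V t581))))) (K a42 (M a48 (F (L l475 (T t364 (L l390 (T t903 (L l28 (L l143 (L l367 (T t100 N)))))))))) (K a106 (M a48 (F (T t48 (L l104 (L l367 (T t509 (L l143 (L l227 (L l390 (T t50 N)))))))))) (K a170 (M a16 (F (L l390 (L l404 (T t112 (L l213 (L l367 (L l390 (T t98 (L l143 (L l367 (L l404 (T t113 (L l325 (L l367 (L l404 (T t174 N))))))))))))))))) (K a255 (M a3 (F (T t85 (L l143 (L l261 (L l349 (T t376 (L l261 (L l296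 (T t357 (L l261 (L l296 (T t1921 N))))))))))))) N))))))))))))))))))⟩
def e0_63__87_91 : Ent 4 := ⟨[a0, a63], [a87, a148], (M a48 (F (T t1 (T t2 (T t3 (T t0 (K a16 (M a60 (F (T t64 (L l14 (L l18 (L l346 (L l475 (T t67 (L l349 (T t65 N)))))))))) (K a32 (M a60 (F (T t64 (L l346 (L l475 (T t67 (L l24 (L l28 (L l349 (T t65 N)))))))))) (K a21 (M a192 (F (T t837 (L l47 (L l163 (L l347 (T t20 (L l47 (L l163 (L l347 (L l367 (T t29 N)))))))))))) (K a37 (M a192 (F (T t837 (L l47 (L l163 (T t20 (L l143 (L l163 (L l216 (L l475 (T t21 N))))))))))) (K a53 (M a192 (F (T t837 (L l143 (L l163 (L l216 (L l475 (L l491 (T t21 (T t31 N)))))))))) (K a26 (M a192 (F (T t837 (L l163 (T t20 (L l143 (L l163 (L l216 (L l475 (T t21 N)))))))))) (K a42 (M a192 (F (T t837 (L l163 (T t20 (L l28 (L l163 (L l367 (T t29 N))))))))) (K a58 (M a192 (F (T t837 (L l143 (L l163 (L l216 (L l475 (T t21 (L l54 (L l498 (T t31 N))))))))))) (K a15 (M a192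 (F (T t1681 (L l166 (L l216 (L l483 (T t27 (L l163 (L l325 (T t20 N)))))))))) N)))))))))))))))⟩
def e0_63__87_92 : Ent 4 := ⟨[a0, a63], [a87, a149], (M a48 (F (T t2 (L l347 (L l491 (T t1 (L l347 (T t3 (L l375 (T t0 (K a16 (M a60 (F (T t70 (L l14 (L l18 (L l347 (L l475 (T t67 (L l349 (L l351 (T t65 N))))))))))) (K a32 (M a60 (F (T t70 (L l347 (L l475 (T t67 (L l24 (L l28 (L l349 (L l351 (T t65 N))))))))))) (K a21 (M a85 (F (L l367 (T t1699 (L l143 (L l220 (T t50 (L l47 (L l143 (L l170 (L l220 (L l367 (L l491 (T t544 (L l47 (L l367 (L l491 (T t545 N)))))))))))))))))) (K a37 (M a52 (F (T t82 (L l495 (T t83 (L l21 (L l28 (T t84 N)))))))) (K a53 (M a12 (L l491 (F (T t151 (T t443 (L l47 (L l347 (L l371 (T t146 (K a197 (M a101 (F (T t151 (L l236 (T t334 N))))) (K a101 (M a197 (F (T t151 (T t445 (L l47 (L l347 (L l371 (T t146 N)))))))) N))))))))))) (K a26 (M a56 (F (T t133 (L l491 (T t134 (L l12 (L l18 (L l347 (L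 l491 (T t135 N)))))))))) (K a42 (M a255 (F (L l143 (T t546 (L l87 (L l347 (T t547 (L l28 (L l220 (L l367 (L l390 (L l491 (T t548 N))))))))))))) (K a58 (M a12 (F (T t443 (L l347 (L l371 (T t122 (L l347 (L l371 (T t146 N))))))))) (K a15 (M a4 (F (T t129 (L l63 (T t528 (T t520 N)))))) N)))))))))))))))))))⟩
def e0_63__87_93 : Ent 4 := ⟨[a0, a63], [a87, a150], (M a48 (F (T t1 (T t2 (T t3 (T t0 (K a16 (M a60 (F (T t64 (L l14 (L l18 (L l350 (L l475 (T t67 (L l349 (T t65 N)))))))))) (K a32 (M a60 (F (T t64 (L l350 (L l475 (T t67 (L l24 (L l28 (L l349 (T t65 N)))))))))) (K a21 (M a192 (F (T t837 (L l47 (L l163 (L l347 (T t20 (L l47 (L l163 (L l347 (L l367 (T t29 N)))))))))))) (K a37 (M a192 (F (T t19 (L l47 (L l163 (T t20 (L l143 (L l163 (L l475 (T t21 N)))))))))) (K a53 (M a192 (F (T t19 (L l143 (L l163 (L l475 (L l491 (T t21 (L l516 (T t31 N)))))))))) (K a26 (M a192 (F (T t837 (L l163 (T t20 (L l143 (L l163 (L l475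 (T t21 N))))))))) (K a42 (M a192 (F (T t19 (L l163 (T t20 (L l28 (L l163 (L l367 (T t29 N))))))))) (K a58 (M a192 (F (T t19 (L l143 (L l163 (L l475 (T t21 (L l54 (L l498 (L l516 (T t31 N))))))))))) (K a15 (M a192 (F (T t1922 (L l163 (L l325 (T t20 (L l143 (L l163 (L l469 (L l475 (T t21 N))))))))))) N)))))))))))))))⟩
def e0_63__87_94 : Ent 4 := ⟨[a0, a63], [a87, a151], (M a149 (L l349 (F (T t5 (T t175 (L l219 (L l475 (T t176 (L l219 (L l475 (T t177 (K a192 (M a53 (L l349 (F (T t178 (L l236 (T t179 (L l236 (L l296 (T t180 (K a23 (M a215 (F (T t178 (L l236 (T t179 (L l236 (L l296 (T t180 N)))))))) (K a215 (M a23 (F (T t1079 (L l236 (T t179 N))))) N))))))))))) (K a21 (M a48 (L l349 (F (T t4 (T t13 (L l18 (T t14 (K a23 (M a215 (L l11 (F (T t4 (T t13 (L l18 (T t14 (K a20 (M a22 (F (T t15 (T t13 (L l14 (L l18 (T t14 N))))))) (K a22 (M a20 (F (T t4 (L l19 (L l69 (T t3701 N)))))) N))))))))) (K a215 (M a23 (F (T t181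 (L l65 (L l239 (T t182 N)))))) N))))))))) (K a85 (M a23 (L l87 (F (T t1940 (L l350 (T t1941 (L l144 (T t1942 (K a43 (Fr a192 a106 l519 (Fr a21 a42 l68 (Fr a20 a22 l11 (Fr a212 a86 l351 (Fr a84 a148 l346 (V t3769)))))) (K a84 (Fr a86 a212 l351 (V t1948)) (K a86 (M a84 (F (L l350 (T t1941 (L l142 (L l144 (L l145 (T t3703 (L l142 (L l473 (L l477 (T t3704 N)))))))))))) N))))))))))) (K a213 (Fr a106 a192 l519 (Fr a42 a21 l68 (Fr a170 a234 l390 (Fr a255 a85 l476 (V t582))))) (K a42 (M a48 (L l349 (F (T t187 (L l390 (T t13 (L l54 (T t14 (K a23 (M a215 (F (T t187 (L l390 (T t13 (L l54 (T t14 N))))))) (K a215 (M a23 (F (T t187 (L l22 (L l239 (T t182 N)))))) N)))))))))) (K a106 (M a48 (L l349 (F (T t1 (L l498 (T t14 (L l390 (L l498 (T t6 (L l367 (L l390 (T t26 (K a23 (M a215 (F (L l11 (T t1 (L l498 (T t14 (L l367 (L l390 (T t26 (L l390 (L l498 (T t6 N)))))))))))) (K a215 (M a23 (F (T t1 (L l239 (L l393 (T t3705 N))))))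 N)))))))))))))) (K a170 (M a23 (F (T t1940 (L l390 (T t1941 (L l87 (L l174 (L l390 (L l474 (T t3706 (L l474 (T t3707 N)))))))))))) (K a191 (M a23 (L l219 (F (T t1941 (L l185 (T t3708 (L l87 (T t3706 (K a131 (M a171 (F (T t3709 (T t1941 (L l87 (T t3706 N)))))) (K a171 (M a131 (L l475 (F (L l391 (T t3709 (L l391 (T t1941 (L l87 (L l174 (T t3706 (K a3 (M a255 (F (T t3710 (L l87 (L l477 (T t3711 (L l69 (T t1942 N)))))))) (K a255 (Fr a3 a43 l67 (V t3712)) N)))))))))))) N)))))))))) (K a255 (M a3 (L l349 (F (T t1265 (L l434 (T t137 (L l143 (L l295 (T t1883 (K a23 (M a215 (F (L l143 (T t1883 (L l296 (T t3713 (L l87 (T t3714 (T t3715 N))))))))) (K a215 (Fr a23 a43 l67 (V t3712)) N))))))))))) (K a23 (M a215 (F (T t5 (L l11 (T t3716 (L l219 (L l475 (T t3717 (L l11 (L l219 (T t3718 (T t3719 (K a85 (M a55 (L l87 (F (T t3720 (L l458 (T t2039 (L l126 (T t3721 (K a84 (M a86 (F (T t3722 (T t3723 N)))) (K a86 (M a84 (F (T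 t3720 (T t3724 N)))) N)))))))))) (K a106 (M a48 (F (L l11 (T t1 (L l498 (T t14 (L l367 (L l390 (T t26 (L l390 (L l498 (T t6 N)))))))))))) N)))))))))))))) (K a215 (M a23 (F (T t175 (T t1079 (L l239 (T t3708 N)))))) N))))))))))))))))))))))⟩
def e0_63__87_95 : Ent 4 := ⟨[a0, a63], [a87, a152], (M a85 (F (T t88 (L l143 (L l475 (T t52 (T t89 (T t90 (K a64 (M a204 (F (T t1575 (L l125 (L l204 (T t1576 N)))))) (K a192 (M a16 (F (T t112 (L l367 (T t96 (L l296 (L l367 (T t98 N)))))))) (K a21 (M a48 (F (T t873 (L l47 (L l143 (L l367 (T t100 (L l143 (L l222 (T t50 N)))))))))) (K a149 (M a16 (F (T t112 (L l367 (T t173 (L l93 (L l164 (L l170 (T t102 N))))))))) (K a213 (Fr a170 a255 l476 (Fr a42 a21 l68 (Fr a106 a234 l390 (Fr a192 a149 l519 (V t581))))) (K a42 (M a48 (F (L l364 (L l475 (T t364 (L l143 (L l222 (L l390 (T t50 (L l28 (L l143 (L l367 (T t100 N))))))))))))) (K a106 (M a48 (F (T t1 (L l104 (L l367 (T t509 (L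 l143 (L l222 (L l390 (T t50 N)))))))))) (K a170 (M a16 (F (L l390 (L l404 (T t97 (L l367 (L l390 (T t98 (L l143 (L l367 (L l404 (T t113 (L l367 (L l404 (T t174 N))))))))))))))) (K a255 (M a3 (F (T t85 (L l143 (L l261 (L l349 (T t376 (L l261 (L l296 (T t357 (L l261 (L l296 (T t1921 N))))))))))))) N)))))))))))))))))⟩
def e0_63__87_96 : Ent 4 := ⟨[a0, a63], [a87, a153], (M a48 (F (T t1 (T t2 (T t3 (T t0 (K a16 (M a60 (F (T t277 (L l14 (L l18 (L l475 (T t67 (L l349 (T t65 N))))))))) (K a32 (M a60 (F (T t277 (L l475 (T t67 (L l24 (L l28 (L l349 (T t65 N))))))))) (K a21 (M a192 (F (T t837 (L l47 (L l167 (L l347 (T t20 (L l47 (L l167 (L l347 (L l367 (T t29 N)))))))))))) (K a37 (M a192 (F (T t19 (L l47 (L l167 (T t20 (L l143 (L l167 (L l475 (T t21 N)))))))))) (K a53 (M a192 (F (T t19 (L l143 (L l167 (L l475 (L l491 (T t21 (L l501 (T t31 N)))))))))) (K a26 (M a192 (F (T t837 (L l167 (T t20 (L l143 (L l167 (L l475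 (T t21 N))))))))) (K a42 (M a192 (F (T t19 (L l167 (T t20 (L l28 (L l167 (L l367 (T t29 N))))))))) (K a58 (M a192 (F (T t19 (L l143 (L l167 (L l475 (T t21 (L l54 (L l498 (L l501 (T t31 N))))))))))) (K a15 (M a192 (F (T t1922 (L l167 (L l325 (T t20 (L l143 (L l167 (L l469 (L l475 (T t21 N))))))))))) N)))))))))))))))⟩
def e0_63__87_97 : Ent 4 := ⟨[a0, a63], [a87, a154], (M a12 (F (T t122 (T t151 (T t152 (T t153 (K a4 (M a60 (F (T t398 (L l46 (L l50 (L l475 (T t67 (L l349 (T t448 N))))))))) (K a8 (M a60 (F (T t398 (L l475 (T t67 (L l52 (L l56 (L l349 (T t448 N))))))))) (K a21 (M a192 (F (T t836 (L l15 (L l170 (L l347 (T t450 (L l15 (L l170 (L l347 (L l457 (T t157 N)))))))))))) (K a25 (M a192 (F (T t449 (L l15 (L l170 (T t450 (L l143 (L l170 (L l475 (T t21 N)))))))))) (K a29 (M a192 (F (T t449 (L l143 (L l170 (L l371 (L l475 (T t21 (L l498 (T t160 N)))))))))) (K a38 (M a192 (F (T t836 (L l170 (T t450 (L l143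 (L l170 (L l475 (T t21 N))))))))) (K a42 (M a192 (F (T t449 (L l170 (T t450 (L l56 (L l170 (L l457 (T t157 N))))))))) (K a46 (M a192 (F (T t449 (L l143 (L l170 (L l475 (T t21 (L l26 (L l408 (L l498 (T t160 N))))))))))) (K a51 (M a192 (F (T t1725 (L l170 (L l415 (T t450 (L l143 (L l170 (L l439 (L l475 (T t21 N))))))))))) N)))))))))))))))⟩
def e0_63__87_98 : Ent 4 := ⟨[a0, a63], [a87, a155], (M a48 (L l367 (F (T t1 (T t2 (T t3 (T t0 (K a16 (M a85 (L l367 (F (T t88 (L l143 (T t50 (T t51 (K a19 (M a223 (L l10 (F (T t3725 (T t88 (T t51 (K a17 (M a18 (F (T t3725 (L l14 (L l41 (T t244 N)))))) (K a18 (M a17 (F (T t3725 (L l42 (T t1279 N))))) N)))))))) (K a223 (M a19 (F (T t90 (L l143 (T t50 (L l246 (T t51 N))))))) N))))))))) (K a32 (M a51 (L l367 (F (T t589 (T t1995 (T t591 (K a19 (M a223 (F (T t3726 (T t592 (L l10 (T t591 N)))))) (K a223 (M a19 (F (L l20 (L l368 (T t3727 (T t3726 N)))))) N)))))))) (K a21 (M a255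 (L l367 (F (T t511 (L l87 (L l347 (L l511 (T t547 (L l47 (T t3728 (K a19 (M a223 (F (T t3729 (T t1160 N)))) (K a223 (M a19 (F (T t511 (L l87 (L l347 (L l368 (L l511 (T t547 (L l87 (L l143 (L l347 (L l368 (T t3730 N))))))))))))) N)))))))))))) (K a37 (M a85 (L l367 (F (T t90 (L l475 (T t364 (L l28 (T t51 (K a19 (M a223 (F (T t3731 (L l47 (L l143 (L l475 (T t52 N))))))) (K a223 (M a19 (F (T t2029 (L l25 (L l28 (L l355 (T t3732 N))))))) N)))))))))) (K a53 (M a192 (L l367 (F (T t19 (L l143 (L l475 (L l491 (T t21 (L l169 (T t31 (K a19 (M a223 (F (T t837 (L l47 (L l475 (L l491 (T t35 (L l47 (L l491 (T t525 N)))))))))) (K a223 (M a19 (F (T t1800 (T t3733 N)))) N)))))))))))) (K a26 (M a12 (L l367 (F (T t443 (L l54 (L l511 (T t151 (L l12 (L l18 (T t146 (K a19 (M a223 (F (L l54 (T t2061 (L l164 (L l354 (T t3734 N))))))) (K a223 (M a19 (F (L l57 (T t550 (L l54 (L l511 (T t151 (L l12 (L l18 (T t146 N)))))))))) N))))))))))))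 (K a42 (M a101 (L l367 (F (L l511 (T t334 (L l54 (T t313 (L l54 (T t314 (K a19 (M a223 (F (L l511 (T t3735 (L l54 (L l390 (T t440 (L l10 (L l54 (T t431 N)))))))))) (K a223 (M a19 (F (L l289 (L l511 (T t336 (L l22 (L l28 (L l355 (T t3736 N))))))))) N))))))))))) (K a58 (M a192 (L l367 (F (T t19 (L l143 (L l475 (T t21 (L l54 (L l169 (L l498 (T t31 (K a19 (M a223 (F (T t837 (L l475 (T t35 (T t525 N)))))) (K a223 (M a19 (F (T t57 (T t3733 N)))) N))))))))))))) (K a15 (M a154 (L l367 (F (T t326 (L l325 (L l511 (T t806 (T t3737 (K a19 (M a223 (F (T t3738 (L l325 (L l511 (T t493 N)))))) (K a223 (M a19 (F (T t326 (L l73 (L l355 (T t3732 N)))))) N)))))))))) (K a19 (M a223 (F (T t1 (L l87 (T t3739 (L l87 (T t3740 (K a16 (M a17 (F (T t1279 (L l499 (T t3334 (T t3741 (T t3742 N))))))) (K a32 (M a31 (F (L l10 (L l28 (T t3743 (L l93 (L l404 (T t3744 N)))))))) N))))))))) (K a223 (M a19 (F (T t1 (L l499 (T t3745 (L l355 (T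 t3732 (L l361 (T t3746 (K a16 (M a85 (F (T t90 (L l143 (T t50 (L l246 (T t51 N))))))) N)))))))))) N))))))))))))))))))⟩
def e0_63__87_99 : Ent 4 := ⟨[a0, a63], [a87, a156], (M a85 (F (T t88 (L l143 (L l475 (T t52 (T t89 (T t90 (K a64 (M a240 (F (T t933 (L l93 (T t387 N))))) (K a192 (M a16 (F (T t112 (L l367 (T t96 (L l165 (L l296 (L l367 (T t98 N))))))))) (K a21 (M a48 (F (T t873 (L l47 (L l143 (L l367 (T t100 (L l143 (T t50 N))))))))) (K a149 (M a16 (F (T t112 (L l367 (T t173 (L l93 (L l170 (T t102 N)))))))) (K a213 (Fr a170 a255 l476 (Fr a42 a21 l68 (Fr a106 a234 l390 (Fr a192 a149 l519 (V t581))))) (K a42 (M a48 (F (L l475 (T t364 (L l143 (L l390 (T t50 (L l28 (L l143 (L l367 (T t100 N))))))))))) (K a106 (M a48 (F (T t1 (L l104 (L l367 (T t509 (L l143 (L l390 (T t50 N))))))))) (K a170 (M a16 (F (L l390 (L l404 (T t97 (L l165 (L l367 (L l390 (T t98 (L l143 (L l367 (L l404 (T t113 (L l367 (L l404 (T t174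 N)))))))))))))))) (K a255 (M a3 (F (T t85 (L l143 (L l261 (L l349 (T t376 (L l261 (L l296 (T t357 (L l261 (L l296 (T t1921 N))))))))))))) N)))))))))))))))))⟩
def e0_63__87_100 : Ent 4 := ⟨[a0, a63], [a87, a157], (M a48 (F (T t1 (T t2 (T t3 (L l363 (T t0 (K a16 (M a60 (F (T t42 (L l14 (L l18 (L l475 (T t67 (L l349 (T t65 N))))))))) (K a32 (M a60 (F (T t42 (L l475 (T t67 (L l24 (L l28 (L l349 (T t65 N))))))))) (K a21 (M a192 (F (T t837 (L l47 (L l167 (L l347 (T t20 (L l47 (L l167 (L l347 (L l367 (T t29 N)))))))))))) (K a37 (M a192 (F (T t19 (L l47 (L l167 (T t20 (L l143 (L l167 (L l475 (T t21 N)))))))))) (K a53 (M a192 (F (T t19 (L l143 (L l167 (L l475 (L l491 (T t21 (L l165 (T t31 N)))))))))) (K a26 (M a192 (F (T t27 (L l167 (T t20 (L l143 (L l167 (L l475 (T t21 N))))))))) (K a42 (M a192 (F (T t19 (L l167 (T t20 (L l28 (L l167 (L l367 (T t29 N))))))))) (K a58 (M a192 (F (T t19 (L l143 (L l167 (L l475 (T t21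 (L l54 (L l165 (L l498 (T t31 N))))))))))) (K a15 (M a192 (F (T t1681 (L l483 (T t27 (L l167 (L l325 (T t20 N)))))))) N))))))))))))))))⟩
def e0_63__87_101 : Ent 4 := ⟨[a0, a63], [a87, a158], (M a85 (F (T t88 (L l143 (L l475 (T t52 (T t89 (T t90 (K a64 (M a240 (F (T t933 (L l93 (T t387 N))))) (K a192 (M a16 (F (T t1924 (L l339 (T t97 (L l165 (L l296 (L l362 (L l367 (T t98 N)))))))))) (K a21 (M a48 (F (T t1243 (L l47 (L l143 (L l362 (L l367 (T t100 (L l143 (T t50 N)))))))))) (K a149 (M a16 (F (T t112 (L l362 (L l367 (L l506 (T t173 (L l93 (L l168 (L l170 (T t102 N))))))))))) (K a213 (Fr a170 a255 l476 (Fr a42 a21 l68 (Fr a106 a234 l390 (Fr a192 a149 l519 (V t581))))) (K a42 (M a48 (F (L l475 (T t364 (L l143 (L l390 (T t50 (L l28 (L l143 (L l362 (L l367 (T t100 N)))))))))))) (K a106 (M a48 (F (T t1 (L l104 (L l362 (L l367 (T t509 (L l143 (L l390 (T t50 N)))))))))) (K a170 (M a16 (F (L l390 (L l404 (T t97 (L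 l165 (L l362 (L l367 (L l390 (T t98 (L l143 (L l362 (L l367 (L l404 (T t113 (L l362 (L l367 (L l404 (L l506 (T t174 N)))))))))))))))))))) (K a255 (M a3 (F (T t85 (L l143 (L l261 (L l349 (T t376 (L l261 (L l296 (T t357 (L l261 (L l296 (T t1921 N))))))))))))) N)))))))))))))))))⟩
def e0_63__87_102 : Ent 4 := ⟨[a0, a63], [a87, a159], (M a48 (F (T t1 (T t2 (T t3 (L l361 (T t0 (K a16 (M a60 (F (T t64 (L l14 (L l18 (L l475 (T t67 (L l349 (T t65 N))))))))) (K a32 (M a60 (F (T t64 (L l475 (T t67 (L l24 (L l28 (L l349 (T t65 N))))))))) (K a21 (M a192 (F (T t837 (L l47 (L l170 (L l347 (T t20 (L l18 (T t224 N))))))))) (K a37 (M a192 (F (T t837 (L l47 (L l170 (T t20 (L l213 (L l475 (T t202 N))))))))) (K a53 (M a192 (F (T t837 (L l213 (L l475 (T t202 (L l47 (L l170 (L l491 (T t838 N)))))))))) (K a26 (M a192 (F (T t837 (L l170 (T t20 (L l213 (L l475 (T t202 N)))))))) (K a42 (M a192 (F (T t837 (L l170 (T t20 (L l54 (L l390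 (T t224 N)))))))) (K a58 (M a192 (F (T t837 (L l213 (L l475 (L l498 (T t202 (L l170 (T t838 N))))))))) (K a15 (M a192 (F (T t1681 (L l483 (T t837 (L l170 (L l325 (T t20 N)))))))) N))))))))))))))))⟩
def e0_63__87_103 : Ent 4 := ⟨[a0, a63], [a87, a168], (M a85 (F (T t88 (L l143 (L l475 (T t52 (T t89 (L l174 (T t90 (K a64 (M a16 (F (L l400 (T t97 (L l84 (L l367 (L l475 (T t666 (L l116 (L l367 (T t98 N))))))))))) (K a192 (M a16 (F (L l400 (T t504 (L l296 (L l367 (L l475 (T t666 (L l296 (L l367 (T t98 N))))))))))) (K a21 (M a48 (F (L l174 (T t873 (L l47 (L l143 (L l367 (L l400 (T t100 (L l143 (L l174 (T t50 N)))))))))))) (K a149 (M a16 (F (L l400 (T t112 (L l367 (L l475 (T t666 (L l93 (L l170 (T t102 N)))))))))) (K a213 (Fr a170 a255 l476 (Fr a42 a21 l68 (Fr a106 a234 l390 (Fr a192 a149 l519 (V t581))))) (K a42 (M a48 (F (L l475 (T t364 (L l28 (L l143 (L l367 (L l400 (T t100 (L l143 (L l174 (L l390 (T t50 N)))))))))))))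 (K a106 (M a48 (F (T t1 (L l104 (L l367 (L l400 (T t509 (L l143 (L l174 (L l390 (T t50 N))))))))))) (K a170 (M a169 (F (L l390 (T t2024 (L l143 (L l349 (L l388 (L l474 (T t2025 (L l390 (L l474 (T t2026 (L l390 (L l474 (T t2027 (L l474 (T t2028 N))))))))))))))))) (K a255 (M a3 (F (T t85 (L l296 (T t3611 (L l143 (L l261 (L l349 (L l388 (T t376 (L l261 (L l296 (T t1921 N))))))))))))) N))))))))))))))))))⟩
def e0_63__87_104 : Ent 4 := ⟨[a0, a63], [a87, a169], (M a48 (F (T t1 (T t2 (T t3 (T t0 (K a16 (M a60 (F (T t64 (L l14 (L l18 (L l393 (L l475 (L l477 (T t67 (L l349 (T t65 N))))))))))) (K a32 (M a60 (F (T t64 (L l393 (L l475 (L l477 (T t67 (L l24 (L l28 (L l349 (T t65 N))))))))))) (K a21 (M a192 (F (T t837 (L l47 (L l217 (L l347 (T t20 (L l47 (L l217 (L l347 (L l367 (T t29 N)))))))))))) (K a37 (M a192 (F (T t19 (L l47 (L l217 (T t20 (L l143 (L l217 (L l475 (T t21 N)))))))))) (K a53 (M a192 (F (T t19 (L l143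 (L l217 (L l475 (L l491 (T t21 (L l393 (T t31 N)))))))))) (K a26 (M a192 (F (T t837 (L l217 (T t20 (L l143 (L l217 (L l475 (T t21 N))))))))) (K a42 (M a192 (F (T t19 (L l217 (T t20 (L l28 (L l217 (L l367 (T t29 N))))))))) (K a58 (M a192 (F (T t19 (L l143 (L l217 (L l475 (T t21 (L l54 (L l393 (L l498 (T t31 N))))))))))) (K a15 (M a192 (F (T t1922 (L l217 (L l325 (T t20 (L l143 (L l217 (L l469 (L l475 (T t21 N))))))))))) N)))))))))))))))⟩
def e0_63__87_105 : Ent 4 := ⟨[a0, a63], [a87, a170], (M a48 (F (T t3 (L l462 (T t1 (L l390 (T t2 (L l390 (L l404 (T t0 (K a16 (M a60 (F (T t64 (L l14 (L l18 (L l475 (T t67 (L l349 (L l390 (L l392 (T t65 N))))))))))) (K a32 (M a62 (L l404 (F (T t825 (L l474 (L l475 (T t709 (L l20 (L l402 (T t826 (K a101 (M a239 (F (T t711 (L l491 (T t825 (L l20 (L l402 (L l491 (T t826 N))))))))) (K a239 (M a101 (F (T t711 (L l220 (L l289 (T t336 N)))))) N)))))))))))) (K a21 (M a192 (F (T t837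 (L l390 (T t206 (L l47 (L l220 (L l347 (L l367 (L l404 (T t29 N))))))))))) (K a37 (M a192 (F (T t19 (L l390 (T t206 (L l28 (L l47 (L l220 (L l367 (L l404 (T t29 N))))))))))) (K a53 (M a12 (F (T t550 (L l47 (L l402 (T t122 (L l47 (L l402 (T t146 N))))))))) (K a26 (M a192 (F (T t837 (L l54 (L l390 (T t206 (L l220 (L l367 (L l404 (T t29 N)))))))))) (K a42 (M a106 (F (T t309 (L l220 (T t551 (L l28 (L l206 (L l220 (L l367 (L l404 (T t552 (L l28 (L l206 (L l367 (L l404 (T t553 N)))))))))))))))) (K a58 (M a12 (F (T t445 (L l402 (T t122 (L l402 (T t146 N))))))) (K a15 (M a192 (F (L l483 (T t19 (L l325 (L l390 (T t206 (L l220 (L l367 (L l404 (T t29 N))))))))))) N)))))))))))))))))))⟩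
def e0_63__87_106 : Ent 4 := ⟨[a0, a63], [a87, a171], (M a48 (L l475 (F (T t1 (T t2 (T t3 (T t0 (K a16 (M a255 (F (T t1169 (L l174 (L l219 (T t1165 (L l18 (L l87 (L l368 (T t1167 N)))))))))) (K a32 (M a255 (F (T t1169 (L l174 (L l219 (L l404 (T t1165 (L l87 (T t1167 N))))))))) (K a21 (M a255 (F (T t1160 (L l87 (L l347 (T t547 (L l47 (L l174 (L l367 (T t548 N)))))))))) (K a37 (M a3 (F (L l403 (T t348 (L l47 (L l349 (T t353 (L l25 (L l28 (L l391 (T t87 N))))))))))) (K a53 (M a3 (F (T t86 (L l391 (T t137 (L l391 (T t87 N))))))) (K a26 (M a3 (F (L l72 (T t86 (L l54 (L l391 (T t137 (L l16 (L l18 (L l349 (T t560 N))))))))))) (K a42 (M a255 (F (T t1169 (L l87 (T t547 (L l28 (L l174 (L l367 (L l390 (T t548 N)))))))))) (K a58 (M a3 (F (T t1249 (L l54 (L l391 (T t137 (L l54 (L l391 (T t87 N))))))))) (K a15 (M a3 (F (T t797 (L l63 (L l391 (T t137 (L l63 (L l391 (T t87 N))))))))) (K a3 (M a255 (F (T t610 (L l453 (T t1160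 (L l174 (L l219 (L l309 (T t1165 N))))))))) (K a255 (M a3 (F (T t136 (L l469 (T t1 (L l391 (L l434 (T t137 N)))))))) N))))))))))))))))))⟩
def e0_63__87_107 : Ent 4 := ⟨[a0, a63], [a87, a172], (M a85 (F (T t88 (L l143 (L l475 (T t52 (T t89 (T t90 (K a64 (M a240 (F (T t933 (L l93 (L l176 (T t387 N)))))) (K a192 (M a16 (F (T t112 (L l367 (T t96 (L l296 (L l367 (T t98 N)))))))) (K a21 (M a48 (F (T t873 (L l47 (L l143 (L l367 (T t100 (L l143 (T t50 N))))))))) (K a149 (M a16 (F (T t112 (L l367 (T t173 (L l93 (L l170 (T t102 N)))))))) (K a213 (Fr a170 a255 l476 (Fr a42 a21 l68 (Fr a106 a234 l390 (Fr a192 a149 l519 (V t581))))) (K a42 (M a48 (F (L l475 (T t364 (L l143 (L l390 (T t50 (L l28 (L l143 (L l367 (T t100 N))))))))))) (K a106 (M a48 (F (T t1 (L l104 (L l367 (T t509 (L l143 (L l390 (T t50 N))))))))) (K a170 (M a16 (F (L l390 (L l404 (T t97 (L l367 (L l390 (T t98 (L l143 (L l367 (L l404 (T t113 (L l367 (L l404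 (T t174 N))))))))))))))) (K a255 (M a3 (F (T t85 (L l143 (L l261 (L l349 (T t376 (L l261 (L l296 (T t357 (L l261 (L l296 (L l466 (T t1921 N)))))))))))))) N)))))))))))))))))⟩
def e0_63__87_108 : Ent 4 := ⟨[a0, a63], [a87, a173], (M a85 (F (T t88 (L l143 (L l475 (T t52 (T t89 (T t90 (K a64 (M a240 (F (T t933 (L l93 (T t387 N))))) (K a192 (M a16 (F (T t112 (L l367 (T t96 (L l296 (L l367 (T t98 N)))))))) (K a21 (M a48 (F (T t873 (L l47 (L l143 (L l367 (T t100 (L l143 (T t50 N))))))))) (K a149 (M a16 (F (T t112 (L l367 (T t173 (L l93 (L l170 (T t102 N)))))))) (K a213 (Fr a170 a255 l476 (Fr a42 a21 l68 (Fr a106 a234 l390 (Fr a192 a149 l519 (V t581))))) (K a42 (M a48 (F (L l475 (T t364 (L l143 (L l390 (T t50 (L l28 (L l143 (L l367 (T t100 N))))))))))) (K a106 (M a48 (F (T t48 (L l104 (L l367 (T t509 (L l143 (L l390 (T t50 N))))))))) (K a170 (M a16 (F (L l390 (L l404 (T t112 (L l367 (L l390 (T t98 (L l143 (L l367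 (L l404 (T t113 (L l367 (L l404 (T t174 N))))))))))))))) (K a255 (M a3 (F (T t85 (L l143 (L l261 (L l349 (L l467 (T t376 (L l261 (L l296 (L l467 (T t357 (L l261 (L l296 (L l471 (T t1921 N)))))))))))))))) N)))))))))))))))))⟩
def e0_63__87_109 : Ent 4 := ⟨[a0, a63], [a87, a174], (M a48 (F (T t1 (T t2 (T t3 (T t0 (K a16 (M a60 (F (T t64 (L l14 (L l18 (L l475 (T t67 (L l349 (T t65 N))))))))) (K a32 (M a60 (F (T t64 (L l475 (T t67 (L l24 (L l28 (L l349 (T t65 N))))))))) (K a21 (M a192 (F (T t837 (L l47 (L l347 (T t20 (L l47 (L l347 (L l367 (T t29 N)))))))))) (K a37 (M a192 (F (T t19 (L l47 (T t20 (L l143 (L l470 (L l475 (T t21 N))))))))) (K a53 (M a192 (F (T t19 (L l143 (L l470 (L l475 (L l491 (T t21 (T t31 N))))))))) (K a26 (M a192 (F (T t837 (T t20 (L l143 (L l470 (L l475 (T t21 N)))))))) (K a42 (M a192 (F (T t19 (T t20 (L l28 (L l367 (T t29 N))))))) (K a58 (M a192 (F (T t19 (L l143 (L l470 (L l475 (T t21 (L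 l54 (L l498 (T t31 N)))))))))) (K a15 (M a192 (F (T t1681 (L l483 (T t27 (L l325 (T t20 N))))))) N)))))))))))))))⟩
def e0_63__87_110 : Ent 4 := ⟨[a0, a63], [a87, a175], (M a12 (F (T t122 (T t151 (T t152 (T t153 (K a4 (M a60 (F (T t570 (L l46 (L l50 (L l475 (T t67 (L l349 (T t448 N))))))))) (K a8 (M a60 (F (T t570 (L l475 (T t67 (L l52 (L l56 (L l349 (T t448 N))))))))) (K a21 (M a192 (F (T t836 (L l15 (L l347 (T t450 (L l15 (L l347 (L l457 (T t157 N)))))))))) (K a25 (M a192 (F (T t449 (L l15 (T t450 (L l143 (L l469 (L l475 (T t21 N))))))))) (K a29 (M a192 (F (T t449 (L l143 (L l371 (L l469 (L l475 (T t21 (T t160 N))))))))) (K a38 (M a192 (F (T t836 (T t450 (L l143 (L l469 (L l475 (T t21 N)))))))) (K a42 (M a192 (F (T t449 (T t450 (L l56 (L l457 (T t157 N))))))) (K a46 (M a192 (F (T t449 (L l143 (L l469 (L l475 (T t21 (L l26 (L l408 (T t160 N)))))))))) (K a51 (M a192 (F (T t1681 (L l513 (T t156 (L l415 (T t450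 N))))))) N)))))))))))))))⟩
def e0_63__87_111 : Ent 4 := ⟨[a0, a63], [a87, a188], (M a85 (F (T t88 (L l143 (L l475 (T t52 (T t89 (L l185 (T t90 (K a64 (M a240 (F (T t933 (L l93 (T t387 N))))) (K a192 (M a16 (F (T t112 (L l367 (T t96 (L l296 (L l367 (T t98 N)))))))) (K a21 (M a48 (F (T t873 (L l47 (L l143 (L l367 (T t100 (L l143 (L l186 (T t50 N)))))))))) (K a149 (M a16 (F (T t112 (L l367 (T t173 (L l93 (L l170 (T t102 N)))))))) (K a213 (Fr a170 a255 l476 (Fr a42 a21 l68 (Fr a106 a234 l390 (Fr a192 a149 l519 (V t581))))) (K a42 (M a48 (F (L l475 (T t364 (L l143 (L l186 (L l390 (T t50 (L l28 (L l143 (L l367 (T t100 N)))))))))))) (K a106 (M a48 (F (T t1 (L l104 (L l367 (T t509 (L l143 (L l186 (L l390 (T t50 N)))))))))) (K a170 (M a16 (F (L l390 (L l404 (T t97 (L l367 (L l390 (T t98 (L l143 (L l367 (L l404 (T t113 (L l367 (L l404 (T t174 N))))))))))))))) (K a255 (M a3 (F (T t85 (L l143 (L l261 (L l349 (T t376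 (L l261 (L l296 (T t357 (L l261 (L l296 (L l430 (T t1921 N)))))))))))))) N))))))))))))))))))⟩
def e0_63__87_112 : Ent 4 := ⟨[a0, a63], [a87, a189], (M a48 (F (T t1 (T t2 (T t3 (T t0 (K a16 (M a60 (F (T t42 (L l14 (L l18 (L l475 (T t67 (L l349 (T t65 N))))))))) (K a32 (M a60 (F (T t42 (L l475 (T t67 (L l24 (L l28 (L l349 (T t65 N))))))))) (K a21 (M a192 (F (T t837 (L l47 (L l217 (L l347 (T t20 (L l47 (L l217 (L l347 (L l367 (T t29 N)))))))))))) (K a37 (M a192 (F (T t19 (L l47 (L l217 (T t20 (L l143 (L l217 (L l475 (T t21 N)))))))))) (K a53 (M a192 (F (T t19 (L l143 (L l217 (L l475 (L l491 (T t21 (T t31 N))))))))) (K a26 (M a192 (F (T t27 (L l217 (T t20 (L l143 (L l217 (L l475 (T t21 N))))))))) (K a42 (M a192 (F (T t19 (L l217 (T t20 (L l28 (L l217 (L l367 (T t29 N))))))))) (K a58 (M a192 (F (T t19 (L l143 (L l217 (L l475 (T t21 (L l54 (L l498 (T t31 N)))))))))) (K a15 (M a192 (F (T t55 (L l217 (L l325 (T t20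 (L l143 (L l217 (L l469 (L l475 (T t21 N))))))))))) N)))))))))))))))⟩
def e0_63__87_113 : Ent 4 := ⟨[a0, a63], [a87, a190], (M a48 (F (T t1 (T t2 (T t3 (T t0 (K a16 (M a60 (F (T t64 (L l14 (L l18 (L l475 (T t67 (L l349 (T t65 N))))))))) (K a32 (M a60 (F (T t64 (L l475 (T t67 (L l24 (L l28 (L l349 (T t65 N))))))))) (K a21 (M a192 (F (T t837 (L l47 (L l347 (T t20 (L l47 (L l347 (L l367 (T t29 N)))))))))) (K a37 (M a192 (F (T t19 (L l47 (T t20 (L l143 (L l434 (L l475 (T t21 N))))))))) (K a53 (M a192 (F (T t19 (L l143 (L l434 (L l475 (L l491 (T t21 (T t31 N))))))))) (K a26 (M a192 (F (T t837 (T t20 (L l143 (L l434 (L l475 (T t21 N)))))))) (K a42 (M a192 (F (T t19 (T t20 (L l28 (L l367 (T t29 N))))))) (K a58 (M a192 (F (T t19 (L l143 (L l434 (L l475 (T t21 (L l54 (L l498 (T t31 N)))))))))) (K a15 (M a192 (F (T t1681 (L l483 (T t27 (L l325 (T t20 N))))))) N)))))))))))))))⟩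
def e0_63__87_114 : Ent 4 := ⟨[a0, a63], [a87, a191], (M a48 (F (T t1 (T t2 (T t3 (T t0 (K a16 (M a60 (F (T t64 (L l14 (L l18 (L l475 (T t67 (L l349 (T t65 N))))))))) (K a32 (M a60 (F (T t64 (L l475 (T t67 (L l24 (L l28 (L l349 (T t65 N))))))))) (K a21 (M a192 (F (T t28 (T t206 (L l47 (L l220 (L l347 (L l367 (T t29 N))))))))) (K a37 (M a192 (F (T t19 (T t206 (L l47 (L l220 (L l475 (T t35 N)))))))) (K a53 (M a192 (F (T t19 (L l47 (L l220 (L l475 (L l491 (T t35 (L l213 (T t31 N)))))))))) (K a26 (M a192 (F (T t28 (L l54 (T t206 (L l18 (L l220 (L l475 (T t35 N))))))))) (K a42 (M a192 (F (T t19 (L l54 (L l390 (T t206 (L l28 (L l220 (L l367 (T t29 N)))))))))) (K a58 (M a192 (F (T t19 (L l220 (L l475 (T t35 (L l54 (L l213 (L l498 (T t31 N)))))))))) (K a15 (M a192 (F (T t53 (L l483 (T t19 (L l220 (L l469 (L l475 (T t35 N))))))))) N)))))))))))))))⟩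
def e0_63__87_115 : Ent 4 := ⟨[a0, a63], [a87, a192], (M a48 (F (T t48 (L l339 (T t1 (L l339 (T t2 (L l339 (T t3 (L l339 (T t0 (K a16 (M a60 (F (T t662 (L l489 (T t64 (L l349 (T t65 N))))))) (K a32 (M a60 (F (T t116 (L l489 (T t64 (L l24 (L l28 (L l349 (T t65 N))))))))) (K a21 (M a255 (F (T t3576 (L l268 (T t1160 (L l47 (L l236 (L l367 (T t548 N))))))))) (K a37 (M a52 (F (T t555 (L l334 (T t82 (L l21 (L l28 (T t84 N)))))))) (K a53 (M a12 (F (T t145 (L l47 (L l489 (T t122 (L l47 (T t146 N)))))))) (K a26 (M a56 (F (T t556 (L l334 (T t133 (L l12 (L l18 (T t135 N)))))))) (K a42 (M a255 (F (L l268 (T t1169 (L l87 (L l236 (T t547 (L l28 (L l236 (L l367 (L l390 (T t548 N)))))))))))) (K a58 (M a12 (F (T t145 (L l489 (T t122 (T t146 N)))))) (K a15 (M a4 (L l339 (F (T t129 (L l63 (L l514 (T t528 (T t520 (K a133 (M a74 (F (T t558 (L l73 (L l489 (T t519 (T t520 N))))))) (K a74 (M a133 (F (T t558 (L l73 (L l489 (T t519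 (T t520 N))))))) N)))))))))) N))))))))))))))))))))⟩
def e0_63__87_116 : Ent 4 := ⟨[a0, a63], [a87, a193], (M a48 (F (T t1 (T t2 (T t3 (T t0 (K a16 (M a60 (F (T t42 (L l14 (L l18 (L l475 (T t67 (L l349 (T t65 N))))))))) (K a32 (M a60 (F (T t42 (L l475 (T t67 (L l24 (L l28 (L l349 (T t65 N))))))))) (K a21 (M a192 (F (T t837 (L l47 (L l347 (L l515 (T t20 (L l47 (L l347 (L l367 (L l515 (T t29 N)))))))))))) (K a37 (M a192 (F (T t19 (L l47 (L l515 (T t20 (L l143 (L l475 (L l515 (T t21 N)))))))))) (K a53 (M a192 (F (T t19 (L l143 (L l475 (L l491 (L l515 (T t21 (L l293 (T t31 N)))))))))) (K a26 (M a192 (F (T t27 (L l515 (T t20 (L l143 (L l475 (L l515 (T t21 N))))))))) (K a42 (M a192 (F (T t19 (L l515 (T t20 (L l28 (L l367 (L l515 (T t29 N))))))))) (K a58 (M a192 (F (T t19 (L l143 (L l475 (L l515 (T t21 (L l54 (L l293 (L l498 (T t31 N))))))))))) (K a15 (M a192 (F (T t1800 (L l483 (T t27 (L l325 (L l515 (T t20 N))))))))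 N)))))))))))))))⟩
def e0_63__87_117 : Ent 4 := ⟨[a0, a63], [a87, a194], (M a48 (F (T t1 (T t2 (T t3 (T t0 (K a16 (M a60 (F (T t42 (L l14 (L l18 (L l475 (T t67 (L l349 (T t65 N))))))))) (K a32 (M a60 (F (T t42 (L l475 (T t67 (L l24 (L l28 (L l349 (T t65 N))))))))) (K a21 (M a192 (F (T t837 (L l47 (L l234 (L l347 (T t20 (L l47 (L l234 (L l347 (L l367 (T t29 N)))))))))))) (K a37 (M a192 (F (T t19 (L l47 (L l234 (T t20 (L l143 (L l475 (T t21 N))))))))) (K a53 (M a192 (F (T t19 (L l143 (L l475 (L l491 (T t21 (L l516 (T t31 N))))))))) (K a26 (M a192 (F (T t837 (L l234 (T t20 (L l143 (L l475 (T t21 N)))))))) (K a42 (M a192 (F (T t19 (L l234 (T t20 (L l28 (L l234 (L l367 (T t29 N))))))))) (K a58 (M a192 (F (T t19 (L l143 (L l475 (T t21 (L l54 (L l498 (L l516 (T t31 N)))))))))) (K a15 (M a192 (F (T t33 (L l483 (T t27 (L l143 (L l469 (L l475 (T t21 N))))))))) N)))))))))))))))⟩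
def e0_63__87_118 : Ent 4 := ⟨[a0, a63], [a87, a195], (M a48 (F (T t48 (L l337 (T t1 (L l337 (T t2 (L l337 (T t3 (L l337 (T t0 (K a16 (M a60 (F (T t662 (L l487 (T t64 (L l349 (T t65 N))))))) (K a32 (M a60 (F (T t116 (L l487 (T t64 (L l24 (L l28 (L l349 (T t65 N))))))))) (K a21 (M a192 (F (T t54 (L l273 (T t27 (L l47 (L l347 (L l367 (T t29 N))))))))) (K a37 (M a192 (F (T t54 (L l273 (T t27 (L l143 (L l295 (L l475 (T t21 N))))))))) (K a53 (M a192 (F (T t1681 (L l273 (T t27 (T t31 N)))))) (K a26 (M a192 (F (T t56 (L l273 (T t27 (L l143 (L l295 (L l475 (T t21 N))))))))) (K a42 (M a192 (F (T t56 (L l273 (T t27 (L l28 (L l367 (T t29 N)))))))) (K a58 (M a192 (F (T t57 (L l273 (T t27 (L l54 (L l498 (T t31 N)))))))) (K a15 (M a106 (L l337 (F (T t2289 (T t306 (K a135 (M a75 (F (T t2289 (T t306 N)))) (K a75 (M a135 (F (T t2289 (T t306 N)))) N))))))) N))))))))))))))))))))⟩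
def e0_63__87_119 : Ent 4 := ⟨[a0, a63], [a87, a196], (M a85 (F (L l278 (T t89 (L l143 (L l475 (T t52 (L l232 (L l278 (T t88 (L l232 (T t90 (K a64 (M a240 (F (T t933 (L l93 (L l278 (T t387 N)))))) (K a192 (M a204 (F (T t2308 (L l334 (T t1575 (L l125 (L l278 (L l296 (T t1685 (L l125 (L l310 (T t2309 N)))))))))))) (K a21 (M a48 (F (T t873 (L l47 (L l143 (L l367 (T t100 (L l143 (T t50 N))))))))) (K a149 (M a55 (F (L l310 (T t2039 (L l220 (L l278 (L l457 (T t2310 (L l125 (L l202 (T t2311 N))))))))))) (K a213 (Fr a170 a255 l476 (Fr a42 a21 l68 (Fr a106 a234 l390 (Fr a192 a149 l519 (V t581))))) (K a42 (M a48 (F (L l475 (T t364 (L l143 (L l390 (T t50 (L l28 (L l143 (L l367 (T t100 N))))))))))) (K a106 (M a48 (F (T t1 (L l104 (L l367 (T t509 (L l143 (L l390 (T t50 N))))))))) (K a170 (M a16 (F (L l390 (L l404 (T t97 (L l278 (L l367 (L l390 (T t98 (L l143 (L l367 (L l404 (T t113 (L l229 (L l367 (L l404 (T t174 N)))))))))))))))))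 (K a255 (M a3 (F (T t85 (L l143 (L l261 (L l349 (T t376 (L l261 (L l278 (L l296 (T t357 (L l261 (L l274 (L l278 (L l296 (T t1921 N)))))))))))))))) N)))))))))))))))))))))⟩
def e0_63__87_120 : Ent 4 := ⟨[a0, a63], [a87, a197], (M a85 (F (L l275 (T t89 (L l143 (L l475 (T t52 (L l236 (L l275 (T t88 (L l236 (T t90 (K a64 (M a204 (F (T t1575 (L l125 (L l229 (L l275 (T t1576 N))))))) (K a192 (M a207 (F (T t2056 (L l143 (L l339 (T t2057 (L l275 (L l296 (L l484 (T t2058 (L l339 (T t2059 N)))))))))))) (K a21 (M a48 (F (L l367 (T t935 (L l143 (T t50 (L l47 (L l143 (L l236 (L l367 (L l491 (T t100 N)))))))))))) (K a149 (M a53 (F (L l311 (T t982 (L l220 (L l275 (T t1560 (L l199 (T t2060 N))))))))) (K a213 (Fr a170 a255 l476 (Fr a42 a21 l68 (Fr a106 a234 l390 (Fr a192 a149 l519 (V t581))))) (K a42 (M a48 (F (L l475 (T t364 (L l143 (L l390 (T t50 (L l28 (L l143 (L l236 (L l367 (L l491 (T t100 N))))))))))))) (K a106 (M a48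 (F (L l491 (T t1 (L l367 (L l475 (T t99 (L l143 (L l390 (T t50 N)))))))))) (K a170 (M a48 (F (T t3 (L l206 (L l220 (L l236 (L l275 (L l311 (L l390 (T t3747 (L l143 (L l236 (L l367 (L l404 (L l491 (T t100 N)))))))))))))))) (K a255 (M a3 (F (T t85 (L l143 (L l261 (L l349 (T t376 (L l261 (L l275 (L l296 (T t357 (L l261 (L l275 (L l296 (T t1921 N))))))))))))))) N)))))))))))))))))))))⟩
def e0_63__87_121 : Ent 4 := ⟨[a0, a63], [a87, a198], (M a85 (F (T t88 (L l143 (L l475 (T t52 (T t89 (T t90 (K a64 (M a240 (F (T t933 (L l93 (T t387 N))))) (K a192 (M a16 (F (T t112 (L l367 (T t96 (L l296 (L l367 (T t98 N)))))))) (K a21 (M a48 (F (T t873 (L l47 (L l143 (L l234 (L l367 (T t100 (L l143 (T t50 N)))))))))) (K a149 (M a16 (F (T t112 (L l367 (T t173 (L l93 (L l170 (T t102 N)))))))) (K a213 (Fr a170 a255 l476 (Fr a42 a21 l68 (Fr a106 a234 l390 (Fr a192 a149 l519 (V t581))))) (K a42 (M a48 (F (L l475 (T t364 (L l143 (L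 l390 (T t50 (L l28 (L l143 (L l234 (L l367 (T t100 N)))))))))))) (K a106 (M a48 (F (T t1 (L l104 (L l367 (T t509 (L l143 (L l390 (T t50 N))))))))) (K a170 (M a16 (F (L l390 (L l404 (T t97 (L l367 (L l390 (T t98 (L l143 (L l234 (L l367 (L l404 (T t113 (L l229 (L l367 (L l404 (T t174 N))))))))))))))))) (K a255 (M a3 (F (T t85 (L l143 (L l261 (L l349 (T t376 (L l261 (L l296 (T t357 (L l261 (L l296 (T t1921 N))))))))))))) N)))))))))))))))))⟩
def e0_63__87_122 : Ent 4 := ⟨[a0, a63], [a87, a199], (M a85 (F (T t88 (L l143 (L l475 (T t52 (T t89 (T t90 (K a64 (M a240 (F (T t933 (L l93 (T t387 N))))) (K a192 (M a16 (F (T t112 (L l314 (L l367 (L l494 (T t96 (L l296 (L l367 (T t98 N)))))))))) (K a21 (M a48 (F (L l367 (T t935 (L l143 (T t50 (L l47 (L l143 (L l367 (T t100 N)))))))))) (K a149 (M a16 (F (T t112 (L l235 (L l314 (L l367 (T t173 (L l93 (L l170 (T t102 N)))))))))) (K a213 (Fr a170 a255 l476 (Fr a42 a21 l68 (Fr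 a106 a234 l390 (Fr a192 a149 l519 (V t581))))) (K a42 (M a48 (F (L l475 (T t364 (L l143 (L l390 (T t50 (L l28 (L l143 (L l367 (T t100 N))))))))))) (K a106 (M a48 (F (T t1 (L l104 (L l314 (L l367 (L l494 (T t509 (L l143 (L l390 (T t50 N))))))))))) (K a170 (M a16 (F (L l390 (L l404 (T t97 (L l367 (L l390 (T t98 (L l143 (L l367 (L l404 (T t113 (L l229 (L l235 (L l367 (L l404 (T t174 N))))))))))))))))) (K a255 (M a3 (F (T t85 (L l143 (L l261 (L l349 (T t376 (L l261 (L l296 (T t357 (L l261 (L l296 (T t1921 N))))))))))))) N)))))))))))))))))⟩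
def e0_63__87_123 : Ent 4 := ⟨[a0, a63], [a87, a200], (M a48 (F (T t1 (T t2 (T t3 (T t0 (K a16 (M a60 (F (T t64 (L l14 (L l18 (L l475 (T t67 (L l349 (T t65 N))))))))) (K a32 (M a60 (F (T t64 (L l475 (T t67 (L l24 (L l28 (L l349 (T t65 N))))))))) (K a21 (M a192 (F (T t837 (L l47 (L l230 (L l347 (T t20 (L l47 (L l230 (L l347 (L l367 (T t29 N)))))))))))) (K a37 (M a192 (F (T t19 (L l47 (L l230 (T t20 (L l143 (L l475 (T t21 N))))))))) (K a53 (M a192 (F (T t19 (L l143 (L l475 (L l491 (T t21 (L l501 (T t31 N))))))))) (K a26 (M a192 (F (T t837 (L l230 (T t20 (L l143 (L l475 (T t21 N)))))))) (K a42 (M a192 (F (T t19 (L l230 (T t20 (L l28 (L l230 (L l367 (T t29 N))))))))) (K a58 (M a192 (F (T t19 (L l143 (L l475 (T t21 (L l54 (L l498 (L l501 (T t31 N)))))))))) (K a15 (M a192 (F (T t33 (L l483 (T t27 (L l143 (L l469 (L l475 (T t21 N))))))))) N)))))))))))))))⟩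
def e0_63__87_124 : Ent 4 := ⟨[a0, a63], [a87, a201], (M a85 (F (T t88 (L l143 (L l475 (T t52 (T t89 (T t90 (K a64 (M a240 (F (T t933 (L l93 (T t387 N))))) (K a192 (M a16 (F (T t112 (L l367 (T t96 (L l296 (L l367 (T t98 N)))))))) (K a21 (M a48 (F (T t873 (L l47 (L l143 (L l230 (L l367 (T t100 (L l143 (T t50 N)))))))))) (K a149 (M a16 (F (T t112 (L l367 (T t173 (L l93 (L l170 (T t102 N)))))))) (K a213 (Fr a170 a255 l476 (Fr a42 a21 l68 (Fr a106 a234 l390 (Fr a192 a149 l519 (V t581))))) (K a42 (M a48 (F (L l475 (T t364 (L l143 (L l390 (T t50 (L l28 (L l143 (L l230 (L l367 (T t100 N)))))))))))) (K a106 (M a48 (F (T t1 (L l104 (L l367 (T t509 (L l143 (L l390 (T t50 N))))))))) (K a170 (M a16 (F (L l390 (L l404 (T t97 (L l367 (L l390 (T t98 (L l143 (L l230 (L l367 (L l404 (T t113 (L l233 (L l367 (L l404 (T t174 N))))))))))))))))) (K a255 (M a3 (F (T t85 (L l143 (L l261 (L l349 (T t376 (L l261 (L l296 (T t357 (L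 l261 (L l296 (T t1921 N))))))))))))) N)))))))))))))))))⟩
def e0_63__87_125 : Ent 4 := ⟨[a0, a63], [a87, a202], (M a48 (F (T t3 (L l318 (T t1 (L l498 (T t2 (T t0 (K a16 (M a60 (F (T t64 (L l14 (L l18 (L l475 (T t67 (L l349 (L l498 (T t65 N)))))))))) (K a32 (M a60 (F (T t64 (L l475 (T t67 (L l24 (L l28 (L l349 (L l498 (T t65 N)))))))))) (K a21 (M a192 (F (T t27 (L l498 (T t22 (L l18 (L l498 (T t46 N)))))))) (K a37 (M a192 (F (T t19 (L l498 (T t22 (L l143 (L l475 (T t21 N)))))))) (K a53 (M a192 (F (T t19 (L l143 (L l475 (L l491 (T t21 (L l498 (T t31 N))))))))) (K a26 (M a192 (F (T t837 (L l498 (T t22 (L l143 (L l475 (T t21 N)))))))) (K a42 (M a192 (F (T t27 (L l390 (L l498 (T t22 (L l390 (L l498 (T t46 N))))))))) (K a58 (M a106 (F (T t551 (L l54 (L l236 (T t586 (L l282 (T t599 N)))))))) (K a15 (M a192 (F (T t1922 (L l325 (L l498 (T t22 (L l143 (L l469 (L l475 (T t21 N)))))))))) N)))))))))))))))))⟩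
def e0_63__87_126 : Ent 4 := ⟨[a0, a63], [a87, a203], (M a85 (F (T t88 (L l143 (L l475 (T t52 (T t89 (T t90 (K a64 (M a240 (F (T t933 (L l93 (T t387 N))))) (K a192 (M a16 (F (T t1924 (L l339 (T t97 (L l296 (L l367 (T t98 N)))))))) (K a21 (M a48 (F (T t1243 (L l47 (L l143 (L l230 (L l367 (T t100 (L l143 (T t50 N)))))))))) (K a149 (M a16 (F (T t112 (L l235 (L l367 (T t173 (L l93 (L l170 (L l500 (T t102 N)))))))))) (K a213 (Fr a170 a255 l476 (Fr a42 a21 l68 (Fr a106 a234 l390 (Fr a192 a149 l519 (V t581))))) (K a42 (M a48 (F (L l475 (T t364 (L l143 (L l390 (T t50 (L l28 (L l143 (L l230 (L l367 (T t100 N)))))))))))) (K a106 (M a48 (F (T t1 (L l104 (L l367 (T t509 (L l143 (L l390 (T t50 N))))))))) (K a170 (M a16 (F (L l390 (L l404 (T t97 (L l367 (L l390 (T t98 (L l143 (L l230 (L l367 (L l404 (T t113 (L l235 (L l367 (L l404 (T t174 N))))))))))))))))) (K a255 (M a3 (F (T t85 (L l143 (L l261 (L l349 (T t376 (L l261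 (L l296 (T t357 (L l261 (L l296 (T t1921 N))))))))))))) N)))))))))))))))))⟩
def e0_63__87_127 : Ent 4 := ⟨[a0, a63], [a87, a204], (M a48 (F (T t48 (L l327 (T t1 (L l327 (T t2 (L l327 (T t3 (L l327 (T t0 (K a16 (M a60 (F (T t662 (L l513 (T t64 (L l349 (T t65 N))))))) (K a32 (M a60 (F (T t116 (L l513 (T t64 (L l24 (L l28 (L l349 (T t65 N))))))))) (K a21 (M a192 (F (T t54 (L l298 (T t27 (L l47 (L l347 (L l367 (T t29 N))))))))) (K a37 (M a192 (F (T t54 (L l298 (T t27 (L l143 (L l290 (L l475 (T t21 N))))))))) (K a53 (M a192 (F (T t1681 (L l298 (T t27 (T t31 N)))))) (K a26 (M a192 (F (T t56 (L l298 (T t27 (L l143 (L l290 (L l475 (T t21 N))))))))) (K a42 (M a192 (F (T t56 (L l298 (T t27 (L l28 (L l367 (T t29 N)))))))) (K a58 (M a192 (F (T t57 (L l298 (T t27 (L l54 (L l498 (T t31 N)))))))) (K a15 (M a106 (L l327 (F (T t2289 (T t306 (K a141 (M a78 (F (T t2289 (T t306 N)))) (K a78 (M a141 (F (T t2289 (T t306 N))))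 N))))))) N))))))))))))))))))))⟩
def e0_63__87_128 : Ent 4 := ⟨[a0, a63], [a87, a205], (M a85 (F (T t88 (L l143 (L l475 (T t52 (T t89 (T t90 (K a64 (M a240 (F (T t933 (L l93 (T t387 N))))) (K a192 (M a16 (F (T t112 (L l329 (L l367 (L l509 (T t96 (L l296 (L l367 (T t98 N)))))))))) (K a21 (M a48 (F (L l367 (T t935 (L l143 (T t50 (L l47 (L l143 (L l367 (T t100 N)))))))))) (K a149 (M a16 (F (T t112 (L l231 (L l329 (L l367 (T t173 (L l93 (L l170 (T t102 N)))))))))) (K a213 (Fr a170 a255 l476 (Fr a42 a21 l68 (Fr a106 a234 l390 (Fr a192 a149 l519 (V t581))))) (K a42 (M a48 (F (L l475 (T t364 (L l143 (L l390 (T t50 (L l28 (L l143 (L l367 (T t100 N))))))))))) (K a106 (M a48 (F (T t1 (L l104 (L l329 (L l367 (L l509 (T t509 (L l143 (L l390 (T t50 N))))))))))) (K a170 (M a16 (F (L l390 (L l404 (T t97 (L l367 (L l390 (T t98 (L l143 (L l367 (L l404 (T t113 (L l231 (L l233 (L l367 (L l404 (T t174 N))))))))))))))))) (K a255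 (M a3 (F (T t85 (L l143 (L l261 (L l287 (L l349 (T t376 (L l261 (L l287 (L l296 (T t357 (L l261 (L l296 (T t1921 N))))))))))))))) N)))))))))))))))))⟩
def e0_63__87_129 : Ent 4 := ⟨[a0, a63], [a87, a206], (M a85 (F (T t88 (L l143 (L l475 (T t52 (T t89 (T t90 (K a64 (M a240 (F (T t933 (L l93 (T t387 N))))) (K a192 (M a16 (F (T t1924 (L l339 (T t97 (L l296 (L l367 (T t98 N)))))))) (K a21 (M a48 (F (T t1243 (L l47 (L l143 (L l234 (L l367 (T t100 (L l143 (T t50 N)))))))))) (K a149 (M a16 (F (T t112 (L l231 (L l367 (T t173 (L l93 (L l170 (L l510 (T t102 N)))))))))) (K a213 (Fr a170 a255 l476 (Fr a42 a21 l68 (Fr a106 a234 l390 (Fr a192 a149 l519 (V t581))))) (K a42 (M a48 (F (L l475 (T t364 (L l143 (L l390 (T t50 (L l28 (L l143 (L l234 (L l367 (T t100 N)))))))))))) (K a106 (M a48 (F (T t1 (L l104 (L l367 (T t509 (L l143 (L l390 (T t50 N))))))))) (K a170 (M a16 (F (L l390 (L l404 (T t97 (L l367 (L l390 (T t98 (L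 l143 (L l234 (L l367 (L l404 (T t113 (L l231 (L l367 (L l404 (T t174 N))))))))))))))))) (K a255 (M a3 (F (L l434 (T t137 (L l143 (L l261 (L l330 (L l349 (T t376 (L l261 (L l296 (L l330 (T t357 (L l261 (L l296 (T t1921 N)))))))))))))))) N)))))))))))))))))⟩
def e0_63__87_130 : Ent 4 := ⟨[a0, a63], [a87, a207], (M a48 (F (T t48 (L l325 (T t1 (L l325 (T t2 (L l325 (T t3 (L l325 (T t0 (K a16 (M a60 (F (T t662 (L l511 (T t64 (L l349 (T t65 N))))))) (K a32 (M a60 (F (T t116 (L l511 (T t64 (L l24 (L l28 (L l349 (T t65 N))))))))) (K a21 (M a80 (F (T t1831 (L l47 (L l289 (L l475 (T t942 (L l289 (L l367 (T t1676 (L l47 (L l143 (L l236 (T t3328 N)))))))))))))) (K a37 (M a192 (F (T t36 (L l143 (L l289 (L l475 (T t21 (L l28 (T t31 N))))))))) (K a53 (M a192 (F (T t1681 (L l303 (T t27 (T t31 N)))))) (K a26 (M a192 (F (T t1922 (L l143 (L l289 (L l475 (T t21 (L l54 (T t31 N))))))))) (K a42 (M a80 (F (L l303 (T t1678 (L l289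 (L l475 (T t942 (L l28 (L l289 (L l367 (L l390 (T t1676 (L l28 (L l143 (L l236 (T t3328 N)))))))))))))))) (K a58 (M a192 (F (T t57 (L l303 (T t27 (L l54 (L l498 (T t31 N)))))))) (K a15 (M a192 (L l325 (F (T t1681 (L l303 (L l483 (T t27 (T t31 (K a79 (M a143 (F (T t36 (L l289 (L l469 (L l475 (T t35 (L l137 (T t525 N))))))))) (K a143 (M a79 (F (T t2113 (L l289 (L l469 (L l475 (T t35 (T t525 N)))))))) N)))))))))) N))))))))))))))))))))⟩
def e0_63__87_131 : Ent 4 := ⟨[a0, a63], [a87, a212], (M a48 (F (T t1 (T t2 (T t3 (T t0 (K a16 (M a60 (F (T t64 (L l14 (L l18 (L l346 (L l475 (T t67 (L l349 (L l351 (T t65 N))))))))))) (K a32 (M a60 (F (T t64 (L l346 (L l475 (T t67 (L l24 (L l28 (L l349 (L l351 (T t65 N))))))))))) (K a21 (M a192 (F (T t837 (L l47 (L l347 (L l351 (T t20 (L l47 (L l347 (L l351 (L l367 (T t29 N)))))))))))) (K a37 (M a192 (F (T t19 (L l47 (L l351 (T t20 (L l143 (L l351 (L l475 (T t21 N)))))))))) (K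 a53 (M a192 (F (T t19 (L l143 (L l351 (L l475 (L l491 (T t21 (L l239 (T t31 N)))))))))) (K a26 (M a192 (F (T t27 (L l351 (T t20 (L l143 (L l351 (L l475 (T t21 N))))))))) (K a42 (M a192 (F (T t19 (L l351 (T t20 (L l28 (L l351 (L l367 (T t29 N))))))))) (K a58 (M a192 (F (T t19 (L l143 (L l351 (L l475 (T t21 (L l54 (L l239 (L l498 (T t31 N))))))))))) (K a15 (M a192 (F (T t1800 (L l483 (T t27 (L l325 (L l351 (T t20 N)))))))) N)))))))))))))))⟩
def e0_63__87_132 : Ent 4 := ⟨[a0, a63], [a87, a213], (M a48 (F (T t2 (L l347 (T t1 (L l347 (T t3 (T t0 (K a16 (M a60 (F (T t64 (L l14 (L l18 (L l347 (L l475 (T t67 (L l349 (T t65 N)))))))))) (K a32 (M a60 (F (T t64 (L l347 (L l475 (T t67 (L l24 (L l28 (L l349 (T t65 N)))))))))) (K a21 (M a85 (F (T t873 (L l47 (L l143 (L l246 (L l367 (T t100 (L l143 (T t50 N)))))))))) (K a37 (M a192 (F (T t19 (L l47 (L l347 (T t20 (L l143 (L l347 (L l475 (T t21 N)))))))))) (K a53 (M a192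 (F (T t27 (L l143 (L l347 (L l475 (L l491 (T t21 (L l347 (L l491 (T t575 N))))))))))) (K a26 (M a192 (F (T t837 (L l347 (T t20 (L l143 (L l347 (L l475 (T t21 N))))))))) (K a42 (M a192 (F (T t19 (L l347 (T t20 (L l28 (L l246 (L l347 (L l367 (T t29 N)))))))))) (K a58 (M a192 (F (T t27 (L l143 (L l347 (L l475 (T t21 (L l347 (T t575 N))))))))) (K a15 (M a192 (F (T t54 (L l483 (T t27 (L l143 (L l347 (L l469 (L l475 (T t21 N)))))))))) N)))))))))))))))))⟩
def e0_63__87_133 : Ent 4 := ⟨[a0, a63], [a87, a214], (M a85 (F (T t90 (L l239 (T t88 (L l143 (L l294 (L l475 (T t52 (L l239 (T t89 (K a64 (M a240 (F (T t933 (L l93 (L l239 (T t387 N)))))) (K a192 (M a16 (F (T t1924 (L l339 (T t97 (L l239 (L l296 (L l367 (T t98 N))))))))) (K a21 (M a48 (F (T t873 (L l47 (L l143 (L l367 (T t100 (L l143 (T t50 N))))))))) (K a149 (M a16 (F (T t112 (L l367 (T t173 (L l93 (L l170 (T t102 N)))))))) (K a213 (Fr a170 a255 l476 (Fr a42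 a21 l68 (Fr a106 a234 l390 (Fr a192 a149 l519 (V t581))))) (K a42 (M a48 (F (L l475 (T t364 (L l143 (L l390 (T t50 (L l28 (L l143 (L l367 (T t100 N))))))))))) (K a106 (M a48 (F (T t1 (L l104 (L l367 (T t509 (L l143 (L l390 (T t50 N))))))))) (K a170 (M a16 (F (L l390 (L l404 (T t97 (L l239 (L l367 (L l390 (T t98 (L l143 (L l367 (L l404 (T t113 (L l367 (L l404 (T t174 N)))))))))))))))) (K a255 (M a3 (F (T t85 (L l143 (L l261 (L l349 (T t376 (L l239 (L l261 (L l296 (T t357 (L l239 (L l296 (T t3748 N)))))))))))))) N))))))))))))))))))))⟩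
def e0_63__87_134 : Ent 4 := ⟨[a0, a63], [a87, a215], (M a48 (L l349 (F (T t1 (T t2 (T t3 (T t0 (K a16 (M a60 (L l349 (F (T t64 (L l14 (L l18 (L l350 (L l475 (T t67 (L l14 (L l18 (L l350 (T t44 (K a23 (M a151 (F (T t70 (L l143 (L l295 (L l350 (L l475 (T t3627 N)))))))) (K a151 (M a23 (F (T t3419 (T t64 N)))) N))))))))))))))) (K a32 (M a60 (L l349 (F (T t64 (L l350 (L l475 (T t67 (L l350 (T t44 (K a23 (M a151 (F (T t70 (L l143 (L l295 (L l350 (L l475 (T t3627 N)))))))) (K a151 (M a23 (F (L l24 (T t3419 (T t64 N))))) N))))))))))) (K a21 (M a85 (L l349 (F (T t873 (L l47 (L l143 (L l245 (L l367 (T t100 (L l143 (T t50 (K a23 (M a151 (L l11 (F (T t873 (L l143 (L l295 (L l475 (T t3313 (L l47 (L l143 (L l245 (L l367 (T t100 (K a20 (M a22 (F (T t873 (L l143 (T t3628 (L l143 (T t50 N))))))) (K a22 (M a20 (F (T t873 (L l47 (L l65 (T t239 N)))))) N))))))))))))))) (K a151 (M a23 (F (T t3614 (L l47 (L l143 (L l245 (L l367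 (T t100 N)))))))) N))))))))))))) (K a37 (M a3 (L l349 (F (T t348 (L l47 (T t358 (L l25 (L l28 (L l350 (T t87 (K a23 (M a151 (F (T t348 (L l143 (T t3749 (L l143 (T t3628 N))))))) (K a151 (Fr a23 a43 l67 (V t3712)) N)))))))))))) (K a53 (M a23 (F (T t3181 (L l350 (T t1941 (T t3750 N)))))) (K a26 (M a192 (L l349 (F (T t837 (T t20 (L l143 (L l295 (L l475 (T t21 (K a23 (M a151 (F (T t837 (L l143 (T t3751 N))))) (K a151 (M a23 (F (T t27 (L l239 (T t3752 N))))) N))))))))))) (K a42 (M a192 (L l349 (F (T t19 (T t20 (L l28 (L l245 (L l367 (T t29 (K a23 (M a151 (F (T t837 (L l143 (L l390 (T t3751 N)))))) (K a151 (M a23 (F (T t837 (L l22 (L l239 (L l390 (T t3752 N))))))) N))))))))))) (K a58 (M a23 (F (T t636 (L l54 (T t3425 (L l54 (L l350 (T t1941 (L l54 (L l350 (T t3421 N))))))))))) (K a15 (M a3 (L l349 (F (T t1341 (L l73 (T t86 (L l63 (L l350 (T t87 (K a23 (M a151 (F (T t797 (L l143 (L l339 (T t3749 (L l143 (L l481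 (T t3628 N))))))))) (K a151 (Fr a23 a43 l67 (V t3712)) N))))))))))) (K a23 (M a151 (F (T t2 (L l143 (T t3628 (K a16 (M a192 (F (T t206 (L l143 (L l475 (T t3640 N)))))) (K a32 (M a192 (F (T t206 (L l143 (L l475 (T t3640 N)))))) N))))))) (K a151 (M a23 (F (T t2 (L l350 (T t1941 (L l367 (T t172 N))))))) N))))))))))))))))))⟩
def e0_63__87_135 : Ent 4 := ⟨[a0, a63], [a87, a216], (M a85 (F (T t88 (L l143 (L l475 (T t52 (T t89 (T t90 (K a64 (M a240 (F (T t933 (L l93 (L l242 (T t387 N)))))) (K a192 (M a16 (F (T t1924 (L l339 (T t97 (L l296 (L l367 (T t98 N)))))))) (K a21 (M a48 (F (T t873 (L l47 (L l143 (L l367 (T t100 (L l143 (L l298 (T t50 N)))))))))) (K a149 (M a16 (F (T t112 (L l367 (T t173 (L l93 (L l170 (T t102 N)))))))) (K a213 (Fr a170 a255 l476 (Fr a42 a21 l68 (Fr a106 a234 l390 (Fr a192 a149 l519 (V t581))))) (K a42 (M a48 (F (L l475 (T t364 (L l143 (L l298 (L l390 (T t50 (L l28 (L l143 (L l367 (T t100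 N)))))))))))) (K a106 (M a48 (F (T t1 (L l104 (L l367 (T t509 (L l143 (L l298 (L l390 (T t50 N)))))))))) (K a170 (M a16 (F (L l390 (L l404 (T t97 (L l367 (L l390 (T t98 (L l143 (L l367 (L l404 (T t113 (L l367 (L l404 (T t174 N))))))))))))))) (K a255 (M a3 (F (T t85 (L l143 (L l261 (L l280 (L l349 (T t376 (L l261 (L l296 (T t357 (L l242 (L l261 (L l296 (T t1921 N))))))))))))))) N)))))))))))))))))⟩
def e0_63__87_136 : Ent 4 := ⟨[a0, a63], [a87, a217], (M a85 (F (T t90 (L l243 (T t88 (L l143 (L l284 (L l475 (T t52 (L l243 (T t89 (K a64 (M a240 (F (T t933 (L l93 (L l243 (T t387 N)))))) (K a192 (M a16 (F (T t1924 (L l339 (T t97 (L l243 (L l296 (L l367 (T t98 N))))))))) (K a21 (M a48 (F (T t873 (L l47 (L l143 (L l367 (T t100 (L l143 (T t50 N))))))))) (K a149 (M a16 (F (T t112 (L l367 (T t173 (L l93 (L l170 (T t102 N)))))))) (K a213 (Fr a170 a255 l476 (Fr a42 a21 l68 (Fr a106 a234 l390 (Fr a192 a149 l519 (V t581)))))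 (K a42 (M a48 (F (L l475 (T t364 (L l143 (L l390 (T t50 (L l28 (L l143 (L l367 (T t100 N))))))))))) (K a106 (M a48 (F (T t1 (L l104 (L l367 (T t509 (L l143 (L l390 (T t50 N))))))))) (K a170 (M a16 (F (L l390 (L l404 (T t97 (L l243 (L l367 (L l390 (T t98 (L l143 (L l367 (L l404 (T t113 (L l367 (L l404 (T t174 N)))))))))))))))) (K a255 (M a3 (F (T t85 (L l143 (L l261 (L l349 (T t376 (L l243 (L l261 (L l296 (T t357 (L l243 (L l261 (L l296 (T t1921 N))))))))))))))) N))))))))))))))))))))⟩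
def e0_63__87_137 : Ent 4 := ⟨[a0, a63], [a87, a218], (M a85 (F (T t90 (L l246 (T t88 (L l143 (L l282 (L l475 (T t52 (L l246 (T t89 (K a64 (M a240 (F (T t933 (L l93 (L l246 (T t2099 N)))))) (K a192 (M a48 (F (T t1243 (L l339 (T t1 (L l143 (L l268 (L l303 (T t50 N))))))))) (K a21 (M a48 (F (T t1243 (L l47 (L l143 (L l246 (L l282 (L l367 (T t100 (L l143 (L l303 (T t50 N)))))))))))) (K a149 (M a48 (F (T t2 (L l246 (L l367 (L l475 (T t99 (L l143 (L l220 (L l303 (T t50 N))))))))))) (K a213 (Fr a170 a255 l476 (Fr a42 a21 l68 (Fr a106 a234 l390 (Fr a192 a149 l519 (V t581))))) (K a42 (M a48 (F (L l475 (T t364 (L l143 (L l390 (T t567 (L l28 (L l143 (L l246 (L l282 (L l367 (T t100 N))))))))))))) (K a106 (M a48 (F (T t1 (L l104 (L l246 (L l367 (T t509 (L l143 (L l303 (L l390 (T t50 N))))))))))) (K a170 (M a4 (F (L l390 (L l464 (T t519 (L l246 (L l390 (L l457 (T t131 (L l143 (L l457 (L l464 (T t130 (L l457 (L l464 (T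 t938 N)))))))))))))))) (K a255 (M a3 (F (T t85 (L l143 (L l261 (L l349 (T t376 (L l246 (L l261 (L l296 (T t357 (L l246 (L l261 (L l296 (T t1921 N))))))))))))))) N))))))))))))))))))))⟩
def e0_63__87_138 : Ent 4 := ⟨[a0, a63], [a87, a219], (M a85 (F (T t88 (L l143 (L l475 (T t52 (T t89 (T t90 (K a64 (M a240 (F (T t933 (L l93 (T t387 N))))) (K a192 (M a16 (F (T t112 (L l245 (L l367 (T t96 (L l245 (L l296 (L l367 (T t98 N)))))))))) (K a21 (M a48 (F (T t1243 (L l47 (L l143 (L l245 (L l367 (T t100 (L l143 (T t50 N)))))))))) (K a149 (M a16 (F (T t112 (L l245 (L l301 (L l367 (T t173 (L l93 (L l170 (L l356 (T t102 N))))))))))) (K a213 (Fr a170 a255 l476 (Fr a42 a21 l68 (Fr a106 a234 l390 (Fr a192 a149 l519 (V t581))))) (K a42 (M a48 (F (L l475 (T t364 (L l143 (L l390 (T t50 (L l28 (L l143 (L l245 (L l367 (T t100 N)))))))))))) (K a106 (M a48 (F (T t1 (L l104 (L l245 (L l367 (T t509 (L l143 (L l390 (T t50 N))))))))))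 (K a170 (M a16 (F (L l390 (L l404 (T t97 (L l245 (L l367 (L l390 (T t98 (L l143 (L l245 (L l367 (L l404 (T t113 (L l245 (L l301 (L l367 (L l404 (T t174 N))))))))))))))))))) (K a255 (M a3 (F (T t85 (L l143 (L l261 (L l349 (T t376 (L l261 (L l296 (T t357 (L l261 (L l296 (T t1921 N))))))))))))) N)))))))))))))))))⟩
def e0_63__87_139 : Ent 4 := ⟨[a0, a63], [a87, a220], (M a85 (F (T t88 (L l143 (L l475 (T t52 (T t89 (T t90 (K a64 (M a240 (F (T t933 (L l93 (L l242 (T t387 N)))))) (K a192 (M a16 (F (T t1924 (L l339 (L l363 (T t97 (L l241 (L l296 (L l367 (T t98 N)))))))))) (K a21 (M a48 (F (T t873 (L l47 (L l143 (L l241 (L l367 (T t100 (L l143 (T t50 N)))))))))) (K a149 (M a16 (F (T t112 (L l241 (L l367 (T t173 (L l93 (L l170 (T t102 N))))))))) (K a213 (Fr a170 a255 l476 (Fr a42 a21 l68 (Fr a106 a234 l390 (Fr a192 a149 l519 (V t581))))) (K a42 (M a48 (F (L l364 (L l475 (T t364 (L l143 (L l390 (T t50 (L l28 (L l143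 (L l241 (L l367 (T t100 N))))))))))))) (K a106 (M a48 (F (T t1 (L l104 (L l241 (L l367 (T t509 (L l143 (L l390 (T t50 N)))))))))) (K a170 (M a16 (F (L l390 (L l404 (T t112 (L l241 (L l367 (L l390 (T t98 (L l143 (L l241 (L l367 (L l404 (T t113 (L l241 (L l367 (L l404 (T t174 N)))))))))))))))))) (K a255 (M a3 (F (T t85 (L l143 (L l261 (L l349 (T t376 (L l261 (L l296 (T t357 (L l242 (L l261 (L l286 (L l296 (T t1921 N))))))))))))))) N)))))))))))))))))⟩
def e0_63__87_140 : Ent 4 := ⟨[a0, a63], [a87, a221], (M a48 (F (T t1 (T t2 (T t3 (T t0 (K a16 (M a60 (F (T t64 (L l14 (L l18 (L l475 (T t67 (L l349 (T t65 N))))))))) (K a32 (M a60 (F (T t64 (L l475 (T t67 (L l24 (L l28 (L l349 (T t65 N))))))))) (K a21 (M a192 (F (T t837 (L l47 (L l347 (T t20 (L l47 (L l241 (L l347 (L l367 (T t29 N))))))))))) (K a37 (M a192 (F (T t19 (L l47 (T t20 (L l143 (L l290 (L l475 (T t21 N))))))))) (K a53 (M a192 (F (T t19 (L l143 (L l290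 (L l475 (L l491 (T t21 (L l243 (T t31 N)))))))))) (K a26 (M a192 (F (T t837 (T t20 (L l143 (L l290 (L l475 (T t21 N)))))))) (K a42 (M a192 (F (T t19 (T t20 (L l28 (L l241 (L l367 (T t29 N)))))))) (K a58 (M a192 (F (T t19 (L l143 (L l290 (L l475 (T t21 (L l54 (L l243 (L l498 (T t31 N))))))))))) (K a15 (M a192 (F (T t57 (L l483 (T t27 (L l325 (T t20 N))))))) N)))))))))))))))⟩
def e0_63__87_141 : Ent 4 := ⟨[a0, a63], [a87, a222], (M a85 (F (T t88 (L l143 (L l475 (T t52 (T t89 (T t90 (K a64 (M a240 (F (T t933 (L l93 (T t387 N))))) (K a192 (M a16 (F (T t112 (L l241 (L l367 (T t96 (L l241 (L l296 (L l367 (T t98 N)))))))))) (K a21 (M a48 (F (T t1243 (L l47 (L l143 (L l241 (L l367 (T t100 (L l143 (T t50 N)))))))))) (K a149 (M a16 (F (T t112 (L l241 (L l291 (L l367 (T t173 (L l93 (L l170 (L l366 (T t102 N))))))))))) (K a213 (Fr a170 a255 l476 (Fr a42 a21 l68 (Fr a106 a234 l390 (Fr a192 a149 l519 (V t581))))) (K a42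 (M a48 (F (L l475 (T t364 (L l143 (L l390 (T t50 (L l28 (L l143 (L l241 (L l367 (T t100 N)))))))))))) (K a106 (M a48 (F (T t1 (L l104 (L l241 (L l367 (T t509 (L l143 (L l390 (T t50 N)))))))))) (K a170 (M a16 (F (L l390 (L l404 (T t97 (L l241 (L l367 (L l390 (T t98 (L l143 (L l241 (L l367 (L l404 (T t113 (L l241 (L l291 (L l367 (L l404 (T t174 N))))))))))))))))))) (K a255 (M a3 (F (T t85 (L l143 (L l261 (L l349 (T t376 (L l261 (L l296 (T t357 (L l261 (L l291 (L l296 (T t1921 N)))))))))))))) N)))))))))))))))))⟩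
def e0_63__87_142 : Ent 4 := ⟨[a0, a63], [a87, a223], (M a48 (L l367 (F (T t1 (T t2 (L l368 (T t3 (L l361 (T t0 (K a16 (M a85 (L l367 (F (T t90 (L l143 (T t50 (L l246 (T t51 (K a19 (M a155 (L l10 (F (T t90 (L l143 (T t50 (L l246 (T t51 (K a17 (M a18 (F (T t90 (L l14 (L l41 (T t244 (L l143 (T t50 N)))))))) (K a18 (M a17 (F (T t90 (L l42 (L l125 (L l343 (T t3753 N))))))) N)))))))))) (K a155 (M a19 (F (T t90 (L l143 (T t50 (L l246 (T t51 N))))))) N)))))))))) (K a32 (M a51 (L l367 (F (T t589 (T t1995 (T t591 (K a19 (M a155 (F (T t592 (L l125 (L l404 (T t3754 N)))))) (K a155 (M a19 (F (L l20 (L l368 (T t3727 (T t3726 N)))))) N)))))))) (K a21 (M a192 (L l367 (F (T t27 (L l47 (L l289 (L l347 (T t20 (L l18 (L l289 (L l368 (T t224 (K a19 (M a155 (F (T t837 (L l289 (L l361 (T t22 (L l10 (L l18 (L l289 (L l368 (T t224 N))))))))))) (K a155 (M a19 (F (T t837 (L l169 (L l289 (L l361 (L l511 (T t22 (L l18 (L l289 (L l368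 (T t224 N)))))))))))) N)))))))))))))) (K a37 (M a106 (L l367 (F (T t777 (L l28 (L l246 (T t586 (L l47 (L l289 (L l368 (T t599 (K a19 (M a155 (F (T t551 (L l47 (L l143 (T t3755 N)))))) (K a155 (M a19 (F (T t777 (L l25 (L l28 (L l355 (T t3732 N))))))) N))))))))))))) (K a53 (M a51 (L l367 (F (T t1294 (L l35 (L l475 (T t1901 (L l35 (T t1902 (K a19 (M a155 (F (T t1296 (L l125 (L l491 (T t3754 N)))))) (K a155 (M a19 (F (T t3756 (L l361 (T t3269 N))))) N))))))))))) (K a26 (M a50 (L l367 (F (T t147 (L l475 (T t148 (L l16 (L l18 (T t149 (K a19 (M a155 (F (L l125 (T t3757 (L l16 (L l18 (L l19 (T t149 N)))))))) (K a155 (M a19 (F (T t3758 (T t147 N)))) N))))))))))) (K a42 (M a192 (L l367 (F (T t837 (L l289 (T t20 (L l54 (L l289 (L l368 (L l390 (T t224 (K a19 (M a155 (F (T t837 (L l289 (L l361 (L l390 (T t22 (L l10 (L l54 (L l289 (L l368 (L l390 (T t224 N))))))))))))) (K a155 (M a19 (F (T t837 (L l169 (L l289 (L l361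 (L l390 (L l511 (T t22 (L l54 (L l289 (L l368 (L l390 (T t224 N)))))))))))))) N))))))))))))) (K a58 (M a51 (L l367 (F (T t589 (L l475 (T t1901 (L l32 (L l54 (T t1902 (K a19 (M a155 (F (T t592 (L l125 (T t3754 N))))) (K a155 (M a19 (F (T t3756 (L l361 (T t3269 N))))) N))))))))))) (K a15 (M a106 (L l367 (F (T t585 (L l246 (L l339 (T t586 (T t306 (K a19 (M a155 (F (T t3759 (T t3760 N)))) (K a155 (M a19 (F (T t585 (L l73 (L l355 (T t3732 N)))))) N)))))))))) (K a19 (M a155 (F (T t1 (T t2 (L l10 (L l368 (T t3 (L l17 (L l361 (T t0 (K a16 (M a154 (L l10 (F (T t3635 (L l125 (L l364 (T t3761 (L l143 (L l364 (T t3762 (K a17 (M a18 (F (T t3635 (L l41 (T t3763 N))))) (K a18 (M a17 (F (T t3635 (L l42 (T t1279 N))))) N)))))))))))) (K a32 (M a106 (F (T t305 (T t3760 N)))) (K a21 (M a56 (F (L l11 (T t133 (L l47 (L l143 (T t3764 N))))))) (K a37 (M a56 (F (L l51 (T t133 (L l47 (L l143 (T t3764 N))))))) (K a53 (M a154 (F (L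 l369 (T t3765 (L l43 (L l361 (L l491 (T t3766 N)))))))) (K a26 (M a56 (F (T t133 (L l143 (T t3764 N))))) (K a42 (M a154 (F (T t3635 (L l369 (T t3765 N))))) (K a58 (M a154 (F (L l369 (T t3765 (L l32 (L l43 (L l361 (T t3766 N)))))))) (K a15 (M a56 (F (L l3 (T t133 (L l143 (T t3764 N)))))) N))))))))))))))))))) (K a155 (M a19 (F (T t1 (L l499 (T t3745 (L l355 (T t3732 (L l361 (T t3746 (K a16 (M a85 (F (T t90 (L l143 (T t50 (L l246 (T t51 N))))))) N)))))))))) N))))))))))))))))))))⟩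
def e0_63__87_143 : Ent 4 := ⟨[a0, a63], [a87, a232], (M a48 (F (T t1 (T t2 (T t3 (T t0 (K a16 (M a60 (F (T t64 (L l14 (L l18 (L l393 (L l475 (T t67 (L l349 (L l388 (T t65 N))))))))))) (K a32 (M a60 (F (T t64 (L l393 (L l475 (T t67 (L l24 (L l28 (L l349 (L l388 (T t65 N))))))))))) (K a21 (M a192 (F (T t837 (L l47 (L l347 (T t20 (L l47 (L l347 (L l367 (T t29 N)))))))))) (K a37 (M a192 (F (T t27 (L l47 (T t20 (L l143 (L l475 (T t21 N)))))))) (K a53 (M a192 (F (T t837 (L l143 (L l475 (L l491 (T t21 (L l393 (T t31 N))))))))) (K a26 (M a192 (F (T t27 (T t20 (L l143 (L l475 (T t21 N))))))) (K a42 (M a192 (F (T t27 (T t20 (L l28 (L l367 (T t29 N))))))) (K a58 (M a192 (F (T t27 (L l143 (L l475 (T t21 (L l54 (L l393 (L l498 (T t31 N)))))))))) (K a15 (M a192 (F (T t56 (L l483 (T t27 (L l143 (L l469 (L l475 (T t21 N))))))))) N)))))))))))))))⟩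
def e0_63__87_144 : Ent 4 := ⟨[a0, a63], [a87, a233], (M a85 (F (T t90 (L l293 (T t88 (L l143 (L l250 (L l475 (T t52 (L l293 (T t89 (K a64 (M a240 (F (T t933 (L l93 (L l293 (T t387 N)))))) (K a192 (M a16 (F (T t1924 (L l339 (T t97 (L l293 (L l296 (L l367 (T t98 N))))))))) (K a21 (M a48 (F (T t873 (L l47 (L l143 (L l367 (T t100 (L l143 (T t50 N))))))))) (K a149 (M a16 (F (T t112 (L l367 (T t173 (L l93 (L l170 (T t102 N)))))))) (K a213 (Fr a170 a255 l476 (Fr a42 a21 l68 (Fr a106 a234 l390 (Fr a192 a149 l519 (V t581))))) (K a42 (M a48 (F (L l475 (T t364 (L l143 (L l390 (T t50 (L l28 (L l143 (L l367 (T t100 N))))))))))) (K a106 (M a48 (F (T t1 (L l104 (L l367 (T t509 (L l143 (L l390 (T t50 N))))))))) (K a170 (M a16 (F (L l390 (L l404 (T t97 (L l293 (L l367 (L l390 (T t98 (L l143 (L l367 (L l404 (T t113 (L l367 (L l404 (T t174 N)))))))))))))))) (K a255 (M a3 (F (T t85 (L l143 (L l250 (L l261 (L l293 (L l349 (T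 t376 (L l293 (L l296 (T t3611 (L l261 (L l293 (L l296 (L l297 (T t1921 N))))))))))))))))) N))))))))))))))))))))⟩
def e0_63__87_145 : Ent 4 := ⟨[a0, a63], [a87, a234], (M a48 (F (T t1 (L l390 (T t2 (T t3 (L l390 (T t0 (K a16 (M a60 (F (T t64 (L l14 (L l18 (L l475 (T t67 (L l349 (L l390 (T t65 N)))))))))) (K a32 (M a60 (F (T t64 (L l475 (T t67 (L l24 (L l28 (L l349 (L l390 (T t65 N)))))))))) (K a21 (M a192 (F (T t837 (L l47 (L l282 (L l347 (T t20 (L l47 (L l282 (L l347 (L l367 (T t29 N)))))))))))) (K a37 (M a192 (F (T t27 (L l47 (L l282 (T t20 (L l390 (L l475 (T t202 N))))))))) (K a53 (M a192 (F (T t27 (L l390 (L l475 (T t202 (L l367 (L l390 (T t577 N))))))))) (K a26 (M a192 (F (T t27 (L l282 (T t20 (L l390 (L l475 (T t202 N)))))))) (K a42 (M a106 (F (T t578 (L l28 (L l282 (L l367 (T t579 (T t551 N)))))))) (K a58 (M a192 (F (T t27 (L l390 (L l475 (L l498 (T t202 (L l367 (L l390 (L l498 (T t577 N)))))))))))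 (K a15 (M a192 (F (T t33 (L l483 (T t27 (L l390 (L l469 (L l475 (T t202 N))))))))) N)))))))))))))))))⟩
def e0_63__87_146 : Ent 4 := ⟨[a0, a63], [a87, a235], (M a48 (F (T t1 (T t2 (T t3 (T t0 (K a16 (M a60 (F (T t64 (L l14 (L l18 (L l391 (L l475 (T t67 (L l349 (L l392 (T t65 N))))))))))) (K a32 (M a60 (F (T t64 (L l391 (L l475 (T t67 (L l24 (L l28 (L l349 (L l392 (T t65 N))))))))))) (K a21 (M a192 (F (T t837 (L l47 (L l347 (T t20 (L l47 (L l347 (L l367 (T t29 N)))))))))) (K a37 (M a192 (F (T t19 (L l47 (T t20 (L l143 (L l295 (L l475 (T t21 N))))))))) (K a53 (M a192 (F (T t19 (L l143 (L l295 (L l475 (L l491 (T t21 (T t31 N))))))))) (K a26 (M a192 (F (T t27 (T t20 (L l143 (L l295 (L l475 (T t21 N)))))))) (K a42 (M a192 (F (T t19 (T t20 (L l28 (L l367 (T t29 N))))))) (K a58 (M a192 (F (T t19 (L l143 (L l295 (L l475 (T t21 (L l54 (L l498 (T t31 N)))))))))) (K a15 (M a192 (F (T t1681 (L l483 (T t27 (L l325 (T t20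 N))))))) N)))))))))))))))⟩
def e0_63__87_147 : Ent 4 := ⟨[a0, a63], [a87, a236], (M a85 (F (T t88 (L l143 (L l475 (T t52 (T t89 (T t90 (K a64 (M a240 (F (T t933 (L l93 (T t387 N))))) (K a192 (M a16 (F (L l400 (T t112 (L l296 (L l367 (L l475 (T t666 (L l296 (L l367 (T t98 N))))))))))) (K a21 (M a48 (F (T t873 (L l47 (L l143 (L l367 (L l400 (T t100 (L l143 (T t50 N)))))))))) (K a149 (M a16 (F (L l400 (T t112 (L l367 (L l475 (T t666 (L l93 (L l170 (T t102 N)))))))))) (K a213 (Fr a170 a255 l476 (Fr a42 a21 l68 (Fr a106 a234 l390 (Fr a192 a149 l519 (V t581))))) (K a42 (M a48 (F (L l251 (L l475 (T t364 (L l143 (L l390 (T t50 (L l28 (L l143 (L l367 (L l400 (T t100 N))))))))))))) (K a106 (M a48 (F (T t1 (L l104 (L l367 (L l400 (T t509 (L l143 (L l390 (T t50 N)))))))))) (K a170 (M a16 (F (L l390 (L l400 (L l404 (T t97 (L l367 (L l390 (T t98 (L l143 (L l367 (L l400 (L l404 (T t113 (L l367 (L l400 (L l404 (T t174 N))))))))))))))))))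 (K a255 (M a3 (F (T t85 (L l143 (L l252 (L l261 (L l349 (T t376 (L l261 (L l296 (T t357 (L l261 (L l286 (L l296 (T t1921 N))))))))))))))) N)))))))))))))))))⟩
def e0_63__87_148 : Ent 4 := ⟨[a0, a63], [a87, a237], (M a85 (F (T t88 (L l143 (L l475 (T t52 (T t89 (T t90 (K a64 (M a240 (F (T t933 (L l93 (T t387 N))))) (K a192 (M a16 (F (T t112 (L l367 (L l401 (T t96 (L l296 (L l367 (T t98 N))))))))) (K a21 (M a48 (F (T t1243 (L l47 (L l143 (L l367 (T t100 (L l143 (T t50 N))))))))) (K a149 (M a16 (F (T t112 (L l291 (L l367 (T t173 (L l93 (L l170 (T t102 N))))))))) (K a213 (Fr a170 a255 l476 (Fr a42 a21 l68 (Fr a106 a234 l390 (Fr a192 a149 l519 (V t581))))) (K a42 (M a48 (F (L l251 (L l475 (T t364 (L l143 (L l390 (T t50 (L l28 (L l143 (L l367 (T t100 N)))))))))))) (K a106 (M a48 (F (T t1 (L l104 (L l367 (L l401 (T t509 (L l143 (L l390 (T t50 N)))))))))) (K a170 (M a16 (F (L l390 (L l404 (T t97 (L l367 (L l390 (T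 t98 (L l143 (L l367 (L l404 (T t113 (L l291 (L l367 (L l404 (T t174 N)))))))))))))))) (K a255 (M a3 (F (T t85 (L l143 (L l261 (L l287 (L l349 (T t376 (L l261 (L l287 (L l296 (T t357 (L l261 (L l291 (L l296 (T t1921 N)))))))))))))))) N)))))))))))))))))⟩
def e0_63__87_149 : Ent 4 := ⟨[a0, a63], [a87, a238], (M a48 (F (T t1 (T t2 (T t3 (T t0 (K a16 (M a60 (F (T t64 (L l14 (L l18 (L l475 (T t67 (L l349 (T t65 N))))))))) (K a32 (M a60 (F (T t64 (L l475 (T t67 (L l24 (L l28 (L l349 (T t65 N))))))))) (K a21 (M a192 (F (T t837 (L l47 (L l347 (T t20 (L l47 (L l347 (L l367 (T t29 N)))))))))) (K a37 (M a192 (F (T t19 (L l47 (T t20 (L l143 (L l290 (L l475 (T t21 N))))))))) (K a53 (M a192 (F (T t19 (L l143 (L l290 (L l475 (L l491 (T t21 (T t31 N))))))))) (K a26 (M a192 (F (T t27 (T t20 (L l143 (L l290 (L l475 (T t21 N)))))))) (K a42 (M a192 (F (T t19 (T t20 (L l28 (L l367 (T t29 N))))))) (K a58 (M a192 (F (T t19 (L l143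 (L l290 (L l475 (T t21 (L l54 (L l498 (T t31 N)))))))))) (K a15 (M a192 (F (T t1681 (L l483 (T t27 (L l325 (T t20 N))))))) N)))))))))))))))⟩
def e0_63__87_150 : Ent 4 := ⟨[a0, a63], [a87, a239], (M a48 (F (T t1 (T t2 (L l397 (T t3 (L l404 (T t0 (K a16 (M a60 (F (T t64 (L l14 (L l18 (L l475 (T t67 (L l349 (T t65 N))))))))) (K a32 (M a170 (F (L l256 (T t439 (L l87 (T t514 (L l256 (T t580 N)))))))) (K a21 (M a192 (F (T t27 (L l47 (L l289 (L l347 (T t20 (L l47 (L l289 (L l347 (L l367 (L l404 (T t29 N))))))))))))) (K a37 (M a192 (F (T t837 (L l47 (L l289 (T t20 (L l143 (L l289 (L l475 (T t21 N)))))))))) (K a53 (M a192 (F (T t27 (L l143 (L l289 (L l475 (L l491 (T t21 (T t31 N))))))))) (K a26 (M a192 (F (T t27 (L l289 (T t20 (L l143 (L l289 (L l475 (T t21 N))))))))) (K a42 (M a192 (F (T t837 (L l289 (T t20 (L l28 (L l289 (L l367 (L l404 (T t29 N)))))))))) (K a58 (M a192 (F (T t837 (L l143 (L l289 (L l475 (T t21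 (L l54 (L l498 (T t31 N)))))))))) (K a15 (M a192 (F (T t1681 (L l483 (T t27 (L l289 (L l325 (T t20 N)))))))) N)))))))))))))))))⟩
def e0_63__87_151 : Ent 4 := ⟨[a0, a63], [a87, a252], (M a48 (F (T t48 (L l471 (T t1 (L l471 (T t2 (L l471 (T t3 (L l471 (T t0 (K a16 (M a60 (F (T t662 (L l441 (T t64 (L l349 (T t65 N))))))) (K a32 (M a60 (F (T t116 (L l441 (T t64 (L l24 (L l28 (L l349 (T t65 N))))))))) (K a21 (M a192 (F (T t54 (L l262 (T t27 (L l47 (L l347 (L l367 (T t29 N))))))))) (K a37 (M a192 (F (T t54 (L l262 (T t27 (L l143 (L l261 (L l475 (T t21 N))))))))) (K a53 (M a192 (F (T t1681 (L l262 (T t27 (T t31 N)))))) (K a26 (M a192 (F (T t56 (L l262 (T t27 (L l143 (L l261 (L l475 (T t21 N))))))))) (K a42 (M a192 (F (T t56 (L l262 (T t27 (L l28 (L l367 (T t29 N)))))))) (K a58 (M a192 (F (T t57 (L l262 (T t27 (L l54 (L l498 (T t31 N)))))))) (K a15 (M a106 (L l471 (F (T t2289 (T t306 (K a173 (M a94 (F (T t2289 (T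 t306 N)))) (K a94 (M a173 (F (T t2289 (T t306 N)))) N))))))) N))))))))))))))))))))⟩
def e0_63__87_152 : Ent 4 := ⟨[a0, a63], [a87, a253], (M a48 (F (T t1 (T t2 (T t3 (T t0 (K a16 (M a60 (F (T t42 (L l14 (L l18 (L l475 (T t67 (L l349 (T t65 N))))))))) (K a32 (M a60 (F (T t42 (L l475 (T t67 (L l24 (L l28 (L l349 (T t65 N))))))))) (K a21 (M a192 (F (T t837 (L l47 (L l347 (T t20 (L l47 (L l347 (L l367 (T t29 N)))))))))) (K a37 (M a192 (F (T t19 (L l47 (T t20 (L l143 (L l261 (L l475 (T t21 N))))))))) (K a53 (M a192 (F (T t19 (L l143 (L l261 (L l475 (L l491 (T t21 (L l293 (T t31 N)))))))))) (K a26 (M a192 (F (T t837 (T t20 (L l143 (L l261 (L l475 (T t21 N)))))))) (K a42 (M a192 (F (T t19 (T t20 (L l28 (L l367 (T t29 N))))))) (K a58 (M a192 (F (T t19 (L l143 (L l261 (L l475 (T t21 (L l54 (L l293 (L l498 (T t31 N))))))))))) (K a15 (M a192 (F (T t57 (L l483 (T t27 (L l325 (T t20 N))))))) N)))))))))))))))⟩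
def e0_63__87_153 : Ent 4 := ⟨[a0, a63], [a87, a254], (M a48 (F (T t1 (T t2 (T t3 (T t0 (K a16 (M a60 (F (T t42 (L l14 (L l18 (L l475 (T t67 (L l349 (T t65 N))))))))) (K a32 (M a60 (F (T t42 (L l475 (T t67 (L l24 (L l28 (L l349 (T t65 N))))))))) (K a21 (M a192 (F (T t837 (L l47 (L l347 (T t20 (L l47 (L l347 (L l367 (T t29 N)))))))))) (K a37 (M a192 (F (T t19 (L l47 (T t20 (L l143 (L l261 (L l475 (T t21 N))))))))) (K a53 (M a192 (F (T t19 (L l143 (L l261 (L l475 (L l491 (T t21 (T t31 N))))))))) (K a26 (M a192 (F (T t837 (T t20 (L l143 (L l261 (L l475 (T t21 N)))))))) (K a42 (M a192 (F (T t19 (T t20 (L l28 (L l367 (T t29 N))))))) (K a58 (M a192 (F (T t19 (L l143 (L l261 (L l475 (T t21 (L l54 (L l498 (T t31 N)))))))))) (K a15 (M a192 (F (T t54 (L l483 (T t27 (L l143 (L l261 (L l469 (L l475 (T t21 N)))))))))) N)))))))))))))))⟩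
def e0_63__87_154 : Ent 4 := ⟨[a0, a63], [a87, a255], (M a3 (F (T t85 (L l434 (T t137 (L l349 (L l434 (T t353 (L l434 (T t665 (L l434 (T t358 (K a60 (M a192 (L l434 (F (T t2335 (L l143 (L l295 (L l518 (T t2064 (L l261 (T t2065 (K a125 (M a190 (F (T t3767 (L l109 (L l261 (L l430 (T t2047 (L l261 (T t2065 N))))))))) (K a190 (M a125 (F (T t3767 (L l261 (L l430 (L l432 (T t2047 (L l261 (L l432 (T t2065 N)))))))))) N)))))))))))) (K a1 (M a51 (F (T t1355 (L l457 (L l469 (T t842 (T t843 N))))))) (K a21 (M a192 (F (T t2335 (L l143 (L l295 (T t2064 (L l65 (L l261 (T t2065 N))))))))) (K a41 (M a192 (F (T t3648 (L l261 (T t2069 (L l22 (L l65 (L l261 (T t2065 N))))))))) (K a2 (M a51 (F (T t848 (L l457 (L l469 (T t842 (L l42 (L l66 (T t843 N))))))))) (K a22 (M a192 (F (T t2335 (L l143 (L l295 (T t2064 (L l261 (T t2065 N)))))))) (K a42 (M a192 (F (T t2068 (L l261 (L l390 (T t2069 (L l22 (L l261 (L l390 (T t2065 N))))))))))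 (K a23 (M a48 (L l349 (F (T t132 (L l439 (T t86 (L l11 (T t847 (K a151 (M a215 (F (T t132 (L l439 (T t348 (L l11 (T t847 N))))))) (K a215 (M a151 (L l295 (F (T t132 (L l143 (L l296 (T t3749 (K a195 (M a235 (F (T t132 (L l439 (L l487 (T t86 (L l11 (T t847 N)))))))) (K a235 (Fr a195 a107 l517 (V t3768)) N))))))))) N)))))))))) (K a43 (M a48 (F (T t48 (L l439 (T t86 (T t847 N)))))) N)))))))))))))))))))))⟩
def b0_63__87 : Blk 4 := ⟨[0, 63], [87], [1, 2, 3, 4, 5, 6, 7, 8, 9, 10, 11, 12, 13, 14, 15, 20, 22, 23, 24, 25, 26, 27, 28, 29, 30, 31, 40, 41, 43, 44, 45, 46, 47, 60, 61, 62, 64, 65, 66, 67, 68, 69, 70, 71, 72, 73, 74, 75, 76, 77, 78, 79, 84, 85, 86, 88, 89, 90, 91, 92, 93, 94, 95, 104, 105, 106, 107, 108, 109, 110, 111, 124, 125, 126, 127, 128, 129, 130, 131, 132, 133, 134, 135, 136, 137, 138, 139, 140, 141, 142, 143, 148, 149, 150, 151, 152, 153, 154, 155, 156, 157, 158, 159, 168, 169, 170, 171, 172, 173,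 174, 175, 188, 189, 190, 191, 192, 193, 194, 195, 196, 197, 198, 199, 200, 201, 202, 203, 204, 205, 206, 207, 212, 213, 214, 215, 216, 217, 218, 219, 220, 221, 222, 223, 232, 233, 234, 235, 236, 237, 238, 239, 252, 253, 254, 255], [e0_63__87_0, e0_63__87_1, e0_63__87_2, e0_63__87_3, e0_63__87_4, e0_63__87_5, e0_63__87_6, e0_63__87_7, e0_63__87_8, e0_63__87_9, e0_63__87_10, e0_63__87_11, e0_63__87_12, e0_63__87_13, e0_63__87_14, e0_63__87_15, e0_63__87_16, e0_63__87_17, e0_63__87_18, e0_63__87_19, e0_63__87_20, e0_63__87_21, e0_63__87_22, e0_63__87_23, e0_63__87_24, e0_63__87_25, e0_63__87_26, e0_63__87_27, e0_63__87_28, e0_63__87_29, e0_63__87_30, e0_63__87_31, e0_63__87_32, e0_63__87_33, e0_63__87_34, e0_63__87_35, e0_63__87_36, e0_63__87_37, e0_63__87_38, e0_63__87_39, e0_63__87_40, e0_63__87_41, e0_63__87_42, e0_63__87_43, e0_63__87_44, e0_63__87_45, e0_63__87_46, e0_63__87_47, e0_63__87_48, e0_63__87_49,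 e0_63__87_50, e0_63__87_51, e0_63__87_52, e0_63__87_53, e0_63__87_54, e0_63__87_55, e0_63__87_56, e0_63__87_57, e0_63__87_58, e0_63__87_59, e0_63__87_60, e0_63__87_61, e0_63__87_62, e0_63__87_63, e0_63__87_64, e0_63__87_65, e0_63__87_66, e0_63__87_67, e0_63__87_68, e0_63__87_69, e0_63__87_70, e0_63__87_71, e0_63__87_72, e0_63__87_73, e0_63__87_74, e0_63__87_75, e0_63__87_76, e0_63__87_77, e0_63__87_78, e0_63__87_79, e0_63__87_80, e0_63__87_81, e0_63__87_82, e0_63__87_83, e0_63__87_84, e0_63__87_85, e0_63__87_86, e0_63__87_87, e0_63__87_88, e0_63__87_89, e0_63__87_90, e0_63__87_91, e0_63__87_92, e0_63__87_93, e0_63__87_94, e0_63__87_95, e0_63__87_96, e0_63__87_97, e0_63__87_98, e0_63__87_99, e0_63__87_100, e0_63__87_101, e0_63__87_102, e0_63__87_103, e0_63__87_104, e0_63__87_105, e0_63__87_106, e0_63__87_107, e0_63__87_108, e0_63__87_109, e0_63__87_110, e0_63__87_111, e0_63__87_112, e0_63__87_113, e0_63__87_114,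 e0_63__87_115, e0_63__87_116, e0_63__87_117, e0_63__87_118, e0_63__87_119, e0_63__87_120, e0_63__87_121, e0_63__87_122, e0_63__87_123, e0_63__87_124, e0_63__87_125, e0_63__87_126, e0_63__87_127, e0_63__87_128, e0_63__87_129, e0_63__87_130, e0_63__87_131, e0_63__87_132, e0_63__87_133, e0_63__87_134, e0_63__87_135, e0_63__87_136, e0_63__87_137, e0_63__87_138, e0_63__87_139, e0_63__87_140, e0_63__87_141, e0_63__87_142, e0_63__87_143, e0_63__87_144, e0_63__87_145, e0_63__87_146, e0_63__87_147, e0_63__87_148, e0_63__87_149, e0_63__87_150, e0_63__87_151, e0_63__87_152, e0_63__87_153, e0_63__87_154], by decide +kernel, by decide +kernel⟩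

end Pool.Agent.Lib_TTT.K4
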