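import Pool.Agent.Lib_TTT.K4Base
import Pool.Agent.Lib_TTT.K4T00
import Pool.Agent.Lib_TTT.K4T01
import Pool.Agent.Lib_TTT.K4T02
import Pool.Agent.Lib_TTT.K4T03
import Pool.Agent.Lib_TTT.K4T04

/-! Certificates in `4^4`. -/

set_option autoImplicit false
set_option maxRecDepth 200000

namespace Pool.Agent.Lib_TTT.K4

open Lib_TTT AC DC

def e0_63__90_0 : Ent 4 := ⟨[a0, a63], [a90, a1], (M a12 (F (T t153 (L l65 (T t122 (L l41 (T t151 (L l65 (T t152 (K a4 (M a60 (F (L l483 (T t408 (L l46 (L l50 (L l65 (T t67 (L l41 (T t448 N)))))))))) (K a8 (M a60 (F (L l65 (T t67 (L l483 (T t408 (L l41 (L l52 (L l56 (T t448 N)))))))))) (K a21 (M a192 (L l65 (F (T t836 (L l15 (L l347 (L l375 (T t450 (L l15 (L l347 (L l375 (T t157 (K a41 (M a61 (F (T t156 (L l130 (L l305 (T t584 N)))))) (K a61 (M a41 (F (T t156 (L l15 (L l59 (L l347 (L l375 (L l515 (T t450 (L l50 (L l130 (T t681 N)))))))))))) N)))))))))))))) (K a25 (M a192 (F (T t449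 (L l15 (L l375 (T t450 (L l375 (T t21 N)))))))) (K a29 (M a192 (F (T t449 (L l371 (L l375 (T t21 (L l130 (T t160 N)))))))) (K a38 (M a192 (F (T t156 (L l375 (T t450 (L l375 (T t21 N))))))) (K a42 (M a192 (F (T t449 (L l375 (T t450 (L l56 (L l375 (T t157 N)))))))) (K a46 (M a192 (F (T t449 (L l375 (T t21 (L l26 (L l130 (L l408 (T t160 N))))))))) (K a51 (M a192 (F (T t1725 (L l375 (L l415 (T t450 (L l375 (L l439 (T t21 N))))))))) N))))))))))))))))))⟩
def e0_63__90_1 : Ent 4 := ⟨[a0, a63], [a90, a2], (M a12 (F (T t152 (L l42 (T t122 (L l66 (T t151 (L l66 (T t153 (K a4 (M a60 (F (L l66 (T t43 (L l6 (L l480 (L l483 (T t398 (L l42 (L l46 (L l50 (T t1096 N)))))))))))) (K a8 (M a60 (F (T t423 (L l52 (L l56 (L l66 (T t43 (L l42 (T t1096 N))))))))) (K a21 (M a192 (F (T t836 (L l15 (L l347 (L l375 (T t450 (L l15 (L l347 (L l375 (T t157 N))))))))))) (K a25 (M a192 (F (T t449 (L l15 (L l375 (T t450 (L l375 (T t21 N)))))))) (K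 a29 (M a192 (F (T t449 (L l371 (L l375 (T t21 (L l66 (L l130 (T t160 N))))))))) (K a38 (M a192 (F (T t156 (L l375 (T t450 (L l375 (T t21 N))))))) (K a42 (M a192 (L l66 (F (T t449 (L l375 (T t450 (L l56 (L l375 (T t157 (K a22 (M a62 (F (T t449 (L l306 (L l375 (T t45 N)))))) (K a62 (M a22 (F (T t156 (L l375 (T t450 (L l130 (L l390 (L l516 (T t681 N))))))))) N))))))))))) (K a46 (M a192 (F (T t449 (L l375 (T t21 (L l26 (L l66 (L l130 (L l408 (T t160 N)))))))))) (K a51 (M a192 (F (T t1725 (L l375 (L l415 (T t450 (L l375 (L l439 (T t21 N))))))))) N))))))))))))))))))⟩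
def e0_63__90_2 : Ent 4 := ⟨[a0, a63], [a90, a3], (M a12 (F (T t150 (L l43 (T t122 (L l43 (T t151 (L l43 (T t152 (L l43 (T t153 (K a4 (M a85 (F (L l475 (T t168 (L l333 (L l462 (T t124 (T t154 N)))))))) (K a8 (M a85 (F (L l475 (T t52 (L l333 (L l462 (L l464 (T t124 (L l56 (T t154 N)))))))))) (K a21 (M a192 (F (T t1725 (L l15 (L l347 (L l375 (L l451 (T t450 (L l15 (L l347 (L l375 (T t157 N)))))))))))) (K a25 (M a192 (F (T t496 (L l15 (L l375 (L l451 (T t450 (L l375 (L l475 (T t21 N)))))))))) (K a29 (M a192 (F (T t159 (L l371 (L l375 (L l475 (T t21 (L l130 (T t160 N))))))))) (K a38 (M a192 (F (T t1725 (L l375 (L l451 (T t450 (L l375 (L l475 (T t21 N))))))))) (K a42 (M a192 (F (T t496 (L l375 (L l451 (T t450 (L l56 (L l375 (T t157 N))))))))) (K a46 (M a192 (F (T t1725 (L l375 (L l475 (T t21 (L l26 (L l130 (L l408 (T t160 N)))))))))) (K a51 (M a192 (L l43 (F (T t1725 (L l375 (L l415 (L l451 (T t450 (L l375 (L l439 (L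 l475 (T t21 (K a19 (M a35 (F (T t159 (L l375 (L l439 (L l475 (T t35 (L l130 (L l415 (L l451 (T t543 N))))))))))) (K a35 (M a19 (F (T t159 (L l375 (L l439 (L l475 (T t35 (L l130 (L l415 (L l451 (T t543 N))))))))))) N)))))))))))))) N))))))))))))))))))))⟩
def e0_63__90_3 : Ent 4 := ⟨[a0, a63], [a90, a5], (M a60 (F (T t43 (L l47 (T t67 (L l47 (T t68 (L l5 (T t69 (K a20 (M a48 (F (T t70 (L l11 (L l14 (L l47 (L l483 (T t3 (L l46 (L l375 (L l465 (T t71 N)))))))))))) (K a40 (M a48 (F (T t70 (L l47 (L l483 (T t3 (L l22 (L l24 (L l375 (L l465 (T t71 N))))))))))) (K a21 (M a192 (L l47 (F (T t72 (L l347 (L l375 (T t73 (L l347 (L l375 (T t74 (K a37 (M a53 (F (T t1333 (L l130 (L l311 (T t613 N)))))) (K a53 (M a37 (F (T t77 (L l347 (L l375 (L l491 (T t73 (L l11 (L l130 (T t78 N)))))))))) N)))))))))))) (K a41 (M a192 (F (T t79 (L l47 (L l65 (L l375 (T t35 (L l375 (T t73 N))))))))) (K a61 (M a192 (F (T t72 (L l47 (L l65 (L l375 (L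 l515 (T t35 (L l130 (T t80 N)))))))))) (K a22 (M a192 (F (T t72 (L l375 (T t21 (L l375 (T t73 N))))))) (K a42 (M a192 (F (T t77 (L l375 (T t73 (L l22 (L l375 (T t74 N)))))))) (K a62 (M a192 (F (T t72 (L l47 (L l375 (T t35 (L l66 (L l130 (L l516 (T t80 N)))))))))) (K a3 (M a192 (F (T t2658 (L l47 (L l375 (L l475 (T t35 (L l307 (L l375 (T t73 N)))))))))) N))))))))))))))))))⟩
def e0_63__90_4 : Ent 4 := ⟨[a0, a63], [a90, a6], (M a60 (F (T t116 (L l9 (T t67 (L l9 (T t43 (L l6 (L l9 (T t68 (L l9 (T t69 (K a20 (M a48 (F (T t64 (L l6 (L l11 (L l462 (L l483 (T t1 (L l1 (L l6 (L l11 (T t235 N)))))))))))) (K a40 (M a48 (F (T t64 (L l6 (L l462 (L l483 (T t1 (L l1 (L l6 (L l52 (T t235 N))))))))))) (K a21 (M a192 (F (T t72 (L l347 (L l375 (T t73 (L l347 (L l375 (T t74 N))))))))) (K a41 (M a192 (F (T t79 (L l65 (L l375 (T t35 (L l375 (T t73 N)))))))) (K a61 (M a192 (F (T t72 (L l65 (L l375 (L l515 (T t35 (L l130 (T t80 N)))))))))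 (K a22 (M a54 (F (T t3770 (L l9 (L l11 (T t3771 (L l1 (L l11 (L l16 (L l19 (L l354 (T t3772 N)))))))))))) (K a42 (M a192 (F (T t77 (L l375 (T t73 (L l22 (L l375 (T t74 N)))))))) (K a62 (M a192 (F (T t72 (L l375 (T t35 (L l66 (L l130 (L l516 (T t80 N))))))))) (K a3 (M a12 (F (T t421 (L l43 (T t122 (L l6 (L l7 (L l480 (L l483 (T t398 N)))))))))) N)))))))))))))))))))))⟩
def e0_63__90_5 : Ent 4 := ⟨[a0, a63], [a90, a7], (M a60 (F (T t116 (L l7 (T t67 (L l7 (L l49 (T t43 (L l7 (T t68 (L l7 (T t69 (K a20 (M a48 (F (T t64 (L l7 (L l11 (L l462 (L l483 (T t1 (L l7 (L l46 (L l51 (L l375 (L l465 (T t71 N)))))))))))))) (K a40 (M a48 (F (T t64 (L l7 (L l462 (L l483 (T t1 (L l7 (L l22 (L l24 (L l51 (L l375 (L l465 (T t71 N)))))))))))))) (K a21 (M a192 (F (T t72 (L l347 (L l375 (T t73 (L l347 (L l375 (T t74 N))))))))) (K a41 (M a192 (F (T t79 (L l65 (L l375 (T t35 (L l375 (T t73 N)))))))) (K a61 (M a192 (F (T t72 (L l65 (L l375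 (L l515 (T t35 (L l130 (T t80 N))))))))) (K a22 (M a52 (F (L l1 (T t3773 (L l49 (T t1520 (L l48 (L l66 (T t3774 N))))))))) (K a42 (M a192 (F (T t77 (L l375 (T t73 (L l22 (L l375 (T t74 N)))))))) (K a62 (M a192 (F (T t72 (L l375 (T t35 (L l66 (L l130 (L l516 (T t80 N))))))))) (K a3 (M a15 (F (T t3775 (L l45 (L l462 (T t716 (L l1 (L l45 (T t1449 N))))))))) N)))))))))))))))))))))⟩
def e0_63__90_6 : Ent 4 := ⟨[a0, a63], [a90, a10], (M a170 (F (T t317 (T t2190 (L l54 (T t456 (L l94 (T t2102 (K a128 (M a48 (F (T t323 (L l54 (L l375 (L l483 (T t0 (L l94 (L l151 (L l483 (T t514 N))))))))))) (K a192 (M a48 (F (L l296 (T t319 (L l54 (L l339 (L l375 (L l483 (T t0 (L l94 (L l151 (L l268 (L l483 (T t514 N)))))))))))))) (K a21 (M a48 (F (T t323 (L l54 (L l94 (L l347 (L l483 (T t2922 (L l18 (L l54 (T t3070 N))))))))))) (K a85 (M a8 (L l94 (F (L l458 (T t3776 (L l347 (T t3777 (L l347 (L l458 (T t414 (L l458 (T t3778 (K a80 (M a95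 (F (L l458 (T t3776 (L l347 (T t3777 (L l347 (L l458 (T t414 (L l458 (T t3778 N))))))))))) (K a95 (M a80 (F (L l458 (L l465 (T t3779 (L l347 (T t3777 N))))))) N)))))))))))))) (K a149 (M a12 (L l375 (F (T t2497 (L l54 (T t151 (L l94 (L l347 (T t2498 (K a208 (M a31 (F (T t2497 (L l370 (T t1369 N))))) (K a31 (M a208 (F (T t2501 (L l2 (L l54 (L l495 (T t153 (L l94 (L l347 (T t2498 N)))))))))) N))))))))))) (K a42 (M a60 (L l54 (F (T t457 (L l66 (T t2690 (L l94 (T t1570 (K a26 (M a58 (L l354 (F (T t457 (L l56 (L l72 (T t3780 (K a154 (M a218 (F (T t457 (L l56 (L l72 (L l510 (T t3780 N))))))) (K a218 (M a154 (F (T t2691 (L l56 (L l72 (T t3781 N)))))) N))))))))) (K a58 (M a26 (F (T t457 (L l36 (L l66 (T t2690 (L l94 (T t1570 N)))))))) N)))))))))) (K a106 (M a48 (L l130 (F (T t319 (L l54 (L l375 (L l483 (T t0 (L l94 (L l144 (L l151 (L l483 (T t514 (K a74 (M a122 (L l318 (F (T t319 (L l483 (T t3782 (L l54 (L l339 (L l375 (L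 l483 (T t0 (K a138 (M a202 (F (L l483 (T t3782 (L l54 (T t3783 (L l339 (L l375 (T t3784 N))))))))) (K a202 (M a138 (L l498 (F (T t3785 (L l54 (L l339 (L l375 (L l483 (T t0 (K a154 (Fr a58 a53 l38 (V t3786)) (K a58 (Fr a154 a186 l206 (V t3787)) N))))))))))) N))))))))))))) (K a122 (M a74 (F (T t316 (L l54 (L l375 (L l483 (T t0 (L l54 (L l94 (L l114 (L l144 (L l426 (L l498 (T t3788 N)))))))))))))) N))))))))))))))) (K a234 (Fr a85 a255 l476 (Fr a21 a42 l68 (Fr a149 a213 l347 (Fr a192 a106 l519 (V t583))))) (K a255 (M a8 (F (T t428 (L l265 (T t3776 (L l265 (L l296 (T t3777 N)))))))) N)))))))))))))))))⟩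
def e0_63__90_7 : Ent 4 := ⟨[a0, a63], [a90, a11], (M a12 (L l465 (F (T t122 (T t151 (L l55 (T t152 (L l2 (T t153 (K a4 (M a85 (L l465 (F (T t168 (L l462 (T t124 (T t154 (K a248 (M a169 (F (T t88 (L l1 (L l260 (L l480 (T t3789 N))))))) (K a169 (M a248 (F (T t168 (L l174 (L l462 (T t124 (T t154 N))))))) N))))))))) (K a8 (M a10 (L l465 (F (T t2561 (L l480 (T t2151 (L l372 (T t2599 (T t2600 (K a248 (M a169 (L l460 (F (T t2561 (L l480 (T t2151 (L l372 (T t2599 (T t2600 (K a88 (M a168 (L l88 (F (T t2561 (L l90 (L l92 (L l463 (T t3790 (K a89 (M a91 (L l464 (F (T t2561 (L l90 (L l91 (L l94 (T t3791 (K a170 (M a251 (F (T t2561 (L l90 (L l280 (T t3792 N)))))) (K a251 (Fr a170 a171 l174 (V t3793)) N)))))))))) (K a91 (M a89 (L l463 (F (T t2561 (L l260 (L l262 (L l480 (T t3794 (K a171 (M a251 (F (T t2561 (L l480 (T t3795 N))))) (K a251 (Fr a171 a170 l174 (V t3796)) N)))))))))) N)))))))))) (K a168 (M a88 (F (T t2561 (T t1374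 (L l372 (T t2599 (T t2600 N))))))) N))))))))))) (K a169 (M a248 (F (T t2561 (L l375 (T t2149 (L l372 (T t2599 (T t2600 N)))))))) N))))))))))) (K a21 (M a255 (L l465 (F (T t2486 (L l94 (L l347 (T t2031 (L l2 (L l15 (L l462 (T t2032 (K a248 (M a169 (F (T t2486 (L l7 (L l94 (L l347 (L l463 (T t3797 N)))))))) (K a169 (M a248 (F (T t2034 (L l50 (L l174 (L l461 (T t3798 N))))))) N))))))))))))) (K a25 (M a192 (L l465 (F (T t156 (L l15 (L l375 (T t450 (L l375 (T t21 (K a248 (M a169 (F (T t836 (L l7 (L l130 (T t3799 N)))))) (K a169 (M a248 (F (L l217 (L l375 (T t21 (L l88 (T t3800 N))))))) N))))))))))) (K a29 (M a192 (L l465 (F (T t836 (L l371 (L l375 (T t21 (L l130 (T t160 (K a248 (M a169 (F (T t836 (L l7 (L l130 (T t3799 N)))))) (K a169 (M a248 (F (T t836 (L l15 (L l217 (L l371 (L l375 (T t35 (L l15 (L l217 (L l371 (L l375 (T t776 N))))))))))))) N))))))))))) (K a38 (M a149 (L l465 (F (T t991 (L l50 (T t175 (L l26 (L l50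 (L l463 (T t649 (K a248 (M a169 (F (T t991 (L l463 (T t3801 N))))) (K a169 (M a248 (F (T t991 (L l50 (L l174 (L l205 (T t3802 N))))))) N)))))))))))) (K a42 (M a255 (L l465 (F (T t2999 (L l94 (T t2031 (L l2 (L l56 (L l390 (L l462 (T t2032 (K a248 (M a169 (F (T t2999 (L l7 (L l94 (L l463 (T t3797 N))))))) (K a169 (M a248 (F (T t2999 (L l174 (L l461 (T t3798 N)))))) N))))))))))))) (K a46 (M a192 (L l465 (F (T t836 (L l375 (T t21 (L l26 (L l130 (L l408 (T t160 (K a248 (M a169 (F (T t836 (L l7 (L l130 (L l408 (T t3799 N))))))) (K a169 (M a248 (F (T t836 (L l217 (L l375 (T t35 (L l174 (L l205 (T t3803 N))))))))) N)))))))))))) (K a51 (M a149 (L l465 (F (L l489 (T t958 (L l462 (T t25 (L l463 (T t649 (K a248 (M a169 (F (T t3804 (L l462 (T t25 N))))) (K a169 (M a248 (F (L l415 (T t650 (L l174 (T t3805 N)))))) N))))))))))) (K a248 (M a169 (F (T t122 (T t151 (L l55 (L l429 (T t152 (L l2 (L l460 (T t153 (K a4 (M a252 (F (T t3806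 (L l7 (L l454 (L l463 (T t3807 N))))))) (K a8 (M a9 (L l460 (F (T t3178 (L l260 (L l316 (T t3808 (K a88 (M a168 (L l88 (F (L l280 (T t3809 (L l56 (L l90 (L l463 (T t3810 (K a89 (M a91 (L l464 (F (T t3178 (L l90 (T t3811 (K a170 (M a251 (L l462 (F (T t3178 (L l7 (L l90 (L l220 (L l371 (L l375 (T t3812 (L l90 (L l130 (L l132 (L l390 (T t3813 (K a10 (M a250 (F (L l6 (T t3178 (L l7 (L l90 (L l220 (L l371 (L l375 (T t3812 (L l90 (L l130 (L l132 (L l390 (T t3813 N))))))))))))))) (K a250 (M a10 (F (L l7 (T t3814 (L l90 (L l130 (L l132 (L l280 (L l390 (T t3815 (L l426 (T t2561 N)))))))))))) N))))))))))))))))) (K a251 (Fr a170 a171 l174 (V t3793)) N)))))))) (K a91 (Fr a89 a249 l461 (V t3816)) N))))))))))) (K a168 (M a88 (F (T t3178 (L l260 (L l316 (T t3808 N)))))) N))))))))) (K a21 (M a192 (F (T t836 (L l7 (L l130 (T t3799 N)))))) (K a25 (M a192 (F (T t836 (L l7 (L l130 (T t3799 N)))))) (K a29 (M a192 (F (T t836 (L l7 (L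 l130 (T t3799 N)))))) (K a38 (M a192 (F (T t836 (L l7 (L l130 (T t3799 N)))))) (K a42 (M a192 (F (T t836 (L l7 (L l130 (L l390 (T t3799 N))))))) (K a46 (M a192 (F (T t836 (L l7 (L l130 (L l408 (T t3799 N))))))) (K a51 (M a192 (F (T t159 (L l7 (L l43 (L l130 (T t3799 N))))))) N))))))))))))))))))) (K a169 (M a248 (F (T t151 (L l174 (L l205 (T t3802 (L l174 (L l205 (T t3817 (K a4 (M a240 (F (L l454 (T t3818 (L l2 (L l50 (L l205 (T t3819 N)))))))) (K a8 (M a10 (F (T t2561 (L l375 (T t2149 (L l372 (T t2599 (T t2600 N)))))))) (K a25 (M a192 (F (L l217 (L l375 (T t21 (L l88 (T t3800 N))))))) (K a42 (M a240 (F (T t3820 (L l148 (L l217 (T t3821 N)))))) N))))))))))))) N))))))))))))))))))))⟩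
def e0_63__90_8 : Ent 4 := ⟨[a0, a63], [a90, a15], (M a85 (L l483 (F (L l339 (T t88 (L l469 (T t52 (L l130 (T t89 (L l339 (L l462 (T t90 (K a64 (M a48 (L l483 (F (L l462 (T t567 (T t568 (K a240 (M a165 (F (L l84 (L l151 (T t509 (L l339 (T t3822 (T t3823 N)))))))) (K a165 (M a240 (F (L l116 (L l339 (L l411 (T t1915 (T t51 N))))))) N)))))))) (K a192 (M a4 (L l339 (L l483 (F (T t129 (L l88 (T t1399 (L l296 (T t131 (K a240 (M a165 (L l268 (L l339 (F (T t129 (L l92 (L l266 (T t3824 (K a208 (M a224 (L l339 (L l375 (F (T t1604 (L l92 (L l481 (T t3825 (K a133 (M a74 (L l375 (F (T t1604 (L l7 (L l311 (L l315 (L l480 (T t3826 (K a149 (M a31 (F (T t129 (L l7 (L l202 (L l311 (L l315 (L l480 (T t3826 N))))))))) (K a31 (M a149 (F (T t3088 (L l88 (T t1399 N))))) N))))))))))) (K a149 (M a31 (L l339 (F (T t129 (L l202 (L l266 (L l480 (L l481 (T t3827 (K a133 (M a74 (F (T t129 (L l7 (L l202 (L l311 (L l315 (L l480 (T t3826 N)))))))))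 (K a74 (M a133 (L l130 (F (T t129 (L l92 (L l351 (L l481 (T t3825 (K a106 (M a122 (F (L l262 (L l266 (T t3828 (L l73 (L l390 (L l417 (L l489 (L l495 (T t519 N))))))))))) (K a122 (Fr a106 a47 l411 (V t3090)) N)))))))))) N))))))))))) (K a74 (M a133 (L l130 (L l375 (F (T t129 (L l92 (L l481 (T t3825 (K a149 (M a31 (L l130 (F (T t129 (L l92 (L l351 (L l481 (T t3825 (K a106 (M a122 (F (L l262 (L l266 (T t3828 (L l73 (L l390 (L l417 (L l489 (L l495 (T t519 N))))))))))) (K a122 (Fr a106 a47 l411 (V t3090)) N)))))))))) (K a106 (M a122 (L l375 (F (L l262 (L l266 (T t3828 (L l73 (L l390 (L l417 (L l489 (T t519 (K a149 (M a31 (F (L l262 (L l266 (T t3828 (L l73 (L l390 (L l417 (L l489 (L l495 (T t519 N))))))))))) (K a31 (Fr a149 a181 l199 (V t3088)) N))))))))))))) (K a122 (Fr a106 a47 l411 (V t3090)) (K a31 (Fr a149 a181 l199 (V t3088)) N)))))))))))) (K a31 (M a149 (L l339 (F (T t3088 (L l478 (L l480 (T t3829 (K a133 (M a74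 (F (T t3088 (L l88 (T t1399 N))))) (K a74 (Fr a133 a181 l199 (V t3088)) N))))))))) N)))))))))))) (K a224 (M a208 (L l339 (F (T t129 (L l92 (L l481 (T t3825 (K a133 (M a74 (F (T t1604 (L l92 (L l266 (T t3824 N)))))) (K a74 (M a133 (L l130 (F (T t1604 (L l7 (L l480 (T t3826 (K a106 (M a122 (F (L l262 (L l266 (T t3828 (L l73 (L l390 (L l417 (L l489 (T t519 N)))))))))) (K a122 (M a106 (F (T t3090 (L l7 (L l480 (T t3826 N)))))) N))))))))) N))))))))) (K a133 (M a74 (L l268 (F (T t1604 (L l262 (L l266 (T t3828 (K a208 (M a224 (L l375 (F (T t1604 (L l7 (L l311 (L l315 (L l480 (T t3826 (K a149 (M a31 (F (T t129 (L l7 (L l202 (L l311 (L l315 (L l480 (T t3826 N))))))))) (K a31 (M a149 (F (T t3088 (L l88 (T t1399 N))))) N))))))))))) (K a224 (M a208 (F (T t1604 (L l92 (L l266 (T t3824 N)))))) N))))))))) (K a74 (M a133 (L l130 (L l268 (F (T t1604 (L l262 (L l266 (L l480 (T t3830 (K a208 (M a224 (L l130 (L l375 (F (T t129 (L l92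 (L l481 (T t3825 (K a149 (M a31 (L l130 (F (T t129 (L l92 (L l351 (L l481 (T t3825 (K a106 (M a122 (F (L l262 (L l266 (T t3828 (L l73 (L l390 (L l417 (L l489 (L l495 (T t519 N))))))))))) (K a122 (Fr a106 a47 l411 (V t3090)) N)))))))))) (K a106 (M a122 (L l375 (F (L l262 (L l266 (T t3828 (L l73 (L l390 (L l417 (L l489 (T t519 (K a149 (M a31 (F (L l262 (L l266 (T t3828 (L l73 (L l390 (L l417 (L l489 (L l495 (T t519 N))))))))))) (K a31 (Fr a149 a181 l199 (V t3088)) N))))))))))))) (K a122 (Fr a106 a47 l411 (V t3090)) (K a31 (Fr a149 a181 l199 (V t3088)) N)))))))))))) (K a224 (M a208 (L l130 (F (T t1604 (L l7 (L l480 (T t3826 (K a106 (M a122 (F (L l262 (L l266 (T t3828 (L l73 (L l390 (L l417 (L l489 (T t519 N)))))))))) (K a122 (M a106 (F (T t3090 (L l7 (L l480 (T t3826 N)))))) N))))))))) (K a106 (M a122 (L l268 (F (L l262 (L l266 (T t3828 (L l73 (L l390 (L l417 (L l489 (T t519 (K a208 (M a224 (L l375 (F (L l262 (L l266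 (T t3828 (L l73 (L l390 (L l417 (L l489 (T t519 (K a149 (M a31 (F (L l262 (L l266 (T t3828 (L l73 (L l390 (L l417 (L l489 (L l495 (T t519 N))))))))))) (K a31 (Fr a149 a181 l199 (V t3088)) N))))))))))))) (K a224 (M a208 (F (L l262 (L l266 (T t3828 (L l73 (L l390 (L l417 (L l489 (T t519 N)))))))))) N))))))))))))) (K a122 (M a106 (L l268 (F (T t3090 (L l92 (L l481 (T t3825 (K a208 (Fr a224 a47 l411 (V t3090)) (K a224 (M a208 (F (T t3090 (L l7 (L l480 (T t3826 N)))))) N))))))))) N))))))))))))) N)))))))))))) (K a133 (M a74 (L l483 (F (T t129 (L l272 (L l462 (L l481 (T t1509 (L l296 (T t131 (K a240 (M a165 (L l268 (F (T t1604 (L l262 (L l266 (T t3828 (K a208 (M a224 (L l375 (F (T t1604 (L l7 (L l311 (L l315 (L l480 (T t3826 (K a149 (M a31 (F (T t129 (L l7 (L l202 (L l311 (L l315 (L l480 (T t3826 N))))))))) (K a31 (M a149 (F (T t3088 (L l88 (T t1399 N))))) N))))))))))) (K a224 (M a208 (F (T t1604 (L l92 (L l266 (T t3824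 N)))))) N))))))))) (K a165 (M a240 (L l199 (F (T t129 (L l75 (L l180 (L l227 (L l462 (L l484 (T t386 (K a149 (Fr a181 a122 l447 (V t3831)) (K a181 (M a149 (F (T t3088 (L l272 (L l481 (T t1371 N)))))) N)))))))))))) N)))))))))))) (K a165 (M a240 (L l339 (F (T t129 (L l75 (L l180 (L l199 (L l462 (L l484 (T t933 (K a133 (M a74 (L l199 (F (T t129 (L l75 (L l180 (L l227 (L l462 (L l484 (T t386 (K a149 (Fr a181 a122 l447 (V t3831)) (K a181 (M a149 (F (T t3088 (L l272 (L l481 (T t1371 N)))))) N)))))))))))) (K a74 (M a133 (L l130 (F (T t129 (L l75 (L l180 (L l462 (L l484 (T t933 (K a106 (Fr a122 a181 l447 (V t1399)) (K a122 (M a106 (F (T t3090 (L l88 (L l292 (L l459 (L l471 (T t3831 N)))))))) N))))))))))) N)))))))))))) (K a74 (M a133 (L l130 (L l483 (F (T t129 (L l272 (L l462 (L l481 (T t1509 (L l84 (L l296 (T t3832 (K a240 (M a165 (L l130 (L l268 (F (T t1604 (L l262 (L l266 (L l480 (T t3830 (K a208 (M a224 (L l130 (L l375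 (F (T t129 (L l92 (L l481 (T t3825 (K a149 (M a31 (L l130 (F (T t129 (L l92 (L l351 (L l481 (T t3825 (K a106 (M a122 (F (L l262 (L l266 (T t3828 (L l73 (L l390 (L l417 (L l489 (L l495 (T t519 N))))))))))) (K a122 (Fr a106 a47 l411 (V t3090)) N)))))))))) (K a106 (M a122 (L l375 (F (L l262 (L l266 (T t3828 (L l73 (L l390 (L l417 (L l489 (T t519 (K a149 (M a31 (F (L l262 (L l266 (T t3828 (L l73 (L l390 (L l417 (L l489 (L l495 (T t519 N))))))))))) (K a31 (Fr a149 a181 l199 (V t3088)) N))))))))))))) (K a122 (Fr a106 a47 l411 (V t3090)) (K a31 (Fr a149 a181 l199 (V t3088)) N)))))))))))) (K a224 (M a208 (L l130 (F (T t1604 (L l7 (L l480 (T t3826 (K a106 (M a122 (F (L l262 (L l266 (T t3828 (L l73 (L l390 (L l417 (L l489 (T t519 N)))))))))) (K a122 (M a106 (F (T t3090 (L l7 (L l480 (T t3826 N)))))) N))))))))) (K a106 (M a122 (L l268 (F (L l262 (L l266 (T t3828 (L l73 (L l390 (L l417 (L l489 (T t519 (K a208 (M a224 (L l375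 (F (L l262 (L l266 (T t3828 (L l73 (L l390 (L l417 (L l489 (T t519 (K a149 (M a31 (F (L l262 (L l266 (T t3828 (L l73 (L l390 (L l417 (L l489 (L l495 (T t519 N))))))))))) (K a31 (Fr a149 a181 l199 (V t3088)) N))))))))))))) (K a224 (M a208 (F (L l262 (L l266 (T t3828 (L l73 (L l390 (L l417 (L l489 (T t519 N)))))))))) N))))))))))))) (K a122 (M a106 (L l268 (F (T t3090 (L l92 (L l481 (T t3825 (K a208 (Fr a224 a47 l411 (V t3090)) (K a224 (M a208 (F (T t3090 (L l7 (L l480 (T t3826 N)))))) N))))))))) N))))))))))))) (K a165 (M a240 (L l130 (F (T t129 (L l75 (L l180 (L l462 (L l484 (T t933 (K a106 (Fr a122 a181 l447 (V t1399)) (K a122 (M a106 (F (T t3090 (L l88 (L l292 (L l459 (L l471 (T t3831 N)))))))) N))))))))))) (K a106 (M a122 (L l483 (F (L l88 (T t3833 (L l296 (L l390 (T t131 (K a240 (M a165 (L l268 (F (L l262 (L l266 (T t3828 (L l73 (L l390 (L l417 (L l489 (T t519 (K a208 (M a224 (L l375 (F (L l262 (L l266 (T t3828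 (L l73 (L l390 (L l417 (L l489 (T t519 (K a149 (M a31 (F (L l262 (L l266 (T t3828 (L l73 (L l390 (L l417 (L l489 (L l495 (T t519 N))))))))))) (K a31 (Fr a149 a181 l199 (V t3088)) N))))))))))))) (K a224 (M a208 (F (L l262 (L l266 (T t3828 (L l73 (L l390 (L l417 (L l489 (T t519 N)))))))))) N))))))))))))) (K a165 (Fr a240 a181 l447 (V t1399)) N)))))))))) (K a122 (M a106 (L l483 (F (L l84 (T t3095 (L l73 (L l489 (T t519 (K a240 (M a165 (L l268 (F (T t3090 (L l92 (L l481 (T t3825 (K a208 (Fr a224 a47 l411 (V t3090)) (K a224 (M a208 (F (T t3090 (L l7 (L l480 (T t3826 N)))))) N))))))))) (K a165 (M a240 (F (T t3090 (L l88 (L l292 (L l459 (L l471 (T t3831 N)))))))) N)))))))))) N)))))))))))))))) N))))))))))))) (K a21 (M a60 (L l483 (F (L l469 (T t936 (L l462 (L l471 (T t114 (L l65 (T t523 (K a240 (M a165 (F (L l133 (T t2431 (L l262 (L l462 (L l471 (T t114 (L l65 (T t523 N)))))))))) (K a165 (M a240 (F (L l337 (T t3042 (L l65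 (L l199 (L l480 (L l481 (T t3834 N))))))))) N)))))))))))) (K a149 (M a4 (L l375 (L l483 (F (T t129 (L l481 (T t1371 (L l202 (L l480 (T t1372 (K a208 (M a31 (L l483 (F (T t129 (L l220 (L l462 (L l481 (T t1509 (L l202 (L l480 (T t1372 (K a240 (M a165 (L l268 (F (T t129 (L l92 (L l351 (L l481 (T t3825 (K a192 (M a224 (L l339 (F (T t129 (L l202 (L l266 (L l480 (L l481 (T t3827 (K a133 (M a74 (F (T t129 (L l7 (L l202 (L l311 (L l315 (L l480 (T t3826 N))))))))) (K a74 (M a133 (L l130 (F (T t129 (L l92 (L l351 (L l481 (T t3825 (K a106 (M a122 (F (L l262 (L l266 (T t3828 (L l73 (L l390 (L l417 (L l489 (L l495 (T t519 N))))))))))) (K a122 (Fr a106 a47 l411 (V t3090)) N)))))))))) N))))))))))) (K a224 (M a192 (F (L l130 (L l220 (T t3101 (L l7 (L l202 (L l480 (T t3826 N))))))))) N)))))))))) (K a165 (M a240 (L l199 (F (T t129 (L l75 (L l130 (L l180 (L l220 (L l227 (L l462 (T t386 (K a133 (Fr a181 a122 l447 (V t3831)) (K a181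 (M a133 (F (T t129 (L l180 (L l220 (L l462 (L l481 (T t1509 (L l173 (L l202 (L l480 (T t1372 N)))))))))))) N))))))))))))) N))))))))))))) (K a240 (M a165 (L l375 (F (T t129 (L l92 (L l266 (L l351 (T t3824 (K a208 (M a31 (L l268 (F (T t129 (L l92 (L l351 (L l481 (T t3825 (K a192 (M a224 (L l339 (F (T t129 (L l202 (L l266 (L l480 (L l481 (T t3827 (K a133 (M a74 (F (T t129 (L l7 (L l202 (L l311 (L l315 (L l480 (T t3826 N))))))))) (K a74 (M a133 (L l130 (F (T t129 (L l92 (L l351 (L l481 (T t3825 (K a106 (M a122 (F (L l262 (L l266 (T t3828 (L l73 (L l390 (L l417 (L l489 (L l495 (T t519 N))))))))))) (K a122 (Fr a106 a47 l411 (V t3090)) N)))))))))) N))))))))))) (K a224 (M a192 (F (L l130 (L l220 (T t3101 (L l7 (L l202 (L l480 (T t3826 N))))))))) N)))))))))) (K a31 (M a208 (F (T t129 (L l92 (L l351 (L l481 (T t3825 N))))))) N)))))))))) (K a165 (M a240 (L l199 (L l375 (F (T t129 (L l75 (L l130 (L l180 (L l220 (L l227 (L l462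 (T t386 (K a208 (M a31 (L l199 (F (T t129 (L l75 (L l130 (L l180 (L l220 (L l227 (L l462 (T t386 (K a133 (Fr a181 a122 l447 (V t3831)) (K a181 (M a133 (F (T t129 (L l180 (L l220 (L l462 (L l481 (T t1509 (L l173 (L l202 (L l480 (T t1372 N)))))))))))) N))))))))))))) (K a133 (Fr a181 a122 l447 (V t3831)) (K a181 (M a133 (L l375 (F (T t129 (L l481 (T t1371 (L l173 (L l202 (L l480 (T t1372 (K a208 (M a31 (F (T t129 (L l180 (L l220 (L l462 (L l481 (T t1509 (L l173 (L l202 (L l480 (T t1372 N)))))))))))) (K a31 (M a208 (F (T t129 (L l151 (L l180 (L l220 (L l411 (T t3835 N)))))))) N)))))))))))) (K a31 (M a208 (L l199 (F (T t129 (L l151 (L l180 (L l220 (L l411 (T t3835 (K a133 (Fr a181 a122 l447 (V t1399)) (K a181 (M a133 (F (T t129 (L l151 (L l180 (L l220 (L l411 (T t3835 N)))))))) N))))))))))) N)))))))))))))))) (K a31 (M a208 (L l483 (F (T t129 (L l481 (T t1371 (L l202 (L l480 (T t1372 (K a240 (M a165 (F (T t129 (L l92 (L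 l351 (L l481 (T t3825 N))))))) (K a165 (M a240 (L l199 (F (T t129 (L l151 (L l180 (L l220 (L l411 (T t3835 (K a133 (Fr a181 a122 l447 (V t1399)) (K a181 (M a133 (F (T t129 (L l151 (L l180 (L l220 (L l411 (T t3835 N)))))))) N))))))))))) N))))))))))) N)))))))))))))) (K a213 (Fr a170 a255 l476 (Fr a42 a21 l68 (Fr a106 a234 l390 (Fr a192 a149 l519 (V t581))))) (K a42 (M a60 (L l483 (F (L l469 (T t1563 (L l390 (L l462 (L l471 (T t114 (L l22 (T t523 (K a240 (M a165 (F (L l22 (T t523 (L l266 (L l469 (T t1563 (L l262 (L l390 (L l462 (L l471 (T t114 N)))))))))))) (K a165 (M a240 (F (L l469 (T t1563 (L l199 (L l480 (L l481 (T t3834 N)))))))) N))))))))))))) (K a106 (M a4 (L l130 (L l483 (F (L l481 (T t1371 (L l73 (L l390 (T t519 (L l390 (T t131 (L l408 (L l481 (T t938 (K a240 (M a165 (L l130 (F (L l262 (L l266 (T t3828 (L l73 (L l390 (L l417 (T t519 (K a74 (M a122 (L l339 (F (L l262 (L l266 (T t3828 (L l73 (L l390 (L l417 (T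 t519 (K a192 (M a133 (L l268 (F (L l262 (L l266 (T t3828 (L l73 (L l390 (L l417 (L l489 (T t519 (K a208 (M a224 (L l375 (F (L l262 (L l266 (T t3828 (L l73 (L l390 (L l417 (L l489 (T t519 (K a149 (M a31 (F (L l262 (L l266 (T t3828 (L l73 (L l390 (L l417 (L l489 (L l495 (T t519 N))))))))))) (K a31 (Fr a149 a181 l199 (V t3088)) N))))))))))))) (K a224 (M a208 (F (L l262 (L l266 (T t3828 (L l73 (L l390 (L l417 (L l489 (T t519 N)))))))))) N))))))))))))) (K a133 (M a192 (F (L l375 (L l390 (T t3107 (L l92 (L l142 (L l481 (T t3825 N))))))))) N)))))))))))) (K a122 (M a74 (F (L l262 (L l266 (T t3828 (L l73 (L l390 (L l417 (T t519 N))))))))) N)))))))))))) (K a165 (M a240 (L l130 (L l411 (F (L l88 (T t3836 (L l390 (T t131 (K a224 (M a47 (L l130 (F (L l88 (T t3836 (L l390 (T t131 (K a74 (Fr a122 a181 l447 (V t3831)) (K a122 (M a74 (F (L l88 (T t3836 (L l390 (T t131 N)))))) N))))))))) (K a74 (Fr a122 a181 l447 (V t1399)) (K a122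 (M a74 (L l411 (F (L l88 (T t3836 (L l390 (T t131 (K a224 (M a47 (F (L l88 (T t3836 (L l390 (T t131 N)))))) (K a47 (M a224 (F (L l481 (T t1371 (L l28 (L l75 (L l375 (T t3837 N)))))))) N))))))))) (K a47 (M a224 (L l130 (F (L l481 (T t1371 (L l28 (L l75 (L l375 (T t3837 (K a74 (Fr a122 a181 l447 (V t1510)) (K a122 (M a74 (F (L l481 (T t1371 (L l28 (L l75 (L l375 (T t3837 N)))))))) N))))))))))) N)))))))))))) (K a74 (M a122 (L l339 (L l483 (F (L l88 (T t3833 (L l390 (T t131 (K a192 (M a133 (L l483 (F (L l88 (T t3833 (L l296 (L l390 (T t131 (K a240 (M a165 (L l268 (F (L l262 (L l266 (T t3828 (L l73 (L l390 (L l417 (L l489 (T t519 (K a208 (M a224 (L l375 (F (L l262 (L l266 (T t3828 (L l73 (L l390 (L l417 (L l489 (T t519 (K a149 (M a31 (F (L l262 (L l266 (T t3828 (L l73 (L l390 (L l417 (L l489 (L l495 (T t519 N))))))))))) (K a31 (Fr a149 a181 l199 (V t3088)) N))))))))))))) (K a224 (M a208 (F (L l262 (L l266 (T t3828 (L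 l73 (L l390 (L l417 (L l489 (T t519 N)))))))))) N))))))))))))) (K a165 (Fr a240 a181 l447 (V t1399)) N)))))))))) (K a240 (M a165 (L l339 (F (L l262 (L l266 (T t3828 (L l73 (L l390 (L l417 (T t519 (K a192 (M a133 (L l268 (F (L l262 (L l266 (T t3828 (L l73 (L l390 (L l417 (L l489 (T t519 (K a208 (M a224 (L l375 (F (L l262 (L l266 (T t3828 (L l73 (L l390 (L l417 (L l489 (T t519 (K a149 (M a31 (F (L l262 (L l266 (T t3828 (L l73 (L l390 (L l417 (L l489 (L l495 (T t519 N))))))))))) (K a31 (Fr a149 a181 l199 (V t3088)) N))))))))))))) (K a224 (M a208 (F (L l262 (L l266 (T t3828 (L l73 (L l390 (L l417 (L l489 (T t519 N)))))))))) N))))))))))))) (K a133 (M a192 (F (L l375 (L l390 (T t3107 (L l92 (L l142 (L l481 (T t3825 N))))))))) N)))))))))))) (K a133 (M a192 (L l483 (F (L l199 (L l375 (L l390 (T t3107 (L l78 (L l132 (L l315 (L l327 (T t1407 (K a240 (M a165 (F (L l375 (L l390 (T t3107 (L l92 (L l142 (L l481 (T t3825 N)))))))))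 (K a165 (Fr a240 a181 l447 (M a149 (L l411 (F (T t3088 (L l469 (T t3111 (K a224 (M a47 (F (T t3088 (L l469 (T t3111 N))))) (K a47 (Fr a224 a208 l268 (V t3088)) N))))))))) N)))))))))))))) (K a165 (Fr a240 a181 l447 (V t1399)) N)))))))))))) (K a122 (M a74 (L l483 (F (L l481 (T t1371 (L l73 (L l390 (T t519 (L l390 (T t131 (L l408 (L l481 (T t938 (K a240 (M a165 (F (L l262 (L l266 (T t3828 (L l73 (L l390 (L l417 (T t519 N))))))))) (K a165 (M a240 (L l411 (F (L l88 (T t3836 (L l390 (T t131 (K a224 (M a47 (F (L l88 (T t3836 (L l390 (T t131 N)))))) (K a47 (M a224 (F (L l481 (T t1371 (L l28 (L l75 (L l375 (T t3837 N)))))))) N))))))))) N))))))))))))))) N)))))))))))))))))) (K a170 (M a4 (L l462 (L l483 (F (L l464 (T t130 (L l390 (T t131 (L l73 (L l390 (L l464 (T t519 (L l464 (L l481 (T t938 (K a240 (M a165 (L l462 (F (L l262 (L l266 (T t3828 (L l73 (L l390 (L l417 (L l464 (T t519 (K a10 (M a250 (F (L l481 (T t3838 (L l2 (L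 l54 (L l73 (L l390 (L l417 (L l464 (T t519 N))))))))))) (K a250 (M a10 (L l266 (F (L l92 (L l474 (L l481 (T t3825 (L l73 (L l390 (L l417 (L l464 (T t519 (K a245 (M a255 (F (L l220 (L l390 (T t3839 (L l178 (L l464 (T t3840 N)))))))) (K a255 (Fr a245 a5 l455 (V t3841)) N)))))))))))))) N))))))))))))) (K a165 (M a240 (L l180 (L l462 (F (L l88 (L l464 (T t3836 (L l390 (T t131 (K a160 (M a175 (L l462 (F (L l464 (T t130 (L l130 (L l390 (L l465 (T t3842 (L l390 (T t131 (L l464 (L l481 (T t938 (K a10 (M a250 (F (L l54 (L l75 (L l199 (T t3843 (L l2 (L l464 (T t130 (L l2 (L l54 (L l73 (L l390 (L l464 (T t519 N))))))))))))))) (K a250 (M a10 (F (L l464 (T t130 (L l130 (L l173 (L l176 (L l390 (L l426 (T t3844 (L l88 (L l130 (L l390 (L l426 (L l464 (T t3845 (L l464 (L l481 (T t938 N))))))))))))))))))) N)))))))))))))))) (K a10 (M a250 (L l180 (F (L l54 (L l75 (L l199 (T t3843 (L l2 (L l88 (L l459 (L l464 (L l471 (T t3831 (K a160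 (M a175 (F (L l54 (L l75 (L l199 (T t3843 (L l2 (L l464 (T t130 (L l2 (L l54 (L l73 (L l390 (L l464 (T t519 N))))))))))))))) (K a175 (Fr a160 a80 l448 (V t3846)) N))))))))))))))) (K a250 (M a10 (L l180 (F (L l88 (L l464 (T t3836 (L l390 (T t131 (K a160 (M a175 (F (L l464 (T t130 (L l130 (L l173 (L l176 (L l390 (L l426 (T t3844 (L l88 (L l130 (L l390 (L l426 (L l464 (T t3845 (L l464 (L l481 (T t938 N))))))))))))))))))) (K a175 (Fr a160 a80 l448 (V t3846)) N)))))))))) (K a175 (Fr a160 a80 l448 (V t3846)) N))))))))))))) (K a10 (M a250 (L l483 (F (L l2 (L l464 (T t130 (L l54 (L l390 (T t131 (L l2 (L l54 (L l73 (L l390 (L l464 (T t519 (L l2 (L l464 (L l481 (T t938 (K a240 (M a165 (F (L l481 (T t3838 (L l2 (L l54 (L l73 (L l390 (L l417 (L l464 (T t519 N))))))))))) (K a165 (M a240 (L l180 (F (L l54 (L l75 (L l199 (T t3843 (L l2 (L l88 (L l459 (L l464 (L l471 (T t3831 (K a160 (M a175 (F (L l54 (L l75 (L l199 (T t3843 (L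 l2 (L l464 (T t130 (L l2 (L l54 (L l73 (L l390 (L l464 (T t519 N))))))))))))))) (K a175 (Fr a160 a80 l448 (V t3846)) N))))))))))))))) N))))))))))))))))))))) (K a250 (M a10 (L l483 (F (L l464 (T t130 (L l390 (T t131 (L l73 (L l390 (L l464 (T t519 (L l464 (L l481 (T t938 (K a240 (M a165 (L l266 (F (L l92 (L l474 (L l481 (T t3825 (L l73 (L l390 (L l417 (L l464 (T t519 (K a245 (M a255 (F (L l220 (L l390 (T t3839 (L l178 (L l464 (T t3840 N)))))))) (K a255 (Fr a245 a5 l455 (V t3841)) N)))))))))))))) (K a165 (M a240 (L l180 (F (L l88 (L l464 (T t3836 (L l390 (T t131 (K a160 (M a175 (F (L l464 (T t130 (L l130 (L l173 (L l176 (L l390 (L l426 (T t3844 (L l88 (L l130 (L l390 (L l426 (L l464 (T t3845 (L l464 (L l481 (T t938 N))))))))))))))))))) (K a175 (Fr a160 a80 l448 (V t3846)) N)))))))))) N)))))))))))))))) N))))))))))))))))))) (K a255 (M a4 (L l469 (L l483 (F (T t129 (L l265 (T t130 (L l265 (L l296 (T t131 (K a240 (M a165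 (L l266 (L l469 (F (T t129 (L l7 (L l480 (T t3826 (K a245 (M a250 (L l469 (F (T t129 (L l259 (L l265 (T t130 (L l259 (L l265 (L l275 (L l296 (T t131 (K a95 (M a175 (F (T t129 (L l259 (L l265 (L l465 (L l471 (T t3847 N)))))))) (K a175 (M a95 (F (T t129 (L l259 (L l265 (T t130 (L l259 (L l265 (L l275 (L l296 (T t131 N))))))))))) N)))))))))))))) (K a250 (Fr a245 a5 l455 (V t3841)) (K a95 (M a175 (L l266 (F (T t129 (L l7 (L l480 (T t3826 (K a245 (M a250 (F (T t129 (L l259 (L l265 (L l465 (L l471 (T t3847 N)))))))) (K a250 (Fr a245 a5 l455 (V t3848)) N))))))))) (K a175 (M a95 (L l266 (F (T t129 (L l92 (L l179 (L l265 (L l481 (T t3825 (K a245 (M a250 (F (T t129 (L l259 (L l265 (T t130 (L l259 (L l265 (L l275 (L l296 (T t131 N))))))))))) (K a250 (Fr a245 a5 l455 (V t3841)) N))))))))))) N)))))))))))) (K a165 (M a240 (L l469 (F (L l88 (T t3836 (L l265 (L l296 (T t131 (K a95 (M a175 (F (L l88 (T t3836 (L l265 (L l296 (T t131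 N))))))) (K a175 (M a95 (L l180 (F (L l88 (L l459 (T t3849 (L l265 (L l296 (T t131 (K a160 (M a170 (F (L l296 (T t3119 (L l175 (L l265 (L l470 (T t3850 N)))))))) (K a170 (Fr a160 a80 l448 (V t3851)) N))))))))))) N)))))))))) (K a95 (M a175 (L l483 (F (T t129 (L l137 (L l265 (T t130 (L l265 (L l296 (T t131 (K a240 (M a165 (L l266 (F (T t129 (L l7 (L l480 (T t3826 (K a245 (M a250 (F (T t129 (L l259 (L l265 (L l465 (L l471 (T t3847 N)))))))) (K a250 (Fr a245 a5 l455 (V t3848)) N))))))))) (K a165 (M a240 (F (L l88 (T t3836 (L l265 (L l296 (T t131 N))))))) N)))))))))))) (K a175 (M a95 (L l483 (F (T t129 (L l265 (T t130 (L l265 (L l296 (T t131 (K a240 (M a165 (L l266 (F (T t129 (L l92 (L l179 (L l265 (L l481 (T t3825 (K a245 (M a250 (F (T t129 (L l259 (L l265 (T t130 (L l259 (L l265 (L l275 (L l296 (T t131 N))))))))))) (K a250 (Fr a245 a5 l455 (V t3841)) N))))))))))) (K a165 (M a240 (L l180 (F (L l88 (L l459 (T t3849 (L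 l265 (L l296 (T t131 (K a160 (M a170 (F (L l296 (T t3119 (L l175 (L l265 (L l470 (T t3850 N)))))))) (K a170 (Fr a160 a80 l448 (V t3851)) N))))))))))) N))))))))))) N)))))))))))))) (K a240 (M a165 (F (L l130 (T t89 (L l266 (T t2015 (L l75 (L l266 (L l268 (L l469 (T t3852 (L l75 (L l266 (L l268 (L l339 (L l462 (T t3853 (L l130 (L l354 (T t3854 (K a21 (M a81 (F (L l3 (L l47 (T t3855 (L l130 (L l462 (T t3856 N)))))))) (K a213 (Fr a170 a255 l476 (Fr a42 a21 l68 (Fr a106 a234 l390 (Fr a192 a149 l519 (V t581))))) N)))))))))))))))))))))) (K a165 (M a240 (F (L l469 (T t52 (L l75 (L l180 (L l199 (L l462 (T t933 (L l130 (L l227 (L l375 (L l411 (T t3857 (L l75 (L l130 (L l180 (L l227 (L l462 (T t386 (L l151 (L l199 (L l339 (T t3858 N)))))))))))))))))))))))) N)))))))))))))))))))))))⟩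
def e0_63__90_9 : Ent 4 := ⟨[a0, a63], [a90, a16], (M a12 (F (T t153 (L l18 (T t122 (L l10 (T t151 (L l18 (T t152 (K a4 (M a60 (F (T t43 (L l480 (L l483 (T t398 (L l10 (T t448 N)))))))) (K a8 (M a60 (F (T t570 (L l52 (L l56 (T t43 (L l10 (L l52 (L l56 (T t448 N)))))))))) (K a21 (M a149 (L l18 (F (T t958 (L l130 (T t648 (L l50 (T t649 (K a26 (M a31 (L l354 (F (T t958 (L l47 (L l50 (L l57 (L l465 (T t3859 (K a154 (M a218 (L l368 (F (T t650 (L l47 (T t3860 (K a85 (M a223 (L l94 (F (T t650 (L l47 (L l455 (T t3860 (K a80 (Fr a95 a159 l361 (V t958)) (K a95 (M a80 (F (T t958 (L l89 (T t2526 N))))) N))))))))) (K a223 (M a85 (F (T t3183 (L l14 (L l362 (T t1369 N)))))) N)))))))) (K a218 (M a154 (F (T t958 (L l246 (L l340 (T t3861 N)))))) N))))))))))) (K a31 (M a26 (F (T t958 (L l130 (T t648 (L l50 (T t649 N))))))) N)))))))))) (K a25 (M a192 (F (T t449 (L l15 (L l375 (T t450 (L l375 (T t21 N)))))))) (K a29 (M a192 (F (T t449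 (L l371 (L l375 (T t21 (L l130 (T t160 N)))))))) (K a38 (M a192 (F (T t836 (L l375 (T t450 (L l375 (T t21 N))))))) (K a42 (M a192 (F (T t449 (L l375 (T t450 (L l56 (L l375 (T t157 N)))))))) (K a46 (M a192 (F (T t449 (L l375 (T t21 (L l26 (L l130 (L l408 (T t160 N))))))))) (K a51 (M a192 (F (T t1725 (L l375 (L l415 (T t450 (L l375 (L l439 (T t21 N))))))))) N))))))))))))))))))⟩
def e0_63__90_10 : Ent 4 := ⟨[a0, a63], [a90, a17], (M a60 (F (T t43 (L l15 (T t67 (L l15 (T t68 (L l41 (T t69 (K a20 (M a48 (F (T t64 (L l11 (L l15 (L l462 (L l483 (T t1 (L l11 (L l15 (T t235 N))))))))))) (K a40 (M a48 (F (T t64 (L l15 (L l462 (L l483 (T t1 (L l15 (L l52 (T t235 N)))))))))) (K a21 (M a192 (L l15 (F (T t72 (L l347 (L l375 (T t73 (L l347 (L l375 (T t74 (K a25 (M a29 (F (T t1333 (L l130 (L l341 (T t2409 N)))))) (K a29 (M a25 (F (T t77 (L l347 (L l371 (L l375 (T t73 (L l11 (L l130 (T t78 N)))))))))) N)))))))))))) (K a41 (M a192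 (F (T t79 (L l15 (L l65 (L l375 (T t35 (L l375 (T t73 N))))))))) (K a61 (M a192 (F (T t72 (L l15 (L l65 (L l375 (L l515 (T t35 (L l130 (T t80 N)))))))))) (K a22 (M a192 (F (T t72 (L l375 (T t21 (L l375 (T t73 N))))))) (K a42 (M a192 (F (T t77 (L l375 (T t73 (L l22 (L l375 (T t74 N)))))))) (K a62 (M a192 (F (T t72 (L l15 (L l375 (T t35 (L l66 (L l130 (L l516 (T t80 N)))))))))) (K a3 (M a192 (F (T t2658 (L l15 (L l375 (L l475 (T t35 (L l307 (L l375 (T t73 N)))))))))) N))))))))))))))))))⟩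
def e0_63__90_11 : Ent 4 := ⟨[a0, a63], [a90, a18], (M a12 (F (T t152 (L l42 (T t122 (L l10 (T t151 (T t153 (K a4 (M a60 (F (T t570 (L l45 (L l46 (L l50 (T t67 (L l10 (T t448 N))))))))) (K a8 (M a60 (F (T t116 (L l480 (L l483 (T t398 (L l10 (L l52 (L l56 (T t448 N)))))))))) (K a21 (M a192 (F (T t836 (L l15 (L l347 (L l375 (T t450 (L l15 (L l347 (L l375 (T t157 N))))))))))) (K a25 (M a192 (F (T t449 (L l15 (L l375 (T t450 (L l375 (T t21 N)))))))) (K a29 (M a192 (F (T t449 (L l371 (L l375 (T t21 (L l130 (T t160 N)))))))) (K a38 (M a192 (F (T t156 (L l375 (T t450 (L l375 (T t21 N))))))) (K a42 (M a192 (F (T t449 (L l375 (T t450 (L l56 (L l375 (T t157 N)))))))) (K a46 (M a192 (F (T t449 (L l375 (T t21 (L l26 (L l130 (L l408 (T t160 N))))))))) (K a51 (M a192 (F (T t1725 (L l375 (L l415 (T t450 (L l375 (L l439 (T t21 N))))))))) N)))))))))))))))))⟩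
def e0_63__90_12 : Ent 4 := ⟨[a0, a63], [a90, a19], (M a12 (F (T t150 (L l43 (T t122 (L l10 (L l43 (T t151 (L l43 (T t152 (L l43 (T t153 (K a4 (M a60 (F (T t570 (L l43 (L l46 (L l50 (T t67 (L l46 (L l50 (T t1096 N)))))))))) (K a8 (M a60 (F (T t570 (L l43 (T t67 (T t1096 N)))))) (K a21 (M a192 (F (T t836 (L l15 (L l347 (L l375 (T t450 (L l15 (L l347 (L l375 (T t157 N))))))))))) (K a25 (M a28 (F (L l10 (T t2735 (L l17 (L l375 (L l483 (T t2481 (L l12 (L l56 (L l354 (L l372 (T t2482 N))))))))))))) (K a29 (M a192 (F (T t449 (L l371 (L l375 (T t21 (L l130 (T t160 N)))))))) (K a38 (M a192 (F (T t156 (L l375 (T t450 (L l375 (T t21 N))))))) (K a42 (M a192 (F (T t449 (L l375 (T t450 (L l56 (L l375 (T t157 N)))))))) (K a46 (M a192 (F (T t449 (L l375 (T t21 (L l26 (L l130 (L l408 (T t160 N))))))))) (K a51 (M a3 (F (T t1341 (L l73 (L l483 (T t761 (L l39 (T t758 N)))))))) N)))))))))))))))))))))⟩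
def e0_63__90_13 : Ent 4 := ⟨[a0, a63], [a90, a22], (M a85 (F (L l66 (T t88 (L l11 (T t52 (L l66 (L l130 (T t89 (L l462 (T t90 (K a64 (M a48 (F (T t99 (L l66 (L l483 (T t2 (L l462 (L l483 (T t50 N))))))))) (K a192 (M a48 (F (L l151 (T t509 (L l66 (L l339 (L l483 (T t2 (L l268 (L l462 (L l483 (T t50 N)))))))))))) (K a21 (M a204 (L l11 (F (T t1684 (L l462 (T t1575 (T t1691 (K a20 (M a23 (F (T t3862 (L l462 (T t1744 N))))) (K a23 (M a20 (F (T t1684 (L l65 (L l349 (T t2160 N)))))) N))))))))) (K a149 (M a31 (F (L l66 (T t2084 (L l220 (L l462 (T t2085 (L l16 (L l66 (L l354 (T t3863 (L l11 (L l51 (L l483 (T t3864 N))))))))))))))) (K a213 (Fr a170 a255 l476 (Fr a42 a21 l68 (Fr a106 a234 l390 (Fr a192 a149 l519 (V t581))))) (K a42 (M a62 (F (L l22 (T t1695 (L l390 (L l462 (T t1694 (L l22 (T t3620 (L l11 (L l390 (L l462 (T t3621 N))))))))))))) (K a106 (M a48 (L l130 (F (T t99 (L l11 (L l411 (L l483 (T t3 (L l390 (L l462 (L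 l483 (T t50 (K a74 (M a122 (F (T t2479 (L l66 (L l390 (T t568 N)))))) (K a122 (M a74 (F (T t1699 (L l11 (L l411 (L l483 (T t3 (L l66 (L l114 (L l390 (L l426 (L l498 (T t51 N))))))))))))) N)))))))))))))) (K a170 (M a4 (L l462 (F (L l464 (T t130 (L l66 (L l390 (T t131 (L l66 (L l390 (L l464 (T t519 (L l464 (T t938 (K a10 (M a250 (F (L l2 (L l464 (T t130 (L l54 (L l66 (L l390 (T t131 (L l2 (L l54 (L l66 (L l390 (L l464 (T t519 (L l2 (L l464 (T t938 N)))))))))))))))))) (K a250 (M a10 (F (L l464 (T t130 (L l11 (L l426 (T t2561 N))))))) N)))))))))))))))) (K a255 (M a4 (F (L l66 (T t129 (L l265 (T t130 (L l66 (L l265 (L l296 (T t131 N)))))))))) N))))))))))))))))))))⟩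
def e0_63__90_14 : Ent 4 := ⟨[a0, a63], [a90, a23], (M a12 (F (T t151 (L l11 (T t122 (L l11 (T t152 (L l49 (T t153 (K a4 (M a60 (F (T t423 (L l11 (L l50 (T t68 (L l11 (L l50 (T t2410 N))))))))) (K a8 (M a60 (F (L l11 (T t68 (L l480 (L l483 (T t398 (L l11 (T t2410 N))))))))) (K a21 (M a192 (L l11 (F (T t156 (L l15 (L l347 (L l351 (L l375 (T t450 (L l15 (L l347 (L l351 (L l375 (T t157 (K a20 (M a22 (F (T t156 (L l15 (L l347 (L l351 (L l375 (T t450 (L l46 (L l50 (L l130 (T t681 N)))))))))))) (K a22 (M a20 (F (T t156 (L l15 (L l65 (L l480 (L l483 (T t2411 N)))))))) N)))))))))))))))) (K a25 (M a192 (F (T t449 (L l15 (L l351 (L l375 (T t450 (L l351 (L l375 (T t21 N)))))))))) (K a29 (M a192 (F (T t449 (L l351 (L l371 (L l375 (T t21 (L l130 (T t160 N))))))))) (K a38 (M a192 (F (T t156 (L l351 (L l375 (T t450 (L l351 (L l375 (T t21 N))))))))) (K a42 (M a192 (F (T t449 (L l351 (L l375 (T t450 (L l56 (L l351 (L l375 (T t157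 N)))))))))) (K a46 (M a192 (F (T t449 (L l351 (L l375 (T t21 (L l26 (L l130 (L l408 (T t160 N)))))))))) (K a51 (M a192 (F (T t1725 (L l351 (L l375 (L l415 (T t450 (L l351 (L l375 (L l439 (T t21 N))))))))))) N))))))))))))))))))⟩
def e0_63__90_15 : Ent 4 := ⟨[a0, a63], [a90, a26], (M a12 (L l354 (F (L l18 (T t122 (L l54 (T t151 (L l18 (T t152 (L l54 (T t153 (K a4 (M a149 (L l354 (F (T t958 (L l54 (T t5 (L l54 (T t960 (K a154 (M a218 (F (T t650 (L l54 (L l206 (L l462 (T t424 (L l54 (T t960 N))))))))) (K a218 (M a154 (F (T t958 (L l54 (L l314 (T t3865 N)))))) N)))))))))) (K a8 (M a149 (L l354 (F (T t650 (L l54 (L l56 (T t5 (L l54 (L l56 (T t960 (K a154 (M a218 (F (T t650 (L l54 (L l56 (L l130 (L l498 (T t1245 (L l54 (L l56 (T t960 N))))))))))) (K a218 (M a154 (F (T t991 (L l54 (L l56 (T t3865 N)))))) N)))))))))))) (K a21 (M a149 (L l18 (L l354 (F (T t958 (L l130 (T t648 (L l50 (T t649 (K a16 (M a31 (L l354 (F (T t958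 (L l47 (L l50 (L l57 (L l465 (T t3859 (K a154 (M a218 (L l368 (F (T t650 (L l47 (T t3860 (K a85 (M a223 (L l94 (F (T t650 (L l47 (L l455 (T t3860 (K a80 (Fr a95 a159 l361 (V t958)) (K a95 (M a80 (F (T t958 (L l89 (T t2526 N))))) N))))))))) (K a223 (M a85 (F (T t3183 (L l14 (L l362 (T t1369 N)))))) N)))))))) (K a218 (M a154 (F (T t958 (L l246 (L l340 (T t3861 N)))))) N))))))))))) (K a154 (M a218 (L l18 (F (T t650 (L l50 (T t649 (L l130 (L l498 (T t648 (K a16 (M a31 (L l368 (F (T t650 (L l47 (T t3860 (K a85 (M a223 (L l94 (F (T t650 (L l47 (L l455 (T t3860 (K a80 (Fr a95 a159 l361 (V t958)) (K a95 (M a80 (F (T t958 (L l89 (T t2526 N))))) N))))))))) (K a223 (M a85 (F (T t3183 (L l14 (L l362 (T t1369 N)))))) N)))))))) (K a31 (M a16 (F (T t958 (L l50 (L l57 (L l500 (T t652 N))))))) N))))))))))) (K a218 (M a154 (L l18 (F (T t958 (T t3866 (K a16 (M a31 (F (T t958 (L l246 (L l340 (T t3861 N)))))) (K a31 (M a16 (F (T t958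 (L l246 (L l303 (L l361 (T t3867 N))))))) N))))))) (K a31 (M a16 (L l354 (F (T t958 (L l50 (L l57 (T t652 (K a154 (M a218 (F (T t958 (L l50 (L l57 (L l500 (T t652 N))))))) (K a218 (M a154 (F (T t958 (L l246 (L l303 (L l361 (T t3867 N))))))) N))))))))) N))))))))))))) (K a25 (M a89 (L l12 (L l354 (F (T t870 (T t863 (T t864 (K a24 (M a27 (L l354 (F (T t863 (L l130 (T t3450 (T t3372 (K a154 (M a218 (F (T t863 (L l130 (L l498 (T t3450 (T t3372 N))))))) (K a218 (M a154 (F (T t870 (T t3868 N)))) N))))))))) (K a154 (M a218 (L l12 (F (T t863 (L l130 (L l498 (T t3450 (T t3372 (K a24 (M a27 (F (T t863 (L l130 (L l498 (T t3450 (T t3372 N))))))) (K a27 (M a24 (L l357 (F (T t870 (L l57 (L l75 (L l500 (L l512 (T t2412 (K a216 (M a153 (F (T t870 (L l19 (L l57 (L l500 (T t3869 N))))))) (K a153 (M a216 (L l164 (F (T t870 (L l57 (L l75 (L l500 (L l512 (T t3870 (K a152 (M a155 (F (T t870 (L l57 (L l75 (L l496 (L l500 (L l508 (L l512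 (T t2412 N)))))))))) (K a155 (Fr a152 a88 l352 (V t869)) N))))))))))) N))))))))))) N)))))))))) (K a218 (M a154 (L l12 (F (T t2786 (L l19 (L l57 (L l240 (T t3871 (K a24 (M a27 (F (T t870 (T t3868 N)))) (K a27 (Fr a24 a219 l356 (V t3872)) N)))))))))) (K a27 (M a24 (L l354 (L l357 (F (T t870 (L l57 (L l75 (T t2412 (K a216 (M a153 (L l354 (F (T t870 (L l57 (T t3873 (K a154 (M a218 (F (T t870 (L l19 (L l57 (L l500 (T t3869 N))))))) (K a218 (Fr a154 a219 l356 (M a217 (L l355 (F (L l301 (T t3874 (L l283 (T t3372 (K a91 (Fr a155 a152 l164 (V t3872)) (K a155 (M a91 (F (L l301 (T t3874 (L l283 (T t864 N)))))) N)))))))))) N)))))))) (K a153 (M a216 (L l354 (F (T t870 (L l57 (L l75 (T t3870 (K a154 (M a218 (L l164 (F (T t870 (L l57 (L l75 (L l500 (L l512 (T t3870 (K a152 (M a155 (F (T t870 (L l57 (L l75 (L l496 (L l500 (L l508 (L l512 (T t2412 N)))))))))) (K a155 (Fr a152 a88 l352 (V t869)) N))))))))))) (K a218 (Fr a154 a219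 l356 (V t3872)) N))))))))) (K a154 (M a218 (L l357 (F (T t870 (L l57 (L l75 (L l500 (L l512 (T t2412 (K a216 (M a153 (F (T t870 (L l19 (L l57 (L l500 (T t3869 N))))))) (K a153 (M a216 (L l164 (F (T t870 (L l57 (L l75 (L l500 (L l512 (T t3870 (K a152 (M a155 (F (T t870 (L l57 (L l75 (L l496 (L l500 (L l508 (L l512 (T t2412 N)))))))))) (K a155 (Fr a152 a88 l352 (V t869)) N))))))))))) N))))))))))) (K a218 (Fr a154 a219 l356 (V t3872)) N)))))))))))) N))))))))))) (K a29 (M a192 (L l354 (F (T t449 (L l371 (L l375 (T t21 (L l54 (L l130 (T t160 (K a154 (M a218 (F (T t468 (L l15 (L l18 (L l170 (L l371 (L l375 (T t35 (L l15 (L l18 (L l170 (L l371 (L l375 (T t776 N))))))))))))))) (K a218 (M a154 (F (T t468 (L l130 (L l303 (T t3875 N)))))) N)))))))))))) (K a38 (M a166 (L l72 (L l354 (F (T t2542 (T t2543 (T t2541 (K a50 (M a14 (L l354 (F (T t2470 (L l42 (T t727 (K a154 (M a218 (L l510 (F (T t2543 (L l36 (T t726 (K a102 (M a206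 (L l148 (F (T t2529 (L l36 (T t726 (K a114 (Fr a78 a142 l324 (V t726)) (K a78 (M a114 (F (T t2542 (L l42 (T t727 N))))) N)))))))) (K a206 (M a102 (F (T t2470 (L l42 (L l330 (T t727 N)))))) N)))))))) (K a218 (M a154 (F (T t2470 (L l42 (T t727 N))))) N)))))))) (K a154 (M a218 (L l72 (F (T t2543 (L l26 (L l130 (L l498 (T t3876 (T t3877 (K a50 (M a14 (L l510 (F (T t2543 (L l36 (T t726 (K a102 (M a206 (L l148 (F (T t2529 (L l36 (T t726 (K a114 (Fr a78 a142 l324 (V t726)) (K a78 (M a114 (F (T t2542 (L l42 (T t727 N))))) N)))))))) (K a206 (M a102 (F (T t2470 (L l42 (L l330 (T t727 N)))))) N)))))))) (K a14 (M a50 (F (T t2470 (L l206 (L l462 (T t2508 (T t3877 N))))))) N))))))))))) (K a218 (M a154 (L l72 (F (T t2542 (L l246 (T t3878 (K a50 (M a14 (F (T t2470 (L l42 (T t727 N))))) (K a14 (M a50 (F (T t2470 (L l18 (T t3879 N))))) N)))))))) (K a14 (M a50 (L l354 (F (T t2529 (L l26 (L l60 (L l130 (T t3876 (T t3877 (K a154 (M a218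 (F (T t2470 (L l206 (L l462 (T t2508 (T t3877 N))))))) (K a218 (M a154 (F (T t2470 (L l18 (T t3879 N))))) N))))))))))) N))))))))))) (K a42 (M a170 (L l54 (L l354 (F (T t2497 (L l26 (T t3880 (L l94 (T t2498 (K a10 (M a58 (L l354 (F (T t2501 (L l18 (L l318 (T t3881 (L l26 (T t3880 (K a154 (M a218 (F (T t2501 (L l28 (T t2417 (L l94 (L l368 (T t2498 N)))))))) (K a218 (M a154 (F (T t2497 (L l282 (L l303 (L l318 (T t3882 N))))))) N))))))))))) (K a154 (M a218 (L l54 (F (T t2501 (L l94 (L l368 (T t2498 (L l26 (T t3880 (K a10 (M a58 (F (T t2501 (L l28 (T t2417 (L l94 (L l368 (T t2498 N)))))))) (K a58 (M a10 (L l498 (F (T t2501 (L l26 (L l28 (T t1374 (K a202 (M a106 (F (T t3201 (L l56 (L l72 (L l75 (L l480 (L l483 (T t2913 N))))))))) (K a106 (M a202 (L l130 (F (T t2497 (L l18 (L l375 (T t2149 (K a74 (M a122 (F (T t2497 (L l18 (L l375 (T t2149 N)))))) (K a122 (Fr a74 a138 l318 (V t3685)) N))))))))) N))))))))) N))))))))))) (K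 a218 (M a154 (L l54 (F (T t2497 (T t3883 (K a10 (M a58 (F (T t2497 (L l282 (L l303 (L l318 (T t3882 N))))))) (K a58 (M a10 (F (T t2497 (L l18 (L l375 (T t2149 N)))))) N))))))) (K a58 (M a10 (L l354 (F (T t2501 (L l26 (L l28 (T t1374 (K a154 (M a218 (L l498 (F (T t2501 (L l26 (L l28 (T t1374 (K a202 (M a106 (F (T t3201 (L l56 (L l72 (L l75 (L l480 (L l483 (T t2913 N))))))))) (K a106 (M a202 (L l130 (F (T t2497 (L l18 (L l375 (T t2149 (K a74 (M a122 (F (T t2497 (L l18 (L l375 (T t2149 N)))))) (K a122 (Fr a74 a138 l318 (V t3685)) N))))))))) N))))))))) (K a218 (M a154 (F (T t2497 (L l18 (L l375 (T t2149 N)))))) N))))))))) N))))))))))))) (K a46 (M a192 (L l354 (F (T t449 (L l375 (T t21 (L l26 (L l54 (L l130 (L l408 (T t160 (K a154 (M a218 (F (T t468 (L l18 (L l170 (L l375 (T t35 (L l18 (L l170 (L l375 (T t776 N))))))))))) (K a218 (M a154 (F (T t468 (L l130 (L l303 (L l408 (T t3875 N))))))) N))))))))))))) (K a51 (M a192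 (L l354 (F (T t1725 (L l375 (L l415 (T t450 (L l375 (L l439 (T t21 (K a154 (M a218 (F (T t159 (L l18 (L l170 (L l375 (L l439 (T t35 (L l130 (L l415 (L l498 (T t543 N)))))))))))) (K a218 (M a154 (F (T t2119 (L l130 (L l303 (L l511 (T t3875 N))))))) N)))))))))))) (K a154 (M a218 (F (L l18 (T t122 (L l54 (T t151 (L l18 (T t152 (L l54 (T t153 (K a4 (M a60 (F (T t570 (L l54 (T t69 (L l18 (L l46 (L l50 (T t1096 N))))))))) (K a8 (M a60 (F (T t570 (L l54 (L l56 (T t69 (L l18 (T t1096 N)))))))) (K a21 (M a149 (L l18 (F (T t650 (L l50 (T t649 (L l130 (L l498 (T t648 (K a16 (M a31 (L l368 (F (T t650 (L l47 (T t3860 (K a85 (M a223 (L l94 (F (T t650 (L l47 (L l455 (T t3860 (K a80 (Fr a95 a159 l361 (V t958)) (K a95 (M a80 (F (T t958 (L l89 (T t2526 N))))) N))))))))) (K a223 (M a85 (F (T t3183 (L l14 (L l362 (T t1369 N)))))) N)))))))) (K a31 (M a16 (F (T t958 (L l50 (L l57 (L l500 (T t652 N))))))) N))))))))))) (K a25 (M a89 (L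 l12 (F (T t863 (L l130 (L l498 (T t3450 (T t3372 (K a24 (M a27 (F (T t863 (L l130 (L l498 (T t3450 (T t3372 N))))))) (K a27 (M a24 (L l357 (F (T t870 (L l57 (L l75 (L l500 (L l512 (T t2412 (K a216 (M a153 (F (T t870 (L l19 (L l57 (L l500 (T t3869 N))))))) (K a153 (M a216 (L l164 (F (T t870 (L l57 (L l75 (L l500 (L l512 (T t3870 (K a152 (M a155 (F (T t870 (L l57 (L l75 (L l496 (L l500 (L l508 (L l512 (T t2412 N)))))))))) (K a155 (Fr a152 a88 l352 (V t869)) N))))))))))) N))))))))))) N)))))))))) (K a29 (M a192 (F (T t468 (L l15 (L l18 (L l170 (L l371 (L l375 (T t35 (L l15 (L l18 (L l170 (L l371 (L l375 (T t776 N))))))))))))))) (K a38 (M a166 (L l72 (F (T t2543 (L l26 (L l130 (L l498 (T t3876 (T t3877 (K a50 (M a14 (L l510 (F (T t2543 (L l36 (T t726 (K a102 (M a206 (L l148 (F (T t2529 (L l36 (T t726 (K a114 (Fr a78 a142 l324 (V t726)) (K a78 (M a114 (F (T t2542 (L l42 (T t727 N))))) N)))))))) (K a206 (M a102 (F (T t2470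 (L l42 (L l330 (T t727 N)))))) N)))))))) (K a14 (M a50 (F (T t2470 (L l206 (L l462 (T t2508 (T t3877 N))))))) N))))))))))) (K a42 (M a106 (L l54 (F (T t2414 (L l56 (T t2415 (L l170 (L l375 (T t2305 (K a10 (M a58 (L l462 (F (T t2414 (L l28 (T t2417 (K a170 (M a250 (L l206 (F (T t2304 (L l57 (L l500 (T t3884 (K a138 (Fr a186 a122 l426 (V t3885)) (K a186 (M a138 (F (T t2304 (L l218 (T t3886 N))))) N))))))))) (K a250 (M a170 (F (T t3207 (L l28 (T t2417 N))))) N)))))))) (K a58 (M a10 (F (T t2304 (L l57 (L l66 (L l465 (T t2421 N))))))) N))))))))))) (K a46 (M a192 (F (T t468 (L l18 (L l170 (L l375 (T t35 (L l18 (L l170 (L l375 (T t776 N))))))))))) (K a51 (M a192 (F (T t159 (L l18 (L l170 (L l375 (L l439 (T t35 (L l130 (L l415 (L l498 (T t543 N)))))))))))) N))))))))))))))))))) (K a218 (M a154 (F (L l18 (T t122 (L l54 (T t151 (L l18 (T t152 (L l54 (T t153 (K a4 (M a16 (F (L l246 (L l462 (T t3887 (L l12 (L l303 (T t3888 N))))))))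 (K a8 (M a48 (F (L l282 (T t473 (L l12 (L l18 (L l52 (T t146 N)))))))) (K a21 (M a16 (F (T t871 (L l246 (L l303 (T t3867 (L l246 (L l462 (T t3889 N))))))))) (K a25 (M a24 (F (L l19 (T t3890 (L l240 (L l480 (T t3891 N))))))) (K a29 (M a192 (F (T t468 (L l130 (L l303 (T t3875 N)))))) (K a38 (M a166 (L l72 (F (T t2542 (L l246 (T t3878 (K a50 (M a14 (F (T t2470 (L l42 (T t727 N))))) (K a14 (M a50 (F (T t2470 (L l18 (T t3879 N))))) N)))))))) (K a42 (M a58 (F (L l282 (T t3892 (L l57 (T t3884 (L l282 (L l375 (T t3893 N))))))))) (K a46 (M a192 (F (T t468 (L l130 (L l303 (L l408 (T t3875 N))))))) (K a51 (M a192 (F (T t2119 (L l130 (L l303 (L l511 (T t3875 N))))))) N))))))))))))))))))) N))))))))))))))))))))))⟩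
def e0_63__90_16 : Ent 4 := ⟨[a0, a63], [a90, a27], (M a60 (L l357 (F (T t68 (L l55 (T t67 (L l17 (T t43 (T t69 (K a20 (M a85 (L l357 (F (T t168 (L l462 (T t114 (T t1344 (K a216 (M a153 (F (T t88 (T t3894 N)))) (K a153 (M a216 (F (T t168 (L l208 (L l462 (T t114 (T t1344 N))))))) N))))))))) (K a40 (M a85 (L l357 (F (T t52 (L l392 (L l462 (T t114 (L l22 (T t1344 (K a216 (M a153 (F (T t52 (T t3894 N)))) (K a153 (M a216 (F (T t52 (L l208 (L l392 (L l462 (T t114 (L l22 (T t1344 N))))))))) N))))))))))) (K a21 (M a192 (L l357 (F (T t72 (L l347 (L l375 (T t73 (L l347 (L l375 (T t74 (K a216 (M a153 (F (T t77 (L l55 (L l73 (L l347 (L l375 (T t3895 N)))))))) (K a153 (M a216 (F (T t1333 (L l130 (L l501 (T t75 (L l167 (L l347 (L l375 (T t74 N)))))))))) N)))))))))))) (K a41 (M a192 (L l357 (F (T t79 (L l65 (L l375 (T t35 (L l375 (T t73 (K a216 (M a153 (F (T t77 (L l55 (L l73 (L l375 (T t3895 N))))))) (K a153 (M a216 (F (T t1333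 (L l65 (L l167 (L l375 (T t35 (L l130 (L l501 (T t75 N)))))))))) N))))))))))) (K a61 (M a192 (L l357 (F (T t72 (L l65 (L l375 (L l515 (T t35 (L l130 (T t80 (K a216 (M a153 (F (T t77 (L l55 (L l73 (L l375 (L l515 (T t3895 N)))))))) (K a153 (M a216 (F (T t1333 (L l65 (L l167 (L l375 (L l515 (T t35 (L l65 (L l167 (L l375 (L l515 (T t2549 N))))))))))))) N)))))))))))) (K a22 (M a192 (L l357 (F (T t72 (L l375 (T t21 (L l375 (T t73 (K a216 (M a153 (F (T t77 (L l55 (L l73 (L l375 (T t3895 N))))))) (K a153 (M a216 (F (T t1333 (L l130 (L l501 (T t75 (L l11 (L l167 (L l375 (T t35 N)))))))))) N)))))))))) (K a42 (M a192 (L l357 (F (T t77 (L l375 (T t73 (L l22 (L l375 (T t74 (K a216 (M a153 (F (T t77 (L l55 (L l56 (L l73 (L l375 (T t3895 N)))))))) (K a153 (M a216 (F (T t1333 (L l130 (L l390 (L l501 (T t75 (L l22 (L l167 (L l375 (T t74 N))))))))))) N))))))))))) (K a62 (M a192 (L l357 (F (T t72 (L l375 (T t35 (L l66 (L l130 (L l516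 (T t80 (K a216 (M a153 (F (T t77 (L l55 (L l73 (L l375 (T t3895 N))))))) (K a153 (M a216 (F (T t1333 (L l167 (L l375 (T t35 (L l167 (L l375 (T t2549 N))))))))) N)))))))))))) (K a3 (M a192 (L l357 (F (T t2658 (L l375 (L l475 (T t35 (L l307 (L l375 (T t73 (K a216 (M a153 (F (T t254 (L l43 (L l55 (L l73 (L l375 (T t3895 N)))))))) (K a153 (M a216 (F (T t1334 (L l167 (L l375 (L l475 (T t35 (L l130 (L l307 (L l501 (T t75 N))))))))))) N)))))))))))) (K a216 (M a153 (F (T t68 (L l55 (T t67 (L l17 (T t43 (T t69 (K a20 (M a204 (F (T t3896 (L l148 (T t3897 N))))) (K a40 (M a204 (F (T t3896 (L l148 (T t3897 N))))) (K a21 (M a192 (F (T t77 (L l55 (L l73 (L l347 (L l375 (T t3895 N)))))))) (K a41 (M a192 (F (T t77 (L l55 (L l73 (L l375 (T t3895 N))))))) (K a61 (M a192 (F (T t77 (L l55 (L l73 (L l375 (L l515 (T t3895 N)))))))) (K a22 (M a192 (F (T t77 (L l55 (L l73 (L l375 (T t3895 N))))))) (K a42 (M a192 (F (T t77 (L l55 (L l56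 (L l73 (L l375 (T t3895 N)))))))) (K a62 (M a192 (F (T t77 (L l55 (L l73 (L l375 (T t3895 N))))))) (K a3 (M a192 (F (T t254 (L l43 (L l55 (L l73 (L l375 (T t3895 N)))))))) N))))))))))))))))) (K a153 (M a216 (F (T t68 (L l55 (T t67 (L l17 (T t43 (T t69 (K a20 (M a48 (F (T t132 (L l509 (T t138 (L l11 (T t235 N))))))) (K a40 (M a48 (F (T t236 (L l17 (L l22 (L l24 (L l375 (T t610 (L l52 (T t235 N)))))))))) (K a21 (M a48 (F (L l50 (T t277 (L l88 (L l369 (T t3898 N))))))) (K a41 (M a16 (F (L l65 (T t3899 (L l22 (L l88 (L l369 (T t3900 N)))))))) (K a61 (M a192 (F (T t1333 (L l65 (L l167 (L l375 (L l515 (T t35 (L l65 (L l167 (L l375 (L l515 (T t2549 N))))))))))))) (K a22 (M a16 (F (L l66 (T t112 (L l19 (L l88 (L l369 (T t3900 N)))))))) (K a42 (M a48 (F (T t236 (L l22 (L l28 (L l88 (L l369 (T t3898 N)))))))) (K a62 (M a192 (F (T t1333 (L l167 (L l375 (T t35 (L l167 (L l375 (T t2549 N))))))))) (K a3 (M a192 (F (T t1334 (L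 l167 (L l375 (L l475 (T t35 (L l130 (L l307 (L l501 (T t75 N))))))))))) N))))))))))))))))) N))))))))))))))))))))⟩
def e0_63__90_17 : Ent 4 := ⟨[a0, a63], [a90, a31], (M a149 (F (T t5 (L l18 (T t175 (T t176 (L l130 (T t177 (K a192 (M a29 (F (T t956 (L l272 (T t641 (L l272 (L l296 (L l363 (T t957 N))))))))) (K a21 (M a12 (L l18 (F (T t958 (L l130 (T t648 (L l50 (T t649 (K a16 (M a26 (F (T t958 (L l130 (T t648 (L l50 (T t649 N))))))) (K a26 (M a16 (L l354 (F (T t958 (L l50 (L l57 (T t652 (K a154 (M a218 (F (T t958 (L l50 (L l57 (L l500 (T t652 N))))))) (K a218 (M a154 (F (T t958 (L l246 (L l303 (L l361 (T t3867 N))))))) N))))))))) N)))))))))) (K a85 (M a48 (L l94 (F (T t4 (L l18 (L l462 (L l483 (T t1 (L l130 (L l144 (L l151 (L l483 (T t13 (K a80 (M a95 (F (T t184 (L l18 (L l462 (L l483 (T t1 (L l18 (L l116 (L l130 (L l144 (L l340 (L l368 (T t3901 N)))))))))))))) (K a95 (M a80 (L l361 (F (T t4 (L l483 (T t3902 (L l18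 (L l462 (L l469 (L l483 (T t1 (K a159 (M a223 (F (L l483 (T t3902 (L l18 (T t3903 (L l462 (L l469 (T t942 N))))))))) (K a223 (M a159 (L l368 (F (T t3904 (L l18 (L l462 (L l469 (L l483 (T t1 (K a16 (Fr a154 a144 l170 (V t3905)) (K a154 (Fr a16 a32 l40 (V t3906)) N))))))))))) N))))))))))))) N))))))))))))))) (K a213 (Fr a106 a192 l519 (Fr a42 a21 l68 (Fr a170 a234 l390 (Fr a255 a85 l476 (V t582))))) (K a42 (M a48 (F (T t11 (L l18 (L l130 (L l390 (L l483 (T t1082 (L l18 (L l54 (T t14 N))))))))))) (K a106 (M a12 (L l130 (F (L l408 (T t649 (L l13 (L l18 (T t122 (L l390 (L l408 (T t960 (L l390 (T t961 (K a74 (M a122 (F (T t2478 (L l390 (L l408 (T t960 N)))))) (K a122 (M a74 (F (L l408 (T t649 (L l13 (L l18 (T t122 (L l390 (T t961 (L l390 (L l408 (T t960 N)))))))))))) N))))))))))))))) (K a170 (M a12 (L l462 (F (T t958 (L l13 (L l18 (L l402 (T t122 (L l130 (L l390 (T t648 (K a10 (M a250 (F (T t650 (L l13 (L l18 (L l402 (T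 t122 (L l130 (L l390 (T t648 N)))))))))) (K a250 (M a10 (F (T t958 (L l465 (L l483 (T t3907 N)))))) N))))))))))))) (K a191 (M a48 (F (T t4 (L l18 (L l462 (L l483 (T t1 (L l130 (L l151 (L l483 (T t13 N))))))))))) (K a255 (M a48 (F (L l296 (T t4 (L l18 (L l462 (L l469 (L l483 (T t1 (L l130 (L l151 (L l266 (L l483 (T t13 N)))))))))))))) N)))))))))))))))))⟩
def e0_63__90_18 : Ent 4 := ⟨[a0, a63], [a90, a32], (M a12 (F (T t152 (L l20 (T t122 (L l28 (T t151 (L l28 (T t153 (K a4 (M a60 (F (L l483 (T t680 (L l46 (L l50 (T t67 (L l24 (L l28 (T t448 N)))))))))) (K a8 (M a60 (F (T t68 (L l480 (L l483 (T t398 (L l24 (L l28 (L l52 (L l56 (T t448 N))))))))))) (K a21 (M a192 (F (T t836 (L l15 (L l347 (L l375 (T t450 (L l15 (L l347 (L l375 (T t157 N))))))))))) (K a25 (M a192 (F (T t449 (L l15 (L l375 (T t450 (L l375 (T t21 N)))))))) (K a29 (M a192 (F (T t449 (L l371 (L l375 (T t21 (L l28 (L l130 (T t160 N))))))))) (K a38 (M a192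 (F (T t156 (L l375 (T t450 (L l375 (T t21 N))))))) (K a42 (M a192 (L l28 (F (T t449 (L l375 (T t450 (L l56 (L l375 (T t157 (K a37 (M a47 (F (T t449 (L l24 (L l375 (T t3908 N)))))) (K a47 (M a37 (F (T t156 (L l375 (T t450 (L l130 (L l390 (L l411 (T t681 N))))))))) N))))))))))) (K a46 (M a192 (F (T t449 (L l375 (T t21 (L l26 (L l28 (L l130 (L l408 (T t160 N)))))))))) (K a51 (M a192 (F (T t1725 (L l375 (L l415 (T t450 (L l375 (L l439 (T t21 N))))))))) N))))))))))))))))))⟩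
def e0_63__90_19 : Ent 4 := ⟨[a0, a63], [a90, a33], (M a12 (F (T t152 (L l20 (T t122 (L l41 (T t151 (T t153 (K a4 (M a60 (F (T t570 (L l45 (L l46 (L l50 (T t67 (L l41 (T t448 N))))))))) (K a8 (M a60 (F (T t116 (L l480 (L l483 (T t398 (L l41 (L l52 (L l56 (T t448 N)))))))))) (K a21 (M a192 (F (T t836 (L l15 (L l347 (L l375 (T t450 (L l15 (L l347 (L l375 (T t157 N))))))))))) (K a25 (M a192 (F (T t449 (L l15 (L l375 (T t450 (L l375 (T t21 N)))))))) (K a29 (M a192 (F (T t449 (L l371 (L l375 (T t21 (L l130 (T t160 N)))))))) (K a38 (M a192 (F (T t156 (L l375 (T t450 (L l375 (T t21 N))))))) (K a42 (M a192 (F (T t449 (L l375 (T t450 (L l56 (L l375 (T t157 N)))))))) (K a46 (M a192 (F (T t449 (L l375 (T t21 (L l26 (L l130 (L l408 (T t160 N))))))))) (K a51 (M a192 (F (T t1725 (L l375 (L l415 (T t450 (L l375 (L l439 (T t21 N))))))))) N)))))))))))))))))⟩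
def e0_63__90_20 : Ent 4 := ⟨[a0, a63], [a90, a34], (M a60 (F (T t67 (L l26 (T t43 (L l42 (T t68 (L l26 (T t69 (K a20 (M a48 (F (T t70 (L l11 (L l462 (L l483 (T t1 (L l11 (L l42 (T t235 N)))))))))) (K a40 (M a48 (F (T t42 (L l462 (L l483 (T t1 (L l42 (L l52 (T t235 N))))))))) (K a21 (M a192 (F (T t72 (L l347 (L l375 (T t73 (L l347 (L l375 (T t74 N))))))))) (K a41 (M a192 (F (T t79 (L l65 (L l375 (T t35 (L l375 (T t73 N)))))))) (K a61 (M a192 (F (T t72 (L l65 (L l375 (L l515 (T t35 (L l26 (L l130 (T t80 N)))))))))) (K a22 (M a192 (F (T t72 (L l375 (T t21 (L l375 (T t73 N))))))) (K a42 (M a192 (L l26 (F (T t77 (L l375 (T t73 (L l22 (L l375 (T t74 (K a38 (M a46 (F (T t79 (L l375 (L l378 (T t3909 N)))))) (K a46 (M a38 (F (T t79 (L l375 (T t73 (L l130 (L l390 (L l408 (T t78 N))))))))) N))))))))))) (K a62 (M a192 (F (T t72 (L l375 (T t35 (L l26 (L l66 (L l130 (L l516 (T t80 N)))))))))) (K a3 (M a192 (F (T t2658 (L l375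 (L l475 (T t35 (L l307 (L l375 (T t73 N))))))))) N))))))))))))))))))⟩
def e0_63__90_21 : Ent 4 := ⟨[a0, a63], [a90, a35], (M a12 (F (T t1252 (L l20 (L l43 (T t122 (L l43 (T t151 (L l43 (T t152 (L l43 (T t153 (K a4 (M a60 (F (T t522 (L l480 (L l483 (T t398 (T t448 N))))))) (K a8 (M a60 (F (T t2568 (L l480 (L l483 (T t398 (L l52 (L l56 (T t448 N))))))))) (K a21 (M a192 (F (T t836 (L l15 (L l347 (L l375 (T t450 (L l15 (L l347 (L l375 (T t157 N))))))))))) (K a25 (M a192 (F (T t449 (L l15 (L l375 (T t450 (L l375 (T t21 N)))))))) (K a29 (M a192 (F (T t449 (L l371 (L l375 (T t21 (L l130 (T t160 N)))))))) (K a38 (M a44 (F (L l20 (T t3156 (L l27 (L l483 (T t3910 (L l21 (L l50 (T t3157 N)))))))))) (K a42 (M a192 (F (T t449 (L l375 (T t450 (L l56 (L l375 (T t157 N)))))))) (K a46 (M a192 (F (T t449 (L l375 (T t21 (L l26 (L l130 (L l408 (T t160 N))))))))) (K a51 (M a3 (F (T t630 (L l73 (L l483 (T t761 (L l27 (L l39 (T t758 N)))))))))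 N)))))))))))))))))))))⟩
def e0_63__90_22 : Ent 4 := ⟨[a0, a63], [a90, a37], (M a12 (F (L l47 (T t122 (L l28 (T t151 (L l47 (T t152 (L l28 (T t153 (K a4 (M a60 (F (L l28 (T t43 (L l71 (L l75 (L l483 (T t680 (L l28 (T t448 N)))))))))) (K a8 (M a60 (F (L l47 (T t67 (L l75 (L l480 (L l483 (T t398 (L l28 (L l52 (L l56 (T t448 N)))))))))))) (K a21 (M a192 (L l47 (F (T t836 (L l15 (L l347 (L l375 (T t450 (L l15 (L l347 (L l375 (T t157 (K a5 (M a53 (F (T t468 (L l130 (L l311 (T t613 N)))))) (K a53 (M a5 (F (T t156 (L l28 (L l462 (T t1107 N)))))) N)))))))))))))) (K a25 (M a192 (L l71 (F (T t449 (L l15 (L l375 (T t450 (L l375 (T t21 (K a49 (M a13 (F (T t836 (L l35 (L l480 (T t3911 N)))))) (K a13 (M a49 (F (T t836 (L l15 (L l47 (L l375 (T t35 (L l130 (T t543 N))))))))) N))))))))))) (K a29 (M a192 (F (T t449 (L l371 (L l375 (T t21 (L l28 (L l130 (T t160 N))))))))) (K a38 (M a192 (L l21 (F (T t836 (L l375 (T t450 (L l375 (T t21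 (K a36 (M a39 (F (T t468 (L l130 (T t543 (L l47 (L l50 (L l375 (T t35 N))))))))) (K a39 (M a36 (F (T t156 (L l130 (T t3912 N))))) N)))))))))) (K a42 (M a192 (L l28 (F (T t449 (L l375 (T t450 (L l56 (L l375 (T t157 (K a32 (M a47 (F (T t449 (L l24 (L l375 (T t3908 N)))))) (K a47 (M a32 (F (T t836 (L l47 (L l375 (T t1819 N)))))) N))))))))))) (K a46 (M a192 (F (T t449 (L l375 (T t21 (L l26 (L l28 (L l130 (L l408 (T t160 N)))))))))) (K a51 (M a192 (F (T t1725 (L l375 (L l415 (T t450 (L l375 (L l439 (T t21 N))))))))) N)))))))))))))))))))⟩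
def e0_63__90_23 : Ent 4 := ⟨[a0, a63], [a90, a38], (M a85 (F (L l26 (T t88 (L l50 (T t52 (L l26 (L l130 (T t89 (L l462 (T t90 (K a64 (M a48 (F (T t99 (L l26 (L l483 (T t2 (L l462 (L l483 (T t50 N))))))))) (K a192 (M a48 (F (L l151 (T t509 (L l26 (L l339 (L l483 (T t2 (L l268 (L l462 (L l483 (T t50 N)))))))))))) (K a21 (M a48 (L l50 (F (T t99 (L l462 (L l483 (T t50 (L l47 (T t100 (K a4 (M a55 (F (T t99 (L l46 (T t1743 N))))) (K a55 (M a4 (F (T t99 (L l15 (L l421 (T t130 N)))))) N))))))))))) (K a149 (M a31 (F (L l26 (T t2084 (L l220 (L l462 (T t2085 (L l26 (L l72 (L l354 (T t3863 (L l21 (L l50 (L l483 (T t3864 N))))))))))))))) (K a213 (Fr a170 a255 l476 (Fr a42 a21 l68 (Fr a106 a234 l390 (Fr a192 a149 l519 (V t581))))) (K a42 (M a46 (F (L l56 (T t1390 (L l390 (L l462 (T t1389 (L l56 (T t1388 (L l50 (L l390 (L l462 (T t3913 N))))))))))))) (K a106 (M a48 (L l130 (F (T t99 (L l50 (L l411 (L l483 (T t3 (L l390 (L l462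 (L l483 (T t50 (K a74 (M a122 (F (T t2479 (L l26 (L l390 (T t568 N)))))) (K a122 (M a74 (F (T t1699 (L l50 (L l411 (L l483 (T t3 (L l26 (L l114 (L l390 (L l426 (L l498 (T t51 N))))))))))))) N)))))))))))))) (K a170 (M a20 (L l462 (F (L l392 (T t2160 (L l26 (L l390 (T t2161 (L l26 (L l390 (L l392 (T t238 (L l392 (T t2162 (K a10 (M a250 (F (L l392 (T t2160 (L l26 (L l54 (L l390 (T t2161 (L l26 (L l54 (L l390 (L l392 (T t238 (L l392 (T t2162 N))))))))))))))) (K a250 (M a10 (F (L l392 (T t2160 (L l50 (L l426 (T t2561 N))))))) N)))))))))))))))) (K a255 (M a20 (F (L l26 (T t1268 (L l295 (T t2160 (L l26 (L l295 (L l296 (T t2161 N)))))))))) N))))))))))))))))))))⟩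
def e0_63__90_24 : Ent 4 := ⟨[a0, a63], [a90, a39], (M a60 (F (T t68 (L l27 (T t67 (L l49 (T t43 (T t69 (K a20 (M a48 (F (T t138 (L l11 (L l14 (L l462 (T t48 (L l11 (L l49 (T t235 N)))))))))) (K a40 (M a48 (F (T t246 (L l462 (T t48 (L l49 (L l52 (T t235 N)))))))) (K a21 (M a192 (F (T t72 (L l347 (L l375 (T t73 (L l347 (L l375 (T t74 N))))))))) (K a41 (M a192 (F (T t79 (L l65 (L l375 (T t35 (L l375 (T t73 N)))))))) (K a61 (M a192 (F (T t72 (L l65 (L l375 (L l515 (T t35 (L l130 (T t80 N))))))))) (K a22 (M a192 (F (T t72 (L l375 (T t21 (L l375 (T t73 N))))))) (K a42 (M a192 (F (T t77 (L l375 (T t73 (L l22 (L l375 (T t74 N)))))))) (K a62 (M a192 (F (T t72 (L l375 (T t35 (L l66 (L l130 (L l516 (T t80 N))))))))) (K a3 (M a192 (F (T t2658 (L l375 (L l475 (T t35 (L l307 (L l375 (T t73 N))))))))) N)))))))))))))))))⟩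
def e0_63__90_25 : Ent 4 := ⟨[a0, a63], [a90, a43], (M a12 (F (T t122 (L l22 (T t151 (L l55 (T t152 (L l22 (T t153 (K a4 (M a60 (F (L l22 (T t69 (L l480 (L l483 (T t398 (L l22 (T t2435 N))))))))) (K a8 (M a60 (F (T t570 (L l22 (L l56 (T t69 (L l22 (L l56 (T t2435 N))))))))) (K a21 (M a192 (F (T t836 (L l15 (L l347 (L l375 (T t450 (L l15 (L l347 (L l375 (T t157 N))))))))))) (K a25 (M a192 (F (T t449 (L l15 (L l375 (T t450 (L l375 (T t21 N)))))))) (K a29 (M a192 (F (T t449 (L l371 (L l375 (T t21 (L l22 (L l130 (L l393 (T t160 N)))))))))) (K a38 (M a192 (F (T t836 (L l375 (T t450 (L l375 (T t21 N))))))) (K a42 (M a192 (L l22 (F (T t449 (L l375 (T t450 (L l56 (L l375 (T t157 (K a40 (M a41 (F (T t156 (L l375 (T t450 (L l130 (L l390 (L l393 (T t681 N))))))))) (K a41 (M a40 (F (T t156 (L l26 (L l66 (L l483 (T t2436 N))))))) N))))))))))) (K a46 (M a192 (F (T t449 (L l375 (T t21 (L l22 (L l26 (L l130 (L l393 (L l408 (T t160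 N))))))))))) (K a51 (M a192 (F (T t1725 (L l375 (L l415 (T t450 (L l375 (L l439 (T t21 N))))))))) N))))))))))))))))))⟩
def e0_63__90_26 : Ent 4 := ⟨[a0, a63], [a90, a47], (M a60 (F (T t68 (L l27 (T t67 (L l28 (T t43 (L l28 (T t69 (K a20 (M a48 (F (T t64 (L l28 (L l483 (T t2 (L l28 (L l46 (L l465 (T t287 N)))))))))) (K a40 (M a48 (F (T t64 (L l22 (L l28 (L l483 (T t2 (L l22 (L l28 (L l465 (T t287 N))))))))))) (K a21 (M a192 (F (T t72 (L l347 (L l375 (L l409 (T t73 (L l347 (L l375 (T t74 N)))))))))) (K a41 (M a192 (F (T t79 (L l65 (L l375 (T t35 (L l375 (L l409 (T t73 N))))))))) (K a61 (M a192 (F (T t72 (L l65 (L l375 (L l515 (T t35 (L l28 (L l130 (L l411 (T t80 N))))))))))) (K a22 (M a192 (F (T t72 (L l375 (T t21 (L l375 (L l409 (T t73 N)))))))) (K a42 (M a48 (L l28 (F (T t64 (L l22 (T t247 (L l23 (L l56 (T t288 (L l22 (L l54 (L l66 (T t289 (K a32 (M a37 (F (L l54 (T t290 (L l66 (L l465 (L l483 (T t291 (T t64 N)))))))))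 (K a37 (Fr a32 a16 l40 (V t292)) N))))))))))))))) (K a62 (M a192 (F (T t72 (L l375 (T t35 (L l28 (L l66 (L l130 (L l411 (L l516 (T t80 N))))))))))) (K a3 (M a192 (F (T t2658 (L l375 (L l475 (T t35 (L l307 (L l375 (L l409 (T t73 N)))))))))) N))))))))))))))))))⟩
def e0_63__90_27 : Ent 4 := ⟨[a0, a63], [a90, a48], (M a60 (F (T t116 (L l45 (T t67 (L l45 (T t43 (L l45 (T t68 (L l45 (T t69 (K a20 (M a12 (F (T t570 (L l11 (L l30 (T t122 (L l11 (L l46 (T t399 N))))))))) (K a40 (M a12 (F (T t423 (L l30 (T t122 (L l24 (T t399 N))))))) (K a21 (M a192 (F (T t2658 (L l347 (L l375 (L l488 (T t73 (L l347 (L l375 (T t74 N)))))))))) (K a41 (M a192 (F (T t254 (L l65 (L l375 (L l440 (T t35 (L l375 (L l488 (T t73 N)))))))))) (K a61 (M a192 (F (T t1334 (L l65 (L l375 (L l440 (L l515 (T t35 (L l130 (T t80 N)))))))))) (K a22 (M a192 (F (T t2658 (L l375 (L l440 (T t21 (L l375 (L l488 (T t73 N))))))))) (K a42 (M a192 (F (T t254 (L l375 (L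 l488 (T t73 (L l22 (L l375 (T t74 N))))))))) (K a62 (M a192 (F (T t2658 (L l375 (L l440 (T t35 (L l66 (L l130 (L l516 (T t80 N)))))))))) (K a3 (M a84 (L l45 (F (T t2648 (L l130 (T t1415 (L l92 (L l130 (L l440 (L l475 (L l477 (T t1416 (K a33 (M a18 (F (T t1414 (L l70 (L l372 (L l375 (T t1417 N))))))) (K a18 (M a33 (F (T t1414 (L l70 (T t1418 N))))) N)))))))))))))) N))))))))))))))))))))⟩
def e0_63__90_28 : Ent 4 := ⟨[a0, a63], [a90, a49], (M a12 (F (T t150 (L l30 (T t122 (L l30 (L l41 (T t151 (L l30 (T t152 (L l30 (T t153 (K a4 (M a60 (F (T t43 (L l35 (L l480 (L l483 (T t398 (L l41 (T t448 N))))))))) (K a8 (M a60 (F (T t67 (L l35 (L l480 (L l483 (T t398 (L l41 (L l52 (L l56 (T t448 N))))))))))) (K a21 (M a192 (F (T t836 (L l15 (L l347 (L l375 (T t450 (L l15 (L l347 (L l375 (T t157 N))))))))))) (K a25 (M a13 (F (L l35 (L l480 (T t3911 (L l41 (L l462 (L l480 (T t3914 (L l53 (L l56 (T t3915 N)))))))))))) (K a29 (M a192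 (F (T t449 (L l371 (L l375 (T t21 (L l130 (T t160 N)))))))) (K a38 (M a192 (F (T t156 (L l375 (T t450 (L l375 (T t21 N))))))) (K a42 (M a192 (F (T t449 (L l375 (T t450 (L l56 (L l375 (T t157 N)))))))) (K a46 (M a192 (F (T t449 (L l375 (T t21 (L l26 (L l130 (L l408 (T t160 N))))))))) (K a51 (M a48 (F (T t145 (L l35 (L l73 (L l462 (L l483 (T t1 (L l73 (T t866 N)))))))))) N)))))))))))))))))))))⟩
def e0_63__90_29 : Ent 4 := ⟨[a0, a63], [a90, a50], (M a12 (F (T t1252 (L l30 (L l42 (T t122 (L l30 (T t151 (L l30 (T t152 (L l30 (T t153 (K a4 (M a60 (F (T t43 (L l72 (L l480 (L l483 (T t398 (T t448 N)))))))) (K a8 (M a60 (F (T t67 (L l72 (L l480 (L l483 (T t398 (L l52 (L l56 (T t448 N)))))))))) (K a21 (M a192 (F (T t836 (L l15 (L l347 (L l375 (T t450 (L l15 (L l347 (L l375 (T t157 N))))))))))) (K a25 (M a192 (F (T t449 (L l15 (L l375 (T t450 (L l375 (T t21 N)))))))) (K a29 (M a192 (F (T t449 (L l371 (L l375 (T t21 (L l130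 (T t160 N)))))))) (K a38 (M a14 (F (L l36 (T t726 (L l42 (T t727 (L l48 (L l50 (L l372 (L l462 (T t728 N))))))))))) (K a42 (M a192 (F (T t449 (L l375 (T t450 (L l56 (L l375 (T t157 N)))))))) (K a46 (M a192 (F (T t449 (L l375 (T t21 (L l26 (L l130 (L l408 (T t160 N))))))))) (K a51 (M a48 (F (T t145 (L l73 (L l462 (L l483 (T t1 (L l36 (L l73 (T t866 N)))))))))) N)))))))))))))))))))))⟩
def e0_63__90_30 : Ent 4 := ⟨[a0, a63], [a90, a51], (M a60 (F (T t116 (L l43 (T t67 (L l43 (T t43 (L l43 (T t68 (L l43 (T t69 (K a20 (M a85 (F (L l439 (T t168 (L l441 (L l462 (T t114 (T t1344 N)))))))) (K a40 (M a85 (F (L l439 (T t52 (L l392 (L l441 (L l462 (T t114 (L l22 (T t1344 N)))))))))) (K a21 (M a192 (F (T t2658 (L l347 (L l375 (L l487 (T t73 (L l347 (L l375 (T t74 N)))))))))) (K a41 (M a192 (F (T t254 (L l65 (L l375 (L l439 (T t35 (L l375 (L l487 (T t73 N)))))))))) (K a61 (M a192 (F (T t1334 (L l65 (L l375 (L l439 (L l515 (T t35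 (L l130 (T t80 N)))))))))) (K a22 (M a192 (F (T t2658 (L l375 (L l439 (T t21 (L l375 (L l487 (T t73 N))))))))) (K a42 (M a192 (F (T t254 (L l375 (L l487 (T t73 (L l22 (L l375 (T t74 N))))))))) (K a62 (M a192 (F (T t2658 (L l375 (L l439 (T t35 (L l66 (L l130 (L l516 (T t80 N)))))))))) (K a3 (M a192 (L l43 (F (T t2658 (L l375 (L l439 (L l475 (T t35 (L l307 (L l375 (L l487 (T t73 (K a19 (M a35 (F (T t1334 (L l375 (L l439 (L l475 (T t35 (L l130 (L l307 (L l487 (T t75 N))))))))))) (K a35 (M a19 (F (T t1334 (L l375 (L l439 (L l475 (T t35 (L l130 (L l307 (L l487 (T t75 N))))))))))) N)))))))))))))) N))))))))))))))))))))⟩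
def e0_63__90_31 : Ent 4 := ⟨[a0, a63], [a90, a53], (M a12 (F (T t151 (L l47 (T t122 (L l47 (T t152 (L l31 (T t153 (K a4 (M a60 (F (T t43 (L l35 (L l480 (L l483 (T t398 (T t448 N)))))))) (K a8 (M a60 (F (T t570 (L l47 (T t67 (L l52 (L l56 (T t448 N)))))))) (K a21 (M a192 (L l47 (F (T t156 (L l15 (L l347 (L l375 (L l491 (T t450 (L l15 (L l347 (L l375 (L l491 (T t157 (K a5 (M a37 (F (T t156 (L l15 (L l347 (L l375 (L l491 (T t450 (L l1 (L l50 (L l130 (T t681 N)))))))))))) (K a37 (M a5 (F (T t156 (L l28 (L l462 (T t1107 N)))))) N)))))))))))))))) (K a25 (M a192 (F (T t449 (L l15 (L l375 (L l491 (T t450 (L l375 (L l491 (T t21 N)))))))))) (K a29 (M a192 (F (T t449 (L l371 (L l375 (L l491 (T t21 (L l130 (T t160 N))))))))) (K a38 (M a192 (F (T t156 (L l375 (L l491 (T t450 (L l375 (L l491 (T t21 N))))))))) (K a42 (M a192 (F (T t449 (L l375 (L l491 (T t450 (L l56 (L l375 (L l491 (T t157 N)))))))))) (K a46 (M a192 (F (T t449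 (L l375 (L l491 (T t21 (L l26 (L l130 (L l408 (T t160 N)))))))))) (K a51 (M a192 (F (T t1725 (L l375 (L l415 (L l491 (T t450 (L l375 (L l439 (L l491 (T t21 N))))))))))) N))))))))))))))))))⟩
def e0_63__90_32 : Ent 4 := ⟨[a0, a63], [a90, a54], (M a12 (F (T t150 (L l39 (T t122 (L l39 (T t151 (L l39 (T t152 (L l31 (L l39 (T t153 (K a4 (M a60 (F (T t43 (L l480 (L l483 (T t398 (T t448 N))))))) (K a8 (M a60 (F (T t67 (L l480 (L l483 (T t398 (L l52 (L l56 (T t448 N))))))))) (K a21 (M a192 (F (T t836 (L l15 (L l347 (L l375 (T t450 (L l15 (L l347 (L l375 (T t157 N))))))))))) (K a25 (M a192 (F (T t449 (L l15 (L l375 (T t450 (L l375 (T t21 N)))))))) (K a29 (M a192 (F (T t449 (L l371 (L l375 (T t21 (L l130 (T t160 N)))))))) (K a38 (M a6 (F (T t1982 (L l26 (L l39 (T t3916 (L l21 (L l26 (L l29 (L l36 (T t3917 N))))))))))) (K a42 (M a192 (F (T t449 (L l375 (T t450 (L l56 (L l375 (T t157 N)))))))) (K a46 (M a192 (F (T t449 (L l375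 (T t21 (L l26 (L l130 (L l408 (T t160 N))))))))) (K a51 (M a60 (F (T t3918 (L l43 (T t67 (L l73 (L l480 (L l483 (T t398 N))))))))) N)))))))))))))))))))))⟩
def e0_63__90_33 : Ent 4 := ⟨[a0, a63], [a90, a55], (M a60 (F (T t69 (L l50 (T t67 (L l49 (T t43 (L l50 (T t68 (K a20 (M a48 (F (L l31 (T t64 (L l483 (T t2 (L l11 (L l49 (L l50 (T t235 N)))))))))) (K a40 (M a48 (F (L l31 (T t64 (L l22 (L l483 (T t2 (L l49 (L l50 (L l52 (T t235 N))))))))))) (K a21 (M a12 (L l50 (F (L l31 (T t409 (L l15 (L l65 (L l480 (L l483 (T t398 (L l11 (L l15 (L l65 (L l480 (L l483 (T t1665 (L l18 (L l31 (T t2437 (K a4 (M a38 (F (L l15 (T t1669 (L l11 (T t2438 (L l483 (T t680 N)))))))) (K a38 (Fr a4 a8 l4 (V t1671)) N))))))))))))))))))))) (K a41 (M a192 (F (T t79 (L l50 (L l65 (L l375 (L l495 (T t35 (L l375 (L l495 (T t73 N))))))))))) (K a61 (M a192 (F (T t72 (L l50 (L l65 (L l375 (L l495 (L l515 (T t35 (L l130 (L l493 (T t80 N)))))))))))) (K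 a22 (M a192 (F (T t72 (L l375 (L l495 (T t21 (L l375 (L l495 (T t73 N))))))))) (K a42 (M a192 (F (T t77 (L l375 (L l495 (T t73 (L l22 (L l375 (L l495 (T t74 N)))))))))) (K a62 (M a192 (F (T t72 (L l50 (L l375 (L l495 (T t35 (L l66 (L l130 (L l493 (L l516 (T t80 N)))))))))))) (K a3 (M a192 (F (T t2658 (L l50 (L l375 (L l475 (L l495 (T t35 (L l307 (L l375 (L l495 (T t73 N)))))))))))) N))))))))))))))))))⟩
def e0_63__90_34 : Ent 4 := ⟨[a0, a63], [a90, a58], (M a12 (F (T t122 (L l54 (T t151 (L l32 (T t152 (L l54 (T t153 (K a4 (M a60 (F (T t423 (L l46 (L l50 (T t67 (L l54 (T t448 N)))))))) (K a8 (M a60 (F (T t68 (L l480 (L l483 (T t398 (L l52 (L l54 (L l56 (T t448 N)))))))))) (K a21 (M a192 (F (T t836 (L l15 (L l347 (L l375 (T t450 (L l15 (L l347 (L l375 (T t157 N))))))))))) (K a25 (M a192 (F (T t449 (L l15 (L l375 (T t450 (L l375 (T t21 N)))))))) (K a29 (M a192 (F (T t449 (L l371 (L l375 (T t21 (L l54 (L l130 (L l498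 (T t160 N)))))))))) (K a38 (M a192 (F (T t836 (L l375 (T t450 (L l375 (T t21 N))))))) (K a42 (M a170 (L l54 (F (T t2497 (L l26 (T t3880 (L l94 (T t2498 (K a10 (M a26 (F (T t2497 (L l26 (T t3880 (L l94 (T t2498 N))))))) (K a26 (M a10 (L l354 (F (T t2501 (L l26 (L l28 (T t1374 (K a154 (M a218 (L l498 (F (T t2501 (L l26 (L l28 (T t1374 (K a202 (M a106 (F (T t3201 (L l56 (L l72 (L l75 (L l480 (L l483 (T t2913 N))))))))) (K a106 (M a202 (L l130 (F (T t2497 (L l18 (L l375 (T t2149 (K a74 (M a122 (F (T t2497 (L l18 (L l375 (T t2149 N)))))) (K a122 (Fr a74 a138 l318 (V t3685)) N))))))))) N))))))))) (K a218 (M a154 (F (T t2497 (L l18 (L l375 (T t2149 N)))))) N))))))))) N)))))))))) (K a46 (M a192 (F (T t449 (L l375 (T t21 (L l26 (L l54 (L l130 (L l408 (L l498 (T t160 N))))))))))) (K a51 (M a192 (F (T t1725 (L l375 (L l415 (T t450 (L l375 (L l439 (T t21 N))))))))) N))))))))))))))))))⟩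
def e0_63__90_35 : Ent 4 := ⟨[a0, a63], [a90, a59], (M a60 (F (T t68 (L l55 (T t67 (L l56 (T t43 (L l56 (T t69 (K a20 (M a48 (F (L l32 (T t70 (L l11 (L l462 (L l483 (T t1 (L l46 (L l55 (L l56 (L l375 (L l465 (T t71 N)))))))))))))) (K a40 (M a48 (F (L l32 (T t70 (L l462 (L l483 (T t1 (L l22 (L l24 (L l55 (L l56 (L l375 (L l465 (T t71 N)))))))))))))) (K a21 (M a192 (F (T t72 (L l347 (L l375 (L l499 (T t73 (L l347 (L l375 (T t74 N)))))))))) (K a41 (M a192 (F (T t79 (L l65 (L l375 (T t35 (L l375 (L l499 (T t73 N))))))))) (K a61 (M a192 (F (T t72 (L l65 (L l375 (L l515 (T t35 (L l56 (L l130 (L l501 (T t80 N))))))))))) (K a22 (M a192 (F (T t72 (L l375 (T t21 (L l375 (L l499 (T t73 N)))))))) (K a42 (M a12 (L l56 (F (L l22 (T t417 (L l480 (L l483 (T t398 (L l28 (L l32 (L l480 (T t2440 (L l22 (L l26 (L l66 (L l375 (L l483 (T t2441 (K a8 (M a25 (F (L l26 (T t2442 (L l66 (T t2443 (L l480 (L l483 (T t398 N))))))))) (K a25 (Fr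 a8 a4 l4 (V t2444)) N)))))))))))))))))))) (K a62 (M a192 (F (T t72 (L l375 (T t35 (L l56 (L l66 (L l130 (L l501 (L l516 (T t80 N))))))))))) (K a3 (M a192 (F (T t2658 (L l375 (L l475 (T t35 (L l307 (L l375 (L l499 (T t73 N)))))))))) N))))))))))))))))))⟩
def e0_63__90_36 : Ent 4 := ⟨[a0, a63], [a90, a64], (M a12 (F (T t122 (T t151 (T t152 (T t153 (K a4 (M a60 (F (T t43 (L l480 (L l483 (T t398 (T t448 N))))))) (K a8 (M a60 (F (T t67 (L l480 (L l483 (T t398 (L l52 (L l56 (T t448 N))))))))) (K a21 (M a89 (F (T t2786 (L l50 (T t863 (L l50 (T t864 N))))))) (K a25 (M a48 (F (T t550 (L l15 (L l462 (L l483 (T t1 (L l12 (L l56 (T t866 N)))))))))) (K a29 (M a48 (F (T t550 (L l15 (L l462 (L l483 (T t1 (T t866 N)))))))) (K a38 (M a48 (F (T t1580 (L l26 (L l483 (T t2 (L l21 (L l50 (L l357 (L l462 (T t868 N))))))))))) (K a42 (M a89 (F (T t3370 (T t863 (L l26 (T t864 N)))))) (K a46 (M a48 (F (T t443 (L l462 (L l483 (T t1 (L l26 (T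 t866 N)))))))) (K a51 (M a16 (F (T t112 (L l39 (T t871 (L l354 (L l372 (T t872 N)))))))) N)))))))))))))))⟩
def e0_63__90_37 : Ent 4 := ⟨[a0, a63], [a90, a65], (M a12 (F (T t122 (T t151 (T t152 (T t153 (K a4 (M a60 (F (T t43 (L l480 (L l483 (T t398 (T t448 N))))))) (K a8 (M a60 (F (T t67 (L l480 (L l483 (T t398 (L l52 (L l56 (T t448 N))))))))) (K a21 (M a192 (F (T t468 (L l15 (L l347 (L l375 (T t450 (L l15 (L l347 (L l375 (T t157 N))))))))))) (K a25 (M a192 (F (T t449 (L l15 (L l375 (T t450 (L l375 (T t21 N)))))))) (K a29 (M a192 (F (T t449 (L l371 (L l375 (T t21 (L l130 (T t160 N)))))))) (K a38 (M a192 (F (T t156 (L l375 (T t450 (L l375 (T t21 N))))))) (K a42 (M a192 (F (T t449 (L l375 (T t450 (L l56 (L l375 (T t157 N)))))))) (K a46 (M a192 (F (T t449 (L l375 (T t21 (L l26 (L l130 (L l408 (T t160 N))))))))) (K a51 (M a192 (F (T t496 (L l375 (L l415 (T t450 (L l375 (L l439 (T t21 N))))))))) N)))))))))))))))⟩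
def e0_63__90_38 : Ent 4 := ⟨[a0, a63], [a90, a66], (M a12 (F (T t122 (T t151 (T t152 (T t153 (K a4 (M a60 (F (T t570 (L l46 (L l50 (L l309 (T t67 (T t448 N)))))))) (K a8 (M a60 (F (T t570 (L l309 (T t67 (L l52 (L l56 (T t448 N)))))))) (K a21 (M a192 (F (T t468 (L l15 (L l347 (L l375 (T t450 (L l15 (L l347 (L l375 (T t157 N))))))))))) (K a25 (M a192 (F (T t449 (L l15 (L l375 (T t450 (L l375 (T t21 N)))))))) (K a29 (M a192 (F (T t449 (L l371 (L l375 (T t21 (L l130 (L l142 (T t160 N))))))))) (K a38 (M a192 (F (T t468 (L l375 (T t450 (L l375 (T t21 N))))))) (K a42 (M a192 (F (T t449 (L l375 (T t450 (L l56 (L l375 (T t157 N)))))))) (K a46 (M a192 (F (T t449 (L l375 (T t21 (L l26 (L l130 (L l142 (L l408 (T t160 N)))))))))) (K a51 (M a192 (F (T t496 (L l375 (L l415 (T t450 (L l375 (L l439 (T t21 N))))))))) N)))))))))))))))⟩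
def e0_63__90_39 : Ent 4 := ⟨[a0, a63], [a90, a67], (M a12 (F (T t122 (T t151 (T t152 (T t153 (K a4 (M a60 (F (T t570 (L l46 (L l50 (L l307 (T t67 (T t448 N)))))))) (K a8 (M a60 (F (T t570 (L l307 (T t67 (L l52 (L l56 (T t448 N)))))))) (K a21 (M a192 (F (T t468 (L l15 (L l347 (L l375 (T t450 (L l15 (L l347 (L l375 (T t157 N))))))))))) (K a25 (M a192 (F (T t449 (L l15 (L l375 (T t450 (L l143 (L l375 (T t21 N))))))))) (K a29 (M a192 (F (T t449 (L l143 (L l371 (L l375 (T t21 (L l130 (T t160 N))))))))) (K a38 (M a192 (F (T t468 (L l375 (T t450 (L l143 (L l375 (T t21 N)))))))) (K a42 (M a192 (F (T t449 (L l375 (T t450 (L l56 (L l375 (T t157 N)))))))) (K a46 (M a192 (F (T t449 (L l143 (L l375 (T t21 (L l26 (L l130 (L l408 (T t160 N)))))))))) (K a51 (M a192 (F (T t496 (L l375 (L l415 (T t450 (L l143 (L l375 (L l439 (T t21 N)))))))))) N)))))))))))))))⟩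
def e0_63__90_40 : Ent 4 := ⟨[a0, a63], [a90, a69], (M a60 (F (T t67 (T t43 (T t68 (L l329 (T t69 (K a20 (M a48 (F (T t64 (L l11 (L l462 (L l483 (T t1 (L l11 (T t235 N))))))))) (K a40 (M a48 (F (T t64 (L l462 (L l483 (T t1 (L l52 (T t235 N)))))))) (K a21 (M a192 (F (T t72 (L l347 (L l375 (T t73 (L l347 (L l375 (T t74 N))))))))) (K a41 (M a192 (F (T t77 (L l65 (L l375 (T t35 (L l375 (T t73 N)))))))) (K a61 (M a192 (F (T t72 (L l65 (L l375 (L l515 (T t35 (L l130 (T t80 N))))))))) (K a22 (M a192 (F (T t72 (L l375 (T t21 (L l375 (T t73 N))))))) (K a42 (M a192 (F (T t77 (L l375 (T t73 (L l22 (L l375 (T t74 N)))))))) (K a62 (M a192 (F (T t72 (L l375 (T t35 (L l66 (L l130 (L l516 (T t80 N))))))))) (K a3 (M a192 (F (T t254 (L l375 (L l475 (T t35 (L l307 (L l375 (T t73 N))))))))) N))))))))))))))))⟩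
def e0_63__90_41 : Ent 4 := ⟨[a0, a63], [a90, a70], (M a12 (F (T t122 (T t151 (T t152 (T t153 (K a4 (M a60 (F (T t570 (L l46 (L l50 (L l333 (T t67 (T t448 N)))))))) (K a8 (M a60 (F (T t570 (L l333 (T t67 (L l52 (L l56 (T t448 N)))))))) (K a21 (M a192 (F (T t1725 (L l15 (L l347 (L l375 (T t450 (L l15 (L l347 (L l375 (T t157 N))))))))))) (K a25 (M a192 (F (T t496 (L l15 (L l375 (T t450 (L l375 (T t21 N)))))))) (K a29 (M a192 (F (T t496 (L l371 (L l375 (T t21 (L l130 (T t160 N)))))))) (K a38 (M a192 (F (T t1725 (L l375 (T t450 (L l375 (T t21 N))))))) (K a42 (M a192 (F (T t496 (L l375 (T t450 (L l56 (L l375 (T t157 N)))))))) (K a46 (M a192 (F (T t1725 (L l375 (T t21 (L l26 (L l130 (L l408 (T t160 N))))))))) (K a51 (M a192 (F (T t1725 (L l375 (L l415 (T t450 (L l375 (L l439 (T t21 N))))))))) N)))))))))))))))⟩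
def e0_63__90_42 : Ent 4 := ⟨[a0, a63], [a90, a71], (M a12 (F (T t122 (T t151 (T t152 (T t153 (K a4 (M a60 (F (T t570 (L l46 (L l50 (L l331 (T t67 (T t448 N)))))))) (K a8 (M a60 (F (T t570 (L l331 (T t67 (L l52 (L l56 (T t448 N)))))))) (K a21 (M a192 (F (T t836 (L l15 (L l347 (L l375 (T t450 (L l15 (L l347 (L l375 (T t157 N))))))))))) (K a25 (M a192 (F (T t449 (L l15 (L l375 (T t450 (L l375 (T t21 N)))))))) (K a29 (M a192 (F (T t449 (L l371 (L l375 (T t21 (L l130 (T t160 N)))))))) (K a38 (M a192 (F (T t156 (L l375 (T t450 (L l375 (T t21 N))))))) (K a42 (M a192 (F (T t449 (L l375 (T t450 (L l56 (L l375 (T t157 N)))))))) (K a46 (M a192 (F (T t449 (L l375 (T t21 (L l26 (L l130 (L l408 (T t160 N))))))))) (K a51 (M a192 (F (T t1725 (L l375 (L l415 (T t450 (L l375 (L l439 (T t21 N))))))))) N)))))))))))))))⟩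
def e0_63__90_43 : Ent 4 := ⟨[a0, a63], [a90, a74], (M a12 (L l130 (F (T t122 (T t151 (T t152 (T t153 (K a4 (M a106 (F (T t2414 (L l84 (L l339 (T t586 (L l50 (T t2474 N)))))))) (K a8 (M a106 (F (T t2414 (L l56 (L l84 (L l339 (T t586 (T t2474 N)))))))) (K a21 (M a106 (F (L l15 (T t2414 (L l78 (L l84 (L l347 (L l375 (T t2305 (L l15 (L l84 (T t2415 N)))))))))))) (K a25 (M a106 (F (L l375 (T t564 (L l78 (L l339 (T t2475 (L l15 (L l56 (L l84 (T t2415 N))))))))))) (K a29 (M a106 (F (L l15 (T t778 (L l78 (L l84 (L l371 (L l375 (T t2305 (L l15 (L l78 (T t2476 N)))))))))))) (K a38 (M a106 (F (T t2414 (L l50 (L l94 (T t310 (L l84 (T t2415 N)))))))) (K a42 (M a106 (F (T t2414 (L l56 (L l84 (T t2415 (L l78 (L l84 (L l375 (T t2305 N)))))))))) (K a46 (M a106 (F (T t778 (L l78 (L l84 (L l375 (T t2305 (L l78 (T t2476 N))))))))) (K a51 (M a106 (F (T t2477 (L l78 (T t2476 (L l84 (L l339 (L l489 (T t586 N))))))))) (K a106 (M a122 (F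 (T t122 (T t2478 (K a4 (M a48 (F (L l144 (T t2479 (L l50 (T t146 N)))))) (K a8 (M a48 (F (L l144 (T t2479 (L l52 (T t146 N)))))) N)))))) (K a122 (M a106 (F (T t122 (L l88 (L l108 (T t2419 (L l84 (L l339 (T t586 N))))))))) N))))))))))))))))))⟩
def e0_63__90_44 : Ent 4 := ⟨[a0, a63], [a90, a75], (M a60 (L l133 (F (T t67 (T t43 (T t68 (T t69 (K a20 (M a48 (L l133 (F (T t64 (L l11 (L l337 (L l462 (L l483 (T t1 (L l11 (T t235 (K a120 (M a105 (F (T t70 (L l350 (L l372 (T t1120 N)))))) (K a105 (M a120 (F (T t70 (L l375 (T t2709 N))))) N))))))))))))) (K a40 (M a170 (L l133 (F (T t2190 (L l94 (T t1570 (T t1123 (K a120 (M a105 (F (T t2710 (L l128 (L l388 (T t1128 (L l94 (T t2102 N)))))))) (K a105 (M a120 (F (T t317 (L l131 (T t2711 N))))) N))))))))) (K a21 (M a105 (F (T t1128 (L l11 (L l337 (T t404 (L l11 (T t405 N)))))))) (K a41 (M a105 (F (T t1129 (T t1128 (T t405 N))))) (K a61 (M a149 (L l133 (F (T t5 (L l130 (T t463 (T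 t1130 (K a120 (M a105 (F (L l372 (T t1131 (L l337 (T t2712 (L l130 (T t177 N)))))))) (K a105 (M a120 (F (T t176 (L l98 (L l130 (L l410 (T t2713 (L l130 (L l392 (L l462 (T t2714 (L l94 (T t2715 N))))))))))))) N))))))))) (K a22 (M a105 (F (L l11 (T t1129 (L l66 (T t1128 (L l11 (L l66 (T t405 N))))))))) (K a42 (M a105 (F (T t1129 (L l66 (T t1128 (L l66 (T t405 N))))))) (K a62 (M a192 (L l133 (F (T t72 (L l375 (T t35 (L l66 (L l130 (L l516 (T t80 (K a120 (M a105 (F (T t2716 (L l337 (T t2712 N))))) (K a105 (M a120 (F (T t2717 (L l66 (L l98 (L l130 (L l392 (L l516 (T t2718 N))))))))) N)))))))))))) (K a3 (M a105 (F (T t406 (L l307 (L l337 (T t404 (L l309 (T t1128 N)))))))) (K a120 (M a105 (F (T t1129 (T t67 (L l128 (T t1128 N)))))) (K a105 (M a120 (F (T t67 (L l131 (T t2711 (L l131 (T t2719 (K a62 (M a64 (F (L l375 (L l515 (T t397 (T t2720 N)))))) N)))))))) N))))))))))))))))))⟩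
def e0_63__90_45 : Ent 4 := ⟨[a0, a63], [a90, a79], (M a48 (L l151 (F (T t132 (L l325 (L l462 (L l483 (T t1 (L l325 (L l483 (T t2 (L l325 (L l483 (T t3 (L l325 (L l375 (L l483 (T t0 (K a16 (M a60 (L l151 (F (T t43 (T t64 (T t65 (K a112 (M a101 (F (T t69 (L l116 (T t313 N))))) (K a101 (M a112 (F (T t69 (L l139 (T t2921 N))))) N)))))))) (K a32 (M a170 (L l151 (F (T t317 (L l94 (L l483 (T t2922 (T t580 (K a112 (M a101 (F (L l325 (T t2191 (L l375 (T t438 (L l116 (L l376 (T t313 N))))))))) (K a101 (M a112 (F (T t317 (L l137 (T t346 (L l375 (L l491 (T t2923 N)))))))) N)))))))))) (K a21 (M a101 (F (T t313 (L l18 (L l325 (T t334 (L l18 (T t314 N)))))))) (K a37 (M a101 (F (T t313 (L l325 (T t334 (T t314 N)))))) (K a53 (M a149 (L l151 (F (T t176 (L l130 (L l483 (T t1082 (T t26 (K a112 (M a101 (F (L l354 (T t2924 (L l325 (L l462 (T t312 (L l47 (T t175 N))))))))) (K a101 (M a112 (F (T t176 (L l84 (T t2925 (L l404 (L l462 (T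 t2926 N)))))))) N)))))))))) (K a26 (M a154 (L l151 (F (T t473 (T t327 (L l84 (T t527 (K a112 (Fr a101 a207 l512 (V t3919)) (K a101 (M a112 (F (L l84 (T t2925 (L l137 (T t346 (L l137 (L l404 (L l491 (T t2000 N)))))))))) N))))))))) (K a42 (M a101 (F (T t2197 (L l54 (T t313 (L l54 (T t314 N))))))) (K a58 (M a12 (L l151 (F (T t443 (T t122 (T t146 (K a112 (M a101 (F (T t122 (L l94 (L l325 (T t1307 N)))))) (K a101 (M a112 (F (T t122 (L l79 (T t2928 N))))) N)))))))) (K a15 (M a101 (L l325 (L l483 (F (L l130 (T t440 (L l94 (T t2103 (T t314 (K a240 (M a165 (L l325 (F (L l130 (T t440 (L l266 (L l354 (L l469 (T t2181 (T t431 (K a143 (Fr a207 a154 l512 (V t2929)) (K a207 (M a143 (L l303 (F (L l462 (T t3920 (L l375 (T t3921 (L l236 (L l289 (T t314 (K a229 (M a218 (F (L l289 (L l462 (T t2932 (L l130 (L l236 (L l275 (T t2933 (L l236 (L l256 (L l275 (L l289 (T t431 N)))))))))))))) (K a218 (Fr a229 a37 l383 (V t431)) N))))))))))))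 N)))))))))))) (K a165 (M a240 (L l325 (F (T t314 (L l130 (L l411 (T t440 (L l94 (L l455 (T t2103 (K a143 (Fr a207 a154 l512 (Fr a176 a112 l412 (V t3922))) (K a207 (M a143 (F (L l130 (T t2934 (L l94 (T t2935 (L l236 (L l289 (T t431 N))))))))) N)))))))))))) (K a143 (Fr a207 a154 l512 (V t2929)) (K a207 (M a143 (L l483 (F (L l236 (L l289 (T t314 (L l84 (L l236 (T t2936 (L l137 (L l289 (T t1477 (L l94 (L l137 (L l289 (T t2937 (L l84 (L l130 (L l236 (T t2938 (K a240 (M a165 (L l303 (F (L l462 (T t3920 (L l375 (T t3921 (L l236 (L l289 (T t314 (K a229 (M a218 (F (L l289 (L l462 (T t2932 (L l130 (L l236 (L l275 (T t2933 (L l236 (L l256 (L l275 (L l289 (T t431 N)))))))))))))) (K a218 (Fr a229 a37 l383 (V t431)) N)))))))))))) (K a165 (M a240 (F (L l130 (T t2934 (L l94 (T t2935 (L l236 (L l289 (T t431 N))))))))) N)))))))))))))))))))))) N))))))))))))) (K a112 (M a101 (F (T t132 (L l116 (T t313 (L l325 (T t334 N))))))) (K a101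 (M a112 (F (L l84 (T t2925 (L l137 (T t346 (L l462 (L l491 (T t48 N))))))))) N)))))))))))))))))))))))))))))⟩
def e0_63__90_46 : Ent 4 := ⟨[a0, a63], [a90, a80], (M a85 (F (T t52 (L l116 (T t88 (L l116 (L l130 (T t89 (L l116 (L l462 (T t90 (K a64 (M a101 (L l116 (F (T t3923 (L l462 (T t2275 (L l340 (T t3924 (K a96 (M a112 (F (T t3925 (L l84 (T t1811 (L l340 (T t2261 N))))))) (K a112 (M a96 (F (L l340 (L l375 (T t3926 (T t3927 (L l84 (L l462 (T t3928 N))))))))) N)))))))))) (K a192 (M a48 (F (T t132 (L l151 (T t509 (L l268 (L l462 (L l483 (T t50 N))))))))) (K a21 (M a48 (F (T t99 (L l462 (L l483 (T t50 (L l47 (T t100 N)))))))) (K a149 (M a31 (F (L l340 (T t2084 (L l220 (L l462 (T t2085 (L l354 (T t3863 (L l483 (T t3929 N))))))))))) (K a213 (Fr a170 a255 l476 (Fr a42 a21 l68 (Fr a106 a234 l390 (Fr a192 a149 l519 (V t581))))) (K a42 (M a48 (F (L l28 (T t99 (L l390 (L l462 (L l483 (T t50 (L l28 (T t100 N)))))))))) (K a106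 (M a48 (L l130 (F (T t99 (L l340 (L l411 (L l483 (T t3 (L l390 (L l462 (L l483 (T t50 (K a74 (M a122 (F (T t2479 (L l340 (L l390 (T t568 N)))))) (K a122 (M a74 (F (T t1699 (L l340 (L l411 (L l483 (T t3 (L l114 (L l390 (L l426 (L l498 (T t51 N)))))))))))) N)))))))))))))) (K a170 (M a4 (L l462 (F (L l464 (T t130 (L l390 (T t131 (L l390 (L l464 (T t519 (L l464 (T t938 (K a10 (M a250 (F (L l2 (L l464 (T t130 (L l54 (L l390 (T t131 (L l2 (L l54 (L l390 (L l464 (T t519 (L l2 (L l464 (T t938 N)))))))))))))))) (K a250 (M a10 (F (L l426 (T t2561 (L l464 (T t130 N)))))) N)))))))))))))) (K a255 (M a4 (F (T t129 (L l265 (T t130 (L l265 (L l296 (T t131 N)))))))) N))))))))))))))))))))⟩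
def e0_63__90_47 : Ent 4 := ⟨[a0, a63], [a90, a81], (M a12 (F (T t122 (L l341 (T t151 (T t152 (T t153 (K a4 (M a60 (F (T t43 (L l480 (L l483 (T t398 (L l341 (T t448 N)))))))) (K a8 (M a60 (F (T t68 (L l480 (L l483 (T t398 (L l52 (L l56 (L l341 (T t448 N)))))))))) (K a21 (M a192 (F (T t468 (L l15 (L l347 (L l375 (T t450 (L l15 (L l347 (L l375 (T t157 N))))))))))) (K a25 (M a192 (F (T t449 (L l15 (L l375 (T t450 (L l375 (T t21 N)))))))) (K a29 (M a192 (F (T t449 (L l371 (L l375 (T t21 (L l130 (T t160 N)))))))) (K a38 (M a192 (F (T t156 (L l375 (T t450 (L l375 (T t21 N))))))) (K a42 (M a192 (F (T t449 (L l375 (T t450 (L l56 (L l375 (T t157 N)))))))) (K a46 (M a192 (F (T t449 (L l375 (T t21 (L l26 (L l130 (L l408 (T t160 N))))))))) (K a51 (M a192 (F (T t496 (L l375 (L l415 (T t450 (L l375 (L l439 (T t21 N))))))))) N))))))))))))))))⟩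
def e0_63__90_48 : Ent 4 := ⟨[a0, a63], [a90, a82], (M a12 (L l92 (F (T t122 (T t151 (T t152 (T t153 (K a4 (M a62 (L l92 (F (T t750 (L l50 (L l450 (L l453 (T t709 (L l50 (L l372 (L l462 (T t710 (K a86 (M a94 (F (L l46 (L l50 (T t711 (L l372 (T t3342 N))))))) (K a94 (M a86 (F (T t750 (L l50 (L l462 (T t1927 N)))))) N)))))))))))))) (K a8 (M a62 (L l92 (F (T t711 (L l480 (L l483 (T t708 (L l2 (L l372 (L l462 (T t710 (K a86 (M a94 (F (T t711 (L l372 (T t3342 N))))) (K a94 (M a86 (F (T t750 (L l462 (L l464 (T t1927 N)))))) N))))))))))))) (K a21 (M a192 (L l92 (F (T t836 (L l15 (L l347 (L l375 (T t450 (L l15 (L l347 (L l375 (T t157 (K a86 (M a94 (F (T t468 (L l130 (L l142 (T t543 (L l15 (L l347 (L l351 (L l375 (T t157 N))))))))))) (K a94 (M a86 (F (T t468 (L l11 (L l130 (L l453 (T t1177 N))))))) N)))))))))))))) (K a25 (M a192 (L l92 (F (T t449 (L l15 (L l375 (T t450 (L l375 (T t21 (K a86 (M a94 (F (T t836 (L l15 (L l351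 (L l375 (T t35 (L l130 (L l142 (T t543 N)))))))))) (K a94 (M a86 (F (T t156 (L l130 (L l453 (T t1177 N)))))) N))))))))))) (K a29 (M a192 (L l92 (F (T t449 (L l371 (L l375 (T t21 (L l130 (T t160 (K a86 (M a94 (F (T t468 (L l15 (L l351 (L l371 (L l375 (T t35 (L l15 (L l351 (L l371 (L l375 (T t776 N))))))))))))) (K a94 (M a86 (F (T t468 (L l130 (L l453 (T t1177 N)))))) N))))))))))) (K a38 (M a62 (L l92 (F (T t750 (L l50 (L l450 (L l453 (T t709 (L l48 (L l50 (L l372 (L l462 (T t710 (K a86 (M a94 (F (L l50 (T t711 (L l372 (T t3342 N)))))) (K a94 (M a86 (F (T t750 (L l48 (L l50 (L l462 (T t1927 N))))))) N))))))))))))))) (K a42 (M a192 (L l92 (F (T t449 (L l375 (T t450 (L l56 (L l375 (T t157 (K a86 (M a94 (F (T t836 (L l130 (L l142 (L l390 (T t543 (L l56 (L l351 (L l375 (T t157 N))))))))))) (K a94 (M a86 (F (T t836 (L l130 (L l390 (L l453 (T t1177 N))))))) N))))))))))) (K a46 (M a192 (L l92 (F (T t449 (L l375 (T t21 (L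 l26 (L l130 (L l408 (T t160 (K a86 (M a94 (F (T t468 (L l351 (L l375 (T t35 (L l351 (L l375 (T t776 N))))))))) (K a94 (M a86 (F (T t468 (L l130 (L l408 (L l453 (T t1177 N))))))) N)))))))))))) (K a51 (M a62 (L l92 (F (T t711 (L l73 (L l480 (L l483 (T t708 (L l372 (L l462 (T t710 (K a86 (M a94 (F (T t711 (L l372 (T t3342 N))))) (K a94 (M a86 (F (T t750 (L l462 (T t1927 N))))) N))))))))))))) (K a86 (M a94 (F (T t122 (T t151 (T t152 (T t153 (K a4 (M a157 (F (T t3347 (L l369 (L l462 (T t3348 N)))))) (K a8 (M a252 (F (T t3349 (L l94 (T t3350 N))))) (K a21 (M a204 (F (T t3351 (L l18 (L l375 (L l483 (T t3352 N))))))) (K a25 (M a204 (F (T t3351 (L l375 (L l483 (T t3352 N)))))) (K a29 (M a16 (F (T t652 (L l354 (L l359 (T t3353 N)))))) (K a38 (M a16 (F (L l21 (T t871 (L l26 (L l72 (L l354 (T t3353 N)))))))) (K a42 (M a204 (F (T t3351 (L l375 (L l483 (T t3352 N)))))) (K a46 (M a16 (F (T t871 (L l26 (L l354 (T t3353 N)))))) (K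 a51 (M a16 (F (T t652 (L l354 (T t3353 N))))) N))))))))))))))) (K a94 (M a86 (F (T t122 (T t151 (T t152 (T t153 (K a4 (M a84 (F (T t1928 (L l88 (L l89 (L l453 (T t3930 N))))))) (K a8 (M a84 (F (L l56 (T t1928 (L l89 (L l453 (L l460 (T t3931 N)))))))) (K a21 (M a192 (F (T t468 (L l11 (L l130 (L l453 (T t1177 N))))))) (K a25 (M a192 (F (T t156 (L l130 (L l453 (T t1177 N)))))) (K a29 (M a192 (F (T t468 (L l130 (L l453 (T t1177 N)))))) (K a38 (M a192 (F (T t468 (L l130 (L l453 (T t1177 N)))))) (K a42 (M a192 (F (T t836 (L l130 (L l390 (L l453 (T t1177 N))))))) (K a46 (M a192 (F (T t468 (L l130 (L l408 (L l453 (T t1177 N))))))) (K a51 (M a192 (F (T t496 (L l43 (L l130 (L l453 (T t1177 N))))))) N))))))))))))))) N))))))))))))))))))⟩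
def e0_63__90_49 : Ent 4 := ⟨[a0, a63], [a90, a83], (M a12 (F (T t122 (T t151 (T t152 (T t153 (K a4 (M a60 (F (T t570 (L l46 (L l50 (L l451 (T t67 (T t448 N)))))))) (K a8 (M a60 (F (T t570 (L l451 (T t67 (L l52 (L l56 (T t448 N)))))))) (K a21 (M a192 (F (T t836 (L l15 (L l347 (L l375 (L l451 (T t450 (L l15 (L l347 (L l375 (T t157 N)))))))))))) (K a25 (M a192 (F (T t449 (L l15 (L l375 (L l451 (T t450 (L l375 (T t21 N))))))))) (K a29 (M a192 (F (T t449 (L l371 (L l375 (T t21 (L l130 (T t160 N)))))))) (K a38 (M a192 (F (T t156 (L l375 (L l451 (T t450 (L l375 (T t21 N)))))))) (K a42 (M a192 (F (T t449 (L l375 (L l451 (T t450 (L l56 (L l375 (T t157 N))))))))) (K a46 (M a192 (F (T t449 (L l375 (T t21 (L l26 (L l130 (L l408 (T t160 N))))))))) (K a51 (M a192 (F (T t1725 (L l375 (L l415 (L l451 (T t450 (L l375 (L l439 (T t21 N)))))))))) N)))))))))))))))⟩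
def e0_63__90_50 : Ent 4 := ⟨[a0, a63], [a90, a85], (M a12 (L l94 (F (T t153 (L l347 (T t122 (L l365 (T t151 (L l347 (L l458 (T t152 (K a4 (M a14 (L l94 (L l458 (F (T t726 (L l462 (T t2506 (L l50 (L l347 (L l372 (L l462 (T t728 (L l50 (L l347 (T t2585 (K a80 (M a95 (L l458 (F (L l368 (T t3932 (L l50 (L l347 (L l372 (L l462 (T t728 (L l50 (L l347 (T t2585 (K a166 (M a247 (F (L l368 (T t3932 (L l50 (L l347 (L l372 (L l462 (T t728 (L l50 (L l347 (T t2585 N)))))))))))) (K a247 (M a166 (F (L l310 (T t2470 (L l462 (T t2506 N)))))) N))))))))))))))) (K a166 (M a247 (L l94 (F (T t726 (L l462 (T t2506 (L l50 (L l347 (L l372 (L l462 (T t728 (L l50 (L l347 (T t2585 (K a80 (M a95 (F (L l368 (T t3932 (L l50 (L l347 (L l372 (L l462 (T t728 (L l50 (L l347 (T t2585 N)))))))))))) (K a95 (M a80 (F (T t726 (L l462 (T t2506 (L l50 (L l347 (L l372 (L l462 (T t728 (L l50 (L l347 (T t2585 N))))))))))))) N)))))))))))))))) (K a247 (M a166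 (L l94 (F (L l265 (T t2542 (L l368 (T t2515 (K a80 (M a95 (F (L l310 (T t2470 (L l462 (T t2506 N)))))) (K a95 (M a80 (F (T t726 (L l88 (L l91 (L l473 (T t3933 N))))))) N))))))))) (K a95 (M a80 (L l458 (F (T t726 (L l462 (T t2506 (L l50 (L l347 (L l372 (L l462 (T t728 (L l50 (L l347 (T t3934 (K a166 (M a247 (F (T t726 (L l462 (T t2506 (L l50 (L l347 (L l372 (L l462 (T t728 (L l50 (L l347 (T t2585 N))))))))))))) (K a247 (M a166 (F (T t726 (L l88 (L l91 (L l473 (T t3933 N))))))) N)))))))))))))))) N))))))))))))))))))) (K a8 (M a60 (L l94 (F (T t570 (L l347 (L l350 (T t67 (L l52 (L l56 (L l365 (T t448 (K a80 (M a95 (F (T t423 (L l56 (L l473 (T t69 (L l347 (L l350 (T t1096 N))))))))) (K a95 (M a80 (F (L l347 (T t68 (L l88 (L l133 (L l460 (T t3935 N)))))))) N))))))))))))) (K a21 (M a149 (L l94 (F (T t958 (L l130 (L l144 (T t648 (L l50 (L l91 (L l144 (L l458 (T t2471 (L l50 (L l91 (L l458 (T t2472 (K a80 (M a95 (F (T t650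 (L l130 (L l144 (T t648 (L l50 (L l91 (L l144 (L l458 (T t2471 (L l50 (L l91 (L l458 (T t2472 N))))))))))))))) (K a95 (M a80 (F (T t650 (L l89 (T t2526 N))))) N)))))))))))))))))) (K a25 (M a28 (L l94 (F (L l368 (T t2735 (L l375 (L l483 (T t2481 (L l12 (L l56 (L l350 (L l354 (L l372 (T t2482 (K a80 (M a95 (F (L l56 (T t2739 (L l90 (L l372 (T t3010 N))))))) (K a95 (M a80 (F (L l89 (T t2526 (L l361 (L l375 (T t2734 N))))))) N)))))))))))))))) (K a29 (M a15 (L l94 (F (L l462 (T t3936 (L l15 (L l347 (L l455 (T t731 (L l59 (L l368 (T t722 (K a80 (M a95 (F (L l462 (T t3936 (L l13 (L l375 (T t3937 N))))))) (K a95 (M a80 (F (L l89 (T t2526 (L l368 (T t723 N)))))) N)))))))))))))) (K a38 (M a15 (L l94 (F (T t2576 (L l50 (L l347 (L l455 (T t731 (L l455 (T t717 (K a80 (M a95 (F (L l462 (T t3936 (L l375 (T t3937 N)))))) (K a95 (M a80 (F (T t2576 (L l89 (T t2526 N))))) N)))))))))))) (K a42 (M a192 (L l94 (F (T t156 (L l347 (L l375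 (T t450 (L l26 (L l130 (L l144 (L l390 (L l458 (T t2473 (K a80 (M a95 (F (T t156 (L l347 (L l375 (T t467 (L l26 (L l130 (L l144 (L l390 (L l458 (T t2473 N)))))))))))) (K a95 (M a80 (F (L l89 (T t2526 (L l347 (L l375 (T t450 N))))))) N))))))))))))))) (K a46 (M a15 (L l94 (F (L l455 (T t717 (L l26 (L l462 (T t716 (L l23 (L l26 (L l368 (T t722 (K a80 (M a95 (F (L l462 (T t3936 (L l375 (T t3937 N)))))) (K a95 (M a80 (F (L l89 (T t2526 (L l23 (L l26 (L l368 (T t723 N)))))))) N)))))))))))))) (K a51 (M a28 (L l94 (F (T t2738 (L l30 (L l368 (T t2735 (L l350 (L l354 (L l372 (T t2482 (K a80 (M a95 (F (T t2739 (L l90 (L l372 (T t3010 N)))))) (K a95 (M a80 (F (T t2738 (L l89 (L l441 (T t2526 N)))))) N))))))))))))) (K a80 (M a95 (F (T t153 (L l347 (T t122 (L l365 (T t151 (L l347 (L l458 (T t152 (K a4 (M a14 (L l458 (F (L l368 (T t3932 (L l50 (L l347 (L l372 (L l462 (T t728 (L l50 (L l347 (T t2585 (K a166 (M a247 (F (L l368 (T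 t3932 (L l50 (L l347 (L l372 (L l462 (T t728 (L l50 (L l347 (T t2585 N)))))))))))) (K a247 (M a166 (F (L l310 (T t2470 (L l462 (T t2506 N)))))) N))))))))))))))) (K a8 (M a13 (F (L l90 (L l480 (T t3938 (L l56 (L l455 (T t3915 N)))))))) (K a21 (M a149 (F (T t650 (L l130 (L l144 (T t648 (L l50 (L l91 (L l144 (L l458 (T t2471 (L l50 (L l91 (L l458 (T t2472 N))))))))))))))) (K a25 (M a28 (F (L l56 (T t2739 (L l90 (L l372 (T t3010 N))))))) (K a29 (M a15 (F (L l462 (T t3936 (L l13 (L l375 (T t3937 N))))))) (K a38 (M a28 (F (L l29 (T t2739 (L l26 (L l90 (L l372 (T t3010 N)))))))) (K a42 (M a28 (F (L l22 (L l56 (T t2739 (L l26 (L l90 (L l372 (T t3010 N))))))))) (K a46 (M a15 (F (L l462 (T t3936 (L l375 (T t3937 N)))))) (K a51 (M a28 (F (T t2739 (L l90 (L l372 (T t3010 N)))))) N))))))))))))))))))) (K a95 (M a80 (F (T t153 (L l89 (T t2526 (L l89 (L l347 (L l465 (T t3939 (K a8 (M a192 (F (L l151 (L l483 (T t3940 (L l347 (L l375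 (T t450 N)))))))) N)))))))))) N))))))))))))))))))))))⟩
def e0_63__90_51 : Ent 4 := ⟨[a0, a63], [a90, a86], (M a12 (L l92 (F (T t122 (T t151 (T t152 (T t153 (K a4 (M a62 (L l92 (F (T t750 (L l50 (L l474 (L l477 (T t709 (L l50 (L l348 (L l372 (L l462 (T t710 (K a82 (M a94 (F (L l46 (L l50 (T t711 (L l372 (T t3342 N))))))) (K a94 (M a82 (F (T t750 (L l50 (L l348 (T t3343 N)))))) N))))))))))))))) (K a8 (M a62 (L l92 (F (T t711 (L l480 (L l483 (T t708 (L l2 (L l348 (L l372 (L l462 (T t710 (K a82 (M a94 (F (T t711 (L l372 (T t3342 N))))) (K a94 (M a82 (F (T t750 (L l348 (T t3343 N))))) N)))))))))))))) (K a21 (M a192 (L l92 (F (T t836 (L l15 (L l347 (L l351 (L l375 (T t450 (L l15 (L l347 (L l351 (L l375 (T t157 (K a82 (M a94 (F (T t468 (L l130 (L l142 (T t543 (L l15 (L l347 (L l351 (L l375 (T t157 N))))))))))) (K a94 (M a82 (F (T t468 (L l130 (L l142 (T t543 (L l15 (L l347 (L l351 (L l375 (T t157 N))))))))))) N))))))))))))))))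 (K a25 (M a28 (L l92 (F (T t2735 (L l375 (L l483 (T t2481 (L l12 (L l56 (L l354 (L l372 (T t2482 (K a82 (M a94 (F (T t2735 (L l369 (L l372 (T t3344 N)))))) (K a94 (M a82 (F (T t2735 (L l363 (L l375 (L l471 (L l483 (T t2481 (L l12 (L l56 (L l354 (L l360 (L l372 (T t2482 N)))))))))))))) N)))))))))))))) (K a29 (M a3 (L l92 (F (T t137 (L l459 (L l483 (T t761 (T t758 (K a82 (M a94 (F (T t137 (L l456 (L l465 (L l483 (T t757 (T t758 N)))))))) (K a94 (M a82 (F (T t137 (L l88 (L l459 (L l471 (T t3345 N))))))) N)))))))))) (K a38 (M a62 (L l92 (F (T t750 (L l50 (L l474 (L l477 (T t709 (L l48 (L l50 (L l348 (L l372 (L l462 (T t710 (K a82 (M a94 (F (L l50 (T t711 (L l372 (T t3342 N)))))) (K a94 (M a82 (F (T t750 (L l48 (L l50 (L l348 (T t3343 N))))))) N)))))))))))))))) (K a42 (M a192 (L l92 (F (T t449 (L l351 (L l375 (T t450 (L l56 (L l351 (L l375 (T t157 (K a82 (M a94 (F (T t836 (L l130 (L l142 (L l390 (T t543 (L l56 (L l351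 (L l375 (T t157 N))))))))))) (K a94 (M a82 (F (T t836 (L l130 (L l142 (L l390 (T t543 (L l56 (L l351 (L l375 (T t157 N))))))))))) N))))))))))))) (K a46 (M a3 (L l92 (F (L l351 (T t353 (L l459 (L l483 (T t761 (L l26 (T t758 (K a82 (M a94 (F (L l351 (T t353 (L l450 (L l456 (L l474 (L l483 (T t759 (L l26 (T t758 N))))))))))) (K a94 (M a82 (F (L l95 (T t3346 (L l26 (T t758 N)))))) N)))))))))))) (K a51 (M a62 (L l92 (F (T t711 (L l73 (L l480 (L l483 (T t708 (L l348 (L l372 (L l462 (T t710 (K a82 (M a94 (F (T t711 (L l372 (T t3342 N))))) (K a94 (M a82 (F (T t750 (L l348 (T t3343 N))))) N)))))))))))))) (K a82 (M a94 (F (T t122 (T t151 (T t152 (T t153 (K a4 (M a157 (F (T t3347 (L l369 (L l462 (T t3348 N)))))) (K a8 (M a252 (F (T t3349 (L l94 (T t3350 N))))) (K a21 (M a204 (F (T t3351 (L l18 (L l375 (L l483 (T t3352 N))))))) (K a25 (M a204 (F (T t3351 (L l375 (L l483 (T t3352 N)))))) (K a29 (M a16 (F (T t652 (L l354 (L l359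 (T t3353 N)))))) (K a38 (M a16 (F (L l21 (T t871 (L l26 (L l72 (L l354 (T t3353 N)))))))) (K a42 (M a204 (F (T t3351 (L l375 (L l483 (T t3352 N)))))) (K a46 (M a16 (F (T t871 (L l26 (L l354 (T t3353 N)))))) (K a51 (M a16 (F (T t652 (L l354 (T t3353 N))))) N))))))))))))))) (K a94 (M a82 (F (T t122 (T t151 (T t152 (T t153 (K a4 (M a2 (F (L l95 (T t3354 (L l1 (L l50 (L l348 (L l360 (L l372 (L l456 (T t3355 N))))))))))) (K a8 (M a2 (F (L l95 (T t3354 (L l348 (L l360 (L l372 (L l456 (T t3355 N))))))))) (K a21 (M a243 (F (L l474 (L l477 (T t3356 (L l88 (L l95 (T t3357 N)))))))) (K a25 (M a240 (F (L l465 (T t3358 (L l15 (L l351 (T t3359 N))))))) (K a29 (M a240 (F (T t3360 (L l88 (L l94 (L l459 (T t3361 N))))))) (K a38 (M a2 (F (L l95 (T t3354 (L l48 (L l50 (L l348 (L l360 (L l372 (T t3362 N)))))))))) (K a42 (M a243 (F (L l88 (L l95 (T t3363 (L l66 (L l474 (L l477 (T t3356 N))))))))) (K a46 (M a240 (F (L l480 (T t3364 (T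 t3365 N))))) (K a51 (M a240 (F (L l465 (T t3358 (L l39 (T t3360 N)))))) N))))))))))))))) N))))))))))))))))))⟩
def e0_63__90_52 : Ent 4 := ⟨[a0, a63], [a90, a87], (M a12 (F (T t122 (T t151 (T t152 (T t153 (K a4 (M a60 (F (T t570 (L l46 (L l50 (L l475 (T t67 (L l349 (T t448 N))))))))) (K a8 (M a60 (F (T t570 (L l475 (T t67 (L l52 (L l56 (L l349 (T t448 N))))))))) (K a21 (M a192 (F (T t836 (L l15 (L l347 (L l375 (T t450 (L l15 (L l347 (L l375 (L l457 (T t157 N)))))))))))) (K a25 (M a192 (F (T t449 (L l15 (L l375 (T t450 (L l143 (L l375 (L l475 (T t21 N)))))))))) (K a29 (M a192 (F (T t449 (L l143 (L l371 (L l375 (L l475 (T t21 (L l130 (T t160 N)))))))))) (K a38 (M a192 (F (T t836 (L l375 (T t450 (L l143 (L l375 (L l475 (T t21 N))))))))) (K a42 (M a192 (F (T t449 (L l375 (T t450 (L l56 (L l375 (L l457 (T t157 N))))))))) (K a46 (M a192 (F (T t449 (L l143 (L l375 (L l475 (T t21 (L l26 (L l130 (L l408 (T t160 N)))))))))))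 (K a51 (M a192 (F (T t1725 (L l375 (L l415 (T t450 (L l143 (L l375 (L l439 (L l475 (T t21 N))))))))))) N)))))))))))))))⟩
def e0_63__90_53 : Ent 4 := ⟨[a0, a63], [a90, a91], (M a60 (L l88 (F (T t67 (T t43 (T t68 (T t69 (K a20 (M a12 (L l88 (F (T t151 (L l480 (L l481 (L l483 (T t398 (L l11 (L l46 (T t399 (K a88 (M a89 (F (T t151 (L l373 (L l480 (T t3941 N)))))) (K a89 (M a88 (F (T t151 (L l132 (L l375 (T t3942 N)))))) N))))))))))))) (K a40 (M a12 (L l88 (F (T t122 (L l480 (L l481 (L l483 (T t398 (L l24 (T t399 (K a88 (M a89 (F (T t122 (L l24 (L l373 (L l480 (T t3941 N))))))) (K a89 (M a88 (F (T t152 (L l24 (L l132 (L l375 (L l388 (T t3942 N)))))))) N)))))))))))) (K a21 (M a192 (L l88 (F (T t72 (L l131 (L l347 (L l375 (T t73 (L l347 (L l375 (T t74 (K a88 (M a89 (F (L l128 (T t72 (L l15 (L l130 (L l478 (T t3943 N)))))))) (K a89 (M a88 (F (T t72 (L l130 (L l132 (T t1516 (L l347 (L l371 (L l375 (T t74 N)))))))))) N)))))))))))))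 (K a41 (M a8 (L l88 (F (T t454 (L l65 (T t414 (L l53 (L l65 (T t415 (K a88 (M a89 (F (L l65 (T t414 (L l94 (L l463 (T t3944 N))))))) (K a89 (M a88 (F (L l65 (T t414 (L l465 (T t3945 N)))))) N))))))))))) (K a61 (M a16 (L l88 (F (T t1140 (L l373 (L l375 (L l481 (L l483 (T t97 (L l59 (L l354 (T t1141 (K a88 (M a89 (F (T t112 (L l352 (L l372 (T t3946 N)))))) (K a89 (M a88 (F (T t112 (L l356 (T t3947 N))))) N)))))))))))))) (K a22 (M a16 (L l88 (F (T t2447 (L l66 (L l373 (L l375 (L l481 (L l483 (T t97 (L l16 (L l66 (L l354 (T t1141 (K a88 (M a89 (F (L l66 (T t112 (L l348 (L l352 (L l372 (T t3946 N)))))))) (K a89 (M a88 (F (L l66 (T t112 (L l356 (T t3947 N)))))) N)))))))))))))))) (K a42 (M a192 (L l88 (F (T t77 (L l131 (L l375 (T t73 (L l22 (L l375 (T t74 (K a88 (M a89 (F (L l370 (T t77 (L l26 (L l130 (L l390 (L l481 (T t3948 N))))))))) (K a89 (M a88 (F (T t79 (L l66 (L l130 (L l132 (L l390 (T t1516 (L l22 (L l371 (L l375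 (T t74 N)))))))))))) N)))))))))))) (K a62 (M a16 (L l88 (F (T t1140 (L l66 (L l373 (L l375 (L l481 (L l483 (T t97 (L l66 (L l354 (T t1141 (K a88 (M a89 (F (L l36 (L l66 (T t112 (L l352 (L l372 (L l516 (T t3946 N))))))))) (K a89 (M a88 (F (L l36 (L l66 (T t112 (L l356 (T t3947 N))))))) N))))))))))))))) (K a3 (M a16 (L l88 (F (T t112 (L l9 (T t1140 (L l354 (T t1141 (K a88 (M a89 (F (T t112 (L l352 (L l372 (T t3946 N)))))) (K a89 (M a88 (F (T t112 (L l356 (T t3947 N))))) N)))))))))) (K a88 (M a89 (F (T t67 (T t43 (T t68 (T t69 (K a20 (M a8 (F (L l46 (T t3949 (L l94 (L l350 (L l463 (T t3950 N)))))))) (K a40 (M a12 (F (T t122 (L l24 (L l373 (L l480 (T t3941 N))))))) (K a21 (M a192 (F (L l128 (T t72 (L l15 (L l130 (L l478 (T t3943 N)))))))) (K a41 (M a192 (F (L l370 (T t77 (L l130 (L l481 (T t3948 N))))))) (K a61 (M a192 (F (L l128 (T t72 (L l59 (L l130 (L l478 (T t3943 N)))))))) (K a22 (M a192 (F (L l128 (T t72 (L l130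 (L l478 (T t3943 N))))))) (K a42 (M a192 (F (L l370 (T t77 (L l26 (L l130 (L l390 (L l481 (T t3948 N))))))))) (K a62 (M a192 (F (L l128 (T t72 (L l130 (L l478 (L l516 (T t3943 N)))))))) (K a3 (M a192 (F (L l370 (T t1334 (L l130 (L l451 (L l481 (T t3948 N)))))))) N))))))))))))))) (K a89 (M a88 (F (T t67 (T t43 (T t68 (T t69 (K a20 (M a192 (F (L l371 (L l375 (T t21 (L l14 (L l133 (L l346 (L l374 (T t3951 N)))))))))) (K a40 (M a192 (F (L l371 (L l375 (T t21 (L l133 (L l374 (T t3951 N)))))))) (K a21 (M a80 (F (L l95 (T t3952 (L l131 (L l132 (L l481 (L l482 (T t2977 N))))))))) (K a41 (M a240 (F (L l465 (T t3953 (L l65 (L l131 (L l132 (T t3954 N)))))))) (K a61 (M a16 (F (T t112 (L l356 (T t3947 N))))) (K a22 (M a16 (F (L l66 (T t112 (L l356 (T t3947 N)))))) (K a42 (M a240 (F (L l95 (T t3955 (L l131 (L l132 (T t3954 N))))))) (K a62 (M a16 (F (L l36 (L l66 (T t112 (L l356 (T t3947 N))))))) (K a3 (M a16 (F (T t112 (L l356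 (T t3947 N))))) N))))))))))))))) N))))))))))))))))))⟩
def e0_63__90_54 : Ent 4 := ⟨[a0, a63], [a90, a95], (M a12 (L l94 (F (T t122 (T t151 (T t152 (T t153 (K a4 (M a85 (F (T t88 (L l89 (L l137 (L l462 (T t124 (L l89 (T t154 N))))))))) (K a8 (M a85 (F (L l56 (T t88 (L l89 (L l137 (L l462 (L l464 (T t124 (L l56 (L l89 (T t154 N)))))))))))) (K a21 (M a85 (F (T t1601 (L l15 (L l137 (T t574 (L l89 (L l137 (L l462 (T t124 N)))))))))) (K a25 (M a85 (F (L l462 (T t1370 (L l15 (L l137 (L l469 (T t52 (L l15 (L l56 (L l137 (T t574 N)))))))))))) (K a29 (M a85 (F (T t88 (L l469 (T t1368 (T t572 N)))))) (K a38 (M a85 (F (T t1601 (L l26 (T t88 (L l137 (T t574 N))))))) (K a42 (M a85 (F (L l56 (T t1601 (L l89 (L l137 (L l390 (L l462 (T t124 (L l56 (L l137 (T t574 N)))))))))))) (K a46 (M a85 (F (T t1601 (L l26 (T t88 (L l26 (T t572 N))))))) (K a51 (M a85 (F (T t3956 (L l89 (T t154 (L l489 (T t88 N))))))) (K a80 (M a85 (F (T t151 (L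 l116 (T t88 (L l86 (L l88 (T t123 N)))))))) (K a85 (M a80 (F (T t153 (L l89 (T t2526 (L l89 (L l347 (L l465 (T t3939 (K a8 (M a192 (F (L l151 (L l483 (T t3957 (L l347 (L l375 (T t467 N)))))))) N)))))))))) N))))))))))))))))))⟩
def e0_63__90_55 : Ent 4 := ⟨[a0, a63], [a90, a96], (M a12 (F (T t122 (T t151 (T t152 (T t153 (K a4 (M a60 (F (T t43 (L l480 (L l483 (T t398 (T t448 N))))))) (K a8 (M a60 (F (T t67 (L l480 (L l483 (T t398 (L l52 (L l56 (T t448 N))))))))) (K a21 (M a192 (F (T t468 (L l15 (L l347 (L l375 (T t450 (L l15 (L l347 (L l375 (T t157 N))))))))))) (K a25 (M a192 (F (T t449 (L l15 (L l375 (T t450 (L l375 (T t21 N)))))))) (K a29 (M a192 (F (T t449 (L l371 (L l375 (T t21 (L l104 (L l130 (T t160 N))))))))) (K a38 (M a192 (F (T t468 (L l375 (T t450 (L l375 (T t21 N))))))) (K a42 (M a192 (F (T t449 (L l375 (T t450 (L l56 (L l375 (T t157 N)))))))) (K a46 (M a192 (F (T t449 (L l375 (T t21 (L l26 (L l104 (L l130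 (L l408 (T t160 N)))))))))) (K a51 (M a192 (F (T t496 (L l375 (L l415 (T t450 (L l375 (L l439 (T t21 N))))))))) N)))))))))))))))⟩
def e0_63__90_56 : Ent 4 := ⟨[a0, a63], [a90, a97], (M a12 (F (T t122 (T t151 (T t152 (T t153 (K a4 (M a60 (F (T t43 (L l480 (L l483 (T t398 (T t448 N))))))) (K a8 (M a60 (F (T t67 (L l480 (L l483 (T t398 (L l52 (L l56 (T t448 N))))))))) (K a21 (M a192 (F (T t836 (L l15 (L l347 (L l375 (T t450 (L l15 (L l347 (L l375 (T t157 N))))))))))) (K a25 (M a192 (F (T t449 (L l15 (L l375 (T t450 (L l375 (T t21 N)))))))) (K a29 (M a192 (F (T t449 (L l371 (L l375 (T t21 (L l130 (T t160 N)))))))) (K a38 (M a192 (F (T t156 (L l375 (T t450 (L l375 (T t21 N))))))) (K a42 (M a192 (F (T t449 (L l375 (T t450 (L l56 (L l375 (T t157 N)))))))) (K a46 (M a192 (F (T t449 (L l375 (T t21 (L l26 (L l130 (L l408 (T t160 N))))))))) (K a51 (M a192 (F (T t1725 (L l375 (L l415 (T t450 (L l375 (L l439 (T t21 N)))))))))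 N)))))))))))))))⟩
def e0_63__90_57 : Ent 4 := ⟨[a0, a63], [a90, a98], (M a60 (F (T t67 (T t43 (T t68 (T t69 (K a20 (M a48 (F (T t138 (L l11 (L l462 (L l483 (T t1 (L l11 (T t235 N))))))))) (K a40 (M a48 (F (T t246 (L l462 (L l483 (T t1 (L l52 (T t235 N)))))))) (K a21 (M a192 (F (T t72 (L l347 (L l375 (T t73 (L l347 (L l375 (T t74 N))))))))) (K a41 (M a192 (F (T t77 (L l65 (L l375 (T t35 (L l375 (T t73 N)))))))) (K a61 (M a192 (F (T t72 (L l65 (L l375 (L l515 (T t35 (L l102 (L l130 (T t80 N)))))))))) (K a22 (M a192 (F (T t72 (L l375 (T t21 (L l375 (T t73 N))))))) (K a42 (M a192 (F (T t77 (L l375 (T t73 (L l22 (L l375 (T t74 N)))))))) (K a62 (M a192 (F (T t72 (L l375 (T t35 (L l66 (L l102 (L l130 (L l516 (T t80 N)))))))))) (K a3 (M a192 (F (T t254 (L l375 (L l475 (T t35 (L l307 (L l375 (T t73 N))))))))) N)))))))))))))))⟩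
def e0_63__90_58 : Ent 4 := ⟨[a0, a63], [a90, a99], (M a60 (F (T t67 (T t43 (T t68 (T t69 (K a20 (M a48 (F (T t138 (L l11 (L l462 (L l483 (T t1 (L l11 (T t235 N))))))))) (K a40 (M a48 (F (T t246 (L l462 (L l483 (T t1 (L l52 (T t235 N)))))))) (K a21 (M a192 (F (T t72 (L l103 (L l347 (L l375 (L l487 (T t73 (L l347 (L l375 (T t74 N))))))))))) (K a41 (M a192 (F (T t79 (L l65 (L l375 (T t35 (L l103 (L l375 (L l487 (T t73 N)))))))))) (K a61 (M a192 (F (T t72 (L l65 (L l375 (L l515 (T t35 (L l130 (T t80 N))))))))) (K a22 (M a192 (F (T t72 (L l375 (T t21 (L l103 (L l375 (L l487 (T t73 N))))))))) (K a42 (M a192 (F (T t77 (L l103 (L l375 (L l487 (T t73 (L l22 (L l375 (T t74 N)))))))))) (K a62 (M a192 (F (T t72 (L l375 (T t35 (L l66 (L l130 (L l516 (T t80 N))))))))) (K a3 (M a192 (F (T t2658 (L l375 (L l475 (T t35 (L l103 (L l307 (L l375 (L l487 (T t73 N))))))))))) N)))))))))))))))⟩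
def e0_63__90_59 : Ent 4 := ⟨[a0, a63], [a90, a101], (M a60 (L l151 (F (T t67 (T t43 (T t68 (T t69 (K a20 (M a48 (L l151 (F (T t451 (L l11 (L l462 (L l483 (L l491 (T t1 (L l11 (T t235 (K a112 (M a79 (F (T t451 (L l483 (T t2 (L l11 (L l14 (T t1419 N)))))))) (K a79 (M a112 (F (T t451 (L l84 (T t2925 N))))) N))))))))))))) (K a40 (M a48 (L l151 (F (L l491 (T t64 (L l22 (L l483 (T t2 (L l52 (T t235 (K a112 (M a79 (F (L l52 (T t451 (L l22 (L l483 (T t2 (L l52 (T t1419 N))))))))) (K a79 (M a112 (F (L l139 (T t2921 (L l22 (L l24 (L l404 (T t132 N)))))))) N)))))))))))) (K a21 (M a192 (L l151 (F (T t72 (L l347 (L l375 (L l491 (T t73 (L l347 (L l375 (L l491 (T t74 (K a112 (M a79 (F (T t72 (L l104 (L l130 (T t1516 (L l11 (L l104 (L l116 (L l130 (T t78 N))))))))))) (K a79 (M a112 (F (T t72 (L l65 (L l347 (L l375 (L l491 (T t569 (L l11 (L l104 (L l130 (T t1541 N)))))))))))) N)))))))))))))) (K a41 (M a48 (L l151 (F (L l509 (T t70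 (L l22 (L l483 (T t2 (L l22 (L l57 (T t247 (K a112 (M a79 (F (L l29 (T t880 (L l57 (T t451 (L l22 (L l483 (T t2 N))))))))) (K a79 (M a112 (F (L l57 (T t451 (L l84 (T t2925 N)))))) N))))))))))))) (K a61 (M a16 (L l151 (F (L l404 (T t1140 (L l375 (L l404 (L l483 (T t97 (L l59 (L l354 (T t1141 (K a112 (M a79 (F (L l404 (T t1140 (L l375 (L l404 (L l483 (T t97 (L l59 (L l354 (T t1141 N))))))))))) (K a79 (M a112 (F (L l84 (L l404 (T t2974 (L l59 (L l354 (T t1141 N)))))))) N)))))))))))))) (K a22 (M a16 (L l151 (F (L l404 (T t2447 (L l66 (L l375 (L l404 (L l483 (T t97 (L l16 (L l66 (L l354 (T t1141 (K a112 (M a79 (F (L l404 (T t2447 (L l66 (L l375 (L l404 (L l483 (T t97 (L l16 (L l66 (L l354 (T t1141 N))))))))))))) (K a79 (M a112 (F (L l84 (L l404 (T t2974 (L l16 (L l66 (L l354 (T t1141 N))))))))) N)))))))))))))))) (K a42 (M a192 (L l151 (F (T t77 (L l375 (L l491 (T t73 (L l22 (L l375 (L l491 (T t74 (K a112 (M a79 (F (T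 t79 (L l66 (L l104 (L l130 (L l390 (T t1516 (L l104 (L l116 (L l130 (L l390 (T t78 N))))))))))))) (K a79 (M a112 (F (T t79 (L l375 (L l491 (T t569 (L l66 (L l104 (L l130 (L l390 (T t1541 N))))))))))) N))))))))))))) (K a62 (M a16 (L l151 (F (L l404 (T t1140 (L l66 (L l375 (L l404 (L l483 (T t97 (L l66 (L l354 (T t1141 (K a112 (M a79 (F (L l404 (T t1140 (L l66 (L l375 (L l404 (L l483 (T t97 (L l66 (L l354 (T t1141 N)))))))))))) (K a79 (M a112 (F (L l84 (L l404 (T t2974 (L l66 (L l354 (T t1141 N)))))))) N))))))))))))))) (K a3 (M a16 (L l151 (F (L l404 (T t112 (L l9 (L l404 (T t1140 (L l354 (T t1141 (K a112 (M a79 (F (L l404 (T t112 (L l9 (L l404 (T t1140 (L l354 (T t1141 N))))))))) (K a79 (M a112 (F (L l84 (L l404 (T t2974 (L l354 (T t1141 N))))))) N)))))))))))) (K a112 (M a79 (F (T t67 (T t43 (T t68 (T t69 (K a20 (M a124 (F (T t3958 (L l92 (L l130 (L l346 (T t3959 N))))))) (K a40 (M a124 (F (T t3958 (L l92 (L l130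 (T t3959 N)))))) (K a21 (M a64 (F (L l110 (T t465 (L l94 (L l130 (T t3960 N))))))) (K a41 (M a64 (F (T t2980 (L l94 (L l130 (T t3960 N)))))) (K a61 (M a64 (F (T t2980 (L l94 (L l130 (T t3960 N)))))) (K a22 (M a64 (F (L l110 (T t465 (L l94 (L l130 (T t3960 N))))))) (K a42 (M a64 (F (T t2980 (L l94 (L l130 (T t3960 N)))))) (K a62 (M a64 (F (T t2980 (L l94 (L l130 (T t3960 N)))))) (K a3 (M a64 (F (T t2980 (L l94 (L l130 (T t3960 N)))))) N))))))))))))))) (K a79 (M a112 (F (T t67 (T t43 (T t68 (T t69 (K a20 (M a80 (F (T t2977 (L l104 (L l137 (L l375 (L l491 (T t2978 N)))))))) (K a40 (M a80 (F (T t2977 (L l104 (L l137 (L l375 (L l491 (T t2978 N)))))))) (K a21 (M a64 (F (L l139 (T t465 (L l104 (L l123 (T t2979 N))))))) (K a41 (M a64 (F (T t2980 (L l104 (L l123 (T t2979 N)))))) (K a61 (M a64 (F (T t2980 (L l104 (L l123 (L l443 (T t2979 N))))))) (K a22 (M a64 (F (L l139 (T t465 (L l104 (L l123 (T t2979 N))))))) (K a42 (M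 a64 (F (T t2980 (L l104 (L l123 (T t2979 N)))))) (K a62 (M a64 (F (T t2980 (L l104 (L l123 (T t2979 N)))))) (K a3 (M a64 (F (T t2980 (L l104 (L l123 (T t2979 N)))))) N))))))))))))))) N))))))))))))))))))⟩
def e0_63__90_60 : Ent 4 := ⟨[a0, a63], [a90, a102], (M a60 (L l148 (F (T t67 (T t43 (T t68 (T t69 (K a20 (M a51 (L l148 (F (L l11 (T t589 (L l46 (T t1356 (L l11 (T t1357 (K a114 (M a78 (F (L l11 (T t589 (L l492 (T t3961 (L l11 (T t1357 N)))))))) (K a78 (M a114 (F (L l136 (T t3962 (L l11 (T t1357 N)))))) N))))))))))) (K a40 (M a51 (L l148 (F (T t589 (T t1356 (T t1357 (K a114 (M a78 (F (T t589 (L l492 (T t3961 (T t1357 N)))))) (K a78 (M a114 (F (T t589 (L l130 (L l133 (T t3963 N)))))) N)))))))) (K a21 (M a192 (L l148 (F (T t72 (L l347 (L l375 (L l495 (T t73 (L l347 (L l375 (L l495 (T t74 (K a114 (M a78 (F (T t77 (L l65 (L l347 (L l375 (L l495 (T t569 (L l347 (L l375 (L l495 (T t74 N)))))))))))) (K a78 (M a114 (F (T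 t77 (L l65 (L l347 (L l375 (L l495 (T t569 (L l347 (L l375 (L l495 (T t74 N)))))))))))) N)))))))))))))) (K a41 (M a51 (L l148 (F (L l492 (T t3961 (L l22 (L l402 (T t1294 (L l53 (L l65 (T t1357 (K a114 (M a78 (F (L l22 (T t1296 (L l492 (T t3961 (L l53 (L l65 (T t1357 N))))))))) (K a78 (M a114 (F (L l136 (T t3962 (L l53 (L l65 (T t1357 N))))))) N))))))))))))) (K a61 (M a192 (L l148 (F (T t72 (L l65 (L l375 (L l495 (L l515 (T t35 (L l102 (L l130 (T t80 (K a114 (M a78 (F (T t79 (L l375 (L l495 (L l515 (T t21 (L l102 (L l130 (T t80 N)))))))))) (K a78 (M a114 (F (T t79 (L l375 (L l495 (L l515 (T t21 (L l102 (L l130 (T t80 N)))))))))) N)))))))))))))) (K a22 (M a51 (L l148 (F (L l11 (T t589 (L l51 (T t1356 (L l48 (L l66 (L l402 (L l492 (T t3964 (K a114 (M a78 (F (L l11 (T t589 (L l414 (L l510 (T t3965 (L l48 (L l66 (L l402 (L l492 (T t3964 N)))))))))))) (K a78 (M a114 (F (L l136 (T t3962 (L l48 (L l66 (L l402 (L l492 (T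 t3964 N))))))))) N)))))))))))))) (K a42 (M a192 (L l148 (F (T t77 (L l375 (L l495 (T t73 (L l22 (L l375 (L l495 (T t74 (K a114 (M a78 (F (T t79 (L l375 (L l495 (T t569 (L l22 (L l375 (L l495 (T t74 N)))))))))) (K a78 (M a114 (F (T t79 (L l375 (L l495 (T t569 (L l22 (L l375 (L l495 (T t74 N)))))))))) N))))))))))))) (K a62 (M a192 (L l148 (F (T t72 (L l375 (L l495 (T t35 (L l66 (L l102 (L l130 (L l516 (T t80 (K a114 (M a78 (F (T t79 (L l375 (L l495 (T t21 (L l66 (L l102 (L l130 (L l516 (T t80 N))))))))))) (K a78 (M a114 (F (T t79 (L l375 (L l495 (T t21 (L l66 (L l102 (L l130 (L l516 (T t80 N))))))))))) N)))))))))))))) (K a3 (M a51 (L l148 (F (T t3966 (L l9 (L l402 (T t1294 (L l9 (T t1357 (K a114 (M a78 (F (T t3966 (L l9 (L l402 (T t1294 (L l9 (T t1357 N)))))))) (K a78 (M a114 (F (L l9 (T t1296 (L l130 (L l133 (L l451 (T t3963 N)))))))) N))))))))))) (K a114 (M a78 (F (T t67 (T t43 (T t68 (T t69 (K a20 (M a204 (F (T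 t3967 (L l11 (L l375 (T t736 N)))))) (K a40 (M a204 (F (T t3967 (L l24 (L l375 (T t736 N)))))) (K a21 (M a46 (F (L l15 (T t3968 (L l65 (L l372 (L l402 (T t3969 N)))))))) (K a41 (M a204 (F (T t3967 (L l22 (T t740 N))))) (K a61 (M a47 (F (L l375 (L l405 (L l503 (T t3970 (L l59 (L l65 (T t3971 N))))))))) (K a22 (M a204 (F (T t3967 (L l11 (L l375 (T t736 N)))))) (K a42 (M a46 (F (T t2558 (L l372 (L l402 (T t3969 N)))))) (K a62 (M a47 (F (L l375 (L l405 (T t3970 (T t3971 N)))))) (K a3 (M a204 (F (T t3972 (L l45 (L l375 (T t736 N)))))) N))))))))))))))) (K a78 (M a114 (F (T t67 (T t43 (T t68 (T t69 (K a20 (M a240 (F (T t3973 (L l11 (L l495 (T t3974 N)))))) (K a40 (M a240 (F (T t3973 (L l52 (L l495 (T t3974 N)))))) (K a21 (M a126 (F (T t3975 (L l65 (L l124 (L l480 (T t3976 N))))))) (K a41 (M a240 (F (T t3973 (L l22 (T t3977 N))))) (K a61 (M a59 (F (L l443 (L l465 (L l495 (T t3978 (L l35 (L l65 (T t3979 N))))))))) (K a22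 (M a240 (F (T t3973 (L l11 (L l495 (T t3974 N)))))) (K a42 (M a58 (F (T t2374 (L l462 (L l492 (T t3980 N)))))) (K a62 (M a59 (F (L l465 (L l495 (T t3978 (T t3979 N)))))) (K a3 (M a240 (F (T t3954 (L l9 (L l495 (T t3974 N)))))) N))))))))))))))) N))))))))))))))))))⟩
def e0_63__90_61 : Ent 4 := ⟨[a0, a63], [a90, a103], (M a60 (F (T t67 (T t43 (T t68 (T t69 (K a20 (M a48 (F (T t138 (L l11 (L l462 (L l483 (T t1 (L l11 (T t235 N))))))))) (K a40 (M a48 (F (T t246 (L l462 (L l483 (T t1 (L l52 (T t235 N)))))))) (K a21 (M a192 (F (T t72 (L l103 (L l347 (L l375 (T t73 (L l347 (L l375 (T t74 N)))))))))) (K a41 (M a192 (F (T t79 (L l65 (L l375 (T t35 (L l103 (L l375 (T t73 N))))))))) (K a61 (M a192 (F (T t72 (L l65 (L l375 (L l515 (T t35 (L l130 (L l493 (T t80 N)))))))))) (K a22 (M a192 (F (T t72 (L l375 (T t21 (L l103 (L l375 (T t73 N)))))))) (K a42 (M a192 (F (T t77 (L l103 (L l375 (T t73 (L l22 (L l375 (T t74 N))))))))) (K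 a62 (M a192 (F (T t72 (L l375 (T t35 (L l66 (L l130 (L l493 (L l516 (T t80 N)))))))))) (K a3 (M a192 (F (T t2658 (L l375 (L l475 (T t35 (L l103 (L l307 (L l375 (T t73 N)))))))))) N)))))))))))))))⟩
def e0_63__90_62 : Ent 4 := ⟨[a0, a63], [a90, a106], (M a12 (L l130 (F (T t122 (L l390 (L l408 (T t151 (L l501 (T t152 (L l390 (T t153 (K a4 (M a28 (L l130 (F (L l50 (T t2480 (L l375 (L l408 (L l483 (T t2481 (L l46 (L l354 (L l372 (L l390 (L l408 (T t2482 (L l390 (L l408 (T t2483 (K a74 (M a122 (F (L l50 (T t2480 (L l339 (L l375 (L l454 (T t2484 (L l46 (L l354 (L l372 (L l390 (L l408 (T t2482 N)))))))))))))) (K a122 (M a74 (F (L l50 (T t2480 (L l375 (L l408 (L l483 (T t2481 (L l46 (L l354 (L l372 (L l390 (L l408 (T t2482 (L l390 (T t3981 N)))))))))))))))) N)))))))))))))))))))) (K a8 (M a28 (L l130 (F (T t2480 (L l375 (L l408 (L l483 (T t2481 (L l56 (L l354 (L l372 (L l390 (L l408 (T t2482 (L l56 (L l390 (L l408 (T t2483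 (K a74 (M a122 (F (T t2480 (L l339 (L l375 (T t2484 (L l56 (L l354 (L l372 (L l390 (L l408 (T t2482 N)))))))))))) (K a122 (M a74 (F (T t2480 (L l375 (L l408 (L l483 (T t2481 (L l56 (L l354 (L l372 (L l390 (L l408 (T t2482 (L l52 (L l56 (L l390 (T t3981 N))))))))))))))))) N)))))))))))))))))))) (K a21 (M a255 (L l130 (F (T t2486 (L l390 (L l462 (T t2137 (L l50 (L l94 (L l144 (L l347 (L l408 (T t2487 (K a74 (M a122 (F (T t2486 (L l50 (L l465 (T t2495 N)))))) (K a122 (M a74 (F (T t2486 (L l390 (L l462 (T t2137 (L l50 (L l94 (L l144 (L l347 (L l408 (T t2487 N)))))))))))) N))))))))))))))) (K a25 (M a16 (L l130 (F (T t652 (L l56 (L l375 (L l390 (L l483 (T t97 (L l12 (L l56 (L l354 (L l372 (L l390 (L l408 (T t2243 (L l372 (L l408 (T t2490 (K a74 (M a122 (F (T t652 (L l144 (L l462 (T t2491 (L l465 (T t2495 N)))))))) (K a122 (M a74 (F (T t652 (L l56 (L l375 (L l390 (L l483 (T t97 (L l12 (L l56 (L l354 (L l372 (L l390 (L l408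 (T t2243 (L l372 (L l408 (T t2490 N)))))))))))))))))) N))))))))))))))))))))) (K a29 (M a48 (L l130 (F (T t550 (L l15 (L l462 (L l483 (T t1 (L l390 (L l498 (T t866 (K a74 (M a122 (F (T t550 (L l144 (L l462 (T t3982 N)))))) (K a122 (M a74 (F (T t550 (L l390 (L l426 (L l483 (L l498 (T t2 (L l390 (L l426 (L l498 (T t866 N)))))))))))) N))))))))))))) (K a38 (M a32 (L l130 (F (T t682 (L l50 (L l411 (L l483 (T t219 (L l21 (L l50 (T t2493 (T t2494 (K a74 (M a122 (F (T t682 (L l462 (L l483 (T t3983 (T t2478 N))))))) (K a122 (M a74 (F (T t682 (L l50 (L l411 (L l483 (T t219 (L l21 (L l50 (T t2493 (T t2494 N))))))))))) N)))))))))))))) (K a42 (M a170 (L l130 (F (T t2497 (L l94 (L l144 (T t2498 (L l26 (L l132 (L l144 (L l408 (T t2499 (L l26 (L l408 (T t2500 (K a74 (M a122 (F (T t2501 (L l54 (L l94 (L l144 (L l151 (L l498 (T t3984 (T t2478 N)))))))))) (K a122 (M a74 (F (T t2501 (L l94 (L l144 (T t2498 (L l26 (L l132 (L l144 (L l408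 (T t2499 (L l26 (L l408 (T t2500 N)))))))))))))) N))))))))))))))))) (K a46 (M a14 (L l130 (L l408 (F (T t727 (L l26 (L l375 (L l390 (T t2505 (L l26 (L l390 (L l462 (T t2506 (K a226 (M a166 (L l130 (F (L l272 (T t2529 (L l375 (T t2513 (K a74 (M a122 (F (T t727 (L l88 (L l132 (L l133 (T t3985 N))))))) (K a122 (M a74 (F (T t727 (L l88 (L l132 (L l270 (L l444 (L l516 (T t3986 N))))))))) N))))))))) (K a166 (M a226 (L l130 (F (T t727 (L l23 (L l26 (L l390 (L l411 (T t2515 (L l458 (L l465 (L l498 (L l501 (T t2511 (L l23 (L l26 (L l390 (L l411 (T t3987 (K a74 (M a122 (F (L l375 (T t2513 (L l88 (L l94 (L l181 (T t2488 N)))))))) (K a122 (M a74 (F (L l516 (T t730 (L l375 (T t2513 N)))))) N))))))))))))))))))))) (K a74 (M a122 (L l408 (F (T t2478 (L l23 (L l26 (L l390 (L l411 (T t2515 (K a226 (M a166 (F (T t727 (L l88 (L l132 (L l133 (T t3985 N))))))) (K a166 (M a226 (F (L l375 (T t2513 (L l88 (L l94 (L l181 (T t2488 N))))))))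 N))))))))))) (K a122 (M a74 (L l408 (F (T t727 (L l516 (T t3988 (L l516 (T t3989 (K a226 (M a166 (F (T t727 (L l88 (L l132 (L l270 (L l444 (L l516 (T t3986 N))))))))) (K a166 (M a226 (F (L l516 (T t730 (L l375 (T t2513 N)))))) N)))))))))) N))))))))))))))))) (K a51 (M a16 (L l130 (F (T t2517 (L l73 (L l375 (L l390 (L l483 (T t97 (L l354 (L l372 (L l390 (L l408 (T t872 (K a74 (M a122 (F (T t2518 (L l375 (L l390 (L l498 (T t504 N))))))) (K a122 (M a74 (F (T t2517 (L l73 (L l375 (L l390 (L l483 (T t97 (L l354 (L l372 (L l390 (L l408 (T t872 N))))))))))))) N)))))))))))))))) (K a74 (M a122 (F (T t122 (T t2478 (K a4 (M a16 (F (L l144 (T t2519 (L l354 (L l372 (L l390 (L l408 (T t2243 (L l339 (L l375 (T t2520 N)))))))))))) (K a8 (M a16 (F (L l462 (T t2521 (L l372 (L l408 (T t2490 (L l56 (L l354 (L l372 (L l390 (L l408 (T t2243 N))))))))))))) N)))))) (K a122 (M a74 (F (T t122 (L l390 (L l408 (T t151 (L l429 (L l501 (T t152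 (L l390 (T t153 (K a4 (M a192 (F (L l375 (T t3990 (L l133 (L l151 (L l310 (T t3991 N)))))))) (K a8 (M a192 (F (L l516 (T t744 (L l144 (L l483 (T t3992 (L l133 (L l151 (T t3991 N)))))))))) (K a21 (M a64 (F (T t1488 (L l151 (L l483 (T t3993 (L l151 (T t747 N)))))))) (K a25 (M a64 (F (T t1488 (L l151 (L l483 (T t3993 (L l151 (T t747 N)))))))) (K a29 (M a64 (F (T t1488 (L l151 (L l483 (T t3993 (L l151 (T t747 N)))))))) (K a38 (M a64 (F (T t1488 (L l151 (L l483 (T t3993 (L l151 (T t747 N)))))))) (K a42 (M a64 (L l390 (F (T t1488 (L l151 (L l483 (T t3993 (L l151 (T t747 (K a170 (M a234 (L l462 (F (L l220 (T t1488 (L l151 (L l498 (T t3994 (L l56 (L l151 (L l464 (T t745 (K a10 (M a250 (L l54 (F (L l220 (T t1488 (L l2 (L l56 (L l151 (L l206 (L l464 (T t3995 (L l151 (L l206 (L l220 (L l498 (T t3996 (K a26 (M a58 (L l354 (F (L l220 (T t3997 (L l57 (T t3884 (K a154 (Fr a218 a202 l282 (V t1488)) (K a218 (M a154 (F (L l220 (T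 t1488 (L l12 (L l303 (T t3998 N))))))) N))))))))) (K a58 (M a26 (L l498 (F (L l220 (T t1488 (L l2 (L l56 (L l151 (L l464 (T t745 (L l151 (L l206 (L l220 (L l483 (T t3993 (K a202 (M a154 (F (L l220 (T t1488 (L l2 (L l56 (L l151 (L l464 (T t3995 (L l6 (L l132 (L l220 (L l480 (L l483 (T t3999 N))))))))))))))) (K a154 (Fr a202 a218 l282 (V t4000)) N))))))))))))))))) N)))))))))))))))))) (K a250 (M a10 (L l426 (F (T t4001 (L l151 (T t4002 (K a58 (M a186 (L l498 (F (T t4001 (L l151 (T t4002 (K a202 (M a154 (F (T t4001 (L l56 (L l151 (L l464 (T t745 N))))))) (K a154 (Fr a202 a138 l318 (V t4003)) N)))))))) (K a186 (M a58 (L l206 (F (T t4004 (T t4001 (K a138 (M a154 (F (T t4001 (L l428 (T t3884 N))))) (K a154 (Fr a138 a202 l318 (V t4005)) N))))))) N)))))))) N)))))))))))))) (K a234 (M a170 (F (L l296 (L l375 (T t4006 (L l56 (L l151 (T t3995 N)))))))) N))))))))))) (K a46 (M a64 (L l408 (F (T t1488 (L l151 (L l483 (T t3993 (L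 l151 (T t747 (K a226 (M a166 (F (L l151 (T t4007 (L l88 (L l132 (T t2540 N))))))) (K a166 (M a226 (L l480 (F (L l202 (T t1488 (L l151 (T t4007 (L l151 (T t745 (K a242 (M a14 (L l444 (F (L l202 (T t1488 (L l23 (L l26 (L l390 (L l411 (T t2515 (K a182 (M a62 (L l200 (F (T t4008 (L l450 (T t709 (K a134 (M a150 (F (T t4009 (L l151 (L l158 (L l498 (T t3996 N))))))) (K a150 (Fr a134 a194 l336 (V t4010)) N)))))))) (K a62 (M a182 (L l516 (F (L l202 (T t1488 (L l26 (L l66 (L l390 (L l462 (T t2506 (K a194 (M a150 (F (L l202 (T t1488 (L l26 (L l66 (L l390 (L l462 (T t2506 N))))))))) (K a150 (Fr a194 a134 l336 (V t3993)) N)))))))))))) N)))))))))))) (K a14 (M a242 (L l60 (F (L l151 (T t4007 (L l202 (T t1488 (L l151 (L l224 (L l324 (T t747 (K a30 (M a62 (L l372 (F (T t4011 (L l6 (T t709 (K a210 (M a150 (F (L l202 (T t1488 (L l6 (T t709 N)))))) (K a150 (Fr a210 a194 l270 (V t3993)) N)))))))) (K a62 (M a30 (L l516 (F (L l151 (T t4007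 (L l202 (T t1488 (L l151 (T t3995 (K a194 (M a150 (F (L l151 (T t4007 (L l202 (T t1488 (L l151 (L l224 (L l324 (T t4012 N)))))))))) (K a150 (Fr a194 a210 l270 (V t3996)) N))))))))))) N))))))))))))) N))))))))))) N))))))))))) (K a51 (M a64 (F (T t4013 (L l73 (L l151 (L l483 (T t3993 (L l151 (L l487 (T t747 N)))))))))) N)))))))))))))))))))) N))))))))))))))))))))))⟩
def e0_63__90_63 : Ent 4 := ⟨[a0, a63], [a90, a107], (M a12 (F (T t122 (T t151 (L l499 (T t152 (T t153 (K a4 (M a60 (F (T t43 (L l480 (L l483 (T t398 (T t448 N))))))) (K a8 (M a60 (F (T t68 (L l480 (L l483 (T t398 (L l52 (L l56 (T t448 N))))))))) (K a21 (M a192 (F (T t836 (L l15 (L l347 (L l375 (T t450 (L l15 (L l347 (L l375 (T t157 N))))))))))) (K a25 (M a192 (F (T t449 (L l15 (L l375 (T t450 (L l143 (L l375 (T t21 N))))))))) (K a29 (M a192 (F (T t449 (L l143 (L l371 (L l375 (T t21 (L l98 (L l130 (T t160 N)))))))))) (K a38 (M a192 (F (T t836 (L l375 (T t450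 (L l143 (L l375 (T t21 N)))))))) (K a42 (M a192 (F (T t449 (L l375 (T t450 (L l56 (L l375 (T t157 N)))))))) (K a46 (M a192 (F (T t449 (L l143 (L l375 (T t21 (L l26 (L l98 (L l130 (L l408 (T t160 N))))))))))) (K a51 (M a192 (F (T t1725 (L l375 (L l415 (T t450 (L l143 (L l375 (L l439 (T t21 N)))))))))) N))))))))))))))))⟩
def e0_63__90_64 : Ent 4 := ⟨[a0, a63], [a90, a111], (M a12 (F (T t122 (T t151 (T t152 (T t153 (K a4 (M a60 (F (T t43 (L l480 (L l483 (T t398 (T t448 N))))))) (K a8 (M a60 (F (T t67 (L l480 (L l483 (T t398 (L l52 (L l56 (T t448 N))))))))) (K a21 (M a192 (F (T t836 (L l15 (L l347 (L l375 (T t450 (L l15 (L l347 (L l375 (T t157 N))))))))))) (K a25 (M a192 (F (T t449 (L l15 (L l375 (T t450 (L l137 (L l375 (T t21 N))))))))) (K a29 (M a192 (F (T t449 (L l137 (L l371 (L l375 (T t21 (L l104 (L l130 (T t160 N)))))))))) (K a38 (M a192 (F (T t836 (L l375 (T t450 (L l137 (L l375 (T t21 N)))))))) (K a42 (M a192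 (F (T t449 (L l375 (T t450 (L l56 (L l375 (T t157 N)))))))) (K a46 (M a192 (F (T t449 (L l137 (L l375 (T t21 (L l26 (L l104 (L l130 (L l408 (T t160 N))))))))))) (K a51 (M a192 (F (T t1725 (L l375 (L l415 (T t450 (L l137 (L l375 (L l439 (T t21 N)))))))))) N)))))))))))))))⟩
def e0_63__90_65 : Ent 4 := ⟨[a0, a63], [a90, a112], (M a12 (L l151 (F (T t122 (T t151 (T t152 (T t153 (K a4 (M a47 (L l151 (F (L l375 (T t3908 (L l50 (L l375 (L l412 (T t4014 (L l50 (T t4015 (K a101 (M a79 (F (L l114 (L l375 (T t4016 (L l50 (L l383 (T t4015 N)))))))) (K a79 (M a101 (F (L l375 (T t3908 (L l50 (L l137 (T t4017 N))))))) N))))))))))))) (K a8 (M a47 (L l151 (F (L l375 (T t3908 (L l375 (L l412 (T t4014 (L l52 (T t4015 (K a101 (M a79 (F (L l114 (L l375 (T t4016 (L l52 (L l383 (T t4015 N)))))))) (K a79 (M a101 (F (L l375 (T t3908 (L l137 (T t4017 N)))))) N)))))))))))) (K a21 (M a192 (L l151 (F (T t468 (L l15 (L l347 (L l375 (T t450 (L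 l15 (L l347 (L l375 (T t157 (K a101 (M a79 (F (T t468 (L l104 (L l130 (T t221 (L l50 (L l104 (L l130 (T t2473 N)))))))))) (K a79 (M a101 (F (T t468 (L l47 (L l130 (L l137 (T t4018 N))))))) N)))))))))))))) (K a25 (M a192 (L l151 (F (T t449 (L l15 (L l375 (T t450 (L l114 (L l375 (T t21 (K a101 (M a79 (F (T t449 (L l104 (L l130 (T t221 (L l56 (L l104 (L l130 (T t37 N)))))))))) (K a79 (M a101 (F (T t449 (L l130 (L l137 (T t4018 N)))))) N)))))))))))) (K a29 (M a192 (L l151 (F (T t449 (L l114 (L l371 (L l375 (T t21 (L l130 (T t160 (K a101 (M a79 (F (T t468 (L l104 (L l130 (T t37 (L l104 (L l130 (T t160 N))))))))) (K a79 (M a101 (F (T t449 (L l130 (L l137 (T t4018 N)))))) N)))))))))))) (K a38 (M a47 (L l151 (F (L l375 (T t4019 (L l50 (L l375 (L l412 (T t4014 (L l21 (L l50 (T t4015 (K a101 (M a79 (F (L l114 (L l375 (T t4016 (L l21 (L l50 (L l383 (T t4015 N))))))))) (K a79 (M a101 (F (L l375 (T t4019 (L l21 (L l50 (L l137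 (T t4017 N)))))))) N)))))))))))))) (K a42 (M a192 (L l151 (F (T t449 (L l375 (T t450 (L l56 (L l375 (T t157 (K a101 (M a79 (F (T t449 (L l26 (L l104 (L l130 (L l390 (T t221 (L l26 (L l104 (L l130 (L l390 (T t2473 N))))))))))))) (K a79 (M a101 (F (T t449 (L l130 (L l137 (L l390 (T t4018 N))))))) N))))))))))) (K a46 (M a192 (L l151 (F (T t449 (L l114 (L l375 (T t21 (L l26 (L l130 (L l408 (T t160 (K a101 (M a79 (F (T t468 (L l26 (L l104 (L l130 (L l408 (T t37 (L l26 (L l104 (L l130 (L l408 (T t160 N))))))))))))) (K a79 (M a101 (F (T t468 (L l130 (L l137 (L l408 (T t4018 N))))))) N))))))))))))) (K a51 (M a192 (L l151 (F (T t496 (L l375 (L l415 (T t450 (L l114 (L l375 (L l439 (T t21 (K a101 (M a79 (F (T t496 (L l104 (L l130 (L l415 (T t221 (L l104 (L l130 (L l439 (T t37 N))))))))))) (K a79 (M a101 (F (T t496 (L l130 (L l137 (T t4018 N)))))) N))))))))))))) (K a101 (M a79 (F (T t122 (T t151 (T t152 (T t153 (K a4 (M a76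 (F (T t743 (L l130 (L l148 (L l310 (T t4020 N))))))) (K a8 (M a76 (F (T t743 (L l130 (L l148 (L l320 (T t4020 N))))))) (K a21 (M a64 (F (L l146 (T t1488 (L l94 (L l130 (T t3960 N))))))) (K a25 (M a64 (F (T t4021 (L l94 (L l130 (T t3960 N)))))) (K a29 (M a64 (F (T t4021 (L l94 (L l130 (T t3960 N)))))) (K a38 (M a64 (F (L l146 (T t1488 (L l94 (L l130 (T t3960 N))))))) (K a42 (M a64 (F (T t4021 (L l94 (L l130 (T t3960 N)))))) (K a46 (M a64 (F (T t4021 (L l94 (L l130 (T t3960 N)))))) (K a51 (M a64 (F (T t4021 (L l94 (L l130 (T t3960 N)))))) N))))))))))))))) (K a79 (M a101 (F (T t122 (T t151 (T t152 (T t153 (K a4 (M a48 (F (T t431 (L l325 (T t4022 N))))) (K a8 (M a48 (F (T t314 (L l52 (L l325 (T t4022 N)))))) (K a21 (M a192 (F (T t468 (L l47 (L l130 (L l137 (T t4018 N))))))) (K a25 (M a192 (F (T t449 (L l130 (L l137 (T t4018 N)))))) (K a29 (M a192 (F (T t449 (L l130 (L l137 (T t4018 N)))))) (K a38 (M a192 (F (T t468 (L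 l130 (L l137 (T t4018 N)))))) (K a42 (M a192 (F (T t449 (L l130 (L l137 (L l390 (T t4018 N))))))) (K a46 (M a192 (F (T t468 (L l130 (L l137 (L l408 (T t4018 N))))))) (K a51 (M a192 (F (T t496 (L l130 (L l137 (T t4018 N)))))) N))))))))))))))) N))))))))))))))))))⟩
def e0_63__90_66 : Ent 4 := ⟨[a0, a63], [a90, a113], (M a12 (F (T t122 (T t151 (T t152 (T t153 (K a4 (M a60 (F (T t43 (L l480 (L l483 (T t398 (T t448 N))))))) (K a8 (M a60 (F (T t67 (L l480 (L l483 (T t398 (L l52 (L l56 (T t448 N))))))))) (K a21 (M a192 (F (T t836 (L l15 (L l347 (L l375 (L l416 (T t450 (L l15 (L l347 (L l375 (T t157 N)))))))))))) (K a25 (M a192 (F (T t449 (L l15 (L l375 (L l416 (T t450 (L l375 (T t21 N))))))))) (K a29 (M a192 (F (T t449 (L l371 (L l375 (T t21 (L l130 (T t160 N)))))))) (K a38 (M a192 (F (T t156 (L l375 (L l416 (T t450 (L l375 (T t21 N)))))))) (K a42 (M a192 (F (T t449 (L l375 (L l416 (T t450 (L l56 (L l375 (T t157 N)))))))))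 (K a46 (M a192 (F (T t449 (L l375 (T t21 (L l26 (L l130 (L l408 (T t160 N))))))))) (K a51 (M a192 (F (T t1725 (L l375 (L l415 (L l416 (T t450 (L l375 (L l439 (T t21 N)))))))))) N)))))))))))))))⟩
def e0_63__90_67 : Ent 4 := ⟨[a0, a63], [a90, a114], (M a60 (L l148 (F (T t67 (T t43 (T t68 (T t69 (K a20 (M a85 (L l148 (F (T t168 (L l462 (T t114 (T t1344 (K a102 (M a78 (F (T t168 (L l402 (L l462 (T t114 (T t1344 N))))))) (K a78 (M a102 (F (T t88 (T t4023 N)))) N))))))))) (K a40 (M a85 (L l148 (F (T t52 (L l392 (L l462 (T t114 (L l22 (T t1344 (K a102 (M a78 (F (T t52 (L l392 (L l402 (L l462 (T t114 (L l22 (T t1344 N))))))))) (K a78 (M a102 (F (T t52 (T t4023 N)))) N))))))))))) (K a21 (M a192 (L l148 (F (T t72 (L l347 (L l375 (T t73 (L l347 (L l375 (T t74 (K a102 (M a78 (F (T t77 (L l65 (L l347 (L l375 (L l495 (T t569 (L l347 (L l375 (L l495 (T t74 N)))))))))))) (K a78 (M a102 (F (T t77 (L l118 (L l130 (T t4024 N))))))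 N)))))))))))) (K a41 (M a192 (L l148 (F (T t79 (L l65 (L l375 (T t35 (L l375 (T t73 (K a102 (M a78 (F (T t79 (L l375 (L l495 (T t21 (L l65 (L l375 (L l495 (T t569 N)))))))))) (K a78 (M a102 (F (T t1333 (L l118 (L l130 (T t4024 N)))))) N))))))))))) (K a61 (M a192 (L l148 (F (T t72 (L l65 (L l375 (L l515 (T t35 (L l130 (T t80 (K a102 (M a78 (F (T t79 (L l375 (L l495 (L l515 (T t21 (L l102 (L l130 (T t80 N)))))))))) (K a78 (M a102 (F (T t77 (L l118 (L l130 (T t4024 N)))))) N)))))))))))) (K a22 (M a192 (L l148 (F (T t72 (L l375 (T t21 (L l375 (T t73 (K a102 (M a78 (F (T t77 (L l375 (L l495 (T t21 (L l375 (L l495 (T t569 N))))))))) (K a78 (M a102 (F (T t72 (L l118 (L l130 (T t4024 N)))))) N)))))))))) (K a42 (M a192 (L l148 (F (T t77 (L l375 (T t73 (L l22 (L l375 (T t74 (K a102 (M a78 (F (T t79 (L l375 (L l495 (T t569 (L l22 (L l375 (L l495 (T t74 N)))))))))) (K a78 (M a102 (F (T t77 (L l56 (L l118 (L l130 (L l390 (T t4024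 N)))))))) N))))))))))) (K a62 (M a192 (L l148 (F (T t72 (L l375 (T t35 (L l66 (L l130 (L l516 (T t80 (K a102 (M a78 (F (T t79 (L l375 (L l495 (T t21 (L l66 (L l102 (L l130 (L l516 (T t80 N))))))))))) (K a78 (M a102 (F (T t77 (L l118 (L l130 (L l516 (T t4024 N))))))) N)))))))))))) (K a3 (M a192 (L l148 (F (T t2658 (L l375 (L l475 (T t35 (L l307 (L l375 (T t73 (K a102 (M a78 (F (T t2658 (L l375 (L l475 (L l495 (T t21 (L l307 (L l375 (L l495 (T t569 N))))))))))) (K a78 (M a102 (F (T t1334 (L l118 (L l130 (T t4024 N)))))) N)))))))))))) (K a102 (M a78 (F (T t67 (T t43 (T t68 (T t69 (K a20 (M a204 (F (T t3967 (L l11 (L l375 (T t736 N)))))) (K a40 (M a204 (F (T t3967 (L l24 (L l375 (T t736 N)))))) (K a21 (M a46 (F (L l15 (T t3968 (L l65 (L l372 (L l402 (T t3969 N)))))))) (K a41 (M a204 (F (T t3967 (L l22 (T t740 N))))) (K a61 (M a47 (F (L l375 (L l405 (L l503 (T t3970 (L l59 (L l65 (T t3971 N))))))))) (K a22 (M a204 (F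 (T t3967 (L l11 (L l375 (T t736 N)))))) (K a42 (M a46 (F (T t2558 (L l372 (L l402 (T t3969 N)))))) (K a62 (M a47 (F (L l375 (L l405 (T t3970 (T t3971 N)))))) (K a3 (M a204 (F (T t3972 (L l45 (L l375 (T t736 N)))))) N))))))))))))))) (K a78 (M a102 (F (T t67 (T t43 (T t68 (T t69 (K a20 (M a204 (F (T t4025 (L l11 (L l118 (T t4026 N)))))) (K a40 (M a68 (F (T t4027 (L l392 (L l462 (T t4028 N)))))) (K a21 (M a192 (F (T t77 (L l118 (L l130 (T t4024 N)))))) (K a41 (M a192 (F (T t1333 (L l118 (L l130 (T t4024 N)))))) (K a61 (M a192 (F (T t77 (L l118 (L l130 (T t4024 N)))))) (K a22 (M a192 (F (T t72 (L l118 (L l130 (T t4024 N)))))) (K a42 (M a192 (F (T t77 (L l56 (L l118 (L l130 (L l390 (T t4024 N)))))))) (K a62 (M a192 (F (T t77 (L l118 (L l130 (L l516 (T t4024 N))))))) (K a3 (M a192 (F (T t1334 (L l118 (L l130 (T t4024 N)))))) N))))))))))))))) N))))))))))))))))))⟩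
def e0_63__90_68 : Ent 4 := ⟨[a0, a63], [a90, a115], (M a60 (F (T t67 (T t43 (T t68 (T t69 (K a20 (M a48 (F (T t138 (L l11 (L l462 (L l483 (T t1 (L l11 (T t235 N))))))))) (K a40 (M a48 (F (T t246 (L l462 (L l483 (T t1 (L l52 (T t235 N)))))))) (K a21 (M a192 (F (T t72 (L l347 (L l375 (T t73 (L l113 (L l347 (L l375 (T t74 N)))))))))) (K a41 (M a192 (F (T t79 (L l65 (L l375 (T t35 (L l375 (T t73 N)))))))) (K a61 (M a192 (F (T t72 (L l65 (L l375 (L l515 (T t35 (L l130 (T t80 N))))))))) (K a22 (M a192 (F (T t72 (L l113 (L l375 (T t21 (L l375 (T t73 N)))))))) (K a42 (M a192 (F (T t79 (L l375 (T t73 (L l22 (L l113 (L l375 (T t74 N))))))))) (K a62 (M a192 (F (T t72 (L l375 (T t35 (L l66 (L l130 (L l516 (T t80 N))))))))) (K a3 (M a192 (F (T t1334 (L l375 (L l475 (T t35 (L l307 (L l375 (T t73 N))))))))) N)))))))))))))))⟩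
def e0_63__90_69 : Ent 4 := ⟨[a0, a63], [a90, a117], (M a12 (F (T t122 (T t151 (T t152 (T t153 (K a4 (M a60 (F (T t43 (L l480 (L l483 (T t398 (T t448 N))))))) (K a8 (M a60 (F (T t67 (L l480 (L l483 (T t398 (L l52 (L l56 (T t448 N))))))))) (K a21 (M a192 (F (T t836 (L l15 (L l347 (L l375 (T t450 (L l15 (L l347 (L l375 (L l422 (T t157 N)))))))))))) (K a25 (M a192 (F (T t449 (L l15 (L l375 (T t450 (L l114 (L l375 (L l440 (T t21 N)))))))))) (K a29 (M a192 (F (T t449 (L l114 (L l371 (L l375 (L l440 (T t21 (L l130 (T t160 N)))))))))) (K a38 (M a192 (F (T t836 (L l375 (T t450 (L l114 (L l375 (L l440 (T t21 N))))))))) (K a42 (M a192 (F (T t449 (L l375 (T t450 (L l56 (L l375 (L l422 (T t157 N))))))))) (K a46 (M a192 (F (T t449 (L l114 (L l375 (L l440 (T t21 (L l26 (L l130 (L l408 (T t160 N))))))))))) (K a51 (M a192 (F (T t1725 (L l375 (L l415 (T t450 (L l114 (L l375 (L l439 (L l440 (T t21 N))))))))))) N)))))))))))))))⟩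
def e0_63__90_70 : Ent 4 := ⟨[a0, a63], [a90, a118], (M a60 (F (T t67 (T t43 (T t68 (T t69 (K a20 (M a48 (F (T t138 (L l11 (L l462 (L l483 (T t1 (L l11 (T t235 N))))))))) (K a40 (M a48 (F (T t246 (L l462 (L l483 (T t1 (L l52 (T t235 N)))))))) (K a21 (M a192 (F (T t2658 (L l347 (L l375 (T t73 (L l347 (L l375 (T t74 N))))))))) (K a41 (M a192 (F (T t1334 (L l65 (L l375 (T t35 (L l375 (T t73 N)))))))) (K a61 (M a192 (F (T t1334 (L l65 (L l375 (L l515 (T t35 (L l130 (T t80 N))))))))) (K a22 (M a192 (F (T t2658 (L l375 (T t21 (L l375 (T t73 N))))))) (K a42 (M a192 (F (T t1334 (L l375 (T t73 (L l22 (L l375 (T t74 N)))))))) (K a62 (M a192 (F (T t1334 (L l375 (T t35 (L l66 (L l130 (L l516 (T t80 N))))))))) (K a3 (M a192 (F (T t2658 (L l375 (L l475 (T t35 (L l307 (L l375 (T t73 N))))))))) N)))))))))))))))⟩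
def e0_63__90_71 : Ent 4 := ⟨[a0, a63], [a90, a119], (M a60 (F (T t67 (T t43 (T t68 (T t69 (K a20 (M a48 (F (T t138 (L l11 (L l462 (L l483 (T t1 (L l11 (T t235 N))))))))) (K a40 (M a48 (F (T t246 (L l462 (L l483 (T t1 (L l52 (T t235 N)))))))) (K a21 (M a192 (F (T t72 (L l347 (L l375 (T t73 (L l113 (L l347 (L l375 (T t74 N)))))))))) (K a41 (M a192 (F (T t77 (L l65 (L l375 (L l439 (T t35 (L l375 (T t73 N))))))))) (K a61 (M a192 (F (T t72 (L l65 (L l375 (L l439 (L l515 (T t35 (L l130 (T t80 N)))))))))) (K a22 (M a192 (F (T t72 (L l113 (L l375 (L l439 (T t21 (L l375 (T t73 N))))))))) (K a42 (M a192 (F (T t77 (L l375 (T t73 (L l22 (L l113 (L l375 (T t74 N))))))))) (K a62 (M a192 (F (T t72 (L l375 (L l439 (T t35 (L l66 (L l130 (L l516 (T t80 N)))))))))) (K a3 (M a192 (F (T t2658 (L l375 (L l439 (L l475 (T t35 (L l307 (L l375 (T t73 N)))))))))) N)))))))))))))))⟩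
def e0_63__90_72 : Ent 4 := ⟨[a0, a63], [a90, a122], (M a106 (F (T t586 (T t305 (L l114 (T t778 (L l114 (L l375 (T t564 (K a192 (M a46 (F (T t4029 (L l272 (T t4030 (L l272 (L l296 (T t4031 N)))))))) (K a21 (M a48 (F (L l47 (T t309 (L l347 (L l375 (L l483 (T t551 (L l47 (T t579 N)))))))))) (K a85 (M a48 (L l94 (F (T t309 (L l426 (L l455 (L l483 (T t2 (L l347 (L l375 (L l483 (T t551 (K a80 (M a95 (F (T t304 (L l426 (L l455 (L l483 (T t2 (L l116 (L l340 (L l347 (L l368 (T t599 N)))))))))))) (K a95 (M a80 (F (T t4032 (L l347 (L l426 (T t306 N)))))) N)))))))))))))) (K a149 (M a12 (L l375 (F (T t151 (L l371 (T t2415 (L l347 (L l371 (T t2474 (L l347 (T t2476 (K a208 (M a31 (F (T t3860 (L l347 (L l371 (T t2474 N)))))) (K a31 (M a208 (F (T t151 (L l13 (L l371 (T t2415 (L l13 (L l18 (L l347 (L l371 (T t2474 (L l18 (L l347 (T t2476 N)))))))))))))) N))))))))))))) (K a42 (M a48 (F (T t309 (L l375 (L l483 (T t551 (L l28 (T t579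 N)))))))) (K a170 (M a10 (F (L l426 (T t2561 (L l220 (L l375 (T t4033 (L l354 (T t4034 (L l483 (T t4035 N))))))))))) (K a234 (Fr a149 a192 l519 (Fr a21 a42 l68 (Fr a85 a213 l347 (Fr a255 a170 l476 (V t875))))) (K a127 (M a101 (L l114 (F (T t4036 (L l426 (T t4037 (L l426 (T t4038 (K a112 (M a117 (F (L l426 (L l462 (T t4039 (T t4040 (L l137 (L l375 (T t4041 N))))))))) (K a117 (M a112 (F (T t4042 (L l137 (T t4043 (L l426 (T t4044 N))))))) N)))))))))) (K a255 (M a32 (F (T t612 (L l375 (T t4045 (L l289 (L l296 (T t821 N)))))))) N))))))))))))))))))⟩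
def e0_63__90_73 : Ent 4 := ⟨[a0, a63], [a90, a123], (M a12 (F (T t122 (T t151 (L l427 (T t152 (T t153 (K a4 (M a60 (F (T t43 (L l480 (L l483 (T t398 (T t448 N))))))) (K a8 (M a60 (F (T t67 (L l480 (L l483 (T t398 (L l52 (L l56 (T t448 N))))))))) (K a21 (M a192 (F (T t156 (L l130 (L l132 (T t221 (L l15 (L l347 (L l375 (T t157 N)))))))))) (K a25 (M a192 (F (T t449 (L l130 (L l132 (T t221 (L l113 (L l375 (T t21 N))))))))) (K a29 (M a192 (F (T t449 (L l113 (L l371 (L l375 (T t21 (L l130 (L l132 (T t2539 N)))))))))) (K a38 (M a192 (F (T t156 (L l26 (L l130 (L l132 (T t221 (L l113 (L l375 (T t21 N)))))))))) (K a42 (M a192 (F (T t449 (L l26 (L l130 (L l132 (L l390 (T t221 (L l56 (L l375 (T t157 N))))))))))) (K a46 (M a192 (F (T t449 (L l113 (L l375 (T t21 (L l26 (L l130 (L l132 (L l408 (T t2539 N))))))))))) (K a51 (M a192 (F (T t159 (L l130 (L l132 (L l415 (T t221 (L l113 (L l375 (L l439 (T t21 N))))))))))) N))))))))))))))))⟩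
def e0_63__90_74 : Ent 4 := ⟨[a0, a63], [a90, a127], (M a12 (F (T t122 (T t151 (T t152 (T t153 (K a4 (M a60 (F (T t43 (L l480 (L l483 (T t398 (T t448 N))))))) (K a8 (M a60 (F (T t67 (L l480 (L l483 (T t398 (L l52 (L l56 (T t448 N))))))))) (K a21 (M a192 (F (T t468 (L l15 (L l347 (L l375 (T t450 (L l50 (L l130 (L l144 (T t2473 N))))))))))) (K a25 (M a192 (F (T t449 (L l15 (L l375 (T t450 (L l56 (L l130 (L l144 (T t37 N)))))))))) (K a29 (M a192 (F (T t449 (L l130 (L l144 (T t37 (L l15 (L l113 (L l371 (L l375 (T t776 N))))))))))) (K a38 (M a192 (F (T t468 (L l375 (T t450 (L l26 (L l130 (L l144 (T t37 N))))))))) (K a42 (M a192 (F (T t449 (L l375 (T t450 (L l26 (L l130 (L l144 (L l390 (T t2473 N)))))))))) (K a46 (M a192 (F (T t449 (L l26 (L l130 (L l144 (L l408 (T t37 (L l113 (L l375 (T t776 N))))))))))) (K a51 (M a192 (F (T t496 (L l375 (L l415 (T t450 (L l130 (L l144 (L l439 (T t37 N)))))))))) N)))))))))))))))⟩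
def e0_63__90_75 : Ent 4 := ⟨[a0, a63], [a90, a128], (M a12 (F (T t122 (T t151 (T t152 (T t153 (K a4 (M a60 (F (T t43 (L l480 (L l483 (T t398 (T t448 N))))))) (K a8 (M a60 (F (T t67 (L l480 (L l483 (T t398 (L l52 (L l56 (T t448 N))))))))) (K a21 (M a166 (F (T t2793 (T t2543 (L l15 (T t2541 N)))))) (K a25 (M a48 (F (T t550 (L l15 (L l462 (L l483 (T t1 (L l12 (L l56 (T t866 N)))))))))) (K a29 (M a48 (F (T t550 (L l15 (L l462 (L l483 (T t1 (T t866 N)))))))) (K a38 (M a48 (F (T t1580 (L l26 (L l483 (T t2 (L l21 (L l50 (L l357 (L l462 (T t868 N))))))))))) (K a42 (M a166 (F (T t2542 (L l56 (T t2543 (L l56 (T t2541 N))))))) (K a46 (M a48 (F (T t443 (L l462 (L l483 (T t1 (L l26 (T t866 N)))))))) (K a51 (M a16 (F (T t112 (L l39 (T t871 (L l354 (L l372 (T t872 N)))))))) N)))))))))))))))⟩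
def e0_63__90_76 : Ent 4 := ⟨[a0, a63], [a90, a129], (M a12 (F (T t122 (T t151 (T t152 (T t153 (K a4 (M a60 (F (T t570 (L l46 (L l50 (L l309 (T t67 (T t448 N)))))))) (K a8 (M a60 (F (T t116 (L l480 (L l483 (T t398 (L l52 (L l56 (T t448 N))))))))) (K a21 (M a192 (F (T t836 (L l15 (L l217 (L l347 (L l375 (T t450 (L l15 (L l217 (L l347 (L l375 (T t157 N))))))))))))) (K a25 (M a192 (F (T t449 (L l15 (L l217 (L l375 (T t450 (L l152 (L l217 (L l375 (T t21 N))))))))))) (K a29 (M a192 (F (T t449 (L l152 (L l217 (L l371 (L l375 (T t21 (L l130 (T t160 N)))))))))) (K a38 (M a192 (F (T t836 (L l217 (L l375 (T t450 (L l152 (L l217 (L l375 (T t21 N)))))))))) (K a42 (M a192 (F (T t449 (L l217 (L l375 (T t450 (L l56 (L l217 (L l375 (T t157 N)))))))))) (K a46 (M a192 (F (T t449 (L l152 (L l217 (L l375 (T t21 (L l26 (L l130 (L l408 (T t160 N))))))))))) (K a51 (M a192 (F (T t1725 (L l217 (L l375 (L l415 (T t450 (L l152 (L l217 (L l375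 (L l439 (T t21 N)))))))))))) N)))))))))))))))⟩
def e0_63__90_77 : Ent 4 := ⟨[a0, a63], [a90, a130], (M a12 (F (T t122 (T t151 (T t152 (T t153 (K a4 (M a60 (F (T t43 (L l480 (L l483 (T t398 (T t448 N))))))) (K a8 (M a60 (F (T t67 (L l480 (L l483 (T t398 (L l52 (L l56 (T t448 N))))))))) (K a21 (M a192 (F (T t836 (L l15 (L l347 (L l375 (T t450 (L l15 (L l347 (L l375 (T t157 N))))))))))) (K a25 (M a192 (F (T t449 (L l15 (L l375 (T t450 (L l152 (L l375 (T t21 N))))))))) (K a29 (M a192 (F (T t449 (L l152 (L l371 (L l375 (T t21 (L l130 (T t160 N))))))))) (K a38 (M a192 (F (T t836 (L l375 (T t450 (L l152 (L l375 (T t21 N)))))))) (K a42 (M a192 (F (T t449 (L l375 (T t450 (L l56 (L l375 (T t157 N)))))))) (K a46 (M a192 (F (T t449 (L l152 (L l375 (T t21 (L l26 (L l130 (L l408 (T t160 N)))))))))) (K a51 (M a192 (F (T t1725 (L l375 (L l415 (T t450 (L l152 (L l375 (L l439 (T t21 N)))))))))) N)))))))))))))))⟩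
def e0_63__90_78 : Ent 4 := ⟨[a0, a63], [a90, a131], (M a12 (F (T t122 (T t151 (T t152 (T t153 (K a4 (M a60 (F (T t570 (L l46 (L l50 (L l307 (T t67 (T t448 N)))))))) (K a8 (M a60 (F (T t570 (L l307 (T t67 (L l52 (L l56 (T t448 N)))))))) (K a21 (M a192 (F (T t468 (L l15 (L l347 (L l375 (T t450 (L l15 (L l347 (L l375 (T t157 N))))))))))) (K a25 (M a192 (F (T t449 (L l15 (L l375 (T t450 (L l152 (L l375 (T t21 N))))))))) (K a29 (M a192 (F (T t449 (L l152 (L l371 (L l375 (T t21 (L l130 (T t160 N))))))))) (K a38 (M a192 (F (T t468 (L l375 (T t450 (L l152 (L l375 (T t21 N)))))))) (K a42 (M a192 (F (T t449 (L l375 (T t450 (L l56 (L l375 (T t157 N)))))))) (K a46 (M a192 (F (T t449 (L l152 (L l375 (T t21 (L l26 (L l130 (L l408 (T t160 N)))))))))) (K a51 (M a192 (F (T t2119 (L l375 (L l415 (T t450 (L l152 (L l375 (L l439 (T t21 N)))))))))) N)))))))))))))))⟩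
def e0_63__90_79 : Ent 4 := ⟨[a0, a63], [a90, a133], (M a12 (F (T t122 (T t151 (T t152 (T t153 (K a4 (M a60 (F (T t43 (L l339 (L l480 (L l483 (T t398 (T t448 N)))))))) (K a8 (M a60 (F (T t67 (L l339 (L l480 (L l483 (T t398 (L l52 (L l56 (T t448 N)))))))))) (K a21 (M a192 (F (T t836 (L l15 (L l199 (L l347 (L l375 (T t450 (L l15 (L l199 (L l347 (L l375 (T t157 N))))))))))))) (K a25 (M a192 (F (T t836 (L l15 (L l199 (L l375 (T t450 (L l160 (L l199 (L l375 (T t21 N))))))))))) (K a29 (M a192 (F (T t836 (L l160 (L l199 (L l371 (L l375 (T t21 (L l130 (T t160 N)))))))))) (K a38 (M a192 (F (T t836 (L l199 (L l375 (T t450 (L l160 (L l199 (L l375 (T t21 N)))))))))) (K a42 (M a192 (F (T t836 (L l199 (L l375 (T t450 (L l56 (L l199 (L l375 (T t157 N)))))))))) (K a46 (M a192 (F (T t836 (L l160 (L l199 (L l375 (T t21 (L l26 (L l130 (L l408 (T t160 N))))))))))) (K a51 (M a192 (F (T t1725 (L l199 (L l375 (L l415 (T t450 (L l160 (L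 l199 (L l375 (L l439 (T t21 N)))))))))))) N)))))))))))))))⟩
def e0_63__90_80 : Ent 4 := ⟨[a0, a63], [a90, a134], (M a60 (F (T t67 (T t43 (T t68 (T t69 (K a20 (M a48 (F (T t64 (L l11 (L l462 (L l483 (T t1 (L l11 (T t235 N))))))))) (K a40 (M a48 (F (T t64 (L l462 (L l483 (T t1 (L l52 (T t235 N)))))))) (K a21 (M a192 (F (T t72 (L l338 (L l347 (L l375 (T t73 (L l347 (L l375 (T t74 N)))))))))) (K a41 (M a192 (F (T t79 (L l65 (L l375 (T t35 (L l338 (L l375 (T t73 N))))))))) (K a61 (M a192 (F (T t72 (L l65 (L l375 (L l515 (T t35 (L l130 (T t80 N))))))))) (K a22 (M a192 (F (T t72 (L l375 (T t21 (L l338 (L l375 (T t73 N)))))))) (K a42 (M a192 (F (T t77 (L l338 (L l375 (T t73 (L l22 (L l375 (T t74 N))))))))) (K a62 (M a192 (F (T t72 (L l375 (T t35 (L l66 (L l130 (L l516 (T t80 N))))))))) (K a3 (M a192 (F (T t2658 (L l375 (L l475 (T t35 (L l307 (L l338 (L l375 (T t73 N)))))))))) N)))))))))))))))⟩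
def e0_63__90_81 : Ent 4 := ⟨[a0, a63], [a90, a135], (M a12 (F (T t122 (T t151 (T t152 (T t153 (K a4 (M a60 (F (T t43 (L l337 (L l480 (L l483 (T t398 (T t448 N)))))))) (K a8 (M a60 (F (T t67 (L l337 (L l480 (L l483 (T t398 (L l52 (L l56 (T t448 N)))))))))) (K a21 (M a192 (F (T t836 (L l15 (L l347 (L l375 (T t450 (L l15 (L l347 (L l375 (T t157 N))))))))))) (K a25 (M a192 (F (T t836 (L l15 (L l375 (T t450 (L l375 (T t21 N)))))))) (K a29 (M a192 (F (T t836 (L l371 (L l375 (T t21 (L l130 (L l201 (T t160 N))))))))) (K a38 (M a192 (F (T t836 (L l375 (T t450 (L l375 (T t21 N))))))) (K a42 (M a192 (F (T t836 (L l375 (T t450 (L l56 (L l375 (T t157 N)))))))) (K a46 (M a192 (F (T t836 (L l375 (T t21 (L l26 (L l130 (L l201 (L l408 (T t160 N)))))))))) (K a51 (M a192 (F (T t1725 (L l375 (L l415 (T t450 (L l375 (L l439 (T t21 N))))))))) N)))))))))))))))⟩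
def e0_63__90_82 : Ent 4 := ⟨[a0, a63], [a90, a138], (M a60 (F (T t67 (T t43 (L l330 (T t68 (T t69 (K a20 (M a48 (F (T t64 (L l11 (L l318 (L l462 (L l483 (T t1 (L l11 (L l330 (T t235 N))))))))))) (K a40 (M a48 (F (T t64 (L l318 (L l462 (L l483 (T t1 (L l52 (L l330 (T t235 N)))))))))) (K a21 (M a192 (F (T t72 (L l347 (L l375 (T t73 (L l160 (L l347 (L l375 (T t74 N)))))))))) (K a41 (M a192 (F (T t79 (L l65 (L l375 (T t35 (L l375 (T t73 N)))))))) (K a61 (M a192 (F (T t72 (L l65 (L l375 (L l515 (T t35 (L l130 (T t80 N))))))))) (K a22 (M a192 (F (T t72 (L l160 (L l375 (T t21 (L l375 (T t73 N)))))))) (K a42 (M a192 (F (T t1333 (L l375 (T t73 (L l22 (L l160 (L l375 (T t74 N))))))))) (K a62 (M a192 (F (T t72 (L l375 (T t35 (L l66 (L l130 (L l516 (T t80 N))))))))) (K a3 (M a192 (F (T t2658 (L l375 (L l475 (T t35 (L l307 (L l375 (T t73 N))))))))) N))))))))))))))))⟩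
def e0_63__90_83 : Ent 4 := ⟨[a0, a63], [a90, a139], (M a12 (F (T t122 (T t151 (T t152 (T t153 (K a4 (M a60 (F (T t570 (L l46 (L l50 (L l331 (T t67 (T t448 N)))))))) (K a8 (M a60 (F (T t570 (L l331 (T t67 (L l52 (L l56 (T t448 N)))))))) (K a21 (M a192 (F (T t836 (L l15 (L l347 (L l375 (T t450 (L l15 (L l347 (L l375 (T t157 N))))))))))) (K a25 (M a192 (F (T t449 (L l15 (L l375 (T t450 (L l375 (T t21 N)))))))) (K a29 (M a192 (F (T t449 (L l371 (L l375 (T t21 (L l130 (T t160 N)))))))) (K a38 (M a192 (F (T t156 (L l375 (T t450 (L l375 (T t21 N))))))) (K a42 (M a192 (F (T t449 (L l375 (T t450 (L l56 (L l375 (T t157 N)))))))) (K a46 (M a192 (F (T t449 (L l375 (T t21 (L l26 (L l130 (L l408 (T t160 N))))))))) (K a51 (M a192 (F (T t1725 (L l375 (L l415 (T t450 (L l375 (L l439 (T t21 N))))))))) N)))))))))))))))⟩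
def e0_63__90_84 : Ent 4 := ⟨[a0, a63], [a90, a143], (M a12 (F (T t122 (T t151 (T t152 (T t153 (K a4 (M a60 (F (T t43 (L l325 (L l480 (L l483 (T t398 (T t448 N)))))))) (K a8 (M a60 (F (T t67 (L l325 (L l480 (L l483 (T t398 (L l52 (L l56 (T t448 N)))))))))) (K a21 (M a192 (F (T t468 (L l15 (L l347 (L l375 (T t450 (L l15 (L l347 (L l375 (T t157 N))))))))))) (K a25 (M a192 (F (T t449 (L l15 (L l375 (T t450 (L l160 (L l375 (T t21 N))))))))) (K a29 (M a192 (F (T t449 (L l160 (L l371 (L l375 (T t21 (L l130 (T t160 N))))))))) (K a38 (M a192 (F (T t468 (L l375 (T t450 (L l160 (L l375 (T t21 N)))))))) (K a42 (M a192 (F (T t449 (L l375 (T t450 (L l56 (L l375 (T t157 N)))))))) (K a46 (M a192 (F (T t449 (L l160 (L l375 (T t21 (L l26 (L l130 (L l408 (T t160 N)))))))))) (K a51 (M a192 (F (T t2119 (L l375 (L l415 (T t450 (L l160 (L l375 (L l439 (T t21 N)))))))))) N)))))))))))))))⟩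
def e0_63__90_85 : Ent 4 := ⟨[a0, a63], [a90, a144], (M a12 (F (T t122 (T t151 (T t152 (T t153 (K a4 (M a60 (F (T t43 (L l480 (L l483 (T t398 (T t448 N))))))) (K a8 (M a60 (F (T t67 (L l480 (L l483 (T t398 (L l52 (L l56 (T t448 N))))))))) (K a21 (M a192 (F (T t836 (L l15 (L l170 (L l347 (L l375 (T t450 (L l15 (L l170 (L l347 (L l375 (T t157 N))))))))))))) (K a25 (M a192 (F (T t449 (L l15 (L l170 (L l375 (T t450 (L l170 (L l192 (L l375 (T t21 N))))))))))) (K a29 (M a192 (F (T t449 (L l170 (L l192 (L l371 (L l375 (T t21 (L l130 (T t160 N)))))))))) (K a38 (M a192 (F (T t836 (L l170 (L l375 (T t450 (L l170 (L l192 (L l375 (T t21 N)))))))))) (K a42 (M a192 (F (T t449 (L l170 (L l375 (T t450 (L l56 (L l170 (L l375 (T t157 N)))))))))) (K a46 (M a192 (F (T t449 (L l170 (L l192 (L l375 (T t21 (L l26 (L l130 (L l408 (T t160 N))))))))))) (K a51 (M a192 (F (T t1725 (L l170 (L l375 (L l415 (T t450 (L l170 (L l192 (L l375 (L l439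 (T t21 N)))))))))))) N)))))))))))))))⟩
def e0_63__90_86 : Ent 4 := ⟨[a0, a63], [a90, a145], (M a60 (F (T t67 (T t43 (T t68 (T t69 (K a20 (M a48 (F (T t277 (L l11 (L l462 (L l483 (T t1 (L l11 (T t235 N))))))))) (K a40 (M a48 (F (T t246 (L l462 (L l483 (T t1 (L l52 (T t235 N)))))))) (K a21 (M a192 (F (T t72 (L l167 (L l347 (L l375 (T t73 (L l167 (L l196 (L l347 (L l375 (T t74 N)))))))))))) (K a41 (M a192 (F (T t1333 (L l65 (L l167 (L l375 (T t35 (L l167 (L l375 (T t73 N)))))))))) (K a61 (M a192 (F (T t72 (L l65 (L l167 (L l375 (L l515 (T t35 (L l130 (T t80 N)))))))))) (K a22 (M a192 (F (T t72 (L l167 (L l196 (L l375 (T t21 (L l167 (L l375 (T t73 N)))))))))) (K a42 (M a192 (F (T t1333 (L l167 (L l375 (T t73 (L l22 (L l167 (L l196 (L l375 (T t74 N))))))))))) (K a62 (M a192 (F (T t72 (L l167 (L l375 (T t35 (L l66 (L l130 (L l516 (T t80 N)))))))))) (K a3 (M a192 (F (T t2658 (L l167 (L l375 (L l475 (T t35 (L l167 (L l307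 (L l375 (T t73 N))))))))))) N)))))))))))))))⟩
def e0_63__90_87 : Ent 4 := ⟨[a0, a63], [a90, a146], (M a12 (F (T t122 (T t151 (T t152 (T t153 (K a4 (M a60 (F (T t43 (L l480 (L l483 (T t398 (T t448 N))))))) (K a8 (M a60 (F (T t67 (L l480 (L l483 (T t398 (L l52 (L l56 (T t448 N))))))))) (K a21 (M a192 (F (T t836 (L l15 (L l347 (L l375 (T t450 (L l15 (L l347 (L l375 (T t157 N))))))))))) (K a25 (M a192 (F (T t449 (L l15 (L l375 (T t450 (L l375 (T t21 N)))))))) (K a29 (M a192 (F (T t449 (L l371 (L l375 (T t21 (L l130 (T t160 N)))))))) (K a38 (M a192 (F (T t156 (L l375 (T t450 (L l375 (T t21 N))))))) (K a42 (M a192 (F (T t449 (L l375 (T t450 (L l56 (L l375 (T t157 N)))))))) (K a46 (M a192 (F (T t449 (L l375 (T t21 (L l26 (L l130 (L l408 (T t160 N))))))))) (K a51 (M a192 (F (T t1725 (L l375 (L l415 (T t450 (L l375 (L l439 (T t21 N))))))))) N)))))))))))))))⟩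
def e0_63__90_88 : Ent 4 := ⟨[a0, a63], [a90, a147], (M a60 (F (T t67 (T t43 (T t68 (T t69 (K a20 (M a48 (F (T t138 (L l11 (L l462 (L l483 (T t1 (L l11 (T t235 N))))))))) (K a40 (M a48 (F (T t246 (L l462 (L l483 (T t1 (L l52 (T t235 N)))))))) (K a21 (M a192 (F (T t72 (L l347 (L l375 (L l487 (T t73 (L l347 (L l375 (T t74 N)))))))))) (K a41 (M a192 (F (T t77 (L l65 (L l375 (T t35 (L l375 (L l487 (T t73 N))))))))) (K a61 (M a192 (F (T t72 (L l65 (L l375 (L l515 (T t35 (L l130 (L l169 (T t80 N)))))))))) (K a22 (M a192 (F (T t72 (L l375 (T t21 (L l375 (L l487 (T t73 N)))))))) (K a42 (M a192 (F (T t77 (L l375 (L l487 (T t73 (L l22 (L l375 (T t74 N))))))))) (K a62 (M a192 (F (T t72 (L l375 (T t35 (L l66 (L l130 (L l169 (L l516 (T t80 N)))))))))) (K a3 (M a192 (F (T t2658 (L l375 (L l475 (T t35 (L l307 (L l375 (L l487 (T t73 N)))))))))) N)))))))))))))))⟩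
def e0_63__90_89 : Ent 4 := ⟨[a0, a63], [a90, a149], (M a12 (L l375 (F (T t151 (L l347 (L l371 (T t122 (L l347 (T t152 (L l495 (T t153 (K a4 (M a31 (F (T t1369 (T t2084 (L l46 (L l354 (L l372 (T t3445 N)))))))) (K a8 (M a31 (F (T t1369 (L l56 (T t2084 (L l56 (L l354 (L l372 (T t3445 N))))))))) (K a21 (M a85 (L l375 (F (T t1368 (L l220 (L l462 (T t124 (L l15 (L l202 (L l220 (L l371 (T t2301 (L l15 (L l371 (T t2302 (K a208 (M a31 (F (T t1601 (L l370 (T t1369 N))))) (K a31 (M a208 (L l18 (F (T t1601 (L l220 (L l462 (T t124 (L l13 (L l15 (L l202 (L l220 (L l371 (T t2301 (L l13 (L l15 (L l371 (T t2302 (K a16 (M a26 (F (T t1368 (L l220 (L l462 (T t124 (L l13 (L l15 (L l202 (L l220 (L l371 (T t2301 (L l13 (L l15 (L l344 (L l371 (T t2302 N))))))))))))))))) (K a26 (M a16 (L l354 (F (T t1601 (L l12 (L l163 (L l170 (T t4046 (K a154 (M a218 (L l170 (F (T t1601 (L l11 (L l163 (T t4047 (L l206 (L l220 (L l462 (T t124 (K a144 (M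 a159 (F (T t4048 (L l13 (T t871 N))))) (K a159 (Fr a144 a80 l340 (V t1370)) N))))))))))))) (K a218 (Fr a154 a223 l368 (V t4049)) N)))))))))) N))))))))))))))))))) N))))))))))))))))) (K a25 (M a31 (F (L l56 (T t2084 (L l19 (T t1369 (L l12 (L l56 (L l354 (L l372 (T t3445 N))))))))))) (K a29 (M a31 (L l371 (F (T t2084 (L l59 (T t3860 (L l59 (T t4050 (L l354 (T t4051 (L l59 (L l462 (L l495 (T t4052 (K a209 (M a89 (F (T t2084 (L l359 (T t3449 N))))) (K a89 (M a209 (L l88 (F (T t2084 (L l59 (L l479 (T t3860 (L l464 (L l495 (T t4053 (L l354 (L l374 (T t4051 (L l59 (L l462 (L l464 (L l479 (L l495 (T t4052 (K a88 (M a91 (F (T t2084 (L l374 (T t4054 (L l374 (L l460 (L l464 (T t4055 N))))))))) (K a91 (M a88 (F (T t2084 (L l465 (T t4056 N))))) N))))))))))))))))))))) N)))))))))))))))) (K a38 (M a60 (L l375 (F (T t409 (L l26 (L l351 (T t43 (L l72 (L l371 (L l480 (L l483 (L l515 (T t398 (K a208 (M a31 (F (L l29 (T t4057 (T t3860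 N))))) (K a31 (M a208 (F (T t409 (L l26 (T t69 (L l13 (L l72 (L l371 (L l480 (L l483 (L l515 (T t398 N)))))))))))) N))))))))))))))) (K a42 (M a255 (L l375 (F (T t2124 (L l94 (L l347 (T t2031 (L l56 (L l220 (L l371 (L l390 (L l462 (T t2032 (K a208 (M a31 (F (T t2124 (L l28 (L l465 (T t3859 N)))))) (K a31 (M a208 (F (T t2124 (L l94 (L l347 (T t2134 (L l13 (L l56 (L l220 (L l371 (L l390 (L l462 (T t2032 N))))))))))))) N))))))))))))))) (K a46 (M a31 (F (L l23 (T t3860 (L l26 (L l354 (T t4058 (L l23 (L l26 (T t2084 (L l26 (L l495 (T t4053 (L l26 (L l462 (L l495 (T t4052 N))))))))))))))))) (K a51 (M a31 (F (L l30 (T t2084 (L l39 (T t1369 (L l354 (L l372 (T t3445 N))))))))) (K a208 (M a31 (F (T t151 (L l370 (T t1369 (L l340 (T t2084 N))))))) (K a31 (M a208 (F (T t151 (L l13 (L l18 (L l347 (L l371 (T t122 (L l18 (L l347 (T t152 (L l495 (T t153 (K a4 (M a240 (F (L l18 (T t4059 (L l13 (L l454 (T t4060 (L l163 (L l170 (L l454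 (T t4061 N))))))))))) (K a8 (M a240 (F (L l13 (T t4060 (L l18 (T t4059 (L l52 (L l163 (L l170 (T t4061 N)))))))))) (K a21 (M a85 (L l18 (F (T t1601 (L l220 (L l462 (T t124 (L l13 (L l15 (L l202 (L l220 (L l371 (T t2301 (L l13 (L l15 (L l371 (T t2302 (K a16 (M a26 (F (T t1368 (L l220 (L l462 (T t124 (L l13 (L l15 (L l202 (L l220 (L l371 (T t2301 (L l13 (L l15 (L l344 (L l371 (T t2302 N))))))))))))))))) (K a26 (M a16 (L l354 (F (T t1601 (L l12 (L l163 (L l170 (T t4046 (K a154 (M a218 (L l170 (F (T t1601 (L l11 (L l163 (T t4047 (L l206 (L l220 (L l462 (T t124 (K a144 (M a159 (F (T t4048 (L l13 (T t871 N))))) (K a159 (Fr a144 a80 l340 (V t1370)) N))))))))))))) (K a218 (Fr a154 a223 l368 (V t4049)) N)))))))))) N))))))))))))))))))) (K a25 (M a28 (F (L l163 (L l465 (T t4062 (L l15 (L l18 (L l347 (L l515 (T t2480 N)))))))))) (K a29 (M a28 (L l371 (F (T t3236 (L l163 (L l465 (L l483 (T t4063 (K a209 (M a89 (F (T t3236 (L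 l359 (T t3449 N))))) (K a89 (M a209 (L l88 (F (T t3236 (L l94 (L l163 (L l464 (L l483 (T t4064 (K a88 (M a91 (F (T t3236 (L l460 (L l464 (T t2739 (L l15 (L l18 (L l91 (L l92 (L l347 (T t4065 (L l15 (L l17 (L l18 (L l59 (L l347 (L l515 (T t3237 N))))))))))))))))))) (K a91 (Fr a88 a148 l370 (V t4066)) N))))))))))) N)))))))))) (K a38 (M a28 (F (L l26 (L l29 (T t3236 (L l94 (L l163 (L l483 (T t4064 N))))))))) (K a42 (M a192 (F (T t836 (L l13 (T t4067 (L l18 (T t4068 N))))))) (K a46 (M a28 (F (L l163 (L l465 (T t4062 (L l23 (L l26 (L l60 (T t3236 N))))))))) (K a51 (M a28 (F (L l43 (T t3236 (L l163 (L l417 (L l465 (L l483 (T t4063 N))))))))) N)))))))))))))))))))))) N))))))))))))))))))))))⟩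
def e0_63__90_90 : Ent 4 := ⟨[a0, a63], [a90, a150], (M a12 (L l372 (F (T t122 (T t151 (T t152 (T t153 (K a4 (M a85 (L l372 (F (T t168 (L l218 (L l462 (T t124 (T t154 (K a210 (M a30 (F (T t168 (L l374 (L l480 (T t4069 N)))))) (K a30 (M a210 (F (T t88 (L l218 (L l462 (T t124 (L l60 (T t154 N)))))))) N)))))))))) (K a8 (M a85 (L l372 (F (T t52 (L l218 (L l462 (L l464 (T t124 (L l56 (T t154 (K a210 (M a30 (F (T t52 (L l374 (L l480 (T t4069 N)))))) (K a30 (M a210 (F (T t52 (L l218 (L l462 (L l464 (T t124 (L l56 (L l60 (T t154 N)))))))))) N)))))))))))) (K a21 (M a192 (L l372 (F (T t836 (L l15 (L l163 (L l347 (L l375 (T t450 (L l15 (L l163 (L l347 (L l375 (T t157 (K a210 (M a30 (F (T t156 (L l18 (L l375 (L l483 (T t4070 N))))))) (K a30 (M a210 (F (T t468 (L l60 (L l130 (L l516 (T t221 (L l13 (L l15 (L l163 (L l347 (L l375 (T t157 N))))))))))))) N)))))))))))))))) (K a25 (M a192 (L l372 (F (T t449 (L l15 (L l163 (L l375 (T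 t450 (L l163 (L l375 (T t21 (K a210 (M a30 (F (T t449 (L l375 (L l483 (T t4070 N)))))) (K a30 (M a210 (F (T t836 (L l60 (L l130 (L l516 (T t221 (L l56 (L l130 (L l516 (T t37 N))))))))))) N))))))))))))) (K a29 (M a149 (L l372 (F (T t176 (L l130 (L l516 (T t648 (T t961 (K a210 (M a30 (F (T t5 (L l130 (L l516 (T t648 (T t961 N))))))) (K a30 (M a210 (L l13 (F (T t176 (L l130 (L l516 (T t648 (T t961 (K a28 (M a31 (L l374 (F (T t176 (L l59 (T t3860 (K a89 (M a211 (L l88 (F (T t5 (L l59 (L l479 (T t3860 (K a88 (Fr a91 a151 l373 (V t1007)) (K a91 (M a88 (F (T t5 (L l465 (L l483 (T t4071 N)))))) N))))))))) (K a211 (M a89 (F (T t3369 (L l14 (L l344 (T t2084 N)))))) N)))))))) (K a31 (M a28 (F (T t176 (L l494 (T t2739 N))))) N)))))))))) N)))))))))) (K a38 (M a192 (L l372 (F (T t156 (L l163 (L l375 (T t450 (L l163 (L l375 (T t21 (K a210 (M a30 (F (T t156 (L l26 (L l29 (L l375 (L l483 (T t4070 N)))))))) (K a30 (M a210 (F (T t468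 (L l26 (L l60 (L l130 (L l516 (T t221 (L l26 (L l130 (L l516 (T t37 N)))))))))))) N)))))))))))) (K a42 (M a192 (L l372 (F (T t449 (L l163 (L l375 (T t450 (L l56 (L l163 (L l375 (T t157 (K a210 (M a30 (F (T t449 (L l26 (L l375 (L l483 (T t4070 N))))))) (K a30 (M a210 (F (T t836 (L l26 (L l60 (L l130 (L l390 (L l516 (T t221 (L l13 (L l56 (L l163 (L l375 (T t157 N)))))))))))))) N))))))))))))) (K a46 (M a106 (L l372 (F (T t305 (L l163 (L l375 (T t2305 (T t2476 (K a210 (M a30 (F (T t305 (L l163 (L l375 (T t2305 (T t2476 N))))))) (K a30 (M a210 (L l60 (F (T t305 (L l163 (L l375 (T t2305 (T t2476 (K a14 (M a62 (L l480 (F (T t305 (L l494 (T t4072 (K a242 (M a166 (F (T t4073 (L l6 (L l450 (T t709 N)))))) (K a166 (M a242 (L l200 (F (T t778 (L l23 (L l410 (T t4074 (K a134 (Fr a182 a122 l444 (V t393)) (K a182 (M a134 (F (T t778 (L l224 (L l324 (L l494 (T t2595 N))))))) N))))))))) N)))))))) (K a62 (M a14 (F (T t305 (L l465 (T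 t733 N))))) N)))))))))) N)))))))))) (K a51 (M a192 (L l372 (F (T t1725 (L l163 (L l375 (L l415 (T t450 (L l163 (L l375 (L l439 (T t21 (K a210 (M a30 (F (T t496 (L l73 (L l375 (L l483 (T t4070 N))))))) (K a30 (M a210 (F (T t1725 (L l60 (L l130 (L l415 (L l516 (T t221 (L l130 (L l439 (L l516 (T t37 N)))))))))))) N)))))))))))))) (K a210 (M a30 (F (T t122 (L l374 (L l480 (T t4069 (L l516 (T t4075 (L l375 (T t4076 N)))))))))) (K a30 (M a210 (F (T t152 (L l13 (T t122 (L l60 (T t151 (T t153 (K a4 (M a85 (F (T t88 (L l218 (L l462 (T t124 (L l60 (T t154 N)))))))) (K a8 (M a85 (F (T t52 (L l218 (L l462 (L l464 (T t124 (L l56 (L l60 (T t154 N)))))))))) (K a21 (M a192 (F (T t468 (L l60 (L l130 (L l516 (T t221 (L l13 (L l15 (L l163 (L l347 (L l375 (T t157 N))))))))))))) (K a25 (M a192 (F (T t836 (L l60 (L l130 (L l516 (T t221 (L l56 (L l130 (L l516 (T t37 N))))))))))) (K a29 (M a28 (F (T t2735 (L l15 (L l350 (T t4077 (L l494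 (T t4078 (L l15 (T t4079 N)))))))))) (K a38 (M a192 (F (T t468 (L l26 (L l60 (L l130 (L l516 (T t221 (L l26 (L l130 (L l516 (T t37 N)))))))))))) (K a42 (M a192 (F (T t836 (L l26 (L l60 (L l130 (L l390 (L l516 (T t221 (L l13 (L l56 (L l163 (L l375 (T t157 N)))))))))))))) (K a46 (M a14 (F (T t727 (L l13 (L l26 (L l375 (T t2505 (L l26 (L l462 (T t2506 N)))))))))) (K a51 (M a192 (F (T t1725 (L l60 (L l130 (L l415 (L l516 (T t221 (L l130 (L l439 (L l516 (T t37 N)))))))))))) N))))))))))))))))) N))))))))))))))))))⟩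
def e0_63__90_91 : Ent 4 := ⟨[a0, a63], [a90, a151], (M a12 (F (T t122 (T t151 (T t152 (L l493 (T t153 (K a4 (M a60 (F (T t69 (L l480 (L l483 (T t398 (L l349 (T t448 N)))))))) (K a8 (M a60 (F (T t67 (L l480 (L l483 (T t398 (L l52 (L l56 (L l349 (T t448 N)))))))))) (K a21 (M a192 (F (T t836 (L l15 (L l163 (L l347 (L l375 (T t450 (L l15 (L l163 (L l347 (L l375 (T t157 N))))))))))))) (K a25 (M a192 (F (T t449 (L l15 (L l163 (L l375 (T t450 (L l163 (L l375 (T t21 N)))))))))) (K a29 (M a192 (F (T t449 (L l163 (L l371 (L l375 (T t21 (L l130 (L l201 (T t160 N)))))))))) (K a38 (M a192 (F (T t836 (L l163 (L l375 (T t450 (L l163 (L l375 (T t21 N))))))))) (K a42 (M a192 (F (T t449 (L l163 (L l375 (T t450 (L l56 (L l163 (L l375 (T t157 N)))))))))) (K a46 (M a192 (F (T t449 (L l163 (L l375 (T t21 (L l26 (L l130 (L l201 (L l408 (T t160 N))))))))))) (K a51 (M a192 (F (T t1725 (L l163 (L l375 (L l415 (T t450 (L l163 (L l375 (L l439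 (T t21 N))))))))))) N))))))))))))))))⟩
def e0_63__90_92 : Ent 4 := ⟨[a0, a63], [a90, a154], (M a12 (L l354 (F (T t122 (T t151 (T t152 (T t153 (K a4 (M a60 (L l354 (F (T t43 (L l480 (L l483 (T t398 (T t448 (K a26 (M a218 (F (T t570 (L l54 (T t69 (L l18 (L l46 (L l50 (T t1096 N))))))))) (K a218 (M a26 (F (T t423 (L l46 (L l50 (L l462 (T t4080 N))))))) N)))))))))) (K a8 (M a60 (L l354 (F (T t67 (L l480 (L l483 (T t398 (L l52 (L l56 (T t448 (K a26 (M a218 (F (T t570 (L l54 (L l56 (T t69 (L l18 (T t1096 N)))))))) (K a218 (M a26 (F (T t423 (L l2 (L l462 (T t4080 N)))))) N)))))))))))) (K a21 (M a149 (L l354 (F (T t958 (L l130 (L l498 (T t648 (L l50 (T t649 (K a26 (M a218 (L l18 (F (T t958 (L l130 (L l498 (T t648 (L l50 (T t649 (K a16 (M a31 (L l368 (F (T t958 (L l54 (L l462 (T t4081 (K a85 (M a223 (L l94 (F (T t958 (L l54 (L l462 (T t4081 (K a80 (Fr a95 a159 l361 (V t991)) (K a95 (M a80 (F (T t650 (L l89 (T t2526 N)))))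 N))))))))) (K a223 (M a85 (F (T t3183 (L l14 (L l362 (T t1369 N)))))) N))))))))) (K a31 (M a16 (F (T t650 (L l50 (L l57 (L l500 (T t652 N))))))) N))))))))))) (K a218 (M a26 (F (T t650 (L l50 (T t649 (L l130 (L l498 (T t648 N)))))))) N))))))))))) (K a25 (M a89 (L l354 (F (T t2786 (T t863 (T t864 (K a26 (M a218 (L l12 (F (T t870 (L l56 (L l206 (L l462 (T t2755 (T t864 (K a24 (M a27 (F (T t870 (L l52 (L l56 (L l206 (L l462 (T t2755 (T t864 N))))))))) (K a27 (M a24 (L l357 (F (T t870 (L l56 (L l75 (L l512 (T t4082 (K a216 (M a153 (F (T t870 (L l56 (L l75 (L l512 (T t4082 N))))))) (K a153 (M a216 (L l164 (F (T t870 (L l56 (L l75 (L l512 (T t4082 (K a152 (M a155 (F (T t870 (L l18 (L l56 (L l75 (L l364 (L l368 (L l508 (L l512 (T t4083 N))))))))))) (K a155 (Fr a152 a88 l352 (V t2788)) N)))))))))) N)))))))))) N))))))))))) (K a218 (M a26 (F (T t3449 (L l15 (L l375 (L l498 (T t4084 N))))))) N)))))))) (K a29 (M a192 (L l354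 (F (T t449 (L l170 (L l371 (L l375 (T t21 (L l130 (L l498 (T t160 (K a26 (M a218 (F (T t468 (L l54 (L l130 (L l498 (T t37 (L l54 (L l130 (L l498 (T t160 N))))))))))) (K a218 (M a26 (F (T t449 (L l13 (L l375 (L l483 (T t4085 N))))))) N))))))))))))) (K a38 (M a166 (L l354 (F (T t2542 (T t2543 (T t2541 (K a26 (M a218 (L l72 (F (T t2542 (L l50 (L l94 (L l368 (T t4086 (T t2541 (K a50 (M a14 (L l510 (F (T t2529 (L l36 (T t726 (K a102 (M a206 (L l148 (F (T t2529 (L l36 (T t726 (K a114 (Fr a78 a142 l324 (V t4086)) (K a78 (M a114 (F (T t2542 (L l42 (T t727 N))))) N)))))))) (K a206 (M a102 (F (T t2542 (L l42 (L l330 (T t727 N)))))) N)))))))) (K a14 (M a50 (F (T t2542 (L l50 (L l94 (L l368 (T t4086 (T t2541 N)))))))) N))))))))))) (K a218 (M a26 (F (T t2542 (L l50 (L l462 (L l483 (T t4087 N))))))) N)))))))) (K a42 (M a106 (L l354 (F (T t2304 (L l170 (L l375 (T t2305 (L l56 (T t2415 (K a26 (M a218 (L l54 (F (T t2304 (L l170 (L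 l375 (T t2305 (L l56 (T t2415 (K a10 (M a58 (L l462 (F (T t2414 (L l57 (L l500 (T t3884 (K a170 (M a250 (L l206 (F (T t2414 (L l57 (L l500 (T t3884 (K a138 (Fr a186 a122 l426 (V t2418)) (K a186 (M a138 (F (T t2304 (L l500 (T t2439 N))))) N))))))))) (K a250 (M a170 (F (T t3207 (L l28 (T t2417 N))))) N))))))))) (K a58 (M a10 (F (T t2414 (L l56 (L l75 (L l483 (T t4088 N))))))) N))))))))))) (K a218 (M a26 (F (T t2414 (L l56 (T t2415 (L l170 (L l375 (T t2305 N)))))))) N))))))))))) (K a46 (M a192 (L l354 (F (T t449 (L l170 (L l375 (T t21 (L l26 (L l130 (L l408 (L l498 (T t160 (K a26 (M a218 (F (T t468 (L l26 (L l54 (L l130 (L l408 (L l498 (T t37 (L l26 (L l54 (L l130 (L l408 (L l498 (T t160 N))))))))))))))) (K a218 (M a26 (F (T t468 (L l26 (L l375 (L l483 (T t4085 N))))))) N)))))))))))))) (K a51 (M a192 (L l354 (F (T t1725 (L l170 (L l375 (L l415 (T t450 (L l170 (L l375 (L l439 (T t21 (K a26 (M a218 (F (T t1725 (L l130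 (L l415 (L l498 (T t221 (L l54 (L l130 (L l439 (L l498 (T t37 N)))))))))))) (K a218 (M a26 (F (T t1725 (L l73 (L l375 (L l483 (T t4085 N))))))) N)))))))))))))) (K a26 (M a218 (F (L l18 (T t122 (L l54 (T t151 (L l18 (T t152 (L l54 (T t153 (K a4 (M a60 (F (T t570 (L l54 (T t69 (L l18 (L l46 (L l50 (T t1096 N))))))))) (K a8 (M a60 (F (T t570 (L l54 (L l56 (T t69 (L l18 (T t1096 N)))))))) (K a21 (M a149 (L l18 (F (T t958 (L l130 (L l498 (T t648 (L l50 (T t649 (K a16 (M a31 (L l368 (F (T t958 (L l54 (L l462 (T t4081 (K a85 (M a223 (L l94 (F (T t958 (L l54 (L l462 (T t4081 (K a80 (Fr a95 a159 l361 (V t991)) (K a95 (M a80 (F (T t650 (L l89 (T t2526 N))))) N))))))))) (K a223 (M a85 (F (T t3183 (L l14 (L l362 (T t1369 N)))))) N))))))))) (K a31 (M a16 (F (T t650 (L l50 (L l57 (L l500 (T t652 N))))))) N))))))))))) (K a25 (M a89 (L l12 (F (T t870 (L l56 (L l206 (L l462 (T t2755 (T t864 (K a24 (M a27 (F (T t870 (L l52 (L l56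 (L l206 (L l462 (T t2755 (T t864 N))))))))) (K a27 (M a24 (L l357 (F (T t870 (L l56 (L l75 (L l512 (T t4082 (K a216 (M a153 (F (T t870 (L l56 (L l75 (L l512 (T t4082 N))))))) (K a153 (M a216 (L l164 (F (T t870 (L l56 (L l75 (L l512 (T t4082 (K a152 (M a155 (F (T t870 (L l18 (L l56 (L l75 (L l364 (L l368 (L l508 (L l512 (T t4083 N))))))))))) (K a155 (Fr a152 a88 l352 (V t2788)) N)))))))))) N)))))))))) N))))))))))) (K a29 (M a192 (F (T t468 (L l54 (L l130 (L l498 (T t37 (L l54 (L l130 (L l498 (T t160 N))))))))))) (K a38 (M a166 (L l72 (F (T t2542 (L l50 (L l94 (L l368 (T t4086 (T t2541 (K a50 (M a14 (L l510 (F (T t2529 (L l36 (T t726 (K a102 (M a206 (L l148 (F (T t2529 (L l36 (T t726 (K a114 (Fr a78 a142 l324 (V t4086)) (K a78 (M a114 (F (T t2542 (L l42 (T t727 N))))) N)))))))) (K a206 (M a102 (F (T t2542 (L l42 (L l330 (T t727 N)))))) N)))))))) (K a14 (M a50 (F (T t2542 (L l50 (L l94 (L l368 (T t4086 (T t2541 N))))))))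 N))))))))))) (K a42 (M a106 (L l54 (F (T t2304 (L l170 (L l375 (T t2305 (L l56 (T t2415 (K a10 (M a58 (L l462 (F (T t2414 (L l57 (L l500 (T t3884 (K a170 (M a250 (L l206 (F (T t2414 (L l57 (L l500 (T t3884 (K a138 (Fr a186 a122 l426 (V t2418)) (K a186 (M a138 (F (T t2304 (L l500 (T t2439 N))))) N))))))))) (K a250 (M a170 (F (T t3207 (L l28 (T t2417 N))))) N))))))))) (K a58 (M a10 (F (T t2414 (L l56 (L l75 (L l483 (T t4088 N))))))) N))))))))))) (K a46 (M a192 (F (T t468 (L l26 (L l54 (L l130 (L l408 (L l498 (T t37 (L l26 (L l54 (L l130 (L l408 (L l498 (T t160 N))))))))))))))) (K a51 (M a192 (F (T t1725 (L l130 (L l415 (L l498 (T t221 (L l54 (L l130 (L l439 (L l498 (T t37 N)))))))))))) N))))))))))))))))))) (K a218 (M a26 (F (T t122 (L l375 (L l498 (T t4084 (K a21 (M a48 (F (L l47 (T t251 (L l356 (L l368 (T t445 N))))))) (K a42 (M a21 (F (L l26 (T t4089 (L l28 (L l368 (L l512 (T t4090 N)))))))) N)))))))) N))))))))))))))))))⟩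
def e0_63__90_93 : Ent 4 := ⟨[a0, a63], [a90, a155], (M a60 (F (T t67 (T t43 (T t68 (T t69 (K a20 (M a48 (F (T t138 (L l11 (L l462 (L l483 (T t1 (L l11 (T t235 N))))))))) (K a40 (M a48 (F (T t236 (L l462 (L l483 (T t1 (L l52 (T t235 N)))))))) (K a21 (M a192 (F (T t72 (L l347 (L l375 (L l499 (T t73 (L l347 (L l375 (T t74 N)))))))))) (K a41 (M a192 (F (T t79 (L l65 (L l375 (T t35 (L l375 (L l499 (T t73 N))))))))) (K a61 (M a192 (F (T t72 (L l65 (L l375 (L l515 (T t35 (L l130 (L l169 (T t80 N)))))))))) (K a22 (M a192 (F (T t72 (L l375 (T t21 (L l375 (L l499 (T t73 N)))))))) (K a42 (M a192 (F (T t77 (L l375 (L l499 (T t73 (L l22 (L l375 (T t74 N))))))))) (K a62 (M a192 (F (T t72 (L l375 (T t35 (L l66 (L l130 (L l169 (L l516 (T t80 N)))))))))) (K a3 (M a192 (F (T t2658 (L l375 (L l475 (T t35 (L l307 (L l375 (L l499 (T t73 N)))))))))) N)))))))))))))))⟩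
def e0_63__90_94 : Ent 4 := ⟨[a0, a63], [a90, a159], (M a12 (F (T t122 (T t151 (T t152 (T t153 (K a4 (M a60 (F (T t43 (L l480 (L l483 (T t398 (T t448 N))))))) (K a8 (M a60 (F (T t67 (L l480 (L l483 (T t398 (L l52 (L l56 (T t448 N))))))))) (K a21 (M a192 (F (T t836 (L l15 (L l170 (L l347 (L l375 (T t450 (L l15 (L l170 (L l347 (L l375 (T t157 N))))))))))))) (K a25 (M a192 (F (T t449 (L l15 (L l170 (L l375 (T t450 (L l170 (L l375 (T t21 N)))))))))) (K a29 (M a192 (F (T t449 (L l170 (L l371 (L l375 (T t21 (L l130 (T t160 N))))))))) (K a38 (M a192 (F (T t836 (L l170 (L l375 (T t450 (L l170 (L l375 (T t21 N))))))))) (K a42 (M a192 (F (T t449 (L l170 (L l375 (T t450 (L l56 (L l170 (L l375 (T t157 N)))))))))) (K a46 (M a192 (F (T t449 (L l170 (L l375 (T t21 (L l26 (L l130 (L l408 (T t160 N)))))))))) (K a51 (M a192 (F (T t1725 (L l170 (L l375 (L l415 (T t450 (L l170 (L l375 (L l439 (T t21 N))))))))))) N)))))))))))))))⟩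
def e0_63__90_95 : Ent 4 := ⟨[a0, a63], [a90, a160], (M a12 (F (T t122 (T t151 (T t152 (T t153 (K a4 (M a60 (F (T t43 (L l480 (L l483 (T t398 (T t448 N))))))) (K a8 (M a60 (F (T t67 (L l480 (L l483 (T t398 (L l52 (L l56 (T t448 N))))))))) (K a21 (M a192 (F (T t836 (L l15 (L l347 (L l375 (T t450 (L l15 (L l347 (L l375 (T t157 N))))))))))) (K a25 (M a192 (F (T t449 (L l15 (L l375 (T t450 (L l192 (L l375 (T t21 N))))))))) (K a29 (M a192 (F (T t449 (L l192 (L l371 (L l375 (T t21 (L l130 (T t160 N))))))))) (K a38 (M a192 (F (T t836 (L l375 (T t450 (L l192 (L l375 (T t21 N)))))))) (K a42 (M a192 (F (T t449 (L l375 (T t450 (L l56 (L l375 (T t157 N)))))))) (K a46 (M a192 (F (T t449 (L l192 (L l375 (T t21 (L l26 (L l130 (L l408 (T t160 N)))))))))) (K a51 (M a192 (F (T t1725 (L l375 (L l415 (T t450 (L l192 (L l375 (L l439 (T t21 N)))))))))) N)))))))))))))))⟩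
def e0_63__90_96 : Ent 4 := ⟨[a0, a63], [a90, a161], (M a12 (F (T t122 (T t151 (T t152 (T t153 (K a4 (M a60 (F (T t570 (L l46 (L l50 (L l453 (T t67 (T t448 N)))))))) (K a8 (M a60 (F (T t116 (L l480 (L l483 (T t398 (L l52 (L l56 (T t448 N))))))))) (K a21 (M a192 (F (T t836 (L l15 (L l347 (L l375 (T t450 (L l15 (L l347 (L l375 (T t157 N))))))))))) (K a25 (M a192 (F (T t449 (L l15 (L l375 (T t450 (L l375 (T t21 N)))))))) (K a29 (M a192 (F (T t449 (L l371 (L l375 (T t21 (L l130 (T t160 N)))))))) (K a38 (M a192 (F (T t156 (L l375 (T t450 (L l375 (T t21 N))))))) (K a42 (M a192 (F (T t449 (L l375 (T t450 (L l56 (L l375 (T t157 N)))))))) (K a46 (M a192 (F (T t449 (L l375 (T t21 (L l26 (L l130 (L l408 (T t160 N))))))))) (K a51 (M a192 (F (T t1725 (L l375 (L l415 (T t450 (L l375 (L l439 (T t21 N))))))))) N)))))))))))))))⟩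
def e0_63__90_97 : Ent 4 := ⟨[a0, a63], [a90, a162], (M a12 (F (T t151 (L l378 (T t122 (T t152 (T t153 (K a4 (M a60 (F (T t43 (L l480 (L l483 (T t398 (T t448 N))))))) (K a8 (M a60 (F (T t67 (L l480 (L l483 (T t398 (L l52 (L l56 (T t448 N))))))))) (K a21 (M a192 (F (T t836 (L l15 (L l347 (L l375 (L l378 (T t450 (L l15 (L l347 (L l375 (L l378 (T t157 N))))))))))))) (K a25 (M a192 (F (T t449 (L l15 (L l375 (L l378 (T t450 (L l196 (L l375 (T t21 N)))))))))) (K a29 (M a192 (F (T t449 (L l196 (L l371 (L l375 (T t21 (L l130 (T t160 N))))))))) (K a38 (M a192 (F (T t836 (L l375 (L l378 (T t450 (L l196 (L l375 (T t21 N))))))))) (K a42 (M a192 (F (T t449 (L l375 (L l378 (T t450 (L l56 (L l375 (L l378 (T t157 N)))))))))) (K a46 (M a192 (F (T t449 (L l196 (L l375 (T t21 (L l26 (L l130 (L l408 (T t160 N)))))))))) (K a51 (M a192 (F (T t1725 (L l375 (L l378 (L l415 (T t450 (L l196 (L l375 (L l439 (T t21 N))))))))))) N))))))))))))))))⟩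
def e0_63__90_98 : Ent 4 := ⟨[a0, a63], [a90, a163], (M a12 (F (T t122 (T t151 (T t152 (T t153 (K a4 (M a60 (F (T t570 (L l46 (L l50 (L l451 (T t67 (T t448 N)))))))) (K a8 (M a60 (F (T t570 (L l451 (T t67 (L l52 (L l56 (T t448 N)))))))) (K a21 (M a192 (F (T t836 (L l15 (L l347 (L l375 (L l451 (T t450 (L l15 (L l347 (L l375 (T t157 N)))))))))))) (K a25 (M a192 (F (T t449 (L l15 (L l375 (L l451 (T t450 (L l375 (T t21 N))))))))) (K a29 (M a192 (F (T t449 (L l371 (L l375 (T t21 (L l130 (T t160 N)))))))) (K a38 (M a192 (F (T t156 (L l375 (L l451 (T t450 (L l375 (T t21 N)))))))) (K a42 (M a192 (F (T t449 (L l375 (L l451 (T t450 (L l56 (L l375 (T t157 N))))))))) (K a46 (M a192 (F (T t449 (L l375 (T t21 (L l26 (L l130 (L l408 (T t160 N))))))))) (K a51 (M a192 (F (T t1725 (L l375 (L l415 (L l451 (T t450 (L l375 (L l439 (T t21 N)))))))))) N)))))))))))))))⟩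
def e0_63__90_99 : Ent 4 := ⟨[a0, a63], [a90, a165], (M a12 (L l483 (F (T t122 (T t151 (T t152 (T t153 (K a4 (M a15 (F (L l411 (T t2544 (L l462 (T t716 (L l1 (L l50 (L l455 (T t2545 N)))))))))) (K a8 (M a15 (F (L l455 (T t731 (L l411 (T t2544 (L l455 (T t2545 N)))))))) (K a21 (M a15 (F (L l411 (T t2544 (L l47 (L l455 (L l479 (T t717 (L l15 (L l18 (L l47 (L l50 (L l375 (L l455 (L l465 (T t2586 (L l65 (L l411 (L l459 (L l462 (T t4091 N))))))))))))))))))))) (K a25 (M a15 (F (L l480 (T t715 (L l56 (L l462 (T t716 (L l71 (L l455 (L l479 (T t717 N))))))))))) (K a29 (M a15 (F (L l411 (T t723 (L l59 (L l455 (L l479 (T t717 (L l59 (L l411 (L l479 (T t722 N)))))))))))) (K a38 (M a15 (F (L l479 (T t2576 (L l50 (L l455 (T t731 (L l455 (L l479 (T t717 N)))))))))) (K a42 (M a15 (F (L l375 (T t720 (L l455 (L l465 (T t2591 (L l66 (L l375 (L l455 (L l465 (T t4092 (L l26 (L l28 (L l54 (L l56 (L l411 (L l459 (L l462 (T t4093 N))))))))))))))))))))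 (K a46 (M a15 (F (L l455 (T t731 (L l459 (L l462 (T t3936 (L l23 (L l26 (L l411 (L l479 (T t722 N)))))))))))) (K a51 (M a15 (F (L l30 (L l455 (T t731 (L l43 (L l459 (L l462 (T t3936 (L l39 (L l411 (T t2544 N)))))))))))) (K a240 (M a15 (F (T t2575 (L l412 (L l462 (T t716 (L l453 (L l455 (L l479 (T t717 N)))))))))) (K a15 (M a240 (F (T t2061 (L l173 (L l180 (L l471 (T t2745 (K a4 (M a48 (F (L l130 (L l151 (T t2934 (L l50 (L l73 (L l387 (T t146 N))))))))) (K a8 (M a48 (F (L l130 (L l151 (T t2934 (L l52 (L l73 (L l387 (T t146 N))))))))) N))))))))) N))))))))))))))))))⟩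
def e0_63__90_100 : Ent 4 := ⟨[a0, a63], [a90, a166], (M a48 (L l480 (F (T t132 (L l462 (L l483 (T t1 (L l483 (T t2 (L l483 (T t3 (L l375 (L l483 (T t0 (K a16 (M a62 (L l480 (F (T t825 (L l18 (T t709 (L l18 (T t826 (K a242 (M a14 (F (T t827 (L l18 (L l372 (L l462 (T t4094 N))))))) (K a14 (M a242 (F (T t827 (L l18 (L l92 (L l200 (T t4095 N))))))) N)))))))))) (K a32 (M a62 (L l480 (F (T t825 (T t709 (L l20 (T t826 (K a242 (M a14 (F (T t827 (L l372 (L l462 (T t4094 N)))))) (K a14 (M a242 (F (T t827 (L l92 (L l200 (T t4095 N)))))) N))))))))) (K a21 (M a192 (L l480 (F (T t1922 (L l130 (L l408 (T t206 (L l47 (L l202 (L l347 (L l375 (T t29 (K a242 (M a14 (F (T t1922 (L l130 (L l408 (T t22 (L l47 (L l202 (L l347 (L l375 (T t29 N))))))))))) (K a14 (M a242 (F (T t1922 (L l130 (L l408 (T t22 (L l47 (L l202 (L l347 (L l375 (T t29 N))))))))))) N)))))))))))))) (K a37 (M a12 (L l480 (F (L l51 (T t1580 (L l47 (T t122 (L l21 (L l28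 (L l357 (L l386 (L l408 (T t3324 (K a242 (M a14 (F (L l410 (T t445 (L l47 (L l414 (T t2585 N))))))) (K a14 (M a242 (F (L l51 (T t1580 (L l47 (T t122 (L l21 (L l28 (L l60 (L l357 (L l386 (L l408 (T t3324 N))))))))))))) N))))))))))))))) (K a53 (M a12 (L l480 (F (L l408 (T t151 (L l386 (T t443 (L l47 (T t146 (K a242 (M a14 (F (L l31 (T t1580 (L l47 (L l414 (T t3934 N))))))) (K a14 (M a242 (F (L l31 (T t1580 (L l47 (T t122 (L l47 (T t146 N)))))))) N))))))))))) (K a26 (M a154 (L l480 (F (T t493 (T t327 (T t527 (K a242 (M a14 (F (T t493 (L l178 (L l462 (T t329 (T t527 N))))))) (K a14 (M a242 (L l72 (F (T t493 (L l178 (L l462 (T t329 (T t527 (K a50 (M a38 (F (T t1998 (L l54 (T t4096 N))))) (K a38 (M a50 (L l384 (F (T t493 (L l6 (T t148 (K a102 (M a230 (L l148 (F (T t473 (L l6 (T t148 (K a114 (M a78 (F (T t327 (L l60 (T t147 N))))) (K a78 (Fr a114 a178 l414 (V t147)) N)))))))) (K a230 (Fr a102 a206 l510 (V t4097)) N))))))))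 N)))))))))) N)))))))) (K a42 (M a192 (L l480 (F (T t36 (L l54 (L l130 (L l390 (L l408 (T t206 (L l28 (L l202 (L l375 (T t29 (K a242 (M a14 (F (T t36 (L l130 (L l390 (L l408 (T t22 (L l28 (L l202 (L l375 (T t29 N))))))))))) (K a14 (M a242 (F (T t36 (L l130 (L l390 (L l408 (T t22 (L l28 (L l202 (L l375 (T t29 N))))))))))) N))))))))))))))) (K a58 (M a12 (L l480 (F (T t122 (L l386 (T t443 (T t146 (K a242 (M a14 (F (T t1580 (L l372 (T t4098 N))))) (K a14 (M a242 (F (T t1580 (T t122 (T t146 N))))) N))))))))) (K a15 (M a12 (L l480 (L l483 (F (T t867 (L l73 (T t122 (L l73 (T t146 (K a240 (M a165 (L l480 (F (T t867 (L l73 (L l417 (T t122 (L l73 (T t146 (K a242 (M a14 (L l258 (F (T t867 (L l73 (L l417 (T t153 (L l73 (T t146 (K a241 (M a243 (F (L l458 (T t150 (L l178 (L l224 (L l273 (L l337 (L l414 (L l450 (T t4099 N))))))))))) (K a243 (M a241 (L l481 (F (T t867 (L l73 (L l415 (L l417 (T t153 (L l73 (T t146 (K a167 (M a91 (F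 (T t867 (L l73 (L l415 (L l417 (T t122 (L l73 (L l385 (T t146 N)))))))))) (K a91 (M a167 (L l88 (F (T t867 (L l73 (L l415 (L l417 (T t122 (L l73 (L l355 (L l357 (L l386 (L l408 (T t3324 (K a88 (Fr a89 a13 l479 (V t122)) (K a89 (M a88 (F (L l371 (L l458 (T t150 (L l63 (L l374 (L l386 (L l442 (L l446 (T t443 (L l73 (L l355 (L l357 (L l386 (L l408 (T t3324 N))))))))))))))))) N)))))))))))))))) N)))))))))))) N))))))))))) (K a14 (M a242 (F (T t867 (L l73 (L l417 (T t122 (L l73 (T t146 N)))))))) N))))))))))) (K a165 (M a240 (L l173 (L l480 (F (T t867 (L l199 (L l462 (L l469 (T t781 (K a164 (M a167 (L l480 (F (T t867 (L l199 (L l462 (L l469 (T t781 (K a242 (M a14 (F (T t867 (L l199 (L l264 (L l462 (L l469 (T t781 N)))))))) (K a14 (M a242 (F (T t867 (L l72 (L l73 (L l479 (T t4100 N))))))) N)))))))))) (K a242 (M a14 (L l173 (F (T t867 (L l199 (L l264 (L l462 (L l469 (T t781 (K a164 (M a167 (F (T t867 (L l199 (L l264 (L l462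 (L l469 (T t781 N)))))))) (K a167 (Fr a164 a88 l478 (V t4101)) N))))))))))) (K a14 (M a242 (L l173 (F (T t867 (L l199 (L l462 (L l469 (T t781 (K a164 (M a167 (F (T t867 (L l72 (L l73 (L l479 (T t4100 N))))))) (K a167 (Fr a164 a88 l478 (V t4102)) N)))))))))) (K a167 (Fr a164 a88 l478 (V t4101)) N))))))))))))) (K a242 (M a14 (L l483 (F (T t867 (L l73 (T t122 (L l73 (T t146 (K a240 (M a165 (L l258 (F (T t867 (L l73 (L l417 (T t153 (L l73 (T t146 (K a241 (M a243 (F (L l458 (T t150 (L l178 (L l224 (L l273 (L l337 (L l414 (L l450 (T t4099 N))))))))))) (K a243 (M a241 (L l481 (F (T t867 (L l73 (L l415 (L l417 (T t153 (L l73 (T t146 (K a167 (M a91 (F (T t867 (L l73 (L l415 (L l417 (T t122 (L l73 (L l385 (T t146 N)))))))))) (K a91 (M a167 (L l88 (F (T t867 (L l73 (L l415 (L l417 (T t122 (L l73 (L l355 (L l357 (L l386 (L l408 (T t3324 (K a88 (Fr a89 a13 l479 (V t122)) (K a89 (M a88 (F (L l371 (L l458 (T t150 (L l63 (L l374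 (L l386 (L l442 (L l446 (T t443 (L l73 (L l355 (L l357 (L l386 (L l408 (T t3324 N))))))))))))))))) N)))))))))))))))) N)))))))))))) N))))))))))) (K a165 (M a240 (L l173 (F (T t867 (L l199 (L l264 (L l462 (L l469 (T t781 (K a164 (M a167 (F (T t867 (L l199 (L l264 (L l462 (L l469 (T t781 N)))))))) (K a167 (Fr a164 a88 l478 (V t4101)) N))))))))))) N)))))))))) (K a14 (M a242 (L l483 (F (T t867 (L l73 (T t122 (L l73 (T t146 (K a240 (M a165 (F (T t867 (L l73 (L l417 (T t122 (L l73 (T t146 N)))))))) (K a165 (M a240 (L l173 (F (T t867 (L l199 (L l462 (L l469 (T t781 (K a164 (M a167 (F (T t867 (L l72 (L l73 (L l479 (T t4100 N))))))) (K a167 (Fr a164 a88 l478 (V t4102)) N)))))))))) N)))))))))) N))))))))))))) (K a242 (M a14 (F (T t132 (L l384 (L l408 (L l462 (T t140 (L l375 (L l414 (T t4103 (K a21 (M a12 (F (T t1580 (L l15 (L l47 (L l414 (T t4104 N))))))) (K a37 (M a12 (F (L l410 (T t445 (L l47 (L l414 (T t2585 N))))))) (K a26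 (M a154 (F (T t493 (L l178 (L l462 (T t329 (T t527 N))))))) (K a42 (M a50 (F (T t301 (L l372 (T t4105 N))))) N)))))))))))))) (K a14 (M a242 (F (T t132 (L l3 (L l6 (L l462 (L l483 (T t1 (L l3 (L l483 (T t2 (L l3 (L l483 (T t3 (L l3 (L l375 (L l483 (T t0 (K a16 (M a240 (F (T t3321 (L l6 (L l344 (T t4106 N)))))) (K a32 (M a240 (F (T t3321 (L l6 (T t4106 N))))) (K a21 (M a240 (F (T t3321 (L l6 (T t4106 N))))) (K a37 (M a240 (F (T t3321 (L l6 (T t4106 N))))) (K a53 (M a240 (F (T t3318 (L l60 (L l419 (T t4107 N)))))) (K a26 (M a50 (L l354 (F (L l60 (T t147 (L l148 (T t4108 (K a154 (M a218 (L l224 (F (L l6 (T t148 (L l130 (L l148 (T t4109 (K a178 (M a142 (F (L l60 (T t147 (L l6 (T t148 (L l16 (L l18 (T t149 N))))))))) (K a142 (Fr a178 a114 l414 (V t4110)) N)))))))))) (K a218 (M a154 (F (L l246 (T t327 (L l60 (T t147 N)))))) N))))))))) (K a42 (M a240 (F (T t3321 (L l6 (L l66 (T t4106 N)))))) (K a58 (M a240 (F (T t3318 (L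 l36 (L l60 (T t4107 N)))))) (K a15 (M a12 (L l483 (F (T t867 (L l73 (T t122 (L l73 (T t146 (K a240 (M a165 (F (T t867 (L l73 (L l417 (T t122 (L l73 (T t146 N)))))))) (K a165 (M a240 (L l173 (F (T t867 (L l199 (L l462 (L l469 (T t781 (K a164 (M a167 (F (T t867 (L l72 (L l73 (L l479 (T t4100 N))))))) (K a167 (Fr a164 a88 l478 (V t4102)) N)))))))))) N)))))))))) N))))))))))))))))))))))))))) N)))))))))))))))))))))))))⟩
def e0_63__90_101 : Ent 4 := ⟨[a0, a63], [a90, a167], (M a12 (F (T t122 (T t151 (T t152 (T t153 (K a4 (M a60 (F (T t43 (L l480 (L l481 (L l483 (T t398 (T t448 N)))))))) (K a8 (M a60 (F (T t67 (L l480 (L l481 (L l483 (T t398 (L l52 (L l56 (T t448 N)))))))))) (K a21 (M a192 (F (T t836 (L l15 (L l347 (L l375 (L l481 (T t450 (L l15 (L l347 (L l375 (L l457 (T t157 N))))))))))))) (K a25 (M a192 (F (T t449 (L l15 (L l375 (L l481 (T t450 (L l375 (T t21 N))))))))) (K a29 (M a192 (F (T t449 (L l371 (L l375 (T t21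 (L l130 (L l201 (T t160 N))))))))) (K a38 (M a192 (F (T t156 (L l375 (L l481 (T t450 (L l375 (T t21 N)))))))) (K a42 (M a192 (F (T t449 (L l375 (L l481 (T t450 (L l56 (L l375 (L l457 (T t157 N)))))))))) (K a46 (M a192 (F (T t449 (L l375 (T t21 (L l26 (L l130 (L l201 (L l408 (T t160 N)))))))))) (K a51 (M a192 (F (T t1725 (L l375 (L l415 (L l481 (T t450 (L l375 (L l439 (T t21 N)))))))))) N)))))))))))))))⟩
def e0_63__90_102 : Ent 4 := ⟨[a0, a63], [a90, a170], (M a60 (L l462 (F (T t67 (L l390 (L l392 (T t43 (L l474 (T t68 (L l390 (T t69 (K a20 (M a10 (F (L l11 (T t2561 (L l480 (T t2562 (L l11 (L l354 (T t2563 (L l11 (T t2564 N))))))))))) (K a40 (M a10 (L l392 (F (T t2561 (L l480 (T t2562 (L l354 (T t2563 (T t2564 (K a105 (M a235 (L l133 (F (T t2561 (L l407 (L l480 (L l515 (T t2562 (L l354 (L l497 (L l515 (T t2563 (L l407 (T t2564 (K a120 (M a75 (F (L l108 (T t4111 (L l354 (L l497 (L l515 (T t2563 (L l407 (T t2564 N))))))))))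 (K a75 (M a120 (F (T t2561 (L l131 (T t2711 N))))) N)))))))))))))))) (K a235 (M a105 (F (T t2561 (L l218 (L l372 (L l388 (T t403 N))))))) N))))))))))) (K a21 (M a192 (L l462 (F (T t1333 (L l130 (L l390 (T t1516 (L l65 (L l220 (L l347 (L l375 (L l392 (T t1636 (K a10 (M a250 (F (T t1333 (L l130 (L l390 (T t1516 (L l65 (L l220 (L l347 (L l375 (L l392 (T t1636 N)))))))))))) (K a250 (M a10 (F (T t1333 (L l18 (L l47 (L l372 (L l375 (T t2566 N)))))))) N))))))))))))))) (K a41 (M a10 (F (L l25 (L l65 (T t2564 (L l29 (L l372 (L l375 (T t2566 (L l53 (L l57 (L l65 (L l354 (T t4112 (L l57 (L l65 (L l354 (T t4113 (L l372 (L l375 (T t4114 N))))))))))))))))))))) (K a61 (M a16 (L l462 (F (L l392 (L l404 (T t1140 (L l375 (L l390 (L l404 (L l483 (T t97 (L l59 (L l354 (L l390 (L l392 (T t1141 (K a10 (M a250 (F (L l392 (L l404 (T t1140 (L l54 (L l375 (L l390 (L l404 (L l483 (T t97 (L l54 (L l390 (L l392 (T t4115 N))))))))))))))) (K a250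 (M a10 (F (T t4116 (L l392 (L l404 (T t1140 N)))))) N)))))))))))))))))) (K a22 (M a192 (L l462 (F (T t1333 (L l66 (L l130 (L l390 (T t1516 (L l220 (L l375 (L l392 (T t1636 (K a10 (M a250 (F (T t1333 (L l66 (L l130 (L l390 (T t1516 (L l220 (L l375 (L l392 (T t1636 N))))))))))) (K a250 (M a10 (F (T t1333 (L l16 (L l372 (L l375 (T t2566 N))))))) N)))))))))))))) (K a42 (M a106 (L l462 (F (T t1512 (L l220 (L l375 (T t565 (L l22 (L l218 (L l220 (L l392 (T t1637 (L l22 (L l392 (T t1638 (K a10 (M a250 (L l54 (F (T t4117 (L l220 (L l375 (T t565 (L l22 (L l218 (L l220 (L l392 (T t1637 (L l22 (L l392 (T t1638 (K a26 (M a58 (L l354 (F (T t1512 (L l18 (T t2374 (K a154 (M a218 (L l206 (F (T t1512 (L l18 (L l368 (T t2374 (K a138 (Fr a186 a122 l426 (V t2378)) (K a186 (M a138 (F (T t4117 (L l18 (L l368 (T t2374 N)))))) N))))))))) (K a218 (Fr a154 a202 l498 (V t4118)) N)))))))) (K a58 (M a26 (F (T t4117 (L l220 (L l375 (T t565 (L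 l22 (L l218 (L l220 (L l392 (T t1637 (L l22 (L l392 (T t1638 N)))))))))))))) N))))))))))))))))) (K a250 (M a10 (F (T t1512 (L l480 (T t2562 (L l220 (L l375 (T t565 N)))))))) N))))))))))))))))) (K a62 (M a16 (L l462 (F (L l392 (L l404 (T t1140 (L l66 (L l375 (L l390 (L l404 (L l483 (T t97 (L l66 (L l354 (L l390 (L l392 (T t1141 (K a10 (M a250 (F (L l392 (L l404 (T t1140 (L l54 (L l66 (L l375 (L l390 (L l404 (L l483 (T t97 (L l54 (L l66 (L l390 (L l392 (T t4115 N))))))))))))))))) (K a250 (M a10 (F (T t4116 (L l392 (L l404 (T t1140 N)))))) N))))))))))))))))))) (K a3 (M a10 (F (L l45 (T t2561 (L l9 (L l480 (T t2562 (L l354 (T t2563 (L l45 (T t2564 N))))))))))) (K a10 (M a250 (F (T t67 (L l54 (L l390 (L l392 (T t43 (L l6 (L l474 (T t68 (L l54 (L l390 (T t69 (K a20 (M a48 (F (T t64 (L l54 (L l375 (L l390 (L l404 (L l483 (T t0 (L l11 (L l14 (T t1419 N)))))))))))) (K a40 (M a240 (L l392 (F (T t3973 (L l54 (T t3843 (T t4119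 (K a105 (M a235 (L l133 (F (T t3973 (L l22 (T t4120 (K a120 (M a75 (F (L l22 (T t4120 (L l148 (L l218 (L l515 (T t4121 N)))))))) (K a75 (Fr a120 a180 l442 (V t4122)) N)))))))) (K a235 (M a105 (F (L l54 (T t3843 (L l218 (L l372 (T t1217 N))))))) N))))))))) (K a21 (M a48 (F (L l11 (L l18 (T t880 (L l47 (L l65 (L l206 (T t4123 N))))))))) (K a41 (M a126 (F (T t4124 (L l65 (L l148 (L l218 (T t4125 N))))))) (K a61 (M a48 (F (T t880 (L l54 (L l375 (L l390 (L l404 (L l483 (T t0 (L l54 (L l390 (L l392 (T t4126 N))))))))))))) (K a22 (M a192 (F (T t1333 (L l66 (L l130 (L l390 (T t1516 (L l220 (L l375 (L l392 (T t1636 N))))))))))) (K a42 (M a106 (L l54 (F (T t4117 (L l220 (L l375 (T t565 (L l22 (L l218 (L l220 (L l392 (T t1637 (L l22 (L l392 (T t1638 (K a26 (M a58 (L l354 (F (T t1512 (L l18 (T t2374 (K a154 (M a218 (L l206 (F (T t1512 (L l18 (L l368 (T t2374 (K a138 (Fr a186 a122 l426 (V t2378)) (K a186 (M a138 (F (T t4117 (L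 l18 (L l368 (T t2374 N)))))) N))))))))) (K a218 (Fr a154 a202 l498 (V t4118)) N)))))))) (K a58 (M a26 (F (T t4117 (L l220 (L l375 (T t565 (L l22 (L l218 (L l220 (L l392 (T t1637 (L l22 (L l392 (T t1638 N)))))))))))))) N))))))))))))))))) (K a62 (M a48 (F (T t880 (L l54 (L l66 (L l375 (L l390 (L l404 (L l483 (T t0 (L l54 (L l66 (L l390 (L l392 (T t4126 N))))))))))))))) (K a3 (M a126 (F (T t4127 (L l148 (L l218 (T t4125 N)))))) N)))))))))))))))))))))) (K a250 (M a10 (F (T t67 (L l426 (T t2561 (L l480 (T t2562 N))))))) N))))))))))))))))))))))⟩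
def e0_63__90_103 : Ent 4 := ⟨[a0, a63], [a90, a171], (M a12 (F (T t122 (T t151 (T t152 (T t153 (K a4 (M a60 (F (T t570 (L l46 (L l50 (L l391 (L l475 (T t67 (T t448 N))))))))) (K a8 (M a60 (F (T t2568 (L l480 (L l483 (T t398 (L l52 (L l56 (T t448 N))))))))) (K a21 (M a192 (F (T t836 (L l15 (L l347 (L l375 (T t450 (L l15 (L l347 (L l375 (T t157 N))))))))))) (K a25 (M a192 (F (T t449 (L l15 (L l375 (T t450 (L l375 (L l475 (T t21 N))))))))) (K a29 (M a192 (F (T t449 (L l371 (L l375 (L l475 (T t21 (L l130 (T t160 N))))))))) (K a38 (M a192 (F (T t836 (L l375 (T t450 (L l375 (L l475 (T t21 N)))))))) (K a42 (M a192 (F (T t449 (L l375 (T t450 (L l56 (L l375 (T t157 N)))))))) (K a46 (M a192 (F (T t449 (L l375 (L l475 (T t21 (L l26 (L l130 (L l408 (T t160 N)))))))))) (K a51 (M a192 (F (T t1725 (L l375 (L l415 (T t450 (L l375 (L l439 (L l475 (T t21 N)))))))))) N)))))))))))))))⟩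
def e0_63__90_104 : Ent 4 := ⟨[a0, a63], [a90, a175], (M a12 (F (T t122 (T t151 (T t152 (T t153 (K a4 (M a60 (F (T t43 (L l469 (L l480 (L l483 (T t398 (T t448 N)))))))) (K a8 (M a60 (F (T t67 (L l469 (L l480 (L l483 (T t398 (L l52 (L l56 (T t448 N)))))))))) (K a21 (M a192 (F (T t836 (L l15 (L l347 (L l375 (T t450 (L l15 (L l347 (L l375 (T t157 N))))))))))) (K a25 (M a192 (F (T t449 (L l15 (L l375 (T t450 (L l375 (L l469 (T t21 N))))))))) (K a29 (M a192 (F (T t449 (L l371 (L l375 (L l469 (T t21 (L l130 (T t160 N))))))))) (K a38 (M a192 (F (T t836 (L l375 (T t450 (L l375 (L l469 (T t21 N)))))))) (K a42 (M a192 (F (T t449 (L l375 (T t450 (L l56 (L l375 (T t157 N)))))))) (K a46 (M a192 (F (T t449 (L l375 (L l469 (T t21 (L l26 (L l130 (L l408 (T t160 N)))))))))) (K a51 (M a192 (F (T t1725 (L l375 (L l415 (T t450 (L l375 (L l439 (L l469 (T t21 N)))))))))) N)))))))))))))))⟩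
def e0_63__90_105 : Ent 4 := ⟨[a0, a63], [a90, a176], (M a12 (F (T t122 (T t151 (T t152 (T t153 (K a4 (M a60 (F (T t43 (L l480 (L l483 (T t398 (T t448 N))))))) (K a8 (M a60 (F (T t67 (L l480 (L l483 (T t398 (L l52 (L l56 (T t448 N))))))))) (K a21 (M a192 (F (T t468 (L l15 (L l347 (L l375 (T t450 (L l15 (L l347 (L l375 (T t157 N))))))))))) (K a25 (M a192 (F (T t449 (L l15 (L l375 (T t450 (L l192 (L l375 (T t21 N))))))))) (K a29 (M a192 (F (T t449 (L l192 (L l371 (L l375 (T t21 (L l130 (T t160 N))))))))) (K a38 (M a192 (F (T t468 (L l375 (T t450 (L l192 (L l375 (T t21 N)))))))) (K a42 (M a192 (F (T t449 (L l375 (T t450 (L l56 (L l375 (T t157 N)))))))) (K a46 (M a192 (F (T t449 (L l192 (L l375 (T t21 (L l26 (L l130 (L l408 (T t160 N)))))))))) (K a51 (M a192 (F (T t2119 (L l375 (L l415 (T t450 (L l192 (L l375 (L l439 (T t21 N)))))))))) N)))))))))))))))⟩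
def e0_63__90_106 : Ent 4 := ⟨[a0, a63], [a90, a177], (M a60 (F (T t67 (T t43 (T t68 (T t69 (K a20 (M a48 (F (T t277 (L l11 (L l462 (L l483 (T t1 (L l11 (T t235 N))))))))) (K a40 (M a48 (F (T t246 (L l462 (L l483 (T t1 (L l52 (T t235 N)))))))) (K a21 (M a192 (F (T t72 (L l347 (L l375 (T t73 (L l347 (L l375 (T t74 N))))))))) (K a41 (M a192 (F (T t79 (L l65 (L l375 (T t35 (L l375 (T t73 N)))))))) (K a61 (M a192 (F (T t72 (L l65 (L l375 (L l515 (T t35 (L l130 (T t80 N))))))))) (K a22 (M a192 (F (T t72 (L l375 (T t21 (L l375 (T t73 N))))))) (K a42 (M a192 (F (T t77 (L l375 (T t73 (L l22 (L l375 (T t74 N)))))))) (K a62 (M a192 (F (T t72 (L l375 (T t35 (L l66 (L l130 (L l516 (T t80 N))))))))) (K a3 (M a192 (F (T t2658 (L l375 (L l475 (T t35 (L l307 (L l375 (T t73 N))))))))) N)))))))))))))))⟩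
def e0_63__90_107 : Ent 4 := ⟨[a0, a63], [a90, a178], (M a12 (F (T t122 (T t151 (T t152 (T t153 (K a4 (M a60 (F (T t43 (L l480 (L l483 (T t398 (T t448 N))))))) (K a8 (M a60 (F (T t67 (L l480 (L l483 (T t398 (L l52 (L l56 (T t448 N))))))))) (K a21 (M a192 (F (T t836 (L l15 (L l347 (L l375 (L l416 (T t450 (L l15 (L l347 (L l375 (T t157 N)))))))))))) (K a25 (M a192 (F (T t449 (L l15 (L l375 (L l416 (T t450 (L l375 (T t21 N))))))))) (K a29 (M a192 (F (T t449 (L l371 (L l375 (T t21 (L l130 (T t160 N)))))))) (K a38 (M a192 (F (T t156 (L l375 (L l416 (T t450 (L l375 (T t21 N)))))))) (K a42 (M a192 (F (T t449 (L l375 (L l416 (T t450 (L l56 (L l375 (T t157 N))))))))) (K a46 (M a192 (F (T t449 (L l375 (T t21 (L l26 (L l130 (L l408 (T t160 N))))))))) (K a51 (M a192 (F (T t1725 (L l375 (L l415 (L l416 (T t450 (L l375 (L l439 (T t21 N)))))))))) N)))))))))))))))⟩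
def e0_63__90_108 : Ent 4 := ⟨[a0, a63], [a90, a179], (M a60 (F (T t67 (T t43 (T t68 (T t69 (K a20 (M a48 (F (T t138 (L l11 (L l462 (L l483 (T t1 (L l11 (T t235 N))))))))) (K a40 (M a48 (F (T t246 (L l462 (L l483 (T t1 (L l52 (T t235 N)))))))) (K a21 (M a192 (F (T t72 (L l347 (L l375 (T t73 (L l196 (L l347 (L l375 (T t74 N)))))))))) (K a41 (M a192 (F (T t79 (L l65 (L l375 (T t35 (L l375 (T t73 N)))))))) (K a61 (M a192 (F (T t72 (L l65 (L l375 (L l515 (T t35 (L l130 (T t80 N))))))))) (K a22 (M a192 (F (T t72 (L l196 (L l375 (T t21 (L l375 (T t73 N)))))))) (K a42 (M a192 (F (T t79 (L l375 (T t73 (L l22 (L l196 (L l375 (T t74 N))))))))) (K a62 (M a192 (F (T t72 (L l375 (T t35 (L l66 (L l130 (L l516 (T t80 N))))))))) (K a3 (M a192 (F (T t2647 (L l375 (L l475 (T t35 (L l307 (L l375 (T t73 N))))))))) N)))))))))))))))⟩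
def e0_63__90_109 : Ent 4 := ⟨[a0, a63], [a90, a181], (M a12 (F (T t122 (T t151 (T t152 (L l423 (T t153 (K a4 (M a60 (F (T t43 (L l443 (L l480 (L l483 (T t398 (T t448 N)))))))) (K a8 (M a60 (F (T t67 (L l443 (L l480 (L l483 (T t398 (L l52 (L l56 (T t448 N)))))))))) (K a21 (M a192 (F (T t836 (L l15 (L l199 (L l347 (L l375 (T t450 (L l15 (L l199 (L l347 (L l375 (T t157 N))))))))))))) (K a25 (M a192 (F (T t449 (L l15 (L l199 (L l375 (T t450 (L l199 (L l375 (T t21 N)))))))))) (K a29 (M a192 (F (T t449 (L l199 (L l371 (L l375 (T t21 (L l130 (L l183 (T t160 N)))))))))) (K a38 (M a192 (F (T t836 (L l199 (L l375 (T t450 (L l199 (L l375 (T t21 N))))))))) (K a42 (M a192 (F (T t449 (L l199 (L l375 (T t450 (L l56 (L l199 (L l375 (T t157 N)))))))))) (K a46 (M a192 (F (T t449 (L l199 (L l375 (T t21 (L l26 (L l130 (L l183 (L l408 (T t160 N))))))))))) (K a51 (M a192 (F (T t1725 (L l199 (L l375 (L l415 (T t450 (L l199 (L l375 (L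 l439 (T t21 N))))))))))) N))))))))))))))))⟩
def e0_63__90_110 : Ent 4 := ⟨[a0, a63], [a90, a182], (M a12 (F (T t122 (T t151 (T t152 (T t153 (K a4 (M a60 (F (T t43 (L l480 (L l483 (T t398 (T t448 N))))))) (K a8 (M a60 (F (T t67 (L l480 (L l483 (T t398 (L l52 (L l56 (T t448 N))))))))) (K a21 (M a192 (F (T t836 (L l15 (L l347 (L l375 (L l446 (T t450 (L l15 (L l347 (L l375 (L l422 (T t157 N))))))))))))) (K a25 (M a192 (F (T t449 (L l15 (L l375 (L l446 (T t450 (L l375 (T t21 N))))))))) (K a29 (M a192 (F (T t449 (L l371 (L l375 (T t21 (L l130 (L l183 (T t160 N))))))))) (K a38 (M a192 (F (T t156 (L l375 (L l446 (T t450 (L l375 (T t21 N)))))))) (K a42 (M a192 (F (T t449 (L l375 (L l446 (T t450 (L l56 (L l375 (L l422 (T t157 N)))))))))) (K a46 (M a192 (F (T t449 (L l375 (T t21 (L l26 (L l130 (L l183 (L l408 (T t160 N)))))))))) (K a51 (M a192 (F (T t1725 (L l375 (L l415 (L l446 (T t450 (L l375 (L l439 (T t21 N)))))))))) N)))))))))))))))⟩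
def e0_63__90_111 : Ent 4 := ⟨[a0, a63], [a90, a183], (M a12 (F (T t122 (T t151 (T t152 (L l421 (T t153 (K a4 (M a60 (F (T t43 (L l480 (L l483 (T t398 (T t448 N))))))) (K a8 (M a60 (F (T t67 (L l480 (L l483 (T t398 (L l52 (L l56 (T t448 N))))))))) (K a21 (M a192 (F (T t836 (L l15 (L l202 (L l347 (L l375 (T t450 (L l50 (L l130 (T t2473 N))))))))))) (K a25 (M a192 (F (T t836 (L l15 (L l202 (L l375 (T t450 (L l130 (L l189 (T t202 N)))))))))) (K a29 (M a192 (F (T t836 (L l130 (L l189 (T t202 (L l15 (L l202 (L l371 (L l375 (T t2569 N))))))))))) (K a38 (M a192 (F (T t836 (L l202 (L l375 (T t450 (L l130 (L l189 (T t202 N))))))))) (K a42 (M a192 (F (T t836 (L l202 (L l375 (T t450 (L l26 (L l130 (L l390 (T t2473 N)))))))))) (K a46 (M a192 (F (T t836 (L l130 (L l189 (L l408 (T t202 (L l202 (L l375 (T t2569 N)))))))))) (K a51 (M a192 (F (T t1725 (L l202 (L l375 (L l415 (T t450 (L l130 (L l189 (L l439 (T t202 N))))))))))) N))))))))))))))))⟩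
def e0_63__90_112 : Ent 4 := ⟨[a0, a63], [a90, a186], (M a12 (F (T t122 (T t151 (T t152 (T t153 (K a4 (M a60 (F (T t43 (L l480 (L l483 (T t398 (T t448 N))))))) (K a8 (M a60 (F (T t67 (L l480 (L l483 (T t398 (L l52 (L l56 (T t448 N))))))))) (K a21 (M a192 (F (T t836 (L l15 (L l347 (L l375 (T t450 (L l15 (L l347 (L l375 (T t157 N))))))))))) (K a25 (M a192 (F (T t449 (L l15 (L l375 (T t450 (L l375 (L l440 (T t21 N))))))))) (K a29 (M a192 (F (T t449 (L l371 (L l375 (L l440 (T t21 (L l130 (T t160 N))))))))) (K a38 (M a192 (F (T t836 (L l375 (T t450 (L l375 (L l440 (T t21 N)))))))) (K a42 (M a192 (F (T t449 (L l375 (T t450 (L l56 (L l375 (T t157 N)))))))) (K a46 (M a192 (F (T t449 (L l375 (L l440 (T t21 (L l26 (L l130 (L l408 (T t160 N)))))))))) (K a51 (M a192 (F (T t1725 (L l375 (L l415 (T t450 (L l375 (L l439 (L l440 (T t21 N)))))))))) N)))))))))))))))⟩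
def e0_63__90_113 : Ent 4 := ⟨[a0, a63], [a90, a187], (M a60 (F (T t67 (T t43 (T t68 (T t69 (K a20 (M a48 (F (T t138 (L l11 (L l462 (L l483 (T t1 (L l11 (T t235 N))))))))) (K a40 (M a48 (F (T t236 (L l462 (L l483 (T t1 (L l52 (T t235 N)))))))) (K a21 (M a192 (F (T t72 (L l347 (L l375 (T t73 (L l347 (L l375 (T t74 N))))))))) (K a41 (M a192 (F (T t77 (L l65 (L l375 (L l439 (T t35 (L l375 (T t73 N))))))))) (K a61 (M a192 (F (T t72 (L l65 (L l375 (L l439 (L l515 (T t35 (L l130 (T t80 N)))))))))) (K a22 (M a192 (F (T t72 (L l375 (L l439 (T t21 (L l375 (T t73 N)))))))) (K a42 (M a192 (F (T t77 (L l375 (T t73 (L l22 (L l375 (T t74 N)))))))) (K a62 (M a192 (F (T t72 (L l375 (L l439 (T t35 (L l66 (L l130 (L l516 (T t80 N)))))))))) (K a3 (M a192 (F (T t2658 (L l375 (L l439 (L l475 (T t35 (L l307 (L l375 (T t73 N)))))))))) N)))))))))))))))⟩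
def e0_63__90_114 : Ent 4 := ⟨[a0, a63], [a90, a191], (M a12 (F (T t122 (T t151 (T t152 (T t153 (K a4 (M a60 (F (T t43 (L l480 (L l483 (T t398 (T t448 N))))))) (K a8 (M a60 (F (T t67 (L l480 (L l483 (T t398 (L l52 (L l56 (T t448 N))))))))) (K a21 (M a192 (F (T t468 (L l130 (T t221 (L l15 (L l220 (L l347 (L l375 (T t157 N)))))))))) (K a25 (M a192 (F (T t449 (L l130 (T t221 (L l15 (L l220 (L l375 (T t35 N))))))))) (K a29 (M a192 (F (T t449 (L l15 (L l220 (L l371 (L l375 (T t35 (L l130 (L l189 (T t160 N))))))))))) (K a38 (M a192 (F (T t468 (L l26 (L l130 (T t221 (L l50 (L l220 (L l375 (T t35 N)))))))))) (K a42 (M a192 (F (T t449 (L l26 (L l130 (L l390 (T t221 (L l56 (L l220 (L l375 (T t157 N))))))))))) (K a46 (M a192 (F (T t449 (L l220 (L l375 (T t35 (L l26 (L l130 (L l189 (L l408 (T t160 N))))))))))) (K a51 (M a192 (F (T t2119 (L l130 (L l415 (T t221 (L l220 (L l375 (L l439 (T t35 N)))))))))) N)))))))))))))))⟩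
def e0_63__90_115 : Ent 4 := ⟨[a0, a63], [a90, a192], (M a12 (F (T t150 (L l489 (T t122 (L l489 (T t151 (L l489 (T t152 (L l489 (T t153 (K a4 (M a60 (F (T t570 (L l46 (L l50 (L l309 (T t67 (T t448 N)))))))) (K a8 (M a60 (F (T t570 (L l309 (T t67 (L l52 (L l56 (T t448 N)))))))) (K a21 (M a255 (F (T t2030 (L l94 (L l272 (L l347 (T t2031 (L l15 (L l272 (L l462 (T t2032 N))))))))))) (K a25 (M a48 (F (T t865 (L l15 (L l339 (L l462 (L l483 (T t1 (L l12 (L l56 (T t866 N))))))))))) (K a29 (M a48 (F (T t145 (L l15 (L l339 (L l462 (L l483 (T t1 (T t866 N))))))))) (K a38 (M a48 (F (T t867 (L l26 (L l339 (L l483 (T t2 (L l21 (L l50 (L l357 (L l462 (T t868 N)))))))))))) (K a42 (M a255 (F (T t2130 (L l94 (L l272 (T t2031 (L l56 (L l272 (L l390 (L l462 (T t2032 N))))))))))) (K a46 (M a48 (F (T t865 (L l339 (L l462 (L l483 (T t1 (L l26 (T t866 N))))))))) (K a51 (M a16 (L l489 (F (T t112 (L l39 (L l514 (T t871 (L l354 (L l372 (T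 t872 (K a145 (M a98 (F (T t2517 (L l73 (L l339 (L l375 (L l483 (T t97 (L l354 (L l372 (T t872 N))))))))))) (K a98 (M a145 (F (T t2517 (L l73 (L l339 (L l375 (L l483 (T t97 (L l354 (L l372 (T t872 N))))))))))) N)))))))))))) N))))))))))))))))))))⟩
def e0_63__90_116 : Ent 4 := ⟨[a0, a63], [a90, a193], (M a12 (F (T t122 (T t151 (T t152 (T t153 (K a4 (M a60 (F (T t43 (L l480 (L l483 (L l515 (T t398 (T t448 N)))))))) (K a8 (M a60 (F (T t67 (L l480 (L l483 (L l515 (T t398 (L l52 (L l56 (T t448 N)))))))))) (K a21 (M a192 (F (T t836 (L l15 (L l347 (L l375 (L l515 (T t450 (L l15 (L l347 (L l375 (L l515 (T t157 N))))))))))))) (K a25 (M a192 (F (T t449 (L l15 (L l375 (L l515 (T t450 (L l375 (L l515 (T t21 N)))))))))) (K a29 (M a192 (F (T t449 (L l371 (L l375 (L l515 (T t21 (L l130 (L l293 (T t160 N)))))))))) (K a38 (M a192 (F (T t836 (L l375 (L l515 (T t450 (L l375 (L l515 (T t21 N))))))))) (K a42 (M a192 (F (T t449 (L l375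 (L l515 (T t450 (L l56 (L l375 (L l515 (T t157 N)))))))))) (K a46 (M a192 (F (T t449 (L l375 (L l515 (T t21 (L l26 (L l130 (L l293 (L l408 (T t160 N))))))))))) (K a51 (M a192 (F (T t1725 (L l375 (L l415 (L l515 (T t450 (L l375 (L l439 (L l515 (T t21 N))))))))))) N)))))))))))))))⟩
def e0_63__90_117 : Ent 4 := ⟨[a0, a63], [a90, a194], (M a12 (F (T t122 (T t151 (T t152 (T t153 (K a4 (M a60 (F (T t43 (L l336 (L l480 (L l483 (T t398 (T t448 N)))))))) (K a8 (M a60 (F (T t67 (L l336 (L l480 (L l483 (T t398 (L l52 (L l56 (T t448 N)))))))))) (K a21 (M a192 (F (T t836 (L l15 (L l270 (L l347 (L l375 (T t450 (L l15 (L l270 (L l347 (L l375 (T t157 N))))))))))))) (K a25 (M a192 (F (T t449 (L l15 (L l270 (L l375 (T t450 (L l375 (T t21 N))))))))) (K a29 (M a192 (F (T t449 (L l371 (L l375 (T t21 (L l130 (L l516 (T t160 N))))))))) (K a38 (M a192 (F (T t836 (L l270 (L l375 (T t450 (L l375 (T t21 N)))))))) (K a42 (M a192 (F (T t449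 (L l270 (L l375 (T t450 (L l56 (L l270 (L l375 (T t157 N)))))))))) (K a46 (M a192 (F (T t449 (L l375 (T t21 (L l26 (L l130 (L l408 (L l516 (T t160 N)))))))))) (K a51 (M a192 (F (T t1725 (L l270 (L l375 (L l415 (T t450 (L l375 (L l439 (T t21 N)))))))))) N)))))))))))))))⟩
def e0_63__90_118 : Ent 4 := ⟨[a0, a63], [a90, a195], (M a12 (F (T t150 (L l487 (T t122 (L l487 (T t151 (L l487 (T t152 (L l487 (T t153 (K a4 (M a60 (F (T t570 (L l46 (L l50 (L l307 (T t67 (T t448 N)))))))) (K a8 (M a60 (F (T t570 (L l307 (T t67 (L l52 (L l56 (T t448 N)))))))) (K a21 (M a192 (F (T t1725 (L l15 (L l271 (L l347 (L l375 (T t450 (L l15 (L l347 (L l375 (T t157 N)))))))))))) (K a25 (M a192 (F (T t496 (L l15 (L l271 (L l375 (T t450 (L l295 (L l375 (T t21 N)))))))))) (K a29 (M a192 (F (T t159 (L l295 (L l371 (L l375 (T t21 (L l130 (T t160 N))))))))) (K a38 (M a192 (F (T t1725 (L l271 (L l375 (T t450 (L l295 (L l375 (T t21 N))))))))) (K a42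 (M a192 (F (T t496 (L l271 (L l375 (T t450 (L l56 (L l375 (T t157 N))))))))) (K a46 (M a192 (F (T t1725 (L l295 (L l375 (T t21 (L l26 (L l130 (L l408 (T t160 N)))))))))) (K a51 (M a192 (L l487 (F (T t1725 (L l271 (L l375 (L l415 (T t450 (L l295 (L l375 (L l439 (T t21 (K a147 (M a99 (F (T t2119 (L l130 (L l271 (L l415 (T t221 (L l130 (L l295 (L l439 (T t37 N))))))))))) (K a99 (M a147 (F (T t2119 (L l130 (L l271 (L l415 (T t221 (L l130 (L l295 (L l439 (T t37 N))))))))))) N)))))))))))))) N))))))))))))))))))))⟩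
def e0_63__90_119 : Ent 4 := ⟨[a0, a63], [a90, a197], (M a12 (F (T t122 (T t151 (T t152 (T t153 (K a4 (M a60 (F (T t43 (L l480 (L l483 (T t398 (T t448 N))))))) (K a8 (M a60 (F (T t67 (L l480 (L l483 (T t398 (L l52 (L l56 (T t448 N))))))))) (K a21 (M a192 (F (T t836 (L l15 (L l347 (L l375 (L l491 (T t450 (L l15 (L l347 (L l375 (L l491 (T t157 N))))))))))))) (K a25 (M a192 (F (T t449 (L l15 (L l375 (L l491 (T t450 (L l375 (L l491 (T t21 N)))))))))) (K a29 (M a192 (F (T t449 (L l371 (L l375 (L l491 (T t21 (L l130 (L l275 (T t160 N)))))))))) (K a38 (M a192 (F (T t836 (L l375 (L l491 (T t450 (L l375 (L l491 (T t21 N))))))))) (K a42 (M a192 (F (T t449 (L l375 (L l491 (T t450 (L l56 (L l375 (L l491 (T t157 N)))))))))) (K a46 (M a192 (F (T t449 (L l375 (L l491 (T t21 (L l26 (L l130 (L l275 (L l408 (T t160 N))))))))))) (K a51 (M a192 (F (T t1725 (L l375 (L l415 (L l491 (T t450 (L l375 (L l439 (L l491 (T t21 N))))))))))) N)))))))))))))))⟩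
def e0_63__90_120 : Ent 4 := ⟨[a0, a63], [a90, a198], (M a12 (F (T t122 (T t151 (T t152 (T t153 (K a4 (M a60 (F (T t43 (L l480 (L l483 (T t398 (T t448 N))))))) (K a8 (M a60 (F (T t67 (L l480 (L l483 (T t398 (L l52 (L l56 (T t448 N))))))))) (K a21 (M a192 (F (T t1725 (L l15 (L l347 (L l375 (T t450 (L l15 (L l347 (L l375 (T t157 N))))))))))) (K a25 (M a192 (F (T t496 (L l15 (L l375 (T t450 (L l375 (T t21 N)))))))) (K a29 (M a192 (F (T t159 (L l371 (L l375 (T t21 (L l130 (T t160 N)))))))) (K a38 (M a192 (F (T t1725 (L l375 (T t450 (L l375 (T t21 N))))))) (K a42 (M a192 (F (T t159 (L l375 (T t450 (L l56 (L l375 (T t157 N)))))))) (K a46 (M a192 (F (T t159 (L l375 (T t21 (L l26 (L l130 (L l408 (T t160 N))))))))) (K a51 (M a192 (F (T t1725 (L l375 (L l415 (T t450 (L l375 (L l439 (T t21 N))))))))) N)))))))))))))))⟩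
def e0_63__90_121 : Ent 4 := ⟨[a0, a63], [a90, a199], (M a60 (F (T t67 (T t43 (T t68 (T t69 (K a20 (M a48 (F (T t64 (L l11 (L l462 (L l483 (T t1 (L l11 (L l313 (T t235 N)))))))))) (K a40 (M a48 (F (T t64 (L l462 (L l483 (T t1 (L l52 (L l313 (T t235 N))))))))) (K a21 (M a192 (F (T t72 (L l235 (L l347 (L l375 (T t73 (L l277 (L l347 (L l375 (T t74 N))))))))))) (K a41 (M a192 (F (T t77 (L l65 (L l375 (T t35 (L l235 (L l375 (T t73 N))))))))) (K a61 (M a192 (F (T t72 (L l65 (L l375 (L l515 (T t35 (L l130 (L l493 (T t80 N)))))))))) (K a22 (M a192 (F (T t72 (L l375 (T t21 (L l235 (L l375 (T t73 N)))))))) (K a42 (M a192 (F (T t77 (L l235 (L l375 (T t73 (L l22 (L l277 (L l375 (T t74 N)))))))))) (K a62 (M a192 (F (T t72 (L l375 (T t35 (L l66 (L l130 (L l493 (L l516 (T t80 N)))))))))) (K a3 (M a192 (F (T t2658 (L l375 (L l475 (T t35 (L l235 (L l307 (L l375 (T t73 N)))))))))) N)))))))))))))))⟩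
def e0_63__90_122 : Ent 4 := ⟨[a0, a63], [a90, a202], (M a12 (F (T t122 (T t151 (T t152 (T t153 (K a4 (M a60 (F (T t43 (L l480 (L l483 (T t398 (T t448 N))))))) (K a8 (M a60 (F (T t67 (L l480 (L l483 (T t398 (L l52 (L l56 (T t448 N))))))))) (K a21 (M a192 (F (T t836 (L l15 (L l347 (L l375 (T t450 (L l15 (L l347 (L l375 (T t157 N))))))))))) (K a25 (M a192 (F (T t156 (L l15 (L l375 (T t450 (L l375 (T t21 N)))))))) (K a29 (M a192 (F (T t156 (L l371 (L l375 (T t21 (L l130 (L l498 (T t160 N))))))))) (K a38 (M a192 (F (T t156 (L l375 (T t450 (L l375 (T t21 N))))))) (K a42 (M a192 (F (T t836 (L l375 (T t450 (L l56 (L l375 (T t157 N)))))))) (K a46 (M a192 (F (T t156 (L l375 (T t21 (L l26 (L l130 (L l408 (L l498 (T t160 N)))))))))) (K a51 (M a192 (F (T t1725 (L l375 (L l415 (T t450 (L l375 (L l439 (T t21 N))))))))) N)))))))))))))))⟩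
def e0_63__90_123 : Ent 4 := ⟨[a0, a63], [a90, a203], (M a60 (F (T t67 (T t43 (T t68 (T t69 (K a20 (M a48 (F (T t64 (L l11 (L l462 (L l483 (T t1 (L l11 (L l500 (T t235 N)))))))))) (K a40 (M a48 (F (T t64 (L l462 (L l483 (T t1 (L l52 (L l500 (T t235 N))))))))) (K a21 (M a192 (F (T t72 (L l235 (L l347 (L l375 (L l499 (T t73 (L l347 (L l375 (T t74 N))))))))))) (K a41 (M a192 (F (T t77 (L l65 (L l375 (T t35 (L l235 (L l375 (L l499 (T t73 N)))))))))) (K a61 (M a192 (F (T t72 (L l65 (L l375 (L l515 (T t35 (L l130 (T t80 N))))))))) (K a22 (M a192 (F (T t72 (L l375 (T t21 (L l235 (L l375 (L l499 (T t73 N))))))))) (K a42 (M a192 (F (T t77 (L l235 (L l375 (L l499 (T t73 (L l22 (L l375 (T t74 N)))))))))) (K a62 (M a192 (F (T t72 (L l375 (T t35 (L l66 (L l130 (L l516 (T t80 N))))))))) (K a3 (M a192 (F (T t2658 (L l375 (L l475 (T t35 (L l235 (L l307 (L l375 (L l499 (T t73 N))))))))))) N)))))))))))))))⟩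
def e0_63__90_124 : Ent 4 := ⟨[a0, a63], [a90, a207], (M a12 (F (T t150 (L l511 (T t122 (L l511 (T t151 (L l511 (T t152 (L l511 (T t153 (K a4 (M a60 (F (T t570 (L l46 (L l50 (L l331 (T t67 (T t448 N)))))))) (K a8 (M a60 (F (T t570 (L l331 (T t67 (L l52 (L l56 (T t448 N)))))))) (K a21 (M a192 (F (T t1725 (L l15 (L l301 (L l347 (L l375 (T t450 (L l15 (L l347 (L l375 (T t157 N)))))))))))) (K a25 (M a192 (F (T t496 (L l15 (L l301 (L l375 (T t450 (L l289 (L l375 (T t21 N)))))))))) (K a29 (M a192 (F (T t159 (L l289 (L l371 (L l375 (T t21 (L l130 (T t160 N))))))))) (K a38 (M a192 (F (T t1725 (L l301 (L l375 (T t450 (L l289 (L l375 (T t21 N))))))))) (K a42 (M a192 (F (T t496 (L l301 (L l375 (T t450 (L l56 (L l375 (T t157 N))))))))) (K a46 (M a192 (F (T t1725 (L l289 (L l375 (T t21 (L l26 (L l130 (L l408 (T t160 N)))))))))) (K a51 (M a192 (L l511 (F (T t1725 (L l301 (L l375 (L l415 (T t450 (L l289 (L l375 (L l439 (T t21 (K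 a103 (M a155 (F (T t2119 (L l130 (L l301 (L l415 (T t221 (L l130 (L l289 (L l439 (T t37 N))))))))))) (K a155 (M a103 (F (T t2119 (L l130 (L l301 (L l415 (T t221 (L l130 (L l289 (L l439 (T t37 N))))))))))) N)))))))))))))) N))))))))))))))))))))⟩
def e0_63__90_125 : Ent 4 := ⟨[a0, a63], [a90, a208], (M a12 (L l375 (F (T t122 (T t151 (T t152 (T t153 (K a4 (M a149 (F (L l238 (T t650 (L l246 (L l268 (T t5 (L l238 (L l246 (T t960 N)))))))))) (K a8 (M a149 (F (L l268 (T t991 (L l56 (L l246 (T t176 (L l56 (L l238 (L l246 (T t960 N))))))))))) (K a21 (M a149 (F (L l238 (T t650 (L l130 (T t648 (L l50 (L l238 (T t649 N))))))))) (K a25 (M a149 (F (L l130 (T t177 (L l238 (L l268 (T t958 (L l238 (T t649 N))))))))) (K a29 (M a149 (F (L l246 (T t176 (L l130 (T t648 (L l246 (T t961 N)))))))) (K a38 (M a149 (F (L l130 (T t177 (L l268 (T t991 (L l26 (L l50 (L l238 (T t649 N)))))))))) (K a42 (M a149 (F (L l268 (T t991 (L l130 (L l390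 (T t648 (L l26 (L l238 (T t649 N)))))))))) (K a46 (M a149 (F (L l268 (T t175 (L l130 (L l408 (T t648 (L l26 (L l246 (T t961 N)))))))))) (K a51 (M a149 (F (L l238 (T t4128 (L l246 (T t961 (L l246 (L l268 (L l489 (T t5 N)))))))))) (K a149 (M a31 (F (T t151 (L l370 (T t1369 (L l340 (T t2084 N))))))) (K a31 (M a149 (F (T t151 (L l13 (L l268 (T t991 (L l246 (L l268 (T t5 N))))))))) N))))))))))))))))))⟩
def e0_63__90_126 : Ent 4 := ⟨[a0, a63], [a90, a209], (M a12 (F (T t152 (L l371 (T t122 (L l341 (T t151 (T t153 (K a4 (M a60 (F (T t43 (L l371 (L l480 (L l483 (T t398 (L l341 (T t448 N))))))))) (K a8 (M a60 (F (T t67 (L l371 (L l480 (L l483 (T t398 (L l52 (L l56 (L l341 (T t448 N))))))))))) (K a21 (M a192 (F (T t156 (L l347 (L l371 (L l375 (T t467 (L l347 (L l371 (L l375 (T t2622 N))))))))))) (K a25 (M a192 (F (T t449 (L l371 (L l375 (T t467 (L l371 (L l375 (T t21 N))))))))) (K a29 (M a149 (F (L l243 (T t176 (L l130 (T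 t648 (L l243 (T t961 N)))))))) (K a38 (M a192 (F (T t836 (L l371 (L l375 (T t467 (L l371 (L l375 (T t21 N))))))))) (K a42 (M a192 (F (T t156 (L l371 (L l375 (T t467 (L l56 (L l371 (L l375 (T t2622 N)))))))))) (K a46 (M a192 (F (T t449 (L l371 (L l375 (T t21 (L l26 (L l130 (L l243 (L l408 (T t160 N))))))))))) (K a51 (M a192 (F (T t1725 (L l371 (L l375 (L l415 (T t467 (L l371 (L l375 (L l439 (T t21 N))))))))))) N)))))))))))))))))⟩
def e0_63__90_127 : Ent 4 := ⟨[a0, a63], [a90, a210], (M a60 (L l372 (F (T t67 (T t43 (T t68 (T t69 (K a20 (M a30 (F (L l14 (T t4129 (L l11 (T t1351 (L l11 (L l342 (L l462 (T t4130 N)))))))))) (K a40 (M a30 (F (T t4129 (L l22 (L l462 (T t2553 (L l342 (L l462 (T t4130 N))))))))) (K a21 (M a150 (F (T t1135 (L l65 (L l270 (T t1136 (L l65 (L l270 (T t1137 N))))))))) (K a41 (M a150 (F (L l273 (T t2366 (L l65 (L l270 (T t1136 (L l22 (L l65 (L l270 (T t1137 N))))))))))) (K a61 (M a192 (L l372 (F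 (T t72 (L l65 (L l375 (L l515 (T t35 (L l130 (T t80 (K a150 (M a30 (F (T t72 (L l35 (L l59 (L l462 (T t2553 N))))))) (K a30 (M a150 (F (T t3528 (L l462 (T t1434 N))))) N)))))))))))) (K a22 (M a150 (F (T t1135 (L l270 (T t1136 (L l270 (T t1137 N))))))) (K a42 (M a150 (F (L l273 (T t2366 (L l270 (T t1136 (L l22 (L l270 (T t1137 N))))))))) (K a62 (M a106 (L l372 (F (T t305 (L l375 (T t565 (T t566 (K a150 (M a30 (F (T t305 (L l36 (T t1351 (L l163 (L l221 (L l375 (T t565 N))))))))) (K a30 (M a150 (L l60 (F (T t3530 (L l432 (L l462 (T t1434 (L l94 (T t311 (K a14 (M a46 (L l480 (F (T t3530 (L l13 (T t2552 (K a242 (Fr a166 a226 l408 (M a194 (L l444 (F (L l272 (T t3530 (L l13 (L l378 (T t2552 (K a182 (M a122 (F (L l272 (T t3530 (L l13 (L l378 (T t2552 N))))))) (K a122 (Fr a182 a134 l200 (V t4131)) N))))))))))) (K a166 (M a242 (F (T t3530 (L l13 (T t2552 N))))) N)))))))) (K a46 (M a14 (F (T t3530 (L l273 (T t2363 (L l375 (T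 t393 N))))))) N))))))))))) N))))))))) (K a3 (M a150 (F (L l475 (T t1135 (L l270 (L l309 (T t1136 (L l270 (T t1137 N))))))))) (K a150 (M a30 (F (T t43 (L l374 (L l480 (T t4132 (L l462 (T t2553 N)))))))) (K a30 (M a150 (F (T t67 (T t1135 (L l270 (T t1136 N)))))) N))))))))))))))))))⟩
def e0_63__90_128 : Ent 4 := ⟨[a0, a63], [a90, a211], (M a12 (F (T t122 (T t151 (T t152 (T t153 (K a4 (M a60 (F (T t43 (L l480 (L l483 (T t398 (T t448 N))))))) (K a8 (M a60 (F (T t67 (L l480 (L l483 (T t398 (L l52 (L l56 (T t448 N))))))))) (K a21 (M a192 (F (T t836 (L l15 (L l271 (L l347 (L l375 (T t450 (L l15 (L l347 (L l375 (T t157 N)))))))))))) (K a25 (M a192 (F (T t449 (L l15 (L l271 (L l375 (T t450 (L l375 (T t21 N))))))))) (K a29 (M a192 (F (T t449 (L l371 (L l375 (T t21 (L l130 (T t160 N)))))))) (K a38 (M a192 (F (T t156 (L l271 (L l375 (T t450 (L l375 (T t21 N)))))))) (K a42 (M a192 (F (T t449 (L l271 (L l375 (T t450 (L l56 (L l375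 (T t157 N))))))))) (K a46 (M a192 (F (T t449 (L l375 (T t21 (L l26 (L l130 (L l408 (T t160 N))))))))) (K a51 (M a192 (F (T t1725 (L l271 (L l375 (L l415 (T t450 (L l375 (L l439 (T t21 N)))))))))) N)))))))))))))))⟩
def e0_63__90_129 : Ent 4 := ⟨[a0, a63], [a90, a213], (M a12 (F (T t151 (L l347 (T t122 (L l347 (T t152 (T t153 (K a4 (M a60 (F (T t43 (L l480 (L l483 (T t398 (T t448 N))))))) (K a8 (M a60 (F (T t570 (L l347 (T t67 (L l52 (L l56 (T t448 N)))))))) (K a21 (M a85 (F (L l278 (T t1601 (L l462 (T t124 (L l15 (L l278 (T t574 N))))))))) (K a25 (M a192 (F (T t449 (L l15 (L l347 (L l375 (T t450 (L l347 (L l375 (T t21 N)))))))))) (K a29 (M a192 (F (T t156 (L l347 (L l371 (L l375 (T t21 (L l347 (L l371 (L l375 (T t2623 N))))))))))) (K a38 (M a192 (F (T t836 (L l347 (L l375 (T t450 (L l347 (L l375 (T t21 N))))))))) (K a42 (M a192 (F (T t449 (L l347 (L l375 (T t450 (L l56 (L l278 (L l347 (L l375 (T t157 N)))))))))))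 (K a46 (M a192 (F (T t156 (L l347 (L l375 (T t21 (L l347 (L l375 (T t2623 N))))))))) (K a51 (M a192 (F (T t1725 (L l347 (L l375 (L l415 (T t450 (L l347 (L l375 (L l439 (T t21 N))))))))))) N)))))))))))))))))⟩
def e0_63__90_130 : Ent 4 := ⟨[a0, a63], [a90, a214], (M a12 (F (T t122 (T t151 (T t152 (T t153 (K a4 (M a60 (F (T t43 (L l480 (L l483 (T t398 (T t448 N))))))) (K a8 (M a60 (F (T t67 (L l480 (L l483 (T t398 (L l52 (L l56 (T t448 N))))))))) (K a21 (M a192 (F (T t836 (L l15 (L l347 (L l375 (T t450 (L l15 (L l347 (L l375 (T t157 N))))))))))) (K a25 (M a192 (F (T t449 (L l15 (L l375 (T t450 (L l375 (T t21 N)))))))) (K a29 (M a192 (F (T t449 (L l371 (L l375 (T t21 (L l130 (L l239 (T t160 N))))))))) (K a38 (M a192 (F (T t156 (L l375 (T t450 (L l375 (T t21 N))))))) (K a42 (M a192 (F (T t449 (L l375 (T t450 (L l56 (L l375 (T t157 N)))))))) (K a46 (M a192 (F (T t449 (L l375 (T t21 (L l26 (L l130 (L l239 (L l408 (T t160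 N)))))))))) (K a51 (M a192 (F (T t1725 (L l375 (L l415 (T t450 (L l375 (L l439 (T t21 N))))))))) N)))))))))))))))⟩
def e0_63__90_131 : Ent 4 := ⟨[a0, a63], [a90, a215], (M a12 (F (T t122 (T t151 (T t152 (T t153 (K a4 (M a60 (F (T t69 (L l480 (L l483 (T t398 (L l349 (T t448 N)))))))) (K a8 (M a60 (F (T t68 (L l480 (L l483 (T t398 (L l52 (L l56 (L l349 (T t448 N)))))))))) (K a21 (M a192 (F (T t836 (L l15 (L l347 (L l375 (T t450 (L l15 (L l277 (L l347 (L l375 (T t157 N)))))))))))) (K a25 (M a192 (F (T t449 (L l15 (L l375 (T t450 (L l295 (L l375 (T t21 N))))))))) (K a29 (M a192 (F (T t449 (L l295 (L l371 (L l375 (T t21 (L l130 (L l239 (T t160 N)))))))))) (K a38 (M a192 (F (T t836 (L l375 (T t450 (L l295 (L l375 (T t21 N)))))))) (K a42 (M a192 (F (T t449 (L l375 (T t450 (L l56 (L l277 (L l375 (T t157 N))))))))) (K a46 (M a192 (F (T t449 (L l295 (L l375 (T t21 (L l26 (L l130 (L l239 (L l408 (T t160 N))))))))))) (K a51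 (M a192 (F (T t1725 (L l375 (L l415 (T t450 (L l295 (L l375 (L l439 (T t21 N)))))))))) N)))))))))))))))⟩
def e0_63__90_132 : Ent 4 := ⟨[a0, a63], [a90, a218], (M a48 (L l354 (F (T t132 (L l462 (L l483 (T t1 (L l483 (T t2 (L l483 (T t3 (L l375 (L l483 (T t0 (K a16 (M a85 (L l354 (F (L l246 (T t88 (L l303 (L l462 (L l483 (T t50 (L l246 (T t51 (K a26 (M a154 (L l18 (F (T t3550 (L l282 (L l340 (L l375 (T t326 (L l54 (L l246 (T t168 (K a21 (M a31 (F (T t3550 (L l47 (L l282 (L l340 (T t326 (L l47 (L l462 (T t567 N)))))))))) (K a31 (Fr a21 a42 l68 (V t4133)) N))))))))))))) (K a154 (M a26 (F (T t4134 (L l246 (T t168 (L l206 (L l227 (L l303 (L l462 (L l483 (T t50 N))))))))))) N))))))))))))) (K a32 (M a60 (L l354 (F (T t64 (T t67 (L l24 (L l28 (T t65 (K a26 (M a154 (F (L l282 (T t473 (L l18 (T t67 N)))))) (K a154 (M a26 (F (T t4134 (L l465 (L l483 (T t252 N)))))) N)))))))))) (K a21 (M a154 (F (L l151 (T t517 (L l47 (L l282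 (T t473 (L l47 (L l246 (L l282 (T t527 N))))))))))) (K a37 (M a154 (F (L l303 (T t526 (L l28 (L l246 (T t327 (L l28 (L l47 (L l246 (L l282 (T t527 N)))))))))))) (K a53 (M a12 (L l354 (F (T t151 (T t443 (L l47 (T t146 (K a26 (M a154 (F (L l54 (T t151 (L l246 (L l303 (T t1998 N))))))) (K a154 (M a26 (F (T t4135 (L l357 (L l483 (T t4136 N)))))) N))))))))) (K a42 (M a154 (F (L l282 (T t473 (L l28 (L l246 (T t327 (L l28 (L l246 (L l282 (T t527 N))))))))))) (K a58 (M a106 (L l354 (F (L l282 (T t305 (L l303 (L l375 (L l483 (T t551 (L l282 (T t599 (K a26 (M a154 (L l54 (F (T t4137 (L l151 (L l426 (T t517 (L l18 (L l94 (L l282 (T t311 (K a10 (Fr a42 a21 l68 (V t4138)) (K a42 (M a10 (F (T t4137 (L l18 (L l94 (L l303 (T t4139 (L l28 (L l375 (T t2289 N)))))))))) N))))))))))))) (K a154 (M a26 (F (T t4135 (L l282 (T t778 (L l170 (L l227 (L l303 (L l375 (L l483 (T t551 N))))))))))) N))))))))))))) (K a15 (M a154 (L l483 (F (L l151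 (T t4140 (L l282 (L l339 (T t473 (L l246 (L l282 (T t527 (K a240 (M a165 (L l303 (F (L l151 (T t4140 (L l282 (L l375 (T t326 (L l246 (L l282 (T t527 (K a229 (Fr a207 a101 l512 (V t4141)) (K a207 (M a229 (L l325 (F (L l282 (L l462 (T t4142 (L l246 (L l375 (T t4143 (L l236 (L l246 (L l282 (L l289 (T t527 (K a79 (Fr a143 a176 l227 (V t527)) (K a143 (M a79 (F (L l282 (L l462 (T t4142 (L l246 (L l375 (T t4143 (L l236 (L l246 (L l282 (L l289 (T t2000 N))))))))))))) N)))))))))))))))) N))))))))))))) (K a165 (M a240 (F (L l325 (T t526 (L l180 (L l246 (L l462 (T t3243 (L l130 (L l455 (L l469 (T t3317 N)))))))))))) N))))))))))))) (K a26 (M a154 (F (L l282 (T t473 (L l246 (T t327 (L l246 (L l282 (T t527 N))))))))) (K a154 (M a26 (F (T t4134 (T t4144 (T t251 N))))) N))))))))))))))))))))))))⟩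
def e0_63__90_133 : Ent 4 := ⟨[a0, a63], [a90, a219], (M a12 (F (T t122 (T t151 (T t152 (T t153 (K a4 (M a60 (F (T t43 (L l480 (L l483 (T t398 (T t448 N))))))) (K a8 (M a60 (F (T t67 (L l480 (L l483 (T t398 (L l52 (L l56 (T t448 N))))))))) (K a21 (M a192 (F (T t836 (L l15 (L l301 (L l347 (L l375 (T t450 (L l15 (L l347 (L l375 (T t157 N)))))))))))) (K a25 (M a192 (F (T t449 (L l15 (L l301 (L l375 (T t450 (L l375 (T t21 N))))))))) (K a29 (M a192 (F (T t449 (L l371 (L l375 (T t21 (L l130 (T t160 N)))))))) (K a38 (M a192 (F (T t156 (L l301 (L l375 (T t450 (L l375 (T t21 N)))))))) (K a42 (M a192 (F (T t449 (L l301 (L l375 (T t450 (L l56 (L l375 (T t157 N))))))))) (K a46 (M a192 (F (T t449 (L l375 (T t21 (L l26 (L l130 (L l408 (T t160 N))))))))) (K a51 (M a192 (F (T t1725 (L l301 (L l375 (L l415 (T t450 (L l375 (L l439 (T t21 N)))))))))) N)))))))))))))))⟩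
def e0_63__90_134 : Ent 4 := ⟨[a0, a63], [a90, a223], (M a12 (F (T t122 (T t151 (T t152 (T t153 (K a4 (M a60 (F (T t43 (L l480 (L l483 (T t398 (T t448 N))))))) (K a8 (M a60 (F (T t67 (L l480 (L l483 (T t398 (L l52 (L l56 (T t448 N))))))))) (K a21 (M a192 (F (T t836 (L l15 (L l347 (L l375 (T t450 (L l15 (L l347 (L l375 (T t157 N))))))))))) (K a25 (M a192 (F (T t449 (L l15 (L l375 (T t450 (L l289 (L l375 (T t21 N))))))))) (K a29 (M a192 (F (T t449 (L l289 (L l371 (L l375 (T t21 (L l130 (L l246 (T t160 N)))))))))) (K a38 (M a192 (F (T t156 (L l375 (T t450 (L l289 (L l375 (T t21 N)))))))) (K a42 (M a192 (F (T t449 (L l375 (T t450 (L l56 (L l375 (T t157 N)))))))) (K a46 (M a192 (F (T t449 (L l289 (L l375 (T t21 (L l26 (L l130 (L l246 (L l408 (T t160 N))))))))))) (K a51 (M a192 (F (T t1725 (L l375 (L l415 (T t450 (L l289 (L l375 (L l439 (T t21 N)))))))))) N)))))))))))))))⟩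
def e0_63__90_135 : Ent 4 := ⟨[a0, a63], [a90, a224], (M a12 (F (T t122 (T t151 (T t152 (T t153 (K a4 (M a60 (F (T t43 (L l480 (L l483 (T t398 (T t448 N))))))) (K a8 (M a60 (F (T t67 (L l480 (L l483 (T t398 (L l52 (L l56 (T t448 N))))))))) (K a21 (M a192 (F (T t836 (L l15 (L l248 (L l347 (L l375 (T t450 (L l15 (L l248 (L l347 (L l375 (T t157 N))))))))))))) (K a25 (M a192 (F (T t449 (L l15 (L l248 (L l375 (T t450 (L l375 (T t21 N))))))))) (K a29 (M a192 (F (T t449 (L l371 (L l375 (T t21 (L l130 (L l411 (T t160 N))))))))) (K a38 (M a192 (F (T t836 (L l248 (L l375 (T t450 (L l375 (T t21 N)))))))) (K a42 (M a192 (F (T t449 (L l248 (L l375 (T t450 (L l56 (L l248 (L l375 (T t157 N)))))))))) (K a46 (M a192 (F (T t449 (L l375 (T t21 (L l26 (L l130 (L l408 (L l411 (T t160 N)))))))))) (K a51 (M a192 (F (T t1725 (L l248 (L l375 (L l415 (T t450 (L l375 (L l439 (T t21 N)))))))))) N)))))))))))))))⟩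
def e0_63__90_136 : Ent 4 := ⟨[a0, a63], [a90, a225], (M a12 (F (T t122 (T t151 (T t152 (T t153 (K a4 (M a60 (F (T t43 (L l480 (L l483 (T t398 (T t448 N))))))) (K a8 (M a60 (F (T t67 (L l480 (L l483 (T t398 (L l52 (L l56 (T t448 N))))))))) (K a21 (M a192 (F (T t836 (L l15 (L l248 (L l347 (L l375 (T t450 (L l15 (L l248 (L l347 (L l375 (T t157 N))))))))))))) (K a25 (M a192 (F (T t449 (L l15 (L l248 (L l375 (T t450 (L l375 (T t21 N))))))))) (K a29 (M a192 (F (T t449 (L l371 (L l375 (T t21 (L l130 (T t160 N)))))))) (K a38 (M a192 (F (T t156 (L l248 (L l375 (T t450 (L l375 (T t21 N)))))))) (K a42 (M a192 (F (T t449 (L l248 (L l375 (T t450 (L l56 (L l248 (L l375 (T t157 N)))))))))) (K a46 (M a192 (F (T t449 (L l375 (T t21 (L l26 (L l130 (L l408 (T t160 N))))))))) (K a51 (M a192 (F (T t1725 (L l248 (L l375 (L l415 (T t450 (L l375 (L l439 (T t21 N)))))))))) N)))))))))))))))⟩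
def e0_63__90_137 : Ent 4 := ⟨[a0, a63], [a90, a226], (M a12 (F (T t152 (L l378 (T t122 (L l408 (T t151 (T t153 (K a4 (M a60 (F (T t43 (L l480 (L l483 (T t398 (L l408 (T t448 N)))))))) (K a8 (M a60 (F (T t67 (L l480 (L l483 (T t398 (L l52 (L l56 (L l408 (T t448 N)))))))))) (K a21 (M a192 (F (T t156 (L l130 (L l408 (T t543 (L l50 (L l130 (L l408 (T t681 N)))))))))) (K a25 (M a192 (F (T t449 (L l130 (L l408 (T t543 (L l375 (T t21 N)))))))) (K a29 (M a192 (F (T t449 (L l371 (L l375 (T t21 (L l130 (L l408 (T t160 N))))))))) (K a38 (M a192 (F (T t836 (L l130 (L l408 (T t543 (L l375 (T t21 N)))))))) (K a42 (M a192 (F (T t156 (L l130 (L l390 (L l408 (T t543 (L l130 (L l390 (L l408 (T t681 N))))))))))) (K a46 (M a106 (F (L l254 (T t778 (L l375 (T t2305 (L l254 (T t2476 N)))))))) (K a51 (M a192 (F (T t1725 (L l130 (L l408 (L l415 (T t543 (L l375 (L l439 (T t21 N)))))))))) N)))))))))))))))))⟩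
def e0_63__90_138 : Ent 4 := ⟨[a0, a63], [a90, a227], (M a12 (F (T t122 (T t151 (T t152 (T t153 (K a4 (M a60 (F (T t43 (L l480 (L l483 (T t398 (T t448 N))))))) (K a8 (M a60 (F (T t67 (L l480 (L l483 (T t398 (L l52 (L l56 (T t448 N))))))))) (K a21 (M a192 (F (T t836 (L l15 (L l248 (L l271 (L l347 (L l375 (T t450 (L l15 (L l248 (L l347 (L l375 (T t157 N)))))))))))))) (K a25 (M a192 (F (T t449 (L l15 (L l248 (L l271 (L l375 (T t450 (L l375 (T t21 N)))))))))) (K a29 (M a192 (F (T t449 (L l371 (L l375 (T t21 (L l130 (T t160 N)))))))) (K a38 (M a192 (F (T t156 (L l248 (L l271 (L l375 (T t450 (L l375 (T t21 N))))))))) (K a42 (M a192 (F (T t449 (L l248 (L l271 (L l375 (T t450 (L l56 (L l248 (L l375 (T t157 N))))))))))) (K a46 (M a192 (F (T t449 (L l375 (T t21 (L l26 (L l130 (L l408 (T t160 N))))))))) (K a51 (M a192 (F (T t1725 (L l248 (L l271 (L l375 (L l415 (T t450 (L l375 (L l439 (T t21 N))))))))))) N)))))))))))))))⟩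
def e0_63__90_139 : Ent 4 := ⟨[a0, a63], [a90, a229], (M a12 (F (T t122 (T t151 (T t152 (T t153 (K a4 (M a60 (F (T t43 (L l480 (L l483 (T t398 (T t448 N))))))) (K a8 (M a60 (F (T t67 (L l480 (L l483 (T t398 (L l52 (L l56 (T t448 N))))))))) (K a21 (M a192 (F (T t836 (L l15 (L l347 (L l375 (T t450 (L l15 (L l347 (L l375 (T t157 N))))))))))) (K a25 (M a192 (F (T t449 (L l15 (L l375 (T t450 (L l375 (T t21 N)))))))) (K a29 (M a192 (F (T t449 (L l371 (L l375 (T t21 (L l130 (L l275 (T t160 N))))))))) (K a38 (M a192 (F (T t156 (L l375 (T t450 (L l375 (T t21 N))))))) (K a42 (M a192 (F (T t449 (L l375 (T t450 (L l56 (L l375 (T t157 N)))))))) (K a46 (M a192 (F (T t449 (L l375 (T t21 (L l26 (L l130 (L l275 (L l408 (T t160 N)))))))))) (K a51 (M a192 (F (T t1725 (L l375 (L l415 (T t450 (L l375 (L l439 (T t21 N))))))))) N)))))))))))))))⟩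
def e0_63__90_140 : Ent 4 := ⟨[a0, a63], [a90, a230], (M a12 (F (T t122 (T t151 (T t152 (T t153 (K a4 (M a60 (F (T t43 (L l480 (L l483 (T t398 (T t448 N))))))) (K a8 (M a60 (F (T t67 (L l480 (L l483 (T t398 (L l52 (L l56 (T t448 N))))))))) (K a21 (M a192 (F (T t1725 (L l15 (L l347 (L l375 (T t576 (L l15 (L l254 (L l278 (L l347 (L l375 (T t157 N))))))))))))) (K a25 (M a192 (F (T t496 (L l375 (T t21 (L l15 (L l254 (L l302 (L l375 (T t450 N)))))))))) (K a29 (M a192 (F (T t159 (L l371 (L l375 (T t21 (L l130 (L l278 (T t160 N))))))))) (K a38 (M a166 (F (L l254 (T t2470 (L l278 (T t2543 (L l254 (L l278 (T t2541 N))))))))) (K a42 (M a192 (F (T t159 (L l375 (T t576 (L l56 (L l254 (L l278 (L l375 (T t157 N)))))))))) (K a46 (M a192 (F (T t1725 (L l375 (T t21 (L l26 (L l130 (L l278 (L l408 (T t160 N)))))))))) (K a51 (M a192 (F (T t1725 (L l375 (L l439 (T t21 (L l254 (L l302 (L l375 (L l415 (T t450 N))))))))))) N)))))))))))))))⟩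
def e0_63__90_141 : Ent 4 := ⟨[a0, a63], [a90, a231], (M a12 (F (T t122 (T t151 (T t152 (T t153 (K a4 (M a60 (F (T t43 (L l480 (L l483 (T t398 (T t448 N))))))) (K a8 (M a60 (F (T t67 (L l480 (L l483 (T t398 (L l52 (L l56 (T t448 N))))))))) (K a21 (M a192 (F (T t836 (L l15 (L l301 (L l347 (L l375 (T t450 (L l15 (L l277 (L l347 (L l375 (T t157 N))))))))))))) (K a25 (M a192 (F (T t449 (L l15 (L l301 (L l375 (T t450 (L l375 (T t21 N))))))))) (K a29 (M a192 (F (T t449 (L l371 (L l375 (T t21 (L l130 (T t160 N)))))))) (K a38 (M a192 (F (T t156 (L l301 (L l375 (T t450 (L l375 (T t21 N)))))))) (K a42 (M a192 (F (T t449 (L l301 (L l375 (T t450 (L l56 (L l277 (L l375 (T t157 N)))))))))) (K a46 (M a192 (F (T t449 (L l375 (T t21 (L l26 (L l130 (L l408 (T t160 N))))))))) (K a51 (M a192 (F (T t1725 (L l301 (L l375 (L l415 (T t450 (L l375 (L l439 (T t21 N)))))))))) N)))))))))))))))⟩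
def e0_63__90_142 : Ent 4 := ⟨[a0, a63], [a90, a234], (M a12 (F (T t122 (L l390 (T t151 (T t152 (L l390 (T t153 (K a4 (M a60 (F (T t570 (L l46 (L l50 (T t67 (L l390 (T t448 N)))))))) (K a8 (M a60 (F (T t68 (L l480 (L l483 (T t398 (L l52 (L l56 (L l390 (T t448 N)))))))))) (K a21 (M a192 (F (T t836 (L l15 (L l254 (L l347 (L l375 (T t450 (L l15 (L l254 (L l347 (L l375 (T t157 N))))))))))))) (K a25 (M a192 (F (T t156 (L l15 (L l254 (L l375 (T t450 (L l130 (L l390 (T t202 N)))))))))) (K a29 (M a192 (F (T t156 (L l130 (L l390 (T t202 (L l130 (L l390 (T t2625 N))))))))) (K a38 (M a192 (F (T t836 (L l254 (L l375 (T t450 (L l130 (L l390 (T t202 N))))))))) (K a42 (M a106 (F (L l254 (T t2414 (L l375 (T t2305 (L l56 (L l254 (T t2415 N))))))))) (K a46 (M a192 (F (T t156 (L l130 (L l390 (L l408 (T t202 (L l130 (L l390 (L l408 (T t2625 N))))))))))) (K a51 (M a192 (F (T t1725 (L l254 (L l375 (L l415 (T t450 (L l130 (L l390 (L l439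 (T t202 N))))))))))) N)))))))))))))))))⟩
def e0_63__90_143 : Ent 4 := ⟨[a0, a63], [a90, a235], (M a12 (F (T t122 (T t151 (T t152 (T t153 (K a4 (M a60 (F (T t69 (L l480 (L l483 (T t398 (L l392 (T t448 N)))))))) (K a8 (M a60 (F (T t68 (L l480 (L l483 (T t398 (L l52 (L l56 (L l392 (T t448 N)))))))))) (K a21 (M a192 (F (T t836 (L l15 (L l347 (L l375 (T t450 (L l15 (L l347 (L l375 (T t157 N))))))))))) (K a25 (M a192 (F (T t449 (L l15 (L l375 (T t450 (L l295 (L l375 (T t21 N))))))))) (K a29 (M a192 (F (T t449 (L l295 (L l371 (L l375 (T t21 (L l130 (T t160 N))))))))) (K a38 (M a192 (F (T t156 (L l375 (T t450 (L l295 (L l375 (T t21 N)))))))) (K a42 (M a192 (F (T t449 (L l375 (T t450 (L l56 (L l375 (T t157 N)))))))) (K a46 (M a192 (F (T t449 (L l295 (L l375 (T t21 (L l26 (L l130 (L l408 (T t160 N)))))))))) (K a51 (M a192 (F (T t1725 (L l375 (L l415 (T t450 (L l295 (L l375 (L l439 (T t21 N)))))))))) N)))))))))))))))⟩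
def e0_63__90_144 : Ent 4 := ⟨[a0, a63], [a90, a239], (M a12 (F (T t122 (T t151 (T t152 (T t153 (K a4 (M a60 (F (T t43 (L l480 (L l483 (T t398 (T t448 N))))))) (K a8 (M a60 (F (T t67 (L l480 (L l483 (T t398 (L l52 (L l56 (T t448 N))))))))) (K a21 (M a192 (F (T t836 (L l15 (L l347 (L l375 (T t450 (L l15 (L l347 (L l375 (T t157 N))))))))))) (K a25 (M a192 (F (T t449 (L l15 (L l375 (T t450 (L l289 (L l375 (T t21 N))))))))) (K a29 (M a192 (F (T t449 (L l289 (L l371 (L l375 (T t21 (L l130 (T t160 N))))))))) (K a38 (M a192 (F (T t156 (L l375 (T t450 (L l289 (L l375 (T t21 N)))))))) (K a42 (M a192 (F (T t449 (L l375 (T t450 (L l56 (L l375 (T t157 N)))))))) (K a46 (M a192 (F (T t449 (L l289 (L l375 (T t21 (L l26 (L l130 (L l408 (T t160 N)))))))))) (K a51 (M a192 (F (T t1725 (L l375 (L l415 (T t450 (L l289 (L l375 (L l439 (T t21 N)))))))))) N)))))))))))))))⟩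
def e0_63__90_145 : Ent 4 := ⟨[a0, a63], [a90, a240], (M a15 (F (L l412 (T t731 (L l462 (T t1254 (L l412 (L l462 (T t716 (L l412 (T t723 (L l375 (L l412 (T t732 (K a48 (M a192 (L l412 (F (T t2821 (L l266 (L l375 (L l440 (T t35 (L l130 (L l266 (L l462 (T t4145 (K a112 (M a176 (L l151 (F (T t2821 (L l266 (L l375 (L l440 (T t35 (L l130 (L l266 (L l462 (T t4145 (K a101 (M a79 (L l512 (F (T t4146 (L l114 (L l266 (L l440 (T t1499 (K a154 (Fr a207 a143 l325 (V t4147)) (K a207 (M a154 (L l303 (F (T t4146 (L l266 (L l289 (L l375 (L l440 (L l491 (T t35 (L l104 (L l130 (L l266 (L l462 (T t4145 (K a229 (M a218 (L l383 (F (T t4148 (L l375 (L l491 (T t4149 (K a37 (Fr a165 a143 l227 (V t4148)) (K a165 (M a37 (F (T t4148 (L l462 (T t4150 N))))) N))))))))) (K a218 (M a229 (F (T t4146 (L l266 (L l282 (L l289 (L l375 (L l440 (L l491 (T t35 (L l104 (L l130 (L l246 (L l266 (L l462 (T t4145 N)))))))))))))))) N))))))))))))))))) N))))))))))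 (K a79 (M a101 (F (L l375 (T t57 (L l84 (L l130 (L l303 (L l462 (T t2799 (L l114 (L l130 (L l440 (T t4151 (L l375 (L l462 (T t4152 N)))))))))))))))) N)))))))))))))) (K a176 (M a112 (F (L l192 (T t2821 (L l266 (L l375 (L l440 (T t35 (L l130 (L l266 (L l462 (T t4145 N)))))))))))) N)))))))))))))) (K a5 (M a12 (F (T t2061 (L l442 (T t2544 (L l5 (T t722 N))))))) (K a21 (M a12 (F (L l442 (T t2544 (L l47 (L l453 (T t717 (L l15 (L l18 (L l47 (L l50 (L l375 (L l453 (L l465 (T t2586 (L l65 (L l453 (L l462 (T t4091 N))))))))))))))))))) (K a37 (M a192 (F (L l151 (L l303 (T t4153 (L l266 (L l375 (T t21 (L l28 (L l130 (L l266 (L l462 (T t4145 N))))))))))))) (K a10 (M a170 (F (L l266 (T t2190 (L l94 (L l151 (L l303 (T t4154 (L l268 (L l375 (T t4155 N))))))))))) (K a26 (M a8 (L l354 (F (T t2581 (L l18 (L l417 (T t414 (L l12 (L l18 (T t2582 (K a154 (M a218 (F (T t2581 (L l18 (L l417 (T t414 (L l12 (L l18 (T t2582 N))))))))) (K a218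 (M a154 (L l303 (F (T t2581 (L l18 (L l417 (T t414 (L l12 (L l18 (T t2582 (K a229 (M a207 (F (T t2581 (L l151 (L l268 (L l383 (T t4156 N))))))) (K a207 (M a229 (F (T t2581 (L l18 (L l417 (L l511 (T t414 (L l12 (L l18 (T t2582 N)))))))))) N)))))))))))) N)))))))))))) (K a42 (M a12 (F (L l375 (T t2580 (L l453 (L l465 (T t2591 (L l66 (L l375 (L l453 (L l465 (T t2586 (L l26 (L l28 (L l54 (L l56 (L l453 (L l462 (T t4093 N))))))))))))))))))) (K a31 (M a149 (F (L l268 (T t5 (L l130 (L l151 (L l303 (T t4157 (L l266 (L l462 (T t4158 N))))))))))) (K a47 (M a192 (F (T t2821 (L l266 (L l375 (T t35 (L l28 (L l130 (L l266 (L l411 (L l462 (T t4145 N)))))))))))) N)))))))))))))))))))))))⟩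
def e0_63__90_146 : Ent 4 := ⟨[a0, a63], [a90, a241], (M a12 (F (T t122 (T t151 (T t152 (T t153 (K a4 (M a60 (F (T t43 (L l443 (L l480 (L l483 (T t398 (T t448 N)))))))) (K a8 (M a60 (F (T t67 (L l443 (L l480 (L l483 (T t398 (L l52 (L l56 (T t448 N)))))))))) (K a21 (M a192 (F (T t836 (L l15 (L l258 (L l347 (L l375 (T t450 (L l15 (L l347 (L l375 (T t157 N)))))))))))) (K a25 (M a192 (F (T t449 (L l15 (L l258 (L l375 (T t450 (L l375 (T t21 N))))))))) (K a29 (M a192 (F (T t449 (L l371 (L l375 (T t21 (L l130 (T t160 N)))))))) (K a38 (M a192 (F (T t156 (L l258 (L l375 (T t450 (L l375 (T t21 N)))))))) (K a42 (M a192 (F (T t449 (L l258 (L l375 (T t450 (L l56 (L l375 (T t157 N))))))))) (K a46 (M a192 (F (T t449 (L l375 (T t21 (L l26 (L l130 (L l408 (T t160 N))))))))) (K a51 (M a192 (F (T t1725 (L l258 (L l375 (L l415 (T t450 (L l375 (L l439 (T t21 N)))))))))) N)))))))))))))))⟩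
def e0_63__90_147 : Ent 4 := ⟨[a0, a63], [a90, a242], (M a12 (L l480 (F (T t122 (T t151 (T t152 (T t153 (K a4 (M a14 (F (T t2515 (L l444 (T t726 (L l50 (L l372 (L l462 (T t728 (L l50 (L l414 (T t2585 N)))))))))))) (K a8 (M a14 (F (L l444 (T t726 (L l2 (L l56 (L l462 (T t2506 (L l2 (L l372 (L l462 (T t728 (L l414 (T t2585 N)))))))))))))) (K a21 (M a166 (F (T t2543 (L l15 (L l270 (T t2470 (L l15 (L l270 (T t2541 N))))))))) (K a25 (M a166 (F (L l258 (T t2793 (L l56 (T t2543 (L l15 (L l56 (L l270 (T t2541 N)))))))))) (K a29 (M a14 (F (L l59 (T t2515 (L l59 (L l450 (T t727 (L l13 (L l375 (L l414 (T t2593 N))))))))))) (K a38 (M a166 (F (T t2543 (L l270 (T t2470 (L l270 (T t2541 N))))))) (K a42 (M a166 (F (L l270 (T t2470 (L l56 (T t2543 (L l56 (L l270 (T t2541 N))))))))) (K a46 (M a14 (F (L l450 (T t727 (L l26 (L l375 (L l414 (T t2505 (L l26 (L l462 (T t2506 N))))))))))) (K a51 (M a166 (F (L l439 (T t2543 (L l270 (L l489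 (T t2470 (L l270 (T t2541 N))))))))) (K a166 (M a14 (F (T t153 (L l450 (T t727 (L l444 (T t726 N))))))) (K a14 (M a166 (F (T t122 (L l270 (T t2470 (L l468 (T t2543 N))))))) N))))))))))))))))))⟩
def e0_63__90_148 : Ent 4 := ⟨[a0, a63], [a90, a243], (M a60 (F (T t116 (L l451 (T t67 (L l451 (T t43 (L l451 (T t68 (L l451 (T t69 (K a20 (M a48 (F (T t138 (L l11 (L l462 (L l481 (L l483 (T t1 (L l11 (T t235 N)))))))))) (K a40 (M a48 (F (T t246 (L l462 (L l481 (L l483 (T t1 (L l52 (T t235 N))))))))) (K a21 (M a192 (F (T t2658 (L l271 (L l347 (L l375 (T t73 (L l347 (L l375 (T t74 N)))))))))) (K a41 (M a192 (F (T t254 (L l65 (L l265 (L l375 (T t35 (L l271 (L l375 (T t73 N)))))))))) (K a61 (M a192 (F (T t1334 (L l65 (L l265 (L l375 (L l515 (T t35 (L l130 (T t80 N)))))))))) (K a22 (M a192 (F (T t2658 (L l265 (L l375 (T t21 (L l271 (L l375 (T t73 N))))))))) (K a42 (M a192 (F (T t254 (L l271 (L l375 (T t73 (L l22 (L l375 (T t74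 N))))))))) (K a62 (M a192 (F (T t2658 (L l265 (L l375 (T t35 (L l66 (L l130 (L l516 (T t80 N)))))))))) (K a3 (M a192 (L l451 (F (T t2658 (L l265 (L l375 (L l475 (T t35 (L l271 (L l307 (L l375 (T t73 (K a83 (M a163 (F (T t2658 (L l265 (L l375 (L l475 (T t21 (L l271 (L l307 (L l375 (T t569 N))))))))))) (K a163 (M a83 (F (T t2658 (L l265 (L l375 (L l475 (T t21 (L l271 (L l307 (L l375 (T t569 N))))))))))) N)))))))))))))) N))))))))))))))))))))⟩
def e0_63__90_149 : Ent 4 := ⟨[a0, a63], [a90, a245], (M a12 (F (T t122 (T t151 (T t152 (T t153 (K a4 (M a60 (F (T t43 (L l480 (L l483 (T t398 (T t448 N))))))) (K a8 (M a60 (F (T t67 (L l480 (L l483 (T t398 (L l52 (L l56 (T t448 N))))))))) (K a21 (M a192 (F (T t836 (L l15 (L l347 (L l375 (T t450 (L l15 (L l259 (L l347 (L l375 (T t157 N)))))))))))) (K a25 (M a192 (F (T t449 (L l15 (L l375 (T t450 (L l266 (L l375 (T t21 N))))))))) (K a29 (M a192 (F (T t449 (L l266 (L l371 (L l375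 (T t21 (L l130 (L l275 (T t160 N)))))))))) (K a38 (M a192 (F (T t836 (L l375 (T t450 (L l266 (L l375 (T t21 N)))))))) (K a42 (M a192 (F (T t449 (L l375 (T t450 (L l56 (L l259 (L l375 (T t157 N))))))))) (K a46 (M a192 (F (T t449 (L l266 (L l375 (T t21 (L l26 (L l130 (L l275 (L l408 (T t160 N))))))))))) (K a51 (M a192 (F (T t1725 (L l375 (L l415 (T t450 (L l266 (L l375 (L l439 (T t21 N)))))))))) N)))))))))))))))⟩
def e0_63__90_150 : Ent 4 := ⟨[a0, a63], [a90, a246], (M a12 (F (T t122 (T t151 (T t152 (T t153 (K a4 (M a60 (F (T t43 (L l480 (L l483 (T t398 (T t448 N))))))) (K a8 (M a60 (F (T t67 (L l480 (L l483 (T t398 (L l52 (L l56 (T t448 N))))))))) (K a21 (M a192 (F (T t836 (L l15 (L l267 (L l347 (L l375 (T t450 (L l15 (L l259 (L l347 (L l375 (T t157 N))))))))))))) (K a25 (M a192 (F (T t449 (L l15 (L l267 (L l375 (T t450 (L l375 (T t21 N))))))))) (K a29 (M a192 (F (T t449 (L l371 (L l375 (T t21 (L l130 (T t160 N))))))))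 (K a38 (M a192 (F (T t156 (L l267 (L l375 (T t450 (L l375 (T t21 N)))))))) (K a42 (M a192 (F (T t449 (L l267 (L l375 (T t450 (L l56 (L l259 (L l375 (T t157 N)))))))))) (K a46 (M a192 (F (T t449 (L l375 (T t21 (L l26 (L l130 (L l408 (T t160 N))))))))) (K a51 (M a192 (F (T t1725 (L l267 (L l375 (L l415 (T t450 (L l375 (L l439 (T t21 N)))))))))) N)))))))))))))))⟩
def e0_63__90_151 : Ent 4 := ⟨[a0, a63], [a90, a247], (M a12 (F (T t122 (T t151 (L l458 (T t152 (L l421 (T t153 (K a4 (M a85 (F (L l462 (T t90 (L l278 (T t154 (L l462 (T t124 N)))))))) (K a8 (M a60 (F (T t67 (L l480 (L l483 (T t398 (L l52 (L l56 (T t448 N))))))))) (K a21 (M a192 (F (T t156 (L l15 (L l265 (L l347 (L l375 (T t450 (L l50 (L l130 (L l265 (L l458 (T t2473 N))))))))))))) (K a25 (M a192 (F (T t156 (L l15 (L l265 (L l375 (T t450 (L l265 (L l375 (T t21 N)))))))))) (K a29 (M a192 (F (T t836 (L l265 (L l371 (L l375 (T t21 (L l15 (L l371 (L l375 (T t776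 N))))))))))) (K a38 (M a192 (F (T t156 (L l265 (L l375 (T t450 (L l265 (L l375 (T t21 N))))))))) (K a42 (M a192 (F (T t836 (L l265 (L l375 (T t450 (L l26 (L l130 (L l265 (L l390 (L l458 (T t2473 N)))))))))))) (K a46 (M a192 (F (T t836 (L l265 (L l375 (T t21 (L l375 (T t776 N)))))))) (K a51 (M a192 (F (T t1725 (L l265 (L l375 (L l415 (T t450 (L l265 (L l375 (L l439 (T t21 N))))))))))) N)))))))))))))))))⟩
def e0_63__90_152 : Ent 4 := ⟨[a0, a63], [a90, a250], (M a12 (L l462 (F (T t122 (T t151 (T t152 (T t153 (K a4 (M a170 (F (L l266 (T t456 (L l94 (L l458 (T t2498 (L l50 (L l282 (T t2626 N)))))))))) (K a8 (M a170 (F (L l94 (T t2102 (L l282 (T t2626 (L l94 (T t2498 N)))))))) (K a21 (M a170 (F (L l266 (T t3685 (L l94 (L l347 (T t2498 (L l50 (L l260 (T t3880 N)))))))))) (K a25 (M a170 (F (L l260 (T t2497 (L l15 (L l282 (T t317 (L l260 (T t3880 N))))))))) (K a29 (M a170 (F (L l266 (T t456 (L l260 (T t2497 (L l15 (L l260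 (L l282 (T t3682 N)))))))))) (K a38 (M a170 (F (L l266 (T t3685 (L l94 (T t2102 (L l26 (L l50 (L l260 (T t3880 N)))))))))) (K a42 (M a170 (F (L l260 (T t2497 (L l94 (T t2498 (L l26 (L l260 (T t3880 N))))))))) (K a46 (M a170 (F (L l282 (T t317 (L l266 (L l396 (T t3685 (L l260 (L l282 (T t3682 N)))))))))) (K a51 (M a170 (F (L l260 (T t3880 (L l94 (L l513 (T t2498 (L l282 (L l375 (T t439 N)))))))))) (K a10 (M a170 (F (T t152 (L l282 (T t317 (L l2 (L l266 (T t3685 N)))))))) (K a170 (M a10 (F (T t152 (L l465 (L l474 (T t2421 (L l426 (T t2561 N)))))))) N))))))))))))))))))⟩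
def e0_63__90_153 : Ent 4 := ⟨[a0, a63], [a90, a251], (M a12 (F (T t122 (T t151 (L l427 (T t152 (L l464 (T t153 (K a4 (M a60 (F (T t43 (L l480 (L l483 (T t398 (T t448 N))))))) (K a8 (M a170 (F (L l94 (T t2102 (L l284 (T t2626 (L l94 (T t2498 N)))))))) (K a21 (M a192 (F (T t156 (L l15 (L l265 (L l347 (L l375 (T t450 (L l15 (L l265 (L l347 (L l375 (L l464 (T t157 N)))))))))))))) (K a25 (M a192 (F (T t836 (L l15 (L l265 (L l375 (T t450 (L l265 (L l375 (T t21 N)))))))))) (K a29 (M a192 (F (T t836 (L l265 (L l371 (L l375 (T t21 (L l130 (T t160 N))))))))) (K a38 (M a192 (F (T t156 (L l265 (L l375 (T t450 (L l265 (L l375 (T t21 N))))))))) (K a42 (M a192 (F (T t836 (L l265 (L l375 (T t450 (L l56 (L l265 (L l375 (L l464 (T t157 N))))))))))) (K a46 (M a192 (F (T t836 (L l265 (L l375 (T t21 (L l26 (L l130 (L l408 (T t160 N)))))))))) (K a51 (M a192 (F (T t159 (L l265 (L l375 (L l415 (T t450 (L l265 (L l375 (L l439 (T t21 N)))))))))))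 N)))))))))))))))))⟩
def e0_63__90_154 : Ent 4 := ⟨[a0, a63], [a90, a255], (M a12 (F (T t150 (L l439 (T t122 (L l439 (T t151 (L l439 (T t152 (L l439 (T t153 (K a4 (M a60 (F (T t570 (L l46 (L l50 (L l475 (T t67 (T t448 N)))))))) (K a8 (M a60 (F (T t570 (L l475 (T t67 (L l52 (L l56 (T t448 N)))))))) (K a21 (M a192 (F (T t2119 (L l15 (L l265 (L l347 (L l375 (T t450 (L l15 (L l265 (L l347 (L l375 (T t157 N))))))))))))) (K a25 (M a192 (F (T t496 (L l15 (L l265 (L l375 (T t450 (L l15 (L l56 (L l265 (L l375 (T t157 N)))))))))))) (K a29 (M a48 (F (T t145 (L l15 (L l462 (L l469 (L l483 (T t1 (T t866 N))))))))) (K a38 (M a192 (F (T t1725 (L l265 (L l375 (T t450 (L l265 (L l375 (T t157 N))))))))) (K a42 (M a192 (F (T t496 (L l265 (L l375 (T t450 (L l56 (L l265 (L l375 (T t157 N)))))))))) (K a46 (M a48 (F (T t865 (L l462 (L l469 (L l483 (T t1 (L l26 (T t866 N))))))))) (K a51 (M a192 (L l439 (F (T t1725 (L l265 (L l375 (L l415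 (T t450 (L l265 (L l375 (T t157 (K a119 (M a187 (F (T t1725 (L l130 (L l265 (L l415 (T t221 (L l113 (L l265 (L l375 (L l421 (T t2622 N)))))))))))) (K a187 (M a119 (F (T t1725 (L l130 (L l265 (L l415 (T t221 (L l265 (L l375 (T t2622 N)))))))))) N))))))))))))) N))))))))))))))))))))⟩
def b0_63__90 : Blk 4 := ⟨[0, 63], [90], [1, 2, 3, 5, 6, 7, 10, 11, 15, 16, 17, 18, 19, 22, 23, 26, 27, 31, 32, 33, 34, 35, 37, 38, 39, 43, 47, 48, 49, 50, 51, 53, 54, 55, 58, 59, 64, 65, 66, 67, 69, 70, 71, 74, 75, 79, 80, 81, 82, 83, 85, 86, 87, 91, 95, 96, 97, 98, 99, 101, 102, 103, 106, 107, 111, 112, 113, 114, 115, 117, 118, 119, 122, 123, 127, 128, 129, 130, 131, 133, 134, 135, 138, 139, 143, 144, 145, 146, 147, 149, 150, 151, 154, 155, 159, 160, 161, 162, 163, 165, 166, 167, 170, 171, 175, 176, 177, 178, 179, 181, 182, 183, 186, 187, 191, 192, 193, 194, 195, 197, 198, 199, 202, 203, 207, 208, 209, 210, 211, 213, 214, 215, 218, 219,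 223, 224, 225, 226, 227, 229, 230, 231, 234, 235, 239, 240, 241, 242, 243, 245, 246, 247, 250, 251, 255], [e0_63__90_0, e0_63__90_1, e0_63__90_2, e0_63__90_3, e0_63__90_4, e0_63__90_5, e0_63__90_6, e0_63__90_7, e0_63__90_8, e0_63__90_9, e0_63__90_10, e0_63__90_11, e0_63__90_12, e0_63__90_13, e0_63__90_14, e0_63__90_15, e0_63__90_16, e0_63__90_17, e0_63__90_18, e0_63__90_19, e0_63__90_20, e0_63__90_21, e0_63__90_22, e0_63__90_23, e0_63__90_24, e0_63__90_25, e0_63__90_26, e0_63__90_27, e0_63__90_28, e0_63__90_29, e0_63__90_30, e0_63__90_31, e0_63__90_32, e0_63__90_33, e0_63__90_34, e0_63__90_35, e0_63__90_36, e0_63__90_37, e0_63__90_38, e0_63__90_39, e0_63__90_40, e0_63__90_41, e0_63__90_42, e0_63__90_43, e0_63__90_44, e0_63__90_45, e0_63__90_46, e0_63__90_47, e0_63__90_48, e0_63__90_49, e0_63__90_50, e0_63__90_51, e0_63__90_52, e0_63__90_53, e0_63__90_54, e0_63__90_55, e0_63__90_56, e0_63__90_57, e0_63__90_58, e0_63__90_59,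 e0_63__90_60, e0_63__90_61, e0_63__90_62, e0_63__90_63, e0_63__90_64, e0_63__90_65, e0_63__90_66, e0_63__90_67, e0_63__90_68, e0_63__90_69, e0_63__90_70, e0_63__90_71, e0_63__90_72, e0_63__90_73, e0_63__90_74, e0_63__90_75, e0_63__90_76, e0_63__90_77, e0_63__90_78, e0_63__90_79, e0_63__90_80, e0_63__90_81, e0_63__90_82, e0_63__90_83, e0_63__90_84, e0_63__90_85, e0_63__90_86, e0_63__90_87, e0_63__90_88, e0_63__90_89, e0_63__90_90, e0_63__90_91, e0_63__90_92, e0_63__90_93, e0_63__90_94, e0_63__90_95, e0_63__90_96, e0_63__90_97, e0_63__90_98, e0_63__90_99, e0_63__90_100, e0_63__90_101, e0_63__90_102, e0_63__90_103, e0_63__90_104, e0_63__90_105, e0_63__90_106, e0_63__90_107, e0_63__90_108, e0_63__90_109, e0_63__90_110, e0_63__90_111, e0_63__90_112, e0_63__90_113, e0_63__90_114, e0_63__90_115, e0_63__90_116, e0_63__90_117, e0_63__90_118, e0_63__90_119, e0_63__90_120, e0_63__90_121, e0_63__90_122, e0_63__90_123, e0_63__90_124,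 e0_63__90_125, e0_63__90_126, e0_63__90_127, e0_63__90_128, e0_63__90_129, e0_63__90_130, e0_63__90_131, e0_63__90_132, e0_63__90_133, e0_63__90_134, e0_63__90_135, e0_63__90_136, e0_63__90_137, e0_63__90_138, e0_63__90_139, e0_63__90_140, e0_63__90_141, e0_63__90_142, e0_63__90_143, e0_63__90_144, e0_63__90_145, e0_63__90_146, e0_63__90_147, e0_63__90_148, e0_63__90_149, e0_63__90_150, e0_63__90_151, e0_63__90_152, e0_63__90_153, e0_63__90_154], by decide +kernel, by decide +kernel⟩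

end Pool.Agent.Lib_TTT.K4
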