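import Pool.Agent.Lib_TTT.K4Base
import Pool.Agent.Lib_TTT.K4T00
import Pool.Agent.Lib_TTT.K4T01
import Pool.Agent.Lib_TTT.K4T02
import Pool.Agent.Lib_TTT.K4T03
import Pool.Agent.Lib_TTT.K4T04

/-! Certificates in `4^4`. -/

set_option autoImplicit false
set_option maxRecDepth 200000

namespace Pool.Agent.Lib_TTT.K4

open Lib_TTT AC DC

def e0_63__91_0 : Ent 4 := ⟨[a0, a63], [a91, a1], (M a85 (F (T t88 (L l65 (T t52 (T t89 (T t90 (K a64 (M a240 (F (T t386 (L l93 (T t387 N))))) (K a192 (M a16 (F (T t260 (L l339 (L l373 (L l481 (T t97 (L l296 (T t98 N))))))))) (K a21 (M a48 (L l65 (F (T t99 (T t50 (L l47 (T t100 (K a41 (M a61 (F (T t261 (L l41 (T t262 N))))) (K a61 (M a41 (F (T t261 (L l35 (L l47 (T t100 (T t50 N))))))) N))))))))) (K a149 (M a16 (F (T t101 (L l373 (L l375 (L l481 (T t97 (L l93 (L l170 (T t102 N)))))))))) (K a213 (Fr a170 a255 l476 (Fr a42 a21 l68 (Fr a106 a234 l390 (Fr a192 a149 l519 (V t581)))))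 (K a42 (M a48 (F (T t364 (L l390 (T t50 (L l28 (T t100 N))))))) (K a106 (M a48 (F (T t99 (L l65 (L l481 (T t1 (L l390 (T t50 N)))))))) (K a170 (M a16 (F (L l404 (T t113 (L l390 (T t98 (L l373 (L l390 (L l404 (L l481 (T t97 (L l404 (T t174 N))))))))))))) (K a255 (M a16 (F (L l5 (T t112 (L l289 (T t113 (L l289 (L l296 (T t98 N))))))))) N))))))))))))))))⟩
def e0_63__91_1 : Ent 4 := ⟨[a0, a63], [a91, a2], (M a85 (F (T t52 (L l66 (T t88 (L l66 (T t89 (L l474 (T t90 (K a64 (M a16 (F (T t258 (L l66 (L l373 (L l481 (T t97 (L l66 (L l116 (T t98 N)))))))))) (K a192 (M a16 (F (T t96 (L l66 (L l339 (L l373 (L l481 (T t97 (L l66 (L l296 (T t98 N))))))))))) (K a21 (M a48 (F (T t99 (L l474 (T t50 (L l47 (T t100 N))))))) (K a149 (M a16 (F (T t173 (L l66 (L l373 (L l375 (L l481 (T t97 (L l66 (L l93 (L l170 (T t102 N)))))))))))) (K a213 (Fr a170 a255 l476 (Fr a42 a21 l68 (Fr a106 a234 l390 (Fr a192 a149 l519 (V t581))))) (K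 a42 (M a62 (F (T t1693 (L l390 (L l474 (T t1694 (L l22 (L l306 (T t1695 (L l306 (L l390 (L l474 (T t1696 N))))))))))))) (K a106 (M a48 (F (T t99 (L l6 (L l481 (T t1 (L l390 (L l474 (T t50 N))))))))) (K a170 (M a86 (F (L l93 (L l174 (T t1703 (L l66 (L l373 (L l390 (T t369 (L l93 (L l174 (L l306 (T t1701 (L l66 (L l174 (L l390 (T t1702 N))))))))))))))))) (K a255 (M a16 (F (L l66 (T t112 (L l289 (T t113 (L l66 (L l289 (L l296 (T t98 N)))))))))) N))))))))))))))))))⟩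
def e0_63__91_2 : Ent 4 := ⟨[a0, a63], [a91, a3], (M a12 (F (T t150 (L l43 (T t122 (L l43 (T t151 (L l43 (T t152 (L l43 (T t153 (K a4 (M a85 (F (T t89 (L l333 (T t124 (T t154 N)))))) (K a8 (M a85 (F (L l475 (T t52 (L l333 (L l464 (T t124 (L l56 (T t154 N))))))))) (K a21 (M a192 (F (T t2119 (L l15 (L l347 (L l451 (L l481 (T t450 (L l15 (L l347 (T t157 N))))))))))) (K a25 (M a192 (F (T t158 (L l333 (T t156 (L l475 (T t21 N))))))) (K a29 (M a192 (F (T t159 (L l371 (L l475 (T t21 (T t160 N))))))) (K a38 (M a192 (F (T t161 (L l333 (T t156 (L l475 (T t21 N))))))) (K a42 (M a192 (F (T t161 (L l333 (T t156 (L l56 (T t157 N))))))) (K a46 (M a192 (F (T t57 (L l333 (T t156 (L l26 (L l408 (T t160 N)))))))) (K a51 (M a170 (L l43 (F (T t439 (L l439 (L l475 (T t3685 (L l463 (T t3880 (K a19 (M a35 (F (T t4159 (L l463 (T t3682 N))))) (K a35 (M a19 (F (T t4159 (L l463 (T t3682 N))))) N))))))))))) N))))))))))))))))))))⟩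
def e0_63__91_3 : Ent 4 := ⟨[a0, a63], [a91, a4], (M a85 (F (T t88 (L l50 (T t52 (T t89 (T t90 (K a64 (M a240 (F (T t386 (L l93 (T t387 N))))) (K a192 (M a16 (F (T t260 (L l339 (L l373 (L l481 (T t97 (L l296 (T t98 N))))))))) (K a21 (M a48 (L l50 (F (T t99 (T t50 (L l47 (T t100 (K a38 (M a55 (F (T t261 (L l46 (T t1743 N))))) (K a55 (M a38 (F (T t99 (T t50 (L l31 (L l47 (T t100 N))))))) N))))))))) (K a149 (M a16 (F (T t101 (L l373 (L l375 (L l481 (T t97 (L l93 (L l170 (T t102 N)))))))))) (K a213 (Fr a170 a255 l476 (Fr a42 a21 l68 (Fr a106 a234 l390 (Fr a192 a149 l519 (V t581))))) (K a42 (M a48 (F (T t364 (L l390 (T t50 (L l28 (T t100 N))))))) (K a106 (M a48 (F (T t99 (L l50 (L l481 (T t1 (L l390 (T t50 N)))))))) (K a170 (M a16 (F (L l404 (T t113 (L l390 (T t98 (L l373 (L l390 (L l404 (L l481 (T t97 (L l404 (T t174 N))))))))))))) (K a255 (M a16 (F (L l1 (T t112 (L l289 (T t113 (L l289 (L l296 (T t98 N)))))))))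 N))))))))))))))))⟩
def e0_63__91_4 : Ent 4 := ⟨[a0, a63], [a91, a5], (M a85 (F (T t88 (L l47 (T t52 (T t89 (T t90 (K a64 (M a240 (F (T t933 (L l93 (T t387 N))))) (K a192 (M a48 (F (T t935 (L l47 (L l339 (L l481 (T t3 (L l268 (T t50 N))))))))) (K a21 (M a12 (L l47 (F (T t1368 (T t124 (L l15 (T t574 (K a37 (M a53 (F (T t124 (L l21 (L l28 (T t4160 N)))))) (K a53 (M a37 (F (T t1368 (T t124 (L l15 (T t574 N)))))) N))))))))) (K a149 (M a48 (F (T t99 (L l47 (L l481 (T t3 (L l220 (T t50 N)))))))) (K a213 (Fr a170 a255 l476 (Fr a42 a21 l68 (Fr a106 a234 l390 (Fr a192 a149 l519 (V t581))))) (K a42 (M a48 (F (T t364 (L l390 (T t50 (L l28 (L l47 (T t100 N)))))))) (K a106 (M a48 (F (T t99 (L l47 (L l411 (L l481 (T t3 (L l390 (T t50 N))))))))) (K a170 (M a4 (F (L l464 (T t130 (L l390 (T t131 (L l390 (L l464 (T t519 (L l464 (L l481 (T t938 N)))))))))))) (K a255 (M a4 (F (T t129 (L l265 (T t130 (L l265 (L l296 (T t131 N))))))))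 N))))))))))))))))⟩
def e0_63__91_5 : Ent 4 := ⟨[a0, a63], [a91, a6], (M a85 (F (T t88 (T t52 (T t89 (T t90 (K a64 (M a240 (F (T t386 (L l93 (T t387 N))))) (K a192 (M a16 (F (T t96 (L l339 (L l373 (L l481 (T t97 (L l296 (T t98 N))))))))) (K a21 (M a48 (F (T t99 (T t50 (L l47 (T t100 N)))))) (K a149 (M a16 (F (T t173 (L l373 (L l375 (L l481 (T t97 (L l93 (L l170 (T t102 N)))))))))) (K a213 (Fr a170 a255 l476 (Fr a42 a21 l68 (Fr a106 a234 l390 (Fr a192 a149 l519 (V t581))))) (K a42 (M a48 (F (T t364 (L l390 (T t50 (L l28 (T t100 N))))))) (K a106 (M a48 (F (T t99 (L l6 (L l481 (T t1 (L l390 (T t50 N)))))))) (K a170 (M a16 (F (L l404 (T t113 (L l390 (T t98 (L l373 (L l390 (L l404 (L l481 (T t97 (L l404 (T t174 N))))))))))))) (K a255 (M a16 (F (L l1 (T t112 (L l289 (T t113 (L l289 (L l296 (T t98 N))))))))) N)))))))))))))))⟩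
def e0_63__91_6 : Ent 4 := ⟨[a0, a63], [a91, a7], (M a85 (F (T t88 (T t52 (T t89 (T t90 (K a64 (M a240 (F (T t386 (L l93 (T t387 N))))) (K a192 (M a16 (F (T t96 (L l7 (L l339 (L l373 (L l481 (T t97 (L l296 (T t98 N)))))))))) (K a21 (M a48 (F (T t99 (T t50 (L l47 (T t100 N)))))) (K a149 (M a16 (F (T t173 (L l7 (L l373 (L l375 (L l481 (T t97 (L l93 (L l170 (T t102 N))))))))))) (K a213 (Fr a170 a255 l476 (Fr a42 a21 l68 (Fr a106 a234 l390 (Fr a192 a149 l519 (V t581))))) (K a42 (M a48 (F (T t364 (L l390 (T t50 (L l28 (T t100 N))))))) (K a106 (M a48 (F (T t99 (L l7 (L l481 (T t1 (L l390 (T t50 N)))))))) (K a170 (M a16 (F (L l404 (T t113 (L l390 (T t98 (L l7 (L l373 (L l390 (L l404 (L l481 (T t97 (L l404 (T t174 N)))))))))))))) (K a255 (M a16 (F (L l1 (T t112 (L l289 (T t113 (L l289 (L l296 (T t98 N))))))))) N)))))))))))))))⟩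
def e0_63__91_7 : Ent 4 := ⟨[a0, a63], [a91, a8], (M a85 (F (T t52 (L l56 (T t88 (L l56 (T t89 (L l464 (T t90 (K a64 (M a16 (F (T t258 (L l56 (L l373 (L l481 (T t97 (L l56 (L l116 (T t98 N)))))))))) (K a192 (M a16 (F (T t96 (L l56 (L l339 (L l373 (L l481 (T t97 (L l56 (L l296 (T t98 N))))))))))) (K a21 (M a48 (F (T t99 (L l464 (T t50 (L l47 (T t100 N))))))) (K a149 (M a16 (F (T t173 (L l56 (L l373 (L l375 (L l481 (T t97 (L l56 (L l93 (L l170 (T t102 N)))))))))))) (K a213 (Fr a170 a255 l476 (Fr a42 a21 l68 (Fr a106 a234 l390 (Fr a192 a149 l519 (V t581))))) (K a42 (M a59 (F (T t104 (L l390 (L l464 (T t105 (L l26 (L l316 (T t106 (L l316 (L l390 (L l464 (T t107 N))))))))))))) (K a106 (M a48 (F (T t99 (L l2 (L l481 (T t1 (L l390 (L l464 (T t50 N))))))))) (K a170 (M a89 (F (L l56 (L l390 (T t109 (L l178 (L l316 (L l463 (T t110 (L l56 (L l178 (L l390 (T t111 (L l131 (L l178 (T t108 N)))))))))))))))) (K a255 (M a16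 (F (L l56 (T t112 (L l289 (T t113 (L l56 (L l289 (L l296 (T t98 N)))))))))) N))))))))))))))))))⟩
def e0_63__91_8 : Ent 4 := ⟨[a0, a63], [a91, a9], (M a85 (F (T t88 (T t52 (T t89 (T t90 (K a64 (M a240 (F (T t386 (L l93 (T t387 N))))) (K a192 (M a16 (F (T t96 (L l339 (L l373 (L l481 (T t97 (L l296 (T t98 N))))))))) (K a21 (M a48 (F (T t99 (T t50 (L l47 (T t100 N)))))) (K a149 (M a16 (F (T t173 (L l373 (L l375 (L l481 (T t97 (L l93 (L l170 (T t102 N)))))))))) (K a213 (Fr a170 a255 l476 (Fr a42 a21 l68 (Fr a106 a234 l390 (Fr a192 a149 l519 (V t581))))) (K a42 (M a48 (F (T t364 (L l390 (T t50 (L l28 (T t100 N))))))) (K a106 (M a48 (F (T t99 (L l2 (L l481 (T t1 (L l390 (T t50 N)))))))) (K a170 (M a16 (F (L l404 (T t113 (L l390 (T t98 (L l373 (L l390 (L l404 (L l481 (T t97 (L l404 (T t174 N))))))))))))) (K a255 (M a16 (F (L l5 (T t112 (L l289 (T t113 (L l289 (L l296 (T t98 N))))))))) N)))))))))))))))⟩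
def e0_63__91_9 : Ent 4 := ⟨[a0, a63], [a91, a10], (M a85 (F (T t52 (L l54 (T t88 (L l54 (T t89 (L l462 (T t90 (K a64 (M a16 (F (T t258 (L l54 (L l373 (L l481 (T t97 (L l54 (L l116 (T t98 N)))))))))) (K a192 (M a16 (F (T t96 (L l54 (L l339 (L l373 (L l481 (T t97 (L l54 (L l296 (T t98 N))))))))))) (K a21 (M a48 (F (T t99 (L l462 (T t50 (L l47 (L l318 (T t100 N)))))))) (K a149 (M a48 (F (T t99 (L l54 (L l373 (L l375 (L l481 (T t0 (L l220 (L l462 (T t50 N))))))))))) (K a213 (Fr a170 a255 l476 (Fr a42 a21 l68 (Fr a106 a234 l390 (Fr a192 a149 l519 (V t581))))) (K a42 (M a58 (F (T t118 (L l390 (L l462 (T t119 (L l28 (L l318 (T t120 (L l318 (L l390 (L l462 (T t121 N))))))))))))) (K a106 (M a12 (F (T t122 (L l2 (L l88 (L l132 (T t123 (L l390 (L l462 (T t124 N)))))))))) (K a170 (M a90 (F (L l93 (L l180 (L l481 (T t125 (L l54 (L l390 (T t126 (L l93 (L l180 (L l318 (L l481 (T t127 (L l54 (L l180 (L l390 (T t128 N))))))))))))))))))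 (K a255 (M a4 (F (L l2 (L l54 (T t129 (L l2 (L l265 (T t130 (L l54 (L l265 (L l296 (T t131 N)))))))))))) N))))))))))))))))))⟩
def e0_63__91_10 : Ent 4 := ⟨[a0, a63], [a91, a11], (M a85 (L l463 (F (T t88 (T t52 (T t89 (T t90 (K a64 (M a240 (L l463 (F (T t386 (L l93 (T t387 (K a171 (M a251 (F (T t1551 (L l55 (L l174 (T t4161 N)))))) (K a251 (M a171 (F (T t1551 (L l131 (L l283 (L l464 (T t4162 N))))))) N)))))))) (K a192 (M a16 (L l463 (F (T t96 (L l7 (L l339 (L l373 (L l481 (T t97 (L l296 (T t98 (K a171 (M a251 (F (T t112 (L l55 (L l174 (L l489 (T t4161 N))))))) (K a251 (M a171 (F (T t112 (L l93 (L l228 (L l464 (T t4163 N))))))) N))))))))))))) (K a21 (M a3 (L l463 (F (T t4164 (L l93 (T t355 (L l11 (T t376 (K a171 (M a251 (F (L l11 (T t376 (L l55 (L l174 (T t4161 (L l2 (L l65 (T t4165 N)))))))))) (K a251 (M a171 (F (T t4166 (L l11 (T t376 N))))) N)))))))))) (K a149 (M a16 (L l463 (F (T t173 (L l7 (L l373 (L l375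 (L l481 (T t97 (L l57 (L l93 (L l170 (T t102 (K a171 (M a251 (F (T t112 (L l55 (L l174 (L l202 (L l220 (T t4161 N)))))))) (K a251 (M a171 (F (T t112 (L l93 (L l220 (L l464 (T t4163 N))))))) N))))))))))))))) (K a213 (Fr a170 a255 l476 (Fr a42 a21 l68 (Fr a106 a234 l390 (Fr a192 a149 l519 (V t581))))) (K a42 (M a3 (L l463 (F (L l66 (T t4164 (L l93 (L l390 (T t355 (L l66 (T t376 (K a171 (M a251 (F (L l66 (T t376 (L l2 (L l56 (L l179 (T t4167 (L l55 (L l56 (L l174 (L l390 (T t4161 N))))))))))))) (K a251 (M a171 (F (T t4166 (L l66 (T t376 N))))) N)))))))))))) (K a106 (M a48 (L l463 (F (T t99 (L l2 (L l7 (L l481 (T t1 (L l390 (T t50 (K a171 (M a251 (F (T t1699 (L l2 (L l7 (L l481 (T t1 (L l55 (L l174 (L l390 (L l501 (T t4161 N)))))))))))) (K a251 (M a171 (F (T t1699 (L l2 (L l7 (L l481 (T t1 (L l7 (L l390 (L l464 (T t4168 N))))))))))) N)))))))))))) (K a170 (M a89 (L l463 (F (L l178 (L l390 (T t4169 (L l390 (T t109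 (L l178 (T t4170 (L l2 (L l390 (T t4171 (L l131 (L l178 (T t108 (K a171 (M a251 (L l174 (F (L l178 (T t4172 (L l390 (T t109 (L l2 (L l390 (T t4171 (K a168 (M a169 (F (L l178 (T t4172 (L l388 (L l474 (T t2025 N))))))) (K a169 (M a168 (L l465 (F (L l178 (T t4172 (L l390 (T t109 (L l390 (L l481 (T t4173 (K a248 (M a90 (F (L l178 (T t4172 (L l93 (L l180 (L l390 (L l429 (T t1799 N))))))))) (K a90 (M a248 (L l462 (F (L l178 (T t4172 (L l130 (T t4174 (K a10 (Fr a250 a249 l260 (V t4175)) (K a250 (M a10 (F (L l178 (T t4172 (L l426 (T t2561 N)))))) N))))))))) N)))))))))))) N)))))))))))) (K a251 (M a171 (F (L l178 (L l390 (T t4169 (L l390 (T t109 (L l178 (T t4176 (L l265 (L l390 (L l481 (T t4173 (L l131 (L l178 (L l427 (T t108 N))))))))))))))))) N)))))))))))))))))) (K a255 (M a3 (L l463 (F (T t632 (L l261 (T t376 (L l55 (L l93 (L l296 (T t377 (L l261 (L l296 (T t357 (K a171 (M a251 (F (T t632 (L l261 (T t376 (L l55 (L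 l93 (L l296 (L l391 (T t377 (L l261 (L l296 (T t357 N))))))))))))) (K a251 (M a171 (L l265 (F (L l261 (T t3672 (L l434 (T t358 (L l55 (L l93 (L l296 (T t377 (K a243 (M a247 (L l481 (F (L l261 (T t3672 (L l296 (L l482 (T t3590 (K a167 (M a15 (F (L l261 (T t3672 (L l416 (L l440 (T t731 N))))))) (K a15 (M a167 (L l469 (F (L l261 (T t3672 (L l271 (L l283 (L l295 (T t4177 (K a95 (Fr a175 a163 l179 (V t4178)) (K a175 (M a95 (F (L l261 (T t3672 (L l213 (L l296 (T t2878 N))))))) N))))))))))) N)))))))))) (K a247 (M a243 (F (L l261 (T t3672 (L l131 (L l278 (L l296 (L l427 (L l470 (T t4179 N)))))))))) N))))))))))))) N))))))))))))))) (K a171 (M a251 (F (L l475 (T t52 (L l55 (L l174 (T t4161 (L l2 (L l219 (T t4180 (L l219 (T t4181 N)))))))))))) (K a251 (M a171 (F (T t89 (L l7 (L l464 (T t4168 (L l265 (L l284 (T t52 (L l93 (T t4182 (T t4183 N)))))))))))) N))))))))))))))))))⟩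
def e0_63__91_11 : Ent 4 := ⟨[a0, a63], [a91, a12], (M a60 (F (T t116 (L l9 (T t67 (L l9 (T t43 (L l9 (T t68 (L l9 (T t69 (K a20 (M a48 (F (T t138 (L l3 (L l11 (L l481 (T t1 (L l11 (T t235 N))))))))) (K a40 (M a48 (F (T t48 (L l74 (T t64 (L l52 (T t235 N))))))) (K a21 (M a192 (F (T t2647 (L l131 (L l338 (L l347 (T t73 (L l347 (T t74 N))))))))) (K a41 (M a192 (F (T t1343 (L l466 (T t79 (L l65 (L l470 (T t35 N)))))))) (K a61 (M a192 (F (T t1800 (L l466 (T t79 (L l373 (T t80 N))))))) (K a22 (M a192 (F (T t237 (L l11 (L l466 (T t79 (L l11 (L l470 (T t35 N))))))))) (K a42 (M a192 (F (T t237 (L l466 (T t79 (L l22 (T t74 N))))))) (K a62 (M a192 (F (T t57 (L l466 (T t79 (L l66 (L l373 (L l516 (T t80 N))))))))) (K a3 (M a84 (L l9 (F (T t2648 (T t1415 (L l470 (L l475 (L l477 (T t1416 (K a9 (M a6 (F (T t1414 (L l70 (T t2649 N))))) (K a6 (M a9 (F (T t1414 (L l70 (T t2650 N))))) N))))))))))) N))))))))))))))))))))⟩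
def e0_63__91_12 : Ent 4 := ⟨[a0, a63], [a91, a13], (M a85 (F (T t88 (T t52 (T t89 (T t90 (K a64 (M a240 (F (T t386 (L l93 (T t387 N))))) (K a192 (M a16 (F (T t96 (L l3 (L l339 (L l373 (L l481 (T t97 (L l296 (T t98 N)))))))))) (K a21 (M a48 (F (T t99 (T t50 (L l47 (T t100 N)))))) (K a149 (M a16 (F (T t173 (L l3 (L l373 (L l375 (L l481 (T t97 (L l93 (L l170 (T t102 N))))))))))) (K a213 (Fr a170 a255 l476 (Fr a42 a21 l68 (Fr a106 a234 l390 (Fr a192 a149 l519 (V t581))))) (K a42 (M a48 (F (T t364 (L l390 (T t50 (L l28 (T t100 N))))))) (K a106 (M a48 (F (T t99 (L l3 (L l481 (T t1 (L l390 (T t50 N)))))))) (K a170 (M a16 (F (L l404 (T t113 (L l390 (T t98 (L l3 (L l373 (L l390 (L l404 (L l481 (T t97 (L l404 (T t174 N)))))))))))))) (K a255 (M a16 (F (L l5 (T t112 (L l289 (T t113 (L l289 (L l296 (T t98 N))))))))) N)))))))))))))))⟩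
def e0_63__91_13 : Ent 4 := ⟨[a0, a63], [a91, a14], (M a85 (F (T t88 (T t52 (T t89 (T t90 (K a64 (M a240 (F (T t386 (L l93 (T t387 N))))) (K a192 (M a16 (F (T t96 (L l3 (L l339 (L l373 (L l481 (T t97 (L l296 (T t98 N)))))))))) (K a21 (M a48 (F (T t99 (T t50 (L l47 (T t100 N)))))) (K a149 (M a16 (F (T t173 (L l3 (L l373 (L l375 (L l481 (T t97 (L l72 (L l93 (L l170 (T t102 N)))))))))))) (K a213 (Fr a170 a255 l476 (Fr a42 a21 l68 (Fr a106 a234 l390 (Fr a192 a149 l519 (V t581))))) (K a42 (M a48 (F (T t364 (L l390 (T t50 (L l28 (T t100 N))))))) (K a106 (M a48 (F (T t99 (L l3 (L l6 (L l481 (T t1 (L l390 (T t50 N))))))))) (K a170 (M a16 (F (L l404 (T t113 (L l390 (T t98 (L l3 (L l373 (L l390 (L l404 (L l481 (T t97 (L l404 (T t174 N)))))))))))))) (K a255 (M a16 (F (T t112 (L l289 (T t113 (L l289 (L l296 (T t98 N)))))))) N)))))))))))))))⟩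
def e0_63__91_14 : Ent 4 := ⟨[a0, a63], [a91, a15], (M a85 (L l481 (F (T t89 (L l339 (T t88 (L l469 (T t52 (L l339 (T t90 (K a64 (M a243 (F (T t2087 (L l73 (L l131 (T t2088 (L l80 (T t4184 N)))))))) (K a192 (M a243 (L l339 (F (T t2087 (L l73 (L l131 (L l489 (T t2088 (L l131 (L l296 (L l334 (T t2089 (T t4185 (K a133 (M a74 (F (T t2087 (L l73 (L l131 (L l489 (T t2088 (L l131 (L l296 (T t4179 (T t4185 N))))))))))) (K a74 (M a133 (F (T t2087 (L l84 (L l296 (T t3832 (T t4185 N))))))) N))))))))))))))) (K a21 (M a243 (F (L l469 (T t2338 (L l73 (L l131 (T t2088 (T t3594 N)))))))) (K a149 (M a243 (F (L l469 (T t2338 (L l73 (L l131 (L l220 (T t2088 (L l202 (L l463 (T t4186 (L l3 (L l202 (L l463 (T t4187 N))))))))))))))) (K a213 (Fr a170 a255 l476 (Fr a42 a21 l68 (Fr a106 a234 l390 (Fr a192 a149 l519 (V t581))))) (K a42 (M a243 (F (T t2087 (L l73 (L l131 (L l390 (T t2088 (T t3594 N)))))))) (K a106 (M a243 (F (L l469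 (T t2338 (L l73 (L l390 (L l501 (T t4188 (L l131 (L l132 (L l390 (T t2089 (L l3 (L l131 (L l132 (T t4189 N)))))))))))))))) (K a170 (M a243 (F (L l178 (L l390 (T t4190 (L l131 (L l390 (T t4191 (L l3 (L l178 (L l463 (L l464 (T t4187 (L l178 (L l390 (T t4192 (L l339 (L l390 (T t4193 (L l3 (L l131 (L l178 (T t4189 (L l131 (L l220 (L l339 (L l390 (T t4194 N)))))))))))))))))))))))))))) (K a255 (M a3 (L l469 (L l481 (F (T t85 (L l261 (T t376 (L l93 (L l296 (T t377 (L l261 (L l296 (T t357 (K a243 (M a167 (L l265 (L l469 (F (T t1341 (L l261 (T t376 (L l261 (T t2226 (L l93 (L l296 (T t377 (K a247 (M a251 (L l469 (F (T t1341 (L l261 (T t376 (L l261 (L l278 (L l296 (T t357 (L l93 (L l278 (L l296 (T t377 (K a95 (M a175 (L l93 (F (L l261 (T t2226 (L l137 (L l271 (L l295 (T t3670 (K a83 (M a87 (F (T t2255 (L l137 (L l271 (L l295 (T t3670 N))))))) (K a87 (M a83 (F (L l261 (T t2226 (L l137 (L l271 (L l295 (L l349 (T t3670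 N))))))))) N))))))))))) (K a175 (M a95 (F (T t85 (L l213 (L l278 (L l296 (T t2878 (L l261 (T t376 N))))))))) N)))))))))))))))) (K a251 (M a247 (L l463 (L l469 (F (L l93 (T t4195 (L l63 (L l434 (L l446 (T t358 (K a11 (M a171 (L l469 (F (L l261 (T t3672 (L l271 (L l283 (L l295 (T t4177 (K a95 (Fr a175 a163 l179 (V t4178)) (K a175 (M a95 (F (L l261 (T t3672 (L l213 (L l296 (T t2878 N))))))) N))))))))))) (K a171 (M a11 (L l469 (F (L l93 (T t4195 (L l63 (L l434 (L l446 (T t358 (K a95 (M a175 (L l93 (F (T t630 (L l267 (T t4196 (K a83 (Fr a87 a7 l457 (V t2258)) (K a87 (M a83 (F (L l391 (T t1341 (L l73 (L l415 (L l439 (L l464 (L l482 (T t3599 (L l137 (L l143 (L l261 (L l349 (T t376 N))))))))))))))) N)))))))) (K a175 (M a95 (F (T t4195 (L l63 (L l434 (L l446 (T t665 N))))))) N))))))))))) (K a95 (M a175 (L l93 (L l463 (F (T t1341 (L l267 (T t4196 (K a83 (Fr a87 a7 l457 (V t2255)) (K a87 (M a83 (L l463 (F (T t1341 (L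 l471 (T t3671 (K a11 (Fr a171 a163 l179 (V t4178)) (K a171 (M a11 (F (L l391 (T t1341 (L l73 (L l415 (L l439 (L l464 (L l482 (T t3599 (L l137 (L l143 (L l261 (L l349 (T t376 N))))))))))))))) N)))))))) (K a11 (Fr a171 a163 l179 (V t4178)) (K a171 (M a11 (L l93 (F (T t630 (L l267 (T t4196 (K a83 (Fr a87 a7 l457 (V t2258)) (K a87 (M a83 (F (L l391 (T t1341 (L l73 (L l415 (L l439 (L l464 (L l482 (T t3599 (L l137 (L l143 (L l261 (L l349 (T t376 N))))))))))))))) N)))))))) N))))))))))) (K a175 (M a95 (L l463 (F (T t4195 (L l63 (L l434 (L l446 (T t358 (K a11 (M a171 (F (L l261 (T t3672 (L l213 (L l296 (T t2878 N))))))) (K a171 (M a11 (F (T t4195 (L l63 (L l434 (L l446 (T t665 N))))))) N)))))))))) N)))))))))))))) (K a95 (M a175 (L l93 (L l265 (F (T t85 (L l137 (L l271 (L l295 (T t3670 (L l261 (L l296 (T t357 (K a83 (M a87 (L l265 (F (T t2255 (L l137 (L l271 (L l295 (T t3670 (K a247 (M a251 (F (T t2255 (L l137 (L l271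 (L l295 (T t3670 N))))))) (K a251 (Fr a247 a7 l457 (V t2255)) N)))))))))) (K a87 (M a83 (L l265 (F (L l296 (T t3611 (L l137 (L l271 (L l295 (L l349 (T t3670 (K a247 (M a251 (F (L l261 (T t2226 (L l137 (L l271 (L l295 (L l349 (T t3670 N))))))))) (K a251 (M a247 (L l463 (F (T t1341 (L l471 (T t3671 (K a11 (Fr a171 a163 l179 (V t4178)) (K a171 (M a11 (F (L l391 (T t1341 (L l73 (L l415 (L l439 (L l464 (L l482 (T t3599 (L l137 (L l143 (L l261 (L l349 (T t376 N))))))))))))))) N)))))))) N)))))))))))) (K a247 (M a251 (L l93 (F (L l261 (T t2226 (L l137 (L l271 (L l295 (T t3670 (K a83 (M a87 (F (T t2255 (L l137 (L l271 (L l295 (T t3670 N))))))) (K a87 (M a83 (F (L l261 (T t2226 (L l137 (L l271 (L l295 (L l349 (T t3670 N))))))))) N))))))))))) (K a251 (M a247 (L l93 (L l463 (F (T t1341 (L l267 (T t4196 (K a83 (Fr a87 a7 l457 (V t2255)) (K a87 (M a83 (L l463 (F (T t1341 (L l471 (T t3671 (K a11 (Fr a171 a163 l179 (V t4178))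 (K a171 (M a11 (F (L l391 (T t1341 (L l73 (L l415 (L l439 (L l464 (L l482 (T t3599 (L l137 (L l143 (L l261 (L l349 (T t376 N))))))))))))))) N)))))))) (K a11 (Fr a171 a163 l179 (V t4178)) (K a171 (M a11 (L l93 (F (T t630 (L l267 (T t4196 (K a83 (Fr a87 a7 l457 (V t2258)) (K a87 (M a83 (F (L l391 (T t1341 (L l73 (L l415 (L l439 (L l464 (L l482 (T t3599 (L l137 (L l143 (L l261 (L l349 (T t376 N))))))))))))))) N)))))))) N))))))))))) N)))))))))))))))) (K a175 (M a95 (L l265 (F (T t85 (L l213 (L l296 (T t2878 (L l261 (T t376 (K a247 (M a251 (F (T t85 (L l213 (L l278 (L l296 (T t2878 (L l261 (T t376 N))))))))) (K a251 (M a247 (L l463 (F (T t4195 (L l63 (L l434 (L l446 (T t358 (K a11 (M a171 (F (L l261 (T t3672 (L l213 (L l296 (T t2878 N))))))) (K a171 (M a11 (F (T t4195 (L l63 (L l434 (L l446 (T t665 N))))))) N)))))))))) N))))))))))) N)))))))))))))))) (K a167 (M a243 (L l469 (F (T t85 (L l201 (L l470 (T t4197 (K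 a95 (M a175 (L l93 (F (T t4198 (L l88 (L l131 (L l296 (T t4199 (K a83 (M a87 (F (T t2255 (L l89 (L l131 (L l296 (L l470 (T t4179 N)))))))) (K a87 (Fr a83 a163 l451 (V t3673)) N)))))))))) (K a175 (M a95 (L l179 (F (T t4200 (L l88 (L l131 (L l296 (T t4199 (K a163 (M a171 (F (L l261 (T t3672 (L l131 (L l172 (L l296 (L l470 (T t4179 N))))))))) (K a171 (Fr a163 a83 l451 (V t4201)) N)))))))))) N))))))))) (K a95 (M a175 (L l93 (L l481 (F (T t1341 (L l137 (L l261 (T t376 (L l261 (L l296 (T t357 (L l296 (T t2254 (K a83 (M a87 (L l481 (F (T t2255 (L l63 (L l434 (T t358 (L l296 (L l339 (T t2256 (K a243 (M a167 (L l265 (F (T t2255 (L l137 (L l271 (L l295 (T t3670 (K a247 (M a251 (F (T t2255 (L l137 (L l271 (L l295 (T t3670 N))))))) (K a251 (Fr a247 a7 l457 (V t2255)) N)))))))))) (K a167 (M a243 (F (T t2255 (L l89 (L l131 (L l296 (L l470 (T t4179 N)))))))) N)))))))))))) (K a243 (M a167 (L l93 (L l265 (F (T t85 (L l137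 (L l271 (L l295 (T t3670 (L l261 (L l296 (T t357 (K a83 (M a87 (L l265 (F (T t2255 (L l137 (L l271 (L l295 (T t3670 (K a247 (M a251 (F (T t2255 (L l137 (L l271 (L l295 (T t3670 N))))))) (K a251 (Fr a247 a7 l457 (V t2255)) N)))))))))) (K a87 (M a83 (L l265 (F (L l296 (T t3611 (L l137 (L l271 (L l295 (L l349 (T t3670 (K a247 (M a251 (F (L l261 (T t2226 (L l137 (L l271 (L l295 (L l349 (T t3670 N))))))))) (K a251 (M a247 (L l463 (F (T t1341 (L l471 (T t3671 (K a11 (Fr a171 a163 l179 (V t4178)) (K a171 (M a11 (F (L l391 (T t1341 (L l73 (L l415 (L l439 (L l464 (L l482 (T t3599 (L l137 (L l143 (L l261 (L l349 (T t376 N))))))))))))))) N)))))))) N)))))))))))) (K a247 (M a251 (L l93 (F (L l261 (T t2226 (L l137 (L l271 (L l295 (T t3670 (K a83 (M a87 (F (T t2255 (L l137 (L l271 (L l295 (T t3670 N))))))) (K a87 (M a83 (F (L l261 (T t2226 (L l137 (L l271 (L l295 (L l349 (T t3670 N))))))))) N))))))))))) (K a251 (M a247 (L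 l93 (L l463 (F (T t1341 (L l267 (T t4196 (K a83 (Fr a87 a7 l457 (V t2255)) (K a87 (M a83 (L l463 (F (T t1341 (L l471 (T t3671 (K a11 (Fr a171 a163 l179 (V t4178)) (K a171 (M a11 (F (L l391 (T t1341 (L l73 (L l415 (L l439 (L l464 (L l482 (T t3599 (L l137 (L l143 (L l261 (L l349 (T t376 N))))))))))))))) N)))))))) (K a11 (Fr a171 a163 l179 (V t4178)) (K a171 (M a11 (L l93 (F (T t630 (L l267 (T t4196 (K a83 (Fr a87 a7 l457 (V t2258)) (K a87 (M a83 (F (L l391 (T t1341 (L l73 (L l415 (L l439 (L l464 (L l482 (T t3599 (L l137 (L l143 (L l261 (L l349 (T t376 N))))))))))))))) N)))))))) N))))))))))) N)))))))))))))))) (K a87 (M a83 (L l481 (F (T t3669 (L l63 (L l434 (T t358 (L l89 (L l296 (L l470 (T t3668 (K a243 (M a167 (L l265 (F (L l296 (T t3611 (L l137 (L l271 (L l295 (L l349 (T t3670 (K a247 (M a251 (F (L l261 (T t2226 (L l137 (L l271 (L l295 (L l349 (T t3670 N))))))))) (K a251 (M a247 (L l463 (F (T t1341 (L l471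 (T t3671 (K a11 (Fr a171 a163 l179 (V t4178)) (K a171 (M a11 (F (L l391 (T t1341 (L l73 (L l415 (L l439 (L l464 (L l482 (T t3599 (L l137 (L l143 (L l261 (L l349 (T t376 N))))))))))))))) N)))))))) N)))))))))))) (K a167 (Fr a243 a163 l451 (V t3673)) N))))))))))))) (K a167 (M a243 (L l93 (F (T t4198 (L l88 (L l131 (L l296 (T t4199 (K a83 (M a87 (F (T t2255 (L l89 (L l131 (L l296 (L l470 (T t4179 N)))))))) (K a87 (Fr a83 a163 l451 (V t3673)) N)))))))))) N))))))))))))))))) (K a175 (M a95 (L l481 (F (T t630 (L l88 (L l180 (L l483 (T t4202 (L l213 (L l296 (T t2878 (K a243 (M a167 (L l265 (F (T t85 (L l213 (L l296 (T t2878 (L l261 (T t376 (K a247 (M a251 (F (T t85 (L l213 (L l278 (L l296 (T t2878 (L l261 (T t376 N))))))))) (K a251 (M a247 (L l463 (F (T t4195 (L l63 (L l434 (L l446 (T t358 (K a11 (M a171 (F (L l261 (T t3672 (L l213 (L l296 (T t2878 N))))))) (K a171 (M a11 (F (T t4195 (L l63 (L l434 (L l446 (T t665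 N))))))) N)))))))))) N))))))))))) (K a167 (M a243 (L l179 (F (T t4200 (L l88 (L l131 (L l296 (T t4199 (K a163 (M a171 (F (L l261 (T t3672 (L l131 (L l172 (L l296 (L l470 (T t4179 N))))))))) (K a171 (Fr a163 a83 l451 (V t4201)) N)))))))))) N))))))))))))) N))))))))))))))))) (K a243 (M a167 (F (T t89 (L l272 (L l339 (T t88 (L l265 (L l469 (T t52 (L l272 (L l339 (T t90 (K a64 (M a48 (F (T t567 (T t568 N)))) (K a192 (M a245 (L l272 (L l339 (F (L l267 (T t4203 (L l75 (L l416 (L l484 (T t4204 (K a209 (M a226 (L l339 (F (L l267 (T t4203 (L l75 (L l416 (L l484 (T t4204 (K a133 (M a74 (F (L l267 (L l311 (T t4203 (L l75 (L l416 (L l484 (T t4204 N))))))))) (K a74 (M a133 (F (L l93 (T t4205 (L l75 (L l130 (L l416 (L l484 (T t4204 N))))))))) N))))))))))) (K a133 (M a74 (L l272 (F (L l267 (L l311 (T t4203 (L l75 (L l416 (L l484 (T t4204 (K a209 (M a226 (F (L l267 (L l311 (T t4203 (L l75 (L l416 (L l484 (T t4204 N)))))))))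 (K a226 (M a209 (F (L l267 (L l311 (T t4203 (L l75 (L l416 (L l484 (T t4204 N))))))))) N)))))))))))) (K a226 (M a209 (L l339 (F (L l267 (T t4203 (L l75 (L l416 (L l484 (T t4204 (K a133 (M a74 (F (L l267 (L l311 (T t4203 (L l75 (L l416 (L l484 (T t4204 N))))))))) (K a74 (M a133 (F (L l93 (T t4205 (L l75 (L l130 (L l416 (L l484 (T t4204 N))))))))) N))))))))))) (K a74 (M a133 (L l272 (F (L l93 (T t4205 (L l75 (L l130 (L l416 (L l484 (T t4204 (K a209 (M a226 (F (L l93 (T t4205 (L l75 (L l130 (L l416 (L l484 (T t4204 N))))))))) (K a226 (M a209 (F (L l93 (T t4205 (L l75 (L l130 (L l416 (L l484 (T t4204 N))))))))) N)))))))))))) N)))))))))))))) (K a21 (M a245 (F (L l47 (L l50 (L l267 (T t4203 (L l339 (T t4206 N)))))))) (K a149 (M a245 (F (L l93 (T t4205 (L l75 (L l220 (L l416 (L l491 (T t4204 N))))))))) (K a213 (Fr a170 a255 l476 (Fr a42 a21 l68 (Fr a106 a234 l390 (Fr a192 a149 l519 (V t581))))) (K a42 (M a245 (F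 (L l93 (T t4205 (L l75 (L l390 (L l416 (T t4204 N)))))))) (K a106 (M a165 (F (L l267 (T t4207 (L l130 (L l339 (L l390 (T t4208 N)))))))) (K a170 (M a4 (F (L l390 (L l464 (T t129 (L l88 (L l180 (L l265 (L l464 (L l483 (T t4209 (L l390 (T t4210 N))))))))))))) (K a255 (M a3 (L l265 (L l469 (F (T t1341 (L l261 (T t376 (L l261 (T t2226 (L l93 (L l296 (T t377 (K a247 (M a251 (L l469 (F (T t1341 (L l261 (T t376 (L l261 (L l278 (L l296 (T t357 (L l93 (L l278 (L l296 (T t377 (K a95 (M a175 (L l93 (F (L l261 (T t2226 (L l137 (L l271 (L l295 (T t3670 (K a83 (M a87 (F (T t2255 (L l137 (L l271 (L l295 (T t3670 N))))))) (K a87 (M a83 (F (L l261 (T t2226 (L l137 (L l271 (L l295 (L l349 (T t3670 N))))))))) N))))))))))) (K a175 (M a95 (F (T t85 (L l213 (L l278 (L l296 (T t2878 (L l261 (T t376 N))))))))) N)))))))))))))))) (K a251 (M a247 (L l463 (L l469 (F (L l93 (T t4195 (L l63 (L l434 (L l446 (T t358 (K a11 (M a171 (L l469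 (F (L l261 (T t3672 (L l271 (L l283 (L l295 (T t4177 (K a95 (Fr a175 a163 l179 (V t4178)) (K a175 (M a95 (F (L l261 (T t3672 (L l213 (L l296 (T t2878 N))))))) N))))))))))) (K a171 (M a11 (L l469 (F (L l93 (T t4195 (L l63 (L l434 (L l446 (T t358 (K a95 (M a175 (L l93 (F (T t630 (L l267 (T t4196 (K a83 (Fr a87 a7 l457 (V t2258)) (K a87 (M a83 (F (L l391 (T t1341 (L l73 (L l415 (L l439 (L l464 (L l482 (T t3599 (L l137 (L l143 (L l261 (L l349 (T t376 N))))))))))))))) N)))))))) (K a175 (M a95 (F (T t4195 (L l63 (L l434 (L l446 (T t665 N))))))) N))))))))))) (K a95 (M a175 (L l93 (L l463 (F (T t1341 (L l267 (T t4196 (K a83 (Fr a87 a7 l457 (V t2255)) (K a87 (M a83 (L l463 (F (T t1341 (L l471 (T t3671 (K a11 (Fr a171 a163 l179 (V t4178)) (K a171 (M a11 (F (L l391 (T t1341 (L l73 (L l415 (L l439 (L l464 (L l482 (T t3599 (L l137 (L l143 (L l261 (L l349 (T t376 N))))))))))))))) N)))))))) (K a11 (Fr a171 a163 l179 (V t4178))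 (K a171 (M a11 (L l93 (F (T t630 (L l267 (T t4196 (K a83 (Fr a87 a7 l457 (V t2258)) (K a87 (M a83 (F (L l391 (T t1341 (L l73 (L l415 (L l439 (L l464 (L l482 (T t3599 (L l137 (L l143 (L l261 (L l349 (T t376 N))))))))))))))) N)))))))) N))))))))))) (K a175 (M a95 (L l463 (F (T t4195 (L l63 (L l434 (L l446 (T t358 (K a11 (M a171 (F (L l261 (T t3672 (L l213 (L l296 (T t2878 N))))))) (K a171 (M a11 (F (T t4195 (L l63 (L l434 (L l446 (T t665 N))))))) N)))))))))) N)))))))))))))) (K a95 (M a175 (L l93 (L l265 (F (T t85 (L l137 (L l271 (L l295 (T t3670 (L l261 (L l296 (T t357 (K a83 (M a87 (L l265 (F (T t2255 (L l137 (L l271 (L l295 (T t3670 (K a247 (M a251 (F (T t2255 (L l137 (L l271 (L l295 (T t3670 N))))))) (K a251 (Fr a247 a7 l457 (V t2255)) N)))))))))) (K a87 (M a83 (L l265 (F (L l296 (T t3611 (L l137 (L l271 (L l295 (L l349 (T t3670 (K a247 (M a251 (F (L l261 (T t2226 (L l137 (L l271 (L l295 (L l349 (T t3670 N)))))))))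 (K a251 (M a247 (L l463 (F (T t1341 (L l471 (T t3671 (K a11 (Fr a171 a163 l179 (V t4178)) (K a171 (M a11 (F (L l391 (T t1341 (L l73 (L l415 (L l439 (L l464 (L l482 (T t3599 (L l137 (L l143 (L l261 (L l349 (T t376 N))))))))))))))) N)))))))) N)))))))))))) (K a247 (M a251 (L l93 (F (L l261 (T t2226 (L l137 (L l271 (L l295 (T t3670 (K a83 (M a87 (F (T t2255 (L l137 (L l271 (L l295 (T t3670 N))))))) (K a87 (M a83 (F (L l261 (T t2226 (L l137 (L l271 (L l295 (L l349 (T t3670 N))))))))) N))))))))))) (K a251 (M a247 (L l93 (L l463 (F (T t1341 (L l267 (T t4196 (K a83 (Fr a87 a7 l457 (V t2255)) (K a87 (M a83 (L l463 (F (T t1341 (L l471 (T t3671 (K a11 (Fr a171 a163 l179 (V t4178)) (K a171 (M a11 (F (L l391 (T t1341 (L l73 (L l415 (L l439 (L l464 (L l482 (T t3599 (L l137 (L l143 (L l261 (L l349 (T t376 N))))))))))))))) N)))))))) (K a11 (Fr a171 a163 l179 (V t4178)) (K a171 (M a11 (L l93 (F (T t630 (L l267 (T t4196 (K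 a83 (Fr a87 a7 l457 (V t2258)) (K a87 (M a83 (F (L l391 (T t1341 (L l73 (L l415 (L l439 (L l464 (L l482 (T t3599 (L l137 (L l143 (L l261 (L l349 (T t376 N))))))))))))))) N)))))))) N))))))))))) N)))))))))))))))) (K a175 (M a95 (L l265 (F (T t85 (L l213 (L l296 (T t2878 (L l261 (T t376 (K a247 (M a251 (F (T t85 (L l213 (L l278 (L l296 (T t2878 (L l261 (T t376 N))))))))) (K a251 (M a247 (L l463 (F (T t4195 (L l63 (L l434 (L l446 (T t358 (K a11 (M a171 (F (L l261 (T t3672 (L l213 (L l296 (T t2878 N))))))) (K a171 (M a11 (F (T t4195 (L l63 (L l434 (L l446 (T t665 N))))))) N)))))))))) N))))))))))) N)))))))))))))))) N))))))))))))))))))))) (K a167 (M a243 (F (T t89 (L l3 (T t4211 (L l201 (T t4184 N))))))) N)))))))))))))))))))))⟩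
def e0_63__91_15 : Ent 4 := ⟨[a0, a63], [a91, a16], (M a192 (F (T t21 (L l18 (T t35 (T t202 (T t37 (K a64 (M a12 (F (T t153 (L l481 (T t450 (L l80 (L l144 (T t160 N)))))))) (K a128 (M a12 (F (T t153 (L l220 (L l481 (T t450 (T t160 N))))))) (K a21 (M a31 (F (T t4212 (L l47 (T t4213 (L l47 (L l340 (T t4214 (L l88 (L l340 (T t4215 (L l47 (L l340 (T t4216 N)))))))))))))) (K a85 (M a4 (L l368 (F (T t519 (T t1407 (L l126 (L l144 (T t4217 (K a154 (M a223 (F (T t519 (T t1407 (L l126 (L l144 (L l498 (L l510 (T t4217 N))))))))) (K a223 (M a154 (F (T t1407 (L l347 (L l361 (T t4218 N)))))) N)))))))))) (K a149 (M a12 (F (T t836 (L l18 (L l347 (L l371 (T t122 (L l18 (L l202 (L l220 (L l347 (L l371 (T t227 (L l10 (L l495 (T t228 N)))))))))))))))) (K a42 (M a240 (F (L l340 (T t4219 (L l481 (T t4220 (L l93 (T t4221 N)))))))) (K a106 (M a12 (F (T t156 (L l18 (T t122 (L l18 (L l501 (T t227 (L l10 (L l132 (L l144 (L l390 (L l408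 (T t228 N)))))))))))))) (K a170 (M a240 (F (L l340 (T t4219 (L l390 (L l481 (T t4222 (L l93 (L l180 (L l220 (T t4221 N))))))))))) (K a255 (M a240 (F (T t4223 (L l340 (L l440 (T t4219 (L l93 (L l469 (T t4221 N))))))))) N))))))))))))))))⟩
def e0_63__91_16 : Ent 4 := ⟨[a0, a63], [a91, a17], (M a85 (F (T t88 (L l15 (T t52 (T t89 (T t90 (K a64 (M a240 (F (T t386 (L l93 (T t387 N))))) (K a192 (M a16 (F (T t96 (L l339 (L l373 (L l481 (T t97 (L l296 (T t98 N))))))))) (K a21 (M a240 (L l15 (F (T t1552 (T t933 (L l93 (T t1385 (K a25 (M a29 (F (T t933 (L l88 (T t3641 N))))) (K a29 (M a25 (F (T t1552 (T t933 (L l93 (L l371 (T t2804 N))))))) N))))))))) (K a149 (M a16 (F (T t173 (L l373 (L l375 (L l481 (T t97 (L l93 (L l170 (T t102 N)))))))))) (K a213 (Fr a170 a255 l476 (Fr a42 a21 l68 (Fr a106 a234 l390 (Fr a192 a149 l519 (V t581))))) (K a42 (M a48 (F (L l28 (T t99 (L l390 (T t50 (L l28 (T t100 N)))))))) (K a106 (M a48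 (F (T t99 (L l15 (L l481 (T t1 (L l390 (T t50 N)))))))) (K a170 (M a16 (F (L l404 (T t113 (L l390 (T t98 (L l373 (L l390 (L l404 (L l481 (T t97 (L l404 (T t174 N))))))))))))) (K a255 (M a16 (F (T t112 (L l289 (T t113 (L l289 (L l296 (T t98 N)))))))) N))))))))))))))))⟩
def e0_63__91_17 : Ent 4 := ⟨[a0, a63], [a91, a18], (M a149 (F (T t5 (T t175 (T t176 (T t177 (K a192 (M a53 (F (T t178 (L l10 (L l236 (T t179 (L l236 (L l296 (T t180 N))))))))) (K a21 (M a48 (F (T t4 (T t13 (L l10 (L l18 (T t14 N))))))) (K a85 (M a16 (F (L l455 (T t112 (L l144 (T t190 (L l16 (L l88 (L l94 (T t278 N)))))))))) (K a213 (Fr a106 a192 l519 (Fr a42 a21 l68 (Fr a170 a234 l390 (Fr a255 a85 l476 (V t582))))) (K a42 (M a48 (F (T t187 (L l390 (T t13 (L l10 (L l54 (T t14 N)))))))) (K a106 (M a48 (F (L l481 (T t1 (L l10 (L l498 (T t14 (L l390 (L l498 (T t6 (L l390 (T t26 N)))))))))))) (K a170 (M a48 (F (T t4 (L l462 (L l481 (T t1 (L l390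 (T t13 N)))))))) (K a191 (M a252 (F (T t940 (T t941 N)))) (K a255 (M a16 (F (T t112 (L l266 (T t190 (L l289 (L l296 (T t191 N)))))))) N)))))))))))))))⟩
def e0_63__91_18 : Ent 4 := ⟨[a0, a63], [a91, a19], (M a85 (F (T t88 (T t52 (T t89 (T t90 (K a64 (M a48 (F (T t50 (L l367 (T t568 N))))) (K a192 (M a16 (F (T t112 (L l367 (T t96 (L l296 (L l367 (T t98 N)))))))) (K a21 (M a48 (F (T t873 (L l47 (L l367 (T t100 (T t50 N))))))) (K a149 (M a16 (F (T t112 (L l367 (T t173 (L l93 (L l170 (T t102 N)))))))) (K a213 (Fr a170 a255 l476 (Fr a42 a21 l68 (Fr a106 a234 l390 (Fr a192 a149 l519 (V t581))))) (K a42 (M a48 (F (L l10 (T t364 (L l390 (T t50 (L l28 (L l367 (T t100 N))))))))) (K a106 (M a48 (F (L l481 (T t1 (L l104 (L l367 (T t509 (L l390 (T t50 N))))))))) (K a170 (M a16 (F (L l390 (L l404 (T t112 (L l367 (L l390 (T t98 (L l367 (L l404 (T t113 (L l367 (L l404 (T t174 N)))))))))))))) (K a255 (M a16 (F (T t112 (L l289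 (L l367 (T t113 (L l289 (L l296 (L l367 (T t98 N)))))))))) N)))))))))))))))⟩
def e0_63__91_19 : Ent 4 := ⟨[a0, a63], [a91, a20], (M a85 (F (T t88 (L l11 (T t52 (T t89 (T t90 (K a64 (M a240 (F (T t386 (L l93 (T t387 N))))) (K a192 (M a16 (F (T t96 (L l339 (L l373 (L l481 (T t97 (L l296 (T t98 N))))))))) (K a21 (M a240 (L l11 (F (T t1552 (T t933 (L l93 (T t1385 (K a22 (M a23 (F (T t386 (L l481 (T t4224 N))))) (K a23 (M a22 (F (T t1552 (T t933 (L l93 (L l351 (T t2804 N))))))) N))))))))) (K a149 (M a16 (F (T t173 (L l373 (L l375 (L l481 (T t97 (L l93 (L l170 (T t102 N)))))))))) (K a213 (Fr a170 a255 l476 (Fr a42 a21 l68 (Fr a106 a234 l390 (Fr a192 a149 l519 (V t581))))) (K a42 (M a48 (F (L l28 (T t99 (L l390 (T t50 (L l28 (T t100 N)))))))) (K a106 (M a48 (F (T t99 (L l11 (L l481 (T t1 (L l390 (T t50 N)))))))) (K a170 (M a16 (F (L l404 (T t113 (L l390 (T t98 (L l373 (L l390 (L l404 (L l481 (T t97 (L l404 (T t174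 N))))))))))))) (K a255 (M a16 (F (T t112 (L l289 (T t113 (L l289 (L l296 (T t98 N)))))))) N))))))))))))))))⟩
def e0_63__91_20 : Ent 4 := ⟨[a0, a63], [a91, a22], (M a192 (F (T t21 (L l11 (T t35 (T t202 (L l66 (T t37 (K a64 (M a48 (F (T t20 (L l11 (L l481 (T t1 (L l66 (L l116 (L l144 (T t31 N)))))))))) (K a128 (M a48 (F (T t206 (L l11 (L l481 (T t1 (L l66 (T t31 N)))))))) (K a21 (M a20 (F (T t948 (L l66 (L l347 (T t949 (L l65 (L l347 (T t950 N))))))))) (K a85 (M a16 (F (T t210 (L l66 (L l373 (L l481 (T t97 (L l16 (L l66 (L l88 (L l94 (L l144 (T t211 N))))))))))))) (K a149 (M a48 (F (T t837 (L l11 (L l347 (L l481 (L l491 (T t1 (L l11 (L l170 (L l220 (L l347 (L l481 (L l491 (T t213 (L l66 (L l373 (L l375 (L l481 (T t214 N)))))))))))))))))))) (K a42 (M a2 (F (T t1363 (L l11 (L l390 (T t1804 (L l390 (T t1365 N)))))))) (K a106 (M a48 (F (T t27 (L l11 (L l481 (T t1 (L l11 (L l411 (L l481 (T t213 (L l66 (L l104 (L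 l144 (L l373 (L l390 (L l481 (L l498 (T t214 N)))))))))))))))))) (K a170 (M a32 (F (T t218 (L l11 (L l481 (T t219 (L l11 (L l51 (L l180 (L l220 (T t220 N))))))))))) (K a255 (M a16 (F (T t2680 (L l66 (L l373 (L l469 (L l481 (T t97 (L l16 (L l66 (L l88 (T t211 N)))))))))))) N)))))))))))))))))⟩
def e0_63__91_21 : Ent 4 := ⟨[a0, a63], [a91, a23], (M a149 (F (T t5 (L l11 (T t175 (T t176 (T t177 (K a192 (M a53 (F (T t178 (L l236 (T t179 (L l236 (L l296 (T t180 N)))))))) (K a21 (M a48 (L l11 (F (T t4 (T t13 (L l18 (T t14 (K a20 (M a22 (F (T t4 (T t13 (L l14 (L l18 (T t14 N))))))) (K a22 (M a20 (F (T t181 (L l19 (L l50 (T t183 N)))))) N))))))))) (K a85 (M a16 (F (L l455 (T t112 (L l144 (T t190 (L l88 (L l94 (T t278 N))))))))) (K a213 (Fr a106 a192 l519 (Fr a42 a21 l68 (Fr a170 a234 l390 (Fr a255 a85 l476 (V t582))))) (K a42 (M a48 (F (T t187 (L l390 (T t13 (L l54 (T t14 N))))))) (K a106 (M a48 (F (L l11 (T t48 (L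 l498 (T t14 (L l390 (L l498 (T t6 (L l390 (T t26 N))))))))))) (K a170 (M a48 (F (T t4 (L l11 (L l462 (L l481 (T t1 (L l390 (T t13 N))))))))) (K a191 (M a252 (F (T t940 (T t941 N)))) (K a255 (M a16 (F (T t112 (L l266 (T t190 (L l289 (L l296 (T t191 N)))))))) N))))))))))))))))⟩
def e0_63__91_22 : Ent 4 := ⟨[a0, a63], [a91, a24], (M a85 (F (T t88 (T t52 (T t89 (T t90 (K a64 (M a60 (F (T t114 (L l52 (T t115 N))))) (K a192 (M a16 (F (T t96 (L l339 (L l373 (L l481 (T t97 (L l296 (T t98 N))))))))) (K a21 (M a48 (F (T t99 (T t50 (L l47 (T t100 N)))))) (K a149 (M a16 (F (T t173 (L l373 (L l375 (L l481 (T t97 (L l12 (L l93 (L l170 (L l356 (T t102 N)))))))))))) (K a213 (Fr a170 a255 l476 (Fr a42 a21 l68 (Fr a106 a234 l390 (Fr a192 a149 l519 (V t581))))) (K a42 (M a48 (F (L l28 (T t99 (L l390 (T t50 (L l28 (T t100 N)))))))) (K a106 (M a48 (F (T t99 (L l481 (T t1 (L l390 (T t50 N))))))) (K a170 (M a16 (F (L l404 (T t113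 (L l390 (T t98 (L l373 (L l390 (L l404 (L l481 (T t97 (L l404 (T t174 N))))))))))))) (K a255 (M a16 (F (T t112 (L l289 (T t113 (L l289 (L l296 (T t98 N)))))))) N)))))))))))))))⟩
def e0_63__91_23 : Ent 4 := ⟨[a0, a63], [a91, a25], (M a192 (F (T t21 (L l15 (T t35 (T t202 (L l56 (T t37 (K a64 (M a48 (F (T t20 (L l15 (L l481 (T t1 (L l56 (L l116 (L l144 (T t31 N)))))))))) (K a128 (M a48 (F (T t206 (L l15 (L l481 (T t1 (L l56 (T t31 N)))))))) (K a21 (M a17 (F (T t4225 (L l56 (L l347 (T t208 (L l56 (T t209 N)))))))) (K a85 (M a16 (F (T t210 (L l56 (L l373 (L l481 (T t97 (L l12 (L l56 (L l88 (L l94 (L l144 (T t211 N))))))))))))) (K a149 (M a48 (F (T t837 (L l15 (L l347 (L l481 (L l491 (T t1 (L l15 (L l170 (L l220 (L l347 (L l481 (L l491 (T t213 (L l56 (L l373 (L l375 (L l481 (T t214 N)))))))))))))))))))) (K a42 (M a8 (F (T t215 (L l15 (L l390 (L l463 (T t1807 (L l15 (L l481 (T t217 N)))))))))) (K a106 (M a48 (F (T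 t27 (L l15 (L l481 (T t1 (L l15 (L l411 (L l481 (T t213 (L l56 (L l104 (L l144 (L l373 (L l390 (L l481 (L l498 (T t214 N)))))))))))))))))) (K a170 (M a32 (F (T t218 (L l15 (L l481 (T t219 (L l15 (L l71 (L l180 (L l220 (T t220 N))))))))))) (K a255 (M a16 (F (T t2680 (L l56 (L l373 (L l469 (L l481 (T t97 (L l12 (L l56 (L l88 (T t211 N)))))))))))) N)))))))))))))))))⟩
def e0_63__91_24 : Ent 4 := ⟨[a0, a63], [a91, a26], (M a192 (F (T t21 (L l18 (T t35 (T t202 (L l54 (T t37 (K a64 (M a12 (F (T t161 (L l18 (T t122 (L l54 (L l80 (L l144 (T t160 N))))))))) (K a128 (M a12 (F (T t155 (L l18 (T t122 (L l54 (T t160 N))))))) (K a21 (M a16 (F (T t210 (L l54 (L l347 (T t222 (L l347 (T t223 N)))))))) (K a85 (M a48 (F (T t28 (L l347 (T t20 (L l18 (L l54 (L l144 (L l368 (T t224 N)))))))))) (K a149 (M a12 (F (T t836 (L l18 (L l347 (L l371 (T t122 (L l18 (L l202 (L l220 (L l347 (L l371 (T t227 (L l54 (L l495 (T t228 N))))))))))))))))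 (K a42 (M a10 (F (T t229 (L l18 (L l373 (L l390 (T t230 (L l390 (T t231 N))))))))) (K a106 (M a12 (F (T t156 (L l18 (T t122 (L l18 (L l501 (T t227 (L l54 (L l132 (L l144 (L l390 (L l408 (T t228 N)))))))))))))) (K a170 (M a48 (F (T t837 (L l54 (L l390 (T t206 (L l220 (L l404 (T t29 N))))))))) (K a255 (M a224 (F (T t233 (T t232 (L l18 (L l75 (T t234 N))))))) N)))))))))))))))))⟩
def e0_63__91_25 : Ent 4 := ⟨[a0, a63], [a91, a27], (M a85 (L l355 (F (T t88 (T t52 (T t89 (T t90 (K a64 (M a240 (L l355 (F (T t386 (L l93 (T t387 (K a155 (M a219 (F (T t386 (L l93 (T t387 N))))) (K a219 (M a155 (F (T t386 (L l93 (T t387 N))))) N)))))))) (K a192 (M a16 (L l355 (F (T t96 (L l17 (L l73 (L l339 (L l373 (L l481 (T t97 (L l296 (T t98 (K a155 (M a219 (F (T t112 (L l164 (T t4226 N))))) (K a219 (M a155 (F (T t112 (L l93 (L l149 (L l356 (T t4227 N))))))) N)))))))))))))) (K a21 (M a207 (L l355 (F (T t2115 (L l73 (L l481 (T t2057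 (T t2210 (K a155 (M a219 (F (T t4228 (L l149 (L l169 (L l367 (T t4229 N))))))) (K a219 (M a155 (F (T t4230 (L l131 (L l283 (T t4231 N)))))) N)))))))))) (K a149 (M a16 (L l355 (F (T t173 (L l17 (L l73 (L l373 (L l375 (L l481 (T t97 (L l12 (L l93 (L l170 (T t102 (K a155 (M a219 (F (T t112 (L l164 (L l170 (T t4226 N)))))) (K a219 (M a155 (F (T t112 (L l93 (L l149 (L l170 (L l356 (T t4227 N)))))))) N)))))))))))))))) (K a213 (Fr a170 a255 l476 (Fr a42 a21 l68 (Fr a106 a234 l390 (Fr a192 a149 l519 (V t581))))) (K a42 (M a48 (L l355 (F (T t364 (L l390 (T t50 (L l28 (T t100 (K a155 (M a219 (F (L l390 (T t50 (L l12 (L l28 (L l367 (T t4232 N)))))))) (K a219 (M a155 (F (L l390 (T t50 (L l26 (L l28 (L l245 (T t4233 N)))))))) N)))))))))) (K a106 (M a48 (L l355 (F (T t99 (L l73 (L l481 (T t1 (L l390 (T t50 (K a155 (M a219 (F (T t364 (L l73 (L l481 (T t1 (L l390 (T t50 N)))))))) (K a219 (M a155 (F (T t364 (L l73 (L l481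 (T t1 (L l390 (T t50 N)))))))) N))))))))))) (K a170 (M a154 (L l355 (F (L l404 (T t1705 (L l390 (T t4234 (L l390 (T t2294 (L l390 (L l404 (T t1711 (L l404 (T t2296 (K a155 (M a219 (F (L l12 (T t4235 (L l390 (T t4234 N)))))) (K a219 (M a155 (F (T t4236 (L l390 (T t4234 N))))) N)))))))))))))))) (K a255 (M a16 (L l355 (F (T t112 (L l289 (T t113 (L l289 (L l296 (T t98 (K a155 (M a219 (F (T t112 (L l289 (L l367 (T t4237 (L l169 (L l289 (L l296 (L l367 (T t98 N))))))))))) (K a219 (M a155 (F (T t112 (L l149 (L l245 (L l289 (L l290 (T t4238 (L l245 (L l289 (L l296 (T t98 N)))))))))))) N))))))))))) (K a155 (M a219 (F (T t88 (T t52 (T t89 (T t90 (K a64 (M a16 (F (T t112 (L l164 (T t4226 N))))) (K a192 (M a16 (F (T t112 (L l164 (T t4226 N))))) (K a21 (M a93 (F (T t4239 (L l12 (L l18 (T t4240 N)))))) (K a149 (M a16 (F (T t112 (L l164 (L l170 (T t4226 N)))))) (K a213 (Fr a170 a255 l476 (Fr a42 a21 l68 (Fr a106 a234 l390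 (Fr a192 a149 l519 (V t581))))) (K a42 (M a48 (F (L l390 (T t50 (L l12 (L l28 (L l367 (T t4232 N)))))))) (K a106 (M a89 (F (T t4241 (L l390 (L l408 (T t4242 N)))))) (K a170 (M a89 (F (L l12 (T t4243 (L l390 (L l481 (T t4173 N))))))) (K a255 (M a89 (F (L l12 (T t4243 (L l265 (L l296 (L l481 (T t4173 N)))))))) N))))))))))))))) (K a219 (M a155 (F (T t88 (T t52 (T t89 (T t90 (K a64 (M a16 (F (T t112 (L l93 (L l149 (L l356 (T t4227 N))))))) (K a192 (M a16 (F (T t112 (L l93 (L l149 (L l356 (T t4227 N))))))) (K a21 (M a154 (F (T t4244 (L l47 (L l245 (T t1705 N)))))) (K a149 (M a16 (F (T t112 (L l93 (L l149 (L l170 (L l356 (T t4227 N)))))))) (K a213 (Fr a170 a255 l476 (Fr a42 a21 l68 (Fr a106 a234 l390 (Fr a192 a149 l519 (V t581))))) (K a42 (M a48 (F (L l390 (T t50 (L l26 (L l28 (L l245 (T t4233 N)))))))) (K a106 (M a153 (F (T t4245 (L l102 (L l390 (T t4246 N)))))) (K a170 (M a17 (F (L l390 (T t2205 (L l283 (L l301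 (L l402 (T t4247 N)))))))) (K a255 (M a153 (F (T t4245 (L l296 (T t4248 N))))) N))))))))))))))) N))))))))))))))))))⟩
def e0_63__91_26 : Ent 4 := ⟨[a0, a63], [a91, a28], (M a85 (F (T t88 (T t52 (T t89 (T t90 (K a64 (M a48 (F (T t50 (L l362 (T t568 N))))) (K a192 (M a16 (F (T t112 (L l362 (T t96 (L l296 (L l362 (T t98 N)))))))) (K a21 (M a48 (F (T t873 (L l47 (L l362 (T t100 (T t50 N))))))) (K a149 (M a16 (F (T t112 (L l362 (T t173 (L l93 (L l170 (T t102 N)))))))) (K a213 (Fr a170 a255 l476 (Fr a42 a21 l68 (Fr a106 a234 l390 (Fr a192 a149 l519 (V t581))))) (K a42 (M a48 (F (L l14 (T t364 (L l390 (T t50 (L l28 (L l362 (T t100 N))))))))) (K a106 (M a48 (F (L l481 (T t1 (L l104 (L l362 (T t509 (L l390 (T t50 N))))))))) (K a170 (M a16 (F (L l390 (L l404 (T t112 (L l362 (L l390 (T t98 (L l362 (L l404 (T t113 (L l362 (L l404 (T t174 N)))))))))))))) (K a255 (M a16 (F (T t112 (L l289 (L l362 (T t113 (L l289 (L l296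 (L l362 (T t98 N)))))))))) N)))))))))))))))⟩
def e0_63__91_27 : Ent 4 := ⟨[a0, a63], [a91, a29], (M a149 (F (T t5 (L l15 (T t175 (T t176 (T t177 (K a192 (M a53 (F (T t178 (L l236 (T t179 (L l236 (L l296 (T t180 N)))))))) (K a21 (M a48 (L l15 (F (T t4 (T t13 (L l18 (T t14 (K a17 (M a25 (F (T t4 (T t13 (L l10 (L l18 (T t14 N))))))) (K a25 (M a17 (F (T t181 (L l19 (L l65 (T t642 N)))))) N))))))))) (K a85 (M a16 (F (L l455 (T t112 (L l144 (T t190 (L l88 (L l94 (T t278 N))))))))) (K a213 (Fr a106 a192 l519 (Fr a42 a21 l68 (Fr a170 a234 l390 (Fr a255 a85 l476 (V t582))))) (K a42 (M a48 (F (T t187 (L l390 (T t13 (L l54 (T t14 N))))))) (K a106 (M a48 (F (L l15 (T t48 (L l498 (T t14 (L l390 (L l498 (T t6 (L l390 (T t26 N))))))))))) (K a170 (M a48 (F (T t4 (L l15 (L l462 (L l481 (T t1 (L l390 (T t13 N))))))))) (K a191 (M a16 (F (T t112 (T t190 (L l213 (T t191 N)))))) (K a255 (M a16 (F (T t112 (L l266 (T t190 (L l289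 (L l296 (T t191 N)))))))) N))))))))))))))))⟩
def e0_63__91_28 : Ent 4 := ⟨[a0, a63], [a91, a30], (M a85 (F (T t88 (T t52 (T t89 (T t90 (K a64 (M a240 (F (T t386 (L l93 (T t387 N))))) (K a192 (M a16 (F (T t96 (L l13 (L l63 (L l339 (L l373 (L l481 (T t97 (L l296 (T t98 N))))))))))) (K a21 (M a48 (F (T t99 (T t50 (L l47 (T t100 N)))))) (K a149 (M a16 (F (T t173 (L l13 (L l63 (L l373 (L l375 (L l481 (T t97 (L l16 (L l93 (L l170 (T t102 N))))))))))))) (K a213 (Fr a170 a255 l476 (Fr a42 a21 l68 (Fr a106 a234 l390 (Fr a192 a149 l519 (V t581))))) (K a42 (M a48 (F (T t364 (L l390 (T t50 (L l28 (T t100 N))))))) (K a106 (M a48 (F (T t99 (L l63 (L l481 (T t1 (L l390 (T t50 N)))))))) (K a170 (M a16 (F (L l404 (T t113 (L l390 (T t98 (L l13 (L l63 (L l373 (L l390 (L l404 (L l481 (T t97 (L l404 (T t174 N))))))))))))))) (K a255 (M a16 (F (T t112 (L l289 (T t113 (L l289 (L l296 (T t98 N)))))))) N)))))))))))))))⟩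
def e0_63__91_29 : Ent 4 := ⟨[a0, a63], [a91, a31], (M a149 (L l373 (F (T t5 (L l18 (T t175 (T t176 (T t177 (K a192 (M a29 (L l373 (F (T t956 (L l272 (L l463 (T t641 (L l272 (L l296 (L l363 (T t957 (K a211 (M a151 (F (T t956 (L l131 (L l514 (T t4249 N)))))) (K a151 (M a211 (F (T t956 (L l272 (L l463 (T t641 (L l272 (L l296 (L l363 (T t957 N)))))))))) N))))))))))))) (K a21 (M a151 (L l18 (F (L l131 (T t4250 (L l463 (T t4251 (L l131 (T t4252 (L l463 (T t4253 (K a16 (M a26 (F (L l131 (T t4250 (L l463 (T t4251 (L l131 (L l368 (T t4249 (L l463 (T t4253 N))))))))))) (K a26 (M a16 (F (L l131 (T t4254 (L l54 (L l354 (L l361 (T t192 (L l131 (L l481 (T t4255 N))))))))))) N))))))))))))) (K a85 (M a48 (L l373 (F (T t4 (L l18 (L l481 (T t1 (L l144 (T t13 (K a211 (M a151 (F (T t4 (L l131 (L l271 (L l344 (L l481 (T t4256 N)))))))) (K a151 (M a211 (F (T t4 (L l18 (L l481 (T t1 (L l144 (T t13 N)))))))) N))))))))))) (K a213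 (Fr a106 a192 l519 (Fr a42 a21 l68 (Fr a170 a234 l390 (Fr a255 a85 l476 (V t582))))) (K a42 (M a151 (F (T t4257 (L l131 (T t4252 (L l131 (L l390 (T t4258 (L l390 (T t4259 N)))))))))) (K a106 (M a150 (L l373 (F (L l390 (T t4260 (L l142 (L l390 (T t4261 (L l98 (L l131 (T t1000 (L l98 (L l131 (T t1002 (L l390 (T t1793 (K a211 (Fr a151 a148 l163 (V t4262)) (K a151 (M a211 (F (L l13 (L l144 (L l408 (L l463 (T t4263 (L l349 (L l390 (T t1793 (L l13 (L l390 (L l408 (T t4264 (L l13 (L l408 (L l481 (T t4265 N)))))))))))))))))) N)))))))))))))))))) (K a170 (M a150 (L l373 (F (T t4266 (L l390 (L l474 (T t4261 (L l131 (T t1002 (L l392 (T t4267 (K a211 (Fr a151 a148 l163 (V t4268)) (K a151 (M a211 (F (L l13 (T t4269 (L l349 (L l390 (L l392 (T t1766 (L l13 (L l464 (L l481 (T t4265 N)))))))))))) N))))))))))))) (K a191 (M a240 (L l373 (F (T t1091 (T t963 (K a211 (M a151 (F (T t1093 (L l131 (T t4254 N))))) (K a151 (M a211 (L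 l219 (F (T t1091 (T t963 (K a131 (M a171 (F (T t962 (T t963 N)))) (K a171 (M a131 (L l463 (F (T t1091 (T t963 (K a11 (M a251 (F (T t1091 (T t963 N)))) (K a251 (M a11 (F (T t1091 (T t963 N)))) N))))))) N))))))) N))))))) (K a255 (M a193 (L l373 (F (L l131 (T t1760 (T t1761 (L l475 (T t1762 (K a211 (M a151 (F (T t4270 (L l475 (T t4271 N))))) (K a151 (M a211 (F (T t1761 (T t4272 N)))) N)))))))))) (K a211 (M a151 (F (T t25 (L l131 (T t4273 (L l131 (T t4274 N))))))) (K a151 (M a211 (F (T t5 (L l18 (T t175 (L l219 (T t176 (L l219 (T t177 (K a192 (M a243 (F (T t4275 (L l131 (L l296 (L l334 (T t4276 N))))))) (K a21 (M a243 (L l18 (F (T t4275 (L l201 (T t2990 (K a16 (M a26 (F (L l131 (T t4277 (T t2109 (L l131 (L l368 (T t4278 N)))))))) (K a26 (M a16 (F (T t4279 (L l131 (T t4280 N))))) N)))))))) (K a85 (M a243 (F (T t4275 (L l201 (L l458 (T t2990 N)))))) (K a213 (Fr a106 a192 l519 (Fr a42 a21 l68 (Fr a170 a234 l390 (Fr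 a255 a85 l476 (V t582))))) (K a42 (M a243 (F (T t4275 (L l201 (T t2990 N))))) (K a106 (M a243 (F (T t4275 (L l131 (L l132 (L l390 (T t4276 N))))))) (K a170 (M a48 (F (T t4 (L l18 (L l462 (L l481 (T t1 (L l390 (T t13 N))))))))) (K a191 (M a240 (L l219 (F (T t1091 (T t963 (K a131 (M a171 (F (T t962 (T t963 N)))) (K a171 (M a131 (L l463 (F (T t1091 (T t963 (K a11 (M a251 (F (T t1091 (T t963 N)))) (K a251 (M a11 (F (T t1091 (T t963 N)))) N))))))) N))))))) (K a255 (M a193 (F (T t1761 (T t4272 N)))) N)))))))))))))))))) N)))))))))))))))))))⟩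
def e0_63__91_30 : Ent 4 := ⟨[a0, a63], [a91, a32], (M a85 (F (T t52 (L l28 (T t88 (L l28 (T t89 (L l404 (T t90 (K a64 (M a240 (F (L l116 (T t1552 (L l404 (T t933 (L l28 (L l93 (L l376 (T t1550 N)))))))))) (K a192 (M a4 (F (L l88 (T t1399 (L l28 (L l489 (T t519 (L l28 (L l296 (T t131 N)))))))))) (K a21 (M a240 (F (T t1552 (L l404 (T t933 (L l93 (L l376 (T t1385 N)))))))) (K a149 (M a4 (F (T t4281 (L l28 (L l495 (T t519 (L l28 (L l131 (L l202 (T t1372 N)))))))))) (K a213 (Fr a170 a255 l476 (Fr a42 a21 l68 (Fr a106 a234 l390 (Fr a192 a149 l519 (V t581))))) (K a42 (M a47 (F (L l373 (T t1808 (L l93 (L l373 (L l390 (L l404 (T t1404 (L l376 (L l390 (L l404 (T t1809 (L l54 (L l373 (L l376 (T t1403 N))))))))))))))))) (K a106 (M a12 (F (T t1368 (L l20 (T t122 (L l390 (L l404 (T t124 N)))))))) (K a170 (M a101 (F (L l206 (T t1810 (L l28 (L l390 (T t1811 (L l206 (L l376 (T t1812 (L l28 (L l206 (L l390 (T t1813 N))))))))))))))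 (K a255 (M a4 (F (L l28 (T t129 (L l265 (T t130 (L l28 (L l265 (L l296 (T t131 N)))))))))) N))))))))))))))))))⟩
def e0_63__91_31 : Ent 4 := ⟨[a0, a63], [a91, a33], (M a85 (F (T t88 (T t52 (T t89 (T t90 (K a64 (M a252 (F (T t91 (L l93 (T t92 N))))) (K a192 (M a16 (F (L l20 (T t112 (L l296 (T t666 (L l296 (T t98 N)))))))) (K a21 (M a48 (F (T t873 (L l20 (L l47 (T t100 (T t50 N))))))) (K a149 (M a16 (F (T t666 (L l20 (L l373 (L l375 (L l481 (T t97 (L l93 (L l170 (T t102 N))))))))))) (K a213 (Fr a170 a255 l476 (Fr a42 a21 l68 (Fr a106 a234 l390 (Fr a192 a149 l519 (V t581))))) (K a42 (M a48 (F (T t364 (L l390 (T t50 (L l20 (L l28 (T t100 N)))))))) (K a106 (M a48 (F (T t364 (L l481 (T t1 (L l390 (T t50 N))))))) (K a170 (M a16 (F (L l20 (L l404 (T t113 (L l390 (T t98 (L l20 (L l373 (L l390 (L l404 (L l481 (T t97 (L l20 (L l404 (T t174 N)))))))))))))))) (K a255 (M a16 (F (L l20 (T t112 (L l289 (L l296 (T t98 (L l20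 (L l289 (T t113 N)))))))))) N)))))))))))))))⟩
def e0_63__91_32 : Ent 4 := ⟨[a0, a63], [a91, a34], (M a85 (F (T t52 (L l26 (T t88 (L l26 (T t89 (L l402 (T t90 (K a64 (M a16 (F (L l20 (T t258 (L l26 (L l116 (T t98 (L l20 (L l26 (L l373 (L l481 (T t97 N)))))))))))) (K a192 (M a16 (F (L l20 (T t96 (L l26 (T t966 (L l20 (L l26 (L l339 (L l373 (L l481 (T t97 N)))))))))))) (K a21 (M a48 (F (L l20 (T t99 (L l402 (T t50 (L l20 (L l47 (T t100 N))))))))) (K a149 (M a16 (F (T t666 (L l20 (L l26 (L l373 (L l375 (L l481 (T t97 (L l26 (L l93 (L l170 (T t102 N))))))))))))) (K a213 (Fr a170 a255 l476 (Fr a42 a21 l68 (Fr a106 a234 l390 (Fr a192 a149 l519 (V t581))))) (K a42 (M a46 (F (L l463 (T t1814 (L l390 (L l402 (T t1389 (L l56 (L l378 (T t1390 (L l378 (L l390 (L l402 (L l463 (T t1391 N))))))))))))))) (K a106 (M a48 (F (T t364 (L l481 (T t1 (L l390 (L l402 (T t50 N)))))))) (K a170 (M a102 (F (L l208 (T t1392 (L l26 (L l390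 (T t1393 (L l208 (L l378 (T t1394 (L l26 (L l208 (L l390 (T t1395 N)))))))))))))) (K a255 (M a16 (F (L l20 (L l26 (T t112 (L l20 (L l289 (T t113 (L l26 (L l289 (L l296 (T t98 N)))))))))))) N))))))))))))))))))⟩
def e0_63__91_33 : Ent 4 := ⟨[a0, a63], [a91, a35], (M a85 (F (T t88 (T t52 (T t89 (T t90 (K a64 (M a48 (F (T t50 (L l20 (T t568 N))))) (K a192 (M a16 (F (L l20 (T t96 (T t966 (L l20 (L l339 (L l373 (L l481 (T t97 N)))))))))) (K a21 (M a48 (F (T t873 (L l20 (L l47 (T t100 (T t50 N))))))) (K a149 (M a16 (F (T t666 (L l20 (L l373 (L l375 (L l481 (T t97 (L l93 (L l170 (T t102 N))))))))))) (K a213 (Fr a170 a255 l476 (Fr a42 a21 l68 (Fr a106 a234 l390 (Fr a192 a149 l519 (V t581))))) (K a42 (M a48 (F (L l403 (T t364 (L l390 (T t50 (L l20 (L l28 (T t100 N))))))))) (K a106 (M a48 (F (T t48 (L l20 (L l104 (T t509 (L l390 (T t50 N)))))))) (K a170 (M a16 (F (L l20 (L l404 (T t113 (L l390 (T t98 (L l20 (L l373 (L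 l390 (L l404 (L l481 (T t97 (L l20 (L l404 (T t174 N)))))))))))))))) (K a255 (M a16 (F (L l20 (T t112 (L l289 (L l296 (T t98 (L l20 (L l289 (T t113 N)))))))))) N)))))))))))))))⟩
def e0_63__91_34 : Ent 4 := ⟨[a0, a63], [a91, a36], (M a85 (F (T t88 (T t52 (T t89 (T t90 (K a64 (M a60 (F (T t114 (L l24 (T t115 N))))) (K a192 (M a16 (F (L l24 (T t112 (L l296 (T t666 (L l296 (T t98 N)))))))) (K a21 (M a48 (F (T t873 (L l24 (L l47 (T t100 (T t50 N))))))) (K a149 (M a16 (F (T t666 (L l24 (L l373 (L l375 (L l481 (T t97 (L l93 (L l170 (T t102 N))))))))))) (K a213 (Fr a170 a255 l476 (Fr a42 a21 l68 (Fr a106 a234 l390 (Fr a192 a149 l519 (V t581))))) (K a42 (M a48 (F (T t364 (L l390 (T t50 (L l24 (L l28 (T t100 N)))))))) (K a106 (M a48 (F (T t364 (L l481 (T t1 (L l390 (T t50 N))))))) (K a170 (M a16 (F (L l24 (L l404 (T t113 (L l390 (T t98 (L l24 (L l373 (L l390 (L l404 (L l481 (T t97 (L l24 (L l404 (T t174 N))))))))))))))))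 (K a255 (M a16 (F (L l24 (T t112 (L l289 (L l296 (T t98 (L l24 (L l289 (T t113 N)))))))))) N)))))))))))))))⟩
def e0_63__91_35 : Ent 4 := ⟨[a0, a63], [a91, a37], (M a192 (F (T t21 (L l47 (T t35 (T t202 (L l28 (T t37 (K a64 (M a12 (F (T t161 (L l47 (T t122 (L l28 (L l80 (L l144 (T t160 N))))))))) (K a128 (M a12 (F (T t155 (L l47 (T t122 (L l28 (T t160 N))))))) (K a21 (M a5 (F (T t1815 (L l28 (L l347 (T t1816 (L l28 (T t1817 N)))))))) (K a85 (M a48 (F (T t27 (L l47 (L l347 (T t20 (L l144 (L l368 (T t224 N))))))))) (K a149 (M a12 (F (T t836 (L l47 (L l347 (L l371 (T t122 (L l47 (L l202 (L l220 (L l347 (L l371 (T t227 (L l28 (L l495 (T t228 N)))))))))))))))) (K a42 (M a32 (F (T t218 (L l47 (L l390 (T t1818 (L l47 (T t1819 N)))))))) (K a106 (M a12 (F (T t156 (L l47 (T t122 (L l47 (L l501 (T t227 (L l28 (L l132 (L l144 (L l390 (L l408 (T t228 N)))))))))))))) (K a170 (M a48 (F (T t19 (L l390 (T t206 (L l28 (L l47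 (L l220 (L l404 (T t29 N)))))))))) (K a255 (M a208 (F (T t1820 (L l373 (T t1821 (L l28 (L l75 (L l88 (T t1822 N))))))))) N)))))))))))))))))⟩
def e0_63__91_36 : Ent 4 := ⟨[a0, a63], [a91, a38], (M a192 (F (T t21 (L l50 (T t35 (T t202 (L l26 (T t37 (K a64 (M a48 (F (T t20 (L l50 (L l481 (T t1 (L l26 (L l116 (L l144 (T t31 N)))))))))) (K a128 (M a48 (F (T t206 (L l50 (L l481 (T t1 (L l26 (T t31 N)))))))) (K a21 (M a4 (F (T t1407 (L l26 (L l347 (T t1408 (L l131 (L l347 (L l481 (T t1409 N)))))))))) (K a85 (M a16 (F (T t210 (L l26 (L l373 (L l481 (T t97 (L l26 (L l72 (L l88 (L l94 (L l144 (T t211 N))))))))))))) (K a149 (M a48 (F (T t837 (L l50 (L l347 (L l481 (L l491 (T t1 (L l50 (L l170 (L l220 (L l347 (L l481 (L l491 (T t213 (L l26 (L l373 (L l375 (L l481 (T t214 N)))))))))))))))))))) (K a42 (M a34 (F (T t4282 (L l50 (L l390 (T t1411 (L l390 (T t1412 N)))))))) (K a106 (M a48 (F (T t27 (L l50 (L l481 (T t1 (L l50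 (L l411 (L l481 (T t213 (L l26 (L l104 (L l144 (L l373 (L l390 (L l481 (L l498 (T t214 N)))))))))))))))))) (K a170 (M a32 (F (T t218 (L l50 (L l481 (T t219 (L l21 (L l50 (L l180 (L l220 (T t220 N))))))))))) (K a255 (M a16 (F (T t2680 (L l26 (L l373 (L l469 (L l481 (T t97 (L l26 (L l72 (L l88 (T t211 N)))))))))))) N)))))))))))))))))⟩
def e0_63__91_37 : Ent 4 := ⟨[a0, a63], [a91, a39], (M a85 (F (T t88 (T t52 (T t89 (T t90 (K a64 (M a240 (F (T t386 (L l93 (T t387 N))))) (K a192 (M a16 (F (T t96 (L l73 (L l339 (L l373 (L l481 (T t97 (L l296 (T t98 N)))))))))) (K a21 (M a48 (F (T t99 (T t50 (L l47 (T t100 N)))))) (K a149 (M a16 (F (T t173 (L l73 (L l373 (L l375 (L l481 (T t97 (L l93 (L l170 (T t102 N))))))))))) (K a213 (Fr a170 a255 l476 (Fr a42 a21 l68 (Fr a106 a234 l390 (Fr a192 a149 l519 (V t581))))) (K a42 (M a48 (F (T t364 (L l390 (T t50 (L l28 (T t100 N))))))) (K a106 (M a48 (F (T t99 (L l73 (L l481 (T t1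 (L l390 (T t50 N)))))))) (K a170 (M a16 (F (L l404 (T t113 (L l390 (T t98 (L l73 (L l373 (L l390 (L l404 (L l481 (T t97 (L l404 (T t174 N)))))))))))))) (K a255 (M a16 (F (T t112 (L l289 (T t113 (L l289 (L l296 (T t98 N)))))))) N)))))))))))))))⟩
def e0_63__91_38 : Ent 4 := ⟨[a0, a63], [a91, a40], (M a85 (F (T t52 (L l22 (T t88 (L l22 (T t89 (L l392 (T t90 (K a64 (M a16 (F (L l24 (T t258 (L l22 (L l116 (T t98 (L l22 (L l24 (L l373 (L l481 (T t97 N)))))))))))) (K a192 (M a16 (F (L l24 (T t96 (L l22 (T t966 (L l22 (L l24 (L l339 (L l373 (L l481 (T t97 N)))))))))))) (K a21 (M a48 (F (L l24 (T t99 (L l392 (T t50 (L l24 (L l47 (T t100 N))))))))) (K a149 (M a16 (F (T t666 (L l22 (L l24 (L l373 (L l375 (L l481 (T t97 (L l22 (L l93 (L l170 (T t102 N))))))))))))) (K a213 (Fr a170 a255 l476 (Fr a42 a21 l68 (Fr a106 a234 l390 (Fr a192 a149 l519 (V t581))))) (K a42 (M a43 (F (T t667 (L l93 (L l390 (L l392 (T t265 (L l66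 (L l388 (T t264 (L l388 (L l390 (L l392 (T t1824 N)))))))))))))) (K a106 (M a48 (F (T t364 (L l481 (T t1 (L l390 (L l392 (T t50 N)))))))) (K a170 (M a105 (F (L l131 (L l218 (T t669 (L l22 (L l390 (T t670 (L l218 (L l373 (L l388 (T t967 (L l22 (L l218 (L l390 (T t672 N)))))))))))))))) (K a255 (M a16 (F (L l22 (L l24 (T t112 (L l24 (L l289 (T t113 (L l22 (L l289 (L l296 (T t98 N)))))))))))) N))))))))))))))))))⟩
def e0_63__91_39 : Ent 4 := ⟨[a0, a63], [a91, a41], (M a192 (F (T t21 (L l65 (T t35 (T t202 (L l22 (T t37 (K a64 (M a48 (F (T t20 (L l65 (L l481 (T t1 (L l22 (L l116 (L l144 (T t31 N)))))))))) (K a128 (M a48 (F (T t206 (L l65 (L l481 (T t1 (L l22 (T t31 N)))))))) (K a21 (M a1 (F (T t1825 (L l22 (L l347 (T t1826 (L l22 (T t1827 N)))))))) (K a85 (M a16 (F (T t210 (L l22 (L l373 (L l481 (T t97 (L l22 (L l57 (L l88 (L l94 (L l144 (T t211 N))))))))))))) (K a149 (M a48 (F (T t837 (L l65 (L l347 (L l481 (L l491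 (T t1 (L l65 (L l170 (L l220 (L l347 (L l481 (L l491 (T t213 (L l22 (L l373 (L l375 (L l481 (T t214 N)))))))))))))))))))) (K a42 (M a40 (F (T t1828 (L l65 (L l390 (T t1829 (L l65 (T t1830 N)))))))) (K a106 (M a48 (F (T t27 (L l65 (L l481 (T t1 (L l65 (L l411 (L l481 (T t213 (L l22 (L l104 (L l144 (L l373 (L l390 (L l481 (L l498 (T t214 N)))))))))))))))))) (K a170 (M a32 (F (T t218 (L l65 (L l481 (T t219 (L l25 (L l65 (L l180 (L l220 (T t220 N))))))))))) (K a255 (M a16 (F (T t2680 (L l22 (L l373 (L l469 (L l481 (T t97 (L l22 (L l57 (L l88 (T t211 N)))))))))))) N)))))))))))))))))⟩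
def e0_63__91_40 : Ent 4 := ⟨[a0, a63], [a91, a43], (M a149 (F (T t175 (L l22 (T t5 (L l22 (T t176 (L l393 (T t177 (K a192 (M a53 (F (L l22 (T t178 (L l236 (T t179 (L l22 (L l236 (L l296 (T t180 N)))))))))) (K a21 (M a48 (F (T t4 (L l393 (T t13 (L l18 (T t14 N))))))) (K a85 (M a16 (F (L l22 (L l455 (T t112 (L l144 (L l393 (T t190 (L l22 (L l88 (L l94 (T t278 N)))))))))))) (K a213 (Fr a106 a192 l519 (Fr a42 a21 l68 (Fr a170 a234 l390 (Fr a255 a85 l476 (V t582))))) (K a42 (M a40 (F (T t973 (L l390 (L l393 (T t974 (L l66 (L l391 (T t969 (L l390 (L l391 (L l393 (T t972 N))))))))))))) (K a106 (M a169 (F (L l22 (L l142 (L l390 (T t2178 (L l22 (L l390 (T t977 (L l142 (L l391 (L l463 (T t978 (L l22 (L l142 (L l390 (T t979 (L l93 (L l142 (T t981 N)))))))))))))))))))) (K a170 (M a48 (F (T t4 (L l462 (L l481 (T t1 (L l390 (L l393 (T t13 N))))))))) (K a191 (M a16 (F (T t2682 (L l22 (L l213 (T t191 (L l22 (L l373 (L l481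 (T t97 N)))))))))) (K a255 (M a16 (F (T t192 (L l22 (L l88 (T t193 (L l266 (L l393 (T t190 N))))))))) N))))))))))))))))))⟩
def e0_63__91_41 : Ent 4 := ⟨[a0, a63], [a91, a44], (M a85 (F (T t88 (T t52 (T t89 (T t90 (K a64 (M a48 (F (T t50 (L l24 (T t568 N))))) (K a192 (M a16 (F (L l24 (T t96 (T t966 (L l24 (L l339 (L l373 (L l481 (T t97 N)))))))))) (K a21 (M a48 (F (T t873 (L l24 (L l47 (T t100 (T t50 N))))))) (K a149 (M a16 (F (T t666 (L l24 (L l373 (L l375 (L l481 (T t97 (L l93 (L l170 (T t102 N))))))))))) (K a213 (Fr a170 a255 l476 (Fr a42 a21 l68 (Fr a106 a234 l390 (Fr a192 a149 l519 (V t581))))) (K a42 (M a48 (F (L l398 (T t364 (L l390 (T t50 (L l24 (L l28 (T t100 N))))))))) (K a106 (M a48 (F (T t48 (L l24 (L l104 (T t509 (L l390 (T t50 N)))))))) (K a170 (M a16 (F (L l24 (L l404 (T t113 (L l390 (T t98 (L l24 (L l373 (L l390 (L l404 (L l481 (T t97 (L l24 (L l404 (T t174 N)))))))))))))))) (K a255 (M a16 (F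 (L l24 (T t112 (L l289 (L l296 (T t98 (L l24 (L l289 (T t113 N)))))))))) N)))))))))))))))⟩
def e0_63__91_42 : Ent 4 := ⟨[a0, a63], [a91, a45], (M a85 (F (T t88 (T t52 (T t89 (T t90 (K a64 (M a240 (F (T t386 (L l93 (T t387 N))))) (K a192 (M a16 (F (T t96 (L l63 (L l339 (L l373 (L l481 (T t97 (L l296 (T t98 N)))))))))) (K a21 (M a48 (F (T t99 (T t50 (L l47 (T t100 N)))))) (K a149 (M a16 (F (T t173 (L l63 (L l373 (L l375 (L l481 (T t97 (L l93 (L l170 (T t102 N))))))))))) (K a213 (Fr a170 a255 l476 (Fr a42 a21 l68 (Fr a106 a234 l390 (Fr a192 a149 l519 (V t581))))) (K a42 (M a48 (F (T t364 (L l390 (T t50 (L l28 (T t100 N))))))) (K a106 (M a48 (F (T t99 (L l63 (L l481 (T t1 (L l390 (T t50 N)))))))) (K a170 (M a16 (F (L l404 (T t113 (L l390 (T t98 (L l63 (L l373 (L l390 (L l404 (L l481 (T t97 (L l404 (T t174 N)))))))))))))) (K a255 (M a16 (F (T t112 (L l289 (T t113 (L l289 (L l296 (T t98 N)))))))) N)))))))))))))))⟩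
def e0_63__91_43 : Ent 4 := ⟨[a0, a63], [a91, a46], (M a149 (F (T t175 (L l26 (T t5 (L l26 (T t176 (L l408 (T t177 (K a192 (M a53 (F (L l26 (T t178 (L l236 (T t179 (L l26 (L l236 (L l296 (T t180 N)))))))))) (K a21 (M a48 (F (T t4 (L l408 (T t13 (L l18 (T t14 N))))))) (K a85 (M a16 (F (L l26 (L l455 (T t112 (L l144 (L l408 (T t190 (L l26 (L l88 (L l94 (T t278 N)))))))))))) (K a213 (Fr a106 a192 l519 (Fr a42 a21 l68 (Fr a170 a234 l390 (Fr a255 a85 l476 (V t582))))) (K a42 (M a34 (F (T t279 (L l149 (L l390 (L l408 (T t280 (L l56 (L l396 (T t281 (L l390 (L l396 (L l408 (T t282 N)))))))))))))) (K a106 (M a166 (F (L l26 (L l390 (T t284 (L l131 (L l132 (L l396 (T t4283 (L l26 (L l88 (L l132 (L l390 (T t286 (L l131 (L l132 (T t283 N))))))))))))))))) (K a170 (M a48 (F (T t4 (L l462 (L l481 (T t1 (L l390 (L l408 (T t13 N))))))))) (K a191 (M a16 (F (T t2682 (L l26 (L l213 (T t191 (L l26 (L l373 (L l481 (T t97 N))))))))))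 (K a255 (M a16 (F (T t192 (L l26 (L l88 (T t193 (L l266 (L l408 (T t190 N))))))))) N))))))))))))))))))⟩
def e0_63__91_44 : Ent 4 := ⟨[a0, a63], [a91, a47], (M a149 (F (T t175 (L l28 (T t5 (L l28 (T t176 (L l411 (T t177 (K a192 (M a29 (F (L l23 (L l28 (T t956 (L l23 (L l272 (L l463 (T t641 (L l28 (L l272 (L l296 (T t957 N))))))))))))) (K a21 (M a48 (F (T t4 (L l411 (T t13 (L l18 (L l397 (T t14 N)))))))) (K a85 (M a48 (F (T t4 (L l28 (L l455 (L l481 (T t2 (L l144 (L l411 (T t13 N)))))))))) (K a213 (Fr a106 a192 l519 (Fr a42 a21 l68 (Fr a170 a234 l390 (Fr a255 a85 l476 (V t582))))) (K a42 (M a32 (F (T t983 (L l390 (L l411 (T t984 (L l54 (L l397 (T t985 (L l390 (L l397 (L l411 (T t986 N))))))))))))) (K a106 (M a165 (F (L l28 (L l390 (T t988 (L l130 (L l373 (L l397 (L l481 (T t989 (L l28 (L l88 (L l130 (L l390 (T t990 (L l93 (L l130 (L l481 (T t987 N))))))))))))))))))) (K a170 (M a12 (F (T t991 (L l402 (T t122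 (L l390 (L l411 (T t648 N)))))))) (K a191 (M a144 (F (L l411 (T t992 (L l28 (L l213 (T t993 (L l411 (T t994 N))))))))) (K a255 (M a48 (F (T t16 (L l28 (L l469 (L l481 (T t2 (L l266 (L l411 (T t13 N)))))))))) N))))))))))))))))))⟩
def e0_63__91_45 : Ent 4 := ⟨[a0, a63], [a91, a48], (M a12 (F (T t150 (L l30 (T t122 (L l30 (T t151 (L l30 (T t152 (L l30 (T t153 (K a4 (M a60 (F (T t570 (L l45 (L l46 (L l50 (T t67 (T t448 N)))))))) (K a8 (M a60 (F (T t116 (L l75 (L l481 (T t398 (L l52 (L l56 (T t448 N))))))))) (K a21 (M a192 (F (T t2119 (L l15 (L l347 (L l416 (L l481 (T t450 (L l15 (L l347 (T t157 N))))))))))) (K a25 (M a192 (F (T t158 (L l508 (T t156 (L l440 (T t21 N))))))) (K a29 (M a192 (F (T t159 (L l371 (L l440 (T t21 (T t160 N))))))) (K a38 (M a192 (F (T t161 (L l508 (T t156 (L l440 (T t21 N))))))) (K a42 (M a192 (F (T t161 (L l508 (T t156 (L l56 (T t157 N))))))) (K a46 (M a192 (F (T t57 (L l508 (T t156 (L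 l26 (L l408 (T t160 N)))))))) (K a51 (M a170 (L l30 (F (T t439 (L l439 (L l440 (T t3685 (L l463 (T t3880 (K a49 (M a50 (F (T t4159 (L l463 (T t3682 N))))) (K a50 (M a49 (F (T t4159 (L l463 (T t3682 N))))) N))))))))))) N))))))))))))))))))))⟩
def e0_63__91_46 : Ent 4 := ⟨[a0, a63], [a91, a49], (M a85 (F (T t88 (T t52 (T t89 (T t90 (K a64 (M a252 (F (T t91 (L l93 (T t92 N))))) (K a192 (M a16 (F (T t112 (L l509 (T t96 (L l296 (T t98 N))))))) (K a21 (M a48 (F (T t99 (L l437 (T t50 (L l35 (L l47 (T t100 N)))))))) (K a149 (M a16 (F (T t173 (L l373 (L l375 (L l481 (T t97 (L l93 (L l170 (T t102 N)))))))))) (K a213 (Fr a170 a255 l476 (Fr a42 a21 l68 (Fr a106 a234 l390 (Fr a192 a149 l519 (V t581))))) (K a42 (M a48 (F (T t365 (L l390 (L l437 (T t50 (L l28 (L l35 (T t100 N))))))))) (K a106 (M a48 (F (T t99 (L l35 (L l481 (T t1 (L l390 (L l437 (T t50 N))))))))) (K a170 (M a16 (F (L l390 (L l404 (T t112 (L l390 (T t98 (L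 l35 (L l404 (T t113 (L l404 (T t174 N)))))))))))) (K a255 (M a16 (F (T t112 (L l35 (L l289 (T t113 (L l289 (L l296 (T t98 N))))))))) N)))))))))))))))⟩
def e0_63__91_47 : Ent 4 := ⟨[a0, a63], [a91, a50], (M a85 (F (T t88 (T t52 (T t89 (T t90 (K a64 (M a252 (F (T t91 (L l93 (T t92 N))))) (K a192 (M a16 (F (T t96 (L l339 (L l373 (L l481 (T t97 (L l296 (T t98 N))))))))) (K a21 (M a48 (F (T t1699 (L l47 (T t100 (T t50 N)))))) (K a149 (M a16 (F (T t173 (L l373 (L l375 (L l481 (T t97 (L l72 (L l93 (L l170 (L l510 (T t102 N)))))))))))) (K a213 (Fr a170 a255 l476 (Fr a42 a21 l68 (Fr a106 a234 l390 (Fr a192 a149 l519 (V t581))))) (K a42 (M a48 (F (T t364 (L l390 (T t50 (L l28 (T t100 N))))))) (K a106 (M a48 (F (T t1699 (L l481 (T t1 (L l390 (T t50 N))))))) (K a170 (M a16 (F (L l404 (T t113 (L l390 (T t98 (L l373 (L l390 (L l404 (L l481 (T t97 (L l36 (L l404 (T t174 N)))))))))))))) (K a255 (M a16 (F (L l36 (T t112 (L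 l289 (T t113 (L l289 (L l296 (T t98 N))))))))) N)))))))))))))))⟩
def e0_63__91_48 : Ent 4 := ⟨[a0, a63], [a91, a51], (M a60 (F (T t116 (L l43 (T t67 (L l43 (T t43 (L l43 (T t68 (L l43 (T t69 (K a20 (M a85 (F (T t89 (L l441 (T t114 (T t1344 N)))))) (K a40 (M a85 (F (L l439 (T t52 (L l392 (L l441 (T t114 (L l22 (T t1344 N))))))))) (K a21 (M a192 (F (T t2647 (L l131 (L l347 (L l487 (T t73 (L l347 (T t74 N))))))))) (K a41 (M a192 (F (T t1343 (L l441 (T t79 (L l65 (L l439 (T t35 N)))))))) (K a61 (M a192 (F (T t1800 (L l441 (T t79 (L l373 (T t80 N))))))) (K a22 (M a192 (F (T t237 (L l11 (L l441 (T t79 (L l11 (L l439 (T t35 N))))))))) (K a42 (M a192 (F (T t237 (L l441 (T t79 (L l22 (T t74 N))))))) (K a62 (M a192 (F (T t57 (L l441 (T t79 (L l66 (L l373 (L l516 (T t80 N))))))))) (K a3 (M a192 (L l43 (F (T t237 (L l441 (L l477 (T t79 (L l439 (L l475 (T t35 (K a19 (M a35 (F (T t1800 (L l307 (L l373 (L l487 (T t75 (L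 l441 (L l477 (T t1333 N)))))))))) (K a35 (M a19 (F (T t1800 (L l307 (L l373 (L l487 (T t75 (L l441 (L l477 (T t1333 N)))))))))) N)))))))))))) N))))))))))))))))))))⟩
def e0_63__91_49 : Ent 4 := ⟨[a0, a63], [a91, a52], (M a85 (F (T t88 (T t52 (T t89 (T t90 (K a64 (M a12 (F (T t124 (L l422 (T t572 N))))) (K a192 (M a16 (F (T t112 (L l494 (T t96 (L l296 (T t98 N))))))) (K a21 (M a48 (F (T t99 (L l422 (T t50 (L l31 (L l47 (T t100 N)))))))) (K a149 (M a16 (F (T t173 (L l373 (L l375 (L l481 (T t97 (L l93 (L l170 (T t102 N)))))))))) (K a213 (Fr a170 a255 l476 (Fr a42 a21 l68 (Fr a106 a234 l390 (Fr a192 a149 l519 (V t581))))) (K a42 (M a48 (F (T t365 (L l390 (L l422 (T t50 (L l28 (L l31 (T t100 N))))))))) (K a106 (M a48 (F (T t99 (L l31 (L l481 (T t1 (L l390 (L l422 (T t50 N))))))))) (K a170 (M a16 (F (L l390 (L l404 (T t112 (L l390 (T t98 (L l31 (L l404 (T t113 (L l404 (T t174 N)))))))))))) (K a255 (M a16 (F (T t112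 (L l31 (L l289 (T t113 (L l289 (L l296 (T t98 N))))))))) N)))))))))))))))⟩
def e0_63__91_50 : Ent 4 := ⟨[a0, a63], [a91, a53], (M a149 (F (T t5 (L l47 (T t175 (T t176 (T t177 (K a192 (M a29 (F (T t956 (L l272 (L l463 (T t641 (L l272 (L l296 (T t957 N))))))))) (K a21 (M a12 (L l47 (F (T t958 (T t648 (L l50 (L l463 (T t649 (K a5 (M a37 (F (T t958 (T t648 (L l1 (L l50 (L l463 (T t649 N)))))))) (K a37 (M a5 (F (T t958 (L l51 (L l65 (T t1428 N)))))) N)))))))))) (K a85 (M a4 (F (L l31 (T t519 (L l144 (T t653 (L l126 (T t654 N)))))))) (K a213 (Fr a106 a192 l519 (Fr a42 a21 l68 (Fr a170 a234 l390 (Fr a255 a85 l476 (V t582))))) (K a42 (M a240 (F (T t1090 (L l390 (T t1091 (T t1207 N)))))) (K a106 (M a12 (F (L l47 (T t122 (L l408 (L l463 (T t649 (L l390 (L l408 (T t960 (L l390 (T t961 N)))))))))))) (K a170 (M a12 (F (T t958 (L l47 (L l402 (T t122 (L l390 (T t648 N)))))))) (K a191 (M a240 (F (T t962 (L l419 (T t963 N)))))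 (K a255 (M a208 (F (T t2180 (L l88 (T t1833 (L l440 (T t1277 N))))))) N))))))))))))))))⟩
def e0_63__91_51 : Ent 4 := ⟨[a0, a63], [a91, a54], (M a149 (F (T t5 (T t175 (T t176 (T t177 (K a192 (M a53 (F (L l36 (T t178 (L l236 (L l296 (T t180 (L l36 (L l236 (T t179 N)))))))))) (K a21 (M a48 (F (T t7 (L l18 (L l36 (T t14 (T t13 N))))))) (K a85 (M a16 (F (L l373 (L l481 (T t97 (L l144 (T t190 (L l88 (L l94 (T t278 N)))))))))) (K a213 (Fr a106 a192 l519 (Fr a42 a21 l68 (Fr a170 a234 l390 (Fr a255 a85 l476 (V t582))))) (K a42 (M a48 (F (L l31 (T t187 (L l390 (T t13 (L l36 (L l54 (T t14 N))))))))) (K a106 (M a48 (F (L l31 (T t48 (L l36 (L l498 (T t14 (L l36 (L l390 (L l498 (T t6 (L l390 (T t26 N))))))))))))) (K a170 (M a48 (F (L l36 (T t4 (L l31 (L l462 (L l481 (T t1 (L l390 (T t13 N)))))))))) (K a191 (M a48 (F (T t13 (L l36 (T t6 N))))) (K a255 (M a16 (F (L l36 (T t112 (L l266 (T t190 (L l289 (L l296 (T t191 N)))))))))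 N)))))))))))))))⟩
def e0_63__91_52 : Ent 4 := ⟨[a0, a63], [a91, a55], (M a149 (F (T t5 (L l50 (T t175 (T t176 (T t177 (K a192 (M a53 (F (T t178 (L l236 (T t179 (L l236 (L l296 (L l423 (T t180 N))))))))) (K a21 (M a48 (L l50 (F (T t4 (T t13 (L l18 (T t14 (K a4 (M a38 (F (T t4 (T t13 (L l18 (T t14 N)))))) (K a38 (M a4 (F (T t7 (L l18 (L l29 (T t518 N)))))) N))))))))) (K a85 (M a16 (F (L l455 (T t112 (L l144 (T t190 (L l88 (L l94 (T t278 N))))))))) (K a213 (Fr a106 a192 l519 (Fr a42 a21 l68 (Fr a170 a234 l390 (Fr a255 a85 l476 (V t582))))) (K a42 (M a48 (F (L l54 (T t4 (L l390 (T t13 (L l54 (T t14 N)))))))) (K a106 (M a48 (F (L l498 (T t14 (L l31 (L l50 (L l481 (T t1 (L l390 (L l498 (T t6 (L l390 (T t26 N))))))))))))) (K a170 (M a48 (F (T t4 (L l31 (L l50 (L l462 (L l481 (T t1 (L l390 (T t13 N)))))))))) (K a191 (M a204 (F (T t1283 (T t1112 N)))) (K a255 (M a16 (F (T t112 (L l266 (T t190 (L l289 (L l296 (T t191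 N)))))))) N))))))))))))))))⟩
def e0_63__91_53 : Ent 4 := ⟨[a0, a63], [a91, a56], (M a85 (F (T t88 (T t52 (T t89 (T t90 (K a64 (M a16 (F (T t258 (L l373 (L l481 (T t97 (L l116 (T t98 N)))))))) (K a192 (M a16 (F (T t96 (L l339 (L l373 (L l481 (T t97 (L l296 (T t98 N))))))))) (K a21 (M a48 (F (T t1699 (L l47 (T t100 (T t50 N)))))) (K a149 (M a16 (F (T t173 (L l373 (L l375 (L l481 (T t97 (L l57 (L l93 (L l170 (L l500 (T t102 N)))))))))))) (K a213 (Fr a170 a255 l476 (Fr a42 a21 l68 (Fr a106 a234 l390 (Fr a192 a149 l519 (V t581))))) (K a42 (M a48 (F (T t364 (L l390 (T t50 (L l28 (T t100 N))))))) (K a106 (M a48 (F (T t1699 (L l481 (T t1 (L l390 (T t50 N))))))) (K a170 (M a16 (F (L l404 (T t113 (L l390 (T t98 (L l373 (L l390 (L l404 (L l481 (T t97 (L l32 (L l404 (T t174 N)))))))))))))) (K a255 (M a16 (F (L l32 (T t112 (L l289 (T t113 (L l289 (L l296 (T t98 N))))))))) N)))))))))))))))⟩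
def e0_63__91_54 : Ent 4 := ⟨[a0, a63], [a91, a57], (M a149 (F (T t5 (T t175 (T t176 (T t177 (K a192 (M a53 (F (L l32 (T t178 (L l236 (L l296 (T t180 (L l32 (L l236 (T t179 N)))))))))) (K a21 (M a48 (F (T t7 (L l18 (L l32 (T t14 (T t13 N))))))) (K a85 (M a16 (F (L l373 (L l481 (T t97 (L l144 (T t190 (L l88 (L l94 (T t278 N)))))))))) (K a213 (Fr a106 a192 l519 (Fr a42 a21 l68 (Fr a170 a234 l390 (Fr a255 a85 l476 (V t582))))) (K a42 (M a48 (F (L l35 (T t187 (L l390 (T t13 (L l32 (L l54 (T t14 N))))))))) (K a106 (M a48 (F (L l35 (T t48 (L l32 (L l498 (T t14 (L l32 (L l390 (L l498 (T t6 (L l390 (T t26 N))))))))))))) (K a170 (M a48 (F (L l32 (T t4 (L l35 (L l462 (L l481 (T t1 (L l390 (T t13 N)))))))))) (K a191 (M a48 (F (T t13 (L l32 (T t6 N))))) (K a255 (M a16 (F (L l32 (T t112 (L l266 (T t190 (L l289 (L l296 (T t191 N))))))))) N)))))))))))))))⟩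
def e0_63__91_55 : Ent 4 := ⟨[a0, a63], [a91, a58], (M a149 (F (T t175 (L l54 (T t5 (L l54 (T t176 (L l498 (T t177 (K a192 (M a29 (F (L l54 (T t956 (L l272 (L l463 (T t641 (L l54 (L l272 (L l296 (T t957 N))))))))))) (K a21 (M a240 (F (T t1937 (L l498 (T t1091 (L l426 (T t1207 N))))))) (K a85 (M a4 (F (L l54 (T t519 (L l144 (L l498 (T t653 (L l54 (L l126 (T t654 N)))))))))) (K a213 (Fr a106 a192 l519 (Fr a42 a21 l68 (Fr a170 a234 l390 (Fr a255 a85 l476 (V t582))))) (K a42 (M a10 (F (L l28 (T t657 (L l149 (L l390 (L l498 (T t656 (L l28 (L l426 (T t655 (L l373 (L l390 (L l426 (L l498 (T t658 N)))))))))))))))) (K a106 (M a154 (F (L l104 (T t1836 (L l54 (L l390 (T t1837 (L l104 (L l426 (T t1838 (L l54 (L l104 (L l390 (T t1839 N)))))))))))))) (K a170 (M a12 (F (T t958 (L l402 (T t122 (L l390 (L l498 (T t648 N)))))))) (K a191 (M a240 (F (L l498 (T t962 (L l54 (L l426 (T t963 N))))))) (K a255 (M a208 (F (L l498 (T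 t1840 (L l54 (L l88 (L l440 (T t1276 (L l54 (L l93 (L l296 (L l373 (L l469 (T t1275 N)))))))))))))) N))))))))))))))))))⟩
def e0_63__91_56 : Ent 4 := ⟨[a0, a63], [a91, a59], (M a149 (F (T t175 (L l56 (T t5 (L l56 (T t176 (L l501 (T t177 (K a192 (M a53 (F (L l32 (L l56 (T t178 (L l32 (L l236 (T t179 (L l56 (L l236 (L l296 (T t180 N)))))))))))) (K a21 (M a48 (F (L l32 (T t4 (L l501 (T t13 (L l18 (L l32 (T t14 N))))))))) (K a85 (M a16 (F (L l56 (L l373 (L l481 (T t97 (L l144 (L l501 (T t190 (L l56 (L l88 (L l94 (T t278 N))))))))))))) (K a213 (Fr a106 a192 l519 (Fr a42 a21 l68 (Fr a170 a234 l390 (Fr a255 a85 l476 (V t582))))) (K a42 (M a8 (F (L l88 (T t1841 (L l390 (L l501 (T t644 (L l26 (L l427 (L l463 (T t643 (L l390 (L l427 (L l463 (L l501 (T t646 N)))))))))))))))) (K a106 (M a153 (F (L l102 (T t1843 (L l56 (L l390 (T t1844 (L l102 (L l427 (T t1845 (L l56 (L l102 (L l390 (T t1846 N)))))))))))))) (K a170 (M a48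 (F (T t11 (L l462 (L l481 (T t1 (L l390 (L l501 (T t13 N))))))))) (K a191 (M a240 (F (L l501 (T t962 (L l56 (L l429 (T t963 N))))))) (K a255 (M a16 (F (L l32 (T t192 (L l56 (L l88 (T t193 (L l266 (L l501 (T t190 N)))))))))) N))))))))))))))))))⟩
def e0_63__91_57 : Ent 4 := ⟨[a0, a63], [a91, a60], (M a12 (F (T t150 (L l39 (T t122 (L l39 (T t151 (L l39 (T t152 (L l39 (T t153 (K a4 (M a85 (F (T t89 (L l502 (T t124 (T t154 N)))))) (K a8 (M a85 (F (L l434 (T t52 (L l464 (L l502 (T t124 (L l56 (T t154 N))))))))) (K a21 (M a192 (F (T t2119 (L l15 (L l347 (L l446 (L l481 (T t450 (L l15 (L l347 (T t157 N))))))))))) (K a25 (M a192 (F (T t158 (L l502 (T t156 (L l434 (T t21 N))))))) (K a29 (M a192 (F (T t159 (L l371 (L l434 (T t21 (T t160 N))))))) (K a38 (M a192 (F (T t161 (L l502 (T t156 (L l434 (T t21 N))))))) (K a42 (M a192 (F (T t161 (L l502 (T t156 (L l56 (T t157 N))))))) (K a46 (M a192 (F (T t57 (L l502 (T t156 (L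 l26 (L l408 (T t160 N)))))))) (K a51 (M a170 (L l39 (F (T t439 (L l434 (L l439 (T t3685 (L l463 (T t3880 (K a57 (M a54 (F (T t4159 (L l463 (T t3682 N))))) (K a54 (M a57 (F (T t4159 (L l463 (T t3682 N))))) N))))))))))) N))))))))))))))))))))⟩
def e0_63__91_58 : Ent 4 := ⟨[a0, a63], [a91, a61], (M a149 (F (T t5 (L l65 (T t175 (T t176 (T t177 (K a192 (M a53 (F (T t178 (L l236 (T t179 (L l236 (L l296 (L l443 (T t180 N))))))))) (K a21 (M a48 (L l65 (F (T t4 (T t13 (L l18 (T t14 (K a1 (M a41 (F (T t7 (L l18 (T t14 (T t13 N)))))) (K a41 (M a1 (F (T t16 (L l18 (L l29 (T t295 N)))))) N))))))))) (K a85 (M a16 (F (L l455 (T t112 (L l144 (T t190 (L l88 (L l94 (T t278 N))))))))) (K a213 (Fr a106 a192 l519 (Fr a42 a21 l68 (Fr a170 a234 l390 (Fr a255 a85 l476 (V t582))))) (K a42 (M a48 (F (L l54 (T t4 (L l390 (T t13 (L l54 (T t14 N)))))))) (K a106 (M a48 (F (L l498 (T t14 (L l35 (L l65 (L l481 (T t1 (L l390 (L l498 (T t6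 (L l390 (T t26 N))))))))))))) (K a170 (M a48 (F (T t4 (L l35 (L l65 (L l462 (L l481 (T t1 (L l390 (T t13 N)))))))))) (K a191 (M a16 (F (T t112 (T t190 (L l213 (T t191 N)))))) (K a255 (M a16 (F (T t112 (L l266 (T t190 (L l289 (L l296 (T t191 N)))))))) N))))))))))))))))⟩
def e0_63__91_59 : Ent 4 := ⟨[a0, a63], [a91, a62], (M a149 (F (T t175 (L l66 (T t5 (L l66 (T t176 (L l516 (T t177 (K a192 (M a53 (F (L l36 (L l66 (T t178 (L l36 (L l236 (T t179 (L l66 (L l236 (L l296 (T t180 N)))))))))))) (K a21 (M a48 (F (L l36 (T t4 (L l516 (T t13 (L l18 (L l36 (T t14 N))))))))) (K a85 (M a16 (F (L l66 (L l373 (L l481 (T t97 (L l144 (L l516 (T t190 (L l66 (L l88 (L l94 (T t278 N))))))))))))) (K a213 (Fr a106 a192 l519 (Fr a42 a21 l68 (Fr a170 a234 l390 (Fr a255 a85 l476 (V t582))))) (K a42 (M a2 (F (T t2687 (L l390 (L l516 (T t1848 (L l22 (L l432 (T t189 (L l390 (L l432 (L l516 (T t2688 N))))))))))))) (K a106 (M a150 (F (L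 l98 (L l131 (T t1002 (L l66 (L l373 (L l390 (T t999 (L l98 (L l131 (L l432 (T t1000 (L l66 (L l98 (L l390 (T t1001 N))))))))))))))))) (K a170 (M a48 (F (T t11 (L l462 (L l481 (T t1 (L l390 (L l516 (T t13 N))))))))) (K a191 (M a240 (F (L l516 (T t962 (L l66 (L l444 (T t963 N))))))) (K a255 (M a16 (F (L l36 (T t192 (L l66 (L l88 (T t193 (L l266 (L l516 (T t190 N)))))))))) N))))))))))))))))))⟩
def e0_63__91_60 : Ent 4 := ⟨[a0, a63], [a91, a64], (M a12 (F (T t122 (T t151 (T t152 (T t153 (K a4 (M a60 (F (T t43 (L l481 (T t398 (T t448 N)))))) (K a8 (M a60 (F (T t67 (L l481 (T t398 (L l52 (L l56 (T t448 N)))))))) (K a21 (M a89 (F (T t2761 (L l80 (T t870 (L l50 (L l463 (T t864 N)))))))) (K a25 (M a48 (F (T t550 (L l15 (L l481 (T t1 (L l12 (L l56 (T t866 N))))))))) (K a29 (M a48 (F (T t550 (L l15 (L l481 (T t1 (T t866 N))))))) (K a38 (M a48 (F (T t1580 (L l26 (L l481 (T t2 (L l21 (L l50 (L l355 (T t868 N))))))))))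 (K a42 (M a89 (F (T t2761 (L l26 (L l80 (T t870 (L l26 (L l463 (T t864 N))))))))) (K a46 (M a48 (F (T t443 (L l481 (T t1 (L l26 (T t866 N))))))) (K a51 (M a85 (F (T t571 (T t572 N)))) N)))))))))))))))⟩
def e0_63__91_61 : Ent 4 := ⟨[a0, a63], [a91, a65], (M a12 (F (T t122 (T t151 (T t152 (T t153 (K a4 (M a60 (F (T t43 (L l481 (T t398 (T t448 N)))))) (K a8 (M a60 (F (T t67 (L l481 (T t398 (L l52 (L l56 (T t448 N)))))))) (K a21 (M a192 (F (T t468 (L l15 (L l347 (L l481 (T t450 (L l15 (L l347 (T t157 N)))))))))) (K a25 (M a192 (F (T t449 (L l15 (L l481 (T t450 (T t21 N))))))) (K a29 (M a192 (F (T t449 (L l371 (T t21 (T t160 N)))))) (K a38 (M a192 (F (T t156 (L l481 (T t450 (T t21 N)))))) (K a42 (M a192 (F (T t449 (L l481 (T t450 (L l56 (T t157 N))))))) (K a46 (M a192 (F (T t449 (T t21 (L l26 (L l408 (T t160 N))))))) (K a51 (M a192 (F (T t57 (L l513 (T t156 (L l415 (L l481 (T t450 N)))))))) N)))))))))))))))⟩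
def e0_63__91_62 : Ent 4 := ⟨[a0, a63], [a91, a66], (M a12 (F (T t122 (T t151 (T t152 (T t153 (K a4 (M a60 (F (T t570 (L l46 (L l50 (L l309 (T t67 (T t448 N)))))))) (K a8 (M a60 (F (T t570 (L l309 (T t67 (L l52 (L l56 (T t448 N)))))))) (K a21 (M a192 (F (T t468 (L l15 (L l347 (L l481 (T t450 (L l15 (L l347 (T t157 N)))))))))) (K a25 (M a192 (F (T t449 (L l15 (L l481 (T t450 (T t21 N))))))) (K a29 (M a192 (F (T t449 (L l371 (T t21 (L l142 (T t160 N))))))) (K a38 (M a192 (F (T t468 (L l481 (T t450 (T t21 N)))))) (K a42 (M a192 (F (T t449 (L l481 (T t450 (L l56 (T t157 N))))))) (K a46 (M a192 (F (T t449 (T t21 (L l26 (L l142 (L l408 (T t160 N)))))))) (K a51 (M a192 (F (T t57 (L l513 (T t156 (L l415 (L l481 (T t450 N)))))))) N)))))))))))))))⟩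
def e0_63__91_63 : Ent 4 := ⟨[a0, a63], [a91, a67], (M a149 (F (T t25 (T t175 (T t176 (L l76 (T t177 (K a192 (M a53 (F (T t178 (L l236 (T t179 (L l236 (L l296 (T t180 N)))))))) (K a21 (M a48 (F (T t4 (L l121 (T t13 (L l18 (T t14 N))))))) (K a85 (M a16 (F (L l455 (T t112 (L l144 (T t190 (L l88 (L l94 (T t278 N))))))))) (K a213 (Fr a106 a192 l519 (Fr a42 a21 l68 (Fr a170 a234 l390 (Fr a255 a85 l476 (V t582))))) (K a42 (M a48 (F (T t187 (L l121 (L l390 (T t13 (L l54 (T t14 N)))))))) (K a106 (M a48 (F (T t48 (L l498 (T t14 (L l390 (L l498 (T t6 (L l390 (T t26 N)))))))))) (K a170 (M a48 (F (T t4 (L l462 (L l481 (T t1 (L l121 (L l390 (T t13 N))))))))) (K a191 (M a16 (F (T t112 (T t190 (L l213 (T t191 N)))))) (K a255 (M a16 (F (T t112 (L l266 (T t190 (L l289 (L l296 (T t191 N)))))))) N))))))))))))))))⟩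
def e0_63__91_64 : Ent 4 := ⟨[a0, a63], [a91, a68], (M a60 (F (T t67 (T t43 (T t68 (T t69 (K a20 (M a48 (F (T t64 (L l11 (L l481 (T t1 (L l11 (T t235 N)))))))) (K a40 (M a48 (F (T t64 (L l481 (T t1 (L l52 (T t235 N))))))) (K a21 (M a192 (F (T t72 (L l131 (L l347 (T t73 (L l347 (T t74 N)))))))) (K a41 (M a192 (F (T t79 (L l65 (T t35 (L l131 (T t73 N))))))) (K a61 (M a192 (F (T t72 (L l65 (L l515 (T t35 (L l373 (T t80 N)))))))) (K a22 (M a192 (F (T t72 (T t21 (L l131 (T t73 N)))))) (K a42 (M a192 (F (T t77 (L l131 (T t73 (L l22 (T t74 N))))))) (K a62 (M a192 (F (T t72 (T t35 (L l66 (L l373 (L l516 (T t80 N)))))))) (K a3 (M a192 (F (T t1343 (L l477 (T t79 (L l475 (T t35 N))))))) N)))))))))))))))⟩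
def e0_63__91_65 : Ent 4 := ⟨[a0, a63], [a91, a69], (M a60 (F (T t67 (T t43 (T t68 (L l329 (T t69 (K a20 (M a48 (F (T t64 (L l11 (L l481 (T t1 (L l11 (T t235 N)))))))) (K a40 (M a48 (F (T t64 (L l481 (T t1 (L l52 (T t235 N))))))) (K a21 (M a192 (F (T t72 (L l131 (L l347 (T t73 (L l347 (T t74 N)))))))) (K a41 (M a192 (F (T t79 (L l65 (T t35 (L l131 (T t73 N))))))) (K a61 (M a192 (F (T t72 (L l65 (L l515 (T t35 (L l373 (T t80 N)))))))) (K a22 (M a192 (F (T t72 (T t21 (L l131 (T t73 N)))))) (K a42 (M a192 (F (T t77 (L l131 (T t73 (L l22 (T t74 N))))))) (K a62 (M a192 (F (T t72 (T t35 (L l66 (L l373 (L l516 (T t80 N)))))))) (K a3 (M a192 (F (T t1343 (L l477 (T t79 (L l475 (T t35 N))))))) N))))))))))))))))⟩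
def e0_63__91_66 : Ent 4 := ⟨[a0, a63], [a91, a70], (M a149 (F (T t5 (T t175 (T t176 (T t177 (K a192 (M a53 (F (T t178 (L l236 (T t179 (L l77 (L l236 (L l296 (T t180 N))))))))) (K a21 (M a48 (F (T t4 (T t13 (L l18 (T t14 N)))))) (K a85 (M a16 (F (L l455 (T t112 (L l144 (T t190 (L l88 (L l94 (T t278 N))))))))) (K a213 (Fr a106 a192 l519 (Fr a42 a21 l68 (Fr a170 a234 l390 (Fr a255 a85 l476 (V t582))))) (K a42 (M a48 (F (T t187 (L l390 (T t13 (L l54 (T t14 N))))))) (K a106 (M a48 (F (T t48 (L l498 (T t14 (L l390 (L l498 (T t6 (L l390 (T t26 N)))))))))) (K a170 (M a48 (F (T t4 (L l462 (L l481 (T t1 (L l390 (T t13 N)))))))) (K a191 (M a240 (F (T t962 (L l315 (T t963 N))))) (K a255 (M a16 (F (T t112 (L l266 (T t190 (L l289 (L l296 (T t191 N)))))))) N)))))))))))))))⟩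
def e0_63__91_67 : Ent 4 := ⟨[a0, a63], [a91, a71], (M a85 (F (T t88 (T t52 (T t89 (T t90 (K a64 (M a240 (F (T t933 (L l93 (T t387 N))))) (K a192 (M a16 (F (T t112 (L l77 (L l127 (T t96 (L l296 (T t98 N)))))))) (K a21 (M a48 (F (T t99 (T t50 (L l47 (T t100 N)))))) (K a149 (M a16 (F (T t112 (L l77 (L l331 (T t173 (L l93 (L l170 (T t102 N))))))))) (K a213 (Fr a170 a255 l476 (Fr a42 a21 l68 (Fr a106 a234 l390 (Fr a192 a149 l519 (V t581))))) (K a42 (M a48 (F (T t364 (L l390 (T t50 (L l28 (T t100 N))))))) (K a106 (M a48 (F (T t99 (L l481 (T t1 (L l390 (T t50 N))))))) (K a170 (M a16 (F (L l404 (T t113 (L l390 (T t98 (L l373 (L l390 (L l404 (L l481 (T t97 (L l331 (L l404 (T t174 N)))))))))))))) (K a255 (M a16 (F (T t112 (L l289 (T t113 (L l289 (L l296 (T t98 N)))))))) N)))))))))))))))⟩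
def e0_63__91_68 : Ent 4 := ⟨[a0, a63], [a91, a72], (M a60 (F (T t67 (T t43 (T t68 (T t69 (K a20 (M a48 (F (T t64 (L l11 (L l481 (T t1 (L l11 (T t235 N)))))))) (K a40 (M a48 (F (T t64 (L l481 (T t1 (L l52 (T t235 N))))))) (K a21 (M a192 (F (T t77 (L l131 (L l347 (T t73 (L l347 (T t74 N)))))))) (K a41 (M a192 (F (T t79 (L l65 (T t35 (L l131 (T t73 N))))))) (K a61 (M a192 (F (T t77 (L l65 (L l515 (T t35 (L l128 (L l132 (L l373 (T t80 N)))))))))) (K a22 (M a192 (F (T t77 (T t21 (L l131 (T t73 N)))))) (K a42 (M a192 (F (T t79 (L l131 (T t73 (L l22 (T t74 N))))))) (K a62 (M a192 (F (T t79 (T t35 (L l66 (L l128 (L l132 (L l373 (L l516 (T t80 N)))))))))) (K a3 (M a192 (F (T t237 (L l477 (T t79 (L l475 (T t35 N))))))) N)))))))))))))))⟩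
def e0_63__91_69 : Ent 4 := ⟨[a0, a63], [a91, a73], (M a85 (F (T t88 (T t52 (T t89 (T t90 (K a64 (M a252 (F (T t91 (L l93 (T t92 N))))) (K a192 (M a16 (F (T t260 (L l339 (L l373 (L l481 (T t97 (L l296 (T t98 N))))))))) (K a21 (M a48 (F (T t99 (T t50 (L l47 (T t100 N)))))) (K a149 (M a16 (F (T t112 (L l81 (T t173 (L l93 (L l170 (T t102 N)))))))) (K a213 (Fr a170 a255 l476 (Fr a42 a21 l68 (Fr a106 a234 l390 (Fr a192 a149 l519 (V t581))))) (K a42 (M a48 (F (T t364 (L l390 (T t50 (L l28 (T t100 N))))))) (K a106 (M a48 (F (T t99 (L l481 (T t1 (L l390 (T t50 N))))))) (K a170 (M a16 (F (L l404 (T t113 (L l390 (T t98 (L l373 (L l390 (L l404 (L l481 (T t97 (L l404 (T t174 N))))))))))))) (K a255 (M a16 (F (T t112 (L l289 (T t113 (L l289 (L l296 (T t98 N)))))))) N)))))))))))))))⟩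
def e0_63__91_70 : Ent 4 := ⟨[a0, a63], [a91, a74], (M a12 (F (T t122 (T t151 (T t152 (T t153 (K a4 (M a60 (F (T t43 (L l336 (L l339 (L l481 (T t398 (T t448 N)))))))) (K a8 (M a60 (F (T t67 (L l336 (L l339 (L l481 (T t398 (L l52 (L l56 (T t448 N)))))))))) (K a21 (M a192 (F (T t156 (L l15 (L l347 (L l481 (T t450 (L l15 (L l347 (T t157 N)))))))))) (K a25 (M a192 (F (T t156 (L l15 (L l481 (T t450 (T t21 N))))))) (K a29 (M a192 (F (T t156 (L l371 (T t21 (L l78 (L l130 (T t160 N)))))))) (K a38 (M a192 (F (T t156 (L l481 (T t450 (T t21 N)))))) (K a42 (M a192 (F (T t156 (L l481 (T t450 (L l56 (T t157 N))))))) (K a46 (M a192 (F (T t156 (T t21 (L l26 (L l78 (L l130 (L l408 (T t160 N))))))))) (K a51 (M a192 (F (T t47 (L l513 (T t156 (L l415 (L l481 (T t450 N)))))))) N)))))))))))))))⟩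
def e0_63__91_71 : Ent 4 := ⟨[a0, a63], [a91, a75], (M a60 (L l131 (F (T t67 (T t43 (T t68 (T t69 (K a20 (M a48 (L l131 (F (T t64 (L l11 (L l337 (L l481 (T t1 (L l11 (T t235 (K a107 (M a123 (F (T t451 (L l337 (L l373 (T t2721 N)))))) (K a123 (M a107 (F (T t451 (L l373 (L l481 (T t1173 N)))))) N)))))))))))) (K a40 (M a48 (L l131 (F (T t64 (L l337 (L l481 (T t1 (L l52 (T t235 (K a107 (M a123 (F (T t70 (L l24 (L l337 (L l373 (T t2721 N))))))) (K a123 (M a107 (F (T t70 (L l373 (L l481 (T t1173 N)))))) N))))))))))) (K a21 (M a192 (L l131 (F (T t72 (L l65 (L l337 (L l347 (T t569 (L l347 (T t74 (K a107 (M a123 (F (T t77 (L l78 (L l347 (T t2722 N)))))) (K a123 (M a107 (F (T t2723 (L l65 (L l373 (T t2724 N)))))) N)))))))))))) (K a41 (M a192 (L l131 (F (T t79 (L l65 (T t35 (L l65 (L l337 (T t569 (K a107 (M a123 (F (T t77 (L l78 (T t2722 N))))) (K a123 (M a107 (F (T t2725 (L l65 (L l373 (T t2724 N)))))) N)))))))))))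 (K a61 (M a192 (L l131 (F (T t72 (L l65 (L l515 (T t35 (L l373 (T t80 (K a107 (M a123 (F (T t77 (L l78 (L l515 (T t2722 N)))))) (K a123 (M a107 (F (T t2723 (L l65 (L l373 (T t2724 N)))))) N))))))))))) (K a22 (M a192 (L l131 (F (T t72 (T t21 (L l337 (T t569 (K a107 (M a123 (F (T t77 (L l78 (T t2722 N))))) (K a123 (M a107 (F (T t2725 (L l373 (T t2724 N))))) N))))))))) (K a42 (M a192 (L l131 (F (T t77 (L l337 (T t569 (L l22 (T t74 (K a107 (M a123 (F (T t77 (L l78 (T t2722 N))))) (K a123 (M a107 (F (T t2725 (L l373 (T t2724 N))))) N)))))))))) (K a62 (M a192 (L l131 (F (T t72 (T t35 (L l66 (L l373 (L l516 (T t80 (K a107 (M a123 (F (T t77 (L l78 (T t2722 N))))) (K a123 (M a107 (F (T t2725 (L l66 (L l373 (T t1174 N)))))) N))))))))))) (K a3 (M a16 (L l131 (F (T t112 (L l9 (T t1140 (T t1141 (K a107 (M a123 (F (T t2447 (L l133 (L l453 (T t2726 N)))))) (K a123 (M a107 (F (T t2447 (L l309 (L l373 (T t2727 N)))))) N)))))))))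 (K a107 (M a123 (F (T t43 (L l133 (T t2726 (L l133 (T t2728 (K a61 (M a64 (F (T t465 (T t2729 N)))) N)))))))) (K a123 (M a107 (F (T t43 (L l373 (T t2727 (L l133 (L l373 (T t1159 N)))))))) N))))))))))))))))))⟩
def e0_63__91_72 : Ent 4 := ⟨[a0, a63], [a91, a76], (M a149 (F (T t25 (T t175 (T t176 (L l80 (T t177 (K a192 (M a53 (F (T t178 (L l236 (T t179 (L l236 (L l296 (T t180 N)))))))) (K a21 (M a48 (F (T t4 (L l146 (T t13 (L l18 (T t14 N))))))) (K a85 (M a16 (F (L l455 (T t112 (L l144 (T t190 (L l88 (L l94 (T t278 N))))))))) (K a213 (Fr a106 a192 l519 (Fr a42 a21 l68 (Fr a170 a234 l390 (Fr a255 a85 l476 (V t582))))) (K a42 (M a48 (F (T t187 (L l146 (L l390 (T t13 (L l54 (T t14 N)))))))) (K a106 (M a48 (F (T t48 (L l498 (T t14 (L l390 (L l498 (T t6 (L l390 (T t26 N)))))))))) (K a170 (M a48 (F (T t4 (L l462 (L l481 (T t1 (L l146 (L l390 (T t13 N))))))))) (K a191 (M a16 (F (T t112 (T t190 (L l213 (T t191 N))))))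 (K a255 (M a16 (F (T t112 (L l266 (T t190 (L l289 (L l296 (T t191 N)))))))) N))))))))))))))))⟩
def e0_63__91_73 : Ent 4 := ⟨[a0, a63], [a91, a77], (M a85 (F (T t88 (T t52 (T t89 (T t90 (K a64 (M a240 (F (T t933 (L l93 (T t387 N))))) (K a192 (M a16 (F (T t112 (L l81 (L l147 (T t96 (L l296 (T t98 N)))))))) (K a21 (M a48 (F (T t99 (T t50 (L l47 (T t100 N)))))) (K a149 (M a16 (F (T t112 (L l81 (L l326 (T t173 (L l93 (L l170 (T t102 N))))))))) (K a213 (Fr a170 a255 l476 (Fr a42 a21 l68 (Fr a106 a234 l390 (Fr a192 a149 l519 (V t581))))) (K a42 (M a48 (F (T t364 (L l390 (T t50 (L l28 (T t100 N))))))) (K a106 (M a48 (F (T t99 (L l481 (T t1 (L l390 (T t50 N))))))) (K a170 (M a16 (F (L l404 (T t113 (L l390 (T t98 (L l373 (L l390 (L l404 (L l481 (T t97 (L l326 (L l404 (T t174 N)))))))))))))) (K a255 (M a16 (F (T t112 (L l289 (T t113 (L l289 (L l296 (T t98 N)))))))) N)))))))))))))))⟩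
def e0_63__91_74 : Ent 4 := ⟨[a0, a63], [a91, a78], (M a85 (F (T t88 (T t52 (T t89 (T t90 (K a64 (M a240 (F (T t386 (L l93 (T t387 N))))) (K a192 (M a16 (F (T t96 (L l327 (L l339 (L l373 (L l481 (T t97 (L l296 (T t98 N)))))))))) (K a21 (M a48 (F (T t99 (T t50 (L l47 (T t100 N)))))) (K a149 (M a16 (F (T t173 (L l327 (L l373 (L l375 (L l481 (T t97 (L l93 (L l170 (T t102 N))))))))))) (K a213 (Fr a170 a255 l476 (Fr a42 a21 l68 (Fr a106 a234 l390 (Fr a192 a149 l519 (V t581))))) (K a42 (M a48 (F (T t364 (L l390 (T t50 (L l28 (T t100 N))))))) (K a106 (M a48 (F (T t99 (L l327 (L l481 (T t1 (L l390 (T t50 N)))))))) (K a170 (M a16 (F (L l404 (T t113 (L l390 (T t98 (L l327 (L l373 (L l390 (L l404 (L l481 (T t97 (L l404 (T t174 N)))))))))))))) (K a255 (M a16 (F (T t112 (L l289 (T t113 (L l289 (L l296 (T t98 N)))))))) N)))))))))))))))⟩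
def e0_63__91_75 : Ent 4 := ⟨[a0, a63], [a91, a79], (M a149 (L l149 (F (T t25 (T t175 (T t176 (L l84 (T t177 (K a192 (M a53 (L l149 (F (T t178 (L l236 (T t179 (L l84 (L l236 (L l296 (T t180 (K a115 (M a103 (F (T t178 (L l232 (L l236 (T t2939 N)))))) (K a103 (M a115 (F (T t178 (L l236 (L l403 (T t179 (L l84 (L l236 (L l296 (T t180 N)))))))))) N)))))))))))) (K a21 (M a195 (L l149 (F (L l131 (T t1750 (T t1114 (L l131 (T t1115 (K a115 (M a103 (F (T t1114 (L l50 (L l131 (L l415 (T t2940 N))))))) (K a103 (M a115 (F (L l65 (T t1271 (L l103 (L l131 (T t1115 (T t1114 N)))))))) N)))))))))) (K a85 (M a53 (L l149 (F (T t2941 (L l455 (T t178 (L l123 (L l151 (T t2942 (K a115 (M a103 (F (T t2939 (L l325 (L l455 (L l481 (T t982 N))))))) (K a103 (M a115 (F (T t2943 (L l373 (T t939 (L l97 (L l123 (L l151 (T t2942 N))))))))) N))))))))))) (K a213 (Fr a106 a192 l519 (Fr a42 a21 l68 (Fr a170 a234 l390 (Fr a255 a85 l476 (V t582)))))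 (K a42 (M a51 (L l149 (F (T t2944 (L l390 (L l481 (T t2945 (L l56 (T t2011 (K a115 (M a103 (F (L l56 (T t2011 (L l355 (T t2946 N)))))) (K a103 (M a115 (F (L l84 (T t2947 (L l56 (T t2948 (L l137 (T t2949 N)))))))) N))))))))))) (K a106 (M a51 (L l149 (F (T t592 (L l501 (T t2011 (L l390 (T t2950 (L l390 (L l501 (T t2012 (K a115 (M a103 (F (T t592 (L l325 (L l373 (T t2951 (L l390 (T t2950 N)))))))) (K a103 (M a115 (F (T t2952 (L l125 (L l390 (L l501 (T t2012 N))))))) N))))))))))))) (K a170 (M a48 (L l149 (F (T t4 (L l462 (T t48 (L l151 (L l390 (T t13 (K a115 (M a103 (F (T t4 (L l462 (T t48 (L l106 (L l151 (L l390 (T t13 N))))))))) (K a103 (M a115 (F (T t4 (L l462 (T t48 (L l151 (L l390 (T t13 N)))))))) N))))))))))) (K a191 (M a240 (L l149 (F (T t962 (T t963 (K a115 (M a103 (F (T t962 (T t963 N)))) (K a103 (M a115 (F (T t962 (T t963 N)))) N))))))) (K a255 (M a53 (L l149 (F (T t2953 (T t178 (L l84 (L l296 (T t180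 (K a115 (M a103 (F (T t178 (T t2939 N)))) (K a103 (M a115 (F (T t2953 (L l373 (T t939 (L l84 (L l296 (T t180 N)))))))) N)))))))))) (K a115 (M a103 (F (T t25 (T t175 (T t176 (L l84 (L l120 (T t177 (K a192 (M a17 (F (L l355 (T t2954 (L l120 (L l296 (T t2955 N))))))) (K a21 (M a144 (F (L l106 (L l151 (T t994 (L l50 (L l137 (L l415 (T t2956 N))))))))) (K a85 (M a53 (F (T t2939 (L l325 (L l455 (L l481 (T t982 N))))))) (K a213 (Fr a106 a192 l519 (Fr a42 a21 l68 (Fr a170 a234 l390 (Fr a255 a85 l476 (V t582))))) (K a42 (M a144 (F (L l137 (L l415 (T t2956 (L l106 (L l151 (L l390 (T t994 N))))))))) (K a106 (M a101 (F (T t2957 (L l137 (L l390 (T t2958 N)))))) (K a170 (M a148 (F (L l131 (L l137 (L l218 (T t2959 (L l115 (L l139 (L l174 (L l390 (T t1767 N))))))))))) (K a191 (M a144 (F (L l106 (L l151 (T t994 (L l137 (L l415 (T t2956 N)))))))) (K a255 (M a148 (F (L l131 (L l137 (T t2959 (L l115 (L l139 (L l434 (T t1767 N)))))))))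 N))))))))))))))))) (K a103 (M a115 (F (T t25 (L l131 (T t2960 (L l131 (T t2961 (K a106 (M a17 (F (L l390 (T t2955 (L l463 (L l493 (T t2962 N))))))) N)))))))) N)))))))))))))))))))⟩
def e0_63__91_76 : Ent 4 := ⟨[a0, a63], [a91, a80], (M a12 (F (T t122 (T t151 (T t152 (T t153 (K a4 (M a60 (F (T t43 (L l481 (T t398 (T t448 N)))))) (K a8 (M a60 (F (T t67 (L l481 (T t398 (L l52 (L l56 (T t448 N)))))))) (K a21 (M a192 (F (T t468 (L l15 (L l347 (L l481 (T t450 (L l15 (L l347 (T t157 N)))))))))) (K a25 (M a192 (F (T t449 (L l15 (L l481 (T t450 (T t21 N))))))) (K a29 (M a192 (F (T t449 (L l371 (T t21 (T t160 N)))))) (K a38 (M a192 (F (T t156 (L l481 (T t450 (T t21 N)))))) (K a42 (M a192 (F (T t449 (L l481 (T t450 (L l56 (T t157 N))))))) (K a46 (M a192 (F (T t449 (T t21 (L l26 (L l408 (T t160 N))))))) (K a51 (M a192 (F (T t57 (L l513 (T t156 (L l415 (L l481 (T t450 N)))))))) N)))))))))))))))⟩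
def e0_63__91_77 : Ent 4 := ⟨[a0, a63], [a91, a81], (M a12 (F (T t122 (L l341 (T t151 (T t152 (T t153 (K a4 (M a60 (F (T t43 (L l481 (T t398 (L l341 (T t448 N))))))) (K a8 (M a60 (F (T t68 (L l481 (T t398 (L l52 (L l56 (L l341 (T t448 N))))))))) (K a21 (M a192 (F (T t468 (L l15 (L l347 (L l481 (T t450 (L l15 (L l347 (T t157 N)))))))))) (K a25 (M a192 (F (T t449 (L l15 (L l481 (T t450 (T t21 N))))))) (K a29 (M a192 (F (T t449 (L l371 (T t21 (T t160 N)))))) (K a38 (M a192 (F (T t468 (L l481 (T t450 (T t21 N)))))) (K a42 (M a192 (F (T t449 (L l481 (T t450 (L l56 (T t157 N))))))) (K a46 (M a192 (F (T t449 (T t21 (L l26 (L l408 (T t160 N))))))) (K a51 (M a192 (F (T t57 (L l513 (T t156 (L l415 (L l481 (T t450 N)))))))) N))))))))))))))))⟩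
def e0_63__91_78 : Ent 4 := ⟨[a0, a63], [a91, a82], (M a85 (F (T t88 (T t52 (T t89 (T t90 (K a64 (M a240 (F (T t386 (L l93 (L l345 (T t387 N)))))) (K a192 (M a16 (F (T t96 (L l339 (L l373 (L l481 (T t97 (L l86 (L l296 (T t98 N)))))))))) (K a21 (M a48 (F (T t99 (L l453 (T t50 (L l47 (T t100 N))))))) (K a149 (M a16 (F (T t173 (L l373 (L l375 (L l481 (T t97 (L l93 (L l170 (T t102 N)))))))))) (K a213 (Fr a170 a255 l476 (Fr a42 a21 l68 (Fr a106 a234 l390 (Fr a192 a149 l519 (V t581))))) (K a42 (M a48 (F (T t364 (L l390 (L l453 (T t50 (L l28 (T t100 N)))))))) (K a106 (M a48 (F (T t99 (L l481 (T t1 (L l390 (L l453 (T t50 N)))))))) (K a170 (M a16 (F (L l404 (T t113 (L l86 (L l390 (T t98 (L l373 (L l390 (L l404 (L l481 (T t97 (L l404 (T t174 N)))))))))))))) (K a255 (M a16 (F (T t112 (L l289 (T t113 (L l86 (L l289 (L l296 (T t98 N))))))))) N)))))))))))))))⟩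
def e0_63__91_79 : Ent 4 := ⟨[a0, a63], [a91, a83], (M a85 (L l93 (F (T t88 (T t52 (T t89 (T t90 (K a64 (M a87 (F (L l463 (T t1195 (L l140 (L l373 (T t923 (L l451 (T t2247 N))))))))) (K a192 (M a4 (L l93 (F (T t129 (L l86 (L l88 (L l95 (T t1399 (L l296 (T t131 (K a87 (M a95 (F (T t1604 (L l86 (L l268 (T t3008 N)))))) (K a95 (M a87 (F (T t1604 (L l481 (T t2253 N))))) N)))))))))))) (K a21 (M a12 (L l93 (F (T t1368 (T t124 (L l15 (T t574 (K a87 (M a95 (F (T t3662 (L l15 (L l143 (L l457 (T t574 N))))))) (K a95 (M a87 (F (L l463 (T t1198 (L l15 (L l137 (T t574 N))))))) N))))))))) (K a149 (M a4 (L l93 (F (T t129 (L l86 (L l451 (L l481 (T t1371 (L l131 (L l202 (T t1372 (K a87 (M a95 (F (T t129 (L l86 (L l220 (T t3008 N)))))) (K a95 (M a87 (F (T t129 (L l202 (L l481 (T t2253 N)))))) N))))))))))))) (K a213 (Fr a170 a255 l476 (Fr a42 a21 l68 (Fr a106 a234 l390 (Fr a192 a149 l519 (V t581))))) (K a42 (M a48 (L l93 (F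 (T t364 (L l390 (T t50 (L l28 (T t100 (K a87 (M a95 (F (L l88 (T t3665 (L l143 (L l373 (L l390 (L l481 (T t3666 N))))))))) (K a95 (M a87 (F (L l95 (T t4284 (L l137 (L l390 (T t50 N))))))) N)))))))))) (K a106 (M a16 (L l93 (F (T t173 (L l373 (L l390 (L l481 (T t97 (L l86 (L l390 (T t98 (L l498 (T t174 (K a87 (M a95 (F (L l367 (T t173 (L l86 (L l390 (T t3008 (L l86 (L l498 (T t4285 N)))))))))) (K a95 (M a87 (F (L l355 (L l498 (T t2248 (L l137 (L l390 (L l451 (T t2247 N))))))))) N))))))))))))))) (K a170 (M a16 (L l93 (F (L l404 (T t113 (L l86 (L l390 (T t98 (L l373 (L l390 (L l404 (L l481 (T t97 (L l404 (T t174 (K a87 (M a95 (F (L l206 (T t4286 (L l373 (L l390 (L l404 (L l481 (T t97 (L l143 (L l367 (L l404 (T t113 N))))))))))))) (K a95 (M a87 (F (L l206 (L l355 (T t2248 (L l390 (L l404 (T t112 N)))))))) N))))))))))))))))) (K a255 (M a3 (L l93 (F (T t85 (L l261 (T t376 (L l261 (L l296 (T t357 (L l296 (T t2254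 (K a87 (M a95 (F (T t1341 (L l86 (L l296 (T t2878 (L l143 (L l261 (L l349 (T t376 N)))))))))) (K a95 (M a87 (L l469 (F (T t2255 (L l434 (T t137 (L l296 (T t2256 (K a15 (M a175 (L l481 (F (T t2255 (L l63 (L l434 (T t358 (L l296 (L l339 (T t2256 (K a243 (M a167 (L l265 (F (T t2255 (L l137 (L l271 (L l295 (T t3670 (K a247 (M a251 (F (T t2255 (L l137 (L l271 (L l295 (T t3670 N))))))) (K a251 (Fr a247 a7 l457 (V t2255)) N)))))))))) (K a167 (M a243 (F (T t2255 (L l89 (L l131 (L l296 (L l470 (T t4179 N)))))))) N)))))))))))) (K a175 (M a15 (F (T t2255 (L l440 (T t716 N))))) N)))))))))) N))))))))))))) (K a87 (M a95 (F (T t89 (L l86 (T t3008 (L l86 (T t2878 N))))))) (K a95 (M a87 (F (T t89 (L l463 (T t1198 (L l373 (T t923 N))))))) N))))))))))))))))))⟩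
def e0_63__91_80 : Ent 4 := ⟨[a0, a63], [a91, a84], (M a85 (F (T t52 (L l140 (T t88 (L l140 (T t89 (L l140 (T t90 (K a64 (M a240 (L l140 (F (T t386 (L l93 (T t387 (K a104 (M a124 (F (T t1551 (T t933 (L l481 (T t3653 N)))))) (K a124 (M a104 (F (T t933 (L l93 (T t387 N))))) N)))))))) (K a192 (M a16 (F (T t96 (L l339 (L l373 (L l481 (T t97 (L l90 (L l296 (T t98 N)))))))))) (K a21 (M a48 (F (T t99 (T t50 (L l47 (T t100 N)))))) (K a149 (M a16 (F (T t173 (L l373 (L l375 (L l481 (T t97 (L l93 (L l170 (T t102 N)))))))))) (K a213 (Fr a170 a255 l476 (Fr a42 a21 l68 (Fr a106 a234 l390 (Fr a192 a149 l519 (V t581))))) (K a42 (M a48 (F (L l28 (T t99 (L l390 (T t50 (L l28 (T t100 N)))))))) (K a106 (M a48 (F (T t99 (L l481 (T t1 (L l390 (T t50 N))))))) (K a170 (M a16 (F (L l404 (T t113 (L l90 (L l390 (T t98 (L l373 (L l390 (L l404 (L l481 (T t97 (L l404 (T t174 N)))))))))))))) (K a255 (M a16 (F (T t112 (L l289 (T t113 (L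 l90 (L l289 (L l296 (T t98 N))))))))) N))))))))))))))))))⟩
def e0_63__91_81 : Ent 4 := ⟨[a0, a63], [a91, a85], (M a12 (F (T t153 (L l347 (T t122 (L l365 (T t151 (L l347 (L l458 (T t152 (K a4 (M a60 (L l458 (F (T t43 (L l481 (T t398 (L l365 (T t448 (K a166 (M a247 (F (T t43 (L l408 (L l481 (T t680 (L l365 (L l408 (T t448 N))))))))) (K a247 (M a166 (F (T t43 (L l310 (T t2470 N))))) N)))))))))) (K a8 (M a60 (F (T t570 (L l347 (L l350 (T t67 (L l52 (L l56 (L l365 (T t448 N)))))))))) (K a21 (M a149 (F (T t958 (L l144 (T t648 (L l50 (L l91 (L l144 (L l458 (L l463 (T t2471 (L l50 (L l91 (L l458 (L l463 (L l481 (T t2472 N))))))))))))))))) (K a25 (M a192 (F (T t156 (L l15 (L l347 (L l481 (T t450 (L l144 (L l458 (L l463 (T t2473 N))))))))))) (K a29 (M a48 (F (T t1580 (L l15 (L l347 (L l481 (T t1 (L l455 (T t866 N))))))))) (K a38 (M a192 (F (T t468 (L l347 (L l481 (T t450 (L l26 (L l50 (L l144 (L l458 (L l463 (T t2473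 N)))))))))))) (K a42 (M a192 (F (T t156 (L l347 (L l481 (T t450 (L l26 (L l144 (L l390 (L l458 (L l463 (T t2473 N)))))))))))) (K a46 (M a48 (F (T t443 (L l347 (L l481 (T t1 (L l26 (L l455 (T t866 N))))))))) (K a51 (M a192 (F (L l513 (T t468 (L l347 (L l415 (L l481 (T t450 (L l144 (L l458 (L l463 (T t2473 N)))))))))))) N)))))))))))))))))))⟩
def e0_63__91_82 : Ent 4 := ⟨[a0, a63], [a91, a86], (M a12 (F (T t122 (T t151 (T t152 (T t153 (K a4 (M a60 (F (T t662 (L l481 (T t398 (L l351 (T t448 N))))))) (K a8 (M a60 (F (T t570 (L l477 (T t67 (L l52 (L l56 (L l351 (T t448 N))))))))) (K a21 (M a192 (F (T t836 (L l15 (L l347 (L l351 (L l481 (T t450 (L l15 (L l347 (L l351 (T t157 N)))))))))))) (K a25 (M a192 (F (T t449 (L l15 (L l351 (L l481 (T t450 (L l351 (T t21 N))))))))) (K a29 (M a192 (F (T t449 (L l351 (L l371 (T t21 (L l142 (T t160 N)))))))) (K a38 (M a192 (F (T t156 (L l351 (L l481 (T t450 (L l351 (T t21 N))))))))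 (K a42 (M a192 (F (T t449 (L l351 (L l481 (T t450 (L l56 (L l351 (T t157 N))))))))) (K a46 (M a192 (F (T t449 (L l351 (T t21 (L l26 (L l142 (L l408 (T t160 N))))))))) (K a51 (M a192 (F (T t1725 (L l351 (L l415 (L l481 (T t450 (L l351 (L l439 (T t21 N)))))))))) N)))))))))))))))⟩
def e0_63__91_83 : Ent 4 := ⟨[a0, a63], [a91, a87], (M a85 (L l93 (F (T t88 (L l143 (L l475 (T t52 (T t89 (T t90 (K a64 (M a95 (F (T t3662 (L l116 (T t2878 (L l143 (L l481 (T t3663 N)))))))) (K a192 (M a1 (L l93 (F (T t2828 (L l514 (T t534 (L l296 (T t1500 (K a83 (M a95 (F (T t1501 (L l86 (L l268 (T t3008 N)))))) (K a95 (M a83 (F (T t3333 (L l296 (T t1500 N))))) N)))))))))) (K a21 (M a243 (L l93 (F (T t3593 (L l131 (L l143 (T t2088 (L l143 (T t3594 (K a83 (M a95 (F (T t3662 (L l143 (T t3594 N))))) (K a95 (M a83 (F (T t3664 (L l131 (L l137 (L l143 (T t2088 N))))))) N))))))))))) (K a149 (M a1 (L l93 (F (T t538 (L l351 (T t2828 (L l217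 (T t2807 (K a83 (M a95 (F (T t538 (L l86 (L l220 (T t3008 N)))))) (K a95 (M a83 (F (T t3333 (L l217 (T t2807 N))))) N)))))))))) (K a213 (Fr a170 a255 l476 (Fr a42 a21 l68 (Fr a106 a234 l390 (Fr a192 a149 l519 (V t581))))) (K a42 (M a48 (L l93 (F (L l475 (T t364 (L l143 (L l390 (T t50 (L l28 (L l143 (L l367 (T t100 (K a83 (M a95 (F (L l88 (T t3665 (L l143 (L l373 (L l390 (L l481 (T t3666 N))))))))) (K a95 (M a83 (F (L l469 (L l475 (T t365 (L l137 (L l143 (L l390 (T t50 (L l28 (L l137 (L l143 (L l361 (L l367 (T t100 N))))))))))))))) N)))))))))))))) (K a106 (M a48 (L l93 (F (T t48 (L l104 (L l367 (T t509 (L l143 (L l390 (T t50 (K a83 (M a95 (F (T t48 (L l104 (L l367 (L l475 (T t360 (L l86 (L l390 (T t3008 N)))))))))) (K a95 (M a83 (F (T t48 (L l361 (L l367 (T t1699 (L l137 (L l143 (L l390 (T t50 N)))))))))) N)))))))))))) (K a170 (M a1 (L l93 (F (L l390 (L l474 (T t534 (L l390 (T t1500 (L l143 (L l349 (L l474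 (T t263 (L l474 (T t3667 (K a83 (M a95 (F (L l390 (L l474 (T t534 (L l86 (L l390 (T t2878 (L l143 (L l349 (L l474 (T t263 (L l474 (T t3667 N)))))))))))))) (K a95 (M a83 (F (L l178 (L l474 (T t3333 (L l390 (T t1500 N))))))) N)))))))))))))))) (K a255 (M a3 (L l93 (F (T t85 (L l143 (L l261 (L l349 (T t376 (L l261 (L l296 (T t357 (L l261 (L l296 (T t1921 (K a83 (M a95 (F (T t1341 (L l86 (L l296 (T t2878 (L l143 (L l261 (L l349 (T t376 N)))))))))) (K a95 (M a83 (L l469 (F (T t85 (L l266 (T t3371 (L l89 (L l296 (L l470 (T t3668 (K a15 (M a175 (L l481 (F (T t3669 (L l63 (L l434 (T t358 (L l89 (L l296 (L l470 (T t3668 (K a243 (M a167 (L l265 (F (L l296 (T t3611 (L l137 (L l271 (L l295 (L l349 (T t3670 (K a247 (M a251 (F (L l261 (T t2226 (L l137 (L l271 (L l295 (L l349 (T t3670 N))))))))) (K a251 (M a247 (L l463 (F (T t1341 (L l471 (T t3671 (K a11 (Fr a171 a163 l179 (V t4178)) (K a171 (M a11 (F (L l391 (T t1341 (L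 l73 (L l415 (L l439 (L l464 (L l482 (T t3599 (L l137 (L l143 (L l261 (L l349 (T t376 N))))))))))))))) N)))))))) N)))))))))))) (K a167 (Fr a243 a163 l451 (V t3673)) N))))))))))))) (K a175 (M a15 (F (T t85 (L l137 (L l143 (L l266 (L l361 (L l373 (T t1497 N))))))))) N)))))))))))) N)))))))))))))))) (K a83 (M a95 (F (T t89 (L l86 (T t3008 (L l86 (T t2878 N))))))) (K a95 (M a83 (F (T t88 (L l137 (L l143 (L l469 (L l475 (T t52 (T t89 (T t90 (K a64 (M a204 (F (T t1575 (L l125 (T t1576 N))))) (K a192 (M a1 (F (T t3333 (L l296 (T t1500 N))))) (K a21 (M a93 (F (L l88 (T t3674 (L l15 (L l137 (L l143 (T t3675 N)))))))) (K a149 (M a1 (F (T t3333 (L l217 (T t2807 N))))) (K a213 (Fr a170 a255 l476 (Fr a42 a21 l68 (Fr a106 a234 l390 (Fr a192 a149 l519 (V t581))))) (K a42 (M a93 (F (L l88 (T t3674 (L l137 (L l143 (L l390 (T t3675 N)))))))) (K a106 (M a1 (F (T t3333 (L l390 (T t1500 N))))) (K a170 (M a1 (F (L l178 (L l474 (T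 t3333 (L l390 (T t1500 N))))))) (K a255 (M a15 (L l475 (F (T t1783 (L l137 (L l143 (L l266 (L l361 (L l373 (T t1497 (L l88 (L l266 (T t3676 (L l266 (L l296 (T t1926 (K a3 (M a171 (F (T t1254 (L l137 (L l143 (L l266 (L l361 (L l373 (T t1497 (L l296 (T t3677 (L l266 (L l296 (L l453 (T t1926 N))))))))))))))) (K a171 (M a3 (L l463 (F (T t1254 (L l179 (L l266 (T t3371 (K a11 (M a251 (F (L l434 (T t665 (L l2 (L l137 (L l143 (L l266 (L l361 (L l373 (T t1497 N))))))))))) (K a251 (Fr a11 a7 l7 (V t3678)) N))))))))) N)))))))))))))))))) N))))))))))))))))))) N))))))))))))))))))))⟩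
def e0_63__91_84 : Ent 4 := ⟨[a0, a63], [a91, a88], (M a149 (L l88 (F (T t5 (T t175 (T t176 (T t177 (K a192 (M a89 (F (L l131 (L l296 (T t2699 (L l272 (L l463 (T t1956 (L l272 (L l460 (T t1958 (L l272 (L l296 (T t1955 (L l296 (T t4287 N)))))))))))))))) (K a21 (M a204 (L l88 (F (T t1042 (L l146 (L l478 (T t1283 (T t1044 (K a89 (M a90 (F (T t1042 (L l47 (L l370 (T t1040 N)))))) (K a90 (M a89 (F (L l480 (T t4288 (T t1044 N))))) N)))))))))) (K a85 (M a29 (L l88 (F (L l481 (T t2986 (L l365 (T t2091 (L l144 (T t4289 (L l128 (L l458 (L l463 (T t4290 (K a89 (M a90 (L l91 (F (L l365 (T t2091 (L l370 (L l455 (L l479 (T t2784 (K a81 (M a93 (F (L l365 (T t4291 (L l370 (L l455 (L l479 (T t2784 N)))))))) (K a93 (M a81 (F (L l365 (T t2091 (L l370 (L l455 (L l479 (T t2784 N)))))))) N))))))))))) (K a90 (Fr a89 a209 l371 (V t4292)) N))))))))))))))) (K a213 (Fr a106 a192 l519 (Fr a42 a21 l68 (Fr a170 a234 l390 (Fr a255 a85 l476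 (V t582))))) (K a42 (M a48 (L l88 (F (T t187 (L l146 (L l390 (L l478 (T t13 (L l54 (T t14 (K a89 (M a90 (F (T t11 (L l28 (L l370 (T t1040 N)))))) (K a90 (M a89 (F (T t11 (L l26 (L l463 (T t1956 N)))))) N)))))))))))) (K a106 (M a89 (F (L l131 (L l390 (T t2699 (L l408 (L l463 (T t1956 (L l390 (T t1955 (L l390 (L l408 (L l460 (T t1958 (L l408 (L l460 (L l481 (T t1959 N)))))))))))))))))) (K a170 (M a89 (F (L l178 (T t4288 (L l390 (T t1955 (L l178 (L l390 (T t4293 (L l460 (L l481 (T t1959 N)))))))))))) (K a191 (M a89 (F (T t4294 (L l214 (T t1955 (L l189 (T t4293 N))))))) (K a255 (M a89 (F (T t4288 (L l296 (T t1955 (L l296 (L l470 (T t4293 (L l460 (T t1958 N)))))))))) (K a89 (M a90 (F (T t175 (L l370 (L l479 (T t2784 (L l370 (T t1040 N)))))))) (K a90 (M a89 (F (T t5 (L l130 (L l131 (T t4295 (L l463 (T t1956 N)))))))) N))))))))))))))))))⟩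
def e0_63__91_85 : Ent 4 := ⟨[a0, a63], [a91, a89], (M a60 (L l88 (F (T t67 (T t43 (T t68 (T t69 (K a20 (M a12 (L l88 (F (T t151 (L l371 (L l481 (T t398 (L l11 (L l46 (T t399 (K a88 (M a90 (F (T t151 (L l479 (L l481 (T t680 (L l11 (L l46 (T t399 N))))))))) (K a90 (M a88 (F (T t151 (L l132 (L l375 (T t3942 N)))))) N)))))))))))) (K a40 (M a12 (L l88 (F (T t152 (L l371 (L l481 (T t398 (L l24 (T t399 (K a88 (M a90 (F (T t152 (L l479 (L l481 (T t680 (L l24 (T t399 N)))))))) (K a90 (M a88 (F (T t152 (L l24 (L l132 (L l375 (L l388 (T t3942 N)))))))) N))))))))))) (K a21 (M a192 (L l88 (F (T t72 (L l131 (L l347 (L l371 (T t73 (L l347 (L l371 (T t74 (K a88 (M a90 (F (L l128 (T t72 (L l347 (L l371 (L l481 (T t3378 N)))))))) (K a90 (M a88 (F (T t72 (L l130 (L l132 (T t1516 (L l347 (L l371 (L l375 (T t74 N)))))))))) N))))))))))))) (K a41 (M a192 (L l88 (F (T t79 (L l65 (L l371 (T t35 (L l131 (L l371 (T t73 (K a88 (M a90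 (F (L l370 (T t77 (L l371 (L l478 (T t4296 N))))))) (K a90 (M a88 (F (T t79 (L l130 (L l132 (T t1516 (L l371 (L l375 (T t21 N))))))))) N)))))))))))) (K a61 (M a16 (L l88 (F (T t112 (L l374 (L l482 (T t1140 (L l59 (L l356 (L l371 (T t1141 (K a88 (M a90 (F (T t2447 (L l371 (L l515 (T t4297 N)))))) (K a90 (M a88 (F (T t112 (L l356 (T t3947 N))))) N))))))))))))) (K a22 (M a16 (L l88 (F (T t2447 (L l66 (L l373 (L l481 (T t97 (L l16 (L l66 (L l356 (L l371 (T t1141 (K a88 (M a90 (F (T t2447 (L l16 (L l66 (L l371 (T t4297 N))))))) (K a90 (M a88 (F (L l66 (T t112 (L l356 (T t3947 N)))))) N))))))))))))))) (K a42 (M a192 (L l88 (F (T t77 (L l131 (L l371 (T t73 (L l22 (L l371 (T t74 (K a88 (M a90 (F (L l370 (T t77 (L l371 (L l478 (T t4296 N))))))) (K a90 (M a88 (F (T t79 (L l66 (L l130 (L l132 (L l390 (T t1516 (L l22 (L l371 (L l375 (T t74 N)))))))))))) N)))))))))))) (K a62 (M a16 (L l88 (F (T t2447 (L l66 (L l373 (L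 l481 (T t97 (L l66 (L l356 (L l371 (T t1141 (K a88 (M a90 (F (T t2447 (L l66 (L l371 (T t4297 N)))))) (K a90 (M a88 (F (L l36 (L l66 (T t112 (L l356 (T t3947 N))))))) N)))))))))))))) (K a3 (M a16 (L l88 (F (T t112 (L l9 (L l374 (L l482 (T t1140 (L l356 (L l371 (T t1141 (K a88 (M a90 (F (T t2447 (L l371 (T t4297 N))))) (K a90 (M a88 (F (T t112 (L l356 (T t3947 N))))) N))))))))))))) (K a88 (M a90 (F (T t67 (T t43 (T t68 (T t69 (K a20 (M a80 (F (T t4298 (L l93 (L l464 (T t2976 N)))))) (K a40 (M a80 (F (T t4298 (L l93 (L l392 (L l464 (T t2976 N))))))) (K a21 (M a192 (F (L l128 (T t72 (L l347 (L l371 (L l481 (T t3378 N)))))))) (K a41 (M a192 (F (L l370 (T t77 (L l371 (L l478 (T t4296 N))))))) (K a61 (M a192 (F (L l128 (T t72 (L l371 (L l443 (L l481 (L l515 (T t3378 N))))))))) (K a22 (M a192 (F (L l128 (T t72 (L l371 (L l481 (T t3378 N))))))) (K a42 (M a192 (F (L l370 (T t77 (L l371 (L l478 (T t4296 N))))))) (K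 a62 (M a192 (F (L l128 (T t72 (L l371 (L l481 (T t3378 N))))))) (K a3 (M a192 (F (L l370 (T t1334 (L l371 (L l453 (L l478 (T t4296 N)))))))) N))))))))))))))) (K a90 (M a88 (F (T t67 (T t43 (T t68 (T t69 (K a20 (M a192 (F (L l371 (L l375 (T t21 (L l14 (L l133 (L l346 (L l374 (T t3951 N)))))))))) (K a40 (M a192 (F (L l371 (L l375 (T t21 (L l133 (L l374 (T t3951 N)))))))) (K a21 (M a80 (F (L l95 (T t3952 (L l131 (L l132 (L l481 (L l482 (T t2977 N))))))))) (K a41 (M a240 (F (L l465 (T t3953 (L l65 (L l131 (L l132 (T t3954 N)))))))) (K a61 (M a16 (F (T t112 (L l356 (T t3947 N))))) (K a22 (M a16 (F (L l66 (T t112 (L l356 (T t3947 N)))))) (K a42 (M a240 (F (L l95 (T t3955 (L l131 (L l132 (T t3954 N))))))) (K a62 (M a16 (F (L l36 (L l66 (T t112 (L l356 (T t3947 N))))))) (K a3 (M a16 (F (T t112 (L l356 (T t3947 N))))) N))))))))))))))) N))))))))))))))))))⟩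
def e0_63__91_86 : Ent 4 := ⟨[a0, a63], [a91, a90], (M a60 (L l88 (F (T t67 (T t43 (T t68 (T t69 (K a20 (M a12 (L l88 (F (T t151 (L l480 (L l481 (L l483 (T t398 (L l11 (L l46 (T t399 (K a88 (M a89 (F (T t151 (L l373 (L l480 (T t3941 N)))))) (K a89 (M a88 (F (T t151 (L l132 (L l375 (T t3942 N)))))) N))))))))))))) (K a40 (M a12 (L l88 (F (T t122 (L l480 (L l481 (L l483 (T t398 (L l24 (T t399 (K a88 (M a89 (F (T t122 (L l24 (L l373 (L l480 (T t3941 N))))))) (K a89 (M a88 (F (T t152 (L l24 (L l132 (L l375 (L l388 (T t3942 N)))))))) N)))))))))))) (K a21 (M a192 (L l88 (F (T t72 (L l131 (L l347 (L l375 (T t73 (L l347 (L l375 (T t74 (K a88 (M a89 (F (L l128 (T t72 (L l15 (L l130 (L l478 (T t3943 N)))))))) (K a89 (M a88 (F (T t72 (L l130 (L l132 (T t1516 (L l347 (L l371 (L l375 (T t74 N)))))))))) N))))))))))))) (K a41 (M a8 (L l88 (F (T t454 (L l65 (T t414 (L l53 (L l65 (T t415 (K a88 (M a89 (F (L l65 (T t414 (L l94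 (L l463 (T t3944 N))))))) (K a89 (M a88 (F (L l65 (T t414 (L l465 (T t3945 N)))))) N))))))))))) (K a61 (M a16 (L l88 (F (T t1140 (L l373 (L l375 (L l481 (L l483 (T t97 (L l59 (L l354 (T t1141 (K a88 (M a89 (F (T t112 (L l352 (L l372 (T t3946 N)))))) (K a89 (M a88 (F (T t112 (L l356 (T t3947 N))))) N)))))))))))))) (K a22 (M a16 (L l88 (F (T t2447 (L l66 (L l373 (L l375 (L l481 (L l483 (T t97 (L l16 (L l66 (L l354 (T t1141 (K a88 (M a89 (F (L l66 (T t112 (L l348 (L l352 (L l372 (T t3946 N)))))))) (K a89 (M a88 (F (L l66 (T t112 (L l356 (T t3947 N)))))) N)))))))))))))))) (K a42 (M a192 (L l88 (F (T t77 (L l131 (L l375 (T t73 (L l22 (L l375 (T t74 (K a88 (M a89 (F (L l370 (T t77 (L l26 (L l130 (L l390 (L l481 (T t3948 N))))))))) (K a89 (M a88 (F (T t79 (L l66 (L l130 (L l132 (L l390 (T t1516 (L l22 (L l371 (L l375 (T t74 N)))))))))))) N)))))))))))) (K a62 (M a16 (L l88 (F (T t1140 (L l66 (L l373 (L l375 (L l481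 (L l483 (T t97 (L l66 (L l354 (T t1141 (K a88 (M a89 (F (L l36 (L l66 (T t112 (L l352 (L l372 (L l516 (T t3946 N))))))))) (K a89 (M a88 (F (L l36 (L l66 (T t112 (L l356 (T t3947 N))))))) N))))))))))))))) (K a3 (M a16 (L l88 (F (T t112 (L l9 (T t1140 (L l354 (T t1141 (K a88 (M a89 (F (T t112 (L l352 (L l372 (T t3946 N)))))) (K a89 (M a88 (F (T t112 (L l356 (T t3947 N))))) N)))))))))) (K a88 (M a89 (F (T t67 (T t43 (T t68 (T t69 (K a20 (M a8 (F (L l46 (T t3949 (L l94 (L l350 (L l463 (T t3950 N)))))))) (K a40 (M a12 (F (T t122 (L l24 (L l373 (L l480 (T t3941 N))))))) (K a21 (M a192 (F (L l128 (T t72 (L l15 (L l130 (L l478 (T t3943 N)))))))) (K a41 (M a192 (F (L l370 (T t77 (L l130 (L l481 (T t3948 N))))))) (K a61 (M a192 (F (L l128 (T t72 (L l59 (L l130 (L l478 (T t3943 N)))))))) (K a22 (M a192 (F (L l128 (T t72 (L l130 (L l478 (T t3943 N))))))) (K a42 (M a192 (F (L l370 (T t77 (L l26 (L l130 (L l390 (L l481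 (T t3948 N))))))))) (K a62 (M a192 (F (L l128 (T t72 (L l130 (L l478 (L l516 (T t3943 N)))))))) (K a3 (M a192 (F (L l370 (T t1334 (L l130 (L l451 (L l481 (T t3948 N)))))))) N))))))))))))))) (K a89 (M a88 (F (T t67 (T t43 (T t68 (T t69 (K a20 (M a192 (F (L l371 (L l375 (T t21 (L l14 (L l133 (L l346 (L l374 (T t3951 N)))))))))) (K a40 (M a192 (F (L l371 (L l375 (T t21 (L l133 (L l374 (T t3951 N)))))))) (K a21 (M a80 (F (L l95 (T t3952 (L l131 (L l132 (L l481 (L l482 (T t2977 N))))))))) (K a41 (M a240 (F (L l465 (T t3953 (L l65 (L l131 (L l132 (T t3954 N)))))))) (K a61 (M a16 (F (T t112 (L l356 (T t3947 N))))) (K a22 (M a16 (F (L l66 (T t112 (L l356 (T t3947 N)))))) (K a42 (M a240 (F (L l95 (T t3955 (L l131 (L l132 (T t3954 N))))))) (K a62 (M a16 (F (L l36 (L l66 (T t112 (L l356 (T t3947 N))))))) (K a3 (M a16 (F (T t112 (L l356 (T t3947 N))))) N))))))))))))))) N))))))))))))))))))⟩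
def e0_63__91_87 : Ent 4 := ⟨[a0, a63], [a91, a92], (M a85 (F (T t88 (T t52 (T t89 (T t90 (K a64 (M a240 (F (T t386 (L l89 (L l93 (T t387 N)))))) (K a192 (M a16 (F (T t96 (L l339 (L l373 (L l481 (T t97 (L l90 (L l296 (T t98 N)))))))))) (K a21 (M a48 (F (T t99 (T t50 (L l47 (T t100 N)))))) (K a149 (M a16 (F (T t173 (L l373 (L l375 (L l481 (T t97 (L l89 (L l93 (L l170 (T t102 N))))))))))) (K a213 (Fr a170 a255 l476 (Fr a42 a21 l68 (Fr a106 a234 l390 (Fr a192 a149 l519 (V t581))))) (K a42 (M a48 (F (T t364 (L l390 (T t50 (L l28 (T t100 N))))))) (K a106 (M a48 (F (T t99 (L l481 (T t1 (L l390 (T t50 N))))))) (K a170 (M a16 (F (L l404 (T t113 (L l90 (L l390 (T t98 (L l373 (L l390 (L l404 (L l481 (T t97 (L l404 (T t174 N)))))))))))))) (K a255 (M a16 (F (T t112 (L l289 (T t113 (L l90 (L l289 (L l296 (T t98 N))))))))) N)))))))))))))))⟩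
def e0_63__91_88 : Ent 4 := ⟨[a0, a63], [a91, a93], (M a85 (F (T t88 (L l138 (L l470 (T t52 (T t89 (T t90 (K a64 (M a240 (F (T t933 (L l89 (L l93 (T t387 N)))))) (K a192 (M a16 (F (T t112 (L l362 (T t96 (L l296 (L l362 (T t98 N)))))))) (K a21 (M a48 (F (T t873 (L l47 (L l138 (L l362 (T t100 (L l138 (T t50 N))))))))) (K a149 (M a16 (F (T t112 (L l362 (T t173 (L l89 (L l93 (L l170 (T t102 N))))))))) (K a213 (Fr a170 a255 l476 (Fr a42 a21 l68 (Fr a106 a234 l390 (Fr a192 a149 l519 (V t581))))) (K a42 (M a48 (F (L l470 (T t364 (L l138 (L l390 (T t50 (L l28 (L l138 (L l362 (T t100 N))))))))))) (K a106 (M a48 (F (T t48 (L l104 (L l362 (T t509 (L l138 (L l390 (T t50 N))))))))) (K a170 (M a16 (F (L l390 (L l404 (T t112 (L l362 (L l390 (T t98 (L l138 (L l362 (L l404 (T t113 (L l362 (L l404 (T t174 N))))))))))))))) (K a255 (M a12 (F (T t1252 (L l138 (L l265 (L l359 (T t574 (L l265 (L l296 (T t572 (L l265 (L l296 (L l481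 (T t1923 N)))))))))))))) N)))))))))))))))))⟩
def e0_63__91_89 : Ent 4 := ⟨[a0, a63], [a91, a94], (M a85 (F (T t88 (T t52 (T t89 (T t90 (K a64 (M a240 (F (T t386 (L l89 (L l93 (T t387 N)))))) (K a192 (M a16 (F (T t96 (L l339 (L l363 (L l373 (L l471 (L l481 (T t97 (L l296 (T t98 N))))))))))) (K a21 (M a48 (F (T t99 (T t50 (L l47 (T t100 N)))))) (K a149 (M a16 (F (T t173 (L l363 (L l373 (L l375 (L l471 (L l481 (T t97 (L l89 (L l93 (L l170 (T t102 N))))))))))))) (K a213 (Fr a170 a255 l476 (Fr a42 a21 l68 (Fr a106 a234 l390 (Fr a192 a149 l519 (V t581))))) (K a42 (M a48 (F (T t364 (L l390 (T t50 (L l28 (T t100 N))))))) (K a106 (M a48 (F (T t99 (L l471 (L l481 (T t1 (L l390 (T t50 N)))))))) (K a170 (M a16 (F (L l404 (T t113 (L l390 (T t98 (L l363 (L l373 (L l390 (L l404 (L l471 (L l481 (T t97 (L l404 (T t174 N))))))))))))))) (K a255 (M a16 (F (T t112 (L l289 (T t113 (L l289 (L l296 (T t98 N)))))))) N)))))))))))))))⟩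
def e0_63__91_90 : Ent 4 := ⟨[a0, a63], [a91, a95], (M a85 (L l93 (F (T t88 (L l137 (L l469 (T t52 (T t89 (T t90 (K a64 (M a87 (F (L l463 (T t1195 (L l140 (L l373 (T t923 (L l137 (T t2247 N))))))))) (K a192 (M a1 (L l93 (F (T t2828 (L l514 (T t534 (L l296 (T t1500 (K a83 (M a87 (F (T t4299 (T t4300 N)))) (K a87 (M a83 (F (T t3333 (L l296 (T t1500 N))))) N)))))))))) (K a21 (M a243 (L l93 (F (L l469 (T t2338 (L l131 (L l137 (T t2088 (L l89 (L l137 (T t3594 (K a83 (M a87 (F (L l463 (T t1198 (L l89 (L l137 (T t3594 N))))))) (K a87 (M a83 (F (T t3664 (L l131 (L l137 (L l143 (T t2088 N))))))) N))))))))))))) (K a149 (M a3 (L l93 (F (T t354 (T t137 (L l220 (L l463 (T t4301 (K a83 (M a87 (F (T t4302 (T t2258 N)))) (K a87 (M a83 (F (T t358 (L l220 (L l463 (T t4303 N)))))) N)))))))))) (K a213 (Fr a170 a255 l476 (Fr a42 a21 l68 (Fr a106 a234 l390 (Fr a192 a149 l519 (V t581))))) (K a42 (M a48 (L l93 (F (L l469 (T t364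 (L l137 (L l390 (T t50 (L l28 (L l137 (L l361 (T t100 (K a83 (M a87 (F (L l95 (T t4284 (L l137 (L l390 (T t50 N))))))) (K a87 (M a83 (F (L l469 (L l475 (T t365 (L l137 (L l143 (L l390 (T t50 (L l28 (L l137 (L l143 (L l361 (L l367 (T t100 N))))))))))))))) N)))))))))))))) (K a106 (M a48 (L l93 (F (T t48 (L l104 (L l361 (T t509 (L l137 (L l390 (T t50 (K a83 (M a87 (F (T t48 (L l390 (L l463 (T t1198 (L l469 (L l498 (T t365 N))))))))) (K a87 (M a83 (F (T t48 (L l361 (L l367 (T t1699 (L l137 (L l143 (L l390 (T t50 N)))))))))) N)))))))))))) (K a170 (M a1 (L l93 (F (L l390 (L l474 (T t534 (L l390 (T t1500 (L l137 (L l474 (T t263 (L l474 (T t3667 (K a83 (M a87 (F (L l390 (T t1500 (L l119 (L l131 (L l474 (T t4304 N)))))))) (K a87 (M a83 (F (L l178 (L l474 (T t3333 (L l390 (T t1500 N))))))) N))))))))))))))) (K a255 (M a15 (L l93 (F (T t1783 (L l137 (L l266 (L l361 (L l373 (T t1497 (L l266 (L l296 (T t1484 (L l266 (L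 l296 (T t1926 (K a83 (M a87 (F (T t1783 (L l266 (T t4305 (L l296 (L l373 (T t923 N)))))))) (K a87 (M a83 (L l475 (F (T t1783 (L l137 (L l143 (L l266 (L l361 (L l373 (T t1497 (L l88 (L l266 (T t3676 (L l266 (L l296 (T t1926 (K a3 (M a171 (F (T t1254 (L l137 (L l143 (L l266 (L l361 (L l373 (T t1497 (L l296 (T t3677 (L l266 (L l296 (L l453 (T t1926 N))))))))))))))) (K a171 (M a3 (L l463 (F (T t1254 (L l179 (L l266 (T t3371 (K a11 (M a251 (F (L l434 (T t665 (L l2 (L l137 (L l143 (L l266 (L l361 (L l373 (T t1497 N))))))))))) (K a251 (Fr a11 a7 l7 (V t3678)) N))))))))) N)))))))))))))))))) N))))))))))))))))) (K a83 (M a87 (F (T t89 (L l463 (T t1198 (L l373 (T t923 N))))))) (K a87 (M a83 (F (T t88 (L l137 (L l143 (L l469 (L l475 (T t52 (T t89 (T t90 (K a64 (M a204 (F (T t1575 (L l125 (T t1576 N))))) (K a192 (M a1 (F (T t3333 (L l296 (T t1500 N))))) (K a21 (M a93 (F (L l88 (T t3674 (L l15 (L l137 (L l143 (T t3675 N))))))))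 (K a149 (M a1 (F (T t3333 (L l217 (T t2807 N))))) (K a213 (Fr a170 a255 l476 (Fr a42 a21 l68 (Fr a106 a234 l390 (Fr a192 a149 l519 (V t581))))) (K a42 (M a93 (F (L l88 (T t3674 (L l137 (L l143 (L l390 (T t3675 N)))))))) (K a106 (M a1 (F (T t3333 (L l390 (T t1500 N))))) (K a170 (M a1 (F (L l178 (L l474 (T t3333 (L l390 (T t1500 N))))))) (K a255 (M a15 (L l475 (F (T t1783 (L l137 (L l143 (L l266 (L l361 (L l373 (T t1497 (L l88 (L l266 (T t3676 (L l266 (L l296 (T t1926 (K a3 (M a171 (F (T t1254 (L l137 (L l143 (L l266 (L l361 (L l373 (T t1497 (L l296 (T t3677 (L l266 (L l296 (L l453 (T t1926 N))))))))))))))) (K a171 (M a3 (L l463 (F (T t1254 (L l179 (L l266 (T t3371 (K a11 (M a251 (F (L l434 (T t665 (L l2 (L l137 (L l143 (L l266 (L l361 (L l373 (T t1497 N))))))))))) (K a251 (Fr a11 a7 l7 (V t3678)) N))))))))) N)))))))))))))))))) N))))))))))))))))))) N))))))))))))))))))))⟩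
def e0_63__91_91 : Ent 4 := ⟨[a0, a63], [a91, a96], (M a12 (F (T t122 (T t151 (T t152 (T t153 (K a4 (M a60 (F (T t43 (L l481 (T t398 (T t448 N)))))) (K a8 (M a60 (F (T t67 (L l481 (T t398 (L l52 (L l56 (T t448 N)))))))) (K a21 (M a192 (F (T t468 (L l15 (L l347 (L l481 (T t450 (L l15 (L l347 (T t157 N)))))))))) (K a25 (M a192 (F (T t449 (L l15 (L l481 (T t450 (T t21 N))))))) (K a29 (M a192 (F (T t449 (L l371 (T t21 (L l104 (T t160 N))))))) (K a38 (M a192 (F (T t468 (L l481 (T t450 (T t21 N)))))) (K a42 (M a192 (F (T t449 (L l481 (T t450 (L l56 (T t157 N))))))) (K a46 (M a192 (F (T t449 (T t21 (L l26 (L l104 (L l408 (T t160 N)))))))) (K a51 (M a192 (F (T t57 (L l513 (T t156 (L l415 (L l481 (T t450 N)))))))) N)))))))))))))))⟩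
def e0_63__91_92 : Ent 4 := ⟨[a0, a63], [a91, a97], (M a85 (F (T t88 (T t52 (T t89 (T t90 (K a64 (M a252 (F (T t91 (L l93 (T t92 N))))) (K a192 (M a16 (F (L l380 (T t112 (L l296 (T t666 (L l296 (T t98 N)))))))) (K a21 (M a48 (F (T t873 (L l47 (L l380 (T t100 (T t50 N))))))) (K a149 (M a16 (F (T t666 (L l373 (L l375 (L l380 (L l481 (T t97 (L l93 (L l170 (T t102 N))))))))))) (K a213 (Fr a170 a255 l476 (Fr a42 a21 l68 (Fr a106 a234 l390 (Fr a192 a149 l519 (V t581))))) (K a42 (M a48 (F (T t364 (L l390 (T t50 (L l28 (L l380 (T t100 N)))))))) (K a106 (M a48 (F (T t364 (L l481 (T t1 (L l390 (T t50 N))))))) (K a170 (M a16 (F (L l380 (L l404 (T t113 (L l390 (T t98 (L l373 (L l380 (L l390 (L l404 (L l481 (T t97 (L l380 (L l404 (T t174 N)))))))))))))))) (K a255 (M a16 (F (L l380 (T t112 (L l289 (L l296 (T t98 (L l289 (L l380 (T t113 N)))))))))) N)))))))))))))))⟩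
def e0_63__91_93 : Ent 4 := ⟨[a0, a63], [a91, a98], (M a149 (F (T t25 (L l489 (T t175 (T t176 (L l102 (L l120 (T t177 (K a192 (M a51 (F (T t4306 (L l232 (T t2011 (L l296 (L l378 (T t2950 (L l232 (L l296 (T t2012 N))))))))))) (K a21 (M a48 (F (T t16 (L l102 (T t13 (L l18 (T t14 N))))))) (K a85 (M a16 (F (L l455 (T t112 (L l96 (L l102 (L l144 (T t190 (L l88 (L l94 (T t278 N))))))))))) (K a213 (Fr a106 a192 l519 (Fr a42 a21 l68 (Fr a170 a234 l390 (Fr a255 a85 l476 (V t582))))) (K a42 (M a48 (F (L l489 (T t11 (L l102 (L l390 (T t13 (L l54 (T t14 N))))))))) (K a106 (M a102 (F (L l390 (T t4307 (L l501 (T t1203 (L l390 (T t1202 (L l378 (L l390 (L l501 (T t1205 (L l378 (L l501 (T t1206 N))))))))))))))) (K a170 (M a48 (F (T t184 (L l462 (L l481 (T t1 (L l102 (L l390 (T t13 N))))))))) (K a191 (M a240 (F (T t2009 (L l102 (T t1091 N))))) (K a255 (M a16 (F (T t112 (L l96 (L l102 (L l266 (T t190 (L l289 (L l296 (T t191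 N)))))))))) N))))))))))))))))))⟩
def e0_63__91_94 : Ent 4 := ⟨[a0, a63], [a91, a99], (M a85 (F (T t88 (T t52 (T t89 (T t90 (K a64 (M a240 (F (T t933 (L l93 (T t387 N))))) (K a192 (M a16 (F (T t96 (L l339 (L l373 (L l481 (T t97 (L l296 (T t98 N))))))))) (K a21 (M a48 (F (T t99 (T t50 (L l47 (T t100 N)))))) (K a149 (M a16 (F (T t173 (L l373 (L l375 (L l481 (T t97 (L l93 (L l103 (L l170 (T t102 N))))))))))) (K a213 (Fr a170 a255 l476 (Fr a42 a21 l68 (Fr a106 a234 l390 (Fr a192 a149 l519 (V t581))))) (K a42 (M a48 (F (T t364 (L l390 (T t50 (L l28 (T t100 N))))))) (K a106 (M a48 (F (T t99 (L l481 (T t1 (L l390 (T t50 N))))))) (K a170 (M a16 (F (L l404 (T t113 (L l390 (T t98 (L l373 (L l390 (L l404 (L l481 (T t97 (L l404 (T t174 N))))))))))))) (K a255 (M a16 (F (T t112 (L l289 (T t113 (L l289 (L l296 (T t98 N)))))))) N)))))))))))))))⟩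
def e0_63__91_95 : Ent 4 := ⟨[a0, a63], [a91, a100], (M a85 (F (T t88 (T t52 (T t89 (T t90 (K a64 (M a252 (F (T t91 (L l93 (L l400 (T t92 N)))))) (K a192 (M a16 (F (L l400 (T t112 (L l296 (T t666 (L l296 (T t98 N)))))))) (K a21 (M a48 (F (T t873 (L l47 (L l400 (T t100 (T t50 N))))))) (K a149 (M a16 (F (T t666 (L l373 (L l375 (L l400 (L l481 (T t97 (L l93 (L l170 (T t102 N))))))))))) (K a213 (Fr a170 a255 l476 (Fr a42 a21 l68 (Fr a106 a234 l390 (Fr a192 a149 l519 (V t581))))) (K a42 (M a48 (F (T t364 (L l390 (T t50 (L l28 (L l400 (T t100 N)))))))) (K a106 (M a48 (F (T t364 (L l481 (T t1 (L l390 (T t50 N))))))) (K a170 (M a16 (F (L l400 (L l404 (T t113 (L l390 (T t98 (L l373 (L l390 (L l400 (L l404 (L l481 (T t97 (L l400 (L l404 (T t174 N)))))))))))))))) (K a255 (M a16 (F (L l400 (T t112 (L l289 (L l296 (T t98 (L l289 (L l400 (T t113 N)))))))))) N)))))))))))))))⟩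
def e0_63__91_96 : Ent 4 := ⟨[a0, a63], [a91, a101], (M a12 (F (T t122 (T t151 (T t152 (T t153 (K a4 (M a60 (F (T t43 (L l481 (T t398 (T t448 N)))))) (K a8 (M a60 (F (T t67 (L l481 (T t398 (L l52 (L l56 (T t448 N)))))))) (K a21 (M a192 (F (T t836 (L l15 (L l347 (L l481 (L l491 (T t450 (L l15 (L l347 (L l491 (T t157 N)))))))))))) (K a25 (M a192 (F (T t449 (L l15 (L l481 (L l491 (T t450 (L l491 (T t21 N))))))))) (K a29 (M a192 (F (T t449 (L l371 (L l491 (T t21 (L l104 (T t160 N)))))))) (K a38 (M a192 (F (T t156 (L l481 (L l491 (T t450 (L l491 (T t21 N)))))))) (K a42 (M a192 (F (T t449 (L l481 (L l491 (T t450 (L l56 (L l491 (T t157 N))))))))) (K a46 (M a192 (F (T t449 (L l491 (T t21 (L l26 (L l104 (L l408 (T t160 N))))))))) (K a51 (M a192 (F (T t1725 (L l415 (L l481 (L l491 (T t450 (L l439 (L l491 (T t21 N)))))))))) N)))))))))))))))⟩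
def e0_63__91_97 : Ent 4 := ⟨[a0, a63], [a91, a102], (M a60 (F (T t67 (T t43 (T t68 (T t69 (K a20 (M a48 (F (T t138 (L l11 (L l481 (T t1 (L l11 (T t235 N)))))))) (K a40 (M a48 (F (T t246 (L l481 (T t1 (L l52 (T t235 N))))))) (K a21 (M a192 (F (T t72 (L l131 (L l347 (L l495 (T t73 (L l347 (L l495 (T t74 N)))))))))) (K a41 (M a192 (F (T t79 (L l65 (L l495 (T t35 (L l131 (L l495 (T t73 N))))))))) (K a61 (M a192 (F (T t72 (L l65 (L l495 (L l515 (T t35 (L l102 (L l373 (T t80 N)))))))))) (K a22 (M a192 (F (T t72 (L l495 (T t21 (L l131 (L l495 (T t73 N)))))))) (K a42 (M a192 (F (T t77 (L l131 (L l495 (T t73 (L l22 (L l495 (T t74 N))))))))) (K a62 (M a192 (F (T t72 (L l495 (T t35 (L l66 (L l102 (L l373 (L l516 (T t80 N)))))))))) (K a3 (M a192 (F (T t2658 (L l475 (L l495 (T t35 (L l131 (L l307 (L l495 (T t73 N)))))))))) N)))))))))))))))⟩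
def e0_63__91_98 : Ent 4 := ⟨[a0, a63], [a91, a103], (M a149 (L l149 (F (T t5 (T t175 (T t176 (T t177 (K a192 (M a53 (L l149 (F (T t178 (L l236 (L l403 (T t179 (L l236 (L l296 (T t180 (K a115 (M a79 (F (T t178 (L l236 (L l403 (T t179 (L l236 (L l296 (T t180 N))))))))) (K a79 (M a115 (F (T t178 (L l236 (L l403 (T t179 (L l84 (L l236 (L l296 (T t180 N)))))))))) N)))))))))))) (K a21 (M a243 (L l149 (F (T t2982 (L l511 (T t2109 (L l131 (T t2983 (K a115 (M a79 (F (T t2982 (L l120 (L l511 (T t2109 (L l113 (L l120 (L l131 (T t2983 N)))))))))) (K a79 (M a115 (F (T t2985 (L l131 (T t2983 N))))) N)))))))))) (K a85 (M a16 (L l149 (F (L l455 (T t112 (L l144 (T t190 (L l88 (L l94 (T t278 (K a115 (M a79 (F (L l455 (T t112 (L l144 (T t190 (L l88 (L l94 (T t278 N))))))))) (K a79 (M a115 (F (L l455 (T t112 (L l144 (T t190 (L l88 (L l94 (L l151 (T t278 N)))))))))) N)))))))))))) (K a213 (Fr a106 a192 l519 (Fr a42 a21 l68 (Fr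 a170 a234 l390 (Fr a255 a85 l476 (V t582))))) (K a42 (M a48 (L l149 (F (T t11 (L l390 (T t13 (L l54 (L l403 (T t14 (K a115 (M a79 (F (T t11 (L l106 (L l390 (T t13 (L l54 (L l403 (T t14 N))))))))) (K a79 (M a115 (F (T t11 (L l390 (T t1082 (L l54 (L l403 (T t14 N)))))))) N))))))))))) (K a106 (M a51 (L l149 (F (L l408 (T t589 (L l501 (T t2011 (L l390 (T t2950 (L l125 (L l390 (L l501 (T t2012 (K a115 (M a79 (F (L l493 (T t592 (L l501 (T t2011 (L l113 (L l125 (L l390 (L l501 (T t2012 (L l390 (T t2950 N))))))))))))) (K a79 (M a115 (F (T t2952 (L l125 (L l390 (L l501 (T t2012 N))))))) N))))))))))))))) (K a170 (M a48 (L l149 (F (T t4 (L l462 (L l481 (T t1 (L l390 (T t13 (K a115 (M a79 (F (T t4 (L l462 (L l481 (T t1 (L l106 (L l390 (T t13 N))))))))) (K a79 (M a115 (F (T t4 (L l462 (T t48 (L l151 (L l390 (T t13 N)))))))) N))))))))))) (K a191 (M a240 (L l149 (F (T t1091 (T t963 (K a115 (M a79 (F (T t962 (T t963 N))))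 (K a79 (M a115 (F (T t962 (T t963 N)))) N))))))) (K a255 (M a16 (L l149 (F (T t112 (L l266 (T t190 (L l289 (L l296 (T t191 (K a115 (M a79 (F (T t112 (L l266 (T t190 (L l289 (L l296 (T t191 N)))))))) (K a79 (M a115 (F (T t112 (L l266 (T t190 (L l289 (L l296 (T t191 N)))))))) N))))))))))) (K a115 (M a79 (F (T t25 (L l103 (T t1035 (L l103 (T t1036 (K a106 (M a5 (F (L l390 (T t1038 (L l373 (L l403 (T t1037 N))))))) N)))))))) (K a79 (M a115 (F (T t25 (L l131 (T t2960 (L l131 (T t2961 (K a106 (M a17 (F (L l390 (T t2955 (L l463 (L l493 (T t2962 N))))))) N)))))))) N))))))))))))))))))⟩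
def e0_63__91_99 : Ent 4 := ⟨[a0, a63], [a91, a104], (M a149 (F (T t25 (L l514 (T t175 (T t176 (L l98 (L l140 (T t177 (K a192 (M a60 (F (T t116 (L l228 (T t462 (L l296 (L l388 (T t1130 (L l228 (L l296 (T t1256 N))))))))))) (K a21 (M a48 (F (T t16 (L l98 (T t13 (L l18 (T t14 N))))))) (K a85 (M a16 (F (L l455 (T t112 (L l98 (L l100 (L l144 (T t190 (L l88 (L l94 (T t278 N))))))))))) (K a213 (Fr a106 a192 l519 (Fr a42 a21 l68 (Fr a170 a234 l390 (Fr a255 a85 l476 (V t582))))) (K a42 (M a48 (F (L l514 (T t11 (L l98 (L l390 (T t13 (L l54 (T t14 N))))))))) (K a106 (M a105 (F (L l516 (T t1932 (L l131 (L l390 (T t2259 (L l390 (T t1931 (L l388 (L l390 (L l516 (T t1934 (L l388 (L l516 (T t1935 N)))))))))))))))) (K a170 (M a48 (F (T t184 (L l462 (L l481 (T t1 (L l98 (L l390 (T t13 N))))))))) (K a191 (M a240 (F (T t2009 (L l98 (T t1091 N))))) (K a255 (M a16 (F (T t112 (L l98 (L l100 (L l266 (T t190 (L l289 (L l296 (T t191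 N)))))))))) N))))))))))))))))))⟩
def e0_63__91_100 : Ent 4 := ⟨[a0, a63], [a91, a105], (M a12 (F (T t122 (T t151 (T t152 (T t153 (K a4 (M a60 (F (T t69 (L l481 (L l515 (T t398 (L l392 (T t448 N)))))))) (K a8 (M a60 (F (T t67 (L l481 (L l515 (T t398 (L l52 (L l56 (L l392 (T t448 N)))))))))) (K a21 (M a192 (F (T t836 (L l15 (L l347 (L l481 (L l515 (T t450 (L l15 (L l347 (L l515 (T t157 N)))))))))))) (K a25 (M a192 (F (T t449 (L l15 (L l481 (L l515 (T t450 (L l515 (T t21 N))))))))) (K a29 (M a192 (F (T t449 (L l371 (L l515 (T t21 (L l98 (T t160 N)))))))) (K a38 (M a192 (F (T t156 (L l481 (L l515 (T t450 (L l515 (T t21 N)))))))) (K a42 (M a192 (F (T t449 (L l481 (L l515 (T t450 (L l56 (L l515 (T t157 N))))))))) (K a46 (M a192 (F (T t449 (L l515 (T t21 (L l26 (L l98 (L l408 (T t160 N))))))))) (K a51 (M a192 (F (T t1725 (L l415 (L l481 (L l515 (T t450 (L l439 (L l515 (T t21 N)))))))))) N)))))))))))))))⟩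
def e0_63__91_101 : Ent 4 := ⟨[a0, a63], [a91, a106], (M a12 (F (T t122 (L l390 (L l408 (T t151 (L l501 (T t152 (L l390 (T t153 (K a4 (M a60 (F (T t1413 (L l46 (L l50 (L l393 (T t67 (L l390 (L l408 (T t448 N)))))))))) (K a8 (M a60 (F (T t68 (L l481 (T t398 (L l52 (L l56 (L l390 (L l408 (T t448 N)))))))))) (K a21 (M a255 (F (T t2486 (L l390 (L l481 (T t2137 (L l50 (L l144 (L l347 (L l408 (L l463 (T t2487 N)))))))))))) (K a25 (M a48 (F (T t550 (L l15 (L l481 (T t1 (L l12 (L l56 (L l390 (L l498 (T t866 N))))))))))) (K a29 (M a48 (F (T t550 (L l15 (L l481 (T t1 (L l390 (L l498 (T t866 N))))))))) (K a38 (M a48 (F (T t1580 (L l26 (L l390 (L l481 (L l498 (T t2 (L l21 (L l50 (L l355 (T t868 N)))))))))))) (K a42 (M a170 (F (L l463 (T t2501 (L l144 (T t2498 (L l26 (L l132 (L l144 (L l408 (L l463 (T t2499 (L l26 (L l408 (L l463 (L l481 (T t2500 N))))))))))))))))) (K a46 (M a48 (L l408 (F (T t443 (L l481 (T t1 (L l26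 (L l390 (L l498 (T t866 (K a226 (M a166 (F (T t2748 (T t48 N)))) (K a166 (M a226 (F (T t1580 (L l26 (L l390 (L l481 (L l498 (T t2 (L l26 (L l390 (L l498 (T t866 N)))))))))))) N)))))))))))) (K a51 (M a16 (F (T t2517 (L l73 (L l373 (L l390 (L l481 (T t97 (L l390 (L l408 (T t872 N))))))))))) N)))))))))))))))))))⟩
def e0_63__91_102 : Ent 4 := ⟨[a0, a63], [a91, a107], (M a12 (L l131 (F (T t122 (T t151 (L l499 (T t152 (T t153 (K a4 (M a15 (L l131 (F (T t716 (L l409 (T t2544 (L l1 (L l50 (T t2545 (K a75 (M a123 (F (T t716 (L l78 (L l458 (T t2757 N)))))) (K a123 (M a75 (F (T t716 (L l132 (L l314 (T t4308 N)))))) N))))))))))) (K a8 (M a15 (L l131 (F (T t731 (L l409 (T t2544 (T t2545 (K a75 (M a123 (F (T t731 (L l78 (L l316 (T t2757 N)))))) (K a123 (M a75 (F (T t731 (L l132 (L l316 (T t4308 N)))))) N))))))))) (K a21 (M a192 (L l131 (F (T t156 (L l15 (L l347 (L l481 (T t450 (L l15 (L l347 (T t157 (K a75 (M a123 (F (T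 t2759 (L l15 (T t2760 N))))) (K a123 (M a75 (F (T t156 (L l98 (L l132 (L l481 (T t221 (L l15 (L l347 (T t157 N)))))))))) N))))))))))))) (K a25 (M a13 (L l131 (F (T t3911 (T t3914 (L l53 (L l56 (T t3915 (K a75 (M a123 (F (T t3911 (L l88 (L l353 (T t2765 N)))))) (K a123 (M a75 (F (T t4309 (L l53 (L l56 (T t3915 N)))))) N)))))))))) (K a29 (M a15 (L l131 (F (T t3936 (T t716 (L l59 (L l409 (T t722 (K a75 (M a123 (F (T t716 (L l88 (L l371 (T t2765 N)))))) (K a123 (M a75 (F (T t716 (L l132 (T t4308 N))))) N)))))))))) (K a38 (M a15 (L l131 (F (T t717 (L l26 (T t716 (L l26 (L l409 (T t2544 (K a75 (M a123 (F (T t717 (L l78 (L l384 (T t2757 N)))))) (K a123 (M a75 (F (T t2576 (T t4310 N)))) N))))))))))) (K a42 (M a192 (L l131 (F (T t449 (L l481 (T t450 (L l56 (T t157 (K a75 (M a123 (F (T t2762 (T t2760 N)))) (K a123 (M a75 (F (T t449 (L l26 (L l98 (L l132 (L l390 (L l481 (T t221 (L l56 (T t157 N))))))))))) N))))))))))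 (K a46 (M a15 (L l131 (F (T t731 (T t717 (L l23 (L l26 (L l409 (T t722 (K a75 (M a123 (F (T t731 (L l88 (L l396 (T t2765 N)))))) (K a123 (M a75 (F (T t731 (L l132 (T t4308 N))))) N))))))))))) (K a51 (M a13 (L l131 (F (T t4311 (L l39 (T t3911 (T t3915 (K a75 (M a123 (F (T t4311 (L l78 (L l489 (T t2757 N)))))) (K a123 (M a75 (F (T t4309 (T t3915 N)))) N))))))))) (K a75 (M a123 (F (T t151 (L l78 (T t2757 (L l88 (T t2765 N))))))) (K a123 (M a75 (F (T t122 (T t151 (L l427 (L l499 (T t152 (T t153 (K a4 (M a13 (F (L l314 (T t4309 (L l1 (T t3915 N)))))) (K a8 (M a13 (F (T t4309 (L l56 (T t3915 N))))) (K a21 (M a195 (F (T t4312 (L l65 (T t4313 N))))) (K a25 (M a9 (F (T t4314 (L l15 (T t4315 N))))) (K a29 (M a9 (F (T t4314 (L l391 (T t4316 N))))) (K a38 (M a195 (F (T t4312 (L l26 (L l409 (T t4317 N)))))) (K a42 (M a195 (F (T t4318 (L l26 (T t4313 N))))) (K a46 (M a195 (F (T t4312 (L l373 (T t4319 N))))) (K a51 (M a9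 (F (T t4314 (L l39 (L l391 (T t4316 N)))))) N))))))))))))))))) N)))))))))))))))))))⟩
def e0_63__91_103 : Ent 4 := ⟨[a0, a63], [a91, a108], (M a85 (F (T t88 (T t52 (T t89 (T t90 (K a64 (M a240 (F (T t933 (L l93 (T t387 N))))) (K a192 (M a16 (F (T t96 (L l339 (L l373 (L l481 (T t97 (L l296 (T t98 N))))))))) (K a21 (M a48 (F (T t99 (T t50 (L l47 (T t100 N)))))) (K a149 (M a16 (F (T t173 (L l373 (L l375 (L l481 (T t97 (L l93 (L l99 (L l170 (T t102 N))))))))))) (K a213 (Fr a170 a255 l476 (Fr a42 a21 l68 (Fr a106 a234 l390 (Fr a192 a149 l519 (V t581))))) (K a42 (M a48 (F (T t364 (L l390 (T t50 (L l28 (T t100 N))))))) (K a106 (M a48 (F (T t99 (L l481 (T t1 (L l390 (T t50 N))))))) (K a170 (M a16 (F (L l404 (T t113 (L l390 (T t98 (L l373 (L l390 (L l404 (L l481 (T t97 (L l404 (T t174 N))))))))))))) (K a255 (M a16 (F (T t112 (L l289 (T t113 (L l289 (L l296 (T t98 N)))))))) N)))))))))))))))⟩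
def e0_63__91_104 : Ent 4 := ⟨[a0, a63], [a91, a109], (M a85 (F (T t88 (T t52 (T t89 (T t90 (K a64 (M a240 (F (T t933 (L l93 (T t387 N))))) (K a192 (M a16 (F (T t112 (L l101 (T t96 (L l296 (T t98 N))))))) (K a21 (M a48 (F (T t99 (T t50 (L l47 (T t100 N)))))) (K a149 (M a16 (F (T t112 (L l506 (T t173 (L l93 (L l99 (L l170 (T t102 N))))))))) (K a213 (Fr a170 a255 l476 (Fr a42 a21 l68 (Fr a106 a234 l390 (Fr a192 a149 l519 (V t581))))) (K a42 (M a48 (F (L l28 (T t99 (L l390 (T t50 (L l28 (T t100 N)))))))) (K a106 (M a48 (F (T t99 (L l481 (T t1 (L l390 (T t50 N))))))) (K a170 (M a16 (F (L l404 (T t113 (L l390 (T t98 (L l373 (L l390 (L l404 (L l481 (T t97 (L l404 (L l506 (T t174 N)))))))))))))) (K a255 (M a16 (F (T t112 (L l289 (T t113 (L l289 (L l296 (T t98 N)))))))) N)))))))))))))))⟩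
def e0_63__91_105 : Ent 4 := ⟨[a0, a63], [a91, a110], (M a149 (F (T t5 (T t175 (T t176 (L l102 (T t177 (K a192 (M a53 (F (T t178 (L l236 (T t179 (L l236 (L l296 (T t180 N)))))))) (K a21 (M a48 (F (T t4 (L l102 (T t13 (L l18 (T t14 N))))))) (K a85 (M a16 (F (L l455 (T t112 (L l102 (L l144 (T t190 (L l88 (L l94 (T t278 N)))))))))) (K a213 (Fr a106 a192 l519 (Fr a42 a21 l68 (Fr a170 a234 l390 (Fr a255 a85 l476 (V t582))))) (K a42 (M a48 (F (T t187 (L l102 (L l390 (T t13 (L l54 (T t14 N)))))))) (K a106 (M a102 (F (L l390 (T t1202 (L l396 (L l501 (T t1203 (L l390 (L l501 (T t1204 (L l390 (L l501 (T t1205 (L l501 (T t1206 N))))))))))))))) (K a170 (M a48 (F (T t4 (L l462 (L l481 (T t1 (L l102 (L l390 (T t13 N))))))))) (K a191 (M a16 (F (T t112 (L l102 (T t190 (L l213 (T t191 N))))))) (K a255 (M a16 (F (T t112 (L l102 (L l266 (T t190 (L l289 (L l296 (T t191 N))))))))) N))))))))))))))))⟩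
def e0_63__91_106 : Ent 4 := ⟨[a0, a63], [a91, a111], (M a149 (F (T t5 (T t175 (T t176 (L l104 (T t177 (K a192 (M a53 (F (T t178 (L l236 (L l296 (T t180 (L l236 (L l397 (T t179 N))))))))) (K a21 (M a240 (F (T t1090 (L l104 (T t1091 (L l397 (T t1207 N))))))) (K a85 (M a48 (F (T t184 (L l481 (T t1 (L l104 (L l144 (T t13 N)))))))) (K a213 (Fr a106 a192 l519 (Fr a42 a21 l68 (Fr a170 a234 l390 (Fr a255 a85 l476 (V t582))))) (K a42 (M a240 (F (T t1090 (L l104 (L l390 (T t1091 (L l397 (T t1207 N)))))))) (K a106 (M a101 (F (L l397 (L l498 (T t1209 (L l390 (T t1208 (L l390 (L l397 (L l498 (T t1210 (L l373 (L l390 (L l498 (T t1211 (L l498 (T t1212 N))))))))))))))))) (K a170 (M a48 (F (T t184 (L l462 (L l481 (T t1 (L l104 (L l390 (T t13 N))))))))) (K a191 (M a16 (F (T t112 (L l213 (T t1213 (L l213 (T t191 N))))))) (K a255 (M a16 (F (T t112 (L l289 (T t1213 (L l289 (L l296 (T t191 N)))))))) N))))))))))))))))⟩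
def e0_63__91_107 : Ent 4 := ⟨[a0, a63], [a91, a112], (M a149 (F (T t25 (T t175 (T t176 (L l116 (T t177 (K a192 (M a53 (F (T t178 (L l236 (T t179 (L l236 (L l296 (T t180 N)))))))) (K a21 (M a240 (F (T t1937 (L l116 (T t962 (L l114 (L l116 (T t1207 N)))))))) (K a85 (M a16 (F (L l455 (T t112 (L l116 (L l144 (L l412 (T t190 (L l88 (L l94 (L l151 (T t278 N)))))))))))) (K a213 (Fr a106 a192 l519 (Fr a42 a21 l68 (Fr a170 a234 l390 (Fr a255 a85 l476 (V t582))))) (K a42 (M a240 (F (T t1937 (L l28 (L l116 (L l390 (T t962 (L l114 (L l116 (T t1207 N)))))))))) (K a106 (M a48 (F (T t48 (L l498 (T t14 (L l114 (L l390 (L l498 (T t6 (L l390 (T t26 N))))))))))) (K a170 (M a48 (F (T t184 (L l462 (L l481 (T t1 (L l116 (L l390 (L l404 (T t1938 N)))))))))) (K a191 (M a240 (F (L l116 (T t962 (L l114 (T t963 N)))))) (K a255 (M a16 (F (T t112 (L l116 (L l266 (L l412 (T t190 (L l116 (L l289 (L l296 (T t191 N))))))))))) N))))))))))))))))⟩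
def e0_63__91_108 : Ent 4 := ⟨[a0, a63], [a91, a113], (M a85 (F (T t88 (T t52 (T t89 (T t90 (K a64 (M a252 (F (T t91 (L l93 (T t92 N))))) (K a192 (M a16 (F (T t112 (L l147 (T t96 (L l296 (T t98 N))))))) (K a21 (M a48 (F (T t99 (L l111 (T t50 (L l47 (T t100 N))))))) (K a149 (M a16 (F (T t173 (L l373 (L l375 (L l481 (T t97 (L l93 (L l170 (T t102 N)))))))))) (K a213 (Fr a170 a255 l476 (Fr a42 a21 l68 (Fr a106 a234 l390 (Fr a192 a149 l519 (V t581))))) (K a42 (M a48 (F (T t365 (L l111 (L l390 (T t50 (L l28 (T t100 N)))))))) (K a106 (M a48 (F (T t99 (L l481 (T t1 (L l111 (L l390 (T t50 N)))))))) (K a170 (M a16 (F (L l404 (T t113 (L l390 (T t98 (L l373 (L l390 (L l404 (L l481 (T t97 (L l404 (T t174 N))))))))))))) (K a255 (M a16 (F (T t112 (L l289 (T t113 (L l289 (L l296 (T t98 N)))))))) N)))))))))))))))⟩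
def e0_63__91_109 : Ent 4 := ⟨[a0, a63], [a91, a114], (M a85 (F (T t88 (T t52 (T t89 (T t90 (K a64 (M a240 (F (T t933 (L l93 (T t387 N))))) (K a192 (M a16 (F (T t96 (L l339 (L l373 (L l481 (T t97 (L l296 (T t98 N))))))))) (K a21 (M a48 (F (T t99 (L l417 (T t50 (L l47 (T t100 N))))))) (K a149 (M a16 (F (T t173 (L l373 (L l375 (L l481 (T t97 (L l93 (L l170 (T t102 N)))))))))) (K a213 (Fr a170 a255 l476 (Fr a42 a21 l68 (Fr a106 a234 l390 (Fr a192 a149 l519 (V t581))))) (K a42 (M a48 (F (T t364 (L l390 (L l417 (T t50 (L l28 (T t100 N)))))))) (K a106 (M a48 (F (T t99 (L l481 (T t1 (L l390 (L l417 (T t50 N)))))))) (K a170 (M a16 (F (L l404 (T t113 (L l390 (T t98 (L l373 (L l390 (L l404 (L l481 (T t97 (L l404 (T t174 N))))))))))))) (K a255 (M a16 (F (T t112 (L l289 (T t113 (L l289 (L l296 (T t98 N)))))))) N)))))))))))))))⟩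
def e0_63__91_110 : Ent 4 := ⟨[a0, a63], [a91, a115], (M a149 (L l149 (F (T t25 (T t175 (T t176 (L l120 (T t177 (K a192 (M a53 (L l149 (F (T t178 (L l236 (T t179 (L l236 (L l296 (T t180 (K a103 (M a79 (F (T t178 (L l236 (L l403 (T t179 (L l236 (L l296 (T t180 N))))))))) (K a79 (M a103 (F (T t178 (L l232 (L l236 (T t2939 N)))))) N))))))))))) (K a21 (M a207 (L l149 (F (T t2627 (L l481 (T t1287 (T t2628 (K a103 (M a79 (F (T t4320 (L l103 (T t2628 N))))) (K a79 (M a103 (F (L l119 (T t2212 (L l84 (L l481 (T t1287 N))))))) N))))))))) (K a85 (M a53 (L l149 (F (T t4321 (L l455 (L l481 (T t982 (L l123 (T t2942 (K a103 (M a79 (F (T t2941 (L l455 (L l481 (T t982 (L l97 (L l123 (T t2942 N))))))))) (K a79 (M a103 (F (T t2939 (L l325 (L l455 (L l481 (T t982 N))))))) N))))))))))) (K a213 (Fr a106 a192 l519 (Fr a42 a21 l68 (Fr a170 a234 l390 (Fr a255 a85 l476 (V t582))))) (K a42 (M a207 (L l149 (F (T t1286 (L l120 (L l390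 (L l481 (T t4322 (T t2628 (K a103 (M a79 (F (T t4323 (L l120 (T t4324 (L l113 (T t4325 N))))))) (K a79 (M a103 (F (L l119 (T t2212 (L l54 (L l84 (L l390 (L l481 (T t1287 N))))))))) N))))))))))) (K a106 (M a53 (L l149 (F (L l498 (T t179 (L l390 (T t180 (L l390 (L l481 (L l498 (T t982 (L l498 (T t1087 (K a103 (M a79 (F (L l106 (L l411 (T t1088 (L l390 (T t180 (L l390 (L l481 (L l498 (T t982 N))))))))))) (K a79 (M a103 (F (T t2939 (L l325 (L l390 (L l481 (L l498 (T t982 N)))))))) N))))))))))))))) (K a170 (M a48 (L l149 (F (T t4 (L l462 (L l481 (T t1 (L l106 (L l390 (T t13 (K a103 (M a79 (F (T t4 (L l462 (L l481 (T t1 (L l106 (L l390 (T t13 N))))))))) (K a79 (M a103 (F (T t4 (L l462 (T t48 (L l106 (L l151 (L l390 (T t13 N))))))))) N)))))))))))) (K a191 (M a240 (L l149 (F (T t1090 (L l106 (T t1091 (L l93 (T t1092 (K a103 (M a79 (F (T t962 (T t963 N)))) (K a79 (M a103 (F (T t962 (T t963 N)))) N)))))))))) (K a255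 (M a53 (L l149 (F (T t2953 (L l469 (L l481 (T t982 (L l296 (T t180 (K a103 (M a79 (F (T t2953 (L l469 (L l481 (T t982 (L l296 (T t180 N)))))))) (K a79 (M a103 (F (T t178 (T t2939 N)))) N))))))))))) (K a103 (M a79 (F (T t25 (L l103 (T t1035 (L l103 (T t1036 (K a106 (M a5 (F (L l390 (T t1038 (L l373 (L l403 (T t1037 N))))))) N)))))))) (K a79 (M a103 (F (T t25 (T t175 (T t176 (L l84 (L l120 (T t177 (K a192 (M a17 (F (L l355 (T t2954 (L l120 (L l296 (T t2955 N))))))) (K a21 (M a144 (F (L l106 (L l151 (T t994 (L l50 (L l137 (L l415 (T t2956 N))))))))) (K a85 (M a53 (F (T t2939 (L l325 (L l455 (L l481 (T t982 N))))))) (K a213 (Fr a106 a192 l519 (Fr a42 a21 l68 (Fr a170 a234 l390 (Fr a255 a85 l476 (V t582))))) (K a42 (M a144 (F (L l137 (L l415 (T t2956 (L l106 (L l151 (L l390 (T t994 N))))))))) (K a106 (M a101 (F (T t2957 (L l137 (L l390 (T t2958 N)))))) (K a170 (M a148 (F (L l131 (L l137 (L l218 (T t2959 (L l115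 (L l139 (L l174 (L l390 (T t1767 N))))))))))) (K a191 (M a144 (F (L l106 (L l151 (T t994 (L l137 (L l415 (T t2956 N)))))))) (K a255 (M a148 (F (L l131 (L l137 (T t2959 (L l115 (L l139 (L l434 (T t1767 N))))))))) N))))))))))))))))) N)))))))))))))))))))⟩
def e0_63__91_111 : Ent 4 := ⟨[a0, a63], [a91, a116], (M a85 (F (T t88 (T t52 (T t89 (T t90 (K a64 (M a204 (F (T t1744 (L l107 (T t1576 N))))) (K a192 (M a16 (F (T t112 (L l127 (T t96 (L l296 (T t98 N))))))) (K a21 (M a48 (F (T t99 (L l107 (T t50 (L l47 (T t100 N))))))) (K a149 (M a16 (F (T t173 (L l373 (L l375 (L l481 (T t97 (L l93 (L l170 (T t102 N)))))))))) (K a213 (Fr a170 a255 l476 (Fr a42 a21 l68 (Fr a106 a234 l390 (Fr a192 a149 l519 (V t581))))) (K a42 (M a48 (F (T t365 (L l107 (L l390 (T t50 (L l28 (T t100 N)))))))) (K a106 (M a48 (F (T t99 (L l481 (T t1 (L l107 (L l390 (T t50 N)))))))) (K a170 (M a16 (F (L l404 (T t113 (L l390 (T t98 (L l373 (L l390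 (L l404 (L l481 (T t97 (L l404 (T t174 N))))))))))))) (K a255 (M a16 (F (T t112 (L l289 (T t113 (L l289 (L l296 (T t98 N)))))))) N)))))))))))))))⟩
def e0_63__91_112 : Ent 4 := ⟨[a0, a63], [a91, a117], (M a85 (F (T t88 (L l114 (L l440 (T t52 (T t89 (T t90 (K a64 (M a204 (F (T t1575 (L l107 (T t1576 N))))) (K a192 (M a16 (F (T t96 (L l339 (L l373 (L l481 (T t97 (L l296 (T t98 N))))))))) (K a21 (M a12 (F (T t4326 (L l15 (L l114 (L l422 (T t574 (L l114 (T t124 N))))))))) (K a149 (M a16 (F (T t112 (L l491 (T t96 (L l93 (L l170 (T t102 N)))))))) (K a213 (Fr a170 a255 l476 (Fr a42 a21 l68 (Fr a106 a234 l390 (Fr a192 a149 l519 (V t581))))) (K a42 (M a12 (F (L l440 (L l463 (T t1373 (L l114 (L l390 (T t124 (L l56 (L l114 (L l422 (T t574 N)))))))))))) (K a106 (M a12 (F (T t122 (L l88 (L l132 (L l422 (T t123 (L l114 (L l390 (T t124 N)))))))))) (K a170 (M a16 (F (L l390 (L l404 (T t112 (L l390 (T t98 (L l114 (L l404 (L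 l419 (T t113 (L l404 (T t174 N))))))))))))) (K a255 (M a48 (F (T t132 (L l114 (L l289 (L l419 (T t100 (L l289 (L l296 (T t568 (L l289 (L l296 (T t1579 N))))))))))))) N)))))))))))))))))⟩
def e0_63__91_113 : Ent 4 := ⟨[a0, a63], [a91, a118], (M a85 (F (T t88 (T t52 (T t89 (T t90 (K a64 (M a204 (F (T t1575 (L l107 (T t1576 N))))) (K a192 (M a16 (F (T t96 (L l339 (L l373 (L l481 (T t97 (L l296 (T t98 N))))))))) (K a21 (M a48 (F (T t1699 (L l47 (T t100 (L l107 (T t50 N))))))) (K a149 (M a16 (F (T t173 (L l373 (L l375 (L l481 (T t97 (L l93 (L l170 (T t102 N)))))))))) (K a213 (Fr a170 a255 l476 (Fr a42 a21 l68 (Fr a106 a234 l390 (Fr a192 a149 l519 (V t581))))) (K a42 (M a48 (F (T t365 (L l107 (L l390 (T t50 (L l28 (T t100 N)))))))) (K a106 (M a48 (F (T t1699 (L l481 (T t1 (L l107 (L l390 (T t50 N)))))))) (K a170 (M a16 (F (L l404 (T t113 (L l390 (T t98 (L l373 (L l390 (L l404 (L l481 (T t97 (L l404 (T t174 N)))))))))))))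 (K a255 (M a16 (F (T t112 (L l289 (T t113 (L l289 (L l296 (T t98 N)))))))) N)))))))))))))))⟩
def e0_63__91_114 : Ent 4 := ⟨[a0, a63], [a91, a119], (M a85 (F (T t88 (L l113 (L l439 (T t52 (T t89 (T t90 (K a64 (M a240 (F (T t933 (L l93 (T t387 N))))) (K a192 (M a16 (F (T t96 (L l339 (L l373 (L l481 (T t97 (L l296 (T t98 N))))))))) (K a21 (M a48 (F (T t1699 (L l47 (L l113 (T t100 (L l107 (L l113 (T t50 N))))))))) (K a149 (M a16 (F (T t173 (L l373 (L l375 (L l481 (T t97 (L l93 (L l170 (T t102 N)))))))))) (K a213 (Fr a170 a255 l476 (Fr a42 a21 l68 (Fr a106 a234 l390 (Fr a192 a149 l519 (V t581))))) (K a42 (M a48 (F (L l28 (T t1699 (L l107 (L l113 (L l390 (T t50 (L l28 (L l113 (T t100 N))))))))))) (K a106 (M a48 (F (T t1699 (L l481 (T t1 (L l107 (L l113 (L l390 (T t50 N))))))))) (K a170 (M a16 (F (L l390 (L l404 (T t112 (L l390 (T t98 (L l113 (L l404 (T t113 (L l404 (T t174 N)))))))))))) (K a255 (M a51 (F (T t1355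 (L l113 (L l290 (L l421 (T t945 (L l290 (L l296 (T t1952 (L l290 (L l296 (T t1953 N))))))))))))) N)))))))))))))))))⟩
def e0_63__91_115 : Ent 4 := ⟨[a0, a63], [a91, a120], (M a85 (F (T t88 (T t52 (T t89 (T t90 (K a64 (M a240 (F (T t933 (L l93 (T t387 N))))) (K a192 (M a16 (F (T t96 (L l339 (L l373 (L l481 (T t97 (L l296 (T t98 N))))))))) (K a21 (M a48 (F (T t99 (L l442 (T t50 (L l47 (T t100 N))))))) (K a149 (M a16 (F (T t173 (L l373 (L l375 (L l481 (T t97 (L l93 (L l170 (T t102 N)))))))))) (K a213 (Fr a170 a255 l476 (Fr a42 a21 l68 (Fr a106 a234 l390 (Fr a192 a149 l519 (V t581))))) (K a42 (M a48 (F (T t364 (L l390 (L l442 (T t50 (L l28 (T t100 N)))))))) (K a106 (M a48 (F (T t99 (L l481 (T t1 (L l390 (L l442 (T t50 N)))))))) (K a170 (M a16 (F (L l404 (T t113 (L l390 (T t98 (L l373 (L l390 (L l404 (L l481 (T t97 (L l404 (T t174 N))))))))))))) (K a255 (M a16 (F (T t112 (L l289 (T t113 (L l289 (L l296 (T t98 N))))))))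 N)))))))))))))))⟩
def e0_63__91_116 : Ent 4 := ⟨[a0, a63], [a91, a121], (M a149 (F (T t5 (T t175 (T t176 (T t177 (K a192 (M a53 (F (T t178 (L l236 (T t179 (L l236 (L l296 (L l443 (T t180 N))))))))) (K a21 (M a48 (F (T t4 (T t13 (L l18 (T t14 N)))))) (K a85 (M a16 (F (L l455 (T t112 (L l144 (T t190 (L l88 (L l94 (T t278 N))))))))) (K a213 (Fr a106 a192 l519 (Fr a42 a21 l68 (Fr a170 a234 l390 (Fr a255 a85 l476 (V t582))))) (K a42 (M a48 (F (T t187 (L l390 (T t13 (L l54 (T t14 N))))))) (K a106 (M a48 (F (T t48 (L l498 (T t14 (L l111 (L l390 (L l498 (T t6 (L l390 (T t26 N))))))))))) (K a170 (M a48 (F (T t4 (L l462 (L l481 (T t1 (L l390 (T t13 N)))))))) (K a191 (M a240 (F (T t962 (L l108 (T t963 N))))) (K a255 (M a16 (F (T t112 (L l266 (T t190 (L l289 (L l296 (T t191 N)))))))) N)))))))))))))))⟩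
def e0_63__91_117 : Ent 4 := ⟨[a0, a63], [a91, a122], (M a149 (F (T t5 (T t175 (T t176 (L l130 (T t177 (K a192 (M a53 (F (L l426 (T t178 (L l236 (L l296 (T t180 (L l236 (L l426 (T t179 N)))))))))) (K a21 (M a48 (F (L l426 (T t4 (L l114 (L l130 (T t13 (L l18 (L l426 (T t14 N)))))))))) (K a85 (M a16 (F (L l373 (L l481 (T t97 (L l130 (L l144 (T t190 (L l88 (L l94 (L l130 (T t278 N)))))))))))) (K a213 (Fr a106 a192 l519 (Fr a42 a21 l68 (Fr a170 a234 l390 (Fr a255 a85 l476 (V t582))))) (K a42 (M a48 (F (T t187 (L l114 (L l130 (L l390 (T t13 (L l54 (L l426 (T t14 N)))))))))) (K a106 (M a90 (F (L l390 (T t1073 (L l411 (L l426 (T t1040 (L l93 (L l390 (L l411 (T t1954 (L l390 (L l411 (T t1074 (L l411 (T t1075 N)))))))))))))))) (K a170 (M a48 (F (T t11 (L l462 (L l481 (T t1 (L l114 (L l130 (L l390 (T t13 N)))))))))) (K a191 (M a16 (F (L l426 (T t112 (L l130 (T t190 (L l213 (T t191 N)))))))) (K a255 (M a16 (F (L l426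 (T t112 (L l130 (T t2785 (L l289 (L l296 (T t191 N))))))))) N))))))))))))))))⟩
def e0_63__91_118 : Ent 4 := ⟨[a0, a63], [a91, a123], (M a60 (L l131 (F (T t67 (T t43 (T t68 (T t69 (K a20 (M a149 (L l131 (F (T t1034 (T t25 (T t1256 (K a75 (M a107 (F (T t4327 (L l132 (T t1245 N))))) (K a107 (M a75 (F (T t176 (L l108 (L l409 (T t1023 N)))))) N)))))))) (K a40 (M a149 (L l131 (F (T t1022 (L l22 (T t5 (L l22 (T t1256 (K a75 (M a107 (F (T t4327 (L l22 (L l132 (T t1245 N)))))) (K a107 (M a75 (F (T t1007 (L l108 (L l409 (T t1023 N)))))) N)))))))))) (K a21 (M a105 (L l131 (F (T t1128 (L l11 (T t404 (L l11 (T t405 (K a75 (M a107 (F (T t4328 (T t4329 N)))) (K a107 (M a75 (F (T t4330 (L l11 (L l391 (T t406 N)))))) N)))))))))) (K a41 (M a149 (L l131 (F (T t1034 (L l22 (T t25 (T t462 (K a75 (M a107 (F (T t4327 (L l22 (L l132 (T t1245 N)))))) (K a107 (M a75 (F (L l22 (T t5 (L l108 (L l409 (T t1023 N))))))) N))))))))) (K a61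 (M a192 (L l131 (F (T t72 (L l65 (L l515 (T t35 (L l132 (L l373 (T t80 (K a75 (M a107 (F (T t2723 (L l65 (L l373 (T t2724 N)))))) (K a107 (M a75 (F (T t77 (L l65 (L l515 (T t35 (L l98 (L l132 (T t2718 N))))))))) N)))))))))))) (K a22 (M a105 (L l131 (F (T t420 (L l11 (T t404 (L l11 (L l66 (T t405 (K a75 (M a107 (F (T t4328 (T t4329 N)))) (K a107 (M a75 (F (L l108 (L l348 (T t4331 (L l11 (L l66 (L l391 (T t406 N))))))))) N))))))))))) (K a42 (M a105 (L l131 (F (T t420 (T t404 (L l66 (T t405 (K a75 (M a107 (F (T t4328 (T t4329 N)))) (K a107 (M a75 (F (T t4330 (L l66 (L l391 (T t406 N)))))) N))))))))) (K a62 (M a192 (L l131 (F (T t72 (T t35 (L l66 (L l132 (L l373 (L l516 (T t80 (K a75 (M a107 (F (T t2725 (L l66 (L l373 (T t1174 N)))))) (K a107 (M a75 (F (T t35 (T t77 (L l66 (L l98 (L l132 (L l516 (T t2718 N))))))))) N)))))))))))) (K a3 (M a149 (L l131 (F (T t25 (L l309 (T t461 (T t462 (K a75 (M a107 (F (T t4327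 (L l132 (L l475 (T t1245 N)))))) (K a107 (M a75 (F (T t25 (L l108 (L l409 (T t1023 N)))))) N))))))))) (K a75 (M a107 (F (T t43 (L l373 (T t2727 (L l133 (L l373 (T t1159 N)))))))) (K a107 (M a75 (F (T t43 (L l391 (T t67 (T t68 (T t69 (K a20 (M a149 (F (T t176 (L l108 (L l409 (T t1023 N)))))) (K a40 (M a149 (F (T t1007 (L l108 (L l409 (T t1023 N)))))) (K a21 (M a105 (F (T t4330 (L l11 (L l391 (T t406 N)))))) (K a41 (M a149 (F (L l22 (T t5 (L l108 (L l409 (T t1023 N))))))) (K a61 (M a170 (F (T t456 (L l108 (L l391 (T t4332 N)))))) (K a22 (M a105 (F (L l108 (L l348 (T t4331 (L l11 (L l66 (L l391 (T t406 N))))))))) (K a42 (M a105 (F (T t4330 (L l66 (L l391 (T t406 N)))))) (K a62 (M a170 (F (T t317 (L l108 (L l391 (T t4332 N)))))) (K a3 (M a149 (F (T t25 (L l108 (L l409 (T t1023 N)))))) N)))))))))))))))) N))))))))))))))))))⟩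
def e0_63__91_119 : Ent 4 := ⟨[a0, a63], [a91, a124], (M a149 (F (T t25 (T t175 (T t176 (L l140 (T t177 (K a192 (M a53 (F (T t178 (L l236 (T t179 (L l236 (L l296 (T t180 N)))))))) (K a21 (M a48 (F (T t4 (L l110 (T t13 (L l18 (T t14 N))))))) (K a85 (M a16 (F (L l455 (T t112 (L l144 (T t190 (L l88 (L l94 (T t278 N))))))))) (K a213 (Fr a106 a192 l519 (Fr a42 a21 l68 (Fr a170 a234 l390 (Fr a255 a85 l476 (V t582))))) (K a42 (M a48 (F (T t187 (L l110 (L l390 (T t13 (L l54 (T t14 N)))))))) (K a106 (M a48 (F (T t48 (L l498 (T t14 (L l390 (L l498 (T t6 (L l390 (T t26 N)))))))))) (K a170 (M a48 (F (T t4 (L l462 (L l481 (T t1 (L l110 (L l390 (T t13 N))))))))) (K a191 (M a252 (F (L l140 (T t940 (L l109 (T t941 N)))))) (K a255 (M a16 (F (T t112 (L l266 (T t190 (L l289 (L l296 (T t191 N)))))))) N))))))))))))))))⟩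
def e0_63__91_120 : Ent 4 := ⟨[a0, a63], [a91, a125], (M a85 (F (T t88 (L l109 (L l434 (T t52 (T t89 (T t90 (K a64 (M a240 (F (T t933 (L l93 (T t387 N))))) (K a192 (M a16 (F (T t96 (L l339 (L l373 (L l481 (T t97 (L l296 (T t98 N))))))))) (K a21 (M a48 (F (T t1699 (L l47 (L l109 (T t100 (L l109 (L l111 (T t50 N))))))))) (K a149 (M a16 (F (T t173 (L l373 (L l375 (L l481 (T t97 (L l93 (L l170 (T t102 N)))))))))) (K a213 (Fr a170 a255 l476 (Fr a42 a21 l68 (Fr a106 a234 l390 (Fr a192 a149 l519 (V t581))))) (K a42 (M a48 (F (L l28 (T t1699 (L l109 (L l111 (L l390 (T t50 (L l28 (L l109 (T t100 N))))))))))) (K a106 (M a48 (F (T t1699 (L l481 (T t1 (L l109 (L l111 (L l390 (T t50 N))))))))) (K a170 (M a16 (F (L l390 (L l404 (T t112 (L l390 (T t98 (L l109 (L l404 (T t113 (L l404 (T t174 N)))))))))))) (K a255 (M a60 (F (T t522 (L l109 (L l295 (L l431 (T t523 (L l295 (L l296 (T t115 (L l295 (L l296 (T t524 N)))))))))))))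 N)))))))))))))))))⟩
def e0_63__91_121 : Ent 4 := ⟨[a0, a63], [a91, a126], (M a149 (F (T t5 (T t175 (T t176 (L l142 (T t177 (K a192 (M a53 (F (T t178 (L l236 (T t179 (L l236 (L l296 (T t180 N)))))))) (K a21 (M a48 (F (T t4 (L l142 (T t13 (L l18 (T t14 N))))))) (K a85 (M a16 (F (L l455 (T t112 (L l142 (L l144 (T t190 (L l88 (L l94 (T t278 N)))))))))) (K a213 (Fr a106 a192 l519 (Fr a42 a21 l68 (Fr a170 a234 l390 (Fr a255 a85 l476 (V t582))))) (K a42 (M a48 (F (T t187 (L l142 (L l390 (T t13 (L l54 (T t14 N)))))))) (K a106 (M a86 (F (L l393 (T t622 (L l373 (L l390 (T t620 (L l393 (L l432 (T t618 (L l93 (L l390 (L l393 (T t1239 (L l390 (L l393 (T t621 N))))))))))))))))) (K a170 (M a48 (F (T t4 (L l462 (L l481 (T t1 (L l142 (L l390 (T t13 N))))))))) (K a191 (M a16 (F (T t112 (L l142 (T t190 (L l213 (T t191 N))))))) (K a255 (M a16 (F (T t112 (L l142 (L l266 (T t190 (L l289 (L l296 (T t191 N))))))))) N))))))))))))))))⟩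
def e0_63__91_122 : Ent 4 := ⟨[a0, a63], [a91, a127], (M a12 (F (T t122 (T t151 (T t152 (T t153 (K a4 (M a60 (F (T t43 (L l481 (T t398 (T t448 N)))))) (K a8 (M a60 (F (T t67 (L l481 (T t398 (L l52 (L l56 (T t448 N)))))))) (K a21 (M a192 (F (T t468 (L l15 (L l347 (L l481 (T t450 (L l50 (L l144 (L l463 (T t2473 N))))))))))) (K a25 (M a192 (F (T t449 (L l15 (L l481 (T t450 (L l56 (L l144 (T t37 N))))))))) (K a29 (M a192 (F (T t449 (L l144 (T t37 (L l15 (L l113 (L l131 (L l371 (T t776 N)))))))))) (K a38 (M a192 (F (T t468 (L l481 (T t450 (L l26 (L l144 (T t37 N)))))))) (K a42 (M a192 (F (T t449 (L l481 (T t450 (L l26 (L l144 (L l390 (L l463 (T t2473 N)))))))))) (K a46 (M a192 (F (T t449 (L l26 (L l144 (L l408 (T t37 (L l113 (L l131 (T t776 N)))))))))) (K a51 (M a192 (F (T t161 (L l138 (L l513 (T t156 (L l144 (L l439 (T t37 N))))))))) N)))))))))))))))⟩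
def e0_63__91_123 : Ent 4 := ⟨[a0, a63], [a91, a128], (M a12 (F (T t122 (T t151 (T t152 (T t153 (K a4 (M a60 (F (T t43 (L l481 (T t398 (T t448 N)))))) (K a8 (M a60 (F (T t67 (L l481 (T t398 (L l52 (L l56 (T t448 N)))))))) (K a21 (M a166 (F (T t2543 (L l15 (L l156 (T t2470 (L l15 (T t2541 N)))))))) (K a25 (M a48 (F (T t550 (L l15 (L l481 (T t1 (L l12 (L l56 (T t866 N))))))))) (K a29 (M a48 (F (T t550 (L l15 (L l481 (T t1 (T t866 N))))))) (K a38 (M a48 (F (T t1580 (L l26 (L l481 (T t2 (L l21 (L l50 (L l355 (T t868 N)))))))))) (K a42 (M a166 (F (L l56 (T t2543 (L l156 (T t2470 (L l56 (T t2541 N)))))))) (K a46 (M a48 (F (T t443 (L l481 (T t1 (L l26 (T t866 N))))))) (K a51 (M a170 (F (T t4159 (L l463 (T t3682 N))))) N)))))))))))))))⟩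
def e0_63__91_124 : Ent 4 := ⟨[a0, a63], [a91, a129], (M a149 (F (T t25 (L l152 (L l309 (T t175 (T t176 (T t177 (K a192 (M a3 (F (T t85 (L l152 (L l292 (L l305 (T t615 (L l93 (L l292 (L l296 (T t616 (L l292 (L l296 (T t1244 N)))))))))))))) (K a21 (M a48 (F (T t16 (L l152 (T t13 (L l18 (L l152 (T t14 N)))))))) (K a85 (M a16 (F (L l455 (T t112 (L l144 (T t190 (L l88 (L l94 (T t278 N))))))))) (K a213 (Fr a106 a192 l519 (Fr a42 a21 l68 (Fr a170 a234 l390 (Fr a255 a85 l476 (V t582))))) (K a42 (M a48 (F (L l54 (T t16 (L l152 (L l390 (T t13 (L l54 (L l152 (T t14 N)))))))))) (K a106 (M a48 (F (T t48 (L l152 (L l498 (T t14 (L l390 (L l498 (T t6 (L l390 (T t26 N))))))))))) (K a170 (M a48 (F (T t184 (L l462 (L l481 (T t1 (L l152 (L l390 (T t13 N))))))))) (K a191 (M a240 (F (T t962 (L l157 (T t963 N))))) (K a255 (M a16 (F (T t112 (L l266 (T t190 (L l289 (L l296 (T t191 N)))))))) N)))))))))))))))))⟩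
def e0_63__91_125 : Ent 4 := ⟨[a0, a63], [a91, a130], (M a85 (F (T t88 (T t52 (T t89 (L l218 (T t90 (K a64 (M a16 (F (T t258 (L l373 (L l481 (T t97 (L l116 (T t98 N)))))))) (K a192 (M a16 (F (T t96 (L l339 (L l373 (L l481 (T t97 (L l296 (T t98 N))))))))) (K a21 (M a48 (F (T t99 (L l218 (T t50 (L l47 (T t100 N))))))) (K a149 (M a16 (F (T t173 (L l373 (L l375 (L l481 (T t97 (L l93 (L l170 (T t102 N)))))))))) (K a213 (Fr a170 a255 l476 (Fr a42 a21 l68 (Fr a106 a234 l390 (Fr a192 a149 l519 (V t581))))) (K a42 (M a48 (F (T t364 (L l218 (L l390 (T t50 (L l28 (T t100 N)))))))) (K a106 (M a48 (F (T t99 (L l481 (T t1 (L l218 (L l390 (T t50 N)))))))) (K a170 (M a150 (F (L l392 (T t1964 (L l373 (L l390 (T t1961 (L l306 (L l392 (T t1960 (L l131 (L l390 (L l392 (T t1962 (L l390 (L l392 (T t1963 N))))))))))))))))) (K a255 (M a16 (F (T t112 (L l289 (T t113 (L l289 (L l296 (T t98 N)))))))) N))))))))))))))))⟩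
def e0_63__91_126 : Ent 4 := ⟨[a0, a63], [a91, a131], (M a85 (F (T t88 (T t52 (T t89 (L l219 (T t90 (K a64 (M a240 (F (T t933 (L l93 (T t387 N))))) (K a192 (M a16 (F (T t96 (L l339 (L l373 (L l481 (T t97 (L l296 (T t98 N))))))))) (K a21 (M a48 (F (T t99 (L l197 (T t50 (L l47 (T t100 N))))))) (K a149 (M a16 (F (T t173 (L l373 (L l375 (L l481 (T t97 (L l93 (L l170 (T t102 N)))))))))) (K a213 (Fr a170 a255 l476 (Fr a42 a21 l68 (Fr a106 a234 l390 (Fr a192 a149 l519 (V t581))))) (K a42 (M a48 (F (T t364 (L l197 (L l390 (T t50 (L l28 (T t100 N)))))))) (K a106 (M a48 (F (T t99 (L l481 (T t1 (L l197 (L l390 (T t50 N)))))))) (K a170 (M a16 (F (L l404 (T t113 (L l390 (T t98 (L l373 (L l390 (L l404 (L l481 (T t97 (L l404 (T t174 N))))))))))))) (K a255 (M a16 (F (T t112 (L l289 (T t113 (L l289 (L l296 (T t98 N)))))))) N))))))))))))))))⟩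
def e0_63__91_127 : Ent 4 := ⟨[a0, a63], [a91, a132], (M a149 (F (T t25 (L l156 (L l334 (T t175 (T t176 (T t177 (K a192 (M a12 (F (T t1252 (L l156 (L l272 (L l310 (L l463 (T t649 (L l272 (L l296 (T t960 (L l272 (L l296 (L l481 (T t1253 N))))))))))))))) (K a21 (M a48 (F (T t16 (L l156 (T t13 (L l18 (L l156 (T t14 N)))))))) (K a85 (M a16 (F (L l455 (T t112 (L l144 (T t190 (L l88 (L l94 (T t278 N))))))))) (K a213 (Fr a106 a192 l519 (Fr a42 a21 l68 (Fr a170 a234 l390 (Fr a255 a85 l476 (V t582))))) (K a42 (M a48 (F (L l54 (T t16 (L l156 (L l390 (T t13 (L l54 (L l156 (T t14 N)))))))))) (K a106 (M a48 (F (T t48 (L l156 (L l498 (T t14 (L l390 (L l498 (T t6 (L l390 (T t26 N))))))))))) (K a170 (M a48 (F (T t184 (L l462 (L l481 (T t1 (L l156 (L l390 (T t13 N))))))))) (K a191 (M a240 (F (T t962 (L l153 (T t963 N))))) (K a255 (M a16 (F (T t112 (L l266 (T t190 (L l289 (L l296 (T t191 N)))))))) N)))))))))))))))))⟩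
def e0_63__91_128 : Ent 4 := ⟨[a0, a63], [a91, a133], (M a149 (F (T t25 (L l160 (L l339 (T t175 (T t176 (T t177 (K a192 (M a15 (F (T t1254 (L l160 (L l268 (L l311 (T t1026 (L l93 (L l268 (L l296 (T t1031 (L l268 (L l296 (T t1255 N)))))))))))))) (K a21 (M a48 (F (T t7 (L l18 (L l160 (L l311 (T t14 (L l160 (T t13 N))))))))) (K a85 (M a16 (F (L l373 (T t504 (L l144 (T t190 (L l88 (L l94 (T t278 N))))))))) (K a213 (Fr a106 a192 l519 (Fr a42 a21 l68 (Fr a170 a234 l390 (Fr a255 a85 l476 (V t582))))) (K a42 (M a48 (F (L l339 (T t187 (L l160 (L l390 (T t13 (L l54 (L l160 (L l311 (T t14 N))))))))))) (K a106 (M a48 (F (T t48 (L l160 (L l311 (L l498 (T t14 (L l390 (T t26 (L l311 (L l390 (L l498 (T t6 N))))))))))))) (K a170 (M a48 (F (T t607 (L l339 (T t11 (L l160 (L l390 (T t13 N)))))))) (K a191 (M a252 (F (T t940 (L l157 (T t941 N))))) (K a255 (M a16 (F (L l311 (T t112 (L l266 (T t190 (L l289 (L l296 (T t191 N)))))))))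 N)))))))))))))))))⟩
def e0_63__91_129 : Ent 4 := ⟨[a0, a63], [a91, a134], (M a85 (F (T t88 (T t52 (T t89 (T t90 (K a64 (M a252 (F (T t91 (L l93 (T t92 N))))) (K a192 (M a16 (F (T t260 (L l339 (L l373 (L l481 (T t97 (L l296 (T t98 N))))))))) (K a21 (M a48 (F (T t99 (T t50 (L l47 (T t100 N)))))) (K a149 (M a16 (F (T t112 (L l314 (T t173 (L l93 (L l170 (T t102 N)))))))) (K a213 (Fr a170 a255 l476 (Fr a42 a21 l68 (Fr a106 a234 l390 (Fr a192 a149 l519 (V t581))))) (K a42 (M a48 (F (T t364 (L l390 (T t50 (L l28 (T t100 N))))))) (K a106 (M a48 (F (T t99 (L l481 (T t1 (L l390 (T t50 N))))))) (K a170 (M a16 (F (L l404 (T t113 (L l390 (T t98 (L l373 (L l390 (L l404 (L l481 (T t97 (L l404 (T t174 N))))))))))))) (K a255 (M a16 (F (T t112 (L l289 (T t113 (L l289 (L l296 (T t98 N)))))))) N)))))))))))))))⟩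
def e0_63__91_130 : Ent 4 := ⟨[a0, a63], [a91, a135], (M a85 (F (T t88 (T t52 (T t89 (T t90 (K a64 (M a240 (F (T t386 (L l93 (T t387 N))))) (K a192 (M a16 (F (T t96 (L l337 (L l339 (L l373 (L l481 (T t97 (L l296 (T t98 N)))))))))) (K a21 (M a48 (F (T t99 (T t50 (L l47 (T t100 N)))))) (K a149 (M a16 (F (T t173 (L l337 (L l373 (L l375 (L l481 (T t97 (L l93 (L l170 (T t102 N))))))))))) (K a213 (Fr a170 a255 l476 (Fr a42 a21 l68 (Fr a106 a234 l390 (Fr a192 a149 l519 (V t581))))) (K a42 (M a48 (F (T t364 (L l390 (T t50 (L l28 (T t100 N))))))) (K a106 (M a48 (F (T t99 (L l337 (L l481 (T t1 (L l390 (T t50 N)))))))) (K a170 (M a16 (F (L l404 (T t113 (L l390 (T t98 (L l337 (L l373 (L l390 (L l404 (L l481 (T t97 (L l404 (T t174 N)))))))))))))) (K a255 (M a16 (F (T t112 (L l289 (T t113 (L l289 (L l296 (T t98 N)))))))) N)))))))))))))))⟩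
def e0_63__91_131 : Ent 4 := ⟨[a0, a63], [a91, a136], (M a85 (F (T t88 (T t52 (T t89 (L l208 (T t90 (K a64 (M a16 (F (T t258 (L l373 (L l481 (T t97 (L l116 (T t98 N)))))))) (K a192 (M a16 (F (T t96 (L l339 (L l373 (L l481 (T t97 (L l296 (T t98 N))))))))) (K a21 (M a48 (F (T t99 (L l208 (T t50 (L l47 (T t100 N))))))) (K a149 (M a16 (F (T t173 (L l373 (L l375 (L l481 (T t97 (L l93 (L l170 (T t102 N)))))))))) (K a213 (Fr a170 a255 l476 (Fr a42 a21 l68 (Fr a106 a234 l390 (Fr a192 a149 l519 (V t581))))) (K a42 (M a48 (F (T t364 (L l208 (L l390 (T t50 (L l28 (T t100 N)))))))) (K a106 (M a48 (F (T t99 (L l481 (T t1 (L l208 (L l390 (T t50 N)))))))) (K a170 (M a153 (F (L l316 (L l402 (T t1989 (L l390 (T t1988 (L l390 (L l402 (T t1990 (L l390 (L l402 (T t1991 (L l402 (T t1992 N))))))))))))))) (K a255 (M a16 (F (T t112 (L l289 (T t113 (L l289 (L l296 (T t98 N)))))))) N))))))))))))))))⟩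
def e0_63__91_132 : Ent 4 := ⟨[a0, a63], [a91, a137], (M a85 (F (T t88 (T t52 (T t89 (T t90 (K a64 (M a252 (F (T t91 (L l93 (T t92 N))))) (K a192 (M a16 (F (T t260 (L l339 (L l373 (L l481 (T t97 (L l296 (T t98 N))))))))) (K a21 (M a48 (F (T t99 (T t50 (L l47 (T t100 N)))))) (K a149 (M a16 (F (T t112 (L l329 (T t173 (L l93 (L l170 (T t102 N)))))))) (K a213 (Fr a170 a255 l476 (Fr a42 a21 l68 (Fr a106 a234 l390 (Fr a192 a149 l519 (V t581))))) (K a42 (M a48 (F (T t364 (L l390 (T t50 (L l28 (T t100 N))))))) (K a106 (M a48 (F (T t99 (L l481 (T t1 (L l390 (T t50 N))))))) (K a170 (M a16 (F (L l404 (T t113 (L l390 (T t98 (L l373 (L l390 (L l404 (L l481 (T t97 (L l404 (T t174 N))))))))))))) (K a255 (M a16 (F (T t112 (L l289 (T t113 (L l289 (L l296 (T t98 N)))))))) N)))))))))))))))⟩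
def e0_63__91_133 : Ent 4 := ⟨[a0, a63], [a91, a138], (M a85 (F (T t88 (T t52 (T t89 (L l206 (T t90 (K a64 (M a240 (F (L l206 (T t386 (L l93 (T t387 N)))))) (K a192 (M a16 (F (T t112 (L l236 (T t173 (L l296 (T t98 N))))))) (K a21 (M a240 (F (T t1552 (L l206 (T t933 (L l93 (L l318 (T t1385 N)))))))) (K a149 (M a16 (F (T t173 (L l373 (L l375 (L l481 (T t97 (L l93 (L l170 (L l206 (T t102 N))))))))))) (K a213 (Fr a170 a255 l476 (Fr a42 a21 l68 (Fr a106 a234 l390 (Fr a192 a149 l519 (V t581))))) (K a42 (M a240 (F (T t1552 (L l206 (L l390 (T t386 (L l93 (L l318 (T t1385 N))))))))) (K a106 (M a48 (F (T t1699 (L l318 (L l481 (T t1 (L l206 (L l390 (T t50 N))))))))) (K a170 (M a154 (F (L l390 (T t2294 (L l318 (L l404 (T t1705 (L l390 (L l404 (T t2295 (L l390 (L l404 (T t1711 (L l404 (T t2296 N))))))))))))))) (K a255 (M a16 (F (T t112 (L l289 (L l296 (T t98 (L l289 (L l318 (T t113 N))))))))) N))))))))))))))))⟩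
def e0_63__91_134 : Ent 4 := ⟨[a0, a63], [a91, a139], (M a85 (F (T t88 (T t52 (T t89 (T t90 (K a64 (M a240 (F (T t933 (L l93 (T t387 N))))) (K a192 (M a16 (F (T t96 (L l339 (L l373 (L l481 (T t97 (L l296 (T t98 N))))))))) (K a21 (M a48 (F (T t99 (T t50 (L l47 (T t100 N)))))) (K a149 (M a16 (F (T t112 (L l331 (T t173 (L l93 (L l170 (L l209 (T t102 N))))))))) (K a213 (Fr a170 a255 l476 (Fr a42 a21 l68 (Fr a106 a234 l390 (Fr a192 a149 l519 (V t581))))) (K a42 (M a48 (F (T t364 (L l390 (T t50 (L l28 (T t100 N))))))) (K a106 (M a48 (F (T t99 (L l481 (T t1 (L l390 (T t50 N))))))) (K a170 (M a16 (F (L l404 (T t113 (L l390 (T t98 (L l373 (L l390 (L l404 (L l481 (T t97 (L l331 (L l404 (T t174 N)))))))))))))) (K a255 (M a16 (F (T t112 (L l289 (T t113 (L l289 (L l296 (T t98 N)))))))) N)))))))))))))))⟩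
def e0_63__91_135 : Ent 4 := ⟨[a0, a63], [a91, a140], (M a85 (F (T t88 (T t52 (T t89 (L l214 (T t90 (K a64 (M a240 (F (T t933 (L l93 (T t387 N))))) (K a192 (M a16 (F (T t96 (L l339 (L l373 (L l481 (T t97 (L l296 (T t98 N))))))))) (K a21 (M a48 (F (T t99 (L l222 (T t50 (L l47 (T t100 N))))))) (K a149 (M a16 (F (T t173 (L l373 (L l375 (L l481 (T t97 (L l93 (L l170 (T t102 N)))))))))) (K a213 (Fr a170 a255 l476 (Fr a42 a21 l68 (Fr a106 a234 l390 (Fr a192 a149 l519 (V t581))))) (K a42 (M a48 (F (T t364 (L l222 (L l390 (T t50 (L l28 (T t100 N)))))))) (K a106 (M a48 (F (T t99 (L l481 (T t1 (L l222 (L l390 (T t50 N)))))))) (K a170 (M a16 (F (L l404 (T t113 (L l390 (T t98 (L l373 (L l390 (L l404 (L l481 (T t97 (L l404 (T t174 N))))))))))))) (K a255 (M a16 (F (T t112 (L l289 (T t113 (L l289 (L l296 (T t98 N)))))))) N))))))))))))))))⟩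
def e0_63__91_136 : Ent 4 := ⟨[a0, a63], [a91, a141], (M a85 (F (T t88 (T t52 (T t89 (T t90 (K a64 (M a240 (F (T t386 (L l93 (T t387 N))))) (K a192 (M a16 (F (T t96 (L l327 (L l339 (L l373 (L l481 (T t97 (L l296 (T t98 N)))))))))) (K a21 (M a48 (F (T t99 (T t50 (L l47 (T t100 N)))))) (K a149 (M a16 (F (T t173 (L l327 (L l373 (L l375 (L l481 (T t97 (L l93 (L l170 (T t102 N))))))))))) (K a213 (Fr a170 a255 l476 (Fr a42 a21 l68 (Fr a106 a234 l390 (Fr a192 a149 l519 (V t581))))) (K a42 (M a48 (F (T t364 (L l390 (T t50 (L l28 (T t100 N))))))) (K a106 (M a48 (F (T t99 (L l327 (L l481 (T t1 (L l390 (T t50 N)))))))) (K a170 (M a16 (F (L l404 (T t113 (L l390 (T t98 (L l327 (L l373 (L l390 (L l404 (L l481 (T t97 (L l404 (T t174 N)))))))))))))) (K a255 (M a16 (F (T t112 (L l289 (T t113 (L l289 (L l296 (T t98 N)))))))) N)))))))))))))))⟩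
def e0_63__91_137 : Ent 4 := ⟨[a0, a63], [a91, a142], (M a85 (F (T t88 (T t52 (T t89 (T t90 (K a64 (M a240 (F (T t933 (L l93 (T t387 N))))) (K a192 (M a16 (F (T t96 (L l339 (L l373 (L l481 (T t97 (L l296 (T t98 N))))))))) (K a21 (M a48 (F (T t99 (T t50 (L l47 (T t100 N)))))) (K a149 (M a16 (F (T t112 (L l326 (T t173 (L l93 (L l170 (L l224 (T t102 N))))))))) (K a213 (Fr a170 a255 l476 (Fr a42 a21 l68 (Fr a106 a234 l390 (Fr a192 a149 l519 (V t581))))) (K a42 (M a48 (F (T t364 (L l390 (T t50 (L l28 (T t100 N))))))) (K a106 (M a48 (F (T t99 (L l481 (T t1 (L l390 (T t50 N))))))) (K a170 (M a16 (F (L l404 (T t113 (L l390 (T t98 (L l373 (L l390 (L l404 (L l481 (T t97 (L l326 (L l404 (T t174 N)))))))))))))) (K a255 (M a16 (F (T t112 (L l289 (T t113 (L l289 (L l296 (T t98 N)))))))) N)))))))))))))))⟩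
def e0_63__91_138 : Ent 4 := ⟨[a0, a63], [a91, a143], (M a85 (F (T t88 (T t52 (T t89 (L l213 (T t90 (K a64 (M a240 (F (T t933 (L l93 (T t387 N))))) (K a192 (M a16 (F (T t96 (T t112 (L l213 (L l296 (T t98 N))))))) (K a21 (M a48 (F (T t99 (L l47 (T t903 (L l47 (T t100 N))))))) (K a149 (M a16 (F (T t101 (T t112 (L l93 (L l170 (L l227 (T t102 N)))))))) (K a213 (Fr a170 a255 l476 (Fr a42 a21 l68 (Fr a106 a234 l390 (Fr a192 a149 l519 (V t581))))) (K a42 (M a48 (F (T t364 (L l390 (T t903 (L l28 (T t100 N))))))) (K a106 (M a48 (F (T t99 (T t48 (L l227 (L l390 (T t50 N))))))) (K a170 (M a16 (F (L l404 (T t113 (L l213 (L l390 (T t98 (L l325 (L l373 (L l390 (L l404 (L l481 (T t97 (L l325 (L l404 (T t174 N)))))))))))))))) (K a255 (M a16 (F (T t112 (L l289 (T t113 (L l213 (L l289 (L l296 (T t98 N))))))))) N))))))))))))))))⟩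
def e0_63__91_139 : Ent 4 := ⟨[a0, a63], [a91, a144], (M a149 (F (T t25 (L l192 (L l484 (T t175 (T t176 (T t177 (K a192 (M a48 (F (T t132 (L l192 (L l236 (L l340 (T t14 (L l236 (L l296 (T t6 (L l236 (L l296 (T t2007 N))))))))))))) (K a21 (M a12 (F (T t647 (L l192 (T t648 (L l50 (L l192 (L l463 (T t649 N))))))))) (K a85 (M a4 (F (T t519 (L l144 (T t653 (L l126 (T t654 N))))))) (K a213 (Fr a106 a192 l519 (Fr a42 a21 l68 (Fr a170 a234 l390 (Fr a255 a85 l476 (V t582))))) (K a42 (M a12 (F (L l26 (T t647 (L l192 (L l390 (T t648 (L l26 (L l192 (L l463 (T t649 N))))))))))) (K a106 (M a12 (F (T t122 (L l192 (L l408 (L l463 (T t649 (L l390 (L l408 (T t960 (L l390 (T t961 N)))))))))))) (K a170 (M a12 (F (T t152 (L l484 (T t991 (L l192 (L l390 (T t648 N)))))))) (K a191 (M a204 (F (T t1043 (L l162 (T t1112 N))))) (K a255 (M a4 (F (T t129 (L l290 (T t653 (L l265 (L l296 (T t1070 N)))))))) N)))))))))))))))))⟩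
def e0_63__91_140 : Ent 4 := ⟨[a0, a63], [a91, a145], (M a149 (F (T t25 (L l196 (L l489 (T t175 (T t176 (T t177 (K a192 (M a51 (F (T t1355 (L l196 (L l232 (L l341 (T t2011 (L l232 (L l296 (T t2012 (L l232 (L l296 (T t2013 N))))))))))))) (K a21 (M a48 (F (T t16 (L l162 (L l196 (T t13 (L l18 (L l196 (T t14 N))))))))) (K a85 (M a16 (F (L l455 (T t112 (L l144 (L l345 (T t190 (L l88 (L l94 (L l162 (T t278 N))))))))))) (K a213 (Fr a106 a192 l519 (Fr a42 a21 l68 (Fr a170 a234 l390 (Fr a255 a85 l476 (V t582))))) (K a42 (M a48 (F (L l54 (T t16 (L l162 (L l196 (L l390 (T t13 (L l54 (L l196 (T t14 N))))))))))) (K a106 (M a48 (F (T t48 (L l196 (L l498 (T t14 (L l390 (L l498 (T t6 (L l162 (L l390 (T t26 N)))))))))))) (K a170 (M a48 (F (T t184 (L l462 (L l481 (T t1 (L l162 (L l196 (L l390 (T t13 N)))))))))) (K a191 (M a252 (F (T t940 (L l193 (T t941 N))))) (K a255 (M a16 (F (T t112 (L l266 (L l345 (T t190 (L l289 (L l296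 (T t191 N))))))))) N)))))))))))))))))⟩
def e0_63__91_141 : Ent 4 := ⟨[a0, a63], [a91, a146], (M a85 (F (T t88 (T t52 (T t89 (T t90 (K a64 (M a252 (F (T t91 (L l93 (T t92 N))))) (K a192 (M a16 (F (T t96 (L l339 (L l373 (L l481 (T t97 (L l296 (T t98 N))))))))) (K a21 (M a48 (F (T t99 (L l197 (T t50 (L l47 (T t100 N))))))) (K a149 (M a16 (F (T t173 (L l373 (L l375 (L l481 (T t97 (L l93 (L l168 (L l170 (T t102 N))))))))))) (K a213 (Fr a170 a255 l476 (Fr a42 a21 l68 (Fr a106 a234 l390 (Fr a192 a149 l519 (V t581))))) (K a42 (M a48 (F (L l28 (T t99 (L l197 (L l390 (T t50 (L l28 (T t100 N))))))))) (K a106 (M a48 (F (T t99 (L l481 (T t1 (L l197 (L l390 (T t50 N)))))))) (K a170 (M a16 (F (L l404 (T t113 (L l390 (T t98 (L l373 (L l390 (L l404 (L l481 (T t97 (L l404 (T t174 N))))))))))))) (K a255 (M a16 (F (T t112 (L l289 (T t113 (L l289 (L l296 (T t98 N)))))))) N)))))))))))))))⟩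
def e0_63__91_142 : Ent 4 := ⟨[a0, a63], [a91, a147], (M a85 (F (T t88 (T t52 (T t89 (T t90 (K a64 (M a240 (F (T t933 (L l93 (T t387 N))))) (K a192 (M a16 (F (T t96 (L l339 (L l373 (L l481 (T t97 (L l169 (L l296 (T t98 N)))))))))) (K a21 (M a48 (F (T t99 (T t50 (L l47 (T t100 N)))))) (K a149 (M a16 (F (T t173 (L l373 (L l375 (L l481 (T t97 (L l93 (L l170 (T t102 N)))))))))) (K a213 (Fr a170 a255 l476 (Fr a42 a21 l68 (Fr a106 a234 l390 (Fr a192 a149 l519 (V t581))))) (K a42 (M a48 (F (T t364 (L l390 (T t50 (L l28 (T t100 N))))))) (K a106 (M a48 (F (T t99 (L l481 (T t1 (L l390 (T t50 N))))))) (K a170 (M a16 (F (L l404 (T t113 (L l169 (L l390 (T t98 (L l373 (L l390 (L l404 (L l481 (T t97 (L l404 (T t174 N)))))))))))))) (K a255 (M a16 (F (T t112 (L l289 (T t113 (L l169 (L l289 (L l296 (T t98 N))))))))) N)))))))))))))))⟩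
def e0_63__91_143 : Ent 4 := ⟨[a0, a63], [a91, a148], (M a149 (F (T t25 (L l216 (L l514 (T t175 (T t176 (T t177 (K a192 (M a60 (F (T t522 (L l216 (L l228 (L l346 (T t462 (L l228 (L l296 (T t1256 (L l228 (L l296 (T t1257 N))))))))))))) (K a21 (M a48 (F (T t16 (L l166 (L l216 (T t13 (L l18 (L l216 (T t14 N))))))))) (K a85 (M a16 (F (L l455 (T t112 (L l144 (L l370 (T t190 (L l88 (L l94 (L l166 (T t278 N))))))))))) (K a213 (Fr a106 a192 l519 (Fr a42 a21 l68 (Fr a170 a234 l390 (Fr a255 a85 l476 (V t582))))) (K a42 (M a48 (F (L l54 (T t16 (L l166 (L l216 (L l390 (T t13 (L l54 (L l216 (T t14 N))))))))))) (K a106 (M a48 (F (T t48 (L l216 (L l498 (T t14 (L l390 (L l498 (T t6 (L l166 (L l390 (T t26 N)))))))))))) (K a170 (M a48 (F (T t184 (L l462 (L l481 (T t1 (L l166 (L l216 (L l390 (T t13 N)))))))))) (K a191 (M a16 (F (T t112 (L l370 (T t190 (L l213 (T t191 N))))))) (K a255 (M a16 (F (T t112 (L l266 (L l370 (T t190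 (L l289 (L l296 (T t191 N))))))))) N)))))))))))))))))⟩
def e0_63__91_144 : Ent 4 := ⟨[a0, a63], [a91, a149], (M a60 (F (T t69 (L l347 (T t67 (L l351 (T t43 (L l347 (L l515 (T t68 (K a20 (M a48 (F (T t70 (L l11 (L l347 (L l481 (L l491 (T t1 (L l11 (L l347 (L l515 (T t235 N)))))))))))) (K a40 (M a48 (F (T t70 (L l347 (L l481 (L l491 (T t1 (L l52 (L l347 (L l515 (T t235 N))))))))))) (K a21 (M a85 (F (T t936 (L l220 (T t114 (L l65 (L l131 (L l163 (L l515 (T t1631 (L l65 (L l163 (L l220 (L l515 (T t1632 N))))))))))))))) (K a41 (M a32 (F (T t1568 (L l65 (L l347 (L l481 (T t219 (L l25 (L l65 (L l347 (T t1569 N))))))))))) (K a61 (M a16 (L l515 (F (T t1140 (L l373 (L l375 (L l481 (T t97 (L l59 (L l371 (T t1141 (K a193 (M a105 (F (T t112 (L l228 (T t404 N))))) (K a105 (M a193 (F (T t112 (L l392 (T t1140 (L l59 (L l371 (L l392 (T t1141 N))))))))) N))))))))))))) (K a22 (M a16 (F (T t2447 (L l66 (L l373 (L l375 (L l481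 (T t97 (L l16 (L l66 (L l371 (T t1141 N)))))))))))) (K a42 (M a255 (F (T t1633 (L l347 (T t1634 (L l22 (L l220 (L l390 (L l515 (T t1635 N)))))))))) (K a62 (M a16 (F (T t1140 (L l66 (L l373 (L l375 (L l481 (T t97 (L l66 (L l371 (T t1141 N))))))))))) (K a3 (M a16 (F (T t112 (L l9 (T t1140 (L l371 (T t1141 N))))))) N)))))))))))))))))))⟩
def e0_63__91_145 : Ent 4 := ⟨[a0, a63], [a91, a150], (M a12 (F (T t122 (T t151 (T t152 (T t153 (K a4 (M a60 (F (T t43 (L l481 (T t398 (T t448 N)))))) (K a8 (M a60 (F (T t68 (L l481 (T t398 (L l52 (L l56 (T t448 N)))))))) (K a21 (M a192 (F (T t836 (L l15 (L l163 (L l347 (L l481 (T t450 (L l15 (L l163 (L l347 (T t157 N)))))))))))) (K a25 (M a192 (F (T t449 (L l15 (L l163 (L l481 (T t450 (L l163 (T t21 N))))))))) (K a29 (M a192 (F (T t449 (L l163 (L l371 (T t21 (L l516 (T t160 N)))))))) (K a38 (M a192 (F (T t156 (L l163 (L l481 (T t450 (L l163 (T t21 N)))))))) (K a42 (M a192 (F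 (T t449 (L l163 (L l481 (T t450 (L l56 (L l163 (T t157 N))))))))) (K a46 (M a192 (F (T t449 (L l163 (T t21 (L l26 (L l408 (L l516 (T t160 N))))))))) (K a51 (M a192 (F (T t1725 (L l163 (L l415 (L l481 (T t450 (L l163 (L l439 (T t21 N)))))))))) N)))))))))))))))⟩
def e0_63__91_146 : Ent 4 := ⟨[a0, a63], [a91, a151], (M a12 (L l373 (F (T t122 (T t151 (T t152 (L l493 (T t153 (K a4 (M a31 (F (T t1369 (T t2084 (L l46 (T t3445 N)))))) (K a8 (M a31 (F (T t1369 (L l56 (T t2084 (L l56 (T t3445 N))))))) (K a21 (M a89 (L l373 (F (T t870 (L l50 (L l463 (L l481 (T t863 (L l50 (L l463 (T t864 (K a211 (M a31 (F (T t1369 (L l50 (L l463 (T t4333 N)))))) (K a31 (M a211 (L l18 (F (T t4334 (L l50 (L l219 (L l463 (T t3372 (K a16 (M a26 (F (T t4334 (L l50 (L l219 (L l463 (T t3372 N))))))) (K a26 (M a16 (F (T t870 (L l355 (L l361 (T t4335 N)))))) N)))))))))) N))))))))))))) (K a25 (M a31 (F (T t3446 (L l56 (T t2084 (L l12 (L l56 (T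 t3445 N)))))))) (K a29 (M a31 (F (T t2084 (L l59 (T t3860 (L l59 (T t4050 (T t4051 (L l59 (L l493 (T t4052 N))))))))))) (K a38 (M a89 (L l373 (F (L l26 (T t2788 (L l50 (L l463 (L l481 (T t863 (L l26 (L l50 (L l463 (T t864 (K a211 (M a31 (F (L l384 (T t2761 (L l26 (T t1369 N)))))) (K a31 (M a211 (F (L l384 (T t4334 (L l26 (L l50 (L l219 (L l463 (T t3372 N))))))))) N))))))))))))))) (K a42 (M a89 (L l373 (F (T t2761 (L l26 (T t870 (L l26 (L l463 (T t864 (K a211 (M a31 (F (T t2761 (L l26 (L l28 (T t1369 N)))))) (K a31 (M a211 (F (T t4334 (L l26 (L l219 (L l463 (T t3372 N))))))) N))))))))))) (K a46 (M a31 (F (L l23 (T t3860 (L l26 (T t4058 (L l23 (L l26 (T t2084 (L l26 (L l493 (T t4053 (L l26 (L l493 (T t4052 N))))))))))))))) (K a51 (M a31 (F (T t2312 (L l39 (T t1369 (T t3445 N)))))) (K a211 (M a31 (F (T t151 (L l374 (T t1369 (L l344 (T t2084 N))))))) (K a31 (M a211 (F (T t151 (L l13 (L l18 (T t122 (L l18 (T t152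 (L l493 (T t153 (K a4 (M a28 (F (T t3236 (L l163 (T t4336 N))))) (K a8 (M a28 (F (L l18 (T t4077 (L l163 (L l316 (T t4336 N))))))) (K a21 (M a16 (F (L l13 (T t871 (T t4337 (L l163 (T t4338 N))))))) (K a25 (M a28 (F (L l18 (T t2735 (L l163 (T t4336 N)))))) (K a29 (M a28 (F (T t3236 (L l163 (L l463 (L l481 (T t4339 N))))))) (K a38 (M a28 (F (L l29 (T t2739 (L l26 (L l163 (T t4336 N))))))) (K a42 (M a28 (F (L l18 (L l22 (T t2735 (L l26 (L l163 (T t4336 N)))))))) (K a46 (M a28 (F (L l163 (L l463 (T t4340 (L l18 (L l23 (T t4077 N)))))))) (K a51 (M a28 (F (T t2739 (L l163 (L l489 (T t4336 N)))))) N))))))))))))))))))) N)))))))))))))))))))⟩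
def e0_63__91_147 : Ent 4 := ⟨[a0, a63], [a91, a152], (M a85 (F (T t88 (T t52 (T t89 (T t90 (K a64 (M a252 (F (T t91 (L l93 (L l204 (T t92 N)))))) (K a192 (M a16 (F (T t96 (L l339 (L l373 (L l481 (T t97 (L l296 (T t98 N))))))))) (K a21 (M a48 (F (T t99 (L l222 (T t50 (L l47 (T t100 N))))))) (K a149 (M a16 (F (T t173 (L l373 (L l375 (L l481 (T t97 (L l93 (L l164 (L l170 (T t102 N))))))))))) (K a213 (Fr a170 a255 l476 (Fr a42 a21 l68 (Fr a106 a234 l390 (Fr a192 a149 l519 (V t581))))) (K a42 (M a48 (F (L l28 (T t99 (L l222 (L l390 (T t50 (L l28 (T t100 N))))))))) (K a106 (M a48 (F (T t99 (L l481 (T t1 (L l222 (L l390 (T t50 N)))))))) (K a170 (M a16 (F (L l404 (T t113 (L l390 (T t98 (L l373 (L l390 (L l404 (L l481 (T t97 (L l404 (T t174 N))))))))))))) (K a255 (M a16 (F (T t112 (L l289 (T t113 (L l289 (L l296 (T t98 N)))))))) N)))))))))))))))⟩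
def e0_63__91_148 : Ent 4 := ⟨[a0, a63], [a91, a153], (M a60 (F (T t67 (T t43 (T t68 (T t69 (K a20 (M a48 (F (T t277 (L l11 (L l481 (T t1 (L l11 (T t235 N)))))))) (K a40 (M a48 (F (T t236 (L l481 (T t1 (L l52 (T t235 N))))))) (K a21 (M a192 (F (T t72 (L l131 (L l167 (L l347 (T t73 (L l167 (L l347 (T t74 N)))))))))) (K a41 (M a192 (F (T t79 (L l65 (L l167 (T t35 (L l131 (L l167 (T t73 N))))))))) (K a61 (M a192 (F (T t72 (L l65 (L l167 (L l515 (T t35 (L l373 (L l501 (T t80 N)))))))))) (K a22 (M a192 (F (T t72 (L l167 (T t21 (L l131 (L l167 (T t73 N)))))))) (K a42 (M a192 (F (T t77 (L l131 (L l167 (T t73 (L l22 (L l167 (T t74 N))))))))) (K a62 (M a192 (F (T t72 (L l167 (T t35 (L l66 (L l373 (L l501 (L l516 (T t80 N)))))))))) (K a3 (M a192 (F (T t2658 (L l167 (L l475 (T t35 (L l131 (L l167 (L l307 (T t73 N)))))))))) N)))))))))))))))⟩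
def e0_63__91_149 : Ent 4 := ⟨[a0, a63], [a91, a154], (M a12 (F (T t122 (T t151 (T t152 (T t153 (K a4 (M a60 (F (T t43 (L l481 (T t398 (T t448 N)))))) (K a8 (M a60 (F (T t67 (L l481 (T t398 (L l52 (L l56 (T t448 N)))))))) (K a21 (M a192 (F (T t836 (L l15 (L l170 (L l347 (L l481 (T t450 (L l15 (L l170 (L l347 (T t157 N)))))))))))) (K a25 (M a192 (F (T t449 (L l15 (L l170 (L l481 (T t450 (L l170 (T t21 N))))))))) (K a29 (M a192 (F (T t449 (L l170 (L l371 (T t21 (L l498 (T t160 N)))))))) (K a38 (M a192 (F (T t156 (L l170 (L l481 (T t450 (L l170 (T t21 N)))))))) (K a42 (M a192 (F (T t449 (L l170 (L l481 (T t450 (L l56 (L l170 (T t157 N))))))))) (K a46 (M a192 (F (T t449 (L l170 (T t21 (L l26 (L l408 (L l498 (T t160 N))))))))) (K a51 (M a192 (F (T t1725 (L l170 (L l415 (L l481 (T t450 (L l170 (L l439 (T t21 N)))))))))) N)))))))))))))))⟩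
def e0_63__91_150 : Ent 4 := ⟨[a0, a63], [a91, a155], (M a85 (L l355 (F (T t88 (T t52 (T t89 (T t90 (K a64 (M a240 (L l355 (F (T t933 (L l93 (T t387 (K a27 (M a219 (F (T t386 (L l93 (T t387 N))))) (K a219 (M a27 (F (T t386 (L l93 (L l240 (T t4341 N)))))) N)))))))) (K a192 (M a16 (L l355 (F (T t112 (L l367 (T t96 (L l169 (L l296 (L l367 (T t98 (K a27 (M a219 (F (T t112 (L l164 (T t4226 N))))) (K a219 (M a27 (F (T t1924 (T t4342 N)))) N)))))))))))) (K a21 (M a240 (L l355 (F (T t1552 (T t933 (L l93 (T t1385 (K a27 (M a219 (F (T t1552 (T t933 (L l93 (T t2804 N)))))) (K a219 (M a27 (F (T t933 (L l93 (L l240 (T t4341 N)))))) N))))))))) (K a149 (M a16 (L l355 (F (T t112 (L l367 (L l511 (T t173 (L l93 (L l164 (L l170 (T t102 (K a27 (M a219 (F (T t112 (L l164 (L l170 (T t4226 N)))))) (K a219 (M a27 (F (L l220 (T t1924 (L l351 (T t4342 N)))))) N))))))))))))) (K a213 (Fr a170 a255 l476 (Fr a42 a21 l68 (Fr a106 a234 l390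 (Fr a192 a149 l519 (V t581))))) (K a42 (M a48 (L l355 (F (T t364 (L l390 (T t50 (L l28 (L l367 (T t100 (K a27 (M a219 (F (L l390 (T t50 (L l12 (L l28 (L l367 (T t4232 N)))))))) (K a219 (M a27 (F (T t364 (L l390 (T t50 (L l28 (L l245 (L l367 (T t100 N))))))))) N))))))))))) (K a106 (M a48 (L l355 (F (T t364 (L l481 (T t1 (L l390 (T t50 (K a27 (M a219 (F (T t364 (L l73 (L l481 (T t1 (L l390 (T t50 N)))))))) (K a219 (M a27 (F (T t364 (L l481 (T t1 (L l390 (T t50 N))))))) N)))))))))) (K a170 (M a51 (L l355 (F (T t589 (L l402 (T t945 (L l390 (L l402 (T t1952 (L l390 (L l499 (T t4343 (K a27 (M a219 (F (T t589 (L l402 (T t945 (L l55 (L l390 (L l499 (T t4343 (L l390 (L l402 (T t1952 N)))))))))))) (K a219 (M a27 (F (T t4344 (L l402 (T t945 N))))) N)))))))))))))) (K a255 (M a16 (L l355 (F (T t112 (L l289 (L l367 (T t113 (L l169 (L l289 (L l296 (L l367 (T t98 (K a27 (M a219 (F (T t112 (L l289 (L l367 (T t4237 (L l169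 (L l289 (L l296 (L l367 (T t98 N))))))))))) (K a219 (M a27 (F (T t112 (L l245 (L l289 (L l367 (T t113 (L l169 (L l245 (L l289 (L l296 (L l367 (T t98 N))))))))))))) N)))))))))))))) (K a27 (M a219 (F (T t88 (T t52 (T t89 (T t90 (K a64 (M a16 (F (T t112 (L l164 (T t4226 N))))) (K a192 (M a16 (F (T t112 (L l164 (T t4226 N))))) (K a21 (M a93 (F (T t4239 (L l12 (L l18 (T t4240 N)))))) (K a149 (M a16 (F (T t112 (L l164 (L l170 (T t4226 N)))))) (K a213 (Fr a170 a255 l476 (Fr a42 a21 l68 (Fr a106 a234 l390 (Fr a192 a149 l519 (V t581))))) (K a42 (M a48 (F (L l390 (T t50 (L l12 (L l28 (L l367 (T t4232 N)))))))) (K a106 (M a89 (F (T t4241 (L l390 (L l408 (T t4242 N)))))) (K a170 (M a89 (F (L l12 (T t4243 (L l390 (L l481 (T t4173 N))))))) (K a255 (M a89 (F (L l12 (T t4243 (L l265 (L l296 (L l481 (T t4173 N)))))))) N))))))))))))))) (K a219 (M a27 (F (T t88 (T t52 (T t89 (T t90 (K a64 (M a16 (F (L l84 (T t1924 (T t4342 N)))))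 (K a192 (M a16 (F (T t1924 (T t4342 N)))) (K a21 (M a240 (F (T t933 (L l93 (L l240 (T t4341 N)))))) (K a149 (M a16 (F (L l220 (T t1924 (L l351 (T t4342 N)))))) (K a213 (Fr a170 a255 l476 (Fr a42 a21 l68 (Fr a106 a234 l390 (Fr a192 a149 l519 (V t581))))) (K a42 (M a153 (F (L l26 (T t1989 (L l93 (L l240 (T t4345 N))))))) (K a106 (M a1 (F (L l390 (T t1500 (L l499 (L l501 (L l511 (T t4346 N)))))))) (K a170 (M a51 (F (T t4344 (L l402 (T t945 N))))) (K a255 (M a51 (F (L l463 (T t4347 (L l296 (T t2283 N)))))) N))))))))))))))) N))))))))))))))))))⟩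
def e0_63__91_151 : Ent 4 := ⟨[a0, a63], [a91, a156], (M a85 (F (T t88 (T t52 (T t89 (T t90 (K a64 (M a240 (F (T t933 (L l93 (T t387 N))))) (K a192 (M a16 (F (T t96 (L l339 (L l373 (L l481 (T t97 (L l165 (L l296 (T t98 N)))))))))) (K a21 (M a48 (F (T t99 (T t50 (L l47 (T t100 N)))))) (K a149 (M a16 (F (T t173 (L l373 (L l375 (L l481 (T t97 (L l93 (L l170 (T t102 N)))))))))) (K a213 (Fr a170 a255 l476 (Fr a42 a21 l68 (Fr a106 a234 l390 (Fr a192 a149 l519 (V t581))))) (K a42 (M a48 (F (T t364 (L l390 (T t50 (L l28 (T t100 N))))))) (K a106 (M a48 (F (T t99 (L l481 (T t1 (L l390 (T t50 N))))))) (K a170 (M a16 (F (L l404 (T t113 (L l165 (L l390 (T t98 (L l373 (L l390 (L l404 (L l481 (T t97 (L l404 (T t174 N)))))))))))))) (K a255 (M a16 (F (T t112 (L l289 (T t113 (L l165 (L l289 (L l296 (T t98 N))))))))) N)))))))))))))))⟩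
def e0_63__91_152 : Ent 4 := ⟨[a0, a63], [a91, a157], (M a85 (F (T t88 (T t52 (T t89 (L l214 (T t90 (K a64 (M a240 (F (T t386 (L l93 (T t387 N))))) (K a192 (M a16 (F (T t96 (L l339 (L l363 (L l373 (L l481 (T t97 (L l165 (L l296 (T t98 N))))))))))) (K a21 (M a48 (F (T t99 (T t50 (L l47 (T t100 N)))))) (K a149 (M a16 (L l167 (F (T t173 (L l363 (L l373 (L l375 (L l481 (T t97 (L l93 (L l170 (T t102 (K a145 (M a153 (F (T t173 (L l359 (T t1991 N))))) (K a153 (M a145 (F (T t173 (L l363 (L l373 (L l375 (L l481 (T t97 (L l93 (L l164 (L l170 (T t102 N)))))))))))) N)))))))))))))) (K a213 (Fr a170 a255 l476 (Fr a42 a21 l68 (Fr a106 a234 l390 (Fr a192 a149 l519 (V t581))))) (K a42 (M a48 (F (T t364 (L l390 (T t50 (L l28 (T t100 N))))))) (K a106 (M a48 (F (T t99 (L l481 (T t1 (L l390 (T t50 N))))))) (K a170 (M a16 (F (L l404 (T t113 (L l165 (L l390 (T t98 (L l363 (L l373 (L l390 (L l404 (L l481 (T t97 (L l404 (T t174 N)))))))))))))))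 (K a255 (M a16 (F (T t112 (L l289 (T t113 (L l165 (L l289 (L l296 (T t98 N))))))))) N))))))))))))))))⟩
def e0_63__91_153 : Ent 4 := ⟨[a0, a63], [a91, a158], (M a85 (F (T t88 (T t52 (T t89 (T t90 (K a64 (M a240 (F (T t933 (L l93 (T t387 N))))) (K a192 (M a16 (F (T t112 (L l362 (T t96 (L l165 (L l296 (L l362 (T t98 N))))))))) (K a21 (M a48 (F (T t1243 (L l47 (L l362 (T t100 (T t50 N))))))) (K a149 (M a16 (F (T t112 (L l362 (L l506 (T t173 (L l93 (L l168 (L l170 (T t102 N)))))))))) (K a213 (Fr a170 a255 l476 (Fr a42 a21 l68 (Fr a106 a234 l390 (Fr a192 a149 l519 (V t581))))) (K a42 (M a48 (F (T t364 (L l390 (T t50 (L l28 (L l362 (T t100 N)))))))) (K a106 (M a48 (F (T t364 (L l481 (T t1 (L l390 (T t50 N))))))) (K a170 (M a16 (F (L l390 (L l404 (T t112 (L l165 (L l362 (L l390 (T t98 (L l362 (L l404 (T t113 (L l362 (L l404 (L l506 (T t174 N)))))))))))))))) (K a255 (M a16 (F (T t112 (L l289 (L l362 (T t113 (L l165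 (L l289 (L l296 (L l362 (T t98 N))))))))))) N)))))))))))))))⟩
def e0_63__91_154 : Ent 4 := ⟨[a0, a63], [a91, a159], (M a12 (F (T t122 (T t151 (T t152 (T t153 (K a4 (M a60 (F (T t43 (L l481 (T t398 (T t448 N)))))) (K a8 (M a60 (F (T t67 (L l481 (T t398 (L l52 (L l56 (T t448 N)))))))) (K a21 (M a192 (F (T t836 (L l15 (L l170 (L l347 (L l481 (T t450 (L l15 (L l170 (L l347 (T t157 N)))))))))))) (K a25 (M a192 (F (T t449 (L l15 (L l170 (L l481 (T t450 (L l170 (T t21 N))))))))) (K a29 (M a192 (F (T t449 (L l170 (L l371 (T t21 (T t160 N))))))) (K a38 (M a192 (F (T t156 (L l170 (L l481 (T t450 (L l170 (T t21 N)))))))) (K a42 (M a192 (F (T t449 (L l170 (L l481 (T t450 (L l56 (L l170 (T t157 N))))))))) (K a46 (M a192 (F (T t449 (L l170 (T t21 (L l26 (L l408 (T t160 N)))))))) (K a51 (M a192 (F (T t1681 (L l513 (T t156 (L l170 (L l415 (L l481 (T t450 N))))))))) N)))))))))))))))⟩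
def e0_63__91_155 : Ent 4 := ⟨[a0, a63], [a91, a160], (M a85 (F (T t88 (T t52 (T t89 (L l180 (T t90 (K a64 (M a16 (F (L l376 (T t258 (T t2820 (L l373 (L l376 (L l481 (T t97 N))))))))) (K a192 (M a16 (F (L l376 (T t96 (T t966 (L l339 (L l373 (L l376 (L l481 (T t97 N)))))))))) (K a21 (M a48 (F (L l376 (T t99 (L l180 (L l192 (T t50 (L l47 (L l376 (T t100 N)))))))))) (K a149 (M a16 (F (T t666 (L l373 (L l375 (L l376 (L l481 (T t97 (L l93 (L l170 (T t102 N))))))))))) (K a213 (Fr a170 a255 l476 (Fr a42 a21 l68 (Fr a106 a234 l390 (Fr a192 a149 l519 (V t581))))) (K a42 (M a48 (F (T t364 (L l180 (L l192 (L l390 (T t50 (L l28 (L l376 (T t100 N)))))))))) (K a106 (M a48 (F (T t364 (L l481 (T t1 (L l180 (L l192 (L l390 (T t50 N))))))))) (K a170 (M a165 (F (L l462 (T t2014 (L l390 (T t2015 (L l373 (L l376 (L l462 (T t2016 (L l88 (L l390 (L l462 (T t2017 (L l390 (L l462 (T t2018 N))))))))))))))))) (K a255 (M a16 (F (L l376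 (T t112 (L l289 (L l296 (T t98 (L l289 (L l376 (T t113 N)))))))))) N))))))))))))))))⟩
def e0_63__91_156 : Ent 4 := ⟨[a0, a63], [a91, a161], (M a85 (F (T t88 (T t52 (T t89 (T t90 (K a64 (M a240 (F (T t933 (L l93 (L l172 (T t387 N)))))) (K a192 (M a16 (F (T t96 (L l339 (L l373 (L l481 (T t97 (L l296 (T t98 N))))))))) (K a21 (M a48 (F (T t99 (L l197 (L l453 (T t50 (L l47 (T t100 N)))))))) (K a149 (M a16 (F (T t173 (L l373 (L l375 (L l481 (T t97 (L l93 (L l170 (T t102 N)))))))))) (K a213 (Fr a170 a255 l476 (Fr a42 a21 l68 (Fr a106 a234 l390 (Fr a192 a149 l519 (V t581))))) (K a42 (M a48 (F (T t364 (L l197 (L l390 (L l453 (T t50 (L l28 (T t100 N))))))))) (K a106 (M a48 (F (T t99 (L l481 (T t1 (L l197 (L l390 (L l453 (T t50 N))))))))) (K a170 (M a16 (F (L l404 (T t113 (L l390 (T t98 (L l373 (L l390 (L l404 (L l481 (T t97 (L l404 (T t174 N))))))))))))) (K a255 (M a16 (F (T t112 (L l289 (T t113 (L l289 (L l296 (T t98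 N)))))))) N)))))))))))))))⟩
def e0_63__91_157 : Ent 4 := ⟨[a0, a63], [a91, a162], (M a85 (F (T t88 (T t52 (T t89 (L l178 (T t90 (K a64 (M a16 (F (L l380 (T t258 (L l116 (T t98 (L l373 (L l380 (L l481 (T t97 N)))))))))) (K a192 (M a16 (F (L l380 (T t96 (T t966 (L l339 (L l373 (L l380 (L l481 (T t97 N)))))))))) (K a21 (M a48 (F (L l380 (T t99 (L l178 (T t50 (L l47 (L l380 (T t100 N))))))))) (K a149 (M a16 (F (T t666 (L l373 (L l375 (L l380 (L l481 (T t97 (L l93 (L l170 (T t102 N))))))))))) (K a213 (Fr a170 a255 l476 (Fr a42 a21 l68 (Fr a106 a234 l390 (Fr a192 a149 l519 (V t581))))) (K a42 (M a48 (F (T t364 (L l178 (L l390 (T t50 (L l28 (L l380 (T t100 N))))))))) (K a106 (M a48 (F (T t364 (L l481 (T t1 (L l178 (L l390 (T t50 N)))))))) (K a170 (M a166 (F (L l390 (T t2020 (L l378 (L l464 (T t2019 (L l88 (L l131 (L l390 (L l464 (T t2021 (L l390 (L l464 (T t2022 (L l464 (L l481 (T t2023 N)))))))))))))))))) (K a255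 (M a16 (F (L l380 (T t112 (L l289 (L l296 (T t98 (L l289 (L l380 (T t113 N)))))))))) N))))))))))))))))⟩
def e0_63__91_158 : Ent 4 := ⟨[a0, a63], [a91, a163], (M a85 (F (T t88 (T t52 (T t89 (T t90 (K a64 (M a240 (F (T t386 (L l93 (L l172 (T t387 N)))))) (K a192 (M a16 (F (T t96 (L l339 (L l373 (L l481 (T t97 (L l296 (T t98 N))))))))) (K a21 (M a48 (F (T t99 (T t50 (L l47 (T t100 N)))))) (K a149 (M a16 (F (T t173 (L l373 (L l375 (L l481 (T t97 (L l93 (L l170 (T t102 N)))))))))) (K a213 (Fr a170 a255 l476 (Fr a42 a21 l68 (Fr a106 a234 l390 (Fr a192 a149 l519 (V t581))))) (K a42 (M a48 (F (T t364 (L l390 (T t50 (L l28 (T t100 N))))))) (K a106 (M a48 (F (T t99 (L l481 (T t1 (L l390 (T t50 N))))))) (K a170 (M a16 (F (L l404 (T t113 (L l390 (T t98 (L l373 (L l390 (L l404 (L l481 (T t97 (L l404 (T t174 N))))))))))))) (K a255 (M a16 (F (T t112 (L l289 (T t113 (L l289 (L l296 (T t98 N)))))))) N)))))))))))))))⟩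
def e0_63__91_159 : Ent 4 := ⟨[a0, a63], [a91, a164], (M a85 (F (T t88 (T t52 (T t89 (T t90 (K a64 (M a240 (F (T t933 (L l93 (L l176 (T t387 N)))))) (K a192 (M a16 (F (T t96 (L l339 (L l373 (L l481 (T t97 (L l296 (T t98 N))))))))) (K a21 (M a48 (F (T t99 (L l222 (L l478 (T t50 (L l47 (T t100 N)))))))) (K a149 (M a16 (F (T t173 (L l373 (L l375 (L l481 (T t97 (L l93 (L l170 (T t102 N)))))))))) (K a213 (Fr a170 a255 l476 (Fr a42 a21 l68 (Fr a106 a234 l390 (Fr a192 a149 l519 (V t581))))) (K a42 (M a48 (F (T t364 (L l222 (L l390 (L l478 (T t50 (L l28 (T t100 N))))))))) (K a106 (M a48 (F (T t99 (L l481 (T t1 (L l222 (L l390 (L l478 (T t50 N))))))))) (K a170 (M a16 (F (L l404 (T t113 (L l390 (T t98 (L l373 (L l390 (L l404 (L l481 (T t97 (L l404 (T t174 N))))))))))))) (K a255 (M a16 (F (T t112 (L l289 (T t113 (L l289 (L l296 (T t98 N)))))))) N)))))))))))))))⟩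
def e0_63__91_160 : Ent 4 := ⟨[a0, a63], [a91, a165], (M a12 (F (T t122 (T t151 (T t152 (T t153 (K a4 (M a60 (F (T t43 (L l481 (L l483 (T t398 (T t448 N))))))) (K a8 (M a60 (F (T t67 (L l481 (L l483 (T t398 (L l52 (L l56 (T t448 N))))))))) (K a21 (M a192 (F (T t836 (L l15 (L l199 (L l347 (L l481 (T t450 (L l15 (L l199 (L l347 (T t157 N)))))))))))) (K a25 (M a192 (F (T t449 (L l15 (L l199 (L l481 (T t450 (L l199 (T t21 N))))))))) (K a29 (M a192 (F (T t449 (L l199 (L l371 (T t21 (L l411 (T t160 N)))))))) (K a38 (M a192 (F (T t156 (L l199 (L l481 (T t450 (L l199 (T t21 N)))))))) (K a42 (M a192 (F (T t449 (L l199 (L l481 (T t450 (L l56 (L l199 (T t157 N))))))))) (K a46 (M a192 (F (T t449 (L l199 (T t21 (L l26 (L l408 (L l411 (T t160 N))))))))) (K a51 (M a192 (F (T t1725 (L l199 (L l415 (L l481 (T t450 (L l199 (L l439 (T t21 N)))))))))) N)))))))))))))))⟩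
def e0_63__91_161 : Ent 4 := ⟨[a0, a63], [a91, a166], (M a60 (F (T t67 (T t43 (T t68 (T t69 (K a20 (M a48 (F (T t64 (L l11 (L l481 (T t1 (L l11 (T t235 N)))))))) (K a40 (M a48 (F (T t64 (L l481 (T t1 (L l52 (T t235 N))))))) (K a21 (M a192 (F (T t72 (L l131 (L l202 (L l347 (T t73 (L l202 (L l347 (T t74 N)))))))))) (K a41 (M a192 (F (T t79 (L l65 (L l202 (T t35 (L l131 (L l202 (T t73 N))))))))) (K a61 (M a192 (F (T t72 (L l65 (L l202 (L l515 (T t35 (L l373 (L l408 (T t80 N)))))))))) (K a22 (M a192 (F (T t72 (L l202 (T t21 (L l131 (L l202 (T t73 N)))))))) (K a42 (M a192 (F (T t77 (L l131 (L l202 (T t73 (L l22 (L l202 (T t74 N))))))))) (K a62 (M a192 (F (T t72 (L l202 (T t35 (L l66 (L l373 (L l408 (L l516 (T t80 N)))))))))) (K a3 (M a192 (F (T t2658 (L l202 (L l475 (T t35 (L l131 (L l202 (L l307 (T t73 N)))))))))) N)))))))))))))))⟩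
def e0_63__91_162 : Ent 4 := ⟨[a0, a63], [a91, a167], (M a149 (L l481 (F (T t5 (T t175 (T t176 (T t177 (K a192 (M a15 (F (L l484 (T t731 (L l268 (L l409 (T t1026 (L l296 (T t1030 (L l93 (L l268 (L l296 (L l409 (T t1031 N)))))))))))))) (K a21 (M a243 (F (L l131 (T t4280 (T t2109 (L l131 (T t2983 N))))))) (K a85 (M a15 (F (T t716 (L l409 (T t4348 (L l144 (L l149 (T t4157 N)))))))) (K a213 (Fr a106 a192 l519 (Fr a42 a21 l68 (Fr a170 a234 l390 (Fr a255 a85 l476 (V t582))))) (K a42 (M a243 (F (L l131 (T t4349 (L l26 (L l390 (T t2109 (L l131 (T t2983 N))))))))) (K a106 (M a15 (F (L l498 (T t731 (L l409 (L l411 (T t1026 (L l390 (T t1030 (L l93 (L l390 (L l409 (L l411 (T t1031 N)))))))))))))) (K a170 (M a15 (F (T t731 (L l173 (L l180 (L l409 (T t4350 (L l149 (L l390 (T t4157 N)))))))))) (K a191 (M a243 (F (T t2109 (L l131 (T t4276 N))))) (K a255 (M a243 (F (L l439 (T t2109 (L l131 (L l296 (L l457 (T t4351 (L l88 (L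 l131 (L l457 (T t4352 N)))))))))))) (K a243 (M a15 (F (T t25 (L l416 (T t716 (L l173 (L l409 (T t4350 N)))))))) (K a15 (M a243 (F (T t25 (L l131 (L l339 (T t4280 (L l131 (T t4353 N)))))))) N))))))))))))))))))⟩
def e0_63__91_163 : Ent 4 := ⟨[a0, a63], [a91, a168], (M a85 (F (T t88 (T t52 (T t89 (L l174 (T t90 (K a64 (M a16 (F (L l400 (T t258 (L l116 (T t98 (L l373 (L l400 (L l481 (T t97 N)))))))))) (K a192 (M a16 (F (L l400 (T t96 (T t966 (L l339 (L l373 (L l400 (L l481 (T t97 N)))))))))) (K a21 (M a48 (F (L l400 (T t99 (L l174 (T t50 (L l47 (L l400 (T t100 N))))))))) (K a149 (M a16 (F (T t666 (L l373 (L l375 (L l400 (L l481 (T t97 (L l93 (L l170 (T t102 N))))))))))) (K a213 (Fr a170 a255 l476 (Fr a42 a21 l68 (Fr a106 a234 l390 (Fr a192 a149 l519 (V t581))))) (K a42 (M a48 (F (T t364 (L l174 (L l390 (T t50 (L l28 (L l400 (T t100 N))))))))) (K a106 (M a48 (F (T t364 (L l481 (T t1 (L l174 (L l390 (T t50 N))))))))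 (K a170 (M a169 (F (L l390 (T t2024 (L l388 (L l474 (T t2025 (L l390 (L l474 (T t2026 (L l390 (L l474 (T t2027 (L l474 (T t2028 N))))))))))))))) (K a255 (M a16 (F (L l400 (T t112 (L l289 (L l296 (T t98 (L l289 (L l400 (T t113 N)))))))))) N))))))))))))))))⟩
def e0_63__91_164 : Ent 4 := ⟨[a0, a63], [a91, a169], (M a12 (F (T t122 (T t151 (T t152 (T t153 (K a4 (M a60 (F (T t570 (L l46 (L l50 (L l393 (L l477 (T t67 (T t448 N))))))))) (K a8 (M a60 (F (T t570 (L l393 (L l477 (T t67 (L l52 (L l56 (T t448 N))))))))) (K a21 (M a192 (F (T t836 (L l15 (L l217 (L l347 (L l481 (T t450 (L l15 (L l217 (L l347 (T t157 N)))))))))))) (K a25 (M a192 (F (T t449 (L l15 (L l217 (L l481 (T t450 (L l217 (T t21 N))))))))) (K a29 (M a192 (F (T t449 (L l217 (L l371 (T t21 (L l393 (T t160 N)))))))) (K a38 (M a192 (F (T t156 (L l217 (L l481 (T t450 (L l217 (T t21 N)))))))) (K a42 (M a192 (F (T t449 (L l217 (L l481 (T t450 (L l56 (L l217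 (T t157 N))))))))) (K a46 (M a192 (F (T t449 (L l217 (T t21 (L l26 (L l393 (L l408 (T t160 N))))))))) (K a51 (M a192 (F (T t1725 (L l217 (L l415 (L l481 (T t450 (L l217 (L l439 (T t21 N)))))))))) N)))))))))))))))⟩
def e0_63__91_165 : Ent 4 := ⟨[a0, a63], [a91, a170], (M a60 (F (T t67 (L l390 (L l392 (T t43 (L l474 (T t68 (L l390 (T t69 (K a20 (M a48 (F (T t64 (L l11 (L l462 (L l481 (T t1 (L l11 (L l474 (T t235 N)))))))))) (K a40 (M a48 (L l392 (F (T t64 (L l462 (L l481 (T t1 (L l52 (L l474 (T t235 (K a105 (M a235 (F (T t70 (L l462 (L l481 (T t1 (L l52 (L l500 (T t1419 N))))))))) (K a235 (M a105 (F (T t70 (L l218 (L l481 (T t1120 N)))))) N)))))))))))) (K a21 (M a192 (F (T t1333 (L l390 (T t1516 (L l65 (L l220 (L l347 (L l392 (T t1636 N)))))))))) (K a41 (M a192 (F (T t1333 (L l390 (T t1516 (L l22 (L l65 (L l220 (L l392 (T t1636 N)))))))))) (K a61 (M a16 (F (L l392 (L l404 (T t1140 (L l373 (L l390 (L l404 (L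 l481 (T t97 (L l59 (L l390 (L l392 (T t1141 N)))))))))))))) (K a22 (M a192 (F (T t1333 (L l66 (L l390 (T t1516 (L l220 (L l392 (T t1636 N))))))))) (K a42 (M a106 (F (T t1512 (L l220 (T t565 (L l22 (L l218 (L l220 (L l392 (T t1637 (L l22 (L l131 (L l392 (T t1638 N)))))))))))))) (K a62 (M a16 (F (L l392 (L l404 (T t1140 (L l66 (L l373 (L l390 (L l404 (L l481 (T t97 (L l66 (L l390 (L l392 (T t1141 N))))))))))))))) (K a3 (M a192 (F (L l477 (T t79 (L l307 (L l390 (T t1516 (L l220 (L l392 (T t1636 N)))))))))) N)))))))))))))))))))⟩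
def e0_63__91_166 : Ent 4 := ⟨[a0, a63], [a91, a171], (M a12 (L l463 (F (T t122 (T t151 (T t152 (T t153 (K a4 (M a15 (L l463 (F (T t716 (T t2544 (L l1 (L l50 (T t2545 (K a11 (M a251 (F (T t715 (L l50 (L l373 (T t732 (L l2 (T t4354 N)))))))) (K a251 (M a11 (F (L l1 (L l464 (T t4355 (T t2576 N)))))) N)))))))))) (K a8 (M a170 (L l463 (F (T t439 (L l219 (T t2498 (T t2626 (K a11 (M a251 (L l2 (F (T t4356 (L l56 (L l475 (T t434 (T t2626 (K a9 (M a10 (F (T t4356 (L l5 (T t2561 N))))) (K a10 (M a9 (F (T t4356 (L l6 (T t3178 N))))) N)))))))))) (K a251 (M a11 (F (T t2102 (L l219 (T t2498 (L l284 (T t2626 N))))))) N))))))))) (K a21 (M a166 (L l463 (F (L l475 (T t2543 (L l15 (T t2470 (L l15 (T t2541 (K a11 (M a251 (F (L l481 (T t4357 (L l88 (L l131 (T t4358 (L l2 (L l15 (T t3877 N)))))))))) (K a251 (M a11 (F (L l265 (L l481 (T t3876 (L l11 (L l50 (L l355 (T t4359 N))))))))) N))))))))))) (K a25 (M a48 (L l463 (F (T t550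 (L l15 (L l481 (T t1 (L l12 (L l56 (T t866 (K a11 (M a251 (F (L l15 (T t607 (L l88 (L l353 (T t4360 N))))))) (K a251 (M a11 (F (L l428 (T t550 (L l15 (L l481 (T t3 (L l12 (L l56 (T t866 N)))))))))) N)))))))))))) (K a29 (M a192 (L l463 (F (T t449 (L l371 (L l475 (T t21 (T t160 (K a11 (M a251 (F (T t836 (L l15 (L l371 (L l475 (T t35 (T t160 N)))))))) (K a251 (M a11 (F (T t1681 (T t4361 N)))) N)))))))))) (K a38 (M a170 (L l463 (F (T t2102 (L l475 (T t3685 (L l50 (T t2626 (K a11 (M a251 (F (T t4362 (L l26 (L l475 (T t434 N)))))) (K a251 (M a11 (F (L l219 (T t2498 (L l48 (L l50 (L l355 (T t2802 N)))))))) N)))))))))) (K a42 (M a255 (L l463 (F (T t2999 (L l481 (T t2031 (L l56 (L l174 (L l390 (T t2032 (K a11 (M a251 (F (T t4363 (L l26 (T t2034 N))))) (K a251 (M a11 (F (T t2999 (L l174 (L l390 (L l464 (L l481 (T t2123 (L l174 (L l219 (L l390 (L l464 (T t4364 N))))))))))))) N)))))))))))) (K a46 (M a192 (L l463 (F (T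 t449 (L l475 (T t21 (L l26 (L l408 (T t160 (K a11 (M a251 (F (T t836 (L l475 (T t35 (L l26 (L l408 (T t160 N)))))))) (K a251 (M a11 (F (T t47 (T t4361 N)))) N))))))))))) (K a51 (M a89 (L l463 (F (T t2788 (L l415 (L l481 (T t4365 (T t4366 (K a11 (M a251 (F (T t4367 (T t2788 N)))) (K a251 (M a11 (F (T t2788 (L l73 (L l355 (T t2802 N)))))) N)))))))))) (K a11 (M a251 (F (T t122 (L l174 (T t4368 (L l174 (T t4369 (K a4 (M a59 (F (L l2 (L l50 (T t4370 (L l207 (L l458 (T t4371 N)))))))) (K a8 (M a10 (F (T t2561 (T t2151 (T t2599 (T t2600 N)))))) N))))))))) (K a251 (M a11 (F (T t151 (T t4372 (L l355 (T t2802 (L l427 (T t4373 (K a8 (M a170 (F (T t2102 (L l219 (T t2498 (L l284 (T t2626 N))))))) N))))))))) N))))))))))))))))))⟩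
def e0_63__91_167 : Ent 4 := ⟨[a0, a63], [a91, a172], (M a85 (F (T t88 (T t52 (T t89 (T t90 (K a64 (M a240 (F (T t386 (L l93 (L l176 (T t387 N)))))) (K a192 (M a16 (F (T t96 (L l339 (L l373 (L l481 (T t97 (L l296 (T t98 N))))))))) (K a21 (M a48 (F (T t99 (T t50 (L l47 (T t100 N)))))) (K a149 (M a16 (F (T t173 (L l373 (L l375 (L l481 (T t97 (L l93 (L l170 (T t102 N)))))))))) (K a213 (Fr a170 a255 l476 (Fr a42 a21 l68 (Fr a106 a234 l390 (Fr a192 a149 l519 (V t581))))) (K a42 (M a48 (F (T t364 (L l390 (T t50 (L l28 (T t100 N))))))) (K a106 (M a48 (F (T t99 (L l481 (T t1 (L l390 (T t50 N))))))) (K a170 (M a16 (F (L l404 (T t113 (L l390 (T t98 (L l373 (L l390 (L l404 (L l481 (T t97 (L l404 (T t174 N))))))))))))) (K a255 (M a16 (F (T t112 (L l289 (T t113 (L l289 (L l296 (T t98 N)))))))) N)))))))))))))))⟩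
def e0_63__91_168 : Ent 4 := ⟨[a0, a63], [a91, a173], (M a85 (F (T t88 (T t52 (T t89 (T t90 (K a64 (M a240 (F (T t386 (L l93 (T t387 N))))) (K a192 (M a16 (F (T t96 (L l339 (L l373 (L l471 (L l481 (T t97 (L l296 (T t98 N)))))))))) (K a21 (M a48 (F (T t99 (T t50 (L l47 (T t100 N)))))) (K a149 (M a16 (F (T t173 (L l373 (L l375 (L l471 (L l481 (T t97 (L l93 (L l170 (T t102 N))))))))))) (K a213 (Fr a170 a255 l476 (Fr a42 a21 l68 (Fr a106 a234 l390 (Fr a192 a149 l519 (V t581))))) (K a42 (M a48 (F (T t364 (L l390 (T t50 (L l28 (T t100 N))))))) (K a106 (M a48 (F (T t99 (L l471 (L l481 (T t1 (L l390 (T t50 N)))))))) (K a170 (M a16 (F (L l404 (T t113 (L l390 (T t98 (L l373 (L l390 (L l404 (L l471 (L l481 (T t97 (L l404 (T t174 N)))))))))))))) (K a255 (M a16 (F (T t112 (L l289 (T t113 (L l289 (L l296 (T t98 N)))))))) N)))))))))))))))⟩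
def e0_63__91_169 : Ent 4 := ⟨[a0, a63], [a91, a174], (M a60 (F (T t67 (T t43 (T t68 (T t69 (K a20 (M a48 (F (T t64 (L l11 (L l481 (T t1 (L l11 (T t235 N)))))))) (K a40 (M a48 (F (T t64 (L l481 (T t1 (L l52 (T t235 N))))))) (K a21 (M a192 (F (T t72 (L l131 (L l347 (T t73 (L l347 (T t74 N)))))))) (K a41 (M a192 (F (T t77 (L l65 (L l470 (T t35 (L l131 (T t73 N)))))))) (K a61 (M a192 (F (T t72 (L l65 (L l470 (L l515 (T t35 (L l373 (T t80 N))))))))) (K a22 (M a192 (F (T t72 (L l470 (T t21 (L l131 (T t73 N))))))) (K a42 (M a192 (F (T t77 (L l131 (T t73 (L l22 (T t74 N))))))) (K a62 (M a192 (F (T t72 (L l470 (T t35 (L l66 (L l373 (L l516 (T t80 N))))))))) (K a3 (M a192 (F (T t1343 (L l477 (T t79 (L l470 (L l475 (T t35 N)))))))) N)))))))))))))))⟩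
def e0_63__91_170 : Ent 4 := ⟨[a0, a63], [a91, a175], (M a12 (F (T t122 (T t151 (T t152 (T t153 (K a4 (M a60 (F (T t43 (L l469 (L l481 (T t398 (T t448 N))))))) (K a8 (M a60 (F (T t67 (L l469 (L l481 (T t398 (L l52 (L l56 (T t448 N))))))))) (K a21 (M a192 (F (T t836 (L l15 (L l347 (L l481 (T t450 (L l15 (L l347 (T t157 N)))))))))) (K a25 (M a192 (F (T t449 (L l15 (L l481 (T t450 (L l469 (T t21 N)))))))) (K a29 (M a192 (F (T t449 (L l371 (L l469 (T t21 (T t160 N))))))) (K a38 (M a192 (F (T t836 (L l481 (T t450 (L l469 (T t21 N))))))) (K a42 (M a192 (F (T t449 (L l481 (T t450 (L l56 (T t157 N))))))) (K a46 (M a192 (F (T t449 (L l469 (T t21 (L l26 (L l408 (T t160 N)))))))) (K a51 (M a192 (F (T t1681 (L l513 (T t156 (L l415 (L l481 (T t450 N)))))))) N)))))))))))))))⟩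
def e0_63__91_171 : Ent 4 := ⟨[a0, a63], [a91, a176], (M a85 (F (T t88 (T t52 (T t89 (L l190 (T t90 (K a64 (M a240 (F (L l190 (T t933 (L l93 (L l192 (T t387 N))))))) (K a192 (M a16 (F (T t96 (L l339 (L l373 (L l481 (T t97 (L l296 (T t98 N))))))))) (K a21 (M a240 (F (T t1552 (L l190 (T t933 (L l93 (L l190 (L l192 (T t1385 N))))))))) (K a149 (M a16 (F (T t173 (L l373 (L l375 (L l481 (T t97 (L l93 (L l170 (L l227 (T t102 N))))))))))) (K a213 (Fr a170 a255 l476 (Fr a42 a21 l68 (Fr a106 a234 l390 (Fr a192 a149 l519 (V t581))))) (K a42 (M a240 (F (T t1552 (L l54 (L l190 (L l390 (T t933 (L l93 (L l190 (L l192 (T t1385 N))))))))))) (K a106 (M a48 (F (T t364 (L l481 (T t1 (L l190 (L l390 (L l498 (T t2029 N))))))))) (K a170 (M a16 (F (L l404 (T t113 (L l390 (T t98 (L l373 (L l390 (L l404 (L l481 (T t97 (L l404 (T t174 N))))))))))))) (K a255 (M a16 (F (T t112 (L l289 (T t113 (L l289 (L l296 (T t98 N)))))))) N))))))))))))))))⟩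
def e0_63__91_172 : Ent 4 := ⟨[a0, a63], [a91, a177], (M a85 (F (T t88 (T t52 (T t89 (T t90 (K a64 (M a252 (F (T t91 (L l93 (T t92 N))))) (K a192 (M a16 (F (T t96 (L l339 (L l373 (L l481 (T t97 (L l296 (T t98 N))))))))) (K a21 (M a48 (F (T t99 (L l182 (L l417 (T t50 (L l47 (T t100 N)))))))) (K a149 (M a16 (F (T t173 (L l373 (L l375 (L l481 (T t97 (L l93 (L l170 (T t102 N)))))))))) (K a213 (Fr a170 a255 l476 (Fr a42 a21 l68 (Fr a106 a234 l390 (Fr a192 a149 l519 (V t581))))) (K a42 (M a48 (F (T t364 (L l182 (L l390 (L l417 (T t50 (L l28 (T t100 N))))))))) (K a106 (M a48 (F (T t99 (L l481 (T t1 (L l182 (L l390 (L l417 (T t50 N))))))))) (K a170 (M a16 (F (L l404 (T t113 (L l390 (T t98 (L l373 (L l390 (L l404 (L l481 (T t97 (L l404 (T t174 N))))))))))))) (K a255 (M a16 (F (T t112 (L l289 (T t113 (L l289 (L l296 (T t98 N)))))))) N)))))))))))))))⟩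
def e0_63__91_173 : Ent 4 := ⟨[a0, a63], [a91, a178], (M a85 (F (T t88 (T t52 (T t89 (T t90 (K a64 (M a252 (F (T t91 (L l93 (T t92 N))))) (K a192 (M a16 (F (T t96 (L l339 (L l373 (L l481 (T t97 (L l296 (T t98 N))))))))) (K a21 (M a48 (F (T t1699 (L l47 (T t100 (L l182 (T t50 N))))))) (K a149 (M a16 (F (T t173 (L l373 (L l375 (L l481 (T t97 (L l93 (L l170 (L l224 (T t102 N))))))))))) (K a213 (Fr a170 a255 l476 (Fr a42 a21 l68 (Fr a106 a234 l390 (Fr a192 a149 l519 (V t581))))) (K a42 (M a48 (F (T t364 (L l182 (L l390 (T t50 (L l28 (T t100 N)))))))) (K a106 (M a48 (F (T t1699 (L l481 (T t1 (L l182 (L l390 (T t50 N)))))))) (K a170 (M a16 (F (L l404 (T t113 (L l390 (T t98 (L l373 (L l390 (L l404 (L l481 (T t97 (L l404 (T t174 N))))))))))))) (K a255 (M a16 (F (T t112 (L l289 (T t113 (L l289 (L l296 (T t98 N)))))))) N)))))))))))))))⟩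
def e0_63__91_174 : Ent 4 := ⟨[a0, a63], [a91, a179], (M a85 (F (T t88 (T t52 (T t89 (L l189 (T t90 (K a64 (M a240 (F (T t933 (L l93 (T t387 N))))) (K a192 (M a16 (F (T t96 (L l339 (L l373 (L l481 (T t97 (L l296 (T t98 N))))))))) (K a21 (M a48 (F (T t99 (L l182 (T t50 (L l47 (T t100 N))))))) (K a149 (M a16 (F (T t173 (L l373 (L l375 (L l481 (T t97 (L l93 (L l170 (T t102 N)))))))))) (K a213 (Fr a170 a255 l476 (Fr a42 a21 l68 (Fr a106 a234 l390 (Fr a192 a149 l519 (V t581))))) (K a42 (M a48 (F (T t364 (L l182 (L l390 (T t50 (L l28 (T t100 N)))))))) (K a106 (M a48 (F (T t99 (L l481 (T t1 (L l182 (L l390 (T t50 N)))))))) (K a170 (M a16 (F (L l404 (T t113 (L l390 (T t98 (L l373 (L l390 (L l404 (L l481 (T t97 (L l404 (T t174 N))))))))))))) (K a255 (M a16 (F (T t112 (L l289 (T t113 (L l289 (L l296 (T t98 N)))))))) N))))))))))))))))⟩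
def e0_63__91_175 : Ent 4 := ⟨[a0, a63], [a91, a180], (M a85 (F (T t88 (T t52 (T t89 (T t90 (K a64 (M a16 (F (T t258 (L l373 (L l481 (T t97 (L l116 (T t98 N)))))))) (K a192 (M a16 (F (T t96 (L l339 (L l373 (L l481 (T t97 (L l296 (T t98 N))))))))) (K a21 (M a48 (F (T t99 (L l186 (L l442 (T t50 (L l47 (T t100 N)))))))) (K a149 (M a16 (F (T t173 (L l373 (L l375 (L l481 (T t97 (L l93 (L l170 (T t102 N)))))))))) (K a213 (Fr a170 a255 l476 (Fr a42 a21 l68 (Fr a106 a234 l390 (Fr a192 a149 l519 (V t581))))) (K a42 (M a48 (F (T t364 (L l186 (L l390 (L l442 (T t50 (L l28 (T t100 N))))))))) (K a106 (M a48 (F (T t99 (L l481 (T t1 (L l186 (L l390 (L l442 (T t50 N))))))))) (K a170 (M a16 (F (L l404 (T t113 (L l390 (T t98 (L l373 (L l390 (L l404 (L l481 (T t97 (L l404 (T t174 N))))))))))))) (K a255 (M a16 (F (T t112 (L l289 (T t113 (L l289 (L l296 (T t98 N)))))))) N)))))))))))))))⟩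
def e0_63__91_176 : Ent 4 := ⟨[a0, a63], [a91, a181], (M a12 (F (T t122 (T t151 (T t152 (L l423 (T t153 (K a4 (M a60 (F (T t43 (L l443 (L l481 (T t398 (T t448 N))))))) (K a8 (M a60 (F (T t67 (L l443 (L l481 (T t398 (L l52 (L l56 (T t448 N))))))))) (K a21 (M a192 (F (T t836 (L l15 (L l199 (L l347 (L l481 (T t450 (L l15 (L l199 (L l347 (T t157 N)))))))))))) (K a25 (M a192 (F (T t449 (L l15 (L l199 (L l481 (T t450 (L l199 (T t21 N))))))))) (K a29 (M a192 (F (T t449 (L l199 (L l371 (T t21 (L l183 (T t160 N)))))))) (K a38 (M a192 (F (T t156 (L l199 (L l481 (T t450 (L l199 (T t21 N)))))))) (K a42 (M a192 (F (T t449 (L l199 (L l481 (T t450 (L l56 (L l199 (T t157 N))))))))) (K a46 (M a192 (F (T t449 (L l199 (T t21 (L l26 (L l183 (L l408 (T t160 N))))))))) (K a51 (M a192 (F (T t159 (L l199 (L l415 (L l481 (T t450 (L l199 (L l439 (T t21 N)))))))))) N))))))))))))))))⟩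
def e0_63__91_177 : Ent 4 := ⟨[a0, a63], [a91, a182], (M a149 (F (T t5 (T t175 (T t176 (T t177 (K a192 (M a53 (F (T t178 (L l236 (T t179 (L l183 (L l236 (L l296 (T t180 N))))))))) (K a21 (M a48 (F (T t4 (T t13 (L l18 (T t14 N)))))) (K a85 (M a16 (F (L l455 (T t112 (L l144 (T t190 (L l88 (L l94 (T t278 N))))))))) (K a213 (Fr a106 a192 l519 (Fr a42 a21 l68 (Fr a170 a234 l390 (Fr a255 a85 l476 (V t582))))) (K a42 (M a48 (F (T t187 (L l390 (T t13 (L l54 (T t14 N))))))) (K a106 (M a48 (F (T t48 (L l498 (T t14 (L l390 (L l422 (L l498 (T t6 (L l390 (T t26 N))))))))))) (K a170 (M a48 (F (T t4 (L l462 (L l481 (T t1 (L l390 (T t13 N)))))))) (K a191 (M a240 (F (T t962 (L l444 (T t963 N))))) (K a255 (M a16 (F (T t112 (L l266 (T t190 (L l289 (L l296 (T t191 N)))))))) N)))))))))))))))⟩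
def e0_63__91_178 : Ent 4 := ⟨[a0, a63], [a91, a183], (M a12 (F (T t122 (T t151 (T t152 (L l421 (T t153 (K a4 (M a60 (F (T t43 (L l481 (T t398 (T t448 N)))))) (K a8 (M a60 (F (T t67 (L l481 (T t398 (L l52 (L l56 (T t448 N)))))))) (K a21 (M a192 (F (T t836 (L l15 (L l202 (L l347 (L l481 (T t450 (L l50 (L l463 (T t2473 N))))))))))) (K a25 (M a192 (F (T t836 (L l15 (L l202 (L l481 (T t450 (L l189 (T t202 N))))))))) (K a29 (M a192 (F (T t836 (L l189 (T t202 (L l15 (L l202 (L l371 (L l463 (T t2569 N)))))))))) (K a38 (M a192 (F (T t836 (L l202 (L l481 (T t450 (L l189 (T t202 N)))))))) (K a42 (M a192 (F (T t836 (L l202 (L l481 (T t450 (L l26 (L l390 (L l463 (T t2473 N)))))))))) (K a46 (M a192 (F (T t836 (L l189 (L l408 (T t202 (L l202 (L l463 (T t2569 N))))))))) (K a51 (M a192 (F (T t1681 (L l513 (T t836 (L l202 (L l415 (L l481 (T t450 N))))))))) N))))))))))))))))⟩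
def e0_63__91_179 : Ent 4 := ⟨[a0, a63], [a91, a184], (M a85 (F (T t88 (T t52 (T t89 (T t90 (K a64 (M a204 (F (T t1575 (L l204 (T t1576 N))))) (K a192 (M a16 (F (T t96 (L l339 (L l373 (L l481 (T t97 (L l296 (T t98 N))))))))) (K a21 (M a48 (F (T t1699 (L l47 (T t100 (L l186 (T t50 N))))))) (K a149 (M a16 (F (T t173 (L l373 (L l375 (L l481 (T t97 (L l93 (L l170 (L l209 (T t102 N))))))))))) (K a213 (Fr a170 a255 l476 (Fr a42 a21 l68 (Fr a106 a234 l390 (Fr a192 a149 l519 (V t581))))) (K a42 (M a48 (F (T t364 (L l186 (L l390 (T t50 (L l28 (T t100 N)))))))) (K a106 (M a48 (F (T t1699 (L l481 (T t1 (L l186 (L l390 (T t50 N)))))))) (K a170 (M a16 (F (L l404 (T t113 (L l390 (T t98 (L l373 (L l390 (L l404 (L l481 (T t97 (L l404 (T t174 N))))))))))))) (K a255 (M a16 (F (T t112 (L l289 (T t113 (L l289 (L l296 (T t98 N)))))))) N)))))))))))))))⟩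
def e0_63__91_180 : Ent 4 := ⟨[a0, a63], [a91, a185], (M a149 (F (T t5 (T t175 (T t176 (T t177 (K a192 (M a53 (F (T t178 (L l236 (T t179 (L l187 (L l236 (L l296 (T t180 N))))))))) (K a21 (M a48 (F (T t4 (T t13 (L l18 (T t14 N)))))) (K a85 (M a16 (F (L l455 (T t112 (L l144 (T t190 (L l88 (L l94 (T t278 N))))))))) (K a213 (Fr a106 a192 l519 (Fr a42 a21 l68 (Fr a170 a234 l390 (Fr a255 a85 l476 (V t582))))) (K a42 (M a48 (F (T t187 (L l390 (T t13 (L l54 (T t14 N))))))) (K a106 (M a48 (F (T t48 (L l498 (T t14 (L l390 (L l437 (L l498 (T t6 (L l390 (T t26 N))))))))))) (K a170 (M a48 (F (T t4 (L l462 (L l481 (T t1 (L l390 (T t13 N)))))))) (K a191 (M a240 (F (T t962 (L l429 (T t963 N))))) (K a255 (M a16 (F (T t112 (L l266 (T t190 (L l289 (L l296 (T t191 N)))))))) N)))))))))))))))⟩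
def e0_63__91_181 : Ent 4 := ⟨[a0, a63], [a91, a186], (M a12 (F (T t122 (T t151 (T t152 (T t153 (K a4 (M a60 (F (T t43 (L l481 (T t398 (T t448 N)))))) (K a8 (M a60 (F (T t67 (L l481 (T t398 (L l52 (L l56 (T t448 N)))))))) (K a21 (M a192 (F (T t836 (L l15 (L l347 (L l481 (T t450 (L l15 (L l347 (T t157 N)))))))))) (K a25 (M a192 (F (T t449 (L l15 (L l481 (T t450 (L l440 (T t21 N)))))))) (K a29 (M a192 (F (T t449 (L l371 (L l440 (T t21 (T t160 N))))))) (K a38 (M a192 (F (T t836 (L l481 (T t450 (L l440 (T t21 N))))))) (K a42 (M a192 (F (T t449 (L l481 (T t450 (L l56 (T t157 N))))))) (K a46 (M a192 (F (T t449 (L l440 (T t21 (L l26 (L l408 (T t160 N)))))))) (K a51 (M a192 (F (T t1681 (L l513 (T t156 (L l415 (L l481 (T t450 N)))))))) N)))))))))))))))⟩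
def e0_63__91_182 : Ent 4 := ⟨[a0, a63], [a91, a187], (M a60 (F (T t67 (T t43 (T t68 (T t69 (K a20 (M a48 (F (T t138 (L l11 (L l481 (T t1 (L l11 (T t235 N)))))))) (K a40 (M a48 (F (T t48 (L l439 (T t64 (L l52 (T t235 N))))))) (K a21 (M a192 (F (T t72 (L l131 (L l347 (T t73 (L l347 (T t74 N)))))))) (K a41 (M a192 (F (T t77 (L l65 (L l439 (T t35 (L l131 (T t73 N)))))))) (K a61 (M a192 (F (T t72 (L l65 (L l439 (L l515 (T t35 (L l373 (T t80 N))))))))) (K a22 (M a192 (F (T t72 (L l439 (T t21 (L l131 (T t73 N))))))) (K a42 (M a192 (F (T t77 (L l131 (T t73 (L l22 (T t74 N))))))) (K a62 (M a192 (F (T t72 (L l439 (T t35 (L l66 (L l373 (L l516 (T t80 N))))))))) (K a3 (M a192 (F (T t1343 (L l477 (T t79 (L l439 (L l475 (T t35 N)))))))) N)))))))))))))))⟩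
def e0_63__91_183 : Ent 4 := ⟨[a0, a63], [a91, a188], (M a85 (F (T t88 (T t52 (T t89 (L l185 (T t90 (K a64 (M a240 (F (T t933 (L l93 (T t387 N))))) (K a192 (M a16 (F (T t96 (L l339 (L l373 (L l481 (T t97 (L l296 (T t98 N))))))))) (K a21 (M a48 (F (T t99 (L l186 (T t50 (L l47 (T t100 N))))))) (K a149 (M a16 (F (T t173 (L l373 (L l375 (L l481 (T t97 (L l93 (L l170 (T t102 N)))))))))) (K a213 (Fr a170 a255 l476 (Fr a42 a21 l68 (Fr a106 a234 l390 (Fr a192 a149 l519 (V t581))))) (K a42 (M a48 (F (T t364 (L l186 (L l390 (T t50 (L l28 (T t100 N)))))))) (K a106 (M a48 (F (T t99 (L l481 (T t1 (L l186 (L l390 (T t50 N)))))))) (K a170 (M a16 (F (L l404 (T t113 (L l390 (T t98 (L l373 (L l390 (L l404 (L l481 (T t97 (L l404 (T t174 N))))))))))))) (K a255 (M a16 (F (T t112 (L l289 (T t113 (L l289 (L l296 (T t98 N)))))))) N))))))))))))))))⟩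
def e0_63__91_184 : Ent 4 := ⟨[a0, a63], [a91, a189], (M a12 (F (T t122 (T t151 (T t152 (T t153 (K a4 (M a60 (F (T t43 (L l431 (L l481 (T t398 (T t448 N))))))) (K a8 (M a60 (F (T t67 (L l431 (L l481 (T t398 (L l52 (L l56 (T t448 N))))))))) (K a21 (M a192 (F (T t836 (L l15 (L l217 (L l347 (L l481 (T t450 (L l15 (L l217 (L l347 (T t157 N)))))))))))) (K a25 (M a192 (F (T t449 (L l15 (L l217 (L l481 (T t450 (L l217 (T t21 N))))))))) (K a29 (M a192 (F (T t449 (L l217 (L l371 (T t21 (T t160 N))))))) (K a38 (M a192 (F (T t156 (L l217 (L l481 (T t450 (L l217 (T t21 N)))))))) (K a42 (M a192 (F (T t449 (L l217 (L l481 (T t450 (L l56 (L l217 (T t157 N))))))))) (K a46 (M a192 (F (T t449 (L l217 (T t21 (L l26 (L l408 (T t160 N)))))))) (K a51 (M a192 (F (T t1681 (L l513 (T t156 (L l217 (L l415 (L l481 (T t450 N))))))))) N)))))))))))))))⟩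
def e0_63__91_185 : Ent 4 := ⟨[a0, a63], [a91, a190], (M a12 (F (T t122 (T t151 (T t152 (T t153 (K a4 (M a60 (F (T t43 (L l481 (T t398 (T t448 N)))))) (K a8 (M a60 (F (T t67 (L l481 (T t398 (L l52 (L l56 (T t448 N)))))))) (K a21 (M a192 (F (T t836 (L l15 (L l347 (L l481 (T t450 (L l15 (L l347 (T t157 N)))))))))) (K a25 (M a192 (F (T t449 (L l15 (L l481 (T t450 (L l434 (T t21 N)))))))) (K a29 (M a192 (F (T t449 (L l371 (L l434 (T t21 (T t160 N))))))) (K a38 (M a192 (F (T t836 (L l481 (T t450 (L l434 (T t21 N))))))) (K a42 (M a192 (F (T t449 (L l481 (T t450 (L l56 (T t157 N))))))) (K a46 (M a192 (F (T t449 (L l434 (T t21 (L l26 (L l408 (T t160 N)))))))) (K a51 (M a192 (F (T t1681 (L l513 (T t156 (L l415 (L l481 (T t450 N)))))))) N)))))))))))))))⟩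
def e0_63__91_186 : Ent 4 := ⟨[a0, a63], [a91, a191], (M a12 (F (T t122 (T t151 (T t152 (T t153 (K a4 (M a60 (F (T t43 (L l481 (T t398 (T t448 N)))))) (K a8 (M a60 (F (T t67 (L l481 (T t398 (L l52 (L l56 (T t448 N)))))))) (K a21 (M a192 (F (T t468 (L l481 (T t221 (L l15 (L l220 (L l347 (T t157 N))))))))) (K a25 (M a192 (F (T t449 (L l481 (T t221 (L l15 (L l220 (T t35 N)))))))) (K a29 (M a192 (F (T t449 (L l15 (L l220 (L l371 (T t35 (L l189 (T t160 N))))))))) (K a38 (M a192 (F (T t468 (L l26 (L l481 (T t221 (L l50 (L l220 (T t35 N))))))))) (K a42 (M a192 (F (T t449 (L l26 (L l390 (L l481 (T t221 (L l56 (L l220 (T t157 N)))))))))) (K a46 (M a192 (F (T t449 (L l220 (T t35 (L l26 (L l189 (L l408 (T t160 N))))))))) (K a51 (M a149 (F (T t4374 (T t960 N)))) N)))))))))))))))⟩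
def e0_63__91_187 : Ent 4 := ⟨[a0, a63], [a91, a192], (M a12 (F (T t150 (L l489 (T t122 (L l489 (T t151 (L l489 (T t152 (L l489 (T t153 (K a4 (M a60 (F (T t570 (L l46 (L l50 (L l309 (T t67 (T t448 N)))))))) (K a8 (M a60 (F (T t116 (L l339 (L l481 (T t398 (L l52 (L l56 (T t448 N))))))))) (K a21 (M a255 (F (T t2126 (L l232 (T t2034 (L l15 (L l272 (T t2032 N)))))))) (K a25 (M a48 (F (T t865 (L l15 (L l339 (L l481 (T t1 (L l12 (L l56 (T t866 N)))))))))) (K a29 (M a48 (F (T t145 (L l15 (L l339 (L l481 (T t1 (T t866 N)))))))) (K a38 (M a48 (F (T t867 (L l26 (L l339 (L l481 (T t2 (L l21 (L l50 (L l355 (T t868 N))))))))))) (K a42 (M a255 (F (T t2033 (L l26 (L l232 (T t2034 (L l56 (L l272 (L l390 (T t2032 N)))))))))) (K a46 (M a48 (F (T t867 (L l339 (L l481 (T t1 (L l26 (T t866 N)))))))) (K a51 (M a16 (L l489 (F (T t112 (L l39 (L l514 (T t871 (T t872 (K a145 (M a98 (F (T t112 (L l39 (L l514 (T t871 (T t872 N)))))))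 (K a98 (M a145 (F (T t112 (L l39 (L l514 (T t871 (T t872 N))))))) N)))))))))) N))))))))))))))))))))⟩
def e0_63__91_188 : Ent 4 := ⟨[a0, a63], [a91, a193], (M a85 (F (T t52 (L l228 (L l293 (T t88 (L l293 (T t89 (L l228 (T t90 (K a64 (M a240 (F (T t386 (L l93 (L l293 (T t387 N)))))) (K a192 (M a195 (F (T t883 (L l309 (L l373 (T t2035 (L l131 (L l293 (L l296 (T t894 (L l305 (T t2036 N)))))))))))) (K a21 (M a48 (F (T t99 (T t50 (L l47 (T t100 N)))))) (K a149 (M a61 (F (L l305 (T t505 (L l220 (L l293 (T t506 (L l217 (T t2037 N))))))))) (K a213 (Fr a170 a255 l476 (Fr a42 a21 l68 (Fr a106 a234 l390 (Fr a192 a149 l519 (V t581))))) (K a42 (M a48 (F (T t364 (L l390 (T t50 (L l28 (T t100 N))))))) (K a106 (M a48 (F (T t99 (L l481 (T t1 (L l390 (T t50 N))))))) (K a170 (M a16 (F (L l404 (T t113 (L l293 (L l390 (T t98 (L l373 (L l390 (L l404 (L l481 (T t97 (L l233 (L l404 (T t174 N))))))))))))))) (K a255 (M a16 (F (T t112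 (L l289 (T t113 (L l289 (L l293 (L l296 (T t98 N))))))))) N)))))))))))))))))))⟩
def e0_63__91_189 : Ent 4 := ⟨[a0, a63], [a91, a194], (M a12 (F (T t122 (T t151 (T t152 (T t153 (K a4 (M a60 (F (T t43 (L l336 (L l481 (T t398 (T t448 N))))))) (K a8 (M a60 (F (T t67 (L l336 (L l481 (T t398 (L l52 (L l56 (T t448 N))))))))) (K a21 (M a192 (F (T t836 (L l15 (L l270 (L l347 (L l481 (T t450 (L l15 (L l270 (L l347 (T t157 N)))))))))))) (K a25 (M a192 (F (T t449 (L l15 (L l270 (L l481 (T t450 (T t21 N)))))))) (K a29 (M a192 (F (T t449 (L l371 (T t21 (L l516 (T t160 N))))))) (K a38 (M a192 (F (T t836 (L l270 (L l481 (T t450 (T t21 N))))))) (K a42 (M a192 (F (T t449 (L l270 (L l481 (T t450 (L l56 (L l270 (T t157 N))))))))) (K a46 (M a192 (F (T t449 (T t21 (L l26 (L l408 (L l516 (T t160 N)))))))) (K a51 (M a192 (F (T t47 (L l513 (T t156 (L l270 (L l415 (L l481 (T t450 N))))))))) N)))))))))))))))⟩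
def e0_63__91_190 : Ent 4 := ⟨[a0, a63], [a91, a195], (M a12 (F (T t150 (L l487 (T t122 (L l487 (T t151 (L l487 (T t152 (L l487 (T t153 (K a4 (M a60 (F (T t570 (L l46 (L l50 (L l307 (T t67 (T t448 N)))))))) (K a8 (M a60 (F (T t116 (L l337 (L l481 (T t398 (L l52 (L l56 (T t448 N))))))))) (K a21 (M a192 (F (T t2119 (L l15 (L l271 (L l347 (L l481 (T t450 (L l15 (L l347 (T t157 N))))))))))) (K a25 (M a192 (F (T t158 (L l237 (T t156 (L l295 (T t21 N))))))) (K a29 (M a192 (F (T t159 (L l295 (L l371 (T t21 (T t160 N))))))) (K a38 (M a192 (F (T t161 (L l237 (T t156 (L l295 (T t21 N))))))) (K a42 (M a192 (F (T t161 (L l237 (T t156 (L l56 (T t157 N))))))) (K a46 (M a192 (F (T t57 (L l237 (T t156 (L l26 (L l408 (T t160 N)))))))) (K a51 (M a170 (L l487 (F (T t439 (L l295 (L l439 (T t3685 (L l463 (T t3880 (K a147 (M a99 (F (T t4159 (L l463 (T t3682 N))))) (K a99 (M a147 (F (T t4159 (L l463 (T t3682 N))))) N)))))))))))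 N))))))))))))))))))))⟩
def e0_63__91_191 : Ent 4 := ⟨[a0, a63], [a91, a196], (M a85 (F (T t52 (L l232 (L l278 (T t88 (L l278 (T t89 (L l232 (T t90 (K a64 (M a240 (F (T t386 (L l93 (L l278 (T t387 N)))))) (K a192 (M a204 (F (T t1993 (L l334 (T t1575 (L l278 (L l296 (T t1685 (L l310 (T t2309 N)))))))))) (K a21 (M a48 (F (T t99 (T t50 (L l47 (T t100 N)))))) (K a149 (M a55 (F (L l310 (T t2039 (L l220 (L l278 (L l481 (T t2310 (L l131 (L l202 (T t2311 N))))))))))) (K a213 (Fr a170 a255 l476 (Fr a42 a21 l68 (Fr a106 a234 l390 (Fr a192 a149 l519 (V t581))))) (K a42 (M a48 (F (T t364 (L l390 (T t50 (L l28 (T t100 N))))))) (K a106 (M a48 (F (T t99 (L l481 (T t1 (L l390 (T t50 N))))))) (K a170 (M a16 (F (L l404 (T t113 (L l278 (L l390 (T t98 (L l373 (L l390 (L l404 (L l481 (T t97 (L l229 (L l404 (T t174 N))))))))))))))) (K a255 (M a16 (F (T t112 (L l289 (T t113 (L l278 (L l289 (L l296 (T t98 N))))))))) N)))))))))))))))))))⟩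
def e0_63__91_192 : Ent 4 := ⟨[a0, a63], [a91, a197], (M a85 (F (T t52 (L l236 (L l275 (T t88 (L l275 (T t89 (L l236 (T t90 (K a64 (M a48 (F (T t50 (L l275 (T t568 N))))) (K a192 (M a207 (F (T t2056 (L l339 (L l481 (T t2057 (L l275 (L l296 (L l484 (T t2058 (L l339 (L l373 (L l481 (T t2059 N)))))))))))))) (K a21 (M a48 (F (T t99 (T t50 (L l47 (L l236 (L l491 (T t100 N)))))))) (K a149 (M a53 (F (L l311 (T t178 (L l220 (L l275 (T t1560 (L l199 (T t2060 N))))))))) (K a213 (Fr a170 a255 l476 (Fr a42 a21 l68 (Fr a106 a234 l390 (Fr a192 a149 l519 (V t581))))) (K a42 (M a48 (F (T t364 (L l390 (T t50 (L l28 (L l236 (L l491 (T t100 N))))))))) (K a106 (M a48 (F (T t99 (L l411 (L l481 (T t3 (L l390 (T t50 N)))))))) (K a170 (M a4 (F (L l464 (T t130 (L l275 (L l390 (T t131 (L l390 (L l464 (T t519 (L l464 (L l481 (T t938 N))))))))))))) (K a255 (M a16 (F (L l311 (T t112 (L l236 (L l289 (L l491 (T t113 (L l275 (L l289 (L l296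 (T t98 N)))))))))))) N)))))))))))))))))))⟩
def e0_63__91_193 : Ent 4 := ⟨[a0, a63], [a91, a198], (M a85 (F (T t88 (T t52 (T t89 (T t90 (K a64 (M a240 (F (T t933 (L l93 (T t387 N))))) (K a192 (M a16 (F (T t96 (L l339 (L l373 (L l481 (T t97 (L l296 (T t98 N))))))))) (K a21 (M a48 (F (T t99 (T t50 (L l47 (L l234 (T t100 N))))))) (K a149 (M a16 (F (T t173 (L l373 (L l375 (L l481 (T t97 (L l93 (L l170 (T t102 N)))))))))) (K a213 (Fr a170 a255 l476 (Fr a42 a21 l68 (Fr a106 a234 l390 (Fr a192 a149 l519 (V t581))))) (K a42 (M a48 (F (T t364 (L l390 (T t50 (L l28 (L l234 (T t100 N)))))))) (K a106 (M a48 (F (T t99 (L l481 (T t1 (L l390 (T t50 N))))))) (K a170 (M a16 (F (L l390 (L l404 (T t112 (L l390 (T t98 (L l234 (L l404 (T t113 (L l229 (L l404 (T t174 N))))))))))))) (K a255 (M a16 (F (T t112 (L l234 (L l289 (T t113 (L l289 (L l296 (T t98 N))))))))) N)))))))))))))))⟩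
def e0_63__91_194 : Ent 4 := ⟨[a0, a63], [a91, a199], (M a85 (F (T t88 (T t52 (T t89 (T t90 (K a64 (M a240 (F (T t933 (L l93 (T t387 N))))) (K a192 (M a16 (F (T t112 (L l314 (L l494 (T t96 (L l296 (T t98 N)))))))) (K a21 (M a48 (F (T t99 (T t50 (L l47 (T t100 N)))))) (K a149 (M a16 (F (T t112 (L l235 (L l314 (T t173 (L l93 (L l170 (T t102 N))))))))) (K a213 (Fr a170 a255 l476 (Fr a42 a21 l68 (Fr a106 a234 l390 (Fr a192 a149 l519 (V t581))))) (K a42 (M a48 (F (T t364 (L l390 (T t50 (L l28 (T t100 N))))))) (K a106 (M a48 (F (T t99 (L l481 (T t1 (L l390 (T t50 N))))))) (K a170 (M a16 (F (L l404 (T t113 (L l390 (T t98 (L l373 (L l390 (L l404 (L l481 (T t97 (L l229 (L l235 (L l404 (T t174 N))))))))))))))) (K a255 (M a16 (F (T t112 (L l289 (T t113 (L l289 (L l296 (T t98 N)))))))) N)))))))))))))))⟩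
def e0_63__91_195 : Ent 4 := ⟨[a0, a63], [a91, a200], (M a60 (F (T t67 (T t43 (T t68 (T t69 (K a20 (M a48 (F (T t64 (L l11 (L l481 (T t1 (L l11 (L l496 (T t235 N))))))))) (K a40 (M a48 (F (T t64 (L l481 (T t1 (L l52 (L l496 (T t235 N)))))))) (K a21 (M a192 (F (T t77 (L l131 (L l347 (T t73 (L l347 (T t74 N)))))))) (K a41 (M a192 (F (T t77 (L l65 (L l284 (T t35 (L l131 (T t73 N)))))))) (K a61 (M a192 (F (T t77 (L l65 (L l284 (L l515 (T t35 (L l373 (L l496 (L l501 (T t80 N))))))))))) (K a22 (M a192 (F (T t77 (T t21 (L l131 (T t73 N)))))) (K a42 (M a192 (F (T t77 (L l131 (T t73 (L l22 (T t74 N))))))) (K a62 (M a192 (F (T t77 (L l284 (T t35 (L l66 (L l373 (L l496 (L l501 (L l516 (T t80 N))))))))))) (K a3 (M a192 (F (T t237 (L l280 (L l477 (T t79 (L l284 (L l475 (T t35 N))))))))) N)))))))))))))))⟩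
def e0_63__91_196 : Ent 4 := ⟨[a0, a63], [a91, a201], (M a85 (F (T t88 (T t52 (T t89 (T t90 (K a64 (M a240 (F (T t933 (L l93 (T t387 N))))) (K a192 (M a16 (F (T t96 (L l339 (L l373 (L l481 (T t97 (L l296 (T t98 N))))))))) (K a21 (M a48 (F (T t99 (T t50 (L l47 (L l230 (T t100 N))))))) (K a149 (M a16 (F (T t173 (L l373 (L l375 (L l481 (T t97 (L l93 (L l170 (T t102 N)))))))))) (K a213 (Fr a170 a255 l476 (Fr a42 a21 l68 (Fr a106 a234 l390 (Fr a192 a149 l519 (V t581))))) (K a42 (M a48 (F (T t364 (L l390 (T t50 (L l28 (L l230 (T t100 N)))))))) (K a106 (M a48 (F (T t99 (L l481 (T t1 (L l390 (T t50 N))))))) (K a170 (M a16 (F (L l390 (L l404 (T t112 (L l390 (T t98 (L l230 (L l404 (T t113 (L l233 (L l404 (T t174 N))))))))))))) (K a255 (M a16 (F (T t112 (L l230 (L l289 (T t113 (L l289 (L l296 (T t98 N))))))))) N)))))))))))))))⟩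
def e0_63__91_197 : Ent 4 := ⟨[a0, a63], [a91, a202], (M a60 (F (T t67 (T t43 (T t68 (T t69 (K a20 (M a48 (F (T t64 (L l11 (L l318 (L l481 (T t1 (L l11 (T t235 N))))))))) (K a40 (M a48 (F (T t64 (L l318 (L l481 (T t1 (L l52 (T t235 N)))))))) (K a21 (M a192 (F (T t72 (L l131 (L l347 (T t73 (L l347 (T t74 N)))))))) (K a41 (M a192 (F (T t79 (L l65 (L l282 (T t35 (L l131 (T t73 N)))))))) (K a61 (M a192 (F (T t72 (L l65 (L l282 (L l515 (T t35 (L l373 (L l498 (T t80 N)))))))))) (K a22 (M a192 (F (T t72 (T t21 (L l131 (T t73 N)))))) (K a42 (M a192 (F (T t77 (L l131 (T t73 (L l22 (T t74 N))))))) (K a62 (M a192 (F (T t72 (L l282 (T t35 (L l66 (L l373 (L l498 (L l516 (T t80 N)))))))))) (K a3 (M a106 (F (T t2792 (L l234 (L l282 (T t1513 N)))))) N)))))))))))))))⟩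
def e0_63__91_198 : Ent 4 := ⟨[a0, a63], [a91, a203], (M a85 (F (T t88 (T t52 (T t89 (T t90 (K a64 (M a240 (F (T t933 (L l93 (T t387 N))))) (K a192 (M a16 (F (T t96 (L l339 (L l373 (L l481 (T t97 (L l296 (T t98 N))))))))) (K a21 (M a48 (F (T t99 (T t50 (L l47 (L l230 (T t100 N))))))) (K a149 (M a16 (F (T t112 (L l235 (T t173 (L l93 (L l170 (L l500 (T t102 N))))))))) (K a213 (Fr a170 a255 l476 (Fr a42 a21 l68 (Fr a106 a234 l390 (Fr a192 a149 l519 (V t581))))) (K a42 (M a48 (F (T t364 (L l390 (T t50 (L l28 (L l230 (T t100 N)))))))) (K a106 (M a48 (F (T t99 (L l481 (T t1 (L l390 (T t50 N))))))) (K a170 (M a16 (F (L l390 (L l404 (T t112 (L l390 (T t98 (L l230 (L l404 (T t113 (L l235 (L l404 (T t174 N))))))))))))) (K a255 (M a16 (F (T t112 (L l230 (L l289 (T t113 (L l289 (L l296 (T t98 N))))))))) N)))))))))))))))⟩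
def e0_63__91_199 : Ent 4 := ⟨[a0, a63], [a91, a204], (M a12 (F (T t150 (L l513 (T t122 (L l513 (T t151 (L l513 (T t152 (L l513 (T t153 (K a4 (M a60 (F (T t570 (L l46 (L l50 (L l333 (T t67 (T t448 N)))))))) (K a8 (M a60 (F (T t116 (L l327 (L l481 (T t398 (L l52 (L l56 (T t448 N))))))))) (K a21 (M a89 (F (T t2788 (L l50 (L l302 (L l463 (L l481 (T t863 (L l50 (L l463 (T t864 N))))))))))) (K a25 (M a48 (F (T t865 (L l15 (L l327 (L l481 (T t1 (L l12 (L l56 (T t866 N)))))))))) (K a29 (M a48 (F (T t145 (L l15 (L l327 (L l481 (T t1 (T t866 N)))))))) (K a38 (M a48 (F (T t867 (L l26 (L l327 (L l481 (T t2 (L l21 (L l50 (L l355 (T t868 N))))))))))) (K a42 (M a89 (F (T t4375 (L l26 (L l232 (T t870 (L l26 (L l463 (T t864 N))))))))) (K a46 (M a48 (F (T t867 (L l327 (L l481 (T t1 (L l26 (T t866 N)))))))) (K a51 (M a16 (L l513 (F (T t112 (L l39 (L l502 (T t871 (T t872 (K a153 (M a102 (F (T t112 (L l39 (L l502 (T t871 (T t872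 N))))))) (K a102 (M a153 (F (T t112 (L l39 (L l502 (T t871 (T t872 N))))))) N)))))))))) N))))))))))))))))))))⟩
def e0_63__91_200 : Ent 4 := ⟨[a0, a63], [a91, a205], (M a85 (F (T t88 (T t52 (T t89 (T t90 (K a64 (M a240 (F (T t933 (L l93 (T t387 N))))) (K a192 (M a16 (F (T t112 (L l329 (L l509 (T t96 (L l296 (T t98 N)))))))) (K a21 (M a48 (F (T t99 (T t50 (L l47 (T t100 N)))))) (K a149 (M a16 (F (T t112 (L l231 (L l329 (T t173 (L l93 (L l170 (T t102 N))))))))) (K a213 (Fr a170 a255 l476 (Fr a42 a21 l68 (Fr a106 a234 l390 (Fr a192 a149 l519 (V t581))))) (K a42 (M a48 (F (T t364 (L l390 (T t50 (L l28 (T t100 N))))))) (K a106 (M a48 (F (T t99 (L l481 (T t1 (L l390 (T t50 N))))))) (K a170 (M a16 (F (L l404 (T t113 (L l390 (T t98 (L l373 (L l390 (L l404 (L l481 (T t97 (L l231 (L l233 (L l404 (T t174 N))))))))))))))) (K a255 (M a16 (F (T t112 (L l289 (T t113 (L l289 (L l296 (T t98 N)))))))) N)))))))))))))))⟩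
def e0_63__91_201 : Ent 4 := ⟨[a0, a63], [a91, a206], (M a85 (F (T t88 (T t52 (T t89 (T t90 (K a64 (M a240 (F (T t933 (L l93 (T t387 N))))) (K a192 (M a16 (F (T t96 (L l339 (L l373 (L l481 (T t97 (L l296 (T t98 N))))))))) (K a21 (M a48 (F (T t99 (T t50 (L l47 (L l234 (T t100 N))))))) (K a149 (M a16 (F (T t112 (L l231 (T t173 (L l93 (L l170 (L l510 (T t102 N))))))))) (K a213 (Fr a170 a255 l476 (Fr a42 a21 l68 (Fr a106 a234 l390 (Fr a192 a149 l519 (V t581))))) (K a42 (M a48 (F (T t364 (L l390 (T t50 (L l28 (L l234 (T t100 N)))))))) (K a106 (M a48 (F (T t99 (L l481 (T t1 (L l390 (T t50 N))))))) (K a170 (M a16 (F (L l390 (L l404 (T t112 (L l390 (T t98 (L l234 (L l404 (T t113 (L l231 (L l404 (T t174 N))))))))))))) (K a255 (M a16 (F (T t112 (L l234 (L l289 (T t113 (L l289 (L l296 (T t98 N))))))))) N)))))))))))))))⟩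
def e0_63__91_202 : Ent 4 := ⟨[a0, a63], [a91, a207], (M a60 (F (T t116 (L l331 (T t67 (L l331 (T t43 (L l331 (T t68 (L l331 (T t69 (K a20 (M a48 (F (T t138 (L l11 (L l325 (L l481 (T t1 (L l11 (T t235 N))))))))) (K a40 (M a48 (F (T t48 (L l511 (T t64 (L l52 (T t235 N))))))) (K a21 (M a192 (F (T t2647 (L l131 (L l235 (L l347 (T t73 (L l347 (T t74 N))))))))) (K a41 (M a192 (F (T t1343 (L l291 (T t79 (L l65 (L l289 (T t35 N)))))))) (K a61 (M a192 (F (T t1800 (L l291 (T t79 (L l373 (T t80 N))))))) (K a22 (M a192 (F (T t237 (L l11 (L l291 (T t79 (L l11 (L l289 (T t35 N))))))))) (K a42 (M a192 (F (T t237 (L l291 (T t79 (L l22 (T t74 N))))))) (K a62 (M a192 (F (T t57 (L l291 (T t79 (L l66 (L l373 (L l516 (T t80 N))))))))) (K a3 (M a192 (L l331 (F (T t237 (L l291 (L l477 (T t79 (L l289 (L l475 (T t35 (K a71 (M a139 (F (T t1800 (L l235 (L l307 (L l373 (T t75 (L l291 (L l477 (T t1333 N)))))))))) (K a139 (M a71 (F (T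 t1800 (L l235 (L l307 (L l373 (T t75 (L l291 (L l477 (T t1333 N)))))))))) N)))))))))))) N))))))))))))))))))))⟩
def e0_63__91_203 : Ent 4 := ⟨[a0, a63], [a91, a208], (M a85 (F (T t52 (L l246 (L l268 (T t88 (L l246 (T t89 (L l268 (T t90 (K a64 (M a16 (F (T t112 (L l84 (L l246 (T t96 (L l93 (T t102 N)))))))) (K a192 (M a240 (F (T t4376 (L l484 (T t933 (L l93 (L l246 (L l296 (T t1550 (L l93 (L l340 (T t2083 N)))))))))))) (K a21 (M a48 (F (T t873 (L l47 (L l246 (T t100 (L l268 (T t50 N)))))))) (K a149 (M a31 (F (L l340 (T t2084 (L l220 (L l246 (T t2085 (L l93 (L l170 (T t2086 N)))))))))) (K a213 (Fr a170 a255 l476 (Fr a42 a21 l68 (Fr a106 a234 l390 (Fr a192 a149 l519 (V t581))))) (K a42 (M a48 (F (L l340 (T t364 (L l268 (L l390 (T t50 (L l28 (L l246 (T t100 N)))))))))) (K a106 (M a48 (F (L l481 (T t1 (L l104 (L l246 (T t509 (L l268 (L l390 (T t50 N)))))))))) (K a170 (M a4 (F (L l464 (T t130 (L l246 (L l390 (T t131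 (L l390 (L l464 (T t519 (L l238 (L l464 (L l481 (T t938 N)))))))))))))) (K a255 (M a4 (F (T t129 (L l265 (T t130 (L l246 (L l265 (L l296 (T t131 N))))))))) N)))))))))))))))))))⟩
def e0_63__91_204 : Ent 4 := ⟨[a0, a63], [a91, a209], (M a85 (F (T t52 (L l243 (L l272 (T t88 (L l243 (T t89 (L l272 (T t90 (K a64 (M a240 (F (T t386 (L l93 (L l238 (L l243 (T t387 N))))))) (K a192 (M a243 (F (T t2087 (L l131 (L l489 (T t2088 (L l131 (L l243 (L l296 (L l334 (T t2089 (L l489 (T t2090 N))))))))))))) (K a21 (M a48 (F (T t99 (T t50 (L l47 (T t100 N)))))) (K a149 (M a29 (F (L l341 (T t2091 (L l220 (L l243 (T t2092 (L l167 (T t2093 N))))))))) (K a213 (Fr a170 a255 l476 (Fr a42 a21 l68 (Fr a106 a234 l390 (Fr a192 a149 l519 (V t581))))) (K a42 (M a48 (F (T t364 (L l390 (T t50 (L l28 (T t100 N))))))) (K a106 (M a48 (F (T t99 (L l481 (T t1 (L l390 (T t50 N))))))) (K a170 (M a16 (F (L l404 (T t113 (L l243 (L l390 (T t98 (L l373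 (L l390 (L l404 (L l481 (T t97 (L l404 (T t174 N)))))))))))))) (K a255 (M a16 (F (T t112 (L l289 (T t113 (L l243 (L l289 (L l296 (T t98 N))))))))) N)))))))))))))))))))⟩
def e0_63__91_205 : Ent 4 := ⟨[a0, a63], [a91, a210], (M a85 (F (T t88 (T t52 (T t89 (T t90 (K a64 (M a240 (F (T t386 (L l93 (L l238 (T t387 N)))))) (K a192 (M a16 (F (T t96 (L l339 (L l373 (L l481 (T t97 (L l296 (T t98 N))))))))) (K a21 (M a48 (F (T t99 (L l273 (T t50 (L l47 (T t100 N))))))) (K a149 (M a16 (F (T t173 (L l373 (L l375 (L l481 (T t97 (L l93 (L l170 (T t102 N)))))))))) (K a213 (Fr a170 a255 l476 (Fr a42 a21 l68 (Fr a106 a234 l390 (Fr a192 a149 l519 (V t581))))) (K a42 (M a48 (F (T t364 (L l273 (L l390 (T t50 (L l28 (T t100 N)))))))) (K a106 (M a48 (F (T t99 (L l481 (T t1 (L l273 (L l390 (T t50 N)))))))) (K a170 (M a16 (F (L l404 (T t113 (L l390 (T t98 (L l373 (L l390 (L l404 (L l481 (T t97 (L l404 (T t174 N))))))))))))) (K a255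 (M a16 (F (T t112 (L l289 (T t113 (L l289 (L l296 (T t98 N)))))))) N)))))))))))))))⟩
def e0_63__91_206 : Ent 4 := ⟨[a0, a63], [a91, a211], (M a149 (L l373 (F (T t5 (T t175 (T t176 (T t177 (K a192 (M a31 (F (T t2312 (L l238 (L l268 (T t651 (L l238 (L l268 (L l296 (T t2313 N)))))))))) (K a21 (M a151 (F (L l131 (T t4250 (L l463 (T t4251 (L l131 (T t4252 (L l374 (T t4259 N)))))))))) (K a85 (M a31 (F (T t2312 (L l238 (T t4377 (L l88 (L l94 (T t4378 N)))))))) (K a213 (Fr a106 a192 l519 (Fr a42 a21 l68 (Fr a170 a234 l390 (Fr a255 a85 l476 (V t582))))) (K a42 (M a151 (F (T t4257 (L l131 (T t4252 (L l131 (L l390 (T t4258 (L l374 (L l390 (T t4259 N))))))))))) (K a106 (M a31 (F (L l390 (L l411 (T t2312 (L l238 (L l390 (T t2313 (L l238 (L l411 (T t651 (L l238 (L l411 (T t4379 N)))))))))))))) (K a170 (M a31 (F (L l238 (T t4377 (L l344 (L l390 (T t2084 (L l238 (L l390 (T t2313 (L l238 (L l462 (T t4379 N))))))))))))) (K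 a191 (M a31 (F (T t2312 (L l190 (L l238 (T t4380 (L l213 (L l238 (T t2313 N))))))))) (K a255 (M a31 (F (T t2312 (L l238 (T t4380 (L l238 (L l296 (T t2313 N)))))))) (K a151 (M a31 (F (T t175 (L l344 (T t2084 (L l238 (T t4380 N))))))) (K a31 (M a151 (F (T t25 (L l131 (T t4273 (L l131 (T t4274 N))))))) N))))))))))))))))))⟩
def e0_63__91_207 : Ent 4 := ⟨[a0, a63], [a91, a212], (M a85 (F (T t52 (L l239 (L l292 (T t88 (L l239 (T t89 (L l292 (T t90 (K a64 (M a240 (F (T t386 (L l93 (L l239 (L l242 (T t387 N))))))) (K a192 (M a252 (F (T t2336 (L l514 (T t93 (L l239 (L l296 (L l309 (T t170 (L l93 (L l514 (T t2095 N)))))))))))) (K a21 (M a48 (F (T t99 (T t50 (L l47 (T t100 N)))))) (K a149 (M a23 (F (L l346 (T t1941 (L l220 (L l239 (L l463 (T t2096 (L l93 (L l131 (L l163 (T t2097 N)))))))))))) (K a213 (Fr a170 a255 l476 (Fr a42 a21 l68 (Fr a106 a234 l390 (Fr a192 a149 l519 (V t581))))) (K a42 (M a48 (F (T t364 (L l390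 (T t50 (L l28 (T t100 N))))))) (K a106 (M a48 (F (T t99 (L l481 (T t1 (L l390 (T t50 N))))))) (K a170 (M a16 (F (L l404 (T t113 (L l239 (L l390 (T t98 (L l373 (L l390 (L l404 (L l481 (T t97 (L l404 (T t174 N)))))))))))))) (K a255 (M a16 (F (T t112 (L l289 (T t113 (L l239 (L l289 (L l296 (T t98 N))))))))) N)))))))))))))))))))⟩
def e0_63__91_208 : Ent 4 := ⟨[a0, a63], [a91, a213], (M a12 (F (T t151 (L l347 (T t122 (L l347 (T t152 (T t153 (K a4 (M a60 (F (T t43 (L l481 (T t398 (T t448 N)))))) (K a8 (M a60 (F (T t570 (L l347 (T t67 (L l52 (L l56 (T t448 N)))))))) (K a21 (M a85 (F (T t4326 (L l15 (L l278 (T t574 (T t124 N))))))) (K a25 (M a192 (F (T t449 (L l15 (L l347 (L l481 (T t450 (L l347 (T t21 N))))))))) (K a29 (M a192 (F (T t156 (L l347 (L l371 (T t21 (L l131 (L l347 (L l371 (L l463 (T t2623 N))))))))))) (K a38 (M a192 (F (T t836 (L l347 (L l481 (T t450 (L l347 (T t21 N)))))))) (K a42 (M a192 (F (T t449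 (L l347 (L l481 (T t450 (L l56 (L l278 (L l347 (T t157 N)))))))))) (K a46 (M a192 (F (T t156 (L l347 (T t21 (L l131 (L l347 (L l463 (T t2623 N))))))))) (K a51 (M a192 (F (T t158 (L l513 (T t156 (L l347 (L l439 (T t21 N)))))))) N)))))))))))))))))⟩
def e0_63__91_209 : Ent 4 := ⟨[a0, a63], [a91, a214], (M a85 (F (T t90 (L l239 (T t88 (L l294 (T t52 (L l239 (T t89 (K a64 (M a240 (F (T t386 (L l93 (L l239 (T t387 N)))))) (K a192 (M a16 (F (T t96 (L l339 (L l373 (L l481 (T t97 (L l239 (L l296 (T t98 N)))))))))) (K a21 (M a48 (F (T t99 (T t50 (L l47 (T t100 N)))))) (K a149 (M a16 (F (T t173 (L l373 (L l375 (L l481 (T t97 (L l93 (L l170 (T t102 N)))))))))) (K a213 (Fr a170 a255 l476 (Fr a42 a21 l68 (Fr a106 a234 l390 (Fr a192 a149 l519 (V t581))))) (K a42 (M a48 (F (T t364 (L l390 (T t50 (L l28 (T t100 N))))))) (K a106 (M a48 (F (T t99 (L l481 (T t1 (L l390 (T t50 N))))))) (K a170 (M a16 (F (L l404 (T t113 (L l239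 (L l390 (T t98 (L l373 (L l390 (L l404 (L l481 (T t97 (L l404 (T t174 N)))))))))))))) (K a255 (M a16 (F (T t112 (L l289 (T t113 (L l239 (L l289 (L l296 (T t98 N))))))))) N))))))))))))))))))⟩
def e0_63__91_210 : Ent 4 := ⟨[a0, a63], [a91, a215], (M a12 (F (T t122 (T t151 (T t152 (T t153 (K a4 (M a60 (F (T t69 (L l481 (T t398 (L l349 (T t448 N))))))) (K a8 (M a60 (F (T t68 (L l481 (T t398 (L l52 (L l56 (L l349 (T t448 N))))))))) (K a21 (M a192 (F (T t836 (L l15 (L l347 (L l481 (T t450 (L l15 (L l277 (L l347 (T t157 N))))))))))) (K a25 (M a192 (F (T t449 (L l15 (L l481 (T t450 (L l295 (T t21 N)))))))) (K a29 (M a192 (F (T t449 (L l295 (L l371 (T t21 (L l239 (T t160 N)))))))) (K a38 (M a192 (F (T t836 (L l481 (T t450 (L l295 (T t21 N))))))) (K a42 (M a192 (F (T t449 (L l481 (T t450 (L l56 (L l277 (T t157 N)))))))) (K a46 (M a192 (F (T t449 (L l295 (T t21 (L l26 (L l239 (L l408 (T t160 N))))))))) (K a51 (M a85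 (F (T t571 (L l239 (L l277 (T t572 N)))))) N)))))))))))))))⟩
def e0_63__91_211 : Ent 4 := ⟨[a0, a63], [a91, a216], (M a85 (F (T t88 (T t52 (T t89 (T t90 (K a64 (M a240 (F (T t386 (L l93 (L l242 (T t387 N)))))) (K a192 (M a16 (F (T t96 (L l339 (L l373 (L l481 (T t97 (L l296 (T t98 N))))))))) (K a21 (M a48 (F (T t99 (L l298 (T t50 (L l47 (T t100 N))))))) (K a149 (M a16 (F (T t173 (L l373 (L l375 (L l481 (T t97 (L l93 (L l170 (T t102 N)))))))))) (K a213 (Fr a170 a255 l476 (Fr a42 a21 l68 (Fr a106 a234 l390 (Fr a192 a149 l519 (V t581))))) (K a42 (M a48 (F (T t364 (L l298 (L l390 (T t50 (L l28 (T t100 N)))))))) (K a106 (M a48 (F (T t99 (L l481 (T t1 (L l298 (L l390 (T t50 N)))))))) (K a170 (M a16 (F (L l404 (T t113 (L l390 (T t98 (L l373 (L l390 (L l404 (L l481 (T t97 (L l404 (T t174 N))))))))))))) (K a255 (M a16 (F (T t112 (L l289 (T t113 (L l289 (L l296 (T t98 N)))))))) N)))))))))))))))⟩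
def e0_63__91_212 : Ent 4 := ⟨[a0, a63], [a91, a217], (M a85 (F (T t90 (L l243 (T t88 (L l284 (T t52 (L l243 (T t89 (K a64 (M a240 (F (T t386 (L l93 (L l243 (T t387 N)))))) (K a192 (M a16 (F (T t96 (L l339 (L l373 (L l481 (T t97 (L l243 (L l296 (T t98 N)))))))))) (K a21 (M a48 (F (T t99 (T t50 (L l47 (T t100 N)))))) (K a149 (M a16 (F (T t173 (L l373 (L l375 (L l481 (T t97 (L l93 (L l170 (T t102 N)))))))))) (K a213 (Fr a170 a255 l476 (Fr a42 a21 l68 (Fr a106 a234 l390 (Fr a192 a149 l519 (V t581))))) (K a42 (M a48 (F (T t364 (L l390 (T t50 (L l28 (T t100 N))))))) (K a106 (M a48 (F (T t99 (L l481 (T t1 (L l390 (T t50 N))))))) (K a170 (M a16 (F (L l404 (T t113 (L l243 (L l390 (T t98 (L l373 (L l390 (L l404 (L l481 (T t97 (L l404 (T t174 N)))))))))))))) (K a255 (M a16 (F (T t112 (L l289 (T t113 (L l243 (L l289 (L l296 (T t98 N))))))))) N))))))))))))))))))⟩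
def e0_63__91_213 : Ent 4 := ⟨[a0, a63], [a91, a218], (M a85 (F (T t90 (L l246 (T t88 (L l282 (T t52 (L l246 (T t89 (K a64 (M a240 (F (T t386 (L l93 (L l246 (L l373 (T t2099 N))))))) (K a192 (M a48 (F (T t1243 (L l339 (L l481 (T t1 (L l268 (L l303 (T t50 N))))))))) (K a21 (M a48 (F (T t1243 (L l47 (L l246 (L l282 (T t100 (L l303 (T t50 N))))))))) (K a149 (M a48 (F (T t364 (L l481 (T t2 (L l220 (L l303 (T t50 N)))))))) (K a213 (Fr a170 a255 l476 (Fr a42 a21 l68 (Fr a106 a234 l390 (Fr a192 a149 l519 (V t581))))) (K a42 (M a48 (F (T t364 (L l390 (T t567 (L l28 (L l246 (L l282 (T t100 N))))))))) (K a106 (M a48 (F (T t364 (L l481 (T t1 (L l303 (L l390 (T t50 N)))))))) (K a170 (M a4 (F (L l464 (T t130 (L l246 (L l390 (T t131 (L l390 (L l464 (T t519 (L l464 (L l481 (T t938 N))))))))))))) (K a255 (M a4 (F (T t129 (L l265 (T t130 (L l246 (L l265 (L l296 (T t131 N))))))))) N))))))))))))))))))⟩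
def e0_63__91_214 : Ent 4 := ⟨[a0, a63], [a91, a219], (M a60 (L l355 (F (T t67 (T t43 (T t68 (T t69 (K a20 (M a51 (L l355 (F (T t3965 (T t1294 (L l11 (T t1357 (K a27 (M a155 (F (T t1294 (L l149 (T t4381 N))))) (K a155 (M a27 (F (T t3965 (L l14 (L l356 (T t4382 N)))))) N))))))))) (K a40 (M a51 (L l355 (F (T t589 (T t1356 (T t1357 (K a27 (M a155 (F (T t589 (L l149 (T t4381 N))))) (K a155 (M a27 (F (T t3961 (L l22 (T t4383 N))))) N)))))))) (K a21 (M a192 (L l355 (F (T t72 (L l131 (L l347 (T t73 (L l245 (L l347 (T t74 (K a27 (M a155 (F (T t1516 (T t1333 (L l245 (L l347 (T t74 N))))))) (K a155 (M a27 (F (T t1516 (T t1333 (L l245 (L l347 (T t74 N))))))) N)))))))))))) (K a41 (M a51 (L l355 (F (T t3961 (L l22 (T t1294 (L l53 (L l65 (T t1357 (K a27 (M a155 (F (L l149 (T t4384 (L l53 (L l65 (T t1357 N))))))) (K a155 (M a27 (F (T t3961 (L l22 (L l356 (T t4382 N)))))) N))))))))))) (K a61 (M a8 (L l355 (F (T t413 (L l65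 (T t414 (L l65 (L l356 (T t415 (K a27 (M a155 (F (T t413 (L l12 (L l65 (L l131 (T t4385 (L l55 (L l65 (L l73 (T t414 N))))))))))) (K a155 (M a27 (F (T t413 (L l65 (T t4386 N))))) N))))))))))) (K a22 (M a51 (L l355 (F (T t3965 (L l11 (T t589 (L l48 (L l66 (T t3964 (K a27 (M a155 (F (L l149 (T t4384 (L l48 (L l66 (T t3964 N))))))) (K a155 (M a27 (F (T t4387 (L l11 (L l48 (T t4388 N)))))) N))))))))))) (K a42 (M a192 (L l355 (F (T t77 (L l131 (T t73 (L l22 (L l245 (T t74 (K a27 (M a155 (F (T t569 (T t1333 (L l22 (L l245 (T t74 N))))))) (K a155 (M a27 (F (T t569 (T t1333 (L l22 (L l245 (T t74 N))))))) N))))))))))) (K a62 (M a8 (L l355 (F (T t413 (T t414 (L l36 (L l356 (T t415 (K a27 (M a155 (F (T t413 (L l12 (L l131 (T t4385 (L l55 (L l73 (T t414 N))))))))) (K a155 (M a27 (F (T t413 (T t4386 N)))) N)))))))))) (K a3 (M a51 (L l355 (F (T t848 (L l45 (T t1356 (L l9 (T t1357 (K a27 (M a155 (F (T t4306 (L l149 (L l333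 (T t4381 N)))))) (K a155 (M a27 (F (T t4389 (L l356 (T t4382 N))))) N)))))))))) (K a27 (M a155 (F (T t68 (L l55 (T t67 (L l17 (T t43 (T t69 (K a20 (M a195 (F (L l350 (T t4390 (L l55 (L l73 (L l373 (T t4391 N)))))))) (K a40 (M a195 (F (L l392 (T t2661 (L l55 (L l73 (L l373 (T t4391 N)))))))) (K a21 (M a195 (F (T t4392 (L l55 (L l73 (L l373 (T t4391 N))))))) (K a41 (M a195 (F (T t4393 (L l55 (L l73 (L l373 (T t4391 N))))))) (K a61 (M a195 (F (L l283 (T t4394 (L l131 (L l301 (T t4395 N))))))) (K a22 (M a195 (F (T t4392 (L l55 (L l73 (L l373 (T t4391 N))))))) (K a42 (M a195 (F (T t4392 (L l55 (L l56 (L l73 (L l373 (T t4391 N)))))))) (K a62 (M a195 (F (L l245 (T t4396 (L l73 (L l131 (T t4397 N))))))) (K a3 (M a195 (F (T t4398 (L l43 (L l55 (L l73 (L l373 (T t4391 N)))))))) N))))))))))))))))) (K a155 (M a27 (F (T t67 (L l463 (T t4399 (L l367 (T t4400 (L l463 (T t4401 (L l367 (T t4402 (K a21 (M a43 (F (L l11 (T t4403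 (L l50 (L l463 (T t4404 N))))))) (K a41 (M a51 (F (T t3961 (L l22 (L l356 (T t4382 N)))))) (K a22 (M a25 (F (L l16 (T t4405 (L l48 (L l66 (T t4406 N))))))) (K a42 (M a23 (F (L l22 (T t4407 (L l28 (L l367 (T t4408 N))))))) N))))))))))))))) N))))))))))))))))))⟩
def e0_63__91_215 : Ent 4 := ⟨[a0, a63], [a91, a220], (M a85 (F (T t88 (T t52 (T t89 (T t90 (K a64 (M a48 (F (T t50 (L l241 (T t568 N))))) (K a192 (M a16 (F (T t112 (L l241 (T t96 (L l241 (L l296 (T t98 N)))))))) (K a21 (M a48 (F (T t873 (L l47 (L l241 (T t100 (T t50 N))))))) (K a149 (M a16 (F (T t112 (L l241 (T t173 (L l93 (L l170 (T t102 N)))))))) (K a213 (Fr a170 a255 l476 (Fr a42 a21 l68 (Fr a106 a234 l390 (Fr a192 a149 l519 (V t581))))) (K a42 (M a48 (F (L l364 (T t364 (L l390 (T t50 (L l28 (L l241 (T t100 N))))))))) (K a106 (M a48 (F (L l481 (T t1 (L l104 (L l241 (T t509 (L l390 (T t50 N))))))))) (K a170 (M a16 (F (L l390 (L l404 (T t112 (L l241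 (L l390 (T t98 (L l241 (L l404 (T t113 (L l241 (L l404 (T t174 N)))))))))))))) (K a255 (M a16 (F (T t112 (L l241 (L l289 (T t113 (L l241 (L l289 (L l296 (T t98 N)))))))))) N)))))))))))))))⟩
def e0_63__91_216 : Ent 4 := ⟨[a0, a63], [a91, a221], (M a149 (F (T t175 (L l243 (T t5 (L l243 (L l290 (T t176 (L l290 (T t177 (K a192 (M a53 (F (T t178 (L l236 (T t179 (L l236 (L l243 (L l296 (T t180 N))))))))) (K a21 (M a48 (F (T t4 (T t13 (L l18 (T t14 N)))))) (K a85 (M a17 (F (L l359 (T t1279 (L l144 (L l243 (L l481 (T t1280 (L l88 (L l91 (T t1281 N))))))))))) (K a213 (Fr a106 a192 l519 (Fr a42 a21 l68 (Fr a170 a234 l390 (Fr a255 a85 l476 (V t582))))) (K a42 (M a48 (F (T t187 (L l390 (T t13 (L l54 (T t14 N))))))) (K a106 (M a48 (F (T t48 (L l498 (T t14 (L l243 (L l390 (L l498 (T t6 (L l241 (L l243 (L l390 (T t26 N))))))))))))) (K a170 (M a48 (F (T t4 (L l462 (L l481 (T t1 (L l390 (T t13 N)))))))) (K a191 (M a16 (F (T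 t112 (T t190 (L l213 (L l241 (L l243 (T t191 N)))))))) (K a255 (M a204 (F (T t1282 (L l470 (T t1283 (L l243 (L l296 (L l439 (T t1055 (L l359 (T t1284 N))))))))))) N)))))))))))))))))))⟩
def e0_63__91_217 : Ent 4 := ⟨[a0, a63], [a91, a222], (M a85 (F (T t88 (T t52 (T t89 (T t90 (K a64 (M a240 (F (T t933 (L l93 (T t387 N))))) (K a192 (M a16 (F (T t112 (L l241 (T t96 (L l241 (L l296 (T t98 N)))))))) (K a21 (M a48 (F (T t1243 (L l47 (L l241 (T t100 (T t50 N))))))) (K a149 (M a16 (F (T t112 (L l241 (L l291 (T t173 (L l93 (L l170 (L l366 (T t102 N)))))))))) (K a213 (Fr a170 a255 l476 (Fr a42 a21 l68 (Fr a106 a234 l390 (Fr a192 a149 l519 (V t581))))) (K a42 (M a48 (F (T t364 (L l390 (T t50 (L l28 (L l241 (T t100 N)))))))) (K a106 (M a48 (F (T t364 (L l481 (T t1 (L l390 (T t50 N))))))) (K a170 (M a16 (F (L l390 (L l404 (T t112 (L l241 (L l390 (T t98 (L l241 (L l404 (T t113 (L l241 (L l291 (L l404 (T t174 N)))))))))))))))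 (K a255 (M a16 (F (T t112 (L l241 (L l289 (T t113 (L l241 (L l289 (L l296 (T t98 N)))))))))) N)))))))))))))))⟩
def e0_63__91_218 : Ent 4 := ⟨[a0, a63], [a91, a223], (M a149 (F (T t175 (L l246 (T t5 (L l246 (L l289 (T t176 (L l289 (T t177 (K a192 (M a53 (F (T t178 (L l236 (L l289 (L l368 (T t179 (L l236 (L l246 (L l296 (T t180 N))))))))))) (K a21 (M a48 (F (T t4 (T t13 (L l18 (L l289 (L l368 (T t14 N)))))))) (K a85 (M a16 (F (L l455 (T t112 (L l144 (L l246 (T t190 (L l88 (L l94 (T t278 N)))))))))) (K a213 (Fr a106 a192 l519 (Fr a42 a21 l68 (Fr a170 a234 l390 (Fr a255 a85 l476 (V t582))))) (K a42 (M a48 (F (T t11 (L l390 (T t13 (L l54 (L l289 (L l368 (T t14 N))))))))) (K a106 (M a48 (F (L l481 (T t1 (L l104 (L l144 (L l246 (L l289 (L l361 (L l390 (T t1285 (L l289 (L l368 (L l498 (T t14 N))))))))))))))) (K a170 (M a48 (F (T t4 (L l462 (L l481 (T t1 (L l390 (T t13 N)))))))) (K a191 (M a48 (F (T t13 (L l246 (T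 t6 N))))) (K a255 (M a207 (F (T t1286 (L l469 (L l481 (T t1287 (L l246 (L l296 (T t1288 (L l361 (L l373 (T t1289 N)))))))))))) N)))))))))))))))))))⟩
def e0_63__91_219 : Ent 4 := ⟨[a0, a63], [a91, a224], (M a12 (F (T t122 (T t151 (T t152 (T t153 (K a4 (M a60 (F (T t43 (L l481 (T t398 (T t448 N)))))) (K a8 (M a60 (F (T t67 (L l481 (T t398 (L l52 (L l56 (T t448 N)))))))) (K a21 (M a192 (F (T t836 (L l15 (L l248 (L l347 (L l481 (T t450 (L l15 (L l248 (L l347 (T t157 N)))))))))))) (K a25 (M a192 (F (T t449 (L l15 (L l248 (L l481 (T t450 (T t21 N)))))))) (K a29 (M a192 (F (T t449 (L l371 (T t21 (L l411 (T t160 N))))))) (K a38 (M a192 (F (T t836 (L l248 (L l481 (T t450 (T t21 N))))))) (K a42 (M a192 (F (T t449 (L l248 (L l481 (T t450 (L l56 (L l248 (T t157 N))))))))) (K a46 (M a192 (F (T t449 (T t21 (L l26 (L l408 (L l411 (T t160 N)))))))) (K a51 (M a192 (F (T t47 (L l513 (T t156 (L l248 (L l415 (L l481 (T t450 N)))))))))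 N)))))))))))))))⟩
def e0_63__91_220 : Ent 4 := ⟨[a0, a63], [a91, a225], (M a85 (F (T t88 (T t52 (T t89 (T t90 (K a64 (M a240 (F (T t386 (L l93 (T t387 N))))) (K a192 (M a16 (F (T t96 (L l339 (L l373 (L l481 (T t97 (L l296 (T t98 N))))))))) (K a21 (M a48 (F (T t99 (L l273 (T t50 (L l47 (T t100 N))))))) (K a149 (M a16 (F (T t173 (L l373 (L l375 (L l481 (T t97 (L l93 (L l170 (T t102 N)))))))))) (K a213 (Fr a170 a255 l476 (Fr a42 a21 l68 (Fr a106 a234 l390 (Fr a192 a149 l519 (V t581))))) (K a42 (M a48 (F (T t364 (L l273 (L l390 (T t50 (L l28 (T t100 N)))))))) (K a106 (M a48 (F (T t99 (L l481 (T t1 (L l273 (L l390 (T t50 N)))))))) (K a170 (M a16 (F (L l404 (T t113 (L l390 (T t98 (L l373 (L l390 (L l404 (L l481 (T t97 (L l404 (T t174 N))))))))))))) (K a255 (M a16 (F (T t112 (L l289 (T t113 (L l289 (L l296 (T t98 N)))))))) N)))))))))))))))⟩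
def e0_63__91_221 : Ent 4 := ⟨[a0, a63], [a91, a226], (M a60 (F (T t67 (T t43 (T t68 (T t69 (K a20 (M a48 (F (T t64 (L l11 (L l481 (T t1 (L l11 (T t235 N)))))))) (K a40 (M a48 (F (T t64 (L l481 (T t1 (L l52 (T t235 N))))))) (K a21 (M a192 (F (T t72 (L l131 (L l347 (T t73 (L l347 (T t74 N)))))))) (K a41 (M a192 (F (T t79 (L l65 (L l254 (T t35 (L l131 (T t73 N)))))))) (K a61 (M a192 (F (T t72 (L l65 (L l254 (L l515 (T t35 (L l373 (L l408 (T t80 N)))))))))) (K a22 (M a192 (F (T t72 (T t21 (L l131 (T t73 N)))))) (K a42 (M a192 (F (T t77 (L l131 (T t73 (L l22 (T t74 N))))))) (K a62 (M a192 (F (T t72 (L l254 (T t35 (L l66 (L l373 (L l408 (L l516 (T t80 N)))))))))) (K a3 (M a106 (F (T t2792 (L l254 (L l270 (T t1513 N)))))) N)))))))))))))))⟩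
def e0_63__91_222 : Ent 4 := ⟨[a0, a63], [a91, a227], (M a85 (F (T t88 (T t52 (T t89 (T t90 (K a64 (M a48 (F (T t50 (L l380 (T t568 N))))) (K a192 (M a16 (F (L l380 (T t96 (T t966 (L l339 (L l373 (L l380 (L l481 (T t97 N)))))))))) (K a21 (M a48 (F (T t873 (L l47 (L l380 (T t100 (T t50 N))))))) (K a149 (M a16 (F (T t666 (L l373 (L l375 (L l380 (L l481 (T t97 (L l93 (L l170 (T t102 N))))))))))) (K a213 (Fr a170 a255 l476 (Fr a42 a21 l68 (Fr a106 a234 l390 (Fr a192 a149 l519 (V t581))))) (K a42 (M a48 (F (L l255 (T t364 (L l390 (T t50 (L l28 (L l380 (T t100 N))))))))) (K a106 (M a48 (F (T t48 (L l104 (L l380 (T t509 (L l390 (T t50 N)))))))) (K a170 (M a16 (F (L l380 (L l404 (T t113 (L l390 (T t98 (L l373 (L l380 (L l390 (L l404 (L l481 (T t97 (L l380 (L l404 (T t174 N)))))))))))))))) (K a255 (M a16 (F (L l380 (T t112 (L l289 (L l296 (T t98 (L l289 (L l380 (T t113 N)))))))))) N)))))))))))))))⟩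
def e0_63__91_223 : Ent 4 := ⟨[a0, a63], [a91, a228], (M a85 (F (T t88 (T t52 (T t89 (T t90 (K a64 (M a240 (F (T t386 (L l93 (T t387 N))))) (K a192 (M a16 (F (T t96 (L l339 (L l373 (L l481 (T t97 (L l296 (T t98 N))))))))) (K a21 (M a48 (F (T t99 (L l298 (T t50 (L l47 (T t100 N))))))) (K a149 (M a16 (F (T t173 (L l373 (L l375 (L l481 (T t97 (L l93 (L l170 (T t102 N)))))))))) (K a213 (Fr a170 a255 l476 (Fr a42 a21 l68 (Fr a106 a234 l390 (Fr a192 a149 l519 (V t581))))) (K a42 (M a48 (F (T t364 (L l298 (L l390 (T t50 (L l28 (T t100 N)))))))) (K a106 (M a48 (F (T t99 (L l481 (T t1 (L l298 (L l390 (T t50 N)))))))) (K a170 (M a16 (F (L l404 (T t113 (L l390 (T t98 (L l373 (L l390 (L l404 (L l481 (T t97 (L l404 (T t174 N))))))))))))) (K a255 (M a16 (F (T t112 (L l289 (T t113 (L l289 (L l296 (T t98 N)))))))) N)))))))))))))))⟩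
def e0_63__91_224 : Ent 4 := ⟨[a0, a63], [a91, a229], (M a85 (F (T t90 (L l275 (T t88 (L l256 (T t52 (L l275 (T t89 (K a64 (M a252 (F (T t91 (L l93 (L l275 (T t92 N)))))) (K a192 (M a16 (F (T t112 (L l236 (L l303 (T t173 (L l275 (L l296 (T t98 N))))))))) (K a21 (M a48 (F (T t99 (L l47 (T t567 (L l47 (T t100 N))))))) (K a149 (M a16 (F (T t112 (L l303 (T t173 (L l93 (L l170 (T t102 N)))))))) (K a213 (Fr a170 a255 l476 (Fr a42 a21 l68 (Fr a106 a234 l390 (Fr a192 a149 l519 (V t581))))) (K a42 (M a48 (F (L l28 (T t99 (L l390 (T t567 (L l28 (T t100 N)))))))) (K a106 (M a48 (F (T t99 (L l481 (T t1 (L l303 (L l390 (T t50 N)))))))) (K a170 (M a16 (F (L l404 (T t113 (L l275 (L l390 (T t98 (L l373 (L l390 (L l404 (L l481 (T t97 (L l275 (L l303 (L l404 (T t174 N)))))))))))))))) (K a255 (M a16 (F (T t112 (L l289 (T t113 (L l275 (L l289 (L l296 (T t98 N))))))))) N))))))))))))))))))⟩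
def e0_63__91_225 : Ent 4 := ⟨[a0, a63], [a91, a230], (M a85 (F (T t90 (L l278 (T t88 (L l254 (T t52 (L l278 (T t89 (K a64 (M a240 (F (T t386 (L l93 (L l278 (T t387 N)))))) (K a192 (M a16 (F (T t96 (L l339 (L l373 (L l481 (T t97 (L l278 (L l296 (T t98 N)))))))))) (K a21 (M a48 (F (T t99 (T t50 (L l47 (T t100 N)))))) (K a149 (M a16 (F (T t173 (L l373 (L l375 (L l481 (T t97 (L l93 (L l170 (T t102 N)))))))))) (K a213 (Fr a170 a255 l476 (Fr a42 a21 l68 (Fr a106 a234 l390 (Fr a192 a149 l519 (V t581))))) (K a42 (M a48 (F (T t364 (L l390 (T t50 (L l28 (T t100 N))))))) (K a106 (M a48 (F (T t99 (L l481 (T t1 (L l390 (T t50 N))))))) (K a170 (M a16 (F (L l404 (T t113 (L l278 (L l390 (T t98 (L l373 (L l390 (L l404 (L l481 (T t97 (L l404 (T t174 N)))))))))))))) (K a255 (M a16 (F (T t112 (L l289 (T t113 (L l278 (L l289 (L l296 (T t98 N))))))))) N))))))))))))))))))⟩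
def e0_63__91_226 : Ent 4 := ⟨[a0, a63], [a91, a231], (M a85 (F (T t88 (T t52 (T t89 (T t90 (K a64 (M a240 (F (T t933 (L l93 (T t387 N))))) (K a192 (M a16 (F (T t112 (L l386 (T t96 (L l296 (T t98 N))))))) (K a21 (M a48 (F (T t99 (T t50 (L l47 (T t100 N)))))) (K a149 (M a16 (F (T t112 (L l301 (T t173 (L l93 (L l170 (T t102 N)))))))) (K a213 (Fr a170 a255 l476 (Fr a42 a21 l68 (Fr a106 a234 l390 (Fr a192 a149 l519 (V t581))))) (K a42 (M a48 (F (L l28 (T t99 (L l390 (T t50 (L l28 (T t100 N)))))))) (K a106 (M a48 (F (T t99 (L l481 (T t1 (L l390 (T t50 N))))))) (K a170 (M a16 (F (L l404 (T t113 (L l390 (T t98 (L l373 (L l390 (L l404 (L l481 (T t97 (L l301 (L l404 (T t174 N)))))))))))))) (K a255 (M a16 (F (T t112 (L l289 (T t113 (L l289 (L l296 (T t98 N)))))))) N)))))))))))))))⟩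
def e0_63__91_227 : Ent 4 := ⟨[a0, a63], [a91, a232], (M a85 (F (T t168 (L l292 (T t88 (L l250 (T t52 (L l292 (T t90 (K a64 (M a252 (F (T t91 (L l93 (L l388 (T t92 N)))))) (K a192 (M a252 (F (L l309 (T t4409 (L l514 (T t93 (L l296 (L l309 (L l388 (T t170 (L l93 (L l388 (L l393 (T t2344 N)))))))))))))) (K a21 (M a48 (F (T t99 (T t50 (L l47 (T t100 N)))))) (K a149 (M a16 (F (T t173 (L l373 (L l375 (L l481 (T t97 (L l93 (L l170 (T t102 N)))))))))) (K a213 (Fr a170 a255 l476 (Fr a42 a21 l68 (Fr a106 a234 l390 (Fr a192 a149 l519 (V t581))))) (K a42 (M a48 (F (T t364 (L l390 (T t50 (L l28 (T t100 N))))))) (K a106 (M a169 (F (L l142 (T t4410 (L l390 (T t2024 (L l142 (L l388 (L l390 (T t2346 (L l292 (L l373 (L l516 (T t2347 N)))))))))))))) (K a170 (M a16 (F (L l404 (T t113 (L l390 (T t98 (L l373 (L l390 (L l404 (L l481 (T t97 (L l404 (T t174 N))))))))))))) (K a255 (M a16 (F (T t112 (L l289 (T t113 (L l289 (L l296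 (T t98 N)))))))) N))))))))))))))))))⟩
def e0_63__91_228 : Ent 4 := ⟨[a0, a63], [a91, a233], (M a85 (F (T t90 (L l293 (T t88 (L l250 (T t52 (L l293 (T t89 (K a64 (M a240 (F (T t386 (L l93 (L l293 (T t387 N)))))) (K a192 (M a16 (F (T t96 (L l339 (L l373 (L l481 (T t97 (L l293 (L l296 (T t98 N)))))))))) (K a21 (M a48 (F (T t99 (T t50 (L l47 (T t100 N)))))) (K a149 (M a16 (F (T t173 (L l373 (L l375 (L l481 (T t97 (L l93 (L l170 (T t102 N)))))))))) (K a213 (Fr a170 a255 l476 (Fr a42 a21 l68 (Fr a106 a234 l390 (Fr a192 a149 l519 (V t581))))) (K a42 (M a48 (F (T t364 (L l390 (T t50 (L l28 (T t100 N))))))) (K a106 (M a48 (F (T t99 (L l481 (T t1 (L l390 (T t50 N))))))) (K a170 (M a16 (F (L l404 (T t113 (L l293 (L l390 (T t98 (L l373 (L l390 (L l404 (L l481 (T t97 (L l404 (T t174 N)))))))))))))) (K a255 (M a16 (F (T t112 (L l289 (T t113 (L l289 (L l293 (L l296 (T t98 N))))))))) N))))))))))))))))))⟩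
def e0_63__91_229 : Ent 4 := ⟨[a0, a63], [a91, a234], (M a12 (F (T t122 (L l390 (T t151 (T t152 (L l390 (T t153 (K a4 (M a60 (F (T t570 (L l46 (L l50 (T t67 (L l390 (T t448 N)))))))) (K a8 (M a60 (F (T t68 (L l481 (T t398 (L l52 (L l56 (L l390 (T t448 N))))))))) (K a21 (M a192 (F (T t836 (L l15 (L l254 (L l347 (L l481 (T t450 (L l15 (L l254 (L l347 (T t157 N)))))))))))) (K a25 (M a192 (F (T t836 (L l15 (L l254 (L l481 (T t450 (L l390 (T t202 N))))))))) (K a29 (M a192 (F (T t156 (L l390 (T t202 (L l390 (T t2625 N))))))) (K a38 (M a192 (F (T t156 (L l254 (L l481 (T t450 (L l390 (T t202 N)))))))) (K a42 (M a106 (F (T t2305 (L l88 (L l131 (L l254 (T t2419 (L l56 (L l254 (T t2415 N)))))))))) (K a46 (M a192 (F (T t156 (L l390 (L l408 (T t202 (L l390 (L l408 (T t2625 N))))))))) (K a51 (M a192 (F (T t159 (L l254 (L l415 (L l481 (T t450 (L l390 (L l439 (T t202 N)))))))))) N)))))))))))))))))⟩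
def e0_63__91_230 : Ent 4 := ⟨[a0, a63], [a91, a235], (M a12 (F (T t122 (T t151 (T t152 (T t153 (K a4 (M a60 (F (T t69 (L l481 (T t398 (L l392 (T t448 N))))))) (K a8 (M a60 (F (T t68 (L l481 (T t398 (L l52 (L l56 (L l392 (T t448 N))))))))) (K a21 (M a192 (F (T t836 (L l15 (L l347 (L l481 (T t450 (L l15 (L l347 (T t157 N)))))))))) (K a25 (M a192 (F (T t449 (L l15 (L l481 (T t450 (L l295 (T t21 N)))))))) (K a29 (M a192 (F (T t449 (L l295 (L l371 (T t21 (T t160 N))))))) (K a38 (M a192 (F (T t156 (L l481 (T t450 (L l295 (T t21 N))))))) (K a42 (M a192 (F (T t449 (L l481 (T t450 (L l56 (T t157 N))))))) (K a46 (M a192 (F (T t449 (L l295 (T t21 (L l26 (L l408 (T t160 N)))))))) (K a51 (M a192 (F (T t1681 (L l513 (T t156 (L l415 (L l481 (T t450 N)))))))) N)))))))))))))))⟩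
def e0_63__91_231 : Ent 4 := ⟨[a0, a63], [a91, a236], (M a85 (F (T t88 (T t52 (T t89 (T t90 (K a64 (M a48 (F (T t50 (L l400 (T t568 N))))) (K a192 (M a16 (F (L l400 (T t96 (T t966 (L l339 (L l373 (L l400 (L l481 (T t97 N)))))))))) (K a21 (M a48 (F (T t873 (L l47 (L l400 (T t100 (T t50 N))))))) (K a149 (M a16 (F (T t666 (L l373 (L l375 (L l400 (L l481 (T t97 (L l93 (L l170 (T t102 N))))))))))) (K a213 (Fr a170 a255 l476 (Fr a42 a21 l68 (Fr a106 a234 l390 (Fr a192 a149 l519 (V t581))))) (K a42 (M a48 (F (L l251 (T t364 (L l390 (T t50 (L l28 (L l400 (T t100 N))))))))) (K a106 (M a48 (F (T t48 (L l104 (L l400 (T t509 (L l390 (T t50 N)))))))) (K a170 (M a16 (F (L l400 (L l404 (T t113 (L l390 (T t98 (L l373 (L l390 (L l400 (L l404 (L l481 (T t97 (L l400 (L l404 (T t174 N)))))))))))))))) (K a255 (M a16 (F (L l400 (T t112 (L l289 (L l296 (T t98 (L l289 (L l400 (T t113 N)))))))))) N)))))))))))))))⟩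
def e0_63__91_232 : Ent 4 := ⟨[a0, a63], [a91, a237], (M a85 (F (T t88 (T t52 (T t89 (T t90 (K a64 (M a240 (F (T t933 (L l93 (T t387 N))))) (K a192 (M a16 (F (T t112 (L l401 (T t96 (L l296 (T t98 N))))))) (K a21 (M a48 (F (T t99 (T t50 (L l47 (T t100 N)))))) (K a149 (M a16 (F (T t112 (L l291 (T t173 (L l93 (L l170 (T t102 N)))))))) (K a213 (Fr a170 a255 l476 (Fr a42 a21 l68 (Fr a106 a234 l390 (Fr a192 a149 l519 (V t581))))) (K a42 (M a48 (F (L l28 (T t99 (L l390 (T t50 (L l28 (T t100 N)))))))) (K a106 (M a48 (F (T t99 (L l481 (T t1 (L l390 (T t50 N))))))) (K a170 (M a16 (F (L l404 (T t113 (L l390 (T t98 (L l373 (L l390 (L l404 (L l481 (T t97 (L l291 (L l404 (T t174 N)))))))))))))) (K a255 (M a16 (F (T t112 (L l289 (T t113 (L l289 (L l296 (T t98 N)))))))) N)))))))))))))))⟩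
def e0_63__91_233 : Ent 4 := ⟨[a0, a63], [a91, a238], (M a60 (F (T t67 (T t43 (T t68 (T t69 (K a20 (M a48 (F (T t64 (L l11 (L l481 (T t1 (L l11 (T t235 N)))))))) (K a40 (M a48 (F (T t64 (L l481 (T t1 (L l52 (T t235 N))))))) (K a21 (M a192 (F (T t72 (L l131 (L l347 (T t73 (L l347 (T t74 N)))))))) (K a41 (M a192 (F (T t79 (L l65 (L l254 (L l290 (T t35 (L l131 (T t73 N))))))))) (K a61 (M a192 (F (T t72 (L l65 (L l254 (L l290 (L l515 (T t35 (L l373 (T t80 N)))))))))) (K a22 (M a192 (F (T t72 (L l290 (T t21 (L l131 (T t73 N))))))) (K a42 (M a192 (F (T t77 (L l131 (T t73 (L l22 (T t74 N))))))) (K a62 (M a192 (F (T t72 (L l254 (L l290 (T t35 (L l66 (L l373 (L l516 (T t80 N)))))))))) (K a3 (M a192 (F (T t237 (L l477 (T t79 (L l254 (L l290 (L l475 (T t35 N))))))))) N)))))))))))))))⟩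
def e0_63__91_234 : Ent 4 := ⟨[a0, a63], [a91, a239], (M a12 (F (T t122 (T t151 (T t152 (T t153 (K a4 (M a60 (F (T t43 (L l481 (T t398 (T t448 N)))))) (K a8 (M a60 (F (T t67 (L l481 (T t398 (L l52 (L l56 (T t448 N)))))))) (K a21 (M a192 (F (T t836 (L l15 (L l347 (L l481 (T t450 (L l15 (L l347 (T t157 N)))))))))) (K a25 (M a192 (F (T t449 (L l15 (L l481 (T t450 (L l289 (T t21 N)))))))) (K a29 (M a192 (F (T t449 (L l289 (L l371 (T t21 (T t160 N))))))) (K a38 (M a192 (F (T t156 (L l481 (T t450 (L l289 (T t21 N))))))) (K a42 (M a192 (F (T t449 (L l481 (T t450 (L l56 (T t157 N))))))) (K a46 (M a192 (F (T t449 (L l289 (T t21 (L l26 (L l408 (T t160 N)))))))) (K a51 (M a192 (F (T t1681 (L l513 (T t156 (L l415 (L l481 (T t450 N)))))))) N)))))))))))))))⟩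
def e0_63__91_235 : Ent 4 := ⟨[a0, a63], [a91, a240], (M a12 (F (T t150 (L l417 (T t122 (L l417 (T t151 (L l417 (T t152 (L l417 (T t153 (K a4 (M a60 (F (T t570 (L l46 (L l50 (L l453 (T t67 (T t448 N)))))))) (K a8 (M a60 (F (T t116 (L l481 (L l483 (T t398 (L l52 (L l56 (T t448 N))))))))) (K a21 (M a192 (F (T t2119 (L l15 (L l258 (L l347 (L l481 (T t450 (L l15 (L l347 (T t157 N))))))))))) (K a25 (M a192 (F (T t158 (L l298 (T t156 (L l266 (T t21 N))))))) (K a29 (M a192 (F (T t159 (L l266 (L l371 (T t21 (T t160 N))))))) (K a38 (M a192 (F (T t161 (L l298 (T t156 (L l266 (T t21 N))))))) (K a42 (M a192 (F (T t161 (L l298 (T t156 (L l56 (T t157 N))))))) (K a46 (M a192 (F (T t57 (L l298 (T t156 (L l26 (L l408 (T t160 N)))))))) (K a51 (M a170 (L l417 (F (T t439 (L l266 (L l439 (T t3685 (L l463 (T t3880 (K a177 (M a114 (F (T t4159 (L l463 (T t3682 N))))) (K a114 (M a177 (F (T t4159 (L l463 (T t3682 N))))) N)))))))))))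 N))))))))))))))))))))⟩
def e0_63__91_236 : Ent 4 := ⟨[a0, a63], [a91, a241], (M a85 (F (T t88 (T t52 (T t89 (T t90 (K a64 (M a240 (F (T t386 (L l93 (T t387 N))))) (K a192 (M a16 (F (T t96 (L l339 (L l373 (L l481 (T t97 (L l296 (T t98 N))))))))) (K a21 (M a48 (F (T t99 (L l258 (T t50 (L l47 (T t100 N))))))) (K a149 (M a16 (F (T t173 (L l373 (L l375 (L l481 (T t97 (L l93 (L l170 (T t102 N)))))))))) (K a213 (Fr a170 a255 l476 (Fr a42 a21 l68 (Fr a106 a234 l390 (Fr a192 a149 l519 (V t581))))) (K a42 (M a48 (F (T t364 (L l258 (L l390 (T t50 (L l28 (T t100 N)))))))) (K a106 (M a48 (F (T t99 (L l481 (T t1 (L l258 (L l390 (T t50 N)))))))) (K a170 (M a16 (F (L l404 (T t113 (L l390 (T t98 (L l373 (L l390 (L l404 (L l481 (T t97 (L l404 (T t174 N))))))))))))) (K a255 (M a16 (F (T t112 (L l289 (T t113 (L l289 (L l296 (T t98 N)))))))) N)))))))))))))))⟩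
def e0_63__91_237 : Ent 4 := ⟨[a0, a63], [a91, a242], (M a85 (F (T t88 (T t52 (T t89 (T t90 (K a64 (M a240 (F (T t933 (L l93 (T t387 N))))) (K a192 (M a16 (F (T t96 (L l339 (L l373 (L l481 (T t97 (L l296 (T t98 N))))))))) (K a21 (M a48 (F (T t99 (L l258 (T t50 (L l47 (T t100 N))))))) (K a149 (M a16 (F (T t173 (L l373 (L l375 (L l481 (T t97 (L l93 (L l170 (T t102 N)))))))))) (K a213 (Fr a170 a255 l476 (Fr a42 a21 l68 (Fr a106 a234 l390 (Fr a192 a149 l519 (V t581))))) (K a42 (M a48 (F (T t364 (L l258 (L l390 (T t50 (L l28 (T t100 N)))))))) (K a106 (M a48 (F (T t99 (L l481 (T t1 (L l258 (L l390 (T t50 N)))))))) (K a170 (M a16 (F (L l404 (T t113 (L l390 (T t98 (L l373 (L l390 (L l404 (L l481 (T t97 (L l404 (T t174 N))))))))))))) (K a255 (M a16 (F (T t112 (L l289 (T t113 (L l289 (L l296 (T t98 N)))))))) N)))))))))))))))⟩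
def e0_63__91_238 : Ent 4 := ⟨[a0, a63], [a91, a243], (M a15 (F (T t1254 (L l416 (T t716 (L l416 (T t731 (L l416 (T t723 (L l373 (L l416 (T t732 (K a48 (M a106 (L l416 (F (T t4411 (L l373 (T t2533 (K a113 (M a178 (F (T t4411 (L l373 (T t2533 N))))) (K a178 (M a113 (F (T t4411 (L l373 (T t2533 N))))) N)))))))) (K a5 (M a12 (F (T t2823 (L l47 (L l415 (T t122 (L l5 (T t722 N)))))))) (K a21 (M a192 (F (T t4412 (L l47 (L l301 (T t2795 (L l47 (T t2798 N)))))))) (K a37 (M a192 (F (T t4413 (L l265 (T t21 (L l258 (T t2796 N))))))) (K a10 (M a12 (F (T t150 (L l446 (T t2544 (L l54 (T t722 N))))))) (K a26 (M a192 (F (T t2821 (L l18 (L l265 (T t35 (L l258 (T t2796 N)))))))) (K a42 (M a192 (F (T t2821 (L l258 (L l390 (T t2796 (L l28 (L l390 (T t2798 N))))))))) (K a31 (M a192 (L l373 (F (T t1681 (L l301 (T t2795 (L l18 (L l375 (T t2801 (K a211 (M a151 (L l271 (F (T t4414 (L l131 (L l446 (T t3751 (K a195 (M a227 (F (T t1681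 (L l235 (L l301 (T t2795 (T t4415 N))))))) (K a227 (Fr a195 a107 l517 (V t4416)) N))))))))) (K a151 (M a211 (F (T t4414 (L l18 (L l163 (L l265 (L l375 (T t35 (T t4415 N))))))))) N))))))))))) (K a47 (M a192 (F (T t2821 (L l265 (T t35 (T t2801 N)))))) N)))))))))))))))))))))⟩
def e0_63__91_239 : Ent 4 := ⟨[a0, a63], [a91, a244], (M a85 (F (T t88 (T t52 (T t89 (T t90 (K a64 (M a240 (F (T t386 (L l93 (T t387 N))))) (K a192 (M a16 (F (T t96 (L l339 (L l373 (L l481 (T t97 (L l296 (T t98 N))))))))) (K a21 (M a48 (F (T t99 (L l262 (T t50 (L l47 (T t100 N))))))) (K a149 (M a16 (F (T t173 (L l373 (L l375 (L l481 (T t97 (L l93 (L l170 (T t102 N)))))))))) (K a213 (Fr a170 a255 l476 (Fr a42 a21 l68 (Fr a106 a234 l390 (Fr a192 a149 l519 (V t581))))) (K a42 (M a48 (F (T t364 (L l262 (L l390 (T t50 (L l28 (T t100 N)))))))) (K a106 (M a48 (F (T t99 (L l481 (T t1 (L l262 (L l390 (T t50 N)))))))) (K a170 (M a16 (F (L l404 (T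 t113 (L l390 (T t98 (L l373 (L l390 (L l404 (L l481 (T t97 (L l404 (T t174 N))))))))))))) (K a255 (M a16 (F (T t112 (L l289 (T t113 (L l289 (L l296 (T t98 N)))))))) N)))))))))))))))⟩
def e0_63__91_240 : Ent 4 := ⟨[a0, a63], [a91, a245], (M a12 (F (T t122 (T t151 (T t152 (T t153 (K a4 (M a60 (F (T t43 (L l481 (T t398 (T t448 N)))))) (K a8 (M a60 (F (T t67 (L l481 (T t398 (L l52 (L l56 (T t448 N)))))))) (K a21 (M a192 (F (T t836 (L l15 (L l347 (L l481 (T t450 (L l15 (L l259 (L l347 (T t157 N))))))))))) (K a25 (M a192 (F (T t449 (L l15 (L l481 (T t450 (L l266 (T t21 N)))))))) (K a29 (M a192 (F (T t449 (L l266 (L l371 (T t21 (L l275 (T t160 N)))))))) (K a38 (M a192 (F (T t836 (L l481 (T t450 (L l266 (T t21 N))))))) (K a42 (M a192 (F (T t449 (L l481 (T t450 (L l56 (L l259 (T t157 N)))))))) (K a46 (M a192 (F (T t449 (L l266 (T t21 (L l26 (L l275 (L l408 (T t160 N))))))))) (K a51 (M a85 (F (T t571 (L l259 (L l275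 (T t572 N)))))) N)))))))))))))))⟩
def e0_63__91_241 : Ent 4 := ⟨[a0, a63], [a91, a246], (M a85 (F (T t88 (T t52 (T t89 (T t90 (K a64 (M a240 (F (T t386 (L l93 (T t387 N))))) (K a192 (M a16 (F (T t96 (L l339 (L l373 (L l481 (T t97 (L l296 (T t98 N))))))))) (K a21 (M a48 (F (T t99 (T t50 (L l47 (T t100 N)))))) (K a149 (M a16 (F (T t173 (L l373 (L l375 (L l481 (T t97 (L l93 (L l170 (T t102 N)))))))))) (K a213 (Fr a170 a255 l476 (Fr a42 a21 l68 (Fr a106 a234 l390 (Fr a192 a149 l519 (V t581))))) (K a42 (M a48 (F (T t364 (L l390 (T t50 (L l28 (T t100 N))))))) (K a106 (M a48 (F (T t99 (L l481 (T t1 (L l390 (T t50 N))))))) (K a170 (M a16 (F (L l404 (T t113 (L l390 (T t98 (L l373 (L l390 (L l404 (L l481 (T t97 (L l404 (T t174 N))))))))))))) (K a255 (M a16 (F (T t112 (L l289 (T t113 (L l289 (L l296 (T t98 N)))))))) N)))))))))))))))⟩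
def e0_63__91_242 : Ent 4 := ⟨[a0, a63], [a91, a247], (M a149 (F (T t175 (L l278 (T t5 (L l265 (L l278 (T t176 (L l265 (T t177 (K a192 (M a53 (F (T t178 (L l236 (T t179 (L l236 (L l278 (L l296 (T t180 N))))))))) (K a21 (M a48 (F (T t4 (T t13 (L l18 (T t14 N)))))) (K a85 (M a4 (F (L l421 (T t519 (L l144 (L l278 (T t653 (L l126 (T t654 N))))))))) (K a213 (Fr a106 a192 l519 (Fr a42 a21 l68 (Fr a170 a234 l390 (Fr a255 a85 l476 (V t582))))) (K a42 (M a48 (F (T t187 (L l390 (T t13 (L l54 (T t14 N))))))) (K a106 (M a48 (F (T t48 (L l498 (T t14 (L l278 (L l390 (L l422 (L l498 (T t6 (L l278 (L l390 (T t26 N))))))))))))) (K a170 (M a48 (F (T t4 (L l462 (L l481 (T t1 (L l390 (T t13 N)))))))) (K a191 (M a16 (F (T t112 (T t190 (L l213 (L l278 (T t191 N))))))) (K a255 (M a243 (F (L l470 (T t4417 (L l439 (T t2109 (L l131 (L l278 (L l296 (T t2110 (L l88 (L l131 (L l421 (T t2111 N)))))))))))))) N)))))))))))))))))))⟩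
def e0_63__91_243 : Ent 4 := ⟨[a0, a63], [a91, a248], (M a85 (F (T t88 (T t52 (T t89 (T t90 (K a64 (M a240 (F (T t933 (L l93 (T t387 N))))) (K a192 (M a16 (F (T t96 (L l339 (L l373 (L l481 (T t97 (L l296 (T t98 N))))))))) (K a21 (M a48 (F (T t99 (L l262 (T t50 (L l47 (T t100 N))))))) (K a149 (M a16 (F (T t173 (L l373 (L l375 (L l481 (T t97 (L l93 (L l170 (T t102 N)))))))))) (K a213 (Fr a170 a255 l476 (Fr a42 a21 l68 (Fr a106 a234 l390 (Fr a192 a149 l519 (V t581))))) (K a42 (M a48 (F (T t364 (L l262 (L l390 (T t50 (L l28 (T t100 N)))))))) (K a106 (M a48 (F (T t99 (L l481 (T t1 (L l262 (L l390 (T t50 N)))))))) (K a170 (M a16 (F (L l404 (T t113 (L l390 (T t98 (L l373 (L l390 (L l404 (L l481 (T t97 (L l404 (T t174 N))))))))))))) (K a255 (M a16 (F (T t112 (L l289 (T t113 (L l289 (L l296 (T t98 N)))))))) N)))))))))))))))⟩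
def e0_63__91_244 : Ent 4 := ⟨[a0, a63], [a91, a249], (M a85 (F (T t88 (T t52 (T t89 (T t90 (K a64 (M a240 (F (T t386 (L l93 (T t387 N))))) (K a192 (M a16 (F (T t96 (L l339 (L l373 (L l481 (T t97 (L l296 (T t98 N))))))))) (K a21 (M a48 (F (T t99 (T t50 (L l47 (T t100 N)))))) (K a149 (M a16 (F (T t173 (L l373 (L l375 (L l481 (T t97 (L l93 (L l170 (T t102 N)))))))))) (K a213 (Fr a170 a255 l476 (Fr a42 a21 l68 (Fr a106 a234 l390 (Fr a192 a149 l519 (V t581))))) (K a42 (M a48 (F (T t364 (L l390 (T t50 (L l28 (T t100 N))))))) (K a106 (M a48 (F (T t99 (L l481 (T t1 (L l390 (T t50 N))))))) (K a170 (M a16 (F (L l404 (T t113 (L l390 (T t98 (L l373 (L l390 (L l404 (L l481 (T t97 (L l404 (T t174 N))))))))))))) (K a255 (M a16 (F (T t112 (L l289 (T t113 (L l289 (L l296 (T t98 N)))))))) N)))))))))))))))⟩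
def e0_63__91_245 : Ent 4 := ⟨[a0, a63], [a91, a250], (M a12 (F (T t122 (T t151 (T t152 (T t153 (K a4 (M a60 (F (T t43 (L l481 (T t398 (T t448 N)))))) (K a8 (M a60 (F (T t67 (L l481 (T t398 (L l52 (L l56 (T t448 N)))))))) (K a21 (M a192 (F (T t836 (L l15 (L l347 (L l481 (T t450 (L l15 (L l347 (T t157 N)))))))))) (K a25 (M a192 (F (T t449 (L l15 (L l481 (T t450 (L l266 (T t21 N)))))))) (K a29 (M a192 (F (T t449 (L l266 (L l371 (T t21 (T t160 N))))))) (K a38 (M a192 (F (T t156 (L l481 (T t450 (L l266 (T t21 N))))))) (K a42 (M a192 (F (T t449 (L l481 (T t450 (L l56 (T t157 N))))))) (K a46 (M a192 (F (T t449 (L l266 (T t21 (L l26 (L l408 (T t160 N)))))))) (K a51 (M a192 (F (T t1681 (L l513 (T t156 (L l415 (L l481 (T t450 N)))))))) N)))))))))))))))⟩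
def e0_63__91_246 : Ent 4 := ⟨[a0, a63], [a91, a251], (M a12 (L l463 (F (T t122 (T t151 (L l427 (T t152 (L l464 (T t153 (K a4 (M a106 (L l463 (F (T t2475 (T t586 (L l50 (L l284 (T t2474 (K a11 (M a171 (F (T t2475 (L l50 (L l57 (L l284 (T t4418 N))))))) (K a171 (M a11 (F (T t2475 (L l50 (L l284 (T t305 (L l50 (L l284 (T t2474 N))))))))) N)))))))))) (K a8 (M a170 (L l463 (F (T t2102 (T t2498 (L l284 (T t2626 (K a11 (M a171 (L l2 (F (T t2498 (L l131 (L l284 (L l460 (T t4419 (K a9 (M a10 (F (T t2102 (L l5 (T t2151 N))))) (K a10 (M a9 (F (T t2102 (L l6 (L l260 (L l460 (T t4420 N))))))) N)))))))))) (K a171 (M a11 (F (T t2102 (L l219 (T t2498 (L l284 (T t2626 N))))))) N))))))))) (K a21 (M a255 (L l463 (F (T t2034 (L l464 (L l481 (T t2123 (L l15 (L l464 (T t4364 (K a11 (M a171 (F (T t2486 (L l93 (L l347 (T t4421 N)))))) (K a171 (M a11 (F (T t2034 (L l174 (L l464 (L l481 (T t2123 (L l15 (L l174 (L l219 (L l464 (T t4364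 N)))))))))))) N)))))))))))) (K a25 (M a3 (L l463 (F (L l15 (T t353 (L l71 (L l481 (T t759 (L l53 (L l56 (T t758 (K a11 (M a171 (F (L l56 (T t665 (L l93 (T t4422 N)))))) (K a171 (M a11 (F (T t4423 (L l15 (T t358 N))))) N))))))))))))) (K a29 (M a3 (L l463 (F (T t137 (L l464 (L l481 (T t761 (T t758 (K a11 (M a171 (F (L l15 (T t358 (L l93 (L l265 (L l464 (L l481 (T t4424 N))))))))) (K a171 (M a11 (F (T t4423 (L l15 (T t358 N))))) N)))))))))) (K a38 (M a106 (L l463 (F (T t2304 (L l50 (L l284 (T t310 (L l265 (L l464 (T t2415 (K a11 (M a171 (F (T t2304 (L l29 (L l50 (L l57 (L l284 (T t4418 N)))))))) (K a171 (M a11 (F (T t2304 (L l48 (L l50 (L l355 (T t2802 N))))))) N)))))))))))) (K a42 (M a255 (L l463 (F (T t2999 (L l390 (L l464 (L l481 (T t2123 (L l390 (L l464 (T t4364 (K a11 (M a171 (F (T t2486 (L l93 (T t4421 N))))) (K a171 (M a11 (F (T t2999 (L l174 (L l390 (L l464 (L l481 (T t2123 (L l174 (L l219 (L l390 (L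 l464 (T t4364 N))))))))))))) N))))))))))))) (K a46 (M a3 (L l463 (F (T t353 (L l464 (L l481 (T t761 (L l26 (T t758 (K a11 (M a171 (F (T t353 (L l93 (L l265 (L l396 (L l464 (L l481 (T t4424 N))))))))) (K a171 (M a11 (F (T t4423 (L l60 (T t358 N))))) N))))))))))) (K a51 (M a106 (L l463 (F (T t1321 (L l489 (T t2304 (L l265 (L l464 (T t2415 (K a11 (M a171 (F (T t4425 (L l57 (L l284 (T t4418 N)))))) (K a171 (M a11 (F (T t4425 (L l73 (L l355 (T t2802 N)))))) N))))))))))) (K a11 (M a171 (F (T t122 (T t151 (L l55 (L l427 (T t152 (L l2 (L l464 (T t153 (K a4 (M a2 (F (L l93 (L l458 (T t4426 (L l50 (T t3362 N))))))) (K a8 (M a170 (L l2 (F (T t2498 (L l131 (L l284 (L l460 (T t4419 (K a9 (M a10 (F (T t2102 (L l5 (T t2151 N))))) (K a10 (M a9 (F (T t2102 (L l6 (L l260 (L l460 (T t4420 N))))))) N)))))))))) (K a21 (M a170 (F (L l465 (T t4427 (L l347 (T t2498 N)))))) (K a25 (M a106 (F (T t2305 (L l15 (L l131 (L l284 (T t4428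 N))))))) (K a29 (M a170 (F (T t2102 (L l465 (T t4427 N))))) (K a38 (M a2 (F (L l93 (T t4426 (L l48 (L l50 (T t3362 N))))))) (K a42 (M a170 (F (T t2498 (L l465 (T t4427 N))))) (K a46 (M a170 (F (T t2102 (L l465 (T t4427 N))))) (K a51 (M a2 (F (L l93 (T t4426 (T t3362 N))))) N))))))))))))))))))) (K a171 (M a11 (F (T t151 (T t4372 (L l355 (T t2802 (L l427 (T t4373 (K a8 (M a170 (F (T t2102 (L l219 (T t2498 (L l284 (T t2626 N))))))) N))))))))) N))))))))))))))))))))⟩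
def e0_63__91_247 : Ent 4 := ⟨[a0, a63], [a91, a252], (M a12 (F (T t150 (L l441 (T t122 (L l441 (T t151 (L l441 (T t152 (L l441 (T t153 (K a4 (M a60 (F (T t570 (L l46 (L l50 (L l477 (T t67 (T t448 N)))))))) (K a8 (M a60 (F (T t116 (L l471 (L l481 (T t398 (L l52 (L l56 (T t448 N))))))))) (K a21 (M a192 (F (T t2119 (L l15 (L l267 (L l347 (L l481 (T t450 (L l15 (L l347 (T t157 N))))))))))) (K a25 (M a192 (F (T t158 (L l286 (T t156 (L l261 (T t21 N))))))) (K a29 (M a192 (F (T t159 (L l261 (L l371 (T t21 (T t160 N))))))) (K a38 (M a192 (F (T t161 (L l286 (T t156 (L l261 (T t21 N))))))) (K a42 (M a192 (F (T t161 (L l286 (T t156 (L l56 (T t157 N))))))) (K a46 (M a192 (F (T t57 (L l286 (T t156 (L l26 (L l408 (T t160 N)))))))) (K a51 (M a170 (L l441 (F (T t439 (L l261 (L l439 (T t3685 (L l463 (T t3880 (K a185 (M a118 (F (T t4159 (L l463 (T t3682 N))))) (K a118 (M a185 (F (T t4159 (L l463 (T t3682 N))))) N)))))))))))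 N))))))))))))))))))))⟩
def e0_63__91_248 : Ent 4 := ⟨[a0, a63], [a91, a253], (M a149 (F (T t175 (L l293 (T t5 (L l261 (L l293 (T t176 (L l261 (T t177 (K a192 (M a53 (F (T t178 (L l236 (T t179 (L l236 (L l293 (L l296 (T t180 N))))))))) (K a21 (M a48 (F (T t4 (T t13 (L l18 (T t14 N)))))) (K a85 (M a1 (F (L l431 (T t534 (L l144 (L l293 (T t1083 (L l141 (T t1084 N))))))))) (K a213 (Fr a106 a192 l519 (Fr a42 a21 l68 (Fr a170 a234 l390 (Fr a255 a85 l476 (V t582))))) (K a42 (M a48 (F (T t187 (L l390 (T t13 (L l54 (T t14 N))))))) (K a106 (M a48 (F (T t48 (L l498 (T t14 (L l293 (L l390 (L l437 (L l498 (T t6 (L l293 (L l390 (T t26 N))))))))))))) (K a170 (M a48 (F (T t4 (L l462 (L l481 (T t1 (L l390 (T t13 N)))))))) (K a191 (M a16 (F (T t112 (T t190 (L l213 (L l293 (T t191 N))))))) (K a255 (M a252 (F (T t2838 (L l434 (T t940 (L l293 (L l296 (T t1291 (L l431 (T t1292 N)))))))))) N)))))))))))))))))))⟩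
def e0_63__91_249 : Ent 4 := ⟨[a0, a63], [a91, a254], (M a12 (F (T t122 (T t151 (T t152 (T t153 (K a4 (M a60 (F (T t43 (L l468 (L l481 (T t398 (T t448 N))))))) (K a8 (M a60 (F (T t67 (L l468 (L l481 (T t398 (L l52 (L l56 (T t448 N))))))))) (K a21 (M a192 (F (T t836 (L l15 (L l347 (L l481 (T t450 (L l15 (L l347 (T t157 N)))))))))) (K a25 (M a192 (F (T t449 (L l15 (L l481 (T t450 (L l261 (T t21 N)))))))) (K a29 (M a192 (F (T t449 (L l261 (L l371 (T t21 (T t160 N))))))) (K a38 (M a192 (F (T t156 (L l481 (T t450 (L l261 (T t21 N))))))) (K a42 (M a192 (F (T t449 (L l481 (T t450 (L l56 (T t157 N))))))) (K a46 (M a192 (F (T t449 (L l261 (T t21 (L l26 (L l408 (T t160 N)))))))) (K a51 (M a192 (F (T t1681 (L l513 (T t156 (L l415 (L l481 (T t450 N)))))))) N)))))))))))))))⟩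
def e0_63__91_250 : Ent 4 := ⟨[a0, a63], [a91, a255], (M a12 (F (T t150 (L l439 (T t122 (L l439 (T t151 (L l439 (T t152 (L l439 (T t153 (K a4 (M a60 (F (T t570 (L l46 (L l50 (L l475 (T t67 (T t448 N)))))))) (K a8 (M a60 (F (T t116 (L l469 (L l481 (T t398 (L l52 (L l56 (T t448 N))))))))) (K a21 (M a192 (F (T t158 (L l290 (T t156 (L l15 (L l265 (L l347 (T t157 N))))))))) (K a25 (M a192 (F (T t158 (L l290 (T t156 (L l15 (L l56 (L l265 (T t157 N))))))))) (K a29 (M a48 (F (T t145 (L l15 (L l469 (L l481 (T t1 (T t866 N)))))))) (K a38 (M a192 (F (T t161 (L l290 (T t156 (L l265 (T t157 N))))))) (K a42 (M a192 (F (T t161 (L l290 (T t156 (L l56 (L l265 (T t157 N)))))))) (K a46 (M a48 (F (T t867 (L l469 (L l481 (T t1 (L l26 (T t866 N)))))))) (K a51 (M a192 (L l439 (F (T t158 (L l290 (L l513 (T t156 (L l265 (T t157 (K a119 (M a187 (F (T t155 (L l290 (L l513 (T t468 (L l265 (L l421 (T t157 N))))))))) (K a187 (M a119 (F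 (T t1725 (L l189 (L l265 (L l415 (L l481 (T t543 (L l265 (T t157 N)))))))))) N))))))))))) N))))))))))))))))))))⟩
def b0_63__91 : Blk 4 := ⟨[0, 63], [91], [1, 2, 3, 4, 5, 6, 7, 8, 9, 10, 11, 12, 13, 14, 15, 16, 17, 18, 19, 20, 22, 23, 24, 25, 26, 27, 28, 29, 30, 31, 32, 33, 34, 35, 36, 37, 38, 39, 40, 41, 43, 44, 45, 46, 47, 48, 49, 50, 51, 52, 53, 54, 55, 56, 57, 58, 59, 60, 61, 62, 64, 65, 66, 67, 68, 69, 70, 71, 72, 73, 74, 75, 76, 77, 78, 79, 80, 81, 82, 83, 84, 85, 86, 87, 88, 89, 90, 92, 93, 94, 95, 96, 97, 98, 99, 100, 101, 102, 103, 104, 105, 106, 107, 108, 109, 110, 111, 112, 113, 114, 115, 116, 117, 118, 119, 120, 121, 122, 123, 124, 125, 126, 127, 128, 129, 130, 131, 132, 133, 134, 135, 136, 137, 138, 139, 140, 141, 142, 143, 144, 145, 146, 147, 148, 149, 150, 151, 152, 153, 154, 155, 156, 157, 158, 159, 160, 161, 162, 163, 164, 165, 166, 167, 168, 169, 170, 171, 172, 173, 174, 175, 176, 177, 178,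 179, 180, 181, 182, 183, 184, 185, 186, 187, 188, 189, 190, 191, 192, 193, 194, 195, 196, 197, 198, 199, 200, 201, 202, 203, 204, 205, 206, 207, 208, 209, 210, 211, 212, 213, 214, 215, 216, 217, 218, 219, 220, 221, 222, 223, 224, 225, 226, 227, 228, 229, 230, 231, 232, 233, 234, 235, 236, 237, 238, 239, 240, 241, 242, 243, 244, 245, 246, 247, 248, 249, 250, 251, 252, 253, 254, 255], [e0_63__91_0, e0_63__91_1, e0_63__91_2, e0_63__91_3, e0_63__91_4, e0_63__91_5, e0_63__91_6, e0_63__91_7, e0_63__91_8, e0_63__91_9, e0_63__91_10, e0_63__91_11, e0_63__91_12, e0_63__91_13, e0_63__91_14, e0_63__91_15, e0_63__91_16, e0_63__91_17, e0_63__91_18, e0_63__91_19, e0_63__91_20, e0_63__91_21, e0_63__91_22, e0_63__91_23, e0_63__91_24, e0_63__91_25, e0_63__91_26, e0_63__91_27, e0_63__91_28, e0_63__91_29, e0_63__91_30, e0_63__91_31, e0_63__91_32, e0_63__91_33, e0_63__91_34, e0_63__91_35, e0_63__91_36, e0_63__91_37, e0_63__91_38,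 e0_63__91_39, e0_63__91_40, e0_63__91_41, e0_63__91_42, e0_63__91_43, e0_63__91_44, e0_63__91_45, e0_63__91_46, e0_63__91_47, e0_63__91_48, e0_63__91_49, e0_63__91_50, e0_63__91_51, e0_63__91_52, e0_63__91_53, e0_63__91_54, e0_63__91_55, e0_63__91_56, e0_63__91_57, e0_63__91_58, e0_63__91_59, e0_63__91_60, e0_63__91_61, e0_63__91_62, e0_63__91_63, e0_63__91_64, e0_63__91_65, e0_63__91_66, e0_63__91_67, e0_63__91_68, e0_63__91_69, e0_63__91_70, e0_63__91_71, e0_63__91_72, e0_63__91_73, e0_63__91_74, e0_63__91_75, e0_63__91_76, e0_63__91_77, e0_63__91_78, e0_63__91_79, e0_63__91_80, e0_63__91_81, e0_63__91_82, e0_63__91_83, e0_63__91_84, e0_63__91_85, e0_63__91_86, e0_63__91_87, e0_63__91_88, e0_63__91_89, e0_63__91_90, e0_63__91_91, e0_63__91_92, e0_63__91_93, e0_63__91_94, e0_63__91_95, e0_63__91_96, e0_63__91_97, e0_63__91_98, e0_63__91_99, e0_63__91_100, e0_63__91_101, e0_63__91_102, e0_63__91_103, e0_63__91_104,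 e0_63__91_105, e0_63__91_106, e0_63__91_107, e0_63__91_108, e0_63__91_109, e0_63__91_110, e0_63__91_111, e0_63__91_112, e0_63__91_113, e0_63__91_114, e0_63__91_115, e0_63__91_116, e0_63__91_117, e0_63__91_118, e0_63__91_119, e0_63__91_120, e0_63__91_121, e0_63__91_122, e0_63__91_123, e0_63__91_124, e0_63__91_125, e0_63__91_126, e0_63__91_127, e0_63__91_128, e0_63__91_129, e0_63__91_130, e0_63__91_131, e0_63__91_132, e0_63__91_133, e0_63__91_134, e0_63__91_135, e0_63__91_136, e0_63__91_137, e0_63__91_138, e0_63__91_139, e0_63__91_140, e0_63__91_141, e0_63__91_142, e0_63__91_143, e0_63__91_144, e0_63__91_145, e0_63__91_146, e0_63__91_147, e0_63__91_148, e0_63__91_149, e0_63__91_150, e0_63__91_151, e0_63__91_152, e0_63__91_153, e0_63__91_154, e0_63__91_155, e0_63__91_156, e0_63__91_157, e0_63__91_158, e0_63__91_159, e0_63__91_160, e0_63__91_161, e0_63__91_162, e0_63__91_163, e0_63__91_164, e0_63__91_165, e0_63__91_166,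 e0_63__91_167, e0_63__91_168, e0_63__91_169, e0_63__91_170, e0_63__91_171, e0_63__91_172, e0_63__91_173, e0_63__91_174, e0_63__91_175, e0_63__91_176, e0_63__91_177, e0_63__91_178, e0_63__91_179, e0_63__91_180, e0_63__91_181, e0_63__91_182, e0_63__91_183, e0_63__91_184, e0_63__91_185, e0_63__91_186, e0_63__91_187, e0_63__91_188, e0_63__91_189, e0_63__91_190, e0_63__91_191, e0_63__91_192, e0_63__91_193, e0_63__91_194, e0_63__91_195, e0_63__91_196, e0_63__91_197, e0_63__91_198, e0_63__91_199, e0_63__91_200, e0_63__91_201, e0_63__91_202, e0_63__91_203, e0_63__91_204, e0_63__91_205, e0_63__91_206, e0_63__91_207, e0_63__91_208, e0_63__91_209, e0_63__91_210, e0_63__91_211, e0_63__91_212, e0_63__91_213, e0_63__91_214, e0_63__91_215, e0_63__91_216, e0_63__91_217, e0_63__91_218, e0_63__91_219, e0_63__91_220, e0_63__91_221, e0_63__91_222, e0_63__91_223, e0_63__91_224, e0_63__91_225, e0_63__91_226, e0_63__91_227, e0_63__91_228,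 e0_63__91_229, e0_63__91_230, e0_63__91_231, e0_63__91_232, e0_63__91_233, e0_63__91_234, e0_63__91_235, e0_63__91_236, e0_63__91_237, e0_63__91_238, e0_63__91_239, e0_63__91_240, e0_63__91_241, e0_63__91_242, e0_63__91_243, e0_63__91_244, e0_63__91_245, e0_63__91_246, e0_63__91_247, e0_63__91_248, e0_63__91_249, e0_63__91_250], by decide +kernel, by decide +kernel⟩

end Pool.Agent.Lib_TTT.K4
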