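import Pool.Agent.Lib_TTT.K4Base
import Pool.Agent.Lib_TTT.K4T00
import Pool.Agent.Lib_TTT.K4T01
import Pool.Agent.Lib_TTT.K4T02
import Pool.Agent.Lib_TTT.K4T03
import Pool.Agent.Lib_TTT.K4T04
import Pool.Agent.Lib_TTT.K4T05

/-! Certificates in `4^4`. -/

set_option autoImplicit false
set_option maxRecDepth 200000

namespace Pool.Agent.Lib_TTT.K4

open Lib_TTT AC DC

def e0_63__95_0 : Ent 4 := ⟨[a0, a63], [a95, a1], (M a85 (F (T t88 (L l65 (L l137 (L l469 (T t52 (T t89 (T t90 (K a64 (M a252 (F (T t93 (L l93 (T t92 N))))) (K a192 (M a16 (F (L l5 (T t112 (L l329 (T t1924 (L l296 (T t1925 N)))))))) (K a21 (M a48 (L l65 (F (L l361 (T t261 (L l137 (T t50 (L l47 (L l137 (L l361 (T t100 (K a41 (M a61 (F (L l41 (T t262 (L l329 (T t873 N)))))) (K a61 (M a41 (F (L l361 (T t261 (L l137 (T t50 (L l35 (L l47 (L l137 (L l361 (T t100 N))))))))))) N))))))))))))) (K a149 (M a48 (F (L l469 (T t364 (L l5 (T t132 (L l137 (L l220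 (T t50 N))))))))) (K a213 (Fr a170 a255 l476 (Fr a42 a21 l68 (Fr a106 a234 l390 (Fr a192 a149 l519 (V t581))))) (K a42 (M a48 (F (L l469 (T t364 (L l137 (L l390 (T t50 (L l28 (L l137 (L l361 (T t100 N))))))))))) (K a106 (M a48 (F (L l469 (T t364 (L l65 (T t48 (L l137 (L l390 (T t50 N))))))))) (K a170 (M a48 (F (L l65 (T t607 (L l137 (L l361 (L l404 (T t100 (L l390 (T t51 (L l361 (L l390 (L l404 (T t568 N)))))))))))))) (K a255 (M a15 (F (T t1254 (L l137 (L l266 (L l361 (T t1497 (L l266 (L l296 (T t1484 (L l266 (L l296 (T t1926 N))))))))))))) N))))))))))))))))))⟩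
def e0_63__95_1 : Ent 4 := ⟨[a0, a63], [a95, a2], (M a85 (F (L l66 (T t88 (L l137 (L l469 (T t52 (L l66 (T t89 (L l474 (T t90 (K a64 (M a16 (F (L l66 (T t112 (L l84 (L l474 (T t1924 (L l66 (L l116 (T t1925 N)))))))))) (K a192 (M a16 (F (L l66 (T t112 (L l474 (T t1924 (L l66 (L l296 (T t1925 N))))))))) (K a21 (M a48 (F (L l361 (T t509 (L l137 (L l474 (T t50 (L l47 (L l137 (L l361 (T t100 N))))))))))) (K a149 (M a48 (F (L l469 (T t364 (L l66 (T t132 (L l137 (L l220 (L l474 (T t50 N)))))))))) (K a213 (Fr a170 a255 l476 (Fr a42 a21 l68 (Fr a106 a234 l390 (Fr a192 a149 l519 (V t581))))) (K a42 (M a62 (F (L l22 (T t3620 (L l137 (L l390 (L l474 (T t1694 (L l22 (L l137 (L l306 (T t1695 (L l306 (L l390 (L l474 (T t1696 N)))))))))))))))) (K a106 (M a48 (F (L l361 (T t1699 (L l6 (L l469 (T t1 (L l66 (L l390 (L l498 (T t51 N))))))))))) (K a170 (M a86 (F (L l66 (L l390 (T t369 (L l93 (L l174 (L l306 (T t1701 (L l66 (L l174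 (L l390 (T t1702 (L l93 (L l174 (T t1703 N)))))))))))))))) (K a255 (M a15 (F (L l440 (T t731 (L l6 (L l137 (L l266 (L l361 (T t1497 (L l6 (L l66 (L l266 (L l296 (T t1484 (L l66 (L l266 (L l296 (T t1926 N)))))))))))))))))) N))))))))))))))))))))⟩
def e0_63__95_2 : Ent 4 := ⟨[a0, a63], [a95, a3], (M a12 (F (T t150 (L l43 (T t122 (L l43 (T t151 (L l43 (T t152 (L l43 (T t153 (K a4 (M a85 (F (T t89 (L l89 (L l137 (L l333 (T t124 (L l89 (T t154 N))))))))) (K a8 (M a85 (F (L l56 (T t89 (L l89 (L l137 (L l333 (L l464 (T t124 (L l56 (L l89 (T t154 N)))))))))))) (K a21 (M a192 (F (T t158 (L l333 (T t156 (L l15 (L l347 (T t157 N)))))))) (K a25 (M a192 (F (T t158 (L l333 (T t156 (L l137 (L l469 (L l475 (T t21 N))))))))) (K a29 (M a192 (F (T t1681 (L l333 (T t156 (T t160 N)))))) (K a38 (M a192 (F (T t161 (L l333 (T t156 (L l137 (L l469 (L l475 (T t21 N))))))))) (K a42 (M a192 (F (T t161 (L l333 (T t156 (L l56 (T t157 N)))))))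 (K a46 (M a192 (F (T t57 (L l333 (T t156 (L l26 (L l408 (T t160 N)))))))) (K a51 (M a106 (L l43 (F (T t3609 (T t2474 (K a19 (M a35 (F (T t2419 (L l309 (L l489 (T t4429 (T t2415 N))))))) (K a35 (M a19 (F (T t2419 (L l309 (L l489 (T t4429 (T t2415 N))))))) N))))))) N))))))))))))))))))))⟩
def e0_63__95_3 : Ent 4 := ⟨[a0, a63], [a95, a5], (M a60 (F (T t43 (L l47 (T t67 (L l47 (T t68 (L l5 (T t69 (K a20 (M a48 (F (T t70 (L l11 (L l14 (L l47 (L l469 (T t3 (L l46 (L l361 (T t71 N))))))))))) (K a40 (M a48 (F (T t70 (L l47 (L l469 (T t3 (L l22 (L l24 (L l361 (T t71 N)))))))))) (K a21 (M a192 (L l47 (F (T t72 (L l347 (T t73 (L l137 (L l347 (T t74 (K a37 (M a53 (F (T t75 (L l28 (T t76 N))))) (K a53 (M a37 (F (T t77 (L l347 (L l491 (T t73 (L l11 (T t78 N)))))))) N))))))))))) (K a41 (M a192 (F (T t79 (L l47 (L l65 (L l469 (T t35 (T t73 N)))))))) (K a61 (M a192 (F (T t72 (L l47 (L l65 (L l469 (L l515 (T t35 (T t80 N)))))))))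 (K a22 (M a192 (F (T t72 (L l137 (L l469 (T t21 (T t73 N))))))) (K a42 (M a192 (F (T t79 (T t73 (L l22 (L l137 (T t74 N))))))) (K a62 (M a192 (F (T t72 (L l47 (L l469 (T t35 (L l66 (L l516 (T t80 N))))))))) (K a3 (M a192 (F (T t237 (L l477 (T t79 (L l47 (L l469 (L l475 (T t35 N))))))))) N))))))))))))))))))⟩
def e0_63__95_4 : Ent 4 := ⟨[a0, a63], [a95, a6], (M a85 (F (T t88 (L l137 (L l469 (T t52 (T t89 (T t90 (K a64 (M a252 (F (T t93 (L l93 (T t92 N))))) (K a192 (M a16 (F (T t1924 (L l1 (T t112 (L l296 (T t1925 N))))))) (K a21 (M a48 (F (T t873 (L l47 (L l137 (L l361 (T t100 (L l137 (T t50 N))))))))) (K a149 (M a48 (F (L l220 (T t873 (L l1 (T t132 (L l137 (L l220 (T t50 N))))))))) (K a213 (Fr a170 a255 l476 (Fr a42 a21 l68 (Fr a106 a234 l390 (Fr a192 a149 l519 (V t581))))) (K a42 (M a48 (F (L l469 (T t364 (L l137 (L l390 (T t50 (L l28 (L l137 (L l361 (T t100 N))))))))))) (K a106 (M a48 (F (L l469 (T t364 (L l6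 (T t48 (L l137 (L l390 (T t50 N))))))))) (K a170 (M a48 (F (T t607 (L l137 (L l361 (L l404 (T t100 (L l390 (T t51 (L l361 (L l390 (L l404 (T t568 N))))))))))))) (K a255 (M a15 (F (L l440 (T t723 (L l6 (L l137 (L l266 (L l361 (T t1497 (L l6 (L l266 (L l296 (T t1484 (L l266 (L l296 (T t1926 N)))))))))))))))) N)))))))))))))))))⟩
def e0_63__95_5 : Ent 4 := ⟨[a0, a63], [a95, a7], (M a85 (F (T t88 (L l137 (L l469 (T t52 (T t89 (T t90 (K a64 (M a252 (F (T t93 (L l93 (L l457 (T t92 N)))))) (K a192 (M a16 (F (T t1924 (L l1 (T t112 (L l296 (T t1925 N))))))) (K a21 (M a48 (F (T t873 (L l47 (L l137 (L l361 (T t100 (L l137 (T t50 N))))))))) (K a149 (M a48 (F (L l220 (T t873 (L l1 (T t132 (L l137 (L l220 (T t50 N))))))))) (K a213 (Fr a170 a255 l476 (Fr a42 a21 l68 (Fr a106 a234 l390 (Fr a192 a149 l519 (V t581))))) (K a42 (M a48 (F (L l469 (T t364 (L l137 (L l390 (T t50 (L l28 (L l137 (L l361 (T t100 N))))))))))) (K a106 (M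 a48 (F (T t48 (L l104 (L l361 (T t509 (L l137 (L l390 (T t50 N))))))))) (K a170 (M a48 (F (T t607 (L l137 (L l361 (L l404 (T t100 (L l390 (T t51 (L l361 (L l390 (L l404 (T t568 N))))))))))))) (K a255 (M a15 (F (T t1254 (L l137 (L l266 (L l361 (T t1497 (L l266 (L l296 (L l315 (T t1484 (L l266 (L l296 (T t1926 N)))))))))))))) N)))))))))))))))))⟩
def e0_63__95_6 : Ent 4 := ⟨[a0, a63], [a95, a10], (M a60 (F (T t67 (L l54 (T t43 (L l6 (T t68 (L l54 (T t69 (K a20 (M a48 (F (T t64 (L l54 (L l361 (L l469 (T t0 (L l6 (L l11 (T t235 N)))))))))) (K a40 (M a48 (F (T t42 (L l22 (L l24 (L l54 (L l361 (L l469 (T t0 (L l6 (L l52 (T t235 N)))))))))))) (K a21 (M a192 (F (T t72 (L l347 (T t73 (L l137 (L l347 (T t74 N)))))))) (K a41 (M a192 (F (T t79 (L l65 (L l469 (T t35 (T t73 N))))))) (K a61 (M a192 (F (T t72 (L l65 (L l469 (L l515 (T t35 (L l54 (T t80 N))))))))) (K a22 (M a192 (F (T t72 (L l137 (L l469 (T t21 (T t73 N)))))))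 (K a42 (M a192 (L l54 (F (T t79 (T t73 (L l22 (L l137 (T t74 (K a26 (M a58 (F (T t569 (L l22 (L l57 (T t1342 N)))))) (K a58 (M a26 (F (T t79 (T t73 (L l390 (L l498 (T t78 N))))))) N)))))))))) (K a62 (M a192 (F (T t72 (L l469 (T t35 (L l54 (L l66 (L l516 (T t80 N))))))))) (K a3 (M a192 (F (T t237 (L l477 (T t79 (L l469 (L l475 (T t35 N)))))))) N))))))))))))))))))⟩
def e0_63__95_7 : Ent 4 := ⟨[a0, a63], [a95, a11], (M a85 (F (T t88 (L l137 (L l469 (T t52 (T t89 (T t90 (K a64 (M a252 (F (T t93 (L l93 (T t92 N))))) (K a192 (M a16 (F (T t112 (T t1924 (L l57 (L l296 (L l465 (T t1925 N)))))))) (K a21 (M a48 (F (T t873 (L l47 (L l137 (L l361 (T t100 (L l137 (T t50 N))))))))) (K a149 (M a48 (F (T t132 (L l220 (T t873 (L l137 (L l220 (T t50 N)))))))) (K a213 (Fr a170 a255 l476 (Fr a42 a21 l68 (Fr a106 a234 l390 (Fr a192 a149 l519 (V t581))))) (K a42 (M a48 (F (L l469 (T t364 (L l137 (L l390 (T t50 (L l28 (L l137 (L l361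 (T t100 N))))))))))) (K a106 (M a48 (F (L l469 (T t364 (L l2 (T t48 (L l137 (L l390 (T t50 N))))))))) (K a170 (M a48 (F (T t607 (L l137 (L l361 (L l404 (T t100 (L l390 (T t51 (L l361 (L l390 (L l404 (T t568 N))))))))))))) (K a255 (M a15 (F (L l440 (T t731 (L l2 (L l137 (L l266 (L l361 (T t1497 (L l2 (L l266 (L l296 (T t1484 (L l266 (L l296 (T t1926 N)))))))))))))))) N)))))))))))))))))⟩
def e0_63__95_8 : Ent 4 := ⟨[a0, a63], [a95, a15], (M a255 (F (T t2132 (L l339 (T t2142 (L l339 (T t1165 (L l94 (L l339 (T t2138 (L l94 (L l137 (L l339 (T t2139 (K a192 (M a48 (L l339 (F (T t3576 (L l268 (L l483 (T t1160 (L l236 (L l361 (T t548 (K a133 (M a74 (F (T t4430 (L l236 (L l311 (L l325 (T t1162 (L l236 (L l361 (T t548 N)))))))))) (K a74 (M a133 (F (T t4430 (L l84 (L l236 (L l325 (T t1162 (L l236 (L l318 (L l361 (T t548 N))))))))))) N)))))))))))) (K a21 (M a48 (F (T t3576 (L l483 (T t1160 (L l47 (L l361 (T t548 N))))))))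 (K a85 (M a12 (L l94 (F (T t2128 (L l73 (L l347 (T t122 (L l73 (L l89 (L l91 (L l137 (L l144 (L l347 (L l458 (T t4431 (L l73 (L l365 (T t4432 (K a80 (M a90 (F (T t2128 (L l73 (L l347 (T t122 (L l73 (L l89 (L l91 (L l137 (L l144 (L l347 (L l458 (T t4431 (L l73 (L l365 (T t4432 N))))))))))))))))) (K a90 (M a80 (L l483 (F (T t2061 (L l75 (L l151 (T t4433 (K a240 (M a165 (F (T t2128 (L l73 (L l347 (L l417 (T t122 (L l73 (L l89 (L l91 (L l137 (L l144 (L l347 (L l417 (L l458 (T t4431 (L l73 (L l365 (L l417 (T t4432 N)))))))))))))))))))) (K a165 (Fr a240 a160 l448 (V t4434)) N))))))))) N)))))))))))))))))))) (K a149 (M a48 (F (L l483 (T t1160 (L l94 (L l325 (L l347 (T t547 (L l220 (L l361 (L l491 (T t548 N)))))))))))) (K a42 (M a48 (F (L l483 (T t1169 (L l28 (L l325 (L l361 (L l390 (T t512 (L l28 (L l361 (L l390 (T t548 N))))))))))))) (K a106 (M a48 (F (L l483 (T t1169 (L l325 (L l361 (L l390 (T t512 (L l94 (L l144 (L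 l498 (T t513 N)))))))))))) (K a170 (M a12 (F (T t2575 (L l178 (L l327 (T t2034 (L l73 (L l89 (L l137 (L l402 (T t4431 (L l73 (L l178 (L l220 (L l390 (L l464 (T t4435 N))))))))))))))))) (K a127 (M a4 (L l137 (F (T t129 (L l481 (T t4436 (L l113 (T t4437 (K a79 (M a111 (L l325 (F (T t129 (L l75 (L l114 (L l361 (T t4438 (K a143 (Fr a207 a159 l505 (V t4439)) (K a207 (M a143 (F (T t129 (L l301 (L l481 (T t4436 (L l113 (T t4437 N)))))))) N)))))))))) (K a111 (M a79 (F (T t4440 (L l73 (T t519 (L l113 (T t4437 N))))))) N)))))))))) (K a191 (M a4 (F (T t129 (L l220 (L l481 (T t4436 (L l220 (T t4437 N)))))))) N)))))))))))))))))))))))⟩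
def e0_63__95_9 : Ent 4 := ⟨[a0, a63], [a95, a16], (M a85 (F (T t88 (L l18 (L l137 (L l469 (T t52 (T t89 (T t90 (K a64 (M a252 (F (T t93 (L l93 (T t92 N))))) (K a192 (M a4 (F (T t1604 (L l344 (T t1399 (L l296 (T t131 N))))))) (K a21 (M a204 (L l18 (F (T t1746 (T t1575 (L l137 (T t1691 (K a26 (M a31 (F (T t1746 (L l364 (T t4441 N))))) (K a31 (M a26 (L l361 (F (T t1746 (L l363 (T t1575 (L l363 (L l375 (T t1747 (K a159 (M a223 (F (T t1746 (L l165 (L l363 (T t1575 (L l137 (L l165 (L l363 (T t1691 N)))))))))) (K a223 (M a159 (F (T t1746 (L l137 (T t4442 N))))) N))))))))))) N))))))))) (K a149 (M a4 (F (L l495 (T t519 (L l344 (T t1371 (L l202 (T t1372 N)))))))) (K a213 (Fr a170 a255 l476 (Fr a42 a21 l68 (Fr a106 a234 l390 (Fr a192 a149 l519 (V t581))))) (K a42 (M a12 (F (L l469 (T t573 (L l89 (L l137 (L l390 (T t124 (L l56 (L l137 (T t574 N))))))))))) (K a106 (M a12 (F (L l18 (T t122 (L l132 (L l344 (T t123 (L l89 (L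 l137 (L l390 (T t124 N))))))))))) (K a170 (M a4 (F (L l390 (L l464 (T t519 (L l390 (T t131 (L l137 (L l464 (T t130 (L l464 (T t938 N)))))))))))) (K a255 (M a15 (F (L l18 (L l440 (T t731 (L l266 (T t3676 (L l266 (L l296 (T t4443 (L l266 (L l296 (T t4444 N))))))))))))) N))))))))))))))))))⟩
def e0_63__95_10 : Ent 4 := ⟨[a0, a63], [a95, a17], (M a85 (F (T t88 (L l15 (L l137 (L l469 (T t52 (T t89 (T t90 (K a64 (M a204 (F (T t1575 (T t1576 N)))) (K a192 (M a16 (F (T t112 (T t1924 (L l296 (T t1925 N)))))) (K a21 (M a60 (L l15 (F (T t3042 (L l65 (L l137 (T t523 (L l137 (T t114 (K a25 (M a29 (F (T t3042 (L l18 (L l71 (L l361 (T t2677 N))))))) (K a29 (M a25 (F (T t3042 (L l59 (L l65 (L l137 (T t523 (L l137 (T t114 N))))))))) N))))))))))) (K a149 (M a48 (F (T t132 (L l220 (T t873 (L l137 (L l220 (T t50 N)))))))) (K a213 (Fr a170 a255 l476 (Fr a42 a21 l68 (Fr a106 a234 l390 (Fr a192 a149 l519 (V t581))))) (K a42 (M a48 (F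 (L l10 (L l469 (T t364 (L l137 (L l390 (T t50 (L l28 (L l137 (L l361 (T t100 N)))))))))))) (K a106 (M a48 (F (L l361 (T t1699 (L l15 (L l469 (T t1 (L l390 (L l498 (T t51 N)))))))))) (K a170 (M a48 (F (L l10 (L l15 (T t607 (L l137 (L l361 (L l404 (T t100 (L l390 (T t51 (L l361 (L l390 (L l404 (T t568 N))))))))))))))) (K a255 (M a15 (F (T t1254 (L l137 (L l266 (L l361 (T t1497 (L l266 (L l296 (T t1484 (L l266 (L l296 (T t1926 N))))))))))))) N))))))))))))))))))⟩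
def e0_63__95_11 : Ent 4 := ⟨[a0, a63], [a95, a18], (M a85 (F (T t88 (L l137 (L l469 (T t52 (T t89 (T t90 (K a64 (M a252 (F (T t93 (L l93 (T t92 N))))) (K a192 (M a16 (F (T t112 (T t1924 (L l16 (L l296 (T t1925 N))))))) (K a21 (M a48 (F (T t873 (L l47 (L l137 (L l361 (T t100 (L l137 (T t50 N))))))))) (K a149 (M a48 (F (T t132 (L l220 (T t873 (L l137 (L l220 (T t50 N)))))))) (K a213 (Fr a170 a255 l476 (Fr a42 a21 l68 (Fr a106 a234 l390 (Fr a192 a149 l519 (V t581))))) (K a42 (M a48 (F (L l10 (L l469 (T t364 (L l137 (L l390 (T t50 (L l28 (L l137 (L l361 (T t100 N)))))))))))) (K a106 (M a48 (F (L l469 (T t1 (L l104 (L l361 (T t509 (L l390 (L l498 (T t51 N)))))))))) (K a170 (M a48 (F (L l10 (T t607 (L l137 (L l361 (L l404 (T t100 (L l390 (T t51 (L l361 (L l390 (L l404 (T t568 N)))))))))))))) (K a255 (M a15 (F (T t1254 (L l137 (L l266 (L l361 (T t1497 (L l266 (L l296 (T t1484 (L l266 (L l296 (T t1926 N)))))))))))))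 N)))))))))))))))))⟩
def e0_63__95_12 : Ent 4 := ⟨[a0, a63], [a95, a19], (M a85 (F (T t88 (L l137 (L l469 (T t52 (T t89 (T t90 (K a64 (M a204 (F (T t1575 (T t1576 N)))) (K a192 (M a16 (F (T t112 (T t1924 (L l296 (T t1925 N)))))) (K a21 (M a48 (F (T t873 (L l47 (L l137 (L l361 (L l367 (T t100 (L l137 (T t50 N)))))))))) (K a149 (M a48 (F (T t132 (L l220 (T t873 (L l137 (L l220 (T t50 N)))))))) (K a213 (Fr a170 a255 l476 (Fr a42 a21 l68 (Fr a106 a234 l390 (Fr a192 a149 l519 (V t581))))) (K a42 (M a48 (F (L l10 (L l469 (T t364 (L l137 (L l390 (T t50 (L l28 (L l137 (L l361 (L l367 (T t100 N))))))))))))) (K a106 (M a48 (F (L l469 (T t1 (L l104 (L l361 (L l367 (T t509 (L l390 (L l498 (T t51 N))))))))))) (K a170 (M a48 (F (L l10 (T t607 (L l137 (L l361 (L l367 (L l404 (T t100 (L l390 (T t51 (L l361 (L l367 (L l390 (L l404 (T t568 N)))))))))))))))) (K a255 (M a15 (F (T t1254 (L l17 (L l137 (L l266 (L l361 (T t1497 (L l266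 (L l296 (T t1484 (L l266 (L l296 (L l345 (T t1926 N))))))))))))))) N)))))))))))))))))⟩
def e0_63__95_13 : Ent 4 := ⟨[a0, a63], [a95, a22], (M a85 (F (T t90 (L l66 (T t88 (L l11 (L l137 (L l469 (T t52 (L l66 (T t89 (K a64 (M a16 (F (L l66 (T t112 (L l84 (T t1924 (L l16 (L l66 (L l116 (T t1925 N)))))))))) (K a192 (M a16 (F (T t1924 (L l66 (T t112 (L l16 (L l66 (L l296 (T t1925 N))))))))) (K a21 (M a60 (L l11 (F (T t3042 (L l65 (L l137 (T t523 (L l137 (T t114 (K a20 (M a23 (F (T t2096 (L l137 (T t114 (L l66 (L l346 (T t3617 (L l66 (L l348 (T t3618 N))))))))))) (K a23 (Fr a20 a40 l64 (V t4445)) N))))))))))) (K a149 (M a48 (F (L l220 (T t873 (L l66 (T t132 (L l137 (L l220 (T t50 N))))))))) (K a213 (Fr a170 a255 l476 (Fr a42 a21 l68 (Fr a106 a234 l390 (Fr a192 a149 l519 (V t581))))) (K a42 (M a62 (F (L l22 (T t3620 (L l137 (L l390 (T t1694 (L l22 (L l137 (T t1695 (L l11 (L l390 (T t3621 N))))))))))))) (K a106 (M a48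 (F (L l469 (T t364 (L l11 (T t48 (L l137 (L l390 (T t50 N))))))))) (K a170 (M a48 (F (L l11 (T t607 (L l137 (L l361 (L l404 (T t100 (L l66 (L l390 (T t51 (L l66 (L l361 (L l390 (L l404 (T t568 N)))))))))))))))) (K a255 (M a15 (F (L l66 (T t1254 (L l137 (L l266 (L l361 (T t1497 (L l66 (L l266 (L l296 (T t1484 (L l66 (L l266 (L l296 (T t1926 N)))))))))))))))) N))))))))))))))))))))⟩
def e0_63__95_14 : Ent 4 := ⟨[a0, a63], [a95, a23], (M a12 (F (T t151 (L l11 (T t122 (L l11 (T t152 (L l49 (T t153 (K a4 (M a60 (F (T t423 (L l11 (L l50 (T t68 (L l11 (L l50 (T t2410 N))))))))) (K a8 (M a60 (F (L l11 (T t68 (L l469 (T t398 (L l11 (T t2410 N)))))))) (K a21 (M a192 (L l11 (F (T t836 (L l15 (L l347 (L l351 (T t450 (L l15 (L l347 (L l351 (T t157 (K a20 (M a22 (F (T t156 (L l15 (L l347 (L l351 (T t450 (L l46 (L l50 (T t681 N)))))))))) (K a22 (M a20 (F (T t156 (L l15 (L l65 (L l469 (T t2411 N))))))) N)))))))))))))) (K a25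 (M a192 (F (T t449 (L l15 (L l351 (T t450 (L l137 (L l351 (L l469 (T t21 N)))))))))) (K a29 (M a192 (F (T t449 (L l137 (L l351 (L l371 (L l469 (T t21 (T t160 N))))))))) (K a38 (M a192 (F (T t156 (L l351 (T t450 (L l137 (L l351 (L l469 (T t21 N))))))))) (K a42 (M a192 (F (T t449 (L l351 (T t450 (L l56 (L l351 (T t157 N)))))))) (K a46 (M a192 (F (T t449 (L l137 (L l351 (L l469 (T t21 (L l26 (L l408 (T t160 N)))))))))) (K a51 (M a192 (F (T t1725 (L l351 (L l415 (T t450 (L l137 (L l351 (L l439 (L l469 (T t21 N))))))))))) N))))))))))))))))))⟩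
def e0_63__95_15 : Ent 4 := ⟨[a0, a63], [a95, a26], (M a85 (F (T t90 (L l54 (T t88 (L l18 (L l137 (L l469 (T t52 (L l54 (T t89 (K a64 (M a252 (F (T t93 (L l54 (L l93 (T t92 N)))))) (K a192 (M a4 (F (T t1399 (L l54 (L l489 (T t519 (L l54 (L l296 (T t131 N))))))))) (K a21 (M a48 (L l18 (F (T t873 (L l47 (L l137 (L l361 (T t100 (L l137 (T t50 (K a16 (M a31 (F (L l54 (L l354 (L l469 (T t4446 (L l137 (T t4447 (L l54 (L l340 (T t3226 (L l54 (L l354 (T t3227 N)))))))))))))) (K a31 (Fr a16 a32 l40 (V t4448)) N)))))))))))) (K a149 (M a4 (F (T t1371 (L l54 (L l495 (T t519 (L l54 (L l72 (L l202 (T t1372 N)))))))))) (K a213 (Fr a170 a255 l476 (Fr a42 a21 l68 (Fr a106 a234 l390 (Fr a192 a149 l519 (V t581))))) (K a42 (M a58 (F (L l28 (L l361 (T t3229 (L l137 (L l390 (T t119 (L l28 (L l137 (L l361 (T t120 (L l18 (L l390 (T t3230 N))))))))))))))) (K a106 (M a12 (F (T t1601 (L l18 (T t122 (L l89 (L l137 (L l390 (T t124 N)))))))))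 (K a170 (M a4 (F (L l464 (T t938 (L l54 (L l390 (T t131 (L l54 (L l390 (L l464 (T t519 (L l137 (L l464 (T t130 N)))))))))))))) (K a255 (M a20 (L l469 (F (L l54 (T t1268 (L l137 (L l295 (T t2160 (L l54 (L l295 (L l296 (T t2161 (K a15 (M a175 (L l75 (F (L l54 (T t1268 (L l137 (L l295 (T t2160 (L l54 (L l295 (L l296 (T t2161 (K a48 (M a37 (L l440 (F (L l137 (L l295 (T t2160 (L l7 (L l54 (T t4449 (K a117 (M a186 (F (L l295 (T t4450 (L l7 (L l54 (T t4449 N))))))) (K a186 (M a117 (F (L l54 (T t1268 (L l70 (L l295 (T t4451 N))))))) N))))))))))) (K a37 (M a48 (F (L l21 (L l28 (T t183 (L l137 (L l295 (T t2160 (L l28 (L l47 (L l137 (L l289 (L l361 (T t100 N)))))))))))))) N)))))))))))))) (K a175 (M a15 (F (L l397 (T t4452 (L l54 (L l295 (L l296 (T t2161 N)))))))) N)))))))))))))) N))))))))))))))))))))⟩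
def e0_63__95_16 : Ent 4 := ⟨[a0, a63], [a95, a27], (M a85 (F (T t88 (L l137 (L l469 (T t52 (T t89 (T t90 (K a64 (M a16 (F (T t112 (L l84 (T t1924 (L l12 (L l116 (L l357 (T t1925 N))))))))) (K a192 (M a16 (F (T t112 (T t1924 (L l12 (L l296 (L l357 (T t1925 N)))))))) (K a21 (M a48 (F (T t873 (L l47 (L l137 (L l361 (T t100 (L l137 (T t50 N))))))))) (K a149 (M a48 (F (T t132 (L l220 (T t873 (L l137 (L l220 (T t50 N)))))))) (K a213 (Fr a170 a255 l476 (Fr a42 a21 l68 (Fr a106 a234 l390 (Fr a192 a149 l519 (V t581))))) (K a42 (M a48 (F (L l469 (T t364 (L l137 (L l390 (T t50 (L l28 (L l137 (L l361 (T t100 N))))))))))) (K a106 (M a48 (F (T t48 (L l104 (L l361 (T t509 (L l137 (L l390 (T t50 N))))))))) (K a170 (M a48 (F (T t607 (L l137 (L l361 (L l404 (T t100 (L l390 (T t51 (L l361 (L l390 (L l404 (T t568 N))))))))))))) (K a255 (M a15 (F (T t1783 (L l17 (L l137 (L l266 (L l361 (T t1497 (L l266 (L l296 (T t1484 (L l266 (L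 l296 (T t1926 N)))))))))))))) N)))))))))))))))))⟩
def e0_63__95_17 : Ent 4 := ⟨[a0, a63], [a95, a31], (M a60 (L l361 (F (T t69 (L l18 (T t67 (L l17 (T t43 (L l18 (T t68 (K a20 (M a85 (L l361 (F (T t88 (L l137 (T t114 (T t1344 (K a159 (M a223 (F (T t4453 (T t1344 N)))) (K a223 (M a159 (F (L l246 (T t89 (L l137 (T t4454 N)))))) N))))))))) (K a40 (M a48 (L l361 (F (T t64 (L l18 (L l469 (T t1 (L l18 (L l52 (T t235 (K a159 (M a223 (F (T t70 (L l18 (L l469 (T t1 (L l18 (L l52 (T t235 N))))))))) (K a223 (M a159 (F (T t70 (L l137 (L l289 (L l368 (L l469 (T t4455 N)))))))) N)))))))))))) (K a21 (M a85 (L l18 (L l361 (F (T t3042 (L l65 (L l137 (T t523 (L l137 (T t114 (K a16 (M a26 (L l361 (F (T t3042 (L l65 (L l137 (T t523 (L l137 (T t114 (K a159 (M a223 (F (T t3042 (L l65 (L l137 (T t523 (L l137 (T t114 N)))))))) (K a223 (M a159 (F (T t3040 (L l137 (T t4454 N))))) N))))))))))) (K a26 (M a16 (L l361 (F (T t2431 (L l50 (L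 l54 (L l57 (T t4456 (K a159 (Fr a223 a154 l368 (V t2431)) (K a223 (M a159 (F (T t3040 (L l137 (T t4454 N))))) N)))))))))) (K a159 (M a223 (L l18 (F (T t4453 (L l65 (L l137 (T t523 (K a16 (M a26 (F (T t3042 (L l65 (L l137 (T t523 (L l137 (T t114 N)))))))) (K a26 (Fr a16 a154 l368 (V t2431)) N))))))))) (K a223 (M a159 (L l18 (F (T t3040 (L l137 (T t4454 (K a16 (M a26 (F (T t3040 (L l137 (T t4454 N))))) (K a26 (M a16 (F (T t3040 (L l137 (T t4454 N))))) N)))))))) N)))))))))))))) (K a41 (M a48 (L l361 (F (T t42 (L l22 (L l57 (T t247 (L l18 (L l65 (L l469 (T t1 (K a159 (M a223 (F (T t70 (L l22 (L l94 (T t4457 N)))))) (K a223 (M a159 (F (T t489 (L l137 (T t4458 N))))) N))))))))))))) (K a61 (M a12 (L l361 (F (T t151 (T t409 (L l17 (T t448 (K a159 (M a223 (F (T t153 (L l165 (L l170 (T t4459 N)))))) (K a223 (M a159 (F (T t151 (L l137 (L l289 (L l362 (L l431 (L l469 (T t4460 N))))))))) N))))))))) (K a22 (M a48 (L l361 (F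 (T t64 (L l11 (L l18 (L l469 (T t1 (T t247 (K a159 (M a223 (F (T t451 (L l94 (T t4457 N))))) (K a223 (M a159 (F (T t247 (L l137 (T t4458 N))))) N))))))))))) (K a42 (M a150 (L l361 (F (T t2366 (T t1136 (L l22 (T t1137 (K a159 (M a223 (F (T t1622 (L l18 (L l22 (T t4461 N)))))) (K a223 (M a159 (F (T t2366 (L l137 (T t4454 N))))) N))))))))) (K a62 (M a12 (L l361 (F (T t409 (L l60 (L l66 (T t151 (L l17 (L l60 (L l66 (T t448 (K a159 (M a223 (F (L l66 (T t153 (L l165 (L l170 (L l504 (T t4459 N)))))))) (K a223 (M a159 (F (L l18 (T t152 (L l137 (L l289 (L l362 (L l469 (L l504 (T t4460 N)))))))))) N))))))))))))) (K a3 (M a48 (L l361 (F (T t3235 (L l7 (L l18 (L l469 (T t1 (L l43 (T t64 (K a159 (M a223 (F (T t236 (L l94 (T t4457 N))))) (K a223 (M a159 (F (T t138 (L l137 (L l289 (L l368 (L l469 (L l475 (T t4455 N))))))))) N)))))))))))) (K a159 (M a223 (F (T t69 (L l18 (T t67 (L l17 (T t43 (L l18 (T t68 (K a20 (M a16 (F (T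 t4462 (L l170 (L l213 (L l469 (T t4463 N))))))) (K a40 (M a16 (F (L l24 (T t4462 (L l22 (L l170 (L l213 (L l469 (T t4463 N))))))))) (K a21 (M a16 (F (T t4464 (L l170 (L l469 (T t4465 N)))))) (K a41 (M a16 (F (T t4464 (L l22 (L l170 (L l469 (T t4465 N))))))) (K a61 (M a16 (F (T t2447 (L l170 (L l213 (L l469 (T t4463 N))))))) (K a22 (M a16 (F (T t2447 (L l66 (L l170 (L l213 (L l469 (T t4463 N)))))))) (K a42 (M a16 (F (L l28 (T t4462 (L l22 (L l170 (L l469 (T t4465 N)))))))) (K a62 (M a16 (F (T t2447 (L l66 (L l170 (L l213 (L l469 (T t4463 N)))))))) (K a3 (M a16 (F (T t2447 (L l170 (L l213 (L l469 (L l475 (T t4463 N)))))))) N)))))))))))))))))) (K a223 (M a159 (F (T t69 (L l137 (T t4454 (L l18 (L l137 (T t4466 (K a62 (M a128 (F (T t4467 (L l137 (L l375 (L l469 (T t4468 N))))))) N))))))))) N)))))))))))))))))))))⟩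
def e0_63__95_18 : Ent 4 := ⟨[a0, a63], [a95, a32], (M a85 (F (L l28 (T t88 (L l137 (L l469 (T t52 (L l28 (T t89 (L l404 (T t90 (K a64 (M a252 (F (L l404 (T t93 (L l28 (L l93 (L l400 (T t92 N)))))))) (K a192 (M a4 (F (T t1399 (L l28 (L l489 (T t519 (L l28 (L l296 (T t131 N))))))))) (K a21 (M a12 (F (T t1601 (L l15 (L l137 (T t574 (L l89 (L l137 (L l404 (T t124 N)))))))))) (K a149 (M a4 (F (T t1371 (L l28 (L l495 (T t519 (L l28 (L l202 (T t1372 N))))))))) (K a213 (Fr a170 a255 l476 (Fr a42 a21 l68 (Fr a106 a234 l390 (Fr a192 a149 l519 (V t581))))) (K a42 (M a12 (L l28 (F (L l56 (T t1601 (L l89 (L l137 (L l390 (L l404 (T t124 (L l56 (L l137 (T t574 (K a37 (M a47 (F (L l56 (T t1601 (L l24 (L l361 (T t3908 N))))))) (K a47 (M a37 (F (L l56 (T t123 (L l89 (L l137 (L l390 (L l404 (T t124 (L l56 (L l137 (T t574 N)))))))))))) N))))))))))))))) (K a106 (M a12 (F (T t1601 (L l20 (T t122 (L l89 (L l137 (L l390 (L l404 (T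 t124 N)))))))))) (K a170 (M a101 (F (L l28 (L l390 (T t1811 (L l206 (L l361 (L l376 (T t1812 (L l28 (L l206 (L l390 (T t1813 (L l137 (L l206 (T t1810 N)))))))))))))))) (K a255 (M a15 (F (L l28 (L l440 (T t716 (L l137 (L l266 (L l361 (L l376 (T t1497 (L l266 (T t3676 (L l28 (L l266 (L l296 (T t4443 N)))))))))))))))) N))))))))))))))))))))⟩
def e0_63__95_19 : Ent 4 := ⟨[a0, a63], [a95, a33], (M a85 (F (T t88 (L l137 (L l469 (T t52 (T t89 (T t90 (K a64 (M a252 (F (T t93 (L l93 (T t92 N))))) (K a192 (M a16 (F (L l20 (T t1924 (L l296 (T t1925 (L l20 (T t112 N)))))))) (K a21 (M a48 (F (T t873 (L l20 (L l47 (L l137 (L l361 (T t100 (L l137 (T t50 N)))))))))) (K a149 (M a48 (F (L l469 (T t364 (L l20 (T t132 (L l137 (L l220 (T t50 N))))))))) (K a213 (Fr a170 a255 l476 (Fr a42 a21 l68 (Fr a106 a234 l390 (Fr a192 a149 l519 (V t581))))) (K a42 (M a48 (F (L l469 (T t364 (L l137 (L l390 (T t50 (L l20 (L l28 (L l137 (L l361 (T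 t100 N)))))))))))) (K a106 (M a48 (F (T t48 (L l20 (L l104 (L l361 (L l401 (T t509 (L l137 (L l390 (T t50 N))))))))))) (K a170 (M a48 (F (T t607 (L l20 (L l137 (L l361 (L l404 (T t100 (L l390 (T t51 (L l20 (L l361 (L l390 (L l404 (T t568 N))))))))))))))) (K a255 (M a15 (F (T t1254 (L l137 (L l266 (L l361 (T t1497 (L l266 (L l296 (T t1484 (L l266 (L l296 (T t1926 N))))))))))))) N)))))))))))))))))⟩
def e0_63__95_20 : Ent 4 := ⟨[a0, a63], [a95, a34], (M a85 (F (L l26 (T t88 (L l137 (L l469 (T t52 (L l26 (T t89 (L l402 (T t90 (K a64 (M a16 (F (L l26 (L l361 (T t4469 (L l20 (L l84 (L l402 (T t1924 (L l20 (L l26 (T t112 N)))))))))))) (K a192 (M a16 (F (L l20 (L l402 (T t1924 (L l26 (L l296 (T t1925 (L l20 (L l26 (T t112 N))))))))))) (K a21 (M a48 (F (L l402 (T t873 (L l20 (L l47 (L l137 (L l361 (T t100 (L l137 (L l402 (T t50 N)))))))))))) (K a149 (M a48 (F (L l469 (T t364 (L l20 (L l26 (T t132 (L l137 (L l220 (L l402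 (T t50 N))))))))))) (K a213 (Fr a170 a255 l476 (Fr a42 a21 l68 (Fr a106 a234 l390 (Fr a192 a149 l519 (V t581))))) (K a42 (M a46 (F (L l56 (T t1388 (L l89 (L l137 (L l390 (L l402 (T t1389 (L l56 (L l137 (L l378 (T t1390 (L l378 (L l390 (L l402 (T t1391 N))))))))))))))))) (K a106 (M a48 (F (T t48 (L l20 (L l104 (L l361 (T t509 (L l137 (L l390 (L l402 (T t50 N))))))))))) (K a170 (M a102 (F (L l208 (T t1392 (L l26 (L l390 (T t1393 (L l208 (L l378 (T t1394 (L l26 (L l208 (L l390 (T t1395 N)))))))))))))) (K a255 (M a15 (F (L l440 (T t731 (L l137 (L l266 (L l361 (T t1497 (L l26 (L l266 (L l296 (T t1484 (L l26 (L l266 (L l296 (T t1926 N)))))))))))))))) N))))))))))))))))))))⟩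
def e0_63__95_21 : Ent 4 := ⟨[a0, a63], [a95, a35], (M a85 (F (T t88 (L l137 (L l469 (T t52 (T t89 (T t90 (K a64 (M a252 (F (T t93 (L l93 (T t92 N))))) (K a192 (M a16 (F (L l20 (T t1924 (L l296 (T t1925 (L l20 (T t112 N)))))))) (K a21 (M a48 (F (T t873 (L l20 (L l47 (L l137 (L l361 (T t100 (L l137 (T t50 N)))))))))) (K a149 (M a48 (F (L l220 (T t873 (L l20 (T t132 (L l137 (L l220 (T t50 N))))))))) (K a213 (Fr a170 a255 l476 (Fr a42 a21 l68 (Fr a106 a234 l390 (Fr a192 a149 l519 (V t581))))) (K a42 (M a48 (F (L l403 (L l469 (T t364 (L l137 (L l390 (T t50 (L l20 (L l28 (L l137 (L l361 (T t100 N))))))))))))) (K a106 (M a48 (F (T t48 (L l20 (L l104 (L l361 (T t509 (L l137 (L l390 (T t50 N)))))))))) (K a170 (M a48 (F (L l462 (T t48 (L l20 (L l137 (L l361 (L l404 (T t100 (L l390 (T t51 (L l20 (L l361 (L l390 (L l404 (T t568 N)))))))))))))))) (K a255 (M a15 (F (L l440 (T t731 (L l137 (L l266 (L l361 (L l381 (T t1497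 (L l266 (L l296 (T t1484 (L l27 (L l266 (L l296 (T t1926 N)))))))))))))))) N)))))))))))))))))⟩
def e0_63__95_22 : Ent 4 := ⟨[a0, a63], [a95, a37], (M a192 (F (L l469 (T t202 (L l47 (L l137 (T t47 (L l137 (L l469 (T t21 (L l47 (L l469 (T t35 (L l28 (L l469 (T t37 (K a64 (M a12 (F (T t450 (L l47 (T t122 (L l28 (L l80 (L l144 (T t160 N))))))))) (K a128 (M a12 (F (T t221 (L l47 (T t122 (L l28 (T t160 N))))))) (K a21 (M a5 (F (T t1815 (L l28 (L l94 (L l137 (L l347 (T t4470 (L l28 (T t1817 N)))))))))) (K a85 (M a4 (L l94 (F (T t1407 (L l28 (T t519 (L l21 (L l28 (L l126 (L l144 (T t4217 (K a80 (M a90 (F (T t1407 (L l347 (L l361 (T t4471 N)))))) (K a90 (M a80 (F (L l28 (T t519 (L l75 (L l151 (T t4472 N))))))) N))))))))))))) (K a149 (M a12 (F (T t836 (L l47 (L l347 (L l371 (T t122 (L l47 (L l202 (L l220 (L l347 (L l371 (T t227 (L l28 (L l495 (T t228 N)))))))))))))))) (K a42 (M a32 (F (T t218 (L l47 (L l390 (L l469 (T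 t4473 (L l47 (T t1819 N))))))))) (K a106 (M a12 (F (T t156 (L l47 (T t122 (L l47 (L l501 (T t227 (L l28 (L l132 (L l144 (L l390 (L l408 (T t228 N)))))))))))))) (K a170 (M a48 (F (T t19 (L l390 (T t206 (L l28 (L l47 (L l220 (L l361 (L l404 (T t29 N))))))))))) (K a255 (M a15 (F (T t4413 (L l266 (T t2796 (L l28 (L l47 (L l266 (T t2798 N))))))))) N)))))))))))))))))))))))))⟩
def e0_63__95_23 : Ent 4 := ⟨[a0, a63], [a95, a38], (M a85 (F (T t90 (L l26 (T t88 (L l50 (L l137 (L l469 (T t52 (L l26 (T t89 (K a64 (M a252 (F (T t93 (L l26 (L l93 (T t92 N)))))) (K a192 (M a16 (F (T t1924 (L l26 (T t112 (L l26 (L l72 (L l296 (T t1925 N))))))))) (K a21 (M a48 (L l50 (F (T t873 (L l47 (L l137 (L l361 (T t100 (L l137 (T t50 (K a4 (M a55 (F (L l46 (T t1743 (L l361 (T t261 N)))))) (K a55 (M a4 (F (T t873 (L l15 (L l137 (L l421 (T t130 N))))))) N)))))))))))) (K a149 (M a48 (F (L l220 (T t873 (L l26 (T t132 (L l137 (L l220 (T t50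 N))))))))) (K a213 (Fr a170 a255 l476 (Fr a42 a21 l68 (Fr a106 a234 l390 (Fr a192 a149 l519 (V t581))))) (K a42 (M a46 (F (L l56 (T t1388 (L l89 (L l137 (L l390 (T t1389 (L l56 (L l137 (T t1390 (L l50 (L l390 (T t3913 N)))))))))))))) (K a106 (M a48 (F (L l469 (T t364 (L l50 (T t48 (L l137 (L l390 (T t50 N))))))))) (K a170 (M a48 (F (L l50 (T t607 (L l137 (L l361 (L l404 (T t100 (L l26 (L l390 (T t51 (L l26 (L l361 (L l390 (L l404 (T t568 N)))))))))))))))) (K a255 (M a15 (F (L l26 (T t1254 (L l137 (L l266 (L l361 (T t1497 (L l26 (L l266 (L l296 (T t1484 (L l26 (L l266 (L l296 (T t1926 N)))))))))))))))) N))))))))))))))))))))⟩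
def e0_63__95_24 : Ent 4 := ⟨[a0, a63], [a95, a39], (M a85 (F (T t88 (L l137 (L l469 (T t52 (T t89 (T t90 (K a64 (M a16 (F (T t112 (L l84 (T t1924 (L l116 (T t1925 N))))))) (K a192 (M a16 (F (T t1924 (T t112 (L l296 (T t1925 N)))))) (K a21 (M a48 (F (T t873 (L l47 (L l137 (L l361 (T t100 (L l137 (T t50 N))))))))) (K a149 (M a48 (F (T t132 (L l220 (T t873 (L l137 (L l220 (T t50 N)))))))) (K a213 (Fr a170 a255 l476 (Fr a42 a21 l68 (Fr a106 a234 l390 (Fr a192 a149 l519 (V t581))))) (K a42 (M a48 (F (L l469 (T t364 (L l137 (L l390 (T t50 (L l28 (L l137 (L l361 (T t100 N))))))))))) (K a106 (M a48 (F (T t48 (L l104 (L l361 (T t509 (L l137 (L l390 (T t50 N))))))))) (K a170 (M a48 (F (L l462 (T t48 (L l137 (L l361 (L l404 (T t100 (L l390 (T t51 (L l361 (L l390 (L l404 (T t568 N)))))))))))))) (K a255 (M a15 (F (L l440 (T t731 (L l137 (L l266 (L l361 (T t1497 (L l266 (L l296 (T t1484 (L l27 (L l266 (L l296 (T t1926 N)))))))))))))))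 N)))))))))))))))))⟩
def e0_63__95_25 : Ent 4 := ⟨[a0, a63], [a95, a43], (M a149 (F (T t175 (L l22 (T t5 (L l22 (L l469 (T t176 (L l393 (L l469 (T t177 (K a192 (M a53 (F (L l22 (T t178 (L l236 (T t179 (L l22 (L l236 (L l296 (T t180 N)))))))))) (K a21 (M a48 (F (T t4 (L l393 (T t13 (L l18 (T t14 N))))))) (K a85 (M a4 (L l94 (F (L l22 (T t519 (L l144 (L l393 (T t653 (L l22 (L l126 (T t654 (K a80 (M a90 (F (L l22 (T t519 (L l27 (L l340 (L l455 (T t2784 N)))))))) (K a90 (M a80 (F (L l22 (T t519 (L l130 (L l144 (L l151 (L l368 (L l393 (T t4474 N)))))))))) N))))))))))))) (K a213 (Fr a106 a192 l519 (Fr a42 a21 l68 (Fr a170 a234 l390 (Fr a255 a85 l476 (V t582))))) (K a42 (M a40 (F (T t973 (L l390 (L l393 (T t974 (L l66 (L l391 (T t969 (L l390 (L l391 (L l393 (L l469 (T t972 N)))))))))))))) (K a106 (M a169 (F (L l22 (L l142 (L l390 (T t976 (L l22 (L l390 (T t977 (L l142 (L l391 (T t978 (L l22 (L l142 (L l390 (L l469 (T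 t979 (L l93 (L l142 (T t981 N)))))))))))))))))))) (K a170 (M a48 (F (T t4 (L l462 (L l469 (T t1 (L l390 (L l393 (T t13 N))))))))) (K a191 (M a16 (F (T t2682 (L l22 (L l94 (L l361 (T t4475 (L l393 (T t190 N))))))))) (K a255 (M a15 (F (L l440 (T t731 (L l27 (T t4350 (L l137 (L l289 (L l393 (T t4157 N)))))))))) N))))))))))))))))))))⟩
def e0_63__95_26 : Ent 4 := ⟨[a0, a63], [a95, a47], (M a60 (F (T t68 (L l27 (T t67 (L l28 (T t43 (L l28 (T t69 (K a20 (M a48 (F (T t64 (L l28 (L l469 (T t2 (L l28 (L l46 (T t287 N))))))))) (K a40 (M a48 (F (T t64 (L l22 (L l28 (L l469 (T t2 (L l22 (L l28 (T t287 N)))))))))) (K a21 (M a192 (F (T t72 (L l347 (L l409 (T t73 (L l137 (L l347 (T t74 N))))))))) (K a41 (M a192 (F (T t79 (L l65 (L l469 (T t35 (L l409 (T t73 N)))))))) (K a61 (M a192 (F (T t72 (L l65 (L l469 (L l515 (T t35 (L l28 (L l411 (T t80 N)))))))))) (K a22 (M a192 (F (T t72 (L l137 (L l469 (T t21 (L l409 (T t73 N))))))))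 (K a42 (M a48 (L l28 (F (T t64 (L l22 (T t247 (L l23 (L l56 (T t288 (L l22 (L l54 (L l66 (T t289 (K a32 (M a37 (F (L l54 (T t290 (L l66 (L l469 (T t291 (T t64 N)))))))) (K a37 (Fr a32 a16 l40 (V t292)) N))))))))))))))) (K a62 (M a192 (F (T t72 (L l469 (T t35 (L l28 (L l66 (L l411 (L l516 (T t80 N)))))))))) (K a3 (M a192 (F (T t237 (L l477 (T t79 (L l469 (L l475 (T t35 N)))))))) N))))))))))))))))))⟩
def e0_63__95_27 : Ent 4 := ⟨[a0, a63], [a95, a48], (M a60 (F (T t116 (L l45 (T t67 (L l45 (T t43 (L l45 (T t68 (L l45 (T t69 (K a20 (M a12 (F (T t570 (L l11 (L l30 (T t122 (L l11 (L l46 (T t399 N))))))))) (K a40 (M a12 (F (T t1413 (L l30 (T t122 (L l24 (T t399 N))))))) (K a21 (M a192 (F (T t2647 (L l347 (L l488 (T t73 (L l137 (L l347 (T t74 N))))))))) (K a41 (M a192 (F (T t254 (L l65 (L l440 (L l469 (T t35 (L l488 (T t73 N))))))))) (K a61 (M a192 (F (T t1800 (L l436 (T t79 (T t80 N)))))) (K a22 (M a192 (F (T t614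 (L l11 (L l436 (T t79 (L l11 (L l440 (L l469 (T t35 N)))))))))) (K a42 (M a192 (F (T t614 (L l436 (T t79 (L l22 (L l137 (T t74 N)))))))) (K a62 (M a192 (F (T t57 (L l436 (T t79 (L l66 (L l516 (T t80 N)))))))) (K a3 (M a84 (L l45 (F (T t2648 (T t1415 (L l440 (L l469 (L l475 (L l477 (T t1416 (K a33 (M a18 (F (T t1414 (L l70 (L l361 (T t1417 N)))))) (K a18 (M a33 (F (T t1414 (L l70 (T t1418 N))))) N)))))))))))) N))))))))))))))))))))⟩
def e0_63__95_28 : Ent 4 := ⟨[a0, a63], [a95, a49], (M a85 (F (T t88 (L l137 (L l469 (T t52 (T t89 (T t90 (K a64 (M a204 (F (T t1575 (T t1576 N)))) (K a192 (M a16 (F (T t112 (T t1924 (L l296 (T t1925 N)))))) (K a21 (M a48 (F (T t873 (L l35 (L l47 (L l137 (L l361 (T t100 (L l137 (L l437 (T t50 N))))))))))) (K a149 (M a48 (F (T t132 (L l220 (T t873 (L l137 (L l220 (L l437 (T t50 N))))))))) (K a213 (Fr a170 a255 l476 (Fr a42 a21 l68 (Fr a106 a234 l390 (Fr a192 a149 l519 (V t581))))) (K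 a42 (M a48 (F (L l469 (T t365 (L l137 (L l390 (L l437 (T t50 (L l28 (L l35 (L l137 (L l361 (T t100 N))))))))))))) (K a106 (M a48 (F (L l361 (T t1699 (L l35 (L l469 (T t1 (L l390 (L l437 (L l498 (T t51 N))))))))))) (K a170 (M a48 (F (L l469 (T t3 (L l35 (L l137 (L l361 (L l404 (T t100 (L l390 (L l437 (T t51 (L l361 (L l390 (L l404 (T t568 N)))))))))))))))) (K a255 (M a15 (F (T t1783 (L l137 (L l266 (L l361 (T t1497 (L l266 (L l296 (T t1484 (L l266 (L l296 (T t1926 N))))))))))))) N)))))))))))))))))⟩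
def e0_63__95_29 : Ent 4 := ⟨[a0, a63], [a95, a50], (M a85 (F (T t88 (L l137 (L l469 (T t52 (T t89 (T t90 (K a64 (M a16 (F (L l36 (T t112 (L l84 (L l438 (T t1924 (L l72 (L l116 (T t1925 N)))))))))) (K a192 (M a16 (F (L l36 (T t112 (L l438 (T t1924 (L l72 (L l296 (T t1925 N))))))))) (K a21 (M a48 (F (L l361 (T t1699 (L l137 (T t50 (L l47 (L l137 (L l361 (T t100 N)))))))))) (K a149 (M a48 (F (L l469 (T t364 (L l36 (T t132 (L l137 (L l220 (T t50 N))))))))) (K a213 (Fr a170 a255 l476 (Fr a42 a21 l68 (Fr a106 a234 l390 (Fr a192 a149 l519 (V t581))))) (K a42 (M a48 (F (L l469 (T t364 (L l137 (L l390 (T t50 (L l28 (L l137 (L l361 (T t100 N))))))))))) (K a106 (M a48 (F (T t48 (L l104 (L l361 (T t509 (L l137 (L l390 (T t50 N))))))))) (K a170 (M a48 (F (T t607 (L l137 (L l361 (L l404 (T t100 (L l36 (L l390 (T t51 (L l361 (L l390 (L l404 (T t568 N)))))))))))))) (K a255 (M a15 (F (T t1254 (L l137 (L l266 (L l361 (T t1497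 (L l266 (L l296 (T t1484 (L l266 (L l296 (T t1926 N))))))))))))) N)))))))))))))))))⟩
def e0_63__95_30 : Ent 4 := ⟨[a0, a63], [a95, a51], (M a60 (F (T t116 (L l43 (T t67 (L l43 (T t43 (L l43 (T t68 (L l43 (T t69 (K a20 (M a85 (F (T t89 (L l137 (L l441 (T t114 (T t1344 N))))))) (K a40 (M a85 (F (L l22 (T t89 (L l137 (L l392 (L l441 (T t114 (L l22 (T t1344 N)))))))))) (K a21 (M a192 (F (T t2647 (L l347 (L l487 (T t73 (L l137 (L l347 (T t74 N))))))))) (K a41 (M a192 (F (T t254 (L l65 (L l439 (L l469 (T t35 (L l487 (T t73 N))))))))) (K a61 (M a192 (F (T t1800 (L l441 (T t79 (T t80 N)))))) (K a22 (M a192 (F (T t614 (L l11 (L l441 (T t79 (L l11 (L l439 (L l469 (T t35 N)))))))))) (K a42 (M a192 (F (T t614 (L l441 (T t79 (L l22 (L l137 (T t74 N)))))))) (K a62 (M a192 (F (T t57 (L l441 (T t79 (L l66 (L l516 (T t80 N)))))))) (K a3 (M a106 (L l43 (F (T t2792 (T t1513 (K a19 (M a35 (F (T t2359 (L l309 (L l489 (T t4429 (T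 t2369 N))))))) (K a35 (M a19 (F (T t2359 (L l309 (L l489 (T t4429 (T t2369 N))))))) N))))))) N))))))))))))))))))))⟩
def e0_63__95_31 : Ent 4 := ⟨[a0, a63], [a95, a53], (M a12 (F (T t151 (L l47 (T t122 (L l47 (T t152 (L l31 (T t153 (K a4 (M a60 (F (T t43 (L l35 (L l469 (T t398 (T t448 N))))))) (K a8 (M a60 (F (T t570 (L l47 (T t67 (L l52 (L l56 (T t448 N)))))))) (K a21 (M a192 (L l47 (F (T t836 (L l15 (L l347 (L l491 (T t450 (L l15 (L l347 (L l491 (T t157 (K a5 (M a37 (F (T t156 (L l15 (L l347 (L l491 (T t450 (L l1 (L l50 (T t681 N)))))))))) (K a37 (M a5 (F (T t156 (L l347 (L l491 (T t4476 N)))))) N)))))))))))))) (K a25 (M a192 (F (T t449 (L l15 (L l491 (T t450 (L l137 (L l469 (L l491 (T t21 N)))))))))) (K a29 (M a192 (F (T t449 (L l137 (L l371 (L l469 (L l491 (T t21 (T t160 N))))))))) (K a38 (M a192 (F (T t156 (L l491 (T t450 (L l137 (L l469 (L l491 (T t21 N))))))))) (K a42 (M a192 (F (T t449 (L l491 (T t450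 (L l56 (L l491 (T t157 N)))))))) (K a46 (M a192 (F (T t449 (L l137 (L l469 (L l491 (T t21 (L l26 (L l408 (T t160 N)))))))))) (K a51 (M a192 (F (T t1725 (L l415 (L l491 (T t450 (L l137 (L l439 (L l469 (L l491 (T t21 N))))))))))) N))))))))))))))))))⟩
def e0_63__95_32 : Ent 4 := ⟨[a0, a63], [a95, a54], (M a85 (F (T t88 (L l137 (L l469 (T t52 (T t89 (T t90 (K a64 (M a16 (F (L l36 (T t112 (L l84 (T t1924 (L l116 (T t1925 N)))))))) (K a192 (M a16 (F (T t1924 (L l36 (T t112 (L l296 (T t1925 N))))))) (K a21 (M a48 (F (T t873 (L l31 (L l47 (L l137 (L l361 (T t100 (L l137 (T t50 N)))))))))) (K a149 (M a48 (F (L l220 (T t873 (L l36 (T t132 (L l137 (L l220 (T t50 N))))))))) (K a213 (Fr a170 a255 l476 (Fr a42 a21 l68 (Fr a106 a234 l390 (Fr a192 a149 l519 (V t581))))) (K a42 (M a48 (F (L l469 (T t364 (L l137 (L l390 (T t50 (L l28 (L l31 (L l137 (L l361 (T t100 N)))))))))))) (K a106 (M a48 (F (L l469 (T t364 (L l31 (T t48 (L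 l137 (L l390 (T t50 N))))))))) (K a170 (M a48 (F (L l469 (T t3 (L l31 (L l137 (L l361 (L l404 (T t100 (L l36 (L l390 (T t51 (L l361 (L l390 (L l404 (T t568 N)))))))))))))))) (K a255 (M a15 (F (T t1783 (L l137 (L l266 (L l361 (T t1497 (L l266 (L l296 (T t1484 (L l266 (L l296 (T t1926 N))))))))))))) N)))))))))))))))))⟩
def e0_63__95_33 : Ent 4 := ⟨[a0, a63], [a95, a55], (M a60 (F (T t69 (L l50 (T t67 (L l49 (T t43 (L l50 (T t68 (K a20 (M a48 (F (L l31 (T t64 (L l469 (T t2 (L l11 (L l49 (L l50 (T t235 N)))))))))) (K a40 (M a48 (F (L l31 (T t64 (L l22 (L l469 (T t2 (L l49 (L l50 (L l52 (T t235 N))))))))))) (K a21 (M a12 (L l50 (F (L l31 (T t409 (L l15 (L l65 (L l469 (T t398 (L l11 (L l15 (L l65 (L l469 (T t1665 (L l18 (L l31 (T t2437 (K a4 (M a38 (F (L l15 (T t1669 (L l11 (T t2438 (L l469 (T t680 N)))))))) (K a38 (Fr a4 a8 l4 (V t1671)) N))))))))))))))))))) (K a41 (M a192 (F (T t77 (L l50 (L l65 (L l469 (L l495 (T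 t35 (L l495 (T t73 N)))))))))) (K a61 (M a192 (F (T t72 (L l50 (L l65 (L l469 (L l495 (L l515 (T t35 (L l493 (T t80 N))))))))))) (K a22 (M a192 (F (T t72 (L l137 (L l469 (L l495 (T t21 (L l495 (T t73 N))))))))) (K a42 (M a192 (F (T t77 (L l495 (T t73 (L l22 (L l137 (L l495 (T t74 N))))))))) (K a62 (M a192 (F (T t72 (L l50 (L l469 (L l495 (T t35 (L l66 (L l493 (L l516 (T t80 N))))))))))) (K a3 (M a192 (F (T t1681 (L l477 (T t79 (L l307 (L l495 (T t73 N)))))))) N))))))))))))))))))⟩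
def e0_63__95_34 : Ent 4 := ⟨[a0, a63], [a95, a58], (M a12 (F (T t122 (L l54 (T t151 (L l32 (T t152 (L l54 (T t153 (K a4 (M a60 (F (T t1413 (L l46 (L l50 (T t67 (L l54 (T t448 N)))))))) (K a8 (M a60 (F (T t68 (L l469 (T t398 (L l52 (L l54 (L l56 (T t448 N))))))))) (K a21 (M a192 (F (T t836 (L l15 (L l347 (T t450 (L l15 (L l347 (T t157 N))))))))) (K a25 (M a192 (F (T t449 (L l15 (T t450 (L l137 (L l469 (T t21 N)))))))) (K a29 (M a192 (F (T t449 (L l137 (L l371 (L l469 (T t21 (L l54 (L l498 (T t160 N)))))))))) (K a38 (M a192 (F (T t836 (T t450 (L l137 (L l469 (T t21 N))))))) (K a42 (M a192 (L l54 (F (T t449 (T t450 (L l56 (T t157 (K a10 (M a26 (F (T t156 (T t450 (L l390 (L l498 (T t681 N))))))) (K a26 (M a10 (F (T t156 (L l28 (L l390 (L l498 (T t1444 N))))))) N))))))))) (K a46 (M a192 (F (T t449 (L l137 (L l469 (T t21 (L l26 (L l54 (L l408 (L l498 (T t160 N))))))))))) (K a51 (M a192 (F (T t57 (L l513 (T t156 (L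 l415 (T t450 N))))))) N))))))))))))))))))⟩
def e0_63__95_35 : Ent 4 := ⟨[a0, a63], [a95, a59], (M a149 (F (T t175 (L l56 (T t5 (L l56 (L l469 (T t176 (L l469 (L l501 (T t177 (K a192 (M a53 (F (L l32 (L l56 (T t178 (L l32 (L l236 (T t179 (L l56 (L l236 (L l296 (T t180 N)))))))))))) (K a21 (M a48 (F (L l32 (T t4 (L l501 (T t13 (L l18 (L l32 (T t14 N))))))))) (K a85 (M a20 (L l94 (F (L l56 (T t238 (L l144 (L l501 (T t1269 (L l56 (L l87 (T t1270 (K a80 (M a90 (F (T t4477 (L l56 (L l340 (T t1074 N)))))) (K a90 (M a80 (F (L l56 (T t238 (L l130 (L l144 (L l151 (L l368 (L l501 (T t4474 N)))))))))) N))))))))))))) (K a213 (Fr a106 a192 l519 (Fr a42 a21 l68 (Fr a170 a234 l390 (Fr a255 a85 l476 (V t582))))) (K a42 (M a8 (F (T t1841 (L l390 (L l501 (T t644 (L l26 (L l427 (T t643 (L l390 (L l427 (L l469 (L l501 (T t1842 N)))))))))))))) (K a106 (M a153 (F (L l102 (T t1843 (L l56 (L l390 (T t1844 (L l102 (L l427 (T t1845 (L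 l56 (L l102 (L l390 (L l469 (T t1846 N))))))))))))))) (K a170 (M a48 (F (T t11 (L l462 (L l469 (T t1 (L l390 (L l501 (T t13 N))))))))) (K a191 (M a240 (F (L l501 (T t1091 (L l56 (L l429 (T t963 N))))))) (K a255 (M a15 (F (T t4350 (L l56 (L l440 (T t716 (L l137 (L l289 (L l501 (T t4157 N)))))))))) N))))))))))))))))))))⟩
def e0_63__95_36 : Ent 4 := ⟨[a0, a63], [a95, a64], (M a12 (F (T t122 (T t151 (T t152 (T t153 (K a4 (M a60 (F (T t43 (L l469 (T t398 (T t448 N)))))) (K a8 (M a60 (F (T t67 (L l469 (T t398 (L l52 (L l56 (T t448 N)))))))) (K a21 (M a89 (F (T t2755 (L l80 (T t870 (L l50 (T t864 N))))))) (K a25 (M a48 (F (T t550 (L l15 (L l469 (T t1 (L l12 (L l56 (T t866 N))))))))) (K a29 (M a48 (F (T t550 (L l15 (L l469 (T t1 (T t866 N))))))) (K a38 (M a48 (F (T t1580 (L l26 (L l469 (T t2 (L l21 (L l50 (T t868 N))))))))) (K a42 (M a89 (F (T t3370 (T t863 (L l26 (T t864 N)))))) (K a46 (M a48 (F (T t443 (L l469 (T t1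 (L l26 (T t866 N))))))) (K a51 (M a16 (F (T t112 (L l39 (T t871 (T t872 N)))))) N)))))))))))))))⟩
def e0_63__95_37 : Ent 4 := ⟨[a0, a63], [a95, a65], (M a12 (F (T t122 (T t151 (T t152 (T t153 (K a4 (M a60 (F (T t43 (L l469 (T t398 (T t448 N)))))) (K a8 (M a60 (F (T t67 (L l469 (T t398 (L l52 (L l56 (T t448 N)))))))) (K a21 (M a192 (F (T t468 (L l15 (L l347 (T t450 (L l15 (L l347 (T t157 N))))))))) (K a25 (M a192 (F (T t449 (L l15 (T t450 (L l137 (L l469 (T t21 N)))))))) (K a29 (M a192 (F (T t449 (L l137 (L l371 (L l469 (T t21 (T t160 N)))))))) (K a38 (M a192 (F (T t468 (T t450 (L l137 (L l469 (T t21 N))))))) (K a42 (M a192 (F (T t449 (T t450 (L l56 (T t157 N)))))) (K a46 (M a192 (F (T t449 (L l137 (L l469 (T t21 (L l26 (L l408 (T t160 N))))))))) (K a51 (M a192 (F (T t57 (L l513 (T t156 (L l415 (T t450 N))))))) N)))))))))))))))⟩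
def e0_63__95_38 : Ent 4 := ⟨[a0, a63], [a95, a66], (M a12 (F (T t122 (T t151 (T t152 (T t153 (K a4 (M a60 (F (T t570 (L l46 (L l50 (L l309 (T t67 (T t448 N)))))))) (K a8 (M a60 (F (T t570 (L l309 (T t67 (L l52 (L l56 (T t448 N)))))))) (K a21 (M a192 (F (T t468 (L l15 (L l347 (T t450 (L l15 (L l347 (T t157 N))))))))) (K a25 (M a192 (F (T t449 (L l15 (T t450 (L l137 (L l469 (T t21 N)))))))) (K a29 (M a192 (F (T t449 (L l137 (L l371 (L l469 (T t21 (L l142 (T t160 N))))))))) (K a38 (M a192 (F (T t468 (T t450 (L l137 (L l469 (T t21 N))))))) (K a42 (M a192 (F (T t449 (T t450 (L l56 (T t157 N)))))) (K a46 (M a192 (F (T t449 (L l137 (L l469 (T t21 (L l26 (L l142 (L l408 (T t160 N)))))))))) (K a51 (M a192 (F (T t57 (L l513 (T t156 (L l415 (T t450 N))))))) N)))))))))))))))⟩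
def e0_63__95_39 : Ent 4 := ⟨[a0, a63], [a95, a67], (M a12 (F (T t122 (T t151 (T t152 (T t153 (K a4 (M a60 (F (T t570 (L l46 (L l50 (L l307 (T t67 (T t448 N)))))))) (K a8 (M a60 (F (T t570 (L l307 (T t67 (L l52 (L l56 (T t448 N)))))))) (K a21 (M a192 (F (T t468 (L l15 (L l347 (T t450 (L l15 (L l347 (T t157 N))))))))) (K a25 (M a192 (F (T t449 (L l15 (T t450 (L l137 (L l143 (L l469 (T t21 N))))))))) (K a29 (M a192 (F (T t449 (L l137 (L l143 (L l371 (L l469 (T t21 (T t160 N))))))))) (K a38 (M a192 (F (T t468 (T t450 (L l137 (L l143 (L l469 (T t21 N)))))))) (K a42 (M a192 (F (T t449 (T t450 (L l56 (T t157 N)))))) (K a46 (M a192 (F (T t449 (L l137 (L l143 (L l469 (T t21 (L l26 (L l408 (T t160 N)))))))))) (K a51 (M a192 (F (T t57 (L l85 (L l513 (T t156 (L l415 (T t450 N)))))))) N)))))))))))))))⟩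
def e0_63__95_40 : Ent 4 := ⟨[a0, a63], [a95, a69], (M a60 (F (T t67 (T t43 (T t68 (L l329 (T t69 (K a20 (M a48 (F (T t64 (L l11 (L l469 (T t1 (L l11 (T t235 N)))))))) (K a40 (M a48 (F (T t64 (L l469 (T t1 (L l52 (T t235 N))))))) (K a21 (M a192 (F (T t72 (L l347 (T t73 (L l137 (L l347 (T t74 N)))))))) (K a41 (M a192 (F (T t77 (L l65 (L l469 (T t35 (T t73 N))))))) (K a61 (M a192 (F (T t72 (L l65 (L l469 (L l515 (T t35 (T t80 N)))))))) (K a22 (M a192 (F (T t72 (L l137 (L l469 (T t21 (T t73 N))))))) (K a42 (M a192 (F (T t79 (T t73 (L l22 (L l137 (T t74 N))))))) (K a62 (M a192 (F (T t72 (L l469 (T t35 (L l66 (L l516 (T t80 N)))))))) (K a3 (M a192 (F (T t1343 (L l477 (T t79 (L l469 (L l475 (T t35 N)))))))) N))))))))))))))))⟩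
def e0_63__95_41 : Ent 4 := ⟨[a0, a63], [a95, a70], (M a85 (F (T t88 (L l137 (L l469 (T t52 (T t89 (T t90 (K a64 (M a252 (F (T t93 (L l93 (T t92 N))))) (K a192 (M a16 (F (T t112 (L l77 (T t1924 (L l296 (T t1925 N))))))) (K a21 (M a48 (F (L l361 (T t261 (L l137 (T t50 (L l47 (L l137 (L l361 (T t100 N)))))))))) (K a149 (M a48 (F (T t132 (L l77 (L l220 (T t873 (L l137 (L l220 (T t50 N))))))))) (K a213 (Fr a170 a255 l476 (Fr a42 a21 l68 (Fr a106 a234 l390 (Fr a192 a149 l519 (V t581))))) (K a42 (M a48 (F (L l469 (T t364 (L l137 (L l390 (T t50 (L l28 (L l137 (L l361 (T t100 N))))))))))) (K a106 (M a48 (F (T t48 (L l77 (L l104 (L l361 (T t509 (L l137 (L l390 (T t50 N)))))))))) (K a170 (M a48 (F (T t607 (L l137 (L l361 (L l404 (T t100 (L l390 (T t51 (L l361 (L l390 (L l404 (T t568 N))))))))))))) (K a255 (M a15 (F (T t1254 (L l137 (L l266 (L l361 (T t1497 (L l266 (L l296 (L l315 (T t1484 (L l266 (L l296 (T t1926 N))))))))))))))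 N)))))))))))))))))⟩
def e0_63__95_42 : Ent 4 := ⟨[a0, a63], [a95, a71], (M a85 (F (T t88 (L l137 (L l469 (T t52 (T t89 (T t90 (K a64 (M a204 (F (T t1575 (L l125 (T t1576 N))))) (K a192 (M a16 (F (T t112 (L l77 (T t1924 (L l296 (T t1925 N))))))) (K a21 (M a48 (F (L l361 (T t935 (L l137 (T t50 (L l47 (L l137 (L l361 (T t100 N)))))))))) (K a149 (M a48 (F (T t132 (L l77 (L l220 (L l331 (T t873 (L l137 (L l220 (T t50 N)))))))))) (K a213 (Fr a170 a255 l476 (Fr a42 a21 l68 (Fr a106 a234 l390 (Fr a192 a149 l519 (V t581))))) (K a42 (M a48 (F (L l469 (T t364 (L l137 (L l390 (T t50 (L l28 (L l137 (L l361 (T t100 N))))))))))) (K a106 (M a48 (F (T t48 (L l77 (L l104 (L l127 (L l361 (T t509 (L l137 (L l390 (T t50 N))))))))))) (K a170 (M a48 (F (T t607 (L l137 (L l361 (L l404 (T t100 (L l390 (T t51 (L l361 (L l390 (L l404 (T t568 N))))))))))))) (K a255 (M a15 (F (T t1254 (L l137 (L l266 (L l361 (T t1497 (L l266 (L l296 (T t1484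 (L l266 (L l296 (T t1926 N))))))))))))) N)))))))))))))))))⟩
def e0_63__95_43 : Ent 4 := ⟨[a0, a63], [a95, a74], (M a12 (F (T t122 (T t151 (T t152 (T t153 (K a4 (M a60 (F (T t43 (L l336 (L l339 (L l469 (T t398 (T t448 N)))))))) (K a8 (M a60 (F (T t67 (L l336 (L l339 (L l469 (T t398 (L l52 (L l56 (T t448 N)))))))))) (K a21 (M a192 (F (T t156 (L l15 (L l347 (T t450 (L l15 (L l347 (T t157 N))))))))) (K a25 (M a192 (F (T t156 (L l15 (T t450 (L l137 (L l469 (T t21 N)))))))) (K a29 (M a192 (F (T t156 (L l137 (L l371 (L l469 (T t21 (L l78 (L l130 (T t160 N)))))))))) (K a38 (M a192 (F (T t156 (T t450 (L l137 (L l469 (T t21 N))))))) (K a42 (M a192 (F (T t156 (T t450 (L l56 (T t157 N)))))) (K a46 (M a192 (F (T t156 (L l137 (L l469 (T t21 (L l26 (L l78 (L l130 (L l408 (T t160 N))))))))))) (K a51 (M a192 (F (T t57 (L l513 (T t156 (L l415 (T t450 N))))))) N)))))))))))))))⟩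
def e0_63__95_44 : Ent 4 := ⟨[a0, a63], [a95, a75], (M a85 (F (T t88 (L l137 (L l469 (T t52 (T t89 (T t90 (K a64 (M a252 (F (T t93 (L l93 (T t92 N))))) (K a192 (M a16 (F (T t112 (T t1924 (L l133 (L l296 (T t1925 N))))))) (K a21 (M a48 (F (T t873 (L l47 (L l137 (L l361 (T t100 (L l137 (T t50 N))))))))) (K a149 (M a48 (F (T t132 (L l220 (T t873 (L l137 (L l220 (T t50 N)))))))) (K a213 (Fr a170 a255 l476 (Fr a42 a21 l68 (Fr a106 a234 l390 (Fr a192 a149 l519 (V t581))))) (K a42 (M a48 (F (L l469 (T t364 (L l137 (L l390 (T t50 (L l28 (L l137 (L l361 (T t100 N))))))))))) (K a106 (M a48 (F (T t48 (L l104 (L l361 (T t509 (L l137 (L l390 (T t50 N))))))))) (K a170 (M a48 (F (T t607 (L l137 (L l361 (L l404 (T t100 (L l390 (T t51 (L l361 (L l390 (L l404 (T t568 N))))))))))))) (K a255 (M a15 (F (T t1254 (L l137 (L l266 (L l361 (T t1497 (L l266 (L l296 (T t1484 (L l266 (L l296 (T t1926 N))))))))))))) N)))))))))))))))))⟩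
def e0_63__95_45 : Ent 4 := ⟨[a0, a63], [a95, a79], (M a60 (L l137 (F (T t67 (T t43 (T t68 (T t69 (K a20 (M a255 (L l137 (F (T t2963 (T t2142 (L l11 (L l94 (L l350 (T t2964 (K a111 (Fr a127 a191 l433 (V t2965)) (K a127 (M a111 (F (L l361 (T t1564 (L l11 (L l94 (L l109 (L l144 (L l350 (T t2964 (L l84 (L l94 (L l144 (L l350 (L l361 (T t2966 N)))))))))))))))) N))))))))))) (K a40 (M a255 (L l137 (F (T t2963 (L l22 (L l392 (T t2142 (L l94 (T t2964 (K a111 (Fr a127 a191 l433 (V t2965)) (K a127 (M a111 (F (L l361 (T t1564 (L l94 (L l109 (L l144 (T t2964 (L l84 (L l94 (L l144 (L l361 (T t2966 N))))))))))))) N))))))))))) (K a21 (M a255 (L l137 (F (T t2963 (L l11 (L l94 (L l347 (T t1634 (L l65 (T t1635 (K a111 (Fr a127 a191 l433 (V t2965)) (K a127 (M a111 (F (T t1566 (L l361 (T t1564 N))))) N)))))))))))) (K a41 (M a255 (L l137 (F (T t2963 (L l22 (T t2142 (L l94 (T t1634 (K a111 (Fr a127 a191 l433 (V t2965)) (K a127 (M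 a111 (F (T t2967 (L l361 (T t1564 N))))) N)))))))))) (K a61 (M a32 (L l137 (F (T t1573 (L l65 (L l325 (L l469 (T t219 (L l65 (T t1569 (K a111 (M a127 (F (T t1573 (L l84 (T t1158 N))))) (K a127 (M a111 (F (T t1573 (L l65 (L l151 (L l361 (L l469 (T t2968 N)))))))) N)))))))))))) (K a22 (M a255 (L l137 (F (T t2969 (L l84 (T t1165 (L l11 (L l94 (T t1634 (K a111 (Fr a127 a191 l433 (V t2965)) (K a127 (M a111 (F (T t1566 (L l361 (T t1564 N))))) N))))))))))) (K a42 (M a255 (L l137 (F (T t2969 (L l94 (T t1634 (L l22 (L l390 (T t1635 (K a111 (Fr a127 a191 l433 (V t2965)) (K a127 (M a111 (F (L l390 (T t2967 (L l361 (T t1564 N)))))) N))))))))))) (K a62 (M a32 (L l137 (F (T t1573 (L l325 (L l469 (T t219 (L l60 (T t1569 (K a111 (M a127 (F (T t1573 (L l84 (T t1158 N))))) (K a127 (M a111 (F (T t1573 (L l151 (L l361 (L l469 (T t2968 N))))))) N))))))))))) (K a3 (M a192 (L l137 (F (T t57 (L l477 (T t79 (L l307 (T t73 (K a111 (M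 a127 (F (T t1170 (L l139 (L l477 (T t2970 N)))))) (K a127 (M a111 (F (T t1334 (L l45 (L l361 (T t2971 N)))))) N)))))))))) (K a111 (M a127 (F (T t43 (L l139 (T t2970 (L l84 (T t1158 N))))))) (K a127 (M a111 (F (T t67 (L l361 (T t1564 (L l361 (T t2972 (K a61 (M a192 (F (T t72 (L l361 (L l515 (T t2971 N)))))) N)))))))) N))))))))))))))))))⟩
def e0_63__95_46 : Ent 4 := ⟨[a0, a63], [a95, a80], (M a85 (F (T t352 (L l137 (L l469 (T t52 (L l116 (T t89 (L l116 (T t90 (K a64 (M a48 (L l116 (F (T t132 (L l84 (T t873 (L l137 (T t50 (K a96 (M a112 (F (T t350 (L l340 (L l361 (L l376 (T t568 N))))))) (K a112 (M a96 (F (T t132 (L l84 (T t873 (L l114 (T t903 N))))))) N)))))))))) (K a192 (M a48 (F (T t1243 (L l340 (T t48 (L l137 (L l268 (T t50 N)))))))) (K a21 (M a48 (F (T t873 (L l47 (L l137 (L l361 (T t100 (L l137 (T t50 N))))))))) (K a149 (M a48 (F (T t132 (L l220 (T t873 (L l137 (L l220 (T t50 N)))))))) (K a213 (Fr a170 a255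 l476 (Fr a42 a21 l68 (Fr a106 a234 l390 (Fr a192 a149 l519 (V t581))))) (K a42 (M a48 (F (L l340 (L l469 (T t364 (L l137 (L l390 (T t50 (L l28 (L l137 (L l361 (T t100 N)))))))))))) (K a106 (M a48 (F (L l469 (T t1 (L l104 (L l361 (T t509 (L l390 (L l498 (T t51 N)))))))))) (K a170 (M a48 (F (L l340 (T t607 (L l137 (L l361 (L l404 (T t100 (L l390 (T t51 (L l340 (L l361 (L l390 (L l404 (T t568 N))))))))))))))) (K a255 (M a15 (F (T t1254 (L l137 (L l266 (L l361 (T t1497 (L l266 (L l296 (T t1484 (L l266 (L l296 (L l340 (T t1926 N)))))))))))))) N)))))))))))))))))))⟩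
def e0_63__95_47 : Ent 4 := ⟨[a0, a63], [a95, a81], (M a12 (F (T t122 (L l341 (T t151 (T t152 (T t153 (K a4 (M a60 (F (T t43 (L l469 (T t398 (L l341 (T t448 N))))))) (K a8 (M a60 (F (T t68 (L l469 (T t398 (L l52 (L l56 (L l341 (T t448 N))))))))) (K a21 (M a192 (F (T t468 (L l15 (L l347 (T t450 (L l15 (L l347 (T t157 N))))))))) (K a25 (M a192 (F (T t449 (L l15 (T t450 (L l137 (L l469 (T t21 N)))))))) (K a29 (M a192 (F (T t449 (L l137 (L l371 (L l469 (T t21 (T t160 N)))))))) (K a38 (M a192 (F (T t468 (T t450 (L l137 (L l469 (T t21 N))))))) (K a42 (M a192 (F (T t449 (T t450 (L l56 (T t157 N)))))) (K a46 (M a192 (F (T t449 (L l137 (L l469 (T t21 (L l26 (L l408 (T t160 N))))))))) (K a51 (M a192 (F (T t57 (L l513 (T t156 (L l415 (T t450 N))))))) N))))))))))))))))⟩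
def e0_63__95_48 : Ent 4 := ⟨[a0, a63], [a95, a82], (M a85 (F (T t88 (L l137 (L l469 (T t52 (T t89 (T t90 (K a64 (M a252 (F (T t93 (L l93 (T t92 N))))) (K a192 (M a16 (F (T t112 (T t1924 (L l86 (L l92 (L l296 (T t1925 N)))))))) (K a21 (M a48 (F (T t873 (L l47 (L l137 (L l361 (T t100 (L l137 (L l453 (T t50 N)))))))))) (K a149 (M a48 (F (T t132 (L l220 (T t873 (L l137 (L l220 (L l453 (T t50 N))))))))) (K a213 (Fr a170 a255 l476 (Fr a42 a21 l68 (Fr a106 a234 l390 (Fr a192 a149 l519 (V t581))))) (K a42 (M a48 (F (L l469 (T t364 (L l137 (L l390 (L l453 (T t50 (L l28 (L l137 (L l361 (T t100 N)))))))))))) (K a106 (M a48 (F (T t48 (L l104 (L l361 (T t509 (L l137 (L l390 (L l453 (T t50 N)))))))))) (K a170 (M a48 (F (T t607 (L l137 (L l361 (L l404 (T t100 (L l390 (T t51 (L l361 (L l390 (L l404 (T t568 N))))))))))))) (K a255 (M a15 (F (T t1254 (L l137 (L l266 (L l361 (T t1497 (L l266 (L l296 (T t1484 (L l266 (L l296 (L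 l345 (L l453 (T t1926 N))))))))))))))) N)))))))))))))))))⟩
def e0_63__95_49 : Ent 4 := ⟨[a0, a63], [a95, a83], (M a85 (L l93 (F (T t88 (L l137 (L l469 (T t52 (T t89 (T t90 (K a64 (M a87 (F (T t1195 (L l140 (T t923 (L l137 (L l451 (T t2247 N)))))))) (K a192 (M a16 (L l93 (F (T t112 (T t1924 (L l86 (L l296 (T t1925 (K a87 (M a91 (F (T t1924 (L l349 (T t2764 N))))) (K a91 (M a87 (F (T t112 (L l355 (T t2248 N))))) N)))))))))) (K a21 (M a195 (L l93 (F (T t2230 (L l451 (T t2035 (L l137 (T t910 (K a87 (M a91 (F (T t2230 (L l143 (L l343 (L l451 (T t3033 N))))))) (K a91 (M a87 (F (L l463 (T t1198 (L l137 (L l373 (T t910 N))))))) N)))))))))) (K a149 (M a16 (L l93 (F (T t112 (L l220 (T t1924 (L l361 (L l469 (T t4478 (K a87 (M a91 (F (L l220 (T t1924 (L l163 (L l349 (T t2764 N))))))) (K a91 (M a87 (F (T t112 (L l170 (L l355 (T t2248 N)))))) N))))))))))) (K a213 (Fr a170 a255 l476 (Fr a42 a21 l68 (Fr a106 a234 l390 (Fr a192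 a149 l519 (V t581))))) (K a42 (M a48 (L l93 (F (L l469 (T t364 (L l137 (L l390 (T t50 (L l28 (L l137 (L l361 (T t100 (K a87 (M a91 (F (L l469 (L l475 (T t365 (L l137 (L l143 (L l390 (T t50 (L l28 (L l137 (L l143 (L l361 (L l367 (T t100 N))))))))))))))) (K a91 (M a87 (F (L l95 (T t4284 (L l137 (L l390 (T t50 N))))))) N)))))))))))))) (K a106 (M a5 (L l93 (F (L l390 (T t1110 (L l86 (L l130 (T t4479 (L l390 (T t2817 (L l411 (T t1602 (K a87 (M a91 (F (L l457 (T t4480 (L l390 (T t2817 N)))))) (K a91 (M a87 (F (T t4481 (L l390 (T t1110 N))))) N)))))))))))))) (K a170 (M a5 (L l93 (F (L l390 (L l462 (T t1110 (L l390 (T t2817 (L l137 (L l361 (L l462 (T t1402 (L l462 (T t1602 (K a87 (M a91 (F (L l390 (T t2817 (L l143 (L l343 (L l462 (T t4482 N)))))))) (K a91 (M a87 (F (T t4481 (L l390 (L l462 (T t1110 N)))))) N)))))))))))))))) (K a255 (M a15 (L l93 (F (T t1254 (L l137 (L l266 (L l361 (T t1497 (L l266 (L l296 (T t1484 (L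 l266 (L l296 (T t1926 (K a87 (M a91 (L l475 (F (L l457 (T t4483 (L l266 (L l296 (T t1484 (K a3 (M a171 (L l451 (F (L l457 (T t4483 (L l296 (T t3677 (K a163 (Fr a243 a167 l481 (V t4484)) (K a243 (M a163 (L l265 (F (L l266 (T t3676 (L l119 (L l143 (L l289 (L l361 (T t4485 (K a247 (Fr a251 a11 l463 (V t732)) (K a251 (M a247 (F (T t1783 (T t4486 N)))) N)))))))))))) N))))))))) (K a171 (M a3 (F (T t4487 (L l143 (L l343 (L l391 (T t4488 N))))))) N)))))))))) (K a91 (M a87 (F (T t1783 (L l266 (T t4305 (L l296 (L l373 (T t923 N)))))))) N)))))))))))))))) (K a87 (M a91 (F (T t88 (L l137 (L l143 (L l469 (L l475 (T t52 (T t89 (T t90 (K a64 (M a16 (F (L l84 (T t1924 (L l349 (T t2764 N)))))) (K a192 (M a16 (F (T t1924 (L l349 (T t2764 N))))) (K a21 (M a195 (F (T t2230 (L l143 (L l343 (L l451 (T t3033 N))))))) (K a149 (M a16 (F (L l220 (T t1924 (L l163 (L l349 (T t2764 N))))))) (K a213 (Fr a170 a255 l476 (Fr a42 a21 l68 (Fr a106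 a234 l390 (Fr a192 a149 l519 (V t581))))) (K a42 (M a195 (F (T t883 (L l28 (L l143 (L l343 (L l451 (T t3033 N)))))))) (K a106 (M a5 (F (L l457 (T t4480 (L l390 (T t2817 N)))))) (K a170 (M a5 (F (L l390 (T t2817 (L l143 (L l343 (L l462 (T t4482 N)))))))) (K a255 (M a3 (L l469 (F (T t1341 (L l137 (L l143 (L l261 (L l349 (T t376 (L l95 (L l261 (T t2226 (L l261 (L l296 (T t1921 (K a15 (M a175 (F (T t85 (L l137 (L l143 (L l261 (L l349 (T t376 (L l95 (L l261 (T t2226 (L l261 (L l296 (L l471 (T t1921 N))))))))))))))) (K a175 (M a15 (F (T t4489 (L l143 (L l343 (L l397 (T t4488 N))))))) N))))))))))))))))) N))))))))))))))))))) (K a91 (M a87 (F (T t89 (L l463 (T t1198 (L l373 (T t923 N))))))) N))))))))))))))))))))⟩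
def e0_63__95_50 : Ent 4 := ⟨[a0, a63], [a95, a85], (M a12 (L l94 (F (T t153 (L l347 (T t122 (L l365 (T t151 (L l347 (L l458 (T t152 (K a4 (M a14 (L l94 (L l458 (F (T t726 (T t2506 (L l50 (L l347 (T t728 (L l50 (L l347 (T t2585 (K a80 (M a90 (L l458 (F (T t726 (L l454 (T t4490 (L l91 (L l310 (T t4491 (K a166 (M a247 (F (T t726 (L l50 (L l347 (L l361 (T t2513 (L l50 (L l347 (T t728 (L l1 (L l50 (L l347 (L l455 (T t4492 N))))))))))))))) (K a247 (Fr a166 a242 l480 (V t2510)) N))))))))))) (K a166 (M a247 (L l94 (F (T t726 (T t2506 (L l50 (L l347 (T t728 (L l50 (L l347 (T t2585 (K a80 (M a90 (F (T t726 (L l50 (L l347 (L l361 (T t2513 (L l50 (L l347 (T t728 (L l1 (L l50 (L l347 (L l455 (T t4492 N))))))))))))))) (K a90 (M a80 (F (T t726 (L l462 (T t2506 (L l50 (L l347 (L l372 (L l462 (T t728 (L l50 (L l347 (T t2585 N))))))))))))) N))))))))))))) (K a90 (M a80 (L l458 (F (T t726 (L l462 (T t2506 (L l50 (L l347 (L l372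 (L l462 (T t728 (L l50 (L l347 (T t3934 (K a166 (M a247 (F (T t726 (L l462 (T t2506 (L l50 (L l347 (L l372 (L l462 (T t728 (L l50 (L l347 (T t2585 N))))))))))))) (K a247 (M a166 (F (T t726 (L l88 (L l91 (L l473 (T t3933 N))))))) N)))))))))))))))) (K a247 (M a166 (L l94 (F (L l454 (T t2507 (L l50 (L l347 (T t728 (K a80 (Fr a90 a242 l480 (V t2510)) (K a90 (M a80 (F (T t726 (L l88 (L l91 (L l473 (T t3933 N))))))) N)))))))))) N)))))))))))))))) (K a8 (M a62 (L l94 (F (T t2730 (L l347 (T t709 (L l2 (L l347 (T t710 (K a80 (M a90 (F (L l347 (T t709 (T t2731 N))))) (K a90 (M a80 (F (T t4493 (L l2 (L l347 (L l372 (L l462 (T t710 N)))))))) N))))))))))) (K a21 (M a149 (L l94 (F (T t958 (L l144 (T t648 (L l50 (L l89 (L l91 (L l137 (L l144 (L l458 (T t2471 (L l50 (L l89 (L l91 (L l458 (T t2472 (K a80 (M a90 (F (T t958 (L l18 (L l144 (L l361 (L l469 (T t2779 (L l340 (T t4494 N)))))))))) (K a90 (M a80 (F (T t650 (L l89 (T t2526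 N))))) N)))))))))))))))))))) (K a25 (M a192 (L l94 (F (T t156 (L l15 (L l347 (T t450 (L l144 (L l458 (T t2473 (K a80 (M a90 (F (T t156 (L l347 (L l469 (T t3378 N)))))) (K a90 (M a80 (F (L l89 (T t2526 (L l15 (L l347 (L l375 (T t450 N)))))))) N)))))))))))) (K a29 (M a15 (L l94 (F (T t3936 (T t716 (L l59 (L l368 (T t722 (K a80 (M a90 (F (T t716 (L l458 (T t4495 N))))) (K a90 (M a80 (F (L l89 (T t2526 (L l368 (T t723 N)))))) N)))))))))) (K a38 (M a192 (L l94 (F (T t468 (L l347 (T t450 (L l26 (L l50 (L l144 (L l458 (T t2473 (K a80 (M a90 (F (T t468 (L l347 (L l469 (T t3378 N)))))) (K a90 (M a80 (F (L l89 (T t2526 (L l347 (L l375 (T t450 N))))))) N))))))))))))) (K a42 (M a192 (L l94 (F (T t156 (L l347 (T t450 (L l26 (L l144 (L l390 (L l458 (T t2473 (K a80 (M a90 (F (T t156 (L l347 (L l469 (T t3378 N)))))) (K a90 (M a80 (F (L l89 (T t2526 (L l347 (L l375 (T t450 N))))))) N))))))))))))) (K a46 (M a15 (L l94 (F (T t3936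 (L l26 (T t716 (L l23 (L l26 (L l368 (T t722 (K a80 (M a90 (F (T t3936 (L l23 (L l340 (T t4496 N)))))) (K a90 (M a80 (F (L l89 (T t2526 (L l23 (L l26 (L l368 (T t723 N)))))))) N)))))))))))) (K a51 (M a28 (L l94 (F (T t2738 (L l30 (L l368 (T t2735 (L l350 (T t2482 (K a80 (M a90 (F (T t2739 (L l347 (T t4497 N))))) (K a90 (M a80 (F (T t2738 (L l89 (L l441 (T t2526 N)))))) N))))))))))) (K a80 (M a90 (F (T t153 (L l347 (T t122 (L l365 (T t151 (L l347 (L l458 (T t152 (K a4 (M a166 (F (T t2542 (L l455 (T t2530 (L l90 (T t4498 N))))))) (K a8 (M a240 (F (T t2743 (L l347 (L l361 (L l455 (T t4499 N))))))) (K a21 (M a149 (F (T t958 (L l18 (L l144 (L l361 (L l469 (T t2779 (L l340 (T t4494 N)))))))))) (K a25 (M a192 (F (T t156 (L l347 (L l469 (T t3378 N)))))) (K a29 (M a192 (F (T t468 (L l347 (L l371 (L l469 (T t3378 N))))))) (K a38 (M a192 (F (T t468 (L l347 (L l469 (T t3378 N)))))) (K a42 (M a192 (F (T t156 (L l347 (L l469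 (T t3378 N)))))) (K a46 (M a192 (F (T t468 (L l347 (L l469 (T t3378 N)))))) (K a51 (M a192 (F (L l513 (T t468 (L l73 (L l347 (L l469 (T t3378 N)))))))) N))))))))))))))))))) (K a90 (M a80 (F (T t153 (L l89 (T t2526 (L l89 (L l347 (L l465 (T t3939 (K a8 (M a192 (F (L l151 (L l483 (T t3940 (L l347 (L l375 (T t450 N)))))))) N)))))))))) N))))))))))))))))))))))⟩
def e0_63__95_51 : Ent 4 := ⟨[a0, a63], [a95, a86], (M a12 (F (T t122 (T t151 (T t152 (T t153 (K a4 (M a60 (F (T t662 (L l469 (T t398 (L l351 (T t448 N))))))) (K a8 (M a60 (F (T t570 (L l477 (T t67 (L l52 (L l56 (L l351 (T t448 N))))))))) (K a21 (M a192 (F (T t836 (L l15 (L l347 (L l351 (T t450 (L l15 (L l347 (L l351 (T t157 N))))))))))) (K a25 (M a192 (F (T t449 (L l15 (L l351 (T t450 (L l137 (L l351 (L l469 (T t21 N)))))))))) (K a29 (M a192 (F (T t449 (L l137 (L l351 (L l371 (L l469 (T t21 (L l142 (T t160 N)))))))))) (K a38 (M a192 (F (T t156 (L l351 (T t450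 (L l137 (L l351 (L l469 (T t21 N))))))))) (K a42 (M a192 (F (T t449 (L l351 (T t450 (L l56 (L l351 (T t157 N)))))))) (K a46 (M a192 (F (T t449 (L l137 (L l351 (L l469 (T t21 (L l26 (L l142 (L l408 (T t160 N))))))))))) (K a51 (M a192 (F (T t1725 (L l351 (L l415 (T t450 (L l137 (L l351 (L l439 (L l469 (T t21 N))))))))))) N)))))))))))))))⟩
def e0_63__95_52 : Ent 4 := ⟨[a0, a63], [a95, a87], (M a12 (L l93 (F (T t122 (T t151 (T t152 (T t153 (K a4 (M a149 (L l93 (F (T t958 (T t5 (L l89 (T t960 (K a83 (M a91 (F (T t424 (L l349 (T t2750 N))))) (K a91 (M a83 (F (T t424 (L l89 (T t3679 N))))) N))))))))) (K a8 (M a149 (L l93 (F (T t991 (L l56 (T t5 (L l56 (L l89 (T t960 (K a83 (M a91 (F (T t175 (L l349 (L l460 (T t2750 N)))))) (K a91 (M a83 (F (T t175 (L l89 (T t3679 N))))) N))))))))))) (K a21 (M a89 (L l93 (F (T t2788 (L l50 (T t863 (L l50 (T t864 (K a83 (M a91 (F (T t2752 (L l89 (L l94 (T t3680 N)))))) (K a91 (M a83 (F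 (T t870 (L l87 (L l94 (T t3681 N)))))) N)))))))))) (K a25 (M a89 (L l93 (F (T t870 (T t863 (T t864 (K a83 (M a91 (F (T t870 (L l89 (L l94 (T t3680 N)))))) (K a91 (M a83 (F (T t870 (L l87 (L l94 (T t3681 N)))))) N)))))))) (K a29 (M a170 (L l93 (F (T t2497 (L l15 (T t317 (L l15 (T t3682 (K a83 (M a91 (F (L l15 (T t317 (T t3683 N))))) (K a91 (M a83 (F (L l15 (T t317 (L l89 (L l463 (T t3684 N))))))) N)))))))))) (K a38 (M a149 (L l93 (F (T t991 (L l50 (T t175 (L l26 (L l50 (T t649 (K a83 (M a91 (F (T t648 (L l26 (L l349 (T t2750 N)))))) (K a91 (M a83 (F (T t648 (L l26 (L l89 (T t3679 N)))))) N))))))))))) (K a42 (M a89 (L l93 (F (T t3370 (T t863 (L l26 (T t864 (K a83 (M a91 (F (T t3543 (L l89 (L l94 (T t3680 N)))))) (K a91 (M a83 (F (T t3543 (L l87 (L l94 (T t3681 N)))))) N))))))))) (K a46 (M a170 (L l93 (F (T t439 (L l396 (L l457 (L l469 (L l475 (T t3685 (T t3682 (K a83 (M a91 (F (T t317 (T t3683 N)))) (K a91 (M a83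 (F (T t439 (L l89 (L l463 (T t3684 N)))))) N)))))))))))) (K a51 (M a149 (L l93 (F (T t647 (L l489 (T t5 (T t649 (K a83 (M a91 (F (T t25 (L l349 (T t2750 N))))) (K a91 (M a83 (F (T t25 (L l89 (T t3679 N))))) N))))))))) (K a83 (M a91 (F (T t122 (T t151 (T t152 (T t153 (K a4 (M a149 (F (T t424 (L l349 (T t2750 N))))) (K a8 (M a149 (F (T t175 (L l349 (L l460 (T t2750 N)))))) (K a21 (M a88 (F (L l50 (T t3686 (L l15 (L l94 (L l451 (T t3687 N)))))))) (K a25 (M a88 (F (T t3686 (L l15 (L l94 (L l451 (T t3687 N))))))) (K a29 (M a16 (F (T t652 (L l349 (T t2764 N))))) (K a38 (M a16 (F (L l21 (T t871 (L l26 (L l72 (L l349 (T t2764 N)))))))) (K a42 (M a88 (F (T t3686 (L l94 (L l451 (T t3687 N)))))) (K a46 (M a16 (F (T t871 (L l26 (L l349 (T t2764 N)))))) (K a51 (M a16 (F (T t652 (L l349 (T t2764 N))))) N))))))))))))))) (K a91 (M a83 (F (T t122 (T t151 (T t152 (T t153 (K a4 (M a1 (F (T t3333 (T t1103 N)))) (K a8 (M a1 (F (T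 t3333 (L l2 (L l56 (T t1103 N)))))) (K a21 (M a81 (F (L l89 (T t3688 (T t3689 N))))) (K a25 (M a1 (F (T t3333 (L l53 (L l56 (T t1105 N)))))) (K a29 (M a89 (F (T t3690 (L l15 (L l131 (L l463 (T t3691 N))))))) (K a38 (M a81 (F (L l89 (T t3688 (L l384 (T t3689 N)))))) (K a42 (M a81 (F (T t3692 (T t3689 N)))) (K a46 (M a170 (F (T t439 (L l89 (L l463 (T t3684 N)))))) (K a51 (M a1 (F (T t3333 (T t1103 N)))) N))))))))))))))) N))))))))))))))))))⟩
def e0_63__95_53 : Ent 4 := ⟨[a0, a63], [a95, a90], (M a12 (L l94 (F (T t122 (T t151 (T t152 (T t153 (K a4 (M a85 (F (T t88 (L l89 (L l137 (L l462 (T t124 (L l89 (T t154 N))))))))) (K a8 (M a85 (F (L l56 (T t88 (L l89 (L l137 (L l462 (L l464 (T t124 (L l56 (L l89 (T t154 N)))))))))))) (K a21 (M a85 (F (T t1601 (L l15 (L l137 (T t574 (L l89 (L l137 (L l462 (T t124 N)))))))))) (K a25 (M a85 (F (L l462 (T t1370 (L l15 (L l137 (L l469 (T t52 (L l15 (L l56 (L l137 (T t574 N))))))))))))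 (K a29 (M a85 (F (T t88 (L l469 (T t1368 (T t572 N)))))) (K a38 (M a85 (F (T t1601 (L l26 (T t88 (L l137 (T t574 N))))))) (K a42 (M a85 (F (L l56 (T t1601 (L l89 (L l137 (L l390 (L l462 (T t124 (L l56 (L l137 (T t574 N)))))))))))) (K a46 (M a85 (F (T t1601 (L l26 (T t88 (L l26 (T t572 N))))))) (K a51 (M a85 (F (T t3956 (L l89 (T t154 (L l489 (T t88 N))))))) (K a80 (M a85 (F (T t151 (L l116 (T t88 (L l86 (L l88 (T t123 N)))))))) (K a85 (M a80 (F (T t153 (L l89 (T t2526 (L l89 (L l347 (L l465 (T t3939 (K a8 (M a192 (F (L l151 (L l483 (T t3940 (L l347 (L l375 (T t450 N)))))))) N)))))))))) N))))))))))))))))))⟩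
def e0_63__95_54 : Ent 4 := ⟨[a0, a63], [a95, a91], (M a85 (L l93 (F (T t88 (L l137 (L l469 (T t52 (T t89 (T t90 (K a64 (M a87 (F (L l463 (T t1195 (L l140 (L l373 (T t923 (L l137 (T t2247 N))))))))) (K a192 (M a1 (L l93 (F (T t2828 (L l514 (T t534 (L l296 (T t1500 (K a83 (M a87 (F (T t4299 (T t4300 N)))) (K a87 (M a83 (F (T t3333 (L l296 (T t1500 N))))) N)))))))))) (K a21 (M a243 (L l93 (F (L l469 (T t2338 (L l131 (L l137 (T t2088 (L l89 (L l137 (T t3594 (K a83 (M a87 (F (L l463 (T t1198 (L l89 (L l137 (T t3594 N))))))) (K a87 (M a83 (F (T t3664 (L l131 (L l137 (L l143 (T t2088 N))))))) N))))))))))))) (K a149 (M a3 (L l93 (F (T t354 (T t137 (L l220 (L l463 (T t4301 (K a83 (M a87 (F (T t4302 (T t2258 N)))) (K a87 (M a83 (F (T t358 (L l220 (L l463 (T t4303 N)))))) N)))))))))) (K a213 (Fr a170 a255 l476 (Fr a42 a21 l68 (Fr a106 a234 l390 (Fr a192 a149 l519 (V t581))))) (K a42 (M a48 (L l93 (F (L l469 (T t364 (L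 l137 (L l390 (T t50 (L l28 (L l137 (L l361 (T t100 (K a83 (M a87 (F (L l95 (T t4284 (L l137 (L l390 (T t50 N))))))) (K a87 (M a83 (F (L l469 (L l475 (T t365 (L l137 (L l143 (L l390 (T t50 (L l28 (L l137 (L l143 (L l361 (L l367 (T t100 N))))))))))))))) N)))))))))))))) (K a106 (M a48 (L l93 (F (T t48 (L l104 (L l361 (T t509 (L l137 (L l390 (T t50 (K a83 (M a87 (F (T t48 (L l390 (L l463 (T t1198 (L l469 (L l498 (T t365 N))))))))) (K a87 (M a83 (F (T t48 (L l361 (L l367 (T t1699 (L l137 (L l143 (L l390 (T t50 N)))))))))) N)))))))))))) (K a170 (M a1 (L l93 (F (L l390 (L l474 (T t534 (L l390 (T t1500 (L l137 (L l474 (T t263 (L l474 (T t3667 (K a83 (M a87 (F (L l390 (T t1500 (L l119 (L l131 (L l474 (T t4304 N)))))))) (K a87 (M a83 (F (L l178 (L l474 (T t3333 (L l390 (T t1500 N))))))) N))))))))))))))) (K a255 (M a15 (L l93 (F (T t1783 (L l137 (L l266 (L l361 (L l373 (T t1497 (L l266 (L l296 (T t1484 (L l266 (L l296 (T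 t1926 (K a83 (M a87 (F (T t1783 (L l266 (T t4305 (L l296 (L l373 (T t923 N)))))))) (K a87 (M a83 (L l475 (F (T t1783 (L l137 (L l143 (L l266 (L l361 (L l373 (T t1497 (L l88 (L l266 (T t3676 (L l266 (L l296 (T t1926 (K a3 (M a171 (F (T t1254 (L l137 (L l143 (L l266 (L l361 (L l373 (T t1497 (L l296 (T t3677 (L l266 (L l296 (L l453 (T t1926 N))))))))))))))) (K a171 (M a3 (L l463 (F (T t1254 (L l179 (L l266 (T t3371 (K a11 (M a251 (F (L l440 (T t723 (L l179 (L l266 (T t3371 N))))))) (K a251 (Fr a11 a7 l7 (V t4500)) N))))))))) N)))))))))))))))))) N))))))))))))))))) (K a83 (M a87 (F (T t89 (L l463 (T t1198 (L l373 (T t923 N))))))) (K a87 (M a83 (F (T t88 (L l137 (L l143 (L l469 (L l475 (T t52 (T t89 (T t90 (K a64 (M a204 (F (T t1575 (L l125 (T t1576 N))))) (K a192 (M a1 (F (T t3333 (L l296 (T t1500 N))))) (K a21 (M a93 (F (L l88 (T t3674 (L l15 (L l137 (L l143 (T t3675 N)))))))) (K a149 (M a1 (F (T t3333 (L l217 (T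 t2807 N))))) (K a213 (Fr a170 a255 l476 (Fr a42 a21 l68 (Fr a106 a234 l390 (Fr a192 a149 l519 (V t581))))) (K a42 (M a93 (F (L l88 (T t3674 (L l137 (L l143 (L l390 (T t3675 N)))))))) (K a106 (M a1 (F (T t3333 (L l390 (T t1500 N))))) (K a170 (M a1 (F (L l178 (L l474 (T t3333 (L l390 (T t1500 N))))))) (K a255 (M a15 (L l475 (F (T t1783 (L l137 (L l143 (L l266 (L l361 (L l373 (T t1497 (L l88 (L l266 (T t3676 (L l266 (L l296 (T t1926 (K a3 (M a171 (F (T t1254 (L l137 (L l143 (L l266 (L l361 (L l373 (T t1497 (L l296 (T t3677 (L l266 (L l296 (L l453 (T t1926 N))))))))))))))) (K a171 (M a3 (L l463 (F (T t1254 (L l179 (L l266 (T t3371 (K a11 (M a251 (F (L l440 (T t723 (L l179 (L l266 (T t3371 N))))))) (K a251 (Fr a11 a7 l7 (V t4500)) N))))))))) N)))))))))))))))))) N))))))))))))))))))) N))))))))))))))))))))⟩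
def e0_63__95_55 : Ent 4 := ⟨[a0, a63], [a95, a96], (M a12 (F (T t122 (T t151 (T t152 (T t153 (K a4 (M a60 (F (T t43 (L l469 (T t398 (T t448 N)))))) (K a8 (M a60 (F (T t67 (L l469 (T t398 (L l52 (L l56 (T t448 N)))))))) (K a21 (M a192 (F (T t468 (L l15 (L l347 (T t450 (L l15 (L l347 (T t157 N))))))))) (K a25 (M a192 (F (T t449 (L l15 (T t450 (L l137 (L l469 (T t21 N)))))))) (K a29 (M a192 (F (T t449 (L l137 (L l371 (L l469 (T t21 (L l104 (T t160 N))))))))) (K a38 (M a192 (F (T t468 (T t450 (L l137 (L l469 (T t21 N))))))) (K a42 (M a192 (F (T t449 (T t450 (L l56 (T t157 N)))))) (K a46 (M a192 (F (T t449 (L l137 (L l469 (T t21 (L l26 (L l104 (L l408 (T t160 N)))))))))) (K a51 (M a192 (F (T t57 (L l513 (T t156 (L l415 (T t450 N))))))) N)))))))))))))))⟩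
def e0_63__95_56 : Ent 4 := ⟨[a0, a63], [a95, a97], (M a85 (F (T t88 (L l137 (L l469 (T t52 (T t89 (T t90 (K a64 (M a252 (F (T t93 (L l93 (T t92 N))))) (K a192 (M a16 (F (L l380 (T t1924 (L l296 (T t1925 (L l380 (T t112 N)))))))) (K a21 (M a48 (F (T t873 (L l47 (L l137 (L l361 (L l380 (T t100 (L l137 (T t50 N)))))))))) (K a149 (M a48 (F (L l469 (T t364 (L l380 (T t132 (L l137 (L l220 (T t50 N))))))))) (K a213 (Fr a170 a255 l476 (Fr a42 a21 l68 (Fr a106 a234 l390 (Fr a192 a149 l519 (V t581))))) (K a42 (M a48 (F (L l469 (T t364 (L l137 (L l390 (T t50 (L l28 (L l137 (L l361 (L l380 (T t100 N)))))))))))) (K a106 (M a48 (F (T t48 (L l101 (L l104 (L l361 (L l380 (T t509 (L l137 (L l390 (T t50 N))))))))))) (K a170 (M a48 (F (T t607 (L l137 (L l361 (L l380 (L l404 (T t100 (L l390 (T t51 (L l361 (L l380 (L l390 (L l404 (T t568 N))))))))))))))) (K a255 (M a15 (F (T t1254 (L l137 (L l266 (L l361 (T t1497 (L l266 (L l296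 (T t1484 (L l266 (L l296 (T t1926 N))))))))))))) N)))))))))))))))))⟩
def e0_63__95_57 : Ent 4 := ⟨[a0, a63], [a95, a98], (M a60 (F (T t67 (T t43 (T t68 (T t69 (K a20 (M a48 (F (T t138 (L l11 (L l469 (T t1 (L l11 (T t235 N)))))))) (K a40 (M a48 (F (T t48 (L l486 (L l489 (T t64 (L l52 (T t235 N)))))))) (K a21 (M a192 (F (T t72 (L l347 (T t73 (L l137 (L l347 (T t74 N)))))))) (K a41 (M a192 (F (T t77 (L l65 (L l469 (T t35 (T t73 N))))))) (K a61 (M a192 (F (T t72 (L l65 (L l469 (L l515 (T t35 (L l102 (T t80 N))))))))) (K a22 (M a192 (F (T t72 (L l137 (L l469 (T t21 (T t73 N))))))) (K a42 (M a192 (F (T t79 (T t73 (L l22 (L l137 (T t74 N))))))) (K a62 (M a192 (F (T t72 (L l469 (T t35 (L l66 (L l102 (L l516 (T t80 N))))))))) (K a3 (M a192 (F (T t614 (L l477 (T t79 (L l469 (L l475 (T t35 N)))))))) N)))))))))))))))⟩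
def e0_63__95_58 : Ent 4 := ⟨[a0, a63], [a95, a99], (M a85 (F (T t88 (L l137 (L l469 (T t52 (T t89 (T t90 (K a64 (M a252 (F (T t93 (L l93 (T t92 N))))) (K a192 (M a16 (F (T t112 (T t1924 (L l296 (T t1925 N)))))) (K a21 (M a48 (F (T t873 (L l47 (L l137 (L l361 (T t100 (L l137 (T t50 N))))))))) (K a149 (M a48 (F (T t132 (L l220 (T t873 (L l137 (L l220 (T t50 N)))))))) (K a213 (Fr a170 a255 l476 (Fr a42 a21 l68 (Fr a106 a234 l390 (Fr a192 a149 l519 (V t581))))) (K a42 (M a48 (F (L l469 (T t364 (L l137 (L l390 (T t50 (L l28 (L l137 (L l361 (T t100 N))))))))))) (K a106 (M a48 (F (T t48 (L l104 (L l361 (T t509 (L l137 (L l390 (T t50 N))))))))) (K a170 (M a48 (F (T t607 (L l137 (L l361 (L l404 (T t100 (L l390 (T t51 (L l361 (L l390 (L l404 (T t568 N))))))))))))) (K a255 (M a15 (F (T t1254 (L l137 (L l266 (L l361 (T t1497 (L l266 (L l296 (T t1484 (L l266 (L l296 (T t1926 N))))))))))))) N)))))))))))))))))⟩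
def e0_63__95_59 : Ent 4 := ⟨[a0, a63], [a95, a101], (M a12 (F (T t122 (T t151 (T t152 (T t153 (K a4 (M a60 (F (T t43 (L l469 (T t398 (T t448 N)))))) (K a8 (M a60 (F (T t67 (L l469 (T t398 (L l52 (L l56 (T t448 N)))))))) (K a21 (M a192 (F (T t836 (L l15 (L l347 (L l491 (T t450 (L l15 (L l347 (L l491 (T t157 N))))))))))) (K a25 (M a192 (F (T t449 (L l15 (L l491 (T t450 (L l137 (L l469 (L l491 (T t21 N)))))))))) (K a29 (M a192 (F (T t449 (L l137 (L l371 (L l469 (L l491 (T t21 (L l104 (T t160 N)))))))))) (K a38 (M a192 (F (T t156 (L l491 (T t450 (L l137 (L l469 (L l491 (T t21 N))))))))) (K a42 (M a192 (F (T t449 (L l491 (T t450 (L l56 (L l491 (T t157 N)))))))) (K a46 (M a192 (F (T t449 (L l137 (L l469 (L l491 (T t21 (L l26 (L l104 (L l408 (T t160 N))))))))))) (K a51 (M a192 (F (T t1725 (L l415 (L l491 (T t450 (L l137 (L l439 (L l469 (L l491 (T t21 N))))))))))) N)))))))))))))))⟩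
def e0_63__95_60 : Ent 4 := ⟨[a0, a63], [a95, a102], (M a60 (F (T t67 (T t43 (T t68 (T t69 (K a20 (M a48 (F (T t138 (L l11 (L l469 (T t1 (L l11 (T t235 N)))))))) (K a40 (M a48 (F (T t246 (L l469 (T t1 (L l52 (T t235 N))))))) (K a21 (M a192 (F (T t72 (L l347 (L l495 (T t73 (L l137 (L l347 (L l495 (T t74 N)))))))))) (K a41 (M a192 (F (T t77 (L l65 (L l469 (L l495 (T t35 (L l495 (T t73 N))))))))) (K a61 (M a192 (F (T t72 (L l65 (L l469 (L l495 (L l515 (T t35 (L l102 (T t80 N)))))))))) (K a22 (M a192 (F (T t72 (L l137 (L l469 (L l495 (T t21 (L l495 (T t73 N))))))))) (K a42 (M a192 (F (T t77 (L l495 (T t73 (L l22 (L l137 (L l495 (T t74 N))))))))) (K a62 (M a192 (F (T t72 (L l469 (L l495 (T t35 (L l66 (L l102 (L l516 (T t80 N)))))))))) (K a3 (M a192 (F (T t2658 (L l469 (L l475 (L l495 (T t35 (L l307 (L l495 (T t73 N)))))))))) N)))))))))))))))⟩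
def e0_63__95_61 : Ent 4 := ⟨[a0, a63], [a95, a103], (M a85 (F (T t88 (L l137 (L l469 (T t52 (T t89 (T t90 (K a64 (M a204 (F (T t1575 (L l125 (T t1576 N))))) (K a192 (M a16 (F (T t112 (T t1924 (L l296 (T t1925 N)))))) (K a21 (M a48 (F (T t1243 (L l47 (L l137 (L l361 (T t100 (L l137 (T t50 N))))))))) (K a149 (M a48 (F (T t132 (L l220 (L l511 (T t873 (L l137 (L l220 (T t50 N))))))))) (K a213 (Fr a170 a255 l476 (Fr a42 a21 l68 (Fr a106 a234 l390 (Fr a192 a149 l519 (V t581))))) (K a42 (M a48 (F (L l403 (L l469 (T t364 (L l137 (L l390 (T t50 (L l28 (L l137 (L l361 (T t100 N)))))))))))) (K a106 (M a48 (F (T t48 (L l97 (L l104 (L l361 (T t509 (L l137 (L l390 (T t50 N)))))))))) (K a170 (M a48 (F (T t607 (L l137 (L l361 (L l404 (T t100 (L l390 (T t51 (L l361 (L l390 (L l404 (T t568 N))))))))))))) (K a255 (M a15 (F (T t1254 (L l137 (L l266 (L l361 (T t1497 (L l266 (L l296 (T t1484 (L l266 (L l296 (T t1926 N)))))))))))))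 N)))))))))))))))))⟩
def e0_63__95_62 : Ent 4 := ⟨[a0, a63], [a95, a106], (M a12 (F (T t122 (L l390 (L l408 (T t151 (L l501 (T t152 (L l390 (T t153 (K a4 (M a60 (F (T t1413 (L l46 (L l50 (L l393 (T t67 (L l390 (L l408 (T t448 N)))))))))) (K a8 (M a60 (F (T t68 (L l469 (T t398 (L l52 (L l56 (L l390 (L l408 (T t448 N)))))))))) (K a21 (M a255 (F (T t2486 (L l390 (T t2137 (L l50 (L l94 (L l144 (L l347 (L l408 (T t2487 N))))))))))) (K a25 (M a48 (F (T t550 (L l15 (L l469 (T t1 (L l12 (L l56 (L l390 (L l498 (T t866 N))))))))))) (K a29 (M a48 (F (T t550 (L l15 (L l469 (T t1 (L l390 (L l498 (T t866 N))))))))) (K a38 (M a48 (F (T t1580 (L l26 (L l390 (L l469 (L l498 (T t2 (L l21 (L l50 (T t868 N))))))))))) (K a42 (M a170 (F (T t2497 (L l94 (L l144 (T t2498 (L l26 (L l132 (L l144 (L l408 (T t2499 (L l26 (L l89 (L l408 (T t2500 N))))))))))))))) (K a46 (M a48 (L l408 (F (T t443 (L l469 (T t1 (L l26 (L l390 (L l498 (T t866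 (K a226 (M a166 (F (T t2748 (L l469 (T t1 N))))) (K a166 (M a226 (F (T t1580 (L l26 (L l390 (L l469 (L l498 (T t2 (L l26 (L l390 (L l498 (T t866 N)))))))))))) N)))))))))))) (K a51 (M a16 (F (T t2517 (L l73 (L l361 (L l390 (L l469 (T t97 (L l390 (L l408 (T t872 N))))))))))) N)))))))))))))))))))⟩
def e0_63__95_63 : Ent 4 := ⟨[a0, a63], [a95, a107], (M a60 (F (T t43 (L l391 (T t67 (T t68 (T t69 (K a20 (M a48 (F (T t64 (L l11 (L l469 (T t1 (L l11 (T t235 N)))))))) (K a40 (M a48 (F (T t64 (L l469 (T t1 (L l52 (T t235 N))))))) (K a21 (M a192 (F (T t77 (L l98 (T t1516 (L l137 (L l143 (L l347 (T t74 N))))))))) (K a41 (M a192 (F (T t77 (L l65 (L l469 (T t35 (L l98 (T t1516 N)))))))) (K a61 (M a192 (F (T t79 (L l65 (L l469 (L l515 (T t35 (L l98 (T t2718 N))))))))) (K a22 (M a192 (F (T t77 (L l137 (L l143 (L l469 (T t21 (L l66 (L l98 (T t1516 N)))))))))) (K a42 (M a192 (F (T t77 (L l66 (L l98 (L l390 (T t1516 (L l22 (L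 l137 (L l143 (T t74 N))))))))))) (K a62 (M a192 (F (T t77 (L l469 (T t35 (L l66 (L l98 (L l516 (T t2718 N))))))))) (K a3 (M a106 (F (T t2792 (T t1513 N)))) N))))))))))))))))⟩
def e0_63__95_64 : Ent 4 := ⟨[a0, a63], [a95, a111], (M a12 (L l137 (F (T t122 (T t151 (T t152 (T t153 (K a4 (M a15 (L l137 (F (T t716 (L l397 (T t2544 (L l1 (L l50 (T t2545 (K a79 (M a127 (F (T t715 (L l84 (T t1158 N))))) (K a127 (M a79 (F (T t2576 (L l144 (T t4501 N))))) N))))))))))) (K a8 (M a15 (L l137 (F (T t731 (L l397 (T t2544 (T t2545 (K a79 (M a127 (F (T t715 (L l84 (L l464 (T t1158 N)))))) (K a127 (M a79 (F (T t2576 (L l144 (L l320 (T t4501 N)))))) N))))))))) (K a21 (M a192 (L l137 (F (T t156 (L l15 (L l347 (T t450 (L l15 (L l347 (T t157 (K a79 (M a127 (F (T t3693 (L l79 (T t1168 N))))) (K a127 (M a79 (F (T t468 (L l113 (L l347 (T t467 (L l50 (L l104 (L l144 (T t2473 N)))))))))) N)))))))))))) (K a25 (M a13 (L l137 (F (T t3911 (T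 t3914 (L l53 (L l56 (T t3915 (K a79 (M a127 (F (T t3911 (L l84 (T t1158 N))))) (K a127 (M a79 (F (T t4502 (L l53 (L l56 (T t3915 N)))))) N)))))))))) (K a29 (M a15 (L l137 (F (T t2591 (T t716 (L l59 (L l397 (T t722 (K a79 (M a127 (F (T t3936 (L l84 (T t1158 N))))) (K a127 (M a79 (F (T t716 (L l138 (T t4503 N))))) N)))))))))) (K a38 (M a15 (L l137 (F (T t717 (L l26 (T t716 (L l26 (L l397 (T t2544 (K a79 (M a127 (F (T t3936 (L l84 (T t1158 N))))) (K a127 (M a79 (F (T t2576 (L l144 (T t4501 N))))) N))))))))))) (K a42 (M a192 (L l137 (F (T t449 (T t450 (L l56 (T t157 (K a79 (M a127 (F (T t1170 (L l79 (T t1168 N))))) (K a127 (M a79 (F (T t450 (L l56 (T t468 (L l26 (L l104 (L l144 (L l390 (T t2473 N)))))))))) N))))))))) (K a46 (M a15 (L l137 (F (T t731 (T t717 (L l23 (L l26 (L l397 (T t722 (K a79 (M a127 (F (T t3936 (L l84 (T t1158 N))))) (K a127 (M a79 (F (T t731 (L l138 (T t4503 N))))) N))))))))))) (K a51 (M a13 (L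 l137 (F (T t4311 (L l39 (T t3911 (T t3915 (K a79 (M a127 (F (T t4504 (L l79 (L l513 (T t1168 N)))))) (K a127 (M a79 (F (T t4502 (T t3915 N)))) N))))))))) (K a79 (M a127 (F (T t151 (L l79 (T t1168 (L l84 (T t1158 N))))))) (K a127 (M a79 (F (T t122 (T t151 (T t152 (T t153 (K a4 (M a13 (F (T t4502 (L l1 (T t3915 N))))) (K a8 (M a13 (F (T t4502 (L l56 (T t3915 N))))) (K a21 (M a64 (F (T t4505 (L l104 (T t4506 N))))) (K a25 (M a64 (F (T t4507 (L l104 (T t4506 N))))) (K a29 (M a15 (F (T t716 (L l138 (T t4503 N))))) (K a38 (M a64 (F (T t4505 (L l104 (T t4506 N))))) (K a42 (M a64 (F (T t4507 (L l104 (L l390 (T t4506 N)))))) (K a46 (M a15 (F (T t731 (L l138 (T t4503 N))))) (K a51 (M a64 (F (L l487 (T t4505 (L l104 (L l415 (T t4506 N))))))) N))))))))))))))) N))))))))))))))))))⟩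
def e0_63__95_65 : Ent 4 := ⟨[a0, a63], [a95, a112], (M a12 (F (T t122 (T t151 (T t152 (T t153 (K a4 (M a60 (F (T t43 (L l469 (T t398 (T t448 N)))))) (K a8 (M a60 (F (T t67 (L l469 (T t398 (L l52 (L l56 (T t448 N)))))))) (K a21 (M a192 (F (T t468 (L l15 (L l347 (T t450 (L l15 (L l347 (T t157 N))))))))) (K a25 (M a192 (F (T t449 (L l15 (T t450 (L l114 (L l137 (L l469 (T t21 N))))))))) (K a29 (M a192 (F (T t449 (L l114 (L l137 (L l371 (L l469 (T t21 (T t160 N))))))))) (K a38 (M a192 (F (T t468 (T t450 (L l114 (L l137 (L l469 (T t21 N)))))))) (K a42 (M a192 (F (T t449 (T t450 (L l56 (T t157 N)))))) (K a46 (M a192 (F (T t449 (L l114 (L l137 (L l469 (T t21 (L l26 (L l408 (T t160 N)))))))))) (K a51 (M a192 (F (T t57 (L l146 (L l513 (T t156 (L l415 (T t450 N)))))))) N)))))))))))))))⟩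
def e0_63__95_66 : Ent 4 := ⟨[a0, a63], [a95, a113], (M a85 (F (T t88 (L l137 (L l469 (T t52 (T t89 (T t90 (K a64 (M a252 (F (T t93 (L l93 (T t92 N))))) (K a192 (M a16 (F (T t112 (T t1924 (L l296 (T t1925 N)))))) (K a21 (M a48 (F (T t873 (L l47 (L l137 (L l361 (T t100 (L l111 (L l137 (T t50 N)))))))))) (K a149 (M a48 (F (T t132 (L l220 (T t873 (L l111 (L l137 (L l220 (T t50 N))))))))) (K a213 (Fr a170 a255 l476 (Fr a42 a21 l68 (Fr a106 a234 l390 (Fr a192 a149 l519 (V t581))))) (K a42 (M a48 (F (L l469 (T t365 (L l111 (L l137 (L l390 (T t50 (L l28 (L l137 (L l361 (T t100 N)))))))))))) (K a106 (M a48 (F (T t48 (L l104 (L l147 (L l361 (T t509 (L l111 (L l137 (L l390 (T t50 N))))))))))) (K a170 (M a48 (F (T t607 (L l137 (L l361 (L l404 (T t100 (L l111 (L l390 (T t51 (L l361 (L l390 (L l404 (T t568 N)))))))))))))) (K a255 (M a15 (F (T t1254 (L l137 (L l266 (L l361 (T t1497 (L l266 (L l296 (T t1484 (L l266 (L l296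 (T t1926 N))))))))))))) N)))))))))))))))))⟩
def e0_63__95_67 : Ent 4 := ⟨[a0, a63], [a95, a114], (M a85 (F (T t88 (L l137 (L l469 (T t52 (T t89 (T t90 (K a64 (M a252 (F (T t93 (L l93 (T t92 N))))) (K a192 (M a16 (F (T t112 (T t1924 (L l148 (L l296 (T t1925 N))))))) (K a21 (M a48 (F (T t873 (L l47 (L l137 (L l361 (T t100 (L l137 (L l417 (T t50 N)))))))))) (K a149 (M a48 (F (T t132 (L l220 (T t873 (L l137 (L l220 (L l417 (T t50 N))))))))) (K a213 (Fr a170 a255 l476 (Fr a42 a21 l68 (Fr a106 a234 l390 (Fr a192 a149 l519 (V t581))))) (K a42 (M a48 (F (L l469 (T t364 (L l137 (L l390 (L l417 (T t50 (L l28 (L l137 (L l361 (T t100 N)))))))))))) (K a106 (M a48 (F (T t48 (L l104 (L l361 (T t509 (L l137 (L l390 (L l417 (T t50 N)))))))))) (K a170 (M a48 (F (T t607 (L l137 (L l361 (L l404 (T t100 (L l390 (T t51 (L l361 (L l390 (L l404 (T t568 N))))))))))))) (K a255 (M a15 (F (T t1254 (L l137 (L l266 (L l361 (T t1497 (L l266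 (L l296 (T t1484 (L l266 (L l296 (L l417 (T t1926 N)))))))))))))) N)))))))))))))))))⟩
def e0_63__95_68 : Ent 4 := ⟨[a0, a63], [a95, a115], (M a60 (F (T t67 (T t43 (T t68 (T t69 (K a20 (M a48 (F (T t138 (L l11 (L l469 (T t1 (L l11 (T t235 N)))))))) (K a40 (M a48 (F (T t48 (L l415 (T t64 (L l52 (T t235 N))))))) (K a21 (M a192 (F (T t72 (L l347 (T t73 (L l113 (L l137 (L l347 (T t74 N))))))))) (K a41 (M a192 (F (T t79 (L l65 (L l469 (T t35 (T t73 N))))))) (K a61 (M a192 (F (T t72 (L l65 (L l469 (L l515 (T t35 (T t80 N)))))))) (K a22 (M a192 (F (T t72 (L l113 (L l137 (L l469 (T t21 (T t73 N)))))))) (K a42 (M a192 (F (T t79 (T t73 (L l22 (L l113 (L l137 (T t74 N)))))))) (K a62 (M a192 (F (T t72 (L l469 (T t35 (L l66 (L l516 (T t80 N)))))))) (K a3 (M a192 (F (T t1343 (L l477 (T t79 (L l469 (L l475 (T t35 N)))))))) N)))))))))))))))⟩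
def e0_63__95_69 : Ent 4 := ⟨[a0, a63], [a95, a117], (M a12 (F (T t122 (T t151 (T t152 (T t153 (K a4 (M a60 (F (T t43 (L l469 (T t398 (T t448 N)))))) (K a8 (M a60 (F (T t67 (L l469 (T t398 (L l52 (L l56 (T t448 N)))))))) (K a21 (M a192 (F (T t836 (L l15 (L l347 (T t450 (L l15 (L l347 (L l422 (T t157 N)))))))))) (K a25 (M a192 (F (T t449 (L l15 (T t450 (L l114 (L l137 (L l440 (L l469 (T t21 N)))))))))) (K a29 (M a192 (F (T t449 (L l114 (L l137 (L l371 (L l440 (L l469 (T t21 (T t160 N)))))))))) (K a38 (M a192 (F (T t836 (T t450 (L l114 (L l137 (L l440 (L l469 (T t21 N))))))))) (K a42 (M a192 (F (T t449 (T t450 (L l56 (L l422 (T t157 N))))))) (K a46 (M a192 (F (T t449 (L l114 (L l137 (L l440 (L l469 (T t21 (L l26 (L l408 (T t160 N))))))))))) (K a51 (M a192 (F (T t1681 (L l513 (T t156 (L l415 (T t450 N))))))) N)))))))))))))))⟩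
def e0_63__95_70 : Ent 4 := ⟨[a0, a63], [a95, a118], (M a85 (F (T t88 (L l137 (L l469 (T t52 (T t89 (T t90 (K a64 (M a204 (F (T t1575 (L l107 (T t1576 N))))) (K a192 (M a16 (F (T t112 (L l438 (T t1924 (L l296 (T t1925 N))))))) (K a21 (M a48 (F (L l361 (T t509 (L l107 (L l137 (T t50 (L l47 (L l137 (L l361 (T t100 N))))))))))) (K a149 (M a48 (F (T t132 (L l220 (L l438 (T t873 (L l107 (L l137 (L l220 (T t50 N)))))))))) (K a213 (Fr a170 a255 l476 (Fr a42 a21 l68 (Fr a106 a234 l390 (Fr a192 a149 l519 (V t581))))) (K a42 (M a48 (F (L l469 (T t365 (L l107 (L l137 (L l390 (T t50 (L l28 (L l137 (L l361 (T t100 N)))))))))))) (K a106 (M a48 (F (T t48 (L l104 (L l361 (T t509 (L l107 (L l137 (L l390 (T t50 N)))))))))) (K a170 (M a48 (F (T t607 (L l137 (L l361 (L l404 (T t100 (L l107 (L l390 (T t51 (L l361 (L l390 (L l404 (T t568 N)))))))))))))) (K a255 (M a15 (F (T t1254 (L l137 (L l266 (L l361 (T t1497 (L l266 (L l296 (T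 t1484 (L l266 (L l296 (T t1926 N))))))))))))) N)))))))))))))))))⟩
def e0_63__95_71 : Ent 4 := ⟨[a0, a63], [a95, a119], (M a60 (F (T t67 (T t43 (T t68 (T t69 (K a20 (M a48 (F (T t138 (L l11 (L l469 (T t1 (L l11 (T t235 N)))))))) (K a40 (M a48 (F (T t48 (L l439 (T t64 (L l52 (T t235 N))))))) (K a21 (M a192 (F (T t72 (L l347 (T t73 (L l113 (L l137 (L l347 (T t74 N))))))))) (K a41 (M a192 (F (T t77 (L l65 (L l439 (L l469 (T t35 (T t73 N)))))))) (K a61 (M a192 (F (T t72 (L l65 (L l439 (L l469 (L l515 (T t35 (T t80 N))))))))) (K a22 (M a192 (F (T t72 (L l113 (L l137 (L l439 (L l469 (T t21 (T t73 N))))))))) (K a42 (M a192 (F (T t79 (T t73 (L l22 (L l113 (L l137 (T t74 N)))))))) (K a62 (M a192 (F (T t72 (L l439 (L l469 (T t35 (L l66 (L l516 (T t80 N))))))))) (K a3 (M a192 (F (T t614 (L l477 (T t79 (L l439 (L l469 (L l475 (T t35 N))))))))) N)))))))))))))))⟩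
def e0_63__95_72 : Ent 4 := ⟨[a0, a63], [a95, a122], (M a12 (F (T t122 (T t151 (L l429 (T t152 (T t153 (K a4 (M a60 (F (T t43 (L l469 (T t398 (T t448 N)))))) (K a8 (M a60 (F (T t67 (L l469 (T t398 (L l52 (L l56 (T t448 N)))))))) (K a21 (M a192 (F (T t836 (L l15 (L l347 (T t450 (L l15 (L l347 (T t157 N))))))))) (K a25 (M a192 (F (T t449 (L l15 (T t450 (L l114 (L l137 (L l469 (T t21 N))))))))) (K a29 (M a192 (F (T t449 (L l114 (L l137 (L l371 (L l469 (T t21 (L l130 (T t160 N)))))))))) (K a38 (M a192 (F (T t836 (T t450 (L l114 (L l137 (L l469 (T t21 N)))))))) (K a42 (M a192 (F (T t449 (T t450 (L l56 (T t157 N)))))) (K a46 (M a192 (F (T t449 (L l114 (L l137 (L l469 (T t21 (L l26 (L l130 (L l408 (T t160 N))))))))))) (K a51 (M a192 (F (T t57 (L l513 (T t156 (L l415 (T t450 N))))))) N))))))))))))))))⟩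
def e0_63__95_73 : Ent 4 := ⟨[a0, a63], [a95, a123], (M a12 (F (T t122 (T t151 (L l427 (T t152 (T t153 (K a4 (M a60 (F (T t43 (L l469 (T t398 (T t448 N)))))) (K a8 (M a60 (F (T t67 (L l469 (T t398 (L l52 (L l56 (T t448 N)))))))) (K a21 (M a192 (F (L l132 (T t221 (T t156 (L l15 (L l347 (T t157 N)))))))) (K a25 (M a192 (F (T t449 (L l132 (T t221 (L l113 (L l137 (L l469 (T t21 N))))))))) (K a29 (M a192 (F (T t449 (L l113 (L l137 (L l371 (L l469 (T t21 (L l132 (T t2539 N)))))))))) (K a38 (M a192 (F (T t156 (L l26 (L l132 (T t221 (L l113 (L l137 (L l469 (T t21 N)))))))))) (K a42 (M a192 (F (T t449 (L l26 (L l132 (L l390 (T t221 (L l56 (T t157 N))))))))) (K a46 (M a192 (F (T t449 (L l113 (L l137 (L l469 (T t21 (L l26 (L l132 (L l408 (T t2539 N))))))))))) (K a51 (M a192 (F (T t57 (L l513 (T t156 (L l132 (L l415 (T t221 N)))))))) N))))))))))))))))⟩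
def e0_63__95_74 : Ent 4 := ⟨[a0, a63], [a95, a127], (M a60 (L l137 (F (T t67 (T t43 (T t68 (T t69 (K a20 (M a48 (L l137 (F (T t64 (L l11 (L l469 (T t1 (L l11 (T t235 (K a79 (M a111 (F (T t451 (L l84 (L l151 (L l361 (L l469 (T t4508 N)))))))) (K a111 (M a79 (F (T t451 (L l469 (T t2 (L l11 (T t235 N))))))) N))))))))))) (K a40 (M a48 (L l137 (F (T t64 (L l469 (T t1 (L l52 (T t235 (K a79 (M a111 (F (T t70 (L l84 (L l151 (L l361 (L l469 (T t4508 N)))))))) (K a111 (M a79 (F (T t70 (L l22 (L l469 (T t2 (L l52 (T t235 N)))))))) N)))))))))) (K a21 (M a192 (L l137 (F (T t72 (L l143 (L l347 (T t73 (L l11 (L l144 (T t1541 (K a79 (M a111 (F (T t72 (L l347 (L l361 (T t2971 N)))))) (K a111 (M a79 (F (T t72 (L l65 (L l347 (T t569 (L l11 (L l104 (L l144 (T t1541 N)))))))))) N)))))))))))) (K a41 (M a192 (L l137 (F (T t79 (L l143 (T t73 (L l22 (L l144 (L l469 (T t37 (K a79 (M a111 (F (T t79 (L l361 (T t2971 N))))) (K a111 (M a79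 (F (T t79 (L l65 (T t569 (L l22 (L l104 (L l144 (L l469 (T t37 N)))))))))) N)))))))))))) (K a61 (M a192 (L l137 (F (T t72 (L l144 (L l469 (T t37 (L l65 (L l143 (L l515 (T t2549 (K a79 (M a111 (F (T t72 (L l361 (L l515 (T t2971 N)))))) (K a111 (M a79 (F (T t72 (L l104 (L l144 (L l469 (T t37 (L l65 (L l103 (L l143 (L l515 (T t2549 N)))))))))))) N))))))))))))) (K a22 (M a192 (L l137 (F (T t72 (L l66 (L l144 (L l469 (T t37 (L l143 (T t73 (K a79 (M a111 (F (T t569 (L l84 (L l325 (L l361 (L l469 (T t4509 N)))))))) (K a111 (M a79 (F (T t569 (L l109 (T t77 (L l66 (L l104 (L l144 (L l469 (T t37 N)))))))))) N)))))))))))) (K a42 (M a192 (L l137 (F (T t79 (L l143 (T t73 (L l66 (L l144 (L l390 (T t1541 (K a79 (M a111 (F (T t79 (L l361 (T t2971 N))))) (K a111 (M a79 (F (T t569 (L l109 (T t77 (L l66 (L l104 (L l144 (L l390 (T t1541 N)))))))))) N)))))))))))) (K a62 (M a192 (L l137 (F (T t72 (L l66 (L l144 (L l469 (L l516 (T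 t37 (L l143 (T t2549 (K a79 (M a111 (F (T t72 (L l361 (T t2971 N))))) (K a111 (M a79 (F (T t72 (L l66 (L l104 (L l144 (L l469 (L l516 (T t37 (L l103 (L l143 (T t2549 N)))))))))))) N))))))))))))) (K a3 (M a192 (L l137 (F (T t237 (L l477 (T t79 (L l144 (L l469 (L l475 (T t37 (K a79 (M a111 (F (T t1334 (L l45 (L l361 (T t2971 N)))))) (K a111 (M a79 (F (T t1334 (L l307 (T t569 (L l104 (L l144 (L l469 (L l475 (T t37 N)))))))))) N)))))))))))) (K a79 (M a111 (F (T t67 (L l361 (T t1564 (L l361 (T t2972 (K a61 (M a192 (F (T t72 (L l361 (L l515 (T t2971 N)))))) N)))))))) (K a111 (M a79 (F (T t67 (T t43 (T t68 (T t69 (K a20 (M a15 (F (T t4510 (L l144 (T t4501 N))))) (K a40 (M a15 (F (T t4510 (L l144 (T t4501 N))))) (K a21 (M a124 (F (T t4511 (L l89 (L l361 (T t4512 N)))))) (K a41 (M a124 (F (L l144 (T t1133 (L l89 (L l361 (T t4512 N))))))) (K a61 (M a15 (F (T t1032 (L l65 (T t4513 N))))) (K a22 (M a124 (F (T t4511 (L l66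 (L l89 (L l361 (T t4512 N))))))) (K a42 (M a124 (F (L l144 (T t1133 (L l66 (L l89 (L l361 (T t4512 N)))))))) (K a62 (M a15 (F (T t1032 (L l60 (T t4513 N))))) (K a3 (M a124 (F (T t4511 (L l89 (L l331 (L l361 (T t4512 N))))))) N))))))))))))))) N))))))))))))))))))⟩
def e0_63__95_75 : Ent 4 := ⟨[a0, a63], [a95, a128], (M a12 (F (T t122 (T t151 (T t152 (T t153 (K a4 (M a60 (F (T t43 (L l469 (T t398 (T t448 N)))))) (K a8 (M a60 (F (T t67 (L l469 (T t398 (L l52 (L l56 (T t448 N)))))))) (K a21 (M a166 (F (T t2793 (L l469 (T t2543 (L l15 (T t2541 N))))))) (K a25 (M a48 (F (T t550 (L l15 (L l469 (T t1 (L l12 (L l56 (T t866 N))))))))) (K a29 (M a48 (F (T t550 (L l15 (L l469 (T t1 (T t866 N))))))) (K a38 (M a48 (F (T t1580 (L l26 (L l469 (T t2 (L l21 (L l50 (T t868 N))))))))) (K a42 (M a166 (F (T t2542 (L l56 (L l469 (T t2543 (L l56 (T t2541 N)))))))) (K a46 (M a48 (F (T t443 (L l469 (T t1 (L l26 (T t866 N))))))) (K a51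 (M a16 (F (T t112 (L l39 (T t871 (T t872 N)))))) N)))))))))))))))⟩
def e0_63__95_76 : Ent 4 := ⟨[a0, a63], [a95, a129], (M a12 (F (T t122 (T t151 (T t152 (T t153 (K a4 (M a60 (F (T t570 (L l46 (L l50 (L l309 (T t67 (T t448 N)))))))) (K a8 (M a60 (F (T t116 (L l469 (T t398 (L l52 (L l56 (T t448 N)))))))) (K a21 (M a192 (F (T t836 (L l15 (L l217 (L l347 (T t450 (L l15 (L l217 (L l347 (T t157 N))))))))))) (K a25 (M a192 (F (T t449 (L l15 (L l217 (T t450 (L l137 (L l152 (L l217 (L l469 (T t21 N))))))))))) (K a29 (M a192 (F (T t449 (L l137 (L l152 (L l217 (L l371 (L l469 (T t21 (T t160 N)))))))))) (K a38 (M a192 (F (T t836 (L l217 (T t450 (L l137 (L l152 (L l217 (L l469 (T t21 N)))))))))) (K a42 (M a192 (F (T t449 (L l217 (T t450 (L l56 (L l217 (T t157 N)))))))) (K a46 (M a192 (F (T t449 (L l137 (L l152 (L l217 (L l469 (T t21 (L l26 (L l408 (T t160 N))))))))))) (K a51 (M a192 (F (T t1681 (L l152 (L l513 (T t156 (L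 l217 (L l415 (T t450 N))))))))) N)))))))))))))))⟩
def e0_63__95_77 : Ent 4 := ⟨[a0, a63], [a95, a130], (M a85 (F (T t88 (L l137 (L l469 (T t52 (T t89 (L l218 (T t90 (K a64 (M a252 (F (L l218 (T t93 (L l93 (T t92 N)))))) (K a192 (M a16 (F (T t112 (L l218 (T t1924 (L l296 (T t1925 N))))))) (K a21 (M a48 (F (L l361 (T t509 (L l137 (L l218 (T t50 (L l47 (L l137 (L l361 (T t100 N))))))))))) (K a149 (M a48 (F (T t132 (L l218 (L l220 (T t873 (L l137 (L l218 (L l220 (T t50 N)))))))))) (K a213 (Fr a170 a255 l476 (Fr a42 a21 l68 (Fr a106 a234 l390 (Fr a192 a149 l519 (V t581))))) (K a42 (M a48 (F (L l469 (T t364 (L l137 (L l218 (L l390 (T t50 (L l28 (L l137 (L l361 (T t100 N)))))))))))) (K a106 (M a48 (F (T t48 (L l104 (L l361 (T t509 (L l137 (L l218 (L l390 (T t50 N)))))))))) (K a170 (M a150 (F (L l390 (T t1961 (L l137 (L l306 (L l392 (T t1960 (L l390 (L l392 (T t1962 (L l390 (L l392 (T t1963 (L l392 (T t1964 N))))))))))))))))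 (K a255 (M a15 (F (T t1254 (L l137 (L l266 (L l361 (T t1497 (L l266 (L l296 (T t1484 (L l266 (L l296 (T t1926 N))))))))))))) N))))))))))))))))))⟩
def e0_63__95_78 : Ent 4 := ⟨[a0, a63], [a95, a131], (M a85 (F (T t88 (L l137 (L l469 (T t52 (T t89 (L l219 (T t90 (K a64 (M a252 (F (T t93 (L l93 (T t92 N))))) (K a192 (M a16 (F (T t112 (T t1924 (L l296 (T t1925 N)))))) (K a21 (M a48 (F (T t873 (L l47 (L l137 (L l361 (T t100 (L l137 (L l197 (T t50 N)))))))))) (K a149 (M a48 (F (T t132 (L l220 (T t873 (L l137 (L l197 (L l220 (T t50 N))))))))) (K a213 (Fr a170 a255 l476 (Fr a42 a21 l68 (Fr a106 a234 l390 (Fr a192 a149 l519 (V t581))))) (K a42 (M a48 (F (L l469 (T t364 (L l137 (L l197 (L l390 (T t50 (L l28 (L l137 (L l361 (T t100 N)))))))))))) (K a106 (M a48 (F (T t48 (L l104 (L l361 (T t509 (L l137 (L l197 (L l390 (T t50 N)))))))))) (K a170 (M a48 (F (T t607 (L l137 (L l361 (L l404 (T t100 (L l390 (T t51 (L l361 (L l390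 (L l404 (T t568 N))))))))))))) (K a255 (M a15 (F (T t1254 (L l137 (L l266 (L l361 (T t1497 (L l266 (L l296 (T t1484 (L l266 (L l296 (T t1926 N))))))))))))) N))))))))))))))))))⟩
def e0_63__95_79 : Ent 4 := ⟨[a0, a63], [a95, a133], (M a12 (F (T t122 (T t151 (T t152 (T t153 (K a4 (M a60 (F (T t43 (L l339 (L l469 (T t398 (T t448 N))))))) (K a8 (M a60 (F (T t67 (L l339 (L l469 (T t398 (L l52 (L l56 (T t448 N))))))))) (K a21 (M a192 (F (T t836 (L l15 (L l199 (L l347 (T t450 (L l15 (L l199 (L l347 (T t157 N))))))))))) (K a25 (M a192 (F (T t836 (L l15 (L l199 (T t450 (L l137 (L l160 (L l199 (L l469 (T t21 N))))))))))) (K a29 (M a192 (F (T t836 (L l137 (L l160 (L l199 (L l371 (L l469 (T t21 (T t160 N)))))))))) (K a38 (M a192 (F (T t836 (L l199 (T t450 (L l137 (L l160 (L l199 (L l469 (T t21 N)))))))))) (K a42 (M a192 (F (T t836 (L l199 (T t450 (L l56 (L l199 (T t157 N)))))))) (K a46 (M a192 (F (T t836 (L l137 (L l160 (L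 l199 (L l469 (T t21 (L l26 (L l408 (T t160 N))))))))))) (K a51 (M a192 (F (T t1681 (L l153 (L l160 (L l513 (T t156 (L l199 (L l415 (T t450 N)))))))))) N)))))))))))))))⟩
def e0_63__95_80 : Ent 4 := ⟨[a0, a63], [a95, a134], (M a85 (F (T t88 (L l137 (L l469 (T t52 (T t89 (T t90 (K a64 (M a252 (F (T t93 (L l93 (T t92 N))))) (K a192 (M a16 (F (T t112 (L l314 (T t1924 (L l296 (T t1925 N))))))) (K a21 (M a48 (F (L l361 (T t261 (L l137 (T t50 (L l47 (L l137 (L l361 (T t100 N)))))))))) (K a149 (M a48 (F (T t132 (L l220 (L l314 (T t873 (L l137 (L l220 (T t50 N))))))))) (K a213 (Fr a170 a255 l476 (Fr a42 a21 l68 (Fr a106 a234 l390 (Fr a192 a149 l519 (V t581))))) (K a42 (M a48 (F (L l469 (T t364 (L l137 (L l390 (T t50 (L l28 (L l137 (L l361 (T t100 N))))))))))) (K a106 (M a48 (F (T t48 (L l104 (L l314 (L l361 (T t509 (L l137 (L l390 (T t50 N)))))))))) (K a170 (M a48 (F (T t607 (L l137 (L l361 (L l404 (T t100 (L l390 (T t51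 (L l361 (L l390 (L l404 (T t568 N))))))))))))) (K a255 (M a15 (F (T t1254 (L l137 (L l266 (L l361 (T t1497 (L l153 (L l266 (L l296 (T t1484 (L l266 (L l296 (T t1926 N)))))))))))))) N)))))))))))))))))⟩
def e0_63__95_81 : Ent 4 := ⟨[a0, a63], [a95, a135], (M a85 (F (T t88 (L l137 (L l469 (T t52 (T t89 (T t90 (K a64 (M a252 (F (T t93 (L l93 (T t92 N))))) (K a192 (M a16 (F (T t1924 (T t112 (L l296 (T t1925 N)))))) (K a21 (M a48 (F (T t873 (L l47 (L l137 (L l361 (T t100 (L l137 (T t50 N))))))))) (K a149 (M a48 (F (T t132 (L l220 (T t873 (L l137 (L l220 (T t50 N)))))))) (K a213 (Fr a170 a255 l476 (Fr a42 a21 l68 (Fr a106 a234 l390 (Fr a192 a149 l519 (V t581))))) (K a42 (M a48 (F (L l469 (T t364 (L l137 (L l390 (T t50 (L l28 (L l137 (L l361 (T t100 N))))))))))) (K a106 (M a48 (F (T t48 (L l104 (L l361 (T t509 (L l137 (L l390 (T t50 N))))))))) (K a170 (M a48 (F (T t607 (L l137 (L l361 (L l404 (T t100 (L l390 (T t51 (L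 l361 (L l390 (L l404 (T t568 N))))))))))))) (K a255 (M a15 (F (T t1254 (L l137 (L l266 (L l361 (T t1497 (L l153 (L l266 (L l296 (T t1484 (L l266 (L l296 (T t1926 N)))))))))))))) N)))))))))))))))))⟩
def e0_63__95_82 : Ent 4 := ⟨[a0, a63], [a95, a138], (M a60 (F (T t67 (T t43 (L l330 (T t68 (T t69 (K a20 (M a48 (F (T t64 (L l11 (L l318 (L l469 (T t1 (L l11 (L l330 (T t235 N)))))))))) (K a40 (M a48 (F (T t64 (L l318 (L l469 (T t1 (L l52 (L l330 (T t235 N))))))))) (K a21 (M a192 (F (T t72 (L l347 (T t73 (L l137 (L l160 (L l347 (T t74 N))))))))) (K a41 (M a192 (F (T t79 (L l65 (L l469 (T t35 (T t73 N))))))) (K a61 (M a192 (F (T t72 (L l65 (L l469 (L l515 (T t35 (T t80 N)))))))) (K a22 (M a192 (F (T t72 (L l137 (L l160 (L l469 (T t21 (T t73 N)))))))) (K a42 (M a192 (F (T t79 (T t73 (L l22 (L l137 (L l160 (T t74 N)))))))) (K a62 (M a192 (F (T t72 (L l469 (T t35 (L l66 (L l516 (T t80 N)))))))) (K a3 (M a192 (F (T t1681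 (L l477 (T t79 (L l307 (T t73 N))))))) N))))))))))))))))⟩
def e0_63__95_83 : Ent 4 := ⟨[a0, a63], [a95, a139], (M a85 (F (T t88 (L l137 (L l469 (T t52 (T t89 (T t90 (K a64 (M a204 (F (T t1575 (L l154 (T t1576 N))))) (K a192 (M a16 (F (T t112 (T t1924 (L l296 (T t1925 N)))))) (K a21 (M a48 (F (T t1243 (L l47 (L l137 (L l361 (T t100 (L l137 (T t50 N))))))))) (K a149 (M a48 (F (T t132 (L l220 (L l331 (T t873 (L l137 (L l220 (T t50 N))))))))) (K a213 (Fr a170 a255 l476 (Fr a42 a21 l68 (Fr a106 a234 l390 (Fr a192 a149 l519 (V t581))))) (K a42 (M a48 (F (L l469 (T t364 (L l137 (L l390 (T t50 (L l28 (L l137 (L l361 (T t100 N))))))))))) (K a106 (M a48 (F (T t48 (L l104 (L l361 (T t509 (L l137 (L l390 (T t50 N))))))))) (K a170 (M a48 (F (T t607 (L l137 (L l361 (L l404 (T t100 (L l390 (T t51 (L l361 (L l390 (L l404 (T t568 N))))))))))))) (K a255 (M a15 (F (T t1254 (L l137 (L l266 (L l361 (T t1497 (L l266 (L l296 (T t1484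 (L l266 (L l296 (T t1926 N))))))))))))) N)))))))))))))))))⟩
def e0_63__95_84 : Ent 4 := ⟨[a0, a63], [a95, a143], (M a85 (F (T t88 (L l137 (L l469 (T t52 (T t89 (L l213 (T t90 (K a64 (M a16 (F (T t112 (L l84 (T t1924 (L l116 (T t1925 N))))))) (K a192 (M a16 (F (T t1924 (T t112 (L l296 (T t1925 N)))))) (K a21 (M a48 (F (T t1243 (L l47 (L l137 (L l361 (T t100 (L l47 (T t903 N))))))))) (K a149 (M a48 (F (T t132 (L l220 (T t1243 (L l137 (L l220 (L l227 (T t50 N))))))))) (K a213 (Fr a170 a255 l476 (Fr a42 a21 l68 (Fr a106 a234 l390 (Fr a192 a149 l519 (V t581))))) (K a42 (M a48 (F (L l469 (T t364 (L l390 (T t903 (L l28 (L l137 (L l361 (T t100 N)))))))))) (K a106 (M a48 (F (T t48 (L l104 (L l361 (T t509 (L l137 (L l227 (L l390 (T t50 N)))))))))) (K a170 (M a48 (F (T t607 (L l137 (L l361 (L l404 (T t100 (L l390 (T t51 (L l361 (L l390 (L l404 (T t568 N))))))))))))) (K a255 (M a15 (F (T t1254 (L l137 (L l266 (L l361 (T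 t1497 (L l160 (L l266 (L l296 (T t1484 (L l266 (L l296 (T t1926 N)))))))))))))) N))))))))))))))))))⟩
def e0_63__95_85 : Ent 4 := ⟨[a0, a63], [a95, a144], (M a12 (F (T t122 (T t151 (T t152 (T t153 (K a4 (M a60 (F (T t43 (L l469 (T t398 (T t448 N)))))) (K a8 (M a60 (F (T t67 (L l469 (T t398 (L l52 (L l56 (T t448 N)))))))) (K a21 (M a192 (F (T t836 (L l15 (L l170 (L l347 (T t450 (L l15 (L l170 (L l347 (T t157 N))))))))))) (K a25 (M a192 (F (T t449 (L l15 (L l170 (T t450 (L l137 (L l170 (L l192 (L l469 (T t21 N))))))))))) (K a29 (M a192 (F (T t449 (L l137 (L l170 (L l192 (L l371 (L l469 (T t21 (T t160 N)))))))))) (K a38 (M a192 (F (T t836 (L l170 (T t450 (L l137 (L l170 (L l192 (L l469 (T t21 N)))))))))) (K a42 (M a192 (F (T t449 (L l170 (T t450 (L l56 (L l170 (T t157 N)))))))) (K a46 (M a192 (F (T t449 (L l137 (L l170 (L l192 (L l469 (T t21 (L l26 (L l408 (T t160 N))))))))))) (K a51 (M a192 (F (T t1681 (L l192 (L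 l513 (T t156 (L l170 (L l415 (T t450 N))))))))) N)))))))))))))))⟩
def e0_63__95_86 : Ent 4 := ⟨[a0, a63], [a95, a145], (M a60 (F (T t67 (T t43 (T t68 (T t69 (K a20 (M a48 (F (T t277 (L l11 (L l469 (T t1 (L l11 (T t235 N)))))))) (K a40 (M a48 (F (T t246 (L l469 (T t1 (L l52 (T t235 N))))))) (K a21 (M a192 (F (T t72 (L l167 (L l347 (T t73 (L l137 (L l167 (L l196 (L l347 (T t74 N))))))))))) (K a41 (M a192 (F (T t75 (T t79 (L l65 (L l167 (L l469 (T t35 N)))))))) (K a61 (M a192 (F (T t72 (L l65 (L l167 (L l469 (L l515 (T t35 (T t80 N))))))))) (K a22 (M a192 (F (T t72 (L l137 (L l167 (L l196 (L l469 (T t21 (L l167 (T t73 N)))))))))) (K a42 (M a192 (F (T t1333 (L l167 (T t73 (L l22 (L l137 (L l167 (L l196 (T t74 N)))))))))) (K a62 (M a192 (F (T t72 (L l167 (L l469 (T t35 (L l66 (L l516 (T t80 N))))))))) (K a3 (M a192 (F (T t81 (L l477 (T t79 (L l167 (L l469 (L l475 (T t35 N))))))))) N)))))))))))))))⟩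
def e0_63__95_87 : Ent 4 := ⟨[a0, a63], [a95, a146], (M a85 (F (T t88 (L l137 (L l469 (T t52 (T t89 (T t90 (K a64 (M a252 (F (T t93 (L l93 (T t92 N))))) (K a192 (M a16 (F (T t112 (T t1924 (L l296 (T t1925 N)))))) (K a21 (M a48 (F (T t873 (L l47 (L l137 (L l361 (T t100 (L l137 (L l197 (T t50 N)))))))))) (K a149 (M a48 (F (T t132 (L l220 (T t873 (L l137 (L l197 (L l220 (T t50 N))))))))) (K a213 (Fr a170 a255 l476 (Fr a42 a21 l68 (Fr a106 a234 l390 (Fr a192 a149 l519 (V t581))))) (K a42 (M a48 (F (L l344 (L l469 (T t364 (L l137 (L l197 (L l390 (T t50 (L l28 (L l137 (L l361 (T t100 N))))))))))))) (K a106 (M a48 (F (L l469 (T t1 (L l104 (L l361 (T t509 (L l390 (L l498 (T t51 N)))))))))) (K a170 (M a48 (F (L l344 (T t607 (L l137 (L l361 (L l404 (T t100 (L l390 (T t51 (L l162 (L l361 (L l390 (L l404 (T t568 N))))))))))))))) (K a255 (M a15 (F (T t1254 (L l137 (L l266 (L l361 (T t1497 (L l266 (L l296 (T t1484 (L l266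 (L l296 (T t1926 N))))))))))))) N)))))))))))))))))⟩
def e0_63__95_88 : Ent 4 := ⟨[a0, a63], [a95, a147], (M a85 (F (T t88 (L l137 (L l469 (T t52 (T t89 (T t90 (K a64 (M a252 (F (T t93 (L l93 (T t92 N))))) (K a192 (M a16 (F (T t112 (T t1924 (L l296 (T t1925 N)))))) (K a21 (M a48 (F (T t873 (L l47 (L l137 (L l361 (T t100 (L l137 (T t50 N))))))))) (K a149 (M a48 (F (T t132 (L l220 (T t873 (L l137 (L l220 (T t50 N)))))))) (K a213 (Fr a170 a255 l476 (Fr a42 a21 l68 (Fr a106 a234 l390 (Fr a192 a149 l519 (V t581))))) (K a42 (M a48 (F (L l469 (T t364 (L l137 (L l390 (T t50 (L l28 (L l137 (L l361 (T t100 N))))))))))) (K a106 (M a48 (F (T t48 (L l104 (L l361 (T t509 (L l137 (L l390 (T t50 N))))))))) (K a170 (M a48 (F (T t607 (L l137 (L l361 (L l404 (T t100 (L l390 (T t51 (L l162 (L l361 (L l390 (L l404 (T t568 N)))))))))))))) (K a255 (M a15 (F (T t1254 (L l137 (L l266 (L l361 (T t1497 (L l266 (L l296 (T t1484 (L l266 (L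 l296 (T t1926 N))))))))))))) N)))))))))))))))))⟩
def e0_63__95_89 : Ent 4 := ⟨[a0, a63], [a95, a149], (M a12 (F (T t151 (L l347 (L l371 (T t122 (L l347 (T t152 (L l495 (T t153 (K a4 (M a60 (F (T t69 (L l371 (L l469 (L l515 (T t398 (L l351 (T t448 N))))))))) (K a8 (M a60 (F (T t570 (L l347 (T t67 (L l52 (L l56 (L l351 (T t448 N))))))))) (K a21 (M a85 (F (T t1601 (L l89 (L l137 (L l220 (T t124 (L l15 (L l137 (L l202 (L l220 (L l371 (T t2301 (L l15 (L l371 (T t2302 N)))))))))))))))) (K a25 (M a48 (F (T t550 (L l15 (L l347 (L l469 (L l491 (T t1 (L l12 (L l56 (T t866 N))))))))))) (K a29 (M a48 (L l371 (F (T t550 (L l15 (L l347 (L l469 (L l491 (T t1 (T t866 (K a209 (M a89 (F (T t2567 (L l469 (T t2 N))))) (K a89 (M a209 (F (T t550 (L l469 (T t2 (L l356 (T t866 N))))))) N)))))))))))) (K a38 (M a48 (F (T t1580 (L l26 (L l469 (T t2 (L l21 (L l50 (L l347 (L l491 (T t868 N))))))))))) (K a42 (M a255 (F (L l26 (T t2034 (L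 l89 (L l94 (L l347 (T t2031 (L l56 (L l220 (L l371 (L l390 (T t2032 N))))))))))))) (K a46 (M a48 (F (T t443 (L l347 (L l469 (L l491 (T t1 (L l26 (T t866 N))))))))) (K a51 (M a16 (F (T t112 (L l39 (T t871 (T t872 N)))))) N)))))))))))))))))))⟩
def e0_63__95_90 : Ent 4 := ⟨[a0, a63], [a95, a150], (M a12 (F (T t122 (T t151 (T t152 (T t153 (K a4 (M a60 (F (T t43 (L l469 (T t398 (T t448 N)))))) (K a8 (M a60 (F (T t68 (L l469 (T t398 (L l52 (L l56 (T t448 N)))))))) (K a21 (M a192 (F (T t836 (L l15 (L l163 (L l347 (T t450 (L l15 (L l163 (L l347 (T t157 N))))))))))) (K a25 (M a192 (F (T t449 (L l15 (L l163 (T t450 (L l137 (L l163 (L l469 (T t21 N)))))))))) (K a29 (M a192 (F (T t449 (L l137 (L l163 (L l371 (L l469 (T t21 (L l516 (T t160 N)))))))))) (K a38 (M a192 (F (T t156 (L l163 (T t450 (L l137 (L l163 (L l469 (T t21 N))))))))) (K a42 (M a192 (F (T t449 (L l163 (T t450 (L l56 (L l163 (T t157 N)))))))) (K a46 (M a192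 (F (T t449 (L l137 (L l163 (L l469 (T t21 (L l26 (L l408 (L l516 (T t160 N))))))))))) (K a51 (M a192 (F (T t1725 (L l163 (L l415 (T t450 (L l137 (L l163 (L l439 (L l469 (T t21 N))))))))))) N)))))))))))))))⟩
def e0_63__95_91 : Ent 4 := ⟨[a0, a63], [a95, a151], (M a12 (F (T t122 (T t151 (T t152 (L l493 (T t153 (K a4 (M a60 (F (T t69 (L l469 (T t398 (L l349 (T t448 N))))))) (K a8 (M a60 (F (T t67 (L l469 (T t398 (L l52 (L l56 (L l349 (T t448 N))))))))) (K a21 (M a192 (F (T t836 (L l15 (L l163 (L l347 (T t450 (L l15 (L l163 (L l347 (T t157 N))))))))))) (K a25 (M a192 (F (T t449 (L l15 (L l163 (T t450 (L l137 (L l163 (L l469 (T t21 N)))))))))) (K a29 (M a192 (F (T t449 (L l137 (L l163 (L l371 (L l469 (T t21 (L l201 (T t160 N)))))))))) (K a38 (M a192 (F (T t156 (L l163 (T t450 (L l137 (L l163 (L l469 (T t21 N))))))))) (K a42 (M a192 (F (T t449 (L l163 (T t450 (L l56 (L l163 (T t157 N)))))))) (K a46 (M a192 (F (T t449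 (L l137 (L l163 (L l469 (T t21 (L l26 (L l201 (L l408 (T t160 N))))))))))) (K a51 (M a192 (F (T t159 (L l163 (L l415 (T t450 (L l137 (L l163 (L l439 (L l469 (T t21 N))))))))))) N))))))))))))))))⟩
def e0_63__95_92 : Ent 4 := ⟨[a0, a63], [a95, a154], (M a12 (F (T t122 (T t151 (T t152 (T t153 (K a4 (M a60 (F (T t43 (L l469 (T t398 (T t448 N)))))) (K a8 (M a60 (F (T t67 (L l469 (T t398 (L l52 (L l56 (T t448 N)))))))) (K a21 (M a192 (F (T t836 (L l15 (L l170 (L l347 (T t450 (L l15 (L l170 (L l347 (T t157 N))))))))))) (K a25 (M a192 (F (T t449 (L l15 (L l170 (T t450 (L l137 (L l170 (L l469 (T t21 N)))))))))) (K a29 (M a192 (F (T t449 (L l137 (L l170 (L l371 (L l469 (T t21 (L l498 (T t160 N)))))))))) (K a38 (M a192 (F (T t156 (L l170 (T t450 (L l137 (L l170 (L l469 (T t21 N))))))))) (K a42 (M a192 (F (T t449 (L l170 (T t450 (L l56 (L l170 (T t157 N)))))))) (K a46 (M a192 (F (T t449 (L l137 (L l170 (L l469 (T t21 (L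 l26 (L l408 (L l498 (T t160 N))))))))))) (K a51 (M a192 (F (T t1725 (L l170 (L l415 (T t450 (L l137 (L l170 (L l439 (L l469 (T t21 N))))))))))) N)))))))))))))))⟩
def e0_63__95_93 : Ent 4 := ⟨[a0, a63], [a95, a155], (M a85 (F (T t88 (L l137 (L l469 (T t52 (T t89 (T t90 (K a64 (M a252 (F (T t93 (L l93 (L l367 (T t92 N)))))) (K a192 (M a16 (F (T t112 (T t1924 (L l296 (T t1925 N)))))) (K a21 (M a48 (F (T t1243 (L l47 (L l137 (L l361 (L l367 (T t100 (L l137 (T t50 N)))))))))) (K a149 (M a48 (F (T t132 (L l220 (L l511 (T t873 (L l137 (L l220 (T t50 N))))))))) (K a213 (Fr a170 a255 l476 (Fr a42 a21 l68 (Fr a106 a234 l390 (Fr a192 a149 l519 (V t581))))) (K a42 (M a48 (F (L l469 (T t364 (L l137 (L l390 (T t50 (L l28 (L l137 (L l361 (L l367 (T t100 N)))))))))))) (K a106 (M a48 (F (T t48 (L l104 (L l361 (L l367 (T t509 (L l137 (L l390 (T t50 N)))))))))) (K a170 (M a48 (F (T t607 (L l137 (L l361 (L l367 (L l404 (T t100 (L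 l390 (T t51 (L l361 (L l367 (L l390 (L l404 (T t568 N))))))))))))))) (K a255 (M a15 (F (T t1254 (L l137 (L l266 (L l361 (T t1497 (L l266 (L l296 (T t1484 (L l266 (L l296 (T t1926 N))))))))))))) N)))))))))))))))))⟩
def e0_63__95_94 : Ent 4 := ⟨[a0, a63], [a95, a159], (M a12 (L l361 (F (T t122 (T t151 (T t152 (T t153 (K a4 (M a31 (F (T t1369 (T t2084 (L l46 (T t3445 N)))))) (K a8 (M a31 (F (T t1369 (L l56 (T t2084 (L l56 (T t3445 N))))))) (K a21 (M a85 (L l361 (F (T t1601 (L l15 (L l137 (T t574 (L l89 (L l137 (T t124 (K a31 (M a223 (L l18 (F (T t4453 (L l13 (L l15 (L l137 (T t574 (K a16 (M a26 (F (T t2427 (L l13 (L l15 (L l137 (T t574 (L l89 (L l137 (T t124 N)))))))))) (K a26 (Fr a16 a154 l368 (V t123)) N)))))))))) (K a223 (M a31 (F (T t2427 (L l65 (T t3446 N))))) N)))))))))))) (K a25 (M a31 (F (T t3446 (L l56 (T t2084 (L l12 (L l56 (T t3445 N)))))))) (K a29 (M a31 (F (T t2084 (L l59 (T t3860 (L l59 (T t4050 (T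 t4051 (L l59 (T t4052 N)))))))))) (K a38 (M a166 (L l361 (F (T t2470 (L l469 (T t2543 (T t2541 (K a31 (M a223 (F (T t4358 (L l18 (T t4514 N))))) (K a223 (M a31 (F (T t2508 (L l246 (T t4515 N))))) N))))))))) (K a42 (M a166 (L l361 (F (T t2470 (L l56 (L l469 (T t2543 (L l56 (T t2541 (K a31 (M a223 (F (T t4358 (L l18 (L l56 (T t4514 N)))))) (K a223 (M a31 (F (T t2470 (L l28 (L l66 (T t3860 N)))))) N))))))))))) (K a46 (M a31 (F (L l23 (T t3860 (L l26 (T t4058 (L l23 (L l26 (T t2084 (L l26 (T t4053 (L l26 (T t4052 N))))))))))))) (K a51 (M a31 (F (T t2312 (L l39 (T t1369 (T t3445 N)))))) (K a31 (M a223 (F (T t151 (L l13 (L l18 (T t122 (L l18 (T t152 (T t153 (K a4 (M a28 (F (T t3236 (L l165 (T t4516 N))))) (K a8 (M a28 (F (L l165 (T t4516 (L l18 (T t4077 N)))))) (K a21 (M a16 (F (L l13 (T t871 (L l170 (T t4517 (L l170 (T t4518 N)))))))) (K a25 (M a16 (F (T t652 (L l15 (L l137 (L l170 (L l469 (T t4519 N)))))))) (K a29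 (M a28 (F (T t3236 (L l165 (T t4520 N))))) (K a38 (M a16 (F (L l13 (L l21 (T t871 (L l26 (L l170 (L l213 (L l469 (T t4463 N)))))))))) (K a42 (M a28 (F (L l18 (L l22 (T t2735 (L l26 (L l165 (T t4516 N)))))))) (K a46 (M a16 (F (T t652 (L l137 (L l170 (L l469 (T t4519 N))))))) (K a51 (M a16 (F (T t652 (L l137 (L l170 (L l439 (L l469 (T t4519 N)))))))) N)))))))))))))))))) (K a223 (M a31 (F (T t151 (L l362 (T t1369 (L l368 (T t2084 N))))))) N))))))))))))))))))⟩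
def e0_63__95_95 : Ent 4 := ⟨[a0, a63], [a95, a160], (M a12 (F (T t122 (T t151 (T t152 (T t153 (K a4 (M a60 (F (T t43 (L l469 (T t398 (T t448 N)))))) (K a8 (M a60 (F (T t67 (L l469 (T t398 (L l52 (L l56 (T t448 N)))))))) (K a21 (M a192 (F (T t836 (L l15 (L l347 (T t450 (L l15 (L l347 (T t157 N))))))))) (K a25 (M a192 (F (T t449 (L l15 (T t450 (L l137 (L l192 (L l469 (T t21 N))))))))) (K a29 (M a192 (F (T t449 (L l137 (L l192 (L l371 (L l469 (T t21 (T t160 N))))))))) (K a38 (M a192 (F (T t836 (T t450 (L l137 (L l192 (L l469 (T t21 N)))))))) (K a42 (M a192 (F (T t449 (T t450 (L l56 (T t157 N)))))) (K a46 (M a192 (F (T t449 (L l137 (L l192 (L l469 (T t21 (L l26 (L l408 (T t160 N)))))))))) (K a51 (M a192 (F (T t155 (L l192 (L l513 (T t156 (L l137 (L l192 (L l439 (L l469 (T t21 N))))))))))) N)))))))))))))))⟩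
def e0_63__95_96 : Ent 4 := ⟨[a0, a63], [a95, a161], (M a85 (F (T t88 (L l137 (L l469 (T t52 (T t89 (T t90 (K a64 (M a252 (F (T t93 (L l93 (T t92 N))))) (K a192 (M a16 (F (T t112 (T t1924 (L l296 (T t1925 N)))))) (K a21 (M a48 (F (T t873 (L l47 (L l137 (L l361 (T t100 (L l137 (L l197 (L l453 (T t50 N))))))))))) (K a149 (M a48 (F (T t132 (L l220 (T t873 (L l137 (L l197 (L l220 (L l453 (T t50 N)))))))))) (K a213 (Fr a170 a255 l476 (Fr a42 a21 l68 (Fr a106 a234 l390 (Fr a192 a149 l519 (V t581))))) (K a42 (M a48 (F (L l469 (T t364 (L l137 (L l197 (L l390 (L l453 (T t50 (L l28 (L l137 (L l361 (T t100 N))))))))))))) (K a106 (M a48 (F (T t48 (L l104 (L l361 (T t509 (L l137 (L l197 (L l390 (L l453 (T t50 N))))))))))) (K a170 (M a48 (F (T t607 (L l137 (L l361 (L l404 (T t100 (L l390 (T t51 (L l361 (L l390 (L l404 (T t568 N))))))))))))) (K a255 (M a15 (F (T t1254 (L l137 (L l266 (L l361 (L l381 (T t1497 (L l266 (L l296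 (T t1484 (L l266 (L l296 (L l453 (T t1926 N))))))))))))))) N)))))))))))))))))⟩
def e0_63__95_97 : Ent 4 := ⟨[a0, a63], [a95, a162], (M a12 (F (T t151 (L l378 (T t122 (T t152 (T t153 (K a4 (M a60 (F (T t43 (L l469 (T t398 (T t448 N)))))) (K a8 (M a60 (F (T t67 (L l469 (T t398 (L l52 (L l56 (T t448 N)))))))) (K a21 (M a192 (F (T t836 (L l15 (L l347 (L l378 (T t450 (L l15 (L l347 (L l378 (T t157 N))))))))))) (K a25 (M a192 (F (T t449 (L l15 (L l378 (T t450 (L l137 (L l196 (L l469 (T t21 N)))))))))) (K a29 (M a192 (F (T t449 (L l137 (L l196 (L l371 (L l469 (T t21 (T t160 N))))))))) (K a38 (M a192 (F (T t836 (L l378 (T t450 (L l137 (L l196 (L l469 (T t21 N))))))))) (K a42 (M a192 (F (T t449 (L l378 (T t450 (L l56 (L l378 (T t157 N)))))))) (K a46 (M a192 (F (T t449 (L l137 (L l196 (L l469 (T t21 (L l26 (L l408 (T t160 N)))))))))) (K a51 (M a192 (F (T t1681 (L l196 (L l513 (T t156 (L l378 (L l415 (T t450 N)))))))))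 N))))))))))))))))⟩
def e0_63__95_98 : Ent 4 := ⟨[a0, a63], [a95, a163], (M a85 (F (T t88 (L l137 (L l469 (T t52 (T t89 (T t90 (K a64 (M a252 (F (T t93 (L l93 (T t92 N))))) (K a192 (M a16 (F (T t112 (T t1924 (L l296 (T t1925 N)))))) (K a21 (M a48 (F (T t873 (L l47 (L l137 (L l361 (T t100 (L l137 (T t50 N))))))))) (K a149 (M a48 (F (T t132 (L l220 (T t873 (L l137 (L l220 (T t50 N)))))))) (K a213 (Fr a170 a255 l476 (Fr a42 a21 l68 (Fr a106 a234 l390 (Fr a192 a149 l519 (V t581))))) (K a42 (M a48 (F (L l469 (T t364 (L l137 (L l390 (T t50 (L l28 (L l137 (L l361 (T t100 N))))))))))) (K a106 (M a48 (F (T t48 (L l104 (L l361 (T t509 (L l137 (L l390 (T t50 N))))))))) (K a170 (M a48 (F (T t607 (L l137 (L l361 (L l404 (T t100 (L l390 (T t51 (L l361 (L l390 (L l404 (T t568 N))))))))))))) (K a255 (M a15 (F (T t1254 (L l137 (L l266 (L l361 (T t1497 (L l266 (L l296 (T t1484 (L l266 (L l296 (T t1926 N))))))))))))) N)))))))))))))))))⟩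
def e0_63__95_99 : Ent 4 := ⟨[a0, a63], [a95, a165], (M a12 (F (T t122 (T t151 (T t152 (T t153 (K a4 (M a60 (F (T t43 (L l469 (L l483 (T t398 (T t448 N))))))) (K a8 (M a60 (F (T t67 (L l469 (L l483 (T t398 (L l52 (L l56 (T t448 N))))))))) (K a21 (M a192 (F (T t836 (L l15 (L l199 (L l347 (T t450 (L l15 (L l199 (L l347 (T t157 N))))))))))) (K a25 (M a192 (F (T t449 (L l15 (L l199 (T t450 (L l137 (L l199 (L l469 (T t21 N)))))))))) (K a29 (M a192 (F (T t449 (L l137 (L l199 (L l371 (L l469 (T t21 (L l411 (T t160 N)))))))))) (K a38 (M a192 (F (T t156 (L l199 (T t450 (L l137 (L l199 (L l469 (T t21 N))))))))) (K a42 (M a192 (F (T t449 (L l199 (T t450 (L l56 (L l199 (T t157 N)))))))) (K a46 (M a192 (F (T t449 (L l137 (L l199 (L l469 (T t21 (L l26 (L l408 (L l411 (T t160 N))))))))))) (K a51 (M a192 (F (T t1725 (L l199 (L l415 (T t450 (L l137 (L l199 (L l439 (L l469 (T t21 N))))))))))) N)))))))))))))))⟩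
def e0_63__95_100 : Ent 4 := ⟨[a0, a63], [a95, a166], (M a60 (F (T t67 (T t43 (T t68 (T t69 (K a20 (M a48 (F (T t64 (L l11 (L l469 (T t1 (L l11 (T t235 N)))))))) (K a40 (M a48 (F (T t64 (L l469 (T t1 (L l52 (T t235 N))))))) (K a21 (M a192 (F (T t72 (L l202 (L l347 (T t73 (L l137 (L l202 (L l347 (T t74 N)))))))))) (K a41 (M a192 (F (T t77 (L l65 (L l202 (L l469 (T t35 (L l202 (T t73 N))))))))) (K a61 (M a192 (F (T t72 (L l65 (L l202 (L l469 (L l515 (T t35 (L l408 (T t80 N)))))))))) (K a22 (M a192 (F (T t72 (L l137 (L l202 (L l469 (T t21 (L l202 (T t73 N))))))))) (K a42 (M a192 (F (T t77 (L l202 (T t73 (L l22 (L l137 (L l202 (T t74 N))))))))) (K a62 (M a192 (F (T t72 (L l202 (L l469 (T t35 (L l66 (L l408 (L l516 (T t80 N)))))))))) (K a3 (M a192 (F (T t2658 (L l202 (L l469 (L l475 (T t35 (L l202 (L l307 (T t73 N)))))))))) N)))))))))))))))⟩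
def e0_63__95_101 : Ent 4 := ⟨[a0, a63], [a95, a167], (M a85 (F (T t88 (L l137 (L l469 (T t52 (T t89 (T t90 (K a64 (M a252 (F (T t93 (L l93 (L l457 (T t92 N)))))) (K a192 (M a16 (F (T t1924 (T t112 (L l296 (T t1925 N)))))) (K a21 (M a48 (F (T t873 (L l47 (L l137 (L l361 (T t100 (L l137 (T t50 N))))))))) (K a149 (M a48 (F (T t132 (L l220 (T t873 (L l137 (L l220 (T t50 N)))))))) (K a213 (Fr a170 a255 l476 (Fr a42 a21 l68 (Fr a106 a234 l390 (Fr a192 a149 l519 (V t581))))) (K a42 (M a48 (F (L l469 (T t364 (L l137 (L l390 (T t50 (L l28 (L l137 (L l361 (T t100 N))))))))))) (K a106 (M a48 (F (T t48 (L l104 (L l361 (T t509 (L l137 (L l390 (T t50 N))))))))) (K a170 (M a48 (F (L l462 (T t48 (L l137 (L l361 (L l404 (T t100 (L l390 (T t51 (L l361 (L l390 (L l404 (T t568 N)))))))))))))) (K a255 (M a15 (F (L l440 (T t731 (L l137 (L l266 (L l361 (T t1497 (L l266 (L l296 (T t1484 (L l266 (L l296 (L l409 (T t1926 N)))))))))))))))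 N)))))))))))))))))⟩
def e0_63__95_102 : Ent 4 := ⟨[a0, a63], [a95, a170], (M a12 (F (T t152 (L l402 (T t122 (L l390 (T t151 (L l390 (L l464 (T t153 (K a4 (M a60 (F (T t570 (L l46 (L l50 (T t67 (L l390 (L l392 (T t448 N))))))))) (K a8 (M a60 (L l464 (F (T t67 (L l469 (T t398 (L l52 (L l56 (L l390 (L l392 (T t448 (K a89 (M a251 (F (T t67 (L l469 (L l479 (T t680 (L l52 (L l56 (L l390 (L l392 (T t448 N))))))))))) (K a251 (M a89 (F (T t67 (L l316 (T t870 N))))) N))))))))))))) (K a21 (M a192 (F (T t836 (L l390 (T t221 (L l15 (L l220 (L l347 (L l464 (T t157 N)))))))))) (K a25 (M a192 (F (T t449 (L l390 (T t221 (L l15 (L l56 (L l220 (L l464 (T t157 N)))))))))) (K a29 (M a48 (F (T t550 (L l15 (L l462 (L l469 (T t1 (L l390 (T t866 N))))))))) (K a38 (M a192 (F (T t836 (L l26 (L l390 (T t221 (L l220 (L l464 (T t157 N))))))))) (K a42 (M a106 (F (T t2304 (L l220 (T t2305 (L l56 (L l178 (L l220 (L l464 (T t2306 (L l56 (L l137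 (L l464 (T t4521 N)))))))))))))) (K a46 (M a48 (F (T t550 (L l462 (L l469 (T t1 (L l26 (L l390 (T t866 N))))))))) (K a51 (M a192 (F (L l513 (T t449 (L l390 (L l415 (T t221 (L l220 (L l464 (T t157 N)))))))))) N)))))))))))))))))))⟩
def e0_63__95_103 : Ent 4 := ⟨[a0, a63], [a95, a171], (M a12 (F (T t122 (T t151 (T t152 (T t153 (K a4 (M a60 (F (T t570 (L l46 (L l50 (L l391 (L l475 (T t67 (T t448 N))))))))) (K a8 (M a60 (F (T t2568 (L l469 (T t398 (L l52 (L l56 (T t448 N)))))))) (K a21 (M a192 (F (T t836 (L l15 (L l347 (T t450 (L l15 (L l347 (T t157 N))))))))) (K a25 (M a192 (F (T t449 (L l15 (T t450 (L l137 (L l469 (L l475 (T t21 N))))))))) (K a29 (M a192 (F (T t449 (L l137 (L l371 (L l469 (L l475 (T t21 (T t160 N))))))))) (K a38 (M a192 (F (T t836 (T t450 (L l137 (L l469 (L l475 (T t21 N)))))))) (K a42 (M a192 (F (T t449 (T t450 (L l56 (T t157 N)))))) (K a46 (M a192 (F (T t449 (L l137 (L l469 (L l475 (T t21 (L l26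 (L l408 (T t160 N)))))))))) (K a51 (M a192 (F (T t1681 (L l513 (T t156 (L l415 (T t450 N))))))) N)))))))))))))))⟩
def e0_63__95_104 : Ent 4 := ⟨[a0, a63], [a95, a175], (M a12 (L l469 (F (T t122 (T t151 (T t152 (T t153 (K a4 (M a15 (F (T t716 (L l397 (T t2544 (L l1 (L l50 (T t2545 N)))))))) (K a8 (M a15 (F (T t731 (L l397 (T t2544 (T t2545 N)))))) (K a21 (M a255 (F (L l180 (T t2137 (L l175 (T t2034 (L l15 (L l180 (T t2032 N))))))))) (K a25 (M a15 (F (T t2591 (L l15 (T t731 (L l19 (L l397 (T t2544 N)))))))) (K a29 (M a15 (F (T t2591 (T t716 (L l59 (L l397 (T t722 N))))))) (K a38 (M a15 (F (T t717 (L l26 (T t716 (L l26 (L l397 (T t2544 N)))))))) (K a42 (M a255 (F (L l89 (T t2999 (L l94 (T t2134 (L l56 (L l180 (L l390 (T t2032 N)))))))))) (K a46 (M a15 (F (T t731 (T t717 (L l23 (L l26 (L l397 (T t722 N)))))))) (K a51 (M a15 (F (T t4522 (L l30 (T t716 (L l39 (L l397 (T t2544 N)))))))) (K a15 (M a255 (F (T t1252 (L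 l175 (L l327 (T t2034 (L l180 (L l213 (L l339 (T t1165 N)))))))))) (K a255 (M a15 (F (T t4522 (L l440 (T t716 (L l439 (T t122 N))))))) N))))))))))))))))))⟩
def e0_63__95_105 : Ent 4 := ⟨[a0, a63], [a95, a176], (M a85 (F (T t88 (L l137 (L l469 (T t52 (T t89 (L l190 (T t90 (K a64 (M a16 (F (T t112 (L l84 (L l190 (T t1924 (L l116 (T t1925 N)))))))) (K a192 (M a16 (F (T t112 (L l190 (T t1924 (L l296 (T t1925 N))))))) (K a21 (M a12 (F (T t1601 (L l15 (L l137 (T t574 (L l89 (L l137 (L l222 (T t124 N)))))))))) (K a149 (M a48 (F (T t132 (L l190 (L l220 (T t873 (L l190 (L l220 (T t2029 N))))))))) (K a213 (Fr a170 a255 l476 (Fr a42 a21 l68 (Fr a106 a234 l390 (Fr a192 a149 l519 (V t581))))) (K a42 (M a12 (F (L l56 (T t1601 (L l89 (L l137 (L l222 (L l390 (T t124 (L l56 (L l137 (T t574 N)))))))))))) (K a106 (M a48 (F (T t48 (L l104 (L l361 (T t509 (L l190 (L l390 (L l498 (T t2029 N)))))))))) (K a170 (M a48 (F (T t607 (L l137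 (L l361 (L l404 (T t100 (L l390 (T t51 (L l192 (L l361 (L l390 (L l404 (T t568 N)))))))))))))) (K a255 (M a15 (F (T t1254 (L l137 (L l266 (L l361 (T t1497 (L l266 (L l296 (T t1484 (L l266 (L l296 (L l412 (T t1926 N)))))))))))))) N))))))))))))))))))⟩
def e0_63__95_106 : Ent 4 := ⟨[a0, a63], [a95, a177], (M a85 (F (T t88 (L l137 (L l469 (T t52 (T t89 (T t90 (K a64 (M a16 (F (T t112 (L l84 (T t1924 (L l116 (T t1925 N))))))) (K a192 (M a16 (F (T t112 (T t1924 (L l296 (T t1925 N)))))) (K a21 (M a48 (F (T t873 (L l47 (L l137 (L l361 (T t100 (L l137 (L l182 (L l417 (T t50 N))))))))))) (K a149 (M a48 (F (T t132 (L l220 (T t873 (L l137 (L l182 (L l220 (L l417 (T t50 N)))))))))) (K a213 (Fr a170 a255 l476 (Fr a42 a21 l68 (Fr a106 a234 l390 (Fr a192 a149 l519 (V t581))))) (K a42 (M a48 (F (L l469 (T t364 (L l137 (L l182 (L l390 (L l417 (T t50 (L l28 (L l137 (L l361 (T t100 N))))))))))))) (K a106 (M a48 (F (T t48 (L l104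 (L l361 (T t509 (L l137 (L l182 (L l390 (L l417 (T t50 N))))))))))) (K a170 (M a48 (F (T t607 (L l137 (L l361 (L l404 (T t100 (L l390 (T t51 (L l361 (L l390 (L l404 (T t568 N))))))))))))) (K a255 (M a15 (F (T t1254 (L l137 (L l266 (L l361 (T t1497 (L l266 (L l296 (T t1484 (L l266 (L l296 (L l417 (T t1926 N)))))))))))))) N)))))))))))))))))⟩
def e0_63__95_107 : Ent 4 := ⟨[a0, a63], [a95, a178], (M a85 (F (T t88 (L l137 (L l469 (T t52 (T t89 (T t90 (K a64 (M a252 (F (T t93 (L l93 (T t92 N))))) (K a192 (M a16 (F (T t112 (L l188 (T t1924 (L l296 (T t1925 N))))))) (K a21 (M a48 (F (L l361 (T t1699 (L l137 (L l182 (T t50 (L l47 (L l137 (L l361 (T t100 N))))))))))) (K a149 (M a48 (F (T t132 (L l188 (L l220 (T t873 (L l137 (L l182 (L l220 (T t50 N)))))))))) (K a213 (Fr a170 a255 l476 (Fr a42 a21 l68 (Fr a106 a234 l390 (Fr a192 a149 l519 (V t581))))) (K a42 (M a48 (F (L l469 (T t364 (L l137 (L l182 (L l390 (T t50 (L l28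 (L l137 (L l361 (T t100 N)))))))))))) (K a106 (M a48 (F (T t48 (L l104 (L l361 (T t509 (L l137 (L l182 (L l390 (T t50 N)))))))))) (K a170 (M a48 (F (T t607 (L l137 (L l361 (L l404 (T t100 (L l390 (T t51 (L l361 (L l390 (L l404 (T t568 N))))))))))))) (K a255 (M a15 (F (T t1254 (L l137 (L l266 (L l361 (T t1497 (L l266 (L l296 (T t1484 (L l266 (L l296 (T t1926 N))))))))))))) N)))))))))))))))))⟩
def e0_63__95_108 : Ent 4 := ⟨[a0, a63], [a95, a179], (M a85 (F (T t88 (L l137 (L l469 (T t52 (T t89 (L l189 (T t90 (K a64 (M a16 (F (T t112 (L l84 (T t1924 (L l116 (T t1925 N))))))) (K a192 (M a16 (F (T t112 (T t1924 (L l296 (T t1925 N)))))) (K a21 (M a48 (F (T t873 (L l47 (L l137 (L l361 (T t100 (L l137 (L l182 (T t50 N)))))))))) (K a149 (M a48 (F (T t132 (L l220 (T t873 (L l137 (L l182 (L l220 (T t50 N))))))))) (K a213 (Fr a170 a255 l476 (Fr a42 a21 l68 (Fr a106 a234 l390 (Fr a192 a149 l519 (V t581))))) (K a42 (M a48 (F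 (L l469 (T t364 (L l137 (L l182 (L l390 (T t50 (L l28 (L l137 (L l361 (T t100 N)))))))))))) (K a106 (M a48 (F (T t48 (L l104 (L l361 (T t509 (L l137 (L l182 (L l390 (T t50 N)))))))))) (K a170 (M a48 (F (T t607 (L l137 (L l361 (L l404 (T t100 (L l390 (T t51 (L l361 (L l390 (L l404 (T t568 N))))))))))))) (K a255 (M a15 (F (T t1254 (L l137 (L l266 (L l361 (T t1497 (L l266 (L l296 (T t1484 (L l266 (L l296 (T t1926 N))))))))))))) N))))))))))))))))))⟩
def e0_63__95_109 : Ent 4 := ⟨[a0, a63], [a95, a181], (M a12 (F (T t122 (T t151 (T t152 (L l423 (T t153 (K a4 (M a60 (F (T t43 (L l443 (L l469 (T t398 (T t448 N))))))) (K a8 (M a60 (F (T t67 (L l443 (L l469 (T t398 (L l52 (L l56 (T t448 N))))))))) (K a21 (M a192 (F (T t836 (L l15 (L l199 (L l347 (T t450 (L l15 (L l199 (L l347 (T t157 N))))))))))) (K a25 (M a192 (F (T t449 (L l15 (L l199 (T t450 (L l137 (L l199 (L l469 (T t21 N)))))))))) (K a29 (M a192 (F (T t449 (L l137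 (L l199 (L l371 (L l469 (T t21 (L l183 (T t160 N)))))))))) (K a38 (M a192 (F (T t156 (L l199 (T t450 (L l137 (L l199 (L l469 (T t21 N))))))))) (K a42 (M a192 (F (T t449 (L l199 (T t450 (L l56 (L l199 (T t157 N)))))))) (K a46 (M a192 (F (T t449 (L l137 (L l199 (L l469 (T t21 (L l26 (L l183 (L l408 (T t160 N))))))))))) (K a51 (M a192 (F (T t159 (L l199 (L l415 (T t450 (L l137 (L l199 (L l439 (L l469 (T t21 N))))))))))) N))))))))))))))))⟩
def e0_63__95_110 : Ent 4 := ⟨[a0, a63], [a95, a182], (M a85 (F (T t88 (L l137 (L l469 (T t52 (T t89 (T t90 (K a64 (M a16 (F (T t112 (L l84 (L l188 (T t1924 (L l116 (T t1925 N)))))))) (K a192 (M a16 (F (T t112 (L l188 (T t1924 (L l296 (T t1925 N))))))) (K a21 (M a48 (F (L l361 (T t509 (L l137 (L l422 (T t50 (L l47 (L l137 (L l361 (T t100 N))))))))))) (K a149 (M a48 (F (T t132 (L l188 (L l220 (T t873 (L l137 (L l220 (L l422 (T t50 N)))))))))) (K a213 (Fr a170 a255 l476 (Fr a42 a21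 l68 (Fr a106 a234 l390 (Fr a192 a149 l519 (V t581))))) (K a42 (M a48 (F (L l469 (T t365 (L l137 (L l390 (L l422 (T t50 (L l28 (L l137 (L l361 (T t100 N)))))))))))) (K a106 (M a48 (F (T t48 (L l104 (L l361 (T t509 (L l137 (L l390 (L l422 (T t50 N)))))))))) (K a170 (M a48 (F (T t607 (L l137 (L l361 (L l404 (T t100 (L l390 (L l422 (T t51 (L l361 (L l390 (L l404 (T t568 N)))))))))))))) (K a255 (M a15 (F (T t1254 (L l137 (L l266 (L l361 (T t1497 (L l266 (L l296 (T t1484 (L l266 (L l296 (T t1926 N))))))))))))) N)))))))))))))))))⟩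
def e0_63__95_111 : Ent 4 := ⟨[a0, a63], [a95, a183], (M a12 (F (T t122 (T t151 (T t152 (L l421 (T t153 (K a4 (M a60 (F (T t43 (L l469 (T t398 (T t448 N)))))) (K a8 (M a60 (F (T t67 (L l469 (T t398 (L l52 (L l56 (T t448 N)))))))) (K a21 (M a192 (F (T t836 (L l15 (L l202 (L l347 (T t450 (L l50 (T t2473 N))))))))) (K a25 (M a192 (F (T t836 (L l15 (L l202 (T t450 (L l189 (L l469 (T t202 N))))))))) (K a29 (M a192 (F (T t836 (L l189 (L l469 (T t202 (L l15 (L l202 (L l371 (T t2569 N)))))))))) (K a38 (M a192 (F (T t836 (L l202 (T t450 (L l189 (L l469 (T t202 N)))))))) (K a42 (M a192 (F (T t836 (L l202 (T t450 (L l26 (L l390 (T t2473 N)))))))) (K a46 (M a192 (F (T t836 (L l189 (L l408 (L l469 (T t202 (L l202 (T t2569 N))))))))) (K a51 (M a192 (F (T t1681 (L l513 (T t836 (L l202 (L l415 (T t450 N)))))))) N))))))))))))))))⟩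
def e0_63__95_112 : Ent 4 := ⟨[a0, a63], [a95, a186], (M a12 (F (T t122 (T t151 (T t152 (T t153 (K a4 (M a60 (F (T t43 (L l469 (T t398 (T t448 N)))))) (K a8 (M a60 (F (T t67 (L l469 (T t398 (L l52 (L l56 (T t448 N)))))))) (K a21 (M a192 (F (T t836 (L l15 (L l347 (T t450 (L l15 (L l347 (T t157 N))))))))) (K a25 (M a192 (F (T t449 (L l15 (T t450 (L l137 (L l440 (L l469 (T t21 N))))))))) (K a29 (M a192 (F (T t449 (L l137 (L l371 (L l440 (L l469 (T t21 (T t160 N))))))))) (K a38 (M a192 (F (T t836 (T t450 (L l137 (L l440 (L l469 (T t21 N)))))))) (K a42 (M a192 (F (T t449 (T t450 (L l56 (T t157 N)))))) (K a46 (M a192 (F (T t449 (L l137 (L l440 (L l469 (T t21 (L l26 (L l408 (T t160 N)))))))))) (K a51 (M a192 (F (T t1681 (L l513 (T t156 (L l415 (T t450 N))))))) N)))))))))))))))⟩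
def e0_63__95_113 : Ent 4 := ⟨[a0, a63], [a95, a187], (M a60 (F (T t67 (T t43 (T t68 (T t69 (K a20 (M a48 (F (T t138 (L l11 (L l469 (T t1 (L l11 (T t235 N)))))))) (K a40 (M a48 (F (T t48 (L l439 (T t64 (L l52 (T t235 N))))))) (K a21 (M a192 (F (T t72 (L l347 (T t73 (L l137 (L l347 (T t74 N)))))))) (K a41 (M a192 (F (T t77 (L l65 (L l439 (L l469 (T t35 (T t73 N)))))))) (K a61 (M a192 (F (T t72 (L l65 (L l439 (L l469 (L l515 (T t35 (T t80 N))))))))) (K a22 (M a192 (F (T t72 (L l137 (L l439 (L l469 (T t21 (T t73 N)))))))) (K a42 (M a192 (F (T t79 (T t73 (L l22 (L l137 (T t74 N))))))) (K a62 (M a192 (F (T t72 (L l439 (L l469 (T t35 (L l66 (L l516 (T t80 N))))))))) (K a3 (M a192 (F (T t1343 (L l477 (T t79 (L l439 (L l469 (L l475 (T t35 N))))))))) N)))))))))))))))⟩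
def e0_63__95_114 : Ent 4 := ⟨[a0, a63], [a95, a191], (M a12 (F (T t122 (T t151 (T t152 (T t153 (K a4 (M a60 (F (T t43 (L l469 (T t398 (T t448 N)))))) (K a8 (M a60 (F (T t67 (L l469 (T t398 (L l52 (L l56 (T t448 N)))))))) (K a21 (M a192 (F (T t468 (T t221 (L l15 (L l220 (L l347 (T t157 N)))))))) (K a25 (M a192 (F (T t449 (T t221 (L l15 (L l220 (L l469 (T t35 N)))))))) (K a29 (M a192 (F (T t449 (L l15 (L l220 (L l371 (L l469 (T t35 (L l189 (T t160 N)))))))))) (K a38 (M a192 (F (T t468 (L l26 (T t221 (L l50 (L l220 (L l469 (T t35 N))))))))) (K a42 (M a192 (F (T t449 (L l26 (L l390 (T t221 (L l56 (L l220 (T t157 N))))))))) (K a46 (M a192 (F (T t449 (L l220 (L l469 (T t35 (L l26 (L l189 (L l408 (T t160 N)))))))))) (K a51 (M a192 (F (T t155 (L l513 (T t449 (L l220 (L l439 (L l469 (T t35 N))))))))) N)))))))))))))))⟩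
def e0_63__95_115 : Ent 4 := ⟨[a0, a63], [a95, a192], (M a48 (F (T t48 (L l339 (L l469 (T t1 (L l339 (L l469 (T t2 (L l339 (L l469 (T t3 (L l339 (L l361 (L l469 (T t0 (K a16 (M a60 (F (T t138 (L l14 (L l18 (L l309 (T t67 (T t65 N)))))))) (K a32 (M a60 (F (T t138 (L l309 (T t67 (L l24 (L l28 (T t65 N)))))))) (K a21 (M a255 (F (T t3576 (L l268 (T t1160 (L l47 (L l236 (L l361 (T t548 N))))))))) (K a37 (M a52 (F (T t555 (L l334 (T t82 (L l21 (L l28 (T t84 N)))))))) (K a53 (M a12 (F (T t145 (L l47 (L l489 (T t122 (L l47 (T t146 N)))))))) (K a26 (M a56 (F (T t556 (L l334 (T t133 (L l12 (L l18 (T t135 N)))))))) (K a42 (M a255 (F (L l268 (T t1169 (L l94 (L l236 (T t547 (L l28 (L l236 (L l361 (L l390 (T t548 N)))))))))))) (K a58 (M a12 (F (T t145 (L l489 (T t122 (T t146 N)))))) (K a15 (M a255 (L l339 (F (T t3576 (L l268 (L l483 (T t1160 (L l236 (L l361 (T t548 (K a133 (M a74 (F (T t4430 (L l236 (L l311 (L l325 (T t1162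 (L l236 (L l361 (T t548 N)))))))))) (K a74 (M a133 (F (T t4430 (L l84 (L l236 (L l325 (T t1162 (L l236 (L l318 (L l361 (T t548 N))))))))))) N)))))))))))) N)))))))))))))))))))))))))⟩
def e0_63__95_116 : Ent 4 := ⟨[a0, a63], [a95, a193], (M a85 (F (L l293 (T t89 (L l137 (L l469 (T t52 (L l228 (L l293 (T t88 (L l228 (T t90 (K a64 (M a16 (F (T t112 (L l84 (T t1924 (L l116 (L l293 (T t1925 N)))))))) (K a192 (M a195 (F (T t883 (L l309 (T t2035 (L l293 (L l296 (T t894 (L l305 (T t2036 N)))))))))) (K a21 (M a48 (F (T t873 (L l47 (L l137 (L l361 (T t100 (L l137 (T t50 N))))))))) (K a149 (M a61 (F (L l305 (T t505 (L l220 (L l293 (T t506 (L l217 (T t2037 N))))))))) (K a213 (Fr a170 a255 l476 (Fr a42 a21 l68 (Fr a106 a234 l390 (Fr a192 a149 l519 (V t581))))) (K a42 (M a48 (F (L l469 (T t364 (L l137 (L l390 (T t50 (L l28 (L l137 (L l361 (T t100 N))))))))))) (K a106 (M a48 (F (T t48 (L l104 (L l361 (T t509 (L l137 (L l390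 (T t50 N))))))))) (K a170 (M a60 (F (T t67 (L l218 (L l220 (L l228 (L l293 (L l305 (L l390 (T t4523 (L l137 (L l228 (L l392 (L l515 (T t523 N))))))))))))))) (K a255 (M a15 (F (T t1254 (L l137 (L l266 (L l361 (T t1497 (L l266 (L l293 (L l296 (L l335 (T t1484 (L l266 (L l293 (L l296 (T t1926 N)))))))))))))))) N)))))))))))))))))))))⟩
def e0_63__95_117 : Ent 4 := ⟨[a0, a63], [a95, a194], (M a12 (F (T t122 (T t151 (T t152 (T t153 (K a4 (M a60 (F (T t43 (L l336 (L l469 (T t398 (T t448 N))))))) (K a8 (M a60 (F (T t67 (L l336 (L l469 (T t398 (L l52 (L l56 (T t448 N))))))))) (K a21 (M a192 (F (T t836 (L l15 (L l270 (L l347 (T t450 (L l15 (L l270 (L l347 (T t157 N))))))))))) (K a25 (M a192 (F (T t449 (L l15 (L l270 (T t450 (L l137 (L l469 (T t21 N))))))))) (K a29 (M a192 (F (T t449 (L l137 (L l371 (L l469 (T t21 (L l516 (T t160 N))))))))) (K a38 (M a192 (F (T t156 (L l270 (T t450 (L l137 (L l469 (T t21 N)))))))) (K a42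 (M a192 (F (T t449 (L l270 (T t450 (L l56 (L l270 (T t157 N)))))))) (K a46 (M a192 (F (T t449 (L l137 (L l469 (T t21 (L l26 (L l408 (L l516 (T t160 N)))))))))) (K a51 (M a106 (F (T t3609 (L l270 (L l294 (T t2474 N)))))) N)))))))))))))))⟩
def e0_63__95_118 : Ent 4 := ⟨[a0, a63], [a95, a195], (M a12 (F (T t150 (L l487 (T t122 (L l487 (T t151 (L l487 (T t152 (L l487 (T t153 (K a4 (M a60 (F (T t570 (L l46 (L l50 (L l307 (T t67 (T t448 N)))))))) (K a8 (M a60 (F (T t116 (L l337 (L l469 (T t398 (L l52 (L l56 (T t448 N))))))))) (K a21 (M a192 (F (T t158 (L l237 (T t156 (L l15 (L l347 (T t157 N)))))))) (K a25 (M a192 (F (T t158 (L l237 (T t156 (L l137 (L l295 (L l469 (T t21 N))))))))) (K a29 (M a192 (F (T t1681 (L l237 (T t156 (T t160 N)))))) (K a38 (M a192 (F (T t161 (L l237 (T t156 (L l137 (L l295 (L l469 (T t21 N))))))))) (K a42 (M a192 (F (T t161 (L l237 (T t156 (L l56 (T t157 N))))))) (K a46 (M a192 (F (T t57 (L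 l237 (T t156 (L l26 (L l408 (T t160 N)))))))) (K a51 (M a106 (L l487 (F (T t3609 (T t2474 (K a147 (M a99 (F (T t2419 (L l228 (L l489 (T t4429 (T t2415 N))))))) (K a99 (M a147 (F (T t2419 (L l228 (L l489 (T t4429 (T t2415 N))))))) N))))))) N))))))))))))))))))))⟩
def e0_63__95_119 : Ent 4 := ⟨[a0, a63], [a95, a197], (M a12 (F (T t122 (T t151 (T t152 (T t153 (K a4 (M a60 (F (T t43 (L l469 (T t398 (T t448 N)))))) (K a8 (M a60 (F (T t67 (L l469 (T t398 (L l52 (L l56 (T t448 N)))))))) (K a21 (M a192 (F (T t836 (L l15 (L l347 (L l491 (T t450 (L l15 (L l347 (L l491 (T t157 N))))))))))) (K a25 (M a192 (F (T t449 (L l15 (L l491 (T t450 (L l137 (L l469 (L l491 (T t21 N)))))))))) (K a29 (M a192 (F (T t449 (L l137 (L l371 (L l469 (L l491 (T t21 (L l275 (T t160 N)))))))))) (K a38 (M a192 (F (T t156 (L l491 (T t450 (L l137 (L l469 (L l491 (T t21 N))))))))) (K a42 (M a192 (F (T t449 (L l491 (T t450 (L l56 (L l491 (T t157 N))))))))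 (K a46 (M a192 (F (T t449 (L l137 (L l469 (L l491 (T t21 (L l26 (L l275 (L l408 (T t160 N))))))))))) (K a51 (M a192 (F (T t1800 (L l513 (T t156 (L l415 (L l491 (T t450 N)))))))) N)))))))))))))))⟩
def e0_63__95_120 : Ent 4 := ⟨[a0, a63], [a95, a198], (M a85 (F (T t88 (L l137 (L l469 (T t52 (T t89 (T t90 (K a64 (M a252 (F (T t93 (L l93 (T t92 N))))) (K a192 (M a16 (F (T t112 (T t1924 (L l296 (T t1925 N)))))) (K a21 (M a48 (F (T t873 (L l47 (L l137 (L l234 (L l361 (T t100 (L l137 (T t50 N)))))))))) (K a149 (M a48 (F (T t132 (L l220 (T t873 (L l137 (L l220 (T t50 N)))))))) (K a213 (Fr a170 a255 l476 (Fr a42 a21 l68 (Fr a106 a234 l390 (Fr a192 a149 l519 (V t581))))) (K a42 (M a48 (F (L l469 (T t364 (L l137 (L l390 (T t50 (L l28 (L l137 (L l234 (L l361 (T t100 N)))))))))))) (K a106 (M a48 (F (T t48 (L l104 (L l361 (T t509 (L l137 (L l390 (T t50 N))))))))) (K a170 (M a48 (F (T t607 (L l137 (L l234 (L l361 (L l404 (T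 t100 (L l229 (L l390 (T t51 (L l361 (L l390 (L l404 (T t568 N))))))))))))))) (K a255 (M a15 (F (T t1254 (L l137 (L l266 (L l361 (T t1497 (L l266 (L l296 (T t1484 (L l266 (L l296 (T t1926 N))))))))))))) N)))))))))))))))))⟩
def e0_63__95_121 : Ent 4 := ⟨[a0, a63], [a95, a199], (M a85 (F (T t88 (L l137 (L l469 (T t52 (T t89 (T t90 (K a64 (M a252 (F (T t93 (L l93 (T t92 N))))) (K a192 (M a16 (F (T t112 (L l314 (T t1924 (L l296 (T t1925 N))))))) (K a21 (M a48 (F (L l361 (T t935 (L l137 (T t50 (L l47 (L l137 (L l361 (T t100 N)))))))))) (K a149 (M a48 (F (T t132 (L l220 (L l235 (L l314 (T t873 (L l137 (L l220 (T t50 N)))))))))) (K a213 (Fr a170 a255 l476 (Fr a42 a21 l68 (Fr a106 a234 l390 (Fr a192 a149 l519 (V t581))))) (K a42 (M a48 (F (L l469 (T t364 (L l137 (L l390 (T t50 (L l28 (L l137 (L l361 (T t100 N))))))))))) (K a106 (M a48 (F (T t48 (L l104 (L l314 (L l361 (L l494 (T t509 (L l137 (L l390 (T t50 N)))))))))))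 (K a170 (M a48 (F (T t607 (L l137 (L l361 (L l404 (T t100 (L l229 (L l390 (T t51 (L l361 (L l390 (L l404 (T t568 N)))))))))))))) (K a255 (M a15 (F (T t1254 (L l137 (L l266 (L l361 (T t1497 (L l266 (L l296 (T t1484 (L l266 (L l296 (T t1926 N))))))))))))) N)))))))))))))))))⟩
def e0_63__95_122 : Ent 4 := ⟨[a0, a63], [a95, a202], (M a12 (F (T t122 (T t151 (T t152 (T t153 (K a4 (M a60 (F (T t43 (L l469 (T t398 (T t448 N)))))) (K a8 (M a60 (F (T t67 (L l469 (T t398 (L l52 (L l56 (T t448 N)))))))) (K a21 (M a192 (F (T t836 (L l15 (L l347 (T t450 (L l15 (L l347 (T t157 N))))))))) (K a25 (M a192 (F (T t156 (L l15 (T t450 (L l137 (L l469 (T t21 N)))))))) (K a29 (M a192 (F (T t836 (L l137 (L l371 (L l469 (T t21 (L l498 (T t160 N))))))))) (K a38 (M a192 (F (T t156 (T t450 (L l137 (L l469 (T t21 N))))))) (K a42 (M a192 (F (T t156 (T t450 (L l56 (T t157 N)))))) (K a46 (M a192 (F (T t156 (L l137 (L l469 (T t21 (L l26 (L l408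 (L l498 (T t160 N)))))))))) (K a51 (M a192 (F (T t576 (L l513 (T t156 (L l137 (L l439 (L l469 (T t21 N))))))))) N)))))))))))))))⟩
def e0_63__95_123 : Ent 4 := ⟨[a0, a63], [a95, a203], (M a85 (F (T t88 (L l137 (L l469 (T t52 (T t89 (T t90 (K a64 (M a252 (F (T t93 (L l93 (T t92 N))))) (K a192 (M a16 (F (T t112 (T t1924 (L l296 (T t1925 N)))))) (K a21 (M a48 (F (T t1243 (L l47 (L l137 (L l230 (L l361 (T t100 (L l137 (T t50 N)))))))))) (K a149 (M a48 (F (T t132 (L l220 (L l235 (T t873 (L l137 (L l220 (T t50 N))))))))) (K a213 (Fr a170 a255 l476 (Fr a42 a21 l68 (Fr a106 a234 l390 (Fr a192 a149 l519 (V t581))))) (K a42 (M a48 (F (L l469 (T t364 (L l137 (L l390 (T t50 (L l28 (L l137 (L l230 (L l361 (T t100 N)))))))))))) (K a106 (M a48 (F (T t48 (L l104 (L l361 (T t509 (L l137 (L l390 (T t50 N))))))))) (K a170 (M a48 (F (T t607 (L l137 (L l230 (L l361 (L l404 (T t100 (L l390 (T t51 (L l361 (L l390 (L l404 (T t568 N))))))))))))))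 (K a255 (M a15 (F (T t1254 (L l137 (L l266 (L l361 (T t1497 (L l266 (L l296 (T t1484 (L l266 (L l296 (T t1926 N))))))))))))) N)))))))))))))))))⟩
def e0_63__95_124 : Ent 4 := ⟨[a0, a63], [a95, a207], (M a12 (F (T t150 (L l511 (T t122 (L l511 (T t151 (L l511 (T t152 (L l511 (T t153 (K a4 (M a60 (F (T t570 (L l46 (L l50 (L l331 (T t67 (T t448 N)))))))) (K a8 (M a60 (F (T t116 (L l325 (L l469 (T t398 (L l52 (L l56 (T t448 N))))))))) (K a21 (M a192 (F (T t158 (L l231 (T t156 (L l15 (L l347 (T t157 N)))))))) (K a25 (M a192 (F (T t158 (L l231 (T t156 (L l137 (L l289 (L l469 (T t21 N))))))))) (K a29 (M a192 (F (T t1681 (L l231 (T t156 (T t160 N)))))) (K a38 (M a192 (F (T t161 (L l231 (T t156 (L l137 (L l289 (L l469 (T t21 N))))))))) (K a42 (M a192 (F (T t161 (L l231 (T t156 (L l56 (T t157 N))))))) (K a46 (M a192 (F (T t57 (L l231 (T t156 (L l26 (L l408 (T t160 N)))))))) (K a51 (M a106 (L l511 (F (T t3609 (T t2474 (K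 a103 (M a155 (F (T t2419 (L l236 (L l489 (T t4429 (T t2415 N))))))) (K a155 (M a103 (F (T t2419 (L l236 (L l489 (T t4429 (T t2415 N))))))) N))))))) N))))))))))))))))))))⟩
def e0_63__95_125 : Ent 4 := ⟨[a0, a63], [a95, a208], (M a12 (F (T t122 (T t151 (T t152 (T t153 (K a4 (M a60 (F (T t43 (L l469 (T t398 (T t448 N)))))) (K a8 (M a60 (F (T t67 (L l469 (T t398 (L l52 (L l56 (T t448 N)))))))) (K a21 (M a192 (F (T t836 (L l15 (L l347 (L l375 (T t450 (L l15 (L l347 (L l375 (T t157 N))))))))))) (K a25 (M a192 (F (T t449 (L l15 (L l375 (T t450 (L l137 (L l375 (L l469 (T t21 N)))))))))) (K a29 (M a192 (F (T t449 (L l137 (L l371 (L l375 (L l469 (T t21 (L l246 (T t160 N)))))))))) (K a38 (M a192 (F (T t156 (L l375 (T t450 (L l137 (L l375 (L l469 (T t21 N))))))))) (K a42 (M a192 (F (T t449 (L l375 (T t450 (L l56 (L l375 (T t157 N)))))))) (K a46 (M a192 (F (T t449 (L l137 (L l375 (L l469 (T t21 (L l26 (L l246 (L l408 (T t160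 N))))))))))) (K a51 (M a192 (F (T t1800 (L l513 (T t156 (L l375 (L l415 (T t450 N)))))))) N)))))))))))))))⟩
def e0_63__95_126 : Ent 4 := ⟨[a0, a63], [a95, a209], (M a85 (F (L l243 (T t89 (L l137 (L l469 (T t52 (L l243 (L l272 (T t88 (L l272 (T t90 (K a64 (M a252 (F (T t93 (L l93 (L l243 (T t92 N)))))) (K a192 (M a243 (F (T t4524 (L l137 (L l489 (T t2088 (L l243 (L l296 (L l334 (T t2089 (L l89 (L l489 (T t2090 N))))))))))))) (K a21 (M a48 (F (T t873 (L l47 (L l137 (L l361 (T t100 (L l137 (T t50 N))))))))) (K a149 (M a29 (F (L l341 (T t2091 (L l220 (L l243 (T t2092 (L l89 (L l167 (T t2093 N)))))))))) (K a213 (Fr a170 a255 l476 (Fr a42 a21 l68 (Fr a106 a234 l390 (Fr a192 a149 l519 (V t581))))) (K a42 (M a48 (F (L l469 (T t364 (L l137 (L l390 (T t50 (L l28 (L l137 (L l361 (T t100 N))))))))))) (K a106 (M a48 (F (T t48 (L l104 (L l361 (T t509 (L l137 (L l390 (T t50 N))))))))) (K a170 (M a12 (F (T t152 (L l178 (L l220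 (L l243 (L l272 (L l341 (L l390 (T t4525 (L l137 (L l272 (L l371 (L l464 (T t574 N))))))))))))))) (K a255 (M a15 (F (T t1254 (L l137 (L l266 (L l361 (T t1497 (L l243 (L l266 (L l296 (T t1484 (L l238 (L l243 (L l266 (L l296 (T t1926 N)))))))))))))))) N)))))))))))))))))))))⟩
def e0_63__95_127 : Ent 4 := ⟨[a0, a63], [a95, a210], (M a85 (F (T t88 (L l137 (L l469 (T t52 (T t89 (T t90 (K a64 (M a252 (F (T t93 (L l93 (T t92 N))))) (K a192 (M a16 (F (T t112 (T t1924 (L l296 (L l372 (T t1925 N))))))) (K a21 (M a48 (F (T t873 (L l47 (L l137 (L l361 (T t100 (L l137 (L l273 (T t50 N)))))))))) (K a149 (M a48 (F (T t132 (L l220 (T t873 (L l137 (L l220 (L l273 (T t50 N))))))))) (K a213 (Fr a170 a255 l476 (Fr a42 a21 l68 (Fr a106 a234 l390 (Fr a192 a149 l519 (V t581))))) (K a42 (M a48 (F (L l469 (T t364 (L l137 (L l273 (L l390 (T t50 (L l28 (L l137 (L l361 (T t100 N)))))))))))) (K a106 (M a48 (F (T t48 (L l104 (L l361 (T t509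 (L l137 (L l273 (L l390 (T t50 N)))))))))) (K a170 (M a48 (F (T t607 (L l137 (L l361 (L l404 (T t100 (L l390 (T t51 (L l361 (L l390 (L l404 (T t568 N))))))))))))) (K a255 (M a15 (F (T t1254 (L l137 (L l266 (L l361 (T t1497 (L l266 (L l296 (T t1484 (L l238 (L l266 (L l273 (L l296 (T t1926 N))))))))))))))) N)))))))))))))))))⟩
def e0_63__95_128 : Ent 4 := ⟨[a0, a63], [a95, a211], (M a85 (F (T t88 (L l137 (L l469 (T t52 (T t89 (T t90 (K a64 (M a252 (F (T t93 (L l93 (T t92 N))))) (K a192 (M a16 (F (T t112 (T t1924 (L l296 (T t1925 N)))))) (K a21 (M a48 (F (T t873 (L l47 (L l137 (L l245 (L l361 (T t100 (L l137 (T t50 N)))))))))) (K a149 (M a48 (F (T t132 (L l220 (T t873 (L l137 (L l220 (T t50 N)))))))) (K a213 (Fr a170 a255 l476 (Fr a42 a21 l68 (Fr a106 a234 l390 (Fr a192 a149 l519 (V t581))))) (K a42 (M a48 (F (L l344 (L l469 (T t364 (L l137 (L l390 (T t50 (L l28 (L l137 (L l245 (L l361 (T t100 N))))))))))))) (K a106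 (M a48 (F (L l469 (T t1 (L l104 (L l245 (L l361 (T t509 (L l390 (L l498 (T t51 N))))))))))) (K a170 (M a48 (F (L l344 (T t607 (L l137 (L l245 (L l361 (L l404 (T t100 (L l390 (T t51 (L l245 (L l361 (L l390 (L l404 (T t568 N)))))))))))))))) (K a255 (M a15 (F (T t1254 (L l137 (L l266 (L l361 (L l373 (T t1497 (L l266 (L l296 (T t1484 (L l238 (L l266 (L l296 (T t1926 N))))))))))))))) N)))))))))))))))))⟩
def e0_63__95_129 : Ent 4 := ⟨[a0, a63], [a95, a213], (M a12 (F (T t151 (L l347 (T t122 (L l347 (T t152 (T t153 (K a4 (M a60 (F (T t43 (L l469 (T t398 (T t448 N)))))) (K a8 (M a60 (F (T t570 (L l347 (T t67 (L l52 (L l56 (T t448 N)))))))) (K a21 (M a85 (F (T t1370 (L l15 (L l137 (L l278 (T t574 (L l89 (L l137 (T t124 N)))))))))) (K a25 (M a192 (F (T t449 (L l15 (L l347 (T t450 (L l137 (L l347 (L l469 (T t21 N)))))))))) (K a29 (M a192 (F (T t156 (L l137 (L l347 (L l371 (L l469 (T t21 (L l347 (L l371 (T t2623 N)))))))))))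 (K a38 (M a192 (F (T t836 (L l347 (T t450 (L l137 (L l347 (L l469 (T t21 N))))))))) (K a42 (M a192 (F (T t449 (L l347 (T t450 (L l56 (L l278 (L l347 (T t157 N))))))))) (K a46 (M a192 (F (T t156 (L l137 (L l347 (L l469 (T t21 (L l347 (T t2623 N))))))))) (K a51 (M a192 (F (T t158 (L l513 (T t156 (L l137 (L l347 (L l439 (L l469 (T t21 N)))))))))) N)))))))))))))))))⟩
def e0_63__95_130 : Ent 4 := ⟨[a0, a63], [a95, a214], (M a85 (F (T t90 (L l239 (T t88 (L l137 (L l294 (L l469 (T t52 (L l239 (T t89 (K a64 (M a252 (F (T t93 (L l93 (L l239 (T t497 N)))))) (K a192 (M a16 (F (T t112 (T t1924 (L l239 (L l296 (T t1925 N))))))) (K a21 (M a48 (F (T t873 (L l47 (L l137 (L l361 (T t100 (L l137 (T t50 N))))))))) (K a149 (M a48 (F (T t132 (L l220 (T t873 (L l137 (L l220 (T t50 N)))))))) (K a213 (Fr a170 a255 l476 (Fr a42 a21 l68 (Fr a106 a234 l390 (Fr a192 a149 l519 (V t581))))) (K a42 (M a48 (F (L l469 (T t364 (L l137 (L l390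 (T t50 (L l28 (L l137 (L l361 (T t100 N))))))))))) (K a106 (M a48 (F (T t48 (L l104 (L l361 (T t509 (L l137 (L l390 (T t50 N))))))))) (K a170 (M a48 (F (T t607 (L l137 (L l361 (L l404 (T t100 (L l239 (L l390 (T t51 (L l239 (L l361 (L l390 (L l404 (T t568 N))))))))))))))) (K a255 (M a15 (F (T t1254 (L l137 (L l266 (L l361 (T t1497 (L l239 (L l266 (L l296 (T t1484 (L l239 (L l266 (L l296 (T t1926 N))))))))))))))) N))))))))))))))))))))⟩
def e0_63__95_131 : Ent 4 := ⟨[a0, a63], [a95, a215], (M a12 (F (T t122 (T t151 (T t152 (T t153 (K a4 (M a60 (F (T t69 (L l469 (T t398 (L l349 (T t448 N))))))) (K a8 (M a60 (F (T t68 (L l469 (T t398 (L l52 (L l56 (L l349 (T t448 N))))))))) (K a21 (M a192 (F (T t836 (L l15 (L l347 (T t450 (L l15 (L l277 (L l347 (T t157 N)))))))))) (K a25 (M a192 (F (T t449 (L l15 (T t450 (L l137 (L l295 (L l469 (T t21 N))))))))) (K a29 (M a192 (F (T t449 (L l137 (L l295 (L l371 (L l469 (T t21 (L l239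 (T t160 N)))))))))) (K a38 (M a192 (F (T t836 (T t450 (L l137 (L l295 (L l469 (T t21 N)))))))) (K a42 (M a192 (F (T t449 (T t450 (L l56 (L l277 (T t157 N))))))) (K a46 (M a192 (F (T t449 (L l137 (L l295 (L l469 (T t21 (L l26 (L l239 (L l408 (T t160 N))))))))))) (K a51 (M a192 (F (T t57 (L l513 (T t156 (L l415 (T t450 N))))))) N)))))))))))))))⟩
def e0_63__95_132 : Ent 4 := ⟨[a0, a63], [a95, a218], (M a85 (F (T t90 (L l246 (T t88 (L l137 (L l282 (L l469 (T t52 (L l246 (T t89 (K a64 (M a252 (F (T t93 (L l93 (L l246 (T t92 N)))))) (K a192 (M a48 (F (T t1243 (T t48 (L l137 (L l268 (L l303 (T t50 N)))))))) (K a21 (M a48 (F (T t1243 (L l47 (L l137 (L l246 (L l282 (L l361 (T t100 (L l137 (L l303 (T t50 N)))))))))))) (K a149 (M a48 (F (T t132 (L l220 (L l303 (T t873 (L l137 (L l220 (L l303 (T t50 N)))))))))) (K a213 (Fr a170 a255 l476 (Fr a42 a21 l68 (Fr a106 a234 l390 (Fr a192 a149 l519 (V t581))))) (K a42 (M a48 (F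 (L l469 (T t364 (L l137 (L l390 (T t567 (L l28 (L l137 (L l246 (L l282 (L l361 (T t100 N))))))))))))) (K a106 (M a48 (F (T t48 (L l104 (L l246 (L l361 (T t509 (L l137 (L l303 (L l390 (T t50 N))))))))))) (K a170 (M a4 (F (L l390 (L l464 (T t519 (L l246 (L l390 (T t131 (L l137 (L l464 (T t130 (L l464 (T t938 N))))))))))))) (K a255 (M a15 (F (T t1254 (L l137 (L l266 (L l361 (T t1497 (L l246 (L l266 (L l296 (T t1484 (L l246 (L l296 (T t4526 N)))))))))))))) N))))))))))))))))))))⟩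
def e0_63__95_133 : Ent 4 := ⟨[a0, a63], [a95, a219], (M a85 (F (T t88 (L l137 (L l469 (T t52 (T t89 (T t90 (K a64 (M a252 (F (T t93 (L l93 (T t92 N))))) (K a192 (M a16 (F (T t112 (T t1924 (L l296 (T t1925 N)))))) (K a21 (M a48 (F (T t1243 (L l47 (L l137 (L l245 (L l361 (T t100 (L l137 (T t50 N)))))))))) (K a149 (M a48 (F (T t132 (L l220 (L l301 (T t873 (L l137 (L l220 (T t50 N))))))))) (K a213 (Fr a170 a255 l476 (Fr a42 a21 l68 (Fr a106 a234 l390 (Fr a192 a149 l519 (V t581))))) (K a42 (M a48 (F (L l469 (T t364 (L l137 (L l390 (T t50 (L l28 (L l137 (L l245 (L l361 (T t100 N)))))))))))) (K a106 (M a48 (F (T t48 (L l104 (L l245 (L l361 (T t509 (L l137 (L l390 (T t50 N)))))))))) (K a170 (M a48 (F (T t607 (L l137 (L l245 (L l361 (L l404 (T t100 (L l390 (T t51 (L l245 (L l361 (L l390 (L l404 (T t568 N))))))))))))))) (K a255 (M a15 (F (T t1254 (L l137 (L l266 (L l361 (T t1497 (L l266 (L l296 (T t1484 (L l266 (L l296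 (T t1926 N))))))))))))) N)))))))))))))))))⟩
def e0_63__95_134 : Ent 4 := ⟨[a0, a63], [a95, a223], (M a12 (L l361 (F (T t122 (T t151 (T t152 (T t153 (K a4 (M a31 (F (T t2312 (L l362 (T t1369 (L l46 (T t3445 N))))))) (K a8 (M a31 (F (T t3446 (L l56 (L l368 (T t2084 (L l56 (T t3445 N)))))))) (K a21 (M a85 (L l361 (F (T t1601 (L l15 (L l137 (T t574 (L l89 (L l137 (L l362 (T t124 (K a31 (M a159 (L l18 (F (T t2427 (L l137 (T t4527 (L l137 (L l289 (L l469 (T t4528 (K a16 (M a26 (F (T t2427 (L l137 (T t4529 (L l89 (L l137 (L l362 (T t124 N))))))))) (K a26 (M a16 (F (T t2427 (L l137 (T t4530 (L l13 (L l362 (T t871 N)))))))) N)))))))))))) (K a159 (M a31 (F (T t2427 (L l65 (T t3446 N))))) N))))))))))))) (K a25 (M a31 (F (T t3446 (L l56 (L l368 (T t2084 (L l12 (L l56 (T t3445 N))))))))) (K a29 (M a31 (F (T t2312 (L l59 (T t3860 (L l59 (L l368 (T t4050 (L l362 (T t4051 (L l59 (L l368 (T t4052 N))))))))))))) (K a38 (M a15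 (L l361 (F (T t2576 (L l50 (T t731 (T t717 (K a31 (M a159 (F (T t3936 (L l137 (T t4527 (L l137 (T t4531 N))))))) (K a159 (Fr a31 a47 l61 (V t4532)) N))))))))) (K a42 (M a192 (L l361 (F (T t449 (T t450 (L l56 (T t157 (K a31 (M a159 (F (T t156 (L l137 (L l390 (T t4533 N)))))) (K a159 (M a31 (F (T t449 (L l28 (L l246 (L l390 (T t1348 N))))))) N))))))))) (K a46 (M a31 (F (L l23 (T t3860 (L l26 (L l362 (T t4058 (L l23 (L l26 (L l368 (T t2084 (L l26 (L l368 (T t4053 (L l26 (L l368 (T t4052 N))))))))))))))))) (K a51 (M a31 (F (T t2312 (L l39 (L l362 (T t1369 (T t3445 N))))))) (K a31 (M a159 (F (T t151 (L l137 (T t4527 (K a4 (M a192 (F (T t543 (L l1 (L l137 (L l469 (T t4534 N))))))) (K a8 (M a192 (F (T t221 (L l137 (L l320 (L l469 (T t4534 N))))))) N))))))) (K a159 (M a31 (F (T t151 (L l362 (T t1369 (L l368 (T t2084 N))))))) N))))))))))))))))))⟩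
def e0_63__95_135 : Ent 4 := ⟨[a0, a63], [a95, a224], (M a12 (F (T t122 (T t151 (T t152 (T t153 (K a4 (M a60 (F (T t43 (L l469 (T t398 (T t448 N)))))) (K a8 (M a60 (F (T t67 (L l469 (T t398 (L l52 (L l56 (T t448 N)))))))) (K a21 (M a192 (F (T t836 (L l15 (L l248 (L l347 (T t450 (L l15 (L l248 (L l347 (T t157 N))))))))))) (K a25 (M a192 (F (T t449 (L l15 (L l248 (T t450 (L l137 (L l469 (T t21 N))))))))) (K a29 (M a192 (F (T t449 (L l137 (L l371 (L l469 (T t21 (L l411 (T t160 N))))))))) (K a38 (M a192 (F (T t156 (L l248 (T t450 (L l137 (L l469 (T t21 N)))))))) (K a42 (M a192 (F (T t449 (L l248 (T t450 (L l56 (L l248 (T t157 N)))))))) (K a46 (M a192 (F (T t449 (L l137 (L l469 (T t21 (L l26 (L l408 (L l411 (T t160 N)))))))))) (K a51 (M a106 (F (T t3609 (L l248 (L l256 (T t2474 N)))))) N)))))))))))))))⟩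
def e0_63__95_136 : Ent 4 := ⟨[a0, a63], [a95, a225], (M a85 (F (T t88 (L l137 (L l469 (T t52 (T t89 (T t90 (K a64 (M a252 (F (T t93 (L l93 (T t92 N))))) (K a192 (M a16 (F (T t112 (T t1924 (L l296 (T t1925 N)))))) (K a21 (M a48 (F (T t873 (L l47 (L l137 (L l361 (T t100 (L l137 (L l273 (T t50 N)))))))))) (K a149 (M a48 (F (T t132 (L l220 (T t873 (L l137 (L l220 (L l273 (T t50 N))))))))) (K a213 (Fr a170 a255 l476 (Fr a42 a21 l68 (Fr a106 a234 l390 (Fr a192 a149 l519 (V t581))))) (K a42 (M a48 (F (L l469 (T t364 (L l137 (L l273 (L l390 (T t50 (L l28 (L l137 (L l361 (T t100 N)))))))))))) (K a106 (M a48 (F (T t48 (L l104 (L l361 (T t509 (L l137 (L l273 (L l390 (T t50 N)))))))))) (K a170 (M a48 (F (T t607 (L l137 (L l361 (L l404 (T t100 (L l390 (T t51 (L l361 (L l390 (L l404 (T t568 N))))))))))))) (K a255 (M a15 (F (T t1254 (L l137 (L l248 (L l266 (L l361 (T t1497 (L l266 (L l296 (T t1484 (L l266 (L l273 (L l296 (T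 t1926 N))))))))))))))) N)))))))))))))))))⟩
def e0_63__95_137 : Ent 4 := ⟨[a0, a63], [a95, a226], (M a12 (F (T t152 (L l378 (T t122 (L l408 (T t151 (T t153 (K a4 (M a60 (F (T t43 (L l469 (T t398 (L l408 (T t448 N))))))) (K a8 (M a60 (F (T t67 (L l469 (T t398 (L l52 (L l56 (L l408 (T t448 N))))))))) (K a21 (M a192 (F (T t156 (L l408 (T t543 (L l50 (L l408 (T t681 N)))))))) (K a25 (M a192 (F (T t449 (L l408 (T t543 (L l137 (L l469 (T t21 N)))))))) (K a29 (M a192 (F (T t449 (L l137 (L l371 (L l469 (T t21 (L l408 (T t160 N))))))))) (K a38 (M a192 (F (T t836 (L l408 (T t543 (L l137 (L l469 (T t21 N)))))))) (K a42 (M a192 (F (T t156 (L l390 (L l408 (T t543 (L l390 (L l408 (T t681 N))))))))) (K a46 (M a106 (F (T t2305 (L l26 (L l272 (T t586 (L l254 (T t2476 N)))))))) (K a51 (M a192 (F (T t1725 (L l408 (L l415 (T t543 (L l137 (L l439 (L l469 (T t21 N)))))))))) N)))))))))))))))))⟩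
def e0_63__95_138 : Ent 4 := ⟨[a0, a63], [a95, a227], (M a85 (F (T t88 (L l137 (L l469 (T t52 (T t89 (T t90 (K a64 (M a252 (F (T t93 (L l93 (T t92 N))))) (K a192 (M a16 (F (L l380 (T t1924 (L l296 (T t1925 (L l380 (T t112 N)))))))) (K a21 (M a48 (F (T t873 (L l47 (L l137 (L l361 (L l380 (T t100 (L l137 (T t50 N)))))))))) (K a149 (M a48 (F (L l220 (T t873 (L l380 (T t132 (L l137 (L l220 (T t50 N))))))))) (K a213 (Fr a170 a255 l476 (Fr a42 a21 l68 (Fr a106 a234 l390 (Fr a192 a149 l519 (V t581))))) (K a42 (M a48 (F (L l255 (L l469 (T t364 (L l137 (L l390 (T t50 (L l28 (L l137 (L l361 (L l380 (T t100 N))))))))))))) (K a106 (M a48 (F (T t48 (L l104 (L l361 (L l380 (T t509 (L l137 (L l390 (T t50 N)))))))))) (K a170 (M a48 (F (L l462 (T t48 (L l137 (L l361 (L l380 (L l404 (T t100 (L l390 (T t51 (L l361 (L l380 (L l390 (L l404 (T t568 N)))))))))))))))) (K a255 (M a15 (F (L l440 (T t731 (L l137 (L l248 (L l266 (L l361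 (T t1497 (L l266 (L l296 (T t1484 (L l266 (L l296 (L l409 (T t1926 N)))))))))))))))) N)))))))))))))))))⟩
def e0_63__95_139 : Ent 4 := ⟨[a0, a63], [a95, a229], (M a85 (F (T t90 (L l275 (T t88 (L l137 (L l256 (L l469 (T t52 (L l275 (T t89 (K a64 (M a252 (F (T t93 (L l93 (L l275 (T t92 N)))))) (K a192 (M a16 (F (T t112 (T t1924 (L l275 (L l296 (T t1925 N))))))) (K a21 (M a48 (F (T t1243 (L l47 (L l137 (L l361 (T t100 (L l137 (L l303 (T t50 N)))))))))) (K a149 (M a48 (F (T t132 (L l220 (L l303 (T t873 (L l137 (L l220 (L l303 (T t50 N)))))))))) (K a213 (Fr a170 a255 l476 (Fr a42 a21 l68 (Fr a106 a234 l390 (Fr a192 a149 l519 (V t581))))) (K a42 (M a48 (F (L l256 (L l469 (T t364 (L l28 (L l137 (L l361 (T t100 (L l137 (L l303 (L l390 (T t50 N))))))))))))) (K a106 (M a48 (F (T t48 (L l256 (L l469 (T t364 (L l137 (L l303 (L l390 (T t50 N)))))))))) (K a170 (M a4 (F (L l390 (L l464 (T t519 (L l275 (L l390 (T t131 (L l137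 (L l464 (T t130 (L l464 (T t938 N))))))))))))) (K a255 (M a15 (F (T t1254 (L l137 (L l256 (L l266 (L l275 (L l361 (T t1497 (L l266 (L l275 (T t3676 (L l266 (L l275 (L l296 (L l303 (T t1926 N))))))))))))))))) N))))))))))))))))))))⟩
def e0_63__95_140 : Ent 4 := ⟨[a0, a63], [a95, a230], (M a85 (F (T t90 (L l278 (T t88 (L l137 (L l254 (L l469 (T t52 (L l278 (T t89 (K a64 (M a204 (F (T t1575 (L l278 (T t2343 N))))) (K a192 (M a16 (F (T t112 (T t1924 (L l278 (L l296 (T t1925 N))))))) (K a21 (M a48 (F (T t873 (L l47 (L l137 (L l361 (T t100 (L l137 (T t50 N))))))))) (K a149 (M a48 (F (T t132 (L l220 (T t873 (L l137 (L l220 (T t50 N)))))))) (K a213 (Fr a170 a255 l476 (Fr a42 a21 l68 (Fr a106 a234 l390 (Fr a192 a149 l519 (V t581))))) (K a42 (M a48 (F (L l469 (T t364 (L l137 (L l390 (T t50 (L l28 (L l137 (L l361 (T t100 N))))))))))) (K a106 (M a48 (F (T t48 (L l104 (L l361 (T t509 (L l137 (L l390 (T t50 N))))))))) (K a170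 (M a48 (F (T t607 (L l137 (L l361 (L l404 (T t100 (L l278 (L l390 (T t51 (L l278 (L l361 (L l390 (L l404 (T t568 N))))))))))))))) (K a255 (M a15 (F (T t1254 (L l137 (L l266 (L l361 (T t1497 (L l266 (L l278 (L l296 (T t1484 (L l266 (L l278 (L l296 (T t1926 N))))))))))))))) N))))))))))))))))))))⟩
def e0_63__95_141 : Ent 4 := ⟨[a0, a63], [a95, a231], (M a85 (F (T t88 (L l137 (L l469 (T t52 (T t89 (T t90 (K a64 (M a252 (F (T t93 (L l93 (T t92 N))))) (K a192 (M a16 (F (T t112 (T t1924 (L l296 (T t1925 N)))))) (K a21 (M a48 (F (T t1243 (L l47 (L l137 (L l361 (T t100 (L l137 (T t50 N))))))))) (K a149 (M a48 (F (T t132 (L l220 (L l301 (T t873 (L l137 (L l220 (T t50 N))))))))) (K a213 (Fr a170 a255 l476 (Fr a42 a21 l68 (Fr a106 a234 l390 (Fr a192 a149 l519 (V t581))))) (K a42 (M a48 (F (L l255 (L l469 (T t364 (L l137 (L l390 (T t50 (L l28 (L l137 (L l361 (T t100 N)))))))))))) (K a106 (M a48 (F (T t48 (L l104 (L l361 (L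 l386 (T t509 (L l137 (L l390 (T t50 N)))))))))) (K a170 (M a48 (F (T t607 (L l137 (L l361 (L l404 (T t100 (L l390 (T t51 (L l361 (L l390 (L l404 (T t568 N))))))))))))) (K a255 (M a15 (F (T t1254 (L l137 (L l266 (L l361 (T t1497 (L l266 (L l296 (T t1484 (L l266 (L l296 (T t1926 N))))))))))))) N)))))))))))))))))⟩
def e0_63__95_142 : Ent 4 := ⟨[a0, a63], [a95, a234], (M a12 (F (T t122 (L l390 (T t151 (T t152 (L l390 (T t153 (K a4 (M a60 (F (T t570 (L l46 (L l50 (T t67 (L l390 (T t448 N)))))))) (K a8 (M a60 (F (T t68 (L l469 (T t398 (L l52 (L l56 (L l390 (T t448 N))))))))) (K a21 (M a192 (F (T t836 (L l15 (L l254 (L l347 (T t450 (L l15 (L l254 (L l347 (T t157 N))))))))))) (K a25 (M a192 (F (T t156 (L l15 (L l254 (T t450 (L l390 (L l469 (T t202 N))))))))) (K a29 (M a192 (F (T t156 (L l390 (L l469 (T t202 (L l390 (T t2625 N)))))))) (K a38 (M a192 (F (T t156 (L l254 (T t450 (L l390 (L l469 (T t202 N)))))))) (K a42 (M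 a106 (F (T t2416 (L l56 (L l254 (T t2415 (T t2305 N))))))) (K a46 (M a192 (F (T t156 (L l390 (L l408 (L l469 (T t202 (L l390 (L l408 (T t2625 N)))))))))) (K a51 (M a192 (F (T t576 (L l513 (T t156 (L l390 (L l439 (L l469 (T t202 N))))))))) N)))))))))))))))))⟩
def e0_63__95_143 : Ent 4 := ⟨[a0, a63], [a95, a235], (M a12 (F (T t122 (T t151 (T t152 (T t153 (K a4 (M a60 (F (T t69 (L l469 (T t398 (L l392 (T t448 N))))))) (K a8 (M a60 (F (T t68 (L l469 (T t398 (L l52 (L l56 (L l392 (T t448 N))))))))) (K a21 (M a192 (F (T t836 (L l15 (L l347 (T t450 (L l15 (L l347 (T t157 N))))))))) (K a25 (M a192 (F (T t449 (L l15 (T t450 (L l137 (L l295 (L l469 (T t21 N))))))))) (K a29 (M a192 (F (T t449 (L l137 (L l295 (L l371 (L l469 (T t21 (T t160 N))))))))) (K a38 (M a192 (F (T t836 (T t450 (L l137 (L l295 (L l469 (T t21 N)))))))) (K a42 (M a192 (F (T t449 (T t450 (L l56 (T t157 N)))))) (K a46 (M a192 (F (T t449 (L l137 (L l295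 (L l469 (T t21 (L l26 (L l408 (T t160 N)))))))))) (K a51 (M a192 (F (T t1681 (L l513 (T t156 (L l415 (T t450 N))))))) N)))))))))))))))⟩
def e0_63__95_144 : Ent 4 := ⟨[a0, a63], [a95, a239], (M a12 (F (T t122 (T t151 (T t152 (T t153 (K a4 (M a60 (F (T t43 (L l469 (T t398 (T t448 N)))))) (K a8 (M a60 (F (T t67 (L l469 (T t398 (L l52 (L l56 (T t448 N)))))))) (K a21 (M a192 (F (T t836 (L l15 (L l347 (T t450 (L l15 (L l347 (T t157 N))))))))) (K a25 (M a192 (F (T t449 (L l15 (T t450 (L l137 (L l289 (L l469 (T t21 N))))))))) (K a29 (M a192 (F (T t449 (L l137 (L l289 (L l371 (L l469 (T t21 (T t160 N))))))))) (K a38 (M a192 (F (T t836 (T t450 (L l137 (L l289 (L l469 (T t21 N)))))))) (K a42 (M a192 (F (T t449 (T t450 (L l56 (T t157 N)))))) (K a46 (M a192 (F (T t449 (L l137 (L l289 (L l469 (T t21 (L l26 (L l408 (T t160 N)))))))))) (K a51 (M a192 (F (T t1800 (L l513 (T t156 (L l415 (T t450 N))))))) N)))))))))))))))⟩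
def e0_63__95_145 : Ent 4 := ⟨[a0, a63], [a95, a240], (M a12 (F (T t150 (L l417 (T t122 (L l417 (T t151 (L l417 (T t152 (L l417 (T t153 (K a4 (M a60 (F (T t570 (L l46 (L l50 (L l453 (T t67 (T t448 N)))))))) (K a8 (M a60 (F (T t116 (L l469 (L l483 (T t398 (L l52 (L l56 (T t448 N))))))))) (K a21 (M a192 (F (T t158 (L l298 (T t156 (L l15 (L l347 (T t157 N)))))))) (K a25 (M a192 (F (T t158 (L l298 (T t156 (L l137 (L l266 (L l469 (T t21 N))))))))) (K a29 (M a192 (F (T t1681 (L l298 (T t156 (T t160 N)))))) (K a38 (M a192 (F (T t161 (L l298 (T t156 (L l137 (L l266 (L l469 (T t21 N))))))))) (K a42 (M a192 (F (T t161 (L l298 (T t156 (L l56 (T t157 N))))))) (K a46 (M a192 (F (T t57 (L l298 (T t156 (L l26 (L l408 (T t160 N)))))))) (K a51 (M a106 (L l417 (F (T t3609 (T t2474 (K a177 (M a114 (F (T t2419 (L l268 (L l489 (T t4429 (T t2415 N))))))) (K a114 (M a177 (F (T t2419 (L l268 (L l489 (T t4429 (T t2415 N))))))) N)))))))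 N))))))))))))))))))))⟩
def e0_63__95_146 : Ent 4 := ⟨[a0, a63], [a95, a241], (M a85 (F (T t88 (L l137 (L l469 (T t52 (T t89 (T t90 (K a64 (M a16 (F (T t112 (L l84 (T t1924 (L l116 (T t1925 N))))))) (K a192 (M a16 (F (T t112 (T t1924 (L l296 (T t1925 N)))))) (K a21 (M a48 (F (T t873 (L l47 (L l137 (L l361 (T t100 (L l137 (L l258 (T t50 N)))))))))) (K a149 (M a48 (F (T t132 (L l220 (T t873 (L l137 (L l220 (L l258 (T t50 N))))))))) (K a213 (Fr a170 a255 l476 (Fr a42 a21 l68 (Fr a106 a234 l390 (Fr a192 a149 l519 (V t581))))) (K a42 (M a48 (F (L l469 (T t364 (L l137 (L l258 (L l390 (T t50 (L l28 (L l137 (L l361 (T t100 N)))))))))))) (K a106 (M a48 (F (T t48 (L l104 (L l361 (T t509 (L l137 (L l258 (L l390 (T t50 N)))))))))) (K a170 (M a48 (F (T t607 (L l137 (L l361 (L l404 (T t100 (L l390 (T t51 (L l361 (L l390 (L l404 (T t568 N))))))))))))) (K a255 (M a15 (F (T t1254 (L l137 (L l263 (L l266 (L l361 (T t1497 (L l263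 (L l266 (L l296 (T t1484 (L l258 (L l266 (L l296 (T t1926 N)))))))))))))))) N)))))))))))))))))⟩
def e0_63__95_147 : Ent 4 := ⟨[a0, a63], [a95, a242], (M a85 (F (T t88 (L l137 (L l469 (T t52 (T t89 (T t90 (K a64 (M a16 (F (T t112 (L l84 (T t1924 (L l116 (L l480 (T t1925 N)))))))) (K a192 (M a16 (F (T t112 (T t1924 (L l296 (L l480 (T t1925 N))))))) (K a21 (M a48 (F (T t873 (L l47 (L l137 (L l361 (T t100 (L l137 (L l258 (T t50 N)))))))))) (K a149 (M a48 (F (T t132 (L l220 (T t873 (L l137 (L l220 (L l258 (T t50 N))))))))) (K a213 (Fr a170 a255 l476 (Fr a42 a21 l68 (Fr a106 a234 l390 (Fr a192 a149 l519 (V t581))))) (K a42 (M a48 (F (L l469 (T t364 (L l137 (L l258 (L l390 (T t50 (L l28 (L l137 (L l361 (T t100 N)))))))))))) (K a106 (M a48 (F (T t48 (L l104 (L l361 (T t509 (L l137 (L l258 (L l390 (T t50 N)))))))))) (K a170 (M a48 (F (T t607 (L l137 (L l361 (L l404 (T t100 (L l390 (T t51 (L l361 (L l390 (L l404 (T t568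 N))))))))))))) (K a255 (M a15 (F (T t1254 (L l137 (L l266 (L l361 (T t1497 (L l266 (L l296 (T t1484 (L l258 (L l266 (L l296 (T t1926 N)))))))))))))) N)))))))))))))))))⟩
def e0_63__95_148 : Ent 4 := ⟨[a0, a63], [a95, a243], (M a12 (F (T t150 (L l415 (T t122 (L l415 (T t151 (L l415 (T t152 (L l415 (T t153 (K a4 (M a60 (F (T t570 (L l46 (L l50 (L l451 (T t67 (T t448 N)))))))) (K a8 (M a60 (F (T t116 (L l469 (L l481 (T t398 (L l52 (L l56 (T t448 N))))))))) (K a21 (M a68 (F (T t2174 (L l15 (L l265 (L l469 (T t767 (L l265 (T t4535 (L l15 (L l272 (T t3376 N)))))))))))) (K a25 (M a192 (F (T t496 (L l137 (L l265 (L l469 (T t21 (L l56 (T t160 N))))))))) (K a29 (M a192 (F (T t1681 (L l302 (T t156 (T t160 N)))))) (K a38 (M a192 (F (T t1725 (L l137 (L l265 (L l469 (T t21 (L l26 (T t160 N))))))))) (K a42 (M a68 (F (L l302 (T t4536 (L l265 (L l469 (T t767 (L l56 (L l265 (L l390 (T t4535 (L l56 (L l272 (T t3376 N))))))))))))))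 (K a46 (M a192 (F (T t57 (L l302 (T t156 (L l26 (L l408 (T t160 N)))))))) (K a51 (M a192 (L l415 (F (T t1681 (L l302 (L l513 (T t156 (T t160 (K a115 (M a179 (F (T t496 (L l265 (L l439 (L l469 (T t35 (L l113 (T t776 N))))))))) (K a179 (M a115 (F (T t2119 (L l265 (L l439 (L l469 (T t35 (T t776 N)))))))) N)))))))))) N))))))))))))))))))))⟩
def e0_63__95_149 : Ent 4 := ⟨[a0, a63], [a95, a245], (M a12 (F (T t122 (T t151 (T t152 (T t153 (K a4 (M a60 (F (T t43 (L l469 (T t398 (T t448 N)))))) (K a8 (M a60 (F (T t67 (L l469 (T t398 (L l52 (L l56 (T t448 N)))))))) (K a21 (M a192 (F (T t836 (L l15 (L l347 (T t450 (L l15 (L l259 (L l347 (T t157 N)))))))))) (K a25 (M a192 (F (T t449 (L l15 (T t450 (L l137 (L l266 (L l469 (T t21 N))))))))) (K a29 (M a192 (F (T t449 (L l137 (L l266 (L l371 (L l469 (T t21 (L l275 (T t160 N)))))))))) (K a38 (M a192 (F (T t836 (T t450 (L l137 (L l266 (L l469 (T t21 N)))))))) (K a42 (M a192 (F (T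 t449 (T t450 (L l56 (L l259 (T t157 N))))))) (K a46 (M a192 (F (T t449 (L l137 (L l266 (L l469 (T t21 (L l26 (L l275 (L l408 (T t160 N))))))))))) (K a51 (M a192 (F (T t57 (L l513 (T t156 (L l415 (T t450 N))))))) N)))))))))))))))⟩
def e0_63__95_150 : Ent 4 := ⟨[a0, a63], [a95, a246], (M a85 (F (T t88 (L l137 (L l469 (T t52 (T t89 (T t90 (K a64 (M a252 (F (T t93 (L l93 (T t92 N))))) (K a192 (M a16 (F (T t112 (T t1924 (L l296 (T t1925 N)))))) (K a21 (M a48 (F (T t873 (L l47 (L l137 (L l361 (T t100 (L l137 (T t50 N))))))))) (K a149 (M a48 (F (T t132 (L l220 (T t873 (L l137 (L l220 (T t50 N)))))))) (K a213 (Fr a170 a255 l476 (Fr a42 a21 l68 (Fr a106 a234 l390 (Fr a192 a149 l519 (V t581))))) (K a42 (M a48 (F (L l469 (T t364 (L l137 (L l390 (T t50 (L l28 (L l137 (L l361 (T t100 N))))))))))) (K a106 (M a48 (F (T t48 (L l104 (L l361 (T t509 (L l137 (L l390 (T t50 N))))))))) (K a170 (M a48 (F (T t607 (L l137 (L l361 (L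 l404 (T t100 (L l390 (T t51 (L l361 (L l390 (L l404 (T t568 N))))))))))))) (K a255 (M a15 (F (T t1254 (L l137 (L l259 (L l266 (L l361 (T t1497 (L l259 (L l266 (L l296 (T t1484 (L l266 (L l296 (T t1926 N))))))))))))))) N)))))))))))))))))⟩
def e0_63__95_151 : Ent 4 := ⟨[a0, a63], [a95, a247], (M a12 (F (T t122 (T t151 (L l458 (T t152 (L l421 (T t153 (K a4 (M a85 (F (T t90 (L l89 (L l137 (T t124 (L l89 (L l278 (T t154 N))))))))) (K a8 (M a60 (F (T t67 (L l469 (T t398 (L l52 (L l56 (T t448 N)))))))) (K a21 (M a192 (F (T t156 (L l15 (L l265 (L l347 (T t450 (L l50 (L l265 (L l458 (T t2473 N))))))))))) (K a25 (M a192 (F (T t836 (L l15 (L l265 (T t450 (L l137 (L l265 (L l469 (T t21 N)))))))))) (K a29 (M a192 (F (T t156 (L l137 (L l265 (L l371 (L l469 (T t21 (L l15 (L l371 (T t776 N))))))))))) (K a38 (M a192 (F (T t156 (L l265 (T t450 (L l137 (L l265 (L l469 (T t21 N))))))))) (K a42 (M a192 (F (T t836 (L l265 (T t450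 (L l26 (L l265 (L l390 (L l458 (T t2473 N)))))))))) (K a46 (M a192 (F (T t836 (L l137 (L l265 (L l469 (T t21 (T t776 N)))))))) (K a51 (M a192 (F (T t1800 (L l513 (T t156 (L l265 (L l415 (T t450 N)))))))) N)))))))))))))))))⟩
def e0_63__95_152 : Ent 4 := ⟨[a0, a63], [a95, a250], (M a12 (F (T t122 (T t151 (T t152 (T t153 (K a4 (M a60 (F (T t43 (L l469 (T t398 (T t448 N)))))) (K a8 (M a60 (F (T t67 (L l469 (T t398 (L l52 (L l56 (T t448 N)))))))) (K a21 (M a192 (F (T t836 (L l15 (L l347 (T t450 (L l15 (L l347 (T t157 N))))))))) (K a25 (M a192 (F (T t449 (L l15 (T t450 (L l137 (L l266 (L l469 (T t21 N))))))))) (K a29 (M a192 (F (T t449 (L l137 (L l266 (L l371 (L l469 (T t21 (T t160 N))))))))) (K a38 (M a192 (F (T t836 (T t450 (L l137 (L l266 (L l469 (T t21 N)))))))) (K a42 (M a192 (F (T t449 (T t450 (L l56 (T t157 N)))))) (K a46 (M a192 (F (T t449 (L l137 (L l266 (L l469 (T t21 (L l26 (L l408 (T t160 N)))))))))) (K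 a51 (M a192 (F (T t1681 (L l513 (T t156 (L l415 (T t450 N))))))) N)))))))))))))))⟩
def e0_63__95_153 : Ent 4 := ⟨[a0, a63], [a95, a251], (M a12 (F (T t122 (T t151 (L l427 (T t152 (L l464 (T t153 (K a4 (M a60 (F (T t43 (L l469 (T t398 (T t448 N)))))) (K a8 (M a170 (F (L l284 (T t439 (L l94 (T t2498 (L l284 (T t2626 N)))))))) (K a21 (M a192 (F (T t156 (L l15 (L l265 (L l347 (T t450 (L l15 (L l265 (L l347 (L l464 (T t157 N)))))))))))) (K a25 (M a192 (F (T t836 (L l15 (L l265 (T t450 (L l137 (L l265 (L l469 (T t21 N)))))))))) (K a29 (M a192 (F (T t156 (L l137 (L l265 (L l371 (L l469 (T t21 (T t160 N))))))))) (K a38 (M a192 (F (T t156 (L l265 (T t450 (L l137 (L l265 (L l469 (T t21 N))))))))) (K a42 (M a192 (F (T t836 (L l265 (T t450 (L l56 (L l265 (L l464 (T t157 N))))))))) (K a46 (M a192 (F (T t836 (L l137 (L l265 (L l469 (T t21 (L l26 (L l408 (T t160 N)))))))))) (K a51 (M a192 (F (T t1681 (L l513 (T t156 (L l265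 (L l415 (T t450 N)))))))) N)))))))))))))))))⟩
def e0_63__95_154 : Ent 4 := ⟨[a0, a63], [a95, a255], (M a15 (F (T t1254 (L l440 (T t716 (L l440 (T t731 (L l440 (T t723 (L l361 (L l440 (T t732 (K a48 (M a192 (L l440 (F (T t4412 (L l289 (L l512 (T t2795 (L l266 (T t2798 (K a117 (M a186 (F (T t4414 (L l114 (L l266 (L l412 (T t2822 (L l266 (T t2798 N))))))))) (K a186 (M a117 (F (T t4414 (L l266 (L l412 (L l426 (T t2822 (L l266 (L l426 (T t2798 N)))))))))) N))))))))))) (K a5 (M a12 (F (T t2823 (L l47 (L l439 (T t122 (L l5 (T t722 N)))))))) (K a21 (M a192 (F (T t4412 (L l47 (L l289 (T t2795 (L l47 (L l266 (T t2798 N))))))))) (K a37 (M a192 (F (T t4413 (L l266 (T t2796 (L l28 (L l47 (L l266 (T t2798 N))))))))) (K a10 (M a12 (F (T t150 (L l434 (T t2544 (L l54 (T t722 N))))))) (K a26 (M a192 (F (T t4412 (L l289 (T t2795 (L l266 (T t2798 N))))))) (K a42 (M a192 (F (T t2821 (L l266 (L l390 (T t2796 (L l28 (L l266 (L l390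 (T t2798 N)))))))))) (K a31 (M a4 (L l361 (F (T t129 (L l475 (T t2570 (L l17 (T t2571 (K a159 (M a223 (F (T t3062 (L l439 (T t519 (L l17 (T t2571 N))))))) (K a223 (M a159 (L l289 (F (T t129 (L l137 (L l296 (T t4537 (K a207 (M a239 (F (T t129 (L l331 (L l475 (T t2570 (L l17 (T t2571 N)))))))) (K a239 (Fr a207 a111 l505 (V t4538)) N))))))))) N)))))))))) (K a47 (M a4 (F (T t3062 (L l28 (L l439 (T t519 (L l28 (T t2571 N)))))))) N)))))))))))))))))))))⟩
def b0_63__95 : Blk 4 := ⟨[0, 63], [95], [1, 2, 3, 5, 6, 7, 10, 11, 15, 16, 17, 18, 19, 22, 23, 26, 27, 31, 32, 33, 34, 35, 37, 38, 39, 43, 47, 48, 49, 50, 51, 53, 54, 55, 58, 59, 64, 65, 66, 67, 69, 70, 71, 74, 75, 79, 80, 81, 82, 83, 85, 86, 87, 90, 91, 96, 97, 98, 99, 101, 102, 103, 106, 107, 111, 112, 113, 114, 115, 117, 118, 119, 122, 123, 127, 128, 129, 130, 131, 133, 134, 135, 138, 139, 143, 144, 145, 146, 147, 149, 150, 151, 154, 155, 159, 160, 161, 162, 163,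 165, 166, 167, 170, 171, 175, 176, 177, 178, 179, 181, 182, 183, 186, 187, 191, 192, 193, 194, 195, 197, 198, 199, 202, 203, 207, 208, 209, 210, 211, 213, 214, 215, 218, 219, 223, 224, 225, 226, 227, 229, 230, 231, 234, 235, 239, 240, 241, 242, 243, 245, 246, 247, 250, 251, 255], [e0_63__95_0, e0_63__95_1, e0_63__95_2, e0_63__95_3, e0_63__95_4, e0_63__95_5, e0_63__95_6, e0_63__95_7, e0_63__95_8, e0_63__95_9, e0_63__95_10, e0_63__95_11, e0_63__95_12, e0_63__95_13, e0_63__95_14, e0_63__95_15, e0_63__95_16, e0_63__95_17, e0_63__95_18, e0_63__95_19, e0_63__95_20, e0_63__95_21, e0_63__95_22, e0_63__95_23, e0_63__95_24, e0_63__95_25, e0_63__95_26, e0_63__95_27, e0_63__95_28, e0_63__95_29, e0_63__95_30, e0_63__95_31, e0_63__95_32, e0_63__95_33, e0_63__95_34, e0_63__95_35, e0_63__95_36, e0_63__95_37, e0_63__95_38, e0_63__95_39, e0_63__95_40, e0_63__95_41, e0_63__95_42, e0_63__95_43, e0_63__95_44, e0_63__95_45, e0_63__95_46,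 e0_63__95_47, e0_63__95_48, e0_63__95_49, e0_63__95_50, e0_63__95_51, e0_63__95_52, e0_63__95_53, e0_63__95_54, e0_63__95_55, e0_63__95_56, e0_63__95_57, e0_63__95_58, e0_63__95_59, e0_63__95_60, e0_63__95_61, e0_63__95_62, e0_63__95_63, e0_63__95_64, e0_63__95_65, e0_63__95_66, e0_63__95_67, e0_63__95_68, e0_63__95_69, e0_63__95_70, e0_63__95_71, e0_63__95_72, e0_63__95_73, e0_63__95_74, e0_63__95_75, e0_63__95_76, e0_63__95_77, e0_63__95_78, e0_63__95_79, e0_63__95_80, e0_63__95_81, e0_63__95_82, e0_63__95_83, e0_63__95_84, e0_63__95_85, e0_63__95_86, e0_63__95_87, e0_63__95_88, e0_63__95_89, e0_63__95_90, e0_63__95_91, e0_63__95_92, e0_63__95_93, e0_63__95_94, e0_63__95_95, e0_63__95_96, e0_63__95_97, e0_63__95_98, e0_63__95_99, e0_63__95_100, e0_63__95_101, e0_63__95_102, e0_63__95_103, e0_63__95_104, e0_63__95_105, e0_63__95_106, e0_63__95_107, e0_63__95_108, e0_63__95_109, e0_63__95_110, e0_63__95_111,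 e0_63__95_112, e0_63__95_113, e0_63__95_114, e0_63__95_115, e0_63__95_116, e0_63__95_117, e0_63__95_118, e0_63__95_119, e0_63__95_120, e0_63__95_121, e0_63__95_122, e0_63__95_123, e0_63__95_124, e0_63__95_125, e0_63__95_126, e0_63__95_127, e0_63__95_128, e0_63__95_129, e0_63__95_130, e0_63__95_131, e0_63__95_132, e0_63__95_133, e0_63__95_134, e0_63__95_135, e0_63__95_136, e0_63__95_137, e0_63__95_138, e0_63__95_139, e0_63__95_140, e0_63__95_141, e0_63__95_142, e0_63__95_143, e0_63__95_144, e0_63__95_145, e0_63__95_146, e0_63__95_147, e0_63__95_148, e0_63__95_149, e0_63__95_150, e0_63__95_151, e0_63__95_152, e0_63__95_153, e0_63__95_154], by decide +kernel, by decide +kernel⟩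

end Pool.Agent.Lib_TTT.K4
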