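import Pool.Agent.Lib_TTT.K4Base
import Pool.Agent.Lib_TTT.K4T00
import Pool.Agent.Lib_TTT.K4T01
import Pool.Agent.Lib_TTT.K4T02
import Pool.Agent.Lib_TTT.K4T03
import Pool.Agent.Lib_TTT.K4T04
import Pool.Agent.Lib_TTT.K4T05

/-! Certificates in `4^4`. -/

set_option autoImplicit false
set_option maxRecDepth 200000

namespace Pool.Agent.Lib_TTT.K4

open Lib_TTT AC DC

def e0_63__107_0 : Ent 4 := ⟨[a0, a63], [a107, a1], (M a48 (F (T t0 (L l65 (T t1 (L l5 (T t2 (L l65 (L l409 (T t3 (K a16 (M a60 (F (T t451 (L l14 (L l18 (L l65 (L l391 (T t67 (L l5 (T t65 N)))))))))) (K a32 (M a60 (F (T t451 (L l65 (L l391 (T t67 (L l5 (L l24 (L l28 (T t65 N)))))))))) (K a21 (M a192 (L l65 (F (T t837 (L l47 (L l347 (T t20 (L l47 (L l347 (T t29 (K a41 (M a61 (F (T t27 (L l98 (L l305 (T t584 N)))))) (K a61 (M a41 (F (T t27 (L l35 (L l47 (L l347 (L l515 (T t20 (L l18 (L l98 (T t46 N))))))))))) N)))))))))))) (K a37 (M a192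 (F (T t19 (L l47 (T t20 (L l143 (T t21 N))))))) (K a53 (M a192 (F (T t19 (L l143 (L l491 (T t21 (L l98 (T t31 N)))))))) (K a26 (M a192 (F (T t837 (T t20 (L l143 (T t21 N)))))) (K a42 (M a192 (F (T t19 (T t20 (L l28 (T t29 N)))))) (K a58 (M a192 (F (T t19 (L l143 (T t21 (L l54 (L l98 (L l498 (T t31 N))))))))) (K a15 (M a192 (F (T t56 (L l483 (T t27 (L l143 (L l469 (T t21 N)))))))) N)))))))))))))))))))⟩
def e0_63__107_1 : Ent 4 := ⟨[a0, a63], [a107, a2], (M a48 (F (L l6 (T t1 (L l66 (T t2 (L l409 (T t3 (L l66 (T t0 (K a16 (M a60 (F (T t451 (L l66 (T t43 (L l6 (L l14 (L l18 (L l391 (T t44 N)))))))))) (K a32 (M a60 (F (T t451 (L l24 (L l28 (L l66 (T t43 (L l6 (L l391 (T t44 N)))))))))) (K a21 (M a192 (F (T t837 (L l47 (L l347 (T t20 (L l47 (L l347 (T t29 N))))))))) (K a37 (M a192 (F (T t19 (L l47 (T t20 (L l143 (T t21 N))))))) (K a53 (M a192 (F (T t19 (L l143 (L l491 (T t21 (L l66 (L l98 (T t31 N)))))))))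 (K a26 (M a192 (F (T t837 (T t20 (L l143 (T t21 N)))))) (K a42 (M a192 (L l66 (F (T t19 (T t20 (L l28 (T t29 (K a22 (M a62 (F (T t19 (L l42 (T t825 N))))) (K a62 (M a22 (F (T t27 (T t20 (L l98 (L l390 (L l516 (T t46 N)))))))) N))))))))) (K a58 (M a192 (F (T t19 (L l143 (T t21 (L l54 (L l66 (L l98 (L l498 (T t31 N)))))))))) (K a15 (M a192 (F (T t57 (L l483 (T t27 (L l325 (T t20 N))))))) N)))))))))))))))))))⟩
def e0_63__107_2 : Ent 4 := ⟨[a0, a63], [a107, a3], (M a48 (F (T t48 (L l7 (T t1 (L l7 (T t2 (L l7 (L l409 (T t3 (L l7 (T t0 (K a16 (M a85 (F (T t4539 (L l143 (L l453 (T t50 (T t51 N))))))) (K a32 (M a85 (F (L l475 (T t255 (L l404 (L l453 (T t2029 (L l28 (T t51 N))))))))) (K a21 (M a192 (F (T t2113 (L l47 (L l331 (L l347 (T t20 (L l47 (L l347 (T t29 N)))))))))) (K a37 (M a192 (F (T t36 (L l47 (L l331 (T t20 (L l143 (L l475 (T t21 N))))))))) (K a53 (M a192 (F (T t55 (L l143 (L l475 (L l491 (T t21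 (L l98 (T t31 N))))))))) (K a26 (M a192 (F (T t56 (L l453 (T t27 (L l143 (L l475 (T t21 N)))))))) (K a42 (M a192 (F (T t56 (L l453 (T t27 (L l28 (T t29 N))))))) (K a58 (M a192 (F (T t57 (L l453 (T t27 (L l54 (L l98 (L l498 (T t31 N))))))))) (K a15 (M a106 (L l7 (F (T t2289 (T t306 (K a7 (M a11 (F (T t3759 (L l309 (L l339 (T t4540 (T t579 N))))))) (K a11 (M a7 (F (T t3759 (L l309 (L l339 (T t4540 (T t579 N))))))) N))))))) N)))))))))))))))))))))⟩
def e0_63__107_3 : Ent 4 := ⟨[a0, a63], [a107, a4], (M a48 (F (T t0 (L l50 (T t1 (L l1 (T t2 (L l50 (L l409 (T t3 (K a16 (M a60 (F (T t43 (T t64 (L l1 (T t65 N)))))) (K a32 (M a60 (F (T t64 (L l24 (L l28 (T t43 (L l1 (L l24 (L l28 (T t65 N)))))))))) (K a21 (M a192 (L l50 (F (T t837 (L l47 (L l347 (T t20 (L l47 (L l347 (T t29 (K a38 (M a55 (F (T t27 (L l98 (L l310 (L l499 (T t66 N))))))) (K a55 (M a38 (F (T t27 (L l31 (L l47 (L l347 (L l495 (T t20 (L l18 (L l98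 (T t46 N))))))))))) N)))))))))))) (K a37 (M a192 (F (T t19 (L l47 (T t20 (L l143 (T t21 N))))))) (K a53 (M a192 (F (T t19 (L l143 (L l491 (T t21 (L l98 (T t31 N)))))))) (K a26 (M a192 (F (T t837 (T t20 (L l143 (T t21 N)))))) (K a42 (M a192 (F (T t19 (T t20 (L l28 (T t29 N)))))) (K a58 (M a192 (F (T t19 (L l143 (T t21 (L l54 (L l98 (L l498 (T t31 N))))))))) (K a15 (M a192 (F (T t56 (L l483 (T t27 (L l143 (L l469 (T t21 N)))))))) N)))))))))))))))))))⟩
def e0_63__107_4 : Ent 4 := ⟨[a0, a63], [a107, a5], (M a60 (F (T t43 (L l47 (L l391 (T t67 (L l47 (T t68 (L l5 (T t69 (K a20 (M a48 (F (T t70 (L l11 (L l14 (L l47 (L l409 (T t3 (L l46 (T t71 N)))))))))) (K a40 (M a48 (F (T t70 (L l47 (L l409 (T t3 (L l22 (L l24 (T t71 N))))))))) (K a21 (M a192 (L l47 (F (T t77 (L l98 (T t1516 (L l143 (L l347 (T t74 (K a37 (M a53 (F (L l98 (T t1516 (L l28 (T t76 N)))))) (K a53 (M a37 (F (T t77 (L l98 (T t1516 (L l35 (L l65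 (L l347 (L l491 (T t1636 N)))))))))) N))))))))))) (K a41 (M a192 (F (T t77 (L l47 (L l65 (T t35 (L l98 (T t1516 N)))))))) (K a61 (M a192 (F (T t79 (L l47 (L l65 (L l515 (T t35 (L l98 (T t2718 N))))))))) (K a22 (M a192 (F (T t77 (L l143 (T t21 (L l66 (L l98 (T t1516 N)))))))) (K a42 (M a192 (F (T t77 (L l66 (L l98 (L l390 (T t1516 (L l22 (L l143 (T t74 N)))))))))) (K a62 (M a192 (F (T t77 (L l47 (T t35 (L l66 (L l98 (L l516 (T t2718 N))))))))) (K a3 (M a192 (F (T t254 (L l47 (L l475 (T t35 (L l98 (L l307 (T t1516 N))))))))) N)))))))))))))))))))⟩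
def e0_63__107_5 : Ent 4 := ⟨[a0, a63], [a107, a6], (M a149 (F (T t5 (T t175 (T t176 (L l98 (T t177 (K a192 (M a53 (F (T t939 (L l236 (T t179 (L l236 (L l296 (T t180 N)))))))) (K a21 (M a48 (F (T t4 (L l98 (T t13 (L l18 (T t14 N))))))) (K a85 (M a16 (F (T t97 (L l98 (L l144 (T t190 (L l94 (T t278 N)))))))) (K a213 (Fr a106 a192 l519 (Fr a42 a21 l68 (Fr a170 a234 l390 (Fr a255 a85 l476 (V t582))))) (K a42 (M a48 (F (T t187 (L l98 (L l390 (T t13 (L l54 (T t14 N)))))))) (K a106 (M a105 (F (L l390 (T t1931 (L l391 (L l516 (T t1932 (L l390 (L l391 (L l516 (T t1933 (L l390 (L l516 (T t1934 (L l516 (T t1935 N)))))))))))))))) (K a170 (M a48 (F (T t4 (L l6 (L l462 (T t1 (L l98 (L l390 (T t13 N))))))))) (K a191 (M a16 (F (T t97 (L l98 (T t190 (L l213 (T t191 N))))))) (K a255 (M a16 (F (T t504 (L l98 (L l266 (T t190 (L l289 (L l296 (T t191 N))))))))) N))))))))))))))))⟩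
def e0_63__107_6 : Ent 4 := ⟨[a0, a63], [a107, a7], (M a149 (F (T t5 (T t175 (T t176 (L l98 (T t177 (K a192 (M a53 (F (T t939 (L l236 (T t179 (L l236 (L l296 (T t180 N)))))))) (K a21 (M a48 (F (T t4 (L l98 (T t13 (L l18 (T t14 N))))))) (K a85 (M a16 (F (T t504 (L l98 (L l144 (T t190 (L l94 (T t278 N)))))))) (K a213 (Fr a106 a192 l519 (Fr a42 a21 l68 (Fr a170 a234 l390 (Fr a255 a85 l476 (V t582))))) (K a42 (M a48 (F (T t187 (L l98 (L l390 (T t13 (L l54 (T t14 N)))))))) (K a106 (M a105 (F (L l390 (T t1931 (L l391 (L l516 (T t1932 (L l390 (L l391 (L l516 (T t1933 (L l49 (L l390 (L l516 (T t1934 (L l516 (T t1935 N))))))))))))))))) (K a170 (M a48 (F (T t4 (L l7 (L l462 (T t1 (L l98 (L l390 (T t13 N))))))))) (K a191 (M a16 (F (T t504 (L l98 (T t190 (L l213 (T t191 N))))))) (K a255 (M a16 (F (T t504 (L l98 (L l266 (T t190 (L l289 (L l296 (T t191 N))))))))) N))))))))))))))))⟩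
def e0_63__107_7 : Ent 4 := ⟨[a0, a63], [a107, a8], (M a85 (F (T t255 (L l56 (T t88 (L l56 (L l98 (T t89 (L l464 (T t90 (K a64 (M a16 (F (T t258 (L l56 (T t97 (L l56 (L l116 (T t98 N)))))))) (K a192 (M a16 (F (T t96 (L l56 (L l339 (T t97 (L l56 (L l296 (T t98 N))))))))) (K a21 (M a48 (F (T t99 (L l143 (L l464 (T t50 (L l47 (L l143 (T t100 N))))))))) (K a149 (M a16 (F (T t173 (L l56 (L l375 (T t97 (L l56 (L l103 (L l170 (T t102 N)))))))))) (K a213 (Fr a170 a255 l476 (Fr a42 a21 l68 (Fr a106 a234 l390 (Fr a192 a149 l519 (V t581))))) (K a42 (M a59 (F (T t104 (L l143 (L l390 (L l464 (T t105 (L l26 (L l143 (L l316 (T t106 (L l316 (L l390 (L l464 (T t107 N))))))))))))))) (K a106 (M a60 (L l98 (F (T t68 (L l52 (T t936 (L l143 (L l390 (L l464 (T t114 (K a104 (M a105 (F (T t4541 (L l390 (L l464 (T t4542 N)))))) (K a105 (M a104 (F (L l393 (T t4543 (L l56 (L l390 (L l516 (T t69 (L l56 (L l390 (L l515 (T t4544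 N)))))))))))) N)))))))))))) (K a170 (M a89 (F (L l56 (L l390 (T t109 (L l178 (L l316 (T t110 (L l56 (L l178 (L l390 (T t111 (L l131 (L l178 (T t108 N))))))))))))))) (K a255 (M a16 (F (L l56 (T t112 (L l143 (L l289 (T t113 (L l56 (L l289 (L l296 (T t98 N))))))))))) N)))))))))))))))))))⟩
def e0_63__107_8 : Ent 4 := ⟨[a0, a63], [a107, a9], (M a149 (F (T t5 (T t175 (T t176 (L l98 (T t177 (K a192 (M a53 (F (T t939 (L l236 (T t179 (L l236 (L l296 (T t180 N)))))))) (K a21 (M a48 (F (T t4 (L l98 (T t13 (L l18 (T t14 N))))))) (K a85 (M a16 (F (T t97 (L l98 (L l144 (T t190 (L l94 (T t278 N)))))))) (K a213 (Fr a106 a192 l519 (Fr a42 a21 l68 (Fr a170 a234 l390 (Fr a255 a85 l476 (V t582))))) (K a42 (M a48 (F (T t187 (L l98 (L l390 (T t13 (L l54 (T t14 N)))))))) (K a106 (M a105 (F (L l390 (T t1931 (L l391 (L l516 (T t1932 (L l390 (L l391 (L l516 (T t1933 (L l390 (L l516 (T t1934 (L l516 (T t1935 N))))))))))))))))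 (K a170 (M a48 (F (T t4 (L l2 (L l462 (T t1 (L l98 (L l390 (T t13 N))))))))) (K a191 (M a16 (F (T t97 (L l98 (T t190 (L l213 (T t191 N))))))) (K a255 (M a16 (F (T t504 (L l98 (L l266 (T t190 (L l289 (L l296 (T t191 N))))))))) N))))))))))))))))⟩
def e0_63__107_9 : Ent 4 := ⟨[a0, a63], [a107, a10], (M a85 (F (T t255 (L l54 (T t88 (L l54 (L l98 (T t89 (L l462 (T t90 (K a64 (M a16 (F (L l54 (T t97 (L l84 (T t96 (L l54 (L l116 (T t98 N))))))))) (K a192 (M a16 (F (T t96 (L l54 (L l339 (T t97 (L l54 (L l296 (T t98 N))))))))) (K a21 (M a48 (F (T t99 (L l143 (L l462 (T t50 (L l47 (L l143 (L l318 (T t100 N)))))))))) (K a149 (M a48 (F (T t99 (L l54 (L l375 (T t0 (L l143 (L l220 (L l462 (T t50 N)))))))))) (K a213 (Fr a170 a255 l476 (Fr a42 a21 l68 (Fr a106 a234 l390 (Fr a192 a149 l519 (V t581))))) (K a42 (M a58 (F (T t118 (L l143 (L l390 (L l462 (T t119 (L l28 (L l143 (L l318 (T t120 (L l318 (L l390 (L l462 (T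 t121 N))))))))))))))) (K a106 (M a12 (L l98 (F (T t122 (L l2 (L l132 (T t123 (L l143 (L l390 (L l462 (T t124 (K a104 (M a105 (F (T t122 (L l516 (T t4545 N))))) (K a105 (M a104 (F (T t1373 (T t122 (L l143 (L l390 (L l392 (L l462 (T t124 N))))))))) N))))))))))))) (K a170 (M a90 (F (L l180 (T t125 (L l54 (L l390 (T t126 (L l180 (L l318 (L l409 (T t127 (L l54 (L l180 (L l390 (L l409 (T t128 N)))))))))))))))) (K a255 (M a4 (F (L l2 (L l54 (T t129 (L l2 (L l143 (L l265 (T t130 (L l54 (L l265 (L l296 (T t131 N))))))))))))) N)))))))))))))))))))⟩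
def e0_63__107_10 : Ent 4 := ⟨[a0, a63], [a107, a11], (M a149 (F (T t5 (T t175 (T t176 (L l98 (T t177 (K a192 (M a53 (F (T t178 (L l236 (T t179 (L l236 (L l296 (T t180 N)))))))) (K a21 (M a48 (F (T t4 (L l98 (T t13 (L l18 (T t14 N))))))) (K a85 (M a16 (F (T t504 (L l98 (L l144 (T t190 (L l57 (L l94 (L l465 (T t278 N)))))))))) (K a213 (Fr a106 a192 l519 (Fr a42 a21 l68 (Fr a170 a234 l390 (Fr a255 a85 l476 (V t582))))) (K a42 (M a48 (F (T t187 (L l98 (L l390 (T t13 (L l54 (T t14 N)))))))) (K a106 (M a105 (F (L l390 (T t1931 (L l391 (L l516 (T t1932 (L l390 (L l391 (L l516 (T t1933 (L l390 (L l516 (T t1934 (L l516 (T t1935 N)))))))))))))))) (K a170 (M a48 (F (T t4 (L l2 (L l7 (L l462 (T t1 (L l98 (L l390 (T t13 N)))))))))) (K a191 (M a16 (F (T t112 (L l98 (T t190 (L l213 (T t191 N))))))) (K a255 (M a16 (F (T t112 (L l98 (L l266 (T t190 (L l289 (L l296 (T t191 N))))))))) N))))))))))))))))⟩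
def e0_63__107_11 : Ent 4 := ⟨[a0, a63], [a107, a12], (M a48 (F (T t48 (L l3 (T t1 (L l3 (T t2 (L l3 (L l409 (T t3 (L l3 (T t0 (K a16 (M a60 (F (T t138 (L l9 (L l14 (L l18 (L l391 (T t67 (T t65 N))))))))) (K a32 (M a60 (F (T t2568 (L l74 (T t64 (L l24 (L l28 (T t65 N)))))))) (K a21 (M a192 (F (T t2113 (L l47 (L l326 (L l347 (T t20 (L l47 (L l347 (T t29 N)))))))))) (K a37 (M a192 (F (T t36 (L l47 (L l326 (T t20 (L l143 (L l470 (T t21 N))))))))) (K a53 (M a192 (F (T t55 (L l143 (L l470 (L l491 (T t21 (L l98 (T t31 N))))))))) (K a26 (M a192 (F (T t56 (L l478 (T t27 (L l143 (L l470 (T t21 N)))))))) (K a42 (M a192 (F (T t56 (L l478 (T t27 (L l28 (T t29 N))))))) (K a58 (M a192 (F (T t57 (L l478 (T t27 (L l54 (L l98 (L l498 (T t31 N))))))))) (K a15 (M a106 (L l3 (F (T t2289 (T t306 (K a13 (M a14 (F (T t3759 (L l334 (L l339 (T t4540 (T t579 N))))))) (K a14 (M a13 (F (T t3759 (L l334 (L l339 (T t4540 (T t579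 N))))))) N))))))) N)))))))))))))))))))))⟩
def e0_63__107_12 : Ent 4 := ⟨[a0, a63], [a107, a13], (M a149 (F (T t5 (T t175 (T t176 (L l98 (T t177 (K a192 (M a53 (F (T t939 (L l236 (T t179 (L l236 (L l296 (T t180 N)))))))) (K a21 (M a48 (F (T t4 (L l98 (T t13 (L l18 (T t14 N))))))) (K a85 (M a16 (F (T t504 (L l98 (L l144 (T t190 (L l94 (T t278 N)))))))) (K a213 (Fr a106 a192 l519 (Fr a42 a21 l68 (Fr a170 a234 l390 (Fr a255 a85 l476 (V t582))))) (K a42 (M a48 (F (T t187 (L l98 (L l390 (T t13 (L l54 (T t14 N)))))))) (K a106 (M a105 (F (L l335 (L l390 (T t1931 (L l335 (L l391 (L l516 (T t1932 (L l390 (L l391 (L l516 (T t1933 (L l335 (L l390 (L l516 (T t1934 (L l335 (L l516 (T t1935 N)))))))))))))))))))) (K a170 (M a48 (F (T t4 (L l3 (L l462 (T t1 (L l98 (L l390 (T t13 N))))))))) (K a191 (M a16 (F (T t504 (L l98 (T t190 (L l213 (T t191 N))))))) (K a255 (M a16 (F (T t504 (L l98 (L l266 (T t190 (L l289 (L l296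 (T t191 N))))))))) N))))))))))))))))⟩
def e0_63__107_13 : Ent 4 := ⟨[a0, a63], [a107, a14], (M a149 (F (T t5 (T t175 (T t176 (L l98 (T t177 (K a192 (M a53 (F (T t178 (L l236 (T t179 (L l236 (L l296 (T t180 N)))))))) (K a21 (M a48 (F (T t4 (L l98 (T t13 (L l18 (T t14 N))))))) (K a85 (M a16 (F (T t504 (L l98 (L l144 (T t190 (L l72 (L l94 (L l480 (T t278 N)))))))))) (K a213 (Fr a106 a192 l519 (Fr a42 a21 l68 (Fr a170 a234 l390 (Fr a255 a85 l476 (V t582))))) (K a42 (M a48 (F (T t187 (L l98 (L l390 (T t13 (L l54 (T t14 N)))))))) (K a106 (M a105 (F (L l390 (T t1931 (L l60 (L l391 (L l516 (T t1932 (L l390 (L l391 (L l516 (T t1933 (L l60 (L l390 (L l516 (T t1934 (L l60 (L l516 (T t1935 N))))))))))))))))))) (K a170 (M a48 (F (T t4 (L l3 (L l6 (L l462 (T t1 (L l98 (L l390 (T t13 N)))))))))) (K a191 (M a16 (F (T t112 (L l98 (T t190 (L l213 (T t191 N))))))) (K a255 (M a16 (F (T t112 (L l98 (L l266 (T t190 (L l289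 (L l296 (T t191 N))))))))) N))))))))))))))))⟩
def e0_63__107_14 : Ent 4 := ⟨[a0, a63], [a107, a15], (M a12 (F (T t150 (L l73 (T t122 (L l73 (T t151 (L l73 (L l499 (T t152 (L l73 (T t153 (K a4 (M a85 (F (T t4539 (L l143 (L l327 (T t124 (T t154 N))))))) (K a8 (M a85 (F (L l469 (T t255 (L l143 (L l327 (L l464 (T t124 (L l56 (T t154 N)))))))))) (K a21 (M a192 (F (T t2119 (L l15 (L l347 (L l481 (T t450 (L l15 (L l347 (T t157 N)))))))))) (K a25 (M a192 (F (T t496 (L l15 (L l481 (T t450 (L l143 (L l469 (T t21 N))))))))) (K a29 (M a192 (F (T t159 (L l143 (L l371 (L l469 (T t21 (L l98 (T t160 N))))))))) (K a38 (M a192 (F (T t161 (L l327 (T t156 (L l143 (L l469 (T t21 N)))))))) (K a42 (M a192 (F (T t161 (L l327 (T t156 (L l56 (T t157 N))))))) (K a46 (M a192 (F (T t57 (L l327 (T t156 (L l26 (L l98 (L l408 (T t160 N))))))))) (K a51 (M a68 (L l73 (F (T t162 (L l98 (T t163 (L l98 (L l439 (L l469 (L l513 (T t164 (K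 a39 (M a27 (F (T t2174 (L l63 (T t166 N))))) (K a27 (M a39 (F (T t2174 (L l63 (T t167 N))))) N))))))))))))) N)))))))))))))))))))))⟩
def e0_63__107_15 : Ent 4 := ⟨[a0, a63], [a107, a20], (M a85 (F (T t88 (L l11 (L l143 (T t52 (L l98 (T t89 (T t90 (K a64 (M a16 (F (T t97 (L l84 (T t96 (L l116 (T t98 N))))))) (K a192 (M a16 (F (T t96 (L l339 (T t97 (L l296 (T t98 N))))))) (K a21 (M a51 (L l11 (F (T t943 (L l143 (T t944 (L l50 (L l143 (T t945 (K a22 (M a23 (F (T t943 (L l19 (L l50 (L l69 (T t946 N))))))) (K a23 (M a22 (F (T t2678 (L l49 (L l50 (L l143 (T t945 (L l143 (T t944 N))))))))) N))))))))))) (K a149 (M a16 (F (T t173 (L l375 (T t97 (L l103 (L l170 (T t102 N)))))))) (K a213 (Fr a170 a255 l476 (Fr a42 a21 l68 (Fr a106 a234 l390 (Fr a192 a149 l519 (V t581))))) (K a42 (M a48 (F (L l28 (T t99 (L l143 (L l390 (T t50 (L l28 (L l143 (T t100 N)))))))))) (K a106 (M a48 (L l98 (F (T t99 (L l11 (T t1 (L l143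 (L l390 (T t50 (K a104 (M a105 (F (L l390 (T t0 (T t4546 N))))) (K a105 (M a104 (F (T t1699 (L l11 (T t1 (L l143 (L l390 (L l392 (T t50 N))))))))) N))))))))))) (K a170 (M a16 (F (L l390 (L l404 (T t97 (L l390 (T t98 (L l143 (L l404 (T t113 (L l404 (T t174 N)))))))))))) (K a255 (M a16 (F (T t112 (L l143 (L l289 (T t113 (L l289 (L l296 (T t98 N))))))))) N))))))))))))))))))⟩
def e0_63__107_16 : Ent 4 := ⟨[a0, a63], [a107, a22], (M a192 (F (L l143 (T t21 (L l11 (T t35 (L l98 (T t202 (L l66 (L l98 (T t37 (K a64 (M a48 (F (T t20 (L l11 (T t1 (L l66 (L l98 (L l116 (L l144 (T t31 N)))))))))) (K a128 (M a48 (F (L l66 (T t2 (L l220 (T t20 (L l66 (L l98 (T t31 N))))))))) (K a21 (M a23 (F (L l391 (T t4547 (L l98 (L l348 (T t4548 (L l98 (L l391 (T t3752 (L l65 (L l98 (L l391 (T t4549 (L l65 (L l98 (T t4550 N))))))))))))))))) (K a85 (M a16 (F (T t210 (L l66 (T t97 (L l16 (L l66 (L l94 (L l98 (L l144 (T t211 N)))))))))))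 (K a149 (M a48 (F (T t837 (L l11 (L l347 (L l491 (T t1 (L l11 (L l170 (L l220 (L l347 (L l409 (L l491 (T t213 (L l66 (L l375 (T t214 N))))))))))))))))) (K a42 (M a2 (F (T t1363 (L l11 (L l98 (L l390 (T t1804 (L l98 (L l390 (T t1365 N)))))))))) (K a106 (M a48 (L l98 (F (T t27 (L l11 (T t1 (L l11 (L l409 (L l411 (T t213 (L l66 (L l104 (L l144 (L l390 (L l498 (T t214 (K a104 (M a105 (F (T t27 (L l66 (L l390 (L l498 (T t2 (L l11 (L l409 (L l411 (T t213 (L l66 (L l100 (L l104 (L l140 (L l144 (L l390 (L l498 (T t214 N))))))))))))))))))) (K a105 (M a104 (F (T t27 (L l498 (L l500 (T t4551 N)))))) N)))))))))))))))))) (K a170 (M a32 (F (T t218 (L l11 (L l409 (T t219 (L l11 (L l51 (L l180 (L l220 (T t220 N))))))))))) (K a255 (M a16 (F (T t1805 (L l66 (L l469 (T t97 (L l16 (L l66 (L l98 (T t211 N)))))))))) N))))))))))))))))))))⟩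
def e0_63__107_17 : Ent 4 := ⟨[a0, a63], [a107, a23], (M a48 (F (T t2 (L l11 (T t1 (L l11 (L l409 (T t3 (L l17 (T t0 (K a16 (M a60 (F (T t64 (L l11 (L l18 (T t68 (L l11 (L l18 (T t194 N))))))))) (K a32 (M a60 (F (T t64 (L l11 (T t68 (L l11 (T t194 N))))))) (K a21 (M a192 (L l11 (F (T t837 (L l47 (L l347 (L l351 (T t20 (L l47 (L l347 (L l351 (T t29 (K a20 (M a22 (F (T t27 (L l47 (L l347 (L l351 (T t20 (L l14 (L l18 (L l98 (T t46 N))))))))))) (K a22 (M a20 (F (T t27 (L l66 (L l98 (T t4552 N)))))) N)))))))))))))) (K a37 (M a192 (F (T t19 (L l47 (L l351 (T t20 (L l143 (L l351 (T t21 N))))))))) (K a53 (M a192 (F (T t19 (L l143 (L l351 (L l491 (T t21 (L l98 (T t31 N))))))))) (K a26 (M a192 (F (T t837 (L l351 (T t20 (L l143 (L l351 (T t21 N)))))))) (K a42 (M a192 (F (T t19 (L l351 (T t20 (L l28 (L l351 (T t29 N)))))))) (K a58 (M a192 (F (T t19 (L l143 (L l351 (T t21 (L l54 (L l98 (L l498 (T t31 N))))))))))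 (K a15 (M a192 (F (T t1922 (L l325 (L l351 (T t20 (L l143 (L l351 (L l469 (T t21 N)))))))))) N)))))))))))))))))))⟩
def e0_63__107_18 : Ent 4 := ⟨[a0, a63], [a107, a24], (M a149 (F (T t5 (T t175 (T t176 (L l98 (T t177 (K a192 (M a53 (F (T t178 (L l14 (L l236 (T t179 (L l236 (L l296 (T t180 N))))))))) (K a21 (M a48 (F (T t4 (L l98 (T t13 (L l14 (L l18 (T t14 N)))))))) (K a85 (M a16 (F (T t97 (L l98 (L l144 (T t190 (L l12 (L l94 (T t278 N))))))))) (K a213 (Fr a106 a192 l519 (Fr a42 a21 l68 (Fr a170 a234 l390 (Fr a255 a85 l476 (V t582))))) (K a42 (M a48 (F (T t187 (L l98 (L l390 (T t13 (L l14 (L l54 (T t14 N))))))))) (K a106 (M a105 (F (L l390 (T t1931 (L l14 (L l391 (L l516 (T t1932 (L l390 (L l516 (T t4553 (L l52 (L l390 (L l516 (T t1934 (L l52 (L l516 (T t1935 N)))))))))))))))))) (K a170 (M a48 (F (T t4 (L l462 (T t1 (L l98 (L l390 (T t13 N)))))))) (K a191 (M a16 (F (T t97 (L l98 (T t190 (L l213 (T t191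 N))))))) (K a255 (M a16 (F (T t112 (L l98 (L l266 (T t190 (L l289 (L l296 (T t191 N))))))))) N))))))))))))))))⟩
def e0_63__107_19 : Ent 4 := ⟨[a0, a63], [a107, a25], (M a149 (F (L l56 (T t5 (L l15 (T t175 (L l56 (T t176 (L l98 (T t177 (K a192 (M a53 (F (L l56 (T t178 (L l236 (T t179 (L l56 (L l236 (L l296 (T t180 N)))))))))) (K a21 (M a48 (L l15 (F (T t4 (L l98 (T t13 (L l18 (T t14 (K a17 (M a29 (F (T t15 (L l50 (L l341 (T t641 N)))))) (K a29 (M a17 (F (T t4 (L l19 (L l65 (T t642 N)))))) N)))))))))) (K a85 (M a16 (F (L l56 (T t97 (L l98 (L l144 (T t190 (L l12 (L l56 (L l94 (T t278 N))))))))))) (K a213 (Fr a106 a192 l519 (Fr a42 a21 l68 (Fr a170 a234 l390 (Fr a255 a85 l476 (V t582))))) (K a42 (M a8 (F (L l26 (T t643 (L l98 (L l390 (T t644 (L l26 (T t645 (L l15 (L l98 (L l390 (T t646 N))))))))))))) (K a106 (M a105 (F (L l516 (T t1935 (L l56 (L l390 (T t1931 (L l391 (L l516 (T t1932 (L l56 (L l390 (L l391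 (L l516 (T t1933 (L l56 (L l390 (L l516 (T t1934 N))))))))))))))))))) (K a170 (M a48 (F (T t4 (L l15 (L l462 (T t1 (L l98 (L l390 (T t13 N))))))))) (K a191 (M a16 (F (L l56 (T t97 (L l98 (T t190 (L l56 (L l213 (T t191 N))))))))) (K a255 (M a16 (F (T t192 (L l12 (L l56 (T t193 (L l98 (L l266 (T t190 N))))))))) N)))))))))))))))))))⟩
def e0_63__107_20 : Ent 4 := ⟨[a0, a63], [a107, a26], (M a149 (F (L l54 (T t5 (L l18 (T t175 (L l54 (T t176 (L l98 (T t177 (K a192 (M a29 (F (L l54 (T t956 (L l272 (T t641 (L l54 (L l272 (L l296 (T t957 N)))))))))) (K a21 (M a12 (L l18 (F (T t958 (L l98 (T t648 (L l50 (T t649 (K a16 (M a31 (F (T t2638 (L l47 (L l340 (L l409 (T t651 N))))))) (K a31 (M a16 (F (T t958 (L l50 (L l57 (T t652 N)))))) N)))))))))) (K a85 (M a4 (F (L l54 (T t519 (L l98 (L l144 (T t653 (L l54 (L l72 (L l126 (T t654 N))))))))))) (K a213 (Fr a106 a192 l519 (Fr a42 a21 l68 (Fr a170 a234 l390 (Fr a255 a85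 l476 (V t582))))) (K a42 (M a10 (F (L l28 (L l409 (T t655 (L l98 (L l390 (T t656 (L l28 (L l409 (T t657 (L l18 (L l98 (L l390 (T t658 N))))))))))))))) (K a106 (M a105 (F (L l516 (T t1935 (L l54 (L l390 (T t1931 (L l391 (L l516 (T t1932 (L l54 (L l390 (L l391 (L l516 (T t1933 (L l54 (L l390 (L l516 (T t1934 N))))))))))))))))))) (K a170 (M a12 (F (T t958 (L l18 (L l402 (T t122 (L l98 (L l390 (T t648 N))))))))) (K a191 (M a48 (F (T t11 (L l98 (T t13 (L l18 (L l54 (T t659 N)))))))) (K a255 (M a4 (F (T t660 (L l54 (L l72 (T t661 (L l98 (L l290 (T t653 N))))))))) N)))))))))))))))))))⟩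
def e0_63__107_21 : Ent 4 := ⟨[a0, a63], [a107, a27], (M a149 (F (T t5 (T t175 (T t176 (L l98 (T t177 (K a192 (M a53 (F (T t178 (L l236 (T t179 (L l236 (L l296 (T t180 N)))))))) (K a21 (M a48 (F (T t4 (L l98 (T t13 (L l18 (T t14 N))))))) (K a85 (M a16 (F (L l455 (T t112 (L l98 (L l144 (T t190 (L l12 (L l94 (L l357 (T t278 N))))))))))) (K a213 (Fr a106 a192 l519 (Fr a42 a21 l68 (Fr a170 a234 l390 (Fr a255 a85 l476 (V t582))))) (K a42 (M a48 (F (T t187 (L l98 (L l390 (T t13 (L l54 (T t14 N)))))))) (K a106 (M a105 (F (L l390 (T t1931 (L l391 (L l516 (T t1932 (L l390 (L l391 (L l516 (T t1933 (L l17 (L l390 (L l516 (T t1934 (L l516 (T t1935 N))))))))))))))))) (K a170 (M a48 (F (T t4 (L l73 (L l462 (T t1 (L l98 (L l390 (T t13 N))))))))) (K a191 (M a16 (F (T t112 (L l98 (T t190 (L l213 (T t191 N))))))) (K a255 (M a16 (F (T t112 (L l98 (L l266 (T t190 (L l289 (L l296 (T t191 N))))))))) N))))))))))))))))⟩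
def e0_63__107_22 : Ent 4 := ⟨[a0, a63], [a107, a28], (M a149 (F (T t5 (T t175 (T t176 (L l98 (T t177 (K a192 (M a53 (F (T t178 (L l14 (L l236 (T t179 (L l236 (L l296 (T t180 N))))))))) (K a21 (M a48 (F (T t4 (L l98 (T t13 (L l14 (L l18 (T t14 N)))))))) (K a85 (M a16 (F (L l13 (T t97 (L l98 (L l144 (L l370 (T t190 (L l94 (T t278 N)))))))))) (K a213 (Fr a106 a192 l519 (Fr a42 a21 l68 (Fr a170 a234 l390 (Fr a255 a85 l476 (V t582))))) (K a42 (M a48 (F (T t187 (L l98 (L l390 (T t13 (L l14 (L l54 (T t14 N))))))))) (K a106 (M a105 (F (L l390 (T t1931 (L l14 (L l391 (L l516 (T t1932 (L l14 (L l374 (L l390 (L l391 (L l516 (T t1933 (L l390 (L l516 (T t1934 (L l516 (T t1935 N))))))))))))))))))) (K a170 (M a48 (F (T t4 (L l462 (T t1 (L l98 (L l390 (T t13 N)))))))) (K a191 (M a16 (F (T t112 (L l98 (L l370 (T t190 (L l213 (L l362 (T t191 N))))))))) (K a255 (M a16 (F (T t112 (L l98 (L l266 (L l370 (T t190 (L l289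 (L l296 (L l362 (T t191 N))))))))))) N))))))))))))))))⟩
def e0_63__107_23 : Ent 4 := ⟨[a0, a63], [a107, a29], (M a149 (F (T t5 (L l15 (T t175 (T t176 (L l98 (T t177 (K a192 (M a53 (F (T t178 (L l236 (T t179 (L l236 (L l296 (T t180 N)))))))) (K a21 (M a48 (L l15 (F (T t4 (L l98 (T t13 (L l18 (T t14 (K a17 (M a25 (F (T t4 (L l98 (T t13 (L l10 (L l18 (T t14 N)))))))) (K a25 (M a17 (F (T t4 (L l19 (L l65 (T t642 N)))))) N)))))))))) (K a85 (M a16 (F (L l13 (T t97 (L l98 (L l144 (T t190 (L l94 (T t278 N))))))))) (K a213 (Fr a106 a192 l519 (Fr a42 a21 l68 (Fr a170 a234 l390 (Fr a255 a85 l476 (V t582))))) (K a42 (M a48 (F (T t187 (L l98 (L l390 (T t13 (L l54 (T t14 N)))))))) (K a106 (M a105 (F (L l390 (T t1931 (L l391 (L l516 (T t1932 (L l390 (L l391 (L l516 (T t1933 (L l390 (L l516 (T t1934 (L l516 (T t1935 N)))))))))))))))) (K a170 (M a48 (F (T t4 (L l15 (L l462 (T t1 (L l98 (L l390 (T t13 N))))))))) (K a191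 (M a16 (F (T t112 (L l98 (T t190 (L l213 (T t191 N))))))) (K a255 (M a16 (F (T t112 (L l98 (L l266 (T t190 (L l289 (L l296 (T t191 N))))))))) N)))))))))))))))))⟩
def e0_63__107_24 : Ent 4 := ⟨[a0, a63], [a107, a30], (M a149 (F (T t5 (T t175 (T t176 (L l98 (T t177 (K a192 (M a53 (F (T t178 (L l236 (T t179 (L l236 (L l296 (T t180 N)))))))) (K a21 (M a48 (F (T t4 (L l98 (T t13 (L l18 (T t14 N))))))) (K a85 (M a16 (F (L l455 (T t112 (L l98 (L l144 (T t190 (L l16 (L l94 (L l372 (T t278 N))))))))))) (K a213 (Fr a106 a192 l519 (Fr a42 a21 l68 (Fr a170 a234 l390 (Fr a255 a85 l476 (V t582))))) (K a42 (M a48 (F (T t187 (L l98 (L l390 (T t13 (L l54 (T t14 N)))))))) (K a106 (M a105 (F (L l390 (T t1931 (L l60 (L l391 (L l516 (T t1932 (L l372 (L l390 (L l391 (L l516 (T t1933 (L l60 (L l390 (L l516 (T t1934 (L l60 (L l516 (T t1935 N)))))))))))))))))))) (K a170 (M a48 (F (T t4 (L l63 (L l462 (T t1 (L l98 (L l390 (T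 t13 N))))))))) (K a191 (M a16 (F (T t112 (L l98 (T t190 (L l213 (T t191 N))))))) (K a255 (M a16 (F (T t112 (L l98 (L l266 (T t190 (L l289 (L l296 (T t191 N))))))))) N))))))))))))))))⟩
def e0_63__107_25 : Ent 4 := ⟨[a0, a63], [a107, a31], (M a60 (F (T t69 (L l18 (L l391 (T t67 (L l17 (T t43 (L l18 (T t68 (K a20 (M a48 (F (T t64 (L l11 (L l18 (T t1 (L l11 (L l18 (T t235 N))))))))) (K a40 (M a48 (F (L l18 (T t1 (T t64 (L l18 (L l52 (T t235 N)))))))) (K a21 (M a48 (L l18 (F (T t70 (L l13 (T t248 (L l11 (L l47 (L l65 (L l499 (T t249 (L l13 (L l50 (T t250 (K a16 (M a26 (F (L l47 (T t251 (L l11 (T t252 (T t70 N))))))) (K a26 (Fr a16 a32 l40 (V t253)) N)))))))))))))))) (K a41 (M a192 (F (T t77 (L l18 (L l65 (L l375 (T t35 (L l98 (T t1516 N))))))))) (K a61 (M a192 (F (T t79 (L l18 (L l65 (L l375 (L l515 (T t35 (L l98 (T t2718 N)))))))))) (K a22 (M a192 (F (T t77 (L l143 (L l375 (T t21 (L l66 (L l98 (T t1516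 N))))))))) (K a42 (M a192 (F (T t77 (L l66 (L l98 (L l390 (T t1516 (L l22 (L l143 (L l375 (T t74 N))))))))))) (K a62 (M a192 (F (T t77 (L l18 (L l375 (T t35 (L l66 (L l98 (L l516 (T t2718 N)))))))))) (K a3 (M a192 (F (T t254 (L l18 (L l375 (L l475 (T t35 (L l98 (L l307 (T t1516 N)))))))))) N)))))))))))))))))))⟩
def e0_63__107_26 : Ent 4 := ⟨[a0, a63], [a107, a40], (M a48 (F (T t1 (L l22 (T t2 (L l409 (T t3 (L l22 (L l24 (T t0 (K a16 (M a85 (F (L l22 (T t168 (L l143 (L l392 (T t50 (L l22 (T t51 N))))))))) (K a32 (M a85 (L l24 (F (T t255 (L l143 (L l392 (L l404 (T t50 (L l22 (L l28 (T t51 (K a36 (M a44 (F (T t255 (L l143 (L l392 (L l404 (T t50 (L l22 (L l28 (T t51 N)))))))))) (K a44 (M a36 (F (L l52 (T t4554 (L l22 (L l28 (T t51 N))))))) N))))))))))))) (K a21 (M a192 (F (T t837 (L l47 (L l347 (T t20 (L l24 (L l47 (L l347 (T t29 N)))))))))) (K a37 (M a192 (F (T t19 (L l47 (T t20 (L l143 (T t21 N)))))))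 (K a53 (M a192 (F (T t19 (L l143 (L l491 (T t21 (L l22 (L l98 (T t31 N))))))))) (K a26 (M a192 (F (T t837 (T t20 (L l143 (T t21 N)))))) (K a42 (M a170 (L l22 (F (T t316 (L l54 (T t3070 (T t514 (K a41 (M a43 (F (T t3204 (L l65 (L l388 (T t4555 (L l54 (T t3070 N)))))))) (K a43 (M a41 (L l391 (F (T t316 (L l54 (T t3070 (T t514 (K a171 (M a235 (F (T t4556 (L l54 (L l219 (L l403 (T t3070 (L l219 (T t514 N))))))))) (K a235 (M a171 (F (T t514 (L l103 (L l388 (T t4557 N)))))) N))))))))) N))))))))) (K a58 (M a192 (F (T t19 (L l143 (T t21 (L l22 (L l54 (L l98 (L l498 (T t31 N)))))))))) (K a15 (M a192 (F (T t57 (L l483 (T t27 (L l325 (T t20 N))))))) N)))))))))))))))))))⟩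
def e0_63__107_27 : Ent 4 := ⟨[a0, a63], [a107, a41], (M a48 (F (L l65 (T t1 (L l22 (T t2 (L l65 (L l409 (T t3 (L l22 (T t0 (K a16 (M a85 (F (T t90 (L l143 (T t50 (L l22 (T t51 N))))))) (K a32 (M a85 (F (L l65 (T t255 (L l143 (L l404 (T t50 (L l22 (L l28 (T t51 N)))))))))) (K a21 (M a192 (L l65 (F (T t837 (L l47 (L l347 (T t20 (L l47 (L l347 (T t29 (K a1 (M a61 (F (T t27 (L l98 (L l305 (T t584 N)))))) (K a61 (M a1 (F (T t28 (L l22 (L l98 (L l391 (T t1827 N))))))) N)))))))))))) (K a37 (M a192 (L l25 (F (T t19 (L l47 (T t20 (L l143 (T t21 (K a33 (M a45 (F (T t27 (L l47 (L l65 (T t35 (L l98 (T t22 N)))))))) (K a45 (M a33 (F (T t27 (T t4558 N)))) N)))))))))) (K a53 (M a192 (F (T t19 (L l143 (L l491 (T t21 (L l22 (L l98 (T t31 N))))))))) (K a26 (M a192 (L l57 (F (T t27 (T t20 (L l143 (T t21 (K a56 (M a11 (F (T t20 (L l18 (L l65 (T t35 (T t28 N))))))) (K a11 (M a56 (F (T t20 (L l2 (T t133 N))))) N)))))))))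 (K a42 (M a170 (L l22 (F (T t316 (L l54 (T t3070 (T t514 (K a40 (M a43 (F (T t3204 (L l65 (L l388 (T t4555 (L l54 (T t3070 N)))))))) (K a43 (M a40 (L l391 (F (T t4559 (L l54 (T t3070 (K a171 (Fr a235 a105 l392 (V t337)) (K a235 (M a171 (F (T t4556 (L l54 (L l57 (T t4560 N)))))) N)))))))) N))))))))) (K a58 (M a192 (F (T t19 (L l143 (T t21 (L l22 (L l54 (L l98 (L l498 (T t31 N)))))))))) (K a15 (M a192 (F (T t56 (L l483 (T t27 (L l143 (L l469 (T t21 N)))))))) N))))))))))))))))))))⟩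
def e0_63__107_28 : Ent 4 := ⟨[a0, a63], [a107, a43], (M a12 (L l391 (F (T t122 (L l22 (T t151 (L l55 (L l499 (T t152 (L l22 (T t153 (K a4 (M a255 (L l391 (F (T t2999 (T t1165 (L l50 (L l458 (T t3000 (K a171 (M a235 (F (T t2999 (L l22 (L l458 (T t4561 N)))))) (K a235 (M a171 (F (T t2486 (L l143 (L l458 (T t4421 (L l50 (L l250 (L l458 (T t3000 N)))))))))) N)))))))))) (K a8 (M a170 (L l391 (F (T t439 (T t2498 (T t2626 (K a171 (M a235 (F (T t4562 (T t2626 N)))) (K a235 (M a171 (F (L l250 (T t320 (L l143 (L l460 (T t4563 (L l250 (T t2626 N))))))))) N)))))))) (K a21 (M a89 (L l391 (F (T t870 (L l50 (T t863 (L l50 (T t864 (K a171 (M a235 (F (T t2752 (L l22 (L l50 (L l463 (T t4564 N))))))) (K a235 (M a171 (F (T t870 (L l50 (L l283 (T t4565 N)))))) N)))))))))) (K a25 (M a89 (L l391 (F (T t870 (T t863 (T t864 (K a171 (M a235 (F (T t870 (L l22 (L l463 (T t4564 N)))))) (K a235 (M a171 (F (T t2752 (L l283 (T t4565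 N))))) N)))))))) (K a29 (M a170 (L l391 (F (T t3685 (L l15 (T t317 (L l15 (T t3682 (K a171 (M a235 (F (T t4562 (L l15 (L l463 (T t3682 N)))))) (K a235 (M a171 (F (L l143 (T t4563 (L l15 (L l250 (L l283 (T t3682 N)))))))) N)))))))))) (K a38 (M a89 (L l391 (F (T t4365 (L l26 (T t870 (L l26 (L l50 (T t864 (K a171 (M a235 (F (T t2303 (L l22 (L l50 (L l463 (T t4564 N))))))) (K a235 (M a171 (F (T t2303 (L l48 (L l50 (L l283 (T t4565 N))))))) N))))))))))) (K a42 (M a170 (L l22 (L l391 (F (T t2497 (L l26 (T t3880 (T t2498 (K a40 (M a41 (L l391 (F (T t2497 (L l26 (T t3880 (T t2498 (K a171 (M a235 (F (T t4566 (L l26 (L l219 (L l463 (T t3880 (L l219 (T t2498 N))))))))) (K a235 (M a171 (F (T t2498 (L l131 (L l388 (T t4567 N)))))) N))))))))) (K a41 (M a40 (L l391 (F (T t4559 (L l26 (T t3880 (K a171 (Fr a235 a105 l392 (V t4568)) (K a235 (M a171 (F (T t4566 (L l65 (T t4569 N))))) N)))))))) (K a171 (M a235 (L l22 (F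 (T t4562 (L l26 (L l219 (L l463 (T t3880 (K a40 (M a41 (F (T t4566 (L l26 (L l219 (L l463 (T t3880 (L l219 (T t2498 N))))))))) (K a41 (Fr a40 a105 l392 (V t4568)) N)))))))))) (K a235 (M a171 (L l22 (F (L l143 (T t4563 (L l26 (L l283 (T t3880 (K a40 (M a41 (F (T t2498 (L l131 (L l388 (T t4567 N)))))) (K a41 (M a40 (F (T t4566 (L l65 (T t4569 N))))) N)))))))))) N)))))))))))) (K a46 (M a170 (L l391 (F (T t439 (L l396 (T t3685 (T t3682 (K a171 (M a235 (F (T t439 (T t4570 N)))) (K a235 (M a171 (F (L l143 (T t4563 (L l250 (L l283 (T t3682 N))))))) N))))))))) (K a51 (M a89 (L l391 (F (T t869 (L l489 (T t870 (T t864 (K a171 (M a235 (F (T t862 (L l22 (L l463 (T t4564 N)))))) (K a235 (M a171 (F (T t862 (L l283 (T t4565 N))))) N))))))))) (K a171 (M a235 (F (T t122 (L l22 (T t151 (L l55 (L l499 (T t152 (L l22 (T t153 (K a4 (M a40 (F (L l46 (T t4571 (L l50 (L l98 (T t4572 N))))))) (K a8 (M a40 (F (T t4571 (L l98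 (T t4572 N))))) (K a21 (M a89 (F (T t2752 (L l22 (L l50 (L l463 (T t4564 N))))))) (K a25 (M a40 (F (T t4573 (L l15 (L l98 (T t4572 N)))))) (K a29 (M a40 (F (T t4573 (L l15 (L l98 (T t4572 N)))))) (K a38 (M a40 (F (T t4574 (L l26 (L l98 (L l219 (L l475 (T t4575 N)))))))) (K a42 (M a40 (F (T t4569 (L l98 (L l463 (L l475 (T t4576 N))))))) (K a46 (M a40 (F (T t4573 (L l98 (T t4572 N))))) (K a51 (M a40 (F (T t4568 (L l98 (L l489 (T t4572 N)))))) N))))))))))))))))))) (K a235 (M a171 (F (T t122 (L l22 (T t151 (L l55 (L l499 (T t152 (L l22 (T t153 (K a4 (M a2 (F (L l143 (L l458 (T t4426 (L l50 (T t3362 N))))))) (K a8 (M a2 (F (L l143 (T t4426 (T t3362 N))))) (K a21 (M a89 (F (T t870 (L l50 (L l283 (T t4565 N)))))) (K a25 (M a168 (F (T t4577 (L l15 (L l143 (L l250 (L l295 (L l393 (T t4578 N))))))))) (K a29 (M a168 (F (T t4579 (L l15 (L l143 (L l250 (L l295 (L l393 (T t4578 N))))))))) (K a38 (M a168 (F (T t4579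 (L l22 (L l26 (L l295 (L l393 (T t4580 N)))))))) (K a42 (M a170 (L l22 (F (L l143 (T t4563 (L l26 (L l283 (T t3880 (K a40 (M a41 (F (T t2498 (L l131 (L l388 (T t4567 N)))))) (K a41 (M a40 (F (T t4566 (L l65 (T t4569 N))))) N)))))))))) (K a46 (M a168 (F (T t4579 (L l143 (L l250 (L l295 (L l393 (T t4578 N)))))))) (K a51 (M a168 (F (T t4581 (L l143 (L l250 (L l295 (L l393 (L l439 (T t4578 N))))))))) N))))))))))))))))))) N))))))))))))))))))))))⟩
def e0_63__107_29 : Ent 4 := ⟨[a0, a63], [a107, a44], (M a149 (F (T t5 (T t175 (T t176 (L l98 (T t177 (K a192 (M a53 (F (L l339 (T t982 (L l236 (L l398 (T t179 (L l236 (L l296 (T t180 N)))))))))) (K a21 (M a48 (F (T t4 (L l98 (T t13 (L l18 (L l398 (T t14 N)))))))) (K a85 (M a16 (F (L l24 (T t97 (L l24 (L l98 (L l144 (T t190 (L l94 (T t278 N)))))))))) (K a213 (Fr a106 a192 l519 (Fr a42 a21 l68 (Fr a170 a234 l390 (Fr a255 a85 l476 (V t582))))) (K a42 (M a48 (F (T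 t187 (L l98 (L l390 (T t13 (L l54 (L l398 (T t14 N))))))))) (K a106 (M a105 (F (L l390 (T t1931 (L l391 (L l516 (T t1932 (L l390 (L l516 (T t4553 (L l24 (L l390 (L l516 (T t1934 (L l24 (L l516 (T t1935 N))))))))))))))))) (K a170 (M a48 (F (T t4 (L l462 (T t1 (L l98 (L l390 (T t13 N)))))))) (K a191 (M a16 (F (L l24 (T t97 (L l213 (T t191 (L l24 (L l213 (T t192 N))))))))) (K a255 (M a16 (F (L l24 (T t112 (L l289 (L l296 (T t191 (L l24 (T t192 N))))))))) N))))))))))))))))⟩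
def e0_63__107_30 : Ent 4 := ⟨[a0, a63], [a107, a45], (M a149 (F (T t5 (T t175 (T t176 (L l98 (T t177 (K a192 (M a53 (F (T t178 (L l236 (T t179 (L l236 (L l296 (T t180 N)))))))) (K a21 (M a48 (F (T t4 (L l98 (T t13 (L l18 (T t14 N))))))) (K a85 (M a16 (F (T t504 (L l98 (L l144 (T t190 (L l94 (T t278 N)))))))) (K a213 (Fr a106 a192 l519 (Fr a42 a21 l68 (Fr a170 a234 l390 (Fr a255 a85 l476 (V t582))))) (K a42 (M a48 (F (T t187 (L l98 (L l390 (T t13 (L l54 (T t14 N)))))))) (K a106 (M a105 (F (L l390 (T t1931 (L l391 (L l516 (T t1932 (L l390 (L l391 (L l516 (T t1933 (L l390 (L l516 (T t1934 (L l516 (T t1935 N)))))))))))))))) (K a170 (M a48 (F (T t4 (L l63 (L l462 (T t1 (L l98 (L l390 (T t13 N))))))))) (K a191 (M a16 (F (T t112 (L l98 (T t190 (L l213 (T t191 N))))))) (K a255 (M a16 (F (T t112 (L l98 (L l266 (T t190 (L l289 (L l296 (T t191 N))))))))) N))))))))))))))))⟩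
def e0_63__107_31 : Ent 4 := ⟨[a0, a63], [a107, a46], (M a48 (F (T t1 (L l26 (T t2 (L l23 (L l409 (T t3 (L l26 (T t0 (K a16 (M a60 (F (T t64 (L l14 (L l18 (L l391 (T t67 (L l26 (T t65 N))))))))) (K a32 (M a60 (F (T t64 (L l391 (T t67 (L l24 (L l26 (L l28 (T t65 N))))))))) (K a21 (M a192 (F (T t837 (L l47 (L l347 (T t20 (L l47 (L l347 (T t29 N))))))))) (K a37 (M a192 (F (T t19 (L l47 (T t20 (L l143 (T t21 N))))))) (K a53 (M a192 (F (T t19 (L l143 (L l491 (T t21 (L l26 (L l98 (L l408 (T t31 N)))))))))) (K a26 (M a192 (F (T t837 (T t20 (L l143 (T t21 N)))))) (K a42 (M a192 (L l26 (F (T t19 (T t20 (L l28 (T t29 (K a34 (M a38 (F (T t27 (T t20 (L l98 (L l390 (L l408 (T t46 N)))))))) (K a38 (M a34 (F (T t27 (L l56 (L l98 (L l390 (L l408 (L l499 (T t679 N))))))))) N))))))))) (K a58 (M a192 (F (T t19 (L l143 (T t21 (L l26 (L l54 (L l98 (L l408 (L l498 (T t31 N))))))))))) (K a15 (M a192 (F (T t57 (L l483 (T t27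 (L l325 (T t20 N))))))) N)))))))))))))))))))⟩
def e0_63__107_32 : Ent 4 := ⟨[a0, a63], [a107, a47], (M a12 (L l409 (F (T t122 (L l23 (L l28 (T t151 (L l499 (T t152 (L l28 (T t153 (K a4 (M a60 (L l409 (F (L l23 (T t680 (L l27 (L l46 (L l50 (L l391 (T t67 (L l23 (L l28 (T t448 (K a227 (M a167 (F (L l23 (T t680 (L l28 (T t69 (L l27 (L l46 (L l50 (L l391 (T t1096 N))))))))))) (K a167 (M a227 (F (L l28 (T t69 (L l23 (L l481 (T t680 (L l23 (L l28 (T t448 N)))))))))) N))))))))))))))) (K a8 (M a60 (L l409 (F (L l23 (T t680 (L l27 (L l391 (T t67 (L l23 (L l28 (L l52 (L l56 (T t448 (K a227 (M a167 (F (L l23 (T t680 (L l28 (L l56 (T t69 (L l27 (L l391 (T t1096 N)))))))))) (K a167 (M a227 (F (T t68 (L l23 (L l481 (T t680 (L l23 (L l28 (L l52 (L l56 (T t448 N))))))))))) N))))))))))))))) (K a21 (M a166 (L l409 (F (T t2543 (L l15 (T t2470 (L l15 (T t2541 (K a227 (M a167 (F (T t2540 (L l131 (T t4582 (L l15 (L l143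 (L l248 (T t3877 N))))))))) (K a167 (M a227 (F (T t4583 (L l15 (L l143 (L l457 (T t3877 N))))))) N)))))))))) (K a25 (M a166 (L l409 (F (T t4584 (L l15 (T t2470 (L l15 (L l56 (T t2541 (K a227 (M a167 (F (L l131 (L l353 (T t4582 (L l15 (L l56 (L l143 (L l248 (T t3877 N)))))))))) (K a167 (M a227 (F (L l353 (T t4583 (L l15 (L l56 (L l143 (L l457 (T t3877 N))))))))) N))))))))))) (K a29 (M a85 (L l409 (F (T t1370 (L l28 (T t88 (L l28 (T t572 (K a227 (M a167 (F (T t90 (T t4585 N)))) (K a167 (M a227 (F (T t90 (L l23 (L l457 (T t4586 N)))))) N)))))))))) (K a38 (M a85 (L l409 (F (T t1370 (L l26 (L l28 (T t88 (L l143 (T t574 (K a227 (M a167 (F (T t90 (T t4585 N)))) (K a167 (M a227 (F (T t90 (L l23 (L l29 (L l457 (T t4586 N))))))) N))))))))))) (K a42 (M a166 (L l28 (L l409 (F (T t4587 (L l56 (T t2543 (L l56 (T t2541 (K a32 (M a37 (L l409 (F (T t4086 (T t4588 (L l56 (L l143 (T t3877 (K a227 (M a167 (L l380 (F (L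 l131 (T t4582 (L l56 (L l248 (T t2541 (K a97 (M a162 (F (T t4589 (L l56 (T t4590 N))))) (K a162 (M a97 (F (L l131 (T t4582 (L l56 (L l248 (L l378 (T t2541 N)))))))) N)))))))))) (K a167 (M a227 (F (T t4583 (L l56 (L l143 (L l457 (T t3877 N))))))) N)))))))))) (K a37 (M a32 (L l409 (F (T t4587 (L l51 (L l56 (T t682 (K a227 (M a167 (F (T t4591 (L l56 (L l248 (T t2541 N)))))) (K a167 (M a227 (F (T t2470 (L l383 (L l385 (T t4592 N)))))) N))))))))) (K a227 (M a167 (L l28 (F (L l131 (T t4582 (L l56 (L l143 (L l248 (T t3877 (K a32 (M a37 (L l380 (F (L l131 (T t4582 (L l56 (L l248 (T t2541 (K a97 (M a162 (F (T t4589 (L l56 (T t4590 N))))) (K a162 (M a97 (F (L l131 (T t4582 (L l56 (L l248 (L l378 (T t2541 N)))))))) N)))))))))) (K a37 (M a32 (F (T t4591 (L l56 (L l248 (T t2541 N)))))) N))))))))))) (K a167 (M a227 (L l28 (F (T t4583 (L l56 (L l143 (L l457 (T t3877 (K a32 (M a37 (F (T t4583 (L l56 (L l143 (L l457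 (T t3877 N))))))) (K a37 (M a32 (F (T t2470 (L l383 (L l385 (T t4592 N)))))) N)))))))))) N))))))))))))) (K a46 (M a44 (L l409 (F (T t683 (L l26 (L l27 (L l28 (T t684 (T t685 (K a227 (M a167 (F (T t683 (L l26 (L l27 (L l28 (L l379 (T t684 (T t685 N))))))))) (K a167 (M a227 (F (T t685 (L l98 (L l396 (L l457 (T t4593 N))))))) N))))))))))) (K a51 (M a166 (L l409 (F (T t4587 (L l439 (T t2543 (T t2541 (K a227 (M a167 (F (L l248 (T t4587 (L l143 (T t4594 N)))))) (K a167 (M a227 (F (T t4583 (L l143 (L l457 (T t3877 N)))))) N))))))))) (K a227 (M a167 (F (T t122 (L l23 (L l28 (T t151 (L l499 (T t152 (L l28 (T t153 (K a4 (M a166 (F (L l131 (T t4595 (L l50 (L l248 (T t4596 N))))))) (K a8 (M a14 (F (L l131 (L l464 (T t4597 (L l2 (T t728 N))))))) (K a21 (M a164 (F (T t4598 (L l15 (L l131 (L l248 (L l271 (L l411 (T t4599 N))))))))) (K a25 (M a164 (F (T t4600 (L l15 (L l131 (L l248 (L l271 (L l411 (T t4599 N)))))))))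 (K a29 (M a85 (F (T t90 (T t4585 N)))) (K a38 (M a164 (F (T t4598 (L l131 (L l248 (L l271 (L l411 (T t4599 N)))))))) (K a42 (M a164 (L l28 (F (T t4600 (L l131 (L l248 (L l271 (L l411 (T t4599 (K a32 (M a37 (L l380 (F (T t4600 (L l23 (L l26 (L l271 (L l411 (T t4601 (K a97 (M a162 (F (T t4602 (L l117 (L l410 (T t4603 N)))))) (K a162 (M a97 (F (T t4600 (L l23 (L l26 (L l271 (L l411 (T t4601 N)))))))) N))))))))))) (K a37 (M a32 (F (T t4602 (L l23 (L l26 (L l271 (L l383 (L l411 (T t4601 N))))))))) N))))))))))) (K a46 (M a44 (F (T t683 (L l26 (L l27 (L l28 (L l379 (T t684 (T t685 N))))))))) (K a51 (M a164 (F (T t4604 (L l131 (L l248 (L l271 (L l411 (L l415 (T t4599 N))))))))) N))))))))))))))))))) (K a167 (M a227 (F (T t122 (L l23 (L l28 (T t151 (L l499 (T t152 (L l28 (T t153 (K a4 (M a44 (F (L l28 (T t4605 (L l98 (L l310 (T t4606 N))))))) (K a8 (M a44 (F (T t685 (L l98 (T t4606 N))))) (K a21 (M a44 (F (L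 l11 (L l28 (T t3156 (L l15 (L l98 (T t4606 N)))))))) (K a25 (M a44 (F (L l19 (T t683 (L l15 (L l98 (T t4606 N))))))) (K a29 (M a44 (F (L l98 (L l457 (T t4593 (L l13 (L l28 (T t4605 N)))))))) (K a38 (M a44 (F (L l28 (T t3156 (L l98 (T t4606 N)))))) (K a42 (M a32 (F (L l23 (T t4607 (T t4608 (L l98 (T t4609 N))))))) (K a46 (M a44 (F (T t685 (L l98 (L l396 (L l457 (T t4593 N))))))) (K a51 (M a44 (F (T t683 (L l98 (L l489 (T t4606 N)))))) N))))))))))))))))))) N))))))))))))))))))))))⟩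
def e0_63__107_33 : Ent 4 := ⟨[a0, a63], [a107, a60], (M a48 (F (T t48 (L l63 (T t1 (L l63 (T t2 (L l63 (L l409 (T t3 (L l63 (T t0 (K a16 (M a85 (F (T t4539 (L l143 (L l442 (T t50 (T t51 N))))))) (K a32 (M a85 (F (L l434 (T t255 (L l143 (L l404 (L l442 (T t50 (L l28 (T t51 N)))))))))) (K a21 (M a192 (F (T t2113 (L l47 (L l347 (L l506 (T t20 (L l47 (L l347 (T t29 N)))))))))) (K a37 (M a192 (F (T t36 (L l47 (L l506 (T t20 (L l143 (L l434 (T t21 N))))))))) (K a53 (M a192 (F (T t55 (L l143 (L l434 (L l491 (T t21 (L l98 (T t31 N))))))))) (K a26 (M a192 (F (T t56 (L l442 (T t27 (L l143 (L l434 (T t21 N)))))))) (K a42 (M a192 (F (T t56 (L l442 (T t27 (L l28 (T t29 N))))))) (K a58 (M a192 (F (T t57 (L l442 (T t27 (L l54 (L l98 (L l498 (T t31 N))))))))) (K a15 (M a80 (L l63 (F (T t139 (L l98 (T t59 (L l98 (L l434 (L l469 (L l483 (T t60 (K a45 (M a30 (F (T t1831 (L l39 (T t293 N))))) (K a30 (M a45 (F (T t1831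 (L l39 (T t294 N))))) N))))))))))))) N)))))))))))))))))))))⟩
def e0_63__107_34 : Ent 4 := ⟨[a0, a63], [a107, a61], (M a48 (F (T t2 (L l35 (L l65 (T t1 (L l65 (L l409 (T t3 (T t0 (K a16 (M a85 (F (T t168 (L l143 (T t50 (T t51 N)))))) (K a32 (M a85 (F (L l28 (T t168 (L l143 (L l404 (T t50 (L l28 (T t51 N))))))))) (K a21 (M a192 (L l65 (F (T t27 (L l35 (L l47 (L l347 (L l515 (T t20 (L l35 (L l47 (L l347 (L l515 (T t29 (K a1 (M a41 (F (T t27 (L l35 (L l47 (L l347 (L l515 (T t20 (L l18 (L l98 (T t46 N))))))))))) (K a41 (M a1 (F (T t28 (L l22 (L l98 (L l391 (T t1827 N))))))) N)))))))))))))))) (K a37 (M a192 (F (T t19 (L l35 (L l47 (L l515 (T t20 (L l143 (L l515 (T t21 N)))))))))) (K a53 (M a49 (F (T t296 (L l499 (T t297 (L l31 (L l47 (L l59 (L l65 (T t298 (L l59 (T t299 N)))))))))))) (K a26 (M a192 (F (T t837 (L l35 (L l515 (T t20 (L l143 (L l515 (T t21 N))))))))) (K a42 (M a192 (F (T t19 (L l35 (L l515 (T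 t20 (L l28 (L l35 (L l515 (T t29 N)))))))))) (K a58 (M a192 (F (T t19 (L l143 (L l515 (T t21 (L l54 (L l98 (L l498 (T t31 N)))))))))) (K a15 (M a192 (F (T t1922 (L l35 (L l325 (L l515 (T t20 (L l143 (L l469 (L l515 (T t21 N))))))))))) N)))))))))))))))))))⟩
def e0_63__107_35 : Ent 4 := ⟨[a0, a63], [a107, a62], (M a48 (F (T t1 (L l36 (L l66 (T t2 (L l409 (T t3 (L l66 (T t0 (K a16 (M a85 (F (T t90 (L l143 (T t50 (L l36 (L l66 (T t51 N)))))))) (K a32 (M a85 (F (T t255 (L l143 (L l404 (T t50 (L l28 (L l36 (L l66 (T t51 N)))))))))) (K a21 (M a192 (F (T t837 (L l47 (L l347 (T t20 (L l47 (L l347 (T t29 N))))))))) (K a37 (M a192 (F (T t19 (L l47 (T t20 (L l143 (T t21 N))))))) (K a53 (M a192 (F (T t19 (L l143 (L l491 (T t21 (L l66 (L l98 (L l516 (T t31 N)))))))))) (K a26 (M a192 (F (T t837 (T t20 (L l143 (T t21 N)))))) (K a42 (M a192 (L l66 (F (T t19 (T t20 (L l28 (T t29 (K a2 (M a22 (F (T t27 (T t20 (L l98 (L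 l390 (L l516 (T t46 N)))))))) (K a22 (M a2 (F (T t19 (L l98 (L l390 (L l516 (T t1365 N))))))) N))))))))) (K a58 (M a50 (F (T t301 (L l54 (L l60 (L l66 (T t302 (T t303 N)))))))) (K a15 (M a192 (F (T t57 (L l483 (T t27 (L l325 (T t20 N))))))) N)))))))))))))))))))⟩
def e0_63__107_36 : Ent 4 := ⟨[a0, a63], [a107, a64], (M a48 (F (T t1 (T t2 (L l409 (T t3 (T t0 (K a16 (M a60 (F (T t43 (T t64 (T t65 N))))) (K a32 (M a60 (F (T t64 (L l391 (T t67 (L l24 (L l28 (T t65 N)))))))) (K a21 (M a101 (F (T t687 (L l18 (T t334 (L l18 (T t314 N))))))) (K a37 (M a52 (F (T t82 (T t83 (L l21 (L l28 (T t84 N))))))) (K a53 (M a12 (F (T t151 (T t443 (L l47 (T t146 N)))))) (K a26 (M a56 (F (T t133 (L l499 (T t134 (L l12 (L l18 (T t135 N)))))))) (K a42 (M a101 (F (T t335 (L l54 (L l116 (T t313 (L l54 (T t314 N)))))))) (K a58 (M a12 (F (T t443 (T t122 (T t146 N))))) (K a15 (M a4 (F (T t129 (L l63 (T t528 (T t520 N)))))) N))))))))))))))))⟩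
def e0_63__107_37 : Ent 4 := ⟨[a0, a63], [a107, a65], (M a48 (F (T t1 (T t2 (L l409 (T t3 (T t0 (K a16 (M a60 (F (T t43 (T t64 (T t65 N))))) (K a32 (M a60 (F (T t64 (L l391 (T t67 (L l24 (L l28 (T t65 N)))))))) (K a21 (M a192 (F (T t28 (L l47 (L l347 (T t20 (L l47 (L l347 (T t29 N))))))))) (K a37 (M a192 (F (T t19 (L l47 (T t20 (L l143 (T t21 N))))))) (K a53 (M a192 (F (T t19 (L l143 (L l491 (T t21 (L l98 (T t31 N)))))))) (K a26 (M a192 (F (T t28 (T t20 (L l143 (T t21 N)))))) (K a42 (M a192 (F (T t19 (T t20 (L l28 (T t29 N)))))) (K a58 (M a192 (F (T t19 (L l143 (T t21 (L l54 (L l98 (L l498 (T t31 N))))))))) (K a15 (M a192 (F (T t57 (L l483 (T t27 (L l325 (T t20 N))))))) N))))))))))))))))⟩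
def e0_63__107_38 : Ent 4 := ⟨[a0, a63], [a107, a66], (M a48 (F (T t1 (T t2 (L l409 (T t3 (T t0 (K a16 (M a60 (F (T t64 (L l14 (L l18 (L l309 (L l391 (T t67 (T t65 N))))))))) (K a32 (M a60 (F (T t64 (L l309 (L l391 (T t67 (L l24 (L l28 (T t65 N))))))))) (K a21 (M a192 (F (T t28 (L l47 (L l347 (T t20 (L l47 (L l347 (T t29 N))))))))) (K a37 (M a192 (F (T t19 (L l47 (T t20 (L l143 (T t21 N))))))) (K a53 (M a192 (F (T t19 (L l143 (L l491 (T t21 (L l98 (L l142 (T t31 N))))))))) (K a26 (M a192 (F (T t28 (T t20 (L l143 (T t21 N)))))) (K a42 (M a192 (F (T t19 (T t20 (L l28 (T t29 N)))))) (K a58 (M a192 (F (T t19 (L l143 (T t21 (L l54 (L l98 (L l142 (L l498 (T t31 N)))))))))) (K a15 (M a192 (F (T t57 (L l483 (T t27 (L l325 (T t20 N))))))) N))))))))))))))))⟩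
def e0_63__107_39 : Ent 4 := ⟨[a0, a63], [a107, a67], (M a48 (L l143 (F (T t1 (T t2 (L l409 (T t3 (T t0 (K a16 (M a255 (L l143 (F (T t1169 (L l76 (T t1165 (L l18 (L l368 (T t1167 (K a87 (Fr a127 a191 l433 (V t1161)) (K a127 (M a87 (F (L l391 (T t1185 (L l18 (L l114 (L l144 (L l368 (T t1167 (L l18 (L l391 (T t1186 N)))))))))))) N))))))))))) (K a32 (M a255 (L l143 (F (T t1169 (L l76 (L l404 (T t1165 (T t1167 (K a87 (Fr a127 a191 l433 (V t1161)) (K a127 (M a87 (F (L l391 (T t1187 (L l114 (L l144 (T t1167 (L l391 (L l404 (T t1188 N)))))))))) N)))))))))) (K a21 (M a255 (L l143 (F (T t1160 (L l347 (T t547 (L l47 (T t548 (K a87 (Fr a127 a191 l433 (V t1161)) (K a127 (M a87 (F (T t512 (L l391 (T t1188 (L l65 (L l391 (T t1189 N)))))))) N)))))))))) (K a37 (M a255 (L l143 (F (T t1160 (L l76 (T t1165 (T t547 (K a87 (Fr a127 a191 l433 (V t1161)) (K a127 (M a87 (F (T t1162 (L l47 (L l391 (T t1186 N)))))) N)))))))))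 (K a53 (M a85 (L l143 (F (T t352 (T t99 (T t568 (K a87 (M a127 (F (T t1190 (L l76 (T t1191 N))))) (K a127 (M a87 (F (T t873 (T t923 N)))) N)))))))) (K a26 (M a255 (L l143 (F (T t1169 (L l76 (T t1165 (T t547 (K a87 (Fr a127 a191 l433 (V t1161)) (K a127 (M a87 (F (T t512 (L l54 (L l391 (T t1192 N)))))) N))))))))) (K a42 (M a255 (L l143 (F (T t1169 (T t547 (L l28 (L l390 (T t548 (K a87 (Fr a127 a191 l433 (V t1161)) (K a127 (M a87 (F (L l144 (T t1193 (L l391 (T t1189 (L l390 (L l391 (T t1188 N))))))))) N)))))))))) (K a58 (M a85 (L l143 (F (T t255 (T t509 (L l54 (T t568 (K a87 (M a127 (F (T t1190 (L l54 (L l76 (T t1191 N)))))) (K a127 (M a87 (F (T t261 (L l54 (T t923 N))))) N))))))))) (K a15 (M a85 (L l143 (F (T t509 (L l76 (L l339 (T t88 (T t1194 (K a87 (M a127 (F (T t1190 (L l76 (T t1191 N))))) (K a127 (M a87 (F (T t509 (T t923 N)))) N)))))))))) (K a87 (M a127 (F (T t2 (L l121 (T t1171 (L l76 (T t1158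 N))))))) (K a127 (M a87 (F (T t1 (T t2 (L l409 (T t3 (T t0 (K a16 (M a85 (F (L l391 (T t1195 (L l114 (T t51 N)))))) (K a32 (M a149 (F (T t184 (L l28 (T t1196 N))))) (K a21 (M a154 (F (T t526 (T t1197 N)))) (K a37 (M a85 (F (L l391 (T t1198 (L l28 (L l47 (T t1199 N))))))) (K a53 (M a20 (F (T t183 (T t1200 N)))) (K a26 (M a20 (F (T t805 (L l16 (L l54 (T t1200 N)))))) (K a42 (M a154 (F (T t473 (L l28 (T t1197 N))))) (K a58 (M a20 (F (T t1201 (L l54 (T t1200 N))))) (K a15 (M a20 (F (T t183 (T t1200 N)))) N)))))))))))))))) N)))))))))))))))))))⟩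
def e0_63__107_40 : Ent 4 := ⟨[a0, a63], [a107, a68], (M a48 (F (T t1 (T t2 (L l409 (T t3 (T t0 (K a16 (M a60 (F (T t43 (T t64 (T t65 N))))) (K a32 (M a60 (F (T t64 (L l391 (T t67 (L l24 (L l28 (T t65 N)))))))) (K a21 (M a192 (F (T t28 (L l47 (L l347 (T t20 (L l47 (L l347 (T t29 N))))))))) (K a37 (M a192 (F (T t19 (L l47 (T t20 (L l143 (T t21 N))))))) (K a53 (M a192 (F (T t19 (L l143 (L l491 (T t21 (L l98 (T t31 N)))))))) (K a26 (M a192 (F (T t28 (T t20 (L l143 (T t21 N)))))) (K a42 (M a192 (F (T t19 (T t20 (L l28 (T t29 N)))))) (K a58 (M a192 (F (T t19 (L l143 (T t21 (L l54 (L l98 (L l498 (T t31 N))))))))) (K a15 (M a192 (F (T t57 (L l483 (T t27 (L l325 (T t20 N))))))) N))))))))))))))))⟩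
def e0_63__107_41 : Ent 4 := ⟨[a0, a63], [a107, a69], (M a48 (F (T t1 (L l311 (T t2 (L l409 (T t3 (T t0 (K a16 (M a60 (F (T t43 (T t64 (L l311 (T t65 N)))))) (K a32 (M a60 (F (T t64 (L l391 (T t67 (L l24 (L l28 (L l311 (T t65 N))))))))) (K a21 (M a192 (F (T t28 (L l47 (L l347 (T t20 (L l47 (L l347 (T t29 N))))))))) (K a37 (M a192 (F (T t19 (L l47 (T t20 (L l143 (T t21 N))))))) (K a53 (M a192 (F (T t19 (L l143 (L l491 (T t21 (L l98 (T t31 N)))))))) (K a26 (M a192 (F (T t28 (T t20 (L l143 (T t21 N)))))) (K a42 (M a192 (F (T t19 (T t20 (L l28 (T t29 N)))))) (K a58 (M a192 (F (T t19 (L l143 (T t21 (L l54 (L l98 (L l498 (T t31 N))))))))) (K a15 (M a192 (F (T t57 (L l483 (T t27 (L l325 (T t20 N))))))) N)))))))))))))))))⟩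
def e0_63__107_42 : Ent 4 := ⟨[a0, a63], [a107, a70], (M a149 (F (T t5 (T t175 (T t176 (L l98 (T t177 (K a192 (M a53 (F (T t178 (L l236 (T t179 (L l77 (L l236 (L l296 (T t180 N))))))))) (K a21 (M a48 (F (T t4 (L l98 (T t13 (L l18 (T t14 N))))))) (K a85 (M a16 (F (T t97 (L l98 (L l144 (T t190 (L l94 (T t278 N)))))))) (K a213 (Fr a106 a192 l519 (Fr a42 a21 l68 (Fr a170 a234 l390 (Fr a255 a85 l476 (V t582))))) (K a42 (M a48 (F (T t187 (L l98 (L l390 (T t13 (L l54 (T t14 N)))))))) (K a106 (M a105 (F (L l390 (T t1931 (L l391 (L l516 (T t1932 (L l390 (L l391 (L l516 (T t1933 (L l390 (L l516 (T t1934 (L l516 (T t1935 N)))))))))))))))) (K a170 (M a48 (F (T t4 (L l462 (T t1 (L l98 (L l390 (T t13 N)))))))) (K a191 (M a16 (F (T t97 (L l98 (T t190 (L l213 (T t191 N))))))) (K a255 (M a16 (F (T t112 (L l98 (L l266 (T t190 (L l289 (L l296 (T t191 N))))))))) N))))))))))))))))⟩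
def e0_63__107_43 : Ent 4 := ⟨[a0, a63], [a107, a71], (M a149 (F (T t5 (T t175 (T t176 (L l98 (T t177 (K a192 (M a53 (F (T t178 (L l236 (T t179 (L l77 (L l236 (L l296 (T t180 N))))))))) (K a21 (M a48 (F (T t4 (L l98 (T t13 (L l18 (T t14 N))))))) (K a85 (M a16 (F (T t97 (L l98 (L l144 (T t190 (L l94 (T t278 N)))))))) (K a213 (Fr a106 a192 l519 (Fr a42 a21 l68 (Fr a170 a234 l390 (Fr a255 a85 l476 (V t582))))) (K a42 (M a48 (F (T t11 (L l98 (L l390 (T t13 (L l54 (T t14 N)))))))) (K a106 (M a105 (F (L l390 (T t1931 (L l391 (L l516 (T t1932 (L l390 (L l391 (L l516 (T t1933 (L l390 (L l516 (T t1934 (L l516 (T t1935 N)))))))))))))))) (K a170 (M a48 (F (T t4 (L l462 (T t1 (L l98 (L l390 (T t13 N)))))))) (K a191 (M a16 (F (T t97 (L l98 (T t190 (L l213 (T t191 N))))))) (K a255 (M a16 (F (T t112 (L l98 (L l266 (T t190 (L l289 (L l296 (T t191 N))))))))) N))))))))))))))))⟩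
def e0_63__107_44 : Ent 4 := ⟨[a0, a63], [a107, a72], (M a48 (F (T t1 (T t2 (L l409 (T t3 (T t0 (K a16 (M a60 (F (T t43 (T t64 (T t65 N))))) (K a32 (M a60 (F (T t64 (L l391 (T t67 (L l24 (L l28 (T t65 N)))))))) (K a21 (M a192 (F (T t28 (L l47 (L l347 (T t20 (L l47 (L l347 (T t29 N))))))))) (K a37 (M a192 (F (T t19 (L l47 (T t20 (L l143 (T t21 N))))))) (K a53 (M a192 (F (T t19 (L l143 (L l491 (T t21 (L l98 (L l132 (T t31 N))))))))) (K a26 (M a192 (F (T t28 (T t20 (L l143 (T t21 N)))))) (K a42 (M a192 (F (T t19 (T t20 (L l28 (T t29 N)))))) (K a58 (M a192 (F (T t19 (L l143 (T t21 (L l54 (L l98 (L l132 (L l498 (T t31 N)))))))))) (K a15 (M a192 (F (T t57 (L l483 (T t27 (L l325 (T t20 N))))))) N))))))))))))))))⟩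
def e0_63__107_45 : Ent 4 := ⟨[a0, a63], [a107, a73], (M a149 (F (T t5 (T t175 (T t176 (L l98 (T t177 (K a192 (M a53 (F (T t178 (L l236 (T t179 (L l81 (L l236 (L l296 (T t180 N))))))))) (K a21 (M a48 (F (T t4 (L l98 (T t13 (L l18 (T t14 N))))))) (K a85 (M a16 (F (T t97 (L l98 (L l144 (T t190 (L l94 (T t278 N)))))))) (K a213 (Fr a106 a192 l519 (Fr a42 a21 l68 (Fr a170 a234 l390 (Fr a255 a85 l476 (V t582))))) (K a42 (M a48 (F (T t187 (L l98 (L l390 (T t13 (L l54 (T t14 N)))))))) (K a106 (M a105 (F (L l335 (L l391 (L l516 (T t1932 (L l81 (L l335 (L l390 (T t1931 (L l390 (L l391 (L l516 (T t1933 (L l335 (L l390 (L l516 (T t1934 (L l335 (L l338 (L l516 (T t1935 N)))))))))))))))))))))) (K a170 (M a48 (F (T t4 (L l462 (T t1 (L l98 (L l390 (T t13 N)))))))) (K a191 (M a16 (F (T t97 (L l98 (T t190 (L l213 (T t191 N))))))) (K a255 (M a16 (F (T t112 (L l98 (L l266 (T t190 (L l289 (L l296 (T t191 N))))))))) N))))))))))))))))⟩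
def e0_63__107_46 : Ent 4 := ⟨[a0, a63], [a107, a74], (M a12 (F (T t122 (T t151 (L l499 (T t152 (T t153 (K a4 (M a60 (F (T t43 (L l336 (L l339 (T t398 (T t448 N))))))) (K a8 (M a60 (F (T t68 (L l336 (L l339 (T t398 (L l52 (L l56 (T t448 N))))))))) (K a21 (M a192 (F (T t156 (L l15 (L l347 (T t450 (L l15 (L l347 (T t157 N))))))))) (K a25 (M a192 (F (T t156 (L l15 (T t450 (L l143 (T t21 N))))))) (K a29 (M a192 (F (T t156 (L l143 (L l371 (T t21 (L l78 (L l98 (L l130 (T t160 N)))))))))) (K a38 (M a192 (F (T t156 (T t450 (L l143 (T t21 N)))))) (K a42 (M a192 (F (T t156 (T t450 (L l56 (T t157 N)))))) (K a46 (M a192 (F (T t156 (L l143 (T t21 (L l26 (L l78 (L l98 (L l130 (L l408 (T t160 N))))))))))) (K a51 (M a192 (F (T t57 (L l513 (T t156 (L l415 (T t450 N))))))) N))))))))))))))))⟩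
def e0_63__107_47 : Ent 4 := ⟨[a0, a63], [a107, a75], (M a12 (L l131 (F (T t122 (T t151 (L l499 (T t152 (T t153 (K a4 (M a149 (L l131 (F (T t1984 (T t5 (T t960 (K a91 (M a123 (F (T t2749 (L l98 (T t1245 N))))) (K a123 (M a91 (F (T t424 (T t2750 N)))) N)))))))) (K a8 (M a149 (L l131 (F (T t647 (L l56 (T t5 (L l56 (T t960 (K a91 (M a123 (F (T t2751 (L l56 (L l98 (T t1245 N)))))) (K a123 (M a91 (F (T t1007 (L l460 (T t2750 N))))) N)))))))))) (K a21 (M a89 (L l131 (F (T t2752 (L l50 (T t863 (L l50 (T t864 (K a91 (M a123 (F (T t2753 (L l78 (T t2754 N))))) (K a123 (M a91 (F (T t2755 (T t2756 N)))) N)))))))))) (K a25 (M a28 (L l131 (F (T t2735 (L l337 (T t2481 (L l12 (L l56 (T t2482 (K a91 (M a123 (F (T t2735 (L l78 (T t2757 N))))) (K a123 (M a91 (F (T t2735 (T t2758 N)))) N))))))))))) (K a29 (M a192 (L l131 (F (T t449 (L l143 (L l371 (T t21 (L l78 (L l98 (T t160 (K a91 (M a123 (F (T t2759 (L l15 (T t2760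 N))))) (K a123 (M a91 (F (T t449 (L l15 (L l371 (T t35 (L l98 (L l132 (T t2539 N))))))))) N)))))))))))) (K a38 (M a89 (L l131 (F (T t2303 (L l50 (T t863 (L l26 (L l50 (T t864 (K a91 (M a123 (F (T t2753 (L l78 (T t2754 N))))) (K a123 (M a91 (F (T t2755 (L l26 (T t2756 N))))) N))))))))))) (K a42 (M a89 (L l131 (F (T t2303 (T t863 (L l26 (T t864 (K a91 (M a123 (F (T t2753 (L l78 (T t2754 N))))) (K a123 (M a91 (F (T t2761 (L l26 (T t2756 N))))) N))))))))) (K a46 (M a192 (L l131 (F (T t449 (L l143 (T t21 (L l26 (L l78 (L l98 (L l408 (T t160 (K a91 (M a123 (F (T t2762 (L l26 (T t2763 N))))) (K a123 (M a91 (F (T t35 (T t449 (L l26 (L l98 (L l132 (L l408 (T t2539 N))))))))) N))))))))))))) (K a51 (M a16 (L l131 (F (T t112 (L l39 (T t871 (T t872 (K a91 (M a123 (F (T t112 (L l78 (L l489 (T t2757 N)))))) (K a123 (M a91 (F (T t652 (T t2764 N)))) N))))))))) (K a91 (M a123 (F (T t151 (L l78 (T t2757 (L l88 (T t2765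 N))))))) (K a123 (M a91 (F (T t122 (T t151 (L l427 (L l499 (T t152 (T t153 (K a4 (M a149 (F (T t424 (T t2750 N)))) (K a8 (M a149 (F (T t1007 (L l460 (T t2750 N))))) (K a21 (M a88 (F (T t2766 (L l133 (T t2767 N))))) (K a25 (M a88 (F (T t2768 (L l133 (T t2767 N))))) (K a29 (M a16 (F (T t652 (T t2764 N)))) (K a38 (M a16 (F (L l21 (T t871 (L l26 (L l72 (T t2764 N))))))) (K a42 (M a88 (F (T t2768 (L l26 (L l133 (T t2767 N)))))) (K a46 (M a16 (F (T t871 (L l26 (T t2764 N))))) (K a51 (M a16 (F (T t652 (T t2764 N)))) N))))))))))))))))) N)))))))))))))))))))⟩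
def e0_63__107_48 : Ent 4 := ⟨[a0, a63], [a107, a76], (M a149 (F (T t25 (T t175 (T t176 (L l80 (L l98 (T t177 (K a192 (M a53 (F (T t178 (L l236 (T t179 (L l236 (L l296 (T t180 N)))))))) (K a21 (M a48 (F (T t4 (L l98 (L l146 (T t13 (L l18 (T t14 N)))))))) (K a85 (M a16 (F (T t97 (L l98 (L l144 (T t190 (L l94 (T t278 N)))))))) (K a213 (Fr a106 a192 l519 (Fr a42 a21 l68 (Fr a170 a234 l390 (Fr a255 a85 l476 (V t582))))) (K a42 (M a48 (F (T t187 (L l98 (L l146 (L l390 (T t13 (L l54 (T t14 N))))))))) (K a106 (M a105 (F (L l390 (T t1931 (L l391 (L l516 (T t1932 (L l390 (L l391 (L l516 (T t1933 (L l390 (L l516 (T t1934 (L l516 (T t1935 N)))))))))))))))) (K a170 (M a48 (F (T t4 (L l462 (T t1 (L l98 (L l146 (L l390 (T t13 N))))))))) (K a191 (M a16 (F (T t97 (L l98 (T t190 (L l213 (T t191 N))))))) (K a255 (M a16 (F (T t112 (L l98 (L l266 (T t190 (L l289 (L l296 (T t191 N))))))))) N)))))))))))))))))⟩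
def e0_63__107_49 : Ent 4 := ⟨[a0, a63], [a107, a77], (M a149 (F (T t5 (T t175 (T t176 (L l98 (T t177 (K a192 (M a53 (F (T t178 (L l236 (T t179 (L l81 (L l236 (L l296 (T t180 N))))))))) (K a21 (M a48 (F (T t4 (L l98 (T t13 (L l18 (T t14 N))))))) (K a85 (M a16 (F (T t97 (L l98 (L l144 (T t190 (L l94 (T t278 N)))))))) (K a213 (Fr a106 a192 l519 (Fr a42 a21 l68 (Fr a170 a234 l390 (Fr a255 a85 l476 (V t582))))) (K a42 (M a48 (F (T t11 (L l98 (L l390 (T t13 (L l54 (T t14 N)))))))) (K a106 (M a105 (F (L l516 (T t1935 (L l81 (L l390 (T t1931 (L l391 (L l516 (T t1932 (L l390 (L l391 (L l516 (T t1933 (L l390 (L l516 (T t1934 N))))))))))))))))) (K a170 (M a48 (F (T t4 (L l462 (T t1 (L l98 (L l390 (T t13 N)))))))) (K a191 (M a16 (F (T t97 (L l98 (T t190 (L l213 (T t191 N))))))) (K a255 (M a16 (F (T t112 (L l98 (L l266 (T t190 (L l289 (L l296 (T t191 N))))))))) N))))))))))))))))⟩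
def e0_63__107_50 : Ent 4 := ⟨[a0, a63], [a107, a78], (M a149 (F (T t5 (T t175 (T t176 (L l98 (T t177 (K a192 (M a53 (F (T t178 (L l236 (T t179 (L l236 (L l296 (T t180 N)))))))) (K a21 (M a48 (F (T t4 (L l98 (T t13 (L l18 (T t14 N))))))) (K a85 (M a16 (F (T t504 (L l98 (L l144 (T t190 (L l94 (L l148 (T t278 N))))))))) (K a213 (Fr a106 a192 l519 (Fr a42 a21 l68 (Fr a170 a234 l390 (Fr a255 a85 l476 (V t582))))) (K a42 (M a48 (F (T t187 (L l98 (L l390 (T t13 (L l54 (T t14 N)))))))) (K a106 (M a105 (F (L l390 (T t1931 (L l391 (L l516 (T t1932 (L l390 (L l391 (L l516 (T t1933 (L l390 (L l516 (T t1934 (L l516 (T t1935 N)))))))))))))))) (K a170 (M a48 (F (T t4 (L l327 (L l462 (T t1 (L l98 (L l390 (T t13 N))))))))) (K a191 (M a16 (F (T t112 (L l98 (T t190 (L l213 (T t191 N))))))) (K a255 (M a16 (F (T t112 (L l98 (L l266 (T t190 (L l289 (L l296 (T t191 N))))))))) N))))))))))))))))⟩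
def e0_63__107_51 : Ent 4 := ⟨[a0, a63], [a107, a79], (M a149 (F (T t25 (T t175 (T t176 (L l84 (L l98 (T t177 (K a192 (M a53 (F (T t178 (L l236 (T t179 (L l84 (L l236 (L l296 (T t180 N))))))))) (K a21 (M a48 (F (T t4 (L l18 (L l98 (T t1082 (L l18 (T t14 N)))))))) (K a85 (M a16 (F (T t504 (L l98 (L l144 (T t190 (L l94 (L l151 (T t278 N))))))))) (K a213 (Fr a106 a192 l519 (Fr a42 a21 l68 (Fr a170 a234 l390 (Fr a255 a85 l476 (V t582))))) (K a42 (M a48 (F (T t11 (L l98 (L l390 (T t1082 (L l54 (T t14 N)))))))) (K a106 (M a105 (F (L l390 (T t1931 (L l391 (L l516 (T t1932 (L l390 (L l391 (L l516 (T t1933 (L l390 (L l516 (T t1934 (L l516 (T t1935 N)))))))))))))))) (K a170 (M a48 (F (T t4 (L l462 (T t48 (L l98 (L l151 (L l390 (T t13 N))))))))) (K a191 (M a16 (F (T t112 (L l98 (T t190 (L l213 (T t191 N))))))) (K a255 (M a16 (F (T t112 (L l98 (L l266 (T t190 (L l289 (L l296 (T t191 N))))))))) N)))))))))))))))))⟩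
def e0_63__107_52 : Ent 4 := ⟨[a0, a63], [a107, a84], (M a48 (F (T t1 (T t2 (L l364 (L l409 (T t3 (T t0 (K a16 (M a60 (L l364 (F (T t43 (T t64 (T t65 (K a152 (M a220 (F (T t70 (T t69 (L l14 (L l18 (L l346 (L l391 (T t44 N))))))))) (K a220 (M a152 (F (T t43 (L l286 (T t469 N))))) N)))))))) (K a32 (M a60 (F (T t64 (L l346 (L l391 (T t67 (L l24 (L l28 (T t65 N))))))))) (K a21 (M a192 (F (T t28 (L l47 (L l347 (T t20 (L l47 (L l347 (T t29 N))))))))) (K a37 (M a192 (F (T t27 (L l47 (T t20 (L l143 (T t21 N))))))) (K a53 (M a192 (F (T t28 (L l143 (L l491 (T t21 (L l98 (T t31 N)))))))) (K a26 (M a192 (F (T t27 (T t20 (L l143 (T t21 N)))))) (K a42 (M a192 (F (T t27 (T t20 (L l28 (T t29 N)))))) (K a58 (M a192 (F (T t28 (L l143 (T t21 (L l54 (L l98 (L l498 (T t31 N))))))))) (K a15 (M a192 (F (T t56 (L l483 (T t27 (L l143 (L l469 (T t21 N)))))))) N)))))))))))))))))⟩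
def e0_63__107_53 : Ent 4 := ⟨[a0, a63], [a107, a85], (M a48 (F (T t0 (L l347 (T t1 (L l455 (T t2 (L l347 (L l368 (L l409 (T t3 (K a16 (M a60 (L l368 (F (T t43 (T t64 (L l455 (T t65 (K a154 (M a223 (F (T t43 (L l498 (L l500 (T t451 (L l455 (L l498 (T t65 N))))))))) (K a223 (M a154 (F (T t43 (L l340 (T t473 N))))) N))))))))) (K a32 (M a60 (F (T t64 (L l347 (L l350 (L l391 (T t67 (L l24 (L l28 (L l455 (T t65 N))))))))))) (K a21 (M a149 (F (T t4 (L l98 (L l144 (T t13 (L l18 (L l123 (L l143 (L l144 (L l368 (T t482 (L l18 (L l123 (L l368 (T t483 N)))))))))))))))) (K a37 (M a192 (F (T t27 (L l47 (L l347 (T t20 (L l98 (L l144 (L l368 (T t224 N)))))))))) (K a53 (M a12 (F (T t443 (L l47 (L l347 (T t122 (L l47 (L l347 (T t146 N))))))))) (K a26 (M a192 (F (T t28 (L l347 (T t20 (L l18 (L l54 (L l98 (L l144 (L l368 (T t224 N))))))))))) (K a42 (M a192 (F (T t27 (L l347 (T t20 (L l54 (L l98 (L l144 (L l368 (L l390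 (T t224 N))))))))))) (K a58 (M a12 (F (T t443 (L l347 (T t122 (L l347 (T t146 N))))))) (K a15 (M a192 (F (L l483 (T t28 (L l325 (L l347 (T t20 (L l98 (L l144 (L l368 (T t224 N))))))))))) N))))))))))))))))))))⟩
def e0_63__107_54 : Ent 4 := ⟨[a0, a63], [a107, a86], (M a48 (F (T t1 (T t2 (L l409 (T t3 (T t0 (K a16 (M a60 (F (T t64 (L l14 (L l18 (L l391 (L l477 (T t67 (L l351 (T t65 N)))))))))) (K a32 (M a60 (F (T t64 (L l391 (L l477 (T t67 (L l24 (L l28 (L l351 (T t65 N)))))))))) (K a21 (M a192 (F (T t837 (L l47 (L l347 (L l351 (T t20 (L l47 (L l347 (L l351 (T t29 N))))))))))) (K a37 (M a192 (F (T t19 (L l47 (L l351 (T t20 (L l143 (L l351 (T t21 N))))))))) (K a53 (M a192 (F (T t19 (L l143 (L l351 (L l491 (T t21 (L l98 (L l142 (T t31 N)))))))))) (K a26 (M a192 (F (T t837 (L l351 (T t20 (L l143 (L l351 (T t21 N)))))))) (K a42 (M a192 (F (T t19 (L l351 (T t20 (L l28 (L l351 (T t29 N)))))))) (K a58 (M a192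 (F (T t19 (L l143 (L l351 (T t21 (L l54 (L l98 (L l142 (L l498 (T t31 N))))))))))) (K a15 (M a192 (F (T t1922 (L l325 (L l351 (T t20 (L l143 (L l351 (L l469 (T t21 N)))))))))) N))))))))))))))))⟩
def e0_63__107_55 : Ent 4 := ⟨[a0, a63], [a107, a87], (M a48 (L l143 (F (T t1 (T t2 (L l409 (T t3 (T t0 (K a16 (M a60 (L l143 (F (T t64 (L l14 (L l18 (L l391 (L l475 (T t67 (L l349 (T t65 (K a67 (M a127 (F (T t70 (L l76 (T t1158 N))))) (K a127 (M a67 (F (T t70 (L l475 (T t69 (L l14 (L l18 (L l391 (T t44 N))))))))) N))))))))))))) (K a32 (M a60 (L l143 (F (T t64 (L l391 (L l475 (T t67 (L l24 (L l28 (L l349 (T t65 (K a67 (M a127 (F (T t70 (L l76 (L l404 (T t1158 N)))))) (K a127 (M a67 (F (T t70 (L l28 (L l475 (T t69 (L l391 (T t44 N)))))))) N))))))))))))) (K a21 (M a192 (L l143 (F (T t27 (L l47 (L l347 (T t20 (L l47 (L l347 (L l367 (T t29 (K a67 (M a127 (F (T t3693 (L l121 (T t1171 N))))) (K a127 (M a67 (F (T t28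 (L l103 (L l137 (L l347 (T t225 (L l18 (L l98 (L l144 (T t224 N))))))))))) N))))))))))))) (K a37 (M a3 (L l143 (F (T t348 (L l47 (L l349 (T t353 (L l25 (L l28 (L l391 (T t87 (K a67 (M a127 (F (T t348 (L l121 (T t1171 N))))) (K a127 (M a67 (F (T t2183 (L l25 (L l28 (L l391 (T t87 N))))))) N))))))))))))) (K a53 (M a3 (L l143 (F (T t86 (L l391 (T t137 (L l391 (T t87 (K a67 (M a127 (F (T t348 (L l76 (T t1158 N))))) (K a127 (M a67 (F (T t3694 (L l47 (T t358 N))))) N)))))))))) (K a26 (M a3 (L l143 (F (L l72 (T t86 (L l54 (L l391 (T t137 (L l16 (L l18 (L l349 (T t560 (K a67 (M a127 (F (L l16 (T t1249 (L l121 (T t1171 N)))))) (K a127 (M a67 (F (T t2183 (L l16 (L l18 (L l349 (T t560 N))))))) N)))))))))))))) (K a42 (M a192 (L l143 (F (T t19 (T t20 (L l28 (L l367 (T t29 (K a67 (M a127 (F (T t1170 (L l121 (T t1171 N))))) (K a127 (M a67 (F (T t20 (L l28 (T t28 (L l54 (L l98 (L l144 (L l390 (T t224 N)))))))))) N))))))))))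 (K a58 (M a3 (L l143 (F (T t348 (L l54 (L l391 (T t137 (L l54 (L l391 (T t87 (K a67 (M a127 (F (T t348 (L l76 (T t1158 N))))) (K a127 (M a67 (F (T t3694 (L l36 (T t358 N))))) N)))))))))))) (K a15 (M a1 (L l143 (F (T t3695 (L l63 (T t534 (T t542 (K a67 (M a127 (F (T t3696 (L l73 (T t535 N))))) (K a127 (M a67 (F (T t2707 (T t542 N)))) N))))))))) (K a67 (M a127 (F (T t2 (L l121 (T t1171 (L l76 (T t1158 N))))))) (K a127 (M a67 (F (T t1 (T t2 (L l409 (T t3 (T t0 (K a16 (M a1 (F (T t2707 (T t542 N)))) (K a32 (M a1 (F (T t2707 (L l20 (L l28 (T t542 N)))))) (K a21 (M a64 (F (L l98 (T t3697 (T t3698 N))))) (K a37 (M a64 (F (L l98 (T t3697 (T t3698 N))))) (K a53 (M a3 (F (T t3694 (L l47 (T t358 N))))) (K a26 (M a64 (F (L l98 (T t3697 (T t3698 N))))) (K a42 (M a64 (F (T t3699 (T t3698 N)))) (K a58 (M a3 (F (T t3694 (L l36 (T t358 N))))) (K a15 (M a64 (F (L l98 (T t3700 (L l481 (T t3698 N)))))) N))))))))))))))))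 N)))))))))))))))))))⟩
def e0_63__107_56 : Ent 4 := ⟨[a0, a63], [a107, a88], (M a149 (F (T t5 (T t175 (T t176 (L l98 (T t177 (K a192 (M a53 (F (T t178 (L l236 (T t179 (L l236 (L l296 (T t180 N)))))))) (K a21 (M a48 (F (T t4 (L l98 (L l146 (L l478 (T t13 (L l18 (T t14 N))))))))) (K a85 (M a16 (F (T t97 (L l98 (L l144 (L l370 (L l478 (T t190 (L l88 (L l94 (T t278 N))))))))))) (K a213 (Fr a106 a192 l519 (Fr a42 a21 l68 (Fr a170 a234 l390 (Fr a255 a85 l476 (V t582))))) (K a42 (M a48 (F (T t187 (L l98 (L l146 (L l390 (L l478 (T t13 (L l54 (T t14 N)))))))))) (K a106 (M a105 (F (L l390 (T t1931 (L l391 (L l516 (T t1932 (L l390 (L l391 (L l516 (T t1933 (L l390 (L l516 (T t1934 (L l516 (T t1935 N)))))))))))))))) (K a170 (M a48 (F (T t4 (L l462 (T t1 (L l98 (L l146 (L l390 (L l478 (T t13 N)))))))))) (K a191 (M a16 (F (T t97 (L l98 (L l370 (L l478 (T t190 (L l90 (L l213 (T t191 N)))))))))) (K a255 (M a16 (F (T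 t112 (L l98 (L l266 (L l370 (L l478 (T t190 (L l90 (L l289 (L l296 (T t191 N)))))))))))) N))))))))))))))))⟩
def e0_63__107_57 : Ent 4 := ⟨[a0, a63], [a107, a89], (M a48 (F (T t1 (T t2 (L l409 (T t3 (T t0 (K a16 (M a60 (F (T t43 (T t64 (T t65 N))))) (K a32 (M a60 (F (T t64 (L l391 (T t67 (L l24 (L l28 (T t65 N)))))))) (K a21 (M a192 (F (T t837 (L l47 (L l347 (L l371 (T t20 (L l47 (L l347 (L l371 (T t29 N))))))))))) (K a37 (M a192 (F (T t19 (L l47 (L l371 (T t20 (L l143 (L l371 (T t21 N))))))))) (K a53 (M a192 (F (T t19 (L l143 (L l371 (L l491 (T t21 (L l98 (L l132 (T t31 N)))))))))) (K a26 (M a192 (F (T t837 (L l371 (T t20 (L l143 (L l371 (T t21 N)))))))) (K a42 (M a192 (F (T t19 (L l371 (T t20 (L l28 (L l371 (T t29 N)))))))) (K a58 (M a192 (F (T t19 (L l143 (L l371 (T t21 (L l54 (L l98 (L l132 (L l498 (T t31 N))))))))))) (K a15 (M a192 (F (T t1922 (L l325 (L l371 (T t20 (L l143 (L l371 (L l469 (T t21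 N)))))))))) N))))))))))))))))⟩
def e0_63__107_58 : Ent 4 := ⟨[a0, a63], [a107, a90], (M a12 (F (T t122 (T t151 (L l499 (T t152 (T t153 (K a4 (M a60 (F (T t43 (L l480 (L l483 (T t398 (T t448 N))))))) (K a8 (M a60 (F (T t68 (L l480 (L l483 (T t398 (L l52 (L l56 (T t448 N))))))))) (K a21 (M a192 (F (T t836 (L l15 (L l347 (L l375 (T t450 (L l15 (L l347 (L l375 (T t157 N))))))))))) (K a25 (M a192 (F (T t449 (L l15 (L l375 (T t450 (L l143 (L l375 (T t21 N))))))))) (K a29 (M a192 (F (T t449 (L l143 (L l371 (L l375 (T t21 (L l98 (L l130 (T t160 N)))))))))) (K a38 (M a192 (F (T t836 (L l375 (T t450 (L l143 (L l375 (T t21 N)))))))) (K a42 (M a192 (F (T t449 (L l375 (T t450 (L l56 (L l375 (T t157 N)))))))) (K a46 (M a192 (F (T t449 (L l143 (L l375 (T t21 (L l26 (L l98 (L l130 (L l408 (T t160 N))))))))))) (K a51 (M a192 (F (T t1725 (L l375 (L l415 (T t450 (L l143 (L l375 (L l439 (T t21 N)))))))))) N))))))))))))))))⟩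
def e0_63__107_59 : Ent 4 := ⟨[a0, a63], [a107, a91], (M a12 (L l131 (F (T t122 (T t151 (L l499 (T t152 (T t153 (K a4 (M a15 (L l131 (F (T t716 (L l409 (T t2544 (L l1 (L l50 (T t2545 (K a75 (M a123 (F (T t716 (L l78 (L l458 (T t2757 N)))))) (K a123 (M a75 (F (T t716 (L l132 (L l314 (T t4308 N)))))) N))))))))))) (K a8 (M a15 (L l131 (F (T t731 (L l409 (T t2544 (T t2545 (K a75 (M a123 (F (T t731 (L l78 (L l316 (T t2757 N)))))) (K a123 (M a75 (F (T t731 (L l132 (L l316 (T t4308 N)))))) N))))))))) (K a21 (M a192 (L l131 (F (T t156 (L l15 (L l347 (L l481 (T t450 (L l15 (L l347 (T t157 (K a75 (M a123 (F (T t2759 (L l15 (T t2760 N))))) (K a123 (M a75 (F (T t156 (L l98 (L l132 (L l481 (T t221 (L l15 (L l347 (T t157 N)))))))))) N))))))))))))) (K a25 (M a13 (L l131 (F (T t3911 (T t3914 (L l53 (L l56 (T t3915 (K a75 (M a123 (F (T t3911 (L l88 (L l353 (T t2765 N)))))) (K a123 (M a75 (F (T t4309 (L l53 (L l56 (T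 t3915 N)))))) N)))))))))) (K a29 (M a15 (L l131 (F (T t3936 (T t716 (L l59 (L l409 (T t722 (K a75 (M a123 (F (T t716 (L l88 (L l371 (T t2765 N)))))) (K a123 (M a75 (F (T t716 (L l132 (T t4308 N))))) N)))))))))) (K a38 (M a15 (L l131 (F (T t717 (L l26 (T t716 (L l26 (L l409 (T t2544 (K a75 (M a123 (F (T t717 (L l78 (L l384 (T t2757 N)))))) (K a123 (M a75 (F (T t2576 (T t4310 N)))) N))))))))))) (K a42 (M a192 (L l131 (F (T t449 (L l481 (T t450 (L l56 (T t157 (K a75 (M a123 (F (T t2762 (T t2760 N)))) (K a123 (M a75 (F (T t449 (L l26 (L l98 (L l132 (L l390 (L l481 (T t221 (L l56 (T t157 N))))))))))) N)))))))))) (K a46 (M a15 (L l131 (F (T t731 (T t717 (L l23 (L l26 (L l409 (T t722 (K a75 (M a123 (F (T t731 (L l88 (L l396 (T t2765 N)))))) (K a123 (M a75 (F (T t731 (L l132 (T t4308 N))))) N))))))))))) (K a51 (M a13 (L l131 (F (T t4311 (L l39 (T t3911 (T t3915 (K a75 (M a123 (F (T t4311 (L l78 (L l489 (T t2757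 N)))))) (K a123 (M a75 (F (T t4309 (T t3915 N)))) N))))))))) (K a75 (M a123 (F (T t151 (L l78 (T t2757 (L l88 (T t2765 N))))))) (K a123 (M a75 (F (T t122 (T t151 (L l427 (L l499 (T t152 (T t153 (K a4 (M a13 (F (L l314 (T t4309 (L l1 (T t3915 N)))))) (K a8 (M a13 (F (T t4309 (L l56 (T t3915 N))))) (K a21 (M a195 (F (T t4312 (L l65 (T t4313 N))))) (K a25 (M a9 (F (T t4314 (L l15 (T t4315 N))))) (K a29 (M a9 (F (T t4314 (L l391 (T t4316 N))))) (K a38 (M a195 (F (T t4312 (L l26 (L l409 (T t4317 N)))))) (K a42 (M a195 (F (T t4318 (L l26 (T t4313 N))))) (K a46 (M a195 (F (T t4312 (L l373 (T t4319 N))))) (K a51 (M a9 (F (T t4314 (L l39 (L l391 (T t4316 N)))))) N))))))))))))))))) N)))))))))))))))))))⟩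
def e0_63__107_60 : Ent 4 := ⟨[a0, a63], [a107, a92], (M a149 (F (T t5 (T t175 (T t176 (L l98 (T t177 (K a192 (M a53 (F (T t178 (L l236 (T t179 (L l236 (L l296 (T t180 N)))))))) (K a21 (M a48 (F (T t4 (L l98 (T t13 (L l18 (T t14 N))))))) (K a85 (M a16 (F (T t97 (L l98 (L l144 (T t190 (L l94 (T t278 N)))))))) (K a213 (Fr a106 a192 l519 (Fr a42 a21 l68 (Fr a170 a234 l390 (Fr a255 a85 l476 (V t582))))) (K a42 (M a48 (F (T t187 (L l98 (L l390 (T t13 (L l54 (T t14 N)))))))) (K a106 (M a105 (F (L l390 (T t1931 (L l391 (L l516 (T t1932 (L l390 (L l391 (L l516 (T t1933 (L l390 (L l516 (T t1934 (L l516 (T t1935 N)))))))))))))))) (K a170 (M a48 (F (T t4 (L l462 (T t1 (L l98 (L l390 (T t13 N)))))))) (K a191 (M a16 (F (T t97 (L l98 (T t190 (L l90 (L l213 (T t191 N)))))))) (K a255 (M a16 (F (T t112 (L l98 (L l266 (T t190 (L l90 (L l289 (L l296 (T t191 N)))))))))) N))))))))))))))))⟩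
def e0_63__107_61 : Ent 4 := ⟨[a0, a63], [a107, a93], (M a60 (F (T t43 (L l391 (T t67 (T t68 (T t69 (K a20 (M a48 (F (T t2 (T t64 (L l11 (T t235 N)))))) (K a40 (M a48 (F (T t64 (T t1 (L l52 (T t235 N)))))) (K a21 (M a192 (F (T t77 (L l98 (T t1516 (L l138 (L l143 (L l347 (T t74 N))))))))) (K a41 (M a192 (F (T t77 (L l65 (L l470 (T t35 (L l98 (T t1516 N)))))))) (K a61 (M a192 (F (T t79 (L l65 (L l470 (L l515 (T t35 (L l98 (T t2718 N))))))))) (K a22 (M a192 (F (T t77 (L l138 (L l143 (L l470 (T t21 (L l66 (L l98 (T t1516 N)))))))))) (K a42 (M a192 (F (T t77 (L l66 (L l98 (L l390 (T t1516 (L l22 (L l138 (L l143 (T t74 N))))))))))) (K a62 (M a192 (F (T t77 (L l470 (T t35 (L l66 (L l98 (L l516 (T t2718 N))))))))) (K a3 (M a106 (F (T t2792 (T t1513 N)))) N))))))))))))))))⟩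
def e0_63__107_62 : Ent 4 := ⟨[a0, a63], [a107, a94], (M a149 (F (T t5 (T t175 (T t176 (L l98 (T t177 (K a192 (M a53 (F (T t178 (L l236 (T t179 (L l236 (L l296 (T t180 N)))))))) (K a21 (M a48 (F (T t4 (L l98 (T t13 (L l18 (T t14 N))))))) (K a85 (M a16 (F (L l455 (T t112 (L l98 (L l144 (T t190 (L l92 (L l94 (T t278 N)))))))))) (K a213 (Fr a106 a192 l519 (Fr a42 a21 l68 (Fr a170 a234 l390 (Fr a255 a85 l476 (V t582))))) (K a42 (M a48 (F (T t187 (L l98 (L l390 (T t13 (L l54 (T t14 N)))))))) (K a106 (M a105 (F (L l390 (T t1931 (L l391 (L l516 (T t1932 (L l390 (L l391 (L l516 (T t1933 (L l390 (L l516 (T t1934 (L l516 (T t1935 N)))))))))))))))) (K a170 (M a48 (F (T t4 (L l462 (L l471 (T t1 (L l98 (L l390 (T t13 N))))))))) (K a191 (M a252 (F (L l98 (T t940 (L l136 (T t941 N)))))) (K a255 (M a16 (F (T t112 (L l98 (L l266 (T t190 (L l289 (L l296 (T t191 N))))))))) N))))))))))))))))⟩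
def e0_63__107_63 : Ent 4 := ⟨[a0, a63], [a107, a95], (M a60 (F (T t43 (L l391 (T t67 (T t68 (T t69 (K a20 (M a48 (F (T t64 (L l11 (L l469 (T t1 (L l11 (T t235 N)))))))) (K a40 (M a48 (F (T t64 (L l469 (T t1 (L l52 (T t235 N))))))) (K a21 (M a192 (F (T t77 (L l98 (T t1516 (L l137 (L l143 (L l347 (T t74 N))))))))) (K a41 (M a192 (F (T t77 (L l65 (L l469 (T t35 (L l98 (T t1516 N)))))))) (K a61 (M a192 (F (T t79 (L l65 (L l469 (L l515 (T t35 (L l98 (T t2718 N))))))))) (K a22 (M a192 (F (T t77 (L l137 (L l143 (L l469 (T t21 (L l66 (L l98 (T t1516 N)))))))))) (K a42 (M a192 (F (T t77 (L l66 (L l98 (L l390 (T t1516 (L l22 (L l137 (L l143 (T t74 N))))))))))) (K a62 (M a192 (F (T t77 (L l469 (T t35 (L l66 (L l98 (L l516 (T t2718 N))))))))) (K a3 (M a106 (F (T t2792 (T t1513 N)))) N))))))))))))))))⟩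
def e0_63__107_64 : Ent 4 := ⟨[a0, a63], [a107, a104], (M a106 (F (T t393 (L l140 (L l514 (T t586 (L l514 (T t305 (L l143 (T t564 (K a192 (M a60 (F (T t2568 (L l140 (L l228 (L l388 (T t2369 (L l228 (L l296 (T t1513 (L l228 (L l296 (L l391 (T t4610 N)))))))))))))) (K a21 (M a48 (F (L l514 (T t4540 (L l100 (L l140 (L l347 (T t551 (L l47 (L l140 (T t579 N))))))))))) (K a85 (M a48 (F (T t0 (L l103 (L l123 (T t585 (L l100 (L l140 (L l347 (T t551 N)))))))))) (K a149 (M a48 (F (T t2 (L l140 (L l491 (T t579 (L l347 (L l491 (T t306 (L l100 (L l347 (T t599 N)))))))))))) (K a42 (M a48 (F (T t307 (L l28 (L l140 (T t579 (L l100 (L l140 (T t551 N))))))))) (K a170 (M a32 (F (L l409 (T t219 (L l220 (L l406 (T t812 (L l100 (L l180 (T t813 N)))))))))) (K a234 (Fr a149 a192 l519 (Fr a21 a42 l68 (Fr a85 a213 l347 (Fr a255 a170 l476 (V t875))))) (K a127 (M a32 (L l143 (F (T t820 (L l406 (T t812 (L l103 (L l137 (T t821 (K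 a67 (M a87 (F (T t820 (L l406 (T t812 (L l103 (L l137 (T t821 N)))))))) (K a87 (M a67 (F (T t820 (L l406 (T t812 (L l103 (L l137 (T t821 N)))))))) N))))))))))) (K a255 (M a32 (F (T t820 (L l266 (L l406 (T t812 (L l103 (L l289 (L l296 (T t821 N)))))))))) N)))))))))))))))))))⟩
def e0_63__107_65 : Ent 4 := ⟨[a0, a63], [a107, a105], (M a106 (F (T t586 (T t305 (L l143 (T t778 (L l143 (L l515 (T t564 (K a192 (M a58 (F (T t3402 (L l236 (T t3403 (L l236 (L l296 (T t3404 N)))))))) (K a21 (M a48 (F (T t777 (L l347 (L l515 (T t551 (L l47 (T t579 N)))))))) (K a85 (M a48 (L l141 (F (T t309 (L l455 (T t2 (L l347 (L l515 (T t551 (K a65 (M a125 (F (T t777 (T t0 (L l76 (L l347 (L l515 (T t551 N)))))))) (K a125 (M a65 (F (T t777 (L l111 (T t688 N))))) N))))))))))) (K a149 (M a48 (L l515 (F (T t2 (L l491 (T t579 (L l347 (L l491 (T t306 (L l347 (T t599 (K a193 (M a61 (F (T t4611 (L l347 (L l491 (T t306 N)))))) (K a61 (M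 a193 (F (T t2 (L l35 (L l491 (T t579 (L l35 (L l65 (L l347 (L l491 (T t306 (L l65 (L l347 (T t599 N)))))))))))))) N))))))))))))) (K a42 (M a48 (F (T t309 (L l515 (T t551 (L l28 (T t579 N))))))) (K a170 (M a40 (F (L l391 (T t270 (L l220 (L l515 (T t4612 (L l389 (T t4613 (L l518 (T t4614 N))))))))))) (K a234 (Fr a149 a192 l519 (Fr a21 a42 l68 (Fr a85 a213 l347 (Fr a255 a170 l476 (V t875))))) (K a127 (M a32 (L l143 (F (T t820 (L l515 (T t812 (L l103 (L l137 (T t821 (K a67 (M a87 (L l145 (F (T t820 (L l515 (T t812 (L l103 (L l137 (T t821 (K a124 (M a86 (L l109 (F (T t820 (L l389 (L l391 (T t4615 (K a125 (Fr a126 a66 l142 (V t4616)) (K a126 (M a125 (F (T t820 (L l140 (L l391 (L l392 (L l430 (T t4617 N)))))))) N))))))))) (K a86 (M a124 (F (T t820 (L l351 (L l515 (T t812 (L l103 (L l137 (T t821 N))))))))) N))))))))))) (K a87 (M a67 (F (T t820 (L l515 (T t812 (L l103 (L l137 (T t821 N)))))))) N))))))))))) (K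 a255 (M a32 (F (T t820 (L l266 (L l515 (T t812 (L l103 (L l289 (L l296 (T t821 N)))))))))) N))))))))))))))))))⟩
def e0_63__107_66 : Ent 4 := ⟨[a0, a63], [a107, a106], (M a48 (L l98 (F (T t1 (L l390 (L l498 (T t2 (L l409 (L l411 (T t3 (L l390 (T t0 (K a16 (M a60 (L l98 (F (T t64 (L l14 (L l18 (L l391 (L l393 (T t67 (L l390 (L l498 (T t65 (K a104 (M a105 (F (T t64 (L l14 (L l391 (T t404 N)))))) (K a105 (M a104 (F (L l501 (T t4618 (L l14 (L l18 (L l391 (L l393 (T t67 N))))))))) N)))))))))))))) (K a32 (M a60 (L l98 (F (T t64 (L l391 (L l393 (T t67 (L l24 (L l28 (L l390 (L l498 (T t65 (K a104 (M a105 (F (T t68 (L l496 (L l498 (T t4619 N)))))) (K a105 (M a104 (F (L l393 (T t4620 (L l498 (L l500 (T t451 N))))))) N)))))))))))))) (K a21 (M a255 (L l98 (F (T t511 (L l390 (T t512 (L l18 (L l144 (L l347 (L l498 (T t513 (K a104 (M a105 (F (T t511 (L l390 (T t4621 N))))) (K a105 (M a104 (F (T t511 (L l390 (L l392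 (T t1162 (L l18 (L l141 (L l144 (L l347 (L l498 (T t513 N)))))))))))) N))))))))))))) (K a37 (M a60 (L l98 (F (T t247 (L l47 (L l391 (L l393 (T t67 (L l47 (T t64 (K a104 (M a105 (F (L l391 (T t1129 (L l47 (T t64 N)))))) (K a105 (M a104 (F (L l500 (T t4622 (L l47 (L l391 (L l393 (T t67 N)))))))) N)))))))))))) (K a53 (M a60 (L l98 (F (T t247 (L l47 (L l391 (L l393 (T t67 (L l35 (L l47 (T t235 (K a104 (M a105 (F (L l391 (T t404 (L l47 (L l409 (L l411 (L l496 (T t1419 N))))))))) (K a105 (M a104 (F (L l393 (T t4543 (L l47 (L l409 (L l411 (L l500 (T t1419 N))))))))) N))))))))))))) (K a26 (M a60 (L l98 (F (T t248 (L l54 (L l390 (T t43 (L l72 (T t64 (K a104 (M a105 (F (T t489 (L l54 (L l498 (L l516 (T t4623 N))))))) (K a105 (M a104 (F (L l393 (T t4543 (L l54 (L l57 (L l498 (L l500 (T t451 N))))))))) N))))))))))) (K a42 (M a170 (L l98 (F (T t316 (L l144 (T t514 (L l54 (L l104 (L l144 (L l498 (T t515 (L l54 (L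 l498 (T t516 (K a104 (M a105 (F (T t316 (L l516 (T t4624 (L l22 (L l104 (L l388 (L l406 (T t4625 N)))))))))) (K a105 (M a104 (F (T t319 (L l141 (L l144 (T t514 (L l54 (L l104 (L l144 (L l498 (T t515 (L l54 (L l498 (T t516 N)))))))))))))) N)))))))))))))))) (K a58 (M a56 (L l98 (L l498 (F (T t133 (L l54 (L l390 (T t1446 (L l54 (L l390 (T t470 (K a104 (M a105 (L l498 (F (T t1447 (L l426 (L l499 (T t4626 (K a202 (Fr a154 a203 l500 (V t478)) (K a154 (M a202 (F (L l388 (T t4627 (L l54 (L l390 (T t4628 (L l368 (L l391 (L l393 (L l406 (L l409 (L l411 (T t4629 N)))))))))))))) N))))))))) (K a105 (M a104 (L l498 (F (T t133 (L l501 (T t4630 (L l501 (T t4631 (K a202 (M a154 (F (T t133 (L l36 (L l102 (L l105 (L l230 (L l499 (L l501 (T t4632 N)))))))))) (K a154 (M a202 (F (T t133 (L l105 (L l501 (T t4633 (L l501 (T t4631 N)))))))) N)))))))))) (K a202 (M a154 (L l98 (F (L l236 (T t1998 (T t1447 (K a104 (Fr a105 a203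 l500 (V t478)) (K a105 (M a104 (F (T t133 (L l36 (L l102 (L l105 (L l230 (L l499 (L l501 (T t4632 N)))))))))) N)))))))) (K a154 (M a202 (L l98 (F (T t133 (L l54 (L l390 (T t470 (L l368 (L l391 (L l393 (L l409 (L l411 (T t4629 (L l54 (L l390 (T t4628 (K a104 (M a105 (F (L l388 (T t4627 (L l54 (L l390 (T t4628 (L l368 (L l391 (L l393 (L l406 (L l409 (L l411 (T t4629 N)))))))))))))) (K a105 (M a104 (F (T t133 (L l105 (L l501 (T t4633 (L l501 (T t4631 N)))))))) N)))))))))))))))))) N))))))))))))))) (K a15 (M a60 (L l98 (F (T t1308 (L l7 (L l391 (L l393 (T t67 (L l73 (T t64 (K a104 (M a105 (F (T t1308 (L l498 (L l516 (T t4623 N)))))) (K a105 (M a104 (F (L l501 (T t4634 (L l7 (L l391 (L l393 (T t67 N)))))))) N)))))))))))) (K a104 (M a105 (F (T t1 (L l390 (L l498 (T t2 (L l409 (L l411 (T t3 (L l390 (T t0 (K a16 (M a60 (F (T t64 (L l14 (L l391 (T t404 N)))))) (K a32 (M a56 (F (L l516 (T t4635 (L l24 (L l388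 (T t135 N))))))) (K a21 (M a60 (F (L l388 (T t2712 (L l47 (L l65 (T t64 N))))))) (K a37 (M a40 (F (L l47 (T t4636 (L l21 (L l408 (T t4637 N))))))) (K a53 (M a56 (F (L l499 (T t4626 (L l31 (L l35 (L l47 (T t1447 N)))))))) (K a26 (M a60 (F (T t489 (L l54 (L l498 (L l516 (T t4623 N))))))) (K a42 (M a170 (F (T t316 (L l516 (T t4624 (L l22 (L l104 (L l388 (L l406 (T t4625 N)))))))))) (K a58 (M a154 (F (T t1998 (L l499 (L l516 (T t494 (L l499 (T t4638 N)))))))) (K a15 (M a36 (F (T t4639 (L l388 (L l409 (T t4640 N)))))) N)))))))))))))))))))) (K a105 (M a104 (F (T t1 (L l390 (L l498 (T t2 (L l409 (L l411 (T t3 (L l390 (T t0 (K a16 (M a192 (F (L l515 (T t4641 (L l105 (L l145 (L l340 (T t4642 N)))))))) (K a32 (M a56 (F (L l105 (T t4643 (L l24 (L l392 (L l497 (T t135 N)))))))) (K a21 (M a192 (F (T t27 (L l50 (L l498 (L l500 (T t4551 N))))))) (K a37 (M a192 (F (T t27 (L l498 (L l500 (T t4551 N)))))) (K a53 (M a192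 (F (T t27 (L l390 (L l392 (T t4644 N)))))) (K a26 (M a192 (F (T t27 (L l54 (L l57 (L l498 (L l500 (T t4551 N)))))))) (K a42 (M a170 (F (T t319 (L l141 (L l144 (T t514 (L l54 (L l104 (L l144 (L l498 (T t515 (L l54 (L l498 (T t516 N)))))))))))))) (K a58 (M a56 (L l498 (F (T t133 (L l501 (T t4630 (L l501 (T t4631 (K a202 (M a154 (F (T t133 (L l36 (L l102 (L l105 (L l230 (L l499 (L l501 (T t4632 N)))))))))) (K a154 (M a202 (F (T t133 (L l105 (L l501 (T t4633 (L l501 (T t4631 N)))))))) N)))))))))) (K a15 (M a192 (F (T t55 (L l73 (L l498 (L l500 (T t4551 N))))))) N)))))))))))))))))))) N)))))))))))))))))))))))⟩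
def e0_63__107_67 : Ent 4 := ⟨[a0, a63], [a107, a108], (M a149 (F (T t5 (T t175 (T t176 (L l98 (T t177 (K a192 (M a53 (F (T t178 (L l236 (T t179 (L l236 (L l296 (T t180 N)))))))) (K a21 (M a48 (F (T t16 (L l98 (T t13 (L l18 (T t14 N))))))) (K a85 (M a16 (F (T t97 (L l98 (L l100 (L l144 (T t190 (L l94 (T t278 N))))))))) (K a213 (Fr a106 a192 l519 (Fr a42 a21 l68 (Fr a170 a234 l390 (Fr a255 a85 l476 (V t582))))) (K a42 (M a48 (F (T t187 (L l98 (L l390 (T t13 (L l54 (T t14 N)))))))) (K a106 (M a105 (F (L l390 (T t1931 (L l391 (L l516 (T t1932 (L l390 (L l391 (L l516 (T t1933 (L l390 (L l516 (T t1934 (L l516 (T t1935 N)))))))))))))))) (K a170 (M a48 (F (T t184 (L l462 (T t1 (L l98 (L l390 (T t13 N)))))))) (K a191 (M a16 (F (T t97 (L l98 (L l100 (T t190 (L l213 (T t191 N)))))))) (K a255 (M a16 (F (T t112 (L l98 (L l100 (L l266 (T t190 (L l289 (L l296 (T t191 N)))))))))) N))))))))))))))))⟩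
def e0_63__107_68 : Ent 4 := ⟨[a0, a63], [a107, a109], (M a149 (F (T t5 (T t175 (T t176 (L l98 (T t177 (K a192 (M a53 (F (T t178 (L l236 (L l398 (T t179 (L l236 (L l296 (T t180 N))))))))) (K a21 (M a48 (F (T t4 (L l98 (T t13 (L l18 (L l398 (T t14 N)))))))) (K a85 (M a16 (F (T t97 (L l98 (L l144 (T t190 (L l94 (T t278 N)))))))) (K a213 (Fr a106 a192 l519 (Fr a42 a21 l68 (Fr a170 a234 l390 (Fr a255 a85 l476 (V t582))))) (K a42 (M a48 (F (T t11 (L l98 (L l390 (T t13 (L l54 (L l398 (T t14 N))))))))) (K a106 (M a105 (F (L l390 (T t1931 (L l391 (L l516 (T t1932 (L l390 (L l391 (L l516 (T t1933 (L l390 (L l516 (T t1934 (L l516 (T t1935 N)))))))))))))))) (K a170 (M a48 (F (T t4 (L l462 (T t1 (L l98 (L l390 (T t13 N)))))))) (K a191 (M a16 (F (T t97 (L l98 (T t190 (L l213 (T t191 N))))))) (K a255 (M a16 (F (T t112 (L l98 (L l266 (T t190 (L l289 (L l296 (T t191 N))))))))) N))))))))))))))))⟩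
def e0_63__107_69 : Ent 4 := ⟨[a0, a63], [a107, a110], (M a48 (F (T t1 (T t2 (L l399 (L l409 (T t3 (T t0 (K a16 (M a60 (F (T t43 (T t64 (T t65 N))))) (K a32 (M a60 (F (T t64 (L l391 (T t67 (L l24 (L l28 (T t65 N)))))))) (K a21 (M a192 (F (T t837 (L l47 (L l347 (T t20 (L l47 (L l347 (T t29 N))))))))) (K a37 (M a192 (F (T t19 (L l47 (T t20 (L l138 (L l143 (T t21 N)))))))) (K a53 (M a192 (F (T t19 (L l138 (L l143 (L l491 (T t21 (L l98 (L l102 (T t31 N)))))))))) (K a26 (M a192 (F (T t837 (T t20 (L l138 (L l143 (T t21 N))))))) (K a42 (M a192 (F (T t19 (T t20 (L l28 (T t29 N)))))) (K a58 (M a192 (F (T t19 (L l138 (L l143 (T t21 (L l54 (L l98 (L l102 (L l498 (T t31 N))))))))))) (K a15 (M a192 (F (T t57 (L l483 (T t27 (L l325 (T t20 N))))))) N)))))))))))))))))⟩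
def e0_63__107_70 : Ent 4 := ⟨[a0, a63], [a107, a111], (M a48 (L l103 (F (T t1 (T t2 (L l397 (L l409 (T t3 (T t0 (K a16 (M a149 (L l103 (F (T t5 (T t184 (T t6 (K a99 (M a103 (F (T t424 (T t4645 N)))) (K a103 (M a99 (F (T t176 (L l511 (T t184 (T t6 N)))))) N)))))))) (K a32 (M a149 (L l103 (F (T t175 (T t184 (L l28 (T t6 (K a99 (M a103 (F (T t1007 (L l400 (T t4645 N))))) (K a103 (M a99 (F (T t1007 (L l511 (T t184 (L l28 (T t6 N))))))) N))))))))) (K a21 (M a101 (L l103 (F (T t687 (L l18 (L l397 (T t334 (L l18 (L l397 (T t314 (K a99 (M a103 (F (T t312 (T t4646 N)))) (K a103 (M a99 (F (T t2181 (L l98 (L l511 (T t3188 (L l18 (L l397 (L l403 (T t431 N)))))))))) N)))))))))))) (K a37 (M a51 (L l103 (F (T t4647 (L l47 (T t589 (T t1995 (K a99 (M a103 (F (T t4648 (L l499 (T t4649 N))))) (K a103 (M a99 (F (T t1995 (T t4650 N)))) N))))))))) (K a53 (M a51 (L l103 (F (T t1294 (L l35 (T t1901 (L l35 (L l499 (T t1902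 (K a99 (M a103 (F (T t4651 (L l499 (T t4652 (L l499 (T t4653 N))))))) (K a103 (M a99 (F (T t1294 (L l104 (T t4654 N))))) N))))))))))) (K a26 (M a51 (L l103 (F (T t1901 (L l54 (T t1294 (L l54 (L l72 (T t1995 (K a99 (M a103 (F (T t4651 (L l54 (L l354 (L l499 (T t4649 N))))))) (K a103 (M a99 (F (T t3726 (T t4650 N)))) N))))))))))) (K a42 (M a101 (L l103 (F (T t2181 (L l54 (T t687 (L l54 (L l397 (T t314 (K a99 (M a103 (F (T t2181 (L l54 (T t4646 N))))) (K a103 (M a99 (F (T t2181 (L l54 (L l511 (T t687 (L l54 (L l397 (L l403 (T t431 N)))))))))) N))))))))))) (K a58 (M a51 (L l103 (F (T t589 (T t1901 (L l32 (L l54 (L l499 (T t1902 (K a99 (M a103 (F (T t4651 (L l32 (L l54 (L l499 (T t4652 (L l498 (L l499 (T t4653 N)))))))))) (K a103 (M a99 (F (T t589 (L l104 (T t4654 N))))) N))))))))))) (K a15 (M a4 (L l103 (F (T t129 (L l63 (T t528 (T t520 (K a99 (M a103 (F (T t518 (T t2229 N)))) (K a103 (M a99 (F (T t558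 (L l73 (L l493 (L l511 (T t519 (T t520 N)))))))) N))))))))) (K a99 (M a103 (F (T t1 (T t2 (L l397 (L l409 (T t3 (T t0 (K a16 (M a149 (F (T t424 (T t4645 N)))) (K a32 (M a149 (F (T t1007 (L l400 (T t4645 N))))) (K a21 (M a100 (F (T t4655 (L l105 (T t4656 N))))) (K a37 (M a100 (F (T t4657 (L l105 (T t4656 N))))) (K a53 (M a4 (F (T t518 (T t2229 N)))) (K a26 (M a4 (F (L l12 (T t528 (L l54 (L l72 (T t2229 N))))))) (K a42 (M a100 (F (T t4657 (L l54 (L l105 (T t4656 N)))))) (K a58 (M a4 (F (T t528 (L l54 (T t2229 N))))) (K a15 (M a4 (F (T t518 (T t2229 N)))) N))))))))))))))))) (K a103 (M a99 (F (T t1 (T t2 (L l397 (L l409 (T t3 (T t0 (K a16 (M a49 (F (L l344 (T t4658 (L l10 (T t144 N)))))) (K a32 (M a49 (F (T t4658 (L l28 (T t144 N))))) (K a21 (M a195 (F (T t4659 (L l47 (L l50 (L l493 (T t4660 N))))))) (K a37 (M a33 (F (T t4661 (L l47 (T t275 N))))) (K a53 (M a33 (F (T t4661 (L l391 (T t4662 N))))) (K a26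 (M a195 (F (T t4659 (L l57 (L l493 (T t4660 N)))))) (K a42 (M a195 (F (T t4663 (L l493 (T t4660 N))))) (K a58 (M a195 (F (T t4659 (T t4664 N)))) (K a15 (M a33 (F (T t4661 (L l63 (L l391 (T t4662 N)))))) N))))))))))))))))) N))))))))))))))))))))⟩
def e0_63__107_71 : Ent 4 := ⟨[a0, a63], [a107, a124], (M a149 (F (T t25 (T t175 (T t176 (L l98 (L l140 (T t177 (K a192 (M a53 (F (T t178 (L l236 (T t179 (L l236 (L l296 (T t180 N)))))))) (K a21 (M a48 (F (T t4 (L l98 (L l110 (T t13 (L l18 (T t14 N)))))))) (K a85 (M a16 (F (T t97 (L l98 (L l144 (T t190 (L l94 (T t278 N)))))))) (K a213 (Fr a106 a192 l519 (Fr a42 a21 l68 (Fr a170 a234 l390 (Fr a255 a85 l476 (V t582))))) (K a42 (M a48 (F (T t187 (L l98 (L l110 (L l390 (T t13 (L l54 (T t14 N))))))))) (K a106 (M a105 (F (L l390 (T t1931 (L l391 (L l516 (T t1932 (L l390 (L l391 (L l516 (T t1933 (L l390 (L l516 (T t1934 (L l516 (T t1935 N)))))))))))))))) (K a170 (M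 a48 (F (T t4 (L l462 (T t1 (L l98 (L l110 (L l390 (T t13 N))))))))) (K a191 (M a16 (F (T t97 (L l98 (T t190 (L l213 (T t191 N))))))) (K a255 (M a16 (F (T t112 (L l98 (L l266 (T t190 (L l289 (L l296 (T t191 N))))))))) N)))))))))))))))))⟩
def e0_63__107_72 : Ent 4 := ⟨[a0, a63], [a107, a125], (M a48 (F (T t1 (T t2 (L l409 (T t3 (T t0 (K a16 (M a60 (F (T t43 (L l431 (T t64 (T t65 N)))))) (K a32 (M a60 (F (T t70 (L l391 (T t67 (L l24 (L l28 (T t65 N)))))))) (K a21 (M a192 (F (T t837 (L l47 (L l347 (T t20 (L l47 (L l347 (T t29 N))))))))) (K a37 (M a192 (F (T t19 (L l47 (T t20 (L l109 (L l143 (L l434 (T t21 N))))))))) (K a53 (M a192 (F (T t19 (L l109 (L l143 (L l434 (L l491 (T t21 (L l98 (T t31 N)))))))))) (K a26 (M a192 (F (T t837 (T t20 (L l109 (L l143 (L l434 (T t21 N)))))))) (K a42 (M a192 (F (T t19 (T t20 (L l28 (T t29 N)))))) (K a58 (M a192 (F (T t19 (L l109 (L l143 (L l434 (T t21 (L l54 (L l98 (L l498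 (T t31 N))))))))))) (K a15 (M a192 (F (T t57 (L l483 (T t27 (L l325 (T t20 N))))))) N))))))))))))))))⟩
def e0_63__107_73 : Ent 4 := ⟨[a0, a63], [a107, a126], (M a48 (F (T t1 (T t2 (L l409 (T t3 (T t0 (K a16 (M a60 (F (T t43 (T t64 (T t65 N))))) (K a32 (M a60 (F (T t64 (L l391 (T t67 (L l24 (L l28 (T t65 N)))))))) (K a21 (M a192 (F (T t837 (L l47 (L l347 (T t20 (L l47 (L l347 (T t29 N))))))))) (K a37 (M a192 (F (T t19 (L l47 (T t20 (L l109 (L l143 (T t21 N)))))))) (K a53 (M a192 (F (T t19 (L l109 (L l143 (L l491 (T t21 (L l98 (L l142 (T t31 N)))))))))) (K a26 (M a192 (F (T t837 (T t20 (L l109 (L l143 (T t21 N))))))) (K a42 (M a192 (F (T t19 (T t20 (L l28 (T t29 N)))))) (K a58 (M a192 (F (T t19 (L l109 (L l143 (T t21 (L l54 (L l98 (L l142 (L l498 (T t31 N))))))))))) (K a15 (M a192 (F (T t57 (L l483 (T t27 (L l325 (T t20 N))))))) N))))))))))))))))⟩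
def e0_63__107_74 : Ent 4 := ⟨[a0, a63], [a107, a127], (M a48 (L l143 (F (T t1 (T t2 (L l409 (T t3 (T t0 (K a16 (M a149 (L l143 (F (T t4 (T t176 (L l114 (T t6 (K a67 (M a87 (F (T t187 (L l364 (T t1196 N))))) (K a87 (M a67 (F (T t187 (L l98 (L l144 (L l475 (T t1245 (L l114 (T t6 N))))))))) N))))))))) (K a32 (M a149 (L l143 (F (T t16 (L l28 (T t176 (L l28 (L l114 (T t6 (K a67 (M a87 (F (T t184 (L l28 (T t1196 N))))) (K a87 (M a67 (F (T t184 (L l28 (L l98 (L l144 (L l475 (T t1245 (L l28 (L l114 (T t6 N))))))))))) N))))))))))) (K a21 (M a192 (L l143 (F (T t28 (L l47 (L l347 (T t20 (L l18 (L l98 (L l144 (T t224 (K a67 (M a87 (F (T t28 (L l103 (L l137 (L l347 (T t225 (L l18 (L l98 (L l144 (T t224 N))))))))))) (K a87 (M a67 (F (T t28 (L l103 (L l137 (L l347 (T t225 (L l18 (L l98 (L l144 (T t224 N))))))))))) N))))))))))))) (K a37 (M a149 (L l143 (F (T t4 (L l28 (T t176 (L l28 (T t1241 (K a67 (M a87 (F (T t15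 (L l28 (T t1196 N))))) (K a87 (M a67 (F (T t15 (L l28 (L l98 (L l144 (L l475 (T t1245 (L l475 (T t659 N)))))))))) N)))))))))) (K a53 (M a3 (L l143 (F (T t86 (L l391 (T t137 (L l391 (T t87 (K a67 (M a87 (F (T t348 (L l391 (T t4665 N))))) (K a87 (M a67 (F (T t3694 (L l47 (T t358 N))))) N)))))))))) (K a26 (M a3 (L l143 (F (T t559 (L l54 (L l391 (T t137 (L l16 (L l18 (T t560 (K a67 (M a87 (F (T t559 (L l54 (L l391 (T t4665 N)))))) (K a87 (M a67 (F (T t2183 (L l16 (L l18 (L l349 (T t560 N))))))) N)))))))))))) (K a42 (M a192 (L l143 (F (T t19 (T t20 (L l54 (L l98 (L l144 (L l390 (T t224 (K a67 (M a87 (F (T t20 (L l28 (T t28 (L l54 (L l98 (L l144 (L l390 (T t224 N)))))))))) (K a87 (M a67 (F (T t20 (L l28 (T t28 (L l54 (L l98 (L l144 (L l390 (T t224 N)))))))))) N)))))))))))) (K a58 (M a3 (L l143 (F (T t353 (T t559 (L l54 (L l391 (T t87 (K a67 (M a87 (F (T t1249 (L l54 (L l391 (T t4665 N)))))) (K a87 (M a67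 (F (T t3694 (L l36 (T t358 N))))) N)))))))))) (K a15 (M a3 (L l143 (F (T t630 (L l73 (T t86 (L l63 (L l391 (T t87 (K a67 (M a87 (F (T t4666 (L l391 (T t4665 N))))) (K a87 (M a67 (F (T t3694 (L l63 (T t358 N))))) N))))))))))) (K a67 (M a87 (F (T t1 (T t2 (L l409 (T t3 (T t0 (K a16 (M a85 (F (L l391 (T t1195 (L l114 (T t51 N)))))) (K a32 (M a149 (F (T t184 (L l28 (T t1196 N))))) (K a21 (M a154 (F (T t526 (T t1197 N)))) (K a37 (M a85 (F (L l391 (T t1198 (L l28 (L l47 (T t1199 N))))))) (K a53 (M a20 (F (T t183 (T t1200 N)))) (K a26 (M a20 (F (T t805 (L l16 (L l54 (T t1200 N)))))) (K a42 (M a154 (F (T t473 (L l28 (T t1197 N))))) (K a58 (M a20 (F (T t1201 (L l54 (T t1200 N))))) (K a15 (M a20 (F (T t183 (T t1200 N)))) N)))))))))))))))) (K a87 (M a67 (F (T t1 (T t2 (L l409 (T t3 (T t0 (K a16 (M a1 (F (T t2707 (T t542 N)))) (K a32 (M a1 (F (T t2707 (L l20 (L l28 (T t542 N)))))) (K a21 (M a64 (F (L l98 (T t3697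 (T t3698 N))))) (K a37 (M a64 (F (L l98 (T t3697 (T t3698 N))))) (K a53 (M a3 (F (T t3694 (L l47 (T t358 N))))) (K a26 (M a64 (F (L l98 (T t3697 (T t3698 N))))) (K a42 (M a64 (F (T t3699 (T t3698 N)))) (K a58 (M a3 (F (T t3694 (L l36 (T t358 N))))) (K a15 (M a64 (F (L l98 (T t3700 (L l481 (T t3698 N)))))) N)))))))))))))))) N)))))))))))))))))))⟩
def e0_63__107_75 : Ent 4 := ⟨[a0, a63], [a107, a128], (M a48 (F (T t1 (T t2 (L l409 (T t3 (T t0 (K a16 (M a60 (F (T t43 (T t64 (T t65 N))))) (K a32 (M a60 (F (T t64 (L l391 (T t67 (L l24 (L l28 (T t65 N)))))))) (K a21 (M a154 (F (T t526 (T t327 (L l47 (T t527 N)))))) (K a37 (M a52 (F (T t82 (T t83 (L l21 (L l28 (T t84 N))))))) (K a53 (M a12 (F (T t151 (T t443 (L l47 (T t146 N)))))) (K a26 (M a56 (F (T t133 (L l499 (T t134 (L l12 (L l18 (T t135 N)))))))) (K a42 (M a154 (F (T t4139 (L l192 (T t473 (L l28 (T t527 N))))))) (K a58 (M a12 (F (T t443 (T t122 (T t146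 N))))) (K a15 (M a4 (F (T t129 (L l63 (T t528 (T t520 N)))))) N))))))))))))))))⟩
def e0_63__107_76 : Ent 4 := ⟨[a0, a63], [a107, a129], (M a48 (F (T t1 (T t2 (L l409 (T t3 (T t0 (K a16 (M a60 (F (T t64 (L l14 (L l18 (L l309 (L l391 (T t67 (T t65 N))))))))) (K a32 (M a60 (F (T t64 (L l309 (L l391 (T t67 (L l24 (L l28 (T t65 N))))))))) (K a21 (M a192 (F (T t837 (L l47 (L l217 (L l347 (T t20 (L l47 (L l217 (L l347 (T t29 N))))))))))) (K a37 (M a192 (F (T t19 (L l47 (L l217 (T t20 (L l143 (L l152 (L l217 (T t21 N)))))))))) (K a53 (M a192 (F (T t19 (L l143 (L l152 (L l217 (L l491 (T t21 (L l98 (T t31 N)))))))))) (K a26 (M a192 (F (T t837 (L l217 (T t20 (L l143 (L l152 (L l217 (T t21 N))))))))) (K a42 (M a192 (F (T t19 (L l217 (T t20 (L l28 (L l217 (T t29 N)))))))) (K a58 (M a192 (F (T t19 (L l143 (L l152 (L l217 (T t21 (L l54 (L l98 (L l498 (T t31 N))))))))))) (K a15 (M a192 (F (T t1922 (L l217 (L l325 (T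 t20 (L l143 (L l152 (L l217 (L l469 (T t21 N))))))))))) N))))))))))))))))⟩
def e0_63__107_77 : Ent 4 := ⟨[a0, a63], [a107, a130], (M a48 (F (T t1 (T t2 (L l409 (T t3 (T t0 (K a16 (M a60 (F (T t43 (T t64 (T t65 N))))) (K a32 (M a60 (F (T t64 (L l391 (T t67 (L l24 (L l28 (T t65 N)))))))) (K a21 (M a192 (F (T t837 (L l47 (L l347 (T t20 (L l47 (L l347 (T t29 N))))))))) (K a37 (M a192 (F (T t19 (L l47 (T t20 (L l143 (L l152 (T t21 N)))))))) (K a53 (M a192 (F (T t19 (L l143 (L l152 (L l491 (T t21 (L l98 (T t31 N))))))))) (K a26 (M a192 (F (T t837 (T t20 (L l143 (L l152 (T t21 N))))))) (K a42 (M a192 (F (T t19 (T t20 (L l28 (T t29 N)))))) (K a58 (M a192 (F (T t19 (L l143 (L l152 (T t21 (L l54 (L l98 (L l498 (T t31 N)))))))))) (K a15 (M a192 (F (T t56 (L l152 (L l483 (T t27 (L l143 (L l152 (L l469 (T t21 N)))))))))) N))))))))))))))))⟩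
def e0_63__107_78 : Ent 4 := ⟨[a0, a63], [a107, a131], (M a48 (F (T t1 (T t2 (L l409 (T t3 (T t0 (K a16 (M a60 (F (T t64 (L l14 (L l18 (L l307 (L l391 (T t67 (T t65 N))))))))) (K a32 (M a60 (F (T t64 (L l307 (L l391 (T t67 (L l24 (L l28 (T t65 N))))))))) (K a21 (M a192 (F (T t28 (L l47 (L l347 (T t20 (L l47 (L l347 (T t29 N))))))))) (K a37 (M a192 (F (T t19 (L l47 (T t20 (L l143 (L l152 (T t21 N)))))))) (K a53 (M a192 (F (T t19 (L l143 (L l152 (L l491 (T t21 (L l98 (T t31 N))))))))) (K a26 (M a192 (F (T t28 (T t20 (L l143 (L l152 (T t21 N))))))) (K a42 (M a192 (F (T t19 (T t20 (L l28 (T t29 N)))))) (K a58 (M a192 (F (T t19 (L l143 (L l152 (T t21 (L l54 (L l98 (L l498 (T t31 N)))))))))) (K a15 (M a192 (F (T t56 (L l152 (L l483 (T t27 (L l143 (L l152 (L l469 (T t21 N)))))))))) N))))))))))))))))⟩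
def e0_63__107_79 : Ent 4 := ⟨[a0, a63], [a107, a132], (M a48 (F (T t1 (T t2 (L l409 (T t3 (T t0 (K a16 (M a60 (F (T t43 (T t64 (T t65 N))))) (K a32 (M a60 (F (T t64 (L l391 (T t67 (L l24 (L l28 (T t65 N)))))))) (K a21 (M a192 (F (T t837 (L l47 (L l202 (L l347 (T t20 (L l47 (L l202 (L l347 (T t29 N))))))))))) (K a37 (M a192 (F (T t19 (L l47 (L l202 (T t20 (L l143 (L l156 (L l202 (T t21 N)))))))))) (K a53 (M a192 (F (T t19 (L l143 (L l156 (L l202 (L l491 (T t21 (L l98 (T t31 N)))))))))) (K a26 (M a192 (F (T t837 (L l202 (T t20 (L l143 (L l156 (L l202 (T t21 N))))))))) (K a42 (M a192 (F (T t19 (L l202 (T t20 (L l28 (L l202 (T t29 N)))))))) (K a58 (M a192 (F (T t19 (L l143 (L l156 (L l202 (T t21 (L l54 (L l98 (L l498 (T t31 N))))))))))) (K a15 (M a192 (F (T t1922 (L l202 (L l325 (T t20 (L l143 (L l156 (L l202 (L l469 (T t21 N))))))))))) N))))))))))))))))⟩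
def e0_63__107_80 : Ent 4 := ⟨[a0, a63], [a107, a133], (M a149 (F (T t25 (L l160 (L l339 (T t175 (T t176 (L l98 (T t177 (K a192 (M a15 (F (L l484 (T t732 (L l160 (L l268 (L l311 (L l409 (T t1026 (L l268 (L l296 (L l409 (T t1031 (L l268 (L l296 (T t1255 N)))))))))))))))) (K a21 (M a48 (F (L l311 (T t16 (L l98 (L l160 (T t13 (L l18 (L l160 (L l311 (T t14 N))))))))))) (K a85 (M a16 (F (T t504 (L l98 (L l144 (T t190 (L l94 (T t278 N)))))))) (K a213 (Fr a106 a192 l519 (Fr a42 a21 l68 (Fr a170 a234 l390 (Fr a255 a85 l476 (V t582))))) (K a42 (M a48 (F (L l339 (T t187 (L l98 (L l160 (L l390 (T t13 (L l54 (L l160 (L l311 (T t14 N)))))))))))) (K a106 (M a105 (F (L l335 (L l390 (T t1931 (L l160 (L l335 (L l391 (L l516 (T t1932 (L l390 (L l391 (L l516 (T t1933 (L l335 (L l390 (L l516 (T t1934 (L l335 (L l516 (T t1935 N))))))))))))))))))))) (K a170 (M a48 (F (L l339 (T t11 (L l462 (T t48 (L l98 (L l160 (L l390 (T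 t13 N)))))))))) (K a191 (M a252 (F (L l98 (T t940 (L l157 (T t941 N)))))) (K a255 (M a16 (F (T t504 (L l98 (L l266 (T t190 (L l289 (L l296 (T t191 N))))))))) N))))))))))))))))))⟩
def e0_63__107_81 : Ent 4 := ⟨[a0, a63], [a107, a134], (M a149 (F (T t5 (T t175 (T t176 (L l98 (T t177 (K a192 (M a53 (F (T t178 (L l236 (T t179 (L l236 (L l296 (L l314 (T t180 N))))))))) (K a21 (M a48 (F (T t4 (L l98 (T t13 (L l18 (T t14 N))))))) (K a85 (M a16 (F (T t97 (L l98 (L l144 (T t190 (L l94 (T t278 N)))))))) (K a213 (Fr a106 a192 l519 (Fr a42 a21 l68 (Fr a170 a234 l390 (Fr a255 a85 l476 (V t582))))) (K a42 (M a48 (F (T t187 (L l98 (L l390 (T t13 (L l54 (T t14 N)))))))) (K a106 (M a105 (F (L l390 (T t1931 (L l391 (L l516 (T t1932 (L l200 (L l390 (L l391 (L l516 (T t1933 (L l390 (L l516 (T t1934 (L l338 (L l516 (T t1935 N)))))))))))))))))) (K a170 (M a48 (F (T t4 (L l462 (T t1 (L l98 (L l390 (T t13 N)))))))) (K a191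 (M a16 (F (T t97 (L l98 (T t190 (L l213 (T t191 N))))))) (K a255 (M a16 (F (T t112 (L l98 (L l266 (T t190 (L l289 (L l296 (T t191 N))))))))) N))))))))))))))))⟩
def e0_63__107_82 : Ent 4 := ⟨[a0, a63], [a107, a135], (M a149 (F (T t5 (T t175 (T t176 (L l98 (T t177 (K a192 (M a53 (F (T t178 (L l236 (T t179 (L l236 (L l296 (T t180 N)))))))) (K a21 (M a48 (F (T t4 (L l98 (T t13 (L l18 (T t14 N))))))) (K a85 (M a16 (F (T t504 (L l98 (L l144 (T t190 (L l94 (T t278 N)))))))) (K a213 (Fr a106 a192 l519 (Fr a42 a21 l68 (Fr a170 a234 l390 (Fr a255 a85 l476 (V t582))))) (K a42 (M a48 (F (T t187 (L l98 (L l390 (T t13 (L l54 (T t14 N)))))))) (K a106 (M a105 (F (L l390 (T t1931 (L l391 (L l516 (T t1932 (L l203 (L l390 (L l391 (L l516 (T t1933 (L l390 (L l516 (T t1934 (L l337 (L l516 (T t1935 N)))))))))))))))))) (K a170 (M a48 (F (T t4 (L l337 (L l462 (T t1 (L l98 (L l390 (T t13 N))))))))) (K a191 (M a16 (F (T t112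 (L l98 (T t190 (L l213 (T t191 N))))))) (K a255 (M a16 (F (T t112 (L l98 (L l266 (T t190 (L l289 (L l296 (T t191 N))))))))) N))))))))))))))))⟩
def e0_63__107_83 : Ent 4 := ⟨[a0, a63], [a107, a136], (M a48 (F (T t1 (T t2 (L l409 (T t3 (T t0 (K a16 (M a60 (F (T t43 (T t64 (T t65 N))))) (K a32 (M a60 (F (T t64 (L l391 (T t67 (L l24 (L l28 (T t65 N)))))))) (K a21 (M a192 (F (T t837 (L l47 (L l347 (T t20 (L l47 (L l347 (T t29 N))))))))) (K a37 (M a192 (F (T t19 (L l47 (T t20 (L l143 (L l156 (T t21 N)))))))) (K a53 (M a192 (F (T t19 (L l143 (L l156 (L l491 (T t21 (L l98 (T t31 N))))))))) (K a26 (M a192 (F (T t837 (T t20 (L l143 (L l156 (T t21 N))))))) (K a42 (M a192 (F (T t19 (T t20 (L l28 (T t29 N)))))) (K a58 (M a192 (F (T t19 (L l143 (L l156 (T t21 (L l54 (L l98 (L l498 (T t31 N)))))))))) (K a15 (M a192 (F (T t56 (L l156 (L l483 (T t27 (L l143 (L l156 (L l469 (T t21 N)))))))))) N))))))))))))))))⟩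
def e0_63__107_84 : Ent 4 := ⟨[a0, a63], [a107, a137], (M a149 (F (T t5 (T t175 (T t176 (L l98 (T t177 (K a192 (M a53 (F (T t178 (L l236 (T t179 (L l236 (L l296 (L l329 (T t180 N))))))))) (K a21 (M a48 (F (T t4 (L l98 (T t13 (L l18 (T t14 N))))))) (K a85 (M a16 (F (T t97 (L l98 (L l144 (T t190 (L l94 (T t278 N)))))))) (K a213 (Fr a106 a192 l519 (Fr a42 a21 l68 (Fr a170 a234 l390 (Fr a255 a85 l476 (V t582))))) (K a42 (M a48 (F (T t187 (L l98 (L l390 (T t13 (L l54 (T t14 N)))))))) (K a106 (M a105 (F (L l390 (T t1931 (L l391 (L l516 (T t1932 (L l390 (L l391 (L l516 (T t1933 (L l390 (L l516 (T t1934 (L l516 (T t1935 N)))))))))))))))) (K a170 (M a48 (F (T t4 (L l462 (T t1 (L l98 (L l390 (T t13 N)))))))) (K a191 (M a252 (F (L l98 (T t1850 (L l157 (T t941 N)))))) (K a255 (M a16 (F (T t112 (L l98 (L l266 (T t190 (L l289 (L l296 (T t191 N))))))))) N))))))))))))))))⟩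
def e0_63__107_85 : Ent 4 := ⟨[a0, a63], [a107, a138], (M a48 (F (T t2 (L l318 (T t1 (L l409 (T t3 (T t0 (K a16 (M a60 (F (T t43 (T t64 (T t65 N))))) (K a32 (M a60 (F (T t64 (L l391 (T t67 (L l24 (L l28 (T t65 N)))))))) (K a21 (M a192 (F (T t837 (L l47 (L l318 (L l347 (T t20 (L l47 (L l318 (L l347 (T t29 N))))))))))) (K a37 (M a192 (F (T t19 (L l47 (L l318 (T t20 (L l143 (L l160 (T t21 N))))))))) (K a53 (M a192 (F (T t19 (L l143 (L l160 (L l491 (T t21 (L l98 (T t31 N))))))))) (K a26 (M a192 (F (T t837 (L l318 (T t20 (L l143 (L l160 (T t21 N)))))))) (K a42 (M a192 (F (T t19 (L l318 (T t20 (L l28 (L l318 (T t29 N)))))))) (K a58 (M a192 (F (T t19 (L l143 (L l160 (T t21 (L l54 (L l98 (L l498 (T t31 N)))))))))) (K a15 (M a170 (F (T t2101 (T t324 N)))) N)))))))))))))))))⟩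
def e0_63__107_86 : Ent 4 := ⟨[a0, a63], [a107, a139], (M a149 (F (T t5 (T t175 (T t176 (L l98 (T t177 (K a192 (M a53 (F (T t178 (L l236 (T t179 (L l236 (L l296 (T t180 N)))))))) (K a21 (M a48 (F (T t4 (L l98 (T t13 (L l18 (T t14 N))))))) (K a85 (M a16 (F (T t97 (L l98 (L l144 (T t190 (L l94 (T t278 N)))))))) (K a213 (Fr a106 a192 l519 (Fr a42 a21 l68 (Fr a170 a234 l390 (Fr a255 a85 l476 (V t582))))) (K a42 (M a48 (F (T t187 (L l98 (L l390 (T t13 (L l54 (T t14 N)))))))) (K a106 (M a105 (F (L l390 (T t1931 (L l391 (L l516 (T t1932 (L l390 (L l391 (L l516 (T t1933 (L l390 (L l516 (T t1934 (L l516 (T t1935 N)))))))))))))))) (K a170 (M a48 (F (T t4 (L l462 (T t1 (L l98 (L l390 (T t13 N)))))))) (K a191 (M a16 (F (T t97 (L l98 (T t190 (L l213 (T t191 N))))))) (K a255 (M a16 (F (T t112 (L l98 (L l266 (T t190 (L l289 (L l296 (T t191 N))))))))) N))))))))))))))))⟩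
def e0_63__107_87 : Ent 4 := ⟨[a0, a63], [a107, a140], (M a48 (F (T t1 (T t2 (L l409 (T t3 (T t0 (K a16 (M a60 (F (T t43 (T t64 (T t65 N))))) (K a32 (M a60 (F (T t64 (L l391 (T t67 (L l24 (L l28 (T t65 N)))))))) (K a21 (M a192 (F (T t28 (L l47 (L l347 (T t20 (L l47 (L l347 (T t29 N))))))))) (K a37 (M a192 (F (T t19 (L l47 (T t20 (L l143 (L l156 (T t21 N)))))))) (K a53 (M a192 (F (T t19 (L l143 (L l156 (L l491 (T t21 (L l98 (T t31 N))))))))) (K a26 (M a192 (F (T t28 (T t20 (L l143 (L l156 (T t21 N))))))) (K a42 (M a192 (F (T t19 (T t20 (L l28 (T t29 N)))))) (K a58 (M a192 (F (T t19 (L l143 (L l156 (T t21 (L l54 (L l98 (L l498 (T t31 N)))))))))) (K a15 (M a192 (F (T t56 (L l156 (L l483 (T t27 (L l143 (L l156 (L l469 (T t21 N)))))))))) N))))))))))))))))⟩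
def e0_63__107_88 : Ent 4 := ⟨[a0, a63], [a107, a141], (M a149 (F (T t5 (T t175 (T t176 (L l98 (T t177 (K a192 (M a53 (F (T t178 (L l236 (T t179 (L l236 (L l296 (T t180 N)))))))) (K a21 (M a48 (F (T t4 (L l98 (T t13 (L l18 (T t14 N))))))) (K a85 (M a16 (F (T t504 (L l98 (L l144 (T t190 (L l94 (T t278 N)))))))) (K a213 (Fr a106 a192 l519 (Fr a42 a21 l68 (Fr a170 a234 l390 (Fr a255 a85 l476 (V t582))))) (K a42 (M a48 (F (T t187 (L l98 (L l390 (T t13 (L l54 (T t14 N)))))))) (K a106 (M a105 (F (L l516 (T t1935 (L l211 (L l390 (T t1931 (L l391 (L l516 (T t1932 (L l390 (L l391 (L l516 (T t1933 (L l390 (L l516 (T t1934 N))))))))))))))))) (K a170 (M a48 (F (T t4 (L l327 (L l462 (T t1 (L l98 (L l390 (T t13 N))))))))) (K a191 (M a16 (F (T t112 (L l98 (T t190 (L l213 (T t191 N))))))) (K a255 (M a16 (F (T t112 (L l98 (L l266 (T t190 (L l289 (L l296 (T t191 N))))))))) N))))))))))))))))⟩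
def e0_63__107_89 : Ent 4 := ⟨[a0, a63], [a107, a142], (M a149 (F (T t5 (T t175 (T t176 (L l98 (T t177 (K a192 (M a53 (F (T t178 (L l236 (T t179 (L l236 (L l296 (T t180 N)))))))) (K a21 (M a48 (F (T t4 (L l98 (T t13 (L l18 (T t14 N))))))) (K a85 (M a16 (F (T t97 (L l98 (L l144 (T t190 (L l94 (T t278 N)))))))) (K a213 (Fr a106 a192 l519 (Fr a42 a21 l68 (Fr a170 a234 l390 (Fr a255 a85 l476 (V t582))))) (K a42 (M a48 (F (T t187 (L l98 (L l390 (T t13 (L l54 (T t14 N)))))))) (K a106 (M a105 (F (L l390 (T t1931 (L l391 (L l516 (T t1932 (L l390 (L l391 (L l516 (T t1933 (L l390 (L l516 (T t1934 (L l516 (T t1935 N)))))))))))))))) (K a170 (M a48 (F (T t4 (L l462 (T t1 (L l98 (L l390 (T t13 N)))))))) (K a191 (M a16 (F (T t97 (L l98 (T t190 (L l213 (T t191 N))))))) (K a255 (M a16 (F (T t112 (L l98 (L l266 (T t190 (L l289 (L l296 (T t191 N))))))))) N))))))))))))))))⟩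
def e0_63__107_90 : Ent 4 := ⟨[a0, a63], [a107, a143], (M a12 (F (T t122 (T t151 (L l499 (T t152 (T t153 (K a4 (M a60 (F (T t43 (L l325 (T t398 (T t448 N)))))) (K a8 (M a60 (F (T t68 (L l325 (T t398 (L l52 (L l56 (T t448 N)))))))) (K a21 (M a192 (F (T t468 (L l15 (L l347 (T t450 (L l15 (L l347 (T t157 N))))))))) (K a25 (M a192 (F (T t449 (L l15 (T t450 (L l143 (L l160 (T t21 N)))))))) (K a29 (M a192 (F (T t449 (L l143 (L l160 (L l371 (T t21 (L l98 (T t160 N))))))))) (K a38 (M a192 (F (T t468 (T t450 (L l143 (L l160 (T t21 N))))))) (K a42 (M a192 (F (T t449 (T t450 (L l56 (T t157 N)))))) (K a46 (M a192 (F (T t449 (L l143 (L l160 (T t21 (L l26 (L l98 (L l408 (T t160 N)))))))))) (K a51 (M a192 (F (T t161 (L l160 (L l513 (T t156 (L l143 (L l160 (L l439 (T t21 N)))))))))) N))))))))))))))))⟩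
def e0_63__107_91 : Ent 4 := ⟨[a0, a63], [a107, a148], (M a48 (F (T t1 (T t2 (L l409 (T t3 (T t0 (K a16 (M a60 (F (T t43 (T t64 (T t65 N))))) (K a32 (M a60 (F (T t64 (L l346 (L l391 (T t67 (L l24 (L l28 (T t65 N))))))))) (K a21 (M a192 (F (T t837 (L l47 (L l163 (L l347 (T t20 (L l47 (L l163 (L l347 (T t29 N))))))))))) (K a37 (M a192 (F (T t837 (L l47 (L l163 (T t20 (L l143 (L l163 (L l216 (T t21 N)))))))))) (K a53 (M a192 (F (T t837 (L l143 (L l163 (L l216 (L l491 (T t21 (L l98 (T t31 N)))))))))) (K a26 (M a192 (F (T t837 (L l163 (T t20 (L l143 (L l163 (L l216 (T t21 N))))))))) (K a42 (M a192 (F (T t837 (L l163 (T t20 (L l28 (L l163 (T t29 N)))))))) (K a58 (M a192 (F (T t837 (L l143 (L l163 (L l216 (T t21 (L l54 (L l98 (L l498 (T t31 N))))))))))) (K a15 (M a192 (F (T t1922 (L l163 (L l325 (T t20 (L l143 (L l163 (L l216 (L l469 (T t21 N))))))))))) N))))))))))))))))⟩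
def e0_63__107_92 : Ent 4 := ⟨[a0, a63], [a107, a149], (M a48 (F (T t2 (L l347 (L l491 (T t1 (L l347 (L l409 (T t3 (L l375 (T t0 (K a16 (M a60 (F (T t70 (L l14 (L l18 (L l347 (L l391 (T t67 (L l351 (T t65 N)))))))))) (K a32 (M a60 (F (T t70 (L l347 (L l391 (T t67 (L l24 (L l28 (L l351 (T t65 N)))))))))) (K a21 (M a85 (F (T t99 (L l143 (L l220 (T t50 (L l47 (L l143 (L l170 (L l220 (L l491 (T t544 (L l47 (L l491 (T t545 N))))))))))))))) (K a37 (M a52 (F (T t82 (L l495 (T t83 (L l21 (L l28 (T t84 N)))))))) (K a53 (M a12 (L l491 (F (T t151 (T t443 (L l47 (L l347 (L l371 (T t146 (K a197 (M a101 (F (T t151 (L l236 (T t334 N))))) (K a101 (M a197 (F (T t151 (T t445 (L l47 (L l347 (L l371 (T t146 N)))))))) N))))))))))) (K a26 (M a56 (F (T t133 (L l491 (L l499 (T t134 (L l12 (L l18 (L l347 (L l491 (T t135 N))))))))))) (K a42 (M a255 (F (L l143 (T t546 (L l347 (T t547 (L l28 (L l220 (L l390 (L l491 (T t548 N)))))))))))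 (K a58 (M a12 (F (T t443 (L l347 (L l371 (T t122 (L l347 (L l371 (T t146 N))))))))) (K a15 (M a4 (F (T t129 (L l63 (T t528 (T t520 N)))))) N))))))))))))))))))))⟩
def e0_63__107_93 : Ent 4 := ⟨[a0, a63], [a107, a150], (M a48 (F (T t1 (T t2 (L l409 (T t3 (T t0 (K a16 (M a60 (F (T t43 (T t64 (T t65 N))))) (K a32 (M a60 (F (T t64 (L l350 (L l391 (T t67 (L l24 (L l28 (T t65 N))))))))) (K a21 (M a192 (F (T t837 (L l47 (L l163 (L l347 (T t20 (L l47 (L l163 (L l347 (T t29 N))))))))))) (K a37 (M a192 (F (T t19 (L l47 (L l163 (T t20 (L l143 (L l163 (T t21 N))))))))) (K a53 (M a192 (F (T t19 (L l143 (L l163 (L l491 (T t21 (L l98 (L l516 (T t31 N)))))))))) (K a26 (M a192 (F (T t837 (L l163 (T t20 (L l143 (L l163 (T t21 N)))))))) (K a42 (M a192 (F (T t19 (L l163 (T t20 (L l28 (L l163 (T t29 N)))))))) (K a58 (M a192 (F (T t19 (L l143 (L l163 (T t21 (L l54 (L l98 (L l498 (L l516 (T t31 N))))))))))) (K a15 (M a192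 (F (T t1922 (L l163 (L l325 (T t20 (L l143 (L l163 (L l469 (T t21 N)))))))))) N))))))))))))))))⟩
def e0_63__107_94 : Ent 4 := ⟨[a0, a63], [a107, a151], (M a48 (F (T t1 (T t2 (L l409 (T t3 (L l373 (T t0 (K a16 (M a60 (F (T t64 (L l14 (L l18 (L l391 (T t67 (L l349 (T t65 N))))))))) (K a32 (M a60 (F (T t64 (L l391 (T t67 (L l24 (L l28 (L l349 (T t65 N))))))))) (K a21 (M a192 (F (T t837 (L l47 (L l163 (L l347 (T t20 (L l47 (L l163 (L l347 (T t29 N))))))))))) (K a37 (M a192 (F (T t19 (L l47 (L l163 (T t20 (L l143 (L l163 (T t21 N))))))))) (K a53 (M a192 (F (T t19 (L l143 (L l163 (L l491 (T t21 (L l98 (L l169 (T t31 N)))))))))) (K a26 (M a192 (F (T t27 (L l163 (T t20 (L l143 (L l163 (T t21 N)))))))) (K a42 (M a192 (F (T t19 (L l163 (T t20 (L l28 (L l163 (T t29 N)))))))) (K a58 (M a192 (F (T t19 (L l143 (L l163 (T t21 (L l54 (L l98 (L l169 (L l498 (T t31 N))))))))))) (K a15 (M a192 (F (T t1922 (L l163 (L l325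 (T t20 (L l143 (L l163 (L l469 (T t21 N)))))))))) N)))))))))))))))))⟩
def e0_63__107_95 : Ent 4 := ⟨[a0, a63], [a107, a152], (M a149 (F (T t5 (T t175 (T t176 (L l98 (T t177 (K a192 (M a53 (F (T t178 (L l236 (L l364 (T t179 (L l236 (L l296 (T t180 N))))))))) (K a21 (M a48 (F (T t4 (L l98 (L l166 (T t13 (L l18 (L l364 (T t14 N))))))))) (K a85 (M a16 (F (T t97 (L l98 (L l144 (T t190 (L l94 (L l166 (T t278 N))))))))) (K a213 (Fr a106 a192 l519 (Fr a42 a21 l68 (Fr a170 a234 l390 (Fr a255 a85 l476 (V t582))))) (K a42 (M a48 (F (T t187 (L l98 (L l166 (L l390 (T t13 (L l54 (L l364 (T t14 N)))))))))) (K a106 (M a105 (F (L l390 (T t1931 (L l391 (L l516 (T t1932 (L l390 (L l391 (L l516 (T t1933 (L l390 (L l516 (T t1934 (L l516 (T t1935 N)))))))))))))))) (K a170 (M a48 (F (T t4 (L l462 (T t1 (L l98 (L l166 (L l390 (T t13 N))))))))) (K a191 (M a16 (F (T t97 (L l98 (T t190 (L l213 (T t191 N))))))) (K a255 (M a16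 (F (T t112 (L l98 (L l266 (T t190 (L l289 (L l296 (T t191 N))))))))) N))))))))))))))))⟩
def e0_63__107_96 : Ent 4 := ⟨[a0, a63], [a107, a153], (M a48 (F (T t1 (T t2 (L l409 (T t3 (T t0 (K a16 (M a60 (F (T t43 (L l513 (T t64 (T t65 N)))))) (K a32 (M a60 (F (T t68 (L l513 (T t64 (L l24 (L l28 (T t65 N)))))))) (K a21 (M a192 (F (T t837 (L l47 (L l167 (L l347 (T t20 (L l47 (L l167 (L l347 (T t29 N))))))))))) (K a37 (M a192 (F (T t19 (L l47 (L l167 (T t20 (L l143 (L l167 (T t21 N))))))))) (K a53 (M a192 (F (T t19 (L l143 (L l167 (L l491 (T t21 (L l98 (L l501 (T t31 N)))))))))) (K a26 (M a192 (F (T t837 (L l167 (T t20 (L l143 (L l167 (T t21 N)))))))) (K a42 (M a192 (F (T t19 (L l167 (T t20 (L l28 (L l167 (T t29 N)))))))) (K a58 (M a192 (F (T t19 (L l143 (L l167 (T t21 (L l54 (L l98 (L l498 (L l501 (T t31 N))))))))))) (K a15 (M a192 (F (T t1922 (L l167 (L l325 (T t20 (L l143 (L l167 (L l469 (T t21 N))))))))))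 N))))))))))))))))⟩
def e0_63__107_97 : Ent 4 := ⟨[a0, a63], [a107, a154], (M a12 (F (T t122 (T t151 (L l499 (T t152 (T t153 (K a4 (M a60 (F (T t43 (T t398 (T t448 N))))) (K a8 (M a60 (F (T t398 (L l391 (T t67 (L l52 (L l56 (T t448 N)))))))) (K a21 (M a192 (F (T t836 (L l15 (L l170 (L l347 (T t450 (L l15 (L l170 (L l347 (T t157 N))))))))))) (K a25 (M a192 (F (T t449 (L l15 (L l170 (T t450 (L l143 (L l170 (T t21 N))))))))) (K a29 (M a192 (F (T t449 (L l143 (L l170 (L l371 (T t21 (L l98 (L l498 (T t160 N)))))))))) (K a38 (M a192 (F (T t836 (L l170 (T t450 (L l143 (L l170 (T t21 N)))))))) (K a42 (M a192 (F (T t449 (L l170 (T t450 (L l56 (L l170 (T t157 N)))))))) (K a46 (M a192 (F (T t449 (L l143 (L l170 (T t21 (L l26 (L l98 (L l408 (L l498 (T t160 N))))))))))) (K a51 (M a192 (F (T t1725 (L l170 (L l415 (T t450 (L l143 (L l170 (L l439 (T t21 N)))))))))) N))))))))))))))))⟩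
def e0_63__107_98 : Ent 4 := ⟨[a0, a63], [a107, a155], (M a48 (L l499 (F (T t1 (T t2 (L l409 (T t3 (T t0 (K a16 (M a59 (F (T t4667 (L l18 (T t2388 (L l18 (T t4668 N))))))) (K a32 (M a59 (F (T t4667 (T t2388 (L l24 (T t4668 N)))))) (K a21 (M a154 (L l499 (F (T t517 (L l47 (T t473 (L l47 (L l367 (T t527 (K a203 (M a59 (F (T t517 (L l47 (L l50 (T t4667 N)))))) (K a59 (M a203 (F (T t4669 (L l47 (L l143 (L l367 (T t2000 N))))))) N))))))))))) (K a37 (M a154 (L l499 (F (L l47 (T t326 (L l28 (L l367 (T t327 (L l28 (L l47 (L l367 (T t527 (K a203 (M a59 (F (L l47 (T t4667 (L l28 (L l367 (L l383 (T t822 N)))))))) (K a59 (M a203 (F (L l383 (T t4669 (L l28 (L l47 (L l143 (L l367 (T t2000 N))))))))) N)))))))))))))) (K a53 (M a59 (F (L l31 (L l47 (T t2388 (L l31 (T t4670 (L l47 (L l409 (T t4671 (L l47 (T t4672 (L l47 (L l409 (T t4673 N))))))))))))))) (K a26 (M a59 (F (T t4674 (L l18 (T t2388 (L l12 (L l18 (T t4668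 N)))))))) (K a42 (M a154 (L l499 (F (T t326 (L l28 (L l367 (T t327 (L l28 (L l367 (T t527 (K a203 (M a59 (F (T t4667 (L l28 (L l367 (T t822 N)))))) (K a59 (M a203 (L l56 (F (T t4669 (L l28 (L l143 (L l367 (T t2000 (K a8 (M a25 (F (T t4669 (L l28 (L l143 (L l367 (T t2000 N))))))) (K a25 (M a8 (F (T t473 (L l355 (L l427 (T t4675 N)))))) N)))))))))) N)))))))))))) (K a58 (M a59 (F (T t2388 (T t4670 (L l36 (T t4676 (T t4677 (L l36 (L l409 (T t4673 N)))))))))) (K a15 (M a59 (F (T t4678 (L l63 (T t4667 (T t4668 N)))))) (K a203 (M a59 (F (T t2 (L l500 (T t4667 (L l320 (T t2388 N))))))) (K a59 (M a203 (F (T t1 (L l32 (L l56 (T t2 (L l409 (T t3 (L l56 (T t0 (K a16 (M a56 (F (L l56 (T t470 (L l98 (L l340 (T t4679 N))))))) (K a32 (M a56 (F (T t1447 (L l98 (T t4679 N))))) (K a21 (M a56 (F (L l11 (L l56 (T t133 (L l47 (L l98 (T t4679 N)))))))) (K a37 (M a56 (F (L l51 (T t1445 (L l47 (L l98 (T t4679 N))))))) (K a53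 (M a56 (F (L l98 (L l367 (T t4680 (L l31 (L l56 (T t470 N)))))))) (K a26 (M a56 (F (L l56 (T t133 (L l98 (T t4679 N)))))) (K a42 (M a8 (F (L l32 (T t4681 (T t4682 (L l98 (T t4683 N))))))) (K a58 (M a56 (F (T t1447 (L l98 (L l367 (L l426 (T t4680 N))))))) (K a15 (M a56 (F (T t1445 (L l98 (L l339 (T t4679 N)))))) N))))))))))))))))))) N)))))))))))))))))))⟩
def e0_63__107_99 : Ent 4 := ⟨[a0, a63], [a107, a156], (M a149 (F (T t5 (T t175 (T t176 (L l98 (T t177 (K a192 (M a53 (F (T t178 (L l236 (T t179 (L l236 (L l296 (T t180 N)))))))) (K a21 (M a48 (F (T t4 (L l98 (L l166 (T t13 (L l18 (T t14 N)))))))) (K a85 (M a16 (F (T t97 (L l98 (L l144 (T t190 (L l94 (L l166 (T t278 N))))))))) (K a213 (Fr a106 a192 l519 (Fr a42 a21 l68 (Fr a170 a234 l390 (Fr a255 a85 l476 (V t582))))) (K a42 (M a48 (F (T t187 (L l98 (L l166 (L l390 (T t13 (L l54 (T t14 N))))))))) (K a106 (M a105 (F (L l390 (T t1931 (L l391 (L l516 (T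 t1932 (L l171 (L l390 (L l391 (L l516 (T t1933 (L l390 (L l516 (T t1934 (L l516 (T t1935 N))))))))))))))))) (K a170 (M a48 (F (T t4 (L l462 (T t1 (L l98 (L l166 (L l390 (T t13 N))))))))) (K a191 (M a16 (F (T t97 (L l98 (T t190 (L l165 (L l213 (T t191 N)))))))) (K a255 (M a16 (F (T t112 (L l98 (L l266 (T t190 (L l165 (L l289 (L l296 (T t191 N)))))))))) N))))))))))))))))⟩
def e0_63__107_100 : Ent 4 := ⟨[a0, a63], [a107, a157], (M a48 (F (T t1 (T t2 (L l409 (T t3 (L l363 (T t0 (K a16 (M a60 (F (T t43 (L l503 (T t64 (T t65 N)))))) (K a32 (M a60 (F (T t70 (L l391 (T t67 (L l24 (L l28 (T t65 N)))))))) (K a21 (M a192 (F (T t837 (L l47 (L l167 (L l347 (T t20 (L l47 (L l167 (L l347 (T t29 N))))))))))) (K a37 (M a192 (F (T t19 (L l47 (L l167 (T t20 (L l143 (L l167 (T t21 N))))))))) (K a53 (M a192 (F (T t19 (L l143 (L l167 (L l491 (T t21 (L l98 (L l165 (T t31 N)))))))))) (K a26 (M a192 (F (T t27 (L l167 (T t20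 (L l143 (L l167 (T t21 N)))))))) (K a42 (M a192 (F (T t19 (L l167 (T t20 (L l28 (L l167 (T t29 N)))))))) (K a58 (M a192 (F (T t19 (L l143 (L l167 (T t21 (L l54 (L l98 (L l165 (L l498 (T t31 N))))))))))) (K a15 (M a192 (F (T t1922 (L l167 (L l325 (T t20 (L l143 (L l167 (L l469 (T t21 N)))))))))) N)))))))))))))))))⟩
def e0_63__107_101 : Ent 4 := ⟨[a0, a63], [a107, a158], (M a149 (F (T t5 (T t175 (T t176 (L l98 (T t177 (K a192 (M a53 (F (T t178 (L l236 (T t179 (L l236 (L l296 (T t180 N)))))))) (K a21 (M a48 (F (T t4 (L l98 (T t13 (L l18 (T t14 N))))))) (K a85 (M a16 (F (T t97 (L l98 (L l144 (T t190 (L l94 (T t278 N)))))))) (K a213 (Fr a106 a192 l519 (Fr a42 a21 l68 (Fr a170 a234 l390 (Fr a255 a85 l476 (V t582))))) (K a42 (M a48 (F (T t11 (L l98 (L l390 (T t13 (L l54 (T t14 N)))))))) (K a106 (M a105 (F (L l390 (T t1931 (L l391 (L l504 (L l516 (T t1932 (L l168 (L l390 (L l391 (L l516 (T t1933 (L l390 (L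 l504 (L l516 (T t1934 (L l504 (L l516 (T t1935 N)))))))))))))))))))) (K a170 (M a48 (F (T t4 (L l462 (T t1 (L l98 (L l390 (T t13 N)))))))) (K a191 (M a16 (F (T t97 (L l98 (T t190 (L l165 (L l213 (L l362 (T t191 N))))))))) (K a255 (M a16 (F (T t112 (L l98 (L l266 (T t190 (L l165 (L l289 (L l296 (L l362 (T t191 N))))))))))) N))))))))))))))))⟩
def e0_63__107_102 : Ent 4 := ⟨[a0, a63], [a107, a159], (M a48 (F (T t1 (T t2 (L l409 (T t3 (L l361 (T t0 (K a16 (M a60 (F (T t43 (T t64 (T t65 N))))) (K a32 (M a60 (F (T t64 (L l391 (T t67 (L l24 (L l28 (T t65 N)))))))) (K a21 (M a192 (F (T t837 (L l47 (L l170 (L l347 (T t20 (L l18 (L l98 (T t224 N)))))))))) (K a37 (M a192 (F (T t837 (L l47 (L l170 (T t20 (L l98 (L l213 (T t202 N))))))))) (K a53 (M a192 (F (T t837 (L l98 (L l213 (T t202 (L l47 (L l170 (L l491 (T t838 N)))))))))) (K a26 (M a192 (F (T t837 (L l170 (T t20 (L l98 (L l213 (T t202 N)))))))) (K a42 (M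 a192 (F (T t837 (L l170 (T t20 (L l54 (L l98 (L l390 (T t224 N))))))))) (K a58 (M a192 (F (T t837 (L l98 (L l213 (L l498 (T t202 (L l170 (T t838 N))))))))) (K a15 (M a192 (F (T t1922 (L l170 (L l325 (T t20 (L l98 (L l213 (L l469 (T t202 N)))))))))) N)))))))))))))))))⟩
def e0_63__107_103 : Ent 4 := ⟨[a0, a63], [a107, a168], (M a48 (F (T t1 (T t2 (L l409 (T t3 (L l400 (T t0 (K a16 (M a60 (F (T t64 (L l14 (L l18 (L l391 (T t67 (L l388 (T t65 N))))))))) (K a32 (M a60 (L l400 (F (T t64 (L l391 (T t67 (L l24 (L l28 (L l388 (T t65 (K a100 (M a236 (F (T t64 (L l28 (T t69 (L l391 (T t44 N))))))) (K a236 (M a100 (F (T t68 (L l286 (L l394 (T t549 N)))))) N)))))))))))) (K a21 (M a192 (F (T t837 (L l47 (L l347 (T t20 (L l47 (L l347 (L l400 (T t29 N)))))))))) (K a37 (M a192 (F (T t19 (L l47 (T t20 (L l143 (L l216 (T t21 N)))))))) (K a53 (M a192 (F (T t19 (L l143 (L l216 (L l491 (T t21 (L l98 (T t31 N))))))))) (K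 a26 (M a192 (F (T t837 (T t20 (L l143 (L l216 (T t21 N))))))) (K a42 (M a192 (F (T t19 (T t20 (L l28 (L l400 (T t29 N))))))) (K a58 (M a192 (F (T t19 (L l143 (L l216 (T t21 (L l54 (L l98 (L l498 (T t31 N)))))))))) (K a15 (M a192 (F (T t56 (L l216 (L l483 (T t27 (L l143 (L l216 (L l469 (T t21 N)))))))))) N)))))))))))))))))⟩
def e0_63__107_104 : Ent 4 := ⟨[a0, a63], [a107, a169], (M a48 (F (T t1 (T t2 (L l409 (T t3 (T t0 (K a16 (M a60 (F (T t64 (L l14 (L l18 (L l391 (L l393 (L l477 (T t67 (T t65 N)))))))))) (K a32 (M a60 (F (T t64 (L l391 (L l393 (L l477 (T t67 (L l24 (L l28 (T t65 N)))))))))) (K a21 (M a192 (F (T t837 (L l47 (L l217 (L l347 (T t20 (L l47 (L l217 (L l347 (T t29 N))))))))))) (K a37 (M a192 (F (T t19 (L l47 (L l217 (T t20 (L l143 (L l217 (T t21 N))))))))) (K a53 (M a192 (F (T t19 (L l143 (L l217 (L l491 (T t21 (L l98 (L l393 (T t31 N)))))))))) (K a26 (M a192 (F (T t837 (L l217 (T t20 (L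 l143 (L l217 (T t21 N)))))))) (K a42 (M a192 (F (T t19 (L l217 (T t20 (L l28 (L l217 (T t29 N)))))))) (K a58 (M a192 (F (T t19 (L l143 (L l217 (T t21 (L l54 (L l98 (L l393 (L l498 (T t31 N))))))))))) (K a15 (M a192 (F (T t1922 (L l217 (L l325 (T t20 (L l143 (L l217 (L l469 (T t21 N)))))))))) N))))))))))))))))⟩
def e0_63__107_105 : Ent 4 := ⟨[a0, a63], [a107, a170], (M a48 (F (L l462 (T t1 (L l390 (T t2 (L l409 (T t3 (L l390 (L l404 (T t0 (K a16 (M a60 (F (T t64 (L l14 (L l18 (L l391 (T t67 (L l390 (L l392 (T t65 N)))))))))) (K a32 (M a62 (L l404 (F (T t825 (L l474 (T t709 (L l20 (L l402 (T t826 (K a101 (M a239 (F (L l491 (T t825 (L l474 (T t709 (L l20 (L l402 (L l491 (T t826 N)))))))))) (K a239 (M a101 (F (L l206 (T t315 (L l474 (T t709 N)))))) N))))))))))) (K a21 (M a192 (F (T t837 (L l98 (L l390 (T t206 (L l47 (L l220 (L l347 (L l404 (T t29 N))))))))))) (K a37 (M a192 (F (T t19 (L l98 (L l390 (T t206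 (L l28 (L l47 (L l220 (L l404 (T t29 N))))))))))) (K a53 (M a12 (F (T t550 (L l47 (L l402 (T t122 (L l47 (L l402 (T t146 N))))))))) (K a26 (M a192 (F (T t837 (L l54 (L l98 (L l390 (T t206 (L l220 (L l404 (T t29 N)))))))))) (K a42 (M a106 (F (T t309 (L l220 (T t551 (L l28 (L l206 (L l220 (L l404 (T t552 (L l28 (L l206 (L l404 (T t553 N)))))))))))))) (K a58 (M a12 (F (T t445 (L l402 (T t122 (L l402 (T t146 N))))))) (K a15 (M a192 (F (L l483 (T t19 (L l98 (L l325 (L l390 (T t206 (L l220 (L l404 (T t29 N))))))))))) N))))))))))))))))))))⟩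
def e0_63__107_106 : Ent 4 := ⟨[a0, a63], [a107, a171], (M a12 (L l391 (F (T t122 (T t151 (L l499 (T t152 (T t153 (K a4 (M a255 (L l391 (F (T t2999 (L l174 (L l219 (T t1165 (L l50 (L l458 (T t3000 (K a43 (M a235 (F (T t2999 (L l22 (L l458 (T t4561 N)))))) (K a235 (M a43 (F (T t2999 (L l50 (L l392 (T t2390 N)))))) N)))))))))))) (K a8 (M a170 (L l391 (F (T t439 (L l219 (T t2498 (T t2626 (K a43 (M a235 (F (T t4562 (T t2626 N)))) (K a235 (M a43 (F (T t4684 (L l219 (T t2498 N))))) N))))))))) (K a21 (M a89 (L l391 (F (T t870 (L l50 (L l463 (T t863 (L l50 (L l463 (T t864 (K a43 (M a235 (F (T t2752 (L l22 (L l50 (L l463 (T t4564 N))))))) (K a235 (M a43 (F (T t2752 (L l11 (L l65 (T t4685 N)))))) N)))))))))))) (K a25 (M a89 (L l391 (F (T t870 (L l463 (T t863 (L l463 (T t864 (K a43 (M a235 (F (T t870 (L l22 (L l463 (T t4564 N)))))) (K a235 (M a43 (F (T t2786 (L l53 (T t4685 N))))) N)))))))))) (K a29 (M a43 (F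 (T t4685 (L l15 (T t4686 (L l15 (T t2390 (L l15 (T t4687 N))))))))) (K a38 (M a89 (L l391 (F (T t4365 (L l26 (T t870 (L l26 (L l50 (L l463 (T t864 (K a43 (M a235 (F (T t2303 (L l22 (L l50 (L l463 (T t4564 N))))))) (K a235 (M a43 (F (T t2303 (L l50 (L l392 (T t2390 N)))))) N)))))))))))) (K a42 (M a170 (L l391 (F (T t4566 (L l26 (L l219 (L l463 (T t3880 (L l219 (T t2498 (K a43 (M a235 (L l22 (F (T t4562 (L l26 (L l219 (L l463 (T t3880 (K a40 (M a41 (F (T t4566 (L l26 (L l219 (L l463 (T t3880 (L l219 (T t2498 N))))))))) (K a41 (Fr a40 a105 l392 (V t4568)) N)))))))))) (K a235 (M a43 (F (T t4688 (L l26 (L l219 (L l283 (L l463 (T t3880 N)))))))) N)))))))))))) (K a46 (M a43 (F (T t2390 (T t4689 (T t4686 (T t4687 N)))))) (K a51 (M a89 (L l391 (F (T t4375 (L l489 (T t870 (L l463 (T t864 (K a43 (M a235 (F (T t862 (L l22 (L l463 (T t4564 N)))))) (K a235 (M a43 (F (T t4690 (L l283 (L l415 (L l463 (T t4691 N)))))))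 N)))))))))) (K a43 (M a235 (F (T t122 (L l22 (T t151 (L l55 (L l499 (T t152 (L l22 (T t153 (K a4 (M a40 (F (L l46 (T t4571 (L l50 (L l98 (T t4572 N))))))) (K a8 (M a40 (F (T t4571 (L l98 (T t4572 N))))) (K a21 (M a89 (F (T t2752 (L l22 (L l50 (L l463 (T t4564 N))))))) (K a25 (M a40 (F (T t4573 (L l15 (L l98 (T t4572 N)))))) (K a29 (M a40 (F (T t4573 (L l15 (L l98 (T t4572 N)))))) (K a38 (M a40 (F (T t4574 (L l26 (L l98 (L l219 (L l475 (T t4575 N)))))))) (K a42 (M a40 (F (T t4569 (L l98 (L l463 (L l475 (T t4576 N))))))) (K a46 (M a40 (F (T t4573 (L l98 (T t4572 N))))) (K a51 (M a40 (F (T t4568 (L l98 (L l489 (T t4572 N)))))) N))))))))))))))))))) (K a235 (M a43 (F (T t151 (L l392 (T t2390 (T t4685 N)))))) N)))))))))))))))))))⟩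
def e0_63__107_107 : Ent 4 := ⟨[a0, a63], [a107, a172], (M a149 (F (T t5 (T t175 (T t176 (L l98 (T t177 (K a192 (M a53 (F (T t178 (L l236 (T t179 (L l236 (L l296 (T t180 N)))))))) (K a21 (M a48 (F (T t4 (L l98 (T t13 (L l18 (T t14 N))))))) (K a85 (M a16 (F (T t97 (L l98 (L l144 (T t190 (L l94 (L l176 (T t278 N))))))))) (K a213 (Fr a106 a192 l519 (Fr a42 a21 l68 (Fr a170 a234 l390 (Fr a255 a85 l476 (V t582))))) (K a42 (M a48 (F (T t187 (L l98 (L l390 (T t13 (L l54 (T t14 N)))))))) (K a106 (M a105 (F (L l390 (T t1931 (L l391 (L l516 (T t1932 (L l390 (L l391 (L l516 (T t1933 (L l390 (L l516 (T t1934 (L l516 (T t1935 N)))))))))))))))) (K a170 (M a48 (F (T t4 (L l462 (T t1 (L l98 (L l390 (T t13 N)))))))) (K a191 (M a16 (F (T t97 (L l98 (T t190 (L l213 (T t191 N))))))) (K a255 (M a16 (F (T t112 (L l98 (L l266 (T t190 (L l289 (L l296 (T t191 N))))))))) N))))))))))))))))⟩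
def e0_63__107_108 : Ent 4 := ⟨[a0, a63], [a107, a173], (M a149 (F (T t5 (T t175 (T t176 (L l98 (T t177 (K a192 (M a53 (F (T t178 (L l236 (T t179 (L l236 (L l296 (T t180 N)))))))) (K a21 (M a48 (F (T t4 (L l98 (T t13 (L l18 (T t14 N))))))) (K a85 (M a16 (F (T t504 (L l98 (L l144 (T t190 (L l94 (T t278 N)))))))) (K a213 (Fr a106 a192 l519 (Fr a42 a21 l68 (Fr a170 a234 l390 (Fr a255 a85 l476 (V t582))))) (K a42 (M a48 (F (T t187 (L l98 (L l390 (T t13 (L l54 (T t14 N)))))))) (K a106 (M a105 (F (L l516 (T t1935 (L l211 (L l390 (T t1931 (L l391 (L l516 (T t1932 (L l390 (L l391 (L l516 (T t1933 (L l390 (L l516 (T t1934 N))))))))))))))))) (K a170 (M a48 (F (T t4 (L l462 (L l471 (T t1 (L l98 (L l390 (T t13 N))))))))) (K a191 (M a16 (F (T t112 (L l98 (T t190 (L l213 (T t191 N))))))) (K a255 (M a16 (F (T t112 (L l98 (L l266 (T t190 (L l289 (L l296 (T t191 N))))))))) N))))))))))))))))⟩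
def e0_63__107_109 : Ent 4 := ⟨[a0, a63], [a107, a174], (M a48 (F (T t1 (T t2 (L l409 (T t3 (T t0 (K a16 (M a60 (F (T t43 (T t64 (T t65 N))))) (K a32 (M a60 (F (T t64 (L l391 (T t67 (L l24 (L l28 (T t65 N)))))))) (K a21 (M a192 (F (T t837 (L l47 (L l347 (T t20 (L l47 (L l347 (T t29 N))))))))) (K a37 (M a192 (F (T t19 (L l47 (T t20 (L l143 (L l470 (T t21 N)))))))) (K a53 (M a192 (F (T t19 (L l143 (L l470 (L l491 (T t21 (L l98 (T t31 N))))))))) (K a26 (M a192 (F (T t837 (T t20 (L l143 (L l470 (T t21 N))))))) (K a42 (M a192 (F (T t19 (T t20 (L l28 (T t29 N)))))) (K a58 (M a192 (F (T t19 (L l143 (L l470 (T t21 (L l54 (L l98 (L l498 (T t31 N)))))))))) (K a15 (M a192 (F (T t57 (L l483 (T t27 (L l325 (T t20 N))))))) N))))))))))))))))⟩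
def e0_63__107_110 : Ent 4 := ⟨[a0, a63], [a107, a175], (M a12 (F (T t122 (T t151 (L l499 (T t152 (T t153 (K a4 (M a60 (F (T t43 (L l469 (T t398 (T t448 N)))))) (K a8 (M a60 (F (T t68 (L l469 (T t398 (L l52 (L l56 (T t448 N)))))))) (K a21 (M a192 (F (T t836 (L l15 (L l347 (T t450 (L l15 (L l347 (T t157 N))))))))) (K a25 (M a192 (F (T t449 (L l15 (T t450 (L l143 (L l469 (T t21 N)))))))) (K a29 (M a192 (F (T t449 (L l143 (L l371 (L l469 (T t21 (L l98 (T t160 N))))))))) (K a38 (M a192 (F (T t836 (T t450 (L l143 (L l469 (T t21 N))))))) (K a42 (M a192 (F (T t449 (T t450 (L l56 (T t157 N)))))) (K a46 (M a192 (F (T t449 (L l143 (L l469 (T t21 (L l26 (L l98 (L l408 (T t160 N)))))))))) (K a51 (M a192 (F (T t57 (L l513 (T t156 (L l415 (T t450 N))))))) N))))))))))))))))⟩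
def e0_63__107_111 : Ent 4 := ⟨[a0, a63], [a107, a188], (M a48 (F (T t1 (T t2 (L l409 (T t3 (T t0 (K a16 (M a60 (F (T t43 (T t64 (T t65 N))))) (K a32 (M a60 (F (T t64 (L l391 (T t67 (L l24 (L l28 (T t65 N)))))))) (K a21 (M a192 (F (T t28 (L l47 (L l347 (T t20 (L l47 (L l347 (T t29 N))))))))) (K a37 (M a192 (F (T t19 (L l47 (T t20 (L l143 (L l216 (T t21 N)))))))) (K a53 (M a192 (F (T t19 (L l143 (L l216 (L l491 (T t21 (L l98 (T t31 N))))))))) (K a26 (M a192 (F (T t28 (T t20 (L l143 (L l216 (T t21 N))))))) (K a42 (M a192 (F (T t19 (T t20 (L l28 (T t29 N)))))) (K a58 (M a192 (F (T t19 (L l143 (L l216 (T t21 (L l54 (L l98 (L l498 (T t31 N)))))))))) (K a15 (M a192 (F (T t56 (L l216 (L l483 (T t27 (L l143 (L l216 (L l469 (T t21 N)))))))))) N))))))))))))))))⟩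
def e0_63__107_112 : Ent 4 := ⟨[a0, a63], [a107, a189], (M a48 (F (T t1 (T t2 (L l409 (T t3 (T t0 (K a16 (M a60 (F (T t43 (L l431 (T t64 (T t65 N)))))) (K a32 (M a60 (F (T t70 (L l391 (T t67 (L l24 (L l28 (T t65 N)))))))) (K a21 (M a192 (F (T t837 (L l47 (L l217 (L l347 (T t20 (L l47 (L l217 (L l347 (T t29 N))))))))))) (K a37 (M a192 (F (T t19 (L l47 (L l217 (T t20 (L l143 (L l217 (T t21 N))))))))) (K a53 (M a192 (F (T t19 (L l143 (L l217 (L l491 (T t21 (L l98 (T t31 N))))))))) (K a26 (M a192 (F (T t27 (L l217 (T t20 (L l143 (L l217 (T t21 N)))))))) (K a42 (M a192 (F (T t19 (L l217 (T t20 (L l28 (L l217 (T t29 N)))))))) (K a58 (M a192 (F (T t19 (L l143 (L l217 (T t21 (L l54 (L l98 (L l498 (T t31 N)))))))))) (K a15 (M a192 (F (T t1922 (L l217 (L l325 (T t20 (L l143 (L l217 (L l469 (T t21 N)))))))))) N))))))))))))))))⟩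
def e0_63__107_113 : Ent 4 := ⟨[a0, a63], [a107, a190], (M a48 (F (T t1 (T t2 (L l409 (T t3 (T t0 (K a16 (M a60 (F (T t43 (T t64 (T t65 N))))) (K a32 (M a60 (F (T t64 (L l391 (T t67 (L l24 (L l28 (T t65 N)))))))) (K a21 (M a192 (F (T t837 (L l47 (L l347 (T t20 (L l47 (L l347 (T t29 N))))))))) (K a37 (M a192 (F (T t19 (L l47 (T t20 (L l143 (L l434 (T t21 N)))))))) (K a53 (M a192 (F (T t19 (L l143 (L l434 (L l491 (T t21 (L l98 (T t31 N))))))))) (K a26 (M a192 (F (T t837 (T t20 (L l143 (L l434 (T t21 N))))))) (K a42 (M a192 (F (T t19 (T t20 (L l28 (T t29 N)))))) (K a58 (M a192 (F (T t19 (L l143 (L l434 (T t21 (L l54 (L l98 (L l498 (T t31 N)))))))))) (K a15 (M a192 (F (T t57 (L l483 (T t27 (L l325 (T t20 N))))))) N))))))))))))))))⟩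
def e0_63__107_114 : Ent 4 := ⟨[a0, a63], [a107, a191], (M a48 (F (T t1 (T t2 (L l409 (T t3 (T t0 (K a16 (M a60 (F (T t43 (T t64 (T t65 N))))) (K a32 (M a60 (F (T t64 (L l391 (T t67 (L l24 (L l28 (T t65 N)))))))) (K a21 (M a192 (F (T t28 (L l98 (T t206 (L l47 (L l220 (L l347 (T t29 N))))))))) (K a37 (M a192 (F (T t19 (L l98 (T t206 (L l47 (L l220 (T t35 N)))))))) (K a53 (M a192 (F (T t19 (L l47 (L l220 (L l491 (T t35 (L l98 (L l213 (T t31 N)))))))))) (K a26 (M a192 (F (T t28 (L l54 (L l98 (T t206 (L l18 (L l220 (T t35 N))))))))) (K a42 (M a192 (F (T t19 (L l54 (L l98 (L l390 (T t206 (L l28 (L l220 (T t29 N)))))))))) (K a58 (M a192 (F (T t19 (L l220 (T t35 (L l54 (L l98 (L l213 (L l498 (T t31 N)))))))))) (K a15 (M a192 (F (T t2113 (L l98 (L l325 (T t206 (L l220 (L l469 (T t35 N))))))))) N))))))))))))))))⟩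
def e0_63__107_115 : Ent 4 := ⟨[a0, a63], [a107, a192], (M a48 (F (T t48 (L l339 (T t1 (L l339 (T t2 (L l339 (L l409 (T t3 (L l339 (T t0 (K a16 (M a60 (F (T t138 (L l14 (L l18 (L l309 (L l391 (T t67 (T t65 N))))))))) (K a32 (M a60 (F (T t2568 (L l489 (T t64 (L l24 (L l28 (T t65 N)))))))) (K a21 (M a255 (F (T t554 (L l236 (L l347 (T t547 (L l47 (L l236 (T t548 N))))))))) (K a37 (M a52 (F (T t555 (L l334 (T t82 (L l21 (L l28 (T t84 N)))))))) (K a53 (M a12 (F (T t145 (L l47 (L l489 (T t122 (L l47 (T t146 N)))))))) (K a26 (M a56 (F (L l334 (T t133 (L l489 (L l499 (T t134 (L l12 (L l18 (T t135 N)))))))))) (K a42 (M a255 (F (T t1260 (L l54 (L l268 (T t1160 (L l28 (L l236 (L l390 (T t548 N)))))))))) (K a58 (M a12 (F (T t145 (L l489 (T t122 (T t146 N)))))) (K a15 (M a4 (L l339 (F (T t129 (L l63 (L l514 (T t528 (T t520 (K a133 (M a74 (F (T t558 (L l73 (L l489 (T t519 (T t520 N))))))) (K a74 (M a133 (F (T t558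 (L l73 (L l489 (T t519 (T t520 N))))))) N)))))))))) N)))))))))))))))))))))⟩
def e0_63__107_116 : Ent 4 := ⟨[a0, a63], [a107, a193], (M a48 (F (T t1 (T t2 (L l409 (T t3 (T t0 (K a16 (M a60 (F (T t43 (L l515 (T t64 (T t65 N)))))) (K a32 (M a60 (F (T t451 (L l391 (T t67 (L l24 (L l28 (T t65 N)))))))) (K a21 (M a192 (F (T t837 (L l47 (L l347 (L l515 (T t20 (L l47 (L l347 (L l515 (T t29 N))))))))))) (K a37 (M a192 (F (T t19 (L l47 (L l515 (T t20 (L l143 (L l515 (T t21 N))))))))) (K a53 (M a192 (F (T t19 (L l143 (L l491 (L l515 (T t21 (L l98 (L l293 (T t31 N)))))))))) (K a26 (M a192 (F (T t837 (L l515 (T t20 (L l143 (L l515 (T t21 N)))))))) (K a42 (M a192 (F (T t19 (L l515 (T t20 (L l28 (L l515 (T t29 N)))))))) (K a58 (M a192 (F (T t19 (L l143 (L l515 (T t21 (L l54 (L l98 (L l293 (L l498 (T t31 N))))))))))) (K a15 (M a192 (F (T t1922 (L l325 (L l515 (T t20 (L l143 (L l469 (L l515 (T t21 N)))))))))) N))))))))))))))))⟩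
def e0_63__107_117 : Ent 4 := ⟨[a0, a63], [a107, a194], (M a48 (F (T t1 (T t2 (L l409 (T t3 (T t0 (K a16 (M a60 (F (T t43 (L l486 (T t64 (T t65 N)))))) (K a32 (M a60 (F (T t451 (L l391 (T t67 (L l24 (L l28 (T t65 N)))))))) (K a21 (M a192 (F (T t837 (L l47 (L l234 (L l347 (T t20 (L l47 (L l234 (L l347 (T t29 N))))))))))) (K a37 (M a192 (F (T t19 (L l47 (L l234 (T t20 (L l143 (T t21 N)))))))) (K a53 (M a192 (F (T t19 (L l143 (L l491 (T t21 (L l98 (L l516 (T t31 N))))))))) (K a26 (M a192 (F (T t837 (L l234 (T t20 (L l143 (T t21 N))))))) (K a42 (M a192 (F (T t19 (L l234 (T t20 (L l28 (L l234 (T t29 N)))))))) (K a58 (M a192 (F (T t19 (L l143 (T t21 (L l54 (L l98 (L l498 (L l516 (T t31 N)))))))))) (K a15 (M a106 (F (T t2289 (L l234 (L l294 (T t306 N)))))) N))))))))))))))))⟩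
def e0_63__107_118 : Ent 4 := ⟨[a0, a63], [a107, a195], (M a12 (F (T t150 (L l487 (T t122 (L l487 (T t151 (L l487 (L l499 (T t152 (L l487 (T t153 (K a4 (M a60 (F (T t570 (L l46 (L l50 (L l307 (L l391 (T t67 (T t448 N))))))))) (K a8 (M a60 (F (T t2568 (L l337 (T t398 (L l52 (L l56 (T t448 N)))))))) (K a21 (M a192 (F (T t2119 (L l15 (L l271 (L l347 (T t450 (L l15 (L l347 (T t157 N)))))))))) (K a25 (M a192 (F (T t496 (L l15 (L l271 (T t450 (L l143 (L l295 (T t21 N))))))))) (K a29 (M a192 (F (T t159 (L l143 (L l295 (L l371 (T t21 (L l98 (T t160 N))))))))) (K a38 (M a192 (F (T t161 (L l237 (T t156 (L l143 (L l295 (T t21 N)))))))) (K a42 (M a192 (F (T t161 (L l237 (T t156 (L l56 (T t157 N))))))) (K a46 (M a192 (F (T t57 (L l237 (T t156 (L l26 (L l98 (L l408 (T t160 N))))))))) (K a51 (M a106 (L l487 (F (T t3609 (T t2474 (K a147 (M a99 (F (T t3759 (L l228 (L l489 (T t3885 (T t2415 N))))))) (K a99 (M a147 (L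 l103 (F (T t3759 (L l228 (L l489 (T t3885 (T t2415 (K a103 (M a111 (L l511 (F (T t4692 (T t2415 (K a155 (Fr a207 a159 l505 (V t4693)) (K a207 (M a155 (L l235 (F (T t2415 (L l228 (L l236 (L l489 (L l493 (L l518 (T t4694 (K a199 (M a203 (L l493 (F (T t3609 (T t2474 (K a151 (M a55 (F (T t4695 (L l131 (T t2419 N))))) (K a55 (Fr a151 a159 l169 (V t778)) N))))))) (K a203 (M a199 (F (L l320 (T t2415 (L l228 (L l236 (L l489 (L l518 (T t4694 N))))))))) N)))))))))))) N))))))) (K a111 (M a103 (F (T t3759 (L l228 (L l489 (T t3885 (T t2415 N))))))) N)))))))))) N))))))) N)))))))))))))))))))))⟩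
def e0_63__107_119 : Ent 4 := ⟨[a0, a63], [a107, a196], (M a48 (F (T t1 (T t2 (L l409 (T t3 (T t0 (K a16 (M a60 (F (T t43 (T t64 (T t65 N))))) (K a32 (M a60 (F (T t64 (L l391 (T t67 (L l24 (L l28 (T t65 N)))))))) (K a21 (M a192 (F (T t837 (L l47 (L l347 (L l495 (T t20 (L l47 (L l347 (L l495 (T t29 N))))))))))) (K a37 (M a192 (F (T t19 (L l47 (L l495 (T t20 (L l143 (L l495 (T t21 N))))))))) (K a53 (M a192 (F (T t19 (L l143 (L l491 (L l495 (T t21 (L l98 (L l278 (T t31 N)))))))))) (K a26 (M a192 (F (T t837 (L l495 (T t20 (L l143 (L l495 (T t21 N)))))))) (K a42 (M a192 (F (T t19 (L l495 (T t20 (L l28 (L l495 (T t29 N)))))))) (K a58 (M a192 (F (T t19 (L l143 (L l495 (T t21 (L l54 (L l98 (L l278 (L l498 (T t31 N))))))))))) (K a15 (M a192 (F (T t1922 (L l325 (L l495 (T t20 (L l143 (L l469 (L l495 (T t21 N)))))))))) N))))))))))))))))⟩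
def e0_63__107_120 : Ent 4 := ⟨[a0, a63], [a107, a197], (M a48 (F (T t0 (L l491 (T t1 (L l311 (T t2 (L l409 (T t3 (K a16 (M a60 (F (T t43 (L l491 (T t64 (L l311 (T t65 N))))))) (K a32 (M a60 (F (T t70 (L l391 (T t67 (L l24 (L l28 (L l311 (T t65 N))))))))) (K a21 (M a192 (F (T t27 (L l103 (L l347 (L l491 (T t225 (L l143 (L l347 (L l491 (T t861 N))))))))))) (K a37 (M a192 (F (T t19 (L l103 (L l491 (T t225 (L l143 (L l491 (T t21 N))))))))) (K a53 (M a149 (F (L l275 (T t25 (L l98 (T t13 (L l275 (T t26 N)))))))) (K a26 (M a192 (F (T t837 (L l103 (L l491 (T t225 (L l143 (L l491 (T t21 N))))))))) (K a42 (M a192 (F (T t27 (L l103 (L l491 (T t225 (L l28 (L l143 (L l491 (T t861 N)))))))))) (K a58 (M a192 (F (T t19 (L l143 (L l491 (T t21 (L l54 (L l98 (L l275 (L l498 (T t31 N))))))))))) (K a15 (M a192 (F (T t1922 (L l103 (L l325 (L l491 (T t225 (L l143 (L l469 (L l491 (T t21 N))))))))))) N))))))))))))))))))⟩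
def e0_63__107_121 : Ent 4 := ⟨[a0, a63], [a107, a198], (M a149 (F (T t5 (T t175 (T t176 (L l98 (T t177 (K a192 (M a53 (F (T t178 (L l229 (L l236 (T t179 (L l229 (L l236 (L l296 (T t180 N)))))))))) (K a21 (M a48 (F (L l229 (T t4 (L l98 (T t13 (L l18 (L l229 (T t14 N))))))))) (K a85 (M a16 (F (T t97 (L l98 (L l144 (T t190 (L l94 (T t278 N)))))))) (K a213 (Fr a106 a192 l519 (Fr a42 a21 l68 (Fr a170 a234 l390 (Fr a255 a85 l476 (V t582))))) (K a42 (M a48 (F (L l234 (T t187 (L l98 (L l390 (T t13 (L l54 (L l229 (T t14 N)))))))))) (K a106 (M a105 (F (L l390 (T t1931 (L l391 (L l516 (T t1932 (L l390 (L l391 (L l492 (L l516 (T t1933 (L l390 (L l516 (T t1934 (L l237 (L l516 (T t1935 N)))))))))))))))))) (K a170 (M a48 (F (L l229 (T t4 (L l462 (T t1 (L l98 (L l390 (T t13 N))))))))) (K a191 (M a16 (F (T t97 (L l98 (T t190 (L l213 (T t191 N))))))) (K a255 (M a16 (F (T t112 (L l98 (L l266 (T t190 (L l289 (L l296 (T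 t191 N))))))))) N))))))))))))))))⟩
def e0_63__107_122 : Ent 4 := ⟨[a0, a63], [a107, a199], (M a149 (F (T t5 (T t175 (T t176 (L l98 (T t177 (K a192 (M a53 (F (T t178 (L l229 (L l236 (T t179 (L l229 (L l236 (L l296 (L l314 (T t180 N))))))))))) (K a21 (M a48 (F (L l229 (T t4 (L l98 (T t13 (L l18 (L l229 (T t14 N))))))))) (K a85 (M a16 (F (T t97 (L l98 (L l144 (T t190 (L l94 (T t278 N)))))))) (K a213 (Fr a106 a192 l519 (Fr a42 a21 l68 (Fr a170 a234 l390 (Fr a255 a85 l476 (V t582))))) (K a42 (M a48 (F (T t11 (L l98 (L l390 (T t13 (L l54 (L l229 (T t14 N))))))))) (K a106 (M a105 (F (L l390 (T t1931 (L l391 (L l516 (T t1932 (L l390 (L l391 (L l494 (L l516 (T t1933 (L l390 (L l516 (T t1934 (L l235 (L l277 (L l516 (T t1935 N))))))))))))))))))) (K a170 (M a48 (F (T t11 (L l462 (T t1 (L l98 (L l390 (T t13 N)))))))) (K a191 (M a16 (F (T t97 (L l98 (T t190 (L l213 (T t191 N))))))) (K a255 (M a16 (F (T t112 (L l98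 (L l266 (T t190 (L l289 (L l296 (T t191 N))))))))) N))))))))))))))))⟩
def e0_63__107_123 : Ent 4 := ⟨[a0, a63], [a107, a200], (M a48 (F (T t1 (T t2 (L l409 (T t3 (T t0 (K a16 (M a60 (F (T t43 (T t64 (T t65 N))))) (K a32 (M a60 (F (T t64 (L l391 (T t67 (L l24 (L l28 (T t65 N)))))))) (K a21 (M a192 (F (T t837 (L l47 (L l230 (L l347 (T t20 (L l47 (L l230 (L l347 (T t29 N))))))))))) (K a37 (M a192 (F (T t19 (L l47 (L l230 (T t20 (L l143 (T t21 N)))))))) (K a53 (M a192 (F (T t19 (L l143 (L l491 (T t21 (L l98 (L l501 (T t31 N))))))))) (K a26 (M a192 (F (T t837 (L l230 (T t20 (L l143 (T t21 N))))))) (K a42 (M a192 (F (T t19 (L l230 (T t20 (L l28 (L l230 (T t29 N)))))))) (K a58 (M a192 (F (T t19 (L l143 (T t21 (L l54 (L l98 (L l498 (L l501 (T t31 N)))))))))) (K a15 (M a106 (F (T t2289 (L l230 (L l284 (T t306 N)))))) N))))))))))))))))⟩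
def e0_63__107_124 : Ent 4 := ⟨[a0, a63], [a107, a201], (M a149 (F (T t5 (T t175 (T t176 (L l98 (T t177 (K a192 (M a53 (F (T t178 (L l233 (L l236 (T t179 (L l233 (L l236 (L l296 (T t180 N)))))))))) (K a21 (M a48 (F (L l233 (T t4 (L l98 (T t13 (L l18 (L l233 (T t14 N))))))))) (K a85 (M a16 (F (T t97 (L l98 (L l144 (T t190 (L l94 (T t278 N)))))))) (K a213 (Fr a106 a192 l519 (Fr a42 a21 l68 (Fr a170 a234 l390 (Fr a255 a85 l476 (V t582))))) (K a42 (M a48 (F (L l230 (T t187 (L l98 (L l390 (T t13 (L l54 (L l233 (T t14 N)))))))))) (K a106 (M a105 (F (L l233 (L l390 (T t1931 (L l233 (L l391 (L l516 (T t1932 (L l390 (L l391 (L l516 (T t1933 (L l233 (L l390 (L l516 (T t1934 (L l233 (L l237 (L l516 (T t1935 N))))))))))))))))))))) (K a170 (M a48 (F (L l233 (T t4 (L l462 (T t1 (L l98 (L l390 (T t13 N))))))))) (K a191 (M a16 (F (T t97 (L l98 (T t190 (L l213 (T t191 N))))))) (K a255 (M a16 (F (T t112 (L l98 (L l266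 (T t190 (L l289 (L l296 (T t191 N))))))))) N))))))))))))))))⟩
def e0_63__107_125 : Ent 4 := ⟨[a0, a63], [a107, a202], (M a12 (F (T t122 (T t151 (L l499 (T t152 (T t153 (K a4 (M a60 (F (T t43 (T t398 (T t448 N))))) (K a8 (M a60 (F (T t398 (L l391 (T t67 (L l52 (L l56 (T t448 N)))))))) (K a21 (M a192 (F (T t836 (L l15 (L l347 (T t450 (L l15 (L l347 (T t157 N))))))))) (K a25 (M a192 (F (T t836 (L l15 (T t450 (L l143 (T t21 N))))))) (K a29 (M a192 (F (T t836 (L l143 (L l371 (T t21 (L l98 (L l498 (T t160 N))))))))) (K a38 (M a192 (F (T t156 (T t450 (L l143 (T t21 N)))))) (K a42 (M a192 (F (T t156 (T t450 (L l56 (T t157 N)))))) (K a46 (M a192 (F (T t836 (L l143 (T t21 (L l26 (L l98 (L l408 (L l498 (T t160 N)))))))))) (K a51 (M a106 (F (T t3609 (L l282 (T t2474 N))))) N))))))))))))))))⟩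
def e0_63__107_126 : Ent 4 := ⟨[a0, a63], [a107, a203], (M a48 (L l499 (F (T t1 (T t2 (L l409 (T t3 (T t0 (K a16 (M a59 (F (T t4674 (L l18 (L l320 (T t2388 (L l18 (T t4668 N)))))))) (K a32 (M a59 (F (T t4678 (L l500 (T t4667 (L l24 (T t4668 N))))))) (K a21 (M a192 (L l499 (F (T t837 (L l47 (L l230 (L l235 (L l347 (T t20 (L l47 (L l230 (L l347 (T t29 (K a155 (M a59 (F (T t27 (L l50 (L l230 (L l347 (T t3177 N))))))) (K a59 (M a155 (F (T t28 (L l98 (L l235 (L l501 (T t22 (L l47 (L l230 (L l347 (T t29 N))))))))))) N))))))))))))))) (K a37 (M a51 (L l499 (F (T t1995 (L l28 (T t1294 (L l71 (T t1901 (K a155 (Fr a59 a55 l37 (V t4696)) (K a59 (M a155 (F (T t4648 (L l32 (L l103 (L l500 (T t4697 N))))))) N)))))))))) (K a53 (M a59 (F (L l31 (T t4670 (L l47 (L l500 (T t4672 (L l31 (L l47 (L l320 (T t2388 (L l47 (L l320 (L l409 (T t4671 (L l47 (L l320 (L l409 (T t4673 N))))))))))))))))))) (K a26 (M a59 (F (T t4674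 (L l18 (L l320 (T t2388 (L l12 (L l18 (T t4668 N))))))))) (K a42 (M a154 (L l499 (F (T t517 (L l230 (T t473 (L l28 (L l230 (T t527 (K a155 (M a59 (F (T t4667 (L l28 (L l367 (T t822 N)))))) (K a59 (M a155 (L l56 (F (L l103 (T t3761 (L l28 (L l143 (L l230 (T t2000 (K a8 (M a25 (L l320 (F (L l230 (T t326 (L l28 (L l143 (T t4698 (K a73 (M a138 (F (T t3787 (L l28 (T t4699 N))))) (K a138 (M a73 (F (L l103 (T t3761 (L l28 (L l230 (L l318 (T t527 N)))))))) N)))))))))) (K a25 (M a8 (F (L l230 (T t473 (L l19 (L l28 (T t4700 N))))))) N))))))))))) N))))))))))) (K a58 (M a59 (F (T t4678 (T t4670 (L l36 (L l320 (T t4676 (L l500 (T t4677 (L l36 (L l320 (L l409 (T t4673 N))))))))))))) (K a15 (M a59 (F (T t4678 (L l63 (L l500 (T t4667 (T t4668 N))))))) (K a155 (M a59 (F (T t2 (L l500 (T t4667 (L l320 (T t2388 N))))))) (K a59 (M a155 (F (T t1 (L l32 (L l56 (T t2 (L l409 (T t3 (L l56 (T t0 (K a16 (M a50 (F (L l103 (T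 t3757 (L l18 (T t149 N)))))) (K a32 (M a50 (F (L l103 (L l404 (T t3757 (L l20 (T t149 N))))))) (K a21 (M a152 (F (T t4701 (L l47 (L l103 (L l230 (L l235 (L l501 (T t4702 N))))))))) (K a37 (M a152 (F (T t4703 (L l47 (L l103 (L l230 (L l235 (L l501 (T t4702 N))))))))) (K a53 (M a85 (F (T t90 (T t4233 N)))) (K a26 (M a152 (F (T t4701 (L l103 (L l230 (L l235 (L l501 (T t4702 N)))))))) (K a42 (M a152 (L l56 (F (T t4703 (L l103 (L l230 (L l235 (L l501 (T t4702 (K a8 (M a25 (L l320 (F (T t4703 (L l32 (L l54 (L l235 (L l501 (T t4704 (K a73 (M a138 (F (T t4703 (L l230 (L l501 (T t4705 N)))))) (K a138 (M a73 (F (T t4703 (L l32 (L l54 (L l235 (L l501 (T t4704 N)))))))) N))))))))))) (K a25 (M a8 (F (T t4706 (L l230 (L l353 (L l501 (T t4705 N))))))) N))))))))))) (K a58 (M a56 (F (T t1445 (L l54 (L l55 (L l56 (L l319 (T t1446 (T t1447 N))))))))) (K a15 (M a152 (F (T t4707 (L l103 (L l230 (L l235 (L l325 (L l501 (T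 t4702 N))))))))) N))))))))))))))))))) N)))))))))))))))))))⟩
def e0_63__107_127 : Ent 4 := ⟨[a0, a63], [a107, a204], (M a48 (F (T t48 (L l327 (T t1 (L l327 (T t2 (L l327 (L l409 (T t3 (L l327 (T t0 (K a16 (M a60 (F (T t138 (L l14 (L l18 (L l333 (L l391 (T t67 (T t65 N))))))))) (K a32 (M a60 (F (T t2568 (L l513 (T t64 (L l24 (L l28 (T t65 N)))))))) (K a21 (M a192 (F (T t2113 (L l47 (L l231 (L l347 (T t20 (L l47 (L l347 (T t29 N)))))))))) (K a37 (M a192 (F (T t36 (L l47 (L l231 (T t20 (L l143 (L l290 (T t21 N))))))))) (K a53 (M a192 (F (T t55 (L l143 (L l290 (L l491 (T t21 (L l98 (T t31 N))))))))) (K a26 (M a192 (F (T t56 (L l298 (T t27 (L l143 (L l290 (T t21 N)))))))) (K a42 (M a192 (F (T t56 (L l298 (T t27 (L l28 (T t29 N))))))) (K a58 (M a192 (F (T t57 (L l298 (T t27 (L l54 (L l98 (L l498 (T t31 N))))))))) (K a15 (M a106 (L l327 (F (T t2289 (T t306 (K a141 (M a78 (F (T t3759 (L l232 (L l339 (T t4540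 (T t579 N))))))) (K a78 (M a141 (F (T t3759 (L l232 (L l339 (T t4540 (T t579 N))))))) N))))))) N)))))))))))))))))))))⟩
def e0_63__107_128 : Ent 4 := ⟨[a0, a63], [a107, a205], (M a149 (F (T t5 (T t175 (T t176 (L l98 (T t177 (K a192 (M a53 (F (T t178 (L l233 (L l236 (T t179 (L l233 (L l236 (L l296 (L l329 (T t180 N))))))))))) (K a21 (M a48 (F (L l233 (T t4 (L l98 (T t13 (L l18 (L l233 (T t14 N))))))))) (K a85 (M a16 (F (T t97 (L l98 (L l144 (T t190 (L l94 (T t278 N)))))))) (K a213 (Fr a106 a192 l519 (Fr a42 a21 l68 (Fr a170 a234 l390 (Fr a255 a85 l476 (V t582))))) (K a42 (M a48 (F (T t11 (L l98 (L l390 (T t13 (L l54 (L l233 (T t14 N))))))))) (K a106 (M a105 (F (L l233 (L l390 (T t1931 (L l233 (L l391 (L l516 (T t1932 (L l390 (L l391 (L l516 (T t1933 (L l233 (L l390 (L l516 (T t1934 (L l233 (L l516 (T t1935 N)))))))))))))))))))) (K a170 (M a48 (F (T t11 (L l462 (T t1 (L l98 (L l390 (T t13 N)))))))) (K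 a191 (M a16 (F (T t97 (L l98 (T t190 (L l213 (T t191 N))))))) (K a255 (M a16 (F (T t112 (L l98 (L l266 (T t190 (L l289 (L l296 (T t191 N))))))))) N))))))))))))))))⟩
def e0_63__107_129 : Ent 4 := ⟨[a0, a63], [a107, a206], (M a149 (F (T t5 (T t175 (T t176 (L l98 (T t177 (K a192 (M a53 (F (T t178 (L l236 (T t179 (L l236 (L l296 (T t180 N)))))))) (K a21 (M a48 (F (T t4 (L l98 (T t13 (L l18 (T t14 N))))))) (K a85 (M a16 (F (T t97 (L l98 (L l144 (T t190 (L l94 (T t278 N)))))))) (K a213 (Fr a106 a192 l519 (Fr a42 a21 l68 (Fr a170 a234 l390 (Fr a255 a85 l476 (V t582))))) (K a42 (M a48 (F (L l54 (T t4 (L l98 (L l390 (T t13 (L l54 (T t14 N))))))))) (K a106 (M a105 (F (L l390 (T t1931 (L l391 (L l504 (L l516 (T t1932 (L l390 (L l391 (L l516 (T t1933 (L l390 (L l504 (L l516 (T t1934 (L l504 (L l516 (T t1935 N))))))))))))))))))) (K a170 (M a48 (F (T t4 (L l462 (T t1 (L l98 (L l390 (T t13 N)))))))) (K a191 (M a16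 (F (T t97 (L l98 (T t190 (L l213 (T t191 N))))))) (K a255 (M a16 (F (T t112 (L l98 (L l266 (T t190 (L l289 (L l296 (T t191 N))))))))) N))))))))))))))))⟩
def e0_63__107_130 : Ent 4 := ⟨[a0, a63], [a107, a207], (M a60 (F (T t522 (L l331 (L l391 (T t67 (L l331 (T t43 (L l331 (T t68 (L l331 (T t69 (K a20 (M a48 (F (T t132 (L l511 (T t64 (L l11 (T t235 N))))))) (K a40 (M a48 (F (T t48 (L l511 (T t64 (L l52 (T t235 N))))))) (K a21 (M a192 (F (L l291 (T t77 (L l98 (L l235 (T t1516 (L l143 (L l347 (T t74 N)))))))))) (K a41 (M a192 (F (T t254 (L l65 (L l289 (T t35 (L l98 (L l235 (T t1516 N))))))))) (K a61 (M a192 (F (T t254 (L l65 (L l289 (L l515 (T t35 (L l98 (T t2718 N))))))))) (K a22 (M a192 (F (L l291 (T t77 (L l143 (L l289 (T t21 (L l66 (L l98 (L l235 (T t1516 N))))))))))) (K a42 (M a192 (F (T t1334 (L l66 (L l98 (L l235 (L l390 (T t1516 (L l22 (L l143 (T t74 N))))))))))) (K a62 (M a192 (F (T t57 (L l291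 (T t79 (L l66 (L l98 (L l516 (T t2718 N))))))))) (K a3 (M a106 (L l331 (F (T t2792 (T t1513 (K a71 (M a139 (F (T t3759 (L l291 (L l477 (T t565 (L l289 (L l475 (T t4708 N))))))))) (K a139 (M a71 (F (T t3759 (L l291 (L l477 (T t565 (L l289 (L l475 (T t4708 N))))))))) N))))))) N)))))))))))))))))))))⟩
def e0_63__107_131 : Ent 4 := ⟨[a0, a63], [a107, a212], (M a48 (F (T t1 (T t2 (L l409 (T t3 (T t0 (K a16 (M a60 (F (T t64 (L l14 (L l18 (L l346 (L l391 (T t67 (L l351 (T t65 N)))))))))) (K a32 (M a60 (F (T t64 (L l346 (L l391 (T t67 (L l24 (L l28 (L l351 (T t65 N)))))))))) (K a21 (M a192 (F (T t837 (L l47 (L l347 (L l351 (T t20 (L l47 (L l347 (L l351 (T t29 N))))))))))) (K a37 (M a192 (F (T t19 (L l47 (L l351 (T t20 (L l143 (L l351 (T t21 N))))))))) (K a53 (M a192 (F (T t19 (L l143 (L l351 (L l491 (T t21 (L l98 (L l239 (T t31 N)))))))))) (K a26 (M a192 (F (T t27 (L l351 (T t20 (L l143 (L l351 (T t21 N))))))))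 (K a42 (M a192 (F (T t19 (L l351 (T t20 (L l28 (L l351 (T t29 N)))))))) (K a58 (M a192 (F (T t19 (L l143 (L l351 (T t21 (L l54 (L l98 (L l239 (L l498 (T t31 N))))))))))) (K a15 (M a192 (F (T t1922 (L l325 (L l351 (T t20 (L l143 (L l351 (L l469 (T t21 N)))))))))) N))))))))))))))))⟩
def e0_63__107_132 : Ent 4 := ⟨[a0, a63], [a107, a213], (M a48 (F (T t2 (L l347 (T t1 (L l347 (L l409 (T t3 (T t0 (K a16 (M a60 (F (T t43 (T t64 (T t65 N))))) (K a32 (M a60 (F (T t64 (L l347 (L l391 (T t67 (L l24 (L l28 (T t65 N))))))))) (K a21 (M a85 (F (T t873 (L l47 (L l143 (L l246 (T t100 (L l143 (T t50 N))))))))) (K a37 (M a192 (F (T t19 (L l47 (L l347 (T t20 (L l143 (L l347 (T t21 N))))))))) (K a53 (M a192 (F (T t27 (L l143 (L l347 (L l491 (T t21 (L l103 (L l347 (L l491 (T t575 N))))))))))) (K a26 (M a192 (F (T t837 (L l347 (T t20 (L l143 (L l347 (T t21 N)))))))) (K a42 (M a192 (F (T t19 (L l347 (T t20 (L l28 (L l246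 (L l347 (T t29 N))))))))) (K a58 (M a192 (F (T t27 (L l143 (L l347 (T t21 (L l103 (L l347 (T t575 N))))))))) (K a15 (M a192 (F (T t1922 (L l325 (L l347 (T t20 (L l143 (L l347 (L l469 (T t21 N)))))))))) N))))))))))))))))))⟩
def e0_63__107_133 : Ent 4 := ⟨[a0, a63], [a107, a214], (M a149 (F (L l239 (T t5 (L l294 (T t175 (L l239 (T t176 (L l98 (T t177 (K a192 (M a53 (F (T t178 (L l236 (T t179 (L l236 (L l239 (L l296 (T t180 N))))))))) (K a21 (M a48 (F (T t4 (L l98 (T t13 (L l18 (T t14 N))))))) (K a85 (M a16 (F (T t97 (L l98 (L l144 (T t190 (L l94 (T t278 N)))))))) (K a213 (Fr a106 a192 l519 (Fr a42 a21 l68 (Fr a170 a234 l390 (Fr a255 a85 l476 (V t582))))) (K a42 (M a48 (F (T t187 (L l98 (L l390 (T t13 (L l54 (T t14 N)))))))) (K a106 (M a105 (F (L l391 (L l516 (T t1932 (L l239 (L l390 (T t1931 (L l239 (L l348 (L l390 (L l391 (L l516 (T t1933 (L l390 (L l516 (T t1934 (L l239 (L l297 (L l516 (T t1935 N)))))))))))))))))))))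 (K a170 (M a48 (F (T t4 (L l462 (T t1 (L l98 (L l390 (T t13 N)))))))) (K a191 (M a16 (F (T t97 (L l98 (T t190 (L l213 (L l239 (T t191 N)))))))) (K a255 (M a16 (F (T t112 (L l98 (L l266 (T t190 (L l239 (L l289 (L l296 (T t191 N)))))))))) N)))))))))))))))))))⟩
def e0_63__107_134 : Ent 4 := ⟨[a0, a63], [a107, a215], (M a60 (F (T t68 (L l350 (L l391 (T t67 (L l349 (T t43 (T t69 (K a20 (M a85 (F (T t90 (L l143 (T t114 (L l239 (T t1344 N))))))) (K a40 (M a48 (F (T t64 (T t1 (L l52 (T t235 N)))))) (K a21 (M a255 (F (T t1565 (L l347 (L l350 (T t4709 (L l143 (L l347 (L l350 (T t4710 N)))))))))) (K a41 (M a192 (F (T t77 (L l65 (L l295 (T t35 (L l98 (L l295 (T t1516 N))))))))) (K a61 (M a192 (F (T t77 (L l65 (L l295 (L l515 (T t35 (L l98 (T t4711 N))))))))) (K a22 (M a192 (F (T t77 (L l143 (L l295 (T t21 (L l66 (L l98 (L l295 (T t1516 N)))))))))) (K a42 (M a255 (F (T t1565 (L l350 (T t4709 (L l66 (L l143 (L l350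 (T t4710 N))))))))) (K a62 (M a192 (F (T t77 (L l295 (T t35 (L l350 (T t4712 N))))))) (K a3 (M a106 (F (T t2792 (T t1513 N)))) N))))))))))))))))))⟩
def e0_63__107_135 : Ent 4 := ⟨[a0, a63], [a107, a216], (M a149 (F (T t5 (T t175 (T t176 (L l98 (T t177 (K a192 (M a53 (F (T t178 (L l236 (T t179 (L l236 (L l296 (T t180 N)))))))) (K a21 (M a48 (F (T t4 (L l98 (L l298 (T t13 (L l18 (T t14 N)))))))) (K a85 (M a16 (F (T t97 (L l98 (L l144 (L l242 (L l298 (T t190 (L l94 (L l357 (T t278 N))))))))))) (K a213 (Fr a106 a192 l519 (Fr a42 a21 l68 (Fr a170 a234 l390 (Fr a255 a85 l476 (V t582))))) (K a42 (M a48 (F (T t187 (L l98 (L l298 (L l390 (T t13 (L l54 (T t14 N))))))))) (K a106 (M a105 (F (L l390 (T t1931 (L l391 (L l516 (T t1932 (L l390 (L l391 (L l516 (T t1933 (L l390 (L l516 (T t1934 (L l516 (T t1935 N)))))))))))))))) (K a170 (M a48 (F (T t4 (L l462 (T t1 (L l98 (L l298 (L l390 (T t13 N))))))))) (K a191 (M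 a16 (F (T t97 (L l98 (L l242 (L l298 (T t190 (L l213 (T t191 N))))))))) (K a255 (M a16 (F (T t112 (L l98 (L l242 (L l266 (L l298 (T t190 (L l289 (L l296 (T t191 N))))))))))) N))))))))))))))))⟩
def e0_63__107_136 : Ent 4 := ⟨[a0, a63], [a107, a217], (M a60 (F (T t43 (L l391 (T t67 (T t68 (T t69 (K a20 (M a48 (F (T t2 (T t64 (L l11 (T t235 N)))))) (K a40 (M a48 (F (T t64 (T t1 (L l52 (T t235 N)))))) (K a21 (M a192 (F (T t77 (L l98 (T t1516 (L l143 (L l347 (T t74 N)))))))) (K a41 (M a192 (F (T t77 (L l65 (L l284 (T t35 (L l98 (T t1516 N)))))))) (K a61 (M a192 (F (T t79 (L l65 (L l284 (L l515 (T t35 (L l98 (L l243 (T t2718 N)))))))))) (K a22 (M a192 (F (T t77 (L l143 (T t21 (L l66 (L l98 (T t1516 N)))))))) (K a42 (M a192 (F (T t77 (L l66 (L l98 (L l390 (T t1516 (L l22 (L l143 (T t74 N)))))))))) (K a62 (M a192 (F (T t77 (L l284 (T t35 (L l66 (L l98 (L l243 (L l516 (T t2718 N)))))))))) (K a3 (M a106 (F (T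 t2792 (L l284 (T t1513 N))))) N))))))))))))))))⟩
def e0_63__107_137 : Ent 4 := ⟨[a0, a63], [a107, a218], (M a60 (F (T t43 (L l391 (T t67 (T t68 (T t69 (K a20 (M a48 (F (T t2 (T t64 (L l11 (T t235 N)))))) (K a40 (M a48 (F (T t64 (T t1 (L l52 (T t235 N)))))) (K a21 (M a192 (F (T t77 (L l98 (T t1516 (L l143 (L l347 (T t74 N)))))))) (K a41 (M a192 (F (T t77 (L l65 (L l282 (T t35 (L l98 (T t1516 N)))))))) (K a61 (M a192 (F (T t79 (L l65 (L l282 (L l515 (T t35 (L l98 (L l246 (T t2718 N)))))))))) (K a22 (M a192 (F (T t77 (L l143 (T t21 (L l66 (L l98 (T t1516 N)))))))) (K a42 (M a192 (F (T t77 (L l66 (L l98 (L l390 (T t1516 (L l22 (L l143 (T t74 N)))))))))) (K a62 (M a192 (F (T t77 (L l282 (T t35 (L l66 (L l98 (L l246 (L l516 (T t2718 N)))))))))) (K a3 (M a106 (F (T t2792 (L l282 (T t1513 N))))) N))))))))))))))))⟩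
def e0_63__107_138 : Ent 4 := ⟨[a0, a63], [a107, a219], (M a149 (F (T t5 (T t175 (T t176 (L l98 (T t177 (K a192 (M a53 (F (T t178 (L l236 (T t179 (L l236 (L l296 (T t180 N)))))))) (K a21 (M a48 (F (T t4 (L l98 (T t13 (L l18 (T t14 N))))))) (K a85 (M a16 (F (T t97 (L l98 (L l144 (T t190 (L l94 (T t278 N)))))))) (K a213 (Fr a106 a192 l519 (Fr a42 a21 l68 (Fr a170 a234 l390 (Fr a255 a85 l476 (V t582))))) (K a42 (M a48 (F (T t187 (L l98 (L l390 (T t13 (L l54 (T t14 N)))))))) (K a106 (M a105 (F (L l390 (T t1931 (L l283 (L l391 (L l516 (T t1932 (L l283 (L l390 (L l391 (L l516 (T t1933 (L l390 (L l516 (T t1934 (L l245 (L l516 (T t1935 N))))))))))))))))))) (K a170 (M a48 (F (T t4 (L l462 (T t1 (L l98 (L l390 (T t13 N)))))))) (K a191 (M a16 (F (T t97 (L l98 (T t190 (L l213 (L l245 (T t191 N)))))))) (K a255 (M a16 (F (T t112 (L l98 (L l266 (T t190 (L l245 (L l289 (L l296 (T t191 N)))))))))) N))))))))))))))))⟩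
def e0_63__107_139 : Ent 4 := ⟨[a0, a63], [a107, a220], (M a149 (F (T t5 (T t175 (T t176 (L l98 (T t177 (K a192 (M a53 (F (T t178 (L l236 (L l364 (T t179 (L l236 (L l296 (T t180 N))))))))) (K a21 (M a48 (F (T t4 (L l98 (T t13 (L l18 (L l364 (T t14 N)))))))) (K a85 (M a16 (F (L l363 (T t97 (L l98 (L l144 (L l242 (T t190 (L l94 (T t278 N)))))))))) (K a213 (Fr a106 a192 l519 (Fr a42 a21 l68 (Fr a170 a234 l390 (Fr a255 a85 l476 (V t582))))) (K a42 (M a48 (F (T t187 (L l98 (L l390 (T t13 (L l54 (L l364 (T t14 N))))))))) (K a106 (M a105 (F (L l390 (T t1931 (L l391 (L l516 (T t1932 (L l390 (L l391 (L l516 (T t1933 (L l390 (L l516 (T t1934 (L l516 (T t1935 N)))))))))))))))) (K a170 (M a48 (F (T t4 (L l462 (T t1 (L l98 (L l390 (T t13 N)))))))) (K a191 (M a16 (F (T t112 (L l98 (L l242 (T t190 (L l213 (L l241 (T t191 N))))))))) (K a255 (M a16 (F (T t112 (L l98 (L l242 (L l266 (T t190 (L l241 (L l289 (L l296 (T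 t191 N))))))))))) N))))))))))))))))⟩
def e0_63__107_140 : Ent 4 := ⟨[a0, a63], [a107, a221], (M a60 (F (T t43 (L l391 (T t67 (T t68 (T t69 (K a20 (M a48 (F (T t2 (T t64 (L l11 (T t235 N)))))) (K a40 (M a48 (F (T t64 (T t1 (L l52 (T t235 N)))))) (K a21 (M a192 (F (T t77 (L l98 (T t1516 (L l143 (L l347 (T t74 N)))))))) (K a41 (M a192 (F (T t77 (L l65 (L l290 (T t35 (L l98 (T t1516 N)))))))) (K a61 (M a192 (F (T t79 (L l65 (L l290 (L l515 (T t35 (L l98 (L l243 (T t2718 N)))))))))) (K a22 (M a192 (F (T t77 (L l143 (L l290 (T t21 (L l66 (L l98 (T t1516 N))))))))) (K a42 (M a192 (F (T t77 (L l66 (L l98 (L l390 (T t1516 (L l22 (L l143 (T t74 N)))))))))) (K a62 (M a192 (F (T t77 (L l290 (T t35 (L l66 (L l98 (L l243 (L l516 (T t2718 N)))))))))) (K a3 (M a106 (F (T t2792 (T t1513 N)))) N))))))))))))))))⟩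
def e0_63__107_141 : Ent 4 := ⟨[a0, a63], [a107, a222], (M a149 (F (T t5 (T t175 (T t176 (L l98 (T t177 (K a192 (M a53 (F (T t178 (L l236 (T t179 (L l236 (L l296 (T t180 N)))))))) (K a21 (M a48 (F (T t4 (L l98 (T t13 (L l18 (T t14 N))))))) (K a85 (M a16 (F (T t97 (L l98 (L l144 (T t190 (L l94 (T t278 N)))))))) (K a213 (Fr a106 a192 l519 (Fr a42 a21 l68 (Fr a170 a234 l390 (Fr a255 a85 l476 (V t582))))) (K a42 (M a48 (F (T t187 (L l98 (L l390 (T t13 (L l54 (T t14 N)))))))) (K a106 (M a105 (F (L l390 (T t1931 (L l391 (L l516 (T t1932 (L l390 (L l391 (L l516 (T t1933 (L l390 (L l516 (T t1934 (L l516 (T t1935 N)))))))))))))))) (K a170 (M a48 (F (T t4 (L l462 (T t1 (L l98 (L l390 (T t13 N)))))))) (K a191 (M a16 (F (T t97 (L l98 (T t190 (L l213 (L l241 (T t191 N)))))))) (K a255 (M a16 (F (T t112 (L l98 (L l266 (T t190 (L l241 (L l289 (L l296 (T t191 N)))))))))) N))))))))))))))))⟩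
def e0_63__107_142 : Ent 4 := ⟨[a0, a63], [a107, a223], (M a60 (F (T t43 (L l391 (T t67 (T t68 (T t69 (K a20 (M a48 (F (T t2 (T t64 (L l11 (T t235 N)))))) (K a40 (M a48 (F (T t64 (T t1 (L l52 (T t235 N)))))) (K a21 (M a192 (F (T t77 (L l98 (T t1516 (L l143 (L l245 (L l347 (T t74 N))))))))) (K a41 (M a192 (F (T t77 (L l65 (L l289 (T t35 (L l98 (T t1516 N)))))))) (K a61 (M a192 (F (T t79 (L l65 (L l289 (L l515 (T t35 (L l98 (L l245 (L l246 (T t2718 N))))))))))) (K a22 (M a192 (F (T t77 (L l143 (L l289 (T t21 (L l66 (L l98 (T t1516 N))))))))) (K a42 (M a192 (F (T t77 (L l66 (L l98 (L l390 (T t1516 (L l22 (L l143 (L l245 (T t74 N))))))))))) (K a62 (M a192 (F (T t77 (L l289 (T t35 (L l66 (L l98 (L l245 (L l246 (L l516 (T t2718 N))))))))))) (K a3 (M a106 (F (T t2792 (T t1513 N)))) N))))))))))))))))⟩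
def e0_63__107_143 : Ent 4 := ⟨[a0, a63], [a107, a232], (M a48 (F (T t1 (T t2 (L l409 (T t3 (T t0 (K a16 (M a60 (F (T t64 (L l14 (L l18 (L l391 (L l393 (T t67 (L l388 (T t65 N)))))))))) (K a32 (M a60 (F (T t64 (L l391 (L l393 (T t67 (L l24 (L l28 (L l388 (T t65 N)))))))))) (K a21 (M a192 (F (T t837 (L l47 (L l347 (T t20 (L l47 (L l347 (T t29 N))))))))) (K a37 (M a192 (F (T t837 (L l47 (T t20 (L l143 (T t21 N))))))) (K a53 (M a192 (F (T t837 (L l143 (L l491 (T t21 (L l98 (L l393 (T t31 N))))))))) (K a26 (M a192 (F (T t27 (T t20 (L l143 (T t21 N)))))) (K a42 (M a192 (F (T t27 (T t20 (L l28 (T t29 N)))))) (K a58 (M a192 (F (T t837 (L l143 (T t21 (L l54 (L l98 (L l393 (L l498 (T t31 N)))))))))) (K a15 (M a106 (F (T t2289 (L l250 (T t306 N))))) N))))))))))))))))⟩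
def e0_63__107_144 : Ent 4 := ⟨[a0, a63], [a107, a233], (M a48 (F (T t1 (T t2 (L l409 (T t3 (T t0 (K a16 (M a60 (F (T t43 (T t64 (T t65 N))))) (K a32 (M a60 (F (T t64 (L l391 (T t67 (L l24 (L l28 (T t65 N)))))))) (K a21 (M a192 (F (T t837 (L l47 (L l347 (T t20 (L l47 (L l347 (T t29 N))))))))) (K a37 (M a192 (F (T t19 (L l47 (T t20 (L l143 (T t21 N))))))) (K a53 (M a192 (F (T t19 (L l143 (L l491 (T t21 (L l98 (L l293 (T t31 N))))))))) (K a26 (M a192 (F (T t27 (T t20 (L l143 (T t21 N)))))) (K a42 (M a192 (F (T t19 (T t20 (L l28 (T t29 N)))))) (K a58 (M a192 (F (T t19 (L l143 (T t21 (L l54 (L l98 (L l293 (L l498 (T t31 N)))))))))) (K a15 (M a192 (F (T t56 (L l483 (T t27 (L l143 (L l469 (T t21 N)))))))) N))))))))))))))))⟩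
def e0_63__107_145 : Ent 4 := ⟨[a0, a63], [a107, a234], (M a48 (F (T t1 (L l390 (T t2 (L l409 (T t3 (L l390 (T t0 (K a16 (M a60 (F (T t64 (L l14 (L l18 (L l391 (T t67 (L l390 (T t65 N))))))))) (K a32 (M a60 (F (T t64 (L l391 (T t67 (L l24 (L l28 (L l390 (T t65 N))))))))) (K a21 (M a192 (F (T t837 (L l47 (L l282 (L l347 (T t20 (L l47 (L l282 (L l347 (T t29 N))))))))))) (K a37 (M a192 (F (T t837 (L l47 (L l282 (T t20 (L l98 (L l390 (T t202 N))))))))) (K a53 (M a192 (F (T t27 (L l98 (L l390 (T t202 (L l98 (L l390 (T t577 N))))))))) (K a26 (M a192 (F (T t27 (L l282 (T t20 (L l98 (L l390 (T t202 N)))))))) (K a42 (M a106 (F (T t551 (L l103 (L l282 (T t585 (L l28 (L l282 (T t579 N))))))))) (K a58 (M a192 (F (T t27 (L l98 (L l390 (L l498 (T t202 (L l98 (L l390 (L l498 (T t577 N))))))))))) (K a15 (M a192 (F (T t55 (L l282 (L l325 (T t20 (L l98 (L l390 (L l469 (T t202 N)))))))))) N))))))))))))))))))⟩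
def e0_63__107_146 : Ent 4 := ⟨[a0, a63], [a107, a235], (M a48 (L l391 (F (T t1 (T t2 (L l409 (T t3 (T t0 (K a16 (M a60 (L l391 (F (T t64 (L l392 (T t43 (L l392 (T t65 (K a43 (M a171 (F (T t451 (L l22 (T t69 (L l22 (T t268 N))))))) (K a171 (M a43 (F (L l14 (T t4713 (T t64 N))))) N)))))))))) (K a32 (M a60 (L l391 (F (T t68 (T t64 (L l24 (L l28 (L l392 (T t65 (K a43 (M a171 (F (T t451 (L l22 (L l28 (T t69 (L l22 (L l28 (T t268 N))))))))) (K a171 (M a43 (F (T t4713 (T t64 N)))) N))))))))))) (K a21 (M a101 (L l391 (F (T t687 (L l18 (L l255 (T t334 (L l18 (L l255 (T t314 (K a43 (M a171 (F (T t313 (L l18 (L l255 (T t4714 N)))))) (K a171 (M a43 (F (T t315 (L l11 (L l65 (T t3239 N)))))) N)))))))))))) (K a37 (M a101 (L l391 (F (T t313 (L l255 (T t334 (L l255 (T t314 (K a43 (M a171 (F (T t315 (L l255 (T t4714 N))))) (K a171 (M a43 (F (T t687 (L l25 (T t3239 N))))) N)))))))))) (K a53 (M a43 (F (T t3239 (L l47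 (T t4715 (L l47 (L l392 (T t2390 (L l47 (L l392 (T t4716 N))))))))))) (K a26 (M a3 (L l391 (F (T t559 (L l54 (T t665 (L l16 (L l18 (L l392 (T t560 (K a43 (M a171 (F (T t559 (L l143 (T t4717 N))))) (K a171 (Fr a43 a23 l67 (V t4718)) N)))))))))))) (K a42 (M a170 (L l391 (F (T t4556 (L l54 (L l255 (T t3070 (T t514 (K a43 (M a171 (L l22 (F (L l143 (T t4563 (L l54 (L l255 (T t3070 (K a40 (M a41 (F (T t514 (L l103 (L l388 (T t4557 N)))))) (K a41 (M a40 (F (T t4556 (L l54 (L l57 (T t4560 N)))))) N)))))))))) (K a171 (M a43 (F (T t4688 (L l54 (L l219 (L l255 (L l403 (T t3070 N)))))))) N)))))))))) (K a58 (M a43 (F (T t3643 (L l392 (T t2390 (T t4719 N)))))) (K a15 (M a3 (L l391 (F (T t630 (L l73 (T t86 (L l63 (L l392 (T t560 (K a43 (M a171 (F (T t136 (L l143 (L l483 (T t4717 N)))))) (K a171 (Fr a43 a23 l67 (V t4718)) N))))))))))) (K a43 (M a171 (F (T t1 (L l22 (T t2 (L l27 (L l409 (T t3 (L l22 (T t0 (K a16 (M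 a2 (F (L l143 (L l368 (T t4426 (L l18 (T t832 N))))))) (K a32 (M a2 (F (L l143 (T t4426 (T t832 N))))) (K a21 (M a101 (F (T t313 (L l18 (L l255 (T t4714 N)))))) (K a37 (M a168 (F (T t4720 (L l47 (L l143 (L l250 (L l295 (L l393 (T t4578 N))))))))) (K a53 (M a168 (F (T t4720 (L l22 (L l295 (L l393 (T t4580 N))))))) (K a26 (M a168 (F (T t4721 (L l22 (L l54 (L l295 (L l393 (T t4580 N)))))))) (K a42 (M a170 (L l22 (F (L l143 (T t4563 (L l54 (L l255 (T t3070 (K a40 (M a41 (F (T t514 (L l103 (L l388 (T t4557 N)))))) (K a41 (M a40 (F (T t4556 (L l54 (L l57 (T t4560 N)))))) N)))))))))) (K a58 (M a168 (F (T t4720 (L l22 (L l54 (L l295 (L l393 (T t4580 N)))))))) (K a15 (M a168 (F (T t4722 (L l22 (L l295 (L l393 (L l469 (T t4580 N)))))))) N))))))))))))))))))) (K a171 (M a43 (F (T t2 (L l392 (T t2390 (T t3239 N)))))) N)))))))))))))))))))⟩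
def e0_63__107_147 : Ent 4 := ⟨[a0, a63], [a107, a236], (M a149 (F (T t5 (T t175 (T t176 (L l98 (T t177 (K a192 (M a53 (F (L l339 (T t982 (L l236 (L l251 (T t179 (L l236 (L l296 (T t180 N)))))))))) (K a21 (M a48 (F (T t4 (L l98 (T t13 (L l18 (L l251 (T t14 N)))))))) (K a85 (M a16 (F (L l400 (T t97 (L l98 (L l144 (L l400 (T t190 (L l94 (T t278 N)))))))))) (K a213 (Fr a106 a192 l519 (Fr a42 a21 l68 (Fr a170 a234 l390 (Fr a255 a85 l476 (V t582))))) (K a42 (M a48 (F (T t187 (L l98 (L l390 (T t13 (L l54 (L l251 (T t14 N))))))))) (K a106 (M a105 (F (L l390 (T t1931 (L l391 (L l516 (T t1932 (L l390 (L l391 (L l516 (T t1933 (L l390 (L l516 (T t1934 (L l516 (T t1935 N)))))))))))))))) (K a170 (M a48 (F (T t4 (L l462 (T t1 (L l98 (L l390 (T t13 N)))))))) (K a191 (M a16 (F (L l400 (T t97 (L l213 (T t191 (L l213 (L l400 (T t192 N))))))))) (K a255 (M a16 (F (L l400 (T t112 (L l289 (L l296 (T t191 (L l400 (T t192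 N))))))))) N))))))))))))))))⟩
def e0_63__107_148 : Ent 4 := ⟨[a0, a63], [a107, a237], (M a149 (F (T t5 (T t175 (T t176 (L l98 (T t177 (K a192 (M a53 (F (T t178 (L l236 (L l251 (T t179 (L l236 (L l296 (T t180 N))))))))) (K a21 (M a48 (F (T t4 (L l98 (T t13 (L l18 (L l251 (T t14 N)))))))) (K a85 (M a16 (F (T t97 (L l98 (L l144 (T t190 (L l94 (T t278 N)))))))) (K a213 (Fr a106 a192 l519 (Fr a42 a21 l68 (Fr a170 a234 l390 (Fr a255 a85 l476 (V t582))))) (K a42 (M a48 (F (T t11 (L l98 (L l390 (T t13 (L l54 (L l251 (T t14 N))))))))) (K a106 (M a105 (F (L l390 (T t1931 (L l391 (L l516 (T t1932 (L l390 (L l391 (L l516 (T t1933 (L l390 (L l516 (T t1934 (L l516 (T t1935 N)))))))))))))))) (K a170 (M a48 (F (T t4 (L l462 (T t1 (L l98 (L l390 (T t13 N)))))))) (K a191 (M a16 (F (T t97 (L l98 (T t190 (L l213 (T t191 N))))))) (K a255 (M a16 (F (T t112 (L l98 (L l266 (T t190 (L l289 (L l296 (T t191 N))))))))) N))))))))))))))))⟩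
def e0_63__107_149 : Ent 4 := ⟨[a0, a63], [a107, a238], (M a48 (F (T t1 (T t2 (L l409 (T t3 (T t0 (K a16 (M a60 (F (T t43 (T t64 (T t65 N))))) (K a32 (M a60 (F (T t64 (L l391 (T t67 (L l24 (L l28 (T t65 N)))))))) (K a21 (M a192 (F (T t837 (L l47 (L l347 (T t20 (L l47 (L l347 (T t29 N))))))))) (K a37 (M a192 (F (T t19 (L l47 (T t20 (L l143 (L l290 (T t21 N)))))))) (K a53 (M a192 (F (T t19 (L l143 (L l290 (L l491 (T t21 (L l98 (T t31 N))))))))) (K a26 (M a192 (F (T t27 (T t20 (L l143 (L l290 (T t21 N))))))) (K a42 (M a192 (F (T t19 (T t20 (L l28 (T t29 N)))))) (K a58 (M a192 (F (T t19 (L l143 (L l290 (T t21 (L l54 (L l98 (L l498 (T t31 N)))))))))) (K a15 (M a170 (F (T t2101 (L l251 (L l254 (T t324 N)))))) N))))))))))))))))⟩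
def e0_63__107_150 : Ent 4 := ⟨[a0, a63], [a107, a239], (M a60 (F (T t43 (L l391 (T t67 (T t68 (T t69 (K a20 (M a48 (F (T t2 (T t64 (L l11 (T t235 N)))))) (K a40 (M a48 (F (T t64 (T t1 (L l52 (T t235 N)))))) (K a21 (M a192 (F (T t77 (L l98 (T t1516 (L l143 (L l347 (T t74 N)))))))) (K a41 (M a192 (F (T t77 (L l65 (L l256 (L l289 (T t35 (L l98 (T t1516 N))))))))) (K a61 (M a192 (F (T t79 (L l65 (L l256 (L l289 (L l515 (T t35 (L l98 (T t2718 N)))))))))) (K a22 (M a192 (F (T t77 (L l143 (L l289 (T t21 (L l66 (L l98 (T t1516 N))))))))) (K a42 (M a192 (F (T t77 (L l66 (L l98 (L l390 (T t1516 (L l22 (L l143 (T t74 N)))))))))) (K a62 (M a192 (F (T t77 (L l256 (L l289 (T t35 (L l66 (L l98 (L l516 (T t2718 N)))))))))) (K a3 (M a106 (F (T t2792 (L l256 (T t1513 N))))) N))))))))))))))))⟩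
def e0_63__107_151 : Ent 4 := ⟨[a0, a63], [a107, a252], (M a48 (F (T t48 (L l471 (T t1 (L l471 (T t2 (L l409 (L l471 (T t3 (L l471 (T t0 (K a16 (M a60 (F (T t138 (L l14 (L l18 (L l391 (L l477 (T t67 (T t65 N))))))))) (K a32 (M a60 (F (T t2568 (L l441 (T t64 (L l24 (L l28 (T t65 N)))))))) (K a21 (M a192 (F (T t2113 (L l47 (L l291 (L l347 (T t20 (L l47 (L l347 (T t29 N)))))))))) (K a37 (M a192 (F (T t36 (L l47 (L l291 (T t20 (L l143 (L l261 (T t21 N))))))))) (K a53 (M a192 (F (T t55 (L l143 (L l261 (L l491 (T t21 (L l98 (T t31 N))))))))) (K a26 (M a192 (F (T t56 (L l262 (T t27 (L l143 (L l261 (T t21 N)))))))) (K a42 (M a192 (F (T t56 (L l262 (T t27 (L l28 (T t29 N))))))) (K a58 (M a192 (F (T t57 (L l262 (T t27 (L l54 (L l98 (L l498 (T t31 N))))))))) (K a15 (M a106 (L l471 (F (T t2289 (T t306 (K a173 (M a94 (F (T t3759 (L l292 (L l339 (T t4540 (T t579 N))))))) (K a94 (M a173 (F (T t3759 (L l292 (L l339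 (T t4540 (T t579 N))))))) N))))))) N)))))))))))))))))))))⟩
def e0_63__107_152 : Ent 4 := ⟨[a0, a63], [a107, a253], (M a48 (F (T t1 (T t2 (L l409 (T t3 (T t0 (K a16 (M a60 (F (T t43 (L l431 (T t64 (T t65 N)))))) (K a32 (M a60 (F (T t451 (L l391 (T t67 (L l24 (L l28 (T t65 N)))))))) (K a21 (M a192 (F (T t837 (L l47 (L l347 (T t20 (L l47 (L l347 (T t29 N))))))))) (K a37 (M a192 (F (T t19 (L l47 (T t20 (L l143 (L l261 (T t21 N)))))))) (K a53 (M a192 (F (T t19 (L l143 (L l261 (L l491 (T t21 (L l98 (L l293 (T t31 N)))))))))) (K a26 (M a192 (F (T t837 (T t20 (L l143 (L l261 (T t21 N))))))) (K a42 (M a192 (F (T t19 (T t20 (L l28 (T t29 N)))))) (K a58 (M a192 (F (T t19 (L l143 (L l261 (T t21 (L l54 (L l98 (L l293 (L l498 (T t31 N))))))))))) (K a15 (M a192 (F (T t57 (L l483 (T t27 (L l325 (T t20 N))))))) N))))))))))))))))⟩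
def e0_63__107_153 : Ent 4 := ⟨[a0, a63], [a107, a254], (M a48 (F (T t1 (T t2 (L l409 (T t3 (T t0 (K a16 (M a60 (F (T t43 (L l438 (T t64 (T t65 N)))))) (K a32 (M a60 (F (T t451 (L l391 (T t67 (L l24 (L l28 (T t65 N)))))))) (K a21 (M a192 (F (T t837 (L l47 (L l347 (T t20 (L l47 (L l347 (T t29 N))))))))) (K a37 (M a192 (F (T t19 (L l47 (T t20 (L l143 (L l261 (T t21 N)))))))) (K a53 (M a192 (F (T t19 (L l143 (L l261 (L l491 (T t21 (L l98 (T t31 N))))))))) (K a26 (M a192 (F (T t27 (T t20 (L l143 (L l261 (T t21 N))))))) (K a42 (M a192 (F (T t19 (T t20 (L l28 (T t29 N)))))) (K a58 (M a192 (F (T t19 (L l143 (L l261 (T t21 (L l54 (L l98 (L l498 (T t31 N)))))))))) (K a15 (M a192 (F (T t56 (L l483 (T t27 (L l143 (L l261 (L l469 (T t21 N))))))))) N))))))))))))))))⟩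
def e0_63__107_154 : Ent 4 := ⟨[a0, a63], [a107, a255], (M a48 (F (T t48 (L l469 (T t1 (L l469 (T t2 (L l409 (L l469 (T t3 (L l469 (T t0 (K a16 (M a60 (F (T t138 (L l14 (L l18 (L l391 (L l475 (T t67 (T t65 N))))))))) (K a32 (M a60 (F (T t2568 (L l439 (T t64 (L l24 (L l28 (T t65 N)))))))) (K a21 (M a192 (F (T t2113 (L l47 (L l289 (L l347 (T t20 (L l47 (L l289 (L l347 (T t29 N))))))))))) (K a37 (M a192 (F (T t55 (L l47 (L l289 (T t20 (L l28 (L l47 (L l289 (T t29 N)))))))))) (K a53 (M a12 (F (T t145 (L l47 (L l439 (T t122 (L l47 (T t146 N)))))))) (K a26 (M a192 (F (T t56 (L l266 (T t27 (L l289 (T t29 N))))))) (K a42 (M a192 (F (T t56 (L l266 (T t27 (L l28 (L l289 (T t29 N)))))))) (K a58 (M a12 (F (T t145 (L l439 (T t122 (T t146 N)))))) (K a15 (M a192 (L l469 (F (T t56 (L l266 (L l483 (T t27 (L l289 (T t29 (K a95 (M a175 (F (T t1922 (L l98 (L l289 (L l325 (L l361 (T t22 (L l289 (L l361 (T t29 N)))))))))))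 (K a175 (M a95 (F (T t1922 (L l98 (L l213 (L l289 (L l325 (T t22 (L l289 (T t29 N)))))))))) N))))))))))) N)))))))))))))))))))))⟩
def b0_63__107 : Blk 4 := ⟨[0, 63], [107], [1, 2, 3, 4, 5, 6, 7, 8, 9, 10, 11, 12, 13, 14, 15, 20, 22, 23, 24, 25, 26, 27, 28, 29, 30, 31, 40, 41, 43, 44, 45, 46, 47, 60, 61, 62, 64, 65, 66, 67, 68, 69, 70, 71, 72, 73, 74, 75, 76, 77, 78, 79, 84, 85, 86, 87, 88, 89, 90, 91, 92, 93, 94, 95, 104, 105, 106, 108, 109, 110, 111, 124, 125, 126, 127, 128, 129, 130, 131, 132, 133, 134, 135, 136, 137, 138, 139, 140, 141, 142, 143, 148, 149, 150, 151, 152, 153, 154, 155, 156, 157, 158, 159, 168, 169, 170, 171, 172, 173, 174, 175, 188, 189, 190, 191, 192, 193, 194, 195, 196, 197, 198, 199, 200, 201, 202, 203, 204, 205, 206, 207, 212, 213, 214, 215, 216, 217, 218, 219, 220, 221, 222, 223, 232, 233, 234, 235, 236, 237, 238, 239, 252, 253, 254, 255], [e0_63__107_0, e0_63__107_1, e0_63__107_2,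 e0_63__107_3, e0_63__107_4, e0_63__107_5, e0_63__107_6, e0_63__107_7, e0_63__107_8, e0_63__107_9, e0_63__107_10, e0_63__107_11, e0_63__107_12, e0_63__107_13, e0_63__107_14, e0_63__107_15, e0_63__107_16, e0_63__107_17, e0_63__107_18, e0_63__107_19, e0_63__107_20, e0_63__107_21, e0_63__107_22, e0_63__107_23, e0_63__107_24, e0_63__107_25, e0_63__107_26, e0_63__107_27, e0_63__107_28, e0_63__107_29, e0_63__107_30, e0_63__107_31, e0_63__107_32, e0_63__107_33, e0_63__107_34, e0_63__107_35, e0_63__107_36, e0_63__107_37, e0_63__107_38, e0_63__107_39, e0_63__107_40, e0_63__107_41, e0_63__107_42, e0_63__107_43, e0_63__107_44, e0_63__107_45, e0_63__107_46, e0_63__107_47, e0_63__107_48, e0_63__107_49, e0_63__107_50, e0_63__107_51, e0_63__107_52, e0_63__107_53, e0_63__107_54, e0_63__107_55, e0_63__107_56, e0_63__107_57, e0_63__107_58, e0_63__107_59, e0_63__107_60, e0_63__107_61, e0_63__107_62, e0_63__107_63, e0_63__107_64,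 e0_63__107_65, e0_63__107_66, e0_63__107_67, e0_63__107_68, e0_63__107_69, e0_63__107_70, e0_63__107_71, e0_63__107_72, e0_63__107_73, e0_63__107_74, e0_63__107_75, e0_63__107_76, e0_63__107_77, e0_63__107_78, e0_63__107_79, e0_63__107_80, e0_63__107_81, e0_63__107_82, e0_63__107_83, e0_63__107_84, e0_63__107_85, e0_63__107_86, e0_63__107_87, e0_63__107_88, e0_63__107_89, e0_63__107_90, e0_63__107_91, e0_63__107_92, e0_63__107_93, e0_63__107_94, e0_63__107_95, e0_63__107_96, e0_63__107_97, e0_63__107_98, e0_63__107_99, e0_63__107_100, e0_63__107_101, e0_63__107_102, e0_63__107_103, e0_63__107_104, e0_63__107_105, e0_63__107_106, e0_63__107_107, e0_63__107_108, e0_63__107_109, e0_63__107_110, e0_63__107_111, e0_63__107_112, e0_63__107_113, e0_63__107_114, e0_63__107_115, e0_63__107_116, e0_63__107_117, e0_63__107_118, e0_63__107_119, e0_63__107_120, e0_63__107_121, e0_63__107_122, e0_63__107_123, e0_63__107_124,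 e0_63__107_125, e0_63__107_126, e0_63__107_127, e0_63__107_128, e0_63__107_129, e0_63__107_130, e0_63__107_131, e0_63__107_132, e0_63__107_133, e0_63__107_134, e0_63__107_135, e0_63__107_136, e0_63__107_137, e0_63__107_138, e0_63__107_139, e0_63__107_140, e0_63__107_141, e0_63__107_142, e0_63__107_143, e0_63__107_144, e0_63__107_145, e0_63__107_146, e0_63__107_147, e0_63__107_148, e0_63__107_149, e0_63__107_150, e0_63__107_151, e0_63__107_152, e0_63__107_153, e0_63__107_154], by decide +kernel, by decide +kernel⟩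

end Pool.Agent.Lib_TTT.K4
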