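import Pool.Agent.Lib_TTT.K4Base
import Pool.Agent.Lib_TTT.K4T00
import Pool.Agent.Lib_TTT.K4T01
import Pool.Agent.Lib_TTT.K4T02
import Pool.Agent.Lib_TTT.K4T03
import Pool.Agent.Lib_TTT.K4T04
import Pool.Agent.Lib_TTT.K4T05

/-! Certificates in `4^4`. -/

set_option autoImplicit false
set_option maxRecDepth 200000

namespace Pool.Agent.Lib_TTT.K4

open Lib_TTT AC DC

def e0_63__111_0 : Ent 4 := ⟨[a0, a63], [a111, a1], (M a48 (F (T t0 (L l65 (T t1 (L l5 (T t2 (L l65 (L l397 (T t3 (K a16 (M a60 (F (T t42 (L l14 (L l18 (L l65 (T t67 (L l5 (T t65 N))))))))) (K a32 (M a60 (F (T t42 (L l65 (T t67 (L l5 (L l24 (L l28 (T t65 N))))))))) (K a21 (M a60 (L l65 (F (T t248 (L l47 (T t42 (L l11 (L l18 (L l47 (T t876 (L l41 (L l50 (T t250 (K a41 (Fr a61 a62 l33 (V t877)) (K a61 (M a41 (F (L l11 (T t878 (L l59 (T t879 (L l50 (T t247 N)))))))) N))))))))))))))) (K a37 (M a192 (F (T t19 (L l104 (T t206 (L l137 (T t21 N))))))) (K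 a53 (M a192 (F (T t19 (L l137 (L l491 (T t21 (L l104 (T t521 N)))))))) (K a26 (M a192 (F (T t27 (L l54 (L l104 (T t206 (L l137 (T t21 N)))))))) (K a42 (M a192 (F (T t19 (L l54 (L l104 (L l390 (T t206 (L l28 (T t29 N))))))))) (K a58 (M a192 (F (T t19 (L l137 (T t21 (L l54 (L l104 (L l498 (T t521 N))))))))) (K a15 (M a192 (F (T t55 (L l104 (L l325 (T t206 (L l137 (L l469 (T t21 N))))))))) N)))))))))))))))))))⟩
def e0_63__111_1 : Ent 4 := ⟨[a0, a63], [a111, a2], (M a48 (F (L l6 (T t1 (L l66 (T t2 (L l397 (T t3 (L l66 (T t0 (K a16 (M a60 (F (T t42 (L l66 (T t43 (L l6 (L l14 (L l18 (T t44 N))))))))) (K a32 (M a60 (F (T t42 (L l24 (L l28 (L l66 (T t43 (L l6 (T t44 N))))))))) (K a21 (M a192 (F (L l104 (T t206 (T t27 (L l47 (L l347 (T t29 N)))))))) (K a37 (M a192 (F (T t19 (L l104 (T t206 (L l137 (T t21 N))))))) (K a53 (M a192 (F (T t19 (L l137 (L l491 (T t21 (L l66 (L l104 (T t521 N))))))))) (K a26 (M a192 (F (T t27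 (L l54 (L l104 (T t206 (L l137 (T t21 N)))))))) (K a42 (M a60 (L l66 (F (T t880 (L l42 (T t64 (L l42 (L l56 (T t288 (L l22 (L l28 (L l54 (T t638 (K a22 (Fr a62 a61 l33 (V t639)) (K a62 (M a22 (F (L l22 (T t881 (L l54 (L l60 (T t882 (T t880 N)))))))) N))))))))))))))) (K a58 (M a192 (F (T t19 (L l137 (T t21 (L l54 (L l66 (L l104 (L l498 (T t521 N)))))))))) (K a15 (M a192 (F (T t57 (L l483 (T t27 (L l104 (L l325 (T t206 N)))))))) N)))))))))))))))))))⟩
def e0_63__111_2 : Ent 4 := ⟨[a0, a63], [a111, a3], (M a48 (F (T t48 (L l7 (T t1 (L l7 (T t2 (L l7 (L l397 (T t3 (L l7 (T t0 (K a16 (M a85 (F (T t4539 (L l137 (L l453 (T t50 (T t51 N))))))) (K a32 (M a85 (F (L l475 (T t255 (L l137 (L l404 (L l453 (T t50 (L l28 (T t51 N)))))))))) (K a21 (M a192 (F (L l104 (L l331 (T t206 (L l453 (T t27 (L l47 (L l347 (T t29 N)))))))))) (K a37 (M a192 (F (T t55 (L l104 (L l331 (T t206 (L l137 (L l475 (T t21 N))))))))) (K a53 (M a192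 (F (T t36 (L l137 (L l475 (L l491 (T t21 (L l104 (T t521 N))))))))) (K a26 (M a192 (F (L l453 (T t27 (L l54 (L l104 (L l331 (T t206 (L l137 (L l475 (T t21 N))))))))))) (K a42 (M a192 (F (T t55 (L l54 (L l104 (L l331 (L l390 (T t206 (L l28 (T t29 N)))))))))) (K a58 (M a192 (F (T t57 (L l453 (T t27 (L l54 (L l104 (L l498 (T t521 N))))))))) (K a15 (M a106 (L l7 (F (T t2289 (T t306 (K a7 (M a11 (F (T t3759 (L l453 (L l483 (T t551 (L l469 (L l475 (T t4723 N))))))))) (K a11 (M a7 (F (T t3759 (L l453 (L l483 (T t551 (L l469 (L l475 (T t4723 N))))))))) N))))))) N)))))))))))))))))))))⟩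
def e0_63__111_3 : Ent 4 := ⟨[a0, a63], [a111, a5], (M a60 (F (T t43 (L l47 (T t67 (L l47 (T t68 (L l5 (T t69 (K a20 (M a48 (F (T t70 (L l11 (L l14 (L l47 (L l397 (T t3 (L l46 (T t71 N)))))))))) (K a40 (M a48 (F (T t70 (L l47 (L l397 (T t3 (L l22 (L l24 (T t71 N))))))))) (K a21 (M a192 (L l47 (F (T t72 (L l103 (L l347 (T t73 (L l137 (L l347 (T t74 (K a37 (M a53 (F (T t1333 (L l104 (L l311 (T t613 N)))))) (K a53 (M a37 (F (T t77 (L l103 (L l347 (L l491 (T t73 (L l11 (L l104 (T t78 N)))))))))) N)))))))))))) (K a41 (M a192 (F (T t79 (L l47 (L l65 (T t35 (L l103 (T t73 N)))))))) (K a61 (M a192 (F (T t72 (L l47 (L l65 (L l515 (T t35 (L l104 (T t80 N))))))))) (K a22 (M a192 (F (T t72 (L l137 (T t21 (L l103 (T t73 N))))))) (K a42 (M a192 (F (T t77 (L l103 (T t73 (L l22 (L l137 (T t74 N)))))))) (K a62 (M a192 (F (T t72 (L l47 (T t35 (L l66 (L l104 (L l516 (T t80 N))))))))) (K a3 (M a192 (F (T t237 (L l477 (T t79 (L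 l47 (L l475 (T t35 N)))))))) N))))))))))))))))))⟩
def e0_63__111_4 : Ent 4 := ⟨[a0, a63], [a111, a6], (M a149 (F (T t5 (T t175 (T t176 (L l104 (T t177 (K a192 (M a53 (F (T t939 (L l236 (L l296 (T t180 (L l236 (L l397 (T t179 N))))))))) (K a21 (M a240 (F (T t1090 (L l104 (T t1091 (L l397 (T t1207 N))))))) (K a85 (M a48 (F (T t184 (L l6 (T t1 (L l104 (L l144 (T t13 N)))))))) (K a213 (Fr a106 a192 l519 (Fr a42 a21 l68 (Fr a170 a234 l390 (Fr a255 a85 l476 (V t582))))) (K a42 (M a240 (F (T t1090 (L l104 (L l390 (T t1091 (L l397 (T t1207 N)))))))) (K a106 (M a101 (F (L l390 (T t1208 (L l397 (L l498 (T t1209 (L l390 (L l397 (L l498 (T t1210 (L l390 (L l498 (T t1211 (L l498 (T t1212 N)))))))))))))))) (K a170 (M a48 (F (T t184 (L l6 (L l462 (T t1 (L l104 (L l390 (T t13 N))))))))) (K a191 (M a16 (F (T t97 (L l213 (T t1213 (L l213 (T t191 N))))))) (K a255 (M a16 (F (T t504 (L l289 (T t1213 (L l289 (L l296 (T t191 N))))))))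 N))))))))))))))))⟩
def e0_63__111_5 : Ent 4 := ⟨[a0, a63], [a111, a7], (M a149 (F (T t5 (T t175 (T t176 (L l104 (T t177 (K a192 (M a53 (F (T t939 (L l236 (L l296 (T t180 (L l236 (L l397 (T t179 N))))))))) (K a21 (M a240 (F (T t1937 (L l104 (T t1091 (L l315 (L l397 (T t1207 N)))))))) (K a85 (M a48 (F (T t184 (L l7 (T t1 (L l104 (L l144 (T t13 N)))))))) (K a213 (Fr a106 a192 l519 (Fr a42 a21 l68 (Fr a170 a234 l390 (Fr a255 a85 l476 (V t582))))) (K a42 (M a240 (F (T t1937 (L l104 (L l390 (T t1091 (L l315 (L l397 (T t1207 N))))))))) (K a106 (M a101 (F (L l390 (T t1208 (L l397 (L l498 (T t1209 (L l390 (L l397 (L l498 (T t1210 (L l390 (L l498 (T t1211 (L l498 (T t1212 N)))))))))))))))) (K a170 (M a48 (F (T t184 (L l7 (L l462 (T t1 (L l104 (L l390 (T t13 N))))))))) (K a191 (M a16 (F (T t504 (L l213 (T t1213 (L l213 (T t191 N))))))) (K a255 (M a16 (F (T t504 (L l289 (T t1213 (L l289 (L l296 (T t191 N)))))))) N))))))))))))))))⟩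
def e0_63__111_6 : Ent 4 := ⟨[a0, a63], [a111, a10], (M a60 (F (T t67 (L l54 (T t43 (L l6 (T t68 (L l54 (T t69 (K a20 (M a48 (F (L l54 (T t0 (T t64 (L l6 (L l11 (T t235 N)))))))) (K a40 (M a48 (F (T t42 (L l22 (L l24 (L l54 (T t0 (L l6 (L l52 (T t235 N)))))))))) (K a21 (M a192 (F (T t72 (L l103 (L l347 (T t73 (L l137 (L l347 (T t74 N))))))))) (K a41 (M a192 (F (T t79 (L l65 (T t35 (L l103 (T t73 N))))))) (K a61 (M a192 (F (T t72 (L l65 (L l515 (T t35 (L l54 (L l104 (T t80 N))))))))) (K a22 (M a192 (F (T t72 (L l137 (T t21 (L l103 (T t73 N))))))) (K a42 (M a192 (L l54 (F (T t77 (L l103 (T t73 (L l22 (L l137 (T t74 (K a26 (M a58 (F (T t569 (L l22 (L l57 (T t1342 N)))))) (K a58 (M a26 (F (T t79 (L l103 (T t73 (L l104 (L l390 (L l498 (T t78 N))))))))) N))))))))))) (K a62 (M a192 (F (T t72 (T t35 (L l54 (L l66 (L l104 (L l516 (T t80 N))))))))) (K a3 (M a192 (F (T t237 (L l477 (T t79 (L l475 (T t35 N))))))) N))))))))))))))))))⟩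
def e0_63__111_7 : Ent 4 := ⟨[a0, a63], [a111, a11], (M a149 (F (T t5 (T t175 (T t176 (L l104 (T t177 (K a192 (M a53 (F (T t178 (L l236 (L l296 (T t180 (L l236 (L l397 (T t179 N))))))))) (K a21 (M a240 (F (T t1090 (L l104 (T t1091 (L l397 (T t1207 N))))))) (K a85 (M a48 (F (T t184 (L l2 (L l7 (T t1 (L l104 (L l144 (T t13 N))))))))) (K a213 (Fr a106 a192 l519 (Fr a42 a21 l68 (Fr a170 a234 l390 (Fr a255 a85 l476 (V t582))))) (K a42 (M a240 (F (T t1090 (L l104 (L l390 (T t1091 (L l397 (T t1207 N)))))))) (K a106 (M a101 (F (L l390 (T t1208 (L l397 (L l498 (T t1209 (L l390 (L l397 (L l498 (T t1210 (L l390 (L l498 (T t1211 (L l498 (T t1212 N)))))))))))))))) (K a170 (M a48 (F (T t184 (L l2 (L l7 (L l462 (T t1 (L l104 (L l390 (T t13 N)))))))))) (K a191 (M a16 (F (T t112 (L l213 (T t1213 (L l213 (T t191 N))))))) (K a255 (M a16 (F (T t112 (L l289 (T t1213 (L l289 (L l296 (T t191 N)))))))) N))))))))))))))))⟩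
def e0_63__111_8 : Ent 4 := ⟨[a0, a63], [a111, a15], (M a12 (F (T t150 (L l73 (T t122 (L l73 (T t151 (L l73 (T t152 (L l73 (T t153 (K a4 (M a85 (F (T t4539 (L l137 (L l327 (T t124 (T t154 N))))))) (K a8 (M a85 (F (L l469 (T t255 (L l327 (L l464 (T t4724 (L l56 (T t154 N))))))))) (K a21 (M a192 (F (T t2119 (L l15 (L l347 (L l481 (T t450 (L l15 (L l347 (T t157 N)))))))))) (K a25 (M a192 (F (T t496 (L l15 (L l481 (T t450 (L l137 (L l469 (T t21 N))))))))) (K a29 (M a192 (F (T t159 (L l137 (L l371 (L l469 (T t21 (L l104 (T t160 N))))))))) (K a38 (M a192 (F (T t161 (L l327 (T t156 (L l137 (L l469 (T t21 N)))))))) (K a42 (M a192 (F (T t161 (L l327 (T t156 (L l56 (T t157 N))))))) (K a46 (M a192 (F (T t57 (L l327 (T t156 (L l26 (L l104 (L l408 (T t160 N))))))))) (K a51 (M a68 (L l73 (F (T t2174 (L l439 (L l469 (T t767 (L l104 (L l439 (L l469 (L l513 (T t164 (L l104 (T t163 (K a39 (M a27 (F (T t2174 (L l63 (T t166 N)))))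 (K a27 (M a39 (F (T t2174 (L l63 (T t167 N))))) N)))))))))))))))) N))))))))))))))))))))⟩
def e0_63__111_9 : Ent 4 := ⟨[a0, a63], [a111, a16], (M a12 (F (T t153 (L l18 (T t122 (L l10 (T t151 (L l18 (T t152 (K a4 (M a60 (F (T t43 (T t398 (L l10 (T t448 N)))))) (K a8 (M a60 (F (T t398 (L l52 (L l56 (T t43 (L l10 (L l52 (L l56 (T t448 N)))))))))) (K a21 (M a192 (L l18 (F (T t836 (L l15 (L l347 (T t450 (L l15 (L l347 (T t157 (K a26 (M a31 (F (T t156 (L l104 (L l340 (L l397 (T t1348 N))))))) (K a31 (M a26 (F (T t156 (L l13 (L l15 (L l347 (L l375 (T t450 (L l50 (L l104 (T t681 N))))))))))) N)))))))))))) (K a25 (M a192 (F (T t449 (L l15 (T t450 (L l137 (T t21 N))))))) (K a29 (M a192 (F (T t449 (L l137 (L l371 (T t21 (L l104 (T t160 N)))))))) (K a38 (M a192 (F (T t836 (T t450 (L l137 (T t21 N)))))) (K a42 (M a192 (F (T t449 (T t450 (L l56 (T t157 N)))))) (K a46 (M a192 (F (T t449 (L l137 (T t21 (L l26 (L l104 (L l408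 (T t160 N))))))))) (K a51 (M a192 (F (T t161 (L l513 (T t156 (L l137 (L l439 (T t21 N)))))))) N))))))))))))))))))⟩
def e0_63__111_10 : Ent 4 := ⟨[a0, a63], [a111, a17], (M a60 (F (T t43 (L l15 (T t67 (L l15 (T t68 (L l41 (T t69 (K a20 (M a48 (F (T t2 (T t64 (L l11 (L l15 (T t235 N))))))) (K a40 (M a48 (F (T t64 (L l15 (T t1 (L l15 (L l52 (T t235 N)))))))) (K a21 (M a192 (L l15 (F (T t72 (L l103 (L l347 (T t73 (L l137 (L l347 (T t74 (K a25 (M a29 (F (T t1333 (L l104 (L l341 (T t2409 N)))))) (K a29 (M a25 (F (T t77 (L l103 (L l347 (L l371 (T t73 (L l11 (L l104 (T t78 N)))))))))) N)))))))))))) (K a41 (M a192 (F (T t79 (L l15 (L l65 (T t35 (L l103 (T t73 N)))))))) (K a61 (M a192 (F (T t72 (L l15 (L l65 (L l515 (T t35 (L l104 (T t80 N))))))))) (K a22 (M a192 (F (T t72 (L l137 (T t21 (L l103 (T t73 N))))))) (K a42 (M a192 (F (T t77 (L l103 (T t73 (L l22 (L l137 (T t74 N)))))))) (K a62 (M a192 (F (T t72 (L l15 (T t35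 (L l66 (L l104 (L l516 (T t80 N))))))))) (K a3 (M a192 (F (T t237 (L l477 (T t79 (L l15 (L l475 (T t35 N)))))))) N))))))))))))))))))⟩
def e0_63__111_11 : Ent 4 := ⟨[a0, a63], [a111, a18], (M a149 (F (T t5 (T t175 (T t176 (L l104 (T t177 (K a192 (M a53 (F (T t178 (L l236 (L l296 (T t180 (L l10 (L l236 (L l397 (T t179 N)))))))))) (K a21 (M a240 (F (T t1090 (L l45 (L l104 (T t1091 (L l397 (T t1207 N)))))))) (K a85 (M a48 (F (T t1 (T t184 (L l104 (L l144 (T t13 N))))))) (K a213 (Fr a106 a192 l519 (Fr a42 a21 l68 (Fr a170 a234 l390 (Fr a255 a85 l476 (V t582))))) (K a42 (M a240 (F (T t1090 (L l45 (L l104 (L l390 (T t1091 (L l397 (T t1207 N))))))))) (K a106 (M a101 (F (L l498 (T t1212 (L l390 (T t1208 (L l10 (L l397 (L l498 (T t1209 (L l10 (L l366 (L l390 (L l397 (L l498 (T t1210 (L l390 (L l498 (T t1211 N))))))))))))))))))) (K a170 (M a48 (F (T t184 (L l462 (T t1 (L l104 (L l390 (T t13 N)))))))) (K a191 (M a16 (F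 (T t97 (L l213 (T t1213 (L l213 (T t191 N))))))) (K a255 (M a16 (F (T t112 (L l289 (T t1213 (L l289 (L l296 (T t191 N)))))))) N))))))))))))))))⟩
def e0_63__111_12 : Ent 4 := ⟨[a0, a63], [a111, a19], (M a149 (F (T t5 (T t175 (T t176 (L l104 (T t177 (K a192 (M a53 (F (T t178 (L l236 (L l296 (T t180 (L l10 (L l236 (L l397 (T t179 N)))))))))) (K a21 (M a240 (F (T t1090 (L l104 (T t1091 (L l397 (T t1207 N))))))) (K a85 (M a48 (F (T t1 (T t184 (L l104 (L l144 (T t13 N))))))) (K a213 (Fr a106 a192 l519 (Fr a42 a21 l68 (Fr a170 a234 l390 (Fr a255 a85 l476 (V t582))))) (K a42 (M a240 (F (T t1090 (L l104 (L l390 (T t1091 (L l397 (T t1207 N)))))))) (K a106 (M a101 (F (L l390 (T t1208 (L l10 (L l397 (L l498 (T t1209 (L l10 (L l390 (L l397 (L l498 (T t1210 (L l17 (L l390 (L l498 (T t1211 (L l367 (L l498 (T t1212 N)))))))))))))))))))) (K a170 (M a48 (F (T t184 (L l462 (T t1 (L l104 (L l390 (T t13 N)))))))) (K a191 (M a16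 (F (T t112 (L l213 (T t1213 (L l213 (L l367 (T t191 N)))))))) (K a255 (M a16 (F (T t112 (L l289 (T t1213 (L l289 (L l296 (L l367 (T t191 N))))))))) N))))))))))))))))⟩
def e0_63__111_13 : Ent 4 := ⟨[a0, a63], [a111, a22], (M a149 (F (L l66 (T t5 (L l11 (T t175 (L l66 (T t176 (L l104 (T t177 (K a192 (M a53 (F (L l66 (L l339 (T t982 (L l236 (L l397 (T t179 (L l66 (L l236 (L l296 (T t180 N)))))))))))) (K a21 (M a240 (L l11 (F (T t1090 (L l104 (T t1091 (L l397 (T t1207 (K a20 (M a23 (F (T t1937 (L l65 (L l346 (T t182 N)))))) (K a23 (M a20 (F (T t4725 (L l104 (T t962 N))))) N)))))))))) (K a85 (M a48 (F (T t184 (L l11 (T t1 (L l104 (L l144 (T t13 N)))))))) (K a213 (Fr a106 a192 l519 (Fr a42 a21 l68 (Fr a170 a234 l390 (Fr a255 a85 l476 (V t582))))) (K a42 (M a2 (F (L l22 (T t189 (L l104 (L l390 (T t1848 (L l22 (T t1847 (L l11 (L l104 (L l390 (T t1849 N))))))))))))) (K a106 (M a101 (F (L l498 (T t1212 (L l66 (L l390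 (T t1208 (L l397 (L l498 (T t1209 (L l66 (L l390 (L l397 (L l498 (T t1210 (L l66 (L l390 (L l498 (T t1211 N))))))))))))))))))) (K a170 (M a48 (F (T t184 (L l11 (L l462 (T t1 (L l104 (L l390 (T t13 N))))))))) (K a191 (M a16 (F (L l104 (T t4726 (L l66 (L l213 (T t191 (L l66 (T t97 N))))))))) (K a255 (M a16 (F (L l66 (T t112 (L l289 (T t1213 (L l66 (L l289 (L l296 (T t191 N)))))))))) N)))))))))))))))))))⟩
def e0_63__111_14 : Ent 4 := ⟨[a0, a63], [a111, a23], (M a149 (F (T t5 (L l11 (T t175 (T t176 (L l104 (T t177 (K a192 (M a53 (F (T t178 (L l236 (L l296 (T t180 (L l236 (L l397 (T t179 N))))))))) (K a21 (M a240 (L l11 (F (T t1090 (L l104 (T t1091 (L l397 (T t1207 (K a20 (M a22 (F (T t4727 (L l104 (T t1091 (L l397 (T t1207 N))))))) (K a22 (M a20 (F (T t4725 (L l104 (T t962 N))))) N)))))))))) (K a85 (M a48 (F (T t184 (L l11 (T t1 (L l104 (L l144 (T t13 N)))))))) (K a213 (Fr a106 a192 l519 (Fr a42 a21 l68 (Fr a170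 a234 l390 (Fr a255 a85 l476 (V t582))))) (K a42 (M a240 (F (T t1090 (L l104 (L l390 (T t1091 (L l397 (T t1207 N)))))))) (K a106 (M a101 (F (L l397 (L l498 (T t1209 (L l390 (T t1208 (L l390 (L l397 (L l498 (T t1210 (L l17 (L l390 (L l498 (T t1211 (L l498 (T t1212 N))))))))))))))))) (K a170 (M a48 (F (T t184 (L l11 (L l462 (T t1 (L l104 (L l390 (T t13 N))))))))) (K a191 (M a16 (F (T t112 (L l213 (T t1213 (L l213 (T t191 N))))))) (K a255 (M a16 (F (T t112 (L l289 (T t1213 (L l289 (L l296 (T t191 N)))))))) N)))))))))))))))))⟩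
def e0_63__111_15 : Ent 4 := ⟨[a0, a63], [a111, a26], (M a192 (F (L l137 (T t21 (L l18 (T t35 (L l104 (T t202 (L l54 (L l104 (T t37 (K a64 (M a12 (F (T t450 (L l18 (T t122 (L l54 (L l80 (L l104 (L l144 (T t160 N)))))))))) (K a128 (M a12 (F (L l54 (T t151 (L l220 (T t450 (L l54 (L l104 (T t160 N))))))))) (K a21 (M a31 (F (L l397 (T t4728 (L l104 (L l354 (T t4729 (L l104 (L l397 (T t1348 (L l47 (L l104 (L l397 (T t4214 (L l47 (L l104 (T t4216 N))))))))))))))))) (K a85 (M a240 (F (T t4730 (L l347 (L l397 (T t4731 (L l94 (L l104 (L l144 (L l397 (T t4732 N))))))))))) (K a149 (M a12 (F (T t836 (L l18 (L l347 (L l371 (T t122 (L l18 (L l202 (L l220 (L l347 (L l371 (T t227 (L l54 (L l495 (T t228 N)))))))))))))))) (K a42 (M a10 (F (T t229 (L l18 (L l104 (L l390 (T t230 (L l104 (L l390 (T t231 N)))))))))) (K a106 (M a12 (L l104 (F (T t156 (L l18 (T t122 (L l18 (L l501 (T t227 (L l54 (L l132 (L l144 (L l390 (L l408 (T t228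 (K a96 (M a101 (F (T t156 (L l54 (L l390 (T t153 (L l18 (L l501 (T t227 (L l54 (L l116 (L l132 (L l144 (L l390 (L l408 (T t228 N)))))))))))))))) (K a101 (M a96 (F (L l151 (T t4733 (L l54 (L l390 (L l408 (T t151 N)))))))) N))))))))))))))))) (K a170 (M a48 (F (L l18 (T t19 (L l54 (L l104 (L l390 (T t206 (L l220 (L l404 (T t29 N))))))))))) (K a255 (M a224 (F (T t233 (T t232 (L l18 (L l75 (T t234 N))))))) N))))))))))))))))))))⟩
def e0_63__111_16 : Ent 4 := ⟨[a0, a63], [a111, a27], (M a149 (F (T t5 (T t175 (T t176 (L l104 (T t177 (K a192 (M a53 (F (T t178 (L l236 (L l296 (T t180 (L l236 (L l397 (T t179 N))))))))) (K a21 (M a240 (F (T t1090 (L l104 (T t1091 (L l397 (T t1207 N))))))) (K a85 (M a48 (F (T t184 (L l73 (T t1 (L l104 (L l144 (T t13 N)))))))) (K a213 (Fr a106 a192 l519 (Fr a42 a21 l68 (Fr a170 a234 l390 (Fr a255 a85 l476 (V t582))))) (K a42 (M a240 (F (T t1090 (L l104 (L l390 (T t1091 (L l397 (T t1207 N))))))))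 (K a106 (M a101 (F (L l397 (L l498 (T t1209 (L l390 (T t1208 (L l390 (L l397 (L l498 (T t1210 (L l17 (L l390 (L l498 (T t1211 (L l498 (T t1212 N))))))))))))))))) (K a170 (M a48 (F (T t184 (L l73 (L l462 (T t1 (L l104 (L l390 (T t13 N))))))))) (K a191 (M a16 (F (T t112 (L l213 (T t1213 (L l213 (T t191 N))))))) (K a255 (M a16 (F (T t112 (L l289 (T t1213 (L l289 (L l296 (T t191 N)))))))) N))))))))))))))))⟩
def e0_63__111_17 : Ent 4 := ⟨[a0, a63], [a111, a31], (M a60 (F (T t69 (L l18 (T t67 (L l17 (T t43 (L l18 (T t68 (K a20 (M a48 (F (T t64 (L l11 (L l18 (T t1 (L l11 (L l18 (T t235 N))))))))) (K a40 (M a48 (F (L l18 (T t1 (T t64 (L l18 (L l52 (T t235 N)))))))) (K a21 (M a48 (L l18 (F (T t70 (L l13 (T t248 (L l11 (L l47 (L l65 (T t249 (L l13 (L l50 (T t250 (K a16 (M a26 (F (L l47 (T t251 (L l11 (T t252 (T t70 N))))))) (K a26 (Fr a16 a32 l40 (V t253)) N))))))))))))))) (K a41 (M a192 (F (T t77 (L l18 (L l65 (L l375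 (T t35 (L l103 (L l375 (T t73 N)))))))))) (K a61 (M a192 (F (T t72 (L l18 (L l65 (L l375 (L l515 (T t35 (L l104 (L l373 (T t80 N))))))))))) (K a22 (M a192 (F (T t72 (L l137 (L l375 (T t21 (L l103 (L l375 (T t73 N))))))))) (K a42 (M a192 (F (T t77 (L l103 (L l375 (T t73 (L l22 (L l137 (L l375 (T t74 N)))))))))) (K a62 (M a192 (F (T t72 (L l18 (L l375 (T t35 (L l66 (L l104 (L l373 (L l516 (T t80 N))))))))))) (K a3 (M a192 (F (T t2658 (L l18 (L l375 (L l475 (T t35 (L l103 (L l307 (L l375 (T t73 N))))))))))) N))))))))))))))))))⟩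
def e0_63__111_18 : Ent 4 := ⟨[a0, a63], [a111, a32], (M a12 (F (T t152 (L l20 (T t122 (L l28 (T t151 (L l28 (T t153 (K a4 (M a60 (F (T t398 (L l46 (L l50 (T t67 (L l24 (L l28 (T t448 N))))))))) (K a8 (M a60 (F (T t398 (T t67 (L l24 (L l28 (L l52 (L l56 (T t448 N))))))))) (K a21 (M a192 (F (T t836 (L l15 (L l347 (T t450 (L l15 (L l347 (T t157 N))))))))) (K a25 (M a192 (F (T t449 (L l15 (T t450 (L l137 (T t21 N))))))) (K a29 (M a192 (F (T t449 (L l137 (L l371 (T t21 (L l28 (L l104 (T t160 N))))))))) (K a38 (M a192 (F (T t836 (T t450 (L l137 (T t21 N)))))) (K a42 (M a170 (L l28 (F (T t2501 (T t2498 (L l26 (T t3880 (K a37 (M a47 (F (T t4734 (L l24 (T t3908 N))))) (K a47 (M a37 (L l397 (F (T t2501 (T t2498 (L l23 (L l26 (T t3880 (K a175 (M a239 (F (T t4735 (L l23 (L l26 (L l213 (T t3880 (L l175 (L l213 (T t2498 N)))))))))) (K a239 (M a175 (F (T t4735 (L l137 (L l376 (T t4736 (L l23 (L l26 (T t3880 N))))))))) N))))))))))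 N))))))))) (K a46 (M a192 (F (T t449 (L l137 (T t21 (L l26 (L l28 (L l104 (L l408 (T t160 N)))))))))) (K a51 (M a192 (F (T t57 (L l513 (T t156 (L l415 (T t450 N))))))) N))))))))))))))))))⟩
def e0_63__111_19 : Ent 4 := ⟨[a0, a63], [a111, a33], (M a149 (F (T t5 (T t175 (T t176 (L l104 (T t177 (K a192 (M a53 (F (L l339 (T t982 (L l236 (L l397 (T t179 (L l236 (L l296 (T t180 N)))))))))) (K a21 (M a240 (F (T t1090 (L l45 (L l104 (T t1091 (L l397 (T t1207 N)))))))) (K a85 (M a48 (F (T t1 (T t184 (L l104 (L l144 (T t13 N))))))) (K a213 (Fr a106 a192 l519 (Fr a42 a21 l68 (Fr a170 a234 l390 (Fr a255 a85 l476 (V t582))))) (K a42 (M a240 (F (T t1090 (L l45 (L l104 (L l390 (T t1091 (L l397 (T t1207 N))))))))) (K a106 (M a101 (F (L l390 (T t1208 (L l397 (L l498 (T t1209 (L l390 (L l498 (T t4737 (L l20 (L l390 (L l498 (T t1211 (L l20 (L l498 (T t1212 N))))))))))))))))) (K a170 (M a48 (F (T t184 (L l462 (T t1 (L l104 (L l390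 (T t13 N)))))))) (K a191 (M a16 (F (L l20 (T t97 (L l213 (T t191 (L l20 (L l213 (T t1213 N))))))))) (K a255 (M a16 (F (L l20 (T t112 (L l289 (L l296 (T t191 (L l20 (L l289 (T t1213 N)))))))))) N))))))))))))))))⟩
def e0_63__111_20 : Ent 4 := ⟨[a0, a63], [a111, a34], (M a85 (F (T t255 (L l26 (T t88 (L l26 (L l104 (T t89 (L l402 (T t90 (K a64 (M a16 (F (L l84 (T t666 (L l20 (L l26 (T t97 (L l26 (L l116 (T t98 N)))))))))) (K a192 (M a16 (F (L l296 (T t666 (L l20 (L l26 (L l339 (T t97 (L l26 (L l296 (T t98 N))))))))))) (K a21 (M a48 (F (L l20 (T t99 (L l137 (L l402 (T t50 (L l20 (L l47 (L l137 (T t100 N))))))))))) (K a149 (M a48 (F (L l26 (T t2 (L l20 (T t99 (L l137 (L l220 (L l402 (T t50 N)))))))))) (K a213 (Fr a170 a255 l476 (Fr a42 a21 l68 (Fr a106 a234 l390 (Fr a192 a149 l519 (V t581))))) (K a42 (M a46 (F (T t1814 (L l137 (L l390 (L l402 (T t1389 (L l56 (L l137 (L l378 (T t1390 (L l378 (L l390 (L l402 (T t1391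 N))))))))))))))) (K a106 (M a48 (L l104 (F (T t1 (L l20 (T t99 (L l137 (L l390 (L l402 (T t50 (K a96 (M a101 (F (T t4738 (L l390 (L l402 (T t4739 N)))))) (K a101 (M a96 (F (L l491 (T t1 (L l151 (T t4740 (L l26 (L l390 (L l491 (T t4741 N)))))))))) N)))))))))))) (K a170 (M a102 (F (L l99 (L l208 (T t1392 (L l26 (L l390 (T t1393 (L l208 (L l378 (T t1394 (L l26 (L l208 (L l390 (T t1395 N))))))))))))))) (K a255 (M a16 (F (L l20 (L l26 (T t112 (L l20 (L l137 (L l289 (T t113 (L l26 (L l289 (L l296 (T t98 N))))))))))))) N)))))))))))))))))))⟩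
def e0_63__111_21 : Ent 4 := ⟨[a0, a63], [a111, a35], (M a149 (F (T t5 (T t175 (T t176 (L l104 (T t177 (K a192 (M a53 (F (L l339 (T t982 (L l236 (L l397 (L l403 (T t179 (L l236 (L l296 (T t180 N))))))))))) (K a21 (M a240 (F (T t1834 (L l104 (T t1091 (L l397 (T t1207 N))))))) (K a85 (M a48 (F (T t1 (T t184 (L l104 (L l144 (T t13 N))))))) (K a213 (Fr a106 a192 l519 (Fr a42 a21 l68 (Fr a170 a234 l390 (Fr a255 a85 l476 (V t582))))) (K a42 (M a240 (F (T t2299 (L l104 (L l390 (T t1091 (L l397 (T t1207 N)))))))) (K a106 (M a101 (F (L l390 (T t1208 (L l397 (L l403 (L l498 (T t1209 (L l390 (L l498 (T t4737 (L l20 (L l390 (L l498 (T t1211 (L l20 (L l498 (T t1212 N)))))))))))))))))) (K a170 (M a48 (F (T t184 (L l462 (T t1 (L l104 (L l390 (T t13 N)))))))) (K a191 (M a16 (F (L l20 (T t97 (L l213 (T t191 (L l20 (L l213 (T t1213 N))))))))) (K a255 (M a16 (F (L l20 (T t112 (L l289 (L l296 (T t191 (L l20 (L l289 (T t1213 N))))))))))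 N))))))))))))))))⟩
def e0_63__111_22 : Ent 4 := ⟨[a0, a63], [a111, a37], (M a60 (F (L l47 (T t67 (L l28 (T t43 (L l47 (T t68 (L l28 (T t69 (K a20 (M a12 (F (T t835 (L l11 (L l47 (T t122 (L l11 (L l46 (L l47 (T t399 N)))))))))) (K a40 (M a12 (F (T t1413 (L l47 (T t122 (L l24 (L l47 (T t399 N)))))))) (K a21 (M a192 (L l47 (F (T t72 (L l103 (L l347 (T t73 (L l137 (L l347 (T t74 (K a5 (M a53 (F (T t1333 (L l104 (L l311 (T t613 N)))))) (K a53 (M a5 (F (T t1333 (L l25 (L l28 (L l397 (T t4742 N))))))) N)))))))))))) (K a41 (M a192 (L l25 (F (T t79 (L l47 (L l65 (T t35 (L l103 (T t73 (K a33 (M a45 (F (T t79 (L l71 (L l75 (T t4743 N)))))) (K a45 (M a33 (F (T t1333 (L l47 (L l65 (T t35 (L l104 (T t75 N)))))))) N))))))))))) (K a61 (M a192 (F (T t72 (L l47 (L l65 (L l515 (T t35 (L l28 (L l104 (T t80 N)))))))))) (K a22 (M a192 (L l51 (F (T t72 (L l137 (T t21 (L l103 (T t73 (K a52 (M a7 (F (T t569 (L l11 (L l47 (T t35 (T t1333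 N))))))) (K a7 (M a52 (F (T t569 (L l1 (T t3773 N))))) N)))))))))) (K a42 (M a48 (L l28 (F (T t880 (L l47 (T t64 (L l47 (L l56 (T t4744 (L l22 (L l54 (L l66 (L l71 (T t289 (K a32 (M a47 (F (L l24 (T t4745 (L l54 (T t451 (L l24 (L l51 (T t4746 N))))))))) (K a47 (Fr a32 a16 l40 (V t292)) N)))))))))))))))) (K a62 (M a192 (F (T t72 (L l47 (T t35 (L l28 (L l66 (L l104 (L l516 (T t80 N)))))))))) (K a3 (M a192 (F (T t237 (L l477 (T t79 (L l47 (L l475 (T t35 N)))))))) N)))))))))))))))))))⟩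
def e0_63__111_23 : Ent 4 := ⟨[a0, a63], [a111, a38], (M a149 (F (L l26 (T t5 (L l50 (T t175 (L l26 (T t176 (L l104 (T t177 (K a192 (M a53 (F (L l26 (L l339 (T t982 (L l236 (L l397 (T t179 (L l26 (L l236 (L l296 (T t180 N)))))))))))) (K a21 (M a240 (L l50 (F (T t1090 (L l104 (T t1091 (L l397 (T t1207 (K a4 (M a55 (F (T t1937 (L l15 (L l310 (T t2433 N)))))) (K a55 (M a4 (F (T t4727 (T t3836 N)))) N)))))))))) (K a85 (M a48 (F (T t184 (L l50 (T t1 (L l104 (L l144 (T t13 N)))))))) (K a213 (Fr a106 a192 l519 (Fr a42 a21 l68 (Fr a170 a234 l390 (Fr a255 a85 l476 (V t582))))) (K a42 (M a34 (F (L l56 (T t281 (L l104 (L l390 (T t280 (L l56 (T t2434 (L l50 (L l104 (L l390 (T t282 N))))))))))))) (K a106 (M a101 (F (L l498 (T t1212 (L l26 (L l390 (T t1208 (L l397 (L l498 (T t1209 (L l26 (L l390 (L l397 (L l498 (T t1210 (L l26 (L l390 (L l498 (T t1211 N))))))))))))))))))) (K a170 (M a48 (F (T t184 (L l50 (L l462 (T t1 (L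 l104 (L l390 (T t13 N))))))))) (K a191 (M a16 (F (L l104 (T t4726 (L l26 (L l213 (T t191 (L l26 (T t97 N))))))))) (K a255 (M a16 (F (L l26 (T t112 (L l289 (T t1213 (L l26 (L l289 (L l296 (T t191 N)))))))))) N)))))))))))))))))))⟩
def e0_63__111_24 : Ent 4 := ⟨[a0, a63], [a111, a39], (M a149 (F (T t5 (T t175 (T t176 (L l104 (T t177 (K a192 (M a53 (F (T t178 (L l236 (L l296 (T t180 (L l236 (L l397 (T t179 N))))))))) (K a21 (M a240 (F (T t1090 (L l104 (T t1091 (L l397 (T t1207 N))))))) (K a85 (M a48 (F (T t184 (L l73 (T t1 (L l104 (L l144 (T t13 N)))))))) (K a213 (Fr a106 a192 l519 (Fr a42 a21 l68 (Fr a170 a234 l390 (Fr a255 a85 l476 (V t582))))) (K a42 (M a240 (F (T t1090 (L l104 (L l390 (T t1091 (L l397 (T t1207 N)))))))) (K a106 (M a101 (F (L l390 (T t1208 (L l397 (L l498 (T t1209 (L l390 (L l397 (L l498 (T t1210 (L l390 (L l498 (T t1211 (L l498 (T t1212 N)))))))))))))))) (K a170 (M a48 (F (T t184 (L l73 (L l462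 (T t1 (L l104 (L l390 (T t13 N))))))))) (K a191 (M a16 (F (T t112 (L l213 (T t1213 (L l213 (T t191 N))))))) (K a255 (M a16 (F (T t112 (L l289 (T t1213 (L l289 (L l296 (T t191 N)))))))) N))))))))))))))))⟩
def e0_63__111_25 : Ent 4 := ⟨[a0, a63], [a111, a43], (M a48 (F (T t1 (L l22 (T t2 (L l27 (L l397 (T t3 (L l22 (T t0 (K a16 (M a60 (F (T t64 (L l22 (T t69 (L l22 (T t268 N))))))) (K a32 (M a60 (F (T t64 (L l22 (L l28 (T t69 (L l22 (L l28 (T t268 N))))))))) (K a21 (M a192 (F (T t27 (L l104 (L l393 (T t206 (L l47 (L l347 (T t29 N))))))))) (K a37 (M a192 (F (T t19 (L l104 (L l393 (T t206 (L l137 (T t21 N)))))))) (K a53 (M a192 (F (T t19 (L l137 (L l491 (T t21 (L l22 (L l104 (L l393 (T t521 N)))))))))) (K a26 (M a192 (F (T t27 (L l54 (L l104 (L l393 (T t206 (L l137 (T t21 N))))))))) (K a42 (M a192 (L l22 (F (T t19 (L l54 (L l104 (L l390 (L l393 (T t206 (L l28 (T t29 (K a40 (M a41 (F (T t27 (L l54 (L l104 (L l390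 (L l393 (T t206 (L l24 (L l28 (L l137 (T t861 N)))))))))))) (K a41 (M a40 (F (T t27 (L l65 (T t1830 N))))) N))))))))))))) (K a58 (M a192 (F (T t19 (L l137 (T t21 (L l22 (L l54 (L l104 (L l393 (L l498 (T t521 N))))))))))) (K a15 (M a192 (F (T t57 (L l483 (T t27 (L l104 (L l325 (L l393 (T t206 N))))))))) N)))))))))))))))))))⟩
def e0_63__111_26 : Ent 4 := ⟨[a0, a63], [a111, a47], (M a60 (L l397 (F (T t68 (L l27 (T t67 (L l28 (T t43 (L l28 (T t69 (K a20 (M a255 (L l397 (F (T t2963 (L l28 (T t2142 (L l11 (L l350 (T t2964 (K a175 (M a239 (F (T t2969 (L l28 (L l350 (T t4747 N)))))) (K a239 (M a175 (F (T t2969 (L l137 (L l350 (T t4748 (L l11 (L l256 (L l350 (T t2964 N)))))))))) N))))))))))) (K a40 (M a170 (L l397 (F (T t439 (T t1570 (T t1123 (K a175 (M a239 (F (T t4749 (T t1123 N)))) (K a239 (M a175 (F (L l137 (T t4736 (L l256 (T t1123 N)))))) N)))))))) (K a21 (M a105 (L l397 (F (T t2712 (T t1128 (L l11 (T t405 (K a175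 (M a239 (F (T t403 (L l11 (L l28 (T t4750 N)))))) (K a239 (M a175 (F (T t403 (L l11 (L l255 (T t4751 N)))))) N))))))))) (K a41 (M a105 (L l397 (F (T t419 (T t1128 (T t405 (K a175 (M a239 (F (T t403 (L l28 (T t4750 N))))) (K a239 (M a175 (F (T t403 (L l255 (T t4751 N))))) N)))))))) (K a61 (M a170 (L l397 (F (T t457 (L l65 (T t317 (L l65 (T t458 (K a175 (M a239 (F (T t4749 (L l65 (T t458 N))))) (K a239 (M a175 (F (L l137 (T t4736 (L l65 (L l255 (L l256 (T t458 N)))))))) N)))))))))) (K a22 (M a105 (L l397 (F (T t2712 (L l66 (T t1128 (L l11 (L l66 (T t405 (K a175 (M a239 (F (T t420 (L l11 (L l28 (T t4750 N)))))) (K a239 (M a175 (F (T t420 (L l11 (L l16 (L l255 (T t4751 N))))))) N))))))))))) (K a42 (M a170 (L l28 (L l397 (F (T t457 (L l66 (T t2690 (T t1570 (K a32 (M a37 (L l397 (F (T t457 (L l66 (T t2690 (T t1570 (K a175 (M a239 (F (T t4752 (L l66 (L l213 (T t2690 (L l213 (T t1570 N)))))))) (K a239 (M a175 (F (T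 t4752 (L l137 (L l376 (T t4736 (L l66 (L l255 (T t2690 N))))))))) N))))))))) (K a37 (M a32 (L l397 (F (T t457 (L l54 (L l66 (L l71 (T t4753 (K a175 (Fr a239 a101 l404 (V t2689)) (K a239 (M a175 (F (T t4752 (L l47 (L l51 (L l56 (T t1549 N))))))) N)))))))))) (K a175 (M a239 (L l28 (F (T t4749 (L l66 (L l213 (T t2690 (K a32 (M a37 (F (T t4752 (L l66 (L l213 (T t2690 (L l213 (T t1570 N)))))))) (K a37 (Fr a32 a101 l404 (V t2689)) N))))))))) (K a239 (M a175 (L l28 (F (L l137 (T t4736 (L l66 (L l255 (T t2690 (K a32 (M a37 (F (T t4752 (L l137 (L l376 (T t4736 (L l66 (L l255 (T t2690 N))))))))) (K a37 (M a32 (F (T t4752 (L l47 (L l51 (L l56 (T t1549 N))))))) N)))))))))) N)))))))))))) (K a62 (M a12 (L l397 (F (T t409 (T t122 (L l23 (L l28 (L l60 (L l66 (T t448 (K a175 (M a239 (F (T t122 (L l99 (L l104 (T t4754 N)))))) (K a239 (M a175 (F (T t2842 (T t122 (L l27 (T t1096 N)))))) N)))))))))))) (K a3 (M a105 (L l397 (F (T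 t419 (L l309 (T t1128 (T t405 (K a175 (M a239 (F (T t4755 (L l28 (T t4750 N))))) (K a239 (M a175 (F (T t1221 (L l255 (T t4751 N))))) N))))))))) (K a175 (M a239 (F (T t68 (L l27 (T t67 (L l28 (T t43 (L l28 (T t69 (K a20 (M a32 (F (L l14 (T t4756 (L l104 (L l213 (L l469 (T t4757 N)))))))) (K a40 (M a32 (F (T t1549 (L l22 (L l104 (L l213 (L l469 (T t4757 N)))))))) (K a21 (M a32 (F (L l18 (T t4753 (L l104 (L l469 (T t4758 N))))))) (K a41 (M a32 (F (T t1568 (L l65 (L l104 (L l137 (L l469 (T t4759 N)))))))) (K a61 (M a32 (F (T t1568 (L l104 (L l213 (L l469 (T t4757 N))))))) (K a22 (M a32 (F (T t4760 (L l104 (L l469 (T t4758 N)))))) (K a42 (M a32 (F (T t4756 (L l22 (L l104 (L l469 (T t4758 N))))))) (K a62 (M a32 (F (T t1568 (L l66 (L l104 (L l213 (L l469 (T t4757 N)))))))) (K a3 (M a32 (F (T t1568 (L l104 (L l213 (L l469 (L l475 (T t4757 N)))))))) N)))))))))))))))))) (K a239 (M a175 (F (T t68 (L l27 (T t67 (L l28 (T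 t43 (L l28 (T t69 (K a20 (M a160 (F (T t4761 (L l28 (L l289 (L l411 (T t4762 N))))))) (K a40 (M a160 (F (T t4761 (L l22 (L l28 (L l289 (L l411 (T t4762 N)))))))) (K a21 (M a160 (F (T t4761 (L l11 (L l255 (L l289 (L l411 (T t4763 N)))))))) (K a41 (M a160 (F (T t4761 (L l22 (L l28 (L l289 (L l411 (T t4762 N)))))))) (K a61 (M a170 (F (L l137 (T t4736 (L l65 (L l255 (L l256 (T t458 N)))))))) (K a22 (M a160 (F (T t4761 (L l11 (L l255 (L l289 (L l411 (T t4763 N)))))))) (K a42 (M a170 (L l28 (F (L l137 (T t4736 (L l66 (L l255 (T t2690 (K a32 (M a37 (F (T t4752 (L l137 (L l376 (T t4736 (L l66 (L l255 (T t2690 N))))))))) (K a37 (M a32 (F (T t4752 (L l47 (L l51 (L l56 (T t1549 N))))))) N)))))))))) (K a62 (M a170 (F (L l137 (T t4736 (L l255 (L l256 (T t458 N))))))) (K a3 (M a160 (F (T t4764 (L l28 (L l289 (L l411 (L l475 (T t4762 N)))))))) N)))))))))))))))))) N)))))))))))))))))))))⟩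
def e0_63__111_27 : Ent 4 := ⟨[a0, a63], [a111, a48], (M a60 (F (T t116 (L l45 (T t67 (L l45 (T t43 (L l45 (T t68 (L l45 (T t69 (K a20 (M a12 (F (T t570 (L l11 (L l30 (T t122 (L l11 (L l46 (T t399 N))))))))) (K a40 (M a12 (F (T t150 (L l75 (T t398 (L l24 (T t399 N))))))) (K a21 (M a192 (F (T t2658 (L l103 (L l347 (L l488 (T t73 (L l137 (L l347 (T t74 N)))))))))) (K a41 (M a192 (F (T t254 (L l65 (L l440 (T t35 (L l103 (L l488 (T t73 N))))))))) (K a61 (M a192 (F (T t1334 (L l65 (L l440 (L l515 (T t35 (L l104 (T t80 N))))))))) (K a22 (M a192 (F (T t237 (L l11 (L l436 (T t79 (L l11 (L l440 (T t35 N))))))))) (K a42 (M a192 (F (T t237 (L l436 (T t79 (L l22 (L l137 (T t74 N)))))))) (K a62 (M a192 (F (T t57 (L l436 (T t79 (L l66 (L l104 (L l516 (T t80 N))))))))) (K a3 (M a84 (L l45 (F (T t1414 (L l104 (T t1415 (L l104 (L l440 (L l475 (L l477 (T t1416 (K a33 (M a18 (F (T t1414 (L l70 (T t1417 N))))) (K a18 (M a33 (F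 (T t1414 (L l70 (L l397 (T t1418 N)))))) N))))))))))))) N))))))))))))))))))))⟩
def e0_63__111_28 : Ent 4 := ⟨[a0, a63], [a111, a49], (M a149 (F (T t5 (T t175 (T t176 (L l104 (T t177 (K a192 (M a53 (F (T t178 (L l236 (L l296 (T t180 (L l236 (L l397 (T t179 N))))))))) (K a21 (M a240 (F (T t1090 (L l30 (L l104 (T t1091 (L l397 (T t1207 N)))))))) (K a85 (M a48 (F (T t184 (L l35 (T t1 (L l104 (L l144 (T t13 N)))))))) (K a213 (Fr a106 a192 l519 (Fr a42 a21 l68 (Fr a170 a234 l390 (Fr a255 a85 l476 (V t582))))) (K a42 (M a240 (F (T t1090 (L l30 (L l104 (L l390 (T t1091 (L l397 (T t1207 N))))))))) (K a106 (M a101 (F (L l390 (T t1208 (L l397 (L l498 (T t1209 (L l390 (L l397 (L l498 (T t1210 (L l390 (L l498 (T t1211 (L l498 (T t1212 N)))))))))))))))) (K a170 (M a48 (F (T t184 (L l35 (L l462 (T t1 (L l104 (L l390 (T t13 N))))))))) (K a191 (M a16 (F (T t97 (L l213 (T t1213 (L l213 (T t191 N))))))) (K a255 (M a16 (F (T t112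 (L l289 (T t1213 (L l289 (L l296 (T t191 N)))))))) N))))))))))))))))⟩
def e0_63__111_29 : Ent 4 := ⟨[a0, a63], [a111, a50], (M a149 (F (T t5 (T t175 (T t176 (L l104 (T t177 (K a192 (M a53 (F (L l36 (T t178 (L l236 (L l296 (T t180 (L l36 (L l236 (L l397 (T t179 N))))))))))) (K a21 (M a240 (F (T t1090 (L l30 (L l104 (T t1091 (L l397 (T t1207 N)))))))) (K a85 (M a48 (F (T t1 (L l36 (T t184 (L l104 (L l144 (T t13 N)))))))) (K a213 (Fr a106 a192 l519 (Fr a42 a21 l68 (Fr a170 a234 l390 (Fr a255 a85 l476 (V t582))))) (K a42 (M a240 (F (T t1090 (L l30 (L l104 (L l390 (T t1091 (L l397 (T t1207 N))))))))) (K a106 (M a101 (F (L l390 (T t1208 (L l36 (L l397 (L l498 (T t1209 (L l390 (L l397 (L l498 (L l510 (T t1210 (L l36 (L l390 (L l498 (T t1211 (L l36 (L l498 (T t1212 N)))))))))))))))))))) (K a170 (M a48 (F (L l462 (T t1 (L l36 (T t184 (L l104 (L l390 (T t13 N))))))))) (K a191 (M a16 (F (T t97 (L l36 (L l213 (T t1213 (L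 l213 (T t191 N)))))))) (K a255 (M a16 (F (L l469 (T t97 (L l36 (L l289 (T t1213 (L l289 (L l296 (T t191 N)))))))))) N))))))))))))))))⟩
def e0_63__111_30 : Ent 4 := ⟨[a0, a63], [a111, a51], (M a48 (F (T t48 (L l73 (T t1 (L l73 (T t2 (L l73 (L l397 (T t3 (L l73 (T t0 (K a16 (M a85 (F (T t4539 (L l137 (L l417 (T t50 (T t51 N))))))) (K a32 (M a85 (F (L l439 (T t255 (L l137 (L l404 (L l417 (T t50 (L l28 (T t51 N)))))))))) (K a21 (M a192 (F (L l104 (L l511 (T t206 (L l417 (T t27 (L l47 (L l347 (T t29 N)))))))))) (K a37 (M a192 (F (T t55 (L l104 (L l511 (T t206 (L l137 (L l439 (T t21 N))))))))) (K a53 (M a192 (F (T t36 (L l137 (L l439 (L l491 (T t21 (L l104 (T t521 N))))))))) (K a26 (M a192 (F (L l417 (T t27 (L l54 (L l104 (L l511 (T t206 (L l137 (L l439 (T t21 N))))))))))) (K a42 (M a192 (F (T t55 (L l54 (L l104 (L l390 (L l511 (T t206 (L l28 (T t29 N)))))))))) (K a58 (M a192 (F (T t57 (L l417 (T t27 (L l54 (L l104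 (L l498 (T t521 N))))))))) (K a15 (M a106 (L l73 (F (T t2289 (T t306 (K a39 (M a27 (F (T t3759 (L l417 (L l483 (T t551 (L l439 (L l469 (T t4723 N))))))))) (K a27 (M a39 (F (T t3759 (L l417 (L l483 (T t551 (L l439 (L l469 (T t4723 N))))))))) N))))))) N)))))))))))))))))))))⟩
def e0_63__111_31 : Ent 4 := ⟨[a0, a63], [a111, a53], (M a12 (F (T t151 (L l47 (T t122 (L l47 (T t152 (L l31 (T t153 (K a4 (M a60 (F (T t43 (L l35 (T t398 (T t448 N)))))) (K a8 (M a60 (F (T t402 (L l47 (T t67 (L l52 (L l56 (T t448 N)))))))) (K a21 (M a192 (L l47 (F (T t836 (L l15 (L l347 (L l491 (T t450 (L l15 (L l347 (L l491 (T t157 (K a5 (M a37 (F (T t156 (L l15 (L l347 (L l491 (T t450 (L l1 (L l50 (L l104 (T t681 N))))))))))) (K a37 (M a5 (F (T t156 (L l347 (L l491 (T t4476 N)))))) N)))))))))))))) (K a25 (M a192 (F (T t449 (L l15 (L l491 (T t450 (L l137 (L l491 (T t21 N))))))))) (K a29 (M a192 (F (T t449 (L l137 (L l371 (L l491 (T t21 (L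 l104 (T t160 N))))))))) (K a38 (M a192 (F (T t836 (L l491 (T t450 (L l137 (L l491 (T t21 N)))))))) (K a42 (M a192 (F (T t449 (L l491 (T t450 (L l56 (L l491 (T t157 N)))))))) (K a46 (M a192 (F (T t449 (L l137 (L l491 (T t21 (L l26 (L l104 (L l408 (T t160 N)))))))))) (K a51 (M a192 (F (T t1725 (L l415 (L l491 (T t450 (L l137 (L l439 (L l491 (T t21 N)))))))))) N))))))))))))))))))⟩
def e0_63__111_32 : Ent 4 := ⟨[a0, a63], [a111, a54], (M a149 (F (T t5 (T t175 (T t176 (L l104 (T t177 (K a192 (M a53 (F (L l36 (T t178 (L l236 (L l296 (T t180 (L l36 (L l236 (L l397 (T t179 N))))))))))) (K a21 (M a240 (F (T t1090 (L l104 (T t1091 (L l397 (T t1207 N))))))) (K a85 (M a48 (F (T t0 (L l36 (T t184 (L l104 (L l144 (T t13 N)))))))) (K a213 (Fr a106 a192 l519 (Fr a42 a21 l68 (Fr a170 a234 l390 (Fr a255 a85 l476 (V t582))))) (K a42 (M a240 (F (T t1090 (L l104 (L l390 (T t1091 (L l397 (T t1207 N)))))))) (K a106 (M a101 (F (L l390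 (T t1208 (L l36 (L l397 (L l498 (T t1209 (L l390 (L l397 (L l498 (T t1210 (L l36 (L l390 (L l498 (T t1211 (L l36 (L l498 (T t1212 N))))))))))))))))))) (K a170 (M a48 (F (L l397 (T t3 (L l36 (T t184 (L l104 (L l390 (T t13 N))))))))) (K a191 (M a16 (F (T t97 (L l36 (L l213 (T t1213 (L l213 (T t191 N)))))))) (K a255 (M a16 (F (L l469 (T t97 (L l36 (L l289 (T t1213 (L l289 (L l296 (T t191 N)))))))))) N))))))))))))))))⟩
def e0_63__111_33 : Ent 4 := ⟨[a0, a63], [a111, a55], (M a149 (F (T t5 (L l50 (T t175 (T t176 (L l104 (T t177 (K a192 (M a53 (F (T t178 (L l236 (L l296 (L l423 (T t180 (L l236 (L l397 (T t179 N)))))))))) (K a21 (M a240 (L l50 (F (T t1090 (L l104 (T t1091 (L l397 (T t1207 (K a4 (M a38 (F (T t4727 (L l104 (T t1091 (L l397 (T t1207 N))))))) (K a38 (M a4 (F (T t4727 (T t3836 N)))) N)))))))))) (K a85 (M a48 (F (T t184 (L l31 (L l50 (T t1 (L l104 (L l144 (T t13 N))))))))) (K a213 (Fr a106 a192 l519 (Fr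 a42 a21 l68 (Fr a170 a234 l390 (Fr a255 a85 l476 (V t582))))) (K a42 (M a240 (F (T t1090 (L l104 (L l390 (T t1091 (L l397 (T t1207 N)))))))) (K a106 (M a101 (F (L l498 (T t1212 (L l390 (L l423 (T t1208 (L l397 (L l498 (T t1209 (L l390 (L l397 (L l498 (T t1210 (L l390 (L l498 (T t1211 N))))))))))))))))) (K a170 (M a48 (F (T t184 (L l31 (L l50 (L l462 (T t1 (L l104 (L l390 (T t13 N)))))))))) (K a191 (M a204 (F (L l104 (T t1283 (L l99 (T t1112 N)))))) (K a255 (M a16 (F (T t112 (L l289 (T t1213 (L l289 (L l296 (T t191 N)))))))) N)))))))))))))))))⟩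
def e0_63__111_34 : Ent 4 := ⟨[a0, a63], [a111, a58], (M a12 (F (T t122 (L l54 (T t151 (L l32 (T t152 (L l54 (T t153 (K a4 (M a60 (F (T t398 (L l46 (L l50 (T t67 (L l54 (T t448 N)))))))) (K a8 (M a60 (F (T t398 (T t67 (L l52 (L l54 (L l56 (T t448 N)))))))) (K a21 (M a192 (F (T t836 (L l15 (L l347 (T t450 (L l15 (L l347 (T t157 N))))))))) (K a25 (M a192 (F (T t449 (L l15 (T t450 (L l137 (T t21 N))))))) (K a29 (M a192 (F (T t449 (L l137 (L l371 (T t21 (L l54 (L l104 (L l498 (T t160 N)))))))))) (K a38 (M a192 (F (T t836 (T t450 (L l137 (T t21 N)))))) (K a42 (M a192 (L l54 (F (T t449 (T t450 (L l56 (T t157 (K a10 (M a26 (F (T t156 (T t450 (L l104 (L l390 (L l498 (T t681 N)))))))) (K a26 (M a10 (F (T t156 (L l28 (L l104 (L l390 (L l397 (L l498 (T t1444 N))))))))) N))))))))) (K a46 (M a192 (F (T t449 (L l137 (T t21 (L l26 (L l54 (L l104 (L l408 (L l498 (T t160 N))))))))))) (K a51 (M a192 (F (T t57 (L l513 (T t156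 (L l415 (T t450 N))))))) N))))))))))))))))))⟩
def e0_63__111_35 : Ent 4 := ⟨[a0, a63], [a111, a59], (M a60 (F (T t68 (L l55 (T t67 (L l56 (T t43 (L l56 (T t69 (K a20 (M a48 (F (L l32 (T t70 (L l11 (T t1 (L l46 (L l55 (L l56 (T t71 N)))))))))) (K a40 (M a48 (F (L l32 (T t70 (T t1 (L l22 (L l24 (L l55 (L l56 (T t71 N)))))))))) (K a21 (M a192 (F (T t72 (L l103 (L l347 (L l499 (T t73 (L l137 (L l347 (T t74 N)))))))))) (K a41 (M a192 (F (T t79 (L l65 (T t35 (L l103 (L l499 (T t73 N)))))))) (K a61 (M a192 (F (T t72 (L l65 (L l515 (T t35 (L l56 (L l104 (L l501 (T t80 N)))))))))) (K a22 (M a192 (F (T t72 (L l137 (T t21 (L l103 (L l499 (T t73 N)))))))) (K a42 (M a12 (L l56 (F (T t398 (L l22 (T t417 (L l28 (L l32 (T t2440 (L l22 (L l26 (L l66 (T t2441 (K a8 (M a25 (F (L l26 (T t2442 (L l66 (T t2443 (T t398 N))))))) (K a25 (Fr a8 a4 l4 (V t2444)) N))))))))))))))) (K a62 (M a192 (F (T t72 (T t35 (L l56 (L l66 (L l104 (L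 l501 (L l516 (T t80 N)))))))))) (K a3 (M a192 (F (T t237 (L l477 (T t79 (L l475 (T t35 N))))))) N))))))))))))))))))⟩
def e0_63__111_36 : Ent 4 := ⟨[a0, a63], [a111, a64], (M a48 (F (T t1 (T t2 (L l397 (T t3 (T t0 (K a16 (M a60 (F (T t43 (T t64 (T t65 N))))) (K a32 (M a60 (F (T t67 (T t64 (L l24 (L l28 (T t65 N))))))) (K a21 (M a101 (F (T t687 (L l18 (L l397 (T t334 (L l18 (L l397 (T t314 N))))))))) (K a37 (M a52 (F (T t82 (T t83 (L l21 (L l28 (T t84 N))))))) (K a53 (M a12 (F (T t151 (T t443 (L l47 (T t146 N)))))) (K a26 (M a56 (F (T t133 (T t134 (L l12 (L l18 (T t135 N))))))) (K a42 (M a101 (F (T t2181 (L l54 (T t687 (L l54 (L l397 (T t314 N)))))))) (K a58 (M a12 (F (T t443 (T t122 (T t146 N))))) (K a15 (M a4 (F (T t129 (L l63 (T t528 (T t520 N)))))) N))))))))))))))))⟩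
def e0_63__111_37 : Ent 4 := ⟨[a0, a63], [a111, a65], (M a48 (F (T t1 (T t2 (L l397 (T t3 (T t0 (K a16 (M a60 (F (T t43 (T t64 (T t65 N))))) (K a32 (M a60 (F (T t67 (T t64 (L l24 (L l28 (T t65 N))))))) (K a21 (M a192 (F (L l104 (T t206 (T t27 (L l47 (L l347 (T t29 N)))))))) (K a37 (M a192 (F (T t19 (L l104 (T t206 (L l137 (T t21 N))))))) (K a53 (M a192 (F (T t19 (L l137 (L l491 (T t21 (L l104 (T t521 N)))))))) (K a26 (M a192 (F (T t27 (L l54 (L l104 (T t206 (L l137 (T t21 N)))))))) (K a42 (M a192 (F (T t19 (L l54 (L l104 (L l390 (T t206 (L l28 (T t29 N))))))))) (K a58 (M a192 (F (T t19 (L l137 (T t21 (L l54 (L l104 (L l498 (T t521 N))))))))) (K a15 (M a192 (F (T t57 (L l483 (T t27 (L l104 (L l325 (T t206 N)))))))) N))))))))))))))))⟩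
def e0_63__111_38 : Ent 4 := ⟨[a0, a63], [a111, a66], (M a48 (F (T t1 (T t2 (L l397 (T t3 (T t0 (K a16 (M a60 (F (T t64 (L l14 (L l18 (L l309 (T t67 (T t65 N)))))))) (K a32 (M a60 (F (T t64 (L l309 (T t67 (L l24 (L l28 (T t65 N)))))))) (K a21 (M a192 (F (T t27 (L l104 (L l142 (T t206 (L l47 (L l347 (T t29 N))))))))) (K a37 (M a192 (F (T t19 (L l104 (L l142 (T t206 (L l137 (T t21 N)))))))) (K a53 (M a192 (F (T t19 (L l137 (L l491 (T t21 (L l104 (L l142 (T t521 N))))))))) (K a26 (M a192 (F (T t27 (L l54 (L l104 (L l142 (T t206 (L l137 (T t21 N))))))))) (K a42 (M a192 (F (T t19 (L l54 (L l104 (L l142 (L l390 (T t206 (L l28 (T t29 N)))))))))) (K a58 (M a192 (F (T t19 (L l137 (T t21 (L l54 (L l104 (L l142 (L l498 (T t521 N)))))))))) (K a15 (M a192 (F (T t57 (L l483 (T t27 (L l104 (L l142 (L l325 (T t206 N))))))))) N))))))))))))))))⟩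
def e0_63__111_39 : Ent 4 := ⟨[a0, a63], [a111, a67], (M a149 (F (T t25 (T t175 (T t176 (L l76 (L l104 (T t177 (K a192 (M a53 (F (T t178 (L l236 (L l296 (T t180 (L l236 (L l397 (T t179 N))))))))) (K a21 (M a240 (F (T t1090 (L l104 (L l121 (T t1091 (L l397 (T t1207 N)))))))) (K a85 (M a48 (F (T t1 (T t184 (L l104 (L l121 (L l144 (T t13 N)))))))) (K a213 (Fr a106 a192 l519 (Fr a42 a21 l68 (Fr a170 a234 l390 (Fr a255 a85 l476 (V t582))))) (K a42 (M a240 (F (T t1090 (L l104 (L l121 (L l390 (T t1091 (L l397 (T t1207 N))))))))) (K a106 (M a101 (F (L l390 (T t1208 (L l397 (L l498 (T t1209 (L l390 (L l397 (L l498 (T t1210 (L l390 (L l498 (T t1211 (L l498 (T t1212 N)))))))))))))))) (K a170 (M a48 (F (T t184 (L l462 (T t1 (L l104 (L l121 (L l390 (T t13 N))))))))) (K a191 (M a16 (F (T t97 (L l213 (T t1213 (L l213 (T t191 N))))))) (K a255 (M a16 (F (T t112 (L l289 (T t1213 (L l289 (L l296 (T t191 N)))))))) N)))))))))))))))))⟩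
def e0_63__111_40 : Ent 4 := ⟨[a0, a63], [a111, a69], (M a48 (F (T t1 (L l311 (T t2 (L l397 (T t3 (T t0 (K a16 (M a60 (F (T t43 (T t64 (L l311 (T t65 N)))))) (K a32 (M a60 (F (T t64 (T t67 (L l24 (L l28 (L l311 (T t65 N)))))))) (K a21 (M a192 (F (T t27 (L l104 (L l311 (T t206 (L l47 (L l347 (T t29 N))))))))) (K a37 (M a192 (F (T t19 (L l104 (L l311 (T t206 (L l137 (T t21 N)))))))) (K a53 (M a192 (F (T t19 (L l137 (L l491 (T t21 (L l104 (T t521 N)))))))) (K a26 (M a192 (F (T t27 (L l54 (L l104 (L l311 (T t206 (L l137 (T t21 N))))))))) (K a42 (M a192 (F (T t19 (L l54 (L l104 (L l311 (L l390 (T t206 (L l28 (T t29 N)))))))))) (K a58 (M a192 (F (T t19 (L l137 (T t21 (L l54 (L l104 (L l498 (T t521 N))))))))) (K a15 (M a192 (F (T t57 (L l483 (T t27 (L l104 (L l311 (L l325 (T t206 N))))))))) N)))))))))))))))))⟩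
def e0_63__111_41 : Ent 4 := ⟨[a0, a63], [a111, a70], (M a149 (F (T t5 (T t175 (T t176 (L l104 (T t177 (K a192 (M a53 (F (T t178 (L l77 (L l236 (L l296 (T t180 (L l236 (L l397 (T t179 N)))))))))) (K a21 (M a240 (F (L l315 (T t1090 (L l104 (T t1091 (L l315 (L l397 (T t1207 N))))))))) (K a85 (M a48 (F (T t1 (T t184 (L l104 (L l144 (T t13 N))))))) (K a213 (Fr a106 a192 l519 (Fr a42 a21 l68 (Fr a170 a234 l390 (Fr a255 a85 l476 (V t582))))) (K a42 (M a240 (F (L l315 (T t1090 (L l104 (L l390 (T t1091 (L l315 (L l397 (T t1207 N)))))))))) (K a106 (M a101 (F (L l498 (T t1212 (L l77 (L l390 (T t1208 (L l397 (L l498 (T t1209 (L l390 (L l397 (L l498 (T t1210 (L l390 (L l498 (T t1211 N))))))))))))))))) (K a170 (M a48 (F (T t184 (L l462 (T t1 (L l104 (L l390 (T t13 N)))))))) (K a191 (M a16 (F (T t97 (L l213 (T t1213 (L l213 (T t191 N))))))) (K a255 (M a16 (F (T t112 (L l289 (T t1213 (L l289 (L l296 (T t191 N)))))))) N))))))))))))))))⟩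
def e0_63__111_42 : Ent 4 := ⟨[a0, a63], [a111, a71], (M a149 (F (T t5 (T t175 (T t176 (L l104 (T t177 (K a192 (M a53 (F (T t178 (L l77 (L l236 (L l296 (T t180 (L l236 (L l397 (T t179 N)))))))))) (K a21 (M a240 (F (T t1090 (L l104 (T t1091 (L l397 (T t1207 N))))))) (K a85 (M a48 (F (T t1 (L l331 (T t184 (L l104 (L l144 (T t13 N)))))))) (K a213 (Fr a106 a192 l519 (Fr a42 a21 l68 (Fr a170 a234 l390 (Fr a255 a85 l476 (V t582))))) (K a42 (M a240 (F (T t1090 (L l104 (L l390 (T t1091 (L l397 (T t1207 N)))))))) (K a106 (M a101 (F (L l397 (L l498 (T t1209 (L l77 (L l390 (T t1208 (L l390 (L l397 (L l498 (T t1210 (L l390 (L l498 (T t1211 (L l331 (L l498 (T t1212 N)))))))))))))))))) (K a170 (M a48 (F (L l462 (T t1 (L l331 (T t184 (L l104 (L l390 (T t13 N))))))))) (K a191 (M a16 (F (T t97 (L l213 (L l331 (T t1213 (L l213 (T t191 N)))))))) (K a255 (M a16 (F (T t112 (L l289 (L l331 (T t1213 (L l289 (L l296 (T t191 N)))))))))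 N))))))))))))))))⟩
def e0_63__111_43 : Ent 4 := ⟨[a0, a63], [a111, a74], (M a12 (F (T t122 (T t151 (T t152 (T t153 (K a4 (M a60 (F (T t43 (L l336 (L l339 (T t398 (T t448 N))))))) (K a8 (M a60 (F (T t67 (L l336 (L l339 (T t398 (L l52 (L l56 (T t448 N))))))))) (K a21 (M a192 (F (T t156 (L l15 (L l347 (T t450 (L l15 (L l347 (T t157 N))))))))) (K a25 (M a192 (F (T t156 (L l15 (T t450 (L l137 (T t21 N))))))) (K a29 (M a192 (F (T t156 (L l137 (L l371 (T t21 (L l78 (L l104 (L l130 (T t160 N)))))))))) (K a38 (M a192 (F (T t156 (T t450 (L l137 (T t21 N)))))) (K a42 (M a192 (F (T t156 (T t450 (L l56 (T t157 N)))))) (K a46 (M a192 (F (T t156 (L l137 (T t21 (L l26 (L l78 (L l104 (L l130 (L l408 (T t160 N))))))))))) (K a51 (M a192 (F (T t57 (L l513 (T t156 (L l415 (T t450 N))))))) N)))))))))))))))⟩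
def e0_63__111_44 : Ent 4 := ⟨[a0, a63], [a111, a75], (M a149 (F (T t5 (T t175 (T t176 (L l104 (T t177 (K a192 (M a53 (F (T t178 (L l236 (L l296 (T t180 (L l236 (L l397 (T t179 N))))))))) (K a21 (M a240 (F (T t1090 (L l104 (T t1091 (L l397 (T t1207 N))))))) (K a85 (M a48 (F (T t184 (L l337 (T t1 (L l104 (L l144 (T t13 N)))))))) (K a213 (Fr a106 a192 l519 (Fr a42 a21 l68 (Fr a170 a234 l390 (Fr a255 a85 l476 (V t582))))) (K a42 (M a240 (F (T t1090 (L l104 (L l390 (T t1091 (L l397 (T t1207 N)))))))) (K a106 (M a101 (F (L l390 (T t1208 (L l397 (L l498 (T t1209 (L l390 (L l397 (L l498 (T t1210 (L l390 (L l498 (T t1211 (L l498 (T t1212 N)))))))))))))))) (K a170 (M a48 (F (T t184 (L l337 (L l462 (T t1 (L l104 (L l390 (T t13 N))))))))) (K a191 (M a16 (F (T t112 (L l213 (T t1213 (L l213 (T t191 N))))))) (K a255 (M a16 (F (T t112 (L l289 (T t1213 (L l289 (L l296 (T t191 N)))))))) N))))))))))))))))⟩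
def e0_63__111_45 : Ent 4 := ⟨[a0, a63], [a111, a79], (M a12 (L l137 (F (T t122 (T t151 (T t152 (T t153 (K a4 (M a255 (L l137 (F (T t2999 (L l84 (T t1165 (L l50 (L l458 (T t3000 (K a95 (Fr a127 a191 l433 (V t3001)) (K a127 (M a95 (F (L l397 (T t3002 (T t3003 (L l397 (T t3004 N))))))) N))))))))))) (K a8 (M a255 (L l137 (F (T t2999 (L l84 (L l464 (T t1165 (T t3000 (K a95 (Fr a127 a191 l433 (V t3001)) (K a127 (M a95 (F (L l397 (T t3002 (L l56 (L l464 (T t3003 (L l397 (L l464 (T t3004 N)))))))))) N)))))))))) (K a21 (M a255 (L l137 (F (T t2034 (L l347 (T t2031 (L l15 (T t2032 (K a95 (Fr a127 a191 l433 (V t3001)) (K a127 (M a95 (F (T t2137 (L l15 (L l397 (T t3005 N)))))) N)))))))))) (K a25 (M a255 (L l137 (F (T t2034 (L l84 (T t1165 (T t2031 (K a95 (Fr a127 a191 l433 (V t3001)) (K a127 (M a95 (F (T t2123 (L l15 (L l71 (L l397 (T t3005 N))))))) N))))))))) (K a29 (M a85 (L l137 (F (T t352 (T t1368 (T t572 (K a95 (M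 a127 (F (T t1190 (L l84 (T t1191 N))))) (K a127 (M a95 (F (T t1370 (T t2878 N)))) N)))))))) (K a38 (M a255 (L l137 (F (T t2999 (L l84 (T t1165 (T t2031 (K a95 (Fr a127 a191 l433 (V t3001)) (K a127 (M a95 (F (T t2137 (L l26 (L l397 (T t3006 N)))))) N))))))))) (K a42 (M a255 (L l137 (F (T t2999 (T t2031 (L l56 (L l390 (T t2032 (K a95 (Fr a127 a191 l433 (V t3001)) (K a127 (M a95 (F (L l144 (T t2134 (L l66 (L l397 (T t3005 N))))))) N)))))))))) (K a46 (M a85 (L l137 (F (T t255 (T t123 (L l26 (T t572 (K a95 (M a127 (F (T t1190 (L l26 (L l84 (T t1191 N)))))) (K a127 (M a95 (F (T t2427 (L l26 (T t2878 N))))) N))))))))) (K a51 (M a16 (L l137 (F (T t112 (L l39 (T t871 (T t872 (K a95 (M a127 (F (T t112 (L l79 (L l513 (T t1168 N)))))) (K a127 (M a95 (F (T t652 (T t3007 N)))) N))))))))) (K a95 (M a127 (F (T t151 (L l79 (T t1168 (L l84 (T t1158 N))))))) (K a127 (M a95 (F (T t122 (T t151 (T t152 (T t153 (K a4 (M a85 (F (L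 l397 (T t3008 (L l138 (T t154 N)))))) (K a8 (M a85 (F (L l56 (T t2878 (L l397 (L l464 (T t3009 N))))))) (K a21 (M a28 (F (T t2739 (T t3010 N)))) (K a25 (M a28 (F (T t2735 (T t3010 N)))) (K a29 (M a16 (F (T t652 (T t3007 N)))) (K a38 (M a16 (F (L l21 (T t871 (L l26 (L l72 (T t3007 N))))))) (K a42 (M a28 (F (L l22 (T t2735 (L l26 (T t3010 N)))))) (K a46 (M a16 (F (T t871 (L l26 (T t3007 N))))) (K a51 (M a16 (F (T t652 (T t3007 N)))) N))))))))))))))) N))))))))))))))))))⟩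
def e0_63__111_46 : Ent 4 := ⟨[a0, a63], [a111, a80], (M a12 (F (T t122 (T t151 (T t152 (T t153 (K a4 (M a60 (F (T t43 (T t398 (T t448 N))))) (K a8 (M a60 (F (T t67 (T t398 (L l52 (L l56 (T t448 N))))))) (K a21 (M a192 (F (T t468 (L l15 (L l347 (T t450 (L l15 (L l347 (T t157 N))))))))) (K a25 (M a192 (F (T t449 (L l15 (T t450 (L l137 (T t21 N))))))) (K a29 (M a192 (F (T t449 (L l137 (L l371 (T t21 (L l104 (T t160 N)))))))) (K a38 (M a192 (F (T t468 (T t450 (L l137 (T t21 N)))))) (K a42 (M a192 (F (T t449 (T t450 (L l56 (T t157 N)))))) (K a46 (M a192 (F (T t449 (L l137 (T t21 (L l26 (L l104 (L l408 (T t160 N))))))))) (K a51 (M a192 (F (T t57 (L l513 (T t156 (L l415 (T t450 N))))))) N)))))))))))))))⟩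
def e0_63__111_47 : Ent 4 := ⟨[a0, a63], [a111, a81], (M a12 (F (T t122 (L l341 (T t151 (T t152 (T t153 (K a4 (M a60 (F (T t43 (T t398 (L l341 (T t448 N)))))) (K a8 (M a60 (F (T t398 (T t67 (L l52 (L l56 (L l341 (T t448 N)))))))) (K a21 (M a192 (F (T t468 (L l15 (L l347 (T t450 (L l15 (L l347 (T t157 N))))))))) (K a25 (M a192 (F (T t449 (L l15 (T t450 (L l137 (T t21 N))))))) (K a29 (M a192 (F (T t449 (L l137 (L l371 (T t21 (L l104 (T t160 N)))))))) (K a38 (M a192 (F (T t468 (T t450 (L l137 (T t21 N)))))) (K a42 (M a192 (F (T t449 (T t450 (L l56 (T t157 N)))))) (K a46 (M a192 (F (T t449 (L l137 (T t21 (L l26 (L l104 (L l408 (T t160 N))))))))) (K a51 (M a192 (F (T t57 (L l513 (T t156 (L l415 (T t450 N))))))) N))))))))))))))))⟩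
def e0_63__111_48 : Ent 4 := ⟨[a0, a63], [a111, a82], (M a149 (F (T t5 (T t175 (T t176 (L l104 (T t177 (K a192 (M a53 (F (T t178 (L l236 (L l296 (T t180 (L l236 (L l397 (T t179 N))))))))) (K a21 (M a240 (F (T t1090 (L l104 (L l121 (T t1091 (L l86 (L l397 (T t1207 N))))))))) (K a85 (M a48 (F (T t1 (T t184 (L l104 (L l121 (L l144 (L l453 (T t13 N))))))))) (K a213 (Fr a106 a192 l519 (Fr a42 a21 l68 (Fr a170 a234 l390 (Fr a255 a85 l476 (V t582))))) (K a42 (M a240 (F (T t1090 (L l104 (L l121 (L l390 (T t1091 (L l86 (L l397 (T t1207 N)))))))))) (K a106 (M a101 (F (L l390 (T t1208 (L l397 (L l498 (T t1209 (L l390 (L l397 (L l498 (T t1210 (L l390 (L l498 (T t1211 (L l498 (T t1212 N)))))))))))))))) (K a170 (M a48 (F (T t184 (L l462 (T t1 (L l104 (L l121 (L l390 (L l453 (T t13 N)))))))))) (K a191 (M a16 (F (T t97 (L l213 (T t1213 (L l86 (L l213 (T t191 N)))))))) (K a255 (M a16 (F (T t112 (L l289 (T t1213 (L l86 (L l289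 (L l296 (T t191 N))))))))) N))))))))))))))))⟩
def e0_63__111_49 : Ent 4 := ⟨[a0, a63], [a111, a83], (M a149 (F (T t5 (T t175 (T t176 (L l104 (T t177 (K a192 (M a53 (F (T t178 (L l236 (L l296 (T t180 (L l236 (L l397 (T t179 N))))))))) (K a21 (M a240 (F (T t1090 (L l104 (T t1091 (L l86 (L l397 (T t1207 N)))))))) (K a85 (M a48 (F (T t1 (T t184 (L l104 (L l144 (T t13 N))))))) (K a213 (Fr a106 a192 l519 (Fr a42 a21 l68 (Fr a170 a234 l390 (Fr a255 a85 l476 (V t582))))) (K a42 (M a240 (F (T t1090 (L l104 (L l390 (T t1091 (L l86 (L l397 (T t1207 N))))))))) (K a106 (M a101 (F (L l390 (T t1208 (L l397 (L l498 (T t1209 (L l390 (L l397 (L l498 (T t1210 (L l390 (L l498 (T t1211 (L l498 (T t1212 N)))))))))))))))) (K a170 (M a48 (F (T t184 (L l462 (T t1 (L l104 (L l390 (T t13 N)))))))) (K a191 (M a16 (F (T t97 (L l213 (T t1213 (L l86 (L l213 (T t191 N)))))))) (K a255 (M a16 (F (T t112 (L l289 (T t1213 (L l86 (L l289 (L l296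 (T t191 N))))))))) N))))))))))))))))⟩
def e0_63__111_50 : Ent 4 := ⟨[a0, a63], [a111, a85], (M a12 (F (T t153 (L l347 (T t122 (L l365 (T t151 (L l347 (L l458 (T t152 (K a4 (M a60 (L l458 (F (T t43 (T t398 (L l365 (T t448 (K a166 (M a247 (F (T t43 (L l408 (T t680 (L l365 (L l408 (T t448 N)))))))) (K a247 (M a166 (F (T t43 (L l310 (T t2470 N))))) N))))))))) (K a8 (M a60 (F (T t398 (L l347 (L l350 (T t67 (L l52 (L l56 (L l365 (T t448 N)))))))))) (K a21 (M a149 (F (T t958 (L l104 (L l144 (T t648 (L l50 (L l91 (L l137 (L l144 (L l458 (T t2471 (L l50 (L l91 (L l458 (T t2472 N)))))))))))))))) (K a25 (M a192 (F (T t156 (L l15 (L l347 (T t450 (L l104 (L l144 (L l458 (T t2473 N)))))))))) (K a29 (M a48 (F (T t1580 (L l15 (L l347 (T t1 (L l455 (T t866 N)))))))) (K a38 (M a192 (F (T t468 (L l347 (T t450 (L l26 (L l50 (L l104 (L l144 (L l458 (T t2473 N))))))))))) (K a42 (M a192 (F (T t156 (L l347 (T t450 (L l26 (L l104 (L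 l144 (L l390 (L l458 (T t2473 N))))))))))) (K a46 (M a48 (F (T t443 (L l347 (T t1 (L l26 (L l455 (T t866 N)))))))) (K a51 (M a192 (F (L l513 (T t156 (L l347 (L l415 (T t450 (L l104 (L l144 (L l458 (T t2473 N))))))))))) N)))))))))))))))))))⟩
def e0_63__111_51 : Ent 4 := ⟨[a0, a63], [a111, a86], (M a48 (F (T t1 (T t2 (L l397 (T t3 (T t0 (K a16 (M a60 (F (T t64 (L l14 (L l18 (L l477 (T t67 (L l351 (T t65 N))))))))) (K a32 (M a60 (F (T t64 (L l477 (T t67 (L l24 (L l28 (L l351 (T t65 N))))))))) (K a21 (M a192 (F (T t27 (L l104 (L l142 (T t206 (L l47 (L l347 (L l351 (T t29 N)))))))))) (K a37 (M a192 (F (T t19 (L l104 (L l142 (T t206 (L l137 (L l351 (T t21 N))))))))) (K a53 (M a192 (F (T t19 (L l137 (L l351 (L l491 (T t21 (L l104 (L l142 (T t521 N)))))))))) (K a26 (M a192 (F (T t27 (L l54 (L l104 (L l142 (T t206 (L l137 (L l351 (T t21 N)))))))))) (K a42 (M a192 (F (T t19 (L l54 (L l104 (L l142 (L l390 (T t206 (L l28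 (L l351 (T t29 N))))))))))) (K a58 (M a192 (F (T t19 (L l137 (L l351 (T t21 (L l54 (L l104 (L l142 (L l498 (T t521 N))))))))))) (K a15 (M a192 (F (T t55 (L l104 (L l142 (L l325 (T t206 (L l137 (L l351 (L l469 (T t21 N))))))))))) N))))))))))))))))⟩
def e0_63__111_52 : Ent 4 := ⟨[a0, a63], [a111, a87], (M a48 (F (T t1 (T t2 (L l397 (T t3 (T t0 (K a16 (M a60 (F (T t64 (L l14 (L l18 (L l475 (T t67 (L l349 (T t65 N))))))))) (K a32 (M a60 (F (T t64 (L l475 (T t67 (L l24 (L l28 (L l349 (T t65 N))))))))) (K a21 (M a192 (F (L l104 (T t206 (T t27 (L l47 (L l347 (L l367 (T t29 N))))))))) (K a37 (M a192 (F (T t19 (L l104 (T t206 (L l137 (L l143 (L l475 (T t21 N))))))))) (K a53 (M a192 (F (T t19 (L l137 (L l143 (L l475 (L l491 (T t21 (L l104 (L l367 (T t521 N))))))))))) (K a26 (M a192 (F (T t27 (L l54 (L l104 (T t206 (L l137 (L l143 (L l475 (T t21 N)))))))))) (K a42 (M a192 (F (T t19 (L l54 (L l104 (L l390 (T t206 (L l28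 (L l367 (T t29 N)))))))))) (K a58 (M a192 (F (T t19 (L l137 (L l143 (L l475 (T t21 (L l54 (L l104 (L l367 (L l498 (T t521 N)))))))))))) (K a15 (M a106 (F (T t2289 (T t306 N)))) N))))))))))))))))⟩
def e0_63__111_53 : Ent 4 := ⟨[a0, a63], [a111, a90], (M a12 (F (T t122 (T t151 (T t152 (T t153 (K a4 (M a60 (F (T t43 (L l480 (L l483 (T t398 (T t448 N))))))) (K a8 (M a60 (F (T t67 (L l480 (L l483 (T t398 (L l52 (L l56 (T t448 N))))))))) (K a21 (M a192 (F (T t836 (L l15 (L l347 (L l375 (T t450 (L l15 (L l347 (L l375 (T t157 N))))))))))) (K a25 (M a192 (F (T t449 (L l15 (L l375 (T t450 (L l137 (L l375 (T t21 N))))))))) (K a29 (M a192 (F (T t449 (L l137 (L l371 (L l375 (T t21 (L l104 (L l130 (T t160 N)))))))))) (K a38 (M a192 (F (T t836 (L l375 (T t450 (L l137 (L l375 (T t21 N)))))))) (K a42 (M a192 (F (T t449 (L l375 (T t450 (L l56 (L l375 (T t157 N)))))))) (K a46 (M a192 (F (T t449 (L l137 (L l375 (T t21 (L l26 (L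 l104 (L l130 (L l408 (T t160 N))))))))))) (K a51 (M a192 (F (T t1725 (L l375 (L l415 (T t450 (L l137 (L l375 (L l439 (T t21 N)))))))))) N)))))))))))))))⟩
def e0_63__111_54 : Ent 4 := ⟨[a0, a63], [a111, a91], (M a149 (F (T t5 (T t175 (T t176 (L l104 (T t177 (K a192 (M a53 (F (T t178 (L l236 (L l296 (T t180 (L l236 (L l397 (T t179 N))))))))) (K a21 (M a240 (F (T t1090 (L l104 (T t1091 (L l397 (T t1207 N))))))) (K a85 (M a48 (F (T t184 (L l481 (T t1 (L l104 (L l144 (T t13 N)))))))) (K a213 (Fr a106 a192 l519 (Fr a42 a21 l68 (Fr a170 a234 l390 (Fr a255 a85 l476 (V t582))))) (K a42 (M a240 (F (T t1090 (L l104 (L l390 (T t1091 (L l397 (T t1207 N)))))))) (K a106 (M a101 (F (L l397 (L l498 (T t1209 (L l390 (T t1208 (L l390 (L l397 (L l498 (T t1210 (L l373 (L l390 (L l498 (T t1211 (L l498 (T t1212 N))))))))))))))))) (K a170 (M a48 (F (T t184 (L l462 (L l481 (T t1 (L l104 (L l390 (T t13 N))))))))) (K a191 (M a16 (F (T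 t112 (L l213 (T t1213 (L l213 (T t191 N))))))) (K a255 (M a16 (F (T t112 (L l289 (T t1213 (L l289 (L l296 (T t191 N)))))))) N))))))))))))))))⟩
def e0_63__111_55 : Ent 4 := ⟨[a0, a63], [a111, a95], (M a12 (L l137 (F (T t122 (T t151 (T t152 (T t153 (K a4 (M a15 (L l137 (F (T t716 (L l397 (T t2544 (L l1 (L l50 (T t2545 (K a79 (M a127 (F (T t715 (L l84 (T t1158 N))))) (K a127 (M a79 (F (T t2576 (L l144 (T t4501 N))))) N))))))))))) (K a8 (M a15 (L l137 (F (T t731 (L l397 (T t2544 (T t2545 (K a79 (M a127 (F (T t715 (L l84 (L l464 (T t1158 N)))))) (K a127 (M a79 (F (T t2576 (L l144 (L l320 (T t4501 N)))))) N))))))))) (K a21 (M a192 (L l137 (F (T t156 (L l15 (L l347 (T t450 (L l15 (L l347 (T t157 (K a79 (M a127 (F (T t3693 (L l79 (T t1168 N))))) (K a127 (M a79 (F (T t468 (L l113 (L l347 (T t467 (L l50 (L l104 (L l144 (T t2473 N)))))))))) N)))))))))))) (K a25 (M a13 (L l137 (F (T t3911 (T t3914 (L l53 (L l56 (T t3915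 (K a79 (M a127 (F (T t3911 (L l84 (T t1158 N))))) (K a127 (M a79 (F (T t4502 (L l53 (L l56 (T t3915 N)))))) N)))))))))) (K a29 (M a15 (L l137 (F (T t2591 (T t716 (L l59 (L l397 (T t722 (K a79 (M a127 (F (T t3936 (L l84 (T t1158 N))))) (K a127 (M a79 (F (T t716 (L l138 (T t4503 N))))) N)))))))))) (K a38 (M a15 (L l137 (F (T t717 (L l26 (T t716 (L l26 (L l397 (T t2544 (K a79 (M a127 (F (T t3936 (L l84 (T t1158 N))))) (K a127 (M a79 (F (T t2576 (L l144 (T t4501 N))))) N))))))))))) (K a42 (M a192 (L l137 (F (T t449 (T t450 (L l56 (T t157 (K a79 (M a127 (F (T t1170 (L l79 (T t1168 N))))) (K a127 (M a79 (F (T t450 (L l56 (T t468 (L l26 (L l104 (L l144 (L l390 (T t2473 N)))))))))) N))))))))) (K a46 (M a15 (L l137 (F (T t731 (T t717 (L l23 (L l26 (L l397 (T t722 (K a79 (M a127 (F (T t3936 (L l84 (T t1158 N))))) (K a127 (M a79 (F (T t731 (L l138 (T t4503 N))))) N))))))))))) (K a51 (M a13 (L l137 (F (T t4311 (L l39 (T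 t3911 (T t3915 (K a79 (M a127 (F (T t4504 (L l79 (L l513 (T t1168 N)))))) (K a127 (M a79 (F (T t4502 (T t3915 N)))) N))))))))) (K a79 (M a127 (F (T t151 (L l79 (T t1168 (L l84 (T t1158 N))))))) (K a127 (M a79 (F (T t122 (T t151 (T t152 (T t153 (K a4 (M a13 (F (T t4502 (L l1 (T t3915 N))))) (K a8 (M a13 (F (T t4502 (L l56 (T t3915 N))))) (K a21 (M a64 (F (T t4505 (L l104 (T t4506 N))))) (K a25 (M a64 (F (T t4507 (L l104 (T t4506 N))))) (K a29 (M a15 (F (T t716 (L l138 (T t4503 N))))) (K a38 (M a64 (F (T t4505 (L l104 (T t4506 N))))) (K a42 (M a64 (F (T t4507 (L l104 (L l390 (T t4506 N)))))) (K a46 (M a15 (F (T t731 (L l138 (T t4503 N))))) (K a51 (M a64 (F (L l487 (T t4505 (L l104 (L l415 (T t4506 N))))))) N))))))))))))))) N))))))))))))))))))⟩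
def e0_63__111_56 : Ent 4 := ⟨[a0, a63], [a111, a96], (M a106 (F (T t393 (L l116 (L l484 (T t586 (L l484 (T t305 (L l137 (T t564 (K a192 (M a48 (F (T t48 (L l116 (L l236 (L l376 (T t579 (L l236 (L l296 (T t306 (L l236 (L l296 (L l397 (T t4765 N)))))))))))))) (K a21 (M a12 (F (L l484 (T t2475 (L l116 (L l347 (T t2305 (L l15 (L l116 (T t2415 N)))))))))) (K a85 (M a12 (F (T t2414 (L l365 (T t151 (L l116 (L l347 (T t2305 N)))))))) (K a149 (M a12 (F (T t151 (L l116 (L l371 (T t2415 (L l347 (L l371 (T t2474 (L l347 (T t2476 N))))))))))) (K a42 (M a12 (F (T t2414 (L l56 (L l116 (T t2415 (L l116 (T t2305 N)))))))) (K a170 (M a8 (F (T t414 (L l220 (T t4766 (L l208 (T t4767 N))))))) (K a234 (Fr a149 a192 l519 (Fr a21 a42 l68 (Fr a85 a213 l347 (Fr a255 a170 l476 (V t875))))) (K a127 (M a204 (L l137 (F (T t4768 (L l96 (L l113 (T t4769 (T t4770 (K a79 (M a95 (F (T t4770 (L l96 (T t4771 N))))) (K a95 (M a79 (F (T t4768 (L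 l96 (T t4772 (T t4770 N)))))) N)))))))))) (K a255 (M a8 (F (T t428 (L l290 (T t4766 (L l265 (L l296 (T t4773 N)))))))) N)))))))))))))))))))⟩
def e0_63__111_57 : Ent 4 := ⟨[a0, a63], [a111, a97], (M a149 (F (T t5 (T t175 (T t176 (L l104 (T t177 (K a192 (M a53 (F (L l339 (T t982 (L l236 (L l397 (T t179 (L l236 (L l296 (T t180 N)))))))))) (K a21 (M a240 (F (T t1090 (L l104 (L l121 (L l488 (T t1091 (L l397 (T t1207 N))))))))) (K a85 (M a48 (F (T t1 (T t184 (L l104 (L l121 (L l144 (T t13 N)))))))) (K a213 (Fr a106 a192 l519 (Fr a42 a21 l68 (Fr a170 a234 l390 (Fr a255 a85 l476 (V t582))))) (K a42 (M a240 (F (T t1090 (L l104 (L l121 (L l390 (L l488 (T t1091 (L l397 (T t1207 N)))))))))) (K a106 (M a101 (F (L l390 (T t1208 (L l397 (L l498 (T t1209 (L l390 (L l498 (T t4737 (L l380 (L l390 (L l498 (T t1211 (L l380 (L l498 (T t1212 N))))))))))))))))) (K a170 (M a48 (F (T t184 (L l462 (T t1 (L l104 (L l121 (L l390 (T t13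 N))))))))) (K a191 (M a16 (F (L l380 (T t97 (L l213 (T t191 (L l213 (L l380 (T t1213 N))))))))) (K a255 (M a16 (F (L l380 (T t112 (L l289 (L l296 (T t191 (L l289 (L l380 (T t1213 N)))))))))) N))))))))))))))))⟩
def e0_63__111_58 : Ent 4 := ⟨[a0, a63], [a111, a98], (M a48 (F (T t1 (T t2 (L l397 (T t3 (T t0 (K a16 (M a60 (F (T t43 (L l486 (L l489 (T t64 (T t65 N))))))) (K a32 (M a60 (F (T t67 (L l486 (L l489 (T t64 (L l24 (L l28 (T t65 N))))))))) (K a21 (M a192 (F (T t27 (L l102 (L l104 (T t206 (L l47 (L l347 (T t29 N))))))))) (K a37 (M a192 (F (T t27 (L l102 (L l104 (T t206 (L l137 (T t21 N)))))))) (K a53 (M a192 (F (T t27 (L l137 (L l491 (T t21 (L l102 (L l104 (T t521 N))))))))) (K a26 (M a192 (F (T t27 (L l54 (L l102 (L l104 (T t206 (L l137 (T t21 N))))))))) (K a42 (M a192 (F (T t27 (L l54 (L l102 (L l104 (L l390 (T t206 (L l28 (T t29 N)))))))))) (K a58 (M a192 (F (T t35 (T t27 (L l54 (L l102 (L l104 (L l498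 (T t521 N))))))))) (K a15 (M a192 (F (T t57 (L l483 (T t27 (L l102 (L l104 (L l325 (T t206 N))))))))) N))))))))))))))))⟩
def e0_63__111_59 : Ent 4 := ⟨[a0, a63], [a111, a99], (M a48 (L l103 (F (T t1 (T t2 (L l397 (T t3 (T t0 (K a16 (M a149 (L l103 (F (T t5 (T t184 (T t6 (K a103 (M a107 (F (T t1240 (T t6 N)))) (K a107 (M a103 (F (T t424 (T t4645 N)))) N)))))))) (K a32 (M a149 (L l103 (F (T t175 (T t184 (L l28 (T t6 (K a103 (M a107 (F (T t1240 (L l28 (T t6 N))))) (K a107 (M a103 (F (T t1007 (L l400 (T t4645 N))))) N))))))))) (K a21 (M a101 (L l103 (F (T t687 (L l18 (L l397 (T t334 (L l18 (L l397 (T t314 (K a103 (M a107 (F (T t2181 (L l99 (L l493 (T t4774 N)))))) (K a107 (M a103 (F (T t312 (T t4646 N)))) N)))))))))))) (K a37 (M a149 (L l103 (F (T t184 (L l28 (T t5 (L l397 (T t14 (K a103 (M a107 (F (T t1240 (L l397 (L l403 (T t14 N)))))) (K a107 (M a103 (F (L l28 (T t5 (T t4645 N))))) N)))))))))) (K a53 (M a192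 (L l103 (F (T t19 (L l137 (L l491 (T t21 (L l104 (T t521 (K a103 (M a107 (F (T t19 (L l491 (L l493 (T t1172 N)))))) (K a107 (M a103 (F (T t19 (L l47 (L l491 (T t35 (L l98 (L l104 (T t521 N))))))))) N))))))))))) (K a26 (M a101 (L l103 (F (T t312 (L l54 (L l96 (T t440 (L l18 (L l54 (L l397 (T t314 (K a103 (M a107 (F (L l511 (T t312 (L l54 (L l99 (L l493 (T t4774 N)))))))) (K a107 (M a103 (F (T t312 (L l54 (T t4646 N))))) N))))))))))))) (K a42 (M a101 (L l103 (F (T t2181 (L l54 (T t687 (L l54 (L l397 (T t314 (K a103 (M a107 (F (T t2181 (L l54 (L l99 (L l493 (T t4774 N))))))) (K a107 (M a103 (F (T t2181 (L l54 (T t4646 N))))) N))))))))))) (K a58 (M a192 (L l103 (F (T t19 (L l137 (T t21 (L l54 (L l104 (L l498 (T t521 (K a103 (M a107 (F (T t19 (L l493 (T t1172 N))))) (K a107 (M a103 (F (T t35 (T t19 (L l54 (L l98 (L l104 (L l498 (T t521 N))))))))) N)))))))))))) (K a15 (M a52 (L l103 (F (T t491 (L l3 (T t82 (T t84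 (K a103 (M a107 (F (T t4775 (L l96 (L l481 (L l493 (T t1173 N))))))) (K a107 (M a103 (F (T t4776 (T t4777 N)))) N))))))))) (K a103 (M a107 (F (T t2 (L l96 (L l493 (T t1173 (K a16 (M a192 (F (L l137 (T t21 (L l96 (L l487 (L l493 (L l511 (T t4778 N))))))))) (K a32 (M a192 (F (T t35 (L l96 (L l380 (L l487 (L l493 (L l511 (T t4778 N))))))))) N)))))))) (K a107 (M a103 (F (T t1 (T t2 (L l397 (L l409 (T t3 (T t0 (K a16 (M a149 (F (T t424 (T t4645 N)))) (K a32 (M a149 (F (T t1007 (L l400 (T t4645 N))))) (K a21 (M a100 (F (T t4655 (L l105 (T t4656 N))))) (K a37 (M a100 (F (T t4657 (L l105 (T t4656 N))))) (K a53 (M a4 (F (T t518 (T t2229 N)))) (K a26 (M a4 (F (L l12 (T t528 (L l54 (L l72 (T t2229 N))))))) (K a42 (M a100 (F (T t4657 (L l54 (L l105 (T t4656 N)))))) (K a58 (M a4 (F (T t528 (L l54 (T t2229 N))))) (K a15 (M a4 (F (T t518 (T t2229 N)))) N))))))))))))))))) N)))))))))))))))))))⟩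
def e0_63__111_60 : Ent 4 := ⟨[a0, a63], [a111, a101], (M a106 (F (T t586 (T t305 (L l137 (T t778 (L l137 (L l491 (T t564 (K a192 (M a46 (F (T t4029 (L l272 (T t4030 (L l99 (L l272 (L l296 (T t4031 N))))))))) (K a21 (M a240 (F (T t4779 (L l347 (L l491 (L l512 (T t4780 (L l137 (T t4781 N))))))))) (K a85 (M a12 (L l123 (F (T t2304 (L l365 (T t151 (L l347 (L l491 (T t2305 (K a69 (M a117 (F (T t2414 (T t153 (L l84 (L l347 (L l491 (T t2305 N)))))))) (K a117 (M a69 (F (T t2304 (L l141 (L l494 (T t4782 N)))))) N))))))))))) (K a149 (M a12 (L l491 (F (T t151 (L l371 (T t2415 (L l347 (L l371 (T t2474 (L l347 (T t2476 (K a197 (M a53 (F (L l311 (T t982 (L l371 (T t2415 N)))))) (K a53 (M a197 (F (T t151 (L l371 (T t2415 (L l47 (L l347 (L l371 (T t2474 (L l47 (L l347 (T t2476 N)))))))))))) N))))))))))))) (K a42 (M a240 (F (T t4779 (L l491 (L l512 (T t817 (L l137 (T t4781 N)))))))) (K a170 (M a32 (F (L l397 (T t219 (L l220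 (L l491 (T t812 (L l383 (T t4783 (L l512 (T t4784 N))))))))))) (K a234 (Fr a149 a192 l519 (Fr a21 a42 l68 (Fr a85 a213 l347 (Fr a255 a170 l476 (V t875))))) (K a127 (M a240 (L l137 (F (T t4779 (L l491 (L l512 (T t817 (L l397 (T t4785 (K a79 (M a95 (L l151 (F (L l114 (T t4786 (L l491 (L l512 (T t817 (L l84 (T t4787 (K a112 (M a90 (L l114 (F (T t4788 (T t4789 (K a117 (Fr a122 a181 l447 (V t4789)) (K a122 (M a117 (F (T t4789 (L l491 (T t4790 N))))) N))))))) (K a90 (M a112 (F (L l84 (T t4791 (L l397 (T t4792 (L l325 (L l462 (L l491 (T t1558 N)))))))))) N)))))))))))) (K a95 (M a79 (F (T t4779 (L l491 (L l512 (T t817 (L l94 (T t4787 N)))))))) N))))))))))) (K a255 (M a240 (F (L l296 (T t4787 (L l440 (L l491 (L l512 (T t817 (L l383 (T t4793 N)))))))))) N))))))))))))))))))⟩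
def e0_63__111_61 : Ent 4 := ⟨[a0, a63], [a111, a102], (M a48 (F (T t1 (T t2 (L l397 (T t3 (T t0 (K a16 (M a60 (F (T t43 (L l510 (L l513 (T t64 (T t65 N))))))) (K a32 (M a60 (F (T t67 (L l510 (L l513 (T t64 (L l24 (L l28 (T t65 N))))))))) (K a21 (M a192 (F (T t27 (L l102 (L l104 (T t206 (L l47 (L l347 (L l495 (T t29 N)))))))))) (K a37 (M a192 (F (T t19 (L l102 (L l104 (T t206 (L l137 (L l495 (T t21 N))))))))) (K a53 (M a192 (F (T t19 (L l137 (L l491 (L l495 (T t21 (L l102 (L l104 (T t521 N)))))))))) (K a26 (M a192 (F (T t27 (L l54 (L l102 (L l104 (T t206 (L l137 (L l495 (T t21 N)))))))))) (K a42 (M a192 (F (T t19 (L l54 (L l102 (L l104 (L l390 (T t206 (L l28 (L l495 (T t29 N))))))))))) (K a58 (M a192 (F (T t19 (L l137 (L l495 (T t21 (L l54 (L l102 (L l104 (L l498 (T t521 N))))))))))) (K a15 (M a192 (F (T t55 (L l102 (L l104 (L l325 (T t206 (L l137 (L l469 (L l495 (T t21 N))))))))))) N))))))))))))))))⟩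
def e0_63__111_62 : Ent 4 := ⟨[a0, a63], [a111, a103], (M a60 (L l103 (F (T t67 (T t43 (T t68 (T t69 (K a20 (M a149 (L l103 (F (T t1034 (T t25 (T t1256 (K a99 (M a107 (F (T t4327 (L l104 (T t1245 N))))) (K a107 (M a99 (F (T t176 (L l99 (L l499 (T t4794 N)))))) N)))))))) (K a40 (M a149 (L l103 (F (T t1022 (L l22 (T t5 (L l22 (T t1256 (K a99 (M a107 (F (T t4327 (L l22 (L l104 (T t1245 N)))))) (K a107 (M a99 (F (T t1007 (L l99 (L l499 (T t4794 N)))))) N)))))))))) (K a21 (M a105 (L l103 (F (T t1128 (L l11 (T t404 (L l11 (T t405 (K a99 (M a107 (F (T t4328 (T t4329 N)))) (K a107 (M a99 (F (T t4795 (L l11 (L l391 (T t406 N)))))) N)))))))))) (K a41 (M a149 (L l103 (F (T t1034 (L l22 (T t25 (T t462 (K a99 (M a107 (F (T t4327 (L l22 (L l104 (T t1245 N)))))) (K a107 (M a99 (F (L l22 (T t5 (L l99 (L l499 (T t4794 N))))))) N))))))))) (K a61 (M a192 (L l103 (F (T t72 (L l65 (L l515 (T t35 (L l104 (L l493 (T t80 (K a99 (M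 a107 (F (T t2723 (L l65 (L l493 (T t2724 N)))))) (K a107 (M a99 (F (T t77 (L l65 (L l515 (T t35 (L l98 (L l104 (T t2718 N))))))))) N)))))))))))) (K a22 (M a105 (L l103 (F (T t420 (L l11 (T t404 (L l11 (L l66 (T t405 (K a99 (M a107 (F (T t4328 (T t4329 N)))) (K a107 (M a99 (F (L l99 (L l348 (T t4796 (L l11 (L l66 (L l391 (T t406 N))))))))) N))))))))))) (K a42 (M a105 (L l103 (F (T t420 (T t404 (L l66 (T t405 (K a99 (M a107 (F (T t4328 (T t4329 N)))) (K a107 (M a99 (F (T t4795 (L l66 (L l391 (T t406 N)))))) N))))))))) (K a62 (M a192 (L l103 (F (T t72 (T t35 (L l66 (L l104 (L l493 (L l516 (T t80 (K a99 (M a107 (F (T t2725 (L l66 (L l493 (T t1174 N)))))) (K a107 (M a99 (F (T t35 (T t77 (L l66 (L l98 (L l104 (L l516 (T t2718 N))))))))) N)))))))))))) (K a3 (M a149 (L l103 (F (T t25 (L l309 (T t461 (T t462 (K a99 (M a107 (F (T t4327 (L l104 (L l475 (T t1245 N)))))) (K a107 (M a99 (F (T t25 (L l99 (L l499 (T t4794 N))))))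 N))))))))) (K a99 (M a107 (F (T t43 (L l493 (T t2727 (L l105 (L l493 (T t1159 N)))))))) (K a107 (M a99 (F (T t43 (L l391 (T t67 (T t68 (T t69 (K a20 (M a149 (F (T t176 (L l99 (L l499 (T t4794 N)))))) (K a40 (M a149 (F (T t1007 (L l99 (L l499 (T t4794 N)))))) (K a21 (M a105 (F (T t4795 (L l11 (L l391 (T t406 N)))))) (K a41 (M a149 (F (L l22 (T t5 (L l99 (L l499 (T t4794 N))))))) (K a61 (M a170 (F (T t456 (L l99 (L l391 (T t4797 N)))))) (K a22 (M a105 (F (L l99 (L l348 (T t4796 (L l11 (L l66 (L l391 (T t406 N))))))))) (K a42 (M a105 (F (T t4795 (L l66 (L l391 (T t406 N)))))) (K a62 (M a170 (F (T t317 (L l99 (L l391 (T t4797 N)))))) (K a3 (M a149 (F (T t25 (L l99 (L l499 (T t4794 N)))))) N)))))))))))))))) N))))))))))))))))))⟩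
def e0_63__111_63 : Ent 4 := ⟨[a0, a63], [a111, a106], (M a60 (L l104 (F (T t68 (L l393 (T t67 (L l390 (T t43 (L l390 (L l516 (T t69 (K a20 (M a48 (L l104 (F (T t64 (L l11 (T t1 (L l11 (T t235 (K a96 (M a101 (F (T t4798 (L l11 (T t1 N))))) (K a101 (M a96 (F (L l404 (T t4799 (L l491 (T t64 N)))))) N)))))))))) (K a40 (M a48 (L l104 (F (T t1 (T t64 (L l52 (T t235 (K a96 (M a101 (F (T t64 (L l397 (T t334 N))))) (K a101 (M a96 (F (L l411 (T t4800 (L l491 (T t64 N)))))) N))))))))) (K a21 (M a255 (L l104 (F (T t1565 (L l390 (T t1566 (L l11 (L l144 (L l347 (L l516 (T t1567 (K a96 (M a101 (F (T t1565 (L l390 (T t4801 N))))) (K a101 (M a96 (F (T t1565 (L l390 (L l404 (T t2967 (L l11 (L l123 (L l144 (L l347 (L l516 (T t1567 N)))))))))))) N))))))))))))) (K a41 (M a48 (L l104 (F (T t489 (L l65 (T t1 (L l65 (T t64 (K a96 (M a101 (F (T t489 (L l99 (L l498 (L l516 (T t4802 N))))))) (K a101 (M a96 (F (L l411 (T t4800 (L l65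 (L l491 (T t64 N))))))) N)))))))))) (K a61 (M a48 (L l104 (F (T t247 (L l35 (L l65 (T t1 (L l390 (L l498 (T t65 (K a96 (M a101 (F (T t489 (L l390 (L l498 (T t4803 N)))))) (K a101 (M a96 (F (L l404 (T t4799 (L l35 (L l65 (L l393 (L l491 (T t44 N))))))))) N)))))))))))) (K a22 (M a48 (L l104 (F (T t64 (L l11 (T t1 (T t247 (K a96 (M a101 (F (T t64 (L l397 (T t334 N))))) (K a101 (M a96 (F (L l411 (T t4800 (L l491 (T t64 N)))))) N))))))))) (K a42 (M a170 (L l104 (F (T t457 (L l144 (T t1570 (L l66 (L l98 (L l516 (T t1571 (L l66 (L l98 (L l144 (L l516 (T t1572 (K a96 (M a101 (F (T t457 (L l498 (T t4804 (L l397 (T t4805 N))))))) (K a101 (M a96 (F (T t2691 (L l123 (L l144 (T t1570 (L l66 (L l98 (L l516 (T t1571 (L l66 (L l98 (L l144 (L l516 (T t1572 N))))))))))))))) N))))))))))))))))) (K a62 (M a52 (L l104 (L l516 (F (T t3773 (T t1522 (L l66 (L l390 (T t3774 (L l66 (L l390 (T t4806 (K a96 (M a101 (L l516 (F (T t3773 (L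 l96 (L l98 (T t4807 (L l98 (L l432 (T t4808 (K a194 (Fr a150 a199 l494 (V t1530)) (K a150 (M a194 (F (T t3773 (L l66 (L l376 (L l390 (T t1525 (L l66 (L l390 (T t3774 (L l66 (L l390 (T t4806 N))))))))))))) N)))))))))))) (K a101 (M a96 (L l516 (F (L l151 (T t4809 (L l66 (L l386 (L l390 (L l491 (T t3774 (L l66 (L l390 (T t4806 (K a194 (M a150 (F (L l432 (T t1135 (L l151 (L l411 (T t4810 N))))))) (K a150 (M a194 (F (L l151 (T t4809 (L l66 (L l386 (L l390 (L l491 (T t3774 (L l66 (L l390 (T t4806 N)))))))))))) N))))))))))))))) (K a194 (M a150 (L l104 (F (L l98 (T t4811 (L l66 (L l390 (T t3774 (K a96 (Fr a101 a199 l494 (V t1530)) (K a101 (M a96 (F (L l432 (T t1135 (L l151 (L l411 (T t4810 N))))))) N)))))))))) (K a150 (M a194 (L l104 (F (T t3773 (T t1522 (L l66 (L l390 (T t3774 (L l66 (L l390 (T t4806 (K a96 (M a101 (F (T t3773 (L l66 (L l376 (L l390 (T t1525 (L l66 (L l390 (T t3774 (L l66 (L l390 (T t4806 N)))))))))))))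 (K a101 (M a96 (F (L l151 (T t4809 (L l66 (L l386 (L l390 (L l491 (T t3774 (L l66 (L l390 (T t4806 N)))))))))))) N))))))))))))) N)))))))))))))))) (K a3 (M a32 (L l104 (F (T t820 (L l9 (T t1573 (L l408 (T t1569 (K a96 (M a101 (F (T t4812 (L l144 (L l307 (L l397 (T t4813 N))))))) (K a101 (M a96 (F (L l151 (T t4814 (L l383 (L l386 (L l408 (T t1569 N)))))))) N)))))))))) (K a96 (M a101 (F (T t68 (L l393 (T t67 (L l390 (T t43 (L l390 (L l516 (T t69 (K a20 (M a48 (F (T t4798 (L l11 (T t1 N))))) (K a40 (M a48 (F (T t64 (L l397 (T t334 N))))) (K a21 (M a48 (F (L l50 (T t247 (L l99 (L l498 (L l516 (T t4802 N)))))))) (K a41 (M a48 (F (T t489 (L l99 (L l498 (L l516 (T t4802 N))))))) (K a61 (M a48 (F (T t489 (L l390 (L l498 (T t4803 N)))))) (K a22 (M a32 (F (T t4756 (L l144 (L l397 (T t4813 N)))))) (K a42 (M a170 (F (T t457 (L l498 (T t4804 (L l397 (T t4805 N))))))) (K a62 (M a150 (F (T t2363 (L l498 (T t1546 (L l397 (T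 t4815 N))))))) (K a3 (M a32 (F (T t4812 (L l144 (L l307 (L l397 (T t4813 N))))))) N))))))))))))))))))) (K a101 (M a96 (F (T t68 (L l393 (T t67 (L l390 (T t43 (L l390 (L l516 (T t69 (K a20 (M a160 (F (T t4816 (L l11 (L l14 (L l411 (L l491 (T t4817 N)))))))) (K a40 (M a160 (F (T t4816 (L l411 (L l491 (T t4817 N)))))) (K a21 (M a192 (F (T t77 (L l47 (L l491 (L l494 (L l501 (T t4818 N)))))))) (K a41 (M a192 (F (T t77 (L l491 (L l494 (L l501 (T t4818 N))))))) (K a61 (M a192 (F (T t77 (L l35 (L l65 (L l491 (T t4819 N))))))) (K a22 (M a192 (F (T t77 (L l51 (L l491 (L l494 (L l501 (T t4818 N)))))))) (K a42 (M a170 (F (T t2691 (L l123 (L l144 (T t1570 (L l66 (L l98 (L l516 (T t1571 (L l66 (L l98 (L l144 (L l516 (T t1572 N))))))))))))))) (K a62 (M a52 (L l516 (F (L l151 (T t4809 (L l66 (L l386 (L l390 (L l491 (T t3774 (L l66 (L l390 (T t4806 (K a194 (M a150 (F (L l432 (T t1135 (L l151 (L l411 (T t4810 N))))))) (K a150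 (M a194 (F (L l151 (T t4809 (L l66 (L l386 (L l390 (L l491 (T t3774 (L l66 (L l390 (T t4806 N)))))))))))) N))))))))))))))) (K a3 (M a192 (F (T t254 (L l43 (L l491 (L l494 (L l501 (T t4818 N)))))))) N))))))))))))))))))) N))))))))))))))))))))))⟩
def e0_63__111_64 : Ent 4 := ⟨[a0, a63], [a111, a107], (M a48 (L l103 (F (T t1 (T t2 (L l397 (L l409 (T t3 (T t0 (K a16 (M a149 (L l103 (F (T t5 (T t184 (T t6 (K a99 (M a103 (F (T t424 (T t4645 N)))) (K a103 (M a99 (F (T t176 (L l511 (T t184 (T t6 N)))))) N)))))))) (K a32 (M a149 (L l103 (F (T t175 (T t184 (L l28 (T t6 (K a99 (M a103 (F (T t1007 (L l400 (T t4645 N))))) (K a103 (M a99 (F (T t1007 (L l511 (T t184 (L l28 (T t6 N))))))) N))))))))) (K a21 (M a101 (L l103 (F (T t687 (L l18 (L l397 (T t334 (L l18 (L l397 (T t314 (K a99 (M a103 (F (T t312 (T t4646 N)))) (K a103 (M a99 (F (T t2181 (L l98 (L l511 (T t3188 (L l18 (L l397 (L l403 (T t431 N)))))))))) N))))))))))))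 (K a37 (M a51 (L l103 (F (T t4647 (L l47 (T t589 (T t1995 (K a99 (M a103 (F (T t4648 (L l499 (T t4649 N))))) (K a103 (M a99 (F (T t1995 (T t4650 N)))) N))))))))) (K a53 (M a51 (L l103 (F (T t1294 (L l35 (T t1901 (L l35 (L l499 (T t1902 (K a99 (M a103 (F (T t4651 (L l499 (T t4652 (L l499 (T t4653 N))))))) (K a103 (M a99 (F (T t1294 (L l104 (T t4654 N))))) N))))))))))) (K a26 (M a51 (L l103 (F (T t1901 (L l54 (T t1294 (L l54 (L l72 (T t1995 (K a99 (M a103 (F (T t4651 (L l54 (L l354 (L l499 (T t4649 N))))))) (K a103 (M a99 (F (T t3726 (T t4650 N)))) N))))))))))) (K a42 (M a101 (L l103 (F (T t2181 (L l54 (T t687 (L l54 (L l397 (T t314 (K a99 (M a103 (F (T t2181 (L l54 (T t4646 N))))) (K a103 (M a99 (F (T t2181 (L l54 (L l511 (T t687 (L l54 (L l397 (L l403 (T t431 N)))))))))) N))))))))))) (K a58 (M a51 (L l103 (F (T t589 (T t1901 (L l32 (L l54 (L l499 (T t1902 (K a99 (M a103 (F (T t4651 (L l32 (L l54 (L l499 (T t4652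 (L l498 (L l499 (T t4653 N)))))))))) (K a103 (M a99 (F (T t589 (L l104 (T t4654 N))))) N))))))))))) (K a15 (M a4 (L l103 (F (T t129 (L l63 (T t528 (T t520 (K a99 (M a103 (F (T t518 (T t2229 N)))) (K a103 (M a99 (F (T t558 (L l73 (L l493 (L l511 (T t519 (T t520 N)))))))) N))))))))) (K a99 (M a103 (F (T t1 (T t2 (L l397 (L l409 (T t3 (T t0 (K a16 (M a149 (F (T t424 (T t4645 N)))) (K a32 (M a149 (F (T t1007 (L l400 (T t4645 N))))) (K a21 (M a100 (F (T t4655 (L l105 (T t4656 N))))) (K a37 (M a100 (F (T t4657 (L l105 (T t4656 N))))) (K a53 (M a4 (F (T t518 (T t2229 N)))) (K a26 (M a4 (F (L l12 (T t528 (L l54 (L l72 (T t2229 N))))))) (K a42 (M a100 (F (T t4657 (L l54 (L l105 (T t4656 N)))))) (K a58 (M a4 (F (T t528 (L l54 (T t2229 N))))) (K a15 (M a4 (F (T t518 (T t2229 N)))) N))))))))))))))))) (K a103 (M a99 (F (T t1 (T t2 (L l397 (L l409 (T t3 (T t0 (K a16 (M a49 (F (L l344 (T t4658 (L l10 (T t144 N)))))) (K a32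 (M a49 (F (T t4658 (L l28 (T t144 N))))) (K a21 (M a195 (F (T t4659 (L l47 (L l50 (L l493 (T t4660 N))))))) (K a37 (M a33 (F (T t4661 (L l47 (T t275 N))))) (K a53 (M a33 (F (T t4661 (L l391 (T t4662 N))))) (K a26 (M a195 (F (T t4659 (L l57 (L l493 (T t4660 N)))))) (K a42 (M a195 (F (T t4663 (L l493 (T t4660 N))))) (K a58 (M a195 (F (T t4659 (T t4664 N)))) (K a15 (M a33 (F (T t4661 (L l63 (L l391 (T t4662 N)))))) N))))))))))))))))) N))))))))))))))))))))⟩
def e0_63__111_65 : Ent 4 := ⟨[a0, a63], [a111, a112], (M a149 (F (T t25 (T t175 (T t176 (L l104 (L l116 (T t177 (K a192 (M a53 (F (T t178 (L l236 (L l296 (T t180 (L l236 (L l397 (T t179 N))))))))) (K a21 (M a240 (F (T t1834 (L l104 (L l116 (T t962 (L l114 (L l116 (L l397 (T t1207 N)))))))))) (K a85 (M a4 (F (T t519 (L l104 (L l144 (T t653 (L l126 (T t654 N)))))))) (K a213 (Fr a106 a192 l519 (Fr a42 a21 l68 (Fr a170 a234 l390 (Fr a255 a85 l476 (V t582))))) (K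 a42 (M a240 (F (L l114 (T t4820 (L l28 (L l104 (L l116 (L l390 (T t962 (L l114 (L l116 (L l397 (T t1207 N))))))))))))) (K a106 (M a101 (F (L l390 (T t1208 (L l397 (L l498 (T t1209 (L l390 (L l397 (L l498 (T t1210 (L l390 (L l498 (T t1211 (L l498 (T t1212 N)))))))))))))))) (K a170 (M a48 (F (T t184 (L l462 (T t1 (L l390 (L l404 (T t4821 N)))))))) (K a191 (M a240 (F (L l104 (L l116 (T t962 (L l114 (T t963 N))))))) (K a255 (M a16 (F (T t112 (L l289 (T t1213 (L l116 (L l289 (L l296 (T t191 N))))))))) N)))))))))))))))))⟩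
def e0_63__111_66 : Ent 4 := ⟨[a0, a63], [a111, a113], (M a149 (F (T t5 (T t175 (T t176 (L l104 (T t177 (K a192 (M a53 (F (T t178 (L l236 (L l296 (T t180 (L l236 (L l397 (T t179 N))))))))) (K a21 (M a240 (F (T t1090 (L l104 (L l106 (L l416 (T t1091 (L l397 (T t1207 N))))))))) (K a85 (M a48 (F (T t1 (T t184 (L l104 (L l106 (L l144 (T t13 N)))))))) (K a213 (Fr a106 a192 l519 (Fr a42 a21 l68 (Fr a170 a234 l390 (Fr a255 a85 l476 (V t582))))) (K a42 (M a240 (F (T t1090 (L l104 (L l106 (L l390 (L l416 (T t1091 (L l397 (T t1207 N)))))))))) (K a106 (M a101 (F (L l390 (T t1208 (L l397 (L l498 (T t1209 (L l390 (L l397 (L l498 (T t1210 (L l390 (L l498 (T t1211 (L l498 (T t1212 N)))))))))))))))) (K a170 (M a48 (F (T t184 (L l462 (T t1 (L l104 (L l106 (L l390 (T t13 N))))))))) (K a191 (M a16 (F (T t97 (L l213 (T t1213 (L l213 (T t191 N))))))) (K a255 (M a16 (F (T t112 (L l289 (T t1213 (L l289 (L l296 (T t191 N)))))))) N))))))))))))))))⟩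
def e0_63__111_67 : Ent 4 := ⟨[a0, a63], [a111, a114], (M a149 (F (T t5 (T t175 (T t176 (L l104 (T t177 (K a192 (M a53 (F (T t178 (L l236 (L l296 (T t180 (L l236 (L l397 (T t179 N))))))))) (K a21 (M a240 (F (T t1937 (L l104 (L l106 (T t1091 (L l112 (L l397 (T t1207 N))))))))) (K a85 (M a48 (F (T t1 (T t184 (L l104 (L l106 (L l144 (L l417 (T t13 N))))))))) (K a213 (Fr a106 a192 l519 (Fr a42 a21 l68 (Fr a170 a234 l390 (Fr a255 a85 l476 (V t582))))) (K a42 (M a240 (F (T t1834 (L l104 (L l106 (L l390 (T t1091 (L l112 (L l397 (T t1207 N)))))))))) (K a106 (M a101 (F (L l390 (T t1208 (L l397 (L l498 (T t1209 (L l390 (L l397 (L l498 (T t1210 (L l390 (L l498 (T t1211 (L l498 (T t1212 N)))))))))))))))) (K a170 (M a48 (F (T t184 (L l462 (T t1 (L l104 (L l106 (L l390 (L l417 (T t13 N)))))))))) (K a191 (M a240 (F (L l104 (T t962 (L l112 (T t963 N)))))) (K a255 (M a16 (F (T t112 (L l289 (T t1213 (L l289 (L l296 (T t191 N))))))))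 N))))))))))))))))⟩
def e0_63__111_68 : Ent 4 := ⟨[a0, a63], [a111, a115], (M a149 (F (T t25 (T t175 (T t176 (L l104 (L l120 (T t177 (K a192 (M a53 (F (T t178 (L l236 (L l296 (T t180 (L l236 (L l397 (T t179 N))))))))) (K a21 (M a240 (F (T t1090 (L l104 (L l106 (T t1091 (L l397 (T t1207 N)))))))) (K a85 (M a48 (F (T t1 (T t184 (L l104 (L l106 (L l144 (T t13 N)))))))) (K a213 (Fr a106 a192 l519 (Fr a42 a21 l68 (Fr a170 a234 l390 (Fr a255 a85 l476 (V t582))))) (K a42 (M a240 (F (T t1090 (L l104 (L l106 (L l390 (T t1091 (L l397 (T t1207 N))))))))) (K a106 (M a101 (F (L l390 (T t1208 (L l397 (L l498 (T t1209 (L l390 (L l397 (L l498 (T t1210 (L l390 (L l498 (T t1211 (L l498 (T t1212 N)))))))))))))))) (K a170 (M a48 (F (T t184 (L l462 (T t1 (L l104 (L l106 (L l390 (T t13 N))))))))) (K a191 (M a16 (F (T t97 (L l213 (T t1213 (L l213 (T t191 N))))))) (K a255 (M a16 (F (T t112 (L l289 (T t1213 (L l289 (L l296 (T t191 N))))))))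 N)))))))))))))))))⟩
def e0_63__111_69 : Ent 4 := ⟨[a0, a63], [a111, a117], (M a12 (F (T t122 (T t151 (T t152 (T t153 (K a4 (M a60 (F (T t43 (T t398 (T t448 N))))) (K a8 (M a60 (F (T t67 (T t398 (L l52 (L l56 (T t448 N))))))) (K a21 (M a192 (F (T t836 (L l15 (L l347 (T t450 (L l15 (L l347 (L l422 (T t157 N)))))))))) (K a25 (M a192 (F (T t449 (L l15 (T t450 (L l114 (L l137 (L l440 (T t21 N))))))))) (K a29 (M a192 (F (T t449 (L l114 (L l137 (L l371 (L l440 (T t21 (L l104 (T t160 N)))))))))) (K a38 (M a192 (F (T t836 (T t450 (L l114 (L l137 (L l440 (T t21 N)))))))) (K a42 (M a192 (F (T t449 (T t450 (L l56 (L l422 (T t157 N))))))) (K a46 (M a192 (F (T t449 (L l114 (L l137 (L l440 (T t21 (L l26 (L l104 (L l408 (T t160 N))))))))))) (K a51 (M a192 (F (T t57 (L l513 (T t156 (L l415 (T t450 N))))))) N)))))))))))))))⟩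
def e0_63__111_70 : Ent 4 := ⟨[a0, a63], [a111, a118], (M a149 (F (T t5 (T t175 (T t176 (L l104 (T t177 (K a192 (M a53 (F (T t178 (L l236 (L l296 (L l423 (T t180 (L l236 (L l397 (T t179 N)))))))))) (K a21 (M a240 (F (L l112 (T t1090 (L l104 (T t1091 (L l112 (L l397 (T t1207 N))))))))) (K a85 (M a48 (F (T t1 (T t184 (L l104 (L l144 (T t13 N))))))) (K a213 (Fr a106 a192 l519 (Fr a42 a21 l68 (Fr a170 a234 l390 (Fr a255 a85 l476 (V t582))))) (K a42 (M a240 (F (L l112 (T t1090 (L l104 (L l390 (T t1091 (L l112 (L l397 (T t1207 N)))))))))) (K a106 (M a101 (F (L l498 (T t1212 (L l390 (L l423 (T t1208 (L l397 (L l498 (T t1209 (L l390 (L l397 (L l498 (T t1210 (L l390 (L l498 (T t1211 N))))))))))))))))) (K a170 (M a48 (F (T t184 (L l462 (T t1 (L l104 (L l390 (T t13 N)))))))) (K a191 (M a240 (F (L l104 (T t962 (L l112 (T t963 N)))))) (K a255 (M a16 (F (T t112 (L l289 (T t1213 (L l289 (L l296 (T t191 N)))))))) N))))))))))))))))⟩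
def e0_63__111_71 : Ent 4 := ⟨[a0, a63], [a111, a119], (M a48 (F (T t1 (T t2 (L l397 (T t3 (T t0 (K a16 (M a60 (F (T t43 (L l439 (T t64 (T t65 N)))))) (K a32 (M a60 (F (T t67 (L l439 (T t64 (L l24 (L l28 (T t65 N)))))))) (K a21 (M a192 (F (L l104 (T t206 (T t27 (L l47 (L l347 (T t29 N)))))))) (K a37 (M a192 (F (T t19 (L l104 (T t206 (L l113 (L l137 (L l439 (T t21 N))))))))) (K a53 (M a192 (F (T t19 (L l113 (L l137 (L l439 (L l491 (T t21 (L l104 (T t521 N)))))))))) (K a26 (M a192 (F (T t27 (L l54 (L l104 (T t206 (L l113 (L l137 (L l439 (T t21 N)))))))))) (K a42 (M a192 (F (T t19 (L l54 (L l104 (L l390 (T t206 (L l28 (T t29 N))))))))) (K a58 (M a192 (F (T t19 (L l113 (L l137 (L l439 (T t21 (L l54 (L l104 (L l498 (T t521 N))))))))))) (K a15 (M a192 (F (T t57 (L l483 (T t27 (L l104 (L l325 (T t206 N)))))))) N))))))))))))))))⟩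
def e0_63__111_72 : Ent 4 := ⟨[a0, a63], [a111, a122], (M a12 (F (T t122 (T t151 (L l429 (T t152 (T t153 (K a4 (M a60 (F (T t43 (T t398 (T t448 N))))) (K a8 (M a60 (F (T t67 (T t398 (L l52 (L l56 (T t448 N))))))) (K a21 (M a192 (F (T t836 (L l15 (L l347 (T t450 (L l15 (L l347 (T t157 N))))))))) (K a25 (M a192 (F (T t449 (L l15 (T t450 (L l114 (L l137 (T t21 N)))))))) (K a29 (M a192 (F (T t449 (L l114 (L l137 (L l371 (T t21 (L l104 (L l130 (T t160 N)))))))))) (K a38 (M a192 (F (T t836 (T t450 (L l114 (L l137 (T t21 N))))))) (K a42 (M a192 (F (T t449 (T t450 (L l56 (T t157 N)))))) (K a46 (M a192 (F (T t449 (L l114 (L l137 (T t21 (L l26 (L l104 (L l130 (L l408 (T t160 N))))))))))) (K a51 (M a192 (F (T t57 (L l513 (T t156 (L l415 (T t450 N))))))) N))))))))))))))))⟩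
def e0_63__111_73 : Ent 4 := ⟨[a0, a63], [a111, a123], (M a48 (F (T t1 (T t2 (L l397 (T t3 (T t0 (K a16 (M a60 (F (T t43 (T t64 (T t65 N))))) (K a32 (M a60 (F (T t67 (T t64 (L l24 (L l28 (T t65 N))))))) (K a21 (M a192 (F (T t27 (L l104 (L l132 (T t206 (L l47 (L l347 (T t29 N))))))))) (K a37 (M a192 (F (T t19 (L l104 (L l132 (T t206 (L l113 (L l137 (T t21 N))))))))) (K a53 (M a192 (F (T t19 (L l113 (L l137 (L l491 (T t21 (L l104 (L l132 (T t521 N)))))))))) (K a26 (M a192 (F (T t27 (L l54 (L l104 (L l132 (T t206 (L l113 (L l137 (T t21 N)))))))))) (K a42 (M a192 (F (T t19 (L l54 (L l104 (L l132 (L l390 (T t206 (L l28 (T t29 N)))))))))) (K a58 (M a192 (F (T t19 (L l113 (L l137 (T t21 (L l54 (L l104 (L l132 (L l498 (T t521 N))))))))))) (K a15 (M a192 (F (T t57 (L l483 (T t27 (L l104 (L l132 (L l325 (T t206 N))))))))) N))))))))))))))))⟩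
def e0_63__111_74 : Ent 4 := ⟨[a0, a63], [a111, a127], (M a12 (L l137 (F (T t122 (T t151 (T t152 (T t153 (K a4 (M a149 (L l137 (F (T t958 (T t176 (L l138 (T t960 (K a79 (M a95 (F (T t1984 (T t3036 N)))) (K a95 (M a79 (F (T t1984 (L l104 (L l144 (L l469 (T t1245 (L l89 (L l138 (T t960 N)))))))))) N))))))))) (K a8 (M a149 (L l137 (F (T t647 (L l56 (T t176 (L l56 (L l138 (T t960 (K a79 (M a95 (F (T t650 (L l56 (T t3036 N))))) (K a95 (M a79 (F (T t650 (L l56 (L l104 (L l144 (L l469 (T t1245 (L l56 (L l89 (L l138 (T t960 N)))))))))))) N))))))))))) (K a21 (M a192 (L l137 (F (T t468 (L l15 (L l347 (T t450 (L l50 (L l104 (L l144 (T t2473 (K a79 (M a95 (F (T t468 (L l113 (L l347 (T t467 (L l50 (L l104 (L l144 (T t2473 N)))))))))) (K a95 (M a79 (F (T t468 (L l113 (L l347 (T t467 (L l50 (L l104 (L l144 (T t2473 N)))))))))) N))))))))))))) (K a25 (M a15 (L l137 (F (T t2591 (L l15 (T t731 (L l19 (L l397 (T t2544 (K a79 (M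 a95 (F (T t2692 (L l397 (T t4822 N))))) (K a95 (M a79 (F (T t715 (L l144 (T t4501 N))))) N))))))))))) (K a29 (M a15 (L l137 (F (T t2591 (T t716 (L l59 (L l397 (T t722 (K a79 (M a95 (F (T t2692 (L l397 (T t4823 N))))) (K a95 (M a79 (F (T t716 (L l138 (T t4503 N))))) N)))))))))) (K a38 (M a15 (L l137 (F (T t717 (L l26 (T t716 (L l26 (L l397 (T t2544 (K a79 (M a95 (F (T t717 (L l26 (L l397 (T t4823 N)))))) (K a95 (M a79 (F (T t2576 (L l144 (T t4501 N))))) N))))))))))) (K a42 (M a192 (L l137 (F (T t449 (T t450 (L l26 (L l104 (L l144 (L l390 (T t2473 (K a79 (M a95 (F (T t450 (L l56 (T t468 (L l26 (L l104 (L l144 (L l390 (T t2473 N)))))))))) (K a95 (M a79 (F (T t450 (L l56 (T t468 (L l26 (L l104 (L l144 (L l390 (T t2473 N)))))))))) N)))))))))))) (K a46 (M a15 (L l137 (F (T t731 (T t717 (L l23 (L l26 (L l397 (T t722 (K a79 (M a95 (F (T t3936 (L l26 (L l397 (T t4823 N)))))) (K a95 (M a79 (F (T t731 (L l138 (T t4503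 N))))) N))))))))))) (K a51 (M a16 (L l137 (F (T t112 (L l39 (T t871 (T t872 (K a79 (M a95 (F (T t652 (T t3007 N)))) (K a95 (M a79 (F (T t112 (L l39 (T t871 (T t872 N)))))) N))))))))) (K a79 (M a95 (F (T t122 (T t151 (T t152 (T t153 (K a4 (M a85 (F (L l397 (T t3008 (L l138 (T t154 N)))))) (K a8 (M a85 (F (L l56 (T t2878 (L l397 (L l464 (T t3009 N))))))) (K a21 (M a28 (F (T t2739 (T t3010 N)))) (K a25 (M a28 (F (T t2735 (T t3010 N)))) (K a29 (M a16 (F (T t652 (T t3007 N)))) (K a38 (M a16 (F (L l21 (T t871 (L l26 (L l72 (T t3007 N))))))) (K a42 (M a28 (F (L l22 (T t2735 (L l26 (T t3010 N)))))) (K a46 (M a16 (F (T t871 (L l26 (T t3007 N))))) (K a51 (M a16 (F (T t652 (T t3007 N)))) N))))))))))))))) (K a95 (M a79 (F (T t122 (T t151 (T t152 (T t153 (K a4 (M a13 (F (T t4502 (L l1 (T t3915 N))))) (K a8 (M a13 (F (T t4502 (L l56 (T t3915 N))))) (K a21 (M a64 (F (T t4505 (L l104 (T t4506 N))))) (K a25 (M a64 (F (T t4507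 (L l104 (T t4506 N))))) (K a29 (M a15 (F (T t716 (L l138 (T t4503 N))))) (K a38 (M a64 (F (T t4505 (L l104 (T t4506 N))))) (K a42 (M a64 (F (T t4507 (L l104 (L l390 (T t4506 N)))))) (K a46 (M a15 (F (T t731 (L l138 (T t4503 N))))) (K a51 (M a64 (F (L l487 (T t4505 (L l104 (L l415 (T t4506 N))))))) N))))))))))))))) N))))))))))))))))))⟩
def e0_63__111_75 : Ent 4 := ⟨[a0, a63], [a111, a128], (M a48 (F (T t1 (T t2 (L l397 (T t3 (T t0 (K a16 (M a60 (F (T t43 (T t64 (T t65 N))))) (K a32 (M a60 (F (T t67 (T t64 (L l24 (L l28 (T t65 N))))))) (K a21 (M a154 (F (T t526 (T t327 (L l47 (T t527 N)))))) (K a37 (M a52 (F (T t82 (T t83 (L l21 (L l28 (T t84 N))))))) (K a53 (M a12 (F (T t151 (T t443 (L l47 (T t146 N)))))) (K a26 (M a56 (F (T t133 (T t134 (L l12 (L l18 (T t135 N))))))) (K a42 (M a154 (F (L l54 (T t526 (L l28 (T t327 (L l28 (T t527 N)))))))) (K a58 (M a12 (F (T t443 (T t122 (T t146 N))))) (K a15 (M a4 (F (T t129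 (L l63 (T t528 (T t520 N)))))) N))))))))))))))))⟩
def e0_63__111_76 : Ent 4 := ⟨[a0, a63], [a111, a129], (M a149 (F (T t25 (L l152 (L l309 (T t175 (T t176 (L l104 (T t177 (K a192 (M a3 (F (T t85 (L l152 (L l292 (L l305 (T t615 (L l292 (L l296 (T t616 (L l292 (L l296 (T t1244 N))))))))))))) (K a21 (M a240 (F (L l309 (T t1937 (L l104 (L l152 (T t1091 (L l152 (L l157 (L l397 (T t1207 N))))))))))) (K a85 (M a48 (F (T t1 (T t184 (L l104 (L l144 (L l152 (T t13 N)))))))) (K a213 (Fr a106 a192 l519 (Fr a42 a21 l68 (Fr a170 a234 l390 (Fr a255 a85 l476 (V t582))))) (K a42 (M a240 (F (L l157 (T t2299 (L l104 (L l152 (L l390 (T t1091 (L l152 (L l157 (L l397 (T t1207 N)))))))))))) (K a106 (M a101 (F (L l390 (T t1208 (L l152 (L l397 (L l498 (T t1209 (L l390 (L l397 (L l498 (T t1210 (L l390 (L l498 (T t1211 (L l498 (T t1212 N))))))))))))))))) (K a170 (M a48 (F (T t184 (L l462 (T t1 (L l104 (L l152 (L l390 (T t13 N)))))))))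 (K a191 (M a240 (F (L l104 (T t962 (L l157 (T t963 N)))))) (K a255 (M a16 (F (T t112 (L l289 (T t1213 (L l289 (L l296 (T t191 N)))))))) N))))))))))))))))))⟩
def e0_63__111_77 : Ent 4 := ⟨[a0, a63], [a111, a130], (M a60 (F (T t67 (T t43 (L l306 (T t68 (T t69 (K a20 (M a48 (F (T t2 (T t64 (L l11 (L l306 (T t235 N))))))) (K a40 (M a48 (F (T t1 (T t64 (L l52 (L l306 (T t235 N))))))) (K a21 (M a192 (F (T t72 (L l103 (L l347 (T t73 (L l137 (L l152 (L l347 (T t74 N)))))))))) (K a41 (M a192 (F (T t79 (L l65 (T t35 (L l103 (T t73 N))))))) (K a61 (M a192 (F (T t72 (L l65 (L l515 (T t35 (L l104 (T t80 N)))))))) (K a22 (M a192 (F (T t72 (L l137 (L l152 (T t21 (L l103 (T t73 N)))))))) (K a42 (M a192 (F (T t1333 (L l103 (T t73 (L l22 (L l137 (L l152 (T t74 N))))))))) (K a62 (M a192 (F (T t72 (T t35 (L l66 (L l104 (L l516 (T t80 N)))))))) (K a3 (M a170 (F (T t4824 (T t458 N)))) N))))))))))))))))⟩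
def e0_63__111_78 : Ent 4 := ⟨[a0, a63], [a111, a131], (M a48 (F (T t1 (T t2 (L l397 (T t3 (T t0 (K a16 (M a60 (F (T t64 (L l14 (L l18 (L l307 (T t67 (T t65 N)))))))) (K a32 (M a60 (F (T t64 (L l307 (T t67 (L l24 (L l28 (T t65 N)))))))) (K a21 (M a192 (F (L l104 (T t206 (L l152 (T t27 (L l47 (L l347 (T t29 N))))))))) (K a37 (M a192 (F (T t19 (L l104 (T t206 (L l137 (L l152 (T t21 N)))))))) (K a53 (M a192 (F (T t19 (L l137 (L l152 (L l491 (T t21 (L l104 (T t521 N))))))))) (K a26 (M a192 (F (L l18 (T t19 (L l54 (L l104 (T t206 (L l137 (L l152 (T t21 N)))))))))) (K a42 (M a192 (F (T t19 (L l54 (L l104 (L l390 (T t206 (L l28 (T t29 N))))))))) (K a58 (M a192 (F (T t19 (L l137 (L l152 (T t21 (L l54 (L l104 (L l498 (T t521 N)))))))))) (K a15 (M a192 (F (L l483 (T t19 (L l104 (L l325 (T t206 (L l137 (L l152 (L l469 (T t21 N))))))))))) N))))))))))))))))⟩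
def e0_63__111_79 : Ent 4 := ⟨[a0, a63], [a111, a133], (M a12 (F (T t122 (T t151 (T t152 (T t153 (K a4 (M a60 (F (T t43 (L l339 (T t398 (T t448 N)))))) (K a8 (M a60 (F (T t67 (L l339 (T t398 (L l52 (L l56 (T t448 N)))))))) (K a21 (M a192 (F (T t836 (L l15 (L l199 (L l347 (T t450 (L l15 (L l199 (L l347 (T t157 N))))))))))) (K a25 (M a192 (F (T t836 (L l15 (L l199 (T t450 (L l137 (L l160 (L l199 (T t21 N)))))))))) (K a29 (M a192 (F (T t836 (L l137 (L l160 (L l199 (L l371 (T t21 (L l104 (T t160 N)))))))))) (K a38 (M a192 (F (T t836 (L l199 (T t450 (L l137 (L l160 (L l199 (T t21 N))))))))) (K a42 (M a192 (F (T t836 (L l199 (T t450 (L l56 (L l199 (T t157 N)))))))) (K a46 (M a192 (F (T t836 (L l137 (L l160 (L l199 (T t21 (L l26 (L l104 (L l408 (T t160 N))))))))))) (K a51 (M a192 (F (T t1725 (L l199 (L l415 (T t450 (L l137 (L l160 (L l199 (L l439 (T t21 N))))))))))) N)))))))))))))))⟩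
def e0_63__111_80 : Ent 4 := ⟨[a0, a63], [a111, a134], (M a149 (F (T t5 (T t175 (T t176 (L l104 (T t177 (K a192 (M a53 (F (T t178 (L l236 (L l296 (L l314 (T t180 (L l236 (L l397 (T t179 N)))))))))) (K a21 (M a240 (F (L l153 (T t1090 (L l104 (T t1091 (L l153 (L l397 (T t1207 N))))))))) (K a85 (M a48 (F (T t1 (T t184 (L l104 (L l144 (T t13 N))))))) (K a213 (Fr a106 a192 l519 (Fr a42 a21 l68 (Fr a170 a234 l390 (Fr a255 a85 l476 (V t582))))) (K a42 (M a240 (F (L l153 (T t1090 (L l104 (L l390 (T t1091 (L l153 (L l397 (T t1207 N)))))))))) (K a106 (M a101 (F (L l498 (T t1212 (L l314 (L l390 (T t1208 (L l397 (L l498 (T t1209 (L l390 (L l397 (L l498 (T t1210 (L l390 (L l498 (T t1211 N))))))))))))))))) (K a170 (M a48 (F (T t184 (L l462 (T t1 (L l104 (L l390 (T t13 N)))))))) (K a191 (M a16 (F (T t97 (L l213 (T t1213 (L l213 (T t191 N))))))) (K a255 (M a16 (F (T t112 (L l289 (T t1213 (L l289 (L l296 (T t191 N)))))))) N))))))))))))))))⟩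
def e0_63__111_81 : Ent 4 := ⟨[a0, a63], [a111, a135], (M a149 (F (T t5 (T t175 (T t176 (L l104 (T t177 (K a192 (M a53 (F (T t178 (L l236 (L l296 (T t180 (L l236 (L l397 (T t179 N))))))))) (K a21 (M a240 (F (T t1937 (L l104 (T t1091 (L l153 (L l397 (T t1207 N)))))))) (K a85 (M a48 (F (T t184 (L l337 (T t1 (L l104 (L l144 (T t13 N)))))))) (K a213 (Fr a106 a192 l519 (Fr a42 a21 l68 (Fr a170 a234 l390 (Fr a255 a85 l476 (V t582))))) (K a42 (M a240 (F (T t1937 (L l104 (L l390 (T t1091 (L l153 (L l397 (T t1207 N))))))))) (K a106 (M a101 (F (L l390 (T t1208 (L l397 (L l498 (T t1209 (L l390 (L l397 (L l498 (T t1210 (L l390 (L l498 (T t1211 (L l498 (T t1212 N)))))))))))))))) (K a170 (M a48 (F (T t184 (L l337 (L l462 (T t1 (L l104 (L l390 (T t13 N))))))))) (K a191 (M a16 (F (T t112 (L l213 (T t1213 (L l213 (T t191 N))))))) (K a255 (M a16 (F (T t112 (L l289 (T t1213 (L l289 (L l296 (T t191 N)))))))) N))))))))))))))))⟩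
def e0_63__111_82 : Ent 4 := ⟨[a0, a63], [a111, a138], (M a48 (F (T t2 (L l318 (T t1 (L l397 (T t3 (T t0 (K a16 (M a60 (F (T t43 (T t64 (T t65 N))))) (K a32 (M a60 (F (T t64 (T t67 (L l24 (L l28 (T t65 N))))))) (K a21 (M a192 (F (L l104 (T t206 (L l160 (T t27 (L l47 (L l318 (L l347 (T t29 N)))))))))) (K a37 (M a192 (F (T t19 (L l104 (T t206 (L l137 (L l160 (T t21 N)))))))) (K a53 (M a192 (F (T t19 (L l137 (L l160 (L l491 (T t21 (L l104 (T t521 N))))))))) (K a26 (M a192 (F (L l18 (T t19 (L l54 (L l104 (T t206 (L l137 (L l160 (T t21 N)))))))))) (K a42 (M a192 (F (T t19 (L l54 (L l104 (L l390 (T t206 (L l28 (L l318 (T t29 N)))))))))) (K a58 (M a192 (F (T t19 (L l137 (L l160 (T t21 (L l54 (L l104 (L l498 (T t521 N)))))))))) (K a15 (M a192 (F (L l483 (T t19 (L l104 (L l325 (T t206 (L l137 (L l160 (L l469 (T t21 N))))))))))) N)))))))))))))))))⟩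
def e0_63__111_83 : Ent 4 := ⟨[a0, a63], [a111, a139], (M a149 (F (T t5 (T t175 (T t176 (L l104 (T t177 (K a192 (M a53 (F (T t178 (L l236 (L l296 (T t180 (L l236 (L l397 (T t179 N))))))))) (K a21 (M a240 (F (T t1090 (L l104 (T t1091 (L l397 (T t1207 N))))))) (K a85 (M a48 (F (T t1 (L l331 (T t184 (L l104 (L l144 (T t13 N)))))))) (K a213 (Fr a106 a192 l519 (Fr a42 a21 l68 (Fr a170 a234 l390 (Fr a255 a85 l476 (V t582))))) (K a42 (M a240 (F (T t1090 (L l104 (L l390 (T t1091 (L l397 (T t1207 N)))))))) (K a106 (M a101 (F (L l390 (T t1208 (L l397 (L l498 (T t1209 (L l209 (L l390 (L l397 (L l498 (T t1210 (L l390 (L l498 (T t1211 (L l331 (L l498 (T t1212 N)))))))))))))))))) (K a170 (M a48 (F (L l462 (T t1 (L l331 (T t184 (L l104 (L l390 (T t13 N))))))))) (K a191 (M a16 (F (T t97 (L l213 (L l331 (T t1213 (L l213 (T t191 N)))))))) (K a255 (M a16 (F (T t112 (L l289 (L l331 (T t1213 (L l289 (L l296 (T t191 N))))))))) N))))))))))))))))⟩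
def e0_63__111_84 : Ent 4 := ⟨[a0, a63], [a111, a143], (M a12 (F (T t122 (T t151 (T t152 (T t153 (K a4 (M a60 (F (T t43 (L l325 (T t398 (T t448 N)))))) (K a8 (M a60 (F (T t67 (L l325 (T t398 (L l52 (L l56 (T t448 N)))))))) (K a21 (M a192 (F (T t468 (L l15 (L l347 (T t450 (L l15 (L l347 (T t157 N))))))))) (K a25 (M a192 (F (T t449 (L l15 (T t450 (L l137 (L l160 (T t21 N)))))))) (K a29 (M a192 (F (T t449 (L l137 (L l160 (L l371 (T t21 (L l104 (T t160 N))))))))) (K a38 (M a192 (F (T t468 (T t450 (L l137 (L l160 (T t21 N))))))) (K a42 (M a192 (F (T t449 (T t450 (L l56 (T t157 N)))))) (K a46 (M a192 (F (T t449 (L l137 (L l160 (T t21 (L l26 (L l104 (L l408 (T t160 N)))))))))) (K a51 (M a192 (F (T t161 (L l160 (L l513 (T t156 (L l137 (L l160 (L l439 (T t21 N)))))))))) N)))))))))))))))⟩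
def e0_63__111_85 : Ent 4 := ⟨[a0, a63], [a111, a144], (M a12 (F (T t122 (T t151 (T t152 (T t153 (K a4 (M a60 (F (T t43 (T t398 (T t448 N))))) (K a8 (M a60 (F (T t67 (T t398 (L l52 (L l56 (T t448 N))))))) (K a21 (M a192 (F (T t836 (L l15 (L l170 (L l347 (T t450 (L l15 (L l170 (L l347 (T t157 N))))))))))) (K a25 (M a192 (F (T t449 (L l15 (L l170 (T t450 (L l137 (L l170 (L l192 (T t21 N)))))))))) (K a29 (M a192 (F (T t449 (L l137 (L l170 (L l192 (L l371 (T t21 (L l104 (T t160 N)))))))))) (K a38 (M a192 (F (T t836 (L l170 (T t450 (L l137 (L l170 (L l192 (T t21 N))))))))) (K a42 (M a192 (F (T t449 (L l170 (T t450 (L l56 (L l170 (T t157 N)))))))) (K a46 (M a192 (F (T t449 (L l137 (L l170 (L l192 (T t21 (L l26 (L l104 (L l408 (T t160 N))))))))))) (K a51 (M a192 (F (T t1725 (L l170 (L l415 (T t450 (L l137 (L l170 (L l192 (L l439 (T t21 N))))))))))) N)))))))))))))))⟩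
def e0_63__111_86 : Ent 4 := ⟨[a0, a63], [a111, a145], (M a48 (F (T t1 (T t2 (L l397 (T t3 (T t0 (K a16 (M a60 (F (T t43 (L l489 (T t64 (T t65 N)))))) (K a32 (M a60 (F (T t67 (L l489 (T t64 (L l24 (L l28 (T t65 N)))))))) (K a21 (M a192 (F (L l104 (T t206 (L l162 (L l196 (T t27 (L l47 (L l167 (L l347 (T t29 N))))))))))) (K a37 (M a192 (F (L l104 (T t206 (L l162 (L l196 (T t27 (L l137 (L l167 (L l196 (T t21 N))))))))))) (K a53 (M a192 (F (L l162 (T t19 (L l137 (L l167 (L l196 (L l491 (T t21 (L l104 (T t521 N))))))))))) (K a26 (M a192 (F (L l54 (L l104 (T t206 (L l162 (L l196 (T t27 (L l137 (L l167 (L l196 (T t21 N)))))))))))) (K a42 (M a192 (F (L l162 (T t19 (L l54 (L l104 (L l390 (T t206 (L l28 (L l167 (T t29 N))))))))))) (K a58 (M a192 (F (L l162 (T t19 (L l137 (L l167 (L l196 (T t21 (L l54 (L l104 (L l498 (T t521 N)))))))))))) (K a15 (M a192 (F (L l104 (L l325 (T t206 (L l162 (L l196 (L l483 (T t27 (L l137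 (L l167 (L l196 (L l469 (T t21 N)))))))))))))) N))))))))))))))))⟩
def e0_63__111_87 : Ent 4 := ⟨[a0, a63], [a111, a146], (M a149 (F (T t5 (T t175 (T t176 (L l104 (T t177 (K a192 (M a53 (F (T t178 (L l236 (L l296 (T t180 (L l236 (L l344 (L l397 (T t179 N)))))))))) (K a21 (M a240 (F (T t1090 (L l104 (L l488 (T t1091 (L l397 (T t1207 N)))))))) (K a85 (M a48 (F (T t1 (T t184 (L l104 (L l144 (L l162 (T t13 N)))))))) (K a213 (Fr a106 a192 l519 (Fr a42 a21 l68 (Fr a170 a234 l390 (Fr a255 a85 l476 (V t582))))) (K a42 (M a240 (F (T t1090 (L l104 (L l390 (L l488 (T t1091 (L l397 (T t1207 N))))))))) (K a106 (M a101 (F (L l498 (T t1212 (L l390 (T t1208 (L l344 (L l397 (L l498 (T t1209 (L l168 (L l344 (L l390 (L l397 (L l498 (T t1210 (L l390 (L l498 (T t1211 N))))))))))))))))))) (K a170 (M a48 (F (T t184 (L l462 (T t1 (L l104 (L l162 (L l390 (T t13 N))))))))) (K a191 (M a16 (F (T t97 (L l213 (T t1213 (L l213 (T t191 N)))))))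 (K a255 (M a16 (F (T t112 (L l289 (T t1213 (L l289 (L l296 (T t191 N)))))))) N))))))))))))))))⟩
def e0_63__111_88 : Ent 4 := ⟨[a0, a63], [a111, a147], (M a149 (F (T t5 (T t175 (T t176 (L l104 (T t177 (K a192 (M a53 (F (T t178 (L l236 (L l296 (T t180 (L l236 (L l397 (T t179 N))))))))) (K a21 (M a240 (F (T t1090 (L l104 (T t1091 (L l397 (T t1207 N))))))) (K a85 (M a48 (F (T t1 (L l169 (T t184 (L l104 (L l144 (L l162 (T t13 N))))))))) (K a213 (Fr a106 a192 l519 (Fr a42 a21 l68 (Fr a170 a234 l390 (Fr a255 a85 l476 (V t582))))) (K a42 (M a240 (F (T t1090 (L l104 (L l390 (T t1091 (L l397 (T t1207 N)))))))) (K a106 (M a101 (F (L l390 (T t1208 (L l397 (L l498 (T t1209 (L l390 (L l397 (L l498 (T t1210 (L l390 (L l498 (T t1211 (L l498 (T t1212 N)))))))))))))))) (K a170 (M a48 (F (L l462 (T t1 (L l169 (T t184 (L l104 (L l162 (L l390 (T t13 N)))))))))) (K a191 (M a16 (F (T t97 (L l169 (L l213 (T t1213 (L l169 (L l213 (T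 t191 N))))))))) (K a255 (M a16 (F (T t112 (L l169 (L l289 (T t1213 (L l169 (L l289 (L l296 (T t191 N)))))))))) N))))))))))))))))⟩
def e0_63__111_89 : Ent 4 := ⟨[a0, a63], [a111, a149], (M a12 (F (T t151 (L l347 (L l371 (T t122 (L l347 (T t152 (L l495 (T t153 (K a4 (M a60 (F (T t680 (L l46 (L l50 (L l347 (T t67 (L l351 (T t448 N))))))))) (K a8 (M a60 (F (T t680 (L l347 (T t67 (L l52 (L l56 (L l351 (T t448 N))))))))) (K a21 (M a85 (F (T t1368 (L l137 (L l220 (T t124 (L l15 (L l137 (L l202 (L l220 (L l371 (T t2301 (L l15 (L l371 (T t2302 N))))))))))))))) (K a25 (M a48 (F (T t550 (L l15 (L l347 (L l491 (T t1 (L l12 (L l56 (T t866 N)))))))))) (K a29 (M a48 (L l371 (F (T t2 (T t550 (T t866 (K a209 (M a89 (F (T t2 (L l272 (T t863 N))))) (K a89 (M a209 (F (T t2 (L l356 (T t445 (L l356 (T t866 N))))))) N)))))))) (K a38 (M a48 (F (T t1580 (L l26 (T t2 (L l21 (L l50 (L l347 (L l491 (T t868 N)))))))))) (K a42 (M a255 (F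 (L l137 (T t2124 (L l347 (T t2031 (L l56 (L l220 (L l371 (L l390 (T t2032 N))))))))))) (K a46 (M a48 (F (T t443 (L l347 (L l491 (T t1 (L l26 (T t866 N)))))))) (K a51 (M a16 (F (T t112 (L l39 (T t871 (T t872 N)))))) N)))))))))))))))))))⟩
def e0_63__111_90 : Ent 4 := ⟨[a0, a63], [a111, a150], (M a48 (F (T t1 (T t2 (L l397 (T t3 (T t0 (K a16 (M a60 (F (T t43 (T t64 (T t65 N))))) (K a32 (M a60 (F (T t64 (L l350 (T t67 (L l24 (L l28 (T t65 N)))))))) (K a21 (M a192 (F (T t27 (L l104 (L l516 (T t206 (L l47 (L l163 (L l347 (T t29 N)))))))))) (K a37 (M a192 (F (T t19 (L l104 (L l516 (T t206 (L l137 (L l163 (T t21 N))))))))) (K a53 (M a192 (F (T t19 (L l137 (L l163 (L l491 (T t21 (L l104 (L l516 (T t521 N)))))))))) (K a26 (M a192 (F (T t27 (L l54 (L l104 (L l516 (T t206 (L l137 (L l163 (T t21 N)))))))))) (K a42 (M a192 (F (T t19 (L l54 (L l104 (L l390 (L l516 (T t206 (L l28 (L l163 (T t29 N))))))))))) (K a58 (M a192 (F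 (T t19 (L l137 (L l163 (T t21 (L l54 (L l104 (L l498 (L l516 (T t521 N))))))))))) (K a15 (M a192 (F (T t55 (L l104 (L l325 (L l516 (T t206 (L l137 (L l163 (L l469 (T t21 N))))))))))) N))))))))))))))))⟩
def e0_63__111_91 : Ent 4 := ⟨[a0, a63], [a111, a151], (M a48 (F (T t1 (T t2 (L l397 (T t3 (L l373 (T t0 (K a16 (M a60 (F (T t64 (L l14 (L l18 (T t67 (L l349 (T t65 N)))))))) (K a32 (M a60 (F (T t64 (T t67 (L l24 (L l28 (L l349 (T t65 N)))))))) (K a21 (M a192 (F (L l104 (T t206 (T t27 (L l47 (L l163 (L l347 (T t29 N))))))))) (K a37 (M a192 (F (T t19 (L l104 (T t206 (L l137 (L l163 (T t21 N)))))))) (K a53 (M a192 (F (T t19 (L l137 (L l163 (L l491 (T t21 (L l104 (T t521 N))))))))) (K a26 (M a192 (F (T t27 (L l54 (L l104 (T t206 (L l137 (L l163 (T t21 N))))))))) (K a42 (M a192 (F (T t19 (L l54 (L l104 (L l390 (T t206 (L l28 (L l163 (T t29 N)))))))))) (K a58 (M a192 (F (T t19 (L l137 (L l163 (T t21 (L l54 (L l104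 (L l498 (T t521 N)))))))))) (K a15 (M a192 (F (T t55 (L l104 (L l325 (T t206 (L l137 (L l163 (L l469 (T t21 N)))))))))) N)))))))))))))))))⟩
def e0_63__111_92 : Ent 4 := ⟨[a0, a63], [a111, a154], (M a12 (F (T t122 (T t151 (T t152 (T t153 (K a4 (M a60 (F (T t43 (T t398 (T t448 N))))) (K a8 (M a60 (F (T t67 (T t398 (L l52 (L l56 (T t448 N))))))) (K a21 (M a192 (F (T t836 (L l15 (L l170 (L l347 (T t450 (L l15 (L l170 (L l347 (T t157 N))))))))))) (K a25 (M a192 (F (T t449 (L l15 (L l170 (T t450 (L l137 (L l170 (T t21 N))))))))) (K a29 (M a192 (F (T t449 (L l137 (L l170 (L l371 (T t21 (L l104 (L l498 (T t160 N)))))))))) (K a38 (M a192 (F (T t836 (L l170 (T t450 (L l137 (L l170 (T t21 N)))))))) (K a42 (M a192 (F (T t449 (L l170 (T t450 (L l56 (L l170 (T t157 N)))))))) (K a46 (M a192 (F (T t449 (L l137 (L l170 (T t21 (L l26 (L l104 (L l408 (L l498 (T t160 N))))))))))) (K a51 (M a192 (F (T t1725 (L l170 (L l415 (T t450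 (L l137 (L l170 (L l439 (T t21 N)))))))))) N)))))))))))))))⟩
def e0_63__111_93 : Ent 4 := ⟨[a0, a63], [a111, a155], (M a149 (F (T t5 (T t175 (T t176 (L l104 (T t177 (K a192 (M a53 (F (T t178 (L l236 (L l296 (T t180 (L l236 (L l397 (T t179 N))))))))) (K a21 (M a240 (F (T t1090 (L l104 (T t1091 (L l397 (T t1207 N))))))) (K a85 (M a48 (F (T t1 (L l169 (L l511 (T t184 (L l104 (L l144 (T t13 N))))))))) (K a213 (Fr a106 a192 l519 (Fr a42 a21 l68 (Fr a170 a234 l390 (Fr a255 a85 l476 (V t582))))) (K a42 (M a240 (F (T t1090 (L l104 (L l390 (T t1091 (L l397 (T t1207 N)))))))) (K a106 (M a101 (F (L l390 (T t1208 (L l397 (L l498 (T t1209 (L l164 (L l390 (L l397 (L l498 (T t1210 (L l390 (L l498 (T t1211 (L l367 (L l498 (L l511 (T t1212 N))))))))))))))))))) (K a170 (M a48 (F (L l462 (T t1 (L l169 (L l511 (T t184 (L l104 (L l390 (T t13 N)))))))))) (K a191 (M a16 (F (T t97 (L l169 (L l213 (L l511 (T t1213 (L l169 (L l213 (L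 l367 (T t191 N))))))))))) (K a255 (M a16 (F (T t112 (L l169 (L l289 (L l511 (T t1213 (L l169 (L l289 (L l296 (L l367 (T t191 N)))))))))))) N))))))))))))))))⟩
def e0_63__111_94 : Ent 4 := ⟨[a0, a63], [a111, a159], (M a48 (F (T t1 (T t2 (L l397 (T t3 (L l361 (T t0 (K a16 (M a60 (F (T t43 (T t64 (T t65 N))))) (K a32 (M a60 (F (T t67 (T t64 (L l24 (L l28 (T t65 N))))))) (K a21 (M a85 (F (T t873 (L l47 (L l137 (L l361 (T t100 (L l137 (T t50 N))))))))) (K a37 (M a52 (F (T t82 (T t83 (L l21 (L l28 (T t84 N))))))) (K a53 (M a12 (F (T t151 (T t443 (L l47 (T t146 N)))))) (K a26 (M a56 (F (T t133 (T t134 (L l12 (L l18 (T t135 N))))))) (K a42 (M a85 (F (L l397 (T t364 (L l137 (L l390 (T t50 (L l28 (L l137 (L l361 (T t100 N))))))))))) (K a58 (M a12 (F (T t443 (T t122 (T t146 N))))) (K a15 (M a4 (F (T t129 (L l63 (T t528 (T t520 N)))))) N)))))))))))))))))⟩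
def e0_63__111_95 : Ent 4 := ⟨[a0, a63], [a111, a160], (M a12 (F (T t122 (T t151 (T t152 (T t153 (K a4 (M a60 (F (T t43 (T t398 (T t448 N))))) (K a8 (M a60 (F (T t67 (T t398 (L l52 (L l56 (T t448 N))))))) (K a21 (M a192 (F (T t836 (L l15 (L l347 (T t450 (L l15 (L l347 (T t157 N))))))))) (K a25 (M a192 (F (T t449 (L l15 (T t450 (L l137 (L l192 (T t21 N)))))))) (K a29 (M a192 (F (T t449 (L l137 (L l192 (L l371 (T t21 (L l104 (T t160 N))))))))) (K a38 (M a192 (F (T t836 (T t450 (L l137 (L l192 (T t21 N))))))) (K a42 (M a192 (F (T t449 (T t450 (L l56 (T t157 N)))))) (K a46 (M a192 (F (T t449 (L l137 (L l192 (T t21 (L l26 (L l104 (L l408 (T t160 N)))))))))) (K a51 (M a192 (F (T t161 (L l192 (L l513 (T t156 (L l137 (L l192 (L l439 (T t21 N)))))))))) N)))))))))))))))⟩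
def e0_63__111_96 : Ent 4 := ⟨[a0, a63], [a111, a161], (M a149 (F (T t5 (T t175 (T t176 (L l104 (T t177 (K a192 (M a53 (F (T t178 (L l236 (L l296 (T t180 (L l236 (L l397 (T t179 N))))))))) (K a21 (M a240 (F (T t4727 (L l104 (L l172 (T t1091 (L l397 (T t1207 N)))))))) (K a85 (M a48 (F (T t1 (T t184 (L l104 (L l144 (L l453 (T t13 N)))))))) (K a213 (Fr a106 a192 l519 (Fr a42 a21 l68 (Fr a170 a234 l390 (Fr a255 a85 l476 (V t582))))) (K a42 (M a240 (F (T t2299 (L l104 (L l172 (L l390 (T t1091 (L l397 (T t1207 N))))))))) (K a106 (M a101 (F (L l390 (T t1208 (L l397 (L l498 (T t1209 (L l390 (L l397 (L l498 (T t1210 (L l390 (L l498 (T t1211 (L l498 (T t1212 N)))))))))))))))) (K a170 (M a48 (F (T t184 (L l462 (T t1 (L l104 (L l390 (L l453 (T t13 N))))))))) (K a191 (M a16 (F (T t97 (L l213 (T t1213 (L l213 (T t191 N))))))) (K a255 (M a16 (F (T t112 (L l289 (T t1213 (L l289 (L l296 (T t191 N)))))))) N))))))))))))))))⟩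
def e0_63__111_97 : Ent 4 := ⟨[a0, a63], [a111, a162], (M a12 (F (T t151 (L l378 (T t122 (T t152 (T t153 (K a4 (M a60 (F (T t43 (T t398 (T t448 N))))) (K a8 (M a60 (F (T t398 (T t67 (L l52 (L l56 (T t448 N))))))) (K a21 (M a192 (F (T t836 (L l15 (L l347 (L l378 (T t450 (L l15 (L l347 (L l378 (T t157 N))))))))))) (K a25 (M a192 (F (T t449 (L l15 (L l378 (T t450 (L l137 (L l196 (T t21 N))))))))) (K a29 (M a192 (F (T t449 (L l137 (L l196 (L l371 (T t21 (L l104 (T t160 N))))))))) (K a38 (M a192 (F (T t836 (L l378 (T t450 (L l137 (L l196 (T t21 N)))))))) (K a42 (M a192 (F (T t449 (L l378 (T t450 (L l56 (L l378 (T t157 N)))))))) (K a46 (M a192 (F (T t449 (L l137 (L l196 (T t21 (L l26 (L l104 (L l408 (T t160 N)))))))))) (K a51 (M a170 (F (T t4159 (T t3682 N)))) N))))))))))))))))⟩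
def e0_63__111_98 : Ent 4 := ⟨[a0, a63], [a111, a163], (M a149 (F (T t5 (T t175 (T t176 (L l104 (T t177 (K a192 (M a53 (F (T t178 (L l236 (L l296 (T t180 (L l236 (L l397 (T t179 N))))))))) (K a21 (M a240 (F (T t1090 (L l104 (L l172 (T t1091 (L l179 (L l397 (T t1207 N))))))))) (K a85 (M a48 (F (T t1 (T t184 (L l104 (L l144 (T t13 N))))))) (K a213 (Fr a106 a192 l519 (Fr a42 a21 l68 (Fr a170 a234 l390 (Fr a255 a85 l476 (V t582))))) (K a42 (M a240 (F (T t1090 (L l104 (L l172 (L l390 (T t1091 (L l179 (L l397 (T t1207 N)))))))))) (K a106 (M a101 (F (L l390 (T t1208 (L l397 (L l498 (T t1209 (L l390 (L l397 (L l498 (T t1210 (L l390 (L l498 (T t1211 (L l498 (T t1212 N)))))))))))))))) (K a170 (M a48 (F (T t184 (L l462 (T t1 (L l104 (L l390 (T t13 N)))))))) (K a191 (M a16 (F (T t97 (L l213 (T t1213 (L l213 (T t191 N))))))) (K a255 (M a16 (F (T t112 (L l289 (T t1213 (L l289 (L l296 (T t191 N)))))))) N))))))))))))))))⟩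
def e0_63__111_99 : Ent 4 := ⟨[a0, a63], [a111, a165], (M a12 (F (T t122 (T t151 (T t152 (T t153 (K a4 (M a60 (F (T t43 (L l483 (T t398 (T t448 N)))))) (K a8 (M a60 (F (T t67 (L l483 (T t398 (L l52 (L l56 (T t448 N)))))))) (K a21 (M a192 (F (T t836 (L l15 (L l199 (L l347 (T t450 (L l15 (L l199 (L l347 (T t157 N))))))))))) (K a25 (M a192 (F (T t449 (L l15 (L l199 (T t450 (L l137 (L l199 (T t21 N))))))))) (K a29 (M a192 (F (T t449 (L l137 (L l199 (L l371 (T t21 (L l104 (L l411 (T t160 N)))))))))) (K a38 (M a192 (F (T t836 (L l199 (T t450 (L l137 (L l199 (T t21 N)))))))) (K a42 (M a192 (F (T t449 (L l199 (T t450 (L l56 (L l199 (T t157 N)))))))) (K a46 (M a192 (F (T t449 (L l137 (L l199 (T t21 (L l26 (L l104 (L l408 (L l411 (T t160 N))))))))))) (K a51 (M a192 (F (T t1725 (L l199 (L l415 (T t450 (L l137 (L l199 (L l439 (T t21 N)))))))))) N)))))))))))))))⟩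
def e0_63__111_100 : Ent 4 := ⟨[a0, a63], [a111, a166], (M a48 (F (T t1 (T t2 (L l397 (T t3 (T t0 (K a16 (M a60 (F (T t43 (T t64 (T t65 N))))) (K a32 (M a60 (F (T t67 (T t64 (L l24 (L l28 (T t65 N))))))) (K a21 (M a192 (F (T t27 (L l104 (L l408 (T t206 (L l47 (L l202 (L l347 (T t29 N)))))))))) (K a37 (M a192 (F (T t19 (L l104 (L l408 (T t206 (L l137 (L l202 (T t21 N))))))))) (K a53 (M a192 (F (T t19 (L l137 (L l202 (L l491 (T t21 (L l104 (L l408 (T t521 N)))))))))) (K a26 (M a192 (F (T t27 (L l54 (L l104 (L l408 (T t206 (L l137 (L l202 (T t21 N)))))))))) (K a42 (M a192 (F (T t19 (L l54 (L l104 (L l390 (L l408 (T t206 (L l28 (L l202 (T t29 N))))))))))) (K a58 (M a192 (F (T t19 (L l137 (L l202 (T t21 (L l54 (L l104 (L l408 (L l498 (T t521 N))))))))))) (K a15 (M a192 (F (T t55 (L l104 (L l325 (L l408 (T t206 (L l137 (L l202 (L l469 (T t21 N))))))))))) N))))))))))))))))⟩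
def e0_63__111_101 : Ent 4 := ⟨[a0, a63], [a111, a167], (M a149 (F (T t5 (T t175 (T t176 (L l104 (T t177 (K a192 (M a53 (F (T t178 (L l236 (L l296 (T t180 (L l236 (L l397 (T t179 N))))))))) (K a21 (M a240 (F (T t1090 (L l104 (T t1091 (L l179 (L l397 (T t1207 N)))))))) (K a85 (M a48 (F (T t184 (L l481 (T t1 (L l104 (L l144 (T t13 N)))))))) (K a213 (Fr a106 a192 l519 (Fr a42 a21 l68 (Fr a170 a234 l390 (Fr a255 a85 l476 (V t582))))) (K a42 (M a240 (F (T t1090 (L l104 (L l390 (T t1091 (L l179 (L l397 (T t1207 N))))))))) (K a106 (M a101 (F (L l390 (T t1208 (L l397 (L l498 (T t1209 (L l390 (L l397 (L l498 (T t1210 (L l390 (L l498 (T t1211 (L l498 (T t1212 N)))))))))))))))) (K a170 (M a48 (F (T t184 (L l462 (L l481 (T t1 (L l104 (L l390 (T t13 N))))))))) (K a191 (M a16 (F (T t112 (L l213 (T t1213 (L l213 (T t191 N))))))) (K a255 (M a16 (F (T t112 (L l289 (T t1213 (L l289 (L l296 (T t191 N)))))))) N))))))))))))))))⟩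
def e0_63__111_102 : Ent 4 := ⟨[a0, a63], [a111, a170], (M a12 (F (T t152 (L l402 (T t122 (L l390 (T t151 (L l390 (L l464 (T t153 (K a4 (M a60 (F (T t398 (L l46 (L l50 (T t67 (L l390 (L l392 (T t448 N))))))))) (K a8 (M a60 (L l464 (F (T t398 (T t67 (L l52 (L l56 (L l390 (L l392 (T t448 (K a89 (M a251 (F (T t402 (L l56 (L l390 (T t69 (L l52 (L l56 (L l390 (L l392 (T t448 N))))))))))) (K a251 (M a89 (F (T t67 (L l316 (T t870 N))))) N)))))))))))) (K a21 (M a192 (F (T t836 (L l104 (L l390 (T t221 (L l15 (L l220 (L l347 (L l464 (T t157 N))))))))))) (K a25 (M a192 (F (T t449 (L l104 (L l390 (T t221 (L l15 (L l56 (L l220 (L l464 (T t157 N))))))))))) (K a29 (M a48 (F (T t550 (L l15 (L l462 (T t1 (L l390 (T t866 N)))))))) (K a38 (M a192 (F (T t836 (L l26 (L l104 (L l390 (T t221 (L l220 (L l464 (T t157 N)))))))))) (K a42 (M a106 (F (T t2304 (L l220 (T t2305 (L l56 (L l178 (L l220 (L l464 (T t2306 (L l56 (L l178 (L l464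 (T t2307 N)))))))))))))) (K a46 (M a48 (F (T t550 (L l462 (T t1 (L l26 (L l390 (T t866 N)))))))) (K a51 (M a192 (F (L l513 (T t449 (L l104 (L l390 (L l415 (T t221 (L l220 (L l464 (T t157 N))))))))))) N)))))))))))))))))))⟩
def e0_63__111_103 : Ent 4 := ⟨[a0, a63], [a111, a171], (M a48 (F (T t1 (T t2 (L l397 (T t3 (T t0 (K a16 (M a60 (F (T t64 (L l14 (L l18 (L l391 (L l475 (T t67 (T t65 N))))))))) (K a32 (M a60 (F (T t64 (L l391 (L l475 (T t67 (L l24 (L l28 (T t65 N))))))))) (K a21 (M a192 (F (L l104 (T t206 (T t27 (L l47 (L l347 (T t29 N)))))))) (K a37 (M a192 (F (T t19 (L l104 (T t206 (L l137 (L l475 (T t21 N)))))))) (K a53 (M a192 (F (T t19 (L l137 (L l475 (L l491 (T t21 (L l104 (T t521 N))))))))) (K a26 (M a192 (F (T t27 (L l54 (L l104 (T t206 (L l137 (L l475 (T t21 N))))))))) (K a42 (M a192 (F (T t19 (L l54 (L l104 (L l390 (T t206 (L l28 (T t29 N))))))))) (K a58 (M a192 (F (T t19 (L l137 (L l475 (T t21 (L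 l54 (L l104 (L l498 (T t521 N)))))))))) (K a15 (M a192 (F (T t57 (L l483 (T t27 (L l104 (L l325 (T t206 N)))))))) N))))))))))))))))⟩
def e0_63__111_104 : Ent 4 := ⟨[a0, a63], [a111, a175], (M a12 (L l397 (F (T t122 (T t151 (T t152 (T t153 (K a4 (M a47 (F (T t3908 (L l50 (T t4014 (L l50 (T t4015 N))))))) (K a8 (M a47 (F (T t3908 (T t4014 (L l52 (T t4015 N)))))) (K a21 (M a89 (L l397 (F (T t870 (L l50 (T t863 (L l50 (T t864 (K a47 (M a239 (F (T t3543 (L l28 (L l50 (T t4825 N)))))) (K a239 (M a47 (F (T t2752 (L l18 (L l47 (L l50 (T t4826 N))))))) N)))))))))) (K a25 (M a89 (L l397 (F (T t870 (T t863 (T t864 (K a47 (M a239 (F (T t3543 (L l28 (T t4825 N))))) (K a239 (M a47 (F (T t4691 (L l256 (T t4827 N))))) N)))))))) (K a29 (M a47 (F (L l13 (L l15 (T t4014 (L l13 (T t4826 (L l15 (T t4828 (L l15 (T t4829 (L l15 (T t4830 N))))))))))))) (K a38 (M a47 (F (T t4019 (L l50 (T t4014 (L l21 (L l50 (T t4015 N)))))))) (K a42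 (M a170 (L l397 (F (T t2497 (L l26 (L l213 (T t3880 (L l175 (L l213 (T t2498 (K a47 (M a239 (L l28 (F (T t4749 (L l23 (L l26 (L l213 (T t3880 (K a32 (M a37 (F (T t4735 (L l23 (L l26 (L l213 (T t3880 (L l175 (L l213 (T t2498 N)))))))))) (K a37 (Fr a32 a101 l404 (V t3685)) N)))))))))) (K a239 (M a47 (F (T t4566 (L l66 (T t4019 N))))) N)))))))))))) (K a46 (M a47 (F (T t4014 (T t4826 (L l60 (T t4831 (T t4832 (L l60 (T t4830 N))))))))) (K a51 (M a47 (F (T t4833 (L l39 (T t3908 (T t4015 N)))))) (K a47 (M a239 (F (T t122 (L l23 (L l28 (T t151 (T t152 (L l28 (T t153 (K a4 (M a44 (F (L l99 (T t4834 (L l28 (T t4605 N)))))) (K a8 (M a44 (F (T t685 (L l99 (T t4834 N))))) (K a21 (M a44 (F (L l11 (L l28 (T t3156 (L l15 (L l99 (T t4834 N)))))))) (K a25 (M a32 (F (L l12 (L l23 (T t4607 (L l15 (L l104 (L l137 (L l469 (T t4759 N)))))))))) (K a29 (M a32 (F (T t682 (L l15 (L l104 (L l137 (L l469 (T t4759 N)))))))) (K a38 (M a32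 (F (T t682 (L l26 (L l104 (L l213 (L l469 (T t4757 N)))))))) (K a42 (M a32 (F (L l23 (T t4607 (L l104 (L l469 (T t4835 (L l104 (T t4836 N))))))))) (K a46 (M a44 (F (T t685 (L l99 (T t4837 N))))) (K a51 (M a32 (F (T t682 (L l104 (L l137 (L l439 (L l469 (T t4759 N)))))))) N)))))))))))))))))) (K a239 (M a47 (F (T t151 (L l398 (T t3908 (L l404 (T t4014 N))))))) N))))))))))))))))))⟩
def e0_63__111_105 : Ent 4 := ⟨[a0, a63], [a111, a176], (M a48 (F (T t1 (T t2 (L l397 (T t3 (T t0 (K a16 (M a60 (F (T t43 (T t64 (T t65 N))))) (K a32 (M a60 (F (T t67 (T t64 (L l24 (L l28 (T t65 N))))))) (K a21 (M a192 (F (L l104 (T t206 (L l18 (L l192 (T t19 (L l47 (L l347 (T t29 N)))))))))) (K a37 (M a192 (F (L l104 (T t206 (L l192 (T t19 (L l47 (T t35 N)))))))) (K a53 (M a192 (F (L l192 (T t19 (L l47 (L l491 (T t35 (L l104 (T t521 N))))))))) (K a26 (M a192 (F (L l54 (L l104 (T t206 (L l18 (L l192 (T t19 (L l18 (T t35 N)))))))))) (K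 a42 (M a192 (F (L l192 (T t19 (L l54 (L l104 (L l390 (T t206 (L l28 (T t29 N)))))))))) (K a58 (M a192 (F (L l192 (T t19 (T t35 (L l54 (L l104 (L l498 (T t521 N))))))))) (K a15 (M a192 (F (L l104 (L l325 (T t206 (L l192 (L l483 (T t19 (L l469 (T t35 N)))))))))) N))))))))))))))))⟩
def e0_63__111_106 : Ent 4 := ⟨[a0, a63], [a111, a177], (M a149 (F (T t5 (T t175 (T t176 (L l104 (T t177 (K a192 (M a53 (F (T t178 (L l187 (L l236 (L l296 (T t180 (L l236 (L l397 (T t179 N)))))))))) (K a21 (M a240 (F (T t1090 (L l104 (T t1091 (L l397 (T t1207 N))))))) (K a85 (M a48 (F (T t1 (T t184 (L l104 (L l144 (L l417 (T t13 N)))))))) (K a213 (Fr a106 a192 l519 (Fr a42 a21 l68 (Fr a170 a234 l390 (Fr a255 a85 l476 (V t582))))) (K a42 (M a240 (F (T t1090 (L l104 (L l390 (T t1091 (L l397 (T t1207 N)))))))) (K a106 (M a101 (F (L l498 (T t1212 (L l187 (L l390 (T t1208 (L l397 (L l498 (T t1209 (L l390 (L l397 (L l498 (T t1210 (L l390 (L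 l498 (T t1211 N))))))))))))))))) (K a170 (M a48 (F (T t184 (L l462 (T t1 (L l104 (L l390 (L l417 (T t13 N))))))))) (K a191 (M a16 (F (T t97 (L l213 (T t1213 (L l213 (T t191 N))))))) (K a255 (M a16 (F (T t112 (L l289 (T t1213 (L l289 (L l296 (T t191 N)))))))) N))))))))))))))))⟩
def e0_63__111_107 : Ent 4 := ⟨[a0, a63], [a111, a178], (M a149 (F (T t5 (T t175 (T t176 (L l104 (T t177 (K a192 (M a53 (F (T t178 (L l236 (L l296 (T t180 (L l236 (L l397 (T t179 N))))))))) (K a21 (M a240 (F (T t1090 (L l104 (L l416 (T t1091 (L l397 (T t1207 N)))))))) (K a85 (M a48 (F (T t1 (T t184 (L l104 (L l144 (T t13 N))))))) (K a213 (Fr a106 a192 l519 (Fr a42 a21 l68 (Fr a170 a234 l390 (Fr a255 a85 l476 (V t582))))) (K a42 (M a240 (F (T t1090 (L l104 (L l390 (L l416 (T t1091 (L l397 (T t1207 N))))))))) (K a106 (M a101 (F (L l390 (T t1208 (L l397 (L l498 (T t1209 (L l224 (L l390 (L l397 (L l498 (T t1210 (L l390 (L l498 (T t1211 (L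 l498 (T t1212 N))))))))))))))))) (K a170 (M a48 (F (T t184 (L l462 (T t1 (L l104 (L l390 (T t13 N)))))))) (K a191 (M a16 (F (T t97 (L l213 (T t1213 (L l213 (T t191 N))))))) (K a255 (M a16 (F (T t112 (L l289 (T t1213 (L l289 (L l296 (T t191 N)))))))) N))))))))))))))))⟩
def e0_63__111_108 : Ent 4 := ⟨[a0, a63], [a111, a179], (M a48 (F (T t1 (T t2 (L l397 (T t3 (T t0 (K a16 (M a60 (F (T t43 (L l415 (T t64 (T t65 N)))))) (K a32 (M a60 (F (T t67 (L l415 (T t64 (L l24 (L l28 (T t65 N)))))))) (K a21 (M a192 (F (L l104 (T t206 (L l196 (T t27 (L l47 (L l347 (T t29 N))))))))) (K a37 (M a192 (F (T t19 (L l104 (T t206 (L l137 (L l196 (T t21 N)))))))) (K a53 (M a192 (F (T t19 (L l137 (L l196 (L l491 (T t21 (L l104 (T t521 N))))))))) (K a26 (M a192 (F (L l18 (T t19 (L l54 (L l104 (T t206 (L l137 (L l196 (T t21 N)))))))))) (K a42 (M a192 (F (T t19 (L l54 (L l104 (L l390 (T t206 (L l28 (T t29 N))))))))) (K a58 (M a192 (F (T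 t19 (L l137 (L l196 (T t21 (L l54 (L l104 (L l498 (T t521 N)))))))))) (K a15 (M a192 (F (L l483 (T t19 (L l104 (L l325 (T t206 (L l137 (L l196 (L l469 (T t21 N))))))))))) N))))))))))))))))⟩
def e0_63__111_109 : Ent 4 := ⟨[a0, a63], [a111, a181], (M a12 (F (T t122 (T t151 (T t152 (L l423 (T t153 (K a4 (M a60 (F (T t43 (L l443 (T t398 (T t448 N)))))) (K a8 (M a60 (F (T t67 (L l443 (T t398 (L l52 (L l56 (T t448 N)))))))) (K a21 (M a192 (F (T t836 (L l15 (L l199 (L l347 (T t450 (L l15 (L l199 (L l347 (T t157 N))))))))))) (K a25 (M a192 (F (T t449 (L l15 (L l199 (T t450 (L l137 (L l199 (T t21 N))))))))) (K a29 (M a192 (F (T t449 (L l137 (L l199 (L l371 (T t21 (L l104 (L l183 (T t160 N)))))))))) (K a38 (M a192 (F (T t156 (L l199 (T t450 (L l137 (L l199 (T t21 N)))))))) (K a42 (M a192 (F (T t449 (L l199 (T t450 (L l56 (L l199 (T t157 N)))))))) (K a46 (M a192 (F (T t449 (L l137 (L l199 (T t21 (L l26 (L l104 (L l183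 (L l408 (T t160 N))))))))))) (K a51 (M a192 (F (T t1725 (L l199 (L l415 (T t450 (L l137 (L l199 (L l439 (T t21 N)))))))))) N))))))))))))))))⟩
def e0_63__111_110 : Ent 4 := ⟨[a0, a63], [a111, a182], (M a149 (F (T t5 (T t175 (T t176 (L l104 (T t177 (K a192 (M a53 (F (T t178 (L l183 (L l236 (L l296 (T t180 (L l236 (L l397 (T t179 N)))))))))) (K a21 (M a240 (F (L l444 (T t1090 (L l104 (T t1091 (L l397 (L l444 (T t1207 N))))))))) (K a85 (M a48 (F (T t1 (T t184 (L l104 (L l144 (T t13 N))))))) (K a213 (Fr a106 a192 l519 (Fr a42 a21 l68 (Fr a170 a234 l390 (Fr a255 a85 l476 (V t582))))) (K a42 (M a240 (F (L l444 (T t1090 (L l104 (L l390 (T t1091 (L l397 (L l444 (T t1207 N)))))))))) (K a106 (M a101 (F (L l498 (T t1212 (L l183 (L l390 (T t1208 (L l397 (L l498 (T t1209 (L l390 (L l397 (L l498 (T t1210 (L l390 (L l498 (T t1211 N))))))))))))))))) (K a170 (M a48 (F (T t184 (L l462 (T t1 (L l104 (L l390 (T t13 N)))))))) (K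 a191 (M a240 (F (L l104 (T t962 (L l444 (T t963 N)))))) (K a255 (M a16 (F (T t112 (L l289 (T t1213 (L l289 (L l296 (T t191 N)))))))) N))))))))))))))))⟩
def e0_63__111_111 : Ent 4 := ⟨[a0, a63], [a111, a183], (M a48 (F (T t1 (T t2 (L l397 (T t3 (T t0 (K a16 (M a60 (F (T t43 (T t64 (T t65 N))))) (K a32 (M a60 (F (T t67 (T t64 (L l24 (L l28 (T t65 N))))))) (K a21 (M a192 (F (L l104 (T t206 (T t27 (L l47 (L l202 (L l347 (T t29 N))))))))) (K a37 (M a192 (F (T t19 (L l104 (T t206 (L l137 (L l202 (T t21 N)))))))) (K a53 (M a192 (F (T t19 (L l137 (L l202 (L l491 (T t21 (L l104 (T t521 N))))))))) (K a26 (M a192 (F (T t27 (L l54 (L l104 (T t206 (L l137 (L l202 (T t21 N))))))))) (K a42 (M a192 (F (T t19 (L l54 (L l104 (L l390 (T t206 (L l28 (L l202 (T t29 N)))))))))) (K a58 (M a192 (F (T t19 (L l137 (L l202 (T t21 (L l54 (L l104 (L l498 (T t521 N)))))))))) (K a15 (M a192 (F (T t55 (L l104 (L l325 (T t206 (L l137 (L l202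 (L l469 (T t21 N)))))))))) N))))))))))))))))⟩
def e0_63__111_112 : Ent 4 := ⟨[a0, a63], [a111, a186], (M a12 (F (T t122 (T t151 (T t152 (T t153 (K a4 (M a60 (F (T t43 (T t398 (T t448 N))))) (K a8 (M a60 (F (T t67 (T t398 (L l52 (L l56 (T t448 N))))))) (K a21 (M a192 (F (T t836 (L l15 (L l347 (T t450 (L l15 (L l347 (T t157 N))))))))) (K a25 (M a192 (F (T t449 (L l15 (T t450 (L l137 (L l440 (T t21 N)))))))) (K a29 (M a192 (F (T t449 (L l137 (L l371 (L l440 (T t21 (L l104 (T t160 N))))))))) (K a38 (M a192 (F (T t836 (T t450 (L l137 (L l440 (T t21 N))))))) (K a42 (M a192 (F (T t449 (T t450 (L l56 (T t157 N)))))) (K a46 (M a192 (F (T t449 (L l137 (L l440 (T t21 (L l26 (L l104 (L l408 (T t160 N)))))))))) (K a51 (M a192 (F (T t57 (L l513 (T t156 (L l415 (T t450 N))))))) N)))))))))))))))⟩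
def e0_63__111_113 : Ent 4 := ⟨[a0, a63], [a111, a187], (M a48 (F (T t1 (T t2 (L l397 (T t3 (T t0 (K a16 (M a60 (F (T t43 (L l439 (T t64 (T t65 N)))))) (K a32 (M a60 (F (T t67 (L l439 (T t64 (L l24 (L l28 (T t65 N)))))))) (K a21 (M a192 (F (L l104 (T t206 (T t27 (L l47 (L l347 (T t29 N)))))))) (K a37 (M a192 (F (T t19 (L l104 (T t206 (L l137 (L l439 (T t21 N)))))))) (K a53 (M a192 (F (T t19 (L l137 (L l439 (L l491 (T t21 (L l104 (T t521 N))))))))) (K a26 (M a192 (F (T t27 (L l54 (L l104 (T t206 (L l137 (L l439 (T t21 N))))))))) (K a42 (M a192 (F (T t19 (L l54 (L l104 (L l390 (T t206 (L l28 (T t29 N))))))))) (K a58 (M a192 (F (T t19 (L l137 (L l439 (T t21 (L l54 (L l104 (L l498 (T t521 N)))))))))) (K a15 (M a192 (F (T t57 (L l483 (T t27 (L l104 (L l325 (T t206 N)))))))) N))))))))))))))))⟩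
def e0_63__111_114 : Ent 4 := ⟨[a0, a63], [a111, a191], (M a48 (F (T t1 (T t2 (L l397 (T t3 (T t0 (K a16 (M a60 (F (T t43 (T t64 (T t65 N))))) (K a32 (M a60 (F (T t67 (T t64 (L l24 (L l28 (T t65 N))))))) (K a21 (M a192 (F (L l104 (T t206 (L l18 (T t19 (L l47 (L l220 (L l347 (T t29 N)))))))))) (K a37 (M a192 (F (T t19 (L l104 (T t206 (L l47 (L l220 (T t35 N)))))))) (K a53 (M a192 (F (T t19 (L l47 (L l220 (L l491 (T t35 (L l104 (T t521 N))))))))) (K a26 (M a192 (F (L l18 (T t19 (L l54 (L l104 (T t206 (L l18 (L l220 (T t35 N)))))))))) (K a42 (M a192 (F (T t19 (L l54 (L l104 (L l390 (T t206 (L l28 (L l220 (T t29 N)))))))))) (K a58 (M a192 (F (T t19 (L l220 (T t35 (L l54 (L l104 (L l498 (T t521 N))))))))) (K a15 (M a192 (F (L l483 (T t19 (L l104 (L l325 (T t206 (L l220 (L l469 (T t35 N)))))))))) N))))))))))))))))⟩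
def e0_63__111_115 : Ent 4 := ⟨[a0, a63], [a111, a192], (M a48 (F (T t48 (L l339 (T t1 (L l339 (T t2 (L l339 (L l397 (T t3 (L l339 (T t0 (K a16 (M a60 (F (T t138 (L l14 (L l18 (L l309 (T t67 (T t65 N)))))))) (K a32 (M a60 (F (T t138 (L l309 (T t67 (L l24 (L l28 (T t65 N)))))))) (K a21 (M a255 (F (T t554 (L l236 (L l347 (T t547 (L l47 (L l236 (T t548 N))))))))) (K a37 (M a52 (F (T t555 (L l334 (T t82 (L l21 (L l28 (T t84 N)))))))) (K a53 (M a12 (F (T t145 (L l47 (L l489 (T t122 (L l47 (T t146 N)))))))) (K a26 (M a56 (F (T t556 (L l334 (T t133 (L l12 (L l18 (T t135 N)))))))) (K a42 (M a255 (F (T t1260 (L l54 (L l268 (T t1160 (L l28 (L l236 (L l390 (T t548 N)))))))))) (K a58 (M a12 (F (T t145 (L l489 (T t122 (T t146 N)))))) (K a15 (M a4 (L l339 (F (T t129 (L l63 (L l514 (T t528 (T t520 (K a133 (M a74 (F (T t558 (L l73 (L l489 (T t519 (T t520 N))))))) (K a74 (M a133 (F (T t558 (L l73 (L l489 (T t519 (T t520 N)))))))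 N)))))))))) N)))))))))))))))))))))⟩
def e0_63__111_116 : Ent 4 := ⟨[a0, a63], [a111, a193], (M a48 (F (T t1 (T t2 (L l397 (T t3 (T t0 (K a16 (M a60 (F (T t43 (L l515 (T t64 (T t65 N)))))) (K a32 (M a60 (F (T t67 (L l515 (T t64 (L l24 (L l28 (T t65 N)))))))) (K a21 (M a192 (F (T t27 (L l104 (L l233 (T t206 (L l47 (L l347 (L l515 (T t29 N)))))))))) (K a37 (M a192 (F (T t19 (L l104 (L l233 (T t206 (L l137 (L l515 (T t21 N))))))))) (K a53 (M a192 (F (T t19 (L l137 (L l491 (L l515 (T t21 (L l104 (L l293 (T t521 N)))))))))) (K a26 (M a192 (F (T t27 (L l54 (L l104 (L l233 (T t206 (L l137 (L l515 (T t21 N)))))))))) (K a42 (M a192 (F (T t19 (L l54 (L l104 (L l233 (L l390 (T t206 (L l28 (L l515 (T t29 N))))))))))) (K a58 (M a192 (F (T t19 (L l137 (L l515 (T t21 (L l54 (L l104 (L l293 (L l498 (T t521 N))))))))))) (K a15 (M a192 (F (T t55 (L l104 (L l233 (L l325 (T t206 (L l137 (L l469 (L l515 (T t21 N))))))))))) N))))))))))))))))⟩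
def e0_63__111_117 : Ent 4 := ⟨[a0, a63], [a111, a194], (M a48 (F (T t1 (T t2 (L l397 (T t3 (T t0 (K a16 (M a60 (F (T t43 (L l486 (T t64 (T t65 N)))))) (K a32 (M a60 (F (T t67 (L l486 (T t64 (L l24 (L l28 (T t65 N)))))))) (K a21 (M a192 (F (T t27 (L l104 (L l516 (T t206 (L l47 (L l234 (L l347 (T t29 N)))))))))) (K a37 (M a192 (F (T t19 (L l104 (L l516 (T t206 (L l137 (T t21 N)))))))) (K a53 (M a192 (F (T t19 (L l137 (L l491 (T t21 (L l104 (L l516 (T t521 N))))))))) (K a26 (M a192 (F (T t27 (L l54 (L l104 (L l516 (T t206 (L l137 (T t21 N))))))))) (K a42 (M a192 (F (T t19 (L l54 (L l104 (L l390 (L l516 (T t206 (L l28 (L l234 (T t29 N))))))))))) (K a58 (M a192 (F (T t19 (L l137 (T t21 (L l54 (L l104 (L l498 (L l516 (T t521 N)))))))))) (K a15 (M a106 (F (T t2289 (L l234 (L l294 (T t306 N)))))) N))))))))))))))))⟩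
def e0_63__111_118 : Ent 4 := ⟨[a0, a63], [a111, a195], (M a48 (F (T t48 (L l337 (T t1 (L l337 (T t2 (L l337 (L l397 (T t3 (L l337 (T t0 (K a16 (M a60 (F (T t138 (L l14 (L l18 (L l307 (T t67 (T t65 N)))))))) (K a32 (M a60 (F (T t138 (L l307 (T t67 (L l24 (L l28 (T t65 N)))))))) (K a21 (M a192 (F (L l104 (L l235 (T t206 (L l273 (T t27 (L l47 (L l347 (T t29 N)))))))))) (K a37 (M a192 (F (T t55 (L l104 (L l235 (T t206 (L l137 (L l295 (T t21 N))))))))) (K a53 (M a192 (F (T t36 (L l137 (L l295 (L l491 (T t21 (L l104 (T t521 N))))))))) (K a26 (M a192 (F (L l273 (T t27 (L l54 (L l104 (L l235 (T t206 (L l137 (L l295 (T t21 N))))))))))) (K a42 (M a192 (F (T t55 (L l54 (L l104 (L l235 (L l390 (T t206 (L l28 (T t29 N)))))))))) (K a58 (M a192 (F (T t57 (L l273 (T t27 (L l54 (L l104 (L l498 (T t521 N))))))))) (K a15 (M a106 (L l337 (F (T t2289 (T t306 (K a135 (M a75 (F (T t3759 (L l273 (L l483 (T t551 (L l295 (L l469 (T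 t4723 N))))))))) (K a75 (M a135 (F (T t3759 (L l273 (L l483 (T t551 (L l295 (L l469 (T t4723 N))))))))) N))))))) N)))))))))))))))))))))⟩
def e0_63__111_119 : Ent 4 := ⟨[a0, a63], [a111, a197], (M a12 (F (T t122 (T t151 (T t152 (T t153 (K a4 (M a60 (F (T t43 (T t398 (T t448 N))))) (K a8 (M a60 (F (T t67 (T t398 (L l52 (L l56 (T t448 N))))))) (K a21 (M a192 (F (T t836 (L l15 (L l347 (L l491 (T t450 (L l15 (L l347 (L l491 (T t157 N))))))))))) (K a25 (M a192 (F (T t449 (L l15 (L l491 (T t450 (L l137 (L l491 (T t21 N))))))))) (K a29 (M a192 (F (T t449 (L l137 (L l371 (L l491 (T t21 (L l104 (L l275 (T t160 N)))))))))) (K a38 (M a192 (F (T t156 (L l491 (T t450 (L l137 (L l491 (T t21 N)))))))) (K a42 (M a192 (F (T t449 (L l491 (T t450 (L l56 (L l491 (T t157 N)))))))) (K a46 (M a192 (F (T t449 (L l137 (L l491 (T t21 (L l26 (L l104 (L l275 (L l408 (T t160 N))))))))))) (K a51 (M a192 (F (T t1725 (L l415 (L l491 (T t450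 (L l137 (L l439 (L l491 (T t21 N)))))))))) N)))))))))))))))⟩
def e0_63__111_120 : Ent 4 := ⟨[a0, a63], [a111, a198], (M a149 (F (T t5 (T t175 (T t176 (L l104 (T t177 (K a192 (M a53 (F (T t178 (L l229 (L l236 (L l296 (T t180 (L l229 (L l236 (L l397 (T t179 N))))))))))) (K a21 (M a240 (F (T t1090 (L l104 (T t1091 (L l397 (T t1207 N))))))) (K a85 (M a48 (F (T t1 (L l229 (T t184 (L l104 (L l144 (T t13 N)))))))) (K a213 (Fr a106 a192 l519 (Fr a42 a21 l68 (Fr a170 a234 l390 (Fr a255 a85 l476 (V t582))))) (K a42 (M a240 (F (T t1090 (L l104 (L l390 (T t1091 (L l397 (T t1207 N)))))))) (K a106 (M a101 (F (L l229 (L l397 (L l498 (T t1209 (L l229 (L l390 (T t1208 (L l390 (L l397 (L l498 (T t1210 (L l229 (L l390 (L l498 (T t1211 (L l229 (L l498 (T t1212 N)))))))))))))))))))) (K a170 (M a48 (F (L l462 (T t1 (L l229 (T t184 (L l104 (L l390 (T t13 N))))))))) (K a191 (M a16 (F (T t97 (L l213 (L l229 (T t1213 (L l213 (T t191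 N)))))))) (K a255 (M a16 (F (T t112 (L l229 (L l289 (T t1213 (L l289 (L l296 (T t191 N))))))))) N))))))))))))))))⟩
def e0_63__111_121 : Ent 4 := ⟨[a0, a63], [a111, a199], (M a149 (F (T t5 (T t175 (T t176 (L l104 (T t177 (K a192 (M a53 (F (T t178 (L l229 (L l236 (L l296 (L l314 (T t180 (L l229 (L l236 (L l397 (T t179 N)))))))))))) (K a21 (M a240 (F (T t1090 (L l104 (T t1091 (L l397 (T t1207 N))))))) (K a85 (M a48 (F (T t1 (L l229 (L l235 (T t184 (L l104 (L l144 (T t13 N))))))))) (K a213 (Fr a106 a192 l519 (Fr a42 a21 l68 (Fr a170 a234 l390 (Fr a255 a85 l476 (V t582))))) (K a42 (M a240 (F (T t1090 (L l104 (L l390 (T t1091 (L l397 (T t1207 N)))))))) (K a106 (M a101 (F (L l229 (L l397 (L l498 (T t1209 (L l229 (L l314 (L l390 (T t1208 (L l390 (L l397 (L l498 (T t1210 (L l229 (L l390 (L l498 (T t1211 (L l229 (L l235 (L l498 (T t1212 N)))))))))))))))))))))) (K a170 (M a48 (F (L l462 (T t1 (L l229 (L l235 (T t184 (L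 l104 (L l390 (T t13 N)))))))))) (K a191 (M a16 (F (T t97 (L l213 (L l229 (L l235 (T t1213 (L l213 (T t191 N))))))))) (K a255 (M a16 (F (T t112 (L l229 (L l235 (L l289 (T t1213 (L l289 (L l296 (T t191 N)))))))))) N))))))))))))))))⟩
def e0_63__111_122 : Ent 4 := ⟨[a0, a63], [a111, a202], (M a60 (F (T t67 (T t43 (T t68 (T t69 (K a20 (M a48 (F (T t64 (L l11 (L l318 (T t1 (L l11 (T t235 N)))))))) (K a40 (M a48 (F (T t64 (L l318 (T t1 (L l52 (T t235 N))))))) (K a21 (M a192 (F (T t72 (L l103 (L l347 (T t73 (L l137 (L l347 (T t74 N))))))))) (K a41 (M a192 (F (T t77 (L l65 (L l282 (T t35 (L l103 (T t73 N)))))))) (K a61 (M a192 (F (T t72 (L l65 (L l282 (L l515 (T t35 (L l104 (L l498 (T t80 N)))))))))) (K a22 (M a192 (F (T t72 (L l137 (T t21 (L l103 (T t73 N))))))) (K a42 (M a192 (F (T t77 (L l103 (T t73 (L l22 (L l137 (T t74 N)))))))) (K a62 (M a192 (F (T t72 (L l282 (T t35 (L l66 (L l104 (L l498 (L l516 (T t80 N))))))))))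 (K a3 (M a106 (F (T t2792 (L l234 (L l282 (T t1513 N)))))) N)))))))))))))))⟩
def e0_63__111_123 : Ent 4 := ⟨[a0, a63], [a111, a203], (M a149 (F (T t5 (T t175 (T t176 (L l104 (T t177 (K a192 (M a53 (F (T t178 (L l236 (L l296 (T t180 (L l236 (L l397 (T t179 N))))))))) (K a21 (M a240 (F (T t1090 (L l104 (T t1091 (L l397 (T t1207 N))))))) (K a85 (M a48 (F (T t1 (L l235 (T t184 (L l104 (L l144 (T t13 N)))))))) (K a213 (Fr a106 a192 l519 (Fr a42 a21 l68 (Fr a170 a234 l390 (Fr a255 a85 l476 (V t582))))) (K a42 (M a240 (F (T t1090 (L l104 (L l390 (T t1091 (L l397 (T t1207 N)))))))) (K a106 (M a101 (F (L l390 (T t1208 (L l397 (L l498 (T t1209 (L l390 (L l397 (L l498 (L l500 (T t1210 (L l390 (L l498 (T t1211 (L l235 (L l498 (T t1212 N)))))))))))))))))) (K a170 (M a48 (F (L l462 (T t1 (L l235 (T t184 (L l104 (L l390 (T t13 N))))))))) (K a191 (M a16 (F (T t97 (L l213 (L l235 (T t1213 (L l213 (T t191 N)))))))) (K a255 (M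 a16 (F (T t112 (L l235 (L l289 (T t1213 (L l289 (L l296 (T t191 N))))))))) N))))))))))))))))⟩
def e0_63__111_124 : Ent 4 := ⟨[a0, a63], [a111, a207], (M a60 (F (T t116 (L l331 (T t67 (L l331 (T t43 (L l331 (T t68 (L l331 (T t69 (K a20 (M a48 (F (T t138 (L l11 (L l325 (T t1 (L l11 (T t235 N)))))))) (K a40 (M a48 (F (T t48 (L l511 (T t64 (L l52 (T t235 N))))))) (K a21 (M a192 (F (T t2658 (L l103 (L l235 (L l347 (T t73 (L l137 (L l347 (T t74 N)))))))))) (K a41 (M a192 (F (T t254 (L l65 (L l289 (T t35 (L l103 (L l235 (T t73 N))))))))) (K a61 (M a192 (F (T t1334 (L l65 (L l289 (L l515 (T t35 (L l104 (T t80 N))))))))) (K a22 (M a192 (F (T t237 (L l11 (L l291 (T t79 (L l11 (L l289 (T t35 N))))))))) (K a42 (M a192 (F (T t237 (L l291 (T t79 (L l22 (L l137 (T t74 N)))))))) (K a62 (M a192 (F (T t57 (L l291 (T t79 (L l66 (L l104 (L l516 (T t80 N))))))))) (K a3 (M a192 (L l331 (F (T t237 (L l291 (L l477 (T t79 (L l289 (L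 l475 (T t35 (K a71 (M a139 (F (T t57 (L l104 (L l235 (L l307 (T t75 (L l291 (L l477 (T t1333 N)))))))))) (K a139 (M a71 (F (T t57 (L l104 (L l235 (L l307 (T t75 (L l291 (L l477 (T t1333 N)))))))))) N)))))))))))) N))))))))))))))))))))⟩
def e0_63__111_125 : Ent 4 := ⟨[a0, a63], [a111, a208], (M a12 (F (T t122 (T t151 (T t152 (T t153 (K a4 (M a60 (F (T t43 (T t398 (T t448 N))))) (K a8 (M a60 (F (T t398 (T t67 (L l52 (L l56 (T t448 N))))))) (K a21 (M a192 (F (T t836 (L l15 (L l347 (L l375 (T t450 (L l15 (L l347 (L l375 (T t157 N))))))))))) (K a25 (M a192 (F (T t449 (L l15 (L l375 (T t450 (L l137 (L l375 (T t21 N))))))))) (K a29 (M a192 (F (T t449 (L l137 (L l371 (L l375 (T t21 (L l104 (L l246 (T t160 N)))))))))) (K a38 (M a192 (F (T t156 (L l375 (T t450 (L l137 (L l375 (T t21 N)))))))) (K a42 (M a192 (F (T t449 (L l375 (T t450 (L l56 (L l375 (T t157 N)))))))) (K a46 (M a192 (F (T t449 (L l137 (L l375 (T t21 (L l26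 (L l104 (L l246 (L l408 (T t160 N))))))))))) (K a51 (M a192 (F (T t1725 (L l375 (L l415 (T t450 (L l137 (L l375 (L l439 (T t21 N)))))))))) N)))))))))))))))⟩
def e0_63__111_126 : Ent 4 := ⟨[a0, a63], [a111, a209], (M a48 (F (T t1 (T t2 (L l397 (T t3 (T t0 (K a16 (M a60 (F (T t43 (T t64 (T t65 N))))) (K a32 (M a60 (F (T t67 (T t64 (L l24 (L l28 (T t65 N))))))) (K a21 (M a192 (F (L l104 (T t206 (T t27 (L l47 (L l347 (L l371 (T t29 N))))))))) (K a37 (M a192 (F (T t19 (L l104 (T t206 (L l137 (L l371 (T t21 N)))))))) (K a53 (M a192 (F (T t19 (L l137 (L l371 (L l491 (T t21 (L l104 (L l243 (T t521 N)))))))))) (K a26 (M a192 (F (T t27 (L l54 (L l104 (T t206 (L l137 (L l371 (T t21 N))))))))) (K a42 (M a192 (F (T t19 (L l54 (L l104 (L l390 (T t206 (L l28 (L l371 (T t29 N)))))))))) (K a58 (M a192 (F (T t19 (L l137 (L l371 (T t21 (L l54 (L l104 (L l243 (L l498 (T t521 N))))))))))) (K a15 (M a192 (F (T t55 (L l104 (L l325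 (T t206 (L l137 (L l371 (L l469 (T t21 N)))))))))) N))))))))))))))))⟩
def e0_63__111_127 : Ent 4 := ⟨[a0, a63], [a111, a210], (M a149 (F (T t5 (T t175 (T t176 (L l104 (T t177 (K a192 (M a53 (F (T t178 (L l236 (L l296 (T t180 (L l236 (L l397 (T t179 N))))))))) (K a21 (M a240 (F (T t1090 (L l104 (T t1091 (L l397 (T t1207 N))))))) (K a85 (M a48 (F (T t1 (T t184 (L l104 (L l144 (L l273 (T t13 N)))))))) (K a213 (Fr a106 a192 l519 (Fr a42 a21 l68 (Fr a170 a234 l390 (Fr a255 a85 l476 (V t582))))) (K a42 (M a240 (F (T t1090 (L l104 (L l390 (T t1091 (L l397 (T t1207 N)))))))) (K a106 (M a101 (F (L l390 (T t1208 (L l397 (L l498 (T t1209 (L l390 (L l397 (L l498 (T t1210 (L l390 (L l498 (T t1211 (L l498 (T t1212 N)))))))))))))))) (K a170 (M a48 (F (T t184 (L l462 (T t1 (L l104 (L l273 (L l390 (T t13 N))))))))) (K a191 (M a16 (F (T t97 (L l213 (T t1213 (L l213 (T t191 N))))))) (K a255 (M a16 (F (T t112 (L l289 (T t1213 (L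 l289 (L l296 (T t191 N)))))))) N))))))))))))))))⟩
def e0_63__111_128 : Ent 4 := ⟨[a0, a63], [a111, a211], (M a149 (F (T t5 (T t175 (T t176 (L l104 (T t177 (K a192 (M a53 (F (T t178 (L l236 (L l296 (T t180 (L l236 (L l344 (L l397 (T t179 N)))))))))) (K a21 (M a240 (F (T t1090 (L l104 (T t1091 (L l397 (T t1207 N))))))) (K a85 (M a48 (F (T t1 (T t184 (L l104 (L l144 (T t13 N))))))) (K a213 (Fr a106 a192 l519 (Fr a42 a21 l68 (Fr a170 a234 l390 (Fr a255 a85 l476 (V t582))))) (K a42 (M a240 (F (T t1090 (L l104 (L l390 (T t1091 (L l397 (T t1207 N)))))))) (K a106 (M a101 (F (L l390 (T t1208 (L l344 (L l397 (L l498 (T t1209 (L l344 (L l390 (L l397 (L l498 (T t1210 (L l373 (L l390 (L l498 (T t1211 (L l245 (L l498 (T t1212 N)))))))))))))))))))) (K a170 (M a48 (F (T t184 (L l462 (T t1 (L l104 (L l390 (T t13 N)))))))) (K a191 (M a16 (F (T t112 (L l213 (T t1213 (L l213 (L l245 (T t191 N)))))))) (K a255 (M a16 (F (T t112 (L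 l289 (T t1213 (L l245 (L l289 (L l296 (T t191 N))))))))) N))))))))))))))))⟩
def e0_63__111_129 : Ent 4 := ⟨[a0, a63], [a111, a213], (M a48 (F (T t2 (L l347 (T t1 (L l347 (L l397 (T t3 (T t0 (K a16 (M a60 (F (T t43 (T t64 (T t65 N))))) (K a32 (M a60 (F (T t64 (L l347 (T t67 (L l24 (L l28 (T t65 N)))))))) (K a21 (M a85 (F (T t873 (L l47 (L l137 (L l246 (T t100 (L l137 (T t50 N))))))))) (K a37 (M a192 (F (T t19 (L l104 (L l275 (T t206 (L l137 (L l347 (T t21 N))))))))) (K a53 (M a192 (F (T t27 (L l137 (L l347 (L l491 (T t21 (L l104 (T t4838 N))))))))) (K a26 (M a192 (F (T t27 (L l54 (L l104 (L l275 (T t206 (L l137 (L l347 (T t21 N)))))))))) (K a42 (M a192 (F (T t19 (L l54 (L l104 (L l275 (L l390 (T t206 (L l28 (L l246 (L l347 (T t29 N)))))))))))) (K a58 (M a12 (F (T t443 (L l347 (T t122 (L l347 (T t146 N))))))) (K a15 (M a192 (F (T t55 (L l104 (L l275 (L l325 (T t206 (L l137 (L l347 (L l469 (T t21 N))))))))))) N))))))))))))))))))⟩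
def e0_63__111_130 : Ent 4 := ⟨[a0, a63], [a111, a214], (M a48 (F (T t1 (T t2 (L l397 (T t3 (T t0 (K a16 (M a60 (F (T t43 (T t64 (T t65 N))))) (K a32 (M a60 (F (T t67 (T t64 (L l24 (L l28 (T t65 N))))))) (K a21 (M a192 (F (L l104 (T t206 (T t27 (L l47 (L l347 (T t29 N)))))))) (K a37 (M a192 (F (T t19 (L l104 (T t206 (L l137 (T t21 N))))))) (K a53 (M a192 (F (T t19 (L l137 (L l491 (T t21 (L l104 (L l239 (T t521 N))))))))) (K a26 (M a192 (F (T t27 (L l54 (L l104 (T t206 (L l137 (T t21 N)))))))) (K a42 (M a192 (F (T t19 (L l54 (L l104 (L l390 (T t206 (L l28 (T t29 N))))))))) (K a58 (M a192 (F (T t19 (L l137 (T t21 (L l54 (L l104 (L l239 (L l498 (T t521 N)))))))))) (K a15 (M a106 (F (T t2289 (L l294 (T t306 N))))) N))))))))))))))))⟩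
def e0_63__111_131 : Ent 4 := ⟨[a0, a63], [a111, a215], (M a48 (F (T t1 (T t2 (L l397 (T t3 (T t0 (K a16 (M a60 (F (T t64 (L l14 (L l18 (L l350 (T t67 (L l349 (T t65 N))))))))) (K a32 (M a60 (F (T t64 (L l350 (T t67 (L l24 (L l28 (L l349 (T t65 N))))))))) (K a21 (M a192 (F (L l104 (T t206 (T t27 (L l47 (L l245 (L l347 (T t29 N))))))))) (K a37 (M a192 (F (T t19 (L l104 (T t206 (L l137 (L l295 (T t21 N)))))))) (K a53 (M a192 (F (T t19 (L l137 (L l295 (L l491 (T t21 (L l104 (L l239 (L l245 (T t521 N))))))))))) (K a26 (M a192 (F (T t27 (L l54 (L l104 (T t206 (L l137 (L l295 (T t21 N))))))))) (K a42 (M a192 (F (T t19 (L l54 (L l104 (L l390 (T t206 (L l28 (L l245 (T t29 N)))))))))) (K a58 (M a192 (F (T t19 (L l137 (L l295 (T t21 (L l54 (L l104 (L l239 (L l245 (L l498 (T t521 N)))))))))))) (K a15 (M a106 (F (T t2289 (T t306 N)))) N))))))))))))))))⟩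
def e0_63__111_132 : Ent 4 := ⟨[a0, a63], [a111, a218], (M a149 (F (L l246 (T t5 (L l282 (T t175 (L l246 (T t176 (L l104 (T t177 (K a192 (M a53 (F (T t178 (L l236 (L l246 (L l296 (T t180 (L l236 (L l397 (T t179 N)))))))))) (K a21 (M a240 (F (T t1090 (L l104 (T t1091 (L l397 (T t1207 N))))))) (K a85 (M a48 (F (T t1 (L l303 (T t184 (L l104 (L l144 (L l303 (T t13 N))))))))) (K a213 (Fr a106 a192 l519 (Fr a42 a21 l68 (Fr a170 a234 l390 (Fr a255 a85 l476 (V t582))))) (K a42 (M a240 (F (T t1090 (L l104 (L l390 (T t1091 (L l397 (T t1207 N)))))))) (K a106 (M a101 (F (L l397 (L l498 (T t1209 (L l246 (L l390 (T t1208 (L l246 (L l354 (L l390 (L l397 (L l498 (T t1210 (L l390 (L l498 (T t1211 (L l246 (L l303 (L l498 (T t1212 N))))))))))))))))))))) (K a170 (M a48 (F (L l462 (T t1 (L l303 (T t184 (L l104 (L l303 (L l390 (T t13 N)))))))))) (K a191 (M a208 (F (L l137 (T t1275 (L l354 (L l397 (T t1276 (L l104 (T t1277 N)))))))))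 (K a255 (M a208 (F (L l104 (T t1278 (L l354 (L l397 (L l440 (T t1276 (L l137 (L l296 (L l469 (T t1275 N)))))))))))) N)))))))))))))))))))⟩
def e0_63__111_133 : Ent 4 := ⟨[a0, a63], [a111, a219], (M a149 (F (T t5 (T t175 (T t176 (L l104 (T t177 (K a192 (M a53 (F (T t178 (L l236 (L l296 (T t180 (L l236 (L l397 (T t179 N))))))))) (K a21 (M a240 (F (T t1090 (L l104 (T t1091 (L l397 (T t1207 N))))))) (K a85 (M a48 (F (T t1 (L l301 (T t184 (L l104 (L l144 (T t13 N)))))))) (K a213 (Fr a106 a192 l519 (Fr a42 a21 l68 (Fr a170 a234 l390 (Fr a255 a85 l476 (V t582))))) (K a42 (M a240 (F (T t1090 (L l104 (L l390 (T t1091 (L l397 (T t1207 N)))))))) (K a106 (M a101 (F (L l390 (T t1208 (L l397 (L l498 (T t1209 (L l356 (L l390 (L l397 (L l498 (T t1210 (L l390 (L l498 (T t1211 (L l245 (L l301 (L l498 (T t1212 N))))))))))))))))))) (K a170 (M a48 (F (L l462 (T t1 (L l301 (T t184 (L l104 (L l390 (T t13 N))))))))) (K a191 (M a16 (F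 (T t97 (L l213 (L l301 (T t1213 (L l213 (L l245 (T t191 N))))))))) (K a255 (M a16 (F (T t112 (L l289 (L l301 (T t1213 (L l245 (L l289 (L l296 (T t191 N)))))))))) N))))))))))))))))⟩
def e0_63__111_134 : Ent 4 := ⟨[a0, a63], [a111, a223], (M a48 (F (T t1 (T t2 (L l368 (L l397 (T t3 (L l361 (T t0 (K a16 (M a85 (F (T t90 (L l137 (T t50 (L l246 (T t51 N))))))) (K a32 (M a60 (F (T t67 (T t64 (L l24 (L l28 (T t65 N))))))) (K a21 (M a255 (F (T t1160 (L l347 (L l368 (T t547 (L l137 (L l347 (L l368 (T t3730 N)))))))))) (K a37 (M a192 (F (T t27 (L l104 (L l289 (T t206 (L l137 (L l289 (T t21 N))))))))) (K a53 (M a192 (F (T t27 (L l137 (L l289 (L l491 (T t21 (L l104 (T t4838 N))))))))) (K a26 (M a192 (F (T t27 (L l54 (L l104 (L l289 (T t206 (L l137 (L l289 (T t21 N)))))))))) (K a42 (M a255 (F (T t1169 (L l368 (T t547 (L l54 (L l137 (L l368 (T t3730 N))))))))) (K a58 (M a192 (F (T t27 (L l137 (L l289 (T t21 (L l368 (T t4839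 N)))))))) (K a15 (M a106 (F (T t2289 (T t306 N)))) N))))))))))))))))))⟩
def e0_63__111_135 : Ent 4 := ⟨[a0, a63], [a111, a224], (M a12 (F (T t122 (T t151 (T t152 (T t153 (K a4 (M a60 (F (T t43 (T t398 (T t448 N))))) (K a8 (M a60 (F (T t398 (T t67 (L l52 (L l56 (T t448 N))))))) (K a21 (M a192 (F (T t836 (L l15 (L l248 (L l347 (T t450 (L l15 (L l248 (L l347 (T t157 N))))))))))) (K a25 (M a192 (F (T t449 (L l15 (L l248 (T t450 (L l137 (T t21 N)))))))) (K a29 (M a192 (F (T t449 (L l137 (L l371 (T t21 (L l104 (L l411 (T t160 N))))))))) (K a38 (M a192 (F (T t836 (L l248 (T t450 (L l137 (T t21 N))))))) (K a42 (M a192 (F (T t449 (L l248 (T t450 (L l56 (L l248 (T t157 N)))))))) (K a46 (M a192 (F (T t449 (L l137 (T t21 (L l26 (L l104 (L l408 (L l411 (T t160 N)))))))))) (K a51 (M a192 (F (T t576 (L l513 (T t156 (L l137 (L l439 (T t21 N)))))))) N)))))))))))))))⟩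
def e0_63__111_136 : Ent 4 := ⟨[a0, a63], [a111, a225], (M a149 (F (T t5 (T t175 (T t176 (L l104 (T t177 (K a192 (M a53 (F (T t178 (L l236 (L l296 (T t180 (L l236 (L l397 (T t179 N))))))))) (K a21 (M a240 (F (T t4727 (L l104 (T t1091 (L l397 (T t1207 N))))))) (K a85 (M a48 (F (T t1 (T t184 (L l104 (L l144 (L l273 (T t13 N)))))))) (K a213 (Fr a106 a192 l519 (Fr a42 a21 l68 (Fr a170 a234 l390 (Fr a255 a85 l476 (V t582))))) (K a42 (M a240 (F (T t2299 (L l104 (L l390 (T t1091 (L l397 (T t1207 N)))))))) (K a106 (M a101 (F (L l390 (T t1208 (L l397 (L l498 (T t1209 (L l390 (L l397 (L l498 (T t1210 (L l390 (L l498 (T t1211 (L l498 (T t1212 N)))))))))))))))) (K a170 (M a48 (F (T t184 (L l462 (T t1 (L l104 (L l273 (L l390 (T t13 N))))))))) (K a191 (M a16 (F (T t97 (L l213 (T t1213 (L l213 (T t191 N))))))) (K a255 (M a16 (F (T t112 (L l289 (T t1213 (L l289 (L l296 (T t191 N)))))))) N))))))))))))))))⟩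
def e0_63__111_137 : Ent 4 := ⟨[a0, a63], [a111, a226], (M a48 (F (T t1 (T t2 (L l397 (T t3 (T t0 (K a16 (M a60 (F (T t43 (T t64 (T t65 N))))) (K a32 (M a60 (F (T t67 (T t64 (L l24 (L l28 (T t65 N))))))) (K a21 (M a192 (F (T t27 (L l104 (L l408 (T t206 (L l47 (L l347 (T t29 N))))))))) (K a37 (M a192 (F (T t27 (L l104 (L l408 (T t206 (L l137 (T t21 N)))))))) (K a53 (M a192 (F (T t27 (L l137 (L l491 (T t21 (L l104 (L l408 (T t521 N))))))))) (K a26 (M a192 (F (T t27 (L l54 (L l104 (L l408 (T t206 (L l137 (T t21 N))))))))) (K a42 (M a192 (F (T t27 (L l54 (L l104 (L l390 (L l408 (T t206 (L l28 (T t29 N)))))))))) (K a58 (M a192 (F (T t27 (L l137 (T t21 (L l54 (L l104 (L l408 (L l498 (T t521 N)))))))))) (K a15 (M a106 (F (T t2289 (L l254 (T t306 N))))) N))))))))))))))))⟩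
def e0_63__111_138 : Ent 4 := ⟨[a0, a63], [a111, a227], (M a149 (F (T t5 (T t175 (T t176 (L l104 (T t177 (K a192 (M a53 (F (L l339 (T t982 (L l236 (L l255 (L l397 (T t179 (L l236 (L l296 (T t180 N))))))))))) (K a21 (M a240 (F (T t1834 (L l104 (T t1091 (L l397 (T t1207 N))))))) (K a85 (M a48 (F (T t1 (T t184 (L l104 (L l144 (T t13 N))))))) (K a213 (Fr a106 a192 l519 (Fr a42 a21 l68 (Fr a170 a234 l390 (Fr a255 a85 l476 (V t582))))) (K a42 (M a240 (F (T t2299 (L l104 (L l390 (T t1091 (L l397 (T t1207 N)))))))) (K a106 (M a101 (F (L l390 (T t1208 (L l255 (L l397 (L l498 (T t1209 (L l390 (L l498 (T t4737 (L l380 (L l390 (L l498 (T t1211 (L l380 (L l498 (T t1212 N)))))))))))))))))) (K a170 (M a48 (F (T t184 (L l462 (T t1 (L l104 (L l390 (T t13 N)))))))) (K a191 (M a16 (F (L l380 (T t97 (L l213 (T t191 (L l213 (L l380 (T t1213 N))))))))) (K a255 (M a16 (F (L l380 (T t112 (L l289 (L l296 (T t191 (L l289 (L l380 (T t1213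 N)))))))))) N))))))))))))))))⟩
def e0_63__111_139 : Ent 4 := ⟨[a0, a63], [a111, a229], (M a48 (F (T t1 (T t2 (L l397 (T t3 (T t0 (K a16 (M a60 (F (T t43 (T t64 (T t65 N))))) (K a32 (M a60 (F (T t67 (T t64 (L l24 (L l28 (T t65 N))))))) (K a21 (M a192 (F (L l303 (T t27 (L l47 (L l347 (T t29 (L l104 (L l275 (L l303 (T t206 N))))))))))) (K a37 (M a101 (F (T t2181 (L l275 (T t440 (L l256 (L l275 (L l397 (T t314 N))))))))) (K a53 (M a192 (F (T t55 (L l137 (L l491 (T t21 (L l104 (L l275 (T t521 N))))))))) (K a26 (M a192 (F (L l303 (T t27 (L l137 (T t21 (L l54 (L l104 (L l275 (L l303 (T t206 N))))))))))) (K a42 (M a192 (F (T t55 (L l54 (L l104 (L l275 (L l303 (L l390 (T t206 (L l28 (T t29 N))))))))))) (K a58 (M a192 (F (T t55 (L l137 (T t21 (L l54 (L l104 (L l275 (L l498 (T t521 N)))))))))) (K a15 (M a192 (F (T t55 (L l137 (L l469 (T t21 (L l104 (L l275 (L l303 (L l325 (T t206 N))))))))))) N))))))))))))))))⟩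
def e0_63__111_140 : Ent 4 := ⟨[a0, a63], [a111, a230], (M a48 (F (T t1 (T t2 (L l397 (T t3 (T t0 (K a16 (M a60 (F (T t43 (T t64 (T t65 N))))) (K a32 (M a60 (F (T t67 (T t64 (L l24 (L l28 (T t65 N))))))) (K a21 (M a192 (F (L l104 (T t206 (T t27 (L l47 (L l347 (T t29 N)))))))) (K a37 (M a192 (F (T t19 (L l104 (T t206 (L l137 (T t21 N))))))) (K a53 (M a192 (F (T t19 (L l137 (L l491 (T t21 (L l104 (L l278 (T t521 N))))))))) (K a26 (M a192 (F (T t27 (L l54 (L l104 (T t206 (L l137 (T t21 N)))))))) (K a42 (M a192 (F (T t19 (L l54 (L l104 (L l390 (T t206 (L l28 (T t29 N))))))))) (K a58 (M a192 (F (T t19 (L l137 (T t21 (L l54 (L l104 (L l278 (L l498 (T t521 N)))))))))) (K a15 (M a106 (F (T t2289 (L l254 (T t306 N))))) N))))))))))))))))⟩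
def e0_63__111_141 : Ent 4 := ⟨[a0, a63], [a111, a231], (M a149 (F (T t5 (T t175 (T t176 (L l104 (T t177 (K a192 (M a53 (F (T t178 (L l236 (L l296 (T t180 (L l236 (L l255 (L l397 (T t179 N)))))))))) (K a21 (M a240 (F (T t1090 (L l104 (T t1091 (L l397 (T t1207 N))))))) (K a85 (M a48 (F (T t1 (L l301 (T t184 (L l104 (L l144 (T t13 N)))))))) (K a213 (Fr a106 a192 l519 (Fr a42 a21 l68 (Fr a170 a234 l390 (Fr a255 a85 l476 (V t582))))) (K a42 (M a240 (F (T t1090 (L l104 (L l390 (T t1091 (L l397 (T t1207 N)))))))) (K a106 (M a101 (F (L l390 (T t1208 (L l255 (L l397 (L l498 (T t1209 (L l255 (L l390 (L l397 (L l498 (T t1210 (L l390 (L l498 (T t1211 (L l301 (L l498 (T t1212 N))))))))))))))))))) (K a170 (M a48 (F (L l462 (T t1 (L l301 (T t184 (L l104 (L l390 (T t13 N))))))))) (K a191 (M a16 (F (T t97 (L l213 (L l301 (T t1213 (L l213 (T t191 N)))))))) (K a255 (M a16 (F (T t112 (L l289 (L l301 (T t1213 (L l289 (L l296 (T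 t191 N))))))))) N))))))))))))))))⟩
def e0_63__111_142 : Ent 4 := ⟨[a0, a63], [a111, a234], (M a48 (F (T t1 (L l390 (T t2 (L l397 (T t3 (L l390 (T t0 (K a16 (M a60 (F (T t64 (L l14 (L l18 (T t67 (L l390 (T t65 N)))))))) (K a32 (M a60 (F (T t64 (T t67 (L l24 (L l28 (L l390 (T t65 N)))))))) (K a21 (M a192 (F (T t27 (L l104 (L l390 (T t206 (L l47 (L l282 (L l347 (T t29 N)))))))))) (K a37 (M a192 (F (T t27 (L l104 (L l390 (T t206 (L l28 (L l47 (L l282 (T t29 N)))))))))) (K a53 (M a12 (F (T t443 (L l47 (T t122 (L l47 (T t146 N))))))) (K a26 (M a192 (F (T t27 (L l54 (L l104 (L l390 (T t206 (L l282 (T t29 N))))))))) (K a42 (M a170 (F (T t4556 (L l54 (L l256 (L l397 (T t3070 (T t514 N)))))))) (K a58 (M a12 (F (T t122 (T t443 (T t146 N))))) (K a15 (M a192 (F (T t55 (L l104 (L l325 (L l390 (T t206 (L l282 (T t29 N))))))))) N))))))))))))))))))⟩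
def e0_63__111_143 : Ent 4 := ⟨[a0, a63], [a111, a235], (M a48 (F (T t1 (T t2 (L l397 (T t3 (T t0 (K a16 (M a60 (F (T t64 (L l14 (L l18 (L l391 (T t67 (L l392 (T t65 N))))))))) (K a32 (M a60 (F (T t64 (L l391 (T t67 (L l24 (L l28 (L l392 (T t65 N))))))))) (K a21 (M a192 (F (L l104 (T t206 (T t27 (L l47 (L l347 (T t29 N)))))))) (K a37 (M a192 (F (T t19 (L l104 (T t206 (L l137 (L l295 (T t21 N)))))))) (K a53 (M a192 (F (T t19 (L l137 (L l295 (L l491 (T t21 (L l104 (T t521 N))))))))) (K a26 (M a192 (F (T t27 (L l54 (L l104 (T t206 (L l137 (L l295 (T t21 N))))))))) (K a42 (M a192 (F (T t19 (L l54 (L l104 (L l390 (T t206 (L l28 (T t29 N))))))))) (K a58 (M a192 (F (T t19 (L l137 (L l295 (T t21 (L l54 (L l104 (L l498 (T t521 N)))))))))) (K a15 (M a106 (F (T t2289 (L l250 (T t306 N))))) N))))))))))))))))⟩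
def e0_63__111_144 : Ent 4 := ⟨[a0, a63], [a111, a239], (M a12 (L l397 (F (T t122 (T t151 (T t152 (T t153 (K a4 (M a47 (F (T t4019 (L l50 (L l404 (T t4014 (L l50 (T t4015 N)))))))) (K a8 (M a47 (F (T t4833 (L l398 (T t3908 (L l52 (T t4015 N))))))) (K a21 (M a89 (L l397 (F (T t870 (L l50 (T t863 (L l50 (T t864 (K a47 (M a175 (F (T t3543 (L l50 (T t4840 N))))) (K a175 (M a47 (F (T t2752 (L l18 (L l47 (L l50 (T t4826 N))))))) N)))))))))) (K a25 (M a15 (L l397 (F (T t715 (L l56 (T t716 (L l71 (T t717 (K a47 (M a175 (F (T t2692 (L l23 (L l137 (L l398 (T t4841 N))))))) (K a175 (Fr a47 a31 l61 (V t4842)) N)))))))))) (K a29 (M a47 (F (L l13 (T t4826 (L l15 (L l398 (T t4829 (L l13 (L l15 (L l404 (T t4014 (L l15 (L l404 (T t4828 (L l15 (L l404 (T t4830 N))))))))))))))))) (K a38 (M a47 (F (T t4019 (L l50 (L l404 (T t4014 (L l21 (L l50 (T t4015 N))))))))) (K a42 (M a170 (L l397 (F (T t2497 (L l26 (T t3880 (L l398 (T t2498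 (K a47 (M a175 (L l28 (F (T t4566 (L l137 (T t4736 (L l23 (L l26 (T t3880 (K a32 (M a37 (F (T t4735 (L l137 (L l376 (T t4736 (L l23 (L l26 (T t3880 N))))))))) (K a37 (M a32 (F (T t2497 (L l383 (L l411 (T t4843 N)))))) N))))))))))) (K a175 (M a47 (F (T t4566 (L l66 (T t4019 N))))) N)))))))))) (K a46 (M a47 (F (T t4833 (T t4826 (L l60 (L l404 (T t4831 (L l398 (T t4832 (L l60 (L l404 (T t4830 N)))))))))))) (K a51 (M a47 (F (T t4833 (L l39 (L l398 (T t3908 (T t4015 N))))))) (K a47 (M a175 (F (T t122 (L l23 (L l28 (T t151 (T t152 (L l28 (T t153 (K a4 (M a14 (F (L l137 (T t4844 (L l50 (T t728 N)))))) (K a8 (M a170 (F (L l137 (T t4736 (L l256 (L l398 (T t2626 N))))))) (K a21 (M a172 (F (T t4845 (L l15 (L l251 (L l399 (T t4846 N))))))) (K a25 (M a160 (F (T t4847 (L l15 (L l256 (L l411 (T t4848 N))))))) (K a29 (M a160 (F (T t4847 (L l15 (L l256 (L l411 (T t4848 N))))))) (K a38 (M a160 (F (T t4847 (L l26 (L l28 (L l289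 (L l411 (T t4762 N)))))))) (K a42 (M a170 (L l28 (F (T t4566 (L l137 (T t4736 (L l23 (L l26 (T t3880 (K a32 (M a37 (F (T t4735 (L l137 (L l376 (T t4736 (L l23 (L l26 (T t3880 N))))))))) (K a37 (M a32 (F (T t2497 (L l383 (L l411 (T t4843 N)))))) N))))))))))) (K a46 (M a44 (F (T t683 (L l26 (L l27 (L l28 (L l403 (T t684 (T t685 N))))))))) (K a51 (M a160 (F (T t4849 (L l256 (L l411 (L l489 (T t4848 N))))))) N)))))))))))))))))) (K a175 (M a47 (F (T t151 (L l398 (T t3908 (L l404 (T t4014 N))))))) N))))))))))))))))))⟩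
def e0_63__111_145 : Ent 4 := ⟨[a0, a63], [a111, a240], (M a48 (F (T t48 (L l483 (T t1 (L l483 (T t2 (L l397 (L l483 (T t3 (L l483 (T t0 (K a16 (M a60 (F (T t138 (L l14 (L l18 (L l453 (T t67 (T t65 N)))))))) (K a32 (M a60 (F (T t138 (L l453 (T t67 (L l24 (L l28 (T t65 N)))))))) (K a21 (M a101 (F (T t440 (L l18 (L l303 (L l397 (T t334 (L l18 (L l397 (T t314 N)))))))))) (K a37 (M a52 (F (T t555 (L l478 (T t82 (L l21 (L l28 (T t84 N)))))))) (K a53 (M a12 (F (T t145 (L l47 (L l417 (T t122 (L l47 (T t146 N)))))))) (K a26 (M a56 (F (T t556 (L l478 (T t133 (L l12 (L l18 (T t135 N)))))))) (K a42 (M a101 (F (T t4850 (L l54 (L l303 (T t687 (L l54 (L l397 (T t314 N))))))))) (K a58 (M a12 (F (T t145 (L l417 (T t122 (T t146 N)))))) (K a15 (M a4 (L l483 (F (T t129 (L l63 (L l442 (T t528 (T t520 (K a165 (M a90 (F (T t558 (L l73 (L l417 (T t519 (T t520 N))))))) (K a90 (M a165 (F (T t558 (L l73 (L l417 (T t519 (T t520 N)))))))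 N)))))))))) N)))))))))))))))))))))⟩
def e0_63__111_146 : Ent 4 := ⟨[a0, a63], [a111, a241], (M a149 (F (T t5 (T t175 (T t176 (L l104 (T t177 (K a192 (M a53 (F (T t178 (L l236 (L l296 (L l443 (T t180 (L l236 (L l397 (T t179 N)))))))))) (K a21 (M a240 (F (T t1090 (L l104 (T t1091 (L l397 (T t1207 N))))))) (K a85 (M a48 (F (T t1 (T t184 (L l104 (L l144 (L l258 (T t13 N)))))))) (K a213 (Fr a106 a192 l519 (Fr a42 a21 l68 (Fr a170 a234 l390 (Fr a255 a85 l476 (V t582))))) (K a42 (M a240 (F (T t1090 (L l104 (L l390 (T t1091 (L l397 (T t1207 N)))))))) (K a106 (M a101 (F (L l498 (T t1212 (L l390 (L l443 (T t1208 (L l397 (L l498 (T t1209 (L l390 (L l397 (L l498 (T t1210 (L l390 (L l498 (T t1211 N))))))))))))))))) (K a170 (M a48 (F (T t184 (L l462 (T t1 (L l104 (L l258 (L l390 (T t13 N))))))))) (K a191 (M a16 (F (T t97 (L l213 (T t1213 (L l213 (T t191 N))))))) (K a255 (M a16 (F (T t112 (L l289 (T t1213 (L l289 (L l296 (T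 t191 N)))))))) N))))))))))))))))⟩
def e0_63__111_147 : Ent 4 := ⟨[a0, a63], [a111, a242], (M a149 (F (T t5 (T t175 (T t176 (L l104 (T t177 (K a192 (M a53 (F (T t178 (L l236 (L l296 (T t180 (L l236 (L l397 (T t179 N))))))))) (K a21 (M a240 (F (T t1937 (L l104 (T t1091 (L l397 (L l444 (T t1207 N)))))))) (K a85 (M a48 (F (T t1 (T t184 (L l104 (L l144 (L l258 (T t13 N)))))))) (K a213 (Fr a106 a192 l519 (Fr a42 a21 l68 (Fr a170 a234 l390 (Fr a255 a85 l476 (V t582))))) (K a42 (M a240 (F (T t1834 (L l104 (L l390 (T t1091 (L l397 (L l444 (T t1207 N))))))))) (K a106 (M a101 (F (L l390 (T t1208 (L l397 (L l498 (T t1209 (L l390 (L l397 (L l498 (T t1210 (L l390 (L l498 (T t1211 (L l498 (T t1212 N)))))))))))))))) (K a170 (M a48 (F (T t184 (L l462 (T t1 (L l104 (L l258 (L l390 (T t13 N))))))))) (K a191 (M a240 (F (L l104 (T t962 (L l444 (T t963 N)))))) (K a255 (M a16 (F (T t112 (L l289 (T t1213 (L l289 (L l296 (T t191 N))))))))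 N))))))))))))))))⟩
def e0_63__111_148 : Ent 4 := ⟨[a0, a63], [a111, a243], (M a48 (F (T t48 (L l481 (T t1 (L l481 (T t2 (L l397 (L l481 (T t3 (L l481 (T t0 (K a16 (M a60 (F (T t138 (L l14 (L l18 (L l451 (T t67 (T t65 N)))))))) (K a32 (M a60 (F (T t138 (L l451 (T t67 (L l24 (L l28 (T t65 N)))))))) (K a21 (M a192 (F (L l104 (L l301 (T t206 (L l258 (T t27 (L l47 (L l347 (T t29 N)))))))))) (K a37 (M a192 (F (T t55 (L l104 (L l301 (T t206 (L l137 (L l265 (T t21 N))))))))) (K a53 (M a192 (F (T t36 (L l137 (L l265 (L l491 (T t21 (L l104 (T t521 N))))))))) (K a26 (M a192 (F (L l258 (T t27 (L l54 (L l104 (L l301 (T t206 (L l137 (L l265 (T t21 N))))))))))) (K a42 (M a192 (F (T t55 (L l54 (L l104 (L l301 (L l390 (T t206 (L l28 (T t29 N)))))))))) (K a58 (M a192 (F (T t57 (L l258 (T t27 (L l54 (L l104 (L l498 (T t521 N))))))))) (K a15 (M a106 (L l481 (F (T t2289 (T t306 (K a167 (M a91 (F (T t3759 (L l258 (L l483 (T t551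 (L l265 (L l469 (T t4723 N))))))))) (K a91 (M a167 (F (T t3759 (L l258 (L l483 (T t551 (L l265 (L l469 (T t4723 N))))))))) N))))))) N)))))))))))))))))))))⟩
def e0_63__111_149 : Ent 4 := ⟨[a0, a63], [a111, a245], (M a12 (F (T t122 (T t151 (T t152 (T t153 (K a4 (M a60 (F (T t43 (T t398 (T t448 N))))) (K a8 (M a60 (F (T t67 (T t398 (L l52 (L l56 (T t448 N))))))) (K a21 (M a192 (F (T t836 (L l15 (L l347 (T t450 (L l15 (L l259 (L l347 (T t157 N)))))))))) (K a25 (M a192 (F (T t449 (L l15 (T t450 (L l137 (L l266 (T t21 N)))))))) (K a29 (M a192 (F (T t449 (L l137 (L l266 (L l371 (T t21 (L l104 (L l275 (T t160 N)))))))))) (K a38 (M a192 (F (T t836 (T t450 (L l137 (L l266 (T t21 N))))))) (K a42 (M a192 (F (T t449 (T t450 (L l56 (L l259 (T t157 N))))))) (K a46 (M a192 (F (T t449 (L l137 (L l266 (T t21 (L l26 (L l104 (L l275 (L l408 (T t160 N))))))))))) (K a51 (M a192 (F (T t57 (L l513 (T t156 (L l415 (T t450 N))))))) N)))))))))))))))⟩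
def e0_63__111_150 : Ent 4 := ⟨[a0, a63], [a111, a246], (M a149 (F (T t5 (T t175 (T t176 (L l104 (T t177 (K a192 (M a53 (F (T t178 (L l236 (L l296 (T t180 (L l236 (L l397 (T t179 N))))))))) (K a21 (M a240 (F (T t1090 (L l104 (T t1091 (L l397 (T t1207 N))))))) (K a85 (M a48 (F (T t1 (T t184 (L l104 (L l144 (T t13 N))))))) (K a213 (Fr a106 a192 l519 (Fr a42 a21 l68 (Fr a170 a234 l390 (Fr a255 a85 l476 (V t582))))) (K a42 (M a240 (F (T t1090 (L l104 (L l390 (T t1091 (L l397 (T t1207 N)))))))) (K a106 (M a101 (F (L l390 (T t1208 (L l397 (L l498 (T t1209 (L l390 (L l397 (L l498 (T t1210 (L l390 (L l498 (T t1211 (L l498 (T t1212 N)))))))))))))))) (K a170 (M a48 (F (T t184 (L l462 (T t1 (L l104 (L l390 (T t13 N)))))))) (K a191 (M a16 (F (T t97 (L l213 (T t1213 (L l213 (T t191 N))))))) (K a255 (M a16 (F (T t112 (L l289 (T t1213 (L l289 (L l296 (T t191 N)))))))) N))))))))))))))))⟩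
def e0_63__111_151 : Ent 4 := ⟨[a0, a63], [a111, a247], (M a48 (F (T t1 (T t2 (L l397 (T t3 (T t0 (K a16 (M a60 (F (T t43 (T t64 (T t65 N))))) (K a32 (M a60 (F (T t64 (T t67 (L l24 (L l28 (T t65 N))))))) (K a21 (M a192 (F (L l104 (T t206 (T t27 (L l47 (L l347 (T t29 N)))))))) (K a37 (M a192 (F (T t19 (L l104 (T t206 (L l137 (L l265 (T t21 N)))))))) (K a53 (M a192 (F (T t19 (L l137 (L l265 (L l491 (T t21 (L l104 (L l278 (T t521 N)))))))))) (K a26 (M a192 (F (T t27 (L l54 (L l104 (T t206 (L l137 (L l265 (T t21 N))))))))) (K a42 (M a192 (F (T t19 (L l54 (L l104 (L l390 (T t206 (L l28 (T t29 N))))))))) (K a58 (M a192 (F (T t19 (L l137 (L l265 (T t21 (L l54 (L l104 (L l278 (L l498 (T t521 N))))))))))) (K a15 (M a106 (F (T t2289 (T t306 N)))) N))))))))))))))))⟩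
def e0_63__111_152 : Ent 4 := ⟨[a0, a63], [a111, a250], (M a12 (F (T t122 (T t151 (T t152 (T t153 (K a4 (M a60 (F (T t43 (T t398 (T t448 N))))) (K a8 (M a60 (F (T t67 (T t398 (L l52 (L l56 (T t448 N))))))) (K a21 (M a192 (F (T t836 (L l15 (L l347 (T t450 (L l15 (L l347 (T t157 N))))))))) (K a25 (M a192 (F (T t449 (L l15 (T t450 (L l137 (L l266 (T t21 N)))))))) (K a29 (M a192 (F (T t449 (L l137 (L l266 (L l371 (T t21 (L l104 (T t160 N))))))))) (K a38 (M a192 (F (T t156 (T t450 (L l137 (L l266 (T t21 N))))))) (K a42 (M a192 (F (T t449 (T t450 (L l56 (T t157 N)))))) (K a46 (M a192 (F (T t449 (L l137 (L l266 (T t21 (L l26 (L l104 (L l408 (T t160 N)))))))))) (K a51 (M a170 (F (T t4159 (L l260 (L l282 (T t3682 N)))))) N)))))))))))))))⟩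
def e0_63__111_153 : Ent 4 := ⟨[a0, a63], [a111, a251], (M a48 (F (T t1 (T t2 (L l397 (T t3 (T t0 (K a16 (M a60 (F (T t43 (T t64 (T t65 N))))) (K a32 (M a60 (F (T t64 (T t67 (L l24 (L l28 (T t65 N))))))) (K a21 (M a192 (F (L l104 (T t206 (T t27 (L l47 (L l347 (T t29 N)))))))) (K a37 (M a192 (F (T t19 (L l104 (T t206 (L l137 (L l265 (T t21 N)))))))) (K a53 (M a192 (F (T t19 (L l137 (L l265 (L l491 (T t21 (L l104 (T t521 N))))))))) (K a26 (M a192 (F (T t27 (L l54 (L l104 (T t206 (L l137 (L l265 (T t21 N))))))))) (K a42 (M a192 (F (T t19 (L l54 (L l104 (L l390 (T t206 (L l28 (T t29 N))))))))) (K a58 (M a192 (F (T t19 (L l137 (L l265 (T t21 (L l54 (L l104 (L l498 (T t521 N)))))))))) (K a15 (M a106 (F (T t2289 (L l284 (L l428 (T t306 N)))))) N))))))))))))))))⟩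
def e0_63__111_154 : Ent 4 := ⟨[a0, a63], [a111, a255], (M a12 (F (T t150 (L l439 (T t122 (L l439 (T t151 (L l439 (T t152 (L l439 (T t153 (K a4 (M a60 (F (T t570 (L l46 (L l50 (L l475 (T t67 (T t448 N)))))))) (K a8 (M a60 (F (T t570 (L l475 (T t67 (L l52 (L l56 (T t448 N)))))))) (K a21 (M a192 (F (T t2119 (L l15 (L l265 (L l347 (T t450 (L l15 (L l265 (L l347 (T t157 N))))))))))) (K a25 (M a192 (F (T t159 (L l15 (L l265 (T t450 (L l15 (L l56 (L l265 (T t157 N)))))))))) (K a29 (M a48 (F (T t145 (L l15 (L l469 (T t1 (T t866 N))))))) (K a38 (M a192 (F (T t2119 (L l265 (T t450 (L l265 (T t157 N))))))) (K a42 (M a192 (F (T t161 (L l290 (T t156 (L l56 (L l265 (T t157 N)))))))) (K a46 (M a48 (F (T t48 (L l434 (T t443 (L l26 (T t866 N))))))) (K a51 (M a192 (L l439 (F (T t161 (L l290 (L l513 (T t156 (L l265 (T t157 (K a119 (M a187 (F (T t1725 (L l104 (L l265 (L l415 (L l421 (T t543 (L l265 (L l421 (T t157 N)))))))))))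 (K a187 (M a119 (F (T t1725 (L l104 (L l189 (L l265 (L l415 (T t543 (L l265 (T t157 N)))))))))) N))))))))))) N))))))))))))))))))))⟩
def b0_63__111 : Blk 4 := ⟨[0, 63], [111], [1, 2, 3, 5, 6, 7, 10, 11, 15, 16, 17, 18, 19, 22, 23, 26, 27, 31, 32, 33, 34, 35, 37, 38, 39, 43, 47, 48, 49, 50, 51, 53, 54, 55, 58, 59, 64, 65, 66, 67, 69, 70, 71, 74, 75, 79, 80, 81, 82, 83, 85, 86, 87, 90, 91, 95, 96, 97, 98, 99, 101, 102, 103, 106, 107, 112, 113, 114, 115, 117, 118, 119, 122, 123, 127, 128, 129, 130, 131, 133, 134, 135, 138, 139, 143, 144, 145, 146, 147, 149, 150, 151, 154, 155, 159, 160, 161, 162, 163, 165, 166, 167, 170, 171, 175, 176, 177, 178, 179, 181, 182, 183, 186, 187, 191, 192, 193, 194, 195, 197, 198, 199, 202, 203, 207, 208, 209, 210, 211, 213, 214, 215, 218, 219, 223, 224, 225, 226, 227, 229, 230, 231, 234, 235, 239, 240, 241, 242, 243, 245, 246, 247, 250, 251, 255], [e0_63__111_0, e0_63__111_1, e0_63__111_2,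 e0_63__111_3, e0_63__111_4, e0_63__111_5, e0_63__111_6, e0_63__111_7, e0_63__111_8, e0_63__111_9, e0_63__111_10, e0_63__111_11, e0_63__111_12, e0_63__111_13, e0_63__111_14, e0_63__111_15, e0_63__111_16, e0_63__111_17, e0_63__111_18, e0_63__111_19, e0_63__111_20, e0_63__111_21, e0_63__111_22, e0_63__111_23, e0_63__111_24, e0_63__111_25, e0_63__111_26, e0_63__111_27, e0_63__111_28, e0_63__111_29, e0_63__111_30, e0_63__111_31, e0_63__111_32, e0_63__111_33, e0_63__111_34, e0_63__111_35, e0_63__111_36, e0_63__111_37, e0_63__111_38, e0_63__111_39, e0_63__111_40, e0_63__111_41, e0_63__111_42, e0_63__111_43, e0_63__111_44, e0_63__111_45, e0_63__111_46, e0_63__111_47, e0_63__111_48, e0_63__111_49, e0_63__111_50, e0_63__111_51, e0_63__111_52, e0_63__111_53, e0_63__111_54, e0_63__111_55, e0_63__111_56, e0_63__111_57, e0_63__111_58, e0_63__111_59, e0_63__111_60, e0_63__111_61, e0_63__111_62, e0_63__111_63, e0_63__111_64,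 e0_63__111_65, e0_63__111_66, e0_63__111_67, e0_63__111_68, e0_63__111_69, e0_63__111_70, e0_63__111_71, e0_63__111_72, e0_63__111_73, e0_63__111_74, e0_63__111_75, e0_63__111_76, e0_63__111_77, e0_63__111_78, e0_63__111_79, e0_63__111_80, e0_63__111_81, e0_63__111_82, e0_63__111_83, e0_63__111_84, e0_63__111_85, e0_63__111_86, e0_63__111_87, e0_63__111_88, e0_63__111_89, e0_63__111_90, e0_63__111_91, e0_63__111_92, e0_63__111_93, e0_63__111_94, e0_63__111_95, e0_63__111_96, e0_63__111_97, e0_63__111_98, e0_63__111_99, e0_63__111_100, e0_63__111_101, e0_63__111_102, e0_63__111_103, e0_63__111_104, e0_63__111_105, e0_63__111_106, e0_63__111_107, e0_63__111_108, e0_63__111_109, e0_63__111_110, e0_63__111_111, e0_63__111_112, e0_63__111_113, e0_63__111_114, e0_63__111_115, e0_63__111_116, e0_63__111_117, e0_63__111_118, e0_63__111_119, e0_63__111_120, e0_63__111_121, e0_63__111_122, e0_63__111_123, e0_63__111_124,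 e0_63__111_125, e0_63__111_126, e0_63__111_127, e0_63__111_128, e0_63__111_129, e0_63__111_130, e0_63__111_131, e0_63__111_132, e0_63__111_133, e0_63__111_134, e0_63__111_135, e0_63__111_136, e0_63__111_137, e0_63__111_138, e0_63__111_139, e0_63__111_140, e0_63__111_141, e0_63__111_142, e0_63__111_143, e0_63__111_144, e0_63__111_145, e0_63__111_146, e0_63__111_147, e0_63__111_148, e0_63__111_149, e0_63__111_150, e0_63__111_151, e0_63__111_152, e0_63__111_153, e0_63__111_154], by decide +kernel, by decide +kernel⟩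

end Pool.Agent.Lib_TTT.K4
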