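import Pool.Agent.Lib_TTT.K4Base
import Pool.Agent.Lib_TTT.K4T00
import Pool.Agent.Lib_TTT.K4T01
import Pool.Agent.Lib_TTT.K4T02
import Pool.Agent.Lib_TTT.K4T03
import Pool.Agent.Lib_TTT.K4T04
import Pool.Agent.Lib_TTT.K4T05
import Pool.Agent.Lib_TTT.K4T06
import Pool.Agent.Lib_TTT.K4T07
import Pool.Agent.Lib_TTT.K4T09

/-! Certificates in `4^4`. -/

set_option autoImplicit false
set_option maxRecDepth 200000

namespace Pool.Agent.Lib_TTT.K4

open Lib_TTT AC DC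

def e0_63__192_0 : Ent 4 := ⟨[a0, a63], [a192, a1], (M a48 (F (T t610 (L l65 (L l339 (T t1 (L l5 (L l339 (T t2 (L l65 (L l339 (T t3 (L l339 (T t0 (K a16 (M a60 (F (T t277 (L l14 (L l18 (L l65 (L l309 (T t67 (L l5 (T t65 N)))))))))) (K a32 (M a60 (F (T t277 (L l65 (L l309 (T t67 (L l5 (L l24 (L l28 (T t65 N)))))))))) (K a21 (M a60 (L l65 (F (T t1543 (L l47 (L l489 (T t42 (L l11 (L l18 (L l47 (L l334 (L l489 (T t876 (L l41 (L l50 (L l334 (T t250 (K a41 (Fr a61 a62 l33 (V t877)) (K a61 (M a41 (F (L l11 (T t878 (L l47 (L l59 (T t1299 (L l334 (T t248 N))))))))) N))))))))))))))))))) (K a37 (M a52 (F (T t555 (L l334 (T t82 (L l21 (L l28 (T t84 N)))))))) (K a53 (M a12 (F (T t865 (L l47 (L l65 (L l489 (T t122 (L l47 (L l65 (T t146 N)))))))))) (K a26 (M a56 (F (L l489 (T t134 (L l334 (T t133 (L l12 (L l18 (L l65 (T t135 N)))))))))) (K a42 (M a255 (F (T t557 (L l236 (L l473 (T t547 (L l28 (L l236 (L l390 (T t548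 N)))))))))) (K a58 (M a12 (F (T t145 (L l65 (L l489 (T t122 (L l65 (T t146 N)))))))) (K a15 (M a4 (L l339 (F (T t1604 (L l63 (L l514 (T t528 (T t520 (K a133 (M a74 (F (T t558 (L l73 (L l489 (T t519 (T t520 N))))))) (K a74 (M a133 (F (T t558 (L l73 (L l489 (T t519 (T t520 N))))))) N)))))))))) N)))))))))))))))))))))))⟩
def e0_63__192_1 : Ent 4 := ⟨[a0, a63], [a192, a2], (M a48 (F (T t607 (L l6 (L l339 (T t1 (L l66 (L l339 (T t2 (L l339 (T t3 (L l66 (L l339 (T t0 (K a16 (M a60 (F (T t246 (L l66 (L l309 (T t43 (L l6 (L l14 (L l18 (T t44 N)))))))))) (K a32 (M a60 (F (T t246 (L l24 (L l28 (L l66 (L l309 (T t43 (L l6 (T t44 N)))))))))) (K a21 (M a255 (F (T t4430 (L l236 (L l330 (L l347 (T t547 (L l47 (L l236 (L l474 (T t548 N))))))))))) (K a37 (M a52 (F (L l489 (T t83 (L l334 (T t82 (L l21 (L l28 (L l66 (T t84 N)))))))))) (K a53 (M a12 (F (T t865 (L l42 (L l47 (L l489 (T t122 (L l42 (L l47 (T t146 N))))))))))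 (K a26 (M a56 (F (T t556 (L l334 (T t133 (L l12 (L l18 (T t135 N)))))))) (K a42 (M a60 (L l66 (F (T t3520 (L l42 (L l489 (T t64 (L l42 (L l56 (L l334 (T t288 (L l22 (L l28 (L l54 (L l334 (L l489 (T t638 (K a22 (Fr a62 a61 l33 (V t639)) (K a62 (M a22 (F (L l22 (T t881 (L l54 (L l60 (T t882 (L l56 (L l334 (T t489 N)))))))))) N))))))))))))))))))) (K a58 (M a12 (F (T t145 (L l42 (L l489 (T t122 (L l42 (T t146 N)))))))) (K a15 (M a4 (L l339 (F (T t518 (L l66 (L l73 (L l489 (T t519 (L l66 (T t520 (K a133 (M a74 (F (T t558 (L l66 (L l73 (L l489 (T t519 (L l66 (T t520 N))))))))) (K a74 (M a133 (F (T t558 (L l66 (L l73 (L l489 (T t519 (L l66 (T t520 N))))))))) N)))))))))))) N)))))))))))))))))))))))⟩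
def e0_63__192_2 : Ent 4 := ⟨[a0, a63], [a192, a3], (Fr a21 a42 l68 (M a51 (L l309 (F (L l26 (L l56 (T t5942 (L l9 (L l26 (L l334 (T t8573 (L l9 (L l56 (L l334 (T t8574 (K a4 (M a16 (L l309 (F (L l28 (L l54 (T t8575 (L l26 (L l46 (T t8576 (L l28 (L l66 (L l69 (L l514 (T t8577 (K a129 (M a66 (F (L l28 (L l54 (T t8575 (L l26 (L l46 (T t8576 (L l28 (L l66 (L l69 (L l514 (T t8577 N))))))))))))) (K a66 (M a129 (F (L l28 (L l54 (T t8575 (L l26 (L l46 (T t8576 (L l28 (L l66 (L l69 (L l514 (T t8577 N))))))))))))) N)))))))))))))))) (K a12 (M a16 (L l9 (L l309 (L l334 (F (L l26 (T t8576 (L l28 (T t8578 (K a132 (M a72 (L l9 (L l309 (F (L l26 (T t8576 (L l28 (T t8578 (K a129 (M a66 (L l9 (F (L l26 (T t8576 (L l28 (T t8578 (K a9 (M a6 (F (L l28 (T t8578 (L l26 (T t8576 N)))))) (K a6 (M a9 (F (L l26 (T t8576 (L l28 (T t8578 N)))))) N))))))))) (K a9 (M a6 (L l309 (F (L l28 (T t8578 (L l26 (T t8576 (K a129 (M a66 (F (L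 l28 (T t8578 (L l26 (T t8576 N)))))) (K a66 (M a129 (F (L l28 (T t8578 (L l26 (T t8576 N)))))) N))))))))) (K a66 (M a129 (L l9 (F (L l26 (T t8576 (L l28 (T t8578 (K a9 (M a6 (F (L l28 (T t8578 (L l26 (T t8576 N)))))) (K a6 (M a9 (F (L l26 (T t8576 (L l28 (T t8578 N)))))) N))))))))) (K a6 (M a9 (L l309 (F (L l26 (T t8576 (L l28 (T t8578 (K a129 (M a66 (F (L l26 (T t8576 (L l28 (T t8578 N)))))) (K a66 (M a129 (F (L l26 (T t8576 (L l28 (T t8578 N)))))) N))))))))) N)))))))))))) (K a72 (M a132 (L l9 (L l309 (F (L l28 (L l54 (T t8575 (L l26 (L l56 (L l80 (L l296 (T t8579 (K a129 (M a66 (L l9 (F (L l28 (L l54 (T t8575 (L l26 (L l56 (L l80 (L l296 (T t8579 (K a9 (M a6 (F (L l28 (L l54 (T t8575 (L l26 (L l56 (L l80 (T t8580 N))))))))) (K a6 (M a9 (F (L l28 (L l54 (T t8575 (L l26 (L l48 (L l56 (L l80 (T t8580 N)))))))))) N))))))))))))) (K a9 (M a6 (L l309 (F (L l28 (L l54 (T t8575 (L l26 (L l56 (L l80 (T t8580 (K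 a129 (M a66 (F (L l28 (L l54 (T t8575 (L l26 (L l56 (L l80 (T t8580 N))))))))) (K a66 (M a129 (F (L l28 (L l54 (T t8575 (L l26 (L l56 (L l80 (T t8580 N))))))))) N)))))))))))) (K a66 (M a129 (L l9 (F (L l28 (L l54 (T t8575 (L l26 (L l56 (L l80 (L l296 (T t8579 (K a9 (M a6 (F (L l28 (L l54 (T t8575 (L l26 (L l56 (L l80 (T t8580 N))))))))) (K a6 (M a9 (F (L l28 (L l54 (T t8575 (L l26 (L l48 (L l56 (L l80 (T t8580 N)))))))))) N))))))))))))) (K a6 (M a9 (L l309 (F (L l28 (L l54 (T t8575 (L l26 (L l48 (L l56 (L l80 (T t8580 (K a129 (M a66 (F (L l28 (L l54 (T t8575 (L l26 (L l48 (L l56 (L l80 (T t8580 N)))))))))) (K a66 (M a129 (F (L l28 (L l54 (T t8575 (L l26 (L l48 (L l56 (L l80 (T t8580 N)))))))))) N))))))))))))) N)))))))))))))))) (K a129 (M a66 (L l9 (L l334 (F (L l26 (T t8576 (L l28 (T t8578 (K a132 (M a72 (L l9 (F (L l26 (T t8576 (L l28 (T t8578 (K a9 (M a6 (F (L l28 (T t8578 (L l26 (T t8576 N)))))) (K a6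 (M a9 (F (L l26 (T t8576 (L l28 (T t8578 N)))))) N))))))))) (K a72 (M a132 (L l9 (F (L l28 (L l54 (T t8575 (L l26 (L l56 (L l80 (L l296 (T t8579 (K a9 (M a6 (F (L l28 (L l54 (T t8575 (L l26 (L l56 (L l80 (T t8580 N))))))))) (K a6 (M a9 (F (L l28 (L l54 (T t8575 (L l26 (L l48 (L l56 (L l80 (T t8580 N)))))))))) N))))))))))))) (K a9 (M a6 (L l334 (F (L l28 (T t8578 (L l26 (T t8576 (K a132 (M a72 (F (L l28 (T t8578 (L l26 (T t8576 N)))))) (K a72 (M a132 (F (L l28 (L l54 (T t8575 (L l26 (L l56 (L l80 (T t8580 N))))))))) N))))))))) (K a6 (M a9 (L l334 (F (L l26 (T t8576 (L l28 (T t8578 (K a132 (M a72 (F (L l26 (T t8576 (L l28 (T t8578 N)))))) (K a72 (M a132 (F (L l28 (L l54 (T t8575 (L l26 (L l48 (L l56 (L l80 (T t8580 N)))))))))) N))))))))) N)))))))))))) (K a9 (M a6 (L l309 (L l334 (F (L l28 (T t8578 (L l26 (T t8576 (K a132 (M a72 (L l309 (F (L l28 (T t8578 (L l26 (T t8576 (K a129 (M a66 (F (L l28 (T t8578 (L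 l26 (T t8576 N)))))) (K a66 (M a129 (F (L l28 (T t8578 (L l26 (T t8576 N)))))) N))))))))) (K a72 (M a132 (L l309 (F (L l28 (L l54 (T t8575 (L l26 (L l56 (L l80 (T t8580 (K a129 (M a66 (F (L l28 (L l54 (T t8575 (L l26 (L l56 (L l80 (T t8580 N))))))))) (K a66 (M a129 (F (L l28 (L l54 (T t8575 (L l26 (L l56 (L l80 (T t8580 N))))))))) N)))))))))))) (K a129 (M a66 (L l334 (F (L l28 (T t8578 (L l26 (T t8576 (K a132 (M a72 (F (L l28 (T t8578 (L l26 (T t8576 N)))))) (K a72 (M a132 (F (L l28 (L l54 (T t8575 (L l26 (L l56 (L l80 (T t8580 N))))))))) N))))))))) (K a66 (M a129 (L l334 (F (L l28 (T t8578 (L l26 (T t8576 (K a132 (M a72 (F (L l28 (T t8578 (L l26 (T t8576 N)))))) (K a72 (M a132 (F (L l28 (L l54 (T t8575 (L l26 (L l56 (L l80 (T t8580 N))))))))) N))))))))) N)))))))))))) (K a66 (M a129 (L l9 (L l334 (F (L l26 (T t8576 (L l28 (T t8578 (K a132 (M a72 (L l9 (F (L l26 (T t8576 (L l28 (T t8578 (K a9 (M a6 (F (L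 l28 (T t8578 (L l26 (T t8576 N)))))) (K a6 (M a9 (F (L l26 (T t8576 (L l28 (T t8578 N)))))) N))))))))) (K a72 (M a132 (L l9 (F (L l28 (L l54 (T t8575 (L l26 (L l56 (L l80 (L l296 (T t8579 (K a9 (M a6 (F (L l28 (L l54 (T t8575 (L l26 (L l56 (L l80 (T t8580 N))))))))) (K a6 (M a9 (F (L l28 (L l54 (T t8575 (L l26 (L l48 (L l56 (L l80 (T t8580 N)))))))))) N))))))))))))) (K a9 (M a6 (L l334 (F (L l28 (T t8578 (L l26 (T t8576 (K a132 (M a72 (F (L l28 (T t8578 (L l26 (T t8576 N)))))) (K a72 (M a132 (F (L l28 (L l54 (T t8575 (L l26 (L l56 (L l80 (T t8580 N))))))))) N))))))))) (K a6 (M a9 (L l334 (F (L l26 (T t8576 (L l28 (T t8578 (K a132 (M a72 (F (L l26 (T t8576 (L l28 (T t8578 N)))))) (K a72 (M a132 (F (L l28 (L l54 (T t8575 (L l26 (L l48 (L l56 (L l80 (T t8580 N)))))))))) N))))))))) N)))))))))))) (K a6 (M a9 (L l309 (L l334 (F (L l26 (T t8576 (L l28 (T t8578 (K a132 (M a72 (L l309 (F (L l26 (T t8576 (L l28 (T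 t8578 (K a129 (M a66 (F (L l26 (T t8576 (L l28 (T t8578 N)))))) (K a66 (M a129 (F (L l26 (T t8576 (L l28 (T t8578 N)))))) N))))))))) (K a72 (M a132 (L l309 (F (L l28 (L l54 (T t8575 (L l26 (L l48 (L l56 (L l80 (T t8580 (K a129 (M a66 (F (L l28 (L l54 (T t8575 (L l26 (L l48 (L l56 (L l80 (T t8580 N)))))))))) (K a66 (M a129 (F (L l28 (L l54 (T t8575 (L l26 (L l48 (L l56 (L l80 (T t8580 N)))))))))) N))))))))))))) (K a129 (M a66 (L l334 (F (L l26 (T t8576 (L l28 (T t8578 (K a132 (M a72 (F (L l26 (T t8576 (L l28 (T t8578 N)))))) (K a72 (M a132 (F (L l28 (L l54 (T t8575 (L l26 (L l48 (L l56 (L l80 (T t8580 N)))))))))) N))))))))) (K a66 (M a129 (L l334 (F (L l26 (T t8576 (L l28 (T t8578 (K a132 (M a72 (F (L l26 (T t8576 (L l28 (T t8578 N)))))) (K a72 (M a132 (F (L l28 (L l54 (T t8575 (L l26 (L l48 (L l56 (L l80 (T t8580 N)))))))))) N))))))))) N)))))))))))) N))))))))))))))) (K a17 (M a48 (L l309 (F (L l28 (L l54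 (T t8581 (L l69 (L l514 (T t3279 (L l28 (L l41 (T t8582 (K a129 (M a66 (F (L l28 (L l54 (T t8581 (L l69 (L l514 (T t3279 (L l28 (L l41 (T t8582 N))))))))))) (K a66 (M a129 (F (L l28 (L l54 (T t8581 (L l69 (L l514 (T t3279 (L l28 (L l41 (T t8582 N))))))))))) N)))))))))))))) (K a25 (M a255 (L l56 (L l309 (F (T t8583 (L l232 (L l333 (T t8584 (L l26 (L l232 (L l390 (T t8585 (K a8 (Fr a59 a55 l37 (V t8586)) (K a129 (M a66 (L l56 (F (T t8583 (L l232 (L l333 (T t8584 (L l26 (L l232 (L l390 (T t8585 (K a8 (Fr a59 a55 l37 (V t8586)) (K a59 (M a8 (F (T t8587 (T t8588 (L l26 (L l232 (L l333 (T t8589 N)))))))) N))))))))))))) (K a66 (M a129 (L l56 (F (T t8583 (L l76 (L l390 (T t8590 (K a8 (Fr a59 a55 l37 (V t8586)) (K a59 (M a8 (F (T t8591 (L l22 (L l53 (L l69 (L l390 (T t8592 N)))))))) N))))))))) (K a59 (M a8 (L l309 (F (T t8587 (T t8588 (L l26 (L l232 (L l333 (T t8589 (K a129 (M a66 (F (T t8587 (T t8588 (L l26 (L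 l232 (L l333 (T t8589 N)))))))) (K a66 (M a129 (F (T t8591 (L l22 (L l53 (L l69 (L l390 (T t8592 N)))))))) N))))))))))) N)))))))))))))))) (K a29 (M a48 (L l309 (F (L l28 (L l54 (T t8593 (L l69 (L l514 (T t3279 (L l13 (L l28 (T t8582 (K a129 (M a66 (F (L l28 (L l54 (T t8593 (L l69 (L l514 (T t3279 (L l13 (L l28 (T t8582 N))))))))))) (K a66 (M a129 (F (L l28 (L l54 (T t8593 (L l69 (L l514 (T t3279 (L l13 (L l28 (T t8582 N))))))))))) N)))))))))))))) (K a34 (M a48 (L l26 (L l309 (F (L l20 (L l28 (L l54 (T t8581 (L l69 (L l514 (T t3279 (L l20 (L l28 (T t8582 (K a129 (M a66 (L l26 (F (L l20 (L l28 (L l54 (T t8581 (L l69 (L l514 (T t3279 (L l20 (L l28 (T t8582 (K a38 (M a46 (F (L l20 (L l28 (L l54 (T t8581 (L l69 (L l514 (T t3279 (L l21 (L l69 (L l514 (T t8594 N))))))))))))) (K a46 (M a38 (F (T t8595 (L l7 (L l54 (L l339 (T t8596 N))))))) N))))))))))))))) (K a66 (M a129 (L l26 (F (L l20 (L l28 (L l54 (T t8581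 (L l69 (L l514 (T t3279 (L l20 (L l28 (T t8582 (K a38 (M a46 (F (L l20 (L l28 (L l54 (T t8581 (L l69 (L l514 (T t3279 (L l21 (L l69 (L l514 (T t8594 N))))))))))))) (K a46 (M a38 (F (T t8595 (L l7 (L l54 (L l339 (T t8596 N))))))) N))))))))))))))) (K a38 (M a46 (L l309 (F (L l20 (L l28 (L l54 (T t8581 (L l69 (L l514 (T t3279 (L l21 (L l69 (L l514 (T t8594 (K a129 (M a66 (F (L l20 (L l28 (L l54 (T t8581 (L l69 (L l514 (T t3279 (L l21 (L l69 (L l514 (T t8594 N))))))))))))) (K a66 (M a129 (F (L l20 (L l28 (L l54 (T t8581 (L l69 (L l514 (T t3279 (L l21 (L l69 (L l514 (T t8594 N))))))))))))) N)))))))))))))))) (K a46 (M a38 (L l309 (F (T t8595 (L l7 (L l54 (L l339 (T t8596 (K a129 (M a66 (F (T t8595 (L l7 (L l54 (L l339 (T t8596 N))))))) (K a66 (M a129 (F (T t8595 (L l7 (L l54 (L l339 (T t8596 N))))))) N)))))))))) N)))))))))))))))))) (K a38 (M a48 (L l26 (L l309 (F (L l28 (L l54 (T t8593 (L l69 (L l514 (T t3279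 (L l7 (L l28 (L l72 (L l339 (T t8597 (K a129 (M a66 (L l26 (F (L l28 (L l54 (T t8593 (L l69 (L l514 (T t3279 (L l7 (L l28 (L l72 (L l339 (T t8597 (K a34 (M a46 (F (L l20 (L l28 (L l54 (T t8581 (L l69 (L l514 (T t3279 (L l21 (L l69 (L l514 (T t8594 N))))))))))))) (K a46 (Fr a34 a17 l44 (V t8593)) N)))))))))))))))) (K a66 (M a129 (L l26 (F (L l28 (L l54 (T t8593 (L l69 (L l514 (T t3279 (L l7 (L l28 (L l72 (L l339 (T t8597 (K a34 (M a46 (F (L l20 (L l28 (L l54 (T t8581 (L l69 (L l514 (T t3279 (L l21 (L l69 (L l514 (T t8594 N))))))))))))) (K a46 (Fr a34 a17 l44 (V t8593)) N)))))))))))))))) (K a34 (M a46 (L l309 (F (L l20 (L l28 (L l54 (T t8581 (L l69 (L l514 (T t3279 (L l21 (L l69 (L l514 (T t8594 (K a129 (M a66 (F (L l20 (L l28 (L l54 (T t8581 (L l69 (L l514 (T t3279 (L l21 (L l69 (L l514 (T t8594 N))))))))))))) (K a66 (M a129 (F (L l20 (L l28 (L l54 (T t8581 (L l69 (L l514 (T t3279 (L l21 (L l69 (L l514 (T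 t8594 N))))))))))))) N)))))))))))))))) (K a46 (Fr a34 a17 l44 (V t8593)) N))))))))))))))))))) (K a55 (M a37 (L l309 (F (L l54 (T t8598 (L l26 (T t8599 (L l7 (L l26 (L l339 (T t8600 (K a129 (M a66 (F (L l54 (T t8598 (L l26 (T t8599 (L l7 (L l26 (L l339 (T t8600 N)))))))))) (K a66 (M a129 (F (L l54 (T t8598 (L l26 (T t8599 (L l7 (L l26 (L l339 (T t8600 N)))))))))) N))))))))))))) (K a59 (M a37 (L l56 (L l309 (F (L l54 (T t8601 (L l26 (L l32 (T t8599 (L l7 (L l26 (L l339 (T t8600 (K a8 (M a25 (L l309 (F (T t8602 (L l2 (L l54 (T t8601 (K a129 (M a66 (F (T t8602 (L l2 (L l54 (T t8601 N)))))) (K a66 (M a129 (F (T t8602 (L l2 (L l54 (T t8601 N)))))) N))))))))) (K a129 (M a66 (L l56 (F (L l54 (T t8601 (L l26 (L l32 (T t8599 (L l7 (L l26 (L l339 (T t8600 (K a8 (M a25 (F (T t8602 (L l2 (L l54 (T t8601 N)))))) (K a25 (M a8 (F (L l54 (T t8601 (L l9 (L l19 (L l66 (L l69 (L l334 (T t8603 (L l9 (L l12 (L l55 (L l334 (T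 t8604 N))))))))))))))) N)))))))))))))) (K a25 (M a8 (L l309 (F (L l54 (T t8601 (L l9 (L l19 (L l66 (L l69 (L l334 (T t8603 (L l9 (L l12 (L l55 (L l334 (T t8604 (K a129 (M a66 (F (L l54 (T t8601 (L l9 (L l19 (L l66 (L l69 (L l334 (T t8603 (L l9 (L l12 (L l55 (L l334 (T t8604 N))))))))))))))) (K a66 (M a129 (F (L l54 (T t8601 (L l9 (L l19 (L l66 (L l69 (L l334 (T t8603 (L l9 (L l12 (L l55 (L l334 (T t8604 N))))))))))))))) N)))))))))))))))))) (K a66 (M a129 (L l56 (F (L l54 (T t8601 (L l26 (L l32 (T t8599 (L l7 (L l26 (L l339 (T t8600 (K a8 (M a25 (F (T t8602 (L l2 (L l54 (T t8601 N)))))) (K a25 (M a8 (F (L l54 (T t8601 (L l9 (L l19 (L l66 (L l69 (L l334 (T t8603 (L l9 (L l12 (L l55 (L l334 (T t8604 N))))))))))))))) N)))))))))))))) N))))))))))))))))) (K a129 (M a66 (F (L l26 (L l56 (T t5942 (L l9 (L l26 (L l334 (T t8573 (L l9 (L l56 (L l334 (T t8574 (K a4 (M a16 (F (L l28 (L l54 (T t8575 (L l26 (L l46 (T t8576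 (L l28 (L l66 (L l69 (L l514 (T t8577 N))))))))))))) (K a12 (M a16 (L l9 (L l334 (F (L l26 (T t8576 (L l28 (T t8578 (K a132 (M a72 (L l9 (F (L l26 (T t8576 (L l28 (T t8578 (K a9 (M a6 (F (L l28 (T t8578 (L l26 (T t8576 N)))))) (K a6 (M a9 (F (L l26 (T t8576 (L l28 (T t8578 N)))))) N))))))))) (K a72 (M a132 (L l9 (F (L l28 (L l54 (T t8575 (L l26 (L l56 (L l80 (L l296 (T t8579 (K a9 (M a6 (F (L l28 (L l54 (T t8575 (L l26 (L l56 (L l80 (T t8580 N))))))))) (K a6 (M a9 (F (L l28 (L l54 (T t8575 (L l26 (L l48 (L l56 (L l80 (T t8580 N)))))))))) N))))))))))))) (K a9 (M a6 (L l334 (F (L l28 (T t8578 (L l26 (T t8576 (K a132 (M a72 (F (L l28 (T t8578 (L l26 (T t8576 N)))))) (K a72 (M a132 (F (L l28 (L l54 (T t8575 (L l26 (L l56 (L l80 (T t8580 N))))))))) N))))))))) (K a6 (M a9 (L l334 (F (L l26 (T t8576 (L l28 (T t8578 (K a132 (M a72 (F (L l26 (T t8576 (L l28 (T t8578 N)))))) (K a72 (M a132 (F (L l28 (L l54 (T t8575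 (L l26 (L l48 (L l56 (L l80 (T t8580 N)))))))))) N))))))))) N)))))))))))) (K a17 (M a48 (F (L l28 (L l54 (T t8581 (L l69 (L l514 (T t3279 (L l28 (L l41 (T t8582 N))))))))))) (K a25 (M a255 (L l56 (F (T t8583 (L l232 (L l333 (T t8584 (L l26 (L l232 (L l390 (T t8585 (K a8 (Fr a59 a55 l37 (V t8586)) (K a59 (M a8 (F (T t8587 (T t8588 (L l26 (L l232 (L l333 (T t8589 N)))))))) N))))))))))))) (K a29 (M a48 (F (L l28 (L l54 (T t8593 (L l69 (L l514 (T t3279 (L l13 (L l28 (T t8582 N))))))))))) (K a34 (M a48 (L l26 (F (L l20 (L l28 (L l54 (T t8581 (L l69 (L l514 (T t3279 (L l20 (L l28 (T t8582 (K a38 (M a46 (F (L l20 (L l28 (L l54 (T t8581 (L l69 (L l514 (T t3279 (L l21 (L l69 (L l514 (T t8594 N))))))))))))) (K a46 (M a38 (F (T t8595 (L l7 (L l54 (L l339 (T t8596 N))))))) N))))))))))))))) (K a38 (M a48 (L l26 (F (L l28 (L l54 (T t8593 (L l69 (L l514 (T t3279 (L l7 (L l28 (L l72 (L l339 (T t8597 (K a34 (M a46 (F (L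 l20 (L l28 (L l54 (T t8581 (L l69 (L l514 (T t3279 (L l21 (L l69 (L l514 (T t8594 N))))))))))))) (K a46 (Fr a34 a17 l44 (V t8593)) N)))))))))))))))) (K a55 (M a37 (F (L l54 (T t8598 (L l26 (T t8599 (L l7 (L l26 (L l339 (T t8600 N)))))))))) (K a59 (M a37 (L l56 (F (L l54 (T t8601 (L l26 (L l32 (T t8599 (L l7 (L l26 (L l339 (T t8600 (K a8 (M a25 (F (T t8602 (L l2 (L l54 (T t8601 N)))))) (K a25 (M a8 (F (L l54 (T t8601 (L l9 (L l19 (L l66 (L l69 (L l334 (T t8603 (L l9 (L l12 (L l55 (L l334 (T t8604 N))))))))))))))) N)))))))))))))) N)))))))))))))))))))))) (K a66 (M a129 (F (L l26 (L l56 (T t5942 (L l9 (L l26 (L l334 (T t8573 (L l9 (L l56 (L l334 (T t8574 (K a4 (M a16 (F (L l28 (L l54 (T t8575 (L l26 (L l46 (T t8576 (L l28 (L l66 (L l69 (L l514 (T t8577 N))))))))))))) (K a12 (M a16 (L l9 (L l334 (F (L l26 (T t8576 (L l28 (T t8578 (K a132 (M a72 (L l9 (F (L l26 (T t8576 (L l28 (T t8578 (K a9 (M a6 (F (L l28 (T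 t8578 (L l26 (T t8576 N)))))) (K a6 (M a9 (F (L l26 (T t8576 (L l28 (T t8578 N)))))) N))))))))) (K a72 (M a132 (L l9 (F (L l28 (L l54 (T t8575 (L l26 (L l56 (L l80 (L l296 (T t8579 (K a9 (M a6 (F (L l28 (L l54 (T t8575 (L l26 (L l56 (L l80 (T t8580 N))))))))) (K a6 (M a9 (F (L l28 (L l54 (T t8575 (L l26 (L l48 (L l56 (L l80 (T t8580 N)))))))))) N))))))))))))) (K a9 (M a6 (L l334 (F (L l28 (T t8578 (L l26 (T t8576 (K a132 (M a72 (F (L l28 (T t8578 (L l26 (T t8576 N)))))) (K a72 (M a132 (F (L l28 (L l54 (T t8575 (L l26 (L l56 (L l80 (T t8580 N))))))))) N))))))))) (K a6 (M a9 (L l334 (F (L l26 (T t8576 (L l28 (T t8578 (K a132 (M a72 (F (L l26 (T t8576 (L l28 (T t8578 N)))))) (K a72 (M a132 (F (L l28 (L l54 (T t8575 (L l26 (L l48 (L l56 (L l80 (T t8580 N)))))))))) N))))))))) N)))))))))))) (K a17 (M a48 (F (L l28 (L l54 (T t8581 (L l69 (L l514 (T t3279 (L l28 (L l41 (T t8582 N))))))))))) (K a25 (M a1 (L l56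 (F (L l22 (L l53 (L l69 (L l76 (T t8605 (L l26 (L l45 (L l76 (T t8606 (L l22 (L l45 (L l53 (L l66 (L l69 (L l71 (L l484 (T t8607 (K a8 (Fr a59 a55 l37 (V t8605)) (K a59 (M a8 (F (L l228 (L l306 (T t8608 (L l22 (L l26 (L l45 (L l53 (L l66 (L l69 (T t8609 (L l22 (L l53 (L l69 (L l76 (T t8605 N))))))))))))))))) N)))))))))))))))))))))) (K a29 (M a48 (F (L l28 (L l54 (T t8593 (L l69 (L l514 (T t3279 (L l13 (L l28 (T t8582 N))))))))))) (K a34 (M a48 (L l26 (F (L l20 (L l28 (L l54 (T t8581 (L l69 (L l514 (T t3279 (L l20 (L l28 (T t8582 (K a38 (M a46 (F (L l20 (L l28 (L l54 (T t8581 (L l69 (L l514 (T t3279 (L l21 (L l69 (L l514 (T t8594 N))))))))))))) (K a46 (M a38 (F (T t8595 (L l7 (L l54 (L l339 (T t8596 N))))))) N))))))))))))))) (K a38 (M a48 (L l26 (F (L l28 (L l54 (T t8593 (L l69 (L l514 (T t3279 (L l7 (L l28 (L l72 (L l339 (T t8597 (K a34 (M a46 (F (L l20 (L l28 (L l54 (T t8581 (L l69 (L l514 (T t3279 (L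 l21 (L l69 (L l514 (T t8594 N))))))))))))) (K a46 (Fr a34 a17 l44 (V t8593)) N)))))))))))))))) (K a55 (M a1 (F (L l26 (T t8610 (L l22 (L l69 (L l76 (L l296 (T t8611 (L l26 (L l45 (L l76 (T t8606 N))))))))))))) (K a59 (M a1 (L l56 (F (L l26 (L l32 (T t8610 (L l22 (L l69 (L l76 (L l296 (T t8611 (L l26 (L l45 (L l76 (T t8606 (K a8 (M a25 (F (T t8602 (L l22 (L l69 (L l76 (T t8605 N))))))) (K a25 (M a8 (F (L l228 (L l306 (T t8608 (L l22 (L l26 (L l45 (L l53 (L l66 (L l69 (T t8609 (L l22 (L l53 (L l69 (L l76 (T t8605 N))))))))))))))))) N))))))))))))))))) N)))))))))))))))))))))) N))))))))))))))))))))))))))⟩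
def e0_63__192_3 : Ent 4 := ⟨[a0, a63], [a192, a5], (M a60 (F (T t522 (L l47 (L l309 (T t67 (L l309 (T t43 (L l47 (L l309 (T t68 (L l5 (L l309 (T t69 (K a20 (M a48 (F (T t277 (L l11 (L l14 (L l47 (L l339 (T t3 (L l46 (T t71 N)))))))))) (K a40 (M a48 (F (L l489 (T t70 (L l47 (L l339 (T t3 (L l22 (L l24 (T t71 N)))))))))) (K a21 (M a255 (L l47 (F (T t5786 (L l292 (T t1565 (L l65 (L l228 (T t1635 (K a37 (M a53 (F (T t4929 (L l50 (L l71 (T t5176 N)))))) (K a53 (M a37 (F (T t1639 (L l228 (T t2967 (L l35 (L l65 (L l228 (T t1635 N))))))))) N))))))))))) (K a41 (M a48 (F (T t1308 (L l47 (L l65 (L l489 (T t64 (L l47 (L l65 (L l339 (T t3 N))))))))))) (K a61 (M a48 (F (T t1543 (L l47 (L l65 (L l339 (T t3 (L l47 (L l65 (T t5312 N)))))))))) (K a22 (M a48 (F (L l489 (T t451 (L l1 (L l334 (T t247 (L l11 (L l47 (L l339 (T t3 N))))))))))) (K a42 (M a255 (F (T t1640 (L l228 (L l455 (T t1634 (L l22 (L l228 (L l390 (T t1635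 N)))))))))) (K a62 (M a48 (F (T t1543 (L l47 (L l339 (T t3 (L l47 (T t5312 N)))))))) (K a3 (M a48 (L l309 (F (T t1308 (L l43 (L l47 (L l489 (T t64 (L l7 (L l47 (L l339 (T t3 (K a129 (M a66 (F (T t1308 (L l43 (L l489 (T t451 (L l7 (L l47 (L l339 (T t3 N)))))))))) (K a66 (M a129 (F (T t1308 (L l43 (L l489 (T t451 (L l7 (L l47 (L l339 (T t3 N)))))))))) N)))))))))))))) N)))))))))))))))))))))))⟩
def e0_63__192_4 : Ent 4 := ⟨[a0, a63], [a192, a6], (M a48 (F (T t607 (L l6 (L l339 (T t1 (L l1 (L l339 (T t2 (L l339 (T t3 (L l339 (T t0 (K a16 (M a60 (F (T t138 (L l9 (L l14 (L l18 (L l309 (T t67 (L l1 (T t65 N)))))))))) (K a32 (M a60 (F (T t138 (L l9 (L l309 (T t67 (L l1 (L l24 (L l28 (T t65 N)))))))))) (K a21 (M a255 (F (T t554 (L l236 (L l347 (T t547 (L l47 (L l236 (T t548 N))))))))) (K a37 (M a12 (F (T t145 (L l47 (L l489 (T t122 (L l21 (L l28 (T t3324 N))))))))) (K a53 (M a12 (F (T t145 (L l47 (L l489 (T t122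 (L l47 (T t146 N)))))))) (K a26 (M a56 (F (T t556 (L l9 (L l334 (T t133 (L l12 (L l18 (T t135 N))))))))) (K a42 (M a255 (F (T t1260 (L l54 (L l268 (T t1160 (L l28 (L l236 (L l390 (T t548 N)))))))))) (K a58 (M a12 (F (T t145 (L l489 (T t122 (T t146 N)))))) (K a15 (M a56 (L l339 (F (T t6620 (L l3 (L l9 (L l334 (T t133 (T t135 (K a133 (M a74 (F (T t6620 (L l3 (L l9 (L l334 (T t133 (T t135 N)))))))) (K a74 (M a133 (F (T t6620 (L l3 (L l9 (L l334 (T t133 (T t135 N)))))))) N))))))))))) N))))))))))))))))))))))⟩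
def e0_63__192_5 : Ent 4 := ⟨[a0, a63], [a192, a7], (M a60 (F (T t116 (L l7 (L l309 (T t67 (L l7 (L l49 (L l309 (T t43 (L l7 (L l309 (T t68 (L l7 (L l309 (T t69 (K a20 (M a48 (F (T t138 (L l7 (L l11 (L l339 (T t1 (L l7 (L l46 (L l51 (T t71 N))))))))))) (K a40 (M a48 (F (T t48 (L l489 (T t64 (L l7 (L l22 (L l24 (L l51 (T t71 N)))))))))) (K a21 (M a255 (F (T t1639 (L l11 (L l228 (L l347 (T t1634 (L l65 (L l228 (T t1635 N)))))))))) (K a41 (M a32 (F (L l65 (T t820 (L l29 (L l334 (T t1573 (L l25 (L l51 (L l65 (T t1569 N))))))))))) (K a61 (M a16 (F (T t504 (L l334 (T t1140 (L l59 (T t1141 N))))))) (K a22 (M a52 (F (L l66 (T t1629 (L l1 (L l334 (T t3773 (L l48 (L l66 (T t3774 N)))))))))) (K a42 (M a255 (F (T t5790 (L l292 (T t1565 (L l22 (L l228 (L l390 (T t1635 N))))))))) (K a62 (M a16 (F (T t1574 (L l7 (L l66 (L l339 (T t97 (L l66 (T t1141 N))))))))) (K a3 (M a15 (L l309 (F (T t1460 (L l45 (L l484 (T t716 (L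 l1 (L l45 (T t1449 (K a129 (M a66 (F (T t1254 (L l9 (L l334 (T t4510 (L l1 (L l45 (T t1449 N))))))))) (K a66 (M a129 (F (T t1254 (L l9 (L l334 (T t4510 (L l1 (L l45 (T t1449 N))))))))) N)))))))))))) N)))))))))))))))))))))))))⟩
def e0_63__192_6 : Ent 4 := ⟨[a0, a63], [a192, a10], (M a60 (F (T t116 (L l309 (T t67 (L l54 (L l309 (T t43 (L l6 (L l309 (T t68 (L l54 (L l309 (T t69 (K a20 (M a48 (F (L l54 (L l339 (T t0 (L l489 (T t64 (L l6 (L l11 (T t235 N)))))))))) (K a40 (M a48 (F (T t236 (L l22 (L l24 (L l54 (L l339 (T t0 (L l6 (L l52 (T t235 N))))))))))) (K a21 (M a255 (F (T t1639 (L l11 (L l228 (L l347 (T t1634 (L l65 (L l228 (L l462 (T t1635 N))))))))))) (K a41 (M a48 (F (L l489 (T t42 (L l22 (L l57 (L l334 (T t247 (L l22 (L l54 (L l339 (T t0 N)))))))))))) (K a61 (M a48 (F (T t3235 (L l54 (L l339 (T t0 (L l54 (T t4126 N)))))))) (K a22 (M a48 (F (T t3235 (L l489 (T t64 (L l54 (L l66 (L l339 (T t0 N)))))))))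 (K a42 (M a255 (L l54 (F (T t5790 (L l292 (T t1565 (L l22 (L l228 (L l390 (L l462 (T t1635 (K a26 (M a58 (F (T t1640 (L l22 (L l28 (L l334 (T t2372 N))))))) (K a58 (M a26 (F (T t5790 (L l292 (T t2969 (L l22 (L l228 (L l390 (L l462 (T t1635 N)))))))))) N))))))))))))) (K a62 (M a48 (F (T t3235 (L l54 (L l66 (L l339 (T t0 (L l54 (L l66 (T t4126 N)))))))))) (K a3 (M a48 (L l309 (F (T t3520 (L l43 (L l489 (T t64 (L l7 (L l54 (L l339 (T t0 (K a129 (M a66 (F (T t3520 (L l43 (L l54 (L l489 (T t451 (L l7 (L l54 (L l339 (T t0 N))))))))))) (K a66 (M a129 (F (T t3520 (L l43 (L l54 (L l489 (T t451 (L l7 (L l54 (L l339 (T t0 N))))))))))) N))))))))))))) N)))))))))))))))))))))))⟩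
def e0_63__192_7 : Ent 4 := ⟨[a0, a63], [a192, a11], (M a60 (F (T t522 (L l7 (L l55 (L l309 (T t67 (L l7 (L l309 (T t43 (L l7 (L l309 (T t68 (L l7 (L l309 (T t69 (K a20 (M a48 (F (T t132 (L l489 (T t64 (L l7 (L l11 (L l57 (T t235 N))))))))) (K a40 (M a48 (F (T t607 (L l489 (T t64 (L l7 (L l52 (L l57 (T t235 N))))))))) (K a21 (M a255 (F (T t1639 (L l11 (L l228 (L l347 (T t1634 (L l65 (L l228 (T t1635 N)))))))))) (K a41 (M a56 (F (L l65 (T t427 (L l2 (L l334 (T t6295 (L l53 (L l65 (T t8612 N)))))))))) (K a61 (M a16 (F (T t112 (L l334 (T t1140 (L l57 (L l59 (T t1141 N)))))))) (K a22 (M a16 (F (L l66 (T t112 (L l19 (L l334 (T t1140 (L l16 (L l57 (L l66 (T t1141 N))))))))))) (K a42 (M a255 (F (T t5790 (L l292 (T t1565 (L l22 (L l228 (L l390 (T t1635 N))))))))) (K a62 (M a16 (F (L l334 (T t1140 (L l7 (L l66 (L l339 (T t97 (L l57 (L l66 (T t1141 N))))))))))) (K a3 (M a15 (L l309 (F (T t1460 (L l2 (L l45 (L l484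 (T t716 (L l45 (T t1449 (K a129 (M a66 (F (T t2354 (L l9 (L l334 (T t4510 (L l45 (T t1449 N)))))))) (K a66 (M a129 (F (T t2354 (L l9 (L l334 (T t4510 (L l45 (T t1449 N)))))))) N)))))))))))) N)))))))))))))))))))))))))⟩
def e0_63__192_8 : Ent 4 := ⟨[a0, a63], [a192, a15], (Fr a42 a21 l68 (M a12 (L l339 (F (L l15 (L l50 (T t8613 (L l15 (L l73 (L l489 (T t8466 (L l50 (L l73 (L l489 (T t8447 (K a4 (M a41 (L l50 (L l339 (F (L l11 (T t8614 (L l15 (L l46 (T t8615 (L l15 (T t8616 (K a133 (M a74 (L l50 (F (L l11 (T t8614 (L l15 (L l46 (T t8615 (L l15 (T t8616 (K a38 (M a55 (F (L l11 (T t8614 (L l18 (L l72 (L l73 (L l75 (L l489 (T t8617 (L l1 (L l48 (L l73 (L l489 (T t8618 N))))))))))))))) (K a55 (M a38 (F (T t8619 (L l11 (L l49 (T t8614 N)))))) N)))))))))))) (K a38 (M a55 (L l339 (F (L l11 (T t8614 (L l18 (L l72 (L l73 (L l75 (L l489 (T t8617 (L l1 (L l48 (L l73 (L l489 (T t8618 (K a133 (M a74 (F (L l11 (T t8614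 (L l18 (L l72 (L l73 (L l75 (L l489 (T t8617 (L l1 (L l48 (L l73 (L l489 (T t8618 N))))))))))))))) (K a74 (M a133 (F (L l11 (T t8614 (L l18 (L l72 (L l73 (L l75 (L l489 (T t8617 (L l1 (L l48 (L l73 (L l489 (T t8618 N))))))))))))))) N)))))))))))))))))) (K a74 (M a133 (L l50 (F (L l11 (T t8614 (L l15 (L l46 (T t8615 (L l15 (T t8616 (K a38 (M a55 (F (L l11 (T t8614 (L l18 (L l72 (L l73 (L l75 (L l489 (T t8617 (L l1 (L l48 (L l73 (L l489 (T t8618 N))))))))))))))) (K a55 (M a38 (F (T t8619 (L l11 (L l49 (T t8614 N)))))) N)))))))))))) (K a55 (M a38 (L l339 (F (T t8619 (L l11 (L l49 (T t8614 (K a133 (M a74 (F (T t8619 (L l11 (L l49 (T t8614 N)))))) (K a74 (M a133 (F (T t8619 (L l11 (L l49 (T t8614 N)))))) N))))))))) N))))))))))))))) (K a8 (M a41 (L l339 (F (L l11 (T t8620 (L l15 (T t8615 (L l15 (T t8616 (K a133 (M a74 (F (L l11 (T t8620 (L l15 (T t8615 (L l15 (T t8616 N)))))))) (K a74 (M a133 (F (L l11 (T t8620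 (L l15 (T t8615 (L l15 (T t8616 N)))))))) N))))))))))) (K a25 (M a60 (L l15 (L l339 (F (L l11 (L l65 (T t8621 (L l18 (L l75 (L l484 (T t417 (L l7 (L l19 (L l65 (L l309 (T t8622 (K a17 (Fr a29 a46 l62 (V t8623)) (K a133 (M a74 (L l15 (F (L l11 (L l65 (T t8621 (L l18 (L l75 (L l484 (T t417 (L l7 (L l19 (L l65 (L l309 (T t8622 (K a17 (Fr a29 a46 l62 (V t8623)) (K a29 (M a17 (F (L l11 (L l59 (L l65 (T t8621 (L l18 (L l75 (L l484 (T t417 (L l50 (L l75 (L l484 (T t8624 N)))))))))))))) N))))))))))))))))) (K a29 (M a17 (L l339 (F (L l11 (L l59 (L l65 (T t8621 (L l18 (L l75 (L l484 (T t417 (L l50 (L l75 (L l484 (T t8624 (K a133 (M a74 (F (L l11 (L l59 (L l65 (T t8621 (L l18 (L l75 (L l484 (T t417 (L l50 (L l75 (L l484 (T t8624 N)))))))))))))) (K a74 (M a133 (F (L l11 (L l59 (L l65 (T t8621 (L l18 (L l75 (L l484 (T t417 (L l50 (L l75 (L l484 (T t8624 N)))))))))))))) N))))))))))))))))) (K a74 (M a133 (L l15 (F (L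 l11 (L l65 (T t8621 (L l18 (L l75 (L l484 (T t417 (L l7 (L l19 (L l65 (L l309 (T t8622 (K a17 (Fr a29 a46 l62 (V t8623)) (K a29 (M a17 (F (L l11 (L l59 (L l65 (T t8621 (L l18 (L l75 (L l484 (T t417 (L l50 (L l75 (L l484 (T t8624 N)))))))))))))) N))))))))))))))))) N)))))))))))))))))))) (K a29 (M a48 (L l15 (L l339 (F (L l63 (L l514 (T t1580 (L l47 (L l73 (T t8625 (L l18 (L l50 (L l59 (T t8626 (L l18 (L l73 (T t8627 (K a17 (M a25 (L l339 (F (T t8628 (L l13 (L l63 (L l514 (T t443 (L l50 (L l63 (L l514 (T t8629 (K a133 (M a74 (F (T t8630 (L l18 (L l47 (L l160 (T t8631 N))))))) (K a74 (M a133 (F (T t8628 (L l13 (L l63 (L l514 (T t443 (L l50 (L l63 (L l514 (T t8629 N))))))))))) N)))))))))))))) (K a133 (M a74 (L l15 (F (L l50 (T t865 (L l18 (L l47 (L l160 (L l296 (T t8632 (L l47 (L l50 (L l73 (T t8633 (K a17 (M a25 (F (T t8630 (L l18 (L l47 (L l160 (T t8631 N))))))) (K a25 (M a17 (F (L l50 (T t865 (L l18 (L l71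 (L l73 (L l489 (T t8634 (L l63 (L l514 (T t3334 N)))))))))))) N)))))))))))))))) (K a25 (M a17 (L l339 (F (L l50 (T t865 (L l7 (L l65 (L l309 (T t8635 (L l47 (L l63 (L l71 (L l514 (T t3337 (K a133 (M a74 (F (L l50 (T t865 (L l18 (L l71 (L l73 (L l489 (T t8634 (L l63 (L l514 (T t3334 N)))))))))))) (K a74 (M a133 (F (L l50 (T t865 (L l7 (L l65 (L l309 (T t8635 (L l47 (L l63 (L l71 (L l514 (T t3337 N))))))))))))) N)))))))))))))))) (K a74 (M a133 (L l15 (F (L l63 (L l514 (T t1580 (L l47 (L l73 (L l318 (T t8625 (L l18 (L l50 (L l59 (T t8626 (L l18 (L l73 (T t8627 (K a17 (M a25 (F (T t8628 (L l13 (L l63 (L l514 (T t443 (L l50 (L l63 (L l514 (T t8629 N))))))))))) (K a25 (M a17 (F (L l50 (T t865 (L l7 (L l65 (L l309 (T t8635 (L l47 (L l63 (L l71 (L l514 (T t3337 N))))))))))))) N))))))))))))))))))) N))))))))))))))))))))) (K a34 (M a40 (L l339 (F (L l11 (L l65 (T t8636 (L l50 (L l63 (L l514 (T t8637 (L l18 (L l50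 (L l75 (T t8638 (K a133 (M a74 (F (L l11 (L l65 (T t8636 (L l50 (L l63 (L l514 (T t8637 (L l18 (L l50 (L l75 (T t8638 N))))))))))))) (K a74 (M a133 (F (L l11 (L l65 (T t8636 (L l50 (L l63 (L l514 (T t8637 (L l18 (L l50 (L l75 (T t8638 N))))))))))))) N)))))))))))))))) (K a38 (M a255 (L l50 (L l339 (F (T t2126 (L l232 (L l327 (T t2034 (L l15 (L l272 (T t2032 (K a4 (M a55 (L l339 (F (T t8639 (L l232 (L l327 (T t2124 (L l232 (L l327 (T t8640 (K a133 (M a74 (F (T t2128 (L l160 (L l347 (L l458 (T t8641 N))))))) (K a74 (M a133 (F (T t8639 (L l232 (L l327 (T t2124 (L l232 (L l327 (T t8640 N))))))))) N)))))))))))) (K a133 (M a74 (L l50 (F (T t2030 (L l160 (L l347 (T t8641 (K a4 (M a55 (F (T t2128 (L l160 (L l347 (L l458 (T t8641 N))))))) (K a55 (Fr a4 a8 l4 (V t8642)) N))))))))) (K a74 (M a133 (L l50 (F (T t2126 (L l232 (L l327 (T t2034 (L l15 (L l272 (T t2032 (K a4 (M a55 (F (T t8639 (L l232 (L l327 (T t2124 (L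 l232 (L l327 (T t8640 N))))))))) (K a55 (Fr a4 a8 l4 (V t8642)) N)))))))))))) (K a55 (Fr a4 a8 l4 (V t8642)) N))))))))))))))) (K a46 (M a40 (L l339 (F (L l11 (L l65 (T t8643 (L l50 (L l63 (L l514 (T t8637 (L l18 (L l50 (L l75 (T t8638 (K a133 (M a74 (F (L l11 (L l65 (T t8643 (L l50 (L l63 (L l514 (T t8637 (L l18 (L l50 (L l75 (T t8638 N))))))))))))) (K a74 (M a133 (F (L l11 (L l65 (T t8643 (L l50 (L l63 (L l514 (T t8637 (L l18 (L l50 (L l75 (T t8638 N))))))))))))) N)))))))))))))))) (K a51 (M a40 (L l73 (L l339 (L l489 (F (L l11 (L l65 (T t8643 (L l39 (L l50 (L l63 (L l514 (T t8637 (L l18 (L l50 (L l75 (T t8638 (K a145 (M a98 (L l73 (L l339 (F (L l11 (L l65 (T t8643 (L l15 (L l50 (L l196 (L l296 (T t8644 (K a133 (M a74 (L l73 (F (L l11 (L l65 (T t8643 (L l15 (L l50 (L l196 (L l296 (T t8644 (K a39 (M a27 (F (L l11 (L l65 (T t8643 (L l15 (L l21 (L l50 (L l196 (L l296 (T t8644 N))))))))))) (K a27 (M a39 (F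 (L l11 (L l65 (T t8643 (L l15 (L l50 (L l196 (L l296 (T t8644 N)))))))))) N))))))))))))) (K a74 (M a133 (L l73 (F (L l11 (L l65 (T t8643 (L l15 (L l50 (L l196 (L l296 (T t8644 (K a39 (M a27 (F (L l11 (L l65 (T t8643 (L l15 (L l21 (L l50 (L l196 (L l296 (T t8644 N))))))))))) (K a27 (M a39 (F (L l11 (L l65 (T t8643 (L l15 (L l50 (L l196 (L l296 (T t8644 N)))))))))) N))))))))))))) (K a39 (M a27 (L l339 (F (L l11 (L l65 (T t8643 (L l15 (L l21 (L l50 (L l196 (L l296 (T t8644 (K a133 (M a74 (F (L l11 (L l65 (T t8643 (L l15 (L l21 (L l50 (L l196 (L l296 (T t8644 N))))))))))) (K a74 (M a133 (F (L l11 (L l65 (T t8643 (L l15 (L l21 (L l50 (L l196 (L l296 (T t8644 N))))))))))) N)))))))))))))) (K a27 (M a39 (L l339 (F (L l11 (L l65 (T t8643 (L l15 (L l50 (L l196 (L l296 (T t8644 (K a133 (M a74 (F (L l11 (L l65 (T t8643 (L l15 (L l50 (L l196 (L l296 (T t8644 N)))))))))) (K a74 (M a133 (F (L l11 (L l65 (T t8643 (L l15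 (L l50 (L l196 (L l296 (T t8644 N)))))))))) N))))))))))))) N)))))))))))))))) (K a133 (M a74 (L l73 (L l489 (F (L l11 (L l65 (T t8643 (L l39 (L l50 (L l63 (L l514 (T t8637 (L l18 (L l50 (L l75 (T t8638 (K a145 (M a98 (L l73 (F (L l11 (L l65 (T t8643 (L l15 (L l50 (L l196 (L l296 (T t8644 (K a39 (M a27 (F (L l11 (L l65 (T t8643 (L l15 (L l21 (L l50 (L l196 (L l296 (T t8644 N))))))))))) (K a27 (M a39 (F (L l11 (L l65 (T t8643 (L l15 (L l50 (L l196 (L l296 (T t8644 N)))))))))) N))))))))))))) (K a98 (M a145 (L l73 (F (L l11 (L l65 (T t8643 (L l39 (L l50 (L l63 (L l514 (T t8637 (L l18 (L l50 (L l75 (T t8638 (K a39 (M a27 (F (L l11 (L l65 (T t8643 (L l39 (L l50 (L l63 (L l514 (T t8637 (L l18 (L l27 (L l50 (L l75 (T t8645 N))))))))))))))) (K a27 (M a39 (F (L l11 (L l65 (T t8643 (L l39 (L l50 (L l63 (L l514 (T t8637 (L l15 (L l55 (L l378 (T t8646 N)))))))))))))) N))))))))))))))))) (K a39 (M a27 (L l489 (F (L l11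 (L l65 (T t8643 (L l39 (L l50 (L l63 (L l514 (T t8637 (L l18 (L l27 (L l50 (L l75 (T t8645 (K a145 (M a98 (F (L l11 (L l65 (T t8643 (L l15 (L l21 (L l50 (L l196 (L l296 (T t8644 N))))))))))) (K a98 (M a145 (F (L l11 (L l65 (T t8643 (L l39 (L l50 (L l63 (L l514 (T t8637 (L l18 (L l27 (L l50 (L l75 (T t8645 N))))))))))))))) N)))))))))))))))))) (K a27 (M a39 (L l489 (F (L l11 (L l65 (T t8643 (L l39 (L l50 (L l63 (L l514 (T t8637 (L l15 (L l55 (T t8646 (K a145 (M a98 (F (L l11 (L l65 (T t8643 (L l15 (L l50 (L l196 (L l296 (T t8644 N)))))))))) (K a98 (M a145 (F (L l11 (L l65 (T t8643 (L l39 (L l50 (L l63 (L l514 (T t8637 (L l15 (L l55 (L l378 (T t8646 N)))))))))))))) N)))))))))))))))) N)))))))))))))))))))) (K a98 (M a145 (L l73 (L l339 (F (L l11 (L l65 (T t8643 (L l39 (L l50 (L l63 (L l514 (T t8637 (L l18 (L l50 (L l75 (T t8638 (K a133 (M a74 (L l73 (F (L l11 (L l65 (T t8643 (L l39 (L l50 (L l63 (L l514 (T t8637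 (L l18 (L l50 (L l75 (T t8638 (K a39 (M a27 (F (L l11 (L l65 (T t8643 (L l39 (L l50 (L l63 (L l514 (T t8637 (L l18 (L l27 (L l50 (L l75 (T t8645 N))))))))))))))) (K a27 (M a39 (F (L l11 (L l65 (T t8643 (L l39 (L l50 (L l63 (L l514 (T t8637 (L l15 (L l55 (L l378 (T t8646 N)))))))))))))) N))))))))))))))))) (K a74 (M a133 (L l73 (F (L l11 (L l65 (T t8643 (L l39 (L l50 (L l63 (L l514 (T t8637 (L l18 (L l50 (L l75 (T t8638 (K a39 (M a27 (F (L l11 (L l65 (T t8643 (L l39 (L l50 (L l63 (L l514 (T t8637 (L l18 (L l27 (L l50 (L l75 (L l318 (T t8645 N)))))))))))))))) (K a27 (M a39 (F (L l11 (L l65 (T t8643 (L l39 (L l50 (L l63 (L l514 (T t8637 (L l15 (L l55 (L l378 (T t8646 N)))))))))))))) N))))))))))))))))) (K a39 (M a27 (L l339 (F (L l11 (L l65 (T t8643 (L l39 (L l50 (L l63 (L l514 (T t8637 (L l18 (L l27 (L l50 (L l75 (T t8645 (K a133 (M a74 (F (L l11 (L l65 (T t8643 (L l39 (L l50 (L l63 (L l514 (T t8637 (L l18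 (L l27 (L l50 (L l75 (T t8645 N))))))))))))))) (K a74 (M a133 (F (L l11 (L l65 (T t8643 (L l39 (L l50 (L l63 (L l514 (T t8637 (L l18 (L l27 (L l50 (L l75 (L l318 (T t8645 N)))))))))))))))) N)))))))))))))))))) (K a27 (M a39 (L l339 (F (L l11 (L l65 (T t8643 (L l39 (L l50 (L l63 (L l514 (T t8637 (L l15 (L l55 (L l378 (T t8646 (K a133 (M a74 (F (L l11 (L l65 (T t8643 (L l39 (L l50 (L l63 (L l514 (T t8637 (L l15 (L l55 (L l378 (T t8646 N)))))))))))))) (K a74 (M a133 (F (L l11 (L l65 (T t8643 (L l39 (L l50 (L l63 (L l514 (T t8637 (L l15 (L l55 (L l378 (T t8646 N)))))))))))))) N))))))))))))))))) N)))))))))))))))))))) (K a74 (M a133 (L l73 (L l489 (F (L l11 (L l65 (T t8643 (L l39 (L l50 (L l63 (L l514 (T t8637 (L l18 (L l50 (L l75 (T t8638 (K a145 (M a98 (L l73 (F (L l11 (L l65 (T t8643 (L l15 (L l50 (L l196 (L l296 (T t8644 (K a39 (M a27 (F (L l11 (L l65 (T t8643 (L l15 (L l21 (L l50 (L l196 (L l296 (T t8644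 N))))))))))) (K a27 (M a39 (F (L l11 (L l65 (T t8643 (L l15 (L l50 (L l196 (L l296 (T t8644 N)))))))))) N))))))))))))) (K a98 (M a145 (L l73 (F (L l11 (L l65 (T t8643 (L l39 (L l50 (L l63 (L l514 (T t8637 (L l18 (L l50 (L l75 (T t8638 (K a39 (M a27 (F (L l11 (L l65 (T t8643 (L l39 (L l50 (L l63 (L l514 (T t8637 (L l18 (L l27 (L l50 (L l75 (L l318 (T t8645 N)))))))))))))))) (K a27 (M a39 (F (L l11 (L l65 (T t8643 (L l39 (L l50 (L l63 (L l514 (T t8637 (L l15 (L l55 (L l378 (T t8646 N)))))))))))))) N))))))))))))))))) (K a39 (M a27 (L l489 (F (L l11 (L l65 (T t8643 (L l39 (L l50 (L l63 (L l514 (T t8637 (L l18 (L l27 (L l50 (L l75 (L l318 (T t8645 (K a145 (M a98 (F (L l11 (L l65 (T t8643 (L l15 (L l21 (L l50 (L l196 (L l296 (T t8644 N))))))))))) (K a98 (M a145 (F (L l11 (L l65 (T t8643 (L l39 (L l50 (L l63 (L l514 (T t8637 (L l18 (L l27 (L l50 (L l75 (L l318 (T t8645 N)))))))))))))))) N))))))))))))))))))) (K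 a27 (M a39 (L l489 (F (L l11 (L l65 (T t8643 (L l39 (L l50 (L l63 (L l514 (T t8637 (L l15 (L l55 (T t8646 (K a145 (M a98 (F (L l11 (L l65 (T t8643 (L l15 (L l50 (L l196 (L l296 (T t8644 N)))))))))) (K a98 (M a145 (F (L l11 (L l65 (T t8643 (L l39 (L l50 (L l63 (L l514 (T t8637 (L l15 (L l55 (L l378 (T t8646 N)))))))))))))) N)))))))))))))))) N)))))))))))))))))))) (K a39 (M a27 (L l339 (L l489 (F (L l11 (L l65 (T t8643 (L l39 (L l50 (L l63 (L l514 (T t8637 (L l18 (L l27 (L l50 (L l75 (T t8645 (K a145 (M a98 (L l339 (F (L l11 (L l65 (T t8643 (L l15 (L l21 (L l50 (L l196 (L l296 (T t8644 (K a133 (M a74 (F (L l11 (L l65 (T t8643 (L l15 (L l21 (L l50 (L l196 (L l296 (T t8644 N))))))))))) (K a74 (M a133 (F (L l11 (L l65 (T t8643 (L l15 (L l21 (L l50 (L l196 (L l296 (T t8644 N))))))))))) N)))))))))))))) (K a133 (M a74 (L l489 (F (L l11 (L l65 (T t8643 (L l39 (L l50 (L l63 (L l514 (T t8637 (L l18 (L l27 (L l50 (L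 l75 (T t8645 (K a145 (M a98 (F (L l11 (L l65 (T t8643 (L l15 (L l21 (L l50 (L l196 (L l296 (T t8644 N))))))))))) (K a98 (M a145 (F (L l11 (L l65 (T t8643 (L l39 (L l50 (L l63 (L l514 (T t8637 (L l18 (L l27 (L l50 (L l75 (T t8645 N))))))))))))))) N)))))))))))))))))) (K a98 (M a145 (L l339 (F (L l11 (L l65 (T t8643 (L l39 (L l50 (L l63 (L l514 (T t8637 (L l18 (L l27 (L l50 (L l75 (T t8645 (K a133 (M a74 (F (L l11 (L l65 (T t8643 (L l39 (L l50 (L l63 (L l514 (T t8637 (L l18 (L l27 (L l50 (L l75 (T t8645 N))))))))))))))) (K a74 (M a133 (F (L l11 (L l65 (T t8643 (L l39 (L l50 (L l63 (L l514 (T t8637 (L l18 (L l27 (L l50 (L l75 (L l318 (T t8645 N)))))))))))))))) N)))))))))))))))))) (K a74 (M a133 (L l489 (F (L l11 (L l65 (T t8643 (L l39 (L l50 (L l63 (L l514 (T t8637 (L l18 (L l27 (L l50 (L l75 (L l318 (T t8645 (K a145 (M a98 (F (L l11 (L l65 (T t8643 (L l15 (L l21 (L l50 (L l196 (L l296 (T t8644 N)))))))))))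 (K a98 (M a145 (F (L l11 (L l65 (T t8643 (L l39 (L l50 (L l63 (L l514 (T t8637 (L l18 (L l27 (L l50 (L l75 (L l318 (T t8645 N)))))))))))))))) N))))))))))))))))))) N))))))))))))))))))))) (K a27 (M a39 (L l339 (L l489 (F (L l11 (L l65 (T t8643 (L l39 (L l50 (L l63 (L l514 (T t8637 (L l15 (L l55 (T t8646 (K a145 (M a98 (L l339 (F (L l11 (L l65 (T t8643 (L l15 (L l50 (L l196 (L l296 (T t8644 (K a133 (M a74 (F (L l11 (L l65 (T t8643 (L l15 (L l50 (L l196 (L l296 (T t8644 N)))))))))) (K a74 (M a133 (F (L l11 (L l65 (T t8643 (L l15 (L l50 (L l196 (L l296 (T t8644 N)))))))))) N))))))))))))) (K a133 (M a74 (L l489 (F (L l11 (L l65 (T t8643 (L l39 (L l50 (L l63 (L l514 (T t8637 (L l15 (L l55 (T t8646 (K a145 (M a98 (F (L l11 (L l65 (T t8643 (L l15 (L l50 (L l196 (L l296 (T t8644 N)))))))))) (K a98 (M a145 (F (L l11 (L l65 (T t8643 (L l39 (L l50 (L l63 (L l514 (T t8637 (L l15 (L l55 (L l378 (T t8646 N))))))))))))))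 N)))))))))))))))) (K a98 (M a145 (L l339 (F (L l11 (L l65 (T t8643 (L l39 (L l50 (L l63 (L l514 (T t8637 (L l15 (L l55 (L l378 (T t8646 (K a133 (M a74 (F (L l11 (L l65 (T t8643 (L l39 (L l50 (L l63 (L l514 (T t8637 (L l15 (L l55 (L l378 (T t8646 N)))))))))))))) (K a74 (M a133 (F (L l11 (L l65 (T t8643 (L l39 (L l50 (L l63 (L l514 (T t8637 (L l15 (L l55 (L l378 (T t8646 N)))))))))))))) N))))))))))))))))) (K a74 (M a133 (L l489 (F (L l11 (L l65 (T t8643 (L l39 (L l50 (L l63 (L l514 (T t8637 (L l15 (L l55 (T t8646 (K a145 (M a98 (F (L l11 (L l65 (T t8643 (L l15 (L l50 (L l196 (L l296 (T t8644 N)))))))))) (K a98 (M a145 (F (L l11 (L l65 (T t8643 (L l39 (L l50 (L l63 (L l514 (T t8637 (L l15 (L l55 (L l378 (T t8646 N)))))))))))))) N)))))))))))))))) N))))))))))))))))))) N))))))))))))))))))))))) (K a59 (M a48 (L l339 (F (L l63 (L l514 (T t443 (L l15 (L l47 (T t8647 (K a133 (M a74 (F (L l63 (L l514 (T t443 (L l15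 (L l47 (T t8647 N)))))))) (K a74 (M a133 (F (L l63 (L l514 (T t443 (L l15 (L l47 (L l318 (L l336 (T t8647 N)))))))))) N))))))))))) (K a133 (M a74 (F (L l15 (L l50 (T t8613 (L l15 (L l73 (L l489 (T t8466 (L l50 (L l73 (L l489 (T t8447 (K a4 (M a41 (L l50 (F (L l11 (T t8614 (L l15 (L l46 (T t8615 (L l15 (T t8616 (K a38 (M a55 (F (L l11 (T t8614 (L l18 (L l72 (L l73 (L l75 (L l489 (T t8617 (L l1 (L l48 (L l73 (L l489 (T t8618 N))))))))))))))) (K a55 (M a38 (F (T t8619 (L l11 (L l49 (T t8614 N)))))) N)))))))))))) (K a8 (M a41 (F (L l11 (T t8620 (L l15 (T t8615 (L l15 (T t8616 N)))))))) (K a25 (M a136 (L l15 (F (L l296 (L l469 (T t8648 (L l7 (L l50 (L l335 (T t8649 (K a17 (Fr a29 a46 l62 (V t8649)) (K a29 (M a17 (F (T t8650 (L l7 (L l50 (L l335 (T t8649 N))))))) N)))))))))))) (K a29 (M a48 (L l15 (F (L l50 (T t865 (L l18 (L l47 (L l160 (L l296 (T t8632 (L l47 (L l50 (L l73 (T t8633 (K a17 (M a25 (F (T t8630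 (L l18 (L l47 (L l160 (T t8631 N))))))) (K a25 (M a17 (F (L l50 (T t865 (L l18 (L l71 (L l73 (L l489 (T t8634 (L l63 (L l514 (T t3334 N)))))))))))) N)))))))))))))))) (K a34 (M a48 (F (L l63 (L l514 (T t1580 (L l18 (L l47 (L l160 (L l296 (T t8632 (L l47 (L l50 (L l73 (T t8633 N)))))))))))))) (K a38 (M a106 (L l50 (F (L l15 (L l272 (T t2415 (L l160 (L l296 (T t8651 (L l15 (L l153 (L l272 (T t8652 (K a4 (M a55 (F (L l160 (L l296 (T t8651 (L l15 (L l153 (L l272 (L l314 (T t8652 (L l73 (L l232 (L l296 (L l489 (T t8653 N))))))))))))))) (K a55 (Fr a4 a8 l4 (V t8651)) N))))))))))))))) (K a46 (M a48 (F (L l50 (T t865 (L l18 (L l47 (L l160 (L l296 (T t8632 (L l47 (L l50 (L l73 (T t8633 N))))))))))))) (K a51 (M a136 (L l73 (L l489 (F (L l15 (T t5395 (L l7 (L l50 (L l335 (T t8649 (K a145 (M a98 (L l73 (F (L l7 (L l50 (T t8654 (L l167 (L l296 (L l439 (L l469 (T t8648 (K a39 (M a27 (F (L l7 (L l50 (T t8654 (L l167 (L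 l296 (L l439 (L l469 (T t8648 N)))))))))) (K a27 (M a39 (F (L l15 (L l167 (T t8655 (L l7 (L l50 (L l55 (L l335 (T t8649 N)))))))))) N))))))))))))) (K a98 (M a145 (L l73 (F (L l15 (T t5395 (L l7 (L l50 (L l335 (T t8649 (K a39 (M a27 (F (L l15 (T t5395 (L l7 (L l50 (L l335 (T t8649 N)))))))) (K a27 (M a39 (F (L l15 (T t8655 (L l7 (L l50 (L l55 (L l335 (T t8649 N))))))))) N))))))))))) (K a39 (M a27 (L l489 (F (L l15 (T t5395 (L l7 (L l50 (L l335 (T t8649 (K a145 (M a98 (F (L l7 (L l50 (T t8654 (L l167 (L l296 (L l439 (L l469 (T t8648 N)))))))))) (K a98 (M a145 (F (L l15 (T t5395 (L l7 (L l50 (L l335 (T t8649 N)))))))) N))))))))))) (K a27 (M a39 (L l489 (F (L l15 (T t8655 (L l7 (L l50 (L l55 (L l335 (T t8649 (K a145 (M a98 (F (L l15 (L l167 (T t8655 (L l7 (L l50 (L l55 (L l335 (T t8649 N)))))))))) (K a98 (M a145 (F (L l15 (T t8655 (L l7 (L l50 (L l55 (L l335 (T t8649 N))))))))) N)))))))))))) N))))))))))))))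 (K a59 (M a48 (F (L l63 (L l514 (T t443 (L l15 (L l47 (T t8647 N)))))))) N)))))))))))))))))))))) (K a74 (M a133 (F (L l15 (L l50 (T t8613 (L l15 (L l73 (L l489 (T t8466 (L l50 (L l73 (L l489 (T t8447 (K a4 (M a41 (L l50 (F (L l11 (T t8614 (L l15 (L l46 (T t8615 (L l15 (T t8616 (K a38 (M a55 (F (L l11 (T t8614 (L l18 (L l72 (L l73 (L l75 (L l489 (T t8617 (L l1 (L l48 (L l73 (L l489 (T t8618 N))))))))))))))) (K a55 (M a38 (F (T t8619 (L l11 (L l49 (T t8614 N)))))) N)))))))))))) (K a8 (M a41 (F (L l11 (T t8620 (L l15 (T t8615 (L l15 (T t8616 N)))))))) (K a25 (M a68 (L l15 (F (T t2173 (L l7 (L l336 (T t8656 (K a17 (Fr a29 a46 l62 (V t8656)) (K a29 (M a17 (F (L l7 (L l336 (T t8656 (L l353 (L l359 (L l489 (T t8657 N))))))))) N))))))))) (K a29 (M a48 (L l15 (F (L l63 (L l514 (T t1580 (L l47 (L l73 (L l318 (T t8625 (L l18 (L l50 (L l59 (T t8626 (L l18 (L l73 (T t8627 (K a17 (M a25 (F (T t8628 (L l13 (L l63 (L l514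 (T t443 (L l50 (L l63 (L l514 (T t8629 N))))))))))) (K a25 (M a17 (F (L l50 (T t865 (L l7 (L l65 (L l309 (T t8635 (L l47 (L l63 (L l71 (L l514 (T t3337 N))))))))))))) N))))))))))))))))))) (K a34 (M a68 (F (T t2173 (L l7 (L l336 (T t8656 N)))))) (K a38 (M a255 (L l50 (F (T t2126 (L l232 (L l327 (T t2034 (L l15 (L l272 (T t2032 (K a4 (M a55 (F (T t8639 (L l232 (L l327 (T t2124 (L l232 (L l327 (T t8640 N))))))))) (K a55 (Fr a4 a8 l4 (V t8642)) N)))))))))))) (K a46 (M a40 (F (L l11 (L l65 (T t8643 (L l50 (L l63 (L l514 (T t8637 (L l18 (L l50 (L l75 (T t8638 N))))))))))))) (K a51 (M a68 (L l73 (L l489 (F (T t2173 (L l7 (L l336 (T t8656 (K a145 (M a98 (L l73 (F (T t2173 (L l7 (L l336 (T t8656 (K a39 (M a27 (F (T t2173 (L l7 (L l49 (L l336 (T t8656 N))))))) (K a27 (M a39 (F (T t2173 (L l7 (L l336 (T t8656 N)))))) N))))))))) (K a98 (M a145 (L l73 (F (L l102 (T t2173 (L l7 (L l336 (T t8656 (K a39 (M a27 (F (L l102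 (T t2173 (L l7 (L l49 (L l336 (T t8656 N)))))))) (K a27 (M a39 (F (L l102 (T t2173 (L l7 (L l336 (T t8656 N))))))) N)))))))))) (K a39 (M a27 (L l489 (F (T t2173 (L l7 (L l49 (L l336 (T t8656 (K a145 (M a98 (F (T t2173 (L l7 (L l49 (L l336 (T t8656 N))))))) (K a98 (M a145 (F (L l102 (T t2173 (L l7 (L l49 (L l336 (T t8656 N)))))))) N)))))))))) (K a27 (M a39 (L l489 (F (T t2173 (L l7 (L l336 (T t8656 (K a145 (M a98 (F (T t2173 (L l7 (L l336 (T t8656 N)))))) (K a98 (M a145 (F (L l102 (T t2173 (L l7 (L l336 (T t8656 N))))))) N))))))))) N)))))))))))) (K a59 (M a48 (F (L l63 (L l514 (T t443 (L l15 (L l47 (L l318 (L l336 (T t8647 N)))))))))) N)))))))))))))))))))))) N))))))))))))))))))))))))))⟩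
def e0_63__192_9 : Ent 4 := ⟨[a0, a63], [a192, a22], (M a48 (F (L l11 (T t48 (L l66 (L l339 (T t2 (L l11 (L l339 (T t1 (L l11 (L l339 (T t3 (L l66 (L l339 (T t0 (K a16 (M a51 (F (T t3234 (L l10 (L l11 (L l18 (L l334 (T t589 (L l10 (L l11 (L l18 (T t591 N)))))))))))) (K a32 (M a51 (F (T t3234 (L l11 (L l334 (T t589 (L l11 (T t591 N)))))))) (K a21 (M a255 (L l11 (F (T t554 (L l236 (L l347 (T t547 (L l47 (L l236 (T t548 (K a20 (M a23 (F (T t8658 (L l236 (T t512 N))))) (K a23 (M a20 (F (T t554 (L l19 (L l50 (T t183 N)))))) N)))))))))))) (K a37 (M a51 (L l51 (F (T t5805 (L l71 (T t5624 (L l28 (L l66 (L l334 (T t1294 (K a52 (M a7 (F (L l71 (T t5624 (L l11 (L l48 (T t8659 (L l11 (L l31 (L l47 (L l334 (T t592 N)))))))))))) (K a7 (M a52 (F (T t8660 (L l7 (L l69 (L l309 (T t4648 N))))))) N)))))))))))) (K a53 (M a12 (F (T t145 (L l66 (L l489 (T t151 (L l11 (L l47 (T t146 N))))))))) (K a26 (M a255 (L l16 (F (T t1259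 (L l54 (L l268 (T t1160 (L l236 (T t548 (K a18 (M a30 (F (T t1259 (L l268 (T t546 (L l236 (T t548 N))))))) (K a30 (M a18 (F (T t1259 (L l228 (T t8661 N))))) N))))))))))) (K a42 (M a255 (L l66 (F (T t1260 (L l54 (L l268 (T t1160 (L l28 (L l236 (L l390 (T t548 (K a2 (M a62 (F (T t8662 (L l236 (T t1193 N))))) (K a62 (M a2 (F (T t8663 (L l268 (T t546 N))))) N))))))))))))) (K a58 (M a12 (F (T t145 (L l54 (L l66 (L l489 (T t151 (L l11 (T t146 N))))))))) (K a15 (M a12 (L l339 (F (T t145 (L l66 (L l73 (L l489 (T t151 (L l11 (L l73 (T t146 (K a133 (M a74 (F (T t145 (L l66 (L l73 (L l489 (T t151 (L l11 (L l73 (T t146 N)))))))))) (K a74 (M a133 (F (T t145 (L l66 (L l73 (L l489 (T t151 (L l11 (L l73 (T t146 N)))))))))) N))))))))))))) N)))))))))))))))))))))))))⟩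
def e0_63__192_10 : Ent 4 := ⟨[a0, a63], [a192, a23], (M a48 (F (T t132 (L l11 (L l339 (T t1 (L l339 (T t2 (L l11 (L l339 (T t3 (L l17 (L l339 (T t0 (K a16 (M a60 (F (T t236 (L l11 (L l18 (L l309 (T t68 (L l11 (L l18 (T t194 N)))))))))) (K a32 (M a60 (F (T t236 (L l11 (L l309 (T t68 (L l11 (T t194 N)))))))) (K a21 (M a255 (L l11 (F (T t554 (L l236 (L l347 (T t547 (L l47 (L l236 (T t548 (K a20 (M a22 (F (T t554 (L l236 (T t1162 (L l47 (L l236 (T t548 N)))))))) (K a22 (M a20 (F (T t554 (L l19 (L l50 (T t183 N)))))) N)))))))))))) (K a37 (M a52 (F (L l334 (T t82 (L l49 (L l489 (T t83 (L l11 (L l21 (L l28 (T t84 N))))))))))) (K a53 (M a12 (F (T t145 (L l489 (T t151 (L l11 (L l47 (L l49 (T t146 N))))))))) (K a26 (M a56 (F (T t556 (L l11 (L l334 (T t133 (L l11 (L l12 (L l18 (T t135 N)))))))))) (K a42 (M a255 (F (T t1260 (L l54 (L l268 (T t1160 (L l28 (L l236 (L l390 (T t548 N)))))))))) (K a58 (M a12 (F (T t145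 (L l54 (L l489 (T t151 (L l11 (L l49 (T t146 N))))))))) (K a15 (M a4 (L l339 (F (T t129 (L l63 (L l514 (T t528 (T t520 (K a133 (M a74 (F (T t558 (L l49 (L l73 (L l489 (T t519 (T t520 N)))))))) (K a74 (M a133 (F (T t558 (L l49 (L l73 (L l489 (T t519 (T t520 N)))))))) N)))))))))) N)))))))))))))))))))))))⟩
def e0_63__192_11 : Ent 4 := ⟨[a0, a63], [a192, a26], (M a12 (F (L l18 (T t150 (L l54 (L l489 (T t151 (L l18 (L l489 (T t122 (L l18 (L l489 (T t152 (L l54 (L l489 (T t153 (K a4 (M a60 (F (T t570 (L l54 (L l309 (T t43 (L l54 (T t448 N)))))))) (K a8 (M a60 (F (T t570 (L l52 (L l54 (L l56 (L l309 (T t43 (L l52 (L l54 (L l56 (T t448 N)))))))))))) (K a21 (M a255 (L l18 (F (T t2030 (L l272 (L l347 (T t2031 (L l15 (L l272 (T t2032 (K a16 (M a31 (F (T t8664 (L l272 (L l344 (T t2123 N)))))) (K a31 (M a16 (F (T t2126 (L l54 (L l268 (T t8665 N)))))) N)))))))))))) (K a25 (M a255 (L l12 (F (T t2030 (L l272 (T t2031 (L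 l15 (L l56 (L l272 (T t2032 (K a24 (M a27 (F (T t2033 (L l232 (T t2124 (L l15 (L l52 (L l56 (L l272 (T t2032 N)))))))))) (K a27 (M a24 (F (T t2033 (L l54 (L l268 (T t8666 N)))))) N)))))))))))) (K a29 (M a60 (F (T t5386 (L l54 (L l309 (T t43 (L l15 (L l18 (T t399 N))))))))) (K a38 (M a60 (L l72 (F (T t423 (L l29 (T t5386 (L l18 (L l50 (L l309 (T t67 (K a50 (M a14 (F (T t2546 (L l42 (L l309 (T t727 N)))))) (K a14 (M a50 (F (L l29 (T t5386 (L l16 (L l54 (T t8667 (L l26 (L l54 (L l60 (L l309 (T t69 N)))))))))))) N)))))))))))) (K a42 (M a255 (L l54 (F (T t2033 (L l26 (L l232 (T t2034 (L l56 (L l272 (L l390 (T t2032 (K a10 (M a58 (F (T t8668 (L l272 (T t2031 N))))) (K a58 (M a10 (F (T t2140 (L l57 (L l66 (T t2421 N)))))) N))))))))))))) (K a46 (M a60 (F (T t3918 (L l26 (L l54 (L l309 (T t43 (L l18 (L l23 (T t399 N)))))))))) (K a51 (M a44 (L l489 (F (T t3155 (L l57 (T t683 (L l18 (L l75 (T t3157 (K a145 (M a98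 (F (T t3155 (L l57 (T t683 (L l18 (L l75 (T t3157 N)))))))) (K a98 (M a145 (F (T t3155 (L l57 (T t683 (L l18 (L l75 (T t3157 N)))))))) N))))))))))) N)))))))))))))))))))))))))⟩
def e0_63__192_12 : Ent 4 := ⟨[a0, a63], [a192, a27], (M a60 (F (T t2568 (L l55 (L l309 (T t67 (L l17 (L l309 (T t43 (L l309 (T t68 (L l309 (T t69 (K a20 (M a48 (F (T t138 (L l11 (L l14 (T t48 (L l11 (T t235 N)))))))) (K a40 (M a48 (F (T t48 (T t236 (L l52 (T t235 N)))))) (K a21 (M a255 (F (T t1639 (L l11 (L l228 (L l347 (T t1634 (L l65 (L l228 (T t1635 N)))))))))) (K a41 (M a32 (F (T t1568 (L l65 (L l73 (L l339 (T t219 (L l25 (L l65 (T t1569 N)))))))))) (K a61 (M a32 (F (T t1568 (L l65 (L l73 (L l339 (T t219 (L l65 (T t1569 N))))))))) (K a22 (M a48 (F (T t3235 (L l66 (L l73 (L l339 (T t2 (L l73 (L l489 (T t64 N)))))))))) (K a42 (M a255 (F (T t5790 (L l292 (T t1565 (L l22 (L l228 (L l390 (T t1635 N))))))))) (K a62 (M a32 (F (T t820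 (L l334 (T t1573 (L l60 (T t1569 N))))))) (K a3 (M a32 (L l309 (F (T t820 (L l9 (L l334 (T t1573 (T t1569 (K a129 (M a66 (F (T t820 (L l9 (L l334 (T t1573 (T t1569 N))))))) (K a66 (M a129 (F (T t820 (L l9 (L l334 (T t1573 (T t1569 N))))))) N)))))))))) N))))))))))))))))))))))⟩
def e0_63__192_13 : Ent 4 := ⟨[a0, a63], [a192, a31], (M a60 (F (T t662 (L l18 (L l309 (T t67 (L l17 (L l309 (T t43 (L l18 (L l309 (T t68 (L l309 (T t69 (K a20 (M a48 (F (T t277 (L l11 (L l18 (L l339 (T t1 (L l11 (L l18 (T t235 N)))))))))) (K a40 (M a48 (F (T t236 (L l18 (L l339 (T t1 (L l18 (L l52 (T t235 N))))))))) (K a21 (M a48 (L l18 (F (T t138 (L l13 (L l334 (T t248 (L l11 (L l47 (L l65 (L l334 (L l489 (T t249 (L l13 (L l50 (L l334 (T t250 (K a16 (M a26 (F (L l47 (T t251 (L l11 (L l339 (T t252 (L l489 (T t70 N))))))))) (K a26 (Fr a16 a32 l40 (V t253)) N))))))))))))))))))) (K a41 (M a48 (F (L l489 (T t42 (L l22 (L l57 (L l334 (T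 t247 (L l18 (L l65 (L l339 (T t1 N)))))))))))) (K a61 (M a48 (F (T t3235 (L l18 (L l35 (L l65 (L l339 (T t1 (L l17 (T t65 N)))))))))) (K a22 (M a48 (F (T t3235 (L l489 (T t64 (L l11 (L l18 (L l339 (T t1 N))))))))) (K a42 (M a255 (F (T t5790 (L l292 (T t1565 (L l22 (L l228 (L l390 (T t1635 N))))))))) (K a62 (M a48 (F (T t3235 (L l18 (L l339 (T t1 (L l17 (L l36 (L l66 (T t65 N)))))))))) (K a3 (M a48 (L l309 (F (T t3235 (L l7 (L l18 (L l339 (T t1 (L l43 (L l489 (T t64 (K a129 (M a66 (F (T t3235 (L l43 (L l489 (T t451 (L l7 (L l18 (L l339 (T t1 N)))))))))) (K a66 (M a129 (F (T t138 (L l9 (L l334 (T t489 (L l7 (L l18 (L l339 (T t1 N)))))))))) N))))))))))))) N)))))))))))))))))))))))⟩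
def e0_63__192_14 : Ent 4 := ⟨[a0, a63], [a192, a43], (M a48 (F (T t48 (L l339 (T t1 (L l22 (L l339 (T t2 (L l27 (L l339 (T t3 (L l22 (L l339 (T t0 (K a16 (M a60 (F (T t236 (L l22 (L l309 (T t69 (L l22 (T t268 N)))))))) (K a32 (M a60 (F (T t236 (L l22 (L l28 (L l309 (T t69 (L l22 (L l28 (T t268 N)))))))))) (K a21 (M a255 (F (T t554 (L l236 (L l347 (T t547 (L l47 (L l236 (T t548 N))))))))) (K a37 (M a52 (F (T t555 (L l22 (L l334 (T t82 (L l21 (L l22 (L l28 (T t84 N)))))))))) (K a53 (M a12 (F (T t145 (L l47 (L l489 (T t122 (L l27 (L l47 (T t146 N))))))))) (K a26 (M a56 (F (L l334 (T t133 (L l55 (L l489 (T t134 (L l12 (L l18 (L l22 (T t135 N))))))))))) (K a42 (M a255 (L l22 (F (T t1260 (L l54 (L l268 (T t1160 (L l28 (L l236 (L l390 (T t548 (K a40 (M a41 (F (T t8669 (L l236 (L l390 (L l392 (T t1162 (L l24 (L l28 (L l236 (L l390 (L l392 (T t548 N))))))))))))) (K a41 (M a40 (F (T t8669 (L l29 (L l56 (T t7195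 N)))))) N))))))))))))) (K a58 (M a12 (F (T t150 (L l514 (T t443 (L l27 (T t146 N))))))) (K a15 (M a52 (L l339 (F (T t491 (L l3 (L l22 (L l334 (T t82 (L l22 (T t84 (K a133 (M a74 (F (T t491 (L l3 (L l22 (L l334 (T t82 (L l22 (T t84 N))))))))) (K a74 (M a133 (F (T t491 (L l3 (L l22 (L l334 (T t82 (L l22 (T t84 N))))))))) N)))))))))))) N)))))))))))))))))))))))⟩
def e0_63__192_15 : Ent 4 := ⟨[a0, a63], [a192, a47], (M a60 (F (T t2568 (L l27 (L l309 (T t67 (L l28 (L l309 (T t43 (L l309 (T t68 (L l28 (L l309 (T t69 (K a20 (M a48 (F (T t277 (L l28 (L l339 (T t2 (L l28 (L l46 (T t287 N))))))))) (K a40 (M a48 (F (T t236 (L l22 (L l28 (L l339 (T t2 (L l22 (L l28 (T t287 N)))))))))) (K a21 (M a255 (F (T t1639 (L l11 (L l228 (L l347 (T t1634 (L l65 (L l228 (T t1635 N)))))))))) (K a41 (M a48 (F (T t1308 (L l65 (L l489 (T t64 (L l22 (L l28 (L l339 (T t2 N)))))))))) (K a61 (M a48 (F (T t1308 (L l28 (L l339 (T t2 (L l27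 (L l35 (L l65 (T t44 N)))))))))) (K a22 (M a48 (F (L l489 (T t64 (L l334 (T t247 (L l28 (L l66 (L l339 (T t2 N)))))))))) (K a42 (M a48 (L l28 (F (T t236 (L l22 (L l334 (T t247 (L l23 (L l56 (L l334 (T t288 (L l22 (L l54 (L l66 (L l334 (L l489 (T t289 (K a32 (M a37 (F (L l54 (T t290 (L l66 (L l339 (T t291 (L l56 (L l489 (T t42 N)))))))))) (K a37 (Fr a32 a16 l40 (V t292)) N))))))))))))))))))) (K a62 (M a48 (F (T t1308 (L l28 (L l36 (L l66 (L l339 (T t2 (L l27 (T t44 N)))))))))) (K a3 (M a48 (L l309 (F (T t1308 (L l7 (L l28 (L l339 (T t2 (L l43 (L l489 (T t64 (K a129 (M a66 (F (T t1308 (L l7 (L l28 (L l339 (T t2 (L l43 (L l489 (T t451 N)))))))))) (K a66 (M a129 (F (T t1308 (L l7 (L l28 (L l339 (T t2 (L l43 (L l489 (T t451 N)))))))))) N))))))))))))) N)))))))))))))))))))))))⟩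
def e0_63__192_16 : Ent 4 := ⟨[a0, a63], [a192, a64], (M a48 (F (T t48 (L l339 (T t1 (L l339 (T t2 (L l339 (T t3 (L l339 (T t0 (K a16 (M a60 (F (T t138 (L l14 (L l18 (L l309 (T t67 (T t65 N)))))))) (K a32 (M a60 (F (T t138 (L l309 (T t67 (L l24 (L l28 (T t65 N)))))))) (K a21 (M a255 (F (T t1259 (L l268 (T t1160 (L l18 (L l144 (L l236 (L l347 (T t513 N)))))))))) (K a37 (M a52 (F (T t555 (L l334 (T t82 (L l21 (L l28 (T t84 N)))))))) (K a53 (M a12 (F (T t145 (L l47 (L l489 (T t122 (L l47 (T t146 N)))))))) (K a26 (M a56 (F (T t556 (L l334 (T t133 (L l12 (L l18 (T t135 N)))))))) (K a42 (M a255 (F (L l268 (T t1169 (L l28 (L l236 (L l390 (T t512 (L l54 (L l144 (L l236 (T t513 N)))))))))))) (K a58 (M a12 (F (T t145 (L l489 (T t122 (T t146 N)))))) (K a15 (M a4 (L l339 (F (T t129 (L l63 (L l514 (T t528 (T t520 (K a133 (M a74 (F (T t558 (L l73 (L l489 (T t519 (T t520 N))))))) (K a74 (M a133 (L l84 (F (T t558 (L l73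 (L l489 (T t519 (T t520 (K a69 (M a79 (F (T t558 (L l73 (L l489 (T t519 (T t520 N))))))) (K a79 (M a69 (L l325 (F (T t1604 (L l7 (L l336 (T t5709 (K a143 (Fr a207 a138 l332 (V t8387)) (K a207 (M a143 (L l236 (F (T t558 (L l80 (L l82 (L l235 (L l337 (T t8388 (K a197 (M a202 (F (T t129 (L l229 (L l235 (L l321 (L l327 (T t2886 N)))))))) (K a202 (Fr a197 a5 l311 (V t2887)) N))))))))))) N))))))))) N)))))))))) N)))))))))) N))))))))))))))))))))⟩
def e0_63__192_17 : Ent 4 := ⟨[a0, a63], [a192, a65], (M a48 (F (T t48 (L l339 (T t1 (L l339 (T t2 (L l339 (T t3 (L l339 (T t0 (K a16 (M a60 (F (T t138 (L l14 (L l18 (L l309 (T t67 (T t65 N)))))))) (K a32 (M a60 (F (T t116 (L l489 (T t64 (L l24 (L l28 (T t65 N)))))))) (K a21 (M a255 (F (T t554 (L l141 (L l236 (L l347 (T t547 (L l47 (L l236 (T t548 N)))))))))) (K a37 (M a52 (F (T t555 (L l334 (T t82 (L l21 (L l28 (T t84 N)))))))) (K a53 (M a12 (F (T t145 (L l47 (L l489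 (T t122 (L l47 (T t146 N)))))))) (K a26 (M a56 (F (T t556 (L l334 (T t133 (L l12 (L l18 (T t135 N)))))))) (K a42 (M a255 (F (T t557 (L l141 (L l236 (T t547 (L l28 (L l236 (L l390 (T t548 N)))))))))) (K a58 (M a12 (F (T t145 (L l489 (T t122 (T t146 N)))))) (K a15 (M a4 (L l339 (F (T t129 (L l63 (L l514 (T t528 (T t520 (K a133 (M a74 (F (T t558 (L l73 (L l489 (T t519 (T t520 N))))))) (K a74 (M a133 (F (T t558 (L l73 (L l489 (T t519 (T t520 N))))))) N)))))))))) N))))))))))))))))))))⟩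
def e0_63__192_18 : Ent 4 := ⟨[a0, a63], [a192, a66], (M a3 (F (T t632 (L l514 (T t137 (L l514 (T t353 (L l306 (L l514 (T t665 (L l514 (T t358 (K a60 (M a16 (L l514 (F (T t112 (L l39 (L l489 (T t839 (T t840 (K a148 (M a104 (F (T t112 (L l39 (L l489 (T t839 (T t840 N))))))) (K a104 (M a148 (F (T t112 (L l39 (L l489 (T t839 (T t840 N))))))) N)))))))))) (K a1 (M a51 (F (T t841 (L l339 (T t842 (T t843 N)))))) (K a21 (M a255 (F (T t844 (L l292 (T t845 (L l292 (L l347 (T t846 N)))))))) (K a41 (M a48 (F (L l22 (T t610 (L l29 (L l489 (T t348 (L l25 (L l65 (T t847 N)))))))))) (K a2 (M a51 (L l306 (F (T t848 (L l339 (T t842 (L l42 (L l66 (T t843 (K a130 (M a194 (F (T t4306 (L l339 (T t8670 (L l42 (L l66 (T t843 N)))))))) (K a194 (M a130 (L l228 (F (T t4306 (L l76 (L l296 (T t8671 (K a193 (Fr a195 a65 l308 (V t8672)) (K a195 (M a193 (F (T t4306 (L l337 (L l339 (T t842 (T t850 N))))))) N))))))))) N))))))))))) (K a22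 (M a48 (F (T t797 (L l11 (L l339 (T t1 (L l16 (L l66 (T t345 N))))))))) (K a42 (M a255 (F (T t854 (L l22 (L l228 (T t855 (L l22 (L l292 (T t846 N))))))))) (K a23 (M a48 (F (T t132 (L l489 (T t86 (L l11 (T t847 N))))))) (K a43 (M a48 (F (T t48 (L l489 (T t86 (T t847 N)))))) N)))))))))))))))))))))⟩
def e0_63__192_19 : Ent 4 := ⟨[a0, a63], [a192, a67], (M a48 (F (T t48 (L l339 (T t1 (L l339 (T t2 (L l339 (T t3 (L l339 (T t0 (K a16 (M a60 (F (T t138 (L l14 (L l18 (L l307 (L l309 (T t67 (T t65 N))))))))) (K a32 (M a60 (F (T t116 (L l489 (T t64 (L l24 (L l28 (T t65 N)))))))) (K a21 (M a255 (F (T t1259 (L l268 (T t1160 (L l47 (L l236 (T t548 N)))))))) (K a37 (M a52 (F (T t555 (L l334 (T t82 (L l21 (L l28 (T t84 N)))))))) (K a53 (M a12 (F (T t145 (L l47 (L l489 (T t122 (L l47 (T t146 N)))))))) (K a26 (M a56 (F (T t556 (L l334 (T t133 (L l12 (L l18 (T t135 N)))))))) (K a42 (M a255 (F (T t1260 (L l54 (L l268 (T t1160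 (L l28 (L l236 (L l390 (T t548 N)))))))))) (K a58 (M a12 (F (T t145 (L l489 (T t122 (T t146 N)))))) (K a15 (M a4 (L l339 (F (T t129 (L l63 (L l514 (T t528 (T t520 (K a133 (M a74 (F (T t558 (L l73 (L l489 (T t519 (T t520 N))))))) (K a74 (M a133 (F (T t558 (L l73 (L l489 (T t519 (T t520 N))))))) N)))))))))) N))))))))))))))))))))⟩
def e0_63__192_20 : Ent 4 := ⟨[a0, a63], [a192, a69], (M a60 (F (T t116 (L l309 (T t67 (L l309 (T t43 (L l309 (T t68 (L l309 (L l329 (T t69 (K a20 (M a48 (F (T t138 (L l11 (L l339 (T t1 (L l11 (T t235 N)))))))) (K a40 (M a48 (F (T t48 (L l489 (T t64 (L l52 (T t235 N))))))) (K a21 (M a255 (F (T t1639 (L l11 (L l123 (L l228 (L l347 (T t1634 (L l65 (L l228 (T t1635 N))))))))))) (K a41 (M a32 (F (T t1568 (L l65 (L l339 (T t219 (L l25 (L l65 (T t1569 N))))))))) (K a61 (M a16 (F (T t504 (L l334 (T t1140 (L l59 (T t1141 N))))))) (K a22 (M a16 (F (L l66 (T t504 (L l19 (L l334 (T t1140 (L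 l16 (L l66 (T t1141 N)))))))))) (K a42 (M a255 (F (T t1640 (L l123 (L l228 (T t1634 (L l22 (L l228 (L l390 (T t1635 N)))))))))) (K a62 (M a16 (F (T t1574 (L l66 (L l339 (T t97 (L l66 (T t1141 N)))))))) (K a3 (M a16 (L l309 (F (T t504 (L l9 (L l334 (T t1140 (T t1141 (K a129 (M a66 (F (T t504 (L l9 (L l334 (T t1140 (T t1141 N))))))) (K a66 (M a129 (F (T t504 (L l9 (L l334 (T t1140 (T t1141 N))))))) N)))))))))) N)))))))))))))))))))))⟩
def e0_63__192_21 : Ent 4 := ⟨[a0, a63], [a192, a70], (M a12 (F (T t150 (L l489 (T t122 (L l489 (T t151 (L l489 (T t152 (L l489 (T t153 (K a4 (M a60 (F (T t570 (L l46 (L l50 (L l309 (L l333 (T t67 (T t448 N))))))))) (K a8 (M a60 (F (T t570 (L l309 (L l333 (T t67 (L l52 (L l56 (T t448 N))))))))) (K a21 (M a255 (F (T t2030 (L l272 (L l347 (T t2031 (L l15 (L l272 (T t2032 N))))))))) (K a25 (M a48 (F (T t865 (L l15 (L l339 (T t1 (L l12 (L l56 (T t866 N))))))))) (K a29 (M a48 (F (T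 t145 (L l15 (L l339 (T t1 (T t866 N))))))) (K a38 (M a48 (F (T t867 (L l26 (L l339 (T t2 (L l21 (L l50 (T t868 N))))))))) (K a42 (M a255 (F (T t2033 (L l26 (L l232 (L l333 (T t2034 (L l56 (L l272 (L l390 (T t2032 N))))))))))) (K a46 (M a48 (F (T t48 (L l514 (T t443 (L l26 (T t866 N))))))) (K a51 (M a16 (L l489 (F (T t112 (L l39 (L l514 (T t871 (T t872 (K a145 (M a98 (F (T t112 (L l39 (L l514 (T t871 (T t872 N))))))) (K a98 (M a145 (F (T t112 (L l39 (L l514 (T t871 (T t872 N))))))) N)))))))))) N))))))))))))))))))))⟩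
def e0_63__192_22 : Ent 4 := ⟨[a0, a63], [a192, a71], (M a48 (F (T t48 (L l339 (T t1 (L l339 (T t2 (L l339 (T t3 (L l339 (T t0 (K a16 (M a60 (F (T t138 (L l14 (L l18 (L l309 (L l331 (T t67 (T t65 N))))))))) (K a32 (M a60 (F (T t116 (L l489 (T t64 (L l24 (L l28 (T t65 N)))))))) (K a21 (M a255 (F (T t1259 (L l268 (T t1160 (L l47 (L l236 (T t548 N)))))))) (K a37 (M a52 (F (T t555 (L l334 (T t82 (L l21 (L l28 (T t84 N)))))))) (K a53 (M a12 (F (T t145 (L l47 (L l489 (T t122 (L l47 (T t146 N)))))))) (K a26 (M a56 (F (T t556 (L l334 (T t133 (L l12 (L l18 (T t135 N)))))))) (K a42 (M a255 (F (T t1260 (L l54 (L l268 (T t1160 (L l28 (L l236 (L l390 (T t548 N)))))))))) (K a58 (M a12 (F (T t145 (L l489 (T t122 (T t146 N)))))) (K a15 (M a4 (L l339 (F (T t129 (L l63 (L l514 (T t528 (T t520 (K a133 (M a74 (F (T t558 (L l73 (L l489 (T t519 (T t520 N))))))) (K a74 (M a133 (F (T t558 (L l73 (L l489 (T t519 (T t520 N)))))))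 N)))))))))) N))))))))))))))))))))⟩
def e0_63__192_23 : Ent 4 := ⟨[a0, a63], [a192, a74], (M a15 (F (T t1071 (L l318 (L l484 (T t716 (L l484 (T t731 (L l484 (T t723 (L l484 (T t732 (K a48 (M a4 (L l484 (F (T t129 (L l45 (L l309 (L l318 (T t2570 (L l318 (T t2571 (K a144 (M a96 (F (T t129 (L l45 (L l309 (L l318 (T t2570 (L l318 (T t2571 N))))))))) (K a96 (M a144 (F (T t129 (L l45 (L l309 (L l318 (T t2570 (L l318 (T t2571 N))))))))) N)))))))))))) (K a5 (M a12 (F (T t2061 (L l514 (T t2544 (L l5 (T t722 N))))))) (K a21 (M a255 (F (T t2572 (L l268 (L l318 (T t2573 (L l47 (L l268 (L l347 (T t2574 N)))))))))) (K a37 (M a4 (F (L l28 (T t129 (L l51 (L l309 (L l318 (T t2570 (L l21 (L l28 (L l318 (T t2571 N)))))))))))) (K a10 (M a12 (L l318 (F (T t150 (L l514 (T t2544 (L l54 (T t722 (K a138 (M a202 (F (T t2575 (L l514 (T t2576 (L l2 (L l54 (L l320 (T t2577 N))))))))) (K a202 (M a138 (L l236 (F (T t2575 (L l84 (L l232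 (T t2578 (K a197 (Fr a207 a69 l332 (V t2579)) (K a207 (M a197 (F (T t150 (L l506 (L l514 (T t2544 (L l54 (T t722 N)))))))) N))))))))) N)))))))))) (K a26 (M a8 (F (T t2581 (L l18 (L l489 (T t414 (L l12 (L l18 (T t2582 N))))))))) (K a42 (M a255 (F (T t2583 (L l84 (L l236 (T t2584 (L l28 (L l268 (T t2574 N))))))))) (K a31 (M a4 (F (T t129 (L l309 (L l318 (T t2570 (L l17 (L l318 (T t2571 N))))))))) (K a47 (M a4 (F (L l309 (L l318 (T t2570 (L l28 (L l489 (T t519 (L l28 (L l318 (T t2571 N))))))))))) N)))))))))))))))))))))⟩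
def e0_63__192_24 : Ent 4 := ⟨[a0, a63], [a192, a75], (M a12 (F (T t150 (L l489 (T t122 (L l489 (T t151 (L l489 (T t152 (L l489 (T t153 (K a4 (M a60 (F (T t570 (L l46 (L l50 (L l309 (T t67 (T t448 N)))))))) (K a8 (M a60 (F (T t570 (L l309 (T t67 (L l52 (L l56 (T t448 N)))))))) (K a21 (M a255 (F (T t2030 (L l272 (L l347 (T t2031 (L l15 (L l272 (T t2032 N))))))))) (K a25 (M a48 (F (T t865 (L l15 (L l337 (L l339 (T t1 (L l12 (L l56 (T t866 N)))))))))) (K a29 (M a48 (F (T t145 (L l15 (L l337 (L l339 (T t1 (T t866 N)))))))) (K a38 (M a48 (F (T t867 (L l26 (L l337 (L l339 (T t2 (L l21 (L l50 (T t868 N)))))))))) (K a42 (M a255 (F (T t2033 (L l26 (L l232 (T t2034 (L l56 (L l272 (L l390 (T t2032 N)))))))))) (K a46 (M a48 (F (T t867 (L l337 (L l339 (T t1 (L l26 (T t866 N)))))))) (K a51 (M a16 (L l489 (F (T t112 (L l39 (L l514 (T t871 (T t872 (K a145 (M a98 (F (T t112 (L l39 (L l514 (T t871 (T t872 N))))))) (K a98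 (M a145 (F (T t112 (L l39 (L l514 (T t871 (T t872 N))))))) N)))))))))) N))))))))))))))))))))⟩
def e0_63__192_25 : Ent 4 := ⟨[a0, a63], [a192, a79], (M a12 (F (T t150 (L l489 (T t122 (L l489 (T t151 (L l489 (T t152 (L l489 (T t153 (K a4 (M a60 (F (T t570 (L l46 (L l50 (L l309 (T t67 (T t448 N)))))))) (K a8 (M a60 (F (T t570 (L l309 (T t67 (L l52 (L l56 (T t448 N)))))))) (K a21 (M a255 (F (T t2126 (L l232 (T t2034 (L l15 (L l272 (T t2032 N)))))))) (K a25 (M a48 (F (T t865 (L l15 (L l325 (L l339 (T t1 (L l12 (L l56 (T t866 N)))))))))) (K a29 (M a48 (F (T t145 (L l15 (L l325 (L l339 (T t1 (T t866 N)))))))) (K a38 (M a48 (F (T t867 (L l26 (L l325 (L l339 (T t2 (L l21 (L l50 (T t868 N)))))))))) (K a42 (M a255 (F (T t2033 (L l26 (L l232 (T t2034 (L l56 (L l272 (L l390 (T t2032 N)))))))))) (K a46 (M a48 (F (T t867 (L l325 (L l339 (T t1 (L l26 (T t866 N)))))))) (K a51 (M a16 (L l489 (F (T t112 (L l39 (L l514 (T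 t871 (T t872 (K a145 (M a98 (F (T t112 (L l39 (L l514 (T t871 (T t872 N))))))) (K a98 (M a145 (F (T t112 (L l39 (L l514 (T t871 (T t872 N))))))) N)))))))))) N))))))))))))))))))))⟩
def e0_63__192_26 : Ent 4 := ⟨[a0, a63], [a192, a85], (M a48 (F (T t610 (L l339 (L l347 (T t1 (L l339 (L l455 (T t2 (L l339 (L l347 (L l368 (T t3 (L l339 (T t0 (K a16 (M a60 (L l368 (F (T t522 (L l489 (T t64 (L l455 (T t65 (K a154 (M a223 (F (T t246 (L l309 (L l473 (T t69 (L l455 (L l498 (T t65 N))))))))) (K a223 (M a154 (F (T t522 (L l123 (L l228 (L l344 (T t8673 N))))))) N)))))))))) (K a32 (M a60 (F (T t138 (L l309 (L l347 (L l350 (T t67 (L l24 (L l28 (L l455 (T t65 N))))))))))) (K a21 (M a60 (L l347 (F (T t1543 (L l47 (L l65 (L l489 (T t64 (L l11 (L l18 (L l47 (L l65 (L l334 (L l350 (L l368 (T t288 (L l50 (L l334 (L l458 (T t5102 (K a149 (M a213 (F (T t138 (L l11 (L l334 (L l350 (T t489 (L l11 (L l18 (L l47 (L l65 (L l334 (L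 l350 (L l368 (L l491 (L l515 (T t288 (L l50 (L l334 (L l458 (T t1300 N))))))))))))))))))))) (K a213 (M a149 (L l296 (F (T t1543 (L l228 (L l236 (L l275 (L l293 (T t8674 (K a234 (M a255 (F (T t4430 (L l11 (L l334 (L l350 (T t489 N))))))) (K a255 (M a234 (F (T t1543 (L l228 (L l236 (L l275 (L l293 (T t8674 N)))))))) N))))))))))) N)))))))))))))))))))))) (K a37 (M a52 (F (T t555 (L l334 (L l458 (T t82 (L l21 (L l28 (L l350 (T t84 N)))))))))) (K a53 (M a12 (F (L l514 (T t443 (L l47 (L l347 (L l489 (T t122 (L l47 (L l347 (T t146 N))))))))))) (K a26 (M a56 (F (T t556 (L l334 (L l350 (T t133 (L l12 (L l18 (L l347 (T t135 N)))))))))) (K a42 (M a60 (F (T t236 (L l22 (L l334 (L l458 (T t247 (L l56 (L l334 (L l350 (L l368 (T t288 (L l22 (L l28 (L l54 (L l66 (L l334 (L l458 (T t5102 N))))))))))))))))))) (K a58 (M a12 (F (L l514 (T t443 (L l347 (L l489 (T t122 (L l347 (T t146 N))))))))) (K a15 (M a4 (L l339 (F (T t1604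 (L l63 (L l514 (T t528 (T t520 (K a133 (M a74 (F (T t1604 (L l63 (L l514 (T t528 (T t520 N))))))) (K a74 (M a133 (F (T t1604 (L l63 (L l514 (T t528 (T t520 N))))))) N)))))))))) N))))))))))))))))))))))))⟩
def e0_63__192_27 : Ent 4 := ⟨[a0, a63], [a192, a86], (M a48 (F (T t48 (L l339 (T t1 (L l339 (T t2 (L l339 (T t3 (L l339 (T t0 (K a16 (M a60 (F (T t138 (L l14 (L l18 (L l309 (L l477 (T t67 (L l351 (T t65 N)))))))))) (K a32 (M a60 (F (T t138 (L l309 (L l477 (T t67 (L l24 (L l28 (L l351 (T t65 N)))))))))) (K a21 (M a255 (F (T t554 (L l87 (L l236 (L l347 (T t547 (L l47 (L l236 (L l474 (T t548 N))))))))))) (K a37 (M a52 (F (T t555 (L l334 (T t82 (L l21 (L l28 (T t84 N)))))))) (K a53 (M a12 (F (T t145 (L l47 (L l489 (T t122 (L l47 (T t146 N)))))))) (K a26 (M a56 (F (T t556 (L l334 (T t133 (L l12 (L l18 (T t135 N)))))))) (K a42 (M a255 (F (T t557 (L l87 (L l236 (T t547 (L l28 (L l236 (L l390 (L l474 (T t548 N)))))))))))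 (K a58 (M a12 (F (T t145 (L l489 (T t122 (T t146 N)))))) (K a15 (M a4 (L l339 (F (T t129 (L l63 (L l514 (T t528 (T t520 (K a133 (M a74 (F (T t558 (L l73 (L l489 (T t519 (T t520 N))))))) (K a74 (M a133 (F (T t558 (L l73 (L l489 (T t519 (T t520 N))))))) N)))))))))) N))))))))))))))))))))⟩
def e0_63__192_28 : Ent 4 := ⟨[a0, a63], [a192, a87], (M a48 (F (T t48 (L l339 (T t1 (L l339 (T t2 (L l339 (T t3 (L l339 (T t0 (K a16 (M a60 (F (T t662 (L l489 (T t64 (L l349 (T t65 N))))))) (K a32 (M a60 (F (T t116 (L l489 (T t64 (L l24 (L l28 (L l349 (T t65 N))))))))) (K a21 (M a255 (F (T t3576 (L l268 (T t1160 (L l47 (L l236 (L l367 (T t548 N))))))))) (K a37 (M a52 (F (T t555 (L l334 (T t82 (L l21 (L l28 (T t84 N)))))))) (K a53 (M a12 (F (T t145 (L l47 (L l489 (T t122 (L l47 (T t146 N)))))))) (K a26 (M a56 (F (T t556 (L l334 (T t133 (L l12 (L l18 (T t135 N)))))))) (K a42 (M a255 (F (L l268 (T t1169 (L l87 (L l236 (T t547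 (L l28 (L l236 (L l367 (L l390 (T t548 N)))))))))))) (K a58 (M a12 (F (T t145 (L l489 (T t122 (T t146 N)))))) (K a15 (M a4 (L l339 (F (T t129 (L l63 (L l514 (T t528 (T t520 (K a133 (M a74 (F (T t558 (L l73 (L l489 (T t519 (T t520 N))))))) (K a74 (M a133 (F (T t558 (L l73 (L l489 (T t519 (T t520 N))))))) N)))))))))) N))))))))))))))))))))⟩
def e0_63__192_29 : Ent 4 := ⟨[a0, a63], [a192, a90], (M a12 (F (T t150 (L l489 (T t122 (L l489 (T t151 (L l489 (T t152 (L l489 (T t153 (K a4 (M a60 (F (T t570 (L l46 (L l50 (L l309 (T t67 (T t448 N)))))))) (K a8 (M a60 (F (T t570 (L l309 (T t67 (L l52 (L l56 (T t448 N)))))))) (K a21 (M a255 (F (T t2030 (L l94 (L l272 (L l347 (T t2031 (L l15 (L l272 (L l462 (T t2032 N))))))))))) (K a25 (M a48 (F (T t865 (L l15 (L l339 (L l462 (L l483 (T t1 (L l12 (L l56 (T t866 N))))))))))) (K a29 (M a48 (F (T t145 (L l15 (L l339 (L l462 (L l483 (T t1 (T t866 N))))))))) (K a38 (M a48 (F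 (T t867 (L l26 (L l339 (L l483 (T t2 (L l21 (L l50 (L l357 (L l462 (T t868 N)))))))))))) (K a42 (M a255 (F (T t2130 (L l94 (L l272 (T t2031 (L l56 (L l272 (L l390 (L l462 (T t2032 N))))))))))) (K a46 (M a48 (F (T t865 (L l339 (L l462 (L l483 (T t1 (L l26 (T t866 N))))))))) (K a51 (M a16 (L l489 (F (T t112 (L l39 (L l514 (T t871 (L l354 (L l372 (T t872 (K a145 (M a98 (F (T t112 (L l39 (L l514 (T t871 (L l354 (L l372 (T t872 N))))))))) (K a98 (M a145 (F (T t112 (L l39 (L l514 (T t871 (L l354 (L l372 (T t872 N))))))))) N)))))))))))) N))))))))))))))))))))⟩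
def e0_63__192_30 : Ent 4 := ⟨[a0, a63], [a192, a91], (M a12 (F (T t150 (L l489 (T t122 (L l489 (T t151 (L l489 (T t152 (L l489 (T t153 (K a4 (M a60 (F (T t570 (L l46 (L l50 (L l309 (T t67 (T t448 N)))))))) (K a8 (M a60 (F (T t116 (L l339 (L l481 (T t398 (L l52 (L l56 (T t448 N))))))))) (K a21 (M a255 (F (T t2126 (L l232 (T t2034 (L l15 (L l272 (T t2032 N)))))))) (K a25 (M a48 (F (T t865 (L l15 (L l339 (L l481 (T t1 (L l12 (L l56 (T t866 N)))))))))) (K a29 (M a48 (F (T t145 (L l15 (L l339 (L l481 (T t1 (T t866 N)))))))) (K a38 (M a48 (F (T t867 (L l26 (L l339 (L l481 (T t2 (L l21 (L l50 (L l355 (T t868 N))))))))))) (K a42 (M a255 (F (T t2033 (L l26 (L l232 (T t2034 (L l56 (L l272 (L l390 (T t2032 N)))))))))) (K a46 (M a48 (F (T t867 (L l339 (L l481 (T t1 (L l26 (T t866 N)))))))) (K a51 (M a16 (L l489 (F (T t112 (L l39 (L l514 (T t871 (T t872 (K a145 (M a98 (F (T t112 (L l39 (L l514 (T t871 (T t872 N)))))))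 (K a98 (M a145 (F (T t112 (L l39 (L l514 (T t871 (T t872 N))))))) N)))))))))) N))))))))))))))))))))⟩
def e0_63__192_31 : Ent 4 := ⟨[a0, a63], [a192, a95], (M a48 (F (T t48 (L l339 (L l469 (T t1 (L l339 (L l469 (T t2 (L l339 (L l469 (T t3 (L l339 (L l361 (L l469 (T t0 (K a16 (M a60 (F (T t138 (L l14 (L l18 (L l309 (T t67 (T t65 N)))))))) (K a32 (M a60 (F (T t138 (L l309 (T t67 (L l24 (L l28 (T t65 N)))))))) (K a21 (M a255 (F (T t3576 (L l268 (T t1160 (L l47 (L l236 (L l361 (T t548 N))))))))) (K a37 (M a52 (F (T t555 (L l334 (T t82 (L l21 (L l28 (T t84 N)))))))) (K a53 (M a12 (F (T t145 (L l47 (L l489 (T t122 (L l47 (T t146 N)))))))) (K a26 (M a56 (F (T t556 (L l334 (T t133 (L l12 (L l18 (T t135 N)))))))) (K a42 (M a255 (F (L l268 (T t1169 (L l94 (L l236 (T t547 (L l28 (L l236 (L l361 (L l390 (T t548 N)))))))))))) (K a58 (M a12 (F (T t145 (L l489 (T t122 (T t146 N)))))) (K a15 (M a255 (L l339 (F (T t3576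 (L l268 (L l483 (T t1160 (L l236 (L l361 (T t548 (K a133 (M a74 (F (T t4430 (L l236 (L l311 (L l325 (T t1162 (L l236 (L l361 (T t548 N)))))))))) (K a74 (M a133 (F (T t4430 (L l84 (L l236 (L l325 (T t1162 (L l236 (L l318 (L l361 (T t548 N))))))))))) N)))))))))))) N)))))))))))))))))))))))))⟩
def e0_63__192_32 : Ent 4 := ⟨[a0, a63], [a192, a106], (M a48 (F (T t48 (L l339 (T t1 (L l339 (L l390 (L l498 (T t2 (L l339 (L l411 (T t3 (L l339 (L l390 (T t0 (K a16 (M a60 (F (T t236 (L l14 (L l18 (L l309 (L l393 (T t67 (L l390 (L l498 (T t65 N))))))))))) (K a32 (M a60 (F (T t2568 (L l489 (T t64 (L l24 (L l28 (L l390 (L l498 (T t65 N)))))))))) (K a21 (M a255 (F (L l268 (T t511 (L l236 (L l390 (T t512 (L l18 (L l144 (L l236 (L l347 (L l498 (T t513 N))))))))))))) (K a37 (M a52 (F (L l334 (T t82 (L l489 (L l498 (T t83 (L l21 (L l28 (L l390 (L l498 (T t84 N)))))))))))) (K a53 (M a12 (F (T t145 (L l47 (L l489 (T t122 (L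 l47 (T t146 N)))))))) (K a26 (M a56 (F (L l334 (T t133 (L l489 (L l501 (T t134 (L l12 (L l18 (T t135 N)))))))))) (K a42 (M a60 (L l390 (F (T t3520 (L l489 (T t64 (L l56 (L l334 (T t8375 (L l22 (L l28 (L l54 (L l66 (L l334 (L l498 (L l516 (T t250 (K a170 (M a234 (F (T t3520 (L l54 (L l489 (L l498 (T t451 (L l56 (L l334 (L l464 (T t8375 (L l22 (L l28 (L l54 (L l66 (L l334 (L l392 (L l404 (L l498 (L l516 (T t250 N))))))))))))))))))))) (K a234 (M a170 (L l296 (F (T t236 (L l144 (L l236 (L l256 (T t1304 (K a213 (Fr a255 a85 l476 (V t8675)) (K a255 (M a213 (F (T t236 (L l250 (L l256 (L l289 (L l295 (T t8370 N)))))))) N)))))))))) N))))))))))))))))))) (K a58 (M a12 (L l498 (F (T t145 (L l489 (T t122 (T t146 (K a202 (M a154 (L l236 (F (L l272 (T t3386 (L l54 (L l390 (L l489 (T t153 (K a197 (Fr a207 a101 l512 (V t8676)) (K a207 (M a197 (F (T t150 (L l289 (L l301 (T t8677 N)))))) N))))))))))) (K a154 (M a202 (F (T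 t150 (L l356 (L l368 (L l514 (T t445 (L l356 (T t146 N))))))))) N))))))))) (K a15 (M a52 (L l339 (F (T t1429 (L l73 (L l489 (L l498 (T t83 (L l390 (L l498 (T t84 (K a133 (M a74 (F (T t1429 (L l73 (L l489 (L l498 (T t83 (L l390 (L l498 (T t84 N)))))))))) (K a74 (M a133 (L l130 (F (T t1429 (L l73 (L l489 (L l498 (T t83 (L l390 (L l498 (T t84 (K a90 (M a122 (L l483 (F (T t1429 (L l144 (L l296 (L l469 (T t2479 (K a240 (M a165 (L l268 (F (T t4776 (L l84 (L l104 (L l151 (L l266 (L l498 (T t8678 (K a208 (M a224 (L l375 (F (T t4776 (L l84 (L l104 (L l151 (L l498 (T t8679 (K a149 (M a31 (F (T t5922 (L l73 (L l417 (L l489 (L l495 (L l498 (T t83 N))))))))) (K a31 (Fr a149 a181 l199 (V t83)) N))))))))))) (K a224 (M a208 (F (L l376 (T t1429 (L l84 (L l266 (L l296 (L l390 (T t8680 N))))))))) N)))))))))))) (K a165 (Fr a240 a181 l447 (V t8681)) N)))))))))) (K a122 (M a90 (F (T t1429 (L l73 (L l426 (L l489 (L l498 (T t83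 (L l390 (L l426 (L l498 (T t84 N)))))))))))) N))))))))))))) N))))))))))))) N))))))))))))))))))))))))⟩
def e0_63__192_33 : Ent 4 := ⟨[a0, a63], [a192, a107], (M a48 (F (T t48 (L l339 (T t1 (L l339 (T t2 (L l339 (L l409 (T t3 (L l339 (T t0 (K a16 (M a60 (F (T t138 (L l14 (L l18 (L l309 (L l391 (T t67 (T t65 N))))))))) (K a32 (M a60 (F (T t2568 (L l489 (T t64 (L l24 (L l28 (T t65 N)))))))) (K a21 (M a255 (F (T t554 (L l236 (L l347 (T t547 (L l47 (L l236 (T t548 N))))))))) (K a37 (M a52 (F (T t555 (L l334 (T t82 (L l21 (L l28 (T t84 N)))))))) (K a53 (M a12 (F (T t145 (L l47 (L l489 (T t122 (L l47 (T t146 N)))))))) (K a26 (M a56 (F (L l334 (T t133 (L l489 (L l499 (T t134 (L l12 (L l18 (T t135 N)))))))))) (K a42 (M a255 (F (T t1260 (L l54 (L l268 (T t1160 (L l28 (L l236 (L l390 (T t548 N)))))))))) (K a58 (M a12 (F (T t145 (L l489 (T t122 (T t146 N)))))) (K a15 (M a4 (L l339 (F (T t129 (L l63 (L l514 (T t528 (T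 t520 (K a133 (M a74 (F (T t558 (L l73 (L l489 (T t519 (T t520 N))))))) (K a74 (M a133 (F (T t558 (L l73 (L l489 (T t519 (T t520 N))))))) N)))))))))) N)))))))))))))))))))))⟩
def e0_63__192_34 : Ent 4 := ⟨[a0, a63], [a192, a111], (M a48 (F (T t48 (L l339 (T t1 (L l339 (T t2 (L l339 (L l397 (T t3 (L l339 (T t0 (K a16 (M a60 (F (T t138 (L l14 (L l18 (L l309 (T t67 (T t65 N)))))))) (K a32 (M a60 (F (T t138 (L l309 (T t67 (L l24 (L l28 (T t65 N)))))))) (K a21 (M a255 (F (T t554 (L l236 (L l347 (T t547 (L l47 (L l236 (T t548 N))))))))) (K a37 (M a52 (F (T t555 (L l334 (T t82 (L l21 (L l28 (T t84 N)))))))) (K a53 (M a12 (F (T t145 (L l47 (L l489 (T t122 (L l47 (T t146 N)))))))) (K a26 (M a56 (F (T t556 (L l334 (T t133 (L l12 (L l18 (T t135 N)))))))) (K a42 (M a255 (F (T t1260 (L l54 (L l268 (T t1160 (L l28 (L l236 (L l390 (T t548 N)))))))))) (K a58 (M a12 (F (T t145 (L l489 (T t122 (T t146 N)))))) (K a15 (M a4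 (L l339 (F (T t129 (L l63 (L l514 (T t528 (T t520 (K a133 (M a74 (F (T t558 (L l73 (L l489 (T t519 (T t520 N))))))) (K a74 (M a133 (F (T t558 (L l73 (L l489 (T t519 (T t520 N))))))) N)))))))))) N)))))))))))))))))))))⟩
def e0_63__192_35 : Ent 4 := ⟨[a0, a63], [a192, a127], (M a48 (F (T t48 (L l339 (T t1 (L l339 (T t2 (L l339 (T t3 (L l339 (T t0 (K a16 (M a60 (F (T t138 (L l14 (L l18 (L l309 (T t67 (T t65 N)))))))) (K a32 (M a60 (F (T t138 (L l309 (T t67 (L l24 (L l28 (T t65 N)))))))) (K a21 (M a60 (F (T t1543 (L l47 (L l65 (L l489 (T t64 (L l11 (L l18 (L l47 (L l65 (L l334 (T t288 (L l50 (L l334 (T t250 N)))))))))))))))) (K a37 (M a52 (F (T t555 (L l334 (T t82 (L l21 (L l28 (T t84 N)))))))) (K a53 (M a12 (F (T t145 (L l47 (L l489 (T t122 (L l47 (T t146 N)))))))) (K a26 (M a56 (F (T t556 (L l334 (T t133 (L l12 (L l18 (T t135 N)))))))) (K a42 (M a60 (F (T t3520 (L l489 (T t64 (L l56 (L l334 (T t288 (L l22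 (L l28 (L l54 (L l66 (L l334 (T t250 N)))))))))))))) (K a58 (M a12 (F (T t145 (L l489 (T t122 (T t146 N)))))) (K a15 (M a4 (L l339 (F (T t129 (L l63 (L l514 (T t528 (T t520 (K a133 (M a74 (F (T t558 (L l73 (L l489 (T t519 (T t520 N))))))) (K a74 (M a133 (F (T t558 (L l73 (L l489 (T t519 (T t520 N))))))) N)))))))))) N))))))))))))))))))))⟩
def e0_63__192_36 : Ent 4 := ⟨[a0, a63], [a192, a128], (M a48 (F (T t48 (L l339 (T t1 (L l339 (T t2 (L l339 (T t3 (L l339 (T t0 (K a16 (M a60 (F (T t138 (L l14 (L l18 (L l309 (T t67 (T t65 N)))))))) (K a32 (M a60 (F (T t138 (L l309 (T t67 (L l24 (L l28 (T t65 N)))))))) (K a21 (M a255 (F (L l268 (T t1160 (L l160 (L l236 (L l347 (T t547 (L l47 (L l220 (L l236 (T t548 N)))))))))))) (K a37 (M a52 (F (T t555 (L l334 (T t82 (L l21 (L l28 (T t84 N)))))))) (K a53 (M a12 (F (T t145 (L l47 (L l489 (T t122 (L l47 (T t146 N)))))))) (K a26 (M a56 (F (T t556 (L l334 (T t133 (L l12 (L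 l18 (T t135 N)))))))) (K a42 (M a255 (F (T t8682 (L l54 (L l268 (T t1160 (L l28 (L l220 (L l236 (L l390 (T t548 N))))))))))) (K a58 (M a12 (F (T t145 (L l489 (T t122 (T t146 N)))))) (K a15 (M a8 (L l339 (F (T t428 (L l63 (L l514 (T t4681 (T t691 (K a133 (M a74 (L l160 (F (T t4700 (L l73 (L l489 (T t414 (T t691 (K a138 (M a143 (F (T t4700 (L l73 (L l489 (T t414 (T t691 N))))))) (K a143 (M a138 (L l325 (F (T t2407 (L l7 (L l335 (T t8683 (K a79 (Fr a207 a69 l332 (V t8684)) (K a207 (M a79 (L l236 (F (T t428 (L l156 (L l157 (L l235 (L l337 (T t8685 (K a197 (Fr a202 a10 l318 (V t8686)) (K a202 (M a197 (F (T t4700 (L l230 (L l235 (L l315 (L l327 (T t8687 N)))))))) N))))))))))) N))))))))) N)))))))))) (K a74 (M a133 (F (T t4700 (L l73 (L l489 (T t414 (T t691 N))))))) N)))))))))) N))))))))))))))))))))⟩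
def e0_63__192_37 : Ent 4 := ⟨[a0, a63], [a192, a129], (M a3 (F (T t85 (L l514 (T t137 (L l514 (T t353 (L l514 (T t665 (L l305 (L l514 (T t358 (K a60 (M a16 (L l514 (F (T t112 (L l39 (L l489 (T t839 (T t840 (K a148 (M a104 (F (T t112 (L l39 (L l489 (T t839 (T t840 N))))))) (K a104 (M a148 (F (T t112 (L l39 (L l489 (T t839 (T t840 N))))))) N)))))))))) (K a1 (M a51 (L l305 (F (T t841 (L l339 (T t842 (T t843 (K a65 (M a193 (F (T t1355 (L l339 (T t8670 (T t843 N)))))) (K a193 (M a65 (L l228 (F (T t841 (L l152 (L l296 (T t8688 (K a194 (Fr a195 a130 l308 (V t3496)) (K a195 (M a194 (F (T t853 (L l65 (L l334 (L l338 (T t592 (T t843 N)))))))) N))))))))) N))))))))) (K a21 (M a255 (F (T t8689 (L l228 (T t855 (L l152 (L l292 (L l347 (T t846 N))))))))) (K a41 (M a48 (F (T t136 (L l22 (L l339 (T t2 (L l25 (L l65 (T t847 N))))))))) (K a2 (M a51 (F (T t848 (L l339 (T t842 (L l42 (L l66 (T t843 N)))))))) (K a22 (M a48 (F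 (L l11 (T t48 (L l305 (L l489 (T t86 (L l16 (L l66 (T t345 N)))))))))) (K a42 (M a255 (F (T t8690 (L l292 (L l390 (T t845 (L l22 (L l152 (L l292 (T t846 N)))))))))) (K a23 (M a48 (F (T t132 (L l305 (L l489 (T t86 (L l11 (T t847 N)))))))) (K a43 (M a48 (F (T t48 (L l305 (L l489 (T t86 (T t847 N))))))) N)))))))))))))))))))))⟩
def e0_63__192_38 : Ent 4 := ⟨[a0, a63], [a192, a130], (M a48 (F (T t48 (L l339 (T t1 (L l339 (T t2 (L l339 (T t3 (L l339 (T t0 (K a16 (M a60 (F (T t138 (L l14 (L l18 (L l309 (T t67 (T t65 N)))))))) (K a32 (M a60 (F (T t138 (L l309 (T t67 (L l24 (L l28 (T t65 N)))))))) (K a21 (M a255 (F (T t4430 (L l158 (L l236 (L l347 (T t547 (L l47 (L l218 (L l236 (T t548 N))))))))))) (K a37 (M a52 (F (T t555 (L l334 (T t82 (L l21 (L l28 (T t84 N)))))))) (K a53 (M a12 (F (T t145 (L l47 (L l489 (T t122 (L l47 (T t146 N)))))))) (K a26 (M a56 (F (T t556 (L l334 (T t133 (L l12 (L l18 (T t135 N))))))))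 (K a42 (M a255 (F (T t8682 (L l54 (L l268 (T t1160 (L l28 (L l218 (L l236 (L l390 (T t548 N))))))))))) (K a58 (M a12 (F (T t145 (L l489 (T t122 (T t146 N)))))) (K a15 (M a4 (L l339 (F (T t129 (L l63 (L l514 (T t528 (T t520 (K a133 (M a74 (F (T t558 (L l73 (L l489 (T t519 (T t520 N))))))) (K a74 (M a133 (F (T t558 (L l73 (L l489 (T t519 (T t520 N))))))) N)))))))))) N))))))))))))))))))))⟩
def e0_63__192_39 : Ent 4 := ⟨[a0, a63], [a192, a131], (M a48 (F (T t48 (L l339 (T t1 (L l339 (T t2 (L l339 (T t3 (L l339 (T t0 (K a16 (M a60 (F (T t138 (L l14 (L l18 (L l307 (L l309 (T t67 (T t65 N))))))))) (K a32 (M a60 (F (T t116 (L l489 (T t64 (L l24 (L l28 (T t65 N)))))))) (K a21 (M a255 (F (T t1259 (L l268 (T t1160 (L l47 (L l236 (T t548 N)))))))) (K a37 (M a52 (F (T t555 (L l334 (T t82 (L l21 (L l28 (T t84 N)))))))) (K a53 (M a12 (F (T t145 (L l47 (L l489 (T t122 (L l47 (T t146 N)))))))) (K a26 (M a56 (F (T t556 (L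 l334 (T t133 (L l12 (L l18 (T t135 N)))))))) (K a42 (M a255 (F (T t1260 (L l54 (L l268 (T t1160 (L l28 (L l236 (L l390 (T t548 N)))))))))) (K a58 (M a12 (F (T t145 (L l489 (T t122 (T t146 N)))))) (K a15 (M a4 (L l339 (F (T t129 (L l63 (L l514 (T t528 (T t520 (K a133 (M a74 (F (T t558 (L l73 (L l489 (T t519 (T t520 N))))))) (K a74 (M a133 (F (T t558 (L l73 (L l489 (T t519 (T t520 N))))))) N)))))))))) N))))))))))))))))))))⟩
def e0_63__192_40 : Ent 4 := ⟨[a0, a63], [a192, a133], (M a15 (F (T t1254 (L l484 (T t716 (L l311 (L l484 (T t731 (L l484 (T t723 (L l484 (T t732 (K a48 (M a4 (L l484 (F (T t129 (L l45 (L l309 (L l315 (T t2570 (T t2571 (K a144 (M a96 (F (T t129 (L l45 (L l309 (L l315 (T t2570 (T t2571 N)))))))) (K a96 (M a144 (F (T t129 (L l45 (L l309 (L l315 (T t2570 (T t2571 N)))))))) N))))))))))) (K a5 (M a12 (L l311 (F (T t2823 (L l47 (L l489 (T t122 (L l5 (L l335 (T t722 (K a69 (M a197 (F (T t2823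 (L l47 (L l489 (T t122 (L l5 (L l335 (T t2577 N))))))))) (K a197 (M a69 (L l236 (F (T t2061 (L l160 (L l232 (T t8691 (K a202 (Fr a207 a138 l332 (V t8692)) (K a207 (M a202 (F (T t1252 (L l506 (L l514 (T t2544 (L l5 (L l335 (T t722 N))))))))) N))))))))) N)))))))))))) (K a21 (M a255 (F (T t8693 (L l236 (T t2584 (L l47 (L l268 (L l311 (L l347 (T t2574 N)))))))))) (K a37 (M a4 (F (T t3049 (L l28 (L l489 (T t519 (L l21 (L l28 (T t2571 N))))))))) (K a10 (M a12 (F (T t150 (L l514 (T t2544 (L l54 (L l335 (T t722 N)))))))) (K a26 (M a8 (F (L l18 (T t428 (L l57 (L l309 (L l311 (T t8694 (L l12 (L l18 (L l311 (T t2582 N)))))))))))) (K a42 (M a255 (F (T t8695 (L l54 (L l268 (L l390 (T t2573 (L l28 (L l268 (L l311 (T t2574 N))))))))))) (K a31 (M a4 (F (T t129 (L l309 (L l315 (T t2570 (L l17 (T t2571 N)))))))) (K a47 (M a4 (F (T t3049 (L l28 (L l489 (T t519 (L l28 (T t2571 N)))))))) N)))))))))))))))))))))⟩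
def e0_63__192_41 : Ent 4 := ⟨[a0, a63], [a192, a134], (M a60 (F (T t116 (L l309 (T t67 (L l309 (T t43 (L l309 (T t68 (L l309 (T t69 (K a20 (M a48 (F (T t138 (L l11 (L l339 (T t1 (L l11 (T t235 N)))))))) (K a40 (M a48 (F (T t48 (L l489 (T t64 (L l52 (T t235 N))))))) (K a21 (M a255 (F (T t5786 (L l292 (T t1565 (L l65 (L l228 (L l336 (T t1635 N))))))))) (K a41 (M a32 (F (T t1568 (L l65 (L l339 (T t219 (L l25 (L l65 (T t1569 N))))))))) (K a61 (M a16 (F (T t112 (L l334 (L l338 (T t1140 (L l59 (T t1141 N)))))))) (K a22 (M a16 (F (L l66 (T t112 (L l19 (L l334 (L l338 (T t1140 (L l16 (L l66 (T t1141 N))))))))))) (K a42 (M a255 (F (T t4940 (L l292 (T t1565 (L l22 (L l228 (L l336 (L l390 (T t1635 N)))))))))) (K a62 (M a16 (F (T t1574 (L l66 (L l339 (T t97 (L l66 (T t1141 N)))))))) (K a3 (M a16 (L l309 (F (T t112 (L l9 (L l334 (L l338 (T t1140 (T t1141 (K a129 (M a66 (F (T t112 (L l9 (L l334 (L l338 (T t1140 (T t1141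 N)))))))) (K a66 (M a129 (F (T t112 (L l9 (L l334 (L l338 (T t1140 (T t1141 N)))))))) N))))))))))) N))))))))))))))))))))⟩
def e0_63__192_42 : Ent 4 := ⟨[a0, a63], [a192, a135], (M a12 (F (T t150 (L l489 (T t122 (L l489 (T t151 (L l489 (T t152 (L l489 (T t153 (K a4 (M a60 (F (T t570 (L l46 (L l50 (L l309 (T t67 (T t448 N)))))))) (K a8 (M a60 (F (T t570 (L l309 (T t67 (L l52 (L l56 (T t448 N)))))))) (K a21 (M a255 (F (T t2030 (L l272 (L l347 (T t2031 (L l15 (L l272 (T t2032 N))))))))) (K a25 (M a48 (F (T t865 (L l15 (L l337 (L l339 (T t1 (L l12 (L l56 (T t866 N)))))))))) (K a29 (M a48 (F (T t145 (L l15 (L l337 (L l339 (T t1 (T t866 N)))))))) (K a38 (M a48 (F (T t867 (L l26 (L l337 (L l339 (T t2 (L l21 (L l50 (T t868 N)))))))))) (K a42 (M a255 (F (T t2033 (L l26 (L l232 (T t2034 (L l56 (L l272 (L l390 (T t2032 N)))))))))) (K a46 (M a48 (F (T t867 (L l337 (L l339 (T t1 (L l26 (T t866 N)))))))) (K a51 (M a16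 (L l489 (F (T t112 (L l39 (L l514 (T t871 (T t872 (K a145 (M a98 (F (T t112 (L l39 (L l514 (T t871 (T t872 N))))))) (K a98 (M a145 (F (T t112 (L l39 (L l514 (T t871 (T t872 N))))))) N)))))))))) N))))))))))))))))))))⟩
def e0_63__192_43 : Ent 4 := ⟨[a0, a63], [a192, a138], (M a60 (F (T t116 (L l309 (T t67 (L l309 (T t43 (L l309 (L l330 (T t68 (L l309 (T t69 (K a20 (M a48 (F (T t138 (L l11 (L l318 (L l339 (T t1 (L l11 (L l330 (T t235 N)))))))))) (K a40 (M a48 (F (T t607 (L l489 (T t64 (L l52 (L l330 (T t235 N)))))))) (K a21 (M a255 (F (T t5788 (L l11 (L l228 (L l347 (T t1634 (L l65 (L l206 (L l228 (T t1635 N))))))))))) (K a41 (M a32 (F (L l65 (T t612 (L l29 (L l334 (T t1573 (L l25 (L l65 (T t1569 N)))))))))) (K a61 (M a16 (F (T t112 (L l334 (T t1140 (L l59 (T t1141 N))))))) (K a22 (M a16 (F (T t2447 (L l66 (L l339 (T t97 (L l16 (L l66 (T t1141 N))))))))) (K a42 (M a255 (F (T t4940 (L l292 (T t1565 (L l22 (L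 l206 (L l228 (L l390 (T t1635 N)))))))))) (K a62 (M a16 (F (T t2447 (L l66 (L l339 (T t97 (L l66 (T t1141 N)))))))) (K a3 (M a16 (L l309 (F (T t112 (L l9 (L l334 (T t1140 (T t1141 (K a129 (M a66 (F (T t112 (L l9 (L l334 (T t1140 (T t1141 N))))))) (K a66 (M a129 (F (T t112 (L l9 (L l334 (T t1140 (T t1141 N))))))) N)))))))))) N)))))))))))))))))))))⟩
def e0_63__192_44 : Ent 4 := ⟨[a0, a63], [a192, a139], (M a48 (F (T t48 (L l339 (T t1 (L l339 (T t2 (L l339 (T t3 (L l339 (T t0 (K a16 (M a60 (F (T t138 (L l14 (L l18 (L l309 (L l331 (T t67 (T t65 N))))))))) (K a32 (M a60 (F (T t138 (L l309 (L l331 (T t67 (L l24 (L l28 (T t65 N))))))))) (K a21 (M a255 (F (T t1259 (L l268 (T t1160 (L l47 (L l236 (T t548 N)))))))) (K a37 (M a52 (F (T t555 (L l334 (T t82 (L l21 (L l28 (T t84 N)))))))) (K a53 (M a12 (F (T t145 (L l47 (L l489 (T t122 (L l47 (T t146 N)))))))) (K a26 (M a56 (F (T t556 (L l334 (T t133 (L l12 (L l18 (T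 t135 N)))))))) (K a42 (M a255 (F (T t8682 (L l54 (L l268 (T t1160 (L l28 (L l236 (L l390 (T t548 N)))))))))) (K a58 (M a12 (F (T t145 (L l489 (T t122 (T t146 N)))))) (K a15 (M a4 (L l339 (F (T t129 (L l63 (L l514 (T t528 (T t520 (K a133 (M a74 (F (T t558 (L l73 (L l489 (T t519 (T t520 N))))))) (K a74 (M a133 (F (T t558 (L l73 (L l489 (T t519 (T t520 N))))))) N)))))))))) N))))))))))))))))))))⟩
def e0_63__192_45 : Ent 4 := ⟨[a0, a63], [a192, a143], (M a12 (F (T t150 (L l489 (T t122 (L l489 (T t151 (L l489 (T t152 (L l489 (T t153 (K a4 (M a60 (F (T t570 (L l46 (L l50 (L l309 (T t67 (T t448 N)))))))) (K a8 (M a60 (F (T t570 (L l309 (T t67 (L l52 (L l56 (T t448 N)))))))) (K a21 (M a255 (F (T t2126 (L l232 (T t2034 (L l15 (L l272 (T t2032 N)))))))) (K a25 (M a48 (F (T t865 (L l15 (L l325 (L l339 (T t1 (L l12 (L l56 (T t866 N)))))))))) (K a29 (M a48 (F (T t145 (L l15 (L l325 (L l339 (T t1 (T t866 N)))))))) (K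 a38 (M a48 (F (T t867 (L l26 (L l325 (L l339 (T t2 (L l21 (L l50 (T t868 N)))))))))) (K a42 (M a255 (F (T t2033 (L l26 (L l232 (T t2034 (L l56 (L l272 (L l390 (T t2032 N)))))))))) (K a46 (M a48 (F (T t867 (L l325 (L l339 (T t1 (L l26 (T t866 N)))))))) (K a51 (M a16 (L l489 (F (T t112 (L l39 (L l514 (T t871 (T t872 (K a145 (M a98 (F (T t112 (L l39 (L l514 (T t871 (T t872 N))))))) (K a98 (M a145 (F (T t112 (L l39 (L l514 (T t871 (T t872 N))))))) N)))))))))) N))))))))))))))))))))⟩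
def e0_63__192_46 : Ent 4 := ⟨[a0, a63], [a192, a149], (M a48 (F (T t132 (L l339 (L l347 (L l491 (T t1 (L l339 (T t2 (L l339 (L l347 (T t3 (L l339 (L l375 (T t0 (K a16 (M a60 (F (T t138 (L l14 (L l18 (L l309 (L l347 (T t67 (L l351 (T t65 N)))))))))) (K a32 (M a60 (F (T t138 (L l309 (L l347 (T t67 (L l24 (L l28 (L l351 (T t65 N)))))))))) (K a21 (M a60 (L l347 (F (T t138 (L l334 (T t248 (L l11 (L l18 (L l47 (L l65 (L l334 (L l491 (L l515 (T t288 (L l50 (L l334 (T t1300 (K a85 (M a213 (F (T t138 (L l11 (L l334 (L l350 (T t489 (L l11 (L l18 (L l47 (L l65 (L l334 (L l350 (L l368 (L l491 (L l515 (T t288 (L l50 (L l334 (L l458 (T t1300 N))))))))))))))))))))) (K a213 (M a85 (L l296 (F (T t138 (L l236 (L l246 (T t1699 (K a234 (Fr a255 a170 l476 (V t8696)) (K a255 (M a234 (F (T t138 (L l239 (L l246 (L l289 (L l295 (T t8376 N)))))))) N))))))))) N))))))))))))))))))) (K a37 (M a52 (F (L l334 (T t82 (L l489 (L l495 (T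 t83 (L l21 (L l28 (T t84 N)))))))))) (K a53 (M a12 (L l491 (F (T t1252 (L l514 (T t443 (L l47 (L l347 (L l371 (T t146 (K a197 (M a101 (L l236 (F (L l272 (T t5368 (L l31 (L l489 (L l495 (T t153 (K a202 (Fr a207 a154 l512 (V t8697)) (K a207 (M a202 (F (T t1252 (L l289 (L l301 (T t8698 N)))))) N))))))))))) (K a101 (M a197 (F (T t1252 (L l514 (T t445 (L l47 (L l347 (L l371 (T t146 N))))))))) N)))))))))))) (K a26 (M a56 (F (L l334 (T t133 (L l489 (L l491 (T t134 (L l12 (L l18 (L l347 (L l491 (T t135 N)))))))))))) (K a42 (M a255 (F (L l268 (T t546 (L l236 (L l347 (T t547 (L l28 (L l220 (L l236 (L l390 (L l491 (T t548 N))))))))))))) (K a58 (M a12 (F (T t145 (L l347 (L l371 (L l489 (T t122 (L l347 (L l371 (T t146 N)))))))))) (K a15 (M a52 (L l339 (F (T t491 (L l3 (L l334 (T t82 (T t84 (K a133 (M a74 (L l199 (F (T t491 (L l3 (L l334 (T t82 (T t84 (K a165 (M a181 (L l483 (F (T t4776 (L l220 (L l455 (T t8699 (K a240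 (M a90 (L l268 (F (T t1429 (L l160 (L l170 (L l227 (L l491 (T t8700 (K a208 (M a224 (F (T t4776 (L l160 (L l170 (L l227 (L l491 (T t8700 N)))))))) (K a224 (M a208 (L l411 (F (L l376 (T t1429 (L l160 (L l170 (L l227 (L l491 (T t8700 (K a106 (M a47 (F (T t5914 (L l73 (L l417 (L l489 (L l495 (L l498 (T t83 N))))))))) (K a47 (Fr a106 a122 l130 (V t82)) N)))))))))))) N))))))))))) (K a90 (Fr a240 a122 l447 (V t8701)) N))))))))) (K a181 (M a165 (F (T t491 (L l3 (L l334 (T t82 (T t84 N))))))) N)))))))))) (K a74 (M a133 (F (T t491 (L l3 (L l334 (T t82 (T t84 N))))))) N)))))))))) N))))))))))))))))))))))))⟩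
def e0_63__192_47 : Ent 4 := ⟨[a0, a63], [a192, a150], (M a48 (F (T t48 (L l339 (T t1 (L l339 (T t2 (L l339 (T t3 (L l339 (T t0 (K a16 (M a60 (F (L l309 (T t43 (L l489 (T t64 (T t65 N))))))) (K a32 (M a60 (F (L l489 (T t64 (L l309 (L l350 (T t67 (L l24 (L l28 (T t65 N)))))))))) (K a21 (M a255 (F (T t554 (L l236 (L l347 (L l350 (T t547 (L l47 (L l218 (L l236 (T t548 N))))))))))) (K a37 (M a52 (F (L l334 (T t82 (L l489 (T t83 (L l21 (L l28 (L l350 (L l492 (T t84 N))))))))))) (K a53 (M a12 (F (T t145 (L l47 (L l489 (T t122 (L l47 (T t146 N)))))))) (K a26 (M a56 (F (L l494 (T t556 (L l334 (L l350 (L l494 (T t133 (L l12 (L l18 (T t135 N))))))))))) (K a42 (M a255 (F (T t557 (L l236 (L l350 (T t547 (L l28 (L l218 (L l236 (L l390 (T t548 N))))))))))) (K a58 (M a12 (F (T t145 (L l489 (T t122 (T t146 N)))))) (K a15 (M a4 (L l339 (F (T t129 (L l63 (L l494 (L l514 (L l518 (T t528 (L l492 (T t520 (K a133 (M a74 (F (T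 t518 (L l73 (L l489 (T t519 (L l492 (T t520 N)))))))) (K a74 (M a133 (F (T t518 (L l73 (L l489 (T t519 (L l492 (T t520 N)))))))) N))))))))))))) N))))))))))))))))))))⟩
def e0_63__192_48 : Ent 4 := ⟨[a0, a63], [a192, a151], (M a48 (F (T t48 (L l339 (T t1 (L l339 (T t2 (L l339 (T t3 (L l339 (L l373 (T t0 (K a16 (M a60 (F (T t138 (L l14 (L l18 (L l309 (T t67 (L l349 (T t65 N))))))))) (K a32 (M a60 (F (T t138 (L l309 (T t67 (L l24 (L l28 (L l349 (T t65 N))))))))) (K a21 (M a255 (F (T t1259 (L l268 (T t1160 (L l47 (L l236 (T t548 N)))))))) (K a37 (M a52 (F (L l334 (T t82 (L l489 (L l493 (T t83 (L l21 (L l28 (T t84 N)))))))))) (K a53 (M a12 (F (T t145 (L l47 (L l489 (T t122 (L l47 (T t146 N)))))))) (K a26 (M a56 (F (T t556 (L l334 (T t133 (L l12 (L l18 (T t135 N)))))))) (K a42 (M a255 (F (T t1260 (L l54 (L l268 (T t1160 (L l28 (L l236 (L l390 (T t548 N)))))))))) (K a58 (M a12 (F (T t145 (L l489 (T t122 (T t146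 N)))))) (K a15 (M a4 (L l339 (F (T t129 (L l63 (L l514 (T t528 (T t520 (K a133 (M a74 (F (T t558 (L l73 (L l489 (L l493 (T t519 (T t520 N)))))))) (K a74 (M a133 (F (T t558 (L l73 (L l489 (L l493 (T t519 (T t520 N)))))))) N)))))))))) N)))))))))))))))))))))⟩
def e0_63__192_49 : Ent 4 := ⟨[a0, a63], [a192, a154], (M a12 (F (T t150 (L l489 (T t122 (L l489 (T t151 (L l489 (T t152 (L l489 (T t153 (K a4 (M a60 (F (T t570 (L l46 (L l50 (L l309 (T t67 (T t448 N)))))))) (K a8 (M a60 (F (T t570 (L l309 (T t67 (L l52 (L l56 (T t448 N)))))))) (K a21 (M a255 (F (T t2030 (L l272 (L l347 (L l368 (T t2031 (L l15 (L l206 (L l272 (T t2032 N))))))))))) (K a25 (M a48 (F (L l19 (T t3475 (L l15 (L l339 (T t1 (L l12 (L l56 (L l356 (L l498 (T t866 N)))))))))))) (K a29 (M a48 (F (L l498 (T t132 (L l500 (L l514 (T t550 (L l356 (L l498 (T t866 N)))))))))) (K a38 (M a48 (F (L l356 (L l514 (T t1580 (L l26 (L l339 (L l498 (T t2 (L l21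 (L l50 (T t868 N)))))))))))) (K a42 (M a255 (F (T t2130 (L l272 (L l368 (T t2031 (L l56 (L l206 (L l272 (L l390 (T t2032 N))))))))))) (K a46 (M a48 (F (T t3475 (L l339 (T t1 (L l26 (L l356 (L l498 (T t866 N))))))))) (K a51 (M a16 (L l489 (F (T t2517 (L l73 (L l339 (T t97 (L l354 (L l356 (T t872 (K a145 (M a98 (F (T t2517 (L l73 (L l339 (T t97 (L l354 (L l356 (T t872 N))))))))) (K a98 (M a145 (F (T t2517 (L l73 (L l339 (T t97 (L l354 (L l356 (T t872 N))))))))) N)))))))))))) N))))))))))))))))))))⟩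
def e0_63__192_50 : Ent 4 := ⟨[a0, a63], [a192, a155], (M a48 (F (T t48 (L l339 (T t1 (L l339 (T t2 (L l339 (T t3 (L l339 (T t0 (K a16 (M a60 (F (T t138 (L l14 (L l18 (L l309 (T t67 (T t65 N)))))))) (K a32 (M a60 (F (T t116 (L l489 (L l511 (T t64 (L l24 (L l28 (T t65 N))))))))) (K a21 (M a255 (F (T t3576 (L l268 (T t1160 (L l47 (L l236 (L l367 (T t548 N))))))))) (K a37 (M a52 (F (T t555 (L l334 (T t82 (L l21 (L l28 (T t84 N)))))))) (K a53 (M a12 (F (T t145 (L l47 (L l489 (L l511 (T t122 (L l47 (T t146 N))))))))) (K a26 (M a56 (F (L l334 (T t133 (L l489 (L l499 (L l511 (T t134 (L l12 (L l18 (T t135 N))))))))))) (K a42 (M a255 (F (T t1260 (L l54 (L l268 (T t1160 (L l28 (L l236 (L l367 (L l390 (T t548 N))))))))))) (K a58 (M a12 (F (T t145 (L l489 (L l511 (T t122 (T t146 N))))))) (K a15 (M a4 (L l339 (F (T t129 (L l63 (L l514 (T t528 (T t520 (K a133 (M a74 (F (T t558 (L l73 (L l489 (L l511 (T t519 (T t520 N))))))))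 (K a74 (M a133 (F (T t558 (L l73 (L l489 (L l511 (T t519 (T t520 N)))))))) N)))))))))) N))))))))))))))))))))⟩
def e0_63__192_51 : Ent 4 := ⟨[a0, a63], [a192, a159], (M a48 (F (T t48 (L l339 (T t1 (L l339 (T t2 (L l339 (T t3 (L l339 (L l361 (T t0 (K a16 (M a60 (F (T t138 (L l14 (L l18 (L l309 (T t67 (T t65 N)))))))) (K a32 (M a60 (F (T t138 (L l309 (T t67 (L l24 (L l28 (T t65 N)))))))) (K a21 (M a255 (F (T t3576 (L l268 (T t1160 (L l47 (L l236 (L l361 (T t548 N))))))))) (K a37 (M a52 (F (T t555 (L l334 (T t82 (L l21 (L l28 (T t84 N)))))))) (K a53 (M a12 (F (T t145 (L l47 (L l489 (T t122 (L l47 (T t146 N)))))))) (K a26 (M a56 (F (T t556 (L l334 (T t133 (L l12 (L l18 (T t135 N)))))))) (K a42 (M a255 (F (T t1260 (L l54 (L l268 (T t1160 (L l28 (L l236 (L l361 (L l390 (T t548 N))))))))))) (K a58 (M a12 (F (T t145 (L l489 (T t122 (T t146 N)))))) (K a15 (M a4 (L l339 (F (T t129 (L l63 (L l514 (T t528 (T t520 (K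 a133 (M a74 (F (T t558 (L l73 (L l489 (T t519 (T t520 N))))))) (K a74 (M a133 (F (T t558 (L l73 (L l489 (T t519 (T t520 N))))))) N)))))))))) N)))))))))))))))))))))⟩
def e0_63__192_52 : Ent 4 := ⟨[a0, a63], [a192, a170], (M a48 (F (T t607 (L l339 (L l462 (T t1 (L l339 (L l390 (T t2 (L l339 (T t3 (L l339 (L l390 (L l404 (T t0 (K a16 (M a60 (F (T t138 (L l14 (L l18 (L l309 (T t67 (L l390 (L l392 (T t65 N)))))))))) (K a32 (M a60 (L l404 (F (T t116 (L l489 (T t64 (L l24 (L l28 (L l390 (L l392 (T t65 (K a101 (M a239 (F (T t277 (L l28 (L l309 (L l390 (T t69 (L l24 (L l28 (L l390 (L l392 (T t65 N)))))))))))) (K a239 (M a101 (F (T t116 (L l206 (L l228 (L l380 (T t8702 N))))))) N))))))))))))) (K a21 (M a60 (F (T t138 (L l334 (L l392 (L l404 (T t248 (L l11 (L l18 (L l47 (L l65 (L l334 (L l464 (T t8385 (L l50 (L l334 (L l392 (L l404 (T t250 N))))))))))))))))))) (K a37 (M a52 (F (T t555 (L l334 (L l392 (T t82 (L l21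 (L l28 (L l390 (T t84 N)))))))))) (K a53 (M a12 (F (L l514 (T t550 (L l47 (L l402 (L l489 (T t122 (L l47 (L l402 (T t146 N))))))))))) (K a26 (M a56 (F (T t556 (L l334 (L l464 (T t133 (L l12 (L l18 (L l392 (T t135 N)))))))))) (K a42 (M a60 (L l390 (F (T t3520 (L l489 (T t64 (L l56 (L l334 (L l464 (T t8385 (L l22 (L l28 (L l54 (L l66 (L l334 (L l392 (L l404 (T t250 (K a106 (M a234 (F (T t3520 (L l54 (L l489 (L l498 (T t451 (L l56 (L l334 (L l464 (T t8375 (L l22 (L l28 (L l54 (L l66 (L l334 (L l392 (L l404 (L l498 (L l516 (T t250 N))))))))))))))))))))) (K a234 (M a106 (L l296 (F (T t3520 (L l228 (L l236 (L l282 (L l294 (T t8363 (K a213 (M a255 (F (T t1640 (L l56 (L l334 (L l464 (T t489 N))))))) (K a255 (M a213 (F (T t3520 (L l228 (L l236 (L l282 (L l294 (T t8363 N)))))))) N))))))))))) N)))))))))))))))))))) (K a58 (M a12 (F (L l514 (T t445 (L l402 (L l489 (T t122 (L l402 (T t146 N))))))))) (K a15 (M a4 (L l339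 (F (L l464 (T t518 (L l73 (L l390 (L l464 (L l489 (T t519 (L l390 (T t520 (K a133 (M a74 (F (L l464 (T t558 (L l73 (L l390 (L l464 (L l489 (T t519 (L l390 (T t520 N))))))))))) (K a74 (M a133 (F (L l464 (T t558 (L l73 (L l390 (L l464 (L l489 (T t519 (L l390 (T t520 N))))))))))) N)))))))))))))) N))))))))))))))))))))))))⟩
def e0_63__192_53 : Ent 4 := ⟨[a0, a63], [a192, a171], (M a48 (F (T t48 (L l339 (T t1 (L l339 (T t2 (L l339 (T t3 (L l339 (T t0 (K a16 (M a60 (F (T t138 (L l14 (L l18 (L l309 (L l391 (L l475 (T t67 (T t65 N)))))))))) (K a32 (M a60 (F (T t138 (L l309 (L l391 (L l475 (T t67 (L l24 (L l28 (T t65 N)))))))))) (K a21 (M a255 (F (L l268 (T t546 (L l236 (L l347 (T t547 (L l47 (L l174 (L l236 (T t548 N))))))))))) (K a37 (M a52 (F (T t555 (L l334 (T t82 (L l21 (L l28 (T t84 N)))))))) (K a53 (M a12 (F (T t145 (L l47 (L l489 (T t122 (L l47 (T t146 N)))))))) (K a26 (M a56 (F (T t556 (L l334 (T t133 (L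 l12 (L l18 (T t135 N)))))))) (K a42 (M a255 (F (T t1260 (L l54 (L l268 (T t1160 (L l28 (L l174 (L l236 (L l390 (T t548 N))))))))))) (K a58 (M a12 (F (T t145 (L l489 (T t122 (T t146 N)))))) (K a15 (M a4 (L l339 (F (T t129 (L l63 (L l514 (T t528 (T t520 (K a133 (M a74 (F (T t558 (L l73 (L l489 (T t519 (T t520 N))))))) (K a74 (M a133 (F (T t558 (L l73 (L l489 (T t519 (T t520 N))))))) N)))))))))) N))))))))))))))))))))⟩
def e0_63__192_54 : Ent 4 := ⟨[a0, a63], [a192, a175], (M a48 (F (T t48 (L l339 (L l469 (T t1 (L l339 (L l469 (T t2 (L l339 (L l397 (L l469 (T t3 (L l339 (L l469 (T t0 (K a16 (M a60 (F (T t138 (L l14 (L l18 (L l309 (T t67 (T t65 N)))))))) (K a32 (M a60 (F (T t138 (L l309 (T t67 (L l24 (L l28 (T t65 N)))))))) (K a21 (M a255 (F (L l268 (T t546 (L l236 (L l347 (T t547 (L l47 (L l180 (L l236 (T t548 N))))))))))) (K a37 (M a52 (F (T t555 (L l334 (T t82 (L l21 (L l28 (T t84 N)))))))) (K a53 (M a12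 (F (T t145 (L l47 (L l489 (T t122 (L l47 (T t146 N)))))))) (K a26 (M a56 (F (T t556 (L l334 (T t133 (L l12 (L l18 (T t135 N)))))))) (K a42 (M a255 (F (T t1260 (L l54 (L l268 (T t1160 (L l28 (L l180 (L l236 (L l390 (T t548 N))))))))))) (K a58 (M a12 (F (T t145 (L l489 (T t122 (T t146 N)))))) (K a15 (M a255 (L l339 (F (T t1260 (L l268 (L l483 (T t1160 (L l180 (L l236 (T t548 (K a133 (M a74 (F (T t557 (L l180 (L l236 (L l311 (L l325 (T t1162 (L l180 (L l236 (T t548 N))))))))))) (K a74 (M a133 (F (T t557 (L l84 (L l180 (L l236 (L l325 (T t1162 (L l180 (L l236 (L l318 (T t548 N)))))))))))) N)))))))))))) N)))))))))))))))))))))))))⟩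
def e0_63__192_55 : Ent 4 := ⟨[a0, a63], [a192, a191], (M a48 (F (T t48 (L l339 (T t1 (L l339 (T t2 (L l339 (T t3 (L l339 (T t0 (K a16 (M a60 (F (T t138 (L l14 (L l18 (L l309 (T t67 (T t65 N)))))))) (K a32 (M a60 (F (T t138 (L l309 (T t67 (L l24 (L l28 (T t65 N)))))))) (K a21 (M a60 (F (T t1543 (L l47 (L l65 (L l489 (T t64 (L l11 (L l18 (L l47 (L l65 (L l334 (T t288 (L l50 (L l334 (T t250 N)))))))))))))))) (K a37 (M a52 (F (T t555 (L l334 (T t82 (L l21 (L l28 (T t84 N)))))))) (K a53 (M a12 (F (T t145 (L l47 (L l489 (T t122 (L l47 (T t146 N)))))))) (K a26 (M a56 (F (T t556 (L l334 (T t133 (L l12 (L l18 (T t135 N)))))))) (K a42 (M a60 (F (T t3520 (L l489 (T t64 (L l56 (L l334 (T t288 (L l22 (L l28 (L l54 (L l66 (L l334 (T t250 N)))))))))))))) (K a58 (M a12 (F (T t145 (L l489 (T t122 (T t146 N)))))) (K a15 (M a4 (L l339 (F (T t129 (L l63 (L l514 (T t528 (T t520 (K a133 (M a74 (F (T t558 (L l73 (L l489 (T t519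 (T t520 N))))))) (K a74 (M a133 (F (T t558 (L l73 (L l489 (T t519 (T t520 N))))))) N)))))))))) N))))))))))))))))))))⟩
def e0_63__192_56 : Ent 4 := ⟨[a0, a63], [a192, a193], (M a60 (L l228 (F (T t522 (L l309 (T t67 (L l309 (T t43 (L l309 (L l515 (T t68 (L l305 (L l309 (T t69 (K a20 (M a48 (L l228 (F (T t132 (L l489 (L l515 (T t64 (L l11 (L l515 (T t235 (K a194 (M a195 (F (T t610 (L l46 (L l236 (L l350 (L l516 (T t4928 N)))))))) (K a195 (M a194 (F (T t277 (L l337 (L l339 (T t2 (L l11 (L l515 (T t235 N))))))))) N)))))))))))) (K a40 (M a48 (L l228 (F (T t48 (L l489 (L l515 (T t64 (L l52 (L l515 (T t235 (K a194 (M a195 (F (T t607 (L l236 (L l516 (T t4928 N)))))) (K a195 (M a194 (F (T t607 (L l52 (L l487 (L l489 (T t451 (L l52 (L l515 (T t235 N)))))))))) N)))))))))))) (K a21 (M a255 (L l228 (F (T t4929 (L l292 (T t1565 (L l65 (L l515 (T t4930 (K a194 (M a195 (F (T t8703 (L l292 (T t1633 N))))) (K a195 (M a194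 (F (T t1639 (T t4933 (L l65 (L l347 (L l515 (T t4934 (L l347 (T t4935 N)))))))))) N))))))))))) (K a41 (M a32 (L l228 (F (T t1568 (L l65 (L l339 (T t219 (L l25 (L l65 (T t1569 (K a194 (M a195 (F (T t1568 (L l25 (L l65 (L l485 (T t4936 N))))))) (K a195 (M a194 (F (T t1568 (L l65 (L l337 (L l339 (T t219 (L l25 (L l65 (T t1569 N)))))))))) N)))))))))))) (K a61 (M a48 (L l228 (L l515 (F (T t1308 (L l35 (L l65 (L l339 (T t1 (T t65 (K a149 (M a105 (L l228 (F (T t132 (L l296 (L l431 (T t1129 (K a194 (Fr a195 a150 l518 (V t1153)) (K a195 (M a194 (F (T t132 (L l235 (L l295 (T t4938 N)))))) N))))))))) (K a105 (M a149 (L l228 (F (T t1308 (L l233 (L l236 (L l293 (L l296 (T t6 (K a194 (M a195 (F (T t610 (L l98 (L l141 (L l305 (T t1115 N))))))) (K a195 (M a194 (F (T t1308 (L l233 (L l236 (L l293 (L l296 (T t6 N)))))))) N))))))))))) (K a194 (M a195 (L l515 (F (T t132 (L l296 (L l516 (T t4394 (K a149 (Fr a105 a150 l518 (V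 t1153)) (K a105 (M a149 (F (T t610 (L l98 (L l141 (L l305 (T t1115 N))))))) N))))))))) (K a195 (M a194 (L l515 (F (T t610 (L l334 (L l338 (T t489 (T t65 (K a149 (M a105 (F (T t132 (L l235 (L l295 (T t4938 N)))))) (K a105 (M a149 (F (T t1308 (L l233 (L l236 (L l293 (L l296 (T t6 N)))))))) N)))))))))) N)))))))))))))) (K a22 (M a16 (L l228 (F (T t2447 (L l66 (L l339 (T t97 (L l16 (L l66 (T t1141 (K a194 (M a195 (F (T t2447 (L l16 (L l66 (L l486 (T t4939 N))))))) (K a195 (M a194 (F (T t2447 (L l66 (L l337 (L l339 (T t97 (L l16 (L l66 (T t1141 N)))))))))) N)))))))))))) (K a42 (M a255 (L l228 (F (T t4940 (L l292 (T t1565 (L l22 (L l390 (L l515 (T t4930 (K a194 (M a195 (F (T t8704 (L l292 (T t1633 N))))) (K a195 (M a194 (F (L l66 (T t1639 (L l22 (L l390 (L l515 (T t4942 (L l66 (L l390 (T t4933 (L l515 (T t4943 N))))))))))))) N)))))))))))) (K a62 (M a16 (L l228 (F (T t2447 (L l66 (L l339 (T t97 (L l66 (T t1141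 (K a194 (M a195 (L l516 (F (T t1574 (L l66 (L l486 (T t4939 (K a150 (M a106 (F (T t2447 (L l163 (L l218 (L l294 (L l296 (L l306 (T t4944 N))))))))) (K a106 (Fr a150 a105 l518 (V t8705)) N))))))))) (K a195 (M a194 (F (T t1574 (L l66 (L l337 (L l339 (T t97 (L l66 (T t1141 N))))))))) N))))))))))) (K a3 (M a16 (L l228 (L l309 (F (T t112 (L l9 (L l334 (T t1140 (T t1141 (K a129 (M a66 (L l228 (L l305 (F (T t112 (L l9 (L l334 (T t1140 (T t1141 (K a1 (M a65 (L l228 (F (T t504 (L l152 (L l296 (L l475 (T t686 (K a194 (Fr a195 a130 l308 (V t4946)) (K a195 (M a194 (L l307 (F (T t2447 (L l65 (L l152 (L l515 (T t4947 (K a67 (M a131 (F (T t1574 (L l65 (L l515 (T t4947 N)))))) (K a131 (Fr a67 a64 l76 (V t97)) N)))))))))) N)))))))))) (K a65 (M a1 (L l228 (F (T t4948 (L l9 (L l334 (T t1140 (K a194 (M a195 (F (T t4948 (L l9 (L l334 (T t1140 N)))))) (K a195 (M a194 (L l307 (F (T t4949 (L l9 (L l334 (L l338 (T t1140 (K a67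 (M a131 (F (T t4949 (L l9 (L l334 (L l338 (T t1140 N))))))) (K a131 (M a67 (L l152 (F (T t4949 (L l9 (L l334 (L l338 (T t1140 (K a128 (Fr a130 a2 l306 (V t4949)) (K a130 (M a128 (F (T t4949 (L l9 (L l334 (L l338 (T t1140 N))))))) N)))))))))) N)))))))))) N))))))))) (K a194 (M a195 (L l305 (F (T t112 (L l296 (L l475 (L l515 (T t4396 (K a1 (Fr a65 a130 l308 (V t4946)) (K a65 (M a1 (F (T t4948 (L l9 (L l334 (T t1140 N)))))) N)))))))))) (K a195 (M a194 (L l305 (L l307 (F (T t1574 (L l152 (L l515 (T t4947 (K a1 (M a65 (L l307 (F (T t2447 (L l65 (L l152 (L l515 (T t4947 (K a67 (M a131 (F (T t1574 (L l65 (L l515 (T t4947 N)))))) (K a131 (Fr a67 a64 l76 (V t97)) N)))))))))) (K a65 (M a1 (L l307 (F (T t4949 (L l9 (L l334 (L l338 (T t1140 (K a67 (M a131 (F (T t4949 (L l9 (L l334 (L l338 (T t1140 N))))))) (K a131 (M a67 (L l152 (F (T t4949 (L l9 (L l334 (L l338 (T t1140 (K a128 (Fr a130 a2 l306 (V t4949)) (K a130 (M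 a128 (F (T t4949 (L l9 (L l334 (L l338 (T t1140 N))))))) N)))))))))) N)))))))))) (K a67 (M a131 (L l305 (F (T t2447 (L l515 (T t4947 (K a1 (M a65 (F (T t1574 (L l65 (L l515 (T t4947 N)))))) (K a65 (M a1 (F (T t4949 (L l9 (L l334 (L l338 (T t1140 N))))))) N)))))))) (K a131 (M a67 (L l152 (L l305 (F (T t112 (L l9 (L l334 (L l338 (T t1140 (T t1141 (K a128 (Fr a130 a2 l306 (V t1140)) (K a1 (Fr a65 a64 l76 (V t97)) (K a65 (M a1 (L l152 (F (T t4949 (L l9 (L l334 (L l338 (T t1140 (K a128 (Fr a130 a2 l306 (V t4949)) (K a130 (M a128 (F (T t4949 (L l9 (L l334 (L l338 (T t1140 N))))))) N)))))))))) (K a130 (M a128 (L l305 (F (T t1574 (L l7 (L l337 (L l339 (T t97 (T t1141 (K a1 (Fr a65 a64 l76 (V t97)) (K a65 (M a1 (F (T t4949 (L l9 (L l334 (L l338 (T t1140 N))))))) N))))))))))) N)))))))))))))) N)))))))))))) N))))))))))))) (K a66 (M a129 (L l228 (F (T t112 (L l9 (L l334 (T t1140 (T t1141 (K a194 (M a195 (L l306 (F (T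 t112 (L l296 (L l475 (L l515 (T t4396 (K a2 (Fr a130 a65 l308 (V t4950)) (K a130 (M a2 (F (T t4951 (L l9 (L l334 (T t1140 N)))))) N)))))))))) (K a195 (M a194 (L l307 (F (T t1574 (L l7 (L l337 (L l339 (T t97 (T t1141 (K a67 (M a131 (L l76 (F (T t112 (L l9 (L l334 (L l338 (T t1140 (T t1141 (K a64 (M a65 (F (T t112 (L l9 (L l334 (L l338 (T t1140 (T t1141 N)))))))) (K a65 (M a64 (F (T t1574 (L l7 (L l337 (L l339 (T t97 (T t1141 N)))))))) N))))))))))) (K a131 (M a67 (F (T t1574 (L l7 (L l337 (L l339 (T t97 (T t1141 N)))))))) N))))))))))) N)))))))))) (K a194 (M a195 (L l309 (F (T t1574 (L l486 (T t4939 (K a129 (M a66 (L l305 (F (T t112 (L l296 (L l475 (L l515 (T t4396 (K a1 (Fr a65 a130 l308 (V t4946)) (K a65 (M a1 (F (T t4948 (L l9 (L l334 (T t1140 N)))))) N)))))))))) (K a66 (M a129 (L l306 (F (T t112 (L l296 (L l475 (L l515 (T t4396 (K a2 (Fr a130 a65 l308 (V t4950)) (K a130 (M a2 (F (T t4951 (L l9 (L l334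 (T t1140 N)))))) N)))))))))) N)))))))) (K a195 (M a194 (L l307 (L l309 (F (T t1574 (L l7 (L l337 (L l339 (T t97 (T t1141 (K a129 (M a66 (L l305 (L l307 (F (T t1574 (L l152 (L l515 (T t4947 (K a1 (M a65 (L l307 (F (T t2447 (L l65 (L l152 (L l515 (T t4947 (K a67 (M a131 (F (T t1574 (L l65 (L l515 (T t4947 N)))))) (K a131 (Fr a67 a64 l76 (V t97)) N)))))))))) (K a65 (M a1 (L l307 (F (T t4949 (L l9 (L l334 (L l338 (T t1140 (K a67 (M a131 (F (T t4949 (L l9 (L l334 (L l338 (T t1140 N))))))) (K a131 (M a67 (L l152 (F (T t4949 (L l9 (L l334 (L l338 (T t1140 (K a128 (Fr a130 a2 l306 (V t4949)) (K a130 (M a128 (F (T t4949 (L l9 (L l334 (L l338 (T t1140 N))))))) N)))))))))) N)))))))))) (K a67 (M a131 (L l305 (F (T t2447 (L l515 (T t4947 (K a1 (M a65 (F (T t1574 (L l65 (L l515 (T t4947 N)))))) (K a65 (M a1 (F (T t4949 (L l9 (L l334 (L l338 (T t1140 N))))))) N)))))))) (K a131 (M a67 (L l152 (L l305 (F (T t112 (L l9 (L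 l334 (L l338 (T t1140 (T t1141 (K a128 (Fr a130 a2 l306 (V t1140)) (K a1 (Fr a65 a64 l76 (V t97)) (K a65 (M a1 (L l152 (F (T t4949 (L l9 (L l334 (L l338 (T t1140 (K a128 (Fr a130 a2 l306 (V t4949)) (K a130 (M a128 (F (T t4949 (L l9 (L l334 (L l338 (T t1140 N))))))) N)))))))))) (K a130 (M a128 (L l305 (F (T t1574 (L l7 (L l337 (L l339 (T t97 (T t1141 (K a1 (Fr a65 a64 l76 (V t97)) (K a65 (M a1 (F (T t4949 (L l9 (L l334 (L l338 (T t1140 N))))))) N))))))))))) N)))))))))))))) N)))))))))))) (K a66 (M a129 (L l307 (F (T t1574 (L l7 (L l337 (L l339 (T t97 (T t1141 (K a67 (M a131 (L l76 (F (T t112 (L l9 (L l334 (L l338 (T t1140 (T t1141 (K a64 (M a65 (F (T t112 (L l9 (L l334 (L l338 (T t1140 (T t1141 N)))))))) (K a65 (M a64 (F (T t1574 (L l7 (L l337 (L l339 (T t97 (T t1141 N)))))))) N))))))))))) (K a131 (M a67 (F (T t1574 (L l7 (L l337 (L l339 (T t97 (T t1141 N)))))))) N))))))))))) (K a67 (M a131 (L l309 (F (T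 t1574 (L l7 (L l337 (L l339 (T t97 (T t1141 (K a129 (M a66 (L l305 (F (T t2447 (L l515 (T t4947 (K a1 (M a65 (F (T t1574 (L l65 (L l515 (T t4947 N)))))) (K a65 (M a1 (F (T t4949 (L l9 (L l334 (L l338 (T t1140 N))))))) N)))))))) (K a66 (M a129 (L l76 (F (T t112 (L l9 (L l334 (L l338 (T t1140 (T t1141 (K a64 (M a65 (F (T t112 (L l9 (L l334 (L l338 (T t1140 (T t1141 N)))))))) (K a65 (M a64 (F (T t1574 (L l7 (L l337 (L l339 (T t97 (T t1141 N)))))))) N))))))))))) N))))))))))) (K a131 (M a67 (L l309 (F (T t1574 (L l7 (L l337 (L l339 (T t97 (T t1141 (K a129 (M a66 (L l152 (L l305 (F (T t112 (L l9 (L l334 (L l338 (T t1140 (T t1141 (K a128 (Fr a130 a2 l306 (V t1140)) (K a1 (Fr a65 a64 l76 (V t97)) (K a65 (M a1 (L l152 (F (T t4949 (L l9 (L l334 (L l338 (T t1140 (K a128 (Fr a130 a2 l306 (V t4949)) (K a130 (M a128 (F (T t4949 (L l9 (L l334 (L l338 (T t1140 N))))))) N)))))))))) (K a130 (M a128 (L l305 (F (T t1574 (L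 l7 (L l337 (L l339 (T t97 (T t1141 (K a1 (Fr a65 a64 l76 (V t97)) (K a65 (M a1 (F (T t4949 (L l9 (L l334 (L l338 (T t1140 N))))))) N))))))))))) N)))))))))))))) (K a66 (M a129 (F (T t1574 (L l7 (L l337 (L l339 (T t97 (T t1141 N)))))))) N))))))))))) N)))))))))))))) N))))))))))))) (K a194 (M a195 (F (L l309 (T t43 (L l296 (L l515 (T t4396 (L l294 (L l296 (L l516 (T t4952 (L l293 (L l296 (L l515 (T t4953 N))))))))))))))) (K a195 (M a194 (F (T t522 (L l295 (L l515 (T t4954 (L l296 (L l515 (T t4955 (K a20 (M a58 (F (L l11 (L l14 (T t4956 (L l236 (L l350 (L l515 (T t4957 N))))))))) (K a61 (M a48 (L l515 (F (T t610 (L l334 (L l338 (T t489 (T t65 (K a149 (M a105 (F (T t132 (L l235 (L l295 (T t4938 N)))))) (K a105 (M a149 (F (T t1308 (L l233 (L l236 (L l293 (L l296 (T t6 N)))))))) N)))))))))) (K a42 (M a58 (F (L l334 (L l338 (T t2374 (L l236 (L l515 (T t4957 N)))))))) (K a62 (M a16 (F (T t1574 (L l66 (L l337 (L l339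 (T t97 (L l66 (T t1141 N))))))))) N))))))))))))) N)))))))))))))))))))))))))⟩
def e0_63__192_57 : Ent 4 := ⟨[a0, a63], [a192, a194], (M a60 (L l228 (F (T t116 (L l309 (T t67 (L l309 (T t43 (L l306 (L l309 (T t68 (L l309 (L l516 (T t69 (K a20 (M a48 (L l228 (F (T t610 (L l486 (L l489 (T t64 (L l11 (L l306 (T t235 (K a193 (M a195 (F (T t610 (L l46 (L l236 (L l350 (L l516 (T t4928 N)))))))) (K a195 (M a193 (F (T t132 (L l487 (L l489 (T t451 (L l11 (L l306 (T t235 N))))))))) N)))))))))))) (K a40 (M a48 (L l228 (F (T t246 (L l339 (T t1 (L l52 (L l306 (T t235 (K a193 (M a195 (F (T t607 (L l236 (L l516 (T t4928 N)))))) (K a195 (M a193 (F (T t607 (L l52 (L l487 (L l489 (T t451 (L l52 (L l306 (T t235 N)))))))))) N))))))))))) (K a21 (M a255 (L l228 (F (T t4929 (L l292 (T t1565 (L l11 (L l347 (T t8706 (K a193 (M a195 (F (T t8703 (L l292 (T t1633 N))))) (K a195 (M a193 (F (L l65 (T t1640 (L l11 (L l347 (L l516 (T t8707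 (L l516 (T t8708 (L l65 (L l347 (T t8709 N))))))))))))) N))))))))))) (K a41 (M a57 (L l228 (F (L l516 (T t5184 (L l22 (L l334 (T t4976 (L l22 (L l25 (L l29 (L l516 (T t5185 (K a193 (M a195 (F (T t8710 (L l296 (L l516 (T t4394 N)))))) (K a195 (M a193 (F (L l22 (T t5186 (L l237 (L l516 (T t5187 N))))))) N))))))))))))))) (K a61 (M a16 (L l228 (F (T t112 (L l334 (T t1140 (L l59 (T t1141 (K a193 (M a195 (L l515 (F (T t112 (L l296 (L l516 (T t4394 (K a149 (Fr a105 a150 l518 (V t1144)) (K a105 (M a149 (F (T t112 (L l98 (L l141 (L l305 (T t1115 N))))))) N))))))))) (K a195 (M a193 (F (T t1574 (L l337 (L l339 (T t97 (L l59 (T t1141 N)))))))) N)))))))))) (K a22 (M a16 (L l228 (F (T t2447 (L l66 (L l339 (T t97 (L l16 (L l66 (T t1141 (K a193 (M a195 (F (T t2447 (L l16 (L l66 (L l486 (T t4939 N))))))) (K a195 (M a193 (F (T t2447 (L l66 (L l337 (L l339 (T t97 (L l16 (L l66 (T t1141 N)))))))))) N)))))))))))) (K a42 (M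 a255 (L l228 (F (T t4940 (L l292 (T t1565 (T t8706 (K a193 (M a195 (F (T t8704 (L l292 (T t1633 N))))) (K a195 (M a193 (F (T t1640 (T t8709 (L l66 (L l390 (L l516 (T t8711 (L l390 (T t8712 N)))))))))) N))))))))) (K a62 (M a48 (L l228 (L l516 (F (T t1308 (L l339 (T t1 (L l36 (L l66 (T t65 (K a193 (M a195 (L l516 (F (T t48 (L l296 (L l515 (T t4396 (K a150 (M a106 (F (T t3235 (L l163 (L l168 (L l486 (T t8713 N))))))) (K a106 (Fr a150 a105 l518 (V t8714)) N))))))))) (K a150 (M a106 (L l228 (F (T t3235 (L l234 (L l236 (L l294 (L l296 (T t306 (K a193 (M a195 (F (T t3235 (L l163 (L l168 (L l486 (T t8713 N))))))) (K a195 (M a193 (F (T t3235 (L l234 (L l236 (L l294 (L l296 (T t306 N)))))))) N))))))))))) (K a106 (M a150 (L l228 (F (T t48 (L l296 (L l432 (T t1135 (K a193 (Fr a195 a105 l518 (V t8714)) (K a195 (M a193 (F (T t48 (L l235 (L l295 (T t5194 N)))))) N))))))))) (K a195 (M a193 (L l516 (F (T t607 (L l334 (L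 l338 (T t489 (L l36 (L l66 (T t65 (K a150 (M a106 (F (T t3235 (L l234 (L l236 (L l294 (L l296 (T t306 N)))))))) (K a106 (M a150 (F (T t48 (L l235 (L l295 (T t5194 N)))))) N)))))))))))) N)))))))))))))) (K a3 (M a16 (L l228 (L l309 (F (T t112 (L l9 (L l334 (T t1140 (T t1141 (K a129 (M a66 (L l228 (F (T t112 (L l9 (L l334 (T t1140 (T t1141 (K a193 (M a195 (L l305 (F (T t112 (L l296 (L l475 (L l515 (T t4396 (K a1 (Fr a65 a130 l308 (V t4946)) (K a65 (M a1 (F (T t4948 (L l9 (L l334 (T t1140 N)))))) N)))))))))) (K a195 (M a193 (L l307 (F (T t1574 (L l7 (L l337 (L l339 (T t97 (T t1141 (K a67 (M a131 (F (T t1574 (L l7 (L l337 (L l339 (T t97 (T t1141 N)))))))) (K a131 (M a67 (L l152 (F (T t112 (L l9 (L l334 (L l338 (T t1140 (T t1141 (K a128 (M a130 (F (T t112 (L l9 (L l334 (L l338 (T t1140 (T t1141 N)))))))) (K a130 (M a128 (F (T t1574 (L l7 (L l337 (L l339 (T t97 (T t1141 N)))))))) N))))))))))) N))))))))))) N))))))))))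 (K a193 (M a195 (L l309 (F (T t1574 (L l486 (T t4939 (K a129 (M a66 (L l305 (F (T t112 (L l296 (L l475 (L l515 (T t4396 (K a1 (Fr a65 a130 l308 (V t4946)) (K a65 (M a1 (F (T t4948 (L l9 (L l334 (T t1140 N)))))) N)))))))))) (K a66 (M a129 (L l306 (F (T t112 (L l296 (L l475 (L l515 (T t4396 (K a2 (Fr a130 a65 l308 (V t4950)) (K a130 (M a2 (F (T t4951 (L l9 (L l334 (T t1140 N)))))) N)))))))))) N)))))))) (K a66 (M a129 (L l228 (L l306 (F (T t112 (L l9 (L l334 (T t1140 (T t1141 (K a193 (M a195 (L l306 (F (T t112 (L l296 (L l475 (L l515 (T t4396 (K a2 (Fr a130 a65 l308 (V t4950)) (K a130 (M a2 (F (T t4951 (L l9 (L l334 (T t1140 N)))))) N)))))))))) (K a2 (M a130 (L l228 (F (L l76 (T t8715 (L l7 (L l66 (L l339 (T t97 (K a193 (Fr a195 a65 l308 (V t4950)) (K a195 (M a193 (L l307 (F (T t1574 (L l66 (L l76 (L l516 (T t5205 (K a67 (Fr a131 a128 l152 (V t97)) (K a131 (M a67 (F (T t2447 (L l66 (L l516 (T t5205 N))))))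 N)))))))))) N))))))))))) (K a130 (M a2 (L l228 (F (T t2002 (L l9 (L l334 (T t1140 (K a193 (M a195 (F (T t4951 (L l9 (L l334 (T t1140 N)))))) (K a195 (M a193 (L l307 (F (T t2002 (L l9 (L l334 (L l338 (T t1140 (K a67 (M a131 (L l76 (F (T t4951 (L l9 (L l334 (L l338 (T t1140 (K a64 (Fr a65 a1 l305 (V t4951)) (K a65 (M a64 (F (T t2002 (L l9 (L l334 (L l338 (T t1140 N))))))) N)))))))))) (K a131 (M a67 (F (T t2002 (L l9 (L l334 (L l338 (T t1140 N))))))) N)))))))))) N))))))))) (K a195 (M a193 (L l306 (L l307 (F (T t1574 (L l76 (L l516 (T t5205 (K a2 (M a130 (L l307 (F (T t1574 (L l66 (L l76 (L l516 (T t5205 (K a67 (Fr a131 a128 l152 (V t97)) (K a131 (M a67 (F (T t2447 (L l66 (L l516 (T t5205 N)))))) N)))))))))) (K a130 (M a2 (L l307 (F (T t2002 (L l9 (L l334 (L l338 (T t1140 (K a67 (M a131 (L l76 (F (T t4951 (L l9 (L l334 (L l338 (T t1140 (K a64 (Fr a65 a1 l305 (V t4951)) (K a65 (M a64 (F (T t2002 (L l9 (L l334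 (L l338 (T t1140 N))))))) N)))))))))) (K a131 (M a67 (F (T t2002 (L l9 (L l334 (L l338 (T t1140 N))))))) N)))))))))) (K a67 (M a131 (L l76 (L l306 (F (T t112 (L l9 (L l334 (L l338 (T t1140 (T t1141 (K a64 (Fr a65 a1 l305 (V t1140)) (K a65 (M a64 (L l306 (F (T t1574 (L l7 (L l337 (L l339 (T t97 (T t1141 (K a2 (Fr a130 a128 l152 (V t1140)) (K a130 (M a2 (F (T t2002 (L l9 (L l334 (L l338 (T t1140 N))))))) N))))))))))) (K a2 (Fr a130 a128 l152 (V t97)) (K a130 (M a2 (L l76 (F (T t4951 (L l9 (L l334 (L l338 (T t1140 (K a64 (Fr a65 a1 l305 (V t4951)) (K a65 (M a64 (F (T t2002 (L l9 (L l334 (L l338 (T t1140 N))))))) N)))))))))) N)))))))))))))) (K a131 (M a67 (L l306 (F (T t2447 (L l516 (T t5205 (K a2 (M a130 (F (T t2447 (L l66 (L l516 (T t5205 N)))))) (K a130 (M a2 (F (T t2002 (L l9 (L l334 (L l338 (T t1140 N))))))) N)))))))) N)))))))))))) N))))))))))))) (K a195 (M a193 (L l307 (L l309 (F (T t1574 (L l7 (L l337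 (L l339 (T t97 (T t1141 (K a129 (M a66 (L l307 (F (T t1574 (L l7 (L l337 (L l339 (T t97 (T t1141 (K a67 (M a131 (F (T t1574 (L l7 (L l337 (L l339 (T t97 (T t1141 N)))))))) (K a131 (M a67 (L l152 (F (T t112 (L l9 (L l334 (L l338 (T t1140 (T t1141 (K a128 (M a130 (F (T t112 (L l9 (L l334 (L l338 (T t1140 (T t1141 N)))))))) (K a130 (M a128 (F (T t1574 (L l7 (L l337 (L l339 (T t97 (T t1141 N)))))))) N))))))))))) N))))))))))) (K a66 (M a129 (L l306 (L l307 (F (T t1574 (L l76 (L l516 (T t5205 (K a2 (M a130 (L l307 (F (T t1574 (L l66 (L l76 (L l516 (T t5205 (K a67 (Fr a131 a128 l152 (V t97)) (K a131 (M a67 (F (T t2447 (L l66 (L l516 (T t5205 N)))))) N)))))))))) (K a130 (M a2 (L l307 (F (T t2002 (L l9 (L l334 (L l338 (T t1140 (K a67 (M a131 (L l76 (F (T t4951 (L l9 (L l334 (L l338 (T t1140 (K a64 (Fr a65 a1 l305 (V t4951)) (K a65 (M a64 (F (T t2002 (L l9 (L l334 (L l338 (T t1140 N))))))) N)))))))))) (K a131 (M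 a67 (F (T t2002 (L l9 (L l334 (L l338 (T t1140 N))))))) N)))))))))) (K a67 (M a131 (L l76 (L l306 (F (T t112 (L l9 (L l334 (L l338 (T t1140 (T t1141 (K a64 (Fr a65 a1 l305 (V t1140)) (K a65 (M a64 (L l306 (F (T t1574 (L l7 (L l337 (L l339 (T t97 (T t1141 (K a2 (Fr a130 a128 l152 (V t1140)) (K a130 (M a2 (F (T t2002 (L l9 (L l334 (L l338 (T t1140 N))))))) N))))))))))) (K a2 (Fr a130 a128 l152 (V t97)) (K a130 (M a2 (L l76 (F (T t4951 (L l9 (L l334 (L l338 (T t1140 (K a64 (Fr a65 a1 l305 (V t4951)) (K a65 (M a64 (F (T t2002 (L l9 (L l334 (L l338 (T t1140 N))))))) N)))))))))) N)))))))))))))) (K a131 (M a67 (L l306 (F (T t2447 (L l516 (T t5205 (K a2 (M a130 (F (T t2447 (L l66 (L l516 (T t5205 N)))))) (K a130 (M a2 (F (T t2002 (L l9 (L l334 (L l338 (T t1140 N))))))) N)))))))) N)))))))))))) (K a67 (M a131 (L l309 (F (T t1574 (L l7 (L l337 (L l339 (T t97 (T t1141 (K a129 (M a66 (F (T t1574 (L l7 (L l337 (L l339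 (T t97 (T t1141 N)))))))) (K a66 (M a129 (L l76 (L l306 (F (T t112 (L l9 (L l334 (L l338 (T t1140 (T t1141 (K a64 (Fr a65 a1 l305 (V t1140)) (K a65 (M a64 (L l306 (F (T t1574 (L l7 (L l337 (L l339 (T t97 (T t1141 (K a2 (Fr a130 a128 l152 (V t1140)) (K a130 (M a2 (F (T t2002 (L l9 (L l334 (L l338 (T t1140 N))))))) N))))))))))) (K a2 (Fr a130 a128 l152 (V t97)) (K a130 (M a2 (L l76 (F (T t4951 (L l9 (L l334 (L l338 (T t1140 (K a64 (Fr a65 a1 l305 (V t4951)) (K a65 (M a64 (F (T t2002 (L l9 (L l334 (L l338 (T t1140 N))))))) N)))))))))) N)))))))))))))) N))))))))))) (K a131 (M a67 (L l309 (F (T t1574 (L l7 (L l337 (L l339 (T t97 (T t1141 (K a129 (M a66 (L l152 (F (T t112 (L l9 (L l334 (L l338 (T t1140 (T t1141 (K a128 (M a130 (F (T t112 (L l9 (L l334 (L l338 (T t1140 (T t1141 N)))))))) (K a130 (M a128 (F (T t1574 (L l7 (L l337 (L l339 (T t97 (T t1141 N)))))))) N))))))))))) (K a66 (M a129 (L l306 (F (T t2447 (L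 l516 (T t5205 (K a2 (M a130 (F (T t2447 (L l66 (L l516 (T t5205 N)))))) (K a130 (M a2 (F (T t2002 (L l9 (L l334 (L l338 (T t1140 N))))))) N)))))))) N))))))))))) N)))))))))))))) N))))))))))))) (K a193 (M a195 (F (L l309 (T t43 (L l296 (L l515 (T t4396 (L l294 (L l296 (L l516 (T t4952 (L l293 (L l296 (L l515 (T t4953 N))))))))))))))) (K a195 (M a193 (F (T t116 (L l295 (L l516 (T t5192 (L l296 (L l516 (T t5208 (K a40 (M a53 (F (L l22 (L l24 (T t178 (L l236 (L l392 (L l516 (T t5179 N))))))))) (K a21 (M a53 (F (L l236 (L l516 (T t5179 (L l334 (L l338 (T t76 N)))))))) (K a61 (M a16 (F (T t1574 (L l337 (L l339 (T t97 (L l59 (T t1141 N)))))))) (K a62 (M a48 (L l516 (F (T t607 (L l334 (L l338 (T t489 (L l36 (L l66 (T t65 (K a150 (M a106 (F (T t3235 (L l234 (L l236 (L l294 (L l296 (T t306 N)))))))) (K a106 (M a150 (F (T t48 (L l235 (L l295 (T t5194 N)))))) N)))))))))))) N))))))))))))) N)))))))))))))))))))))))))⟩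
def e0_63__192_58 : Ent 4 := ⟨[a0, a63], [a192, a195], (M a60 (L l228 (F (T t116 (L l307 (L l309 (T t67 (L l307 (L l309 (T t43 (L l307 (L l309 (T t68 (L l307 (L l309 (T t69 (K a20 (M a53 (L l228 (F (T t5176 (L l337 (L l339 (T t982 (T t5177 (K a193 (M a194 (F (T t939 (L l485 (L l487 (L l489 (T t937 (T t5178 N)))))))) (K a194 (M a193 (F (T t178 (L l236 (L l516 (T t5179 N)))))) N)))))))))) (K a40 (M a53 (L l228 (F (T t5176 (L l22 (L l337 (L l339 (T t982 (L l22 (T t5180 (K a193 (M a194 (F (L l485 (T t5176 (L l22 (L l337 (L l339 (T t982 (L l22 (L l305 (L l485 (T t5180 N)))))))))))) (K a194 (M a193 (F (L l22 (L l24 (T t178 (L l236 (L l392 (L l516 (T t5179 N))))))))) N)))))))))))) (K a21 (M a48 (L l228 (F (T t1543 (L l47 (L l65 (L l487 (L l489 (T t64 (L l11 (L l18 (L l47 (L l65 (L l334 (L l338 (T t288 (L l50 (L l334 (L l338 (T t250 (K a193 (M a194 (F (T t1543 (L l485 (L l487 (L l489 (T t70 (L l47 (L l65 (L l236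 (L l515 (T t5181 N)))))))))))) (K a194 (M a193 (F (T t1543 (L l236 (L l516 (T t5182 (L l18 (L l236 (L l347 (L l516 (T t5183 N))))))))))) N)))))))))))))))))))))) (K a41 (M a57 (L l228 (F (T t5184 (L l22 (L l334 (L l338 (T t4976 (L l22 (L l25 (L l29 (T t5185 (K a193 (M a194 (F (L l485 (T t5184 (L l22 (L l65 (L l295 (L l515 (T t4954 (L l22 (L l334 (L l338 (T t4976 N))))))))))))) (K a194 (M a193 (F (L l22 (T t5186 (L l237 (L l516 (T t5187 N))))))) N)))))))))))))) (K a61 (M a48 (L l228 (F (T t1308 (L l35 (L l65 (L l337 (L l339 (T t1 (T t65 (K a193 (M a194 (L l515 (F (T t610 (L l334 (L l338 (T t489 (T t65 (K a149 (M a105 (F (T t132 (L l235 (L l295 (T t4938 N)))))) (K a105 (M a149 (F (T t1308 (L l233 (L l236 (L l293 (L l296 (T t6 N)))))))) N)))))))))) (K a194 (M a193 (F (T t610 (L l334 (L l338 (T t489 (T t65 N))))))) N)))))))))))) (K a22 (M a54 (L l228 (F (T t5188 (L l11 (L l334 (L l338 (T t3771 (L l11 (L l16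 (L l19 (T t3772 (K a193 (M a194 (F (L l11 (T t5189 (L l237 (L l515 (T t5190 N))))))) (K a194 (M a193 (F (L l51 (T t5191 (L l11 (L l66 (L l295 (L l516 (T t5192 (L l11 (L l334 (L l338 (T t3771 N))))))))))))) N)))))))))))))) (K a42 (M a48 (L l228 (F (T t3520 (L l487 (L l489 (T t64 (L l56 (L l334 (L l338 (T t288 (L l22 (L l28 (L l54 (L l66 (L l334 (L l338 (T t250 (K a193 (M a194 (F (T t3520 (L l54 (L l487 (L l489 (T t451 (L l22 (L l28 (L l295 (L l390 (L l515 (T t5193 N))))))))))))) (K a194 (M a193 (F (T t3520 (L l54 (L l66 (L l236 (L l516 (T t5182 (L l54 (L l66 (L l236 (L l516 (T t5183 N))))))))))))) N)))))))))))))))))))) (K a62 (M a48 (L l228 (F (T t48 (L l334 (L l338 (T t247 (L l36 (L l66 (T t65 (K a193 (M a194 (F (T t607 (L l334 (L l338 (T t489 (L l36 (L l66 (T t65 N))))))))) (K a194 (M a193 (L l516 (F (T t607 (L l334 (L l338 (T t489 (L l36 (L l66 (T t65 (K a150 (M a106 (F (T t3235 (L l234 (L l236 (L l294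 (L l296 (T t306 N)))))))) (K a106 (M a150 (F (T t48 (L l235 (L l295 (T t5194 N)))))) N)))))))))))) N)))))))))))) (K a3 (M a53 (L l228 (L l307 (L l309 (F (T t5176 (L l7 (L l337 (L l339 (T t982 (L l9 (T t5178 (K a129 (M a66 (L l228 (L l307 (F (T t5176 (L l7 (L l337 (L l339 (T t982 (L l9 (T t5178 (K a193 (M a194 (L l305 (L l307 (F (T t5195 (L l152 (L l515 (T t4947 (K a1 (M a65 (L l307 (F (T t5196 (L l65 (L l152 (L l515 (T t4947 (K a67 (M a131 (F (T t5196 (L l65 (L l515 (T t4947 N)))))) (K a131 (Fr a67 a64 l76 (V t5176)) N)))))))))) (K a65 (M a1 (L l307 (F (T t4949 (L l9 (L l334 (L l338 (T t1338 (K a67 (M a131 (F (T t4949 (L l9 (L l334 (L l338 (T t1338 N))))))) (K a131 (M a67 (L l152 (F (T t4949 (L l9 (L l334 (L l338 (T t1328 (K a128 (Fr a130 a2 l306 (V t4949)) (K a130 (M a128 (F (T t4949 (L l9 (L l334 (L l338 (T t76 N))))))) N)))))))))) N)))))))))) (K a67 (M a131 (L l305 (F (T t5195 (L l515 (T t4947 (K a1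 (M a65 (F (T t5196 (L l65 (L l515 (T t4947 N)))))) (K a65 (M a1 (F (T t4949 (L l9 (L l334 (L l338 (T t1338 N))))))) N)))))))) (K a131 (M a67 (L l152 (L l305 (F (L l515 (T t5197 (L l9 (L l334 (L l338 (T t1338 (K a128 (Fr a130 a2 l306 (V t8716)) (K a1 (Fr a65 a64 l76 (V t5176)) (K a65 (M a1 (L l152 (F (T t4949 (L l9 (L l334 (L l338 (T t1328 (K a128 (Fr a130 a2 l306 (V t4949)) (K a130 (M a128 (F (T t4949 (L l9 (L l334 (L l338 (T t76 N))))))) N)))))))))) (K a130 (M a128 (L l305 (F (T t178 (L l485 (T t5176 (L l218 (L l221 (L l296 (L l515 (T t5198 (K a1 (Fr a65 a64 l76 (V t8717)) (K a65 (M a1 (F (T t4949 (L l9 (L l334 (L l338 (T t76 N))))))) N))))))))))))) N)))))))))))))) N)))))))))))) (K a194 (M a193 (L l307 (F (T t939 (L l236 (L l516 (T t5179 (K a67 (M a131 (F (T t178 (L l145 (L l236 (L l516 (T t5179 N))))))) (K a131 (M a67 (L l152 (F (T t178 (L l236 (L l516 (T t5179 (K a128 (M a130 (F (T t178 (L l236 (L l516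 (T t5179 N)))))) (K a130 (M a128 (F (T t939 (L l236 (L l516 (T t5179 N)))))) N))))))))) N))))))))) (K a67 (M a131 (L l228 (F (T t5176 (L l7 (L l337 (L l339 (T t982 (L l9 (T t5178 (K a193 (M a194 (L l305 (F (T t5195 (L l515 (T t4947 (K a1 (M a65 (F (T t5196 (L l65 (L l515 (T t4947 N)))))) (K a65 (M a1 (F (T t4949 (L l9 (L l334 (L l338 (T t1338 N))))))) N)))))))) (K a194 (M a193 (F (T t178 (L l145 (L l236 (L l516 (T t5179 N))))))) N)))))))))))) (K a131 (M a67 (L l152 (L l228 (F (T t5176 (L l7 (L l337 (L l339 (T t982 (L l9 (T t5178 (K a128 (M a130 (L l228 (F (T t5199 (L l9 (L l334 (L l338 (T t1338 (K a193 (Fr a194 a2 l306 (V t8716)) (K a194 (M a193 (F (T t178 (L l236 (L l516 (T t5179 N)))))) N)))))))))) (K a193 (M a194 (L l152 (L l305 (F (L l515 (T t5197 (L l9 (L l334 (L l338 (T t1338 (K a128 (Fr a130 a2 l306 (V t8716)) (K a1 (Fr a65 a64 l76 (V t5176)) (K a65 (M a1 (L l152 (F (T t4949 (L l9 (L l334 (L l338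 (T t1328 (K a128 (Fr a130 a2 l306 (V t4949)) (K a130 (M a128 (F (T t4949 (L l9 (L l334 (L l338 (T t76 N))))))) N)))))))))) (K a130 (M a128 (L l305 (F (T t178 (L l485 (T t5176 (L l218 (L l221 (L l296 (L l515 (T t5198 (K a1 (Fr a65 a64 l76 (V t8717)) (K a65 (M a1 (F (T t4949 (L l9 (L l334 (L l338 (T t76 N))))))) N))))))))))))) N)))))))))))))) (K a130 (M a128 (L l228 (F (T t5176 (L l7 (L l337 (L l339 (T t982 (L l9 (T t5178 (K a193 (M a194 (L l305 (F (T t178 (L l485 (T t5176 (L l218 (L l221 (L l296 (L l515 (T t5198 (K a1 (Fr a65 a64 l76 (V t8717)) (K a65 (M a1 (F (T t4949 (L l9 (L l334 (L l338 (T t76 N))))))) N))))))))))))) (K a194 (M a193 (F (T t939 (L l236 (L l516 (T t5179 N)))))) N)))))))))))) (K a194 (M a193 (L l152 (F (T t178 (L l236 (L l516 (T t5179 (K a128 (M a130 (F (T t178 (L l236 (L l516 (T t5179 N)))))) (K a130 (M a128 (F (T t939 (L l236 (L l516 (T t5179 N)))))) N))))))))) N))))))))))))))) N)))))))))))))))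 (K a193 (M a194 (L l307 (L l309 (F (T t939 (L l43 (L l485 (L l487 (L l489 (T t937 (L l9 (T t5178 (K a129 (M a66 (L l305 (L l307 (F (T t5195 (L l152 (L l515 (T t4947 (K a1 (M a65 (L l307 (F (T t5196 (L l65 (L l152 (L l515 (T t4947 (K a67 (M a131 (F (T t5196 (L l65 (L l515 (T t4947 N)))))) (K a131 (Fr a67 a64 l76 (V t5176)) N)))))))))) (K a65 (M a1 (L l307 (F (T t4949 (L l9 (L l334 (L l338 (T t1338 (K a67 (M a131 (F (T t4949 (L l9 (L l334 (L l338 (T t1338 N))))))) (K a131 (M a67 (L l152 (F (T t4949 (L l9 (L l334 (L l338 (T t1328 (K a128 (Fr a130 a2 l306 (V t4949)) (K a130 (M a128 (F (T t4949 (L l9 (L l334 (L l338 (T t76 N))))))) N)))))))))) N)))))))))) (K a67 (M a131 (L l305 (F (T t5195 (L l515 (T t4947 (K a1 (M a65 (F (T t5196 (L l65 (L l515 (T t4947 N)))))) (K a65 (M a1 (F (T t4949 (L l9 (L l334 (L l338 (T t1338 N))))))) N)))))))) (K a131 (M a67 (L l152 (L l305 (F (L l515 (T t5197 (L l9 (L l334 (L l338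 (T t1338 (K a128 (Fr a130 a2 l306 (V t8716)) (K a1 (Fr a65 a64 l76 (V t5176)) (K a65 (M a1 (L l152 (F (T t4949 (L l9 (L l334 (L l338 (T t1328 (K a128 (Fr a130 a2 l306 (V t4949)) (K a130 (M a128 (F (T t4949 (L l9 (L l334 (L l338 (T t76 N))))))) N)))))))))) (K a130 (M a128 (L l305 (F (T t178 (L l485 (T t5176 (L l218 (L l221 (L l296 (L l515 (T t5198 (K a1 (Fr a65 a64 l76 (V t8717)) (K a65 (M a1 (F (T t4949 (L l9 (L l334 (L l338 (T t76 N))))))) N))))))))))))) N)))))))))))))) N)))))))))))) (K a66 (M a129 (L l307 (F (T t939 (L l43 (L l485 (L l487 (L l489 (T t937 (L l9 (T t5178 (K a67 (M a131 (L l76 (F (T t939 (L l142 (L l295 (L l515 (T t5200 (K a64 (M a65 (F (T t5201 (L l7 (L l337 (L l339 (T t982 (L l142 (L l144 (L l295 (L l515 (T t5202 N)))))))))))) (K a65 (M a64 (F (T t5196 (L l143 (L l295 (L l296 (L l475 (L l515 (T t5203 N))))))))) N)))))))))) (K a131 (M a67 (F (T t939 (L l43 (L l485 (L l487 (L l489 (T t937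 (L l9 (T t5178 N)))))))))) N))))))))))))) (K a67 (M a131 (L l309 (F (T t939 (L l43 (L l485 (L l487 (L l489 (T t937 (L l9 (T t5178 (K a129 (M a66 (L l305 (F (T t5195 (L l515 (T t4947 (K a1 (M a65 (F (T t5196 (L l65 (L l515 (T t4947 N)))))) (K a65 (M a1 (F (T t4949 (L l9 (L l334 (L l338 (T t1338 N))))))) N)))))))) (K a66 (M a129 (L l76 (F (T t939 (L l142 (L l295 (L l515 (T t5200 (K a64 (M a65 (F (T t5201 (L l7 (L l337 (L l339 (T t982 (L l142 (L l144 (L l295 (L l515 (T t5202 N)))))))))))) (K a65 (M a64 (F (T t5196 (L l143 (L l295 (L l296 (L l475 (L l515 (T t5203 N))))))))) N)))))))))) N))))))))))))) (K a131 (M a67 (L l309 (F (T t939 (L l43 (L l485 (L l487 (L l489 (T t937 (L l9 (T t5178 (K a129 (M a66 (L l152 (L l305 (F (L l515 (T t5197 (L l9 (L l334 (L l338 (T t1338 (K a128 (Fr a130 a2 l306 (V t8716)) (K a1 (Fr a65 a64 l76 (V t5176)) (K a65 (M a1 (L l152 (F (T t4949 (L l9 (L l334 (L l338 (T t1328 (K a128 (Fr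 a130 a2 l306 (V t4949)) (K a130 (M a128 (F (T t4949 (L l9 (L l334 (L l338 (T t76 N))))))) N)))))))))) (K a130 (M a128 (L l305 (F (T t178 (L l485 (T t5176 (L l218 (L l221 (L l296 (L l515 (T t5198 (K a1 (Fr a65 a64 l76 (V t8717)) (K a65 (M a1 (F (T t4949 (L l9 (L l334 (L l338 (T t76 N))))))) N))))))))))))) N)))))))))))))) (K a66 (M a129 (F (T t939 (L l43 (L l485 (L l487 (L l489 (T t937 (L l9 (T t5178 N)))))))))) N))))))))))))) N)))))))))))))))) (K a66 (M a129 (L l228 (L l307 (F (T t5176 (L l7 (L l337 (L l339 (T t982 (L l9 (T t5204 (K a193 (M a194 (L l307 (F (T t939 (L l43 (L l485 (L l487 (L l489 (T t937 (L l9 (T t5178 (K a67 (M a131 (L l76 (F (T t939 (L l142 (L l295 (L l515 (T t5200 (K a64 (M a65 (F (T t5201 (L l7 (L l337 (L l339 (T t982 (L l142 (L l144 (L l295 (L l515 (T t5202 N)))))))))))) (K a65 (M a64 (F (T t5196 (L l143 (L l295 (L l296 (L l475 (L l515 (T t5203 N))))))))) N)))))))))) (K a131 (M a67 (F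 (T t939 (L l43 (L l485 (L l487 (L l489 (T t937 (L l9 (T t5178 N)))))))))) N))))))))))))) (K a194 (M a193 (L l306 (L l307 (F (T t178 (L l236 (L l516 (T t5179 (K a2 (M a130 (L l307 (F (T t5195 (L l66 (L l236 (L l516 (T t5179 (K a67 (Fr a131 a128 l152 (V t982)) (K a131 (M a67 (F (T t5196 (L l66 (L l516 (T t5205 N)))))) N)))))))))) (K a130 (M a2 (L l307 (F (T t2002 (L l9 (L l334 (L l338 (T t76 (K a67 (M a131 (L l76 (F (T t4951 (L l9 (L l334 (L l338 (T t76 (K a64 (Fr a65 a1 l305 (V t2002)) (K a65 (M a64 (F (T t2002 (L l9 (L l334 (L l338 (T t76 N))))))) N)))))))))) (K a131 (M a67 (F (T t2002 (L l9 (L l334 (L l338 (T t76 N))))))) N)))))))))) (K a67 (M a131 (L l76 (L l306 (F (T t178 (L l145 (L l236 (L l516 (T t5179 (K a64 (Fr a65 a1 l305 (V t982)) (K a65 (M a64 (L l306 (F (T t178 (L l141 (L l145 (L l236 (L l516 (T t5179 (K a2 (Fr a130 a128 l152 (V t8718)) (K a130 (M a2 (F (T t2002 (L l9 (L l334 (L l338 (T t76 N)))))))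 N))))))))))) (K a2 (Fr a130 a128 l152 (V t982)) (K a130 (M a2 (L l76 (F (T t4951 (L l9 (L l334 (L l338 (T t76 (K a64 (Fr a65 a1 l305 (V t2002)) (K a65 (M a64 (F (T t2002 (L l9 (L l334 (L l338 (T t76 N))))))) N)))))))))) N))))))))))))) (K a131 (M a67 (L l306 (F (T t939 (L l236 (L l516 (T t5179 (K a2 (M a130 (F (T t5196 (L l66 (L l516 (T t5205 N)))))) (K a130 (M a2 (F (T t2002 (L l9 (L l334 (L l338 (T t76 N))))))) N))))))))) N)))))))))))) (K a67 (M a131 (L l76 (L l228 (F (T t5176 (L l7 (L l337 (L l339 (T t982 (L l9 (T t5204 (K a64 (M a65 (L l228 (F (T t5207 (L l9 (L l334 (L l338 (T t1338 (K a193 (M a194 (F (T t5201 (L l7 (L l337 (L l339 (T t982 (L l142 (L l144 (L l295 (L l515 (T t5202 N)))))))))))) (K a194 (Fr a193 a1 l305 (V t982)) N)))))))))) (K a65 (M a64 (L l228 (F (T t5176 (L l7 (L l337 (L l339 (T t982 (L l9 (T t5178 (K a193 (M a194 (F (T t5196 (L l143 (L l295 (L l296 (L l475 (L l515 (T t5203 N)))))))))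 (K a194 (M a193 (L l306 (F (T t178 (L l141 (L l145 (L l236 (L l516 (T t5179 (K a2 (Fr a130 a128 l152 (V t8718)) (K a130 (M a2 (F (T t2002 (L l9 (L l334 (L l338 (T t76 N))))))) N))))))))))) N)))))))))))) (K a193 (M a194 (L l76 (F (T t939 (L l142 (L l295 (L l515 (T t5200 (K a64 (M a65 (F (T t5201 (L l7 (L l337 (L l339 (T t982 (L l142 (L l144 (L l295 (L l515 (T t5202 N)))))))))))) (K a65 (M a64 (F (T t5196 (L l143 (L l295 (L l296 (L l475 (L l515 (T t5203 N))))))))) N)))))))))) (K a194 (M a193 (L l76 (L l306 (F (T t178 (L l145 (L l236 (L l516 (T t5179 (K a64 (Fr a65 a1 l305 (V t982)) (K a65 (M a64 (L l306 (F (T t178 (L l141 (L l145 (L l236 (L l516 (T t5179 (K a2 (Fr a130 a128 l152 (V t8718)) (K a130 (M a2 (F (T t2002 (L l9 (L l334 (L l338 (T t76 N))))))) N))))))))))) (K a2 (Fr a130 a128 l152 (V t982)) (K a130 (M a2 (L l76 (F (T t4951 (L l9 (L l334 (L l338 (T t76 (K a64 (Fr a65 a1 l305 (V t2002)) (K a65 (M a64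 (F (T t2002 (L l9 (L l334 (L l338 (T t76 N))))))) N)))))))))) N))))))))))))) N))))))))))))))) (K a131 (M a67 (L l228 (F (T t5176 (L l7 (L l337 (L l339 (T t982 (L l9 (T t5204 (K a193 (M a194 (F (T t939 (L l43 (L l485 (L l487 (L l489 (T t937 (L l9 (T t5178 N)))))))))) (K a194 (M a193 (L l306 (F (T t939 (L l236 (L l516 (T t5179 (K a2 (M a130 (F (T t5196 (L l66 (L l516 (T t5205 N)))))) (K a130 (M a2 (F (T t2002 (L l9 (L l334 (L l338 (T t76 N))))))) N))))))))) N)))))))))))) N))))))))))))))) (K a194 (M a193 (L l307 (L l309 (F (T t939 (L l236 (L l516 (T t5179 (K a129 (M a66 (L l307 (F (T t939 (L l236 (L l516 (T t5179 (K a67 (M a131 (F (T t178 (L l145 (L l236 (L l516 (T t5179 N))))))) (K a131 (M a67 (L l152 (F (T t178 (L l236 (L l516 (T t5179 (K a128 (M a130 (F (T t178 (L l236 (L l516 (T t5179 N)))))) (K a130 (M a128 (F (T t939 (L l236 (L l516 (T t5179 N)))))) N))))))))) N))))))))) (K a66 (M a129 (L l306 (L l307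 (F (T t178 (L l236 (L l516 (T t5179 (K a2 (M a130 (L l307 (F (T t5195 (L l66 (L l236 (L l516 (T t5179 (K a67 (Fr a131 a128 l152 (V t982)) (K a131 (M a67 (F (T t5196 (L l66 (L l516 (T t5205 N)))))) N)))))))))) (K a130 (M a2 (L l307 (F (T t2002 (L l9 (L l334 (L l338 (T t76 (K a67 (M a131 (L l76 (F (T t4951 (L l9 (L l334 (L l338 (T t76 (K a64 (Fr a65 a1 l305 (V t2002)) (K a65 (M a64 (F (T t2002 (L l9 (L l334 (L l338 (T t76 N))))))) N)))))))))) (K a131 (M a67 (F (T t2002 (L l9 (L l334 (L l338 (T t76 N))))))) N)))))))))) (K a67 (M a131 (L l76 (L l306 (F (T t178 (L l145 (L l236 (L l516 (T t5179 (K a64 (Fr a65 a1 l305 (V t982)) (K a65 (M a64 (L l306 (F (T t178 (L l141 (L l145 (L l236 (L l516 (T t5179 (K a2 (Fr a130 a128 l152 (V t8718)) (K a130 (M a2 (F (T t2002 (L l9 (L l334 (L l338 (T t76 N))))))) N))))))))))) (K a2 (Fr a130 a128 l152 (V t982)) (K a130 (M a2 (L l76 (F (T t4951 (L l9 (L l334 (L l338 (T t76 (K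 a64 (Fr a65 a1 l305 (V t2002)) (K a65 (M a64 (F (T t2002 (L l9 (L l334 (L l338 (T t76 N))))))) N)))))))))) N))))))))))))) (K a131 (M a67 (L l306 (F (T t939 (L l236 (L l516 (T t5179 (K a2 (M a130 (F (T t5196 (L l66 (L l516 (T t5205 N)))))) (K a130 (M a2 (F (T t2002 (L l9 (L l334 (L l338 (T t76 N))))))) N))))))))) N)))))))))))) (K a67 (M a131 (L l309 (F (T t178 (L l145 (L l236 (L l516 (T t5179 (K a129 (M a66 (F (T t178 (L l145 (L l236 (L l516 (T t5179 N))))))) (K a66 (M a129 (L l76 (L l306 (F (T t178 (L l145 (L l236 (L l516 (T t5179 (K a64 (Fr a65 a1 l305 (V t982)) (K a65 (M a64 (L l306 (F (T t178 (L l141 (L l145 (L l236 (L l516 (T t5179 (K a2 (Fr a130 a128 l152 (V t8718)) (K a130 (M a2 (F (T t2002 (L l9 (L l334 (L l338 (T t76 N))))))) N))))))))))) (K a2 (Fr a130 a128 l152 (V t982)) (K a130 (M a2 (L l76 (F (T t4951 (L l9 (L l334 (L l338 (T t76 (K a64 (Fr a65 a1 l305 (V t2002)) (K a65 (M a64 (F (T t2002 (L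 l9 (L l334 (L l338 (T t76 N))))))) N)))))))))) N))))))))))))) N)))))))))) (K a131 (M a67 (L l309 (F (T t939 (L l236 (L l516 (T t5179 (K a129 (M a66 (L l152 (F (T t178 (L l236 (L l516 (T t5179 (K a128 (M a130 (F (T t178 (L l236 (L l516 (T t5179 N)))))) (K a130 (M a128 (F (T t939 (L l236 (L l516 (T t5179 N)))))) N))))))))) (K a66 (M a129 (L l306 (F (T t939 (L l236 (L l516 (T t5179 (K a2 (M a130 (F (T t5196 (L l66 (L l516 (T t5205 N)))))) (K a130 (M a2 (F (T t2002 (L l9 (L l334 (L l338 (T t76 N))))))) N))))))))) N))))))))) N)))))))))))) (K a67 (M a131 (L l228 (L l309 (F (T t5176 (L l7 (L l337 (L l339 (T t982 (L l9 (T t5178 (K a129 (M a66 (L l228 (F (T t5176 (L l7 (L l337 (L l339 (T t982 (L l9 (T t5178 (K a193 (M a194 (L l305 (F (T t5195 (L l515 (T t4947 (K a1 (M a65 (F (T t5196 (L l65 (L l515 (T t4947 N)))))) (K a65 (M a1 (F (T t4949 (L l9 (L l334 (L l338 (T t1338 N))))))) N)))))))) (K a194 (M a193 (F (T t178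 (L l145 (L l236 (L l516 (T t5179 N))))))) N)))))))))))) (K a193 (M a194 (L l309 (F (T t939 (L l43 (L l485 (L l487 (L l489 (T t937 (L l9 (T t5178 (K a129 (M a66 (L l305 (F (T t5195 (L l515 (T t4947 (K a1 (M a65 (F (T t5196 (L l65 (L l515 (T t4947 N)))))) (K a65 (M a1 (F (T t4949 (L l9 (L l334 (L l338 (T t1338 N))))))) N)))))))) (K a66 (M a129 (L l76 (F (T t939 (L l142 (L l295 (L l515 (T t5200 (K a64 (M a65 (F (T t5201 (L l7 (L l337 (L l339 (T t982 (L l142 (L l144 (L l295 (L l515 (T t5202 N)))))))))))) (K a65 (M a64 (F (T t5196 (L l143 (L l295 (L l296 (L l475 (L l515 (T t5203 N))))))))) N)))))))))) N))))))))))))) (K a66 (M a129 (L l76 (L l228 (F (T t5176 (L l7 (L l337 (L l339 (T t982 (L l9 (T t5204 (K a64 (M a65 (L l228 (F (T t5207 (L l9 (L l334 (L l338 (T t1338 (K a193 (M a194 (F (T t5201 (L l7 (L l337 (L l339 (T t982 (L l142 (L l144 (L l295 (L l515 (T t5202 N)))))))))))) (K a194 (Fr a193 a1 l305 (V t982))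 N)))))))))) (K a65 (M a64 (L l228 (F (T t5176 (L l7 (L l337 (L l339 (T t982 (L l9 (T t5178 (K a193 (M a194 (F (T t5196 (L l143 (L l295 (L l296 (L l475 (L l515 (T t5203 N))))))))) (K a194 (M a193 (L l306 (F (T t178 (L l141 (L l145 (L l236 (L l516 (T t5179 (K a2 (Fr a130 a128 l152 (V t8718)) (K a130 (M a2 (F (T t2002 (L l9 (L l334 (L l338 (T t76 N))))))) N))))))))))) N)))))))))))) (K a193 (M a194 (L l76 (F (T t939 (L l142 (L l295 (L l515 (T t5200 (K a64 (M a65 (F (T t5201 (L l7 (L l337 (L l339 (T t982 (L l142 (L l144 (L l295 (L l515 (T t5202 N)))))))))))) (K a65 (M a64 (F (T t5196 (L l143 (L l295 (L l296 (L l475 (L l515 (T t5203 N))))))))) N)))))))))) (K a194 (M a193 (L l76 (L l306 (F (T t178 (L l145 (L l236 (L l516 (T t5179 (K a64 (Fr a65 a1 l305 (V t982)) (K a65 (M a64 (L l306 (F (T t178 (L l141 (L l145 (L l236 (L l516 (T t5179 (K a2 (Fr a130 a128 l152 (V t8718)) (K a130 (M a2 (F (T t2002 (L l9 (L l334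 (L l338 (T t76 N))))))) N))))))))))) (K a2 (Fr a130 a128 l152 (V t982)) (K a130 (M a2 (L l76 (F (T t4951 (L l9 (L l334 (L l338 (T t76 (K a64 (Fr a65 a1 l305 (V t2002)) (K a65 (M a64 (F (T t2002 (L l9 (L l334 (L l338 (T t76 N))))))) N)))))))))) N))))))))))))) N))))))))))))))) (K a194 (M a193 (L l309 (F (T t178 (L l145 (L l236 (L l516 (T t5179 (K a129 (M a66 (F (T t178 (L l145 (L l236 (L l516 (T t5179 N))))))) (K a66 (M a129 (L l76 (L l306 (F (T t178 (L l145 (L l236 (L l516 (T t5179 (K a64 (Fr a65 a1 l305 (V t982)) (K a65 (M a64 (L l306 (F (T t178 (L l141 (L l145 (L l236 (L l516 (T t5179 (K a2 (Fr a130 a128 l152 (V t8718)) (K a130 (M a2 (F (T t2002 (L l9 (L l334 (L l338 (T t76 N))))))) N))))))))))) (K a2 (Fr a130 a128 l152 (V t982)) (K a130 (M a2 (L l76 (F (T t4951 (L l9 (L l334 (L l338 (T t76 (K a64 (Fr a65 a1 l305 (V t2002)) (K a65 (M a64 (F (T t2002 (L l9 (L l334 (L l338 (T t76 N))))))) N)))))))))) N)))))))))))))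 N)))))))))) N))))))))))))))) (K a131 (M a67 (L l228 (L l309 (F (T t5176 (L l7 (L l337 (L l339 (T t982 (L l9 (T t5178 (K a129 (M a66 (L l152 (L l228 (F (T t5176 (L l7 (L l337 (L l339 (T t982 (L l9 (T t5178 (K a128 (M a130 (L l228 (F (T t5199 (L l9 (L l334 (L l338 (T t1338 (K a193 (Fr a194 a2 l306 (V t8716)) (K a194 (M a193 (F (T t178 (L l236 (L l516 (T t5179 N)))))) N)))))))))) (K a193 (M a194 (L l152 (L l305 (F (L l515 (T t5197 (L l9 (L l334 (L l338 (T t1338 (K a128 (Fr a130 a2 l306 (V t8716)) (K a1 (Fr a65 a64 l76 (V t5176)) (K a65 (M a1 (L l152 (F (T t4949 (L l9 (L l334 (L l338 (T t1328 (K a128 (Fr a130 a2 l306 (V t4949)) (K a130 (M a128 (F (T t4949 (L l9 (L l334 (L l338 (T t76 N))))))) N)))))))))) (K a130 (M a128 (L l305 (F (T t178 (L l485 (T t5176 (L l218 (L l221 (L l296 (L l515 (T t5198 (K a1 (Fr a65 a64 l76 (V t8717)) (K a65 (M a1 (F (T t4949 (L l9 (L l334 (L l338 (T t76 N))))))) N))))))))))))) N))))))))))))))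 (K a130 (M a128 (L l228 (F (T t5176 (L l7 (L l337 (L l339 (T t982 (L l9 (T t5178 (K a193 (M a194 (L l305 (F (T t178 (L l485 (T t5176 (L l218 (L l221 (L l296 (L l515 (T t5198 (K a1 (Fr a65 a64 l76 (V t8717)) (K a65 (M a1 (F (T t4949 (L l9 (L l334 (L l338 (T t76 N))))))) N))))))))))))) (K a194 (M a193 (F (T t939 (L l236 (L l516 (T t5179 N)))))) N)))))))))))) (K a194 (M a193 (L l152 (F (T t178 (L l236 (L l516 (T t5179 (K a128 (M a130 (F (T t178 (L l236 (L l516 (T t5179 N)))))) (K a130 (M a128 (F (T t939 (L l236 (L l516 (T t5179 N)))))) N))))))))) N))))))))))))))) (K a193 (M a194 (L l309 (F (T t939 (L l43 (L l485 (L l487 (L l489 (T t937 (L l9 (T t5178 (K a129 (M a66 (L l152 (L l305 (F (L l515 (T t5197 (L l9 (L l334 (L l338 (T t1338 (K a128 (Fr a130 a2 l306 (V t8716)) (K a1 (Fr a65 a64 l76 (V t5176)) (K a65 (M a1 (L l152 (F (T t4949 (L l9 (L l334 (L l338 (T t1328 (K a128 (Fr a130 a2 l306 (V t4949)) (K a130 (M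 a128 (F (T t4949 (L l9 (L l334 (L l338 (T t76 N))))))) N)))))))))) (K a130 (M a128 (L l305 (F (T t178 (L l485 (T t5176 (L l218 (L l221 (L l296 (L l515 (T t5198 (K a1 (Fr a65 a64 l76 (V t8717)) (K a65 (M a1 (F (T t4949 (L l9 (L l334 (L l338 (T t76 N))))))) N))))))))))))) N)))))))))))))) (K a66 (M a129 (F (T t939 (L l43 (L l485 (L l487 (L l489 (T t937 (L l9 (T t5178 N)))))))))) N))))))))))))) (K a66 (M a129 (L l228 (F (T t5176 (L l7 (L l337 (L l339 (T t982 (L l9 (T t5204 (K a193 (M a194 (F (T t939 (L l43 (L l485 (L l487 (L l489 (T t937 (L l9 (T t5178 N)))))))))) (K a194 (M a193 (L l306 (F (T t939 (L l236 (L l516 (T t5179 (K a2 (M a130 (F (T t5196 (L l66 (L l516 (T t5205 N)))))) (K a130 (M a2 (F (T t2002 (L l9 (L l334 (L l338 (T t76 N))))))) N))))))))) N)))))))))))) (K a194 (M a193 (L l309 (F (T t939 (L l236 (L l516 (T t5179 (K a129 (M a66 (L l152 (F (T t178 (L l236 (L l516 (T t5179 (K a128 (M a130 (F (T t178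 (L l236 (L l516 (T t5179 N)))))) (K a130 (M a128 (F (T t939 (L l236 (L l516 (T t5179 N)))))) N))))))))) (K a66 (M a129 (L l306 (F (T t939 (L l236 (L l516 (T t5179 (K a2 (M a130 (F (T t5196 (L l66 (L l516 (T t5205 N)))))) (K a130 (M a2 (F (T t2002 (L l9 (L l334 (L l338 (T t76 N))))))) N))))))))) N))))))))) N))))))))))))))) N)))))))))))))))))) (K a193 (M a194 (F (T t522 (L l295 (L l515 (T t4954 (L l296 (L l515 (T t4955 (K a20 (M a58 (F (L l11 (L l14 (T t4956 (L l236 (L l350 (L l515 (T t4957 N))))))))) (K a61 (M a48 (L l515 (F (T t610 (L l334 (L l338 (T t489 (T t65 (K a149 (M a105 (F (T t132 (L l235 (L l295 (T t4938 N)))))) (K a105 (M a149 (F (T t1308 (L l233 (L l236 (L l293 (L l296 (T t6 N)))))))) N)))))))))) (K a42 (M a58 (F (L l334 (L l338 (T t2374 (L l236 (L l515 (T t4957 N)))))))) (K a62 (M a16 (F (T t1574 (L l66 (L l337 (L l339 (T t97 (L l66 (T t1141 N))))))))) N))))))))))))) (K a194 (M a193 (F (T t116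 (L l295 (L l516 (T t5192 (L l296 (L l516 (T t5208 (K a40 (M a53 (F (L l22 (L l24 (T t178 (L l236 (L l392 (L l516 (T t5179 N))))))))) (K a21 (M a53 (F (L l236 (L l516 (T t5179 (L l334 (L l338 (T t76 N)))))))) (K a61 (M a16 (F (T t1574 (L l337 (L l339 (T t97 (L l59 (T t1141 N)))))))) (K a62 (M a48 (L l516 (F (T t607 (L l334 (L l338 (T t489 (L l36 (L l66 (T t65 (K a150 (M a106 (F (T t3235 (L l234 (L l236 (L l294 (L l296 (T t306 N)))))))) (K a106 (M a150 (F (T t48 (L l235 (L l295 (T t5194 N)))))) N)))))))))))) N))))))))))))) N)))))))))))))))))))))))))))⟩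
def e0_63__192_59 : Ent 4 := ⟨[a0, a63], [a192, a197], (M a12 (L l236 (F (T t150 (L l489 (T t122 (L l489 (T t151 (L l489 (T t152 (L l489 (T t153 (K a4 (M a60 (L l236 (F (T t570 (L l46 (L l50 (L l309 (T t67 (T t448 (K a202 (M a207 (F (T t522 (L l296 (T t5383 N))))) (K a207 (M a202 (F (T t662 (L l325 (L l339 (T t680 (L l46 (L l50 (T t1096 N))))))))) N))))))))))) (K a8 (M a60 (L l236 (F (T t570 (L l309 (T t67 (L l52 (L l56 (T t448 (K a202 (M a207 (F (T t116 (L l296 (T t5383 N))))) (K a207 (M a202 (F (T t570 (L l56 (L l309 (L l331 (T t69 (T t1096 N)))))))) N))))))))))) (K a21 (M a255 (L l236 (F (T t2030 (L l272 (L l347 (T t2031 (L l15 (L l272 (T t2032 (K a202 (M a207 (F (T t2128 (L l347 (L l484 (T t8719 N)))))) (K a207 (M a202 (F (T t2126 (L l231 (L l232 (T t2124 (L l15 (L l272 (T t2032 N))))))))) N)))))))))))) (K a25 (M a48 (L l236 (F (T t865 (L l15 (L l339 (L l491 (T t1 (L l12 (L l56 (L l311 (T t866 (K a202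 (M a207 (F (L l311 (T t5384 (L l15 (L l282 (L l296 (L l498 (T t5385 N))))))))) (K a207 (M a202 (F (T t865 (L l15 (L l325 (L l339 (T t3 (L l12 (L l56 (L l311 (T t866 N))))))))))) N)))))))))))))) (K a29 (M a60 (L l236 (F (T t421 (L l15 (L l309 (T t67 (L l15 (T t399 (K a202 (M a207 (F (T t5386 (L l232 (T t5219 N))))) (K a207 (M a202 (F (T t662 (L l13 (L l484 (L l512 (T t410 (L l15 (T t399 N))))))))) N))))))))))) (K a38 (M a48 (L l236 (F (T t867 (L l26 (L l311 (L l339 (T t2 (L l21 (L l50 (L l491 (T t868 (K a202 (M a207 (F (L l318 (T t5387 (L l26 (L l275 (L l296 (L l491 (T t5388 N))))))))) (K a207 (M a202 (F (T t867 (L l26 (L l311 (L l325 (L l339 (T t2 (L l21 (L l50 (L l491 (T t868 N)))))))))))) N)))))))))))))) (K a42 (M a255 (L l236 (F (T t2033 (L l26 (L l232 (T t2034 (L l56 (L l272 (L l390 (T t2032 (K a202 (M a207 (F (T t8720 (L l272 (T t2031 N))))) (K a207 (M a202 (F (T t2130 (L l272 (L l301 (L l390 (T t2123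 (L l56 (L l272 (L l390 (T t2032 N))))))))))) N))))))))))))) (K a46 (M a60 (L l236 (F (T t3918 (L l309 (T t67 (L l23 (T t399 (K a202 (M a207 (F (T t5227 (L l484 (T t409 N))))) (K a207 (M a202 (F (T t5391 (L l26 (L l60 (L l309 (L l331 (T t69 (L l23 (T t399 N)))))))))) N)))))))))) (K a51 (M a16 (L l236 (L l489 (F (T t504 (L l39 (L l514 (T t871 (T t872 (K a145 (M a98 (L l236 (F (T t652 (L l73 (L l339 (T t97 (T t872 (K a202 (M a207 (F (T t652 (T t5392 N)))) (K a207 (M a202 (L l511 (F (T t652 (L l73 (L l325 (L l339 (T t97 (T t872 (K a103 (M a155 (F (T t652 (L l73 (L l325 (L l339 (T t97 (T t872 N)))))))) (K a155 (M a103 (F (T t652 (L l73 (L l325 (L l339 (T t97 (T t872 N)))))))) N))))))))))) N)))))))))) (K a98 (M a145 (L l236 (F (T t652 (L l73 (L l339 (T t97 (T t872 (K a202 (M a207 (F (T t652 (T t5392 N)))) (K a207 (M a202 (L l511 (F (T t652 (L l73 (L l325 (L l339 (T t97 (T t872 (K a103 (M a155 (F (T t652 (L l73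 (L l325 (L l339 (T t97 (T t872 N)))))))) (K a155 (M a103 (F (T t652 (L l73 (L l325 (L l339 (T t97 (T t872 N)))))))) N))))))))))) N)))))))))) (K a202 (M a207 (L l489 (F (T t652 (T t5392 (K a145 (M a98 (F (T t652 (T t5392 N)))) (K a98 (M a145 (F (T t652 (T t5392 N)))) N))))))) (K a207 (M a202 (L l489 (L l511 (F (T t652 (L l73 (L l325 (L l339 (T t97 (T t872 (K a145 (M a98 (L l511 (F (T t652 (L l73 (L l325 (L l339 (T t97 (T t872 (K a103 (M a155 (F (T t652 (L l73 (L l325 (L l339 (T t97 (T t872 N)))))))) (K a155 (M a103 (F (T t652 (L l73 (L l325 (L l339 (T t97 (T t872 N)))))))) N))))))))))) (K a98 (M a145 (L l511 (F (T t652 (L l73 (L l325 (L l339 (T t97 (T t872 (K a103 (M a155 (F (T t652 (L l73 (L l325 (L l339 (T t97 (T t872 N)))))))) (K a155 (M a103 (F (T t652 (L l73 (L l325 (L l339 (T t97 (T t872 N)))))))) N))))))))))) (K a103 (M a155 (L l489 (F (T t652 (L l73 (L l325 (L l339 (T t97 (T t872 (K a145 (M a98 (F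 (T t652 (L l73 (L l325 (L l339 (T t97 (T t872 N)))))))) (K a98 (M a145 (F (T t652 (L l73 (L l325 (L l339 (T t97 (T t872 N)))))))) N))))))))))) (K a155 (M a103 (L l489 (F (T t652 (L l73 (L l325 (L l339 (T t97 (T t872 (K a145 (M a98 (F (T t652 (L l73 (L l325 (L l339 (T t97 (T t872 N)))))))) (K a98 (M a145 (F (T t652 (L l73 (L l325 (L l339 (T t97 (T t872 N)))))))) N))))))))))) N)))))))))))))) N))))))))))))) (K a202 (M a207 (F (T t150 (L l228 (L l311 (T t2144 (K a4 (M a16 (F (L l296 (L l491 (T t5393 (T t2243 N)))))) (K a8 (M a16 (F (L l296 (L l491 (T t5393 (L l56 (T t2243 N))))))) N)))))))) (K a207 (M a202 (F (T t150 (L l489 (L l511 (T t122 (L l489 (L l511 (T t151 (L l489 (L l511 (T t152 (L l489 (L l511 (T t153 (K a4 (M a170 (F (L l458 (T t4159 (L l1 (L l50 (L l303 (L l311 (T t5394 N))))))))) (K a8 (M a60 (F (T t570 (L l56 (L l309 (L l331 (T t69 (T t1096 N)))))))) (K a21 (M a136 (F (L l15 (T t5395 (L l50 (L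 l233 (L l331 (T t5396 N)))))))) (K a25 (M a136 (F (L l15 (T t5395 (L l233 (L l331 (T t5396 N))))))) (K a29 (M a10 (F (T t2421 (L l15 (L l296 (L l512 (T t5397 N))))))) (K a38 (M a136 (F (T t5395 (L l50 (L l233 (L l331 (T t5396 N))))))) (K a42 (M a136 (F (T t5395 (L l233 (L l331 (T t5396 N)))))) (K a46 (M a10 (F (T t2421 (L l296 (L l512 (T t5397 N)))))) (K a51 (M a136 (L l489 (L l511 (F (T t5395 (L l233 (L l331 (T t5396 (K a145 (M a98 (L l511 (F (L l167 (T t5395 (L l233 (L l331 (T t5396 (K a103 (M a155 (F (L l167 (T t5395 (L l233 (L l331 (T t5396 N))))))) (K a155 (M a103 (F (L l167 (T t5395 (L l207 (L l233 (L l331 (T t5396 N)))))))) N)))))))))) (K a98 (M a145 (L l511 (F (T t5395 (L l233 (L l331 (T t5396 (K a103 (M a155 (F (T t5395 (L l233 (L l331 (T t5396 N)))))) (K a155 (M a103 (F (T t5395 (L l207 (L l233 (L l331 (T t5396 N))))))) N))))))))) (K a103 (M a155 (L l489 (F (T t5395 (L l233 (L l331 (T t5396 (K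 a145 (M a98 (F (L l167 (T t5395 (L l233 (L l331 (T t5396 N))))))) (K a98 (M a145 (F (T t5395 (L l233 (L l331 (T t5396 N)))))) N))))))))) (K a155 (M a103 (L l489 (F (T t5395 (L l207 (L l233 (L l331 (T t5396 (K a145 (M a98 (F (L l167 (T t5395 (L l207 (L l233 (L l331 (T t5396 N)))))))) (K a98 (M a145 (F (T t5395 (L l207 (L l233 (L l331 (T t5396 N))))))) N)))))))))) N)))))))))))) N)))))))))))))))))))))))) N)))))))))))))))))))))))⟩
def e0_63__192_60 : Ent 4 := ⟨[a0, a63], [a192, a198], (M a48 (F (T t48 (L l339 (T t1 (L l339 (T t2 (L l339 (T t3 (L l339 (T t0 (K a16 (M a60 (F (T t138 (L l14 (L l18 (L l309 (T t67 (T t65 N)))))))) (K a32 (M a60 (F (T t138 (L l309 (T t67 (L l24 (L l28 (T t65 N)))))))) (K a21 (M a255 (F (T t554 (L l236 (L l347 (T t547 (L l47 (L l234 (L l236 (T t548 N)))))))))) (K a37 (M a52 (F (T t555 (L l334 (T t82 (L l21 (L l28 (L l492 (T t84 N))))))))) (K a53 (M a12 (F (T t145 (L l47 (L l489 (T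 t122 (L l47 (T t146 N)))))))) (K a26 (M a56 (F (T t556 (L l334 (T t133 (L l12 (L l18 (T t135 N)))))))) (K a42 (M a255 (F (T t1260 (L l54 (L l268 (T t1160 (L l28 (L l234 (L l236 (L l390 (T t548 N))))))))))) (K a58 (M a12 (F (T t145 (L l489 (T t122 (T t146 N)))))) (K a15 (M a4 (L l339 (F (T t129 (L l63 (L l514 (T t528 (L l492 (T t520 (K a133 (M a74 (F (T t558 (L l73 (L l489 (T t519 (L l492 (T t520 N)))))))) (K a74 (M a133 (F (T t558 (L l73 (L l489 (T t519 (L l492 (T t520 N)))))))) N))))))))))) N))))))))))))))))))))⟩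
def e0_63__192_61 : Ent 4 := ⟨[a0, a63], [a192, a199], (M a48 (F (T t48 (L l339 (T t1 (L l339 (T t2 (L l339 (T t3 (L l339 (T t0 (K a16 (M a60 (F (T t138 (L l14 (L l18 (L l309 (T t67 (T t65 N)))))))) (K a32 (M a60 (F (T t116 (L l489 (T t64 (L l24 (L l28 (T t65 N)))))))) (K a21 (M a255 (F (T t1259 (L l268 (T t1160 (L l47 (L l236 (T t548 N)))))))) (K a37 (M a52 (F (L l71 (T t491 (L l314 (L l334 (T t82 (L l21 (L l28 (T t84 N)))))))))) (K a53 (M a12 (F (T t145 (L l47 (L l489 (T t122 (L l47 (T t146 N)))))))) (K a26 (M a56 (F (L l494 (T t556 (L l334 (L l494 (T t133 (L l12 (L l18 (T t135 N)))))))))) (K a42 (M a255 (F (T t1260 (L l54 (L l268 (T t1160 (L l28 (L l236 (L l390 (T t548 N)))))))))) (K a58 (M a12 (F (T t145 (L l489 (T t122 (T t146 N)))))) (K a15 (M a4 (L l339 (F (T t129 (L l63 (L l494 (L l514 (T t528 (T t520 (K a133 (M a74 (F (T t518 (L l73 (L l489 (L l493 (T t519 (T t520 N)))))))) (K a74 (M a133 (F (T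 t518 (L l73 (L l489 (L l493 (T t519 (T t520 N)))))))) N))))))))))) N))))))))))))))))))))⟩
def e0_63__192_62 : Ent 4 := ⟨[a0, a63], [a192, a202], (M a12 (L l236 (F (T t150 (L l489 (T t122 (L l489 (T t151 (L l489 (T t152 (L l489 (T t153 (K a4 (M a60 (L l236 (F (T t570 (L l46 (L l50 (L l309 (T t67 (T t448 (K a197 (M a207 (F (T t522 (L l296 (T t5383 N))))) (K a207 (M a197 (F (T t662 (L l325 (L l339 (T t680 (L l46 (L l50 (T t1096 N))))))))) N))))))))))) (K a8 (M a60 (L l236 (F (T t570 (L l309 (T t67 (L l52 (L l56 (T t448 (K a197 (M a207 (F (T t116 (L l296 (T t5383 N))))) (K a207 (M a197 (F (T t570 (L l56 (L l309 (L l331 (T t69 (T t1096 N)))))))) N))))))))))) (K a21 (M a255 (L l236 (F (T t2030 (L l272 (L l347 (T t2031 (L l15 (L l272 (T t2032 (K a197 (M a207 (F (T t2128 (L l347 (L l484 (T t8719 N)))))) (K a207 (M a197 (F (T t2126 (L l231 (L l232 (T t2124 (L l15 (L l272 (T t2032 N))))))))) N)))))))))))) (K a25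 (M a48 (L l236 (F (T t865 (L l15 (L l318 (L l339 (T t1 (L l12 (L l56 (L l498 (T t866 (K a197 (M a207 (F (L l311 (T t5384 (L l15 (L l282 (L l296 (L l498 (T t5385 N))))))))) (K a207 (M a197 (F (T t865 (L l15 (L l325 (L l339 (T t3 (L l12 (L l56 (L l498 (T t866 N))))))))))) N)))))))))))))) (K a29 (M a60 (L l236 (F (T t421 (L l15 (L l309 (T t67 (L l15 (T t399 (K a197 (M a207 (F (T t5386 (L l232 (T t5219 N))))) (K a207 (M a197 (F (T t662 (L l13 (L l484 (L l512 (T t410 (L l15 (T t399 N))))))))) N))))))))))) (K a38 (M a48 (L l236 (F (T t867 (L l26 (L l339 (L l498 (T t2 (L l21 (L l50 (L l318 (T t868 (K a197 (M a207 (F (L l318 (T t5387 (L l26 (L l275 (L l296 (L l491 (T t5388 N))))))))) (K a207 (M a197 (F (T t867 (L l26 (L l325 (L l339 (L l498 (T t2 (L l21 (L l50 (L l318 (T t868 N)))))))))))) N)))))))))))))) (K a42 (M a255 (L l236 (F (T t2033 (L l26 (L l232 (T t2034 (L l56 (L l272 (L l390 (T t2032 (K a197 (M a207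 (F (T t8720 (L l272 (T t2031 N))))) (K a207 (M a197 (F (T t2130 (L l272 (L l301 (L l390 (T t2123 (L l56 (L l272 (L l390 (T t2032 N))))))))))) N))))))))))))) (K a46 (M a60 (L l236 (F (T t3918 (L l309 (T t67 (L l23 (T t399 (K a197 (M a207 (F (T t5227 (L l484 (T t409 N))))) (K a207 (M a197 (F (T t5391 (L l26 (L l60 (L l309 (L l331 (T t69 (L l23 (T t399 N)))))))))) N)))))))))) (K a51 (M a16 (L l236 (L l489 (F (T t2517 (L l73 (L l339 (T t97 (T t872 (K a145 (M a98 (L l236 (F (T t652 (L l73 (L l339 (T t97 (T t872 (K a197 (M a207 (F (T t652 (T t5392 N)))) (K a207 (M a197 (L l511 (F (T t652 (L l73 (L l325 (L l339 (T t97 (T t872 (K a103 (M a155 (F (T t652 (L l73 (L l325 (L l339 (T t97 (T t872 N)))))))) (K a155 (M a103 (F (T t652 (L l73 (L l325 (L l339 (T t97 (T t872 N)))))))) N))))))))))) N)))))))))) (K a197 (M a207 (L l489 (F (T t652 (T t5392 (K a145 (M a98 (F (T t652 (T t5392 N)))) (K a98 (M a145 (F (T t652 (T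 t5392 N)))) N))))))) (K a98 (M a145 (L l236 (F (T t652 (L l73 (L l339 (T t97 (T t872 (K a197 (M a207 (F (T t652 (T t5392 N)))) (K a207 (M a197 (L l511 (F (T t652 (L l73 (L l325 (L l339 (T t97 (T t872 (K a103 (M a155 (F (T t652 (L l73 (L l325 (L l339 (T t97 (T t872 N)))))))) (K a155 (M a103 (F (T t652 (L l73 (L l325 (L l339 (T t97 (T t872 N)))))))) N))))))))))) N)))))))))) (K a207 (M a197 (L l489 (L l511 (F (T t652 (L l73 (L l325 (L l339 (T t97 (T t872 (K a145 (M a98 (L l511 (F (T t652 (L l73 (L l325 (L l339 (T t97 (T t872 (K a103 (M a155 (F (T t652 (L l73 (L l325 (L l339 (T t97 (T t872 N)))))))) (K a155 (M a103 (F (T t652 (L l73 (L l325 (L l339 (T t97 (T t872 N)))))))) N))))))))))) (K a98 (M a145 (L l511 (F (T t652 (L l73 (L l325 (L l339 (T t97 (T t872 (K a103 (M a155 (F (T t652 (L l73 (L l325 (L l339 (T t97 (T t872 N)))))))) (K a155 (M a103 (F (T t652 (L l73 (L l325 (L l339 (T t97 (T t872 N)))))))) N)))))))))))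 (K a103 (M a155 (L l489 (F (T t652 (L l73 (L l325 (L l339 (T t97 (T t872 (K a145 (M a98 (F (T t652 (L l73 (L l325 (L l339 (T t97 (T t872 N)))))))) (K a98 (M a145 (F (T t652 (L l73 (L l325 (L l339 (T t97 (T t872 N)))))))) N))))))))))) (K a155 (M a103 (L l489 (F (T t652 (L l73 (L l325 (L l339 (T t97 (T t872 (K a145 (M a98 (F (T t652 (L l73 (L l325 (L l339 (T t97 (T t872 N)))))))) (K a98 (M a145 (F (T t652 (L l73 (L l325 (L l339 (T t97 (T t872 N)))))))) N))))))))))) N)))))))))))))) N))))))))))))) (K a197 (M a207 (F (T t150 (L l228 (L l311 (T t2144 (K a4 (M a16 (F (L l296 (L l491 (T t5393 (T t2243 N)))))) (K a8 (M a16 (F (L l296 (L l491 (T t5393 (L l56 (T t2243 N))))))) N)))))))) (K a207 (M a197 (F (T t150 (L l489 (L l511 (T t122 (L l489 (L l511 (T t151 (L l489 (L l511 (T t152 (L l489 (L l511 (T t153 (K a4 (M a60 (F (T t662 (L l325 (L l339 (T t680 (L l46 (L l50 (T t1096 N))))))))) (K a8 (M a85 (F (L l464 (T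 t571 (L l2 (L l56 (L l303 (L l318 (T t5811 N))))))))) (K a21 (M a68 (F (T t2173 (L l47 (L l234 (T t5812 N)))))) (K a25 (M a68 (F (T t2173 (L l56 (L l234 (T t5812 N)))))) (K a29 (M a5 (F (T t1428 (L l296 (L l512 (T t5810 N)))))) (K a38 (M a68 (F (L l26 (T t2173 (L l234 (T t5812 N)))))) (K a42 (M a68 (F (L l26 (T t2173 (L l56 (L l234 (T t5812 N))))))) (K a46 (M a5 (F (T t1428 (L l26 (L l296 (L l512 (T t5810 N))))))) (K a51 (M a68 (L l489 (L l511 (F (T t2173 (L l234 (T t5812 (K a145 (M a98 (L l511 (F (T t2173 (L l234 (T t5812 (K a103 (M a155 (F (T t2173 (L l234 (T t5812 N))))) (K a155 (M a103 (F (T t2173 (L l234 (T t5812 N))))) N)))))))) (K a98 (M a145 (L l511 (F (L l102 (T t2173 (L l234 (T t5812 (K a103 (M a155 (F (L l102 (T t2173 (L l234 (T t5812 N)))))) (K a155 (M a103 (F (L l102 (T t2173 (L l234 (T t5812 N)))))) N))))))))) (K a103 (M a155 (L l489 (F (T t2173 (L l234 (T t5812 (K a145 (M a98 (F (T t2173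 (L l234 (T t5812 N))))) (K a98 (M a145 (F (L l102 (T t2173 (L l234 (T t5812 N)))))) N)))))))) (K a155 (M a103 (L l489 (F (T t2173 (L l234 (T t5812 (K a145 (M a98 (F (T t2173 (L l234 (T t5812 N))))) (K a98 (M a145 (F (L l102 (T t2173 (L l234 (T t5812 N)))))) N)))))))) N))))))))))) N)))))))))))))))))))))))) N)))))))))))))))))))))))⟩
def e0_63__192_63 : Ent 4 := ⟨[a0, a63], [a192, a203], (M a48 (F (T t48 (L l339 (T t1 (L l339 (T t2 (L l339 (T t3 (L l339 (T t0 (K a16 (M a60 (F (T t522 (L l489 (T t64 (T t65 N)))))) (K a32 (M a60 (F (T t116 (L l489 (T t64 (L l24 (L l28 (T t65 N)))))))) (K a21 (M a255 (F (T t1259 (L l268 (T t1160 (L l47 (L l230 (L l236 (T t548 N))))))))) (K a37 (M a52 (F (L l500 (T t555 (L l334 (L l500 (T t82 (L l21 (L l28 (T t84 N)))))))))) (K a53 (M a12 (F (T t3475 (L l47 (L l489 (T t122 (L l47 (T t146 N)))))))) (K a26 (M a56 (F (L l72 (T t6620 (L l320 (L l334 (T t133 (L l12 (L l18 (T t135 N))))))))))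 (K a42 (M a255 (F (T t8682 (L l54 (L l268 (T t1160 (L l28 (L l230 (L l236 (L l390 (T t548 N))))))))))) (K a58 (M a12 (F (T t150 (L l514 (T t443 (T t146 N)))))) (K a15 (M a4 (L l339 (F (L l320 (T t129 (L l63 (L l320 (L l514 (T t528 (T t520 (K a133 (M a74 (F (L l320 (T t558 (L l73 (L l320 (L l489 (T t519 (T t520 N))))))))) (K a74 (M a133 (F (L l320 (T t558 (L l73 (L l320 (L l489 (T t519 (T t520 N))))))))) N)))))))))))) N))))))))))))))))))))⟩
def e0_63__192_64 : Ent 4 := ⟨[a0, a63], [a192, a207], (M a12 (L l236 (F (T t150 (L l489 (L l511 (T t122 (L l489 (L l511 (T t151 (L l489 (L l511 (T t152 (L l489 (L l511 (T t153 (K a4 (M a60 (L l236 (F (T t570 (L l46 (L l50 (L l309 (L l331 (T t67 (T t448 (K a197 (M a202 (F (T t662 (L l325 (L l339 (T t680 (L l46 (L l50 (T t1096 N))))))))) (K a202 (M a197 (F (T t662 (L l325 (L l339 (T t680 (L l46 (L l50 (T t1096 N))))))))) N)))))))))))) (K a8 (M a60 (L l236 (F (T t116 (L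 l325 (L l339 (T t398 (L l52 (L l56 (T t448 (K a197 (M a202 (F (T t570 (L l56 (L l309 (L l331 (T t69 (T t1096 N)))))))) (K a202 (M a197 (F (T t570 (L l56 (L l309 (L l331 (T t69 (T t1096 N)))))))) N)))))))))))) (K a21 (M a255 (L l236 (F (T t2030 (L l272 (L l301 (L l347 (T t2031 (L l15 (L l272 (T t2032 (K a197 (M a202 (F (T t2126 (L l231 (L l232 (T t2124 (L l15 (L l272 (T t2032 N))))))))) (K a202 (M a197 (F (T t2126 (L l231 (L l232 (T t2124 (L l15 (L l272 (T t2032 N))))))))) N))))))))))))) (K a25 (M a48 (L l236 (F (T t865 (L l15 (L l325 (L l339 (T t1 (L l12 (L l56 (T t866 (K a197 (M a202 (F (T t865 (L l15 (L l325 (L l339 (T t3 (L l12 (L l56 (L l311 (T t866 N))))))))))) (K a202 (M a197 (F (T t865 (L l15 (L l325 (L l339 (T t3 (L l12 (L l56 (L l498 (T t866 N))))))))))) N))))))))))))) (K a29 (M a5 (L l236 (F (T t1428 (L l484 (L l512 (T t1110 (T t5341 (K a197 (M a202 (F (T t1428 (L l484 (L l491 (L l512 (T t1110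 (T t5341 N)))))))) (K a202 (M a197 (F (T t1428 (L l296 (L l512 (T t5810 N)))))) N)))))))))) (K a38 (M a48 (L l236 (F (T t867 (L l26 (L l325 (L l339 (T t2 (L l21 (L l50 (T t868 (K a197 (M a202 (F (T t867 (L l26 (L l311 (L l325 (L l339 (T t2 (L l21 (L l50 (L l491 (T t868 N)))))))))))) (K a202 (M a197 (F (T t867 (L l26 (L l325 (L l339 (L l498 (T t2 (L l21 (L l50 (L l318 (T t868 N)))))))))))) N))))))))))))) (K a42 (M a255 (L l236 (F (T t2033 (L l26 (L l231 (L l232 (T t2034 (L l56 (L l272 (L l390 (T t2032 (K a197 (M a202 (F (T t2130 (L l272 (L l301 (L l390 (T t2123 (L l56 (L l272 (L l390 (T t2032 N))))))))))) (K a202 (M a197 (F (T t2130 (L l272 (L l301 (L l390 (T t2123 (L l56 (L l272 (L l390 (T t2032 N))))))))))) N)))))))))))))) (K a46 (M a5 (L l236 (F (T t1428 (L l26 (L l484 (L l512 (T t1110 (L l26 (T t5344 (K a197 (M a202 (F (T t1428 (L l26 (L l484 (L l491 (L l512 (T t1110 (L l26 (T t5344 N)))))))))) (K a202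 (M a197 (F (T t1428 (L l26 (L l296 (L l512 (T t5810 N))))))) N)))))))))))) (K a51 (M a16 (L l236 (L l489 (L l511 (F (T t112 (L l39 (L l506 (L l514 (T t871 (T t872 (K a145 (M a98 (L l236 (L l511 (F (T t112 (L l39 (L l506 (L l514 (T t871 (T t872 (K a197 (M a202 (L l511 (F (T t652 (L l73 (L l325 (L l339 (T t97 (T t872 (K a103 (M a155 (F (T t652 (L l73 (L l325 (L l339 (T t97 (T t872 N)))))))) (K a155 (M a103 (F (T t652 (L l73 (L l325 (L l339 (T t97 (T t872 N)))))))) N))))))))))) (K a202 (M a197 (L l511 (F (T t652 (L l73 (L l325 (L l339 (T t97 (T t872 (K a103 (M a155 (F (T t652 (L l73 (L l325 (L l339 (T t97 (T t872 N)))))))) (K a155 (M a103 (F (T t652 (L l73 (L l325 (L l339 (T t97 (T t872 N)))))))) N))))))))))) (K a103 (M a155 (L l236 (F (T t112 (L l39 (L l506 (L l514 (T t871 (T t872 (K a197 (M a202 (F (T t652 (L l73 (L l325 (L l339 (T t97 (T t872 N)))))))) (K a202 (M a197 (F (T t652 (L l73 (L l325 (L l339 (T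 t97 (T t872 N)))))))) N))))))))))) (K a155 (M a103 (L l236 (F (T t112 (L l39 (L l506 (L l514 (T t871 (T t872 (K a197 (M a202 (F (T t652 (L l73 (L l325 (L l339 (T t97 (T t872 N)))))))) (K a202 (M a197 (F (T t652 (L l73 (L l325 (L l339 (T t97 (T t872 N)))))))) N))))))))))) N)))))))))))))) (K a197 (M a202 (L l489 (L l511 (F (T t652 (L l73 (L l325 (L l339 (T t97 (T t872 (K a145 (M a98 (L l511 (F (T t652 (L l73 (L l325 (L l339 (T t97 (T t872 (K a103 (M a155 (F (T t652 (L l73 (L l325 (L l339 (T t97 (T t872 N)))))))) (K a155 (M a103 (F (T t652 (L l73 (L l325 (L l339 (T t97 (T t872 N)))))))) N))))))))))) (K a98 (M a145 (L l511 (F (T t652 (L l73 (L l325 (L l339 (T t97 (T t872 (K a103 (M a155 (F (T t652 (L l73 (L l325 (L l339 (T t97 (T t872 N)))))))) (K a155 (M a103 (F (T t652 (L l73 (L l325 (L l339 (T t97 (T t872 N)))))))) N))))))))))) (K a103 (M a155 (L l489 (F (T t652 (L l73 (L l325 (L l339 (T t97 (T t872 (K a145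 (M a98 (F (T t652 (L l73 (L l325 (L l339 (T t97 (T t872 N)))))))) (K a98 (M a145 (F (T t652 (L l73 (L l325 (L l339 (T t97 (T t872 N)))))))) N))))))))))) (K a155 (M a103 (L l489 (F (T t652 (L l73 (L l325 (L l339 (T t97 (T t872 (K a145 (M a98 (F (T t652 (L l73 (L l325 (L l339 (T t97 (T t872 N)))))))) (K a98 (M a145 (F (T t652 (L l73 (L l325 (L l339 (T t97 (T t872 N)))))))) N))))))))))) N)))))))))))))) (K a98 (M a145 (L l236 (L l511 (F (T t112 (L l39 (L l506 (L l514 (T t871 (T t872 (K a197 (M a202 (L l511 (F (T t652 (L l73 (L l325 (L l339 (T t97 (T t872 (K a103 (M a155 (F (T t652 (L l73 (L l325 (L l339 (T t97 (T t872 N)))))))) (K a155 (M a103 (F (T t652 (L l73 (L l325 (L l339 (T t97 (T t872 N)))))))) N))))))))))) (K a202 (M a197 (L l511 (F (T t652 (L l73 (L l325 (L l339 (T t97 (T t872 (K a103 (M a155 (F (T t652 (L l73 (L l325 (L l339 (T t97 (T t872 N)))))))) (K a155 (M a103 (F (T t652 (L l73 (L l325 (L l339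 (T t97 (T t872 N)))))))) N))))))))))) (K a103 (M a155 (L l236 (F (T t112 (L l39 (L l506 (L l514 (T t871 (T t872 (K a197 (M a202 (F (T t652 (L l73 (L l325 (L l339 (T t97 (T t872 N)))))))) (K a202 (M a197 (F (T t652 (L l73 (L l325 (L l339 (T t97 (T t872 N)))))))) N))))))))))) (K a155 (M a103 (L l236 (F (T t112 (L l39 (L l506 (L l514 (T t871 (T t872 (K a197 (M a202 (F (T t652 (L l73 (L l325 (L l339 (T t97 (T t872 N)))))))) (K a202 (M a197 (F (T t652 (L l73 (L l325 (L l339 (T t97 (T t872 N)))))))) N))))))))))) N)))))))))))))) (K a202 (M a197 (L l489 (L l511 (F (T t652 (L l73 (L l325 (L l339 (T t97 (T t872 (K a145 (M a98 (L l511 (F (T t652 (L l73 (L l325 (L l339 (T t97 (T t872 (K a103 (M a155 (F (T t652 (L l73 (L l325 (L l339 (T t97 (T t872 N)))))))) (K a155 (M a103 (F (T t652 (L l73 (L l325 (L l339 (T t97 (T t872 N)))))))) N))))))))))) (K a98 (M a145 (L l511 (F (T t652 (L l73 (L l325 (L l339 (T t97 (T t872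 (K a103 (M a155 (F (T t652 (L l73 (L l325 (L l339 (T t97 (T t872 N)))))))) (K a155 (M a103 (F (T t652 (L l73 (L l325 (L l339 (T t97 (T t872 N)))))))) N))))))))))) (K a103 (M a155 (L l489 (F (T t652 (L l73 (L l325 (L l339 (T t97 (T t872 (K a145 (M a98 (F (T t652 (L l73 (L l325 (L l339 (T t97 (T t872 N)))))))) (K a98 (M a145 (F (T t652 (L l73 (L l325 (L l339 (T t97 (T t872 N)))))))) N))))))))))) (K a155 (M a103 (L l489 (F (T t652 (L l73 (L l325 (L l339 (T t97 (T t872 (K a145 (M a98 (F (T t652 (L l73 (L l325 (L l339 (T t97 (T t872 N)))))))) (K a98 (M a145 (F (T t652 (L l73 (L l325 (L l339 (T t97 (T t872 N)))))))) N))))))))))) N)))))))))))))) (K a103 (M a155 (L l236 (L l489 (F (T t112 (L l39 (L l506 (L l514 (T t871 (T t872 (K a145 (M a98 (L l236 (F (T t112 (L l39 (L l506 (L l514 (T t871 (T t872 (K a197 (M a202 (F (T t652 (L l73 (L l325 (L l339 (T t97 (T t872 N)))))))) (K a202 (M a197 (F (T t652 (L l73 (L l325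 (L l339 (T t97 (T t872 N)))))))) N))))))))))) (K a197 (M a202 (L l489 (F (T t652 (L l73 (L l325 (L l339 (T t97 (T t872 (K a145 (M a98 (F (T t652 (L l73 (L l325 (L l339 (T t97 (T t872 N)))))))) (K a98 (M a145 (F (T t652 (L l73 (L l325 (L l339 (T t97 (T t872 N)))))))) N))))))))))) (K a98 (M a145 (L l236 (F (T t112 (L l39 (L l506 (L l514 (T t871 (T t872 (K a197 (M a202 (F (T t652 (L l73 (L l325 (L l339 (T t97 (T t872 N)))))))) (K a202 (M a197 (F (T t652 (L l73 (L l325 (L l339 (T t97 (T t872 N)))))))) N))))))))))) (K a202 (M a197 (L l489 (F (T t652 (L l73 (L l325 (L l339 (T t97 (T t872 (K a145 (M a98 (F (T t652 (L l73 (L l325 (L l339 (T t97 (T t872 N)))))))) (K a98 (M a145 (F (T t652 (L l73 (L l325 (L l339 (T t97 (T t872 N)))))))) N))))))))))) N)))))))))))))) (K a155 (M a103 (L l236 (L l489 (F (T t112 (L l39 (L l506 (L l514 (T t871 (T t872 (K a145 (M a98 (L l236 (F (T t112 (L l39 (L l506 (L l514 (T t871 (T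 t872 (K a197 (M a202 (F (T t652 (L l73 (L l325 (L l339 (T t97 (T t872 N)))))))) (K a202 (M a197 (F (T t652 (L l73 (L l325 (L l339 (T t97 (T t872 N)))))))) N))))))))))) (K a197 (M a202 (L l489 (F (T t652 (L l73 (L l325 (L l339 (T t97 (T t872 (K a145 (M a98 (F (T t652 (L l73 (L l325 (L l339 (T t97 (T t872 N)))))))) (K a98 (M a145 (F (T t652 (L l73 (L l325 (L l339 (T t97 (T t872 N)))))))) N))))))))))) (K a98 (M a145 (L l236 (F (T t112 (L l39 (L l506 (L l514 (T t871 (T t872 (K a197 (M a202 (F (T t652 (L l73 (L l325 (L l339 (T t97 (T t872 N)))))))) (K a202 (M a197 (F (T t652 (L l73 (L l325 (L l339 (T t97 (T t872 N)))))))) N))))))))))) (K a202 (M a197 (L l489 (F (T t652 (L l73 (L l325 (L l339 (T t97 (T t872 (K a145 (M a98 (F (T t652 (L l73 (L l325 (L l339 (T t97 (T t872 N)))))))) (K a98 (M a145 (F (T t652 (L l73 (L l325 (L l339 (T t97 (T t872 N)))))))) N))))))))))) N)))))))))))))) N))))))))))))))))) (K a197 (M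 a202 (F (T t150 (L l489 (L l511 (T t122 (L l489 (L l511 (T t151 (L l489 (L l511 (T t152 (L l489 (L l511 (T t153 (K a4 (M a170 (F (L l458 (T t4159 (L l1 (L l50 (L l303 (L l311 (T t5394 N))))))))) (K a8 (M a60 (F (T t570 (L l56 (L l309 (L l331 (T t69 (T t1096 N)))))))) (K a21 (M a136 (F (L l15 (T t5395 (L l50 (L l233 (L l331 (T t5396 N)))))))) (K a25 (M a136 (F (L l15 (T t5395 (L l233 (L l331 (T t5396 N))))))) (K a29 (M a10 (F (T t2421 (L l15 (L l296 (L l512 (T t5397 N))))))) (K a38 (M a136 (F (T t5395 (L l50 (L l233 (L l331 (T t5396 N))))))) (K a42 (M a136 (F (T t5395 (L l233 (L l331 (T t5396 N)))))) (K a46 (M a10 (F (T t2421 (L l296 (L l512 (T t5397 N)))))) (K a51 (M a136 (L l489 (L l511 (F (T t5395 (L l233 (L l331 (T t5396 (K a145 (M a98 (L l511 (F (L l167 (T t5395 (L l233 (L l331 (T t5396 (K a103 (M a155 (F (L l167 (T t5395 (L l233 (L l331 (T t5396 N))))))) (K a155 (M a103 (F (L l167 (T t5395 (L l207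 (L l233 (L l331 (T t5396 N)))))))) N)))))))))) (K a98 (M a145 (L l511 (F (T t5395 (L l233 (L l331 (T t5396 (K a103 (M a155 (F (T t5395 (L l233 (L l331 (T t5396 N)))))) (K a155 (M a103 (F (T t5395 (L l207 (L l233 (L l331 (T t5396 N))))))) N))))))))) (K a103 (M a155 (L l489 (F (T t5395 (L l233 (L l331 (T t5396 (K a145 (M a98 (F (L l167 (T t5395 (L l233 (L l331 (T t5396 N))))))) (K a98 (M a145 (F (T t5395 (L l233 (L l331 (T t5396 N)))))) N))))))))) (K a155 (M a103 (L l489 (F (T t5395 (L l207 (L l233 (L l331 (T t5396 (K a145 (M a98 (F (L l167 (T t5395 (L l207 (L l233 (L l331 (T t5396 N)))))))) (K a98 (M a145 (F (T t5395 (L l207 (L l233 (L l331 (T t5396 N))))))) N)))))))))) N)))))))))))) N)))))))))))))))))))))))) (K a202 (M a197 (F (T t150 (L l489 (L l511 (T t122 (L l489 (L l511 (T t151 (L l489 (L l511 (T t152 (L l489 (L l511 (T t153 (K a4 (M a60 (F (T t662 (L l325 (L l339 (T t680 (L l46 (L l50 (T t1096 N)))))))))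 (K a8 (M a85 (F (L l464 (T t571 (L l2 (L l56 (L l303 (L l318 (T t5811 N))))))))) (K a21 (M a68 (F (T t2173 (L l47 (L l234 (T t5812 N)))))) (K a25 (M a68 (F (T t2173 (L l56 (L l234 (T t5812 N)))))) (K a29 (M a5 (F (T t1428 (L l296 (L l512 (T t5810 N)))))) (K a38 (M a68 (F (L l26 (T t2173 (L l234 (T t5812 N)))))) (K a42 (M a68 (F (L l26 (T t2173 (L l56 (L l234 (T t5812 N))))))) (K a46 (M a5 (F (T t1428 (L l26 (L l296 (L l512 (T t5810 N))))))) (K a51 (M a68 (L l489 (L l511 (F (T t2173 (L l234 (T t5812 (K a145 (M a98 (L l511 (F (T t2173 (L l234 (T t5812 (K a103 (M a155 (F (T t2173 (L l234 (T t5812 N))))) (K a155 (M a103 (F (T t2173 (L l234 (T t5812 N))))) N)))))))) (K a98 (M a145 (L l511 (F (L l102 (T t2173 (L l234 (T t5812 (K a103 (M a155 (F (L l102 (T t2173 (L l234 (T t5812 N)))))) (K a155 (M a103 (F (L l102 (T t2173 (L l234 (T t5812 N)))))) N))))))))) (K a103 (M a155 (L l489 (F (T t2173 (L l234 (T t5812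 (K a145 (M a98 (F (T t2173 (L l234 (T t5812 N))))) (K a98 (M a145 (F (L l102 (T t2173 (L l234 (T t5812 N)))))) N)))))))) (K a155 (M a103 (L l489 (F (T t2173 (L l234 (T t5812 (K a145 (M a98 (F (T t2173 (L l234 (T t5812 N))))) (K a98 (M a145 (F (L l102 (T t2173 (L l234 (T t5812 N)))))) N)))))))) N))))))))))) N)))))))))))))))))))))))) N)))))))))))))))))))))))))))⟩
def e0_63__192_65 : Ent 4 := ⟨[a0, a63], [a192, a213], (M a48 (L l296 (F (T t132 (L l339 (L l347 (T t1 (L l339 (T t2 (L l339 (L l347 (T t3 (L l339 (T t0 (K a16 (M a60 (L l296 (F (T t138 (L l14 (L l18 (L l309 (L l347 (T t67 (T t65 (K a234 (M a255 (F (T t557 (L l14 (L l228 (L l250 (L l347 (L l368 (T t1634 N))))))))) (K a255 (M a234 (F (T t662 (L l439 (L l489 (T t451 (L l14 (L l18 (L l347 (T t44 N)))))))))) N)))))))))))) (K a32 (M a60 (L l296 (F (T t236 (L l309 (L l347 (T t67 (L l24 (L l28 (T t65 (K a234 (M a255 (F (T t236 (L l228 (L l250 (L l347 (T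 t1634 N))))))) (K a255 (M a234 (F (T t138 (L l28 (L l309 (L l475 (T t69 (L l347 (T t44 N))))))))) N)))))))))))) (K a21 (M a255 (L l347 (F (T t3576 (L l268 (L l275 (T t1160 (L l47 (L l236 (L l246 (T t548 (K a85 (M a149 (F (T t4430 (L l18 (L l236 (L l275 (L l368 (T t8721 (L l123 (L l144 (T t8722 N))))))))))) (K a149 (Fr a85 a170 l476 (V t8723)) N))))))))))))) (K a37 (M a255 (F (T t4430 (L l236 (L l347 (T t547 (L l28 (L l47 (L l236 (L l246 (T t548 N))))))))))) (K a53 (M a12 (L l296 (F (T t145 (L l47 (L l347 (L l489 (T t122 (L l47 (L l347 (T t146 (K a234 (M a255 (F (T t145 (L l232 (L l243 (T t2034 N)))))) (K a255 (M a234 (F (T t865 (L l47 (L l347 (L l439 (L l489 (T t122 (L l47 (L l347 (T t146 N))))))))))) N))))))))))))) (K a26 (M a255 (F (T t3576 (L l54 (L l268 (L l275 (T t1160 (L l236 (L l246 (T t548 N)))))))))) (K a42 (M a255 (F (T t557 (L l236 (L l347 (T t547 (L l28 (L l236 (L l246 (L l390 (T t548 N)))))))))))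 (K a58 (M a12 (L l296 (F (T t3475 (L l347 (L l489 (T t122 (L l347 (T t146 (K a234 (M a255 (F (T t145 (L l232 (L l243 (T t2034 N)))))) (K a255 (M a234 (F (T t145 (L l347 (L l439 (L l489 (T t122 (L l347 (T t146 N))))))))) N))))))))))) (K a15 (M a255 (L l339 (F (T t3576 (L l268 (L l275 (L l483 (T t1160 (L l236 (L l246 (T t548 (K a133 (M a74 (F (T t557 (L l236 (L l311 (L l325 (T t1162 (L l236 (L l246 (T t548 N)))))))))) (K a74 (M a133 (F (T t557 (L l84 (L l236 (L l325 (T t1162 (L l236 (L l246 (L l318 (T t548 N))))))))))) N))))))))))))) (K a234 (M a255 (F (T t557 (L l339 (L l347 (T t1 (L l236 (L l347 (T t547 N))))))))) (K a255 (M a234 (F (T t132 (L l236 (L l268 (L l339 (L l347 (L l469 (T t8724 (L l266 (L l289 (L l339 (L l347 (L l469 (T t8725 (L l339 (L l469 (T t2 (L l339 (L l469 (T t0 (K a32 (M a60 (F (T t138 (L l28 (L l309 (L l475 (T t69 (L l347 (T t44 N))))))))) (K a21 (M a60 (L l347 (F (T t138 (L l11 (L l334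 (L l470 (T t489 (L l11 (L l18 (L l47 (L l65 (L l334 (L l470 (T t288 (L l50 (L l334 (L l470 (T t250 (K a85 (M a149 (F (T t1543 (L l228 (L l236 (L l275 (L l293 (T t8674 N)))))))) (K a149 (M a85 (F (T t138 (L l239 (L l246 (L l289 (L l295 (T t8376 N)))))))) N))))))))))))))))))))) (K a37 (M a52 (F (T t555 (L l334 (L l470 (T t82 (L l21 (L l28 (T t84 N))))))))) (K a26 (M a56 (F (T t556 (L l334 (L l470 (T t133 (L l12 (L l18 (L l347 (T t135 N)))))))))) (K a42 (M a60 (F (T t3520 (L l54 (L l439 (L l489 (T t451 (L l56 (L l334 (L l470 (T t288 (L l22 (L l28 (L l54 (L l66 (L l334 (L l470 (T t250 N)))))))))))))))))) (K a58 (M a12 (F (T t145 (L l347 (L l439 (L l489 (T t122 (L l347 (T t146 N))))))))) (K a15 (M a20 (L l339 (L l469 (F (T t183 (L l7 (L l309 (L l475 (T t238 (L l73 (T t5907 (K a133 (M a74 (L l469 (F (T t183 (L l347 (T t8726 (K a95 (M a175 (F (T t183 (L l347 (T t8726 N))))) (K a175 (M a95 (F (T t183 (L l180 (L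 l347 (T t8726 N)))))) N)))))))) (K a74 (M a133 (L l469 (F (T t183 (L l7 (L l309 (L l475 (T t238 (L l73 (T t5907 (K a95 (M a175 (F (T t5909 (L l130 (L l347 (T t8727 N)))))) (K a175 (M a95 (F (T t183 (L l7 (L l309 (L l475 (T t238 (L l73 (T t5898 N))))))))) N)))))))))))) (K a95 (M a175 (L l339 (F (T t5909 (L l347 (T t8727 (K a133 (M a74 (F (T t183 (L l347 (T t8726 N))))) (K a74 (M a133 (F (T t5909 (L l130 (L l347 (T t8727 N)))))) N)))))))) (K a175 (M a95 (L l339 (F (T t183 (L l7 (L l309 (L l475 (T t238 (L l73 (T t5898 (K a133 (M a74 (F (T t183 (L l180 (L l347 (T t8726 N)))))) (K a74 (M a133 (F (T t183 (L l7 (L l309 (L l475 (T t238 (L l73 (T t5898 N))))))))) N)))))))))))) N))))))))))))))) N)))))))))))))))))))))))))))) N)))))))))))))))))))))))))⟩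
def e0_63__192_66 : Ent 4 := ⟨[a0, a63], [a192, a214], (M a48 (F (T t48 (L l339 (T t1 (L l339 (T t2 (L l339 (T t3 (L l339 (T t0 (K a16 (M a60 (F (T t138 (L l14 (L l18 (L l309 (T t67 (T t65 N)))))))) (K a32 (M a60 (F (T t138 (L l309 (T t67 (L l24 (L l28 (T t65 N)))))))) (K a21 (M a255 (F (T t554 (L l236 (L l347 (T t547 (L l47 (L l236 (T t548 N))))))))) (K a37 (M a52 (F (T t555 (L l334 (T t82 (L l21 (L l28 (T t84 N)))))))) (K a53 (M a12 (F (T t145 (L l47 (L l489 (T t122 (L l47 (T t146 N)))))))) (K a26 (M a56 (F (T t556 (L l334 (T t133 (L l12 (L l18 (T t135 N)))))))) (K a42 (M a255 (F (T t1260 (L l54 (L l268 (T t1160 (L l28 (L l236 (L l390 (T t548 N)))))))))) (K a58 (M a12 (F (T t145 (L l489 (T t122 (T t146 N)))))) (K a15 (M a4 (L l339 (F (T t129 (L l63 (L l514 (T t528 (T t520 (K a133 (M a74 (F (T t558 (L l73 (L l489 (T t519 (T t520 N))))))) (K a74 (M a133 (F (T t558 (L l73 (L l489 (T t519 (T t520 N)))))))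 N)))))))))) N))))))))))))))))))))⟩
def e0_63__192_67 : Ent 4 := ⟨[a0, a63], [a192, a215], (M a48 (F (T t48 (L l339 (T t1 (L l339 (T t2 (L l339 (T t3 (L l339 (T t0 (K a16 (M a60 (F (T t138 (L l14 (L l18 (L l309 (L l350 (T t67 (L l349 (T t65 N)))))))))) (K a32 (M a60 (F (T t236 (L l309 (L l350 (T t67 (L l24 (L l28 (L l349 (T t65 N)))))))))) (K a21 (M a255 (F (T t3576 (L l268 (T t1160 (L l47 (L l236 (L l245 (T t548 N))))))))) (K a37 (M a52 (F (T t555 (L l334 (T t82 (L l21 (L l28 (L l350 (T t84 N))))))))) (K a53 (M a12 (F (T t145 (L l47 (L l489 (T t122 (L l47 (T t146 N)))))))) (K a26 (M a56 (F (T t556 (L l334 (L l350 (T t133 (L l12 (L l18 (T t135 N))))))))) (K a42 (M a255 (F (T t557 (L l236 (L l350 (T t547 (L l28 (L l236 (L l245 (L l390 (T t548 N))))))))))) (K a58 (M a12 (F (T t145 (L l489 (T t122 (T t146 N)))))) (K a15 (M a4 (L l339 (F (T t129 (L l63 (L l514 (T t528 (T t520 (K a133 (M a74 (F (T t558 (L l73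 (L l489 (T t519 (T t520 N))))))) (K a74 (M a133 (F (T t558 (L l73 (L l489 (T t519 (T t520 N))))))) N)))))))))) N))))))))))))))))))))⟩
def e0_63__192_68 : Ent 4 := ⟨[a0, a63], [a192, a218], (M a12 (F (T t150 (L l489 (T t122 (L l489 (T t151 (L l489 (T t152 (L l489 (T t153 (K a4 (M a60 (F (T t570 (L l46 (L l50 (L l309 (T t67 (T t448 N)))))))) (K a8 (M a60 (F (T t570 (L l309 (T t67 (L l52 (L l56 (T t448 N)))))))) (K a21 (M a255 (F (T t2030 (L l272 (L l347 (T t2031 (L l15 (L l272 (T t2032 N))))))))) (K a25 (M a48 (F (T t865 (L l15 (L l339 (T t1 (L l12 (L l56 (T t866 N))))))))) (K a29 (M a48 (F (T t145 (L l15 (L l339 (T t1 (T t866 N))))))) (K a38 (M a48 (F (T t867 (L l26 (L l339 (T t2 (L l21 (L l50 (T t868 N))))))))) (K a42 (M a255 (F (T t2033 (L l26 (L l232 (T t2034 (L l56 (L l272 (L l390 (T t2032 N)))))))))) (K a46 (M a48 (F (T t48 (L l514 (T t443 (L l26 (T t866 N))))))) (K a51 (M a16 (L l489 (F (T t112 (L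 l39 (L l514 (T t871 (L l354 (T t872 (K a145 (M a98 (F (T t112 (L l39 (L l514 (T t871 (L l354 (T t872 N)))))))) (K a98 (M a145 (F (T t112 (L l39 (L l514 (T t871 (L l354 (T t872 N)))))))) N))))))))))) N))))))))))))))))))))⟩
def e0_63__192_69 : Ent 4 := ⟨[a0, a63], [a192, a219], (M a48 (F (T t48 (L l339 (T t1 (L l339 (T t2 (L l339 (T t3 (L l339 (T t0 (K a16 (M a60 (F (T t138 (L l14 (L l18 (L l309 (T t67 (T t65 N)))))))) (K a32 (M a60 (F (T t138 (L l309 (T t67 (L l24 (L l28 (T t65 N)))))))) (K a21 (M a255 (F (T t3576 (L l268 (T t1160 (L l47 (L l236 (L l245 (T t548 N))))))))) (K a37 (M a52 (F (T t555 (L l334 (T t82 (L l21 (L l28 (T t84 N)))))))) (K a53 (M a12 (F (T t3475 (L l47 (L l489 (T t122 (L l47 (L l356 (T t146 N))))))))) (K a26 (M a56 (F (T t556 (L l334 (T t133 (L l12 (L l18 (T t135 N)))))))) (K a42 (M a255 (F (T t1260 (L l54 (L l268 (T t1160 (L l28 (L l236 (L l245 (L l390 (T t548 N))))))))))) (K a58 (M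 a12 (F (T t3475 (L l489 (T t122 (L l356 (T t146 N))))))) (K a15 (M a4 (L l339 (F (T t129 (L l63 (L l356 (L l514 (T t528 (T t520 (K a133 (M a74 (F (T t1604 (L l63 (L l356 (L l514 (T t528 (T t520 N)))))))) (K a74 (M a133 (F (T t1604 (L l63 (L l356 (L l514 (T t528 (T t520 N)))))))) N))))))))))) N))))))))))))))))))))⟩
def e0_63__192_70 : Ent 4 := ⟨[a0, a63], [a192, a223], (M a12 (F (T t150 (L l489 (T t122 (L l489 (T t151 (L l489 (T t152 (L l489 (T t153 (K a4 (M a60 (F (T t570 (L l46 (L l50 (L l309 (T t67 (T t448 N)))))))) (K a8 (M a60 (F (T t116 (L l339 (T t398 (L l52 (L l56 (T t448 N)))))))) (K a21 (M a255 (F (T t2126 (L l232 (L l241 (T t2034 (L l15 (L l272 (T t2032 N))))))))) (K a25 (M a48 (F (T t865 (L l15 (L l339 (T t1 (L l12 (L l56 (T t866 N))))))))) (K a29 (M a48 (F (T t865 (L l15 (L l339 (T t1 (T t866 N))))))) (K a38 (M a48 (F (L l514 (T t1580 (L l26 (L l339 (T t2 (L l21 (L l50 (T t868 N)))))))))) (K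 a42 (M a255 (F (L l232 (T t2486 (L l272 (L l362 (L l368 (T t2031 (L l56 (L l272 (L l390 (T t2032 N)))))))))))) (K a46 (M a48 (F (T t865 (L l339 (T t1 (L l26 (T t866 N))))))) (K a51 (M a16 (L l489 (F (T t112 (L l39 (L l362 (L l514 (T t871 (T t872 (K a145 (M a98 (F (T t112 (L l39 (L l362 (L l514 (T t871 (T t872 N)))))))) (K a98 (M a145 (F (T t112 (L l39 (L l362 (L l514 (T t871 (T t872 N)))))))) N))))))))))) N))))))))))))))))))))⟩
def e0_63__192_71 : Ent 4 := ⟨[a0, a63], [a192, a234], (M a48 (L l296 (F (T t48 (L l339 (T t1 (L l339 (L l390 (T t2 (L l339 (T t3 (L l339 (L l390 (T t0 (K a16 (M a60 (L l296 (F (T t138 (L l14 (L l18 (L l309 (T t67 (L l390 (T t65 (K a213 (M a255 (F (T t557 (L l14 (L l228 (L l250 (L l347 (L l368 (T t1634 N))))))))) (K a255 (M a213 (F (T t236 (L l309 (L l390 (L l475 (T t69 (L l14 (L l18 (T t44 N)))))))))) N)))))))))))) (K a32 (M a60 (L l296 (F (T t116 (L l489 (T t64 (L l24 (L l28 (L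 l390 (T t65 (K a213 (M a255 (F (T t236 (L l228 (L l250 (L l347 (T t1634 N))))))) (K a255 (M a213 (F (T t116 (L l439 (L l489 (T t451 (T t44 N))))))) N)))))))))))) (K a21 (M a255 (F (T t554 (L l236 (L l347 (T t547 (L l47 (L l236 (L l282 (L l390 (T t548 N))))))))))) (K a37 (M a255 (F (T t554 (L l236 (T t547 (L l28 (L l47 (L l236 (L l282 (L l390 (T t548 N))))))))))) (K a53 (M a12 (L l296 (F (T t145 (L l47 (L l489 (T t122 (L l47 (T t146 (K a213 (M a255 (F (T t145 (L l232 (L l243 (T t2034 N)))))) (K a255 (M a213 (F (T t865 (L l47 (L l439 (L l489 (T t122 (L l47 (T t146 N))))))))) N))))))))))) (K a26 (M a255 (F (T t557 (L l236 (T t547 (L l236 (L l282 (L l390 (T t548 N))))))))) (K a42 (M a255 (L l390 (F (T t1260 (L l54 (L l268 (T t1160 (L l54 (L l236 (T t3730 (K a106 (Fr a170 a85 l476 (V t8728)) (K a170 (M a106 (F (T t557 (L l28 (L l236 (L l282 (L l404 (T t8729 (L l206 (L l220 (T t8730 N))))))))))) N))))))))))))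 (K a58 (M a12 (L l296 (F (T t145 (L l489 (T t122 (T t146 (K a213 (M a255 (F (T t145 (L l232 (L l243 (T t2034 N)))))) (K a255 (M a213 (F (T t150 (L l434 (L l514 (T t445 (T t146 N))))))) N))))))))) (K a15 (M a255 (L l339 (F (T t1260 (L l268 (L l483 (T t1160 (L l236 (L l282 (L l390 (T t548 (K a133 (M a74 (F (T t557 (L l236 (L l311 (L l325 (L l390 (T t1162 (L l236 (L l282 (L l390 (T t548 N)))))))))))) (K a74 (M a133 (F (T t557 (L l84 (L l236 (L l325 (L l390 (T t1162 (L l236 (L l282 (L l318 (L l390 (T t548 N))))))))))))) N))))))))))))) (K a213 (M a255 (F (T t557 (L l339 (L l347 (T t1 (L l236 (L l347 (T t547 N))))))))) (K a255 (M a213 (F (T t48 (L l236 (L l268 (L l339 (L l390 (L l469 (T t8731 (L l266 (L l289 (L l339 (L l390 (L l469 (T t8732 (L l339 (L l469 (T t1 (L l339 (L l469 (T t3 (K a16 (M a60 (F (T t236 (L l309 (L l390 (L l475 (T t69 (L l14 (L l18 (T t44 N)))))))))) (K a21 (M a60 (F (T t138 (L l11 (L l334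 (L l470 (T t489 (L l11 (L l18 (L l47 (L l65 (L l334 (L l470 (T t288 (L l50 (L l334 (L l470 (T t250 N)))))))))))))))))) (K a37 (M a52 (F (T t555 (L l334 (L l470 (T t82 (L l21 (L l28 (L l390 (T t84 N)))))))))) (K a53 (M a12 (F (T t865 (L l47 (L l439 (L l489 (T t122 (L l47 (T t146 N))))))))) (K a26 (M a56 (F (T t556 (L l334 (L l470 (T t133 (L l12 (L l18 (T t135 N))))))))) (K a42 (M a60 (L l390 (F (T t3520 (L l54 (L l439 (L l489 (T t451 (L l56 (L l334 (L l470 (T t288 (L l22 (L l28 (L l54 (L l66 (L l334 (L l470 (T t250 (K a106 (M a170 (F (T t236 (L l250 (L l256 (L l289 (L l295 (T t8370 N)))))))) (K a170 (M a106 (F (T t3520 (L l228 (L l236 (L l282 (L l294 (T t8363 N)))))))) N))))))))))))))))))))) (K a15 (M a40 (L l339 (L l469 (F (T t7195 (L l7 (L l309 (L l475 (T t270 (L l73 (T t8733 (K a133 (M a74 (L l469 (F (T t7195 (L l7 (L l309 (L l475 (T t270 (L l73 (T t8733 (K a95 (M a175 (F (T t7195 (L l7 (L l309 (L l475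 (T t270 (L l73 (T t8734 N))))))))) (K a175 (M a95 (F (T t8735 (L l199 (L l390 (T t8736 N)))))) N)))))))))))) (K a74 (M a133 (L l469 (F (T t7195 (L l390 (T t8737 (K a95 (M a175 (F (T t7195 (L l94 (L l390 (T t8737 N)))))) (K a175 (M a95 (F (T t7195 (L l390 (T t8737 N))))) N)))))))) (K a95 (M a175 (L l339 (F (T t7195 (L l7 (L l309 (L l475 (T t270 (L l73 (T t8734 (K a133 (M a74 (F (T t7195 (L l7 (L l309 (L l475 (T t270 (L l73 (T t8734 N))))))))) (K a74 (M a133 (F (T t7195 (L l94 (L l390 (T t8737 N)))))) N)))))))))))) (K a175 (M a95 (L l339 (F (T t8735 (L l390 (T t8736 (K a133 (M a74 (F (T t8735 (L l199 (L l390 (T t8736 N)))))) (K a74 (M a133 (F (T t7195 (L l390 (T t8737 N))))) N)))))))) N))))))))))))))) N)))))))))))))))))))))))))))) N)))))))))))))))))))))))))⟩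
def e0_63__192_72 : Ent 4 := ⟨[a0, a63], [a192, a235], (M a48 (F (T t48 (L l339 (T t1 (L l339 (T t2 (L l339 (T t3 (L l339 (T t0 (K a16 (M a60 (F (T t236 (L l14 (L l18 (L l309 (L l391 (T t67 (L l392 (T t65 N)))))))))) (K a32 (M a60 (F (T t2568 (L l489 (T t64 (L l24 (L l28 (L l392 (T t65 N))))))))) (K a21 (M a255 (F (T t554 (L l236 (L l347 (T t547 (L l47 (L l236 (L l392 (T t548 N)))))))))) (K a37 (M a52 (F (T t555 (L l334 (L l392 (T t82 (L l21 (L l28 (T t84 N))))))))) (K a53 (M a12 (F (T t145 (L l47 (L l489 (T t122 (L l47 (T t146 N)))))))) (K a26 (M a56 (F (T t556 (L l334 (T t133 (L l12 (L l18 (L l392 (T t135 N))))))))) (K a42 (M a255 (F (T t1260 (L l54 (L l268 (T t1160 (L l28 (L l236 (L l390 (L l392 (T t548 N))))))))))) (K a58 (M a12 (F (T t145 (L l489 (T t122 (T t146 N)))))) (K a15 (M a4 (L l339 (F (T t129 (L l63 (L l514 (T t528 (T t520 (K a133 (M a74 (F (T t558 (L l73 (L l489 (T t519 (T t520 N))))))) (K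 a74 (M a133 (F (T t558 (L l73 (L l489 (T t519 (T t520 N))))))) N)))))))))) N))))))))))))))))))))⟩
def e0_63__192_73 : Ent 4 := ⟨[a0, a63], [a192, a239], (M a12 (F (T t150 (L l489 (T t122 (L l489 (T t151 (L l489 (T t152 (L l489 (T t153 (K a4 (M a60 (F (T t522 (L l339 (T t398 (T t448 N)))))) (K a8 (M a60 (F (T t116 (L l339 (T t398 (L l52 (L l56 (T t448 N)))))))) (K a21 (M a255 (F (L l232 (T t2124 (L l272 (L l347 (T t2031 (L l15 (L l272 (L l404 (T t2032 N))))))))))) (K a25 (M a48 (F (L l514 (T t550 (L l15 (L l339 (T t1 (L l12 (L l56 (T t866 N)))))))))) (K a29 (M a48 (F (T t867 (L l15 (L l339 (T t1 (T t866 N))))))) (K a38 (M a48 (F (T t867 (L l26 (L l339 (T t2 (L l21 (L l50 (T t868 N))))))))) (K a42 (M a255 (F (T t2033 (L l26 (L l232 (L l398 (T t2034 (L l56 (L l272 (L l390 (L l404 (T t2032 N)))))))))))) (K a46 (M a48 (F (T t867 (L l339 (T t1 (L l26 (T t866 N))))))) (K a51 (M a16 (L l489 (F (L l404 (T t112 (L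 l39 (L l404 (L l514 (T t871 (T t872 (K a145 (M a98 (F (L l404 (T t112 (L l39 (L l404 (L l514 (T t871 (T t872 N))))))))) (K a98 (M a145 (F (L l404 (T t112 (L l39 (L l404 (L l514 (T t871 (T t872 N))))))))) N)))))))))))) N))))))))))))))))))))⟩
def e0_63__192_74 : Ent 4 := ⟨[a0, a63], [a192, a255], (M a48 (L l296 (F (T t48 (L l339 (L l469 (T t1 (L l339 (L l469 (T t2 (L l339 (L l469 (T t3 (L l339 (L l469 (T t0 (K a16 (M a60 (L l296 (F (T t138 (L l14 (L l18 (L l309 (L l475 (T t67 (T t65 (K a213 (M a234 (F (T t662 (L l439 (L l489 (T t451 (L l14 (L l18 (L l347 (T t44 N)))))))))) (K a234 (M a213 (F (T t236 (L l309 (L l390 (L l475 (T t69 (L l14 (L l18 (T t44 N)))))))))) N)))))))))))) (K a32 (M a60 (L l296 (F (T t116 (L l439 (L l489 (T t64 (L l24 (L l28 (T t65 (K a213 (M a234 (F (T t138 (L l28 (L l309 (L l475 (T t69 (L l347 (T t44 N))))))))) (K a234 (M a213 (F (T t116 (L l439 (L l489 (T t451 (T t44 N))))))) N))))))))))))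 (K a21 (M a60 (L l296 (F (T t1543 (L l47 (L l65 (L l439 (L l489 (T t64 (L l11 (L l18 (L l47 (L l65 (L l334 (L l470 (T t288 (L l50 (L l334 (L l470 (T t250 (K a213 (M a234 (L l347 (F (T t138 (L l11 (L l334 (L l470 (T t489 (L l11 (L l18 (L l47 (L l65 (L l334 (L l470 (T t288 (L l50 (L l334 (L l470 (T t250 (K a85 (M a149 (F (T t1543 (L l228 (L l236 (L l275 (L l293 (T t8674 N)))))))) (K a149 (M a85 (F (T t138 (L l239 (L l246 (L l289 (L l295 (T t8376 N)))))))) N))))))))))))))))))))) (K a234 (M a213 (F (T t138 (L l11 (L l334 (L l470 (T t489 (L l11 (L l18 (L l47 (L l65 (L l334 (L l470 (T t288 (L l50 (L l334 (L l470 (T t250 N)))))))))))))))))) N)))))))))))))))))))))) (K a37 (M a52 (L l296 (F (T t555 (L l334 (L l470 (T t82 (L l21 (L l28 (T t84 (K a213 (M a234 (F (T t555 (L l334 (L l470 (T t82 (L l21 (L l28 (T t84 N))))))))) (K a234 (M a213 (F (T t555 (L l334 (L l470 (T t82 (L l21 (L l28 (L l390 (T t84 N))))))))))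 N)))))))))))) (K a53 (M a12 (L l296 (F (T t145 (L l47 (L l439 (L l489 (T t122 (L l47 (T t146 (K a213 (M a234 (F (T t865 (L l47 (L l347 (L l439 (L l489 (T t122 (L l47 (L l347 (T t146 N))))))))))) (K a234 (M a213 (F (T t865 (L l47 (L l439 (L l489 (T t122 (L l47 (T t146 N))))))))) N)))))))))))) (K a26 (M a56 (L l296 (F (T t556 (L l334 (L l470 (T t133 (L l12 (L l18 (T t135 (K a213 (M a234 (F (T t556 (L l334 (L l470 (T t133 (L l12 (L l18 (L l347 (T t135 N)))))))))) (K a234 (M a213 (F (T t556 (L l334 (L l470 (T t133 (L l12 (L l18 (T t135 N))))))))) N)))))))))))) (K a42 (M a60 (L l296 (F (T t3520 (L l439 (L l489 (T t64 (L l56 (L l334 (L l470 (T t288 (L l22 (L l28 (L l54 (L l66 (L l334 (L l470 (T t250 (K a213 (M a234 (F (T t3520 (L l54 (L l439 (L l489 (T t451 (L l56 (L l334 (L l470 (T t288 (L l22 (L l28 (L l54 (L l66 (L l334 (L l470 (T t250 N)))))))))))))))))) (K a234 (M a213 (L l390 (F (T t3520 (L l54 (L l439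 (L l489 (T t451 (L l56 (L l334 (L l470 (T t288 (L l22 (L l28 (L l54 (L l66 (L l334 (L l470 (T t250 (K a106 (M a170 (F (T t236 (L l250 (L l256 (L l289 (L l295 (T t8370 N)))))))) (K a170 (M a106 (F (T t3520 (L l228 (L l236 (L l282 (L l294 (T t8363 N)))))))) N))))))))))))))))))))) N)))))))))))))))))))) (K a58 (M a12 (L l296 (F (T t145 (L l439 (L l489 (T t122 (T t146 (K a213 (M a234 (F (T t145 (L l347 (L l439 (L l489 (T t122 (L l347 (T t146 N))))))))) (K a234 (M a213 (F (T t150 (L l434 (L l514 (T t445 (T t146 N))))))) N)))))))))) (K a15 (M a24 (L l296 (L l339 (L l469 (F (T t6277 (L l73 (L l439 (L l489 (T t6275 (L l73 (T t8738 (K a133 (M a74 (L l296 (L l469 (F (T t6277 (L l73 (L l439 (L l489 (T t6275 (L l73 (T t8738 (K a213 (M a234 (L l469 (F (T t6277 (L l347 (T t8726 (K a95 (M a175 (F (T t6277 (L l347 (T t8726 N))))) (K a175 (M a95 (F (T t6277 (L l180 (L l347 (T t8726 N)))))) N)))))))) (K a234 (M a213 (L l469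 (F (T t6277 (L l73 (L l439 (L l489 (T t6275 (L l73 (L l390 (T t8738 (K a95 (M a175 (F (T t6277 (L l73 (L l439 (L l489 (T t6275 (L l73 (L l361 (L l390 (T t8738 N))))))))))) (K a175 (M a95 (F (T t6277 (L l199 (L l390 (T t8739 (L l73 (L l439 (L l489 (T t6275 N)))))))))) N))))))))))))) (K a95 (M a175 (L l296 (F (T t6277 (L l73 (L l439 (L l489 (T t6275 (L l73 (L l361 (T t8738 (K a213 (M a234 (F (T t6277 (L l347 (T t8726 N))))) (K a234 (M a213 (F (T t6277 (L l73 (L l439 (L l489 (T t6275 (L l73 (L l361 (L l390 (T t8738 N))))))))))) N))))))))))))) (K a175 (M a95 (L l296 (F (T t6277 (L l213 (T t8740 (L l73 (L l439 (L l489 (T t6275 (K a213 (M a234 (F (T t6277 (L l180 (L l347 (T t8726 N)))))) (K a234 (M a213 (F (T t6277 (L l199 (L l390 (T t8739 (L l73 (L l439 (L l489 (T t6275 N)))))))))) N)))))))))))) N))))))))))))))) (K a213 (M a234 (L l339 (L l469 (F (T t6277 (L l73 (L l347 (L l439 (L l489 (T t6275 (L l73 (T t8738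 (K a133 (M a74 (L l469 (F (T t6277 (L l347 (T t8726 (K a95 (M a175 (F (T t6277 (L l347 (T t8726 N))))) (K a175 (M a95 (F (T t6277 (L l180 (L l347 (T t8726 N)))))) N)))))))) (K a74 (M a133 (L l469 (F (T t6277 (L l73 (L l347 (L l439 (L l489 (T t6275 (L l73 (T t8738 (K a95 (M a175 (F (T t6277 (L l130 (L l347 (T t8727 (L l73 (L l347 (L l439 (L l489 (T t6275 N))))))))))) (K a175 (M a95 (F (T t6277 (L l73 (L l347 (L l439 (L l489 (T t6275 (L l73 (T t8738 N)))))))))) N))))))))))))) (K a95 (M a175 (L l339 (F (T t6277 (L l347 (T t8727 (L l73 (L l347 (L l439 (L l489 (T t6275 (K a133 (M a74 (F (T t6277 (L l347 (T t8726 N))))) (K a74 (M a133 (F (T t6277 (L l130 (L l347 (T t8727 (L l73 (L l347 (L l439 (L l489 (T t6275 N))))))))))) N))))))))))))) (K a175 (M a95 (L l339 (F (T t6277 (L l73 (L l347 (L l439 (L l489 (T t6275 (L l73 (T t8738 (K a133 (M a74 (F (T t6277 (L l180 (L l347 (T t8726 N)))))) (K a74 (M a133 (F (T t6277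 (L l73 (L l347 (L l439 (L l489 (T t6275 (L l73 (T t8738 N)))))))))) N))))))))))))) N)))))))))))))))) (K a74 (M a133 (L l296 (L l469 (F (T t6277 (L l73 (L l439 (L l489 (T t6275 (L l73 (T t8738 (K a213 (M a234 (L l469 (F (T t6277 (L l73 (L l347 (L l439 (L l489 (T t6275 (L l73 (T t8738 (K a95 (M a175 (F (T t6277 (L l130 (L l347 (T t8727 (L l73 (L l347 (L l439 (L l489 (T t6275 N))))))))))) (K a175 (M a95 (F (T t6277 (L l73 (L l347 (L l439 (L l489 (T t6275 (L l73 (T t8738 N)))))))))) N))))))))))))) (K a234 (M a213 (L l469 (F (T t6277 (L l390 (T t8737 (K a95 (M a175 (F (T t6277 (L l94 (L l390 (T t8737 N)))))) (K a175 (M a95 (F (T t6277 (L l390 (T t8739 (L l73 (L l439 (L l489 (T t6275 N))))))))) N)))))))) (K a95 (M a175 (L l296 (F (T t6277 (L l73 (L l439 (L l489 (T t6275 (L l73 (L l361 (T t8738 (K a213 (M a234 (F (T t6277 (L l130 (L l347 (T t8727 (L l73 (L l347 (L l439 (L l489 (T t6275 N))))))))))) (K a234 (M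 a213 (F (T t6277 (L l94 (L l390 (T t8737 N)))))) N))))))))))))) (K a175 (M a95 (L l296 (F (T t6277 (L l213 (T t8740 (L l73 (L l439 (L l489 (T t6275 (K a213 (M a234 (F (T t6277 (L l73 (L l347 (L l439 (L l489 (T t6275 (L l73 (T t8738 N)))))))))) (K a234 (M a213 (F (T t6277 (L l390 (T t8739 (L l73 (L l439 (L l489 (T t6275 N))))))))) N)))))))))))) N))))))))))))))) (K a234 (M a213 (L l339 (L l469 (F (T t6277 (L l73 (L l439 (L l489 (T t6275 (L l73 (L l390 (T t8738 (K a133 (M a74 (L l469 (F (T t6277 (L l73 (L l439 (L l489 (T t6275 (L l73 (L l390 (T t8738 (K a95 (M a175 (F (T t6277 (L l73 (L l439 (L l489 (T t6275 (L l73 (L l361 (L l390 (T t8738 N))))))))))) (K a175 (M a95 (F (T t6277 (L l199 (L l390 (T t8739 (L l73 (L l439 (L l489 (T t6275 N)))))))))) N))))))))))))) (K a74 (M a133 (L l469 (F (T t6277 (L l390 (T t8737 (K a95 (M a175 (F (T t6277 (L l94 (L l390 (T t8737 N)))))) (K a175 (M a95 (F (T t6277 (L l390 (T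 t8739 (L l73 (L l439 (L l489 (T t6275 N))))))))) N)))))))) (K a95 (M a175 (L l339 (F (T t6277 (L l73 (L l439 (L l489 (T t6275 (L l73 (L l361 (L l390 (T t8738 (K a133 (M a74 (F (T t6277 (L l73 (L l439 (L l489 (T t6275 (L l73 (L l361 (L l390 (T t8738 N))))))))))) (K a74 (M a133 (F (T t6277 (L l94 (L l390 (T t8737 N)))))) N)))))))))))))) (K a175 (M a95 (L l339 (F (T t6277 (L l390 (T t8739 (L l73 (L l439 (L l489 (T t6275 (K a133 (M a74 (F (T t6277 (L l199 (L l390 (T t8739 (L l73 (L l439 (L l489 (T t6275 N)))))))))) (K a74 (M a133 (F (T t6277 (L l390 (T t8739 (L l73 (L l439 (L l489 (T t6275 N))))))))) N)))))))))))) N)))))))))))))))) (K a95 (M a175 (L l296 (L l339 (F (T t6277 (L l73 (L l439 (L l489 (T t6275 (L l73 (L l361 (T t8738 (K a133 (M a74 (L l296 (F (T t6277 (L l73 (L l439 (L l489 (T t6275 (L l73 (L l361 (T t8738 (K a213 (M a234 (F (T t6277 (L l347 (T t8726 N))))) (K a234 (M a213 (F (T t6277 (L l73 (L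 l439 (L l489 (T t6275 (L l73 (L l361 (L l390 (T t8738 N))))))))))) N))))))))))))) (K a213 (M a234 (L l339 (F (T t6277 (L l347 (T t8727 (L l73 (L l347 (L l439 (L l489 (T t6275 (K a133 (M a74 (F (T t6277 (L l347 (T t8726 N))))) (K a74 (M a133 (F (T t6277 (L l130 (L l347 (T t8727 (L l73 (L l347 (L l439 (L l489 (T t6275 N))))))))))) N))))))))))))) (K a74 (M a133 (L l296 (F (T t6277 (L l73 (L l439 (L l489 (T t6275 (L l73 (L l361 (T t8738 (K a213 (M a234 (F (T t6277 (L l130 (L l347 (T t8727 (L l73 (L l347 (L l439 (L l489 (T t6275 N))))))))))) (K a234 (M a213 (F (T t6277 (L l94 (L l390 (T t8737 N)))))) N))))))))))))) (K a234 (M a213 (L l339 (F (T t6277 (L l73 (L l439 (L l489 (T t6275 (L l73 (L l361 (L l390 (T t8738 (K a133 (M a74 (F (T t6277 (L l73 (L l439 (L l489 (T t6275 (L l73 (L l361 (L l390 (T t8738 N))))))))))) (K a74 (M a133 (F (T t6277 (L l94 (L l390 (T t8737 N)))))) N)))))))))))))) N)))))))))))))))) (K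 a175 (M a95 (L l296 (L l339 (F (T t6277 (L l213 (T t8740 (L l73 (L l439 (L l489 (T t6275 (K a133 (M a74 (L l296 (F (T t6277 (L l213 (T t8740 (L l73 (L l439 (L l489 (T t6275 (K a213 (M a234 (F (T t6277 (L l180 (L l347 (T t8726 N)))))) (K a234 (M a213 (F (T t6277 (L l199 (L l390 (T t8739 (L l73 (L l439 (L l489 (T t6275 N)))))))))) N)))))))))))) (K a213 (M a234 (L l339 (F (T t6277 (L l73 (L l347 (L l439 (L l489 (T t6275 (L l73 (T t8738 (K a133 (M a74 (F (T t6277 (L l180 (L l347 (T t8726 N)))))) (K a74 (M a133 (F (T t6277 (L l73 (L l347 (L l439 (L l489 (T t6275 (L l73 (T t8738 N)))))))))) N))))))))))))) (K a74 (M a133 (L l296 (F (T t6277 (L l213 (T t8740 (L l73 (L l439 (L l489 (T t6275 (K a213 (M a234 (F (T t6277 (L l73 (L l347 (L l439 (L l489 (T t6275 (L l73 (T t8738 N)))))))))) (K a234 (M a213 (F (T t6277 (L l390 (T t8739 (L l73 (L l439 (L l489 (T t6275 N))))))))) N)))))))))))) (K a234 (M a213 (L l339 (F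 (T t6277 (L l390 (T t8739 (L l73 (L l439 (L l489 (T t6275 (K a133 (M a74 (F (T t6277 (L l199 (L l390 (T t8739 (L l73 (L l439 (L l489 (T t6275 N)))))))))) (K a74 (M a133 (F (T t6277 (L l390 (T t8739 (L l73 (L l439 (L l489 (T t6275 N))))))))) N)))))))))))) N))))))))))))))) N)))))))))))))))))) (K a213 (M a234 (F (T t132 (L l236 (L l268 (L l339 (L l347 (L l469 (T t8724 (L l266 (L l289 (L l339 (L l347 (L l469 (T t8725 (L l339 (L l469 (T t2 (L l339 (L l469 (T t0 (K a32 (M a60 (F (T t138 (L l28 (L l309 (L l475 (T t69 (L l347 (T t44 N))))))))) (K a21 (M a60 (L l347 (F (T t138 (L l11 (L l334 (L l470 (T t489 (L l11 (L l18 (L l47 (L l65 (L l334 (L l470 (T t288 (L l50 (L l334 (L l470 (T t250 (K a85 (M a149 (F (T t1543 (L l228 (L l236 (L l275 (L l293 (T t8674 N)))))))) (K a149 (M a85 (F (T t138 (L l239 (L l246 (L l289 (L l295 (T t8376 N)))))))) N))))))))))))))))))))) (K a37 (M a52 (F (T t555 (L l334 (L l470 (T t82 (L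 l21 (L l28 (T t84 N))))))))) (K a26 (M a56 (F (T t556 (L l334 (L l470 (T t133 (L l12 (L l18 (L l347 (T t135 N)))))))))) (K a42 (M a60 (F (T t3520 (L l54 (L l439 (L l489 (T t451 (L l56 (L l334 (L l470 (T t288 (L l22 (L l28 (L l54 (L l66 (L l334 (L l470 (T t250 N)))))))))))))))))) (K a58 (M a12 (F (T t145 (L l347 (L l439 (L l489 (T t122 (L l347 (T t146 N))))))))) (K a15 (M a20 (L l339 (L l469 (F (T t183 (L l7 (L l309 (L l475 (T t238 (L l73 (T t5907 (K a133 (M a74 (L l469 (F (T t183 (L l347 (T t8726 (K a95 (M a175 (F (T t183 (L l347 (T t8726 N))))) (K a175 (M a95 (F (T t183 (L l180 (L l347 (T t8726 N)))))) N)))))))) (K a74 (M a133 (L l469 (F (T t183 (L l7 (L l309 (L l475 (T t238 (L l73 (T t5907 (K a95 (M a175 (F (T t5909 (L l130 (L l347 (T t8727 N)))))) (K a175 (M a95 (F (T t183 (L l7 (L l309 (L l475 (T t238 (L l73 (T t5898 N))))))))) N)))))))))))) (K a95 (M a175 (L l339 (F (T t5909 (L l347 (T t8727 (K a133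 (M a74 (F (T t183 (L l347 (T t8726 N))))) (K a74 (M a133 (F (T t5909 (L l130 (L l347 (T t8727 N)))))) N)))))))) (K a175 (M a95 (L l339 (F (T t183 (L l7 (L l309 (L l475 (T t238 (L l73 (T t5898 (K a133 (M a74 (F (T t183 (L l180 (L l347 (T t8726 N)))))) (K a74 (M a133 (F (T t183 (L l7 (L l309 (L l475 (T t238 (L l73 (T t5898 N))))))))) N)))))))))))) N))))))))))))))) N)))))))))))))))))))))))))))) (K a234 (M a213 (F (T t48 (L l236 (L l268 (L l339 (L l390 (L l469 (T t8731 (L l266 (L l289 (L l339 (L l390 (L l469 (T t8732 (L l339 (L l469 (T t1 (L l339 (L l469 (T t3 (K a16 (M a60 (F (T t236 (L l309 (L l390 (L l475 (T t69 (L l14 (L l18 (T t44 N)))))))))) (K a21 (M a60 (F (T t138 (L l11 (L l334 (L l470 (T t489 (L l11 (L l18 (L l47 (L l65 (L l334 (L l470 (T t288 (L l50 (L l334 (L l470 (T t250 N)))))))))))))))))) (K a37 (M a52 (F (T t555 (L l334 (L l470 (T t82 (L l21 (L l28 (L l390 (T t84 N)))))))))) (K a53 (M a12 (F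 (T t865 (L l47 (L l439 (L l489 (T t122 (L l47 (T t146 N))))))))) (K a26 (M a56 (F (T t556 (L l334 (L l470 (T t133 (L l12 (L l18 (T t135 N))))))))) (K a42 (M a60 (L l390 (F (T t3520 (L l54 (L l439 (L l489 (T t451 (L l56 (L l334 (L l470 (T t288 (L l22 (L l28 (L l54 (L l66 (L l334 (L l470 (T t250 (K a106 (M a170 (F (T t236 (L l250 (L l256 (L l289 (L l295 (T t8370 N)))))))) (K a170 (M a106 (F (T t3520 (L l228 (L l236 (L l282 (L l294 (T t8363 N)))))))) N))))))))))))))))))))) (K a15 (M a40 (L l339 (L l469 (F (T t7195 (L l7 (L l309 (L l475 (T t270 (L l73 (T t8733 (K a133 (M a74 (L l469 (F (T t7195 (L l7 (L l309 (L l475 (T t270 (L l73 (T t8733 (K a95 (M a175 (F (T t7195 (L l7 (L l309 (L l475 (T t270 (L l73 (T t8734 N))))))))) (K a175 (M a95 (F (T t8735 (L l199 (L l390 (T t8736 N)))))) N)))))))))))) (K a74 (M a133 (L l469 (F (T t7195 (L l390 (T t8737 (K a95 (M a175 (F (T t7195 (L l94 (L l390 (T t8737 N)))))) (K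 a175 (M a95 (F (T t7195 (L l390 (T t8737 N))))) N)))))))) (K a95 (M a175 (L l339 (F (T t7195 (L l7 (L l309 (L l475 (T t270 (L l73 (T t8734 (K a133 (M a74 (F (T t7195 (L l7 (L l309 (L l475 (T t270 (L l73 (T t8734 N))))))))) (K a74 (M a133 (F (T t7195 (L l94 (L l390 (T t8737 N)))))) N)))))))))))) (K a175 (M a95 (L l339 (F (T t8735 (L l390 (T t8736 (K a133 (M a74 (F (T t8735 (L l199 (L l390 (T t8736 N)))))) (K a74 (M a133 (F (T t7195 (L l390 (T t8737 N))))) N)))))))) N))))))))))))))) N)))))))))))))))))))))))))))) N)))))))))))))))))))))))))))⟩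
def b0_63__192 : Blk 4 := ⟨[0, 63], [192], [1, 2, 3, 5, 6, 7, 10, 11, 15, 22, 23, 26, 27, 31, 43, 47, 64, 65, 66, 67, 69, 70, 71, 74, 75, 79, 85, 86, 87, 90, 91, 95, 106, 107, 111, 127, 128, 129, 130, 131, 133, 134, 135, 138, 139, 143, 149, 150, 151, 154, 155, 159, 170, 171, 175, 191, 193, 194, 195, 197, 198, 199, 202, 203, 207, 213, 214, 215, 218, 219, 223, 234, 235, 239, 255], [e0_63__192_0, e0_63__192_1, e0_63__192_2, e0_63__192_3, e0_63__192_4, e0_63__192_5, e0_63__192_6, e0_63__192_7, e0_63__192_8, e0_63__192_9, e0_63__192_10, e0_63__192_11, e0_63__192_12, e0_63__192_13, e0_63__192_14, e0_63__192_15, e0_63__192_16, e0_63__192_17, e0_63__192_18, e0_63__192_19, e0_63__192_20, e0_63__192_21, e0_63__192_22, e0_63__192_23, e0_63__192_24, e0_63__192_25, e0_63__192_26, e0_63__192_27, e0_63__192_28, e0_63__192_29, e0_63__192_30, e0_63__192_31, e0_63__192_32, e0_63__192_33, e0_63__192_34, e0_63__192_35, e0_63__192_36,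 e0_63__192_37, e0_63__192_38, e0_63__192_39, e0_63__192_40, e0_63__192_41, e0_63__192_42, e0_63__192_43, e0_63__192_44, e0_63__192_45, e0_63__192_46, e0_63__192_47, e0_63__192_48, e0_63__192_49, e0_63__192_50, e0_63__192_51, e0_63__192_52, e0_63__192_53, e0_63__192_54, e0_63__192_55, e0_63__192_56, e0_63__192_57, e0_63__192_58, e0_63__192_59, e0_63__192_60, e0_63__192_61, e0_63__192_62, e0_63__192_63, e0_63__192_64, e0_63__192_65, e0_63__192_66, e0_63__192_67, e0_63__192_68, e0_63__192_69, e0_63__192_70, e0_63__192_71, e0_63__192_72, e0_63__192_73, e0_63__192_74], by decide +kernel, by decide +kernel⟩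

end Pool.Agent.Lib_TTT.K4
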