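import Pool.Agent.Lib_TTT.K4Base
import Pool.Agent.Lib_TTT.K4T00
import Pool.Agent.Lib_TTT.K4T01
import Pool.Agent.Lib_TTT.K4T02
import Pool.Agent.Lib_TTT.K4T03
import Pool.Agent.Lib_TTT.K4T04
import Pool.Agent.Lib_TTT.K4T05

/-! Certificates in `4^4`. -/

set_option autoImplicit false
set_option maxRecDepth 200000

namespace Pool.Agent.Lib_TTT.K4

open Lib_TTT AC DC

def e0_63__193_0 : Ent 4 := ⟨[a0, a63], [a193, a1], (M a48 (L l305 (F (T t0 (L l65 (T t1 (L l5 (T t2 (L l65 (T t3 (K a16 (M a149 (L l305 (F (T t177 (L l228 (L l340 (T t11 (L l233 (L l293 (T t6 (K a65 (M a129 (F (L l76 (T t10 (L l233 (L l293 (T t6 N))))))) (K a129 (M a65 (F (T t7 (L l152 (L l293 (T t4851 N)))))) N)))))))))))) (K a32 (M a149 (L l305 (F (T t177 (L l228 (T t11 (L l28 (L l233 (L l293 (T t6 (K a65 (M a129 (F (L l76 (T t10 (L l28 (L l233 (L l293 (T t6 N)))))))) (K a129 (M a65 (F (L l376 (T t7 (L l28 (L l152 (L l293 (T t4851 N))))))))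 N)))))))))))) (K a21 (M a149 (L l65 (L l305 (F (T t7 (L l18 (L l233 (T t14 (T t13 (K a65 (M a129 (L l65 (F (T t7 (L l76 (T t10 (L l18 (L l233 (T t14 (K a41 (M a61 (F (T t7 (L l22 (L l50 (L l57 (T t17 N))))))) (K a61 (M a41 (F (T t7 (L l76 (L l431 (T t10 (L l18 (L l233 (T t14 N))))))))) N))))))))))) (K a129 (M a65 (L l65 (F (T t7 (L l152 (T t688 (K a41 (M a61 (F (T t7 (L l152 (T t688 N))))) (K a61 (M a41 (F (T t7 (L l152 (T t688 N))))) N)))))))) (K a41 (M a61 (L l305 (F (T t7 (L l22 (T t18 (K a65 (M a129 (F (T t7 (L l22 (L l50 (L l57 (T t17 N))))))) (K a129 (M a65 (F (T t7 (L l152 (T t688 N))))) N)))))))) (K a61 (M a41 (L l305 (F (T t7 (L l18 (L l233 (T t14 (T t13 (K a65 (M a129 (F (T t7 (L l76 (L l431 (T t10 (L l18 (L l233 (T t14 N))))))))) (K a129 (M a65 (F (T t7 (L l152 (T t688 N))))) N)))))))))) N))))))))))))) (K a37 (M a192 (L l305 (F (T t19 (L l47 (L l515 (T t20 (L l515 (T t21 (K a65 (M a129 (F (T t19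 (L l233 (T t24 N))))) (K a129 (M a65 (F (T t22 (L l152 (T t688 N))))) N))))))))))) (K a53 (M a149 (L l305 (F (T t177 (T t13 (L l293 (T t26 (K a65 (M a129 (F (L l76 (T t10 (L l293 (T t26 N)))))) (K a129 (M a65 (F (L l152 (T t688 (L l293 (T t25 N)))))) N))))))))) (K a26 (M a192 (L l305 (F (T t837 (L l515 (T t20 (L l515 (T t21 (K a65 (M a129 (F (T t28 (L l54 (L l233 (T t24 N)))))) (K a129 (M a65 (F (T t22 (L l152 (T t688 N))))) N)))))))))) (K a42 (M a192 (L l305 (F (T t19 (L l515 (T t20 (L l28 (L l515 (T t29 (K a65 (M a129 (F (T t27 (L l54 (L l233 (L l390 (T t24 N))))))) (K a129 (M a65 (F (L l390 (T t22 (L l152 (T t688 N)))))) N))))))))))) (K a58 (M a60 (L l305 (F (L l65 (T t67 (L l32 (T t247 (L l32 (L l65 (T t1419 (K a65 (M a129 (F (T t489 (L l65 (T t67 (L l32 (L l65 (T t1419 N)))))))) (K a129 (M a65 (F (T t248 (L l152 (L l228 (L l309 (L l515 (T t4852 N)))))))) N)))))))))))) (K a15 (M a192 (L l305 (F (T t1800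 (L l483 (T t27 (L l325 (L l515 (T t20 (K a65 (M a129 (F (T t36 (L l233 (T t24 N))))) (K a129 (M a65 (F (T t54 (L l152 (L l481 (T t688 N)))))) N))))))))))) (K a65 (M a129 (F (T t0 (L l65 (T t1 (L l5 (T t2 (L l65 (T t3 (K a16 (M a149 (F (L l76 (T t10 (L l233 (L l293 (T t6 N))))))) (K a32 (M a149 (F (L l76 (T t10 (L l28 (L l233 (L l293 (T t6 N)))))))) (K a21 (M a149 (L l65 (F (T t7 (L l76 (T t10 (L l18 (L l233 (T t14 (K a41 (M a61 (F (T t7 (L l22 (L l50 (L l57 (T t17 N))))))) (K a61 (M a41 (F (T t7 (L l76 (L l431 (T t10 (L l18 (L l233 (T t14 N))))))))) N))))))))))) (K a37 (M a192 (F (T t19 (L l233 (T t24 N))))) (K a53 (M a149 (F (L l76 (T t10 (L l293 (T t26 N)))))) (K a26 (M a192 (F (T t28 (L l54 (L l233 (T t24 N)))))) (K a42 (M a192 (F (T t27 (L l54 (L l233 (L l390 (T t24 N))))))) (K a58 (M a189 (F (T t40 (L l54 (L l293 (L l473 (T t41 N))))))) (K a15 (M a192 (F (T t36 (L l233 (T t24 N))))) N))))))))))))))))))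 (K a129 (M a65 (F (T t0 (L l152 (T t688 (L l65 (L l152 (T t689 (K a32 (M a112 (F (T t346 (L l152 (L l309 (T t4853 N)))))) N))))))))) N)))))))))))))))))))))⟩
def e0_63__193_1 : Ent 4 := ⟨[a0, a63], [a193, a2], (M a48 (F (T t3 (L l6 (T t1 (L l66 (T t2 (L l66 (T t0 (K a16 (M a60 (F (T t42 (L l66 (T t43 (L l6 (L l14 (L l18 (T t44 N))))))))) (K a32 (M a60 (F (T t42 (L l24 (L l28 (L l66 (T t43 (L l6 (T t44 N))))))))) (K a21 (M a192 (F (T t837 (L l47 (L l347 (L l515 (T t20 (L l47 (L l347 (L l515 (T t29 N))))))))))) (K a37 (M a192 (F (T t19 (L l47 (L l515 (T t20 (L l515 (T t21 N)))))))) (K a53 (M a192 (F (T t19 (L l491 (L l515 (T t21 (L l66 (L l293 (T t31 N))))))))) (K a26 (M a192 (F (T t27 (L l515 (T t20 (L l515 (T t21 N))))))) (K a42 (M a192 (L l66 (F (T t19 (L l515 (T t20 (L l28 (L l515 (T t29 (K a22 (M a62 (F (T t19 (L l42 (L l515 (T t825 N)))))) (K a62 (M a22 (F (T t27 (L l515 (T t20 (L l390 (L l516 (T t46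 N)))))))) N))))))))))) (K a58 (M a192 (F (T t19 (L l515 (T t21 (L l54 (L l66 (L l293 (L l498 (T t31 N)))))))))) (K a15 (M a149 (F (T t1274 (L l66 (L l233 (L l293 (T t6 N))))))) N))))))))))))))))))⟩
def e0_63__193_2 : Ent 4 := ⟨[a0, a63], [a193, a3], (M a48 (F (T t48 (L l7 (T t1 (L l7 (T t2 (L l7 (T t3 (L l7 (T t0 (K a16 (M a85 (F (T t4539 (L l453 (T t50 (L l233 (L l293 (T t51 N)))))))) (K a32 (M a85 (F (L l475 (T t52 (L l404 (L l453 (T t50 (L l28 (L l233 (L l293 (T t51 N))))))))))) (K a21 (M a192 (F (T t54 (L l453 (T t27 (L l47 (L l347 (L l515 (T t29 N))))))))) (K a37 (M a192 (F (T t54 (L l453 (T t27 (L l475 (L l515 (T t21 N)))))))) (K a53 (M a192 (F (T t55 (L l475 (L l491 (L l515 (T t21 (L l293 (T t31 N))))))))) (K a26 (M a192 (F (T t1922 (L l331 (L l515 (T t20 (L l475 (L l515 (T t21 N))))))))) (K a42 (M a192 (F (T t36 (L l331 (L l515 (T t20 (L l28 (L l515 (T t29 N))))))))) (K a58 (M a192 (F (T t1922 (L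 l475 (L l515 (T t21 (L l54 (L l293 (L l498 (T t31 N)))))))))) (K a15 (M a149 (L l7 (F (T t4854 (L l228 (L l309 (L l339 (T t11 (L l233 (T t14 (K a7 (M a11 (F (T t1274 (L l233 (L l293 (T t6 N)))))) (K a11 (M a7 (F (T t1274 (L l233 (L l293 (T t6 N)))))) N)))))))))))) N))))))))))))))))))))⟩
def e0_63__193_3 : Ent 4 := ⟨[a0, a63], [a193, a4], (M a85 (F (L l50 (T t52 (L l228 (L l293 (T t88 (L l293 (T t89 (L l228 (T t90 (K a64 (M a60 (F (T t114 (L l293 (T t115 N))))) (K a192 (M a195 (F (T t4855 (L l309 (T t2035 (L l293 (L l296 (T t894 (L l305 (T t2036 N)))))))))) (K a21 (M a48 (L l50 (F (T t99 (T t50 (L l47 (T t100 (K a38 (M a55 (F (T t360 (L l46 (T t1743 N))))) (K a55 (M a38 (F (T t99 (T t50 (L l31 (L l47 (T t100 N))))))) N))))))))) (K a149 (M a61 (F (L l305 (T t505 (L l220 (L l293 (T t506 (L l217 (T t2037 N))))))))) (K a213 (Fr a170 a255 l476 (Fr a42 a21 l68 (Fr a106 a234 l390 (Fr a192 a149 l519 (V t581)))))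 (K a42 (M a48 (F (T t364 (L l390 (T t50 (L l28 (T t100 N))))))) (K a106 (M a48 (F (T t99 (L l50 (T t1 (L l390 (T t50 N))))))) (K a170 (M a60 (F (L l46 (L l50 (T t67 (L l218 (L l220 (L l228 (L l293 (L l305 (L l390 (T t4523 (L l228 (L l392 (L l515 (T t523 N)))))))))))))))) (K a255 (M a16 (F (T t504 (L l289 (T t113 (L l289 (L l293 (L l296 (T t98 N))))))))) N))))))))))))))))))))⟩
def e0_63__193_4 : Ent 4 := ⟨[a0, a63], [a193, a5], (M a85 (F (L l47 (T t52 (L l228 (L l293 (T t88 (L l293 (T t89 (L l228 (T t90 (K a64 (M a240 (F (T t933 (L l293 (T t387 N))))) (K a192 (M a195 (F (T t883 (L l309 (T t2035 (L l293 (L l296 (T t894 (L l5 (L l305 (T t2036 N))))))))))) (K a21 (M a60 (L l47 (F (T t936 (T t114 (L l65 (L l228 (L l515 (T t523 (K a37 (M a53 (F (T t936 (L l50 (L l71 (L l485 (T t937 N))))))) (K a53 (M a37 (F (T t936 (T t114 (L l35 (L l65 (L l228 (L l515 (T t523 N))))))))) N))))))))))) (K a149 (M a61 (F (L l351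 (T t529 (L l220 (L l293 (T t506 (L l217 (T t2037 N))))))))) (K a213 (Fr a170 a255 l476 (Fr a42 a21 l68 (Fr a106 a234 l390 (Fr a192 a149 l519 (V t581))))) (K a42 (M a48 (F (T t364 (L l390 (T t50 (L l28 (L l47 (T t100 N)))))))) (K a106 (M a48 (F (T t99 (L l47 (L l411 (T t3 (L l390 (T t50 N)))))))) (K a170 (M a60 (F (L l47 (T t67 (L l218 (L l220 (L l228 (L l293 (L l305 (L l390 (T t4523 (L l228 (L l392 (L l515 (T t523 N))))))))))))))) (K a255 (M a4 (F (T t129 (L l265 (T t130 (L l265 (L l293 (L l296 (T t131 N))))))))) N))))))))))))))))))))⟩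
def e0_63__193_5 : Ent 4 := ⟨[a0, a63], [a193, a6], (M a85 (F (T t52 (L l228 (L l293 (T t88 (L l293 (T t89 (L l228 (T t90 (K a64 (M a16 (F (T t97 (L l84 (T t96 (L l116 (L l293 (T t98 N)))))))) (K a192 (M a195 (F (T t883 (L l9 (L l309 (T t2035 (L l293 (L l296 (T t894 (L l305 (T t2036 N))))))))))) (K a21 (M a48 (F (T t99 (T t50 (L l47 (T t100 N)))))) (K a149 (M a61 (F (L l351 (T t529 (L l220 (L l293 (T t506 (L l217 (T t2037 N))))))))) (K a213 (Fr a170 a255 l476 (Fr a42 a21 l68 (Fr a106 a234 l390 (Fr a192 a149 l519 (V t581))))) (K a42 (M a48 (F (T t364 (L l390 (T t50 (L l28 (T t100 N))))))) (K a106 (M a48 (F (T t99 (L l6 (T t1 (L l390 (T t50 N))))))) (K a170 (M a16 (F (L l404 (T t113 (L l293 (L l390 (T t98 (L l390 (L l404 (T t97 (L l233 (L l404 (T t174 N))))))))))))) (K a255 (M a16 (F (T t504 (L l289 (T t113 (L l289 (L l293 (L l296 (T t98 N))))))))) N)))))))))))))))))))⟩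
def e0_63__193_6 : Ent 4 := ⟨[a0, a63], [a193, a7], (M a85 (F (T t52 (L l228 (L l293 (T t88 (L l293 (T t89 (L l228 (T t90 (K a64 (M a16 (F (T t258 (L l7 (T t97 (L l116 (L l293 (T t98 N)))))))) (K a192 (M a195 (F (T t883 (L l7 (L l309 (T t2035 (L l293 (L l296 (T t894 (L l305 (T t2036 N))))))))))) (K a21 (M a48 (F (T t99 (T t50 (L l47 (T t100 N)))))) (K a149 (M a61 (F (L l305 (T t4856 (L l220 (L l293 (T t506 (L l217 (T t2037 N))))))))) (K a213 (Fr a170 a255 l476 (Fr a42 a21 l68 (Fr a106 a234 l390 (Fr a192 a149 l519 (V t581))))) (K a42 (M a48 (F (T t364 (L l390 (T t50 (L l28 (T t100 N))))))) (K a106 (M a48 (F (T t99 (L l7 (T t1 (L l390 (T t50 N))))))) (K a170 (M a16 (F (L l404 (T t113 (L l293 (L l390 (T t98 (L l7 (L l390 (L l404 (T t97 (L l233 (L l404 (T t174 N)))))))))))))) (K a255 (M a16 (F (T t504 (L l289 (T t113 (L l289 (L l293 (L l296 (T t98 N))))))))) N)))))))))))))))))))⟩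
def e0_63__193_7 : Ent 4 := ⟨[a0, a63], [a193, a8], (M a85 (F (T t52 (L l56 (L l228 (L l293 (T t88 (L l56 (L l293 (T t89 (L l228 (L l464 (T t90 (K a64 (M a16 (F (T t258 (L l56 (T t97 (L l56 (L l116 (L l293 (T t98 N))))))))) (K a192 (M a195 (F (T t883 (L l309 (L l464 (T t2035 (L l56 (L l293 (L l296 (T t894 (L l52 (L l56 (L l305 (T t2036 N)))))))))))))) (K a21 (M a48 (F (T t99 (L l464 (T t50 (L l47 (T t100 N))))))) (K a149 (M a61 (F (L l56 (L l305 (T t505 (L l220 (L l293 (L l464 (T t506 (L l56 (L l217 (T t2037 N)))))))))))) (K a213 (Fr a170 a255 l476 (Fr a42 a21 l68 (Fr a106 a234 l390 (Fr a192 a149 l519 (V t581))))) (K a42 (M a59 (F (T t104 (L l390 (L l464 (T t105 (L l26 (L l316 (T t106 (L l228 (L l316 (L l390 (L l464 (T t107 N)))))))))))))) (K a106 (M a48 (F (T t99 (L l2 (T t1 (L l390 (L l464 (T t50 N)))))))) (K a170 (M a89 (F (L l178 (T t108 (L l56 (L l269 (L l293 (L l390 (T t109 (L l178 (L l316 (T t110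 (L l56 (L l178 (L l228 (L l269 (L l293 (L l390 (T t111 N))))))))))))))))))) (K a255 (M a16 (F (L l56 (T t112 (L l289 (T t113 (L l56 (L l289 (L l293 (L l296 (T t98 N))))))))))) N))))))))))))))))))))))⟩
def e0_63__193_8 : Ent 4 := ⟨[a0, a63], [a193, a9], (M a85 (F (T t52 (L l228 (L l293 (T t88 (L l293 (T t89 (L l228 (T t90 (K a64 (M a16 (F (T t97 (L l84 (T t96 (L l116 (L l293 (T t98 N)))))))) (K a192 (M a195 (F (T t883 (L l9 (L l309 (T t2035 (L l293 (L l296 (T t894 (L l5 (L l305 (T t2036 N)))))))))))) (K a21 (M a48 (F (T t99 (T t50 (L l47 (T t100 N)))))) (K a149 (M a61 (F (L l351 (T t529 (L l220 (L l293 (T t506 (L l53 (L l217 (L l461 (T t2037 N))))))))))) (K a213 (Fr a170 a255 l476 (Fr a42 a21 l68 (Fr a106 a234 l390 (Fr a192 a149 l519 (V t581))))) (K a42 (M a48 (F (T t364 (L l390 (T t50 (L l28 (T t100 N))))))) (K a106 (M a48 (F (T t99 (L l2 (T t1 (L l390 (T t50 N))))))) (K a170 (M a16 (F (L l404 (T t113 (L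 l293 (L l390 (T t98 (L l390 (L l404 (T t97 (L l233 (L l404 (T t174 N))))))))))))) (K a255 (M a16 (F (T t504 (L l289 (T t113 (L l289 (L l293 (L l296 (T t98 N))))))))) N)))))))))))))))))))⟩
def e0_63__193_9 : Ent 4 := ⟨[a0, a63], [a193, a10], (M a85 (F (T t52 (L l54 (L l228 (L l293 (T t88 (L l54 (L l293 (T t89 (L l228 (L l462 (T t90 (K a64 (M a16 (F (L l54 (T t97 (L l84 (T t96 (L l54 (L l116 (L l293 (T t98 N)))))))))) (K a192 (M a195 (F (T t883 (L l309 (L l462 (T t2035 (L l54 (L l293 (L l296 (T t894 (L l54 (L l305 (T t2036 N))))))))))))) (K a21 (M a48 (F (T t99 (L l462 (T t50 (L l47 (L l318 (T t100 N)))))))) (K a149 (M a61 (F (L l54 (L l305 (T t505 (L l220 (L l293 (L l462 (T t506 (L l54 (L l217 (T t2037 N)))))))))))) (K a213 (Fr a170 a255 l476 (Fr a42 a21 l68 (Fr a106 a234 l390 (Fr a192 a149 l519 (V t581))))) (K a42 (M a58 (F (T t118 (L l390 (L l462 (T t119 (L l28 (L l318 (T t120 (L l228 (L l318 (L l390 (L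 l462 (T t121 N)))))))))))))) (K a106 (M a12 (F (T t1373 (T t122 (L l390 (L l462 (T t124 N))))))) (K a170 (M a90 (F (L l180 (L l335 (T t125 (L l54 (L l293 (L l390 (T t126 (L l180 (L l318 (T t127 (L l54 (L l180 (L l228 (L l293 (L l390 (T t128 N)))))))))))))))))) (K a255 (M a4 (F (L l2 (L l54 (T t129 (L l2 (L l265 (T t130 (L l54 (L l265 (L l293 (L l296 (T t131 N))))))))))))) N))))))))))))))))))))))⟩
def e0_63__193_10 : Ent 4 := ⟨[a0, a63], [a193, a11], (M a85 (F (T t52 (L l228 (L l293 (T t88 (L l293 (T t89 (L l228 (T t90 (K a64 (M a12 (F (T t124 (L l2 (L l293 (T t572 N)))))) (K a192 (M a195 (F (T t883 (L l7 (L l55 (L l309 (T t2035 (L l293 (L l296 (T t894 (L l305 (T t2036 N)))))))))))) (K a21 (M a48 (F (T t99 (T t50 (L l47 (T t100 N)))))) (K a149 (M a61 (F (L l351 (T t529 (L l220 (L l293 (T t506 (L l57 (L l217 (L l465 (T t2037 N))))))))))) (K a213 (Fr a170 a255 l476 (Fr a42 a21 l68 (Fr a106 a234 l390 (Fr a192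 a149 l519 (V t581))))) (K a42 (M a48 (F (T t364 (L l390 (T t50 (L l28 (T t100 N))))))) (K a106 (M a48 (F (T t99 (L l2 (L l7 (T t1 (L l390 (T t50 N)))))))) (K a170 (M a16 (F (L l404 (T t113 (L l293 (L l390 (T t98 (L l7 (L l390 (L l404 (T t97 (L l233 (L l404 (T t174 N)))))))))))))) (K a255 (M a16 (F (T t112 (L l289 (T t113 (L l289 (L l293 (L l296 (T t98 N))))))))) N)))))))))))))))))))⟩
def e0_63__193_11 : Ent 4 := ⟨[a0, a63], [a193, a12], (M a60 (F (T t522 (L l9 (T t67 (L l9 (T t43 (L l9 (L l515 (T t68 (L l9 (L l305 (T t69 (K a20 (M a48 (F (T t132 (L l74 (L l515 (T t64 (L l11 (L l515 (T t235 N))))))))) (K a40 (M a48 (F (T t607 (L l74 (L l515 (T t64 (L l52 (L l515 (T t235 N))))))))) (K a21 (M a192 (F (T t2647 (L l338 (L l347 (L l515 (T t73 (L l347 (L l515 (T t74 N)))))))))) (K a41 (M a192 (F (T t1334 (L l65 (L l470 (L l515 (T t35 (L l338 (L l515 (T t73 N)))))))))) (K a61 (M a149 (F (T t4854 (L l466 (T t463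 (L l293 (T t1130 N))))))) (K a22 (M a192 (F (T t2647 (L l470 (L l515 (T t21 (L l338 (L l515 (T t73 N))))))))) (K a42 (M a192 (F (T t1334 (L l338 (L l515 (T t73 (L l22 (L l515 (T t74 N))))))))) (K a62 (M a192 (F (T t2658 (L l470 (L l515 (T t35 (L l66 (L l293 (L l516 (T t80 N)))))))))) (K a3 (M a84 (L l9 (F (T t4857 (L l470 (L l475 (L l515 (T t4858 (L l228 (L l293 (L l309 (L l334 (L l477 (T t4859 (L l293 (T t1415 (K a9 (M a6 (F (T t1414 (L l70 (T t2649 N))))) (K a6 (M a9 (F (T t1414 (L l70 (T t2650 N))))) N)))))))))))))))))) N))))))))))))))))))))))⟩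
def e0_63__193_12 : Ent 4 := ⟨[a0, a63], [a193, a13], (M a48 (L l335 (F (T t48 (L l3 (T t1 (L l3 (L l5 (T t2 (L l3 (T t3 (L l3 (T t0 (K a16 (M a149 (L l335 (F (T t177 (L l228 (L l340 (T t11 (L l233 (L l293 (T t6 (K a133 (M a73 (F (T t177 (L l228 (L l339 (T t187 (L l233 (L l293 (L l311 (T t6 N)))))))))) (K a73 (M a133 (F (L l78 (T t1325 (L l233 (L l293 (T t6 N))))))) N)))))))))))) (K a32 (M a60 (L l335 (F (T t42 (T t67 (L l5 (L l24 (L l28 (T t65 (K a133 (M a73 (F (T t42 (L l5 (L l28 (L l305 (T t69 (T t44 N)))))))) (K a73 (M a133 (F (T t42 (L l5 (L l28 (L l305 (T t69 (T t44 N)))))))) N))))))))))) (K a21 (M a192 (L l335 (F (T t837 (L l47 (L l347 (L l515 (T t20 (L l47 (L l347 (L l515 (T t29 (K a133 (M a73 (F (T t22 (T t28 (L l47 (L l199 (L l347 (L l515 (T t29 N))))))))) (K a73 (M a133 (F (T t28 (L l78 (L l233 (T t2042 N)))))) N)))))))))))))) (K a37 (M a49 (L l335 (F (L l28 (T t296 (L l59 (L l515 (T t142 (L l25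 (L l28 (T t144 (K a133 (M a73 (F (L l28 (T t296 (L l59 (L l515 (T t142 (L l25 (L l28 (T t144 N)))))))))) (K a73 (M a133 (F (L l28 (T t296 (L l59 (L l515 (T t142 (L l25 (L l28 (T t144 N)))))))))) N))))))))))))) (K a53 (M a192 (L l335 (F (T t19 (L l491 (L l515 (T t21 (L l293 (T t31 (K a133 (M a73 (F (T t28 (L l47 (L l199 (L l491 (L l515 (T t35 (L l47 (L l199 (L l491 (L l515 (T t525 N))))))))))))) (K a73 (M a133 (F (T t837 (L l78 (L l293 (L l419 (T t2043 N))))))) N))))))))))) (K a26 (M a192 (L l335 (F (T t837 (L l515 (T t20 (L l515 (T t21 (K a133 (M a73 (F (T t22 (L l18 (L l199 (L l515 (T t35 (T t28 N)))))))) (K a73 (M a133 (F (T t837 (L l54 (L l78 (L l293 (T t2043 N))))))) N)))))))))) (K a42 (M a192 (L l335 (F (T t19 (L l515 (T t20 (L l28 (L l515 (T t29 (K a133 (M a73 (F (T t837 (L l390 (T t22 (L l28 (L l199 (L l515 (T t29 N))))))))) (K a73 (M a133 (F (T t837 (L l54 (L l78 (L l390 (T t2044 N))))))) N)))))))))))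 (K a58 (M a192 (L l335 (F (T t19 (L l515 (T t21 (L l54 (L l293 (L l498 (T t31 (K a133 (M a73 (F (T t28 (L l199 (L l515 (T t35 (L l199 (L l515 (T t525 N))))))))) (K a73 (M a133 (F (T t837 (L l54 (L l78 (L l293 (L l498 (T t2043 N)))))))) N)))))))))))) (K a15 (M a12 (L l335 (F (T t145 (L l59 (L l73 (T t122 (L l59 (L l73 (T t146 (K a133 (M a73 (L l339 (F (T t2061 (L l153 (L l481 (T t4860 (K a192 (M a74 (L l228 (F (T t2061 (L l153 (L l272 (L l305 (L l481 (L l485 (T t4861 (K a194 (Fr a195 a134 l338 (V t4862)) (K a195 (M a194 (L l337 (F (T t145 (L l73 (L l487 (L l489 (T t153 (L l73 (T t3324 (K a135 (Fr a75 a72 l78 (V t122)) (K a75 (M a135 (F (T t1252 (L l63 (L l514 (L l518 (T t445 (L l73 (T t3324 N))))))))) N)))))))))))) N)))))))))))) (K a74 (M a192 (F (T t1252 (L l130 (L l325 (T t22 N)))))) N))))))))) (K a73 (M a133 (F (T t865 (L l59 (L l73 (T t122 (L l59 (L l73 (T t146 N))))))))) N)))))))))))) (K a133 (M a73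 (F (T t48 (L l3 (L l339 (T t1 (L l3 (L l5 (L l311 (L l339 (T t2 (L l3 (L l339 (T t3 (L l3 (L l339 (T t0 (K a16 (M a4 (F (L l160 (L l228 (T t1878 (T t520 N)))))) (K a32 (M a4 (F (L l228 (L l305 (T t2452 (L l24 (L l28 (T t520 N)))))))) (K a21 (M a138 (F (L l311 (T t4863 (L l50 (T t4864 N)))))) (K a37 (M a49 (F (L l28 (T t296 (L l59 (L l515 (T t142 (L l25 (L l28 (T t144 N)))))))))) (K a53 (M a12 (F (T t151 (L l153 (T t4860 N))))) (K a26 (M a8 (F (L l228 (T t4865 (L l12 (L l18 (L l71 (T t4866 N)))))))) (K a42 (M a207 (F (T t4867 (L l3 (L l160 (L l323 (T t4868 N))))))) (K a58 (M a8 (F (L l32 (T t414 (L l311 (L l426 (T t4869 N))))))) (K a15 (M a192 (L l3 (F (T t54 (L l199 (L l469 (L l515 (T t35 (L l483 (T t28 (K a12 (M a14 (F (T t1800 (L l325 (L l326 (T t22 (L l478 (L l483 (T t28 N))))))))) (K a14 (M a12 (F (T t54 (L l153 (L l160 (L l327 (T t156 N))))))) N)))))))))))) N)))))))))))))))))))))))))) (K a73 (M a133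 (F (L l3 (T t3 (L l71 (L l81 (L l293 (T t2054 (L l3 (L l5 (T t2 (L l3 (T t0 (K a32 (M a5 (F (T t2052 (L l233 (L l320 (T t2055 N)))))) (K a21 (M a192 (F (T t28 (L l78 (L l233 (T t2042 N)))))) (K a37 (M a49 (F (L l28 (T t296 (L l59 (L l515 (T t142 (L l25 (L l28 (T t144 N)))))))))) (K a53 (M a192 (F (T t837 (L l78 (L l293 (L l419 (T t2043 N))))))) (K a26 (M a192 (F (T t837 (L l54 (L l78 (L l293 (T t2043 N))))))) (K a42 (M a192 (F (T t837 (L l54 (L l78 (L l390 (T t2044 N))))))) (K a58 (M a192 (F (T t837 (L l54 (L l78 (L l293 (L l498 (T t2043 N)))))))) N)))))))))))))))))))) N))))))))))))))))))))))))⟩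
def e0_63__193_13 : Ent 4 := ⟨[a0, a63], [a193, a14], (M a85 (F (T t52 (L l228 (L l293 (T t88 (L l293 (T t89 (L l228 (T t90 (K a64 (M a16 (F (T t258 (L l3 (T t97 (L l116 (L l293 (T t98 N)))))))) (K a192 (M a195 (F (T t883 (L l309 (T t2035 (L l293 (L l296 (T t894 (L l60 (L l305 (T t2036 N))))))))))) (K a21 (M a48 (F (T t99 (T t50 (L l47 (T t100 N)))))) (K a149 (M a61 (F (L l60 (L l305 (T t505 (L l60 (L l220 (L l293 (T t506 (L l217 (T t2037 N))))))))))) (K a213 (Fr a170 a255 l476 (Fr a42 a21 l68 (Fr a106 a234 l390 (Fr a192 a149 l519 (V t581))))) (K a42 (M a48 (F (T t364 (L l390 (T t50 (L l28 (T t100 N))))))) (K a106 (M a48 (F (T t99 (L l3 (L l6 (T t1 (L l390 (T t50 N)))))))) (K a170 (M a16 (F (L l404 (T t113 (L l293 (L l390 (T t98 (L l3 (L l390 (L l404 (T t97 (L l233 (L l404 (T t174 N)))))))))))))) (K a255 (M a16 (F (T t112 (L l289 (T t113 (L l289 (L l293 (L l296 (T t98 N))))))))) N)))))))))))))))))))⟩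
def e0_63__193_14 : Ent 4 := ⟨[a0, a63], [a193, a15], (M a12 (F (T t150 (L l73 (T t122 (L l73 (T t151 (L l73 (T t152 (L l73 (T t153 (K a4 (M a85 (F (T t4539 (L l327 (T t124 (L l269 (L l293 (T t154 N)))))))) (K a8 (M a85 (F (L l469 (T t52 (L l327 (L l464 (T t124 (L l56 (L l269 (L l293 (T t154 N))))))))))) (K a21 (M a192 (F (T t158 (L l327 (T t156 (L l15 (L l347 (L l515 (T t157 N))))))))) (K a25 (M a192 (F (T t158 (L l327 (T t156 (L l469 (L l515 (T t21 N)))))))) (K a29 (M a192 (F (T t159 (L l371 (L l469 (L l515 (T t21 (L l293 (T t160 N))))))))) (K a38 (M a192 (F (T t1725 (L l481 (L l515 (T t450 (L l469 (L l515 (T t21 N))))))))) (K a42 (M a192 (F (T t496 (L l481 (L l515 (T t450 (L l56 (L l515 (T t157 N))))))))) (K a46 (M a192 (F (T t1725 (L l469 (L l515 (T t21 (L l26 (L l293 (L l408 (T t160 N)))))))))) (K a51 (M a149 (L l73 (F (T t4854 (L l228 (L l339 (L l489 (T t991 (L l269 (T t649 (K a39 (M a27 (F (T t4374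 (L l269 (L l293 (T t960 N)))))) (K a27 (M a39 (F (T t4374 (L l269 (L l293 (T t960 N)))))) N)))))))))))) N))))))))))))))))))))⟩
def e0_63__193_15 : Ent 4 := ⟨[a0, a63], [a193, a20], (M a48 (F (T t2 (L l11 (T t1 (L l11 (L l14 (T t3 (T t0 (K a16 (M a85 (L l14 (F (T t4539 (T t50 (L l233 (L l293 (T t51 (K a24 (M a28 (F (T t4539 (T t50 (L l233 (L l293 (T t51 N))))))) (K a28 (M a24 (F (T t50 (L l46 (T t635 N))))) N)))))))))) (K a32 (M a85 (F (L l11 (T t52 (L l404 (T t50 (L l28 (L l233 (L l293 (T t51 N)))))))))) (K a21 (M a192 (L l11 (F (T t837 (L l47 (L l347 (L l515 (T t20 (L l47 (L l347 (L l515 (T t29 (K a22 (M a23 (F (T t22 (L l16 (L l66 (L l485 (T t636 N))))))) (K a23 (M a22 (F (T t27 (L l47 (L l347 (L l351 (L l515 (T t20 (L l14 (L l18 (T t46 N))))))))))) N)))))))))))))) (K a37 (M a192 (F (T t837 (L l47 (L l515 (T t20 (L l515 (T t21 N)))))))) (K a53 (M a192 (F (T t837 (L l491 (L l515 (T t21 (L l293 (T t31 N))))))))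 (K a26 (M a192 (F (T t837 (L l515 (T t20 (L l515 (T t21 N))))))) (K a42 (M a192 (F (T t837 (L l515 (T t20 (L l28 (L l515 (T t29 N)))))))) (K a58 (M a192 (F (T t837 (L l515 (T t21 (L l54 (L l293 (L l498 (T t31 N))))))))) (K a15 (M a192 (F (T t1800 (L l483 (T t27 (L l325 (L l515 (T t20 N)))))))) N))))))))))))))))))⟩
def e0_63__193_16 : Ent 4 := ⟨[a0, a63], [a193, a22], (M a192 (F (T t202 (L l515 (T t21 (L l11 (L l515 (T t35 (L l66 (L l293 (T t37 (K a64 (M a48 (F (L l66 (T t2 (L l515 (T t20 (L l66 (L l116 (L l144 (L l293 (T t31 N))))))))))) (K a128 (M a48 (F (T t22 (L l11 (T t1 (L l66 (L l293 (T t31 N)))))))) (K a21 (M a20 (F (T t948 (L l347 (L l515 (T t195 (T t4870 (L l347 (L l515 (T t4871 N)))))))))) (K a85 (M a16 (F (T t210 (L l66 (T t97 (L l16 (L l66 (L l94 (L l144 (T t211 N)))))))))) (K a149 (M a48 (L l515 (F (T t837 (L l11 (L l347 (L l491 (T t1 (L l11 (L l170 (L l220 (L l347 (L l491 (T t213 (L l66 (L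 l375 (T t214 (K a105 (M a61 (F (T t837 (L l66 (L l485 (T t262 N)))))) (K a61 (M a105 (F (T t837 (L l66 (T t2 (L l11 (L l35 (L l65 (L l170 (L l220 (L l347 (L l491 (T t213 (L l66 (L l375 (T t4872 N)))))))))))))))) N))))))))))))))))))) (K a42 (M a60 (L l66 (F (L l515 (T t73 (L l11 (T t79 (L l22 (L l515 (T t74 (K a2 (Fr a62 a61 l33 (V t79)) (K a62 (M a2 (F (T t77 (L l305 (L l390 (L l516 (T t1365 (L l305 (L l390 (L l432 (L l516 (T t4873 N)))))))))))) N)))))))))))) (K a106 (M a48 (F (T t27 (L l11 (T t1 (L l11 (L l411 (T t213 (L l66 (L l104 (L l144 (L l390 (L l498 (T t214 N)))))))))))))) (K a170 (M a32 (F (T t218 (L l11 (T t219 (L l11 (L l51 (L l180 (L l220 (L l515 (T t220 N))))))))))) (K a255 (M a16 (F (T t1805 (L l66 (L l469 (T t97 (L l16 (L l66 (T t211 N))))))))) N))))))))))))))))))))⟩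
def e0_63__193_17 : Ent 4 := ⟨[a0, a63], [a193, a23], (M a48 (F (T t2 (L l11 (T t1 (L l11 (T t3 (L l17 (T t0 (K a16 (M a60 (F (T t42 (L l11 (L l18 (L l515 (T t68 (L l11 (L l18 (T t194 N)))))))))) (K a32 (M a60 (F (T t42 (L l11 (L l515 (T t68 (L l11 (T t194 N)))))))) (K a21 (M a192 (L l11 (F (T t837 (L l47 (L l347 (L l351 (L l515 (T t20 (L l47 (L l347 (L l351 (L l515 (T t29 (K a20 (M a22 (F (T t27 (L l47 (L l347 (L l351 (L l515 (T t20 (L l14 (L l18 (T t46 N))))))))))) (K a22 (M a20 (F (T t27 (L l347 (L l351 (L l515 (T t195 N))))))) N)))))))))))))))) (K a37 (M a192 (F (T t19 (L l47 (L l351 (L l515 (T t20 (L l351 (L l515 (T t21 N)))))))))) (K a53 (M a192 (F (T t19 (L l351 (L l491 (L l515 (T t21 (L l293 (T t31 N))))))))) (K a26 (M a192 (F (T t27 (L l351 (L l515 (T t20 (L l351 (L l515 (T t21 N))))))))) (K a42 (M a192 (F (T t19 (L l351 (L l515 (T t20 (L l28 (L l351 (L l515 (T t29 N)))))))))) (K a58 (M a192 (F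 (T t19 (L l351 (L l515 (T t21 (L l54 (L l293 (L l498 (T t31 N)))))))))) (K a15 (M a192 (F (T t1800 (L l483 (T t27 (L l325 (L l351 (L l515 (T t20 N))))))))) N))))))))))))))))))⟩
def e0_63__193_18 : Ent 4 := ⟨[a0, a63], [a193, a24], (M a85 (F (T t52 (L l228 (L l293 (T t88 (L l293 (T t89 (L l228 (T t90 (K a64 (M a60 (F (T t114 (L l52 (L l293 (T t115 N)))))) (K a192 (M a195 (F (T t4855 (L l309 (T t2035 (L l293 (L l296 (T t894 (L l52 (L l305 (T t2036 N))))))))))) (K a21 (M a48 (F (T t99 (T t50 (L l47 (T t100 N)))))) (K a149 (M a61 (F (L l305 (T t505 (L l220 (L l293 (T t506 (L l217 (T t2037 N))))))))) (K a213 (Fr a170 a255 l476 (Fr a42 a21 l68 (Fr a106 a234 l390 (Fr a192 a149 l519 (V t581))))) (K a42 (M a48 (F (L l28 (T t99 (L l390 (T t50 (L l28 (T t100 N)))))))) (K a106 (M a48 (F (T t99 (T t1 (L l390 (T t50 N)))))) (K a170 (M a16 (F (L l404 (T t113 (L l293 (L l390 (T t98 (L l390 (L l404 (T t97 (L l233 (L l404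 (T t174 N))))))))))))) (K a255 (M a16 (F (T t112 (L l289 (T t113 (L l289 (L l293 (L l296 (T t98 N))))))))) N)))))))))))))))))))⟩
def e0_63__193_19 : Ent 4 := ⟨[a0, a63], [a193, a25], (M a85 (F (L l15 (T t52 (L l56 (L l228 (L l293 (T t88 (L l56 (L l293 (T t89 (L l228 (T t90 (K a64 (M a60 (F (T t114 (L l56 (L l293 (T t115 N)))))) (K a192 (M a195 (F (T t883 (L l309 (T t2035 (L l56 (L l293 (L l296 (T t894 (L l56 (L l305 (T t2036 N)))))))))))) (K a21 (M a60 (L l15 (F (T t936 (T t114 (L l65 (L l228 (L l515 (T t523 (K a17 (M a29 (F (T t936 (L l18 (L l71 (L l335 (T t1802 N))))))) (K a29 (M a17 (F (T t936 (L l50 (L l359 (T t2281 N)))))) N))))))))))) (K a149 (M a61 (F (L l56 (L l305 (T t505 (L l220 (L l293 (T t506 (L l53 (L l56 (L l217 (T t2037 N)))))))))))) (K a213 (Fr a170 a255 l476 (Fr a42 a21 l68 (Fr a106 a234 l390 (Fr a192 a149 l519 (V t581))))) (K a42 (M a59 (F (L l26 (T t106 (L l390 (T t105 (L l26 (T t3224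 (L l15 (L l228 (L l390 (T t107 N)))))))))))) (K a106 (M a48 (F (T t99 (L l15 (T t1 (L l390 (T t50 N))))))) (K a170 (M a60 (F (L l15 (T t67 (L l56 (L l218 (L l220 (L l228 (L l293 (L l305 (L l390 (T t4523 (L l228 (L l392 (L l515 (T t523 N)))))))))))))))) (K a255 (M a16 (F (L l56 (T t112 (L l289 (T t113 (L l56 (L l289 (L l293 (L l296 (T t98 N))))))))))) N))))))))))))))))))))))⟩
def e0_63__193_20 : Ent 4 := ⟨[a0, a63], [a193, a26], (M a85 (F (L l18 (T t52 (L l54 (L l228 (L l293 (T t88 (L l54 (L l293 (T t89 (L l228 (T t90 (K a64 (M a60 (F (T t114 (L l54 (L l293 (T t115 N)))))) (K a192 (M a195 (F (T t883 (L l309 (T t2035 (L l54 (L l293 (L l296 (T t894 (L l54 (L l305 (T t2036 N)))))))))))) (K a21 (M a48 (L l18 (F (T t99 (L l47 (T t100 (T t50 (K a16 (M a31 (F (T t2085 (T t50 (L l54 (L l340 (T t3226 (L l54 (L l233 (L l354 (L l515 (T t3227 N)))))))))))) (K a31 (Fr a16 a32 l40 (V t3228)) N))))))))) (K a149 (M a61 (F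 (L l54 (L l305 (T t505 (L l220 (L l293 (T t506 (L l54 (L l57 (L l217 (T t2037 N)))))))))))) (K a213 (Fr a170 a255 l476 (Fr a42 a21 l68 (Fr a106 a234 l390 (Fr a192 a149 l519 (V t581))))) (K a42 (M a58 (F (L l28 (T t120 (L l390 (T t119 (L l28 (T t3229 (L l18 (L l228 (L l390 (T t121 N)))))))))))) (K a106 (M a12 (F (T t1368 (L l18 (T t122 (L l390 (T t124 N))))))) (K a170 (M a60 (F (L l18 (T t67 (L l54 (L l218 (L l220 (L l228 (L l293 (L l305 (L l390 (T t4523 (L l228 (L l392 (L l515 (T t523 N)))))))))))))))) (K a255 (M a4 (F (L l54 (T t129 (L l265 (T t130 (L l54 (L l265 (L l293 (L l296 (T t131 N))))))))))) N))))))))))))))))))))))⟩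
def e0_63__193_21 : Ent 4 := ⟨[a0, a63], [a193, a27], (M a85 (F (T t52 (L l228 (L l293 (T t88 (L l293 (T t89 (L l228 (T t90 (K a64 (M a16 (F (T t258 (L l17 (L l73 (T t97 (L l116 (L l293 (T t98 N))))))))) (K a192 (M a195 (F (T t883 (L l55 (L l309 (T t2035 (L l293 (L l296 (T t894 (L l305 (T t2036 N))))))))))) (K a21 (M a48 (F (T t99 (T t50 (L l47 (T t100 N)))))) (K a149 (M a61 (F (L l305 (T t505 (L l220 (L l293 (T t506 (L l217 (T t2037 N))))))))) (K a213 (Fr a170 a255 l476 (Fr a42 a21 l68 (Fr a106 a234 l390 (Fr a192 a149 l519 (V t581))))) (K a42 (M a48 (F (T t364 (L l390 (T t50 (L l28 (T t100 N))))))) (K a106 (M a48 (F (T t99 (L l73 (T t1 (L l390 (T t50 N))))))) (K a170 (M a16 (F (L l404 (T t113 (L l293 (L l390 (T t98 (L l17 (L l73 (L l390 (L l404 (T t97 (L l233 (L l404 (T t174 N))))))))))))))) (K a255 (M a16 (F (T t112 (L l289 (T t113 (L l289 (L l293 (L l296 (T t98 N))))))))) N)))))))))))))))))))⟩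
def e0_63__193_22 : Ent 4 := ⟨[a0, a63], [a193, a28], (M a85 (F (T t52 (L l228 (L l293 (T t88 (L l293 (T t89 (L l228 (T t90 (K a64 (M a16 (F (T t112 (L l84 (L l362 (T t96 (L l116 (L l293 (L l362 (T t98 N)))))))))) (K a192 (M a195 (F (T t4855 (L l309 (T t2035 (L l293 (L l296 (T t894 (L l305 (L l374 (T t2036 N))))))))))) (K a21 (M a48 (F (T t873 (L l47 (L l362 (T t100 (T t50 N))))))) (K a149 (M a61 (F (L l305 (T t505 (L l220 (L l293 (T t506 (L l217 (T t2037 N))))))))) (K a213 (Fr a170 a255 l476 (Fr a42 a21 l68 (Fr a106 a234 l390 (Fr a192 a149 l519 (V t581))))) (K a42 (M a48 (F (L l14 (T t364 (L l390 (T t50 (L l28 (L l362 (T t100 N))))))))) (K a106 (M a48 (F (T t1 (L l104 (L l362 (T t509 (L l390 (T t50 N)))))))) (K a170 (M a16 (F (L l390 (L l404 (T t112 (L l293 (L l362 (L l390 (T t98 (L l362 (L l404 (T t113 (L l233 (L l362 (L l404 (T t174 N)))))))))))))))) (K a255 (M a16 (F (T t112 (L l289 (L l362 (T t113 (L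 l289 (L l293 (L l296 (L l362 (T t98 N))))))))))) N)))))))))))))))))))⟩
def e0_63__193_23 : Ent 4 := ⟨[a0, a63], [a193, a29], (M a48 (F (T t2 (L l15 (T t1 (L l15 (T t3 (L l13 (T t0 (K a16 (M a60 (F (T t43 (L l59 (L l515 (T t64 (T t65 N))))))) (K a32 (M a60 (F (T t42 (L l15 (T t67 (L l24 (L l28 (T t65 N)))))))) (K a21 (M a192 (L l15 (F (T t837 (L l47 (L l347 (L l371 (L l515 (T t20 (L l47 (L l347 (L l371 (L l515 (T t29 (K a17 (M a25 (F (T t27 (L l47 (L l347 (L l371 (L l515 (T t20 (L l10 (L l18 (T t46 N))))))))))) (K a25 (M a17 (F (T t27 (L l347 (L l371 (L l485 (L l515 (T t242 N)))))))) N)))))))))))))))) (K a37 (M a192 (F (T t19 (L l47 (L l371 (L l515 (T t20 (L l371 (L l515 (T t21 N)))))))))) (K a53 (M a192 (F (T t19 (L l371 (L l491 (L l515 (T t21 (L l293 (T t31 N))))))))) (K a26 (M a192 (F (T t27 (L l371 (L l515 (T t20 (L l371 (L l515 (T t21 N))))))))) (K a42 (M a192 (F (T t19 (L l371 (L l515 (T t20 (L l28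 (L l371 (L l515 (T t29 N)))))))))) (K a58 (M a192 (F (T t19 (L l371 (L l515 (T t21 (L l54 (L l293 (L l498 (T t31 N)))))))))) (K a15 (M a192 (F (T t1800 (L l483 (T t27 (L l325 (L l371 (L l515 (T t20 N))))))))) N))))))))))))))))))⟩
def e0_63__193_24 : Ent 4 := ⟨[a0, a63], [a193, a30], (M a85 (F (T t52 (L l228 (L l293 (T t88 (L l293 (T t89 (L l228 (T t90 (K a64 (M a16 (F (T t258 (L l13 (L l63 (T t97 (L l116 (L l293 (T t98 N))))))))) (K a192 (M a195 (F (T t4874 (L l309 (T t2035 (L l293 (L l296 (T t894 (L l60 (L l305 (L l372 (T t2036 N)))))))))))) (K a21 (M a48 (F (T t99 (T t50 (L l47 (T t100 N)))))) (K a149 (M a61 (F (L l60 (L l305 (T t505 (L l60 (L l220 (L l293 (T t506 (L l217 (T t2037 N))))))))))) (K a213 (Fr a170 a255 l476 (Fr a42 a21 l68 (Fr a106 a234 l390 (Fr a192 a149 l519 (V t581))))) (K a42 (M a48 (F (T t364 (L l390 (T t50 (L l28 (T t100 N))))))) (K a106 (M a48 (F (T t99 (L l63 (T t1 (L l390 (T t50 N)))))))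 (K a170 (M a16 (F (L l404 (T t113 (L l293 (L l390 (T t98 (L l13 (L l63 (L l390 (L l404 (T t97 (L l233 (L l404 (T t174 N))))))))))))))) (K a255 (M a16 (F (T t112 (L l289 (T t113 (L l289 (L l293 (L l296 (T t98 N))))))))) N)))))))))))))))))))⟩
def e0_63__193_25 : Ent 4 := ⟨[a0, a63], [a193, a31], (M a60 (F (L l18 (T t67 (L l17 (T t43 (L l18 (L l515 (T t68 (L l305 (T t69 (K a20 (M a48 (F (T t451 (L l11 (L l18 (T t1 (L l11 (L l18 (L l515 (T t235 N)))))))))) (K a40 (M a48 (F (L l18 (T t1 (L l515 (T t64 (L l18 (L l52 (L l515 (T t235 N)))))))))) (K a21 (M a48 (L l18 (F (L l50 (T t247 (L l47 (L l65 (L l515 (T t64 (L l11 (L l47 (L l65 (L l515 (T t249 (L l13 (L l50 (L l485 (T t1300 (K a16 (M a26 (F (L l47 (T t251 (L l11 (T t252 (L l485 (T t70 N)))))))) (K a26 (Fr a16 a32 l40 (V t253)) N)))))))))))))))))))) (K a41 (M a192 (F (T t79 (L l18 (L l65 (L l375 (L l515 (T t35 (L l375 (L l515 (T t73 N))))))))))) (K a61 (M a149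 (F (T t177 (T t463 (L l293 (T t1130 N)))))) (K a22 (M a192 (F (T t72 (L l375 (L l515 (T t21 (L l375 (L l515 (T t73 N))))))))) (K a42 (M a192 (F (T t79 (L l375 (L l515 (T t73 (L l22 (L l375 (L l515 (T t74 N)))))))))) (K a62 (M a192 (F (T t72 (L l18 (L l375 (L l515 (T t35 (L l66 (L l293 (L l373 (L l516 (T t80 N)))))))))))) (K a3 (M a192 (F (T t1800 (L l477 (T t79 (L l307 (L l375 (L l515 (T t73 N))))))))) N))))))))))))))))))))⟩
def e0_63__193_26 : Ent 4 := ⟨[a0, a63], [a193, a40], (M a48 (F (T t1 (L l22 (T t2 (T t3 (L l22 (L l24 (T t0 (K a16 (M a85 (F (L l18 (T t52 (L l392 (T t50 (L l22 (L l233 (L l293 (T t51 N)))))))))) (K a32 (M a85 (L l24 (F (T t52 (L l392 (L l404 (T t50 (L l22 (L l28 (L l233 (L l293 (T t51 (K a36 (M a44 (F (T t52 (L l392 (L l404 (T t50 (L l22 (L l28 (L l233 (L l293 (T t51 N))))))))))) (K a44 (M a36 (F (L l52 (T t256 (L l392 (L l404 (T t50 N))))))) N)))))))))))))) (K a21 (M a192 (F (T t837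 (L l47 (L l347 (L l515 (T t20 (L l24 (L l47 (L l347 (L l515 (T t29 N)))))))))))) (K a37 (M a192 (F (T t19 (L l47 (L l515 (T t20 (L l515 (T t21 N)))))))) (K a53 (M a192 (F (T t19 (L l491 (L l515 (T t21 (L l22 (L l293 (T t31 N))))))))) (K a26 (M a192 (F (T t202 (T t27 (L l515 (T t20 N)))))) (K a42 (M a192 (L l22 (F (T t19 (L l515 (T t20 (L l24 (L l28 (L l515 (T t29 (K a41 (M a43 (F (T t837 (L l388 (L l515 (T t4875 N)))))) (K a43 (M a41 (F (T t27 (L l515 (T t20 (L l390 (L l393 (T t46 N)))))))) N)))))))))))) (K a58 (M a192 (F (T t19 (L l515 (T t21 (L l22 (L l54 (L l293 (L l498 (T t31 N)))))))))) (K a15 (M a192 (F (T t54 (L l483 (T t27 (L l469 (L l515 (T t21 N)))))))) N))))))))))))))))))⟩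
def e0_63__193_27 : Ent 4 := ⟨[a0, a63], [a193, a41], (M a149 (F (T t177 (L l22 (L l228 (L l293 (T t5 (L l65 (L l228 (T t175 (L l22 (L l293 (T t176 (K a192 (M a53 (L l228 (F (L l22 (T t178 (L l233 (L l236 (T t179 (L l22 (L l233 (L l236 (L l293 (L l296 (T t180 (K a194 (M a195 (F (L l22 (T t178 (L l305 (L l514 (T t4876 N))))))) (K a195 (M a194 (F (L l22 (T t939 (L l233 (L l236 (T t179 (L l22 (L l233 (L l236 (L l293 (L l296 (T t180 N))))))))))))) N)))))))))))))))) (K a21 (M a48 (L l65 (F (T t7 (L l18 (L l233 (T t14 (T t13 (K a1 (M a61 (L l305 (F (T t7 (L l22 (T t18 (K a65 (M a129 (F (T t7 (L l22 (L l50 (L l57 (T t17 N))))))) (K a129 (M a65 (F (T t7 (L l152 (T t688 N))))) N)))))))) (K a61 (M a1 (F (T t7 (L l18 (L l29 (T t295 N)))))) N)))))))))) (K a85 (M a16 (F (L l22 (T t97 (L l144 (T t190 (L l22 (L l57 (L l94 (T t278 N)))))))))) (K a213 (Fr a106 a192 l519 (Fr a42 a21 l68 (Fr a170 a234 l390 (Fr a255 a85 l476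 (V t582))))) (K a42 (M a48 (L l22 (F (L l228 (T t187 (L l390 (T t13 (L l54 (L l233 (T t14 (K a40 (M a43 (F (L l390 (T t7 (L l66 (L l485 (T t3643 N))))))) (K a43 (M a40 (F (L l228 (T t11 (L l28 (L l57 (L l69 (T t3241 N)))))))) N)))))))))))) (K a106 (M a48 (F (L l65 (T t1 (L l233 (L l498 (T t14 (L l22 (L l233 (L l293 (L l390 (L l498 (T t6 (L l22 (L l293 (L l390 (T t26 N))))))))))))))))) (K a170 (M a48 (F (L l228 (T t11 (L l65 (L l462 (T t1 (L l390 (T t13 N))))))))) (K a191 (M a48 (F (T t13 (L l22 (L l233 (L l293 (T t6 N))))))) (K a255 (M a16 (F (L l22 (T t112 (L l266 (T t190 (L l22 (L l289 (L l293 (L l296 (T t191 N))))))))))) N))))))))))))))))))))))⟩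
def e0_63__193_28 : Ent 4 := ⟨[a0, a63], [a193, a43], (M a48 (F (T t1 (L l22 (T t2 (L l27 (T t3 (L l22 (T t0 (K a16 (M a60 (F (T t451 (L l22 (L l305 (T t69 (L l22 (T t268 N)))))))) (K a32 (M a60 (F (T t451 (L l22 (L l28 (L l305 (T t69 (L l22 (L l28 (T t268 N)))))))))) (K a21 (M a192 (F (T t837 (L l47 (L l347 (L l515 (T t20 (L l47 (L l347 (L l515 (T t29 N))))))))))) (K a37 (M a192 (F (T t19 (L l47 (L l515 (T t20 (L l515 (T t21 N)))))))) (K a53 (M a192 (F (T t19 (L l491 (L l515 (T t21 (L l22 (L l293 (L l393 (T t31 N)))))))))) (K a26 (M a192 (F (T t27 (L l515 (T t20 (L l515 (T t21 N))))))) (K a42 (M a192 (L l22 (F (T t19 (L l515 (T t20 (L l28 (L l515 (T t29 (K a40 (M a41 (F (T t27 (L l515 (T t20 (L l390 (L l393 (T t46 N)))))))) (K a41 (M a40 (F (T t27 (L l65 (L l515 (T t271 N)))))) N))))))))))) (K a58 (M a192 (F (T t19 (L l515 (T t21 (L l22 (L l54 (L l293 (L l393 (L l498 (T t31 N))))))))))) (K a15 (M a192 (F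 (T t1922 (L l325 (L l515 (T t20 (L l469 (L l515 (T t21 N))))))))) N))))))))))))))))))⟩
def e0_63__193_29 : Ent 4 := ⟨[a0, a63], [a193, a44], (M a85 (F (T t52 (L l228 (L l293 (T t88 (L l293 (T t89 (L l228 (T t90 (K a64 (M a48 (F (T t50 (L l24 (L l293 (T t568 N)))))) (K a192 (M a195 (F (T t883 (L l309 (T t2035 (L l293 (L l296 (T t894 (L l24 (L l305 (T t2036 N))))))))))) (K a21 (M a48 (F (T t873 (L l24 (L l47 (T t100 (T t50 N))))))) (K a149 (M a61 (F (L l305 (T t505 (L l220 (L l293 (T t506 (L l29 (L l217 (T t2037 N)))))))))) (K a213 (Fr a170 a255 l476 (Fr a42 a21 l68 (Fr a106 a234 l390 (Fr a192 a149 l519 (V t581))))) (K a42 (M a48 (F (L l398 (T t364 (L l390 (T t50 (L l24 (L l28 (T t100 N))))))))) (K a106 (M a48 (F (T t1 (L l24 (L l104 (T t509 (L l390 (T t50 N)))))))) (K a170 (M a16 (F (L l24 (L l404 (T t113 (L l293 (L l390 (T t98 (L l24 (L l390 (L l404 (T t97 (L l24 (L l233 (L l404 (T t174 N))))))))))))))))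 (K a255 (M a16 (F (L l24 (T t112 (L l289 (L l293 (L l296 (T t98 (L l24 (L l289 (T t113 N))))))))))) N)))))))))))))))))))⟩
def e0_63__193_30 : Ent 4 := ⟨[a0, a63], [a193, a45], (M a85 (F (T t52 (L l228 (L l293 (T t88 (L l293 (T t89 (L l228 (T t90 (K a64 (M a16 (F (T t258 (L l63 (T t97 (L l116 (L l293 (T t98 N)))))))) (K a192 (M a195 (F (T t883 (L l309 (T t2035 (L l293 (L l296 (T t894 (L l305 (T t2036 N)))))))))) (K a21 (M a48 (F (T t99 (T t50 (L l47 (T t100 N)))))) (K a149 (M a61 (F (L l305 (T t505 (L l220 (L l293 (T t506 (L l25 (L l217 (T t2037 N)))))))))) (K a213 (Fr a170 a255 l476 (Fr a42 a21 l68 (Fr a106 a234 l390 (Fr a192 a149 l519 (V t581))))) (K a42 (M a48 (F (T t364 (L l390 (T t50 (L l28 (T t100 N))))))) (K a106 (M a48 (F (T t99 (L l63 (T t1 (L l390 (T t50 N))))))) (K a170 (M a16 (F (L l404 (T t113 (L l293 (L l390 (T t98 (L l63 (L l390 (L l404 (T t97 (L l233 (L l404 (T t174 N)))))))))))))) (K a255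 (M a16 (F (T t112 (L l289 (T t113 (L l289 (L l293 (L l296 (T t98 N))))))))) N)))))))))))))))))))⟩
def e0_63__193_31 : Ent 4 := ⟨[a0, a63], [a193, a46], (M a149 (F (L l228 (T t175 (L l26 (L l293 (T t25 (L l26 (L l293 (T t176 (L l408 (T t177 (K a192 (M a53 (L l228 (F (L l26 (T t178 (L l233 (L l236 (T t179 (L l26 (L l233 (L l236 (L l293 (L l296 (T t180 (K a194 (M a195 (F (L l26 (T t178 (L l305 (L l514 (T t4876 N))))))) (K a195 (M a194 (F (L l26 (T t939 (L l233 (L l236 (T t179 (L l26 (L l233 (L l236 (L l293 (L l296 (T t180 N))))))))))))) N)))))))))))))))) (K a21 (M a48 (F (L l233 (T t16 (L l408 (T t13 (L l18 (L l233 (T t14 N))))))))) (K a85 (M a16 (F (L l26 (T t97 (L l144 (L l408 (T t190 (L l26 (L l94 (T t278 N)))))))))) (K a213 (Fr a106 a192 l519 (Fr a42 a21 l68 (Fr a170 a234 l390 (Fr a255 a85 l476 (V t582))))) (K a42 (M a34 (F (L l56 (T t2434 (L l390 (L l408 (L l485 (T t280 (L l56 (L l396 (T t281 (L l390 (L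 l396 (L l408 (T t282 N))))))))))))))) (K a106 (M a166 (F (L l132 (T t283 (L l26 (L l293 (L l390 (T t284 (L l132 (L l396 (T t285 (L l26 (L l132 (L l293 (L l390 (T t286 N)))))))))))))))) (K a170 (M a48 (F (L l228 (T t11 (L l462 (T t1 (L l390 (L l408 (T t13 N))))))))) (K a191 (M a204 (F (L l408 (T t1043 (L l26 (L l293 (L l396 (L l485 (T t1112 N))))))))) (K a255 (M a16 (F (L l26 (T t112 (L l266 (L l408 (T t190 (L l26 (L l289 (L l293 (L l296 (T t191 N)))))))))))) N)))))))))))))))))))))⟩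
def e0_63__193_32 : Ent 4 := ⟨[a0, a63], [a193, a47], (M a149 (F (L l228 (T t175 (L l28 (L l293 (T t25 (L l28 (L l293 (T t176 (L l411 (T t177 (K a192 (M a29 (L l228 (F (L l23 (L l28 (T t956 (L l23 (L l269 (L l272 (T t641 (L l28 (L l269 (L l272 (L l293 (L l296 (T t957 (K a194 (M a195 (F (L l23 (L l28 (T t1748 (L l305 (L l409 (L l514 (T t4876 N))))))))) (K a195 (M a194 (F (L l23 (L l28 (T t1748 (L l23 (L l269 (L l272 (T t641 (L l28 (L l269 (L l272 (L l293 (L l296 (T t957 N))))))))))))))) N)))))))))))))))))) (K a21 (M a48 (F (L l233 (T t16 (L l411 (T t13 (L l18 (L l233 (L l397 (T t14 N)))))))))) (K a85 (M a48 (F (L l233 (T t184 (L l28 (L l455 (T t2 (L l144 (L l411 (T t13 N)))))))))) (K a213 (Fr a106 a192 l519 (Fr a42 a21 l68 (Fr a170 a234 l390 (Fr a255 a85 l476 (V t582))))) (K a42 (M a32 (F (L l228 (T t983 (L l390 (L l411 (T t984 (L l54 (L l233 (L l397 (T t985 (L l390 (L l397 (L l411 (T t986 N)))))))))))))))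 (K a106 (M a165 (F (L l130 (L l335 (T t987 (L l28 (L l293 (L l390 (T t988 (L l130 (L l335 (L l397 (T t989 (L l28 (L l130 (L l293 (L l390 (T t990 N)))))))))))))))))) (K a170 (M a12 (F (T t152 (L l228 (T t991 (L l390 (L l411 (T t648 N)))))))) (K a191 (M a204 (F (L l411 (T t1043 (L l28 (L l293 (L l399 (L l485 (T t1112 N))))))))) (K a255 (M a48 (F (L l233 (T t16 (L l28 (L l469 (T t2 (L l266 (L l411 (T t13 N)))))))))) N)))))))))))))))))))))⟩
def e0_63__193_33 : Ent 4 := ⟨[a0, a63], [a193, a60], (M a48 (F (T t48 (L l63 (T t1 (L l63 (T t2 (L l63 (T t3 (L l63 (T t0 (K a16 (M a85 (F (T t4539 (L l442 (T t50 (L l233 (L l293 (T t51 N)))))))) (K a32 (M a85 (F (L l434 (T t52 (L l404 (L l442 (T t50 (L l28 (L l233 (L l293 (T t51 N))))))))))) (K a21 (M a192 (F (T t54 (L l442 (T t27 (L l47 (L l347 (L l515 (T t29 N))))))))) (K a37 (M a192 (F (T t54 (L l442 (T t27 (L l434 (L l515 (T t21 N)))))))) (K a53 (M a192 (F (T t55 (L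 l434 (L l491 (L l515 (T t21 (L l293 (T t31 N))))))))) (K a26 (M a192 (F (T t1922 (L l506 (L l515 (T t20 (L l434 (L l515 (T t21 N))))))))) (K a42 (M a192 (F (T t36 (L l506 (L l515 (T t20 (L l28 (L l515 (T t29 N))))))))) (K a58 (M a192 (F (T t1922 (L l434 (L l515 (T t21 (L l54 (L l293 (L l498 (T t31 N)))))))))) (K a15 (M a149 (L l63 (F (T t4854 (L l228 (L l339 (L l514 (T t11 (L l233 (T t14 (K a45 (M a30 (F (T t1274 (L l233 (L l293 (T t6 N)))))) (K a30 (M a45 (F (T t1274 (L l233 (L l293 (T t6 N)))))) N)))))))))))) N))))))))))))))))))))⟩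
def e0_63__193_34 : Ent 4 := ⟨[a0, a63], [a193, a61], (M a149 (F (T t177 (L l228 (L l293 (T t5 (L l65 (L l228 (T t175 (L l293 (T t176 (K a192 (M a53 (L l228 (F (T t178 (L l233 (L l236 (T t179 (L l233 (L l236 (L l293 (L l296 (L l443 (T t180 (K a194 (M a195 (F (T t939 (L l305 (L l514 (T t4876 N)))))) (K a195 (M a194 (F (T t939 (L l233 (L l236 (T t179 (L l233 (L l236 (L l293 (L l296 (L l443 (T t180 N)))))))))))) N))))))))))))))) (K a21 (M a48 (L l65 (F (T t7 (L l18 (L l233 (T t14 (T t13 (K a1 (M a41 (L l305 (F (T t7 (L l18 (L l233 (T t14 (T t13 (K a65 (M a129 (F (T t7 (L l76 (L l431 (T t10 (L l18 (L l233 (T t14 N))))))))) (K a129 (M a65 (F (T t7 (L l152 (T t688 N))))) N)))))))))) (K a41 (M a1 (F (T t7 (L l18 (L l29 (T t295 N)))))) N)))))))))) (K a85 (M a16 (F (T t97 (L l144 (T t190 (L l94 (T t278 N))))))) (K a213 (Fr a106 a192 l519 (Fr a42 a21 l68 (Fr a170 a234 l390 (Fr a255 a85 l476 (V t582))))) (K a42 (M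 a48 (F (L l54 (L l233 (T t16 (L l390 (T t13 (L l54 (L l233 (T t14 N)))))))))) (K a106 (M a48 (F (L l65 (L l411 (T t3 (L l233 (L l498 (T t14 (L l233 (L l293 (L l390 (L l498 (T t6 (L l293 (L l390 (T t26 N)))))))))))))))) (K a170 (M a48 (F (L l233 (T t184 (L l35 (L l65 (L l462 (T t1 (L l390 (T t13 N)))))))))) (K a191 (M a48 (F (T t13 (L l233 (L l293 (T t6 N)))))) (K a255 (M a16 (F (T t112 (L l266 (T t190 (L l289 (L l293 (L l296 (T t191 N))))))))) N))))))))))))))))))))⟩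
def e0_63__193_35 : Ent 4 := ⟨[a0, a63], [a193, a62], (M a48 (F (T t1 (L l36 (L l66 (T t2 (T t3 (L l66 (T t0 (K a16 (M a85 (F (L l18 (T t52 (T t50 (L l36 (L l66 (L l233 (L l293 (T t51 N)))))))))) (K a32 (M a85 (F (T t52 (L l404 (T t50 (L l28 (L l36 (L l66 (L l233 (L l293 (T t51 N))))))))))) (K a21 (M a192 (F (T t837 (L l47 (L l347 (L l515 (T t20 (L l47 (L l347 (L l515 (T t29 N))))))))))) (K a37 (M a192 (F (T t19 (L l47 (L l515 (T t20 (L l515 (T t21 N)))))))) (K a53 (M a192 (F (T t19 (L l491 (L l515 (T t21 (L l66 (L l293 (L l516 (T t31 N)))))))))) (K a26 (M a192 (F (T t27 (L l515 (T t20 (L l515 (T t21 N))))))) (K a42 (M a192 (L l66 (F (T t19 (L l515 (T t20 (L l28 (L l515 (T t29 (K a2 (M a22 (F (T t27 (L l515 (T t20 (L l390 (L l516 (T t46 N)))))))) (K a22 (M a2 (F (T t19 (L l305 (L l390 (L l516 (T t1365 N))))))) N))))))))))) (K a58 (M a50 (F (L l485 (T t301 (L l54 (L l60 (L l66 (T t302 (L l485 (T t303 N))))))))))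 (K a15 (M a192 (F (T t1922 (L l325 (L l515 (T t20 (L l469 (L l515 (T t21 N))))))))) N))))))))))))))))))⟩
def e0_63__193_36 : Ent 4 := ⟨[a0, a63], [a193, a64], (M a48 (F (T t1 (T t2 (T t3 (T t0 (K a16 (M a60 (F (T t43 (L l515 (T t64 (T t65 N)))))) (K a32 (M a60 (F (T t67 (L l515 (T t64 (L l24 (L l28 (T t65 N)))))))) (K a21 (M a101 (F (T t312 (L l116 (L l228 (L l233 (T t313 (L l18 (L l233 (T t314 N)))))))))) (K a37 (M a52 (F (T t82 (T t83 (L l21 (L l28 (T t84 N))))))) (K a53 (M a12 (F (T t151 (T t443 (L l47 (T t146 N)))))) (K a26 (M a56 (F (T t133 (T t134 (L l12 (L l18 (T t135 N))))))) (K a42 (M a101 (F (T t333 (T t334 (L l54 (L l233 (T t314 N))))))) (K a58 (M a12 (F (T t443 (T t122 (T t146 N))))) (K a15 (M a4 (F (T t129 (L l63 (T t528 (T t520 N)))))) N)))))))))))))))⟩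
def e0_63__193_37 : Ent 4 := ⟨[a0, a63], [a193, a65], (M a48 (L l305 (F (T t1 (T t2 (T t3 (T t0 (K a16 (M a149 (L l305 (F (T t7 (L l76 (L l228 (L l293 (T t5 (L l233 (L l293 (T t6 (K a1 (M a129 (F (L l76 (T t10 (L l233 (L l293 (T t6 N))))))) (K a129 (M a1 (F (T t534 (L l233 (L l368 (T t16 N)))))) N))))))))))))) (K a32 (M a149 (L l305 (F (L l228 (T t11 (L l28 (L l293 (T t176 (L l28 (L l233 (L l293 (T t6 (K a1 (M a129 (F (L l76 (T t10 (L l28 (L l233 (L l293 (T t6 N)))))))) (K a129 (M a1 (F (L l28 (T t534 (L l233 (T t16 N)))))) N)))))))))))))) (K a21 (M a149 (L l305 (F (T t7 (L l18 (L l233 (T t14 (T t13 (K a1 (M a129 (L l65 (F (T t7 (L l76 (T t10 (L l18 (L l233 (T t14 (K a41 (M a61 (F (T t7 (L l22 (L l50 (L l57 (T t17 N))))))) (K a61 (M a41 (F (T t7 (L l76 (L l431 (T t10 (L l18 (L l233 (T t14 N))))))))) N))))))))))) (K a129 (M a1 (F (T t7 (L l485 (T t535 N))))) N)))))))))) (K a37 (M a1 (F (T t295 (L l28 (L l515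 (T t534 (L l25 (L l28 (T t536 (T t537 N)))))))))) (K a53 (M a1 (F (T t538 (T t295 (L l31 (L l35 (L l515 (T t539 (L l31 (T t540 N)))))))))) (K a26 (M a3 (L l305 (F (T t559 (L l54 (T t137 (L l16 (L l18 (T t560 (K a1 (M a129 (F (L l76 (T t561 (L l16 (L l18 (L l65 (T t560 (L l18 (L l76 (T t562 N))))))))))) (K a129 (Fr a1 a2 l0 (V t563)) N))))))))))) (K a42 (M a192 (L l305 (F (T t19 (L l515 (T t20 (L l28 (L l515 (T t29 (K a1 (M a129 (F (T t27 (L l54 (L l233 (L l390 (T t24 N))))))) (K a129 (M a1 (F (L l390 (T t22 (L l66 (L l485 (T t535 N))))))) N))))))))))) (K a58 (M a1 (F (T t295 (L l54 (L l515 (T t534 (L l54 (L l485 (L l515 (T t541 (L l36 (L l54 (T t540 N))))))))))))) (K a15 (M a1 (F (T t538 (L l73 (L l485 (T t535 (T t542 N))))))) (K a1 (M a129 (F (T t0 (L l65 (T t1 (L l5 (T t2 (L l65 (T t3 (K a16 (M a149 (F (L l76 (T t10 (L l233 (L l293 (T t6 N))))))) (K a32 (M a149 (F (L l76 (T t10 (L l28 (L l233 (L l293 (T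 t6 N)))))))) (K a21 (M a149 (L l65 (F (T t7 (L l76 (T t10 (L l18 (L l233 (T t14 (K a41 (M a61 (F (T t7 (L l22 (L l50 (L l57 (T t17 N))))))) (K a61 (M a41 (F (T t7 (L l76 (L l431 (T t10 (L l18 (L l233 (T t14 N))))))))) N))))))))))) (K a37 (M a192 (F (T t19 (L l233 (T t24 N))))) (K a53 (M a149 (F (L l76 (T t10 (L l293 (T t26 N)))))) (K a26 (M a192 (F (T t28 (L l54 (L l233 (T t24 N)))))) (K a42 (M a192 (F (T t27 (L l54 (L l233 (L l390 (T t24 N))))))) (K a58 (M a189 (F (T t40 (L l54 (L l293 (L l473 (T t41 N))))))) (K a15 (M a192 (F (T t36 (L l233 (T t24 N))))) N)))))))))))))))))) (K a129 (M a1 (F (T t2 (L l485 (T t535 (L l515 (T t534 N))))))) N))))))))))))))))))⟩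
def e0_63__193_38 : Ent 4 := ⟨[a0, a63], [a193, a66], (M a48 (F (T t1 (T t2 (T t3 (T t0 (K a16 (M a60 (F (T t42 (L l14 (L l18 (L l309 (T t67 (T t65 N)))))))) (K a32 (M a60 (F (T t42 (L l309 (T t67 (L l24 (L l28 (T t65 N)))))))) (K a21 (M a192 (F (T t28 (L l47 (L l347 (L l515 (T t20 (L l47 (L l347 (L l515 (T t29 N))))))))))) (K a37 (M a192 (F (T t19 (L l47 (L l515 (T t20 (L l515 (T t21 N)))))))) (K a53 (M a192 (F (T t19 (L l491 (L l515 (T t21 (L l142 (L l293 (T t31 N))))))))) (K a26 (M a192 (F (T t28 (L l515 (T t20 (L l515 (T t21 N))))))) (K a42 (M a192 (F (T t19 (L l515 (T t20 (L l28 (L l515 (T t29 N)))))))) (K a58 (M a192 (F (T t19 (L l515 (T t21 (L l54 (L l142 (L l293 (L l498 (T t31 N)))))))))) (K a15 (M a192 (F (T t36 (L l325 (L l515 (T t20 (L l469 (L l515 (T t21 N))))))))) N)))))))))))))))⟩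
def e0_63__193_39 : Ent 4 := ⟨[a0, a63], [a193, a67], (M a48 (F (T t1 (T t2 (T t3 (T t0 (K a16 (M a60 (F (T t42 (L l14 (L l18 (L l307 (T t67 (T t65 N)))))))) (K a32 (M a60 (F (T t42 (L l307 (T t67 (L l24 (L l28 (T t65 N)))))))) (K a21 (M a192 (F (T t28 (L l47 (L l347 (L l515 (T t20 (L l47 (L l347 (L l515 (T t29 N))))))))))) (K a37 (M a192 (F (T t19 (L l47 (L l515 (T t20 (L l143 (L l515 (T t21 N))))))))) (K a53 (M a192 (F (T t19 (L l143 (L l491 (L l515 (T t21 (L l293 (T t31 N))))))))) (K a26 (M a192 (F (T t22 (L l121 (T t27 (L l143 (L l515 (T t21 N)))))))) (K a42 (M a192 (F (T t19 (L l515 (T t20 (L l28 (L l515 (T t29 N)))))))) (K a58 (M a192 (F (T t19 (L l143 (L l515 (T t21 (L l54 (L l293 (L l498 (T t31 N)))))))))) (K a15 (M a192 (F (T t54 (L l121 (L l483 (T t27 (L l143 (L l469 (L l515 (T t21 N)))))))))) N)))))))))))))))⟩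
def e0_63__193_40 : Ent 4 := ⟨[a0, a63], [a193, a68], (M a48 (F (T t1 (T t2 (T t3 (T t0 (K a16 (M a60 (F (T t43 (L l515 (T t64 (T t65 N)))))) (K a32 (M a60 (F (T t67 (L l515 (T t64 (L l24 (L l28 (T t65 N)))))))) (K a21 (M a192 (F (T t28 (L l47 (L l347 (L l515 (T t20 (L l47 (L l347 (L l515 (T t29 N))))))))))) (K a37 (M a192 (F (T t19 (L l47 (L l515 (T t20 (L l515 (T t21 N)))))))) (K a53 (M a192 (F (T t19 (L l491 (L l515 (T t21 (L l293 (T t31 N)))))))) (K a26 (M a192 (F (T t27 (L l515 (T t20 (L l515 (T t21 N))))))) (K a42 (M a192 (F (T t19 (L l515 (T t20 (L l28 (L l515 (T t29 N)))))))) (K a58 (M a192 (F (T t19 (L l515 (T t21 (L l54 (L l293 (L l498 (T t31 N))))))))) (K a15 (M a192 (F (T t54 (L l483 (T t27 (L l469 (L l515 (T t21 N)))))))) N)))))))))))))))⟩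
def e0_63__193_41 : Ent 4 := ⟨[a0, a63], [a193, a69], (M a48 (F (T t1 (L l311 (T t2 (T t3 (T t0 (K a16 (M a60 (F (T t43 (L l515 (T t64 (L l311 (T t65 N))))))) (K a32 (M a60 (F (T t42 (T t67 (L l24 (L l28 (L l311 (T t65 N)))))))) (K a21 (M a192 (F (T t28 (L l47 (L l347 (L l515 (T t20 (L l47 (L l347 (L l515 (T t29 N))))))))))) (K a37 (M a192 (F (T t19 (L l47 (L l515 (T t20 (L l515 (T t21 N)))))))) (K a53 (M a192 (F (T t19 (L l491 (L l515 (T t21 (L l293 (T t31 N)))))))) (K a26 (M a192 (F (T t27 (L l515 (T t20 (L l515 (T t21 N))))))) (K a42 (M a192 (F (T t19 (L l515 (T t20 (L l28 (L l515 (T t29 N)))))))) (K a58 (M a192 (F (T t19 (L l515 (T t21 (L l54 (L l293 (L l498 (T t31 N))))))))) (K a15 (M a85 (F (T t567 (L l293 (T t568 N))))) N))))))))))))))))⟩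
def e0_63__193_42 : Ent 4 := ⟨[a0, a63], [a193, a70], (M a85 (F (T t52 (L l228 (L l293 (T t88 (L l293 (T t89 (L l228 (T t90 (K a64 (M a16 (F (T t97 (L l77 (L l84 (T t96 (L l116 (L l293 (T t98 N))))))))) (K a192 (M a195 (F (T t883 (L l309 (L l333 (T t2035 (L l293 (L l296 (T t894 (L l305 (T t2036 N))))))))))) (K a21 (M a48 (F (T t99 (T t50 (L l47 (T t100 N)))))) (K a149 (M a61 (F (L l351 (T t529 (L l220 (L l293 (T t506 (L l217 (T t2037 N))))))))) (K a213 (Fr a170 a255 l476 (Fr a42 a21 l68 (Fr a106 a234 l390 (Fr a192 a149 l519 (V t581))))) (K a42 (M a48 (F (T t364 (L l390 (T t50 (L l28 (T t100 N))))))) (K a106 (M a48 (F (T t1 (L l77 (L l104 (T t509 (L l390 (T t50 N)))))))) (K a170 (M a16 (F (L l404 (T t113 (L l293 (L l390 (T t98 (L l390 (L l404 (T t97 (L l233 (L l404 (T t174 N))))))))))))) (K a255 (M a16 (F (T t112 (L l289 (T t113 (L l289 (L l293 (L l296 (T t98 N))))))))) N)))))))))))))))))))⟩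
def e0_63__193_43 : Ent 4 := ⟨[a0, a63], [a193, a71], (M a85 (F (T t52 (L l228 (L l293 (T t88 (L l293 (T t89 (L l228 (T t90 (K a64 (M a16 (F (T t97 (L l77 (L l84 (L l127 (T t96 (L l116 (L l293 (T t98 N)))))))))) (K a192 (M a195 (F (T t883 (L l309 (L l331 (T t2035 (L l293 (L l296 (T t894 (L l305 (T t2036 N))))))))))) (K a21 (M a48 (F (T t99 (T t50 (L l47 (T t100 N)))))) (K a149 (M a61 (F (L l351 (T t529 (L l220 (L l293 (T t506 (L l217 (T t2037 N))))))))) (K a213 (Fr a170 a255 l476 (Fr a42 a21 l68 (Fr a106 a234 l390 (Fr a192 a149 l519 (V t581))))) (K a42 (M a48 (F (T t364 (L l390 (T t50 (L l28 (T t100 N))))))) (K a106 (M a48 (F (T t1 (L l77 (L l104 (L l127 (T t509 (L l390 (T t50 N))))))))) (K a170 (M a16 (F (L l404 (T t113 (L l293 (L l390 (T t98 (L l390 (L l404 (T t97 (L l233 (L l331 (L l404 (T t174 N)))))))))))))) (K a255 (M a16 (F (T t112 (L l289 (T t113 (L l289 (L l293 (L l296 (T t98 N))))))))) N)))))))))))))))))))⟩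
def e0_63__193_44 : Ent 4 := ⟨[a0, a63], [a193, a72], (M a48 (F (T t1 (T t2 (T t3 (T t0 (K a16 (M a60 (F (T t43 (L l515 (T t64 (T t65 N)))))) (K a32 (M a60 (F (T t67 (L l515 (T t64 (L l24 (L l28 (T t65 N)))))))) (K a21 (M a192 (F (T t28 (L l47 (L l347 (L l515 (T t20 (L l47 (L l347 (L l515 (T t29 N))))))))))) (K a37 (M a192 (F (T t19 (L l47 (L l515 (T t20 (L l515 (T t21 N)))))))) (K a53 (M a192 (F (T t19 (L l491 (L l515 (T t21 (L l132 (L l293 (T t31 N))))))))) (K a26 (M a192 (F (T t28 (L l515 (T t20 (L l515 (T t21 N))))))) (K a42 (M a192 (F (T t19 (L l515 (T t20 (L l28 (L l515 (T t29 N)))))))) (K a58 (M a192 (F (T t19 (L l515 (T t21 (L l54 (L l132 (L l293 (L l498 (T t31 N)))))))))) (K a15 (M a192 (F (T t36 (L l325 (L l515 (T t20 (L l469 (L l515 (T t21 N))))))))) N)))))))))))))))⟩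
def e0_63__193_45 : Ent 4 := ⟨[a0, a63], [a193, a73], (M a12 (L l335 (F (T t122 (T t151 (T t152 (L l320 (T t153 (K a4 (M a13 (F (T t4877 (L l1 (L l50 (T t4878 (L l1 (T t3915 (L l485 (T t4879 N)))))))))) (K a8 (M a13 (L l320 (F (T t4877 (T t4878 (L l56 (T t3915 (L l56 (L l485 (T t4879 (K a138 (M a203 (F (T t4877 (T t4878 (L l56 (T t3915 (L l56 (L l485 (T t4879 N))))))))) (K a203 (M a138 (F (T t4877 (L l81 (L l228 (T t4880 (L l56 (T t3915 N)))))))) N)))))))))))) (K a21 (M a15 (L l335 (F (T t2544 (L l47 (L l50 (T t2591 (L l65 (L l320 (L l515 (T t4881 (K a133 (Fr a13 a14 l3 (V t4882)) (K a13 (M a133 (F (L l78 (T t4883 (L l233 (L l320 (T t4884 N))))))) N))))))))))))) (K a25 (M a13 (F (L l515 (T t3911 (L l305 (T t3914 (L l53 (L l56 (T t3915 N))))))))) (K a29 (M a13 (F (T t4885 (L l305 (T t3914 (L l320 (L l485 (T t4886 (L l15 (L l485 (T t4887 N))))))))))) (K a38 (M a15 (L l335 (F (L l50 (T t2591 (L l26 (T t2544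 (L l26 (T t716 (K a133 (Fr a13 a14 l3 (V t4882)) (K a13 (M a133 (F (L l26 (T t723 (L l78 (L l85 (T t4888 N))))))) N))))))))))) (K a42 (M a15 (L l335 (F (T t2591 (L l26 (L l28 (T t2544 (L l26 (L l28 (L l54 (L l56 (L l320 (L l515 (T t4881 (K a133 (Fr a13 a14 l3 (V t4882)) (K a13 (M a133 (F (L l78 (L l390 (T t4883 (L l54 (L l56 (L l233 (L l320 (T t4884 N)))))))))) N)))))))))))))))) (K a46 (M a13 (F (L l60 (T t4878 (L l60 (L l305 (T t3914 (L l26 (L l320 (L l485 (T t4886 (L l60 (L l485 (T t4887 N)))))))))))))) (K a51 (M a13 (F (T t4877 (L l43 (L l305 (T t3914 (T t3915 N))))))) (K a133 (M a13 (F (T t151 (L l305 (T t3914 (L l515 (T t3911 N))))))) (K a13 (M a133 (F (T t151 (L l59 (T t122 (T t152 (L l320 (T t153 (K a4 (M a192 (F (T t4889 (L l269 (T t221 N))))) (K a8 (M a149 (L l320 (F (L l269 (T t959 (L l56 (L l81 (L l293 (T t1797 (K a138 (M a203 (F (L l269 (T t959 (L l56 (L l81 (L l293 (T t1797 N)))))))) (K a203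 (M a138 (F (L l269 (T t650 (L l56 (L l81 (L l293 (T t1011 N)))))))) N))))))))))) (K a21 (M a192 (F (T t4889 (L l269 (T t221 N))))) (K a25 (M a192 (L l71 (F (T t4889 (L l269 (T t221 (K a49 (M a37 (L l485 (F (T t4889 (L l15 (L l59 (L l515 (T t450 (K a145 (M a97 (F (T t449 (L l15 (T t4890 N))))) (K a97 (M a145 (F (T t449 (L l5 (L l15 (L l380 (T t4891 N))))))) N)))))))))) (K a37 (M a49 (F (L l515 (T t467 (L l75 (L l320 (T t4892 N))))))) N)))))))) (K a29 (M a61 (F (T t529 (T t4893 (L l5 (L l305 (L l320 (T t4894 (L l5 (L l13 (L l305 (L l320 (T t4895 (K a60 (Fr a21 a42 l68 (Fr a4 a8 l4 (Fr a55 a38 l50 (Fr a1 a41 l65 (V t4896))))) N)))))))))))))) (K a38 (M a192 (F (T t202 (L l5 (L l78 (L l320 (T t4897 N))))))) (K a42 (M a192 (F (L l320 (T t4892 (L l26 (L l269 (L l390 (T t221 N)))))))) (K a46 (M a192 (F (T t449 (L l26 (L l293 (L l408 (T t4898 N))))))) (K a51 (M a192 (F (T t1800 (L l5 (L l78 (L l320 (T t4897 N)))))))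 N))))))))))))))))) N)))))))))))))))))))⟩
def e0_63__193_46 : Ent 4 := ⟨[a0, a63], [a193, a74], (M a12 (F (T t122 (T t151 (T t152 (T t153 (K a4 (M a60 (F (T t43 (L l336 (L l339 (L l515 (T t398 (T t448 N)))))))) (K a8 (M a60 (F (T t67 (L l336 (L l339 (L l515 (T t398 (L l52 (L l56 (T t448 N)))))))))) (K a21 (M a192 (F (T t156 (L l15 (L l347 (L l515 (T t450 (L l15 (L l347 (L l515 (T t157 N))))))))))) (K a25 (M a192 (F (T t156 (L l15 (L l515 (T t450 (L l515 (T t21 N)))))))) (K a29 (M a192 (F (T t156 (L l371 (L l515 (T t21 (L l78 (L l130 (L l293 (T t160 N)))))))))) (K a38 (M a192 (F (T t156 (L l515 (T t450 (L l515 (T t21 N))))))) (K a42 (M a192 (F (T t156 (L l515 (T t450 (L l56 (L l515 (T t157 N)))))))) (K a46 (M a192 (F (T t156 (L l515 (T t21 (L l26 (L l78 (L l130 (L l293 (L l408 (T t160 N))))))))))) (K a51 (M a192 (F (T t159 (L l415 (L l515 (T t450 (L l439 (L l515 (T t21 N))))))))) N)))))))))))))))⟩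
def e0_63__193_47 : Ent 4 := ⟨[a0, a63], [a193, a75], (M a85 (F (T t52 (L l228 (L l293 (T t88 (L l293 (T t89 (L l228 (T t90 (K a64 (M a16 (F (T t258 (L l337 (T t97 (L l116 (L l293 (T t98 N)))))))) (K a192 (M a195 (F (T t883 (L l309 (T t2035 (L l131 (L l293 (L l296 (T t894 (L l305 (T t2036 N))))))))))) (K a21 (M a48 (F (T t99 (T t50 (L l47 (T t100 N)))))) (K a149 (M a61 (F (L l305 (T t505 (L l220 (L l293 (T t506 (L l217 (T t2037 N))))))))) (K a213 (Fr a170 a255 l476 (Fr a42 a21 l68 (Fr a106 a234 l390 (Fr a192 a149 l519 (V t581))))) (K a42 (M a48 (F (T t364 (L l390 (T t50 (L l28 (T t100 N))))))) (K a106 (M a48 (F (T t99 (L l337 (T t1 (L l390 (T t50 N))))))) (K a170 (M a16 (F (L l404 (T t113 (L l293 (L l390 (T t98 (L l337 (L l390 (L l404 (T t97 (L l233 (L l404 (T t174 N)))))))))))))) (K a255 (M a16 (F (T t112 (L l289 (T t113 (L l289 (L l293 (L l296 (T t98 N))))))))) N)))))))))))))))))))⟩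
def e0_63__193_48 : Ent 4 := ⟨[a0, a63], [a193, a76], (M a48 (F (T t1 (T t2 (T t3 (T t0 (K a16 (M a60 (F (T t43 (L l515 (T t64 (T t65 N)))))) (K a32 (M a60 (F (T t67 (L l515 (T t64 (L l24 (L l28 (T t65 N)))))))) (K a21 (M a192 (F (T t28 (L l47 (L l347 (L l515 (T t20 (L l47 (L l347 (L l515 (T t29 N))))))))))) (K a37 (M a192 (F (T t19 (L l47 (L l515 (T t20 (L l138 (L l515 (T t21 N))))))))) (K a53 (M a192 (F (T t19 (L l138 (L l491 (L l515 (T t21 (L l293 (T t31 N))))))))) (K a26 (M a192 (F (T t22 (L l146 (T t27 (L l138 (L l515 (T t21 N)))))))) (K a42 (M a192 (F (T t19 (L l515 (T t20 (L l28 (L l515 (T t29 N)))))))) (K a58 (M a192 (F (T t19 (L l138 (L l515 (T t21 (L l54 (L l293 (L l498 (T t31 N)))))))))) (K a15 (M a192 (F (T t54 (L l146 (L l483 (T t27 (L l138 (L l469 (L l515 (T t21 N)))))))))) N)))))))))))))))⟩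
def e0_63__193_49 : Ent 4 := ⟨[a0, a63], [a193, a77], (M a85 (F (T t52 (L l228 (L l293 (T t88 (L l293 (T t89 (L l228 (T t90 (K a64 (M a16 (F (T t97 (L l81 (L l84 (L l147 (T t96 (L l116 (L l293 (T t98 N)))))))))) (K a192 (M a195 (F (T t4874 (L l309 (T t2035 (L l135 (L l293 (L l296 (T t894 (L l135 (L l305 (T t2036 N)))))))))))) (K a21 (M a48 (F (T t99 (T t50 (L l47 (T t100 N)))))) (K a149 (M a61 (F (L l305 (T t505 (L l220 (L l293 (T t506 (L l135 (L l217 (T t2037 N)))))))))) (K a213 (Fr a170 a255 l476 (Fr a42 a21 l68 (Fr a106 a234 l390 (Fr a192 a149 l519 (V t581))))) (K a42 (M a48 (F (T t364 (L l390 (T t50 (L l28 (T t100 N))))))) (K a106 (M a48 (F (T t1 (L l81 (L l104 (L l147 (T t509 (L l390 (T t50 N))))))))) (K a170 (M a16 (F (L l404 (T t113 (L l293 (L l390 (T t98 (L l390 (L l404 (T t97 (L l233 (L l326 (L l404 (T t174 N)))))))))))))) (K a255 (M a16 (F (T t112 (L l289 (T t113 (L l289 (L l293 (L l296 (T t98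 N))))))))) N)))))))))))))))))))⟩
def e0_63__193_50 : Ent 4 := ⟨[a0, a63], [a193, a78], (M a85 (F (T t52 (L l228 (L l293 (T t88 (L l293 (T t89 (L l228 (T t90 (K a64 (M a16 (F (T t258 (L l327 (T t97 (L l116 (L l293 (T t98 N)))))))) (K a192 (M a195 (F (T t883 (L l309 (T t2035 (L l293 (L l296 (T t894 (L l305 (T t2036 N)))))))))) (K a21 (M a48 (F (T t99 (T t50 (L l47 (T t100 N)))))) (K a149 (M a61 (F (L l305 (T t505 (L l220 (L l293 (T t506 (L l136 (L l217 (T t2037 N)))))))))) (K a213 (Fr a170 a255 l476 (Fr a42 a21 l68 (Fr a106 a234 l390 (Fr a192 a149 l519 (V t581))))) (K a42 (M a48 (F (T t364 (L l390 (T t50 (L l28 (T t100 N))))))) (K a106 (M a48 (F (T t99 (L l327 (T t1 (L l390 (T t50 N))))))) (K a170 (M a16 (F (L l404 (T t113 (L l293 (L l390 (T t98 (L l327 (L l390 (L l404 (T t97 (L l233 (L l404 (T t174 N)))))))))))))) (K a255 (M a16 (F (T t112 (L l289 (T t113 (L l289 (L l293 (L l296 (T t98 N))))))))) N)))))))))))))))))))⟩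
def e0_63__193_51 : Ent 4 := ⟨[a0, a63], [a193, a79], (M a12 (F (T t122 (T t151 (T t152 (T t153 (K a4 (M a60 (F (T t43 (L l325 (L l515 (T t398 (T t448 N))))))) (K a8 (M a60 (F (T t67 (L l325 (L l515 (T t398 (L l52 (L l56 (T t448 N))))))))) (K a21 (M a192 (F (T t468 (L l15 (L l347 (L l515 (T t450 (L l15 (L l347 (L l515 (T t157 N))))))))))) (K a25 (M a192 (F (T t449 (L l15 (L l515 (T t450 (L l137 (L l515 (T t21 N))))))))) (K a29 (M a192 (F (T t449 (L l137 (L l371 (L l515 (T t21 (L l293 (T t160 N))))))))) (K a38 (M a192 (F (T t543 (L l79 (T t156 (L l137 (L l515 (T t21 N)))))))) (K a42 (M a192 (F (T t449 (L l515 (T t450 (L l56 (L l515 (T t157 N)))))))) (K a46 (M a192 (F (T t449 (L l137 (L l515 (T t21 (L l26 (L l293 (L l408 (T t160 N)))))))))) (K a51 (M a192 (F (T t158 (L l79 (L l513 (T t156 (L l137 (L l439 (L l515 (T t21 N)))))))))) N)))))))))))))))⟩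
def e0_63__193_52 : Ent 4 := ⟨[a0, a63], [a193, a84], (M a85 (F (T t52 (L l140 (L l228 (L l293 (T t88 (L l140 (L l293 (T t89 (L l140 (L l228 (T t90 (K a64 (M a60 (L l140 (F (T t114 (L l293 (L l346 (T t115 (K a104 (M a124 (F (T t1126 (L l293 (L l346 (L l388 (T t115 N))))))) (K a124 (M a104 (F (T t936 (L l346 (T t67 (L l109 (L l515 (T t1895 N)))))))) N))))))))) (K a192 (M a195 (F (T t4855 (L l309 (T t2035 (L l293 (L l296 (T t894 (L l305 (T t2036 N)))))))))) (K a21 (M a48 (F (T t99 (T t50 (L l47 (T t100 N)))))) (K a149 (M a61 (F (L l305 (T t505 (L l220 (L l293 (T t506 (L l217 (T t2037 N))))))))) (K a213 (Fr a170 a255 l476 (Fr a42 a21 l68 (Fr a106 a234 l390 (Fr a192 a149 l519 (V t581))))) (K a42 (M a48 (F (L l28 (T t99 (L l390 (T t50 (L l28 (T t100 N)))))))) (K a106 (M a48 (F (T t1 (L l104 (T t509 (L l390 (T t50 N))))))) (K a170 (M a16 (F (L l404 (T t113 (L l90 (L l293 (L l390 (T t98 (L l390 (L l404 (T t97 (L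 l233 (L l404 (T t174 N)))))))))))))) (K a255 (M a16 (F (T t112 (L l289 (T t113 (L l90 (L l289 (L l293 (L l296 (T t98 N)))))))))) N))))))))))))))))))))))⟩
def e0_63__193_53 : Ent 4 := ⟨[a0, a63], [a193, a85], (M a48 (F (T t0 (L l347 (T t1 (L l455 (T t2 (L l347 (L l368 (T t3 (K a16 (M a60 (L l368 (F (T t43 (L l515 (T t64 (L l455 (T t65 (K a154 (M a223 (F (T t42 (L l305 (L l473 (T t69 (L l455 (L l498 (T t65 N))))))))) (K a223 (M a154 (F (T t43 (L l228 (L l340 (T t473 N)))))) N)))))))))) (K a32 (M a60 (F (T t42 (L l347 (L l350 (T t67 (L l24 (L l28 (L l455 (T t65 N)))))))))) (K a21 (M a149 (F (L l233 (T t184 (L l144 (T t13 (L l18 (L l123 (L l144 (L l233 (L l368 (T t482 (L l18 (L l123 (L l233 (L l368 (T t483 N))))))))))))))))) (K a37 (M a192 (F (T t27 (L l47 (L l347 (L l515 (T t20 (L l144 (L l233 (L l368 (T t224 N))))))))))) (K a53 (M a12 (F (T t443 (L l47 (L l347 (T t122 (L l47 (L l347 (T t146 N))))))))) (K a26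 (M a192 (F (T t28 (L l347 (L l515 (T t20 (L l18 (L l54 (L l144 (L l233 (L l368 (T t224 N)))))))))))) (K a42 (M a192 (F (T t27 (L l347 (L l515 (T t20 (L l54 (L l144 (L l233 (L l368 (L l390 (T t224 N)))))))))))) (K a58 (M a12 (F (T t443 (L l347 (T t122 (L l347 (T t146 N))))))) (K a15 (M a192 (F (L l483 (T t28 (L l325 (L l347 (L l515 (T t20 (L l144 (L l233 (L l368 (T t224 N)))))))))))) N)))))))))))))))))))⟩
def e0_63__193_54 : Ent 4 := ⟨[a0, a63], [a193, a86], (M a48 (F (T t1 (T t2 (T t3 (T t0 (K a16 (M a60 (F (T t42 (L l14 (L l18 (L l477 (T t67 (L l351 (T t65 N))))))))) (K a32 (M a60 (F (T t42 (L l477 (T t67 (L l24 (L l28 (L l351 (T t65 N))))))))) (K a21 (M a192 (F (T t837 (L l47 (L l347 (L l351 (L l515 (T t20 (L l47 (L l347 (L l351 (L l515 (T t29 N))))))))))))) (K a37 (M a192 (F (T t19 (L l47 (L l351 (L l515 (T t20 (L l351 (L l515 (T t21 N)))))))))) (K a53 (M a192 (F (T t19 (L l351 (L l491 (L l515 (T t21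 (L l142 (L l293 (T t31 N)))))))))) (K a26 (M a192 (F (T t837 (L l351 (L l515 (T t20 (L l351 (L l515 (T t21 N))))))))) (K a42 (M a192 (F (T t19 (L l351 (L l515 (T t20 (L l28 (L l351 (L l515 (T t29 N)))))))))) (K a58 (M a192 (F (T t19 (L l351 (L l515 (T t21 (L l54 (L l142 (L l293 (L l498 (T t31 N))))))))))) (K a15 (M a192 (F (T t1922 (L l325 (L l351 (L l515 (T t20 (L l351 (L l469 (L l515 (T t21 N))))))))))) N)))))))))))))))⟩
def e0_63__193_55 : Ent 4 := ⟨[a0, a63], [a193, a87], (M a48 (F (T t1 (T t2 (T t3 (T t0 (K a16 (M a60 (F (T t42 (L l14 (L l18 (L l475 (T t67 (L l349 (T t65 N))))))))) (K a32 (M a60 (F (T t42 (L l475 (T t67 (L l24 (L l28 (L l349 (T t65 N))))))))) (K a21 (M a192 (F (T t837 (L l47 (L l347 (L l515 (T t20 (L l47 (L l347 (L l367 (L l515 (T t29 N)))))))))))) (K a37 (M a192 (F (T t19 (L l47 (L l515 (T t20 (L l143 (L l475 (L l515 (T t21 N)))))))))) (K a53 (M a192 (F (T t19 (L l143 (L l475 (L l491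 (L l515 (T t21 (L l293 (T t31 N)))))))))) (K a26 (M a192 (F (T t27 (L l515 (T t20 (L l143 (L l475 (L l515 (T t21 N))))))))) (K a42 (M a192 (F (T t19 (L l515 (T t20 (L l28 (L l367 (L l515 (T t29 N))))))))) (K a58 (M a192 (F (T t19 (L l143 (L l475 (L l515 (T t21 (L l54 (L l293 (L l498 (T t31 N))))))))))) (K a15 (M a192 (F (T t1800 (L l483 (T t27 (L l325 (L l515 (T t20 N)))))))) N)))))))))))))))⟩
def e0_63__193_56 : Ent 4 := ⟨[a0, a63], [a193, a88], (M a85 (F (T t52 (L l228 (L l293 (T t88 (L l293 (T t89 (L l228 (T t90 (K a64 (M a16 (F (T t97 (L l84 (T t96 (L l90 (L l116 (L l293 (T t98 N))))))))) (K a192 (M a195 (F (T t883 (L l309 (T t2035 (L l293 (L l296 (T t894 (L l305 (T t2036 N)))))))))) (K a21 (M a48 (F (T t99 (L l478 (T t50 (L l47 (T t100 N))))))) (K a149 (M a61 (F (L l305 (T t505 (L l220 (L l293 (T t506 (L l217 (T t2037 N))))))))) (K a213 (Fr a170 a255 l476 (Fr a42 a21 l68 (Fr a106 a234 l390 (Fr a192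 a149 l519 (V t581))))) (K a42 (M a48 (F (T t364 (L l390 (L l478 (T t50 (L l28 (T t100 N)))))))) (K a106 (M a48 (F (T t99 (T t1 (L l390 (L l478 (T t50 N))))))) (K a170 (M a16 (F (L l404 (T t113 (L l90 (L l293 (L l390 (T t98 (L l390 (L l404 (T t97 (L l233 (L l404 (T t174 N)))))))))))))) (K a255 (M a16 (F (T t112 (L l289 (T t113 (L l90 (L l289 (L l293 (L l296 (T t98 N)))))))))) N)))))))))))))))))))⟩
def e0_63__193_57 : Ent 4 := ⟨[a0, a63], [a193, a89], (M a48 (F (T t1 (T t2 (T t3 (T t0 (K a16 (M a60 (F (T t43 (L l515 (T t64 (T t65 N)))))) (K a32 (M a60 (F (T t67 (L l515 (T t64 (L l24 (L l28 (T t65 N)))))))) (K a21 (M a192 (F (T t837 (L l47 (L l347 (L l371 (L l515 (T t20 (L l47 (L l347 (L l371 (L l515 (T t29 N))))))))))))) (K a37 (M a192 (F (T t19 (L l47 (L l371 (L l515 (T t20 (L l371 (L l515 (T t21 N)))))))))) (K a53 (M a192 (F (T t19 (L l371 (L l491 (L l515 (T t21 (L l132 (L l293 (T t31 N)))))))))) (K a26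 (M a192 (F (T t837 (L l371 (L l515 (T t20 (L l371 (L l515 (T t21 N))))))))) (K a42 (M a192 (F (T t19 (L l371 (L l515 (T t20 (L l28 (L l371 (L l515 (T t29 N)))))))))) (K a58 (M a192 (F (T t19 (L l371 (L l515 (T t21 (L l54 (L l132 (L l293 (L l498 (T t31 N))))))))))) (K a15 (M a192 (F (T t1922 (L l325 (L l371 (L l515 (T t20 (L l371 (L l469 (L l515 (T t21 N))))))))))) N)))))))))))))))⟩
def e0_63__193_58 : Ent 4 := ⟨[a0, a63], [a193, a90], (M a12 (F (T t122 (T t151 (T t152 (T t153 (K a4 (M a60 (F (T t43 (L l480 (L l483 (L l515 (T t398 (T t448 N)))))))) (K a8 (M a60 (F (T t67 (L l480 (L l483 (L l515 (T t398 (L l52 (L l56 (T t448 N)))))))))) (K a21 (M a192 (F (T t836 (L l15 (L l347 (L l375 (L l515 (T t450 (L l15 (L l347 (L l375 (L l515 (T t157 N))))))))))))) (K a25 (M a192 (F (T t449 (L l15 (L l375 (L l515 (T t450 (L l375 (L l515 (T t21 N)))))))))) (K a29 (M a192 (F (T t449 (L l371 (L l375 (L l515 (T t21 (L l130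 (L l293 (T t160 N)))))))))) (K a38 (M a192 (F (T t836 (L l375 (L l515 (T t450 (L l375 (L l515 (T t21 N))))))))) (K a42 (M a192 (F (T t449 (L l375 (L l515 (T t450 (L l56 (L l375 (L l515 (T t157 N)))))))))) (K a46 (M a192 (F (T t449 (L l375 (L l515 (T t21 (L l26 (L l130 (L l293 (L l408 (T t160 N))))))))))) (K a51 (M a192 (F (T t1725 (L l375 (L l415 (L l515 (T t450 (L l375 (L l439 (L l515 (T t21 N))))))))))) N)))))))))))))))⟩
def e0_63__193_59 : Ent 4 := ⟨[a0, a63], [a193, a91], (M a85 (F (T t52 (L l228 (L l293 (T t88 (L l293 (T t89 (L l228 (T t90 (K a64 (M a240 (F (T t386 (L l93 (L l293 (T t387 N)))))) (K a192 (M a195 (F (T t883 (L l309 (L l373 (T t2035 (L l131 (L l293 (L l296 (T t894 (L l305 (T t2036 N)))))))))))) (K a21 (M a48 (F (T t99 (T t50 (L l47 (T t100 N)))))) (K a149 (M a61 (F (L l305 (T t505 (L l220 (L l293 (T t506 (L l217 (T t2037 N))))))))) (K a213 (Fr a170 a255 l476 (Fr a42 a21 l68 (Fr a106 a234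 l390 (Fr a192 a149 l519 (V t581))))) (K a42 (M a48 (F (T t364 (L l390 (T t50 (L l28 (T t100 N))))))) (K a106 (M a48 (F (T t99 (L l481 (T t1 (L l390 (T t50 N))))))) (K a170 (M a16 (F (L l404 (T t113 (L l293 (L l390 (T t98 (L l373 (L l390 (L l404 (L l481 (T t97 (L l233 (L l404 (T t174 N))))))))))))))) (K a255 (M a16 (F (T t112 (L l289 (T t113 (L l289 (L l293 (L l296 (T t98 N))))))))) N)))))))))))))))))))⟩
def e0_63__193_60 : Ent 4 := ⟨[a0, a63], [a193, a92], (M a85 (F (T t52 (L l228 (L l293 (T t88 (L l293 (T t89 (L l228 (T t90 (K a64 (M a16 (F (T t97 (L l84 (T t96 (L l90 (L l116 (L l293 (T t98 N))))))))) (K a192 (M a195 (F (T t883 (L l309 (T t2035 (L l293 (L l296 (T t894 (L l305 (T t2036 N)))))))))) (K a21 (M a48 (F (T t99 (T t50 (L l47 (T t100 N)))))) (K a149 (M a61 (F (L l305 (T t505 (L l220 (L l293 (L l466 (T t506 (L l217 (T t2037 N)))))))))) (K a213 (Fr a170 a255 l476 (Fr a42 a21 l68 (Fr a106 a234 l390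 (Fr a192 a149 l519 (V t581))))) (K a42 (M a48 (F (T t364 (L l390 (T t50 (L l28 (T t100 N))))))) (K a106 (M a48 (F (T t1 (L l104 (T t509 (L l390 (T t50 N))))))) (K a170 (M a16 (F (L l404 (T t113 (L l90 (L l293 (L l390 (T t98 (L l390 (L l404 (T t97 (L l233 (L l404 (T t174 N)))))))))))))) (K a255 (M a16 (F (T t112 (L l289 (T t113 (L l90 (L l289 (L l293 (L l296 (T t98 N)))))))))) N)))))))))))))))))))⟩
def e0_63__193_61 : Ent 4 := ⟨[a0, a63], [a193, a93], (M a85 (F (L l293 (T t89 (L l138 (L l470 (T t52 (L l228 (L l293 (T t88 (L l228 (T t90 (K a64 (M a240 (F (T t933 (L l89 (L l293 (T t387 N)))))) (K a192 (M a195 (F (T t4874 (L l309 (T t2035 (L l135 (L l293 (L l296 (T t894 (L l135 (L l305 (T t2036 N)))))))))))) (K a21 (M a48 (F (T t873 (L l47 (L l138 (L l362 (T t100 (L l138 (T t50 N))))))))) (K a149 (M a61 (F (L l305 (T t505 (L l220 (L l293 (L l467 (T t506 (L l135 (L l217 (T t2037 N))))))))))) (K a213 (Fr a170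 a255 l476 (Fr a42 a21 l68 (Fr a106 a234 l390 (Fr a192 a149 l519 (V t581))))) (K a42 (M a48 (F (L l470 (T t364 (L l138 (L l390 (T t50 (L l28 (L l138 (L l362 (T t100 N))))))))))) (K a106 (M a48 (F (T t1 (L l104 (L l362 (T t509 (L l138 (L l390 (T t50 N))))))))) (K a170 (M a16 (F (L l390 (L l404 (T t97 (L l293 (L l362 (L l390 (T t98 (L l138 (L l362 (L l404 (T t113 (L l233 (L l362 (L l404 (T t174 N))))))))))))))))) (K a255 (M a12 (F (T t1252 (L l138 (L l265 (L l359 (T t574 (L l265 (L l293 (L l296 (T t572 (L l265 (L l269 (L l293 (L l296 (T t1923 N)))))))))))))))) N)))))))))))))))))))))⟩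
def e0_63__193_62 : Ent 4 := ⟨[a0, a63], [a193, a94], (M a85 (F (T t52 (L l228 (L l293 (T t88 (L l293 (T t89 (L l228 (T t90 (K a64 (M a240 (F (T t386 (L l89 (L l293 (T t387 N)))))) (K a192 (M a195 (F (T t883 (L l309 (T t2035 (L l293 (L l296 (T t894 (L l305 (T t2036 N)))))))))) (K a21 (M a48 (F (T t99 (T t50 (L l47 (T t100 N)))))) (K a149 (M a61 (F (L l305 (T t505 (L l220 (L l293 (L l471 (T t506 (L l136 (L l217 (T t2037 N))))))))))) (K a213 (Fr a170 a255 l476 (Fr a42 a21 l68 (Fr a106 a234 l390 (Fr a192 a149 l519 (V t581))))) (K a42 (M a48 (F (T t364 (L l390 (T t50 (L l28 (T t100 N))))))) (K a106 (M a48 (F (T t99 (L l471 (T t1 (L l390 (T t50 N))))))) (K a170 (M a16 (F (L l404 (T t113 (L l293 (L l390 (T t98 (L l363 (L l390 (L l404 (L l471 (T t97 (L l233 (L l404 (T t174 N))))))))))))))) (K a255 (M a16 (F (T t112 (L l289 (T t113 (L l289 (L l293 (L l296 (T t98 N))))))))) N)))))))))))))))))))⟩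
def e0_63__193_63 : Ent 4 := ⟨[a0, a63], [a193, a95], (M a85 (F (L l293 (T t89 (L l137 (L l469 (T t52 (L l228 (L l293 (T t88 (L l228 (T t90 (K a64 (M a16 (F (T t112 (L l84 (T t1924 (L l116 (L l293 (T t1925 N)))))))) (K a192 (M a195 (F (T t883 (L l309 (T t2035 (L l293 (L l296 (T t894 (L l305 (T t2036 N)))))))))) (K a21 (M a48 (F (T t873 (L l47 (L l137 (L l361 (T t100 (L l137 (T t50 N))))))))) (K a149 (M a61 (F (L l305 (T t505 (L l220 (L l293 (T t506 (L l217 (T t2037 N))))))))) (K a213 (Fr a170 a255 l476 (Fr a42 a21 l68 (Fr a106 a234 l390 (Fr a192 a149 l519 (V t581))))) (K a42 (M a48 (F (L l469 (T t364 (L l137 (L l390 (T t50 (L l28 (L l137 (L l361 (T t100 N))))))))))) (K a106 (M a48 (F (T t48 (L l104 (L l361 (T t509 (L l137 (L l390 (T t50 N))))))))) (K a170 (M a60 (F (T t67 (L l218 (L l220 (L l228 (L l293 (L l305 (L l390 (T t4523 (L l137 (L l228 (L l392 (L l515 (T t523 N))))))))))))))) (K a255 (M a15 (F (T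 t1254 (L l137 (L l266 (L l361 (T t1497 (L l266 (L l293 (L l296 (L l335 (T t1484 (L l266 (L l293 (L l296 (T t1926 N)))))))))))))))) N)))))))))))))))))))))⟩
def e0_63__193_64 : Ent 4 := ⟨[a0, a63], [a193, a104], (M a48 (F (T t1 (T t2 (T t3 (T t0 (K a16 (M a60 (F (T t42 (L l14 (L l18 (T t67 (L l388 (T t65 N)))))))) (K a32 (M a60 (F (T t42 (T t67 (L l24 (L l28 (L l388 (T t65 N)))))))) (K a21 (M a192 (F (T t27 (L l47 (L l347 (L l515 (T t20 (L l47 (L l347 (L l515 (T t29 N))))))))))) (K a37 (M a192 (F (T t27 (L l47 (L l515 (T t20 (L l515 (T t21 N)))))))) (K a53 (M a192 (F (T t27 (L l491 (L l515 (T t21 (L l98 (L l100 (L l293 (T t31 N)))))))))) (K a26 (M a192 (F (T t27 (L l515 (T t20 (L l515 (T t21 N))))))) (K a42 (M a192 (F (T t27 (L l515 (T t20 (L l28 (L l515 (T t29 N)))))))) (K a58 (M a192 (F (T t27 (L l515 (T t21 (L l54 (L l98 (L l100 (L l293 (L l498 (T t31 N))))))))))) (K a15 (M a192 (F (T t55 (L l325 (L l515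 (T t20 (L l469 (L l515 (T t21 N))))))))) N)))))))))))))))⟩
def e0_63__193_65 : Ent 4 := ⟨[a0, a63], [a193, a105], (M a48 (L l515 (F (T t1 (T t2 (T t3 (T t0 (K a16 (M a149 (F (L l233 (T t184 (L l228 (L l293 (T t5 (L l233 (L l293 (T t6 N)))))))))) (K a32 (M a149 (F (L l228 (T t11 (L l28 (L l293 (T t176 (L l28 (L l233 (L l293 (T t6 N))))))))))) (K a21 (M a149 (F (L l233 (T t184 (L l98 (T t13 (L l18 (L l233 (T t14 N))))))))) (K a37 (M a149 (F (L l98 (T t177 (L l228 (L l233 (T t4 (L l233 (T t14 N))))))))) (K a53 (M a149 (F (L l293 (T t176 (L l98 (T t13 (L l293 (T t26 N)))))))) (K a26 (M a149 (F (L l98 (T t177 (L l228 (T t11 (L l18 (L l54 (L l233 (T t14 N)))))))))) (K a42 (M a149 (F (L l228 (T t11 (L l98 (L l390 (T t13 (L l54 (L l233 (T t14 N)))))))))) (K a58 (M a149 (F (L l228 (T t175 (L l98 (L l498 (T t13 (L l54 (L l293 (T t26 N)))))))))) (K a15 (M a149 (F (L l233 (T t3521 (L l293 (T t26 (L l228 (L l293 (L l339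 (T t5 N)))))))))) (K a149 (M a61 (F (T t2 (L l485 (T t262 (L l305 (T t505 N))))))) (K a61 (M a149 (F (T t2 (L l35 (L l228 (T t11 (L l228 (L l293 (T t5 N))))))))) N))))))))))))))))))⟩
def e0_63__193_66 : Ent 4 := ⟨[a0, a63], [a193, a106], (M a48 (F (T t1 (L l390 (L l498 (T t2 (L l411 (T t3 (L l390 (T t0 (K a16 (M a60 (F (L l390 (T t43 (L l515 (T t64 (L l390 (L l498 (T t65 N))))))))) (K a32 (M a60 (F (L l515 (T t64 (L l393 (T t67 (L l24 (L l28 (L l390 (L l498 (T t65 N))))))))))) (K a21 (M a255 (F (T t511 (L l390 (T t512 (L l18 (L l144 (L l233 (L l347 (L l498 (T t513 N))))))))))) (K a37 (M a52 (F (T t82 (L l498 (T t83 (L l21 (L l28 (L l390 (L l498 (T t84 N)))))))))) (K a53 (M a12 (F (T t443 (L l47 (T t122 (L l47 (T t146 N))))))) (K a26 (M a56 (F (T t133 (L l501 (T t134 (L l12 (L l18 (T t135 N)))))))) (K a42 (M a170 (F (T t316 (L l144 (T t514 (L l54 (L l104 (L l144 (L l233 (L l498 (T t515 (L l54 (L l233 (L l498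 (T t516 N))))))))))))))) (K a58 (M a12 (L l498 (F (T t122 (T t443 (T t146 (K a202 (M a154 (F (T t122 (L l104 (L l426 (T t517 N)))))) (K a154 (M a202 (F (T t122 (L l356 (L l368 (T t445 (L l356 (T t146 N)))))))) N)))))))) (K a15 (M a4 (F (T t518 (L l73 (L l390 (T t519 (L l390 (L l498 (T t520 N))))))))) N)))))))))))))))))))⟩
def e0_63__193_67 : Ent 4 := ⟨[a0, a63], [a193, a107], (M a48 (F (T t1 (T t2 (L l409 (T t3 (T t0 (K a16 (M a60 (F (T t43 (L l515 (T t64 (T t65 N)))))) (K a32 (M a60 (F (T t451 (L l391 (T t67 (L l24 (L l28 (T t65 N)))))))) (K a21 (M a192 (F (T t837 (L l47 (L l347 (L l515 (T t20 (L l47 (L l347 (L l515 (T t29 N))))))))))) (K a37 (M a192 (F (T t19 (L l47 (L l515 (T t20 (L l143 (L l515 (T t21 N))))))))) (K a53 (M a192 (F (T t19 (L l143 (L l491 (L l515 (T t21 (L l98 (L l293 (T t31 N)))))))))) (K a26 (M a192 (F (T t837 (L l515 (T t20 (L l143 (L l515 (T t21 N)))))))) (K a42 (M a192 (F (T t19 (L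 l515 (T t20 (L l28 (L l515 (T t29 N)))))))) (K a58 (M a192 (F (T t19 (L l143 (L l515 (T t21 (L l54 (L l98 (L l293 (L l498 (T t31 N))))))))))) (K a15 (M a192 (F (T t1922 (L l325 (L l515 (T t20 (L l143 (L l469 (L l515 (T t21 N)))))))))) N))))))))))))))))⟩
def e0_63__193_68 : Ent 4 := ⟨[a0, a63], [a193, a108], (M a85 (F (T t52 (L l228 (L l293 (T t88 (L l293 (T t89 (L l228 (T t90 (K a64 (M a16 (F (T t97 (L l84 (T t96 (L l116 (L l293 (T t98 N)))))))) (K a192 (M a195 (F (T t883 (L l309 (T t2035 (L l293 (L l296 (T t894 (L l305 (T t2036 N)))))))))) (K a21 (M a48 (F (T t99 (T t50 (L l47 (T t100 N)))))) (K a149 (M a61 (F (L l305 (T t505 (L l220 (L l293 (T t506 (L l217 (T t2037 N))))))))) (K a213 (Fr a170 a255 l476 (Fr a42 a21 l68 (Fr a106 a234 l390 (Fr a192 a149 l519 (V t581))))) (K a42 (M a48 (F (T t364 (L l390 (T t50 (L l28 (T t100 N))))))) (K a106 (M a48 (F (T t1 (L l104 (T t509 (L l390 (T t50 N))))))) (K a170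 (M a16 (F (L l404 (T t113 (L l293 (L l390 (T t98 (L l390 (L l404 (T t97 (L l233 (L l404 (T t174 N))))))))))))) (K a255 (M a16 (F (T t112 (L l289 (T t113 (L l289 (L l293 (L l296 (T t98 N))))))))) N)))))))))))))))))))⟩
def e0_63__193_69 : Ent 4 := ⟨[a0, a63], [a193, a109], (M a85 (F (T t52 (L l228 (L l293 (T t88 (L l293 (T t89 (L l228 (T t90 (K a64 (M a16 (F (T t97 (L l84 (L l101 (T t96 (L l116 (L l293 (T t98 N))))))))) (K a192 (M a195 (F (T t4874 (L l309 (T t2035 (L l135 (L l293 (L l296 (T t894 (L l135 (L l305 (T t2036 N)))))))))))) (K a21 (M a48 (F (T t99 (T t50 (L l47 (T t100 N)))))) (K a149 (M a61 (F (L l305 (T t505 (L l220 (L l293 (T t506 (L l135 (L l217 (T t2037 N)))))))))) (K a213 (Fr a170 a255 l476 (Fr a42 a21 l68 (Fr a106 a234 l390 (Fr a192 a149 l519 (V t581))))) (K a42 (M a48 (F (L l28 (T t99 (L l390 (T t50 (L l28 (T t100 N)))))))) (K a106 (M a48 (F (T t1 (L l101 (L l104 (T t509 (L l390 (T t50 N))))))))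 (K a170 (M a16 (F (L l404 (T t113 (L l293 (L l390 (T t98 (L l390 (L l404 (T t97 (L l233 (L l404 (L l506 (T t174 N)))))))))))))) (K a255 (M a16 (F (T t112 (L l289 (T t113 (L l289 (L l293 (L l296 (T t98 N))))))))) N)))))))))))))))))))⟩
def e0_63__193_70 : Ent 4 := ⟨[a0, a63], [a193, a110], (M a48 (F (T t1 (T t2 (L l399 (T t3 (T t0 (K a16 (M a60 (F (T t43 (L l515 (T t64 (T t65 N)))))) (K a32 (M a60 (F (T t42 (T t67 (L l24 (L l28 (T t65 N))))))) (K a21 (M a192 (F (T t837 (L l47 (L l347 (L l515 (T t20 (L l47 (L l347 (L l515 (T t29 N))))))))))) (K a37 (M a192 (F (T t19 (L l47 (L l515 (T t20 (L l138 (L l515 (T t21 N))))))))) (K a53 (M a192 (F (T t19 (L l138 (L l491 (L l515 (T t21 (L l102 (L l293 (T t31 N)))))))))) (K a26 (M a192 (F (T t837 (L l515 (T t20 (L l138 (L l515 (T t21 N)))))))) (K a42 (M a192 (F (T t19 (L l515 (T t20 (L l28 (L l515 (T t29 N)))))))) (K a58 (M a192 (F (T t19 (L l138 (L l515 (T t21 (L l54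 (L l102 (L l293 (L l498 (T t31 N))))))))))) (K a15 (M a192 (F (T t1922 (L l325 (L l515 (T t20 (L l138 (L l469 (L l515 (T t21 N)))))))))) N))))))))))))))))⟩
def e0_63__193_71 : Ent 4 := ⟨[a0, a63], [a193, a111], (M a48 (F (T t1 (T t2 (L l397 (T t3 (T t0 (K a16 (M a60 (F (T t43 (L l515 (T t64 (T t65 N)))))) (K a32 (M a60 (F (T t67 (L l515 (T t64 (L l24 (L l28 (T t65 N)))))))) (K a21 (M a192 (F (T t27 (L l104 (L l233 (T t206 (L l47 (L l347 (L l515 (T t29 N)))))))))) (K a37 (M a192 (F (T t19 (L l104 (L l233 (T t206 (L l137 (L l515 (T t21 N))))))))) (K a53 (M a192 (F (T t19 (L l137 (L l491 (L l515 (T t21 (L l104 (L l293 (T t521 N)))))))))) (K a26 (M a192 (F (T t27 (L l54 (L l104 (L l233 (T t206 (L l137 (L l515 (T t21 N)))))))))) (K a42 (M a192 (F (T t19 (L l54 (L l104 (L l233 (L l390 (T t206 (L l28 (L l515 (T t29 N))))))))))) (K a58 (M a192 (F (T t19 (L l137 (L l515 (T t21 (L l54 (L l104 (L l293 (L l498 (T t521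 N))))))))))) (K a15 (M a192 (F (T t55 (L l104 (L l233 (L l325 (T t206 (L l137 (L l469 (L l515 (T t21 N))))))))))) N))))))))))))))))⟩
def e0_63__193_72 : Ent 4 := ⟨[a0, a63], [a193, a124], (M a48 (F (T t1 (T t2 (T t3 (T t0 (K a16 (M a60 (F (T t43 (L l515 (T t64 (T t65 N)))))) (K a32 (M a60 (F (T t67 (L l515 (T t64 (L l24 (L l28 (T t65 N)))))))) (K a21 (M a192 (F (T t28 (L l47 (L l347 (L l515 (T t20 (L l47 (L l347 (L l515 (T t29 N))))))))))) (K a37 (M a192 (F (T t19 (L l47 (L l515 (T t20 (L l109 (L l515 (T t21 N))))))))) (K a53 (M a192 (F (T t19 (L l109 (L l491 (L l515 (T t21 (L l293 (T t31 N))))))))) (K a26 (M a192 (F (T t22 (L l110 (T t27 (L l109 (L l515 (T t21 N)))))))) (K a42 (M a192 (F (T t19 (L l515 (T t20 (L l28 (L l515 (T t29 N)))))))) (K a58 (M a192 (F (T t19 (L l109 (L l515 (T t21 (L l54 (L l293 (L l498 (T t31 N)))))))))) (K a15 (M a192 (F (T t54 (L l110 (L l483 (T t27 (L l109 (L l469 (L l515 (T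 t21 N)))))))))) N)))))))))))))))⟩
def e0_63__193_73 : Ent 4 := ⟨[a0, a63], [a193, a125], (M a48 (F (T t1 (T t2 (T t3 (T t0 (K a16 (M a60 (F (T t43 (L l431 (L l515 (T t64 (T t65 N))))))) (K a32 (M a60 (F (T t42 (T t67 (L l24 (L l28 (T t65 N))))))) (K a21 (M a192 (F (T t837 (L l47 (L l347 (L l515 (T t20 (L l47 (L l347 (L l515 (T t29 N))))))))))) (K a37 (M a192 (F (T t19 (L l47 (L l515 (T t20 (L l109 (L l434 (L l515 (T t21 N)))))))))) (K a53 (M a192 (F (T t19 (L l109 (L l434 (L l491 (L l515 (T t21 (L l293 (T t31 N)))))))))) (K a26 (M a192 (F (T t27 (L l515 (T t20 (L l109 (L l434 (L l515 (T t21 N))))))))) (K a42 (M a192 (F (T t19 (L l515 (T t20 (L l28 (L l515 (T t29 N)))))))) (K a58 (M a192 (F (T t19 (L l109 (L l434 (L l515 (T t21 (L l54 (L l293 (L l498 (T t31 N))))))))))) (K a15 (M a192 (F (T t1800 (L l483 (T t27 (L l325 (L l515 (T t20 N)))))))) N)))))))))))))))⟩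
def e0_63__193_74 : Ent 4 := ⟨[a0, a63], [a193, a126], (M a48 (F (T t1 (T t2 (T t3 (T t0 (K a16 (M a60 (F (T t43 (L l515 (T t64 (T t65 N)))))) (K a32 (M a60 (F (T t42 (T t67 (L l24 (L l28 (T t65 N))))))) (K a21 (M a192 (F (T t837 (L l47 (L l347 (L l515 (T t20 (L l47 (L l347 (L l515 (T t29 N))))))))))) (K a37 (M a192 (F (T t19 (L l47 (L l515 (T t20 (L l109 (L l515 (T t21 N))))))))) (K a53 (M a192 (F (T t19 (L l109 (L l491 (L l515 (T t21 (L l142 (L l293 (T t31 N)))))))))) (K a26 (M a192 (F (T t27 (L l515 (T t20 (L l109 (L l515 (T t21 N)))))))) (K a42 (M a192 (F (T t19 (L l515 (T t20 (L l28 (L l515 (T t29 N)))))))) (K a58 (M a192 (F (T t19 (L l109 (L l515 (T t21 (L l54 (L l142 (L l293 (L l498 (T t31 N))))))))))) (K a15 (M a192 (F (T t1922 (L l325 (L l515 (T t20 (L l109 (L l469 (L l515 (T t21 N)))))))))) N)))))))))))))))⟩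
def e0_63__193_75 : Ent 4 := ⟨[a0, a63], [a193, a127], (M a48 (F (T t1 (T t2 (T t3 (T t0 (K a16 (M a60 (F (T t43 (L l515 (T t64 (T t65 N)))))) (K a32 (M a60 (F (T t67 (L l515 (T t64 (L l24 (L l28 (T t65 N)))))))) (K a21 (M a192 (F (T t28 (L l47 (L l347 (L l515 (T t20 (L l18 (L l144 (L l233 (T t224 N))))))))))) (K a37 (M a192 (F (T t19 (L l47 (L l515 (T t20 (L l28 (L l144 (L l293 (T t37 N)))))))))) (K a53 (M a192 (F (T t19 (L l144 (L l293 (T t37 (L l47 (L l137 (L l491 (L l515 (T t525 N))))))))))) (K a26 (M a192 (F (T t28 (L l515 (T t20 (L l54 (L l144 (L l293 (T t37 N))))))))) (K a42 (M a192 (F (T t19 (L l515 (T t20 (L l54 (L l144 (L l233 (L l390 (T t224 N)))))))))) (K a58 (M a192 (F (T t19 (L l54 (L l144 (L l293 (L l498 (T t37 (L l137 (L l515 (T t525 N))))))))))) (K a15 (M a192 (F (T t36 (L l325 (L l515 (T t20 (L l144 (L l293 (L l469 (T t37 N)))))))))) N)))))))))))))))⟩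
def e0_63__193_76 : Ent 4 := ⟨[a0, a63], [a193, a128], (M a48 (F (T t1 (T t2 (T t3 (T t0 (K a16 (M a60 (F (T t43 (L l515 (T t64 (T t65 N)))))) (K a32 (M a60 (F (T t67 (L l515 (T t64 (L l24 (L l28 (T t65 N)))))))) (K a21 (M a154 (F (T t822 (L l47 (L l192 (L l228 (T t473 (L l47 (T t527 N))))))))) (K a37 (M a52 (F (T t82 (T t83 (L l21 (L l28 (T t84 N))))))) (K a53 (M a12 (F (T t151 (T t443 (L l47 (T t146 N)))))) (K a26 (M a56 (F (T t133 (T t134 (L l12 (L l18 (T t135 N))))))) (K a42 (M a154 (F (T t493 (L l28 (T t327 (L l28 (T t527 N))))))) (K a58 (M a12 (F (T t443 (T t122 (T t146 N))))) (K a15 (M a4 (F (T t129 (L l63 (T t528 (T t520 N)))))) N)))))))))))))))⟩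
def e0_63__193_77 : Ent 4 := ⟨[a0, a63], [a193, a129], (M a48 (L l305 (F (T t1 (T t2 (T t3 (T t0 (K a16 (M a85 (L l305 (F (T t4539 (T t50 (L l233 (L l293 (T t51 (K a1 (M a65 (F (T t50 (L l152 (L l293 (T t4899 N)))))) (K a65 (M a1 (F (L l515 (T t534 (T t50 N))))) N)))))))))) (K a32 (M a149 (L l305 (F (T t177 (L l228 (L l309 (T t11 (L l28 (L l233 (L l293 (T t6 (K a1 (M a65 (F (L l376 (T t7 (L l28 (L l152 (L l293 (T t4851 N)))))))) (K a65 (M a1 (F (L l28 (T t534 (L l233 (T t16 N)))))) N))))))))))))) (K a21 (M a149 (L l305 (F (T t7 (L l18 (L l152 (L l233 (T t14 (L l152 (T t13 (K a1 (M a65 (L l65 (F (T t7 (L l152 (T t688 (K a41 (M a61 (F (T t7 (L l152 (T t688 N))))) (K a61 (M a41 (F (T t7 (L l152 (T t688 N))))) N)))))))) (K a65 (M a1 (F (T t7 (L l485 (T t535 N))))) N)))))))))))) (K a37 (M a1 (F (T t295 (L l28 (L l515 (T t534 (L l25 (L l28 (T t536 (T t537 N)))))))))) (K a53 (M a1 (F (T t538 (T t295 (L l31 (L l35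 (L l515 (T t539 (L l31 (T t540 N)))))))))) (K a26 (M a3 (L l305 (F (T t559 (L l54 (T t137 (L l16 (L l18 (T t560 (K a1 (M a65 (F (L l152 (T t688 (L l16 (L l18 (L l65 (T t560 (L l152 (T t4900 N)))))))))) (K a65 (Fr a1 a2 l0 (V t563)) N))))))))))) (K a42 (M a192 (L l305 (F (T t19 (L l217 (L l515 (T t20 (L l28 (L l217 (L l515 (T t29 (K a1 (M a65 (F (L l390 (T t22 (L l152 (T t688 N)))))) (K a65 (M a1 (F (L l390 (T t22 (L l66 (L l485 (T t535 N))))))) N))))))))))))) (K a58 (M a1 (F (T t295 (L l54 (L l515 (T t534 (L l54 (L l485 (L l515 (T t541 (L l36 (L l54 (T t540 N))))))))))))) (K a15 (M a1 (F (T t538 (L l73 (L l485 (T t535 (T t542 N))))))) (K a1 (M a65 (F (T t0 (L l152 (T t688 (L l65 (L l152 (T t689 (K a32 (M a112 (F (T t346 (L l152 (L l309 (T t4853 N)))))) N))))))))) (K a65 (M a1 (F (T t2 (L l485 (T t535 (L l515 (T t534 N))))))) N))))))))))))))))))⟩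
def e0_63__193_78 : Ent 4 := ⟨[a0, a63], [a193, a130], (M a60 (F (T t67 (T t43 (L l306 (L l515 (T t68 (L l305 (T t69 (K a20 (M a48 (F (T t2 (L l515 (T t64 (L l11 (L l306 (L l515 (T t235 N))))))))) (K a40 (M a48 (F (T t42 (T t1 (L l52 (L l306 (L l515 (T t235 N)))))))) (K a21 (M a192 (F (T t72 (L l347 (L l515 (T t73 (L l152 (L l347 (L l515 (T t74 N)))))))))) (K a41 (M a192 (F (T t1333 (L l65 (L l515 (T t35 (L l515 (T t73 N)))))))) (K a61 (M a149 (F (T t177 (L l152 (T t463 (L l293 (T t1130 N))))))) (K a22 (M a192 (F (T t72 (L l152 (L l515 (T t21 (L l515 (T t73 N)))))))) (K a42 (M a192 (F (T t79 (L l515 (T t73 (L l22 (L l152 (L l515 (T t74 N))))))))) (K a62 (M a192 (F (T t72 (L l515 (T t35 (L l66 (L l293 (L l516 (T t80 N))))))))) (K a3 (M a170 (F (T t4824 (T t458 N)))) N))))))))))))))))))⟩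
def e0_63__193_79 : Ent 4 := ⟨[a0, a63], [a193, a131], (M a85 (F (T t52 (L l228 (L l293 (T t88 (L l293 (T t89 (L l219 (L l228 (T t90 (K a64 (M a16 (F (T t97 (L l84 (T t96 (L l116 (L l293 (T t98 N)))))))) (K a192 (M a195 (F (L l514 (T t925 (L l219 (L l309 (T t2035 (L l152 (L l293 (L l296 (T t894 (L l152 (L l221 (L l305 (L l309 (T t4901 N)))))))))))))))) (K a21 (M a48 (F (T t99 (L l197 (T t50 (L l47 (T t100 N))))))) (K a149 (M a61 (F (L l351 (T t529 (L l220 (L l293 (T t506 (L l217 (L l221 (T t2037 N)))))))))) (K a213 (Fr a170 a255 l476 (Fr a42 a21 l68 (Fr a106 a234 l390 (Fr a192 a149 l519 (V t581))))) (K a42 (M a48 (F (T t364 (L l197 (L l390 (T t50 (L l28 (T t100 N)))))))) (K a106 (M a48 (F (T t1 (L l104 (T t509 (L l197 (L l390 (T t50 N)))))))) (K a170 (M a16 (F (L l404 (T t113 (L l293 (L l390 (T t98 (L l390 (L l404 (T t97 (L l233 (L l404 (T t174 N))))))))))))) (K a255 (M a16 (F (T t112 (L l289 (T t113 (L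 l289 (L l293 (L l296 (T t98 N))))))))) N))))))))))))))))))))⟩
def e0_63__193_80 : Ent 4 := ⟨[a0, a63], [a193, a132], (M a48 (F (T t1 (T t2 (T t3 (T t0 (K a16 (M a60 (F (T t43 (L l515 (T t64 (T t65 N)))))) (K a32 (M a60 (F (T t67 (L l515 (T t64 (L l24 (L l28 (T t65 N)))))))) (K a21 (M a192 (F (T t837 (L l47 (L l202 (L l347 (L l515 (T t20 (L l47 (L l202 (L l347 (L l515 (T t29 N))))))))))))) (K a37 (M a192 (F (T t19 (L l47 (L l202 (L l515 (T t20 (L l156 (L l202 (L l515 (T t21 N))))))))))) (K a53 (M a192 (F (T t19 (L l156 (L l202 (L l491 (L l515 (T t21 (L l293 (T t31 N)))))))))) (K a26 (M a192 (F (T t837 (L l202 (L l515 (T t20 (L l156 (L l202 (L l515 (T t21 N)))))))))) (K a42 (M a192 (F (T t19 (L l202 (L l515 (T t20 (L l28 (L l202 (L l515 (T t29 N)))))))))) (K a58 (M a192 (F (T t19 (L l156 (L l202 (L l515 (T t21 (L l54 (L l293 (L l498 (T t31 N))))))))))) (K a15 (M a192 (F (T t1800 (L l156 (L l483 (T t27 (L l202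 (L l325 (L l515 (T t20 N)))))))))) N)))))))))))))))⟩
def e0_63__193_81 : Ent 4 := ⟨[a0, a63], [a193, a133], (M a12 (L l335 (F (T t122 (T t151 (T t152 (T t153 (K a4 (M a13 (F (T t4877 (L l1 (L l50 (L l311 (T t4878 (L l1 (L l311 (T t3915 (L l485 (T t4879 N)))))))))))) (K a8 (M a13 (F (T t4877 (L l311 (T t4878 (L l56 (L l311 (T t3915 (L l56 (L l485 (T t4879 N))))))))))) (K a21 (M a15 (L l335 (F (T t2544 (L l47 (L l50 (L l311 (T t2591 (L l65 (L l305 (L l315 (T t4093 (K a73 (Fr a13 a14 l3 (V t4882)) (K a13 (M a73 (F (L l153 (T t4902 (L l5 (L l47 (L l50 (L l311 (T t4903 (L l50 (L l323 (T t1877 N)))))))))))) N)))))))))))))) (K a25 (M a13 (F (L l515 (T t3911 (L l305 (T t3914 (L l53 (L l56 (L l311 (T t3915 N)))))))))) (K a29 (M a13 (F (T t4885 (L l305 (T t3914 (L l315 (L l485 (T t4886 (L l15 (L l485 (T t4887 N))))))))))) (K a38 (M a15 (L l335 (F (L l315 (T t3936 (L l26 (T t2544 (L l26 (T t716 (K a73 (Fr a13 a14 l3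 (V t4882)) (K a13 (M a73 (F (L l26 (T t723 (L l228 (L l305 (T t4904 N))))))) N))))))))))) (K a42 (M a15 (L l335 (F (T t720 (L l311 (T t2591 (L l26 (L l28 (L l54 (L l56 (L l305 (L l315 (T t4093 (K a73 (Fr a13 a14 l3 (V t4882)) (K a13 (M a73 (F (L l323 (T t1877 (L l153 (T t4902 (L l5 (L l311 (T t4905 N))))))))) N))))))))))))))) (K a46 (M a13 (F (L l60 (L l305 (T t3914 (L l485 (T t4906 (L l60 (L l311 (T t4878 (L l26 (L l315 (L l485 (T t4886 N)))))))))))))) (K a51 (M a13 (F (T t4877 (L l43 (L l305 (T t3914 (L l311 (T t3915 N)))))))) (K a73 (M a13 (F (T t151 (L l305 (T t3914 (L l515 (T t3911 N))))))) (K a13 (M a73 (F (T t151 (L l311 (L l323 (T t1016 (L l59 (L l153 (L l323 (T t4907 (K a8 (M a16 (F (L l153 (L l485 (T t4908 (L l56 (T t2243 N))))))) N))))))))))) N))))))))))))))))))⟩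
def e0_63__193_82 : Ent 4 := ⟨[a0, a63], [a193, a134], (M a85 (F (T t52 (L l228 (L l293 (T t88 (L l293 (T t89 (L l228 (T t90 (K a64 (M a16 (F (T t97 (L l84 (L l314 (T t96 (L l116 (L l293 (T t98 N))))))))) (K a192 (M a195 (F (L l514 (T t925 (L l309 (T t2035 (L l158 (L l293 (L l296 (T t894 (L l158 (L l200 (L l305 (T t2036 N)))))))))))))) (K a21 (M a48 (F (T t99 (T t50 (L l47 (T t100 N)))))) (K a149 (M a61 (F (L l305 (T t505 (L l220 (L l293 (T t506 (L l217 (T t2037 N))))))))) (K a213 (Fr a170 a255 l476 (Fr a42 a21 l68 (Fr a106 a234 l390 (Fr a192 a149 l519 (V t581))))) (K a42 (M a48 (F (T t364 (L l390 (T t50 (L l28 (T t100 N))))))) (K a106 (M a48 (F (T t1 (L l104 (L l314 (T t509 (L l390 (T t50 N)))))))) (K a170 (M a16 (F (L l404 (T t113 (L l293 (L l390 (T t98 (L l390 (L l404 (T t97 (L l233 (L l404 (T t174 N))))))))))))) (K a255 (M a16 (F (T t112 (L l289 (T t113 (L l289 (L l293 (L l296 (T t98 N))))))))) N)))))))))))))))))))⟩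
def e0_63__193_83 : Ent 4 := ⟨[a0, a63], [a193, a135], (M a85 (F (T t52 (L l228 (L l293 (T t88 (L l293 (T t89 (L l228 (T t90 (K a64 (M a16 (F (T t258 (L l337 (T t97 (L l116 (L l293 (T t98 N)))))))) (K a192 (M a195 (F (T t4855 (L l201 (L l309 (T t2035 (L l293 (L l296 (T t894 (L l203 (L l305 (T t2036 N)))))))))))) (K a21 (M a48 (F (T t99 (T t50 (L l47 (T t100 N)))))) (K a149 (M a61 (F (L l305 (T t505 (L l220 (L l293 (T t506 (L l217 (T t2037 N))))))))) (K a213 (Fr a170 a255 l476 (Fr a42 a21 l68 (Fr a106 a234 l390 (Fr a192 a149 l519 (V t581))))) (K a42 (M a48 (F (T t364 (L l390 (T t50 (L l28 (T t100 N))))))) (K a106 (M a48 (F (T t99 (L l337 (T t1 (L l390 (T t50 N))))))) (K a170 (M a16 (F (L l404 (T t113 (L l293 (L l390 (T t98 (L l337 (L l390 (L l404 (T t97 (L l233 (L l404 (T t174 N)))))))))))))) (K a255 (M a16 (F (T t112 (L l289 (T t113 (L l289 (L l293 (L l296 (T t98 N))))))))) N)))))))))))))))))))⟩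
def e0_63__193_84 : Ent 4 := ⟨[a0, a63], [a193, a136], (M a48 (F (T t1 (T t2 (T t3 (T t0 (K a16 (M a60 (F (T t43 (L l515 (T t64 (T t65 N)))))) (K a32 (M a60 (F (T t67 (L l515 (T t64 (L l24 (L l28 (T t65 N)))))))) (K a21 (M a192 (F (T t837 (L l47 (L l347 (L l515 (T t20 (L l47 (L l347 (L l515 (T t29 N))))))))))) (K a37 (M a192 (F (T t19 (L l47 (L l515 (T t20 (L l156 (L l515 (T t21 N))))))))) (K a53 (M a192 (F (T t19 (L l156 (L l491 (L l515 (T t21 (L l293 (T t31 N))))))))) (K a26 (M a192 (F (T t837 (L l515 (T t20 (L l156 (L l515 (T t21 N)))))))) (K a42 (M a192 (F (T t19 (L l515 (T t20 (L l28 (L l515 (T t29 N)))))))) (K a58 (M a192 (F (T t19 (L l156 (L l515 (T t21 (L l54 (L l293 (L l498 (T t31 N)))))))))) (K a15 (M a192 (F (T t1800 (L l156 (L l483 (T t27 (L l325 (L l515 (T t20 N))))))))) N)))))))))))))))⟩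
def e0_63__193_85 : Ent 4 := ⟨[a0, a63], [a193, a137], (M a85 (F (T t52 (L l228 (L l293 (T t88 (L l293 (T t89 (L l228 (T t90 (K a64 (M a16 (F (T t97 (L l84 (L l329 (T t96 (L l116 (L l293 (T t98 N))))))))) (K a192 (M a195 (F (T t883 (L l309 (L l333 (T t2035 (L l293 (L l296 (T t894 (L l305 (L l329 (T t2036 N)))))))))))) (K a21 (M a48 (F (T t99 (T t50 (L l47 (T t100 N)))))) (K a149 (M a61 (F (L l351 (T t529 (L l220 (L l293 (T t506 (L l205 (L l217 (T t2037 N)))))))))) (K a213 (Fr a170 a255 l476 (Fr a42 a21 l68 (Fr a106 a234 l390 (Fr a192 a149 l519 (V t581))))) (K a42 (M a48 (F (T t364 (L l390 (T t50 (L l28 (T t100 N))))))) (K a106 (M a48 (F (T t1 (L l104 (L l329 (T t509 (L l390 (T t50 N)))))))) (K a170 (M a16 (F (L l404 (T t113 (L l293 (L l390 (T t98 (L l390 (L l404 (T t97 (L l233 (L l404 (T t174 N))))))))))))) (K a255 (M a16 (F (T t112 (L l289 (T t113 (L l289 (L l293 (L l296 (T t98 N))))))))) N)))))))))))))))))))⟩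
def e0_63__193_86 : Ent 4 := ⟨[a0, a63], [a193, a138], (M a48 (F (T t2 (L l318 (T t1 (T t3 (T t0 (K a16 (M a60 (F (T t43 (L l515 (T t64 (T t65 N)))))) (K a32 (M a60 (F (T t42 (T t67 (L l24 (L l28 (T t65 N))))))) (K a21 (M a192 (F (T t837 (L l47 (L l318 (L l347 (L l515 (T t20 (L l47 (L l318 (L l347 (L l515 (T t29 N))))))))))))) (K a37 (M a192 (F (T t19 (L l47 (L l318 (L l515 (T t20 (L l160 (L l515 (T t21 N)))))))))) (K a53 (M a192 (F (T t19 (L l160 (L l491 (L l515 (T t21 (L l293 (T t31 N))))))))) (K a26 (M a192 (F (T t837 (L l318 (L l515 (T t20 (L l160 (L l515 (T t21 N))))))))) (K a42 (M a192 (F (T t19 (L l318 (L l515 (T t20 (L l28 (L l318 (L l515 (T t29 N)))))))))) (K a58 (M a192 (F (T t19 (L l160 (L l515 (T t21 (L l54 (L l293 (L l498 (T t31 N)))))))))) (K a15 (M a170 (F (T t2101 (T t324 N)))) N))))))))))))))))⟩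
def e0_63__193_87 : Ent 4 := ⟨[a0, a63], [a193, a139], (M a85 (F (T t52 (L l228 (L l293 (T t88 (L l293 (T t89 (L l228 (T t90 (K a64 (M a204 (F (T t1744 (L l154 (L l293 (T t1576 N)))))) (K a192 (M a195 (F (T t883 (L l309 (L l331 (T t2035 (L l293 (L l296 (T t894 (L l305 (T t2036 N))))))))))) (K a21 (M a48 (F (T t99 (T t50 (L l47 (T t100 N)))))) (K a149 (M a61 (F (L l351 (T t529 (L l220 (L l293 (T t506 (L l209 (L l217 (T t2037 N)))))))))) (K a213 (Fr a170 a255 l476 (Fr a42 a21 l68 (Fr a106 a234 l390 (Fr a192 a149 l519 (V t581))))) (K a42 (M a48 (F (T t364 (L l390 (T t50 (L l28 (T t100 N))))))) (K a106 (M a48 (F (T t1 (L l104 (T t509 (L l390 (T t50 N))))))) (K a170 (M a16 (F (L l404 (T t113 (L l293 (L l390 (T t98 (L l390 (L l404 (T t97 (L l233 (L l331 (L l404 (T t174 N)))))))))))))) (K a255 (M a16 (F (T t112 (L l289 (T t113 (L l289 (L l293 (L l296 (T t98 N))))))))) N)))))))))))))))))))⟩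
def e0_63__193_88 : Ent 4 := ⟨[a0, a63], [a193, a140], (M a85 (F (T t52 (L l228 (L l293 (T t88 (L l293 (T t89 (L l214 (L l228 (T t90 (K a64 (M a16 (F (T t97 (L l84 (T t96 (L l116 (L l293 (T t98 N)))))))) (K a192 (M a195 (F (T t883 (L l309 (T t2035 (L l293 (L l296 (T t894 (L l305 (T t2036 N)))))))))) (K a21 (M a48 (F (T t99 (L l222 (T t50 (L l47 (T t100 N))))))) (K a149 (M a61 (F (L l305 (T t505 (L l220 (L l293 (T t506 (L l217 (T t2037 N))))))))) (K a213 (Fr a170 a255 l476 (Fr a42 a21 l68 (Fr a106 a234 l390 (Fr a192 a149 l519 (V t581))))) (K a42 (M a48 (F (T t364 (L l222 (L l390 (T t50 (L l28 (T t100 N)))))))) (K a106 (M a48 (F (T t1 (L l104 (T t509 (L l222 (L l390 (T t50 N)))))))) (K a170 (M a16 (F (L l404 (T t113 (L l293 (L l390 (T t98 (L l390 (L l404 (T t97 (L l233 (L l404 (T t174 N))))))))))))) (K a255 (M a16 (F (T t112 (L l289 (T t113 (L l289 (L l293 (L l296 (T t98 N))))))))) N))))))))))))))))))))⟩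
def e0_63__193_89 : Ent 4 := ⟨[a0, a63], [a193, a141], (M a85 (F (T t52 (L l228 (L l293 (T t88 (L l293 (T t89 (L l228 (T t90 (K a64 (M a16 (F (T t258 (L l327 (T t97 (L l116 (L l293 (T t98 N)))))))) (K a192 (M a195 (F (T t883 (L l309 (T t2035 (L l293 (L l296 (T t894 (L l305 (T t2036 N)))))))))) (K a21 (M a48 (F (T t99 (T t50 (L l47 (T t100 N)))))) (K a149 (M a61 (F (L l305 (T t505 (L l220 (L l293 (T t506 (L l217 (T t2037 N))))))))) (K a213 (Fr a170 a255 l476 (Fr a42 a21 l68 (Fr a106 a234 l390 (Fr a192 a149 l519 (V t581))))) (K a42 (M a48 (F (T t364 (L l390 (T t50 (L l28 (T t100 N))))))) (K a106 (M a48 (F (T t99 (L l327 (T t1 (L l390 (T t50 N))))))) (K a170 (M a16 (F (L l404 (T t113 (L l293 (L l390 (T t98 (L l327 (L l390 (L l404 (T t97 (L l233 (L l404 (T t174 N)))))))))))))) (K a255 (M a16 (F (T t112 (L l289 (T t113 (L l289 (L l293 (L l296 (T t98 N))))))))) N)))))))))))))))))))⟩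
def e0_63__193_90 : Ent 4 := ⟨[a0, a63], [a193, a142], (M a12 (F (T t122 (T t151 (T t152 (T t153 (K a4 (M a60 (F (T t43 (L l324 (L l515 (T t398 (T t448 N))))))) (K a8 (M a60 (F (T t67 (L l324 (L l515 (T t398 (L l52 (L l56 (T t448 N))))))))) (K a21 (M a192 (F (T t468 (L l15 (L l347 (L l515 (T t450 (L l15 (L l347 (L l515 (T t157 N))))))))))) (K a25 (M a192 (F (T t449 (L l15 (L l515 (T t450 (L l515 (T t21 N)))))))) (K a29 (M a192 (F (T t449 (L l371 (L l515 (T t21 (L l293 (T t160 N)))))))) (K a38 (M a192 (F (T t468 (L l515 (T t450 (L l515 (T t21 N))))))) (K a42 (M a192 (F (T t449 (L l515 (T t450 (L l56 (L l515 (T t157 N)))))))) (K a46 (M a192 (F (T t449 (L l515 (T t21 (L l26 (L l293 (L l408 (T t160 N))))))))) (K a51 (M a149 (F (T t4374 (L l269 (L l293 (T t960 N)))))) N)))))))))))))))⟩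
def e0_63__193_91 : Ent 4 := ⟨[a0, a63], [a193, a143], (M a85 (F (T t52 (L l228 (L l293 (T t88 (L l293 (T t89 (L l213 (L l228 (T t90 (K a64 (M a16 (F (T t258 (T t112 (L l116 (L l213 (L l293 (T t98 N)))))))) (K a192 (M a195 (F (T t883 (L l309 (T t2035 (L l293 (L l296 (T t894 (L l305 (T t2036 N)))))))))) (K a21 (M a48 (F (T t99 (L l47 (T t903 (L l47 (T t100 N))))))) (K a149 (M a61 (F (L l305 (T t505 (L l220 (L l293 (T t506 (L l217 (T t2037 N))))))))) (K a213 (Fr a170 a255 l476 (Fr a42 a21 l68 (Fr a106 a234 l390 (Fr a192 a149 l519 (V t581))))) (K a42 (M a48 (F (T t364 (L l390 (T t903 (L l28 (T t100 N))))))) (K a106 (M a48 (F (T t99 (T t48 (L l227 (L l390 (T t50 N))))))) (K a170 (M a16 (F (L l404 (T t113 (L l213 (L l293 (L l390 (T t98 (L l325 (L l390 (L l404 (T t97 (L l233 (L l325 (L l404 (T t174 N)))))))))))))))) (K a255 (M a16 (F (T t112 (L l289 (T t113 (L l213 (L l289 (L l293 (L l296 (T t98 N)))))))))) N))))))))))))))))))))⟩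
def e0_63__193_92 : Ent 4 := ⟨[a0, a63], [a193, a148], (M a48 (F (T t1 (T t2 (T t3 (T t0 (K a16 (M a60 (F (T t43 (L l515 (T t64 (T t65 N)))))) (K a32 (M a60 (F (T t451 (L l346 (T t67 (L l24 (L l28 (T t65 N)))))))) (K a21 (M a192 (F (T t837 (L l47 (L l163 (L l347 (L l515 (T t20 (L l47 (L l163 (L l347 (L l515 (T t29 N))))))))))))) (K a37 (M a192 (F (T t837 (L l47 (L l163 (L l515 (T t20 (L l163 (L l216 (L l515 (T t21 N))))))))))) (K a53 (M a192 (F (T t837 (L l163 (L l216 (L l491 (L l515 (T t21 (L l293 (T t31 N)))))))))) (K a26 (M a192 (F (T t837 (L l163 (L l515 (T t20 (L l163 (L l216 (L l515 (T t21 N)))))))))) (K a42 (M a192 (F (T t837 (L l163 (L l515 (T t20 (L l28 (L l163 (L l515 (T t29 N)))))))))) (K a58 (M a192 (F (T t837 (L l163 (L l216 (L l515 (T t21 (L l54 (L l293 (L l498 (T t31 N))))))))))) (K a15 (M a192 (F (T t1800 (L l166 (L l216 (L l483 (T t27 (L l163 (L l325 (L l515 (T t20 N))))))))))) N)))))))))))))))⟩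
def e0_63__193_93 : Ent 4 := ⟨[a0, a63], [a193, a149], (M a48 (L l515 (F (T t2 (L l347 (L l491 (T t1 (L l347 (T t3 (L l375 (T t0 (K a16 (M a61 (F (L l485 (T t262 (L l305 (T t505 (L l10 (T t530 N)))))))) (K a32 (M a61 (F (L l485 (T t262 (L l28 (L l305 (T t505 (L l28 (T t530 N))))))))) (K a21 (M a85 (L l515 (F (T t99 (L l220 (T t50 (L l47 (L l170 (L l220 (L l491 (T t544 (L l47 (L l491 (T t545 (K a105 (M a61 (F (T t1699 (L l485 (T t262 N))))) (K a61 (M a105 (L l65 (F (T t1699 (L l220 (L l431 (T t4909 (L l431 (T t4910 (K a1 (M a41 (L l305 (F (L l431 (T t4910 (L l220 (T t50 (K a65 (M a129 (F (T t4911 (L l220 (T t50 N))))) (K a129 (Fr a65 a125 l141 (V t629)) N))))))))) (K a41 (M a1 (F (T t99 (L l69 (L l431 (T t4912 (L l35 (L l485 (T t535 N))))))))) N))))))))))) N)))))))))))))))) (K a37 (M a61 (F (L l495 (T t531 (L l28 (L l305 (T t505 (L l25 (L l28 (T t530 N)))))))))) (K a53 (M a61 (L l491 (F (T t17 (L l305 (T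 t505 (L l31 (L l305 (T t4913 (L l485 (T t4914 (L l31 (L l305 (L l375 (T t4915 (K a197 (M a101 (L l233 (F (L l170 (T t335 (L l305 (T t505 (K a201 (M a205 (F (L l236 (T t334 (L l305 (T t505 N)))))) (K a205 (M a201 (F (L l170 (T t335 (L l351 (T t529 N)))))) N))))))))) (K a101 (M a197 (F (T t17 (L l305 (T t505 (L l305 (L l375 (L l404 (T t4916 (L l485 (L l509 (T t4914 (L l31 (L l305 (L l375 (L l404 (L l494 (T t4915 N)))))))))))))))))) N))))))))))))))))) (K a26 (M a60 (L l515 (F (T t248 (L l54 (L l351 (T t43 (L l491 (T t42 (K a105 (Fr a61 a62 l33 (V t877)) (K a61 (M a105 (F (T t248 (L l228 (T t488 (L l228 (T t404 N))))))) N))))))))))) (K a42 (M a255 (L l515 (F (T t546 (L l347 (T t547 (L l28 (L l220 (L l390 (L l491 (T t548 (K a105 (M a61 (F (T t546 (L l22 (L l66 (L l392 (L l500 (T t17 N)))))))) (K a61 (M a105 (F (T t546 (L l228 (L l347 (T t4917 N)))))) N))))))))))))) (K a58 (M a61 (F (L l36 (T t18 (L l54 (L l485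 (T t4918 (L l36 (L l54 (L l305 (T t505 (L l54 (L l305 (L l375 (T t4916 (L l54 (L l305 (L l375 (T t4915 N))))))))))))))))))) (K a15 (M a61 (F (L l351 (T t529 (L l73 (L l485 (T t262 (T t530 N)))))))) (K a105 (M a61 (F (T t2 (L l485 (T t262 (L l305 (T t505 N))))))) (K a61 (M a105 (F (T t2 (L l35 (L l65 (L l347 (L l491 (T t1 (L l65 (L l347 (T t3 (L l375 (T t0 (K a16 (M a52 (F (L l228 (L l485 (T t3401 (L l14 (T t84 N))))))) (K a32 (M a52 (F (L l170 (L l228 (T t486 (L l28 (T t84 N))))))) (K a21 (M a85 (L l65 (F (T t1699 (L l220 (L l431 (T t4909 (L l431 (T t4910 (K a1 (M a41 (L l305 (F (L l431 (T t4910 (L l220 (T t50 (K a65 (M a129 (F (T t4911 (L l220 (T t50 N))))) (K a129 (Fr a65 a125 l141 (V t629)) N))))))))) (K a41 (M a1 (F (T t99 (L l69 (L l431 (T t4912 (L l35 (L l485 (T t535 N))))))))) N))))))))))) (K a37 (M a52 (F (L l170 (L l228 (T t486 (L l21 (L l28 (T t84 N)))))))) (K a53 (M a101 (L l35 (F (T t2198 (L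 l170 (L l228 (L l485 (T t4919 (L l220 (L l503 (T t4920 (K a49 (M a57 (L l485 (F (T t2198 (L l163 (L l503 (T t4921 (L l220 (L l503 (T t4920 (K a145 (Fr a97 a109 l101 (V t4922)) (K a97 (M a145 (F (T t334 (L l233 (T t4923 (T t4924 N)))))) N)))))))))))) (K a57 (M a49 (F (T t334 (L l32 (T t297 N))))) N))))))))))))) (K a26 (M a56 (F (T t133 (L l35 (L l491 (T t4925 N)))))) (K a42 (M a56 (F (T t1445 (L l35 (L l491 (T t4925 N)))))) (K a58 (M a40 (F (T t4926 (L l65 (L l347 (T t4927 N)))))) (K a15 (M a52 (F (L l170 (L l228 (L l337 (T t486 (T t84 N))))))) N)))))))))))))))))))))) N))))))))))))))))))))))⟩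
def e0_63__193_94 : Ent 4 := ⟨[a0, a63], [a193, a150], (M a48 (F (T t1 (T t2 (T t3 (T t0 (K a16 (M a60 (F (T t43 (L l515 (T t64 (T t65 N)))))) (K a32 (M a60 (F (T t451 (L l350 (T t67 (L l24 (L l28 (T t65 N)))))))) (K a21 (M a192 (F (T t837 (L l47 (L l163 (L l347 (L l515 (T t20 (L l47 (L l163 (L l347 (L l515 (T t29 N))))))))))))) (K a37 (M a192 (F (T t19 (L l47 (L l163 (L l515 (T t20 (L l163 (L l515 (T t21 N)))))))))) (K a53 (M a192 (F (T t19 (L l163 (L l491 (L l515 (T t21 (L l293 (L l516 (T t31 N)))))))))) (K a26 (M a192 (F (T t837 (L l163 (L l515 (T t20 (L l163 (L l515 (T t21 N))))))))) (K a42 (M a192 (F (T t19 (L l163 (L l515 (T t20 (L l28 (L l163 (L l515 (T t29 N)))))))))) (K a58 (M a192 (F (T t19 (L l163 (L l515 (T t21 (L l54 (L l293 (L l498 (L l516 (T t31 N))))))))))) (K a15 (M a192 (F (T t1922 (L l163 (L l325 (L l515 (T t20 (L l163 (L l469 (L l515 (T t21 N))))))))))) N)))))))))))))))⟩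
def e0_63__193_95 : Ent 4 := ⟨[a0, a63], [a193, a151], (M a48 (F (T t1 (T t2 (T t3 (L l373 (T t0 (K a16 (M a60 (F (T t42 (L l14 (L l18 (T t67 (L l349 (T t65 N)))))))) (K a32 (M a60 (F (T t42 (T t67 (L l24 (L l28 (L l349 (T t65 N)))))))) (K a21 (M a192 (F (T t27 (L l47 (L l163 (L l347 (L l515 (T t20 (L l47 (L l163 (L l347 (L l515 (T t29 N))))))))))))) (K a37 (M a192 (F (T t19 (L l47 (L l163 (L l515 (T t20 (L l163 (L l515 (T t21 N)))))))))) (K a53 (M a192 (F (T t19 (L l163 (L l491 (L l515 (T t21 (L l169 (L l293 (T t31 N)))))))))) (K a26 (M a192 (F (T t837 (L l163 (L l515 (T t20 (L l163 (L l515 (T t21 N))))))))) (K a42 (M a192 (F (T t19 (L l163 (L l515 (T t20 (L l28 (L l163 (L l515 (T t29 N)))))))))) (K a58 (M a192 (F (T t19 (L l163 (L l515 (T t21 (L l54 (L l169 (L l293 (L l498 (T t31 N))))))))))) (K a15 (M a149 (F (T t1274 (L l233 (L l293 (T t6 N)))))) N))))))))))))))))⟩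
def e0_63__193_96 : Ent 4 := ⟨[a0, a63], [a193, a152], (M a85 (F (T t52 (L l228 (L l293 (T t88 (L l293 (T t89 (L l228 (T t90 (K a64 (M a16 (F (T t97 (L l84 (T t96 (L l116 (L l293 (T t98 N)))))))) (K a192 (M a195 (F (T t883 (L l309 (T t2035 (L l293 (L l296 (T t894 (L l305 (T t2036 N)))))))))) (K a21 (M a48 (F (T t99 (L l222 (T t50 (L l47 (T t100 N))))))) (K a149 (M a61 (F (L l305 (T t505 (L l220 (L l293 (T t506 (L l217 (T t2037 N))))))))) (K a213 (Fr a170 a255 l476 (Fr a42 a21 l68 (Fr a106 a234 l390 (Fr a192 a149 l519 (V t581))))) (K a42 (M a48 (F (L l28 (T t99 (L l222 (L l390 (T t50 (L l28 (T t100 N))))))))) (K a106 (M a48 (F (T t99 (T t1 (L l222 (L l390 (T t50 N))))))) (K a170 (M a16 (F (L l404 (T t113 (L l293 (L l390 (T t98 (L l390 (L l404 (T t97 (L l233 (L l404 (T t174 N))))))))))))) (K a255 (M a16 (F (T t112 (L l289 (T t113 (L l289 (L l293 (L l296 (T t98 N))))))))) N)))))))))))))))))))⟩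
def e0_63__193_97 : Ent 4 := ⟨[a0, a63], [a193, a153], (M a48 (F (T t1 (T t2 (T t3 (T t0 (K a16 (M a60 (F (T t43 (L l513 (L l515 (T t64 (T t65 N))))))) (K a32 (M a60 (F (T t67 (L l513 (L l515 (T t64 (L l24 (L l28 (T t65 N))))))))) (K a21 (M a192 (F (T t837 (L l47 (L l167 (L l347 (L l515 (T t20 (L l47 (L l167 (L l347 (L l515 (T t29 N))))))))))))) (K a37 (M a192 (F (T t19 (L l47 (L l167 (L l515 (T t20 (L l167 (L l515 (T t21 N)))))))))) (K a53 (M a192 (F (T t19 (L l167 (L l491 (L l515 (T t21 (L l293 (L l501 (T t31 N)))))))))) (K a26 (M a192 (F (T t837 (L l167 (L l515 (T t20 (L l167 (L l515 (T t21 N))))))))) (K a42 (M a192 (F (T t19 (L l167 (L l515 (T t20 (L l28 (L l167 (L l515 (T t29 N)))))))))) (K a58 (M a192 (F (T t19 (L l167 (L l515 (T t21 (L l54 (L l293 (L l498 (L l501 (T t31 N))))))))))) (K a15 (M a192 (F (T t1922 (L l167 (L l325 (L l515 (T t20 (L l167 (L l469 (L l515 (T t21 N))))))))))) N)))))))))))))))⟩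
def e0_63__193_98 : Ent 4 := ⟨[a0, a63], [a193, a154], (M a12 (F (T t122 (T t151 (T t152 (T t153 (K a4 (M a60 (F (T t43 (L l515 (T t398 (T t448 N)))))) (K a8 (M a60 (F (T t67 (L l515 (T t398 (L l52 (L l56 (T t448 N)))))))) (K a21 (M a192 (F (T t836 (L l15 (L l170 (L l347 (L l515 (T t450 (L l15 (L l170 (L l347 (L l515 (T t157 N))))))))))))) (K a25 (M a192 (F (T t449 (L l15 (L l170 (L l515 (T t450 (L l170 (L l515 (T t21 N)))))))))) (K a29 (M a192 (F (T t449 (L l170 (L l371 (L l515 (T t21 (L l293 (L l498 (T t160 N)))))))))) (K a38 (M a192 (F (T t836 (L l170 (L l515 (T t450 (L l170 (L l515 (T t21 N))))))))) (K a42 (M a192 (F (T t449 (L l170 (L l515 (T t450 (L l56 (L l170 (L l515 (T t157 N)))))))))) (K a46 (M a192 (F (T t449 (L l170 (L l515 (T t21 (L l26 (L l293 (L l408 (L l498 (T t160 N))))))))))) (K a51 (M a192 (F (T t1725 (L l170 (L l415 (L l515 (T t450 (L l170 (L l439 (L l515 (T t21 N))))))))))) N)))))))))))))))⟩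
def e0_63__193_99 : Ent 4 := ⟨[a0, a63], [a193, a155], (M a85 (F (T t52 (L l228 (L l293 (T t88 (L l293 (T t89 (L l228 (T t90 (K a64 (M a204 (F (T t1744 (L l293 (T t1576 N))))) (K a192 (M a195 (F (T t883 (L l169 (L l309 (T t2035 (L l293 (L l296 (L l499 (T t894 (L l305 (T t2036 N)))))))))))) (K a21 (M a48 (F (T t1243 (L l47 (L l367 (T t100 (T t50 N))))))) (K a149 (M a61 (F (L l305 (T t505 (L l220 (L l293 (T t506 (L l217 (T t2037 N))))))))) (K a213 (Fr a170 a255 l476 (Fr a42 a21 l68 (Fr a106 a234 l390 (Fr a192 a149 l519 (V t581))))) (K a42 (M a48 (F (T t364 (L l390 (T t50 (L l28 (L l367 (T t100 N)))))))) (K a106 (M a48 (F (T t364 (T t1 (L l390 (T t50 N)))))) (K a170 (M a16 (F (L l390 (L l404 (T t97 (L l169 (L l293 (L l367 (L l390 (T t98 (L l367 (L l404 (T t113 (L l233 (L l367 (L l404 (L l511 (T t174 N)))))))))))))))))) (K a255 (M a16 (F (T t112 (L l289 (L l367 (T t113 (L l169 (L l289 (L l293 (L l296 (L l367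 (T t98 N)))))))))))) N)))))))))))))))))))⟩
def e0_63__193_100 : Ent 4 := ⟨[a0, a63], [a193, a156], (M a85 (F (T t52 (L l228 (L l293 (T t88 (L l293 (T t89 (L l228 (T t90 (K a64 (M a16 (F (T t97 (L l84 (T t96 (L l116 (L l165 (L l293 (T t98 N))))))))) (K a192 (M a195 (F (T t4874 (L l309 (T t2035 (L l293 (L l296 (T t894 (L l171 (L l305 (T t2036 N))))))))))) (K a21 (M a48 (F (T t99 (T t50 (L l47 (T t100 N)))))) (K a149 (M a61 (F (L l305 (T t505 (L l220 (L l293 (T t506 (L l217 (T t2037 N))))))))) (K a213 (Fr a170 a255 l476 (Fr a42 a21 l68 (Fr a106 a234 l390 (Fr a192 a149 l519 (V t581))))) (K a42 (M a48 (F (T t364 (L l390 (T t50 (L l28 (T t100 N))))))) (K a106 (M a48 (F (T t1 (L l104 (T t509 (L l390 (T t50 N))))))) (K a170 (M a16 (F (L l404 (T t113 (L l165 (L l293 (L l390 (T t98 (L l390 (L l404 (T t97 (L l233 (L l404 (T t174 N)))))))))))))) (K a255 (M a16 (F (T t112 (L l289 (T t113 (L l165 (L l289 (L l293 (L l296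 (T t98 N)))))))))) N)))))))))))))))))))⟩
def e0_63__193_101 : Ent 4 := ⟨[a0, a63], [a193, a157], (M a48 (F (T t1 (T t2 (T t3 (L l363 (T t0 (K a16 (M a60 (F (T t43 (L l503 (L l515 (T t64 (T t65 N))))))) (K a32 (M a60 (F (T t42 (T t67 (L l24 (L l28 (T t65 N))))))) (K a21 (M a192 (F (T t27 (L l47 (L l167 (L l347 (L l515 (T t20 (L l47 (L l167 (L l347 (L l515 (T t29 N))))))))))))) (K a37 (M a192 (F (T t19 (L l47 (L l167 (L l515 (T t20 (L l167 (L l515 (T t21 N)))))))))) (K a53 (M a192 (F (T t19 (L l167 (L l491 (L l515 (T t21 (L l165 (L l293 (T t31 N)))))))))) (K a26 (M a192 (F (T t837 (L l167 (L l515 (T t20 (L l167 (L l515 (T t21 N))))))))) (K a42 (M a192 (F (T t19 (L l167 (L l515 (T t20 (L l28 (L l167 (L l515 (T t29 N)))))))))) (K a58 (M a192 (F (T t19 (L l167 (L l515 (T t21 (L l54 (L l165 (L l293 (L l498 (T t31 N))))))))))) (K a15 (M a149 (F (T t1274 (L l233 (L l293 (T t6 N)))))) N))))))))))))))))⟩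
def e0_63__193_102 : Ent 4 := ⟨[a0, a63], [a193, a158], (M a85 (F (T t52 (L l228 (L l293 (T t88 (L l293 (T t89 (L l228 (T t90 (K a64 (M a16 (F (T t97 (L l84 (L l362 (T t96 (L l116 (L l165 (L l293 (L l362 (T t98 N))))))))))) (K a192 (M a195 (F (T t4855 (L l309 (T t2035 (L l293 (L l296 (T t894 (L l168 (L l305 (L l504 (T t2036 N)))))))))))) (K a21 (M a48 (F (T t1243 (L l47 (L l362 (T t100 (T t50 N))))))) (K a149 (M a61 (F (L l305 (L l504 (T t505 (L l212 (L l220 (L l293 (L l504 (T t506 (L l217 (T t2037 N)))))))))))) (K a213 (Fr a170 a255 l476 (Fr a42 a21 l68 (Fr a106 a234 l390 (Fr a192 a149 l519 (V t581))))) (K a42 (M a48 (F (T t364 (L l390 (T t50 (L l28 (L l362 (T t100 N)))))))) (K a106 (M a48 (F (T t364 (T t1 (L l390 (T t50 N)))))) (K a170 (M a16 (F (L l390 (L l404 (T t97 (L l165 (L l293 (L l362 (L l390 (T t98 (L l362 (L l404 (T t113 (L l233 (L l362 (L l404 (L l506 (T t174 N)))))))))))))))))) (K a255 (M a16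 (F (T t112 (L l289 (L l362 (T t113 (L l165 (L l289 (L l293 (L l296 (L l362 (T t98 N)))))))))))) N)))))))))))))))))))⟩
def e0_63__193_103 : Ent 4 := ⟨[a0, a63], [a193, a159], (M a48 (F (T t1 (T t2 (T t3 (L l361 (T t0 (K a16 (M a60 (F (T t43 (L l515 (T t64 (T t65 N)))))) (K a32 (M a60 (F (T t67 (L l515 (T t64 (L l24 (L l28 (T t65 N)))))))) (K a21 (M a192 (F (T t837 (L l47 (L l170 (L l347 (L l515 (T t20 (L l18 (L l233 (T t224 N))))))))))) (K a37 (M a192 (F (T t837 (L l47 (L l170 (L l515 (T t20 (L l213 (T t202 N))))))))) (K a53 (M a192 (F (T t837 (L l213 (T t202 (L l47 (L l170 (L l491 (L l515 (T t838 N)))))))))) (K a26 (M a192 (F (T t837 (L l170 (L l515 (T t20 (L l213 (T t202 N)))))))) (K a42 (M a192 (F (T t837 (L l170 (L l515 (T t20 (L l54 (L l233 (L l390 (T t224 N)))))))))) (K a58 (M a192 (F (T t837 (L l213 (L l498 (T t202 (L l170 (L l515 (T t838 N))))))))) (K a15 (M a149 (F (T t1274 (L l233 (L l293 (T t6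 N)))))) N))))))))))))))))⟩
def e0_63__193_104 : Ent 4 := ⟨[a0, a63], [a193, a168], (M a48 (F (T t1 (T t2 (T t3 (L l400 (T t0 (K a16 (M a60 (F (T t42 (L l14 (L l18 (T t67 (L l388 (T t65 N)))))))) (K a32 (M a60 (L l400 (F (T t42 (T t67 (L l24 (L l28 (L l388 (T t65 (K a100 (M a236 (F (T t451 (L l28 (L l305 (T t69 (T t44 N))))))) (K a236 (M a100 (F (T t67 (L l286 (L l394 (T t549 N)))))) N))))))))))) (K a21 (M a192 (F (T t837 (L l47 (L l347 (L l515 (T t20 (L l47 (L l347 (L l400 (L l515 (T t29 N)))))))))))) (K a37 (M a192 (F (T t19 (L l47 (L l515 (T t20 (L l216 (L l515 (T t21 N))))))))) (K a53 (M a192 (F (T t19 (L l216 (L l491 (L l515 (T t21 (L l293 (T t31 N))))))))) (K a26 (M a192 (F (T t837 (L l515 (T t20 (L l216 (L l515 (T t21 N)))))))) (K a42 (M a192 (F (T t19 (L l515 (T t20 (L l28 (L l400 (L l515 (T t29 N))))))))) (K a58 (M a192 (F (T t19 (L l216 (L l515 (T t21 (L l54 (L l293 (L l498 (T t31 N)))))))))) (K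 a15 (M a192 (F (T t1800 (L l216 (L l483 (T t27 (L l325 (L l515 (T t20 N))))))))) N))))))))))))))))⟩
def e0_63__193_105 : Ent 4 := ⟨[a0, a63], [a193, a169], (M a48 (F (T t1 (T t2 (T t3 (T t0 (K a16 (M a60 (F (T t42 (L l14 (L l18 (L l393 (L l477 (T t67 (T t65 N))))))))) (K a32 (M a60 (F (T t42 (L l393 (L l477 (T t67 (L l24 (L l28 (T t65 N))))))))) (K a21 (M a192 (F (T t837 (L l47 (L l217 (L l347 (L l515 (T t20 (L l47 (L l217 (L l347 (L l515 (T t29 N))))))))))))) (K a37 (M a192 (F (T t19 (L l47 (L l217 (L l515 (T t20 (L l217 (L l515 (T t21 N)))))))))) (K a53 (M a192 (F (T t19 (L l217 (L l491 (L l515 (T t21 (L l293 (L l393 (T t31 N)))))))))) (K a26 (M a192 (F (T t837 (L l217 (L l515 (T t20 (L l217 (L l515 (T t21 N))))))))) (K a42 (M a192 (F (T t19 (L l217 (L l515 (T t20 (L l28 (L l217 (L l515 (T t29 N)))))))))) (K a58 (M a192 (F (T t19 (L l217 (L l515 (T t21 (L l54 (L l293 (L l393 (L l498 (T t31 N)))))))))))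 (K a15 (M a192 (F (T t1922 (L l217 (L l325 (L l515 (T t20 (L l217 (L l469 (L l515 (T t21 N))))))))))) N)))))))))))))))⟩
def e0_63__193_106 : Ent 4 := ⟨[a0, a63], [a193, a170], (M a48 (F (T t3 (L l462 (T t1 (L l390 (T t2 (L l390 (L l404 (T t0 (K a16 (M a60 (F (T t42 (L l14 (L l18 (T t67 (L l390 (L l392 (T t65 N))))))))) (K a32 (M a60 (L l404 (F (T t42 (T t67 (L l24 (L l28 (L l390 (L l392 (T t65 (K a101 (M a239 (F (T t451 (L l28 (L l305 (L l390 (T t69 (L l24 (L l28 (L l390 (L l392 (T t65 N)))))))))))) (K a239 (M a101 (F (T t67 (L l228 (L l233 (L l376 (T t313 N))))))) N)))))))))))) (K a21 (M a192 (F (T t837 (L l233 (L l390 (T t206 (L l47 (L l220 (L l347 (L l404 (L l515 (T t29 N)))))))))))) (K a37 (M a192 (F (T t19 (L l233 (L l390 (T t206 (L l28 (L l47 (L l220 (L l404 (L l515 (T t29 N)))))))))))) (K a53 (M a12 (F (T t550 (L l47 (L l402 (T t122 (L l47 (L l402 (T t146 N))))))))) (K a26 (M a192 (F (T t837 (L l54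 (L l233 (L l390 (T t206 (L l220 (L l404 (L l515 (T t29 N))))))))))) (K a42 (M a106 (F (T t304 (L l220 (L l515 (T t551 (L l28 (L l206 (L l220 (L l404 (T t552 (L l28 (L l206 (L l404 (T t553 N))))))))))))))) (K a58 (M a12 (F (T t445 (L l402 (T t122 (L l402 (T t146 N))))))) (K a15 (M a192 (F (L l483 (T t19 (L l233 (L l325 (L l390 (T t206 (L l220 (L l404 (L l515 (T t29 N)))))))))))) N)))))))))))))))))))⟩
def e0_63__193_107 : Ent 4 := ⟨[a0, a63], [a193, a171], (M a48 (F (T t1 (T t2 (T t3 (T t0 (K a16 (M a60 (F (T t42 (L l14 (L l18 (L l391 (L l475 (T t67 (T t65 N))))))))) (K a32 (M a60 (F (T t42 (L l391 (L l475 (T t67 (L l24 (L l28 (T t65 N))))))))) (K a21 (M a192 (F (T t837 (L l47 (L l347 (L l515 (T t20 (L l47 (L l347 (L l515 (T t29 N))))))))))) (K a37 (M a192 (F (T t19 (L l47 (L l515 (T t20 (L l475 (L l515 (T t21 N))))))))) (K a53 (M a192 (F (T t19 (L l475 (L l491 (L l515 (T t21 (L l293 (T t31 N))))))))) (K a26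 (M a192 (F (T t27 (L l515 (T t20 (L l475 (L l515 (T t21 N)))))))) (K a42 (M a192 (F (T t19 (L l515 (T t20 (L l28 (L l515 (T t29 N)))))))) (K a58 (M a192 (F (T t19 (L l475 (L l515 (T t21 (L l54 (L l293 (L l498 (T t31 N)))))))))) (K a15 (M a149 (F (T t1274 (L l233 (L l293 (T t6 N)))))) N)))))))))))))))⟩
def e0_63__193_108 : Ent 4 := ⟨[a0, a63], [a193, a172], (M a85 (F (T t52 (L l228 (L l293 (T t88 (L l293 (T t89 (L l228 (T t90 (K a64 (M a240 (F (T t386 (L l176 (L l293 (T t387 N)))))) (K a192 (M a195 (F (T t883 (L l309 (T t2035 (L l293 (L l296 (T t894 (L l305 (T t2036 N)))))))))) (K a21 (M a48 (F (T t99 (T t50 (L l47 (T t100 N)))))) (K a149 (M a61 (F (L l305 (T t505 (L l220 (L l293 (L l466 (T t506 (L l181 (L l217 (T t2037 N))))))))))) (K a213 (Fr a170 a255 l476 (Fr a42 a21 l68 (Fr a106 a234 l390 (Fr a192 a149 l519 (V t581))))) (K a42 (M a48 (F (T t364 (L l390 (T t50 (L l28 (T t100 N))))))) (K a106 (M a48 (F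 (T t1 (L l104 (T t509 (L l390 (T t50 N))))))) (K a170 (M a16 (F (L l404 (T t113 (L l293 (L l390 (T t98 (L l390 (L l404 (T t97 (L l233 (L l404 (T t174 N))))))))))))) (K a255 (M a16 (F (T t112 (L l289 (T t113 (L l289 (L l293 (L l296 (T t98 N))))))))) N)))))))))))))))))))⟩
def e0_63__193_109 : Ent 4 := ⟨[a0, a63], [a193, a173], (M a85 (F (T t52 (L l228 (L l293 (T t88 (L l293 (T t89 (L l228 (T t90 (K a64 (M a240 (F (T t386 (L l293 (T t387 N))))) (K a192 (M a195 (F (T t883 (L l309 (T t2035 (L l293 (L l296 (T t894 (L l305 (T t2036 N)))))))))) (K a21 (M a48 (F (T t99 (T t50 (L l47 (T t100 N)))))) (K a149 (M a61 (F (L l305 (T t505 (L l220 (L l293 (L l467 (L l471 (T t506 (L l177 (L l217 (T t2037 N)))))))))))) (K a213 (Fr a170 a255 l476 (Fr a42 a21 l68 (Fr a106 a234 l390 (Fr a192 a149 l519 (V t581))))) (K a42 (M a48 (F (T t364 (L l390 (T t50 (L l28 (T t100 N))))))) (K a106 (M a48 (F (T t99 (L l471 (T t1 (L l390 (T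 t50 N))))))) (K a170 (M a16 (F (L l404 (T t113 (L l293 (L l390 (T t98 (L l390 (L l404 (L l471 (T t97 (L l233 (L l404 (T t174 N)))))))))))))) (K a255 (M a16 (F (T t112 (L l289 (T t113 (L l289 (L l293 (L l296 (T t98 N))))))))) N)))))))))))))))))))⟩
def e0_63__193_110 : Ent 4 := ⟨[a0, a63], [a193, a174], (M a48 (F (T t1 (T t2 (T t3 (T t0 (K a16 (M a60 (F (T t43 (L l515 (T t64 (T t65 N)))))) (K a32 (M a60 (F (T t67 (L l515 (T t64 (L l24 (L l28 (T t65 N)))))))) (K a21 (M a192 (F (T t837 (L l47 (L l347 (L l515 (T t20 (L l47 (L l347 (L l515 (T t29 N))))))))))) (K a37 (M a192 (F (T t19 (L l47 (L l515 (T t20 (L l470 (L l515 (T t21 N))))))))) (K a53 (M a192 (F (T t19 (L l470 (L l491 (L l515 (T t21 (L l293 (T t31 N))))))))) (K a26 (M a192 (F (T t27 (L l515 (T t20 (L l470 (L l515 (T t21 N)))))))) (K a42 (M a192 (F (T t19 (L l515 (T t20 (L l28 (L l515 (T t29 N)))))))) (K a58 (M a192 (F (T t19 (L l470 (L l515 (T t21 (L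 l54 (L l293 (L l498 (T t31 N)))))))))) (K a15 (M a149 (F (T t1274 (L l233 (L l293 (T t6 N)))))) N)))))))))))))))⟩
def e0_63__193_111 : Ent 4 := ⟨[a0, a63], [a193, a175], (M a12 (F (T t122 (T t151 (T t152 (T t153 (K a4 (M a60 (F (T t43 (L l469 (L l515 (T t398 (T t448 N))))))) (K a8 (M a60 (F (T t67 (L l469 (L l515 (T t398 (L l52 (L l56 (T t448 N))))))))) (K a21 (M a192 (F (T t836 (L l15 (L l347 (L l515 (T t450 (L l15 (L l347 (L l515 (T t157 N))))))))))) (K a25 (M a192 (F (T t449 (L l15 (L l515 (T t450 (L l469 (L l515 (T t21 N))))))))) (K a29 (M a192 (F (T t449 (L l371 (L l469 (L l515 (T t21 (L l293 (T t160 N))))))))) (K a38 (M a192 (F (T t156 (L l515 (T t450 (L l469 (L l515 (T t21 N)))))))) (K a42 (M a192 (F (T t449 (L l515 (T t450 (L l56 (L l515 (T t157 N)))))))) (K a46 (M a192 (F (T t449 (L l469 (L l515 (T t21 (L l26 (L l293 (L l408 (T t160 N)))))))))) (K a51 (M a149 (F (T t4374 (L l269 (L l293 (T t960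 N)))))) N)))))))))))))))⟩
def e0_63__193_112 : Ent 4 := ⟨[a0, a63], [a193, a188], (M a85 (F (T t52 (L l228 (L l293 (T t88 (L l293 (T t89 (L l185 (L l228 (T t90 (K a64 (M a16 (F (T t97 (L l84 (T t96 (L l116 (L l293 (T t98 N)))))))) (K a192 (M a195 (F (T t4855 (L l309 (T t2035 (L l293 (L l296 (T t894 (L l221 (L l305 (T t2036 N))))))))))) (K a21 (M a48 (F (T t99 (L l186 (T t50 (L l47 (T t100 N))))))) (K a149 (M a61 (F (L l305 (T t505 (L l185 (L l220 (L l293 (L l430 (T t506 (L l217 (L l221 (T t2037 N)))))))))))) (K a213 (Fr a170 a255 l476 (Fr a42 a21 l68 (Fr a106 a234 l390 (Fr a192 a149 l519 (V t581))))) (K a42 (M a48 (F (T t364 (L l186 (L l390 (T t50 (L l28 (T t100 N)))))))) (K a106 (M a48 (F (T t1 (L l104 (T t509 (L l186 (L l390 (T t50 N)))))))) (K a170 (M a16 (F (L l404 (T t113 (L l293 (L l390 (T t98 (L l390 (L l404 (T t97 (L l233 (L l404 (T t174 N))))))))))))) (K a255 (M a16 (F (T t112 (L l289 (T t113 (L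 l289 (L l293 (L l296 (T t98 N))))))))) N))))))))))))))))))))⟩
def e0_63__193_113 : Ent 4 := ⟨[a0, a63], [a193, a189], (M a48 (F (T t1 (T t2 (T t3 (T t0 (K a16 (M a60 (F (T t43 (L l431 (L l515 (T t64 (T t65 N))))))) (K a32 (M a60 (F (T t42 (T t67 (L l24 (L l28 (T t65 N))))))) (K a21 (M a192 (F (T t837 (L l47 (L l217 (L l347 (L l515 (T t20 (L l47 (L l217 (L l347 (L l515 (T t29 N))))))))))))) (K a37 (M a192 (F (T t19 (L l47 (L l217 (L l515 (T t20 (L l217 (L l515 (T t21 N)))))))))) (K a53 (M a192 (F (T t19 (L l217 (L l491 (L l515 (T t21 (L l293 (T t31 N))))))))) (K a26 (M a192 (F (T t837 (L l217 (L l515 (T t20 (L l217 (L l515 (T t21 N))))))))) (K a42 (M a192 (F (T t19 (L l217 (L l515 (T t20 (L l28 (L l217 (L l515 (T t29 N)))))))))) (K a58 (M a192 (F (T t19 (L l217 (L l515 (T t21 (L l54 (L l293 (L l498 (T t31 N)))))))))) (K a15 (M a192 (F (T t54 (L l483 (T t27 (L l217 (L l469 (L l515 (T t21 N))))))))) N)))))))))))))))⟩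
def e0_63__193_114 : Ent 4 := ⟨[a0, a63], [a193, a190], (M a48 (F (T t1 (T t2 (T t3 (T t0 (K a16 (M a60 (F (T t43 (L l515 (T t64 (T t65 N)))))) (K a32 (M a60 (F (T t42 (T t67 (L l24 (L l28 (T t65 N))))))) (K a21 (M a192 (F (T t837 (L l47 (L l347 (L l515 (T t20 (L l47 (L l347 (L l515 (T t29 N))))))))))) (K a37 (M a192 (F (T t19 (L l47 (L l515 (T t20 (L l434 (L l515 (T t21 N))))))))) (K a53 (M a192 (F (T t19 (L l434 (L l491 (L l515 (T t21 (L l293 (T t31 N))))))))) (K a26 (M a192 (F (T t27 (L l515 (T t20 (L l434 (L l515 (T t21 N)))))))) (K a42 (M a192 (F (T t19 (L l515 (T t20 (L l28 (L l515 (T t29 N)))))))) (K a58 (M a192 (F (T t19 (L l434 (L l515 (T t21 (L l54 (L l293 (L l498 (T t31 N)))))))))) (K a15 (M a149 (F (T t1274 (L l233 (L l293 (T t6 N)))))) N)))))))))))))))⟩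
def e0_63__193_115 : Ent 4 := ⟨[a0, a63], [a193, a191], (M a48 (F (T t1 (T t2 (T t3 (T t0 (K a16 (M a60 (F (T t43 (L l515 (T t64 (T t65 N)))))) (K a32 (M a60 (F (T t67 (L l515 (T t64 (L l24 (L l28 (T t65 N)))))))) (K a21 (M a192 (F (T t28 (L l233 (T t206 (L l47 (L l220 (L l347 (L l515 (T t29 N)))))))))) (K a37 (M a192 (F (T t19 (L l233 (T t206 (L l47 (L l220 (L l515 (T t35 N))))))))) (K a53 (M a192 (F (T t19 (L l47 (L l220 (L l491 (L l515 (T t35 (L l213 (L l293 (T t31 N))))))))))) (K a26 (M a192 (F (T t28 (L l54 (L l233 (T t206 (L l18 (L l220 (L l515 (T t35 N)))))))))) (K a42 (M a192 (F (T t19 (L l54 (L l233 (L l390 (T t206 (L l28 (L l220 (L l515 (T t29 N))))))))))) (K a58 (M a192 (F (T t19 (L l220 (L l515 (T t35 (L l54 (L l213 (L l293 (L l498 (T t31 N))))))))))) (K a15 (M a149 (F (T t1274 (L l233 (L l293 (T t6 N)))))) N)))))))))))))))⟩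
def e0_63__193_116 : Ent 4 := ⟨[a0, a63], [a193, a192], (M a60 (L l228 (F (T t522 (L l309 (T t67 (L l309 (T t43 (L l309 (L l515 (T t68 (L l305 (L l309 (T t69 (K a20 (M a48 (L l228 (F (T t132 (L l489 (L l515 (T t64 (L l11 (L l515 (T t235 (K a194 (M a195 (F (T t610 (L l46 (L l236 (L l350 (L l516 (T t4928 N)))))))) (K a195 (M a194 (F (T t277 (L l337 (L l339 (T t2 (L l11 (L l515 (T t235 N))))))))) N)))))))))))) (K a40 (M a48 (L l228 (F (T t48 (L l489 (L l515 (T t64 (L l52 (L l515 (T t235 (K a194 (M a195 (F (T t607 (L l236 (L l516 (T t4928 N)))))) (K a195 (M a194 (F (T t607 (L l52 (L l487 (L l489 (T t451 (L l52 (L l515 (T t235 N)))))))))) N)))))))))))) (K a21 (M a255 (L l228 (F (T t4929 (L l292 (T t1565 (L l65 (L l515 (T t4930 (K a194 (M a195 (F (T t4931 (L l309 (T t4932 N))))) (K a195 (M a194 (F (T t1639 (T t4933 (L l65 (L l347 (L l515 (T t4934 (L l347 (T t4935 N)))))))))) N))))))))))) (K a41 (M a32 (L l228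 (F (T t1568 (L l65 (L l339 (T t219 (L l25 (L l65 (T t1569 (K a194 (M a195 (F (T t1568 (L l25 (L l65 (L l485 (T t4936 N))))))) (K a195 (M a194 (F (T t1568 (L l65 (L l337 (L l339 (T t219 (L l25 (L l65 (T t1569 N)))))))))) N)))))))))))) (K a61 (M a48 (L l228 (L l515 (F (T t1308 (L l35 (L l65 (L l339 (T t1 (T t65 (K a149 (M a105 (L l228 (F (T t132 (L l236 (L l503 (T t4937 (K a194 (Fr a195 a150 l518 (V t1144)) (K a195 (M a194 (F (T t132 (L l235 (L l295 (T t4938 N)))))) N))))))))) (K a105 (M a149 (L l228 (F (T t1308 (L l233 (L l236 (L l293 (L l296 (T t6 (K a194 (M a195 (F (T t610 (L l98 (L l141 (L l305 (T t1115 N))))))) (K a195 (M a194 (F (T t1308 (L l233 (L l236 (L l293 (L l296 (T t6 N)))))))) N))))))))))) (K a194 (M a195 (L l515 (F (T t132 (L l296 (L l306 (L l431 (L l516 (T t4393 (K a149 (Fr a105 a150 l518 (V t1144)) (K a105 (M a149 (F (T t610 (L l98 (L l141 (L l305 (T t1115 N))))))) N))))))))))) (K a195 (M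 a194 (L l515 (F (T t610 (L l334 (L l338 (T t489 (T t65 (K a149 (M a105 (F (T t132 (L l235 (L l295 (T t4938 N)))))) (K a105 (M a149 (F (T t1308 (L l233 (L l236 (L l293 (L l296 (T t6 N)))))))) N)))))))))) N)))))))))))))) (K a22 (M a16 (L l228 (F (T t2447 (L l66 (L l339 (T t97 (L l16 (L l66 (T t1141 (K a194 (M a195 (F (T t2447 (L l16 (L l66 (L l486 (T t4939 N))))))) (K a195 (M a194 (F (T t2447 (L l66 (L l337 (L l339 (T t97 (L l16 (L l66 (T t1141 N)))))))))) N)))))))))))) (K a42 (M a255 (L l228 (F (T t4940 (L l292 (T t1565 (L l22 (L l390 (L l515 (T t4930 (K a194 (M a195 (F (T t4941 (L l292 (T t1633 N))))) (K a195 (M a194 (F (L l66 (T t1639 (L l22 (L l390 (L l515 (T t4942 (L l66 (L l390 (T t4933 (L l515 (T t4943 N))))))))))))) N)))))))))))) (K a62 (M a16 (L l228 (F (T t2447 (L l66 (L l339 (T t97 (L l66 (T t1141 (K a194 (M a195 (L l516 (F (T t2447 (L l66 (L l486 (T t4939 (K a150 (M a106 (F (T t2447 (L l163 (L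 l218 (L l294 (L l296 (L l306 (T t4944 N))))))))) (K a106 (Fr a150 a105 l518 (V t4945)) N))))))))) (K a195 (M a194 (F (T t2447 (L l66 (L l337 (L l339 (T t97 (L l66 (T t1141 N))))))))) N))))))))))) (K a3 (M a16 (L l228 (L l309 (F (T t112 (L l9 (L l334 (T t1140 (T t1141 (K a129 (M a66 (L l228 (L l305 (F (T t112 (L l9 (L l334 (T t1140 (T t1141 (K a1 (M a65 (L l228 (F (T t504 (L l152 (L l296 (L l475 (T t686 (K a194 (Fr a195 a130 l308 (V t4946)) (K a195 (M a194 (L l307 (F (T t1574 (L l65 (L l152 (L l515 (T t4947 (K a67 (M a131 (F (T t2447 (L l65 (L l515 (T t4947 N)))))) (K a131 (Fr a67 a64 l76 (V t97)) N)))))))))) N)))))))))) (K a65 (M a1 (L l228 (F (T t4948 (L l9 (L l334 (T t1140 (K a194 (M a195 (F (T t4948 (L l9 (L l334 (T t1140 N)))))) (K a195 (M a194 (L l307 (F (T t4949 (L l9 (L l334 (L l338 (T t1140 (K a67 (M a131 (F (T t4949 (L l9 (L l334 (L l338 (T t1140 N))))))) (K a131 (M a67 (L l152 (F (T t4948 (L l9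 (L l334 (L l338 (T t1140 (K a128 (Fr a130 a2 l306 (V t4948)) (K a130 (M a128 (F (T t4948 (L l9 (L l334 (L l338 (T t1140 N))))))) N)))))))))) N)))))))))) N))))))))) (K a194 (M a195 (L l305 (F (T t112 (L l296 (L l475 (L l515 (T t4396 (K a1 (Fr a65 a130 l308 (V t4946)) (K a65 (M a1 (F (T t4948 (L l9 (L l334 (T t1140 N)))))) N)))))))))) (K a195 (M a194 (L l305 (L l307 (F (T t2447 (L l152 (L l515 (T t4947 (K a1 (M a65 (L l307 (F (T t1574 (L l65 (L l152 (L l515 (T t4947 (K a67 (M a131 (F (T t2447 (L l65 (L l515 (T t4947 N)))))) (K a131 (Fr a67 a64 l76 (V t97)) N)))))))))) (K a65 (M a1 (L l307 (F (T t4949 (L l9 (L l334 (L l338 (T t1140 (K a67 (M a131 (F (T t4949 (L l9 (L l334 (L l338 (T t1140 N))))))) (K a131 (M a67 (L l152 (F (T t4948 (L l9 (L l334 (L l338 (T t1140 (K a128 (Fr a130 a2 l306 (V t4948)) (K a130 (M a128 (F (T t4948 (L l9 (L l334 (L l338 (T t1140 N))))))) N)))))))))) N)))))))))) (K a67 (M a131 (L l305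 (F (T t2447 (L l515 (T t4947 (K a1 (M a65 (F (T t2447 (L l65 (L l515 (T t4947 N)))))) (K a65 (M a1 (F (T t4949 (L l9 (L l334 (L l338 (T t1140 N))))))) N)))))))) (K a131 (M a67 (L l152 (L l305 (F (T t2447 (L l7 (L l337 (L l339 (T t97 (T t1141 (K a128 (Fr a130 a2 l306 (V t97)) (K a1 (Fr a65 a64 l76 (V t97)) (K a65 (M a1 (L l152 (F (T t4948 (L l9 (L l334 (L l338 (T t1140 (K a128 (Fr a130 a2 l306 (V t4948)) (K a130 (M a128 (F (T t4948 (L l9 (L l334 (L l338 (T t1140 N))))))) N)))))))))) (K a130 (M a128 (L l305 (F (T t2447 (L l7 (L l337 (L l339 (T t97 (T t1141 (K a1 (Fr a65 a64 l76 (V t1140)) (K a65 (M a1 (F (T t4948 (L l9 (L l334 (L l338 (T t1140 N))))))) N))))))))))) N)))))))))))))) N)))))))))))) N))))))))))))) (K a66 (M a129 (L l228 (F (T t112 (L l9 (L l334 (T t1140 (T t1141 (K a194 (M a195 (L l306 (F (T t2447 (L l486 (T t4939 (K a2 (Fr a130 a65 l308 (V t4950)) (K a130 (M a2 (F (T t4951 (L l9 (L l334 (T t1140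 N)))))) N)))))))) (K a195 (M a194 (L l307 (F (T t2447 (L l7 (L l337 (L l339 (T t97 (T t1141 (K a67 (M a131 (L l76 (F (T t112 (L l9 (L l334 (L l338 (T t1140 (T t1141 (K a64 (M a65 (F (T t112 (L l9 (L l334 (L l338 (T t1140 (T t1141 N)))))))) (K a65 (M a64 (F (T t1574 (L l7 (L l337 (L l339 (T t97 (T t1141 N)))))))) N))))))))))) (K a131 (M a67 (F (T t2447 (L l7 (L l337 (L l339 (T t97 (T t1141 N)))))))) N))))))))))) N)))))))))) (K a194 (M a195 (L l309 (F (T t112 (L l296 (L l475 (L l515 (T t4396 (K a129 (M a66 (L l305 (F (T t112 (L l296 (L l475 (L l515 (T t4396 (K a1 (Fr a65 a130 l308 (V t4946)) (K a65 (M a1 (F (T t4948 (L l9 (L l334 (T t1140 N)))))) N)))))))))) (K a66 (M a129 (L l306 (F (T t2447 (L l486 (T t4939 (K a2 (Fr a130 a65 l308 (V t4950)) (K a130 (M a2 (F (T t4951 (L l9 (L l334 (T t1140 N)))))) N)))))))) N)))))))))) (K a195 (M a194 (L l307 (L l309 (F (T t2447 (L l7 (L l337 (L l339 (T t97 (T t1141 (K a129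 (M a66 (L l305 (L l307 (F (T t2447 (L l152 (L l515 (T t4947 (K a1 (M a65 (L l307 (F (T t1574 (L l65 (L l152 (L l515 (T t4947 (K a67 (M a131 (F (T t2447 (L l65 (L l515 (T t4947 N)))))) (K a131 (Fr a67 a64 l76 (V t97)) N)))))))))) (K a65 (M a1 (L l307 (F (T t4949 (L l9 (L l334 (L l338 (T t1140 (K a67 (M a131 (F (T t4949 (L l9 (L l334 (L l338 (T t1140 N))))))) (K a131 (M a67 (L l152 (F (T t4948 (L l9 (L l334 (L l338 (T t1140 (K a128 (Fr a130 a2 l306 (V t4948)) (K a130 (M a128 (F (T t4948 (L l9 (L l334 (L l338 (T t1140 N))))))) N)))))))))) N)))))))))) (K a67 (M a131 (L l305 (F (T t2447 (L l515 (T t4947 (K a1 (M a65 (F (T t2447 (L l65 (L l515 (T t4947 N)))))) (K a65 (M a1 (F (T t4949 (L l9 (L l334 (L l338 (T t1140 N))))))) N)))))))) (K a131 (M a67 (L l152 (L l305 (F (T t2447 (L l7 (L l337 (L l339 (T t97 (T t1141 (K a128 (Fr a130 a2 l306 (V t97)) (K a1 (Fr a65 a64 l76 (V t97)) (K a65 (M a1 (L l152 (F (T t4948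 (L l9 (L l334 (L l338 (T t1140 (K a128 (Fr a130 a2 l306 (V t4948)) (K a130 (M a128 (F (T t4948 (L l9 (L l334 (L l338 (T t1140 N))))))) N)))))))))) (K a130 (M a128 (L l305 (F (T t2447 (L l7 (L l337 (L l339 (T t97 (T t1141 (K a1 (Fr a65 a64 l76 (V t1140)) (K a65 (M a1 (F (T t4948 (L l9 (L l334 (L l338 (T t1140 N))))))) N))))))))))) N)))))))))))))) N)))))))))))) (K a66 (M a129 (L l307 (F (T t2447 (L l7 (L l337 (L l339 (T t97 (T t1141 (K a67 (M a131 (L l76 (F (T t112 (L l9 (L l334 (L l338 (T t1140 (T t1141 (K a64 (M a65 (F (T t112 (L l9 (L l334 (L l338 (T t1140 (T t1141 N)))))))) (K a65 (M a64 (F (T t1574 (L l7 (L l337 (L l339 (T t97 (T t1141 N)))))))) N))))))))))) (K a131 (M a67 (F (T t2447 (L l7 (L l337 (L l339 (T t97 (T t1141 N)))))))) N))))))))))) (K a67 (M a131 (L l309 (F (T t2447 (L l7 (L l337 (L l339 (T t97 (T t1141 (K a129 (M a66 (L l305 (F (T t2447 (L l515 (T t4947 (K a1 (M a65 (F (T t2447 (L l65 (L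 l515 (T t4947 N)))))) (K a65 (M a1 (F (T t4949 (L l9 (L l334 (L l338 (T t1140 N))))))) N)))))))) (K a66 (M a129 (L l76 (F (T t112 (L l9 (L l334 (L l338 (T t1140 (T t1141 (K a64 (M a65 (F (T t112 (L l9 (L l334 (L l338 (T t1140 (T t1141 N)))))))) (K a65 (M a64 (F (T t1574 (L l7 (L l337 (L l339 (T t97 (T t1141 N)))))))) N))))))))))) N))))))))))) (K a131 (M a67 (L l309 (F (T t2447 (L l7 (L l337 (L l339 (T t97 (T t1141 (K a129 (M a66 (L l152 (L l305 (F (T t2447 (L l7 (L l337 (L l339 (T t97 (T t1141 (K a128 (Fr a130 a2 l306 (V t97)) (K a1 (Fr a65 a64 l76 (V t97)) (K a65 (M a1 (L l152 (F (T t4948 (L l9 (L l334 (L l338 (T t1140 (K a128 (Fr a130 a2 l306 (V t4948)) (K a130 (M a128 (F (T t4948 (L l9 (L l334 (L l338 (T t1140 N))))))) N)))))))))) (K a130 (M a128 (L l305 (F (T t2447 (L l7 (L l337 (L l339 (T t97 (T t1141 (K a1 (Fr a65 a64 l76 (V t1140)) (K a65 (M a1 (F (T t4948 (L l9 (L l334 (L l338 (T t1140 N))))))) N)))))))))))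 N)))))))))))))) (K a66 (M a129 (F (T t2447 (L l7 (L l337 (L l339 (T t97 (T t1141 N)))))))) N))))))))))) N)))))))))))))) N))))))))))))) (K a194 (M a195 (F (L l309 (T t43 (L l296 (L l515 (T t4396 (L l294 (L l296 (L l516 (T t4952 (L l293 (L l296 (L l515 (T t4953 N))))))))))))))) (K a195 (M a194 (F (T t522 (L l295 (L l515 (T t4954 (L l296 (L l515 (T t4955 (K a20 (M a58 (F (L l11 (L l14 (T t4956 (L l236 (L l350 (L l515 (T t4957 N))))))))) (K a61 (M a48 (L l515 (F (T t610 (L l334 (L l338 (T t489 (T t65 (K a149 (M a105 (F (T t132 (L l235 (L l295 (T t4938 N)))))) (K a105 (M a149 (F (T t1308 (L l233 (L l236 (L l293 (L l296 (T t6 N)))))))) N)))))))))) (K a42 (M a58 (F (L l334 (L l338 (T t2374 (L l236 (L l515 (T t4957 N)))))))) (K a62 (M a16 (F (T t2447 (L l66 (L l337 (L l339 (T t97 (L l66 (T t1141 N))))))))) N))))))))))))) N)))))))))))))))))))))))))⟩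
def e0_63__193_117 : Ent 4 := ⟨[a0, a63], [a193, a194], (M a192 (F (L l515 (T t21 (L l516 (T t202 (L l294 (L l515 (T t35 (L l293 (L l516 (T t37 (K a64 (M a48 (F (T t2 (L l234 (L l515 (T t20 (L l116 (L l144 (L l293 (L l516 (T t31 N))))))))))) (K a128 (M a48 (F (T t2 (L l220 (L l234 (L l515 (T t20 (L l293 (L l516 (T t31 N)))))))))) (K a21 (M a48 (F (T t837 (L l47 (L l234 (L l347 (L l515 (T t20 (L l47 (L l234 (L l347 (L l515 (T t29 N))))))))))))) (K a85 (M a16 (F (T t97 (T t210 (L l94 (L l144 (L l516 (T t211 N)))))))) (K a149 (M a60 (L l515 (F (T t1333 (L l347 (T t67 (L l163 (L l220 (L l347 (T t4958 (L l305 (L l351 (L l516 (T t2660 (K a105 (Fr a61 a62 l33 (V t4959)) (K a61 (M a105 (F (L l163 (L l516 (T t4960 (L l305 (T t2712 (L l351 (T t72 N))))))))) N)))))))))))))))) (K a42 (M a48 (F (T t19 (L l234 (L l515 (T t20 (L l28 (L l234 (L l515 (T t29 N)))))))))) (K a106 (M a60 (L l516 (F (T t77 (L l390 (T t43 (L l306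 (L l393 (L l515 (T t2664 (L l98 (L l144 (L l390 (T t4961 (K a150 (Fr a62 a61 l33 (V t4962)) (K a62 (M a150 (F (L l98 (L l515 (T t4963 (L l390 (L l432 (T t1434 (L l393 (T t79 N)))))))))) N)))))))))))))))) (K a170 (M a32 (F (T t219 (T t218 (L l180 (L l220 (L l515 (T t220 N)))))))) (K a255 (M a16 (F (T t112 (L l266 (T t210 (L l516 (T t211 N))))))) N)))))))))))))))))))))⟩
def e0_63__193_118 : Ent 4 := ⟨[a0, a63], [a193, a195], (M a192 (F (T t1800 (L l295 (L l515 (T t21 (L l295 (L l515 (T t35 (L l295 (T t202 (L l293 (L l295 (T t37 (K a64 (M a48 (F (T t610 (L l235 (L l515 (T t20 (L l116 (L l144 (L l293 (T t31 N)))))))))) (K a128 (M a48 (F (T t48 (L l220 (L l235 (L l515 (T t20 (L l293 (T t31 N))))))))) (K a21 (M a48 (F (T t54 (L l273 (T t27 (L l47 (L l347 (L l515 (T t29 N))))))))) (K a85 (M a16 (F (T t504 (L l273 (T t210 (L l94 (L l144 (T t211 N)))))))) (K a149 (M a60 (L l515 (F (T t2658 (L l307 (L l347 (T t67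 (L l163 (L l220 (L l297 (L l307 (L l347 (T t4958 (L l297 (L l305 (L l351 (T t2660 (K a105 (Fr a61 a62 l33 (V t4959)) (K a61 (M a105 (F (T t2658 (L l65 (L l295 (L l347 (T t4964 (L l163 (L l220 (L l305 (T t4965 N))))))))))) N))))))))))))))))))) (K a42 (M a48 (F (T t36 (L l235 (L l515 (T t20 (L l28 (L l515 (T t29 N))))))))) (K a106 (M a48 (F (T t48 (L l273 (T t27 (L l337 (L l411 (T t213 (L l104 (L l144 (L l337 (L l390 (L l498 (T t214 N)))))))))))))) (K a170 (M a32 (F (T t612 (L l273 (T t218 (L l180 (L l220 (L l515 (T t220 N))))))))) (K a255 (M a16 (L l295 (F (T t112 (L l266 (L l273 (T t210 (T t211 (K a215 (M a235 (F (T t112 (L l266 (L l273 (T t210 (T t211 N))))))) (K a235 (M a215 (F (T t112 (L l266 (L l273 (T t210 (T t211 N))))))) N)))))))))) N)))))))))))))))))))))))⟩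
def e0_63__193_119 : Ent 4 := ⟨[a0, a63], [a193, a196], (M a48 (F (T t1 (T t2 (T t3 (T t0 (K a16 (M a60 (F (T t43 (L l515 (T t64 (T t65 N)))))) (K a32 (M a60 (F (T t67 (L l515 (T t64 (L l24 (L l28 (T t65 N)))))))) (K a21 (M a192 (F (T t837 (L l47 (L l347 (L l495 (L l515 (T t20 (L l47 (L l347 (L l495 (L l515 (T t29 N))))))))))))) (K a37 (M a192 (F (T t19 (L l47 (L l495 (L l515 (T t20 (L l495 (L l515 (T t21 N)))))))))) (K a53 (M a192 (F (T t19 (L l491 (L l495 (L l515 (T t21 (L l278 (L l293 (T t31 N)))))))))) (K a26 (M a192 (F (T t837 (L l495 (L l515 (T t20 (L l495 (L l515 (T t21 N))))))))) (K a42 (M a192 (F (T t19 (L l495 (L l515 (T t20 (L l28 (L l495 (L l515 (T t29 N)))))))))) (K a58 (M a192 (F (T t19 (L l495 (L l515 (T t21 (L l54 (L l278 (L l293 (L l498 (T t31 N))))))))))) (K a15 (M a149 (F (T t1274 (L l229 (L l233 (L l278 (L l293 (T t6 N)))))))) N)))))))))))))))⟩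
def e0_63__193_120 : Ent 4 := ⟨[a0, a63], [a193, a197], (M a60 (L l233 (F (T t67 (T t43 (L l515 (T t68 (L l305 (T t69 (K a20 (M a51 (L l233 (F (T t1294 (L l515 (T t3965 (L l11 (T t1357 (K a201 (M a205 (F (T t1294 (T t4966 N)))) (K a205 (M a201 (F (T t4967 (T t1294 (L l11 (T t1357 N)))))) N)))))))))) (K a40 (M a51 (L l233 (F (T t589 (T t1356 (T t1357 (K a201 (M a205 (F (T t589 (T t4966 N)))) (K a205 (M a201 (F (T t589 (L l485 (L l509 (T t3961 (T t1357 N))))))) N)))))))) (K a21 (M a192 (L l233 (F (T t72 (L l347 (L l491 (L l515 (T t73 (L l347 (L l491 (L l515 (T t74 (K a201 (M a205 (F (T t1333 (L l237 (L l347 (L l491 (L l515 (T t73 (L l347 (L l491 (L l515 (T t74 N)))))))))))) (K a205 (M a201 (F (T t1333 (L l347 (L l491 (L l515 (T t73 (L l347 (L l491 (L l515 (T t74 N))))))))))) N)))))))))))))) (K a41 (M a48 (L l233 (F (T t489 (L l65 (L l491 (T t1 (L l65 (L l491 (L l515 (T t64 (K a201 (M a205 (F (T t489 (T t4968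 N)))) (K a205 (M a201 (F (T t489 (L l57 (T t451 (L l22 (L l311 (T t2 N)))))))) N))))))))))))) (K a61 (M a149 (L l233 (F (T t177 (T t463 (L l275 (L l293 (T t1130 (K a201 (M a205 (F (T t177 (T t463 (L l275 (L l293 (T t1130 N))))))) (K a205 (M a201 (L l503 (F (T t177 (T t463 (L l275 (L l293 (T t1130 (K a157 (M a109 (F (T t463 (L l35 (L l165 (L l509 (T t4969 (L l275 (L l293 (T t1130 N)))))))))) (K a109 (M a157 (F (T t177 (L l35 (L l99 (L l229 (T t4970 N))))))) N)))))))))) N)))))))))) (K a22 (M a170 (L l233 (F (T t2689 (L l66 (L l275 (L l293 (T t456 (L l11 (L l228 (L l515 (T t1123 (K a201 (M a205 (F (T t2689 (L l66 (L l317 (T t4971 N)))))) (K a205 (M a201 (F (T t1570 (L l11 (T t4972 N))))) N)))))))))))))) (K a42 (M a192 (L l233 (F (T t79 (L l491 (L l515 (T t73 (L l22 (L l491 (L l515 (T t74 (K a201 (M a205 (F (T t1333 (L l237 (L l491 (L l515 (T t73 (L l22 (L l491 (L l515 (T t74 N))))))))))) (K a205 (M a201 (F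 (T t1333 (L l491 (L l515 (T t73 (L l22 (L l491 (L l515 (T t74 N)))))))))) N))))))))))))) (K a62 (M a170 (L l233 (F (T t2691 (T t2190 (T t458 (K a201 (M a205 (F (T t2691 (L l66 (L l275 (L l293 (T t456 (T t458 N)))))))) (K a205 (M a201 (F (T t2190 (T t4972 N)))) N)))))))) (K a3 (M a170 (L l233 (F (T t1456 (L l475 (T t2190 (T t458 (K a201 (M a205 (F (T t1456 (L l317 (L l333 (T t4971 N)))))) (K a205 (M a201 (F (T t874 (T t4972 N)))) N))))))))) (K a201 (M a205 (F (T t67 (L l317 (T t4971 (L l317 (T t4973 (K a21 (M a48 (F (T t248 (T t4968 N)))) (K a41 (M a48 (F (T t489 (T t4968 N)))) (K a61 (M a149 (F (T t177 (T t463 (L l275 (L l293 (T t1130 N))))))) (K a62 (M a192 (F (T t1333 (L l491 (L l515 (T t35 (L l491 (L l515 (T t2549 N))))))))) N))))))))))) (K a205 (M a201 (F (T t67 (T t43 (L l503 (L l515 (T t68 (L l305 (L l329 (T t69 (K a20 (M a48 (F (T t451 (L l311 (T t2 (L l11 (L l503 (L l515 (T t235 N))))))))) (K a40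 (M a48 (F (T t3 (L l52 (T t451 (L l52 (L l503 (L l515 (T t235 N))))))))) (K a21 (M a204 (F (L l236 (L l503 (T t3967 (L l229 (T t4974 N))))))) (K a41 (M a204 (F (L l236 (L l503 (T t3967 (L l53 (L l229 (T t4974 N)))))))) (K a61 (M a149 (L l503 (F (T t177 (T t463 (L l275 (L l293 (T t1130 (K a157 (M a109 (F (T t463 (L l35 (L l165 (L l509 (T t4969 (L l275 (L l293 (T t1130 N)))))))))) (K a109 (M a157 (F (T t177 (L l35 (L l99 (L l229 (T t4970 N))))))) N)))))))))) (K a22 (M a204 (F (L l236 (L l503 (T t3967 (L l229 (L l348 (T t4974 N)))))))) (K a42 (M a204 (F (L l236 (L l503 (T t3967 (L l229 (T t4974 N))))))) (K a62 (M a57 (F (L l509 (T t4975 (L l36 (L l66 (T t4976 N))))))) (K a3 (M a204 (F (L l236 (L l331 (L l503 (T t3967 (L l229 (T t4974 N)))))))) N))))))))))))))))))) N))))))))))))))))))))⟩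
def e0_63__193_121 : Ent 4 := ⟨[a0, a63], [a193, a198], (M a85 (F (T t52 (L l228 (L l293 (T t88 (L l293 (T t89 (L l228 (T t90 (K a64 (M a16 (F (T t97 (L l84 (T t96 (L l116 (L l293 (T t98 N)))))))) (K a192 (M a195 (F (T t4874 (L l309 (T t2035 (L l293 (L l296 (T t894 (L l305 (L l492 (T t2036 N))))))))))) (K a21 (M a48 (F (T t99 (T t50 (L l47 (L l234 (T t100 N))))))) (K a149 (M a61 (F (L l305 (T t505 (L l220 (L l293 (T t506 (L l217 (T t2037 N))))))))) (K a213 (Fr a170 a255 l476 (Fr a42 a21 l68 (Fr a106 a234 l390 (Fr a192 a149 l519 (V t581))))) (K a42 (M a48 (F (T t364 (L l390 (T t50 (L l28 (L l234 (T t100 N)))))))) (K a106 (M a48 (F (T t1 (L l104 (T t509 (L l390 (T t50 N))))))) (K a170 (M a16 (F (L l390 (L l404 (T t97 (L l293 (L l390 (T t98 (L l234 (L l404 (T t113 (L l229 (L l233 (L l404 (T t174 N))))))))))))))) (K a255 (M a16 (F (T t112 (L l234 (L l289 (T t113 (L l289 (L l293 (L l296 (T t98 N)))))))))) N)))))))))))))))))))⟩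
def e0_63__193_122 : Ent 4 := ⟨[a0, a63], [a193, a199], (M a85 (F (T t52 (L l228 (L l293 (T t88 (L l293 (T t89 (L l228 (T t90 (K a64 (M a60 (F (T t114 (L l277 (L l293 (T t115 N)))))) (K a192 (M a195 (F (T t4855 (L l277 (L l309 (L l493 (T t2035 (L l293 (L l296 (T t894 (L l305 (L l494 (T t2036 N))))))))))))) (K a21 (M a48 (F (T t99 (T t50 (L l47 (T t100 N)))))) (K a149 (M a61 (F (L l305 (T t505 (L l220 (L l293 (T t506 (L l217 (T t2037 N))))))))) (K a213 (Fr a170 a255 l476 (Fr a42 a21 l68 (Fr a106 a234 l390 (Fr a192 a149 l519 (V t581))))) (K a42 (M a48 (F (T t364 (L l390 (T t50 (L l28 (T t100 N))))))) (K a106 (M a48 (F (T t1 (L l104 (L l314 (L l494 (T t509 (L l390 (T t50 N))))))))) (K a170 (M a16 (F (L l404 (T t113 (L l293 (L l390 (T t98 (L l390 (L l404 (T t97 (L l229 (L l233 (L l235 (L l404 (T t174 N))))))))))))))) (K a255 (M a16 (F (T t112 (L l289 (T t113 (L l289 (L l293 (L l296 (T t98 N))))))))) N)))))))))))))))))))⟩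
def e0_63__193_123 : Ent 4 := ⟨[a0, a63], [a193, a200], (M a48 (F (T t1 (T t2 (T t3 (T t0 (K a16 (M a60 (F (T t43 (L l515 (T t64 (T t65 N)))))) (K a32 (M a60 (F (T t67 (L l515 (T t64 (L l24 (L l28 (T t65 N)))))))) (K a21 (M a192 (F (T t837 (L l47 (L l230 (L l347 (L l515 (T t20 (L l47 (L l230 (L l347 (L l515 (T t29 N))))))))))))) (K a37 (M a192 (F (T t19 (L l47 (L l230 (L l515 (T t20 (L l515 (T t21 N))))))))) (K a53 (M a192 (F (T t19 (L l491 (L l515 (T t21 (L l293 (L l501 (T t31 N))))))))) (K a26 (M a192 (F (T t837 (L l230 (L l515 (T t20 (L l515 (T t21 N)))))))) (K a42 (M a192 (F (T t19 (L l230 (L l515 (T t20 (L l28 (L l230 (L l515 (T t29 N)))))))))) (K a58 (M a192 (F (T t19 (L l515 (T t21 (L l54 (L l293 (L l498 (L l501 (T t31 N)))))))))) (K a15 (M a192 (F (T t1922 (L l230 (L l325 (L l515 (T t20 (L l469 (L l515 (T t21 N)))))))))) N)))))))))))))))⟩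
def e0_63__193_124 : Ent 4 := ⟨[a0, a63], [a193, a201], (M a48 (L l233 (F (T t1 (T t2 (T t3 (T t0 (K a16 (M a61 (L l233 (F (T t529 (L l485 (T t262 (L l10 (L l497 (T t530 (K a197 (M a205 (F (T t531 (L l317 (T t4977 N))))) (K a205 (M a197 (F (T t531 (L l305 (L l329 (T t505 (L l335 (T t4978 N)))))))) N))))))))))) (K a32 (M a61 (L l233 (F (T t531 (L l28 (L l305 (T t505 (L l28 (L l497 (T t530 (K a197 (M a205 (F (T t531 (L l28 (L l317 (T t4977 N)))))) (K a205 (M a197 (F (T t531 (L l28 (L l305 (L l329 (T t505 (L l28 (T t4979 N))))))))) N)))))))))))) (K a21 (M a192 (L l233 (F (T t22 (T t27 (L l47 (L l230 (L l347 (L l515 (T t29 (K a197 (M a205 (F (T t28 (L l347 (L l491 (L l515 (T t225 (L l347 (L l491 (L l515 (T t861 N))))))))))) (K a205 (M a197 (F (T t4980 (T t28 N)))) N)))))))))))) (K a37 (M a101 (L l233 (F (T t334 (L l47 (L l230 (T t333 (L l47 (T t4981 (K a197 (M a205 (F (T t335 (L l497 (L l515 (T t4982 N))))))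 (K a205 (M a197 (F (T t4983 (L l28 (L l231 (T t312 N)))))) N))))))))))) (K a53 (M a149 (L l233 (F (T t177 (T t13 (L l293 (T t26 (K a197 (M a205 (F (T t177 (T t13 (L l275 (L l293 (T t26 N))))))) (K a205 (M a197 (F (T t4984 (L l228 (L l293 (T t5 (L l293 (T t26 N)))))))) N))))))))) (K a26 (M a60 (L l233 (F (T t489 (L l54 (T t43 (L l72 (L l515 (T t64 (K a197 (M a205 (F (T t248 (L l54 (T t4985 N))))) (K a205 (M a197 (F (T t489 (L l54 (L l335 (L l354 (L l515 (T t4986 N)))))))) N))))))))))) (K a42 (M a192 (L l233 (F (T t19 (L l230 (L l515 (T t20 (L l28 (L l230 (L l515 (T t29 (K a197 (M a205 (F (T t837 (L l491 (L l515 (T t225 (L l28 (L l491 (L l515 (T t861 N)))))))))) (K a205 (M a197 (F (L l390 (T t4980 (L l230 (T t4987 N)))))) N))))))))))))) (K a58 (M a192 (L l233 (F (T t19 (L l515 (T t21 (L l54 (L l293 (L l498 (T t31 (K a197 (M a205 (F (T t28 (L l491 (L l515 (T t35 (L l491 (L l515 (T t525 N))))))))) (K a205 (M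 a197 (F (L l498 (T t4988 (T t28 N))))) N)))))))))))) (K a15 (M a60 (L l233 (F (T t277 (L l7 (T t67 (L l3 (T t247 (K a197 (M a205 (F (T t3235 (T t4985 N)))) (K a205 (M a197 (F (T t3235 (L l515 (T t4979 N))))) N)))))))))) (K a197 (M a205 (F (T t3 (L l491 (T t1 (L l311 (T t2 (T t0 (K a16 (M a204 (F (T t4989 (L l497 (T t4990 N))))) (K a32 (M a204 (F (T t4991 (L l28 (L l311 (T t4992 N)))))) (K a21 (M a204 (F (T t1317 (L l65 (L l515 (T t1316 N)))))) (K a37 (M a204 (F (T t1315 (L l515 (T t1316 N))))) (K a53 (M a101 (F (T t1305 (L l47 (L l515 (T t4993 N)))))) (K a26 (M a204 (F (T t1317 (L l515 (T t1316 N))))) (K a42 (M a204 (F (T t1315 (L l515 (T t1316 N))))) (K a58 (M a204 (F (T t1315 (L l515 (T t1316 N))))) (K a15 (M a204 (F (T t4994 (L l63 (L l515 (T t1316 N)))))) N))))))))))))))))) (K a205 (M a197 (F (T t1 (L l515 (T t4995 (L l515 (T t4979 (K a53 (M a192 (F (T t4996 (L l47 (L l230 (T t4987 (L l47 (L l515 (T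 t35 N))))))))) (K a58 (M a192 (F (L l498 (T t4988 (T t28 N))))) N))))))))) N))))))))))))))))))⟩
def e0_63__193_125 : Ent 4 := ⟨[a0, a63], [a193, a202], (M a48 (F (T t3 (L l318 (T t1 (L l498 (T t2 (T t0 (K a16 (M a60 (F (T t43 (L l515 (T t64 (L l498 (T t65 N))))))) (K a32 (M a60 (F (T t67 (L l515 (T t64 (L l24 (L l28 (L l498 (T t65 N))))))))) (K a21 (M a192 (F (T t27 (L l498 (T t22 (L l18 (L l498 (T t46 N)))))))) (K a37 (M a192 (F (T t19 (L l498 (T t22 (L l515 (T t21 N))))))) (K a53 (M a192 (F (T t19 (L l491 (L l515 (T t21 (L l293 (L l498 (T t31 N))))))))) (K a26 (M a192 (F (T t837 (L l498 (T t22 (L l515 (T t21 N))))))) (K a42 (M a192 (F (T t27 (L l390 (L l498 (T t22 (L l390 (L l498 (T t46 N))))))))) (K a58 (M a106 (F (L l282 (T t310 (L l515 (T t551 (L l282 (T t599 N)))))))) (K a15 (M a192 (F (T t1922 (L l325 (L l498 (T t22 (L l469 (L l515 (T t21 N))))))))) N)))))))))))))))))⟩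
def e0_63__193_126 : Ent 4 := ⟨[a0, a63], [a193, a203], (M a85 (F (T t52 (L l228 (L l293 (T t88 (L l293 (T t89 (L l228 (T t90 (K a64 (M a12 (F (T t124 (L l293 (L l320 (T t572 N)))))) (K a192 (M a195 (F (T t883 (L l309 (T t2035 (L l293 (L l296 (L l499 (T t894 (L l305 (T t2036 N))))))))))) (K a21 (M a48 (F (T t99 (T t50 (L l47 (L l230 (T t100 N))))))) (K a149 (M a61 (F (L l305 (T t505 (L l220 (L l293 (T t506 (L l217 (T t2037 N))))))))) (K a213 (Fr a170 a255 l476 (Fr a42 a21 l68 (Fr a106 a234 l390 (Fr a192 a149 l519 (V t581))))) (K a42 (M a48 (F (T t364 (L l390 (T t50 (L l28 (L l230 (T t100 N)))))))) (K a106 (M a48 (F (T t1 (L l104 (T t509 (L l390 (T t50 N))))))) (K a170 (M a16 (F (L l390 (L l404 (T t97 (L l293 (L l390 (T t98 (L l230 (L l404 (T t113 (L l233 (L l235 (L l404 (T t174 N))))))))))))))) (K a255 (M a16 (F (T t112 (L l230 (L l289 (T t113 (L l289 (L l293 (L l296 (T t98 N)))))))))) N)))))))))))))))))))⟩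
def e0_63__193_127 : Ent 4 := ⟨[a0, a63], [a193, a204], (M a48 (F (T t48 (L l327 (T t1 (L l327 (T t2 (L l327 (T t3 (L l327 (T t0 (K a16 (M a60 (F (T t277 (L l14 (L l18 (L l333 (T t67 (T t65 N)))))))) (K a32 (M a60 (F (T t277 (L l333 (T t67 (L l24 (L l28 (T t65 N)))))))) (K a21 (M a192 (F (T t54 (L l298 (T t27 (L l47 (L l347 (L l515 (T t29 N))))))))) (K a37 (M a192 (F (T t54 (L l298 (T t27 (L l290 (L l515 (T t21 N)))))))) (K a53 (M a192 (F (T t55 (L l290 (L l491 (L l515 (T t21 (L l293 (T t31 N))))))))) (K a26 (M a192 (F (T t1922 (L l231 (L l515 (T t20 (L l290 (L l515 (T t21 N))))))))) (K a42 (M a192 (F (T t36 (L l231 (L l515 (T t20 (L l28 (L l515 (T t29 N))))))))) (K a58 (M a192 (F (T t1922 (L l290 (L l515 (T t21 (L l54 (L l293 (L l498 (T t31 N)))))))))) (K a15 (M a149 (L l327 (F (T t1274 (L l233 (L l293 (T t6 (K a141 (M a78 (F (T t1274 (L l233 (L l293 (T t6 N)))))) (K a78 (M a141 (F (T t1274 (L l233 (L l293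 (T t6 N)))))) N))))))))) N))))))))))))))))))))⟩
def e0_63__193_128 : Ent 4 := ⟨[a0, a63], [a193, a205], (M a48 (L l233 (F (T t1 (T t2 (T t3 (T t0 (K a16 (M a60 (L l233 (F (T t43 (L l503 (L l515 (T t64 (T t65 (K a197 (M a201 (F (T t451 (L l305 (L l329 (T t69 (L l14 (L l18 (L l491 (T t44 N)))))))))) (K a201 (M a197 (F (T t451 (L l305 (L l329 (T t69 (L l14 (L l18 (T t44 N))))))))) N)))))))))) (K a32 (M a192 (L l233 (F (T t202 (L l231 (L l515 (T t20 (L l28 (L l376 (T t214 (K a197 (M a201 (F (T t202 (L l231 (L l491 (L l515 (T t225 (L l28 (L l311 (L l376 (T t214 N))))))))))) (K a201 (M a197 (F (T t4980 (L l230 (T t4987 N))))) N)))))))))))) (K a21 (M a192 (L l233 (F (T t27 (L l47 (L l231 (L l347 (L l515 (T t20 (L l47 (L l347 (L l515 (T t29 (K a197 (M a201 (F (T t28 (L l231 (L l347 (L l491 (L l515 (T t225 (L l347 (L l491 (L l515 (T t861 N)))))))))))) (K a201 (M a197 (F (T t4980 (T t28 N)))) N))))))))))))))) (K a37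 (M a192 (L l233 (F (T t19 (L l47 (L l231 (L l515 (T t20 (L l515 (T t21 (K a197 (M a201 (F (T t837 (L l47 (L l491 (L l515 (T t35 (L l231 (L l491 (L l515 (T t225 N))))))))))) (K a201 (M a197 (F (T t4980 (L l28 (T t28 N))))) N)))))))))))) (K a53 (M a149 (L l233 (F (T t177 (T t13 (L l293 (T t26 (K a197 (M a201 (F (T t177 (T t13 (L l275 (L l293 (T t26 N))))))) (K a201 (M a197 (F (T t4984 (L l228 (L l293 (T t5 (L l293 (T t26 N)))))))) N))))))))) (K a26 (M a192 (L l233 (F (T t837 (L l231 (L l515 (T t20 (L l515 (T t21 (K a197 (M a201 (F (T t28 (L l231 (L l491 (L l515 (T t225 (L l18 (L l491 (L l515 (T t35 N))))))))))) (K a201 (M a197 (F (T t4980 (L l230 (T t4987 N))))) N))))))))))) (K a42 (M a192 (L l233 (F (T t19 (L l231 (L l515 (T t20 (L l28 (L l515 (T t29 (K a197 (M a201 (F (T t837 (L l231 (L l491 (L l515 (T t225 (L l28 (L l491 (L l515 (T t861 N))))))))))) (K a201 (M a197 (F (L l390 (T t4980 (L l230 (T t4987 N))))))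 N)))))))))))) (K a58 (M a192 (L l233 (F (T t19 (L l515 (T t21 (L l54 (L l293 (L l498 (T t31 (K a197 (M a201 (F (T t28 (L l491 (L l515 (T t35 (L l491 (L l515 (T t525 N))))))))) (K a201 (M a197 (F (L l498 (T t4988 (T t28 N))))) N)))))))))))) (K a15 (M a192 (L l233 (F (T t54 (L l483 (T t27 (L l469 (L l515 (T t21 (K a197 (M a201 (F (T t1922 (L l469 (L l491 (L l515 (T t35 (L l231 (L l325 (L l491 (L l515 (T t225 N)))))))))))) (K a201 (M a197 (F (T t4980 (L l483 (T t28 N))))) N))))))))))) (K a197 (M a201 (F (T t3 (L l491 (T t1 (L l311 (T t2 (T t0 (K a16 (M a60 (F (T t451 (L l305 (L l329 (T t69 (L l14 (L l18 (L l491 (T t44 N)))))))))) (K a32 (M a60 (F (T t451 (L l28 (L l305 (L l329 (T t69 (L l491 (T t44 N))))))))) (K a21 (M a192 (F (T t28 (L l231 (L l347 (L l491 (L l515 (T t225 (L l347 (L l491 (L l515 (T t861 N)))))))))))) (K a37 (M a192 (F (T t837 (L l47 (L l491 (L l515 (T t35 (L l231 (L l491 (L l515 (T t225 N)))))))))))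 (K a53 (M a149 (F (T t177 (T t13 (L l275 (L l293 (T t26 N))))))) (K a26 (M a192 (F (T t28 (L l231 (L l491 (L l515 (T t225 (L l18 (L l491 (L l515 (T t35 N))))))))))) (K a42 (M a192 (F (T t837 (L l231 (L l491 (L l515 (T t225 (L l28 (L l491 (L l515 (T t861 N))))))))))) (K a58 (M a192 (F (T t28 (L l491 (L l515 (T t35 (L l491 (L l515 (T t525 N))))))))) (K a15 (M a192 (F (T t1922 (L l469 (L l491 (L l515 (T t35 (L l231 (L l325 (L l491 (L l515 (T t225 N)))))))))))) N))))))))))))))))) (K a201 (M a197 (F (T t1 (L l515 (T t4995 (L l515 (T t4979 (K a53 (M a192 (F (T t4996 (L l47 (L l230 (T t4987 (L l47 (L l515 (T t35 N))))))))) (K a58 (M a192 (F (L l498 (T t4988 (T t28 N))))) N))))))))) N))))))))))))))))))⟩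
def e0_63__193_129 : Ent 4 := ⟨[a0, a63], [a193, a206], (M a48 (F (T t1 (T t2 (T t3 (T t0 (K a16 (M a60 (F (T t43 (L l510 (L l515 (T t64 (T t65 N))))))) (K a32 (M a60 (F (T t42 (T t67 (L l24 (L l28 (T t65 N))))))) (K a21 (M a192 (F (T t837 (L l47 (L l231 (L l234 (L l347 (L l515 (T t20 (L l47 (L l234 (L l347 (L l515 (T t29 N)))))))))))))) (K a37 (M a192 (F (T t19 (L l47 (L l231 (L l234 (L l515 (T t20 (L l515 (T t21 N)))))))))) (K a53 (M a192 (F (T t19 (L l491 (L l515 (T t21 (L l293 (T t31 N)))))))) (K a26 (M a192 (F (T t202 (T t27 (L l231 (L l234 (L l515 (T t20 N)))))))) (K a42 (M a192 (F (T t19 (L l231 (L l234 (L l515 (T t20 (L l28 (L l234 (L l515 (T t29 N))))))))))) (K a58 (M a192 (F (T t19 (L l515 (T t21 (L l54 (L l293 (L l498 (T t31 N))))))))) (K a15 (M a149 (F (T t1274 (L l233 (L l293 (T t6 N)))))) N)))))))))))))))⟩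
def e0_63__193_130 : Ent 4 := ⟨[a0, a63], [a193, a207], (M a12 (F (T t150 (L l511 (T t122 (L l511 (T t151 (L l511 (T t152 (L l511 (T t153 (K a4 (M a60 (F (T t835 (L l46 (L l50 (L l331 (T t67 (T t448 N)))))))) (K a8 (M a60 (F (T t835 (L l331 (T t67 (L l52 (L l56 (T t448 N)))))))) (K a21 (M a192 (F (T t158 (L l231 (T t156 (L l15 (L l347 (L l515 (T t157 N))))))))) (K a25 (M a192 (F (T t158 (L l231 (T t156 (L l289 (L l515 (T t21 N)))))))) (K a29 (M a192 (F (T t159 (L l289 (L l371 (L l515 (T t21 (L l293 (T t160 N))))))))) (K a38 (M a192 (F (T t1725 (L l301 (L l515 (T t450 (L l289 (L l515 (T t21 N))))))))) (K a42 (M a192 (F (T t496 (L l301 (L l515 (T t450 (L l56 (L l515 (T t157 N))))))))) (K a46 (M a192 (F (T t1725 (L l289 (L l515 (T t21 (L l26 (L l293 (L l408 (T t160 N)))))))))) (K a51 (M a149 (L l511 (F (T t4854 (L l228 (L l236 (L l489 (T t991 (L l269 (T t649 (K a103 (M a155 (F (T t4374 (L l269 (L l293 (T t960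 N)))))) (K a155 (M a103 (F (T t4374 (L l269 (L l293 (T t960 N)))))) N)))))))))))) N))))))))))))))))))))⟩
def e0_63__193_131 : Ent 4 := ⟨[a0, a63], [a193, a212], (M a48 (F (T t1 (T t2 (T t3 (T t0 (K a16 (M a60 (F (T t42 (L l14 (L l18 (L l346 (T t67 (L l351 (T t65 N))))))))) (K a32 (M a60 (F (T t42 (L l346 (T t67 (L l24 (L l28 (L l351 (T t65 N))))))))) (K a21 (M a192 (F (T t837 (L l47 (L l347 (L l351 (L l515 (T t20 (L l47 (L l347 (L l351 (L l515 (T t29 N))))))))))))) (K a37 (M a192 (F (T t19 (L l47 (L l351 (L l515 (T t20 (L l351 (L l515 (T t21 N)))))))))) (K a53 (M a192 (F (T t19 (L l351 (L l491 (L l515 (T t21 (L l239 (L l293 (T t31 N)))))))))) (K a26 (M a192 (F (T t837 (L l351 (L l515 (T t20 (L l351 (L l515 (T t21 N))))))))) (K a42 (M a192 (F (T t19 (L l351 (L l515 (T t20 (L l28 (L l351 (L l515 (T t29 N)))))))))) (K a58 (M a192 (F (T t19 (L l351 (L l515 (T t21 (L l54 (L l239 (L l293 (L l498 (T t31 N)))))))))))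 (K a15 (M a192 (F (T t1800 (L l483 (T t27 (L l325 (L l351 (L l515 (T t20 N))))))))) N)))))))))))))))⟩
def e0_63__193_132 : Ent 4 := ⟨[a0, a63], [a193, a213], (M a48 (L l293 (F (T t2 (L l347 (T t1 (L l347 (T t3 (T t0 (K a16 (M a61 (L l293 (F (T t529 (L l485 (T t262 (L l10 (T t530 (K a233 (M a253 (F (T t529 (L l269 (L l275 (T t4997 N)))))) (K a253 (M a233 (F (T t529 (L l437 (L l485 (T t262 (L l10 (T t530 N)))))))) N)))))))))) (K a32 (M a61 (L l293 (F (T t531 (L l28 (L l305 (T t505 (L l28 (T t530 (K a233 (M a253 (F (T t531 (L l28 (L l347 (L l389 (T t4998 N))))))) (K a253 (M a233 (F (T t531 (L l28 (L l305 (L l473 (T t505 (L l28 (T t530 N))))))))) N))))))))))) (K a21 (M a85 (L l293 (F (T t873 (L l47 (L l246 (T t100 (T t50 (K a233 (M a253 (F (T t4999 (L l47 (L l246 (T t100 N)))))) (K a253 (M a233 (F (T t873 (L l47 (L l246 (T t100 (L l437 (T t50 N)))))))) N)))))))))) (K a37 (M a60 (L l293 (F (T t451 (L l28 (T t43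 (T t247 (K a233 (M a253 (F (T t247 (T t5000 N)))) (K a253 (M a233 (F (T t880 (T t451 (L l28 (L l305 (L l473 (T t69 N)))))))) N))))))))) (K a53 (M a60 (L l293 (F (T t43 (T t247 (L l35 (L l47 (L l347 (L l515 (T t235 (K a233 (M a253 (F (T t248 (T t5001 N)))) (K a253 (M a233 (F (T t880 (L l305 (L l473 (T t69 (L l35 (L l47 (L l347 (L l431 (L l515 (T t235 N)))))))))))) N)))))))))))) (K a26 (M a60 (L l293 (F (T t489 (L l54 (T t43 (L l72 (L l515 (T t64 (K a233 (M a253 (F (T t248 (T t5000 N)))) (K a253 (M a233 (F (T t248 (L l54 (L l57 (T t451 (L l54 (L l305 (L l473 (T t69 N)))))))))) N))))))))))) (K a42 (M a154 (L l293 (F (T t493 (T t806 (L l28 (L l246 (T t527 (K a233 (M a253 (F (T t493 (L l28 (L l246 (L l305 (T t5002 N))))))) (K a253 (M a233 (F (T t493 (L l28 (L l246 (T t1998 (L l28 (L l246 (T t2000 N))))))))) N)))))))))) (K a58 (M a60 (L l293 (F (T t248 (L l347 (T t67 (L l32 (L l347 (L l515 (T t235 (K a233 (M a253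 (F (T t248 (L l36 (L l54 (T t5001 N)))))) (K a253 (M a233 (F (T t880 (L l36 (L l54 (L l305 (L l473 (T t69 (L l32 (L l347 (L l431 (L l515 (T t235 N))))))))))))) N)))))))))))) (K a15 (M a60 (L l293 (F (T t1308 (L l7 (L l347 (T t67 (L l73 (L l515 (T t64 (K a233 (M a253 (F (T t1308 (T t5000 N)))) (K a253 (M a233 (F (T t522 (L l3 (T t489 (L l73 (T t451 N))))))) N)))))))))))) (K a233 (M a253 (F (T t2 (L l347 (T t1 (L l347 (T t3 (T t0 (K a16 (M a252 (F (T t5003 (L l347 (L l368 (L l389 (T t5004 N))))))) (K a32 (M a252 (F (T t5003 (L l28 (L l347 (L l389 (T t5004 N))))))) (K a21 (M a85 (F (T t4999 (L l47 (L l246 (T t100 N)))))) (K a37 (M a60 (F (T t247 (T t5000 N)))) (K a53 (M a60 (F (T t248 (T t5001 N)))) (K a26 (M a60 (F (T t248 (T t5000 N)))) (K a42 (M a60 (F (T t880 (L l66 (T t5000 N))))) (K a58 (M a60 (F (T t248 (L l36 (L l54 (T t5001 N)))))) (K a15 (M a60 (F (T t1308 (T t5000 N)))) N))))))))))))))))) (K a253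 (M a233 (F (T t2 (L l347 (T t1 (L l347 (T t3 (T t0 (K a16 (M a60 (F (T t42 (L l305 (L l473 (T t69 (L l14 (L l18 (L l347 (T t44 N)))))))))) (K a32 (M a60 (F (T t42 (L l28 (L l305 (L l473 (T t69 (L l347 (T t44 N))))))))) (K a21 (M a85 (F (T t873 (L l47 (L l246 (T t100 (L l437 (T t50 N)))))))) (K a37 (M a192 (F (T t22 (L l28 (L l246 (T t28 (L l261 (L l347 (L l515 (T t21 N)))))))))) (K a53 (M a192 (F (T t837 (L l261 (L l347 (L l491 (L l515 (T t21 (L l347 (L l491 (L l515 (T t575 N)))))))))))) (K a26 (M a192 (F (T t22 (L l246 (T t28 (L l261 (L l347 (L l515 (T t21 N))))))))) (K a42 (M a192 (F (T t837 (L l390 (T t22 (L l28 (L l246 (L l347 (L l515 (T t29 N)))))))))) (K a58 (M a192 (F (T t837 (L l261 (L l347 (L l515 (T t21 (L l347 (L l515 (T t575 N)))))))))) (K a15 (M a192 (F (T t54 (L l246 (L l483 (T t28 (L l261 (L l347 (L l469 (L l515 (T t21 N))))))))))) N))))))))))))))))) N))))))))))))))))))))⟩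
def e0_63__193_133 : Ent 4 := ⟨[a0, a63], [a193, a214], (M a48 (F (T t1 (T t2 (T t3 (T t0 (K a16 (M a60 (F (T t43 (L l515 (T t64 (T t65 N)))))) (K a32 (M a60 (F (T t67 (L l515 (T t64 (L l24 (L l28 (T t65 N)))))))) (K a21 (M a192 (F (T t837 (L l47 (L l347 (L l515 (T t20 (L l47 (L l347 (L l515 (T t29 N))))))))))) (K a37 (M a192 (F (T t19 (L l47 (L l515 (T t20 (L l515 (T t21 N)))))))) (K a53 (M a192 (F (T t19 (L l491 (L l515 (T t21 (L l239 (L l293 (T t31 N))))))))) (K a26 (M a192 (F (T t27 (L l515 (T t20 (L l515 (T t21 N))))))) (K a42 (M a192 (F (T t19 (L l515 (T t20 (L l28 (L l515 (T t29 N)))))))) (K a58 (M a192 (F (T t19 (L l515 (T t21 (L l54 (L l239 (L l293 (L l498 (T t31 N)))))))))) (K a15 (M a149 (F (T t1274 (L l233 (L l239 (L l293 (T t6 N))))))) N)))))))))))))))⟩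
def e0_63__193_134 : Ent 4 := ⟨[a0, a63], [a193, a215], (M a48 (F (T t1 (T t2 (T t3 (T t0 (K a16 (M a60 (F (T t42 (L l14 (L l18 (L l350 (T t67 (L l349 (T t65 N))))))))) (K a32 (M a60 (F (T t42 (L l350 (T t67 (L l24 (L l28 (L l349 (T t65 N))))))))) (K a21 (M a192 (F (T t837 (L l47 (L l347 (L l515 (T t20 (L l47 (L l245 (L l347 (L l515 (T t29 N)))))))))))) (K a37 (M a192 (F (T t19 (L l47 (L l515 (T t20 (L l295 (L l515 (T t21 N))))))))) (K a53 (M a192 (F (T t19 (L l295 (L l491 (L l515 (T t21 (L l239 (L l293 (T t31 N)))))))))) (K a26 (M a192 (F (T t27 (L l515 (T t20 (L l295 (L l515 (T t21 N)))))))) (K a42 (M a192 (F (T t19 (L l515 (T t20 (L l28 (L l245 (L l515 (T t29 N))))))))) (K a58 (M a192 (F (T t19 (L l295 (L l515 (T t21 (L l54 (L l239 (L l293 (L l498 (T t31 N))))))))))) (K a15 (M a192 (F (T t1800 (L l483 (T t27 (L l325 (L l515 (T t20 N)))))))) N)))))))))))))))⟩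
def e0_63__193_135 : Ent 4 := ⟨[a0, a63], [a193, a216], (M a85 (F (T t52 (L l228 (L l293 (T t88 (L l293 (T t89 (L l228 (T t90 (K a64 (M a16 (F (T t97 (L l84 (T t96 (L l116 (L l293 (T t98 N)))))))) (K a192 (M a195 (F (T t883 (L l309 (T t2035 (L l293 (L l296 (T t894 (L l305 (T t2036 N)))))))))) (K a21 (M a48 (F (T t99 (L l298 (T t50 (L l47 (T t100 N))))))) (K a149 (M a61 (F (L l305 (T t505 (L l220 (L l293 (T t506 (L l217 (T t2037 N))))))))) (K a213 (Fr a170 a255 l476 (Fr a42 a21 l68 (Fr a106 a234 l390 (Fr a192 a149 l519 (V t581))))) (K a42 (M a48 (F (T t364 (L l298 (L l390 (T t50 (L l28 (T t100 N)))))))) (K a106 (M a48 (F (T t99 (T t1 (L l298 (L l390 (T t50 N))))))) (K a170 (M a16 (F (L l404 (T t113 (L l293 (L l390 (T t98 (L l390 (L l404 (T t97 (L l233 (L l404 (T t174 N))))))))))))) (K a255 (M a16 (F (T t112 (L l289 (T t113 (L l289 (L l293 (L l296 (T t98 N))))))))) N)))))))))))))))))))⟩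
def e0_63__193_136 : Ent 4 := ⟨[a0, a63], [a193, a217], (M a85 (F (L l284 (T t52 (L l228 (L l243 (L l293 (T t88 (L l243 (L l293 (T t89 (L l228 (T t90 (K a64 (M a16 (F (T t97 (L l84 (T t96 (L l116 (L l243 (L l293 (T t98 N))))))))) (K a192 (M a195 (F (T t883 (L l309 (T t2035 (L l243 (L l293 (L l296 (T t894 (L l305 (T t2036 N))))))))))) (K a21 (M a48 (F (T t99 (T t50 (L l47 (T t100 N)))))) (K a149 (M a61 (F (L l305 (T t505 (L l220 (L l293 (T t506 (L l217 (T t2037 N))))))))) (K a213 (Fr a170 a255 l476 (Fr a42 a21 l68 (Fr a106 a234 l390 (Fr a192 a149 l519 (V t581))))) (K a42 (M a48 (F (T t364 (L l390 (T t50 (L l28 (T t100 N))))))) (K a106 (M a48 (F (T t1 (L l104 (T t509 (L l390 (T t50 N))))))) (K a170 (M a60 (F (T t67 (L l218 (L l220 (L l228 (L l243 (L l293 (L l305 (L l390 (T t4523 (L l228 (L l392 (L l515 (T t523 N))))))))))))))) (K a255 (M a16 (F (T t112 (L l289 (T t113 (L l243 (L l289 (L l293 (L l296 (T t98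 N)))))))))) N))))))))))))))))))))))⟩
def e0_63__193_137 : Ent 4 := ⟨[a0, a63], [a193, a218], (M a85 (F (L l282 (T t52 (L l228 (L l246 (L l293 (T t88 (L l246 (L l293 (T t89 (L l228 (T t90 (K a64 (M a240 (F (T t386 (L l246 (L l293 (T t2099 N)))))) (K a192 (M a195 (F (T t883 (L l309 (T t2035 (L l246 (L l293 (L l296 (T t894 (L l305 (T t2036 N))))))))))) (K a21 (M a48 (F (T t1243 (L l47 (L l246 (L l282 (T t100 (L l303 (T t50 N))))))))) (K a149 (M a61 (F (L l305 (T t505 (L l220 (L l293 (T t506 (L l217 (T t2037 N))))))))) (K a213 (Fr a170 a255 l476 (Fr a42 a21 l68 (Fr a106 a234 l390 (Fr a192 a149 l519 (V t581))))) (K a42 (M a48 (F (T t364 (L l390 (T t567 (L l28 (L l246 (L l282 (T t100 N))))))))) (K a106 (M a48 (F (T t364 (T t1 (L l303 (L l390 (T t50 N))))))) (K a170 (M a60 (F (T t67 (L l218 (L l220 (L l228 (L l246 (L l293 (L l305 (L l390 (T t4523 (L l228 (L l392 (L l515 (T t523 N))))))))))))))) (K a255 (M a4 (F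 (T t129 (L l265 (T t130 (L l246 (L l265 (L l293 (L l296 (T t131 N)))))))))) N))))))))))))))))))))))⟩
def e0_63__193_138 : Ent 4 := ⟨[a0, a63], [a193, a219], (M a85 (F (T t52 (L l228 (L l293 (T t88 (L l293 (T t89 (L l228 (T t90 (K a64 (M a60 (F (T t114 (L l245 (L l293 (T t115 N)))))) (K a192 (M a195 (F (T t883 (L l245 (L l309 (T t2035 (L l293 (L l296 (T t894 (L l305 (T t2036 N))))))))))) (K a21 (M a48 (F (T t1243 (L l47 (L l245 (T t100 (T t50 N))))))) (K a149 (M a61 (F (L l305 (T t505 (L l220 (L l293 (T t506 (L l217 (T t2037 N))))))))) (K a213 (Fr a170 a255 l476 (Fr a42 a21 l68 (Fr a106 a234 l390 (Fr a192 a149 l519 (V t581))))) (K a42 (M a48 (F (T t364 (L l390 (T t50 (L l28 (L l245 (T t100 N)))))))) (K a106 (M a48 (F (T t364 (T t1 (L l390 (T t50 N)))))) (K a170 (M a16 (F (L l390 (L l404 (T t97 (L l245 (L l293 (L l390 (T t98 (L l245 (L l404 (T t113 (L l233 (L l245 (L l301 (L l404 (T t174 N)))))))))))))))))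 (K a255 (M a16 (F (T t112 (L l245 (L l289 (T t113 (L l245 (L l289 (L l293 (L l296 (T t98 N))))))))))) N)))))))))))))))))))⟩
def e0_63__193_139 : Ent 4 := ⟨[a0, a63], [a193, a220], (M a85 (F (T t52 (L l228 (L l293 (T t88 (L l293 (T t89 (L l228 (T t90 (K a64 (M a16 (F (T t112 (L l84 (L l241 (T t96 (L l116 (L l241 (L l293 (T t98 N)))))))))) (K a192 (M a195 (F (T t883 (L l309 (T t2035 (L l293 (L l296 (T t894 (L l305 (T t2036 N)))))))))) (K a21 (M a48 (F (T t873 (L l47 (L l241 (T t100 (T t50 N))))))) (K a149 (M a61 (F (L l305 (T t505 (L l220 (L l286 (L l293 (T t506 (L l217 (T t2037 N)))))))))) (K a213 (Fr a170 a255 l476 (Fr a42 a21 l68 (Fr a106 a234 l390 (Fr a192 a149 l519 (V t581))))) (K a42 (M a48 (F (L l364 (T t364 (L l390 (T t50 (L l28 (L l241 (T t100 N))))))))) (K a106 (M a48 (F (T t1 (L l104 (L l241 (T t509 (L l390 (T t50 N)))))))) (K a170 (M a16 (F (L l390 (L l404 (T t112 (L l241 (L l293 (L l390 (T t98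 (L l241 (L l404 (T t113 (L l233 (L l241 (L l404 (T t174 N)))))))))))))))) (K a255 (M a16 (F (T t112 (L l241 (L l289 (T t113 (L l241 (L l289 (L l293 (L l296 (T t98 N))))))))))) N)))))))))))))))))))⟩
def e0_63__193_140 : Ent 4 := ⟨[a0, a63], [a193, a221], (M a48 (F (T t1 (T t2 (T t3 (T t0 (K a16 (M a60 (F (T t43 (L l515 (T t64 (T t65 N)))))) (K a32 (M a60 (F (T t67 (L l515 (T t64 (L l24 (L l28 (T t65 N)))))))) (K a21 (M a192 (F (T t837 (L l47 (L l347 (L l515 (T t20 (L l47 (L l241 (L l347 (L l515 (T t29 N)))))))))))) (K a37 (M a192 (F (T t19 (L l47 (L l515 (T t20 (L l290 (L l515 (T t21 N))))))))) (K a53 (M a192 (F (T t19 (L l290 (L l491 (L l515 (T t21 (L l243 (L l293 (T t31 N)))))))))) (K a26 (M a192 (F (T t27 (L l515 (T t20 (L l290 (L l515 (T t21 N)))))))) (K a42 (M a192 (F (T t19 (L l515 (T t20 (L l28 (L l241 (L l515 (T t29 N))))))))) (K a58 (M a192 (F (T t19 (L l290 (L l515 (T t21 (L l54 (L l243 (L l293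 (L l498 (T t31 N))))))))))) (K a15 (M a192 (F (T t1800 (L l483 (T t27 (L l325 (L l515 (T t20 N)))))))) N)))))))))))))))⟩
def e0_63__193_141 : Ent 4 := ⟨[a0, a63], [a193, a222], (M a85 (F (T t52 (L l228 (L l293 (T t88 (L l293 (T t89 (L l228 (T t90 (K a64 (M a16 (F (T t97 (L l84 (L l241 (T t96 (L l116 (L l241 (L l293 (T t98 N)))))))))) (K a192 (M a195 (F (T t883 (L l309 (T t2035 (L l293 (L l296 (T t894 (L l305 (T t2036 N)))))))))) (K a21 (M a48 (F (T t1243 (L l47 (L l241 (T t100 (T t50 N))))))) (K a149 (M a61 (F (L l305 (T t505 (L l220 (L l291 (L l293 (T t506 (L l217 (T t2037 N)))))))))) (K a213 (Fr a170 a255 l476 (Fr a42 a21 l68 (Fr a106 a234 l390 (Fr a192 a149 l519 (V t581))))) (K a42 (M a48 (F (T t364 (L l390 (T t50 (L l28 (L l241 (T t100 N)))))))) (K a106 (M a48 (F (T t364 (T t1 (L l390 (T t50 N)))))) (K a170 (M a16 (F (L l390 (L l404 (T t97 (L l241 (L l293 (L l390 (T t98 (L l241 (L l404 (T t113 (L l233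 (L l241 (L l291 (L l404 (T t174 N))))))))))))))))) (K a255 (M a16 (F (T t112 (L l241 (L l289 (T t113 (L l241 (L l289 (L l293 (L l296 (T t98 N))))))))))) N)))))))))))))))))))⟩
def e0_63__193_142 : Ent 4 := ⟨[a0, a63], [a193, a223], (M a48 (F (T t1 (T t2 (L l368 (T t3 (L l361 (T t0 (K a16 (M a85 (F (T t4539 (T t50 (L l233 (L l246 (L l293 (T t51 N)))))))) (K a32 (M a60 (F (T t67 (L l515 (T t64 (L l24 (L l28 (T t65 N)))))))) (K a21 (M a192 (F (T t27 (L l47 (L l289 (L l347 (L l515 (T t20 (L l18 (L l233 (L l289 (L l368 (T t224 N))))))))))))) (K a37 (M a192 (F (T t837 (L l47 (L l289 (L l515 (T t20 (L l289 (L l515 (T t21 N)))))))))) (K a53 (M a192 (F (T t27 (L l289 (L l491 (L l515 (T t21 (L l47 (L l491 (L l515 (T t525 N))))))))))) (K a26 (M a192 (F (T t27 (L l289 (L l515 (T t20 (L l289 (L l515 (T t21 N))))))))) (K a42 (M a192 (F (T t837 (L l289 (L l515 (T t20 (L l54 (L l233 (L l289 (L l368 (L l390 (T t224 N))))))))))))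 (K a58 (M a192 (F (T t837 (L l289 (L l515 (T t21 (L l515 (T t525 N)))))))) (K a15 (M a149 (F (L l483 (T t13 (L l233 (L l246 (L l293 (T t6 N)))))))) N)))))))))))))))))⟩
def e0_63__193_143 : Ent 4 := ⟨[a0, a63], [a193, a232], (M a48 (F (T t1 (T t2 (T t3 (T t0 (K a16 (M a60 (F (T t42 (L l14 (L l18 (L l393 (T t67 (L l388 (T t65 N))))))))) (K a32 (M a60 (F (T t42 (L l393 (T t67 (L l24 (L l28 (L l388 (T t65 N))))))))) (K a21 (M a192 (F (T t837 (L l47 (L l347 (L l515 (T t20 (L l47 (L l347 (L l515 (T t29 N))))))))))) (K a37 (M a192 (F (T t837 (L l47 (L l515 (T t20 (L l515 (T t21 N)))))))) (K a53 (M a192 (F (T t837 (L l491 (L l515 (T t21 (L l293 (L l393 (T t31 N))))))))) (K a26 (M a192 (F (T t837 (L l515 (T t20 (L l515 (T t21 N))))))) (K a42 (M a192 (F (T t837 (L l515 (T t20 (L l28 (L l515 (T t29 N)))))))) (K a58 (M a192 (F (T t27 (L l515 (T t21 (L l54 (L l293 (L l393 (L l498 (T t31 N)))))))))) (K a15 (M a192 (F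 (T t1922 (L l325 (L l515 (T t20 (L l469 (L l515 (T t21 N))))))))) N)))))))))))))))⟩
def e0_63__193_144 : Ent 4 := ⟨[a0, a63], [a193, a233], (M a48 (L l293 (F (T t1 (T t2 (T t3 (T t0 (K a16 (M a255 (L l293 (F (T t1169 (L l228 (T t1165 (L l18 (L l250 (L l368 (T t1167 (K a213 (M a253 (F (T t546 (L l305 (T t5005 N))))) (K a253 (M a213 (F (T t5006 (T t511 N)))) N)))))))))))) (K a32 (M a255 (L l293 (F (T t1169 (L l228 (L l404 (T t1165 (L l250 (T t1167 (K a213 (M a253 (F (T t546 (L l305 (L l404 (T t5005 N)))))) (K a253 (M a213 (F (L l404 (T t5006 (T t511 N))))) N))))))))))) (K a21 (M a85 (L l293 (F (T t99 (T t50 (L l47 (T t100 (K a213 (M a253 (F (T t4999 (L l47 (L l246 (T t100 N)))))) (K a253 (M a213 (F (T t5007 (T t873 (L l47 (T t100 N)))))) N))))))))) (K a37 (M a85 (L l293 (F (T t364 (L l47 (L l250 (T t52 (L l28 (L l47 (T t100 (K a213 (M a253 (F (T t4999 (L l28 (L l47 (L l246 (T t100 N))))))) (K a253 (M a213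 (F (T t5008 (T t873 N)))) N)))))))))))) (K a53 (M a85 (L l293 (F (T t99 (L l47 (L l250 (T t52 (T t5009 (K a213 (M a253 (F (T t873 (L l35 (L l389 (L l515 (T t5010 N))))))) (K a253 (M a213 (F (T t5008 (T t873 N)))) N)))))))))) (K a26 (M a85 (L l293 (F (T t509 (L l228 (T t90 (T t100 (K a213 (M a253 (F (T t873 (L l54 (L l389 (L l515 (T t5010 N))))))) (K a253 (M a213 (F (T t5008 (T t873 N)))) N))))))))) (K a42 (M a255 (L l293 (F (T t1169 (T t547 (L l28 (L l390 (T t548 (K a213 (M a253 (F (T t546 (L l305 (L l390 (T t5005 N)))))) (K a253 (M a213 (F (L l390 (T t5011 (T t511 N))))) N)))))))))) (K a58 (M a192 (L l293 (F (T t19 (L l515 (T t21 (L l250 (L l515 (T t525 (K a213 (M a253 (F (T t837 (L l347 (L l515 (T t21 (L l347 (L l515 (T t575 N))))))))) (K a253 (M a213 (F (L l498 (T t5012 (T t27 N))))) N))))))))))) (K a15 (M a85 (L l293 (F (T t509 (L l250 (L l469 (T t52 (T t100 (K a213 (M a253 (F (T t4999 (L l246 (T t100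 N))))) (K a253 (M a213 (F (T t5008 (L l325 (T t873 N))))) N)))))))))) (K a213 (M a253 (F (T t2 (L l347 (T t1 (L l347 (T t3 (T t0 (K a16 (M a252 (F (T t5003 (L l347 (L l368 (L l389 (T t5004 N))))))) (K a32 (M a252 (F (T t5003 (L l28 (L l347 (L l389 (T t5004 N))))))) (K a21 (M a85 (F (T t4999 (L l47 (L l246 (T t100 N)))))) (K a37 (M a60 (F (T t247 (T t5000 N)))) (K a53 (M a60 (F (T t248 (T t5001 N)))) (K a26 (M a60 (F (T t248 (T t5000 N)))) (K a42 (M a60 (F (T t880 (L l66 (T t5000 N))))) (K a58 (M a60 (F (T t248 (L l36 (L l54 (T t5001 N)))))) (K a15 (M a60 (F (T t1308 (T t5000 N)))) N))))))))))))))))) (K a253 (M a213 (F (T t1 (L l233 (L l473 (T t5013 (L l515 (T t5014 (K a21 (M a192 (F (T t5015 (T t27 (L l47 (L l515 (T t20 N))))))) (K a42 (M a192 (F (L l390 (T t5016 (T t27 N))))) N)))))))))) N))))))))))))))))))⟩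
def e0_63__193_145 : Ent 4 := ⟨[a0, a63], [a193, a234], (M a48 (F (T t1 (L l390 (T t2 (T t3 (L l390 (T t0 (K a16 (M a60 (F (T t42 (L l14 (L l18 (T t67 (L l390 (T t65 N)))))))) (K a32 (M a60 (F (T t42 (T t67 (L l24 (L l28 (L l390 (T t65 N)))))))) (K a21 (M a192 (F (T t837 (L l47 (L l282 (L l347 (L l515 (T t20 (L l47 (L l282 (L l347 (L l515 (T t29 N))))))))))))) (K a37 (M a192 (F (T t27 (L l47 (L l282 (L l515 (T t20 (L l390 (T t202 N))))))))) (K a53 (M a192 (F (T t27 (L l390 (T t202 (L l390 (T t577 N))))))) (K a26 (M a192 (F (T t837 (L l282 (L l515 (T t20 (L l390 (T t202 N)))))))) (K a42 (M a106 (F (L l282 (T t304 (L l515 (T t551 (L l28 (L l282 (T t579 N))))))))) (K a58 (M a192 (F (T t27 (L l390 (L l498 (T t202 (L l390 (L l498 (T t577 N))))))))) (K a15 (M a192 (F (T t1922 (L l282 (L l325 (L l515 (T t20 (L l390 (L l469 (T t202 N)))))))))) N)))))))))))))))))⟩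
def e0_63__193_146 : Ent 4 := ⟨[a0, a63], [a193, a235], (M a48 (F (T t1 (T t2 (T t3 (T t0 (K a16 (M a60 (F (T t42 (L l14 (L l18 (L l391 (T t67 (L l392 (T t65 N))))))))) (K a32 (M a60 (F (T t42 (L l391 (T t67 (L l24 (L l28 (L l392 (T t65 N))))))))) (K a21 (M a192 (F (T t837 (L l47 (L l347 (L l515 (T t20 (L l47 (L l347 (L l515 (T t29 N))))))))))) (K a37 (M a192 (F (T t19 (L l47 (L l515 (T t20 (L l295 (L l515 (T t21 N))))))))) (K a53 (M a192 (F (T t19 (L l295 (L l491 (L l515 (T t21 (L l293 (T t31 N))))))))) (K a26 (M a192 (F (T t27 (L l515 (T t20 (L l295 (L l515 (T t21 N)))))))) (K a42 (M a192 (F (T t19 (L l515 (T t20 (L l28 (L l515 (T t29 N)))))))) (K a58 (M a192 (F (T t19 (L l295 (L l515 (T t21 (L l54 (L l293 (L l498 (T t31 N)))))))))) (K a15 (M a170 (F (T t2101 (L l250 (L l255 (T t324 N)))))) N)))))))))))))))⟩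
def e0_63__193_147 : Ent 4 := ⟨[a0, a63], [a193, a236], (M a85 (F (T t52 (L l228 (L l293 (T t88 (L l293 (T t89 (L l228 (T t90 (K a64 (M a48 (F (T t50 (L l293 (L l400 (T t568 N)))))) (K a192 (M a195 (F (T t883 (L l309 (T t2035 (L l293 (L l296 (T t894 (L l305 (T t2036 N)))))))))) (K a21 (M a48 (F (T t873 (L l47 (L l400 (T t100 (T t50 N))))))) (K a149 (M a61 (F (L l305 (T t505 (L l220 (L l286 (L l293 (T t506 (L l217 (L l405 (T t2037 N))))))))))) (K a213 (Fr a170 a255 l476 (Fr a42 a21 l68 (Fr a106 a234 l390 (Fr a192 a149 l519 (V t581))))) (K a42 (M a48 (F (L l251 (T t364 (L l390 (T t50 (L l28 (L l400 (T t100 N))))))))) (K a106 (M a48 (F (T t1 (L l104 (L l400 (T t509 (L l390 (T t50 N)))))))) (K a170 (M a16 (F (L l400 (L l404 (T t113 (L l293 (L l390 (T t98 (L l390 (L l400 (L l404 (T t97 (L l233 (L l400 (L l404 (T t174 N)))))))))))))))) (K a255 (M a16 (F (L l400 (T t112 (L l289 (L l293 (L l296 (T t98 (L l289 (L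 l400 (T t113 N))))))))))) N)))))))))))))))))))⟩
def e0_63__193_148 : Ent 4 := ⟨[a0, a63], [a193, a237], (M a85 (F (T t52 (L l228 (L l293 (T t88 (L l293 (T t89 (L l228 (T t90 (K a64 (M a16 (F (T t97 (L l84 (L l401 (T t96 (L l116 (L l293 (T t98 N))))))))) (K a192 (M a195 (F (T t883 (L l309 (T t2035 (L l293 (L l296 (T t894 (L l305 (T t2036 N)))))))))) (K a21 (M a48 (F (T t99 (T t50 (L l47 (T t100 N)))))) (K a149 (M a61 (F (L l305 (T t505 (L l220 (L l287 (L l291 (L l293 (T t506 (L l217 (L l401 (T t2037 N)))))))))))) (K a213 (Fr a170 a255 l476 (Fr a42 a21 l68 (Fr a106 a234 l390 (Fr a192 a149 l519 (V t581))))) (K a42 (M a48 (F (L l28 (T t99 (L l390 (T t50 (L l28 (T t100 N)))))))) (K a106 (M a48 (F (T t1 (L l104 (L l401 (T t509 (L l390 (T t50 N)))))))) (K a170 (M a16 (F (L l404 (T t113 (L l293 (L l390 (T t98 (L l390 (L l404 (T t97 (L l233 (L l291 (L l404 (T t174 N)))))))))))))) (K a255 (M a16 (F (T t112 (L l289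 (T t113 (L l289 (L l293 (L l296 (T t98 N))))))))) N)))))))))))))))))))⟩
def e0_63__193_149 : Ent 4 := ⟨[a0, a63], [a193, a238], (M a48 (F (T t1 (T t2 (T t3 (T t0 (K a16 (M a60 (F (T t43 (L l515 (T t64 (T t65 N)))))) (K a32 (M a60 (F (T t67 (L l515 (T t64 (L l24 (L l28 (T t65 N)))))))) (K a21 (M a192 (F (T t837 (L l47 (L l347 (L l515 (T t20 (L l47 (L l347 (L l515 (T t29 N))))))))))) (K a37 (M a192 (F (T t19 (L l47 (L l515 (T t20 (L l290 (L l515 (T t21 N))))))))) (K a53 (M a192 (F (T t19 (L l290 (L l491 (L l515 (T t21 (L l293 (T t31 N))))))))) (K a26 (M a192 (F (T t27 (L l515 (T t20 (L l290 (L l515 (T t21 N)))))))) (K a42 (M a192 (F (T t19 (L l515 (T t20 (L l28 (L l515 (T t29 N)))))))) (K a58 (M a192 (F (T t19 (L l290 (L l515 (T t21 (L l54 (L l293 (L l498 (T t31 N)))))))))) (K a15 (M a170 (F (T t2101 (L l251 (L l254 (T t324 N)))))) N)))))))))))))))⟩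
def e0_63__193_150 : Ent 4 := ⟨[a0, a63], [a193, a239], (M a48 (F (T t1 (T t2 (L l397 (T t3 (L l404 (T t0 (K a16 (M a60 (F (T t43 (L l515 (T t64 (T t65 N)))))) (K a32 (M a170 (F (T t874 (T t514 (L l256 (T t580 N)))))) (K a21 (M a192 (F (T t27 (L l47 (L l289 (L l347 (L l515 (T t20 (L l47 (L l289 (L l347 (L l404 (L l515 (T t29 N)))))))))))))) (K a37 (M a192 (F (T t837 (L l47 (L l289 (L l515 (T t20 (L l289 (L l515 (T t21 N)))))))))) (K a53 (M a192 (F (T t27 (L l289 (L l491 (L l515 (T t21 (L l293 (T t31 N))))))))) (K a26 (M a192 (F (T t27 (L l289 (L l515 (T t20 (L l289 (L l515 (T t21 N))))))))) (K a42 (M a192 (F (T t837 (L l289 (L l515 (T t20 (L l28 (L l289 (L l404 (L l515 (T t29 N))))))))))) (K a58 (M a192 (F (T t837 (L l289 (L l515 (T t21 (L l54 (L l293 (L l498 (T t31 N)))))))))) (K a15 (M a149 (F (T t1274 (L l233 (L l293 (T t6 N)))))) N)))))))))))))))))⟩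
def e0_63__193_151 : Ent 4 := ⟨[a0, a63], [a193, a252], (M a48 (F (T t48 (L l471 (T t1 (L l471 (T t2 (L l471 (T t3 (L l471 (T t0 (K a16 (M a60 (F (T t277 (L l14 (L l18 (L l477 (T t67 (T t65 N)))))))) (K a32 (M a60 (F (T t277 (L l477 (T t67 (L l24 (L l28 (T t65 N)))))))) (K a21 (M a192 (F (T t54 (L l262 (T t27 (L l47 (L l347 (L l515 (T t29 N))))))))) (K a37 (M a192 (F (T t54 (L l262 (T t27 (L l261 (L l515 (T t21 N)))))))) (K a53 (M a192 (F (T t55 (L l261 (L l491 (L l515 (T t21 (L l293 (T t31 N))))))))) (K a26 (M a192 (F (T t1922 (L l291 (L l515 (T t20 (L l261 (L l515 (T t21 N))))))))) (K a42 (M a192 (F (T t36 (L l291 (L l515 (T t20 (L l28 (L l515 (T t29 N))))))))) (K a58 (M a192 (F (T t1922 (L l261 (L l515 (T t21 (L l54 (L l293 (L l498 (T t31 N)))))))))) (K a15 (M a149 (L l471 (F (T t1274 (L l233 (L l293 (T t6 (K a173 (M a94 (F (T t1274 (L l233 (L l293 (T t6 N)))))) (K a94 (M a173 (F (T t1274 (L l233 (L l293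 (T t6 N)))))) N))))))))) N))))))))))))))))))))⟩
def e0_63__193_152 : Ent 4 := ⟨[a0, a63], [a193, a253], (M a48 (L l293 (F (T t1 (T t2 (T t3 (T t0 (K a16 (M a255 (L l293 (F (T t511 (L l228 (T t1165 (L l18 (L l368 (L l437 (L l473 (T t1167 (K a213 (M a233 (F (T t511 (L l228 (L l347 (L l368 (L l473 (T t2139 (L l347 (L l368 (L l437 (L l473 (T t5017 N))))))))))))) (K a233 (M a213 (F (T t5006 (T t511 N)))) N))))))))))))) (K a32 (M a255 (L l293 (F (T t511 (L l228 (L l404 (T t1165 (L l437 (L l473 (T t1167 (K a213 (M a233 (F (T t511 (L l228 (L l347 (L l473 (T t2139 (L l347 (L l437 (L l473 (T t5017 N))))))))))) (K a233 (M a213 (F (L l404 (T t5006 (T t511 N))))) N)))))))))))) (K a21 (M a85 (L l293 (F (T t1699 (L l47 (T t100 (L l437 (T t50 (K a213 (M a233 (F (T t873 (L l47 (L l246 (T t100 (L l437 (T t50 N)))))))) (K a233 (M a213 (F (T t5007 (T t873 (L l47 (T t100 N)))))) N)))))))))) (K a37 (M a192 (L l293 (F (T t19 (L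 l47 (L l515 (T t20 (L l261 (L l515 (T t21 (K a213 (M a233 (F (T t22 (L l28 (L l246 (T t28 (L l261 (L l347 (L l515 (T t21 N)))))))))) (K a233 (M a213 (F (T t5012 (T t27 N)))) N)))))))))))) (K a53 (M a192 (L l293 (F (T t19 (L l261 (L l491 (L l515 (T t21 (L l47 (L l491 (L l515 (T t525 (K a213 (M a233 (F (T t837 (L l261 (L l347 (L l491 (L l515 (T t21 (L l347 (L l491 (L l515 (T t575 N)))))))))))) (K a233 (M a213 (F (T t5012 (T t27 N)))) N)))))))))))))) (K a26 (M a192 (L l293 (F (T t837 (L l515 (T t20 (L l261 (L l515 (T t21 (K a213 (M a233 (F (T t22 (L l246 (T t28 (L l261 (L l347 (L l515 (T t21 N))))))))) (K a233 (M a213 (F (T t5012 (T t27 N)))) N))))))))))) (K a42 (M a192 (L l293 (F (T t19 (L l515 (T t20 (L l28 (L l515 (T t29 (K a213 (M a233 (F (T t837 (L l390 (T t22 (L l28 (L l246 (L l347 (L l515 (T t29 N)))))))))) (K a233 (M a213 (F (L l390 (T t5016 (T t27 N))))) N))))))))))) (K a58 (M a192 (L l293 (F (T t19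 (L l261 (L l515 (T t21 (L l515 (T t525 (K a213 (M a233 (F (T t837 (L l261 (L l347 (L l515 (T t21 (L l347 (L l515 (T t575 N)))))))))) (K a233 (M a213 (F (L l498 (T t5012 (T t27 N))))) N))))))))))) (K a15 (M a192 (L l293 (F (T t1800 (L l483 (T t27 (L l325 (L l515 (T t20 (K a213 (M a233 (F (T t54 (L l246 (L l483 (T t28 (L l261 (L l347 (L l469 (L l515 (T t21 N))))))))))) (K a233 (M a213 (F (T t5012 (L l483 (T t27 N))))) N))))))))))) (K a213 (M a233 (F (T t2 (L l347 (T t1 (L l347 (T t3 (T t0 (K a16 (M a60 (F (T t42 (L l305 (L l473 (T t69 (L l14 (L l18 (L l347 (T t44 N)))))))))) (K a32 (M a60 (F (T t42 (L l28 (L l305 (L l473 (T t69 (L l347 (T t44 N))))))))) (K a21 (M a85 (F (T t873 (L l47 (L l246 (T t100 (L l437 (T t50 N)))))))) (K a37 (M a192 (F (T t22 (L l28 (L l246 (T t28 (L l261 (L l347 (L l515 (T t21 N)))))))))) (K a53 (M a192 (F (T t837 (L l261 (L l347 (L l491 (L l515 (T t21 (L l347 (L l491 (L l515 (T t575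 N)))))))))))) (K a26 (M a192 (F (T t22 (L l246 (T t28 (L l261 (L l347 (L l515 (T t21 N))))))))) (K a42 (M a192 (F (T t837 (L l390 (T t22 (L l28 (L l246 (L l347 (L l515 (T t29 N)))))))))) (K a58 (M a192 (F (T t837 (L l261 (L l347 (L l515 (T t21 (L l347 (L l515 (T t575 N)))))))))) (K a15 (M a192 (F (T t54 (L l246 (L l483 (T t28 (L l261 (L l347 (L l469 (L l515 (T t21 N))))))))))) N))))))))))))))))) (K a233 (M a213 (F (T t1 (L l233 (L l473 (T t5013 (L l515 (T t5014 (K a21 (M a192 (F (T t5015 (T t27 (L l47 (L l515 (T t20 N))))))) (K a42 (M a192 (F (L l390 (T t5016 (T t27 N))))) N)))))))))) N))))))))))))))))))⟩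
def e0_63__193_153 : Ent 4 := ⟨[a0, a63], [a193, a254], (M a48 (F (T t1 (T t2 (T t3 (T t0 (K a16 (M a60 (F (T t43 (L l438 (L l515 (T t64 (T t65 N))))))) (K a32 (M a60 (F (T t42 (T t67 (L l24 (L l28 (T t65 N))))))) (K a21 (M a192 (F (T t837 (L l47 (L l347 (L l515 (T t20 (L l47 (L l347 (L l515 (T t29 N))))))))))) (K a37 (M a192 (F (T t19 (L l47 (L l515 (T t20 (L l261 (L l515 (T t21 N))))))))) (K a53 (M a192 (F (T t19 (L l261 (L l491 (L l515 (T t21 (L l293 (T t31 N))))))))) (K a26 (M a192 (F (T t27 (L l515 (T t20 (L l261 (L l515 (T t21 N)))))))) (K a42 (M a192 (F (T t19 (L l515 (T t20 (L l28 (L l515 (T t29 N)))))))) (K a58 (M a192 (F (T t19 (L l261 (L l515 (T t21 (L l54 (L l293 (L l498 (T t31 N)))))))))) (K a15 (M a149 (F (T t1274 (L l233 (L l293 (T t6 N)))))) N)))))))))))))))⟩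
def e0_63__193_154 : Ent 4 := ⟨[a0, a63], [a193, a255], (M a48 (F (T t48 (L l469 (T t1 (L l469 (T t2 (L l469 (T t3 (L l469 (T t0 (K a16 (M a60 (F (T t277 (L l14 (L l18 (L l475 (T t67 (T t65 N)))))))) (K a32 (M a60 (F (T t277 (L l475 (T t67 (L l24 (L l28 (T t65 N)))))))) (K a21 (M a192 (F (T t2113 (L l47 (L l289 (L l347 (L l515 (T t20 (L l47 (L l289 (L l347 (L l515 (T t29 N))))))))))))) (K a37 (M a192 (F (T t54 (L l266 (T t27 (L l28 (L l47 (L l289 (L l515 (T t29 N)))))))))) (K a53 (M a12 (F (T t145 (L l47 (L l439 (T t122 (L l47 (T t146 N)))))))) (K a26 (M a192 (F (T t2113 (L l289 (L l515 (T t20 (L l289 (L l515 (T t29 N))))))))) (K a42 (M a192 (F (T t36 (L l289 (L l515 (T t20 (L l28 (L l289 (L l515 (T t29 N)))))))))) (K a58 (M a12 (F (T t145 (L l439 (T t122 (T t146 N)))))) (K a15 (M a192 (L l469 (F (T t54 (L l266 (L l483 (T t27 (L l289 (L l515 (T t29 (K a95 (M a175 (F (T t1922 (L l289 (L l325 (L l361 (T t22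 (L l289 (L l361 (L l515 (T t29 N))))))))))) (K a175 (M a95 (F (T t1922 (L l213 (L l289 (L l325 (T t22 (L l289 (L l515 (T t29 N)))))))))) N)))))))))))) N))))))))))))))))))))⟩
def b0_63__193 : Blk 4 := ⟨[0, 63], [193], [1, 2, 3, 4, 5, 6, 7, 8, 9, 10, 11, 12, 13, 14, 15, 20, 22, 23, 24, 25, 26, 27, 28, 29, 30, 31, 40, 41, 43, 44, 45, 46, 47, 60, 61, 62, 64, 65, 66, 67, 68, 69, 70, 71, 72, 73, 74, 75, 76, 77, 78, 79, 84, 85, 86, 87, 88, 89, 90, 91, 92, 93, 94, 95, 104, 105, 106, 107, 108, 109, 110, 111, 124, 125, 126, 127, 128, 129, 130, 131, 132, 133, 134, 135, 136, 137, 138, 139, 140, 141, 142, 143, 148, 149, 150, 151, 152, 153, 154, 155, 156, 157, 158, 159, 168, 169, 170, 171, 172, 173, 174, 175, 188, 189, 190, 191, 192, 194, 195, 196, 197, 198, 199, 200, 201, 202, 203, 204, 205, 206, 207, 212, 213, 214, 215, 216, 217, 218, 219, 220, 221, 222, 223, 232, 233, 234, 235, 236, 237, 238, 239, 252, 253, 254, 255],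 [e0_63__193_0, e0_63__193_1, e0_63__193_2, e0_63__193_3, e0_63__193_4, e0_63__193_5, e0_63__193_6, e0_63__193_7, e0_63__193_8, e0_63__193_9, e0_63__193_10, e0_63__193_11, e0_63__193_12, e0_63__193_13, e0_63__193_14, e0_63__193_15, e0_63__193_16, e0_63__193_17, e0_63__193_18, e0_63__193_19, e0_63__193_20, e0_63__193_21, e0_63__193_22, e0_63__193_23, e0_63__193_24, e0_63__193_25, e0_63__193_26, e0_63__193_27, e0_63__193_28, e0_63__193_29, e0_63__193_30, e0_63__193_31, e0_63__193_32, e0_63__193_33, e0_63__193_34, e0_63__193_35, e0_63__193_36, e0_63__193_37, e0_63__193_38, e0_63__193_39, e0_63__193_40, e0_63__193_41, e0_63__193_42, e0_63__193_43, e0_63__193_44, e0_63__193_45, e0_63__193_46, e0_63__193_47, e0_63__193_48, e0_63__193_49, e0_63__193_50, e0_63__193_51, e0_63__193_52, e0_63__193_53, e0_63__193_54, e0_63__193_55, e0_63__193_56, e0_63__193_57, e0_63__193_58, e0_63__193_59, e0_63__193_60, e0_63__193_61,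 e0_63__193_62, e0_63__193_63, e0_63__193_64, e0_63__193_65, e0_63__193_66, e0_63__193_67, e0_63__193_68, e0_63__193_69, e0_63__193_70, e0_63__193_71, e0_63__193_72, e0_63__193_73, e0_63__193_74, e0_63__193_75, e0_63__193_76, e0_63__193_77, e0_63__193_78, e0_63__193_79, e0_63__193_80, e0_63__193_81, e0_63__193_82, e0_63__193_83, e0_63__193_84, e0_63__193_85, e0_63__193_86, e0_63__193_87, e0_63__193_88, e0_63__193_89, e0_63__193_90, e0_63__193_91, e0_63__193_92, e0_63__193_93, e0_63__193_94, e0_63__193_95, e0_63__193_96, e0_63__193_97, e0_63__193_98, e0_63__193_99, e0_63__193_100, e0_63__193_101, e0_63__193_102, e0_63__193_103, e0_63__193_104, e0_63__193_105, e0_63__193_106, e0_63__193_107, e0_63__193_108, e0_63__193_109, e0_63__193_110, e0_63__193_111, e0_63__193_112, e0_63__193_113, e0_63__193_114, e0_63__193_115, e0_63__193_116, e0_63__193_117, e0_63__193_118, e0_63__193_119, e0_63__193_120, e0_63__193_121,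 e0_63__193_122, e0_63__193_123, e0_63__193_124, e0_63__193_125, e0_63__193_126, e0_63__193_127, e0_63__193_128, e0_63__193_129, e0_63__193_130, e0_63__193_131, e0_63__193_132, e0_63__193_133, e0_63__193_134, e0_63__193_135, e0_63__193_136, e0_63__193_137, e0_63__193_138, e0_63__193_139, e0_63__193_140, e0_63__193_141, e0_63__193_142, e0_63__193_143, e0_63__193_144, e0_63__193_145, e0_63__193_146, e0_63__193_147, e0_63__193_148, e0_63__193_149, e0_63__193_150, e0_63__193_151, e0_63__193_152, e0_63__193_153, e0_63__193_154], by decide +kernel, by decide +kernel⟩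

end Pool.Agent.Lib_TTT.K4
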