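import Pool.Agent.Lib_TTT.K4Base
import Pool.Agent.Lib_TTT.K4T00
import Pool.Agent.Lib_TTT.K4T01
import Pool.Agent.Lib_TTT.K4T02
import Pool.Agent.Lib_TTT.K4T03
import Pool.Agent.Lib_TTT.K4T04
import Pool.Agent.Lib_TTT.K4T05

/-! Certificates in `4^4`. -/

set_option autoImplicit false
set_option maxRecDepth 200000

namespace Pool.Agent.Lib_TTT.K4

open Lib_TTT AC DC

def e0_63__195_0 : Ent 4 := ⟨[a0, a63], [a195, a1], (M a48 (F (T t610 (L l65 (L l337 (T t1 (L l5 (L l337 (T t2 (L l65 (L l337 (T t3 (L l337 (T t0 (K a16 (M a60 (F (T t277 (L l14 (L l18 (L l65 (L l307 (T t67 (L l5 (T t65 N)))))))))) (K a32 (M a60 (F (T t277 (L l65 (L l307 (T t67 (L l5 (L l24 (L l28 (T t65 N)))))))))) (K a21 (M a192 (L l65 (F (T t54 (L l273 (T t27 (L l47 (L l347 (T t29 (K a41 (M a61 (F (T t54 (L l11 (L l297 (T t5018 N)))))) (K a61 (M a41 (F (T t2113 (L l35 (L l47 (L l235 (L l347 (L l515 (T t20 (L l18 (T t46 N))))))))))) N))))))))))) (K a37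 (M a192 (F (T t54 (L l273 (T t27 (L l295 (T t21 N))))))) (K a53 (M a192 (F (T t55 (L l295 (L l491 (T t21 (T t31 N))))))) (K a26 (M a192 (F (T t56 (L l273 (T t27 (L l295 (T t21 N))))))) (K a42 (M a192 (F (T t56 (L l273 (T t27 (L l28 (T t29 N))))))) (K a58 (M a192 (F (T t1922 (L l295 (T t21 (L l54 (L l498 (T t31 N)))))))) (K a15 (M a192 (L l337 (F (T t33 (L l273 (L l483 (T t27 (L l295 (L l469 (T t21 (K a135 (M a75 (F (T t1800 (L l235 (L l325 (T t22 (L l273 (L l483 (T t28 N))))))))) (K a75 (M a135 (F (T t1800 (L l235 (L l325 (T t22 (L l273 (L l483 (T t28 N))))))))) N)))))))))))) N)))))))))))))))))))))))⟩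
def e0_63__195_1 : Ent 4 := ⟨[a0, a63], [a195, a3], (M a192 (L l307 (F (T t47 (L l295 (L l475 (T t21 (L l295 (L l475 (T t35 (L l295 (L l475 (T t202 (L l295 (L l475 (T t37 (K a64 (M a51 (L l307 (F (T t5019 (L l9 (L l338 (T t1294 (T t1714 (K a67 (M a131 (L l76 (F (T t1713 (L l9 (L l338 (T t592 (T t1714 (K a65 (M a66 (F (T t848 (L l121 (L l145 (L l453 (L l477 (T t5020 N)))))))) (K a66 (M a65 (F (T t841 (L l118 (L l120 (L l142 (L l144 (L l237 (L l333 (T t5021 (L l118 (L l120 (L l142 (L l144 (T t5022 N))))))))))))))) N)))))))))) (K a131 (M a67 (F (T t1713 (L l9 (L l338 (T t592 (T t1714 N))))))) N)))))))))) (K a128 (M a51 (L l307 (F (T t5023 (L l9 (L l338 (T t1294 (L l196 (L l220 (T t1714 (K a67 (M a131 (F (T t1355 (L l237 (L l333 (T t5021 (L l196 (L l220 (T t1714 N))))))))) (K a131 (M a67 (L l152 (F (T t1355 (L l237 (L l333 (T t5021 (L l196 (L l220 (T t1714 (K a129 (M a130 (F (T t5023 (L l9 (L l338 (T t592 (L l193 (L l196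 (L l217 (L l220 (T t1714 N))))))))))) (K a130 (M a129 (F (T t848 (L l197 (L l221 (L l453 (L l477 (T t5024 N)))))))) N)))))))))))) N)))))))))))) (K a21 (M a144 (L l307 (F (T t5025 (L l235 (L l331 (T t5026 (T t5027 (K a67 (M a131 (F (T t5028 (L l76 (L l453 (L l487 (T t5029 N))))))) (K a131 (M a67 (F (T t5030 (L l235 (L l331 (T t5026 (L l219 (T t5031 N)))))))) N)))))))))) (K a85 (M a16 (L l307 (F (T t504 (L l273 (L l453 (T t210 (L l94 (L l144 (T t211 (K a67 (M a131 (F (T t504 (L l273 (L l453 (T t210 (L l94 (L l144 (T t211 N))))))))) (K a131 (M a67 (F (T t504 (L l273 (L l453 (T t210 (L l94 (L l144 (T t211 N))))))))) N)))))))))))) (K a149 (M a51 (L l307 (F (T t841 (L l167 (L l271 (L l451 (T t5032 (L l167 (L l220 (L l271 (L l347 (L l451 (L l495 (T t5033 (L l271 (L l371 (L l451 (T t5034 (K a67 (M a131 (F (T t841 (L l76 (L l451 (T t5035 N)))))) (K a131 (M a67 (F (T t841 (L l152 (L l167 (L l220 (L l451 (T t5036 N)))))))) N)))))))))))))))))))))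 (K a42 (M a80 (L l307 (F (T t5037 (L l7 (L l337 (T t5038 (T t5039 (K a67 (M a131 (F (T t5040 (L l76 (L l390 (L l475 (T t5041 (L l7 (L l28 (L l337 (T t5042 N))))))))))) (K a131 (M a67 (F (T t5043 (L l152 (L l451 (L l488 (T t5044 N))))))) N)))))))))) (K a106 (M a51 (L l307 (F (T t848 (L l102 (L l271 (L l451 (T t3253 (L l271 (L l408 (L l451 (T t5045 (L l102 (L l144 (L l271 (L l390 (L l451 (L l501 (T t5046 (K a67 (M a131 (F (T t848 (L l76 (L l102 (L l144 (L l451 (T t5035 N)))))))) (K a131 (M a67 (F (T t848 (L l152 (L l451 (T t5036 N)))))) N))))))))))))))))))))) (K a170 (M a32 (L l307 (F (T t612 (L l273 (L l453 (T t218 (L l180 (L l220 (T t220 (K a67 (M a131 (F (T t612 (L l273 (L l453 (T t218 (L l180 (L l220 (T t220 N))))))))) (K a131 (M a67 (F (T t612 (L l273 (L l453 (T t218 (L l180 (L l220 (T t220 N))))))))) N)))))))))))) (K a255 (M a16 (L l295 (L l307 (L l475 (F (T t112 (L l266 (L l273 (L l453 (T t210 (T t211 (K a67 (M a131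 (L l295 (L l475 (F (T t504 (L l266 (L l273 (L l453 (T t210 (T t211 (K a87 (M a171 (L l143 (L l295 (F (T t112 (L l349 (T t5047 (K a215 (M a235 (L l143 (L l349 (F (T t504 (L l266 (L l273 (L l453 (T t210 (T t211 (K a23 (Fr a151 a191 l219 (V t210)) (K a151 (M a23 (L l143 (F (L l76 (T t1805 (L l350 (T t5048 (K a107 (M a127 (F (T t3693 (L l7 (L l337 (L l373 (L l469 (T t97 N)))))))) (K a127 (Fr a107 a43 l391 (V t97)) N))))))))) (K a107 (M a127 (L l349 (F (T t1170 (L l7 (L l337 (L l469 (T t97 (K a23 (Fr a151 a191 l219 (V t1170)) (K a151 (M a23 (F (T t3693 (L l7 (L l337 (L l373 (L l469 (T t97 N)))))))) N)))))))))) (K a127 (Fr a107 a43 l391 (V t97)) N)))))))))))))) (K a107 (M a127 (L l295 (F (T t3693 (L l7 (L l337 (L l469 (T t97 (K a215 (M a235 (L l349 (F (T t1170 (L l7 (L l337 (L l469 (T t97 (K a23 (Fr a151 a191 l219 (V t1170)) (K a151 (M a23 (F (T t3693 (L l7 (L l337 (L l373 (L l469 (T t97 N)))))))) N)))))))))) (K a235 (M a215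 (F (T t3693 (L l7 (L l337 (L l469 (T t97 N))))))) N)))))))))) (K a235 (M a215 (L l143 (F (T t112 (T t5047 (K a107 (M a127 (F (T t3693 (L l7 (L l337 (L l469 (T t97 N))))))) (K a127 (M a107 (F (T t504 (L l144 (T t5047 N))))) N))))))) (K a127 (M a107 (L l295 (F (T t112 (L l76 (L l144 (L l349 (T t5049 (K a215 (Fr a235 a43 l391 (V t97)) (K a235 (M a215 (F (T t504 (L l144 (T t5047 N))))) N)))))))))) N))))))))))) (K a215 (M a235 (L l475 (F (T t504 (L l266 (L l273 (L l453 (T t210 (T t211 (K a87 (M a171 (L l143 (L l349 (F (T t504 (L l266 (L l273 (L l453 (T t210 (T t211 (K a23 (Fr a151 a191 l219 (V t210)) (K a151 (M a23 (L l143 (F (L l76 (T t1805 (L l350 (T t5048 (K a107 (M a127 (F (T t3693 (L l7 (L l337 (L l373 (L l469 (T t97 N)))))))) (K a127 (Fr a107 a43 l391 (V t97)) N))))))))) (K a107 (M a127 (L l349 (F (T t1170 (L l7 (L l337 (L l469 (T t97 (K a23 (Fr a151 a191 l219 (V t1170)) (K a151 (M a23 (F (T t3693 (L l7 (L l337 (L l373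 (L l469 (T t97 N)))))))) N)))))))))) (K a127 (Fr a107 a43 l391 (V t97)) N)))))))))))))) (K a171 (M a87 (F (T t504 (L l266 (L l273 (L l453 (T t210 (T t211 N)))))))) N))))))))))) (K a171 (M a87 (L l295 (F (T t504 (L l266 (L l273 (L l453 (T t210 (T t211 (K a215 (M a235 (F (T t504 (L l266 (L l273 (L l453 (T t210 (T t211 N)))))))) (K a235 (M a215 (L l391 (F (T t5050 (L l266 (L l273 (L l453 (T t210 (K a43 (M a107 (F (L l76 (T t1805 (L l393 (T t5050 N)))))) (K a107 (M a43 (F (L l76 (T t2680 (L l98 (T t5050 N)))))) N)))))))))) N))))))))))) (K a235 (M a215 (L l475 (F (T t504 (L l266 (L l273 (L l453 (T t210 (T t211 (K a87 (M a171 (L l143 (F (T t112 (T t5047 (K a107 (M a127 (F (T t3693 (L l7 (L l337 (L l469 (T t97 N))))))) (K a127 (M a107 (F (T t504 (L l144 (T t5047 N))))) N))))))) (K a171 (M a87 (L l391 (F (T t5050 (L l266 (L l273 (L l453 (T t210 (K a43 (M a107 (F (L l76 (T t1805 (L l393 (T t5050 N)))))) (K a107 (M a43 (F (L l76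 (T t2680 (L l98 (T t5050 N)))))) N)))))))))) N))))))))))) N)))))))))))))) (K a131 (M a67 (L l295 (L l475 (F (T t2680 (L l7 (L l337 (L l469 (T t97 (T t211 (K a87 (M a171 (L l295 (F (T t2680 (L l7 (L l337 (L l469 (T t97 (T t211 (K a215 (M a235 (L l349 (F (T t2680 (T t5051 (K a23 (M a151 (F (T t2680 (L l351 (T t5051 N))))) (K a151 (M a23 (F (T t2680 (L l163 (T t5051 N))))) N))))))) (K a235 (M a215 (F (T t2680 (L l7 (L l337 (L l469 (T t97 (T t211 N)))))))) N))))))))))) (K a215 (M a235 (L l475 (F (T t2680 (L l7 (L l337 (L l469 (T t97 (T t211 (K a87 (M a171 (L l349 (F (T t2680 (T t5051 (K a23 (M a151 (F (T t2680 (L l351 (T t5051 N))))) (K a151 (M a23 (F (T t2680 (L l163 (T t5051 N))))) N))))))) (K a171 (M a87 (L l219 (F (T t112 (T t5052 (K a151 (M a191 (F (T t5053 (L l7 (L l337 (L l373 (L l469 (T t97 N)))))))) (K a191 (M a151 (F (T t112 (L l152 (L l220 (T t5054 N)))))) N))))))) N))))))))))) (K a171 (M a87 (L l219 (L l295 (F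 (T t112 (L l391 (T t5052 (K a151 (M a191 (L l295 (F (T t5055 (L l7 (L l337 (L l373 (L l469 (T t97 (K a215 (M a235 (F (T t5053 (L l7 (L l337 (L l373 (L l469 (T t97 N)))))))) (K a235 (M a215 (L l391 (F (T t5055 (L l7 (L l337 (L l373 (L l469 (T t97 (K a43 (Fr a107 a127 l143 (V t5055)) (K a107 (M a43 (F (T t5055 (L l7 (L l337 (L l373 (L l469 (T t97 N)))))))) N))))))))))) N))))))))))) (K a215 (M a235 (L l219 (F (T t112 (T t5052 (K a151 (M a191 (F (T t5053 (L l7 (L l337 (L l373 (L l469 (T t97 N)))))))) (K a191 (M a151 (F (T t112 (L l152 (L l220 (T t5054 N)))))) N))))))) (K a235 (M a215 (L l219 (L l391 (F (T t504 (L l266 (L l273 (L l453 (T t210 (T t211 (K a151 (M a191 (L l391 (F (T t5055 (L l7 (L l337 (L l373 (L l469 (T t97 (K a43 (Fr a107 a127 l143 (V t5055)) (K a107 (M a43 (F (T t5055 (L l7 (L l337 (L l373 (L l469 (T t97 N)))))))) N))))))))))) (K a43 (Fr a107 a127 l143 (V t210)) (K a107 (M a43 (L l219 (F (T t2680 (L l174 (L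 l221 (L l477 (T t5056 (K a151 (M a191 (F (T t5055 (L l7 (L l337 (L l373 (L l469 (T t97 N)))))))) (K a191 (Fr a151 a23 l349 (V t97)) N)))))))))) (K a191 (Fr a151 a23 l349 (V t97)) N)))))))))))))) (K a191 (M a151 (L l295 (F (T t504 (L l220 (L l391 (T t5052 (K a215 (M a235 (F (T t112 (L l152 (L l220 (T t5054 N)))))) (K a235 (Fr a215 a23 l349 (V t97)) N))))))))) N))))))))))) (K a235 (M a215 (L l475 (F (T t2680 (L l7 (L l337 (L l469 (T t97 (T t211 (K a87 (M a171 (F (T t2680 (L l7 (L l337 (L l469 (T t97 (T t211 N)))))))) (K a171 (M a87 (L l219 (L l391 (F (T t504 (L l266 (L l273 (L l453 (T t210 (T t211 (K a151 (M a191 (L l391 (F (T t5055 (L l7 (L l337 (L l373 (L l469 (T t97 (K a43 (Fr a107 a127 l143 (V t5055)) (K a107 (M a43 (F (T t5055 (L l7 (L l337 (L l373 (L l469 (T t97 N)))))))) N))))))))))) (K a43 (Fr a107 a127 l143 (V t210)) (K a107 (M a43 (L l219 (F (T t2680 (L l174 (L l221 (L l477 (T t5056 (K a151 (M a191 (F (T t5055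 (L l7 (L l337 (L l373 (L l469 (T t97 N)))))))) (K a191 (Fr a151 a23 l349 (V t97)) N)))))))))) (K a191 (Fr a151 a23 l349 (V t97)) N)))))))))))))) N))))))))))) N)))))))))))))) (K a87 (M a171 (L l295 (L l307 (F (T t112 (L l266 (L l273 (L l453 (T t210 (T t211 (K a67 (M a131 (L l143 (L l295 (F (T t112 (L l349 (T t5047 (K a215 (M a235 (L l143 (L l349 (F (T t504 (L l266 (L l273 (L l453 (T t210 (T t211 (K a23 (Fr a151 a191 l219 (V t210)) (K a151 (M a23 (L l143 (F (L l76 (T t1805 (L l350 (T t5048 (K a107 (M a127 (F (T t3693 (L l7 (L l337 (L l373 (L l469 (T t97 N)))))))) (K a127 (Fr a107 a43 l391 (V t97)) N))))))))) (K a107 (M a127 (L l349 (F (T t1170 (L l7 (L l337 (L l469 (T t97 (K a23 (Fr a151 a191 l219 (V t1170)) (K a151 (M a23 (F (T t3693 (L l7 (L l337 (L l373 (L l469 (T t97 N)))))))) N)))))))))) (K a127 (Fr a107 a43 l391 (V t97)) N)))))))))))))) (K a107 (M a127 (L l295 (F (T t3693 (L l7 (L l337 (L l469 (T t97 (K a215 (M a235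 (L l349 (F (T t1170 (L l7 (L l337 (L l469 (T t97 (K a23 (Fr a151 a191 l219 (V t1170)) (K a151 (M a23 (F (T t3693 (L l7 (L l337 (L l373 (L l469 (T t97 N)))))))) N)))))))))) (K a235 (M a215 (F (T t3693 (L l7 (L l337 (L l469 (T t97 N))))))) N)))))))))) (K a235 (M a215 (L l143 (F (T t112 (T t5047 (K a107 (M a127 (F (T t3693 (L l7 (L l337 (L l469 (T t97 N))))))) (K a127 (M a107 (F (T t504 (L l144 (T t5047 N))))) N))))))) (K a127 (M a107 (L l295 (F (T t112 (L l76 (L l144 (L l349 (T t5049 (K a215 (Fr a235 a43 l391 (V t97)) (K a235 (M a215 (F (T t504 (L l144 (T t5047 N))))) N)))))))))) N))))))))))) (K a131 (M a67 (L l295 (F (T t2680 (L l7 (L l337 (L l469 (T t97 (T t211 (K a215 (M a235 (L l349 (F (T t2680 (T t5051 (K a23 (M a151 (F (T t2680 (L l351 (T t5051 N))))) (K a151 (M a23 (F (T t2680 (L l163 (T t5051 N))))) N))))))) (K a235 (M a215 (F (T t2680 (L l7 (L l337 (L l469 (T t97 (T t211 N)))))))) N))))))))))) (K a215 (M a235 (L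 l307 (L l349 (F (T t1805 (L l143 (T t5051 (K a67 (M a131 (L l143 (L l349 (F (T t504 (L l266 (L l273 (L l453 (T t210 (T t211 (K a23 (Fr a151 a191 l219 (V t210)) (K a151 (M a23 (L l143 (F (L l76 (T t1805 (L l350 (T t5048 (K a107 (M a127 (F (T t3693 (L l7 (L l337 (L l373 (L l469 (T t97 N)))))))) (K a127 (Fr a107 a43 l391 (V t97)) N))))))))) (K a107 (M a127 (L l349 (F (T t1170 (L l7 (L l337 (L l469 (T t97 (K a23 (Fr a151 a191 l219 (V t1170)) (K a151 (M a23 (F (T t3693 (L l7 (L l337 (L l373 (L l469 (T t97 N)))))))) N)))))))))) (K a127 (Fr a107 a43 l391 (V t97)) N)))))))))))))) (K a131 (M a67 (L l349 (F (T t2680 (T t5051 (K a23 (M a151 (F (T t2680 (L l351 (T t5051 N))))) (K a151 (M a23 (F (T t2680 (L l163 (T t5051 N))))) N))))))) (K a23 (M a151 (L l307 (F (T t1805 (L l143 (L l351 (T t5051 (K a67 (Fr a131 a191 l219 (V t210)) (K a131 (M a67 (F (T t2680 (L l351 (T t5051 N))))) N))))))))) (K a151 (M a23 (L l307 (F (T t1805 (L l143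 (L l163 (T t5051 (K a67 (M a131 (L l143 (F (L l76 (T t1805 (L l350 (T t5048 (K a107 (M a127 (F (T t3693 (L l7 (L l337 (L l373 (L l469 (T t97 N)))))))) (K a127 (Fr a107 a43 l391 (V t97)) N))))))))) (K a131 (M a67 (F (T t2680 (L l163 (T t5051 N))))) N))))))))) N))))))))))) (K a235 (M a215 (L l307 (F (T t112 (L l266 (L l273 (L l453 (T t210 (T t211 (K a67 (M a131 (L l143 (F (T t112 (T t5047 (K a107 (M a127 (F (T t3693 (L l7 (L l337 (L l469 (T t97 N))))))) (K a127 (M a107 (F (T t504 (L l144 (T t5047 N))))) N))))))) (K a131 (M a67 (F (T t2680 (L l7 (L l337 (L l469 (T t97 (T t211 N)))))))) N))))))))))) N)))))))))))))) (K a215 (M a235 (L l307 (L l475 (F (T t112 (L l266 (L l273 (L l453 (T t210 (T t211 (K a67 (M a131 (L l475 (F (T t504 (L l266 (L l273 (L l453 (T t210 (T t211 (K a87 (M a171 (L l143 (L l349 (F (T t504 (L l266 (L l273 (L l453 (T t210 (T t211 (K a23 (Fr a151 a191 l219 (V t210)) (K a151 (M a23 (L l143 (F (L l76 (T t1805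 (L l350 (T t5048 (K a107 (M a127 (F (T t3693 (L l7 (L l337 (L l373 (L l469 (T t97 N)))))))) (K a127 (Fr a107 a43 l391 (V t97)) N))))))))) (K a107 (M a127 (L l349 (F (T t1170 (L l7 (L l337 (L l469 (T t97 (K a23 (Fr a151 a191 l219 (V t1170)) (K a151 (M a23 (F (T t3693 (L l7 (L l337 (L l373 (L l469 (T t97 N)))))))) N)))))))))) (K a127 (Fr a107 a43 l391 (V t97)) N)))))))))))))) (K a171 (M a87 (F (T t504 (L l266 (L l273 (L l453 (T t210 (T t211 N)))))))) N))))))))))) (K a131 (M a67 (L l475 (F (T t2680 (L l7 (L l337 (L l469 (T t97 (T t211 (K a87 (M a171 (L l349 (F (T t2680 (T t5051 (K a23 (M a151 (F (T t2680 (L l351 (T t5051 N))))) (K a151 (M a23 (F (T t2680 (L l163 (T t5051 N))))) N))))))) (K a171 (M a87 (L l219 (F (T t112 (T t5052 (K a151 (M a191 (F (T t5053 (L l7 (L l337 (L l373 (L l469 (T t97 N)))))))) (K a191 (M a151 (F (T t112 (L l152 (L l220 (T t5054 N)))))) N))))))) N))))))))))) (K a87 (M a171 (L l307 (L l349 (F (T t1805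 (L l143 (T t5051 (K a67 (M a131 (L l143 (L l349 (F (T t504 (L l266 (L l273 (L l453 (T t210 (T t211 (K a23 (Fr a151 a191 l219 (V t210)) (K a151 (M a23 (L l143 (F (L l76 (T t1805 (L l350 (T t5048 (K a107 (M a127 (F (T t3693 (L l7 (L l337 (L l373 (L l469 (T t97 N)))))))) (K a127 (Fr a107 a43 l391 (V t97)) N))))))))) (K a107 (M a127 (L l349 (F (T t1170 (L l7 (L l337 (L l469 (T t97 (K a23 (Fr a151 a191 l219 (V t1170)) (K a151 (M a23 (F (T t3693 (L l7 (L l337 (L l373 (L l469 (T t97 N)))))))) N)))))))))) (K a127 (Fr a107 a43 l391 (V t97)) N)))))))))))))) (K a131 (M a67 (L l349 (F (T t2680 (T t5051 (K a23 (M a151 (F (T t2680 (L l351 (T t5051 N))))) (K a151 (M a23 (F (T t2680 (L l163 (T t5051 N))))) N))))))) (K a23 (M a151 (L l307 (F (T t1805 (L l143 (L l351 (T t5051 (K a67 (Fr a131 a191 l219 (V t210)) (K a131 (M a67 (F (T t2680 (L l351 (T t5051 N))))) N))))))))) (K a151 (M a23 (L l307 (F (T t1805 (L l143 (L l163 (T t5051 (K a67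 (M a131 (L l143 (F (L l76 (T t1805 (L l350 (T t5048 (K a107 (M a127 (F (T t3693 (L l7 (L l337 (L l373 (L l469 (T t97 N)))))))) (K a127 (Fr a107 a43 l391 (V t97)) N))))))))) (K a131 (M a67 (F (T t2680 (L l163 (T t5051 N))))) N))))))))) N))))))))))) (K a171 (M a87 (L l307 (F (T t112 (L l266 (L l273 (L l453 (T t210 (T t211 (K a67 (M a131 (F (T t504 (L l266 (L l273 (L l453 (T t210 (T t211 N)))))))) (K a131 (M a67 (L l219 (F (T t112 (T t5052 (K a151 (M a191 (F (T t5053 (L l7 (L l337 (L l373 (L l469 (T t97 N)))))))) (K a191 (M a151 (F (T t112 (L l152 (L l220 (T t5054 N)))))) N))))))) N))))))))))) N)))))))))))))) (K a171 (M a87 (L l295 (L l307 (F (T t112 (L l266 (L l273 (L l453 (T t210 (T t211 (K a67 (M a131 (L l295 (F (T t504 (L l266 (L l273 (L l453 (T t210 (T t211 (K a215 (M a235 (F (T t504 (L l266 (L l273 (L l453 (T t210 (T t211 N)))))))) (K a235 (M a215 (L l391 (F (T t5050 (L l266 (L l273 (L l453 (T t210 (K a43 (M a107 (F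 (L l76 (T t1805 (L l393 (T t5050 N)))))) (K a107 (M a43 (F (L l76 (T t2680 (L l98 (T t5050 N)))))) N)))))))))) N))))))))))) (K a131 (M a67 (L l219 (L l295 (F (T t112 (L l391 (T t5052 (K a151 (M a191 (L l295 (F (T t5055 (L l7 (L l337 (L l373 (L l469 (T t97 (K a215 (M a235 (F (T t5053 (L l7 (L l337 (L l373 (L l469 (T t97 N)))))))) (K a235 (M a215 (L l391 (F (T t5055 (L l7 (L l337 (L l373 (L l469 (T t97 (K a43 (Fr a107 a127 l143 (V t5055)) (K a107 (M a43 (F (T t5055 (L l7 (L l337 (L l373 (L l469 (T t97 N)))))))) N))))))))))) N))))))))))) (K a215 (M a235 (L l219 (F (T t112 (T t5052 (K a151 (M a191 (F (T t5053 (L l7 (L l337 (L l373 (L l469 (T t97 N)))))))) (K a191 (M a151 (F (T t112 (L l152 (L l220 (T t5054 N)))))) N))))))) (K a235 (M a215 (L l219 (L l391 (F (T t504 (L l266 (L l273 (L l453 (T t210 (T t211 (K a151 (M a191 (L l391 (F (T t5055 (L l7 (L l337 (L l373 (L l469 (T t97 (K a43 (Fr a107 a127 l143 (V t5055)) (K a107 (M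 a43 (F (T t5055 (L l7 (L l337 (L l373 (L l469 (T t97 N)))))))) N))))))))))) (K a43 (Fr a107 a127 l143 (V t210)) (K a107 (M a43 (L l219 (F (T t2680 (L l174 (L l221 (L l477 (T t5056 (K a151 (M a191 (F (T t5055 (L l7 (L l337 (L l373 (L l469 (T t97 N)))))))) (K a191 (Fr a151 a23 l349 (V t97)) N)))))))))) (K a191 (Fr a151 a23 l349 (V t97)) N)))))))))))))) (K a191 (M a151 (L l295 (F (T t504 (L l220 (L l391 (T t5052 (K a215 (M a235 (F (T t112 (L l152 (L l220 (T t5054 N)))))) (K a235 (Fr a215 a23 l349 (V t97)) N))))))))) N))))))))))) (K a215 (M a235 (L l307 (F (T t112 (L l266 (L l273 (L l453 (T t210 (T t211 (K a67 (M a131 (F (T t504 (L l266 (L l273 (L l453 (T t210 (T t211 N)))))))) (K a131 (M a67 (L l219 (F (T t112 (T t5052 (K a151 (M a191 (F (T t5053 (L l7 (L l337 (L l373 (L l469 (T t97 N)))))))) (K a191 (M a151 (F (T t112 (L l152 (L l220 (T t5054 N)))))) N))))))) N))))))))))) (K a235 (M a215 (L l307 (L l391 (F (T t1805 (L l219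 (T t5050 (K a67 (M a131 (L l391 (F (T t5050 (L l266 (L l273 (L l453 (T t210 (K a43 (M a107 (F (L l76 (T t1805 (L l393 (T t5050 N)))))) (K a107 (M a43 (F (L l76 (T t2680 (L l98 (T t5050 N)))))) N)))))))))) (K a131 (M a67 (L l219 (L l391 (F (T t504 (L l266 (L l273 (L l453 (T t210 (T t211 (K a151 (M a191 (L l391 (F (T t5055 (L l7 (L l337 (L l373 (L l469 (T t97 (K a43 (Fr a107 a127 l143 (V t5055)) (K a107 (M a43 (F (T t5055 (L l7 (L l337 (L l373 (L l469 (T t97 N)))))))) N))))))))))) (K a43 (Fr a107 a127 l143 (V t210)) (K a107 (M a43 (L l219 (F (T t2680 (L l174 (L l221 (L l477 (T t5056 (K a151 (M a191 (F (T t5055 (L l7 (L l337 (L l373 (L l469 (T t97 N)))))))) (K a191 (Fr a151 a23 l349 (V t97)) N)))))))))) (K a191 (Fr a151 a23 l349 (V t97)) N)))))))))))))) (K a43 (M a107 (L l307 (F (T t2680 (L l219 (L l393 (T t5050 (K a67 (M a131 (F (L l76 (T t1805 (L l393 (T t5050 N)))))) (K a131 (Fr a67 a127 l143 (V t210)) N))))))))) (K a107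 (M a43 (L l307 (F (T t1805 (L l98 (L l219 (T t5050 (K a67 (M a131 (F (L l76 (T t2680 (L l98 (T t5050 N)))))) (K a131 (M a67 (L l219 (F (T t2680 (L l174 (L l221 (L l477 (T t5056 (K a151 (M a191 (F (T t5055 (L l7 (L l337 (L l373 (L l469 (T t97 N)))))))) (K a191 (Fr a151 a23 l349 (V t97)) N)))))))))) N))))))))) N))))))))))) N)))))))))))))) (K a235 (M a215 (L l307 (L l475 (F (T t112 (L l266 (L l273 (L l453 (T t210 (T t211 (K a67 (M a131 (L l475 (F (T t504 (L l266 (L l273 (L l453 (T t210 (T t211 (K a87 (M a171 (L l143 (F (T t112 (T t5047 (K a107 (M a127 (F (T t3693 (L l7 (L l337 (L l469 (T t97 N))))))) (K a127 (M a107 (F (T t504 (L l144 (T t5047 N))))) N))))))) (K a171 (M a87 (L l391 (F (T t5050 (L l266 (L l273 (L l453 (T t210 (K a43 (M a107 (F (L l76 (T t1805 (L l393 (T t5050 N)))))) (K a107 (M a43 (F (L l76 (T t2680 (L l98 (T t5050 N)))))) N)))))))))) N))))))))))) (K a131 (M a67 (L l475 (F (T t2680 (L l7 (L l337 (L l469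 (T t97 (T t211 (K a87 (M a171 (F (T t2680 (L l7 (L l337 (L l469 (T t97 (T t211 N)))))))) (K a171 (M a87 (L l219 (L l391 (F (T t504 (L l266 (L l273 (L l453 (T t210 (T t211 (K a151 (M a191 (L l391 (F (T t5055 (L l7 (L l337 (L l373 (L l469 (T t97 (K a43 (Fr a107 a127 l143 (V t5055)) (K a107 (M a43 (F (T t5055 (L l7 (L l337 (L l373 (L l469 (T t97 N)))))))) N))))))))))) (K a43 (Fr a107 a127 l143 (V t210)) (K a107 (M a43 (L l219 (F (T t2680 (L l174 (L l221 (L l477 (T t5056 (K a151 (M a191 (F (T t5055 (L l7 (L l337 (L l373 (L l469 (T t97 N)))))))) (K a191 (Fr a151 a23 l349 (V t97)) N)))))))))) (K a191 (Fr a151 a23 l349 (V t97)) N)))))))))))))) N))))))))))) (K a87 (M a171 (L l307 (F (T t112 (L l266 (L l273 (L l453 (T t210 (T t211 (K a67 (M a131 (L l143 (F (T t112 (T t5047 (K a107 (M a127 (F (T t3693 (L l7 (L l337 (L l469 (T t97 N))))))) (K a127 (M a107 (F (T t504 (L l144 (T t5047 N))))) N))))))) (K a131 (M a67 (F (T t2680 (L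 l7 (L l337 (L l469 (T t97 (T t211 N)))))))) N))))))))))) (K a171 (M a87 (L l307 (L l391 (F (T t1805 (L l219 (T t5050 (K a67 (M a131 (L l391 (F (T t5050 (L l266 (L l273 (L l453 (T t210 (K a43 (M a107 (F (L l76 (T t1805 (L l393 (T t5050 N)))))) (K a107 (M a43 (F (L l76 (T t2680 (L l98 (T t5050 N)))))) N)))))))))) (K a131 (M a67 (L l219 (L l391 (F (T t504 (L l266 (L l273 (L l453 (T t210 (T t211 (K a151 (M a191 (L l391 (F (T t5055 (L l7 (L l337 (L l373 (L l469 (T t97 (K a43 (Fr a107 a127 l143 (V t5055)) (K a107 (M a43 (F (T t5055 (L l7 (L l337 (L l373 (L l469 (T t97 N)))))))) N))))))))))) (K a43 (Fr a107 a127 l143 (V t210)) (K a107 (M a43 (L l219 (F (T t2680 (L l174 (L l221 (L l477 (T t5056 (K a151 (M a191 (F (T t5055 (L l7 (L l337 (L l373 (L l469 (T t97 N)))))))) (K a191 (Fr a151 a23 l349 (V t97)) N)))))))))) (K a191 (Fr a151 a23 l349 (V t97)) N)))))))))))))) (K a43 (M a107 (L l307 (F (T t2680 (L l219 (L l393 (T t5050 (K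 a67 (M a131 (F (L l76 (T t1805 (L l393 (T t5050 N)))))) (K a131 (Fr a67 a127 l143 (V t210)) N))))))))) (K a107 (M a43 (L l307 (F (T t1805 (L l98 (L l219 (T t5050 (K a67 (M a131 (F (L l76 (T t2680 (L l98 (T t5050 N)))))) (K a131 (M a67 (L l219 (F (T t2680 (L l174 (L l221 (L l477 (T t5056 (K a151 (M a191 (F (T t5055 (L l7 (L l337 (L l373 (L l469 (T t97 N)))))))) (K a191 (Fr a151 a23 l349 (V t97)) N)))))))))) N))))))))) N))))))))))) N)))))))))))))) N))))))))))))))))) (K a67 (M a131 (F (T t57 (L l76 (L l477 (T t5057 (L l295 (L l475 (L l518 (T t5058 (K a128 (M a48 (F (T t132 (L l235 (L l331 (T t22 (L l192 (L l220 (T t525 N))))))))) (K a85 (M a16 (F (T t504 (L l273 (L l453 (T t210 (L l94 (L l144 (T t211 N))))))))) (K a149 (M a145 (F (L l76 (T t5059 (L l9 (L l338 (L l347 (L l495 (T t5060 N))))))))) (K a106 (M a144 (F (L l104 (T t5061 (L l76 (L l144 (L l453 (L l487 (T t5029 N))))))))) N)))))))))))))) (K a131 (M a67 (F (T t1681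 (L l152 (L l477 (T t5062 (L l295 (L l475 (T t5063 (K a64 (M a48 (F (T t48 (L l116 (L l144 (L l235 (L l331 (T t22 (T t525 N))))))))) (K a149 (M a96 (F (L l170 (T t5064 (L l152 (L l220 (L l453 (L l487 (T t5065 N))))))))) (K a106 (M a98 (F (L l152 (T t5066 (L l9 (L l338 (T t5067 N))))))) (K a170 (M a80 (F (L l197 (L l273 (L l453 (T t5068 (L l7 (L l180 (L l337 (L l390 (T t5069 (L l152 (L l220 (L l451 (L l488 (T t5044 N)))))))))))))))) N))))))))))))) N)))))))))))))))))))))))))))⟩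
def e0_63__195_2 : Ent 4 := ⟨[a0, a63], [a195, a4], (M a48 (F (T t610 (L l50 (L l337 (T t1 (L l1 (L l337 (T t2 (L l50 (L l337 (T t3 (L l337 (T t0 (K a16 (M a60 (F (T t138 (L l307 (T t43 (L l1 (T t65 N))))))) (K a32 (M a60 (F (T t138 (L l24 (L l28 (L l307 (T t43 (L l1 (L l24 (L l28 (T t65 N))))))))))) (K a21 (M a192 (L l50 (F (T t54 (L l273 (T t27 (L l47 (L l347 (T t29 (K a38 (M a55 (F (T t2113 (L l237 (L l310 (T t66 N)))))) (K a55 (M a38 (F (T t2113 (L l31 (L l47 (L l235 (L l347 (L l495 (T t20 (L l18 (T t46 N))))))))))) N))))))))))) (K a37 (M a192 (F (T t54 (L l273 (T t27 (L l295 (T t21 N))))))) (K a53 (M a192 (F (T t55 (L l295 (L l491 (T t21 (T t31 N))))))) (K a26 (M a192 (F (T t56 (L l273 (T t27 (L l295 (T t21 N))))))) (K a42 (M a192 (F (T t56 (L l273 (T t27 (L l28 (T t29 N))))))) (K a58 (M a192 (F (T t1922 (L l295 (T t21 (L l54 (L l498 (T t31 N)))))))) (K a15 (M a192 (L l337 (F (T t33 (L l273 (L l483 (T t27 (L l295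 (L l469 (T t21 (K a135 (M a75 (F (T t1800 (L l235 (L l325 (T t22 (L l273 (L l483 (T t28 N))))))))) (K a75 (M a135 (F (T t1800 (L l235 (L l325 (T t22 (L l273 (L l483 (T t28 N))))))))) N)))))))))))) N)))))))))))))))))))))))⟩
def e0_63__195_3 : Ent 4 := ⟨[a0, a63], [a195, a5], (M a60 (F (T t522 (L l47 (L l307 (T t67 (L l307 (T t43 (L l47 (L l307 (T t68 (L l5 (L l307 (T t69 (K a20 (M a48 (F (T t277 (L l11 (L l14 (L l47 (L l337 (T t3 (L l46 (T t71 N)))))))))) (K a40 (M a48 (F (L l487 (T t70 (L l47 (L l337 (T t3 (L l22 (L l24 (T t71 N)))))))))) (K a21 (M a84 (L l47 (F (T t4857 (L l65 (L l295 (T t4858 (L l295 (T t5070 (L l65 (L l228 (T t5071 (K a37 (M a53 (F (T t4857 (L l50 (L l71 (L l487 (T t937 N))))))) (K a53 (M a37 (F (T t4857 (L l295 (T t5072 (L l295 (T t5070 (L l35 (L l65 (L l228 (T t5071 N))))))))))) N)))))))))))))) (K a41 (M a192 (F (T t1334 (L l47 (L l65 (L l295 (T t35 (L l22 (T t80 N))))))))) (K a61 (M a192 (F (T t1334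 (L l47 (L l65 (L l295 (L l515 (T t35 (T t80 N))))))))) (K a22 (M a192 (F (T t2658 (L l295 (T t21 (L l66 (T t80 N))))))) (K a42 (M a48 (F (T t3520 (L l47 (L l487 (T t64 (L l47 (L l56 (L l338 (T t288 (L l1 (L l22 (L l28 (L l54 (L l66 (L l338 (T t250 N))))))))))))))))) (K a62 (M a192 (F (T t2658 (L l47 (L l295 (T t35 (L l66 (L l516 (T t80 N))))))))) (K a3 (M a192 (L l307 (F (T t1800 (L l297 (L l477 (T t79 (T t80 (K a67 (M a131 (F (T t1334 (L l47 (L l295 (L l475 (T t35 (L l47 (L l143 (T t2549 N)))))))))) (K a131 (M a67 (F (T t1681 (L l221 (L l297 (L l477 (T t1333 (L l47 (T t2549 N))))))))) N)))))))))) N)))))))))))))))))))))))⟩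
def e0_63__195_4 : Ent 4 := ⟨[a0, a63], [a195, a6], (M a48 (F (T t607 (L l6 (L l337 (T t1 (L l1 (L l337 (T t2 (L l337 (T t3 (L l337 (T t0 (K a16 (M a60 (F (T t138 (L l9 (L l14 (L l18 (L l307 (T t67 (L l1 (T t65 N)))))))))) (K a32 (M a60 (F (T t138 (L l9 (L l307 (T t67 (L l1 (L l24 (L l28 (T t65 N)))))))))) (K a21 (M a192 (F (T t54 (L l273 (T t27 (L l47 (L l347 (T t29 N)))))))) (K a37 (M a192 (F (T t53 (L l273 (T t27 (L l295 (T t21 N))))))) (K a53 (M a192 (F (T t55 (L l295 (L l491 (T t21 (T t31 N))))))) (K a26 (M a192 (F (T t33 (L l273 (T t27 (L l295 (T t21 N))))))) (K a42 (M a192 (F (T t56 (L l273 (T t27 (L l28 (T t29 N))))))) (K a58 (M a192 (F (T t57 (L l273 (T t27 (L l54 (L l498 (T t31 N)))))))) (K a15 (M a192 (L l337 (F (T t47 (L l273 (L l483 (T t27 (L l235 (L l325 (T t20 (K a135 (M a75 (F (T t1800 (L l235 (L l325 (T t22 (L l273 (L l483 (T t28 N))))))))) (K a75 (M a135 (F (T t1800 (L l235 (L l325 (T t22 (L l273 (L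 l483 (T t28 N))))))))) N)))))))))))) N))))))))))))))))))))))⟩
def e0_63__195_5 : Ent 4 := ⟨[a0, a63], [a195, a7], (M a12 (F (T t1252 (L l487 (T t122 (L l487 (T t151 (L l1 (L l487 (T t152 (L l49 (L l487 (T t153 (K a4 (M a5 (F (T t5073 (L l518 (T t1107 (T t3134 (T t3135 N))))))) (K a8 (M a60 (F (T t116 (T t423 (L l49 (L l52 (L l56 (T t448 N)))))))) (K a21 (M a192 (F (T t158 (L l237 (T t156 (L l15 (L l347 (L l457 (T t157 N))))))))) (K a25 (M a192 (F (T t155 (L l237 (T t156 (L l295 (T t21 N))))))) (K a29 (M a192 (F (T t1725 (L l295 (L l371 (T t21 (T t160 N))))))) (K a38 (M a192 (F (T t161 (L l237 (T t156 (L l295 (T t21 N))))))) (K a42 (M a192 (F (T t161 (L l237 (T t156 (L l56 (L l457 (T t157 N)))))))) (K a46 (M a192 (F (T t57 (L l237 (T t156 (L l26 (L l408 (T t160 N)))))))) (K a51 (M a170 (L l487 (F (T t4159 (L l1 (T t3682 (K a147 (M a99 (F (T t4159 (L l1 (T t3682 N))))) (K a99 (M a147 (F (T t4159 (L l1 (T t3682 N))))) N))))))))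 N))))))))))))))))))))))⟩
def e0_63__195_6 : Ent 4 := ⟨[a0, a63], [a195, a12], (M a192 (L l338 (F (T t47 (L l295 (L l470 (T t21 (L l295 (L l470 (T t35 (L l295 (L l470 (T t202 (L l295 (L l470 (T t37 (K a64 (M a48 (L l338 (F (T t56 (L l3 (L l337 (T t1 (L l116 (L l144 (T t31 (K a73 (M a134 (F (T t33 (L l3 (L l337 (T t0 (T t525 N))))))) (K a134 (M a73 (F (T t33 (L l3 (L l337 (T t0 (T t525 N))))))) N)))))))))))) (K a128 (M a48 (L l338 (F (T t54 (L l3 (L l337 (T t1 (T t31 (K a73 (M a134 (F (T t610 (L l235 (L l326 (T t22 (L l192 (L l220 (T t525 N))))))))) (K a134 (M a73 (F (T t610 (L l235 (L l326 (T t22 (L l192 (L l220 (T t525 N))))))))) N)))))))))) (K a21 (M a48 (L l338 (F (T t54 (L l273 (L l478 (T t27 (L l47 (L l347 (T t29 (K a73 (M a134 (F (T t1922 (L l235 (L l326 (T t22 (L l47 (L l347 (T t29 N))))))))) (K a134 (M a73 (F (T t1922 (L l235 (L l326 (T t22 (L l47 (L l347 (T t29 N))))))))) N)))))))))))) (K a85 (M a16 (L l338 (F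 (T t504 (L l273 (L l478 (T t210 (L l94 (L l144 (T t211 (K a73 (M a134 (F (T t504 (L l273 (L l478 (T t210 (L l94 (L l144 (T t211 N))))))))) (K a134 (M a73 (F (T t504 (L l273 (L l478 (T t210 (L l94 (L l144 (T t211 N))))))))) N)))))))))))) (K a149 (M a48 (L l338 (F (T t1922 (L l3 (L l337 (L l347 (L l491 (T t1 (L l3 (L l170 (L l220 (L l337 (L l347 (L l491 (T t213 (L l3 (L l337 (L l375 (T t214 (K a73 (M a134 (F (T t132 (L l273 (L l478 (T t837 (L l3 (L l170 (L l220 (L l337 (L l347 (L l491 (T t213 (L l3 (L l337 (L l375 (T t214 N))))))))))))))))) (K a134 (M a73 (F (T t132 (L l273 (L l478 (T t837 (L l3 (L l170 (L l220 (L l337 (L l347 (L l491 (T t213 (L l3 (L l337 (L l375 (T t214 N))))))))))))))))) N)))))))))))))))))))))) (K a42 (M a48 (L l338 (F (T t56 (L l273 (L l478 (T t27 (L l28 (T t29 (K a73 (M a134 (F (T t36 (L l235 (L l326 (L l390 (T t22 (L l28 (T t29 N))))))))) (K a134 (M a73 (F (T t36 (L l235 (L l326 (L l390 (T t22 (L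 l28 (T t29 N))))))))) N))))))))))) (K a106 (M a48 (L l338 (F (T t48 (L l273 (L l478 (T t27 (L l3 (L l337 (L l411 (T t213 (L l3 (L l104 (L l144 (L l337 (L l390 (L l498 (T t214 (K a73 (M a134 (F (T t55 (L l3 (L l337 (L l390 (T t0 (L l3 (L l337 (L l411 (T t213 (L l3 (L l104 (L l144 (L l337 (L l390 (L l498 (T t214 N)))))))))))))))))) (K a134 (M a73 (F (T t55 (L l3 (L l337 (L l390 (T t0 (L l3 (L l337 (L l411 (T t213 (L l3 (L l104 (L l144 (L l337 (L l390 (L l498 (T t214 N)))))))))))))))))) N)))))))))))))))))))) (K a170 (M a32 (L l338 (F (T t612 (L l273 (L l478 (T t218 (L l180 (L l220 (T t220 (K a73 (M a134 (F (T t612 (L l273 (L l478 (T t218 (L l180 (L l220 (T t220 N))))))))) (K a134 (M a73 (F (T t612 (L l273 (L l478 (T t218 (L l180 (L l220 (T t220 N))))))))) N)))))))))))) (K a255 (M a16 (L l295 (L l338 (L l470 (F (T t112 (L l266 (L l273 (L l478 (T t210 (T t211 (K a73 (M a134 (L l295 (L l470 (F (T t112 (L l266 (L l273 (L l478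 (T t210 (T t211 (K a93 (M a174 (L l295 (F (T t112 (L l266 (L l273 (L l478 (T t210 (T t211 (K a215 (M a235 (F (T t112 (L l266 (L l273 (L l478 (T t210 (T t211 N)))))))) (K a235 (M a215 (F (T t112 (L l266 (L l273 (L l478 (T t210 (T t211 N)))))))) N))))))))))) (K a174 (M a93 (L l295 (F (T t112 (L l266 (L l273 (L l478 (T t210 (T t211 (K a215 (M a235 (F (T t112 (L l266 (L l273 (L l478 (T t210 (T t211 N)))))))) (K a235 (M a215 (F (T t112 (L l266 (L l273 (L l478 (T t210 (T t211 N)))))))) N))))))))))) (K a215 (M a235 (L l470 (F (T t112 (L l266 (L l273 (L l478 (T t210 (T t211 (K a93 (M a174 (F (T t112 (L l266 (L l273 (L l478 (T t210 (T t211 N)))))))) (K a174 (M a93 (F (T t112 (L l266 (L l273 (L l478 (T t210 (T t211 N)))))))) N))))))))))) (K a235 (M a215 (L l470 (F (T t112 (L l266 (L l273 (L l478 (T t210 (T t211 (K a93 (M a174 (F (T t112 (L l266 (L l273 (L l478 (T t210 (T t211 N)))))))) (K a174 (M a93 (F (T t112 (L l266 (L l273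 (L l478 (T t210 (T t211 N)))))))) N))))))))))) N)))))))))))))) (K a93 (M a174 (L l295 (L l338 (F (T t112 (L l266 (L l273 (L l478 (T t210 (T t211 (K a73 (M a134 (L l295 (F (T t112 (L l266 (L l273 (L l478 (T t210 (T t211 (K a215 (M a235 (F (T t112 (L l266 (L l273 (L l478 (T t210 (T t211 N)))))))) (K a235 (M a215 (F (T t112 (L l266 (L l273 (L l478 (T t210 (T t211 N)))))))) N))))))))))) (K a134 (M a73 (L l295 (F (T t112 (L l266 (L l273 (L l478 (T t210 (T t211 (K a215 (M a235 (F (T t112 (L l266 (L l273 (L l478 (T t210 (T t211 N)))))))) (K a235 (M a215 (F (T t112 (L l266 (L l273 (L l478 (T t210 (T t211 N)))))))) N))))))))))) (K a215 (M a235 (L l338 (F (T t112 (L l266 (L l273 (L l478 (T t210 (T t211 (K a73 (M a134 (F (T t112 (L l266 (L l273 (L l478 (T t210 (T t211 N)))))))) (K a134 (M a73 (F (T t112 (L l266 (L l273 (L l478 (T t210 (T t211 N)))))))) N))))))))))) (K a235 (M a215 (L l338 (F (T t112 (L l266 (L l273 (L l478 (T t210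 (T t211 (K a73 (M a134 (F (T t112 (L l266 (L l273 (L l478 (T t210 (T t211 N)))))))) (K a134 (M a73 (F (T t112 (L l266 (L l273 (L l478 (T t210 (T t211 N)))))))) N))))))))))) N)))))))))))))) (K a134 (M a73 (L l295 (L l470 (F (T t112 (L l266 (L l273 (L l478 (T t210 (T t211 (K a93 (M a174 (L l295 (F (T t112 (L l266 (L l273 (L l478 (T t210 (T t211 (K a215 (M a235 (F (T t112 (L l266 (L l273 (L l478 (T t210 (T t211 N)))))))) (K a235 (M a215 (F (T t112 (L l266 (L l273 (L l478 (T t210 (T t211 N)))))))) N))))))))))) (K a174 (M a93 (L l295 (F (T t112 (L l266 (L l273 (L l478 (T t210 (T t211 (K a215 (M a235 (F (T t112 (L l266 (L l273 (L l478 (T t210 (T t211 N)))))))) (K a235 (M a215 (F (T t112 (L l266 (L l273 (L l478 (T t210 (T t211 N)))))))) N))))))))))) (K a215 (M a235 (L l470 (F (T t112 (L l266 (L l273 (L l478 (T t210 (T t211 (K a93 (M a174 (F (T t112 (L l266 (L l273 (L l478 (T t210 (T t211 N)))))))) (K a174 (M a93 (F (T t112 (L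 l266 (L l273 (L l478 (T t210 (T t211 N)))))))) N))))))))))) (K a235 (M a215 (L l470 (F (T t112 (L l266 (L l273 (L l478 (T t210 (T t211 (K a93 (M a174 (F (T t112 (L l266 (L l273 (L l478 (T t210 (T t211 N)))))))) (K a174 (M a93 (F (T t112 (L l266 (L l273 (L l478 (T t210 (T t211 N)))))))) N))))))))))) N)))))))))))))) (K a174 (M a93 (L l295 (L l338 (F (T t112 (L l266 (L l273 (L l478 (T t210 (T t211 (K a73 (M a134 (L l295 (F (T t112 (L l266 (L l273 (L l478 (T t210 (T t211 (K a215 (M a235 (F (T t112 (L l266 (L l273 (L l478 (T t210 (T t211 N)))))))) (K a235 (M a215 (F (T t112 (L l266 (L l273 (L l478 (T t210 (T t211 N)))))))) N))))))))))) (K a134 (M a73 (L l295 (F (T t112 (L l266 (L l273 (L l478 (T t210 (T t211 (K a215 (M a235 (F (T t112 (L l266 (L l273 (L l478 (T t210 (T t211 N)))))))) (K a235 (M a215 (F (T t112 (L l266 (L l273 (L l478 (T t210 (T t211 N)))))))) N))))))))))) (K a215 (M a235 (L l338 (F (T t112 (L l266 (L l273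 (L l478 (T t210 (T t211 (K a73 (M a134 (F (T t112 (L l266 (L l273 (L l478 (T t210 (T t211 N)))))))) (K a134 (M a73 (F (T t112 (L l266 (L l273 (L l478 (T t210 (T t211 N)))))))) N))))))))))) (K a235 (M a215 (L l338 (F (T t112 (L l266 (L l273 (L l478 (T t210 (T t211 (K a73 (M a134 (F (T t112 (L l266 (L l273 (L l478 (T t210 (T t211 N)))))))) (K a134 (M a73 (F (T t112 (L l266 (L l273 (L l478 (T t210 (T t211 N)))))))) N))))))))))) N)))))))))))))) (K a215 (M a235 (L l338 (L l470 (F (T t112 (L l266 (L l273 (L l478 (T t210 (T t211 (K a73 (M a134 (L l470 (F (T t112 (L l266 (L l273 (L l478 (T t210 (T t211 (K a93 (M a174 (F (T t112 (L l266 (L l273 (L l478 (T t210 (T t211 N)))))))) (K a174 (M a93 (F (T t112 (L l266 (L l273 (L l478 (T t210 (T t211 N)))))))) N))))))))))) (K a93 (M a174 (L l338 (F (T t112 (L l266 (L l273 (L l478 (T t210 (T t211 (K a73 (M a134 (F (T t112 (L l266 (L l273 (L l478 (T t210 (T t211 N)))))))) (K a134 (M a73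 (F (T t112 (L l266 (L l273 (L l478 (T t210 (T t211 N)))))))) N))))))))))) (K a134 (M a73 (L l470 (F (T t112 (L l266 (L l273 (L l478 (T t210 (T t211 (K a93 (M a174 (F (T t112 (L l266 (L l273 (L l478 (T t210 (T t211 N)))))))) (K a174 (M a93 (F (T t112 (L l266 (L l273 (L l478 (T t210 (T t211 N)))))))) N))))))))))) (K a174 (M a93 (L l338 (F (T t112 (L l266 (L l273 (L l478 (T t210 (T t211 (K a73 (M a134 (F (T t112 (L l266 (L l273 (L l478 (T t210 (T t211 N)))))))) (K a134 (M a73 (F (T t112 (L l266 (L l273 (L l478 (T t210 (T t211 N)))))))) N))))))))))) N)))))))))))))) (K a235 (M a215 (L l338 (L l470 (F (T t112 (L l266 (L l273 (L l478 (T t210 (T t211 (K a73 (M a134 (L l470 (F (T t112 (L l266 (L l273 (L l478 (T t210 (T t211 (K a93 (M a174 (F (T t112 (L l266 (L l273 (L l478 (T t210 (T t211 N)))))))) (K a174 (M a93 (F (T t112 (L l266 (L l273 (L l478 (T t210 (T t211 N)))))))) N))))))))))) (K a93 (M a174 (L l338 (F (T t112 (L l266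 (L l273 (L l478 (T t210 (T t211 (K a73 (M a134 (F (T t112 (L l266 (L l273 (L l478 (T t210 (T t211 N)))))))) (K a134 (M a73 (F (T t112 (L l266 (L l273 (L l478 (T t210 (T t211 N)))))))) N))))))))))) (K a134 (M a73 (L l470 (F (T t112 (L l266 (L l273 (L l478 (T t210 (T t211 (K a93 (M a174 (F (T t112 (L l266 (L l273 (L l478 (T t210 (T t211 N)))))))) (K a174 (M a93 (F (T t112 (L l266 (L l273 (L l478 (T t210 (T t211 N)))))))) N))))))))))) (K a174 (M a93 (L l338 (F (T t112 (L l266 (L l273 (L l478 (T t210 (T t211 (K a73 (M a134 (F (T t112 (L l266 (L l273 (L l478 (T t210 (T t211 N)))))))) (K a134 (M a73 (F (T t112 (L l266 (L l273 (L l478 (T t210 (T t211 N)))))))) N))))))))))) N)))))))))))))) N))))))))))))))))) (K a73 (M a134 (F (T t47 (L l295 (L l470 (T t21 (L l295 (L l470 (T t35 (L l295 (L l470 (T t202 (L l295 (L l470 (T t37 (K a64 (M a148 (F (L l140 (T t5074 (L l144 (L l335 (T t5075 N))))))) (K a128 (M a148 (F (T t5074 (L l160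 (L l335 (T t5075 N)))))) (K a21 (M a148 (F (T t5076 (L l335 (T t5075 N))))) (K a85 (M a129 (F (L l58 (L l350 (L l518 (T t2673 (L l144 (L l320 (L l322 (T t5077 N)))))))))) (K a149 (M a129 (F (L l58 (L l518 (T t2673 (L l320 (L l322 (T t5077 N)))))))) (K a42 (M a148 (F (T t5076 (L l335 (L l390 (T t5075 N)))))) (K a106 (M a129 (F (L l142 (T t2675 (L l144 (L l320 (L l322 (T t5077 N)))))))) (K a170 (M a148 (F (T t5076 (L l335 (L l390 (T t5075 N)))))) (K a255 (M a4 (L l295 (L l470 (F (L l235 (L l320 (T t5078 (L l74 (T t4217 (K a93 (M a174 (L l295 (F (L l235 (L l320 (T t5079 (L l74 (T t4217 (K a215 (M a235 (F (L l235 (L l277 (L l320 (T t5079 (L l74 (T t4217 N)))))))) (K a235 (M a215 (F (L l235 (L l320 (T t5079 (L l74 (T t4217 N))))))) N)))))))))) (K a174 (M a93 (L l295 (F (L l235 (L l320 (T t5078 (L l74 (T t4217 (K a215 (M a235 (F (L l235 (L l277 (L l320 (T t5078 (L l74 (T t4217 N)))))))) (K a235 (M a215 (F (L l235 (L l320 (T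 t5078 (L l74 (T t4217 N))))))) N)))))))))) (K a215 (M a235 (L l470 (F (L l235 (L l277 (L l320 (T t5078 (L l74 (T t4217 (K a93 (M a174 (F (L l235 (L l277 (L l320 (T t5079 (L l74 (T t4217 N)))))))) (K a174 (M a93 (F (L l235 (L l277 (L l320 (T t5078 (L l74 (T t4217 N)))))))) N))))))))))) (K a235 (M a215 (L l470 (F (L l235 (L l320 (T t5078 (L l74 (T t4217 (K a93 (M a174 (F (L l235 (L l320 (T t5079 (L l74 (T t4217 N))))))) (K a174 (M a93 (F (L l235 (L l320 (T t5078 (L l74 (T t4217 N))))))) N)))))))))) N))))))))))))) N)))))))))))))))))))))))) (K a134 (M a73 (F (T t47 (L l295 (L l470 (T t21 (L l295 (L l470 (T t35 (L l295 (L l470 (T t202 (L l295 (L l470 (T t37 (K a64 (M a104 (F (T t5080 (L l84 (L l336 (T t5081 N)))))) (K a128 (M a104 (F (L l216 (T t5080 (L l220 (L l336 (T t5081 N))))))) (K a21 (M a68 (F (L l307 (T t5082 (L l74 (L l347 (L l487 (T t5083 N)))))))) (K a85 (M a68 (F (L l347 (T t5084 (L l307 (L l336 (T t5085 N)))))))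 (K a149 (M a66 (F (L l217 (T t5086 (L l220 (L l314 (L l322 (T t5087 N)))))))) (K a42 (M a68 (F (T t5084 (L l307 (L l336 (T t5085 N)))))) (K a106 (M a66 (F (L l58 (L l518 (T t3394 (L l314 (L l322 (T t5087 N)))))))) (K a170 (M a209 (F (L l74 (L l178 (L l487 (T t5088 (L l153 (L l390 (T t5089 N))))))))) (K a255 (M a68 (L l295 (L l470 (F (T t5084 (L l307 (L l336 (T t5085 (K a93 (M a174 (L l295 (F (L l307 (T t5082 (L l74 (L l359 (L l439 (L l487 (T t1481 (K a215 (M a235 (F (L l307 (T t5082 (L l74 (L l359 (L l439 (L l487 (T t1481 N))))))))) (K a235 (M a215 (F (L l307 (T t5082 (L l74 (L l359 (L l439 (L l487 (T t1481 N))))))))) N)))))))))))) (K a174 (M a93 (L l295 (F (L l307 (T t5082 (L l74 (L l396 (L l439 (L l487 (T t5090 (K a215 (M a235 (F (L l307 (T t5082 (L l74 (L l396 (L l439 (L l487 (T t5090 N))))))))) (K a235 (M a215 (F (L l307 (T t5082 (L l74 (L l396 (L l439 (L l487 (T t5090 N))))))))) N)))))))))))) (K a215 (M a235 (L l470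 (F (T t5084 (L l307 (L l336 (T t5085 (K a93 (M a174 (F (L l307 (T t5082 (L l74 (L l359 (L l439 (L l487 (T t1481 N))))))))) (K a174 (M a93 (F (L l307 (T t5082 (L l74 (L l396 (L l439 (L l487 (T t5090 N))))))))) N))))))))) (K a235 (M a215 (L l470 (F (T t5084 (L l307 (L l336 (T t5085 (K a93 (M a174 (F (L l307 (T t5082 (L l74 (L l359 (L l439 (L l487 (T t1481 N))))))))) (K a174 (M a93 (F (L l307 (T t5082 (L l74 (L l396 (L l439 (L l487 (T t5090 N))))))))) N))))))))) N)))))))))))) N)))))))))))))))))))))))) N)))))))))))))))))))))))))))⟩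
def e0_63__195_7 : Ent 4 := ⟨[a0, a63], [a195, a13], (M a48 (F (T t48 (L l3 (L l337 (T t1 (L l3 (L l5 (L l337 (T t2 (L l3 (L l337 (T t3 (L l3 (L l337 (T t0 (K a16 (M a60 (F (T t522 (L l59 (L l487 (T t64 (L l5 (T t65 N)))))))) (K a32 (M a60 (F (T t277 (L l307 (T t67 (L l5 (L l24 (L l28 (T t65 N))))))))) (K a21 (M a192 (F (T t54 (L l273 (T t27 (L l47 (L l347 (T t29 N)))))))) (K a37 (M a49 (F (L l28 (T t296 (L l59 (L l518 (T t142 (L l25 (L l28 (T t144 N)))))))))) (K a53 (M a192 (F (T t55 (L l295 (L l491 (T t21 (T t31 N))))))) (K a26 (M a192 (F (T t33 (L l273 (T t27 (L l295 (T t21 N))))))) (K a42 (M a192 (F (T t56 (L l273 (T t27 (L l28 (T t29 N))))))) (K a58 (M a192 (F (T t57 (L l273 (T t27 (L l54 (L l498 (T t31 N)))))))) (K a15 (M a12 (L l337 (F (T t145 (L l59 (L l73 (L l487 (T t122 (L l59 (L l73 (T t146 (K a135 (M a75 (F (T t2061 (L l63 (L l518 (T t445 (L l59 (L l73 (T t146 N))))))))) (K a75 (M a135 (F (T t2061 (L l63 (L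 l518 (T t445 (L l59 (L l73 (T t146 N))))))))) N))))))))))))) N)))))))))))))))))))))))))⟩
def e0_63__195_8 : Ent 4 := ⟨[a0, a63], [a195, a15], (M a192 (L l337 (F (T t47 (L l295 (L l469 (T t21 (L l295 (L l469 (T t35 (L l295 (L l469 (T t202 (L l295 (L l469 (T t37 (K a64 (M a12 (L l337 (F (T t161 (L l73 (L l487 (T t122 (L l80 (L l144 (T t160 (K a135 (M a75 (F (T t2061 (L l80 (L l144 (L l201 (L l271 (L l481 (T t543 (L l153 (T t776 N))))))))))) (K a75 (M a135 (F (T t2575 (L l78 (L l80 (L l144 (L l271 (L l481 (T t543 (L l131 (T t776 N))))))))))) N)))))))))))) (K a128 (M a12 (L l337 (F (T t158 (L l73 (L l487 (T t122 (T t160 (K a135 (M a75 (F (T t155 (L l73 (L l487 (T t153 (L l153 (L l156 (L l220 (T t776 N)))))))))) (K a75 (M a135 (F (T t2575 (L l78 (L l271 (L l481 (T t543 (L l131 (L l156 (L l220 (T t776 N))))))))))) N)))))))))) (K a21 (M a132 (L l337 (F (T t2672 (L l271 (L l481 (T t5091 (T t5092 (K a135 (M a75 (F (T t2672 (L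 l201 (L l271 (L l481 (T t5091 (L l201 (T t5092 N))))))))) (K a75 (M a135 (F (T t2672 (T t2670 N)))) N)))))))))) (K a85 (M a48 (L l337 (F (L l347 (T t56 (L l273 (L l483 (T t27 (L l144 (L l368 (T t224 (K a135 (M a75 (F (L l347 (T t56 (L l273 (L l483 (T t28 (L l144 (L l368 (T t224 N)))))))))) (K a75 (M a135 (F (L l347 (T t56 (L l273 (L l483 (T t28 (L l144 (L l368 (T t224 N)))))))))) N))))))))))))) (K a149 (M a60 (L l337 (F (T t2658 (L l7 (L l307 (L l347 (T t67 (L l163 (L l220 (L l297 (L l347 (L l471 (L l515 (T t2659 (L l297 (L l351 (L l471 (T t2660 (K a135 (M a75 (F (T t662 (L l297 (L l471 (T t1333 (L l163 (L l220 (L l297 (L l347 (L l471 (L l515 (T t2659 (L l297 (L l351 (L l471 (T t2660 N))))))))))))))))) (K a75 (M a135 (F (T t662 (L l297 (L l471 (T t1333 (L l163 (L l220 (L l297 (L l347 (L l471 (L l515 (T t2659 (L l297 (L l351 (L l471 (T t2660 N))))))))))))))))) N))))))))))))))))))))) (K a42 (M a132 (L l337 (F (T t2672 (L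 l271 (L l390 (L l481 (T t5091 (L l390 (T t5092 (K a135 (M a75 (F (T t2672 (L l201 (L l271 (L l390 (L l481 (T t5091 (L l201 (L l390 (T t5092 N))))))))))) (K a75 (M a135 (F (T t2672 (L l390 (T t2670 N))))) N)))))))))))) (K a106 (M a60 (L l337 (F (T t254 (L l7 (L l307 (L l390 (T t43 (L l297 (L l393 (L l471 (T t2664 (L l98 (L l144 (L l297 (L l390 (L l471 (L l516 (T t2665 (K a135 (M a75 (F (T t2568 (L l98 (L l144 (L l297 (L l471 (T t1333 (L l297 (L l393 (L l471 (T t2664 (L l98 (L l144 (L l297 (L l390 (L l471 (L l516 (T t2665 N))))))))))))))))))) (K a75 (M a135 (F (T t2568 (L l98 (L l144 (L l297 (L l471 (T t1333 (L l297 (L l393 (L l471 (T t2664 (L l98 (L l144 (L l297 (L l390 (L l471 (L l516 (T t2665 N))))))))))))))))))) N))))))))))))))))))))) (K a170 (M a48 (L l337 (F (L l390 (T t54 (L l273 (L l483 (T t19 (L l220 (L l404 (T t29 (K a135 (M a75 (F (L l390 (T t54 (L l273 (L l483 (T t837 (L l220 (L l404 (T t29 N)))))))))) (K a75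 (M a135 (F (L l390 (T t54 (L l273 (L l483 (T t837 (L l220 (L l404 (T t29 N)))))))))) N))))))))))))) (K a255 (M a48 (L l295 (L l337 (L l469 (F (T t54 (L l266 (L l273 (L l483 (T t27 (L l289 (T t29 (K a135 (M a75 (L l295 (L l469 (F (T t54 (L l266 (L l273 (L l483 (T t28 (L l289 (T t29 (K a215 (M a235 (L l469 (F (T t1922 (L l235 (L l289 (L l325 (T t22 (L l245 (L l289 (T t29 (K a95 (M a175 (F (T t53 (L l266 (L l273 (L l483 (T t28 (L l245 (L l289 (L l361 (T t29 N))))))))))) (K a175 (M a95 (F (T t53 (L l266 (L l273 (L l483 (T t28 (L l245 (L l289 (T t29 N)))))))))) N))))))))))))) (K a235 (M a215 (L l469 (F (T t54 (L l266 (L l273 (L l483 (T t28 (L l289 (T t29 (K a95 (M a175 (F (T t53 (L l266 (L l273 (L l483 (T t28 (L l289 (L l361 (T t29 N)))))))))) (K a175 (M a95 (F (T t53 (L l266 (L l273 (L l483 (T t28 (L l289 (T t29 N))))))))) N)))))))))))) (K a95 (M a175 (L l295 (F (T t1922 (L l235 (L l289 (L l325 (L l361 (T t22 (L l289 (L l361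 (T t29 (K a215 (M a235 (F (T t53 (L l266 (L l273 (L l483 (T t28 (L l245 (L l289 (L l361 (T t29 N))))))))))) (K a235 (M a215 (F (T t53 (L l266 (L l273 (L l483 (T t28 (L l289 (L l361 (T t29 N)))))))))) N)))))))))))))) (K a175 (M a95 (L l295 (F (T t1922 (L l213 (L l235 (L l289 (L l325 (T t22 (L l289 (T t29 (K a215 (M a235 (F (T t53 (L l266 (L l273 (L l483 (T t28 (L l245 (L l289 (T t29 N)))))))))) (K a235 (M a215 (F (T t53 (L l266 (L l273 (L l483 (T t28 (L l289 (T t29 N))))))))) N))))))))))))) N))))))))))))))) (K a215 (M a235 (L l337 (L l469 (F (T t1922 (L l235 (L l289 (L l325 (T t22 (L l245 (L l289 (T t29 (K a135 (M a75 (L l469 (F (T t1922 (L l235 (L l289 (L l325 (T t22 (L l245 (L l289 (T t29 (K a95 (M a175 (F (T t53 (L l266 (L l273 (L l483 (T t28 (L l245 (L l289 (L l361 (T t29 N))))))))))) (K a175 (M a95 (F (T t53 (L l266 (L l273 (L l483 (T t28 (L l245 (L l289 (T t29 N)))))))))) N))))))))))))) (K a75 (M a135 (L l469 (F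 (T t1922 (L l235 (L l289 (L l325 (T t22 (L l245 (L l289 (T t29 (K a95 (M a175 (F (T t53 (L l266 (L l273 (L l483 (T t28 (L l245 (L l289 (L l361 (T t29 N))))))))))) (K a175 (M a95 (F (T t53 (L l266 (L l273 (L l483 (T t28 (L l245 (L l289 (T t29 N)))))))))) N))))))))))))) (K a95 (M a175 (L l337 (F (T t53 (L l266 (L l273 (L l483 (T t28 (L l245 (L l289 (L l361 (T t29 (K a135 (M a75 (F (T t53 (L l266 (L l273 (L l483 (T t28 (L l245 (L l289 (L l361 (T t29 N))))))))))) (K a75 (M a135 (F (T t53 (L l266 (L l273 (L l483 (T t28 (L l245 (L l289 (L l361 (T t29 N))))))))))) N)))))))))))))) (K a175 (M a95 (L l337 (F (T t53 (L l266 (L l273 (L l483 (T t28 (L l245 (L l289 (T t29 (K a135 (M a75 (F (T t53 (L l266 (L l273 (L l483 (T t28 (L l245 (L l289 (T t29 N)))))))))) (K a75 (M a135 (F (T t53 (L l266 (L l273 (L l483 (T t28 (L l245 (L l289 (T t29 N)))))))))) N))))))))))))) N)))))))))))))))) (K a75 (M a135 (L l295 (L l469 (F (T t54 (L l266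 (L l273 (L l483 (T t28 (L l289 (T t29 (K a215 (M a235 (L l469 (F (T t1922 (L l235 (L l289 (L l325 (T t22 (L l245 (L l289 (T t29 (K a95 (M a175 (F (T t53 (L l266 (L l273 (L l483 (T t28 (L l245 (L l289 (L l361 (T t29 N))))))))))) (K a175 (M a95 (F (T t53 (L l266 (L l273 (L l483 (T t28 (L l245 (L l289 (T t29 N)))))))))) N))))))))))))) (K a235 (M a215 (L l469 (F (T t54 (L l266 (L l273 (L l483 (T t28 (L l289 (T t29 (K a95 (M a175 (F (T t53 (L l266 (L l273 (L l483 (T t28 (L l289 (L l361 (T t29 N)))))))))) (K a175 (M a95 (F (T t53 (L l266 (L l273 (L l483 (T t28 (L l289 (T t29 N))))))))) N)))))))))))) (K a95 (M a175 (L l295 (F (T t1922 (L l235 (L l289 (L l325 (L l361 (T t22 (L l289 (L l361 (T t29 (K a215 (M a235 (F (T t53 (L l266 (L l273 (L l483 (T t28 (L l245 (L l289 (L l361 (T t29 N))))))))))) (K a235 (M a215 (F (T t53 (L l266 (L l273 (L l483 (T t28 (L l289 (L l361 (T t29 N)))))))))) N)))))))))))))) (K a175 (M a95 (L l295 (F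 (T t1922 (L l213 (L l235 (L l289 (L l325 (T t22 (L l289 (T t29 (K a215 (M a235 (F (T t53 (L l266 (L l273 (L l483 (T t28 (L l245 (L l289 (T t29 N)))))))))) (K a235 (M a215 (F (T t53 (L l266 (L l273 (L l483 (T t28 (L l289 (T t29 N))))))))) N))))))))))))) N))))))))))))))) (K a235 (M a215 (L l337 (L l469 (F (T t54 (L l266 (L l273 (L l483 (T t28 (L l289 (T t29 (K a135 (M a75 (L l469 (F (T t54 (L l266 (L l273 (L l483 (T t28 (L l289 (T t29 (K a95 (M a175 (F (T t53 (L l266 (L l273 (L l483 (T t28 (L l289 (L l361 (T t29 N)))))))))) (K a175 (M a95 (F (T t53 (L l266 (L l273 (L l483 (T t28 (L l289 (T t29 N))))))))) N)))))))))))) (K a75 (M a135 (L l469 (F (T t54 (L l266 (L l273 (L l483 (T t28 (L l289 (T t29 (K a95 (M a175 (F (T t53 (L l266 (L l273 (L l483 (T t28 (L l289 (L l361 (T t29 N)))))))))) (K a175 (M a95 (F (T t53 (L l266 (L l273 (L l483 (T t28 (L l289 (T t29 N))))))))) N)))))))))))) (K a95 (M a175 (L l337 (F (T t53 (L l266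 (L l273 (L l483 (T t28 (L l289 (L l361 (T t29 (K a135 (M a75 (F (T t53 (L l266 (L l273 (L l483 (T t28 (L l289 (L l361 (T t29 N)))))))))) (K a75 (M a135 (F (T t53 (L l266 (L l273 (L l483 (T t28 (L l289 (L l361 (T t29 N)))))))))) N))))))))))))) (K a175 (M a95 (L l337 (F (T t53 (L l266 (L l273 (L l483 (T t28 (L l289 (T t29 (K a135 (M a75 (F (T t53 (L l266 (L l273 (L l483 (T t28 (L l289 (T t29 N))))))))) (K a75 (M a135 (F (T t53 (L l266 (L l273 (L l483 (T t28 (L l289 (T t29 N))))))))) N)))))))))))) N))))))))))))))) (K a95 (M a175 (L l295 (L l337 (F (T t1922 (L l235 (L l289 (L l325 (L l361 (T t22 (L l289 (L l361 (T t29 (K a135 (M a75 (L l295 (F (T t1922 (L l235 (L l289 (L l325 (L l361 (T t22 (L l289 (L l361 (T t29 (K a215 (M a235 (F (T t53 (L l266 (L l273 (L l483 (T t28 (L l245 (L l289 (L l361 (T t29 N))))))))))) (K a235 (M a215 (F (T t53 (L l266 (L l273 (L l483 (T t28 (L l289 (L l361 (T t29 N)))))))))) N)))))))))))))) (K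 a215 (M a235 (L l337 (F (T t53 (L l266 (L l273 (L l483 (T t28 (L l245 (L l289 (L l361 (T t29 (K a135 (M a75 (F (T t53 (L l266 (L l273 (L l483 (T t28 (L l245 (L l289 (L l361 (T t29 N))))))))))) (K a75 (M a135 (F (T t53 (L l266 (L l273 (L l483 (T t28 (L l245 (L l289 (L l361 (T t29 N))))))))))) N)))))))))))))) (K a75 (M a135 (L l295 (F (T t1922 (L l235 (L l289 (L l325 (L l361 (T t22 (L l289 (L l361 (T t29 (K a215 (M a235 (F (T t53 (L l266 (L l273 (L l483 (T t28 (L l245 (L l289 (L l361 (T t29 N))))))))))) (K a235 (M a215 (F (T t53 (L l266 (L l273 (L l483 (T t28 (L l289 (L l361 (T t29 N)))))))))) N)))))))))))))) (K a235 (M a215 (L l337 (F (T t53 (L l266 (L l273 (L l483 (T t28 (L l289 (L l361 (T t29 (K a135 (M a75 (F (T t53 (L l266 (L l273 (L l483 (T t28 (L l289 (L l361 (T t29 N)))))))))) (K a75 (M a135 (F (T t53 (L l266 (L l273 (L l483 (T t28 (L l289 (L l361 (T t29 N)))))))))) N))))))))))))) N))))))))))))))))) (K a175 (M a95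 (L l295 (L l337 (F (T t1922 (L l213 (L l235 (L l289 (L l325 (T t22 (L l289 (T t29 (K a135 (M a75 (L l295 (F (T t1922 (L l213 (L l235 (L l289 (L l325 (T t22 (L l289 (T t29 (K a215 (M a235 (F (T t53 (L l266 (L l273 (L l483 (T t28 (L l245 (L l289 (T t29 N)))))))))) (K a235 (M a215 (F (T t53 (L l266 (L l273 (L l483 (T t28 (L l289 (T t29 N))))))))) N))))))))))))) (K a215 (M a235 (L l337 (F (T t53 (L l266 (L l273 (L l483 (T t28 (L l245 (L l289 (T t29 (K a135 (M a75 (F (T t53 (L l266 (L l273 (L l483 (T t28 (L l245 (L l289 (T t29 N)))))))))) (K a75 (M a135 (F (T t53 (L l266 (L l273 (L l483 (T t28 (L l245 (L l289 (T t29 N)))))))))) N))))))))))))) (K a75 (M a135 (L l295 (F (T t1922 (L l213 (L l235 (L l289 (L l325 (T t22 (L l289 (T t29 (K a215 (M a235 (F (T t53 (L l266 (L l273 (L l483 (T t28 (L l245 (L l289 (T t29 N)))))))))) (K a235 (M a215 (F (T t53 (L l266 (L l273 (L l483 (T t28 (L l289 (T t29 N))))))))) N))))))))))))) (K a235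 (M a215 (L l337 (F (T t53 (L l266 (L l273 (L l483 (T t28 (L l289 (T t29 (K a135 (M a75 (F (T t53 (L l266 (L l273 (L l483 (T t28 (L l289 (T t29 N))))))))) (K a75 (M a135 (F (T t53 (L l266 (L l273 (L l483 (T t28 (L l289 (T t29 N))))))))) N)))))))))))) N)))))))))))))))) N)))))))))))))))))) (K a135 (M a75 (F (T t47 (L l295 (L l469 (T t21 (L l295 (L l469 (T t35 (L l295 (L l469 (T t202 (L l295 (L l469 (T t37 (K a64 (M a72 (F (L l84 (T t5093 (L l73 (L l153 (L l487 (T t5094 N)))))))) (K a128 (M a72 (F (L l220 (T t5093 (L l73 (L l153 (L l156 (L l487 (T t5094 N))))))))) (K a21 (M a72 (F (T t5095 (L l347 (T t5093 N))))) (K a85 (M a72 (F (T t5095 (L l347 (T t5093 N))))) (K a149 (M a66 (F (L l217 (T t5086 (L l220 (L l313 (L l327 (T t5096 N)))))))) (K a42 (M a72 (F (T t5095 (T t5093 N)))) (K a106 (M a66 (F (L l63 (L l518 (T t3394 (L l313 (L l327 (T t5096 N)))))))) (K a170 (M a72 (F (L l220 (T t5093 (L l73 (L l153 (L l402 (L l487 (T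 t5097 N))))))))) (K a255 (M a72 (L l295 (L l469 (F (T t5095 (T t5093 (K a215 (M a235 (L l469 (F (T t5095 (T t5093 (K a95 (M a175 (F (T t5095 (T t5093 N)))) (K a175 (M a95 (F (T t5095 (T t5093 N)))) N))))))) (K a235 (M a215 (L l469 (F (T t5095 (L l391 (T t5093 (K a95 (M a175 (F (T t5095 (L l391 (T t5093 N))))) (K a175 (M a95 (F (T t5095 (L l391 (T t5093 N))))) N)))))))) (K a95 (M a175 (L l295 (F (T t5095 (T t5093 (K a215 (M a235 (F (T t5095 (T t5093 N)))) (K a235 (M a215 (F (T t5095 (L l391 (T t5093 N))))) N))))))) (K a175 (M a95 (L l295 (F (T t5095 (T t5093 (K a215 (M a235 (F (T t5095 (T t5093 N)))) (K a235 (M a215 (F (T t5095 (L l391 (T t5093 N))))) N))))))) N)))))))))) N)))))))))))))))))))))))) (K a75 (M a135 (F (T t47 (L l295 (L l469 (T t21 (L l295 (L l469 (T t35 (L l295 (L l469 (T t202 (L l295 (L l469 (T t37 (K a64 (M a132 (F (L l144 (T t2670 (L l73 (L l78 (L l80 (L l487 (T t2671 N))))))))) (K a128 (M a132 (F (L l160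 (T t2670 (L l73 (L l78 (L l487 (T t2671 N)))))))) (K a21 (M a132 (F (T t2672 (T t2670 N)))) (K a85 (M a132 (F (L l144 (T t2670 (L l73 (L l78 (L l365 (L l487 (T t1740 N))))))))) (K a149 (M a129 (F (L l63 (L l518 (T t2673 (L l202 (L l319 (T t2674 N)))))))) (K a42 (M a132 (F (T t2672 (L l390 (T t2670 N))))) (K a106 (M a129 (F (L l142 (T t2675 (L l144 (L l319 (T t2674 N))))))) (K a170 (M a132 (F (T t2672 (L l390 (T t2670 N))))) (K a255 (M a132 (L l295 (L l469 (F (T t2672 (T t2670 (K a215 (M a235 (L l469 (F (T t2672 (L l349 (T t2670 (K a95 (M a175 (F (T t2672 (L l349 (T t2670 N))))) (K a175 (M a95 (F (T t2672 (L l349 (T t2670 N))))) N)))))))) (K a235 (M a215 (L l469 (F (T t2672 (T t2670 (K a95 (M a175 (F (T t2672 (T t2670 N)))) (K a175 (M a95 (F (T t2672 (T t2670 N)))) N))))))) (K a95 (M a175 (L l295 (F (T t2672 (T t2670 (K a215 (M a235 (F (T t2672 (L l349 (T t2670 N))))) (K a235 (M a215 (F (T t2672 (T t2670 N)))) N)))))))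 (K a175 (M a95 (L l295 (F (T t2672 (T t2670 (K a215 (M a235 (F (T t2672 (L l349 (T t2670 N))))) (K a235 (M a215 (F (T t2672 (T t2670 N)))) N))))))) N)))))))))) N)))))))))))))))))))))))) N)))))))))))))))))))))))))))⟩
def e0_63__195_9 : Ent 4 := ⟨[a0, a63], [a195, a20], (M a85 (F (T t89 (L l228 (T t88 (L l11 (L l295 (T t52 (L l228 (T t90 (K a64 (M a16 (F (T t112 (L l84 (T t96 (L l116 (T t98 N))))))) (K a192 (M a16 (L l228 (F (T t96 (L l337 (L l339 (T t97 (L l296 (T t98 (K a193 (M a194 (F (T t96 (L l337 (L l339 (T t97 (L l293 (L l296 (T t98 N))))))))) (K a194 (M a193 (F (T t96 (L l296 (L l518 (T t5098 (L l337 (L l339 (T t97 N))))))))) N))))))))))) (K a21 (M a51 (L l11 (F (T t5099 (L l271 (T t944 (L l50 (T t945 (K a22 (M a23 (F (T t5099 (L l19 (L l50 (L l69 (L l307 (T t946 N)))))))) (K a23 (M a22 (F (T t5099 (L l271 (T t944 (L l49 (L l50 (T t945 N)))))))) N)))))))))) (K a149 (M a16 (F (T t112 (L l235 (T t173 (L l170 (T t102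 N))))))) (K a213 (Fr a170 a255 l476 (Fr a42 a21 l68 (Fr a106 a234 l390 (Fr a192 a149 l519 (V t581))))) (K a42 (M a48 (F (L l28 (T t509 (L l273 (L l390 (T t50 (L l28 (T t100 N))))))))) (K a106 (M a48 (F (L l104 (T t509 (L l11 (L l337 (T t1 (L l273 (L l390 (T t50 N)))))))))) (K a170 (M a16 (F (L l404 (T t113 (L l390 (T t98 (L l337 (L l390 (L l404 (T t97 (L l235 (L l404 (T t174 N))))))))))))) (K a255 (M a16 (L l295 (F (T t112 (L l289 (T t113 (L l289 (L l296 (T t98 (K a215 (M a235 (F (T t112 (L l245 (L l289 (T t113 (L l239 (L l245 (L l289 (L l296 (T t98 N))))))))))) (K a235 (M a215 (F (T t112 (L l289 (T t113 (L l289 (L l296 (T t98 N)))))))) N))))))))))) N)))))))))))))))))))⟩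
def e0_63__195_10 : Ent 4 := ⟨[a0, a63], [a195, a22], (M a192 (F (L l295 (T t21 (L l11 (T t47 (L l11 (L l295 (T t35 (L l295 (T t202 (L l66 (L l295 (T t37 (K a64 (M a48 (F (T t56 (L l11 (L l337 (T t1 (L l66 (L l116 (L l144 (T t31 N)))))))))) (K a128 (M a48 (F (T t54 (L l11 (L l337 (T t1 (L l66 (T t31 N)))))))) (K a21 (M a48 (L l11 (F (T t54 (L l273 (T t27 (L l47 (L l347 (T t29 (K a20 (M a23 (F (T t2113 (L l297 (L l346 (T t3752 N)))))) (K a23 (M a20 (F (T t2113 (L l47 (L l65 (L l487 (T t239 N))))))) N))))))))))) (K a85 (M a16 (F (L l273 (T t210 (L l66 (L l337 (T t97 (L l16 (L l66 (L l94 (L l144 (T t211 N)))))))))))) (K a149 (M a48 (F (T t1922 (L l11 (L l337 (L l347 (L l491 (T t1 (L l11 (L l170 (L l220 (L l337 (L l347 (L l491 (T t213 (L l66 (L l337 (L l375 (T t214 N))))))))))))))))))) (K a42 (M a48 (L l66 (F (T t56 (L l273 (T t27 (L l28 (T t29 (K a2 (M a62 (F (T t36 (L l42 (L l487 (T t825 N)))))) (K a62 (M a2 (F (T t55 (L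 l297 (L l390 (L l516 (T t1365 N))))))) N)))))))))) (K a106 (M a48 (F (T t55 (L l11 (L l337 (T t1 (L l11 (L l337 (L l411 (T t213 (L l66 (L l104 (L l144 (L l337 (L l390 (L l498 (T t214 N))))))))))))))))) (K a170 (M a32 (F (L l273 (T t218 (L l11 (L l337 (T t219 (L l11 (L l51 (L l180 (L l220 (T t220 N)))))))))))) (K a255 (M a16 (L l295 (F (T t1805 (L l66 (L l337 (L l469 (T t97 (L l16 (L l66 (T t211 (K a215 (M a235 (F (T t1805 (L l66 (L l337 (L l469 (T t97 (L l16 (L l66 (T t211 N)))))))))) (K a235 (M a215 (F (T t1805 (L l66 (L l337 (L l469 (T t97 (L l16 (L l66 (T t211 N)))))))))) N))))))))))))) N)))))))))))))))))))))))⟩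
def e0_63__195_11 : Ent 4 := ⟨[a0, a63], [a195, a23], (M a48 (F (T t132 (L l11 (L l337 (T t1 (L l337 (T t2 (L l11 (L l337 (T t3 (L l17 (L l337 (T t0 (K a16 (M a60 (F (T t236 (L l11 (L l18 (L l307 (T t68 (L l11 (L l18 (T t194 N)))))))))) (K a32 (M a60 (F (T t236 (L l11 (L l307 (T t68 (L l11 (T t194 N)))))))) (K a21 (M a192 (L l11 (F (T t54 (L l273 (T t27 (L l47 (L l347 (L l351 (T t29 (K a20 (M a22 (F (T t2113 (L l47 (L l235 (L l347 (L l351 (T t20 (L l14 (L l18 (T t46 N))))))))))) (K a22 (M a20 (F (T t2113 (L l47 (L l65 (L l487 (T t239 N))))))) N)))))))))))) (K a37 (M a192 (F (T t54 (L l273 (T t27 (L l295 (L l351 (T t21 N)))))))) (K a53 (M a192 (F (T t1681 (L l273 (T t27 (T t31 N)))))) (K a26 (M a192 (F (T t2113 (L l235 (L l351 (T t20 (L l295 (L l351 (T t21 N))))))))) (K a42 (M a192 (F (T t36 (L l235 (L l351 (T t20 (L l28 (L l351 (T t29 N))))))))) (K a58 (M a192 (F (T t1922 (L l295 (L l351 (T t21 (L l54 (L l498 (T t31 N)))))))))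 (K a15 (M a170 (L l337 (F (T t2101 (L l11 (T t324 (K a135 (M a75 (F (T t325 (L l11 (L l228 (L l339 (T t320 (T t3070 N)))))))) (K a75 (M a135 (F (T t325 (L l11 (L l228 (L l339 (T t320 (T t3070 N)))))))) N)))))))) N)))))))))))))))))))))))⟩
def e0_63__195_12 : Ent 4 := ⟨[a0, a63], [a195, a24], (M a192 (F (T t47 (L l295 (T t21 (L l295 (T t35 (L l295 (T t202 (L l295 (T t37 (K a64 (M a48 (F (T t56 (L l337 (T t1 (L l116 (L l144 (T t31 N)))))))) (K a128 (M a48 (F (T t132 (L l220 (L l235 (T t20 (T t31 N))))))) (K a21 (M a48 (F (T t54 (L l273 (T t27 (L l47 (L l347 (T t29 N)))))))) (K a85 (M a16 (F (T t504 (L l273 (T t210 (L l12 (L l94 (L l144 (T t211 N))))))))) (K a149 (M a48 (F (T t1922 (L l337 (L l347 (L l491 (T t1 (L l170 (L l220 (L l337 (L l347 (L l491 (T t213 (L l337 (L l375 (T t214 N)))))))))))))))) (K a42 (M a48 (F (T t56 (L l273 (T t27 (L l28 (T t29 N))))))) (K a106 (M a48 (F (L l337 (T t1 (L l273 (T t27 (L l337 (L l411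 (T t213 (L l104 (L l144 (L l337 (L l390 (L l498 (T t214 N))))))))))))))) (K a170 (M a32 (F (L l14 (T t612 (L l14 (L l273 (T t218 (L l180 (L l220 (T t220 N)))))))))) (K a255 (M a16 (L l295 (F (T t112 (L l266 (L l273 (T t210 (L l12 (T t211 (K a215 (M a235 (F (T t112 (L l266 (L l273 (T t210 (L l12 (T t211 N)))))))) (K a235 (M a215 (F (T t112 (L l266 (L l273 (T t210 (L l12 (T t211 N)))))))) N))))))))))) N))))))))))))))))))))⟩
def e0_63__195_13 : Ent 4 := ⟨[a0, a63], [a195, a25], (M a192 (F (L l295 (T t21 (L l15 (T t47 (L l15 (L l295 (T t35 (L l295 (T t202 (L l56 (L l295 (T t37 (K a64 (M a48 (F (T t56 (L l15 (L l337 (T t1 (L l56 (L l116 (L l144 (T t31 N)))))))))) (K a128 (M a48 (F (T t54 (L l15 (L l337 (T t1 (L l56 (T t31 N)))))))) (K a21 (M a17 (F (T t4225 (L l56 (L l295 (L l347 (T t208 (L l56 (L l237 (T t209 N)))))))))) (K a85 (M a16 (F (L l273 (T t210 (L l56 (L l337 (T t97 (L l12 (L l56 (L l94 (L l144 (T t211 N))))))))))))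 (K a149 (M a48 (F (T t1922 (L l15 (L l337 (L l347 (L l491 (T t1 (L l15 (L l170 (L l220 (L l337 (L l347 (L l491 (T t213 (L l56 (L l337 (L l375 (T t214 N))))))))))))))))))) (K a42 (M a8 (F (T t1806 (L l15 (L l295 (L l390 (T t1807 (L l15 (L l271 (T t217 N)))))))))) (K a106 (M a48 (F (T t55 (L l15 (L l337 (T t1 (L l15 (L l337 (L l411 (T t213 (L l56 (L l104 (L l144 (L l337 (L l390 (L l498 (T t214 N))))))))))))))))) (K a170 (M a32 (F (L l273 (T t218 (L l15 (L l337 (T t219 (L l15 (L l71 (L l180 (L l220 (T t220 N)))))))))))) (K a255 (M a16 (L l295 (F (T t1805 (L l56 (L l337 (L l469 (T t97 (L l12 (L l56 (T t211 (K a215 (M a235 (F (T t1805 (L l56 (L l337 (L l469 (T t97 (L l12 (L l56 (T t211 N)))))))))) (K a235 (M a215 (F (T t1805 (L l56 (L l337 (L l469 (T t97 (L l12 (L l56 (T t211 N)))))))))) N))))))))))))) N)))))))))))))))))))))))⟩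
def e0_63__195_14 : Ent 4 := ⟨[a0, a63], [a195, a27], (M a48 (F (T t48 (L l73 (L l337 (T t1 (L l73 (L l337 (T t2 (L l73 (L l337 (T t3 (L l17 (L l73 (L l337 (T t0 (K a16 (M a60 (F (T t662 (L l73 (L l487 (T t64 (L l17 (T t65 N)))))))) (K a32 (M a60 (F (T t2568 (L l73 (L l487 (T t64 (L l17 (L l24 (L l28 (T t65 N)))))))))) (K a21 (M a192 (F (T t54 (L l273 (T t27 (L l47 (L l347 (T t29 N)))))))) (K a37 (M a192 (F (T t53 (L l273 (T t27 (L l295 (T t21 N))))))) (K a53 (M a192 (F (T t55 (L l295 (L l491 (T t21 (T t31 N))))))) (K a26 (M a24 (F (T t5100 (L l54 (L l73 (L l487 (T t3180 (L l16 (L l54 (L l55 (L l72 (T t3233 N)))))))))))) (K a42 (M a192 (F (T t56 (L l273 (T t27 (L l28 (T t29 N))))))) (K a58 (M a192 (F (T t57 (L l273 (T t27 (L l54 (L l498 (T t31 N)))))))) (K a15 (M a51 (L l337 (F (T t3234 (L l3 (L l338 (T t1294 (L l7 (L l307 (T t1901 (K a135 (M a75 (F (T t848 (L l63 (L l518 (T t3279 (L l7 (L l307 (T t4648 N))))))))) (K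 a75 (M a135 (F (T t848 (L l63 (L l518 (T t3279 (L l7 (L l307 (T t4648 N))))))))) N)))))))))))) N)))))))))))))))))))))))))⟩
def e0_63__195_15 : Ent 4 := ⟨[a0, a63], [a195, a28], (M a48 (F (T t132 (L l337 (T t1 (L l337 (T t2 (L l14 (L l337 (T t3 (L l13 (L l337 (T t0 (K a16 (M a20 (F (T t1268 (L l487 (T t239 (T t240 (T t241 N))))))) (K a32 (M a60 (F (T t236 (L l14 (L l307 (T t67 (L l24 (L l28 (T t65 N))))))))) (K a21 (M a192 (F (T t54 (L l273 (T t27 (L l47 (L l347 (L l362 (T t29 N))))))))) (K a37 (M a192 (F (T t53 (L l273 (T t27 (L l295 (T t21 N))))))) (K a53 (M a192 (F (T t1922 (L l295 (L l491 (T t21 (T t31 N))))))) (K a26 (M a192 (F (T t56 (L l273 (T t27 (L l295 (T t21 N))))))) (K a42 (M a192 (F (T t56 (L l273 (T t27 (L l28 (L l362 (T t29 N)))))))) (K a58 (M a192 (F (T t57 (L l273 (T t27 (L l54 (L l498 (T t31 N)))))))) (K a15 (M a170 (L l337 (F (T t2101 (L l14 (T t324 (K a135 (M a75 (F (T t2101 (L l14 (T t324 N))))) (K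 a75 (M a135 (F (T t2101 (L l14 (T t324 N))))) N)))))))) N))))))))))))))))))))))⟩
def e0_63__195_16 : Ent 4 := ⟨[a0, a63], [a195, a29], (M a48 (F (T t132 (L l15 (L l337 (T t1 (L l337 (T t2 (L l15 (L l337 (T t3 (L l13 (L l337 (T t0 (K a16 (M a60 (F (T t138 (L l14 (L l15 (L l18 (L l307 (T t67 (T t65 N))))))))) (K a32 (M a60 (F (T t138 (L l15 (L l307 (T t67 (L l24 (L l28 (T t65 N))))))))) (K a21 (M a192 (L l15 (F (T t54 (L l273 (T t27 (L l47 (L l347 (L l371 (T t29 (K a17 (M a25 (F (T t2113 (L l47 (L l235 (L l347 (L l371 (T t20 (L l10 (L l18 (T t46 N))))))))))) (K a25 (M a17 (F (T t2113 (L l237 (L l347 (L l371 (T t242 N))))))) N)))))))))))) (K a37 (M a192 (F (T t54 (L l273 (T t27 (L l295 (L l371 (T t21 N)))))))) (K a53 (M a192 (F (T t1681 (L l273 (T t27 (T t31 N)))))) (K a26 (M a192 (F (T t2113 (L l235 (L l371 (T t20 (L l295 (L l371 (T t21 N))))))))) (K a42 (M a192 (F (T t36 (L l235 (L l371 (T t20 (L l28 (L l371 (T t29 N)))))))))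 (K a58 (M a192 (F (T t1922 (L l295 (L l371 (T t21 (L l54 (L l498 (T t31 N))))))))) (K a15 (M a170 (L l337 (F (T t2101 (L l15 (T t324 (K a135 (M a75 (F (T t325 (L l15 (L l228 (L l339 (T t320 (T t3070 N)))))))) (K a75 (M a135 (F (T t325 (L l15 (L l228 (L l339 (T t320 (T t3070 N)))))))) N)))))))) N)))))))))))))))))))))))⟩
def e0_63__195_17 : Ent 4 := ⟨[a0, a63], [a195, a30], (M a48 (F (T t48 (L l63 (L l337 (T t1 (L l63 (L l337 (T t2 (L l63 (L l337 (T t3 (L l13 (L l63 (L l337 (T t0 (K a16 (M a60 (F (T t236 (L l14 (L l18 (L l307 (T t67 (T t65 N)))))))) (K a32 (M a60 (F (T t116 (L l487 (T t64 (L l24 (L l28 (T t65 N)))))))) (K a21 (M a192 (F (T t54 (L l273 (T t27 (L l47 (L l347 (T t29 N)))))))) (K a37 (M a192 (F (T t53 (L l273 (T t27 (L l295 (T t21 N))))))) (K a53 (M a192 (F (T t55 (L l295 (L l491 (T t21 (T t31 N))))))) (K a26 (M a18 (F (T t5101 (L l54 (L l63 (L l518 (T t244 (L l12 (L l54 (L l57 (L l60 (T t245 N))))))))))))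 (K a42 (M a192 (F (T t56 (L l273 (T t27 (L l28 (T t29 N))))))) (K a58 (M a192 (F (T t57 (L l273 (T t27 (L l54 (L l498 (T t31 N)))))))) (K a15 (M a60 (L l337 (F (T t1308 (L l7 (L l307 (T t67 (L l73 (L l487 (T t64 (K a135 (M a75 (F (T t116 (L l3 (L l338 (T t489 (L l73 (L l487 (T t451 N))))))))) (K a75 (M a135 (F (T t116 (L l3 (L l338 (T t489 (L l73 (L l487 (T t451 N))))))))) N)))))))))))) N)))))))))))))))))))))))))⟩
def e0_63__195_18 : Ent 4 := ⟨[a0, a63], [a195, a31], (M a60 (F (T t662 (L l18 (L l307 (T t67 (L l17 (L l307 (T t43 (L l18 (L l307 (T t68 (L l307 (T t69 (K a20 (M a48 (F (T t277 (L l11 (L l18 (L l337 (T t1 (L l11 (L l18 (T t235 N)))))))))) (K a40 (M a48 (F (T t236 (L l18 (L l337 (T t1 (L l18 (L l52 (T t235 N))))))))) (K a21 (M a48 (L l18 (F (T t138 (L l13 (L l338 (T t248 (L l11 (L l47 (L l65 (L l338 (L l487 (T t249 (L l13 (L l50 (L l338 (T t250 (K a16 (M a26 (F (L l47 (T t251 (L l11 (L l337 (T t252 (L l50 (L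 l487 (T t451 N)))))))))) (K a26 (Fr a16 a32 l40 (V t253)) N))))))))))))))))))) (K a41 (M a192 (F (T t1334 (L l18 (L l65 (L l295 (L l375 (T t35 (L l22 (L l373 (T t80 N))))))))))) (K a61 (M a192 (F (T t1334 (L l18 (L l65 (L l295 (L l375 (L l515 (T t35 (L l373 (T t80 N))))))))))) (K a22 (M a192 (F (T t2658 (L l295 (L l375 (T t21 (L l66 (L l373 (T t80 N))))))))) (K a42 (M a48 (F (T t236 (L l22 (L l338 (T t247 (L l18 (L l56 (L l338 (T t288 (L l13 (L l22 (L l28 (L l54 (L l66 (L l338 (T t5102 N))))))))))))))))) (K a62 (M a192 (F (T t2658 (L l18 (L l295 (L l375 (T t35 (L l66 (L l373 (L l516 (T t80 N))))))))))) (K a3 (M a192 (L l307 (F (T t1800 (L l297 (L l477 (T t79 (L l373 (T t80 (K a67 (M a131 (F (T t1334 (L l18 (L l295 (L l375 (L l475 (T t35 (L l18 (L l143 (L l375 (T t2549 N)))))))))))) (K a131 (M a67 (F (T t1681 (L l221 (L l297 (L l477 (T t1333 (L l18 (L l375 (T t2549 N)))))))))) N))))))))))) N)))))))))))))))))))))))⟩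
def e0_63__195_19 : Ent 4 := ⟨[a0, a63], [a195, a60], (M a192 (L l518 (F (T t47 (L l295 (L l434 (T t21 (L l295 (L l434 (T t35 (L l295 (L l434 (T t202 (L l295 (L l434 (T t37 (K a64 (M a53 (L l518 (F (T t178 (L l144 (L l235 (L l506 (T t613 (L l144 (T t5103 (K a105 (M a150 (F (T t178 (L l98 (L l144 (L l235 (T t5104 N))))))) (K a150 (M a105 (F (T t178 (L l39 (L l144 (L l171 (L l516 (T t5105 N)))))))) N)))))))))))) (K a128 (M a53 (L l518 (F (T t178 (L l235 (L l506 (T t613 (L l160 (T t5103 (K a105 (M a150 (F (T t178 (L l98 (L l235 (T t5104 N)))))) (K a150 (M a105 (F (T t178 (L l39 (L l171 (L l516 (T t5105 N))))))) N))))))))))) (K a21 (M a144 (L l518 (F (T t5025 (L l235 (L l506 (T t5026 (T t5027 (K a105 (M a150 (F (T t5025 (L l98 (L l487 (T t5106 N)))))) (K a150 (M a105 (F (T t5025 (L l235 (L l506 (L l516 (T t5026 (L l516 (T t5027 N))))))))) N)))))))))) (K a85 (M a53 (L l518 (F (T t939 (L l144 (L l235 (L l506 (T t613 (L l123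 (L l144 (T t5103 (K a105 (M a150 (L l141 (F (T t939 (L l98 (L l144 (L l235 (T t5104 (K a65 (M a125 (F (T t939 (L l98 (L l144 (L l235 (T t5104 N))))))) (K a125 (M a65 (L l434 (F (T t939 (L l39 (L l98 (L l144 (L l235 (T t5107 (K a190 (M a255 (F (T t939 (L l98 (L l144 (L l235 (T t5104 N))))))) (K a255 (M a190 (L l295 (F (T t939 (L l98 (L l144 (L l431 (T t5108 (K a215 (M a235 (F (T t939 (L l98 (L l144 (L l431 (T t5108 N))))))) (K a235 (M a215 (L l392 (F (T t939 (L l98 (L l144 (L l391 (L l475 (T t5109 (K a40 (Fr a170 a130 l218 (V t5110)) (K a170 (M a40 (F (L l390 (L l404 (T t939 (L l220 (L l266 (L l273 (L l442 (T t5111 (L l98 (L l144 (L l235 (L l390 (T t5104 N))))))))))))))) N))))))))))) N)))))))))) N))))))))))) N)))))))))) (K a150 (M a105 (L l350 (F (T t939 (L l39 (L l144 (L l171 (L l365 (L l516 (T t5105 (K a20 (M a215 (F (T t939 (L l39 (L l144 (L l171 (L l365 (L l516 (T t5105 N))))))))) (K a215 (M a20 (L l295 (F (T t939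 (L l39 (L l144 (L l171 (L l365 (L l516 (T t5105 (K a235 (M a255 (F (T t939 (L l39 (L l144 (L l171 (L l365 (L l516 (T t5105 N))))))))) (K a255 (M a235 (L l434 (F (T t939 (L l39 (L l144 (L l171 (L l365 (L l516 (T t5105 (K a125 (M a190 (F (T t939 (L l39 (L l144 (L l171 (L l365 (L l516 (T t5105 N))))))))) (K a190 (M a125 (L l218 (F (T t939 (L l39 (L l144 (L l171 (L l365 (L l516 (T t5105 (K a130 (Fr a170 a40 l392 (V t5112)) (K a170 (M a130 (F (L l220 (L l368 (T t5113 (L l39 (L l349 (L l390 (L l455 (L l492 (T t5114 N))))))))))) N)))))))))))) N)))))))))))) N)))))))))))) N)))))))))))) N))))))))))))) (K a149 (M a48 (L l518 (F (T t1922 (L l63 (L l337 (L l347 (L l491 (T t1 (L l63 (L l170 (L l220 (L l337 (L l347 (L l491 (T t213 (L l63 (L l337 (L l375 (T t214 (K a105 (M a150 (L l515 (F (T t132 (L l170 (L l273 (L l442 (T t19 (L l63 (L l170 (L l220 (L l337 (L l347 (L l491 (T t213 (L l63 (L l337 (L l375 (T t214 (K a193 (M a61 (F (T t1922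 (L l39 (L l69 (L l389 (L l497 (T t530 N)))))))) (K a61 (M a193 (F (T t132 (L l273 (L l442 (T t837 (L l35 (L l63 (L l65 (L l170 (L l220 (L l337 (L l347 (L l491 (T t213 (L l63 (L l337 (L l375 (T t214 N))))))))))))))))))) N))))))))))))))))))))) (K a150 (M a105 (L l163 (F (T t132 (L l170 (L l273 (L l442 (T t19 (L l63 (L l170 (L l220 (L l337 (L l347 (L l491 (T t213 (L l63 (L l337 (L l375 (T t214 (K a148 (M a151 (F (T t1922 (L l63 (L l337 (L l347 (L l491 (T t1 (L l63 (L l166 (L l170 (L l216 (L l220 (L l337 (L l347 (L l491 (T t213 (L l63 (L l337 (L l375 (T t823 N))))))))))))))))))))) (K a151 (M a148 (F (T t132 (L l171 (L l502 (T t5115 N)))))) N))))))))))))))))))))) N)))))))))))))))))))))) (K a42 (M a144 (L l518 (F (T t5025 (L l235 (L l390 (L l506 (T t5026 (L l390 (T t5027 (K a105 (M a150 (F (T t5025 (L l98 (L l390 (L l487 (T t5106 N))))))) (K a150 (M a105 (F (T t5025 (L l235 (L l390 (L l506 (L l516 (T t5026 (L l390 (L l516 (T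 t5027 N))))))))))) N)))))))))))) (K a106 (M a48 (L l518 (F (T t48 (L l273 (L l442 (T t27 (L l63 (L l337 (L l411 (T t213 (L l63 (L l104 (L l144 (L l337 (L l390 (L l498 (T t214 (K a105 (M a150 (L l98 (F (T t55 (L l63 (L l337 (L l390 (L l498 (T t2 (L l63 (L l337 (L l411 (T t213 (L l63 (L l104 (L l144 (L l337 (L l390 (L l498 (T t214 (K a104 (M a107 (F (T t55 (L l63 (L l337 (T t1 (L l63 (L l337 (L l411 (T t391 (L l63 (L l100 (L l104 (L l140 (L l144 (L l337 (L l390 (L l498 (T t214 N))))))))))))))))))) (K a107 (M a104 (F (T t48 (L l105 (L l502 (T t5116 N)))))) N)))))))))))))))))))))) (K a150 (M a105 (L l516 (F (T t55 (L l63 (L l337 (L l390 (L l498 (T t2 (L l63 (L l337 (L l411 (T t213 (L l63 (L l104 (L l144 (L l337 (L l390 (L l498 (T t214 (K a194 (M a62 (F (T t55 (L l39 (L l69 (L l348 (L l492 (T t826 N)))))))) (K a62 (M a194 (F (T t48 (L l104 (L l144 (L l273 (L l442 (T t837 (L l63 (L l337 (L l411 (T t213 (L l36 (L l63 (L l66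 (L l104 (L l144 (L l337 (L l390 (L l498 (T t214 N))))))))))))))))))))) N)))))))))))))))))))))) N)))))))))))))))))))) (K a170 (M a58 (L l518 (F (T t4956 (L l220 (L l235 (L l506 (T t3179 (L l206 (L l220 (T t5117 (K a105 (M a150 (L l392 (F (T t4956 (L l39 (L l105 (L l220 (L l402 (L l515 (T t5118 (K a40 (M a235 (F (T t4956 (L l39 (L l105 (L l220 (L l402 (L l515 (T t5118 N))))))))) (K a235 (M a40 (L l295 (F (T t4956 (L l39 (L l105 (L l220 (L l402 (L l515 (T t5118 (K a215 (M a255 (F (T t4956 (L l39 (L l105 (L l220 (L l402 (L l515 (T t5118 N))))))))) (K a255 (M a215 (L l434 (F (T t4956 (L l39 (L l105 (L l220 (L l402 (L l515 (T t5118 (K a125 (M a190 (L l141 (F (T t4956 (L l39 (L l105 (L l220 (L l402 (L l515 (T t5118 (K a65 (Fr a85 a20 l350 (V t5119)) (K a85 (M a65 (F (L l144 (L l404 (T t5120 (L l39 (L l347 (L l391 (L l462 (L l497 (T t5121 N))))))))))) N)))))))))))) (K a190 (M a125 (F (T t4956 (L l39 (L l105 (L l220 (L l402 (L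 l515 (T t5118 N))))))))) N)))))))))))) N)))))))))))) N)))))))))))) (K a150 (M a105 (L l218 (F (T t4956 (L l39 (L l163 (L l220 (L l235 (T t5122 (K a130 (M a190 (F (T t4956 (L l39 (L l163 (L l220 (L l235 (T t5122 N)))))))) (K a190 (M a130 (L l434 (F (T t4956 (L l163 (L l220 (L l235 (T t5123 (K a125 (M a255 (F (T t4956 (L l163 (L l220 (L l235 (T t5123 N))))))) (K a255 (M a125 (L l295 (F (T t4956 (L l163 (L l220 (L l432 (T t5124 (K a215 (M a235 (L l350 (F (T t4956 (L l163 (L l220 (L l432 (T t5124 (K a20 (Fr a85 a65 l141 (V t5119)) (K a85 (M a20 (F (L l347 (L l368 (T t4956 (L l266 (L l273 (L l404 (L l442 (T t5125 (L l163 (L l220 (L l235 (L l347 (T t5123 N))))))))))))))) N)))))))))) (K a235 (M a215 (F (T t4956 (L l163 (L l220 (L l475 (T t5126 N))))))) N)))))))))) N)))))))))) N))))))))))) N))))))))))))) (K a255 (M a209 (L l295 (L l434 (L l518 (F (T t5127 (L l58 (L l338 (L l470 (T t5128 (T t5129 (K a105 (M a150 (L l295 (L l434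 (F (T t5130 (L l58 (L l98 (L l273 (T t5131 (K a125 (M a190 (L l141 (L l295 (F (T t5127 (L l109 (L l515 (T t5132 (K a65 (M a85 (L l295 (F (T t1586 (L l39 (L l439 (L l487 (T t5088 (K a215 (M a235 (F (T t1586 (L l39 (L l439 (L l487 (T t5088 N))))))) (K a235 (Fr a215 a20 l350 (V t1586)) N)))))))))) (K a85 (M a65 (L l295 (F (T t5130 (L l109 (L l347 (T t5133 (K a215 (M a235 (F (T t5130 (L l69 (L l347 (L l515 (T t5134 N))))))) (K a235 (M a215 (L l392 (F (T t5130 (L l109 (L l250 (L l347 (L l515 (T t5132 (K a40 (Fr a170 a130 l218 (V t5135)) (K a170 (M a40 (F (L l69 (L l347 (L l389 (T t5136 (L l39 (L l178 (L l365 (L l439 (L l487 (T t5088 N)))))))))))) N))))))))))) N))))))))) (K a215 (M a235 (L l141 (F (T t5127 (L l109 (L l515 (T t5132 (K a65 (M a85 (F (T t1586 (L l39 (L l439 (L l487 (T t5088 N))))))) (K a85 (M a65 (F (T t5130 (L l69 (L l347 (L l515 (T t5134 N))))))) N))))))))) (K a235 (M a215 (L l141 (L l392 (F (T t5127 (L l98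 (L l297 (L l475 (T t5137 (K a40 (Fr a170 a130 l218 (V t5135)) (K a65 (Fr a85 a20 l350 (V t1586)) (K a85 (M a65 (L l392 (F (T t5130 (L l109 (L l250 (L l347 (L l515 (T t5132 (K a40 (Fr a170 a130 l218 (V t5135)) (K a170 (M a40 (F (L l69 (L l347 (L l389 (T t5136 (L l39 (L l178 (L l365 (L l439 (L l487 (T t5088 N)))))))))))) N))))))))))) (K a170 (M a40 (L l141 (F (L l39 (L l178 (L l439 (L l487 (T t5088 (L l98 (L l297 (L l390 (L l475 (T t5137 (K a65 (Fr a85 a20 l350 (V t5138)) (K a85 (M a65 (F (L l69 (L l347 (L l389 (T t5136 (L l39 (L l178 (L l365 (L l439 (L l487 (T t5088 N)))))))))))) N))))))))))))))) N))))))))))))) N)))))))))))) (K a190 (M a125 (L l295 (F (T t5130 (L l58 (L l98 (L l273 (T t5131 (K a215 (M a235 (F (T t5130 (L l58 (L l98 (L l273 (T t5131 N))))))) (K a235 (M a215 (L l392 (F (T t5130 (L l98 (L l297 (L l475 (T t5137 (K a40 (M a170 (F (T t5135 (L l39 (L l439 (L l487 (T t5088 N))))))) (K a170 (M a40 (F (L l39 (L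 l178 (L l439 (L l487 (T t5088 (L l98 (L l297 (L l390 (L l475 (T t5137 N)))))))))))) N)))))))))) N)))))))))) (K a215 (M a235 (L l434 (F (T t5130 (L l58 (L l98 (L l273 (T t5131 (K a125 (M a190 (L l141 (F (T t5127 (L l109 (L l515 (T t5132 (K a65 (M a85 (F (T t1586 (L l39 (L l439 (L l487 (T t5088 N))))))) (K a85 (M a65 (F (T t5130 (L l69 (L l347 (L l515 (T t5134 N))))))) N))))))))) (K a190 (M a125 (F (T t5130 (L l58 (L l98 (L l273 (T t5131 N))))))) N)))))))))) (K a235 (M a215 (L l392 (L l434 (F (T t5127 (L l98 (L l297 (L l475 (T t5137 (K a40 (M a170 (L l434 (F (T t5135 (L l39 (L l439 (L l487 (T t5088 (K a125 (Fr a190 a130 l218 (V t5135)) (K a190 (M a125 (F (T t5135 (L l39 (L l439 (L l487 (T t5088 N))))))) N)))))))))) (K a125 (M a190 (L l141 (L l392 (F (T t5127 (L l98 (L l297 (L l475 (T t5137 (K a40 (Fr a170 a130 l218 (V t5135)) (K a65 (Fr a85 a20 l350 (V t1586)) (K a85 (M a65 (L l392 (F (T t5130 (L l109 (L l250 (L l347 (L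 l515 (T t5132 (K a40 (Fr a170 a130 l218 (V t5135)) (K a170 (M a40 (F (L l69 (L l347 (L l389 (T t5136 (L l39 (L l178 (L l365 (L l439 (L l487 (T t5088 N)))))))))))) N))))))))))) (K a170 (M a40 (L l141 (F (L l39 (L l178 (L l439 (L l487 (T t5088 (L l98 (L l297 (L l390 (L l475 (T t5137 (K a65 (Fr a85 a20 l350 (V t5138)) (K a85 (M a65 (F (L l69 (L l347 (L l389 (T t5136 (L l39 (L l178 (L l365 (L l439 (L l487 (T t5088 N)))))))))))) N))))))))))))))) N))))))))))))) (K a170 (M a40 (L l434 (F (L l39 (L l178 (L l439 (L l487 (T t5088 (L l98 (L l297 (L l390 (L l475 (T t5137 (K a125 (M a190 (L l141 (F (L l39 (L l178 (L l439 (L l487 (T t5088 (L l98 (L l297 (L l390 (L l475 (T t5137 (K a65 (Fr a85 a20 l350 (V t5138)) (K a85 (M a65 (F (L l69 (L l347 (L l389 (T t5136 (L l39 (L l178 (L l365 (L l439 (L l487 (T t5088 N)))))))))))) N))))))))))))))) (K a190 (M a125 (F (L l39 (L l178 (L l439 (L l487 (T t5088 (L l98 (L l297 (L l390 (L l475 (T t5137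 N)))))))))))) N))))))))))))))) (K a190 (M a125 (L l392 (F (T t5130 (L l98 (L l297 (L l475 (T t5137 (K a40 (M a170 (F (T t5135 (L l39 (L l439 (L l487 (T t5088 N))))))) (K a170 (M a40 (F (L l39 (L l178 (L l439 (L l487 (T t5088 (L l98 (L l297 (L l390 (L l475 (T t5137 N)))))))))))) N)))))))))) N))))))))))))) N))))))))))))) (K a125 (M a190 (L l295 (L l518 (F (T t5139 (L l39 (L l439 (L l487 (T t5088 (T t5129 (K a105 (M a150 (L l141 (L l295 (F (T t5127 (L l109 (L l515 (T t5132 (K a65 (M a85 (L l295 (F (T t1586 (L l39 (L l439 (L l487 (T t5088 (K a215 (M a235 (F (T t1586 (L l39 (L l439 (L l487 (T t5088 N))))))) (K a235 (Fr a215 a20 l350 (V t1586)) N)))))))))) (K a85 (M a65 (L l295 (F (T t5130 (L l109 (L l347 (T t5133 (K a215 (M a235 (F (T t5130 (L l69 (L l347 (L l515 (T t5134 N))))))) (K a235 (M a215 (L l392 (F (T t5130 (L l109 (L l250 (L l347 (L l515 (T t5132 (K a40 (Fr a170 a130 l218 (V t5135)) (K a170 (M a40 (F (L l69 (L l347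 (L l389 (T t5136 (L l39 (L l178 (L l365 (L l439 (L l487 (T t5088 N)))))))))))) N))))))))))) N))))))))) (K a215 (M a235 (L l141 (F (T t5127 (L l109 (L l515 (T t5132 (K a65 (M a85 (F (T t1586 (L l39 (L l439 (L l487 (T t5088 N))))))) (K a85 (M a65 (F (T t5130 (L l69 (L l347 (L l515 (T t5134 N))))))) N))))))))) (K a235 (M a215 (L l141 (L l392 (F (T t5127 (L l98 (L l297 (L l475 (T t5137 (K a40 (Fr a170 a130 l218 (V t5135)) (K a65 (Fr a85 a20 l350 (V t1586)) (K a85 (M a65 (L l392 (F (T t5130 (L l109 (L l250 (L l347 (L l515 (T t5132 (K a40 (Fr a170 a130 l218 (V t5135)) (K a170 (M a40 (F (L l69 (L l347 (L l389 (T t5136 (L l39 (L l178 (L l365 (L l439 (L l487 (T t5088 N)))))))))))) N))))))))))) (K a170 (M a40 (L l141 (F (L l39 (L l178 (L l439 (L l487 (T t5088 (L l98 (L l297 (L l390 (L l475 (T t5137 (K a65 (Fr a85 a20 l350 (V t5138)) (K a85 (M a65 (F (L l69 (L l347 (L l389 (T t5136 (L l39 (L l178 (L l365 (L l439 (L l487 (T t5088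 N)))))))))))) N))))))))))))))) N))))))))))))) N)))))))))))) (K a150 (M a105 (L l295 (F (T t5127 (L l203 (L l273 (L l431 (L l516 (T t5140 (K a215 (M a235 (L l350 (F (T t5127 (L l163 (L l297 (L l475 (T t5141 (K a20 (M a85 (F (T t1586 (L l39 (L l439 (L l487 (T t5088 N))))))) (K a85 (M a20 (F (T t5130 (L l163 (L l297 (L l347 (L l475 (T t5141 N)))))))) N)))))))))) (K a235 (M a215 (F (T t5127 (L l203 (L l273 (L l431 (L l516 (T t5140 N)))))))) N))))))))))) (K a215 (M a235 (L l518 (F (T t5139 (L l39 (L l439 (L l487 (T t5088 (T t5129 (K a105 (M a150 (L l141 (F (T t5127 (L l109 (L l515 (T t5132 (K a65 (M a85 (F (T t1586 (L l39 (L l439 (L l487 (T t5088 N))))))) (K a85 (M a65 (F (T t5130 (L l69 (L l347 (L l515 (T t5134 N))))))) N))))))))) (K a150 (M a105 (L l350 (F (T t5127 (L l163 (L l297 (L l475 (T t5141 (K a20 (M a85 (F (T t1586 (L l39 (L l439 (L l487 (T t5088 N))))))) (K a85 (M a20 (F (T t5130 (L l163 (L l297 (L l347 (L l475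 (T t5141 N)))))))) N)))))))))) N))))))))))) (K a235 (M a215 (L l518 (F (T t5139 (L l39 (L l439 (L l487 (T t5088 (T t5129 (K a105 (M a150 (L l141 (L l392 (F (T t5127 (L l98 (L l297 (L l475 (T t5137 (K a40 (Fr a170 a130 l218 (V t5135)) (K a65 (Fr a85 a20 l350 (V t1586)) (K a85 (M a65 (L l392 (F (T t5130 (L l109 (L l250 (L l347 (L l515 (T t5132 (K a40 (Fr a170 a130 l218 (V t5135)) (K a170 (M a40 (F (L l69 (L l347 (L l389 (T t5136 (L l39 (L l178 (L l365 (L l439 (L l487 (T t5088 N)))))))))))) N))))))))))) (K a170 (M a40 (L l141 (F (L l39 (L l178 (L l439 (L l487 (T t5088 (L l98 (L l297 (L l390 (L l475 (T t5137 (K a65 (Fr a85 a20 l350 (V t5138)) (K a85 (M a65 (F (L l69 (L l347 (L l389 (T t5136 (L l39 (L l178 (L l365 (L l439 (L l487 (T t5088 N)))))))))))) N))))))))))))))) N))))))))))))) (K a150 (M a105 (F (T t5127 (L l203 (L l273 (L l431 (L l516 (T t5140 N)))))))) N))))))))))) N)))))))))))))) (K a150 (M a105 (L l295 (L l434 (F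 (T t5127 (L l203 (L l273 (L l516 (T t5140 (K a125 (M a190 (L l295 (F (T t5127 (L l203 (L l273 (L l431 (L l516 (T t5140 (K a215 (M a235 (L l350 (F (T t5127 (L l163 (L l297 (L l475 (T t5141 (K a20 (M a85 (F (T t1586 (L l39 (L l439 (L l487 (T t5088 N))))))) (K a85 (M a20 (F (T t5130 (L l163 (L l297 (L l347 (L l475 (T t5141 N)))))))) N)))))))))) (K a235 (M a215 (F (T t5127 (L l203 (L l273 (L l431 (L l516 (T t5140 N)))))))) N))))))))))) (K a190 (M a125 (L l218 (L l295 (F (T t5130 (L l185 (T t3413 (K a130 (M a170 (L l295 (F (T t5135 (L l39 (L l194 (L l439 (L l487 (T t5088 (K a215 (Fr a235 a40 l392 (V t5135)) (K a235 (M a215 (F (T t5135 (L l39 (L l194 (L l439 (L l487 (T t5088 N)))))))) N))))))))))) (K a170 (M a130 (L l295 (F (L l185 (L l390 (T t3413 (L l39 (L l178 (L l439 (L l487 (T t5088 (K a215 (M a235 (L l350 (F (L l39 (L l178 (L l439 (L l487 (T t5088 (L l185 (L l239 (L l390 (L l516 (T t5142 (K a20 (Fr a85 a65 l141 (V t1586))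 (K a85 (M a20 (F (L l144 (L l390 (L l516 (T t5143 (L l39 (L l178 (L l365 (L l439 (L l487 (T t5088 (L l163 (L l174 (L l220 (L l347 (L l390 (L l475 (T t5144 N))))))))))))))))))) N))))))))))))))) (K a235 (M a215 (F (L l185 (L l390 (T t3413 (L l39 (L l178 (L l439 (L l487 (T t5088 N)))))))))) N))))))))))))) (K a215 (M a235 (L l218 (L l350 (F (T t5127 (L l163 (L l297 (L l475 (T t5141 (K a20 (Fr a85 a65 l141 (V t5119)) (K a85 (M a20 (L l218 (F (T t5130 (L l163 (L l297 (L l347 (L l475 (T t5141 (K a130 (Fr a170 a40 l392 (V t5110)) (K a170 (M a130 (F (L l144 (L l390 (L l516 (T t5143 (L l39 (L l178 (L l365 (L l439 (L l487 (T t5088 (L l163 (L l174 (L l220 (L l347 (L l390 (L l475 (T t5144 N))))))))))))))))))) N))))))))))) (K a130 (Fr a170 a40 l392 (V t5135)) (K a170 (M a130 (L l350 (F (L l39 (L l178 (L l439 (L l487 (T t5088 (L l185 (L l239 (L l390 (L l516 (T t5142 (K a20 (Fr a85 a65 l141 (V t1586)) (K a85 (M a20 (F (L l144 (L l390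 (L l516 (T t5143 (L l39 (L l178 (L l365 (L l439 (L l487 (T t5088 (L l163 (L l174 (L l220 (L l347 (L l390 (L l475 (T t5144 N))))))))))))))))))) N))))))))))))))) N))))))))))))) (K a235 (M a215 (L l218 (F (T t5130 (L l69 (L l516 (T t5145 (K a130 (M a170 (F (T t5135 (L l39 (L l194 (L l439 (L l487 (T t5088 N)))))))) (K a170 (M a130 (F (L l185 (L l390 (T t3413 (L l39 (L l178 (L l439 (L l487 (T t5088 N)))))))))) N))))))))) N))))))))))) (K a215 (M a235 (L l350 (L l434 (F (T t5127 (L l163 (L l297 (L l475 (T t5141 (K a20 (M a85 (L l434 (F (T t1586 (L l39 (L l439 (L l487 (T t5088 (K a125 (M a190 (F (T t1586 (L l39 (L l439 (L l487 (T t5088 N))))))) (K a190 (Fr a125 a65 l141 (V t5119)) N)))))))))) (K a85 (M a20 (L l434 (F (T t5130 (L l163 (L l297 (L l347 (L l475 (T t5141 (K a125 (M a190 (F (T t5130 (L l163 (L l297 (L l347 (L l475 (T t5141 N)))))))) (K a190 (M a125 (L l218 (F (T t5130 (L l163 (L l297 (L l347 (L l475 (T t5141 (K a130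 (Fr a170 a40 l392 (V t5110)) (K a170 (M a130 (F (L l144 (L l390 (L l516 (T t5143 (L l39 (L l178 (L l365 (L l439 (L l487 (T t5088 (L l163 (L l174 (L l220 (L l347 (L l390 (L l475 (T t5144 N))))))))))))))))))) N))))))))))) N))))))))))) (K a125 (M a190 (L l350 (F (T t5127 (L l163 (L l297 (L l475 (T t5141 (K a20 (M a85 (F (T t1586 (L l39 (L l439 (L l487 (T t5088 N))))))) (K a85 (M a20 (F (T t5130 (L l163 (L l297 (L l347 (L l475 (T t5141 N)))))))) N)))))))))) (K a190 (M a125 (L l218 (L l350 (F (T t5127 (L l163 (L l297 (L l475 (T t5141 (K a20 (Fr a85 a65 l141 (V t5119)) (K a85 (M a20 (L l218 (F (T t5130 (L l163 (L l297 (L l347 (L l475 (T t5141 (K a130 (Fr a170 a40 l392 (V t5110)) (K a170 (M a130 (F (L l144 (L l390 (L l516 (T t5143 (L l39 (L l178 (L l365 (L l439 (L l487 (T t5088 (L l163 (L l174 (L l220 (L l347 (L l390 (L l475 (T t5144 N))))))))))))))))))) N))))))))))) (K a130 (Fr a170 a40 l392 (V t5135)) (K a170 (M a130 (L l350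 (F (L l39 (L l178 (L l439 (L l487 (T t5088 (L l185 (L l239 (L l390 (L l516 (T t5142 (K a20 (Fr a85 a65 l141 (V t1586)) (K a85 (M a20 (F (L l144 (L l390 (L l516 (T t5143 (L l39 (L l178 (L l365 (L l439 (L l487 (T t5088 (L l163 (L l174 (L l220 (L l347 (L l390 (L l475 (T t5144 N))))))))))))))))))) N))))))))))))))) N))))))))))))) N))))))))))))) (K a235 (M a215 (L l434 (F (T t5127 (L l203 (L l273 (L l516 (T t5140 (K a125 (M a190 (F (T t5127 (L l203 (L l273 (L l431 (L l516 (T t5140 N)))))))) (K a190 (M a125 (L l218 (F (T t5130 (L l69 (L l516 (T t5145 (K a130 (M a170 (F (T t5135 (L l39 (L l194 (L l439 (L l487 (T t5088 N)))))))) (K a170 (M a130 (F (L l185 (L l390 (T t3413 (L l39 (L l178 (L l439 (L l487 (T t5088 N)))))))))) N))))))))) N)))))))))) N))))))))))))) (K a190 (M a125 (L l295 (L l518 (F (T t5139 (L l39 (L l439 (L l487 (T t5088 (T t5129 (K a105 (M a150 (L l295 (F (T t5130 (L l58 (L l98 (L l273 (T t5131 (K a215 (M a235 (F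 (T t5130 (L l58 (L l98 (L l273 (T t5131 N))))))) (K a235 (M a215 (L l392 (F (T t5130 (L l98 (L l297 (L l475 (T t5137 (K a40 (M a170 (F (T t5135 (L l39 (L l439 (L l487 (T t5088 N))))))) (K a170 (M a40 (F (L l39 (L l178 (L l439 (L l487 (T t5088 (L l98 (L l297 (L l390 (L l475 (T t5137 N)))))))))))) N)))))))))) N)))))))))) (K a150 (M a105 (L l218 (L l295 (F (T t5130 (L l185 (T t3413 (K a130 (M a170 (L l295 (F (T t5135 (L l39 (L l194 (L l439 (L l487 (T t5088 (K a215 (Fr a235 a40 l392 (V t5135)) (K a235 (M a215 (F (T t5135 (L l39 (L l194 (L l439 (L l487 (T t5088 N)))))))) N))))))))))) (K a170 (M a130 (L l295 (F (L l185 (L l390 (T t3413 (L l39 (L l178 (L l439 (L l487 (T t5088 (K a215 (M a235 (L l350 (F (L l39 (L l178 (L l439 (L l487 (T t5088 (L l185 (L l239 (L l390 (L l516 (T t5142 (K a20 (Fr a85 a65 l141 (V t1586)) (K a85 (M a20 (F (L l144 (L l390 (L l516 (T t5143 (L l39 (L l178 (L l365 (L l439 (L l487 (T t5088 (L l163 (L l174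 (L l220 (L l347 (L l390 (L l475 (T t5144 N))))))))))))))))))) N))))))))))))))) (K a235 (M a215 (F (L l185 (L l390 (T t3413 (L l39 (L l178 (L l439 (L l487 (T t5088 N)))))))))) N))))))))))))) (K a215 (M a235 (L l218 (L l350 (F (T t5127 (L l163 (L l297 (L l475 (T t5141 (K a20 (Fr a85 a65 l141 (V t5119)) (K a85 (M a20 (L l218 (F (T t5130 (L l163 (L l297 (L l347 (L l475 (T t5141 (K a130 (Fr a170 a40 l392 (V t5110)) (K a170 (M a130 (F (L l144 (L l390 (L l516 (T t5143 (L l39 (L l178 (L l365 (L l439 (L l487 (T t5088 (L l163 (L l174 (L l220 (L l347 (L l390 (L l475 (T t5144 N))))))))))))))))))) N))))))))))) (K a130 (Fr a170 a40 l392 (V t5135)) (K a170 (M a130 (L l350 (F (L l39 (L l178 (L l439 (L l487 (T t5088 (L l185 (L l239 (L l390 (L l516 (T t5142 (K a20 (Fr a85 a65 l141 (V t1586)) (K a85 (M a20 (F (L l144 (L l390 (L l516 (T t5143 (L l39 (L l178 (L l365 (L l439 (L l487 (T t5088 (L l163 (L l174 (L l220 (L l347 (L l390 (L l475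 (T t5144 N))))))))))))))))))) N))))))))))))))) N))))))))))))) (K a235 (M a215 (L l218 (F (T t5130 (L l69 (L l516 (T t5145 (K a130 (M a170 (F (T t5135 (L l39 (L l194 (L l439 (L l487 (T t5088 N)))))))) (K a170 (M a130 (F (L l185 (L l390 (T t3413 (L l39 (L l178 (L l439 (L l487 (T t5088 N)))))))))) N))))))))) N))))))))))) (K a215 (M a235 (L l518 (F (T t5139 (L l39 (L l439 (L l487 (T t5088 (T t5129 (K a105 (M a150 (F (T t5130 (L l58 (L l98 (L l273 (T t5131 N))))))) (K a150 (M a105 (L l218 (L l350 (F (T t5127 (L l163 (L l297 (L l475 (T t5141 (K a20 (Fr a85 a65 l141 (V t5119)) (K a85 (M a20 (L l218 (F (T t5130 (L l163 (L l297 (L l347 (L l475 (T t5141 (K a130 (Fr a170 a40 l392 (V t5110)) (K a170 (M a130 (F (L l144 (L l390 (L l516 (T t5143 (L l39 (L l178 (L l365 (L l439 (L l487 (T t5088 (L l163 (L l174 (L l220 (L l347 (L l390 (L l475 (T t5144 N))))))))))))))))))) N))))))))))) (K a130 (Fr a170 a40 l392 (V t5135)) (K a170 (M a130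 (L l350 (F (L l39 (L l178 (L l439 (L l487 (T t5088 (L l185 (L l239 (L l390 (L l516 (T t5142 (K a20 (Fr a85 a65 l141 (V t1586)) (K a85 (M a20 (F (L l144 (L l390 (L l516 (T t5143 (L l39 (L l178 (L l365 (L l439 (L l487 (T t5088 (L l163 (L l174 (L l220 (L l347 (L l390 (L l475 (T t5144 N))))))))))))))))))) N))))))))))))))) N))))))))))))) N))))))))))) (K a235 (M a215 (L l518 (F (T t5139 (L l39 (L l439 (L l487 (T t5088 (T t5129 (K a105 (M a150 (L l392 (F (T t5130 (L l98 (L l297 (L l475 (T t5137 (K a40 (M a170 (F (T t5135 (L l39 (L l439 (L l487 (T t5088 N))))))) (K a170 (M a40 (F (L l39 (L l178 (L l439 (L l487 (T t5088 (L l98 (L l297 (L l390 (L l475 (T t5137 N)))))))))))) N)))))))))) (K a150 (M a105 (L l218 (F (T t5130 (L l69 (L l516 (T t5145 (K a130 (M a170 (F (T t5135 (L l39 (L l194 (L l439 (L l487 (T t5088 N)))))))) (K a170 (M a130 (F (L l185 (L l390 (T t3413 (L l39 (L l178 (L l439 (L l487 (T t5088 N)))))))))) N))))))))) N)))))))))))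 N)))))))))))))) (K a215 (M a235 (L l434 (L l518 (F (T t5139 (L l39 (L l439 (L l487 (T t5088 (T t5129 (K a105 (M a150 (L l434 (F (T t5130 (L l58 (L l98 (L l273 (T t5131 (K a125 (M a190 (L l141 (F (T t5127 (L l109 (L l515 (T t5132 (K a65 (M a85 (F (T t1586 (L l39 (L l439 (L l487 (T t5088 N))))))) (K a85 (M a65 (F (T t5130 (L l69 (L l347 (L l515 (T t5134 N))))))) N))))))))) (K a190 (M a125 (F (T t5130 (L l58 (L l98 (L l273 (T t5131 N))))))) N)))))))))) (K a125 (M a190 (L l518 (F (T t5139 (L l39 (L l439 (L l487 (T t5088 (T t5129 (K a105 (M a150 (L l141 (F (T t5127 (L l109 (L l515 (T t5132 (K a65 (M a85 (F (T t1586 (L l39 (L l439 (L l487 (T t5088 N))))))) (K a85 (M a65 (F (T t5130 (L l69 (L l347 (L l515 (T t5134 N))))))) N))))))))) (K a150 (M a105 (L l350 (F (T t5127 (L l163 (L l297 (L l475 (T t5141 (K a20 (M a85 (F (T t1586 (L l39 (L l439 (L l487 (T t5088 N))))))) (K a85 (M a20 (F (T t5130 (L l163 (L l297 (L l347 (L l475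 (T t5141 N)))))))) N)))))))))) N))))))))))) (K a150 (M a105 (L l350 (L l434 (F (T t5127 (L l163 (L l297 (L l475 (T t5141 (K a20 (M a85 (L l434 (F (T t1586 (L l39 (L l439 (L l487 (T t5088 (K a125 (M a190 (F (T t1586 (L l39 (L l439 (L l487 (T t5088 N))))))) (K a190 (Fr a125 a65 l141 (V t5119)) N)))))))))) (K a85 (M a20 (L l434 (F (T t5130 (L l163 (L l297 (L l347 (L l475 (T t5141 (K a125 (M a190 (F (T t5130 (L l163 (L l297 (L l347 (L l475 (T t5141 N)))))))) (K a190 (M a125 (L l218 (F (T t5130 (L l163 (L l297 (L l347 (L l475 (T t5141 (K a130 (Fr a170 a40 l392 (V t5110)) (K a170 (M a130 (F (L l144 (L l390 (L l516 (T t5143 (L l39 (L l178 (L l365 (L l439 (L l487 (T t5088 (L l163 (L l174 (L l220 (L l347 (L l390 (L l475 (T t5144 N))))))))))))))))))) N))))))))))) N))))))))))) (K a125 (M a190 (L l350 (F (T t5127 (L l163 (L l297 (L l475 (T t5141 (K a20 (M a85 (F (T t1586 (L l39 (L l439 (L l487 (T t5088 N))))))) (K a85 (M a20 (F (T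 t5130 (L l163 (L l297 (L l347 (L l475 (T t5141 N)))))))) N)))))))))) (K a190 (M a125 (L l218 (L l350 (F (T t5127 (L l163 (L l297 (L l475 (T t5141 (K a20 (Fr a85 a65 l141 (V t5119)) (K a85 (M a20 (L l218 (F (T t5130 (L l163 (L l297 (L l347 (L l475 (T t5141 (K a130 (Fr a170 a40 l392 (V t5110)) (K a170 (M a130 (F (L l144 (L l390 (L l516 (T t5143 (L l39 (L l178 (L l365 (L l439 (L l487 (T t5088 (L l163 (L l174 (L l220 (L l347 (L l390 (L l475 (T t5144 N))))))))))))))))))) N))))))))))) (K a130 (Fr a170 a40 l392 (V t5135)) (K a170 (M a130 (L l350 (F (L l39 (L l178 (L l439 (L l487 (T t5088 (L l185 (L l239 (L l390 (L l516 (T t5142 (K a20 (Fr a85 a65 l141 (V t1586)) (K a85 (M a20 (F (L l144 (L l390 (L l516 (T t5143 (L l39 (L l178 (L l365 (L l439 (L l487 (T t5088 (L l163 (L l174 (L l220 (L l347 (L l390 (L l475 (T t5144 N))))))))))))))))))) N))))))))))))))) N))))))))))))) N))))))))))))) (K a190 (M a125 (L l518 (F (T t5139 (L l39 (L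 l439 (L l487 (T t5088 (T t5129 (K a105 (M a150 (F (T t5130 (L l58 (L l98 (L l273 (T t5131 N))))))) (K a150 (M a105 (L l218 (L l350 (F (T t5127 (L l163 (L l297 (L l475 (T t5141 (K a20 (Fr a85 a65 l141 (V t5119)) (K a85 (M a20 (L l218 (F (T t5130 (L l163 (L l297 (L l347 (L l475 (T t5141 (K a130 (Fr a170 a40 l392 (V t5110)) (K a170 (M a130 (F (L l144 (L l390 (L l516 (T t5143 (L l39 (L l178 (L l365 (L l439 (L l487 (T t5088 (L l163 (L l174 (L l220 (L l347 (L l390 (L l475 (T t5144 N))))))))))))))))))) N))))))))))) (K a130 (Fr a170 a40 l392 (V t5135)) (K a170 (M a130 (L l350 (F (L l39 (L l178 (L l439 (L l487 (T t5088 (L l185 (L l239 (L l390 (L l516 (T t5142 (K a20 (Fr a85 a65 l141 (V t1586)) (K a85 (M a20 (F (L l144 (L l390 (L l516 (T t5143 (L l39 (L l178 (L l365 (L l439 (L l487 (T t5088 (L l163 (L l174 (L l220 (L l347 (L l390 (L l475 (T t5144 N))))))))))))))))))) N))))))))))))))) N))))))))))))) N))))))))))) N))))))))))))))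 (K a235 (M a215 (L l434 (L l518 (F (T t5139 (L l39 (L l439 (L l487 (T t5088 (T t5129 (K a105 (M a150 (L l392 (L l434 (F (T t5127 (L l98 (L l297 (L l475 (T t5137 (K a40 (M a170 (L l434 (F (T t5135 (L l39 (L l439 (L l487 (T t5088 (K a125 (Fr a190 a130 l218 (V t5135)) (K a190 (M a125 (F (T t5135 (L l39 (L l439 (L l487 (T t5088 N))))))) N)))))))))) (K a125 (M a190 (L l141 (L l392 (F (T t5127 (L l98 (L l297 (L l475 (T t5137 (K a40 (Fr a170 a130 l218 (V t5135)) (K a65 (Fr a85 a20 l350 (V t1586)) (K a85 (M a65 (L l392 (F (T t5130 (L l109 (L l250 (L l347 (L l515 (T t5132 (K a40 (Fr a170 a130 l218 (V t5135)) (K a170 (M a40 (F (L l69 (L l347 (L l389 (T t5136 (L l39 (L l178 (L l365 (L l439 (L l487 (T t5088 N)))))))))))) N))))))))))) (K a170 (M a40 (L l141 (F (L l39 (L l178 (L l439 (L l487 (T t5088 (L l98 (L l297 (L l390 (L l475 (T t5137 (K a65 (Fr a85 a20 l350 (V t5138)) (K a85 (M a65 (F (L l69 (L l347 (L l389 (T t5136 (L l39 (L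 l178 (L l365 (L l439 (L l487 (T t5088 N)))))))))))) N))))))))))))))) N))))))))))))) (K a170 (M a40 (L l434 (F (L l39 (L l178 (L l439 (L l487 (T t5088 (L l98 (L l297 (L l390 (L l475 (T t5137 (K a125 (M a190 (L l141 (F (L l39 (L l178 (L l439 (L l487 (T t5088 (L l98 (L l297 (L l390 (L l475 (T t5137 (K a65 (Fr a85 a20 l350 (V t5138)) (K a85 (M a65 (F (L l69 (L l347 (L l389 (T t5136 (L l39 (L l178 (L l365 (L l439 (L l487 (T t5088 N)))))))))))) N))))))))))))))) (K a190 (M a125 (F (L l39 (L l178 (L l439 (L l487 (T t5088 (L l98 (L l297 (L l390 (L l475 (T t5137 N)))))))))))) N))))))))))))))) (K a190 (M a125 (L l392 (F (T t5130 (L l98 (L l297 (L l475 (T t5137 (K a40 (M a170 (F (T t5135 (L l39 (L l439 (L l487 (T t5088 N))))))) (K a170 (M a40 (F (L l39 (L l178 (L l439 (L l487 (T t5088 (L l98 (L l297 (L l390 (L l475 (T t5137 N)))))))))))) N)))))))))) N))))))))))))) (K a125 (M a190 (L l518 (F (T t5139 (L l39 (L l439 (L l487 (T t5088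 (T t5129 (K a105 (M a150 (L l141 (L l392 (F (T t5127 (L l98 (L l297 (L l475 (T t5137 (K a40 (Fr a170 a130 l218 (V t5135)) (K a65 (Fr a85 a20 l350 (V t1586)) (K a85 (M a65 (L l392 (F (T t5130 (L l109 (L l250 (L l347 (L l515 (T t5132 (K a40 (Fr a170 a130 l218 (V t5135)) (K a170 (M a40 (F (L l69 (L l347 (L l389 (T t5136 (L l39 (L l178 (L l365 (L l439 (L l487 (T t5088 N)))))))))))) N))))))))))) (K a170 (M a40 (L l141 (F (L l39 (L l178 (L l439 (L l487 (T t5088 (L l98 (L l297 (L l390 (L l475 (T t5137 (K a65 (Fr a85 a20 l350 (V t5138)) (K a85 (M a65 (F (L l69 (L l347 (L l389 (T t5136 (L l39 (L l178 (L l365 (L l439 (L l487 (T t5088 N)))))))))))) N))))))))))))))) N))))))))))))) (K a150 (M a105 (F (T t5127 (L l203 (L l273 (L l431 (L l516 (T t5140 N)))))))) N))))))))))) (K a150 (M a105 (L l434 (F (T t5127 (L l203 (L l273 (L l516 (T t5140 (K a125 (M a190 (F (T t5127 (L l203 (L l273 (L l431 (L l516 (T t5140 N)))))))) (K a190 (M a125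 (L l218 (F (T t5130 (L l69 (L l516 (T t5145 (K a130 (M a170 (F (T t5135 (L l39 (L l194 (L l439 (L l487 (T t5088 N)))))))) (K a170 (M a130 (F (L l185 (L l390 (T t3413 (L l39 (L l178 (L l439 (L l487 (T t5088 N)))))))))) N))))))))) N)))))))))) (K a190 (M a125 (L l518 (F (T t5139 (L l39 (L l439 (L l487 (T t5088 (T t5129 (K a105 (M a150 (L l392 (F (T t5130 (L l98 (L l297 (L l475 (T t5137 (K a40 (M a170 (F (T t5135 (L l39 (L l439 (L l487 (T t5088 N))))))) (K a170 (M a40 (F (L l39 (L l178 (L l439 (L l487 (T t5088 (L l98 (L l297 (L l390 (L l475 (T t5137 N)))))))))))) N)))))))))) (K a150 (M a105 (L l218 (F (T t5130 (L l69 (L l516 (T t5145 (K a130 (M a170 (F (T t5135 (L l39 (L l194 (L l439 (L l487 (T t5088 N)))))))) (K a170 (M a130 (F (L l185 (L l390 (T t3413 (L l39 (L l178 (L l439 (L l487 (T t5088 N)))))))))) N))))))))) N))))))))))) N)))))))))))))) N))))))))))))))))) (K a105 (M a150 (F (L l515 (T t47 (L l69 (L l98 (L l307 (L l430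 (T t5146 (L l69 (L l98 (L l295 (T t5147 (K a85 (M a98 (L l141 (F (T t5148 (L l347 (L l368 (L l488 (L l500 (L l515 (T t5149 (K a65 (M a125 (F (T t5148 (L l347 (L l368 (L l488 (L l500 (L l515 (T t5149 N))))))))) (K a125 (M a65 (L l434 (F (T t5148 (L l347 (L l368 (L l488 (L l500 (L l515 (T t5149 (K a190 (M a255 (F (T t5148 (L l347 (L l368 (L l432 (L l488 (L l500 (L l515 (T t5149 N)))))))))) (K a255 (M a190 (L l295 (F (T t5148 (L l109 (L l347 (T t5133 (K a215 (M a235 (F (T t5148 (L l109 (L l347 (L l515 (T t5132 N))))))) (K a235 (M a215 (L l392 (F (T t5148 (L l69 (L l250 (L l347 (L l515 (T t5134 (K a40 (Fr a170 a130 l218 (V t5150)) (K a170 (M a40 (F (L l111 (L l220 (T t5151 (L l58 (L l338 (L l390 (L l458 (L l470 (T t5152 N))))))))))) N))))))))))) N))))))))) N)))))))))))) N)))))))))))) (K a149 (M a48 (L l515 (F (T t132 (L l170 (L l273 (L l442 (T t19 (L l63 (L l170 (L l220 (L l337 (L l347 (L l491 (T t213 (L l63 (L l337 (L l375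 (T t214 (K a193 (M a61 (F (T t1922 (L l39 (L l69 (L l389 (L l497 (T t530 N)))))))) (K a61 (M a193 (F (T t132 (L l273 (L l442 (T t837 (L l35 (L l63 (L l65 (L l170 (L l220 (L l337 (L l347 (L l491 (T t213 (L l63 (L l337 (L l375 (T t214 N))))))))))))))))))) N))))))))))))))))))))) (K a106 (M a48 (L l98 (F (T t55 (L l63 (L l337 (L l390 (L l498 (T t2 (L l63 (L l337 (L l411 (T t213 (L l63 (L l104 (L l144 (L l337 (L l390 (L l498 (T t214 (K a104 (M a107 (F (T t55 (L l63 (L l337 (T t1 (L l63 (L l337 (L l411 (T t391 (L l63 (L l100 (L l104 (L l140 (L l144 (L l337 (L l390 (L l498 (T t214 N))))))))))))))))))) (K a107 (M a104 (F (T t48 (L l105 (L l502 (T t5116 N)))))) N)))))))))))))))))))))) N)))))))))))))))) (K a150 (M a105 (F (L l163 (T t57 (L l69 (L l297 (L l430 (L l516 (T t5153 (L l163 (L l434 (T t5154 (K a149 (M a48 (L l163 (F (T t132 (L l170 (L l273 (L l442 (T t19 (L l63 (L l170 (L l220 (L l337 (L l347 (L l491 (T t213 (L l63 (L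 l337 (L l375 (T t214 (K a148 (M a151 (F (T t1922 (L l63 (L l337 (L l347 (L l491 (T t1 (L l63 (L l166 (L l170 (L l216 (L l220 (L l337 (L l347 (L l491 (T t213 (L l63 (L l337 (L l375 (T t823 N))))))))))))))))))))) (K a151 (M a148 (F (T t132 (L l171 (L l502 (T t5115 N)))))) N))))))))))))))))))))) (K a106 (M a48 (L l516 (F (T t55 (L l63 (L l337 (L l390 (L l498 (T t2 (L l63 (L l337 (L l411 (T t213 (L l63 (L l104 (L l144 (L l337 (L l390 (L l498 (T t214 (K a194 (M a62 (F (T t55 (L l39 (L l69 (L l348 (L l492 (T t826 N)))))))) (K a62 (M a194 (F (T t48 (L l104 (L l144 (L l273 (L l442 (T t837 (L l63 (L l337 (L l411 (T t213 (L l36 (L l63 (L l66 (L l104 (L l144 (L l337 (L l390 (L l498 (T t214 N))))))))))))))))))))) N)))))))))))))))))))))) (K a170 (M a145 (L l218 (F (T t5155 (L l390 (L l404 (L l488 (L l494 (L l516 (T t5156 (K a130 (M a190 (F (T t5155 (L l390 (L l404 (L l488 (L l494 (L l516 (T t5156 N))))))))) (K a190 (M a130 (L l434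 (F (T t5155 (L l390 (L l404 (L l488 (L l494 (L l516 (T t5156 (K a125 (M a255 (F (T t5155 (L l390 (L l404 (L l431 (L l488 (L l494 (L l516 (T t5156 N)))))))))) (K a255 (M a125 (L l295 (F (T t5155 (L l185 (L l390 (L l516 (T t5142 (K a215 (M a235 (L l350 (F (T t5155 (L l185 (L l239 (L l390 (T t3413 (K a20 (Fr a85 a65 l141 (V t1586)) (K a85 (M a20 (F (L l144 (L l188 (T t5157 (L l58 (L l338 (L l347 (L l464 (L l470 (T t5060 N))))))))))) N)))))))))) (K a235 (M a215 (F (T t5155 (L l185 (L l390 (T t3413 N)))))) N)))))))))) N)))))))))))) N)))))))))))) N))))))))))))))) N)))))))))))))))))))))))))))⟩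
def e0_63__195_20 : Ent 4 := ⟨[a0, a63], [a195, a61], (M a48 (F (T t132 (L l35 (L l65 (L l337 (T t1 (L l337 (T t2 (L l65 (L l337 (T t3 (L l337 (T t0 (K a16 (M a85 (F (T t89 (L l273 (T t50 (T t51 N)))))) (K a32 (M a85 (F (L l28 (T t89 (L l273 (L l404 (T t50 (L l28 (T t51 N))))))))) (K a21 (M a192 (L l65 (F (T t54 (L l273 (T t27 (L l35 (L l47 (L l347 (L l515 (T t29 (K a1 (M a41 (F (T t2113 (L l35 (L l47 (L l235 (L l347 (L l515 (T t20 (L l18 (T t46 N))))))))))) (K a41 (M a1 (F (T t54 (L l18 (L l29 (T t295 N)))))) N))))))))))))) (K a37 (M a192 (F (T t54 (L l273 (T t27 (L l295 (L l515 (T t21 N)))))))) (K a53 (M a49 (F (T t296 (L l338 (T t297 (L l31 (L l47 (L l59 (L l65 (T t298 (L l59 (L l337 (T t299 N))))))))))))) (K a26 (M a192 (F (T t1922 (L l35 (L l235 (L l515 (T t20 (L l295 (L l515 (T t21 N)))))))))) (K a42 (M a192 (F (T t55 (L l35 (L l235 (L l515 (T t20 (L l28 (L l35 (L l515 (T t29 N))))))))))) (K a58 (M a192 (F (T t1922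 (L l295 (L l515 (T t21 (L l54 (L l498 (T t31 N))))))))) (K a15 (M a170 (L l337 (F (T t2101 (L l65 (T t324 (K a135 (M a75 (F (T t325 (L l65 (L l228 (L l339 (T t320 (T t3070 N)))))))) (K a75 (M a135 (F (T t325 (L l65 (L l228 (L l339 (T t320 (T t3070 N)))))))) N)))))))) N)))))))))))))))))))))))⟩
def e0_63__195_21 : Ent 4 := ⟨[a0, a63], [a195, a64], (M a12 (F (T t150 (L l487 (T t122 (L l487 (T t151 (L l487 (T t152 (L l487 (T t153 (K a4 (M a60 (F (T t570 (L l46 (L l50 (L l307 (T t67 (T t448 N)))))))) (K a8 (M a60 (F (T t570 (L l307 (T t67 (L l52 (L l56 (T t448 N)))))))) (K a21 (M a89 (F (T t862 (L l50 (L l271 (T t863 (L l50 (T t864 N)))))))) (K a25 (M a48 (F (T t865 (L l15 (L l337 (T t1 (L l12 (L l56 (T t866 N))))))))) (K a29 (M a48 (F (T t145 (L l15 (L l337 (T t1 (T t866 N))))))) (K a38 (M a48 (F (T t867 (L l26 (L l337 (T t2 (L l21 (L l50 (T t868 N))))))))) (K a42 (M a89 (F (T t4375 (L l26 (L l80 (L l228 (T t870 (L l26 (T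 t864 N))))))))) (K a46 (M a48 (F (T t48 (L l518 (T t443 (L l26 (T t866 N))))))) (K a51 (M a85 (L l487 (F (T t571 (T t572 (K a147 (M a99 (F (T t571 (T t572 N)))) (K a99 (M a147 (F (T t571 (T t572 N)))) N))))))) N))))))))))))))))))))⟩
def e0_63__195_22 : Ent 4 := ⟨[a0, a63], [a195, a65], (M a48 (F (T t48 (L l337 (T t1 (L l337 (T t2 (L l337 (T t3 (L l337 (T t0 (K a16 (M a60 (F (T t138 (L l14 (L l18 (L l307 (T t67 (T t65 N)))))))) (K a32 (M a60 (F (T t116 (L l487 (T t64 (L l24 (L l28 (T t65 N)))))))) (K a21 (M a192 (F (T t53 (L l273 (T t27 (L l47 (L l347 (T t29 N)))))))) (K a37 (M a192 (F (T t54 (L l273 (T t27 (L l295 (T t21 N))))))) (K a53 (M a192 (F (T t55 (L l295 (L l491 (T t21 (T t31 N))))))) (K a26 (M a192 (F (T t56 (L l273 (T t27 (L l295 (T t21 N))))))) (K a42 (M a192 (F (T t56 (L l273 (T t27 (L l28 (T t29 N))))))) (K a58 (M a192 (F (T t57 (L l273 (T t27 (L l54 (L l498 (T t31 N)))))))) (K a15 (M a85 (L l337 (F (T t567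 (T t568 (K a135 (M a75 (F (T t49 (L l295 (L l469 (T t365 (T t100 N))))))) (K a75 (M a135 (F (T t49 (L l295 (L l469 (T t365 (T t100 N))))))) N))))))) N))))))))))))))))))))⟩
def e0_63__195_23 : Ent 4 := ⟨[a0, a63], [a195, a66], (M a48 (F (T t48 (L l337 (T t1 (L l337 (T t2 (L l337 (T t3 (L l337 (T t0 (K a16 (M a60 (F (T t138 (L l14 (L l18 (L l307 (L l309 (T t67 (T t65 N))))))))) (K a32 (M a60 (F (T t138 (L l307 (L l309 (T t67 (L l24 (L l28 (T t65 N))))))))) (K a21 (M a192 (F (L l273 (T t28 (L l47 (L l235 (L l347 (T t20 (L l47 (L l347 (T t29 N))))))))))) (K a37 (M a192 (F (T t36 (L l47 (L l235 (T t20 (L l295 (T t21 N)))))))) (K a53 (M a192 (F (T t36 (L l295 (L l491 (T t21 (L l142 (T t31 N)))))))) (K a26 (M a192 (F (T t56 (L l273 (T t27 (L l295 (T t21 N))))))) (K a42 (M a192 (F (T t56 (L l273 (T t27 (L l28 (T t29 N))))))) (K a58 (M a192 (F (T t57 (L l273 (T t27 (L l54 (L l142 (L l498 (T t31 N))))))))) (K a15 (M a192 (L l337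 (F (T t57 (L l273 (L l483 (T t27 (L l235 (L l325 (T t20 (K a135 (M a75 (F (T t47 (L l142 (L l235 (L l325 (T t22 (L l273 (L l483 (T t28 N)))))))))) (K a75 (M a135 (F (T t47 (L l142 (L l235 (L l325 (T t22 (L l273 (L l483 (T t28 N)))))))))) N)))))))))))) N))))))))))))))))))))⟩
def e0_63__195_24 : Ent 4 := ⟨[a0, a63], [a195, a67], (M a3 (F (T t85 (L l518 (T t137 (L l518 (T t353 (L l518 (T t665 (L l518 (T t358 (K a60 (M a86 (L l518 (F (T t1261 (L l76 (L l228 (L l514 (T t1262 (T t1229 (K a105 (M a150 (F (T t1229 (L l297 (L l430 (L l515 (T t1263 (L l141 (L l297 (L l430 (T t5158 N))))))))))) (K a150 (M a105 (F (T t1229 (L l297 (L l430 (T t1227 (L l143 (L l221 (L l295 (L l434 (T t5159 N))))))))))) N))))))))))) (K a1 (M a149 (F (T t25 (L l297 (T t1049 (L l143 (T t616 N))))))) (K a21 (M a169 (F (T t1247 (L l297 (T t1246 (L l11 (L l76 (T t1248 N)))))))) (K a41 (M a48 (F (T t136 (L l22 (L l337 (T t2 (L l25 (L l65 (T t847 N)))))))))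 (K a2 (M a149 (F (T t1265 (L l228 (T t175 (L l66 (L l143 (T t616 N)))))))) (K a22 (M a48 (F (T t797 (L l11 (L l337 (T t1 (L l16 (L l66 (T t345 N))))))))) (K a42 (M a169 (F (T t1266 (L l66 (L l297 (T t1251 (L l66 (L l76 (T t1248 N))))))))) (K a23 (M a48 (F (T t132 (L l487 (T t86 (L l11 (T t847 N))))))) (K a43 (M a48 (F (T t48 (L l487 (T t86 (T t847 N)))))) N))))))))))))))))))))⟩
def e0_63__195_25 : Ent 4 := ⟨[a0, a63], [a195, a68], (M a48 (F (T t48 (L l337 (T t1 (L l337 (T t2 (L l337 (T t3 (L l337 (T t0 (K a16 (M a60 (F (T t138 (L l14 (L l18 (L l307 (T t67 (T t65 N)))))))) (K a32 (M a60 (F (T t138 (L l307 (T t67 (L l24 (L l28 (T t65 N)))))))) (K a21 (M a192 (F (T t53 (L l273 (T t27 (L l47 (L l347 (T t29 N)))))))) (K a37 (M a192 (F (T t54 (L l273 (T t27 (L l295 (T t21 N))))))) (K a53 (M a192 (F (T t55 (L l295 (L l491 (T t21 (T t31 N))))))) (K a26 (M a192 (F (T t56 (L l273 (T t27 (L l295 (T t21 N))))))) (K a42 (M a192 (F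 (T t56 (L l273 (T t27 (L l28 (T t29 N))))))) (K a58 (M a192 (F (T t57 (L l273 (T t27 (L l54 (L l498 (T t31 N)))))))) (K a15 (M a85 (L l337 (F (T t567 (T t568 (K a135 (M a75 (F (T t49 (L l295 (L l469 (T t365 (T t100 N))))))) (K a75 (M a135 (F (T t49 (L l295 (L l469 (T t365 (T t100 N))))))) N))))))) N))))))))))))))))))))⟩
def e0_63__195_26 : Ent 4 := ⟨[a0, a63], [a195, a69], (M a48 (F (T t48 (L l337 (T t1 (L l311 (L l337 (T t2 (L l337 (T t3 (L l337 (T t0 (K a16 (M a60 (F (T t138 (L l14 (L l18 (L l307 (T t67 (L l311 (T t65 N))))))))) (K a32 (M a60 (F (T t116 (L l487 (T t64 (L l24 (L l28 (L l311 (T t65 N))))))))) (K a21 (M a192 (F (T t54 (L l273 (T t27 (L l47 (L l347 (T t29 N)))))))) (K a37 (M a192 (F (T t54 (L l273 (T t27 (L l295 (T t21 N))))))) (K a53 (M a192 (F (T t55 (L l295 (L l491 (T t21 (T t31 N))))))) (K a26 (M a192 (F (T t56 (L l273 (T t27 (L l295 (T t21 N))))))) (K a42 (M a192 (F (T t56 (L l273 (T t27 (L l28 (T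 t29 N))))))) (K a58 (M a192 (F (T t57 (L l273 (T t27 (L l54 (L l498 (T t31 N)))))))) (K a15 (M a85 (L l337 (F (T t567 (T t568 (K a135 (M a75 (F (T t100 (L l273 (L l483 (T t50 (L l295 (L l469 (T t924 N))))))))) (K a75 (M a135 (F (T t100 (L l273 (L l483 (T t50 (L l295 (L l469 (T t924 N))))))))) N))))))) N)))))))))))))))))))))⟩
def e0_63__195_27 : Ent 4 := ⟨[a0, a63], [a195, a70], (M a48 (F (T t48 (L l337 (T t1 (L l337 (T t2 (L l337 (T t3 (L l337 (T t0 (K a16 (M a60 (F (T t138 (L l14 (L l18 (L l307 (L l333 (T t67 (T t65 N))))))))) (K a32 (M a60 (F (T t138 (L l307 (L l333 (T t67 (L l24 (L l28 (T t65 N))))))))) (K a21 (M a192 (F (T t54 (L l273 (T t27 (L l47 (L l347 (T t29 N)))))))) (K a37 (M a192 (F (T t53 (L l273 (T t27 (L l295 (T t21 N))))))) (K a53 (M a192 (F (T t55 (L l295 (L l491 (T t21 (T t31 N))))))) (K a26 (M a192 (F (T t33 (L l273 (T t27 (L l295 (T t21 N))))))) (K a42 (M a192 (F (T t56 (L l273 (T t27 (L l28 (T t29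 N))))))) (K a58 (M a192 (F (T t57 (L l273 (T t27 (L l54 (L l498 (T t31 N)))))))) (K a15 (M a192 (L l337 (F (T t47 (L l273 (L l483 (T t27 (L l235 (L l325 (T t20 (K a135 (M a75 (F (T t1800 (L l235 (L l325 (T t22 (L l273 (L l483 (T t28 N))))))))) (K a75 (M a135 (F (T t1800 (L l235 (L l325 (T t22 (L l273 (L l483 (T t28 N))))))))) N)))))))))))) N))))))))))))))))))))⟩
def e0_63__195_28 : Ent 4 := ⟨[a0, a63], [a195, a71], (M a12 (F (T t150 (L l487 (T t122 (L l487 (T t151 (L l487 (T t152 (L l487 (T t153 (K a4 (M a60 (F (T t570 (L l46 (L l50 (L l307 (L l331 (T t67 (T t448 N))))))))) (K a8 (M a60 (F (T t116 (L l337 (T t398 (L l52 (L l56 (T t448 N)))))))) (K a21 (M a192 (F (T t158 (L l237 (T t156 (L l15 (L l347 (T t157 N)))))))) (K a25 (M a192 (F (T t155 (L l237 (T t156 (L l295 (T t21 N))))))) (K a29 (M a192 (F (T t159 (L l295 (L l371 (T t21 (T t160 N))))))) (K a38 (M a192 (F (T t576 (L l237 (T t156 (L l295 (T t21 N))))))) (K a42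 (M a192 (F (T t161 (L l237 (T t156 (L l56 (T t157 N))))))) (K a46 (M a192 (F (T t57 (L l237 (T t156 (L l26 (L l408 (T t160 N)))))))) (K a51 (M a192 (L l487 (F (T t47 (L l237 (L l513 (T t156 (L l271 (L l415 (T t450 (K a147 (M a99 (F (T t1800 (L l271 (L l415 (T t543 (L l237 (L l513 (T t468 N))))))))) (K a99 (M a147 (F (T t1800 (L l271 (L l415 (T t543 (L l237 (L l513 (T t468 N))))))))) N)))))))))))) N))))))))))))))))))))⟩
def e0_63__195_29 : Ent 4 := ⟨[a0, a63], [a195, a72], (M a60 (F (T t116 (L l307 (T t67 (L l307 (T t43 (L l307 (T t68 (L l307 (T t69 (K a20 (M a48 (F (T t138 (L l11 (L l337 (T t1 (L l11 (T t235 N)))))))) (K a40 (M a48 (F (T t48 (L l487 (T t64 (L l52 (T t235 N))))))) (K a21 (M a48 (F (T t1543 (L l47 (L l65 (L l487 (T t64 (L l11 (L l18 (L l47 (L l65 (L l316 (L l334 (L l338 (T t288 (L l50 (L l334 (L l338 (T t250 N))))))))))))))))))) (K a41 (M a192 (F (T t1334 (L l65 (L l295 (T t35 (L l22 (L l128 (L l132 (T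 t80 N)))))))))) (K a61 (M a192 (F (T t1334 (L l65 (L l295 (L l515 (T t35 (L l128 (L l132 (T t80 N)))))))))) (K a22 (M a192 (F (L l297 (T t77 (L l295 (T t21 (L l66 (L l128 (L l132 (T t80 N)))))))))) (K a42 (M a48 (F (T t3520 (L l487 (T t64 (L l56 (L l316 (L l334 (L l338 (T t288 (L l22 (L l28 (L l54 (L l66 (L l334 (L l338 (T t250 N))))))))))))))))) (K a62 (M a192 (F (T t57 (L l297 (T t79 (L l66 (L l128 (L l132 (L l516 (T t80 N)))))))))) (K a3 (M a192 (L l307 (F (T t1334 (L l295 (L l475 (T t35 (L l128 (L l132 (T t80 (K a67 (M a131 (F (T t57 (L l76 (L l80 (L l128 (L l297 (L l477 (T t1333 (L l143 (T t2549 N))))))))))) (K a131 (M a67 (F (L l152 (T t57 (L l80 (L l128 (L l221 (L l297 (L l477 (T t1333 (T t2549 N))))))))))) N)))))))))))) N))))))))))))))))))))⟩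
def e0_63__195_30 : Ent 4 := ⟨[a0, a63], [a195, a73], (M a12 (F (T t150 (L l487 (T t122 (L l487 (T t151 (L l487 (T t152 (L l320 (L l487 (T t153 (K a4 (M a60 (F (T t522 (L l337 (T t398 (T t448 N)))))) (K a8 (M a60 (L l320 (F (T t835 (L l307 (T t67 (L l52 (L l56 (T t448 (K a138 (M a203 (F (T t423 (L l56 (L l307 (T t69 (L l52 (L l56 (T t448 N))))))))) (K a203 (M a138 (L l235 (F (T t2568 (L l81 (L l295 (T t5160 (K a199 (Fr a207 a69 l332 (V t5161)) (K a207 (M a199 (F (T t835 (L l307 (L l331 (T t67 (L l52 (L l56 (T t448 N))))))))) N))))))))) N))))))))))) (K a21 (M a192 (F (L l271 (T t221 (L l85 (L l237 (T t156 (L l15 (L l320 (L l347 (T t157 N))))))))))) (K a25 (M a192 (F (T t496 (L l15 (L l271 (T t450 (L l295 (T t21 N)))))))) (K a29 (M a192 (F (T t1681 (L l85 (L l237 (T t156 (L l78 (T t160 N)))))))) (K a38 (M a192 (F (T t161 (L l85 (L l237 (T t156 (L l295 (T t21 N)))))))) (K a42 (M a192 (F (T t161 (L l85 (L l237 (T t156 (L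 l56 (L l320 (T t157 N))))))))) (K a46 (M a192 (F (T t496 (L l295 (T t21 (L l26 (L l78 (L l408 (T t160 N))))))))) (K a51 (M a85 (L l487 (F (T t571 (L l320 (T t572 (K a147 (M a99 (F (T t571 (L l320 (T t572 N))))) (K a99 (M a147 (F (T t571 (L l320 (T t572 N))))) N)))))))) N)))))))))))))))))))))⟩
def e0_63__195_31 : Ent 4 := ⟨[a0, a63], [a195, a74], (M a12 (F (T t150 (L l487 (T t122 (L l487 (T t151 (L l487 (T t152 (L l487 (T t153 (K a4 (M a60 (F (T t570 (L l46 (L l50 (L l307 (T t67 (T t448 N)))))))) (K a8 (M a60 (F (T t116 (L l336 (L l337 (L l339 (T t398 (L l52 (L l56 (T t448 N)))))))))) (K a21 (M a192 (F (L l237 (T t156 (L l15 (L l271 (L l347 (T t450 (L l15 (L l347 (T t157 N))))))))))) (K a25 (M a192 (F (T t159 (L l15 (L l271 (T t450 (L l295 (T t21 N)))))))) (K a29 (M a192 (F (T t159 (L l295 (L l371 (T t21 (L l78 (L l130 (T t160 N))))))))) (K a38 (M a192 (F (T t161 (L l237 (T t156 (L l295 (T t21 N))))))) (K a42 (M a192 (F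 (T t161 (L l237 (T t156 (L l56 (T t157 N))))))) (K a46 (M a192 (F (T t57 (L l237 (T t156 (L l26 (L l78 (L l130 (L l408 (T t160 N)))))))))) (K a51 (M a192 (L l487 (F (T t47 (L l237 (L l513 (T t156 (L l271 (L l415 (T t450 (K a147 (M a99 (F (T t47 (L l78 (L l130 (L l271 (L l415 (T t543 (L l78 (L l237 (L l513 (T t468 N)))))))))))) (K a99 (M a147 (F (T t47 (L l78 (L l130 (L l271 (L l415 (T t543 (L l78 (L l237 (L l513 (T t468 N)))))))))))) N)))))))))))) N))))))))))))))))))))⟩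
def e0_63__195_32 : Ent 4 := ⟨[a0, a63], [a195, a75], (M a15 (F (T t1254 (L l488 (T t716 (L l488 (T t731 (L l488 (T t723 (L l488 (T t732 (K a48 (M a192 (L l488 (F (T t57 (L l235 (L l512 (T t2795 (L l78 (L l273 (L l412 (T t2796 (K a97 (M a146 (F (T t2821 (L l295 (L l440 (T t35 (L l273 (L l412 (T t2822 N))))))))) (K a146 (M a97 (F (T t2821 (L l295 (L l440 (T t35 (L l273 (L l412 (T t2822 N))))))))) N))))))))))))) (K a5 (M a12 (F (T t2823 (L l47 (L l487 (T t122 (L l5 (T t722 N)))))))) (K a21 (M a192 (F (L l273 (T t2797 (L l47 (L l235 (T t2795 (L l47 (T t2798 N))))))))) (K a37 (M a192 (F (T t2824 (L l47 (L l235 (T t2795 (L l47 (L l295 (T t35 N))))))))) (K a10 (M a12 (F (T t2825 (L l487 (T t122 (L l54 (T t722 N))))))) (K a26 (M a192 (F (T t2821 (L l18 (L l295 (T t35 (L l78 (L l273 (T t2796 N))))))))) (K a42 (M a192 (F (T t2821 (L l78 (L l273 (L l390 (T t2796 (L l28 (L l390 (T t2798 N)))))))))) (K a31 (M a192 (F (T t1681 (L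 l235 (T t2795 (L l18 (L l375 (T t2801 N)))))))) (K a47 (M a192 (F (T t2821 (L l295 (T t35 (T t2801 N)))))) N))))))))))))))))))))⟩
def e0_63__195_33 : Ent 4 := ⟨[a0, a63], [a195, a76], (M a48 (F (T t48 (L l337 (T t1 (L l337 (T t2 (L l337 (T t3 (L l337 (T t0 (K a16 (M a60 (F (T t138 (L l14 (L l18 (L l307 (T t67 (T t65 N)))))))) (K a32 (M a60 (F (T t138 (L l307 (T t67 (L l24 (L l28 (T t65 N)))))))) (K a21 (M a192 (F (T t54 (L l146 (L l273 (T t27 (L l47 (L l347 (T t29 N))))))))) (K a37 (M a192 (F (T t54 (L l146 (L l273 (T t27 (L l138 (L l295 (T t21 N))))))))) (K a53 (M a192 (F (T t36 (L l138 (L l295 (L l491 (T t21 (T t31 N)))))))) (K a26 (M a192 (F (T t56 (L l146 (L l273 (T t27 (L l138 (L l295 (T t21 N))))))))) (K a42 (M a192 (F (T t56 (L l146 (L l273 (T t27 (L l28 (T t29 N)))))))) (K a58 (M a192 (F (T t57 (L l146 (L l273 (T t27 (L l54 (L l498 (T t31 N))))))))) (K a15 (M a192 (L l337 (F (T t57 (L l146 (L l273 (L l483 (T t27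 (L l235 (L l325 (T t20 (K a135 (M a75 (F (T t57 (L l235 (L l325 (T t22 (L l273 (L l483 (T t28 N))))))))) (K a75 (M a135 (F (T t57 (L l235 (L l325 (T t22 (L l273 (L l483 (T t28 N))))))))) N))))))))))))) N))))))))))))))))))))⟩
def e0_63__195_34 : Ent 4 := ⟨[a0, a63], [a195, a77], (M a48 (F (T t48 (L l337 (T t1 (L l337 (T t2 (L l337 (T t3 (L l337 (T t0 (K a16 (M a60 (F (T t138 (L l14 (L l18 (L l307 (T t67 (T t65 N)))))))) (K a32 (M a60 (F (T t138 (L l307 (T t67 (L l24 (L l28 (T t65 N)))))))) (K a21 (M a192 (F (T t54 (L l273 (T t27 (L l47 (L l347 (T t29 N)))))))) (K a37 (M a192 (F (T t54 (L l273 (T t27 (L l295 (T t21 N))))))) (K a53 (M a192 (F (T t55 (L l295 (L l491 (T t21 (T t31 N))))))) (K a26 (M a192 (F (T t56 (L l273 (T t27 (L l295 (T t21 N))))))) (K a42 (M a192 (F (T t56 (L l273 (T t27 (L l28 (T t29 N))))))) (K a58 (M a192 (F (T t57 (L l273 (T t27 (L l54 (L l498 (T t31 N)))))))) (K a15 (M a192 (L l337 (F (T t47 (L l273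 (L l483 (T t27 (L l235 (L l325 (L l326 (T t20 (K a135 (M a75 (F (T t1800 (L l235 (L l325 (L l326 (T t22 (L l273 (L l483 (T t28 N)))))))))) (K a75 (M a135 (F (T t1800 (L l235 (L l325 (L l326 (T t22 (L l273 (L l483 (T t28 N)))))))))) N))))))))))))) N))))))))))))))))))))⟩
def e0_63__195_35 : Ent 4 := ⟨[a0, a63], [a195, a78], (M a12 (F (T t150 (L l487 (T t122 (L l487 (T t151 (L l487 (T t152 (L l487 (T t153 (K a4 (M a60 (F (T t570 (L l46 (L l50 (L l307 (T t67 (T t448 N)))))))) (K a8 (M a60 (F (T t116 (L l324 (L l327 (L l337 (T t398 (L l52 (L l56 (T t448 N)))))))))) (K a21 (M a192 (F (T t158 (L l79 (L l237 (L l327 (T t156 (L l15 (L l347 (T t157 N)))))))))) (K a25 (M a192 (F (T t158 (L l79 (L l237 (L l327 (T t156 (L l295 (T t21 N))))))))) (K a29 (M a192 (F (T t1681 (L l79 (L l237 (L l327 (T t156 (T t160 N)))))))) (K a38 (M a192 (F (T t161 (L l79 (L l237 (L l327 (T t156 (L l295 (T t21 N))))))))) (K a42 (M a192 (F (T t161 (L l79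 (L l237 (L l327 (T t156 (L l56 (T t157 N))))))))) (K a46 (M a192 (F (T t57 (L l79 (L l237 (L l327 (T t156 (L l26 (L l408 (T t160 N)))))))))) (K a51 (M a192 (L l487 (F (T t1681 (L l79 (L l237 (L l327 (L l513 (T t156 (L l271 (L l415 (T t450 (K a147 (M a99 (F (T t1800 (L l271 (L l415 (T t543 (L l237 (L l327 (L l513 (T t468 N)))))))))) (K a99 (M a147 (F (T t1800 (L l271 (L l415 (T t543 (L l237 (L l327 (L l513 (T t468 N)))))))))) N)))))))))))))) N))))))))))))))))))))⟩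
def e0_63__195_36 : Ent 4 := ⟨[a0, a63], [a195, a79], (M a12 (F (T t150 (L l487 (T t122 (L l487 (T t151 (L l487 (T t152 (L l487 (T t153 (K a4 (M a60 (F (T t570 (L l46 (L l50 (L l307 (T t67 (T t448 N)))))))) (K a8 (M a60 (F (T t570 (L l307 (T t67 (L l52 (L l56 (T t448 N)))))))) (K a21 (M a192 (F (T t158 (L l79 (L l237 (T t156 (L l15 (L l347 (T t157 N))))))))) (K a25 (M a192 (F (T t158 (L l79 (L l237 (T t156 (L l137 (L l295 (T t21 N))))))))) (K a29 (M a192 (F (T t496 (L l137 (L l295 (L l371 (T t21 (T t160 N)))))))) (K a38 (M a192 (F (T t161 (L l79 (L l237 (T t156 (L l137 (L l295 (T t21 N))))))))) (K a42 (M a192 (F (T t161 (L l79 (L l237 (T t156 (L l56 (T t157 N)))))))) (K a46 (M a192 (F (T t57 (L l79 (L l237 (T t156 (L l26 (L l408 (T t160 N))))))))) (K a51 (M a192 (L l487 (F (T t57 (L l79 (L l237 (L l513 (T t156 (L l271 (L l415 (T t450 (K a147 (M a99 (F (T t57 (L l271 (L l415 (T t543 (L l237 (L l513 (T t468 N))))))))) (K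 a99 (M a147 (F (T t57 (L l271 (L l415 (T t543 (L l237 (L l513 (T t468 N))))))))) N))))))))))))) N))))))))))))))))))))⟩
def e0_63__195_37 : Ent 4 := ⟨[a0, a63], [a195, a84], (M a48 (F (T t132 (L l337 (T t1 (L l337 (T t2 (L l337 (L l364 (T t3 (L l337 (T t0 (K a16 (M a60 (L l364 (F (T t138 (L l14 (L l18 (L l307 (L l346 (T t67 (T t65 (K a152 (M a220 (F (T t522 (L l487 (T t70 (L l14 (L l18 (L l346 (T t44 N))))))))) (K a220 (M a152 (F (T t662 (L l237 (L l286 (T t469 N)))))) N)))))))))))) (K a32 (M a60 (F (T t236 (L l307 (L l346 (T t67 (L l24 (L l28 (T t65 N))))))))) (K a21 (M a192 (F (T t53 (L l273 (T t27 (L l47 (L l347 (T t29 N)))))))) (K a37 (M a192 (F (T t54 (L l273 (T t27 (L l295 (T t21 N))))))) (K a53 (M a192 (F (L l273 (T t28 (L l295 (L l491 (T t21 (T t31 N)))))))) (K a26 (M a192 (F (T t56 (L l273 (T t27 (L l295 (T t21 N))))))) (K a42 (M a192 (F (T t56 (L l273 (T t27 (L l28 (T t29 N))))))) (K a58 (M a192 (F (T t57 (L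 l273 (T t27 (L l54 (L l498 (T t31 N)))))))) (K a15 (M a192 (L l337 (F (T t57 (L l273 (L l483 (T t27 (L l235 (L l325 (T t20 (K a135 (M a75 (F (T t47 (L l235 (L l325 (T t22 (L l273 (L l483 (T t28 N))))))))) (K a75 (M a135 (F (T t47 (L l235 (L l325 (T t22 (L l273 (L l483 (T t28 N))))))))) N)))))))))))) N)))))))))))))))))))))⟩
def e0_63__195_38 : Ent 4 := ⟨[a0, a63], [a195, a85], (M a48 (F (T t610 (L l337 (L l347 (T t1 (L l337 (L l455 (T t2 (L l337 (L l347 (L l368 (T t3 (L l337 (T t0 (K a16 (M a60 (L l368 (F (T t522 (L l487 (T t64 (L l455 (T t65 (K a154 (M a223 (F (T t246 (L l307 (L l473 (T t69 (L l455 (L l498 (T t65 N))))))))) (K a223 (M a154 (F (T t522 (L l228 (L l340 (T t473 N)))))) N)))))))))) (K a32 (M a60 (F (T t138 (L l307 (L l347 (L l350 (T t67 (L l24 (L l28 (L l455 (T t65 N))))))))))) (K a21 (M a149 (F (L l228 (T t4 (L l144 (L l273 (T t13 (L l18 (L l123 (L l144 (L l368 (T t482 (L l18 (L l123 (L l235 (L l368 (T t483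 N))))))))))))))))) (K a37 (M a192 (F (L l273 (T t27 (L l47 (L l235 (L l347 (T t20 (L l144 (L l368 (T t224 N))))))))))) (K a53 (M a12 (F (L l518 (T t443 (L l47 (L l347 (L l487 (T t122 (L l47 (L l347 (T t146 N))))))))))) (K a26 (M a192 (F (L l273 (T t27 (L l235 (L l347 (T t20 (L l18 (L l54 (L l144 (L l368 (T t224 N)))))))))))) (K a42 (M a192 (F (L l273 (T t27 (L l235 (L l347 (T t20 (L l54 (L l144 (L l368 (L l390 (T t224 N)))))))))))) (K a58 (M a12 (F (L l518 (T t443 (L l347 (L l487 (T t122 (L l347 (T t146 N))))))))) (K a15 (M a192 (L l337 (F (L l347 (T t56 (L l273 (L l483 (T t27 (L l144 (L l368 (T t224 (K a135 (M a75 (F (L l347 (T t56 (L l273 (L l483 (T t28 (L l144 (L l368 (T t224 N)))))))))) (K a75 (M a135 (F (L l347 (T t56 (L l273 (L l483 (T t28 (L l144 (L l368 (T t224 N)))))))))) N))))))))))))) N))))))))))))))))))))))))⟩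
def e0_63__195_39 : Ent 4 := ⟨[a0, a63], [a195, a86], (M a48 (F (T t48 (L l337 (T t1 (L l337 (T t2 (L l337 (T t3 (L l337 (T t0 (K a16 (M a60 (F (T t138 (L l14 (L l18 (L l307 (L l477 (T t67 (L l351 (T t65 N)))))))))) (K a32 (M a60 (F (T t138 (L l307 (L l477 (T t67 (L l24 (L l28 (L l351 (T t65 N)))))))))) (K a21 (M a192 (F (T t1922 (L l47 (L l235 (L l347 (L l351 (T t20 (L l47 (L l347 (L l351 (T t29 N)))))))))))) (K a37 (M a192 (F (T t36 (L l47 (L l235 (L l351 (T t20 (L l295 (L l351 (T t21 N)))))))))) (K a53 (M a192 (F (T t55 (L l295 (L l351 (L l491 (T t21 (L l142 (T t31 N))))))))) (K a26 (M a192 (F (T t1922 (L l235 (L l351 (T t20 (L l295 (L l351 (T t21 N))))))))) (K a42 (M a192 (F (T t36 (L l235 (L l351 (T t20 (L l28 (L l351 (T t29 N))))))))) (K a58 (M a192 (F (T t1922 (L l295 (L l351 (T t21 (L l54 (L l142 (L l498 (T t31 N)))))))))) (K a15 (M a192 (L l337 (F (T t1922 (L l235 (L l325 (L l351 (T t20 (L l295 (L l351 (L l469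 (T t21 (K a135 (M a75 (F (T t55 (L l295 (L l351 (L l469 (T t35 (L l142 (L l235 (L l325 (T t22 N))))))))))) (K a75 (M a135 (F (T t55 (L l295 (L l351 (L l469 (T t35 (L l142 (L l235 (L l325 (T t22 N))))))))))) N)))))))))))))) N))))))))))))))))))))⟩
def e0_63__195_40 : Ent 4 := ⟨[a0, a63], [a195, a87], (M a48 (F (T t48 (L l337 (T t1 (L l337 (T t2 (L l337 (T t3 (L l337 (T t0 (K a16 (M a60 (F (T t662 (L l487 (T t64 (L l349 (T t65 N))))))) (K a32 (M a60 (F (T t116 (L l487 (T t64 (L l24 (L l28 (L l349 (T t65 N))))))))) (K a21 (M a192 (F (T t54 (L l273 (T t27 (L l47 (L l347 (L l367 (T t29 N))))))))) (K a37 (M a192 (F (T t54 (L l273 (T t27 (L l143 (L l295 (L l475 (T t21 N))))))))) (K a53 (M a192 (F (T t1681 (L l273 (T t27 (T t31 N)))))) (K a26 (M a192 (F (T t56 (L l273 (T t27 (L l143 (L l295 (L l475 (T t21 N))))))))) (K a42 (M a192 (F (T t56 (L l273 (T t27 (L l28 (L l367 (T t29 N)))))))) (K a58 (M a192 (F (T t57 (L l273 (T t27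 (L l54 (L l498 (T t31 N)))))))) (K a15 (M a106 (L l337 (F (T t2289 (T t306 (K a135 (M a75 (F (T t2289 (T t306 N)))) (K a75 (M a135 (F (T t2289 (T t306 N)))) N))))))) N))))))))))))))))))))⟩
def e0_63__195_41 : Ent 4 := ⟨[a0, a63], [a195, a88], (M a48 (F (T t48 (L l337 (T t1 (L l337 (T t2 (L l337 (T t3 (L l337 (T t0 (K a16 (M a60 (F (T t138 (L l14 (L l18 (L l307 (T t67 (T t65 N)))))))) (K a32 (M a60 (F (T t138 (L l307 (T t67 (L l24 (L l28 (T t65 N)))))))) (K a21 (M a192 (F (T t54 (L l146 (L l273 (L l478 (T t27 (L l47 (L l347 (T t29 N)))))))))) (K a37 (M a192 (F (T t53 (L l146 (L l273 (L l478 (T t27 (L l295 (T t21 N))))))))) (K a53 (M a192 (F (T t1681 (L l146 (L l273 (L l478 (T t27 (T t31 N)))))))) (K a26 (M a192 (F (T t56 (L l146 (L l273 (L l478 (T t27 (L l295 (T t21 N))))))))) (K a42 (M a192 (F (T t56 (L l146 (L l273 (L l478 (T t27 (L l28 (T t29 N))))))))) (K a58 (M a192 (F (T t57 (L l146 (L l273 (L l478 (T t27 (L l54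 (L l498 (T t31 N)))))))))) (K a15 (M a192 (L l337 (F (T t1681 (L l146 (L l273 (L l478 (L l483 (T t27 (L l235 (L l325 (T t20 (K a135 (M a75 (F (T t1800 (L l235 (L l325 (T t22 (L l273 (L l370 (L l478 (L l483 (T t28 N))))))))))) (K a75 (M a135 (F (T t1800 (L l235 (L l325 (T t22 (L l273 (L l370 (L l478 (L l483 (T t28 N))))))))))) N)))))))))))))) N))))))))))))))))))))⟩
def e0_63__195_42 : Ent 4 := ⟨[a0, a63], [a195, a89], (M a48 (F (T t48 (L l337 (T t1 (L l337 (T t2 (L l337 (T t3 (L l337 (T t0 (K a16 (M a60 (F (T t138 (L l14 (L l18 (L l307 (T t67 (T t65 N)))))))) (K a32 (M a60 (F (T t138 (L l307 (T t67 (L l24 (L l28 (T t65 N)))))))) (K a21 (M a192 (F (T t1922 (L l47 (L l235 (L l347 (L l371 (T t20 (L l47 (L l347 (L l371 (T t29 N)))))))))))) (K a37 (M a192 (F (T t36 (L l47 (L l235 (L l371 (T t20 (L l295 (L l371 (T t21 N)))))))))) (K a53 (M a192 (F (T t55 (L l295 (L l371 (L l491 (T t21 (L l132 (T t31 N))))))))) (K a26 (M a192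 (F (T t1922 (L l235 (L l371 (T t20 (L l295 (L l371 (T t21 N))))))))) (K a42 (M a192 (F (T t36 (L l235 (L l371 (T t20 (L l28 (L l371 (T t29 N))))))))) (K a58 (M a192 (F (T t1922 (L l295 (L l371 (T t21 (L l54 (L l132 (L l498 (T t31 N)))))))))) (K a15 (M a192 (L l337 (F (T t1922 (L l235 (L l325 (L l371 (T t20 (L l295 (L l371 (L l469 (T t21 (K a135 (M a75 (F (T t55 (L l295 (L l371 (L l469 (T t35 (L l132 (L l235 (L l325 (T t22 N))))))))))) (K a75 (M a135 (F (T t55 (L l295 (L l371 (L l469 (T t35 (L l132 (L l235 (L l325 (T t22 N))))))))))) N)))))))))))))) N))))))))))))))))))))⟩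
def e0_63__195_43 : Ent 4 := ⟨[a0, a63], [a195, a90], (M a12 (F (T t150 (L l487 (T t122 (L l487 (T t151 (L l487 (T t152 (L l487 (T t153 (K a4 (M a60 (F (T t570 (L l46 (L l50 (L l307 (T t67 (T t448 N)))))))) (K a8 (M a60 (F (T t570 (L l307 (T t67 (L l52 (L l56 (T t448 N)))))))) (K a21 (M a192 (F (T t1725 (L l15 (L l271 (L l347 (L l375 (T t450 (L l15 (L l347 (L l375 (T t157 N)))))))))))) (K a25 (M a192 (F (T t496 (L l15 (L l271 (L l375 (T t450 (L l295 (L l375 (T t21 N)))))))))) (K a29 (M a192 (F (T t159 (L l295 (L l371 (L l375 (T t21 (L l130 (T t160 N))))))))) (K a38 (M a192 (F (T t1725 (L l271 (L l375 (T t450 (L l295 (L l375 (T t21 N))))))))) (K a42 (M a192 (F (T t496 (L l271 (L l375 (T t450 (L l56 (L l375 (T t157 N))))))))) (K a46 (M a192 (F (T t1725 (L l295 (L l375 (T t21 (L l26 (L l130 (L l408 (T t160 N)))))))))) (K a51 (M a192 (L l487 (F (T t1725 (L l271 (L l375 (L l415 (T t450 (L l295 (L l375 (L l439 (T t21 (K a147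 (M a99 (F (T t159 (L l295 (L l375 (L l439 (T t35 (L l130 (L l271 (L l415 (T t543 N))))))))))) (K a99 (M a147 (F (T t159 (L l295 (L l375 (L l439 (T t35 (L l130 (L l271 (L l415 (T t543 N))))))))))) N)))))))))))))) N))))))))))))))))))))⟩
def e0_63__195_44 : Ent 4 := ⟨[a0, a63], [a195, a91], (M a12 (F (T t150 (L l487 (T t122 (L l487 (T t151 (L l487 (T t152 (L l487 (T t153 (K a4 (M a60 (F (T t570 (L l46 (L l50 (L l307 (T t67 (T t448 N)))))))) (K a8 (M a60 (F (T t116 (L l337 (L l481 (T t398 (L l52 (L l56 (T t448 N))))))))) (K a21 (M a192 (F (T t2119 (L l15 (L l271 (L l347 (L l481 (T t450 (L l15 (L l347 (T t157 N))))))))))) (K a25 (M a192 (F (T t158 (L l237 (T t156 (L l295 (T t21 N))))))) (K a29 (M a192 (F (T t159 (L l295 (L l371 (T t21 (T t160 N))))))) (K a38 (M a192 (F (T t161 (L l237 (T t156 (L l295 (T t21 N))))))) (K a42 (M a192 (F (T t161 (L l237 (T t156 (L l56 (T t157 N))))))) (K a46 (M a192 (F (T t57 (L l237 (T t156 (L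 l26 (L l408 (T t160 N)))))))) (K a51 (M a170 (L l487 (F (T t439 (L l295 (L l439 (T t3685 (L l463 (T t3880 (K a147 (M a99 (F (T t4159 (L l463 (T t3682 N))))) (K a99 (M a147 (F (T t4159 (L l463 (T t3682 N))))) N))))))))))) N))))))))))))))))))))⟩
def e0_63__195_45 : Ent 4 := ⟨[a0, a63], [a195, a92], (M a48 (F (T t48 (L l337 (T t1 (L l337 (T t2 (L l337 (T t3 (L l337 (T t0 (K a16 (M a60 (F (T t138 (L l14 (L l18 (L l307 (T t67 (T t65 N)))))))) (K a32 (M a60 (F (T t138 (L l307 (T t67 (L l24 (L l28 (T t65 N)))))))) (K a21 (M a192 (F (T t54 (L l273 (T t27 (L l47 (L l347 (T t29 N)))))))) (K a37 (M a192 (F (T t53 (L l273 (T t27 (L l295 (T t21 N))))))) (K a53 (M a192 (F (T t55 (L l295 (L l491 (T t21 (T t31 N))))))) (K a26 (M a192 (F (T t33 (L l273 (T t27 (L l295 (T t21 N))))))) (K a42 (M a192 (F (T t56 (L l273 (T t27 (L l28 (T t29 N))))))) (K a58 (M a192 (F (T t57 (L l273 (T t27 (L l54 (L l498 (T t31 N)))))))) (K a15 (M a192 (L l337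 (F (T t47 (L l273 (L l483 (T t27 (L l235 (L l325 (T t20 (K a135 (M a75 (F (T t1800 (L l235 (L l325 (T t22 (L l273 (L l483 (T t28 N))))))))) (K a75 (M a135 (F (T t1800 (L l235 (L l325 (T t22 (L l273 (L l483 (T t28 N))))))))) N)))))))))))) N))))))))))))))))))))⟩
def e0_63__195_46 : Ent 4 := ⟨[a0, a63], [a195, a93], (M a48 (F (T t48 (L l337 (T t1 (L l337 (T t2 (L l337 (T t3 (L l337 (T t0 (K a16 (M a60 (F (T t138 (L l14 (L l18 (L l307 (T t67 (T t65 N)))))))) (K a32 (M a60 (F (T t138 (L l307 (T t67 (L l24 (L l28 (T t65 N)))))))) (K a21 (M a192 (F (T t54 (L l273 (T t27 (L l47 (L l347 (L l362 (T t29 N))))))))) (K a37 (M a192 (F (T t54 (L l273 (T t27 (L l138 (L l295 (L l470 (T t21 N))))))))) (K a53 (M a192 (F (T t1681 (L l273 (T t27 (T t31 N)))))) (K a26 (M a192 (F (T t56 (L l273 (T t27 (L l138 (L l295 (L l470 (T t21 N))))))))) (K a42 (M a192 (F (T t56 (L l273 (T t27 (L l28 (L l362 (T t29 N)))))))) (K a58 (M a192 (F (T t57 (L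 l273 (T t27 (L l54 (L l498 (T t31 N)))))))) (K a15 (M a106 (L l337 (F (T t2289 (T t306 (K a135 (M a75 (F (T t2289 (T t306 N)))) (K a75 (M a135 (F (T t2289 (T t306 N)))) N))))))) N))))))))))))))))))))⟩
def e0_63__195_47 : Ent 4 := ⟨[a0, a63], [a195, a94], (M a12 (F (T t150 (L l487 (T t122 (L l487 (T t151 (L l487 (T t152 (L l487 (T t153 (K a4 (M a60 (F (T t570 (L l46 (L l50 (L l307 (T t67 (T t448 N)))))))) (K a8 (M a60 (F (T t570 (L l307 (T t67 (L l52 (L l56 (T t448 N)))))))) (K a21 (M a192 (F (T t158 (L l237 (T t156 (L l15 (L l347 (T t157 N)))))))) (K a25 (M a192 (F (T t155 (L l237 (T t156 (L l295 (T t21 N))))))) (K a29 (M a192 (F (T t159 (L l295 (L l371 (T t21 (T t160 N))))))) (K a38 (M a192 (F (T t576 (L l237 (T t156 (L l295 (T t21 N))))))) (K a42 (M a192 (F (T t161 (L l237 (T t156 (L l56 (T t157 N))))))) (K a46 (M a192 (F (T t57 (L l237 (T t156 (L l26 (L l408 (T t160 N)))))))) (K a51 (M a192 (L l487 (F (T t47 (L l237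 (L l513 (T t156 (L l271 (L l415 (T t450 (K a147 (M a99 (F (T t1800 (L l271 (L l415 (T t543 (L l237 (L l513 (T t468 N))))))))) (K a99 (M a147 (F (T t1800 (L l271 (L l415 (T t543 (L l237 (L l513 (T t468 N))))))))) N)))))))))))) N))))))))))))))))))))⟩
def e0_63__195_48 : Ent 4 := ⟨[a0, a63], [a195, a95], (M a12 (F (T t150 (L l487 (T t122 (L l487 (T t151 (L l487 (T t152 (L l487 (T t153 (K a4 (M a60 (F (T t570 (L l46 (L l50 (L l307 (T t67 (T t448 N)))))))) (K a8 (M a60 (F (T t116 (L l337 (L l469 (T t398 (L l52 (L l56 (T t448 N))))))))) (K a21 (M a192 (F (T t158 (L l237 (T t156 (L l15 (L l347 (T t157 N)))))))) (K a25 (M a192 (F (T t158 (L l237 (T t156 (L l137 (L l295 (L l469 (T t21 N))))))))) (K a29 (M a192 (F (T t1681 (L l237 (T t156 (T t160 N)))))) (K a38 (M a192 (F (T t161 (L l237 (T t156 (L l137 (L l295 (L l469 (T t21 N))))))))) (K a42 (M a192 (F (T t161 (L l237 (T t156 (L l56 (T t157 N))))))) (K a46 (M a192 (F (T t57 (L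 l237 (T t156 (L l26 (L l408 (T t160 N)))))))) (K a51 (M a106 (L l487 (F (T t3609 (T t2474 (K a147 (M a99 (F (T t2419 (L l228 (L l489 (T t4429 (T t2415 N))))))) (K a99 (M a147 (F (T t2419 (L l228 (L l489 (T t4429 (T t2415 N))))))) N))))))) N))))))))))))))))))))⟩
def e0_63__195_49 : Ent 4 := ⟨[a0, a63], [a195, a104], (M a48 (F (T t48 (L l337 (T t1 (L l337 (T t2 (L l337 (T t3 (L l337 (T t0 (K a16 (M a60 (F (T t236 (L l14 (L l18 (L l307 (T t67 (L l388 (T t65 N))))))))) (K a32 (M a60 (F (T t116 (L l487 (T t64 (L l24 (L l28 (L l388 (T t65 N))))))))) (K a21 (M a192 (F (L l273 (T t27 (L l47 (L l235 (L l347 (T t20 (L l47 (L l347 (T t29 N))))))))))) (K a37 (M a192 (F (T t55 (L l47 (L l235 (T t20 (L l295 (T t21 N)))))))) (K a53 (M a192 (F (T t55 (L l295 (L l491 (T t21 (L l98 (L l100 (T t31 N))))))))) (K a26 (M a192 (F (T t56 (L l273 (T t27 (L l295 (T t21 N))))))) (K a42 (M a192 (F (T t56 (L l273 (T t27 (L l28 (T t29 N))))))) (K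 a58 (M a192 (F (T t57 (L l273 (T t27 (L l54 (L l98 (L l100 (L l498 (T t31 N)))))))))) (K a15 (M a192 (L l337 (F (T t47 (L l273 (L l483 (T t27 (L l235 (L l325 (T t20 (K a135 (M a75 (F (T t47 (L l98 (L l100 (L l235 (L l325 (T t22 (L l100 (L l273 (L l483 (T t28 N)))))))))))) (K a75 (M a135 (F (T t47 (L l98 (L l100 (L l235 (L l325 (T t22 (L l100 (L l273 (L l483 (T t28 N)))))))))))) N)))))))))))) N))))))))))))))))))))⟩
def e0_63__195_50 : Ent 4 := ⟨[a0, a63], [a195, a105], (M a60 (F (L l307 (T t67 (L l515 (T t116 (L l307 (L l392 (T t43 (L l307 (L l515 (T t68 (L l307 (T t69 (K a20 (M a48 (F (T t132 (L l487 (L l515 (T t64 (L l11 (L l500 (L l515 (T t235 N)))))))))) (K a40 (M a170 (F (L l295 (T t2190 (L l141 (L l145 (L l297 (T t1570 (L l228 (L l515 (T t5162 N))))))))))) (K a21 (M a48 (F (L l487 (T t70 (L l338 (L l392 (T t248 (L l11 (L l18 (L l47 (L l65 (L l338 (L l410 (L l515 (T t288 (L l50 (L l338 (L l392 (T t1300 N)))))))))))))))))))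 (K a41 (M a32 (L l389 (F (T t1568 (L l65 (L l337 (T t219 (L l25 (L l65 (T t1569 (K a169 (M a233 (F (T t1568 (L l65 (L l337 (T t219 (L l25 (L l65 (T t1569 N))))))))) (K a233 (M a169 (L l297 (F (T t1568 (L l65 (L l337 (T t219 (L l25 (L l65 (T t1569 (K a252 (M a214 (F (T t1568 (L l65 (L l337 (L l471 (T t219 (L l25 (L l65 (T t1569 N)))))))))) (K a214 (M a252 (F (T t1568 (L l228 (L l250 (T t5163 N)))))) N)))))))))))) N)))))))))))) (K a61 (M a149 (F (L l228 (T t5 (L l98 (L l145 (L l297 (T t463 (L l295 (L l392 (T t5164 N))))))))))) (K a22 (M a192 (F (L l145 (L l297 (T t77 (L l295 (L l515 (T t21 (L l66 (L l98 (L l295 (L l392 (T t2718 N))))))))))))) (K a42 (M a48 (F (L l56 (T t1308 (L l54 (L l66 (L l487 (T t70 (L l56 (L l338 (L l410 (L l515 (T t288 (L l22 (L l28 (L l54 (L l66 (L l338 (L l392 (T t250 N)))))))))))))))))))) (K a62 (M a192 (F (T t1334 (L l295 (L l515 (T t35 (L l66 (L l98 (L l295 (L l392 (L l516 (T t2718 N))))))))))))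 (K a3 (M a192 (L l307 (F (T t1334 (L l295 (L l475 (L l515 (T t35 (L l98 (L l295 (L l392 (T t2718 (K a67 (M a131 (L l145 (F (T t1334 (L l295 (L l475 (L l515 (T t35 (L l98 (L l295 (L l392 (T t2718 (K a124 (M a86 (F (L l515 (T t57 (L l98 (L l140 (L l297 (L l392 (T t72 (L l98 (L l143 (L l475 (T t5165 (L l392 (L l515 (T t5166 N)))))))))))))))) (K a86 (M a124 (L l477 (F (T t5167 (L l143 (L l295 (L l475 (T t1126 (K a252 (M a169 (L l297 (F (T t5168 (L l261 (L l295 (L l351 (L l475 (L l515 (T t35 (L l98 (L l142 (L l295 (L l392 (T t2718 (K a233 (M a214 (F (T t5167 (L l250 (L l261 (L l295 (L l351 (L l475 (L l515 (T t35 (L l98 (L l142 (L l293 (L l295 (L l392 (T t2718 N)))))))))))))))) (K a214 (M a233 (L l348 (F (T t5168 (L l351 (L l515 (T t5169 (K a22 (Fr a150 a188 l221 (V t5170)) (K a150 (M a22 (F (T t3532 (L l163 (T t5168 N))))) N))))))))) N))))))))))))))))) (K a169 (Fr a252 a188 l430 (V t5168)) N)))))))))) N)))))))))))))) (K a131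 (M a67 (F (L l152 (T t254 (L l295 (L l475 (L l515 (T t35 (L l98 (L l295 (L l392 (T t2718 N)))))))))))) N)))))))))))))) N)))))))))))))))))))))))⟩
def e0_63__195_51 : Ent 4 := ⟨[a0, a63], [a195, a106], (M a48 (F (T t48 (L l337 (T t1 (L l337 (L l390 (L l498 (T t2 (L l337 (L l411 (T t3 (L l337 (L l390 (T t0 (K a16 (M a60 (F (T t236 (L l14 (L l18 (L l307 (L l393 (T t67 (L l390 (L l498 (T t65 N))))))))))) (K a32 (M a60 (F (T t2568 (L l487 (T t64 (L l24 (L l28 (L l390 (L l498 (T t65 N)))))))))) (K a21 (M a255 (F (L l273 (T t511 (L l235 (L l390 (T t512 (L l18 (L l144 (L l347 (L l498 (T t513 N)))))))))))) (K a37 (M a52 (F (L l338 (T t82 (L l487 (L l498 (T t83 (L l21 (L l28 (L l390 (L l498 (T t84 N)))))))))))) (K a53 (M a12 (F (T t145 (L l47 (L l487 (T t122 (L l47 (T t146 N)))))))) (K a26 (M a56 (F (L l338 (T t133 (L l487 (L l501 (T t134 (L l12 (L l18 (T t135 N)))))))))) (K a42 (M a170 (F (L l235 (T t316 (L l144 (L l273 (T t514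 (L l54 (L l104 (L l144 (L l498 (T t515 (L l54 (L l235 (L l498 (T t516 N)))))))))))))))) (K a58 (M a12 (L l498 (F (T t145 (L l487 (T t122 (T t146 (K a202 (M a154 (F (T t150 (L l104 (L l295 (L l426 (T t517 N))))))) (K a154 (M a202 (F (T t150 (L l356 (L l368 (L l518 (T t445 (L l356 (T t146 N))))))))) N))))))))) (K a15 (M a4 (L l337 (F (T t518 (L l73 (L l390 (L l487 (T t519 (L l390 (L l498 (T t520 (K a135 (M a75 (F (T t558 (L l73 (L l390 (L l487 (T t519 (L l390 (L l498 (T t520 N)))))))))) (K a75 (M a135 (F (T t558 (L l73 (L l390 (L l487 (T t519 (L l390 (L l498 (T t520 N)))))))))) N))))))))))))) N))))))))))))))))))))))))⟩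
def e0_63__195_52 : Ent 4 := ⟨[a0, a63], [a195, a107], (M a48 (F (T t48 (L l337 (T t1 (L l337 (T t2 (L l337 (L l409 (T t3 (L l337 (T t0 (K a16 (M a60 (F (T t138 (L l14 (L l18 (L l307 (L l391 (T t67 (T t65 N))))))))) (K a32 (M a60 (F (T t2568 (L l487 (T t64 (L l24 (L l28 (T t65 N)))))))) (K a21 (M a192 (F (T t2113 (L l47 (L l235 (L l347 (T t20 (L l47 (L l347 (T t29 N)))))))))) (K a37 (M a192 (F (T t36 (L l47 (L l235 (T t20 (L l143 (L l295 (T t21 N))))))))) (K a53 (M a192 (F (T t55 (L l143 (L l295 (L l491 (T t21 (L l98 (T t31 N))))))))) (K a26 (M a192 (F (T t56 (L l273 (T t27 (L l143 (L l295 (T t21 N)))))))) (K a42 (M a192 (F (T t56 (L l273 (T t27 (L l28 (T t29 N))))))) (K a58 (M a192 (F (T t57 (L l273 (T t27 (L l54 (L l98 (L l498 (T t31 N))))))))) (K a15 (M a106 (L l337 (F (T t2289 (T t306 (K a135 (M a75 (F (T t3759 (L l228 (L l339 (T t4540 (T t579 N))))))) (K a75 (M a135 (L l131 (F (T t3759 (L l228 (L l339 (T t4540 (T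 t579 (K a91 (M a123 (L l481 (F (T t5171 (T t579 (K a243 (M a167 (L l271 (F (T t579 (L l228 (L l272 (L l339 (L l373 (L l518 (T t5172 (K a211 (M a227 (L l373 (F (T t5173 (L l228 (L l272 (L l339 (T t586 (L l245 (T t579 (K a151 (M a31 (F (T t5174 (L l228 (L l272 (L l339 (T t4540 N))))))) (K a31 (Fr a151 a183 l201 (V t4429)) N)))))))))))) (K a227 (M a211 (F (L l380 (T t579 (L l228 (L l272 (L l339 (L l518 (T t5172 N))))))))) N)))))))))))) (K a167 (Fr a243 a183 l445 (V t5175)) N))))))) (K a123 (M a91 (F (T t3759 (L l228 (L l339 (T t4540 (T t579 N))))))) N)))))))))) N))))))) N)))))))))))))))))))))⟩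
def e0_63__195_53 : Ent 4 := ⟨[a0, a63], [a195, a108], (M a48 (F (T t48 (L l337 (T t1 (L l337 (T t2 (L l337 (T t3 (L l337 (T t0 (K a16 (M a60 (F (T t138 (L l14 (L l18 (L l307 (T t67 (T t65 N)))))))) (K a32 (M a60 (F (T t138 (L l307 (T t67 (L l24 (L l28 (T t65 N)))))))) (K a21 (M a192 (F (L l273 (T t27 (L l47 (L l235 (L l347 (T t20 (L l47 (L l347 (T t29 N))))))))))) (K a37 (M a192 (F (T t55 (L l47 (L l235 (T t20 (L l295 (T t21 N)))))))) (K a53 (M a192 (F (T t1681 (L l273 (T t27 (L l100 (T t31 N))))))) (K a26 (M a192 (F (T t56 (L l273 (T t27 (L l295 (T t21 N))))))) (K a42 (M a192 (F (T t56 (L l273 (T t27 (L l28 (T t29 N))))))) (K a58 (M a192 (F (T t57 (L l273 (T t27 (L l54 (L l100 (L l498 (T t31 N))))))))) (K a15 (M a192 (L l337 (F (T t36 (L l235 (L l325 (T t20 (L l295 (L l469 (T t21 (K a135 (M a75 (F (T t55 (L l295 (L l469 (T t35 (L l100 (L l235 (L l325 (T t22 N)))))))))) (K a75 (M a135 (F (T t55 (L l295 (L l469 (T t35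 (L l100 (L l235 (L l325 (T t22 N)))))))))) N)))))))))))) N))))))))))))))))))))⟩
def e0_63__195_54 : Ent 4 := ⟨[a0, a63], [a195, a109], (M a48 (F (T t48 (L l337 (T t1 (L l337 (T t2 (L l337 (T t3 (L l337 (T t0 (K a16 (M a60 (F (T t138 (L l14 (L l18 (L l307 (T t67 (T t65 N)))))))) (K a32 (M a60 (F (T t138 (L l307 (T t67 (L l24 (L l28 (T t65 N)))))))) (K a21 (M a192 (F (T t2113 (L l47 (L l235 (L l347 (L l506 (T t20 (L l47 (L l347 (T t29 N))))))))))) (K a37 (M a192 (F (T t54 (L l273 (T t27 (L l295 (T t21 N))))))) (K a53 (M a192 (F (T t55 (L l295 (L l491 (T t21 (T t31 N))))))) (K a26 (M a192 (F (T t56 (L l273 (T t27 (L l295 (T t21 N))))))) (K a42 (M a192 (F (T t56 (L l273 (T t27 (L l28 (T t29 N))))))) (K a58 (M a192 (F (T t57 (L l273 (T t27 (L l54 (L l498 (T t31 N)))))))) (K a15 (M a170 (L l337 (F (T t439 (L l295 (L l469 (T t323 (L l398 (T t3070 (K a135 (M a75 (F (T t2101 (L l398 (T t324 N))))) (K a75 (M a135 (F (T t2101 (L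 l398 (T t324 N))))) N))))))))))) N))))))))))))))))))))⟩
def e0_63__195_55 : Ent 4 := ⟨[a0, a63], [a195, a110], (M a48 (F (T t48 (L l337 (T t1 (L l337 (T t2 (L l337 (L l399 (T t3 (L l337 (T t0 (K a16 (M a60 (F (T t236 (L l14 (L l18 (L l307 (T t67 (T t65 N)))))))) (K a32 (M a60 (F (T t116 (L l487 (T t64 (L l24 (L l28 (T t65 N)))))))) (K a21 (M a192 (F (T t2113 (L l47 (L l235 (L l347 (T t20 (L l47 (L l347 (T t29 N)))))))))) (K a37 (M a192 (F (T t36 (L l47 (L l235 (T t20 (L l138 (L l295 (T t21 N))))))))) (K a53 (M a192 (F (T t55 (L l138 (L l295 (L l491 (T t21 (L l102 (T t31 N))))))))) (K a26 (M a192 (F (T t56 (L l273 (T t27 (L l138 (L l295 (T t21 N)))))))) (K a42 (M a192 (F (T t56 (L l273 (T t27 (L l28 (T t29 N))))))) (K a58 (M a192 (F (T t57 (L l273 (T t27 (L l54 (L l102 (L l498 (T t31 N))))))))) (K a15 (M a106 (L l337 (F (T t2289 (T t306 (K a135 (M a75 (F (T t3759 (L l228 (L l339 (T t4540 (T t579 N))))))) (K a75 (M a135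 (F (T t3759 (L l228 (L l339 (T t4540 (T t579 N))))))) N))))))) N)))))))))))))))))))))⟩
def e0_63__195_56 : Ent 4 := ⟨[a0, a63], [a195, a111], (M a48 (F (T t48 (L l337 (T t1 (L l337 (T t2 (L l337 (L l397 (T t3 (L l337 (T t0 (K a16 (M a60 (F (T t138 (L l14 (L l18 (L l307 (T t67 (T t65 N)))))))) (K a32 (M a60 (F (T t138 (L l307 (T t67 (L l24 (L l28 (T t65 N)))))))) (K a21 (M a192 (F (L l104 (L l235 (T t206 (L l273 (T t27 (L l47 (L l347 (T t29 N)))))))))) (K a37 (M a192 (F (T t55 (L l104 (L l235 (T t206 (L l137 (L l295 (T t21 N))))))))) (K a53 (M a192 (F (T t36 (L l137 (L l295 (L l491 (T t21 (L l104 (T t521 N))))))))) (K a26 (M a192 (F (L l273 (T t27 (L l54 (L l104 (L l235 (T t206 (L l137 (L l295 (T t21 N))))))))))) (K a42 (M a192 (F (T t55 (L l54 (L l104 (L l235 (L l390 (T t206 (L l28 (T t29 N)))))))))) (K a58 (M a192 (F (T t57 (L l273 (T t27 (L l54 (L l104 (L l498 (T t521 N))))))))) (K a15 (M a106 (L l337 (F (T t2289 (T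 t306 (K a135 (M a75 (F (T t3759 (L l273 (L l483 (T t551 (L l295 (L l469 (T t4723 N))))))))) (K a75 (M a135 (F (T t3759 (L l273 (L l483 (T t551 (L l295 (L l469 (T t4723 N))))))))) N))))))) N)))))))))))))))))))))⟩
def e0_63__195_57 : Ent 4 := ⟨[a0, a63], [a195, a124], (M a48 (F (T t48 (L l337 (T t1 (L l337 (T t2 (L l337 (T t3 (L l337 (T t0 (K a16 (M a60 (F (T t138 (L l14 (L l18 (L l307 (T t67 (T t65 N)))))))) (K a32 (M a60 (F (T t138 (L l307 (T t67 (L l24 (L l28 (T t65 N)))))))) (K a21 (M a192 (F (T t54 (L l110 (L l273 (T t27 (L l47 (L l347 (T t29 N))))))))) (K a37 (M a192 (F (T t54 (L l110 (L l273 (T t27 (L l109 (L l295 (T t21 N))))))))) (K a53 (M a192 (F (T t36 (L l109 (L l295 (L l491 (T t21 (T t31 N)))))))) (K a26 (M a192 (F (T t56 (L l110 (L l273 (T t27 (L l109 (L l295 (T t21 N))))))))) (K a42 (M a192 (F (T t56 (L l110 (L l273 (T t27 (L l28 (T t29 N)))))))) (K a58 (M a192 (F (T t57 (L l110 (L l273 (T t27 (L l54 (L l498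 (T t31 N))))))))) (K a15 (M a192 (L l337 (F (T t57 (L l110 (L l273 (L l483 (T t27 (L l235 (L l325 (T t20 (K a135 (M a75 (F (T t57 (L l235 (L l325 (T t22 (L l273 (L l483 (T t28 N))))))))) (K a75 (M a135 (F (T t57 (L l235 (L l325 (T t22 (L l273 (L l483 (T t28 N))))))))) N))))))))))))) N))))))))))))))))))))⟩
def e0_63__195_58 : Ent 4 := ⟨[a0, a63], [a195, a125], (M a48 (F (T t48 (L l337 (T t1 (L l337 (T t2 (L l337 (T t3 (L l337 (T t0 (K a16 (M a60 (F (T t138 (L l14 (L l18 (L l307 (T t67 (T t65 N)))))))) (K a32 (M a60 (F (T t138 (L l307 (T t67 (L l24 (L l28 (T t65 N)))))))) (K a21 (M a192 (F (T t54 (L l273 (T t27 (L l47 (L l347 (T t29 N)))))))) (K a37 (M a192 (F (T t54 (L l273 (T t27 (L l109 (L l295 (L l434 (T t21 N))))))))) (K a53 (M a192 (F (T t1681 (L l273 (T t27 (T t31 N)))))) (K a26 (M a192 (F (T t56 (L l273 (T t27 (L l109 (L l295 (L l434 (T t21 N))))))))) (K a42 (M a192 (F (T t56 (L l273 (T t27 (L l28 (T t29 N)))))))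 (K a58 (M a192 (F (T t57 (L l273 (T t27 (L l54 (L l498 (T t31 N)))))))) (K a15 (M a106 (L l337 (F (T t2289 (T t306 (K a135 (M a75 (F (T t585 (L l228 (L l339 (T t4429 (T t579 N))))))) (K a75 (M a135 (F (T t585 (L l228 (L l339 (T t4429 (T t579 N))))))) N))))))) N))))))))))))))))))))⟩
def e0_63__195_59 : Ent 4 := ⟨[a0, a63], [a195, a126], (M a48 (F (T t48 (L l337 (T t1 (L l337 (T t2 (L l337 (T t3 (L l337 (T t0 (K a16 (M a60 (F (T t236 (L l14 (L l18 (L l307 (T t67 (T t65 N)))))))) (K a32 (M a60 (F (T t116 (L l487 (T t64 (L l24 (L l28 (T t65 N)))))))) (K a21 (M a192 (F (T t2113 (L l47 (L l235 (L l347 (T t20 (L l47 (L l347 (T t29 N)))))))))) (K a37 (M a192 (F (T t36 (L l47 (L l235 (T t20 (L l109 (L l295 (T t21 N))))))))) (K a53 (M a192 (F (T t55 (L l109 (L l295 (L l491 (T t21 (L l142 (T t31 N))))))))) (K a26 (M a192 (F (T t56 (L l273 (T t27 (L l109 (L l295 (T t21 N)))))))) (K a42 (M a192 (F (T t56 (L l273 (T t27 (L l28 (T t29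 N))))))) (K a58 (M a192 (F (T t57 (L l273 (T t27 (L l54 (L l142 (L l498 (T t31 N))))))))) (K a15 (M a192 (L l337 (F (T t57 (L l273 (L l483 (T t27 (L l235 (L l325 (T t20 (K a135 (M a75 (F (T t57 (L l142 (L l235 (L l325 (T t22 (L l273 (L l483 (T t28 N)))))))))) (K a75 (M a135 (F (T t57 (L l142 (L l235 (L l325 (T t22 (L l273 (L l483 (T t28 N)))))))))) N)))))))))))) N))))))))))))))))))))⟩
def e0_63__195_60 : Ent 4 := ⟨[a0, a63], [a195, a127], (M a48 (F (T t48 (L l337 (T t1 (L l337 (T t2 (L l337 (T t3 (L l337 (T t0 (K a16 (M a60 (F (T t138 (L l14 (L l18 (L l307 (T t67 (T t65 N)))))))) (K a32 (M a60 (F (T t138 (L l307 (T t67 (L l24 (L l28 (T t65 N)))))))) (K a21 (M a192 (F (L l273 (T t28 (L l47 (L l235 (L l347 (T t20 (L l18 (L l144 (T t224 N))))))))))) (K a37 (M a192 (F (T t36 (L l47 (L l235 (T t20 (L l28 (L l144 (L l295 (T t37 N)))))))))) (K a53 (M a192 (F (T t36 (L l144 (L l295 (T t37 (L l47 (L l137 (L l491 (T t525 N))))))))))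 (K a26 (M a192 (F (T t56 (L l114 (L l273 (T t27 (L l54 (L l144 (L l295 (T t37 N)))))))))) (K a42 (M a192 (F (T t56 (L l114 (L l273 (T t27 (L l54 (L l144 (L l390 (T t224 N)))))))))) (K a58 (M a192 (F (T t36 (L l54 (L l144 (L l295 (L l498 (T t37 (L l137 (T t525 N)))))))))) (K a15 (M a106 (L l337 (F (T t2289 (T t306 (K a135 (M a75 (F (T t2289 (T t306 N)))) (K a75 (M a135 (F (T t2289 (T t306 N)))) N))))))) N))))))))))))))))))))⟩
def e0_63__195_61 : Ent 4 := ⟨[a0, a63], [a195, a192], (M a60 (L l228 (F (T t116 (L l307 (L l309 (T t67 (L l307 (L l309 (T t43 (L l307 (L l309 (T t68 (L l307 (L l309 (T t69 (K a20 (M a53 (L l228 (F (T t5176 (L l337 (L l339 (T t982 (T t5177 (K a193 (M a194 (F (T t939 (L l485 (L l487 (L l489 (T t937 (T t5178 N)))))))) (K a194 (M a193 (F (T t939 (L l236 (L l516 (T t5179 N)))))) N)))))))))) (K a40 (M a53 (L l228 (F (T t5176 (L l22 (L l337 (L l339 (T t982 (L l22 (T t5180 (K a193 (M a194 (F (L l485 (T t5176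 (L l22 (L l337 (L l339 (T t982 (L l22 (L l305 (L l485 (T t5180 N)))))))))))) (K a194 (M a193 (F (L l22 (L l24 (T t939 (L l236 (L l392 (L l516 (T t5179 N))))))))) N)))))))))))) (K a21 (M a48 (L l228 (F (T t1543 (L l47 (L l65 (L l487 (L l489 (T t64 (L l11 (L l18 (L l47 (L l65 (L l334 (L l338 (T t288 (L l50 (L l334 (L l338 (T t250 (K a193 (M a194 (F (T t1543 (L l485 (L l487 (L l489 (T t70 (L l47 (L l65 (L l236 (L l515 (T t5181 N)))))))))))) (K a194 (M a193 (F (T t1543 (L l236 (L l516 (T t5182 (L l18 (L l236 (L l347 (L l516 (T t5183 N))))))))))) N)))))))))))))))))))))) (K a41 (M a57 (L l228 (F (T t5184 (L l22 (L l334 (L l338 (T t4976 (L l22 (L l25 (L l29 (T t5185 (K a193 (M a194 (F (L l485 (T t5184 (L l22 (L l65 (L l295 (L l515 (T t4954 (L l22 (L l334 (L l338 (T t4976 N))))))))))))) (K a194 (M a193 (F (L l22 (T t5186 (L l237 (L l516 (T t5187 N))))))) N)))))))))))))) (K a61 (M a48 (L l228 (F (T t1308 (L l35 (L l65 (L l337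 (L l339 (T t1 (T t65 (K a193 (M a194 (L l515 (F (T t610 (L l334 (L l338 (T t489 (T t65 (K a149 (M a105 (F (T t132 (L l235 (L l295 (T t4938 N)))))) (K a105 (M a149 (F (T t1308 (L l233 (L l236 (L l293 (L l296 (T t6 N)))))))) N)))))))))) (K a194 (M a193 (F (T t610 (L l334 (L l338 (T t489 (T t65 N))))))) N)))))))))))) (K a22 (M a54 (L l228 (F (T t5188 (L l11 (L l334 (L l338 (T t3771 (L l11 (L l16 (L l19 (T t3772 (K a193 (M a194 (F (L l11 (T t5189 (L l237 (L l515 (T t5190 N))))))) (K a194 (M a193 (F (L l51 (T t5191 (L l11 (L l66 (L l295 (L l516 (T t5192 (L l11 (L l334 (L l338 (T t3771 N))))))))))))) N)))))))))))))) (K a42 (M a48 (L l228 (F (T t3520 (L l487 (L l489 (T t64 (L l56 (L l334 (L l338 (T t288 (L l22 (L l28 (L l54 (L l66 (L l334 (L l338 (T t250 (K a193 (M a194 (F (T t3520 (L l54 (L l487 (L l489 (T t451 (L l22 (L l28 (L l295 (L l390 (L l515 (T t5193 N))))))))))))) (K a194 (M a193 (F (T t3520 (L l54 (L l66 (L l236 (L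 l516 (T t5182 (L l54 (L l66 (L l236 (L l516 (T t5183 N))))))))))))) N)))))))))))))))))))) (K a62 (M a48 (L l228 (F (T t48 (L l334 (L l338 (T t247 (L l36 (L l66 (T t65 (K a193 (M a194 (F (T t607 (L l334 (L l338 (T t489 (L l36 (L l66 (T t65 N))))))))) (K a194 (M a193 (L l516 (F (T t607 (L l334 (L l338 (T t489 (L l36 (L l66 (T t65 (K a150 (M a106 (F (T t3235 (L l234 (L l236 (L l294 (L l296 (T t306 N)))))))) (K a106 (M a150 (F (T t48 (L l235 (L l295 (T t5194 N)))))) N)))))))))))) N)))))))))))) (K a3 (M a53 (L l228 (L l307 (L l309 (F (T t5176 (L l7 (L l337 (L l339 (T t982 (L l9 (T t5178 (K a129 (M a66 (L l228 (L l307 (F (T t5176 (L l7 (L l337 (L l339 (T t982 (L l9 (T t5178 (K a193 (M a194 (L l305 (L l307 (F (T t5195 (L l152 (L l515 (T t4947 (K a1 (M a65 (L l307 (F (T t5196 (L l65 (L l152 (L l515 (T t4947 (K a67 (M a131 (F (T t5196 (L l65 (L l515 (T t4947 N)))))) (K a131 (Fr a67 a64 l76 (V t5176)) N)))))))))) (K a65 (M a1 (L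 l307 (F (T t4949 (L l9 (L l334 (L l338 (T t76 (K a67 (M a131 (F (T t4948 (L l9 (L l334 (L l338 (T t1338 N))))))) (K a131 (M a67 (L l152 (F (T t4948 (L l9 (L l334 (L l338 (T t76 (K a128 (Fr a130 a2 l306 (V t4949)) (K a130 (M a128 (F (T t4949 (L l9 (L l334 (L l338 (T t1328 N))))))) N)))))))))) N)))))))))) (K a67 (M a131 (L l305 (F (T t5196 (L l515 (T t4947 (K a1 (M a65 (F (T t5196 (L l65 (L l515 (T t4947 N)))))) (K a65 (M a1 (F (T t4948 (L l9 (L l334 (L l338 (T t1338 N))))))) N)))))))) (K a131 (M a67 (L l152 (L l305 (F (L l515 (T t5197 (L l9 (L l334 (L l338 (T t1338 (K a128 (Fr a130 a2 l306 (V t937)) (K a1 (Fr a65 a64 l76 (V t5176)) (K a65 (M a1 (L l152 (F (T t4948 (L l9 (L l334 (L l338 (T t76 (K a128 (Fr a130 a2 l306 (V t4949)) (K a130 (M a128 (F (T t4949 (L l9 (L l334 (L l338 (T t1328 N))))))) N)))))))))) (K a130 (M a128 (L l305 (F (T t178 (L l43 (L l485 (L l487 (L l489 (T t937 (L l218 (L l221 (L l296 (L l515 (T t5198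 (K a1 (Fr a65 a64 l76 (V t982)) (K a65 (M a1 (F (T t4949 (L l9 (L l334 (L l338 (T t1328 N))))))) N)))))))))))))))) N)))))))))))))) N)))))))))))) (K a194 (M a193 (L l307 (F (T t178 (L l236 (L l516 (T t5179 (K a67 (M a131 (F (T t939 (L l145 (L l236 (L l516 (T t5179 N))))))) (K a131 (M a67 (L l152 (F (T t939 (L l236 (L l516 (T t5179 (K a128 (M a130 (F (T t178 (L l236 (L l516 (T t5179 N)))))) (K a130 (M a128 (F (T t939 (L l236 (L l516 (T t5179 N)))))) N))))))))) N))))))))) (K a67 (M a131 (L l228 (F (T t5176 (L l7 (L l337 (L l339 (T t982 (L l9 (T t5178 (K a193 (M a194 (L l305 (F (T t5196 (L l515 (T t4947 (K a1 (M a65 (F (T t5196 (L l65 (L l515 (T t4947 N)))))) (K a65 (M a1 (F (T t4948 (L l9 (L l334 (L l338 (T t1338 N))))))) N)))))))) (K a194 (M a193 (F (T t939 (L l145 (L l236 (L l516 (T t5179 N))))))) N)))))))))))) (K a131 (M a67 (L l152 (L l228 (F (T t5176 (L l7 (L l337 (L l339 (T t982 (L l9 (T t5178 (K a128 (M a130 (L l228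 (F (T t5199 (L l9 (L l334 (L l338 (T t76 (K a193 (Fr a194 a2 l306 (V t937)) (K a194 (M a193 (F (T t178 (L l236 (L l516 (T t5179 N)))))) N)))))))))) (K a193 (M a194 (L l152 (L l305 (F (L l515 (T t5197 (L l9 (L l334 (L l338 (T t1338 (K a128 (Fr a130 a2 l306 (V t937)) (K a1 (Fr a65 a64 l76 (V t5176)) (K a65 (M a1 (L l152 (F (T t4948 (L l9 (L l334 (L l338 (T t76 (K a128 (Fr a130 a2 l306 (V t4949)) (K a130 (M a128 (F (T t4949 (L l9 (L l334 (L l338 (T t1328 N))))))) N)))))))))) (K a130 (M a128 (L l305 (F (T t178 (L l43 (L l485 (L l487 (L l489 (T t937 (L l218 (L l221 (L l296 (L l515 (T t5198 (K a1 (Fr a65 a64 l76 (V t982)) (K a65 (M a1 (F (T t4949 (L l9 (L l334 (L l338 (T t1328 N))))))) N)))))))))))))))) N)))))))))))))) (K a130 (M a128 (L l228 (F (T t5176 (L l7 (L l337 (L l339 (T t982 (L l9 (T t5178 (K a193 (M a194 (L l305 (F (T t178 (L l43 (L l485 (L l487 (L l489 (T t937 (L l218 (L l221 (L l296 (L l515 (T t5198 (K a1 (Fr a65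 a64 l76 (V t982)) (K a65 (M a1 (F (T t4949 (L l9 (L l334 (L l338 (T t1328 N))))))) N)))))))))))))))) (K a194 (M a193 (F (T t939 (L l236 (L l516 (T t5179 N)))))) N)))))))))))) (K a194 (M a193 (L l152 (F (T t939 (L l236 (L l516 (T t5179 (K a128 (M a130 (F (T t178 (L l236 (L l516 (T t5179 N)))))) (K a130 (M a128 (F (T t939 (L l236 (L l516 (T t5179 N)))))) N))))))))) N))))))))))))))) N))))))))))))))) (K a193 (M a194 (L l307 (L l309 (F (T t939 (L l43 (L l485 (L l487 (L l489 (T t937 (L l9 (T t5178 (K a129 (M a66 (L l305 (L l307 (F (T t5195 (L l152 (L l515 (T t4947 (K a1 (M a65 (L l307 (F (T t5196 (L l65 (L l152 (L l515 (T t4947 (K a67 (M a131 (F (T t5196 (L l65 (L l515 (T t4947 N)))))) (K a131 (Fr a67 a64 l76 (V t5176)) N)))))))))) (K a65 (M a1 (L l307 (F (T t4949 (L l9 (L l334 (L l338 (T t76 (K a67 (M a131 (F (T t4948 (L l9 (L l334 (L l338 (T t1338 N))))))) (K a131 (M a67 (L l152 (F (T t4948 (L l9 (L l334 (L l338 (T t76 (K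 a128 (Fr a130 a2 l306 (V t4949)) (K a130 (M a128 (F (T t4949 (L l9 (L l334 (L l338 (T t1328 N))))))) N)))))))))) N)))))))))) (K a67 (M a131 (L l305 (F (T t5196 (L l515 (T t4947 (K a1 (M a65 (F (T t5196 (L l65 (L l515 (T t4947 N)))))) (K a65 (M a1 (F (T t4948 (L l9 (L l334 (L l338 (T t1338 N))))))) N)))))))) (K a131 (M a67 (L l152 (L l305 (F (L l515 (T t5197 (L l9 (L l334 (L l338 (T t1338 (K a128 (Fr a130 a2 l306 (V t937)) (K a1 (Fr a65 a64 l76 (V t5176)) (K a65 (M a1 (L l152 (F (T t4948 (L l9 (L l334 (L l338 (T t76 (K a128 (Fr a130 a2 l306 (V t4949)) (K a130 (M a128 (F (T t4949 (L l9 (L l334 (L l338 (T t1328 N))))))) N)))))))))) (K a130 (M a128 (L l305 (F (T t178 (L l43 (L l485 (L l487 (L l489 (T t937 (L l218 (L l221 (L l296 (L l515 (T t5198 (K a1 (Fr a65 a64 l76 (V t982)) (K a65 (M a1 (F (T t4949 (L l9 (L l334 (L l338 (T t1328 N))))))) N)))))))))))))))) N)))))))))))))) N)))))))))))) (K a66 (M a129 (L l307 (F (T t939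 (L l43 (L l485 (L l487 (L l489 (T t937 (L l9 (T t5178 (K a67 (M a131 (L l76 (F (T t939 (L l142 (L l295 (L l515 (T t5200 (K a64 (M a65 (F (T t5201 (L l7 (L l337 (L l339 (T t982 (L l142 (L l144 (L l295 (L l515 (T t5202 N)))))))))))) (K a65 (M a64 (F (T t5196 (L l143 (L l295 (L l296 (L l475 (L l515 (T t5203 N))))))))) N)))))))))) (K a131 (M a67 (F (T t939 (L l43 (L l485 (L l487 (L l489 (T t937 (L l9 (T t5178 N)))))))))) N))))))))))))) (K a67 (M a131 (L l309 (F (T t939 (L l43 (L l485 (L l487 (L l489 (T t937 (L l9 (T t5178 (K a129 (M a66 (L l305 (F (T t5196 (L l515 (T t4947 (K a1 (M a65 (F (T t5196 (L l65 (L l515 (T t4947 N)))))) (K a65 (M a1 (F (T t4948 (L l9 (L l334 (L l338 (T t1338 N))))))) N)))))))) (K a66 (M a129 (L l76 (F (T t939 (L l142 (L l295 (L l515 (T t5200 (K a64 (M a65 (F (T t5201 (L l7 (L l337 (L l339 (T t982 (L l142 (L l144 (L l295 (L l515 (T t5202 N)))))))))))) (K a65 (M a64 (F (T t5196 (L l143 (L l295 (L l296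 (L l475 (L l515 (T t5203 N))))))))) N)))))))))) N))))))))))))) (K a131 (M a67 (L l309 (F (T t939 (L l43 (L l485 (L l487 (L l489 (T t937 (L l9 (T t5178 (K a129 (M a66 (L l152 (L l305 (F (L l515 (T t5197 (L l9 (L l334 (L l338 (T t1338 (K a128 (Fr a130 a2 l306 (V t937)) (K a1 (Fr a65 a64 l76 (V t5176)) (K a65 (M a1 (L l152 (F (T t4948 (L l9 (L l334 (L l338 (T t76 (K a128 (Fr a130 a2 l306 (V t4949)) (K a130 (M a128 (F (T t4949 (L l9 (L l334 (L l338 (T t1328 N))))))) N)))))))))) (K a130 (M a128 (L l305 (F (T t178 (L l43 (L l485 (L l487 (L l489 (T t937 (L l218 (L l221 (L l296 (L l515 (T t5198 (K a1 (Fr a65 a64 l76 (V t982)) (K a65 (M a1 (F (T t4949 (L l9 (L l334 (L l338 (T t1328 N))))))) N)))))))))))))))) N)))))))))))))) (K a66 (M a129 (F (T t939 (L l43 (L l485 (L l487 (L l489 (T t937 (L l9 (T t5178 N)))))))))) N))))))))))))) N)))))))))))))))) (K a66 (M a129 (L l228 (L l307 (F (T t5176 (L l7 (L l337 (L l339 (T t982 (L l9 (T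 t5204 (K a193 (M a194 (L l307 (F (T t939 (L l43 (L l485 (L l487 (L l489 (T t937 (L l9 (T t5178 (K a67 (M a131 (L l76 (F (T t939 (L l142 (L l295 (L l515 (T t5200 (K a64 (M a65 (F (T t5201 (L l7 (L l337 (L l339 (T t982 (L l142 (L l144 (L l295 (L l515 (T t5202 N)))))))))))) (K a65 (M a64 (F (T t5196 (L l143 (L l295 (L l296 (L l475 (L l515 (T t5203 N))))))))) N)))))))))) (K a131 (M a67 (F (T t939 (L l43 (L l485 (L l487 (L l489 (T t937 (L l9 (T t5178 N)))))))))) N))))))))))))) (K a194 (M a193 (L l306 (L l307 (F (T t178 (L l236 (L l516 (T t5179 (K a2 (M a130 (L l307 (F (T t5195 (L l66 (L l236 (L l516 (T t5179 (K a67 (Fr a131 a128 l152 (V t5176)) (K a131 (M a67 (F (T t5195 (L l66 (L l516 (T t5205 N)))))) N)))))))))) (K a130 (M a2 (L l307 (F (T t2002 (L l9 (L l334 (L l338 (T t1338 (K a67 (M a131 (L l76 (F (T t2002 (L l9 (L l334 (L l338 (T t1338 (K a64 (Fr a65 a1 l305 (V t2002)) (K a65 (M a64 (F (T t4951 (L l9 (L l334 (L l338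 (T t76 N))))))) N)))))))))) (K a131 (M a67 (F (T t4951 (L l9 (L l334 (L l338 (T t76 N))))))) N)))))))))) (K a67 (M a131 (L l76 (L l306 (F (T t178 (L l145 (L l236 (L l516 (T t5179 (K a64 (Fr a65 a1 l305 (V t5206)) (K a65 (M a64 (L l306 (F (T t178 (L l141 (L l145 (L l236 (L l516 (T t5179 (K a2 (Fr a130 a128 l152 (V t5206)) (K a130 (M a2 (F (T t4951 (L l9 (L l334 (L l338 (T t76 N))))))) N))))))))))) (K a2 (Fr a130 a128 l152 (V t5176)) (K a130 (M a2 (L l76 (F (T t2002 (L l9 (L l334 (L l338 (T t1338 (K a64 (Fr a65 a1 l305 (V t2002)) (K a65 (M a64 (F (T t4951 (L l9 (L l334 (L l338 (T t76 N))))))) N)))))))))) N))))))))))))) (K a131 (M a67 (L l306 (F (T t939 (L l236 (L l516 (T t5179 (K a2 (M a130 (F (T t5195 (L l66 (L l516 (T t5205 N)))))) (K a130 (M a2 (F (T t4951 (L l9 (L l334 (L l338 (T t76 N))))))) N))))))))) N)))))))))))) (K a67 (M a131 (L l76 (L l228 (F (T t5176 (L l7 (L l337 (L l339 (T t982 (L l9 (T t5204 (K a64 (M a65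 (L l228 (F (T t5207 (L l9 (L l334 (L l338 (T t1328 (K a193 (M a194 (F (T t5201 (L l7 (L l337 (L l339 (T t982 (L l142 (L l144 (L l295 (L l515 (T t5202 N)))))))))))) (K a194 (Fr a193 a1 l305 (V t5206)) N)))))))))) (K a65 (M a64 (L l228 (F (T t5176 (L l7 (L l337 (L l339 (T t982 (L l9 (T t5178 (K a193 (M a194 (F (T t5196 (L l143 (L l295 (L l296 (L l475 (L l515 (T t5203 N))))))))) (K a194 (M a193 (L l306 (F (T t178 (L l141 (L l145 (L l236 (L l516 (T t5179 (K a2 (Fr a130 a128 l152 (V t5206)) (K a130 (M a2 (F (T t4951 (L l9 (L l334 (L l338 (T t76 N))))))) N))))))))))) N)))))))))))) (K a193 (M a194 (L l76 (F (T t939 (L l142 (L l295 (L l515 (T t5200 (K a64 (M a65 (F (T t5201 (L l7 (L l337 (L l339 (T t982 (L l142 (L l144 (L l295 (L l515 (T t5202 N)))))))))))) (K a65 (M a64 (F (T t5196 (L l143 (L l295 (L l296 (L l475 (L l515 (T t5203 N))))))))) N)))))))))) (K a194 (M a193 (L l76 (L l306 (F (T t178 (L l145 (L l236 (L l516 (T t5179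 (K a64 (Fr a65 a1 l305 (V t5206)) (K a65 (M a64 (L l306 (F (T t178 (L l141 (L l145 (L l236 (L l516 (T t5179 (K a2 (Fr a130 a128 l152 (V t5206)) (K a130 (M a2 (F (T t4951 (L l9 (L l334 (L l338 (T t76 N))))))) N))))))))))) (K a2 (Fr a130 a128 l152 (V t5176)) (K a130 (M a2 (L l76 (F (T t2002 (L l9 (L l334 (L l338 (T t1338 (K a64 (Fr a65 a1 l305 (V t2002)) (K a65 (M a64 (F (T t4951 (L l9 (L l334 (L l338 (T t76 N))))))) N)))))))))) N))))))))))))) N))))))))))))))) (K a131 (M a67 (L l228 (F (T t5176 (L l7 (L l337 (L l339 (T t982 (L l9 (T t5204 (K a193 (M a194 (F (T t939 (L l43 (L l485 (L l487 (L l489 (T t937 (L l9 (T t5178 N)))))))))) (K a194 (M a193 (L l306 (F (T t939 (L l236 (L l516 (T t5179 (K a2 (M a130 (F (T t5195 (L l66 (L l516 (T t5205 N)))))) (K a130 (M a2 (F (T t4951 (L l9 (L l334 (L l338 (T t76 N))))))) N))))))))) N)))))))))))) N))))))))))))))) (K a194 (M a193 (L l307 (L l309 (F (T t178 (L l236 (L l516 (T t5179 (K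 a129 (M a66 (L l307 (F (T t178 (L l236 (L l516 (T t5179 (K a67 (M a131 (F (T t939 (L l145 (L l236 (L l516 (T t5179 N))))))) (K a131 (M a67 (L l152 (F (T t939 (L l236 (L l516 (T t5179 (K a128 (M a130 (F (T t178 (L l236 (L l516 (T t5179 N)))))) (K a130 (M a128 (F (T t939 (L l236 (L l516 (T t5179 N)))))) N))))))))) N))))))))) (K a66 (M a129 (L l306 (L l307 (F (T t178 (L l236 (L l516 (T t5179 (K a2 (M a130 (L l307 (F (T t5195 (L l66 (L l236 (L l516 (T t5179 (K a67 (Fr a131 a128 l152 (V t5176)) (K a131 (M a67 (F (T t5195 (L l66 (L l516 (T t5205 N)))))) N)))))))))) (K a130 (M a2 (L l307 (F (T t2002 (L l9 (L l334 (L l338 (T t1338 (K a67 (M a131 (L l76 (F (T t2002 (L l9 (L l334 (L l338 (T t1338 (K a64 (Fr a65 a1 l305 (V t2002)) (K a65 (M a64 (F (T t4951 (L l9 (L l334 (L l338 (T t76 N))))))) N)))))))))) (K a131 (M a67 (F (T t4951 (L l9 (L l334 (L l338 (T t76 N))))))) N)))))))))) (K a67 (M a131 (L l76 (L l306 (F (T t178 (L l145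 (L l236 (L l516 (T t5179 (K a64 (Fr a65 a1 l305 (V t5206)) (K a65 (M a64 (L l306 (F (T t178 (L l141 (L l145 (L l236 (L l516 (T t5179 (K a2 (Fr a130 a128 l152 (V t5206)) (K a130 (M a2 (F (T t4951 (L l9 (L l334 (L l338 (T t76 N))))))) N))))))))))) (K a2 (Fr a130 a128 l152 (V t5176)) (K a130 (M a2 (L l76 (F (T t2002 (L l9 (L l334 (L l338 (T t1338 (K a64 (Fr a65 a1 l305 (V t2002)) (K a65 (M a64 (F (T t4951 (L l9 (L l334 (L l338 (T t76 N))))))) N)))))))))) N))))))))))))) (K a131 (M a67 (L l306 (F (T t939 (L l236 (L l516 (T t5179 (K a2 (M a130 (F (T t5195 (L l66 (L l516 (T t5205 N)))))) (K a130 (M a2 (F (T t4951 (L l9 (L l334 (L l338 (T t76 N))))))) N))))))))) N)))))))))))) (K a67 (M a131 (L l309 (F (T t939 (L l145 (L l236 (L l516 (T t5179 (K a129 (M a66 (F (T t939 (L l145 (L l236 (L l516 (T t5179 N))))))) (K a66 (M a129 (L l76 (L l306 (F (T t178 (L l145 (L l236 (L l516 (T t5179 (K a64 (Fr a65 a1 l305 (V t5206)) (K a65 (M a64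 (L l306 (F (T t178 (L l141 (L l145 (L l236 (L l516 (T t5179 (K a2 (Fr a130 a128 l152 (V t5206)) (K a130 (M a2 (F (T t4951 (L l9 (L l334 (L l338 (T t76 N))))))) N))))))))))) (K a2 (Fr a130 a128 l152 (V t5176)) (K a130 (M a2 (L l76 (F (T t2002 (L l9 (L l334 (L l338 (T t1338 (K a64 (Fr a65 a1 l305 (V t2002)) (K a65 (M a64 (F (T t4951 (L l9 (L l334 (L l338 (T t76 N))))))) N)))))))))) N))))))))))))) N)))))))))) (K a131 (M a67 (L l309 (F (T t178 (L l236 (L l516 (T t5179 (K a129 (M a66 (L l152 (F (T t939 (L l236 (L l516 (T t5179 (K a128 (M a130 (F (T t178 (L l236 (L l516 (T t5179 N)))))) (K a130 (M a128 (F (T t939 (L l236 (L l516 (T t5179 N)))))) N))))))))) (K a66 (M a129 (L l306 (F (T t939 (L l236 (L l516 (T t5179 (K a2 (M a130 (F (T t5195 (L l66 (L l516 (T t5205 N)))))) (K a130 (M a2 (F (T t4951 (L l9 (L l334 (L l338 (T t76 N))))))) N))))))))) N))))))))) N)))))))))))) (K a67 (M a131 (L l228 (L l309 (F (T t5176 (L l7 (L l337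 (L l339 (T t982 (L l9 (T t5178 (K a129 (M a66 (L l228 (F (T t5176 (L l7 (L l337 (L l339 (T t982 (L l9 (T t5178 (K a193 (M a194 (L l305 (F (T t5196 (L l515 (T t4947 (K a1 (M a65 (F (T t5196 (L l65 (L l515 (T t4947 N)))))) (K a65 (M a1 (F (T t4948 (L l9 (L l334 (L l338 (T t1338 N))))))) N)))))))) (K a194 (M a193 (F (T t939 (L l145 (L l236 (L l516 (T t5179 N))))))) N)))))))))))) (K a193 (M a194 (L l309 (F (T t939 (L l43 (L l485 (L l487 (L l489 (T t937 (L l9 (T t5178 (K a129 (M a66 (L l305 (F (T t5196 (L l515 (T t4947 (K a1 (M a65 (F (T t5196 (L l65 (L l515 (T t4947 N)))))) (K a65 (M a1 (F (T t4948 (L l9 (L l334 (L l338 (T t1338 N))))))) N)))))))) (K a66 (M a129 (L l76 (F (T t939 (L l142 (L l295 (L l515 (T t5200 (K a64 (M a65 (F (T t5201 (L l7 (L l337 (L l339 (T t982 (L l142 (L l144 (L l295 (L l515 (T t5202 N)))))))))))) (K a65 (M a64 (F (T t5196 (L l143 (L l295 (L l296 (L l475 (L l515 (T t5203 N))))))))) N)))))))))) N)))))))))))))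 (K a66 (M a129 (L l76 (L l228 (F (T t5176 (L l7 (L l337 (L l339 (T t982 (L l9 (T t5204 (K a64 (M a65 (L l228 (F (T t5207 (L l9 (L l334 (L l338 (T t1328 (K a193 (M a194 (F (T t5201 (L l7 (L l337 (L l339 (T t982 (L l142 (L l144 (L l295 (L l515 (T t5202 N)))))))))))) (K a194 (Fr a193 a1 l305 (V t5206)) N)))))))))) (K a65 (M a64 (L l228 (F (T t5176 (L l7 (L l337 (L l339 (T t982 (L l9 (T t5178 (K a193 (M a194 (F (T t5196 (L l143 (L l295 (L l296 (L l475 (L l515 (T t5203 N))))))))) (K a194 (M a193 (L l306 (F (T t178 (L l141 (L l145 (L l236 (L l516 (T t5179 (K a2 (Fr a130 a128 l152 (V t5206)) (K a130 (M a2 (F (T t4951 (L l9 (L l334 (L l338 (T t76 N))))))) N))))))))))) N)))))))))))) (K a193 (M a194 (L l76 (F (T t939 (L l142 (L l295 (L l515 (T t5200 (K a64 (M a65 (F (T t5201 (L l7 (L l337 (L l339 (T t982 (L l142 (L l144 (L l295 (L l515 (T t5202 N)))))))))))) (K a65 (M a64 (F (T t5196 (L l143 (L l295 (L l296 (L l475 (L l515 (T t5203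 N))))))))) N)))))))))) (K a194 (M a193 (L l76 (L l306 (F (T t178 (L l145 (L l236 (L l516 (T t5179 (K a64 (Fr a65 a1 l305 (V t5206)) (K a65 (M a64 (L l306 (F (T t178 (L l141 (L l145 (L l236 (L l516 (T t5179 (K a2 (Fr a130 a128 l152 (V t5206)) (K a130 (M a2 (F (T t4951 (L l9 (L l334 (L l338 (T t76 N))))))) N))))))))))) (K a2 (Fr a130 a128 l152 (V t5176)) (K a130 (M a2 (L l76 (F (T t2002 (L l9 (L l334 (L l338 (T t1338 (K a64 (Fr a65 a1 l305 (V t2002)) (K a65 (M a64 (F (T t4951 (L l9 (L l334 (L l338 (T t76 N))))))) N)))))))))) N))))))))))))) N))))))))))))))) (K a194 (M a193 (L l309 (F (T t939 (L l145 (L l236 (L l516 (T t5179 (K a129 (M a66 (F (T t939 (L l145 (L l236 (L l516 (T t5179 N))))))) (K a66 (M a129 (L l76 (L l306 (F (T t178 (L l145 (L l236 (L l516 (T t5179 (K a64 (Fr a65 a1 l305 (V t5206)) (K a65 (M a64 (L l306 (F (T t178 (L l141 (L l145 (L l236 (L l516 (T t5179 (K a2 (Fr a130 a128 l152 (V t5206)) (K a130 (M a2 (F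 (T t4951 (L l9 (L l334 (L l338 (T t76 N))))))) N))))))))))) (K a2 (Fr a130 a128 l152 (V t5176)) (K a130 (M a2 (L l76 (F (T t2002 (L l9 (L l334 (L l338 (T t1338 (K a64 (Fr a65 a1 l305 (V t2002)) (K a65 (M a64 (F (T t4951 (L l9 (L l334 (L l338 (T t76 N))))))) N)))))))))) N))))))))))))) N)))))))))) N))))))))))))))) (K a131 (M a67 (L l228 (L l309 (F (T t5176 (L l7 (L l337 (L l339 (T t982 (L l9 (T t5178 (K a129 (M a66 (L l152 (L l228 (F (T t5176 (L l7 (L l337 (L l339 (T t982 (L l9 (T t5178 (K a128 (M a130 (L l228 (F (T t5199 (L l9 (L l334 (L l338 (T t76 (K a193 (Fr a194 a2 l306 (V t937)) (K a194 (M a193 (F (T t178 (L l236 (L l516 (T t5179 N)))))) N)))))))))) (K a193 (M a194 (L l152 (L l305 (F (L l515 (T t5197 (L l9 (L l334 (L l338 (T t1338 (K a128 (Fr a130 a2 l306 (V t937)) (K a1 (Fr a65 a64 l76 (V t5176)) (K a65 (M a1 (L l152 (F (T t4948 (L l9 (L l334 (L l338 (T t76 (K a128 (Fr a130 a2 l306 (V t4949)) (K a130 (M a128 (F (T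 t4949 (L l9 (L l334 (L l338 (T t1328 N))))))) N)))))))))) (K a130 (M a128 (L l305 (F (T t178 (L l43 (L l485 (L l487 (L l489 (T t937 (L l218 (L l221 (L l296 (L l515 (T t5198 (K a1 (Fr a65 a64 l76 (V t982)) (K a65 (M a1 (F (T t4949 (L l9 (L l334 (L l338 (T t1328 N))))))) N)))))))))))))))) N)))))))))))))) (K a130 (M a128 (L l228 (F (T t5176 (L l7 (L l337 (L l339 (T t982 (L l9 (T t5178 (K a193 (M a194 (L l305 (F (T t178 (L l43 (L l485 (L l487 (L l489 (T t937 (L l218 (L l221 (L l296 (L l515 (T t5198 (K a1 (Fr a65 a64 l76 (V t982)) (K a65 (M a1 (F (T t4949 (L l9 (L l334 (L l338 (T t1328 N))))))) N)))))))))))))))) (K a194 (M a193 (F (T t939 (L l236 (L l516 (T t5179 N)))))) N)))))))))))) (K a194 (M a193 (L l152 (F (T t939 (L l236 (L l516 (T t5179 (K a128 (M a130 (F (T t178 (L l236 (L l516 (T t5179 N)))))) (K a130 (M a128 (F (T t939 (L l236 (L l516 (T t5179 N)))))) N))))))))) N))))))))))))))) (K a193 (M a194 (L l309 (F (T t939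 (L l43 (L l485 (L l487 (L l489 (T t937 (L l9 (T t5178 (K a129 (M a66 (L l152 (L l305 (F (L l515 (T t5197 (L l9 (L l334 (L l338 (T t1338 (K a128 (Fr a130 a2 l306 (V t937)) (K a1 (Fr a65 a64 l76 (V t5176)) (K a65 (M a1 (L l152 (F (T t4948 (L l9 (L l334 (L l338 (T t76 (K a128 (Fr a130 a2 l306 (V t4949)) (K a130 (M a128 (F (T t4949 (L l9 (L l334 (L l338 (T t1328 N))))))) N)))))))))) (K a130 (M a128 (L l305 (F (T t178 (L l43 (L l485 (L l487 (L l489 (T t937 (L l218 (L l221 (L l296 (L l515 (T t5198 (K a1 (Fr a65 a64 l76 (V t982)) (K a65 (M a1 (F (T t4949 (L l9 (L l334 (L l338 (T t1328 N))))))) N)))))))))))))))) N)))))))))))))) (K a66 (M a129 (F (T t939 (L l43 (L l485 (L l487 (L l489 (T t937 (L l9 (T t5178 N)))))))))) N))))))))))))) (K a66 (M a129 (L l228 (F (T t5176 (L l7 (L l337 (L l339 (T t982 (L l9 (T t5204 (K a193 (M a194 (F (T t939 (L l43 (L l485 (L l487 (L l489 (T t937 (L l9 (T t5178 N)))))))))) (K a194 (M a193 (L l306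 (F (T t939 (L l236 (L l516 (T t5179 (K a2 (M a130 (F (T t5195 (L l66 (L l516 (T t5205 N)))))) (K a130 (M a2 (F (T t4951 (L l9 (L l334 (L l338 (T t76 N))))))) N))))))))) N)))))))))))) (K a194 (M a193 (L l309 (F (T t178 (L l236 (L l516 (T t5179 (K a129 (M a66 (L l152 (F (T t939 (L l236 (L l516 (T t5179 (K a128 (M a130 (F (T t178 (L l236 (L l516 (T t5179 N)))))) (K a130 (M a128 (F (T t939 (L l236 (L l516 (T t5179 N)))))) N))))))))) (K a66 (M a129 (L l306 (F (T t939 (L l236 (L l516 (T t5179 (K a2 (M a130 (F (T t5195 (L l66 (L l516 (T t5205 N)))))) (K a130 (M a2 (F (T t4951 (L l9 (L l334 (L l338 (T t76 N))))))) N))))))))) N))))))))) N))))))))))))))) N)))))))))))))))))) (K a193 (M a194 (F (T t522 (L l295 (L l515 (T t4954 (L l296 (L l515 (T t4955 (K a20 (M a58 (F (L l11 (L l14 (T t4956 (L l236 (L l350 (L l515 (T t4957 N))))))))) (K a61 (M a48 (L l515 (F (T t610 (L l334 (L l338 (T t489 (T t65 (K a149 (M a105 (F (T t132 (L l235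 (L l295 (T t4938 N)))))) (K a105 (M a149 (F (T t1308 (L l233 (L l236 (L l293 (L l296 (T t6 N)))))))) N)))))))))) (K a42 (M a58 (F (L l334 (L l338 (T t2374 (L l236 (L l515 (T t4957 N)))))))) (K a62 (M a16 (F (T t2447 (L l66 (L l337 (L l339 (T t97 (L l66 (T t1141 N))))))))) N))))))))))))) (K a194 (M a193 (F (T t116 (L l295 (L l516 (T t5192 (L l296 (L l516 (T t5208 (K a40 (M a53 (F (L l22 (L l24 (T t939 (L l236 (L l392 (L l516 (T t5179 N))))))))) (K a21 (M a53 (F (L l334 (L l338 (T t76 (L l236 (L l516 (T t5179 N)))))))) (K a61 (M a16 (F (T t2447 (L l337 (L l339 (T t97 (L l59 (T t1141 N)))))))) (K a62 (M a48 (L l516 (F (T t607 (L l334 (L l338 (T t489 (L l36 (L l66 (T t65 (K a150 (M a106 (F (T t3235 (L l234 (L l236 (L l294 (L l296 (T t306 N)))))))) (K a106 (M a150 (F (T t48 (L l235 (L l295 (T t5194 N)))))) N)))))))))))) N))))))))))))) N)))))))))))))))))))))))))))⟩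
def e0_63__195_62 : Ent 4 := ⟨[a0, a63], [a195, a193], (M a192 (F (T t1800 (L l295 (L l515 (T t21 (L l295 (L l515 (T t35 (L l295 (T t202 (L l293 (L l295 (T t37 (K a64 (M a48 (F (T t610 (L l235 (L l515 (T t20 (L l116 (L l144 (L l293 (T t31 N)))))))))) (K a128 (M a48 (F (T t48 (L l220 (L l235 (L l515 (T t20 (L l293 (T t31 N))))))))) (K a21 (M a48 (F (T t54 (L l273 (T t27 (L l47 (L l347 (L l515 (T t29 N))))))))) (K a85 (M a16 (F (T t504 (L l273 (T t210 (L l94 (L l144 (T t211 N)))))))) (K a149 (M a60 (L l515 (F (T t2658 (L l307 (L l347 (T t67 (L l163 (L l220 (L l297 (L l307 (L l347 (T t4958 (L l297 (L l305 (L l351 (T t2660 (K a105 (Fr a61 a62 l33 (V t4959)) (K a61 (M a105 (F (T t2658 (L l65 (L l295 (L l347 (T t4964 (L l163 (L l220 (L l305 (T t4965 N))))))))))) N))))))))))))))))))) (K a42 (M a48 (F (T t36 (L l235 (L l515 (T t20 (L l28 (L l515 (T t29 N))))))))) (K a106 (M a48 (F (T t48 (L l273 (T t27 (L l337 (L l411 (T t213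 (L l104 (L l144 (L l337 (L l390 (L l498 (T t214 N)))))))))))))) (K a170 (M a32 (F (T t612 (L l273 (T t218 (L l180 (L l220 (L l515 (T t220 N))))))))) (K a255 (M a16 (L l295 (F (T t112 (L l266 (L l273 (T t210 (T t211 (K a215 (M a235 (F (T t112 (L l266 (L l273 (T t210 (T t211 N))))))) (K a235 (M a215 (F (T t112 (L l266 (L l273 (T t210 (T t211 N))))))) N)))))))))) N)))))))))))))))))))))))⟩
def e0_63__195_63 : Ent 4 := ⟨[a0, a63], [a195, a196], (M a48 (F (T t48 (L l337 (T t1 (L l337 (T t2 (L l337 (T t3 (L l337 (T t0 (K a16 (M a60 (F (T t138 (L l14 (L l18 (L l307 (T t67 (T t65 N)))))))) (K a32 (M a60 (F (T t116 (L l487 (T t64 (L l24 (L l28 (T t65 N)))))))) (K a21 (M a192 (F (T t54 (L l273 (T t27 (L l47 (L l347 (L l495 (T t29 N))))))))) (K a37 (M a192 (F (T t54 (L l273 (T t27 (L l295 (L l495 (T t21 N)))))))) (K a53 (M a192 (F (T t55 (L l295 (L l491 (L l495 (T t21 (L l278 (T t31 N))))))))) (K a26 (M a192 (F (T t1922 (L l235 (L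 l495 (T t20 (L l295 (L l495 (T t21 N))))))))) (K a42 (M a192 (F (T t36 (L l235 (L l495 (T t20 (L l28 (L l495 (T t29 N))))))))) (K a58 (M a192 (F (T t1922 (L l295 (L l495 (T t21 (L l54 (L l278 (L l498 (T t31 N)))))))))) (K a15 (M a149 (L l337 (F (T t1274 (L l229 (L l278 (T t6 (K a135 (M a75 (F (T t1274 (L l229 (L l278 (T t6 N)))))) (K a75 (M a135 (F (T t1274 (L l229 (L l278 (T t6 N)))))) N))))))))) N))))))))))))))))))))⟩
def e0_63__195_64 : Ent 4 := ⟨[a0, a63], [a195, a197], (M a48 (F (T t610 (L l337 (L l491 (T t1 (L l311 (L l337 (T t2 (L l337 (T t3 (L l337 (T t0 (K a16 (M a60 (F (T t138 (L l14 (L l18 (L l307 (T t67 (L l311 (T t65 N))))))))) (K a32 (M a60 (F (T t116 (L l487 (L l491 (T t64 (L l24 (L l28 (L l311 (T t65 N)))))))))) (K a21 (M a192 (F (T t2113 (L l235 (L l347 (L l491 (T t225 (L l347 (L l491 (T t861 N)))))))))) (K a37 (M a192 (F (T t55 (L l235 (L l491 (T t225 (L l295 (L l491 (T t21 N))))))))) (K a53 (M a149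 (F (T t4854 (L l273 (T t13 (L l275 (T t26 N))))))) (K a26 (M a192 (F (T t2113 (L l235 (L l491 (T t225 (L l295 (L l491 (T t21 N))))))))) (K a42 (M a192 (F (T t55 (L l235 (L l491 (T t225 (L l28 (L l491 (T t861 N))))))))) (K a58 (M a192 (F (T t1922 (L l295 (L l491 (T t21 (L l54 (L l275 (L l498 (T t31 N)))))))))) (K a15 (M a192 (L l337 (F (T t55 (L l235 (L l325 (L l491 (T t225 (L l295 (L l469 (L l491 (T t21 (K a135 (M a75 (F (T t1800 (L l235 (L l325 (L l491 (T t225 (L l273 (L l483 (T t28 N)))))))))) (K a75 (M a135 (F (T t1800 (L l235 (L l325 (L l491 (T t225 (L l273 (L l483 (T t28 N)))))))))) N)))))))))))))) N))))))))))))))))))))))⟩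
def e0_63__195_65 : Ent 4 := ⟨[a0, a63], [a195, a198], (M a192 (L l237 (F (T t47 (L l295 (T t21 (L l295 (T t35 (L l295 (T t202 (L l295 (T t37 (K a64 (M a51 (L l237 (F (T t1713 (L l338 (T t1294 (T t1714 (K a204 (M a201 (F (T t841 (L l120 (L l144 (L l488 (T t5209 N))))))) (K a201 (M a204 (F (T t1716 (L l338 (T t592 N))))) N))))))))) (K a128 (M a51 (L l237 (F (T t1717 (L l338 (T t1294 (L l196 (L l220 (T t1714 (K a204 (M a201 (F (T t848 (L l488 (T t5209 N))))) (K a201 (M a204 (F (T t1718 (L l338 (T t592 N))))) N))))))))))) (K a21 (M a204 (F (T t1719 (L l338 (T t1720 (L l347 (T t1721 N))))))) (K a85 (M a204 (F (T t5210 (L l347 (L l487 (T t1723 (L l126 (L l144 (T t1724 N))))))))) (K a149 (M a48 (L l237 (F (T t1922 (L l337 (L l347 (L l491 (T t1 (L l170 (L l220 (L l337 (L l347 (L l491 (T t213 (L l337 (L l375 (T t214 (K a204 (M a201 (F (T t132 (L l273 (L l298 (T t837 (L l170 (L l220 (L l327 (L l337 (L l347 (L l491 (T t213 (L l327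 (L l337 (L l375 (T t214 N))))))))))))))))) (K a201 (M a204 (F (T t132 (L l338 (T t1735 N))))) N))))))))))))))))))) (K a42 (M a204 (F (T t1722 (L l487 (T t1723 (T t1721 N)))))) (K a106 (M a48 (L l237 (F (T t48 (L l273 (T t27 (L l337 (L l411 (T t213 (L l104 (L l144 (L l337 (L l390 (L l498 (T t214 (K a204 (M a201 (F (T t55 (L l327 (L l337 (L l390 (T t0 (L l327 (L l337 (L l411 (T t213 (L l104 (L l144 (L l327 (L l337 (L l390 (L l498 (T t214 N)))))))))))))))))) (K a201 (M a204 (F (T t48 (L l144 (L l338 (T t1735 N)))))) N))))))))))))))))) (K a170 (M a204 (F (L l338 (T t1735 (L l390 (L l487 (T t5211 (L l208 (L l220 (T t1721 N)))))))))) (K a255 (M a204 (L l295 (F (T t1719 (L l338 (L l470 (T t1733 (L l439 (T t1721 (K a215 (M a235 (F (T t5210 (L l439 (L l487 (T t1734 (L l439 (T t1721 N)))))))) (K a235 (M a215 (F (T t5210 (L l439 (L l487 (T t1734 (L l439 (T t1721 N)))))))) N))))))))))) (K a204 (M a201 (F (T t47 (L l290 (L l295 (T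 t21 (L l290 (L l295 (T t35 (L l290 (L l295 (T t202 (L l290 (L l295 (T t37 (K a64 (M a104 (F (T t5080 (L l508 (T t5212 N))))) (K a128 (M a104 (F (L l216 (T t5080 (L l220 (L l508 (T t5212 N))))))) (K a21 (M a104 (F (T t5213 (L l347 (L l508 (T t5212 N)))))) (K a85 (M a104 (F (T t5213 (L l347 (L l508 (T t5212 N)))))) (K a149 (M a48 (F (T t132 (L l273 (L l298 (T t837 (L l170 (L l220 (L l327 (L l337 (L l347 (L l491 (T t213 (L l327 (L l337 (L l375 (T t214 N))))))))))))))))) (K a42 (M a104 (F (T t5213 (L l56 (L l508 (T t5212 N)))))) (K a106 (M a48 (F (T t55 (L l327 (L l337 (L l390 (T t0 (L l327 (L l337 (L l411 (T t213 (L l104 (L l144 (L l327 (L l337 (L l390 (L l498 (T t214 N)))))))))))))))))) (K a170 (M a145 (F (T t5155 (L l390 (L l488 (T t5214 N)))))) (K a255 (M a200 (L l290 (L l295 (F (L l229 (L l235 (T t5215 (L l513 (T t5216 (K a221 (M a238 (L l295 (F (L l229 (L l235 (T t5215 (L l365 (L l513 (T t5217 (K a215 (M a235 (F (L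 l229 (L l235 (T t5218 (L l365 (L l513 (T t5217 N)))))))) (K a235 (M a215 (F (L l229 (L l235 (L l283 (T t5215 (L l365 (L l513 (T t5217 N))))))))) N))))))))))) (K a238 (M a221 (L l295 (F (L l229 (L l235 (T t5215 (L l513 (T t5216 (K a215 (M a235 (F (L l229 (L l235 (T t5218 (L l513 (T t5217 N))))))) (K a235 (M a215 (F (L l229 (L l235 (L l283 (T t5215 (L l513 (T t5216 N)))))))) N)))))))))) (K a215 (M a235 (L l290 (F (L l229 (L l235 (T t5218 (L l513 (T t5217 (K a221 (M a238 (F (L l229 (L l235 (T t5218 (L l365 (L l513 (T t5217 N)))))))) (K a238 (M a221 (F (L l229 (L l235 (T t5218 (L l513 (T t5217 N))))))) N)))))))))) (K a235 (M a215 (L l290 (F (L l229 (L l235 (L l283 (T t5215 (L l513 (T t5216 (K a221 (M a238 (F (L l229 (L l235 (L l283 (T t5215 (L l365 (L l513 (T t5217 N))))))))) (K a238 (M a221 (F (L l229 (L l235 (L l283 (T t5215 (L l513 (T t5216 N)))))))) N))))))))))) N))))))))))))) N)))))))))))))))))))))))) (K a201 (M a204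 (F (T t1800 (L l230 (L l338 (T t1733 (L l487 (T t1723 N)))))))) N)))))))))))))))))))))))⟩
def e0_63__195_66 : Ent 4 := ⟨[a0, a63], [a195, a199], (M a60 (L l235 (F (T t116 (L l307 (T t67 (L l307 (T t43 (L l307 (T t68 (L l307 (T t69 (K a20 (M a48 (L l235 (F (T t138 (L l11 (L l337 (T t1 (L l11 (L l313 (T t235 (K a203 (M a207 (F (T t132 (L l237 (T t5219 N))))) (K a207 (M a203 (F (T t138 (L l325 (L l337 (T t2 (L l11 (L l313 (T t235 N))))))))) N)))))))))))) (K a40 (M a48 (L l235 (F (T t48 (L l487 (T t64 (L l52 (L l313 (T t235 (K a203 (M a207 (F (T t5220 (L l295 (L l500 (T t5221 N)))))) (K a207 (M a203 (F (T t607 (L l52 (L l487 (L l493 (L l511 (T t451 (L l52 (L l313 (T t235 N))))))))))) N))))))))))) (K a21 (M a48 (L l235 (F (T t138 (L l338 (T t248 (L l11 (L l18 (L l47 (L l65 (L l338 (T t288 (L l50 (L l314 (L l338 (T t250 (K a203 (M a207 (F (T t5220 (L l338 (T t248 N))))) (K a207 (M a203 (F (T t1543 (L l487 (L l511 (T t70 (L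 l11 (L l18 (L l47 (L l65 (L l326 (L l338 (T t288 (L l50 (L l314 (L l326 (L l338 (T t250 N)))))))))))))))))) N)))))))))))))))))) (K a41 (M a8 (L l235 (F (L l314 (T t454 (L l65 (L l314 (L l487 (T t414 (L l53 (L l65 (T t415 (K a203 (M a207 (F (T t5222 (L l57 (L l314 (L l488 (L l500 (T t413 N)))))))) (K a207 (M a203 (F (L l65 (L l314 (T t428 (L l295 (L l512 (T t5223 N)))))))) N)))))))))))))) (K a61 (M a192 (L l235 (F (T t1800 (L l297 (T t79 (L l493 (T t80 (K a203 (M a207 (F (T t1334 (L l35 (L l230 (L l488 (T t2120 N))))))) (K a207 (M a203 (F (T t1681 (L l291 (L l297 (T t1333 (L l65 (L l515 (T t2549 N))))))))) N)))))))))) (K a22 (M a192 (L l235 (F (T t2658 (L l295 (T t21 (L l66 (L l493 (T t80 (K a203 (M a207 (F (T t2658 (L l230 (L l488 (T t2120 N)))))) (K a207 (M a203 (F (T t2647 (L l289 (L l295 (T t21 (L l11 (T t2549 N)))))))) N))))))))))) (K a42 (M a48 (L l235 (F (L l487 (T t64 (L l22 (L l314 (L l338 (T t247 (L l56 (L l338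 (T t288 (L l22 (L l28 (L l54 (L l66 (L l314 (L l338 (T t250 (K a203 (M a207 (F (T t5224 (L l22 (L l28 (L l338 (T t248 N))))))) (K a207 (M a203 (F (L l494 (T t236 (L l326 (L l338 (T t880 (L l56 (L l326 (L l338 (T t288 (L l22 (L l28 (L l54 (L l66 (L l314 (L l326 (L l338 (T t250 N))))))))))))))))))) N))))))))))))))))))))) (K a62 (M a192 (L l235 (F (T t57 (L l297 (T t79 (L l66 (L l493 (L l516 (T t80 (K a203 (M a207 (F (T t1334 (L l230 (L l488 (L l516 (T t2120 N))))))) (K a207 (M a203 (F (T t47 (L l291 (L l297 (T t1333 (T t2549 N))))))) N)))))))))))) (K a3 (M a15 (L l235 (L l307 (F (T t1460 (L l45 (L l488 (T t716 (L l45 (T t1449 (K a67 (M a131 (L l235 (F (T t2354 (L l9 (L l338 (T t4510 (L l45 (T t1449 (K a203 (M a207 (F (T t5225 (L l45 (L l488 (T t732 N)))))) (K a207 (M a203 (L l331 (F (T t2354 (L l9 (L l326 (L l338 (T t4510 (L l45 (T t1449 (K a71 (M a139 (L l83 (L l313 (F (T t1460 (L l45 (L l488 (L l512 (T t732 (L l45 (T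 t1449 (K a7 (Fr a135 a143 l159 (V t723)) (K a135 (M a7 (L l83 (F (T t5226 (L l45 (L l488 (L l512 (T t732 (L l45 (T t1449 (K a75 (M a79 (F (T t1071 (L l9 (L l326 (L l338 (T t1453 (L l45 (T t1449 N))))))))) (K a79 (Fr a75 a11 l319 (V t1453)) N)))))))))))) (K a75 (M a79 (L l313 (F (T t1783 (L l9 (L l326 (L l338 (T t1453 (L l45 (T t1451 (K a7 (Fr a135 a143 l159 (V t723)) (K a135 (M a7 (F (T t1071 (L l9 (L l326 (L l338 (T t1453 (L l45 (T t1449 N))))))))) N)))))))))))) (K a79 (Fr a75 a11 l319 (V t716)) N))))))))))))))) (K a139 (M a71 (F (T t2354 (L l9 (L l326 (L l338 (T t4510 (L l45 (T t1449 N))))))))) N)))))))))))) N))))))))))) (K a131 (M a67 (L l235 (F (T t2354 (L l9 (L l338 (T t4510 (L l45 (T t1449 (K a203 (M a207 (F (T t5227 (L l152 (L l228 (L l309 (L l314 (T t5228 N)))))))) (K a207 (M a203 (L l331 (F (T t2354 (L l9 (L l326 (L l338 (T t4510 (L l45 (T t1449 (K a71 (M a139 (L l313 (F (T t1460 (L l45 (L l488 (L l512 (T t723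 (L l45 (T t1451 (K a7 (M a135 (F (T t1460 (L l45 (L l488 (L l512 (T t732 (L l45 (T t1451 N))))))))) (K a135 (M a7 (F (T t1254 (L l9 (L l326 (L l338 (T t1453 (L l45 (T t1449 N))))))))) N)))))))))))) (K a139 (M a71 (L l159 (F (T t1460 (L l45 (L l488 (L l512 (T t716 (L l45 (T t1449 (K a135 (M a143 (F (T t1460 (L l45 (L l488 (L l512 (T t716 (L l45 (T t1449 N))))))))) (K a143 (M a135 (F (T t2354 (L l9 (L l326 (L l338 (T t5229 (L l45 (T t1451 N))))))))) N)))))))))))) N)))))))))))) N))))))))))) (K a203 (M a207 (L l307 (F (T t5230 (L l45 (T t1449 (K a67 (M a131 (F (T t5225 (L l45 (L l488 (T t732 N)))))) (K a131 (M a67 (F (T t5227 (L l152 (L l228 (L l309 (L l314 (T t5228 N)))))))) N)))))))) (K a207 (M a203 (L l307 (L l331 (F (T t2354 (L l9 (L l326 (L l338 (T t4510 (L l45 (T t1449 (K a67 (M a131 (L l331 (F (T t2354 (L l9 (L l326 (L l338 (T t4510 (L l45 (T t1449 (K a71 (M a139 (L l83 (L l313 (F (T t1460 (L l45 (L l488 (L l512 (T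 t732 (L l45 (T t1449 (K a7 (Fr a135 a143 l159 (V t723)) (K a135 (M a7 (L l83 (F (T t5226 (L l45 (L l488 (L l512 (T t732 (L l45 (T t1449 (K a75 (M a79 (F (T t1071 (L l9 (L l326 (L l338 (T t1453 (L l45 (T t1449 N))))))))) (K a79 (Fr a75 a11 l319 (V t1453)) N)))))))))))) (K a75 (M a79 (L l313 (F (T t1783 (L l9 (L l326 (L l338 (T t1453 (L l45 (T t1451 (K a7 (Fr a135 a143 l159 (V t723)) (K a135 (M a7 (F (T t1071 (L l9 (L l326 (L l338 (T t1453 (L l45 (T t1449 N))))))))) N)))))))))))) (K a79 (Fr a75 a11 l319 (V t716)) N))))))))))))))) (K a139 (M a71 (F (T t2354 (L l9 (L l326 (L l338 (T t4510 (L l45 (T t1449 N))))))))) N)))))))))))) (K a131 (M a67 (L l331 (F (T t2354 (L l9 (L l326 (L l338 (T t4510 (L l45 (T t1449 (K a71 (M a139 (L l313 (F (T t1460 (L l45 (L l488 (L l512 (T t723 (L l45 (T t1451 (K a7 (M a135 (F (T t1460 (L l45 (L l488 (L l512 (T t732 (L l45 (T t1451 N))))))))) (K a135 (M a7 (F (T t1254 (L l9 (L l326 (L l338 (T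 t1453 (L l45 (T t1449 N))))))))) N)))))))))))) (K a139 (M a71 (L l159 (F (T t1460 (L l45 (L l488 (L l512 (T t716 (L l45 (T t1449 (K a135 (M a143 (F (T t1460 (L l45 (L l488 (L l512 (T t716 (L l45 (T t1449 N))))))))) (K a143 (M a135 (F (T t2354 (L l9 (L l326 (L l338 (T t5229 (L l45 (T t1451 N))))))))) N)))))))))))) N)))))))))))) (K a71 (M a139 (L l307 (L l313 (F (T t1254 (L l9 (L l326 (L l338 (T t4510 (L l45 (T t1449 (K a67 (M a131 (L l83 (L l313 (F (T t1460 (L l45 (L l488 (L l512 (T t732 (L l45 (T t1449 (K a7 (Fr a135 a143 l159 (V t723)) (K a135 (M a7 (L l83 (F (T t5226 (L l45 (L l488 (L l512 (T t732 (L l45 (T t1449 (K a75 (M a79 (F (T t1071 (L l9 (L l326 (L l338 (T t1453 (L l45 (T t1449 N))))))))) (K a79 (Fr a75 a11 l319 (V t1453)) N)))))))))))) (K a75 (M a79 (L l313 (F (T t1783 (L l9 (L l326 (L l338 (T t1453 (L l45 (T t1451 (K a7 (Fr a135 a143 l159 (V t723)) (K a135 (M a7 (F (T t1071 (L l9 (L l326 (L l338 (T t1453 (L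 l45 (T t1449 N))))))))) N)))))))))))) (K a79 (Fr a75 a11 l319 (V t716)) N))))))))))))))) (K a131 (M a67 (L l313 (F (T t1460 (L l45 (L l488 (L l512 (T t723 (L l45 (T t1451 (K a7 (M a135 (F (T t1460 (L l45 (L l488 (L l512 (T t732 (L l45 (T t1451 N))))))))) (K a135 (M a7 (F (T t1254 (L l9 (L l326 (L l338 (T t1453 (L l45 (T t1449 N))))))))) N)))))))))))) (K a7 (M a135 (L l307 (F (T t1460 (L l45 (L l488 (L l512 (T t732 (L l1 (L l45 (T t1449 (K a67 (Fr a131 a143 l159 (V t723)) (K a131 (M a67 (F (T t1460 (L l45 (L l488 (L l512 (T t732 (L l45 (T t1451 N))))))))) N))))))))))))) (K a135 (M a7 (L l307 (F (T t2354 (L l9 (L l326 (L l338 (T t5229 (L l45 (T t1449 (K a67 (M a131 (L l83 (F (T t5226 (L l45 (L l488 (L l512 (T t732 (L l45 (T t1449 (K a75 (M a79 (F (T t1071 (L l9 (L l326 (L l338 (T t1453 (L l45 (T t1449 N))))))))) (K a79 (Fr a75 a11 l319 (V t1453)) N)))))))))))) (K a131 (M a67 (F (T t1254 (L l9 (L l326 (L l338 (T t1453 (L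 l45 (T t1449 N))))))))) N)))))))))))) N))))))))))))))) (K a139 (M a71 (L l307 (F (T t2354 (L l9 (L l326 (L l338 (T t4510 (L l45 (T t1449 (K a67 (M a131 (F (T t2354 (L l9 (L l326 (L l338 (T t4510 (L l45 (T t1449 N))))))))) (K a131 (M a67 (L l159 (F (T t1460 (L l45 (L l488 (L l512 (T t716 (L l45 (T t1449 (K a135 (M a143 (F (T t1460 (L l45 (L l488 (L l512 (T t716 (L l45 (T t1449 N))))))))) (K a143 (M a135 (F (T t2354 (L l9 (L l326 (L l338 (T t5229 (L l45 (T t1451 N))))))))) N)))))))))))) N)))))))))))) N))))))))))))))) N)))))))))))))) (K a203 (M a207 (F (T t5222 (L l307 (T t67 (K a61 (M a64 (F (T t2980 (L l320 (T t5231 N))))) (K a62 (M a64 (F (T t749 (L l320 (L l504 (T t5232 N)))))) N))))))) (K a207 (M a203 (F (T t116 (L l307 (L l331 (T t67 (L l307 (L l331 (T t43 (L l307 (L l331 (T t68 (L l307 (L l331 (T t69 (K a20 (M a48 (F (T t138 (L l325 (L l337 (T t2 (L l11 (L l313 (T t235 N))))))))) (K a40 (M a48 (F (T t607 (L l52 (L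 l487 (L l493 (L l511 (T t451 (L l52 (L l313 (T t235 N))))))))))) (K a21 (M a170 (F (L l347 (T t4824 (L l11 (L l50 (L l301 (L l314 (T t5233 N))))))))) (K a41 (M a8 (F (L l65 (L l314 (T t428 (L l295 (L l512 (T t5223 N)))))))) (K a61 (M a8 (F (L l59 (L l65 (L l314 (T t428 (L l295 (L l512 (T t5223 N))))))))) (K a22 (M a192 (F (T t2647 (L l289 (L l295 (T t21 (L l11 (T t2549 N)))))))) (K a42 (M a170 (F (L l66 (T t4824 (L l28 (L l301 (L l314 (T t5233 N)))))))) (K a62 (M a8 (F (L l314 (T t428 (L l295 (L l512 (T t5223 N))))))) (K a3 (M a15 (L l307 (L l331 (F (T t2354 (L l9 (L l326 (L l338 (T t4510 (L l45 (T t1449 (K a67 (M a131 (L l331 (F (T t2354 (L l9 (L l326 (L l338 (T t4510 (L l45 (T t1449 (K a71 (M a139 (L l83 (L l313 (F (T t1460 (L l45 (L l488 (L l512 (T t732 (L l45 (T t1449 (K a7 (Fr a135 a143 l159 (V t723)) (K a135 (M a7 (L l83 (F (T t5226 (L l45 (L l488 (L l512 (T t732 (L l45 (T t1449 (K a75 (M a79 (F (T t1071 (L l9 (L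 l326 (L l338 (T t1453 (L l45 (T t1449 N))))))))) (K a79 (Fr a75 a11 l319 (V t1453)) N)))))))))))) (K a75 (M a79 (L l313 (F (T t1783 (L l9 (L l326 (L l338 (T t1453 (L l45 (T t1451 (K a7 (Fr a135 a143 l159 (V t723)) (K a135 (M a7 (F (T t1071 (L l9 (L l326 (L l338 (T t1453 (L l45 (T t1449 N))))))))) N)))))))))))) (K a79 (Fr a75 a11 l319 (V t716)) N))))))))))))))) (K a139 (M a71 (F (T t2354 (L l9 (L l326 (L l338 (T t4510 (L l45 (T t1449 N))))))))) N)))))))))))) (K a131 (M a67 (L l331 (F (T t2354 (L l9 (L l326 (L l338 (T t4510 (L l45 (T t1449 (K a71 (M a139 (L l313 (F (T t1460 (L l45 (L l488 (L l512 (T t723 (L l45 (T t1451 (K a7 (M a135 (F (T t1460 (L l45 (L l488 (L l512 (T t732 (L l45 (T t1451 N))))))))) (K a135 (M a7 (F (T t1254 (L l9 (L l326 (L l338 (T t1453 (L l45 (T t1449 N))))))))) N)))))))))))) (K a139 (M a71 (L l159 (F (T t1460 (L l45 (L l488 (L l512 (T t716 (L l45 (T t1449 (K a135 (M a143 (F (T t1460 (L l45 (L l488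 (L l512 (T t716 (L l45 (T t1449 N))))))))) (K a143 (M a135 (F (T t2354 (L l9 (L l326 (L l338 (T t5229 (L l45 (T t1451 N))))))))) N)))))))))))) N)))))))))))) (K a71 (M a139 (L l307 (L l313 (F (T t1254 (L l9 (L l326 (L l338 (T t4510 (L l45 (T t1449 (K a67 (M a131 (L l83 (L l313 (F (T t1460 (L l45 (L l488 (L l512 (T t732 (L l45 (T t1449 (K a7 (Fr a135 a143 l159 (V t723)) (K a135 (M a7 (L l83 (F (T t5226 (L l45 (L l488 (L l512 (T t732 (L l45 (T t1449 (K a75 (M a79 (F (T t1071 (L l9 (L l326 (L l338 (T t1453 (L l45 (T t1449 N))))))))) (K a79 (Fr a75 a11 l319 (V t1453)) N)))))))))))) (K a75 (M a79 (L l313 (F (T t1783 (L l9 (L l326 (L l338 (T t1453 (L l45 (T t1451 (K a7 (Fr a135 a143 l159 (V t723)) (K a135 (M a7 (F (T t1071 (L l9 (L l326 (L l338 (T t1453 (L l45 (T t1449 N))))))))) N)))))))))))) (K a79 (Fr a75 a11 l319 (V t716)) N))))))))))))))) (K a131 (M a67 (L l313 (F (T t1460 (L l45 (L l488 (L l512 (T t723 (L l45 (T t1451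 (K a7 (M a135 (F (T t1460 (L l45 (L l488 (L l512 (T t732 (L l45 (T t1451 N))))))))) (K a135 (M a7 (F (T t1254 (L l9 (L l326 (L l338 (T t1453 (L l45 (T t1449 N))))))))) N)))))))))))) (K a7 (M a135 (L l307 (F (T t1460 (L l45 (L l488 (L l512 (T t732 (L l1 (L l45 (T t1449 (K a67 (Fr a131 a143 l159 (V t723)) (K a131 (M a67 (F (T t1460 (L l45 (L l488 (L l512 (T t732 (L l45 (T t1451 N))))))))) N))))))))))))) (K a135 (M a7 (L l307 (F (T t2354 (L l9 (L l326 (L l338 (T t5229 (L l45 (T t1449 (K a67 (M a131 (L l83 (F (T t5226 (L l45 (L l488 (L l512 (T t732 (L l45 (T t1449 (K a75 (M a79 (F (T t1071 (L l9 (L l326 (L l338 (T t1453 (L l45 (T t1449 N))))))))) (K a79 (Fr a75 a11 l319 (V t1453)) N)))))))))))) (K a131 (M a67 (F (T t1254 (L l9 (L l326 (L l338 (T t1453 (L l45 (T t1449 N))))))))) N)))))))))))) N))))))))))))))) (K a139 (M a71 (L l307 (F (T t2354 (L l9 (L l326 (L l338 (T t4510 (L l45 (T t1449 (K a67 (M a131 (F (T t2354 (L l9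 (L l326 (L l338 (T t4510 (L l45 (T t1449 N))))))))) (K a131 (M a67 (L l159 (F (T t1460 (L l45 (L l488 (L l512 (T t716 (L l45 (T t1449 (K a135 (M a143 (F (T t1460 (L l45 (L l488 (L l512 (T t716 (L l45 (T t1449 N))))))))) (K a143 (M a135 (F (T t2354 (L l9 (L l326 (L l338 (T t5229 (L l45 (T t1451 N))))))))) N)))))))))))) N)))))))))))) N))))))))))))))) N)))))))))))))))))))))))) N)))))))))))))))))))))))⟩
def e0_63__195_67 : Ent 4 := ⟨[a0, a63], [a195, a204], (M a192 (L l237 (F (T t47 (L l290 (L l295 (T t21 (L l290 (L l295 (T t35 (L l290 (L l295 (T t202 (L l290 (L l295 (T t37 (K a64 (M a48 (L l237 (F (T t56 (L l327 (L l337 (T t1 (L l116 (L l144 (T t31 (K a201 (M a198 (F (T t610 (L l116 (L l144 (L l231 (L l235 (T t22 (T t525 N))))))))) (K a198 (M a201 (F (T t610 (L l116 (L l144 (L l231 (L l235 (T t22 (T t525 N))))))))) N)))))))))))) (K a128 (M a48 (L l237 (F (T t54 (L l327 (L l337 (T t1 (T t31 (K a201 (M a198 (F (T t610 (L l231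 (L l235 (T t22 (L l192 (L l220 (T t525 N))))))))) (K a198 (M a201 (F (T t610 (L l231 (L l235 (T t22 (L l192 (L l220 (T t525 N))))))))) N)))))))))) (K a21 (M a48 (L l237 (F (T t54 (L l273 (L l298 (T t27 (L l47 (L l347 (T t29 (K a201 (M a198 (F (T t54 (L l273 (L l298 (T t28 (L l47 (L l230 (L l347 (T t29 N)))))))))) (K a198 (M a201 (F (T t54 (L l273 (L l298 (T t28 (L l47 (L l234 (L l347 (T t29 N)))))))))) N)))))))))))) (K a85 (M a16 (L l237 (F (T t504 (L l273 (L l298 (T t210 (L l94 (L l144 (T t211 (K a201 (M a198 (F (T t504 (L l273 (L l298 (T t210 (L l94 (L l144 (T t211 N))))))))) (K a198 (M a201 (F (T t504 (L l273 (L l298 (T t210 (L l94 (L l144 (T t211 N))))))))) N)))))))))))) (K a149 (M a48 (L l237 (F (T t1922 (L l327 (L l337 (L l347 (L l491 (T t1 (L l170 (L l220 (L l327 (L l337 (L l347 (L l491 (T t213 (L l327 (L l337 (L l375 (T t214 (K a201 (M a198 (F (T t132 (L l273 (L l298 (T t837 (L l170 (L l220 (L l327 (L l337 (L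 l347 (L l491 (T t213 (L l327 (L l337 (L l375 (T t214 N))))))))))))))))) (K a198 (M a201 (F (T t132 (L l273 (L l298 (T t837 (L l170 (L l220 (L l327 (L l337 (L l347 (L l491 (T t213 (L l327 (L l337 (L l375 (T t214 N))))))))))))))))) N)))))))))))))))))))))) (K a42 (M a48 (L l237 (F (T t56 (L l273 (L l298 (T t27 (L l28 (T t29 (K a201 (M a198 (F (T t36 (L l231 (L l235 (L l390 (T t22 (L l28 (L l230 (T t29 N)))))))))) (K a198 (M a201 (F (T t36 (L l231 (L l235 (L l390 (T t22 (L l28 (L l234 (T t29 N)))))))))) N))))))))))) (K a106 (M a48 (L l237 (F (T t48 (L l273 (L l298 (T t27 (L l327 (L l337 (L l411 (T t213 (L l104 (L l144 (L l327 (L l337 (L l390 (L l498 (T t214 (K a201 (M a198 (F (T t55 (L l327 (L l337 (L l390 (T t0 (L l327 (L l337 (L l411 (T t213 (L l104 (L l144 (L l327 (L l337 (L l390 (L l498 (T t214 N)))))))))))))))))) (K a198 (M a201 (F (T t55 (L l327 (L l337 (L l390 (T t0 (L l327 (L l337 (L l411 (T t213 (L l104 (L l144 (L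 l327 (L l337 (L l390 (L l498 (T t214 N)))))))))))))))))) N)))))))))))))))))))) (K a170 (M a32 (L l237 (F (T t612 (L l273 (L l298 (T t218 (L l180 (L l220 (T t220 (K a201 (M a198 (F (T t612 (L l273 (L l298 (T t218 (L l180 (L l220 (T t220 N))))))))) (K a198 (M a201 (F (T t612 (L l273 (L l298 (T t218 (L l180 (L l220 (T t220 N))))))))) N)))))))))))) (K a255 (M a16 (L l237 (L l290 (L l295 (F (T t112 (L l266 (L l273 (L l298 (T t210 (T t211 (K a201 (M a198 (L l290 (L l295 (F (T t112 (L l266 (L l273 (L l298 (T t210 (T t211 (K a221 (M a238 (L l295 (F (T t112 (L l266 (L l273 (L l298 (T t210 (T t211 (K a215 (M a235 (F (T t112 (L l266 (L l273 (L l298 (T t210 (T t211 N)))))))) (K a235 (M a215 (F (T t112 (L l266 (L l273 (L l298 (T t210 (T t211 N)))))))) N))))))))))) (K a238 (M a221 (L l295 (F (T t112 (L l266 (L l273 (L l298 (T t210 (T t211 (K a215 (M a235 (F (T t112 (L l266 (L l273 (L l298 (T t210 (T t211 N)))))))) (K a235 (M a215 (F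 (T t112 (L l266 (L l273 (L l298 (T t210 (T t211 N)))))))) N))))))))))) (K a215 (M a235 (L l290 (F (T t112 (L l266 (L l273 (L l298 (T t210 (T t211 (K a221 (M a238 (F (T t112 (L l266 (L l273 (L l298 (T t210 (T t211 N)))))))) (K a238 (M a221 (F (T t112 (L l266 (L l273 (L l298 (T t210 (T t211 N)))))))) N))))))))))) (K a235 (M a215 (L l290 (F (T t112 (L l266 (L l273 (L l298 (T t210 (T t211 (K a221 (M a238 (F (T t112 (L l266 (L l273 (L l298 (T t210 (T t211 N)))))))) (K a238 (M a221 (F (T t112 (L l266 (L l273 (L l298 (T t210 (T t211 N)))))))) N))))))))))) N)))))))))))))) (K a221 (M a238 (L l237 (L l295 (F (T t112 (L l266 (L l273 (L l298 (T t210 (T t211 (K a201 (M a198 (L l295 (F (T t112 (L l266 (L l273 (L l298 (T t210 (T t211 (K a215 (M a235 (F (T t112 (L l266 (L l273 (L l298 (T t210 (T t211 N)))))))) (K a235 (M a215 (F (T t112 (L l266 (L l273 (L l298 (T t210 (T t211 N)))))))) N))))))))))) (K a198 (M a201 (L l295 (F (T t112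 (L l266 (L l273 (L l298 (T t210 (T t211 (K a215 (M a235 (F (T t112 (L l266 (L l273 (L l298 (T t210 (T t211 N)))))))) (K a235 (M a215 (F (T t112 (L l266 (L l273 (L l298 (T t210 (T t211 N)))))))) N))))))))))) (K a215 (M a235 (L l237 (F (T t112 (L l266 (L l273 (L l298 (T t210 (T t211 (K a201 (M a198 (F (T t112 (L l266 (L l273 (L l298 (T t210 (T t211 N)))))))) (K a198 (M a201 (F (T t112 (L l266 (L l273 (L l298 (T t210 (T t211 N)))))))) N))))))))))) (K a235 (M a215 (L l237 (F (T t112 (L l266 (L l273 (L l298 (T t210 (T t211 (K a201 (M a198 (F (T t112 (L l266 (L l273 (L l298 (T t210 (T t211 N)))))))) (K a198 (M a201 (F (T t112 (L l266 (L l273 (L l298 (T t210 (T t211 N)))))))) N))))))))))) N)))))))))))))) (K a198 (M a201 (L l290 (L l295 (F (T t112 (L l266 (L l273 (L l298 (T t210 (T t211 (K a221 (M a238 (L l295 (F (T t112 (L l266 (L l273 (L l298 (T t210 (T t211 (K a215 (M a235 (F (T t112 (L l266 (L l273 (L l298 (T t210 (T t211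 N)))))))) (K a235 (M a215 (F (T t112 (L l266 (L l273 (L l298 (T t210 (T t211 N)))))))) N))))))))))) (K a238 (M a221 (L l295 (F (T t112 (L l266 (L l273 (L l298 (T t210 (T t211 (K a215 (M a235 (F (T t112 (L l266 (L l273 (L l298 (T t210 (T t211 N)))))))) (K a235 (M a215 (F (T t112 (L l266 (L l273 (L l298 (T t210 (T t211 N)))))))) N))))))))))) (K a215 (M a235 (L l290 (F (T t112 (L l266 (L l273 (L l298 (T t210 (T t211 (K a221 (M a238 (F (T t112 (L l266 (L l273 (L l298 (T t210 (T t211 N)))))))) (K a238 (M a221 (F (T t112 (L l266 (L l273 (L l298 (T t210 (T t211 N)))))))) N))))))))))) (K a235 (M a215 (L l290 (F (T t112 (L l266 (L l273 (L l298 (T t210 (T t211 (K a221 (M a238 (F (T t112 (L l266 (L l273 (L l298 (T t210 (T t211 N)))))))) (K a238 (M a221 (F (T t112 (L l266 (L l273 (L l298 (T t210 (T t211 N)))))))) N))))))))))) N)))))))))))))) (K a238 (M a221 (L l237 (L l295 (F (T t112 (L l266 (L l273 (L l298 (T t210 (T t211 (K a201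 (M a198 (L l295 (F (T t112 (L l266 (L l273 (L l298 (T t210 (T t211 (K a215 (M a235 (F (T t112 (L l266 (L l273 (L l298 (T t210 (T t211 N)))))))) (K a235 (M a215 (F (T t112 (L l266 (L l273 (L l298 (T t210 (T t211 N)))))))) N))))))))))) (K a198 (M a201 (L l295 (F (T t112 (L l266 (L l273 (L l298 (T t210 (T t211 (K a215 (M a235 (F (T t112 (L l266 (L l273 (L l298 (T t210 (T t211 N)))))))) (K a235 (M a215 (F (T t112 (L l266 (L l273 (L l298 (T t210 (T t211 N)))))))) N))))))))))) (K a215 (M a235 (L l237 (F (T t112 (L l266 (L l273 (L l298 (T t210 (T t211 (K a201 (M a198 (F (T t112 (L l266 (L l273 (L l298 (T t210 (T t211 N)))))))) (K a198 (M a201 (F (T t112 (L l266 (L l273 (L l298 (T t210 (T t211 N)))))))) N))))))))))) (K a235 (M a215 (L l237 (F (T t112 (L l266 (L l273 (L l298 (T t210 (T t211 (K a201 (M a198 (F (T t112 (L l266 (L l273 (L l298 (T t210 (T t211 N)))))))) (K a198 (M a201 (F (T t112 (L l266 (L l273 (L l298 (T t210 (T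 t211 N)))))))) N))))))))))) N)))))))))))))) (K a215 (M a235 (L l237 (L l290 (F (T t112 (L l266 (L l273 (L l298 (T t210 (T t211 (K a201 (M a198 (L l290 (F (T t112 (L l266 (L l273 (L l298 (T t210 (T t211 (K a221 (M a238 (F (T t112 (L l266 (L l273 (L l298 (T t210 (T t211 N)))))))) (K a238 (M a221 (F (T t112 (L l266 (L l273 (L l298 (T t210 (T t211 N)))))))) N))))))))))) (K a221 (M a238 (L l237 (F (T t112 (L l266 (L l273 (L l298 (T t210 (T t211 (K a201 (M a198 (F (T t112 (L l266 (L l273 (L l298 (T t210 (T t211 N)))))))) (K a198 (M a201 (F (T t112 (L l266 (L l273 (L l298 (T t210 (T t211 N)))))))) N))))))))))) (K a198 (M a201 (L l290 (F (T t112 (L l266 (L l273 (L l298 (T t210 (T t211 (K a221 (M a238 (F (T t112 (L l266 (L l273 (L l298 (T t210 (T t211 N)))))))) (K a238 (M a221 (F (T t112 (L l266 (L l273 (L l298 (T t210 (T t211 N)))))))) N))))))))))) (K a238 (M a221 (L l237 (F (T t112 (L l266 (L l273 (L l298 (T t210 (T t211 (K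 a201 (M a198 (F (T t112 (L l266 (L l273 (L l298 (T t210 (T t211 N)))))))) (K a198 (M a201 (F (T t112 (L l266 (L l273 (L l298 (T t210 (T t211 N)))))))) N))))))))))) N)))))))))))))) (K a235 (M a215 (L l237 (L l290 (F (T t112 (L l266 (L l273 (L l298 (T t210 (T t211 (K a201 (M a198 (L l290 (F (T t112 (L l266 (L l273 (L l298 (T t210 (T t211 (K a221 (M a238 (F (T t112 (L l266 (L l273 (L l298 (T t210 (T t211 N)))))))) (K a238 (M a221 (F (T t112 (L l266 (L l273 (L l298 (T t210 (T t211 N)))))))) N))))))))))) (K a221 (M a238 (L l237 (F (T t112 (L l266 (L l273 (L l298 (T t210 (T t211 (K a201 (M a198 (F (T t112 (L l266 (L l273 (L l298 (T t210 (T t211 N)))))))) (K a198 (M a201 (F (T t112 (L l266 (L l273 (L l298 (T t210 (T t211 N)))))))) N))))))))))) (K a198 (M a201 (L l290 (F (T t112 (L l266 (L l273 (L l298 (T t210 (T t211 (K a221 (M a238 (F (T t112 (L l266 (L l273 (L l298 (T t210 (T t211 N)))))))) (K a238 (M a221 (F (T t112 (L l266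 (L l273 (L l298 (T t210 (T t211 N)))))))) N))))))))))) (K a238 (M a221 (L l237 (F (T t112 (L l266 (L l273 (L l298 (T t210 (T t211 (K a201 (M a198 (F (T t112 (L l266 (L l273 (L l298 (T t210 (T t211 N)))))))) (K a198 (M a201 (F (T t112 (L l266 (L l273 (L l298 (T t210 (T t211 N)))))))) N))))))))))) N)))))))))))))) N))))))))))))))))) (K a201 (M a198 (F (T t47 (L l290 (L l295 (T t21 (L l290 (L l295 (T t35 (L l290 (L l295 (T t202 (L l290 (L l295 (T t37 (K a64 (M a148 (F (L l140 (T t5074 (L l144 (L l508 (T t5234 N))))))) (K a128 (M a148 (F (T t5074 (L l508 (T t5234 N))))) (K a21 (M a148 (F (T t5076 (L l50 (L l508 (T t5234 N)))))) (K a85 (M a98 (F (T t5148 (L l347 (L l488 (T t5235 N)))))) (K a149 (M a48 (F (T t132 (L l273 (L l298 (T t837 (L l170 (L l220 (L l327 (L l337 (L l347 (L l491 (T t213 (L l327 (L l337 (L l375 (T t214 N))))))))))))))))) (K a42 (M a148 (F (T t5076 (L l390 (L l508 (T t5234 N)))))) (K a106 (M a48 (F (T t55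 (L l327 (L l337 (L l390 (T t0 (L l327 (L l337 (L l411 (T t213 (L l104 (L l144 (L l327 (L l337 (L l390 (L l498 (T t214 N)))))))))))))))))) (K a170 (M a148 (F (T t5076 (L l390 (L l508 (T t5234 N)))))) (K a255 (M a196 (L l290 (L l295 (F (L l230 (L l235 (T t5236 (L l513 (T t5237 (K a221 (M a238 (L l295 (F (L l230 (L l235 (T t5236 (L l513 (T t5237 (K a215 (M a235 (F (L l230 (L l235 (L l277 (T t5236 (L l513 (T t5237 N)))))))) (K a235 (M a215 (F (L l230 (L l235 (T t5236 (L l513 (T t5238 N))))))) N)))))))))) (K a238 (M a221 (L l295 (F (L l230 (L l235 (T t5236 (L l402 (L l513 (T t5238 (K a215 (M a235 (F (L l230 (L l235 (L l277 (T t5236 (L l402 (L l513 (T t5238 N))))))))) (K a235 (M a215 (F (L l230 (L l235 (T t5236 (L l402 (L l513 (T t5238 N)))))))) N))))))))))) (K a215 (M a235 (L l290 (F (L l230 (L l235 (L l277 (T t5236 (L l513 (T t5237 (K a221 (M a238 (F (L l230 (L l235 (L l277 (T t5236 (L l513 (T t5237 N)))))))) (K a238 (M a221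 (F (L l230 (L l235 (L l277 (T t5236 (L l402 (L l513 (T t5238 N))))))))) N))))))))))) (K a235 (M a215 (L l290 (F (L l230 (L l235 (T t5239 (L l513 (T t5238 (K a221 (M a238 (F (L l230 (L l235 (T t5236 (L l513 (T t5238 N))))))) (K a238 (M a221 (F (L l230 (L l235 (T t5236 (L l402 (L l513 (T t5238 N)))))))) N)))))))))) N))))))))))))) N)))))))))))))))))))))))) (K a198 (M a201 (F (T t47 (L l290 (L l295 (T t21 (L l290 (L l295 (T t35 (L l290 (L l295 (T t202 (L l290 (L l295 (T t37 (K a64 (M a104 (F (T t5080 (L l508 (T t5212 N))))) (K a128 (M a104 (F (L l216 (T t5080 (L l220 (L l508 (T t5212 N))))))) (K a21 (M a104 (F (T t5213 (L l347 (L l508 (T t5212 N)))))) (K a85 (M a104 (F (T t5213 (L l347 (L l508 (T t5212 N)))))) (K a149 (M a48 (F (T t132 (L l273 (L l298 (T t837 (L l170 (L l220 (L l327 (L l337 (L l347 (L l491 (T t213 (L l327 (L l337 (L l375 (T t214 N))))))))))))))))) (K a42 (M a104 (F (T t5213 (L l56 (L l508 (T t5212 N))))))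 (K a106 (M a48 (F (T t55 (L l327 (L l337 (L l390 (T t0 (L l327 (L l337 (L l411 (T t213 (L l104 (L l144 (L l327 (L l337 (L l390 (L l498 (T t214 N)))))))))))))))))) (K a170 (M a145 (F (T t5155 (L l390 (L l488 (T t5214 N)))))) (K a255 (M a200 (L l290 (L l295 (F (L l229 (L l235 (T t5215 (L l513 (T t5216 (K a221 (M a238 (L l295 (F (L l229 (L l235 (T t5215 (L l365 (L l513 (T t5217 (K a215 (M a235 (F (L l229 (L l235 (T t5218 (L l365 (L l513 (T t5217 N)))))))) (K a235 (M a215 (F (L l229 (L l235 (L l283 (T t5215 (L l365 (L l513 (T t5217 N))))))))) N))))))))))) (K a238 (M a221 (L l295 (F (L l229 (L l235 (T t5215 (L l513 (T t5216 (K a215 (M a235 (F (L l229 (L l235 (T t5218 (L l513 (T t5217 N))))))) (K a235 (M a215 (F (L l229 (L l235 (L l283 (T t5215 (L l513 (T t5216 N)))))))) N)))))))))) (K a215 (M a235 (L l290 (F (L l229 (L l235 (T t5218 (L l513 (T t5217 (K a221 (M a238 (F (L l229 (L l235 (T t5218 (L l365 (L l513 (T t5217 N))))))))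 (K a238 (M a221 (F (L l229 (L l235 (T t5218 (L l513 (T t5217 N))))))) N)))))))))) (K a235 (M a215 (L l290 (F (L l229 (L l235 (L l283 (T t5215 (L l513 (T t5216 (K a221 (M a238 (F (L l229 (L l235 (L l283 (T t5215 (L l365 (L l513 (T t5217 N))))))))) (K a238 (M a221 (F (L l229 (L l235 (L l283 (T t5215 (L l513 (T t5216 N)))))))) N))))))))))) N))))))))))))) N)))))))))))))))))))))))) N)))))))))))))))))))))))))))⟩
def e0_63__195_68 : Ent 4 := ⟨[a0, a63], [a195, a205], (M a48 (F (T t48 (L l337 (T t1 (L l337 (T t2 (L l337 (T t3 (L l337 (T t0 (K a16 (M a60 (F (T t277 (L l14 (L l18 (L l307 (T t67 (T t65 N)))))))) (K a32 (M a60 (F (T t277 (L l307 (T t67 (L l24 (L l28 (T t65 N)))))))) (K a21 (M a192 (F (T t54 (L l273 (T t27 (L l47 (L l347 (T t29 N)))))))) (K a37 (M a192 (F (T t54 (L l273 (T t27 (L l295 (T t21 N))))))) (K a53 (M a192 (F (T t55 (L l295 (L l491 (T t21 (T t31 N))))))) (K a26 (M a192 (F (T t56 (L l273 (T t27 (L l295 (T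 t21 N))))))) (K a42 (M a192 (F (T t56 (L l273 (T t27 (L l28 (T t29 N))))))) (K a58 (M a192 (F (T t57 (L l273 (T t27 (L l54 (L l498 (T t31 N)))))))) (K a15 (M a192 (L l337 (F (T t1681 (L l273 (L l483 (T t27 (L l231 (L l235 (L l325 (T t20 (K a135 (M a75 (F (T t47 (L l231 (L l235 (L l325 (T t22 (L l273 (L l483 (T t28 N)))))))))) (K a75 (M a135 (F (T t47 (L l231 (L l235 (L l325 (T t22 (L l273 (L l483 (T t28 N)))))))))) N))))))))))))) N))))))))))))))))))))⟩
def e0_63__195_69 : Ent 4 := ⟨[a0, a63], [a195, a207], (M a12 (L l235 (F (T t150 (L l487 (L l511 (T t122 (L l487 (L l511 (T t151 (L l487 (L l511 (T t152 (L l487 (L l511 (T t153 (K a4 (M a60 (L l235 (F (T t570 (L l46 (L l50 (L l307 (L l331 (T t67 (T t448 (K a199 (M a203 (L l314 (F (T t423 (L l307 (L l331 (T t69 (T t448 (K a69 (M a134 (F (T t570 (L l307 (L l329 (L l331 (T t69 (T t448 N)))))))) (K a134 (M a69 (F (T t835 (L l50 (L l307 (L l331 (T t68 (T t448 N)))))))) N))))))))))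 (K a203 (M a199 (F (T t423 (L l307 (L l331 (T t69 (T t448 N))))))) N)))))))))))) (K a8 (M a60 (L l235 (F (T t116 (L l325 (L l337 (T t398 (L l52 (L l56 (T t448 (K a199 (M a203 (F (T t423 (L l56 (L l307 (L l331 (T t69 (L l52 (L l56 (T t448 N)))))))))) (K a203 (M a199 (L l320 (F (T t423 (L l56 (L l307 (L l331 (T t69 (L l52 (L l56 (T t448 (K a73 (M a138 (F (T t835 (L l307 (L l331 (T t67 (L l52 (L l56 (T t448 N))))))))) (K a138 (M a73 (F (T t116 (L l325 (L l337 (T t398 (T t1096 N))))))) N))))))))))))) N)))))))))))) (K a21 (M a85 (L l235 (F (T t123 (L l231 (L l237 (T t124 (L l15 (T t574 (K a199 (M a203 (F (T t4326 (L l15 (L l277 (T t574 (L l231 (L l237 (T t124 N))))))))) (K a203 (M a199 (F (L l320 (T t5240 (L l231 (L l237 (T t124 N))))))) N))))))))))) (K a25 (M a89 (L l235 (F (T t2788 (L l271 (L l301 (T t863 (T t864 (K a199 (M a203 (F (T t2788 (L l295 (L l314 (T t5241 N)))))) (K a203 (M a199 (F (T t2788 (L l56 (L l271 (L l301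 (L l320 (T t2755 (L l283 (T t3372 N)))))))))) N)))))))))) (K a29 (M a85 (L l235 (F (T t89 (L l289 (L l295 (T t1368 (T t572 (K a199 (M a203 (F (T t89 (L l289 (L l295 (L l314 (T t573 (L l277 (T t572 N))))))))) (K a203 (M a199 (F (T t89 (L l301 (L l320 (T t2168 N)))))) N)))))))))) (K a38 (M a85 (L l235 (F (T t123 (L l26 (L l228 (L l236 (T t88 (T t574 (K a199 (M a203 (F (T t4326 (L l26 (L l228 (L l236 (T t352 (L l277 (T t574 N))))))))) (K a203 (M a199 (F (L l26 (T t89 (L l301 (L l320 (T t2168 N))))))) N))))))))))) (K a42 (M a85 (L l235 (F (L l56 (T t123 (L l231 (L l237 (L l390 (T t124 (L l56 (T t574 (K a199 (M a203 (F (L l56 (L l277 (T t123 (L l231 (L l237 (L l390 (T t124 (L l56 (L l277 (T t574 N)))))))))))) (K a203 (M a199 (F (L l390 (T t571 (L l56 (L l301 (L l320 (T t2168 N)))))))) N))))))))))))) (K a46 (M a85 (L l235 (F (T t123 (L l26 (L l228 (L l236 (T t88 (L l26 (T t572 (K a199 (M a203 (F (L l277 (T t123 (L l26 (L l228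 (L l236 (T t352 (L l26 (L l277 (T t572 N))))))))))) (K a203 (M a199 (F (L l26 (T t49 (L l301 (L l320 (T t2168 N))))))) N)))))))))))) (K a51 (M a170 (L l235 (L l487 (L l511 (F (T t439 (L l289 (L l295 (L l439 (T t3685 (T t3880 (K a147 (M a99 (L l235 (L l511 (F (T t5242 (L l228 (L l236 (L l489 (T t320 (T t3880 (K a199 (M a203 (L l511 (F (T t439 (L l301 (L l314 (T t5243 (K a103 (M a155 (L l493 (F (T t439 (L l301 (L l314 (T t5244 (K a151 (M a55 (F (T t4695 (L l219 (L l231 (L l237 (L l513 (T t2498 N)))))))) (K a55 (M a151 (F (T t4159 (L l50 (L l301 (L l314 (T t5244 N))))))) N))))))))) (K a155 (M a103 (L l169 (F (T t439 (L l301 (L l314 (L l355 (T t5244 (K a151 (M a159 (F (T t874 (L l164 (L l314 (L l512 (T t5245 N))))))) (K a159 (M a151 (F (T t874 (L l301 (L l314 (L l355 (T t5244 N))))))) N)))))))))) N))))))))) (K a103 (M a155 (L l235 (F (T t5242 (L l228 (L l236 (L l489 (T t320 (T t3880 (K a199 (M a203 (L l493 (F (T t439 (L l301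 (L l314 (T t5244 (K a151 (M a55 (F (T t4695 (L l219 (L l231 (L l237 (L l513 (T t2498 N)))))))) (K a55 (M a151 (F (T t4159 (L l50 (L l301 (L l314 (T t5244 N))))))) N))))))))) (K a203 (M a199 (F (T t439 (L l271 (L l283 (L l301 (L l415 (T t4735 (L l283 (T t3880 N)))))))))) N))))))))))) (K a203 (M a199 (L l511 (F (T t439 (L l271 (L l283 (L l301 (L l415 (T t4735 (L l283 (T t3880 (K a103 (M a155 (F (T t439 (L l271 (L l283 (L l301 (L l415 (T t4735 (L l283 (T t3880 N)))))))))) (K a155 (M a103 (L l169 (L l499 (F (T t439 (L l283 (L l289 (L l295 (L l439 (T t4734 (L l283 (T t3880 (K a151 (M a159 (L l499 (F (T t5246 (L l289 (L l295 (L l439 (T t434 (L l219 (L l283 (T t3880 (K a107 (M a59 (F (T t5247 (L l219 (L l231 (L l237 (L l513 (T t2498 N)))))))) (K a59 (Fr a107 a111 l103 (V t4734)) N))))))))))))) (K a107 (M a59 (L l169 (F (T t5247 (L l231 (L l237 (L l513 (T t2498 (K a151 (M a159 (F (T t5247 (L l219 (L l231 (L l237 (L l513 (T t2498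 N)))))))) (K a159 (Fr a151 a55 l493 (V t5248)) N)))))))))) (K a59 (Fr a107 a111 l103 (V t4734)) (K a159 (Fr a151 a55 l493 (V t2497)) N)))))))))))))))) N))))))))))))) (K a155 (M a103 (L l169 (L l235 (F (T t5242 (L l289 (L l295 (L l439 (T t434 (T t3880 (K a199 (M a203 (L l169 (F (T t439 (L l301 (L l314 (L l355 (T t5244 (K a151 (M a159 (F (T t874 (L l164 (L l314 (L l512 (T t5245 N))))))) (K a159 (M a151 (F (T t874 (L l301 (L l314 (L l355 (T t5244 N))))))) N)))))))))) (K a151 (M a159 (L l235 (F (T t5242 (L l289 (L l295 (L l439 (T t434 (L l219 (T t3880 (K a199 (M a203 (F (T t874 (L l164 (L l314 (L l512 (T t5245 N))))))) (K a203 (M a199 (L l499 (F (T t5246 (L l289 (L l295 (L l439 (T t434 (L l219 (L l283 (T t3880 (K a107 (M a59 (F (T t5247 (L l219 (L l231 (L l237 (L l513 (T t2498 N)))))))) (K a59 (Fr a107 a111 l103 (V t4734)) N))))))))))))) N)))))))))))) (K a203 (M a199 (L l169 (L l499 (F (T t439 (L l283 (L l289 (L l295 (L l439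 (T t4734 (L l283 (T t3880 (K a151 (M a159 (L l499 (F (T t5246 (L l289 (L l295 (L l439 (T t434 (L l219 (L l283 (T t3880 (K a107 (M a59 (F (T t5247 (L l219 (L l231 (L l237 (L l513 (T t2498 N)))))))) (K a59 (Fr a107 a111 l103 (V t4734)) N))))))))))))) (K a107 (M a59 (L l169 (F (T t5247 (L l231 (L l237 (L l513 (T t2498 (K a151 (M a159 (F (T t5247 (L l219 (L l231 (L l237 (L l513 (T t2498 N)))))))) (K a159 (Fr a151 a55 l493 (V t5248)) N)))))))))) (K a59 (Fr a107 a111 l103 (V t4734)) (K a159 (Fr a151 a55 l493 (V t2497)) N)))))))))))))))) (K a159 (M a151 (L l235 (F (T t5242 (L l170 (L l289 (L l295 (L l439 (T t438 (L l213 (T t3880 (K a199 (M a203 (F (T t874 (L l301 (L l314 (L l355 (T t5244 N))))))) (K a203 (Fr a199 a55 l493 (V t2497)) N))))))))))))) N)))))))))))))) N)))))))))))))) (K a99 (M a147 (L l235 (L l511 (F (T t5242 (L l228 (L l236 (L l489 (T t320 (T t3880 (K a199 (M a203 (L l511 (F (T t439 (L l301 (L l314 (T t5243 (K a103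 (M a155 (L l103 (L l493 (F (T t439 (L l301 (L l314 (T t5244 (K a151 (M a55 (L l103 (F (T t5249 (L l219 (L l231 (L l237 (L l513 (T t2498 (K a107 (M a111 (F (T t5249 (L l219 (L l231 (L l237 (L l513 (T t2498 N)))))))) (K a111 (Fr a107 a59 l499 (V t4695)) N))))))))))) (K a55 (Fr a151 a159 l169 (V t317)) (K a107 (M a111 (L l493 (F (T t439 (L l301 (L l314 (T t5244 (K a151 (M a55 (F (T t5249 (L l219 (L l231 (L l237 (L l513 (T t2498 N)))))))) (K a55 (Fr a151 a159 l169 (V t438)) N))))))))) (K a111 (Fr a107 a59 l499 (V t3685)) N)))))))))))) (K a155 (M a103 (F (T t439 (L l301 (L l314 (L l355 (T t5243 N))))))) N))))))))) (K a103 (M a155 (L l103 (L l235 (F (T t5242 (L l289 (L l295 (L l439 (T t434 (T t3880 (K a199 (M a203 (L l103 (L l493 (F (T t439 (L l301 (L l314 (T t5244 (K a151 (M a55 (L l103 (F (T t5249 (L l219 (L l231 (L l237 (L l513 (T t2498 (K a107 (M a111 (F (T t5249 (L l219 (L l231 (L l237 (L l513 (T t2498 N)))))))) (K a111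 (Fr a107 a59 l499 (V t4695)) N))))))))))) (K a55 (Fr a151 a159 l169 (V t317)) (K a107 (M a111 (L l493 (F (T t439 (L l301 (L l314 (T t5244 (K a151 (M a55 (F (T t5249 (L l219 (L l231 (L l237 (L l513 (T t2498 N)))))))) (K a55 (Fr a151 a159 l169 (V t438)) N))))))))) (K a111 (Fr a107 a59 l499 (V t3685)) N)))))))))))) (K a203 (M a199 (L l103 (F (T t4159 (L l283 (T t3682 (K a107 (M a111 (F (T t4159 (L l283 (T t3682 N))))) (K a111 (M a107 (F (T t439 (L l283 (L l289 (L l295 (L l439 (T t4734 (L l283 (T t3880 N)))))))))) N)))))))) (K a107 (M a111 (L l235 (F (T t5242 (L l228 (L l236 (L l489 (T t317 (T t3880 (K a199 (M a203 (L l493 (F (T t439 (L l301 (L l314 (T t5244 (K a151 (M a55 (F (T t5249 (L l219 (L l231 (L l237 (L l513 (T t2498 N)))))))) (K a55 (Fr a151 a159 l169 (V t438)) N))))))))) (K a203 (M a199 (F (T t4159 (L l283 (T t3682 N))))) N))))))))))) (K a111 (M a107 (L l235 (F (T t5242 (L l228 (L l236 (L l489 (T t320 (T t3880 (K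 a199 (Fr a203 a59 l499 (V t3685)) (K a203 (M a199 (F (T t439 (L l283 (L l289 (L l295 (L l439 (T t4734 (L l283 (T t3880 N)))))))))) N))))))))))) N)))))))))))))) (K a203 (M a199 (L l511 (F (T t439 (L l271 (L l283 (L l301 (L l415 (T t4735 (L l283 (T t3880 (K a103 (M a155 (L l103 (F (T t4159 (L l283 (T t3682 (K a107 (M a111 (F (T t4159 (L l283 (T t3682 N))))) (K a111 (M a107 (F (T t439 (L l283 (L l289 (L l295 (L l439 (T t4734 (L l283 (T t3880 N)))))))))) N)))))))) (K a155 (M a103 (L l499 (F (T t4159 (L l283 (T t3682 (K a107 (M a59 (F (T t5248 (L l231 (L l237 (L l513 (T t2498 N))))))) (K a59 (M a107 (F (T t4159 (L l283 (L l427 (T t3682 N)))))) N)))))))) N))))))))))))) (K a155 (M a103 (L l235 (F (T t5242 (L l228 (L l236 (L l489 (T t320 (T t3880 (K a199 (M a203 (F (T t439 (L l301 (L l314 (L l355 (T t5243 N))))))) (K a203 (M a199 (L l499 (F (T t4159 (L l283 (T t3682 (K a107 (M a59 (F (T t5248 (L l231 (L l237 (L l513 (T t2498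 N))))))) (K a59 (M a107 (F (T t4159 (L l283 (L l427 (T t3682 N)))))) N)))))))) N))))))))))) N)))))))))))))) (K a199 (M a203 (L l487 (L l511 (F (T t439 (L l301 (L l314 (T t5243 (K a147 (M a99 (L l511 (F (T t439 (L l301 (L l314 (T t5243 (K a103 (M a155 (L l493 (F (T t439 (L l301 (L l314 (T t5244 (K a151 (M a55 (F (T t4695 (L l219 (L l231 (L l237 (L l513 (T t2498 N)))))))) (K a55 (M a151 (F (T t4159 (L l50 (L l301 (L l314 (T t5244 N))))))) N))))))))) (K a155 (M a103 (L l169 (F (T t439 (L l301 (L l314 (L l355 (T t5244 (K a151 (M a159 (F (T t874 (L l164 (L l314 (L l512 (T t5245 N))))))) (K a159 (M a151 (F (T t874 (L l301 (L l314 (L l355 (T t5244 N))))))) N)))))))))) N))))))))) (K a99 (M a147 (L l511 (F (T t439 (L l301 (L l314 (T t5243 (K a103 (M a155 (L l103 (L l493 (F (T t439 (L l301 (L l314 (T t5244 (K a151 (M a55 (L l103 (F (T t5249 (L l219 (L l231 (L l237 (L l513 (T t2498 (K a107 (M a111 (F (T t5249 (L l219 (L l231 (L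 l237 (L l513 (T t2498 N)))))))) (K a111 (Fr a107 a59 l499 (V t4695)) N))))))))))) (K a55 (Fr a151 a159 l169 (V t317)) (K a107 (M a111 (L l493 (F (T t439 (L l301 (L l314 (T t5244 (K a151 (M a55 (F (T t5249 (L l219 (L l231 (L l237 (L l513 (T t2498 N)))))))) (K a55 (Fr a151 a159 l169 (V t438)) N))))))))) (K a111 (Fr a107 a59 l499 (V t3685)) N)))))))))))) (K a155 (M a103 (F (T t439 (L l301 (L l314 (L l355 (T t5243 N))))))) N))))))))) (K a103 (M a155 (L l487 (L l493 (F (T t439 (L l301 (L l314 (T t5244 (K a147 (M a99 (L l493 (F (T t439 (L l301 (L l314 (T t5244 (K a151 (M a55 (F (T t4695 (L l219 (L l231 (L l237 (L l513 (T t2498 N)))))))) (K a55 (M a151 (F (T t4159 (L l50 (L l301 (L l314 (T t5244 N))))))) N))))))))) (K a99 (M a147 (L l103 (L l493 (F (T t439 (L l301 (L l314 (T t5244 (K a151 (M a55 (L l103 (F (T t5249 (L l219 (L l231 (L l237 (L l513 (T t2498 (K a107 (M a111 (F (T t5249 (L l219 (L l231 (L l237 (L l513 (T t2498 N))))))))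 (K a111 (Fr a107 a59 l499 (V t4695)) N))))))))))) (K a55 (Fr a151 a159 l169 (V t317)) (K a107 (M a111 (L l493 (F (T t439 (L l301 (L l314 (T t5244 (K a151 (M a55 (F (T t5249 (L l219 (L l231 (L l237 (L l513 (T t2498 N)))))))) (K a55 (Fr a151 a159 l169 (V t438)) N))))))))) (K a111 (Fr a107 a59 l499 (V t3685)) N)))))))))))) (K a151 (M a55 (L l487 (F (T t5249 (L l219 (L l231 (L l237 (L l513 (T t2498 (K a147 (M a99 (F (T t4695 (L l219 (L l231 (L l237 (L l513 (T t2498 N)))))))) (K a99 (M a147 (L l103 (F (T t5249 (L l219 (L l231 (L l237 (L l513 (T t2498 (K a107 (M a111 (F (T t5249 (L l219 (L l231 (L l237 (L l513 (T t2498 N)))))))) (K a111 (Fr a107 a59 l499 (V t4695)) N))))))))))) N))))))))))) (K a55 (M a151 (L l487 (F (T t4159 (L l50 (L l301 (L l314 (T t5244 (K a147 (M a99 (F (T t4159 (L l50 (L l301 (L l314 (T t5244 N))))))) (K a99 (Fr a147 a159 l169 (V t317)) N)))))))))) N)))))))))))) (K a155 (M a103 (L l487 (F (T t439 (L l301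 (L l314 (L l355 (T t5243 (K a147 (M a99 (L l169 (F (T t439 (L l301 (L l314 (L l355 (T t5244 (K a151 (M a159 (F (T t874 (L l164 (L l314 (L l512 (T t5245 N))))))) (K a159 (M a151 (F (T t874 (L l301 (L l314 (L l355 (T t5244 N))))))) N)))))))))) (K a99 (M a147 (F (T t439 (L l301 (L l314 (L l355 (T t5243 N))))))) N)))))))))) N)))))))))))) (K a103 (M a155 (L l235 (L l487 (F (T t5242 (L l228 (L l236 (L l489 (T t320 (T t3880 (K a147 (M a99 (L l235 (F (T t5242 (L l228 (L l236 (L l489 (T t320 (T t3880 (K a199 (M a203 (L l493 (F (T t439 (L l301 (L l314 (T t5244 (K a151 (M a55 (F (T t4695 (L l219 (L l231 (L l237 (L l513 (T t2498 N)))))))) (K a55 (M a151 (F (T t4159 (L l50 (L l301 (L l314 (T t5244 N))))))) N))))))))) (K a203 (M a199 (F (T t439 (L l271 (L l283 (L l301 (L l415 (T t4735 (L l283 (T t3880 N)))))))))) N))))))))))) (K a99 (M a147 (L l103 (L l235 (F (T t5242 (L l289 (L l295 (L l439 (T t434 (T t3880 (K a199 (M a203 (L l103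 (L l493 (F (T t439 (L l301 (L l314 (T t5244 (K a151 (M a55 (L l103 (F (T t5249 (L l219 (L l231 (L l237 (L l513 (T t2498 (K a107 (M a111 (F (T t5249 (L l219 (L l231 (L l237 (L l513 (T t2498 N)))))))) (K a111 (Fr a107 a59 l499 (V t4695)) N))))))))))) (K a55 (Fr a151 a159 l169 (V t317)) (K a107 (M a111 (L l493 (F (T t439 (L l301 (L l314 (T t5244 (K a151 (M a55 (F (T t5249 (L l219 (L l231 (L l237 (L l513 (T t2498 N)))))))) (K a55 (Fr a151 a159 l169 (V t438)) N))))))))) (K a111 (Fr a107 a59 l499 (V t3685)) N)))))))))))) (K a203 (M a199 (L l103 (F (T t4159 (L l283 (T t3682 (K a107 (M a111 (F (T t4159 (L l283 (T t3682 N))))) (K a111 (M a107 (F (T t439 (L l283 (L l289 (L l295 (L l439 (T t4734 (L l283 (T t3880 N)))))))))) N)))))))) (K a107 (M a111 (L l235 (F (T t5242 (L l228 (L l236 (L l489 (T t317 (T t3880 (K a199 (M a203 (L l493 (F (T t439 (L l301 (L l314 (T t5244 (K a151 (M a55 (F (T t5249 (L l219 (L l231 (L l237 (L l513 (T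 t2498 N)))))))) (K a55 (Fr a151 a159 l169 (V t438)) N))))))))) (K a203 (M a199 (F (T t4159 (L l283 (T t3682 N))))) N))))))))))) (K a111 (M a107 (L l235 (F (T t5242 (L l228 (L l236 (L l489 (T t320 (T t3880 (K a199 (Fr a203 a59 l499 (V t3685)) (K a203 (M a199 (F (T t439 (L l283 (L l289 (L l295 (L l439 (T t4734 (L l283 (T t3880 N)))))))))) N))))))))))) N)))))))))))))) (K a199 (M a203 (L l487 (L l493 (F (T t439 (L l301 (L l314 (T t5244 (K a147 (M a99 (L l493 (F (T t439 (L l301 (L l314 (T t5244 (K a151 (M a55 (F (T t4695 (L l219 (L l231 (L l237 (L l513 (T t2498 N)))))))) (K a55 (M a151 (F (T t4159 (L l50 (L l301 (L l314 (T t5244 N))))))) N))))))))) (K a99 (M a147 (L l103 (L l493 (F (T t439 (L l301 (L l314 (T t5244 (K a151 (M a55 (L l103 (F (T t5249 (L l219 (L l231 (L l237 (L l513 (T t2498 (K a107 (M a111 (F (T t5249 (L l219 (L l231 (L l237 (L l513 (T t2498 N)))))))) (K a111 (Fr a107 a59 l499 (V t4695)) N))))))))))) (K a55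 (Fr a151 a159 l169 (V t317)) (K a107 (M a111 (L l493 (F (T t439 (L l301 (L l314 (T t5244 (K a151 (M a55 (F (T t5249 (L l219 (L l231 (L l237 (L l513 (T t2498 N)))))))) (K a55 (Fr a151 a159 l169 (V t438)) N))))))))) (K a111 (Fr a107 a59 l499 (V t3685)) N)))))))))))) (K a151 (M a55 (L l487 (F (T t5249 (L l219 (L l231 (L l237 (L l513 (T t2498 (K a147 (M a99 (F (T t4695 (L l219 (L l231 (L l237 (L l513 (T t2498 N)))))))) (K a99 (M a147 (L l103 (F (T t5249 (L l219 (L l231 (L l237 (L l513 (T t2498 (K a107 (M a111 (F (T t5249 (L l219 (L l231 (L l237 (L l513 (T t2498 N)))))))) (K a111 (Fr a107 a59 l499 (V t4695)) N))))))))))) N))))))))))) (K a55 (M a151 (L l487 (F (T t4159 (L l50 (L l301 (L l314 (T t5244 (K a147 (M a99 (F (T t4159 (L l50 (L l301 (L l314 (T t5244 N))))))) (K a99 (Fr a147 a159 l169 (V t317)) N)))))))))) N)))))))))))) (K a203 (M a199 (L l487 (F (T t439 (L l271 (L l283 (L l301 (L l415 (T t4735 (L l283 (T t3880 (K a147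 (M a99 (F (T t439 (L l271 (L l283 (L l301 (L l415 (T t4735 (L l283 (T t3880 N)))))))))) (K a99 (M a147 (L l103 (F (T t4159 (L l283 (T t3682 (K a107 (M a111 (F (T t4159 (L l283 (T t3682 N))))) (K a111 (M a107 (F (T t439 (L l283 (L l289 (L l295 (L l439 (T t4734 (L l283 (T t3880 N)))))))))) N)))))))) N))))))))))))) N)))))))))))))) (K a203 (M a199 (L l487 (L l511 (F (T t439 (L l271 (L l283 (L l301 (L l415 (T t4735 (L l283 (T t3880 (K a147 (M a99 (L l511 (F (T t439 (L l271 (L l283 (L l301 (L l415 (T t4735 (L l283 (T t3880 (K a103 (M a155 (F (T t439 (L l271 (L l283 (L l301 (L l415 (T t4735 (L l283 (T t3880 N)))))))))) (K a155 (M a103 (L l169 (L l499 (F (T t439 (L l283 (L l289 (L l295 (L l439 (T t4734 (L l283 (T t3880 (K a151 (M a159 (L l499 (F (T t5246 (L l289 (L l295 (L l439 (T t434 (L l219 (L l283 (T t3880 (K a107 (M a59 (F (T t5247 (L l219 (L l231 (L l237 (L l513 (T t2498 N)))))))) (K a59 (Fr a107 a111 l103 (V t4734)) N)))))))))))))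 (K a107 (M a59 (L l169 (F (T t5247 (L l231 (L l237 (L l513 (T t2498 (K a151 (M a159 (F (T t5247 (L l219 (L l231 (L l237 (L l513 (T t2498 N)))))))) (K a159 (Fr a151 a55 l493 (V t5248)) N)))))))))) (K a59 (Fr a107 a111 l103 (V t4734)) (K a159 (Fr a151 a55 l493 (V t2497)) N)))))))))))))))) N))))))))))))) (K a99 (M a147 (L l511 (F (T t439 (L l271 (L l283 (L l301 (L l415 (T t4735 (L l283 (T t3880 (K a103 (M a155 (L l103 (F (T t4159 (L l283 (T t3682 (K a107 (M a111 (F (T t4159 (L l283 (T t3682 N))))) (K a111 (M a107 (F (T t439 (L l283 (L l289 (L l295 (L l439 (T t4734 (L l283 (T t3880 N)))))))))) N)))))))) (K a155 (M a103 (L l499 (F (T t4159 (L l283 (T t3682 (K a107 (M a59 (F (T t5248 (L l231 (L l237 (L l513 (T t2498 N))))))) (K a59 (M a107 (F (T t4159 (L l283 (L l427 (T t3682 N)))))) N)))))))) N))))))))))))) (K a103 (M a155 (L l487 (F (T t439 (L l271 (L l283 (L l301 (L l415 (T t4735 (L l283 (T t3880 (K a147 (M a99 (F (T t439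 (L l271 (L l283 (L l301 (L l415 (T t4735 (L l283 (T t3880 N)))))))))) (K a99 (M a147 (L l103 (F (T t4159 (L l283 (T t3682 (K a107 (M a111 (F (T t4159 (L l283 (T t3682 N))))) (K a111 (M a107 (F (T t439 (L l283 (L l289 (L l295 (L l439 (T t4734 (L l283 (T t3880 N)))))))))) N)))))))) N))))))))))))) (K a155 (M a103 (L l487 (L l499 (F (T t439 (L l271 (L l283 (L l301 (L l415 (T t2497 (L l283 (T t3880 (K a147 (M a99 (L l169 (L l499 (F (T t439 (L l283 (L l289 (L l295 (L l439 (T t4734 (L l283 (T t3880 (K a151 (M a159 (L l499 (F (T t5246 (L l289 (L l295 (L l439 (T t434 (L l219 (L l283 (T t3880 (K a107 (M a59 (F (T t5247 (L l219 (L l231 (L l237 (L l513 (T t2498 N)))))))) (K a59 (Fr a107 a111 l103 (V t4734)) N))))))))))))) (K a107 (M a59 (L l169 (F (T t5247 (L l231 (L l237 (L l513 (T t2498 (K a151 (M a159 (F (T t5247 (L l219 (L l231 (L l237 (L l513 (T t2498 N)))))))) (K a159 (Fr a151 a55 l493 (V t5248)) N)))))))))) (K a59 (Fr a107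 a111 l103 (V t4734)) (K a159 (Fr a151 a55 l493 (V t2497)) N)))))))))))))))) (K a99 (M a147 (L l499 (F (T t4159 (L l283 (T t3682 (K a107 (M a59 (F (T t5248 (L l231 (L l237 (L l513 (T t2498 N))))))) (K a59 (M a107 (F (T t4159 (L l283 (L l427 (T t3682 N)))))) N)))))))) (K a107 (M a59 (L l487 (F (T t5247 (L l231 (L l237 (L l513 (T t2498 (K a147 (M a99 (L l169 (F (T t5247 (L l231 (L l237 (L l513 (T t2498 (K a151 (M a159 (F (T t5247 (L l219 (L l231 (L l237 (L l513 (T t2498 N)))))))) (K a159 (Fr a151 a55 l493 (V t5248)) N)))))))))) (K a99 (M a147 (F (T t5248 (L l231 (L l237 (L l513 (T t2498 N))))))) N)))))))))) (K a59 (M a107 (L l487 (F (T t4159 (L l283 (L l427 (T t3682 (K a147 (Fr a99 a111 l103 (V t4734)) (K a99 (M a147 (F (T t4159 (L l283 (L l427 (T t3682 N)))))) N))))))))) N)))))))))))))))) N)))))))))))))))) (K a155 (M a103 (L l235 (L l487 (F (T t5242 (L l228 (L l236 (L l489 (T t320 (T t3880 (K a147 (M a99 (L l169 (L l235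 (F (T t5242 (L l289 (L l295 (L l439 (T t434 (T t3880 (K a199 (M a203 (L l169 (F (T t439 (L l301 (L l314 (L l355 (T t5244 (K a151 (M a159 (F (T t874 (L l164 (L l314 (L l512 (T t5245 N))))))) (K a159 (M a151 (F (T t874 (L l301 (L l314 (L l355 (T t5244 N))))))) N)))))))))) (K a151 (M a159 (L l235 (F (T t5242 (L l289 (L l295 (L l439 (T t434 (L l219 (T t3880 (K a199 (M a203 (F (T t874 (L l164 (L l314 (L l512 (T t5245 N))))))) (K a203 (M a199 (L l499 (F (T t5246 (L l289 (L l295 (L l439 (T t434 (L l219 (L l283 (T t3880 (K a107 (M a59 (F (T t5247 (L l219 (L l231 (L l237 (L l513 (T t2498 N)))))))) (K a59 (Fr a107 a111 l103 (V t4734)) N))))))))))))) N)))))))))))) (K a203 (M a199 (L l169 (L l499 (F (T t439 (L l283 (L l289 (L l295 (L l439 (T t4734 (L l283 (T t3880 (K a151 (M a159 (L l499 (F (T t5246 (L l289 (L l295 (L l439 (T t434 (L l219 (L l283 (T t3880 (K a107 (M a59 (F (T t5247 (L l219 (L l231 (L l237 (L l513 (T t2498 N))))))))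 (K a59 (Fr a107 a111 l103 (V t4734)) N))))))))))))) (K a107 (M a59 (L l169 (F (T t5247 (L l231 (L l237 (L l513 (T t2498 (K a151 (M a159 (F (T t5247 (L l219 (L l231 (L l237 (L l513 (T t2498 N)))))))) (K a159 (Fr a151 a55 l493 (V t5248)) N)))))))))) (K a59 (Fr a107 a111 l103 (V t4734)) (K a159 (Fr a151 a55 l493 (V t2497)) N)))))))))))))))) (K a159 (M a151 (L l235 (F (T t5242 (L l170 (L l289 (L l295 (L l439 (T t438 (L l213 (T t3880 (K a199 (M a203 (F (T t874 (L l301 (L l314 (L l355 (T t5244 N))))))) (K a203 (Fr a199 a55 l493 (V t2497)) N))))))))))))) N)))))))))))))) (K a99 (M a147 (L l235 (F (T t5242 (L l228 (L l236 (L l489 (T t320 (T t3880 (K a199 (M a203 (F (T t439 (L l301 (L l314 (L l355 (T t5243 N))))))) (K a203 (M a199 (L l499 (F (T t4159 (L l283 (T t3682 (K a107 (M a59 (F (T t5248 (L l231 (L l237 (L l513 (T t2498 N))))))) (K a59 (M a107 (F (T t4159 (L l283 (L l427 (T t3682 N)))))) N)))))))) N))))))))))) (K a199 (M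 a203 (L l487 (F (T t439 (L l301 (L l314 (L l355 (T t5243 (K a147 (M a99 (L l169 (F (T t439 (L l301 (L l314 (L l355 (T t5244 (K a151 (M a159 (F (T t874 (L l164 (L l314 (L l512 (T t5245 N))))))) (K a159 (M a151 (F (T t874 (L l301 (L l314 (L l355 (T t5244 N))))))) N)))))))))) (K a99 (M a147 (F (T t439 (L l301 (L l314 (L l355 (T t5243 N))))))) N)))))))))) (K a203 (M a199 (L l487 (L l499 (F (T t439 (L l271 (L l283 (L l301 (L l415 (T t2497 (L l283 (T t3880 (K a147 (M a99 (L l169 (L l499 (F (T t439 (L l283 (L l289 (L l295 (L l439 (T t4734 (L l283 (T t3880 (K a151 (M a159 (L l499 (F (T t5246 (L l289 (L l295 (L l439 (T t434 (L l219 (L l283 (T t3880 (K a107 (M a59 (F (T t5247 (L l219 (L l231 (L l237 (L l513 (T t2498 N)))))))) (K a59 (Fr a107 a111 l103 (V t4734)) N))))))))))))) (K a107 (M a59 (L l169 (F (T t5247 (L l231 (L l237 (L l513 (T t2498 (K a151 (M a159 (F (T t5247 (L l219 (L l231 (L l237 (L l513 (T t2498 N)))))))) (K a159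 (Fr a151 a55 l493 (V t5248)) N)))))))))) (K a59 (Fr a107 a111 l103 (V t4734)) (K a159 (Fr a151 a55 l493 (V t2497)) N)))))))))))))))) (K a99 (M a147 (L l499 (F (T t4159 (L l283 (T t3682 (K a107 (M a59 (F (T t5248 (L l231 (L l237 (L l513 (T t2498 N))))))) (K a59 (M a107 (F (T t4159 (L l283 (L l427 (T t3682 N)))))) N)))))))) (K a107 (M a59 (L l487 (F (T t5247 (L l231 (L l237 (L l513 (T t2498 (K a147 (M a99 (L l169 (F (T t5247 (L l231 (L l237 (L l513 (T t2498 (K a151 (M a159 (F (T t5247 (L l219 (L l231 (L l237 (L l513 (T t2498 N)))))))) (K a159 (Fr a151 a55 l493 (V t5248)) N)))))))))) (K a99 (M a147 (F (T t5248 (L l231 (L l237 (L l513 (T t2498 N))))))) N)))))))))) (K a59 (M a107 (L l487 (F (T t4159 (L l283 (L l427 (T t3682 (K a147 (Fr a99 a111 l103 (V t4734)) (K a99 (M a147 (F (T t4159 (L l283 (L l427 (T t3682 N)))))) N))))))))) N)))))))))))))))) N)))))))))))))) N))))))))))))))))) (K a199 (M a203 (F (T t1252 (L l487 (L l511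 (T t122 (L l487 (L l511 (T t151 (L l314 (L l487 (L l511 (T t152 (L l487 (L l493 (L l511 (T t153 (K a4 (M a60 (L l314 (F (T t423 (L l307 (L l331 (T t69 (T t448 (K a69 (M a134 (F (T t570 (L l307 (L l329 (L l331 (T t69 (T t448 N)))))))) (K a134 (M a69 (F (T t835 (L l50 (L l307 (L l331 (T t68 (T t448 N)))))))) N)))))))))) (K a8 (M a60 (F (T t423 (L l56 (L l307 (L l331 (T t69 (L l52 (L l56 (T t448 N)))))))))) (K a21 (M a72 (F (L l15 (L l347 (T t5250 (L l50 (L l314 (L l337 (T t5251 N))))))))) (K a25 (M a72 (F (L l15 (T t5250 (L l314 (L l337 (T t5251 N))))))) (K a29 (M a72 (F (T t5252 (L l314 (L l337 (T t5251 N)))))) (K a38 (M a72 (F (T t5250 (L l50 (L l314 (L l337 (T t5251 N))))))) (K a42 (M a72 (F (T t5250 (L l314 (L l337 (T t5251 N)))))) (K a46 (M a24 (F (T t5253 (L l301 (L l314 (L l518 (T t5254 N))))))) (K a51 (M a72 (L l487 (L l511 (F (T t5255 (L l314 (L l337 (T t5251 (K a147 (M a99 (L l511 (F (T t5255 (L l314 (L l337 (T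 t5251 (K a103 (M a155 (L l493 (F (T t5250 (L l314 (L l337 (T t5251 (K a151 (M a55 (F (T t4695 (L l163 (L l271 (L l301 (L l415 (T t5256 N)))))))) (K a55 (M a151 (F (L l495 (T t5255 (L l50 (L l314 (L l337 (T t5251 N)))))))) N))))))))) (K a155 (M a103 (L l169 (F (T t5250 (L l314 (L l337 (T t5251 (K a151 (M a159 (F (T t5257 (L l314 (L l337 (T t5251 N)))))) (K a159 (M a151 (F (T t5257 (L l314 (L l337 (T t5251 N)))))) N))))))))) N))))))))) (K a99 (M a147 (L l511 (F (T t5255 (L l314 (L l337 (T t5251 (K a103 (M a155 (L l103 (L l493 (F (T t5255 (L l314 (L l337 (T t5251 (K a151 (M a55 (L l103 (F (T t5249 (L l163 (L l271 (L l301 (L l415 (T t5256 (K a107 (M a111 (F (T t4695 (L l131 (L l163 (L l271 (L l301 (L l415 (T t5256 N))))))))) (K a111 (Fr a107 a59 l499 (V t5249)) N))))))))))) (K a55 (Fr a151 a159 l169 (V t5258)) (K a107 (M a111 (L l493 (F (L l98 (T t5252 (L l131 (L l314 (L l337 (T t5251 (K a151 (M a55 (F (T t4695 (L l131 (L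 l163 (L l271 (L l301 (L l415 (T t5256 N))))))))) (K a55 (Fr a151 a159 l169 (V t5259)) N))))))))))) (K a111 (Fr a107 a59 l499 (V t5256)) N)))))))))))) (K a155 (M a103 (F (T t5255 (L l314 (L l337 (T t5251 N)))))) N))))))))) (K a103 (M a155 (L l487 (L l493 (F (T t5250 (L l314 (L l337 (T t5251 (K a147 (M a99 (L l493 (F (T t5250 (L l314 (L l337 (T t5251 (K a151 (M a55 (F (T t4695 (L l163 (L l271 (L l301 (L l415 (T t5256 N)))))))) (K a55 (M a151 (F (L l495 (T t5255 (L l50 (L l314 (L l337 (T t5251 N)))))))) N))))))))) (K a99 (M a147 (L l103 (L l493 (F (T t5255 (L l314 (L l337 (T t5251 (K a151 (M a55 (L l103 (F (T t5249 (L l163 (L l271 (L l301 (L l415 (T t5256 (K a107 (M a111 (F (T t4695 (L l131 (L l163 (L l271 (L l301 (L l415 (T t5256 N))))))))) (K a111 (Fr a107 a59 l499 (V t5249)) N))))))))))) (K a55 (Fr a151 a159 l169 (V t5258)) (K a107 (M a111 (L l493 (F (L l98 (T t5252 (L l131 (L l314 (L l337 (T t5251 (K a151 (M a55 (F (T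 t4695 (L l131 (L l163 (L l271 (L l301 (L l415 (T t5256 N))))))))) (K a55 (Fr a151 a159 l169 (V t5259)) N))))))))))) (K a111 (Fr a107 a59 l499 (V t5256)) N)))))))))))) (K a151 (M a55 (L l487 (F (T t5249 (L l163 (L l271 (L l301 (L l415 (T t5256 (K a147 (M a99 (F (T t4695 (L l163 (L l271 (L l301 (L l415 (T t5256 N)))))))) (K a99 (M a147 (L l103 (F (T t5249 (L l163 (L l271 (L l301 (L l415 (T t5256 (K a107 (M a111 (F (T t4695 (L l131 (L l163 (L l271 (L l301 (L l415 (T t5256 N))))))))) (K a111 (Fr a107 a59 l499 (V t5249)) N))))))))))) N))))))))))) (K a55 (M a151 (L l487 (F (L l495 (T t5255 (L l50 (L l314 (L l337 (T t5251 (K a147 (M a99 (F (L l495 (T t5255 (L l50 (L l314 (L l337 (T t5251 N)))))))) (K a99 (Fr a147 a159 l169 (V t5258)) N))))))))))) N)))))))))))) (K a155 (M a103 (L l487 (F (T t5255 (L l314 (L l337 (T t5251 (K a147 (M a99 (L l169 (F (T t5250 (L l314 (L l337 (T t5251 (K a151 (M a159 (F (T t5257 (L l314 (L l337 (T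 t5251 N)))))) (K a159 (M a151 (F (T t5257 (L l314 (L l337 (T t5251 N)))))) N))))))))) (K a99 (M a147 (F (T t5255 (L l314 (L l337 (T t5251 N)))))) N))))))))) N)))))))))))) N)))))))))))))))))))))))))) (K a203 (M a199 (F (T t150 (L l487 (L l511 (T t122 (L l487 (L l511 (T t151 (L l487 (L l499 (L l511 (T t152 (L l320 (L l487 (L l511 (T t153 (K a4 (M a60 (F (T t423 (L l307 (L l331 (T t69 (T t448 N))))))) (K a8 (M a60 (L l320 (F (T t423 (L l56 (L l307 (L l331 (T t69 (L l52 (L l56 (T t448 (K a73 (M a138 (F (T t835 (L l307 (L l331 (T t67 (L l52 (L l56 (T t448 N))))))))) (K a138 (M a73 (F (T t116 (L l325 (L l337 (T t398 (T t1096 N))))))) N))))))))))))) (K a21 (M a68 (F (T t162 (L l320 (L l331 (T t5260 N)))))) (K a25 (M a68 (F (T t162 (L l56 (L l320 (L l331 (T t5260 N))))))) (K a29 (M a20 (F (T t1268 (L l295 (L l320 (L l512 (T t5261 N))))))) (K a38 (M a132 (F (L l26 (T t5262 (L l320 (L l337 (T t5263 N))))))) (K a42 (M a132 (F (L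 l26 (L l390 (T t5264 (L l56 (L l320 (L l337 (T t5263 N))))))))) (K a46 (M a132 (F (T t5265 (L l320 (L l337 (T t5263 N)))))) (K a51 (M a68 (L l487 (L l511 (F (T t162 (L l320 (L l331 (T t5260 (K a147 (M a99 (L l511 (F (T t162 (L l320 (L l331 (T t5260 (K a103 (M a155 (F (T t162 (L l125 (L l320 (L l331 (T t5260 N))))))) (K a155 (M a103 (L l169 (L l499 (F (T t162 (L l320 (L l331 (T t5260 (K a151 (M a159 (L l499 (F (T t2173 (L l320 (L l331 (T t5260 (K a107 (M a59 (F (T t5248 (L l289 (L l295 (L l439 (T t767 N))))))) (K a59 (Fr a107 a111 l103 (V t5266)) N))))))))) (K a107 (M a59 (L l169 (F (T t5247 (L l289 (L l295 (L l439 (T t2245 (K a151 (M a159 (F (T t5248 (L l289 (L l295 (L l439 (T t767 N))))))) (K a159 (Fr a151 a55 l493 (V t5247)) N)))))))))) (K a59 (Fr a107 a111 l103 (V t2174)) (K a159 (Fr a151 a55 l493 (V t5267)) N)))))))))))) N))))))))) (K a99 (M a147 (L l511 (F (T t162 (L l320 (L l331 (T t5260 (K a103 (M a155 (L l103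 (F (T t2173 (L l125 (L l320 (L l331 (T t5260 (K a107 (M a111 (F (T t162 (L l125 (L l320 (L l331 (T t5260 N))))))) (K a111 (M a107 (F (L l99 (T t162 (L l125 (L l320 (L l331 (T t5260 N)))))))) N)))))))))) (K a155 (M a103 (L l499 (F (T t162 (L l320 (L l331 (T t5260 (K a107 (M a59 (F (T t5247 (L l289 (L l295 (L l439 (T t767 N))))))) (K a59 (M a107 (F (T t162 (L l56 (L l320 (L l331 (T t5260 N))))))) N))))))))) N))))))))) (K a103 (M a155 (L l487 (F (T t162 (L l125 (L l320 (L l331 (T t5260 (K a147 (M a99 (F (T t162 (L l125 (L l320 (L l331 (T t5260 N))))))) (K a99 (M a147 (L l103 (F (T t2173 (L l125 (L l320 (L l331 (T t5260 (K a107 (M a111 (F (T t162 (L l125 (L l320 (L l331 (T t5260 N))))))) (K a111 (M a107 (F (L l99 (T t162 (L l125 (L l320 (L l331 (T t5260 N)))))))) N)))))))))) N)))))))))) (K a155 (M a103 (L l487 (L l499 (F (T t2173 (L l320 (L l331 (T t5260 (K a147 (M a99 (L l169 (L l499 (F (T t162 (L l320 (L l331 (T t5260 (K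 a151 (M a159 (L l499 (F (T t2173 (L l320 (L l331 (T t5260 (K a107 (M a59 (F (T t5248 (L l289 (L l295 (L l439 (T t767 N))))))) (K a59 (Fr a107 a111 l103 (V t5266)) N))))))))) (K a107 (M a59 (L l169 (F (T t5247 (L l289 (L l295 (L l439 (T t2245 (K a151 (M a159 (F (T t5248 (L l289 (L l295 (L l439 (T t767 N))))))) (K a159 (Fr a151 a55 l493 (V t5247)) N)))))))))) (K a59 (Fr a107 a111 l103 (V t2174)) (K a159 (Fr a151 a55 l493 (V t5267)) N)))))))))))) (K a99 (M a147 (L l499 (F (T t162 (L l320 (L l331 (T t5260 (K a107 (M a59 (F (T t5247 (L l289 (L l295 (L l439 (T t767 N))))))) (K a59 (M a107 (F (T t162 (L l56 (L l320 (L l331 (T t5260 N))))))) N))))))))) (K a107 (M a59 (L l487 (F (T t5248 (L l289 (L l295 (L l439 (T t2245 (K a147 (M a99 (L l169 (F (T t5247 (L l289 (L l295 (L l439 (T t2245 (K a151 (M a159 (F (T t5248 (L l289 (L l295 (L l439 (T t767 N))))))) (K a159 (Fr a151 a55 l493 (V t5247)) N)))))))))) (K a99 (M a147 (F (T t5247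 (L l289 (L l295 (L l439 (T t767 N))))))) N)))))))))) (K a59 (M a107 (L l487 (F (T t162 (L l56 (L l320 (L l331 (T t5260 (K a147 (Fr a99 a111 l103 (V t2174)) (K a99 (M a147 (F (T t162 (L l56 (L l320 (L l331 (T t5260 N))))))) N)))))))))) N)))))))))))) N)))))))))))) N)))))))))))))))))))))))))) N)))))))))))))))))))))))))))⟩
def e0_63__195_70 : Ent 4 := ⟨[a0, a63], [a195, a212], (M a48 (F (T t48 (L l337 (T t1 (L l337 (T t2 (L l337 (T t3 (L l337 (T t0 (K a16 (M a60 (F (T t138 (L l14 (L l18 (L l307 (L l346 (T t67 (L l351 (T t65 N)))))))))) (K a32 (M a60 (F (T t236 (L l307 (L l346 (T t67 (L l24 (L l28 (L l351 (T t65 N)))))))))) (K a21 (M a192 (F (T t54 (L l273 (T t27 (L l47 (L l347 (L l351 (T t29 N))))))))) (K a37 (M a192 (F (T t54 (L l273 (T t27 (L l295 (L l351 (T t21 N)))))))) (K a53 (M a192 (F (T t55 (L l295 (L l351 (L l491 (T t21 (L l239 (T t31 N))))))))) (K a26 (M a192 (F (T t1922 (L l235 (L l351 (T t20 (L l295 (L l351 (T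 t21 N))))))))) (K a42 (M a192 (F (T t36 (L l235 (L l351 (T t20 (L l28 (L l351 (T t29 N))))))))) (K a58 (M a192 (F (T t1922 (L l295 (L l351 (T t21 (L l54 (L l239 (L l498 (T t31 N)))))))))) (K a15 (M a192 (L l337 (F (T t1800 (L l273 (L l483 (T t27 (L l235 (L l325 (L l351 (T t20 (K a135 (M a75 (F (T t1800 (L l235 (L l325 (T t22 (L l242 (L l273 (L l483 (T t28 N)))))))))) (K a75 (M a135 (F (T t1800 (L l235 (L l325 (T t22 (L l242 (L l273 (L l483 (T t28 N)))))))))) N))))))))))))) N))))))))))))))))))))⟩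
def e0_63__195_71 : Ent 4 := ⟨[a0, a63], [a195, a213], (M a48 (F (T t132 (L l337 (L l347 (T t1 (L l337 (T t2 (L l337 (L l347 (T t3 (L l337 (T t0 (K a16 (M a60 (F (T t138 (L l14 (L l18 (L l307 (L l347 (T t67 (T t65 N))))))))) (K a32 (M a60 (F (T t236 (L l307 (L l347 (T t67 (L l24 (L l28 (T t65 N))))))))) (K a21 (M a85 (F (T t1243 (L l47 (L l246 (T t100 (L l273 (T t50 N)))))))) (K a37 (M a192 (F (T t54 (L l273 (T t27 (L l295 (L l347 (T t21 N)))))))) (K a53 (M a192 (F (T t55 (L l295 (L l347 (L l491 (T t21 (L l347 (L l491 (T t575 N)))))))))) (K a26 (M a192 (F (T t1922 (L l235 (L l347 (T t20 (L l295 (L l347 (T t21 N))))))))) (K a42 (M a192 (F (T t36 (L l235 (L l347 (T t20 (L l28 (L l246 (L l347 (T t29 N)))))))))) (K a58 (M a192 (F (T t55 (L l295 (L l347 (T t21 (L l347 (T t575 N)))))))) (K a15 (M a192 (L l337 (F (T t54 (L l273 (L l483 (T t27 (L l295 (L l347 (L l469 (T t21 (K a135 (M a75 (F (T t54 (L l246 (L l273 (L l483 (T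 t28 (L l295 (L l347 (L l469 (T t21 N))))))))))) (K a75 (M a135 (F (T t54 (L l246 (L l273 (L l483 (T t28 (L l295 (L l347 (L l469 (T t21 N))))))))))) N))))))))))))) N))))))))))))))))))))))⟩
def e0_63__195_72 : Ent 4 := ⟨[a0, a63], [a195, a214], (M a192 (L l297 (F (T t47 (L l295 (T t21 (L l294 (L l295 (T t35 (L l295 (T t202 (L l239 (L l295 (T t37 (K a64 (M a48 (L l297 (F (T t56 (L l337 (T t1 (L l116 (L l144 (L l239 (T t31 (K a252 (M a233 (F (T t610 (L l116 (L l144 (L l235 (L l291 (T t22 (L l294 (T t525 N)))))))))) (K a233 (M a252 (F (T t610 (L l76 (L l307 (T t5268 N)))))) N)))))))))))) (K a128 (M a48 (L l297 (F (T t54 (L l337 (T t1 (L l239 (T t31 (K a252 (M a233 (F (T t610 (L l235 (L l291 (T t22 (L l192 (L l220 (L l294 (T t525 N)))))))))) (K a233 (M a252 (F (T t54 (L l237 (L l257 (T t801 N)))))) N)))))))))) (K a21 (M a252 (F (T t5269 (L l239 (L l518 (T t5270 (L l347 (T t5271 N)))))))) (K a85 (M a252 (F (T t5272 (L l307 (L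 l347 (T t5268 (L l87 (L l144 (T t5273 N))))))))) (K a149 (M a48 (L l297 (F (T t1922 (L l337 (L l347 (L l491 (T t1 (L l170 (L l220 (L l337 (L l347 (L l491 (T t213 (L l337 (L l375 (T t214 (K a252 (M a233 (F (T t132 (L l262 (L l273 (T t837 (L l170 (L l220 (L l337 (L l347 (L l471 (L l491 (T t213 (L l337 (L l375 (L l471 (T t214 N))))))))))))))))) (K a233 (M a252 (F (T t132 (L l518 (T t5274 N))))) N))))))))))))))))))) (K a42 (M a252 (F (T t5275 (L l307 (T t5268 (T t5271 N)))))) (K a106 (M a48 (L l297 (F (T t48 (L l273 (T t27 (L l337 (L l411 (T t213 (L l104 (L l144 (L l337 (L l390 (L l498 (T t214 (K a252 (M a233 (F (T t55 (L l337 (L l390 (L l471 (T t0 (L l337 (L l411 (L l471 (T t213 (L l104 (L l144 (L l337 (L l390 (L l471 (L l498 (T t214 N)))))))))))))))))) (K a233 (M a252 (F (T t48 (L l144 (L l518 (T t5274 N)))))) N))))))))))))))))) (K a170 (M a252 (F (L l518 (T t5274 (L l307 (L l390 (T t5276 (L l174 (L l220 (T t5271 N))))))))))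 (K a255 (M a252 (L l295 (F (T t5277 (L l434 (L l518 (T t5278 (L l475 (T t5271 (K a215 (M a235 (L l239 (F (T t5272 (L l307 (L l475 (T t5279 (L l349 (L l475 (T t5271 (K a212 (M a213 (F (T t5280 (L l346 (L l475 (T t5273 (L l346 (L l434 (L l518 (T t5281 (L l346 (L l350 (L l475 (T t5282 N)))))))))))))) (K a213 (Fr a212 a232 l292 (V t5283)) N)))))))))))) (K a235 (M a215 (F (T t5284 (L l307 (L l475 (T t5279 (L l475 (T t5271 N)))))))) N))))))))))) (K a252 (M a233 (F (T t47 (L l295 (L l477 (T t5285 (L l261 (L l518 (T t5286 (L l261 (L l295 (T t21 (L l261 (L l295 (T t202 (K a21 (M a48 (F (T t1922 (L l235 (L l291 (T t22 (L l47 (L l347 (T t29 N))))))))) (K a85 (M a16 (F (T t504 (L l262 (L l273 (T t210 (L l94 (L l144 (T t211 N))))))))) (K a149 (M a48 (F (T t132 (L l262 (L l273 (T t837 (L l170 (L l220 (L l337 (L l347 (L l471 (L l491 (T t213 (L l337 (L l375 (L l471 (T t214 N))))))))))))))))) (K a42 (M a48 (F (T t36 (L l235 (L l291 (L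 l390 (T t22 (L l28 (T t29 N))))))))) (K a106 (M a48 (F (T t55 (L l337 (L l390 (L l471 (T t0 (L l337 (L l411 (L l471 (T t213 (L l104 (L l144 (L l337 (L l390 (L l471 (L l498 (T t214 N)))))))))))))))))) (K a170 (M a32 (F (T t612 (L l262 (L l273 (T t218 (L l180 (L l220 (T t220 N))))))))) (K a255 (M a208 (L l261 (L l295 (F (T t5287 (L l436 (L l440 (L l488 (T t4068 (T t1822 (K a253 (M a254 (L l295 (F (T t5287 (L l436 (L l440 (L l488 (T t4068 (T t1822 (K a215 (M a235 (L l239 (F (T t5288 (T t5289 (K a212 (M a213 (F (T t5280 (L l436 (L l440 (L l488 (T t4068 N))))))) (K a213 (M a212 (F (T t1820 (L l347 (T t5289 N))))) N))))))) (K a235 (M a215 (F (T t5287 (L l436 (L l440 (L l488 (T t4068 (T t1822 N)))))))) N))))))))))) (K a254 (M a253 (L l294 (L l295 (F (T t1820 (L l239 (T t5290 (K a194 (M a234 (L l295 (F (T t5291 (L l436 (L l440 (L l488 (T t4068 (K a215 (Fr a235 a232 l250 (V t5292)) (K a235 (M a215 (F (T t5291 (L l436 (L l440 (L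 l488 (T t4068 N))))))) N)))))))))) (K a234 (M a194 (L l295 (F (L l256 (T t1820 (L l239 (L l390 (T t5290 (K a215 (M a235 (L l239 (F (L l390 (T t5293 (L l256 (L l436 (L l440 (L l488 (T t4068 (K a212 (Fr a213 a193 l293 (V t5012)) (K a213 (M a212 (F (L l256 (T t1820 (L l349 (L l390 (T t5294 N))))))) N)))))))))))) (K a235 (M a215 (F (L l256 (T t5288 (L l390 (T t5290 N)))))) N)))))))))) (K a215 (M a235 (L l239 (L l294 (F (T t1820 (L l337 (L l469 (L l471 (T t5295 (T t1822 (K a212 (Fr a213 a193 l293 (V t5280)) (K a213 (M a212 (L l294 (F (T t1820 (L l349 (T t5294 (K a194 (Fr a234 a232 l250 (V t5291)) (K a234 (M a194 (F (L l256 (T t1820 (L l349 (L l390 (T t5294 N))))))) N)))))))) (K a194 (Fr a234 a232 l250 (V t5292)) (K a234 (M a194 (L l239 (F (L l390 (T t5293 (L l256 (L l436 (L l440 (L l488 (T t4068 (K a212 (Fr a213 a193 l293 (V t5012)) (K a213 (M a212 (F (L l256 (T t1820 (L l349 (L l390 (T t5294 N))))))) N)))))))))))) N))))))))))))))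 (K a235 (M a215 (L l294 (F (T t1820 (T t5290 (K a194 (M a234 (F (T t5291 (L l436 (L l440 (L l488 (T t4068 N))))))) (K a234 (M a194 (F (L l256 (T t5288 (L l390 (T t5290 N)))))) N))))))) N))))))))))) (K a215 (M a235 (L l239 (L l261 (F (T t1820 (L l294 (T t5289 (K a212 (M a213 (L l261 (F (T t5012 (L l436 (L l440 (L l488 (T t4068 (K a253 (M a254 (F (T t5280 (L l436 (L l440 (L l488 (T t4068 N))))))) (K a254 (Fr a253 a193 l293 (V t5280)) N)))))))))) (K a213 (M a212 (L l261 (F (T t1820 (L l294 (L l347 (T t5289 (K a253 (M a254 (F (T t1820 (L l347 (T t5289 N))))) (K a254 (M a253 (L l294 (F (T t1820 (L l349 (T t5294 (K a194 (Fr a234 a232 l250 (V t5291)) (K a234 (M a194 (F (L l256 (T t1820 (L l349 (L l390 (T t5294 N))))))) N)))))))) N))))))))) (K a253 (M a254 (L l239 (F (T t5288 (T t5289 (K a212 (M a213 (F (T t5280 (L l436 (L l440 (L l488 (T t4068 N))))))) (K a213 (M a212 (F (T t1820 (L l347 (T t5289 N))))) N))))))) (K a254 (M a253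 (L l239 (L l294 (F (T t1820 (L l337 (L l469 (L l471 (T t5295 (T t1822 (K a212 (Fr a213 a193 l293 (V t5280)) (K a213 (M a212 (L l294 (F (T t1820 (L l349 (T t5294 (K a194 (Fr a234 a232 l250 (V t5291)) (K a234 (M a194 (F (L l256 (T t1820 (L l349 (L l390 (T t5294 N))))))) N)))))))) (K a194 (Fr a234 a232 l250 (V t5292)) (K a234 (M a194 (L l239 (F (L l390 (T t5293 (L l256 (L l436 (L l440 (L l488 (T t4068 (K a212 (Fr a213 a193 l293 (V t5012)) (K a213 (M a212 (F (L l256 (T t1820 (L l349 (L l390 (T t5294 N))))))) N)))))))))))) N)))))))))))))) N))))))))))) (K a235 (M a215 (L l261 (F (T t5287 (L l436 (L l440 (L l488 (T t4068 (T t1822 (K a253 (M a254 (F (T t5287 (L l436 (L l440 (L l488 (T t4068 (T t1822 N)))))))) (K a254 (M a253 (L l294 (F (T t1820 (T t5290 (K a194 (M a234 (F (T t5291 (L l436 (L l440 (L l488 (T t4068 N))))))) (K a234 (M a194 (F (L l256 (T t5288 (L l390 (T t5290 N)))))) N))))))) N))))))))))) N)))))))))))))) N))))))))))))))))))))))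 (K a233 (M a252 (F (T t1800 (L l518 (T t5296 (L l307 (T t5268 N))))))) N)))))))))))))))))))))))))⟩
def e0_63__195_73 : Ent 4 := ⟨[a0, a63], [a195, a215], (M a255 (F (T t5297 (L l228 (L l239 (T t2142 (L l228 (T t1165 (L l228 (L l350 (T t2138 (L l228 (L l350 (T t2139 (K a192 (M a16 (L l228 (F (T t112 (L l235 (L l236 (L l245 (T t3574 (T t3575 (K a193 (M a194 (F (T t112 (L l235 (L l236 (L l245 (T t3574 (T t3575 N)))))))) (K a194 (M a193 (F (T t112 (L l235 (L l236 (L l245 (T t3574 (T t3575 N)))))))) N))))))))))) (K a21 (M a48 (F (T t3576 (L l273 (T t1160 (L l47 (L l245 (T t548 N)))))))) (K a85 (M a60 (L l350 (F (T t1639 (L l307 (L l349 (T t43 (L l141 (L l144 (L l297 (L l307 (L l347 (T t5298 (L l307 (L l349 (L l473 (T t5299 (K a20 (M a150 (F (T t1639 (L l11 (L l228 (L l347 (T t5300 (L l141 (L l144 (L l349 (T t5301 N))))))))))) (K a150 (Fr a20 a40 l64 (V t5302)) N))))))))))))))))))) (K a149 (M a16 (F (T t112 (L l220 (L l235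 (L l245 (T t3574 (L l170 (L l220 (T t3575 N)))))))))) (K a42 (M a48 (F (T t557 (L l235 (L l350 (T t547 (L l28 (L l245 (L l390 (T t548 N)))))))))) (K a106 (M a32 (F (T t820 (L l144 (L l235 (L l350 (T t3583 (L l104 (L l144 (L l350 (T t3584 N))))))))))) (K a170 (M a48 (F (T t557 (L l337 (L l390 (T t2 (L l337 (L l462 (T t3585 (L l206 (L l220 (L l337 (L l390 (L l404 (T t3586 N))))))))))))))) (K a127 (M a16 (F (T t112 (L l235 (L l245 (T t3574 (L l137 (T t3575 N)))))))) (K a191 (M a16 (F (T t112 (L l220 (L l235 (L l245 (T t3574 (L l220 (T t3575 N))))))))) N)))))))))))))))))))))))⟩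
def e0_63__195_74 : Ent 4 := ⟨[a0, a63], [a195, a216], (M a48 (F (T t48 (L l337 (T t1 (L l337 (T t2 (L l337 (T t3 (L l337 (T t0 (K a16 (M a60 (F (T t138 (L l14 (L l18 (L l307 (T t67 (T t65 N)))))))) (K a32 (M a60 (F (T t138 (L l307 (T t67 (L l24 (L l28 (T t65 N)))))))) (K a21 (M a192 (F (T t54 (L l273 (L l298 (T t27 (L l47 (L l347 (T t29 N))))))))) (K a37 (M a192 (F (T t53 (L l273 (L l298 (T t27 (L l295 (T t21 N)))))))) (K a53 (M a192 (F (T t1681 (L l273 (L l298 (T t27 (T t31 N))))))) (K a26 (M a192 (F (T t56 (L l273 (L l298 (T t27 (L l295 (T t21 N)))))))) (K a42 (M a192 (F (T t56 (L l273 (L l298 (T t27 (L l28 (T t29 N)))))))) (K a58 (M a192 (F (T t57 (L l273 (L l298 (T t27 (L l54 (L l498 (T t31 N))))))))) (K a15 (M a192 (L l337 (F (T t1681 (L l273 (L l298 (L l483 (T t27 (L l235 (L l325 (T t20 (K a135 (M a75 (F (T t1800 (L l235 (L l325 (T t22 (L l242 (L l273 (L l298 (L l483 (T t28 N))))))))))) (K a75 (M a135 (F (T t1800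 (L l235 (L l325 (T t22 (L l242 (L l273 (L l298 (L l483 (T t28 N))))))))))) N))))))))))))) N))))))))))))))))))))⟩
def e0_63__195_75 : Ent 4 := ⟨[a0, a63], [a195, a217], (M a48 (F (T t48 (L l337 (T t1 (L l337 (T t2 (L l337 (T t3 (L l337 (T t0 (K a16 (M a60 (F (T t138 (L l14 (L l18 (L l307 (T t67 (T t65 N)))))))) (K a32 (M a60 (F (T t138 (L l307 (T t67 (L l24 (L l28 (T t65 N)))))))) (K a21 (M a192 (F (T t54 (L l273 (T t27 (L l47 (L l347 (T t29 N)))))))) (K a37 (M a192 (F (T t54 (L l273 (T t27 (L l295 (T t21 N))))))) (K a53 (M a192 (F (T t55 (L l295 (L l491 (T t21 (L l243 (T t31 N)))))))) (K a26 (M a192 (F (T t56 (L l273 (T t27 (L l295 (T t21 N))))))) (K a42 (M a192 (F (T t56 (L l273 (T t27 (L l28 (T t29 N))))))) (K a58 (M a192 (F (T t47 (L l273 (T t27 (L l54 (L l243 (L l498 (T t31 N))))))))) (K a15 (M a192 (L l337 (F (T t47 (L l273 (L l483 (T t27 (L l235 (L l325 (T t20 (K a135 (M a75 (F (T t1800 (L l235 (L l325 (T t22 (L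 l273 (L l483 (T t28 N))))))))) (K a75 (M a135 (F (T t1800 (L l235 (L l325 (T t22 (L l273 (L l483 (T t28 N))))))))) N)))))))))))) N))))))))))))))))))))⟩
def e0_63__195_76 : Ent 4 := ⟨[a0, a63], [a195, a219], (M a12 (F (T t150 (L l487 (T t122 (L l487 (T t151 (L l487 (T t152 (L l487 (T t153 (K a4 (M a60 (F (T t570 (L l46 (L l50 (L l307 (T t67 (T t448 N)))))))) (K a8 (M a60 (F (T t570 (L l307 (T t67 (L l52 (L l56 (T t448 N)))))))) (K a21 (M a192 (F (T t2119 (L l15 (L l271 (L l301 (L l347 (T t450 (L l15 (L l347 (T t157 N))))))))))) (K a25 (M a192 (F (T t158 (L l237 (T t156 (L l295 (T t21 N))))))) (K a29 (M a192 (F (T t159 (L l295 (L l371 (T t21 (T t160 N))))))) (K a38 (M a192 (F (T t161 (L l237 (T t156 (L l295 (T t21 N))))))) (K a42 (M a192 (F (T t161 (L l237 (T t156 (L l56 (T t157 N))))))) (K a46 (M a192 (F (T t57 (L l237 (T t156 (L l26 (L l408 (T t160 N)))))))) (K a51 (M a170 (L l487 (F (T t439 (L l295 (L l439 (T t3685 (L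 l283 (T t3880 (K a147 (M a99 (F (T t4159 (L l283 (T t3682 N))))) (K a99 (M a147 (F (T t4159 (L l283 (T t3682 N))))) N))))))))))) N))))))))))))))))))))⟩
def e0_63__195_77 : Ent 4 := ⟨[a0, a63], [a195, a220], (M a12 (F (T t150 (L l487 (T t122 (L l487 (T t151 (L l487 (T t152 (L l487 (T t153 (K a4 (M a60 (F (T t570 (L l46 (L l50 (L l307 (T t67 (T t448 N)))))))) (K a8 (M a60 (F (T t116 (L l337 (T t398 (L l52 (L l56 (T t448 N)))))))) (K a21 (M a192 (F (T t158 (L l237 (L l286 (T t156 (L l15 (L l347 (T t157 N))))))))) (K a25 (M a192 (F (T t158 (L l237 (L l286 (T t156 (L l295 (T t21 N)))))))) (K a29 (M a192 (F (T t159 (L l295 (L l371 (T t21 (T t160 N))))))) (K a38 (M a192 (F (T t161 (L l237 (L l286 (T t156 (L l295 (T t21 N)))))))) (K a42 (M a192 (F (T t161 (L l237 (L l286 (T t156 (L l56 (T t157 N)))))))) (K a46 (M a192 (F (T t57 (L l237 (L l286 (T t156 (L l26 (L l408 (T t160 N))))))))) (K a51 (M a192 (L l487 (F (T t1681 (L l237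 (L l286 (L l513 (T t156 (L l271 (L l415 (T t450 (K a147 (M a99 (F (T t1800 (L l271 (L l415 (T t543 (L l237 (L l286 (L l513 (T t468 N)))))))))) (K a99 (M a147 (F (T t1800 (L l271 (L l415 (T t543 (L l237 (L l286 (L l513 (T t468 N)))))))))) N))))))))))))) N))))))))))))))))))))⟩
def e0_63__195_78 : Ent 4 := ⟨[a0, a63], [a195, a221], (M a48 (F (T t48 (L l337 (T t1 (L l337 (T t2 (L l337 (T t3 (L l337 (T t0 (K a16 (M a60 (F (T t138 (L l14 (L l18 (L l307 (T t67 (T t65 N)))))))) (K a32 (M a60 (F (T t138 (L l307 (T t67 (L l24 (L l28 (T t65 N)))))))) (K a21 (M a192 (F (T t54 (L l273 (T t27 (L l47 (L l241 (L l347 (T t29 N))))))))) (K a37 (M a192 (F (T t54 (L l273 (T t27 (L l290 (L l295 (T t21 N)))))))) (K a53 (M a192 (F (T t55 (L l290 (L l295 (L l491 (T t21 (L l243 (T t31 N))))))))) (K a26 (M a192 (F (T t56 (L l273 (T t27 (L l290 (L l295 (T t21 N)))))))) (K a42 (M a192 (F (T t56 (L l273 (T t27 (L l28 (L l241 (T t29 N)))))))) (K a58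 (M a192 (F (T t57 (L l273 (T t27 (L l54 (L l243 (L l498 (T t31 N))))))))) (K a15 (M a85 (L l337 (F (T t567 (L l241 (L l243 (T t568 (K a135 (M a75 (F (T t567 (L l241 (L l243 (T t568 N)))))) (K a75 (M a135 (F (T t567 (L l241 (L l243 (T t568 N)))))) N))))))))) N))))))))))))))))))))⟩
def e0_63__195_79 : Ent 4 := ⟨[a0, a63], [a195, a222], (M a48 (F (T t48 (L l337 (T t1 (L l337 (T t2 (L l337 (T t3 (L l337 (T t0 (K a16 (M a60 (F (T t138 (L l14 (L l18 (L l307 (T t67 (T t65 N)))))))) (K a32 (M a60 (F (T t138 (L l307 (T t67 (L l24 (L l28 (T t65 N)))))))) (K a21 (M a192 (F (T t2113 (L l47 (L l235 (L l291 (L l347 (T t20 (L l47 (L l241 (L l347 (T t29 N)))))))))))) (K a37 (M a192 (F (T t54 (L l273 (T t27 (L l295 (T t21 N))))))) (K a53 (M a192 (F (T t55 (L l295 (L l491 (T t21 (T t31 N))))))) (K a26 (M a192 (F (T t56 (L l273 (T t27 (L l295 (T t21 N))))))) (K a42 (M a192 (F (T t56 (L l273 (T t27 (L l28 (L l241 (T t29 N)))))))) (K a58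 (M a192 (F (T t57 (L l273 (T t27 (L l54 (L l498 (T t31 N)))))))) (K a15 (M a85 (L l337 (F (T t567 (L l241 (T t568 (K a135 (M a75 (F (T t89 (L l295 (L l366 (L l469 (T t365 (L l241 (T t100 N))))))))) (K a75 (M a135 (F (T t89 (L l295 (L l366 (L l469 (T t365 (L l241 (T t100 N))))))))) N)))))))) N))))))))))))))))))))⟩
def e0_63__195_80 : Ent 4 := ⟨[a0, a63], [a195, a223], (M a48 (F (T t132 (L l337 (T t1 (L l337 (T t2 (L l337 (L l368 (T t3 (L l337 (L l361 (T t0 (K a16 (M a85 (F (T t4539 (L l273 (T t50 (L l246 (T t51 N))))))) (K a32 (M a60 (F (T t138 (L l307 (T t67 (L l24 (L l28 (T t65 N)))))))) (K a21 (M a192 (F (T t53 (L l273 (T t27 (L l18 (L l289 (L l368 (T t224 N))))))))) (K a37 (M a192 (F (T t53 (L l273 (T t27 (L l289 (L l295 (T t21 N)))))))) (K a53 (M a192 (F (T t1800 (L l273 (T t27 (L l47 (L l491 (T t525 N)))))))) (K a26 (M a192 (F (T t56 (L l273 (T t27 (L l289 (L l295 (T t21 N)))))))) (K a42 (M a192 (F (T t56 (L l273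 (T t27 (L l54 (L l289 (L l368 (L l390 (T t224 N)))))))))) (K a58 (M a192 (F (T t1922 (L l289 (L l295 (T t21 (T t525 N))))))) (K a15 (M a192 (L l337 (F (T t1800 (L l273 (L l483 (T t27 (L l235 (L l289 (L l325 (T t20 (K a135 (M a75 (F (T t33 (L l246 (L l273 (L l483 (T t28 (L l289 (L l295 (L l469 (T t35 N))))))))))) (K a75 (M a135 (F (T t33 (L l246 (L l273 (L l483 (T t28 (L l289 (L l295 (L l469 (T t35 N))))))))))) N))))))))))))) N))))))))))))))))))))))⟩
def e0_63__195_81 : Ent 4 := ⟨[a0, a63], [a195, a252], (M a48 (L l297 (F (T t48 (L l337 (L l471 (T t1 (L l337 (L l471 (T t2 (L l337 (L l471 (T t3 (L l337 (L l471 (T t0 (K a16 (M a60 (L l297 (F (T t138 (L l14 (L l18 (L l307 (L l477 (T t67 (T t65 (K a233 (M a214 (F (T t662 (L l441 (L l487 (T t451 (L l14 (L l18 (T t44 N))))))))) (K a214 (M a233 (F (T t662 (L l441 (L l487 (T t451 (L l14 (L l18 (T t44 N))))))))) N)))))))))))) (K a32 (M a60 (L l297 (F (T t116 (L l441 (L l487 (T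 t64 (L l24 (L l28 (T t65 (K a233 (M a214 (F (T t138 (L l28 (L l307 (L l477 (T t69 (T t44 N)))))))) (K a214 (M a233 (F (T t138 (L l28 (L l307 (L l477 (T t69 (T t44 N)))))))) N)))))))))))) (K a21 (M a192 (L l297 (F (T t54 (L l262 (L l273 (T t27 (L l47 (L l347 (T t29 (K a233 (M a214 (F (T t1922 (L l235 (L l291 (T t22 (L l47 (L l347 (T t29 N))))))))) (K a214 (M a233 (F (T t1922 (L l235 (L l291 (T t22 (L l47 (L l347 (T t29 N))))))))) N)))))))))))) (K a37 (M a192 (L l297 (F (T t54 (L l262 (L l273 (T t27 (L l261 (L l295 (T t21 (K a233 (M a214 (F (T t54 (L l28 (L l262 (L l273 (T t28 (L l47 (L l250 (L l261 (L l295 (T t35 N)))))))))))) (K a214 (M a233 (F (T t54 (L l28 (L l262 (L l273 (T t28 (L l47 (L l261 (L l294 (L l295 (T t35 N)))))))))))) N)))))))))))) (K a53 (M a192 (L l297 (F (T t1681 (L l262 (L l273 (T t27 (T t31 (K a233 (M a214 (F (T t1800 (L l262 (L l273 (T t28 (L l47 (L l250 (L l491 (T t525 N)))))))))) (K a214 (M a233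 (F (T t1800 (L l262 (L l273 (T t28 (L l47 (L l294 (L l491 (T t525 N)))))))))) N)))))))))) (K a26 (M a192 (L l297 (F (T t56 (L l262 (L l273 (T t27 (L l261 (L l295 (T t21 (K a233 (M a214 (F (T t56 (L l18 (L l250 (L l261 (L l295 (T t35 (L l262 (L l273 (T t28 N))))))))))) (K a214 (M a233 (F (T t56 (L l18 (L l261 (L l294 (L l295 (T t35 (L l262 (L l273 (T t28 N))))))))))) N)))))))))))) (K a42 (M a192 (L l297 (F (T t56 (L l262 (L l273 (T t27 (L l28 (T t29 (K a233 (M a214 (F (T t36 (L l235 (L l291 (L l390 (T t22 (L l28 (T t29 N))))))))) (K a214 (M a233 (F (T t36 (L l235 (L l291 (L l390 (T t22 (L l28 (T t29 N))))))))) N))))))))))) (K a58 (M a192 (L l297 (F (T t57 (L l262 (L l273 (T t27 (L l54 (L l498 (T t31 (K a233 (M a214 (F (T t1922 (L l250 (L l261 (L l295 (T t35 (L l250 (T t525 N))))))))) (K a214 (M a233 (F (T t1922 (L l261 (L l294 (L l295 (T t35 (L l294 (T t525 N))))))))) N)))))))))))) (K a15 (M a192 (L l297 (L l337 (L l471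 (F (T t1681 (L l262 (L l273 (L l483 (T t27 (L l235 (L l291 (L l325 (T t20 (K a233 (M a214 (L l337 (L l471 (F (T t1800 (L l235 (L l291 (L l325 (T t22 (L l262 (L l273 (L l483 (T t28 (K a173 (M a94 (L l337 (F (T t1800 (L l235 (L l291 (L l325 (T t22 (L l262 (L l273 (L l483 (T t28 (K a135 (M a75 (F (T t1800 (L l235 (L l291 (L l325 (T t22 (L l262 (L l273 (L l483 (T t28 N))))))))))) (K a75 (M a135 (F (T t1800 (L l235 (L l291 (L l325 (T t22 (L l262 (L l273 (L l483 (T t28 N))))))))))) N)))))))))))))) (K a94 (M a173 (L l337 (F (T t1800 (L l235 (L l291 (L l325 (T t22 (L l262 (L l273 (L l483 (T t28 (K a135 (M a75 (F (T t1800 (L l235 (L l291 (L l325 (T t22 (L l262 (L l273 (L l483 (T t28 N))))))))))) (K a75 (M a135 (F (T t1800 (L l235 (L l291 (L l325 (T t22 (L l262 (L l273 (L l483 (T t28 N))))))))))) N)))))))))))))) (K a135 (M a75 (L l471 (F (T t1800 (L l235 (L l291 (L l325 (T t22 (L l262 (L l273 (L l483 (T t28 (K a173 (M a94 (F (T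 t1800 (L l235 (L l291 (L l325 (T t22 (L l262 (L l273 (L l483 (T t28 N))))))))))) (K a94 (M a173 (F (T t1800 (L l235 (L l291 (L l325 (T t22 (L l262 (L l273 (L l483 (T t28 N))))))))))) N)))))))))))))) (K a75 (M a135 (L l471 (F (T t1800 (L l235 (L l291 (L l325 (T t22 (L l262 (L l273 (L l483 (T t28 (K a173 (M a94 (F (T t1800 (L l235 (L l291 (L l325 (T t22 (L l262 (L l273 (L l483 (T t28 N))))))))))) (K a94 (M a173 (F (T t1800 (L l235 (L l291 (L l325 (T t22 (L l262 (L l273 (L l483 (T t28 N))))))))))) N)))))))))))))) N))))))))))))))))) (K a173 (M a94 (L l297 (L l337 (F (T t47 (L l235 (L l291 (L l325 (T t22 (L l262 (L l273 (L l483 (T t28 (K a233 (M a214 (L l337 (F (T t1800 (L l235 (L l291 (L l325 (T t22 (L l262 (L l273 (L l483 (T t28 (K a135 (M a75 (F (T t1800 (L l235 (L l291 (L l325 (T t22 (L l262 (L l273 (L l483 (T t28 N))))))))))) (K a75 (M a135 (F (T t1800 (L l235 (L l291 (L l325 (T t22 (L l262 (L l273 (L l483 (T t28 N)))))))))))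 N)))))))))))))) (K a214 (M a233 (L l337 (F (T t1800 (L l235 (L l291 (L l325 (T t22 (L l262 (L l273 (L l483 (T t28 (K a135 (M a75 (F (T t1800 (L l235 (L l291 (L l325 (T t22 (L l262 (L l273 (L l483 (T t28 N))))))))))) (K a75 (M a135 (F (T t1800 (L l235 (L l291 (L l325 (T t22 (L l262 (L l273 (L l483 (T t28 N))))))))))) N)))))))))))))) (K a135 (M a75 (L l297 (F (T t47 (L l235 (L l291 (L l325 (T t22 (L l262 (L l273 (L l483 (T t28 (K a233 (M a214 (F (T t1800 (L l235 (L l291 (L l325 (T t22 (L l262 (L l273 (L l483 (T t28 N))))))))))) (K a214 (M a233 (F (T t1800 (L l235 (L l291 (L l325 (T t22 (L l262 (L l273 (L l483 (T t28 N))))))))))) N)))))))))))))) (K a75 (M a135 (L l297 (F (T t47 (L l235 (L l291 (L l325 (T t22 (L l262 (L l273 (L l483 (T t28 (K a233 (M a214 (F (T t1800 (L l235 (L l291 (L l325 (T t22 (L l262 (L l273 (L l483 (T t28 N))))))))))) (K a214 (M a233 (F (T t1800 (L l235 (L l291 (L l325 (T t22 (L l262 (L l273 (L l483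 (T t28 N))))))))))) N)))))))))))))) N))))))))))))))))) (K a214 (M a233 (L l337 (L l471 (F (T t1800 (L l235 (L l291 (L l325 (T t22 (L l262 (L l273 (L l483 (T t28 (K a173 (M a94 (L l337 (F (T t1800 (L l235 (L l291 (L l325 (T t22 (L l262 (L l273 (L l483 (T t28 (K a135 (M a75 (F (T t1800 (L l235 (L l291 (L l325 (T t22 (L l262 (L l273 (L l483 (T t28 N))))))))))) (K a75 (M a135 (F (T t1800 (L l235 (L l291 (L l325 (T t22 (L l262 (L l273 (L l483 (T t28 N))))))))))) N)))))))))))))) (K a94 (M a173 (L l337 (F (T t1800 (L l235 (L l291 (L l325 (T t22 (L l262 (L l273 (L l483 (T t28 (K a135 (M a75 (F (T t1800 (L l235 (L l291 (L l325 (T t22 (L l262 (L l273 (L l483 (T t28 N))))))))))) (K a75 (M a135 (F (T t1800 (L l235 (L l291 (L l325 (T t22 (L l262 (L l273 (L l483 (T t28 N))))))))))) N)))))))))))))) (K a135 (M a75 (L l471 (F (T t1800 (L l235 (L l291 (L l325 (T t22 (L l262 (L l273 (L l483 (T t28 (K a173 (M a94 (F (T t1800 (L l235 (L l291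 (L l325 (T t22 (L l262 (L l273 (L l483 (T t28 N))))))))))) (K a94 (M a173 (F (T t1800 (L l235 (L l291 (L l325 (T t22 (L l262 (L l273 (L l483 (T t28 N))))))))))) N)))))))))))))) (K a75 (M a135 (L l471 (F (T t1800 (L l235 (L l291 (L l325 (T t22 (L l262 (L l273 (L l483 (T t28 (K a173 (M a94 (F (T t1800 (L l235 (L l291 (L l325 (T t22 (L l262 (L l273 (L l483 (T t28 N))))))))))) (K a94 (M a173 (F (T t1800 (L l235 (L l291 (L l325 (T t22 (L l262 (L l273 (L l483 (T t28 N))))))))))) N)))))))))))))) N))))))))))))))))) (K a94 (M a173 (L l297 (L l337 (F (T t47 (L l235 (L l291 (L l325 (T t22 (L l262 (L l273 (L l483 (T t28 (K a233 (M a214 (L l337 (F (T t1800 (L l235 (L l291 (L l325 (T t22 (L l262 (L l273 (L l483 (T t28 (K a135 (M a75 (F (T t1800 (L l235 (L l291 (L l325 (T t22 (L l262 (L l273 (L l483 (T t28 N))))))))))) (K a75 (M a135 (F (T t1800 (L l235 (L l291 (L l325 (T t22 (L l262 (L l273 (L l483 (T t28 N))))))))))) N))))))))))))))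 (K a214 (M a233 (L l337 (F (T t1800 (L l235 (L l291 (L l325 (T t22 (L l262 (L l273 (L l483 (T t28 (K a135 (M a75 (F (T t1800 (L l235 (L l291 (L l325 (T t22 (L l262 (L l273 (L l483 (T t28 N))))))))))) (K a75 (M a135 (F (T t1800 (L l235 (L l291 (L l325 (T t22 (L l262 (L l273 (L l483 (T t28 N))))))))))) N)))))))))))))) (K a135 (M a75 (L l297 (F (T t47 (L l235 (L l291 (L l325 (T t22 (L l262 (L l273 (L l483 (T t28 (K a233 (M a214 (F (T t1800 (L l235 (L l291 (L l325 (T t22 (L l262 (L l273 (L l483 (T t28 N))))))))))) (K a214 (M a233 (F (T t1800 (L l235 (L l291 (L l325 (T t22 (L l262 (L l273 (L l483 (T t28 N))))))))))) N)))))))))))))) (K a75 (M a135 (L l297 (F (T t47 (L l235 (L l291 (L l325 (T t22 (L l262 (L l273 (L l483 (T t28 (K a233 (M a214 (F (T t1800 (L l235 (L l291 (L l325 (T t22 (L l262 (L l273 (L l483 (T t28 N))))))))))) (K a214 (M a233 (F (T t1800 (L l235 (L l291 (L l325 (T t22 (L l262 (L l273 (L l483 (T t28 N)))))))))))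 N)))))))))))))) N))))))))))))))))) (K a135 (M a75 (L l297 (L l471 (F (T t47 (L l235 (L l291 (L l325 (T t22 (L l262 (L l273 (L l483 (T t28 (K a233 (M a214 (L l471 (F (T t1800 (L l235 (L l291 (L l325 (T t22 (L l262 (L l273 (L l483 (T t28 (K a173 (M a94 (F (T t1800 (L l235 (L l291 (L l325 (T t22 (L l262 (L l273 (L l483 (T t28 N))))))))))) (K a94 (M a173 (F (T t1800 (L l235 (L l291 (L l325 (T t22 (L l262 (L l273 (L l483 (T t28 N))))))))))) N)))))))))))))) (K a173 (M a94 (L l297 (F (T t47 (L l235 (L l291 (L l325 (T t22 (L l262 (L l273 (L l483 (T t28 (K a233 (M a214 (F (T t1800 (L l235 (L l291 (L l325 (T t22 (L l262 (L l273 (L l483 (T t28 N))))))))))) (K a214 (M a233 (F (T t1800 (L l235 (L l291 (L l325 (T t22 (L l262 (L l273 (L l483 (T t28 N))))))))))) N)))))))))))))) (K a214 (M a233 (L l471 (F (T t1800 (L l235 (L l291 (L l325 (T t22 (L l262 (L l273 (L l483 (T t28 (K a173 (M a94 (F (T t1800 (L l235 (L l291 (L l325 (T t22 (L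 l262 (L l273 (L l483 (T t28 N))))))))))) (K a94 (M a173 (F (T t1800 (L l235 (L l291 (L l325 (T t22 (L l262 (L l273 (L l483 (T t28 N))))))))))) N)))))))))))))) (K a94 (M a173 (L l297 (F (T t47 (L l235 (L l291 (L l325 (T t22 (L l262 (L l273 (L l483 (T t28 (K a233 (M a214 (F (T t1800 (L l235 (L l291 (L l325 (T t22 (L l262 (L l273 (L l483 (T t28 N))))))))))) (K a214 (M a233 (F (T t1800 (L l235 (L l291 (L l325 (T t22 (L l262 (L l273 (L l483 (T t28 N))))))))))) N)))))))))))))) N))))))))))))))))) (K a75 (M a135 (L l297 (L l471 (F (T t47 (L l235 (L l291 (L l325 (T t22 (L l262 (L l273 (L l483 (T t28 (K a233 (M a214 (L l471 (F (T t1800 (L l235 (L l291 (L l325 (T t22 (L l262 (L l273 (L l483 (T t28 (K a173 (M a94 (F (T t1800 (L l235 (L l291 (L l325 (T t22 (L l262 (L l273 (L l483 (T t28 N))))))))))) (K a94 (M a173 (F (T t1800 (L l235 (L l291 (L l325 (T t22 (L l262 (L l273 (L l483 (T t28 N))))))))))) N)))))))))))))) (K a173 (M a94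 (L l297 (F (T t47 (L l235 (L l291 (L l325 (T t22 (L l262 (L l273 (L l483 (T t28 (K a233 (M a214 (F (T t1800 (L l235 (L l291 (L l325 (T t22 (L l262 (L l273 (L l483 (T t28 N))))))))))) (K a214 (M a233 (F (T t1800 (L l235 (L l291 (L l325 (T t22 (L l262 (L l273 (L l483 (T t28 N))))))))))) N)))))))))))))) (K a214 (M a233 (L l471 (F (T t1800 (L l235 (L l291 (L l325 (T t22 (L l262 (L l273 (L l483 (T t28 (K a173 (M a94 (F (T t1800 (L l235 (L l291 (L l325 (T t22 (L l262 (L l273 (L l483 (T t28 N))))))))))) (K a94 (M a173 (F (T t1800 (L l235 (L l291 (L l325 (T t22 (L l262 (L l273 (L l483 (T t28 N))))))))))) N)))))))))))))) (K a94 (M a173 (L l297 (F (T t47 (L l235 (L l291 (L l325 (T t22 (L l262 (L l273 (L l483 (T t28 (K a233 (M a214 (F (T t1800 (L l235 (L l291 (L l325 (T t22 (L l262 (L l273 (L l483 (T t28 N))))))))))) (K a214 (M a233 (F (T t1800 (L l235 (L l291 (L l325 (T t22 (L l262 (L l273 (L l483 (T t28 N))))))))))) N))))))))))))))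 N))))))))))))))))) N)))))))))))))))))))) (K a233 (M a214 (F (T t48 (L l337 (L l471 (T t1 (L l337 (L l471 (T t2 (L l337 (L l471 (T t3 (L l337 (L l471 (T t0 (K a16 (M a60 (F (T t662 (L l441 (L l487 (T t451 (L l14 (L l18 (T t44 N))))))))) (K a32 (M a60 (F (T t138 (L l28 (L l307 (L l477 (T t69 (T t44 N)))))))) (K a21 (M a192 (F (T t1922 (L l235 (L l291 (T t22 (L l47 (L l347 (T t29 N))))))))) (K a37 (M a192 (F (T t54 (L l28 (L l262 (L l273 (T t28 (L l47 (L l250 (L l261 (L l295 (T t35 N)))))))))))) (K a53 (M a192 (F (T t1800 (L l262 (L l273 (T t28 (L l47 (L l250 (L l491 (T t525 N)))))))))) (K a26 (M a192 (F (T t56 (L l18 (L l250 (L l261 (L l295 (T t35 (L l262 (L l273 (T t28 N))))))))))) (K a42 (M a192 (F (T t36 (L l235 (L l291 (L l390 (T t22 (L l28 (T t29 N))))))))) (K a58 (M a192 (F (T t1922 (L l250 (L l261 (L l295 (T t35 (L l250 (T t525 N))))))))) (K a15 (M a192 (L l337 (L l471 (F (T t1800 (L l235 (L l291 (L l325 (T t22 (L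 l262 (L l273 (L l483 (T t28 (K a173 (M a94 (L l337 (F (T t1800 (L l235 (L l291 (L l325 (T t22 (L l262 (L l273 (L l483 (T t28 (K a135 (M a75 (F (T t1800 (L l235 (L l291 (L l325 (T t22 (L l262 (L l273 (L l483 (T t28 N))))))))))) (K a75 (M a135 (F (T t1800 (L l235 (L l291 (L l325 (T t22 (L l262 (L l273 (L l483 (T t28 N))))))))))) N)))))))))))))) (K a94 (M a173 (L l337 (F (T t1800 (L l235 (L l291 (L l325 (T t22 (L l262 (L l273 (L l483 (T t28 (K a135 (M a75 (F (T t1800 (L l235 (L l291 (L l325 (T t22 (L l262 (L l273 (L l483 (T t28 N))))))))))) (K a75 (M a135 (F (T t1800 (L l235 (L l291 (L l325 (T t22 (L l262 (L l273 (L l483 (T t28 N))))))))))) N)))))))))))))) (K a135 (M a75 (L l471 (F (T t1800 (L l235 (L l291 (L l325 (T t22 (L l262 (L l273 (L l483 (T t28 (K a173 (M a94 (F (T t1800 (L l235 (L l291 (L l325 (T t22 (L l262 (L l273 (L l483 (T t28 N))))))))))) (K a94 (M a173 (F (T t1800 (L l235 (L l291 (L l325 (T t22 (L l262 (L l273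 (L l483 (T t28 N))))))))))) N)))))))))))))) (K a75 (M a135 (L l471 (F (T t1800 (L l235 (L l291 (L l325 (T t22 (L l262 (L l273 (L l483 (T t28 (K a173 (M a94 (F (T t1800 (L l235 (L l291 (L l325 (T t22 (L l262 (L l273 (L l483 (T t28 N))))))))))) (K a94 (M a173 (F (T t1800 (L l235 (L l291 (L l325 (T t22 (L l262 (L l273 (L l483 (T t28 N))))))))))) N)))))))))))))) N))))))))))))))))) N)))))))))))))))))))))))) (K a214 (M a233 (F (T t48 (L l337 (L l471 (T t1 (L l337 (L l471 (T t2 (L l337 (L l471 (T t3 (L l337 (L l471 (T t0 (K a16 (M a60 (F (T t662 (L l441 (L l487 (T t451 (L l14 (L l18 (T t44 N))))))))) (K a32 (M a60 (F (T t138 (L l28 (L l307 (L l477 (T t69 (T t44 N)))))))) (K a21 (M a192 (F (T t1922 (L l235 (L l291 (T t22 (L l47 (L l347 (T t29 N))))))))) (K a37 (M a192 (F (T t54 (L l28 (L l262 (L l273 (T t28 (L l47 (L l261 (L l294 (L l295 (T t35 N)))))))))))) (K a53 (M a192 (F (T t1800 (L l262 (L l273 (T t28 (L l47 (L l294 (L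 l491 (T t525 N)))))))))) (K a26 (M a192 (F (T t56 (L l18 (L l261 (L l294 (L l295 (T t35 (L l262 (L l273 (T t28 N))))))))))) (K a42 (M a192 (F (T t36 (L l235 (L l291 (L l390 (T t22 (L l28 (T t29 N))))))))) (K a58 (M a192 (F (T t1922 (L l261 (L l294 (L l295 (T t35 (L l294 (T t525 N))))))))) (K a15 (M a192 (L l337 (L l471 (F (T t1800 (L l235 (L l291 (L l325 (T t22 (L l262 (L l273 (L l483 (T t28 (K a173 (M a94 (L l337 (F (T t1800 (L l235 (L l291 (L l325 (T t22 (L l262 (L l273 (L l483 (T t28 (K a135 (M a75 (F (T t1800 (L l235 (L l291 (L l325 (T t22 (L l262 (L l273 (L l483 (T t28 N))))))))))) (K a75 (M a135 (F (T t1800 (L l235 (L l291 (L l325 (T t22 (L l262 (L l273 (L l483 (T t28 N))))))))))) N)))))))))))))) (K a94 (M a173 (L l337 (F (T t1800 (L l235 (L l291 (L l325 (T t22 (L l262 (L l273 (L l483 (T t28 (K a135 (M a75 (F (T t1800 (L l235 (L l291 (L l325 (T t22 (L l262 (L l273 (L l483 (T t28 N))))))))))) (K a75 (M a135 (F (T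 t1800 (L l235 (L l291 (L l325 (T t22 (L l262 (L l273 (L l483 (T t28 N))))))))))) N)))))))))))))) (K a135 (M a75 (L l471 (F (T t1800 (L l235 (L l291 (L l325 (T t22 (L l262 (L l273 (L l483 (T t28 (K a173 (M a94 (F (T t1800 (L l235 (L l291 (L l325 (T t22 (L l262 (L l273 (L l483 (T t28 N))))))))))) (K a94 (M a173 (F (T t1800 (L l235 (L l291 (L l325 (T t22 (L l262 (L l273 (L l483 (T t28 N))))))))))) N)))))))))))))) (K a75 (M a135 (L l471 (F (T t1800 (L l235 (L l291 (L l325 (T t22 (L l262 (L l273 (L l483 (T t28 (K a173 (M a94 (F (T t1800 (L l235 (L l291 (L l325 (T t22 (L l262 (L l273 (L l483 (T t28 N))))))))))) (K a94 (M a173 (F (T t1800 (L l235 (L l291 (L l325 (T t22 (L l262 (L l273 (L l483 (T t28 N))))))))))) N)))))))))))))) N))))))))))))))))) N)))))))))))))))))))))))) N)))))))))))))))))))))))))))⟩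
def e0_63__195_82 : Ent 4 := ⟨[a0, a63], [a195, a253], (M a48 (F (T t48 (L l337 (T t1 (L l337 (T t2 (L l337 (T t3 (L l337 (T t0 (K a16 (M a60 (F (T t277 (L l14 (L l18 (L l307 (T t67 (T t65 N)))))))) (K a32 (M a60 (F (T t277 (L l307 (T t67 (L l24 (L l28 (T t65 N)))))))) (K a21 (M a192 (F (T t54 (L l273 (T t27 (L l47 (L l347 (T t29 N)))))))) (K a37 (M a192 (F (T t54 (L l273 (T t27 (L l261 (L l295 (T t21 N)))))))) (K a53 (M a192 (F (T t1800 (L l273 (T t27 (L l293 (T t31 N))))))) (K a26 (M a192 (F (T t56 (L l273 (T t27 (L l261 (L l295 (T t21 N)))))))) (K a42 (M a192 (F (T t56 (L l273 (T t27 (L l28 (T t29 N))))))) (K a58 (M a192 (F (T t57 (L l273 (T t27 (L l54 (L l293 (L l498 (T t31 N))))))))) (K a15 (M a192 (L l337 (F (T t47 (L l273 (L l483 (T t27 (L l235 (L l325 (T t20 (K a135 (M a75 (F (T t1800 (L l235 (L l325 (T t22 (L l273 (L l483 (T t28 N))))))))) (K a75 (M a135 (F (T t1800 (L l235 (L l325 (T t22 (L l273 (L l483 (T t28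 N))))))))) N)))))))))))) N))))))))))))))))))))⟩
def e0_63__195_83 : Ent 4 := ⟨[a0, a63], [a195, a255], (M a48 (L l295 (F (T t48 (L l337 (L l469 (T t1 (L l337 (L l469 (T t2 (L l337 (L l469 (T t3 (L l337 (L l469 (T t0 (K a16 (M a60 (L l295 (F (T t138 (L l14 (L l18 (L l307 (L l475 (T t67 (T t65 (K a215 (M a235 (F (T t662 (L l439 (L l487 (T t42 (L l14 (L l18 (L l350 (T t44 N)))))))))) (K a235 (M a215 (F (T t246 (L l307 (L l475 (T t69 (L l14 (L l18 (L l391 (T t44 N)))))))))) N)))))))))))) (K a32 (M a60 (L l295 (F (T t116 (L l439 (L l487 (T t64 (L l24 (L l28 (T t65 (K a215 (M a235 (F (T t236 (L l28 (L l307 (L l475 (T t69 (L l350 (T t44 N))))))))) (K a235 (M a215 (F (T t236 (L l28 (L l307 (L l475 (T t69 (L l391 (T t44 N))))))))) N)))))))))))) (K a21 (M a192 (L l295 (F (T t2113 (L l47 (L l235 (L l289 (L l347 (T t20 (L l47 (L l289 (L l347 (T t29 (K a215 (M a235 (F (T t54 (L l266 (L l273 (T t28 (L l47 (L l245 (L l289 (L l347 (T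 t29 N))))))))))) (K a235 (M a215 (F (T t54 (L l266 (L l273 (T t28 (L l47 (L l289 (L l347 (T t29 N)))))))))) N))))))))))))))) (K a37 (M a192 (L l295 (F (T t54 (L l266 (L l273 (T t27 (L l28 (L l47 (L l289 (T t29 (K a215 (M a235 (F (T t54 (L l28 (L l266 (L l273 (T t28 (L l28 (L l47 (L l245 (L l289 (T t29 N)))))))))))) (K a235 (M a215 (F (T t54 (L l28 (L l266 (L l273 (T t28 (L l28 (L l47 (L l289 (T t29 N))))))))))) N))))))))))))) (K a53 (M a12 (L l295 (F (T t145 (L l47 (L l439 (L l487 (T t122 (L l47 (T t146 (K a215 (M a235 (F (T t1252 (L l434 (L l518 (T t445 (L l47 (T t146 N)))))))) (K a235 (M a215 (F (T t1252 (L l434 (L l518 (T t445 (L l47 (T t146 N)))))))) N)))))))))))) (K a26 (M a192 (L l295 (F (T t56 (L l266 (L l273 (T t27 (L l289 (T t29 (K a215 (M a235 (F (T t56 (L l266 (L l273 (T t28 (L l245 (L l289 (T t29 N))))))))) (K a235 (M a215 (F (T t1922 (L l235 (L l289 (T t22 (L l289 (T t29 N)))))))) N))))))))))) (K a42 (M a192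 (L l295 (F (T t56 (L l266 (L l273 (T t27 (L l28 (L l289 (T t29 (K a215 (M a235 (F (T t36 (L l235 (L l289 (L l390 (T t22 (L l28 (L l245 (L l289 (T t29 N))))))))))) (K a235 (M a215 (F (T t36 (L l235 (L l289 (L l390 (T t22 (L l28 (L l289 (T t29 N)))))))))) N)))))))))))) (K a58 (M a12 (L l295 (F (T t145 (L l439 (L l487 (T t122 (T t146 (K a215 (M a235 (F (T t150 (L l434 (L l518 (T t445 (T t146 N))))))) (K a235 (M a215 (F (T t150 (L l434 (L l518 (T t445 (T t146 N))))))) N)))))))))) (K a15 (M a192 (L l295 (L l337 (L l469 (F (T t54 (L l266 (L l273 (L l483 (T t27 (L l289 (T t29 (K a135 (M a75 (L l295 (L l469 (F (T t54 (L l266 (L l273 (L l483 (T t28 (L l289 (T t29 (K a215 (M a235 (L l469 (F (T t1922 (L l235 (L l289 (L l325 (T t22 (L l245 (L l289 (T t29 (K a95 (M a175 (F (T t53 (L l266 (L l273 (L l483 (T t28 (L l245 (L l289 (L l361 (T t29 N))))))))))) (K a175 (M a95 (F (T t53 (L l266 (L l273 (L l483 (T t28 (L l245 (L l289 (T t29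 N)))))))))) N))))))))))))) (K a235 (M a215 (L l469 (F (T t54 (L l266 (L l273 (L l483 (T t28 (L l289 (T t29 (K a95 (M a175 (F (T t53 (L l266 (L l273 (L l483 (T t28 (L l289 (L l361 (T t29 N)))))))))) (K a175 (M a95 (F (T t53 (L l266 (L l273 (L l483 (T t28 (L l289 (T t29 N))))))))) N)))))))))))) (K a95 (M a175 (L l295 (F (T t1922 (L l235 (L l289 (L l325 (L l361 (T t22 (L l289 (L l361 (T t29 (K a215 (M a235 (F (T t53 (L l266 (L l273 (L l483 (T t28 (L l245 (L l289 (L l361 (T t29 N))))))))))) (K a235 (M a215 (F (T t53 (L l266 (L l273 (L l483 (T t28 (L l289 (L l361 (T t29 N)))))))))) N)))))))))))))) (K a175 (M a95 (L l295 (F (T t1922 (L l213 (L l235 (L l289 (L l325 (T t22 (L l289 (T t29 (K a215 (M a235 (F (T t53 (L l266 (L l273 (L l483 (T t28 (L l245 (L l289 (T t29 N)))))))))) (K a235 (M a215 (F (T t53 (L l266 (L l273 (L l483 (T t28 (L l289 (T t29 N))))))))) N))))))))))))) N))))))))))))))) (K a215 (M a235 (L l337 (L l469 (F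 (T t1922 (L l235 (L l289 (L l325 (T t22 (L l245 (L l289 (T t29 (K a135 (M a75 (L l469 (F (T t1922 (L l235 (L l289 (L l325 (T t22 (L l245 (L l289 (T t29 (K a95 (M a175 (F (T t53 (L l266 (L l273 (L l483 (T t28 (L l245 (L l289 (L l361 (T t29 N))))))))))) (K a175 (M a95 (F (T t53 (L l266 (L l273 (L l483 (T t28 (L l245 (L l289 (T t29 N)))))))))) N))))))))))))) (K a75 (M a135 (L l469 (F (T t1922 (L l235 (L l289 (L l325 (T t22 (L l245 (L l289 (T t29 (K a95 (M a175 (F (T t53 (L l266 (L l273 (L l483 (T t28 (L l245 (L l289 (L l361 (T t29 N))))))))))) (K a175 (M a95 (F (T t53 (L l266 (L l273 (L l483 (T t28 (L l245 (L l289 (T t29 N)))))))))) N))))))))))))) (K a95 (M a175 (L l337 (F (T t53 (L l266 (L l273 (L l483 (T t28 (L l245 (L l289 (L l361 (T t29 (K a135 (M a75 (F (T t53 (L l266 (L l273 (L l483 (T t28 (L l245 (L l289 (L l361 (T t29 N))))))))))) (K a75 (M a135 (F (T t53 (L l266 (L l273 (L l483 (T t28 (L l245 (L l289 (L l361 (T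 t29 N))))))))))) N)))))))))))))) (K a175 (M a95 (L l337 (F (T t53 (L l266 (L l273 (L l483 (T t28 (L l245 (L l289 (T t29 (K a135 (M a75 (F (T t53 (L l266 (L l273 (L l483 (T t28 (L l245 (L l289 (T t29 N)))))))))) (K a75 (M a135 (F (T t53 (L l266 (L l273 (L l483 (T t28 (L l245 (L l289 (T t29 N)))))))))) N))))))))))))) N)))))))))))))))) (K a75 (M a135 (L l295 (L l469 (F (T t54 (L l266 (L l273 (L l483 (T t28 (L l289 (T t29 (K a215 (M a235 (L l469 (F (T t1922 (L l235 (L l289 (L l325 (T t22 (L l245 (L l289 (T t29 (K a95 (M a175 (F (T t53 (L l266 (L l273 (L l483 (T t28 (L l245 (L l289 (L l361 (T t29 N))))))))))) (K a175 (M a95 (F (T t53 (L l266 (L l273 (L l483 (T t28 (L l245 (L l289 (T t29 N)))))))))) N))))))))))))) (K a235 (M a215 (L l469 (F (T t54 (L l266 (L l273 (L l483 (T t28 (L l289 (T t29 (K a95 (M a175 (F (T t53 (L l266 (L l273 (L l483 (T t28 (L l289 (L l361 (T t29 N)))))))))) (K a175 (M a95 (F (T t53 (L l266 (L l273 (L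 l483 (T t28 (L l289 (T t29 N))))))))) N)))))))))))) (K a95 (M a175 (L l295 (F (T t1922 (L l235 (L l289 (L l325 (L l361 (T t22 (L l289 (L l361 (T t29 (K a215 (M a235 (F (T t53 (L l266 (L l273 (L l483 (T t28 (L l245 (L l289 (L l361 (T t29 N))))))))))) (K a235 (M a215 (F (T t53 (L l266 (L l273 (L l483 (T t28 (L l289 (L l361 (T t29 N)))))))))) N)))))))))))))) (K a175 (M a95 (L l295 (F (T t1922 (L l213 (L l235 (L l289 (L l325 (T t22 (L l289 (T t29 (K a215 (M a235 (F (T t53 (L l266 (L l273 (L l483 (T t28 (L l245 (L l289 (T t29 N)))))))))) (K a235 (M a215 (F (T t53 (L l266 (L l273 (L l483 (T t28 (L l289 (T t29 N))))))))) N))))))))))))) N))))))))))))))) (K a235 (M a215 (L l337 (L l469 (F (T t54 (L l266 (L l273 (L l483 (T t28 (L l289 (T t29 (K a135 (M a75 (L l469 (F (T t54 (L l266 (L l273 (L l483 (T t28 (L l289 (T t29 (K a95 (M a175 (F (T t53 (L l266 (L l273 (L l483 (T t28 (L l289 (L l361 (T t29 N)))))))))) (K a175 (M a95 (F (T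 t53 (L l266 (L l273 (L l483 (T t28 (L l289 (T t29 N))))))))) N)))))))))))) (K a75 (M a135 (L l469 (F (T t54 (L l266 (L l273 (L l483 (T t28 (L l289 (T t29 (K a95 (M a175 (F (T t53 (L l266 (L l273 (L l483 (T t28 (L l289 (L l361 (T t29 N)))))))))) (K a175 (M a95 (F (T t53 (L l266 (L l273 (L l483 (T t28 (L l289 (T t29 N))))))))) N)))))))))))) (K a95 (M a175 (L l337 (F (T t53 (L l266 (L l273 (L l483 (T t28 (L l289 (L l361 (T t29 (K a135 (M a75 (F (T t53 (L l266 (L l273 (L l483 (T t28 (L l289 (L l361 (T t29 N)))))))))) (K a75 (M a135 (F (T t53 (L l266 (L l273 (L l483 (T t28 (L l289 (L l361 (T t29 N)))))))))) N))))))))))))) (K a175 (M a95 (L l337 (F (T t53 (L l266 (L l273 (L l483 (T t28 (L l289 (T t29 (K a135 (M a75 (F (T t53 (L l266 (L l273 (L l483 (T t28 (L l289 (T t29 N))))))))) (K a75 (M a135 (F (T t53 (L l266 (L l273 (L l483 (T t28 (L l289 (T t29 N))))))))) N)))))))))))) N))))))))))))))) (K a95 (M a175 (L l295 (L l337 (F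 (T t1922 (L l235 (L l289 (L l325 (L l361 (T t22 (L l289 (L l361 (T t29 (K a135 (M a75 (L l295 (F (T t1922 (L l235 (L l289 (L l325 (L l361 (T t22 (L l289 (L l361 (T t29 (K a215 (M a235 (F (T t53 (L l266 (L l273 (L l483 (T t28 (L l245 (L l289 (L l361 (T t29 N))))))))))) (K a235 (M a215 (F (T t53 (L l266 (L l273 (L l483 (T t28 (L l289 (L l361 (T t29 N)))))))))) N)))))))))))))) (K a215 (M a235 (L l337 (F (T t53 (L l266 (L l273 (L l483 (T t28 (L l245 (L l289 (L l361 (T t29 (K a135 (M a75 (F (T t53 (L l266 (L l273 (L l483 (T t28 (L l245 (L l289 (L l361 (T t29 N))))))))))) (K a75 (M a135 (F (T t53 (L l266 (L l273 (L l483 (T t28 (L l245 (L l289 (L l361 (T t29 N))))))))))) N)))))))))))))) (K a75 (M a135 (L l295 (F (T t1922 (L l235 (L l289 (L l325 (L l361 (T t22 (L l289 (L l361 (T t29 (K a215 (M a235 (F (T t53 (L l266 (L l273 (L l483 (T t28 (L l245 (L l289 (L l361 (T t29 N))))))))))) (K a235 (M a215 (F (T t53 (L l266 (L l273 (L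 l483 (T t28 (L l289 (L l361 (T t29 N)))))))))) N)))))))))))))) (K a235 (M a215 (L l337 (F (T t53 (L l266 (L l273 (L l483 (T t28 (L l289 (L l361 (T t29 (K a135 (M a75 (F (T t53 (L l266 (L l273 (L l483 (T t28 (L l289 (L l361 (T t29 N)))))))))) (K a75 (M a135 (F (T t53 (L l266 (L l273 (L l483 (T t28 (L l289 (L l361 (T t29 N)))))))))) N))))))))))))) N))))))))))))))))) (K a175 (M a95 (L l295 (L l337 (F (T t1922 (L l213 (L l235 (L l289 (L l325 (T t22 (L l289 (T t29 (K a135 (M a75 (L l295 (F (T t1922 (L l213 (L l235 (L l289 (L l325 (T t22 (L l289 (T t29 (K a215 (M a235 (F (T t53 (L l266 (L l273 (L l483 (T t28 (L l245 (L l289 (T t29 N)))))))))) (K a235 (M a215 (F (T t53 (L l266 (L l273 (L l483 (T t28 (L l289 (T t29 N))))))))) N))))))))))))) (K a215 (M a235 (L l337 (F (T t53 (L l266 (L l273 (L l483 (T t28 (L l245 (L l289 (T t29 (K a135 (M a75 (F (T t53 (L l266 (L l273 (L l483 (T t28 (L l245 (L l289 (T t29 N)))))))))) (K a75 (M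 a135 (F (T t53 (L l266 (L l273 (L l483 (T t28 (L l245 (L l289 (T t29 N)))))))))) N))))))))))))) (K a75 (M a135 (L l295 (F (T t1922 (L l213 (L l235 (L l289 (L l325 (T t22 (L l289 (T t29 (K a215 (M a235 (F (T t53 (L l266 (L l273 (L l483 (T t28 (L l245 (L l289 (T t29 N)))))))))) (K a235 (M a215 (F (T t53 (L l266 (L l273 (L l483 (T t28 (L l289 (T t29 N))))))))) N))))))))))))) (K a235 (M a215 (L l337 (F (T t53 (L l266 (L l273 (L l483 (T t28 (L l289 (T t29 (K a135 (M a75 (F (T t53 (L l266 (L l273 (L l483 (T t28 (L l289 (T t29 N))))))))) (K a75 (M a135 (F (T t53 (L l266 (L l273 (L l483 (T t28 (L l289 (T t29 N))))))))) N)))))))))))) N)))))))))))))))) N)))))))))))))))))) (K a215 (M a235 (F (T t48 (L l337 (L l469 (T t1 (L l337 (L l469 (T t2 (L l337 (L l469 (T t3 (L l337 (L l469 (T t0 (K a16 (M a60 (F (T t662 (L l439 (L l487 (T t42 (L l14 (L l18 (L l350 (T t44 N)))))))))) (K a32 (M a60 (F (T t236 (L l28 (L l307 (L l475 (T t69 (L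 l350 (T t44 N))))))))) (K a21 (M a192 (F (T t54 (L l266 (L l273 (T t28 (L l47 (L l245 (L l289 (L l347 (T t29 N))))))))))) (K a37 (M a192 (F (T t54 (L l28 (L l266 (L l273 (T t28 (L l28 (L l47 (L l245 (L l289 (T t29 N)))))))))))) (K a53 (M a106 (F (L l491 (T t2289 (L l47 (L l297 (L l349 (T t5303 N)))))))) (K a26 (M a192 (F (T t56 (L l266 (L l273 (T t28 (L l245 (L l289 (T t29 N))))))))) (K a42 (M a192 (F (T t36 (L l235 (L l289 (L l390 (T t22 (L l28 (L l245 (L l289 (T t29 N))))))))))) (K a58 (M a12 (F (T t150 (L l434 (L l518 (T t445 (T t146 N))))))) (K a15 (M a170 (L l337 (L l469 (F (L l289 (T t3070 (L l7 (L l307 (L l350 (L l475 (L l518 (T t5304 (K a135 (M a75 (L l469 (F (L l289 (T t3070 (L l7 (L l307 (L l350 (L l475 (L l518 (T t5304 (K a95 (M a175 (F (L l289 (T t3070 (L l7 (L l307 (L l350 (L l475 (L l518 (T t5304 N)))))))))) (K a175 (M a95 (F (L l350 (L l518 (T t5305 (L l296 (T t580 N))))))) N))))))))))))) (K a75 (M a135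 (L l469 (F (L l289 (T t3070 (L l7 (L l133 (L l307 (L l350 (L l475 (L l518 (T t5304 (K a95 (M a175 (F (L l289 (T t3070 (L l7 (L l133 (L l307 (L l350 (L l475 (L l518 (T t5304 N))))))))))) (K a175 (M a95 (F (L l133 (L l350 (L l518 (T t5305 (L l296 (T t580 N)))))))) N)))))))))))))) (K a95 (M a175 (L l337 (F (L l289 (T t3070 (L l7 (L l307 (L l350 (L l475 (L l518 (T t5304 (K a135 (M a75 (F (L l289 (T t3070 (L l7 (L l307 (L l350 (L l475 (L l518 (T t5304 N)))))))))) (K a75 (M a135 (F (L l289 (T t3070 (L l7 (L l133 (L l307 (L l350 (L l475 (L l518 (T t5304 N))))))))))) N))))))))))))) (K a175 (M a95 (L l337 (F (L l350 (L l518 (T t5305 (L l296 (T t580 (K a135 (M a75 (F (L l350 (L l518 (T t5305 (L l296 (T t580 N))))))) (K a75 (M a135 (F (L l133 (L l350 (L l518 (T t5305 (L l296 (T t580 N)))))))) N)))))))))) N)))))))))))))))) N)))))))))))))))))))))))) (K a235 (M a215 (F (T t48 (L l337 (L l469 (T t1 (L l337 (L l469 (T t2 (L l337 (L l469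 (T t3 (L l337 (L l469 (T t0 (K a16 (M a60 (F (T t246 (L l307 (L l475 (T t69 (L l14 (L l18 (L l391 (T t44 N)))))))))) (K a32 (M a60 (F (T t236 (L l28 (L l307 (L l475 (T t69 (L l391 (T t44 N))))))))) (K a21 (M a192 (F (T t54 (L l266 (L l273 (T t28 (L l47 (L l289 (L l347 (T t29 N)))))))))) (K a37 (M a192 (F (T t54 (L l28 (L l266 (L l273 (T t28 (L l28 (L l47 (L l289 (T t29 N))))))))))) (K a53 (M a12 (F (T t1252 (L l434 (L l518 (T t445 (L l47 (T t146 N)))))))) (K a26 (M a192 (F (T t1922 (L l235 (L l289 (T t22 (L l289 (T t29 N)))))))) (K a42 (M a192 (F (T t36 (L l235 (L l289 (L l390 (T t22 (L l28 (L l289 (T t29 N)))))))))) (K a58 (M a149 (F (L l498 (T t1274 (L l54 (L l297 (L l391 (T t5306 N)))))))) (K a15 (M a85 (L l337 (L l469 (F (L l289 (T t100 (L l7 (L l307 (L l392 (L l475 (L l518 (T t5307 (K a135 (M a75 (L l469 (F (L l289 (T t100 (L l7 (L l203 (L l307 (L l392 (L l475 (L l518 (T t5307 (K a95 (M a175 (F (L l203 (L l392 (L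 l518 (T t5308 (L l296 (T t51 N)))))))) (K a175 (M a95 (F (L l289 (T t100 (L l7 (L l203 (L l307 (L l392 (L l475 (L l518 (T t5307 N))))))))))) N)))))))))))))) (K a75 (M a135 (L l469 (F (L l289 (T t100 (L l7 (L l307 (L l392 (L l475 (L l518 (T t5307 (K a95 (M a175 (F (L l392 (L l518 (T t5308 (L l296 (T t51 N))))))) (K a175 (M a95 (F (L l289 (T t100 (L l7 (L l307 (L l392 (L l475 (L l518 (T t5307 N)))))))))) N))))))))))))) (K a95 (M a175 (L l337 (F (L l392 (L l518 (T t5308 (L l296 (T t51 (K a135 (M a75 (F (L l203 (L l392 (L l518 (T t5308 (L l296 (T t51 N)))))))) (K a75 (M a135 (F (L l392 (L l518 (T t5308 (L l296 (T t51 N))))))) N)))))))))) (K a175 (M a95 (L l337 (F (L l289 (T t100 (L l7 (L l307 (L l392 (L l475 (L l518 (T t5307 (K a135 (M a75 (F (L l289 (T t100 (L l7 (L l203 (L l307 (L l392 (L l475 (L l518 (T t5307 N))))))))))) (K a75 (M a135 (F (L l289 (T t100 (L l7 (L l307 (L l392 (L l475 (L l518 (T t5307 N)))))))))) N)))))))))))))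 N)))))))))))))))) N)))))))))))))))))))))))) N)))))))))))))))))))))))))))⟩
def b0_63__195 : Blk 4 := ⟨[0, 63], [195], [1, 3, 4, 5, 6, 7, 12, 13, 15, 20, 22, 23, 24, 25, 27, 28, 29, 30, 31, 60, 61, 64, 65, 66, 67, 68, 69, 70, 71, 72, 73, 74, 75, 76, 77, 78, 79, 84, 85, 86, 87, 88, 89, 90, 91, 92, 93, 94, 95, 104, 105, 106, 107, 108, 109, 110, 111, 124, 125, 126, 127, 192, 193, 196, 197, 198, 199, 204, 205, 207, 212, 213, 214, 215, 216, 217, 219, 220, 221, 222, 223, 252, 253, 255], [e0_63__195_0, e0_63__195_1, e0_63__195_2, e0_63__195_3, e0_63__195_4, e0_63__195_5, e0_63__195_6, e0_63__195_7, e0_63__195_8, e0_63__195_9, e0_63__195_10, e0_63__195_11, e0_63__195_12, e0_63__195_13, e0_63__195_14, e0_63__195_15, e0_63__195_16, e0_63__195_17, e0_63__195_18, e0_63__195_19, e0_63__195_20, e0_63__195_21, e0_63__195_22, e0_63__195_23, e0_63__195_24, e0_63__195_25, e0_63__195_26, e0_63__195_27, e0_63__195_28, e0_63__195_29, e0_63__195_30,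 e0_63__195_31, e0_63__195_32, e0_63__195_33, e0_63__195_34, e0_63__195_35, e0_63__195_36, e0_63__195_37, e0_63__195_38, e0_63__195_39, e0_63__195_40, e0_63__195_41, e0_63__195_42, e0_63__195_43, e0_63__195_44, e0_63__195_45, e0_63__195_46, e0_63__195_47, e0_63__195_48, e0_63__195_49, e0_63__195_50, e0_63__195_51, e0_63__195_52, e0_63__195_53, e0_63__195_54, e0_63__195_55, e0_63__195_56, e0_63__195_57, e0_63__195_58, e0_63__195_59, e0_63__195_60, e0_63__195_61, e0_63__195_62, e0_63__195_63, e0_63__195_64, e0_63__195_65, e0_63__195_66, e0_63__195_67, e0_63__195_68, e0_63__195_69, e0_63__195_70, e0_63__195_71, e0_63__195_72, e0_63__195_73, e0_63__195_74, e0_63__195_75, e0_63__195_76, e0_63__195_77, e0_63__195_78, e0_63__195_79, e0_63__195_80, e0_63__195_81, e0_63__195_82, e0_63__195_83], by decide +kernel, by decide +kernel⟩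

end Pool.Agent.Lib_TTT.K4
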