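import Pool.Agent.Lib_TTT.K4Base
import Pool.Agent.Lib_TTT.K4T00
import Pool.Agent.Lib_TTT.K4T01
import Pool.Agent.Lib_TTT.K4T02
import Pool.Agent.Lib_TTT.K4T03
import Pool.Agent.Lib_TTT.K4T04
import Pool.Agent.Lib_TTT.K4T05
import Pool.Agent.Lib_TTT.K4T06

/-! Certificates in `4^4`. -/

set_option autoImplicit false
set_option maxRecDepth 200000

namespace Pool.Agent.Lib_TTT.K4

open Lib_TTT AC DC

def e0_63__197_0 : Ent 4 := ⟨[a0, a63], [a197, a1], (M a85 (F (L l65 (T t52 (L l236 (L l275 (T t88 (L l275 (T t89 (L l236 (T t90 (K a64 (M a252 (F (T t93 (L l275 (T t92 N))))) (K a192 (M a207 (F (T t2056 (L l339 (T t2057 (L l275 (L l296 (L l484 (T t2058 (L l339 (T t2059 N))))))))))) (K a21 (M a48 (L l65 (F (T t99 (T t50 (L l47 (L l236 (L l491 (T t100 (K a41 (M a61 (F (T t99 (L l41 (T t262 N))))) (K a61 (M a41 (F (T t99 (T t50 (L l35 (L l47 (L l236 (L l491 (T t100 N))))))))) N))))))))))) (K a149 (M a53 (F (L l375 (T t939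 (L l220 (L l275 (T t1560 (L l199 (T t2060 N))))))))) (K a213 (Fr a170 a255 l476 (Fr a42 a21 l68 (Fr a106 a234 l390 (Fr a192 a149 l519 (V t581))))) (K a42 (M a48 (F (T t364 (L l390 (T t50 (L l28 (L l236 (L l491 (T t100 N))))))))) (K a106 (M a48 (F (T t99 (L l65 (L l411 (T t3 (L l390 (T t50 N)))))))) (K a170 (M a48 (F (L l65 (T t3 (L l206 (L l220 (L l236 (L l275 (L l311 (L l329 (L l390 (T t3747 (L l236 (L l404 (L l491 (T t100 N)))))))))))))))) (K a255 (M a16 (F (T t504 (L l236 (L l289 (L l491 (T t113 (L l275 (L l289 (L l296 (T t98 N))))))))))) N))))))))))))))))))))⟩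
def e0_63__197_1 : Ent 4 := ⟨[a0, a63], [a197, a2], (M a85 (F (T t52 (L l66 (L l236 (L l275 (T t88 (L l66 (L l275 (T t89 (L l236 (L l474 (T t90 (K a64 (M a16 (F (T t101 (L l66 (T t97 (L l66 (L l116 (L l275 (T t98 N))))))))) (K a192 (M a207 (F (L l330 (T t2056 (L l339 (L l474 (T t2057 (L l66 (L l275 (L l296 (L l330 (L l484 (T t2058 (L l66 (L l330 (L l339 (T t2059 N))))))))))))))))) (K a21 (M a48 (F (T t99 (L l474 (T t50 (L l47 (L l236 (L l491 (T t100 N))))))))) (K a149 (M a53 (F (L l66 (L l311 (T t982 (L l220 (L l275 (L l474 (T t1560 (L l66 (L l199 (T t2060 N)))))))))))) (K a213 (Fr a170 a255 l476 (Fr a42 a21 l68 (Fr a106 a234 l390 (Fr a192 a149 l519 (V t581))))) (K a42 (M a62 (F (T t1693 (L l390 (L l474 (T t1694 (L l22 (L l306 (T t1695 (L l236 (L l306 (L l390 (L l474 (T t1696 N)))))))))))))) (K a106 (M a48 (F (T t99 (L l411 (T t3 (L l390 (L l474 (T t50 N)))))))) (K a170 (M a86 (F (L l174 (T t1703 (L l66 (L l275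 (L l390 (T t369 (L l174 (L l306 (T t1701 (L l66 (L l174 (L l236 (L l275 (L l390 (T t1702 N))))))))))))))))) (K a255 (M a16 (F (L l66 (T t504 (L l236 (L l289 (L l491 (T t113 (L l66 (L l275 (L l289 (L l296 (T t98 N))))))))))))) N))))))))))))))))))))))⟩
def e0_63__197_2 : Ent 4 := ⟨[a0, a63], [a197, a3], (M a48 (F (T t610 (L l7 (L l491 (T t1 (L l7 (L l311 (T t2 (L l7 (T t3 (L l7 (T t0 (K a16 (M a170 (F (L l18 (L l475 (T t2190 (L l368 (L l453 (T t514 (L l18 (L l236 (L l491 (T t580 N)))))))))))) (K a32 (M a170 (F (T t5309 (L l453 (T t514 (L l236 (L l491 (T t580 N)))))))) (K a21 (M a192 (F (T t2113 (L l331 (L l347 (L l491 (T t225 (L l347 (L l491 (T t861 N)))))))))) (K a37 (M a192 (F (T t55 (L l331 (L l491 (T t225 (L l475 (L l491 (T t21 N))))))))) (K a53 (M a149 (F (T t4854 (L l453 (T t13 (L l275 (T t26 N))))))) (K a26 (M a192 (F (T t2113 (L l331 (L l491 (T t225 (L l475 (L l491 (T t21 N))))))))) (K a42 (M a192 (F (T t55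 (L l331 (L l491 (T t225 (L l28 (L l491 (T t861 N))))))))) (K a58 (M a192 (F (T t1922 (L l475 (L l491 (T t21 (L l54 (L l275 (L l498 (T t31 N)))))))))) (K a15 (M a80 (L l7 (F (T t1831 (L l469 (L l475 (L l491 (T t942 (L l236 (L l275 (L l309 (L l339 (L l483 (T t633 (L l275 (T t59 (K a7 (M a11 (F (T t1831 (L l69 (L l491 (T t62 N)))))) (K a11 (M a7 (F (T t1831 (L l69 (L l311 (T t63 N)))))) N)))))))))))))))))) N))))))))))))))))))))))⟩
def e0_63__197_3 : Ent 4 := ⟨[a0, a63], [a197, a5], (M a60 (L l311 (F (T t43 (L l47 (T t67 (L l47 (T t68 (L l5 (T t69 (K a20 (M a149 (L l311 (F (T t1326 (L l275 (T t25 (L l233 (L l275 (T t1256 (K a69 (M a133 (F (L l275 (T t25 (L l81 (T t1323 N)))))) (K a133 (M a69 (F (T t1326 (L l160 (L l275 (T t464 N)))))) N))))))))))) (K a40 (M a149 (L l311 (F (T t177 (L l236 (T t461 (L l22 (L l233 (L l275 (T t1256 (K a69 (M a133 (F (L l84 (T t1325 (L l22 (L l233 (L l275 (T t1256 N)))))))) (K a133 (M a69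 (F (L l388 (T t1326 (L l22 (L l160 (L l275 (T t464 N)))))))) N)))))))))))) (K a21 (M a149 (L l47 (L l311 (F (T t1326 (L l11 (L l233 (T t462 (T t463 (K a69 (M a133 (L l47 (F (L l84 (T t1325 (L l11 (L l233 (T t462 (K a37 (M a53 (F (T t1326 (L l28 (T t76 N))))) (K a53 (M a37 (F (T t463 (L l455 (T t1327 N))))) N)))))))))) (K a133 (M a69 (L l47 (F (T t1326 (L l160 (T t5310 (L l160 (L l236 (L l339 (T t5311 (K a37 (M a53 (F (T t1326 (L l11 (L l18 (T t1338 N)))))) (K a53 (M a37 (F (T t1326 (L l160 (T t5310 (L l160 (T t463 N))))))) N)))))))))))) (K a37 (M a53 (L l311 (F (T t1326 (L l11 (L l51 (T t1328 (K a69 (M a133 (F (T t1326 (L l28 (T t76 N))))) (K a133 (M a69 (F (T t1326 (L l11 (L l18 (T t1338 N)))))) N))))))))) (K a53 (M a37 (L l311 (F (T t1326 (L l11 (L l233 (T t462 (T t463 (K a69 (M a133 (F (T t463 (L l455 (T t1327 N))))) (K a133 (M a69 (F (T t1326 (L l160 (T t5310 (L l160 (T t463 N))))))) N)))))))))) N)))))))))))))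 (K a41 (M a149 (L l311 (F (T t177 (L l233 (T t1020 (L l233 (T t462 (K a69 (M a133 (F (T t463 (L l455 (T t1327 N))))) (K a133 (M a69 (F (T t1326 (L l22 (L l160 (L l275 (T t464 N))))))) N)))))))))) (K a61 (M a48 (L l311 (F (T t248 (L l47 (L l65 (T t3 (L l47 (L l65 (T t5312 (K a69 (M a133 (F (T t489 (L l47 (L l65 (T t3 (L l47 (L l65 (T t5312 N))))))))) (K a133 (M a69 (F (T t489 (L l160 (L l236 (L l339 (L l491 (T t429 N)))))))) N)))))))))))) (K a22 (M a105 (L l311 (F (T t2712 (L l66 (L l233 (L l236 (T t1128 (L l11 (L l66 (L l233 (T t405 (K a69 (M a133 (F (T t1132 (L l16 (L l66 (L l233 (T t5313 N))))))) (K a133 (M a69 (F (T t2712 (L l66 (L l160 (L l233 (T t455 N))))))) N)))))))))))))) (K a42 (M a105 (L l311 (F (T t404 (L l66 (L l233 (L l236 (T t1128 (L l66 (L l233 (T t405 (K a69 (M a133 (F (T t404 (L l66 (L l233 (T t5313 N)))))) (K a133 (M a69 (F (T t404 (L l66 (L l160 (L l233 (T t455 N))))))) N))))))))))))) (K a62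 (M a48 (L l311 (F (T t248 (L l47 (T t3 (L l47 (T t5312 (K a69 (M a133 (F (T t489 (L l47 (T t3 (L l47 (T t5312 N))))))) (K a133 (M a69 (F (T t489 (L l160 (L l236 (L l339 (L l491 (T t429 N)))))))) N)))))))))) (K a3 (M a149 (L l311 (F (T t5314 (L l275 (T t25 (L l233 (T t462 (K a69 (M a133 (F (L l275 (T t25 (L l81 (T t1323 N)))))) (K a133 (M a69 (F (T t5314 (L l160 (L l275 (T t464 N)))))) N)))))))))) (K a69 (M a133 (F (T t43 (L l47 (T t67 (L l47 (T t68 (L l5 (L l329 (T t69 (K a20 (M a149 (F (L l275 (T t25 (L l81 (T t1323 N)))))) (K a40 (M a149 (F (L l84 (T t1325 (L l22 (L l233 (L l275 (T t1256 N)))))))) (K a21 (M a149 (L l47 (F (L l84 (T t1325 (L l11 (L l233 (T t462 (K a37 (M a53 (F (T t1326 (L l28 (T t76 N))))) (K a53 (M a37 (F (T t463 (L l455 (T t1327 N))))) N)))))))))) (K a41 (M a192 (F (T t77 (L l233 (T t1330 N))))) (K a61 (M a31 (F (L l84 (T t1339 (T t5315 N))))) (K a22 (M a192 (F (T t72 (L l66 (L l233 (T t1330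 N)))))) (K a42 (M a192 (F (T t77 (L l66 (L l233 (L l390 (T t1330 N))))))) (K a62 (M a31 (F (L l84 (L l516 (T t5316 (L l60 (L l66 (T t5315 N)))))))) (K a3 (M a192 (F (T t1334 (L l233 (T t1330 N))))) N))))))))))))))))))) (K a133 (M a69 (F (T t43 (L l160 (T t452 (K a61 (M a48 (F (T t489 (L l160 (L l236 (L l339 (L l491 (T t429 N)))))))) (K a62 (M a48 (F (T t489 (L l160 (L l236 (L l339 (L l491 (T t429 N)))))))) N))))))) N)))))))))))))))))))))⟩
def e0_63__197_4 : Ent 4 := ⟨[a0, a63], [a197, a6], (M a85 (F (T t52 (L l236 (L l275 (T t88 (L l275 (T t89 (L l236 (T t90 (K a64 (M a16 (F (T t97 (L l236 (T t259 (L l116 (L l275 (T t98 N)))))))) (K a192 (M a207 (F (T t2056 (L l339 (T t2057 (L l275 (L l296 (L l484 (T t2058 (L l339 (T t2059 N))))))))))) (K a21 (M a48 (F (T t99 (T t50 (L l47 (L l236 (L l491 (T t100 N)))))))) (K a149 (M a53 (F (L l375 (T t939 (L l220 (L l275 (T t1560 (L l199 (T t2060 N))))))))) (K a213 (Fr a170 a255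 l476 (Fr a42 a21 l68 (Fr a106 a234 l390 (Fr a192 a149 l519 (V t581))))) (K a42 (M a48 (F (T t364 (L l390 (T t50 (L l28 (L l236 (L l491 (T t100 N))))))))) (K a106 (M a48 (F (T t99 (L l411 (T t3 (L l390 (T t50 N))))))) (K a170 (M a4 (F (L l464 (T t130 (L l275 (L l390 (T t131 (L l390 (L l464 (T t519 (L l464 (T t938 N)))))))))))) (K a255 (M a16 (F (T t504 (L l236 (L l289 (L l491 (T t113 (L l275 (L l289 (L l296 (T t98 N))))))))))) N)))))))))))))))))))⟩
def e0_63__197_5 : Ent 4 := ⟨[a0, a63], [a197, a7], (M a85 (F (T t52 (L l236 (L l275 (T t88 (L l275 (T t89 (L l236 (T t90 (K a64 (M a252 (F (T t91 (L l275 (L l457 (T t92 N)))))) (K a192 (M a207 (F (T t2056 (L l7 (L l339 (T t2057 (L l275 (L l296 (L l484 (T t2058 (L l7 (L l339 (T t2059 N))))))))))))) (K a21 (M a48 (F (T t99 (T t50 (L l47 (L l236 (L l491 (T t100 N)))))))) (K a149 (M a53 (F (L l375 (T t939 (L l220 (L l275 (T t1560 (L l51 (L l199 (L l459 (T t2060 N)))))))))))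 (K a213 (Fr a170 a255 l476 (Fr a42 a21 l68 (Fr a106 a234 l390 (Fr a192 a149 l519 (V t581))))) (K a42 (M a48 (F (T t364 (L l390 (T t50 (L l28 (L l236 (L l491 (T t100 N))))))))) (K a106 (M a48 (F (T t99 (L l7 (L l411 (T t3 (L l390 (T t50 N)))))))) (K a170 (M a4 (F (L l390 (L l464 (T t129 (L l275 (L l390 (L l457 (T t131 (L l457 (L l464 (T t130 (L l457 (L l464 (T t938 N))))))))))))))) (K a255 (M a16 (F (T t504 (L l236 (L l289 (L l491 (T t113 (L l275 (L l289 (L l296 (T t98 N))))))))))) N)))))))))))))))))))⟩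
def e0_63__197_6 : Ent 4 := ⟨[a0, a63], [a197, a10], (M a60 (F (T t67 (L l54 (T t43 (L l6 (T t68 (L l54 (T t69 (K a20 (M a48 (F (L l54 (T t0 (L l491 (T t64 (L l6 (L l11 (T t235 N))))))))) (K a40 (M a48 (F (L l491 (T t42 (L l22 (L l24 (L l54 (T t0 (L l6 (L l52 (T t235 N))))))))))) (K a21 (M a192 (F (T t72 (L l347 (L l491 (T t73 (L l347 (L l491 (T t74 N))))))))) (K a41 (M a192 (F (T t79 (L l65 (L l491 (T t35 (L l491 (T t73 N)))))))) (K a61 (M a192 (F (T t72 (L l65 (L l491 (L l515 (T t35 (L l54 (L l275 (T t80 N)))))))))) (K a22 (M a192 (F (T t72 (L l491 (T t21 (L l491 (T t73 N))))))) (K a42 (M a192 (L l54 (F (T t77 (L l491 (T t73 (L l22 (L l491 (T t74 (K a26 (M a58 (F (T t1333 (L l56 (L l72 (T t3780 N)))))) (K a58 (M a26 (F (T t79 (L l491 (T t73 (L l390 (L l498 (T t78 N)))))))) N))))))))))) (K a62 (M a192 (F (T t72 (L l491 (T t35 (L l54 (L l66 (L l275 (L l516 (T t80 N)))))))))) (K a3 (M a149 (F (T t5317 (L l54 (L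 l233 (L l275 (T t1256 N))))))) N))))))))))))))))))⟩
def e0_63__197_7 : Ent 4 := ⟨[a0, a63], [a197, a11], (M a85 (F (T t52 (L l236 (L l275 (T t88 (L l275 (T t89 (L l236 (T t90 (K a64 (M a12 (F (T t124 (L l2 (L l275 (T t572 N)))))) (K a192 (M a207 (F (T t2056 (L l7 (L l339 (T t2057 (L l275 (L l296 (L l484 (T t2058 (L l311 (T t5318 N)))))))))))) (K a21 (M a48 (F (T t99 (T t50 (L l47 (L l236 (L l491 (T t100 N)))))))) (K a149 (M a53 (F (L l311 (T t178 (L l220 (L l275 (T t1560 (L l199 (T t2060 N))))))))) (K a213 (Fr a170 a255 l476 (Fr a42 a21 l68 (Fr a106 a234 l390 (Fr a192 a149 l519 (V t581))))) (K a42 (M a48 (F (T t364 (L l390 (T t50 (L l28 (L l236 (L l491 (T t100 N))))))))) (K a106 (M a48 (F (T t99 (L l7 (L l411 (T t3 (L l390 (T t50 N)))))))) (K a170 (M a4 (F (L l2 (L l464 (T t130 (L l275 (L l390 (T t131 (L l2 (L l390 (L l464 (T t519 (L l2 (L l464 (T t938 N))))))))))))))) (K a255 (M a16 (F (T t504 (L l236 (L l289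 (L l491 (T t113 (L l275 (L l289 (L l296 (T t98 N))))))))))) N)))))))))))))))))))⟩
def e0_63__197_8 : Ent 4 := ⟨[a0, a63], [a197, a15], (M a12 (F (T t150 (L l73 (T t122 (L l73 (T t151 (L l73 (T t152 (L l73 (T t153 (K a4 (M a85 (F (T t4539 (L l327 (T t124 (L l275 (T t154 N))))))) (K a8 (M a85 (F (L l469 (T t52 (L l327 (L l464 (T t124 (L l56 (L l275 (T t154 N)))))))))) (K a21 (M a192 (F (T t158 (L l327 (T t156 (L l15 (L l347 (L l491 (T t157 N))))))))) (K a25 (M a192 (F (T t158 (L l327 (T t156 (L l469 (L l491 (T t21 N)))))))) (K a29 (M a192 (F (T t159 (L l371 (L l469 (L l491 (T t21 (L l275 (T t160 N))))))))) (K a38 (M a192 (F (T t1725 (L l481 (L l491 (T t450 (L l469 (L l491 (T t21 N))))))))) (K a42 (M a192 (F (T t496 (L l481 (L l491 (T t450 (L l56 (L l491 (T t157 N))))))))) (K a46 (M a192 (F (T t1725 (L l469 (L l491 (T t21 (L l26 (L l275 (L l408 (T t160 N)))))))))) (K a51 (M a68 (L l73 (F (T t162 (L l229 (L l275 (T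 t163 (L l236 (L l275 (L l339 (L l489 (L l513 (T t634 (K a39 (M a27 (F (T t1801 (L l63 (T t166 N))))) (K a27 (M a39 (F (T t1801 (L l63 (T t167 N))))) N))))))))))))))) N))))))))))))))))))))⟩
def e0_63__197_9 : Ent 4 := ⟨[a0, a63], [a197, a16], (M a12 (F (T t153 (L l18 (T t122 (L l10 (T t151 (L l18 (T t152 (K a4 (M a60 (F (T t43 (T t398 (L l10 (T t448 N)))))) (K a8 (M a60 (F (T t398 (L l52 (L l56 (T t43 (L l10 (L l52 (L l56 (T t448 N)))))))))) (K a21 (M a192 (L l18 (F (T t836 (L l15 (L l347 (L l491 (T t450 (L l15 (L l347 (L l491 (T t157 (K a26 (M a31 (F (T t836 (L l340 (T t1348 N))))) (K a31 (M a26 (F (T t156 (L l13 (L l15 (L l347 (L l375 (L l491 (T t450 (L l50 (T t681 N))))))))))) N)))))))))))))) (K a25 (M a192 (F (T t449 (L l15 (L l491 (T t450 (L l491 (T t21 N)))))))) (K a29 (M a192 (F (T t449 (L l371 (L l491 (T t21 (L l275 (T t160 N)))))))) (K a38 (M a192 (F (T t836 (L l491 (T t450 (L l491 (T t21 N))))))) (K a42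 (M a192 (F (T t449 (L l491 (T t450 (L l56 (L l491 (T t157 N)))))))) (K a46 (M a192 (F (T t449 (L l491 (T t21 (L l26 (L l275 (L l408 (T t160 N))))))))) (K a51 (M a192 (F (T t1800 (L l513 (T t156 (L l415 (L l491 (T t450 N)))))))) N))))))))))))))))))⟩
def e0_63__197_10 : Ent 4 := ⟨[a0, a63], [a197, a17], (M a85 (F (L l15 (T t52 (L l236 (L l275 (T t88 (L l275 (T t89 (L l236 (T t90 (K a64 (M a48 (F (T t50 (L l275 (T t568 N))))) (K a192 (M a207 (F (T t5319 (L l339 (T t2057 (L l275 (L l296 (L l484 (T t2058 (L l10 (L l15 (T t5320 N)))))))))))) (K a21 (M a48 (L l15 (F (T t99 (T t50 (L l47 (L l236 (L l491 (T t100 (K a25 (M a29 (F (T t50 (L l50 (T t2175 N))))) (K a29 (M a25 (F (T t99 (T t50 (L l47 (L l236 (L l491 (T t100 N)))))))) N))))))))))) (K a149 (M a53 (F (L l311 (T t982 (L l220 (L l275 (T t1560 (L l199 (T t2060 N))))))))) (K a213 (Fr a170 a255 l476 (Fr a42 a21 l68 (Fr a106 a234 l390 (Fr a192 a149 l519 (V t581)))))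 (K a42 (M a48 (F (L l28 (T t99 (L l390 (T t50 (L l28 (L l236 (L l491 (T t100 N)))))))))) (K a106 (M a48 (F (T t99 (L l10 (L l15 (L l411 (T t3 (L l390 (T t50 N))))))))) (K a170 (M a48 (F (L l10 (L l15 (T t3 (L l206 (L l220 (L l236 (L l275 (L l311 (L l390 (T t3747 (L l236 (L l404 (L l491 (T t100 N)))))))))))))))) (K a255 (M a16 (F (T t504 (L l236 (L l289 (L l491 (T t113 (L l275 (L l289 (L l296 (T t98 N))))))))))) N))))))))))))))))))))⟩
def e0_63__197_11 : Ent 4 := ⟨[a0, a63], [a197, a18], (M a85 (F (T t52 (L l236 (L l275 (T t88 (L l275 (T t89 (L l236 (T t90 (K a64 (M a48 (F (T t50 (L l275 (T t568 N))))) (K a192 (M a207 (F (T t5319 (L l339 (T t2057 (L l275 (L l296 (L l484 (T t2058 (L l311 (L l366 (T t5318 N)))))))))))) (K a21 (M a48 (F (T t99 (T t50 (L l47 (L l236 (L l491 (T t100 N)))))))) (K a149 (M a53 (F (L l311 (T t982 (L l220 (L l275 (T t1560 (L l199 (T t2060 N))))))))) (K a213 (Fr a170 a255 l476 (Fr a42 a21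 l68 (Fr a106 a234 l390 (Fr a192 a149 l519 (V t581))))) (K a42 (M a48 (F (L l28 (T t99 (L l390 (T t50 (L l28 (L l236 (L l491 (T t100 N)))))))))) (K a106 (M a48 (F (T t99 (L l10 (L l411 (T t3 (L l390 (T t50 N)))))))) (K a170 (M a4 (F (L l464 (T t130 (L l275 (L l390 (T t131 (L l390 (L l464 (T t519 (L l464 (T t938 N)))))))))))) (K a255 (M a16 (F (T t504 (L l236 (L l289 (L l491 (T t113 (L l275 (L l289 (L l296 (T t98 N))))))))))) N)))))))))))))))))))⟩
def e0_63__197_12 : Ent 4 := ⟨[a0, a63], [a197, a19], (M a85 (F (T t52 (L l236 (L l275 (T t88 (L l275 (T t89 (L l236 (T t90 (K a64 (M a48 (F (T t50 (L l275 (L l367 (T t568 N)))))) (K a192 (M a207 (F (T t5319 (L l339 (T t2057 (L l275 (L l296 (L l484 (T t2058 (L l17 (L l339 (T t2059 N)))))))))))) (K a21 (M a48 (F (L l367 (T t99 (T t50 (L l47 (L l236 (L l367 (L l491 (T t100 N)))))))))) (K a149 (M a53 (F (L l311 (T t982 (L l220 (L l275 (T t1560 (L l199 (T t2060 N))))))))) (K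 a213 (Fr a170 a255 l476 (Fr a42 a21 l68 (Fr a106 a234 l390 (Fr a192 a149 l519 (V t581))))) (K a42 (M a48 (F (L l10 (T t364 (L l390 (T t50 (L l28 (L l236 (L l367 (L l491 (T t100 N))))))))))) (K a106 (M a48 (F (L l491 (T t1 (L l367 (T t99 (L l390 (T t50 N)))))))) (K a170 (M a4 (F (L l464 (T t130 (L l275 (L l390 (T t131 (L l43 (L l390 (L l464 (T t519 (L l464 (T t938 N))))))))))))) (K a255 (M a16 (F (L l311 (T t112 (L l236 (L l289 (L l367 (L l491 (T t113 (L l275 (L l289 (L l296 (L l367 (T t98 N)))))))))))))) N)))))))))))))))))))⟩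
def e0_63__197_13 : Ent 4 := ⟨[a0, a63], [a197, a22], (M a85 (F (L l11 (T t52 (L l66 (L l236 (L l275 (T t88 (L l66 (L l275 (T t89 (L l236 (T t90 (K a64 (M a48 (F (T t50 (L l66 (L l275 (T t568 N)))))) (K a192 (M a207 (F (T t2056 (L l339 (T t2057 (L l66 (L l275 (L l296 (L l484 (T t2058 (L l11 (T t5320 N)))))))))))) (K a21 (M a48 (L l11 (F (T t99 (T t50 (L l47 (L l236 (L l491 (T t100 (K a20 (M a23 (F (T t50 (L l19 (T t172 N))))) (K a23 (M a20 (F (T t99 (L l65 (L l349 (T t2160 N)))))) N))))))))))) (K a149 (M a53 (F (L l66 (L l311 (T t982 (L l220 (L l275 (T t1560 (L l51 (L l66 (L l199 (T t2060 N)))))))))))) (K a213 (Fr a170 a255 l476 (Fr a42 a21 l68 (Fr a106 a234 l390 (Fr a192 a149 l519 (V t581))))) (K a42 (M a62 (F (L l22 (T t1695 (L l390 (T t1694 (L l22 (T t3620 (L l11 (L l236 (L l390 (T t1696 N)))))))))))) (K a106 (M a48 (F (T t99 (L l11 (L l411 (T t3 (L l390 (T t50 N)))))))) (K a170 (M a48 (F (L l11 (T t3 (L l66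 (L l206 (L l220 (L l236 (L l275 (L l311 (L l390 (T t3747 (L l236 (L l404 (L l491 (T t100 N)))))))))))))))) (K a255 (M a16 (F (L l66 (T t504 (L l236 (L l289 (L l491 (T t113 (L l66 (L l275 (L l289 (L l296 (T t98 N))))))))))))) N))))))))))))))))))))))⟩
def e0_63__197_14 : Ent 4 := ⟨[a0, a63], [a197, a23], (M a48 (F (L l311 (T t2 (L l11 (L l491 (T t1 (L l11 (T t3 (L l17 (T t0 (K a16 (M a60 (F (T t70 (L l11 (L l18 (T t68 (L l11 (L l18 (L l491 (T t194 N)))))))))) (K a32 (M a60 (F (T t70 (L l11 (T t68 (L l11 (L l491 (T t194 N)))))))) (K a21 (M a192 (L l11 (F (T t27 (L l347 (L l351 (L l491 (T t225 (L l347 (L l351 (L l491 (T t861 (K a20 (M a22 (F (T t27 (L l347 (L l351 (L l491 (T t225 (L l347 (L l351 (L l491 (T t861 N))))))))))) (K a22 (M a20 (F (T t27 (L l347 (L l351 (L l491 (T t195 N))))))) N)))))))))))))) (K a37 (M a192 (F (T t19 (L l351 (L l491 (T t225 (L l351 (L l491 (T t21 N))))))))) (K a53 (M a149 (F (T t177 (T t13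 (L l275 (T t26 N)))))) (K a26 (M a192 (F (T t837 (L l351 (L l491 (T t225 (L l351 (L l491 (T t21 N))))))))) (K a42 (M a192 (F (T t27 (L l351 (L l491 (T t225 (L l28 (L l351 (L l491 (T t861 N)))))))))) (K a58 (M a192 (F (T t19 (L l351 (L l491 (T t21 (L l54 (L l275 (L l498 (T t31 N)))))))))) (K a15 (M a192 (F (T t1800 (L l483 (T t27 (L l325 (L l351 (L l491 (T t225 N))))))))) N))))))))))))))))))))⟩
def e0_63__197_15 : Ent 4 := ⟨[a0, a63], [a197, a26], (M a192 (F (T t202 (L l491 (T t21 (L l18 (L l491 (T t35 (L l54 (L l275 (T t37 (K a64 (M a12 (F (L l54 (T t151 (L l491 (T t450 (L l54 (L l80 (L l144 (L l275 (T t160 N))))))))))) (K a128 (M a12 (F (T t221 (L l18 (T t122 (L l54 (L l275 (T t160 N)))))))) (K a21 (M a16 (F (T t210 (L l347 (L l491 (T t223 (T t5321 (L l347 (L l491 (T t5322 N)))))))))) (K a85 (M a240 (F (T t4730 (L l347 (L l491 (T t4731 (L l94 (L l144 (L l311 (T t4732 N)))))))))) (K a149 (M a60 (L l491 (F (T t1333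 (L l18 (L l347 (T t67 (L l18 (L l163 (L l220 (L l347 (L l515 (T t5323 (L l54 (L l351 (T t5324 (K a101 (M a53 (F (T t1333 (L l495 (L l509 (T t5176 N)))))) (K a53 (M a101 (F (T t1333 (L l18 (L l47 (L l347 (T t67 (L l18 (L l35 (L l47 (L l163 (L l220 (L l347 (L l515 (T t5323 (L l54 (L l351 (T t5325 N)))))))))))))))))) N)))))))))))))))))) (K a42 (M a48 (L l54 (F (L l491 (T t225 (T t27 (L l28 (L l491 (T t861 (K a10 (Fr a58 a53 l38 (V t27)) (K a58 (M a10 (F (T t27 (L l311 (L l390 (L l498 (T t231 (L l311 (L l390 (L l426 (L l498 (T t5326 N)))))))))))) N))))))))))) (K a106 (M a12 (F (T t156 (L l18 (T t122 (L l18 (L l501 (T t227 (L l54 (L l132 (L l144 (L l390 (L l408 (T t228 N)))))))))))))) (K a170 (M a240 (F (T t5327 (L l311 (L l390 (T t4223 (L l180 (L l220 (L l491 (T t4221 N)))))))))) (K a255 (M a224 (F (T t233 (L l491 (T t232 (L l18 (L l75 (L l491 (T t234 N))))))))) N))))))))))))))))))))⟩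
def e0_63__197_16 : Ent 4 := ⟨[a0, a63], [a197, a27], (M a85 (F (T t52 (L l236 (L l275 (T t88 (L l275 (T t89 (L l236 (T t90 (K a64 (M a48 (F (T t50 (L l275 (T t568 N))))) (K a192 (M a207 (F (T t2056 (L l73 (L l339 (T t2057 (L l275 (L l296 (L l484 (T t2058 (L l311 (T t5318 N)))))))))))) (K a21 (M a48 (F (T t99 (T t50 (L l47 (L l236 (L l491 (T t100 N)))))))) (K a149 (M a53 (F (L l311 (T t178 (L l220 (L l275 (T t1560 (L l199 (T t2060 N))))))))) (K a213 (Fr a170 a255 l476 (Fr a42 a21 l68 (Fr a106 a234 l390 (Fr a192 a149 l519 (V t581))))) (K a42 (M a48 (F (T t364 (L l390 (T t50 (L l28 (L l236 (L l491 (T t100 N))))))))) (K a106 (M a48 (F (T t99 (L l73 (L l411 (T t3 (L l390 (T t50 N)))))))) (K a170 (M a4 (F (L l464 (T t130 (L l275 (L l390 (T t131 (L l73 (L l390 (L l464 (T t519 (L l464 (T t938 N))))))))))))) (K a255 (M a16 (F (L l311 (T t112 (L l236 (L l289 (L l491 (T t113 (L l275 (L l289 (L l296 (T t98 N)))))))))))) N)))))))))))))))))))⟩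
def e0_63__197_17 : Ent 4 := ⟨[a0, a63], [a197, a31], (M a60 (F (T t69 (L l18 (T t67 (L l17 (T t43 (L l18 (T t68 (K a20 (M a48 (F (T t70 (L l11 (L l18 (L l491 (T t1 (L l11 (L l18 (T t235 N)))))))))) (K a40 (M a48 (F (T t70 (L l18 (L l491 (T t1 (L l18 (L l52 (T t235 N))))))))) (K a21 (M a48 (L l18 (F (T t70 (L l13 (T t248 (L l11 (L l47 (L l65 (L l491 (T t249 (L l13 (L l50 (T t250 (K a16 (M a26 (F (L l47 (L l491 (T t251 (L l11 (T t252 (T t70 N)))))))) (K a26 (Fr a16 a32 l40 (V t253)) N)))))))))))))))) (K a41 (M a192 (F (T t79 (L l18 (L l65 (L l375 (L l491 (T t35 (L l375 (L l491 (T t73 N))))))))))) (K a61 (M a192 (F (T t72 (L l18 (L l65 (L l375 (L l491 (L l515 (T t35 (L l275 (L l373 (T t80 N)))))))))))) (K a22 (M a192 (F (T t72 (L l375 (L l491 (T t21 (L l375 (L l491 (T t73 N))))))))) (K a42 (M a192 (F (T t77 (L l375 (L l491 (T t73 (L l22 (L l375 (L l491 (T t74 N)))))))))) (K a62 (M a192 (F (T t72 (L l18 (L l375 (L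 l491 (T t35 (L l66 (L l275 (L l373 (L l516 (T t80 N)))))))))))) (K a3 (M a149 (F (T t5317 (L l233 (L l275 (T t1256 N)))))) N))))))))))))))))))⟩
def e0_63__197_18 : Ent 4 := ⟨[a0, a63], [a197, a32], (M a60 (F (T t67 (L l24 (L l28 (T t43 (T t68 (L l28 (T t69 (K a20 (M a12 (F (T t398 (L l11 (L l20 (T t122 (L l11 (L l24 (L l46 (T t399 N)))))))))) (K a40 (M a44 (F (T t1375 (L l20 (L l22 (L l28 (T t1376 (T t1377 N)))))))) (K a21 (M a192 (F (T t77 (L l347 (L l491 (T t73 (L l24 (L l347 (L l491 (T t74 N)))))))))) (K a41 (M a192 (F (T t79 (L l65 (L l491 (T t35 (L l491 (T t73 N)))))))) (K a61 (M a192 (F (T t77 (L l65 (L l491 (L l515 (T t35 (L l28 (L l275 (T t80 N)))))))))) (K a22 (M a192 (F (T t77 (L l491 (T t21 (L l491 (T t73 N))))))) (K a42 (M a192 (L l28 (F (T t79 (L l491 (T t73 (L l22 (L l24 (L l491 (T t74 (K a37 (M a47 (F (T t79 (L l376 (L l491 (T t1378 N)))))) (K a47 (M a37 (F (T t79 (L l409 (L l491 (T t73 (L l390 (L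 l411 (T t78 N))))))))) N)))))))))))) (K a62 (M a192 (F (T t77 (L l491 (T t35 (L l28 (L l66 (L l275 (L l516 (T t80 N)))))))))) (K a3 (M a149 (F (T t5317 (L l28 (L l233 (L l275 (T t1256 N))))))) N))))))))))))))))))⟩
def e0_63__197_19 : Ent 4 := ⟨[a0, a63], [a197, a33], (M a85 (F (T t52 (L l236 (L l275 (T t88 (L l275 (T t89 (L l236 (T t90 (K a64 (M a204 (F (T t1744 (L l229 (L l275 (T t1576 N)))))) (K a192 (M a207 (F (T t2056 (L l339 (T t2057 (L l275 (L l296 (L l484 (T t2058 (L l20 (L l339 (T t2059 N)))))))))))) (K a21 (M a48 (F (L l20 (T t99 (T t50 (L l20 (L l47 (L l236 (L l491 (T t100 N)))))))))) (K a149 (M a53 (F (L l311 (T t982 (L l220 (L l275 (T t1560 (L l25 (L l199 (T t2060 N)))))))))) (K a213 (Fr a170 a255 l476 (Fr a42 a21 l68 (Fr a106 a234 l390 (Fr a192 a149 l519 (V t581))))) (K a42 (M a48 (F (T t364 (L l390 (T t50 (L l20 (L l28 (L l236 (L l491 (T t100 N)))))))))) (K a106 (M a48 (F (T t364 (L l411 (T t3 (L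 l390 (T t50 N))))))) (K a170 (M a4 (F (L l464 (T t130 (L l275 (L l390 (T t131 (L l390 (L l464 (T t519 (L l464 (T t938 N)))))))))))) (K a255 (M a16 (F (L l20 (T t504 (L l275 (L l289 (L l296 (T t98 (L l20 (L l236 (L l289 (L l491 (T t113 N))))))))))))) N)))))))))))))))))))⟩
def e0_63__197_20 : Ent 4 := ⟨[a0, a63], [a197, a34], (M a85 (F (T t52 (L l26 (L l236 (L l275 (T t88 (L l26 (L l275 (T t89 (L l236 (L l402 (T t90 (K a64 (M a16 (F (L l20 (T t101 (L l26 (L l116 (L l275 (T t98 (L l20 (L l26 (T t97 N))))))))))) (K a192 (M a207 (F (T t2056 (L l339 (L l402 (T t2057 (L l26 (L l275 (L l296 (L l484 (T t2058 (L l20 (L l26 (L l339 (T t2059 N))))))))))))))) (K a21 (M a48 (F (L l20 (T t99 (L l402 (T t50 (L l20 (L l47 (L l236 (L l491 (T t100 N))))))))))) (K a149 (M a53 (F (L l26 (L l311 (T t982 (L l220 (L l275 (L l402 (T t1560 (L l26 (L l199 (T t2060 N)))))))))))) (K a213 (Fr a170 a255 l476 (Fr a42 a21 l68 (Fr a106 a234 l390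 (Fr a192 a149 l519 (V t581))))) (K a42 (M a46 (F (T t1814 (L l390 (L l402 (T t1389 (L l56 (L l378 (T t1390 (L l236 (L l378 (L l390 (L l402 (T t1391 N)))))))))))))) (K a106 (M a48 (F (T t364 (L l411 (T t3 (L l390 (L l402 (T t50 N)))))))) (K a170 (M a102 (F (L l208 (T t1392 (L l26 (L l229 (L l275 (L l390 (T t1393 (L l208 (L l229 (L l378 (T t1394 (L l26 (L l208 (L l229 (L l236 (L l275 (L l390 (T t1395 N)))))))))))))))))))) (K a255 (M a16 (F (L l20 (L l26 (T t504 (L l20 (L l236 (L l289 (L l491 (T t113 (L l26 (L l275 (L l289 (L l296 (T t98 N))))))))))))))) N))))))))))))))))))))))⟩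
def e0_63__197_21 : Ent 4 := ⟨[a0, a63], [a197, a35], (M a85 (F (T t52 (L l236 (L l275 (T t88 (L l275 (T t89 (L l236 (T t90 (K a64 (M a48 (F (T t50 (L l20 (L l275 (T t568 N)))))) (K a192 (M a207 (F (T t2056 (L l339 (T t2057 (L l275 (L l296 (L l484 (T t2058 (L l20 (L l339 (T t2059 N)))))))))))) (K a21 (M a48 (F (L l20 (T t99 (T t50 (L l20 (L l47 (L l236 (L l491 (T t100 N)))))))))) (K a149 (M a53 (F (L l311 (T t982 (L l220 (L l275 (T t1560 (L l199 (T t2060 N))))))))) (K a213 (Fr a170 a255 l476 (Fr a42 a21 l68 (Fr a106 a234 l390 (Fr a192 a149 l519 (V t581))))) (K a42 (M a48 (F (L l403 (T t364 (L l390 (T t50 (L l20 (L l28 (L l236 (L l491 (T t100 N))))))))))) (K a106 (M a48 (F (L l20 (T t99 (L l27 (L l411 (T t3 (L l390 (T t50 N))))))))) (K a170 (M a4 (F (L l464 (T t130 (L l275 (L l390 (T t131 (L l43 (L l390 (L l464 (T t519 (L l464 (T t938 N))))))))))))) (K a255 (M a16 (F (L l20 (T t504 (L l275 (L l289 (L l296 (T t98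 (L l20 (L l236 (L l289 (L l491 (T t113 N))))))))))))) N)))))))))))))))))))⟩
def e0_63__197_22 : Ent 4 := ⟨[a0, a63], [a197, a37], (M a149 (F (T t177 (L l28 (L l236 (L l275 (T t5 (L l47 (L l236 (T t175 (L l28 (L l275 (T t176 (K a192 (M a29 (L l236 (F (L l28 (T t956 (L l272 (T t641 (L l28 (L l272 (L l275 (L l296 (T t957 (K a202 (M a207 (F (L l28 (T t956 (L l311 (L l484 (T t5328 N))))))) (K a207 (M a202 (F (L l272 (T t641 (L l28 (L l489 (L l511 (T t2091 (L l28 (L l272 (L l275 (L l296 (T t957 N))))))))))))) N)))))))))))))) (K a21 (M a12 (L l47 (F (T t647 (T t648 (L l50 (T t649 (K a5 (M a53 (L l311 (F (T t5329 (L l21 (L l28 (T t4160 (K a69 (M a133 (F (T t959 (L l21 (L l28 (T t4160 N)))))) (K a133 (M a69 (F (T t650 (L l160 (T t5330 N))))) N))))))))) (K a53 (M a5 (F (T t959 (L l51 (L l65 (T t1428 N)))))) N))))))))) (K a85 (M a4 (F (L l28 (T t519 (L l144 (L l229 (T t653 (L l21 (L l28 (L l126 (T t654 N))))))))))) (K a213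 (Fr a106 a192 l519 (Fr a42 a21 l68 (Fr a170 a234 l390 (Fr a255 a85 l476 (V t582))))) (K a42 (M a12 (L l28 (F (L l26 (T t647 (L l390 (T t648 (L l26 (T t649 (K a32 (M a47 (F (L l390 (T t5329 (L l51 (L l54 (L l56 (T t5331 N)))))))) (K a47 (M a32 (F (L l236 (T t991 (L l51 (L l56 (T t682 N))))))) N))))))))))) (K a106 (M a12 (F (L l47 (T t122 (L l408 (T t649 (L l28 (L l275 (L l390 (L l408 (T t960 (L l28 (L l275 (L l390 (T t961 N))))))))))))))) (K a170 (M a12 (F (T t650 (L l47 (L l402 (T t122 (L l390 (T t648 N)))))))) (K a191 (M a12 (F (T t648 (L l28 (L l275 (T t960 N)))))) (K a255 (M a4 (F (T t660 (L l21 (L l28 (T t661 (L l229 (L l290 (T t653 N))))))))) N))))))))))))))))))))))⟩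
def e0_63__197_23 : Ent 4 := ⟨[a0, a63], [a197, a38], (M a85 (F (L l50 (T t52 (L l26 (L l236 (L l275 (T t88 (L l26 (L l275 (T t89 (L l236 (T t90 (K a64 (M a48 (F (T t50 (L l26 (L l275 (T t568 N)))))) (K a192 (M a207 (F (T t2056 (L l339 (T t2057 (L l26 (L l275 (L l296 (L l484 (T t2058 (L l50 (T t5320 N)))))))))))) (K a21 (M a48 (L l50 (F (T t99 (T t50 (L l47 (L l236 (L l491 (T t100 (K a4 (M a55 (F (T t99 (L l46 (T t1743 N))))) (K a55 (M a4 (F (T t99 (L l15 (L l421 (T t130 N)))))) N))))))))))) (K a149 (M a53 (F (L l26 (L l311 (T t982 (L l220 (L l275 (T t1560 (L l21 (L l26 (L l199 (T t2060 N)))))))))))) (K a213 (Fr a170 a255 l476 (Fr a42 a21 l68 (Fr a106 a234 l390 (Fr a192 a149 l519 (V t581))))) (K a42 (M a46 (F (L l56 (T t1390 (L l390 (T t1389 (L l56 (T t1388 (L l50 (L l236 (L l390 (T t1391 N)))))))))))) (K a106 (M a48 (F (T t99 (L l50 (L l411 (T t3 (L l390 (T t50 N)))))))) (K a170 (M a48 (F (L l50 (T t3 (L l26 (L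 l206 (L l220 (L l236 (L l275 (L l311 (L l390 (T t3747 (L l236 (L l404 (L l491 (T t100 N)))))))))))))))) (K a255 (M a16 (F (L l26 (T t504 (L l236 (L l289 (L l491 (T t113 (L l26 (L l275 (L l289 (L l296 (T t98 N))))))))))))) N))))))))))))))))))))))⟩
def e0_63__197_24 : Ent 4 := ⟨[a0, a63], [a197, a39], (M a85 (F (T t52 (L l236 (L l275 (T t88 (L l275 (T t89 (L l236 (T t90 (K a64 (M a48 (F (T t50 (L l275 (T t568 N))))) (K a192 (M a207 (F (T t2056 (L l73 (L l339 (T t2057 (L l275 (L l296 (L l484 (T t2058 (L l73 (L l339 (T t2059 N))))))))))))) (K a21 (M a48 (F (T t99 (T t50 (L l47 (L l236 (L l491 (T t100 N)))))))) (K a149 (M a53 (F (L l311 (T t178 (L l220 (L l275 (T t1560 (L l21 (L l199 (L l387 (T t2060 N))))))))))) (K a213 (Fr a170 a255 l476 (Fr a42 a21 l68 (Fr a106 a234 l390 (Fr a192 a149 l519 (V t581))))) (K a42 (M a48 (F (T t364 (L l390 (T t50 (L l28 (L l236 (L l491 (T t100 N))))))))) (K a106 (M a48 (F (T t99 (L l27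 (L l73 (L l411 (T t3 (L l390 (T t50 N))))))))) (K a170 (M a4 (F (L l464 (T t130 (L l275 (L l390 (T t131 (L l49 (L l73 (L l390 (L l464 (T t519 (L l464 (T t938 N)))))))))))))) (K a255 (M a16 (F (T t504 (L l236 (L l289 (L l491 (T t113 (L l275 (L l289 (L l296 (T t98 N))))))))))) N)))))))))))))))))))⟩
def e0_63__197_25 : Ent 4 := ⟨[a0, a63], [a197, a43], (M a149 (F (L l236 (T t175 (L l22 (L l275 (T t25 (L l22 (L l275 (T t176 (L l393 (T t177 (K a192 (M a29 (L l236 (F (L l22 (T t956 (L l272 (T t641 (L l22 (L l272 (L l275 (L l296 (T t957 (K a202 (M a207 (F (L l22 (T t1748 (L l311 (L l484 (T t5328 N))))))) (K a207 (M a202 (F (L l272 (T t641 (L l22 (L l489 (L l511 (T t2091 (L l22 (L l272 (L l275 (L l296 (T t957 N))))))))))))) N)))))))))))))) (K a21 (M a240 (F (L l236 (T t1834 (L l393 (T t1091 (L l311 (T t1207 N)))))))) (K a85 (M a16 (F (L l22 (T t97 (L l144 (L l393 (T t190 (L l22 (L l94 (T t278 N)))))))))) (K a213 (Fr a106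 a192 l519 (Fr a42 a21 l68 (Fr a170 a234 l390 (Fr a255 a85 l476 (V t582))))) (K a42 (M a40 (F (L l236 (T t973 (L l390 (L l393 (T t974 (L l66 (L l233 (L l391 (T t969 (L l390 (L l391 (L l393 (T t972 N))))))))))))))) (K a106 (M a169 (F (L l142 (T t981 (L l22 (L l275 (L l390 (T t977 (L l142 (L l391 (T t978 (L l22 (L l142 (L l275 (L l390 (T t979 N)))))))))))))))) (K a170 (M a12 (F (T t650 (L l402 (T t122 (L l390 (L l393 (T t648 N)))))))) (K a191 (M a16 (F (L l22 (T t97 (L l393 (T t190 (L l22 (L l213 (L l275 (T t191 N)))))))))) (K a255 (M a16 (F (L l22 (T t504 (L l266 (L l393 (T t190 (L l22 (L l275 (L l289 (L l296 (T t191 N)))))))))))) N)))))))))))))))))))))⟩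
def e0_63__197_26 : Ent 4 := ⟨[a0, a63], [a197, a47], (M a60 (F (T t68 (L l27 (T t67 (L l28 (T t43 (L l28 (T t69 (K a20 (M a48 (F (T t70 (L l28 (L l311 (T t2 (L l28 (L l46 (T t287 N))))))))) (K a40 (M a48 (F (T t70 (L l22 (L l28 (L l311 (T t2 (L l22 (L l28 (T t287 N)))))))))) (K a21 (M a192 (F (T t72 (L l347 (L l409 (L l491 (T t73 (L l347 (L l491 (T t74 N)))))))))) (K a41 (M a192 (F (T t79 (L l65 (L l491 (T t35 (L l409 (L l491 (T t73 N))))))))) (K a61 (M a192 (F (T t72 (L l65 (L l491 (L l515 (T t35 (L l28 (L l275 (L l411 (T t80 N))))))))))) (K a22 (M a192 (F (T t72 (L l491 (T t21 (L l409 (L l491 (T t73 N)))))))) (K a42 (M a48 (L l28 (F (L l22 (T t247 (L l491 (T t64 (L l23 (L l56 (L l491 (T t288 (L l22 (L l54 (L l66 (T t289 (K a32 (M a37 (F (L l54 (T t290 (L l66 (T t291 (L l491 (T t64 N)))))))) (K a37 (Fr a32 a16 l40 (V t292)) N))))))))))))))))) (K a62 (M a192 (F (T t72 (L l491 (T t35 (L l28 (L l66 (L l275 (L l411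 (L l516 (T t80 N))))))))))) (K a3 (M a192 (F (T t2658 (L l475 (L l491 (T t35 (L l307 (L l409 (L l491 (T t73 N)))))))))) N))))))))))))))))))⟩
def e0_63__197_27 : Ent 4 := ⟨[a0, a63], [a197, a48], (M a60 (F (T t116 (L l45 (T t67 (L l45 (T t43 (L l45 (T t68 (L l45 (T t69 (K a20 (M a12 (F (T t570 (L l11 (L l30 (T t122 (L l11 (L l46 (T t399 N))))))))) (K a40 (M a12 (F (T t150 (L l75 (T t398 (L l24 (T t399 N))))))) (K a21 (M a192 (F (T t81 (L l11 (L l436 (T t79 (L l347 (L l491 (T t74 N))))))))) (K a41 (M a192 (F (T t81 (L l436 (T t79 (L l65 (L l440 (L l491 (T t35 N))))))))) (K a61 (M a192 (F (T t1334 (L l65 (L l440 (L l491 (L l515 (T t35 (L l275 (T t80 N)))))))))) (K a22 (M a192 (F (T t2658 (L l440 (L l491 (T t21 (L l488 (L l491 (T t73 N))))))))) (K a42 (M a192 (F (T t1334 (L l488 (L l491 (T t73 (L l22 (L l491 (T t74 N))))))))) (K a62 (M a192 (F (T t2658 (L l440 (L l491 (T t35 (L l66 (L l275 (L l516 (T t80 N))))))))))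 (K a3 (M a84 (L l45 (F (T t1414 (L l275 (T t1415 (L l236 (L l275 (L l309 (L l477 (L l484 (T t4859 (K a33 (M a18 (F (T t1414 (L l70 (T t1417 N))))) (K a18 (M a33 (F (T t1414 (L l70 (T t1418 N))))) N)))))))))))))) N))))))))))))))))))))⟩
def e0_63__197_28 : Ent 4 := ⟨[a0, a63], [a197, a49], (M a85 (F (T t52 (L l236 (L l275 (T t88 (L l275 (T t89 (L l236 (T t90 (K a64 (M a16 (F (T t97 (L l236 (T t259 (L l116 (L l275 (T t98 N)))))))) (K a192 (M a207 (F (T t5332 (L l339 (T t2057 (L l275 (L l296 (L l484 (T t2058 (L l339 (L l437 (T t2059 N)))))))))))) (K a21 (M a48 (F (T t99 (L l437 (T t50 (L l35 (L l47 (L l236 (L l491 (T t100 N)))))))))) (K a149 (M a53 (F (L l311 (T t982 (L l220 (L l275 (T t1560 (L l71 (L l199 (L l437 (T t2060 N))))))))))) (K a213 (Fr a170 a255 l476 (Fr a42 a21 l68 (Fr a106 a234 l390 (Fr a192 a149 l519 (V t581))))) (K a42 (M a48 (F (T t365 (L l390 (L l437 (T t50 (L l28 (L l35 (L l236 (L l491 (T t100 N)))))))))))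 (K a106 (M a48 (F (T t99 (L l411 (T t3 (L l390 (L l437 (T t50 N)))))))) (K a170 (M a4 (F (L l464 (T t130 (L l275 (L l390 (T t131 (L l30 (L l390 (L l464 (T t519 (L l464 (T t938 N))))))))))))) (K a255 (M a16 (F (T t504 (L l35 (L l236 (L l289 (L l491 (T t113 (L l275 (L l289 (L l296 (T t98 N)))))))))))) N)))))))))))))))))))⟩
def e0_63__197_29 : Ent 4 := ⟨[a0, a63], [a197, a50], (M a85 (F (T t52 (L l236 (L l275 (T t88 (L l275 (T t89 (L l236 (T t90 (K a64 (M a48 (F (T t50 (L l275 (T t568 N))))) (K a192 (M a207 (F (T t5332 (L l339 (T t2057 (L l275 (L l296 (L l484 (T t2058 (L l36 (L l311 (L l510 (T t5318 N))))))))))))) (K a21 (M a48 (F (L l438 (T t99 (T t50 (L l47 (L l236 (L l491 (T t100 N))))))))) (K a149 (M a53 (F (L l36 (L l311 (T t982 (L l36 (L l220 (L l275 (L l438 (T t1560 (L l199 (T t2060 N)))))))))))) (K a213 (Fr a170 a255 l476 (Fr a42 a21 l68 (Fr a106 a234 l390 (Fr a192 a149 l519 (V t581))))) (K a42 (M a48 (F (T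 t364 (L l390 (T t50 (L l28 (L l236 (L l491 (T t100 N))))))))) (K a106 (M a48 (F (T t364 (L l411 (T t3 (L l390 (T t50 N))))))) (K a170 (M a4 (F (L l464 (T t130 (L l275 (L l390 (T t131 (L l30 (L l390 (L l464 (T t519 (L l464 (T t938 N))))))))))))) (K a255 (M a16 (F (L l469 (T t97 (L l236 (L l289 (L l491 (T t113 (L l275 (L l289 (L l296 (T t98 N)))))))))))) N)))))))))))))))))))⟩
def e0_63__197_30 : Ent 4 := ⟨[a0, a63], [a197, a51], (M a60 (F (T t116 (L l43 (T t67 (L l43 (T t43 (L l43 (T t68 (L l43 (T t69 (K a20 (M a85 (F (T t4539 (L l441 (T t114 (L l233 (L l275 (T t1344 N)))))))) (K a40 (M a85 (F (L l439 (T t52 (L l392 (L l441 (T t114 (L l22 (L l233 (L l275 (T t1344 N))))))))))) (K a21 (M a192 (F (T t81 (L l11 (L l441 (T t79 (L l347 (L l491 (T t74 N))))))))) (K a41 (M a192 (F (T t81 (L l441 (T t79 (L l65 (L l439 (L l491 (T t35 N))))))))) (K a61 (M a192 (F (T t1334 (L l65 (L l439 (L l491 (L l515 (T t35 (L l275 (T t80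 N)))))))))) (K a22 (M a192 (F (T t2658 (L l439 (L l491 (T t21 (L l487 (L l491 (T t73 N))))))))) (K a42 (M a192 (F (T t1334 (L l487 (L l491 (T t73 (L l22 (L l491 (T t74 N))))))))) (K a62 (M a192 (F (T t2658 (L l439 (L l491 (T t35 (L l66 (L l275 (L l516 (T t80 N)))))))))) (K a3 (M a149 (L l43 (F (T t5317 (L l233 (L l275 (T t1256 (K a19 (M a35 (F (T t5314 (L l236 (L l275 (L l309 (L l489 (T t424 (L l233 (T t462 N)))))))))) (K a35 (M a19 (F (T t5314 (L l236 (L l275 (L l309 (L l489 (T t424 (L l233 (T t462 N)))))))))) N))))))))) N))))))))))))))))))))⟩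
def e0_63__197_31 : Ent 4 := ⟨[a0, a63], [a197, a53], (M a149 (F (T t177 (L l236 (L l275 (T t5 (L l47 (L l236 (T t175 (L l275 (T t176 (K a192 (M a29 (L l236 (F (T t956 (L l272 (T t641 (L l272 (L l275 (L l296 (T t957 (K a202 (M a207 (F (T t956 (L l311 (L l484 (T t5328 N)))))) (K a207 (M a202 (F (T t956 (L l272 (T t641 (L l272 (L l275 (L l296 (T t957 N))))))))) N)))))))))))) (K a21 (M a204 (L l47 (F (T t1046 (T t1283 (T t1044 (K a5 (M a37 (L l311 (F (T t1046 (T t1283 (T t1044 (K a69 (M a133 (F (T t1283 (L l329 (L l419 (T t1791 N)))))) (K a133 (M a69 (F (T t1046 (L l5 (L l65 (L l160 (T t5333 N))))))) N)))))))) (K a37 (M a5 (F (T t1283 (T t5334 N)))) N)))))))) (K a85 (M a4 (F (L l31 (T t519 (L l144 (L l229 (T t653 (L l126 (T t654 N))))))))) (K a213 (Fr a106 a192 l519 (Fr a42 a21 l68 (Fr a170 a234 l390 (Fr a255 a85 l476 (V t582))))) (K a42 (M a240 (F (L l311 (T t2299 (L l390 (T t1091 (L l311 (T t1207 N)))))))) (K a106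 (M a12 (F (L l47 (T t122 (L l408 (T t649 (L l275 (L l390 (L l408 (T t960 (L l275 (L l390 (T t961 N))))))))))))) (K a170 (M a12 (F (T t650 (L l47 (L l402 (T t122 (L l390 (T t648 N)))))))) (K a191 (M a60 (F (T t463 (L l233 (L l275 (T t1256 N)))))) (K a255 (M a208 (F (T t1832 (T t1833 (L l440 (T t1277 N)))))) N))))))))))))))))))))⟩
def e0_63__197_32 : Ent 4 := ⟨[a0, a63], [a197, a54], (M a85 (F (T t52 (L l236 (L l275 (T t88 (L l275 (T t89 (L l236 (T t90 (K a64 (M a16 (F (T t97 (L l236 (T t259 (L l116 (L l275 (T t98 N)))))))) (K a192 (M a207 (F (T t2056 (L l339 (T t2057 (L l275 (L l296 (L l484 (T t2058 (L l339 (T t2059 N))))))))))) (K a21 (M a48 (F (T t99 (T t50 (L l31 (L l47 (L l236 (L l491 (T t100 N))))))))) (K a149 (M a53 (F (L l36 (L l311 (T t982 (L l36 (L l220 (L l275 (T t1560 (L l199 (T t2060 N))))))))))) (K a213 (Fr a170 a255 l476 (Fr a42 a21 l68 (Fr a106 a234 l390 (Fr a192 a149 l519 (V t581))))) (K a42 (M a48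 (F (T t364 (L l390 (T t50 (L l28 (L l31 (L l236 (L l491 (T t100 N)))))))))) (K a106 (M a48 (F (T t99 (L l411 (T t3 (L l390 (T t50 N))))))) (K a170 (M a4 (F (L l464 (T t130 (L l275 (L l390 (T t131 (L l31 (L l39 (L l390 (L l464 (T t519 (L l464 (T t938 N)))))))))))))) (K a255 (M a16 (F (L l469 (T t97 (L l31 (L l236 (L l289 (L l491 (T t113 (L l275 (L l289 (L l296 (T t98 N))))))))))))) N)))))))))))))))))))⟩
def e0_63__197_33 : Ent 4 := ⟨[a0, a63], [a197, a55], (M a60 (F (T t69 (L l50 (T t67 (L l49 (T t43 (L l50 (T t68 (K a20 (M a48 (F (T t0 (L l31 (L l491 (T t64 (L l11 (L l49 (L l50 (T t235 N)))))))))) (K a40 (M a48 (F (L l31 (L l491 (T t64 (L l22 (L l311 (T t2 (L l49 (L l50 (L l52 (T t235 N)))))))))))) (K a21 (M a12 (L l50 (F (T t680 (L l31 (T t409 (L l11 (L l15 (L l65 (T t1665 (L l18 (L l31 (T t2437 (K a4 (M a38 (F (L l15 (T t1669 (L l11 (T t2438 (L l18 (T t402 N)))))))) (K a38 (Fr a4 a8 l4 (V t1671)) N)))))))))))))))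 (K a41 (M a192 (F (T t79 (L l50 (L l65 (L l491 (L l495 (T t35 (L l491 (L l495 (T t73 N))))))))))) (K a61 (M a192 (F (T t72 (L l50 (L l65 (L l491 (L l495 (L l515 (T t35 (L l275 (L l493 (T t80 N)))))))))))) (K a22 (M a192 (F (T t72 (L l491 (L l495 (T t21 (L l491 (L l495 (T t73 N))))))))) (K a42 (M a192 (F (T t77 (L l491 (L l495 (T t73 (L l22 (L l491 (L l495 (T t74 N)))))))))) (K a62 (M a192 (F (T t72 (L l50 (L l491 (L l495 (T t35 (L l66 (L l275 (L l493 (L l516 (T t80 N)))))))))))) (K a3 (M a149 (F (T t5317 (L l233 (L l275 (T t1256 N)))))) N))))))))))))))))))⟩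
def e0_63__197_34 : Ent 4 := ⟨[a0, a63], [a197, a58], (M a12 (F (T t122 (L l54 (T t151 (L l32 (T t152 (L l54 (T t153 (K a4 (M a60 (F (T t398 (L l46 (L l50 (T t67 (L l54 (T t448 N)))))))) (K a8 (M a60 (F (T t398 (T t67 (L l52 (L l54 (L l56 (T t448 N)))))))) (K a21 (M a192 (F (T t836 (L l15 (L l347 (L l491 (T t450 (L l15 (L l347 (L l491 (T t157 N))))))))))) (K a25 (M a192 (F (T t449 (L l15 (L l491 (T t450 (L l491 (T t21 N)))))))) (K a29 (M a192 (F (T t449 (L l371 (L l491 (T t21 (L l54 (L l275 (L l498 (T t160 N)))))))))) (K a38 (M a192 (F (T t156 (L l491 (T t450 (L l491 (T t21 N))))))) (K a42 (M a192 (L l54 (F (T t449 (L l491 (T t450 (L l56 (L l491 (T t157 (K a10 (M a26 (F (T t156 (L l491 (T t450 (L l390 (L l498 (T t681 N)))))))) (K a26 (M a10 (F (T t156 (L l28 (L l311 (L l390 (L l498 (T t1444 N)))))))) N))))))))))) (K a46 (M a192 (F (T t449 (L l491 (T t21 (L l26 (L l54 (L l275 (L l408 (L l498 (T t160 N)))))))))))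 (K a51 (M a192 (F (T t1725 (L l415 (L l491 (T t450 (L l439 (L l491 (T t21 N))))))))) N))))))))))))))))))⟩
def e0_63__197_35 : Ent 4 := ⟨[a0, a63], [a197, a59], (M a60 (F (T t68 (L l55 (T t67 (L l56 (T t43 (L l56 (T t69 (K a20 (M a48 (F (L l32 (T t70 (L l11 (L l491 (T t1 (L l46 (L l55 (L l56 (T t71 N))))))))))) (K a40 (M a48 (F (L l32 (T t70 (L l491 (T t1 (L l22 (L l24 (L l55 (L l56 (T t71 N))))))))))) (K a21 (M a192 (F (T t72 (L l347 (L l491 (L l499 (T t73 (L l347 (L l491 (T t74 N)))))))))) (K a41 (M a192 (F (T t79 (L l65 (L l491 (T t35 (L l491 (L l499 (T t73 N))))))))) (K a61 (M a192 (F (T t72 (L l65 (L l491 (L l515 (T t35 (L l56 (L l275 (L l501 (T t80 N))))))))))) (K a22 (M a192 (F (T t72 (L l491 (T t21 (L l491 (L l499 (T t73 N)))))))) (K a42 (M a12 (L l56 (F (T t398 (L l22 (T t417 (L l28 (L l32 (T t2440 (L l22 (L l26 (L l66 (T t2441 (K a8 (M a25 (F (L l26 (T t2442 (L l66 (T t2443 (T t398 N))))))) (K a25 (Fr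 a8 a4 l4 (V t2444)) N))))))))))))))) (K a62 (M a192 (F (T t72 (L l491 (T t35 (L l56 (L l66 (L l275 (L l501 (L l516 (T t80 N))))))))))) (K a3 (M a192 (F (T t2658 (L l475 (L l491 (T t35 (L l307 (L l491 (L l499 (T t73 N)))))))))) N))))))))))))))))))⟩
def e0_63__197_36 : Ent 4 := ⟨[a0, a63], [a197, a64], (M a12 (F (T t122 (T t151 (T t152 (T t153 (K a4 (M a60 (F (T t43 (T t398 (T t448 N))))) (K a8 (M a60 (F (T t67 (T t398 (L l52 (L l56 (T t448 N))))))) (K a21 (M a89 (F (T t2755 (L l80 (L l236 (T t870 (L l50 (T t864 N)))))))) (K a25 (M a48 (F (T t550 (L l15 (L l491 (T t1 (L l12 (L l56 (L l311 (T t866 N)))))))))) (K a29 (M a48 (F (T t550 (L l15 (L l491 (T t1 (L l311 (T t866 N)))))))) (K a38 (M a48 (F (T t1580 (L l26 (L l311 (T t2 (L l21 (L l50 (L l491 (T t868 N)))))))))) (K a42 (M a89 (F (T t3370 (T t863 (L l26 (T t864 N)))))) (K a46 (M a48 (F (T t443 (L l491 (T t1 (L l26 (L l311 (T t866 N)))))))) (K a51 (M a16 (F (T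 t504 (L l39 (T t871 (T t872 N)))))) N)))))))))))))))⟩
def e0_63__197_37 : Ent 4 := ⟨[a0, a63], [a197, a65], (M a60 (F (T t67 (T t43 (T t68 (L l305 (T t69 (K a20 (M a48 (F (T t70 (L l11 (L l491 (T t1 (L l11 (T t235 N)))))))) (K a40 (M a48 (F (T t70 (L l491 (T t1 (L l52 (T t235 N))))))) (K a21 (M a192 (F (T t72 (L l347 (L l491 (T t73 (L l347 (L l491 (T t74 N))))))))) (K a41 (M a192 (F (T t77 (L l65 (L l491 (T t35 (L l491 (T t73 N)))))))) (K a61 (M a192 (F (T t72 (L l65 (L l491 (L l515 (T t35 (L l275 (T t80 N))))))))) (K a22 (M a192 (F (T t72 (L l491 (T t21 (L l491 (T t73 N))))))) (K a42 (M a192 (F (T t77 (L l491 (T t73 (L l22 (L l491 (T t74 N)))))))) (K a62 (M a192 (F (T t72 (L l491 (T t35 (L l66 (L l275 (L l516 (T t80 N))))))))) (K a3 (M a85 (F (T t447 (L l275 (T t115 N))))) N))))))))))))))))⟩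
def e0_63__197_38 : Ent 4 := ⟨[a0, a63], [a197, a66], (M a48 (F (T t3 (L l491 (T t1 (L l311 (T t2 (T t0 (K a16 (M a60 (F (T t70 (L l14 (L l18 (L l309 (T t67 (L l311 (T t65 N))))))))) (K a32 (M a60 (F (T t70 (L l309 (T t67 (L l24 (L l28 (L l311 (T t65 N))))))))) (K a21 (M a192 (F (T t27 (L l347 (L l491 (T t225 (L l347 (L l491 (T t861 N))))))))) (K a37 (M a192 (F (T t19 (L l491 (T t225 (L l491 (T t21 N))))))) (K a53 (M a149 (F (L l275 (T t25 (L l142 (T t13 (L l275 (T t26 N)))))))) (K a26 (M a192 (F (T t28 (L l491 (T t225 (L l491 (T t21 N))))))) (K a42 (M a192 (F (T t27 (L l491 (T t225 (L l28 (L l491 (T t861 N)))))))) (K a58 (M a192 (F (T t19 (L l491 (T t21 (L l54 (L l142 (L l275 (L l498 (T t31 N)))))))))) (K a15 (M a192 (F (T t55 (L l325 (L l491 (T t225 (L l469 (L l491 (T t21 N))))))))) N)))))))))))))))))⟩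
def e0_63__197_39 : Ent 4 := ⟨[a0, a63], [a197, a67], (M a48 (F (T t3 (L l491 (T t1 (L l311 (T t2 (T t0 (K a16 (M a60 (F (T t70 (L l14 (L l18 (L l307 (T t67 (L l311 (T t65 N))))))))) (K a32 (M a60 (F (T t70 (L l307 (T t67 (L l24 (L l28 (L l311 (T t65 N))))))))) (K a21 (M a192 (F (T t28 (L l347 (L l491 (T t225 (L l143 (L l347 (L l491 (T t861 N)))))))))) (K a37 (M a192 (F (T t19 (L l491 (T t225 (L l143 (L l491 (T t21 N)))))))) (K a53 (M a149 (F (L l275 (T t25 (L l121 (T t13 (L l275 (T t26 N)))))))) (K a26 (M a192 (F (T t28 (L l491 (T t225 (L l143 (L l491 (T t21 N)))))))) (K a42 (M a192 (F (T t19 (L l491 (T t225 (L l28 (L l143 (L l491 (T t861 N))))))))) (K a58 (M a192 (F (T t19 (L l143 (L l491 (T t21 (L l54 (L l275 (L l498 (T t31 N)))))))))) (K a15 (M a192 (F (T t36 (L l325 (L l491 (T t225 (L l143 (L l469 (L l491 (T t21 N)))))))))) N)))))))))))))))))⟩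
def e0_63__197_40 : Ent 4 := ⟨[a0, a63], [a197, a69], (M a85 (L l311 (F (T t52 (L l84 (L l236 (L l275 (T t88 (L l84 (L l275 (T t89 (L l84 (L l236 (T t90 (K a64 (M a5 (L l84 (F (T t1612 (L l116 (L l275 (T t1582 (T t1583 (K a74 (M a79 (F (L l318 (T t1612 (L l116 (L l275 (T t1584 (L l130 (T t1583 N))))))))) (K a79 (M a74 (F (T t1612 (L l151 (L l275 (T t1641 (T t1583 N))))))) N)))))))))) (K a192 (M a5 (L l236 (F (T t1642 (L l484 (L l491 (T t1110 (T t1583 (K a202 (M a207 (F (L l318 (T t1612 (L l275 (L l296 (T t1584 (L l275 (L l296 (L l484 (T t1643 N))))))))))) (K a207 (M a202 (F (T t1642 (L l484 (L l491 (L l512 (T t1110 (T t1583 N)))))))) N)))))))))) (K a21 (M a60 (L l311 (F (T t936 (T t114 (L l65 (T t523 (K a5 (M a133 (L l47 (F (T t1400 (T t114 (L l65 (T t523 (K a37 (M a53 (F (T t936 (L l50 (L l71 (T t937 N)))))) (K a53 (M a37 (L l491 (F (T t1400 (T t114 (L l35 (L l65 (T t523 (K a149 (M a101 (F (L l220 (T t114 (L l229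 (L l236 (L l314 (T t1644 N)))))))) (K a101 (M a149 (F (T t1645 (L l81 (L l101 (L l419 (T t1323 N))))))) N)))))))))) N))))))))) (K a133 (M a5 (F (T t1401 (L l18 (L l275 (T t1402 N)))))) N))))))))) (K a149 (M a5 (L l491 (F (T t1612 (L l275 (T t1582 (L l199 (T t1583 (K a101 (M a53 (F (T t1646 (L l151 (L l275 (L l375 (T t1641 N))))))) (K a53 (M a101 (F (T t1647 (L l275 (L l419 (T t1582 (L l275 (L l419 (T t1648 (L l275 (L l375 (L l419 (T t1649 N))))))))))))) N)))))))))) (K a213 (Fr a170 a255 l476 (Fr a42 a21 l68 (Fr a106 a234 l390 (Fr a192 a149 l519 (V t581))))) (K a42 (M a12 (L l311 (F (L l56 (T t1368 (L l390 (T t124 (L l56 (T t574 (K a5 (M a133 (F (L l56 (T t1366 (L l390 (T t124 (L l56 (T t574 N)))))))) (K a133 (M a5 (F (L l56 (T t1601 (L l54 (L l275 (T t1402 N))))))) N))))))))))) (K a106 (M a5 (F (L l275 (T t1582 (L l390 (L l491 (T t1110 (L l130 (L l390 (L l411 (T t1583 (L l275 (L l411 (T t1602 N)))))))))))))) (K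 a170 (M a4 (L l311 (F (L l464 (T t130 (L l77 (L l275 (L l390 (T t131 (L l390 (L l464 (T t519 (L l464 (T t938 (K a5 (M a133 (F (L l464 (T t130 (L l77 (L l275 (L l390 (T t131 (L l390 (L l464 (T t519 (L l464 (T t938 N))))))))))))) (K a133 (M a5 (F (L l275 (T t1603 (L l390 (L l464 (T t519 N))))))) N)))))))))))))))) (K a255 (M a5 (F (T t1612 (L l266 (L l275 (T t1402 (L l266 (L l275 (T t1650 (L l275 (L l296 (T t1651 (K a10 (Fr a165 a245 l455 (Fr a21 a42 l68 (Fr a37 a53 l47 (Fr a149 a213 l347 (Fr a229 a101 l383 (V t1683)))))) N))))))))))))) (K a5 (M a133 (F (L l47 (T t52 (L l84 (L l236 (T t1653 (L l275 (T t1654 (L l275 (T t1655 (L l275 (T t1656 (L l84 (L l275 (T t1657 (K a149 (M a48 (L l491 (F (L l47 (T t3 (L l220 (T t50 (L l47 (L l170 (T t1658 (K a101 (Fr a53 a58 l38 (V t1659)) (K a53 (M a101 (L l47 (F (T t1660 (T t1661 (L l170 (L l220 (L l375 (T t1662 (K a21 (M a37 (F (T t1663 (L l236 (L l275 (T t1664 N)))))) (K a37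 (Fr a21 a42 l68 (V t1663)) N))))))))))) N)))))))))))) (K a170 (M a4 (F (L l464 (T t130 (L l77 (L l275 (L l390 (T t131 (L l390 (L l464 (T t519 (L l464 (T t938 N))))))))))))) N)))))))))))))))))) (K a133 (M a5 (F (T t52 (T t1612 (L l275 (T t1582 N)))))) N)))))))))))))))))))))))))⟩
def e0_63__197_41 : Ent 4 := ⟨[a0, a63], [a197, a70], (M a85 (F (T t52 (L l236 (L l275 (T t88 (L l275 (T t89 (L l236 (T t90 (K a64 (M a16 (F (T t97 (L l236 (T t259 (L l116 (L l275 (T t98 N)))))))) (K a192 (M a207 (F (L l330 (T t2056 (L l339 (T t2057 (L l275 (L l296 (L l330 (L l484 (T t2058 (L l330 (L l339 (T t2059 N)))))))))))))) (K a21 (M a48 (F (T t99 (T t50 (L l47 (L l236 (L l491 (T t100 N)))))))) (K a149 (M a53 (F (L l311 (T t982 (L l220 (L l275 (T t1560 (L l199 (T t2060 N))))))))) (K a213 (Fr a170 a255 l476 (Fr a42 a21 l68 (Fr a106 a234 l390 (Fr a192 a149 l519 (V t581))))) (K a42 (M a48 (F (T t364 (L l390 (T t50 (L l28 (L l236 (L l491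 (T t100 N))))))))) (K a106 (M a48 (F (T t99 (L l411 (T t3 (L l390 (T t50 N))))))) (K a170 (M a4 (F (L l464 (T t130 (L l77 (L l275 (L l390 (T t131 (L l390 (L l464 (T t519 (L l464 (T t938 N))))))))))))) (K a255 (M a16 (F (T t504 (L l236 (L l289 (L l491 (T t113 (L l275 (L l289 (L l296 (T t98 N))))))))))) N)))))))))))))))))))⟩
def e0_63__197_42 : Ent 4 := ⟨[a0, a63], [a197, a71], (M a85 (F (T t52 (L l236 (L l275 (T t88 (L l275 (T t89 (L l236 (T t90 (K a64 (M a204 (F (T t1744 (L l125 (L l229 (L l275 (T t1576 N))))))) (K a192 (M a207 (F (T t2056 (L l339 (T t2057 (L l275 (L l296 (L l484 (T t2058 (L l339 (T t2059 N))))))))))) (K a21 (M a48 (F (T t99 (T t50 (L l47 (L l236 (L l491 (T t100 N)))))))) (K a149 (M a53 (F (L l311 (T t982 (L l220 (L l275 (T t1560 (L l199 (T t2060 N))))))))) (K a213 (Fr a170 a255 l476 (Fr a42 a21 l68 (Fr a106 a234 l390 (Fr a192 a149 l519 (V t581))))) (K a42 (M a48 (F (T t364 (L l390 (T t50 (L l28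 (L l236 (L l491 (T t100 N))))))))) (K a106 (M a48 (F (T t99 (L l411 (T t3 (L l390 (T t50 N))))))) (K a170 (M a4 (F (L l464 (T t130 (L l77 (L l275 (L l390 (T t131 (L l390 (L l464 (T t519 (L l464 (T t938 N))))))))))))) (K a255 (M a16 (F (T t504 (L l236 (L l289 (L l491 (T t113 (L l275 (L l289 (L l296 (T t98 N))))))))))) N)))))))))))))))))))⟩
def e0_63__197_43 : Ent 4 := ⟨[a0, a63], [a197, a74], (M a12 (F (T t122 (T t151 (T t152 (T t153 (K a4 (M a60 (F (T t43 (L l336 (L l339 (T t398 (T t448 N))))))) (K a8 (M a60 (F (T t67 (L l336 (L l339 (T t398 (L l52 (L l56 (T t448 N))))))))) (K a21 (M a192 (F (T t156 (L l15 (L l347 (L l491 (T t450 (L l15 (L l347 (L l491 (T t157 N))))))))))) (K a25 (M a192 (F (T t156 (L l15 (L l491 (T t450 (L l491 (T t21 N)))))))) (K a29 (M a192 (F (T t156 (L l371 (L l491 (T t21 (L l78 (L l130 (L l275 (T t160 N)))))))))) (K a38 (M a192 (F (T t156 (L l491 (T t450 (L l491 (T t21 N))))))) (K a42 (M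 a192 (F (T t156 (L l491 (T t450 (L l56 (L l491 (T t157 N)))))))) (K a46 (M a192 (F (T t156 (L l491 (T t21 (L l26 (L l78 (L l130 (L l275 (L l408 (T t160 N))))))))))) (K a51 (M a192 (F (T t159 (L l415 (L l491 (T t450 (L l439 (L l491 (T t21 N))))))))) N)))))))))))))))⟩
def e0_63__197_44 : Ent 4 := ⟨[a0, a63], [a197, a75], (M a85 (F (T t52 (L l236 (L l275 (T t88 (L l275 (T t89 (L l236 (T t90 (K a64 (M a48 (F (T t50 (L l275 (T t568 N))))) (K a192 (M a207 (F (T t2056 (L l337 (L l339 (T t2057 (L l275 (L l296 (L l484 (T t2058 (L l337 (L l339 (T t2059 N))))))))))))) (K a21 (M a48 (F (T t99 (T t50 (L l47 (L l236 (L l491 (T t100 N)))))))) (K a149 (M a53 (F (L l311 (T t178 (L l220 (L l275 (T t1560 (L l199 (T t2060 N))))))))) (K a213 (Fr a170 a255 l476 (Fr a42 a21 l68 (Fr a106 a234 l390 (Fr a192 a149 l519 (V t581))))) (K a42 (M a48 (F (T t364 (L l390 (T t50 (L l28 (L l236 (L l491 (T t100 N))))))))) (K a106 (M a48 (F (T t99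 (L l337 (L l411 (T t3 (L l390 (T t50 N)))))))) (K a170 (M a4 (F (L l464 (T t130 (L l275 (L l390 (T t131 (L l390 (L l464 (T t519 (L l464 (T t938 N)))))))))))) (K a255 (M a16 (F (T t504 (L l236 (L l289 (L l491 (T t113 (L l275 (L l289 (L l296 (T t98 N))))))))))) N)))))))))))))))))))⟩
def e0_63__197_45 : Ent 4 := ⟨[a0, a63], [a197, a79], (M a12 (F (T t122 (T t151 (T t152 (T t153 (K a4 (M a60 (F (T t43 (L l325 (T t398 (T t448 N)))))) (K a8 (M a60 (F (T t67 (L l325 (T t398 (L l52 (L l56 (T t448 N)))))))) (K a21 (M a192 (F (T t221 (L l79 (T t156 (L l15 (L l347 (L l491 (T t157 N))))))))) (K a25 (M a192 (F (T t449 (L l15 (L l491 (T t450 (L l137 (L l491 (T t21 N))))))))) (K a29 (M a192 (F (T t449 (L l137 (L l371 (L l491 (T t21 (L l275 (T t160 N))))))))) (K a38 (M a192 (F (T t543 (L l79 (T t156 (L l137 (L l491 (T t21 N)))))))) (K a42 (M a192 (F (T t449 (L l491 (T t450 (L l56 (L l491 (T t157 N)))))))) (K a46 (M a192 (F (T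 t449 (L l137 (L l491 (T t21 (L l26 (L l275 (L l408 (T t160 N)))))))))) (K a51 (M a192 (F (T t158 (L l79 (L l513 (T t156 (L l137 (L l439 (L l491 (T t21 N)))))))))) N)))))))))))))))⟩
def e0_63__197_46 : Ent 4 := ⟨[a0, a63], [a197, a80], (M a60 (F (T t67 (T t43 (T t68 (T t69 (K a20 (M a48 (F (T t70 (L l11 (L l491 (T t1 (L l11 (T t235 N)))))))) (K a40 (M a48 (F (T t70 (L l491 (T t1 (L l52 (T t235 N))))))) (K a21 (M a192 (F (T t72 (L l347 (L l491 (T t73 (L l347 (L l491 (T t74 N))))))))) (K a41 (M a192 (F (T t79 (L l65 (L l491 (T t35 (L l491 (T t73 N)))))))) (K a61 (M a192 (F (T t72 (L l65 (L l491 (L l515 (T t35 (L l275 (T t80 N))))))))) (K a22 (M a192 (F (T t72 (L l491 (T t21 (L l491 (T t73 N))))))) (K a42 (M a192 (F (T t77 (L l491 (T t73 (L l22 (L l491 (T t74 N)))))))) (K a62 (M a192 (F (T t72 (L l491 (T t35 (L l66 (L l275 (L l516 (T t80 N))))))))) (K a3 (M a149 (F (T t5317 (L l233 (L l275 (T t1256 N)))))) N)))))))))))))))⟩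
def e0_63__197_47 : Ent 4 := ⟨[a0, a63], [a197, a81], (M a12 (F (T t122 (L l341 (T t151 (T t152 (T t153 (K a4 (M a60 (F (T t43 (T t398 (L l341 (T t448 N)))))) (K a8 (M a60 (F (T t398 (T t67 (L l52 (L l56 (L l341 (T t448 N)))))))) (K a21 (M a192 (F (T t543 (T t156 (L l15 (L l347 (L l491 (T t157 N)))))))) (K a25 (M a192 (F (T t449 (L l15 (L l491 (T t450 (L l491 (T t21 N)))))))) (K a29 (M a192 (F (T t449 (L l371 (L l491 (T t21 (L l275 (T t160 N)))))))) (K a38 (M a192 (F (T t156 (L l491 (T t450 (L l491 (T t21 N))))))) (K a42 (M a192 (F (T t449 (L l491 (T t450 (L l56 (L l491 (T t157 N)))))))) (K a46 (M a192 (F (T t449 (L l491 (T t21 (L l26 (L l275 (L l408 (T t160 N))))))))) (K a51 (M a85 (F (T t571 (L l275 (T t572 N))))) N))))))))))))))))⟩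
def e0_63__197_48 : Ent 4 := ⟨[a0, a63], [a197, a82], (M a85 (F (T t52 (L l236 (L l275 (T t88 (L l275 (T t89 (L l236 (T t90 (K a64 (M a16 (F (T t97 (L l236 (T t259 (L l86 (L l116 (L l275 (T t98 N))))))))) (K a192 (M a207 (F (T t2056 (L l339 (T t2057 (L l275 (L l296 (L l484 (T t2058 (L l339 (T t2059 N))))))))))) (K a21 (M a48 (F (T t99 (L l453 (T t50 (L l47 (L l236 (L l491 (T t100 N))))))))) (K a149 (M a53 (F (L l311 (T t982 (L l220 (L l275 (L l453 (T t1560 (L l199 (T t2060 N)))))))))) (K a213 (Fr a170 a255 l476 (Fr a42 a21 l68 (Fr a106 a234 l390 (Fr a192 a149 l519 (V t581))))) (K a42 (M a48 (F (T t364 (L l390 (L l453 (T t50 (L l28 (L l236 (L l491 (T t100 N)))))))))) (K a106 (M a48 (F (T t99 (L l411 (T t3 (L l390 (L l453 (T t50 N)))))))) (K a170 (M a4 (F (L l464 (T t130 (L l275 (L l390 (T t131 (L l390 (L l464 (T t519 (L l464 (T t938 N)))))))))))) (K a255 (M a16 (F (T t504 (L l236 (L l289 (L l491 (T t113 (L l86 (L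 l275 (L l289 (L l296 (T t98 N)))))))))))) N)))))))))))))))))))⟩
def e0_63__197_49 : Ent 4 := ⟨[a0, a63], [a197, a83], (M a85 (F (T t52 (L l236 (L l275 (T t88 (L l275 (T t89 (L l236 (T t90 (K a64 (M a252 (F (T t91 (L l93 (L l275 (T t92 N)))))) (K a192 (M a207 (F (T t2056 (L l339 (T t2057 (L l275 (L l296 (L l484 (T t2058 (L l339 (T t2059 N))))))))))) (K a21 (M a48 (F (T t99 (T t50 (L l47 (L l236 (L l491 (T t100 N)))))))) (K a149 (M a53 (F (L l311 (T t982 (L l220 (L l275 (T t1560 (L l199 (T t2060 N))))))))) (K a213 (Fr a170 a255 l476 (Fr a42 a21 l68 (Fr a106 a234 l390 (Fr a192 a149 l519 (V t581))))) (K a42 (M a48 (F (T t364 (L l390 (T t50 (L l28 (L l236 (L l491 (T t100 N))))))))) (K a106 (M a48 (F (T t99 (L l411 (T t3 (L l390 (T t50 N))))))) (K a170 (M a4 (F (L l464 (T t130 (L l275 (L l390 (T t131 (L l390 (L l464 (T t519 (L l451 (L l464 (T t938 N))))))))))))) (K a255 (M a16 (F (T t504 (L l236 (L l289 (L l491 (T t113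 (L l86 (L l275 (L l289 (L l296 (T t98 N)))))))))))) N)))))))))))))))))))⟩
def e0_63__197_50 : Ent 4 := ⟨[a0, a63], [a197, a85], (M a12 (F (T t153 (L l347 (T t122 (L l365 (T t151 (L l347 (L l458 (T t152 (K a4 (M a60 (L l458 (F (T t43 (T t398 (L l365 (T t448 (K a166 (M a247 (F (T t408 (L l473 (T t69 (L l365 (L l408 (T t448 N)))))))) (K a247 (M a166 (F (T t43 (L l236 (L l310 (T t2470 N)))))) N))))))))) (K a8 (M a60 (F (T t398 (L l347 (L l350 (T t67 (L l52 (L l56 (L l365 (T t448 N)))))))))) (K a21 (M a149 (F (T t650 (L l144 (T t648 (L l50 (L l91 (L l144 (L l458 (T t2471 (L l50 (L l91 (L l458 (T t2472 N)))))))))))))) (K a25 (M a192 (F (T t156 (L l15 (L l347 (L l491 (T t450 (L l144 (L l458 (T t2473 N)))))))))) (K a29 (M a48 (F (T t1580 (L l15 (L l347 (L l491 (T t1 (L l311 (L l455 (T t866 N)))))))))) (K a38 (M a192 (F (T t156 (L l347 (L l491 (T t450 (L l26 (L l50 (L l144 (L l458 (T t2473 N))))))))))) (K a42 (M a192 (F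 (T t156 (L l347 (L l491 (T t450 (L l26 (L l144 (L l390 (L l458 (T t2473 N))))))))))) (K a46 (M a48 (F (T t443 (L l347 (L l491 (T t1 (L l26 (L l311 (L l455 (T t866 N)))))))))) (K a51 (M a192 (F (L l513 (T t156 (L l347 (L l415 (L l491 (T t450 (L l144 (L l458 (T t2473 N))))))))))) N)))))))))))))))))))⟩
def e0_63__197_51 : Ent 4 := ⟨[a0, a63], [a197, a86], (M a48 (F (T t3 (L l491 (T t1 (L l311 (T t2 (T t0 (K a16 (M a60 (F (T t70 (L l14 (L l18 (L l477 (T t67 (L l311 (L l351 (T t65 N)))))))))) (K a32 (M a60 (F (T t70 (L l477 (T t67 (L l24 (L l28 (L l311 (L l351 (T t65 N)))))))))) (K a21 (M a192 (F (T t27 (L l347 (L l351 (L l491 (T t225 (L l347 (L l351 (L l491 (T t861 N))))))))))) (K a37 (M a192 (F (T t19 (L l351 (L l491 (T t225 (L l351 (L l491 (T t21 N))))))))) (K a53 (M a149 (F (L l275 (T t176 (L l142 (T t13 (L l275 (T t26 N)))))))) (K a26 (M a192 (F (T t837 (L l351 (L l491 (T t225 (L l351 (L l491 (T t21 N)))))))))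 (K a42 (M a192 (F (T t27 (L l351 (L l491 (T t225 (L l28 (L l351 (L l491 (T t861 N)))))))))) (K a58 (M a192 (F (T t19 (L l351 (L l491 (T t21 (L l54 (L l142 (L l275 (L l498 (T t31 N))))))))))) (K a15 (M a192 (F (T t1922 (L l325 (L l351 (L l491 (T t225 (L l351 (L l469 (L l491 (T t21 N))))))))))) N)))))))))))))))))⟩
def e0_63__197_52 : Ent 4 := ⟨[a0, a63], [a197, a87], (M a85 (F (L l275 (T t89 (L l143 (L l475 (T t52 (L l236 (L l275 (T t88 (L l236 (T t90 (K a64 (M a204 (F (T t1575 (L l125 (L l229 (L l275 (T t1576 N))))))) (K a192 (M a207 (F (T t2056 (L l143 (L l339 (T t2057 (L l275 (L l296 (L l484 (T t2058 (L l339 (T t2059 N)))))))))))) (K a21 (M a48 (F (L l367 (T t935 (L l143 (T t50 (L l47 (L l143 (L l236 (L l367 (L l491 (T t100 N)))))))))))) (K a149 (M a53 (F (L l311 (T t982 (L l220 (L l275 (T t1560 (L l199 (T t2060 N))))))))) (K a213 (Fr a170 a255 l476 (Fr a42 a21 l68 (Fr a106 a234 l390 (Fr a192 a149 l519 (V t581)))))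 (K a42 (M a48 (F (L l475 (T t364 (L l143 (L l390 (T t50 (L l28 (L l143 (L l236 (L l367 (L l491 (T t100 N))))))))))))) (K a106 (M a48 (F (L l491 (T t1 (L l367 (L l475 (T t99 (L l143 (L l390 (T t50 N)))))))))) (K a170 (M a48 (F (T t3 (L l206 (L l220 (L l236 (L l275 (L l311 (L l390 (T t3747 (L l143 (L l236 (L l367 (L l404 (L l491 (T t100 N)))))))))))))))) (K a255 (M a3 (F (T t85 (L l143 (L l261 (L l349 (T t376 (L l261 (L l275 (L l296 (T t357 (L l261 (L l275 (L l296 (T t1921 N))))))))))))))) N)))))))))))))))))))))⟩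
def e0_63__197_53 : Ent 4 := ⟨[a0, a63], [a197, a90], (M a12 (F (T t122 (T t151 (T t152 (T t153 (K a4 (M a60 (F (T t43 (L l480 (L l483 (T t398 (T t448 N))))))) (K a8 (M a60 (F (T t67 (L l480 (L l483 (T t398 (L l52 (L l56 (T t448 N))))))))) (K a21 (M a192 (F (T t836 (L l15 (L l347 (L l375 (L l491 (T t450 (L l15 (L l347 (L l375 (L l491 (T t157 N))))))))))))) (K a25 (M a192 (F (T t449 (L l15 (L l375 (L l491 (T t450 (L l375 (L l491 (T t21 N)))))))))) (K a29 (M a192 (F (T t449 (L l371 (L l375 (L l491 (T t21 (L l130 (L l275 (T t160 N)))))))))) (K a38 (M a192 (F (T t836 (L l375 (L l491 (T t450 (L l375 (L l491 (T t21 N))))))))) (K a42 (M a192 (F (T t449 (L l375 (L l491 (T t450 (L l56 (L l375 (L l491 (T t157 N)))))))))) (K a46 (M a192 (F (T t449 (L l375 (L l491 (T t21 (L l26 (L l130 (L l275 (L l408 (T t160 N))))))))))) (K a51 (M a192 (F (T t1725 (L l375 (L l415 (L l491 (T t450 (L l375 (L l439 (L l491 (T t21 N)))))))))))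 N)))))))))))))))⟩
def e0_63__197_54 : Ent 4 := ⟨[a0, a63], [a197, a91], (M a85 (F (T t52 (L l236 (L l275 (T t88 (L l275 (T t89 (L l236 (T t90 (K a64 (M a48 (F (T t50 (L l275 (T t568 N))))) (K a192 (M a207 (F (T t2056 (L l339 (L l481 (T t2057 (L l275 (L l296 (L l484 (T t2058 (L l339 (L l373 (L l481 (T t2059 N)))))))))))))) (K a21 (M a48 (F (T t99 (T t50 (L l47 (L l236 (L l491 (T t100 N)))))))) (K a149 (M a53 (F (L l311 (T t178 (L l220 (L l275 (T t1560 (L l199 (T t2060 N))))))))) (K a213 (Fr a170 a255 l476 (Fr a42 a21 l68 (Fr a106 a234 l390 (Fr a192 a149 l519 (V t581))))) (K a42 (M a48 (F (T t364 (L l390 (T t50 (L l28 (L l236 (L l491 (T t100 N))))))))) (K a106 (M a48 (F (T t99 (L l411 (L l481 (T t3 (L l390 (T t50 N)))))))) (K a170 (M a4 (F (L l464 (T t130 (L l275 (L l390 (T t131 (L l390 (L l464 (T t519 (L l464 (L l481 (T t938 N))))))))))))) (K a255 (M a16 (F (L l311 (T t112 (L l236 (L l289 (L l491 (T t113 (L l275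 (L l289 (L l296 (T t98 N)))))))))))) N)))))))))))))))))))⟩
def e0_63__197_55 : Ent 4 := ⟨[a0, a63], [a197, a95], (M a12 (F (T t122 (T t151 (T t152 (T t153 (K a4 (M a60 (F (T t43 (L l469 (T t398 (T t448 N)))))) (K a8 (M a60 (F (T t67 (L l469 (T t398 (L l52 (L l56 (T t448 N)))))))) (K a21 (M a192 (F (T t836 (L l15 (L l347 (L l491 (T t450 (L l15 (L l347 (L l491 (T t157 N))))))))))) (K a25 (M a192 (F (T t449 (L l15 (L l491 (T t450 (L l137 (L l469 (L l491 (T t21 N)))))))))) (K a29 (M a192 (F (T t449 (L l137 (L l371 (L l469 (L l491 (T t21 (L l275 (T t160 N)))))))))) (K a38 (M a192 (F (T t156 (L l491 (T t450 (L l137 (L l469 (L l491 (T t21 N))))))))) (K a42 (M a192 (F (T t449 (L l491 (T t450 (L l56 (L l491 (T t157 N)))))))) (K a46 (M a192 (F (T t449 (L l137 (L l469 (L l491 (T t21 (L l26 (L l275 (L l408 (T t160 N))))))))))) (K a51 (M a192 (F (T t1800 (L l513 (T t156 (L l415 (L l491 (T t450 N)))))))) N)))))))))))))))⟩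
def e0_63__197_56 : Ent 4 := ⟨[a0, a63], [a197, a96], (M a12 (F (T t122 (T t151 (T t152 (T t153 (K a4 (M a60 (F (T t43 (T t398 (T t448 N))))) (K a8 (M a60 (F (T t67 (T t398 (L l52 (L l56 (T t448 N))))))) (K a21 (M a192 (F (T t156 (L l15 (L l347 (L l491 (T t450 (L l15 (L l347 (L l491 (T t157 N))))))))))) (K a25 (M a192 (F (T t449 (L l15 (L l491 (T t450 (L l491 (T t21 N)))))))) (K a29 (M a192 (F (T t449 (L l371 (L l491 (T t21 (L l104 (L l275 (T t160 N))))))))) (K a38 (M a192 (F (T t156 (L l491 (T t450 (L l491 (T t21 N))))))) (K a42 (M a192 (F (T t449 (L l491 (T t450 (L l56 (L l491 (T t157 N)))))))) (K a46 (M a192 (F (T t449 (L l491 (T t21 (L l26 (L l104 (L l275 (L l408 (T t160 N)))))))))) (K a51 (M a192 (F (T t496 (L l415 (L l491 (T t450 (L l439 (L l491 (T t21 N))))))))) N)))))))))))))))⟩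
def e0_63__197_57 : Ent 4 := ⟨[a0, a63], [a197, a97], (M a60 (F (T t67 (T t43 (T t68 (T t69 (K a20 (M a48 (F (T t451 (L l11 (L l491 (T t1 (L l11 (T t235 N)))))))) (K a40 (M a48 (F (T t3 (L l491 (T t64 (L l52 (T t235 N))))))) (K a21 (M a192 (F (T t72 (L l347 (L l488 (L l491 (T t73 (L l347 (L l491 (T t74 N)))))))))) (K a41 (M a192 (F (T t77 (L l65 (L l491 (T t35 (L l488 (L l491 (T t73 N))))))))) (K a61 (M a192 (F (T t72 (L l65 (L l491 (L l515 (T t35 (L l275 (T t80 N))))))))) (K a22 (M a192 (F (T t72 (L l491 (T t21 (L l488 (L l491 (T t73 N)))))))) (K a42 (M a192 (F (T t77 (L l488 (L l491 (T t73 (L l22 (L l491 (T t74 N))))))))) (K a62 (M a192 (F (T t72 (L l491 (T t35 (L l66 (L l275 (L l516 (T t80 N))))))))) (K a3 (M a149 (F (T t5317 (L l233 (L l275 (L l485 (T t1256 N))))))) N)))))))))))))))⟩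
def e0_63__197_58 : Ent 4 := ⟨[a0, a63], [a197, a98], (M a48 (F (T t3 (L l491 (T t1 (L l311 (T t2 (T t0 (K a16 (M a60 (F (T t43 (L l486 (L l489 (L l491 (T t64 (L l311 (T t65 N))))))))) (K a32 (M a60 (F (T t67 (L l486 (L l489 (L l491 (T t64 (L l24 (L l28 (L l311 (T t65 N))))))))))) (K a21 (M a192 (F (T t27 (L l347 (L l491 (T t225 (L l347 (L l491 (T t861 N))))))))) (K a37 (M a192 (F (T t27 (L l491 (T t225 (L l491 (T t21 N))))))) (K a53 (M a149 (F (L l275 (T t25 (L l102 (T t13 (L l275 (T t26 N)))))))) (K a26 (M a192 (F (L l491 (T t225 (T t27 (L l491 (T t21 N))))))) (K a42 (M a192 (F (T t27 (L l491 (T t225 (L l28 (L l491 (T t861 N)))))))) (K a58 (M a192 (F (T t27 (L l491 (T t21 (L l54 (L l96 (L l102 (L l275 (L l498 (T t31 N))))))))))) (K a15 (M a192 (F (T t55 (L l325 (L l491 (T t225 (L l469 (L l491 (T t21 N))))))))) N)))))))))))))))))⟩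
def e0_63__197_59 : Ent 4 := ⟨[a0, a63], [a197, a99], (M a85 (F (T t52 (L l236 (L l275 (T t88 (L l275 (T t89 (L l236 (T t90 (K a64 (M a16 (F (T t97 (L l236 (T t259 (L l116 (L l275 (T t98 N)))))))) (K a192 (M a207 (F (T t2056 (L l103 (L l339 (T t2057 (L l103 (L l275 (L l296 (L l484 (T t2058 (L l339 (T t2059 N))))))))))))) (K a21 (M a48 (F (T t99 (T t50 (L l47 (L l236 (L l491 (T t100 N)))))))) (K a149 (M a53 (F (L l311 (T t982 (L l220 (L l275 (T t1560 (L l199 (T t2060 N))))))))) (K a213 (Fr a170 a255 l476 (Fr a42 a21 l68 (Fr a106 a234 l390 (Fr a192 a149 l519 (V t581))))) (K a42 (M a48 (F (T t364 (L l390 (T t50 (L l28 (L l236 (L l491 (T t100 N))))))))) (K a106 (M a48 (F (T t99 (L l411 (T t3 (L l390 (T t50 N))))))) (K a170 (M a4 (F (L l464 (T t130 (L l275 (L l390 (T t131 (L l390 (L l464 (L l487 (T t519 (L l464 (T t938 N))))))))))))) (K a255 (M a16 (F (T t504 (L l236 (L l289 (L l491 (T t113 (L l275 (L l289 (L l296 (T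 t98 N))))))))))) N)))))))))))))))))))⟩
def e0_63__197_60 : Ent 4 := ⟨[a0, a63], [a197, a101], (M a12 (L l491 (F (T t122 (T t151 (T t152 (T t153 (K a4 (M a149 (F (T t650 (L l236 (L l275 (T t5 (L l275 (T t960 N)))))))) (K a8 (M a149 (F (T t650 (L l56 (L l236 (L l275 (T t5 (L l56 (L l275 (T t960 N)))))))))) (K a21 (M a149 (F (T t650 (L l50 (T t649 (L l104 (T t648 N))))))) (K a25 (M a149 (F (T t650 (L l56 (L l236 (L l275 (T t5 (T t649 N)))))))) (K a29 (M a149 (F (L l275 (T t176 (L l104 (T t648 (L l275 (T t961 N)))))))) (K a38 (M a149 (F (L l104 (T t5329 (L l50 (L l236 (T t175 (L l26 (L l50 (T t649 N)))))))))) (K a42 (M a149 (F (L l26 (T t650 (L l104 (L l390 (T t648 (L l26 (T t649 N))))))))) (K a46 (M a149 (F (L l236 (T t175 (L l104 (L l408 (T t648 (L l26 (L l275 (T t961 N)))))))))) (K a51 (M a149 (F (T t4128 (L l275 (T t961 (L l236 (L l275 (L l489 (T t5 N))))))))) (K a149 (M a53 (F (T t151 (L l311 (T t982 (L l386 (L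 l404 (T t4160 N)))))))) (K a53 (M a149 (F (T t650 (L l47 (T t122 (L l236 (L l275 (T t5 N)))))))) N))))))))))))))))))⟩
def e0_63__197_61 : Ent 4 := ⟨[a0, a63], [a197, a102], (M a48 (F (T t3 (L l491 (T t1 (L l311 (T t2 (T t0 (K a16 (M a60 (F (T t43 (L l491 (L l510 (L l513 (T t64 (L l311 (T t65 N))))))))) (K a32 (M a60 (F (T t67 (L l491 (L l510 (L l513 (T t64 (L l24 (L l28 (L l311 (T t65 N))))))))))) (K a21 (M a192 (F (T t27 (L l347 (L l491 (L l495 (T t225 (L l347 (L l491 (L l495 (T t861 N))))))))))) (K a37 (M a192 (F (T t19 (L l491 (L l495 (T t225 (L l491 (L l495 (T t21 N))))))))) (K a53 (M a149 (F (L l275 (T t176 (L l102 (T t13 (L l275 (T t26 N)))))))) (K a26 (M a192 (F (T t837 (L l491 (L l495 (T t225 (L l491 (L l495 (T t21 N))))))))) (K a42 (M a192 (F (T t27 (L l491 (L l495 (T t225 (L l28 (L l491 (L l495 (T t861 N)))))))))) (K a58 (M a192 (F (T t19 (L l491 (L l495 (T t21 (L l54 (L l102 (L l275 (L l498 (T t31 N)))))))))))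 (K a15 (M a192 (F (T t1922 (L l325 (L l491 (L l495 (T t225 (L l469 (L l491 (L l495 (T t21 N))))))))))) N)))))))))))))))))⟩
def e0_63__197_62 : Ent 4 := ⟨[a0, a63], [a197, a103], (M a85 (F (T t52 (L l236 (L l275 (T t88 (L l275 (T t89 (L l236 (T t90 (K a64 (M a204 (F (T t1744 (L l125 (L l229 (L l275 (T t1576 N))))))) (K a192 (M a207 (F (T t2056 (L l103 (L l339 (T t2057 (L l103 (L l275 (L l296 (L l484 (T t2058 (L l339 (T t2059 N))))))))))))) (K a21 (M a48 (F (T t99 (T t50 (L l47 (L l236 (L l491 (T t100 N)))))))) (K a149 (M a53 (F (L l311 (T t982 (L l220 (L l275 (T t1560 (L l199 (T t2060 N))))))))) (K a213 (Fr a170 a255 l476 (Fr a42 a21 l68 (Fr a106 a234 l390 (Fr a192 a149 l519 (V t581))))) (K a42 (M a48 (F (L l28 (T t99 (L l390 (T t50 (L l28 (L l236 (L l491 (T t100 N)))))))))) (K a106 (M a48 (F (T t99 (L l411 (T t3 (L l390 (T t50 N))))))) (K a170 (M a4 (F (L l464 (T t130 (L l275 (L l390 (T t131 (L l390 (L l464 (L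 l493 (L l511 (T t519 (L l464 (T t938 N)))))))))))))) (K a255 (M a16 (F (T t504 (L l236 (L l289 (L l491 (T t113 (L l275 (L l289 (L l296 (T t98 N))))))))))) N)))))))))))))))))))⟩
def e0_63__197_63 : Ent 4 := ⟨[a0, a63], [a197, a106], (M a12 (F (T t122 (L l390 (L l408 (T t151 (L l501 (T t152 (L l390 (T t153 (K a4 (M a60 (F (T t398 (L l46 (L l50 (L l393 (T t67 (L l390 (L l408 (T t448 N)))))))))) (K a8 (M a60 (F (T t398 (L l393 (T t67 (L l52 (L l56 (L l390 (L l408 (T t448 N)))))))))) (K a21 (M a255 (F (T t2486 (L l390 (T t2137 (L l50 (L l144 (L l347 (L l408 (T t2487 N)))))))))) (K a25 (M a48 (F (T t550 (L l15 (L l491 (T t1 (L l12 (L l56 (L l311 (L l390 (L l498 (T t866 N)))))))))))) (K a29 (M a48 (F (T t550 (L l15 (L l491 (T t1 (L l311 (L l390 (L l498 (T t866 N)))))))))) (K a38 (M a48 (F (T t1580 (L l26 (L l311 (L l390 (L l498 (T t2 (L l21 (L l50 (L l491 (T t868 N)))))))))))) (K a42 (M a170 (F (T t2497 (L l144 (T t2498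 (L l26 (L l132 (L l144 (L l408 (T t2499 (L l26 (L l408 (T t2500 N))))))))))))) (K a46 (M a60 (L l408 (F (T t409 (L l393 (T t67 (L l23 (L l501 (T t399 (K a226 (M a166 (F (T t410 (L l132 (T t5335 N))))) (K a166 (M a226 (F (T t409 (L l26 (L l60 (L l390 (L l516 (T t69 (L l23 (L l410 (T t3052 N))))))))))) N))))))))))) (K a51 (M a16 (F (T t2517 (L l73 (L l390 (T t97 (L l390 (L l408 (T t872 N))))))))) N)))))))))))))))))))⟩
def e0_63__197_64 : Ent 4 := ⟨[a0, a63], [a197, a107], (M a48 (F (T t0 (L l491 (T t1 (L l311 (T t2 (L l409 (T t3 (K a16 (M a60 (F (T t43 (L l491 (T t64 (L l311 (T t65 N))))))) (K a32 (M a60 (F (T t70 (L l391 (T t67 (L l24 (L l28 (L l311 (T t65 N))))))))) (K a21 (M a192 (F (T t27 (L l103 (L l347 (L l491 (T t225 (L l143 (L l347 (L l491 (T t861 N))))))))))) (K a37 (M a192 (F (T t19 (L l103 (L l491 (T t225 (L l143 (L l491 (T t21 N))))))))) (K a53 (M a149 (F (L l275 (T t25 (L l98 (T t13 (L l275 (T t26 N))))))))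 (K a26 (M a192 (F (T t837 (L l103 (L l491 (T t225 (L l143 (L l491 (T t21 N))))))))) (K a42 (M a192 (F (T t27 (L l103 (L l491 (T t225 (L l28 (L l143 (L l491 (T t861 N)))))))))) (K a58 (M a192 (F (T t19 (L l143 (L l491 (T t21 (L l54 (L l98 (L l275 (L l498 (T t31 N))))))))))) (K a15 (M a192 (F (T t1922 (L l103 (L l325 (L l491 (T t225 (L l143 (L l469 (L l491 (T t21 N))))))))))) N))))))))))))))))))⟩
def e0_63__197_65 : Ent 4 := ⟨[a0, a63], [a197, a111], (M a12 (F (T t122 (T t151 (T t152 (T t153 (K a4 (M a60 (F (T t43 (T t398 (T t448 N))))) (K a8 (M a60 (F (T t67 (T t398 (L l52 (L l56 (T t448 N))))))) (K a21 (M a192 (F (T t836 (L l15 (L l347 (L l491 (T t450 (L l15 (L l347 (L l491 (T t157 N))))))))))) (K a25 (M a192 (F (T t449 (L l15 (L l491 (T t450 (L l137 (L l491 (T t21 N))))))))) (K a29 (M a192 (F (T t449 (L l137 (L l371 (L l491 (T t21 (L l104 (L l275 (T t160 N)))))))))) (K a38 (M a192 (F (T t156 (L l491 (T t450 (L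 l137 (L l491 (T t21 N)))))))) (K a42 (M a192 (F (T t449 (L l491 (T t450 (L l56 (L l491 (T t157 N)))))))) (K a46 (M a192 (F (T t449 (L l137 (L l491 (T t21 (L l26 (L l104 (L l275 (L l408 (T t160 N))))))))))) (K a51 (M a192 (F (T t1725 (L l415 (L l491 (T t450 (L l137 (L l439 (L l491 (T t21 N)))))))))) N)))))))))))))))⟩
def e0_63__197_66 : Ent 4 := ⟨[a0, a63], [a197, a112], (M a48 (F (T t3 (L l491 (T t1 (L l311 (T t2 (T t0 (K a16 (M a60 (F (T t43 (L l491 (T t64 (L l311 (T t65 N))))))) (K a32 (M a60 (F (T t67 (L l491 (T t64 (L l24 (L l28 (L l311 (T t65 N))))))))) (K a21 (M a192 (F (L l116 (T t28 (L l347 (L l491 (T t225 (L l114 (L l347 (L l491 (T t861 N))))))))))) (K a37 (M a192 (F (L l491 (T t225 (L l28 (L l116 (T t28 (L l114 (L l491 (T t21 N)))))))))) (K a53 (M a149 (F (L l275 (T t25 (L l116 (T t1938 (L l275 (T t26 N)))))))) (K a26 (M a192 (F (L l491 (T t225 (L l116 (T t28 (L l114 (L l491 (T t21 N))))))))) (K a42 (M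 a192 (F (L l491 (T t225 (L l28 (L l116 (T t28 (L l28 (L l114 (L l491 (T t861 N))))))))))) (K a58 (M a192 (F (L l116 (T t28 (L l114 (L l491 (T t21 (L l491 (T t525 N))))))))) (K a15 (M a192 (F (L l325 (L l491 (T t225 (L l116 (L l483 (T t28 (L l114 (L l469 (L l491 (T t21 N)))))))))))) N)))))))))))))))))⟩
def e0_63__197_67 : Ent 4 := ⟨[a0, a63], [a197, a113], (M a85 (F (T t52 (L l236 (L l275 (T t88 (L l275 (T t89 (L l236 (T t90 (K a64 (M a16 (F (T t97 (L l236 (T t259 (L l116 (L l275 (T t98 N)))))))) (K a192 (M a207 (F (T t5332 (L l339 (T t2057 (L l275 (L l296 (L l484 (T t2058 (L l111 (L l339 (T t2059 N)))))))))))) (K a21 (M a48 (F (T t99 (L l111 (T t50 (L l47 (L l236 (L l491 (T t100 N))))))))) (K a149 (M a53 (F (L l311 (T t982 (L l220 (L l275 (T t1560 (L l111 (L l199 (T t2060 N)))))))))) (K a213 (Fr a170 a255 l476 (Fr a42 a21 l68 (Fr a106 a234 l390 (Fr a192 a149 l519 (V t581))))) (K a42 (M a48 (F (T t365 (L l111 (L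 l390 (T t50 (L l28 (L l236 (L l491 (T t100 N)))))))))) (K a106 (M a48 (F (T t99 (L l411 (T t3 (L l111 (L l390 (T t50 N)))))))) (K a170 (M a4 (F (L l464 (T t130 (L l275 (L l390 (T t131 (L l390 (L l464 (T t519 (L l416 (L l464 (T t938 N))))))))))))) (K a255 (M a16 (F (T t504 (L l236 (L l289 (L l491 (T t113 (L l275 (L l289 (L l296 (T t98 N))))))))))) N)))))))))))))))))))⟩
def e0_63__197_68 : Ent 4 := ⟨[a0, a63], [a197, a114], (M a85 (F (T t52 (L l236 (L l275 (T t88 (L l275 (T t89 (L l236 (T t90 (K a64 (M a16 (F (T t97 (L l236 (T t259 (L l116 (L l275 (T t98 N)))))))) (K a192 (M a207 (F (T t2056 (L l339 (T t2057 (L l275 (L l296 (L l484 (T t2058 (L l339 (T t2059 N))))))))))) (K a21 (M a48 (F (T t99 (L l417 (T t50 (L l47 (L l236 (L l491 (T t100 N))))))))) (K a149 (M a53 (F (L l311 (T t982 (L l220 (L l275 (L l417 (T t1560 (L l112 (L l199 (T t2060 N))))))))))) (K a213 (Fr a170 a255 l476 (Fr a42 a21 l68 (Fr a106 a234 l390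 (Fr a192 a149 l519 (V t581))))) (K a42 (M a48 (F (T t364 (L l390 (L l417 (T t50 (L l28 (L l236 (L l491 (T t100 N)))))))))) (K a106 (M a48 (F (T t99 (L l411 (T t3 (L l390 (L l417 (T t50 N)))))))) (K a170 (M a4 (F (L l464 (T t130 (L l275 (L l390 (T t131 (L l390 (L l417 (L l464 (T t519 (L l464 (T t938 N))))))))))))) (K a255 (M a16 (F (T t504 (L l236 (L l289 (L l491 (T t113 (L l275 (L l289 (L l296 (T t98 N))))))))))) N)))))))))))))))))))⟩
def e0_63__197_69 : Ent 4 := ⟨[a0, a63], [a197, a115], (M a48 (F (T t3 (L l491 (T t1 (L l311 (T t2 (T t0 (K a16 (M a60 (F (T t43 (L l415 (L l491 (T t64 (L l311 (T t65 N)))))))) (K a32 (M a60 (F (T t67 (L l415 (L l491 (T t64 (L l24 (L l28 (L l311 (T t65 N)))))))))) (K a21 (M a192 (F (T t28 (L l347 (L l491 (T t225 (L l113 (L l347 (L l491 (T t861 N)))))))))) (K a37 (M a192 (F (T t19 (L l491 (T t225 (L l113 (L l491 (T t21 N)))))))) (K a53 (M a149 (F (L l275 (T t25 (L l106 (T t13 (L l275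 (T t26 N)))))))) (K a26 (M a192 (F (T t28 (L l491 (T t225 (L l113 (L l491 (T t21 N)))))))) (K a42 (M a192 (F (T t19 (L l491 (T t225 (L l28 (L l113 (L l491 (T t861 N))))))))) (K a58 (M a192 (F (T t19 (L l113 (L l491 (T t21 (L l54 (L l275 (L l498 (T t31 N)))))))))) (K a15 (M a192 (F (T t36 (L l325 (L l491 (T t225 (L l113 (L l469 (L l491 (T t21 N)))))))))) N)))))))))))))))))⟩
def e0_63__197_70 : Ent 4 := ⟨[a0, a63], [a197, a117], (M a12 (F (T t122 (T t151 (T t152 (T t153 (K a4 (M a60 (F (T t43 (T t398 (T t448 N))))) (K a8 (M a60 (F (T t67 (T t398 (L l52 (L l56 (T t448 N))))))) (K a21 (M a192 (F (T t836 (L l15 (L l347 (L l491 (T t450 (L l15 (L l347 (L l422 (L l491 (T t157 N)))))))))))) (K a25 (M a192 (F (T t449 (L l15 (L l491 (T t450 (L l114 (L l440 (L l491 (T t21 N)))))))))) (K a29 (M a192 (F (T t449 (L l114 (L l371 (L l440 (L l491 (T t21 (L l275 (T t160 N)))))))))) (K a38 (M a192 (F (T t156 (L l491 (T t450 (L l114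 (L l440 (L l491 (T t21 N))))))))) (K a42 (M a192 (F (T t449 (L l491 (T t450 (L l56 (L l422 (L l491 (T t157 N))))))))) (K a46 (M a192 (F (T t449 (L l114 (L l440 (L l491 (T t21 (L l26 (L l275 (L l408 (T t160 N))))))))))) (K a51 (M a192 (F (T t1800 (L l513 (T t156 (L l415 (L l491 (T t450 N)))))))) N)))))))))))))))⟩
def e0_63__197_71 : Ent 4 := ⟨[a0, a63], [a197, a118], (M a85 (F (T t52 (L l236 (L l275 (T t88 (L l275 (T t89 (L l236 (T t90 (K a64 (M a204 (F (T t1744 (L l107 (L l229 (L l275 (T t1576 N))))))) (K a192 (M a207 (F (T t5332 (L l339 (T t2057 (L l275 (L l296 (L l484 (T t2058 (L l107 (L l339 (T t2059 N)))))))))))) (K a21 (M a48 (F (L l438 (T t99 (L l107 (T t50 (L l47 (L l236 (L l491 (T t100 N)))))))))) (K a149 (M a53 (F (L l311 (T t982 (L l220 (L l275 (L l438 (T t1560 (L l107 (L l112 (L l199 (T t2060 N)))))))))))) (K a213 (Fr a170 a255 l476 (Fr a42 a21 l68 (Fr a106 a234 l390 (Fr a192 a149 l519 (V t581))))) (K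 a42 (M a48 (F (T t365 (L l107 (L l390 (T t50 (L l28 (L l236 (L l491 (T t100 N)))))))))) (K a106 (M a48 (F (L l491 (T t1 (L l438 (T t99 (L l107 (L l390 (T t50 N))))))))) (K a170 (M a4 (F (L l464 (T t130 (L l275 (L l390 (T t131 (L l390 (L l423 (L l441 (L l464 (T t519 (L l464 (T t938 N)))))))))))))) (K a255 (M a16 (F (T t504 (L l236 (L l289 (L l491 (T t113 (L l275 (L l289 (L l296 (T t98 N))))))))))) N)))))))))))))))))))⟩
def e0_63__197_72 : Ent 4 := ⟨[a0, a63], [a197, a119], (M a85 (F (L l275 (T t89 (L l113 (L l439 (T t52 (L l236 (L l275 (T t88 (L l236 (T t90 (K a64 (M a252 (F (T t93 (L l125 (L l275 (T t92 N)))))) (K a192 (M a207 (F (T t5332 (L l113 (L l339 (T t2057 (L l275 (L l296 (L l484 (T t2058 (L l107 (L l339 (T t2059 N))))))))))))) (K a21 (M a48 (F (T t935 (L l107 (L l113 (T t50 (L l47 (L l113 (L l236 (L l491 (T t100 N))))))))))) (K a149 (M a53 (F (L l311 (T t982 (L l220 (L l275 (T t1560 (L l107 (L l199 (T t2060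 N)))))))))) (K a213 (Fr a170 a255 l476 (Fr a42 a21 l68 (Fr a106 a234 l390 (Fr a192 a149 l519 (V t581))))) (K a42 (M a48 (F (L l439 (T t365 (L l107 (L l113 (L l390 (T t50 (L l28 (L l113 (L l236 (L l491 (T t100 N))))))))))))) (K a106 (M a48 (F (L l491 (T t1 (L l439 (T t99 (L l107 (L l113 (L l390 (T t50 N)))))))))) (K a170 (M a48 (F (T t3 (L l206 (L l220 (L l236 (L l275 (L l311 (L l390 (T t3747 (L l113 (L l236 (L l404 (L l491 (T t100 N))))))))))))))) (K a255 (M a51 (F (T t1355 (L l113 (L l290 (L l421 (T t945 (L l275 (L l290 (L l296 (T t1952 (L l229 (L l275 (L l290 (L l296 (T t1953 N)))))))))))))))) N)))))))))))))))))))))⟩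
def e0_63__197_73 : Ent 4 := ⟨[a0, a63], [a197, a122], (M a12 (F (T t122 (T t151 (L l429 (T t152 (T t153 (K a4 (M a60 (F (T t43 (T t398 (T t448 N))))) (K a8 (M a60 (F (T t67 (T t398 (L l52 (L l56 (T t448 N))))))) (K a21 (M a192 (F (T t836 (L l15 (L l347 (L l491 (T t450 (L l15 (L l347 (L l491 (T t157 N))))))))))) (K a25 (M a192 (F (T t449 (L l15 (L l491 (T t450 (L l114 (L l491 (T t21 N))))))))) (K a29 (M a192 (F (T t449 (L l114 (L l371 (L l491 (T t21 (L l130 (L l275 (T t160 N)))))))))) (K a38 (M a192 (F (T t156 (L l491 (T t450 (L l114 (L l491 (T t21 N)))))))) (K a42 (M a192 (F (T t449 (L l491 (T t450 (L l56 (L l491 (T t157 N)))))))) (K a46 (M a192 (F (T t449 (L l114 (L l491 (T t21 (L l26 (L l130 (L l275 (L l408 (T t160 N))))))))))) (K a51 (M a192 (F (T t1725 (L l415 (L l491 (T t450 (L l114 (L l439 (L l491 (T t21 N)))))))))) N))))))))))))))))⟩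
def e0_63__197_74 : Ent 4 := ⟨[a0, a63], [a197, a123], (M a48 (F (T t3 (L l491 (T t1 (L l311 (T t2 (T t0 (K a16 (M a60 (F (T t43 (L l491 (T t64 (L l311 (T t65 N))))))) (K a32 (M a60 (F (T t67 (L l491 (T t64 (L l24 (L l28 (L l311 (T t65 N))))))))) (K a21 (M a192 (F (T t27 (L l347 (L l491 (T t225 (L l113 (L l347 (L l491 (T t861 N)))))))))) (K a37 (M a192 (F (T t19 (L l491 (T t225 (L l113 (L l491 (T t21 N)))))))) (K a53 (M a149 (F (L l275 (T t25 (L l132 (T t13 (L l275 (T t26 N)))))))) (K a26 (M a192 (F (T t837 (L l491 (T t225 (L l113 (L l491 (T t21 N)))))))) (K a42 (M a192 (F (T t27 (L l491 (T t225 (L l28 (L l113 (L l491 (T t861 N))))))))) (K a58 (M a192 (F (T t19 (L l113 (L l491 (T t21 (L l54 (L l132 (L l275 (L l498 (T t31 N))))))))))) (K a15 (M a192 (F (T t55 (L l325 (L l491 (T t225 (L l113 (L l469 (L l491 (T t21 N)))))))))) N)))))))))))))))))⟩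
def e0_63__197_75 : Ent 4 := ⟨[a0, a63], [a197, a127], (M a12 (F (T t122 (T t151 (T t152 (T t153 (K a4 (M a60 (F (T t43 (T t398 (T t448 N))))) (K a8 (M a60 (F (T t67 (T t398 (L l52 (L l56 (T t448 N))))))) (K a21 (M a192 (F (L l50 (T t449 (L l15 (L l347 (L l491 (T t450 (L l50 (L l144 (T t2473 N))))))))))) (K a25 (M a192 (F (T t449 (L l15 (L l491 (T t450 (L l56 (L l144 (L l275 (T t37 N)))))))))) (K a29 (M a192 (F (T t449 (L l144 (L l275 (T t37 (L l15 (L l113 (L l371 (L l491 (T t776 N))))))))))) (K a38 (M a192 (F (L l50 (T t449 (L l491 (T t450 (L l26 (L l144 (L l275 (T t37 N)))))))))) (K a42 (M a192 (F (T t449 (L l491 (T t450 (L l26 (L l144 (L l390 (T t2473 N))))))))) (K a46 (M a192 (F (T t449 (L l26 (L l144 (L l275 (L l408 (T t37 (L l113 (L l491 (T t776 N))))))))))) (K a51 (M a192 (F (T t496 (L l415 (L l491 (T t450 (L l144 (L l275 (L l439 (T t37 N)))))))))) N)))))))))))))))⟩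
def e0_63__197_76 : Ent 4 := ⟨[a0, a63], [a197, a128], (M a12 (F (T t122 (T t151 (T t152 (T t153 (K a4 (M a60 (F (T t43 (T t398 (T t448 N))))) (K a8 (M a60 (F (T t67 (T t398 (L l52 (L l56 (T t448 N))))))) (K a21 (M a166 (F (T t2540 (L l15 (L l156 (L l236 (T t2470 (L l15 (T t2541 N))))))))) (K a25 (M a48 (F (T t550 (L l15 (L l491 (T t1 (L l12 (L l56 (L l311 (T t866 N)))))))))) (K a29 (M a48 (F (T t550 (L l15 (L l491 (T t1 (L l311 (T t866 N)))))))) (K a38 (M a48 (F (T t1580 (L l26 (L l311 (T t2 (L l21 (L l50 (L l491 (T t868 N)))))))))) (K a42 (M a166 (F (T t2542 (L l56 (T t2543 (L l56 (T t2541 N))))))) (K a46 (M a48 (F (T t443 (L l491 (T t1 (L l26 (L l311 (T t866 N)))))))) (K a51 (M a16 (F (T t504 (L l39 (T t871 (T t872 N)))))) N)))))))))))))))⟩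
def e0_63__197_77 : Ent 4 := ⟨[a0, a63], [a197, a129], (M a48 (F (T t3 (L l491 (T t1 (L l311 (T t2 (T t0 (K a16 (M a60 (F (T t70 (L l14 (L l18 (L l309 (T t67 (L l311 (T t65 N))))))))) (K a32 (M a60 (F (T t70 (L l309 (T t67 (L l24 (L l28 (L l311 (T t65 N))))))))) (K a21 (M a192 (F (T t837 (L l217 (L l347 (L l491 (T t225 (L l152 (L l217 (L l347 (L l491 (T t861 N)))))))))))) (K a37 (M a192 (F (T t19 (L l217 (L l491 (T t225 (L l152 (L l217 (L l491 (T t21 N)))))))))) (K a53 (M a149 (F (T t177 (L l152 (T t13 (L l275 (T t26 N))))))) (K a26 (M a192 (F (T t837 (L l217 (L l491 (T t225 (L l152 (L l217 (L l491 (T t21 N)))))))))) (K a42 (M a192 (F (T t19 (L l217 (L l491 (T t225 (L l28 (L l152 (L l217 (L l491 (T t861 N))))))))))) (K a58 (M a192 (F (T t19 (L l152 (L l217 (L l491 (T t21 (L l54 (L l275 (L l498 (T t31 N))))))))))) (K a15 (M a192 (F (T t1800 (L l152 (L l483 (T t27 (L l217 (L l325 (L l491 (T t225 N)))))))))) N)))))))))))))))))⟩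
def e0_63__197_78 : Ent 4 := ⟨[a0, a63], [a197, a130], (M a60 (F (T t67 (T t43 (L l306 (T t68 (T t69 (K a20 (M a48 (F (T t70 (L l11 (L l491 (T t1 (L l11 (L l306 (T t235 N))))))))) (K a40 (M a48 (F (T t70 (L l491 (T t1 (L l52 (L l306 (T t235 N)))))))) (K a21 (M a192 (F (T t72 (L l347 (L l491 (T t73 (L l152 (L l347 (L l491 (T t74 N)))))))))) (K a41 (M a192 (F (T t75 (T t79 (L l65 (L l491 (T t35 N))))))) (K a61 (M a192 (F (T t72 (L l65 (L l491 (L l515 (T t35 (L l275 (T t80 N))))))))) (K a22 (M a192 (F (T t72 (L l152 (L l491 (T t21 (L l491 (T t73 N)))))))) (K a42 (M a192 (F (T t1333 (L l491 (T t73 (L l22 (L l152 (L l491 (T t74 N))))))))) (K a62 (M a192 (F (T t72 (L l491 (T t35 (L l66 (L l275 (L l516 (T t80 N))))))))) (K a3 (M a170 (F (T t4824 (T t458 N)))) N))))))))))))))))⟩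
def e0_63__197_79 : Ent 4 := ⟨[a0, a63], [a197, a131], (M a85 (F (T t52 (L l236 (L l275 (T t88 (L l275 (T t89 (L l219 (L l236 (T t90 (K a64 (M a16 (F (T t97 (L l236 (T t259 (L l116 (L l275 (T t98 N)))))))) (K a192 (M a207 (F (T t2056 (L l159 (L l339 (T t2057 (L l275 (L l296 (L l484 (T t2058 (L l339 (T t2059 N)))))))))))) (K a21 (M a48 (F (T t99 (L l197 (T t50 (L l47 (L l236 (L l491 (T t100 N))))))))) (K a149 (M a53 (F (L l311 (T t982 (L l220 (L l275 (T t1560 (L l199 (T t2060 N))))))))) (K a213 (Fr a170 a255 l476 (Fr a42 a21 l68 (Fr a106 a234 l390 (Fr a192 a149 l519 (V t581))))) (K a42 (M a48 (F (T t364 (L l197 (L l390 (T t50 (L l28 (L l236 (L l491 (T t100 N)))))))))) (K a106 (M a48 (F (T t99 (L l411 (T t3 (L l197 (L l390 (T t50 N)))))))) (K a170 (M a4 (F (L l464 (T t130 (L l275 (L l390 (T t131 (L l390 (L l464 (T t519 (L l464 (T t938 N)))))))))))) (K a255 (M a16 (F (T t504 (L l236 (L l289 (L l491 (T t113 (L l275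 (L l289 (L l296 (T t98 N))))))))))) N))))))))))))))))))))⟩
def e0_63__197_80 : Ent 4 := ⟨[a0, a63], [a197, a133], (M a12 (L l311 (F (T t122 (T t151 (T t152 (T t153 (K a4 (M a5 (F (T t1612 (T t1107 (L l491 (T t3134 (L l491 (T t3135 N)))))))) (K a8 (M a5 (F (L l2 (T t1107 (L l2 (L l56 (L l491 (T t1110 (L l56 (L l491 (T t5336 (L l56 (L l491 (T t3134 N)))))))))))))) (K a21 (M a149 (L l311 (F (T t647 (L l153 (L l160 (T t648 (L l50 (L l160 (T t649 (K a5 (M a69 (L l47 (F (T t959 (L l229 (L l335 (T t4782 (K a37 (M a53 (F (T t650 (L l160 (T t5330 N))))) (K a53 (M a37 (F (T t959 (L l160 (L l229 (T t2402 N)))))) N))))))))) (K a69 (M a5 (F (T t959 (L l65 (L l315 (L l329 (T t1428 N))))))) N)))))))))))) (K a25 (M a5 (F (L l56 (T t5337 (L l19 (T t1107 (L l15 (L l53 (L l56 (L l315 (T t5338 (L l19 (L l56 (L l315 (T t5339 N))))))))))))))) (K a29 (M a5 (F (T t5340 (L l491 (T t1110 (T t5341 N)))))) (K a38 (M a5 (F (L l315 (T t1428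 (L l26 (L l491 (T t1110 (L l26 (L l315 (L l335 (T t5342 (L l26 (L l315 (T t5343 N)))))))))))))) (K a42 (M a192 (L l311 (F (T t836 (L l199 (L l491 (T t450 (L l56 (L l199 (L l491 (T t157 (K a5 (M a69 (F (L l390 (T t543 (L l56 (L l160 (L l229 (T t2402 N)))))))) (K a69 (M a5 (F (L l84 (T t836 (L l26 (L l28 (L l54 (T t1107 N)))))))) N))))))))))))) (K a46 (M a5 (F (L l315 (T t1428 (L l26 (L l491 (T t1110 (L l26 (L l315 (T t5344 N)))))))))) (K a51 (M a192 (L l311 (F (T t1800 (L l153 (L l160 (L l513 (T t156 (L l199 (L l415 (L l491 (T t450 (K a5 (M a69 (F (T t158 (L l160 (L l229 (L l487 (T t2402 N))))))) (K a69 (M a5 (F (T t155 (L l73 (L l314 (L l335 (T t5345 N))))))) N)))))))))))))) (K a5 (M a69 (F (T t151 (L l229 (L l335 (T t4782 (L l160 (T t5346 (K a4 (M a192 (L l1 (F (T t221 (L l47 (L l50 (L l199 (L l491 (T t35 (L l153 (L l160 (L l310 (T t5347 (K a6 (M a7 (F (T t221 (L l47 (L l50 (L l199 (L l491 (T t35 (L l153 (L l160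 (L l310 (T t5347 N)))))))))))) (K a7 (M a6 (L l315 (F (T t221 (L l5 (L l160 (L l233 (T t5348 (K a196 (M a70 (L l229 (L l310 (F (T t543 (L l5 (L l157 (L l313 (T t5349 (K a68 (Fr a132 a72 l334 (V t5350)) (K a132 (Fr a68 a71 l77 (V t5351)) (K a198 (M a199 (L l310 (F (T t221 (L l160 (T t5352 (K a68 (Fr a132 a72 l334 (V t5350)) (K a132 (Fr a68 a71 l77 (V t5351)) N)))))))) (K a199 (Fr a198 a134 l312 (V t5353)) N))))))))))))) (K a70 (M a196 (F (T t5354 (L l5 (L l46 (T t3916 N)))))) N)))))))))) N))))))))))))))) N))))))))) (K a69 (M a5 (F (T t122 (L l315 (L l329 (T t1428 (L l491 (T t1110 N)))))))) N))))))))))))))))))⟩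
def e0_63__197_81 : Ent 4 := ⟨[a0, a63], [a197, a134], (M a60 (F (T t67 (T t43 (T t68 (T t69 (K a20 (M a48 (F (T t70 (L l11 (L l491 (T t1 (L l11 (T t235 N)))))))) (K a40 (M a48 (F (T t70 (L l491 (T t1 (L l52 (T t235 N))))))) (K a21 (M a192 (F (T t72 (L l338 (L l347 (L l491 (T t73 (L l347 (L l491 (T t74 N)))))))))) (K a41 (M a192 (F (T t79 (L l65 (L l491 (T t35 (L l338 (L l491 (T t73 N))))))))) (K a61 (M a192 (F (T t72 (L l65 (L l491 (L l515 (T t35 (L l275 (T t80 N))))))))) (K a22 (M a192 (F (T t72 (L l491 (T t21 (L l338 (L l491 (T t73 N)))))))) (K a42 (M a192 (F (T t77 (L l338 (L l491 (T t73 (L l22 (L l491 (T t74 N))))))))) (K a62 (M a192 (F (T t72 (L l491 (T t35 (L l66 (L l275 (L l516 (T t80 N))))))))) (K a3 (M a149 (F (T t5317 (L l233 (L l275 (T t1256 N)))))) N)))))))))))))))⟩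
def e0_63__197_82 : Ent 4 := ⟨[a0, a63], [a197, a135], (M a85 (F (T t52 (L l236 (L l275 (T t88 (L l275 (T t89 (L l236 (T t90 (K a64 (M a48 (F (T t50 (L l275 (T t568 N))))) (K a192 (M a207 (F (T t2056 (L l159 (L l337 (L l339 (T t2057 (L l275 (L l296 (L l484 (T t2058 (L l337 (L l339 (T t2059 N)))))))))))))) (K a21 (M a48 (F (T t99 (T t50 (L l47 (L l236 (L l491 (T t100 N)))))))) (K a149 (M a53 (F (L l311 (T t178 (L l220 (L l275 (T t1560 (L l199 (L l203 (T t2060 N)))))))))) (K a213 (Fr a170 a255 l476 (Fr a42 a21 l68 (Fr a106 a234 l390 (Fr a192 a149 l519 (V t581))))) (K a42 (M a48 (F (T t364 (L l390 (T t50 (L l28 (L l236 (L l491 (T t100 N))))))))) (K a106 (M a48 (F (T t99 (L l337 (L l411 (T t3 (L l390 (T t50 N)))))))) (K a170 (M a4 (F (L l464 (T t130 (L l201 (L l275 (L l390 (T t131 (L l390 (L l464 (T t519 (L l464 (T t938 N))))))))))))) (K a255 (M a16 (F (T t504 (L l236 (L l289 (L l491 (T t113 (L l275 (L l289 (L l296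 (T t98 N))))))))))) N)))))))))))))))))))⟩
def e0_63__197_83 : Ent 4 := ⟨[a0, a63], [a197, a138], (M a48 (F (T t3 (L l318 (L l491 (T t1 (L l311 (T t2 (T t0 (K a16 (M a60 (F (T t43 (L l491 (T t64 (L l311 (T t65 N))))))) (K a32 (M a60 (F (T t70 (T t67 (L l24 (L l28 (L l311 (T t65 N)))))))) (K a21 (M a192 (F (T t837 (L l347 (L l491 (T t225 (L l160 (L l347 (L l491 (T t861 N)))))))))) (K a37 (M a192 (F (T t19 (L l491 (T t225 (L l160 (L l491 (T t21 N)))))))) (K a53 (M a149 (F (T t177 (L l160 (T t13 (L l275 (T t26 N))))))) (K a26 (M a192 (F (T t837 (L l491 (T t225 (L l160 (L l491 (T t21 N)))))))) (K a42 (M a192 (F (T t19 (L l491 (T t225 (L l28 (L l160 (L l491 (T t861 N))))))))) (K a58 (M a192 (F (T t19 (L l160 (L l491 (T t21 (L l54 (L l275 (L l498 (T t31 N)))))))))) (K a15 (M a170 (F (T t2101 (T t324 N)))) N))))))))))))))))))⟩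
def e0_63__197_84 : Ent 4 := ⟨[a0, a63], [a197, a139], (M a85 (F (T t52 (L l236 (L l275 (T t88 (L l275 (T t89 (L l236 (T t90 (K a64 (M a204 (F (T t1744 (L l154 (L l229 (L l275 (T t1576 N))))))) (K a192 (M a207 (F (L l484 (T t2114 (L l159 (L l339 (T t2057 (L l154 (L l275 (L l296 (L l484 (T t2058 (L l154 (L l209 (L l339 (T t2059 N)))))))))))))))) (K a21 (M a48 (F (T t99 (T t50 (L l47 (L l236 (L l491 (T t100 N)))))))) (K a149 (M a53 (F (L l311 (T t982 (L l220 (L l275 (T t1560 (L l199 (T t2060 N))))))))) (K a213 (Fr a170 a255 l476 (Fr a42 a21 l68 (Fr a106 a234 l390 (Fr a192 a149 l519 (V t581))))) (K a42 (M a48 (F (T t364 (L l390 (T t50 (L l28 (L l236 (L l491 (T t100 N))))))))) (K a106 (M a48 (F (T t99 (L l411 (T t3 (L l390 (T t50 N))))))) (K a170 (M a4 (F (L l464 (T t130 (L l275 (L l390 (T t131 (L l390 (L l464 (T t519 (L l464 (T t938 N)))))))))))) (K a255 (M a16 (F (T t504 (L l236 (L l289 (L l491 (T t113 (L l275 (L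 l289 (L l296 (T t98 N))))))))))) N)))))))))))))))))))⟩
def e0_63__197_85 : Ent 4 := ⟨[a0, a63], [a197, a143], (M a85 (F (T t52 (L l236 (L l275 (T t88 (L l275 (T t89 (L l213 (L l236 (T t90 (K a64 (M a16 (F (T t504 (T t101 (L l116 (L l213 (L l275 (T t98 N)))))))) (K a192 (M a207 (F (L l484 (T t2114 (L l213 (L l339 (T t5355 (L l160 (L l275 (L l296 (L l484 (T t2058 (L l160 (L l227 (L l339 (T t2059 N)))))))))))))))) (K a21 (M a240 (F (T t1384 (L l275 (T t933 (T t1385 N)))))) (K a149 (M a53 (F (L l311 (T t178 (L l220 (L l275 (T t1560 (L l199 (L l227 (T t2060 N)))))))))) (K a213 (Fr a170 a255 l476 (Fr a42 a21 l68 (Fr a106 a234 l390 (Fr a192 a149 l519 (V t581))))) (K a42 (M a240 (F (T t1384 (L l54 (L l275 (L l390 (T t933 (T t1385 N)))))))) (K a106 (M a48 (F (T t99 (L l325 (L l411 (T t3 (L l227 (L l390 (T t50 N))))))))) (K a170 (M a4 (F (L l464 (T t130 (L l275 (L l390 (T t131 (L l390 (L l464 (T t519 (L l464 (T t938 N))))))))))))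 (K a255 (M a16 (F (T t504 (L l236 (L l289 (L l491 (T t113 (L l213 (L l275 (L l289 (L l296 (T t98 N)))))))))))) N))))))))))))))))))))⟩
def e0_63__197_86 : Ent 4 := ⟨[a0, a63], [a197, a144], (M a12 (F (T t122 (T t151 (T t152 (T t153 (K a4 (M a60 (F (T t43 (T t398 (T t448 N))))) (K a8 (M a60 (F (T t67 (T t398 (L l52 (L l56 (T t448 N))))))) (K a21 (M a192 (F (T t836 (L l15 (L l170 (L l347 (L l491 (T t450 (L l15 (L l170 (L l347 (L l491 (T t157 N))))))))))))) (K a25 (M a192 (F (T t449 (L l15 (L l170 (L l491 (T t450 (L l170 (L l192 (L l491 (T t21 N))))))))))) (K a29 (M a192 (F (T t449 (L l170 (L l192 (L l371 (L l491 (T t21 (L l275 (T t160 N)))))))))) (K a38 (M a192 (F (T t836 (L l170 (L l491 (T t450 (L l170 (L l192 (L l491 (T t21 N)))))))))) (K a42 (M a192 (F (T t449 (L l170 (L l491 (T t450 (L l56 (L l170 (L l491 (T t157 N)))))))))) (K a46 (M a192 (F (T t449 (L l170 (L l192 (L l491 (T t21 (L l26 (L l275 (L l408 (T t160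 N))))))))))) (K a51 (M a192 (F (T t1800 (L l192 (L l513 (T t156 (L l170 (L l415 (L l491 (T t450 N)))))))))) N)))))))))))))))⟩
def e0_63__197_87 : Ent 4 := ⟨[a0, a63], [a197, a145], (M a48 (F (T t3 (L l491 (T t1 (L l311 (T t2 (T t0 (K a16 (M a60 (F (T t43 (L l489 (L l491 (T t64 (L l311 (T t65 N)))))))) (K a32 (M a60 (F (T t67 (L l489 (L l491 (T t64 (L l24 (L l28 (L l311 (T t65 N)))))))))) (K a21 (M a192 (F (T t837 (L l162 (L l167 (L l347 (L l491 (T t225 (L l167 (L l196 (L l347 (L l491 (T t861 N))))))))))))) (K a37 (M a192 (F (T t837 (L l162 (L l167 (L l491 (T t225 (L l167 (L l196 (L l491 (T t21 N))))))))))) (K a53 (M a149 (F (T t177 (L l162 (L l196 (T t13 (L l162 (L l275 (T t26 N))))))))) (K a26 (M a192 (F (T t837 (L l162 (L l167 (L l491 (T t225 (L l167 (L l196 (L l491 (T t21 N))))))))))) (K a42 (M a192 (F (T t837 (L l162 (L l167 (L l491 (T t225 (L l28 (L l167 (L l196 (L l491 (T t861 N)))))))))))) (K a58 (M a192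 (F (T t837 (L l167 (L l196 (L l491 (T t21 (L l54 (L l275 (L l498 (T t31 N))))))))))) (K a15 (M a192 (F (T t1800 (L l162 (L l196 (L l483 (T t27 (L l162 (L l167 (L l325 (L l491 (T t225 N)))))))))))) N)))))))))))))))))⟩
def e0_63__197_88 : Ent 4 := ⟨[a0, a63], [a197, a146], (M a60 (F (T t67 (T t43 (T t68 (T t69 (K a20 (M a48 (F (T t70 (L l11 (L l491 (T t1 (L l11 (T t235 N)))))))) (K a40 (M a48 (F (T t70 (L l491 (T t1 (L l52 (T t235 N))))))) (K a21 (M a192 (F (T t72 (L l347 (L l488 (L l491 (T t73 (L l347 (L l491 (T t74 N)))))))))) (K a41 (M a192 (F (T t79 (L l65 (L l491 (T t35 (L l488 (L l491 (T t73 N))))))))) (K a61 (M a192 (F (T t72 (L l65 (L l491 (L l515 (T t35 (L l275 (T t80 N))))))))) (K a22 (M a192 (F (T t72 (L l491 (T t21 (L l488 (L l491 (T t73 N)))))))) (K a42 (M a192 (F (T t77 (L l488 (L l491 (T t73 (L l22 (L l491 (T t74 N))))))))) (K a62 (M a192 (F (T t72 (L l491 (T t35 (L l66 (L l275 (L l516 (T t80 N)))))))))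 (K a3 (M a149 (F (T t5317 (L l233 (L l275 (T t1256 N)))))) N)))))))))))))))⟩
def e0_63__197_89 : Ent 4 := ⟨[a0, a63], [a197, a147], (M a60 (F (T t67 (T t43 (T t68 (T t69 (K a20 (M a48 (F (T t0 (L l487 (L l491 (T t64 (L l11 (T t235 N)))))))) (K a40 (M a48 (F (T t3 (L l487 (L l491 (T t64 (L l52 (T t235 N)))))))) (K a21 (M a192 (F (T t72 (L l347 (L l487 (L l491 (T t73 (L l347 (L l491 (T t74 N)))))))))) (K a41 (M a192 (F (T t79 (L l65 (L l491 (T t35 (L l487 (L l491 (T t73 N))))))))) (K a61 (M a192 (F (T t72 (L l65 (L l491 (L l515 (T t35 (L l169 (L l275 (T t80 N)))))))))) (K a22 (M a192 (F (T t72 (L l491 (T t21 (L l487 (L l491 (T t73 N)))))))) (K a42 (M a192 (F (T t77 (L l487 (L l491 (T t73 (L l22 (L l491 (T t74 N))))))))) (K a62 (M a192 (F (T t72 (L l491 (T t35 (L l66 (L l169 (L l275 (L l516 (T t80 N)))))))))) (K a3 (M a149 (F (T t5317 (L l233 (L l275 (T t1256 N)))))) N)))))))))))))))⟩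
def e0_63__197_90 : Ent 4 := ⟨[a0, a63], [a197, a149], (M a12 (L l491 (F (T t151 (L l347 (L l371 (T t122 (L l347 (T t152 (L l495 (T t153 (K a4 (M a60 (L l491 (F (T t680 (L l46 (L l50 (L l347 (T t67 (L l351 (T t448 (K a101 (M a53 (F (T t680 (L l1 (L l311 (L l351 (T t1421 N))))))) (K a53 (M a101 (F (T t680 (T t69 (L l46 (L l47 (L l50 (L l347 (L l371 (T t1096 N)))))))))) N)))))))))))) (K a8 (M a60 (L l491 (F (T t680 (L l347 (T t67 (L l52 (L l56 (L l351 (T t448 (K a101 (M a53 (F (T t680 (L l52 (L l56 (L l311 (L l351 (T t1421 N)))))))) (K a53 (M a101 (F (T t680 (L l56 (T t69 (L l47 (L l347 (L l371 (T t1096 N))))))))) N)))))))))))) (K a21 (M a85 (L l491 (F (T t1368 (L l220 (T t124 (L l15 (L l202 (L l220 (L l371 (T t2301 (L l15 (L l371 (T t2302 (K a101 (M a53 (F (T t1601 (L l18 (T t5356 (L l220 (L l404 (T t124 N)))))))) (K a53 (M a101 (L l47 (F (T t1368 (L l220 (L l236 (L l311 (T t3928 (L l419 (T t5357 (K a5 (M a37 (L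 l311 (F (T t1368 (L l220 (L l419 (T t2275 (L l229 (L l419 (T t5358 (K a69 (M a133 (F (T t1601 (L l275 (T t5359 (T t5360 N)))))) (K a133 (Fr a69 a117 l123 (V t2353)) N)))))))))))) (K a37 (M a5 (F (T t1368 (L l28 (T t1107 N))))) N)))))))))))) N)))))))))))))))) (K a25 (M a53 (F (L l19 (T t4160 (L l53 (L l56 (L l71 (T t5361 (L l12 (L l56 (L l311 (T t5362 (T t5363 (L l56 (L l71 (T t5364 N)))))))))))))))) (K a29 (M a53 (L l371 (F (L l311 (T t982 (T t5356 (L l351 (T t5365 (K a209 (M a89 (F (L l272 (T t863 (L l311 (T t982 N)))))) (K a89 (M a209 (F (L l311 (T t982 (L l356 (T t5356 (L l351 (L l464 (T t5365 N))))))))) N)))))))))) (K a38 (M a48 (L l491 (F (T t1580 (L l26 (L l311 (T t2 (L l21 (L l26 (L l311 (T t5366 (K a101 (Fr a53 a58 l38 (V t5367)) (K a53 (M a101 (F (T t5368 (L l21 (L l50 (T t550 (L l220 (L l236 (T t312 N))))))))) N))))))))))))) (K a42 (M a255 (L l491 (F (T t2124 (L l347 (T t2031 (L l56 (L l220 (L l371 (L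 l390 (T t2032 (K a101 (M a53 (F (T t2124 (L l28 (L l54 (L l386 (L l404 (T t4160 N)))))))) (K a53 (M a101 (F (T t2124 (L l236 (L l347 (T t5369 N)))))) N))))))))))))) (K a46 (M a53 (F (T t4160 (L l26 (T t5370 (L l26 (L l311 (T t982 (L l26 (L l311 (T t5362 N))))))))))) (K a51 (M a53 (F (L l311 (T t178 (L l39 (T t4160 (T t5370 (L l73 (L l311 (T t5362 N)))))))))) (K a101 (M a53 (F (T t151 (L l311 (T t982 (L l386 (L l404 (T t4160 N)))))))) (K a53 (M a101 (F (T t151 (L l47 (L l347 (L l371 (T t122 (L l47 (L l347 (T t152 (L l31 (L l495 (T t153 (K a4 (M a16 (F (L l220 (L l236 (T t5371 (T t2243 N)))))) (K a8 (M a16 (F (L l236 (L l311 (T t5372 (L l56 (T t2243 N))))))) (K a21 (M a85 (L l47 (F (T t1368 (L l220 (L l236 (L l311 (T t3928 (L l419 (T t5357 (K a5 (M a37 (L l311 (F (T t1368 (L l220 (L l419 (T t2275 (L l229 (L l419 (T t5358 (K a69 (M a133 (F (T t1601 (L l275 (T t5359 (T t5360 N)))))) (K a133 (Fr a69 a117 l123 (V t2353))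 N)))))))))))) (K a37 (M a5 (F (T t1368 (L l28 (T t1107 N))))) N)))))))))))) (K a25 (M a16 (F (L l220 (L l236 (T t5371 (L l12 (L l56 (T t2243 N)))))))) (K a29 (M a89 (F (T t5373 (L l220 (T t2755 (T t5374 N)))))) (K a38 (M a207 (F (T t5375 (L l170 (L l371 (T t5376 N)))))) (K a42 (M a166 (F (T t5377 (L l170 (L l371 (T t5378 N)))))) (K a46 (M a170 (F (T t5379 (L l47 (L l170 (L l347 (T t5380 N))))))) (K a51 (M a32 (F (T t5381 (L l47 (L l347 (T t1548 N)))))) N)))))))))))))))))))))) N))))))))))))))))))))))⟩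
def e0_63__197_91 : Ent 4 := ⟨[a0, a63], [a197, a150], (M a48 (F (T t3 (L l491 (T t1 (L l311 (T t2 (T t0 (K a16 (M a60 (F (T t43 (L l491 (T t64 (L l311 (T t65 N))))))) (K a32 (M a60 (F (T t451 (L l350 (T t67 (L l24 (L l28 (L l311 (T t65 N))))))))) (K a21 (M a192 (F (T t27 (L l163 (L l347 (L l491 (T t225 (L l163 (L l347 (L l491 (T t861 N))))))))))) (K a37 (M a192 (F (T t19 (L l163 (L l491 (T t225 (L l163 (L l491 (T t21 N))))))))) (K a53 (M a149 (F (L l275 (T t176 (L l516 (T t13 (L l275 (T t26 N)))))))) (K a26 (M a192 (F (T t837 (L l163 (L l491 (T t225 (L l163 (L l491 (T t21 N))))))))) (K a42 (M a192 (F (T t27 (L l163 (L l491 (T t225 (L l28 (L l163 (L l491 (T t861 N)))))))))) (K a58 (M a192 (F (T t19 (L l163 (L l491 (T t21 (L l54 (L l275 (L l498 (L l516 (T t31 N))))))))))) (K a15 (M a192 (F (T t1922 (L l163 (L l325 (L l491 (T t225 (L l163 (L l469 (L l491 (T t21 N))))))))))) N)))))))))))))))))⟩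
def e0_63__197_92 : Ent 4 := ⟨[a0, a63], [a197, a151], (M a12 (F (T t122 (T t151 (T t152 (L l493 (T t153 (K a4 (M a60 (F (T t398 (L l46 (L l50 (T t67 (L l349 (T t448 N)))))))) (K a8 (M a60 (F (T t398 (T t67 (L l52 (L l56 (L l349 (T t448 N)))))))) (K a21 (M a192 (F (T t836 (L l15 (L l163 (L l347 (L l491 (T t450 (L l15 (L l163 (L l347 (L l491 (T t157 N))))))))))))) (K a25 (M a192 (F (T t449 (L l15 (L l163 (L l491 (T t450 (L l163 (L l491 (T t21 N)))))))))) (K a29 (M a192 (F (T t449 (L l163 (L l371 (L l491 (T t21 (L l201 (L l275 (T t160 N)))))))))) (K a38 (M a192 (F (T t836 (L l163 (L l491 (T t450 (L l163 (L l491 (T t21 N))))))))) (K a42 (M a192 (F (T t449 (L l163 (L l491 (T t450 (L l56 (L l163 (L l491 (T t157 N)))))))))) (K a46 (M a192 (F (T t449 (L l163 (L l491 (T t21 (L l26 (L l201 (L l275 (L l408 (T t160 N))))))))))) (K a51 (M a149 (F (T t4374 (L l275 (T t960 N))))) N))))))))))))))))⟩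
def e0_63__197_93 : Ent 4 := ⟨[a0, a63], [a197, a154], (M a12 (F (T t122 (T t151 (T t152 (T t153 (K a4 (M a60 (F (T t43 (T t398 (T t448 N))))) (K a8 (M a60 (F (T t67 (T t398 (L l52 (L l56 (T t448 N))))))) (K a21 (M a192 (F (T t836 (L l15 (L l170 (L l347 (L l491 (T t450 (L l15 (L l170 (L l347 (L l491 (T t157 N))))))))))))) (K a25 (M a192 (F (T t449 (L l15 (L l170 (L l491 (T t450 (L l170 (L l491 (T t21 N)))))))))) (K a29 (M a192 (F (T t449 (L l170 (L l371 (L l491 (T t21 (L l275 (L l498 (T t160 N)))))))))) (K a38 (M a192 (F (T t836 (L l170 (L l491 (T t450 (L l170 (L l491 (T t21 N))))))))) (K a42 (M a192 (F (T t449 (L l170 (L l491 (T t450 (L l56 (L l170 (L l491 (T t157 N)))))))))) (K a46 (M a192 (F (T t449 (L l170 (L l491 (T t21 (L l26 (L l275 (L l408 (L l498 (T t160 N))))))))))) (K a51 (M a192 (F (T t1725 (L l170 (L l415 (L l491 (T t450 (L l170 (L l439 (L l491 (T t21 N))))))))))) N)))))))))))))))⟩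
def e0_63__197_94 : Ent 4 := ⟨[a0, a63], [a197, a155], (M a85 (F (T t52 (L l236 (L l275 (T t88 (L l275 (T t89 (L l236 (T t90 (K a64 (M a48 (F (T t50 (L l275 (L l367 (T t568 N)))))) (K a192 (M a207 (F (T t5332 (L l225 (L l339 (T t2057 (L l275 (L l296 (L l484 (T t2058 (L l164 (L l339 (T t2059 N))))))))))))) (K a21 (M a48 (F (L l367 (T t99 (T t50 (L l47 (L l236 (L l367 (L l491 (T t100 N)))))))))) (K a149 (M a53 (F (L l311 (T t982 (L l220 (L l275 (T t1560 (L l199 (T t2060 N))))))))) (K a213 (Fr a170 a255 l476 (Fr a42 a21 l68 (Fr a106 a234 l390 (Fr a192 a149 l519 (V t581))))) (K a42 (M a48 (F (T t364 (L l390 (T t50 (L l28 (L l236 (L l367 (L l491 (T t100 N)))))))))) (K a106 (M a48 (F (T t364 (L l411 (T t3 (L l390 (T t50 N))))))) (K a170 (M a4 (F (L l464 (T t130 (L l275 (L l390 (T t131 (L l390 (L l464 (L l511 (T t519 (L l464 (T t938 N))))))))))))) (K a255 (M a16 (F (T t504 (L l236 (L l289 (L l367 (L l491 (T t113 (L l169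 (L l275 (L l289 (L l296 (L l367 (T t98 N)))))))))))))) N)))))))))))))))))))⟩
def e0_63__197_95 : Ent 4 := ⟨[a0, a63], [a197, a159], (M a60 (F (T t67 (T t43 (T t68 (T t69 (K a20 (M a48 (F (T t70 (L l11 (L l491 (T t1 (L l11 (T t235 N)))))))) (K a40 (M a48 (F (T t70 (L l491 (T t1 (L l52 (T t235 N))))))) (K a21 (M a192 (F (T t72 (L l170 (L l347 (L l491 (T t73 (L l170 (L l347 (L l491 (T t74 N))))))))))) (K a41 (M a192 (F (T t79 (L l65 (L l170 (L l491 (T t35 (L l170 (L l491 (T t73 N)))))))))) (K a61 (M a192 (F (T t72 (L l65 (L l170 (L l491 (L l515 (T t35 (L l169 (L l275 (T t80 N))))))))))) (K a22 (M a192 (F (T t72 (L l170 (L l491 (T t21 (L l170 (L l491 (T t73 N))))))))) (K a42 (M a192 (F (T t77 (L l170 (L l491 (T t73 (L l22 (L l170 (L l491 (T t74 N)))))))))) (K a62 (M a192 (F (T t72 (L l170 (L l491 (T t35 (L l66 (L l169 (L l275 (L l516 (T t80 N))))))))))) (K a3 (M a149 (F (T t5317 (L l233 (L l275 (T t1256 N)))))) N)))))))))))))))⟩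
def e0_63__197_96 : Ent 4 := ⟨[a0, a63], [a197, a160], (M a12 (F (T t122 (T t151 (T t152 (T t153 (K a4 (M a60 (F (T t43 (T t398 (T t448 N))))) (K a8 (M a60 (F (T t67 (T t398 (L l52 (L l56 (T t448 N))))))) (K a21 (M a192 (F (T t836 (L l15 (L l347 (L l491 (T t450 (L l15 (L l347 (L l491 (T t157 N))))))))))) (K a25 (M a192 (F (T t449 (L l15 (L l491 (T t450 (L l192 (L l491 (T t21 N))))))))) (K a29 (M a192 (F (T t449 (L l192 (L l371 (L l491 (T t21 (L l275 (T t160 N))))))))) (K a38 (M a192 (F (T t836 (L l491 (T t450 (L l192 (L l491 (T t21 N)))))))) (K a42 (M a192 (F (T t449 (L l491 (T t450 (L l56 (L l491 (T t157 N)))))))) (K a46 (M a192 (F (T t449 (L l192 (L l491 (T t21 (L l26 (L l275 (L l408 (T t160 N)))))))))) (K a51 (M a192 (F (T t1800 (L l192 (L l513 (T t156 (L l415 (L l491 (T t450 N))))))))) N)))))))))))))))⟩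
def e0_63__197_97 : Ent 4 := ⟨[a0, a63], [a197, a161], (M a85 (F (T t52 (L l236 (L l275 (T t88 (L l275 (T t89 (L l236 (T t90 (K a64 (M a16 (F (T t97 (L l236 (T t259 (L l116 (L l275 (T t98 N)))))))) (K a192 (M a207 (F (T t2056 (L l339 (T t2057 (L l275 (L l296 (L l484 (T t2058 (L l339 (T t2059 N))))))))))) (K a21 (M a48 (F (T t99 (L l197 (L l453 (T t50 (L l47 (L l236 (L l491 (T t100 N)))))))))) (K a149 (M a53 (F (L l311 (T t982 (L l220 (L l275 (L l453 (T t1560 (L l177 (L l199 (T t2060 N))))))))))) (K a213 (Fr a170 a255 l476 (Fr a42 a21 l68 (Fr a106 a234 l390 (Fr a192 a149 l519 (V t581))))) (K a42 (M a48 (F (T t364 (L l197 (L l390 (L l453 (T t50 (L l28 (L l236 (L l491 (T t100 N))))))))))) (K a106 (M a48 (F (T t99 (L l411 (T t3 (L l197 (L l390 (L l453 (T t50 N))))))))) (K a170 (M a4 (F (L l464 (T t130 (L l275 (L l390 (T t131 (L l390 (L l464 (T t519 (L l464 (T t938 N)))))))))))) (K a255 (M a16 (F (T t504 (L l236 (L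 l289 (L l491 (T t113 (L l275 (L l289 (L l296 (T t98 N))))))))))) N)))))))))))))))))))⟩
def e0_63__197_98 : Ent 4 := ⟨[a0, a63], [a197, a162], (M a12 (F (T t151 (L l378 (T t122 (T t152 (T t153 (K a4 (M a60 (F (T t43 (T t398 (T t448 N))))) (K a8 (M a60 (F (T t398 (T t67 (L l52 (L l56 (T t448 N))))))) (K a21 (M a192 (F (T t836 (L l15 (L l347 (L l378 (L l491 (T t450 (L l15 (L l347 (L l378 (L l491 (T t157 N))))))))))))) (K a25 (M a192 (F (T t449 (L l15 (L l378 (L l491 (T t450 (L l196 (L l491 (T t21 N)))))))))) (K a29 (M a192 (F (T t449 (L l196 (L l371 (L l491 (T t21 (L l275 (T t160 N))))))))) (K a38 (M a192 (F (T t836 (L l378 (L l491 (T t450 (L l196 (L l491 (T t21 N))))))))) (K a42 (M a192 (F (T t449 (L l378 (L l491 (T t450 (L l56 (L l378 (L l491 (T t157 N)))))))))) (K a46 (M a192 (F (T t449 (L l196 (L l491 (T t21 (L l26 (L l275 (L l408 (T t160 N)))))))))) (K a51 (M a170 (F (T t4159 (T t3682 N)))) N))))))))))))))))⟩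
def e0_63__197_99 : Ent 4 := ⟨[a0, a63], [a197, a163], (M a85 (F (T t52 (L l236 (L l275 (T t88 (L l275 (T t89 (L l236 (T t90 (K a64 (M a16 (F (T t97 (L l236 (T t259 (L l116 (L l275 (T t98 N)))))))) (K a192 (M a207 (F (T t2056 (L l339 (T t2057 (L l275 (L l296 (L l484 (T t2058 (L l339 (T t2059 N))))))))))) (K a21 (M a48 (F (T t99 (T t50 (L l47 (L l236 (L l491 (T t100 N)))))))) (K a149 (M a53 (F (L l311 (T t982 (L l220 (L l275 (T t1560 (L l199 (T t2060 N))))))))) (K a213 (Fr a170 a255 l476 (Fr a42 a21 l68 (Fr a106 a234 l390 (Fr a192 a149 l519 (V t581))))) (K a42 (M a48 (F (T t364 (L l390 (T t50 (L l28 (L l236 (L l491 (T t100 N))))))))) (K a106 (M a48 (F (T t99 (L l411 (T t3 (L l390 (T t50 N))))))) (K a170 (M a4 (F (L l464 (T t130 (L l275 (L l390 (T t131 (L l390 (L l464 (T t519 (L l451 (L l464 (T t938 N))))))))))))) (K a255 (M a16 (F (T t504 (L l236 (L l289 (L l491 (T t113 (L l275 (L l289 (L l296 (T t98 N)))))))))))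 N)))))))))))))))))))⟩
def e0_63__197_100 : Ent 4 := ⟨[a0, a63], [a197, a165], (M a12 (F (T t122 (T t151 (T t152 (T t153 (K a4 (M a60 (F (T t43 (L l483 (T t398 (T t448 N)))))) (K a8 (M a60 (F (T t67 (L l483 (T t398 (L l52 (L l56 (T t448 N)))))))) (K a21 (M a192 (F (T t836 (L l15 (L l199 (L l347 (L l491 (T t450 (L l15 (L l199 (L l347 (L l491 (T t157 N))))))))))))) (K a25 (M a192 (F (T t449 (L l15 (L l199 (L l491 (T t450 (L l199 (L l491 (T t21 N)))))))))) (K a29 (M a192 (F (T t449 (L l199 (L l371 (L l491 (T t21 (L l275 (L l411 (T t160 N)))))))))) (K a38 (M a192 (F (T t836 (L l199 (L l491 (T t450 (L l199 (L l491 (T t21 N))))))))) (K a42 (M a192 (F (T t449 (L l199 (L l491 (T t450 (L l56 (L l199 (L l491 (T t157 N)))))))))) (K a46 (M a192 (F (T t449 (L l199 (L l491 (T t21 (L l26 (L l275 (L l408 (L l411 (T t160 N))))))))))) (K a51 (M a192 (F (T t1725 (L l199 (L l415 (L l491 (T t450 (L l199 (L l439 (L l491 (T t21 N)))))))))))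 N)))))))))))))))⟩
def e0_63__197_101 : Ent 4 := ⟨[a0, a63], [a197, a166], (M a48 (F (T t3 (L l491 (T t1 (L l311 (T t2 (T t0 (K a16 (M a60 (F (T t43 (L l491 (T t64 (L l311 (T t65 N))))))) (K a32 (M a60 (F (T t67 (L l491 (T t64 (L l24 (L l28 (L l311 (T t65 N))))))))) (K a21 (M a192 (F (T t27 (L l202 (L l347 (L l491 (T t225 (L l202 (L l347 (L l491 (T t861 N))))))))))) (K a37 (M a192 (F (T t19 (L l202 (L l491 (T t225 (L l202 (L l491 (T t21 N))))))))) (K a53 (M a149 (F (L l275 (T t176 (L l408 (T t13 (L l275 (T t26 N)))))))) (K a26 (M a192 (F (T t837 (L l202 (L l491 (T t225 (L l202 (L l491 (T t21 N))))))))) (K a42 (M a192 (F (T t27 (L l202 (L l491 (T t225 (L l28 (L l202 (L l491 (T t861 N)))))))))) (K a58 (M a192 (F (T t19 (L l202 (L l491 (T t21 (L l54 (L l275 (L l408 (L l498 (T t31 N))))))))))) (K a15 (M a192 (F (T t1922 (L l202 (L l325 (L l491 (T t225 (L l202 (L l469 (L l491 (T t21 N))))))))))) N)))))))))))))))))⟩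
def e0_63__197_102 : Ent 4 := ⟨[a0, a63], [a197, a167], (M a85 (F (T t52 (L l236 (L l275 (T t88 (L l275 (T t89 (L l236 (T t90 (K a64 (M a48 (F (T t50 (L l275 (T t568 N))))) (K a192 (M a207 (F (T t2056 (L l225 (L l339 (L l481 (T t2057 (L l275 (L l296 (L l484 (T t2058 (L l339 (L l481 (T t2059 N)))))))))))))) (K a21 (M a48 (F (T t99 (T t50 (L l47 (L l236 (L l491 (T t100 N)))))))) (K a149 (M a53 (F (L l311 (T t178 (L l220 (L l275 (T t1560 (L l173 (L l199 (T t2060 N)))))))))) (K a213 (Fr a170 a255 l476 (Fr a42 a21 l68 (Fr a106 a234 l390 (Fr a192 a149 l519 (V t581))))) (K a42 (M a48 (F (T t364 (L l390 (T t50 (L l28 (L l236 (L l491 (T t100 N))))))))) (K a106 (M a48 (F (T t99 (L l409 (L l411 (L l481 (T t3 (L l390 (T t50 N))))))))) (K a170 (M a4 (F (L l390 (L l464 (T t519 (L l201 (L l275 (L l390 (L l457 (T t131 (L l457 (L l464 (T t130 (L l457 (L l464 (L l481 (T t938 N))))))))))))))))) (K a255 (M a16 (F (T t504 (L l236 (L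 l289 (L l491 (T t113 (L l275 (L l289 (L l296 (T t98 N))))))))))) N)))))))))))))))))))⟩
def e0_63__197_103 : Ent 4 := ⟨[a0, a63], [a197, a170], (M a12 (F (T t152 (L l402 (T t122 (L l390 (T t151 (L l390 (L l464 (T t153 (K a4 (M a60 (F (T t398 (L l46 (L l50 (T t67 (L l390 (L l392 (T t448 N))))))))) (K a8 (M a60 (L l464 (F (T t398 (T t67 (L l52 (L l56 (L l390 (L l392 (T t448 (K a89 (M a251 (F (T t402 (L l56 (L l390 (T t69 (L l52 (L l56 (L l390 (L l392 (T t448 N))))))))))) (K a251 (M a89 (F (T t67 (L l236 (L l316 (T t870 N)))))) N)))))))))))) (K a21 (M a192 (F (T t836 (L l390 (T t221 (L l15 (L l220 (L l347 (L l464 (L l491 (T t157 N))))))))))) (K a25 (M a192 (F (T t449 (L l390 (T t221 (L l15 (L l56 (L l220 (L l464 (L l491 (T t157 N))))))))))) (K a29 (M a48 (F (T t550 (L l15 (L l462 (L l491 (T t1 (L l311 (L l390 (T t866 N)))))))))) (K a38 (M a192 (F (T t836 (L l26 (L l390 (T t221 (L l220 (L l464 (L l491 (T t157 N))))))))))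 (K a42 (M a106 (F (T t2414 (L l220 (L l491 (T t2305 (L l56 (L l178 (L l220 (L l464 (T t2306 (L l56 (L l178 (L l464 (T t2307 N))))))))))))))) (K a46 (M a48 (F (T t550 (L l462 (L l491 (T t1 (L l26 (L l311 (L l390 (T t866 N)))))))))) (K a51 (M a192 (F (L l513 (T t449 (L l390 (L l415 (T t221 (L l220 (L l464 (L l491 (T t157 N))))))))))) N)))))))))))))))))))⟩
def e0_63__197_104 : Ent 4 := ⟨[a0, a63], [a197, a171], (M a48 (F (T t3 (L l491 (T t1 (L l311 (T t2 (T t0 (K a16 (M a60 (F (T t70 (L l14 (L l18 (L l391 (L l475 (T t67 (L l311 (T t65 N)))))))))) (K a32 (M a60 (F (T t70 (L l391 (L l475 (T t67 (L l24 (L l28 (L l311 (T t65 N)))))))))) (K a21 (M a192 (F (T t27 (L l347 (L l491 (T t225 (L l347 (L l491 (T t861 N))))))))) (K a37 (M a192 (F (T t19 (L l491 (T t225 (L l475 (L l491 (T t21 N)))))))) (K a53 (M a149 (F (T t13 (L l236 (L l275 (T t5 (L l275 (T t26 N)))))))) (K a26 (M a192 (F (T t837 (L l491 (T t225 (L l475 (L l491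 (T t21 N)))))))) (K a42 (M a192 (F (T t27 (L l491 (T t225 (L l28 (L l491 (T t861 N)))))))) (K a58 (M a192 (F (T t19 (L l475 (L l491 (T t21 (L l54 (L l275 (L l498 (T t31 N)))))))))) (K a15 (M a192 (F (T t55 (L l325 (L l491 (T t225 (L l469 (L l475 (L l491 (T t21 N)))))))))) N)))))))))))))))))⟩
def e0_63__197_105 : Ent 4 := ⟨[a0, a63], [a197, a175], (M a12 (F (T t122 (T t151 (T t152 (T t153 (K a4 (M a60 (F (T t43 (L l469 (T t398 (T t448 N)))))) (K a8 (M a60 (F (T t67 (L l469 (T t398 (L l52 (L l56 (T t448 N)))))))) (K a21 (M a192 (F (T t836 (L l15 (L l347 (L l491 (T t450 (L l15 (L l347 (L l491 (T t157 N))))))))))) (K a25 (M a192 (F (T t449 (L l15 (L l491 (T t450 (L l469 (L l491 (T t21 N))))))))) (K a29 (M a192 (F (T t449 (L l371 (L l469 (L l491 (T t21 (L l275 (T t160 N))))))))) (K a38 (M a192 (F (T t156 (L l491 (T t450 (L l469 (L l491 (T t21 N)))))))) (K a42 (M a192 (F (T t449 (L l491 (T t450 (L l56 (L l491 (T t157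 N)))))))) (K a46 (M a192 (F (T t449 (L l469 (L l491 (T t21 (L l26 (L l275 (L l408 (T t160 N)))))))))) (K a51 (M a192 (F (T t158 (L l513 (T t156 (L l439 (L l469 (L l491 (T t21 N))))))))) N)))))))))))))))⟩
def e0_63__197_106 : Ent 4 := ⟨[a0, a63], [a197, a176], (M a85 (F (T t52 (L l236 (L l275 (T t88 (L l275 (T t89 (L l190 (L l236 (T t90 (K a64 (M a16 (F (T t97 (L l236 (T t259 (L l116 (L l275 (T t98 N)))))))) (K a192 (M a207 (F (T t5319 (L l339 (T t5355 (L l192 (L l275 (L l296 (L l484 (T t2058 (L l227 (L l339 (T t2059 N))))))))))))) (K a21 (M a240 (F (T t5382 (L l190 (L l275 (T t933 (L l190 (L l192 (T t1385 N))))))))) (K a149 (M a53 (F (L l311 (T t982 (L l190 (L l220 (L l275 (L l412 (T t1560 (L l199 (L l227 (T t2060 N)))))))))))) (K a213 (Fr a170 a255 l476 (Fr a42 a21 l68 (Fr a106 a234 l390 (Fr a192 a149 l519 (V t581))))) (K a42 (M a240 (F (T t5382 (L l54 (L l190 (L l275 (L l390 (T t933 (L l190 (L l192 (T t1385 N)))))))))))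 (K a106 (M a48 (F (T t364 (L l411 (T t3 (L l190 (L l275 (L l390 (L l498 (T t2029 N)))))))))) (K a170 (M a4 (F (L l464 (T t130 (L l275 (L l390 (T t131 (L l390 (L l464 (T t519 (L l464 (T t938 N)))))))))))) (K a255 (M a16 (F (T t504 (L l236 (L l289 (L l491 (T t113 (L l275 (L l289 (L l296 (T t98 N))))))))))) N))))))))))))))))))))⟩
def e0_63__197_107 : Ent 4 := ⟨[a0, a63], [a197, a177], (M a85 (F (T t52 (L l236 (L l275 (T t88 (L l275 (T t89 (L l236 (T t90 (K a64 (M a16 (F (T t97 (L l236 (T t259 (L l116 (L l275 (T t98 N)))))))) (K a192 (M a207 (F (T t2056 (L l339 (T t2057 (L l275 (L l296 (L l484 (T t2058 (L l339 (T t2059 N))))))))))) (K a21 (M a48 (F (T t99 (L l182 (L l417 (T t50 (L l47 (L l236 (L l491 (T t100 N)))))))))) (K a149 (M a53 (F (L l311 (T t982 (L l220 (L l275 (L l417 (T t1560 (L l199 (L l223 (T t2060 N))))))))))) (K a213 (Fr a170 a255 l476 (Fr a42 a21 l68 (Fr a106 a234 l390 (Fr a192 a149 l519 (V t581)))))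 (K a42 (M a48 (F (T t364 (L l182 (L l390 (L l417 (T t50 (L l28 (L l236 (L l491 (T t100 N))))))))))) (K a106 (M a48 (F (T t99 (L l411 (T t3 (L l182 (L l390 (L l417 (T t50 N))))))))) (K a170 (M a4 (F (L l464 (T t130 (L l275 (L l390 (T t131 (L l390 (L l417 (L l464 (T t519 (L l464 (T t938 N))))))))))))) (K a255 (M a16 (F (T t504 (L l236 (L l289 (L l491 (T t113 (L l275 (L l289 (L l296 (T t98 N))))))))))) N)))))))))))))))))))⟩
def e0_63__197_108 : Ent 4 := ⟨[a0, a63], [a197, a178], (M a85 (F (T t52 (L l236 (L l275 (T t88 (L l275 (T t89 (L l236 (T t90 (K a64 (M a16 (F (T t97 (L l236 (T t259 (L l116 (L l275 (T t98 N)))))))) (K a192 (M a207 (F (T t5332 (L l339 (T t2057 (L l275 (L l296 (L l484 (T t2058 (L l224 (L l339 (T t2059 N)))))))))))) (K a21 (M a48 (F (L l188 (T t99 (L l182 (T t50 (L l47 (L l236 (L l491 (T t100 N)))))))))) (K a149 (M a53 (F (L l311 (T t982 (L l188 (L l220 (L l275 (T t1560 (L l199 (T t2060 N))))))))))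 (K a213 (Fr a170 a255 l476 (Fr a42 a21 l68 (Fr a106 a234 l390 (Fr a192 a149 l519 (V t581))))) (K a42 (M a48 (F (T t364 (L l182 (L l390 (T t50 (L l28 (L l236 (L l491 (T t100 N)))))))))) (K a106 (M a48 (F (T t364 (L l411 (T t3 (L l182 (L l390 (T t50 N)))))))) (K a170 (M a4 (F (L l464 (T t130 (L l275 (L l390 (T t131 (L l390 (L l464 (T t519 (L l416 (L l464 (T t938 N))))))))))))) (K a255 (M a16 (F (T t504 (L l236 (L l289 (L l491 (T t113 (L l275 (L l289 (L l296 (T t98 N))))))))))) N)))))))))))))))))))⟩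
def e0_63__197_109 : Ent 4 := ⟨[a0, a63], [a197, a179], (M a85 (F (T t52 (L l236 (L l275 (T t88 (L l275 (T t89 (L l189 (L l236 (T t90 (K a64 (M a16 (F (T t97 (L l236 (T t259 (L l116 (L l275 (T t98 N)))))))) (K a192 (M a207 (F (T t2056 (L l225 (L l339 (T t2057 (L l275 (L l296 (L l484 (T t2058 (L l339 (T t2059 N)))))))))))) (K a21 (M a48 (F (T t99 (L l182 (T t50 (L l47 (L l236 (L l491 (T t100 N))))))))) (K a149 (M a53 (F (L l311 (T t982 (L l220 (L l275 (T t1560 (L l199 (T t2060 N))))))))) (K a213 (Fr a170 a255 l476 (Fr a42 a21 l68 (Fr a106 a234 l390 (Fr a192 a149 l519 (V t581))))) (K a42 (M a48 (F (T t364 (L l182 (L l390 (T t50 (L l28 (L l236 (L l491 (T t100 N)))))))))) (K a106 (M a48 (F (T t99 (L l411 (T t3 (L l182 (L l390 (T t50 N)))))))) (K a170 (M a4 (F (L l464 (T t130 (L l189 (L l275 (L l390 (T t131 (L l390 (L l415 (L l464 (T t519 (L l415 (L l464 (T t938 N))))))))))))))) (K a255 (M a16 (F (T t504 (L l236 (L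 l289 (L l491 (T t113 (L l275 (L l289 (L l296 (T t98 N))))))))))) N))))))))))))))))))))⟩
def e0_63__197_110 : Ent 4 := ⟨[a0, a63], [a197, a181], (M a12 (F (T t122 (T t151 (T t152 (L l423 (T t153 (K a4 (M a60 (F (T t43 (L l443 (T t398 (T t448 N)))))) (K a8 (M a60 (F (T t67 (L l443 (T t398 (L l52 (L l56 (T t448 N)))))))) (K a21 (M a192 (F (T t836 (L l15 (L l199 (L l347 (L l491 (T t450 (L l15 (L l199 (L l347 (L l491 (T t157 N))))))))))))) (K a25 (M a192 (F (T t449 (L l15 (L l199 (L l491 (T t450 (L l199 (L l491 (T t21 N)))))))))) (K a29 (M a192 (F (T t449 (L l199 (L l371 (L l491 (T t21 (L l183 (L l275 (T t160 N)))))))))) (K a38 (M a192 (F (T t836 (L l199 (L l491 (T t450 (L l199 (L l491 (T t21 N))))))))) (K a42 (M a192 (F (T t449 (L l199 (L l491 (T t450 (L l56 (L l199 (L l491 (T t157 N)))))))))) (K a46 (M a192 (F (T t449 (L l199 (L l491 (T t21 (L l26 (L l183 (L l275 (L l408 (T t160 N))))))))))) (K a51 (M a149 (F (T t4374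 (L l275 (T t960 N))))) N))))))))))))))))⟩
def e0_63__197_111 : Ent 4 := ⟨[a0, a63], [a197, a182], (M a85 (F (T t52 (L l236 (L l275 (T t88 (L l275 (T t89 (L l236 (T t90 (K a64 (M a16 (F (T t97 (L l236 (T t259 (L l116 (L l275 (T t98 N)))))))) (K a192 (M a207 (F (T t5332 (L l339 (T t2057 (L l275 (L l296 (L l484 (T t2058 (L l339 (L l422 (T t2059 N)))))))))))) (K a21 (M a48 (F (L l188 (T t99 (L l422 (T t50 (L l47 (L l236 (L l491 (T t100 N)))))))))) (K a149 (M a53 (F (L l311 (T t982 (L l188 (L l220 (L l275 (T t1560 (L l199 (L l422 (L l444 (T t2060 N)))))))))))) (K a213 (Fr a170 a255 l476 (Fr a42 a21 l68 (Fr a106 a234 l390 (Fr a192 a149 l519 (V t581))))) (K a42 (M a48 (F (T t365 (L l390 (L l422 (T t50 (L l28 (L l236 (L l491 (T t100 N)))))))))) (K a106 (M a48 (F (L l491 (T t1 (L l188 (T t99 (L l390 (L l422 (T t50 N))))))))) (K a170 (M a4 (F (L l390 (L l464 (T t519 (L l183 (L l275 (L l390 (L l422 (T t131 (L l422 (L l464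 (T t130 (L l422 (L l446 (L l464 (T t938 N))))))))))))))))) (K a255 (M a16 (F (T t504 (L l236 (L l289 (L l491 (T t113 (L l275 (L l289 (L l296 (T t98 N))))))))))) N)))))))))))))))))))⟩
def e0_63__197_112 : Ent 4 := ⟨[a0, a63], [a197, a183], (M a12 (F (T t122 (T t151 (T t152 (L l421 (T t153 (K a4 (M a60 (F (T t43 (T t398 (T t448 N))))) (K a8 (M a60 (F (T t67 (T t398 (L l52 (L l56 (T t448 N))))))) (K a21 (M a192 (F (T t836 (L l15 (L l202 (L l347 (L l491 (T t450 (L l50 (T t2473 N)))))))))) (K a25 (M a192 (F (T t836 (L l15 (L l202 (L l491 (T t450 (L l189 (T t202 N))))))))) (K a29 (M a192 (F (T t836 (L l189 (T t202 (L l15 (L l202 (L l371 (L l491 (T t2569 N)))))))))) (K a38 (M a192 (F (T t836 (L l202 (L l491 (T t450 (L l189 (T t202 N)))))))) (K a42 (M a192 (F (T t836 (L l202 (L l491 (T t450 (L l26 (L l390 (T t2473 N))))))))) (K a46 (M a192 (F (T t836 (L l189 (L l408 (T t202 (L l202 (L l491 (T t2569 N))))))))) (K a51 (M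 a149 (F (T t4374 (L l275 (T t960 N))))) N))))))))))))))))⟩
def e0_63__197_113 : Ent 4 := ⟨[a0, a63], [a197, a186], (M a12 (F (T t122 (T t151 (T t152 (T t153 (K a4 (M a60 (F (T t43 (T t398 (T t448 N))))) (K a8 (M a60 (F (T t67 (T t398 (L l52 (L l56 (T t448 N))))))) (K a21 (M a192 (F (T t836 (L l15 (L l347 (L l491 (T t450 (L l15 (L l347 (L l491 (T t157 N))))))))))) (K a25 (M a192 (F (T t449 (L l15 (L l491 (T t450 (L l440 (L l491 (T t21 N))))))))) (K a29 (M a192 (F (T t449 (L l371 (L l440 (L l491 (T t21 (L l275 (T t160 N))))))))) (K a38 (M a192 (F (T t156 (L l491 (T t450 (L l440 (L l491 (T t21 N)))))))) (K a42 (M a192 (F (T t449 (L l491 (T t450 (L l56 (L l491 (T t157 N)))))))) (K a46 (M a192 (F (T t449 (L l440 (L l491 (T t21 (L l26 (L l275 (L l408 (T t160 N)))))))))) (K a51 (M a192 (F (T t158 (L l513 (T t156 (L l439 (L l440 (L l491 (T t21 N))))))))) N)))))))))))))))⟩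
def e0_63__197_114 : Ent 4 := ⟨[a0, a63], [a197, a187], (M a48 (F (T t3 (L l491 (T t1 (L l311 (T t2 (T t0 (K a16 (M a60 (F (T t43 (L l439 (L l491 (T t64 (L l311 (T t65 N)))))))) (K a32 (M a60 (F (T t67 (L l439 (L l491 (T t64 (L l24 (L l28 (L l311 (T t65 N)))))))))) (K a21 (M a192 (F (T t27 (L l347 (L l491 (T t225 (L l347 (L l491 (T t861 N))))))))) (K a37 (M a192 (F (T t19 (L l491 (T t225 (L l439 (L l491 (T t21 N)))))))) (K a53 (M a149 (F (T t13 (L l236 (L l275 (T t5 (L l275 (T t26 N)))))))) (K a26 (M a192 (F (T t837 (L l491 (T t225 (L l439 (L l491 (T t21 N)))))))) (K a42 (M a192 (F (T t27 (L l491 (T t225 (L l28 (L l491 (T t861 N)))))))) (K a58 (M a192 (F (T t19 (L l439 (L l491 (T t21 (L l54 (L l275 (L l498 (T t31 N)))))))))) (K a15 (M a192 (F (T t55 (L l325 (L l491 (T t225 (L l439 (L l469 (L l491 (T t21 N)))))))))) N)))))))))))))))))⟩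
def e0_63__197_115 : Ent 4 := ⟨[a0, a63], [a197, a191], (M a12 (F (T t122 (T t151 (T t152 (T t153 (K a4 (M a60 (F (T t43 (T t398 (T t448 N))))) (K a8 (M a60 (F (T t67 (T t398 (L l52 (L l56 (T t448 N))))))) (K a21 (M a192 (F (T t221 (L l50 (T t449 (L l15 (L l220 (L l347 (L l491 (T t157 N)))))))))) (K a25 (M a192 (F (T t449 (T t221 (L l15 (L l220 (L l491 (T t35 N)))))))) (K a29 (M a192 (F (T t449 (L l15 (L l220 (L l371 (L l491 (T t35 (L l189 (L l275 (T t160 N))))))))))) (K a38 (M a192 (F (L l50 (T t449 (L l26 (T t221 (L l50 (L l220 (L l491 (T t35 N)))))))))) (K a42 (M a192 (F (T t449 (L l26 (L l390 (T t221 (L l56 (L l220 (L l491 (T t157 N)))))))))) (K a46 (M a192 (F (T t449 (L l220 (L l491 (T t35 (L l26 (L l189 (L l275 (L l408 (T t160 N))))))))))) (K a51 (M a149 (F (T t4374 (L l275 (T t960 N))))) N)))))))))))))))⟩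
def e0_63__197_116 : Ent 4 := ⟨[a0, a63], [a197, a192], (M a12 (L l236 (F (T t150 (L l489 (T t122 (L l489 (T t151 (L l489 (T t152 (L l489 (T t153 (K a4 (M a60 (L l236 (F (T t570 (L l46 (L l50 (L l309 (T t67 (T t448 (K a202 (M a207 (F (T t522 (L l296 (T t5383 N))))) (K a207 (M a202 (F (T t662 (L l325 (L l339 (T t680 (L l46 (L l50 (T t1096 N))))))))) N))))))))))) (K a8 (M a60 (L l236 (F (T t570 (L l309 (T t67 (L l52 (L l56 (T t448 (K a202 (M a207 (F (T t116 (L l296 (T t5383 N))))) (K a207 (M a202 (F (T t570 (L l56 (L l309 (L l331 (T t69 (T t1096 N)))))))) N))))))))))) (K a21 (M a255 (L l236 (F (T t2030 (L l272 (L l347 (T t2031 (L l15 (L l272 (T t2032 (K a202 (M a207 (F (T t2128 (L l318 (L l484 (T t2143 N)))))) (K a207 (M a202 (F (T t2126 (L l231 (L l232 (T t2124 (L l15 (L l272 (T t2032 N))))))))) N)))))))))))) (K a25 (M a48 (L l236 (F (T t865 (L l15 (L l339 (L l491 (T t1 (L l12 (L l56 (L l311 (T t866 (K a202 (M a207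 (F (L l311 (T t5384 (L l15 (L l282 (L l296 (L l498 (T t5385 N))))))))) (K a207 (M a202 (F (T t865 (L l15 (L l325 (L l339 (T t3 (L l12 (L l56 (L l311 (T t866 N))))))))))) N)))))))))))))) (K a29 (M a60 (L l236 (F (T t421 (L l15 (L l309 (T t67 (L l15 (T t399 (K a202 (M a207 (F (T t5386 (L l232 (T t5219 N))))) (K a207 (M a202 (F (T t662 (L l13 (L l484 (L l512 (T t410 (L l15 (T t399 N))))))))) N))))))))))) (K a38 (M a48 (L l236 (F (T t867 (L l26 (L l311 (L l339 (T t2 (L l21 (L l50 (L l491 (T t868 (K a202 (M a207 (F (L l318 (T t5387 (L l26 (L l275 (L l296 (L l491 (T t5388 N))))))))) (K a207 (M a202 (F (T t867 (L l26 (L l311 (L l325 (L l339 (T t2 (L l21 (L l50 (L l491 (T t868 N)))))))))))) N)))))))))))))) (K a42 (M a255 (L l236 (F (T t2033 (L l26 (L l232 (T t2034 (L l56 (L l272 (L l390 (T t2032 (K a202 (M a207 (F (T t5389 (L l26 (L l272 (T t5390 N)))))) (K a207 (M a202 (F (T t2130 (L l272 (L l301 (L l390 (T t2123 (L l56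 (L l272 (L l390 (T t2032 N))))))))))) N))))))))))))) (K a46 (M a60 (L l236 (F (T t3918 (L l309 (T t67 (L l23 (T t399 (K a202 (M a207 (F (T t5227 (L l484 (T t409 N))))) (K a207 (M a202 (F (T t5391 (L l26 (L l60 (L l309 (L l331 (T t69 (L l23 (T t399 N)))))))))) N)))))))))) (K a51 (M a16 (L l236 (L l489 (F (T t504 (L l39 (L l514 (T t871 (T t872 (K a145 (M a98 (L l236 (F (T t652 (L l73 (L l339 (T t97 (T t872 (K a202 (M a207 (F (T t652 (T t5392 N)))) (K a207 (M a202 (L l511 (F (T t652 (L l73 (L l325 (L l339 (T t97 (T t872 (K a103 (M a155 (F (T t652 (L l73 (L l325 (L l339 (T t97 (T t872 N)))))))) (K a155 (M a103 (F (T t652 (L l73 (L l325 (L l339 (T t97 (T t872 N)))))))) N))))))))))) N)))))))))) (K a98 (M a145 (L l236 (F (T t652 (L l73 (L l339 (T t97 (T t872 (K a202 (M a207 (F (T t652 (T t5392 N)))) (K a207 (M a202 (L l511 (F (T t652 (L l73 (L l325 (L l339 (T t97 (T t872 (K a103 (M a155 (F (T t652 (L l73 (L l325 (L l339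 (T t97 (T t872 N)))))))) (K a155 (M a103 (F (T t652 (L l73 (L l325 (L l339 (T t97 (T t872 N)))))))) N))))))))))) N)))))))))) (K a202 (M a207 (L l489 (F (T t652 (T t5392 (K a145 (M a98 (F (T t652 (T t5392 N)))) (K a98 (M a145 (F (T t652 (T t5392 N)))) N))))))) (K a207 (M a202 (L l489 (L l511 (F (T t652 (L l73 (L l325 (L l339 (T t97 (T t872 (K a145 (M a98 (L l511 (F (T t652 (L l73 (L l325 (L l339 (T t97 (T t872 (K a103 (M a155 (F (T t652 (L l73 (L l325 (L l339 (T t97 (T t872 N)))))))) (K a155 (M a103 (F (T t652 (L l73 (L l325 (L l339 (T t97 (T t872 N)))))))) N))))))))))) (K a98 (M a145 (L l511 (F (T t652 (L l73 (L l325 (L l339 (T t97 (T t872 (K a103 (M a155 (F (T t652 (L l73 (L l325 (L l339 (T t97 (T t872 N)))))))) (K a155 (M a103 (F (T t652 (L l73 (L l325 (L l339 (T t97 (T t872 N)))))))) N))))))))))) (K a103 (M a155 (L l489 (F (T t652 (L l73 (L l325 (L l339 (T t97 (T t872 (K a145 (M a98 (F (T t652 (L l73 (L l325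 (L l339 (T t97 (T t872 N)))))))) (K a98 (M a145 (F (T t652 (L l73 (L l325 (L l339 (T t97 (T t872 N)))))))) N))))))))))) (K a155 (M a103 (L l489 (F (T t652 (L l73 (L l325 (L l339 (T t97 (T t872 (K a145 (M a98 (F (T t652 (L l73 (L l325 (L l339 (T t97 (T t872 N)))))))) (K a98 (M a145 (F (T t652 (L l73 (L l325 (L l339 (T t97 (T t872 N)))))))) N))))))))))) N)))))))))))))) N))))))))))))) (K a202 (M a207 (F (T t150 (L l228 (L l311 (T t2144 (K a4 (M a16 (F (L l296 (L l491 (T t5393 (T t2243 N)))))) (K a8 (M a16 (F (L l296 (L l491 (T t5393 (L l56 (T t2243 N))))))) N)))))))) (K a207 (M a202 (F (T t150 (L l489 (L l511 (T t122 (L l489 (L l511 (T t151 (L l489 (L l511 (T t152 (L l489 (L l511 (T t153 (K a4 (M a170 (F (L l458 (T t4159 (L l1 (L l50 (L l303 (L l311 (T t5394 N))))))))) (K a8 (M a60 (F (T t570 (L l56 (L l309 (L l331 (T t69 (T t1096 N)))))))) (K a21 (M a136 (F (L l15 (T t5395 (L l50 (L l233 (L l331 (T t5396 N))))))))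 (K a25 (M a136 (F (L l15 (T t5395 (L l233 (L l331 (T t5396 N))))))) (K a29 (M a10 (F (T t2421 (L l15 (L l296 (L l512 (T t5397 N))))))) (K a38 (M a136 (F (T t5395 (L l50 (L l233 (L l331 (T t5396 N))))))) (K a42 (M a136 (F (T t5395 (L l233 (L l331 (T t5396 N)))))) (K a46 (M a10 (F (T t2421 (L l296 (L l512 (T t5397 N)))))) (K a51 (M a136 (L l489 (L l511 (F (T t5395 (L l233 (L l331 (T t5396 (K a145 (M a98 (L l511 (F (L l167 (T t5395 (L l233 (L l331 (T t5396 (K a103 (M a155 (F (L l167 (T t5395 (L l233 (L l331 (T t5396 N))))))) (K a155 (M a103 (F (L l167 (T t5395 (L l207 (L l233 (L l331 (T t5396 N)))))))) N)))))))))) (K a98 (M a145 (L l511 (F (T t5395 (L l233 (L l331 (T t5396 (K a103 (M a155 (F (T t5395 (L l233 (L l331 (T t5396 N)))))) (K a155 (M a103 (F (T t5395 (L l207 (L l233 (L l331 (T t5396 N))))))) N))))))))) (K a103 (M a155 (L l489 (F (T t5395 (L l233 (L l331 (T t5396 (K a145 (M a98 (F (L l167 (T t5395 (L l233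 (L l331 (T t5396 N))))))) (K a98 (M a145 (F (T t5395 (L l233 (L l331 (T t5396 N)))))) N))))))))) (K a155 (M a103 (L l489 (F (T t5395 (L l207 (L l233 (L l331 (T t5396 (K a145 (M a98 (F (L l167 (T t5395 (L l207 (L l233 (L l331 (T t5396 N)))))))) (K a98 (M a145 (F (T t5395 (L l207 (L l233 (L l331 (T t5396 N))))))) N)))))))))) N)))))))))))) N)))))))))))))))))))))))) N)))))))))))))))))))))))⟩
def e0_63__197_117 : Ent 4 := ⟨[a0, a63], [a197, a193], (M a60 (L l233 (F (T t67 (T t43 (L l515 (T t68 (L l305 (T t69 (K a20 (M a51 (L l233 (F (T t1294 (L l515 (T t3965 (L l11 (T t1357 (K a201 (M a205 (F (T t1294 (T t4966 N)))) (K a205 (M a201 (F (T t4967 (T t1294 (L l11 (T t1357 N)))))) N)))))))))) (K a40 (M a51 (L l233 (F (T t589 (T t1356 (T t1357 (K a201 (M a205 (F (T t589 (T t4966 N)))) (K a205 (M a201 (F (T t589 (L l485 (L l509 (T t3961 (T t1357 N))))))) N)))))))) (K a21 (M a192 (L l233 (F (T t72 (L l347 (L l491 (L l515 (T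 t73 (L l347 (L l491 (L l515 (T t74 (K a201 (M a205 (F (T t1333 (L l237 (L l347 (L l491 (L l515 (T t73 (L l347 (L l491 (L l515 (T t74 N)))))))))))) (K a205 (M a201 (F (T t1333 (L l347 (L l491 (L l515 (T t73 (L l347 (L l491 (L l515 (T t74 N))))))))))) N)))))))))))))) (K a41 (M a48 (L l233 (F (T t489 (L l65 (L l491 (T t1 (L l65 (L l491 (L l515 (T t64 (K a201 (M a205 (F (T t489 (T t4968 N)))) (K a205 (M a201 (F (T t489 (L l57 (T t451 (L l22 (L l311 (T t2 N)))))))) N))))))))))))) (K a61 (M a149 (L l233 (F (T t177 (T t463 (L l275 (L l293 (T t1130 (K a201 (M a205 (F (T t177 (T t463 (L l275 (L l293 (T t1130 N))))))) (K a205 (M a201 (L l503 (F (T t177 (T t463 (L l275 (L l293 (T t1130 (K a157 (M a109 (F (T t463 (L l35 (L l165 (L l509 (T t4969 (L l275 (L l293 (T t1130 N)))))))))) (K a109 (M a157 (F (T t177 (L l35 (L l99 (L l229 (T t4970 N))))))) N)))))))))) N)))))))))) (K a22 (M a170 (L l233 (F (T t2689 (L l66 (L l275 (L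 l293 (T t456 (L l11 (L l228 (L l515 (T t1123 (K a201 (M a205 (F (T t2689 (L l66 (L l317 (T t4971 N)))))) (K a205 (M a201 (F (T t1570 (L l11 (T t4972 N))))) N)))))))))))))) (K a42 (M a192 (L l233 (F (T t79 (L l491 (L l515 (T t73 (L l22 (L l491 (L l515 (T t74 (K a201 (M a205 (F (T t1333 (L l237 (L l491 (L l515 (T t73 (L l22 (L l491 (L l515 (T t74 N))))))))))) (K a205 (M a201 (F (T t1333 (L l491 (L l515 (T t73 (L l22 (L l491 (L l515 (T t74 N)))))))))) N))))))))))))) (K a62 (M a170 (L l233 (F (T t2691 (T t2190 (T t458 (K a201 (M a205 (F (T t2691 (L l66 (L l275 (L l293 (T t456 (T t458 N)))))))) (K a205 (M a201 (F (T t2190 (T t4972 N)))) N)))))))) (K a3 (M a170 (L l233 (F (T t1456 (L l475 (T t2190 (T t458 (K a201 (M a205 (F (T t1456 (L l317 (L l333 (T t4971 N)))))) (K a205 (M a201 (F (T t874 (T t4972 N)))) N))))))))) (K a201 (M a205 (F (T t67 (L l317 (T t4971 (L l317 (T t4973 (K a21 (M a48 (F (T t248 (T t4968 N)))) (K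 a41 (M a48 (F (T t489 (T t4968 N)))) (K a61 (M a149 (F (T t177 (T t463 (L l275 (L l293 (T t1130 N))))))) (K a62 (M a192 (F (T t1333 (L l491 (L l515 (T t35 (L l491 (L l515 (T t2549 N))))))))) N))))))))))) (K a205 (M a201 (F (T t67 (T t43 (L l503 (L l515 (T t68 (L l305 (L l329 (T t69 (K a20 (M a48 (F (T t451 (L l311 (T t2 (L l11 (L l503 (L l515 (T t235 N))))))))) (K a40 (M a48 (F (T t3 (L l52 (T t451 (L l52 (L l503 (L l515 (T t235 N))))))))) (K a21 (M a204 (F (L l236 (L l503 (T t3967 (L l229 (T t4974 N))))))) (K a41 (M a204 (F (L l236 (L l503 (T t3967 (L l53 (L l229 (T t4974 N)))))))) (K a61 (M a149 (L l503 (F (T t177 (T t463 (L l275 (L l293 (T t1130 (K a157 (M a109 (F (T t463 (L l35 (L l165 (L l509 (T t4969 (L l275 (L l293 (T t1130 N)))))))))) (K a109 (M a157 (F (T t177 (L l35 (L l99 (L l229 (T t4970 N))))))) N)))))))))) (K a22 (M a204 (F (L l236 (L l503 (T t3967 (L l229 (L l348 (T t4974 N)))))))) (K a42 (M a204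 (F (L l236 (L l503 (T t3967 (L l229 (T t4974 N))))))) (K a62 (M a57 (F (L l509 (T t4975 (L l36 (L l66 (T t4976 N))))))) (K a3 (M a204 (F (L l236 (L l331 (L l503 (T t3967 (L l229 (T t4974 N)))))))) N))))))))))))))))))) N))))))))))))))))))))⟩
def e0_63__197_118 : Ent 4 := ⟨[a0, a63], [a197, a194], (M a48 (F (T t3 (L l491 (T t1 (L l311 (T t2 (T t0 (K a16 (M a60 (F (T t43 (L l486 (L l491 (T t64 (L l311 (T t65 N)))))))) (K a32 (M a60 (F (T t67 (L l486 (L l491 (T t64 (L l24 (L l28 (L l311 (T t65 N)))))))))) (K a21 (M a192 (F (T t27 (L l347 (L l491 (T t225 (L l347 (L l491 (T t861 N))))))))) (K a37 (M a192 (F (T t19 (L l491 (T t225 (L l491 (T t21 N))))))) (K a53 (M a149 (F (L l275 (T t25 (L l516 (T t13 (L l275 (T t26 N)))))))) (K a26 (M a192 (F (T t837 (L l491 (T t225 (L l491 (T t21 N))))))) (K a42 (M a192 (F (T t27 (L l491 (T t225 (L l28 (L l491 (T t861 N)))))))) (K a58 (M a192 (F (T t19 (L l491 (T t21 (L l54 (L l275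 (L l498 (L l516 (T t31 N)))))))))) (K a15 (M a192 (F (T t1922 (L l325 (L l491 (T t225 (L l469 (L l491 (T t21 N))))))))) N)))))))))))))))))⟩
def e0_63__197_119 : Ent 4 := ⟨[a0, a63], [a197, a195], (M a48 (F (T t610 (L l337 (L l491 (T t1 (L l311 (L l337 (T t2 (L l337 (T t3 (L l337 (T t0 (K a16 (M a60 (F (T t138 (L l14 (L l18 (L l307 (T t67 (L l311 (T t65 N))))))))) (K a32 (M a60 (F (T t116 (L l487 (L l491 (T t64 (L l24 (L l28 (L l311 (T t65 N)))))))))) (K a21 (M a192 (F (T t2113 (L l235 (L l347 (L l491 (T t225 (L l347 (L l491 (T t861 N)))))))))) (K a37 (M a192 (F (T t55 (L l235 (L l491 (T t225 (L l295 (L l491 (T t21 N))))))))) (K a53 (M a149 (F (T t4854 (L l273 (T t13 (L l275 (T t26 N))))))) (K a26 (M a192 (F (T t2113 (L l235 (L l491 (T t225 (L l295 (L l491 (T t21 N))))))))) (K a42 (M a192 (F (T t55 (L l235 (L l491 (T t225 (L l28 (L l491 (T t861 N))))))))) (K a58 (M a192 (F (T t1922 (L l295 (L l491 (T t21 (L l54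 (L l275 (L l498 (T t31 N)))))))))) (K a15 (M a192 (L l337 (F (T t55 (L l235 (L l325 (L l491 (T t225 (L l295 (L l469 (L l491 (T t21 (K a135 (M a75 (F (T t1800 (L l235 (L l325 (L l491 (T t225 (L l273 (L l483 (T t28 N)))))))))) (K a75 (M a135 (F (T t1800 (L l235 (L l325 (L l491 (T t225 (L l273 (L l483 (T t28 N)))))))))) N)))))))))))))) N))))))))))))))))))))))⟩
def e0_63__197_120 : Ent 4 := ⟨[a0, a63], [a197, a198], (M a60 (L l229 (F (T t67 (T t43 (T t68 (T t69 (K a20 (M a12 (L l229 (F (T t151 (T t398 (L l11 (L l46 (T t399 (K a196 (M a199 (F (T t680 (L l311 (T t5398 N))))) (K a199 (M a196 (F (T t402 (T t5399 N)))) N)))))))))) (K a40 (M a12 (L l229 (F (T t122 (T t398 (L l24 (T t399 (K a196 (M a199 (F (T t680 (L l52 (L l311 (T t5398 N)))))) (K a199 (M a196 (F (T t408 (L l22 (L l52 (T t5399 N)))))) N))))))))) (K a21 (M a192 (L l229 (F (T t72 (L l237 (L l347 (L l491 (T t73 (L l347 (L l491 (T t74 (K a196 (M a199 (F (T t1333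 (L l237 (T t75 (L l347 (L l491 (L l495 (T t74 N))))))))) (K a199 (M a196 (F (T t1333 (L l50 (L l493 (T t5400 N)))))) N))))))))))))) (K a41 (M a12 (L l229 (F (T t408 (L l22 (T t151 (L l22 (T t409 (K a196 (M a199 (F (T t680 (L l311 (T t5398 N))))) (K a199 (M a196 (F (T t408 (T t5401 N)))) N)))))))))) (K a61 (M a48 (L l229 (F (T t247 (L l35 (L l65 (L l491 (T t1 (L l311 (T t65 (K a196 (M a199 (F (T t0 (L l492 (T t5402 N))))) (K a199 (M a196 (F (T t0 (T t5403 N)))) N)))))))))))) (K a22 (M a4 (L l229 (F (T t1624 (L l66 (T t519 (L l48 (L l66 (L l491 (T t1623 (K a196 (M a199 (F (T t1624 (L l48 (L l66 (L l312 (T t5404 N))))))) (K a199 (M a196 (F (T t1624 (L l48 (L l66 (L l275 (L l277 (L l492 (T t5405 N))))))))) N)))))))))))) (K a42 (M a192 (L l229 (F (T t77 (L l237 (L l491 (T t73 (L l22 (L l491 (T t74 (K a196 (M a199 (F (T t1333 (L l237 (L l390 (T t75 (L l22 (L l491 (L l495 (T t74 N)))))))))) (K a199 (M a196 (F (T t1333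 (L l390 (L l493 (T t5400 N)))))) N)))))))))))) (K a62 (M a48 (L l229 (F (T t247 (L l491 (T t1 (L l36 (L l66 (L l311 (T t65 (K a196 (M a199 (F (T t3 (L l492 (L l516 (T t5402 N)))))) (K a199 (M a196 (F (T t3 (T t5403 N)))) N)))))))))))) (K a3 (M a48 (L l229 (F (T t1543 (L l7 (L l491 (T t1 (L l43 (L l491 (T t64 (K a196 (M a199 (F (T t610 (L l492 (T t5402 N))))) (K a199 (M a196 (F (T t610 (T t5403 N)))) N)))))))))))) (K a196 (M a199 (F (T t67 (T t43 (T t68 (T t69 (K a20 (M a52 (F (L l11 (L l315 (T t5406 (L l491 (T t5407 N))))))) (K a40 (M a52 (F (L l315 (T t5408 (L l392 (L l491 (T t5407 N))))))) (K a21 (M a52 (F (T t1629 (L l312 (T t5409 N))))) (K a41 (M a52 (F (L l57 (T t1629 (L l22 (L l312 (T t5409 N))))))) (K a61 (M a48 (F (T t0 (L l492 (T t5402 N))))) (K a22 (M a4 (F (T t1624 (L l48 (L l66 (L l312 (T t5404 N))))))) (K a42 (M a52 (F (L l22 (L l310 (T t3773 (L l232 (L l234 (L l236 (L l491 (T t1625 N)))))))))) (K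 a62 (M a48 (F (T t3 (L l492 (L l516 (T t5402 N)))))) (K a3 (M a48 (F (T t610 (L l492 (T t5402 N))))) N))))))))))))))) (K a199 (M a196 (F (T t67 (T t43 (T t68 (T t69 (K a20 (M a192 (F (T t202 (L l46 (L l494 (T t5410 N)))))) (K a40 (M a192 (F (T t202 (L l388 (L l494 (T t5410 N)))))) (K a21 (M a192 (F (T t1333 (L l50 (L l493 (T t5400 N)))))) (K a41 (M a192 (F (T t1333 (L l493 (T t5400 N))))) (K a61 (M a192 (F (T t1333 (L l493 (T t5400 N))))) (K a22 (M a192 (F (T t1333 (L l493 (T t5400 N))))) (K a42 (M a192 (F (T t1333 (L l390 (L l493 (T t5400 N)))))) (K a62 (M a192 (F (T t1333 (L l493 (L l516 (T t5400 N)))))) (K a3 (M a192 (F (T t1800 (L l45 (L l494 (T t5410 N)))))) N))))))))))))))) N))))))))))))))))))⟩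
def e0_63__197_121 : Ent 4 := ⟨[a0, a63], [a197, a199], (M a60 (L l229 (F (T t67 (T t43 (T t68 (T t69 (K a20 (M a12 (L l229 (F (T t151 (T t398 (L l11 (L l46 (L l314 (T t399 (K a196 (M a198 (F (T t680 (T t151 (L l11 (L l46 (L l310 (L l314 (T t399 N))))))))) (K a198 (M a196 (F (T t402 (T t5399 N)))) N))))))))))) (K a40 (M a12 (L l229 (F (T t122 (T t398 (L l24 (L l314 (T t399 (K a196 (M a198 (F (T t680 (L l22 (T t151 (L l24 (L l310 (L l314 (T t399 N))))))))) (K a198 (M a196 (F (T t408 (L l22 (L l52 (T t5399 N)))))) N)))))))))) (K a21 (M a192 (L l229 (F (T t72 (L l235 (L l347 (L l491 (T t73 (L l277 (L l347 (L l491 (T t74 (K a196 (M a198 (F (T t1333 (L l235 (L l493 (T t75 (L l277 (L l347 (L l491 (L l495 (T t74 N))))))))))) (K a198 (M a196 (F (T t1333 (L l50 (L l493 (T t5400 N)))))) N)))))))))))))) (K a41 (M a85 (L l229 (F (T t1563 (L l65 (T t52 (L l22 (L l65 (L l277 (T t523 (K a196 (M a198 (F (T t114 (L l22 (L l277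 (T t5411 N)))))) (K a198 (M a196 (F (T t114 (L l22 (L l275 (L l493 (T t5412 N))))))) N)))))))))))) (K a61 (M a85 (L l229 (F (T t4539 (L l277 (T t936 (L l275 (L l277 (T t115 (K a196 (M a198 (F (T t4539 (L l277 (T t5411 N))))) (K a198 (M a196 (F (T t5413 (L l275 (L l493 (T t5412 N)))))) N))))))))))) (K a22 (M a85 (L l229 (F (T t5413 (L l66 (L l236 (L l275 (T t88 (L l277 (T t523 (K a196 (M a198 (F (T t114 (L l48 (L l277 (T t5411 N)))))) (K a198 (M a196 (F (T t5413 (L l66 (L l275 (L l493 (T t5412 N))))))) N)))))))))))) (K a42 (M a192 (L l229 (F (T t77 (L l235 (L l491 (T t73 (L l22 (L l277 (L l491 (T t74 (K a196 (M a198 (F (T t1333 (L l235 (L l390 (L l493 (T t75 (L l22 (L l277 (L l491 (L l495 (T t74 N)))))))))))) (K a198 (M a196 (F (T t1333 (L l390 (L l493 (T t5400 N)))))) N))))))))))))) (K a62 (M a85 (L l229 (F (T t1563 (L l66 (L l236 (L l275 (T t88 (L l66 (L l275 (L l277 (T t115 (K a196 (M a198 (F (T t52 (L l36 (L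 l277 (T t5411 N)))))) (K a198 (M a196 (F (T t1563 (L l66 (L l275 (L l493 (T t5412 N))))))) N)))))))))))))) (K a3 (M a85 (L l229 (F (T t4539 (L l277 (T t2431 (L l277 (T t523 (K a196 (M a198 (F (T t4539 (L l277 (T t5411 N))))) (K a198 (M a196 (F (T t5413 (L l275 (L l493 (T t5412 N)))))) N)))))))))) (K a196 (M a198 (F (T t67 (T t43 (T t68 (T t69 (K a20 (M a150 (F (L l233 (T t5414 (L l11 (T t5415 N)))))) (K a40 (M a106 (F (T t778 (T t5416 N)))) (K a21 (M a150 (F (T t1439 (L l490 (L l495 (T t5417 N)))))) (K a41 (M a85 (F (T t114 (L l22 (L l277 (T t5411 N)))))) (K a61 (M a85 (F (T t4539 (L l277 (T t5411 N))))) (K a22 (M a85 (F (T t114 (L l48 (L l277 (T t5411 N)))))) (K a42 (M a150 (F (T t1439 (L l56 (L l490 (L l495 (T t5417 N))))))) (K a62 (M a85 (F (T t52 (L l36 (L l277 (T t5411 N)))))) (K a3 (M a85 (F (T t4539 (L l277 (T t5411 N))))) N))))))))))))))) (K a198 (M a196 (F (T t67 (T t43 (T t68 (T t69 (K a20 (M a192 (F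 (T t202 (L l46 (L l494 (T t5410 N)))))) (K a40 (M a192 (F (T t202 (L l388 (L l494 (T t5410 N)))))) (K a21 (M a192 (F (T t1333 (L l50 (L l493 (T t5400 N)))))) (K a41 (M a192 (F (T t1333 (L l493 (T t5400 N))))) (K a61 (M a192 (F (T t1333 (L l493 (T t5400 N))))) (K a22 (M a192 (F (T t1333 (L l493 (T t5400 N))))) (K a42 (M a192 (F (T t1333 (L l390 (L l493 (T t5400 N)))))) (K a62 (M a192 (F (T t1333 (L l493 (L l516 (T t5400 N)))))) (K a3 (M a192 (F (T t1800 (L l45 (L l494 (T t5410 N)))))) N))))))))))))))) N))))))))))))))))))⟩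
def e0_63__197_122 : Ent 4 := ⟨[a0, a63], [a197, a202], (M a192 (F (L l491 (T t21 (L l498 (T t202 (L l282 (L l491 (T t35 (L l275 (L l498 (T t37 (K a64 (M a12 (F (T t151 (L l491 (T t450 (L l80 (L l144 (L l275 (L l498 (T t160 N)))))))))) (K a128 (M a12 (F (T t151 (L l220 (L l491 (T t450 (L l275 (L l498 (T t160 N))))))))) (K a21 (M a240 (F (T t5418 (L l318 (L l347 (L l491 (T t4220 (L l318 (L l347 (L l491 (T t4221 N))))))))))) (K a85 (M a16 (F (T t210 (T t97 (L l94 (L l144 (L l498 (T t211 N)))))))) (K a149 (M a48 (L l491 (F (T t837 (L l311 (L l498 (T t2 (L l170 (L l220 (L l347 (T t5419 (L l311 (L l375 (L l498 (T t214 (K a101 (Fr a53 a58 l38 (V t5367)) (K a53 (M a101 (F (L l170 (L l498 (T t5420 (L l311 (T t2198 (T t837 N)))))))) N))))))))))))))))) (K a42 (M a240 (F (T t5418 (L l318 (L l491 (T t4220 (L l318 (L l491 (T t4221 N))))))))) (K a106 (M a48 (L l498 (F (T t27 (L l318 (L l491 (T t1 (L l318 (L l411 (L l491 (T t213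 (L l104 (L l144 (L l390 (T t5421 (K a154 (Fr a58 a53 l38 (V t5422)) (K a58 (M a154 (F (L l104 (L l491 (T t5423 (L l390 (L l426 (T t3243 (T t27 N))))))))) N))))))))))))))))) (K a170 (M a32 (F (T t218 (T t219 (L l180 (L l220 (L l491 (T t220 N)))))))) (K a255 (M a16 (F (T t1805 (L l469 (T t97 (L l498 (T t211 N))))))) N)))))))))))))))))))))⟩
def e0_63__197_123 : Ent 4 := ⟨[a0, a63], [a197, a203], (M a85 (F (T t52 (L l236 (L l275 (T t88 (L l275 (T t89 (L l236 (T t90 (K a64 (M a12 (F (T t124 (L l275 (L l320 (T t572 N)))))) (K a192 (M a207 (F (L l484 (T t2114 (L l339 (T t2057 (L l275 (L l296 (L l320 (L l484 (T t2058 (L l320 (L l339 (L l500 (T t2059 N))))))))))))))) (K a21 (M a48 (F (T t99 (T t50 (L l47 (L l230 (L l236 (L l491 (T t100 N))))))))) (K a149 (M a53 (F (L l311 (T t982 (L l220 (L l275 (T t1560 (L l199 (T t2060 N))))))))) (K a213 (Fr a170 a255 l476 (Fr a42 a21 l68 (Fr a106 a234 l390 (Fr a192 a149 l519 (V t581)))))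 (K a42 (M a48 (F (T t364 (L l390 (T t50 (L l28 (L l230 (L l236 (L l491 (T t100 N)))))))))) (K a106 (M a48 (F (T t99 (L l411 (T t3 (L l390 (T t50 N))))))) (K a170 (M a4 (F (L l320 (L l464 (T t130 (L l275 (L l390 (T t131 (L l320 (L l390 (L l464 (T t519 (L l320 (L l464 (T t938 N))))))))))))))) (K a255 (M a16 (F (T t504 (L l230 (L l236 (L l289 (L l491 (T t113 (L l275 (L l289 (L l296 (T t98 N)))))))))))) N)))))))))))))))))))⟩
def e0_63__197_124 : Ent 4 := ⟨[a0, a63], [a197, a207], (M a192 (F (T t1800 (L l289 (L l491 (T t21 (L l289 (L l491 (T t35 (L l289 (T t202 (L l275 (L l289 (T t37 (K a64 (M a12 (F (T t2061 (L l301 (L l491 (T t450 (L l80 (L l144 (L l275 (T t160 N)))))))))) (K a128 (M a12 (F (T t150 (L l220 (L l301 (L l491 (T t450 (L l275 (T t160 N))))))))) (K a21 (M a240 (F (T t4730 (L l325 (L l347 (L l491 (T t4220 (L l347 (L l491 (T t4221 N)))))))))) (K a85 (M a16 (F (T t504 (L l303 (T t210 (L l94 (L l144 (T t211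 N)))))))) (K a149 (M a48 (L l491 (F (T t1922 (L l311 (L l325 (T t2 (L l170 (L l220 (L l303 (L l325 (L l347 (T t5419 (L l311 (L l325 (L l375 (T t214 (K a101 (Fr a53 a58 l38 (V t5367)) (K a53 (M a101 (F (T t1922 (L l47 (L l289 (L l347 (T t5424 (L l170 (L l220 (L l311 (T t5425 N))))))))))) N))))))))))))))))))) (K a42 (M a240 (F (T t5426 (L l325 (L l491 (T t4220 (L l491 (T t4221 N)))))))) (K a106 (M a48 (F (T t55 (L l325 (L l491 (T t1 (L l325 (L l411 (L l491 (T t213 (L l104 (L l144 (L l311 (L l325 (L l390 (L l498 (T t214 N))))))))))))))))) (K a170 (M a32 (F (L l303 (T t218 (L l325 (T t219 (L l180 (L l220 (L l491 (T t220 N)))))))))) (K a255 (M a16 (L l289 (F (T t504 (L l266 (L l303 (T t210 (T t211 (K a223 (M a239 (F (T t1805 (L l325 (L l361 (L l469 (T t97 (T t211 N)))))))) (K a239 (M a223 (F (L l404 (T t504 (T t5427 (L l266 (L l303 (L l404 (T t210 N))))))))) N)))))))))) N)))))))))))))))))))))))⟩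
def e0_63__197_125 : Ent 4 := ⟨[a0, a63], [a197, a208], (M a12 (F (T t122 (T t151 (T t152 (T t153 (K a4 (M a60 (F (T t43 (T t398 (T t448 N))))) (K a8 (M a60 (F (T t398 (T t67 (L l52 (L l56 (T t448 N))))))) (K a21 (M a192 (F (T t836 (L l15 (L l347 (L l375 (L l491 (T t450 (L l15 (L l347 (L l375 (L l491 (T t157 N))))))))))))) (K a25 (M a192 (F (T t449 (L l15 (L l375 (L l491 (T t450 (L l375 (L l491 (T t21 N)))))))))) (K a29 (M a192 (F (T t449 (L l371 (L l375 (L l491 (T t21 (L l246 (L l275 (T t160 N)))))))))) (K a38 (M a192 (F (T t836 (L l375 (L l491 (T t450 (L l375 (L l491 (T t21 N))))))))) (K a42 (M a192 (F (T t449 (L l375 (L l491 (T t450 (L l56 (L l375 (L l491 (T t157 N)))))))))) (K a46 (M a192 (F (T t449 (L l375 (L l491 (T t21 (L l26 (L l246 (L l275 (L l408 (T t160 N))))))))))) (K a51 (M a192 (F (T t1800 (L l513 (T t156 (L l375 (L l415 (L l491 (T t450 N))))))))) N)))))))))))))))⟩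
def e0_63__197_126 : Ent 4 := ⟨[a0, a63], [a197, a209], (M a60 (F (T t67 (T t43 (T t68 (T t69 (K a20 (M a48 (F (T t70 (L l11 (L l491 (T t1 (L l11 (T t235 N)))))))) (K a40 (M a48 (F (T t70 (L l491 (T t1 (L l52 (T t235 N))))))) (K a21 (M a192 (F (T t72 (L l347 (L l371 (L l491 (T t73 (L l347 (L l371 (L l491 (T t74 N))))))))))) (K a41 (M a192 (F (T t79 (L l65 (L l371 (L l491 (T t35 (L l371 (L l491 (T t73 N)))))))))) (K a61 (M a192 (F (T t72 (L l65 (L l371 (L l491 (L l515 (T t35 (L l243 (L l275 (T t80 N))))))))))) (K a22 (M a192 (F (T t72 (L l371 (L l491 (T t21 (L l371 (L l491 (T t73 N))))))))) (K a42 (M a192 (F (T t77 (L l371 (L l491 (T t73 (L l22 (L l371 (L l491 (T t74 N)))))))))) (K a62 (M a192 (F (T t72 (L l371 (L l491 (T t35 (L l66 (L l243 (L l275 (L l516 (T t80 N))))))))))) (K a3 (M a149 (F (T t5317 (L l233 (L l243 (L l269 (L l275 (T t1256 N)))))))) N)))))))))))))))⟩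
def e0_63__197_127 : Ent 4 := ⟨[a0, a63], [a197, a210], (M a60 (F (T t67 (T t43 (T t68 (T t69 (K a20 (M a48 (F (T t70 (L l11 (L l491 (T t1 (L l11 (T t235 N)))))))) (K a40 (M a48 (F (T t70 (L l491 (T t1 (L l52 (T t235 N))))))) (K a21 (M a192 (F (T t72 (L l273 (L l347 (L l491 (T t73 (L l347 (L l491 (T t74 N)))))))))) (K a41 (M a192 (F (T t79 (L l65 (L l491 (T t35 (L l273 (L l491 (T t73 N))))))))) (K a61 (M a192 (F (T t72 (L l65 (L l491 (L l515 (T t35 (L l275 (T t80 N))))))))) (K a22 (M a192 (F (T t72 (L l491 (T t21 (L l273 (L l491 (T t73 N)))))))) (K a42 (M a192 (F (T t77 (L l273 (L l491 (T t73 (L l22 (L l491 (T t74 N))))))))) (K a62 (M a192 (F (T t72 (L l491 (T t35 (L l66 (L l275 (L l516 (T t80 N))))))))) (K a3 (M a149 (F (T t5317 (L l233 (L l275 (T t1256 N)))))) N)))))))))))))))⟩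
def e0_63__197_128 : Ent 4 := ⟨[a0, a63], [a197, a211], (M a85 (F (T t52 (L l236 (L l275 (T t88 (L l275 (T t89 (L l236 (T t90 (K a64 (M a48 (F (T t50 (L l245 (L l275 (T t568 N)))))) (K a192 (M a207 (F (T t5319 (L l339 (T t2057 (L l275 (L l296 (L l484 (T t2058 (L l339 (L l373 (T t2059 N)))))))))))) (K a21 (M a48 (F (L l245 (T t99 (T t50 (L l47 (L l236 (L l245 (L l491 (T t100 N)))))))))) (K a149 (M a53 (F (L l311 (T t982 (L l220 (L l275 (T t1560 (L l199 (T t2060 N))))))))) (K a213 (Fr a170 a255 l476 (Fr a42 a21 l68 (Fr a106 a234 l390 (Fr a192 a149 l519 (V t581))))) (K a42 (M a48 (F (L l344 (T t364 (L l390 (T t50 (L l28 (L l236 (L l245 (L l491 (T t100 N))))))))))) (K a106 (M a48 (F (L l491 (T t1 (L l245 (T t99 (L l390 (T t50 N)))))))) (K a170 (M a4 (F (L l464 (T t130 (L l275 (L l390 (T t131 (L l390 (L l464 (T t519 (L l238 (L l271 (L l464 (T t938 N)))))))))))))) (K a255 (M a16 (F (L l311 (T t112 (L l236 (L l245 (L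 l289 (L l491 (T t113 (L l245 (L l275 (L l289 (L l296 (T t98 N)))))))))))))) N)))))))))))))))))))⟩
def e0_63__197_129 : Ent 4 := ⟨[a0, a63], [a197, a213], (M a12 (L l275 (F (T t151 (L l347 (T t122 (L l347 (T t152 (T t153 (K a4 (M a15 (L l275 (F (T t2544 (L l491 (T t716 (L l1 (L l50 (L l311 (L l347 (T t2545 (K a229 (M a245 (F (T t720 (L l347 (L l458 (T t5428 N)))))) (K a245 (M a229 (F (T t720 (L l50 (L l347 (T t732 (L l419 (L l491 (T t4354 N))))))))) N))))))))))))) (K a8 (M a15 (L l275 (F (T t2544 (L l2 (L l56 (L l491 (T t716 (L l311 (L l347 (T t2545 (K a229 (M a245 (F (T t720 (L l2 (L l56 (L l347 (T t5428 N))))))) (K a245 (M a229 (F (T t720 (L l347 (T t732 (L l2 (L l56 (L l419 (L l491 (T t4354 N)))))))))) N))))))))))))) (K a21 (M a85 (L l275 (F (T t1370 (L l15 (L l278 (T t574 (T t124 (K a229 (M a245 (F (T t5429 (L l15 (L l278 (T t574 N)))))) (K a245 (M a229 (F (T t1370 (L l15 (L l259 (L l278 (T t574 (T t124 N))))))))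 N)))))))))) (K a25 (M a48 (L l275 (F (T t550 (L l15 (L l347 (L l491 (T t1 (L l12 (L l56 (L l311 (T t866 (K a229 (M a245 (F (T t550 (L l383 (T t5430 N))))) (K a245 (M a229 (F (T t550 (L l15 (L l347 (T t3 (L l12 (L l56 (L l311 (L l455 (T t866 N))))))))))) N)))))))))))))) (K a29 (M a48 (L l275 (F (T t550 (L l15 (L l347 (L l491 (T t1 (L l311 (T t866 (K a229 (M a245 (F (T t445 (T t5431 N)))) (K a245 (M a229 (F (T t445 (L l311 (L l455 (T t2 (L l311 (L l455 (T t866 N))))))))) N)))))))))))) (K a38 (M a48 (L l275 (F (T t1580 (L l26 (L l311 (T t2 (L l21 (L l50 (L l347 (L l491 (T t868 (K a229 (M a245 (F (T t1580 (L l26 (T t5431 N))))) (K a245 (M a229 (F (T t1580 (L l26 (L l311 (L l455 (T t2 (L l21 (L l50 (L l347 (L l419 (L l491 (T t868 N))))))))))))) N)))))))))))))) (K a42 (M a85 (L l275 (F (L l296 (T t1373 (L l390 (T t124 (L l56 (L l278 (T t574 (K a229 (M a245 (F (L l390 (T t124 (L l54 (L l383 (T t5432 N))))))) (K a245 (M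 a229 (F (L l266 (L l296 (T t1373 (L l390 (T t124 (L l56 (L l259 (L l278 (T t574 N))))))))))) N)))))))))))) (K a46 (M a48 (L l275 (F (T t443 (L l347 (L l491 (T t1 (L l26 (L l311 (T t866 (K a229 (M a245 (F (T t1580 (L l26 (T t5431 N))))) (K a245 (M a229 (F (T t1580 (L l26 (L l311 (L l455 (T t2 (L l26 (L l311 (L l455 (T t866 N))))))))))) N)))))))))))) (K a51 (M a48 (L l275 (F (T t145 (L l73 (L l347 (L l491 (T t1 (L l73 (L l311 (T t866 (K a229 (M a245 (F (T t865 (T t5431 N)))) (K a245 (M a229 (F (T t610 (L l39 (T t445 (L l73 (L l311 (L l455 (T t866 N))))))))) N))))))))))))) (K a229 (M a245 (F (T t151 (L l347 (T t122 (L l347 (T t152 (T t153 (K a4 (M a85 (F (T t124 (L l383 (L l491 (T t5433 N)))))) (K a8 (M a85 (F (L l464 (T t124 (L l2 (L l56 (L l383 (L l491 (T t5433 N))))))))) (K a21 (M a85 (F (T t5429 (L l15 (L l278 (T t574 N)))))) (K a25 (M a48 (F (T t550 (L l383 (T t5430 N))))) (K a29 (M a48 (F (T t445 (T t5431 N))))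 (K a38 (M a48 (F (T t1580 (L l26 (T t5431 N))))) (K a42 (M a240 (F (T t5434 (L l491 (T t5435 N))))) (K a46 (M a48 (F (T t1580 (L l26 (T t5431 N))))) (K a51 (M a48 (F (T t865 (T t5431 N)))) N))))))))))))))))) (K a245 (M a229 (F (T t151 (L l347 (T t122 (L l347 (T t152 (T t153 (K a4 (M a60 (F (T t402 (T t69 (L l46 (L l50 (L l347 (T t1096 N)))))))) (K a8 (M a60 (F (T t402 (L l56 (T t69 (L l347 (T t1096 N))))))) (K a21 (M a85 (F (T t1370 (L l15 (L l259 (L l278 (T t574 (T t124 N)))))))) (K a25 (M a192 (F (T t543 (L l56 (L l229 (L l278 (T t468 (L l266 (L l347 (L l491 (T t21 N))))))))))) (K a29 (M a192 (F (T t836 (L l266 (L l347 (L l371 (L l491 (T t21 (L l347 (L l371 (L l491 (T t2623 N)))))))))))) (K a38 (M a192 (F (T t836 (T t543 (L l266 (L l347 (L l491 (T t21 N)))))))) (K a42 (M a192 (F (T t836 (L l390 (T t543 (L l56 (L l259 (L l278 (L l347 (L l491 (T t157 N))))))))))) (K a46 (M a192 (F (T t836 (L l266 (L l347 (L l491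 (T t21 (L l347 (L l491 (T t2623 N)))))))))) (K a51 (M a192 (F (T t1725 (L l415 (T t543 (L l266 (L l347 (L l439 (L l491 (T t21 N)))))))))) N))))))))))))))))) N))))))))))))))))))))⟩
def e0_63__197_130 : Ent 4 := ⟨[a0, a63], [a197, a214], (M a85 (F (L l294 (T t52 (L l236 (L l239 (L l275 (T t88 (L l239 (L l275 (T t89 (L l236 (T t90 (K a64 (M a16 (F (T t97 (L l236 (T t259 (L l116 (L l239 (L l275 (T t98 N))))))))) (K a192 (M a207 (F (T t2056 (L l339 (T t2057 (L l239 (L l275 (L l296 (L l484 (T t2058 (L l339 (T t2059 N)))))))))))) (K a21 (M a48 (F (T t99 (T t50 (L l47 (L l236 (L l491 (T t100 N)))))))) (K a149 (M a53 (F (L l311 (T t982 (L l220 (L l275 (T t1560 (L l199 (T t2060 N))))))))) (K a213 (Fr a170 a255 l476 (Fr a42 a21 l68 (Fr a106 a234 l390 (Fr a192 a149 l519 (V t581))))) (K a42 (M a48 (F (T t364 (L l390 (T t50 (L l28 (L l236 (L l491 (T t100 N))))))))) (K a106 (M a48 (F (T t99 (L l411 (T t3 (L l390 (T t50 N)))))))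 (K a170 (M a48 (F (T t3 (L l206 (L l220 (L l236 (L l239 (L l275 (L l311 (L l390 (T t3747 (L l236 (L l404 (L l491 (T t100 N))))))))))))))) (K a255 (M a16 (F (T t504 (L l236 (L l289 (L l491 (T t113 (L l239 (L l275 (L l289 (L l296 (T t98 N)))))))))))) N))))))))))))))))))))))⟩
def e0_63__197_131 : Ent 4 := ⟨[a0, a63], [a197, a215], (M a48 (F (T t3 (L l491 (T t1 (L l311 (T t2 (T t0 (K a16 (M a60 (F (T t70 (L l14 (L l18 (L l350 (T t67 (L l311 (L l349 (T t65 N)))))))))) (K a32 (M a60 (F (T t70 (L l350 (T t67 (L l24 (L l28 (L l311 (L l349 (T t65 N)))))))))) (K a21 (M a192 (F (T t27 (L l347 (L l491 (T t225 (L l245 (L l347 (L l491 (T t861 N)))))))))) (K a37 (M a192 (F (T t19 (L l491 (T t225 (L l295 (L l491 (T t21 N)))))))) (K a53 (M a149 (F (T t4854 (T t13 (L l239 (L l245 (L l275 (T t26 N)))))))) (K a26 (M a192 (F (T t837 (L l491 (T t225 (L l295 (L l491 (T t21 N)))))))) (K a42 (M a192 (F (T t27 (L l491 (T t225 (L l28 (L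 l245 (L l491 (T t861 N))))))))) (K a58 (M a192 (F (T t19 (L l295 (L l491 (T t21 (L l54 (L l239 (L l275 (L l498 (T t31 N))))))))))) (K a15 (M a85 (F (L l483 (T t50 (L l239 (L l245 (L l275 (T t568 N)))))))) N)))))))))))))))))⟩
def e0_63__197_132 : Ent 4 := ⟨[a0, a63], [a197, a218], (M a85 (F (L l282 (T t52 (L l246 (L l275 (T t89 (L l236 (L l246 (L l275 (T t88 (L l236 (T t90 (K a64 (M a48 (F (T t3 (L l246 (T t99 (L l303 (T t50 N))))))) (K a192 (M a207 (F (T t5332 (L l339 (T t2057 (L l484 (T t5436 (L l339 (L l354 (T t2059 N)))))))))) (K a21 (M a240 (F (T t2803 (L l275 (T t933 (T t1385 N)))))) (K a149 (M a53 (F (L l311 (T t982 (L l220 (L l275 (L l303 (T t1560 (L l199 (T t2060 N)))))))))) (K a213 (Fr a170 a255 l476 (Fr a42 a21 l68 (Fr a106 a234 l390 (Fr a192 a149 l519 (V t581))))) (K a42 (M a240 (F (T t2803 (L l390 (T t386 (T t1385 N)))))) (K a106 (M a48 (F (T t364 (L l411 (T t3 (L l303 (L l390 (T t50 N)))))))) (K a170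 (M a4 (F (L l464 (T t130 (L l246 (L l275 (L l390 (T t131 (L l390 (L l464 (T t519 (L l464 (T t938 N))))))))))))) (K a255 (M a4 (F (T t129 (L l265 (T t130 (L l246 (L l265 (L l275 (L l296 (T t131 N)))))))))) N))))))))))))))))))))))⟩
def e0_63__197_133 : Ent 4 := ⟨[a0, a63], [a197, a219], (M a85 (F (T t52 (L l236 (L l275 (T t88 (L l275 (T t89 (L l236 (T t90 (K a64 (M a48 (F (T t50 (L l245 (L l275 (T t568 N)))))) (K a192 (M a207 (F (T t5332 (L l339 (T t2057 (L l275 (L l296 (L l484 (T t2058 (L l339 (L l356 (T t2059 N)))))))))))) (K a21 (M a48 (F (L l245 (T t99 (T t50 (L l47 (L l236 (L l245 (L l491 (T t100 N)))))))))) (K a149 (M a53 (F (L l311 (T t982 (L l220 (L l275 (T t1560 (L l199 (T t2060 N))))))))) (K a213 (Fr a170 a255 l476 (Fr a42 a21 l68 (Fr a106 a234 l390 (Fr a192 a149 l519 (V t581))))) (K a42 (M a48 (F (T t364 (L l390 (T t50 (L l28 (L l236 (L l245 (L l491 (T t100 N)))))))))) (K a106 (M a48 (F (T t364 (L l411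 (T t3 (L l390 (T t50 N))))))) (K a170 (M a4 (F (L l464 (T t130 (L l275 (L l390 (T t131 (L l390 (L l464 (T t519 (L l301 (L l464 (T t938 N))))))))))))) (K a255 (M a16 (F (T t504 (L l236 (L l245 (L l289 (L l491 (T t113 (L l245 (L l275 (L l289 (L l296 (T t98 N))))))))))))) N)))))))))))))))))))⟩
def e0_63__197_134 : Ent 4 := ⟨[a0, a63], [a197, a223], (M a60 (F (T t67 (T t43 (T t68 (T t69 (K a20 (M a48 (F (T t70 (L l11 (L l491 (T t1 (L l11 (T t235 N)))))))) (K a40 (M a48 (F (T t70 (L l491 (T t1 (L l52 (T t235 N))))))) (K a21 (M a192 (F (T t72 (L l347 (L l491 (T t73 (L l245 (L l347 (L l491 (T t74 N)))))))))) (K a41 (M a192 (F (T t79 (L l65 (L l289 (L l491 (T t35 (L l491 (T t73 N))))))))) (K a61 (M a192 (F (T t72 (L l65 (L l289 (L l491 (L l515 (T t35 (L l246 (L l275 (T t80 N))))))))))) (K a22 (M a192 (F (T t72 (L l289 (L l491 (T t21 (L l491 (T t73 N)))))))) (K a42 (M a192 (F (T t77 (L l491 (T t73 (L l22 (L l245 (L l491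 (T t74 N))))))))) (K a62 (M a192 (F (T t72 (L l289 (L l491 (T t35 (L l66 (L l246 (L l275 (L l516 (T t80 N))))))))))) (K a3 (M a149 (F (T t5317 (L l233 (L l246 (L l275 (T t1256 N))))))) N)))))))))))))))⟩
def e0_63__197_135 : Ent 4 := ⟨[a0, a63], [a197, a224], (M a12 (F (T t122 (T t151 (T t152 (T t153 (K a4 (M a60 (F (T t43 (T t398 (T t448 N))))) (K a8 (M a60 (F (T t398 (T t67 (L l52 (L l56 (T t448 N))))))) (K a21 (M a192 (F (T t836 (L l15 (L l248 (L l347 (L l491 (T t450 (L l15 (L l248 (L l347 (L l491 (T t157 N))))))))))))) (K a25 (M a192 (F (T t449 (L l15 (L l248 (L l491 (T t450 (L l491 (T t21 N))))))))) (K a29 (M a192 (F (T t449 (L l371 (L l491 (T t21 (L l275 (L l411 (T t160 N))))))))) (K a38 (M a192 (F (T t836 (L l248 (L l491 (T t450 (L l491 (T t21 N)))))))) (K a42 (M a192 (F (T t449 (L l248 (L l491 (T t450 (L l56 (L l248 (L l491 (T t157 N)))))))))) (K a46 (M a192 (F (T t449 (L l491 (T t21 (L l26 (L l275 (L l408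 (L l411 (T t160 N)))))))))) (K a51 (M a192 (F (T t1725 (L l248 (L l415 (L l491 (T t450 (L l439 (L l491 (T t21 N)))))))))) N)))))))))))))))⟩
def e0_63__197_136 : Ent 4 := ⟨[a0, a63], [a197, a225], (M a60 (F (T t67 (T t43 (T t68 (T t69 (K a20 (M a48 (F (T t70 (L l11 (L l491 (T t1 (L l11 (T t235 N)))))))) (K a40 (M a48 (F (T t70 (L l491 (T t1 (L l52 (T t235 N))))))) (K a21 (M a192 (F (T t72 (L l273 (L l347 (L l491 (T t73 (L l347 (L l491 (T t74 N)))))))))) (K a41 (M a192 (F (T t77 (L l65 (L l491 (T t35 (L l273 (L l491 (T t73 N))))))))) (K a61 (M a192 (F (T t72 (L l65 (L l491 (L l515 (T t35 (L l275 (T t80 N))))))))) (K a22 (M a192 (F (T t72 (L l491 (T t21 (L l273 (L l491 (T t73 N)))))))) (K a42 (M a192 (F (T t77 (L l273 (L l491 (T t73 (L l22 (L l491 (T t74 N))))))))) (K a62 (M a192 (F (T t72 (L l491 (T t35 (L l66 (L l275 (L l516 (T t80 N))))))))) (K a3 (M a149 (F (T t5317 (L l233 (L l269 (L l275 (T t1256 N))))))) N)))))))))))))))⟩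
def e0_63__197_137 : Ent 4 := ⟨[a0, a63], [a197, a226], (M a48 (F (T t3 (L l491 (T t1 (L l311 (T t2 (T t0 (K a16 (M a60 (F (T t43 (L l491 (T t64 (L l311 (T t65 N))))))) (K a32 (M a60 (F (T t67 (L l491 (T t64 (L l24 (L l28 (L l311 (T t65 N))))))))) (K a21 (M a192 (F (T t27 (L l347 (L l491 (T t225 (L l347 (L l491 (T t861 N))))))))) (K a37 (M a192 (F (T t837 (L l491 (T t225 (L l491 (T t21 N))))))) (K a53 (M a149 (F (L l275 (T t25 (L l408 (T t13 (L l275 (T t26 N)))))))) (K a26 (M a192 (F (T t837 (L l491 (T t225 (L l491 (T t21 N))))))) (K a42 (M a192 (F (T t27 (L l491 (T t225 (L l28 (L l491 (T t861 N)))))))) (K a58 (M a192 (F (T t27 (L l491 (T t21 (L l54 (L l275 (L l408 (L l498 (T t31 N)))))))))) (K a15 (M a192 (F (T t1922 (L l325 (L l491 (T t225 (L l469 (L l491 (T t21 N))))))))) N)))))))))))))))))⟩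
def e0_63__197_138 : Ent 4 := ⟨[a0, a63], [a197, a227], (M a85 (F (T t52 (L l236 (L l275 (T t88 (L l275 (T t89 (L l236 (T t90 (K a64 (M a48 (F (T t50 (L l275 (L l380 (T t568 N)))))) (K a192 (M a207 (F (T t2056 (L l339 (T t2057 (L l275 (L l296 (L l484 (T t2058 (L l339 (L l380 (T t2059 N)))))))))))) (K a21 (M a48 (F (L l380 (T t99 (T t50 (L l47 (L l236 (L l380 (L l491 (T t100 N)))))))))) (K a149 (M a53 (F (L l311 (T t982 (L l220 (L l275 (T t1560 (L l199 (T t2060 N))))))))) (K a213 (Fr a170 a255 l476 (Fr a42 a21 l68 (Fr a106 a234 l390 (Fr a192 a149 l519 (V t581))))) (K a42 (M a48 (F (L l255 (T t364 (L l390 (T t50 (L l28 (L l236 (L l380 (L l491 (T t100 N))))))))))) (K a106 (M a48 (F (L l380 (T t99 (L l409 (L l411 (T t3 (L l390 (T t50 N))))))))) (K a170 (M a4 (F (L l390 (L l464 (T t519 (L l275 (L l390 (T t131 (L l248 (L l464 (T t130 (L l271 (L l464 (T t938 N)))))))))))))) (K a255 (M a16 (F (L l380 (T t504 (L l275 (L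 l289 (L l296 (T t98 (L l236 (L l289 (L l380 (L l491 (T t113 N))))))))))))) N)))))))))))))))))))⟩
def e0_63__197_139 : Ent 4 := ⟨[a0, a63], [a197, a229], (M a12 (L l275 (F (T t122 (T t151 (T t152 (T t153 (K a4 (M a255 (L l275 (F (T t2999 (L l236 (T t1165 (L l50 (L l256 (L l458 (T t3000 (K a213 (M a245 (F (T t2124 (L l1 (L l311 (T t5437 N)))))) (K a245 (M a213 (F (T t5006 (T t2486 N)))) N)))))))))))) (K a8 (M a255 (L l275 (F (T t2999 (L l236 (L l464 (T t1165 (L l256 (T t3000 (K a213 (M a245 (F (T t2124 (L l311 (L l464 (T t5437 N)))))) (K a245 (M a213 (F (L l464 (T t5006 (T t2486 N))))) N))))))))))) (K a21 (M a85 (L l275 (F (T t1368 (T t124 (L l15 (T t574 (K a213 (M a245 (F (T t5429 (L l15 (L l278 (T t574 N)))))) (K a245 (M a213 (F (T t5007 (T t1370 (L l15 (L l259 (T t574 N))))))) N))))))))) (K a25 (M a85 (L l275 (F (T t1373 (L l15 (L l256 (T t52 (L l15 (L l56 (T t574 (K a213 (M a245 (F (T t5429 (L l15 (L l56 (L l278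 (T t574 N))))))) (K a245 (M a213 (F (T t5008 (T t1370 N)))) N)))))))))))) (K a29 (M a85 (L l275 (F (T t1368 (L l15 (L l256 (T t52 (T t5438 (K a213 (M a245 (F (T t1370 (L l383 (L l491 (T t5433 N)))))) (K a245 (M a213 (F (T t5008 (T t1370 N)))) N)))))))))) (K a38 (M a85 (L l275 (F (T t123 (L l236 (T t90 (T t574 (K a213 (M a245 (F (T t1370 (L l26 (L l383 (L l491 (T t5433 N))))))) (K a245 (M a213 (F (T t5008 (T t1370 N)))) N))))))))) (K a42 (M a255 (L l275 (F (T t2999 (T t2031 (L l56 (L l390 (T t2032 (K a213 (M a245 (F (T t2124 (L l311 (L l390 (T t5437 N)))))) (K a245 (M a213 (F (L l390 (T t5011 (T t2486 N))))) N)))))))))) (K a46 (M a192 (L l275 (F (T t449 (L l491 (T t21 (L l256 (L l491 (T t776 (K a213 (M a245 (F (T t836 (L l347 (L l491 (T t21 (L l347 (L l491 (T t2623 N))))))))) (K a245 (M a213 (F (L l408 (T t5012 (T t156 N))))) N))))))))))) (K a51 (M a85 (L l275 (F (T t123 (L l256 (L l439 (T t52 (T t574 (K a213 (M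 a245 (F (T t4326 (L l30 (L l383 (L l491 (T t5433 N))))))) (K a245 (M a213 (F (T t5008 (L l415 (T t1370 N))))) N)))))))))) (K a213 (M a245 (F (T t151 (L l347 (T t122 (L l347 (T t152 (T t153 (K a4 (M a85 (F (T t124 (L l383 (L l491 (T t5433 N)))))) (K a8 (M a85 (F (L l464 (T t124 (L l2 (L l56 (L l383 (L l491 (T t5433 N))))))))) (K a21 (M a85 (F (T t5429 (L l15 (L l278 (T t574 N)))))) (K a25 (M a48 (F (T t550 (L l383 (T t5430 N))))) (K a29 (M a48 (F (T t445 (T t5431 N)))) (K a38 (M a48 (F (T t1580 (L l26 (T t5431 N))))) (K a42 (M a240 (F (T t5434 (L l491 (T t5435 N))))) (K a46 (M a48 (F (T t1580 (L l26 (T t5431 N))))) (K a51 (M a48 (F (T t865 (T t5431 N)))) N))))))))))))))))) (K a245 (M a213 (F (T t122 (L l455 (T t5439 (L l259 (L l491 (T t5440 (K a21 (M a192 (F (T t5015 (T t156 (L l15 (L l491 (T t450 N))))))) (K a42 (M a192 (F (L l390 (T t5016 (T t156 N))))) N)))))))))) N))))))))))))))))))⟩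
def e0_63__197_140 : Ent 4 := ⟨[a0, a63], [a197, a230], (M a85 (F (L l254 (T t52 (L l236 (L l275 (L l278 (T t88 (L l275 (L l278 (T t89 (L l236 (T t90 (K a64 (M a204 (F (T t1744 (L l275 (L l278 (T t2343 N)))))) (K a192 (M a207 (F (T t2056 (L l339 (T t2057 (L l275 (L l278 (L l296 (L l484 (T t2058 (L l339 (T t2059 N)))))))))))) (K a21 (M a48 (F (T t99 (T t50 (L l47 (L l236 (L l491 (T t100 N)))))))) (K a149 (M a53 (F (L l311 (T t982 (L l220 (L l275 (T t1560 (L l199 (T t2060 N))))))))) (K a213 (Fr a170 a255 l476 (Fr a42 a21 l68 (Fr a106 a234 l390 (Fr a192 a149 l519 (V t581))))) (K a42 (M a48 (F (T t364 (L l390 (T t50 (L l28 (L l236 (L l491 (T t100 N))))))))) (K a106 (M a48 (F (T t99 (L l411 (T t3 (L l390 (T t50 N))))))) (K a170 (M a48 (F (T t3 (L l206 (L l220 (L l236 (L l275 (L l278 (L l311 (L l390 (T t3747 (L l236 (L l404 (L l491 (T t100 N))))))))))))))) (K a255 (M a16 (F (T t504 (L l236 (L l289 (L l491 (T t113 (L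 l275 (L l278 (L l289 (L l296 (T t98 N)))))))))))) N))))))))))))))))))))))⟩
def e0_63__197_141 : Ent 4 := ⟨[a0, a63], [a197, a231], (M a85 (F (T t52 (L l236 (L l275 (T t88 (L l275 (T t89 (L l236 (T t90 (K a64 (M a16 (F (T t97 (L l236 (L l301 (T t259 (L l116 (L l275 (T t98 N))))))))) (K a192 (M a207 (F (T t2056 (L l339 (T t2057 (L l275 (L l296 (L l484 (T t2058 (L l339 (T t2059 N))))))))))) (K a21 (M a48 (F (T t99 (T t50 (L l47 (L l236 (L l491 (T t100 N)))))))) (K a149 (M a53 (F (L l311 (T t982 (L l220 (L l275 (T t1560 (L l199 (T t2060 N))))))))) (K a213 (Fr a170 a255 l476 (Fr a42 a21 l68 (Fr a106 a234 l390 (Fr a192 a149 l519 (V t581))))) (K a42 (M a48 (F (L l28 (T t99 (L l390 (T t50 (L l28 (L l236 (L l491 (T t100 N)))))))))) (K a106 (M a48 (F (T t99 (L l411 (T t3 (L l390 (T t50 N))))))) (K a170 (M a4 (F (L l390 (L l464 (T t519 (L l275 (L l277 (L l390 (T t131 (L l277 (L l464 (T t130 (L l277 (L l301 (L l464 (T t938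 N)))))))))))))))) (K a255 (M a16 (F (T t504 (L l236 (L l289 (L l491 (T t113 (L l275 (L l289 (L l296 (T t98 N))))))))))) N)))))))))))))))))))⟩
def e0_63__197_142 : Ent 4 := ⟨[a0, a63], [a197, a234], (M a12 (F (T t122 (L l390 (T t151 (T t152 (L l390 (T t153 (K a4 (M a60 (F (T t398 (L l46 (L l50 (T t67 (L l390 (T t448 N)))))))) (K a8 (M a60 (F (T t398 (T t67 (L l52 (L l56 (L l390 (T t448 N)))))))) (K a21 (M a192 (F (T t836 (L l15 (L l254 (L l347 (L l491 (T t450 (L l15 (L l254 (L l347 (L l491 (T t157 N))))))))))))) (K a25 (M a192 (F (T t836 (L l15 (L l254 (L l491 (T t450 (L l390 (T t202 N))))))))) (K a29 (M a192 (F (T t156 (L l390 (T t202 (L l390 (T t2625 N))))))) (K a38 (M a192 (F (T t836 (L l254 (L l491 (T t450 (L l390 (T t202 N)))))))) (K a42 (M a106 (F (L l254 (T t2414 (L l491 (T t2305 (L l56 (L l254 (T t2415 N))))))))) (K a46 (M a192 (F (T t156 (L l390 (L l408 (T t202 (L l390 (L l408 (T t2625 N))))))))) (K a51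 (M a192 (F (T t1725 (L l254 (L l415 (L l491 (T t450 (L l390 (L l439 (T t202 N)))))))))) N)))))))))))))))))⟩
def e0_63__197_143 : Ent 4 := ⟨[a0, a63], [a197, a235], (M a48 (F (T t3 (L l491 (T t1 (L l311 (T t2 (T t0 (K a16 (M a60 (F (T t70 (L l14 (L l18 (L l391 (T t67 (L l311 (L l392 (T t65 N)))))))))) (K a32 (M a60 (F (T t70 (L l391 (T t67 (L l24 (L l28 (L l311 (L l392 (T t65 N)))))))))) (K a21 (M a192 (F (T t27 (L l347 (L l491 (T t225 (L l347 (L l491 (T t861 N))))))))) (K a37 (M a192 (F (T t19 (L l491 (T t225 (L l295 (L l491 (T t21 N)))))))) (K a53 (M a149 (F (T t4854 (T t13 (L l275 (T t26 N)))))) (K a26 (M a192 (F (T t837 (L l491 (T t225 (L l295 (L l491 (T t21 N)))))))) (K a42 (M a192 (F (T t27 (L l491 (T t225 (L l28 (L l491 (T t861 N)))))))) (K a58 (M a192 (F (T t19 (L l295 (L l491 (T t21 (L l54 (L l275 (L l498 (T t31 N)))))))))) (K a15 (M a170 (F (T t2101 (L l250 (L l255 (T t324 N)))))) N)))))))))))))))))⟩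
def e0_63__197_144 : Ent 4 := ⟨[a0, a63], [a197, a239], (M a60 (F (T t67 (T t43 (T t68 (T t69 (K a20 (M a48 (F (T t70 (L l11 (L l491 (T t1 (L l11 (T t235 N)))))))) (K a40 (M a48 (F (T t70 (L l491 (T t1 (L l52 (T t235 N))))))) (K a21 (M a192 (F (T t72 (L l347 (L l491 (T t73 (L l347 (L l491 (T t74 N))))))))) (K a41 (M a192 (F (T t79 (L l65 (L l256 (L l289 (L l491 (T t35 (L l491 (T t73 N)))))))))) (K a61 (M a192 (F (T t72 (L l65 (L l256 (L l289 (L l491 (L l515 (T t35 (L l275 (T t80 N))))))))))) (K a22 (M a192 (F (T t72 (L l289 (L l491 (T t21 (L l491 (T t73 N)))))))) (K a42 (M a192 (F (T t77 (L l491 (T t73 (L l22 (L l491 (T t74 N)))))))) (K a62 (M a192 (F (T t72 (L l256 (L l289 (L l491 (T t35 (L l66 (L l275 (L l516 (T t80 N))))))))))) (K a3 (M a149 (F (T t5317 (L l233 (L l275 (T t1256 N)))))) N)))))))))))))))⟩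
def e0_63__197_145 : Ent 4 := ⟨[a0, a63], [a197, a240], (M a60 (F (T t116 (L l453 (T t67 (L l453 (T t43 (L l453 (T t68 (L l453 (T t69 (K a20 (M a48 (F (T t610 (L l417 (L l491 (T t64 (L l11 (T t235 N)))))))) (K a40 (M a48 (F (L l417 (T t70 (L l483 (L l491 (T t1 (L l52 (T t235 N))))))))) (K a21 (M a192 (F (T t81 (L l11 (L l262 (T t79 (L l347 (L l491 (T t74 N))))))))) (K a41 (M a192 (F (T t81 (L l262 (T t79 (L l65 (L l266 (L l491 (T t35 N))))))))) (K a61 (M a192 (F (T t1334 (L l65 (L l266 (L l491 (L l515 (T t35 (L l275 (T t80 N)))))))))) (K a22 (M a192 (F (T t2658 (L l266 (L l491 (T t21 (L l273 (L l491 (T t73 N))))))))) (K a42 (M a192 (F (T t1334 (L l273 (L l491 (T t73 (L l22 (L l491 (T t74 N))))))))) (K a62 (M a192 (F (T t2658 (L l266 (L l491 (T t35 (L l66 (L l275 (L l516 (T t80 N)))))))))) (K a3 (M a149 (L l453 (F (T t5317 (L l233 (L l275 (T t1256 (K a161 (M a82 (F (T t5314 (L l236 (L l268 (L l275 (L l309 (T t424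 (L l233 (T t462 N)))))))))) (K a82 (M a161 (F (T t5314 (L l236 (L l268 (L l275 (L l309 (T t424 (L l233 (T t462 N)))))))))) N))))))))) N))))))))))))))))))))⟩
def e0_63__197_146 : Ent 4 := ⟨[a0, a63], [a197, a241], (M a85 (F (T t52 (L l236 (L l275 (T t88 (L l275 (T t89 (L l236 (T t90 (K a64 (M a16 (F (T t97 (L l236 (T t259 (L l116 (L l275 (T t98 N)))))))) (K a192 (M a207 (F (T t2056 (L l339 (T t2057 (L l275 (L l296 (L l484 (T t2058 (L l339 (T t2059 N))))))))))) (K a21 (M a48 (F (T t99 (L l258 (T t50 (L l47 (L l236 (L l491 (T t100 N))))))))) (K a149 (M a53 (F (L l311 (T t982 (L l220 (L l258 (L l263 (L l275 (T t1560 (L l199 (L l479 (T t2060 N)))))))))))) (K a213 (Fr a170 a255 l476 (Fr a42 a21 l68 (Fr a106 a234 l390 (Fr a192 a149 l519 (V t581))))) (K a42 (M a48 (F (T t364 (L l258 (L l390 (T t50 (L l28 (L l236 (L l491 (T t100 N)))))))))) (K a106 (M a48 (F (T t99 (L l411 (T t3 (L l258 (L l390 (T t50 N)))))))) (K a170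 (M a4 (F (L l464 (T t130 (L l275 (L l390 (T t131 (L l390 (L l464 (T t519 (L l258 (L l269 (L l464 (T t938 N)))))))))))))) (K a255 (M a16 (F (T t504 (L l236 (L l289 (L l491 (T t113 (L l275 (L l289 (L l296 (T t98 N))))))))))) N)))))))))))))))))))⟩
def e0_63__197_147 : Ent 4 := ⟨[a0, a63], [a197, a242], (M a85 (F (T t52 (L l236 (L l275 (T t88 (L l275 (T t89 (L l236 (T t90 (K a64 (M a16 (F (T t97 (L l236 (T t259 (L l116 (L l275 (T t98 N)))))))) (K a192 (M a207 (F (T t2056 (L l339 (T t2057 (L l275 (L l296 (L l484 (T t2058 (L l339 (T t2059 N))))))))))) (K a21 (M a48 (F (T t99 (L l258 (T t50 (L l47 (L l236 (L l491 (T t100 N))))))))) (K a149 (M a53 (F (L l311 (T t982 (L l220 (L l258 (L l275 (T t1560 (L l199 (L l444 (T t2060 N))))))))))) (K a213 (Fr a170 a255 l476 (Fr a42 a21 l68 (Fr a106 a234 l390 (Fr a192 a149 l519 (V t581))))) (K a42 (M a48 (F (T t364 (L l258 (L l390 (T t50 (L l28 (L l236 (L l491 (T t100 N)))))))))) (K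 a106 (M a48 (F (T t99 (L l411 (T t3 (L l258 (L l390 (T t50 N)))))))) (K a170 (M a4 (F (L l390 (L l464 (T t519 (L l275 (L l390 (T t131 (L l270 (L l464 (T t130 (L l258 (L l464 (T t938 N)))))))))))))) (K a255 (M a16 (F (T t504 (L l236 (L l289 (L l491 (T t113 (L l275 (L l289 (L l296 (T t98 N))))))))))) N)))))))))))))))))))⟩
def e0_63__197_148 : Ent 4 := ⟨[a0, a63], [a197, a243], (M a60 (F (T t116 (L l451 (T t67 (L l451 (T t43 (L l451 (T t68 (L l451 (T t69 (K a20 (M a48 (F (T t610 (L l415 (L l491 (T t64 (L l11 (T t235 N)))))))) (K a40 (M a48 (F (L l415 (T t70 (L l481 (L l491 (T t1 (L l52 (T t235 N))))))))) (K a21 (M a192 (F (T t81 (L l11 (L l267 (T t79 (L l347 (L l491 (T t74 N))))))))) (K a41 (M a192 (F (T t81 (L l267 (T t79 (L l65 (L l265 (L l491 (T t35 N))))))))) (K a61 (M a192 (F (T t1334 (L l65 (L l265 (L l491 (L l515 (T t35 (L l275 (T t80 N)))))))))) (K a22 (M a192 (F (T t2658 (L l265 (L l491 (T t21 (L l271 (L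 l491 (T t73 N))))))))) (K a42 (M a192 (F (T t1334 (L l271 (L l491 (T t73 (L l22 (L l491 (T t74 N))))))))) (K a62 (M a192 (F (T t2658 (L l265 (L l491 (T t35 (L l66 (L l275 (L l516 (T t80 N)))))))))) (K a3 (M a149 (L l451 (F (T t5317 (L l233 (L l275 (T t1256 (K a83 (M a163 (F (T t5314 (L l236 (L l272 (L l275 (L l309 (T t424 (L l233 (T t462 N)))))))))) (K a163 (M a83 (F (T t5314 (L l236 (L l272 (L l275 (L l309 (T t424 (L l233 (T t462 N)))))))))) N))))))))) N))))))))))))))))))))⟩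
def e0_63__197_149 : Ent 4 := ⟨[a0, a63], [a197, a245], (M a60 (L l275 (F (T t67 (T t43 (T t68 (T t69 (K a20 (M a255 (L l275 (F (T t1565 (L l236 (T t1165 (L l11 (L l350 (L l455 (T t2964 (K a213 (M a229 (F (T t2969 (L l236 (L l347 (L l350 (L l455 (T t2139 (L l347 (L l350 (L l455 (T t5441 N)))))))))))) (K a229 (M a213 (F (T t5006 (T t1633 N)))) N)))))))))))) (K a40 (M a255 (L l275 (F (T t1633 (L l236 (L l392 (T t1165 (L l455 (T t2964 (K a213 (M a229 (F (T t2969 (L l236 (L l347 (L l455 (T t2139 (L l347 (L l455 (T t5441 N)))))))))) (K a229 (M a213 (F (L l392 (T t5006 (T t1633 N))))) N))))))))))) (K a21 (M a85 (L l275 (F (T t3042 (L l65 (T t523 (T t114 (K a213 (M a229 (F (T t3040 (L l65 (L l239 (T t523 (T t114 N))))))) (K a229 (M a213 (F (T t5007 (T t3040 (L l65 (T t523 N)))))) N))))))))) (K a41 (M a192 (L l275 (F (T t77 (L l65 (L l266 (L l491 (T t35 (L l491 (T t73 (K a213 (M a229 (F (T t75 (T t1333 (L l266 (L l347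 (L l491 (T t21 N)))))))) (K a229 (M a213 (F (T t5012 (T t79 N)))) N)))))))))))) (K a61 (M a192 (L l275 (F (T t72 (L l65 (L l266 (L l491 (L l515 (T t35 (L l65 (L l491 (L l515 (T t2549 (K a213 (M a229 (F (T t1333 (L l266 (L l347 (L l491 (L l515 (T t21 (L l347 (L l491 (L l515 (T t5442 N)))))))))))) (K a229 (M a213 (F (T t5012 (T t79 N)))) N))))))))))))))) (K a22 (M a192 (L l275 (F (T t72 (L l266 (L l491 (T t21 (L l491 (T t73 (K a213 (M a229 (F (T t75 (T t1333 (L l266 (L l347 (L l491 (T t21 N)))))))) (K a229 (M a213 (F (T t5012 (T t72 N)))) N))))))))))) (K a42 (M a192 (L l275 (F (T t77 (L l491 (T t73 (L l22 (L l491 (T t74 (K a213 (M a229 (F (T t1333 (L l390 (T t75 (L l22 (L l239 (L l347 (L l491 (T t74 N)))))))))) (K a229 (M a213 (F (L l390 (T t5016 (T t79 N))))) N))))))))))) (K a62 (M a192 (L l275 (F (T t72 (L l266 (L l491 (T t35 (L l491 (T t2549 (K a213 (M a229 (F (T t1333 (L l266 (L l347 (L l491 (T t21 (L l347 (L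 l491 (T t5442 N)))))))))) (K a229 (M a213 (F (L l516 (T t5012 (T t79 N))))) N))))))))))) (K a3 (M a192 (L l275 (F (T t1800 (L l477 (T t79 (L l307 (L l491 (T t73 (K a213 (M a229 (F (T t2658 (L l307 (T t75 (L l266 (L l347 (L l475 (L l491 (T t21 N)))))))))) (K a229 (M a213 (F (T t5012 (L l477 (T t79 N))))) N))))))))))) (K a213 (M a229 (F (T t43 (L l347 (T t67 (L l347 (T t68 (T t69 (K a20 (M a48 (F (T t451 (L l311 (L l455 (T t2 (L l11 (L l347 (T t235 N))))))))) (K a40 (M a48 (F (T t70 (L l22 (L l311 (L l455 (T t2 (L l52 (L l347 (T t235 N)))))))))) (K a21 (M a85 (F (T t3040 (L l65 (L l239 (T t523 (T t114 N))))))) (K a41 (M a192 (F (T t75 (T t1333 (L l266 (L l347 (L l491 (T t21 N)))))))) (K a61 (M a192 (F (T t1333 (L l266 (L l347 (L l491 (L l515 (T t21 (L l347 (L l491 (L l515 (T t5442 N)))))))))))) (K a22 (M a192 (F (T t75 (T t1333 (L l266 (L l347 (L l491 (T t21 N)))))))) (K a42 (M a192 (F (T t1333 (L l390 (T t75 (L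 l22 (L l239 (L l347 (L l491 (T t74 N)))))))))) (K a62 (M a192 (F (T t1333 (L l266 (L l347 (L l491 (T t21 (L l347 (L l491 (T t5442 N)))))))))) (K a3 (M a192 (F (T t2658 (L l307 (T t75 (L l266 (L l347 (L l475 (L l491 (T t21 N)))))))))) N))))))))))))))))) (K a229 (M a213 (F (T t67 (L l233 (L l455 (T t5443 (L l491 (T t5444 (K a21 (M a192 (F (T t5015 (L l11 (T t79 (L l491 (T t73 N))))))) (K a42 (M a192 (F (L l390 (T t5016 (T t79 N))))) N)))))))))) N))))))))))))))))))⟩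
def e0_63__197_150 : Ent 4 := ⟨[a0, a63], [a197, a246], (M a85 (F (T t52 (L l236 (L l275 (T t88 (L l275 (T t89 (L l236 (T t90 (K a64 (M a16 (F (T t97 (L l236 (T t259 (L l116 (L l275 (T t98 N)))))))) (K a192 (M a207 (F (T t2056 (L l339 (T t2057 (L l275 (L l296 (L l484 (T t2058 (L l339 (T t2059 N))))))))))) (K a21 (M a48 (F (T t99 (T t50 (L l47 (L l236 (L l491 (T t100 N)))))))) (K a149 (M a53 (F (L l311 (T t982 (L l220 (L l259 (L l275 (T t1560 (L l199 (T t2060 N)))))))))) (K a213 (Fr a170 a255 l476 (Fr a42 a21 l68 (Fr a106 a234 l390 (Fr a192 a149 l519 (V t581))))) (K a42 (M a48 (F (T t364 (L l390 (T t50 (L l28 (L l236 (L l491 (T t100 N))))))))) (K a106 (M a48 (F (T t99 (L l411 (T t3 (L l390 (T t50 N))))))) (K a170 (M a4 (F (L l390 (L l464 (T t519 (L l259 (L l275 (L l390 (T t131 (L l259 (L l464 (T t130 (L l259 (L l267 (L l464 (T t938 N)))))))))))))))) (K a255 (M a16 (F (T t504 (L l236 (L l289 (L l491 (T t113 (L l275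 (L l289 (L l296 (T t98 N))))))))))) N)))))))))))))))))))⟩
def e0_63__197_151 : Ent 4 := ⟨[a0, a63], [a197, a247], (M a60 (F (T t67 (T t43 (T t68 (T t69 (K a20 (M a48 (F (T t70 (L l11 (L l491 (T t1 (L l11 (L l457 (T t235 N))))))))) (K a40 (M a48 (F (T t70 (L l491 (T t1 (L l52 (L l457 (T t235 N)))))))) (K a21 (M a192 (F (T t72 (L l347 (L l491 (T t73 (L l277 (L l347 (L l491 (T t74 N)))))))))) (K a41 (M a192 (F (T t79 (L l65 (L l265 (L l491 (T t35 (L l491 (T t73 N))))))))) (K a61 (M a192 (F (T t72 (L l65 (L l265 (L l491 (L l515 (T t35 (L l275 (L l278 (T t80 N))))))))))) (K a22 (M a192 (F (T t72 (L l265 (L l491 (T t21 (L l491 (T t73 N)))))))) (K a42 (M a192 (F (T t77 (L l491 (T t73 (L l22 (L l277 (L l491 (T t74 N))))))))) (K a62 (M a192 (F (T t72 (L l265 (L l491 (T t35 (L l66 (L l275 (L l278 (L l516 (T t80 N))))))))))) (K a3 (M a149 (F (T t5317 (L l233 (L l275 (L l278 (T t1256 N))))))) N)))))))))))))))⟩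
def e0_63__197_152 : Ent 4 := ⟨[a0, a63], [a197, a250], (M a12 (F (T t122 (T t151 (T t152 (T t153 (K a4 (M a60 (F (T t43 (T t398 (T t448 N))))) (K a8 (M a60 (F (T t67 (T t398 (L l52 (L l56 (T t448 N))))))) (K a21 (M a192 (F (T t836 (L l15 (L l347 (L l491 (T t450 (L l15 (L l347 (L l491 (T t157 N))))))))))) (K a25 (M a192 (F (T t449 (L l15 (L l491 (T t450 (L l266 (L l491 (T t21 N))))))))) (K a29 (M a192 (F (T t449 (L l266 (L l371 (L l491 (T t21 (L l275 (T t160 N))))))))) (K a38 (M a192 (F (T t836 (L l491 (T t450 (L l266 (L l491 (T t21 N)))))))) (K a42 (M a192 (F (T t449 (L l491 (T t450 (L l56 (L l491 (T t157 N)))))))) (K a46 (M a192 (F (T t449 (L l266 (L l491 (T t21 (L l26 (L l275 (L l408 (T t160 N)))))))))) (K a51 (M a170 (F (T t4159 (L l260 (L l282 (T t3682 N)))))) N)))))))))))))))⟩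
def e0_63__197_153 : Ent 4 := ⟨[a0, a63], [a197, a251], (M a12 (F (T t122 (T t151 (L l427 (T t152 (L l464 (T t153 (K a4 (M a60 (F (T t43 (T t398 (T t448 N))))) (K a8 (M a170 (F (T t874 (T t2498 (L l284 (T t2626 N)))))) (K a21 (M a192 (F (T t836 (L l15 (L l265 (L l347 (L l491 (T t450 (L l15 (L l265 (L l347 (L l464 (L l491 (T t157 N)))))))))))))) (K a25 (M a192 (F (T t836 (L l15 (L l265 (L l491 (T t450 (L l265 (L l491 (T t21 N)))))))))) (K a29 (M a192 (F (T t156 (L l265 (L l371 (L l491 (T t21 (L l275 (T t160 N))))))))) (K a38 (M a192 (F (T t156 (L l265 (L l491 (T t450 (L l265 (L l491 (T t21 N))))))))) (K a42 (M a192 (F (T t156 (L l265 (L l491 (T t450 (L l56 (L l265 (L l464 (L l491 (T t157 N))))))))))) (K a46 (M a192 (F (T t836 (L l265 (L l491 (T t21 (L l26 (L l275 (L l408 (T t160 N)))))))))) (K a51 (M a149 (F (T t4374 (L l275 (T t960 N))))) N)))))))))))))))))⟩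
def e0_63__197_154 : Ent 4 := ⟨[a0, a63], [a197, a255], (M a12 (F (T t150 (L l439 (T t122 (L l439 (T t151 (L l439 (T t152 (L l439 (T t153 (K a4 (M a60 (F (T t570 (L l46 (L l50 (L l475 (T t67 (T t448 N)))))))) (K a8 (M a60 (F (T t570 (L l475 (T t67 (L l52 (L l56 (T t448 N)))))))) (K a21 (M a192 (F (T t158 (L l290 (T t156 (L l15 (L l265 (L l347 (L l491 (T t157 N)))))))))) (K a25 (M a192 (F (T t159 (L l15 (L l265 (L l491 (T t450 (L l15 (L l56 (L l265 (L l491 (T t157 N)))))))))))) (K a29 (M a48 (F (T t145 (L l15 (L l469 (L l491 (T t1 (L l311 (T t866 N))))))))) (K a38 (M a192 (F (T t1725 (L l265 (L l491 (T t450 (L l265 (L l491 (T t157 N))))))))) (K a42 (M a192 (F (T t496 (L l265 (L l491 (T t450 (L l56 (L l265 (L l491 (T t157 N)))))))))) (K a46 (M a48 (F (T t867 (L l469 (L l491 (T t1 (L l26 (L l311 (T t866 N))))))))) (K a51 (M a192 (L l439 (F (T t158 (L l290 (L l513 (T t156 (L l265 (L l491 (T t157 (K a119 (M a187 (F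 (T t155 (L l229 (L l290 (L l513 (T t468 (L l265 (L l421 (L l491 (T t157 N))))))))))) (K a187 (M a119 (F (T t155 (L l229 (L l290 (L l513 (T t468 (L l265 (L l491 (T t157 N)))))))))) N)))))))))))) N))))))))))))))))))))⟩
def b0_63__197 : Blk 4 := ⟨[0, 63], [197], [1, 2, 3, 5, 6, 7, 10, 11, 15, 16, 17, 18, 19, 22, 23, 26, 27, 31, 32, 33, 34, 35, 37, 38, 39, 43, 47, 48, 49, 50, 51, 53, 54, 55, 58, 59, 64, 65, 66, 67, 69, 70, 71, 74, 75, 79, 80, 81, 82, 83, 85, 86, 87, 90, 91, 95, 96, 97, 98, 99, 101, 102, 103, 106, 107, 111, 112, 113, 114, 115, 117, 118, 119, 122, 123, 127, 128, 129, 130, 131, 133, 134, 135, 138, 139, 143, 144, 145, 146, 147, 149, 150, 151, 154, 155, 159, 160, 161, 162, 163, 165, 166, 167, 170, 171, 175, 176, 177, 178, 179, 181, 182, 183, 186, 187, 191, 192, 193, 194, 195, 198, 199, 202, 203, 207, 208, 209, 210, 211, 213, 214, 215, 218, 219, 223, 224, 225, 226, 227, 229, 230, 231, 234, 235, 239, 240,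 241, 242, 243, 245, 246, 247, 250, 251, 255], [e0_63__197_0, e0_63__197_1, e0_63__197_2, e0_63__197_3, e0_63__197_4, e0_63__197_5, e0_63__197_6, e0_63__197_7, e0_63__197_8, e0_63__197_9, e0_63__197_10, e0_63__197_11, e0_63__197_12, e0_63__197_13, e0_63__197_14, e0_63__197_15, e0_63__197_16, e0_63__197_17, e0_63__197_18, e0_63__197_19, e0_63__197_20, e0_63__197_21, e0_63__197_22, e0_63__197_23, e0_63__197_24, e0_63__197_25, e0_63__197_26, e0_63__197_27, e0_63__197_28, e0_63__197_29, e0_63__197_30, e0_63__197_31, e0_63__197_32, e0_63__197_33, e0_63__197_34, e0_63__197_35, e0_63__197_36, e0_63__197_37, e0_63__197_38, e0_63__197_39, e0_63__197_40, e0_63__197_41, e0_63__197_42, e0_63__197_43, e0_63__197_44, e0_63__197_45, e0_63__197_46, e0_63__197_47, e0_63__197_48, e0_63__197_49, e0_63__197_50, e0_63__197_51, e0_63__197_52, e0_63__197_53, e0_63__197_54, e0_63__197_55, e0_63__197_56, e0_63__197_57, e0_63__197_58, e0_63__197_59,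 e0_63__197_60, e0_63__197_61, e0_63__197_62, e0_63__197_63, e0_63__197_64, e0_63__197_65, e0_63__197_66, e0_63__197_67, e0_63__197_68, e0_63__197_69, e0_63__197_70, e0_63__197_71, e0_63__197_72, e0_63__197_73, e0_63__197_74, e0_63__197_75, e0_63__197_76, e0_63__197_77, e0_63__197_78, e0_63__197_79, e0_63__197_80, e0_63__197_81, e0_63__197_82, e0_63__197_83, e0_63__197_84, e0_63__197_85, e0_63__197_86, e0_63__197_87, e0_63__197_88, e0_63__197_89, e0_63__197_90, e0_63__197_91, e0_63__197_92, e0_63__197_93, e0_63__197_94, e0_63__197_95, e0_63__197_96, e0_63__197_97, e0_63__197_98, e0_63__197_99, e0_63__197_100, e0_63__197_101, e0_63__197_102, e0_63__197_103, e0_63__197_104, e0_63__197_105, e0_63__197_106, e0_63__197_107, e0_63__197_108, e0_63__197_109, e0_63__197_110, e0_63__197_111, e0_63__197_112, e0_63__197_113, e0_63__197_114, e0_63__197_115, e0_63__197_116, e0_63__197_117, e0_63__197_118, e0_63__197_119, e0_63__197_120,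 e0_63__197_121, e0_63__197_122, e0_63__197_123, e0_63__197_124, e0_63__197_125, e0_63__197_126, e0_63__197_127, e0_63__197_128, e0_63__197_129, e0_63__197_130, e0_63__197_131, e0_63__197_132, e0_63__197_133, e0_63__197_134, e0_63__197_135, e0_63__197_136, e0_63__197_137, e0_63__197_138, e0_63__197_139, e0_63__197_140, e0_63__197_141, e0_63__197_142, e0_63__197_143, e0_63__197_144, e0_63__197_145, e0_63__197_146, e0_63__197_147, e0_63__197_148, e0_63__197_149, e0_63__197_150, e0_63__197_151, e0_63__197_152, e0_63__197_153, e0_63__197_154], by decide +kernel, by decide +kernel⟩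

end Pool.Agent.Lib_TTT.K4
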