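import Pool.Agent.Lib_TTT.K4Base
import Pool.Agent.Lib_TTT.K4T00
import Pool.Agent.Lib_TTT.K4T01
import Pool.Agent.Lib_TTT.K4T02
import Pool.Agent.Lib_TTT.K4T03
import Pool.Agent.Lib_TTT.K4T04
import Pool.Agent.Lib_TTT.K4T05
import Pool.Agent.Lib_TTT.K4T06

/-! Certificates in `4^4`. -/

set_option autoImplicit false
set_option maxRecDepth 200000

namespace Pool.Agent.Lib_TTT.K4

open Lib_TTT AC DC

def e0_63__198_0 : Ent 4 := ⟨[a0, a63], [a198, a1], (M a85 (F (T t88 (L l65 (T t52 (T t89 (T t90 (K a64 (M a252 (F (T t93 (T t92 N)))) (K a192 (M a16 (F (T t504 (L l329 (T t96 (L l296 (T t98 N))))))) (K a21 (M a48 (L l65 (F (T t99 (T t50 (L l47 (L l234 (T t100 (K a41 (M a61 (F (T t261 (L l41 (T t262 N))))) (K a61 (M a41 (F (T t261 (L l35 (L l47 (L l234 (T t100 (T t50 N)))))))) N)))))))))) (K a149 (M a16 (F (T t101 (L l375 (T t97 (L l170 (T t102 N))))))) (K a213 (Fr a170 a255 l476 (Fr a42 a21 l68 (Fr a106 a234 l390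 (Fr a192 a149 l519 (V t581))))) (K a42 (M a48 (F (T t364 (L l390 (T t50 (L l28 (L l234 (T t100 N)))))))) (K a106 (M a48 (F (T t99 (L l65 (T t1 (L l390 (T t50 N))))))) (K a170 (M a16 (F (L l390 (L l404 (T t97 (L l390 (T t98 (L l234 (L l404 (T t113 (L l229 (L l404 (T t174 N))))))))))))) (K a255 (M a16 (F (T t504 (L l234 (L l289 (T t113 (L l289 (L l296 (T t98 N))))))))) N))))))))))))))))⟩
def e0_63__198_1 : Ent 4 := ⟨[a0, a63], [a198, a2], (M a85 (F (T t52 (L l66 (T t88 (L l66 (T t89 (L l474 (T t90 (K a64 (M a16 (F (T t258 (L l66 (T t97 (L l66 (L l116 (T t98 N)))))))) (K a192 (M a16 (F (T t96 (L l66 (L l339 (T t97 (L l66 (L l296 (T t98 N))))))))) (K a21 (M a48 (F (T t99 (L l474 (T t50 (L l47 (L l234 (T t100 N)))))))) (K a149 (M a16 (F (T t173 (L l66 (L l375 (T t97 (L l66 (L l170 (T t102 N))))))))) (K a213 (Fr a170 a255 l476 (Fr a42 a21 l68 (Fr a106 a234 l390 (Fr a192 a149 l519 (V t581))))) (K a42 (M a62 (F (L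 l492 (T t1693 (L l390 (L l474 (T t1694 (L l22 (L l234 (L l306 (T t1695 (L l234 (L l306 (L l390 (L l474 (T t3621 N)))))))))))))))) (K a106 (M a48 (F (T t99 (L l6 (T t1 (L l390 (L l474 (T t50 N)))))))) (K a170 (M a86 (F (L l174 (T t1703 (L l66 (L l390 (T t369 (L l174 (L l306 (T t1701 (L l66 (L l174 (L l390 (T t1702 N)))))))))))))) (K a255 (M a16 (F (L l66 (T t112 (L l234 (L l289 (T t113 (L l66 (L l289 (L l296 (T t98 N))))))))))) N))))))))))))))))))⟩
def e0_63__198_2 : Ent 4 := ⟨[a0, a63], [a198, a3], (M a48 (F (T t48 (L l7 (T t1 (L l7 (T t2 (L l7 (T t3 (L l7 (T t0 (K a16 (M a85 (F (T t89 (L l453 (T t50 (L l229 (T t51 N))))))) (K a32 (M a85 (F (L l475 (T t52 (L l404 (L l453 (T t50 (L l28 (L l229 (T t51 N)))))))))) (K a21 (M a192 (F (T t54 (L l453 (T t27 (L l47 (L l234 (L l347 (T t29 N))))))))) (K a37 (M a192 (F (T t55 (L l47 (L l234 (L l331 (T t20 (L l475 (T t21 N))))))))) (K a53 (M a192 (F (T t55 (L l475 (L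 l491 (T t21 (T t31 N))))))) (K a26 (M a192 (F (T t33 (L l453 (T t27 (L l475 (T t21 N))))))) (K a42 (M a192 (F (T t33 (L l453 (T t27 (L l28 (L l234 (T t29 N)))))))) (K a58 (M a192 (F (T t57 (L l453 (T t27 (L l54 (L l498 (T t31 N)))))))) (K a15 (M a149 (L l7 (F (T t1274 (L l229 (T t6 (K a7 (M a11 (F (T t25 (L l229 (L l309 (L l339 (T t15 (L l229 (T t14 N))))))))) (K a11 (M a7 (F (T t25 (L l229 (L l309 (L l339 (T t15 (L l229 (T t14 N))))))))) N)))))))) N))))))))))))))))))))⟩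
def e0_63__198_3 : Ent 4 := ⟨[a0, a63], [a198, a5], (M a85 (F (T t88 (L l47 (T t52 (T t89 (T t90 (K a64 (M a240 (F (T t933 (T t387 N)))) (K a192 (M a48 (F (T t935 (L l47 (L l339 (T t3 (L l268 (T t50 N)))))))) (K a21 (M a204 (L l47 (F (T t1684 (T t1575 (T t1691 (K a37 (M a53 (F (T t1744 (T t1745 N)))) (K a53 (M a37 (F (T t1746 (T t1575 (L l491 (T t1747 N)))))) N)))))))) (K a149 (M a48 (F (T t99 (L l47 (T t3 (L l220 (T t50 N))))))) (K a213 (Fr a170 a255 l476 (Fr a42 a21 l68 (Fr a106 a234 l390 (Fr a192 a149 l519 (V t581))))) (K a42 (M a48 (F (T t364 (L l390 (T t50 (L l28 (L l47 (L l234 (T t100 N))))))))) (K a106 (M a48 (F (T t99 (L l47 (L l411 (T t3 (L l390 (T t50 N)))))))) (K a170 (M a4 (F (L l464 (T t130 (L l390 (T t131 (L l390 (L l464 (T t519 (L l464 (T t938 N))))))))))) (K a255 (M a4 (F (T t129 (L l265 (T t130 (L l265 (L l296 (T t131 N)))))))) N))))))))))))))))⟩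
def e0_63__198_4 : Ent 4 := ⟨[a0, a63], [a198, a6], (M a149 (L l312 (F (T t5 (T t175 (T t176 (T t177 (K a192 (M a29 (L l312 (F (T t956 (L l1 (L l272 (T t641 (L l272 (L l296 (T t957 (K a70 (M a134 (F (L l85 (T t1749 (L l272 (L l296 (T t957 N))))))) (K a134 (M a70 (F (T t1748 (L l1 (L l272 (L l314 (T t641 (L l272 (L l296 (T t957 N)))))))))) N)))))))))))) (K a21 (M a207 (L l312 (F (T t5445 (L l6 (L l229 (T t1287 (T t2628 (K a70 (M a134 (F (T t5445 (L l229 (L l237 (L l330 (T t5446 N))))))) (K a134 (M a70 (F (T t5445 (L l6 (L l9 (L l314 (T t5447 N))))))) N)))))))))) (K a85 (M a12 (L l312 (F (T t958 (T t122 (L l144 (L l237 (T t648 (K a70 (M a134 (F (T t991 (L l229 (L l237 (L l330 (T t1755 N))))))) (K a134 (M a70 (F (T t650 (T t122 (L l144 (L l153 (L l237 (T t648 N)))))))) N)))))))))) (K a213 (Fr a106 a192 l519 (Fr a42 a21 l68 (Fr a170 a234 l390 (Fr a255 a85 l476 (V t582))))) (K a42 (M a207 (L l312 (F (T t1286 (L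 l390 (T t2634 (T t2628 (K a70 (M a134 (F (T t4323 (L l1 (L l9 (L l330 (T t5448 N))))))) (K a134 (M a70 (F (T t4323 (L l6 (L l9 (L l66 (L l314 (T t5447 N)))))))) N))))))))) (K a106 (M a12 (L l312 (F (T t122 (L l1 (L l408 (T t649 (L l390 (L l408 (T t960 (L l390 (T t961 (K a70 (M a134 (F (T t122 (L l85 (L l98 (L l132 (T t1758 N))))))) (K a134 (M a70 (F (T t122 (L l1 (L l314 (L l408 (T t649 (L l153 (L l390 (T t961 (L l390 (L l408 (T t960 N))))))))))))) N)))))))))))))) (K a170 (M a12 (L l312 (F (T t958 (L l402 (T t122 (L l237 (L l390 (T t648 (K a70 (M a134 (F (T t991 (L l1 (L l77 (L l237 (T t1759 N))))))) (K a134 (M a70 (F (T t650 (L l402 (T t122 (L l153 (L l237 (L l390 (T t648 N))))))))) N))))))))))) (K a191 (M a240 (L l312 (F (T t1090 (T t1091 (T t1092 (K a70 (M a134 (F (T t962 (L l315 (T t963 N))))) (K a134 (M a70 (F (T t962 (L l153 (T t963 N))))) N)))))))) (K a255 (M a4 (L l312 (F (T t129 (L l229 (L l237 (L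 l290 (T t653 (L l265 (L l296 (T t1070 (K a70 (M a134 (F (L l85 (T t1772 (L l48 (L l124 (L l265 (L l296 (L l492 (T t1773 N)))))))))) (K a134 (M a70 (F (T t129 (L l229 (L l237 (L l290 (T t653 (L l265 (L l296 (T t1070 N)))))))))) N))))))))))))) (K a70 (M a134 (F (T t5 (T t175 (T t176 (T t177 (K a192 (M a4 (F (L l85 (T t1772 (L l48 (L l124 (L l296 (L l492 (T t1773 N))))))))) (K a21 (M a132 (F (T t1774 (L l9 (L l85 (T t1775 N)))))) (K a85 (M a132 (F (T t1774 (L l9 (L l85 (L l144 (T t1775 N))))))) (K a213 (Fr a106 a192 l519 (Fr a42 a21 l68 (Fr a170 a234 l390 (Fr a255 a85 l476 (V t582))))) (K a42 (M a132 (F (T t1774 (L l9 (L l85 (L l390 (T t1775 N))))))) (K a106 (M a4 (F (L l85 (T t1772 (L l48 (L l102 (L l124 (L l390 (L l492 (T t1773 N)))))))))) (K a170 (M a132 (F (T t1774 (L l9 (L l85 (L l208 (L l390 (T t1775 N)))))))) (K a191 (M a240 (F (T t962 (L l315 (T t963 N))))) (K a255 (M a4 (F (L l85 (T t1772 (L l48 (L l124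 (L l265 (L l296 (L l492 (T t1773 N)))))))))) N))))))))))))))) (K a134 (M a70 (F (T t5 (T t175 (T t176 (T t177 (K a192 (M a204 (F (L l234 (L l236 (T t1065 (L l296 (L l489 (L l492 (T t1064 N))))))))) (K a21 (M a204 (F (T t1042 (L l158 (L l234 (T t756 N)))))) (K a85 (M a196 (F (T t5449 (L l144 (T t1770 N))))) (K a213 (Fr a106 a192 l519 (Fr a42 a21 l68 (Fr a170 a234 l390 (Fr a255 a85 l476 (V t582))))) (K a42 (M a196 (F (T t5449 (L l390 (T t1770 N))))) (K a106 (M a204 (F (L l161 (T t5450 (L l102 (L l390 (T t1066 N))))))) (K a170 (M a196 (F (T t5449 (L l208 (L l390 (T t1770 N)))))) (K a191 (M a240 (F (T t962 (L l153 (T t963 N))))) (K a255 (M a196 (F (T t5449 (T t1770 N)))) N))))))))))))))) N))))))))))))))))))⟩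
def e0_63__198_5 : Ent 4 := ⟨[a0, a63], [a198, a7], (M a149 (F (T t5 (T t175 (T t176 (T t177 (K a192 (M a53 (F (T t939 (L l229 (L l236 (T t179 (L l229 (L l236 (L l296 (T t180 N)))))))))) (K a21 (M a48 (F (T t7 (L l18 (L l229 (T t14 (T t13 N))))))) (K a85 (M a16 (F (T t504 (L l144 (T t190 (L l94 (T t278 N))))))) (K a213 (Fr a106 a192 l519 (Fr a42 a21 l68 (Fr a170 a234 l390 (Fr a255 a85 l476 (V t582))))) (K a42 (M a48 (F (L l234 (T t11 (L l390 (T t13 (L l54 (L l229 (T t14 N))))))))) (K a106 (M a48 (F (T t48 (L l229 (L l498 (T t14 (L l229 (L l390 (L l498 (T t6 (L l390 (T t26 N)))))))))))) (K a170 (M a48 (F (T t607 (L l234 (T t11 (L l390 (T t13 N))))))) (K a191 (M a48 (F (T t13 (L l229 (T t6 N))))) (K a255 (M a16 (F (T t504 (L l266 (T t190 (L l289 (L l296 (T t191 N)))))))) N)))))))))))))))⟩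
def e0_63__198_6 : Ent 4 := ⟨[a0, a63], [a198, a9], (M a85 (F (T t88 (T t52 (T t89 (T t90 (K a64 (M a16 (F (T t97 (L l84 (T t96 (L l116 (T t98 N))))))) (K a192 (M a16 (F (T t96 (L l339 (T t97 (L l296 (T t98 N))))))) (K a21 (M a48 (F (T t99 (T t50 (L l47 (L l234 (T t100 N))))))) (K a149 (M a16 (F (T t173 (L l375 (T t97 (L l170 (T t102 N))))))) (K a213 (Fr a170 a255 l476 (Fr a42 a21 l68 (Fr a106 a234 l390 (Fr a192 a149 l519 (V t581))))) (K a42 (M a48 (F (T t364 (L l390 (T t50 (L l28 (L l234 (T t100 N)))))))) (K a106 (M a48 (F (T t99 (L l2 (T t1 (L l390 (T t50 N))))))) (K a170 (M a16 (F (L l390 (L l404 (T t97 (L l390 (T t98 (L l234 (L l404 (T t113 (L l229 (L l404 (T t174 N))))))))))))) (K a255 (M a16 (F (T t504 (L l234 (L l289 (T t113 (L l289 (L l296 (T t98 N))))))))) N)))))))))))))))⟩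
def e0_63__198_7 : Ent 4 := ⟨[a0, a63], [a198, a11], (M a149 (F (T t5 (T t175 (T t176 (T t177 (K a192 (M a53 (F (T t178 (L l229 (L l236 (T t179 (L l229 (L l236 (L l296 (T t180 N)))))))))) (K a21 (M a48 (F (T t7 (L l18 (L l229 (T t14 (T t13 N))))))) (K a85 (M a16 (F (T t504 (L l144 (T t190 (L l57 (L l94 (L l465 (T t278 N))))))))) (K a213 (Fr a106 a192 l519 (Fr a42 a21 l68 (Fr a170 a234 l390 (Fr a255 a85 l476 (V t582))))) (K a42 (M a48 (F (L l234 (T t11 (L l390 (T t13 (L l54 (L l229 (T t14 N))))))))) (K a106 (M a48 (F (L l2 (T t48 (L l229 (L l498 (T t14 (L l229 (L l390 (L l498 (T t6 (L l390 (T t26 N))))))))))))) (K a170 (M a48 (F (T t607 (L l234 (T t11 (L l390 (T t13 N))))))) (K a191 (M a48 (F (T t13 (L l229 (T t6 N))))) (K a255 (M a16 (F (T t112 (L l266 (T t190 (L l289 (L l296 (T t191 N)))))))) N)))))))))))))))⟩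
def e0_63__198_8 : Ent 4 := ⟨[a0, a63], [a198, a15], (M a12 (F (T t150 (L l73 (T t122 (L l73 (T t151 (L l73 (T t152 (L l73 (T t153 (K a4 (M a85 (F (T t89 (L l237 (L l327 (T t124 (T t154 N))))))) (K a8 (M a85 (F (L l469 (T t52 (L l237 (L l327 (L l464 (T t124 (L l56 (T t154 N)))))))))) (K a21 (M a192 (F (T t158 (L l237 (L l327 (T t156 (L l15 (L l347 (T t157 N))))))))) (K a25 (M a192 (F (T t155 (L l237 (L l327 (T t156 (L l469 (T t21 N)))))))) (K a29 (M a192 (F (T t1681 (L l237 (L l327 (T t156 (T t160 N))))))) (K a38 (M a192 (F (T t161 (L l237 (L l327 (T t156 (L l469 (T t21 N)))))))) (K a42 (M a192 (F (T t161 (L l237 (L l327 (T t156 (L l56 (T t157 N)))))))) (K a46 (M a192 (F (T t57 (L l237 (L l327 (T t156 (L l26 (L l408 (T t160 N))))))))) (K a51 (M a68 (L l73 (F (T t162 (L l229 (T t163 (L l439 (L l469 (L l492 (L l513 (T t164 (K a39 (M a27 (F (T t1801 (L l63 (T t166 N))))) (K a27 (M a39 (F (T t1801 (L l63 (T t167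 N))))) N))))))))))))) N))))))))))))))))))))⟩
def e0_63__198_9 : Ent 4 := ⟨[a0, a63], [a198, a16], (M a85 (F (T t88 (L l18 (T t52 (T t89 (T t90 (K a64 (M a240 (F (T t1384 (T t933 (T t1550 N))))) (K a192 (M a4 (F (T t1604 (L l344 (T t1399 (L l296 (T t131 N))))))) (K a21 (M a12 (L l18 (F (T t1368 (L l237 (T t124 (L l15 (T t574 (K a26 (M a31 (F (T t2427 (L l14 (T t1369 N))))) (K a31 (M a26 (F (T t1368 (L l237 (T t124 (L l13 (L l15 (T t574 N)))))))) N)))))))))) (K a149 (M a4 (F (T t1489 (L l495 (T t519 (L l202 (T t1372 N))))))) (K a213 (Fr a170 a255 l476 (Fr a42 a21 l68 (Fr a106 a234 l390 (Fr a192 a149 l519 (V t581))))) (K a42 (M a240 (F (T t1384 (L l390 (T t386 (T t1385 N)))))) (K a106 (M a12 (F (T t1368 (L l18 (T t122 (L l237 (L l390 (T t124 N)))))))) (K a170 (M a4 (F (L l464 (T t130 (L l390 (T t131 (L l390 (L l464 (T t519 (L l464 (T t938 N))))))))))) (K a255 (M a4 (F (T t1604 (L l265 (T t130 (L l265 (L l296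 (T t131 N)))))))) N))))))))))))))))⟩
def e0_63__198_10 : Ent 4 := ⟨[a0, a63], [a198, a17], (M a85 (F (T t88 (L l15 (T t52 (T t89 (T t90 (K a64 (M a204 (F (T t1575 (L l229 (T t1576 N))))) (K a192 (M a16 (F (T t96 (L l339 (T t97 (L l296 (T t98 N))))))) (K a21 (M a60 (L l15 (F (T t936 (T t114 (L l65 (L l234 (T t523 (K a25 (M a29 (F (T t936 (L l18 (L l71 (T t1802 N)))))) (K a29 (M a25 (F (T t936 (T t114 (L l59 (L l65 (L l234 (T t523 N)))))))) N)))))))))) (K a149 (M a16 (F (T t173 (L l375 (T t97 (L l170 (T t102 N))))))) (K a213 (Fr a170 a255 l476 (Fr a42 a21 l68 (Fr a106 a234 l390 (Fr a192 a149 l519 (V t581))))) (K a42 (M a48 (F (L l28 (T t99 (L l390 (T t50 (L l28 (L l234 (T t100 N))))))))) (K a106 (M a48 (F (T t99 (L l15 (T t1 (L l390 (T t50 N))))))) (K a170 (M a16 (F (L l390 (L l404 (T t97 (L l390 (T t98 (L l234 (L l404 (T t113 (L l229 (L l404 (T t174 N))))))))))))) (K a255 (M a16 (F (T t112 (L l234 (L l289 (T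 t113 (L l289 (L l296 (T t98 N))))))))) N))))))))))))))))⟩
def e0_63__198_11 : Ent 4 := ⟨[a0, a63], [a198, a18], (M a85 (F (T t88 (T t52 (T t89 (T t90 (K a64 (M a16 (F (T t97 (L l84 (T t96 (L l116 (T t98 N))))))) (K a192 (M a16 (F (T t96 (L l339 (T t97 (L l296 (T t98 N))))))) (K a21 (M a48 (F (T t99 (T t50 (L l47 (L l234 (T t100 N))))))) (K a149 (M a16 (F (T t173 (L l375 (T t97 (L l16 (L l170 (L l366 (T t102 N))))))))) (K a213 (Fr a170 a255 l476 (Fr a42 a21 l68 (Fr a106 a234 l390 (Fr a192 a149 l519 (V t581))))) (K a42 (M a48 (F (L l28 (T t99 (L l390 (T t50 (L l28 (L l234 (T t100 N))))))))) (K a106 (M a48 (F (T t99 (T t1 (L l390 (T t50 N)))))) (K a170 (M a16 (F (L l390 (L l404 (T t97 (L l390 (T t98 (L l234 (L l404 (T t113 (L l229 (L l404 (T t174 N))))))))))))) (K a255 (M a16 (F (T t112 (L l234 (L l289 (T t113 (L l289 (L l296 (T t98 N))))))))) N)))))))))))))))⟩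
def e0_63__198_12 : Ent 4 := ⟨[a0, a63], [a198, a19], (M a149 (F (T t5 (T t175 (T t176 (T t177 (K a192 (M a53 (F (T t178 (L l10 (L l229 (L l236 (T t179 (L l229 (L l236 (L l296 (T t180 N))))))))))) (K a21 (M a48 (F (T t7 (L l10 (L l18 (L l229 (T t14 (T t13 N)))))))) (K a85 (M a16 (F (L l17 (T t97 (L l144 (L l345 (T t190 (L l94 (T t278 N))))))))) (K a213 (Fr a106 a192 l519 (Fr a42 a21 l68 (Fr a170 a234 l390 (Fr a255 a85 l476 (V t582))))) (K a42 (M a48 (F (L l234 (T t187 (L l390 (T t13 (L l10 (L l54 (L l229 (T t14 N)))))))))) (K a106 (M a48 (F (T t1 (L l10 (L l229 (L l498 (T t14 (L l229 (L l390 (L l498 (T t6 (L l367 (L l390 (T t26 N)))))))))))))) (K a170 (M a48 (F (L l229 (T t4 (L l462 (T t1 (L l390 (T t13 N)))))))) (K a191 (M a48 (F (T t13 (L l229 (T t6 N))))) (K a255 (M a16 (F (T t112 (L l266 (L l345 (T t190 (L l289 (L l296 (L l367 (T t191 N)))))))))) N)))))))))))))))⟩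
def e0_63__198_13 : Ent 4 := ⟨[a0, a63], [a198, a20], (M a85 (F (T t88 (L l11 (T t52 (T t89 (T t90 (K a64 (M a16 (F (T t97 (L l84 (T t96 (L l116 (T t98 N))))))) (K a192 (M a16 (F (T t96 (L l339 (T t97 (L l296 (T t98 N))))))) (K a21 (M a51 (L l11 (F (T t943 (T t944 (L l50 (T t945 (K a22 (M a23 (F (T t943 (L l19 (L l50 (L l69 (T t946 N))))))) (K a23 (M a22 (F (T t943 (T t944 (L l49 (L l50 (T t945 N))))))) N))))))))) (K a149 (M a16 (F (T t173 (L l375 (T t97 (L l170 (T t102 N))))))) (K a213 (Fr a170 a255 l476 (Fr a42 a21 l68 (Fr a106 a234 l390 (Fr a192 a149 l519 (V t581))))) (K a42 (M a48 (F (L l28 (T t99 (L l390 (T t50 (L l28 (L l234 (T t100 N))))))))) (K a106 (M a48 (F (T t99 (L l11 (T t1 (L l390 (T t50 N))))))) (K a170 (M a16 (F (L l390 (L l404 (T t97 (L l390 (T t98 (L l234 (L l404 (T t113 (L l229 (L l404 (T t174 N))))))))))))) (K a255 (M a16 (F (T t112 (L l234 (L l289 (T t113 (L l289 (L l296 (T t98 N)))))))))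 N))))))))))))))))⟩
def e0_63__198_14 : Ent 4 := ⟨[a0, a63], [a198, a22], (M a192 (F (T t21 (L l11 (T t35 (T t202 (L l66 (T t37 (K a64 (M a48 (F (T t225 (L l11 (T t1 (L l66 (L l116 (L l144 (T t31 N))))))))) (K a128 (M a48 (F (T t22 (L l11 (T t1 (L l66 (T t31 N))))))) (K a21 (M a20 (F (T t948 (L l66 (L l347 (T t5451 (L l65 (L l234 (L l237 (L l347 (T t950 N))))))))))) (K a85 (M a16 (F (T t210 (L l66 (T t97 (L l16 (L l66 (L l94 (L l144 (T t211 N)))))))))) (K a149 (M a48 (F (T t837 (L l11 (L l347 (L l491 (T t1 (L l11 (L l170 (L l220 (L l347 (L l491 (T t213 (L l66 (L l375 (T t214 N)))))))))))))))) (K a42 (M a2 (F (T t5452 (L l11 (L l390 (T t1804 (L l390 (T t1365 N)))))))) (K a106 (M a48 (F (T t27 (L l11 (T t1 (L l11 (L l411 (T t213 (L l66 (L l104 (L l144 (L l390 (L l498 (T t214 N)))))))))))))) (K a170 (M a32 (F (T t218 (L l11 (T t219 (L l11 (L l51 (L l180 (L l220 (T t220 N)))))))))) (K a255 (M a16 (F (T t1805 (L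 l66 (L l469 (T t97 (L l16 (L l66 (T t211 N))))))))) N)))))))))))))))))⟩
def e0_63__198_15 : Ent 4 := ⟨[a0, a63], [a198, a23], (M a149 (F (T t5 (L l11 (T t175 (T t176 (T t177 (K a192 (M a53 (F (T t178 (L l229 (L l236 (T t179 (L l229 (L l236 (L l296 (T t180 N)))))))))) (K a21 (M a48 (L l11 (F (T t7 (L l18 (L l229 (T t14 (T t13 (K a20 (M a22 (F (T t7 (L l14 (L l18 (L l229 (T t14 (T t13 N)))))))) (K a22 (M a20 (F (T t7 (L l19 (L l50 (T t183 N)))))) N)))))))))) (K a85 (M a16 (F (L l17 (T t97 (L l144 (T t190 (L l94 (T t278 N)))))))) (K a213 (Fr a106 a192 l519 (Fr a42 a21 l68 (Fr a170 a234 l390 (Fr a255 a85 l476 (V t582))))) (K a42 (M a48 (F (L l234 (T t11 (L l390 (T t13 (L l54 (L l229 (T t14 N))))))))) (K a106 (M a48 (F (L l11 (T t1 (L l229 (L l498 (T t14 (L l229 (L l390 (L l498 (T t6 (L l390 (T t26 N))))))))))))) (K a170 (M a48 (F (L l229 (T t4 (L l11 (L l462 (T t1 (L l390 (T t13 N))))))))) (K a191 (M a252 (F (T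 t940 (T t941 N)))) (K a255 (M a16 (F (T t112 (L l266 (T t190 (L l289 (L l296 (T t191 N)))))))) N))))))))))))))))⟩
def e0_63__198_16 : Ent 4 := ⟨[a0, a63], [a198, a24], (M a85 (F (T t88 (T t52 (T t89 (T t90 (K a64 (M a60 (F (T t114 (L l52 (T t115 N))))) (K a192 (M a16 (F (T t96 (L l339 (T t97 (L l296 (T t98 N))))))) (K a21 (M a48 (F (T t99 (T t50 (L l47 (L l234 (T t100 N))))))) (K a149 (M a16 (F (T t173 (L l375 (T t97 (L l12 (L l170 (L l356 (T t102 N))))))))) (K a213 (Fr a170 a255 l476 (Fr a42 a21 l68 (Fr a106 a234 l390 (Fr a192 a149 l519 (V t581))))) (K a42 (M a48 (F (L l28 (T t99 (L l390 (T t50 (L l28 (L l234 (T t100 N))))))))) (K a106 (M a48 (F (T t99 (T t1 (L l390 (T t50 N)))))) (K a170 (M a16 (F (L l390 (L l404 (T t97 (L l390 (T t98 (L l234 (L l404 (T t113 (L l229 (L l404 (T t174 N))))))))))))) (K a255 (M a16 (F (T t112 (L l234 (L l289 (T t113 (L l289 (L l296 (T t98 N))))))))) N)))))))))))))))⟩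
def e0_63__198_17 : Ent 4 := ⟨[a0, a63], [a198, a25], (M a192 (F (T t21 (L l15 (T t35 (T t202 (L l56 (T t37 (K a64 (M a48 (F (T t225 (L l15 (T t1 (L l56 (L l116 (L l144 (T t31 N))))))))) (K a128 (M a48 (F (T t22 (L l15 (T t1 (L l56 (T t31 N))))))) (K a21 (M a17 (F (T t207 (L l56 (L l229 (L l347 (T t208 (L l56 (L l229 (L l237 (T t209 N))))))))))) (K a85 (M a16 (F (T t210 (L l56 (T t97 (L l12 (L l56 (L l94 (L l144 (T t211 N)))))))))) (K a149 (M a48 (F (T t837 (L l15 (L l347 (L l491 (T t1 (L l15 (L l170 (L l220 (L l347 (L l491 (T t213 (L l56 (L l375 (T t214 N)))))))))))))))) (K a42 (M a8 (F (T t1806 (L l15 (L l390 (T t1807 (L l15 (T t217 N)))))))) (K a106 (M a48 (F (T t27 (L l15 (T t1 (L l15 (L l411 (T t213 (L l56 (L l104 (L l144 (L l390 (L l498 (T t214 N)))))))))))))) (K a170 (M a32 (F (T t218 (L l15 (T t219 (L l15 (L l71 (L l180 (L l220 (T t220 N)))))))))) (K a255 (M a16 (F (T t1805 (L l56 (L l469 (T t97 (L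 l12 (L l56 (T t211 N))))))))) N)))))))))))))))))⟩
def e0_63__198_18 : Ent 4 := ⟨[a0, a63], [a198, a26], (M a192 (F (T t21 (L l18 (T t35 (T t202 (L l54 (T t37 (K a64 (M a12 (F (T t450 (L l18 (T t122 (L l54 (L l80 (L l144 (T t160 N))))))))) (K a128 (M a12 (F (T t221 (L l18 (T t122 (L l54 (T t160 N))))))) (K a21 (M a16 (F (T t210 (L l54 (L l229 (L l347 (T t222 (L l347 (T t223 N))))))))) (K a85 (M a48 (F (T t28 (L l234 (L l347 (T t20 (L l18 (L l54 (L l144 (L l229 (L l368 (T t224 N)))))))))))) (K a149 (M a12 (F (T t1725 (L l18 (L l347 (L l371 (T t122 (L l18 (L l202 (L l220 (L l347 (L l371 (T t227 (L l54 (L l495 (T t228 N)))))))))))))))) (K a42 (M a10 (F (T t5453 (L l18 (L l390 (T t230 (L l390 (T t231 N)))))))) (K a106 (M a12 (F (T t159 (L l18 (T t122 (L l18 (L l501 (T t227 (L l54 (L l132 (L l144 (L l390 (L l408 (T t228 N)))))))))))))) (K a170 (M a48 (F (T t837 (L l54 (L l229 (L l390 (T t206 (L l220 (L l234 (L l404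 (T t29 N))))))))))) (K a255 (M a224 (F (T t233 (T t232 (L l18 (L l75 (T t234 N))))))) N)))))))))))))))))⟩
def e0_63__198_19 : Ent 4 := ⟨[a0, a63], [a198, a27], (M a149 (F (T t5 (T t175 (T t176 (T t177 (K a192 (M a53 (F (T t178 (L l229 (L l236 (T t179 (L l229 (L l236 (L l296 (T t180 N)))))))))) (K a21 (M a48 (F (T t7 (L l18 (L l229 (T t14 (T t13 N))))))) (K a85 (M a16 (F (L l455 (T t112 (L l144 (T t190 (L l12 (L l94 (L l357 (T t278 N)))))))))) (K a213 (Fr a106 a192 l519 (Fr a42 a21 l68 (Fr a170 a234 l390 (Fr a255 a85 l476 (V t582))))) (K a42 (M a48 (F (L l234 (T t11 (L l390 (T t13 (L l54 (L l229 (T t14 N))))))))) (K a106 (M a48 (F (T t48 (L l229 (L l498 (T t14 (L l229 (L l390 (L l498 (T t6 (L l390 (T t26 N)))))))))))) (K a170 (M a48 (F (T t607 (L l234 (T t11 (L l390 (T t13 N))))))) (K a191 (M a48 (F (T t13 (L l229 (T t6 N))))) (K a255 (M a16 (F (T t112 (L l266 (T t190 (L l289 (L l296 (T t191 N)))))))) N)))))))))))))))⟩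
def e0_63__198_20 : Ent 4 := ⟨[a0, a63], [a198, a28], (M a149 (F (T t5 (T t175 (T t176 (T t177 (K a192 (M a53 (F (T t178 (L l14 (L l229 (L l236 (T t179 (L l229 (L l236 (L l296 (T t180 N))))))))))) (K a21 (M a48 (F (T t7 (L l14 (L l18 (L l229 (T t14 (T t13 N)))))))) (K a85 (M a16 (F (L l13 (T t97 (L l144 (L l370 (T t190 (L l94 (T t278 N))))))))) (K a213 (Fr a106 a192 l519 (Fr a42 a21 l68 (Fr a170 a234 l390 (Fr a255 a85 l476 (V t582))))) (K a42 (M a48 (F (L l234 (T t187 (L l390 (T t13 (L l14 (L l54 (L l229 (T t14 N)))))))))) (K a106 (M a48 (F (T t1 (L l14 (L l229 (L l498 (T t14 (L l229 (L l390 (L l498 (T t6 (L l362 (L l390 (T t26 N)))))))))))))) (K a170 (M a48 (F (L l229 (T t4 (L l462 (T t1 (L l390 (T t13 N)))))))) (K a191 (M a48 (F (T t13 (L l229 (T t6 N))))) (K a255 (M a16 (F (T t112 (L l266 (L l370 (T t190 (L l289 (L l296 (L l362 (T t191 N)))))))))) N)))))))))))))))⟩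
def e0_63__198_21 : Ent 4 := ⟨[a0, a63], [a198, a29], (M a149 (F (T t5 (L l15 (T t175 (T t176 (T t177 (K a192 (M a53 (F (T t178 (L l229 (L l236 (T t179 (L l229 (L l236 (L l296 (T t180 N)))))))))) (K a21 (M a48 (L l15 (F (T t7 (L l18 (L l229 (T t14 (T t13 (K a17 (M a25 (F (T t7 (L l10 (L l18 (L l229 (T t14 (T t13 N)))))))) (K a25 (M a17 (F (T t7 (L l19 (L l65 (T t642 N)))))) N)))))))))) (K a85 (M a16 (F (L l13 (T t97 (L l144 (T t190 (L l94 (T t278 N)))))))) (K a213 (Fr a106 a192 l519 (Fr a42 a21 l68 (Fr a170 a234 l390 (Fr a255 a85 l476 (V t582))))) (K a42 (M a48 (F (L l234 (T t11 (L l390 (T t13 (L l54 (L l229 (T t14 N))))))))) (K a106 (M a48 (F (L l15 (T t1 (L l229 (L l498 (T t14 (L l229 (L l390 (L l498 (T t6 (L l390 (T t26 N))))))))))))) (K a170 (M a48 (F (L l229 (T t4 (L l15 (L l462 (T t1 (L l390 (T t13 N))))))))) (K a191 (M a16 (F (T t112 (T t190 (L l213 (T t191 N)))))) (K a255 (M a16 (F (T t112 (L l266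 (T t190 (L l289 (L l296 (T t191 N)))))))) N))))))))))))))))⟩
def e0_63__198_22 : Ent 4 := ⟨[a0, a63], [a198, a30], (M a149 (F (T t5 (T t175 (T t176 (T t177 (K a192 (M a53 (F (T t178 (L l229 (L l236 (T t179 (L l229 (L l236 (L l296 (T t180 N)))))))))) (K a21 (M a48 (F (T t7 (L l18 (L l229 (T t14 (T t13 N))))))) (K a85 (M a16 (F (L l455 (T t112 (L l144 (T t190 (L l16 (L l94 (L l372 (T t278 N)))))))))) (K a213 (Fr a106 a192 l519 (Fr a42 a21 l68 (Fr a170 a234 l390 (Fr a255 a85 l476 (V t582))))) (K a42 (M a48 (F (L l234 (T t11 (L l390 (T t13 (L l54 (L l229 (T t14 N))))))))) (K a106 (M a48 (F (T t48 (L l229 (L l498 (T t14 (L l229 (L l390 (L l498 (T t6 (L l390 (T t26 N)))))))))))) (K a170 (M a48 (F (T t607 (L l234 (T t11 (L l390 (T t13 N))))))) (K a191 (M a48 (F (T t13 (L l229 (T t6 N))))) (K a255 (M a16 (F (T t112 (L l266 (T t190 (L l289 (L l296 (T t191 N)))))))) N)))))))))))))))⟩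
def e0_63__198_23 : Ent 4 := ⟨[a0, a63], [a198, a31], (M a149 (F (T t5 (L l18 (T t175 (T t176 (T t177 (K a192 (M a29 (F (T t956 (L l272 (T t641 (L l272 (L l296 (L l363 (T t957 N))))))))) (K a21 (M a12 (L l18 (F (T t958 (L l237 (T t648 (L l50 (T t649 (K a16 (M a26 (F (T t958 (L l237 (T t648 (L l50 (T t649 N))))))) (K a26 (M a16 (F (T t958 (L l50 (L l57 (T t652 N)))))) N)))))))))) (K a85 (M a48 (F (L l18 (T t1 (L l234 (T t11 (L l144 (T t13 N)))))))) (K a213 (Fr a106 a192 l519 (Fr a42 a21 l68 (Fr a170 a234 l390 (Fr a255 a85 l476 (V t582))))) (K a42 (M a48 (F (L l234 (T t187 (L l390 (T t13 (L l18 (L l54 (L l229 (T t14 N)))))))))) (K a106 (M a12 (F (L l408 (T t649 (L l13 (L l18 (T t122 (L l390 (L l408 (T t960 (L l390 (T t961 N)))))))))))) (K a170 (M a48 (F (L l229 (T t4 (L l18 (L l462 (T t1 (L l390 (T t13 N))))))))) (K a191 (M a48 (F (T t13 (L l229 (T t6 N))))) (K a255 (M a48 (F (L l18 (L l469 (T t1 (L l234 (L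 l296 (T t11 (L l266 (T t13 N)))))))))) N))))))))))))))))⟩
def e0_63__198_24 : Ent 4 := ⟨[a0, a63], [a198, a48], (M a60 (F (T t116 (L l45 (T t67 (L l45 (T t43 (L l45 (T t68 (L l45 (T t69 (K a20 (M a12 (F (T t570 (L l11 (L l30 (T t122 (L l11 (L l46 (T t399 N))))))))) (K a40 (M a12 (F (T t150 (L l75 (T t398 (L l24 (T t399 N))))))) (K a21 (M a192 (F (T t2647 (L l237 (L l347 (L l488 (T t73 (L l347 (T t74 N))))))))) (K a41 (M a192 (F (T t254 (L l65 (L l440 (T t35 (L l237 (L l488 (T t73 N))))))))) (K a61 (M a192 (F (T t1334 (L l65 (L l440 (L l515 (T t35 (T t80 N)))))))) (K a22 (M a192 (F (T t614 (L l11 (L l436 (T t79 (L l11 (L l440 (T t35 N))))))))) (K a42 (M a192 (F (T t614 (L l436 (T t79 (L l22 (T t74 N))))))) (K a62 (M a192 (F (T t57 (L l436 (T t79 (L l66 (L l516 (T t80 N)))))))) (K a3 (M a84 (L l45 (F (T t2648 (T t1415 (L l440 (L l475 (L l477 (T t1416 (K a33 (M a18 (F (T t1414 (L l70 (T t1417 N))))) (K a18 (M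 a33 (F (T t1414 (L l70 (T t1418 N))))) N))))))))))) N))))))))))))))))))))⟩
def e0_63__198_25 : Ent 4 := ⟨[a0, a63], [a198, a49], (M a149 (F (T t5 (T t175 (T t176 (T t177 (K a192 (M a53 (F (T t178 (L l229 (L l236 (T t179 (L l229 (L l236 (L l296 (T t180 N)))))))))) (K a21 (M a48 (F (T t7 (L l18 (L l229 (T t14 (T t13 N))))))) (K a85 (M a16 (F (T t97 (L l144 (T t190 (L l94 (T t278 N))))))) (K a213 (Fr a106 a192 l519 (Fr a42 a21 l68 (Fr a170 a234 l390 (Fr a255 a85 l476 (V t582))))) (K a42 (M a48 (F (L l54 (L l229 (T t4 (L l390 (T t13 (L l54 (L l229 (T t14 N)))))))))) (K a106 (M a48 (F (L l411 (T t3 (L l229 (L l498 (T t14 (L l229 (L l390 (L l437 (L l498 (T t6 (L l390 (T t26 N)))))))))))))) (K a170 (M a48 (F (T t3 (L l35 (L l234 (T t11 (L l390 (T t13 N)))))))) (K a191 (M a204 (F (T t1283 (L l485 (T t1112 N))))) (K a255 (M a16 (F (T t112 (L l266 (T t190 (L l289 (L l296 (T t191 N)))))))) N)))))))))))))))⟩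
def e0_63__198_26 : Ent 4 := ⟨[a0, a63], [a198, a50], (M a85 (F (T t88 (T t52 (T t89 (T t90 (K a64 (M a16 (F (T t97 (L l84 (T t96 (L l116 (T t98 N))))))) (K a192 (M a16 (F (T t96 (L l339 (T t97 (L l296 (T t98 N))))))) (K a21 (M a48 (F (T t1699 (L l47 (L l234 (T t100 (T t50 N))))))) (K a149 (M a16 (F (T t173 (L l375 (T t97 (L l72 (L l170 (L l510 (T t102 N))))))))) (K a213 (Fr a170 a255 l476 (Fr a42 a21 l68 (Fr a106 a234 l390 (Fr a192 a149 l519 (V t581))))) (K a42 (M a48 (F (T t364 (L l390 (T t50 (L l28 (L l234 (T t100 N)))))))) (K a106 (M a48 (F (T t1 (L l104 (T t509 (L l390 (T t50 N))))))) (K a170 (M a16 (F (L l390 (L l404 (T t97 (L l390 (T t98 (L l234 (L l404 (T t113 (L l36 (L l229 (L l404 (T t174 N)))))))))))))) (K a255 (M a16 (F (L l469 (T t97 (L l234 (L l289 (T t113 (L l289 (L l296 (T t98 N)))))))))) N)))))))))))))))⟩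
def e0_63__198_27 : Ent 4 := ⟨[a0, a63], [a198, a51], (M a48 (F (T t48 (L l73 (T t1 (L l73 (T t2 (L l73 (T t3 (L l73 (T t0 (K a16 (M a85 (F (T t89 (L l417 (T t50 (L l229 (T t51 N))))))) (K a32 (M a85 (F (L l439 (T t52 (L l404 (L l417 (T t50 (L l28 (L l229 (T t51 N)))))))))) (K a21 (M a192 (F (T t54 (L l417 (T t27 (L l47 (L l234 (L l347 (T t29 N))))))))) (K a37 (M a192 (F (T t55 (L l47 (L l234 (L l511 (T t20 (L l439 (T t21 N))))))))) (K a53 (M a192 (F (T t55 (L l439 (L l491 (T t21 (T t31 N))))))) (K a26 (M a192 (F (T t33 (L l417 (T t27 (L l439 (T t21 N))))))) (K a42 (M a192 (F (T t33 (L l417 (T t27 (L l28 (L l234 (T t29 N)))))))) (K a58 (M a192 (F (T t57 (L l417 (T t27 (L l54 (L l498 (T t31 N)))))))) (K a15 (M a80 (L l73 (F (T t58 (T t59 (L l439 (L l469 (L l483 (T t60 (K a39 (M a27 (F (T t1831 (L l39 (T t1425 N))))) (K a27 (M a39 (F (T t1831 (L l39 (L l492 (T t1426 N)))))) N))))))))))) N))))))))))))))))))))⟩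
def e0_63__198_28 : Ent 4 := ⟨[a0, a63], [a198, a53], (M a149 (F (T t5 (L l47 (T t175 (T t176 (T t177 (K a192 (M a29 (F (T t956 (L l272 (T t641 (L l272 (L l296 (T t957 N)))))))) (K a21 (M a12 (L l47 (F (T t958 (L l237 (T t648 (L l50 (T t649 (K a5 (M a37 (F (T t958 (L l237 (T t648 (L l1 (L l50 (T t649 N)))))))) (K a37 (M a5 (F (T t959 (L l51 (L l65 (T t1428 N)))))) N)))))))))) (K a85 (M a4 (F (L l31 (T t519 (L l144 (L l229 (L l237 (T t653 (L l126 (L l492 (T t654 N))))))))))) (K a213 (Fr a106 a192 l519 (Fr a42 a21 l68 (Fr a170 a234 l390 (Fr a255 a85 l476 (V t582))))) (K a42 (M a240 (F (T t1090 (L l390 (T t1091 (T t1207 N)))))) (K a106 (M a12 (F (L l47 (T t122 (L l408 (T t649 (L l390 (L l408 (T t960 (L l390 (T t961 N))))))))))) (K a170 (M a12 (F (T t958 (L l47 (L l402 (T t122 (L l237 (L l390 (T t648 N))))))))) (K a191 (M a16 (F (T t2683 (T t190 (L l213 (T t2684 N)))))) (K a255 (M a208 (F (T t2180 (T t1833 (L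 l440 (T t1277 N)))))) N))))))))))))))))⟩
def e0_63__198_29 : Ent 4 := ⟨[a0, a63], [a198, a54], (M a149 (L l492 (F (T t5 (T t175 (T t176 (T t177 (K a192 (M a102 (F (L l296 (T t4307 (L l229 (L l232 (T t1203 (L l229 (L l232 (T t1205 (L l229 (L l232 (L l296 (T t1202 (L l296 (T t5454 N)))))))))))))))) (K a21 (M a240 (L l492 (F (T t1090 (T t1091 (T t1207 (K a150 (M a102 (F (T t1937 (L l15 (L l229 (T t1203 N)))))) (K a102 (M a150 (F (T t1937 (L l126 (T t5455 N))))) N)))))))) (K a85 (M a20 (L l492 (F (T t238 (L l144 (T t1269 (L l48 (L l87 (T t1270 (K a150 (M a102 (F (T t238 (L l171 (L l229 (L l365 (T t1947 N))))))) (K a102 (M a150 (L l126 (F (T t238 (L l102 (L l141 (L l144 (T t5456 (K a68 (M a119 (F (T t238 (L l141 (T t5457 N))))) (K a119 (M a68 (F (T t238 (L l102 (L l144 (L l150 (L l458 (T t5458 N)))))))) N)))))))))) N))))))))))) (K a213 (Fr a106 a192 l519 (Fr a42 a21 l68 (Fr a170 a234 l390 (Fr a255 a85 l476 (V t582)))))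 (K a42 (M a240 (L l492 (F (T t1090 (L l390 (T t1091 (T t1207 (K a150 (M a102 (F (T t4820 (L l56 (L l229 (T t1203 N)))))) (K a102 (M a150 (F (T t4820 (L l126 (T t5455 N))))) N))))))))) (K a106 (M a150 (F (L l390 (T t999 (L l39 (L l98 (L l234 (T t1000 (L l36 (L l390 (T t1793 (L l39 (L l98 (T t1002 N)))))))))))))) (K a170 (M a150 (F (L l39 (T t5459 (L l390 (T t999 (L l234 (L l392 (T t4267 (L l39 (T t1002 N))))))))))) (K a191 (M a150 (F (T t5460 (L l219 (T t999 (L l234 (T t4267 N))))))) (K a255 (M a102 (F (L l229 (T t5461 (L l229 (L l296 (T t1202 (L l296 (L l439 (T t4307 (L l229 (T t1205 N)))))))))))) (K a150 (M a102 (F (T t175 (L l171 (L l229 (T t1947 (L l229 (T t1203 N)))))))) (K a102 (M a150 (F (T t175 (L l105 (T t5460 (T t3185 N)))))) N))))))))))))))))))⟩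
def e0_63__198_30 : Ent 4 := ⟨[a0, a63], [a198, a55], (M a149 (F (T t5 (L l50 (T t175 (T t176 (T t177 (K a192 (M a53 (F (T t178 (L l229 (L l236 (T t179 (L l229 (L l236 (L l296 (L l423 (T t180 N))))))))))) (K a21 (M a48 (L l50 (F (T t7 (L l18 (L l229 (T t14 (T t13 (K a4 (M a38 (F (T t7 (L l18 (L l229 (T t14 (T t13 N))))))) (K a38 (M a4 (F (T t7 (L l18 (L l29 (T t518 N)))))) N)))))))))) (K a85 (M a16 (F (T t97 (L l144 (T t190 (L l94 (T t278 N))))))) (K a213 (Fr a106 a192 l519 (Fr a42 a21 l68 (Fr a170 a234 l390 (Fr a255 a85 l476 (V t582))))) (K a42 (M a48 (F (L l54 (L l229 (T t4 (L l390 (T t13 (L l54 (L l229 (T t14 N)))))))))) (K a106 (M a48 (F (L l50 (L l411 (T t3 (L l229 (L l498 (T t14 (L l229 (L l390 (L l498 (T t6 (L l390 (T t26 N)))))))))))))) (K a170 (M a48 (F (L l229 (T t4 (L l31 (L l50 (L l462 (T t1 (L l390 (T t13 N)))))))))) (K a191 (M a48 (F (T t13 (L l229 (T t6 N))))) (K a255 (M a16 (F (T t112 (L l266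 (T t190 (L l289 (L l296 (T t191 N)))))))) N))))))))))))))))⟩
def e0_63__198_31 : Ent 4 := ⟨[a0, a63], [a198, a57], (M a149 (F (T t5 (T t175 (T t176 (T t177 (K a192 (M a53 (F (L l32 (T t178 (L l229 (L l236 (L l296 (T t180 (L l32 (L l229 (L l236 (T t179 N)))))))))))) (K a21 (M a48 (F (T t7 (L l18 (L l32 (L l229 (T t14 (T t13 N)))))))) (K a85 (M a16 (F (T t97 (L l144 (T t190 (L l94 (T t278 N))))))) (K a213 (Fr a106 a192 l519 (Fr a42 a21 l68 (Fr a170 a234 l390 (Fr a255 a85 l476 (V t582))))) (K a42 (M a48 (F (L l35 (L l234 (T t187 (L l390 (T t13 (L l32 (L l54 (L l229 (T t14 N))))))))))) (K a106 (M a48 (F (L l411 (T t3 (L l32 (L l229 (L l498 (T t14 (L l32 (L l229 (L l390 (L l498 (T t6 (L l390 (T t26 N))))))))))))))) (K a170 (M a48 (F (T t3 (L l35 (L l234 (T t11 (L l390 (T t13 N)))))))) (K a191 (M a48 (F (T t13 (L l32 (L l229 (T t6 N)))))) (K a255 (M a16 (F (L l469 (T t97 (L l266 (T t190 (L l289 (L l296 (T t191 N)))))))))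 N)))))))))))))))⟩
def e0_63__198_32 : Ent 4 := ⟨[a0, a63], [a198, a59], (M a149 (F (T t175 (L l56 (T t5 (L l56 (T t176 (L l501 (T t177 (K a192 (M a53 (F (L l32 (L l56 (T t178 (L l32 (L l229 (L l236 (T t179 (L l56 (L l229 (L l236 (L l296 (T t180 N)))))))))))))) (K a21 (M a48 (F (L l501 (T t7 (L l18 (L l32 (L l229 (T t14 (L l501 (T t13 N)))))))))) (K a85 (M a16 (F (L l56 (T t97 (L l144 (L l501 (T t190 (L l56 (L l94 (T t278 N)))))))))) (K a213 (Fr a106 a192 l519 (Fr a42 a21 l68 (Fr a170 a234 l390 (Fr a255 a85 l476 (V t582))))) (K a42 (M a8 (F (T t1841 (L l390 (L l501 (T t644 (L l26 (L l427 (T t643 (L l390 (L l427 (L l501 (T t1842 N))))))))))))) (K a106 (M a153 (F (L l102 (T t1843 (L l56 (L l390 (T t1844 (L l102 (L l427 (T t1845 (L l56 (L l102 (L l390 (L l492 (T t1846 N))))))))))))))) (K a170 (M a48 (F (T t3 (L l234 (T t11 (L l390 (L l501 (T t13 N)))))))) (K a191 (M a16 (F (L l56 (T t97 (L l501 (T t190 (L l56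 (L l213 (T t191 N))))))))) (K a255 (M a16 (F (L l56 (L l469 (T t97 (L l266 (L l501 (T t190 (L l56 (L l289 (L l296 (T t191 N)))))))))))) N))))))))))))))))))⟩
def e0_63__198_33 : Ent 4 := ⟨[a0, a63], [a198, a64], (M a60 (F (T t67 (T t43 (T t68 (T t69 (K a20 (M a48 (F (T t2 (T t64 (L l11 (T t235 N)))))) (K a40 (M a48 (F (T t1 (T t64 (L l52 (T t235 N)))))) (K a21 (M a105 (F (L l11 (T t1129 (L l140 (T t1128 (L l11 (T t405 N)))))))) (K a41 (M a32 (F (T t1568 (L l65 (T t219 (L l25 (L l65 (T t1569 N)))))))) (K a61 (M a16 (F (T t1140 (T t97 (L l59 (T t1141 N)))))) (K a22 (M a16 (F (T t2447 (L l66 (T t97 (L l16 (L l66 (T t1141 N)))))))) (K a42 (M a105 (F (T t1129 (L l66 (L l140 (T t1128 (L l66 (T t405 N)))))))) (K a62 (M a16 (F (T t1140 (L l66 (T t97 (L l66 (T t1141 N))))))) (K a3 (M a85 (F (T t447 (T t115 N)))) N)))))))))))))))⟩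
def e0_63__198_34 : Ent 4 := ⟨[a0, a63], [a198, a65], (M a48 (F (T t1 (T t2 (T t3 (T t0 (K a16 (M a60 (F (T t43 (T t64 (T t65 N))))) (K a32 (M a60 (F (T t67 (T t64 (L l24 (L l28 (T t65 N))))))) (K a21 (M a192 (F (T t28 (L l47 (L l234 (L l347 (T t20 (L l47 (L l234 (L l347 (T t29 N))))))))))) (K a37 (M a192 (F (T t19 (L l47 (L l234 (T t20 (T t21 N))))))) (K a53 (M a192 (F (T t19 (L l491 (T t21 (T t31 N)))))) (K a26 (M a192 (F (T t27 (L l234 (T t20 (T t21 N)))))) (K a42 (M a192 (F (T t19 (L l234 (T t20 (L l28 (L l234 (T t29 N)))))))) (K a58 (M a192 (F (T t19 (T t21 (L l54 (L l498 (T t31 N))))))) (K a15 (M a192 (F (T t54 (L l483 (T t27 (L l469 (T t21 N))))))) N)))))))))))))))⟩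
def e0_63__198_35 : Ent 4 := ⟨[a0, a63], [a198, a66], (M a48 (F (T t1 (T t2 (T t3 (T t0 (K a16 (M a60 (F (T t64 (L l14 (L l18 (L l309 (T t67 (T t65 N)))))))) (K a32 (M a60 (F (T t64 (L l309 (T t67 (L l24 (L l28 (T t65 N)))))))) (K a21 (M a192 (F (T t28 (L l47 (L l234 (L l347 (T t20 (L l47 (L l234 (L l347 (T t29 N))))))))))) (K a37 (M a192 (F (T t19 (L l47 (L l234 (T t20 (T t21 N))))))) (K a53 (M a192 (F (T t19 (L l491 (T t21 (L l142 (T t31 N))))))) (K a26 (M a192 (F (T t28 (L l234 (T t20 (T t21 N)))))) (K a42 (M a192 (F (T t19 (L l234 (T t20 (L l28 (L l234 (T t29 N)))))))) (K a58 (M a192 (F (T t19 (T t21 (L l54 (L l142 (L l498 (T t31 N)))))))) (K a15 (M a192 (F (T t57 (L l483 (T t27 (L l234 (L l325 (T t20 N)))))))) N)))))))))))))))⟩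
def e0_63__198_36 : Ent 4 := ⟨[a0, a63], [a198, a67], (M a149 (F (T t25 (T t175 (T t176 (L l76 (T t177 (K a192 (M a53 (F (T t178 (L l229 (L l236 (T t179 (L l229 (L l236 (L l296 (T t180 N)))))))))) (K a21 (M a48 (F (T t7 (L l18 (L l229 (T t14 (L l121 (T t13 N)))))))) (K a85 (M a16 (F (T t97 (L l144 (T t190 (L l94 (T t278 N))))))) (K a213 (Fr a106 a192 l519 (Fr a42 a21 l68 (Fr a170 a234 l390 (Fr a255 a85 l476 (V t582))))) (K a42 (M a48 (F (L l234 (T t187 (L l121 (L l390 (T t13 (L l54 (L l229 (T t14 N)))))))))) (K a106 (M a48 (F (T t1 (L l229 (L l498 (T t14 (L l229 (L l390 (L l498 (T t6 (L l390 (T t26 N)))))))))))) (K a170 (M a48 (F (T t3 (L l234 (T t11 (L l121 (L l390 (T t13 N)))))))) (K a191 (M a16 (F (T t97 (T t190 (L l213 (T t191 N)))))) (K a255 (M a16 (F (T t112 (L l266 (T t190 (L l289 (L l296 (T t191 N)))))))) N))))))))))))))))⟩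
def e0_63__198_37 : Ent 4 := ⟨[a0, a63], [a198, a68], (M a48 (F (T t1 (T t2 (T t3 (T t0 (K a16 (M a60 (F (T t43 (T t64 (T t65 N))))) (K a32 (M a60 (F (T t67 (T t64 (L l24 (L l28 (T t65 N))))))) (K a21 (M a192 (F (T t28 (L l47 (L l234 (L l347 (T t20 (L l47 (L l234 (L l347 (T t29 N))))))))))) (K a37 (M a192 (F (T t19 (L l47 (L l234 (T t20 (T t21 N))))))) (K a53 (M a192 (F (T t19 (L l491 (T t21 (T t31 N)))))) (K a26 (M a192 (F (T t27 (L l234 (T t20 (T t21 N)))))) (K a42 (M a192 (F (T t19 (L l234 (T t20 (L l28 (L l234 (T t29 N)))))))) (K a58 (M a192 (F (T t19 (T t21 (L l54 (L l498 (T t31 N))))))) (K a15 (M a192 (F (T t54 (L l483 (T t27 (L l469 (T t21 N))))))) N)))))))))))))))⟩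
def e0_63__198_38 : Ent 4 := ⟨[a0, a63], [a198, a69], (M a48 (F (T t1 (L l311 (T t2 (T t3 (T t0 (K a16 (M a60 (F (T t43 (T t64 (L l311 (T t65 N)))))) (K a32 (M a60 (F (T t64 (T t67 (L l24 (L l28 (L l311 (T t65 N)))))))) (K a21 (M a192 (F (T t28 (L l47 (L l234 (L l347 (T t20 (L l47 (L l234 (L l347 (T t29 N))))))))))) (K a37 (M a192 (F (T t19 (L l47 (L l234 (T t20 (T t21 N))))))) (K a53 (M a192 (F (T t19 (L l491 (T t21 (T t31 N)))))) (K a26 (M a192 (F (T t27 (L l234 (T t20 (T t21 N)))))) (K a42 (M a192 (F (T t19 (L l234 (T t20 (L l28 (L l234 (T t29 N)))))))) (K a58 (M a192 (F (T t19 (T t21 (L l54 (L l498 (T t31 N))))))) (K a15 (M a192 (F (T t57 (L l483 (T t27 (L l234 (L l325 (T t20 N)))))))) N))))))))))))))))⟩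
def e0_63__198_39 : Ent 4 := ⟨[a0, a63], [a198, a70], (M a149 (L l312 (F (T t5 (T t175 (T t176 (T t177 (K a192 (M a12 (L l312 (F (T t150 (L l272 (T t649 (L l272 (L l296 (T t960 (L l296 (T t961 (K a6 (M a134 (F (T t1252 (L l85 (L l514 (T t1758 N)))))) (K a134 (M a6 (F (T t2061 (L l153 (L l276 (L l292 (T t1985 N))))))) N))))))))))))) (K a21 (M a12 (L l312 (F (T t958 (L l85 (L l237 (L l333 (T t648 (L l50 (T t649 (K a6 (M a134 (F (T t958 (L l229 (L l237 (L l330 (T t1755 N))))))) (K a134 (M a6 (F (T t958 (L l65 (L l315 (L l333 (T t1982 N))))))) N)))))))))))) (K a85 (M a12 (L l312 (F (T t958 (T t122 (L l85 (L l144 (L l237 (L l333 (T t648 (K a6 (M a134 (F (T t991 (L l229 (L l237 (L l330 (T t1755 N))))))) (K a134 (M a6 (F (T t122 (L l153 (L l276 (T t1985 N)))))) N)))))))))))) (K a213 (Fr a106 a192 l519 (Fr a42 a21 l68 (Fr a170 a234 l390 (Fr a255 a85 l476 (V t582))))) (K a42 (M a12 (L l312 (F (T t1984 (L l85 (L l237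 (L l333 (L l390 (T t648 (L l26 (T t649 (K a6 (M a134 (F (T t991 (L l56 (L l229 (L l237 (L l330 (T t1755 N)))))))) (K a134 (M a6 (F (T t1984 (L l56 (L l315 (L l333 (T t1982 N))))))) N))))))))))))) (K a106 (M a12 (L l312 (F (T t122 (L l408 (T t649 (L l390 (L l408 (T t960 (L l390 (T t961 (K a6 (M a134 (F (T t122 (L l85 (L l98 (L l132 (T t1758 N))))))) (K a134 (M a6 (F (T t122 (L l153 (L l276 (L l393 (T t1985 N))))))) N))))))))))))) (K a170 (M a12 (L l312 (F (T t958 (L l402 (T t122 (L l85 (L l237 (L l333 (L l390 (T t648 (K a6 (M a134 (F (T t991 (L l1 (L l77 (L l237 (T t1759 N))))))) (K a134 (M a6 (F (T t958 (L l314 (L l330 (L l333 (L l474 (T t1986 N)))))))) N))))))))))))) (K a191 (M a240 (L l312 (F (T t962 (L l315 (T t963 (K a6 (M a134 (F (T t962 (L l315 (T t963 N))))) (K a134 (M a6 (F (T t962 (L l153 (L l315 (T t963 N)))))) N)))))))) (K a255 (M a4 (L l312 (F (T t129 (L l229 (L l237 (L l290 (L l315 (L l333 (T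 t653 (L l77 (L l265 (L l296 (T t1070 (K a6 (M a134 (F (L l85 (T t1772 (L l48 (L l124 (L l265 (L l296 (L l492 (T t1773 N)))))))))) (K a134 (M a6 (F (L l336 (T t1987 (L l77 (L l265 (L l296 (T t1070 N)))))))) N)))))))))))))))) (K a6 (M a134 (F (T t5 (T t175 (T t176 (T t177 (K a192 (M a4 (F (L l85 (T t1772 (L l48 (L l124 (L l296 (L l492 (T t1773 N))))))))) (K a21 (M a132 (F (T t1774 (L l9 (L l85 (T t1775 N)))))) (K a85 (M a132 (F (T t1774 (L l9 (L l85 (L l144 (T t1775 N))))))) (K a213 (Fr a106 a192 l519 (Fr a42 a21 l68 (Fr a170 a234 l390 (Fr a255 a85 l476 (V t582))))) (K a42 (M a132 (F (T t1774 (L l9 (L l85 (L l390 (T t1775 N))))))) (K a106 (M a4 (F (L l85 (T t1772 (L l48 (L l102 (L l124 (L l390 (L l492 (T t1773 N)))))))))) (K a170 (M a132 (F (T t1774 (L l9 (L l85 (L l208 (L l390 (T t1775 N)))))))) (K a191 (M a240 (F (T t962 (L l315 (T t963 N))))) (K a255 (M a4 (F (L l85 (T t1772 (L l48 (L l124 (L l265 (L l296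 (L l492 (T t1773 N)))))))))) N))))))))))))))) (K a134 (M a6 (F (T t5 (T t175 (T t176 (T t177 (K a192 (M a4 (F (L l336 (T t1987 (L l77 (L l296 (T t1070 N))))))) (K a21 (M a12 (F (T t958 (L l65 (L l315 (L l333 (T t1982 N))))))) (K a85 (M a4 (F (T t1977 (L l315 (T t1983 N))))) (K a213 (Fr a106 a192 l519 (Fr a42 a21 l68 (Fr a170 a234 l390 (Fr a255 a85 l476 (V t582))))) (K a42 (M a12 (F (T t1984 (L l56 (L l315 (L l333 (T t1982 N))))))) (K a106 (M a4 (F (L l336 (T t1987 (L l77 (L l390 (T t1070 N))))))) (K a170 (M a4 (F (L l336 (L l464 (T t1987 (L l77 (L l390 (T t1070 N)))))))) (K a191 (M a240 (F (T t962 (L l153 (L l315 (T t963 N)))))) (K a255 (M a4 (F (L l336 (T t1987 (L l77 (L l265 (L l296 (T t1070 N)))))))) N))))))))))))))) N))))))))))))))))))⟩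
def e0_63__198_40 : Ent 4 := ⟨[a0, a63], [a198, a71], (M a85 (F (T t88 (T t52 (T t89 (T t90 (K a64 (M a204 (F (T t1744 (L l125 (L l229 (T t1576 N)))))) (K a192 (M a16 (F (T t112 (L l77 (L l127 (T t96 (L l296 (T t98 N)))))))) (K a21 (M a48 (F (T t99 (T t50 (L l47 (L l234 (T t100 N))))))) (K a149 (M a16 (F (T t112 (L l77 (L l331 (T t173 (L l170 (T t102 N)))))))) (K a213 (Fr a170 a255 l476 (Fr a42 a21 l68 (Fr a106 a234 l390 (Fr a192 a149 l519 (V t581))))) (K a42 (M a48 (F (T t364 (L l390 (T t50 (L l28 (L l234 (T t100 N)))))))) (K a106 (M a48 (F (T t99 (T t1 (L l390 (T t50 N)))))) (K a170 (M a16 (F (L l390 (L l404 (T t97 (L l390 (T t98 (L l234 (L l404 (T t113 (L l229 (L l331 (L l404 (T t174 N)))))))))))))) (K a255 (M a16 (F (T t112 (L l234 (L l289 (T t113 (L l289 (L l296 (T t98 N))))))))) N)))))))))))))))⟩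
def e0_63__198_41 : Ent 4 := ⟨[a0, a63], [a198, a72], (M a48 (F (T t1 (T t2 (T t3 (T t0 (K a16 (M a60 (F (T t43 (T t64 (T t65 N))))) (K a32 (M a60 (F (T t67 (T t64 (L l24 (L l28 (T t65 N))))))) (K a21 (M a192 (F (T t28 (L l47 (L l234 (L l347 (T t20 (L l47 (L l234 (L l347 (T t29 N))))))))))) (K a37 (M a192 (F (T t19 (L l47 (L l234 (T t20 (T t21 N))))))) (K a53 (M a192 (F (T t19 (L l491 (T t21 (L l132 (T t31 N))))))) (K a26 (M a192 (F (T t28 (L l234 (T t20 (T t21 N)))))) (K a42 (M a192 (F (T t19 (L l234 (T t20 (L l28 (L l234 (T t29 N)))))))) (K a58 (M a192 (F (T t19 (T t21 (L l54 (L l132 (L l498 (T t31 N)))))))) (K a15 (M a192 (F (T t57 (L l483 (T t27 (L l234 (L l325 (T t20 N)))))))) N)))))))))))))))⟩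
def e0_63__198_42 : Ent 4 := ⟨[a0, a63], [a198, a73], (M a149 (F (T t5 (T t175 (T t176 (T t177 (K a192 (M a53 (F (T t178 (L l229 (L l236 (T t179 (L l81 (L l229 (L l236 (L l296 (T t180 N))))))))))) (K a21 (M a48 (F (T t7 (L l18 (L l229 (T t14 (T t13 N))))))) (K a85 (M a16 (F (T t97 (L l144 (T t190 (L l94 (T t278 N))))))) (K a213 (Fr a106 a192 l519 (Fr a42 a21 l68 (Fr a170 a234 l390 (Fr a255 a85 l476 (V t582))))) (K a42 (M a48 (F (L l234 (T t11 (L l390 (T t13 (L l54 (L l229 (T t14 N))))))))) (K a106 (M a48 (F (T t1 (L l229 (L l498 (T t14 (L l229 (L l390 (L l498 (T t6 (L l390 (T t26 N)))))))))))) (K a170 (M a48 (F (T t3 (L l234 (T t11 (L l390 (T t13 N))))))) (K a191 (M a240 (F (T t962 (L l335 (T t963 N))))) (K a255 (M a16 (F (T t112 (L l266 (T t190 (L l289 (L l296 (T t191 N)))))))) N)))))))))))))))⟩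
def e0_63__198_43 : Ent 4 := ⟨[a0, a63], [a198, a74], (M a12 (F (T t122 (T t151 (T t152 (T t153 (K a4 (M a60 (F (T t43 (L l336 (L l339 (T t398 (T t448 N))))))) (K a8 (M a60 (F (T t67 (L l336 (L l339 (T t398 (L l52 (L l56 (T t448 N))))))))) (K a21 (M a192 (F (L l237 (T t156 (L l15 (L l347 (T t450 (L l15 (L l347 (T t157 N)))))))))) (K a25 (M a192 (F (T t467 (L l237 (T t156 (T t21 N)))))) (K a29 (M a192 (F (T t159 (L l371 (T t21 (L l78 (L l130 (T t160 N)))))))) (K a38 (M a192 (F (T t450 (L l237 (T t156 (T t21 N)))))) (K a42 (M a192 (F (T t450 (L l237 (T t156 (L l56 (T t157 N))))))) (K a46 (M a192 (F (T t21 (L l237 (T t156 (L l26 (L l78 (L l130 (L l408 (T t160 N)))))))))) (K a51 (M a192 (F (T t57 (L l237 (L l513 (T t156 (L l415 (T t450 N)))))))) N)))))))))))))))⟩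
def e0_63__198_44 : Ent 4 := ⟨[a0, a63], [a198, a75], (M a85 (F (T t88 (T t52 (T t89 (T t90 (K a64 (M a16 (F (T t258 (L l337 (T t97 (L l116 (T t98 N))))))) (K a192 (M a16 (F (T t96 (L l337 (L l339 (T t97 (L l296 (T t98 N)))))))) (K a21 (M a48 (F (T t99 (T t50 (L l47 (L l234 (T t100 N))))))) (K a149 (M a16 (F (T t173 (L l337 (L l375 (T t97 (L l170 (T t102 N)))))))) (K a213 (Fr a170 a255 l476 (Fr a42 a21 l68 (Fr a106 a234 l390 (Fr a192 a149 l519 (V t581))))) (K a42 (M a48 (F (T t364 (L l390 (T t50 (L l28 (L l234 (T t100 N)))))))) (K a106 (M a48 (F (T t99 (L l337 (T t1 (L l390 (T t50 N))))))) (K a170 (M a16 (F (L l390 (L l404 (T t112 (L l390 (T t98 (L l234 (L l404 (T t113 (L l229 (L l404 (T t174 N))))))))))))) (K a255 (M a16 (F (T t112 (L l234 (L l289 (T t113 (L l289 (L l296 (T t98 N))))))))) N)))))))))))))))⟩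
def e0_63__198_45 : Ent 4 := ⟨[a0, a63], [a198, a76], (M a149 (F (T t25 (T t175 (T t176 (L l80 (T t177 (K a192 (M a53 (F (T t178 (L l229 (L l236 (T t179 (L l229 (L l236 (L l296 (T t180 N)))))))))) (K a21 (M a48 (F (T t7 (L l18 (L l229 (T t14 (L l146 (T t13 N)))))))) (K a85 (M a16 (F (T t97 (L l144 (T t190 (L l94 (T t278 N))))))) (K a213 (Fr a106 a192 l519 (Fr a42 a21 l68 (Fr a170 a234 l390 (Fr a255 a85 l476 (V t582))))) (K a42 (M a48 (F (L l234 (T t187 (L l146 (L l390 (T t13 (L l54 (L l229 (T t14 N)))))))))) (K a106 (M a48 (F (T t1 (L l229 (L l498 (T t14 (L l229 (L l390 (L l498 (T t6 (L l390 (T t26 N)))))))))))) (K a170 (M a48 (F (T t3 (L l234 (T t11 (L l146 (L l390 (T t13 N)))))))) (K a191 (M a16 (F (T t97 (T t190 (L l213 (T t191 N)))))) (K a255 (M a16 (F (T t112 (L l266 (T t190 (L l289 (L l296 (T t191 N)))))))) N))))))))))))))))⟩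
def e0_63__198_46 : Ent 4 := ⟨[a0, a63], [a198, a77], (M a85 (F (T t88 (T t52 (T t89 (T t90 (K a64 (M a16 (F (T t97 (L l81 (L l84 (L l147 (T t96 (L l116 (T t98 N))))))))) (K a192 (M a16 (F (T t112 (L l81 (L l147 (T t96 (L l296 (T t98 N)))))))) (K a21 (M a48 (F (T t99 (T t50 (L l47 (L l234 (T t100 N))))))) (K a149 (M a16 (F (T t112 (L l81 (L l326 (T t173 (L l170 (T t102 N)))))))) (K a213 (Fr a170 a255 l476 (Fr a42 a21 l68 (Fr a106 a234 l390 (Fr a192 a149 l519 (V t581))))) (K a42 (M a48 (F (T t364 (L l390 (T t50 (L l28 (L l234 (T t100 N)))))))) (K a106 (M a48 (F (T t99 (T t1 (L l390 (T t50 N)))))) (K a170 (M a16 (F (L l390 (L l404 (T t97 (L l390 (T t98 (L l234 (L l404 (T t113 (L l229 (L l326 (L l404 (T t174 N)))))))))))))) (K a255 (M a16 (F (T t112 (L l234 (L l289 (T t113 (L l289 (L l296 (T t98 N))))))))) N)))))))))))))))⟩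
def e0_63__198_47 : Ent 4 := ⟨[a0, a63], [a198, a78], (M a149 (F (T t5 (T t175 (T t176 (T t177 (K a192 (M a53 (F (T t178 (L l229 (L l236 (T t179 (L l229 (L l236 (L l296 (T t180 N)))))))))) (K a21 (M a48 (F (T t7 (L l18 (L l229 (T t14 (T t13 N))))))) (K a85 (M a16 (F (T t504 (L l144 (T t190 (L l94 (L l148 (T t278 N)))))))) (K a213 (Fr a106 a192 l519 (Fr a42 a21 l68 (Fr a170 a234 l390 (Fr a255 a85 l476 (V t582))))) (K a42 (M a48 (F (L l234 (T t11 (L l390 (T t13 (L l54 (L l229 (T t14 N))))))))) (K a106 (M a48 (F (T t48 (L l229 (L l498 (T t14 (L l229 (L l390 (L l498 (T t6 (L l390 (T t26 N)))))))))))) (K a170 (M a48 (F (T t607 (L l234 (T t11 (L l390 (T t13 N))))))) (K a191 (M a252 (F (T t1850 (L l136 (T t941 N))))) (K a255 (M a16 (F (T t112 (L l266 (T t190 (L l289 (L l296 (T t191 N)))))))) N)))))))))))))))⟩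
def e0_63__198_48 : Ent 4 := ⟨[a0, a63], [a198, a79], (M a149 (F (T t25 (T t175 (T t176 (L l84 (T t177 (K a192 (M a53 (F (T t178 (L l229 (L l236 (T t179 (L l84 (L l229 (L l236 (L l296 (T t180 N))))))))))) (K a21 (M a48 (F (T t1267 (L l18 (L l229 (T t14 (L l18 (T t1082 N)))))))) (K a85 (M a16 (F (T t504 (L l144 (T t190 (L l94 (L l151 (T t278 N)))))))) (K a213 (Fr a106 a192 l519 (Fr a42 a21 l68 (Fr a170 a234 l390 (Fr a255 a85 l476 (V t582))))) (K a42 (M a48 (F (L l234 (T t11 (L l390 (T t1082 (L l54 (L l229 (T t14 N))))))))) (K a106 (M a48 (F (T t48 (L l229 (L l498 (T t14 (L l229 (L l390 (L l498 (T t6 (L l390 (T t26 N)))))))))))) (K a170 (M a48 (F (T t607 (L l234 (T t11 (L l151 (L l390 (T t13 N)))))))) (K a191 (M a240 (F (T t962 (T t963 N)))) (K a255 (M a16 (F (T t112 (L l266 (T t190 (L l289 (L l296 (T t191 N)))))))) N))))))))))))))))⟩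
def e0_63__198_49 : Ent 4 := ⟨[a0, a63], [a198, a80], (M a12 (F (T t122 (T t151 (T t152 (T t153 (K a4 (M a60 (F (T t43 (T t398 (T t448 N))))) (K a8 (M a60 (F (T t67 (T t398 (L l52 (L l56 (T t448 N))))))) (K a21 (M a192 (F (T t221 (L l237 (T t156 (L l15 (L l347 (T t157 N)))))))) (K a25 (M a192 (F (T t21 (L l237 (T t156 (L l15 (T t450 N))))))) (K a29 (M a192 (F (T t37 (L l237 (T t156 (T t160 N)))))) (K a38 (M a192 (F (T t450 (L l237 (T t156 (T t21 N)))))) (K a42 (M a192 (F (T t450 (L l237 (T t156 (L l56 (T t157 N))))))) (K a46 (M a192 (F (T t21 (L l237 (T t156 (L l26 (L l408 (T t160 N)))))))) (K a51 (M a192 (F (T t155 (L l237 (L l513 (T t156 (L l439 (T t21 N)))))))) N)))))))))))))))⟩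
def e0_63__198_50 : Ent 4 := ⟨[a0, a63], [a198, a81], (M a12 (F (T t122 (L l341 (T t151 (T t152 (T t153 (K a4 (M a60 (F (T t43 (T t398 (L l341 (T t448 N)))))) (K a8 (M a60 (F (T t398 (T t67 (L l52 (L l56 (L l341 (T t448 N)))))))) (K a21 (M a192 (F (T t543 (L l237 (T t156 (L l15 (L l347 (T t157 N)))))))) (K a25 (M a192 (F (T t467 (L l237 (T t156 (T t21 N)))))) (K a29 (M a192 (F (T t37 (L l237 (T t156 (T t160 N)))))) (K a38 (M a192 (F (T t450 (L l237 (T t156 (T t21 N)))))) (K a42 (M a192 (F (T t450 (L l237 (T t156 (L l56 (T t157 N))))))) (K a46 (M a192 (F (T t21 (L l237 (T t156 (L l26 (L l408 (T t160 N)))))))) (K a51 (M a192 (F (T t47 (L l237 (L l513 (T t156 (L l415 (T t450 N)))))))) N))))))))))))))))⟩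
def e0_63__198_51 : Ent 4 := ⟨[a0, a63], [a198, a82], (M a85 (F (T t88 (T t52 (T t89 (T t90 (K a64 (M a16 (F (T t97 (L l84 (T t96 (L l86 (L l116 (T t98 N)))))))) (K a192 (M a16 (F (T t96 (L l339 (T t97 (L l86 (L l296 (T t98 N)))))))) (K a21 (M a48 (F (T t99 (L l453 (T t50 (L l47 (L l234 (T t100 N)))))))) (K a149 (M a16 (F (T t173 (L l375 (T t97 (L l170 (T t102 N))))))) (K a213 (Fr a170 a255 l476 (Fr a42 a21 l68 (Fr a106 a234 l390 (Fr a192 a149 l519 (V t581))))) (K a42 (M a48 (F (T t364 (L l390 (L l453 (T t50 (L l28 (L l234 (T t100 N))))))))) (K a106 (M a48 (F (T t1 (L l104 (T t509 (L l390 (L l453 (T t50 N)))))))) (K a170 (M a16 (F (L l390 (L l404 (T t97 (L l86 (L l390 (T t98 (L l234 (L l404 (T t113 (L l229 (L l404 (T t174 N)))))))))))))) (K a255 (M a16 (F (T t112 (L l234 (L l289 (T t113 (L l86 (L l289 (L l296 (T t98 N)))))))))) N)))))))))))))))⟩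
def e0_63__198_52 : Ent 4 := ⟨[a0, a63], [a198, a83], (M a85 (F (T t88 (T t52 (T t89 (T t90 (K a64 (M a240 (F (T t386 (L l93 (T t387 N))))) (K a192 (M a16 (F (T t96 (L l339 (T t97 (L l86 (L l296 (T t98 N)))))))) (K a21 (M a48 (F (T t99 (T t50 (L l47 (L l234 (T t100 N))))))) (K a149 (M a16 (F (T t173 (L l375 (T t97 (L l93 (L l170 (T t102 N)))))))) (K a213 (Fr a170 a255 l476 (Fr a42 a21 l68 (Fr a106 a234 l390 (Fr a192 a149 l519 (V t581))))) (K a42 (M a48 (F (T t364 (L l390 (T t50 (L l28 (L l234 (T t100 N)))))))) (K a106 (M a48 (F (T t1 (L l104 (T t509 (L l390 (T t50 N))))))) (K a170 (M a16 (F (L l390 (L l404 (T t97 (L l86 (L l390 (T t98 (L l234 (L l404 (T t113 (L l229 (L l404 (T t174 N)))))))))))))) (K a255 (M a16 (F (T t112 (L l234 (L l289 (T t113 (L l86 (L l289 (L l296 (T t98 N)))))))))) N)))))))))))))))⟩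
def e0_63__198_53 : Ent 4 := ⟨[a0, a63], [a198, a84], (M a85 (F (T t52 (L l140 (T t88 (L l140 (T t89 (L l140 (T t90 (K a64 (M a60 (L l140 (F (T t114 (L l346 (T t115 (K a104 (M a124 (F (T t1126 (L l346 (L l388 (T t115 N)))))) (K a124 (M a104 (F (T t936 (L l346 (T t67 (L l109 (T t1895 N))))))) N)))))))) (K a192 (M a16 (F (T t96 (L l339 (T t97 (L l90 (L l296 (T t98 N)))))))) (K a21 (M a48 (F (T t99 (T t50 (L l47 (L l234 (T t100 N))))))) (K a149 (M a16 (F (T t173 (L l375 (T t97 (L l170 (T t102 N))))))) (K a213 (Fr a170 a255 l476 (Fr a42 a21 l68 (Fr a106 a234 l390 (Fr a192 a149 l519 (V t581))))) (K a42 (M a48 (F (L l28 (T t99 (L l390 (T t50 (L l28 (L l234 (T t100 N))))))))) (K a106 (M a48 (F (T t1 (L l104 (T t509 (L l390 (T t50 N))))))) (K a170 (M a16 (F (L l390 (L l404 (T t97 (L l90 (L l390 (T t98 (L l234 (L l404 (T t113 (L l229 (L l404 (T t174 N)))))))))))))) (K a255 (M a16 (F (T t112 (L l234 (L l289 (T t113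 (L l90 (L l289 (L l296 (T t98 N)))))))))) N))))))))))))))))))⟩
def e0_63__198_54 : Ent 4 := ⟨[a0, a63], [a198, a85], (M a48 (F (T t0 (L l347 (T t1 (L l455 (T t2 (L l347 (L l368 (T t3 (K a16 (M a60 (L l368 (F (T t43 (T t64 (L l455 (T t65 (K a154 (M a223 (F (T t42 (L l473 (T t69 (L l455 (L l498 (T t65 N)))))))) (K a223 (M a154 (F (T t43 (L l234 (L l340 (T t473 N)))))) N))))))))) (K a32 (M a60 (F (T t64 (L l347 (L l350 (T t67 (L l24 (L l28 (L l455 (T t65 N)))))))))) (K a21 (M a149 (F (L l229 (T t4 (L l144 (T t13 (L l18 (L l123 (L l144 (L l229 (L l368 (T t482 (L l18 (L l123 (L l229 (L l368 (T t483 N))))))))))))))))) (K a37 (M a192 (F (T t27 (L l47 (L l234 (L l347 (T t20 (L l144 (L l229 (L l368 (T t224 N))))))))))) (K a53 (M a12 (F (T t443 (L l47 (L l347 (T t122 (L l47 (L l347 (T t146 N))))))))) (K a26 (M a192 (F (T t28 (L l234 (L l347 (T t20 (L l18 (L l54 (L l144 (L l229 (L l368 (T t224 N)))))))))))) (K a42 (M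 a192 (F (T t27 (L l234 (L l347 (T t20 (L l54 (L l144 (L l229 (L l368 (L l390 (T t224 N)))))))))))) (K a58 (M a12 (F (T t443 (L l347 (T t122 (L l347 (T t146 N))))))) (K a15 (M a192 (F (L l483 (T t27 (L l234 (L l325 (L l347 (T t20 (L l144 (L l229 (L l368 (T t224 N)))))))))))) N)))))))))))))))))))⟩
def e0_63__198_55 : Ent 4 := ⟨[a0, a63], [a198, a86], (M a48 (F (T t1 (T t2 (T t3 (T t0 (K a16 (M a60 (F (T t64 (L l14 (L l18 (L l477 (T t67 (L l351 (T t65 N))))))))) (K a32 (M a60 (F (T t64 (L l477 (T t67 (L l24 (L l28 (L l351 (T t65 N))))))))) (K a21 (M a192 (F (T t837 (L l47 (L l234 (L l347 (L l351 (T t20 (L l47 (L l234 (L l347 (L l351 (T t29 N))))))))))))) (K a37 (M a192 (F (T t19 (L l47 (L l234 (L l351 (T t20 (L l351 (T t21 N))))))))) (K a53 (M a192 (F (T t19 (L l351 (L l491 (T t21 (L l142 (T t31 N)))))))) (K a26 (M a192 (F (T t27 (L l234 (L l351 (T t20 (L l351 (T t21 N)))))))) (K a42 (M a192 (F (T t19 (L l234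 (L l351 (T t20 (L l28 (L l234 (L l351 (T t29 N)))))))))) (K a58 (M a192 (F (T t19 (L l351 (T t21 (L l54 (L l142 (L l498 (T t31 N))))))))) (K a15 (M a192 (F (T t1922 (L l234 (L l325 (L l351 (T t20 (L l351 (L l469 (T t21 N)))))))))) N)))))))))))))))⟩
def e0_63__198_56 : Ent 4 := ⟨[a0, a63], [a198, a87], (M a85 (F (T t88 (L l143 (L l475 (T t52 (T t89 (T t90 (K a64 (M a240 (F (T t933 (L l93 (T t387 N))))) (K a192 (M a16 (F (T t112 (L l367 (T t96 (L l296 (L l367 (T t98 N)))))))) (K a21 (M a48 (F (T t873 (L l47 (L l143 (L l234 (L l367 (T t100 (L l143 (T t50 N)))))))))) (K a149 (M a16 (F (T t112 (L l367 (T t173 (L l93 (L l170 (T t102 N)))))))) (K a213 (Fr a170 a255 l476 (Fr a42 a21 l68 (Fr a106 a234 l390 (Fr a192 a149 l519 (V t581))))) (K a42 (M a48 (F (L l475 (T t364 (L l143 (L l390 (T t50 (L l28 (L l143 (L l234 (L l367 (T t100 N)))))))))))) (K a106 (M a48 (F (T t1 (L l104 (L l367 (T t509 (L l143 (L l390 (T t50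 N))))))))) (K a170 (M a16 (F (L l390 (L l404 (T t97 (L l367 (L l390 (T t98 (L l143 (L l234 (L l367 (L l404 (T t113 (L l229 (L l367 (L l404 (T t174 N))))))))))))))))) (K a255 (M a3 (F (T t85 (L l143 (L l261 (L l349 (T t376 (L l261 (L l296 (T t357 (L l261 (L l296 (T t1921 N))))))))))))) N)))))))))))))))))⟩
def e0_63__198_57 : Ent 4 := ⟨[a0, a63], [a198, a88], (M a85 (F (T t88 (T t52 (T t89 (T t90 (K a64 (M a252 (F (T t91 (L l460 (T t92 N))))) (K a192 (M a16 (F (T t96 (L l339 (T t97 (L l90 (L l296 (T t98 N)))))))) (K a21 (M a48 (F (T t99 (L l478 (T t50 (L l47 (L l234 (T t100 N)))))))) (K a149 (M a16 (F (T t173 (L l375 (T t97 (L l170 (T t102 N))))))) (K a213 (Fr a170 a255 l476 (Fr a42 a21 l68 (Fr a106 a234 l390 (Fr a192 a149 l519 (V t581))))) (K a42 (M a48 (F (T t364 (L l390 (L l478 (T t50 (L l28 (L l234 (T t100 N))))))))) (K a106 (M a48 (F (T t1 (L l104 (T t509 (L l390 (L l478 (T t50 N)))))))) (K a170 (M a16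 (F (L l390 (L l404 (T t97 (L l90 (L l390 (T t98 (L l234 (L l404 (T t113 (L l229 (L l404 (T t174 N)))))))))))))) (K a255 (M a16 (F (T t112 (L l234 (L l289 (T t113 (L l90 (L l289 (L l296 (T t98 N)))))))))) N)))))))))))))))⟩
def e0_63__198_58 : Ent 4 := ⟨[a0, a63], [a198, a89], (M a48 (F (T t1 (T t2 (T t3 (T t0 (K a16 (M a60 (F (T t43 (T t64 (T t65 N))))) (K a32 (M a60 (F (T t67 (T t64 (L l24 (L l28 (T t65 N))))))) (K a21 (M a192 (F (T t837 (L l47 (L l234 (L l347 (L l371 (T t20 (L l47 (L l234 (L l347 (L l371 (T t29 N))))))))))))) (K a37 (M a192 (F (T t19 (L l47 (L l234 (L l371 (T t20 (L l371 (T t21 N))))))))) (K a53 (M a192 (F (T t19 (L l371 (L l491 (T t21 (L l132 (T t31 N)))))))) (K a26 (M a192 (F (T t27 (L l234 (L l371 (T t20 (L l371 (T t21 N)))))))) (K a42 (M a192 (F (T t19 (L l234 (L l371 (T t20 (L l28 (L l234 (L l371 (T t29 N)))))))))) (K a58 (M a192 (F (T t19 (L l371 (T t21 (L l54 (L l132 (L l498 (T t31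 N))))))))) (K a15 (M a192 (F (T t1922 (L l234 (L l325 (L l371 (T t20 (L l371 (L l469 (T t21 N)))))))))) N)))))))))))))))⟩
def e0_63__198_59 : Ent 4 := ⟨[a0, a63], [a198, a90], (M a12 (F (T t122 (T t151 (T t152 (T t153 (K a4 (M a60 (F (T t43 (L l480 (L l483 (T t398 (T t448 N))))))) (K a8 (M a60 (F (T t67 (L l480 (L l483 (T t398 (L l52 (L l56 (T t448 N))))))))) (K a21 (M a192 (F (T t1725 (L l15 (L l347 (L l375 (T t450 (L l15 (L l347 (L l375 (T t157 N))))))))))) (K a25 (M a192 (F (T t496 (L l15 (L l375 (T t450 (L l375 (T t21 N)))))))) (K a29 (M a192 (F (T t159 (L l371 (L l375 (T t21 (L l130 (T t160 N)))))))) (K a38 (M a192 (F (T t1725 (L l375 (T t450 (L l375 (T t21 N))))))) (K a42 (M a192 (F (T t159 (L l375 (T t450 (L l56 (L l375 (T t157 N)))))))) (K a46 (M a192 (F (T t159 (L l375 (T t21 (L l26 (L l130 (L l408 (T t160 N))))))))) (K a51 (M a192 (F (T t1725 (L l375 (L l415 (T t450 (L l375 (L l439 (T t21 N)))))))))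 N)))))))))))))))⟩
def e0_63__198_60 : Ent 4 := ⟨[a0, a63], [a198, a91], (M a85 (F (T t88 (T t52 (T t89 (T t90 (K a64 (M a240 (F (T t933 (L l93 (T t387 N))))) (K a192 (M a16 (F (T t96 (L l339 (L l373 (L l481 (T t97 (L l296 (T t98 N))))))))) (K a21 (M a48 (F (T t99 (T t50 (L l47 (L l234 (T t100 N))))))) (K a149 (M a16 (F (T t173 (L l373 (L l375 (L l481 (T t97 (L l93 (L l170 (T t102 N)))))))))) (K a213 (Fr a170 a255 l476 (Fr a42 a21 l68 (Fr a106 a234 l390 (Fr a192 a149 l519 (V t581))))) (K a42 (M a48 (F (T t364 (L l390 (T t50 (L l28 (L l234 (T t100 N)))))))) (K a106 (M a48 (F (T t99 (L l481 (T t1 (L l390 (T t50 N))))))) (K a170 (M a16 (F (L l390 (L l404 (T t112 (L l390 (T t98 (L l234 (L l404 (T t113 (L l229 (L l404 (T t174 N))))))))))))) (K a255 (M a16 (F (T t112 (L l234 (L l289 (T t113 (L l289 (L l296 (T t98 N))))))))) N)))))))))))))))⟩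
def e0_63__198_61 : Ent 4 := ⟨[a0, a63], [a198, a92], (M a85 (F (T t88 (T t52 (T t89 (T t90 (K a64 (M a240 (F (T t386 (L l89 (T t387 N))))) (K a192 (M a16 (F (T t96 (L l339 (T t97 (L l90 (L l296 (T t98 N)))))))) (K a21 (M a48 (F (T t99 (T t50 (L l47 (L l234 (T t100 N))))))) (K a149 (M a16 (F (T t173 (L l375 (T t97 (L l89 (L l170 (T t102 N)))))))) (K a213 (Fr a170 a255 l476 (Fr a42 a21 l68 (Fr a106 a234 l390 (Fr a192 a149 l519 (V t581))))) (K a42 (M a48 (F (T t364 (L l390 (T t50 (L l28 (L l234 (T t100 N)))))))) (K a106 (M a48 (F (T t1 (L l104 (T t509 (L l390 (T t50 N))))))) (K a170 (M a16 (F (L l390 (L l404 (T t97 (L l90 (L l390 (T t98 (L l234 (L l404 (T t113 (L l229 (L l404 (T t174 N)))))))))))))) (K a255 (M a16 (F (T t112 (L l234 (L l289 (T t113 (L l90 (L l289 (L l296 (T t98 N)))))))))) N)))))))))))))))⟩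
def e0_63__198_62 : Ent 4 := ⟨[a0, a63], [a198, a93], (M a85 (F (T t88 (L l138 (L l470 (T t52 (T t89 (T t90 (K a64 (M a240 (F (T t933 (L l89 (T t387 N))))) (K a192 (M a16 (F (T t112 (L l362 (T t96 (L l296 (L l362 (T t98 N)))))))) (K a21 (M a48 (F (T t873 (L l47 (L l138 (L l234 (L l362 (T t100 (L l138 (T t50 N)))))))))) (K a149 (M a16 (F (T t112 (L l362 (T t173 (L l89 (L l170 (T t102 N)))))))) (K a213 (Fr a170 a255 l476 (Fr a42 a21 l68 (Fr a106 a234 l390 (Fr a192 a149 l519 (V t581))))) (K a42 (M a48 (F (L l470 (T t364 (L l138 (L l390 (T t50 (L l28 (L l138 (L l234 (L l362 (T t100 N)))))))))))) (K a106 (M a48 (F (T t1 (L l104 (L l362 (T t509 (L l138 (L l390 (T t50 N))))))))) (K a170 (M a16 (F (L l390 (L l404 (T t97 (L l362 (L l390 (T t98 (L l138 (L l234 (L l362 (L l404 (T t113 (L l229 (L l362 (L l404 (T t174 N))))))))))))))))) (K a255 (M a12 (F (T t1252 (L l138 (L l265 (L l359 (T t574 (L l265 (L l296 (T t572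 (L l265 (L l296 (T t1923 N))))))))))))) N)))))))))))))))))⟩
def e0_63__198_63 : Ent 4 := ⟨[a0, a63], [a198, a94], (M a85 (F (T t88 (T t52 (T t89 (T t90 (K a64 (M a240 (F (T t933 (L l89 (T t387 N))))) (K a192 (M a16 (F (T t96 (L l339 (L l363 (L l471 (T t97 (L l296 (T t98 N))))))))) (K a21 (M a48 (F (T t99 (T t50 (L l47 (L l234 (T t100 N))))))) (K a149 (M a16 (F (T t173 (L l363 (L l375 (L l471 (T t97 (L l89 (L l170 (T t102 N)))))))))) (K a213 (Fr a170 a255 l476 (Fr a42 a21 l68 (Fr a106 a234 l390 (Fr a192 a149 l519 (V t581))))) (K a42 (M a48 (F (T t364 (L l390 (T t50 (L l28 (L l234 (T t100 N)))))))) (K a106 (M a48 (F (T t99 (L l471 (T t1 (L l390 (T t50 N))))))) (K a170 (M a16 (F (L l390 (L l404 (T t112 (L l390 (T t98 (L l234 (L l404 (T t113 (L l229 (L l404 (T t174 N))))))))))))) (K a255 (M a16 (F (T t112 (L l234 (L l289 (T t113 (L l289 (L l296 (T t98 N))))))))) N)))))))))))))))⟩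
def e0_63__198_64 : Ent 4 := ⟨[a0, a63], [a198, a95], (M a85 (F (T t88 (L l137 (L l469 (T t52 (T t89 (T t90 (K a64 (M a252 (F (T t93 (L l93 (T t92 N))))) (K a192 (M a16 (F (T t112 (T t1924 (L l296 (T t1925 N)))))) (K a21 (M a48 (F (T t873 (L l47 (L l137 (L l234 (L l361 (T t100 (L l137 (T t50 N)))))))))) (K a149 (M a48 (F (T t132 (L l220 (T t873 (L l137 (L l220 (T t50 N)))))))) (K a213 (Fr a170 a255 l476 (Fr a42 a21 l68 (Fr a106 a234 l390 (Fr a192 a149 l519 (V t581))))) (K a42 (M a48 (F (L l469 (T t364 (L l137 (L l390 (T t50 (L l28 (L l137 (L l234 (L l361 (T t100 N)))))))))))) (K a106 (M a48 (F (T t48 (L l104 (L l361 (T t509 (L l137 (L l390 (T t50 N))))))))) (K a170 (M a48 (F (T t607 (L l137 (L l234 (L l361 (L l404 (T t100 (L l229 (L l390 (T t51 (L l361 (L l390 (L l404 (T t568 N))))))))))))))) (K a255 (M a15 (F (T t1254 (L l137 (L l266 (L l361 (T t1497 (L l266 (L l296 (T t1484 (L l266 (L l296 (T t1926 N)))))))))))))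 N)))))))))))))))))⟩
def e0_63__198_65 : Ent 4 := ⟨[a0, a63], [a198, a96], (M a12 (F (T t122 (T t151 (T t152 (T t153 (K a4 (M a60 (F (T t43 (T t398 (T t448 N))))) (K a8 (M a60 (F (T t67 (T t398 (L l52 (L l56 (T t448 N))))))) (K a21 (M a192 (F (L l347 (T t467 (L l237 (T t156 (L l15 (L l347 (T t157 N))))))))) (K a25 (M a192 (F (T t467 (L l237 (T t156 (T t21 N)))))) (K a29 (M a192 (F (T t496 (L l371 (T t21 (L l104 (T t160 N))))))) (K a38 (M a192 (F (T t450 (L l237 (T t156 (T t21 N)))))) (K a42 (M a192 (F (T t450 (L l237 (T t156 (L l56 (T t157 N))))))) (K a46 (M a192 (F (T t21 (L l237 (T t156 (L l26 (L l104 (L l408 (T t160 N))))))))) (K a51 (M a192 (F (T t576 (L l237 (L l513 (T t156 (L l439 (T t21 N)))))))) N)))))))))))))))⟩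
def e0_63__198_66 : Ent 4 := ⟨[a0, a63], [a198, a97], (M a85 (F (T t88 (T t52 (T t89 (T t90 (K a64 (M a16 (F (L l380 (T t97 (L l84 (T t666 (L l116 (T t98 N)))))))) (K a192 (M a16 (F (L l380 (T t112 (L l296 (T t666 (L l296 (T t98 N)))))))) (K a21 (M a48 (F (T t873 (L l47 (L l234 (L l380 (T t100 (T t50 N)))))))) (K a149 (M a16 (F (T t666 (L l375 (L l380 (T t97 (L l170 (T t102 N)))))))) (K a213 (Fr a170 a255 l476 (Fr a42 a21 l68 (Fr a106 a234 l390 (Fr a192 a149 l519 (V t581))))) (K a42 (M a48 (F (T t364 (L l390 (T t50 (L l28 (L l234 (L l380 (T t100 N))))))))) (K a106 (M a48 (F (T t364 (T t1 (L l390 (T t50 N)))))) (K a170 (M a16 (F (L l390 (T t98 (L l234 (L l380 (L l404 (T t113 (L l380 (L l390 (L l404 (T t97 (L l229 (L l380 (L l404 (T t174 N)))))))))))))))) (K a255 (M a16 (F (L l380 (T t112 (L l289 (L l296 (T t98 (L l234 (L l289 (L l380 (T t113 N))))))))))) N)))))))))))))))⟩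
def e0_63__198_67 : Ent 4 := ⟨[a0, a63], [a198, a98], (M a48 (F (T t1 (T t2 (T t3 (T t0 (K a16 (M a60 (F (T t43 (L l486 (L l489 (T t64 (T t65 N))))))) (K a32 (M a60 (F (T t67 (L l486 (L l489 (T t64 (L l24 (L l28 (T t65 N))))))))) (K a21 (M a192 (F (T t27 (L l47 (L l234 (L l347 (T t20 (L l47 (L l234 (L l347 (T t29 N))))))))))) (K a37 (M a192 (F (T t27 (L l47 (L l234 (T t20 (T t21 N))))))) (K a53 (M a192 (F (T t27 (L l491 (T t21 (L l96 (L l102 (T t31 N)))))))) (K a26 (M a192 (F (T t27 (L l234 (T t20 (T t21 N)))))) (K a42 (M a192 (F (T t27 (L l234 (T t20 (L l28 (L l234 (T t29 N)))))))) (K a58 (M a192 (F (T t27 (T t21 (L l54 (L l96 (L l102 (L l498 (T t31 N))))))))) (K a15 (M a192 (F (T t47 (L l483 (T t27 (L l234 (L l325 (T t20 N)))))))) N)))))))))))))))⟩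
def e0_63__198_68 : Ent 4 := ⟨[a0, a63], [a198, a99], (M a85 (F (T t88 (T t52 (T t89 (T t90 (K a64 (M a16 (F (T t97 (L l84 (T t96 (L l116 (T t98 N))))))) (K a192 (M a16 (F (T t96 (L l339 (T t97 (L l296 (T t98 N))))))) (K a21 (M a48 (F (T t99 (T t50 (L l47 (L l234 (T t100 N))))))) (K a149 (M a16 (F (T t173 (L l375 (T t97 (L l103 (L l170 (T t102 N)))))))) (K a213 (Fr a170 a255 l476 (Fr a42 a21 l68 (Fr a106 a234 l390 (Fr a192 a149 l519 (V t581))))) (K a42 (M a48 (F (T t364 (L l390 (T t50 (L l28 (L l234 (T t100 N)))))))) (K a106 (M a48 (F (T t1 (L l104 (T t509 (L l390 (T t50 N))))))) (K a170 (M a16 (F (L l390 (L l404 (T t97 (L l390 (T t98 (L l234 (L l404 (T t113 (L l229 (L l404 (T t174 N))))))))))))) (K a255 (M a16 (F (T t112 (L l234 (L l289 (T t113 (L l289 (L l296 (T t98 N))))))))) N)))))))))))))))⟩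
def e0_63__198_69 : Ent 4 := ⟨[a0, a63], [a198, a100], (M a85 (F (T t88 (T t52 (T t89 (T t90 (K a64 (M a252 (F (T t91 (L l400 (T t92 N))))) (K a192 (M a16 (F (L l400 (T t112 (L l296 (T t666 (L l296 (T t98 N)))))))) (K a21 (M a48 (F (T t873 (L l47 (L l234 (L l400 (T t100 (T t50 N)))))))) (K a149 (M a16 (F (T t666 (L l375 (L l400 (T t97 (L l170 (T t102 N)))))))) (K a213 (Fr a170 a255 l476 (Fr a42 a21 l68 (Fr a106 a234 l390 (Fr a192 a149 l519 (V t581))))) (K a42 (M a48 (F (T t364 (L l390 (T t50 (L l28 (L l234 (L l400 (T t100 N))))))))) (K a106 (M a48 (F (T t364 (T t1 (L l390 (T t50 N)))))) (K a170 (M a16 (F (L l390 (T t98 (L l234 (L l400 (L l404 (T t113 (L l390 (L l400 (L l404 (T t97 (L l229 (L l400 (L l404 (T t174 N)))))))))))))))) (K a255 (M a16 (F (L l400 (T t112 (L l289 (L l296 (T t98 (L l234 (L l289 (L l400 (T t113 N))))))))))) N)))))))))))))))⟩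
def e0_63__198_70 : Ent 4 := ⟨[a0, a63], [a198, a101], (M a12 (F (T t122 (T t151 (T t152 (T t153 (K a4 (M a60 (F (T t43 (T t398 (T t448 N))))) (K a8 (M a60 (F (T t67 (T t398 (L l52 (L l56 (T t448 N))))))) (K a21 (M a192 (F (T t1725 (L l15 (L l347 (L l491 (T t450 (L l15 (L l347 (L l491 (T t157 N))))))))))) (K a25 (M a192 (F (T t496 (L l15 (L l491 (T t450 (L l491 (T t21 N)))))))) (K a29 (M a192 (F (T t159 (L l371 (L l491 (T t21 (L l104 (T t160 N)))))))) (K a38 (M a192 (F (T t1725 (L l491 (T t450 (L l491 (T t21 N))))))) (K a42 (M a192 (F (T t159 (L l491 (T t450 (L l56 (L l491 (T t157 N)))))))) (K a46 (M a192 (F (T t159 (L l491 (T t21 (L l26 (L l104 (L l408 (T t160 N))))))))) (K a51 (M a192 (F (T t1725 (L l415 (L l491 (T t450 (L l439 (L l491 (T t21 N))))))))) N)))))))))))))))⟩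
def e0_63__198_71 : Ent 4 := ⟨[a0, a63], [a198, a102], (M a60 (L l492 (F (T t67 (T t43 (T t68 (T t69 (K a20 (M a54 (F (L l46 (T t5462 (L l11 (T t3771 (L l11 (L l312 (L l402 (T t5463 N)))))))))) (K a40 (M a54 (F (T t5462 (L l22 (L l402 (T t5464 (L l312 (L l402 (T t5463 N))))))))) (K a21 (M a150 (F (T t1135 (L l65 (L l234 (T t1136 (L l65 (L l234 (T t1137 N))))))))) (K a41 (M a150 (F (L l237 (T t2366 (L l65 (L l234 (T t1136 (L l22 (L l65 (L l234 (T t1137 N))))))))))) (K a61 (M a192 (L l492 (F (T t72 (L l65 (L l495 (L l515 (T t35 (L l102 (T t80 (K a150 (M a54 (F (T t72 (L l35 (L l59 (L l402 (T t5464 N))))))) (K a54 (M a150 (F (T t3528 (L l402 (T t1434 N))))) N)))))))))))) (K a22 (M a150 (F (T t1135 (L l234 (T t1136 (L l234 (T t1137 N))))))) (K a42 (M a150 (F (L l237 (T t2366 (L l234 (T t1136 (L l22 (L l234 (T t1137 N))))))))) (K a62 (M a106 (L l492 (F (T t305 (L l495 (T t565 (T t566 (K a150 (M a54 (F (T t778 (L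 l60 (T t3771 (L l163 (L l221 (L l495 (T t565 N))))))))) (K a54 (M a150 (L l36 (F (T t3530 (L l237 (T t2366 (L l495 (T t393 (K a50 (M a58 (L l510 (F (T t3530 (L l31 (T t1422 (K a154 (M a206 (F (T t3530 (L l31 (T t1422 N))))) (K a206 (Fr a154 a202 l498 (M a194 (L l504 (F (L l236 (T t3530 (L l31 (L l318 (T t1422 (K a158 (M a110 (F (L l495 (T t3531 (L l236 (T t5465 (L l105 (T t1620 N)))))))) (K a110 (Fr a158 a146 l168 (V t3531)) N))))))))))) N)))))))) (K a58 (M a50 (F (T t3530 (L l402 (L l432 (T t1434 (T t305 N))))))) N)))))))))) N))))))))) (K a3 (M a150 (F (L l475 (T t1135 (L l234 (L l309 (T t1136 (L l234 (T t1137 N))))))))) (K a150 (M a54 (F (T t43 (L l494 (L l510 (T t5466 (L l402 (T t5464 N)))))))) (K a54 (M a150 (F (T t67 (T t1135 (L l234 (T t1136 N)))))) N))))))))))))))))))⟩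
def e0_63__198_72 : Ent 4 := ⟨[a0, a63], [a198, a103], (M a85 (F (T t88 (T t52 (T t89 (T t90 (K a64 (M a204 (F (T t1744 (L l125 (L l229 (T t1576 N)))))) (K a192 (M a16 (F (T t260 (L l339 (T t97 (L l296 (T t98 N))))))) (K a21 (M a48 (F (T t99 (T t50 (L l47 (L l234 (T t100 N))))))) (K a149 (M a16 (F (T t112 (L l511 (T t173 (L l103 (L l170 (T t102 N)))))))) (K a213 (Fr a170 a255 l476 (Fr a42 a21 l68 (Fr a106 a234 l390 (Fr a192 a149 l519 (V t581))))) (K a42 (M a48 (F (L l28 (T t99 (L l390 (T t50 (L l28 (L l234 (T t100 N))))))))) (K a106 (M a48 (F (T t1 (L l97 (L l104 (T t509 (L l390 (T t50 N)))))))) (K a170 (M a16 (F (L l390 (L l404 (T t97 (L l390 (T t98 (L l234 (L l404 (T t113 (L l229 (L l404 (L l511 (T t174 N)))))))))))))) (K a255 (M a16 (F (T t112 (L l234 (L l289 (T t113 (L l289 (L l296 (T t98 N))))))))) N)))))))))))))))⟩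
def e0_63__198_73 : Ent 4 := ⟨[a0, a63], [a198, a104], (M a48 (F (T t1 (T t2 (T t3 (T t0 (K a16 (M a60 (F (T t64 (L l14 (L l18 (T t67 (L l388 (T t65 N)))))))) (K a32 (M a60 (F (T t64 (T t67 (L l24 (L l28 (L l388 (T t65 N)))))))) (K a21 (M a192 (F (T t27 (L l47 (L l234 (L l347 (T t20 (L l47 (L l234 (L l347 (T t29 N))))))))))) (K a37 (M a192 (F (T t27 (L l47 (L l234 (T t20 (T t21 N))))))) (K a53 (M a192 (F (T t27 (L l491 (T t21 (L l98 (L l100 (T t31 N)))))))) (K a26 (M a192 (F (T t27 (L l234 (T t20 (T t21 N)))))) (K a42 (M a192 (F (T t27 (L l234 (T t20 (L l28 (L l234 (T t29 N)))))))) (K a58 (M a192 (F (T t27 (T t21 (L l54 (L l98 (L l100 (L l498 (T t31 N))))))))) (K a15 (M a192 (F (T t47 (L l483 (T t27 (L l234 (L l325 (T t20 N)))))))) N)))))))))))))))⟩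
def e0_63__198_74 : Ent 4 := ⟨[a0, a63], [a198, a105], (M a48 (F (T t1 (T t2 (T t3 (T t0 (K a16 (M a60 (F (T t42 (L l14 (L l18 (T t67 (L l392 (T t65 N)))))))) (K a32 (M a60 (F (T t67 (L l515 (T t64 (L l24 (L l28 (L l392 (T t65 N))))))))) (K a21 (M a192 (F (T t837 (L l47 (L l234 (L l347 (L l515 (T t20 (L l47 (L l234 (L l347 (L l515 (T t29 N))))))))))))) (K a37 (M a192 (F (T t19 (L l47 (L l234 (L l515 (T t20 (L l515 (T t21 N))))))))) (K a53 (M a192 (F (T t19 (L l491 (L l515 (T t21 (L l98 (T t31 N)))))))) (K a26 (M a192 (F (T t27 (L l234 (L l515 (T t20 (L l515 (T t21 N)))))))) (K a42 (M a192 (F (T t19 (L l234 (L l515 (T t20 (L l28 (L l234 (L l515 (T t29 N)))))))))) (K a58 (M a192 (F (T t19 (L l515 (T t21 (L l54 (L l98 (L l498 (T t31 N))))))))) (K a15 (M a192 (F (T t1922 (L l234 (L l325 (L l515 (T t20 (L l469 (L l515 (T t21 N)))))))))) N)))))))))))))))⟩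
def e0_63__198_75 : Ent 4 := ⟨[a0, a63], [a198, a106], (M a12 (F (T t122 (L l390 (L l408 (T t151 (L l501 (T t152 (L l390 (T t153 (K a4 (M a60 (F (T t398 (L l46 (L l50 (L l393 (T t67 (L l390 (L l408 (T t448 N)))))))))) (K a8 (M a60 (F (T t398 (L l393 (T t67 (L l52 (L l56 (L l390 (L l408 (T t448 N)))))))))) (K a21 (M a255 (F (L l237 (T t2486 (L l390 (T t2137 (L l50 (L l144 (L l347 (L l408 (T t2487 N))))))))))) (K a25 (M a48 (F (T t550 (L l15 (T t1 (L l12 (L l56 (L l390 (L l498 (T t866 N)))))))))) (K a29 (M a48 (F (T t550 (L l15 (T t1 (L l390 (L l498 (T t866 N)))))))) (K a38 (M a48 (F (T t1580 (L l26 (L l390 (L l498 (T t2 (L l21 (L l50 (T t868 N)))))))))) (K a42 (M a170 (F (T t2497 (L l144 (L l237 (T t2498 (L l26 (L l132 (L l144 (L l408 (T t2499 (L l26 (L l408 (T t2500 N)))))))))))))) (K a46 (M a48 (L l408 (F (T t443 (T t1 (L l26 (L l390 (L l498 (T t866 (K a226 (M a166 (F (T t1 (L l132 (L l396 (T t2624 N))))))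 (K a166 (M a226 (F (T t1 (T t1580 (L l26 (L l390 (L l498 (T t866 N)))))))) N))))))))))) (K a51 (M a16 (F (T t2517 (L l73 (L l390 (T t97 (L l390 (L l408 (T t872 N))))))))) N)))))))))))))))))))⟩
def e0_63__198_76 : Ent 4 := ⟨[a0, a63], [a198, a107], (M a149 (F (T t5 (T t175 (T t176 (L l98 (T t177 (K a192 (M a53 (F (T t178 (L l229 (L l236 (T t179 (L l229 (L l236 (L l296 (T t180 N)))))))))) (K a21 (M a48 (F (L l229 (T t4 (L l98 (T t13 (L l18 (L l229 (T t14 N))))))))) (K a85 (M a16 (F (T t97 (L l98 (L l144 (T t190 (L l94 (T t278 N)))))))) (K a213 (Fr a106 a192 l519 (Fr a42 a21 l68 (Fr a170 a234 l390 (Fr a255 a85 l476 (V t582))))) (K a42 (M a48 (F (L l234 (T t187 (L l98 (L l390 (T t13 (L l54 (L l229 (T t14 N)))))))))) (K a106 (M a105 (F (L l390 (T t1931 (L l391 (L l516 (T t1932 (L l390 (L l391 (L l492 (L l516 (T t1933 (L l390 (L l516 (T t1934 (L l237 (L l516 (T t1935 N)))))))))))))))))) (K a170 (M a48 (F (L l229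 (T t4 (L l462 (T t1 (L l98 (L l390 (T t13 N))))))))) (K a191 (M a16 (F (T t97 (L l98 (T t190 (L l213 (T t191 N))))))) (K a255 (M a16 (F (T t112 (L l98 (L l266 (T t190 (L l289 (L l296 (T t191 N))))))))) N))))))))))))))))⟩
def e0_63__198_77 : Ent 4 := ⟨[a0, a63], [a198, a108], (M a85 (F (T t88 (T t52 (T t89 (T t90 (K a64 (M a16 (F (T t97 (L l84 (T t96 (L l116 (T t98 N))))))) (K a192 (M a16 (F (T t96 (L l339 (T t97 (L l296 (T t98 N))))))) (K a21 (M a48 (F (T t99 (T t50 (L l47 (L l234 (T t100 N))))))) (K a149 (M a16 (F (T t173 (L l375 (T t97 (L l99 (L l170 (T t102 N)))))))) (K a213 (Fr a170 a255 l476 (Fr a42 a21 l68 (Fr a106 a234 l390 (Fr a192 a149 l519 (V t581))))) (K a42 (M a48 (F (T t364 (L l390 (T t50 (L l28 (L l234 (T t100 N)))))))) (K a106 (M a48 (F (T t1 (L l104 (T t509 (L l390 (T t50 N))))))) (K a170 (M a16 (F (L l390 (L l404 (T t97 (L l390 (T t98 (L l234 (L l404 (T t113 (L l229 (L l404 (T t174 N)))))))))))))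 (K a255 (M a16 (F (T t112 (L l234 (L l289 (T t113 (L l289 (L l296 (T t98 N))))))))) N)))))))))))))))⟩
def e0_63__198_78 : Ent 4 := ⟨[a0, a63], [a198, a109], (M a149 (F (T t5 (T t175 (T t176 (T t177 (K a192 (M a53 (F (T t178 (L l229 (L l236 (L l398 (T t179 (L l229 (L l236 (L l296 (T t180 N))))))))))) (K a21 (M a48 (F (T t1267 (L l18 (L l229 (L l398 (T t14 (T t13 N)))))))) (K a85 (M a16 (F (T t97 (L l144 (T t190 (L l94 (T t278 N))))))) (K a213 (Fr a106 a192 l519 (Fr a42 a21 l68 (Fr a170 a234 l390 (Fr a255 a85 l476 (V t582))))) (K a42 (M a48 (F (L l234 (T t11 (L l390 (T t13 (L l54 (L l229 (L l398 (T t14 N)))))))))) (K a106 (M a48 (F (T t1 (L l229 (L l398 (L l498 (T t14 (L l229 (L l390 (L l498 (T t6 (L l390 (T t26 N))))))))))))) (K a170 (M a48 (F (T t3 (L l234 (T t11 (L l390 (T t13 N))))))) (K a191 (M a204 (F (T t1283 (L l99 (T t1112 N))))) (K a255 (M a16 (F (T t112 (L l266 (T t190 (L l289 (L l296 (T t191 N))))))))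 N)))))))))))))))⟩
def e0_63__198_79 : Ent 4 := ⟨[a0, a63], [a198, a110], (M a149 (F (T t5 (T t175 (T t176 (L l102 (T t177 (K a192 (M a53 (F (T t178 (L l229 (L l236 (T t179 (L l229 (L l236 (L l296 (T t180 N)))))))))) (K a21 (M a48 (F (L l229 (T t4 (L l102 (T t13 (L l18 (L l229 (T t14 N))))))))) (K a85 (M a16 (F (T t97 (L l102 (L l144 (T t190 (L l94 (T t278 N)))))))) (K a213 (Fr a106 a192 l519 (Fr a42 a21 l68 (Fr a170 a234 l390 (Fr a255 a85 l476 (V t582))))) (K a42 (M a48 (F (L l234 (T t187 (L l102 (L l390 (T t13 (L l54 (L l229 (T t14 N)))))))))) (K a106 (M a102 (F (L l229 (L l390 (T t1202 (L l229 (L l396 (L l501 (T t1203 (L l390 (L l501 (T t1204 (L l229 (L l390 (L l501 (T t1205 (L l229 (L l237 (L l501 (T t1206 N)))))))))))))))))))) (K a170 (M a48 (F (L l229 (T t4 (L l462 (T t1 (L l102 (L l390 (T t13 N))))))))) (K a191 (M a16 (F (T t97 (L l102 (T t190 (L l213 (T t191 N))))))) (K a255 (M a16 (F (T t112 (L l102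 (L l266 (T t190 (L l289 (L l296 (T t191 N))))))))) N))))))))))))))))⟩
def e0_63__198_80 : Ent 4 := ⟨[a0, a63], [a198, a111], (M a149 (F (T t5 (T t175 (T t176 (L l104 (T t177 (K a192 (M a53 (F (T t178 (L l229 (L l236 (L l296 (T t180 (L l229 (L l236 (L l397 (T t179 N))))))))))) (K a21 (M a240 (F (T t1090 (L l104 (T t1091 (L l397 (T t1207 N))))))) (K a85 (M a48 (F (T t1 (L l229 (T t184 (L l104 (L l144 (T t13 N)))))))) (K a213 (Fr a106 a192 l519 (Fr a42 a21 l68 (Fr a170 a234 l390 (Fr a255 a85 l476 (V t582))))) (K a42 (M a240 (F (T t1090 (L l104 (L l390 (T t1091 (L l397 (T t1207 N)))))))) (K a106 (M a101 (F (L l229 (L l397 (L l498 (T t1209 (L l229 (L l390 (T t1208 (L l390 (L l397 (L l498 (T t1210 (L l229 (L l390 (L l498 (T t1211 (L l229 (L l498 (T t1212 N)))))))))))))))))))) (K a170 (M a48 (F (L l462 (T t1 (L l229 (T t184 (L l104 (L l390 (T t13 N))))))))) (K a191 (M a16 (F (T t97 (L l213 (L l229 (T t1213 (L l213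 (T t191 N)))))))) (K a255 (M a16 (F (T t112 (L l229 (L l289 (T t1213 (L l289 (L l296 (T t191 N))))))))) N))))))))))))))))⟩
def e0_63__198_81 : Ent 4 := ⟨[a0, a63], [a198, a112], (M a149 (F (T t25 (T t175 (T t176 (L l116 (T t177 (K a192 (M a53 (F (T t178 (L l229 (L l236 (T t179 (L l229 (L l236 (L l296 (T t180 N)))))))))) (K a21 (M a240 (F (T t1937 (L l116 (T t962 (L l114 (L l116 (T t1207 N)))))))) (K a85 (M a16 (F (T t97 (L l116 (L l144 (L l412 (T t190 (L l94 (L l151 (T t278 N)))))))))) (K a213 (Fr a106 a192 l519 (Fr a42 a21 l68 (Fr a170 a234 l390 (Fr a255 a85 l476 (V t582))))) (K a42 (M a240 (F (T t1937 (L l28 (L l116 (L l390 (T t962 (L l114 (L l116 (T t1207 N)))))))))) (K a106 (M a48 (F (T t1 (L l229 (L l498 (T t14 (L l114 (L l229 (L l390 (L l498 (T t6 (L l390 (T t26 N))))))))))))) (K a170 (M a48 (F (T t3 (L l234 (T t11 (L l116 (L l390 (L l404 (T t1938 N))))))))) (K a191 (M a16 (F (T t97 (L l116 (L l412 (T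 t190 (L l116 (L l213 (T t191 N))))))))) (K a255 (M a16 (F (T t112 (L l116 (L l266 (L l412 (T t190 (L l116 (L l289 (L l296 (T t191 N))))))))))) N))))))))))))))))⟩
def e0_63__198_82 : Ent 4 := ⟨[a0, a63], [a198, a113], (M a85 (F (T t88 (T t52 (T t89 (T t90 (K a64 (M a16 (F (T t97 (L l84 (L l147 (T t96 (L l116 (T t98 N)))))))) (K a192 (M a16 (F (T t112 (L l147 (T t96 (L l296 (T t98 N))))))) (K a21 (M a48 (F (T t99 (L l111 (T t50 (L l47 (L l234 (T t100 N)))))))) (K a149 (M a16 (F (T t173 (L l375 (T t97 (L l170 (T t102 N))))))) (K a213 (Fr a170 a255 l476 (Fr a42 a21 l68 (Fr a106 a234 l390 (Fr a192 a149 l519 (V t581))))) (K a42 (M a48 (F (T t365 (L l111 (L l390 (T t50 (L l28 (L l234 (T t100 N))))))))) (K a106 (M a48 (F (T t1 (L l104 (L l147 (T t509 (L l111 (L l390 (T t50 N))))))))) (K a170 (M a16 (F (L l390 (L l404 (T t97 (L l390 (T t98 (L l234 (L l404 (T t113 (L l229 (L l404 (T t174 N))))))))))))) (K a255 (M a16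 (F (T t112 (L l234 (L l289 (T t113 (L l289 (L l296 (T t98 N))))))))) N)))))))))))))))⟩
def e0_63__198_83 : Ent 4 := ⟨[a0, a63], [a198, a114], (M a149 (F (T t5 (T t175 (T t176 (T t177 (K a192 (M a53 (F (T t178 (L l229 (L l236 (T t179 (L l229 (L l236 (L l296 (T t180 N)))))))))) (K a21 (M a48 (F (T t7 (L l18 (L l229 (T t14 (L l106 (L l417 (T t13 N))))))))) (K a85 (M a16 (F (T t97 (L l144 (L l417 (T t190 (L l94 (L l148 (T t278 N))))))))) (K a213 (Fr a106 a192 l519 (Fr a42 a21 l68 (Fr a170 a234 l390 (Fr a255 a85 l476 (V t582))))) (K a42 (M a48 (F (L l234 (T t187 (L l106 (L l390 (L l417 (T t13 (L l54 (L l229 (T t14 N))))))))))) (K a106 (M a48 (F (T t1 (L l229 (L l498 (T t14 (L l229 (L l390 (L l498 (T t6 (L l390 (T t26 N)))))))))))) (K a170 (M a48 (F (T t3 (L l234 (T t11 (L l106 (L l390 (L l417 (T t13 N))))))))) (K a191 (M a252 (F (T t1850 (L l112 (T t941 N))))) (K a255 (M a16 (F (T t112 (L l266 (L l417 (T t190 (L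 l289 (L l296 (T t191 N))))))))) N)))))))))))))))⟩
def e0_63__198_84 : Ent 4 := ⟨[a0, a63], [a198, a115], (M a149 (F (T t25 (T t175 (T t176 (L l120 (T t177 (K a192 (M a53 (F (T t178 (L l229 (L l236 (T t179 (L l229 (L l236 (L l296 (T t180 N)))))))))) (K a21 (M a48 (F (T t7 (L l18 (L l229 (T t14 (L l106 (T t13 N)))))))) (K a85 (M a16 (F (T t97 (L l144 (T t190 (L l94 (T t278 N))))))) (K a213 (Fr a106 a192 l519 (Fr a42 a21 l68 (Fr a170 a234 l390 (Fr a255 a85 l476 (V t582))))) (K a42 (M a48 (F (L l234 (T t187 (L l106 (L l390 (T t13 (L l54 (L l229 (T t14 N)))))))))) (K a106 (M a48 (F (T t1 (L l229 (L l498 (T t14 (L l229 (L l390 (L l498 (T t6 (L l390 (T t26 N)))))))))))) (K a170 (M a48 (F (T t3 (L l234 (T t11 (L l106 (L l390 (T t13 N)))))))) (K a191 (M a16 (F (T t97 (T t190 (L l213 (T t191 N)))))) (K a255 (M a16 (F (T t112 (L l266 (T t190 (L l289 (L l296 (T t191 N)))))))) N))))))))))))))))⟩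
def e0_63__198_85 : Ent 4 := ⟨[a0, a63], [a198, a116], (M a85 (F (T t88 (T t52 (T t89 (T t90 (K a64 (M a204 (F (T t1744 (L l107 (L l229 (T t1576 N)))))) (K a192 (M a16 (F (T t112 (L l127 (T t96 (L l296 (T t98 N))))))) (K a21 (M a48 (F (T t99 (L l107 (T t50 (L l47 (L l234 (T t100 N)))))))) (K a149 (M a16 (F (T t173 (L l375 (T t97 (L l170 (T t102 N))))))) (K a213 (Fr a170 a255 l476 (Fr a42 a21 l68 (Fr a106 a234 l390 (Fr a192 a149 l519 (V t581))))) (K a42 (M a48 (F (T t365 (L l107 (L l390 (T t50 (L l28 (L l234 (T t100 N))))))))) (K a106 (M a48 (F (T t1 (L l104 (L l127 (T t509 (L l107 (L l390 (T t50 N))))))))) (K a170 (M a16 (F (L l390 (L l404 (T t97 (L l390 (T t98 (L l234 (L l404 (T t113 (L l229 (L l404 (T t174 N))))))))))))) (K a255 (M a16 (F (T t112 (L l234 (L l289 (T t113 (L l289 (L l296 (T t98 N))))))))) N)))))))))))))))⟩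
def e0_63__198_86 : Ent 4 := ⟨[a0, a63], [a198, a117], (M a85 (F (T t88 (L l114 (L l440 (T t52 (T t89 (T t90 (K a64 (M a204 (F (T t1575 (L l107 (L l229 (T t1576 N)))))) (K a192 (M a16 (F (T t96 (L l339 (T t97 (L l296 (T t98 N))))))) (K a21 (M a12 (F (T t1370 (L l15 (L l114 (L l422 (T t574 (L l114 (L l237 (T t124 N)))))))))) (K a149 (M a16 (F (T t112 (L l491 (T t96 (L l170 (T t102 N))))))) (K a213 (Fr a170 a255 l476 (Fr a42 a21 l68 (Fr a106 a234 l390 (Fr a192 a149 l519 (V t581))))) (K a42 (M a12 (F (L l440 (T t1373 (L l114 (L l237 (L l390 (T t124 (L l56 (L l114 (L l422 (T t574 N)))))))))))) (K a106 (M a12 (F (T t122 (L l132 (L l422 (T t123 (L l114 (L l237 (L l390 (T t124 N)))))))))) (K a170 (M a16 (F (L l390 (L l404 (T t97 (L l390 (T t98 (L l114 (L l234 (L l404 (L l419 (T t113 (L l229 (L l404 (T t174 N))))))))))))))) (K a255 (M a48 (F (T t132 (L l114 (L l234 (L l289 (L l419 (T t100 (L l289 (L l296 (T t568 (L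 l229 (L l289 (L l296 (T t1579 N))))))))))))))) N)))))))))))))))))⟩
def e0_63__198_87 : Ent 4 := ⟨[a0, a63], [a198, a118], (M a85 (F (T t88 (T t52 (T t89 (T t90 (K a64 (M a204 (F (T t1744 (L l107 (L l229 (T t1576 N)))))) (K a192 (M a16 (F (T t96 (L l339 (T t97 (L l296 (T t98 N))))))) (K a21 (M a48 (F (T t1699 (L l47 (L l234 (T t100 (L l107 (T t50 N)))))))) (K a149 (M a16 (F (T t173 (L l375 (T t97 (L l170 (T t102 N))))))) (K a213 (Fr a170 a255 l476 (Fr a42 a21 l68 (Fr a106 a234 l390 (Fr a192 a149 l519 (V t581))))) (K a42 (M a48 (F (T t365 (L l107 (L l390 (T t50 (L l28 (L l234 (T t100 N))))))))) (K a106 (M a48 (F (T t1699 (T t1 (L l107 (L l390 (T t50 N))))))) (K a170 (M a16 (F (L l390 (L l404 (T t97 (L l390 (T t98 (L l234 (L l404 (T t113 (L l229 (L l404 (T t174 N))))))))))))) (K a255 (M a16 (F (T t112 (L l234 (L l289 (T t113 (L l289 (L l296 (T t98 N))))))))) N)))))))))))))))⟩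
def e0_63__198_88 : Ent 4 := ⟨[a0, a63], [a198, a119], (M a85 (F (T t88 (L l113 (L l439 (T t52 (T t89 (T t90 (K a64 (M a252 (F (T t93 (L l125 (T t92 N))))) (K a192 (M a16 (F (T t96 (L l339 (T t97 (L l296 (T t98 N))))))) (K a21 (M a48 (F (T t1699 (L l47 (L l113 (L l234 (T t100 (L l107 (L l113 (T t50 N)))))))))) (K a149 (M a16 (F (T t173 (L l375 (T t97 (L l170 (T t102 N))))))) (K a213 (Fr a170 a255 l476 (Fr a42 a21 l68 (Fr a106 a234 l390 (Fr a192 a149 l519 (V t581))))) (K a42 (M a48 (F (L l28 (T t1699 (L l107 (L l113 (L l390 (T t50 (L l28 (L l113 (L l234 (T t100 N)))))))))))) (K a106 (M a48 (F (T t1 (L l104 (T t509 (L l107 (L l113 (L l390 (T t50 N))))))))) (K a170 (M a16 (F (L l390 (L l404 (T t97 (L l390 (T t98 (L l113 (L l234 (L l404 (T t113 (L l229 (L l404 (T t174 N)))))))))))))) (K a255 (M a51 (F (T t1355 (L l113 (L l290 (L l421 (T t945 (L l290 (L l296 (T t1952 (L l229 (L l237 (L l290 (L l296 (T t1953 N)))))))))))))))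 N)))))))))))))))))⟩
def e0_63__198_89 : Ent 4 := ⟨[a0, a63], [a198, a120], (M a85 (F (T t88 (T t52 (T t89 (T t90 (K a64 (M a16 (F (T t97 (L l84 (T t96 (L l116 (T t98 N))))))) (K a192 (M a16 (F (T t96 (L l339 (T t97 (L l296 (T t98 N))))))) (K a21 (M a48 (F (T t99 (L l442 (T t50 (L l47 (L l234 (T t100 N)))))))) (K a149 (M a16 (F (T t173 (L l375 (T t97 (L l170 (T t102 N))))))) (K a213 (Fr a170 a255 l476 (Fr a42 a21 l68 (Fr a106 a234 l390 (Fr a192 a149 l519 (V t581))))) (K a42 (M a48 (F (T t364 (L l390 (L l442 (T t50 (L l28 (L l234 (T t100 N))))))))) (K a106 (M a48 (F (T t1 (L l104 (T t509 (L l390 (L l442 (T t50 N)))))))) (K a170 (M a16 (F (L l390 (L l404 (T t97 (L l390 (T t98 (L l234 (L l404 (T t113 (L l229 (L l404 (T t174 N))))))))))))) (K a255 (M a16 (F (T t112 (L l234 (L l289 (T t113 (L l289 (L l296 (T t98 N))))))))) N)))))))))))))))⟩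
def e0_63__198_90 : Ent 4 := ⟨[a0, a63], [a198, a121], (M a149 (F (T t5 (T t175 (T t176 (T t177 (K a192 (M a53 (F (T t178 (L l229 (L l236 (T t179 (L l229 (L l236 (L l296 (L l443 (T t180 N))))))))))) (K a21 (M a48 (F (T t7 (L l18 (L l229 (T t14 (T t13 N))))))) (K a85 (M a16 (F (T t97 (L l144 (T t190 (L l94 (T t278 N))))))) (K a213 (Fr a106 a192 l519 (Fr a42 a21 l68 (Fr a170 a234 l390 (Fr a255 a85 l476 (V t582))))) (K a42 (M a48 (F (L l234 (T t11 (L l390 (T t13 (L l54 (L l229 (T t14 N))))))))) (K a106 (M a48 (F (T t1 (L l229 (L l498 (T t14 (L l111 (L l229 (L l390 (L l498 (T t6 (L l390 (T t26 N))))))))))))) (K a170 (M a48 (F (T t3 (L l234 (T t11 (L l390 (T t13 N))))))) (K a191 (M a240 (F (T t962 (L l108 (T t963 N))))) (K a255 (M a16 (F (T t112 (L l266 (T t190 (L l289 (L l296 (T t191 N)))))))) N)))))))))))))))⟩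
def e0_63__198_91 : Ent 4 := ⟨[a0, a63], [a198, a122], (M a149 (F (T t5 (T t175 (T t176 (L l130 (T t177 (K a192 (M a53 (F (L l426 (T t178 (L l229 (L l236 (L l296 (T t180 (L l229 (L l236 (L l426 (T t179 N)))))))))))) (K a21 (M a48 (F (L l130 (T t7 (L l18 (L l229 (L l426 (T t14 (L l114 (L l130 (T t13 N))))))))))) (K a85 (M a16 (F (T t97 (L l130 (L l144 (T t190 (L l94 (L l130 (T t278 N))))))))) (K a213 (Fr a106 a192 l519 (Fr a42 a21 l68 (Fr a170 a234 l390 (Fr a255 a85 l476 (V t582))))) (K a42 (M a48 (F (L l234 (T t187 (L l114 (L l130 (L l390 (T t13 (L l54 (L l229 (L l426 (T t14 N)))))))))))) (K a106 (M a90 (F (L l390 (T t1073 (L l411 (L l426 (T t1040 (L l390 (L l411 (T t1954 (L l390 (L l411 (T t1074 (L l411 (T t1075 N))))))))))))))) (K a170 (M a48 (F (T t3 (L l234 (T t11 (L l114 (L l130 (L l390 (T t13 N))))))))) (K a191 (M a16 (F (T t97 (L l130 (T t190 (L l213 (T t191 N))))))) (K a255 (M a16 (F (L l469 (T t97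 (L l130 (L l266 (T t190 (L l289 (L l296 (T t191 N)))))))))) N))))))))))))))))⟩
def e0_63__198_92 : Ent 4 := ⟨[a0, a63], [a198, a123], (M a149 (F (T t5 (T t175 (T t176 (L l132 (T t177 (K a192 (M a53 (F (T t178 (L l229 (L l236 (T t179 (L l229 (L l236 (L l296 (T t180 N)))))))))) (K a21 (M a48 (F (L l229 (T t4 (L l132 (T t13 (L l18 (L l229 (T t14 N))))))))) (K a85 (M a16 (F (T t97 (L l132 (L l144 (T t190 (L l94 (T t278 N)))))))) (K a213 (Fr a106 a192 l519 (Fr a42 a21 l68 (Fr a170 a234 l390 (Fr a255 a85 l476 (V t582))))) (K a42 (M a48 (F (L l234 (T t187 (L l132 (L l390 (T t13 (L l54 (L l229 (T t14 N)))))))))) (K a106 (M a89 (F (L l390 (T t1955 (L l408 (L l427 (T t1956 (L l390 (L l408 (L l427 (T t1957 (L l390 (L l408 (T t1958 (L l408 (T t1959 N)))))))))))))))) (K a170 (M a48 (F (T t3 (L l234 (T t11 (L l132 (L l390 (T t13 N)))))))) (K a191 (M a16 (F (T t97 (L l132 (T t190 (L l213 (T t191 N))))))) (K a255 (M a16 (F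 (T t112 (L l132 (L l266 (T t190 (L l289 (L l296 (T t191 N))))))))) N))))))))))))))))⟩
def e0_63__198_93 : Ent 4 := ⟨[a0, a63], [a198, a124], (M a149 (F (T t25 (T t175 (T t176 (L l140 (T t177 (K a192 (M a53 (F (T t178 (L l229 (L l236 (T t179 (L l229 (L l236 (L l296 (T t180 N)))))))))) (K a21 (M a48 (F (T t7 (L l18 (L l229 (T t14 (L l110 (T t13 N)))))))) (K a85 (M a16 (F (T t97 (L l144 (T t190 (L l94 (T t278 N))))))) (K a213 (Fr a106 a192 l519 (Fr a42 a21 l68 (Fr a170 a234 l390 (Fr a255 a85 l476 (V t582))))) (K a42 (M a48 (F (L l234 (T t187 (L l110 (L l390 (T t13 (L l54 (L l229 (T t14 N)))))))))) (K a106 (M a48 (F (T t1 (L l229 (L l498 (T t14 (L l229 (L l390 (L l498 (T t6 (L l390 (T t26 N)))))))))))) (K a170 (M a48 (F (T t3 (L l234 (T t11 (L l110 (L l390 (T t13 N)))))))) (K a191 (M a252 (F (L l140 (T t940 (L l109 (T t941 N)))))) (K a255 (M a16 (F (T t112 (L l266 (T t190 (L l289 (L l296 (T t191 N)))))))) N))))))))))))))))⟩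
def e0_63__198_94 : Ent 4 := ⟨[a0, a63], [a198, a125], (M a85 (F (T t88 (L l109 (L l434 (T t52 (T t89 (T t90 (K a64 (M a16 (F (T t97 (L l84 (T t96 (L l116 (T t98 N))))))) (K a192 (M a16 (F (T t96 (L l339 (T t97 (L l296 (T t98 N))))))) (K a21 (M a48 (F (T t1699 (L l47 (L l109 (L l234 (T t100 (L l109 (L l111 (T t50 N)))))))))) (K a149 (M a16 (F (T t173 (L l375 (T t97 (L l170 (T t102 N))))))) (K a213 (Fr a170 a255 l476 (Fr a42 a21 l68 (Fr a106 a234 l390 (Fr a192 a149 l519 (V t581))))) (K a42 (M a48 (F (L l28 (T t1699 (L l109 (L l111 (L l390 (T t50 (L l28 (L l109 (L l234 (T t100 N)))))))))))) (K a106 (M a48 (F (T t1 (L l104 (T t509 (L l109 (L l111 (L l390 (T t50 N))))))))) (K a170 (M a16 (F (L l390 (L l404 (T t97 (L l390 (T t98 (L l109 (L l234 (L l404 (T t113 (L l229 (L l404 (T t174 N)))))))))))))) (K a255 (M a60 (F (T t522 (L l109 (L l234 (L l295 (L l431 (T t523 (L l295 (L l296 (T t115 (L l237 (L l295 (L l296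 (T t524 N))))))))))))))) N)))))))))))))))))⟩
def e0_63__198_95 : Ent 4 := ⟨[a0, a63], [a198, a126], (M a149 (F (T t5 (T t175 (T t176 (L l142 (T t177 (K a192 (M a53 (F (T t178 (L l229 (L l236 (T t179 (L l229 (L l236 (L l296 (T t180 N)))))))))) (K a21 (M a48 (F (L l229 (T t4 (L l142 (T t13 (L l18 (L l229 (T t14 N))))))))) (K a85 (M a16 (F (T t97 (L l142 (L l144 (T t190 (L l94 (T t278 N)))))))) (K a213 (Fr a106 a192 l519 (Fr a42 a21 l68 (Fr a170 a234 l390 (Fr a255 a85 l476 (V t582))))) (K a42 (M a48 (F (L l234 (T t187 (L l142 (L l390 (T t13 (L l54 (L l229 (T t14 N)))))))))) (K a106 (M a86 (F (L l393 (L l432 (T t618 (L l390 (T t620 (L l390 (L l393 (T t1239 (L l390 (L l393 (T t621 (L l393 (T t622 N))))))))))))))) (K a170 (M a48 (F (T t3 (L l234 (T t11 (L l142 (L l390 (T t13 N)))))))) (K a191 (M a16 (F (T t97 (L l142 (T t190 (L l213 (T t191 N))))))) (K a255 (M a16 (F (T t112 (L l142 (L l266 (T t190 (L l289 (L l296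 (T t191 N))))))))) N))))))))))))))))⟩
def e0_63__198_96 : Ent 4 := ⟨[a0, a63], [a198, a127], (M a48 (F (T t1 (T t2 (T t3 (T t0 (K a16 (M a60 (F (T t43 (T t64 (T t65 N))))) (K a32 (M a60 (F (T t67 (T t64 (L l24 (L l28 (T t65 N))))))) (K a21 (M a192 (F (T t28 (L l47 (L l234 (L l347 (T t20 (L l18 (L l144 (L l229 (T t224 N))))))))))) (K a37 (M a192 (F (T t19 (L l47 (L l234 (T t20 (L l28 (L l144 (T t37 N))))))))) (K a53 (M a192 (F (T t19 (L l144 (T t37 (L l47 (L l137 (L l491 (T t525 N))))))))) (K a26 (M a192 (F (T t28 (L l234 (T t20 (L l54 (L l144 (T t37 N)))))))) (K a42 (M a192 (F (T t19 (L l234 (T t20 (L l54 (L l144 (L l229 (L l390 (T t224 N)))))))))) (K a58 (M a192 (F (T t19 (L l54 (L l144 (L l498 (T t37 (L l137 (T t525 N))))))))) (K a15 (M a106 (F (T t2289 (L l234 (T t306 N))))) N)))))))))))))))⟩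
def e0_63__198_97 : Ent 4 := ⟨[a0, a63], [a198, a192], (M a48 (F (T t48 (L l339 (T t1 (L l339 (T t2 (L l339 (T t3 (L l339 (T t0 (K a16 (M a60 (F (T t138 (L l14 (L l18 (L l309 (T t67 (T t65 N)))))))) (K a32 (M a60 (F (T t138 (L l309 (T t67 (L l24 (L l28 (T t65 N)))))))) (K a21 (M a255 (F (T t554 (L l236 (L l347 (T t547 (L l47 (L l234 (L l236 (T t548 N)))))))))) (K a37 (M a52 (F (T t555 (L l334 (T t82 (L l21 (L l28 (L l492 (T t84 N))))))))) (K a53 (M a12 (F (T t145 (L l47 (L l489 (T t122 (L l47 (T t146 N)))))))) (K a26 (M a56 (F (T t556 (L l334 (T t133 (L l12 (L l18 (T t135 N)))))))) (K a42 (M a255 (F (T t1260 (L l54 (L l268 (T t1160 (L l28 (L l234 (L l236 (L l390 (T t548 N))))))))))) (K a58 (M a12 (F (T t145 (L l489 (T t122 (T t146 N)))))) (K a15 (M a4 (L l339 (F (T t129 (L l63 (L l514 (T t528 (L l492 (T t520 (K a133 (M a74 (F (T t558 (L l73 (L l489 (T t519 (L l492 (T t520 N)))))))) (K a74 (M a133 (F (T t558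 (L l73 (L l489 (T t519 (L l492 (T t520 N)))))))) N))))))))))) N))))))))))))))))))))⟩
def e0_63__198_98 : Ent 4 := ⟨[a0, a63], [a198, a193], (M a85 (F (T t52 (L l228 (L l293 (T t88 (L l293 (T t89 (L l228 (T t90 (K a64 (M a16 (F (T t97 (L l84 (T t96 (L l116 (L l293 (T t98 N)))))))) (K a192 (M a195 (F (T t4874 (L l309 (T t2035 (L l293 (L l296 (T t894 (L l305 (L l492 (T t2036 N))))))))))) (K a21 (M a48 (F (T t99 (T t50 (L l47 (L l234 (T t100 N))))))) (K a149 (M a61 (F (L l305 (T t505 (L l220 (L l293 (T t506 (L l217 (T t2037 N))))))))) (K a213 (Fr a170 a255 l476 (Fr a42 a21 l68 (Fr a106 a234 l390 (Fr a192 a149 l519 (V t581))))) (K a42 (M a48 (F (T t364 (L l390 (T t50 (L l28 (L l234 (T t100 N)))))))) (K a106 (M a48 (F (T t1 (L l104 (T t509 (L l390 (T t50 N))))))) (K a170 (M a16 (F (L l390 (L l404 (T t97 (L l293 (L l390 (T t98 (L l234 (L l404 (T t113 (L l229 (L l233 (L l404 (T t174 N))))))))))))))) (K a255 (M a16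 (F (T t112 (L l234 (L l289 (T t113 (L l289 (L l293 (L l296 (T t98 N)))))))))) N)))))))))))))))))))⟩
def e0_63__198_99 : Ent 4 := ⟨[a0, a63], [a198, a194], (M a48 (L l234 (F (T t1 (T t2 (T t3 (T t0 (K a16 (M a62 (L l234 (F (T t827 (L l18 (L l306 (T t709 (L l18 (L l492 (T t826 (K a202 (M a206 (F (T t827 (L l18 (L l312 (T t5467 N)))))) (K a206 (M a202 (F (T t827 (L l18 (L l306 (L l330 (T t709 (L l18 (T t5468 N))))))))) N)))))))))))) (K a32 (M a62 (L l234 (F (T t711 (L l486 (T t825 (L l20 (L l492 (T t826 (K a202 (M a206 (F (T t827 (L l312 (T t5467 N))))) (K a206 (M a202 (F (T t827 (L l306 (L l330 (T t709 (L l336 (T t5469 N)))))))) N))))))))))) (K a21 (M a192 (L l234 (F (T t27 (L l347 (T t225 (L l18 (L l229 (L l516 (T t224 (K a202 (M a206 (F (T t28 (L l498 (L l516 (T t22 (L l18 (L l498 (L l516 (T t46 N)))))))))) (K a206 (M a202 (F (L l347 (T t5470 (L l229 (T t5471 N)))))) N)))))))))))) (K a37 (M a60 (L l234 (F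 (T t451 (L l28 (T t43 (T t247 (K a202 (M a206 (F (T t880 (L l47 (T t5472 N))))) (K a206 (M a202 (F (T t880 (L l47 (L l336 (L l383 (L l516 (T t5473 N)))))))) N))))))))) (K a53 (M a192 (L l234 (F (T t19 (L l491 (T t21 (L l516 (T t31 (K a202 (M a206 (F (T t28 (L l47 (L l282 (L l294 (L l491 (T t35 (L l47 (L l282 (L l294 (L l491 (T t525 N))))))))))))) (K a206 (M a202 (F (L l491 (T t5474 (T t28 N))))) N)))))))))) (K a26 (M a154 (L l234 (F (T t327 (L l54 (L l229 (T t526 (L l54 (T t5475 (K a202 (M a206 (F (T t822 (L l492 (L l516 (T t5476 N)))))) (K a206 (M a202 (F (T t5477 (L l231 (T t329 N))))) N))))))))))) (K a42 (M a192 (L l234 (F (T t225 (T t27 (L l54 (L l229 (L l390 (L l516 (T t224 (K a202 (M a206 (F (T t837 (L l390 (L l498 (L l516 (T t22 (L l390 (L l498 (L l516 (T t46 N))))))))))) (K a206 (M a202 (F (T t5470 (L l28 (T t28 N))))) N)))))))))))) (K a58 (M a106 (L l234 (F (T t564 (T t551 (L l294 (T t599 (K a202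 (M a206 (F (T t564 (T t551 (L l282 (L l294 (T t599 N))))))) (K a206 (M a202 (F (T t5478 (L l54 (L l228 (T t586 (L l294 (T t599 N)))))))) N))))))))) (K a15 (M a60 (L l234 (F (T t246 (L l7 (T t67 (L l3 (T t247 (K a202 (M a206 (F (T t3235 (T t5472 N)))) (K a206 (M a202 (F (T t3235 (L l516 (T t5468 N))))) N)))))))))) (K a202 (M a206 (F (T t3 (L l318 (T t1 (L l498 (T t2 (T t0 (K a16 (M a204 (F (T t5479 (L l368 (L l492 (L l498 (T t5480 N))))))) (K a32 (M a204 (F (T t5479 (L l492 (L l498 (T t5480 N)))))) (K a21 (M a204 (F (T t1319 (L l516 (T t2004 N))))) (K a37 (M a204 (F (T t1319 (L l516 (T t2004 N))))) (K a53 (M a204 (F (T t1315 (L l516 (T t2004 N))))) (K a26 (M a204 (F (T t1319 (L l516 (T t2004 N))))) (K a42 (M a204 (F (T t1319 (L l66 (L l516 (T t2004 N)))))) (K a58 (M a154 (F (T t1999 (L l54 (L l516 (T t5481 N)))))) (K a15 (M a204 (F (T t5482 (L l63 (L l516 (T t2004 N)))))) N))))))))))))))))) (K a206 (M a202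 (F (T t1 (L l231 (L l516 (T t5483 (L l516 (T t5468 (K a53 (M a192 (F (L l491 (T t5474 (T t28 N))))) (K a58 (M a192 (F (T t5484 (L l54 (L l229 (T t5471 (L l294 (T t35 N)))))))) N)))))))))) N))))))))))))))))))⟩
def e0_63__198_100 : Ent 4 := ⟨[a0, a63], [a198, a195], (M a192 (L l237 (F (T t47 (L l295 (T t21 (L l295 (T t35 (L l295 (T t202 (L l295 (T t37 (K a64 (M a51 (L l237 (F (T t1713 (L l338 (T t1294 (T t1714 (K a204 (M a201 (F (T t841 (L l120 (L l144 (L l488 (T t5209 N))))))) (K a201 (M a204 (F (T t1716 (L l338 (T t592 N))))) N))))))))) (K a128 (M a51 (L l237 (F (T t1717 (L l338 (T t1294 (L l196 (L l220 (T t1714 (K a204 (M a201 (F (T t848 (L l488 (T t5209 N))))) (K a201 (M a204 (F (T t1718 (L l338 (T t592 N))))) N))))))))))) (K a21 (M a204 (F (T t1719 (L l338 (T t1720 (L l347 (T t1721 N))))))) (K a85 (M a204 (F (T t5210 (L l347 (L l487 (T t1723 (L l126 (L l144 (T t1724 N))))))))) (K a149 (M a48 (L l237 (F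 (T t1922 (L l337 (L l347 (L l491 (T t1 (L l170 (L l220 (L l337 (L l347 (L l491 (T t213 (L l337 (L l375 (T t214 (K a204 (M a201 (F (T t132 (L l273 (L l298 (T t837 (L l170 (L l220 (L l327 (L l337 (L l347 (L l491 (T t213 (L l327 (L l337 (L l375 (T t214 N))))))))))))))))) (K a201 (M a204 (F (T t132 (L l338 (T t1735 N))))) N))))))))))))))))))) (K a42 (M a204 (F (T t1722 (L l487 (T t1723 (T t1721 N)))))) (K a106 (M a48 (L l237 (F (T t48 (L l273 (T t27 (L l337 (L l411 (T t213 (L l104 (L l144 (L l337 (L l390 (L l498 (T t214 (K a204 (M a201 (F (T t55 (L l327 (L l337 (L l390 (T t0 (L l327 (L l337 (L l411 (T t213 (L l104 (L l144 (L l327 (L l337 (L l390 (L l498 (T t214 N)))))))))))))))))) (K a201 (M a204 (F (T t48 (L l144 (L l338 (T t1735 N)))))) N))))))))))))))))) (K a170 (M a204 (F (L l338 (T t1735 (L l390 (L l487 (T t5211 (L l208 (L l220 (T t1721 N)))))))))) (K a255 (M a204 (L l295 (F (T t1719 (L l338 (L l470 (T t1733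 (L l439 (T t1721 (K a215 (M a235 (F (T t5210 (L l439 (L l487 (T t1734 (L l439 (T t1721 N)))))))) (K a235 (M a215 (F (T t5210 (L l439 (L l487 (T t1734 (L l439 (T t1721 N)))))))) N))))))))))) (K a204 (M a201 (F (T t47 (L l290 (L l295 (T t21 (L l290 (L l295 (T t35 (L l290 (L l295 (T t202 (L l290 (L l295 (T t37 (K a64 (M a104 (F (T t5080 (L l508 (T t5212 N))))) (K a128 (M a104 (F (L l216 (T t5080 (L l220 (L l508 (T t5212 N))))))) (K a21 (M a104 (F (T t5213 (L l347 (L l508 (T t5212 N)))))) (K a85 (M a104 (F (T t5213 (L l347 (L l508 (T t5212 N)))))) (K a149 (M a48 (F (T t132 (L l273 (L l298 (T t837 (L l170 (L l220 (L l327 (L l337 (L l347 (L l491 (T t213 (L l327 (L l337 (L l375 (T t214 N))))))))))))))))) (K a42 (M a104 (F (T t5213 (L l56 (L l508 (T t5212 N)))))) (K a106 (M a48 (F (T t55 (L l327 (L l337 (L l390 (T t0 (L l327 (L l337 (L l411 (T t213 (L l104 (L l144 (L l327 (L l337 (L l390 (L l498 (T t214 N))))))))))))))))))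 (K a170 (M a145 (F (T t5155 (L l390 (L l488 (T t5214 N)))))) (K a255 (M a200 (L l290 (L l295 (F (L l229 (L l235 (T t5215 (L l513 (T t5216 (K a221 (M a238 (L l295 (F (L l229 (L l235 (T t5215 (L l365 (L l513 (T t5217 (K a215 (M a235 (F (L l229 (L l235 (T t5218 (L l365 (L l513 (T t5217 N)))))))) (K a235 (M a215 (F (L l229 (L l235 (L l283 (T t5215 (L l365 (L l513 (T t5217 N))))))))) N))))))))))) (K a238 (M a221 (L l295 (F (L l229 (L l235 (T t5215 (L l513 (T t5216 (K a215 (M a235 (F (L l229 (L l235 (T t5218 (L l513 (T t5217 N))))))) (K a235 (M a215 (F (L l229 (L l235 (L l283 (T t5215 (L l513 (T t5216 N)))))))) N)))))))))) (K a215 (M a235 (L l290 (F (L l229 (L l235 (T t5218 (L l513 (T t5217 (K a221 (M a238 (F (L l229 (L l235 (T t5218 (L l365 (L l513 (T t5217 N)))))))) (K a238 (M a221 (F (L l229 (L l235 (T t5218 (L l513 (T t5217 N))))))) N)))))))))) (K a235 (M a215 (L l290 (F (L l229 (L l235 (L l283 (T t5215 (L l513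 (T t5216 (K a221 (M a238 (F (L l229 (L l235 (L l283 (T t5215 (L l365 (L l513 (T t5217 N))))))))) (K a238 (M a221 (F (L l229 (L l235 (L l283 (T t5215 (L l513 (T t5216 N)))))))) N))))))))))) N))))))))))))) N)))))))))))))))))))))))) (K a201 (M a204 (F (T t1800 (L l230 (L l338 (T t1733 (L l487 (T t1723 N)))))))) N)))))))))))))))))))))))⟩
def e0_63__198_101 : Ent 4 := ⟨[a0, a63], [a198, a197], (M a60 (L l229 (F (T t67 (T t43 (T t68 (T t69 (K a20 (M a12 (L l229 (F (T t151 (T t398 (L l11 (L l46 (T t399 (K a196 (M a199 (F (T t680 (L l311 (T t5398 N))))) (K a199 (M a196 (F (T t402 (T t5399 N)))) N)))))))))) (K a40 (M a12 (L l229 (F (T t122 (T t398 (L l24 (T t399 (K a196 (M a199 (F (T t680 (L l52 (L l311 (T t5398 N)))))) (K a199 (M a196 (F (T t408 (L l22 (L l52 (T t5399 N)))))) N))))))))) (K a21 (M a192 (L l229 (F (T t72 (L l237 (L l347 (L l491 (T t73 (L l347 (L l491 (T t74 (K a196 (M a199 (F (T t1333 (L l237 (T t75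 (L l347 (L l491 (L l495 (T t74 N))))))))) (K a199 (M a196 (F (T t1333 (L l50 (L l493 (T t5400 N)))))) N))))))))))))) (K a41 (M a12 (L l229 (F (T t408 (L l22 (T t151 (L l22 (T t409 (K a196 (M a199 (F (T t680 (L l311 (T t5398 N))))) (K a199 (M a196 (F (T t408 (T t5401 N)))) N)))))))))) (K a61 (M a48 (L l229 (F (T t247 (L l35 (L l65 (L l491 (T t1 (L l311 (T t65 (K a196 (M a199 (F (T t0 (L l492 (T t5402 N))))) (K a199 (M a196 (F (T t0 (T t5403 N)))) N)))))))))))) (K a22 (M a4 (L l229 (F (T t1624 (L l66 (T t519 (L l48 (L l66 (L l491 (T t1623 (K a196 (M a199 (F (T t1624 (L l48 (L l66 (L l312 (T t5404 N))))))) (K a199 (M a196 (F (T t1624 (L l48 (L l66 (L l275 (L l277 (L l492 (T t5405 N))))))))) N)))))))))))) (K a42 (M a192 (L l229 (F (T t77 (L l237 (L l491 (T t73 (L l22 (L l491 (T t74 (K a196 (M a199 (F (T t1333 (L l237 (L l390 (T t75 (L l22 (L l491 (L l495 (T t74 N)))))))))) (K a199 (M a196 (F (T t1333 (L l390 (L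 l493 (T t5400 N)))))) N)))))))))))) (K a62 (M a48 (L l229 (F (T t247 (L l491 (T t1 (L l36 (L l66 (L l311 (T t65 (K a196 (M a199 (F (T t3 (L l492 (L l516 (T t5402 N)))))) (K a199 (M a196 (F (T t3 (T t5403 N)))) N)))))))))))) (K a3 (M a48 (L l229 (F (T t1543 (L l7 (L l491 (T t1 (L l43 (L l491 (T t64 (K a196 (M a199 (F (T t610 (L l492 (T t5402 N))))) (K a199 (M a196 (F (T t610 (T t5403 N)))) N)))))))))))) (K a196 (M a199 (F (T t67 (T t43 (T t68 (T t69 (K a20 (M a52 (F (L l11 (L l315 (T t5406 (L l491 (T t5407 N))))))) (K a40 (M a52 (F (L l315 (T t5408 (L l392 (L l491 (T t5407 N))))))) (K a21 (M a52 (F (T t1629 (L l312 (T t5409 N))))) (K a41 (M a52 (F (L l57 (T t1629 (L l22 (L l312 (T t5409 N))))))) (K a61 (M a48 (F (T t0 (L l492 (T t5402 N))))) (K a22 (M a4 (F (T t1624 (L l48 (L l66 (L l312 (T t5404 N))))))) (K a42 (M a52 (F (L l22 (L l310 (T t3773 (L l232 (L l234 (L l236 (L l491 (T t1625 N)))))))))) (K a62 (M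 a48 (F (T t3 (L l492 (L l516 (T t5402 N)))))) (K a3 (M a48 (F (T t610 (L l492 (T t5402 N))))) N))))))))))))))) (K a199 (M a196 (F (T t67 (T t43 (T t68 (T t69 (K a20 (M a192 (F (T t202 (L l46 (L l494 (T t5410 N)))))) (K a40 (M a192 (F (T t202 (L l388 (L l494 (T t5410 N)))))) (K a21 (M a192 (F (T t1333 (L l50 (L l493 (T t5400 N)))))) (K a41 (M a192 (F (T t1333 (L l493 (T t5400 N))))) (K a61 (M a192 (F (T t1333 (L l493 (T t5400 N))))) (K a22 (M a192 (F (T t1333 (L l493 (T t5400 N))))) (K a42 (M a192 (F (T t1333 (L l390 (L l493 (T t5400 N)))))) (K a62 (M a192 (F (T t1333 (L l493 (L l516 (T t5400 N)))))) (K a3 (M a192 (F (T t1800 (L l45 (L l494 (T t5410 N)))))) N))))))))))))))) N))))))))))))))))))⟩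
def e0_63__198_102 : Ent 4 := ⟨[a0, a63], [a198, a199], (M a48 (L l229 (F (T t1 (T t2 (T t3 (T t0 (K a16 (M a149 (L l229 (F (T t5 (L l234 (L l340 (T t11 (T t5485 (K a196 (M a197 (F (T t5486 (L l232 (L l278 (T t5 N)))))) (K a197 (M a196 (F (T t177 (L l492 (L l494 (T t5487 N)))))) N)))))))))) (K a32 (M a149 (L l229 (F (T t175 (L l234 (T t11 (L l28 (T t5488 (K a196 (M a197 (F (T t5486 (L l28 (L l232 (L l278 (T t5 N))))))) (K a197 (M a196 (F (T t177 (L l492 (L l494 (T t5487 N)))))) N)))))))))) (K a21 (M a192 (L l229 (F (T t27 (L l47 (L l234 (L l235 (L l347 (T t20 (L l47 (L l234 (L l347 (T t29 (K a196 (M a197 (F (T t4980 (T t28 N)))) (K a197 (M a196 (F (T t28 (L l50 (L l493 (T t5400 N)))))) N))))))))))))))) (K a37 (M a192 (L l229 (F (T t202 (T t27 (L l47 (L l234 (L l235 (T t20 (K a196 (M a197 (F (T t4980 (L l28 (T t28 N))))) (K a197 (M a196 (F (T t837 (L l493 (T t5400 N))))) N))))))))))) (K a53 (M a149 (L l229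 (F (T t25 (T t13 (T t26 (K a196 (M a197 (F (T t4984 (L l232 (L l278 (T t5 (L l278 (T t26 N)))))))) (K a197 (M a196 (F (T t1787 (L l275 (T t26 N))))) N)))))))) (K a26 (M a192 (L l229 (F (T t202 (T t27 (L l234 (L l235 (T t20 (K a196 (M a197 (F (T t4980 (L l234 (T t4987 N))))) (K a197 (M a196 (F (T t28 (L l493 (T t5400 N))))) N)))))))))) (K a42 (M a192 (L l229 (F (T t19 (L l234 (L l235 (T t20 (L l28 (L l234 (T t29 (K a196 (M a197 (F (L l390 (T t4980 (L l234 (T t4987 N)))))) (K a197 (M a196 (F (T t837 (L l390 (L l493 (T t5400 N)))))) N)))))))))))) (K a58 (M a192 (L l229 (F (T t19 (T t21 (L l54 (L l498 (T t31 (K a196 (M a197 (F (L l498 (T t4988 (T t28 N))))) (K a197 (M a196 (F (T t28 (L l493 (L l498 (T t5400 N)))))) N)))))))))) (K a15 (M a192 (L l229 (F (T t54 (L l483 (T t27 (L l469 (T t21 (K a196 (M a197 (F (T t4980 (L l483 (T t28 N))))) (K a197 (M a196 (F (T t5489 (L l235 (L l325 (L l491 (T t225 N))))))) N))))))))))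 (K a196 (M a197 (F (T t1 (L l495 (T t4995 (L l495 (T t4979 (K a53 (M a192 (F (T t4996 (L l47 (L l234 (T t4987 (L l47 (L l495 (T t35 N))))))))) (K a58 (M a192 (F (L l498 (T t4988 (T t28 N))))) N))))))))) (K a197 (M a196 (F (T t3 (L l491 (T t1 (L l311 (T t2 (T t0 (K a16 (M a192 (F (T t202 (L l364 (L l494 (T t5490 N)))))) (K a32 (M a192 (F (T t202 (L l494 (T t5490 N))))) (K a21 (M a192 (F (T t28 (L l50 (L l493 (T t5400 N)))))) (K a37 (M a192 (F (T t837 (L l493 (T t5400 N))))) (K a53 (M a149 (F (T t1787 (L l275 (T t26 N))))) (K a26 (M a192 (F (T t28 (L l493 (T t5400 N))))) (K a42 (M a192 (F (T t837 (L l390 (L l493 (T t5400 N)))))) (K a58 (M a192 (F (T t28 (L l493 (L l498 (T t5400 N)))))) (K a15 (M a192 (F (T t5489 (L l235 (L l325 (L l491 (T t225 N))))))) N))))))))))))))))) N))))))))))))))))))⟩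
def e0_63__198_103 : Ent 4 := ⟨[a0, a63], [a198, a201], (M a149 (L l237 (F (T t5 (T t175 (T t176 (T t177 (K a192 (M a204 (F (L l296 (T t5491 (L l489 (T t1044 (L l229 (L l296 (T t1058 (L l489 (L l492 (T t2396 (L l230 (L l296 (L l489 (L l492 (T t5492 (L l296 (L l489 (T t5493 N)))))))))))))))))))) (K a21 (M a204 (F (T t1046 (T t1283 (T t1044 N))))) (K a85 (M a16 (L l237 (F (T t97 (L l144 (T t190 (L l94 (T t278 (K a204 (M a195 (F (T t504 (L l141 (L l497 (T t2098 N)))))) (K a195 (M a204 (F (T t504 (L l228 (L l229 (T t1045 N)))))) N)))))))))) (K a213 (Fr a106 a192 l519 (Fr a42 a21 l68 (Fr a170 a234 l390 (Fr a255 a85 l476 (V t582))))) (K a42 (M a204 (F (T t5494 (L l390 (T t1283 (T t1044 N)))))) (K a106 (M a204 (F (L l102 (L l390 (T t5495 (L l229 (L l390 (T t1058 (L l102 (L l230 (L l501 (T t5496 (L l102 (L l390 (T t1112 (L l102 (T t1056 (L l390 (T t5497 (L l144 (L l390 (T t5498 N)))))))))))))))))))))) (K a170 (M a204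 (F (T t5494 (L l229 (L l390 (L l464 (T t1043 (L l208 (L l390 (T t1055 (L l208 (T t1056 N)))))))))))) (K a191 (M a204 (F (T t5494 (L l189 (T t5495 (T t1283 N)))))) (K a255 (M a204 (F (L l296 (T t2395 (L l470 (T t1283 (L l492 (T t2396 N)))))))) (K a204 (M a195 (F (T t25 (L l497 (T t2098 (T t2694 N)))))) (K a195 (M a204 (F (T t25 (L l228 (L l229 (T t1045 (T t1055 N))))))) N))))))))))))))))))⟩
def e0_63__198_104 : Ent 4 := ⟨[a0, a63], [a198, a203], (M a149 (F (T t5 (T t175 (T t176 (T t177 (K a192 (M a53 (F (T t178 (L l229 (L l236 (T t179 (L l229 (L l236 (L l296 (T t180 N)))))))))) (K a21 (M a48 (F (T t1267 (L l18 (L l229 (T t14 (T t13 N))))))) (K a85 (M a16 (F (T t97 (L l144 (T t190 (L l94 (T t278 N))))))) (K a213 (Fr a106 a192 l519 (Fr a42 a21 l68 (Fr a170 a234 l390 (Fr a255 a85 l476 (V t582))))) (K a42 (M a48 (F (L l54 (L l229 (T t4 (L l390 (T t13 (L l54 (L l229 (T t14 N)))))))))) (K a106 (M a48 (F (T t1 (L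 l229 (L l498 (T t14 (L l229 (L l390 (L l498 (T t6 (L l390 (T t26 N)))))))))))) (K a170 (M a48 (F (T t3 (L l230 (L l234 (T t11 (L l390 (T t13 N)))))))) (K a191 (M a204 (F (T t1283 (T t1112 N)))) (K a255 (M a16 (F (T t112 (L l266 (T t190 (L l289 (L l296 (T t191 N)))))))) N)))))))))))))))⟩
def e0_63__198_105 : Ent 4 := ⟨[a0, a63], [a198, a207], (M a12 (F (T t150 (L l511 (T t122 (L l511 (T t151 (L l511 (T t152 (L l511 (T t153 (K a4 (M a60 (F (T t570 (L l46 (L l50 (L l331 (T t67 (T t448 N)))))))) (K a8 (M a60 (F (T t570 (L l331 (T t67 (L l52 (L l56 (T t448 N)))))))) (K a21 (M a192 (F (T t158 (L l231 (L l237 (T t156 (L l15 (L l347 (T t157 N))))))))) (K a25 (M a192 (F (T t155 (L l231 (L l237 (T t156 (L l289 (T t21 N)))))))) (K a29 (M a192 (F (T t1681 (L l231 (L l237 (T t156 (T t160 N))))))) (K a38 (M a192 (F (T t161 (L l231 (L l237 (T t156 (L l289 (T t21 N)))))))) (K a42 (M a192 (F (T t161 (L l231 (L l237 (T t156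 (L l56 (T t157 N)))))))) (K a46 (M a192 (F (T t57 (L l231 (L l237 (T t156 (L l26 (L l408 (T t160 N))))))))) (K a51 (M a192 (L l511 (F (T t1681 (L l231 (L l237 (L l513 (T t156 (L l301 (L l415 (T t450 (K a103 (M a155 (F (T t1800 (L l301 (L l415 (T t543 (L l229 (L l231 (L l237 (L l513 (T t468 N))))))))))) (K a155 (M a103 (F (T t1800 (L l301 (L l415 (T t543 (L l229 (L l231 (L l237 (L l513 (T t468 N))))))))))) N))))))))))))) N))))))))))))))))))))⟩
def e0_63__198_106 : Ent 4 := ⟨[a0, a63], [a198, a208], (M a85 (F (T t52 (L l246 (L l268 (T t88 (L l246 (T t89 (L l268 (T t90 (K a64 (M a16 (F (T t112 (L l84 (L l246 (T t96 (T t102 N))))))) (K a192 (M a240 (F (T t2082 (L l484 (T t933 (L l246 (L l296 (T t1550 (L l340 (T t2083 N)))))))))) (K a21 (M a48 (F (T t873 (L l47 (L l234 (L l246 (T t100 (L l268 (T t50 N))))))))) (K a149 (M a31 (F (L l340 (T t2084 (L l220 (L l246 (T t2085 (L l170 (T t2086 N))))))))) (K a213 (Fr a170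 a255 l476 (Fr a42 a21 l68 (Fr a106 a234 l390 (Fr a192 a149 l519 (V t581))))) (K a42 (M a48 (F (L l340 (T t364 (L l268 (L l390 (T t50 (L l28 (L l234 (L l246 (T t100 N))))))))))) (K a106 (M a48 (F (T t1 (L l104 (L l246 (T t509 (L l268 (L l390 (T t50 N))))))))) (K a170 (M a4 (F (L l464 (T t130 (L l246 (L l390 (T t131 (L l390 (L l464 (T t519 (L l238 (L l464 (T t938 N))))))))))))) (K a255 (M a4 (F (T t129 (L l265 (T t130 (L l246 (L l265 (L l296 (T t131 N))))))))) N)))))))))))))))))))⟩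
def e0_63__198_107 : Ent 4 := ⟨[a0, a63], [a198, a209], (M a60 (F (T t67 (T t43 (T t68 (T t69 (K a20 (M a48 (F (T t2 (T t64 (L l11 (T t235 N)))))) (K a40 (M a48 (F (T t1 (T t64 (L l52 (T t235 N)))))) (K a21 (M a192 (F (T t72 (L l237 (L l347 (L l371 (T t73 (L l347 (L l371 (T t74 N)))))))))) (K a41 (M a192 (F (T t79 (L l65 (L l371 (T t35 (L l237 (L l371 (T t73 N))))))))) (K a61 (M a192 (F (T t72 (L l65 (L l371 (L l515 (T t35 (L l243 (T t80 N))))))))) (K a22 (M a192 (F (T t72 (L l371 (T t21 (L l237 (L l371 (T t73 N)))))))) (K a42 (M a192 (F (T t77 (L l237 (L l371 (T t73 (L l22 (L l371 (T t74 N))))))))) (K a62 (M a192 (F (T t72 (L l371 (T t35 (L l66 (L l243 (L l516 (T t80 N))))))))) (K a3 (M a149 (F (T t5317 (L l243 (L l269 (T t1256 N)))))) N)))))))))))))))⟩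
def e0_63__198_108 : Ent 4 := ⟨[a0, a63], [a198, a210], (M a85 (F (T t88 (T t52 (T t89 (T t90 (K a64 (M a16 (F (T t97 (L l84 (T t96 (L l116 (T t98 N))))))) (K a192 (M a16 (F (T t96 (L l339 (T t97 (L l296 (T t98 N))))))) (K a21 (M a48 (F (T t99 (L l273 (T t50 (L l47 (L l234 (T t100 N)))))))) (K a149 (M a16 (F (T t173 (L l375 (T t97 (L l170 (T t102 N))))))) (K a213 (Fr a170 a255 l476 (Fr a42 a21 l68 (Fr a106 a234 l390 (Fr a192 a149 l519 (V t581))))) (K a42 (M a48 (F (T t364 (L l273 (L l390 (T t50 (L l28 (L l234 (T t100 N))))))))) (K a106 (M a48 (F (T t1 (L l104 (T t509 (L l273 (L l390 (T t50 N)))))))) (K a170 (M a16 (F (L l390 (L l404 (T t97 (L l390 (T t98 (L l234 (L l404 (T t113 (L l229 (L l404 (T t174 N))))))))))))) (K a255 (M a16 (F (T t112 (L l234 (L l289 (T t113 (L l289 (L l296 (T t98 N))))))))) N)))))))))))))))⟩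
def e0_63__198_109 : Ent 4 := ⟨[a0, a63], [a198, a211], (M a149 (F (T t5 (T t175 (T t176 (T t177 (K a192 (M a53 (F (T t178 (L l229 (L l236 (L l344 (T t179 (L l229 (L l236 (L l296 (T t180 N))))))))))) (K a21 (M a48 (F (T t7 (L l18 (L l229 (L l344 (T t14 (T t13 N)))))))) (K a85 (M a16 (F (L l373 (T t97 (L l144 (L l238 (T t190 (L l94 (T t278 N))))))))) (K a213 (Fr a106 a192 l519 (Fr a42 a21 l68 (Fr a170 a234 l390 (Fr a255 a85 l476 (V t582))))) (K a42 (M a48 (F (L l234 (T t187 (L l390 (T t13 (L l54 (L l229 (L l344 (T t14 N)))))))))) (K a106 (M a48 (F (T t1 (L l229 (L l344 (L l498 (T t14 (L l229 (L l390 (L l498 (T t6 (L l245 (L l390 (T t26 N)))))))))))))) (K a170 (M a48 (F (L l229 (T t4 (L l462 (T t1 (L l390 (T t13 N)))))))) (K a191 (M a48 (F (T t13 (L l229 (T t6 N))))) (K a255 (M a16 (F (T t112 (L l238 (L l266 (T t190 (L l245 (L l289 (L l296 (T t191 N)))))))))) N)))))))))))))))⟩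
def e0_63__198_110 : Ent 4 := ⟨[a0, a63], [a198, a212], (M a85 (F (T t52 (L l239 (L l292 (T t88 (L l239 (T t89 (L l292 (T t90 (K a64 (M a16 (F (T t97 (L l84 (T t96 (L l116 (L l239 (T t98 N)))))))) (K a192 (M a252 (F (T t2094 (L l514 (T t93 (L l239 (L l296 (L l309 (T t170 (L l514 (T t2095 N))))))))))) (K a21 (M a48 (F (T t99 (T t50 (L l47 (L l234 (T t100 N))))))) (K a149 (M a23 (F (L l346 (T t1941 (L l220 (L l237 (L l239 (T t2096 (L l163 (L l492 (T t2097 N))))))))))) (K a213 (Fr a170 a255 l476 (Fr a42 a21 l68 (Fr a106 a234 l390 (Fr a192 a149 l519 (V t581))))) (K a42 (M a48 (F (T t364 (L l390 (T t50 (L l28 (L l234 (T t100 N)))))))) (K a106 (M a48 (F (T t1 (L l104 (T t509 (L l390 (T t50 N))))))) (K a170 (M a16 (F (L l390 (L l404 (T t97 (L l239 (L l390 (T t98 (L l234 (L l404 (T t113 (L l229 (L l404 (T t174 N)))))))))))))) (K a255 (M a16 (F (T t112 (L l234 (L l289 (T t113 (L l239 (L l289 (L l296 (T t98 N))))))))))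 N)))))))))))))))))))⟩
def e0_63__198_111 : Ent 4 := ⟨[a0, a63], [a198, a213], (M a48 (F (T t2 (L l347 (T t1 (L l347 (T t3 (T t0 (K a16 (M a60 (F (T t43 (T t64 (T t65 N))))) (K a32 (M a60 (F (T t64 (L l347 (T t67 (L l24 (L l28 (T t65 N)))))))) (K a21 (M a85 (F (T t873 (L l47 (L l234 (L l246 (T t100 (T t50 N)))))))) (K a37 (M a192 (F (T t19 (L l47 (L l234 (L l347 (T t20 (L l347 (T t21 N))))))))) (K a53 (M a192 (F (T t27 (L l347 (L l491 (T t21 (L l347 (L l491 (T t575 N))))))))) (K a26 (M a192 (F (T t837 (L l234 (L l347 (T t20 (L l347 (T t21 N)))))))) (K a42 (M a192 (F (T t19 (L l234 (L l347 (T t20 (L l28 (L l234 (L l246 (L l347 (T t29 N))))))))))) (K a58 (M a192 (F (T t27 (L l347 (T t21 (L l347 (T t575 N))))))) (K a15 (M a192 (F (T t54 (L l483 (T t27 (L l347 (L l469 (T t21 N)))))))) N)))))))))))))))))⟩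
def e0_63__198_112 : Ent 4 := ⟨[a0, a63], [a198, a214], (M a85 (L l276 (F (T t90 (L l239 (T t88 (L l294 (T t52 (L l239 (T t89 (K a64 (M a252 (L l276 (F (T t5499 (L l76 (T t5500 (T t93 (K a230 (M a246 (F (T t5501 (T t91 N)))) (K a246 (M a230 (F (T t91 (L l239 (T t497 N))))) N))))))))) (K a192 (M a245 (L l276 (F (T t5429 (T t5502 (L l484 (T t4204 (K a230 (M a246 (F (L l484 (T t5433 (L l268 (L l300 (T t5503 N))))))) (K a246 (M a230 (F (L l264 (T t5429 (T t5502 (L l264 (L l484 (T t4204 N)))))))) N))))))))) (K a21 (M a252 (L l276 (F (T t94 (T t93 (T t5504 (K a230 (M a246 (F (T t5501 (T t91 N)))) (K a246 (M a230 (F (T t5505 (T t93 (T t5506 N))))) N)))))))) (K a149 (M a16 (L l276 (F (T t173 (L l375 (T t97 (L l170 (T t102 (K a230 (M a246 (F (T t173 (L l375 (T t97 (L l170 (T t102 N))))))) (K a246 (M a230 (F (T t173 (L l375 (T t97 (L l170 (T t102 N))))))) N)))))))))) (K a213 (Fr a170 a255 l476 (Fr a42 a21 l68 (Fr a106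 a234 l390 (Fr a192 a149 l519 (V t581))))) (K a42 (M a252 (L l276 (F (T t94 (L l390 (T t91 (T t5504 (K a230 (M a246 (F (T t5501 (L l390 (T t91 N))))) (K a246 (M a230 (F (T t171 (L l390 (T t91 (T t5506 N)))))) N))))))))) (K a106 (M a48 (L l276 (F (T t1 (L l104 (T t509 (L l390 (T t50 (K a230 (M a246 (F (T t1699 (T t1 (L l390 (T t50 N)))))) (K a246 (M a230 (F (T t1699 (T t1 (L l390 (T t50 N)))))) N)))))))))) (K a170 (M a12 (L l276 (F (T t152 (L l464 (T t574 (L l239 (L l390 (T t154 (L l239 (L l390 (L l464 (T t572 (K a230 (M a246 (F (T t152 (L l174 (L l278 (L l312 (L l464 (T t5507 (L l239 (L l278 (L l390 (T t154 N)))))))))))) (K a246 (M a230 (F (T t152 (L l259 (L l464 (T t574 (L l208 (L l259 (L l464 (T t5508 (L l239 (L l390 (T t154 N))))))))))))) N))))))))))))))) (K a255 (M a16 (L l276 (F (T t112 (L l234 (L l289 (T t113 (L l239 (L l289 (L l296 (T t98 (K a230 (M a246 (F (T t112 (L l234 (L l289 (T t113 (L l239 (L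 l278 (L l289 (L l296 (T t98 N))))))))))) (K a246 (M a230 (F (T t112 (L l234 (L l289 (T t113 (L l239 (L l289 (L l296 (T t98 N)))))))))) N))))))))))))) (K a230 (M a246 (F (T t90 (L l239 (L l278 (T t88 (L l254 (L l294 (T t52 (L l239 (L l278 (T t89 (K a64 (M a204 (F (T t1744 (L l239 (L l278 (T t2343 N)))))) (K a192 (M a252 (F (T t5501 (L l514 (T t91 N))))) (K a21 (M a252 (F (T t5501 (T t91 N)))) (K a149 (M a252 (F (T t5501 (L l220 (T t91 N))))) (K a213 (Fr a170 a255 l476 (Fr a42 a21 l68 (Fr a106 a234 l390 (Fr a192 a149 l519 (V t581))))) (K a42 (M a252 (F (T t5501 (L l390 (T t91 N))))) (K a106 (M a252 (F (T t5501 (L l390 (L l516 (T t93 N)))))) (K a170 (M a12 (F (T t152 (L l174 (L l278 (L l312 (L l464 (T t5507 (L l239 (L l278 (L l390 (T t154 N)))))))))))) (K a255 (M a16 (F (T t112 (L l234 (L l289 (T t113 (L l239 (L l278 (L l289 (L l296 (T t98 N))))))))))) N))))))))))))))))))))) (K a246 (M a230 (F (T t90 (L l229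 (L l456 (T t5509 (L l229 (T t5510 (K a21 (M a192 (F (T t5511 (L l229 (L l239 (T t5512 N)))))) (K a149 (M a16 (F (T t173 (L l375 (T t97 (L l170 (T t102 N))))))) (K a213 (Fr a170 a255 l476 (Fr a42 a21 l68 (Fr a106 a234 l390 (Fr a192 a149 l519 (V t581))))) (K a106 (Fr a21 a42 l68 (Fr a213 a149 l347 (Fr a255 a170 l476 (Fr a234 a192 l296 (V t5519))))) N)))))))))))) N)))))))))))))))))))))⟩
def e0_63__198_113 : Ent 4 := ⟨[a0, a63], [a198, a215], (M a149 (F (T t175 (L l239 (T t5 (L l239 (L l295 (T t176 (L l295 (T t177 (K a192 (M a53 (F (T t178 (L l229 (L l236 (T t179 (L l229 (L l236 (L l239 (L l296 (T t180 N))))))))))) (K a21 (M a48 (F (T t7 (L l18 (L l229 (T t14 (T t13 N))))))) (K a85 (M a20 (F (L l349 (T t238 (L l144 (L l239 (T t1269 (L l87 (T t1270 N))))))))) (K a213 (Fr a106 a192 l519 (Fr a42 a21 l68 (Fr a170 a234 l390 (Fr a255 a85 l476 (V t582))))) (K a42 (M a48 (F (L l234 (T t187 (L l390 (T t13 (L l54 (L l229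 (T t14 N))))))))) (K a106 (M a48 (F (T t1 (L l229 (L l498 (T t14 (L l229 (L l239 (L l390 (L l498 (T t6 (L l239 (L l245 (L l390 (T t26 N))))))))))))))) (K a170 (M a48 (F (T t3 (L l234 (T t11 (L l390 (T t13 N))))))) (K a191 (M a16 (F (T t97 (T t190 (L l213 (L l239 (L l245 (T t191 N)))))))) (K a255 (M a195 (F (T t2098 (L l475 (T t1114 (L l239 (L l296 (L l434 (T t1272 (L l349 (T t1273 N))))))))))) N)))))))))))))))))))⟩
def e0_63__198_114 : Ent 4 := ⟨[a0, a63], [a198, a216], (M a85 (F (T t88 (T t52 (T t89 (T t90 (K a64 (M a16 (F (T t97 (L l84 (T t96 (L l116 (T t98 N))))))) (K a192 (M a16 (F (T t96 (L l339 (T t97 (L l296 (T t98 N))))))) (K a21 (M a48 (F (T t99 (L l298 (T t50 (L l47 (L l234 (T t100 N)))))))) (K a149 (M a16 (F (T t173 (L l375 (T t97 (L l170 (T t102 N))))))) (K a213 (Fr a170 a255 l476 (Fr a42 a21 l68 (Fr a106 a234 l390 (Fr a192 a149 l519 (V t581))))) (K a42 (M a48 (F (T t364 (L l298 (L l390 (T t50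 (L l28 (L l234 (T t100 N))))))))) (K a106 (M a48 (F (T t1 (L l104 (T t509 (L l298 (L l390 (T t50 N)))))))) (K a170 (M a16 (F (L l390 (L l404 (T t97 (L l390 (T t98 (L l234 (L l404 (T t113 (L l229 (L l404 (T t174 N))))))))))))) (K a255 (M a16 (F (T t112 (L l234 (L l289 (T t113 (L l289 (L l296 (T t98 N))))))))) N)))))))))))))))⟩
def e0_63__198_115 : Ent 4 := ⟨[a0, a63], [a198, a217], (M a85 (F (T t90 (L l243 (T t88 (L l284 (T t52 (L l243 (T t89 (K a64 (M a16 (F (T t97 (L l84 (T t96 (L l116 (L l243 (T t98 N)))))))) (K a192 (M a16 (F (T t96 (L l339 (T t97 (L l243 (L l296 (T t98 N)))))))) (K a21 (M a48 (F (T t99 (T t50 (L l47 (L l234 (T t100 N))))))) (K a149 (M a16 (F (T t173 (L l375 (T t97 (L l170 (T t102 N))))))) (K a213 (Fr a170 a255 l476 (Fr a42 a21 l68 (Fr a106 a234 l390 (Fr a192 a149 l519 (V t581))))) (K a42 (M a48 (F (T t364 (L l390 (T t50 (L l28 (L l234 (T t100 N)))))))) (K a106 (M a48 (F (T t1 (L l104 (T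 t509 (L l390 (T t50 N))))))) (K a170 (M a16 (F (L l390 (L l404 (T t97 (L l243 (L l390 (T t98 (L l234 (L l404 (T t113 (L l229 (L l404 (T t174 N)))))))))))))) (K a255 (M a16 (F (T t112 (L l234 (L l289 (T t113 (L l243 (L l289 (L l296 (T t98 N)))))))))) N))))))))))))))))))⟩
def e0_63__198_116 : Ent 4 := ⟨[a0, a63], [a198, a218], (M a85 (F (T t90 (L l246 (T t88 (L l282 (T t52 (L l246 (T t89 (K a64 (M a48 (F (T t2 (L l84 (L l246 (T t509 (L l303 (T t50 N)))))))) (K a192 (M a48 (F (T t1243 (L l339 (T t1 (L l268 (L l303 (T t50 N)))))))) (K a21 (M a48 (F (T t1243 (L l47 (L l234 (L l246 (L l282 (T t100 (L l303 (T t50 N)))))))))) (K a149 (M a48 (F (T t2 (L l246 (T t99 (L l220 (L l303 (T t50 N)))))))) (K a213 (Fr a170 a255 l476 (Fr a42 a21 l68 (Fr a106 a234 l390 (Fr a192 a149 l519 (V t581))))) (K a42 (M a48 (F (T t364 (L l390 (T t567 (L l28 (L l234 (L l246 (L l282 (T t100 N)))))))))) (K a106 (M a48 (F (T t364 (T t1 (L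 l303 (L l390 (T t50 N))))))) (K a170 (M a4 (F (L l464 (T t130 (L l246 (L l390 (T t131 (L l390 (L l464 (T t519 (L l464 (T t938 N)))))))))))) (K a255 (M a4 (F (T t129 (L l265 (T t130 (L l246 (L l265 (L l296 (T t131 N))))))))) N))))))))))))))))))⟩
def e0_63__198_117 : Ent 4 := ⟨[a0, a63], [a198, a219], (M a85 (F (T t88 (T t52 (T t89 (T t90 (K a64 (M a16 (F (T t97 (L l84 (L l245 (T t96 (L l116 (L l245 (T t98 N))))))))) (K a192 (M a16 (F (T t112 (L l245 (T t96 (L l245 (L l296 (T t98 N)))))))) (K a21 (M a48 (F (T t1243 (L l47 (L l234 (L l245 (T t100 (T t50 N)))))))) (K a149 (M a16 (F (T t112 (L l245 (L l301 (T t173 (L l170 (L l356 (T t102 N))))))))) (K a213 (Fr a170 a255 l476 (Fr a42 a21 l68 (Fr a106 a234 l390 (Fr a192 a149 l519 (V t581))))) (K a42 (M a48 (F (T t364 (L l390 (T t50 (L l28 (L l234 (L l245 (T t100 N))))))))) (K a106 (M a48 (F (T t364 (T t1 (L l390 (T t50 N)))))) (K a170 (M a16 (F (L l390 (L l404 (T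 t97 (L l245 (L l390 (T t98 (L l234 (L l245 (L l404 (T t113 (L l229 (L l245 (L l301 (L l404 (T t174 N))))))))))))))))) (K a255 (M a16 (F (T t112 (L l234 (L l245 (L l289 (T t113 (L l245 (L l289 (L l296 (T t98 N))))))))))) N)))))))))))))))⟩
def e0_63__198_118 : Ent 4 := ⟨[a0, a63], [a198, a220], (M a149 (F (T t5 (T t175 (T t176 (T t177 (K a192 (M a53 (F (T t178 (L l229 (L l236 (L l364 (T t179 (L l229 (L l236 (L l296 (T t180 N))))))))))) (K a21 (M a48 (F (T t7 (L l18 (L l229 (L l364 (T t14 (T t13 N)))))))) (K a85 (M a16 (F (L l363 (T t97 (L l144 (L l242 (T t190 (L l94 (T t278 N))))))))) (K a213 (Fr a106 a192 l519 (Fr a42 a21 l68 (Fr a170 a234 l390 (Fr a255 a85 l476 (V t582))))) (K a42 (M a48 (F (L l234 (T t187 (L l390 (T t13 (L l54 (L l229 (L l364 (T t14 N)))))))))) (K a106 (M a48 (F (T t1 (L l229 (L l364 (L l498 (T t14 (L l229 (L l390 (L l498 (T t6 (L l241 (L l390 (T t26 N)))))))))))))) (K a170 (M a48 (F (L l229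 (T t4 (L l462 (T t1 (L l390 (T t13 N)))))))) (K a191 (M a48 (F (T t13 (L l229 (T t6 N))))) (K a255 (M a16 (F (T t112 (L l242 (L l266 (T t190 (L l241 (L l289 (L l296 (T t191 N)))))))))) N)))))))))))))))⟩
def e0_63__198_119 : Ent 4 := ⟨[a0, a63], [a198, a221], (M a149 (F (T t175 (L l243 (T t5 (L l243 (L l290 (T t176 (L l290 (T t177 (K a192 (M a53 (F (T t178 (L l229 (L l236 (T t179 (L l229 (L l236 (L l243 (L l296 (T t180 N))))))))))) (K a21 (M a48 (F (T t7 (L l18 (L l229 (T t14 (T t13 N))))))) (K a85 (M a17 (F (L l359 (T t1279 (L l144 (L l243 (T t1280 (L l91 (T t1281 N))))))))) (K a213 (Fr a106 a192 l519 (Fr a42 a21 l68 (Fr a170 a234 l390 (Fr a255 a85 l476 (V t582))))) (K a42 (M a48 (F (L l234 (T t187 (L l390 (T t13 (L l54 (L l229 (T t14 N))))))))) (K a106 (M a48 (F (T t1 (L l229 (L l498 (T t14 (L l229 (L l243 (L l390 (L l498 (T t6 (L l241 (L l243 (L l390 (T t26 N))))))))))))))) (K a170 (M a48 (F (T t3 (L l234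 (T t11 (L l390 (T t13 N))))))) (K a191 (M a16 (F (T t97 (T t190 (L l213 (L l241 (L l243 (T t191 N)))))))) (K a255 (M a204 (F (T t2100 (L l470 (T t1283 (L l243 (L l296 (L l439 (T t1055 (L l359 (L l492 (T t1284 N)))))))))))) N)))))))))))))))))))⟩
def e0_63__198_120 : Ent 4 := ⟨[a0, a63], [a198, a222], (M a85 (F (T t88 (T t52 (T t89 (T t90 (K a64 (M a16 (F (T t97 (L l84 (L l241 (T t96 (L l116 (L l241 (T t98 N))))))))) (K a192 (M a16 (F (T t112 (L l241 (T t96 (L l241 (L l296 (T t98 N)))))))) (K a21 (M a48 (F (T t1243 (L l47 (L l234 (L l241 (T t100 (T t50 N)))))))) (K a149 (M a16 (F (T t112 (L l241 (L l291 (T t173 (L l170 (L l366 (T t102 N))))))))) (K a213 (Fr a170 a255 l476 (Fr a42 a21 l68 (Fr a106 a234 l390 (Fr a192 a149 l519 (V t581))))) (K a42 (M a48 (F (T t364 (L l390 (T t50 (L l28 (L l234 (L l241 (T t100 N))))))))) (K a106 (M a48 (F (T t364 (T t1 (L l390 (T t50 N)))))) (K a170 (M a16 (F (L l390 (L l404 (T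 t97 (L l241 (L l390 (T t98 (L l234 (L l241 (L l404 (T t113 (L l229 (L l241 (L l291 (L l404 (T t174 N))))))))))))))))) (K a255 (M a16 (F (T t112 (L l234 (L l241 (L l289 (T t113 (L l241 (L l289 (L l296 (T t98 N))))))))))) N)))))))))))))))⟩
def e0_63__198_121 : Ent 4 := ⟨[a0, a63], [a198, a223], (M a149 (F (T t175 (L l246 (T t5 (L l246 (L l289 (T t176 (L l289 (T t177 (K a192 (M a53 (F (T t178 (L l229 (L l236 (L l289 (L l368 (T t179 (L l229 (L l236 (L l246 (L l296 (T t180 N))))))))))))) (K a21 (M a48 (F (L l229 (T t4 (T t13 (L l18 (L l229 (L l289 (L l368 (T t14 N)))))))))) (K a85 (M a16 (F (L l361 (T t97 (L l144 (L l246 (T t190 (L l94 (T t278 N))))))))) (K a213 (Fr a106 a192 l519 (Fr a42 a21 l68 (Fr a170 a234 l390 (Fr a255 a85 l476 (V t582))))) (K a42 (M a48 (F (L l234 (T t11 (L l390 (T t13 (L l54 (L l229 (L l289 (L l368 (T t14 N))))))))))) (K a106 (M a48 (F (T t1 (L l104 (L l144 (L l246 (L l289 (L l361 (L l390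 (T t1285 (L l229 (L l289 (L l368 (L l498 (T t14 N))))))))))))))) (K a170 (M a48 (F (L l229 (T t4 (L l462 (T t1 (L l390 (T t13 N)))))))) (K a191 (M a48 (F (T t13 (L l229 (L l246 (T t6 N)))))) (K a255 (M a207 (F (T t1286 (L l229 (L l469 (T t1287 (L l246 (L l296 (T t1288 (L l361 (T t1289 N))))))))))) N)))))))))))))))))))⟩
def e0_63__198_122 : Ent 4 := ⟨[a0, a63], [a198, a240], (M a48 (F (T t48 (L l483 (T t1 (L l483 (T t2 (L l483 (T t3 (L l483 (T t0 (K a16 (M a60 (F (T t138 (L l14 (L l18 (L l453 (T t67 (T t65 N)))))))) (K a32 (M a60 (F (T t138 (L l453 (T t67 (L l24 (L l28 (T t65 N)))))))) (K a21 (M a101 (F (T t5514 (L l18 (L l303 (T t334 (L l18 (L l229 (T t314 N))))))))) (K a37 (M a52 (F (T t555 (L l478 (T t82 (L l21 (L l28 (L l492 (T t84 N))))))))) (K a53 (M a12 (F (T t145 (L l47 (L l417 (T t122 (L l47 (T t146 N)))))))) (K a26 (M a56 (F (T t556 (L l478 (T t133 (L l12 (L l18 (T t135 N)))))))) (K a42 (M a101 (F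 (T t2103 (L l54 (L l229 (L l268 (T t313 (L l54 (L l229 (T t314 N)))))))))) (K a58 (M a12 (F (T t145 (L l417 (T t122 (T t146 N)))))) (K a15 (M a4 (L l483 (F (T t129 (L l63 (L l442 (T t528 (L l492 (T t520 (K a165 (M a90 (F (T t558 (L l73 (L l417 (T t519 (L l492 (T t520 N)))))))) (K a90 (M a165 (F (T t558 (L l73 (L l417 (T t519 (L l492 (T t520 N)))))))) N))))))))))) N))))))))))))))))))))⟩
def e0_63__198_123 : Ent 4 := ⟨[a0, a63], [a198, a241], (M a149 (F (T t5 (T t175 (T t176 (T t177 (K a192 (M a53 (F (T t178 (L l229 (L l236 (T t179 (L l229 (L l236 (L l296 (L l443 (T t180 N))))))))))) (K a21 (M a48 (F (T t7 (L l18 (L l229 (T t14 (L l258 (T t13 N)))))))) (K a85 (M a16 (F (T t97 (L l144 (L l258 (T t190 (L l94 (T t278 N)))))))) (K a213 (Fr a106 a192 l519 (Fr a42 a21 l68 (Fr a170 a234 l390 (Fr a255 a85 l476 (V t582))))) (K a42 (M a48 (F (L l234 (T t187 (L l258 (L l390 (T t13 (L l54 (L l229 (T t14 N)))))))))) (K a106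 (M a48 (F (T t1 (L l229 (L l498 (T t14 (L l229 (L l390 (L l498 (T t6 (L l390 (T t26 N)))))))))))) (K a170 (M a48 (F (T t3 (L l234 (T t11 (L l258 (L l390 (T t13 N)))))))) (K a191 (M a60 (F (T t463 (L l269 (T t1256 N))))) (K a255 (M a16 (F (T t112 (L l258 (L l266 (T t190 (L l289 (L l296 (T t191 N))))))))) N)))))))))))))))⟩
def e0_63__198_124 : Ent 4 := ⟨[a0, a63], [a198, a242], (M a149 (F (T t5 (T t175 (T t176 (T t177 (K a192 (M a53 (F (T t178 (L l229 (L l236 (T t179 (L l229 (L l236 (L l296 (T t180 N)))))))))) (K a21 (M a48 (F (T t7 (L l18 (L l229 (T t14 (L l258 (T t13 N)))))))) (K a85 (M a16 (F (T t97 (L l144 (L l258 (T t190 (L l94 (L l480 (T t278 N))))))))) (K a213 (Fr a106 a192 l519 (Fr a42 a21 l68 (Fr a170 a234 l390 (Fr a255 a85 l476 (V t582))))) (K a42 (M a48 (F (L l234 (T t187 (L l258 (L l390 (T t13 (L l54 (L l229 (T t14 N)))))))))) (K a106 (M a48 (F (T t1 (L l229 (L l498 (T t14 (L l229 (L l390 (L l498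 (T t6 (L l390 (T t26 N)))))))))))) (K a170 (M a48 (F (T t3 (L l234 (T t11 (L l258 (L l390 (T t13 N)))))))) (K a191 (M a240 (F (T t962 (L l444 (T t963 N))))) (K a255 (M a16 (F (T t112 (L l258 (L l266 (T t190 (L l289 (L l296 (T t191 N))))))))) N)))))))))))))))⟩
def e0_63__198_125 : Ent 4 := ⟨[a0, a63], [a198, a243], (M a48 (F (T t48 (L l481 (T t1 (L l481 (T t2 (L l481 (T t3 (L l481 (T t0 (K a16 (M a60 (F (T t138 (L l14 (L l18 (L l451 (T t67 (T t65 N)))))))) (K a32 (M a60 (F (T t138 (L l451 (T t67 (L l24 (L l28 (T t65 N)))))))) (K a21 (M a192 (F (T t54 (L l258 (T t27 (L l47 (L l234 (L l347 (T t29 N))))))))) (K a37 (M a192 (F (T t55 (L l47 (L l234 (L l301 (T t20 (L l265 (T t21 N))))))))) (K a53 (M a192 (F (T t55 (L l265 (L l491 (T t21 (T t31 N))))))) (K a26 (M a192 (F (T t33 (L l258 (T t27 (L l265 (T t21 N))))))) (K a42 (M a192 (F (T t33 (L l258 (T t27 (L l28 (L l234 (T t29 N)))))))) (K a58 (M a192 (F (T t57 (L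 l258 (T t27 (L l54 (L l498 (T t31 N)))))))) (K a15 (M a149 (L l481 (F (T t1274 (L l229 (T t6 (K a167 (M a91 (F (T t25 (L l229 (L l272 (L l339 (T t15 (L l229 (T t14 N))))))))) (K a91 (M a167 (F (T t25 (L l229 (L l272 (L l339 (T t15 (L l229 (T t14 N))))))))) N)))))))) N))))))))))))))))))))⟩
def e0_63__198_126 : Ent 4 := ⟨[a0, a63], [a198, a245], (M a149 (F (T t175 (L l275 (T t5 (L l266 (L l275 (T t176 (L l266 (T t177 (K a192 (M a29 (F (T t956 (L l272 (T t641 (L l272 (L l275 (L l296 (T t957 N))))))))) (K a21 (M a48 (F (T t7 (L l18 (L l229 (L l275 (T t14 (L l266 (T t13 N))))))))) (K a85 (M a5 (F (L l419 (T t1110 (L l144 (L l229 (L l275 (T t2104 (L l123 (T t2105 N)))))))))) (K a213 (Fr a106 a192 l519 (Fr a42 a21 l68 (Fr a170 a234 l390 (Fr a255 a85 l476 (V t582))))) (K a42 (M a48 (F (L l234 (L l419 (T t187 (L l266 (L l390 (T t13 (L l54 (L l229 (L l275 (T t14 N)))))))))))) (K a106 (M a12 (F (T t122 (L l408 (T t649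 (L l275 (L l390 (L l408 (T t960 (L l259 (L l275 (L l390 (T t961 N))))))))))))) (K a170 (M a48 (F (T t3 (L l234 (L l419 (T t11 (L l266 (L l390 (T t13 N))))))))) (K a191 (M a16 (F (T t97 (L l266 (T t190 (L l213 (L l275 (T t191 N)))))))) (K a255 (M a240 (F (T t2299 (L l440 (T t1091 (L l275 (L l296 (L l469 (T t1092 (L l419 (T t2107 N))))))))))) N)))))))))))))))))))⟩
def e0_63__198_127 : Ent 4 := ⟨[a0, a63], [a198, a246], (M a85 (L l276 (F (T t88 (T t52 (T t89 (T t90 (K a64 (M a252 (L l276 (F (T t5499 (L l76 (T t5500 (T t93 (K a214 (M a230 (F (T t91 (L l239 (T t497 N))))) (K a230 (M a214 (F (T t93 (L l278 (T t92 N))))) N))))))))) (K a192 (M a16 (L l276 (F (T t96 (L l339 (T t97 (L l296 (T t98 (K a214 (M a230 (F (T t96 (L l339 (T t97 (L l239 (L l296 (T t98 N)))))))) (K a230 (M a214 (F (T t96 (L l339 (T t97 (L l278 (L l296 (T t98 N)))))))) N)))))))))) (K a21 (M a48 (L l276 (F (T t99 (T t50 (L l47 (L l234 (T t100 (K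 a214 (M a230 (F (T t360 (T t50 (L l47 (L l234 (T t100 N))))))) (K a230 (M a214 (F (T t360 (T t50 (L l47 (L l234 (T t100 N))))))) N)))))))))) (K a149 (M a16 (L l276 (F (T t173 (L l375 (T t97 (L l170 (T t102 (K a214 (M a230 (F (T t173 (L l375 (T t97 (L l170 (T t102 N))))))) (K a230 (M a214 (F (T t173 (L l375 (T t97 (L l170 (T t102 N))))))) N)))))))))) (K a213 (Fr a170 a255 l476 (Fr a42 a21 l68 (Fr a106 a234 l390 (Fr a192 a149 l519 (V t581))))) (K a42 (M a48 (L l276 (F (T t364 (L l390 (T t50 (L l28 (L l234 (T t100 (K a214 (M a230 (F (T t364 (L l390 (T t50 (L l28 (L l234 (T t100 N)))))))) (K a230 (M a214 (F (T t364 (L l390 (T t50 (L l28 (L l234 (T t100 N)))))))) N))))))))))) (K a106 (M a48 (L l276 (F (T t1 (L l104 (T t509 (L l390 (T t50 (K a214 (M a230 (F (T t1699 (T t1 (L l390 (T t50 N)))))) (K a230 (M a214 (F (T t1699 (T t1 (L l390 (T t50 N)))))) N)))))))))) (K a170 (M a16 (L l276 (F (L l390 (L l404 (T t97 (L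 l390 (T t98 (L l234 (L l404 (T t113 (L l229 (L l404 (T t174 (K a214 (M a230 (F (L l390 (L l404 (T t97 (L l239 (L l390 (T t98 (L l234 (L l404 (T t113 (L l229 (L l404 (T t174 N)))))))))))))) (K a230 (M a214 (F (L l390 (L l404 (T t97 (L l278 (L l390 (T t98 (L l234 (L l404 (T t113 (L l229 (L l404 (T t174 N)))))))))))))) N)))))))))))))))) (K a255 (M a16 (L l276 (F (T t112 (L l234 (L l289 (T t113 (L l289 (L l296 (T t98 (K a214 (M a230 (F (T t112 (L l234 (L l289 (T t113 (L l239 (L l289 (L l296 (T t98 N)))))))))) (K a230 (M a214 (F (T t112 (L l234 (L l289 (T t113 (L l278 (L l289 (L l296 (T t98 N)))))))))) N)))))))))))) (K a214 (M a230 (F (T t90 (L l229 (L l456 (T t5509 (L l229 (T t5510 (K a21 (M a192 (F (T t5511 (L l229 (L l239 (T t5512 N)))))) (K a149 (M a16 (F (T t173 (L l375 (T t97 (L l170 (T t102 N))))))) (K a213 (Fr a170 a255 l476 (Fr a42 a21 l68 (Fr a106 a234 l390 (Fr a192 a149 l519 (V t581))))) (K a106 (Fr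 a21 a42 l68 (Fr a213 a149 l347 (Fr a255 a170 l476 (Fr a234 a192 l296 (V t5519))))) N)))))))))))) (K a230 (M a214 (F (T t90 (L l492 (T t5515 (T t5516 (K a21 (M a192 (F (T t5511 (L l234 (L l278 (T t5517 N)))))) (K a149 (M a16 (F (T t173 (L l375 (T t97 (L l170 (T t102 N))))))) (K a213 (Fr a170 a255 l476 (Fr a42 a21 l68 (Fr a106 a234 l390 (Fr a192 a149 l519 (V t581))))) (K a106 (Fr a21 a42 l68 (Fr a213 a149 l347 (Fr a255 a170 l476 (Fr a234 a192 l296 (V t5520))))) N)))))))))) N))))))))))))))))))⟩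
def e0_63__198_128 : Ent 4 := ⟨[a0, a63], [a198, a247], (M a149 (F (T t175 (L l278 (T t5 (L l265 (L l278 (T t176 (L l265 (T t177 (K a192 (M a53 (F (T t178 (L l229 (L l236 (T t179 (L l229 (L l236 (L l278 (L l296 (T t180 N))))))))))) (K a21 (M a48 (F (T t7 (L l18 (L l229 (T t14 (T t13 N))))))) (K a85 (M a4 (F (L l421 (T t519 (L l144 (L l229 (L l237 (L l278 (T t653 (L l126 (L l492 (T t654 N)))))))))))) (K a213 (Fr a106 a192 l519 (Fr a42 a21 l68 (Fr a170 a234 l390 (Fr a255 a85 l476 (V t582))))) (K a42 (M a48 (F (L l234 (T t187 (L l390 (T t13 (L l54 (L l229 (T t14 N))))))))) (K a106 (M a48 (F (T t1 (L l229 (L l498 (T t14 (L l229 (L l278 (L l390 (L l422 (L l498 (T t6 (L l278 (L l390 (T t26 N))))))))))))))) (K a170 (M a48 (F (T t3 (L l234 (T t11 (L l390 (T t13 N))))))) (K a191 (M a16 (F (T t97 (T t190 (L l213 (L l278 (T t191 N))))))) (K a255 (M a243 (F (T t2108 (L l439 (T t2109 (L l278 (L l296 (T t2110 (L l421 (T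 t2111 N)))))))))) N)))))))))))))))))))⟩
def e0_63__198_129 : Ent 4 := ⟨[a0, a63], [a198, a249], (M a85 (F (T t88 (T t52 (T t89 (T t90 (K a64 (M a16 (F (T t97 (L l84 (T t96 (L l116 (T t98 N))))))) (K a192 (M a16 (F (T t96 (L l339 (T t97 (L l296 (T t98 N))))))) (K a21 (M a48 (F (T t99 (T t50 (L l47 (L l234 (T t100 N))))))) (K a149 (M a16 (F (T t173 (L l375 (T t97 (L l170 (T t102 N))))))) (K a213 (Fr a170 a255 l476 (Fr a42 a21 l68 (Fr a106 a234 l390 (Fr a192 a149 l519 (V t581))))) (K a42 (M a48 (F (T t364 (L l390 (T t50 (L l28 (L l234 (T t100 N)))))))) (K a106 (M a48 (F (T t1 (L l104 (T t509 (L l390 (T t50 N))))))) (K a170 (M a16 (F (L l390 (L l404 (T t97 (L l390 (T t98 (L l234 (L l404 (T t113 (L l229 (L l404 (T t174 N))))))))))))) (K a255 (M a16 (F (T t112 (L l234 (L l289 (T t113 (L l289 (L l296 (T t98 N))))))))) N)))))))))))))))⟩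
def e0_63__198_130 : Ent 4 := ⟨[a0, a63], [a198, a251], (M a60 (F (T t67 (T t43 (T t68 (T t69 (K a20 (M a48 (F (T t2 (T t64 (L l11 (L l428 (T t235 N))))))) (K a40 (M a48 (F (T t64 (T t1 (L l52 (L l428 (T t235 N))))))) (K a21 (M a192 (F (T t72 (L l237 (L l347 (T t73 (L l347 (T t74 N)))))))) (K a41 (M a192 (F (T t77 (L l65 (L l265 (L l284 (T t35 (L l237 (T t73 N))))))))) (K a61 (M a192 (F (T t72 (L l65 (L l265 (L l284 (L l515 (T t35 (T t80 N))))))))) (K a22 (M a192 (F (T t72 (L l265 (T t21 (L l237 (T t73 N))))))) (K a42 (M a192 (F (T t79 (L l237 (T t73 (L l22 (T t74 N))))))) (K a62 (M a192 (F (T t72 (L l265 (L l284 (T t35 (L l66 (L l516 (T t80 N))))))))) (K a3 (M a170 (F (T t4824 (L l283 (L l284 (T t458 N)))))) N)))))))))))))))⟩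
def e0_63__198_131 : Ent 4 := ⟨[a0, a63], [a198, a255], (M a48 (F (T t48 (L l469 (T t1 (L l469 (T t2 (L l469 (T t3 (L l469 (T t0 (K a16 (M a60 (F (T t138 (L l14 (L l18 (L l475 (T t67 (T t65 N)))))))) (K a32 (M a60 (F (T t138 (L l475 (T t67 (L l24 (L l28 (T t65 N)))))))) (K a21 (M a192 (F (T t54 (L l266 (T t27 (L l47 (L l234 (L l289 (L l347 (T t29 N)))))))))) (K a37 (M a192 (F (T t54 (L l266 (T t27 (L l28 (L l47 (L l234 (L l289 (T t29 N)))))))))) (K a53 (M a12 (F (T t145 (L l47 (L l439 (T t122 (L l47 (T t146 N)))))))) (K a26 (M a192 (F (T t2113 (L l234 (L l289 (T t20 (L l234 (L l289 (T t29 N))))))))) (K a42 (M a192 (F (T t33 (L l266 (T t27 (L l28 (L l234 (L l289 (T t29 N))))))))) (K a58 (M a12 (F (T t145 (L l439 (T t122 (T t146 N)))))) (K a15 (M a192 (L l469 (F (T t54 (L l266 (L l483 (T t27 (L l234 (L l289 (T t29 (K a95 (M a175 (F (T t1922 (L l289 (L l325 (L l361 (T t22 (L l234 (L l289 (L l361 (T t29 N)))))))))))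 (K a175 (M a95 (F (T t1922 (L l213 (L l289 (L l325 (T t22 (L l234 (L l289 (T t29 N)))))))))) N)))))))))))) N))))))))))))))))))))⟩
def b0_63__198 : Blk 4 := ⟨[0, 63], [198], [1, 2, 3, 5, 6, 7, 9, 11, 15, 16, 17, 18, 19, 20, 22, 23, 24, 25, 26, 27, 28, 29, 30, 31, 48, 49, 50, 51, 53, 54, 55, 57, 59, 64, 65, 66, 67, 68, 69, 70, 71, 72, 73, 74, 75, 76, 77, 78, 79, 80, 81, 82, 83, 84, 85, 86, 87, 88, 89, 90, 91, 92, 93, 94, 95, 96, 97, 98, 99, 100, 101, 102, 103, 104, 105, 106, 107, 108, 109, 110, 111, 112, 113, 114, 115, 116, 117, 118, 119, 120, 121, 122, 123, 124, 125, 126, 127, 192, 193, 194, 195, 197, 199, 201, 203, 207, 208, 209, 210, 211, 212, 213, 214, 215, 216, 217, 218, 219, 220, 221, 222, 223, 240, 241, 242, 243, 245, 246, 247, 249, 251, 255], [e0_63__198_0, e0_63__198_1, e0_63__198_2, e0_63__198_3, e0_63__198_4, e0_63__198_5, e0_63__198_6, e0_63__198_7, e0_63__198_8, e0_63__198_9, e0_63__198_10, e0_63__198_11,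 e0_63__198_12, e0_63__198_13, e0_63__198_14, e0_63__198_15, e0_63__198_16, e0_63__198_17, e0_63__198_18, e0_63__198_19, e0_63__198_20, e0_63__198_21, e0_63__198_22, e0_63__198_23, e0_63__198_24, e0_63__198_25, e0_63__198_26, e0_63__198_27, e0_63__198_28, e0_63__198_29, e0_63__198_30, e0_63__198_31, e0_63__198_32, e0_63__198_33, e0_63__198_34, e0_63__198_35, e0_63__198_36, e0_63__198_37, e0_63__198_38, e0_63__198_39, e0_63__198_40, e0_63__198_41, e0_63__198_42, e0_63__198_43, e0_63__198_44, e0_63__198_45, e0_63__198_46, e0_63__198_47, e0_63__198_48, e0_63__198_49, e0_63__198_50, e0_63__198_51, e0_63__198_52, e0_63__198_53, e0_63__198_54, e0_63__198_55, e0_63__198_56, e0_63__198_57, e0_63__198_58, e0_63__198_59, e0_63__198_60, e0_63__198_61, e0_63__198_62, e0_63__198_63, e0_63__198_64, e0_63__198_65, e0_63__198_66, e0_63__198_67, e0_63__198_68, e0_63__198_69, e0_63__198_70, e0_63__198_71, e0_63__198_72, e0_63__198_73,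 e0_63__198_74, e0_63__198_75, e0_63__198_76, e0_63__198_77, e0_63__198_78, e0_63__198_79, e0_63__198_80, e0_63__198_81, e0_63__198_82, e0_63__198_83, e0_63__198_84, e0_63__198_85, e0_63__198_86, e0_63__198_87, e0_63__198_88, e0_63__198_89, e0_63__198_90, e0_63__198_91, e0_63__198_92, e0_63__198_93, e0_63__198_94, e0_63__198_95, e0_63__198_96, e0_63__198_97, e0_63__198_98, e0_63__198_99, e0_63__198_100, e0_63__198_101, e0_63__198_102, e0_63__198_103, e0_63__198_104, e0_63__198_105, e0_63__198_106, e0_63__198_107, e0_63__198_108, e0_63__198_109, e0_63__198_110, e0_63__198_111, e0_63__198_112, e0_63__198_113, e0_63__198_114, e0_63__198_115, e0_63__198_116, e0_63__198_117, e0_63__198_118, e0_63__198_119, e0_63__198_120, e0_63__198_121, e0_63__198_122, e0_63__198_123, e0_63__198_124, e0_63__198_125, e0_63__198_126, e0_63__198_127, e0_63__198_128, e0_63__198_129, e0_63__198_130, e0_63__198_131], by decide +kernel,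 by decide +kernel⟩

end Pool.Agent.Lib_TTT.K4
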