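import Pool.Agent.Lib_TTT.K4Base
import Pool.Agent.Lib_TTT.K4T00
import Pool.Agent.Lib_TTT.K4T01
import Pool.Agent.Lib_TTT.K4T02
import Pool.Agent.Lib_TTT.K4T03
import Pool.Agent.Lib_TTT.K4T04
import Pool.Agent.Lib_TTT.K4T05
import Pool.Agent.Lib_TTT.K4T06

/-! Certificates in `4^4`. -/

set_option autoImplicit false
set_option maxRecDepth 200000

namespace Pool.Agent.Lib_TTT.K4

open Lib_TTT AC DC

def e0_63__199_0 : Ent 4 := ⟨[a0, a63], [a199, a1], (M a85 (F (T t88 (L l65 (T t52 (T t89 (T t90 (K a64 (M a12 (F (T t124 (L l277 (T t572 N))))) (K a192 (M a16 (F (T t504 (L l314 (L l329 (L l494 (T t96 (L l296 (T t98 N))))))))) (K a21 (M a48 (L l65 (F (T t99 (T t50 (L l47 (T t100 (K a41 (M a61 (F (T t99 (L l41 (T t262 N))))) (K a61 (M a41 (F (T t99 (T t50 (L l35 (L l47 (T t100 N))))))) N))))))))) (K a149 (M a16 (F (T t101 (L l375 (T t97 (L l170 (T t102 N))))))) (K a213 (Fr a170 a255 l476 (Fr a42 a21 l68 (Fr a106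 a234 l390 (Fr a192 a149 l519 (V t581))))) (K a42 (M a48 (F (T t364 (L l390 (T t50 (L l28 (T t100 N))))))) (K a106 (M a48 (F (T t99 (L l65 (T t1 (L l390 (T t50 N))))))) (K a170 (M a16 (F (L l404 (T t113 (L l390 (T t98 (L l390 (L l404 (T t97 (L l229 (L l235 (L l404 (T t174 N))))))))))))) (K a255 (M a16 (F (T t504 (L l289 (T t113 (L l289 (L l296 (T t98 N)))))))) N))))))))))))))))⟩
def e0_63__199_1 : Ent 4 := ⟨[a0, a63], [a199, a2], (M a85 (F (T t52 (L l66 (T t88 (L l66 (T t89 (L l474 (T t90 (K a64 (M a16 (F (T t101 (L l66 (T t97 (L l66 (L l116 (T t98 N)))))))) (K a192 (M a16 (F (L l66 (T t112 (L l314 (L l494 (T t96 (L l66 (L l296 (T t98 N)))))))))) (K a21 (M a48 (F (T t99 (L l474 (T t50 (L l47 (T t100 N))))))) (K a149 (M a16 (F (T t101 (L l66 (L l375 (T t97 (L l66 (L l170 (T t102 N))))))))) (K a213 (Fr a170 a255 l476 (Fr a42 a21 l68 (Fr a106 a234 l390 (Fr a192 a149 l519 (V t581))))) (K a42 (M a62 (F (L l494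 (T t1693 (L l390 (L l474 (T t1694 (L l22 (L l277 (L l306 (T t1695 (L l306 (L l390 (L l474 (T t3621 N))))))))))))))) (K a106 (M a48 (F (T t99 (L l6 (T t1 (L l390 (L l474 (T t50 N)))))))) (K a170 (M a86 (F (L l174 (T t1703 (L l66 (L l390 (L l493 (T t369 (L l174 (L l306 (T t1701 (L l66 (L l174 (L l390 (T t1702 N))))))))))))))) (K a255 (M a16 (F (L l66 (T t112 (L l289 (T t113 (L l66 (L l289 (L l296 (T t98 N)))))))))) N))))))))))))))))))⟩
def e0_63__199_2 : Ent 4 := ⟨[a0, a63], [a199, a3], (M a192 (F (T t47 (L l475 (T t21 (L l475 (T t35 (L l475 (T t202 (L l475 (T t37 (K a64 (M a48 (F (T t56 (L l7 (T t1 (L l116 (L l144 (T t31 N)))))))) (K a128 (M a48 (F (T t54 (L l7 (T t1 (T t31 N)))))) (K a21 (M a48 (F (T t54 (L l453 (T t27 (L l47 (L l347 (T t29 N)))))))) (K a85 (M a16 (F (T t504 (L l453 (T t210 (L l94 (L l144 (T t211 N)))))))) (K a149 (M a48 (F (T t1922 (L l7 (L l347 (L l491 (T t1 (L l7 (L l170 (L l220 (L l347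 (L l491 (T t213 (L l7 (L l375 (T t214 N)))))))))))))))) (K a42 (M a48 (F (T t56 (L l453 (T t27 (L l28 (T t29 N))))))) (K a106 (M a48 (F (T t48 (L l453 (T t27 (L l7 (L l411 (T t213 (L l7 (L l104 (L l144 (L l390 (L l498 (T t214 N)))))))))))))) (K a170 (M a32 (F (T t612 (L l453 (T t218 (L l180 (L l220 (T t220 N)))))))) (K a255 (M a16 (L l475 (F (T t112 (L l266 (L l453 (T t210 (T t211 (K a87 (M a171 (F (T t112 (L l266 (L l453 (T t210 (T t211 N))))))) (K a171 (M a87 (F (T t112 (L l266 (L l453 (T t210 (T t211 N))))))) N)))))))))) N))))))))))))))))))))⟩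
def e0_63__199_3 : Ent 4 := ⟨[a0, a63], [a199, a4], (M a85 (L l314 (F (T t88 (L l50 (T t52 (T t89 (T t90 (K a64 (M a60 (L l314 (F (T t114 (L l277 (T t115 (K a69 (M a134 (L l84 (F (T t114 (L l277 (T t115 (K a74 (M a79 (F (T t114 (L l277 (T t115 N))))) (K a79 (M a74 (F (T t43 (L l46 (L l494 (T t1345 (L l137 (T t114 N)))))))) N)))))))) (K a134 (M a69 (F (T t69 (L l158 (T t5521 N))))) N)))))))) (K a192 (M a48 (L l314 (F (T t935 (L l50 (L l339 (T t1 (L l268 (T t50 (K a69 (M a134 (F (T t610 (L l268 (T t50 (L l494 (T t1367 N))))))) (K a134 (M a69 (F (T t1853 (L l1 (L l339 (T t2 N)))))) N))))))))))) (K a21 (M a69 (L l50 (F (T t5522 (T t5523 (T t5524 (T t5525 (K a38 (M a55 (F (T t5522 (L l26 (L l384 (T t5526 (T t5523 N))))))) (K a55 (M a38 (L l493 (F (T t5522 (T t5523 (T t5524 (T t5525 (K a151 (M a103 (F (T t5522 (L l169 (T t5527 (L l219 (T t5524 (L l421 (T t5528 N))))))))) (K a103 (M a151 (F (T t5522 (L l103 (T t5529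 (L l495 (T t5530 N))))))) N))))))))) N))))))))) (K a149 (M a48 (L l314 (F (T t99 (L l1 (T t2 (L l220 (T t50 (K a69 (M a134 (F (L l375 (T t0 (L l220 (T t50 (L l50 (L l170 (T t1658 N))))))))) (K a134 (M a69 (F (T t1853 (L l1 (T t2 N))))) N)))))))))) (K a213 (Fr a170 a255 l476 (Fr a42 a21 l68 (Fr a106 a234 l390 (Fr a192 a149 l519 (V t581))))) (K a42 (M a69 (F (T t5531 (T t5523 (L l390 (T t5532 (L l390 (L l494 (T t5533 N))))))))) (K a106 (M a48 (L l314 (F (T t99 (L l50 (T t1 (L l390 (T t50 (K a69 (M a134 (F (L l50 (T t1 (L l81 (T t5534 (L l390 (T t50 N)))))))) (K a134 (M a69 (F (T t1853 (L l50 (T t1 N))))) N)))))))))) (K a170 (M a48 (L l314 (F (L l50 (T t3 (L l404 (T t100 (L l229 (L l390 (T t51 (L l390 (L l404 (T t568 (K a69 (M a134 (F (L l50 (T t3 (L l404 (T t100 (L l390 (L l404 (T t568 (L l206 (L l229 (L l311 (L l390 (T t5535 N)))))))))))))) (K a134 (M a69 (F (T t1853 (L l1 (L l390 (T t2 N)))))) N)))))))))))))))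 (K a255 (M a20 (L l314 (F (T t1268 (L l277 (L l295 (T t2160 (L l277 (L l295 (L l296 (L l454 (L l493 (T t2161 (K a69 (M a134 (F (T t1268 (L l277 (L l295 (T t2160 (L l277 (L l295 (L l296 (L l454 (L l493 (T t2161 N)))))))))))) (K a134 (M a69 (F (T t1268 (L l158 (L l440 (T t5523 N)))))) N))))))))))))))) (K a69 (M a134 (F (T t168 (L l84 (T t88 (L l50 (T t52 (L l84 (T t90 (K a64 (M a12 (L l84 (F (L l81 (T t5536 (T t154 (K a74 (M a79 (F (T t154 (L l78 (L l81 (L l494 (T t5537 N))))))) (K a79 (M a74 (F (L l81 (T t5538 (L l137 (T t124 N)))))) N)))))))) (K a192 (M a16 (F (T t504 (L l84 (L l236 (T t1559 (L l296 (T t98 N)))))))) (K a21 (M a195 (L l50 (F (T t2230 (L l277 (L l493 (T t2035 (L l493 (T t910 (K a38 (M a55 (F (T t2230 (L l26 (L l77 (L l310 (T t5539 (T t910 N)))))))) (K a55 (M a38 (L l493 (F (L l15 (L l81 (T t5540 (T t2158 (K a151 (M a103 (F (L l15 (L l81 (T t5540 (L l11 (L l46 (L l84 (L l219 (T t5541 N))))))))))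 (K a103 (Fr a151 a107 l517 (V t2232)) N))))))))) N))))))))))) (K a149 (M a20 (F (L l351 (T t238 (L l220 (L l235 (L l277 (T t5542 (L l163 (L l494 (T t1387 N))))))))))) (K a213 (Fr a170 a255 l476 (Fr a42 a21 l68 (Fr a106 a234 l390 (Fr a192 a149 l519 (V t581))))) (K a42 (M a240 (F (T t5382 (L l390 (T t386 (L l84 (T t2804 N))))))) (K a106 (M a60 (F (L l46 (T t1563 (L l50 (T t68 (L l390 (T t114 N)))))))) (K a170 (M a16 (F (L l404 (T t113 (L l390 (T t98 (L l390 (L l404 (T t97 (L l229 (L l235 (L l311 (L l404 (T t174 N)))))))))))))) (K a255 (M a16 (F (T t504 (L l289 (T t113 (L l289 (L l296 (T t98 N)))))))) N)))))))))))))))))) (K a134 (M a69 (F (T t88 (L l158 (T t2422 (L l158 (T t2466 N))))))) N)))))))))))))))))))⟩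
def e0_63__199_4 : Ent 4 := ⟨[a0, a63], [a199, a5], (M a85 (F (T t88 (L l47 (T t52 (T t89 (T t90 (K a64 (M a240 (F (T t933 (T t387 N)))) (K a192 (M a48 (F (T t935 (L l47 (L l339 (T t3 (L l268 (T t50 N)))))))) (K a21 (M a60 (L l47 (F (T t5413 (L l65 (L l277 (T t523 (T t114 (K a37 (M a53 (F (T t5413 (L l50 (L l71 (L l493 (T t937 N))))))) (K a53 (M a37 (F (T t5413 (L l35 (L l65 (L l277 (T t523 (T t114 N)))))))) N)))))))))) (K a149 (M a48 (F (T t99 (L l47 (T t3 (L l220 (T t50 N))))))) (K a213 (Fr a170 a255 l476 (Fr a42 a21 l68 (Fr a106 a234 l390 (Fr a192 a149 l519 (V t581))))) (K a42 (M a48 (F (T t364 (L l390 (T t50 (L l28 (L l47 (T t100 N)))))))) (K a106 (M a48 (F (T t99 (L l47 (L l411 (T t3 (L l390 (T t50 N)))))))) (K a170 (M a4 (F (L l390 (L l464 (T t129 (L l277 (L l390 (T t131 (L l277 (L l464 (T t130 (L l277 (L l464 (T t938 N)))))))))))))) (K a255 (M a4 (F (T t129 (L l265 (L l277 (T t130 (L l265 (L l277 (L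 l296 (T t131 N)))))))))) N))))))))))))))))⟩
def e0_63__199_5 : Ent 4 := ⟨[a0, a63], [a199, a6], (M a85 (F (T t88 (T t52 (T t89 (T t90 (K a64 (M a12 (F (T t124 (L l277 (T t572 N))))) (K a192 (M a16 (F (T t504 (L l314 (L l494 (T t96 (L l296 (T t98 N)))))))) (K a21 (M a48 (F (T t99 (T t50 (L l47 (T t100 N)))))) (K a149 (M a16 (F (T t101 (L l375 (T t97 (L l170 (T t102 N))))))) (K a213 (Fr a170 a255 l476 (Fr a42 a21 l68 (Fr a106 a234 l390 (Fr a192 a149 l519 (V t581))))) (K a42 (M a48 (F (T t364 (L l390 (T t50 (L l28 (T t100 N))))))) (K a106 (M a48 (F (T t364 (L l6 (T t1 (L l390 (T t50 N))))))) (K a170 (M a16 (F (L l404 (T t113 (L l390 (T t98 (L l390 (L l404 (T t97 (L l229 (L l235 (L l404 (T t174 N))))))))))))) (K a255 (M a16 (F (T t504 (L l289 (T t113 (L l289 (L l296 (T t98 N)))))))) N)))))))))))))))⟩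
def e0_63__199_6 : Ent 4 := ⟨[a0, a63], [a199, a7], (M a149 (L l313 (F (T t5 (T t175 (T t176 (T t177 (K a192 (M a31 (L l313 (F (T t2312 (L l1 (L l268 (T t651 (L l268 (L l296 (T t2313 (K a71 (M a135 (F (L l83 (T t2314 (L l268 (L l296 (T t2313 N))))))) (K a135 (M a71 (F (T t5543 (L l1 (L l268 (T t651 (L l268 (L l296 (T t2313 N))))))))) N)))))))))))) (K a21 (M a48 (L l313 (F (T t1267 (L l18 (L l229 (T t14 (T t13 (K a71 (M a135 (F (T t1267 (L l18 (L l229 (T t14 (T t13 N))))))) (K a135 (M a71 (F (T t13 (L l229 (T t1081 N))))) N)))))))))) (K a85 (M a48 (L l313 (F (T t11 (L l7 (T t1 (L l144 (T t13 (K a71 (M a135 (F (T t11 (L l7 (T t1 (L l144 (T t13 N))))))) (K a135 (M a71 (F (L l229 (T t1081 (L l144 (T t13 N)))))) N)))))))))) (K a213 (Fr a106 a192 l519 (Fr a42 a21 l68 (Fr a170 a234 l390 (Fr a255 a85 l476 (V t582))))) (K a42 (M a3 (L l313 (F (L l22 (T t5544 (L l235 (L l390 (T t1883 (L l22 (T t615 (K a71 (M a135 (F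 (L l22 (T t2320 (L l83 (L l235 (L l390 (T t1883 (L l22 (T t615 N)))))))))) (K a135 (M a71 (F (L l159 (T t1118 (L l49 (L l459 (T t5545 N))))))) N)))))))))))) (K a106 (M a3 (L l313 (F (L l49 (T t353 (L l393 (T t615 (L l390 (L l393 (L l457 (T t616 (L l390 (T t617 (K a71 (M a135 (F (L l516 (T t358 (L l393 (T t615 (L l390 (T t617 (L l125 (L l390 (L l393 (L l457 (T t616 N))))))))))))) (K a135 (M a71 (F (L l159 (T t1118 (L l390 (L l393 (L l457 (T t616 N)))))))) N))))))))))))))) (K a170 (M a48 (L l313 (F (T t11 (L l7 (L l462 (T t1 (L l390 (T t13 (K a71 (M a135 (F (T t11 (L l7 (L l462 (T t1 (L l390 (T t13 N)))))))) (K a135 (M a71 (F (L l229 (T t1081 (L l390 (T t13 N)))))) N))))))))))) (K a191 (M a240 (L l313 (F (T t1092 (T t1091 (L l190 (T t1937 (K a71 (M a135 (F (T t962 (L l315 (T t2316 N))))) (K a135 (M a71 (F (T t962 (L l153 (L l315 (T t963 N)))))) N))))))))) (K a255 (M a12 (L l313 (F (T t647 (L l439 (T t122 (L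 l290 (T t648 (K a71 (M a135 (F (T t1252 (L l315 (T t2318 N))))) (K a135 (M a71 (F (T t1252 (L l296 (T t2638 (L l153 (L l290 (T t648 N)))))))) N)))))))))) (K a71 (M a135 (F (T t5 (T t175 (T t176 (T t177 (K a192 (M a5 (F (L l83 (T t2328 (L l77 (L l296 (L l314 (T t1038 N)))))))) (K a21 (M a240 (F (T t962 (L l315 (T t2316 N))))) (K a85 (M a240 (F (L l144 (T t1091 (L l315 (T t2316 N)))))) (K a213 (Fr a106 a192 l519 (Fr a42 a21 l68 (Fr a170 a234 l390 (Fr a255 a85 l476 (V t582))))) (K a42 (M a132 (F (L l457 (T t2329 (L l390 (T t1775 N)))))) (K a106 (M a5 (F (L l83 (L l98 (T t2330 (L l77 (L l314 (L l390 (T t1038 N))))))))) (K a170 (M a132 (F (L l314 (T t2331 (L l390 (L l464 (T t2332 N))))))) (K a191 (M a240 (F (T t962 (L l315 (T t2316 N))))) (K a255 (M a132 (F (L l457 (T t2329 (L l470 (T t1775 N)))))) N))))))))))))))) (K a135 (M a71 (F (T t5 (T t175 (T t176 (T t177 (K a192 (M a1 (F (L l159 (T t1085 (L l296 (T t1094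 N)))))) (K a21 (M a48 (F (T t13 (L l229 (T t1081 N))))) (K a85 (M a48 (F (L l229 (T t1081 (L l144 (T t13 N)))))) (K a213 (Fr a106 a192 l519 (Fr a42 a21 l68 (Fr a170 a234 l390 (Fr a255 a85 l476 (V t582))))) (K a42 (M a101 (F (T t5546 (L l54 (L l229 (T t1209 N)))))) (K a106 (M a1 (F (L l159 (T t1085 (L l390 (T t1094 N)))))) (K a170 (M a48 (F (L l229 (T t1081 (L l390 (T t13 N)))))) (K a191 (M a240 (F (T t962 (L l153 (L l315 (T t963 N)))))) (K a255 (M a1 (F (L l159 (T t1085 (L l261 (L l296 (T t1094 N))))))) N))))))))))))))) N))))))))))))))))))⟩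
def e0_63__199_7 : Ent 4 := ⟨[a0, a63], [a199, a8], (M a85 (F (T t52 (L l56 (T t88 (L l56 (T t89 (L l464 (T t90 (K a64 (M a16 (F (T t101 (L l56 (T t97 (L l56 (L l116 (T t98 N)))))))) (K a192 (M a16 (F (L l56 (T t112 (L l314 (L l494 (T t96 (L l56 (L l296 (T t98 N)))))))))) (K a21 (M a48 (F (T t99 (L l464 (T t50 (L l47 (T t100 N))))))) (K a149 (M a16 (F (T t101 (L l56 (L l375 (T t97 (L l56 (L l170 (T t102 N))))))))) (K a213 (Fr a170 a255 l476 (Fr a42 a21 l68 (Fr a106 a234 l390 (Fr a192 a149 l519 (V t581))))) (K a42 (M a59 (F (L l493 (T t104 (L l390 (L l464 (L l493 (T t105 (L l316 (L l390 (L l464 (T t107 (L l26 (L l316 (L l493 (T t106 N)))))))))))))))) (K a106 (M a48 (F (T t99 (L l2 (T t1 (L l390 (L l464 (T t50 N)))))))) (K a170 (M a89 (F (L l178 (T t108 (L l56 (L l390 (T t109 (L l178 (L l314 (L l316 (T t110 (L l56 (L l178 (L l390 (T t111 N))))))))))))))) (K a255 (M a16 (F (L l56 (T t112 (L l289 (T t113 (L l56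 (L l289 (L l296 (T t98 N)))))))))) N))))))))))))))))))⟩
def e0_63__199_8 : Ent 4 := ⟨[a0, a63], [a199, a9], (M a85 (F (T t88 (T t52 (T t89 (T t90 (K a64 (M a12 (F (T t124 (L l2 (L l277 (T t572 N)))))) (K a192 (M a16 (F (T t504 (L l314 (L l494 (T t96 (L l296 (T t98 N)))))))) (K a21 (M a48 (F (T t99 (T t50 (L l47 (T t100 N)))))) (K a149 (M a16 (F (T t101 (L l375 (T t97 (L l170 (T t102 N))))))) (K a213 (Fr a170 a255 l476 (Fr a42 a21 l68 (Fr a106 a234 l390 (Fr a192 a149 l519 (V t581))))) (K a42 (M a48 (F (T t364 (L l390 (T t50 (L l28 (T t100 N))))))) (K a106 (M a48 (F (T t364 (L l2 (T t1 (L l390 (T t50 N))))))) (K a170 (M a16 (F (L l404 (T t113 (L l390 (T t98 (L l390 (L l404 (T t97 (L l229 (L l235 (L l404 (T t174 N))))))))))))) (K a255 (M a16 (F (T t504 (L l289 (T t113 (L l289 (L l296 (T t98 N)))))))) N)))))))))))))))⟩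
def e0_63__199_9 : Ent 4 := ⟨[a0, a63], [a199, a10], (M a85 (F (T t52 (L l54 (T t88 (L l54 (T t89 (L l462 (T t90 (K a64 (M a16 (F (L l54 (T t97 (L l84 (L l314 (L l494 (T t96 (L l54 (L l116 (T t98 N))))))))))) (K a192 (M a16 (F (L l54 (L l339 (T t97 (L l314 (L l494 (T t96 (L l54 (L l296 (T t98 N))))))))))) (K a21 (M a48 (F (T t99 (L l462 (T t50 (L l47 (L l318 (T t100 N)))))))) (K a149 (M a48 (F (T t99 (L l54 (L l375 (T t0 (L l220 (L l462 (T t50 N))))))))) (K a213 (Fr a170 a255 l476 (Fr a42 a21 l68 (Fr a106 a234 l390 (Fr a192 a149 l519 (V t581))))) (K a42 (M a58 (F (T t118 (L l390 (L l462 (T t119 (L l28 (L l318 (T t120 (L l318 (L l390 (L l462 (T t121 N))))))))))))) (K a106 (M a12 (F (T t122 (L l2 (L l132 (L l277 (T t123 (L l390 (L l462 (T t124 N)))))))))) (K a170 (M a90 (F (L l180 (T t125 (L l54 (L l390 (T t126 (L l180 (L l318 (T t127 (L l54 (L l180 (L l390 (T t128 N)))))))))))))) (K a255 (M a4 (F (L l2 (L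 l54 (T t129 (L l2 (L l265 (L l277 (T t130 (L l54 (L l265 (L l277 (L l296 (T t131 N)))))))))))))) N))))))))))))))))))⟩
def e0_63__199_10 : Ent 4 := ⟨[a0, a63], [a199, a11], (M a85 (F (T t88 (T t52 (T t89 (T t90 (K a64 (M a12 (F (T t124 (L l2 (L l277 (T t572 N)))))) (K a192 (M a16 (F (T t112 (L l314 (L l494 (T t96 (L l296 (T t98 N)))))))) (K a21 (M a48 (F (T t99 (T t50 (L l47 (T t100 N)))))) (K a149 (M a16 (F (T t112 (L l235 (L l314 (T t173 (L l57 (L l170 (T t102 N))))))))) (K a213 (Fr a170 a255 l476 (Fr a42 a21 l68 (Fr a106 a234 l390 (Fr a192 a149 l519 (V t581))))) (K a42 (M a48 (F (T t364 (L l390 (T t50 (L l28 (T t100 N))))))) (K a106 (M a48 (F (T t99 (L l2 (L l7 (T t1 (L l390 (T t50 N)))))))) (K a170 (M a16 (F (L l404 (T t113 (L l390 (T t98 (L l7 (L l390 (L l404 (T t97 (L l229 (L l235 (L l404 (T t174 N)))))))))))))) (K a255 (M a16 (F (T t112 (L l289 (T t113 (L l289 (L l296 (T t98 N)))))))) N)))))))))))))))⟩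
def e0_63__199_11 : Ent 4 := ⟨[a0, a63], [a199, a12], (M a60 (F (T t116 (L l9 (T t67 (L l9 (T t43 (L l9 (T t68 (L l9 (T t69 (K a20 (M a48 (F (T t138 (L l3 (L l11 (T t1 (L l11 (L l313 (T t235 N))))))))) (K a40 (M a48 (F (T t48 (L l74 (T t64 (L l52 (L l313 (T t235 N)))))))) (K a21 (M a192 (F (T t2647 (L l235 (L l338 (L l347 (T t73 (L l277 (L l347 (T t74 N)))))))))) (K a41 (M a192 (F (T t1343 (L l466 (T t79 (L l65 (L l470 (T t35 N)))))))) (K a61 (M a192 (F (T t1800 (L l466 (T t79 (L l493 (T t80 N))))))) (K a22 (M a192 (F (T t614 (L l11 (L l466 (T t79 (L l11 (L l470 (T t35 N))))))))) (K a42 (M a192 (F (T t614 (L l466 (T t79 (L l22 (L l277 (T t74 N)))))))) (K a62 (M a192 (F (T t57 (L l466 (T t79 (L l66 (L l493 (L l516 (T t80 N))))))))) (K a3 (M a84 (L l9 (F (T t2648 (T t1415 (L l470 (L l475 (L l477 (T t1416 (K a9 (M a6 (F (T t1414 (L l70 (L l493 (T t2649 N)))))) (K a6 (M a9 (F (T t1414 (L l70 (T t2650 N))))) N)))))))))))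 N))))))))))))))))))))⟩
def e0_63__199_12 : Ent 4 := ⟨[a0, a63], [a199, a13], (M a85 (F (T t88 (T t52 (T t89 (T t90 (K a64 (M a60 (F (T t114 (L l277 (T t115 N))))) (K a192 (M a16 (F (T t504 (L l314 (L l494 (T t96 (L l296 (T t98 N)))))))) (K a21 (M a48 (F (T t99 (T t50 (L l47 (T t100 N)))))) (K a149 (M a16 (F (T t101 (L l3 (L l375 (T t97 (L l170 (T t102 N)))))))) (K a213 (Fr a170 a255 l476 (Fr a42 a21 l68 (Fr a106 a234 l390 (Fr a192 a149 l519 (V t581))))) (K a42 (M a48 (F (T t364 (L l390 (T t50 (L l28 (T t100 N))))))) (K a106 (M a48 (F (T t99 (L l3 (T t1 (L l390 (T t50 N))))))) (K a170 (M a16 (F (L l404 (T t113 (L l390 (T t98 (L l3 (L l390 (L l404 (T t97 (L l229 (L l235 (L l404 (T t174 N)))))))))))))) (K a255 (M a16 (F (T t504 (L l289 (T t113 (L l289 (L l296 (T t98 N)))))))) N)))))))))))))))⟩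
def e0_63__199_13 : Ent 4 := ⟨[a0, a63], [a199, a14], (M a85 (F (T t88 (T t52 (T t89 (T t90 (K a64 (M a12 (F (T t124 (L l277 (T t572 N))))) (K a192 (M a16 (F (T t112 (L l314 (L l494 (T t96 (L l296 (T t98 N)))))))) (K a21 (M a48 (F (T t99 (T t50 (L l47 (T t100 N)))))) (K a149 (M a16 (F (T t112 (L l235 (L l314 (T t173 (L l72 (L l170 (T t102 N))))))))) (K a213 (Fr a170 a255 l476 (Fr a42 a21 l68 (Fr a106 a234 l390 (Fr a192 a149 l519 (V t581))))) (K a42 (M a48 (F (T t364 (L l390 (T t50 (L l28 (T t100 N))))))) (K a106 (M a48 (F (T t99 (L l3 (L l6 (T t1 (L l390 (T t50 N)))))))) (K a170 (M a16 (F (L l404 (T t113 (L l390 (T t98 (L l3 (L l390 (L l404 (T t97 (L l229 (L l235 (L l404 (T t174 N)))))))))))))) (K a255 (M a16 (F (T t112 (L l289 (T t113 (L l289 (L l296 (T t98 N)))))))) N)))))))))))))))⟩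
def e0_63__199_14 : Ent 4 := ⟨[a0, a63], [a199, a15], (M a192 (F (T t47 (L l469 (T t21 (L l469 (T t35 (L l469 (T t202 (L l469 (T t37 (K a64 (M a12 (F (T t161 (L l73 (T t122 (L l80 (L l144 (T t160 N)))))))) (K a128 (M a12 (F (T t1252 (L l220 (L l481 (T t450 (T t160 N))))))) (K a21 (M a48 (F (T t54 (L l483 (T t27 (L l47 (L l347 (T t29 N)))))))) (K a85 (M a48 (F (L l483 (T t27 (L l235 (L l325 (L l347 (T t20 (L l144 (L l229 (L l368 (T t224 N)))))))))))) (K a149 (M a12 (F (T t1725 (L l73 (L l347 (L l371 (T t122 (L l73 (L l202 (L l220 (L l347 (L l371 (T t227 (L l73 (L l493 (L l495 (T t228 N))))))))))))))))) (K a42 (M a48 (F (T t56 (L l483 (T t27 (L l28 (T t29 N))))))) (K a106 (M a12 (F (L l73 (T t122 (L l327 (T t156 (L l73 (L l501 (T t227 (L l73 (L l132 (L l144 (L l390 (L l408 (L l493 (T t228 N)))))))))))))))) (K a170 (M a48 (F (L l483 (T t19 (L l229 (L l235 (L l325 (L l390 (T t206 (L l220 (L l404 (T t29 N))))))))))))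 (K a255 (M a48 (L l469 (F (T t54 (L l266 (L l483 (T t27 (L l289 (T t29 (K a95 (M a175 (F (T t1922 (L l235 (L l289 (L l325 (L l361 (T t22 (L l289 (L l361 (T t29 N))))))))))) (K a175 (M a95 (F (T t1922 (L l213 (L l235 (L l289 (L l325 (T t22 (L l289 (T t29 N)))))))))) N))))))))))) N))))))))))))))))))))⟩
def e0_63__199_15 : Ent 4 := ⟨[a0, a63], [a199, a16], (M a85 (F (T t88 (L l18 (T t52 (T t89 (T t90 (K a64 (M a12 (F (T t124 (L l277 (T t572 N))))) (K a192 (M a4 (F (L l10 (T t129 (L l277 (L l344 (T t1399 (L l277 (L l296 (T t131 N)))))))))) (K a21 (M a12 (L l18 (F (L l277 (T t1368 (T t124 (L l15 (L l277 (T t574 (K a26 (M a31 (F (L l14 (T t1369 (L l277 (T t2427 N)))))) (K a31 (M a26 (F (L l277 (T t1368 (T t124 (L l13 (L l15 (L l277 (T t574 N))))))))) N))))))))))) (K a149 (M a4 (F (L l10 (T t129 (L l277 (L l344 (T t1371 (L l202 (T t1372 N))))))))) (K a213 (Fr a170 a255 l476 (Fr a42 a21 l68 (Fr a106 a234 l390 (Fr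 a192 a149 l519 (V t581))))) (K a42 (M a240 (F (T t1384 (L l390 (T t386 (T t1385 N)))))) (K a106 (M a12 (F (L l18 (T t122 (L l132 (L l277 (L l344 (T t123 (L l390 (T t124 N)))))))))) (K a170 (M a4 (F (L l390 (L l464 (L l493 (T t519 (L l277 (L l390 (T t131 (L l277 (L l464 (T t130 (L l277 (L l464 (T t938 N))))))))))))))) (K a255 (M a4 (F (L l10 (T t129 (L l265 (L l277 (T t130 (L l265 (L l277 (L l296 (T t131 N))))))))))) N))))))))))))))))⟩
def e0_63__199_16 : Ent 4 := ⟨[a0, a63], [a199, a17], (M a85 (F (T t88 (L l15 (T t52 (T t89 (T t90 (K a64 (M a12 (F (T t124 (L l277 (T t572 N))))) (K a192 (M a16 (F (T t112 (L l314 (L l494 (T t96 (L l296 (T t98 N)))))))) (K a21 (M a48 (L l15 (F (T t99 (T t50 (L l47 (T t100 (K a25 (M a29 (F (T t50 (L l50 (L l314 (T t2175 N)))))) (K a29 (M a25 (F (T t99 (T t50 (L l47 (T t100 N)))))) N))))))))) (K a149 (M a16 (F (T t112 (L l235 (L l314 (T t173 (L l170 (T t102 N)))))))) (K a213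 (Fr a170 a255 l476 (Fr a42 a21 l68 (Fr a106 a234 l390 (Fr a192 a149 l519 (V t581))))) (K a42 (M a48 (F (L l28 (T t99 (L l390 (T t50 (L l28 (T t100 N)))))))) (K a106 (M a48 (F (T t99 (L l15 (T t1 (L l390 (T t50 N))))))) (K a170 (M a16 (F (L l404 (T t113 (L l390 (T t98 (L l390 (L l404 (T t97 (L l229 (L l235 (L l404 (T t174 N))))))))))))) (K a255 (M a16 (F (T t112 (L l289 (T t113 (L l289 (L l296 (T t98 N)))))))) N))))))))))))))))⟩
def e0_63__199_17 : Ent 4 := ⟨[a0, a63], [a199, a18], (M a85 (F (T t88 (T t52 (T t89 (T t90 (K a64 (M a60 (F (T t114 (L l277 (T t115 N))))) (K a192 (M a16 (F (T t260 (L l339 (T t97 (L l296 (T t98 N))))))) (K a21 (M a48 (F (T t99 (T t50 (L l47 (T t100 N)))))) (K a149 (M a16 (F (T t112 (L l235 (L l314 (T t173 (L l16 (L l170 (L l366 (T t102 N)))))))))) (K a213 (Fr a170 a255 l476 (Fr a42 a21 l68 (Fr a106 a234 l390 (Fr a192 a149 l519 (V t581))))) (K a42 (M a48 (F (L l28 (T t99 (L l390 (T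 t50 (L l28 (T t100 N)))))))) (K a106 (M a48 (F (T t1 (L l104 (L l314 (L l494 (T t509 (L l390 (T t50 N))))))))) (K a170 (M a16 (F (L l404 (T t113 (L l390 (T t98 (L l390 (L l404 (T t97 (L l229 (L l235 (L l404 (T t174 N))))))))))))) (K a255 (M a16 (F (T t112 (L l289 (T t113 (L l289 (L l296 (T t98 N)))))))) N)))))))))))))))⟩
def e0_63__199_18 : Ent 4 := ⟨[a0, a63], [a199, a19], (M a85 (F (T t88 (T t52 (T t89 (T t90 (K a64 (M a12 (F (T t124 (L l277 (T t572 N))))) (K a192 (M a16 (F (T t112 (L l314 (L l367 (L l494 (T t96 (L l296 (L l367 (T t98 N)))))))))) (K a21 (M a48 (F (L l367 (T t99 (T t50 (L l47 (L l367 (T t100 N)))))))) (K a149 (M a16 (F (T t112 (L l235 (L l314 (L l367 (T t173 (L l170 (T t102 N))))))))) (K a213 (Fr a170 a255 l476 (Fr a42 a21 l68 (Fr a106 a234 l390 (Fr a192 a149 l519 (V t581))))) (K a42 (M a48 (F (L l10 (T t364 (L l390 (T t50 (L l28 (L l367 (T t100 N))))))))) (K a106 (M a48 (F (T t1 (L l104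 (L l314 (L l367 (L l494 (T t509 (L l390 (T t50 N)))))))))) (K a170 (M a16 (F (L l390 (L l404 (T t112 (L l367 (L l390 (T t98 (L l367 (L l404 (T t113 (L l229 (L l235 (L l367 (L l404 (T t174 N)))))))))))))))) (K a255 (M a16 (F (T t112 (L l289 (L l367 (T t113 (L l289 (L l296 (L l367 (T t98 N)))))))))) N)))))))))))))))⟩
def e0_63__199_19 : Ent 4 := ⟨[a0, a63], [a199, a20], (M a85 (F (T t88 (L l11 (T t52 (T t89 (T t90 (K a64 (M a12 (F (T t124 (L l277 (T t572 N))))) (K a192 (M a16 (F (T t112 (L l314 (L l494 (T t96 (L l296 (T t98 N)))))))) (K a21 (M a48 (L l11 (F (T t99 (T t50 (L l47 (T t100 (K a22 (M a23 (F (T t50 (L l19 (T t172 N))))) (K a23 (M a22 (F (T t99 (T t50 (L l47 (T t100 N)))))) N))))))))) (K a149 (M a16 (F (T t112 (L l235 (L l314 (T t173 (L l170 (T t102 N)))))))) (K a213 (Fr a170 a255 l476 (Fr a42 a21 l68 (Fr a106 a234 l390 (Fr a192 a149 l519 (V t581))))) (K a42 (M a48 (F (L l28 (T t99 (L l390 (T t50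 (L l28 (T t100 N)))))))) (K a106 (M a48 (F (T t99 (L l11 (T t1 (L l390 (T t50 N))))))) (K a170 (M a16 (F (L l404 (T t113 (L l390 (T t98 (L l390 (L l404 (T t97 (L l229 (L l235 (L l404 (T t174 N))))))))))))) (K a255 (M a16 (F (T t112 (L l289 (T t113 (L l289 (L l296 (T t98 N)))))))) N))))))))))))))))⟩
def e0_63__199_20 : Ent 4 := ⟨[a0, a63], [a199, a22], (M a192 (F (T t21 (L l11 (T t35 (T t202 (L l66 (T t37 (K a64 (M a48 (F (T t56 (L l11 (T t1 (L l66 (L l116 (L l144 (T t31 N))))))))) (K a128 (M a48 (F (T t54 (L l11 (T t1 (L l66 (T t31 N))))))) (K a21 (M a20 (F (T t948 (L l66 (L l277 (L l347 (T t949 (L l65 (L l235 (L l347 (T t950 N))))))))))) (K a85 (M a16 (F (T t210 (L l66 (T t97 (L l16 (L l66 (L l94 (L l144 (T t211 N)))))))))) (K a149 (M a48 (F (T t837 (L l11 (L l347 (L l491 (T t1 (L l11 (L l170 (L l220 (L l347 (L l491 (T t213 (L l66 (L l375 (T t214 N)))))))))))))))) (K a42 (M a2 (F (T t2679 (L l11 (L l390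 (T t1804 (L l390 (T t1365 N)))))))) (K a106 (M a48 (F (T t27 (L l11 (T t1 (L l11 (L l411 (T t213 (L l66 (L l104 (L l144 (L l390 (L l498 (T t214 N)))))))))))))) (K a170 (M a32 (F (T t218 (L l11 (T t219 (L l11 (L l51 (L l180 (L l220 (T t220 N)))))))))) (K a255 (M a16 (F (T t1805 (L l66 (L l469 (T t97 (L l16 (L l66 (T t211 N))))))))) N)))))))))))))))))⟩
def e0_63__199_21 : Ent 4 := ⟨[a0, a63], [a199, a23], (M a149 (F (T t5 (L l11 (T t175 (T t176 (T t177 (K a192 (M a53 (F (T t178 (L l229 (L l236 (T t179 (L l229 (L l236 (L l296 (L l314 (T t180 N))))))))))) (K a21 (M a48 (L l11 (F (T t1267 (L l18 (L l229 (T t14 (T t13 (K a20 (M a22 (F (T t1267 (L l14 (L l18 (L l229 (T t14 (T t13 N)))))))) (K a22 (M a20 (F (T t1267 (L l19 (L l50 (L l314 (T t183 N))))))) N)))))))))) (K a85 (M a16 (F (L l17 (T t97 (L l144 (T t190 (L l94 (T t278 N)))))))) (K a213 (Fr a106 a192 l519 (Fr a42 a21 l68 (Fr a170 a234 l390 (Fr a255 a85 l476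 (V t582))))) (K a42 (M a48 (F (T t11 (L l390 (T t13 (L l54 (L l229 (T t14 N)))))))) (K a106 (M a48 (F (L l11 (T t1 (L l229 (L l498 (T t14 (L l229 (L l390 (L l498 (T t6 (L l390 (T t26 N))))))))))))) (K a170 (M a48 (F (T t11 (L l11 (L l462 (T t1 (L l390 (T t13 N)))))))) (K a191 (M a252 (F (T t940 (T t941 N)))) (K a255 (M a16 (F (T t112 (L l266 (T t190 (L l289 (L l296 (T t191 N)))))))) N))))))))))))))))⟩
def e0_63__199_22 : Ent 4 := ⟨[a0, a63], [a199, a24], (M a85 (F (T t88 (T t52 (T t89 (T t90 (K a64 (M a12 (F (T t124 (L l52 (L l277 (T t572 N)))))) (K a192 (M a16 (F (T t260 (L l339 (T t97 (L l296 (T t98 N))))))) (K a21 (M a48 (F (T t99 (T t50 (L l47 (T t100 N)))))) (K a149 (M a16 (F (T t112 (L l235 (L l314 (T t173 (L l12 (L l170 (L l356 (T t102 N)))))))))) (K a213 (Fr a170 a255 l476 (Fr a42 a21 l68 (Fr a106 a234 l390 (Fr a192 a149 l519 (V t581))))) (K a42 (M a48 (F (L l28 (T t99 (L l390 (T t50 (L l28 (T t100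 N)))))))) (K a106 (M a48 (F (T t1 (L l104 (L l314 (L l494 (T t509 (L l390 (T t50 N))))))))) (K a170 (M a16 (F (L l404 (T t113 (L l390 (T t98 (L l390 (L l404 (T t97 (L l229 (L l235 (L l404 (T t174 N))))))))))))) (K a255 (M a16 (F (T t112 (L l289 (T t113 (L l289 (L l296 (T t98 N)))))))) N)))))))))))))))⟩
def e0_63__199_23 : Ent 4 := ⟨[a0, a63], [a199, a25], (M a192 (F (T t21 (L l15 (T t35 (T t202 (L l56 (T t37 (K a64 (M a48 (F (T t56 (L l15 (T t1 (L l56 (L l116 (L l144 (T t31 N))))))))) (K a128 (M a48 (F (T t54 (L l15 (T t1 (L l56 (T t31 N))))))) (K a21 (M a17 (F (T t207 (L l56 (L l229 (L l347 (T t208 (L l56 (L l229 (T t209 N)))))))))) (K a85 (M a16 (F (T t210 (L l56 (T t97 (L l12 (L l56 (L l94 (L l144 (T t211 N)))))))))) (K a149 (M a48 (F (T t837 (L l15 (L l347 (L l491 (T t1 (L l15 (L l170 (L l220 (L l347 (L l491 (T t213 (L l56 (L l375 (T t214 N)))))))))))))))) (K a42 (M a8 (F (L l314 (T t215 (L l15 (L l390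 (T t1807 (L l15 (L l314 (T t217 N)))))))))) (K a106 (M a48 (F (T t27 (L l15 (T t1 (L l15 (L l411 (T t213 (L l56 (L l104 (L l144 (L l390 (L l498 (T t214 N)))))))))))))) (K a170 (M a32 (F (T t218 (L l15 (T t219 (L l15 (L l71 (L l180 (L l220 (T t220 N)))))))))) (K a255 (M a16 (F (T t1805 (L l56 (L l469 (T t97 (L l12 (L l56 (T t211 N))))))))) N)))))))))))))))))⟩
def e0_63__199_24 : Ent 4 := ⟨[a0, a63], [a199, a26], (M a192 (F (T t21 (L l18 (T t35 (T t202 (L l54 (T t37 (K a64 (M a12 (F (T t450 (L l18 (T t122 (L l54 (L l80 (L l144 (T t160 N))))))))) (K a128 (M a12 (F (T t543 (L l18 (T t122 (L l54 (T t160 N))))))) (K a21 (M a16 (F (T t210 (L l54 (L l229 (L l347 (T t222 (L l235 (L l347 (T t223 N)))))))))) (K a85 (M a48 (F (T t28 (L l235 (L l347 (T t20 (L l18 (L l54 (L l144 (L l229 (L l368 (T t224 N)))))))))))) (K a149 (M a12 (F (T t836 (L l18 (L l347 (L l371 (T t122 (L l18 (L l202 (L l220 (L l347 (L l371 (T t227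 (L l54 (L l493 (L l495 (T t228 N))))))))))))))))) (K a42 (M a10 (F (T t2176 (L l18 (L l390 (T t230 (L l390 (T t231 N)))))))) (K a106 (M a12 (F (T t156 (L l18 (T t122 (L l18 (L l501 (T t227 (L l54 (L l132 (L l144 (L l390 (L l408 (L l493 (T t228 N))))))))))))))) (K a170 (M a48 (F (T t837 (L l54 (L l229 (L l235 (L l390 (T t206 (L l220 (L l404 (T t29 N))))))))))) (K a255 (M a224 (F (T t233 (T t232 (L l18 (L l75 (T t234 N))))))) N)))))))))))))))))⟩
def e0_63__199_25 : Ent 4 := ⟨[a0, a63], [a199, a27], (M a85 (F (T t88 (T t52 (T t89 (T t90 (K a64 (M a12 (F (T t124 (L l277 (T t572 N))))) (K a192 (M a16 (F (T t260 (L l17 (L l73 (L l339 (T t97 (L l296 (T t98 N))))))))) (K a21 (M a48 (F (T t99 (T t50 (L l47 (T t100 N)))))) (K a149 (M a16 (F (T t112 (L l235 (L l314 (T t173 (L l12 (L l170 (T t102 N))))))))) (K a213 (Fr a170 a255 l476 (Fr a42 a21 l68 (Fr a106 a234 l390 (Fr a192 a149 l519 (V t581))))) (K a42 (M a48 (F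 (T t364 (L l390 (T t50 (L l28 (T t100 N))))))) (K a106 (M a48 (F (T t99 (L l73 (T t1 (L l390 (T t50 N))))))) (K a170 (M a16 (F (L l404 (T t113 (L l390 (T t98 (L l17 (L l73 (L l390 (L l404 (T t97 (L l229 (L l235 (L l404 (T t174 N))))))))))))))) (K a255 (M a16 (F (T t112 (L l289 (T t113 (L l289 (L l296 (T t98 N)))))))) N)))))))))))))))⟩
def e0_63__199_26 : Ent 4 := ⟨[a0, a63], [a199, a28], (M a149 (F (T t5 (T t175 (T t176 (T t177 (K a192 (M a53 (F (T t178 (L l14 (L l229 (L l236 (T t179 (L l229 (L l236 (L l296 (L l314 (T t180 N)))))))))))) (K a21 (M a48 (F (T t1267 (L l14 (L l18 (L l229 (T t14 (T t13 N)))))))) (K a85 (M a16 (F (L l13 (T t97 (L l144 (L l370 (T t190 (L l94 (T t278 N))))))))) (K a213 (Fr a106 a192 l519 (Fr a42 a21 l68 (Fr a170 a234 l390 (Fr a255 a85 l476 (V t582))))) (K a42 (M a48 (F (T t11 (L l390 (T t13 (L l14 (L l54 (L l229 (T t14 N))))))))) (K a106 (M a48 (F (T t1 (L l14 (L l229 (L l498 (T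 t14 (L l229 (L l390 (L l498 (T t6 (L l362 (L l390 (T t26 N)))))))))))))) (K a170 (M a48 (F (T t11 (L l462 (T t1 (L l390 (T t13 N))))))) (K a191 (M a48 (F (T t13 (L l229 (T t6 N))))) (K a255 (M a16 (F (T t112 (L l266 (L l370 (T t190 (L l289 (L l296 (L l362 (T t191 N)))))))))) N)))))))))))))))⟩
def e0_63__199_27 : Ent 4 := ⟨[a0, a63], [a199, a29], (M a149 (F (T t5 (L l15 (T t175 (T t176 (T t177 (K a192 (M a53 (F (T t178 (L l229 (L l236 (T t179 (L l229 (L l236 (L l296 (L l314 (T t180 N))))))))))) (K a21 (M a48 (L l15 (F (T t1267 (L l18 (L l229 (T t14 (T t13 (K a17 (M a25 (F (T t1267 (L l10 (L l18 (L l229 (T t14 (T t13 N)))))))) (K a25 (M a17 (F (T t1267 (L l19 (L l65 (T t642 N)))))) N)))))))))) (K a85 (M a16 (F (L l13 (T t97 (L l144 (T t190 (L l94 (T t278 N)))))))) (K a213 (Fr a106 a192 l519 (Fr a42 a21 l68 (Fr a170 a234 l390 (Fr a255 a85 l476 (V t582))))) (K a42 (M a48 (F (T t11 (L l390 (T t13 (L l54 (L l229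 (T t14 N)))))))) (K a106 (M a48 (F (L l15 (T t1 (L l229 (L l498 (T t14 (L l229 (L l390 (L l498 (T t6 (L l390 (T t26 N))))))))))))) (K a170 (M a48 (F (T t11 (L l15 (L l462 (T t1 (L l390 (T t13 N)))))))) (K a191 (M a16 (F (T t112 (T t190 (L l213 (T t191 N)))))) (K a255 (M a16 (F (T t112 (L l266 (T t190 (L l289 (L l296 (T t191 N)))))))) N))))))))))))))))⟩
def e0_63__199_28 : Ent 4 := ⟨[a0, a63], [a199, a30], (M a85 (F (T t88 (T t52 (T t89 (T t90 (K a64 (M a12 (F (T t124 (L l277 (T t572 N))))) (K a192 (M a16 (F (T t260 (L l13 (L l63 (L l339 (T t97 (L l296 (T t98 N))))))))) (K a21 (M a48 (F (T t99 (T t50 (L l47 (T t100 N)))))) (K a149 (M a16 (F (T t112 (L l235 (L l314 (T t173 (L l16 (L l170 (T t102 N))))))))) (K a213 (Fr a170 a255 l476 (Fr a42 a21 l68 (Fr a106 a234 l390 (Fr a192 a149 l519 (V t581))))) (K a42 (M a48 (F (T t364 (L l390 (T t50 (L l28 (T t100 N))))))) (K a106 (M a48 (F (T t99 (L l63 (T t1 (L l390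 (T t50 N))))))) (K a170 (M a16 (F (L l404 (T t113 (L l390 (T t98 (L l13 (L l63 (L l390 (L l404 (T t97 (L l229 (L l235 (L l404 (T t174 N))))))))))))))) (K a255 (M a16 (F (T t112 (L l289 (T t113 (L l289 (L l296 (T t98 N)))))))) N)))))))))))))))⟩
def e0_63__199_29 : Ent 4 := ⟨[a0, a63], [a199, a31], (M a149 (F (T t5 (L l18 (T t175 (T t176 (T t177 (K a192 (M a29 (F (T t956 (L l272 (L l314 (T t641 (L l272 (L l296 (L l363 (T t957 N)))))))))) (K a21 (M a12 (L l18 (F (T t958 (T t648 (L l50 (L l314 (T t649 (K a16 (M a26 (F (T t958 (T t648 (L l50 (L l314 (T t649 N))))))) (K a26 (M a16 (F (T t958 (L l50 (L l57 (L l314 (T t652 N))))))) N)))))))))) (K a85 (M a48 (F (L l18 (T t1 (T t11 (L l144 (T t13 N))))))) (K a213 (Fr a106 a192 l519 (Fr a42 a21 l68 (Fr a170 a234 l390 (Fr a255 a85 l476 (V t582))))) (K a42 (M a48 (F (T t11 (L l390 (T t13 (L l18 (L l54 (L l229 (T t14 N))))))))) (K a106 (M a12 (F (L l13 (L l18 (T t122 (L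 l314 (L l408 (T t649 (L l390 (L l408 (T t960 (L l277 (L l390 (T t961 N)))))))))))))) (K a170 (M a48 (F (T t11 (L l18 (L l462 (T t1 (L l390 (T t13 N)))))))) (K a191 (M a48 (F (T t13 (L l229 (T t6 N))))) (K a255 (M a48 (F (L l296 (T t11 (L l18 (L l469 (T t1 (L l266 (T t13 N))))))))) N))))))))))))))))⟩
def e0_63__199_30 : Ent 4 := ⟨[a0, a63], [a199, a32], (M a85 (F (T t52 (L l28 (T t88 (L l28 (T t89 (L l404 (T t90 (K a64 (M a240 (F (L l376 (T t1384 (L l404 (T t933 (L l28 (L l376 (T t1550 N))))))))) (K a192 (M a4 (F (L l277 (T t1399 (L l28 (L l489 (L l493 (T t519 (L l28 (L l277 (L l296 (T t131 N)))))))))))) (K a21 (M a240 (F (T t1552 (L l404 (T t933 (L l376 (T t1385 N))))))) (K a149 (M a4 (F (L l277 (T t1371 (L l28 (L l493 (L l495 (T t519 (L l28 (L l202 (T t1372 N))))))))))) (K a213 (Fr a170 a255 l476 (Fr a42 a21 l68 (Fr a106 a234 l390 (Fr a192 a149 l519 (V t581))))) (K a42 (M a47 (F (T t1808 (L l390 (L l404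 (T t1404 (L l54 (L l376 (T t1403 (L l376 (L l390 (L l404 (T t1809 N))))))))))))) (K a106 (M a12 (F (L l20 (T t122 (L l132 (L l277 (T t123 (L l390 (L l404 (T t124 N)))))))))) (K a170 (M a101 (F (L l206 (T t1810 (L l28 (L l229 (L l314 (L l390 (T t1811 (L l206 (L l376 (T t1812 (L l28 (L l206 (L l229 (L l390 (T t1813 N))))))))))))))))) (K a255 (M a4 (F (L l28 (T t129 (L l265 (L l277 (T t130 (L l28 (L l265 (L l277 (L l296 (T t131 N)))))))))))) N))))))))))))))))))⟩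
def e0_63__199_31 : Ent 4 := ⟨[a0, a63], [a199, a33], (M a85 (F (T t88 (T t52 (T t89 (T t90 (K a64 (M a16 (F (L l20 (T t97 (L l84 (L l314 (T t666 (L l116 (T t98 N))))))))) (K a192 (M a16 (F (L l20 (T t260 (T t966 (L l20 (L l339 (T t97 N)))))))) (K a21 (M a48 (F (L l20 (T t99 (T t50 (L l20 (L l47 (T t100 N)))))))) (K a149 (M a16 (F (L l20 (T t112 (L l314 (T t666 (L l170 (T t102 N)))))))) (K a213 (Fr a170 a255 l476 (Fr a42 a21 l68 (Fr a106 a234 l390 (Fr a192 a149 l519 (V t581))))) (K a42 (M a48 (F (T t364 (L l390 (T t50 (L l20 (L l28 (T t100 N)))))))) (K a106 (M a48 (F (T t364 (T t1 (L l390 (T t50 N)))))) (K a170 (M a16 (F (L l20 (L l404 (T t113 (L l390 (T t98 (L l20 (L l390 (L l404 (T t97 (L l20 (L l229 (L l235 (L l404 (T t174 N)))))))))))))))) (K a255 (M a16 (F (L l20 (T t112 (L l289 (L l296 (T t98 (L l20 (L l289 (T t113 N)))))))))) N)))))))))))))))⟩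
def e0_63__199_32 : Ent 4 := ⟨[a0, a63], [a199, a34], (M a85 (F (T t52 (L l26 (T t88 (L l26 (T t89 (L l402 (T t90 (K a64 (M a16 (F (L l20 (T t101 (L l26 (L l116 (T t98 (L l20 (L l26 (T t97 N)))))))))) (K a192 (M a16 (F (L l20 (L l26 (T t112 (L l296 (L l314 (T t666 (L l26 (L l296 (T t98 N))))))))))) (K a21 (M a48 (F (L l20 (T t99 (L l402 (T t50 (L l20 (L l47 (T t100 N))))))))) (K a149 (M a16 (F (L l314 (T t666 (L l20 (L l26 (L l375 (T t97 (L l26 (L l170 (T t102 N))))))))))) (K a213 (Fr a170 a255 l476 (Fr a42 a21 l68 (Fr a106 a234 l390 (Fr a192 a149 l519 (V t581))))) (K a42 (M a46 (F (L l314 (T t1814 (L l390 (L l402 (T t1389 (L l56 (L l277 (L l378 (T t1390 (L l314 (L l378 (L l390 (L l402 (T t1391 N)))))))))))))))) (K a106 (M a48 (F (T t364 (T t1 (L l390 (L l402 (T t50 N))))))) (K a170 (M a102 (F (L l208 (T t1392 (L l26 (L l229 (L l390 (T t1393 (L l208 (L l229 (L l378 (T t1394 (L l26 (L l208 (L l229 (L l390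 (T t1395 N))))))))))))))))) (K a255 (M a16 (F (L l20 (L l26 (T t112 (L l20 (L l289 (T t113 (L l26 (L l289 (L l296 (T t98 N)))))))))))) N))))))))))))))))))⟩
def e0_63__199_33 : Ent 4 := ⟨[a0, a63], [a199, a35], (M a85 (F (T t88 (T t52 (T t89 (T t90 (K a64 (M a48 (F (T t50 (L l20 (T t568 N))))) (K a192 (M a16 (F (L l20 (T t260 (T t966 (L l20 (L l339 (T t97 N)))))))) (K a21 (M a48 (F (L l20 (T t99 (T t50 (L l20 (L l47 (T t100 N)))))))) (K a149 (M a16 (F (L l20 (T t112 (L l314 (T t666 (L l170 (T t102 N)))))))) (K a213 (Fr a170 a255 l476 (Fr a42 a21 l68 (Fr a106 a234 l390 (Fr a192 a149 l519 (V t581))))) (K a42 (M a48 (F (L l403 (T t364 (L l390 (T t50 (L l20 (L l28 (T t100 N))))))))) (K a106 (M a48 (F (T t1 (L l20 (L l104 (L l314 (L l494 (T t509 (L l390 (T t50 N)))))))))) (K a170 (M a16 (F (L l20 (L l404 (T t113 (L l390 (T t98 (L l20 (L l390 (L l404 (T t97 (L l20 (L l229 (L l235 (L l404 (T t174 N))))))))))))))))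 (K a255 (M a16 (F (L l20 (T t112 (L l289 (L l296 (T t98 (L l20 (L l289 (T t113 N)))))))))) N)))))))))))))))⟩
def e0_63__199_34 : Ent 4 := ⟨[a0, a63], [a199, a36], (M a85 (F (T t88 (T t52 (T t89 (T t90 (K a64 (M a12 (F (T t124 (L l277 (T t572 N))))) (K a192 (M a16 (F (L l24 (T t260 (T t966 (L l24 (L l339 (T t97 N)))))))) (K a21 (M a48 (F (L l24 (T t99 (T t50 (L l24 (L l47 (T t100 N)))))))) (K a149 (M a16 (F (L l24 (T t112 (L l314 (T t666 (L l170 (T t102 N)))))))) (K a213 (Fr a170 a255 l476 (Fr a42 a21 l68 (Fr a106 a234 l390 (Fr a192 a149 l519 (V t581))))) (K a42 (M a48 (F (T t364 (L l390 (T t50 (L l24 (L l28 (T t100 N)))))))) (K a106 (M a48 (F (T t364 (T t1 (L l390 (T t50 N)))))) (K a170 (M a16 (F (L l24 (L l404 (T t113 (L l390 (T t98 (L l24 (L l390 (L l404 (T t97 (L l24 (L l229 (L l235 (L l404 (T t174 N)))))))))))))))) (K a255 (M a16 (F (L l24 (T t112 (L l289 (L l296 (T t98 (L l24 (L l289 (T t113 N))))))))))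 N)))))))))))))))⟩
def e0_63__199_35 : Ent 4 := ⟨[a0, a63], [a199, a37], (M a192 (F (T t21 (L l47 (T t35 (T t202 (L l28 (T t37 (K a64 (M a12 (F (T t450 (L l47 (T t122 (L l28 (L l80 (L l144 (T t160 N))))))))) (K a128 (M a12 (F (T t543 (L l47 (T t122 (L l28 (T t160 N))))))) (K a21 (M a5 (F (T t5547 (L l28 (L l347 (T t1816 (L l28 (T t1817 N)))))))) (K a85 (M a48 (F (T t27 (L l47 (L l235 (L l347 (T t20 (L l144 (L l229 (L l368 (T t224 N))))))))))) (K a149 (M a12 (F (T t836 (L l47 (L l347 (L l371 (T t122 (L l47 (L l202 (L l220 (L l347 (L l371 (T t227 (L l28 (L l493 (L l495 (T t228 N))))))))))))))))) (K a42 (M a32 (F (T t218 (L l47 (L l390 (T t1818 (L l47 (L l235 (T t1819 N))))))))) (K a106 (M a12 (F (T t156 (L l47 (T t122 (L l47 (L l501 (T t227 (L l28 (L l132 (L l144 (L l390 (L l408 (L l493 (T t228 N))))))))))))))) (K a170 (M a48 (F (T t19 (L l229 (L l235 (L l390 (T t206 (L l28 (L l47 (L l220 (L l404 (T t29 N))))))))))))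 (K a255 (M a208 (F (T t1820 (T t1821 (L l28 (L l75 (T t1822 N))))))) N)))))))))))))))))⟩
def e0_63__199_36 : Ent 4 := ⟨[a0, a63], [a199, a38], (M a192 (F (T t21 (L l50 (T t35 (T t202 (L l26 (T t37 (K a64 (M a48 (F (T t56 (L l50 (T t1 (L l26 (L l116 (L l144 (T t31 N))))))))) (K a128 (M a48 (F (T t54 (L l50 (T t1 (L l26 (T t31 N))))))) (K a21 (M a4 (F (T t1823 (L l26 (L l277 (L l347 (T t1408 (L l347 (T t1409 N))))))))) (K a85 (M a16 (F (T t210 (L l26 (T t97 (L l26 (L l72 (L l94 (L l144 (T t211 N)))))))))) (K a149 (M a48 (F (T t837 (L l50 (L l347 (L l491 (T t1 (L l50 (L l170 (L l220 (L l347 (L l491 (T t213 (L l26 (L l375 (T t214 N)))))))))))))))) (K a42 (M a34 (F (T t1410 (L l50 (L l390 (L l493 (T t5548 (L l390 (T t1412 N))))))))) (K a106 (M a48 (F (T t27 (L l50 (T t1 (L l50 (L l411 (T t213 (L l26 (L l104 (L l144 (L l390 (L l498 (T t214 N)))))))))))))) (K a170 (M a32 (F (T t218 (L l50 (T t219 (L l21 (L l50 (L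 l180 (L l220 (T t220 N)))))))))) (K a255 (M a16 (F (T t1805 (L l26 (L l469 (T t97 (L l26 (L l72 (T t211 N))))))))) N)))))))))))))))))⟩
def e0_63__199_37 : Ent 4 := ⟨[a0, a63], [a199, a39], (M a85 (F (T t88 (T t52 (T t89 (T t90 (K a64 (M a12 (F (T t124 (L l277 (T t572 N))))) (K a192 (M a16 (F (T t112 (L l314 (L l494 (T t96 (L l296 (T t98 N)))))))) (K a21 (M a48 (F (T t99 (T t50 (L l47 (T t100 N)))))) (K a149 (M a16 (F (T t112 (L l235 (L l314 (T t173 (L l170 (T t102 N)))))))) (K a213 (Fr a170 a255 l476 (Fr a42 a21 l68 (Fr a106 a234 l390 (Fr a192 a149 l519 (V t581))))) (K a42 (M a48 (F (T t364 (L l390 (T t50 (L l28 (T t100 N))))))) (K a106 (M a48 (F (T t99 (L l73 (T t1 (L l390 (T t50 N))))))) (K a170 (M a16 (F (L l404 (T t113 (L l390 (T t98 (L l73 (L l390 (L l404 (T t97 (L l229 (L l235 (L l404 (T t174 N)))))))))))))) (K a255 (M a16 (F (T t112 (L l289 (T t113 (L l289 (L l296 (T t98 N)))))))) N)))))))))))))))⟩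
def e0_63__199_38 : Ent 4 := ⟨[a0, a63], [a199, a40], (M a85 (F (T t52 (L l22 (T t88 (L l22 (T t89 (L l392 (T t90 (K a64 (M a16 (F (L l24 (T t101 (L l22 (L l116 (T t98 (L l22 (L l24 (T t97 N)))))))))) (K a192 (M a16 (F (L l22 (L l24 (T t112 (L l296 (L l314 (T t666 (L l22 (L l296 (T t98 N))))))))))) (K a21 (M a48 (F (L l24 (T t99 (L l392 (T t50 (L l24 (L l47 (T t100 N))))))))) (K a149 (M a16 (F (L l314 (T t666 (L l22 (L l24 (L l375 (T t97 (L l22 (L l170 (T t102 N))))))))))) (K a213 (Fr a170 a255 l476 (Fr a42 a21 l68 (Fr a106 a234 l390 (Fr a192 a149 l519 (V t581))))) (K a42 (M a43 (F (T t667 (L l390 (L l392 (T t265 (L l66 (L l388 (T t264 (L l388 (L l390 (L l392 (T t1824 N))))))))))))) (K a106 (M a48 (F (T t364 (T t1 (L l390 (L l392 (T t50 N))))))) (K a170 (M a105 (F (L l218 (T t669 (L l22 (L l390 (T t670 (L l218 (L l388 (L l493 (T t967 (L l22 (L l388 (L l390 (T t5549 N))))))))))))))) (K a255 (M a16 (F (L l22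 (L l24 (T t112 (L l24 (L l289 (T t113 (L l22 (L l289 (L l296 (T t98 N)))))))))))) N))))))))))))))))))⟩
def e0_63__199_39 : Ent 4 := ⟨[a0, a63], [a199, a41], (M a192 (F (T t21 (L l65 (T t35 (T t202 (L l22 (T t37 (K a64 (M a48 (F (T t56 (L l65 (T t1 (L l22 (L l116 (L l144 (T t31 N))))))))) (K a128 (M a48 (F (T t54 (L l65 (T t1 (L l22 (T t31 N))))))) (K a21 (M a1 (F (T t2681 (L l22 (L l347 (T t1826 (L l22 (T t1827 N)))))))) (K a85 (M a16 (F (T t210 (L l22 (T t97 (L l22 (L l57 (L l94 (L l144 (T t211 N)))))))))) (K a149 (M a48 (F (T t837 (L l65 (L l347 (L l491 (T t1 (L l65 (L l170 (L l220 (L l347 (L l491 (T t213 (L l22 (L l375 (T t214 N)))))))))))))))) (K a42 (M a40 (F (T t1828 (L l65 (L l390 (T t1829 (L l65 (L l235 (T t1830 N))))))))) (K a106 (M a48 (F (T t27 (L l65 (T t1 (L l65 (L l411 (T t213 (L l22 (L l104 (L l144 (L l390 (L l498 (T t214 N)))))))))))))) (K a170 (M a32 (F (T t218 (L l65 (T t219 (L l25 (L l65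 (L l180 (L l220 (T t220 N)))))))))) (K a255 (M a16 (F (T t1805 (L l22 (L l469 (T t97 (L l22 (L l57 (T t211 N))))))))) N)))))))))))))))))⟩
def e0_63__199_40 : Ent 4 := ⟨[a0, a63], [a199, a43], (M a149 (F (T t175 (L l22 (T t5 (L l22 (T t176 (L l393 (T t177 (K a192 (M a53 (F (L l22 (T t178 (L l229 (L l236 (T t179 (L l22 (L l229 (L l236 (L l296 (L l314 (T t180 N))))))))))))) (K a21 (M a48 (F (L l229 (T t4 (L l393 (T t13 (L l18 (L l229 (T t14 N))))))))) (K a85 (M a16 (F (L l22 (T t97 (L l144 (L l393 (T t190 (L l22 (L l94 (T t278 N)))))))))) (K a213 (Fr a106 a192 l519 (Fr a42 a21 l68 (Fr a170 a234 l390 (Fr a255 a85 l476 (V t582))))) (K a42 (M a40 (F (T t973 (L l390 (L l393 (T t974 (L l66 (L l391 (T t969 (L l390 (L l391 (L l393 (T t972 N))))))))))))) (K a106 (M a169 (F (L l142 (T t981 (L l22 (L l390 (T t977 (L l142 (L l391 (T t978 (L l22 (L l142 (L l390 (T t979 N)))))))))))))) (K a170 (M a48 (F (T t11 (L l462 (T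 t1 (L l390 (L l393 (T t13 N)))))))) (K a191 (M a16 (F (L l22 (T t97 (L l393 (T t190 (L l22 (L l213 (T t191 N))))))))) (K a255 (M a16 (F (L l22 (T t112 (L l266 (L l393 (T t190 (L l22 (L l289 (L l296 (T t191 N))))))))))) N))))))))))))))))))⟩
def e0_63__199_41 : Ent 4 := ⟨[a0, a63], [a199, a44], (M a85 (F (T t88 (T t52 (T t89 (T t90 (K a64 (M a48 (F (T t50 (L l24 (T t568 N))))) (K a192 (M a16 (F (L l24 (T t260 (T t966 (L l24 (L l339 (T t97 N)))))))) (K a21 (M a48 (F (L l24 (T t99 (T t50 (L l24 (L l47 (T t100 N)))))))) (K a149 (M a16 (F (L l24 (T t112 (L l314 (T t666 (L l170 (T t102 N)))))))) (K a213 (Fr a170 a255 l476 (Fr a42 a21 l68 (Fr a106 a234 l390 (Fr a192 a149 l519 (V t581))))) (K a42 (M a48 (F (L l398 (T t364 (L l390 (T t50 (L l24 (L l28 (T t100 N))))))))) (K a106 (M a48 (F (T t1 (L l24 (L l104 (L l314 (L l494 (T t509 (L l390 (T t50 N)))))))))) (K a170 (M a16 (F (L l24 (L l404 (T t113 (L l390 (T t98 (L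 l24 (L l390 (L l404 (T t97 (L l24 (L l229 (L l235 (L l404 (T t174 N)))))))))))))))) (K a255 (M a16 (F (L l24 (T t112 (L l289 (L l296 (T t98 (L l24 (L l289 (T t113 N)))))))))) N)))))))))))))))⟩
def e0_63__199_42 : Ent 4 := ⟨[a0, a63], [a199, a45], (M a85 (F (T t88 (T t52 (T t89 (T t90 (K a64 (M a12 (F (T t124 (L l277 (T t572 N))))) (K a192 (M a16 (F (T t112 (L l314 (L l494 (T t96 (L l296 (T t98 N)))))))) (K a21 (M a48 (F (T t99 (T t50 (L l47 (T t100 N)))))) (K a149 (M a16 (F (T t112 (L l235 (L l314 (T t173 (L l170 (T t102 N)))))))) (K a213 (Fr a170 a255 l476 (Fr a42 a21 l68 (Fr a106 a234 l390 (Fr a192 a149 l519 (V t581))))) (K a42 (M a48 (F (T t364 (L l390 (T t50 (L l28 (T t100 N))))))) (K a106 (M a48 (F (T t99 (L l63 (T t1 (L l390 (T t50 N))))))) (K a170 (M a16 (F (L l404 (T t113 (L l390 (T t98 (L l63 (L l390 (L l404 (T t97 (L l229 (L l235 (L l404 (T t174 N)))))))))))))) (K a255 (M a16 (F (T t112 (L l289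 (T t113 (L l289 (L l296 (T t98 N)))))))) N)))))))))))))))⟩
def e0_63__199_43 : Ent 4 := ⟨[a0, a63], [a199, a46], (M a149 (F (T t175 (L l26 (T t5 (L l26 (T t176 (L l408 (T t177 (K a192 (M a53 (F (L l26 (T t178 (L l229 (L l236 (T t179 (L l26 (L l229 (L l236 (L l296 (L l314 (T t180 N))))))))))))) (K a21 (M a48 (F (L l229 (T t4 (L l408 (T t13 (L l18 (L l229 (T t14 N))))))))) (K a85 (M a16 (F (L l26 (T t97 (L l144 (L l408 (T t190 (L l26 (L l94 (T t278 N)))))))))) (K a213 (Fr a106 a192 l519 (Fr a42 a21 l68 (Fr a170 a234 l390 (Fr a255 a85 l476 (V t582))))) (K a42 (M a34 (F (L l493 (T t279 (L l390 (L l408 (T t280 (L l56 (L l229 (L l396 (T t281 (L l390 (L l396 (L l408 (L l493 (T t282 N)))))))))))))))) (K a106 (M a166 (F (L l132 (T t283 (L l26 (L l277 (L l390 (T t284 (L l132 (L l277 (L l396 (T t285 (L l26 (L l132 (L l277 (L l390 (T t286 N))))))))))))))))) (K a170 (M a48 (F (T t11 (L l462 (T t1 (L l390 (L l408 (T t13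 N)))))))) (K a191 (M a16 (F (L l26 (T t97 (L l408 (T t190 (L l26 (L l213 (T t191 N))))))))) (K a255 (M a16 (F (L l26 (T t112 (L l266 (L l408 (T t190 (L l26 (L l289 (L l296 (T t191 N))))))))))) N))))))))))))))))))⟩
def e0_63__199_44 : Ent 4 := ⟨[a0, a63], [a199, a47], (M a149 (F (T t175 (L l28 (T t5 (L l28 (T t176 (L l411 (T t177 (K a192 (M a29 (F (L l23 (L l28 (T t956 (L l23 (L l272 (L l314 (T t641 (L l28 (L l272 (L l296 (T t957 N))))))))))))) (K a21 (M a48 (F (L l229 (T t4 (L l411 (T t13 (L l18 (L l229 (L l397 (T t14 N)))))))))) (K a85 (M a48 (F (T t11 (L l28 (L l455 (T t2 (L l144 (L l411 (T t13 N))))))))) (K a213 (Fr a106 a192 l519 (Fr a42 a21 l68 (Fr a170 a234 l390 (Fr a255 a85 l476 (V t582))))) (K a42 (M a32 (F (L l494 (T t983 (L l390 (L l411 (T t984 (L l54 (L l229 (L l397 (T t985 (L l390 (L l397 (L l411 (T t2179 N))))))))))))))) (K a106 (M a165 (F (L l130 (T t987 (L l28 (L l314 (L l390 (T t988 (L l130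 (L l397 (T t989 (L l28 (L l130 (L l390 (T t990 N))))))))))))))) (K a170 (M a12 (F (T t991 (L l402 (T t122 (L l390 (L l411 (T t648 N)))))))) (K a191 (M a204 (F (L l411 (T t1283 (L l28 (L l399 (T t1112 N))))))) (K a255 (M a48 (F (L l296 (T t11 (L l28 (L l469 (T t2 (L l266 (L l411 (T t13 N)))))))))) N))))))))))))))))))⟩
def e0_63__199_45 : Ent 4 := ⟨[a0, a63], [a199, a48], (M a60 (F (T t116 (L l45 (T t67 (L l45 (T t43 (L l45 (T t68 (L l45 (T t69 (K a20 (M a12 (F (T t570 (L l11 (L l30 (T t122 (L l11 (L l46 (L l314 (T t399 N)))))))))) (K a40 (M a12 (F (T t1413 (L l30 (T t122 (L l24 (L l314 (T t399 N)))))))) (K a21 (M a192 (F (T t2647 (L l235 (L l347 (L l488 (T t73 (L l277 (L l347 (T t74 N)))))))))) (K a41 (M a192 (F (T t1343 (L l436 (T t79 (L l65 (L l440 (T t35 N)))))))) (K a61 (M a192 (F (T t1800 (L l436 (T t79 (L l493 (T t80 N))))))) (K a22 (M a192 (F (T t614 (L l11 (L l436 (T t79 (L l11 (L l440 (T t35 N)))))))))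 (K a42 (M a192 (F (T t614 (L l436 (T t79 (L l22 (L l277 (T t74 N)))))))) (K a62 (M a192 (F (T t57 (L l436 (T t79 (L l66 (L l493 (L l516 (T t80 N))))))))) (K a3 (M a84 (L l45 (F (T t2648 (T t1415 (L l440 (L l475 (L l477 (T t1416 (K a33 (M a18 (F (T t1414 (L l70 (T t1417 N))))) (K a18 (M a33 (F (T t1414 (L l70 (T t1418 N))))) N))))))))))) N))))))))))))))))))))⟩
def e0_63__199_46 : Ent 4 := ⟨[a0, a63], [a199, a49], (M a85 (F (T t88 (T t52 (T t89 (T t90 (K a64 (M a12 (F (T t124 (L l277 (T t572 N))))) (K a192 (M a16 (F (T t112 (L l314 (L l494 (L l509 (T t96 (L l296 (T t98 N))))))))) (K a21 (M a48 (F (T t99 (L l437 (T t50 (L l35 (L l47 (T t100 N)))))))) (K a149 (M a16 (F (T t112 (L l235 (L l314 (T t173 (L l170 (T t102 N)))))))) (K a213 (Fr a170 a255 l476 (Fr a42 a21 l68 (Fr a106 a234 l390 (Fr a192 a149 l519 (V t581))))) (K a42 (M a48 (F (T t365 (L l390 (L l437 (T t50 (L l28 (L l35 (T t100 N))))))))) (K a106 (M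 a48 (F (T t99 (L l35 (T t1 (L l390 (L l437 (T t50 N)))))))) (K a170 (M a16 (F (L l390 (L l404 (T t97 (L l390 (T t98 (L l35 (L l404 (T t113 (L l229 (L l235 (L l404 (T t174 N)))))))))))))) (K a255 (M a16 (F (T t112 (L l35 (L l289 (T t113 (L l289 (L l296 (T t98 N))))))))) N)))))))))))))))⟩
def e0_63__199_47 : Ent 4 := ⟨[a0, a63], [a199, a50], (M a85 (F (T t88 (T t52 (T t89 (T t90 (K a64 (M a12 (F (T t124 (L l277 (T t572 N))))) (K a192 (M a16 (F (L l339 (T t97 (L l314 (L l494 (T t96 (L l296 (T t98 N))))))))) (K a21 (M a48 (F (L l438 (T t99 (T t50 (L l47 (T t100 N))))))) (K a149 (M a16 (F (L l375 (T t97 (L l235 (L l314 (T t173 (L l72 (L l170 (L l510 (T t102 N))))))))))) (K a213 (Fr a170 a255 l476 (Fr a42 a21 l68 (Fr a106 a234 l390 (Fr a192 a149 l519 (V t581))))) (K a42 (M a48 (F (T t364 (L l390 (T t50 (L l28 (T t100 N))))))) (K a106 (M a48 (F (T t1 (L l104 (L l314 (L l494 (T t509 (L l390 (T t50 N))))))))) (K a170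 (M a16 (F (L l404 (T t113 (L l390 (T t98 (L l390 (L l404 (T t97 (L l36 (L l229 (L l235 (L l404 (T t174 N)))))))))))))) (K a255 (M a16 (F (L l469 (T t97 (L l289 (T t113 (L l289 (L l296 (T t98 N))))))))) N)))))))))))))))⟩
def e0_63__199_48 : Ent 4 := ⟨[a0, a63], [a199, a51], (M a48 (F (T t48 (L l73 (T t1 (L l73 (T t2 (L l73 (T t3 (L l73 (T t0 (K a16 (M a85 (F (T t89 (L l417 (T t50 (L l229 (T t51 N))))))) (K a32 (M a85 (F (L l439 (T t52 (L l404 (L l417 (T t50 (L l28 (L l229 (T t51 N)))))))))) (K a21 (M a192 (F (T t54 (L l417 (T t27 (L l47 (L l347 (T t29 N)))))))) (K a37 (M a192 (F (T t54 (L l417 (T t27 (L l439 (T t21 N))))))) (K a53 (M a192 (F (T t55 (L l439 (L l491 (T t21 (T t31 N))))))) (K a26 (M a192 (F (T t56 (L l417 (T t27 (L l439 (T t21 N))))))) (K a42 (M a192 (F (T t56 (L l417 (T t27 (L l28 (T t29 N))))))) (K a58 (M a192 (F (T t57 (L l417 (T t27 (L l54 (L l498 (T t31 N)))))))) (K a15 (M a80 (L l73 (F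 (T t58 (T t59 (L l439 (L l469 (L l483 (T t60 (K a39 (M a27 (F (T t1831 (L l39 (T t1425 N))))) (K a27 (M a39 (F (T t1831 (L l39 (L l314 (T t1426 N)))))) N))))))))))) N))))))))))))))))))))⟩
def e0_63__199_49 : Ent 4 := ⟨[a0, a63], [a199, a52], (M a85 (L l494 (F (T t88 (T t52 (T t89 (T t90 (K a64 (M a101 (F (T t2260 (L l84 (L l229 (L l314 (T t1811 (L l229 (T t2261 N))))))))) (K a192 (M a150 (F (L l277 (T t5550 (L l277 (L l296 (L l493 (T t1961 (L l296 (L l490 (L l514 (T t5551 (L l277 (T t1963 N)))))))))))))) (K a21 (M a240 (L l494 (F (T t1384 (L l34 (T t933 (T t1385 (K a101 (M a150 (F (T t1552 (L l65 (L l277 (T t1960 N)))))) (K a150 (M a101 (F (T t1552 (L l163 (L l422 (T t2266 N)))))) N))))))))) (K a149 (M a55 (L l494 (F (L l371 (T t3722 (L l220 (L l277 (L l422 (T t2310 (L l202 (T t2311 (K a101 (M a150 (L l491 (F (T t5539 (L l277 (T t1963 (K a197 (M a53 (L l229 (F (T t5539 (L l311 (T t982 (K a196 (M a198 (L l490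 (F (L l311 (T t982 (L l101 (L l277 (L l515 (T t5550 (K a148 (M a100 (F (L l311 (T t982 (L l101 (L l277 (L l515 (T t5550 N)))))))) (K a100 (M a148 (L l97 (F (T t5552 (L l311 (T t982 (K a102 (M a103 (F (L l311 (T t982 (L l235 (L l277 (T t5553 N))))))) (K a103 (Fr a102 a54 l492 (V t5554)) N)))))))) N))))))))))) (K a198 (M a196 (F (L l311 (T t982 (L l101 (L l515 (T t5555 N))))))) N)))))))) (K a53 (M a197 (F (T t5539 (L l277 (T t1963 N))))) N)))))))) (K a150 (M a101 (L l163 (F (L l422 (T t3925 (L l371 (T t3722 (K a148 (M a151 (L l490 (F (L l422 (T t3925 (L l371 (T t3722 (K a196 (M a100 (L l229 (F (L l422 (T t3925 (L l371 (T t3722 (K a197 (M a198 (F (L l371 (T t3722 (L l346 (L l348 (L l351 (T t5556 N)))))))) (K a198 (M a197 (L l492 (F (T t5552 (L l234 (L l422 (T t5557 (K a102 (M a54 (F (L l371 (L l402 (T t3722 (L l234 (L l422 (T t5557 N)))))))) (K a54 (Fr a102 a103 l97 (V t5558)) N))))))))) N))))))))) (K a100 (M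 a196 (F (L l371 (T t3722 (L l34 (L l422 (L l508 (T t2349 N)))))))) N))))))))) (K a151 (M a148 (F (L l371 (T t3722 (L l34 (L l422 (T t2349 N))))))) N))))))))) N))))))))))))) (K a213 (Fr a170 a255 l476 (Fr a42 a21 l68 (Fr a106 a234 l390 (Fr a192 a149 l519 (V t581))))) (K a42 (M a48 (L l494 (F (T t365 (L l390 (L l422 (T t50 (L l28 (L l31 (T t100 (K a101 (M a150 (F (L l22 (L l277 (T t1960 (L l28 (L l101 (L l404 (T t5559 N))))))))) (K a150 (M a101 (F (T t1661 (L l168 (T t5560 N))))) N)))))))))))) (K a106 (M a101 (F (L l498 (T t2260 (L l229 (L l314 (L l390 (T t1811 (L l229 (L l498 (T t2261 (L l34 (L l422 (T t1810 N)))))))))))))) (K a170 (M a150 (F (L l390 (L l490 (T t5561 (L l277 (L l392 (T t1960 (L l277 (L l390 (L l493 (T t1961 (L l277 (L l390 (L l392 (T t1963 (L l235 (L l277 (L l392 (T t1964 N)))))))))))))))))))) (K a255 (M a150 (F (L l296 (L l490 (T t5561 (L l277 (L l295 (T t1960 (L l277 (L l295 (T t1963 (L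 l277 (L l295 (L l296 (L l493 (T t1961 (L l296 (L l493 (T t5562 N))))))))))))))))))) (K a101 (M a150 (F (T t88 (L l46 (L l404 (T t5563 (L l277 (T t1960 N)))))))) (K a150 (M a101 (F (T t52 (L l218 (L l422 (T t2275 (L l422 (T t2276 N)))))))) N))))))))))))))))))⟩
def e0_63__199_50 : Ent 4 := ⟨[a0, a63], [a199, a53], (M a149 (F (T t5 (L l47 (T t175 (T t176 (T t177 (K a192 (M a29 (F (T t956 (L l272 (L l314 (T t641 (L l272 (L l296 (T t957 N))))))))) (K a21 (M a12 (L l47 (F (T t958 (T t648 (L l50 (L l314 (T t649 (K a5 (M a37 (F (T t958 (T t648 (L l1 (L l50 (L l314 (T t649 N)))))))) (K a37 (M a5 (F (T t959 (L l51 (L l65 (L l313 (T t1428 N))))))) N)))))))))) (K a85 (M a4 (F (L l365 (T t129 (L l144 (L l229 (T t653 (L l126 (T t654 N))))))))) (K a213 (Fr a106 a192 l519 (Fr a42 a21 l68 (Fr a170 a234 l390 (Fr a255 a85 l476 (V t582))))) (K a42 (M a240 (F (T t1090 (L l390 (T t1091 (T t1207 N)))))) (K a106 (M a12 (F (L l47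 (T t122 (L l314 (L l408 (T t649 (L l390 (L l408 (T t960 (L l277 (L l390 (T t961 N))))))))))))) (K a170 (M a12 (F (T t958 (L l47 (L l402 (T t122 (L l390 (T t648 N)))))))) (K a191 (M a16 (F (T t2683 (T t190 (L l213 (T t2684 N)))))) (K a255 (M a208 (F (T t2180 (T t1833 (L l440 (T t1277 N)))))) N))))))))))))))))⟩
def e0_63__199_51 : Ent 4 := ⟨[a0, a63], [a199, a54], (M a85 (F (T t88 (T t52 (T t89 (T t90 (K a64 (M a12 (F (T t124 (L l277 (T t572 N))))) (K a192 (M a16 (F (T t260 (L l339 (T t97 (L l296 (T t98 N))))))) (K a21 (M a48 (F (T t99 (T t50 (L l31 (L l47 (T t100 N))))))) (K a149 (M a16 (F (T t101 (L l375 (T t97 (L l170 (T t102 N))))))) (K a213 (Fr a170 a255 l476 (Fr a42 a21 l68 (Fr a106 a234 l390 (Fr a192 a149 l519 (V t581))))) (K a42 (M a48 (F (T t364 (L l390 (T t50 (L l28 (L l31 (T t100 N)))))))) (K a106 (M a48 (F (T t99 (L l31 (T t1 (L l390 (T t50 N))))))) (K a170 (M a16 (F (L l390 (L l404 (T t97 (L l390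 (T t98 (L l31 (L l404 (T t113 (L l36 (L l229 (L l235 (L l404 (T t174 N))))))))))))))) (K a255 (M a16 (F (L l469 (T t97 (L l31 (L l289 (T t113 (L l289 (L l296 (T t98 N)))))))))) N)))))))))))))))⟩
def e0_63__199_52 : Ent 4 := ⟨[a0, a63], [a199, a55], (M a149 (L l493 (F (T t5 (L l50 (T t175 (T t176 (T t177 (K a192 (M a53 (L l493 (F (T t178 (L l229 (L l236 (T t179 (L l229 (L l236 (L l296 (L l314 (L l423 (T t180 (K a151 (M a103 (F (T t178 (L l229 (L l236 (T t179 (L l229 (L l236 (L l296 (L l314 (L l423 (T t180 N)))))))))))) (K a103 (M a151 (F (T t178 (L l103 (L l514 (T t4249 N)))))) N))))))))))))))) (K a21 (M a151 (L l50 (F (T t4250 (T t4252 (T t4251 (L l494 (T t4259 (K a4 (M a38 (L l314 (F (T t4250 (T t4252 (T t4251 (L l454 (L l494 (T t4259 (K a69 (M a134 (F (T t4250 (L l81 (T t5564 (L l84 (T t4251 (L l421 (T t5565 N))))))))) (K a134 (M a69 (F (T t4250 (L l158 (T t5566 (T t4252 N)))))) N))))))))))) (K a38 (M a4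 (F (T t4254 (L l26 (L l384 (L l421 (T t660 (T t4252 N)))))))) N)))))))))) (K a85 (M a16 (L l493 (F (T t97 (L l144 (T t190 (L l94 (T t278 (K a151 (M a103 (F (L l373 (T t97 (L l144 (T t190 (L l94 (T t278 N)))))))) (K a103 (M a151 (F (T t97 (L l103 (L l141 (T t4250 N)))))) N)))))))))) (K a213 (Fr a106 a192 l519 (Fr a42 a21 l68 (Fr a170 a234 l390 (Fr a255 a85 l476 (V t582))))) (K a42 (M a151 (F (T t5567 (T t4252 (L l390 (T t4258 (L l390 (L l494 (T t4259 N))))))))) (K a106 (M a48 (L l493 (F (L l50 (L l411 (T t3 (L l229 (L l498 (T t14 (L l229 (L l390 (L l498 (T t6 (L l390 (T t26 (K a151 (M a103 (F (L l50 (L l411 (T t3 (L l229 (L l498 (T t14 (L l229 (L l390 (L l498 (T t6 (L l390 (T t26 N)))))))))))))) (K a103 (M a151 (F (L l390 (T t0 (L l98 (L l103 (T t5568 N))))))) N))))))))))))))))) (K a170 (M a48 (L l493 (F (L l229 (T t4 (L l31 (L l50 (L l462 (T t1 (L l390 (T t13 (K a151 (M a103 (F (L l229 (T t4 (L l31 (L l50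 (L l462 (T t1 (L l390 (T t13 N)))))))))) (K a103 (M a151 (F (T t4257 (L l31 (L l50 (L l462 (T t1 N))))))) N))))))))))))) (K a191 (M a204 (L l493 (F (T t1283 (T t1112 (K a151 (M a103 (L l219 (F (T t1283 (T t1112 (K a131 (M a171 (F (T t1066 (L l152 (T t1283 N))))) (K a171 (M a131 (F (T t1283 (T t1112 N)))) N))))))) (K a103 (M a151 (F (T t2393 (L l103 (T t4254 N))))) N))))))) (K a255 (M a16 (L l493 (F (T t112 (L l266 (T t190 (L l289 (L l296 (T t191 (K a151 (M a103 (F (T t112 (L l266 (T t190 (L l169 (L l289 (L l296 (T t191 N))))))))) (K a103 (M a151 (F (T t504 (L l103 (L l296 (T t4250 N)))))) N))))))))))) (K a151 (M a103 (F (T t5 (L l50 (T t175 (L l219 (T t176 (L l219 (T t177 (K a192 (M a53 (F (T t178 (L l229 (L l236 (T t179 (L l229 (L l236 (L l296 (L l314 (L l423 (T t180 N)))))))))))) (K a21 (M a207 (L l50 (F (T t2631 (L l229 (L l314 (T t1287 (L l314 (T t2628 (K a4 (M a38 (L l314 (F (L l15 (L l169 (T t5569 (T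 t2634 (K a69 (M a134 (F (L l15 (L l169 (T t5569 (L l31 (L l47 (L l84 (L l219 (T t5570 N)))))))))) (K a134 (Fr a69 a138 l332 (V t4323)) N))))))))) (K a38 (M a4 (F (T t2629 (L l26 (L l201 (L l384 (L l421 (T t660 (T t5328 N))))))))) N))))))))))) (K a85 (M a16 (F (L l373 (T t97 (L l144 (T t190 (L l94 (T t278 N)))))))) (K a213 (Fr a106 a192 l519 (Fr a42 a21 l68 (Fr a170 a234 l390 (Fr a255 a85 l476 (V t582))))) (K a42 (M a48 (F (L l31 (T t11 (L l390 (T t13 (L l54 (L l229 (T t14 N))))))))) (K a106 (M a48 (F (L l50 (L l411 (T t3 (L l229 (L l498 (T t14 (L l229 (L l390 (L l498 (T t6 (L l390 (T t26 N)))))))))))))) (K a170 (M a48 (F (L l229 (T t4 (L l31 (L l50 (L l462 (T t1 (L l390 (T t13 N)))))))))) (K a191 (M a204 (L l219 (F (T t1283 (T t1112 (K a131 (M a171 (F (T t1066 (L l152 (T t1283 N))))) (K a171 (M a131 (F (T t1283 (T t1112 N)))) N))))))) (K a255 (M a16 (F (T t112 (L l266 (T t190 (L l169 (L l289 (L l296 (T t191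 N))))))))) N)))))))))))))))))) (K a103 (M a151 (F (T t25 (L l103 (T t4273 (L l103 (T t4274 N))))))) N)))))))))))))))))))⟩
def e0_63__199_53 : Ent 4 := ⟨[a0, a63], [a199, a56], (M a85 (F (T t88 (T t52 (T t89 (T t90 (K a64 (M a12 (F (T t124 (L l52 (L l277 (T t572 N)))))) (K a192 (M a16 (F (L l339 (T t97 (L l314 (L l494 (T t96 (L l296 (T t98 N))))))))) (K a21 (M a48 (F (L l428 (T t99 (T t50 (L l47 (T t100 N))))))) (K a149 (M a16 (F (L l375 (T t97 (L l235 (L l314 (T t173 (L l57 (L l170 (L l500 (T t102 N))))))))))) (K a213 (Fr a170 a255 l476 (Fr a42 a21 l68 (Fr a106 a234 l390 (Fr a192 a149 l519 (V t581))))) (K a42 (M a48 (F (T t364 (L l390 (T t50 (L l28 (T t100 N))))))) (K a106 (M a48 (F (T t1 (L l104 (L l314 (L l494 (T t509 (L l390 (T t50 N))))))))) (K a170 (M a16 (F (L l404 (T t113 (L l390 (T t98 (L l390 (L l404 (T t97 (L l32 (L l229 (L l235 (L l404 (T t174 N)))))))))))))) (K a255 (M a16 (F (L l469 (T t97 (L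 l289 (T t113 (L l289 (L l296 (T t98 N))))))))) N)))))))))))))))⟩
def e0_63__199_54 : Ent 4 := ⟨[a0, a63], [a199, a57], (M a85 (F (T t88 (T t52 (T t89 (T t90 (K a64 (M a12 (F (T t124 (L l277 (T t572 N))))) (K a192 (M a16 (F (T t260 (L l339 (T t97 (L l296 (T t98 N))))))) (K a21 (M a48 (F (T t99 (T t50 (L l35 (L l47 (T t100 N))))))) (K a149 (M a16 (F (T t101 (L l375 (T t97 (L l170 (T t102 N))))))) (K a213 (Fr a170 a255 l476 (Fr a42 a21 l68 (Fr a106 a234 l390 (Fr a192 a149 l519 (V t581))))) (K a42 (M a48 (F (T t364 (L l390 (T t50 (L l28 (L l35 (T t100 N)))))))) (K a106 (M a48 (F (T t99 (L l35 (T t1 (L l390 (T t50 N))))))) (K a170 (M a16 (F (L l390 (L l404 (T t97 (L l390 (T t98 (L l35 (L l404 (T t113 (L l32 (L l229 (L l235 (L l404 (T t174 N))))))))))))))) (K a255 (M a16 (F (L l469 (T t97 (L l35 (L l289 (T t113 (L l289 (L l296 (T t98 N)))))))))) N)))))))))))))))⟩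
def e0_63__199_55 : Ent 4 := ⟨[a0, a63], [a199, a58], (M a149 (F (T t175 (L l54 (T t5 (L l54 (T t176 (L l498 (T t177 (K a192 (M a29 (F (L l54 (T t956 (L l272 (L l314 (T t641 (L l54 (L l272 (L l296 (T t957 N))))))))))) (K a21 (M a240 (F (T t1834 (L l498 (T t1091 (L l426 (T t1207 N))))))) (K a85 (M a4 (F (L l54 (L l493 (T t519 (L l144 (L l229 (L l498 (T t653 (L l54 (L l126 (T t654 N)))))))))))) (K a213 (Fr a106 a192 l519 (Fr a42 a21 l68 (Fr a170 a234 l390 (Fr a255 a85 l476 (V t582))))) (K a42 (M a10 (F (T t1835 (L l390 (L l498 (T t656 (L l28 (L l426 (T t655 (L l390 (L l426 (L l498 (T t658 N))))))))))))) (K a106 (M a154 (F (L l104 (T t1836 (L l54 (L l390 (T t1837 (L l104 (L l314 (L l426 (T t1838 (L l54 (L l104 (L l390 (L l494 (T t1839 N)))))))))))))))) (K a170 (M a12 (F (T t958 (L l402 (T t122 (L l390 (L l498 (T t648 N)))))))) (K a191 (M a208 (F (L l498 (T t1277 (L l54 (T t1276 (L l54 (T t1275 N)))))))) (K a255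 (M a208 (F (L l498 (T t1840 (L l54 (L l440 (T t1276 (L l54 (L l296 (L l469 (T t1275 N))))))))))) N))))))))))))))))))⟩
def e0_63__199_56 : Ent 4 := ⟨[a0, a63], [a199, a59], (M a149 (F (T t175 (L l56 (T t5 (L l56 (T t176 (L l501 (T t177 (K a192 (M a53 (F (L l32 (L l56 (T t178 (L l32 (L l229 (L l236 (T t179 (L l56 (L l229 (L l236 (L l296 (L l314 (T t180 N))))))))))))))) (K a21 (M a48 (F (L l47 (T t11 (L l501 (T t13 (L l18 (L l32 (L l229 (T t14 N)))))))))) (K a85 (M a16 (F (L l56 (T t97 (L l144 (L l501 (T t190 (L l56 (L l94 (T t278 N)))))))))) (K a213 (Fr a106 a192 l519 (Fr a42 a21 l68 (Fr a170 a234 l390 (Fr a255 a85 l476 (V t582))))) (K a42 (M a8 (F (L l314 (T t1841 (L l314 (L l390 (L l501 (T t644 (L l390 (L l427 (L l501 (T t1842 (L l26 (L l314 (L l427 (T t643 N)))))))))))))))) (K a106 (M a153 (F (L l102 (T t1843 (L l56 (L l390 (T t1844 (L l102 (L l427 (L l493 (T t1845 (L l56 (L l102 (L l390 (T t1846 N)))))))))))))))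 (K a170 (M a48 (F (T t11 (L l462 (T t1 (L l390 (L l501 (T t13 N)))))))) (K a191 (M a16 (F (L l56 (T t97 (L l501 (T t190 (L l56 (L l213 (T t191 N))))))))) (K a255 (M a16 (F (L l56 (L l469 (T t97 (L l266 (L l501 (T t190 (L l56 (L l289 (L l296 (T t191 N)))))))))))) N))))))))))))))))))⟩
def e0_63__199_57 : Ent 4 := ⟨[a0, a63], [a199, a60], (M a48 (F (T t48 (L l63 (T t1 (L l63 (T t2 (L l63 (T t3 (L l63 (T t0 (K a16 (M a85 (F (T t89 (L l442 (T t50 (L l229 (T t51 N))))))) (K a32 (M a85 (F (L l434 (T t52 (L l404 (L l442 (T t50 (L l28 (L l229 (T t51 N)))))))))) (K a21 (M a192 (F (T t54 (L l442 (T t27 (L l47 (L l347 (T t29 N)))))))) (K a37 (M a192 (F (T t54 (L l442 (T t27 (L l434 (T t21 N))))))) (K a53 (M a192 (F (T t55 (L l434 (L l491 (T t21 (T t31 N))))))) (K a26 (M a192 (F (T t56 (L l442 (T t27 (L l434 (T t21 N))))))) (K a42 (M a192 (F (T t56 (L l442 (T t27 (L l28 (T t29 N))))))) (K a58 (M a192 (F (T t57 (L l442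 (T t27 (L l54 (L l498 (T t31 N)))))))) (K a15 (M a80 (L l63 (F (T t58 (T t59 (L l434 (L l469 (L l483 (T t60 (K a45 (M a30 (F (T t1831 (L l39 (T t293 N))))) (K a30 (M a45 (F (T t1831 (L l39 (T t294 N))))) N))))))))))) N))))))))))))))))))))⟩
def e0_63__199_58 : Ent 4 := ⟨[a0, a63], [a199, a61], (M a149 (F (T t5 (L l65 (T t175 (T t176 (T t177 (K a192 (M a53 (F (T t178 (L l229 (L l236 (T t179 (L l229 (L l236 (L l296 (L l314 (L l443 (T t180 N)))))))))))) (K a21 (M a48 (L l65 (F (T t1267 (L l18 (L l229 (T t14 (T t13 (K a1 (M a41 (F (T t1267 (L l18 (L l229 (T t14 (T t13 N))))))) (K a41 (M a1 (F (T t1267 (L l18 (L l29 (T t295 N)))))) N)))))))))) (K a85 (M a16 (F (T t97 (L l144 (T t190 (L l94 (T t278 N))))))) (K a213 (Fr a106 a192 l519 (Fr a42 a21 l68 (Fr a170 a234 l390 (Fr a255 a85 l476 (V t582))))) (K a42 (M a48 (F (L l35 (T t11 (L l390 (T t13 (L l54 (L l229 (T t14 N))))))))) (K a106 (M a48 (F (L l65 (L l411 (T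 t3 (L l229 (L l498 (T t14 (L l229 (L l390 (L l498 (T t6 (L l390 (T t26 N)))))))))))))) (K a170 (M a48 (F (L l229 (T t4 (L l35 (L l65 (L l462 (T t1 (L l390 (T t13 N)))))))))) (K a191 (M a16 (F (T t97 (T t190 (L l213 (T t191 N)))))) (K a255 (M a16 (F (T t112 (L l266 (T t190 (L l289 (L l296 (T t191 N)))))))) N))))))))))))))))⟩
def e0_63__199_59 : Ent 4 := ⟨[a0, a63], [a199, a62], (M a149 (F (T t175 (L l66 (T t5 (L l66 (T t176 (L l516 (T t177 (K a192 (M a53 (F (L l36 (L l66 (T t178 (L l36 (L l229 (L l236 (T t179 (L l66 (L l229 (L l236 (L l296 (L l314 (T t180 N))))))))))))))) (K a21 (M a48 (F (L l47 (T t11 (L l516 (T t13 (L l18 (L l36 (L l229 (T t14 N)))))))))) (K a85 (M a16 (F (L l66 (T t97 (L l144 (L l516 (T t190 (L l66 (L l94 (T t278 N)))))))))) (K a213 (Fr a106 a192 l519 (Fr a42 a21 l68 (Fr a170 a234 l390 (Fr a255 a85 l476 (V t582))))) (K a42 (M a2 (F (T t2687 (L l390 (L l516 (T t1848 (L l22 (L l432 (T t189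 (L l390 (L l432 (L l516 (T t2688 N))))))))))))) (K a106 (M a150 (F (L l98 (T t1002 (L l66 (L l277 (L l390 (L l493 (T t999 (L l98 (L l432 (T t1000 (L l66 (L l98 (L l277 (L l390 (T t1001 N))))))))))))))))) (K a170 (M a48 (F (T t11 (L l462 (T t1 (L l390 (L l516 (T t13 N)))))))) (K a191 (M a204 (F (L l516 (T t1283 (L l66 (L l504 (T t1112 N))))))) (K a255 (M a16 (F (L l66 (L l469 (T t97 (L l266 (L l516 (T t190 (L l66 (L l289 (L l296 (T t191 N)))))))))))) N))))))))))))))))))⟩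
def e0_63__199_60 : Ent 4 := ⟨[a0, a63], [a199, a64], (M a48 (F (T t1 (T t2 (T t3 (T t0 (K a16 (M a60 (F (T t43 (T t64 (T t65 N))))) (K a32 (M a60 (F (T t64 (T t67 (L l24 (L l28 (T t65 N))))))) (K a21 (M a101 (F (T t2181 (L l116 (L l229 (T t313 (L l18 (L l229 (T t314 N))))))))) (K a37 (M a52 (F (L l314 (T t82 (L l493 (T t83 (L l21 (L l28 (T t84 N))))))))) (K a53 (M a12 (F (T t151 (T t443 (L l47 (T t146 N)))))) (K a26 (M a56 (F (L l494 (T t133 (L l494 (T t134 (L l12 (L l18 (T t135 N))))))))) (K a42 (M a101 (F (T t335 (L l54 (L l116 (L l229 (T t313 (L l54 (L l229 (T t314 N)))))))))) (K a58 (M a12 (F (T t443 (T t122 (T t146 N))))) (K a15 (M a85 (F (T t567 (T t568 N)))) N)))))))))))))))⟩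
def e0_63__199_61 : Ent 4 := ⟨[a0, a63], [a199, a65], (M a48 (F (T t1 (T t2 (T t3 (T t0 (K a16 (M a60 (F (T t43 (T t64 (T t65 N))))) (K a32 (M a60 (F (T t64 (T t67 (L l24 (L l28 (T t65 N))))))) (K a21 (M a192 (F (T t28 (L l47 (L l235 (L l347 (T t20 (L l47 (L l347 (T t29 N)))))))))) (K a37 (M a192 (F (T t19 (L l47 (L l235 (T t20 (T t21 N))))))) (K a53 (M a192 (F (T t19 (L l491 (T t21 (T t31 N)))))) (K a26 (M a192 (F (T t28 (L l235 (T t20 (T t21 N)))))) (K a42 (M a192 (F (T t19 (L l235 (T t20 (L l28 (T t29 N))))))) (K a58 (M a192 (F (T t19 (T t21 (L l54 (L l498 (T t31 N))))))) (K a15 (M a192 (F (T t56 (L l483 (T t27 (L l469 (T t21 N))))))) N)))))))))))))))⟩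
def e0_63__199_62 : Ent 4 := ⟨[a0, a63], [a199, a66], (M a48 (F (T t1 (T t2 (T t3 (T t0 (K a16 (M a60 (F (T t64 (L l14 (L l18 (L l309 (T t67 (T t65 N)))))))) (K a32 (M a60 (F (T t64 (L l309 (T t67 (L l24 (L l28 (T t65 N)))))))) (K a21 (M a192 (F (T t28 (L l47 (L l235 (L l347 (T t20 (L l47 (L l347 (T t29 N)))))))))) (K a37 (M a192 (F (T t19 (L l47 (L l235 (T t20 (T t21 N))))))) (K a53 (M a192 (F (T t19 (L l491 (T t21 (L l142 (T t31 N))))))) (K a26 (M a192 (F (T t28 (L l235 (T t20 (T t21 N)))))) (K a42 (M a192 (F (T t19 (L l235 (T t20 (L l28 (T t29 N))))))) (K a58 (M a192 (F (T t19 (T t21 (L l54 (L l142 (L l498 (T t31 N)))))))) (K a15 (M a192 (F (T t57 (L l483 (T t27 (L l235 (L l325 (T t20 N)))))))) N)))))))))))))))⟩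
def e0_63__199_63 : Ent 4 := ⟨[a0, a63], [a199, a67], (M a149 (F (T t25 (T t175 (T t176 (L l76 (T t177 (K a192 (M a53 (F (T t178 (L l229 (L l236 (T t179 (L l229 (L l236 (L l296 (L l314 (T t180 N))))))))))) (K a21 (M a48 (F (T t1267 (L l18 (L l229 (T t14 (L l121 (T t13 N)))))))) (K a85 (M a16 (F (T t97 (L l144 (T t190 (L l94 (T t278 N))))))) (K a213 (Fr a106 a192 l519 (Fr a42 a21 l68 (Fr a170 a234 l390 (Fr a255 a85 l476 (V t582))))) (K a42 (M a48 (F (T t11 (L l121 (L l390 (T t13 (L l54 (L l229 (T t14 N))))))))) (K a106 (M a48 (F (T t1 (L l229 (L l498 (T t14 (L l229 (L l390 (L l498 (T t6 (L l390 (T t26 N)))))))))))) (K a170 (M a48 (F (T t11 (L l462 (T t1 (L l121 (L l390 (T t13 N)))))))) (K a191 (M a16 (F (T t97 (T t190 (L l213 (T t191 N)))))) (K a255 (M a16 (F (T t112 (L l266 (T t190 (L l289 (L l296 (T t191 N)))))))) N))))))))))))))))⟩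
def e0_63__199_64 : Ent 4 := ⟨[a0, a63], [a199, a68], (M a48 (F (T t1 (T t2 (T t3 (T t0 (K a16 (M a60 (F (T t43 (T t64 (T t65 N))))) (K a32 (M a60 (F (T t64 (T t67 (L l24 (L l28 (T t65 N))))))) (K a21 (M a192 (F (T t28 (L l47 (L l235 (L l347 (T t20 (L l47 (L l347 (T t29 N)))))))))) (K a37 (M a192 (F (T t19 (L l47 (L l235 (T t20 (T t21 N))))))) (K a53 (M a192 (F (T t19 (L l491 (T t21 (T t31 N)))))) (K a26 (M a192 (F (T t28 (L l235 (T t20 (T t21 N)))))) (K a42 (M a192 (F (T t19 (L l235 (T t20 (L l28 (T t29 N))))))) (K a58 (M a192 (F (T t19 (T t21 (L l54 (L l498 (T t31 N))))))) (K a15 (M a192 (F (T t56 (L l483 (T t27 (L l469 (T t21 N))))))) N)))))))))))))))⟩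
def e0_63__199_65 : Ent 4 := ⟨[a0, a63], [a199, a69], (M a60 (L l314 (F (T t67 (T t43 (T t68 (L l329 (T t69 (K a20 (M a4 (F (T t129 (T t1613 (L l14 (L l493 (T t1614 (L l14 (L l329 (L l493 (T t1615 (L l494 (T t1616 N))))))))))))) (K a40 (M a4 (F (L l52 (T t1613 (L l22 (L l494 (T t1618 (L l22 (L l52 (L l493 (T t519 (L l22 (L l329 (L l493 (T t1619 (L l22 (L l329 (L l493 (T t1615 N))))))))))))))))))) (K a21 (M a12 (L l314 (F (T t680 (L l494 (T t409 (L l11 (L l15 (L l65 (T t1665 (L l18 (L l494 (T t1666 (K a4 (M a134 (L l50 (F (T t680 (L l81 (L l494 (T t1427 (K a38 (M a55 (F (L l81 (T t1667 (L l65 (L l72 (T t1668 N))))))) (K a55 (M a38 (L l493 (F (L l15 (T t1669 (L l81 (T t1667 (K a151 (M a103 (F (L l15 (T t1669 (L l81 (T t1667 N)))))) (K a103 (M a151 (F (T t1670 (L l15 (T t1669 N))))) N))))))))) N))))))))) (K a134 (Fr a4 a8 l4 (V t1671)) N))))))))))))))) (K a41 (M a12 (L l314 (F (T t410 (L l65 (T t122 (L l65 (T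 t398 (K a4 (M a134 (F (T t680 (L l81 (L l494 (T t1427 N)))))) (K a134 (Fr a4 a8 l4 (V t1671)) N)))))))))) (K a61 (M a4 (F (T t129 (L l494 (T t1443 (L l35 (T t1623 N))))))) (K a22 (M a4 (F (T t1624 (L l66 (L l493 (T t519 (L l48 (L l66 (T t1623 N))))))))) (K a42 (M a192 (L l314 (F (T t79 (L l235 (T t73 (L l22 (L l277 (T t74 (K a4 (M a134 (F (T t77 (L l235 (L l390 (L l493 (T t75 (L l22 (L l277 (T t74 N)))))))))) (K a134 (M a4 (F (T t77 (L l56 (T t1672 N))))) N))))))))))) (K a62 (M a4 (F (T t1624 (L l66 (L l493 (T t519 (L l66 (T t1623 N)))))))) (K a3 (M a4 (F (T t129 (L l45 (L l494 (T t1443 (T t1623 N))))))) (K a4 (M a134 (F (T t43 (L l46 (L l50 (T t67 (L l50 (T t68 (L l329 (T t69 (K a20 (M a52 (F (T t1629 (L l1 (L l11 (L l50 (L l313 (T t1521 (T t1525 N))))))))) (K a40 (M a106 (F (T t564 (T t1673 N)))) (K a21 (M a12 (L l50 (F (T t680 (L l81 (L l494 (T t1427 (K a38 (M a55 (F (L l81 (T t1667 (L l65 (L l72 (T t1668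 N))))))) (K a55 (M a38 (L l493 (F (L l15 (T t1669 (L l81 (T t1667 (K a151 (M a103 (F (L l15 (T t1669 (L l81 (T t1667 N)))))) (K a103 (M a151 (F (T t1670 (L l15 (T t1669 N))))) N))))))))) N))))))))) (K a41 (M a12 (F (T t680 (L l81 (L l494 (T t1427 N)))))) (K a61 (M a28 (F (L l81 (L l515 (T t1674 (L l59 (T t1354 N))))))) (K a22 (M a12 (F (T t398 (L l81 (L l348 (L l494 (T t1427 N))))))) (K a42 (M a12 (F (T t398 (L l81 (L l494 (T t1427 N)))))) (K a62 (M a28 (F (L l81 (T t1675 (L l66 (T t1354 N)))))) (K a3 (M a12 (F (T t423 (L l81 (L l475 (L l494 (T t1427 N))))))) N))))))))))))))))))) (K a134 (M a4 (F (T t43 (L l494 (T t1443 (L l493 (T t519 N))))))) N)))))))))))))))))))⟩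
def e0_63__199_66 : Ent 4 := ⟨[a0, a63], [a199, a70], (M a85 (F (T t88 (T t52 (T t89 (T t90 (K a64 (M a60 (F (T t114 (L l277 (T t115 N))))) (K a192 (M a16 (F (T t112 (L l77 (L l314 (L l494 (T t96 (L l296 (T t98 N))))))))) (K a21 (M a48 (F (T t99 (T t50 (L l47 (T t100 N)))))) (K a149 (M a16 (F (T t112 (L l77 (L l235 (L l314 (T t173 (L l170 (T t102 N))))))))) (K a213 (Fr a170 a255 l476 (Fr a42 a21 l68 (Fr a106 a234 l390 (Fr a192 a149 l519 (V t581))))) (K a42 (M a48 (F (T t364 (L l390 (T t50 (L l28 (T t100 N))))))) (K a106 (M a48 (F (T t99 (T t1 (L l390 (T t50 N)))))) (K a170 (M a16 (F (L l404 (T t113 (L l390 (T t98 (L l390 (L l404 (T t97 (L l229 (L l235 (L l404 (T t174 N))))))))))))) (K a255 (M a16 (F (T t112 (L l289 (T t113 (L l289 (L l296 (T t98 N)))))))) N)))))))))))))))⟩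
def e0_63__199_67 : Ent 4 := ⟨[a0, a63], [a199, a71], (M a149 (L l313 (F (T t5 (T t175 (T t176 (T t177 (K a192 (M a31 (L l313 (F (T t2312 (L l268 (T t651 (L l268 (L l296 (T t2313 (K a7 (M a135 (F (L l83 (T t2314 (L l268 (L l296 (T t2313 N))))))) (K a135 (M a7 (F (T t2315 (L l268 (L l296 (T t2313 N)))))) N))))))))))) (K a21 (M a240 (L l313 (F (T t1090 (T t1091 (T t1207 (K a7 (M a135 (F (T t962 (L l315 (T t2316 N))))) (K a135 (M a7 (F (T t962 (L l153 (L l279 (T t2317 N)))))) N)))))))) (K a85 (M a12 (L l313 (F (T t958 (T t122 (L l144 (T t648 (K a7 (M a135 (F (T t122 (L l144 (L l315 (T t2318 N)))))) (K a135 (M a7 (F (T t958 (L l455 (T t2319 N))))) N))))))))) (K a213 (Fr a106 a192 l519 (Fr a42 a21 l68 (Fr a170 a234 l390 (Fr a255 a85 l476 (V t582))))) (K a42 (M a3 (L l313 (F (T t1052 (L l83 (L l235 (L l390 (T t1883 (L l22 (T t615 (K a7 (M a135 (F (L l22 (T t2320 (L l83 (L l235 (L l390 (T t1883 (L l22 (T t615 N))))))))))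 (K a135 (M a7 (F (T t1052 (L l54 (L l314 (T t1976 N)))))) N)))))))))))) (K a106 (M a15 (L l313 (F (T t732 (L l411 (T t1026 (L l390 (T t1030 (L l390 (L l411 (T t1031 (K a7 (M a135 (F (T t732 (L l83 (L l98 (L l315 (T t2321 N))))))) (K a135 (M a7 (F (T t732 (L l153 (L l279 (L l393 (T t2322 N))))))) N))))))))))))) (K a170 (M a165 (L l313 (F (T t2323 (L l77 (L l314 (L l390 (T t988 (L l462 (T t2324 (T t987 (K a7 (M a135 (F (L l314 (T t2325 (L l462 (T t2324 N)))))) (K a135 (M a7 (F (L l279 (T t2326 (L l462 (T t2324 N)))))) N))))))))))))) (K a191 (M a12 (L l313 (F (T t958 (T t122 (T t648 (K a7 (M a135 (F (T t151 (L l315 (T t2318 N))))) (K a135 (M a7 (F (T t1984 (T t2319 N)))) N)))))))) (K a255 (M a12 (L l313 (F (T t647 (L l439 (T t122 (L l290 (T t648 (K a7 (M a135 (F (T t1252 (L l315 (T t2318 N))))) (K a135 (M a7 (F (T t2327 (T t2319 N)))) N)))))))))) (K a7 (M a135 (F (T t5 (T t175 (T t176 (T t177 (K a192 (M a5 (F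 (L l83 (T t2328 (L l77 (L l296 (L l314 (T t1038 N)))))))) (K a21 (M a240 (F (T t962 (L l315 (T t2316 N))))) (K a85 (M a240 (F (L l144 (T t1091 (L l315 (T t2316 N)))))) (K a213 (Fr a106 a192 l519 (Fr a42 a21 l68 (Fr a170 a234 l390 (Fr a255 a85 l476 (V t582))))) (K a42 (M a132 (F (L l457 (T t2329 (L l390 (T t1775 N)))))) (K a106 (M a5 (F (L l83 (L l98 (T t2330 (L l77 (L l314 (L l390 (T t1038 N))))))))) (K a170 (M a132 (F (L l314 (T t2331 (L l390 (L l464 (T t2332 N))))))) (K a191 (M a240 (F (T t962 (L l315 (T t2316 N))))) (K a255 (M a132 (F (L l457 (T t2329 (L l470 (T t1775 N)))))) N))))))))))))))) (K a135 (M a7 (F (T t5 (T t175 (T t176 (T t177 (K a192 (M a1 (F (T t2333 (L l296 (T t1094 N))))) (K a21 (M a240 (F (T t962 (L l153 (L l279 (T t2317 N)))))) (K a85 (M a240 (F (L l144 (T t1091 (L l153 (L l279 (T t2317 N))))))) (K a213 (Fr a106 a192 l519 (Fr a42 a21 l68 (Fr a170 a234 l390 (Fr a255 a85 l476 (V t582)))))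 (K a42 (M a196 (F (L l279 (T t2334 (L l314 (L l390 (T t1789 N))))))) (K a106 (M a1 (F (T t2333 (L l390 (T t1094 N))))) (K a170 (M a196 (F (L l279 (L l402 (T t2334 (L l208 (L l314 (L l390 (T t1789 N))))))))) (K a191 (M a4 (F (T t1981 (L l494 (T t1978 N))))) (K a255 (M a240 (F (L l440 (T t962 (L l153 (L l279 (T t2317 N))))))) N))))))))))))))) N))))))))))))))))))⟩
def e0_63__199_68 : Ent 4 := ⟨[a0, a63], [a199, a72], (M a48 (F (T t1 (T t2 (T t3 (T t0 (K a16 (M a60 (F (T t43 (T t64 (T t65 N))))) (K a32 (M a60 (F (T t64 (T t67 (L l24 (L l28 (T t65 N))))))) (K a21 (M a192 (F (T t28 (L l47 (L l235 (L l347 (T t20 (L l47 (L l347 (T t29 N)))))))))) (K a37 (M a192 (F (T t19 (L l47 (L l235 (T t20 (T t21 N))))))) (K a53 (M a192 (F (T t19 (L l491 (T t21 (L l132 (T t31 N))))))) (K a26 (M a192 (F (T t28 (L l235 (T t20 (T t21 N)))))) (K a42 (M a192 (F (T t19 (L l235 (T t20 (L l28 (T t29 N))))))) (K a58 (M a192 (F (T t19 (T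 t21 (L l54 (L l132 (L l498 (T t31 N)))))))) (K a15 (M a192 (F (T t57 (L l483 (T t27 (L l235 (L l325 (T t20 N)))))))) N)))))))))))))))⟩
def e0_63__199_69 : Ent 4 := ⟨[a0, a63], [a199, a73], (M a85 (F (T t88 (T t52 (T t89 (T t90 (K a64 (M a12 (F (T t124 (L l277 (L l320 (T t572 N)))))) (K a192 (M a16 (F (T t112 (L l81 (L l314 (L l494 (T t96 (L l296 (T t98 N))))))))) (K a21 (M a48 (F (T t99 (T t50 (L l47 (T t100 N)))))) (K a149 (M a16 (F (T t112 (L l81 (L l235 (L l314 (T t173 (L l170 (T t102 N))))))))) (K a213 (Fr a170 a255 l476 (Fr a42 a21 l68 (Fr a106 a234 l390 (Fr a192 a149 l519 (V t581))))) (K a42 (M a48 (F (T t364 (L l390 (T t50 (L l28 (T t100 N))))))) (K a106 (M a48 (F (T t99 (T t1 (L l390 (T t50 N)))))) (K a170 (M a16 (F (L l404 (T t113 (L l390 (T t98 (L l390 (L l404 (T t97 (L l229 (L l235 (L l404 (T t174 N))))))))))))) (K a255 (M a16 (F (T t112 (L l289 (T t113 (L l289 (L l296 (T t98 N)))))))) N)))))))))))))))⟩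
def e0_63__199_70 : Ent 4 := ⟨[a0, a63], [a199, a74], (M a60 (F (T t67 (T t43 (T t68 (T t69 (K a20 (M a48 (F (T t64 (L l11 (L l318 (L l339 (T t1 (L l11 (L l313 (T t235 N)))))))))) (K a40 (M a48 (F (T t64 (L l318 (L l339 (T t1 (L l52 (L l313 (T t235 N))))))))) (K a21 (M a192 (F (T t72 (L l235 (L l347 (T t73 (L l277 (L l347 (T t74 N))))))))) (K a41 (M a192 (F (T t77 (L l65 (T t35 (L l235 (T t73 N))))))) (K a61 (M a192 (F (T t72 (L l65 (L l515 (T t35 (L l130 (L l493 (T t80 N))))))))) (K a22 (M a192 (F (T t72 (T t21 (L l235 (T t73 N)))))) (K a42 (M a192 (F (T t79 (L l235 (T t73 (L l22 (L l277 (T t74 N)))))))) (K a62 (M a192 (F (T t72 (T t35 (L l66 (L l130 (L l493 (L l516 (T t80 N))))))))) (K a3 (M a192 (F (T t614 (L l477 (T t79 (L l475 (T t35 N))))))) N)))))))))))))))⟩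
def e0_63__199_71 : Ent 4 := ⟨[a0, a63], [a199, a75], (M a85 (F (T t88 (T t52 (T t89 (T t90 (K a64 (M a16 (F (T t260 (L l337 (T t97 (L l116 (T t98 N))))))) (K a192 (M a16 (F (T t260 (L l337 (L l339 (T t97 (L l296 (T t98 N)))))))) (K a21 (M a48 (F (T t99 (T t50 (L l47 (T t100 N)))))) (K a149 (M a16 (F (T t112 (L l235 (L l314 (T t173 (L l170 (T t102 N)))))))) (K a213 (Fr a170 a255 l476 (Fr a42 a21 l68 (Fr a106 a234 l390 (Fr a192 a149 l519 (V t581))))) (K a42 (M a48 (F (T t364 (L l390 (T t50 (L l28 (T t100 N))))))) (K a106 (M a48 (F (T t99 (L l337 (T t1 (L l390 (T t50 N))))))) (K a170 (M a16 (F (L l404 (T t113 (L l390 (T t98 (L l337 (L l390 (L l404 (T t97 (L l229 (L l235 (L l404 (T t174 N)))))))))))))) (K a255 (M a16 (F (T t112 (L l289 (T t113 (L l289 (L l296 (T t98 N)))))))) N)))))))))))))))⟩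
def e0_63__199_72 : Ent 4 := ⟨[a0, a63], [a199, a76], (M a149 (F (T t25 (T t175 (T t176 (L l80 (T t177 (K a192 (M a53 (F (T t178 (L l229 (L l236 (T t179 (L l229 (L l236 (L l296 (L l314 (T t180 N))))))))))) (K a21 (M a48 (F (T t1267 (L l18 (L l229 (T t14 (L l146 (T t13 N)))))))) (K a85 (M a16 (F (T t97 (L l144 (T t190 (L l94 (T t278 N))))))) (K a213 (Fr a106 a192 l519 (Fr a42 a21 l68 (Fr a170 a234 l390 (Fr a255 a85 l476 (V t582))))) (K a42 (M a48 (F (T t11 (L l146 (L l390 (T t13 (L l54 (L l229 (T t14 N))))))))) (K a106 (M a48 (F (T t1 (L l229 (L l498 (T t14 (L l229 (L l390 (L l498 (T t6 (L l390 (T t26 N)))))))))))) (K a170 (M a48 (F (T t11 (L l462 (T t1 (L l146 (L l390 (T t13 N)))))))) (K a191 (M a16 (F (T t97 (T t190 (L l213 (T t191 N)))))) (K a255 (M a16 (F (T t112 (L l266 (T t190 (L l289 (L l296 (T t191 N)))))))) N))))))))))))))))⟩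
def e0_63__199_73 : Ent 4 := ⟨[a0, a63], [a199, a77], (M a85 (F (T t88 (T t52 (T t89 (T t90 (K a64 (M a16 (F (T t97 (L l81 (L l84 (L l147 (L l314 (L l494 (T t96 (L l116 (T t98 N))))))))))) (K a192 (M a16 (F (T t112 (L l81 (L l147 (L l314 (L l494 (T t96 (L l296 (T t98 N)))))))))) (K a21 (M a48 (F (T t99 (T t50 (L l47 (T t100 N)))))) (K a149 (M a16 (F (T t112 (L l81 (L l235 (L l314 (L l326 (T t173 (L l170 (T t102 N)))))))))) (K a213 (Fr a170 a255 l476 (Fr a42 a21 l68 (Fr a106 a234 l390 (Fr a192 a149 l519 (V t581))))) (K a42 (M a48 (F (T t364 (L l390 (T t50 (L l28 (T t100 N))))))) (K a106 (M a48 (F (T t99 (T t1 (L l390 (T t50 N)))))) (K a170 (M a16 (F (L l404 (T t113 (L l390 (T t98 (L l390 (L l404 (T t97 (L l229 (L l235 (L l326 (L l404 (T t174 N)))))))))))))) (K a255 (M a16 (F (T t112 (L l289 (T t113 (L l289 (L l296 (T t98 N)))))))) N)))))))))))))))⟩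
def e0_63__199_74 : Ent 4 := ⟨[a0, a63], [a199, a78], (M a149 (F (T t5 (T t175 (T t176 (T t177 (K a192 (M a53 (F (T t178 (L l229 (L l236 (T t179 (L l229 (L l236 (L l296 (L l314 (T t180 N))))))))))) (K a21 (M a48 (F (T t1267 (L l18 (L l229 (T t14 (T t13 N))))))) (K a85 (M a16 (F (T t504 (L l144 (T t190 (L l94 (L l148 (T t278 N)))))))) (K a213 (Fr a106 a192 l519 (Fr a42 a21 l68 (Fr a170 a234 l390 (Fr a255 a85 l476 (V t582))))) (K a42 (M a48 (F (T t11 (L l390 (T t13 (L l54 (L l229 (T t14 N)))))))) (K a106 (M a48 (F (T t48 (L l229 (L l498 (T t14 (L l229 (L l390 (L l498 (T t6 (L l390 (T t26 N)))))))))))) (K a170 (M a48 (F (T t11 (L l327 (L l462 (T t1 (L l390 (T t13 N)))))))) (K a191 (M a252 (F (T t1850 (L l136 (T t941 N))))) (K a255 (M a16 (F (T t112 (L l266 (T t190 (L l289 (L l296 (T t191 N)))))))) N)))))))))))))))⟩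
def e0_63__199_75 : Ent 4 := ⟨[a0, a63], [a199, a79], (M a149 (F (T t25 (T t175 (T t176 (L l84 (T t177 (K a192 (M a53 (F (T t178 (L l229 (L l236 (T t179 (L l84 (L l229 (L l236 (L l296 (L l314 (T t180 N)))))))))))) (K a21 (M a48 (F (T t1267 (L l18 (L l229 (T t14 (L l18 (T t1082 N)))))))) (K a85 (M a16 (F (T t504 (L l144 (T t190 (L l94 (L l151 (T t278 N)))))))) (K a213 (Fr a106 a192 l519 (Fr a42 a21 l68 (Fr a170 a234 l390 (Fr a255 a85 l476 (V t582))))) (K a42 (M a48 (F (T t11 (L l390 (T t1082 (L l54 (L l229 (T t14 N)))))))) (K a106 (M a48 (F (T t48 (L l229 (L l498 (T t14 (L l229 (L l390 (L l498 (T t6 (L l390 (T t26 N)))))))))))) (K a170 (M a48 (F (T t11 (L l462 (T t48 (L l151 (L l390 (T t13 N)))))))) (K a191 (M a240 (F (T t962 (T t963 N)))) (K a255 (M a16 (F (T t112 (L l266 (T t190 (L l289 (L l296 (T t191 N)))))))) N))))))))))))))))⟩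
def e0_63__199_76 : Ent 4 := ⟨[a0, a63], [a199, a80], (M a60 (F (T t67 (T t43 (T t68 (T t69 (K a20 (M a48 (F (T t2 (T t64 (L l11 (L l313 (T t235 N))))))) (K a40 (M a48 (F (T t64 (T t1 (L l52 (L l313 (T t235 N))))))) (K a21 (M a192 (F (T t72 (L l235 (L l347 (T t73 (L l277 (L l347 (T t74 N))))))))) (K a41 (M a192 (F (T t79 (L l65 (T t35 (L l235 (T t73 N))))))) (K a61 (M a192 (F (T t72 (L l65 (L l515 (T t35 (L l493 (T t80 N)))))))) (K a22 (M a192 (F (T t72 (T t21 (L l235 (T t73 N)))))) (K a42 (M a192 (F (T t79 (L l235 (T t73 (L l22 (L l277 (T t74 N)))))))) (K a62 (M a192 (F (T t72 (T t35 (L l66 (L l493 (L l516 (T t80 N)))))))) (K a3 (M a192 (F (T t1343 (L l477 (T t79 (L l475 (T t35 N))))))) N)))))))))))))))⟩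
def e0_63__199_77 : Ent 4 := ⟨[a0, a63], [a199, a81], (M a60 (F (T t67 (T t43 (T t68 (L l449 (T t69 (K a20 (M a48 (F (T t2 (T t64 (L l11 (L l313 (T t235 N))))))) (K a40 (M a48 (F (T t64 (T t1 (L l52 (L l313 (T t235 N))))))) (K a21 (M a192 (F (T t72 (L l235 (L l347 (T t73 (L l277 (L l347 (T t74 N))))))))) (K a41 (M a192 (F (T t79 (L l65 (T t35 (L l235 (T t73 N))))))) (K a61 (M a192 (F (T t72 (L l65 (L l515 (T t35 (L l493 (T t80 N)))))))) (K a22 (M a192 (F (T t72 (T t21 (L l235 (T t73 N)))))) (K a42 (M a192 (F (T t79 (L l235 (T t73 (L l22 (L l277 (T t74 N)))))))) (K a62 (M a192 (F (T t72 (T t35 (L l66 (L l493 (L l516 (T t80 N)))))))) (K a3 (M a192 (F (T t1343 (L l477 (T t79 (L l475 (T t35 N))))))) N))))))))))))))))⟩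
def e0_63__199_78 : Ent 4 := ⟨[a0, a63], [a199, a82], (M a85 (F (T t88 (T t52 (T t89 (T t90 (K a64 (M a12 (F (T t124 (L l277 (T t572 N))))) (K a192 (M a16 (F (T t260 (L l339 (T t97 (L l86 (L l296 (T t98 N)))))))) (K a21 (M a48 (F (T t99 (L l453 (T t50 (L l47 (T t100 N))))))) (K a149 (M a16 (F (T t112 (L l235 (L l314 (T t173 (L l170 (T t102 N)))))))) (K a213 (Fr a170 a255 l476 (Fr a42 a21 l68 (Fr a106 a234 l390 (Fr a192 a149 l519 (V t581))))) (K a42 (M a48 (F (T t364 (L l390 (L l453 (T t50 (L l28 (T t100 N)))))))) (K a106 (M a48 (F (T t1 (L l104 (L l314 (L l494 (T t509 (L l390 (L l453 (T t50 N)))))))))) (K a170 (M a16 (F (L l404 (T t113 (L l86 (L l390 (T t98 (L l390 (L l404 (T t97 (L l229 (L l235 (L l404 (T t174 N)))))))))))))) (K a255 (M a16 (F (T t112 (L l289 (T t113 (L l86 (L l289 (L l296 (T t98 N))))))))) N)))))))))))))))⟩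
def e0_63__199_79 : Ent 4 := ⟨[a0, a63], [a199, a83], (M a85 (F (T t88 (T t52 (T t89 (T t90 (K a64 (M a240 (F (T t386 (L l93 (T t387 N))))) (K a192 (M a16 (F (T t260 (L l339 (T t97 (L l86 (L l296 (T t98 N)))))))) (K a21 (M a48 (F (T t99 (T t50 (L l47 (T t100 N)))))) (K a149 (M a16 (F (T t112 (L l235 (L l314 (T t173 (L l93 (L l170 (T t102 N))))))))) (K a213 (Fr a170 a255 l476 (Fr a42 a21 l68 (Fr a106 a234 l390 (Fr a192 a149 l519 (V t581))))) (K a42 (M a48 (F (T t364 (L l390 (T t50 (L l28 (T t100 N))))))) (K a106 (M a48 (F (T t99 (T t1 (L l390 (T t50 N)))))) (K a170 (M a16 (F (L l404 (T t113 (L l86 (L l390 (T t98 (L l390 (L l404 (T t97 (L l229 (L l235 (L l404 (T t174 N)))))))))))))) (K a255 (M a16 (F (T t112 (L l289 (T t113 (L l86 (L l289 (L l296 (T t98 N))))))))) N)))))))))))))))⟩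
def e0_63__199_80 : Ent 4 := ⟨[a0, a63], [a199, a84], (M a85 (F (T t52 (L l140 (T t88 (L l140 (T t89 (L l140 (T t90 (K a64 (M a12 (L l140 (F (T t124 (L l277 (T t572 (K a104 (M a124 (F (T t124 (L l277 (T t572 N))))) (K a124 (M a104 (F (T t122 (L l314 (L l454 (T t573 (L l109 (T t124 N)))))))) N)))))))) (K a192 (M a16 (F (T t112 (L l314 (L l494 (T t96 (L l90 (L l296 (T t98 N))))))))) (K a21 (M a48 (F (T t99 (T t50 (L l47 (T t100 N)))))) (K a149 (M a16 (F (T t112 (L l235 (L l314 (T t173 (L l170 (T t102 N)))))))) (K a213 (Fr a170 a255 l476 (Fr a42 a21 l68 (Fr a106 a234 l390 (Fr a192 a149 l519 (V t581))))) (K a42 (M a48 (F (L l28 (T t99 (L l390 (T t50 (L l28 (T t100 N)))))))) (K a106 (M a48 (F (T t1 (L l104 (L l314 (L l494 (T t509 (L l390 (T t50 N))))))))) (K a170 (M a16 (F (L l404 (T t113 (L l90 (L l390 (T t98 (L l390 (L l404 (T t97 (L l229 (L l235 (L l404 (T t174 N)))))))))))))) (K a255 (M a16 (F (T t112 (L l289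 (T t113 (L l90 (L l289 (L l296 (T t98 N))))))))) N))))))))))))))))))⟩
def e0_63__199_81 : Ent 4 := ⟨[a0, a63], [a199, a85], (M a48 (F (T t0 (L l347 (T t1 (L l455 (T t2 (L l347 (L l368 (T t3 (K a16 (M a60 (L l368 (F (T t43 (T t64 (L l455 (T t65 (K a154 (M a223 (F (T t43 (L l493 (L l498 (L l500 (T t451 (L l455 (L l498 (T t65 N)))))))))) (K a223 (M a154 (F (T t43 (L l340 (T t473 N))))) N))))))))) (K a32 (M a60 (F (T t64 (L l347 (L l350 (T t67 (L l24 (L l28 (L l455 (T t65 N)))))))))) (K a21 (M a149 (F (L l229 (T t4 (L l144 (T t13 (L l18 (L l123 (L l144 (L l229 (L l368 (T t482 (L l18 (L l123 (L l229 (L l235 (L l368 (T t483 N)))))))))))))))))) (K a37 (M a192 (F (T t27 (L l47 (L l235 (L l347 (T t20 (L l144 (L l229 (L l368 (T t224 N))))))))))) (K a53 (M a12 (F (T t443 (L l47 (L l347 (T t122 (L l47 (L l347 (T t146 N))))))))) (K a26 (M a192 (F (T t28 (L l235 (L l347 (T t20 (L l18 (L l54 (L l144 (L l229 (L l368 (T t224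 N)))))))))))) (K a42 (M a192 (F (T t27 (L l235 (L l347 (T t20 (L l54 (L l144 (L l229 (L l368 (L l390 (T t224 N)))))))))))) (K a58 (M a12 (F (T t443 (L l347 (T t122 (L l347 (T t146 N))))))) (K a15 (M a192 (F (L l483 (T t27 (L l235 (L l325 (L l347 (T t20 (L l144 (L l229 (L l368 (T t224 N)))))))))))) N)))))))))))))))))))⟩
def e0_63__199_82 : Ent 4 := ⟨[a0, a63], [a199, a86], (M a48 (F (T t1 (T t2 (T t3 (T t0 (K a16 (M a60 (F (T t64 (L l14 (L l18 (L l477 (T t67 (L l351 (T t65 N))))))))) (K a32 (M a60 (F (T t64 (L l477 (T t67 (L l24 (L l28 (L l351 (T t65 N))))))))) (K a21 (M a192 (F (T t837 (L l47 (L l235 (L l347 (L l351 (T t20 (L l47 (L l347 (L l351 (T t29 N)))))))))))) (K a37 (M a192 (F (T t19 (L l47 (L l235 (L l351 (T t20 (L l351 (T t21 N))))))))) (K a53 (M a192 (F (T t19 (L l351 (L l491 (T t21 (L l142 (T t31 N)))))))) (K a26 (M a192 (F (T t27 (L l235 (L l351 (T t20 (L l351 (T t21 N)))))))) (K a42 (M a192 (F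 (T t19 (L l235 (L l351 (T t20 (L l28 (L l351 (T t29 N))))))))) (K a58 (M a192 (F (T t19 (L l351 (T t21 (L l54 (L l142 (L l498 (T t31 N))))))))) (K a15 (M a192 (F (T t1922 (L l235 (L l325 (L l351 (T t20 (L l351 (L l469 (T t21 N)))))))))) N)))))))))))))))⟩
def e0_63__199_83 : Ent 4 := ⟨[a0, a63], [a199, a87], (M a85 (F (T t88 (L l143 (L l475 (T t52 (T t89 (T t90 (K a64 (M a240 (F (T t933 (L l93 (T t387 N))))) (K a192 (M a16 (F (T t112 (L l314 (L l367 (L l494 (T t96 (L l296 (L l367 (T t98 N)))))))))) (K a21 (M a48 (F (L l367 (T t935 (L l143 (T t50 (L l47 (L l143 (L l367 (T t100 N)))))))))) (K a149 (M a16 (F (T t112 (L l235 (L l314 (L l367 (T t173 (L l93 (L l170 (T t102 N)))))))))) (K a213 (Fr a170 a255 l476 (Fr a42 a21 l68 (Fr a106 a234 l390 (Fr a192 a149 l519 (V t581))))) (K a42 (M a48 (F (L l475 (T t364 (L l143 (L l390 (T t50 (L l28 (L l143 (L l367 (T t100 N))))))))))) (K a106 (M a48 (F (T t1 (L l104 (L l314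 (L l367 (L l494 (T t509 (L l143 (L l390 (T t50 N))))))))))) (K a170 (M a16 (F (L l390 (L l404 (T t97 (L l367 (L l390 (T t98 (L l143 (L l367 (L l404 (T t113 (L l229 (L l235 (L l367 (L l404 (T t174 N))))))))))))))))) (K a255 (M a3 (F (T t85 (L l143 (L l261 (L l349 (T t376 (L l261 (L l296 (T t357 (L l261 (L l296 (T t1921 N))))))))))))) N)))))))))))))))))⟩
def e0_63__199_84 : Ent 4 := ⟨[a0, a63], [a199, a88], (M a85 (F (T t88 (T t52 (T t89 (T t90 (K a64 (M a12 (F (T t124 (L l277 (L l460 (T t572 N)))))) (K a192 (M a16 (F (T t260 (L l339 (T t97 (L l90 (L l296 (T t98 N)))))))) (K a21 (M a48 (F (T t99 (L l478 (T t50 (L l47 (T t100 N))))))) (K a149 (M a16 (F (T t112 (L l235 (L l314 (T t173 (L l170 (T t102 N)))))))) (K a213 (Fr a170 a255 l476 (Fr a42 a21 l68 (Fr a106 a234 l390 (Fr a192 a149 l519 (V t581))))) (K a42 (M a48 (F (T t364 (L l390 (L l478 (T t50 (L l28 (T t100 N)))))))) (K a106 (M a48 (F (T t1 (L l104 (L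 l314 (L l494 (T t509 (L l390 (L l478 (T t50 N)))))))))) (K a170 (M a16 (F (L l404 (T t113 (L l90 (L l390 (T t98 (L l390 (L l404 (T t97 (L l229 (L l235 (L l404 (T t174 N)))))))))))))) (K a255 (M a16 (F (T t112 (L l289 (T t113 (L l90 (L l289 (L l296 (T t98 N))))))))) N)))))))))))))))⟩
def e0_63__199_85 : Ent 4 := ⟨[a0, a63], [a199, a89], (M a48 (F (T t1 (T t2 (T t3 (T t0 (K a16 (M a60 (F (T t43 (T t64 (T t65 N))))) (K a32 (M a60 (F (T t64 (T t67 (L l24 (L l28 (T t65 N))))))) (K a21 (M a192 (F (T t837 (L l47 (L l235 (L l347 (L l371 (T t20 (L l47 (L l347 (L l371 (T t29 N)))))))))))) (K a37 (M a192 (F (T t19 (L l47 (L l235 (L l371 (T t20 (L l371 (T t21 N))))))))) (K a53 (M a192 (F (T t19 (L l371 (L l491 (T t21 (L l132 (T t31 N)))))))) (K a26 (M a192 (F (T t27 (L l235 (L l371 (T t20 (L l371 (T t21 N)))))))) (K a42 (M a192 (F (T t19 (L l235 (L l371 (T t20 (L l28 (L l371 (T t29 N))))))))) (K a58 (M a192 (F (T t19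 (L l371 (T t21 (L l54 (L l132 (L l498 (T t31 N))))))))) (K a15 (M a192 (F (T t1922 (L l235 (L l325 (L l371 (T t20 (L l371 (L l469 (T t21 N)))))))))) N)))))))))))))))⟩
def e0_63__199_86 : Ent 4 := ⟨[a0, a63], [a199, a90], (M a60 (F (T t67 (T t43 (T t68 (T t69 (K a20 (M a48 (F (T t64 (L l11 (L l462 (L l483 (T t1 (L l11 (L l313 (T t235 N)))))))))) (K a40 (M a48 (F (T t64 (L l462 (L l483 (T t1 (L l52 (L l313 (T t235 N))))))))) (K a21 (M a192 (F (T t72 (L l235 (L l347 (L l375 (T t73 (L l277 (L l347 (L l375 (T t74 N))))))))))) (K a41 (M a192 (F (T t77 (L l65 (L l375 (T t35 (L l235 (L l375 (T t73 N))))))))) (K a61 (M a192 (F (T t72 (L l65 (L l375 (L l515 (T t35 (L l130 (L l493 (T t80 N)))))))))) (K a22 (M a192 (F (T t72 (L l375 (T t21 (L l235 (L l375 (T t73 N)))))))) (K a42 (M a192 (F (T t77 (L l235 (L l375 (T t73 (L l22 (L l277 (L l375 (T t74 N)))))))))) (K a62 (M a192 (F (T t72 (L l375 (T t35 (L l66 (L l130 (L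 l493 (L l516 (T t80 N)))))))))) (K a3 (M a192 (F (T t2658 (L l375 (L l475 (T t35 (L l235 (L l307 (L l375 (T t73 N)))))))))) N)))))))))))))))⟩
def e0_63__199_87 : Ent 4 := ⟨[a0, a63], [a199, a91], (M a85 (F (T t88 (T t52 (T t89 (T t90 (K a64 (M a240 (F (T t933 (L l93 (T t387 N))))) (K a192 (M a16 (F (T t112 (L l314 (L l494 (T t96 (L l296 (T t98 N)))))))) (K a21 (M a48 (F (T t99 (T t50 (L l47 (T t100 N)))))) (K a149 (M a16 (F (T t112 (L l235 (L l314 (T t173 (L l93 (L l170 (T t102 N))))))))) (K a213 (Fr a170 a255 l476 (Fr a42 a21 l68 (Fr a106 a234 l390 (Fr a192 a149 l519 (V t581))))) (K a42 (M a48 (F (T t364 (L l390 (T t50 (L l28 (T t100 N))))))) (K a106 (M a48 (F (T t99 (L l481 (T t1 (L l390 (T t50 N))))))) (K a170 (M a16 (F (L l404 (T t113 (L l390 (T t98 (L l373 (L l390 (L l404 (L l481 (T t97 (L l229 (L l235 (L l404 (T t174 N))))))))))))))) (K a255 (M a16 (F (T t112 (L l289 (T t113 (L l289 (L l296 (T t98 N))))))))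 N)))))))))))))))⟩
def e0_63__199_88 : Ent 4 := ⟨[a0, a63], [a199, a92], (M a85 (F (T t88 (T t52 (T t89 (T t90 (K a64 (M a240 (F (T t386 (L l89 (T t387 N))))) (K a192 (M a16 (F (T t260 (L l339 (T t97 (L l90 (L l296 (T t98 N)))))))) (K a21 (M a48 (F (T t99 (T t50 (L l47 (T t100 N)))))) (K a149 (M a16 (F (T t112 (L l235 (L l314 (T t173 (L l89 (L l170 (T t102 N))))))))) (K a213 (Fr a170 a255 l476 (Fr a42 a21 l68 (Fr a106 a234 l390 (Fr a192 a149 l519 (V t581))))) (K a42 (M a48 (F (T t364 (L l390 (T t50 (L l28 (T t100 N))))))) (K a106 (M a48 (F (T t99 (T t1 (L l390 (T t50 N)))))) (K a170 (M a16 (F (L l404 (T t113 (L l90 (L l390 (T t98 (L l390 (L l404 (T t97 (L l229 (L l235 (L l404 (T t174 N)))))))))))))) (K a255 (M a16 (F (T t112 (L l289 (T t113 (L l90 (L l289 (L l296 (T t98 N))))))))) N)))))))))))))))⟩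
def e0_63__199_89 : Ent 4 := ⟨[a0, a63], [a199, a93], (M a85 (F (T t88 (L l138 (L l470 (T t52 (T t89 (T t90 (K a64 (M a240 (F (T t933 (L l89 (T t387 N))))) (K a192 (M a16 (F (T t112 (L l314 (L l362 (L l494 (T t96 (L l296 (L l362 (T t98 N)))))))))) (K a21 (M a48 (F (L l362 (T t935 (L l138 (T t50 (L l47 (L l138 (L l362 (T t100 N)))))))))) (K a149 (M a16 (F (T t112 (L l235 (L l314 (L l362 (T t173 (L l89 (L l170 (T t102 N)))))))))) (K a213 (Fr a170 a255 l476 (Fr a42 a21 l68 (Fr a106 a234 l390 (Fr a192 a149 l519 (V t581))))) (K a42 (M a48 (F (L l470 (T t364 (L l138 (L l390 (T t50 (L l28 (L l138 (L l362 (T t100 N))))))))))) (K a106 (M a48 (F (T t1 (L l104 (L l314 (L l362 (L l494 (T t509 (L l138 (L l390 (T t50 N))))))))))) (K a170 (M a16 (F (L l390 (L l404 (T t97 (L l362 (L l390 (T t98 (L l138 (L l362 (L l404 (T t113 (L l229 (L l235 (L l362 (L l404 (T t174 N))))))))))))))))) (K a255 (M a12 (F (T t1252 (L l138 (L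 l265 (L l277 (L l359 (T t574 (L l265 (L l277 (L l296 (T t572 (L l265 (L l296 (T t1923 N))))))))))))))) N)))))))))))))))))⟩
def e0_63__199_90 : Ent 4 := ⟨[a0, a63], [a199, a94], (M a85 (F (T t88 (T t52 (T t89 (T t90 (K a64 (M a240 (F (T t933 (L l89 (T t387 N))))) (K a192 (M a16 (F (T t112 (L l314 (L l494 (T t96 (L l296 (T t98 N)))))))) (K a21 (M a48 (F (T t99 (T t50 (L l47 (T t100 N)))))) (K a149 (M a16 (F (T t112 (L l235 (L l314 (T t173 (L l89 (L l170 (T t102 N))))))))) (K a213 (Fr a170 a255 l476 (Fr a42 a21 l68 (Fr a106 a234 l390 (Fr a192 a149 l519 (V t581))))) (K a42 (M a48 (F (T t364 (L l390 (T t50 (L l28 (T t100 N))))))) (K a106 (M a48 (F (T t99 (L l471 (T t1 (L l390 (T t50 N))))))) (K a170 (M a16 (F (L l404 (T t113 (L l390 (T t98 (L l363 (L l390 (L l404 (L l471 (T t97 (L l229 (L l235 (L l404 (T t174 N))))))))))))))) (K a255 (M a16 (F (T t112 (L l289 (T t113 (L l289 (L l296 (T t98 N)))))))) N)))))))))))))))⟩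
def e0_63__199_91 : Ent 4 := ⟨[a0, a63], [a199, a95], (M a85 (F (T t88 (L l137 (L l469 (T t52 (T t89 (T t90 (K a64 (M a252 (F (T t93 (L l93 (T t92 N))))) (K a192 (M a16 (F (T t112 (L l314 (T t1924 (L l296 (T t1925 N))))))) (K a21 (M a48 (F (L l361 (T t935 (L l137 (T t50 (L l47 (L l137 (L l361 (T t100 N)))))))))) (K a149 (M a48 (F (T t132 (L l220 (L l235 (L l314 (T t873 (L l137 (L l220 (T t50 N)))))))))) (K a213 (Fr a170 a255 l476 (Fr a42 a21 l68 (Fr a106 a234 l390 (Fr a192 a149 l519 (V t581))))) (K a42 (M a48 (F (L l469 (T t364 (L l137 (L l390 (T t50 (L l28 (L l137 (L l361 (T t100 N))))))))))) (K a106 (M a48 (F (T t48 (L l104 (L l314 (L l361 (L l494 (T t509 (L l137 (L l390 (T t50 N))))))))))) (K a170 (M a48 (F (T t607 (L l137 (L l361 (L l404 (T t100 (L l229 (L l390 (T t51 (L l361 (L l390 (L l404 (T t568 N)))))))))))))) (K a255 (M a15 (F (T t1254 (L l137 (L l266 (L l361 (T t1497 (L l266 (L l296 (T t1484 (L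 l266 (L l296 (T t1926 N))))))))))))) N)))))))))))))))))⟩
def e0_63__199_92 : Ent 4 := ⟨[a0, a63], [a199, a96], (M a60 (F (T t67 (T t43 (T t68 (T t69 (K a20 (M a48 (F (T t2 (T t64 (L l11 (L l313 (T t235 N))))))) (K a40 (M a48 (F (T t64 (T t1 (L l52 (L l313 (T t235 N))))))) (K a21 (M a192 (F (T t77 (L l235 (L l347 (T t73 (L l277 (L l347 (T t74 N))))))))) (K a41 (M a192 (F (T t79 (L l65 (T t35 (L l235 (T t73 N))))))) (K a61 (M a192 (F (T t79 (L l65 (L l515 (T t35 (L l100 (L l104 (L l493 (T t80 N)))))))))) (K a22 (M a192 (F (T t77 (T t21 (L l235 (T t73 N)))))) (K a42 (M a192 (F (T t79 (L l235 (T t73 (L l22 (L l277 (T t74 N)))))))) (K a62 (M a192 (F (T t79 (T t35 (L l66 (L l100 (L l104 (L l493 (L l516 (T t80 N)))))))))) (K a3 (M a192 (F (T t614 (L l477 (T t79 (L l475 (T t35 N))))))) N)))))))))))))))⟩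
def e0_63__199_93 : Ent 4 := ⟨[a0, a63], [a199, a97], (M a85 (F (T t88 (T t52 (T t89 (T t90 (K a64 (M a12 (F (T t124 (L l277 (T t572 N))))) (K a192 (M a16 (F (L l380 (T t260 (T t966 (L l339 (L l380 (T t97 N)))))))) (K a21 (M a48 (F (L l380 (T t99 (T t50 (L l47 (L l380 (T t100 N)))))))) (K a149 (M a16 (F (L l380 (T t112 (L l314 (T t666 (L l170 (T t102 N)))))))) (K a213 (Fr a170 a255 l476 (Fr a42 a21 l68 (Fr a106 a234 l390 (Fr a192 a149 l519 (V t581))))) (K a42 (M a48 (F (T t364 (L l390 (T t50 (L l28 (L l380 (T t100 N)))))))) (K a106 (M a48 (F (T t364 (T t1 (L l390 (T t50 N)))))) (K a170 (M a16 (F (L l380 (L l404 (T t113 (L l390 (T t98 (L l380 (L l390 (L l404 (T t97 (L l229 (L l235 (L l380 (L l404 (T t174 N)))))))))))))))) (K a255 (M a16 (F (L l380 (T t112 (L l289 (L l296 (T t98 (L l289 (L l380 (T t113 N)))))))))) N)))))))))))))))⟩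
def e0_63__199_94 : Ent 4 := ⟨[a0, a63], [a199, a98], (M a48 (F (T t1 (T t2 (T t3 (T t0 (K a16 (M a60 (F (T t43 (L l486 (L l489 (T t64 (T t65 N))))))) (K a32 (M a60 (F (T t68 (L l486 (L l489 (T t64 (L l24 (L l28 (T t65 N))))))))) (K a21 (M a192 (F (T t27 (L l47 (L l235 (L l347 (T t20 (L l47 (L l347 (T t29 N)))))))))) (K a37 (M a192 (F (T t27 (L l47 (L l235 (T t20 (T t21 N))))))) (K a53 (M a192 (F (T t27 (L l491 (T t21 (L l96 (L l102 (T t31 N)))))))) (K a26 (M a192 (F (T t27 (L l235 (T t20 (T t21 N)))))) (K a42 (M a192 (F (T t27 (L l235 (T t20 (L l28 (T t29 N))))))) (K a58 (M a192 (F (T t27 (T t21 (L l54 (L l96 (L l102 (L l498 (T t31 N))))))))) (K a15 (M a192 (F (T t47 (L l483 (T t27 (L l235 (L l325 (T t20 N)))))))) N)))))))))))))))⟩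
def e0_63__199_95 : Ent 4 := ⟨[a0, a63], [a199, a99], (M a85 (F (T t88 (T t52 (T t89 (T t90 (K a64 (M a12 (F (T t124 (L l277 (T t572 N))))) (K a192 (M a16 (F (T t112 (L l314 (L l494 (T t96 (L l296 (T t98 N)))))))) (K a21 (M a48 (F (T t99 (T t50 (L l47 (T t100 N)))))) (K a149 (M a16 (F (T t112 (L l235 (L l314 (T t173 (L l103 (L l170 (T t102 N))))))))) (K a213 (Fr a170 a255 l476 (Fr a42 a21 l68 (Fr a106 a234 l390 (Fr a192 a149 l519 (V t581))))) (K a42 (M a48 (F (T t364 (L l390 (T t50 (L l28 (T t100 N))))))) (K a106 (M a48 (F (T t99 (T t1 (L l390 (T t50 N)))))) (K a170 (M a16 (F (L l404 (T t113 (L l390 (T t98 (L l390 (L l404 (T t97 (L l229 (L l235 (L l404 (T t174 N))))))))))))) (K a255 (M a16 (F (T t112 (L l289 (T t113 (L l289 (L l296 (T t98 N)))))))) N)))))))))))))))⟩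
def e0_63__199_96 : Ent 4 := ⟨[a0, a63], [a199, a100], (M a85 (F (T t88 (T t52 (T t89 (T t90 (K a64 (M a252 (F (T t91 (L l400 (T t92 N))))) (K a192 (M a16 (F (L l400 (T t260 (T t966 (L l339 (L l400 (T t97 N)))))))) (K a21 (M a48 (F (L l400 (T t99 (T t50 (L l47 (L l400 (T t100 N)))))))) (K a149 (M a16 (F (L l400 (T t112 (L l314 (T t666 (L l170 (T t102 N)))))))) (K a213 (Fr a170 a255 l476 (Fr a42 a21 l68 (Fr a106 a234 l390 (Fr a192 a149 l519 (V t581))))) (K a42 (M a48 (F (T t364 (L l390 (T t50 (L l28 (L l400 (T t100 N)))))))) (K a106 (M a48 (F (T t364 (T t1 (L l390 (T t50 N)))))) (K a170 (M a16 (F (L l400 (L l404 (T t113 (L l390 (T t98 (L l390 (L l400 (L l404 (T t97 (L l229 (L l235 (L l400 (L l404 (T t174 N)))))))))))))))) (K a255 (M a16 (F (L l400 (T t112 (L l289 (L l296 (T t98 (L l289 (L l400 (T t113 N)))))))))) N)))))))))))))))⟩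
def e0_63__199_97 : Ent 4 := ⟨[a0, a63], [a199, a101], (M a60 (L l494 (F (T t67 (T t43 (T t68 (T t69 (K a20 (M a52 (F (L l493 (T t1520 (L l11 (L l313 (L l404 (T t1521 (L l11 (L l491 (T t1522 N))))))))))) (K a40 (M a52 (F (L l52 (T t5571 (L l22 (L l313 (L l509 (T t5572 (L l52 (L l493 (T t1520 (L l52 (L l313 (T t5573 N)))))))))))))) (K a21 (M a150 (F (L l277 (T t1135 (L l65 (T t1136 (L l65 (L l277 (T t1137 N))))))))) (K a41 (M a150 (F (L l235 (T t2366 (L l65 (T t1136 (L l22 (L l65 (L l277 (T t1137 N)))))))))) (K a61 (M a52 (F (L l314 (T t3773 (L l35 (L l65 (L l491 (T t1522 (L l35 (L l386 (L l491 (T t3774 (L l313 (T t4806 N)))))))))))))) (K a22 (M a52 (F (L l314 (T t3773 (L l493 (T t1520 (L l48 (L l66 (L l386 (L l491 (T t3774 N))))))))))) (K a42 (M a150 (F (T t1136 (L l22 (L l277 (T t1135 (L l22 (L l277 (T t1137 N))))))))) (K a62 (M a52 (F (T t5571 (L l314 (T t3773 (L l66 (L l386 (L l491 (T t3774 (L l66 (L l313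 (T t4806 N)))))))))))) (K a3 (M a52 (F (L l509 (T t1629 (L l9 (L l314 (T t3773 (L l386 (L l491 (T t3774 N)))))))))) (K a52 (M a150 (F (T t43 (L l277 (T t1135 (L l490 (T t1136 N))))))) (K a150 (M a52 (F (T t43 (L l493 (T t1520 (L l314 (T t3773 N))))))) N))))))))))))))))))⟩
def e0_63__199_98 : Ent 4 := ⟨[a0, a63], [a199, a102], (M a48 (F (T t1 (T t2 (T t3 (T t0 (K a16 (M a60 (F (T t43 (L l510 (L l513 (T t64 (T t65 N))))))) (K a32 (M a60 (F (T t67 (L l510 (L l513 (T t64 (L l24 (L l28 (T t65 N))))))))) (K a21 (M a192 (F (T t837 (L l47 (L l235 (L l347 (L l495 (T t20 (L l47 (L l347 (L l495 (T t29 N)))))))))))) (K a37 (M a192 (F (T t19 (L l47 (L l235 (L l495 (T t20 (L l495 (T t21 N))))))))) (K a53 (M a192 (F (T t19 (L l491 (L l495 (T t21 (L l102 (T t31 N)))))))) (K a26 (M a192 (F (T t27 (L l235 (L l495 (T t20 (L l495 (T t21 N)))))))) (K a42 (M a192 (F (T t19 (L l235 (L l495 (T t20 (L l28 (L l495 (T t29 N)))))))))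 (K a58 (M a192 (F (T t19 (L l495 (T t21 (L l54 (L l102 (L l498 (T t31 N))))))))) (K a15 (M a192 (F (T t1922 (L l235 (L l325 (L l495 (T t20 (L l469 (L l495 (T t21 N)))))))))) N)))))))))))))))⟩
def e0_63__199_99 : Ent 4 := ⟨[a0, a63], [a199, a103], (M a149 (L l493 (F (T t5 (T t175 (T t176 (T t177 (K a192 (M a55 (F (T t3722 (L l229 (L l232 (T t2433 (L l229 (L l232 (L l296 (T t5574 N)))))))))) (K a21 (M a151 (F (L l103 (T t4250 (L l403 (T t4251 (L l103 (T t4252 (L l494 (T t4259 N)))))))))) (K a85 (M a55 (F (T t3722 (L l229 (T t3720 (L l97 (L l126 (T t3721 N)))))))) (K a213 (Fr a106 a192 l519 (Fr a42 a21 l68 (Fr a170 a234 l390 (Fr a255 a85 l476 (V t582))))) (K a42 (M a151 (F (T t4257 (L l103 (T t4252 (L l103 (L l390 (T t4258 (L l390 (L l494 (T t4259 N))))))))))) (K a106 (M a55 (F (L l390 (L l501 (T t3722 (L l229 (L l390 (T t5574 (L l229 (L l501 (T t2433 (L l229 (L l501 (T t5575 N)))))))))))))) (K a170 (M a55 (F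 (L l229 (T t3720 (L l314 (L l390 (T t2039 (L l229 (L l390 (T t5574 (L l229 (L l402 (T t5575 N))))))))))))) (K a191 (M a55 (F (T t3722 (L l214 (L l229 (T t5576 (L l189 (L l229 (T t5574 N))))))))) (K a255 (M a55 (F (T t3722 (L l229 (T t5576 (L l229 (L l296 (T t5574 N)))))))) (K a151 (M a55 (F (T t175 (L l314 (T t2039 (L l229 (T t5576 N))))))) (K a55 (M a151 (F (T t25 (L l103 (T t4273 (L l103 (T t4274 N))))))) N))))))))))))))))))⟩
def e0_63__199_100 : Ent 4 := ⟨[a0, a63], [a199, a104], (M a48 (F (T t1 (T t2 (T t3 (T t0 (K a16 (M a60 (F (T t64 (L l14 (L l18 (T t67 (L l388 (T t65 N)))))))) (K a32 (M a60 (F (T t64 (T t67 (L l24 (L l28 (L l388 (T t65 N)))))))) (K a21 (M a192 (F (T t27 (L l47 (L l235 (L l347 (T t20 (L l47 (L l347 (T t29 N)))))))))) (K a37 (M a192 (F (T t27 (L l47 (L l235 (T t20 (T t21 N))))))) (K a53 (M a192 (F (T t27 (L l491 (T t21 (L l98 (L l100 (T t31 N)))))))) (K a26 (M a192 (F (T t27 (L l235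 (T t20 (T t21 N)))))) (K a42 (M a192 (F (T t27 (L l235 (T t20 (L l28 (T t29 N))))))) (K a58 (M a192 (F (T t27 (T t21 (L l54 (L l98 (L l100 (L l498 (T t31 N))))))))) (K a15 (M a192 (F (T t47 (L l483 (T t27 (L l235 (L l325 (T t20 N)))))))) N)))))))))))))))⟩
def e0_63__199_101 : Ent 4 := ⟨[a0, a63], [a199, a105], (M a48 (F (T t1 (T t2 (T t3 (T t0 (K a16 (M a60 (F (T t70 (L l14 (L l18 (T t67 (L l392 (T t65 N)))))))) (K a32 (M a60 (F (T t70 (T t67 (L l24 (L l28 (L l392 (T t65 N)))))))) (K a21 (M a192 (F (T t837 (L l47 (L l235 (L l347 (L l515 (T t20 (L l47 (L l347 (L l515 (T t29 N)))))))))))) (K a37 (M a192 (F (T t19 (L l47 (L l235 (L l515 (T t20 (L l515 (T t21 N))))))))) (K a53 (M a192 (F (T t19 (L l491 (L l515 (T t21 (L l98 (T t31 N)))))))) (K a26 (M a192 (F (T t27 (L l235 (L l515 (T t20 (L l515 (T t21 N)))))))) (K a42 (M a192 (F (T t19 (L l235 (L l515 (T t20 (L l28 (L l515 (T t29 N))))))))) (K a58 (M a192 (F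 (T t19 (L l515 (T t21 (L l54 (L l98 (L l498 (T t31 N))))))))) (K a15 (M a192 (F (T t1922 (L l235 (L l325 (L l515 (T t20 (L l469 (L l515 (T t21 N)))))))))) N)))))))))))))))⟩
def e0_63__199_102 : Ent 4 := ⟨[a0, a63], [a199, a106], (M a48 (F (T t1 (L l390 (L l498 (T t2 (L l411 (T t3 (L l390 (T t0 (K a16 (M a60 (F (T t64 (L l14 (L l18 (L l393 (T t67 (L l390 (L l498 (T t65 N)))))))))) (K a32 (M a60 (F (T t64 (L l393 (T t67 (L l24 (L l28 (L l390 (L l498 (T t65 N)))))))))) (K a21 (M a255 (F (T t511 (L l235 (L l390 (T t512 (L l18 (L l144 (L l229 (L l347 (L l498 (T t513 N)))))))))))) (K a37 (M a52 (F (L l314 (T t82 (L l493 (L l498 (T t83 (L l21 (L l28 (L l390 (L l498 (T t84 N)))))))))))) (K a53 (M a12 (F (T t443 (L l47 (T t122 (L l47 (T t146 N))))))) (K a26 (M a56 (F (L l494 (T t133 (L l494 (L l501 (T t134 (L l12 (L l18 (T t135 N)))))))))) (K a42 (M a170 (F (T t319 (L l144 (T t514 (L l54 (L l104 (L l144 (L l229 (L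 l498 (T t515 (L l54 (L l229 (L l235 (L l498 (T t516 N)))))))))))))))) (K a58 (M a12 (L l498 (F (T t122 (T t443 (T t146 (K a202 (M a154 (F (T t3386 (L l54 (L l390 (L l493 (T t153 N))))))) (K a154 (M a202 (F (T t122 (L l356 (L l368 (T t445 (L l356 (T t146 N)))))))) N)))))))) (K a15 (M a4 (F (T t518 (L l73 (L l390 (L l493 (T t519 (L l390 (L l498 (T t520 N)))))))))) N)))))))))))))))))))⟩
def e0_63__199_103 : Ent 4 := ⟨[a0, a63], [a199, a107], (M a149 (F (T t5 (T t175 (T t176 (L l98 (T t177 (K a192 (M a53 (F (T t178 (L l229 (L l236 (T t179 (L l229 (L l236 (L l296 (L l314 (T t180 N))))))))))) (K a21 (M a48 (F (L l229 (T t4 (L l98 (T t13 (L l18 (L l229 (T t14 N))))))))) (K a85 (M a16 (F (T t97 (L l98 (L l144 (T t190 (L l94 (T t278 N)))))))) (K a213 (Fr a106 a192 l519 (Fr a42 a21 l68 (Fr a170 a234 l390 (Fr a255 a85 l476 (V t582))))) (K a42 (M a48 (F (T t11 (L l98 (L l390 (T t13 (L l54 (L l229 (T t14 N))))))))) (K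 a106 (M a105 (F (L l390 (T t1931 (L l391 (L l516 (T t1932 (L l390 (L l391 (L l494 (L l516 (T t1933 (L l390 (L l516 (T t1934 (L l235 (L l277 (L l516 (T t1935 N))))))))))))))))))) (K a170 (M a48 (F (T t11 (L l462 (T t1 (L l98 (L l390 (T t13 N)))))))) (K a191 (M a16 (F (T t97 (L l98 (T t190 (L l213 (T t191 N))))))) (K a255 (M a16 (F (T t112 (L l98 (L l266 (T t190 (L l289 (L l296 (T t191 N))))))))) N))))))))))))))))⟩
def e0_63__199_104 : Ent 4 := ⟨[a0, a63], [a199, a108], (M a85 (F (T t88 (T t52 (T t89 (T t90 (K a64 (M a16 (F (T t97 (L l84 (L l314 (L l494 (T t96 (L l116 (T t98 N))))))))) (K a192 (M a16 (F (T t112 (L l314 (L l494 (T t96 (L l296 (T t98 N)))))))) (K a21 (M a48 (F (T t99 (T t50 (L l47 (T t100 N)))))) (K a149 (M a16 (F (T t112 (L l235 (L l314 (T t173 (L l99 (L l170 (T t102 N))))))))) (K a213 (Fr a170 a255 l476 (Fr a42 a21 l68 (Fr a106 a234 l390 (Fr a192 a149 l519 (V t581))))) (K a42 (M a48 (F (T t364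 (L l390 (T t50 (L l28 (T t100 N))))))) (K a106 (M a48 (F (T t99 (T t1 (L l390 (T t50 N)))))) (K a170 (M a16 (F (L l404 (T t113 (L l390 (T t98 (L l390 (L l404 (T t97 (L l229 (L l235 (L l404 (T t174 N))))))))))))) (K a255 (M a16 (F (T t112 (L l289 (T t113 (L l289 (L l296 (T t98 N)))))))) N)))))))))))))))⟩
def e0_63__199_105 : Ent 4 := ⟨[a0, a63], [a199, a109], (M a149 (F (T t5 (T t175 (T t176 (T t177 (K a192 (M a53 (F (T t178 (L l229 (L l236 (L l398 (T t179 (L l229 (L l236 (L l296 (L l314 (T t180 N)))))))))))) (K a21 (M a48 (F (T t1267 (L l18 (L l229 (L l398 (T t14 (T t13 N)))))))) (K a85 (M a16 (F (T t97 (L l144 (T t190 (L l94 (T t278 N))))))) (K a213 (Fr a106 a192 l519 (Fr a42 a21 l68 (Fr a170 a234 l390 (Fr a255 a85 l476 (V t582))))) (K a42 (M a48 (F (T t11 (L l390 (T t13 (L l54 (L l229 (L l398 (T t14 N))))))))) (K a106 (M a48 (F (T t1 (L l229 (L l398 (L l498 (T t14 (L l229 (L l390 (L l498 (T t6 (L l390 (T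 t26 N))))))))))))) (K a170 (M a48 (F (T t11 (L l462 (T t1 (L l390 (T t13 N))))))) (K a191 (M a204 (F (T t1283 (L l99 (T t1112 N))))) (K a255 (M a16 (F (T t112 (L l266 (T t190 (L l289 (L l296 (T t191 N)))))))) N)))))))))))))))⟩
def e0_63__199_106 : Ent 4 := ⟨[a0, a63], [a199, a110], (M a149 (F (T t5 (T t175 (T t176 (L l102 (T t177 (K a192 (M a53 (F (T t178 (L l229 (L l236 (T t179 (L l229 (L l236 (L l296 (L l314 (T t180 N))))))))))) (K a21 (M a48 (F (L l229 (T t4 (L l102 (T t13 (L l18 (L l229 (T t14 N))))))))) (K a85 (M a16 (F (T t97 (L l102 (L l144 (T t190 (L l94 (T t278 N)))))))) (K a213 (Fr a106 a192 l519 (Fr a42 a21 l68 (Fr a170 a234 l390 (Fr a255 a85 l476 (V t582))))) (K a42 (M a48 (F (T t11 (L l102 (L l390 (T t13 (L l54 (L l229 (T t14 N))))))))) (K a106 (M a102 (F (L l229 (L l390 (T t1202 (L l229 (L l396 (L l501 (T t1203 (L l390 (L l501 (T t1204 (L l229 (L l390 (L l501 (T t1205 (L l229 (L l501 (T t1206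 N))))))))))))))))))) (K a170 (M a48 (F (T t11 (L l462 (T t1 (L l102 (L l390 (T t13 N)))))))) (K a191 (M a16 (F (T t97 (L l102 (T t190 (L l213 (T t191 N))))))) (K a255 (M a16 (F (T t112 (L l102 (L l266 (T t190 (L l289 (L l296 (T t191 N))))))))) N))))))))))))))))⟩
def e0_63__199_107 : Ent 4 := ⟨[a0, a63], [a199, a111], (M a149 (F (T t5 (T t175 (T t176 (L l104 (T t177 (K a192 (M a53 (F (T t178 (L l229 (L l236 (L l296 (L l314 (T t180 (L l229 (L l236 (L l397 (T t179 N)))))))))))) (K a21 (M a240 (F (T t1090 (L l104 (T t1091 (L l397 (T t1207 N))))))) (K a85 (M a48 (F (T t1 (L l229 (L l235 (T t184 (L l104 (L l144 (T t13 N))))))))) (K a213 (Fr a106 a192 l519 (Fr a42 a21 l68 (Fr a170 a234 l390 (Fr a255 a85 l476 (V t582))))) (K a42 (M a240 (F (T t1090 (L l104 (L l390 (T t1091 (L l397 (T t1207 N)))))))) (K a106 (M a101 (F (L l229 (L l397 (L l498 (T t1209 (L l229 (L l314 (L l390 (T t1208 (L l390 (L l397 (L l498 (T t1210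 (L l229 (L l390 (L l498 (T t1211 (L l229 (L l235 (L l498 (T t1212 N)))))))))))))))))))))) (K a170 (M a48 (F (L l462 (T t1 (L l229 (L l235 (T t184 (L l104 (L l390 (T t13 N)))))))))) (K a191 (M a16 (F (T t97 (L l213 (L l229 (L l235 (T t1213 (L l213 (T t191 N))))))))) (K a255 (M a16 (F (T t112 (L l229 (L l235 (L l289 (T t1213 (L l289 (L l296 (T t191 N)))))))))) N))))))))))))))))⟩
def e0_63__199_108 : Ent 4 := ⟨[a0, a63], [a199, a112], (M a149 (F (T t25 (T t175 (T t176 (L l116 (T t177 (K a192 (M a53 (F (T t178 (L l229 (L l236 (T t179 (L l229 (L l236 (L l296 (L l314 (T t180 N))))))))))) (K a21 (M a240 (F (T t1937 (L l116 (T t962 (L l114 (L l116 (T t1207 N)))))))) (K a85 (M a16 (F (T t97 (L l116 (L l144 (L l412 (T t190 (L l94 (L l151 (T t278 N)))))))))) (K a213 (Fr a106 a192 l519 (Fr a42 a21 l68 (Fr a170 a234 l390 (Fr a255 a85 l476 (V t582))))) (K a42 (M a240 (F (T t1937 (L l28 (L l116 (L l390 (T t962 (L l114 (L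 l116 (T t1207 N)))))))))) (K a106 (M a48 (F (T t1 (L l229 (L l498 (T t14 (L l114 (L l229 (L l390 (L l498 (T t6 (L l390 (T t26 N))))))))))))) (K a170 (M a48 (F (T t3 (T t11 (L l116 (L l390 (L l404 (T t1938 N)))))))) (K a191 (M a16 (F (T t97 (L l116 (L l412 (T t190 (L l116 (L l213 (T t191 N))))))))) (K a255 (M a16 (F (T t112 (L l116 (L l266 (L l412 (T t190 (L l116 (L l289 (L l296 (T t191 N))))))))))) N))))))))))))))))⟩
def e0_63__199_109 : Ent 4 := ⟨[a0, a63], [a199, a113], (M a85 (F (T t88 (T t52 (T t89 (T t90 (K a64 (M a12 (F (T t124 (L l277 (T t572 N))))) (K a192 (M a16 (F (T t112 (L l147 (L l314 (L l494 (T t96 (L l296 (T t98 N))))))))) (K a21 (M a48 (F (T t99 (L l111 (T t50 (L l47 (T t100 N))))))) (K a149 (M a16 (F (T t112 (L l235 (L l314 (T t173 (L l170 (T t102 N)))))))) (K a213 (Fr a170 a255 l476 (Fr a42 a21 l68 (Fr a106 a234 l390 (Fr a192 a149 l519 (V t581))))) (K a42 (M a48 (F (T t365 (L l111 (L l390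 (T t50 (L l28 (T t100 N)))))))) (K a106 (M a48 (F (T t1 (L l104 (L l147 (L l314 (L l494 (T t509 (L l111 (L l390 (T t50 N))))))))))) (K a170 (M a16 (F (L l404 (T t113 (L l390 (T t98 (L l390 (L l404 (T t97 (L l229 (L l235 (L l404 (T t174 N))))))))))))) (K a255 (M a16 (F (T t112 (L l289 (T t113 (L l289 (L l296 (T t98 N)))))))) N)))))))))))))))⟩
def e0_63__199_110 : Ent 4 := ⟨[a0, a63], [a199, a114], (M a85 (F (T t88 (T t52 (T t89 (T t90 (K a64 (M a12 (F (T t124 (L l277 (T t572 N))))) (K a192 (M a16 (F (T t260 (L l339 (T t97 (L l296 (T t98 N))))))) (K a21 (M a48 (F (T t99 (L l417 (T t50 (L l47 (T t100 N))))))) (K a149 (M a16 (F (T t112 (L l235 (L l314 (T t173 (L l170 (T t102 N)))))))) (K a213 (Fr a170 a255 l476 (Fr a42 a21 l68 (Fr a106 a234 l390 (Fr a192 a149 l519 (V t581))))) (K a42 (M a48 (F (T t364 (L l390 (L l417 (T t50 (L l28 (T t100 N)))))))) (K a106 (M a48 (F (T t1 (L l104 (L l314 (L l494 (T t509 (L l390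 (L l417 (T t50 N)))))))))) (K a170 (M a16 (F (L l404 (T t113 (L l390 (T t98 (L l390 (L l404 (T t97 (L l229 (L l235 (L l404 (T t174 N))))))))))))) (K a255 (M a16 (F (T t112 (L l289 (T t113 (L l289 (L l296 (T t98 N)))))))) N)))))))))))))))⟩
def e0_63__199_111 : Ent 4 := ⟨[a0, a63], [a199, a115], (M a149 (F (T t25 (T t175 (T t176 (L l120 (T t177 (K a192 (M a53 (F (T t178 (L l229 (L l236 (T t179 (L l229 (L l236 (L l296 (L l314 (T t180 N))))))))))) (K a21 (M a48 (F (T t1267 (L l18 (L l229 (T t14 (L l106 (T t13 N)))))))) (K a85 (M a16 (F (T t97 (L l144 (T t190 (L l94 (T t278 N))))))) (K a213 (Fr a106 a192 l519 (Fr a42 a21 l68 (Fr a170 a234 l390 (Fr a255 a85 l476 (V t582))))) (K a42 (M a48 (F (T t11 (L l106 (L l390 (T t13 (L l54 (L l229 (T t14 N))))))))) (K a106 (M a48 (F (T t1 (L l229 (L l498 (T t14 (L l229 (L l390 (L l498 (T t6 (L l390 (T t26 N)))))))))))) (K a170 (M a48 (F (T t11 (L l462 (T t1 (L l106 (L l390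 (T t13 N)))))))) (K a191 (M a16 (F (T t97 (T t190 (L l213 (T t191 N)))))) (K a255 (M a16 (F (T t112 (L l266 (T t190 (L l289 (L l296 (T t191 N)))))))) N))))))))))))))))⟩
def e0_63__199_112 : Ent 4 := ⟨[a0, a63], [a199, a116], (M a85 (F (T t88 (T t52 (T t89 (T t90 (K a64 (M a204 (F (T t1744 (L l107 (L l229 (T t1576 N)))))) (K a192 (M a16 (F (T t112 (L l127 (L l314 (L l494 (T t96 (L l296 (T t98 N))))))))) (K a21 (M a48 (F (T t99 (L l107 (T t50 (L l47 (T t100 N))))))) (K a149 (M a16 (F (T t112 (L l235 (L l314 (T t173 (L l170 (T t102 N)))))))) (K a213 (Fr a170 a255 l476 (Fr a42 a21 l68 (Fr a106 a234 l390 (Fr a192 a149 l519 (V t581))))) (K a42 (M a48 (F (T t365 (L l107 (L l390 (T t50 (L l28 (T t100 N)))))))) (K a106 (M a48 (F (T t1 (L l104 (L l127 (L l314 (L l494 (T t509 (L l107 (L l390 (T t50 N))))))))))) (K a170 (M a16 (F (L l404 (T t113 (L l390 (T t98 (L l390 (L l404 (T t97 (L l229 (L l235 (L l404 (T t174 N)))))))))))))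 (K a255 (M a16 (F (T t112 (L l289 (T t113 (L l289 (L l296 (T t98 N)))))))) N)))))))))))))))⟩
def e0_63__199_113 : Ent 4 := ⟨[a0, a63], [a199, a117], (M a85 (F (T t88 (L l114 (L l440 (T t52 (T t89 (T t90 (K a64 (M a204 (F (T t1575 (L l107 (L l229 (T t1576 N)))))) (K a192 (M a16 (F (T t112 (L l314 (L l494 (T t96 (L l296 (T t98 N)))))))) (K a21 (M a12 (F (T t1370 (L l15 (L l114 (L l277 (L l422 (T t574 (L l114 (T t124 N)))))))))) (K a149 (M a16 (F (T t112 (L l314 (L l491 (L l494 (T t96 (L l170 (T t102 N))))))))) (K a213 (Fr a170 a255 l476 (Fr a42 a21 l68 (Fr a106 a234 l390 (Fr a192 a149 l519 (V t581))))) (K a42 (M a12 (F (L l314 (L l440 (T t1373 (L l114 (L l390 (T t124 (L l56 (L l114 (L l277 (L l422 (T t574 N))))))))))))) (K a106 (M a12 (F (T t122 (L l132 (L l277 (L l422 (T t123 (L l114 (L l390 (T t124 N)))))))))) (K a170 (M a16 (F (L l390 (L l404 (T t97 (L l390 (T t98 (L l114 (L l404 (L l419 (T t113 (L l229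 (L l235 (L l404 (T t174 N))))))))))))))) (K a255 (M a48 (F (T t132 (L l114 (L l289 (L l419 (T t100 (L l289 (L l296 (T t568 (L l229 (L l235 (L l289 (L l296 (T t1579 N))))))))))))))) N)))))))))))))))))⟩
def e0_63__199_114 : Ent 4 := ⟨[a0, a63], [a199, a118], (M a85 (F (T t88 (T t52 (T t89 (T t90 (K a64 (M a12 (F (T t124 (L l277 (T t572 N))))) (K a192 (M a16 (F (T t112 (L l314 (L l494 (T t96 (L l296 (T t98 N)))))))) (K a21 (M a48 (F (L l438 (T t99 (L l107 (T t50 (L l47 (T t100 N)))))))) (K a149 (M a16 (F (T t112 (L l235 (L l314 (T t173 (L l170 (T t102 N)))))))) (K a213 (Fr a170 a255 l476 (Fr a42 a21 l68 (Fr a106 a234 l390 (Fr a192 a149 l519 (V t581))))) (K a42 (M a48 (F (T t365 (L l107 (L l390 (T t50 (L l28 (T t100 N)))))))) (K a106 (M a48 (F (T t1 (L l104 (L l314 (L l494 (T t509 (L l107 (L l390 (T t50 N)))))))))) (K a170 (M a16 (F (L l404 (T t113 (L l390 (T t98 (L l390 (L l404 (T t97 (L l229 (L l235 (L l404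 (T t174 N))))))))))))) (K a255 (M a16 (F (T t112 (L l289 (T t113 (L l289 (L l296 (T t98 N)))))))) N)))))))))))))))⟩
def e0_63__199_115 : Ent 4 := ⟨[a0, a63], [a199, a119], (M a85 (F (T t88 (L l113 (L l439 (T t52 (T t89 (T t90 (K a64 (M a252 (F (T t93 (L l125 (T t92 N))))) (K a192 (M a16 (F (T t112 (L l314 (L l494 (T t96 (L l296 (T t98 N)))))))) (K a21 (M a48 (F (T t935 (L l47 (L l113 (T t100 (L l107 (L l113 (T t50 N))))))))) (K a149 (M a16 (F (T t112 (L l235 (L l314 (T t173 (L l170 (T t102 N)))))))) (K a213 (Fr a170 a255 l476 (Fr a42 a21 l68 (Fr a106 a234 l390 (Fr a192 a149 l519 (V t581))))) (K a42 (M a48 (F (L l439 (T t365 (L l107 (L l113 (L l390 (T t50 (L l28 (L l113 (T t100 N))))))))))) (K a106 (M a48 (F (T t1 (L l104 (L l314 (L l494 (T t509 (L l107 (L l113 (L l390 (T t50 N))))))))))) (K a170 (M a16 (F (L l390 (L l404 (T t97 (L l390 (T t98 (L l113 (L l404 (T t113 (L l229 (L l235 (L l404 (T t174 N))))))))))))))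 (K a255 (M a51 (F (T t1355 (L l113 (L l290 (L l421 (L l493 (T t945 (L l290 (L l296 (T t1952 (L l229 (L l290 (L l296 (T t1953 N))))))))))))))) N)))))))))))))))))⟩
def e0_63__199_116 : Ent 4 := ⟨[a0, a63], [a199, a120], (M a85 (F (T t88 (T t52 (T t89 (T t90 (K a64 (M a16 (F (T t97 (L l84 (L l314 (L l494 (T t96 (L l116 (T t98 N))))))))) (K a192 (M a16 (F (T t260 (L l339 (T t97 (L l296 (T t98 N))))))) (K a21 (M a48 (F (T t99 (L l442 (T t50 (L l47 (T t100 N))))))) (K a149 (M a16 (F (T t112 (L l235 (L l314 (T t173 (L l170 (T t102 N)))))))) (K a213 (Fr a170 a255 l476 (Fr a42 a21 l68 (Fr a106 a234 l390 (Fr a192 a149 l519 (V t581))))) (K a42 (M a48 (F (T t364 (L l390 (L l442 (T t50 (L l28 (T t100 N)))))))) (K a106 (M a48 (F (T t1 (L l104 (L l314 (L l494 (T t509 (L l390 (L l442 (T t50 N)))))))))) (K a170 (M a16 (F (L l404 (T t113 (L l390 (T t98 (L l390 (L l404 (T t97 (L l229 (L l235 (L l404 (T t174 N))))))))))))) (K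 a255 (M a16 (F (T t112 (L l289 (T t113 (L l289 (L l296 (T t98 N)))))))) N)))))))))))))))⟩
def e0_63__199_117 : Ent 4 := ⟨[a0, a63], [a199, a121], (M a85 (F (T t88 (T t52 (T t89 (T t90 (K a64 (M a12 (F (T t124 (L l277 (T t572 N))))) (K a192 (M a16 (F (T t112 (L l314 (L l494 (T t96 (L l296 (T t98 N)))))))) (K a21 (M a48 (F (L l428 (T t99 (L l111 (T t50 (L l47 (T t100 N)))))))) (K a149 (M a16 (F (T t112 (L l235 (L l314 (T t173 (L l170 (T t102 N)))))))) (K a213 (Fr a170 a255 l476 (Fr a42 a21 l68 (Fr a106 a234 l390 (Fr a192 a149 l519 (V t581))))) (K a42 (M a48 (F (T t365 (L l111 (L l390 (T t50 (L l28 (T t100 N)))))))) (K a106 (M a48 (F (T t1 (L l104 (L l314 (L l494 (T t509 (L l111 (L l390 (T t50 N)))))))))) (K a170 (M a16 (F (L l404 (T t113 (L l390 (T t98 (L l390 (L l404 (T t97 (L l229 (L l235 (L l404 (T t174 N))))))))))))) (K a255 (M a16 (F (T t112 (L l289 (T t113 (L l289 (L l296 (T t98 N)))))))) N)))))))))))))))⟩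
def e0_63__199_118 : Ent 4 := ⟨[a0, a63], [a199, a122], (M a149 (F (T t5 (T t175 (T t176 (L l130 (T t177 (K a192 (M a53 (F (L l426 (T t178 (L l229 (L l236 (L l296 (L l314 (T t180 (L l229 (L l236 (L l426 (T t179 N))))))))))))) (K a21 (M a48 (F (L l47 (T t11 (L l114 (L l130 (T t13 (L l18 (L l229 (L l426 (T t14 N))))))))))) (K a85 (M a16 (F (T t97 (L l130 (L l144 (T t190 (L l94 (L l130 (T t278 N))))))))) (K a213 (Fr a106 a192 l519 (Fr a42 a21 l68 (Fr a170 a234 l390 (Fr a255 a85 l476 (V t582))))) (K a42 (M a48 (F (T t11 (L l114 (L l130 (L l390 (T t13 (L l54 (L l229 (L l426 (T t14 N))))))))))) (K a106 (M a90 (F (L l390 (T t1073 (L l411 (L l426 (T t1040 (L l390 (L l411 (T t1954 (L l390 (L l411 (T t1074 (L l411 (T t1075 N))))))))))))))) (K a170 (M a48 (F (T t11 (L l462 (T t1 (L l114 (L l130 (L l390 (T t13 N))))))))) (K a191 (M a16 (F (T t97 (L l130 (T t190 (L l213 (T t191 N))))))) (K a255 (M a16 (F (L l469 (T t97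 (L l130 (L l266 (T t190 (L l289 (L l296 (T t191 N)))))))))) N))))))))))))))))⟩
def e0_63__199_119 : Ent 4 := ⟨[a0, a63], [a199, a123], (M a149 (F (T t5 (T t175 (T t176 (L l132 (T t177 (K a192 (M a53 (F (T t178 (L l229 (L l236 (T t179 (L l229 (L l236 (L l296 (L l314 (T t180 N))))))))))) (K a21 (M a48 (F (L l229 (T t4 (L l132 (T t13 (L l18 (L l229 (T t14 N))))))))) (K a85 (M a16 (F (T t97 (L l132 (L l144 (T t190 (L l94 (T t278 N)))))))) (K a213 (Fr a106 a192 l519 (Fr a42 a21 l68 (Fr a170 a234 l390 (Fr a255 a85 l476 (V t582))))) (K a42 (M a48 (F (T t11 (L l132 (L l390 (T t13 (L l54 (L l229 (T t14 N))))))))) (K a106 (M a89 (F (L l390 (T t1955 (L l314 (L l408 (L l427 (T t1956 (L l314 (L l390 (L l408 (L l427 (T t1957 (L l390 (L l408 (L l493 (T t1958 (L l277 (L l408 (T t1959 N)))))))))))))))))))) (K a170 (M a48 (F (T t11 (L l462 (T t1 (L l132 (L l390 (T t13 N)))))))) (K a191 (M a16 (F (T t97 (L l132 (T t190 (L l213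 (T t191 N))))))) (K a255 (M a16 (F (T t112 (L l132 (L l266 (T t190 (L l289 (L l296 (T t191 N))))))))) N))))))))))))))))⟩
def e0_63__199_120 : Ent 4 := ⟨[a0, a63], [a199, a124], (M a149 (F (T t25 (T t175 (T t176 (L l140 (T t177 (K a192 (M a53 (F (T t178 (L l229 (L l236 (T t179 (L l229 (L l236 (L l296 (L l314 (T t180 N))))))))))) (K a21 (M a48 (F (T t1267 (L l18 (L l229 (T t14 (L l110 (T t13 N)))))))) (K a85 (M a16 (F (T t97 (L l144 (T t190 (L l94 (T t278 N))))))) (K a213 (Fr a106 a192 l519 (Fr a42 a21 l68 (Fr a170 a234 l390 (Fr a255 a85 l476 (V t582))))) (K a42 (M a48 (F (T t11 (L l110 (L l390 (T t13 (L l54 (L l229 (T t14 N))))))))) (K a106 (M a48 (F (T t1 (L l229 (L l498 (T t14 (L l229 (L l390 (L l498 (T t6 (L l390 (T t26 N)))))))))))) (K a170 (M a48 (F (T t11 (L l462 (T t1 (L l110 (L l390 (T t13 N)))))))) (K a191 (M a252 (F (L l140 (T t940 (L l109 (T t941 N)))))) (K a255 (M a16 (F (T t112 (L l266 (T t190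 (L l289 (L l296 (T t191 N)))))))) N))))))))))))))))⟩
def e0_63__199_121 : Ent 4 := ⟨[a0, a63], [a199, a125], (M a85 (F (T t88 (L l109 (L l434 (T t52 (T t89 (T t90 (K a64 (M a16 (F (T t97 (L l84 (L l314 (L l494 (T t96 (L l116 (T t98 N))))))))) (K a192 (M a16 (F (T t112 (L l314 (L l494 (T t96 (L l296 (T t98 N)))))))) (K a21 (M a48 (F (T t935 (L l47 (L l109 (T t100 (L l109 (L l111 (T t50 N))))))))) (K a149 (M a16 (F (T t112 (L l235 (L l314 (T t173 (L l170 (T t102 N)))))))) (K a213 (Fr a170 a255 l476 (Fr a42 a21 l68 (Fr a106 a234 l390 (Fr a192 a149 l519 (V t581))))) (K a42 (M a48 (F (L l434 (T t365 (L l109 (L l111 (L l390 (T t50 (L l28 (L l109 (T t100 N))))))))))) (K a106 (M a48 (F (T t1 (L l104 (L l314 (L l494 (T t509 (L l109 (L l111 (L l390 (T t50 N))))))))))) (K a170 (M a16 (F (L l390 (L l404 (T t97 (L l390 (T t98 (L l109 (L l404 (T t113 (L l229 (L l235 (L l404 (T t174 N)))))))))))))) (K a255 (M a60 (F (T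 t522 (L l109 (L l277 (L l295 (L l431 (T t523 (L l277 (L l295 (L l296 (T t115 (L l235 (L l295 (L l296 (T t524 N)))))))))))))))) N)))))))))))))))))⟩
def e0_63__199_122 : Ent 4 := ⟨[a0, a63], [a199, a126], (M a149 (F (T t5 (T t175 (T t176 (L l142 (T t177 (K a192 (M a53 (F (T t178 (L l229 (L l236 (T t179 (L l229 (L l236 (L l296 (L l314 (T t180 N))))))))))) (K a21 (M a48 (F (L l229 (T t4 (L l142 (T t13 (L l18 (L l229 (T t14 N))))))))) (K a85 (M a16 (F (T t97 (L l142 (L l144 (T t190 (L l94 (T t278 N)))))))) (K a213 (Fr a106 a192 l519 (Fr a42 a21 l68 (Fr a170 a234 l390 (Fr a255 a85 l476 (V t582))))) (K a42 (M a48 (F (T t11 (L l142 (L l390 (T t13 (L l54 (L l229 (T t14 N))))))))) (K a106 (M a86 (F (L l393 (L l432 (T t618 (L l390 (L l493 (T t620 (L l390 (L l393 (T t1239 (L l390 (L l393 (T t621 (L l393 (T t622 N)))))))))))))))) (K a170 (M a48 (F (T t11 (L l462 (T t1 (L l142 (L l390 (T t13 N)))))))) (K a191 (M a16 (F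 (T t97 (L l142 (T t190 (L l213 (T t191 N))))))) (K a255 (M a16 (F (T t112 (L l142 (L l266 (T t190 (L l289 (L l296 (T t191 N))))))))) N))))))))))))))))⟩
def e0_63__199_123 : Ent 4 := ⟨[a0, a63], [a199, a127], (M a48 (F (T t1 (T t2 (T t3 (T t0 (K a16 (M a60 (F (T t43 (T t64 (T t65 N))))) (K a32 (M a60 (F (T t64 (T t67 (L l24 (L l28 (T t65 N))))))) (K a21 (M a192 (F (T t28 (L l47 (L l235 (L l347 (T t20 (L l18 (L l144 (L l229 (T t224 N))))))))))) (K a37 (M a192 (F (T t19 (L l47 (L l235 (T t20 (L l28 (L l144 (T t37 N))))))))) (K a53 (M a192 (F (T t19 (L l144 (T t37 (L l47 (L l137 (L l491 (T t525 N))))))))) (K a26 (M a192 (F (T t28 (L l235 (T t20 (L l54 (L l144 (T t37 N)))))))) (K a42 (M a192 (F (T t19 (L l235 (T t20 (L l54 (L l144 (L l229 (L l390 (T t224 N)))))))))) (K a58 (M a192 (F (T t19 (L l54 (L l144 (L l498 (T t37 (L l137 (T t525 N))))))))) (K a15 (M a106 (F (T t2289 (T t306 N)))) N)))))))))))))))⟩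
def e0_63__199_124 : Ent 4 := ⟨[a0, a63], [a199, a128], (M a60 (F (T t67 (T t43 (T t68 (T t69 (K a20 (M a48 (F (T t2 (T t64 (L l11 (L l313 (T t235 N))))))) (K a40 (M a48 (F (T t64 (T t1 (L l52 (L l313 (T t235 N))))))) (K a21 (M a150 (F (T t1439 (L l65 (L l216 (T t1136 (L l65 (L l277 (T t1137 N))))))))) (K a41 (M a32 (F (L l65 (T t219 (L l29 (T t1573 (L l25 (L l65 (T t1569 N))))))))) (K a61 (M a16 (F (T t1140 (T t97 (L l59 (T t1141 N)))))) (K a22 (M a16 (F (L l66 (T t97 (L l19 (T t1140 (L l16 (L l66 (T t1141 N))))))))) (K a42 (M a150 (F (T t5577 (L l22 (L l277 (T t1135 (L l22 (L l277 (T t1137 N))))))))) (K a62 (M a16 (F (T t1140 (L l66 (T t97 (L l66 (T t1141 N))))))) (K a3 (M a170 (F (T t4824 (T t458 N)))) N)))))))))))))))⟩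
def e0_63__199_125 : Ent 4 := ⟨[a0, a63], [a199, a129], (M a149 (F (T t25 (L l152 (L l309 (T t175 (T t176 (T t177 (K a192 (M a3 (F (T t85 (L l152 (L l292 (L l305 (T t615 (L l292 (L l296 (T t616 (L l292 (L l296 (T t1244 N))))))))))))) (K a21 (M a48 (F (T t1267 (L l18 (L l152 (L l229 (T t14 (L l152 (T t13 N))))))))) (K a85 (M a16 (F (T t97 (L l144 (T t190 (L l94 (T t278 N))))))) (K a213 (Fr a106 a192 l519 (Fr a42 a21 l68 (Fr a170 a234 l390 (Fr a255 a85 l476 (V t582))))) (K a42 (M a48 (F (L l309 (T t11 (L l152 (L l390 (T t13 (L l54 (L l152 (L l229 (T t14 N))))))))))) (K a106 (M a48 (F (T t1 (L l152 (L l229 (L l498 (T t14 (L l229 (L l390 (L l498 (T t6 (L l390 (T t26 N))))))))))))) (K a170 (M a48 (F (T t3 (L l309 (T t11 (L l152 (L l390 (T t13 N)))))))) (K a191 (M a240 (F (T t962 (L l157 (T t963 N))))) (K a255 (M a16 (F (T t112 (L l266 (T t190 (L l289 (L l296 (T t191 N)))))))) N)))))))))))))))))⟩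
def e0_63__199_126 : Ent 4 := ⟨[a0, a63], [a199, a130], (M a85 (F (T t88 (T t52 (T t89 (L l218 (T t90 (K a64 (M a16 (F (T t97 (L l84 (L l314 (L l494 (T t96 (L l116 (T t98 N))))))))) (K a192 (M a16 (F (T t112 (L l314 (L l494 (T t96 (L l296 (T t98 N)))))))) (K a21 (M a48 (F (T t99 (L l218 (T t50 (L l47 (T t100 N))))))) (K a149 (M a16 (F (T t112 (L l235 (L l314 (T t173 (L l170 (T t102 N)))))))) (K a213 (Fr a170 a255 l476 (Fr a42 a21 l68 (Fr a106 a234 l390 (Fr a192 a149 l519 (V t581))))) (K a42 (M a48 (F (T t364 (L l218 (L l390 (T t50 (L l28 (T t100 N)))))))) (K a106 (M a48 (F (T t1 (L l104 (L l314 (L l494 (T t509 (L l218 (L l390 (T t50 N)))))))))) (K a170 (M a150 (F (L l277 (L l306 (L l392 (T t1960 (L l277 (L l390 (L l493 (T t1961 (L l390 (L l392 (T t1962 (L l277 (L l390 (L l392 (T t1963 (L l235 (L l277 (L l392 (T t1964 N))))))))))))))))))))) (K a255 (M a16 (F (T t112 (L l289 (T t113 (L l289 (L l296 (T t98 N))))))))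 N))))))))))))))))⟩
def e0_63__199_127 : Ent 4 := ⟨[a0, a63], [a199, a131], (M a85 (F (T t88 (T t52 (T t89 (L l219 (T t90 (K a64 (M a16 (F (T t97 (L l84 (L l314 (L l494 (T t96 (L l116 (T t98 N))))))))) (K a192 (M a16 (F (T t112 (L l314 (L l494 (T t96 (L l296 (T t98 N)))))))) (K a21 (M a48 (F (T t99 (L l197 (T t50 (L l47 (T t100 N))))))) (K a149 (M a16 (F (T t112 (L l235 (L l314 (T t173 (L l170 (T t102 N)))))))) (K a213 (Fr a170 a255 l476 (Fr a42 a21 l68 (Fr a106 a234 l390 (Fr a192 a149 l519 (V t581))))) (K a42 (M a48 (F (T t364 (L l197 (L l390 (T t50 (L l28 (T t100 N)))))))) (K a106 (M a48 (F (T t99 (T t1 (L l197 (L l390 (T t50 N))))))) (K a170 (M a16 (F (L l404 (T t113 (L l390 (T t98 (L l390 (L l404 (T t97 (L l229 (L l235 (L l404 (T t174 N))))))))))))) (K a255 (M a16 (F (T t112 (L l289 (T t113 (L l289 (L l296 (T t98 N)))))))) N))))))))))))))))⟩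
def e0_63__199_128 : Ent 4 := ⟨[a0, a63], [a199, a132], (M a149 (F (T t25 (L l156 (L l334 (T t175 (T t176 (T t177 (K a192 (M a12 (F (T t1252 (L l156 (L l272 (L l310 (L l314 (T t649 (L l272 (L l296 (T t960 (L l272 (L l277 (L l296 (T t1253 N))))))))))))))) (K a21 (M a48 (F (T t1267 (L l18 (L l156 (L l229 (T t14 (L l156 (T t13 N))))))))) (K a85 (M a16 (F (T t97 (L l144 (T t190 (L l94 (T t278 N))))))) (K a213 (Fr a106 a192 l519 (Fr a42 a21 l68 (Fr a170 a234 l390 (Fr a255 a85 l476 (V t582))))) (K a42 (M a48 (F (L l334 (T t11 (L l156 (L l390 (T t13 (L l54 (L l156 (L l229 (T t14 N))))))))))) (K a106 (M a48 (F (T t1 (L l156 (L l229 (L l498 (T t14 (L l229 (L l390 (L l498 (T t6 (L l390 (T t26 N))))))))))))) (K a170 (M a48 (F (T t3 (L l334 (T t11 (L l156 (L l390 (T t13 N)))))))) (K a191 (M a240 (F (T t962 (L l153 (T t963 N))))) (K a255 (M a16 (F (T t112 (L l266 (T t190 (L l289 (L l296 (T t191 N)))))))) N)))))))))))))))))⟩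
def e0_63__199_129 : Ent 4 := ⟨[a0, a63], [a199, a133], (M a149 (F (T t25 (L l160 (L l339 (T t175 (T t176 (T t177 (K a192 (M a15 (F (T t1254 (L l160 (L l268 (L l311 (T t1026 (L l268 (L l296 (T t1031 (L l268 (L l296 (T t1255 N))))))))))))) (K a21 (M a48 (F (T t1267 (L l18 (L l160 (L l229 (L l311 (T t14 (L l160 (T t13 N)))))))))) (K a85 (M a16 (F (T t504 (L l144 (T t190 (L l94 (T t278 N))))))) (K a213 (Fr a106 a192 l519 (Fr a42 a21 l68 (Fr a170 a234 l390 (Fr a255 a85 l476 (V t582))))) (K a42 (M a48 (F (L l339 (T t11 (L l160 (L l390 (T t13 (L l54 (L l160 (L l229 (L l311 (T t14 N)))))))))))) (K a106 (M a48 (F (T t48 (L l160 (L l229 (L l311 (L l498 (T t14 (L l390 (T t26 (L l229 (L l311 (L l390 (L l498 (T t6 N))))))))))))))) (K a170 (M a48 (F (T t607 (L l339 (T t11 (L l160 (L l390 (T t13 N)))))))) (K a191 (M a252 (F (T t940 (L l157 (T t941 N))))) (K a255 (M a16 (F (T t504 (L l266 (T t190 (L l289 (L l296 (T t191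 N)))))))) N)))))))))))))))))⟩
def e0_63__199_130 : Ent 4 := ⟨[a0, a63], [a199, a134], (M a85 (L l314 (F (T t88 (T t52 (T t89 (T t90 (K a64 (M a4 (F (T t129 (L l120 (L l277 (T t1399 (L l80 (L l277 (T t131 N))))))))) (K a192 (M a4 (F (T t2152 (L l489 (L l493 (T t519 (L l277 (L l296 (T t131 N))))))))) (K a21 (M a69 (F (L l158 (T t5522 (L l336 (T t5524 (L l158 (T t5523 (L l336 (T t5525 N)))))))))) (K a149 (M a4 (F (T t129 (L l277 (T t1371 (L l200 (L l202 (T t1372 N)))))))) (K a213 (Fr a170 a255 l476 (Fr a42 a21 l68 (Fr a106 a234 l390 (Fr a192 a149 l519 (V t581))))) (K a42 (M a69 (F (T t2458 (L l158 (T t5523 (L l158 (L l390 (T t5532 (L l390 (L l494 (T t5533 N))))))))))) (K a106 (M a4 (F (L l277 (T t1371 (L l390 (L l493 (T t519 (L l277 (L l390 (T t131 (L l277 (L l408 (T t938 N))))))))))))) (K a170 (M a4 (F (L l390 (L l464 (T t129 (L l277 (L l390 (T t131 (L l277 (L l464 (T t130 (L l277 (L l464 (T t938 N))))))))))))))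 (K a255 (M a4 (F (T t129 (L l265 (L l277 (T t130 (L l265 (L l277 (L l296 (T t131 N)))))))))) (K a4 (M a69 (F (T t88 (L l158 (T t2422 (L l158 (T t2466 N))))))) (K a69 (M a4 (F (T t52 (L l277 (T t1399 (L l493 (T t519 N))))))) N))))))))))))))))))⟩
def e0_63__199_131 : Ent 4 := ⟨[a0, a63], [a199, a135], (M a149 (L l313 (F (T t5 (T t175 (T t176 (T t177 (K a192 (M a53 (L l313 (F (T t178 (L l229 (L l236 (T t179 (L l229 (L l236 (L l296 (L l314 (T t180 (K a7 (M a71 (F (T t939 (L l159 (L l229 (L l236 (L l292 (T t5578 (L l229 (L l236 (L l296 (L l314 (T t180 N))))))))))))) (K a71 (M a7 (F (L l229 (L l236 (T t179 (L l314 (T t5579 N))))))) N)))))))))))))) (K a21 (M a3 (L l313 (F (T t5544 (L l235 (L l337 (T t1883 (L l65 (T t615 (K a7 (M a71 (F (T t5580 (L l159 (T t1118 N))))) (K a71 (M a7 (F (T t5580 (L l50 (L l314 (T t1976 N)))))) N))))))))))) (K a85 (M a1 (L l313 (F (T t534 (L l144 (L l235 (L l337 (T t1083 (L l141 (T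 t1084 (K a7 (M a71 (F (L l159 (T t1085 (L l141 (L l144 (T t5581 N))))))) (K a71 (M a7 (F (T t2333 (L l141 (T t1084 N))))) N)))))))))))) (K a213 (Fr a106 a192 l519 (Fr a42 a21 l68 (Fr a170 a234 l390 (Fr a255 a85 l476 (V t582))))) (K a42 (M a3 (L l313 (F (T t1052 (L l235 (L l337 (L l390 (T t1883 (L l22 (T t615 (K a7 (M a71 (F (L l159 (T t1118 (L l49 (L l459 (T t5545 N))))))) (K a71 (M a7 (F (T t1052 (L l54 (L l314 (T t1976 N)))))) N)))))))))))) (K a106 (M a3 (L l313 (F (T t353 (L l393 (T t615 (L l390 (L l393 (T t616 (L l390 (T t617 (K a7 (M a71 (F (L l159 (T t1118 (L l390 (L l393 (L l457 (T t616 N)))))))) (K a71 (M a7 (F (T t5582 (L l77 (L l279 (L l393 (T t5583 N))))))) N))))))))))))) (K a170 (M a48 (L l313 (F (T t11 (L l337 (L l462 (T t1 (L l390 (T t13 (K a7 (M a71 (F (L l229 (T t1081 (L l390 (T t13 N)))))) (K a71 (M a7 (F (T t11 (L l337 (L l462 (T t1 (L l390 (T t13 N)))))))) N))))))))))) (K a191 (M a1 (L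 l313 (F (T t534 (L l235 (L l337 (T t1083 (L l185 (T t1094 (K a7 (M a71 (F (L l159 (T t1085 (L l185 (T t1094 N)))))) (K a71 (M a7 (F (T t2333 (L l185 (T t1094 N))))) N))))))))))) (K a255 (M a1 (L l313 (F (T t538 (L l235 (L l295 (L l337 (T t1083 (L l261 (L l296 (T t1094 (K a7 (M a71 (F (L l159 (T t1085 (L l261 (L l296 (T t1094 N))))))) (K a71 (M a7 (F (T t2333 (L l261 (L l296 (T t1094 N)))))) N))))))))))))) (K a7 (M a71 (F (T t5 (T t175 (T t176 (T t177 (K a192 (M a1 (F (L l159 (T t1085 (L l296 (T t1094 N)))))) (K a21 (M a48 (F (T t13 (L l229 (T t1081 N))))) (K a85 (M a48 (F (L l229 (T t1081 (L l144 (T t13 N)))))) (K a213 (Fr a106 a192 l519 (Fr a42 a21 l68 (Fr a170 a234 l390 (Fr a255 a85 l476 (V t582))))) (K a42 (M a101 (F (T t5546 (L l54 (L l229 (T t1209 N)))))) (K a106 (M a1 (F (L l159 (T t1085 (L l390 (T t1094 N)))))) (K a170 (M a48 (F (L l229 (T t1081 (L l390 (T t13 N)))))) (K a191 (M a240 (F (T t962 (L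 l153 (L l315 (T t963 N)))))) (K a255 (M a1 (F (L l159 (T t1085 (L l261 (L l296 (T t1094 N))))))) N))))))))))))))) (K a71 (M a7 (F (T t5 (T t175 (T t176 (T t177 (K a192 (M a1 (F (T t2333 (L l296 (T t1094 N))))) (K a21 (M a240 (F (T t962 (L l153 (L l279 (T t2317 N)))))) (K a85 (M a240 (F (L l144 (T t1091 (L l153 (L l279 (T t2317 N))))))) (K a213 (Fr a106 a192 l519 (Fr a42 a21 l68 (Fr a170 a234 l390 (Fr a255 a85 l476 (V t582))))) (K a42 (M a196 (F (L l279 (T t2334 (L l314 (L l390 (T t1789 N))))))) (K a106 (M a1 (F (T t2333 (L l390 (T t1094 N))))) (K a170 (M a196 (F (L l279 (L l402 (T t2334 (L l208 (L l314 (L l390 (T t1789 N))))))))) (K a191 (M a4 (F (T t1981 (L l494 (T t1978 N))))) (K a255 (M a240 (F (L l440 (T t962 (L l153 (L l279 (T t2317 N))))))) N))))))))))))))) N))))))))))))))))))⟩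
def e0_63__199_132 : Ent 4 := ⟨[a0, a63], [a199, a136], (M a85 (F (T t88 (T t52 (T t89 (L l208 (T t90 (K a64 (M a16 (F (T t97 (L l84 (L l314 (L l494 (T t96 (L l116 (T t98 N))))))))) (K a192 (M a16 (F (T t112 (L l314 (L l494 (T t96 (L l296 (T t98 N)))))))) (K a21 (M a48 (F (T t99 (L l208 (T t50 (L l47 (T t100 N))))))) (K a149 (M a16 (F (T t112 (L l235 (L l314 (T t173 (L l170 (T t102 N)))))))) (K a213 (Fr a170 a255 l476 (Fr a42 a21 l68 (Fr a106 a234 l390 (Fr a192 a149 l519 (V t581))))) (K a42 (M a48 (F (T t364 (L l208 (L l390 (T t50 (L l28 (T t100 N)))))))) (K a106 (M a48 (F (T t1 (L l104 (L l314 (L l494 (T t509 (L l208 (L l390 (T t50 N)))))))))) (K a170 (M a153 (F (L l390 (T t1988 (L l316 (L l402 (L l493 (T t1989 (L l390 (L l402 (T t1990 (L l314 (L l390 (L l402 (T t1991 (L l229 (L l402 (T t1992 N)))))))))))))))))) (K a255 (M a16 (F (T t112 (L l289 (T t113 (L l289 (L l296 (T t98 N)))))))) N))))))))))))))))⟩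
def e0_63__199_133 : Ent 4 := ⟨[a0, a63], [a199, a137], (M a85 (F (T t88 (T t52 (T t89 (T t90 (K a64 (M a252 (F (T t93 (T t92 N)))) (K a192 (M a16 (F (T t112 (L l314 (L l329 (L l494 (T t96 (L l296 (T t98 N))))))))) (K a21 (M a48 (F (T t99 (T t50 (L l47 (T t100 N)))))) (K a149 (M a16 (F (T t112 (L l235 (L l314 (L l329 (T t173 (L l170 (T t102 N))))))))) (K a213 (Fr a170 a255 l476 (Fr a42 a21 l68 (Fr a106 a234 l390 (Fr a192 a149 l519 (V t581))))) (K a42 (M a48 (F (T t364 (L l390 (T t50 (L l28 (T t100 N))))))) (K a106 (M a48 (F (T t99 (T t1 (L l390 (T t50 N)))))) (K a170 (M a16 (F (L l404 (T t113 (L l390 (T t98 (L l390 (L l404 (T t97 (L l229 (L l235 (L l404 (T t174 N))))))))))))) (K a255 (M a16 (F (T t112 (L l289 (T t113 (L l289 (L l296 (T t98 N)))))))) N)))))))))))))))⟩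
def e0_63__199_134 : Ent 4 := ⟨[a0, a63], [a199, a138], (M a85 (F (T t88 (T t52 (T t89 (L l206 (T t90 (K a64 (M a16 (F (T t97 (L l84 (L l235 (L l314 (T t173 (L l116 (T t98 N))))))))) (K a192 (M a16 (F (T t112 (L l235 (L l236 (L l314 (T t173 (L l296 (T t98 N))))))))) (K a21 (M a240 (F (T t1384 (L l206 (T t933 (L l318 (T t1385 N))))))) (K a149 (M a16 (F (T t112 (L l235 (L l314 (T t173 (L l170 (L l206 (T t102 N))))))))) (K a213 (Fr a170 a255 l476 (Fr a42 a21 l68 (Fr a106 a234 l390 (Fr a192 a149 l519 (V t581))))) (K a42 (M a240 (F (T t1384 (L l206 (L l390 (T t386 (L l318 (T t1385 N)))))))) (K a106 (M a48 (F (L l411 (T t3 (L l235 (L l314 (T t1699 (L l206 (L l390 (T t50 N)))))))))) (K a170 (M a154 (F (L l390 (T t2294 (L l318 (L l404 (T t1705 (L l390 (L l404 (L l494 (T t2295 (L l390 (L l404 (T t1711 (L l229 (L l235 (L l404 (T t2296 N)))))))))))))))))) (K a255 (M a16 (F (T t112 (L l289 (L l296 (T t98 (L l289 (L l318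 (T t113 N))))))))) N))))))))))))))))⟩
def e0_63__199_135 : Ent 4 := ⟨[a0, a63], [a199, a139], (M a85 (F (T t88 (T t52 (T t89 (T t90 (K a64 (M a204 (F (T t1575 (L l154 (L l229 (T t1576 N)))))) (K a192 (M a16 (F (T t112 (L l314 (L l494 (T t96 (L l296 (T t98 N)))))))) (K a21 (M a48 (F (T t99 (T t50 (L l47 (T t100 N)))))) (K a149 (M a16 (F (T t112 (L l235 (L l314 (L l331 (T t173 (L l170 (L l209 (T t102 N)))))))))) (K a213 (Fr a170 a255 l476 (Fr a42 a21 l68 (Fr a106 a234 l390 (Fr a192 a149 l519 (V t581))))) (K a42 (M a48 (F (T t364 (L l390 (T t50 (L l28 (T t100 N))))))) (K a106 (M a48 (F (T t99 (T t1 (L l390 (T t50 N)))))) (K a170 (M a16 (F (L l404 (T t113 (L l390 (T t98 (L l390 (L l404 (T t97 (L l229 (L l235 (L l331 (L l404 (T t174 N)))))))))))))) (K a255 (M a16 (F (T t112 (L l289 (T t113 (L l289 (L l296 (T t98 N)))))))) N)))))))))))))))⟩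
def e0_63__199_136 : Ent 4 := ⟨[a0, a63], [a199, a140], (M a85 (F (T t88 (T t52 (T t89 (L l214 (T t90 (K a64 (M a16 (F (T t97 (L l84 (L l314 (L l494 (T t96 (L l116 (T t98 N))))))))) (K a192 (M a16 (F (T t112 (L l314 (L l494 (T t96 (L l296 (T t98 N)))))))) (K a21 (M a48 (F (T t99 (L l222 (T t50 (L l47 (T t100 N))))))) (K a149 (M a16 (F (T t112 (L l235 (L l314 (T t173 (L l170 (T t102 N)))))))) (K a213 (Fr a170 a255 l476 (Fr a42 a21 l68 (Fr a106 a234 l390 (Fr a192 a149 l519 (V t581))))) (K a42 (M a48 (F (T t364 (L l222 (L l390 (T t50 (L l28 (T t100 N)))))))) (K a106 (M a48 (F (T t99 (T t1 (L l222 (L l390 (T t50 N))))))) (K a170 (M a16 (F (L l404 (T t113 (L l390 (T t98 (L l390 (L l404 (T t97 (L l229 (L l235 (L l404 (T t174 N))))))))))))) (K a255 (M a16 (F (T t112 (L l289 (T t113 (L l289 (L l296 (T t98 N)))))))) N))))))))))))))))⟩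
def e0_63__199_137 : Ent 4 := ⟨[a0, a63], [a199, a141], (M a85 (F (T t88 (T t52 (T t89 (T t90 (K a64 (M a16 (F (T t260 (L l327 (T t97 (L l116 (T t98 N))))))) (K a192 (M a16 (F (T t112 (L l314 (L l494 (T t96 (L l296 (T t98 N)))))))) (K a21 (M a48 (F (T t99 (T t50 (L l47 (T t100 N)))))) (K a149 (M a16 (F (T t112 (L l235 (L l314 (T t173 (L l170 (T t102 N)))))))) (K a213 (Fr a170 a255 l476 (Fr a42 a21 l68 (Fr a106 a234 l390 (Fr a192 a149 l519 (V t581))))) (K a42 (M a48 (F (T t364 (L l390 (T t50 (L l28 (T t100 N))))))) (K a106 (M a48 (F (T t99 (L l327 (T t1 (L l390 (T t50 N))))))) (K a170 (M a16 (F (L l404 (T t113 (L l390 (T t98 (L l327 (L l390 (L l404 (T t97 (L l229 (L l235 (L l404 (T t174 N)))))))))))))) (K a255 (M a16 (F (T t112 (L l289 (T t113 (L l289 (L l296 (T t98 N)))))))) N)))))))))))))))⟩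
def e0_63__199_138 : Ent 4 := ⟨[a0, a63], [a199, a142], (M a85 (F (T t88 (T t52 (T t89 (T t90 (K a64 (M a16 (F (T t97 (L l84 (L l314 (L l494 (T t96 (L l116 (T t98 N))))))))) (K a192 (M a16 (F (T t112 (L l314 (L l494 (T t96 (L l296 (T t98 N)))))))) (K a21 (M a48 (F (T t99 (T t50 (L l47 (T t100 N)))))) (K a149 (M a16 (F (T t112 (L l235 (L l314 (L l326 (T t173 (L l170 (L l224 (T t102 N)))))))))) (K a213 (Fr a170 a255 l476 (Fr a42 a21 l68 (Fr a106 a234 l390 (Fr a192 a149 l519 (V t581))))) (K a42 (M a48 (F (T t364 (L l390 (T t50 (L l28 (T t100 N))))))) (K a106 (M a48 (F (T t99 (T t1 (L l390 (T t50 N)))))) (K a170 (M a16 (F (L l404 (T t113 (L l390 (T t98 (L l390 (L l404 (T t97 (L l229 (L l235 (L l326 (L l404 (T t174 N)))))))))))))) (K a255 (M a16 (F (T t112 (L l289 (T t113 (L l289 (L l296 (T t98 N)))))))) N)))))))))))))))⟩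
def e0_63__199_139 : Ent 4 := ⟨[a0, a63], [a199, a143], (M a85 (F (T t88 (T t52 (T t89 (L l213 (T t90 (K a64 (M a16 (F (T t260 (T t112 (L l116 (L l213 (T t98 N))))))) (K a192 (M a16 (F (T t260 (T t112 (L l213 (L l296 (T t98 N))))))) (K a21 (M a48 (F (T t99 (L l47 (T t903 (L l47 (T t100 N))))))) (K a149 (M a16 (F (T t112 (L l314 (T t666 (L l170 (L l227 (T t102 N)))))))) (K a213 (Fr a170 a255 l476 (Fr a42 a21 l68 (Fr a106 a234 l390 (Fr a192 a149 l519 (V t581))))) (K a42 (M a48 (F (T t364 (L l390 (T t903 (L l28 (T t100 N))))))) (K a106 (M a48 (F (T t99 (T t48 (L l227 (L l390 (T t50 N))))))) (K a170 (M a16 (F (L l404 (T t113 (L l213 (L l390 (T t98 (L l325 (L l390 (L l404 (T t97 (L l229 (L l235 (L l325 (L l404 (T t174 N)))))))))))))))) (K a255 (M a16 (F (T t112 (L l289 (T t113 (L l213 (L l289 (L l296 (T t98 N))))))))) N))))))))))))))))⟩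
def e0_63__199_140 : Ent 4 := ⟨[a0, a63], [a199, a144], (M a149 (F (T t25 (L l192 (L l484 (T t175 (T t176 (T t177 (K a192 (M a48 (F (T t132 (L l192 (L l229 (L l236 (L l340 (T t14 (L l229 (L l236 (L l296 (T t6 (L l235 (L l236 (L l296 (T t2007 N)))))))))))))))) (K a21 (M a12 (F (T t647 (L l192 (T t648 (L l50 (L l192 (L l314 (T t649 N))))))))) (K a85 (M a4 (F (L l493 (T t519 (L l144 (L l229 (T t653 (L l126 (T t654 N))))))))) (K a213 (Fr a106 a192 l519 (Fr a42 a21 l68 (Fr a170 a234 l390 (Fr a255 a85 l476 (V t582))))) (K a42 (M a12 (F (L l26 (T t647 (L l192 (L l390 (T t648 (L l26 (L l192 (L l314 (T t649 N))))))))))) (K a106 (M a12 (F (T t122 (L l192 (L l314 (L l408 (T t649 (L l390 (L l408 (T t960 (L l277 (L l390 (T t961 N))))))))))))) (K a170 (M a12 (F (T t650 (L l402 (T t122 (L l192 (L l390 (T t648 N)))))))) (K a191 (M a240 (F (T t2299 (L l213 (L l340 (T t2300 (L l192 (T t2010 N)))))))) (K a255 (M a4 (F (T t129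 (L l229 (L l290 (T t653 (L l265 (L l277 (L l296 (T t1070 N)))))))))) N)))))))))))))))))⟩
def e0_63__199_141 : Ent 4 := ⟨[a0, a63], [a199, a145], (M a149 (F (T t25 (L l196 (L l489 (T t175 (T t176 (T t177 (K a192 (M a51 (F (T t1355 (L l196 (L l229 (L l232 (L l341 (T t2011 (L l229 (L l232 (L l296 (T t2012 (L l232 (L l296 (T t2013 N))))))))))))))) (K a21 (M a48 (F (T t1267 (L l18 (L l196 (L l229 (T t14 (L l162 (L l196 (T t13 N)))))))))) (K a85 (M a16 (F (T t97 (L l144 (L l345 (T t190 (L l94 (L l162 (T t278 N))))))))) (K a213 (Fr a106 a192 l519 (Fr a42 a21 l68 (Fr a170 a234 l390 (Fr a255 a85 l476 (V t582))))) (K a42 (M a48 (F (L l54 (L l229 (T t16 (L l162 (L l196 (L l390 (T t13 (L l54 (L l196 (L l229 (T t14 N))))))))))))) (K a106 (M a48 (F (T t1 (L l196 (L l229 (L l498 (T t14 (L l229 (L l390 (L l498 (T t6 (L l162 (L l390 (T t26 N)))))))))))))) (K a170 (M a48 (F (T t3 (L l162 (L l489 (T t11 (L l162 (L l196 (L l390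 (T t13 N)))))))))) (K a191 (M a252 (F (T t940 (L l193 (T t941 N))))) (K a255 (M a16 (F (T t112 (L l266 (L l345 (T t190 (L l289 (L l296 (T t191 N))))))))) N)))))))))))))))))⟩
def e0_63__199_142 : Ent 4 := ⟨[a0, a63], [a199, a146], (M a85 (F (T t88 (T t52 (T t89 (T t90 (K a64 (M a12 (F (T t124 (L l277 (T t572 N))))) (K a192 (M a16 (F (T t112 (L l314 (L l494 (T t96 (L l296 (T t98 N)))))))) (K a21 (M a48 (F (T t99 (L l197 (T t50 (L l47 (T t100 N))))))) (K a149 (M a16 (F (T t112 (L l235 (L l314 (T t173 (L l168 (L l170 (T t102 N))))))))) (K a213 (Fr a170 a255 l476 (Fr a42 a21 l68 (Fr a106 a234 l390 (Fr a192 a149 l519 (V t581))))) (K a42 (M a48 (F (L l28 (T t99 (L l197 (L l390 (T t50 (L l28 (T t100 N))))))))) (K a106 (M a48 (F (T t1 (L l104 (L l314 (L l494 (T t509 (L l197 (L l390 (T t50 N)))))))))) (K a170 (M a16 (F (L l404 (T t113 (L l390 (T t98 (L l390 (L l404 (T t97 (L l229 (L l235 (L l404 (T t174 N)))))))))))))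 (K a255 (M a16 (F (T t112 (L l289 (T t113 (L l289 (L l296 (T t98 N)))))))) N)))))))))))))))⟩
def e0_63__199_143 : Ent 4 := ⟨[a0, a63], [a199, a147], (M a85 (F (T t88 (T t52 (T t89 (T t90 (K a64 (M a12 (F (T t124 (L l277 (T t572 N))))) (K a192 (M a16 (F (T t112 (L l314 (L l494 (T t96 (L l169 (L l296 (T t98 N))))))))) (K a21 (M a48 (F (T t99 (T t50 (L l47 (T t100 N)))))) (K a149 (M a16 (F (T t112 (L l235 (L l314 (T t173 (L l170 (T t102 N)))))))) (K a213 (Fr a170 a255 l476 (Fr a42 a21 l68 (Fr a106 a234 l390 (Fr a192 a149 l519 (V t581))))) (K a42 (M a48 (F (T t364 (L l390 (T t50 (L l28 (T t100 N))))))) (K a106 (M a48 (F (T t99 (T t1 (L l390 (T t50 N)))))) (K a170 (M a16 (F (L l404 (T t113 (L l169 (L l390 (T t98 (L l390 (L l404 (T t97 (L l229 (L l235 (L l404 (T t174 N)))))))))))))) (K a255 (M a16 (F (T t112 (L l289 (T t113 (L l169 (L l289 (L l296 (T t98 N))))))))) N)))))))))))))))⟩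
def e0_63__199_144 : Ent 4 := ⟨[a0, a63], [a199, a148], (M a149 (F (T t25 (L l216 (L l514 (T t175 (T t176 (T t177 (K a192 (M a60 (F (T t522 (L l216 (L l228 (L l346 (T t462 (L l228 (L l296 (T t1256 (L l228 (L l235 (L l277 (L l296 (T t1257 N))))))))))))))) (K a21 (M a48 (F (T t1267 (L l18 (L l216 (L l229 (T t14 (L l166 (L l216 (T t13 N)))))))))) (K a85 (M a16 (F (T t97 (L l144 (L l370 (T t190 (L l94 (L l166 (T t278 N))))))))) (K a213 (Fr a106 a192 l519 (Fr a42 a21 l68 (Fr a170 a234 l390 (Fr a255 a85 l476 (V t582))))) (K a42 (M a48 (F (L l54 (L l229 (T t16 (L l166 (L l216 (L l390 (T t13 (L l54 (L l216 (L l229 (T t14 N))))))))))))) (K a106 (M a48 (F (T t1 (L l216 (L l229 (L l498 (T t14 (L l229 (L l390 (L l498 (T t6 (L l166 (L l390 (T t26 N)))))))))))))) (K a170 (M a48 (F (T t3 (L l166 (L l514 (T t11 (L l166 (L l216 (L l390 (T t13 N)))))))))) (K a191 (M a16 (F (T t97 (L l370 (T t190 (L l213 (T t191 N))))))) (K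 a255 (M a16 (F (T t112 (L l266 (L l370 (T t190 (L l289 (L l296 (T t191 N))))))))) N)))))))))))))))))⟩
def e0_63__199_145 : Ent 4 := ⟨[a0, a63], [a199, a149], (M a60 (F (T t69 (L l347 (T t67 (L l351 (T t43 (L l347 (L l515 (T t68 (K a20 (M a48 (F (T t2 (L l491 (L l515 (T t64 (L l11 (L l313 (L l347 (L l515 (T t235 N))))))))))) (K a40 (M a48 (F (T t70 (L l347 (L l491 (T t1 (L l52 (L l313 (L l347 (L l515 (T t235 N))))))))))) (K a21 (M a85 (F (L l277 (T t936 (L l220 (T t114 (L l65 (L l163 (L l235 (L l277 (L l515 (T t1631 (L l65 (L l163 (L l220 (L l277 (L l515 (T t1632 N)))))))))))))))))) (K a41 (M a32 (F (L l29 (T t1573 (L l65 (L l347 (T t219 (L l25 (L l65 (L l347 (T t1569 N))))))))))) (K a61 (M a16 (L l515 (F (T t1140 (L l375 (T t97 (L l59 (L l371 (T t1141 (K a193 (M a105 (F (T t112 (L l228 (L l235 (T t404 N)))))) (K a105 (M a193 (F (T t112 (L l392 (T t1140 (L l59 (L l371 (L l392 (T t1141 N))))))))) N)))))))))))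 (K a22 (M a16 (F (L l19 (T t1140 (L l66 (L l375 (T t97 (L l16 (L l66 (L l371 (T t1141 N))))))))))) (K a42 (M a255 (F (T t1633 (L l235 (L l347 (T t1634 (L l22 (L l220 (L l277 (L l390 (L l515 (T t1635 N)))))))))))) (K a62 (M a16 (F (T t1140 (L l66 (L l375 (T t97 (L l66 (L l371 (T t1141 N))))))))) (K a3 (M a16 (F (T t112 (L l9 (T t1140 (L l371 (T t1141 N))))))) N)))))))))))))))))))⟩
def e0_63__199_146 : Ent 4 := ⟨[a0, a63], [a199, a150], (M a48 (L l494 (F (T t1 (T t2 (T t3 (T t0 (K a16 (M a52 (F (L l493 (T t83 (L l14 (L l18 (L l350 (T t1430 (L l14 (L l350 (L l492 (T t84 (L l313 (T t5584 N)))))))))))))) (K a32 (M a52 (F (T t5585 (L l493 (T t83 (L l28 (L l350 (L l492 (T t84 (L l28 (L l313 (T t5584 N)))))))))))) (K a21 (M a101 (F (L l229 (T t313 (L l18 (L l235 (T t334 (L l18 (L l229 (T t314 N)))))))))) (K a37 (M a52 (F (L l314 (T t82 (L l493 (T t83 (L l21 (L l28 (L l350 (L l492 (T t84 N))))))))))) (K a53 (M a52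 (F (L l314 (T t82 (L l47 (L l350 (T t1430 (L l313 (L l374 (T t1431 (L l47 (L l313 (T t1432 N))))))))))))) (K a26 (M a101 (F (L l235 (T t333 (L l18 (L l350 (T t2103 (L l18 (L l54 (L l229 (T t314 N))))))))))) (K a42 (M a101 (F (T t2197 (L l54 (L l229 (T t313 (L l54 (L l229 (T t314 N))))))))) (K a58 (M a52 (F (L l32 (T t5585 (L l54 (L l313 (L l374 (T t1431 (L l32 (L l314 (T t82 (L l32 (L l313 (T t1432 N)))))))))))))) (K a15 (M a52 (F (L l516 (T t491 (L l3 (L l314 (T t82 (L l350 (L l492 (T t84 N)))))))))) (K a52 (M a101 (F (T t2 (L l229 (T t313 (L l235 (T t334 N))))))) (K a101 (M a52 (F (T t2 (L l493 (T t83 (L l314 (T t82 N))))))) N))))))))))))))))))⟩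
def e0_63__199_147 : Ent 4 := ⟨[a0, a63], [a199, a151], (M a48 (L l493 (F (T t1 (T t2 (T t3 (L l373 (T t0 (K a16 (M a55 (F (T t3722 (L l494 (T t1743 (L l14 (T t2040 N))))))) (K a32 (M a55 (F (T t2038 (L l28 (L l314 (T t2039 (L l28 (T t2040 N)))))))) (K a21 (M a101 (L l493 (F (T t2181 (L l229 (T t313 (L l18 (L l229 (T t314 (K a103 (M a55 (F (T t1743 (L l18 (L l403 (T t335 N)))))) (K a55 (M a103 (L l50 (F (L l169 (T t5586 (L l18 (L l219 (L l229 (T t431 (K a4 (M a38 (L l314 (F (L l229 (T t440 (L l18 (L l219 (T t5587 (K a69 (M a134 (F (L l169 (T t1306 (L l18 (L l219 (T t5587 N))))))) (K a134 (M a69 (F (T t432 (L l18 (T t433 N))))) N)))))))))) (K a38 (M a4 (F (L l169 (T t5586 (L l31 (T t528 N)))))) N))))))))))) N))))))))))) (K a37 (M a55 (F (T t2038 (L l28 (L l314 (T t2039 (L l21 (L l28 (T t2040 N))))))))) (K a53 (M a55 (F (T t3722 (T t5588 (L l35 (L l314 (T t5589 (L l494 (T t5590 (L l35 (L l314 (L l373 (T t5591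 N))))))))))))) (K a26 (M a51 (L l493 (F (T t3726 (L l18 (T t589 (T t1901 (K a103 (Fr a55 a59 l37 (V t5592)) (K a55 (M a103 (F (T t4651 (L l31 (L l169 (L l494 (T t5593 N))))))) N))))))))) (K a42 (M a192 (L l493 (F (T t19 (L l163 (L l235 (T t20 (L l28 (L l163 (T t29 (K a103 (M a55 (F (T t19 (L l56 (L l229 (L l390 (T t66 N))))))) (K a55 (M a103 (F (T t837 (L l169 (L l235 (L l390 (T t22 (L l28 (L l31 (L l163 (L l495 (T t29 N)))))))))))) N)))))))))))) (K a58 (M a55 (F (L l32 (T t5588 (L l54 (L l494 (T t5594 (L l32 (L l54 (L l314 (T t2039 (L l54 (L l314 (L l373 (T t5595 (L l54 (L l314 (L l373 (T t5591 N))))))))))))))))))) (K a15 (M a55 (F (T t3722 (L l63 (L l494 (T t1743 (T t2040 N))))))) (K a103 (M a55 (F (T t2 (L l494 (T t1743 (L l314 (T t2039 N))))))) (K a55 (M a103 (F (T t2 (L l31 (L l50 (T t1 (L l50 (T t3 (L l373 (T t0 (K a16 (M a49 (F (L l169 (L l368 (T t5596 (L l10 (T t144 N))))))) (K a32 (M a49 (F (L l169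 (T t5597 (L l28 (T t144 N)))))) (K a21 (M a100 (L l50 (F (T t4655 (L l31 (L l47 (L l235 (L l495 (T t5598 (K a4 (M a38 (L l314 (F (T t5599 (L l169 (L l229 (L l235 (L l495 (T t4656 (K a69 (M a134 (F (T t5599 (L l169 (L l229 (L l235 (L l311 (L l495 (T t4656 N))))))))) (K a134 (M a69 (F (T t5599 (L l229 (L l495 (T t5600 N)))))) N))))))))))) (K a38 (M a4 (F (T t5599 (L l229 (L l384 (L l495 (T t5600 N))))))) N))))))))))) (K a37 (M a100 (F (T t4657 (L l31 (L l47 (L l235 (L l495 (T t5598 N)))))))) (K a53 (M a52 (F (T t1429 (T t5601 (L l47 (L l49 (L l50 (L l313 (T t1432 (L l49 (L l313 (L l373 (T t5602 N))))))))))))) (K a26 (M a100 (F (T t4655 (L l31 (L l235 (L l495 (T t5598 N))))))) (K a42 (M a100 (F (T t4657 (L l31 (L l235 (L l495 (T t5598 N))))))) (K a58 (M a170 (F (T t2102 (T t5603 N)))) (K a15 (M a100 (F (T t5604 (L l31 (L l235 (L l325 (L l495 (T t5598 N)))))))) N))))))))))))))))))) N)))))))))))))))))))⟩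
def e0_63__199_148 : Ent 4 := ⟨[a0, a63], [a199, a152], (M a85 (F (T t88 (T t52 (T t89 (T t90 (K a64 (M a252 (F (T t91 (L l204 (T t92 N))))) (K a192 (M a16 (F (T t112 (L l314 (L l494 (T t96 (L l296 (T t98 N)))))))) (K a21 (M a48 (F (T t99 (L l222 (T t50 (L l47 (T t100 N))))))) (K a149 (M a16 (F (T t112 (L l235 (L l314 (T t173 (L l164 (L l170 (T t102 N))))))))) (K a213 (Fr a170 a255 l476 (Fr a42 a21 l68 (Fr a106 a234 l390 (Fr a192 a149 l519 (V t581))))) (K a42 (M a48 (F (L l28 (T t99 (L l222 (L l390 (T t50 (L l28 (T t100 N))))))))) (K a106 (M a48 (F (T t1 (L l104 (L l314 (L l494 (T t509 (L l222 (L l390 (T t50 N)))))))))) (K a170 (M a16 (F (L l404 (T t113 (L l390 (T t98 (L l390 (L l404 (T t97 (L l229 (L l235 (L l404 (T t174 N))))))))))))) (K a255 (M a16 (F (T t112 (L l289 (T t113 (L l289 (L l296 (T t98 N)))))))) N)))))))))))))))⟩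
def e0_63__199_149 : Ent 4 := ⟨[a0, a63], [a199, a153], (M a48 (F (T t1 (T t2 (T t3 (T t0 (K a16 (M a60 (F (T t43 (L l513 (T t64 (T t65 N)))))) (K a32 (M a60 (F (T t67 (L l513 (T t64 (L l24 (L l28 (T t65 N)))))))) (K a21 (M a192 (F (T t837 (L l47 (L l167 (L l235 (L l347 (T t20 (L l47 (L l167 (L l347 (T t29 N)))))))))))) (K a37 (M a192 (F (T t19 (L l47 (L l167 (L l235 (T t20 (L l167 (T t21 N))))))))) (K a53 (M a192 (F (T t19 (L l167 (L l491 (T t21 (L l501 (T t31 N)))))))) (K a26 (M a192 (F (T t27 (L l167 (L l235 (T t20 (L l167 (T t21 N)))))))) (K a42 (M a192 (F (T t19 (L l167 (L l235 (T t20 (L l28 (L l167 (T t29 N))))))))) (K a58 (M a192 (F (T t19 (L l167 (T t21 (L l54 (L l498 (L l501 (T t31 N))))))))) (K a15 (M a192 (F (T t1922 (L l167 (L l235 (L l325 (T t20 (L l167 (L l469 (T t21 N)))))))))) N)))))))))))))))⟩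
def e0_63__199_150 : Ent 4 := ⟨[a0, a63], [a199, a154], (M a60 (F (T t67 (T t43 (T t68 (T t69 (K a20 (M a48 (F (T t0 (L l510 (T t64 (L l11 (L l313 (L l500 (T t235 N))))))))) (K a40 (M a48 (F (T t1 (L l510 (T t64 (L l52 (L l313 (L l500 (T t235 N))))))))) (K a21 (M a192 (F (T t72 (L l170 (L l235 (L l347 (T t73 (L l170 (L l277 (L l347 (T t74 N))))))))))) (K a41 (M a192 (F (T t77 (L l65 (L l170 (T t35 (L l170 (L l235 (T t73 N))))))))) (K a61 (M a192 (F (T t72 (L l65 (L l170 (L l515 (T t35 (L l493 (L l498 (T t80 N)))))))))) (K a22 (M a192 (F (T t72 (L l170 (T t21 (L l170 (L l235 (T t73 N)))))))) (K a42 (M a192 (F (T t77 (L l170 (L l235 (T t73 (L l22 (L l170 (L l277 (T t74 N)))))))))) (K a62 (M a192 (F (T t72 (L l170 (T t35 (L l66 (L l493 (L l498 (L l516 (T t80 N)))))))))) (K a3 (M a192 (F (T t2658 (L l170 (L l475 (T t35 (L l170 (L l235 (L l307 (T t73 N)))))))))) N)))))))))))))))⟩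
def e0_63__199_151 : Ent 4 := ⟨[a0, a63], [a199, a155], (M a85 (F (T t88 (T t52 (T t89 (T t90 (K a64 (M a12 (F (T t124 (L l277 (T t572 N))))) (K a192 (M a16 (F (T t504 (L l314 (L l367 (L l494 (T t96 (L l169 (L l296 (L l367 (T t98 N))))))))))) (K a21 (M a48 (F (L l367 (T t99 (T t50 (L l47 (L l367 (T t100 N)))))))) (K a149 (M a16 (F (T t112 (L l235 (L l314 (L l367 (L l511 (T t173 (L l164 (L l170 (T t102 N))))))))))) (K a213 (Fr a170 a255 l476 (Fr a42 a21 l68 (Fr a106 a234 l390 (Fr a192 a149 l519 (V t581))))) (K a42 (M a48 (F (T t364 (L l390 (T t50 (L l28 (L l367 (T t100 N)))))))) (K a106 (M a48 (F (T t364 (T t1 (L l390 (T t50 N)))))) (K a170 (M a16 (F (L l390 (L l404 (T t97 (L l169 (L l367 (L l390 (T t98 (L l367 (L l404 (T t113 (L l229 (L l235 (L l367 (L l404 (L l511 (T t174 N)))))))))))))))))) (K a255 (M a16 (F (T t112 (L l289 (L l367 (T t113 (L l169 (L l289 (L l296 (L l367 (T t98 N))))))))))) N)))))))))))))))⟩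
def e0_63__199_152 : Ent 4 := ⟨[a0, a63], [a199, a156], (M a85 (F (T t88 (T t52 (T t89 (T t90 (K a64 (M a16 (F (T t97 (L l84 (L l314 (L l494 (T t96 (L l116 (L l165 (T t98 N)))))))))) (K a192 (M a16 (F (T t112 (L l314 (L l494 (T t96 (L l165 (L l296 (T t98 N))))))))) (K a21 (M a48 (F (T t99 (T t50 (L l47 (T t100 N)))))) (K a149 (M a16 (F (T t112 (L l235 (L l314 (T t173 (L l170 (T t102 N)))))))) (K a213 (Fr a170 a255 l476 (Fr a42 a21 l68 (Fr a106 a234 l390 (Fr a192 a149 l519 (V t581))))) (K a42 (M a48 (F (T t364 (L l390 (T t50 (L l28 (T t100 N))))))) (K a106 (M a48 (F (T t99 (T t1 (L l390 (T t50 N)))))) (K a170 (M a16 (F (L l404 (T t113 (L l165 (L l390 (T t98 (L l390 (L l404 (T t97 (L l229 (L l235 (L l404 (T t174 N)))))))))))))) (K a255 (M a16 (F (T t112 (L l289 (T t113 (L l165 (L l289 (L l296 (T t98 N))))))))) N)))))))))))))))⟩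
def e0_63__199_153 : Ent 4 := ⟨[a0, a63], [a199, a157], (M a48 (F (T t1 (T t2 (T t3 (L l363 (T t0 (K a16 (M a60 (F (T t43 (L l503 (T t64 (T t65 N)))))) (K a32 (M a60 (F (T t70 (T t67 (L l24 (L l28 (T t65 N))))))) (K a21 (M a192 (F (T t837 (L l47 (L l167 (L l235 (L l347 (T t20 (L l47 (L l167 (L l347 (T t29 N)))))))))))) (K a37 (M a192 (F (T t19 (L l47 (L l167 (L l235 (T t20 (L l167 (T t21 N))))))))) (K a53 (M a192 (F (T t19 (L l167 (L l491 (T t21 (L l165 (T t31 N)))))))) (K a26 (M a192 (F (T t27 (L l167 (L l235 (T t20 (L l167 (T t21 N)))))))) (K a42 (M a192 (F (T t19 (L l167 (L l235 (T t20 (L l28 (L l167 (T t29 N))))))))) (K a58 (M a192 (F (T t19 (L l167 (T t21 (L l54 (L l165 (L l498 (T t31 N))))))))) (K a15 (M a192 (F (T t55 (L l167 (L l235 (L l325 (T t20 (L l167 (L l469 (T t21 N)))))))))) N))))))))))))))))⟩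
def e0_63__199_154 : Ent 4 := ⟨[a0, a63], [a199, a158], (M a149 (F (T t5 (T t175 (T t176 (T t177 (K a192 (M a53 (F (T t178 (L l229 (L l236 (T t179 (L l229 (L l236 (L l296 (L l314 (T t180 N))))))))))) (K a21 (M a48 (F (L l229 (T t4 (T t13 (L l18 (L l229 (T t14 N)))))))) (K a85 (M a16 (F (T t97 (L l144 (T t190 (L l94 (T t278 N))))))) (K a213 (Fr a106 a192 l519 (Fr a42 a21 l68 (Fr a170 a234 l390 (Fr a255 a85 l476 (V t582))))) (K a42 (M a48 (F (T t11 (L l390 (T t13 (L l54 (L l229 (T t14 N)))))))) (K a106 (M a48 (F (T t1 (L l229 (L l498 (T t14 (L l229 (L l390 (L l498 (T t6 (L l362 (L l390 (T t26 N))))))))))))) (K a170 (M a48 (F (T t3 (T t11 (L l390 (T t13 N)))))) (K a191 (M a204 (F (T t1283 (L l504 (T t1112 N))))) (K a255 (M a16 (F (T t112 (L l266 (T t190 (L l165 (L l289 (L l296 (L l362 (T t191 N)))))))))) N)))))))))))))))⟩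
def e0_63__199_155 : Ent 4 := ⟨[a0, a63], [a199, a159], (M a48 (F (T t1 (T t2 (T t3 (L l361 (T t0 (K a16 (M a60 (F (T t43 (T t64 (T t65 N))))) (K a32 (M a60 (F (T t64 (T t67 (L l24 (L l28 (T t65 N))))))) (K a21 (M a192 (F (T t837 (L l47 (L l170 (L l235 (L l347 (T t20 (L l18 (L l229 (T t224 N))))))))))) (K a37 (M a192 (F (T t837 (L l47 (L l170 (L l235 (T t20 (L l213 (T t202 N))))))))) (K a53 (M a192 (F (T t837 (L l213 (T t202 (L l47 (L l170 (L l491 (T t838 N))))))))) (K a26 (M a192 (F (T t837 (L l170 (L l235 (T t20 (L l213 (T t202 N)))))))) (K a42 (M a192 (F (T t837 (L l170 (L l235 (T t20 (L l54 (L l229 (L l390 (T t224 N)))))))))) (K a58 (M a192 (F (T t837 (L l213 (L l498 (T t202 (L l170 (T t838 N)))))))) (K a15 (M a192 (F (T t1681 (L l483 (T t837 (L l170 (L l235 (L l325 (T t20 N))))))))) N))))))))))))))))⟩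
def e0_63__199_156 : Ent 4 := ⟨[a0, a63], [a199, a160], (M a85 (F (T t88 (T t52 (T t89 (L l180 (T t90 (K a64 (M a16 (F (L l376 (T t97 (L l84 (L l314 (T t666 (L l116 (T t98 N))))))))) (K a192 (M a16 (F (L l376 (T t112 (L l296 (L l314 (T t666 (L l296 (T t98 N))))))))) (K a21 (M a48 (F (L l376 (T t99 (L l180 (L l192 (T t50 (L l47 (L l376 (T t100 N)))))))))) (K a149 (M a16 (F (L l376 (T t112 (L l314 (T t666 (L l170 (T t102 N)))))))) (K a213 (Fr a170 a255 l476 (Fr a42 a21 l68 (Fr a106 a234 l390 (Fr a192 a149 l519 (V t581))))) (K a42 (M a48 (F (T t364 (L l180 (L l192 (L l390 (T t50 (L l28 (L l376 (T t100 N)))))))))) (K a106 (M a48 (F (T t1 (L l104 (L l314 (L l376 (L l494 (T t509 (L l180 (L l192 (L l390 (T t50 N)))))))))))) (K a170 (M a165 (F (L l376 (L l462 (T t2016 (L l314 (L l390 (T t2015 (L l390 (L l462 (T t2017 (L l390 (L l462 (T t2018 (L l462 (T t2014 N)))))))))))))))) (K a255 (M a16 (F (L l376 (T t112 (L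 l289 (L l296 (T t98 (L l289 (L l376 (T t113 N)))))))))) N))))))))))))))))⟩
def e0_63__199_157 : Ent 4 := ⟨[a0, a63], [a199, a161], (M a85 (F (T t88 (T t52 (T t89 (T t90 (K a64 (M a12 (F (T t124 (L l277 (T t572 N))))) (K a192 (M a16 (F (T t112 (L l314 (L l494 (T t96 (L l296 (T t98 N)))))))) (K a21 (M a48 (F (T t99 (L l197 (L l453 (T t50 (L l47 (T t100 N)))))))) (K a149 (M a16 (F (T t112 (L l235 (L l314 (T t173 (L l170 (T t102 N)))))))) (K a213 (Fr a170 a255 l476 (Fr a42 a21 l68 (Fr a106 a234 l390 (Fr a192 a149 l519 (V t581))))) (K a42 (M a48 (F (T t364 (L l197 (L l390 (L l453 (T t50 (L l28 (T t100 N))))))))) (K a106 (M a48 (F (T t1 (L l104 (L l314 (L l494 (T t509 (L l197 (L l390 (L l453 (T t50 N))))))))))) (K a170 (M a16 (F (L l404 (T t113 (L l390 (T t98 (L l390 (L l404 (T t97 (L l229 (L l235 (L l404 (T t174 N))))))))))))) (K a255 (M a16 (F (T t112 (L l289 (T t113 (L l289 (L l296 (T t98 N)))))))) N)))))))))))))))⟩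
def e0_63__199_158 : Ent 4 := ⟨[a0, a63], [a199, a162], (M a85 (F (T t88 (T t52 (T t89 (L l178 (T t90 (K a64 (M a16 (F (L l380 (T t97 (L l84 (L l314 (T t666 (L l116 (T t98 N))))))))) (K a192 (M a16 (F (L l380 (T t112 (L l296 (L l314 (T t666 (L l296 (T t98 N))))))))) (K a21 (M a48 (F (L l380 (T t99 (L l178 (T t50 (L l47 (L l380 (T t100 N))))))))) (K a149 (M a16 (F (L l380 (T t112 (L l314 (T t666 (L l170 (T t102 N)))))))) (K a213 (Fr a170 a255 l476 (Fr a42 a21 l68 (Fr a106 a234 l390 (Fr a192 a149 l519 (V t581))))) (K a42 (M a48 (F (T t364 (L l178 (L l390 (T t50 (L l28 (L l380 (T t100 N))))))))) (K a106 (M a48 (F (T t364 (T t1 (L l178 (L l390 (T t50 N))))))) (K a170 (M a166 (F (L l277 (L l390 (T t2020 (L l277 (L l378 (L l464 (T t2019 (L l390 (L l464 (T t2021 (L l277 (L l390 (L l464 (T t2022 (L l277 (L l464 (T t2023 N))))))))))))))))))) (K a255 (M a16 (F (L l380 (T t112 (L l289 (L l296 (T t98 (L l289 (L l380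 (T t113 N)))))))))) N))))))))))))))))⟩
def e0_63__199_159 : Ent 4 := ⟨[a0, a63], [a199, a163], (M a85 (F (T t88 (T t52 (T t89 (T t90 (K a64 (M a240 (F (T t933 (L l172 (T t387 N))))) (K a192 (M a16 (F (T t112 (L l314 (L l494 (T t96 (L l296 (T t98 N)))))))) (K a21 (M a48 (F (T t99 (T t50 (L l47 (T t100 N)))))) (K a149 (M a16 (F (T t112 (L l235 (L l314 (T t173 (L l170 (T t102 N)))))))) (K a213 (Fr a170 a255 l476 (Fr a42 a21 l68 (Fr a106 a234 l390 (Fr a192 a149 l519 (V t581))))) (K a42 (M a48 (F (T t364 (L l390 (T t50 (L l28 (T t100 N))))))) (K a106 (M a48 (F (T t99 (T t1 (L l390 (T t50 N)))))) (K a170 (M a16 (F (L l404 (T t113 (L l390 (T t98 (L l390 (L l404 (T t97 (L l229 (L l235 (L l404 (T t174 N))))))))))))) (K a255 (M a16 (F (T t112 (L l289 (T t113 (L l289 (L l296 (T t98 N)))))))) N)))))))))))))))⟩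
def e0_63__199_160 : Ent 4 := ⟨[a0, a63], [a199, a164], (M a85 (F (T t88 (T t52 (T t89 (T t90 (K a64 (M a252 (F (T t91 (L l176 (T t92 N))))) (K a192 (M a16 (F (T t112 (L l314 (L l494 (T t96 (L l296 (T t98 N)))))))) (K a21 (M a48 (F (T t99 (L l222 (L l478 (T t50 (L l47 (T t100 N)))))))) (K a149 (M a16 (F (T t112 (L l235 (L l314 (T t173 (L l170 (T t102 N)))))))) (K a213 (Fr a170 a255 l476 (Fr a42 a21 l68 (Fr a106 a234 l390 (Fr a192 a149 l519 (V t581))))) (K a42 (M a48 (F (T t364 (L l222 (L l390 (L l478 (T t50 (L l28 (T t100 N))))))))) (K a106 (M a48 (F (T t1 (L l104 (L l314 (L l494 (T t509 (L l222 (L l390 (L l478 (T t50 N))))))))))) (K a170 (M a16 (F (L l404 (T t113 (L l390 (T t98 (L l390 (L l404 (T t97 (L l229 (L l235 (L l404 (T t174 N))))))))))))) (K a255 (M a16 (F (T t112 (L l289 (T t113 (L l289 (L l296 (T t98 N)))))))) N)))))))))))))))⟩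
def e0_63__199_161 : Ent 4 := ⟨[a0, a63], [a199, a165], (M a60 (F (T t67 (T t43 (T t68 (T t69 (K a20 (M a48 (F (T t64 (L l11 (L l483 (T t1 (L l11 (L l313 (L l459 (T t235 N)))))))))) (K a40 (M a48 (F (T t64 (L l483 (T t1 (L l52 (L l313 (L l459 (T t235 N))))))))) (K a21 (M a192 (F (T t72 (L l199 (L l235 (L l347 (T t73 (L l199 (L l277 (L l347 (T t74 N))))))))))) (K a41 (M a192 (F (T t77 (L l65 (L l199 (T t35 (L l199 (L l235 (T t73 N))))))))) (K a61 (M a192 (F (T t72 (L l65 (L l199 (L l515 (T t35 (L l411 (L l493 (T t80 N)))))))))) (K a22 (M a192 (F (T t72 (L l199 (T t21 (L l199 (L l235 (T t73 N)))))))) (K a42 (M a192 (F (T t77 (L l199 (L l235 (T t73 (L l22 (L l199 (L l277 (T t74 N)))))))))) (K a62 (M a192 (F (T t72 (L l199 (T t35 (L l66 (L l411 (L l493 (L l516 (T t80 N)))))))))) (K a3 (M a192 (F (T t2658 (L l199 (L l475 (T t35 (L l199 (L l235 (L l307 (T t73 N)))))))))) N)))))))))))))))⟩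
def e0_63__199_162 : Ent 4 := ⟨[a0, a63], [a199, a166], (M a48 (F (T t1 (T t2 (T t3 (T t0 (K a16 (M a60 (F (T t43 (T t64 (T t65 N))))) (K a32 (M a60 (F (T t64 (T t67 (L l24 (L l28 (T t65 N))))))) (K a21 (M a192 (F (T t837 (L l47 (L l202 (L l235 (L l347 (T t20 (L l47 (L l202 (L l347 (T t29 N)))))))))))) (K a37 (M a192 (F (T t19 (L l47 (L l202 (L l235 (T t20 (L l202 (T t21 N))))))))) (K a53 (M a192 (F (T t19 (L l202 (L l491 (T t21 (L l408 (T t31 N)))))))) (K a26 (M a192 (F (T t27 (L l202 (L l235 (T t20 (L l202 (T t21 N)))))))) (K a42 (M a192 (F (T t19 (L l202 (L l235 (T t20 (L l28 (L l202 (T t29 N))))))))) (K a58 (M a192 (F (T t19 (L l202 (T t21 (L l54 (L l408 (L l498 (T t31 N))))))))) (K a15 (M a192 (F (T t1922 (L l202 (L l235 (L l325 (T t20 (L l202 (L l469 (T t21 N)))))))))) N)))))))))))))))⟩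
def e0_63__199_163 : Ent 4 := ⟨[a0, a63], [a199, a167], (M a85 (F (T t88 (T t52 (T t89 (T t90 (K a64 (M a252 (F (T t91 (L l457 (T t92 N))))) (K a192 (M a16 (F (T t112 (L l314 (L l494 (T t96 (L l296 (T t98 N)))))))) (K a21 (M a48 (F (T t99 (T t50 (L l47 (T t100 N)))))) (K a149 (M a16 (F (T t112 (L l235 (L l314 (T t173 (L l170 (T t102 N)))))))) (K a213 (Fr a170 a255 l476 (Fr a42 a21 l68 (Fr a106 a234 l390 (Fr a192 a149 l519 (V t581))))) (K a42 (M a48 (F (T t364 (L l390 (T t50 (L l28 (T t100 N))))))) (K a106 (M a48 (F (T t99 (L l481 (T t1 (L l390 (T t50 N))))))) (K a170 (M a16 (F (L l404 (T t113 (L l390 (T t98 (L l390 (L l404 (L l481 (T t97 (L l229 (L l235 (L l404 (T t174 N)))))))))))))) (K a255 (M a16 (F (T t112 (L l289 (T t113 (L l289 (L l296 (T t98 N)))))))) N)))))))))))))))⟩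
def e0_63__199_164 : Ent 4 := ⟨[a0, a63], [a199, a168], (M a85 (F (T t88 (T t52 (T t89 (L l174 (T t90 (K a64 (M a16 (F (L l400 (T t97 (L l84 (L l314 (T t666 (L l116 (T t98 N))))))))) (K a192 (M a16 (F (L l400 (T t112 (L l296 (L l314 (T t666 (L l296 (T t98 N))))))))) (K a21 (M a48 (F (L l400 (T t99 (L l174 (T t50 (L l47 (L l400 (T t100 N))))))))) (K a149 (M a16 (F (L l400 (T t112 (L l314 (T t666 (L l170 (T t102 N)))))))) (K a213 (Fr a170 a255 l476 (Fr a42 a21 l68 (Fr a106 a234 l390 (Fr a192 a149 l519 (V t581))))) (K a42 (M a48 (F (T t364 (L l174 (L l390 (T t50 (L l28 (L l400 (T t100 N))))))))) (K a106 (M a48 (F (T t364 (T t1 (L l174 (L l390 (T t50 N))))))) (K a170 (M a169 (F (L l390 (T t2024 (L l388 (L l474 (T t2025 (L l390 (L l474 (T t2026 (L l390 (L l474 (T t2027 (L l474 (T t2028 N))))))))))))))) (K a255 (M a16 (F (L l400 (T t112 (L l289 (L l296 (T t98 (L l289 (L l400 (T t113 N)))))))))) N))))))))))))))))⟩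
def e0_63__199_165 : Ent 4 := ⟨[a0, a63], [a199, a169], (M a48 (F (T t1 (T t2 (T t3 (T t0 (K a16 (M a60 (F (T t64 (L l14 (L l18 (L l393 (L l477 (T t67 (T t65 N))))))))) (K a32 (M a60 (F (T t64 (L l393 (L l477 (T t67 (L l24 (L l28 (T t65 N))))))))) (K a21 (M a192 (F (T t837 (L l47 (L l217 (L l235 (L l347 (T t20 (L l47 (L l217 (L l347 (T t29 N)))))))))))) (K a37 (M a192 (F (T t19 (L l47 (L l217 (L l235 (T t20 (L l217 (T t21 N))))))))) (K a53 (M a192 (F (T t19 (L l217 (L l491 (T t21 (L l393 (T t31 N)))))))) (K a26 (M a192 (F (T t27 (L l217 (L l235 (T t20 (L l217 (T t21 N)))))))) (K a42 (M a192 (F (T t19 (L l217 (L l235 (T t20 (L l28 (L l217 (T t29 N))))))))) (K a58 (M a192 (F (T t19 (L l217 (T t21 (L l54 (L l393 (L l498 (T t31 N))))))))) (K a15 (M a192 (F (T t1922 (L l217 (L l235 (L l325 (T t20 (L l217 (L l469 (T t21 N)))))))))) N)))))))))))))))⟩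
def e0_63__199_166 : Ent 4 := ⟨[a0, a63], [a199, a170], (M a60 (F (T t67 (L l390 (L l392 (T t43 (L l474 (T t68 (L l390 (T t69 (K a20 (M a48 (F (T t64 (L l11 (L l462 (T t1 (L l11 (L l313 (L l474 (T t235 N)))))))))) (K a40 (M a48 (L l392 (F (T t64 (L l462 (T t1 (L l52 (L l313 (L l474 (T t235 (K a105 (M a235 (F (T t70 (L l462 (T t1 (L l52 (L l313 (L l500 (T t1419 N))))))))) (K a235 (M a105 (F (T t3 (L l218 (L l494 (T t1217 N)))))) N)))))))))))) (K a21 (M a192 (F (T t1333 (L l235 (L l390 (T t1516 (L l65 (L l220 (L l277 (L l347 (L l392 (T t1636 N)))))))))))) (K a41 (M a192 (F (T t1333 (L l235 (L l390 (T t1516 (L l22 (L l65 (L l220 (L l277 (L l392 (T t1636 N)))))))))))) (K a61 (M a16 (F (L l392 (L l404 (T t1140 (L l390 (L l404 (T t97 (L l59 (L l390 (L l392 (T t1141 N)))))))))))) (K a22 (M a192 (F (T t1333 (L l66 (L l235 (L l390 (T t1516 (L l220 (L l277 (L l392 (T t1636 N))))))))))) (K a42 (M a106 (F (T t1512 (L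 l220 (T t565 (L l22 (L l218 (L l220 (L l277 (L l392 (T t1637 (L l22 (L l235 (L l277 (L l392 (T t1638 N)))))))))))))))) (K a62 (M a16 (F (L l392 (L l404 (T t1140 (L l66 (L l390 (L l404 (T t97 (L l66 (L l390 (L l392 (T t1141 N))))))))))))) (K a3 (M a192 (F (L l477 (T t79 (L l235 (L l307 (L l390 (T t1516 (L l220 (L l277 (L l392 (T t1636 N)))))))))))) N)))))))))))))))))))⟩
def e0_63__199_167 : Ent 4 := ⟨[a0, a63], [a199, a171], (M a48 (F (T t1 (T t2 (T t3 (T t0 (K a16 (M a60 (F (T t64 (L l14 (L l18 (L l391 (L l475 (T t67 (T t65 N))))))))) (K a32 (M a60 (F (T t64 (L l391 (L l475 (T t67 (L l24 (L l28 (T t65 N))))))))) (K a21 (M a192 (F (T t837 (L l47 (L l235 (L l347 (T t20 (L l47 (L l347 (T t29 N)))))))))) (K a37 (M a192 (F (T t19 (L l47 (L l235 (T t20 (L l475 (T t21 N)))))))) (K a53 (M a192 (F (T t19 (L l475 (L l491 (T t21 (T t31 N))))))) (K a26 (M a192 (F (T t837 (L l235 (T t20 (L l475 (T t21 N))))))) (K a42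 (M a192 (F (T t19 (L l235 (T t20 (L l28 (T t29 N))))))) (K a58 (M a192 (F (T t19 (L l475 (T t21 (L l54 (L l498 (T t31 N)))))))) (K a15 (M a192 (F (T t1681 (L l483 (T t27 (L l235 (L l325 (T t20 N)))))))) N)))))))))))))))⟩
def e0_63__199_168 : Ent 4 := ⟨[a0, a63], [a199, a172], (M a85 (F (T t88 (T t52 (T t89 (T t90 (K a64 (M a240 (F (T t933 (L l176 (T t387 N))))) (K a192 (M a16 (F (T t112 (L l314 (L l494 (T t96 (L l296 (T t98 N)))))))) (K a21 (M a48 (F (T t99 (T t50 (L l47 (T t100 N)))))) (K a149 (M a16 (F (T t112 (L l235 (L l314 (T t173 (L l170 (T t102 N)))))))) (K a213 (Fr a170 a255 l476 (Fr a42 a21 l68 (Fr a106 a234 l390 (Fr a192 a149 l519 (V t581))))) (K a42 (M a48 (F (T t364 (L l390 (T t50 (L l28 (T t100 N))))))) (K a106 (M a48 (F (T t99 (T t1 (L l390 (T t50 N)))))) (K a170 (M a16 (F (L l404 (T t113 (L l390 (T t98 (L l390 (L l404 (T t97 (L l229 (L l235 (L l404 (T t174 N))))))))))))) (K a255 (M a16 (F (T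 t112 (L l289 (T t113 (L l289 (L l296 (T t98 N)))))))) N)))))))))))))))⟩
def e0_63__199_169 : Ent 4 := ⟨[a0, a63], [a199, a173], (M a149 (F (T t5 (T t175 (T t176 (T t177 (K a192 (M a53 (F (T t178 (L l229 (L l236 (T t179 (L l229 (L l236 (L l296 (L l314 (T t180 N))))))))))) (K a21 (M a48 (F (T t1267 (L l18 (L l229 (T t14 (T t13 N))))))) (K a85 (M a16 (F (T t504 (L l144 (T t190 (L l94 (T t278 N))))))) (K a213 (Fr a106 a192 l519 (Fr a42 a21 l68 (Fr a170 a234 l390 (Fr a255 a85 l476 (V t582))))) (K a42 (M a48 (F (T t11 (L l390 (T t13 (L l54 (L l229 (T t14 N)))))))) (K a106 (M a48 (F (T t48 (L l229 (L l498 (T t14 (L l229 (L l390 (L l498 (T t6 (L l390 (T t26 N)))))))))))) (K a170 (M a48 (F (T t11 (L l462 (L l471 (T t1 (L l390 (T t13 N)))))))) (K a191 (M a48 (F (T t13 (L l229 (T t6 N))))) (K a255 (M a16 (F (T t112 (L l266 (T t190 (L l289 (L l296 (T t191 N)))))))) N)))))))))))))))⟩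
def e0_63__199_170 : Ent 4 := ⟨[a0, a63], [a199, a174], (M a48 (F (T t1 (T t2 (T t3 (T t0 (K a16 (M a60 (F (T t43 (T t64 (T t65 N))))) (K a32 (M a60 (F (T t64 (T t67 (L l24 (L l28 (T t65 N))))))) (K a21 (M a192 (F (T t837 (L l47 (L l235 (L l347 (T t20 (L l47 (L l347 (T t29 N)))))))))) (K a37 (M a192 (F (T t19 (L l47 (L l235 (T t20 (L l470 (T t21 N)))))))) (K a53 (M a192 (F (T t19 (L l470 (L l491 (T t21 (T t31 N))))))) (K a26 (M a192 (F (T t837 (L l235 (T t20 (L l470 (T t21 N))))))) (K a42 (M a192 (F (T t19 (L l235 (T t20 (L l28 (T t29 N))))))) (K a58 (M a192 (F (T t19 (L l470 (T t21 (L l54 (L l498 (T t31 N)))))))) (K a15 (M a192 (F (T t1681 (L l483 (T t27 (L l235 (L l325 (T t20 N)))))))) N)))))))))))))))⟩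
def e0_63__199_171 : Ent 4 := ⟨[a0, a63], [a199, a175], (M a60 (F (T t67 (T t43 (T t68 (T t69 (K a20 (M a48 (F (T t64 (L l11 (L l469 (T t1 (L l11 (L l313 (T t235 N))))))))) (K a40 (M a48 (F (T t64 (L l469 (T t1 (L l52 (L l313 (T t235 N)))))))) (K a21 (M a192 (F (T t72 (L l235 (L l347 (T t73 (L l277 (L l347 (T t74 N))))))))) (K a41 (M a192 (F (T t77 (L l65 (L l469 (T t35 (L l235 (T t73 N)))))))) (K a61 (M a192 (F (T t72 (L l65 (L l469 (L l515 (T t35 (L l493 (T t80 N))))))))) (K a22 (M a192 (F (T t72 (L l469 (T t21 (L l235 (T t73 N))))))) (K a42 (M a192 (F (T t79 (L l235 (T t73 (L l22 (L l277 (T t74 N)))))))) (K a62 (M a192 (F (T t72 (L l469 (T t35 (L l66 (L l493 (L l516 (T t80 N))))))))) (K a3 (M a192 (F (T t1343 (L l477 (T t79 (L l469 (L l475 (T t35 N)))))))) N)))))))))))))))⟩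
def e0_63__199_172 : Ent 4 := ⟨[a0, a63], [a199, a176], (M a85 (F (T t88 (T t52 (T t89 (L l190 (T t90 (K a64 (M a16 (F (T t97 (L l84 (L l314 (L l494 (T t96 (L l116 (T t98 N))))))))) (K a192 (M a16 (F (T t504 (L l314 (L l494 (T t96 (L l296 (T t98 N)))))))) (K a21 (M a240 (F (T t1552 (L l190 (T t933 (L l190 (L l192 (T t1385 N)))))))) (K a149 (M a16 (F (T t112 (L l235 (L l314 (T t173 (L l170 (L l227 (T t102 N))))))))) (K a213 (Fr a170 a255 l476 (Fr a42 a21 l68 (Fr a106 a234 l390 (Fr a192 a149 l519 (V t581))))) (K a42 (M a240 (F (T t1552 (L l54 (L l190 (L l390 (T t933 (L l190 (L l192 (T t1385 N)))))))))) (K a106 (M a48 (F (T t1 (L l104 (L l314 (L l494 (T t509 (L l190 (L l390 (L l498 (T t2029 N))))))))))) (K a170 (M a16 (F (L l404 (T t113 (L l390 (T t98 (L l390 (L l404 (T t97 (L l229 (L l235 (L l404 (T t174 N))))))))))))) (K a255 (M a16 (F (T t112 (L l289 (T t113 (L l289 (L l296 (T t98 N)))))))) N))))))))))))))))⟩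
def e0_63__199_173 : Ent 4 := ⟨[a0, a63], [a199, a177], (M a85 (F (T t88 (T t52 (T t89 (T t90 (K a64 (M a12 (F (T t124 (L l277 (T t572 N))))) (K a192 (M a16 (F (T t112 (L l314 (L l494 (T t96 (L l296 (T t98 N)))))))) (K a21 (M a48 (F (T t99 (L l182 (L l417 (T t50 (L l47 (T t100 N)))))))) (K a149 (M a16 (F (T t112 (L l235 (L l314 (T t173 (L l170 (T t102 N)))))))) (K a213 (Fr a170 a255 l476 (Fr a42 a21 l68 (Fr a106 a234 l390 (Fr a192 a149 l519 (V t581))))) (K a42 (M a48 (F (T t364 (L l182 (L l390 (L l417 (T t50 (L l28 (T t100 N))))))))) (K a106 (M a48 (F (T t1 (L l104 (L l314 (L l494 (T t509 (L l182 (L l390 (L l417 (T t50 N))))))))))) (K a170 (M a16 (F (L l404 (T t113 (L l390 (T t98 (L l390 (L l404 (T t97 (L l229 (L l235 (L l404 (T t174 N))))))))))))) (K a255 (M a16 (F (T t112 (L l289 (T t113 (L l289 (L l296 (T t98 N)))))))) N)))))))))))))))⟩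
def e0_63__199_174 : Ent 4 := ⟨[a0, a63], [a199, a178], (M a85 (F (T t88 (T t52 (T t89 (T t90 (K a64 (M a16 (F (T t97 (L l84 (L l314 (L l494 (T t96 (L l116 (T t98 N))))))))) (K a192 (M a16 (F (T t112 (L l314 (L l494 (T t96 (L l296 (T t98 N)))))))) (K a21 (M a48 (F (L l188 (T t99 (L l182 (T t50 (L l47 (T t100 N)))))))) (K a149 (M a16 (F (T t112 (L l235 (L l314 (T t173 (L l170 (L l224 (T t102 N))))))))) (K a213 (Fr a170 a255 l476 (Fr a42 a21 l68 (Fr a106 a234 l390 (Fr a192 a149 l519 (V t581))))) (K a42 (M a48 (F (T t364 (L l182 (L l390 (T t50 (L l28 (T t100 N)))))))) (K a106 (M a48 (F (T t364 (T t1 (L l182 (L l390 (T t50 N))))))) (K a170 (M a16 (F (L l404 (T t113 (L l390 (T t98 (L l390 (L l404 (T t97 (L l229 (L l235 (L l404 (T t174 N))))))))))))) (K a255 (M a16 (F (T t112 (L l289 (T t113 (L l289 (L l296 (T t98 N)))))))) N)))))))))))))))⟩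
def e0_63__199_175 : Ent 4 := ⟨[a0, a63], [a199, a179], (M a85 (F (T t88 (T t52 (T t89 (L l189 (T t90 (K a64 (M a16 (F (T t97 (L l84 (L l314 (L l494 (T t96 (L l116 (T t98 N))))))))) (K a192 (M a16 (F (T t112 (L l314 (L l494 (T t96 (L l296 (T t98 N)))))))) (K a21 (M a48 (F (T t99 (L l182 (T t50 (L l47 (T t100 N))))))) (K a149 (M a16 (F (T t112 (L l235 (L l314 (T t173 (L l170 (T t102 N)))))))) (K a213 (Fr a170 a255 l476 (Fr a42 a21 l68 (Fr a106 a234 l390 (Fr a192 a149 l519 (V t581))))) (K a42 (M a48 (F (T t364 (L l182 (L l390 (T t50 (L l28 (T t100 N)))))))) (K a106 (M a48 (F (T t99 (T t1 (L l182 (L l390 (T t50 N))))))) (K a170 (M a16 (F (L l404 (T t113 (L l390 (T t98 (L l390 (L l404 (T t97 (L l229 (L l235 (L l404 (T t174 N))))))))))))) (K a255 (M a16 (F (T t112 (L l289 (T t113 (L l289 (L l296 (T t98 N)))))))) N))))))))))))))))⟩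
def e0_63__199_176 : Ent 4 := ⟨[a0, a63], [a199, a180], (M a85 (F (T t88 (T t52 (T t89 (T t90 (K a64 (M a16 (F (T t97 (L l84 (L l314 (L l494 (T t96 (L l116 (T t98 N))))))))) (K a192 (M a16 (F (T t112 (L l314 (L l494 (T t96 (L l296 (T t98 N)))))))) (K a21 (M a48 (F (T t99 (L l186 (L l442 (T t50 (L l47 (T t100 N)))))))) (K a149 (M a16 (F (T t112 (L l235 (L l314 (T t173 (L l170 (T t102 N)))))))) (K a213 (Fr a170 a255 l476 (Fr a42 a21 l68 (Fr a106 a234 l390 (Fr a192 a149 l519 (V t581))))) (K a42 (M a48 (F (T t364 (L l186 (L l390 (L l442 (T t50 (L l28 (T t100 N))))))))) (K a106 (M a48 (F (T t1 (L l104 (L l314 (L l494 (T t509 (L l186 (L l390 (L l442 (T t50 N))))))))))) (K a170 (M a16 (F (L l404 (T t113 (L l390 (T t98 (L l390 (L l404 (T t97 (L l229 (L l235 (L l404 (T t174 N))))))))))))) (K a255 (M a16 (F (T t112 (L l289 (T t113 (L l289 (L l296 (T t98 N)))))))) N)))))))))))))))⟩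
def e0_63__199_177 : Ent 4 := ⟨[a0, a63], [a199, a181], (M a85 (F (T t88 (T t52 (T t89 (L l190 (T t90 (K a64 (M a12 (F (T t124 (L l277 (T t572 N))))) (K a192 (M a16 (F (T t112 (L l314 (L l494 (T t96 (L l296 (T t98 N)))))))) (K a21 (M a12 (F (T t1370 (L l15 (L l277 (T t574 (T t124 N))))))) (K a149 (M a4 (L l199 (F (T t129 (L l277 (T t1371 (L l202 (T t1372 (K a133 (M a165 (F (T t129 (L l220 (L l311 (L l339 (T t5605 N))))))) (K a165 (M a133 (F (T t129 (L l180 (L l220 (L l277 (T t1509 (L l173 (L l202 (T t1372 N)))))))))) N)))))))))) (K a213 (Fr a170 a255 l476 (Fr a42 a21 l68 (Fr a106 a234 l390 (Fr a192 a149 l519 (V t581))))) (K a42 (M a12 (F (L l314 (T t1373 (L l390 (T t124 (L l56 (L l277 (T t574 N))))))))) (K a106 (M a48 (F (L l190 (T t99 (L l419 (T t1 (L l229 (L l390 (L l419 (L l498 (T t51 N))))))))))) (K a170 (M a16 (F (L l390 (L l404 (T t97 (L l390 (T t98 (L l404 (L l419 (T t113 (L l229 (L l235 (L l404 (T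 t174 N)))))))))))))) (K a255 (M a16 (F (T t112 (L l289 (L l419 (T t113 (L l289 (L l296 (T t98 N))))))))) N))))))))))))))))⟩
def e0_63__199_178 : Ent 4 := ⟨[a0, a63], [a199, a182], (M a149 (F (T t5 (T t175 (T t176 (T t177 (K a192 (M a53 (F (T t178 (L l229 (L l236 (T t179 (L l183 (L l229 (L l236 (L l296 (L l314 (T t180 N)))))))))))) (K a21 (M a48 (F (T t1267 (L l18 (L l229 (T t14 (T t13 N))))))) (K a85 (M a16 (F (T t97 (L l144 (T t190 (L l94 (T t278 N))))))) (K a213 (Fr a106 a192 l519 (Fr a42 a21 l68 (Fr a170 a234 l390 (Fr a255 a85 l476 (V t582))))) (K a42 (M a48 (F (T t11 (L l390 (T t13 (L l54 (L l229 (T t14 N)))))))) (K a106 (M a48 (F (T t1 (L l229 (L l498 (T t14 (L l229 (L l390 (L l422 (L l498 (T t6 (L l390 (T t26 N))))))))))))) (K a170 (M a48 (F (T t3 (T t11 (L l390 (T t13 N)))))) (K a191 (M a240 (F (T t962 (L l444 (T t963 N))))) (K a255 (M a16 (F (T t112 (L l266 (T t190 (L l289 (L l296 (T t191 N))))))))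 N)))))))))))))))⟩
def e0_63__199_179 : Ent 4 := ⟨[a0, a63], [a199, a183], (M a48 (F (T t1 (T t2 (T t3 (T t0 (K a16 (M a60 (F (T t43 (T t64 (T t65 N))))) (K a32 (M a60 (F (T t64 (T t67 (L l24 (L l28 (T t65 N))))))) (K a21 (M a192 (F (T t837 (L l47 (L l202 (L l235 (L l347 (T t20 (L l47 (L l202 (L l347 (T t29 N)))))))))))) (K a37 (M a192 (F (T t19 (L l47 (L l202 (L l235 (T t20 (L l202 (T t21 N))))))))) (K a53 (M a192 (F (T t19 (L l202 (L l491 (T t21 (T t31 N))))))) (K a26 (M a192 (F (T t27 (L l202 (L l235 (T t20 (L l202 (T t21 N)))))))) (K a42 (M a192 (F (T t19 (L l202 (L l235 (T t20 (L l28 (L l202 (T t29 N))))))))) (K a58 (M a192 (F (T t19 (L l202 (T t21 (L l54 (L l498 (T t31 N)))))))) (K a15 (M a192 (F (T t1681 (L l483 (T t27 (L l202 (L l235 (L l325 (T t20 N))))))))) N)))))))))))))))⟩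
def e0_63__199_180 : Ent 4 := ⟨[a0, a63], [a199, a184], (M a85 (F (T t88 (T t52 (T t89 (T t90 (K a64 (M a204 (F (T t1575 (L l204 (L l229 (T t1576 N)))))) (K a192 (M a16 (F (T t112 (L l314 (L l494 (T t96 (L l296 (T t98 N)))))))) (K a21 (M a48 (F (L l184 (T t99 (L l186 (T t50 (L l47 (T t100 N)))))))) (K a149 (M a16 (F (T t112 (L l235 (L l314 (T t173 (L l170 (L l209 (T t102 N))))))))) (K a213 (Fr a170 a255 l476 (Fr a42 a21 l68 (Fr a106 a234 l390 (Fr a192 a149 l519 (V t581))))) (K a42 (M a48 (F (T t364 (L l186 (L l390 (T t50 (L l28 (T t100 N)))))))) (K a106 (M a48 (F (T t364 (T t1 (L l186 (L l390 (T t50 N))))))) (K a170 (M a16 (F (L l404 (T t113 (L l390 (T t98 (L l390 (L l404 (T t97 (L l229 (L l235 (L l404 (T t174 N))))))))))))) (K a255 (M a16 (F (T t112 (L l289 (T t113 (L l289 (L l296 (T t98 N)))))))) N)))))))))))))))⟩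
def e0_63__199_181 : Ent 4 := ⟨[a0, a63], [a199, a185], (M a85 (F (T t88 (T t52 (T t89 (T t90 (K a64 (M a12 (F (T t124 (L l277 (T t572 N))))) (K a192 (M a16 (F (T t112 (L l314 (L l494 (T t96 (L l296 (T t98 N)))))))) (K a21 (M a48 (F (L l184 (T t99 (L l437 (T t50 (L l47 (T t100 N)))))))) (K a149 (M a16 (F (T t112 (L l235 (L l314 (T t173 (L l170 (T t102 N)))))))) (K a213 (Fr a170 a255 l476 (Fr a42 a21 l68 (Fr a106 a234 l390 (Fr a192 a149 l519 (V t581))))) (K a42 (M a48 (F (T t365 (L l390 (L l437 (T t50 (L l28 (T t100 N)))))))) (K a106 (M a48 (F (T t1 (L l104 (L l314 (L l494 (T t509 (L l390 (L l437 (T t50 N)))))))))) (K a170 (M a16 (F (L l404 (T t113 (L l390 (T t98 (L l390 (L l404 (T t97 (L l229 (L l235 (L l404 (T t174 N))))))))))))) (K a255 (M a16 (F (T t112 (L l289 (T t113 (L l289 (L l296 (T t98 N)))))))) N)))))))))))))))⟩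
def e0_63__199_182 : Ent 4 := ⟨[a0, a63], [a199, a186], (M a60 (F (T t67 (T t43 (T t68 (T t69 (K a20 (M a48 (F (T t0 (L l438 (T t64 (L l11 (L l313 (L l428 (T t235 N))))))))) (K a40 (M a48 (F (T t1 (L l438 (T t64 (L l52 (L l313 (L l428 (T t235 N))))))))) (K a21 (M a192 (F (T t72 (L l235 (L l347 (T t73 (L l277 (L l347 (T t74 N))))))))) (K a41 (M a192 (F (T t77 (L l65 (L l440 (T t35 (L l235 (T t73 N)))))))) (K a61 (M a192 (F (T t72 (L l65 (L l440 (L l515 (T t35 (L l493 (T t80 N))))))))) (K a22 (M a192 (F (T t72 (L l440 (T t21 (L l235 (T t73 N))))))) (K a42 (M a192 (F (T t79 (L l235 (T t73 (L l22 (L l277 (T t74 N)))))))) (K a62 (M a192 (F (T t72 (L l440 (T t35 (L l66 (L l493 (L l516 (T t80 N))))))))) (K a3 (M a192 (F (T t1343 (L l477 (T t79 (L l440 (L l475 (T t35 N)))))))) N)))))))))))))))⟩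
def e0_63__199_183 : Ent 4 := ⟨[a0, a63], [a199, a187], (M a85 (F (T t88 (L l439 (T t52 (T t89 (L l189 (L l208 (T t90 (K a64 (M a12 (F (L l208 (T t124 (L l277 (T t572 N)))))) (K a192 (M a16 (F (T t112 (L l314 (L l494 (T t96 (L l296 (T t98 N)))))))) (K a21 (M a48 (F (L l47 (T t100 (L l208 (T t50 (L l314 (L l494 (T t509 N))))))))) (K a149 (M a16 (F (T t112 (L l235 (L l314 (T t173 (L l170 (T t102 N)))))))) (K a213 (Fr a170 a255 l476 (Fr a42 a21 l68 (Fr a106 a234 l390 (Fr a192 a149 l519 (V t581))))) (K a42 (M a48 (F (L l439 (T t364 (L l208 (L l390 (T t50 (L l28 (T t100 N))))))))) (K a106 (M a48 (F (T t1 (L l104 (L l314 (L l494 (T t509 (L l208 (L l390 (T t50 N)))))))))) (K a170 (M a153 (F (L l390 (T t4248 (L l402 (L l493 (T t1989 (L l390 (T t1988 (L l314 (L l390 (L l402 (L l427 (T t1991 (L l229 (L l402 (L l427 (T t1992 N)))))))))))))))))) (K a255 (M a51 (F (L l470 (T t589 (L l290 (L l493 (T t945 (L l290 (L l296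 (T t1952 (L l229 (L l296 (L l427 (T t4343 N)))))))))))))) N))))))))))))))))))⟩
def e0_63__199_184 : Ent 4 := ⟨[a0, a63], [a199, a188], (M a85 (F (T t88 (T t52 (T t89 (L l185 (T t90 (K a64 (M a16 (F (T t97 (L l84 (L l314 (L l494 (T t96 (L l116 (T t98 N))))))))) (K a192 (M a16 (F (T t112 (L l314 (L l494 (T t96 (L l296 (T t98 N)))))))) (K a21 (M a48 (F (T t99 (L l186 (T t50 (L l47 (T t100 N))))))) (K a149 (M a16 (F (T t112 (L l235 (L l314 (T t173 (L l170 (T t102 N)))))))) (K a213 (Fr a170 a255 l476 (Fr a42 a21 l68 (Fr a106 a234 l390 (Fr a192 a149 l519 (V t581))))) (K a42 (M a48 (F (T t364 (L l186 (L l390 (T t50 (L l28 (T t100 N)))))))) (K a106 (M a48 (F (T t99 (T t1 (L l186 (L l390 (T t50 N))))))) (K a170 (M a16 (F (L l404 (T t113 (L l390 (T t98 (L l390 (L l404 (T t97 (L l229 (L l235 (L l404 (T t174 N))))))))))))) (K a255 (M a16 (F (T t112 (L l289 (T t113 (L l289 (L l296 (T t98 N)))))))) N))))))))))))))))⟩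
def e0_63__199_185 : Ent 4 := ⟨[a0, a63], [a199, a189], (M a48 (F (T t1 (T t2 (T t3 (T t0 (K a16 (M a60 (F (T t43 (L l431 (T t64 (T t65 N)))))) (K a32 (M a60 (F (T t70 (T t67 (L l24 (L l28 (T t65 N))))))) (K a21 (M a192 (F (T t837 (L l47 (L l217 (L l235 (L l347 (T t20 (L l47 (L l217 (L l347 (T t29 N)))))))))))) (K a37 (M a192 (F (T t19 (L l47 (L l217 (L l235 (T t20 (L l217 (T t21 N))))))))) (K a53 (M a192 (F (T t19 (L l217 (L l491 (T t21 (T t31 N))))))) (K a26 (M a192 (F (T t27 (L l217 (L l235 (T t20 (L l217 (T t21 N)))))))) (K a42 (M a192 (F (T t19 (L l217 (L l235 (T t20 (L l28 (L l217 (T t29 N))))))))) (K a58 (M a192 (F (T t19 (L l217 (T t21 (L l54 (L l498 (T t31 N)))))))) (K a15 (M a192 (F (T t1681 (L l483 (T t27 (L l217 (L l235 (L l325 (T t20 N))))))))) N)))))))))))))))⟩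
def e0_63__199_186 : Ent 4 := ⟨[a0, a63], [a199, a190], (M a48 (F (T t1 (T t2 (T t3 (T t0 (K a16 (M a60 (F (T t43 (T t64 (T t65 N))))) (K a32 (M a60 (F (T t64 (T t67 (L l24 (L l28 (T t65 N))))))) (K a21 (M a192 (F (T t837 (L l47 (L l235 (L l347 (T t20 (L l47 (L l347 (T t29 N)))))))))) (K a37 (M a192 (F (T t19 (L l47 (L l235 (T t20 (L l434 (T t21 N)))))))) (K a53 (M a192 (F (T t19 (L l434 (L l491 (T t21 (T t31 N))))))) (K a26 (M a192 (F (T t837 (L l235 (T t20 (L l434 (T t21 N))))))) (K a42 (M a192 (F (T t19 (L l235 (T t20 (L l28 (T t29 N))))))) (K a58 (M a192 (F (T t19 (L l434 (T t21 (L l54 (L l498 (T t31 N)))))))) (K a15 (M a192 (F (T t1681 (L l483 (T t27 (L l235 (L l325 (T t20 N)))))))) N)))))))))))))))⟩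
def e0_63__199_187 : Ent 4 := ⟨[a0, a63], [a199, a191], (M a48 (F (T t1 (T t2 (T t3 (T t0 (K a16 (M a60 (F (T t43 (T t64 (T t65 N))))) (K a32 (M a60 (F (T t64 (T t67 (L l24 (L l28 (T t65 N))))))) (K a21 (M a192 (F (T t28 (L l229 (L l235 (T t206 (L l47 (L l220 (L l347 (T t29 N)))))))))) (K a37 (M a192 (F (T t19 (L l229 (L l235 (T t206 (L l47 (L l220 (T t35 N))))))))) (K a53 (M a192 (F (T t19 (L l47 (L l220 (L l491 (T t35 (L l213 (T t31 N))))))))) (K a26 (M a192 (F (T t28 (L l54 (L l229 (L l235 (T t206 (L l18 (L l220 (T t35 N)))))))))) (K a42 (M a192 (F (T t19 (L l54 (L l229 (L l235 (L l390 (T t206 (L l28 (L l220 (T t29 N))))))))))) (K a58 (M a192 (F (T t19 (L l220 (T t35 (L l54 (L l213 (L l498 (T t31 N))))))))) (K a15 (M a149 (F (T t1274 (L l229 (T t6 N))))) N)))))))))))))))⟩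
def e0_63__199_188 : Ent 4 := ⟨[a0, a63], [a199, a192], (M a48 (F (T t48 (L l339 (T t1 (L l339 (T t2 (L l339 (T t3 (L l339 (T t0 (K a16 (M a60 (F (T t138 (L l14 (L l18 (L l309 (T t67 (T t65 N)))))))) (K a32 (M a60 (F (T t116 (L l489 (T t64 (L l24 (L l28 (T t65 N)))))))) (K a21 (M a255 (F (T t1259 (L l268 (T t1160 (L l47 (L l236 (T t548 N)))))))) (K a37 (M a52 (F (L l71 (T t491 (L l314 (L l334 (T t82 (L l21 (L l28 (T t84 N)))))))))) (K a53 (M a12 (F (T t145 (L l47 (L l489 (T t122 (L l47 (T t146 N)))))))) (K a26 (M a56 (F (L l494 (T t556 (L l334 (L l494 (T t133 (L l12 (L l18 (T t135 N)))))))))) (K a42 (M a255 (F (T t1260 (L l54 (L l268 (T t1160 (L l28 (L l236 (L l390 (T t548 N)))))))))) (K a58 (M a12 (F (T t145 (L l489 (T t122 (T t146 N)))))) (K a15 (M a4 (L l339 (F (T t129 (L l63 (L l494 (L l514 (T t528 (T t520 (K a133 (M a74 (F (T t518 (L l73 (L l489 (L l493 (T t519 (T t520 N)))))))) (K a74 (M a133 (F (T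 t518 (L l73 (L l489 (L l493 (T t519 (T t520 N)))))))) N))))))))))) N))))))))))))))))))))⟩
def e0_63__199_189 : Ent 4 := ⟨[a0, a63], [a199, a193], (M a85 (F (T t52 (L l228 (L l293 (T t88 (L l293 (T t89 (L l228 (T t90 (K a64 (M a60 (F (T t114 (L l277 (L l293 (T t115 N)))))) (K a192 (M a195 (F (T t4855 (L l277 (L l309 (L l493 (T t2035 (L l293 (L l296 (T t894 (L l305 (L l494 (T t2036 N))))))))))))) (K a21 (M a48 (F (T t99 (T t50 (L l47 (T t100 N)))))) (K a149 (M a61 (F (L l305 (T t505 (L l220 (L l293 (T t506 (L l217 (T t2037 N))))))))) (K a213 (Fr a170 a255 l476 (Fr a42 a21 l68 (Fr a106 a234 l390 (Fr a192 a149 l519 (V t581))))) (K a42 (M a48 (F (T t364 (L l390 (T t50 (L l28 (T t100 N))))))) (K a106 (M a48 (F (T t1 (L l104 (L l314 (L l494 (T t509 (L l390 (T t50 N))))))))) (K a170 (M a16 (F (L l404 (T t113 (L l293 (L l390 (T t98 (L l390 (L l404 (T t97 (L l229 (L l233 (L l235 (L l404 (T t174 N))))))))))))))) (K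 a255 (M a16 (F (T t112 (L l289 (T t113 (L l289 (L l293 (L l296 (T t98 N))))))))) N)))))))))))))))))))⟩
def e0_63__199_190 : Ent 4 := ⟨[a0, a63], [a199, a194], (M a48 (F (T t1 (T t2 (T t3 (T t0 (K a16 (M a60 (F (T t43 (L l486 (T t64 (T t65 N)))))) (K a32 (M a60 (F (T t67 (L l486 (T t64 (L l24 (L l28 (T t65 N)))))))) (K a21 (M a192 (F (T t837 (L l47 (L l234 (L l235 (L l347 (T t20 (L l47 (L l234 (L l347 (T t29 N)))))))))))) (K a37 (M a192 (F (T t19 (L l47 (L l234 (L l235 (T t20 (T t21 N)))))))) (K a53 (M a192 (F (T t19 (L l491 (T t21 (L l516 (T t31 N))))))) (K a26 (M a192 (F (T t837 (L l234 (L l235 (T t20 (T t21 N))))))) (K a42 (M a192 (F (T t19 (L l234 (L l235 (T t20 (L l28 (L l234 (T t29 N))))))))) (K a58 (M a192 (F (T t19 (T t21 (L l54 (L l498 (L l516 (T t31 N)))))))) (K a15 (M a192 (F (T t47 (L l483 (T t27 (L l234 (L l235 (L l325 (T t20 N))))))))) N)))))))))))))))⟩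
def e0_63__199_191 : Ent 4 := ⟨[a0, a63], [a199, a195], (M a60 (L l235 (F (T t116 (L l307 (T t67 (L l307 (T t43 (L l307 (T t68 (L l307 (T t69 (K a20 (M a48 (L l235 (F (T t138 (L l11 (L l337 (T t1 (L l11 (L l313 (T t235 (K a203 (M a207 (F (T t132 (L l237 (T t5219 N))))) (K a207 (M a203 (F (T t138 (L l325 (L l337 (T t2 (L l11 (L l313 (T t235 N))))))))) N)))))))))))) (K a40 (M a48 (L l235 (F (T t48 (L l487 (T t64 (L l52 (L l313 (T t235 (K a203 (M a207 (F (T t5220 (L l295 (L l500 (T t5221 N)))))) (K a207 (M a203 (F (T t607 (L l52 (L l487 (L l493 (L l511 (T t451 (L l52 (L l313 (T t235 N))))))))))) N))))))))))) (K a21 (M a48 (L l235 (F (T t138 (L l338 (T t248 (L l11 (L l18 (L l47 (L l65 (L l338 (T t288 (L l50 (L l314 (L l338 (T t250 (K a203 (M a207 (F (T t5220 (L l338 (T t248 N))))) (K a207 (M a203 (F (T t1543 (L l487 (L l511 (T t70 (L l11 (L l18 (L l47 (L l65 (L l326 (L l338 (T t288 (L l50 (L l314 (L l326 (L l338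 (T t250 N)))))))))))))))))) N)))))))))))))))))) (K a41 (M a8 (L l235 (F (L l314 (T t454 (L l65 (L l314 (L l487 (T t414 (L l53 (L l65 (T t415 (K a203 (M a207 (F (T t5222 (L l57 (L l314 (L l488 (L l500 (T t413 N)))))))) (K a207 (M a203 (F (L l65 (L l314 (T t2407 (L l295 (L l512 (T t5223 N)))))))) N)))))))))))))) (K a61 (M a192 (L l235 (F (T t1800 (L l297 (T t79 (L l493 (T t80 (K a203 (M a207 (F (T t1334 (L l35 (L l230 (L l488 (T t2120 N))))))) (K a207 (M a203 (F (T t1681 (L l291 (L l297 (T t1333 (L l65 (L l515 (T t2549 N))))))))) N)))))))))) (K a22 (M a192 (L l235 (F (T t2658 (L l295 (T t21 (L l66 (L l493 (T t80 (K a203 (M a207 (F (T t2658 (L l230 (L l488 (T t2120 N)))))) (K a207 (M a203 (F (T t2647 (L l289 (L l295 (T t21 (L l11 (T t2549 N)))))))) N))))))))))) (K a42 (M a48 (L l235 (F (L l487 (T t64 (L l22 (L l314 (L l338 (T t247 (L l56 (L l338 (T t288 (L l22 (L l28 (L l54 (L l66 (L l314 (L l338 (T t250 (K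 a203 (M a207 (F (T t5224 (L l22 (L l28 (L l338 (T t248 N))))))) (K a207 (M a203 (F (L l494 (T t236 (L l326 (L l338 (T t880 (L l56 (L l326 (L l338 (T t288 (L l22 (L l28 (L l54 (L l66 (L l314 (L l326 (L l338 (T t250 N))))))))))))))))))) N))))))))))))))))))))) (K a62 (M a192 (L l235 (F (T t57 (L l297 (T t79 (L l66 (L l493 (L l516 (T t80 (K a203 (M a207 (F (T t1334 (L l230 (L l488 (L l516 (T t2120 N))))))) (K a207 (M a203 (F (T t47 (L l291 (L l297 (T t1333 (T t2549 N))))))) N)))))))))))) (K a3 (M a15 (L l235 (L l307 (F (T t1460 (L l45 (L l488 (T t716 (L l45 (T t1449 (K a67 (M a131 (L l235 (F (T t2354 (L l9 (L l338 (T t4510 (L l45 (T t1449 (K a203 (M a207 (F (T t5227 (L l83 (L l228 (L l309 (L l314 (T t5228 N)))))))) (K a207 (M a203 (L l331 (F (T t2354 (L l9 (L l326 (L l338 (T t4510 (L l45 (T t1449 (K a71 (M a139 (L l83 (L l313 (F (T t1460 (L l45 (L l488 (L l512 (T t716 (L l45 (T t1449 (K a7 (Fr a135 a143 l159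 (V t4510)) (K a135 (M a7 (L l83 (F (T t1254 (L l9 (L l326 (L l338 (T t1453 (L l45 (T t1449 (K a75 (M a79 (F (T t1071 (L l9 (L l326 (L l338 (T t1453 (L l45 (T t1449 N))))))))) (K a79 (Fr a75 a11 l319 (V t716)) N)))))))))))) (K a75 (M a79 (L l313 (F (T t1254 (L l9 (L l326 (L l338 (T t4510 (L l45 (T t1451 (K a7 (Fr a135 a143 l159 (V t5229)) (K a135 (M a7 (F (T t1071 (L l9 (L l326 (L l338 (T t1453 (L l45 (T t1449 N))))))))) N)))))))))))) (K a79 (Fr a75 a11 l319 (V t732)) N))))))))))))))) (K a139 (M a71 (F (T t2354 (L l9 (L l326 (L l338 (T t4510 (L l45 (T t1449 N))))))))) N)))))))))))) N))))))))))) (K a131 (M a67 (L l235 (F (T t2354 (L l9 (L l338 (T t4510 (L l45 (T t1449 (K a203 (M a207 (F (T t5227 (L l152 (L l228 (L l309 (L l314 (T t5228 N)))))))) (K a207 (M a203 (L l331 (F (T t2354 (L l9 (L l326 (L l338 (T t4510 (L l45 (T t1449 (K a71 (M a139 (L l313 (F (T t1460 (L l45 (L l488 (L l512 (T t723 (L l45 (T t1451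 (K a7 (M a135 (F (T t1254 (L l9 (L l326 (L l338 (T t4510 (L l45 (T t1451 N))))))))) (K a135 (M a7 (F (T t3775 (L l45 (L l488 (L l512 (T t732 (L l45 (T t1451 N))))))))) N)))))))))))) (K a139 (M a71 (L l159 (F (T t1460 (L l45 (L l488 (L l512 (T t716 (L l45 (T t1449 (K a135 (M a143 (F (T t1460 (L l45 (L l488 (L l512 (T t732 (L l45 (T t1451 N))))))))) (K a143 (M a135 (F (T t3775 (L l45 (L l488 (L l512 (T t731 (L l45 (T t1449 N))))))))) N)))))))))))) N)))))))))))) N))))))))))) (K a203 (M a207 (L l307 (F (T t5225 (L l45 (L l488 (T t716 (K a67 (M a131 (F (T t5227 (L l83 (L l228 (L l309 (L l314 (T t5228 N)))))))) (K a131 (M a67 (F (T t5227 (L l152 (L l228 (L l309 (L l314 (T t5228 N)))))))) N))))))))) (K a207 (M a203 (L l307 (L l331 (F (T t2354 (L l9 (L l326 (L l338 (T t4510 (L l45 (T t1449 (K a67 (M a131 (L l331 (F (T t2354 (L l9 (L l326 (L l338 (T t4510 (L l45 (T t1449 (K a71 (M a139 (L l83 (L l313 (F (T t1460 (L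 l45 (L l488 (L l512 (T t716 (L l45 (T t1449 (K a7 (Fr a135 a143 l159 (V t4510)) (K a135 (M a7 (L l83 (F (T t1254 (L l9 (L l326 (L l338 (T t1453 (L l45 (T t1449 (K a75 (M a79 (F (T t1071 (L l9 (L l326 (L l338 (T t1453 (L l45 (T t1449 N))))))))) (K a79 (Fr a75 a11 l319 (V t716)) N)))))))))))) (K a75 (M a79 (L l313 (F (T t1254 (L l9 (L l326 (L l338 (T t4510 (L l45 (T t1451 (K a7 (Fr a135 a143 l159 (V t5229)) (K a135 (M a7 (F (T t1071 (L l9 (L l326 (L l338 (T t1453 (L l45 (T t1449 N))))))))) N)))))))))))) (K a79 (Fr a75 a11 l319 (V t732)) N))))))))))))))) (K a139 (M a71 (F (T t2354 (L l9 (L l326 (L l338 (T t4510 (L l45 (T t1449 N))))))))) N)))))))))))) (K a131 (M a67 (L l331 (F (T t2354 (L l9 (L l326 (L l338 (T t4510 (L l45 (T t1449 (K a71 (M a139 (L l313 (F (T t1460 (L l45 (L l488 (L l512 (T t723 (L l45 (T t1451 (K a7 (M a135 (F (T t1254 (L l9 (L l326 (L l338 (T t4510 (L l45 (T t1451 N))))))))) (K a135 (M a7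 (F (T t3775 (L l45 (L l488 (L l512 (T t732 (L l45 (T t1451 N))))))))) N)))))))))))) (K a139 (M a71 (L l159 (F (T t1460 (L l45 (L l488 (L l512 (T t716 (L l45 (T t1449 (K a135 (M a143 (F (T t1460 (L l45 (L l488 (L l512 (T t732 (L l45 (T t1451 N))))))))) (K a143 (M a135 (F (T t3775 (L l45 (L l488 (L l512 (T t731 (L l45 (T t1449 N))))))))) N)))))))))))) N)))))))))))) (K a71 (M a139 (L l307 (L l313 (F (T t1254 (L l9 (L l326 (L l338 (T t4510 (L l45 (T t1449 (K a67 (M a131 (L l83 (L l313 (F (T t1460 (L l45 (L l488 (L l512 (T t716 (L l45 (T t1449 (K a7 (Fr a135 a143 l159 (V t4510)) (K a135 (M a7 (L l83 (F (T t1254 (L l9 (L l326 (L l338 (T t1453 (L l45 (T t1449 (K a75 (M a79 (F (T t1071 (L l9 (L l326 (L l338 (T t1453 (L l45 (T t1449 N))))))))) (K a79 (Fr a75 a11 l319 (V t716)) N)))))))))))) (K a75 (M a79 (L l313 (F (T t1254 (L l9 (L l326 (L l338 (T t4510 (L l45 (T t1451 (K a7 (Fr a135 a143 l159 (V t5229)) (K a135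 (M a7 (F (T t1071 (L l9 (L l326 (L l338 (T t1453 (L l45 (T t1449 N))))))))) N)))))))))))) (K a79 (Fr a75 a11 l319 (V t732)) N))))))))))))))) (K a131 (M a67 (L l313 (F (T t1460 (L l45 (L l488 (L l512 (T t723 (L l45 (T t1451 (K a7 (M a135 (F (T t1254 (L l9 (L l326 (L l338 (T t4510 (L l45 (T t1451 N))))))))) (K a135 (M a7 (F (T t3775 (L l45 (L l488 (L l512 (T t732 (L l45 (T t1451 N))))))))) N)))))))))))) (K a7 (M a135 (L l307 (F (T t1460 (L l45 (L l488 (L l512 (T t732 (L l1 (L l45 (T t1449 (K a67 (Fr a131 a143 l159 (V t4510)) (K a131 (M a67 (F (T t1254 (L l9 (L l326 (L l338 (T t4510 (L l45 (T t1451 N))))))))) N))))))))))))) (K a135 (M a7 (L l307 (F (T t2354 (L l9 (L l326 (L l338 (T t5229 (L l45 (T t1451 (K a67 (M a131 (L l83 (F (T t1254 (L l9 (L l326 (L l338 (T t1453 (L l45 (T t1449 (K a75 (M a79 (F (T t1071 (L l9 (L l326 (L l338 (T t1453 (L l45 (T t1449 N))))))))) (K a79 (Fr a75 a11 l319 (V t716)) N))))))))))))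 (K a131 (M a67 (F (T t3775 (L l45 (L l488 (L l512 (T t732 (L l45 (T t1451 N))))))))) N)))))))))))) N))))))))))))))) (K a139 (M a71 (L l307 (F (T t2354 (L l9 (L l326 (L l338 (T t4510 (L l45 (T t1449 (K a67 (M a131 (F (T t2354 (L l9 (L l326 (L l338 (T t4510 (L l45 (T t1449 N))))))))) (K a131 (M a67 (L l159 (F (T t1460 (L l45 (L l488 (L l512 (T t716 (L l45 (T t1449 (K a135 (M a143 (F (T t1460 (L l45 (L l488 (L l512 (T t732 (L l45 (T t1451 N))))))))) (K a143 (M a135 (F (T t3775 (L l45 (L l488 (L l512 (T t731 (L l45 (T t1449 N))))))))) N)))))))))))) N)))))))))))) N))))))))))))))) N)))))))))))))) (K a203 (M a207 (F (T t5222 (L l307 (T t67 (K a61 (M a64 (F (T t2980 (L l320 (T t5231 N))))) (K a62 (M a64 (F (T t749 (L l320 (L l504 (T t5232 N)))))) N))))))) (K a207 (M a203 (F (T t116 (L l307 (L l331 (T t67 (L l307 (L l331 (T t43 (L l307 (L l331 (T t68 (L l307 (L l331 (T t69 (K a20 (M a48 (F (T t138 (L l325 (L l337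 (T t2 (L l11 (L l313 (T t235 N))))))))) (K a40 (M a48 (F (T t607 (L l52 (L l487 (L l493 (L l511 (T t451 (L l52 (L l313 (T t235 N))))))))))) (K a21 (M a170 (F (L l347 (T t4824 (L l11 (L l50 (L l301 (L l314 (T t5233 N))))))))) (K a41 (M a8 (F (L l65 (L l314 (T t2407 (L l295 (L l512 (T t5223 N)))))))) (K a61 (M a8 (F (L l59 (L l65 (L l314 (T t2407 (L l295 (L l512 (T t5223 N))))))))) (K a22 (M a192 (F (T t2647 (L l289 (L l295 (T t21 (L l11 (T t2549 N)))))))) (K a42 (M a170 (F (L l66 (T t4824 (L l28 (L l301 (L l314 (T t5233 N)))))))) (K a62 (M a8 (F (L l314 (T t2407 (L l295 (L l512 (T t5223 N))))))) (K a3 (M a15 (L l307 (L l331 (F (T t2354 (L l9 (L l326 (L l338 (T t4510 (L l45 (T t1449 (K a67 (M a131 (L l331 (F (T t2354 (L l9 (L l326 (L l338 (T t4510 (L l45 (T t1449 (K a71 (M a139 (L l83 (L l313 (F (T t1460 (L l45 (L l488 (L l512 (T t716 (L l45 (T t1449 (K a7 (Fr a135 a143 l159 (V t4510)) (K a135 (M a7 (L l83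 (F (T t1254 (L l9 (L l326 (L l338 (T t1453 (L l45 (T t1449 (K a75 (M a79 (F (T t1071 (L l9 (L l326 (L l338 (T t1453 (L l45 (T t1449 N))))))))) (K a79 (Fr a75 a11 l319 (V t716)) N)))))))))))) (K a75 (M a79 (L l313 (F (T t1254 (L l9 (L l326 (L l338 (T t4510 (L l45 (T t1451 (K a7 (Fr a135 a143 l159 (V t5229)) (K a135 (M a7 (F (T t1071 (L l9 (L l326 (L l338 (T t1453 (L l45 (T t1449 N))))))))) N)))))))))))) (K a79 (Fr a75 a11 l319 (V t732)) N))))))))))))))) (K a139 (M a71 (F (T t2354 (L l9 (L l326 (L l338 (T t4510 (L l45 (T t1449 N))))))))) N)))))))))))) (K a131 (M a67 (L l331 (F (T t2354 (L l9 (L l326 (L l338 (T t4510 (L l45 (T t1449 (K a71 (M a139 (L l313 (F (T t1460 (L l45 (L l488 (L l512 (T t723 (L l45 (T t1451 (K a7 (M a135 (F (T t1254 (L l9 (L l326 (L l338 (T t4510 (L l45 (T t1451 N))))))))) (K a135 (M a7 (F (T t3775 (L l45 (L l488 (L l512 (T t732 (L l45 (T t1451 N))))))))) N)))))))))))) (K a139 (M a71 (L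 l159 (F (T t1460 (L l45 (L l488 (L l512 (T t716 (L l45 (T t1449 (K a135 (M a143 (F (T t1460 (L l45 (L l488 (L l512 (T t732 (L l45 (T t1451 N))))))))) (K a143 (M a135 (F (T t3775 (L l45 (L l488 (L l512 (T t731 (L l45 (T t1449 N))))))))) N)))))))))))) N)))))))))))) (K a71 (M a139 (L l307 (L l313 (F (T t1254 (L l9 (L l326 (L l338 (T t4510 (L l45 (T t1449 (K a67 (M a131 (L l83 (L l313 (F (T t1460 (L l45 (L l488 (L l512 (T t716 (L l45 (T t1449 (K a7 (Fr a135 a143 l159 (V t4510)) (K a135 (M a7 (L l83 (F (T t1254 (L l9 (L l326 (L l338 (T t1453 (L l45 (T t1449 (K a75 (M a79 (F (T t1071 (L l9 (L l326 (L l338 (T t1453 (L l45 (T t1449 N))))))))) (K a79 (Fr a75 a11 l319 (V t716)) N)))))))))))) (K a75 (M a79 (L l313 (F (T t1254 (L l9 (L l326 (L l338 (T t4510 (L l45 (T t1451 (K a7 (Fr a135 a143 l159 (V t5229)) (K a135 (M a7 (F (T t1071 (L l9 (L l326 (L l338 (T t1453 (L l45 (T t1449 N))))))))) N)))))))))))) (K a79 (Fr a75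 a11 l319 (V t732)) N))))))))))))))) (K a131 (M a67 (L l313 (F (T t1460 (L l45 (L l488 (L l512 (T t723 (L l45 (T t1451 (K a7 (M a135 (F (T t1254 (L l9 (L l326 (L l338 (T t4510 (L l45 (T t1451 N))))))))) (K a135 (M a7 (F (T t3775 (L l45 (L l488 (L l512 (T t732 (L l45 (T t1451 N))))))))) N)))))))))))) (K a7 (M a135 (L l307 (F (T t1460 (L l45 (L l488 (L l512 (T t732 (L l1 (L l45 (T t1449 (K a67 (Fr a131 a143 l159 (V t4510)) (K a131 (M a67 (F (T t1254 (L l9 (L l326 (L l338 (T t4510 (L l45 (T t1451 N))))))))) N))))))))))))) (K a135 (M a7 (L l307 (F (T t2354 (L l9 (L l326 (L l338 (T t5229 (L l45 (T t1451 (K a67 (M a131 (L l83 (F (T t1254 (L l9 (L l326 (L l338 (T t1453 (L l45 (T t1449 (K a75 (M a79 (F (T t1071 (L l9 (L l326 (L l338 (T t1453 (L l45 (T t1449 N))))))))) (K a79 (Fr a75 a11 l319 (V t716)) N)))))))))))) (K a131 (M a67 (F (T t3775 (L l45 (L l488 (L l512 (T t732 (L l45 (T t1451 N))))))))) N)))))))))))) N)))))))))))))))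 (K a139 (M a71 (L l307 (F (T t2354 (L l9 (L l326 (L l338 (T t4510 (L l45 (T t1449 (K a67 (M a131 (F (T t2354 (L l9 (L l326 (L l338 (T t4510 (L l45 (T t1449 N))))))))) (K a131 (M a67 (L l159 (F (T t1460 (L l45 (L l488 (L l512 (T t716 (L l45 (T t1449 (K a135 (M a143 (F (T t1460 (L l45 (L l488 (L l512 (T t732 (L l45 (T t1451 N))))))))) (K a143 (M a135 (F (T t3775 (L l45 (L l488 (L l512 (T t731 (L l45 (T t1449 N))))))))) N)))))))))))) N)))))))))))) N))))))))))))))) N)))))))))))))))))))))))) N)))))))))))))))))))))))⟩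
def e0_63__199_192 : Ent 4 := ⟨[a0, a63], [a199, a196], (M a48 (L l229 (F (T t1 (T t2 (T t3 (T t0 (K a16 (M a60 (L l229 (F (T t43 (T t64 (T t65 (K a197 (M a198 (F (T t70 (T t69 (L l14 (L l18 (L l491 (T t44 N)))))))) (K a198 (M a197 (F (T t70 (T t69 (L l14 (L l18 (T t44 N))))))) N)))))))) (K a32 (M a192 (L l229 (F (T t202 (L l235 (L l495 (T t20 (L l28 (L l376 (T t214 (K a197 (M a198 (F (T t202 (L l235 (L l491 (L l495 (T t225 (L l28 (L l311 (L l376 (T t214 N))))))))))) (K a198 (M a197 (F (T t4980 (L l234 (T t4987 N))))) N)))))))))))) (K a21 (M a192 (L l229 (F (T t27 (L l47 (L l235 (L l347 (L l495 (T t20 (L l47 (L l347 (L l495 (T t29 (K a197 (M a198 (F (T t28 (L l235 (L l347 (L l491 (L l495 (T t225 (L l347 (L l491 (L l495 (T t861 N)))))))))))) (K a198 (M a197 (F (T t4980 (T t28 N)))) N))))))))))))))) (K a37 (M a192 (L l229 (F (T t19 (L l47 (L l235 (L l495 (T t20 (L l495 (T t21 (K a197 (M a198 (F (T t837 (L l47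 (L l491 (L l495 (T t35 (L l235 (L l491 (L l495 (T t225 N))))))))))) (K a198 (M a197 (F (T t4980 (L l28 (T t28 N))))) N)))))))))))) (K a53 (M a149 (L l229 (F (T t177 (T t13 (L l278 (T t26 (K a197 (M a198 (F (T t177 (T t13 (L l275 (L l278 (T t26 N))))))) (K a198 (M a197 (F (T t4984 (L l232 (L l278 (T t5 (L l278 (T t26 N)))))))) N))))))))) (K a26 (M a192 (L l229 (F (T t837 (L l235 (L l495 (T t20 (L l495 (T t21 (K a197 (M a198 (F (T t28 (L l235 (L l491 (L l495 (T t225 (L l18 (L l491 (L l495 (T t35 N))))))))))) (K a198 (M a197 (F (T t4980 (L l234 (T t4987 N))))) N))))))))))) (K a42 (M a192 (L l229 (F (T t19 (L l235 (L l495 (T t20 (L l28 (L l495 (T t29 (K a197 (M a198 (F (T t837 (L l235 (L l491 (L l495 (T t225 (L l28 (L l491 (L l495 (T t861 N))))))))))) (K a198 (M a197 (F (L l390 (T t4980 (L l234 (T t4987 N)))))) N)))))))))))) (K a58 (M a192 (L l229 (F (T t19 (L l495 (T t21 (L l54 (L l278 (L l498 (T t31 (K a197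 (M a198 (F (T t28 (L l491 (L l495 (T t35 (L l491 (L l495 (T t525 N))))))))) (K a198 (M a197 (F (L l498 (T t4988 (T t28 N))))) N)))))))))))) (K a15 (M a192 (L l229 (F (T t54 (L l483 (T t27 (L l469 (L l495 (T t21 (K a197 (M a198 (F (T t1922 (L l469 (L l491 (L l495 (T t35 (L l235 (L l325 (L l491 (L l495 (T t225 N)))))))))))) (K a198 (M a197 (F (T t4980 (L l483 (T t28 N))))) N))))))))))) (K a197 (M a198 (F (T t3 (L l491 (T t1 (L l311 (T t2 (T t0 (K a16 (M a60 (F (T t70 (T t69 (L l14 (L l18 (L l491 (T t44 N)))))))) (K a32 (M a60 (F (T t70 (L l28 (T t69 (L l491 (T t44 N))))))) (K a21 (M a60 (F (T t248 (L l47 (L l65 (L l236 (L l491 (L l495 (T t5606 N))))))))) (K a37 (M a192 (F (T t837 (L l47 (L l491 (L l495 (T t35 (L l235 (L l491 (L l495 (T t225 N))))))))))) (K a53 (M a149 (F (T t177 (T t13 (L l275 (L l278 (T t26 N))))))) (K a26 (M a192 (F (T t28 (L l235 (L l491 (L l495 (T t225 (L l18 (L l491 (L l495 (T t35 N)))))))))))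 (K a42 (M a60 (F (T t880 (L l236 (L l491 (L l495 (T t5606 N))))))) (K a58 (M a192 (F (T t28 (L l491 (L l495 (T t35 (L l491 (L l495 (T t525 N))))))))) (K a15 (M a192 (F (T t1922 (L l469 (L l491 (L l495 (T t35 (L l235 (L l325 (L l491 (L l495 (T t225 N)))))))))))) N))))))))))))))))) (K a198 (M a197 (F (T t1 (L l495 (T t4995 (L l495 (T t4979 (K a53 (M a192 (F (T t4996 (L l47 (L l234 (T t4987 (L l47 (L l495 (T t35 N))))))))) (K a58 (M a192 (F (L l498 (T t4988 (T t28 N))))) N))))))))) N))))))))))))))))))⟩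
def e0_63__199_193 : Ent 4 := ⟨[a0, a63], [a199, a197], (M a60 (L l229 (F (T t67 (T t43 (T t68 (T t69 (K a20 (M a12 (L l229 (F (T t151 (T t398 (L l11 (L l46 (L l314 (T t399 (K a196 (M a198 (F (T t680 (T t151 (L l11 (L l46 (L l310 (L l314 (T t399 N))))))))) (K a198 (M a196 (F (T t402 (T t5399 N)))) N))))))))))) (K a40 (M a12 (L l229 (F (T t122 (T t398 (L l24 (L l314 (T t399 (K a196 (M a198 (F (T t680 (L l22 (T t151 (L l24 (L l310 (L l314 (T t399 N))))))))) (K a198 (M a196 (F (T t408 (L l22 (L l52 (T t5399 N)))))) N)))))))))) (K a21 (M a192 (L l229 (F (T t72 (L l235 (L l347 (L l491 (T t73 (L l277 (L l347 (L l491 (T t74 (K a196 (M a198 (F (T t1333 (L l235 (L l493 (T t75 (L l277 (L l347 (L l491 (L l495 (T t74 N))))))))))) (K a198 (M a196 (F (T t1333 (L l50 (L l493 (T t5400 N)))))) N)))))))))))))) (K a41 (M a85 (L l229 (F (T t1563 (L l65 (T t52 (L l22 (L l65 (L l277 (T t523 (K a196 (M a198 (F (T t114 (L l22 (L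 l277 (T t5411 N)))))) (K a198 (M a196 (F (T t114 (L l22 (L l275 (L l493 (T t5412 N))))))) N)))))))))))) (K a61 (M a85 (L l229 (F (T t4539 (L l277 (T t936 (L l275 (L l277 (T t115 (K a196 (M a198 (F (T t4539 (L l277 (T t5411 N))))) (K a198 (M a196 (F (T t5413 (L l275 (L l493 (T t5412 N)))))) N))))))))))) (K a22 (M a85 (L l229 (F (T t5413 (L l66 (L l236 (L l275 (T t88 (L l277 (T t523 (K a196 (M a198 (F (T t114 (L l48 (L l277 (T t5411 N)))))) (K a198 (M a196 (F (T t5413 (L l66 (L l275 (L l493 (T t5412 N))))))) N)))))))))))) (K a42 (M a192 (L l229 (F (T t77 (L l235 (L l491 (T t73 (L l22 (L l277 (L l491 (T t74 (K a196 (M a198 (F (T t1333 (L l235 (L l390 (L l493 (T t75 (L l22 (L l277 (L l491 (L l495 (T t74 N)))))))))))) (K a198 (M a196 (F (T t1333 (L l390 (L l493 (T t5400 N)))))) N))))))))))))) (K a62 (M a85 (L l229 (F (T t1563 (L l66 (L l236 (L l275 (T t88 (L l66 (L l275 (L l277 (T t115 (K a196 (M a198 (F (T t52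 (L l36 (L l277 (T t5411 N)))))) (K a198 (M a196 (F (T t1563 (L l66 (L l275 (L l493 (T t5412 N))))))) N)))))))))))))) (K a3 (M a85 (L l229 (F (T t4539 (L l277 (T t2431 (L l277 (T t523 (K a196 (M a198 (F (T t4539 (L l277 (T t5411 N))))) (K a198 (M a196 (F (T t5413 (L l275 (L l493 (T t5412 N)))))) N)))))))))) (K a196 (M a198 (F (T t67 (T t43 (T t68 (T t69 (K a20 (M a150 (F (L l233 (T t5414 (L l11 (T t5415 N)))))) (K a40 (M a106 (F (T t778 (T t5416 N)))) (K a21 (M a150 (F (T t1439 (L l490 (L l495 (T t5417 N)))))) (K a41 (M a85 (F (T t114 (L l22 (L l277 (T t5411 N)))))) (K a61 (M a85 (F (T t4539 (L l277 (T t5411 N))))) (K a22 (M a85 (F (T t114 (L l48 (L l277 (T t5411 N)))))) (K a42 (M a150 (F (T t1439 (L l56 (L l490 (L l495 (T t5417 N))))))) (K a62 (M a85 (F (T t52 (L l36 (L l277 (T t5411 N)))))) (K a3 (M a85 (F (T t4539 (L l277 (T t5411 N))))) N))))))))))))))) (K a198 (M a196 (F (T t67 (T t43 (T t68 (T t69 (K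 a20 (M a192 (F (T t202 (L l46 (L l494 (T t5410 N)))))) (K a40 (M a192 (F (T t202 (L l388 (L l494 (T t5410 N)))))) (K a21 (M a192 (F (T t1333 (L l50 (L l493 (T t5400 N)))))) (K a41 (M a192 (F (T t1333 (L l493 (T t5400 N))))) (K a61 (M a192 (F (T t1333 (L l493 (T t5400 N))))) (K a22 (M a192 (F (T t1333 (L l493 (T t5400 N))))) (K a42 (M a192 (F (T t1333 (L l390 (L l493 (T t5400 N)))))) (K a62 (M a192 (F (T t1333 (L l493 (L l516 (T t5400 N)))))) (K a3 (M a192 (F (T t1800 (L l45 (L l494 (T t5410 N)))))) N))))))))))))))) N))))))))))))))))))⟩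
def e0_63__199_194 : Ent 4 := ⟨[a0, a63], [a199, a198], (M a48 (L l229 (F (T t1 (T t2 (T t3 (T t0 (K a16 (M a149 (L l229 (F (T t5 (L l234 (L l340 (T t11 (T t5485 (K a196 (M a197 (F (T t5486 (L l232 (L l278 (T t5 N)))))) (K a197 (M a196 (F (T t177 (L l492 (L l494 (T t5487 N)))))) N)))))))))) (K a32 (M a149 (L l229 (F (T t175 (L l234 (T t11 (L l28 (T t5488 (K a196 (M a197 (F (T t5486 (L l28 (L l232 (L l278 (T t5 N))))))) (K a197 (M a196 (F (T t177 (L l492 (L l494 (T t5487 N)))))) N)))))))))) (K a21 (M a192 (L l229 (F (T t27 (L l47 (L l234 (L l235 (L l347 (T t20 (L l47 (L l234 (L l347 (T t29 (K a196 (M a197 (F (T t4980 (T t28 N)))) (K a197 (M a196 (F (T t28 (L l50 (L l493 (T t5400 N)))))) N))))))))))))))) (K a37 (M a192 (L l229 (F (T t202 (T t27 (L l47 (L l234 (L l235 (T t20 (K a196 (M a197 (F (T t4980 (L l28 (T t28 N))))) (K a197 (M a196 (F (T t837 (L l493 (T t5400 N))))) N))))))))))) (K a53 (M a149 (L l229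 (F (T t25 (T t13 (T t26 (K a196 (M a197 (F (T t4984 (L l232 (L l278 (T t5 (L l278 (T t26 N)))))))) (K a197 (M a196 (F (T t1787 (L l275 (T t26 N))))) N)))))))) (K a26 (M a192 (L l229 (F (T t202 (T t27 (L l234 (L l235 (T t20 (K a196 (M a197 (F (T t4980 (L l234 (T t4987 N))))) (K a197 (M a196 (F (T t28 (L l493 (T t5400 N))))) N)))))))))) (K a42 (M a192 (L l229 (F (T t19 (L l234 (L l235 (T t20 (L l28 (L l234 (T t29 (K a196 (M a197 (F (L l390 (T t4980 (L l234 (T t4987 N)))))) (K a197 (M a196 (F (T t837 (L l390 (L l493 (T t5400 N)))))) N)))))))))))) (K a58 (M a192 (L l229 (F (T t19 (T t21 (L l54 (L l498 (T t31 (K a196 (M a197 (F (L l498 (T t4988 (T t28 N))))) (K a197 (M a196 (F (T t28 (L l493 (L l498 (T t5400 N)))))) N)))))))))) (K a15 (M a192 (L l229 (F (T t54 (L l483 (T t27 (L l469 (T t21 (K a196 (M a197 (F (T t4980 (L l483 (T t28 N))))) (K a197 (M a196 (F (T t5489 (L l235 (L l325 (L l491 (T t225 N))))))) N))))))))))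 (K a196 (M a197 (F (T t1 (L l495 (T t4995 (L l495 (T t4979 (K a53 (M a192 (F (T t4996 (L l47 (L l234 (T t4987 (L l47 (L l495 (T t35 N))))))))) (K a58 (M a192 (F (L l498 (T t4988 (T t28 N))))) N))))))))) (K a197 (M a196 (F (T t3 (L l491 (T t1 (L l311 (T t2 (T t0 (K a16 (M a192 (F (T t202 (L l364 (L l494 (T t5490 N)))))) (K a32 (M a192 (F (T t202 (L l494 (T t5490 N))))) (K a21 (M a192 (F (T t28 (L l50 (L l493 (T t5400 N)))))) (K a37 (M a192 (F (T t837 (L l493 (T t5400 N))))) (K a53 (M a149 (F (T t1787 (L l275 (T t26 N))))) (K a26 (M a192 (F (T t28 (L l493 (T t5400 N))))) (K a42 (M a192 (F (T t837 (L l390 (L l493 (T t5400 N)))))) (K a58 (M a192 (F (T t28 (L l493 (L l498 (T t5400 N)))))) (K a15 (M a192 (F (T t5489 (L l235 (L l325 (L l491 (T t225 N))))))) N))))))))))))))))) N))))))))))))))))))⟩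
def e0_63__199_195 : Ent 4 := ⟨[a0, a63], [a199, a200], (M a48 (F (T t1 (T t2 (T t3 (T t0 (K a16 (M a60 (F (T t43 (T t64 (T t65 N))))) (K a32 (M a60 (F (T t64 (T t67 (L l24 (L l28 (T t65 N))))))) (K a21 (M a192 (F (T t837 (L l47 (L l230 (L l235 (L l347 (T t20 (L l47 (L l230 (L l347 (T t29 N)))))))))))) (K a37 (M a192 (F (T t19 (L l47 (L l230 (L l235 (T t20 (T t21 N)))))))) (K a53 (M a192 (F (T t19 (L l491 (T t21 (L l501 (T t31 N))))))) (K a26 (M a192 (F (T t837 (L l230 (L l235 (T t20 (T t21 N))))))) (K a42 (M a192 (F (T t19 (L l230 (L l235 (T t20 (L l28 (L l230 (T t29 N))))))))) (K a58 (M a192 (F (T t19 (T t21 (L l54 (L l498 (L l501 (T t31 N)))))))) (K a15 (M a106 (F (T t2289 (L l230 (L l284 (T t306 N)))))) N)))))))))))))))⟩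
def e0_63__199_196 : Ent 4 := ⟨[a0, a63], [a199, a201], (M a85 (F (T t88 (T t52 (T t89 (T t90 (K a64 (M a16 (F (T t97 (L l84 (L l314 (L l494 (T t96 (L l116 (T t98 N))))))))) (K a192 (M a16 (F (T t112 (L l314 (L l494 (T t96 (L l296 (T t98 N)))))))) (K a21 (M a48 (F (T t99 (T t50 (L l47 (L l230 (T t100 N))))))) (K a149 (M a16 (F (T t112 (L l235 (L l314 (T t173 (L l170 (T t102 N)))))))) (K a213 (Fr a170 a255 l476 (Fr a42 a21 l68 (Fr a106 a234 l390 (Fr a192 a149 l519 (V t581))))) (K a42 (M a48 (F (T t364 (L l390 (T t50 (L l28 (L l230 (T t100 N)))))))) (K a106 (M a48 (F (T t99 (T t1 (L l390 (T t50 N)))))) (K a170 (M a16 (F (L l390 (L l404 (T t97 (L l390 (T t98 (L l230 (L l404 (T t113 (L l229 (L l233 (L l235 (L l404 (T t174 N))))))))))))))) (K a255 (M a16 (F (T t112 (L l230 (L l289 (T t113 (L l289 (L l296 (T t98 N))))))))) N)))))))))))))))⟩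
def e0_63__199_197 : Ent 4 := ⟨[a0, a63], [a199, a202], (M a48 (F (T t3 (L l318 (T t1 (L l498 (T t2 (T t0 (K a16 (M a60 (F (T t43 (T t64 (L l498 (T t65 N)))))) (K a32 (M a60 (F (T t64 (T t67 (L l24 (L l28 (L l498 (T t65 N)))))))) (K a21 (M a192 (F (T t27 (L l235 (L l498 (T t22 (L l18 (L l498 (T t46 N))))))))) (K a37 (M a192 (F (T t19 (L l235 (L l498 (T t22 (T t21 N))))))) (K a53 (M a192 (F (T t19 (L l491 (T t21 (L l498 (T t31 N))))))) (K a26 (M a192 (F (T t837 (L l235 (L l498 (T t22 (T t21 N))))))) (K a42 (M a192 (F (T t27 (L l235 (L l390 (L l498 (T t22 (L l390 (L l498 (T t46 N)))))))))) (K a58 (M a106 (F (T t564 (T t551 (L l282 (T t599 N)))))) (K a15 (M a192 (F (T t47 (L l483 (T t27 (L l235 (L l325 (L l498 (T t22 N))))))))) N)))))))))))))))))⟩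
def e0_63__199_198 : Ent 4 := ⟨[a0, a63], [a199, a203], (M a85 (L l235 (F (T t88 (T t52 (T t89 (T t90 (K a64 (M a207 (F (T t5355 (L l320 (T t2864 N))))) (K a192 (M a207 (F (L l339 (T t5355 (L l229 (L l296 (L l320 (T t2875 (L l229 (L l320 (L l500 (T t2855 N)))))))))))) (K a21 (M a195 (F (T t2230 (L l277 (L l493 (T t2035 (L l493 (T t910 N)))))))) (K a149 (M a16 (L l235 (F (T t101 (L l375 (T t97 (L l170 (L l500 (T t102 (K a195 (M a207 (F (L l220 (T t5607 (L l337 (L l375 (T t97 N))))))) (K a207 (M a195 (F (T t112 (L l163 (L l289 (L l494 (T t902 N))))))) N))))))))))) (K a213 (Fr a170 a255 l476 (Fr a42 a21 l68 (Fr a106 a234 l390 (Fr a192 a149 l519 (V t581))))) (K a42 (M a195 (F (T t2232 (L l22 (L l277 (L l390 (L l493 (T t2035 (L l493 (T t910 N)))))))))) (K a106 (M a195 (F (T t2232 (L l277 (L l390 (L l393 (L l493 (T t2035 (L l98 (L l390 (L l499 (T t894 (L l98 (L l499 (T t906 N))))))))))))))) (K a170 (M a195 (F (L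 l218 (L l390 (T t904 (L l277 (L l390 (L l499 (T t886 (L l218 (L l493 (T t905 (L l218 (L l499 (T t906 (L l390 (L l493 (T t907 (L l220 (L l390 (L l499 (T t5608 N)))))))))))))))))))))) (K a255 (M a195 (F (L l296 (T t909 (L l434 (L l493 (T t910 (L l277 (L l296 (L l499 (T t886 (L l434 (L l494 (T t895 (L l283 (L l296 (L l434 (L l494 (T t911 (L l296 (L l434 (T t5609 N)))))))))))))))))))))) (K a195 (M a207 (F (T t89 (L l320 (L l488 (T t5610 (L l320 (T t2846 N)))))))) (K a207 (M a195 (F (T t89 (L l506 (T t2232 (L l493 (T t884 N))))))) N))))))))))))))))))⟩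
def e0_63__199_199 : Ent 4 := ⟨[a0, a63], [a199, a204], (M a60 (F (T t116 (L l333 (T t67 (L l333 (T t43 (L l333 (T t68 (L l333 (T t69 (K a20 (M a48 (F (T t138 (L l11 (L l327 (T t1 (L l11 (L l313 (T t235 N))))))))) (K a40 (M a48 (F (T t48 (L l513 (T t64 (L l52 (L l313 (T t235 N)))))))) (K a21 (M a192 (F (T t2647 (L l235 (L l237 (L l347 (T t73 (L l277 (L l347 (T t74 N)))))))))) (K a41 (M a192 (F (T t1343 (L l286 (T t79 (L l65 (L l290 (T t35 N)))))))) (K a61 (M a192 (F (T t1800 (L l286 (T t79 (L l493 (T t80 N))))))) (K a22 (M a192 (F (T t614 (L l11 (L l286 (T t79 (L l11 (L l290 (T t35 N))))))))) (K a42 (M a192 (F (T t614 (L l286 (T t79 (L l22 (L l277 (T t74 N)))))))) (K a62 (M a192 (F (T t57 (L l286 (T t79 (L l66 (L l493 (L l516 (T t80 N))))))))) (K a3 (M a85 (L l333 (F (T t447 (L l277 (T t115 (K a137 (M a70 (F (T t89 (L l290 (L l475 (L l494 (T t1345 (L l277 (T t523 N))))))))) (K a70 (M a137 (F (T t89 (L l290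 (L l475 (L l494 (T t1345 (L l277 (T t523 N))))))))) N)))))))) N))))))))))))))))))))⟩
def e0_63__199_200 : Ent 4 := ⟨[a0, a63], [a199, a205], (M a85 (F (T t88 (T t52 (T t89 (T t90 (K a64 (M a60 (F (T t114 (L l277 (T t115 N))))) (K a192 (M a16 (F (T t112 (L l314 (L l329 (L l494 (L l509 (T t96 (L l296 (T t98 N)))))))))) (K a21 (M a48 (F (T t99 (T t50 (L l47 (T t100 N)))))) (K a149 (M a16 (F (T t112 (L l231 (L l235 (L l314 (L l329 (T t173 (L l170 (T t102 N)))))))))) (K a213 (Fr a170 a255 l476 (Fr a42 a21 l68 (Fr a106 a234 l390 (Fr a192 a149 l519 (V t581))))) (K a42 (M a48 (F (T t364 (L l390 (T t50 (L l28 (T t100 N))))))) (K a106 (M a48 (F (T t99 (T t1 (L l390 (T t50 N)))))) (K a170 (M a16 (F (L l404 (T t113 (L l390 (T t98 (L l390 (L l404 (T t97 (L l229 (L l231 (L l233 (L l235 (L l404 (T t174 N))))))))))))))) (K a255 (M a16 (F (T t112 (L l289 (T t113 (L l289 (L l296 (T t98 N)))))))) N)))))))))))))))⟩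
def e0_63__199_201 : Ent 4 := ⟨[a0, a63], [a199, a206], (M a149 (F (T t5 (T t175 (T t176 (T t177 (K a192 (M a53 (F (T t178 (L l229 (L l236 (T t179 (L l229 (L l236 (L l296 (L l314 (T t180 N))))))))))) (K a21 (M a48 (F (T t1267 (L l18 (L l229 (T t14 (T t13 N))))))) (K a85 (M a16 (F (T t97 (L l144 (T t190 (L l94 (T t278 N))))))) (K a213 (Fr a106 a192 l519 (Fr a42 a21 l68 (Fr a170 a234 l390 (Fr a255 a85 l476 (V t582))))) (K a42 (M a48 (F (L l234 (T t11 (L l390 (T t13 (L l54 (L l229 (T t14 N))))))))) (K a106 (M a48 (F (T t1 (L l229 (L l498 (T t14 (L l229 (L l390 (L l498 (T t6 (L l390 (T t26 N)))))))))))) (K a170 (M a48 (F (T t3 (L l234 (T t11 (L l390 (T t13 N))))))) (K a191 (M a204 (F (T t1283 (L l504 (T t1112 N))))) (K a255 (M a16 (F (T t112 (L l266 (T t190 (L l289 (L l296 (T t191 N)))))))) N)))))))))))))))⟩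
def e0_63__199_202 : Ent 4 := ⟨[a0, a63], [a199, a207], (M a48 (L l235 (F (T t48 (L l325 (T t1 (L l325 (T t2 (L l325 (T t3 (L l325 (T t0 (K a16 (M a61 (L l235 (F (T t529 (L l511 (T t262 (L l10 (T t530 (K a195 (M a203 (F (T t529 (L l487 (L l511 (T t262 (L l10 (T t530 N)))))))) (K a203 (M a195 (F (T t529 (L l344 (L l500 (T t5611 N)))))) N)))))))))) (K a32 (M a61 (L l235 (F (T t5612 (L l28 (L l331 (T t505 (L l28 (T t530 (K a195 (M a203 (F (T t5612 (L l28 (L l307 (L l331 (T t505 (L l28 (T t530 N))))))))) (K a203 (M a195 (F (L l511 (T t262 (L l28 (T t5613 N)))))) N))))))))))) (K a21 (M a51 (L l235 (F (T t5614 (L l494 (L l506 (T t590 (L l15 (L l18 (L l47 (L l50 (L l331 (L l493 (T t5615 (L l65 (L l331 (L l494 (T t5616 (K a195 (M a203 (F (T t5614 (L l47 (L l50 (L l236 (L l493 (L l518 (T t5617 (L l15 (L l18 (L l47 (L l50 (L l307 (L l331 (L l493 (T t5618 N))))))))))))))))) (K a203 (M a195 (F (T t5619 (L l65 (L l506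 (T t1995 N)))))) N)))))))))))))))))))) (K a37 (M a192 (L l235 (F (T t55 (L l289 (T t21 (L l28 (T t31 (K a195 (M a203 (F (T t36 (L l47 (L l289 (L l295 (T t35 (L l47 (T t525 N))))))))) (K a203 (M a195 (F (T t36 (L l499 (L l506 (T t2653 N)))))) N)))))))))) (K a53 (M a192 (L l235 (F (T t55 (L l289 (L l491 (T t21 (T t31 (K a195 (M a203 (F (T t1681 (L l273 (L l303 (T t28 (L l47 (L l491 (T t525 N))))))))) (K a203 (M a195 (F (T t5620 (L l289 (L l491 (T t21 N)))))) N)))))))))) (K a26 (M a59 (L l235 (F (L l493 (T t4674 (L l18 (L l326 (L l493 (T t2388 (L l12 (L l18 (T t4668 (K a195 (M a203 (F (L l18 (L l493 (T t5621 (L l236 (L l518 (T t5622 N)))))))) (K a203 (M a195 (F (T t5623 (L l57 (L l493 (L l500 (L l506 (T t4667 N)))))))) N)))))))))))))) (K a42 (M a51 (L l235 (F (T t5624 (L l54 (L l506 (T t1995 (L l66 (L l331 (L l493 (T t5615 (L l26 (L l28 (L l54 (L l56 (L l331 (L l494 (T t5625 (K a195 (M a203 (F (T t5624 (L l236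 (L l493 (L l518 (T t5617 (L l26 (L l28 (L l493 (L l518 (T t5626 N)))))))))))) (K a203 (M a195 (F (T t5627 (L l54 (L l506 (T t1995 N)))))) N)))))))))))))))))))) (K a58 (M a192 (L l235 (F (T t57 (L l303 (T t27 (L l54 (L l498 (T t31 (K a195 (M a203 (F (T t47 (L l273 (L l303 (T t28 (T t525 N))))))) (K a203 (M a195 (F (T t5620 (L l289 (T t21 N))))) N))))))))))) (K a15 (M a3 (L l235 (L l325 (F (T t630 (L l73 (L l511 (T t86 (L l63 (T t87 (K a195 (M a203 (L l325 (L l337 (F (T t630 (L l73 (L l487 (L l511 (T t1249 (L l63 (T t87 (K a135 (M a75 (L l313 (L l325 (F (T t1341 (L l73 (L l487 (L l511 (T t1249 (L l63 (T t560 (K a7 (M a71 (L l325 (F (T t5628 (L l63 (L l506 (L l518 (T t137 (L l49 (L l63 (T t560 (K a79 (M a143 (F (T t85 (L l73 (L l487 (L l511 (T t86 (L l63 (T t87 N))))))))) (K a143 (Fr a79 a67 l83 (V t1249)) N))))))))))))) (K a71 (M a7 (L l325 (F (T t85 (L l73 (L l487 (L l511 (T t86 (L l63 (T t87 (K a79 (M a143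 (F (T t85 (L l73 (L l487 (L l511 (T t1249 (L l63 (T t560 N))))))))) (K a143 (M a79 (L l159 (F (T t632 (L l73 (L l487 (L l511 (T t86 (L l63 (T t87 (K a131 (Fr a139 a11 l319 (V t348)) (K a139 (M a131 (F (T t85 (L l73 (L l487 (L l511 (T t1249 (L l63 (T t87 N))))))))) N)))))))))))) N)))))))))))) (K a79 (M a143 (L l313 (F (T t136 (L l63 (L l506 (L l518 (T t665 (L l63 (T t560 (K a7 (M a71 (F (T t85 (L l73 (L l487 (L l511 (T t86 (L l63 (T t87 N))))))))) (K a71 (M a7 (F (T t85 (L l73 (L l487 (L l511 (T t1249 (L l63 (T t560 N))))))))) N)))))))))))) (K a143 (M a79 (L l159 (L l313 (F (T t1341 (L l73 (L l487 (L l511 (T t348 (L l63 (T t87 (K a131 (Fr a139 a11 l319 (V t1249)) (K a7 (Fr a71 a67 l83 (V t1249)) (K a71 (M a7 (L l159 (F (T t632 (L l73 (L l487 (L l511 (T t86 (L l63 (T t87 (K a131 (Fr a139 a11 l319 (V t348)) (K a139 (M a131 (F (T t85 (L l73 (L l487 (L l511 (T t1249 (L l63 (T t87 N))))))))) N)))))))))))) (K a139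 (M a131 (L l313 (F (T t85 (L l73 (L l487 (L l511 (T t1249 (L l63 (T t560 (K a7 (Fr a71 a67 l83 (V t1249)) (K a71 (M a7 (F (T t85 (L l73 (L l487 (L l511 (T t1249 (L l63 (T t87 N))))))))) N)))))))))))) N))))))))))))))) N))))))))))))))) (K a75 (M a135 (L l325 (F (T t630 (L l73 (L l487 (L l511 (T t1249 (L l63 (T t87 (K a79 (M a143 (L l83 (F (T t4666 (L l63 (L l506 (L l518 (T t137 (L l63 (T t87 (K a67 (M a71 (F (T t85 (L l73 (L l487 (L l511 (T t1249 (L l63 (T t560 N))))))))) (K a71 (M a67 (F (T t85 (L l73 (L l487 (L l511 (T t1249 (L l63 (T t87 N))))))))) N)))))))))))) (K a143 (M a79 (F (T t630 (L l73 (L l487 (L l511 (T t1249 (L l63 (T t87 N))))))))) N)))))))))))) (K a79 (M a143 (L l337 (F (T t630 (L l73 (L l487 (L l511 (T t1249 (L l63 (T t87 (K a135 (M a75 (L l313 (F (T t136 (L l63 (L l506 (L l518 (T t665 (L l63 (T t560 (K a7 (M a71 (F (T t85 (L l73 (L l487 (L l511 (T t86 (L l63 (T t87 N))))))))) (K a71 (M a7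 (F (T t85 (L l73 (L l487 (L l511 (T t1249 (L l63 (T t560 N))))))))) N)))))))))))) (K a75 (M a135 (L l83 (F (T t4666 (L l63 (L l506 (L l518 (T t137 (L l63 (T t87 (K a67 (M a71 (F (T t85 (L l73 (L l487 (L l511 (T t1249 (L l63 (T t560 N))))))))) (K a71 (M a67 (F (T t85 (L l73 (L l487 (L l511 (T t1249 (L l63 (T t87 N))))))))) N)))))))))))) N)))))))))))) (K a143 (M a79 (L l337 (F (T t630 (L l73 (L l487 (L l511 (T t1249 (L l63 (T t87 (K a135 (M a75 (L l159 (L l313 (F (T t1341 (L l73 (L l487 (L l511 (T t348 (L l63 (T t87 (K a131 (Fr a139 a11 l319 (V t1249)) (K a7 (Fr a71 a67 l83 (V t1249)) (K a71 (M a7 (L l159 (F (T t632 (L l73 (L l487 (L l511 (T t86 (L l63 (T t87 (K a131 (Fr a139 a11 l319 (V t348)) (K a139 (M a131 (F (T t85 (L l73 (L l487 (L l511 (T t1249 (L l63 (T t87 N))))))))) N)))))))))))) (K a139 (M a131 (L l313 (F (T t85 (L l73 (L l487 (L l511 (T t1249 (L l63 (T t560 (K a7 (Fr a71 a67 l83 (V t1249)) (K a71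 (M a7 (F (T t85 (L l73 (L l487 (L l511 (T t1249 (L l63 (T t87 N))))))))) N)))))))))))) N))))))))))))))) (K a75 (M a135 (F (T t630 (L l73 (L l487 (L l511 (T t1249 (L l63 (T t87 N))))))))) N)))))))))))) N))))))))))))))) (K a203 (M a195 (L l325 (F (T t5629 (L l63 (L l506 (T t137 (K a79 (M a143 (F (T t5630 (L l63 (L l506 (T t137 N)))))) (K a143 (M a79 (F (T t5631 (L l63 (T t560 N))))) N))))))))) (K a79 (M a143 (L l235 (F (T t630 (L l73 (L l511 (T t1249 (L l63 (T t87 (K a195 (M a203 (L l337 (F (T t630 (L l73 (L l487 (L l511 (T t1249 (L l63 (T t87 (K a135 (M a75 (L l313 (F (T t136 (L l63 (L l506 (L l518 (T t665 (L l63 (T t560 (K a7 (M a71 (F (T t85 (L l73 (L l487 (L l511 (T t86 (L l63 (T t87 N))))))))) (K a71 (M a7 (F (T t85 (L l73 (L l487 (L l511 (T t1249 (L l63 (T t560 N))))))))) N)))))))))))) (K a75 (M a135 (L l83 (F (T t4666 (L l63 (L l506 (L l518 (T t137 (L l63 (T t87 (K a67 (M a71 (F (T t85 (L l73 (L l487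 (L l511 (T t1249 (L l63 (T t560 N))))))))) (K a71 (M a67 (F (T t85 (L l73 (L l487 (L l511 (T t1249 (L l63 (T t87 N))))))))) N)))))))))))) N)))))))))))) (K a203 (M a195 (F (T t5630 (L l63 (L l506 (T t137 N)))))) N))))))))))) (K a143 (M a79 (L l235 (F (T t630 (L l73 (L l511 (T t1249 (L l63 (T t87 (K a195 (M a203 (L l337 (F (T t630 (L l73 (L l487 (L l511 (T t1249 (L l63 (T t87 (K a135 (M a75 (L l159 (L l313 (F (T t1341 (L l73 (L l487 (L l511 (T t348 (L l63 (T t87 (K a131 (Fr a139 a11 l319 (V t1249)) (K a7 (Fr a71 a67 l83 (V t1249)) (K a71 (M a7 (L l159 (F (T t632 (L l73 (L l487 (L l511 (T t86 (L l63 (T t87 (K a131 (Fr a139 a11 l319 (V t348)) (K a139 (M a131 (F (T t85 (L l73 (L l487 (L l511 (T t1249 (L l63 (T t87 N))))))))) N)))))))))))) (K a139 (M a131 (L l313 (F (T t85 (L l73 (L l487 (L l511 (T t1249 (L l63 (T t560 (K a7 (Fr a71 a67 l83 (V t1249)) (K a71 (M a7 (F (T t85 (L l73 (L l487 (L l511 (T t1249 (L l63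 (T t87 N))))))))) N)))))))))))) N))))))))))))))) (K a75 (M a135 (F (T t630 (L l73 (L l487 (L l511 (T t1249 (L l63 (T t87 N))))))))) N)))))))))))) (K a203 (M a195 (F (T t5631 (L l63 (T t560 N))))) N))))))))))) N)))))))))))))) (K a195 (M a203 (F (T t48 (L l325 (L l337 (T t1 (L l325 (L l337 (T t2 (L l325 (L l337 (T t3 (L l325 (L l337 (T t0 (K a16 (M a59 (F (L l10 (L l18 (L l493 (T t5621 (L l236 (L l518 (T t5622 N))))))))) (K a32 (M a59 (F (L l493 (T t5621 (L l236 (L l518 (T t5622 N))))))) (K a21 (M a106 (F (L l347 (T t2289 (L l47 (L l50 (L l237 (L l493 (T t5632 N))))))))) (K a37 (M a192 (F (T t36 (L l47 (L l289 (L l295 (T t35 (L l47 (T t525 N))))))))) (K a53 (M a192 (F (T t1681 (L l273 (L l303 (T t28 (L l47 (L l491 (T t525 N))))))))) (K a26 (M a59 (F (L l18 (L l493 (T t5621 (L l236 (L l518 (T t5622 N)))))))) (K a42 (M a106 (F (L l28 (T t2289 (L l66 (L l237 (L l493 (T t5632 N)))))))) (K a58 (M a192 (F (T t47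 (L l273 (L l303 (T t28 (T t525 N))))))) (K a15 (M a3 (L l325 (L l337 (F (T t630 (L l73 (L l487 (L l511 (T t1249 (L l63 (T t87 (K a135 (M a75 (L l313 (L l325 (F (T t1341 (L l73 (L l487 (L l511 (T t1249 (L l63 (T t560 (K a7 (M a71 (L l325 (F (T t5628 (L l63 (L l506 (L l518 (T t137 (L l49 (L l63 (T t560 (K a79 (M a143 (F (T t85 (L l73 (L l487 (L l511 (T t86 (L l63 (T t87 N))))))))) (K a143 (Fr a79 a67 l83 (V t1249)) N))))))))))))) (K a71 (M a7 (L l325 (F (T t85 (L l73 (L l487 (L l511 (T t86 (L l63 (T t87 (K a79 (M a143 (F (T t85 (L l73 (L l487 (L l511 (T t1249 (L l63 (T t560 N))))))))) (K a143 (M a79 (L l159 (F (T t632 (L l73 (L l487 (L l511 (T t86 (L l63 (T t87 (K a131 (Fr a139 a11 l319 (V t348)) (K a139 (M a131 (F (T t85 (L l73 (L l487 (L l511 (T t1249 (L l63 (T t87 N))))))))) N)))))))))))) N)))))))))))) (K a79 (M a143 (L l313 (F (T t136 (L l63 (L l506 (L l518 (T t665 (L l63 (T t560 (K a7 (M a71 (F (T t85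 (L l73 (L l487 (L l511 (T t86 (L l63 (T t87 N))))))))) (K a71 (M a7 (F (T t85 (L l73 (L l487 (L l511 (T t1249 (L l63 (T t560 N))))))))) N)))))))))))) (K a143 (M a79 (L l159 (L l313 (F (T t1341 (L l73 (L l487 (L l511 (T t348 (L l63 (T t87 (K a131 (Fr a139 a11 l319 (V t1249)) (K a7 (Fr a71 a67 l83 (V t1249)) (K a71 (M a7 (L l159 (F (T t632 (L l73 (L l487 (L l511 (T t86 (L l63 (T t87 (K a131 (Fr a139 a11 l319 (V t348)) (K a139 (M a131 (F (T t85 (L l73 (L l487 (L l511 (T t1249 (L l63 (T t87 N))))))))) N)))))))))))) (K a139 (M a131 (L l313 (F (T t85 (L l73 (L l487 (L l511 (T t1249 (L l63 (T t560 (K a7 (Fr a71 a67 l83 (V t1249)) (K a71 (M a7 (F (T t85 (L l73 (L l487 (L l511 (T t1249 (L l63 (T t87 N))))))))) N)))))))))))) N))))))))))))))) N))))))))))))))) (K a75 (M a135 (L l325 (F (T t630 (L l73 (L l487 (L l511 (T t1249 (L l63 (T t87 (K a79 (M a143 (L l83 (F (T t4666 (L l63 (L l506 (L l518 (T t137 (L l63 (T t87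 (K a67 (M a71 (F (T t85 (L l73 (L l487 (L l511 (T t1249 (L l63 (T t560 N))))))))) (K a71 (M a67 (F (T t85 (L l73 (L l487 (L l511 (T t1249 (L l63 (T t87 N))))))))) N)))))))))))) (K a143 (M a79 (F (T t630 (L l73 (L l487 (L l511 (T t1249 (L l63 (T t87 N))))))))) N)))))))))))) (K a79 (M a143 (L l337 (F (T t630 (L l73 (L l487 (L l511 (T t1249 (L l63 (T t87 (K a135 (M a75 (L l313 (F (T t136 (L l63 (L l506 (L l518 (T t665 (L l63 (T t560 (K a7 (M a71 (F (T t85 (L l73 (L l487 (L l511 (T t86 (L l63 (T t87 N))))))))) (K a71 (M a7 (F (T t85 (L l73 (L l487 (L l511 (T t1249 (L l63 (T t560 N))))))))) N)))))))))))) (K a75 (M a135 (L l83 (F (T t4666 (L l63 (L l506 (L l518 (T t137 (L l63 (T t87 (K a67 (M a71 (F (T t85 (L l73 (L l487 (L l511 (T t1249 (L l63 (T t560 N))))))))) (K a71 (M a67 (F (T t85 (L l73 (L l487 (L l511 (T t1249 (L l63 (T t87 N))))))))) N)))))))))))) N)))))))))))) (K a143 (M a79 (L l337 (F (T t630 (L l73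 (L l487 (L l511 (T t1249 (L l63 (T t87 (K a135 (M a75 (L l159 (L l313 (F (T t1341 (L l73 (L l487 (L l511 (T t348 (L l63 (T t87 (K a131 (Fr a139 a11 l319 (V t1249)) (K a7 (Fr a71 a67 l83 (V t1249)) (K a71 (M a7 (L l159 (F (T t632 (L l73 (L l487 (L l511 (T t86 (L l63 (T t87 (K a131 (Fr a139 a11 l319 (V t348)) (K a139 (M a131 (F (T t85 (L l73 (L l487 (L l511 (T t1249 (L l63 (T t87 N))))))))) N)))))))))))) (K a139 (M a131 (L l313 (F (T t85 (L l73 (L l487 (L l511 (T t1249 (L l63 (T t560 (K a7 (Fr a71 a67 l83 (V t1249)) (K a71 (M a7 (F (T t85 (L l73 (L l487 (L l511 (T t1249 (L l63 (T t87 N))))))))) N)))))))))))) N))))))))))))))) (K a75 (M a135 (F (T t630 (L l73 (L l487 (L l511 (T t1249 (L l63 (T t87 N))))))))) N)))))))))))) N))))))))))))))) N)))))))))))))))))))))))) (K a203 (M a195 (F (T t610 (L l301 (T t5633 (K a16 (M a64 (F (L l289 (T t397 (L l344 (T t5634 N)))))) (K a32 (M a64 (F (T t749 (L l376 (T t5634 N)))))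 N))))))) N)))))))))))))))))))))))⟩
def e0_63__199_203 : Ent 4 := ⟨[a0, a63], [a199, a208], (M a85 (F (T t52 (L l246 (L l268 (T t88 (L l246 (T t89 (L l268 (T t90 (K a64 (M a16 (F (T t112 (L l84 (L l246 (L l314 (L l494 (T t96 (T t102 N))))))))) (K a192 (M a240 (F (T t2082 (L l484 (T t933 (L l246 (L l296 (T t1550 (L l340 (T t2083 N)))))))))) (K a21 (M a48 (F (L l246 (T t99 (L l268 (T t50 (L l47 (L l246 (T t100 N))))))))) (K a149 (M a31 (F (L l340 (T t2084 (L l220 (L l235 (L l246 (T t2085 (L l170 (T t2086 N)))))))))) (K a213 (Fr a170 a255 l476 (Fr a42 a21 l68 (Fr a106 a234 l390 (Fr a192 a149 l519 (V t581))))) (K a42 (M a48 (F (L l340 (T t364 (L l268 (L l390 (T t50 (L l28 (L l246 (T t100 N)))))))))) (K a106 (M a48 (F (T t1 (L l104 (L l246 (L l314 (L l494 (T t509 (L l268 (L l390 (T t50 N))))))))))) (K a170 (M a4 (F (L l390 (L l464 (T t129 (L l246 (L l277 (L l390 (T t131 (L l277 (L l464 (T t130 (L l238 (L l277 (L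 l464 (T t938 N)))))))))))))))) (K a255 (M a4 (F (T t129 (L l265 (L l277 (T t130 (L l246 (L l265 (L l277 (L l296 (T t131 N))))))))))) N)))))))))))))))))))⟩
def e0_63__199_204 : Ent 4 := ⟨[a0, a63], [a199, a209], (M a85 (F (T t52 (L l243 (L l272 (T t88 (L l243 (T t89 (L l272 (T t90 (K a64 (M a12 (F (T t124 (L l243 (L l277 (T t572 N)))))) (K a192 (M a243 (F (T t5635 (L l489 (T t2088 (L l243 (L l296 (L l334 (T t2089 (L l489 (L l493 (T t2090 N)))))))))))) (K a21 (M a48 (F (T t99 (T t50 (L l47 (T t100 N)))))) (K a149 (M a29 (F (L l341 (T t2091 (L l220 (L l243 (T t2092 (L l167 (T t2093 N))))))))) (K a213 (Fr a170 a255 l476 (Fr a42 a21 l68 (Fr a106 a234 l390 (Fr a192 a149 l519 (V t581))))) (K a42 (M a48 (F (T t364 (L l390 (T t50 (L l28 (T t100 N))))))) (K a106 (M a48 (F (T t1 (L l104 (L l314 (L l494 (T t509 (L l390 (T t50 N))))))))) (K a170 (M a16 (F (L l404 (T t113 (L l243 (L l390 (T t98 (L l390 (L l404 (T t97 (L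 l229 (L l235 (L l404 (T t174 N)))))))))))))) (K a255 (M a16 (F (T t112 (L l289 (T t113 (L l243 (L l289 (L l296 (T t98 N))))))))) N)))))))))))))))))))⟩
def e0_63__199_205 : Ent 4 := ⟨[a0, a63], [a199, a210], (M a149 (F (T t5 (T t175 (T t176 (T t177 (K a192 (M a53 (F (T t178 (L l229 (L l236 (T t179 (L l229 (L l236 (L l296 (L l314 (T t180 N))))))))))) (K a21 (M a48 (F (T t1267 (L l18 (L l229 (T t14 (L l273 (T t13 N)))))))) (K a85 (M a16 (F (T t97 (L l144 (L l238 (L l273 (T t190 (L l94 (L l372 (T t278 N)))))))))) (K a213 (Fr a106 a192 l519 (Fr a42 a21 l68 (Fr a170 a234 l390 (Fr a255 a85 l476 (V t582))))) (K a42 (M a48 (F (T t11 (L l273 (L l390 (T t13 (L l54 (L l229 (T t14 N))))))))) (K a106 (M a48 (F (T t1 (L l229 (L l498 (T t14 (L l229 (L l390 (L l498 (T t6 (L l390 (T t26 N)))))))))))) (K a170 (M a48 (F (T t11 (L l462 (T t1 (L l273 (L l390 (T t13 N)))))))) (K a191 (M a12 (F (T t648 (L l238 (T t960 N))))) (K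 a255 (M a16 (F (T t112 (L l238 (L l266 (L l273 (T t190 (L l289 (L l296 (T t191 N)))))))))) N)))))))))))))))⟩
def e0_63__199_206 : Ent 4 := ⟨[a0, a63], [a199, a211], (M a149 (F (T t5 (T t175 (T t176 (T t177 (K a192 (M a53 (F (T t178 (L l229 (L l236 (L l344 (T t179 (L l229 (L l236 (L l296 (L l314 (T t180 N)))))))))))) (K a21 (M a48 (F (T t1267 (L l18 (L l229 (L l344 (T t14 (T t13 N)))))))) (K a85 (M a16 (F (L l373 (T t97 (L l144 (L l238 (T t190 (L l94 (T t278 N))))))))) (K a213 (Fr a106 a192 l519 (Fr a42 a21 l68 (Fr a170 a234 l390 (Fr a255 a85 l476 (V t582))))) (K a42 (M a48 (F (T t11 (L l390 (T t13 (L l54 (L l229 (L l344 (T t14 N))))))))) (K a106 (M a48 (F (T t1 (L l229 (L l344 (L l498 (T t14 (L l229 (L l390 (L l498 (T t6 (L l245 (L l390 (T t26 N)))))))))))))) (K a170 (M a48 (F (T t11 (L l462 (T t1 (L l390 (T t13 N))))))) (K a191 (M a48 (F (T t13 (L l229 (T t6 N))))) (K a255 (M a16 (F (T t112 (L l238 (L l266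 (T t190 (L l245 (L l289 (L l296 (T t191 N)))))))))) N)))))))))))))))⟩
def e0_63__199_207 : Ent 4 := ⟨[a0, a63], [a199, a212], (M a85 (F (T t52 (L l239 (L l292 (T t88 (L l239 (T t89 (L l292 (T t90 (K a64 (M a12 (F (T t124 (L l239 (L l277 (T t572 N)))))) (K a192 (M a252 (F (T t2094 (L l514 (T t93 (L l239 (L l296 (L l309 (T t170 (L l514 (T t2095 N))))))))))) (K a21 (M a48 (F (T t99 (T t50 (L l47 (T t100 N)))))) (K a149 (M a23 (F (L l346 (T t1941 (L l220 (L l235 (L l239 (L l277 (T t2096 (L l163 (L l494 (T t2097 N)))))))))))) (K a213 (Fr a170 a255 l476 (Fr a42 a21 l68 (Fr a106 a234 l390 (Fr a192 a149 l519 (V t581))))) (K a42 (M a48 (F (T t364 (L l390 (T t50 (L l28 (T t100 N))))))) (K a106 (M a48 (F (T t1 (L l104 (L l314 (L l494 (T t509 (L l390 (T t50 N))))))))) (K a170 (M a16 (F (L l404 (T t113 (L l239 (L l390 (T t98 (L l390 (L l404 (T t97 (L l229 (L l235 (L l404 (T t174 N)))))))))))))) (K a255 (M a16 (F (T t112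 (L l289 (T t113 (L l239 (L l289 (L l296 (T t98 N))))))))) N)))))))))))))))))))⟩
def e0_63__199_208 : Ent 4 := ⟨[a0, a63], [a199, a213], (M a48 (F (T t2 (L l347 (T t1 (L l347 (T t3 (T t0 (K a16 (M a60 (F (T t43 (T t64 (T t65 N))))) (K a32 (M a60 (F (T t64 (L l347 (T t67 (L l24 (L l28 (T t65 N)))))))) (K a21 (M a85 (F (T t50 (L l246 (L l314 (L l494 (T t509 (L l47 (L l246 (T t100 N)))))))))) (K a37 (M a192 (F (T t19 (L l47 (L l235 (L l347 (T t20 (L l347 (T t21 N))))))))) (K a53 (M a192 (F (T t27 (L l347 (L l491 (T t21 (L l347 (L l491 (T t575 N))))))))) (K a26 (M a192 (F (T t837 (L l235 (L l347 (T t20 (L l347 (T t21 N)))))))) (K a42 (M a192 (F (T t19 (L l235 (L l347 (T t20 (L l28 (L l246 (L l347 (T t29 N)))))))))) (K a58 (M a192 (F (T t27 (L l347 (T t21 (L l347 (T t575 N))))))) (K a15 (M a192 (F (T t54 (L l483 (T t27 (L l347 (L l469 (T t21 N)))))))) N)))))))))))))))))⟩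
def e0_63__199_209 : Ent 4 := ⟨[a0, a63], [a199, a214], (M a85 (L l279 (F (T t90 (L l239 (T t88 (L l294 (T t52 (L l239 (T t89 (K a64 (M a12 (L l279 (F (T t124 (L l239 (L l277 (T t572 (K a244 (M a229 (F (T t124 (L l239 (L l259 (L l277 (T t572 N))))))) (K a229 (M a244 (F (T t122 (L l120 (T t1370 (T t124 N)))))) N))))))))) (K a192 (M a4 (L l279 (F (T t129 (L l277 (T t1399 (L l239 (L l277 (L l296 (T t131 (K a244 (M a229 (F (T t2152 (L l423 (L l489 (L l493 (T t519 (L l239 (L l259 (L l277 (L l296 (T t131 N)))))))))))) (K a229 (M a244 (F (T t129 (L l276 (L l313 (T t5636 N)))))) N)))))))))))) (K a21 (M a240 (L l279 (F (T t1384 (T t933 (T t1385 (K a244 (M a229 (F (T t5637 (L l18 (L l244 (T t5638 (L l244 (T t5639 N)))))))) (K a229 (M a244 (F (T t5637 (L l50 (L l493 (T t5640 N)))))) N)))))))) (K a149 (M a4 (L l279 (F (T t129 (L l277 (T t1371 (L l202 (T t1372 (K a244 (M a229 (F (T t129 (L l220 (L l259 (L l277 (T t1509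 (L l202 (T t1372 N))))))))) (K a229 (M a244 (F (T t129 (L l202 (L l276 (L l313 (T t5636 N))))))) N)))))))))) (K a213 (Fr a170 a255 l476 (Fr a42 a21 l68 (Fr a106 a234 l390 (Fr a192 a149 l519 (V t581))))) (K a42 (M a240 (L l279 (F (T t1384 (L l390 (T t386 (T t1385 (K a244 (M a229 (F (T t5382 (L l244 (L l390 (T t5638 (L l244 (T t5639 N)))))))) (K a229 (M a244 (F (T t5382 (L l493 (T t5640 N))))) N))))))))) (K a106 (M a48 (L l279 (F (T t1 (L l104 (L l314 (L l494 (T t509 (L l390 (T t50 (K a244 (M a229 (F (T t364 (T t1 (L l262 (L l390 (T t50 N))))))) (K a229 (M a244 (F (T t99 (T t1 (L l303 (L l390 (T t50 N))))))) N)))))))))))) (K a170 (M a4 (L l279 (F (L l390 (L l464 (T t129 (L l239 (L l277 (L l390 (T t131 (L l277 (L l464 (T t130 (L l277 (L l464 (T t938 (K a244 (M a229 (F (L l390 (L l464 (T t129 (L l239 (L l259 (L l277 (L l390 (T t131 (L l259 (L l277 (L l464 (T t130 (L l259 (L l277 (L l464 (T t938 N))))))))))))))))))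 (K a229 (M a244 (F (L l313 (T t5641 (L l390 (L l464 (L l493 (T t519 N)))))))) N)))))))))))))))))) (K a255 (M a4 (L l279 (F (T t129 (L l265 (L l277 (T t130 (L l239 (L l265 (L l277 (L l296 (T t131 (K a244 (M a229 (F (T t129 (L l259 (L l265 (L l277 (T t130 (L l239 (L l259 (L l265 (L l277 (L l296 (T t131 N))))))))))))) (K a229 (M a244 (F (T t129 (L l276 (L l313 (T t5636 N)))))) N)))))))))))))) (K a244 (M a229 (F (T t90 (L l229 (L l459 (T t5642 (L l229 (T t5643 (K a21 (M a192 (F (T t5511 (L l229 (L l239 (T t5644 N)))))) (K a149 (M a16 (F (T t101 (L l375 (T t97 (L l170 (T t102 N))))))) (K a213 (Fr a170 a255 l476 (Fr a42 a21 l68 (Fr a106 a234 l390 (Fr a192 a149 l519 (V t581))))) (K a106 (Fr a21 a42 l68 (Fr a213 a149 l347 (Fr a255 a170 l476 (Fr a234 a192 l296 (V t5696))))) N)))))))))))) (K a229 (M a244 (F (T t90 (L l239 (L l275 (T t88 (L l256 (L l294 (T t52 (L l239 (L l275 (T t89 (K a64 (M a240 (F (T t3653 (L l493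 (T t5640 N))))) (K a192 (M a240 (F (T t4376 (L l489 (L l493 (T t5640 N)))))) (K a21 (M a240 (F (T t5637 (L l50 (L l493 (T t5640 N)))))) (K a149 (M a240 (F (T t3104 (L l493 (L l495 (T t5640 N)))))) (K a213 (Fr a170 a255 l476 (Fr a42 a21 l68 (Fr a106 a234 l390 (Fr a192 a149 l519 (V t581))))) (K a42 (M a240 (F (T t5382 (L l493 (T t5640 N))))) (K a106 (M a240 (F (T t5646 (L l130 (L l390 (T t386 N)))))) (K a170 (M a240 (F (T t3175 (L l180 (L l239 (L l275 (L l390 (T t387 N)))))))) (K a255 (M a240 (F (T t5646 (L l239 (L l275 (L l296 (T t5647 N))))))) N))))))))))))))))))))) N)))))))))))))))))))))⟩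
def e0_63__199_210 : Ent 4 := ⟨[a0, a63], [a199, a215], (M a48 (L l277 (F (T t1 (T t2 (T t3 (T t0 (K a16 (M a149 (L l277 (F (T t4854 (L l340 (T t11 (L l229 (L l239 (T t6 (K a231 (M a247 (F (T t1267 (L l239 (L l314 (T t5648 N)))))) (K a247 (M a231 (F (T t4854 (L l229 (T t5649 N))))) N))))))))))) (K a32 (M a149 (L l277 (F (T t11 (L l28 (L l239 (T t5 (L l28 (L l229 (L l239 (T t6 (K a231 (M a247 (F (T t11 (L l28 (L l239 (L l314 (T t5648 N))))))) (K a247 (M a231 (F (T t175 (L l24 (L l229 (T t5649 N)))))) N))))))))))))) (K a21 (M a85 (L l277 (F (T t50 (L l245 (L l314 (L l494 (T t509 (L l47 (L l245 (T t100 (K a231 (M a247 (F (T t3589 (L l47 (L l245 (T t100 N)))))) (K a247 (M a231 (F (L l245 (T t935 (L l422 (T t50 (L l47 (L l245 (T t100 N))))))))) N))))))))))))) (K a37 (M a149 (L l277 (F (T t1267 (L l28 (L l239 (T t5 (L l229 (T t14 (K a231 (M a247 (F (T t1267 (L l28 (L l239 (L l314 (T t5648 N))))))) (K a247 (M a231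 (F (T t13 (L l21 (L l229 (T t5649 N)))))) N))))))))))) (K a53 (M a85 (L l277 (F (T t90 (L l245 (L l295 (T t99 (L l239 (L l245 (T t568 (K a231 (M a247 (F (T t90 (L l31 (L l386 (L l494 (T t5650 N))))))) (K a247 (M a231 (F (T t90 (L l265 (L l295 (T t365 (L l239 (L l245 (L l278 (T t568 N)))))))))) N)))))))))))) (K a26 (M a149 (L l277 (F (T t11 (L l18 (T t175 (L l18 (L l54 (L l229 (T t14 (K a231 (M a247 (F (T t13 (L l54 (L l239 (L l314 (T t5648 N))))))) (K a247 (M a231 (F (T t13 (L l54 (L l229 (T t5649 N)))))) N)))))))))))) (K a42 (M a85 (L l277 (F (L l295 (T t364 (L l390 (T t50 (L l28 (L l245 (T t100 (K a231 (M a247 (F (L l390 (T t50 (L l56 (L l386 (L l494 (T t5650 N)))))))) (K a247 (M a231 (F (L l265 (L l295 (T t365 (L l390 (L l422 (T t50 (L l28 (L l245 (T t100 N))))))))))) N)))))))))))) (K a58 (M a85 (L l277 (F (T t90 (L l245 (L l314 (L l494 (T t509 (L l54 (L l239 (L l245 (T t568 (K a231 (M a247 (F (T t90 (L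 l386 (L l494 (T t5650 N)))))) (K a247 (M a231 (F (T t90 (L l245 (L l265 (L l295 (L l494 (T t360 (L l54 (L l239 (L l245 (L l278 (T t568 N))))))))))))) N)))))))))))))) (K a15 (M a85 (L l277 (F (T t567 (L l239 (L l245 (T t568 (K a231 (M a247 (F (T t4539 (L l63 (L l386 (L l494 (T t5650 N))))))) (K a247 (M a231 (F (T t4539 (L l265 (L l295 (L l469 (T t365 (L l245 (T t100 N))))))))) N))))))))) (K a231 (M a247 (F (T t1 (T t2 (T t3 (T t0 (K a16 (M a4 (F (L l493 (T t519 (L l386 (T t5651 N)))))) (K a32 (M a4 (F (L l28 (T t129 (L l386 (L l404 (T t5651 N))))))) (K a21 (M a52 (F (T t1429 (T t5652 N)))) (K a37 (M a4 (F (L l28 (T t129 (L l386 (T t5651 N)))))) (K a53 (M a4 (F (T t518 (T t5653 N)))) (K a26 (M a4 (F (L l54 (T t129 (L l245 (L l295 (L l386 (T t5654 N)))))))) (K a42 (M a52 (F (L l54 (L l493 (T t83 (L l235 (L l301 (L l314 (L l390 (T t5655 N)))))))))) (K a58 (M a4 (F (T t518 (L l54 (T t5653 N))))) (K a15 (M a4 (F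 (T t518 (T t5653 N)))) N))))))))))))))) (K a247 (M a231 (F (T t1 (T t2 (T t3 (T t0 (K a16 (M a149 (F (T t4854 (L l229 (T t5649 N))))) (K a32 (M a149 (F (T t175 (L l24 (L l229 (T t5649 N)))))) (K a21 (M a36 (F (L l18 (T t5656 (L l229 (L l458 (T t5657 N))))))) (K a37 (M a36 (F (T t5656 (L l229 (L l458 (T t5657 N)))))) (K a53 (M a101 (F (L l245 (T t5658 (L l47 (T t1477 N)))))) (K a26 (M a36 (F (L l18 (T t5656 (L l54 (L l229 (L l458 (T t5657 N)))))))) (K a42 (M a36 (F (L l56 (T t5656 (L l54 (L l229 (L l458 (T t5657 N)))))))) (K a58 (M a170 (F (T t317 (T t5659 N)))) (K a15 (M a36 (F (L l3 (T t5656 (L l229 (L l339 (L l458 (T t5657 N)))))))) N))))))))))))))) N))))))))))))))))))⟩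
def e0_63__199_211 : Ent 4 := ⟨[a0, a63], [a199, a216], (M a85 (F (T t88 (T t52 (T t89 (T t90 (K a64 (M a16 (F (T t97 (L l84 (L l314 (L l494 (T t96 (L l116 (T t98 N))))))))) (K a192 (M a16 (F (T t260 (L l339 (T t97 (L l296 (T t98 N))))))) (K a21 (M a48 (F (T t99 (L l298 (T t50 (L l47 (T t100 N))))))) (K a149 (M a16 (F (T t112 (L l235 (L l314 (T t173 (L l170 (T t102 N)))))))) (K a213 (Fr a170 a255 l476 (Fr a42 a21 l68 (Fr a106 a234 l390 (Fr a192 a149 l519 (V t581))))) (K a42 (M a48 (F (T t364 (L l298 (L l390 (T t50 (L l28 (T t100 N)))))))) (K a106 (M a48 (F (T t1 (L l104 (L l314 (L l494 (T t509 (L l298 (L l390 (T t50 N)))))))))) (K a170 (M a16 (F (L l404 (T t113 (L l390 (T t98 (L l390 (L l404 (T t97 (L l229 (L l235 (L l404 (T t174 N))))))))))))) (K a255 (M a16 (F (T t112 (L l289 (T t113 (L l289 (L l296 (T t98 N)))))))) N)))))))))))))))⟩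
def e0_63__199_212 : Ent 4 := ⟨[a0, a63], [a199, a217], (M a149 (F (T t177 (L l243 (T t5 (L l284 (T t175 (L l243 (T t176 (K a192 (M a53 (F (T t178 (L l229 (L l236 (T t179 (L l229 (L l236 (L l243 (L l296 (L l314 (T t180 N)))))))))))) (K a21 (M a48 (F (T t1267 (L l18 (L l229 (T t14 (T t13 N))))))) (K a85 (M a16 (F (T t97 (L l144 (T t190 (L l94 (T t278 N))))))) (K a213 (Fr a106 a192 l519 (Fr a42 a21 l68 (Fr a170 a234 l390 (Fr a255 a85 l476 (V t582))))) (K a42 (M a48 (F (T t11 (L l390 (T t13 (L l54 (L l229 (T t14 N)))))))) (K a106 (M a48 (F (T t1 (L l229 (L l498 (T t14 (L l229 (L l243 (L l390 (L l498 (T t6 (L l243 (L l390 (T t26 N)))))))))))))) (K a170 (M a48 (F (T t11 (L l462 (T t1 (L l390 (T t13 N))))))) (K a191 (M a204 (F (T t1283 (L l243 (T t1066 N))))) (K a255 (M a16 (F (T t112 (L l266 (T t190 (L l243 (L l289 (L l296 (T t191 N))))))))) N))))))))))))))))))⟩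
def e0_63__199_213 : Ent 4 := ⟨[a0, a63], [a199, a218], (M a85 (F (T t90 (L l246 (T t88 (L l282 (T t52 (L l246 (T t89 (K a64 (M a48 (F (T t2 (L l84 (L l246 (L l314 (L l494 (T t509 (L l303 (T t50 N)))))))))) (K a192 (M a48 (F (T t610 (L l246 (L l314 (L l494 (T t509 (L l268 (L l303 (T t50 N)))))))))) (K a21 (M a48 (F (L l246 (T t99 (L l47 (T t567 (L l47 (L l246 (L l282 (T t100 N)))))))))) (K a149 (M a48 (F (T t2 (L l246 (T t99 (L l220 (L l303 (T t50 N)))))))) (K a213 (Fr a170 a255 l476 (Fr a42 a21 l68 (Fr a106 a234 l390 (Fr a192 a149 l519 (V t581))))) (K a42 (M a48 (F (T t364 (L l390 (T t567 (L l28 (L l246 (L l282 (T t100 N))))))))) (K a106 (M a48 (F (T t1 (L l104 (L l246 (L l314 (L l494 (T t509 (L l303 (L l390 (T t50 N))))))))))) (K a170 (M a4 (F (L l390 (L l464 (T t129 (L l246 (L l277 (L l390 (T t131 (L l277 (L l464 (T t130 (L l277 (L l464 (T t938 N))))))))))))))) (K a255 (M a4 (F (T t129 (L l265 (L l277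 (T t130 (L l246 (L l265 (L l277 (L l296 (T t131 N))))))))))) N))))))))))))))))))⟩
def e0_63__199_214 : Ent 4 := ⟨[a0, a63], [a199, a219], (M a85 (F (T t88 (T t52 (T t89 (T t90 (K a64 (M a12 (F (T t124 (L l277 (T t572 N))))) (K a192 (M a16 (F (T t112 (L l245 (L l314 (L l494 (T t96 (L l245 (L l296 (T t98 N)))))))))) (K a21 (M a48 (F (L l245 (T t99 (T t50 (L l47 (L l245 (T t100 N)))))))) (K a149 (M a16 (F (T t112 (L l235 (L l245 (L l301 (L l314 (T t173 (L l170 (L l356 (T t102 N))))))))))) (K a213 (Fr a170 a255 l476 (Fr a42 a21 l68 (Fr a106 a234 l390 (Fr a192 a149 l519 (V t581))))) (K a42 (M a48 (F (T t364 (L l390 (T t50 (L l28 (L l245 (T t100 N)))))))) (K a106 (M a48 (F (T t364 (T t1 (L l390 (T t50 N)))))) (K a170 (M a16 (F (L l390 (L l404 (T t97 (L l245 (L l390 (T t98 (L l245 (L l404 (T t113 (L l229 (L l235 (L l245 (L l301 (L l404 (T t174 N))))))))))))))))) (K a255 (M a16 (F (T t112 (L l245 (L l289 (T t113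 (L l245 (L l289 (L l296 (T t98 N)))))))))) N)))))))))))))))⟩
def e0_63__199_215 : Ent 4 := ⟨[a0, a63], [a199, a220], (M a149 (F (T t5 (T t175 (T t176 (T t177 (K a192 (M a53 (F (T t178 (L l229 (L l236 (L l364 (T t179 (L l229 (L l236 (L l296 (L l314 (T t180 N)))))))))))) (K a21 (M a48 (F (T t1267 (L l18 (L l229 (L l364 (T t14 (T t13 N)))))))) (K a85 (M a16 (F (L l363 (T t97 (L l144 (L l242 (T t190 (L l94 (T t278 N))))))))) (K a213 (Fr a106 a192 l519 (Fr a42 a21 l68 (Fr a170 a234 l390 (Fr a255 a85 l476 (V t582))))) (K a42 (M a48 (F (T t11 (L l390 (T t13 (L l54 (L l229 (L l364 (T t14 N))))))))) (K a106 (M a48 (F (T t1 (L l229 (L l364 (L l498 (T t14 (L l229 (L l390 (L l498 (T t6 (L l241 (L l390 (T t26 N)))))))))))))) (K a170 (M a48 (F (T t11 (L l462 (T t1 (L l390 (T t13 N))))))) (K a191 (M a48 (F (T t13 (L l229 (T t6 N))))) (K a255 (M a16 (F (T t112 (L l242 (L l266 (T t190 (L l241 (L l289 (L l296 (T t191 N))))))))))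 N)))))))))))))))⟩
def e0_63__199_216 : Ent 4 := ⟨[a0, a63], [a199, a221], (M a48 (F (T t1 (T t2 (T t3 (T t0 (K a16 (M a60 (F (T t43 (T t64 (T t65 N))))) (K a32 (M a60 (F (T t64 (T t67 (L l24 (L l28 (T t65 N))))))) (K a21 (M a192 (F (T t837 (L l47 (L l235 (L l347 (T t20 (L l47 (L l241 (L l347 (T t29 N))))))))))) (K a37 (M a192 (F (T t19 (L l47 (L l235 (T t20 (L l290 (T t21 N)))))))) (K a53 (M a192 (F (T t19 (L l290 (L l491 (T t21 (L l243 (T t31 N)))))))) (K a26 (M a192 (F (T t837 (L l235 (T t20 (L l290 (T t21 N))))))) (K a42 (M a192 (F (T t19 (L l235 (T t20 (L l28 (L l241 (T t29 N)))))))) (K a58 (M a192 (F (T t19 (L l290 (T t21 (L l54 (L l243 (L l498 (T t31 N))))))))) (K a15 (M a85 (F (T t567 (L l241 (L l243 (T t568 N)))))) N)))))))))))))))⟩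
def e0_63__199_217 : Ent 4 := ⟨[a0, a63], [a199, a222], (M a85 (F (T t88 (T t52 (T t89 (T t90 (K a64 (M a16 (F (T t97 (L l84 (L l241 (L l314 (L l494 (T t96 (L l116 (L l241 (T t98 N))))))))))) (K a192 (M a16 (F (T t112 (L l241 (L l314 (L l494 (T t96 (L l241 (L l296 (T t98 N)))))))))) (K a21 (M a48 (F (L l241 (T t99 (T t50 (L l47 (L l241 (T t100 N)))))))) (K a149 (M a16 (F (T t112 (L l235 (L l241 (L l291 (L l314 (T t173 (L l170 (L l366 (T t102 N))))))))))) (K a213 (Fr a170 a255 l476 (Fr a42 a21 l68 (Fr a106 a234 l390 (Fr a192 a149 l519 (V t581))))) (K a42 (M a48 (F (T t364 (L l390 (T t50 (L l28 (L l241 (T t100 N)))))))) (K a106 (M a48 (F (T t364 (T t1 (L l390 (T t50 N)))))) (K a170 (M a16 (F (L l390 (L l404 (T t97 (L l241 (L l390 (T t98 (L l241 (L l404 (T t113 (L l229 (L l235 (L l241 (L l291 (L l404 (T t174 N))))))))))))))))) (K a255 (M a16 (F (T t112 (L l241 (L l289 (T t113 (L l241 (L l289 (L l296 (T t98 N))))))))))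 N)))))))))))))))⟩
def e0_63__199_218 : Ent 4 := ⟨[a0, a63], [a199, a223], (M a149 (F (T t175 (L l246 (T t5 (L l246 (L l289 (T t176 (L l289 (T t177 (K a192 (M a53 (F (T t178 (L l229 (L l236 (L l289 (L l368 (T t179 (L l229 (L l236 (L l246 (L l296 (L l314 (T t180 N)))))))))))))) (K a21 (M a48 (F (L l229 (T t4 (T t13 (L l18 (L l229 (L l289 (L l368 (T t14 N)))))))))) (K a85 (M a16 (F (L l361 (T t97 (L l144 (L l246 (T t190 (L l94 (T t278 N))))))))) (K a213 (Fr a106 a192 l519 (Fr a42 a21 l68 (Fr a170 a234 l390 (Fr a255 a85 l476 (V t582))))) (K a42 (M a48 (F (T t11 (L l390 (T t13 (L l54 (L l229 (L l289 (L l368 (T t14 N)))))))))) (K a106 (M a48 (F (T t1 (L l104 (L l144 (L l246 (L l289 (L l361 (L l390 (T t1285 (L l229 (L l289 (L l368 (L l498 (T t14 N))))))))))))))) (K a170 (M a48 (F (T t11 (L l462 (T t1 (L l390 (T t13 N))))))) (K a191 (M a16 (F (T t112 (L l246 (T t190 (T t278 N)))))) (K a255 (M a207 (F (T t2337 (L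 l229 (L l314 (L l469 (T t1287 (L l246 (L l296 (T t1288 (L l361 (L l494 (T t1289 N))))))))))))) N)))))))))))))))))))⟩
def e0_63__199_219 : Ent 4 := ⟨[a0, a63], [a199, a224], (M a60 (F (T t67 (T t43 (T t68 (T t69 (K a20 (M a48 (F (T t2 (T t64 (L l11 (L l313 (T t235 N))))))) (K a40 (M a48 (F (T t64 (T t1 (L l52 (L l313 (T t235 N))))))) (K a21 (M a192 (F (T t77 (L l235 (L l347 (T t73 (L l277 (L l347 (T t74 N))))))))) (K a41 (M a192 (F (T t77 (L l65 (L l256 (T t35 (L l235 (T t73 N)))))))) (K a61 (M a192 (F (T t77 (L l65 (L l256 (L l515 (T t35 (L l406 (L l411 (L l493 (T t80 N))))))))))) (K a22 (M a192 (F (T t77 (T t21 (L l235 (T t73 N)))))) (K a42 (M a192 (F (T t77 (L l235 (T t73 (L l22 (L l277 (T t74 N)))))))) (K a62 (M a192 (F (T t77 (L l256 (T t35 (L l66 (L l406 (L l411 (L l493 (L l516 (T t80 N))))))))))) (K a3 (M a192 (F (T t614 (L l252 (L l477 (T t79 (L l256 (L l475 (T t35 N))))))))) N)))))))))))))))⟩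
def e0_63__199_220 : Ent 4 := ⟨[a0, a63], [a199, a225], (M a149 (F (T t5 (T t175 (T t176 (T t177 (K a192 (M a53 (F (T t178 (L l229 (L l236 (T t179 (L l229 (L l236 (L l296 (L l314 (T t180 N))))))))))) (K a21 (M a48 (F (T t1267 (L l18 (L l229 (T t14 (L l273 (T t13 N)))))))) (K a85 (M a16 (F (T t97 (L l144 (L l273 (T t190 (L l94 (T t278 N)))))))) (K a213 (Fr a106 a192 l519 (Fr a42 a21 l68 (Fr a170 a234 l390 (Fr a255 a85 l476 (V t582))))) (K a42 (M a48 (F (T t11 (L l273 (L l390 (T t13 (L l54 (L l229 (T t14 N))))))))) (K a106 (M a48 (F (T t1 (L l229 (L l498 (T t14 (L l229 (L l390 (L l498 (T t6 (L l390 (T t26 N)))))))))))) (K a170 (M a48 (F (T t11 (L l462 (T t1 (L l273 (L l390 (T t13 N)))))))) (K a191 (M a12 (F (T t648 (L l269 (T t960 N))))) (K a255 (M a16 (F (T t112 (L l266 (L l273 (T t190 (L l289 (L l296 (T t191 N))))))))) N)))))))))))))))⟩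
def e0_63__199_221 : Ent 4 := ⟨[a0, a63], [a199, a226], (M a85 (F (T t168 (L l272 (T t88 (L l254 (T t52 (L l272 (T t90 (K a64 (M a12 (F (T t124 (L l277 (T t572 N))))) (K a192 (M a243 (F (L l296 (T t3601 (L l489 (T t2088 (L l296 (L l334 (L l378 (T t2089 (L l314 (L l378 (L l408 (T t2339 N)))))))))))))) (K a21 (M a48 (F (T t99 (T t50 (L l47 (T t100 N)))))) (K a149 (M a16 (F (T t112 (L l235 (L l314 (T t173 (L l170 (T t102 N)))))))) (K a213 (Fr a170 a255 l476 (Fr a42 a21 l68 (Fr a106 a234 l390 (Fr a192 a149 l519 (V t581))))) (K a42 (M a48 (F (T t364 (L l390 (T t50 (L l28 (T t100 N))))))) (K a106 (M a166 (F (L l132 (T t5660 (L l277 (L l390 (T t2020 (L l132 (L l390 (T t2341 (L l272 (L l277 (L l501 (T t2342 N)))))))))))))) (K a170 (M a16 (F (L l404 (T t113 (L l390 (T t98 (L l390 (L l404 (T t97 (L l229 (L l235 (L l404 (T t174 N))))))))))))) (K a255 (M a16 (F (T t112 (L l289 (T t113 (L l289 (L l296 (T t98 N))))))))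 N))))))))))))))))))⟩
def e0_63__199_222 : Ent 4 := ⟨[a0, a63], [a199, a227], (M a85 (F (T t88 (T t52 (T t89 (T t90 (K a64 (M a48 (F (T t50 (L l380 (T t568 N))))) (K a192 (M a16 (F (L l380 (T t260 (T t966 (L l339 (L l380 (T t97 N)))))))) (K a21 (M a48 (F (L l380 (T t99 (T t50 (L l47 (L l380 (T t100 N)))))))) (K a149 (M a16 (F (L l380 (T t112 (L l314 (T t666 (L l170 (T t102 N)))))))) (K a213 (Fr a170 a255 l476 (Fr a42 a21 l68 (Fr a106 a234 l390 (Fr a192 a149 l519 (V t581))))) (K a42 (M a48 (F (L l255 (T t364 (L l390 (T t50 (L l28 (L l380 (T t100 N))))))))) (K a106 (M a48 (F (T t1 (L l104 (L l314 (L l380 (L l494 (T t509 (L l390 (T t50 N)))))))))) (K a170 (M a16 (F (L l380 (L l404 (T t113 (L l390 (T t98 (L l380 (L l390 (L l404 (T t97 (L l229 (L l235 (L l380 (L l404 (T t174 N)))))))))))))))) (K a255 (M a16 (F (L l380 (T t112 (L l289 (L l296 (T t98 (L l289 (L l380 (T t113 N)))))))))) N)))))))))))))))⟩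
def e0_63__199_223 : Ent 4 := ⟨[a0, a63], [a199, a228], (M a85 (F (T t88 (T t52 (T t89 (T t90 (K a64 (M a16 (F (T t97 (L l84 (L l314 (L l494 (T t96 (L l116 (T t98 N))))))))) (K a192 (M a16 (F (T t112 (L l314 (L l494 (T t96 (L l296 (T t98 N)))))))) (K a21 (M a48 (F (T t99 (L l298 (T t50 (L l47 (T t100 N))))))) (K a149 (M a16 (F (T t112 (L l235 (L l314 (T t173 (L l170 (T t102 N)))))))) (K a213 (Fr a170 a255 l476 (Fr a42 a21 l68 (Fr a106 a234 l390 (Fr a192 a149 l519 (V t581))))) (K a42 (M a48 (F (T t364 (L l298 (L l390 (T t50 (L l28 (T t100 N)))))))) (K a106 (M a48 (F (T t1 (L l104 (L l314 (L l494 (T t509 (L l298 (L l390 (T t50 N)))))))))) (K a170 (M a16 (F (L l404 (T t113 (L l390 (T t98 (L l390 (L l404 (T t97 (L l229 (L l235 (L l404 (T t174 N))))))))))))) (K a255 (M a16 (F (T t112 (L l289 (T t113 (L l289 (L l296 (T t98 N)))))))) N)))))))))))))))⟩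
def e0_63__199_224 : Ent 4 := ⟨[a0, a63], [a199, a229], (M a149 (L l279 (F (T t177 (L l275 (T t5 (L l256 (T t175 (L l275 (T t176 (K a192 (M a23 (L l279 (F (T t1077 (L l292 (T t182 (L l275 (L l292 (L l296 (L l493 (T t1078 (K a244 (M a214 (F (T t1079 (L l274 (L l292 (T t182 (L l274 (L l275 (L l292 (L l296 (L l454 (L l493 (T t1078 N))))))))))))) (K a214 (M a244 (F (T t1079 (L l239 (L l292 (L l383 (T t5661 N))))))) N))))))))))))) (K a21 (M a240 (L l279 (F (T t4727 (T t1091 (T t1207 (K a244 (M a214 (F (T t5662 (T t1091 (T t1207 N))))) (K a214 (M a244 (F (T t5662 (L l50 (L l314 (T t5663 N)))))) N)))))))) (K a85 (M a12 (L l279 (F (T t958 (T t122 (L l144 (T t648 (K a244 (M a214 (F (T t650 (T t122 (L l144 (T t648 N)))))) (K a214 (M a244 (F (T t650 (L l87 (T t3160 N))))) N))))))))) (K a213 (Fr a106 a192 l519 (Fr a42 a21 l68 (Fr a170 a234 l390 (Fr a255 a85 l476 (V t582))))) (K a42 (M a240 (L l279 (F (T t2299 (L l390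 (T t1091 (T t1207 (K a244 (M a214 (F (T t4727 (L l390 (T t1091 (T t1207 N)))))) (K a214 (M a244 (F (T t4727 (L l314 (T t5663 N))))) N))))))))) (K a106 (M a23 (L l279 (F (L l393 (T t182 (L l275 (L l390 (L l493 (T t1078 (L l390 (L l393 (T t1941 (L l393 (T t3707 (K a244 (M a214 (F (L l390 (L l393 (T t1941 (L l98 (L l253 (L l274 (T t5664 (L l274 (L l275 (L l390 (L l454 (L l493 (T t1078 (L l274 (L l393 (T t182 N)))))))))))))))))) (K a214 (M a244 (F (L l390 (L l393 (T t1941 (L l239 (L l383 (L l411 (T t5661 N))))))))) N)))))))))))))))) (K a170 (M a48 (L l279 (F (T t11 (L l462 (T t1 (L l303 (L l390 (T t13 (K a244 (M a214 (F (T t11 (L l462 (T t1 (L l262 (L l303 (L l390 (T t13 N))))))))) (K a214 (M a244 (F (T t11 (L l462 (T t1 (L l303 (L l390 (T t13 N)))))))) N))))))))))) (K a191 (M a240 (L l279 (F (T t2299 (T t1091 (L l275 (T t1092 (K a244 (M a214 (F (T t962 (L l275 (T t2009 N))))) (K a214 (M a244 (F (T t5662 (L l314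 (T t5663 N))))) N))))))))) (K a255 (M a208 (L l279 (F (L l256 (T t2180 (T t1833 (L l256 (L l440 (T t1277 (K a244 (M a214 (F (L l256 (T t2180 (T t1833 (L l256 (L l440 (T t1277 N)))))))) (K a214 (M a244 (F (T t1833 (L l229 (L l256 (T t5665 N)))))) N))))))))))) (K a244 (M a214 (F (T t177 (L l277 (L l459 (T t5666 (L l277 (T t5667 (K a21 (M a255 (F (T t5668 (L l275 (L l277 (T t5669 N)))))) (K a85 (M a16 (F (T t97 (L l144 (L l262 (L l303 (T t190 (L l94 (T t278 N))))))))) (K a213 (Fr a106 a192 l519 (Fr a42 a21 l68 (Fr a170 a234 l390 (Fr a255 a85 l476 (V t582))))) (K a170 (Fr a21 a42 l68 (Fr a213 a85 l347 (Fr a192 a106 l519 (Fr a234 a255 l296 (V t5697))))) N)))))))))))) (K a214 (M a244 (F (T t177 (L l239 (L l275 (T t5 (L l256 (L l294 (T t175 (L l239 (L l275 (T t176 (K a192 (M a240 (F (T t5646 (L l239 (L l275 (L l296 (L l339 (T t5671 N)))))))) (K a21 (M a240 (F (T t5662 (L l50 (L l314 (T t5663 N)))))) (K a85 (M a240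 (F (T t4820 (L l314 (L l458 (T t5663 N)))))) (K a213 (Fr a106 a192 l519 (Fr a42 a21 l68 (Fr a170 a234 l390 (Fr a255 a85 l476 (V t582))))) (K a42 (M a240 (F (T t4727 (L l314 (T t5663 N))))) (K a106 (M a240 (F (T t5646 (L l130 (L l249 (L l313 (T t5672 N))))))) (K a170 (M a240 (F (T t4820 (L l174 (L l314 (T t5663 N)))))) (K a191 (M a240 (F (T t5662 (L l314 (T t5663 N))))) (K a255 (M a208 (F (T t1833 (L l229 (L l256 (T t5665 N)))))) N))))))))))))))))))))) N)))))))))))))))))))))⟩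
def e0_63__199_225 : Ent 4 := ⟨[a0, a63], [a199, a230], (M a85 (F (T t90 (L l278 (T t88 (L l254 (T t52 (L l278 (T t89 (K a64 (M a16 (F (T t97 (L l84 (L l314 (L l494 (T t96 (L l116 (L l278 (T t98 N)))))))))) (K a192 (M a16 (F (T t112 (L l314 (L l494 (T t96 (L l278 (L l296 (T t98 N))))))))) (K a21 (M a48 (F (T t99 (T t50 (L l47 (T t100 N)))))) (K a149 (M a16 (F (T t112 (L l235 (L l314 (T t173 (L l170 (T t102 N)))))))) (K a213 (Fr a170 a255 l476 (Fr a42 a21 l68 (Fr a106 a234 l390 (Fr a192 a149 l519 (V t581))))) (K a42 (M a48 (F (T t364 (L l390 (T t50 (L l28 (T t100 N))))))) (K a106 (M a48 (F (T t1 (L l104 (L l314 (L l494 (T t509 (L l390 (T t50 N))))))))) (K a170 (M a16 (F (L l404 (T t113 (L l278 (L l390 (T t98 (L l390 (L l404 (T t97 (L l229 (L l235 (L l404 (T t174 N)))))))))))))) (K a255 (M a16 (F (T t112 (L l289 (T t113 (L l278 (L l289 (L l296 (T t98 N))))))))) N))))))))))))))))))⟩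
def e0_63__199_226 : Ent 4 := ⟨[a0, a63], [a199, a231], (M a60 (L l277 (F (T t67 (T t43 (T t68 (T t69 (K a20 (M a85 (L l277 (F (T t168 (T t114 (T t1344 (K a215 (M a247 (F (T t3589 (L l239 (T t1344 N))))) (K a247 (M a215 (F (T t5673 (T t90 (L l278 (T t1344 N)))))) N)))))))) (K a40 (M a255 (L l277 (F (T t2963 (L l22 (L l392 (T t2142 (T t2964 (K a215 (M a247 (F (T t2969 (L l314 (L l392 (T t5674 N)))))) (K a247 (M a215 (F (L l392 (T t5675 (T t2969 N))))) N)))))))))) (K a21 (M a255 (L l277 (F (T t2963 (L l11 (L l235 (L l255 (L l347 (T t1634 (L l11 (L l255 (L l347 (T t1567 (K a215 (M a247 (F (T t1633 (L l50 (L l314 (T t5674 N)))))) (K a247 (M a215 (F (T t5676 (L l65 (T t2969 N))))) N))))))))))))))) (K a41 (M a12 (L l277 (F (T t408 (L l22 (T t151 (L l22 (L l494 (T t409 (K a215 (M a247 (F (T t680 (L l22 (L l350 (T t5677 N)))))) (K a247 (M a215 (F (T t680 (L l22 (L l389 (L l457 (L l458 (T t5678 N)))))))) N)))))))))))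 (K a61 (M a85 (L l277 (F (T t88 (L l255 (L l431 (T t1563 (T t5679 (K a215 (M a247 (F (T t90 (L l386 (L l494 (T t5680 N)))))) (K a247 (M a215 (F (T t5681 (T t90 N)))) N)))))))))) (K a22 (M a255 (L l277 (F (T t1565 (L l11 (L l235 (L l255 (T t1634 (L l66 (T t2142 (K a215 (M a247 (F (T t2969 (L l314 (T t5674 N))))) (K a247 (M a215 (F (T t5676 (T t2969 N)))) N)))))))))))) (K a42 (M a255 (L l277 (F (T t1565 (L l235 (L l255 (T t1634 (L l66 (L l255 (T t1567 (K a215 (M a247 (F (T t2969 (L l314 (L l390 (T t5674 N)))))) (K a247 (M a215 (F (L l390 (T t5676 (L l255 (T t5682 N)))))) N)))))))))))) (K a62 (M a85 (L l277 (F (T t52 (L l255 (T t1563 (L l66 (T t5683 (K a215 (M a247 (F (T t90 (L l386 (L l494 (T t5680 N)))))) (K a247 (M a215 (F (T t5681 (T t90 N)))) N)))))))))) (K a3 (M a48 (L l277 (F (T t1543 (L l7 (T t1 (L l43 (T t64 (K a215 (M a247 (F (T t610 (L l386 (T t5684 N))))) (K a247 (M a215 (F (T t138 (L l458 (T t5685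 N))))) N)))))))))) (K a215 (M a247 (F (T t68 (L l350 (T t67 (L l349 (T t43 (T t69 (K a20 (M a85 (F (T t3589 (L l239 (T t1344 N))))) (K a40 (M a4 (F (L l52 (T t1613 (L l22 (L l239 (L l295 (L l386 (T t5686 N))))))))) (K a21 (M a52 (F (T t5687 (L l65 (T t5688 N))))) (K a41 (M a4 (F (T t5689 (L l22 (L l239 (L l295 (L l386 (T t5686 N)))))))) (K a61 (M a48 (F (T t2 (L l386 (T t5684 N))))) (K a22 (M a4 (F (T t1624 (L l48 (L l66 (T t5653 N)))))) (K a42 (M a52 (F (T t5688 (L l22 (L l314 (T t3773 N)))))) (K a62 (M a48 (F (T t1 (L l386 (L l444 (T t5684 N)))))) (K a3 (M a48 (F (T t610 (L l386 (T t5684 N))))) N))))))))))))))))) (K a247 (M a215 (F (T t67 (L l458 (T t5690 (L l458 (T t5685 (K a20 (M a48 (F (T t70 (L l11 (T t1 (L l11 (L l14 (L l313 (L l457 (T t1419 N)))))))))) (K a40 (M a23 (F (L l22 (T t5691 (L l392 (L l457 (T t5692 N))))))) N))))))))) N))))))))))))))))))⟩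
def e0_63__199_227 : Ent 4 := ⟨[a0, a63], [a199, a232], (M a48 (F (T t1 (T t2 (T t3 (T t0 (K a16 (M a60 (F (T t64 (L l14 (L l18 (L l393 (T t67 (L l388 (T t65 N))))))))) (K a32 (M a60 (F (T t64 (L l393 (T t67 (L l24 (L l28 (L l388 (T t65 N))))))))) (K a21 (M a192 (F (T t837 (L l47 (L l235 (L l347 (T t20 (L l47 (L l347 (T t29 N)))))))))) (K a37 (M a192 (F (T t837 (L l47 (L l235 (T t20 (T t21 N))))))) (K a53 (M a192 (F (T t837 (L l491 (T t21 (L l393 (T t31 N))))))) (K a26 (M a192 (F (T t837 (L l235 (T t20 (T t21 N)))))) (K a42 (M a192 (F (T t27 (L l235 (T t20 (L l28 (T t29 N))))))) (K a58 (M a192 (F (T t27 (T t21 (L l54 (L l393 (L l498 (T t31 N)))))))) (K a15 (M a192 (F (T t33 (L l483 (T t27 (L l469 (T t21 N))))))) N)))))))))))))))⟩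
def e0_63__199_228 : Ent 4 := ⟨[a0, a63], [a199, a233], (M a85 (F (T t90 (L l293 (T t88 (L l250 (T t52 (L l293 (T t89 (K a64 (M a16 (F (T t97 (L l84 (L l314 (L l494 (T t96 (L l116 (L l293 (T t98 N)))))))))) (K a192 (M a16 (F (T t112 (L l314 (L l494 (T t96 (L l293 (L l296 (T t98 N))))))))) (K a21 (M a48 (F (T t99 (T t50 (L l47 (T t100 N)))))) (K a149 (M a16 (F (T t112 (L l235 (L l314 (T t173 (L l170 (T t102 N)))))))) (K a213 (Fr a170 a255 l476 (Fr a42 a21 l68 (Fr a106 a234 l390 (Fr a192 a149 l519 (V t581))))) (K a42 (M a48 (F (T t364 (L l390 (T t50 (L l28 (T t100 N))))))) (K a106 (M a48 (F (T t1 (L l104 (L l314 (L l494 (T t509 (L l390 (T t50 N))))))))) (K a170 (M a16 (F (L l404 (T t113 (L l293 (L l390 (T t98 (L l390 (L l404 (T t97 (L l229 (L l235 (L l404 (T t174 N)))))))))))))) (K a255 (M a16 (F (T t112 (L l289 (T t113 (L l289 (L l293 (L l296 (T t98 N))))))))) N))))))))))))))))))⟩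
def e0_63__199_229 : Ent 4 := ⟨[a0, a63], [a199, a234], (M a48 (F (T t1 (L l390 (T t2 (T t3 (L l390 (T t0 (K a16 (M a60 (F (T t64 (L l14 (L l18 (T t67 (L l390 (T t65 N)))))))) (K a32 (M a60 (F (T t64 (T t67 (L l24 (L l28 (L l390 (T t65 N)))))))) (K a21 (M a192 (F (T t837 (L l47 (L l235 (L l282 (L l347 (T t20 (L l47 (L l282 (L l347 (T t29 N)))))))))))) (K a37 (M a192 (F (T t837 (L l47 (L l235 (L l282 (T t20 (L l390 (T t202 N))))))))) (K a53 (M a192 (F (T t27 (L l390 (T t202 (L l390 (T t577 N))))))) (K a26 (M a192 (F (T t27 (L l235 (L l282 (T t20 (L l390 (T t202 N)))))))) (K a42 (M a106 (F (T t2348 (L l28 (L l282 (T t579 (T t551 N))))))) (K a58 (M a192 (F (T t27 (L l390 (L l498 (T t202 (L l390 (L l498 (T t577 N))))))))) (K a15 (M a192 (F (T t55 (L l235 (L l282 (L l325 (T t20 (L l390 (L l469 (T t202 N)))))))))) N)))))))))))))))))⟩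
def e0_63__199_230 : Ent 4 := ⟨[a0, a63], [a199, a235], (M a48 (F (T t1 (T t2 (T t3 (T t0 (K a16 (M a60 (F (T t64 (L l14 (L l18 (L l391 (T t67 (L l392 (T t65 N))))))))) (K a32 (M a60 (F (T t64 (L l391 (T t67 (L l24 (L l28 (L l392 (T t65 N))))))))) (K a21 (M a192 (F (T t837 (L l47 (L l235 (L l347 (T t20 (L l47 (L l347 (T t29 N)))))))))) (K a37 (M a192 (F (T t19 (L l47 (L l235 (T t20 (L l295 (T t21 N)))))))) (K a53 (M a192 (F (T t19 (L l295 (L l491 (T t21 (T t31 N))))))) (K a26 (M a192 (F (T t837 (L l235 (T t20 (L l295 (T t21 N))))))) (K a42 (M a192 (F (T t19 (L l235 (T t20 (L l28 (T t29 N))))))) (K a58 (M a192 (F (T t19 (L l295 (T t21 (L l54 (L l498 (T t31 N)))))))) (K a15 (M a192 (F (T t1681 (L l483 (T t27 (L l235 (L l325 (T t20 N)))))))) N)))))))))))))))⟩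
def e0_63__199_231 : Ent 4 := ⟨[a0, a63], [a199, a236], (M a85 (F (T t88 (T t52 (T t89 (T t90 (K a64 (M a48 (F (T t50 (L l400 (T t568 N))))) (K a192 (M a16 (F (L l400 (T t260 (T t966 (L l339 (L l400 (T t97 N)))))))) (K a21 (M a48 (F (L l400 (T t99 (T t50 (L l47 (L l400 (T t100 N)))))))) (K a149 (M a16 (F (L l400 (T t112 (L l314 (T t666 (L l170 (T t102 N)))))))) (K a213 (Fr a170 a255 l476 (Fr a42 a21 l68 (Fr a106 a234 l390 (Fr a192 a149 l519 (V t581))))) (K a42 (M a48 (F (L l251 (T t364 (L l390 (T t50 (L l28 (L l400 (T t100 N))))))))) (K a106 (M a48 (F (T t1 (L l104 (L l314 (L l400 (L l494 (T t509 (L l390 (T t50 N)))))))))) (K a170 (M a16 (F (L l400 (L l404 (T t113 (L l390 (T t98 (L l390 (L l400 (L l404 (T t97 (L l229 (L l235 (L l400 (L l404 (T t174 N)))))))))))))))) (K a255 (M a16 (F (L l400 (T t112 (L l289 (L l296 (T t98 (L l289 (L l400 (T t113 N)))))))))) N)))))))))))))))⟩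
def e0_63__199_232 : Ent 4 := ⟨[a0, a63], [a199, a237], (M a85 (F (T t88 (T t52 (T t89 (T t90 (K a64 (M a16 (F (T t97 (L l84 (L l314 (L l401 (L l494 (T t96 (L l116 (T t98 N)))))))))) (K a192 (M a16 (F (T t260 (L l339 (T t97 (L l296 (T t98 N))))))) (K a21 (M a48 (F (T t99 (T t50 (L l47 (T t100 N)))))) (K a149 (M a16 (F (T t112 (L l235 (L l291 (L l314 (T t173 (L l170 (T t102 N))))))))) (K a213 (Fr a170 a255 l476 (Fr a42 a21 l68 (Fr a106 a234 l390 (Fr a192 a149 l519 (V t581))))) (K a42 (M a48 (F (L l28 (T t99 (L l390 (T t50 (L l28 (T t100 N)))))))) (K a106 (M a48 (F (T t1 (L l104 (L l314 (L l401 (L l494 (T t509 (L l390 (T t50 N)))))))))) (K a170 (M a16 (F (L l404 (T t113 (L l390 (T t98 (L l390 (L l404 (T t97 (L l229 (L l235 (L l291 (L l404 (T t174 N)))))))))))))) (K a255 (M a16 (F (T t112 (L l289 (T t113 (L l289 (L l296 (T t98 N)))))))) N)))))))))))))))⟩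
def e0_63__199_233 : Ent 4 := ⟨[a0, a63], [a199, a238], (M a48 (F (T t1 (T t2 (T t3 (T t0 (K a16 (M a60 (F (T t43 (T t64 (T t65 N))))) (K a32 (M a60 (F (T t64 (T t67 (L l24 (L l28 (T t65 N))))))) (K a21 (M a192 (F (T t837 (L l47 (L l235 (L l347 (T t20 (L l47 (L l347 (T t29 N)))))))))) (K a37 (M a192 (F (T t19 (L l47 (L l235 (T t20 (L l290 (T t21 N)))))))) (K a53 (M a192 (F (T t19 (L l290 (L l491 (T t21 (T t31 N))))))) (K a26 (M a192 (F (T t837 (L l235 (T t20 (L l290 (T t21 N))))))) (K a42 (M a192 (F (T t19 (L l235 (T t20 (L l28 (T t29 N))))))) (K a58 (M a192 (F (T t19 (L l290 (T t21 (L l54 (L l498 (T t31 N)))))))) (K a15 (M a192 (F (T t1681 (L l483 (T t27 (L l235 (L l325 (T t20 N)))))))) N)))))))))))))))⟩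
def e0_63__199_234 : Ent 4 := ⟨[a0, a63], [a199, a239], (M a48 (F (T t1 (T t2 (L l397 (T t3 (L l404 (T t0 (K a16 (M a60 (F (T t43 (T t64 (T t65 N))))) (K a32 (M a170 (F (T t2102 (T t514 (L l256 (T t580 N)))))) (K a21 (M a192 (F (T t27 (L l47 (L l235 (L l289 (L l347 (T t20 (L l47 (L l289 (L l347 (L l404 (T t29 N))))))))))))) (K a37 (M a192 (F (T t837 (L l47 (L l235 (L l289 (T t20 (L l289 (T t21 N))))))))) (K a53 (M a192 (F (T t27 (L l289 (L l491 (T t21 (T t31 N))))))) (K a26 (M a192 (F (T t27 (L l235 (L l289 (T t20 (L l289 (T t21 N)))))))) (K a42 (M a192 (F (T t837 (L l235 (L l289 (T t20 (L l28 (L l289 (L l404 (T t29 N)))))))))) (K a58 (M a192 (F (T t837 (L l289 (T t21 (L l54 (L l498 (T t31 N)))))))) (K a15 (M a192 (F (T t1681 (L l483 (T t27 (L l235 (L l289 (L l325 (T t20 N))))))))) N)))))))))))))))))⟩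
def e0_63__199_235 : Ent 4 := ⟨[a0, a63], [a199, a240], (M a60 (F (T t116 (L l453 (T t67 (L l453 (T t43 (L l453 (T t68 (L l453 (T t69 (K a20 (M a48 (F (T t138 (L l11 (L l483 (T t1 (L l11 (L l313 (T t235 N))))))))) (K a40 (M a48 (F (T t48 (L l417 (T t64 (L l52 (L l313 (T t235 N)))))))) (K a21 (M a192 (F (T t2647 (L l235 (L l273 (L l347 (T t73 (L l277 (L l347 (T t74 N)))))))))) (K a41 (M a192 (F (T t1343 (L l262 (T t79 (L l65 (L l266 (T t35 N)))))))) (K a61 (M a192 (F (T t1800 (L l262 (T t79 (L l493 (T t80 N))))))) (K a22 (M a192 (F (T t614 (L l11 (L l262 (T t79 (L l11 (L l266 (T t35 N))))))))) (K a42 (M a192 (F (T t614 (L l262 (T t79 (L l22 (L l277 (T t74 N)))))))) (K a62 (M a192 (F (T t57 (L l262 (T t79 (L l66 (L l493 (L l516 (T t80 N))))))))) (K a3 (M a85 (L l453 (F (T t447 (L l277 (T t115 (K a161 (M a82 (F (T t89 (L l266 (L l475 (L l494 (T t1345 (L l277 (T t523 N))))))))) (K a82 (M a161 (F (T t89 (L l266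 (L l475 (L l494 (T t1345 (L l277 (T t523 N))))))))) N)))))))) N))))))))))))))))))))⟩
def e0_63__199_236 : Ent 4 := ⟨[a0, a63], [a199, a241], (M a85 (F (T t88 (T t52 (T t89 (T t90 (K a64 (M a60 (F (T t114 (L l277 (T t115 N))))) (K a192 (M a16 (F (T t112 (L l314 (L l494 (T t96 (L l296 (T t98 N)))))))) (K a21 (M a48 (F (T t99 (L l258 (T t50 (L l47 (T t100 N))))))) (K a149 (M a16 (F (T t112 (L l235 (L l314 (T t173 (L l170 (T t102 N)))))))) (K a213 (Fr a170 a255 l476 (Fr a42 a21 l68 (Fr a106 a234 l390 (Fr a192 a149 l519 (V t581))))) (K a42 (M a48 (F (T t364 (L l258 (L l390 (T t50 (L l28 (T t100 N)))))))) (K a106 (M a48 (F (T t1 (L l104 (L l314 (L l494 (T t509 (L l258 (L l390 (T t50 N)))))))))) (K a170 (M a16 (F (L l404 (T t113 (L l390 (T t98 (L l390 (L l404 (T t97 (L l229 (L l235 (L l404 (T t174 N))))))))))))) (K a255 (M a16 (F (T t112 (L l289 (T t113 (L l289 (L l296 (T t98 N)))))))) N)))))))))))))))⟩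
def e0_63__199_237 : Ent 4 := ⟨[a0, a63], [a199, a242], (M a85 (F (T t88 (T t52 (T t89 (T t90 (K a64 (M a12 (F (T t124 (L l277 (T t572 N))))) (K a192 (M a16 (F (T t260 (L l339 (T t97 (L l296 (T t98 N))))))) (K a21 (M a48 (F (T t99 (L l258 (T t50 (L l47 (T t100 N))))))) (K a149 (M a16 (F (T t112 (L l235 (L l314 (T t173 (L l170 (T t102 N)))))))) (K a213 (Fr a170 a255 l476 (Fr a42 a21 l68 (Fr a106 a234 l390 (Fr a192 a149 l519 (V t581))))) (K a42 (M a48 (F (T t364 (L l258 (L l390 (T t50 (L l28 (T t100 N)))))))) (K a106 (M a48 (F (T t99 (T t1 (L l258 (L l390 (T t50 N))))))) (K a170 (M a16 (F (L l404 (T t113 (L l390 (T t98 (L l390 (L l404 (T t97 (L l229 (L l235 (L l404 (T t174 N))))))))))))) (K a255 (M a16 (F (T t112 (L l289 (T t113 (L l289 (L l296 (T t98 N)))))))) N)))))))))))))))⟩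
def e0_63__199_238 : Ent 4 := ⟨[a0, a63], [a199, a243], (M a60 (F (T t116 (L l451 (T t67 (L l451 (T t43 (L l451 (T t68 (L l451 (T t69 (K a20 (M a48 (F (T t138 (L l11 (L l481 (T t1 (L l11 (L l313 (T t235 N))))))))) (K a40 (M a48 (F (T t48 (L l415 (T t64 (L l52 (L l313 (T t235 N)))))))) (K a21 (M a192 (F (T t2647 (L l235 (L l271 (L l347 (T t73 (L l277 (L l347 (T t74 N)))))))))) (K a41 (M a192 (F (T t1343 (L l267 (T t79 (L l65 (L l265 (T t35 N)))))))) (K a61 (M a192 (F (T t1800 (L l267 (T t79 (L l493 (T t80 N))))))) (K a22 (M a192 (F (T t614 (L l11 (L l267 (T t79 (L l11 (L l265 (T t35 N))))))))) (K a42 (M a192 (F (T t614 (L l267 (T t79 (L l22 (L l277 (T t74 N)))))))) (K a62 (M a192 (F (T t57 (L l267 (T t79 (L l66 (L l493 (L l516 (T t80 N))))))))) (K a3 (M a85 (L l451 (F (T t447 (L l277 (T t115 (K a83 (M a163 (F (T t447 (L l277 (T t115 N))))) (K a163 (M a83 (F (T t447 (L l277 (T t115 N))))) N)))))))) N))))))))))))))))))))⟩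
def e0_63__199_239 : Ent 4 := ⟨[a0, a63], [a199, a244], (M a85 (L l279 (F (T t88 (T t52 (T t89 (T t90 (K a64 (M a12 (L l279 (F (T t124 (L l259 (L l277 (T t572 (K a229 (M a214 (F (T t124 (L l259 (L l275 (L l277 (T t572 N))))))) (K a214 (M a229 (F (T t124 (L l239 (L l259 (L l277 (T t572 N))))))) N))))))))) (K a192 (M a16 (L l279 (F (T t112 (L l314 (L l494 (T t96 (L l296 (T t98 (K a229 (M a214 (F (T t260 (L l339 (T t97 (L l275 (L l296 (T t98 N)))))))) (K a214 (M a229 (F (T t260 (L l339 (T t97 (L l239 (L l296 (T t98 N)))))))) N))))))))))) (K a21 (M a48 (L l279 (F (T t99 (L l262 (T t50 (L l47 (T t100 (K a229 (M a214 (F (T t99 (L l47 (T t567 (L l47 (T t100 N))))))) (K a214 (M a229 (F (T t99 (L l262 (T t50 (L l47 (T t100 N))))))) N)))))))))) (K a149 (M a16 (L l279 (F (T t112 (L l235 (L l314 (T t173 (L l170 (T t102 (K a229 (M a214 (F (T t101 (L l375 (T t97 (L l170 (T t102 N))))))) (K a214 (M a229 (F (T t101 (L l375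 (T t97 (L l170 (T t102 N))))))) N))))))))))) (K a213 (Fr a170 a255 l476 (Fr a42 a21 l68 (Fr a106 a234 l390 (Fr a192 a149 l519 (V t581))))) (K a42 (M a48 (L l279 (F (T t364 (L l262 (L l390 (T t50 (L l28 (T t100 (K a229 (M a214 (F (L l256 (T t365 (L l28 (T t100 (L l262 (L l303 (L l390 (T t50 N)))))))))) (K a214 (M a229 (F (T t364 (L l262 (L l390 (T t50 (L l28 (T t100 N)))))))) N))))))))))) (K a106 (M a48 (L l279 (F (T t1 (L l104 (L l314 (L l494 (T t509 (L l262 (L l390 (T t50 (K a229 (M a214 (F (T t99 (T t1 (L l262 (L l303 (L l390 (T t50 N)))))))) (K a214 (M a229 (F (T t364 (T t1 (L l262 (L l390 (T t50 N))))))) N))))))))))))) (K a170 (M a16 (L l279 (F (L l404 (T t113 (L l390 (T t98 (L l390 (L l404 (T t97 (L l229 (L l235 (L l404 (T t174 (K a229 (M a214 (F (L l404 (T t113 (L l275 (L l390 (T t98 (L l390 (L l404 (T t97 (L l229 (L l235 (L l275 (L l303 (L l404 (T t174 N)))))))))))))))) (K a214 (M a229 (F (L l404 (T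 t113 (L l239 (L l390 (T t98 (L l390 (L l404 (T t97 (L l229 (L l235 (L l404 (T t174 N)))))))))))))) N)))))))))))))))) (K a255 (M a16 (L l279 (F (T t112 (L l289 (T t113 (L l289 (L l296 (T t98 (K a229 (M a214 (F (T t112 (L l289 (T t113 (L l275 (L l289 (L l296 (T t98 N))))))))) (K a214 (M a229 (F (T t112 (L l289 (T t113 (L l239 (L l289 (L l296 (T t98 N))))))))) N))))))))))) (K a229 (M a214 (F (T t90 (L l274 (L l494 (T t5515 (L l274 (T t5516 (K a21 (M a192 (F (T t5511 (L l274 (L l275 (T t5517 N)))))) (K a149 (M a16 (F (T t101 (L l375 (T t97 (L l170 (T t102 N))))))) (K a213 (Fr a170 a255 l476 (Fr a42 a21 l68 (Fr a106 a234 l390 (Fr a192 a149 l519 (V t581))))) (K a106 (Fr a21 a42 l68 (Fr a213 a149 l347 (Fr a255 a170 l476 (Fr a234 a192 l296 (V t5520))))) N)))))))))))) (K a214 (M a229 (F (T t90 (L l229 (L l459 (T t5642 (L l229 (T t5643 (K a21 (M a192 (F (T t5511 (L l229 (L l239 (T t5644 N)))))) (K a149 (M a16 (F (T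 t101 (L l375 (T t97 (L l170 (T t102 N))))))) (K a213 (Fr a170 a255 l476 (Fr a42 a21 l68 (Fr a106 a234 l390 (Fr a192 a149 l519 (V t581))))) (K a106 (Fr a21 a42 l68 (Fr a213 a149 l347 (Fr a255 a170 l476 (Fr a234 a192 l296 (V t5696))))) N)))))))))))) N))))))))))))))))))⟩
def e0_63__199_240 : Ent 4 := ⟨[a0, a63], [a199, a245], (M a60 (F (T t67 (T t43 (T t68 (T t69 (K a20 (M a48 (F (T t70 (L l11 (L l419 (T t1 (L l11 (L l313 (T t235 N))))))))) (K a40 (M a48 (F (T t70 (L l419 (T t1 (L l52 (L l313 (T t235 N)))))))) (K a21 (M a192 (F (T t72 (L l235 (L l347 (T t73 (L l277 (L l347 (T t74 N))))))))) (K a41 (M a192 (F (T t77 (L l65 (L l266 (T t35 (L l235 (T t73 N)))))))) (K a61 (M a192 (F (T t72 (L l65 (L l266 (L l515 (T t35 (L l275 (L l493 (T t80 N)))))))))) (K a22 (M a192 (F (T t72 (L l266 (T t21 (L l235 (T t73 N))))))) (K a42 (M a192 (F (T t79 (L l235 (T t73 (L l22 (L l277 (T t74 N)))))))) (K a62 (M a192 (F (T t72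 (L l266 (T t35 (L l66 (L l275 (L l493 (L l516 (T t80 N)))))))))) (K a3 (M a85 (F (T t447 (L l275 (L l277 (T t115 N)))))) N)))))))))))))))⟩
def e0_63__199_241 : Ent 4 := ⟨[a0, a63], [a199, a246], (M a85 (F (T t88 (T t52 (T t89 (T t90 (K a64 (M a12 (F (T t124 (L l259 (L l277 (T t572 N)))))) (K a192 (M a16 (F (T t112 (L l314 (L l494 (T t96 (L l296 (T t98 N)))))))) (K a21 (M a48 (F (T t99 (T t50 (L l47 (T t100 N)))))) (K a149 (M a16 (F (T t112 (L l235 (L l314 (T t173 (L l170 (T t102 N)))))))) (K a213 (Fr a170 a255 l476 (Fr a42 a21 l68 (Fr a106 a234 l390 (Fr a192 a149 l519 (V t581))))) (K a42 (M a48 (F (T t364 (L l390 (T t50 (L l28 (T t100 N))))))) (K a106 (M a48 (F (T t99 (T t1 (L l390 (T t50 N)))))) (K a170 (M a16 (F (L l404 (T t113 (L l390 (T t98 (L l390 (L l404 (T t97 (L l229 (L l235 (L l404 (T t174 N))))))))))))) (K a255 (M a16 (F (T t112 (L l289 (T t113 (L l289 (L l296 (T t98 N)))))))) N)))))))))))))))⟩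
def e0_63__199_242 : Ent 4 := ⟨[a0, a63], [a199, a247], (M a60 (L l277 (F (T t67 (T t43 (T t68 (T t69 (K a20 (M a85 (L l277 (F (T t90 (T t114 (L l278 (T t1344 (K a215 (M a231 (F (T t90 (T t114 (L l239 (L l278 (T t1344 N))))))) (K a231 (M a215 (F (T t5673 (T t90 (L l278 (T t1344 N)))))) N))))))))) (K a40 (M a255 (L l277 (F (T t2963 (L l22 (L l278 (L l392 (T t2142 (L l458 (T t2964 (K a215 (M a231 (F (T t1633 (L l350 (L l458 (T t2139 (L l22 (L l239 (L l278 (L l392 (T t5693 N))))))))))) (K a231 (M a215 (F (L l392 (T t5675 (T t2969 N))))) N)))))))))))) (K a21 (M a255 (L l277 (F (T t2963 (L l11 (L l235 (L l347 (L l458 (T t1634 (L l11 (L l347 (L l458 (T t1567 (K a215 (M a231 (F (T t1633 (L l235 (L l347 (L l350 (L l458 (T t4709 (L l347 (L l350 (L l458 (T t4710 N)))))))))))) (K a231 (M a215 (F (T t5676 (L l65 (T t2969 N))))) N))))))))))))))) (K a41 (M a32 (L l277 (F (L l65 (T t219 (L l29 (T t1573 (L l25 (L l65 (T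 t1569 (K a215 (M a231 (F (L l65 (T t219 (L l29 (L l350 (T t1573 (L l25 (L l65 (L l350 (T t1569 N))))))))))) (K a231 (M a215 (F (T t4753 (L l22 (L l389 (L l457 (L l458 (T t5678 N)))))))) N)))))))))))) (K a61 (M a192 (L l277 (F (T t72 (L l65 (L l265 (L l515 (T t35 (L l278 (L l493 (T t80 (K a215 (M a231 (F (T t1333 (L l65 (L l265 (L l295 (L l515 (T t35 (L l65 (L l515 (T t2549 N))))))))))) (K a231 (M a215 (F (T t1333 (L l65 (L l265 (L l515 (T t35 (L l65 (L l515 (T t2549 N)))))))))) N))))))))))))) (K a22 (M a255 (L l277 (F (T t1633 (L l11 (L l235 (L l458 (T t1634 (L l66 (L l278 (T t2142 (K a215 (M a231 (F (T t2969 (L l235 (L l350 (L l458 (T t4709 (L l350 (L l458 (T t2139 N)))))))))) (K a231 (M a215 (F (T t5676 (T t2969 N)))) N))))))))))))) (K a42 (M a255 (L l277 (F (T t1565 (L l235 (L l458 (T t1634 (L l66 (L l458 (T t1567 (K a215 (M a231 (F (T t2969 (L l235 (L l350 (L l458 (T t4709 (L l66 (L l350 (L l458 (T t4710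 N))))))))))) (K a231 (M a215 (F (L l390 (T t5676 (L l255 (T t5682 N)))))) N)))))))))))) (K a62 (M a192 (L l277 (F (T t72 (L l265 (T t35 (L l66 (L l278 (L l493 (L l516 (T t80 (K a215 (M a231 (F (T t1333 (L l265 (L l295 (T t35 (T t2549 N))))))) (K a231 (M a215 (F (T t1333 (L l265 (T t35 (T t2549 N)))))) N))))))))))))) (K a3 (M a16 (L l277 (F (T t112 (L l9 (T t1140 (T t1141 (K a215 (M a231 (F (T t112 (L l9 (T t1140 (T t1141 N)))))) (K a231 (M a215 (F (T t5694 (L l458 (T t5685 N))))) N))))))))) (K a215 (M a231 (F (T t68 (L l350 (T t67 (L l349 (T t43 (T t69 (K a20 (M a85 (F (T t90 (T t114 (L l239 (L l278 (T t1344 N))))))) (K a40 (M a48 (F (T t70 (L l22 (T t2 (L l52 (L l313 (L l457 (T t235 N))))))))) (K a21 (M a48 (F (T t70 (L l11 (L l18 (L l295 (L l350 (L l458 (T t5695 N))))))))) (K a41 (M a192 (F (T t1333 (L l65 (L l265 (L l295 (T t35 (L l235 (L l295 (L l349 (L l493 (T t75 N)))))))))))) (K a61 (M a192 (F (T t1333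 (L l65 (L l265 (L l295 (L l515 (T t35 (L l65 (L l515 (T t2549 N))))))))))) (K a22 (M a192 (F (T t1333 (L l235 (L l295 (L l349 (L l493 (T t75 (L l11 (L l265 (L l295 (T t35 N)))))))))))) (K a42 (M a48 (F (T t64 (L l295 (L l350 (L l458 (T t5695 N))))))) (K a62 (M a192 (F (T t1333 (L l265 (L l295 (T t35 (T t2549 N))))))) (K a3 (M a192 (F (T t47 (L l477 (T t1333 (L l235 (L l295 (L l307 (L l349 (L l493 (T t75 N))))))))))) N))))))))))))))))) (K a231 (M a215 (F (T t67 (L l458 (T t5690 (L l458 (T t5685 (K a20 (M a48 (F (T t70 (L l11 (T t1 (L l11 (L l14 (L l313 (L l457 (T t1419 N)))))))))) (K a40 (M a23 (F (L l22 (T t5691 (L l392 (L l457 (T t5692 N))))))) N))))))))) N))))))))))))))))))⟩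
def e0_63__199_243 : Ent 4 := ⟨[a0, a63], [a199, a248], (M a85 (F (T t88 (T t52 (T t89 (T t90 (K a64 (M a12 (F (T t124 (L l277 (L l460 (T t572 N)))))) (K a192 (M a16 (F (T t260 (L l339 (T t97 (L l296 (T t98 N))))))) (K a21 (M a48 (F (T t99 (L l262 (T t50 (L l47 (T t100 N))))))) (K a149 (M a16 (F (T t112 (L l235 (L l314 (T t173 (L l170 (T t102 N)))))))) (K a213 (Fr a170 a255 l476 (Fr a42 a21 l68 (Fr a106 a234 l390 (Fr a192 a149 l519 (V t581))))) (K a42 (M a48 (F (T t364 (L l262 (L l390 (T t50 (L l28 (T t100 N)))))))) (K a106 (M a48 (F (T t99 (T t1 (L l262 (L l390 (T t50 N))))))) (K a170 (M a16 (F (L l404 (T t113 (L l390 (T t98 (L l390 (L l404 (T t97 (L l229 (L l235 (L l404 (T t174 N))))))))))))) (K a255 (M a16 (F (T t112 (L l289 (T t113 (L l289 (L l296 (T t98 N)))))))) N)))))))))))))))⟩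
def e0_63__199_244 : Ent 4 := ⟨[a0, a63], [a199, a249], (M a85 (F (T t88 (T t52 (T t89 (T t90 (K a64 (M a12 (F (T t124 (L l277 (T t572 N))))) (K a192 (M a16 (F (T t112 (L l314 (L l494 (T t96 (L l296 (T t98 N)))))))) (K a21 (M a48 (F (T t99 (T t50 (L l47 (T t100 N)))))) (K a149 (M a16 (F (T t112 (L l235 (L l314 (T t173 (L l170 (T t102 N)))))))) (K a213 (Fr a170 a255 l476 (Fr a42 a21 l68 (Fr a106 a234 l390 (Fr a192 a149 l519 (V t581))))) (K a42 (M a48 (F (T t364 (L l390 (T t50 (L l28 (T t100 N))))))) (K a106 (M a48 (F (T t99 (T t1 (L l390 (T t50 N)))))) (K a170 (M a16 (F (L l404 (T t113 (L l390 (T t98 (L l390 (L l404 (T t97 (L l229 (L l235 (L l404 (T t174 N))))))))))))) (K a255 (M a16 (F (T t112 (L l289 (T t113 (L l289 (L l296 (T t98 N)))))))) N)))))))))))))))⟩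
def e0_63__199_245 : Ent 4 := ⟨[a0, a63], [a199, a250], (M a60 (F (T t67 (T t43 (T t68 (T t69 (K a20 (M a48 (F (T t64 (L l11 (L l462 (T t1 (L l11 (L l313 (T t235 N))))))))) (K a40 (M a48 (F (T t64 (L l462 (T t1 (L l52 (L l313 (T t235 N)))))))) (K a21 (M a192 (F (T t72 (L l235 (L l347 (T t73 (L l277 (L l347 (T t74 N))))))))) (K a41 (M a192 (F (T t77 (L l65 (L l266 (L l282 (T t35 (L l235 (T t73 N))))))))) (K a61 (M a192 (F (T t72 (L l65 (L l266 (L l282 (L l515 (T t35 (L l493 (T t80 N)))))))))) (K a22 (M a192 (F (T t72 (L l266 (T t21 (L l235 (T t73 N))))))) (K a42 (M a192 (F (T t79 (L l235 (T t73 (L l22 (L l277 (T t74 N)))))))) (K a62 (M a192 (F (T t72 (L l266 (L l282 (T t35 (L l66 (L l493 (L l516 (T t80 N)))))))))) (K a3 (M a192 (F (T t614 (L l477 (T t79 (L l266 (L l282 (L l475 (T t35 N))))))))) N)))))))))))))))⟩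
def e0_63__199_246 : Ent 4 := ⟨[a0, a63], [a199, a251], (M a60 (F (T t67 (T t43 (T t68 (T t69 (K a20 (M a48 (F (T t2 (T t64 (L l11 (L l313 (L l428 (T t235 N)))))))) (K a40 (M a48 (F (T t64 (T t1 (L l52 (L l313 (L l428 (T t235 N)))))))) (K a21 (M a192 (F (T t72 (L l235 (L l347 (T t73 (L l277 (L l347 (T t74 N))))))))) (K a41 (M a192 (F (T t77 (L l65 (L l265 (L l284 (T t35 (L l235 (T t73 N))))))))) (K a61 (M a192 (F (T t72 (L l65 (L l265 (L l284 (L l515 (T t35 (L l493 (T t80 N)))))))))) (K a22 (M a192 (F (T t72 (L l265 (T t21 (L l235 (T t73 N))))))) (K a42 (M a192 (F (T t79 (L l235 (T t73 (L l22 (L l277 (T t74 N)))))))) (K a62 (M a192 (F (T t72 (L l265 (L l284 (T t35 (L l66 (L l493 (L l516 (T t80 N)))))))))) (K a3 (M a170 (F (T t4824 (L l283 (L l284 (T t458 N)))))) N)))))))))))))))⟩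
def e0_63__199_247 : Ent 4 := ⟨[a0, a63], [a199, a252], (M a48 (F (T t48 (L l471 (T t1 (L l471 (T t2 (L l471 (T t3 (L l471 (T t0 (K a16 (M a60 (F (T t138 (L l14 (L l18 (L l477 (T t67 (T t65 N)))))))) (K a32 (M a60 (F (T t116 (L l441 (T t64 (L l24 (L l28 (T t65 N)))))))) (K a21 (M a192 (F (T t54 (L l262 (T t27 (L l47 (L l347 (T t29 N)))))))) (K a37 (M a192 (F (T t54 (L l262 (T t27 (L l261 (T t21 N))))))) (K a53 (M a192 (F (T t55 (L l261 (L l491 (T t21 (T t31 N))))))) (K a26 (M a192 (F (T t56 (L l262 (T t27 (L l261 (T t21 N))))))) (K a42 (M a192 (F (T t56 (L l262 (T t27 (L l28 (T t29 N))))))) (K a58 (M a192 (F (T t57 (L l262 (T t27 (L l54 (L l498 (T t31 N)))))))) (K a15 (M a192 (L l471 (F (T t1681 (L l262 (L l483 (T t27 (L l235 (L l291 (L l325 (T t20 (K a173 (M a94 (F (T t47 (L l235 (L l291 (L l325 (T t22 (L l262 (L l483 (T t28 N)))))))))) (K a94 (M a173 (F (T t47 (L l235 (L l291 (L l325 (T t22 (L l262 (L l483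 (T t28 N)))))))))) N))))))))))))) N))))))))))))))))))))⟩
def e0_63__199_248 : Ent 4 := ⟨[a0, a63], [a199, a253], (M a149 (F (T t175 (L l293 (T t5 (L l261 (L l293 (T t176 (L l261 (T t177 (K a192 (M a53 (F (T t178 (L l229 (L l236 (T t179 (L l229 (L l236 (L l293 (L l296 (L l314 (T t180 N)))))))))))) (K a21 (M a48 (F (T t1267 (L l18 (L l229 (T t14 (T t13 N))))))) (K a85 (M a1 (F (L l431 (T t534 (L l144 (L l235 (L l293 (T t1083 (L l141 (T t1084 N)))))))))) (K a213 (Fr a106 a192 l519 (Fr a42 a21 l68 (Fr a170 a234 l390 (Fr a255 a85 l476 (V t582))))) (K a42 (M a48 (F (T t11 (L l390 (T t13 (L l54 (L l229 (T t14 N)))))))) (K a106 (M a48 (F (T t1 (L l229 (L l498 (T t14 (L l229 (L l293 (L l390 (L l437 (L l498 (T t6 (L l293 (L l390 (T t26 N))))))))))))))) (K a170 (M a48 (F (T t11 (L l462 (T t1 (L l390 (T t13 N))))))) (K a191 (M a16 (F (T t97 (T t190 (L l213 (L l293 (T t191 N))))))) (K a255 (M a252 (F (T t2838 (L l434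 (T t940 (L l293 (L l296 (T t1291 (L l431 (T t1292 N)))))))))) N)))))))))))))))))))⟩
def e0_63__199_249 : Ent 4 := ⟨[a0, a63], [a199, a254], (M a48 (F (T t1 (T t2 (T t3 (T t0 (K a16 (M a60 (F (T t43 (L l438 (T t64 (T t65 N)))))) (K a32 (M a60 (F (T t67 (L l438 (T t64 (L l24 (L l28 (T t65 N)))))))) (K a21 (M a192 (F (T t837 (L l47 (L l235 (L l347 (T t20 (L l47 (L l347 (T t29 N)))))))))) (K a37 (M a192 (F (T t19 (L l47 (L l235 (T t20 (L l261 (T t21 N)))))))) (K a53 (M a192 (F (T t19 (L l261 (L l491 (T t21 (T t31 N))))))) (K a26 (M a192 (F (T t837 (L l235 (T t20 (L l261 (T t21 N))))))) (K a42 (M a192 (F (T t19 (L l235 (T t20 (L l28 (T t29 N))))))) (K a58 (M a192 (F (T t19 (L l261 (T t21 (L l54 (L l498 (T t31 N)))))))) (K a15 (M a192 (F (T t56 (L l483 (T t27 (L l261 (L l469 (T t21 N)))))))) N)))))))))))))))⟩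
def e0_63__199_250 : Ent 4 := ⟨[a0, a63], [a199, a255], (M a48 (F (T t48 (L l469 (T t1 (L l469 (T t2 (L l469 (T t3 (L l469 (T t0 (K a16 (M a60 (F (T t138 (L l14 (L l18 (L l475 (T t67 (T t65 N)))))))) (K a32 (M a60 (F (T t116 (L l439 (T t64 (L l24 (L l28 (T t65 N)))))))) (K a21 (M a192 (F (T t54 (L l266 (T t27 (L l47 (L l289 (L l347 (T t29 N))))))))) (K a37 (M a192 (F (T t54 (L l266 (T t27 (L l28 (L l47 (L l289 (T t29 N))))))))) (K a53 (M a12 (F (T t145 (L l47 (L l439 (T t122 (L l47 (T t146 N)))))))) (K a26 (M a192 (F (T t56 (L l266 (T t27 (L l289 (T t29 N))))))) (K a42 (M a192 (F (T t56 (L l266 (T t27 (L l28 (L l289 (T t29 N)))))))) (K a58 (M a12 (F (T t145 (L l439 (T t122 (T t146 N)))))) (K a15 (M a192 (L l469 (F (T t54 (L l266 (L l483 (T t27 (L l289 (T t29 (K a95 (M a175 (F (T t1922 (L l235 (L l289 (L l325 (L l361 (T t22 (L l289 (L l361 (T t29 N))))))))))) (K a175 (M a95 (F (T t1922 (L l213 (L l235 (L l289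 (L l325 (T t22 (L l289 (T t29 N)))))))))) N))))))))))) N))))))))))))))))))))⟩
def b0_63__199 : Blk 4 := ⟨[0, 63], [199], [1, 2, 3, 4, 5, 6, 7, 8, 9, 10, 11, 12, 13, 14, 15, 16, 17, 18, 19, 20, 22, 23, 24, 25, 26, 27, 28, 29, 30, 31, 32, 33, 34, 35, 36, 37, 38, 39, 40, 41, 43, 44, 45, 46, 47, 48, 49, 50, 51, 52, 53, 54, 55, 56, 57, 58, 59, 60, 61, 62, 64, 65, 66, 67, 68, 69, 70, 71, 72, 73, 74, 75, 76, 77, 78, 79, 80, 81, 82, 83, 84, 85, 86, 87, 88, 89, 90, 91, 92, 93, 94, 95, 96, 97, 98, 99, 100, 101, 102, 103, 104, 105, 106, 107, 108, 109, 110, 111, 112, 113, 114, 115, 116, 117, 118, 119, 120, 121, 122, 123, 124, 125, 126, 127, 128, 129, 130, 131, 132, 133, 134, 135, 136, 137, 138, 139, 140, 141, 142, 143, 144, 145, 146, 147, 148, 149, 150, 151, 152, 153, 154, 155, 156, 157, 158, 159, 160, 161, 162, 163, 164, 165, 166, 167, 168, 169, 170, 171, 172, 173, 174, 175, 176, 177, 178, 179, 180, 181, 182, 183, 184,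 185, 186, 187, 188, 189, 190, 191, 192, 193, 194, 195, 196, 197, 198, 200, 201, 202, 203, 204, 205, 206, 207, 208, 209, 210, 211, 212, 213, 214, 215, 216, 217, 218, 219, 220, 221, 222, 223, 224, 225, 226, 227, 228, 229, 230, 231, 232, 233, 234, 235, 236, 237, 238, 239, 240, 241, 242, 243, 244, 245, 246, 247, 248, 249, 250, 251, 252, 253, 254, 255], [e0_63__199_0, e0_63__199_1, e0_63__199_2, e0_63__199_3, e0_63__199_4, e0_63__199_5, e0_63__199_6, e0_63__199_7, e0_63__199_8, e0_63__199_9, e0_63__199_10, e0_63__199_11, e0_63__199_12, e0_63__199_13, e0_63__199_14, e0_63__199_15, e0_63__199_16, e0_63__199_17, e0_63__199_18, e0_63__199_19, e0_63__199_20, e0_63__199_21, e0_63__199_22, e0_63__199_23, e0_63__199_24, e0_63__199_25, e0_63__199_26, e0_63__199_27, e0_63__199_28, e0_63__199_29, e0_63__199_30, e0_63__199_31, e0_63__199_32, e0_63__199_33, e0_63__199_34, e0_63__199_35, e0_63__199_36, e0_63__199_37, e0_63__199_38,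 e0_63__199_39, e0_63__199_40, e0_63__199_41, e0_63__199_42, e0_63__199_43, e0_63__199_44, e0_63__199_45, e0_63__199_46, e0_63__199_47, e0_63__199_48, e0_63__199_49, e0_63__199_50, e0_63__199_51, e0_63__199_52, e0_63__199_53, e0_63__199_54, e0_63__199_55, e0_63__199_56, e0_63__199_57, e0_63__199_58, e0_63__199_59, e0_63__199_60, e0_63__199_61, e0_63__199_62, e0_63__199_63, e0_63__199_64, e0_63__199_65, e0_63__199_66, e0_63__199_67, e0_63__199_68, e0_63__199_69, e0_63__199_70, e0_63__199_71, e0_63__199_72, e0_63__199_73, e0_63__199_74, e0_63__199_75, e0_63__199_76, e0_63__199_77, e0_63__199_78, e0_63__199_79, e0_63__199_80, e0_63__199_81, e0_63__199_82, e0_63__199_83, e0_63__199_84, e0_63__199_85, e0_63__199_86, e0_63__199_87, e0_63__199_88, e0_63__199_89, e0_63__199_90, e0_63__199_91, e0_63__199_92, e0_63__199_93, e0_63__199_94, e0_63__199_95, e0_63__199_96, e0_63__199_97, e0_63__199_98, e0_63__199_99, e0_63__199_100,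 e0_63__199_101, e0_63__199_102, e0_63__199_103, e0_63__199_104, e0_63__199_105, e0_63__199_106, e0_63__199_107, e0_63__199_108, e0_63__199_109, e0_63__199_110, e0_63__199_111, e0_63__199_112, e0_63__199_113, e0_63__199_114, e0_63__199_115, e0_63__199_116, e0_63__199_117, e0_63__199_118, e0_63__199_119, e0_63__199_120, e0_63__199_121, e0_63__199_122, e0_63__199_123, e0_63__199_124, e0_63__199_125, e0_63__199_126, e0_63__199_127, e0_63__199_128, e0_63__199_129, e0_63__199_130, e0_63__199_131, e0_63__199_132, e0_63__199_133, e0_63__199_134, e0_63__199_135, e0_63__199_136, e0_63__199_137, e0_63__199_138, e0_63__199_139, e0_63__199_140, e0_63__199_141, e0_63__199_142, e0_63__199_143, e0_63__199_144, e0_63__199_145, e0_63__199_146, e0_63__199_147, e0_63__199_148, e0_63__199_149, e0_63__199_150, e0_63__199_151, e0_63__199_152, e0_63__199_153, e0_63__199_154, e0_63__199_155, e0_63__199_156, e0_63__199_157, e0_63__199_158,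 e0_63__199_159, e0_63__199_160, e0_63__199_161, e0_63__199_162, e0_63__199_163, e0_63__199_164, e0_63__199_165, e0_63__199_166, e0_63__199_167, e0_63__199_168, e0_63__199_169, e0_63__199_170, e0_63__199_171, e0_63__199_172, e0_63__199_173, e0_63__199_174, e0_63__199_175, e0_63__199_176, e0_63__199_177, e0_63__199_178, e0_63__199_179, e0_63__199_180, e0_63__199_181, e0_63__199_182, e0_63__199_183, e0_63__199_184, e0_63__199_185, e0_63__199_186, e0_63__199_187, e0_63__199_188, e0_63__199_189, e0_63__199_190, e0_63__199_191, e0_63__199_192, e0_63__199_193, e0_63__199_194, e0_63__199_195, e0_63__199_196, e0_63__199_197, e0_63__199_198, e0_63__199_199, e0_63__199_200, e0_63__199_201, e0_63__199_202, e0_63__199_203, e0_63__199_204, e0_63__199_205, e0_63__199_206, e0_63__199_207, e0_63__199_208, e0_63__199_209, e0_63__199_210, e0_63__199_211, e0_63__199_212, e0_63__199_213, e0_63__199_214, e0_63__199_215, e0_63__199_216,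 e0_63__199_217, e0_63__199_218, e0_63__199_219, e0_63__199_220, e0_63__199_221, e0_63__199_222, e0_63__199_223, e0_63__199_224, e0_63__199_225, e0_63__199_226, e0_63__199_227, e0_63__199_228, e0_63__199_229, e0_63__199_230, e0_63__199_231, e0_63__199_232, e0_63__199_233, e0_63__199_234, e0_63__199_235, e0_63__199_236, e0_63__199_237, e0_63__199_238, e0_63__199_239, e0_63__199_240, e0_63__199_241, e0_63__199_242, e0_63__199_243, e0_63__199_244, e0_63__199_245, e0_63__199_246, e0_63__199_247, e0_63__199_248, e0_63__199_249, e0_63__199_250], by decide +kernel, by decide +kernel⟩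

end Pool.Agent.Lib_TTT.K4
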