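import Pool.Agent.Lib_TTT.K4Base
import Pool.Agent.Lib_TTT.K4T00
import Pool.Agent.Lib_TTT.K4T01
import Pool.Agent.Lib_TTT.K4T02
import Pool.Agent.Lib_TTT.K4T03
import Pool.Agent.Lib_TTT.K4T04
import Pool.Agent.Lib_TTT.K4T05
import Pool.Agent.Lib_TTT.K4T06

/-! Certificates in `4^4`. -/

set_option autoImplicit false
set_option maxRecDepth 200000

namespace Pool.Agent.Lib_TTT.K4

open Lib_TTT AC DC

def e0_63__207_0 : Ent 4 := ⟨[a0, a63], [a207, a1], (M a12 (F (T t2061 (L l65 (L l511 (T t122 (L l41 (L l511 (T t151 (L l65 (L l511 (T t152 (L l511 (T t153 (K a4 (M a60 (F (T t835 (L l46 (L l50 (L l65 (L l331 (T t67 (L l41 (T t448 N)))))))))) (K a8 (M a60 (F (T t835 (L l65 (L l331 (T t67 (L l41 (L l52 (L l56 (T t448 N)))))))))) (K a21 (M a192 (L l65 (F (T t158 (L l231 (T t156 (L l15 (L l347 (T t157 (K a41 (M a61 (F (T t5698 (L l231 (T t836 N))))) (K a61 (M a41 (F (T t2119 (L l15 (L l59 (L l301 (L l347 (L l515 (T t450 (L l50 (T t681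 N))))))))))) N))))))))))) (K a25 (M a192 (F (T t158 (L l231 (T t156 (L l289 (T t21 N))))))) (K a29 (M a192 (F (T t159 (L l289 (L l371 (T t21 (T t160 N))))))) (K a38 (M a192 (F (T t161 (L l231 (T t156 (L l289 (T t21 N))))))) (K a42 (M a192 (F (T t161 (L l231 (T t156 (L l56 (T t157 N))))))) (K a46 (M a192 (F (T t1725 (L l289 (T t21 (L l26 (L l408 (T t160 N)))))))) (K a51 (M a192 (L l511 (F (T t576 (L l231 (L l513 (T t156 (L l289 (L l439 (T t21 (K a103 (M a155 (F (T t1800 (L l301 (L l415 (T t543 (L l231 (L l513 (T t468 N))))))))) (K a155 (M a103 (F (T t1800 (L l301 (L l415 (T t543 (L l231 (L l513 (T t468 N))))))))) N)))))))))))) N)))))))))))))))))))))))⟩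
def e0_63__207_1 : Ent 4 := ⟨[a0, a63], [a207, a3], (M a12 (L l331 (F (T t150 (L l43 (L l511 (T t122 (L l43 (L l511 (T t151 (L l43 (L l511 (T t152 (L l43 (L l511 (T t153 (K a4 (M a85 (L l331 (F (T t89 (L l231 (L l333 (T t124 (T t154 (K a71 (M a139 (F (T t89 (L l231 (L l333 (T t124 (T t154 N))))))) (K a139 (M a71 (F (T t89 (L l231 (L l333 (T t124 (T t154 N))))))) N)))))))))) (K a8 (M a85 (L l331 (F (L l56 (T t89 (L l231 (L l333 (L l464 (T t124 (L l56 (T t154 (K a71 (M a139 (F (L l56 (T t89 (L l231 (L l333 (L l464 (T t124 (L l56 (T t154 N)))))))))) (K a139 (M a71 (F (L l56 (T t89 (L l231 (L l333 (L l464 (T t124 (L l56 (T t154 N)))))))))) N))))))))))))) (K a21 (M a192 (L l331 (F (T t158 (L l231 (L l333 (T t156 (L l15 (L l347 (T t157 (K a71 (M a139 (F (T t1725 (L l301 (L l451 (T t543 (L l15 (L l347 (T t157 N))))))))) (K a139 (M a71 (F (T t1725 (L l301 (L l451 (T t543 (L l15 (L l347 (T t157 N))))))))) N)))))))))))) (K a25 (M a192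 (L l331 (F (T t158 (L l231 (L l333 (T t156 (L l289 (L l475 (T t21 (K a71 (M a139 (F (T t158 (L l56 (L l231 (L l333 (T t468 (L l15 (L l289 (L l475 (T t35 N))))))))))) (K a139 (M a71 (F (T t158 (L l56 (L l231 (L l333 (T t468 (L l15 (L l289 (L l475 (T t35 N))))))))))) N)))))))))))) (K a29 (M a192 (L l331 (F (T t1681 (L l231 (L l333 (T t156 (T t160 (K a71 (M a139 (F (T t1681 (L l231 (L l333 (T t468 (L l15 (L l371 (T t776 N))))))))) (K a139 (M a71 (F (T t1681 (L l231 (L l333 (T t468 (L l15 (L l371 (T t776 N))))))))) N)))))))))) (K a38 (M a192 (L l331 (F (T t161 (L l231 (L l333 (T t156 (L l289 (L l475 (T t21 (K a71 (M a139 (F (T t161 (L l50 (L l289 (L l475 (T t35 (L l231 (L l333 (T t468 N)))))))))) (K a139 (M a71 (F (T t161 (L l50 (L l289 (L l475 (T t35 (L l231 (L l333 (T t468 N)))))))))) N)))))))))))) (K a42 (M a192 (L l331 (F (T t161 (L l231 (L l333 (T t156 (L l56 (T t157 (K a71 (M a139 (F (T t496 (L l301 (L l390 (L l451 (T t543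 (L l56 (T t157 N))))))))) (K a139 (M a71 (F (T t496 (L l301 (L l390 (L l451 (T t543 (L l56 (T t157 N))))))))) N))))))))))) (K a46 (M a192 (L l331 (F (T t57 (L l231 (L l333 (T t156 (L l26 (L l408 (T t160 (K a71 (M a139 (F (T t47 (L l231 (L l333 (T t468 (T t776 N))))))) (K a139 (M a71 (F (T t47 (L l231 (L l333 (T t468 (T t776 N))))))) N)))))))))))) (K a51 (M a255 (L l43 (L l331 (L l511 (F (T t2126 (L l231 (L l333 (L l513 (T t2034 (L l236 (L l309 (L l489 (T t1165 (K a19 (M a35 (L l331 (L l511 (F (T t2125 (L l301 (L l415 (L l451 (T t2123 (L l231 (L l333 (L l513 (T t2124 (K a71 (M a139 (L l511 (F (T t2125 (L l301 (L l415 (L l451 (T t2123 (L l231 (L l333 (L l513 (T t2124 (K a103 (M a155 (L l125 (F (T t2126 (L l313 (L l493 (T t2127 (K a87 (M a119 (F (T t2128 (L l87 (T t2129 N))))) (K a119 (M a87 (F (T t2030 (L l126 (T t2129 N))))) N))))))))) (K a155 (M a103 (L l367 (F (T t2130 (T t2131 (L l301 (L l415 (L l451 (T t2123 (K a87 (M a223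 (F (T t2132 (L l169 (L l506 (T t2133 N)))))) (K a223 (M a87 (F (T t2128 (L l368 (T t2131 (L l301 (L l368 (L l415 (L l451 (T t2134 N)))))))))) N))))))))))) N)))))))))))))) (K a103 (M a155 (L l331 (F (T t2125 (L l301 (L l415 (L l451 (T t2123 (L l231 (L l333 (L l513 (T t2124 (K a71 (M a139 (L l125 (F (T t2126 (L l313 (L l493 (T t2127 (K a87 (M a119 (F (T t2128 (L l87 (T t2129 N))))) (K a119 (M a87 (F (T t2030 (L l126 (T t2129 N))))) N))))))))) (K a139 (M a71 (F (T t2125 (L l301 (L l415 (L l451 (T t2123 (L l231 (L l333 (L l513 (T t2124 N))))))))))) N)))))))))))))) (K a139 (M a71 (L l511 (F (T t2125 (L l301 (L l415 (L l451 (T t2123 (L l231 (L l333 (L l513 (T t2124 (K a103 (M a155 (F (T t2125 (L l301 (L l415 (L l451 (T t2123 (L l231 (L l333 (L l513 (T t2124 N))))))))))) (K a155 (M a103 (L l207 (L l367 (F (T t2132 (L l301 (L l415 (L l451 (T t2031 (L l231 (L l333 (L l513 (T t2124 (K a87 (M a223 (L l207 (F (T t5297 (L l506 (T t5699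 (K a171 (M a187 (F (L l219 (T t2128 (L l174 (L l236 (L l309 (L l489 (T t2142 (L l174 (L l301 (L l415 (L l451 (T t2123 N)))))))))))))) (K a187 (Fr a171 a239 l403 (V t2034)) N)))))))) (K a171 (M a187 (L l367 (F (T t2033 (L l219 (L l319 (L l391 (L l499 (T t5700 (K a87 (M a223 (F (L l219 (T t2128 (L l174 (L l236 (L l309 (L l489 (T t2142 (L l174 (L l301 (L l415 (L l451 (T t2123 N)))))))))))))) (K a223 (Fr a87 a119 l125 (V t2142)) N))))))))))) (K a187 (Fr a171 a239 l403 (V t2138)) (K a223 (Fr a87 a119 l125 (V t2031)) N))))))))))))))))) N)))))))))))))) (K a155 (M a103 (L l331 (L l367 (F (T t2132 (L l301 (L l415 (L l451 (T t2031 (L l231 (L l333 (L l513 (T t2124 (K a71 (M a139 (L l367 (F (T t2130 (T t2131 (L l301 (L l415 (L l451 (T t2123 (K a87 (M a223 (F (T t2132 (L l169 (L l506 (T t2133 N)))))) (K a223 (M a87 (F (T t2128 (L l368 (T t2131 (L l301 (L l368 (L l415 (L l451 (T t2134 N)))))))))) N))))))))))) (K a87 (M a223 (L l331 (F (T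 t2128 (L l164 (L l512 (T t5701 (K a71 (M a139 (F (T t2132 (L l169 (L l506 (T t2133 N)))))) (K a139 (M a71 (L l207 (F (T t5297 (L l506 (T t5699 (K a171 (M a187 (F (L l219 (T t2128 (L l174 (L l236 (L l309 (L l489 (T t2142 (L l174 (L l301 (L l415 (L l451 (T t2123 N)))))))))))))) (K a187 (Fr a171 a239 l403 (V t2034)) N)))))))) N))))))))) (K a139 (M a71 (L l207 (L l367 (F (T t2132 (L l301 (L l415 (L l451 (T t2031 (L l231 (L l333 (L l513 (T t2124 (K a87 (M a223 (L l207 (F (T t5297 (L l506 (T t5699 (K a171 (M a187 (F (L l219 (T t2128 (L l174 (L l236 (L l309 (L l489 (T t2142 (L l174 (L l301 (L l415 (L l451 (T t2123 N)))))))))))))) (K a187 (Fr a171 a239 l403 (V t2034)) N)))))))) (K a171 (M a187 (L l367 (F (T t2033 (L l219 (L l319 (L l391 (L l499 (T t5700 (K a87 (M a223 (F (L l219 (T t2128 (L l174 (L l236 (L l309 (L l489 (T t2142 (L l174 (L l301 (L l415 (L l451 (T t2123 N)))))))))))))) (K a223 (Fr a87 a119 l125 (V t2142)) N)))))))))))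 (K a187 (Fr a171 a239 l403 (V t2138)) (K a223 (Fr a87 a119 l125 (V t2031)) N))))))))))))))))) (K a223 (M a87 (L l331 (F (T t2135 (L l307 (L l355 (L l361 (L l487 (T t5702 (K a71 (M a139 (F (T t2128 (L l368 (T t2131 (L l301 (L l368 (L l415 (L l451 (T t2134 N)))))))))) (K a139 (Fr a71 a119 l125 (V t2031)) N))))))))))) N))))))))))))))))) N))))))))))))))))) (K a35 (M a19 (L l331 (L l511 (F (T t2125 (L l301 (L l415 (L l451 (T t2123 (L l231 (L l333 (L l513 (T t2124 (K a71 (M a139 (L l511 (F (T t2125 (L l301 (L l415 (L l451 (T t2123 (L l231 (L l333 (L l513 (T t2124 (K a103 (M a155 (L l125 (L l403 (F (T t2030 (L l301 (L l415 (L l451 (T t2137 (L l236 (L l309 (L l489 (T t2138 (K a87 (M a119 (L l403 (F (T t2135 (L l143 (L l313 (L l349 (L l493 (T t2127 (K a171 (M a239 (F (L l143 (T t2130 (L l174 (L l301 (L l415 (L l451 (L l457 (T t2137 (L l174 (L l236 (L l309 (L l489 (T t2142 N))))))))))))))) (K a239 (Fr a171 a187 l207 (V t2134)) N)))))))))))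 (K a119 (Fr a87 a223 l367 (V t2134)) (K a171 (M a239 (L l125 (F (T t2140 (L l97 (L l103 (L l127 (L l512 (T t2141 (K a87 (M a119 (F (L l143 (T t2130 (L l174 (L l301 (L l415 (L l451 (L l457 (T t2137 (L l174 (L l236 (L l309 (L l489 (T t2142 N))))))))))))))) (K a119 (Fr a87 a223 l367 (V t2123)) N))))))))))) (K a239 (Fr a171 a187 l207 (V t2137)) N))))))))))))))))) (K a155 (M a103 (F (T t2125 (L l301 (L l415 (L l451 (T t2123 (L l231 (L l333 (L l513 (T t2124 N))))))))))) N)))))))))))))) (K a103 (M a155 (L l331 (L l403 (F (T t2132 (L l301 (L l415 (L l451 (T t2031 (L l231 (L l333 (L l513 (T t2124 (K a71 (M a139 (L l125 (L l403 (F (T t2030 (L l301 (L l415 (L l451 (T t2137 (L l236 (L l309 (L l489 (T t2138 (K a87 (M a119 (L l403 (F (T t2135 (L l143 (L l313 (L l349 (L l493 (T t2127 (K a171 (M a239 (F (L l143 (T t2130 (L l174 (L l301 (L l415 (L l451 (L l457 (T t2137 (L l174 (L l236 (L l309 (L l489 (T t2142 N))))))))))))))) (K a239 (Fr a171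 a187 l207 (V t2134)) N))))))))))) (K a119 (Fr a87 a223 l367 (V t2134)) (K a171 (M a239 (L l125 (F (T t2140 (L l97 (L l103 (L l127 (L l512 (T t2141 (K a87 (M a119 (F (L l143 (T t2130 (L l174 (L l301 (L l415 (L l451 (L l457 (T t2137 (L l174 (L l236 (L l309 (L l489 (T t2142 N))))))))))))))) (K a119 (Fr a87 a223 l367 (V t2123)) N))))))))))) (K a239 (Fr a171 a187 l207 (V t2137)) N))))))))))))))))) (K a139 (M a71 (L l403 (F (T t2030 (T t5703 (L l301 (L l415 (L l451 (T t2123 (K a171 (M a239 (F (T t2125 (L l103 (L l506 (T t5704 N)))))) (K a239 (M a171 (F (T t2130 (L l404 (T t5703 (L l301 (L l398 (L l404 (L l415 (L l451 (T t2123 N))))))))))) N))))))))))) (K a171 (M a239 (L l331 (F (T t2130 (L l97 (L l103 (L l512 (T t2141 (K a71 (M a139 (L l125 (F (T t2140 (L l97 (L l103 (L l127 (L l512 (T t2141 (K a87 (M a119 (F (L l143 (T t2130 (L l174 (L l301 (L l415 (L l451 (L l457 (T t2137 (L l174 (L l236 (L l309 (L l489 (T t2142 N)))))))))))))))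 (K a119 (Fr a87 a223 l367 (V t2123)) N))))))))))) (K a139 (M a71 (F (T t2125 (L l103 (L l506 (T t5704 N)))))) N)))))))))) (K a239 (M a171 (L l331 (F (T t2121 (L l307 (L l385 (L l397 (L l487 (T t5705 (K a71 (Fr a139 a187 l207 (V t2137)) (K a139 (M a71 (F (T t2130 (L l404 (T t5703 (L l301 (L l398 (L l404 (L l415 (L l451 (T t2123 N))))))))))) N))))))))))) N))))))))))))))))) (K a139 (M a71 (L l511 (F (T t2125 (L l301 (L l415 (L l451 (T t2123 (L l231 (L l333 (L l513 (T t2124 (K a103 (M a155 (L l403 (F (T t2030 (T t5703 (L l301 (L l415 (L l451 (T t2123 (K a171 (M a239 (F (T t2125 (L l103 (L l506 (T t5704 N)))))) (K a239 (M a171 (F (T t2130 (L l404 (T t5703 (L l301 (L l398 (L l404 (L l415 (L l451 (T t2123 N))))))))))) N))))))))))) (K a155 (M a103 (L l207 (F (T t2030 (T t5706 (K a171 (M a187 (F (T t2140 (L l174 (T t5706 N))))) (K a187 (M a171 (F (T t2140 (L l208 (T t5706 N))))) N))))))) N)))))))))))))) (K a155 (M a103 (L l331 (F (T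 t2125 (L l301 (L l415 (L l451 (T t2123 (L l231 (L l333 (L l513 (T t2124 (K a71 (M a139 (F (T t2125 (L l301 (L l415 (L l451 (T t2123 (L l231 (L l333 (L l513 (T t2124 N))))))))))) (K a139 (M a71 (L l207 (F (T t2030 (T t5706 (K a171 (M a187 (F (T t2140 (L l174 (T t5706 N))))) (K a187 (M a171 (F (T t2140 (L l208 (T t5706 N))))) N))))))) N)))))))))))))) N))))))))))))))))) (K a71 (M a139 (L l43 (L l511 (F (T t2125 (L l301 (L l415 (L l451 (T t2123 (L l231 (L l333 (L l513 (T t2124 (K a19 (M a35 (L l511 (F (T t2125 (L l301 (L l415 (L l451 (T t2123 (L l231 (L l333 (L l513 (T t2124 (K a103 (M a155 (L l125 (F (T t2126 (L l313 (L l493 (T t2127 (K a87 (M a119 (F (T t2128 (L l87 (T t2129 N))))) (K a119 (M a87 (F (T t2030 (L l126 (T t2129 N))))) N))))))))) (K a155 (M a103 (L l367 (F (T t2130 (T t2131 (L l301 (L l415 (L l451 (T t2123 (K a87 (M a223 (F (T t2132 (L l169 (L l506 (T t2133 N)))))) (K a223 (M a87 (F (T t2128 (L l368 (T t2131 (L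 l301 (L l368 (L l415 (L l451 (T t2134 N)))))))))) N))))))))))) N)))))))))))))) (K a35 (M a19 (L l511 (F (T t2125 (L l301 (L l415 (L l451 (T t2123 (L l231 (L l333 (L l513 (T t2124 (K a103 (M a155 (L l125 (L l403 (F (T t2030 (L l301 (L l415 (L l451 (T t2137 (L l236 (L l309 (L l489 (T t2138 (K a87 (M a119 (L l403 (F (T t2135 (L l143 (L l313 (L l349 (L l493 (T t2127 (K a171 (M a239 (F (L l143 (T t2130 (L l174 (L l301 (L l415 (L l451 (L l457 (T t2137 (L l174 (L l236 (L l309 (L l489 (T t2142 N))))))))))))))) (K a239 (Fr a171 a187 l207 (V t2134)) N))))))))))) (K a119 (Fr a87 a223 l367 (V t2134)) (K a171 (M a239 (L l125 (F (T t2140 (L l97 (L l103 (L l127 (L l512 (T t2141 (K a87 (M a119 (F (L l143 (T t2130 (L l174 (L l301 (L l415 (L l451 (L l457 (T t2137 (L l174 (L l236 (L l309 (L l489 (T t2142 N))))))))))))))) (K a119 (Fr a87 a223 l367 (V t2123)) N))))))))))) (K a239 (Fr a171 a187 l207 (V t2137)) N))))))))))))))))) (K a155 (M a103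 (F (T t2125 (L l301 (L l415 (L l451 (T t2123 (L l231 (L l333 (L l513 (T t2124 N))))))))))) N)))))))))))))) (K a103 (M a155 (L l43 (L l125 (F (T t2140 (L l403 (T t2129 (K a19 (M a35 (L l125 (F (T t2126 (L l313 (L l493 (T t2127 (K a87 (M a119 (F (T t2128 (L l87 (T t2129 N))))) (K a119 (M a87 (F (T t2030 (L l126 (T t2129 N))))) N))))))))) (K a35 (M a19 (L l125 (L l403 (F (T t2030 (L l301 (L l415 (L l451 (T t2137 (L l236 (L l309 (L l489 (T t2138 (K a87 (M a119 (L l403 (F (T t2135 (L l143 (L l313 (L l349 (L l493 (T t2127 (K a171 (M a239 (F (L l143 (T t2130 (L l174 (L l301 (L l415 (L l451 (L l457 (T t2137 (L l174 (L l236 (L l309 (L l489 (T t2142 N))))))))))))))) (K a239 (Fr a171 a187 l207 (V t2134)) N))))))))))) (K a119 (Fr a87 a223 l367 (V t2134)) (K a171 (M a239 (L l125 (F (T t2140 (L l97 (L l103 (L l127 (L l512 (T t2141 (K a87 (M a119 (F (L l143 (T t2130 (L l174 (L l301 (L l415 (L l451 (L l457 (T t2137 (L l174 (L l236 (L l309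 (L l489 (T t2142 N))))))))))))))) (K a119 (Fr a87 a223 l367 (V t2123)) N))))))))))) (K a239 (Fr a171 a187 l207 (V t2137)) N))))))))))))))))) (K a87 (M a119 (L l43 (F (T t2128 (L l87 (L l403 (T t2129 (K a19 (M a35 (F (T t2128 (L l87 (T t2129 N))))) (K a35 (M a19 (L l403 (F (T t2135 (L l143 (L l313 (L l349 (L l493 (T t2127 (K a171 (M a239 (F (L l143 (T t2130 (L l174 (L l301 (L l415 (L l451 (L l457 (T t2137 (L l174 (L l236 (L l309 (L l489 (T t2142 N))))))))))))))) (K a239 (Fr a171 a187 l207 (V t2134)) N))))))))))) N))))))))) (K a119 (M a87 (L l43 (F (T t2135 (L l113 (L l313 (L l493 (T t2127 (K a19 (M a35 (F (T t2030 (L l126 (T t2129 N))))) (K a35 (Fr a19 a223 l367 (V t2134)) N)))))))))) N))))))))))) (K a155 (M a103 (L l43 (F (T t2125 (L l301 (L l415 (L l451 (T t2123 (L l231 (L l333 (L l513 (T t2124 (K a19 (M a35 (L l367 (F (T t2130 (T t2131 (L l301 (L l415 (L l451 (T t2123 (K a87 (M a223 (F (T t2132 (L l169 (L l506 (T t2133 N))))))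 (K a223 (M a87 (F (T t2128 (L l368 (T t2131 (L l301 (L l368 (L l415 (L l451 (T t2134 N)))))))))) N))))))))))) (K a35 (M a19 (F (T t2125 (L l301 (L l415 (L l451 (T t2123 (L l231 (L l333 (L l513 (T t2124 N))))))))))) N)))))))))))))) N))))))))))))))))) (K a103 (M a155 (L l43 (L l331 (F (T t2125 (L l301 (L l415 (L l451 (T t2123 (L l231 (L l333 (L l513 (T t2124 (K a19 (M a35 (L l331 (F (T t2125 (L l301 (L l415 (L l451 (T t2123 (L l231 (L l333 (L l513 (T t2124 (K a71 (M a139 (L l125 (F (T t2126 (L l313 (L l493 (T t2127 (K a87 (M a119 (F (T t2128 (L l87 (T t2129 N))))) (K a119 (M a87 (F (T t2030 (L l126 (T t2129 N))))) N))))))))) (K a139 (M a71 (F (T t2125 (L l301 (L l415 (L l451 (T t2123 (L l231 (L l333 (L l513 (T t2124 N))))))))))) N)))))))))))))) (K a35 (M a19 (L l331 (L l403 (F (T t2132 (L l301 (L l415 (L l451 (T t2031 (L l231 (L l333 (L l513 (T t2124 (K a71 (M a139 (L l125 (L l403 (F (T t2030 (L l301 (L l415 (L l451 (T t2137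 (L l236 (L l309 (L l489 (T t2138 (K a87 (M a119 (L l403 (F (T t2135 (L l143 (L l313 (L l349 (L l493 (T t2127 (K a171 (M a239 (F (L l143 (T t2130 (L l174 (L l301 (L l415 (L l451 (L l457 (T t2137 (L l174 (L l236 (L l309 (L l489 (T t2142 N))))))))))))))) (K a239 (Fr a171 a187 l207 (V t2134)) N))))))))))) (K a119 (Fr a87 a223 l367 (V t2134)) (K a171 (M a239 (L l125 (F (T t2140 (L l97 (L l103 (L l127 (L l512 (T t2141 (K a87 (M a119 (F (L l143 (T t2130 (L l174 (L l301 (L l415 (L l451 (L l457 (T t2137 (L l174 (L l236 (L l309 (L l489 (T t2142 N))))))))))))))) (K a119 (Fr a87 a223 l367 (V t2123)) N))))))))))) (K a239 (Fr a171 a187 l207 (V t2137)) N))))))))))))))))) (K a139 (M a71 (L l403 (F (T t2030 (T t5703 (L l301 (L l415 (L l451 (T t2123 (K a171 (M a239 (F (T t2125 (L l103 (L l506 (T t5704 N)))))) (K a239 (M a171 (F (T t2130 (L l404 (T t5703 (L l301 (L l398 (L l404 (L l415 (L l451 (T t2123 N))))))))))) N))))))))))) (K a171 (M a239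 (L l331 (F (T t2130 (L l97 (L l103 (L l512 (T t2141 (K a71 (M a139 (L l125 (F (T t2140 (L l97 (L l103 (L l127 (L l512 (T t2141 (K a87 (M a119 (F (L l143 (T t2130 (L l174 (L l301 (L l415 (L l451 (L l457 (T t2137 (L l174 (L l236 (L l309 (L l489 (T t2142 N))))))))))))))) (K a119 (Fr a87 a223 l367 (V t2123)) N))))))))))) (K a139 (M a71 (F (T t2125 (L l103 (L l506 (T t5704 N)))))) N)))))))))) (K a239 (M a171 (L l331 (F (T t2121 (L l307 (L l385 (L l397 (L l487 (T t5705 (K a71 (Fr a139 a187 l207 (V t2137)) (K a139 (M a71 (F (T t2130 (L l404 (T t5703 (L l301 (L l398 (L l404 (L l415 (L l451 (T t2123 N))))))))))) N))))))))))) N))))))))))))))))) (K a71 (M a139 (L l43 (L l125 (F (T t2140 (L l403 (T t2129 (K a19 (M a35 (L l125 (F (T t2126 (L l313 (L l493 (T t2127 (K a87 (M a119 (F (T t2128 (L l87 (T t2129 N))))) (K a119 (M a87 (F (T t2030 (L l126 (T t2129 N))))) N))))))))) (K a35 (M a19 (L l125 (L l403 (F (T t2030 (L l301 (L l415 (L l451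 (T t2137 (L l236 (L l309 (L l489 (T t2138 (K a87 (M a119 (L l403 (F (T t2135 (L l143 (L l313 (L l349 (L l493 (T t2127 (K a171 (M a239 (F (L l143 (T t2130 (L l174 (L l301 (L l415 (L l451 (L l457 (T t2137 (L l174 (L l236 (L l309 (L l489 (T t2142 N))))))))))))))) (K a239 (Fr a171 a187 l207 (V t2134)) N))))))))))) (K a119 (Fr a87 a223 l367 (V t2134)) (K a171 (M a239 (L l125 (F (T t2140 (L l97 (L l103 (L l127 (L l512 (T t2141 (K a87 (M a119 (F (L l143 (T t2130 (L l174 (L l301 (L l415 (L l451 (L l457 (T t2137 (L l174 (L l236 (L l309 (L l489 (T t2142 N))))))))))))))) (K a119 (Fr a87 a223 l367 (V t2123)) N))))))))))) (K a239 (Fr a171 a187 l207 (V t2137)) N))))))))))))))))) (K a87 (M a119 (L l43 (F (T t2128 (L l87 (L l403 (T t2129 (K a19 (M a35 (F (T t2128 (L l87 (T t2129 N))))) (K a35 (M a19 (L l403 (F (T t2135 (L l143 (L l313 (L l349 (L l493 (T t2127 (K a171 (M a239 (F (L l143 (T t2130 (L l174 (L l301 (L l415 (L l451 (L l457 (T t2137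 (L l174 (L l236 (L l309 (L l489 (T t2142 N))))))))))))))) (K a239 (Fr a171 a187 l207 (V t2134)) N))))))))))) N))))))))) (K a119 (M a87 (L l43 (F (T t2135 (L l113 (L l313 (L l493 (T t2127 (K a19 (M a35 (F (T t2030 (L l126 (T t2129 N))))) (K a35 (Fr a19 a223 l367 (V t2134)) N)))))))))) N))))))))))) (K a139 (M a71 (L l43 (F (T t2125 (L l301 (L l415 (L l451 (T t2123 (L l231 (L l333 (L l513 (T t2124 (K a19 (M a35 (F (T t2125 (L l301 (L l415 (L l451 (T t2123 (L l231 (L l333 (L l513 (T t2124 N))))))))))) (K a35 (M a19 (L l403 (F (T t2030 (T t5703 (L l301 (L l415 (L l451 (T t2123 (K a171 (M a239 (F (T t2125 (L l103 (L l506 (T t5704 N)))))) (K a239 (M a171 (F (T t2130 (L l404 (T t5703 (L l301 (L l398 (L l404 (L l415 (L l451 (T t2123 N))))))))))) N))))))))))) N)))))))))))))) N))))))))))))))))) (K a139 (M a71 (L l43 (L l511 (F (T t2125 (L l301 (L l415 (L l451 (T t2123 (L l231 (L l333 (L l513 (T t2124 (K a19 (M a35 (L l511 (F (T t2125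 (L l301 (L l415 (L l451 (T t2123 (L l231 (L l333 (L l513 (T t2124 (K a103 (M a155 (F (T t2125 (L l301 (L l415 (L l451 (T t2123 (L l231 (L l333 (L l513 (T t2124 N))))))))))) (K a155 (M a103 (L l207 (L l367 (F (T t2132 (L l301 (L l415 (L l451 (T t2031 (L l231 (L l333 (L l513 (T t2124 (K a87 (M a223 (L l207 (F (T t5297 (L l506 (T t5699 (K a171 (M a187 (F (L l219 (T t2128 (L l174 (L l236 (L l309 (L l489 (T t2142 (L l174 (L l301 (L l415 (L l451 (T t2123 N)))))))))))))) (K a187 (Fr a171 a239 l403 (V t2034)) N)))))))) (K a171 (M a187 (L l367 (F (T t2033 (L l219 (L l319 (L l391 (L l499 (T t5700 (K a87 (M a223 (F (L l219 (T t2128 (L l174 (L l236 (L l309 (L l489 (T t2142 (L l174 (L l301 (L l415 (L l451 (T t2123 N)))))))))))))) (K a223 (Fr a87 a119 l125 (V t2142)) N))))))))))) (K a187 (Fr a171 a239 l403 (V t2138)) (K a223 (Fr a87 a119 l125 (V t2031)) N))))))))))))))))) N)))))))))))))) (K a35 (M a19 (L l511 (F (T t2125 (L l301 (L l415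 (L l451 (T t2123 (L l231 (L l333 (L l513 (T t2124 (K a103 (M a155 (L l403 (F (T t2030 (T t5703 (L l301 (L l415 (L l451 (T t2123 (K a171 (M a239 (F (T t2125 (L l103 (L l506 (T t5704 N)))))) (K a239 (M a171 (F (T t2130 (L l404 (T t5703 (L l301 (L l398 (L l404 (L l415 (L l451 (T t2123 N))))))))))) N))))))))))) (K a155 (M a103 (L l207 (F (T t2030 (T t5706 (K a171 (M a187 (F (T t2140 (L l174 (T t5706 N))))) (K a187 (M a171 (F (T t2140 (L l208 (T t5706 N))))) N))))))) N)))))))))))))) (K a103 (M a155 (L l43 (F (T t2125 (L l301 (L l415 (L l451 (T t2123 (L l231 (L l333 (L l513 (T t2124 (K a19 (M a35 (F (T t2125 (L l301 (L l415 (L l451 (T t2123 (L l231 (L l333 (L l513 (T t2124 N))))))))))) (K a35 (M a19 (L l403 (F (T t2030 (T t5703 (L l301 (L l415 (L l451 (T t2123 (K a171 (M a239 (F (T t2125 (L l103 (L l506 (T t5704 N)))))) (K a239 (M a171 (F (T t2130 (L l404 (T t5703 (L l301 (L l398 (L l404 (L l415 (L l451 (T t2123 N))))))))))) N)))))))))))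 N)))))))))))))) (K a155 (M a103 (L l43 (L l207 (F (T t2140 (L l367 (T t5706 (K a19 (M a35 (L l207 (L l367 (F (T t2132 (L l301 (L l415 (L l451 (T t2031 (L l231 (L l333 (L l513 (T t2124 (K a87 (M a223 (L l207 (F (T t5297 (L l506 (T t5699 (K a171 (M a187 (F (L l219 (T t2128 (L l174 (L l236 (L l309 (L l489 (T t2142 (L l174 (L l301 (L l415 (L l451 (T t2123 N)))))))))))))) (K a187 (Fr a171 a239 l403 (V t2034)) N)))))))) (K a171 (M a187 (L l367 (F (T t2033 (L l219 (L l319 (L l391 (L l499 (T t5700 (K a87 (M a223 (F (L l219 (T t2128 (L l174 (L l236 (L l309 (L l489 (T t2142 (L l174 (L l301 (L l415 (L l451 (T t2123 N)))))))))))))) (K a223 (Fr a87 a119 l125 (V t2142)) N))))))))))) (K a187 (Fr a171 a239 l403 (V t2138)) (K a223 (Fr a87 a119 l125 (V t2031)) N))))))))))))))))) (K a35 (M a19 (L l207 (F (T t2030 (T t5706 (K a171 (M a187 (F (T t2140 (L l174 (T t5706 N))))) (K a187 (M a171 (F (T t2140 (L l208 (T t5706 N))))) N))))))) (K a171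 (M a187 (L l43 (F (T t2033 (L l219 (L l319 (L l391 (L l499 (T t5700 (K a19 (M a35 (L l367 (F (T t2033 (L l219 (L l319 (L l391 (L l499 (T t5700 (K a87 (M a223 (F (L l219 (T t2128 (L l174 (L l236 (L l309 (L l489 (T t2142 (L l174 (L l301 (L l415 (L l451 (T t2123 N)))))))))))))) (K a223 (Fr a87 a119 l125 (V t2142)) N))))))))))) (K a35 (M a19 (F (T t2140 (L l174 (T t5706 N))))) N))))))))))) (K a187 (M a171 (L l43 (F (T t2130 (L l208 (L l367 (T t5706 (K a19 (Fr a35 a239 l403 (V t2138)) (K a35 (M a19 (F (T t2140 (L l208 (T t5706 N))))) N))))))))) N))))))))))) N))))))))))))))))) (K a155 (M a103 (L l43 (L l331 (F (T t2125 (L l301 (L l415 (L l451 (T t2123 (L l231 (L l333 (L l513 (T t2124 (K a19 (M a35 (L l331 (L l367 (F (T t2132 (L l301 (L l415 (L l451 (T t2031 (L l231 (L l333 (L l513 (T t2124 (K a71 (M a139 (L l367 (F (T t2130 (T t2131 (L l301 (L l415 (L l451 (T t2123 (K a87 (M a223 (F (T t2132 (L l169 (L l506 (T t2133 N)))))) (K a223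 (M a87 (F (T t2128 (L l368 (T t2131 (L l301 (L l368 (L l415 (L l451 (T t2134 N)))))))))) N))))))))))) (K a87 (M a223 (L l331 (F (T t2128 (L l164 (L l512 (T t5701 (K a71 (M a139 (F (T t2132 (L l169 (L l506 (T t2133 N)))))) (K a139 (M a71 (L l207 (F (T t5297 (L l506 (T t5699 (K a171 (M a187 (F (L l219 (T t2128 (L l174 (L l236 (L l309 (L l489 (T t2142 (L l174 (L l301 (L l415 (L l451 (T t2123 N)))))))))))))) (K a187 (Fr a171 a239 l403 (V t2034)) N)))))))) N))))))))) (K a139 (M a71 (L l207 (L l367 (F (T t2132 (L l301 (L l415 (L l451 (T t2031 (L l231 (L l333 (L l513 (T t2124 (K a87 (M a223 (L l207 (F (T t5297 (L l506 (T t5699 (K a171 (M a187 (F (L l219 (T t2128 (L l174 (L l236 (L l309 (L l489 (T t2142 (L l174 (L l301 (L l415 (L l451 (T t2123 N)))))))))))))) (K a187 (Fr a171 a239 l403 (V t2034)) N)))))))) (K a171 (M a187 (L l367 (F (T t2033 (L l219 (L l319 (L l391 (L l499 (T t5700 (K a87 (M a223 (F (L l219 (T t2128 (L l174 (L l236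 (L l309 (L l489 (T t2142 (L l174 (L l301 (L l415 (L l451 (T t2123 N)))))))))))))) (K a223 (Fr a87 a119 l125 (V t2142)) N))))))))))) (K a187 (Fr a171 a239 l403 (V t2138)) (K a223 (Fr a87 a119 l125 (V t2031)) N))))))))))))))))) (K a223 (M a87 (L l331 (F (T t2135 (L l307 (L l355 (L l361 (L l487 (T t5702 (K a71 (M a139 (F (T t2128 (L l368 (T t2131 (L l301 (L l368 (L l415 (L l451 (T t2134 N)))))))))) (K a139 (Fr a71 a119 l125 (V t2031)) N))))))))))) N))))))))))))))))) (K a35 (M a19 (L l331 (F (T t2125 (L l301 (L l415 (L l451 (T t2123 (L l231 (L l333 (L l513 (T t2124 (K a71 (M a139 (F (T t2125 (L l301 (L l415 (L l451 (T t2123 (L l231 (L l333 (L l513 (T t2124 N))))))))))) (K a139 (M a71 (L l207 (F (T t2030 (T t5706 (K a171 (M a187 (F (T t2140 (L l174 (T t5706 N))))) (K a187 (M a171 (F (T t2140 (L l208 (T t5706 N))))) N))))))) N)))))))))))))) (K a71 (M a139 (L l43 (F (T t2125 (L l301 (L l415 (L l451 (T t2123 (L l231 (L l333 (L l513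 (T t2124 (K a19 (M a35 (L l367 (F (T t2130 (T t2131 (L l301 (L l415 (L l451 (T t2123 (K a87 (M a223 (F (T t2132 (L l169 (L l506 (T t2133 N)))))) (K a223 (M a87 (F (T t2128 (L l368 (T t2131 (L l301 (L l368 (L l415 (L l451 (T t2134 N)))))))))) N))))))))))) (K a35 (M a19 (F (T t2125 (L l301 (L l415 (L l451 (T t2123 (L l231 (L l333 (L l513 (T t2124 N))))))))))) N)))))))))))))) (K a139 (M a71 (L l43 (L l207 (F (T t2140 (L l367 (T t5706 (K a19 (M a35 (L l207 (L l367 (F (T t2132 (L l301 (L l415 (L l451 (T t2031 (L l231 (L l333 (L l513 (T t2124 (K a87 (M a223 (L l207 (F (T t5297 (L l506 (T t5699 (K a171 (M a187 (F (L l219 (T t2128 (L l174 (L l236 (L l309 (L l489 (T t2142 (L l174 (L l301 (L l415 (L l451 (T t2123 N)))))))))))))) (K a187 (Fr a171 a239 l403 (V t2034)) N)))))))) (K a171 (M a187 (L l367 (F (T t2033 (L l219 (L l319 (L l391 (L l499 (T t5700 (K a87 (M a223 (F (L l219 (T t2128 (L l174 (L l236 (L l309 (L l489 (T t2142 (L l174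 (L l301 (L l415 (L l451 (T t2123 N)))))))))))))) (K a223 (Fr a87 a119 l125 (V t2142)) N))))))))))) (K a187 (Fr a171 a239 l403 (V t2138)) (K a223 (Fr a87 a119 l125 (V t2031)) N))))))))))))))))) (K a35 (M a19 (L l207 (F (T t2030 (T t5706 (K a171 (M a187 (F (T t2140 (L l174 (T t5706 N))))) (K a187 (M a171 (F (T t2140 (L l208 (T t5706 N))))) N))))))) (K a171 (M a187 (L l43 (F (T t2033 (L l219 (L l319 (L l391 (L l499 (T t5700 (K a19 (M a35 (L l367 (F (T t2033 (L l219 (L l319 (L l391 (L l499 (T t5700 (K a87 (M a223 (F (L l219 (T t2128 (L l174 (L l236 (L l309 (L l489 (T t2142 (L l174 (L l301 (L l415 (L l451 (T t2123 N)))))))))))))) (K a223 (Fr a87 a119 l125 (V t2142)) N))))))))))) (K a35 (M a19 (F (T t2140 (L l174 (T t5706 N))))) N))))))))))) (K a187 (M a171 (L l43 (F (T t2130 (L l208 (L l367 (T t5706 (K a19 (Fr a35 a239 l403 (V t2138)) (K a35 (M a19 (F (T t2140 (L l208 (T t5706 N))))) N))))))))) N))))))))))) N))))))))))))))))) N))))))))))))))))))))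 (K a71 (M a139 (F (T t150 (L l43 (L l511 (T t122 (L l43 (L l511 (T t151 (L l43 (L l511 (T t152 (L l43 (L l511 (T t153 (K a4 (M a85 (F (T t89 (L l231 (L l333 (T t124 (T t154 N))))))) (K a8 (M a85 (F (L l56 (T t89 (L l231 (L l333 (L l464 (T t124 (L l56 (T t154 N)))))))))) (K a21 (M a10 (F (L l47 (T t2146 (L l50 (L l83 (L l236 (T t2147 N)))))))) (K a25 (M a10 (F (L l15 (T t2148 (L l53 (L l83 (L l236 (T t2147 N)))))))) (K a29 (M a10 (F (L l13 (L l15 (T t2148 (L l83 (L l236 (T t2147 N)))))))) (K a38 (M a10 (F (L l29 (L l69 (L l506 (T t2149 (L l50 (L l83 (L l236 (T t2147 N)))))))))) (K a42 (M a10 (F (L l83 (T t2150 (L l26 (L l69 (L l506 (T t2151 N)))))))) (K a46 (M a10 (F (T t2148 (L l83 (L l236 (T t2147 N)))))) (K a51 (M a255 (L l43 (L l511 (F (T t2125 (L l301 (L l415 (L l451 (T t2123 (L l231 (L l333 (L l513 (T t2124 (K a19 (M a35 (L l511 (F (T t2125 (L l301 (L l415 (L l451 (T t2123 (L l231 (L l333 (L l513 (T t2124 (K a103 (M a155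 (L l125 (F (T t2126 (L l313 (L l493 (T t2127 (K a87 (M a119 (F (T t2128 (L l87 (T t2129 N))))) (K a119 (M a87 (F (T t2030 (L l126 (T t2129 N))))) N))))))))) (K a155 (M a103 (L l367 (F (T t2130 (T t2131 (L l301 (L l415 (L l451 (T t2123 (K a87 (M a223 (F (T t2132 (L l169 (L l506 (T t2133 N)))))) (K a223 (M a87 (F (T t2128 (L l368 (T t2131 (L l301 (L l368 (L l415 (L l451 (T t2134 N)))))))))) N))))))))))) N)))))))))))))) (K a35 (M a19 (L l511 (F (T t2125 (L l301 (L l415 (L l451 (T t2123 (L l231 (L l333 (L l513 (T t2124 (K a103 (M a155 (L l125 (L l403 (F (T t2030 (L l301 (L l415 (L l451 (T t2137 (L l236 (L l309 (L l489 (T t2138 (K a87 (M a119 (L l403 (F (T t2135 (L l143 (L l313 (L l349 (L l493 (T t2127 (K a171 (M a239 (F (L l143 (T t2130 (L l174 (L l301 (L l415 (L l451 (L l457 (T t2137 (L l174 (L l236 (L l309 (L l489 (T t2142 N))))))))))))))) (K a239 (Fr a171 a187 l207 (V t2134)) N))))))))))) (K a119 (Fr a87 a223 l367 (V t2134))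 (K a171 (M a239 (L l125 (F (T t2140 (L l97 (L l103 (L l127 (L l512 (T t2141 (K a87 (M a119 (F (L l143 (T t2130 (L l174 (L l301 (L l415 (L l451 (L l457 (T t2137 (L l174 (L l236 (L l309 (L l489 (T t2142 N))))))))))))))) (K a119 (Fr a87 a223 l367 (V t2123)) N))))))))))) (K a239 (Fr a171 a187 l207 (V t2137)) N))))))))))))))))) (K a155 (M a103 (F (T t2125 (L l301 (L l415 (L l451 (T t2123 (L l231 (L l333 (L l513 (T t2124 N))))))))))) N)))))))))))))) (K a103 (M a155 (L l43 (L l125 (F (T t2140 (L l403 (T t2129 (K a19 (M a35 (L l125 (F (T t2126 (L l313 (L l493 (T t2127 (K a87 (M a119 (F (T t2128 (L l87 (T t2129 N))))) (K a119 (M a87 (F (T t2030 (L l126 (T t2129 N))))) N))))))))) (K a35 (M a19 (L l125 (L l403 (F (T t2030 (L l301 (L l415 (L l451 (T t2137 (L l236 (L l309 (L l489 (T t2138 (K a87 (M a119 (L l403 (F (T t2135 (L l143 (L l313 (L l349 (L l493 (T t2127 (K a171 (M a239 (F (L l143 (T t2130 (L l174 (L l301 (L l415 (L l451 (L l457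 (T t2137 (L l174 (L l236 (L l309 (L l489 (T t2142 N))))))))))))))) (K a239 (Fr a171 a187 l207 (V t2134)) N))))))))))) (K a119 (Fr a87 a223 l367 (V t2134)) (K a171 (M a239 (L l125 (F (T t2140 (L l97 (L l103 (L l127 (L l512 (T t2141 (K a87 (M a119 (F (L l143 (T t2130 (L l174 (L l301 (L l415 (L l451 (L l457 (T t2137 (L l174 (L l236 (L l309 (L l489 (T t2142 N))))))))))))))) (K a119 (Fr a87 a223 l367 (V t2123)) N))))))))))) (K a239 (Fr a171 a187 l207 (V t2137)) N))))))))))))))))) (K a87 (M a119 (L l43 (F (T t2128 (L l87 (L l403 (T t2129 (K a19 (M a35 (F (T t2128 (L l87 (T t2129 N))))) (K a35 (M a19 (L l403 (F (T t2135 (L l143 (L l313 (L l349 (L l493 (T t2127 (K a171 (M a239 (F (L l143 (T t2130 (L l174 (L l301 (L l415 (L l451 (L l457 (T t2137 (L l174 (L l236 (L l309 (L l489 (T t2142 N))))))))))))))) (K a239 (Fr a171 a187 l207 (V t2134)) N))))))))))) N))))))))) (K a119 (M a87 (L l43 (F (T t2135 (L l113 (L l313 (L l493 (T t2127 (K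 a19 (M a35 (F (T t2030 (L l126 (T t2129 N))))) (K a35 (Fr a19 a223 l367 (V t2134)) N)))))))))) N))))))))))) (K a155 (M a103 (L l43 (F (T t2125 (L l301 (L l415 (L l451 (T t2123 (L l231 (L l333 (L l513 (T t2124 (K a19 (M a35 (L l367 (F (T t2130 (T t2131 (L l301 (L l415 (L l451 (T t2123 (K a87 (M a223 (F (T t2132 (L l169 (L l506 (T t2133 N)))))) (K a223 (M a87 (F (T t2128 (L l368 (T t2131 (L l301 (L l368 (L l415 (L l451 (T t2134 N)))))))))) N))))))))))) (K a35 (M a19 (F (T t2125 (L l301 (L l415 (L l451 (T t2123 (L l231 (L l333 (L l513 (T t2124 N))))))))))) N)))))))))))))) N))))))))))))))))) N)))))))))))))))))))))))) (K a139 (M a71 (F (T t150 (L l43 (L l511 (T t122 (L l43 (L l511 (T t151 (L l43 (L l511 (T t152 (L l43 (L l511 (T t153 (K a4 (M a85 (F (T t89 (L l231 (L l333 (T t124 (T t154 N))))))) (K a8 (M a85 (F (L l56 (T t89 (L l231 (L l333 (L l464 (T t124 (L l56 (T t154 N)))))))))) (K a21 (M a5 (F (L l159 (T t5707 (L l69 (L l506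 (T t1107 N))))))) (K a25 (M a5 (F (L l19 (L l69 (L l506 (T t1107 (L l56 (L l159 (T t5707 N))))))))) (K a29 (M a5 (F (T t5073 (L l159 (T t5707 N))))) (K a38 (M a5 (F (L l26 (T t5073 (L l48 (L l159 (T t5707 N))))))) (K a42 (M a5 (F (L l54 (T t5708 (L l56 (L l159 (T t5707 N))))))) (K a46 (M a5 (F (L l23 (L l26 (T t5073 (L l159 (T t5707 N))))))) (K a51 (M a255 (L l43 (L l511 (F (T t2125 (L l301 (L l415 (L l451 (T t2123 (L l231 (L l333 (L l513 (T t2124 (K a19 (M a35 (L l511 (F (T t2125 (L l301 (L l415 (L l451 (T t2123 (L l231 (L l333 (L l513 (T t2124 (K a103 (M a155 (F (T t2125 (L l301 (L l415 (L l451 (T t2123 (L l231 (L l333 (L l513 (T t2124 N))))))))))) (K a155 (M a103 (L l207 (L l367 (F (T t2132 (L l301 (L l415 (L l451 (T t2031 (L l231 (L l333 (L l513 (T t2124 (K a87 (M a223 (L l207 (F (T t5297 (L l506 (T t5699 (K a171 (M a187 (F (L l219 (T t2128 (L l174 (L l236 (L l309 (L l489 (T t2142 (L l174 (L l301 (L l415 (L l451 (T t2123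 N)))))))))))))) (K a187 (Fr a171 a239 l403 (V t2034)) N)))))))) (K a171 (M a187 (L l367 (F (T t2033 (L l219 (L l319 (L l391 (L l499 (T t5700 (K a87 (M a223 (F (L l219 (T t2128 (L l174 (L l236 (L l309 (L l489 (T t2142 (L l174 (L l301 (L l415 (L l451 (T t2123 N)))))))))))))) (K a223 (Fr a87 a119 l125 (V t2142)) N))))))))))) (K a187 (Fr a171 a239 l403 (V t2138)) (K a223 (Fr a87 a119 l125 (V t2031)) N))))))))))))))))) N)))))))))))))) (K a35 (M a19 (L l511 (F (T t2125 (L l301 (L l415 (L l451 (T t2123 (L l231 (L l333 (L l513 (T t2124 (K a103 (M a155 (L l403 (F (T t2030 (T t5703 (L l301 (L l415 (L l451 (T t2123 (K a171 (M a239 (F (T t2125 (L l103 (L l506 (T t5704 N)))))) (K a239 (M a171 (F (T t2130 (L l404 (T t5703 (L l301 (L l398 (L l404 (L l415 (L l451 (T t2123 N))))))))))) N))))))))))) (K a155 (M a103 (L l207 (F (T t2030 (T t5706 (K a171 (M a187 (F (T t2140 (L l174 (T t5706 N))))) (K a187 (M a171 (F (T t2140 (L l208 (T t5706 N)))))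 N))))))) N)))))))))))))) (K a103 (M a155 (L l43 (F (T t2125 (L l301 (L l415 (L l451 (T t2123 (L l231 (L l333 (L l513 (T t2124 (K a19 (M a35 (F (T t2125 (L l301 (L l415 (L l451 (T t2123 (L l231 (L l333 (L l513 (T t2124 N))))))))))) (K a35 (M a19 (L l403 (F (T t2030 (T t5703 (L l301 (L l415 (L l451 (T t2123 (K a171 (M a239 (F (T t2125 (L l103 (L l506 (T t5704 N)))))) (K a239 (M a171 (F (T t2130 (L l404 (T t5703 (L l301 (L l398 (L l404 (L l415 (L l451 (T t2123 N))))))))))) N))))))))))) N)))))))))))))) (K a155 (M a103 (L l43 (L l207 (F (T t2140 (L l367 (T t5706 (K a19 (M a35 (L l207 (L l367 (F (T t2132 (L l301 (L l415 (L l451 (T t2031 (L l231 (L l333 (L l513 (T t2124 (K a87 (M a223 (L l207 (F (T t5297 (L l506 (T t5699 (K a171 (M a187 (F (L l219 (T t2128 (L l174 (L l236 (L l309 (L l489 (T t2142 (L l174 (L l301 (L l415 (L l451 (T t2123 N)))))))))))))) (K a187 (Fr a171 a239 l403 (V t2034)) N)))))))) (K a171 (M a187 (L l367 (F (T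 t2033 (L l219 (L l319 (L l391 (L l499 (T t5700 (K a87 (M a223 (F (L l219 (T t2128 (L l174 (L l236 (L l309 (L l489 (T t2142 (L l174 (L l301 (L l415 (L l451 (T t2123 N)))))))))))))) (K a223 (Fr a87 a119 l125 (V t2142)) N))))))))))) (K a187 (Fr a171 a239 l403 (V t2138)) (K a223 (Fr a87 a119 l125 (V t2031)) N))))))))))))))))) (K a35 (M a19 (L l207 (F (T t2030 (T t5706 (K a171 (M a187 (F (T t2140 (L l174 (T t5706 N))))) (K a187 (M a171 (F (T t2140 (L l208 (T t5706 N))))) N))))))) (K a171 (M a187 (L l43 (F (T t2033 (L l219 (L l319 (L l391 (L l499 (T t5700 (K a19 (M a35 (L l367 (F (T t2033 (L l219 (L l319 (L l391 (L l499 (T t5700 (K a87 (M a223 (F (L l219 (T t2128 (L l174 (L l236 (L l309 (L l489 (T t2142 (L l174 (L l301 (L l415 (L l451 (T t2123 N)))))))))))))) (K a223 (Fr a87 a119 l125 (V t2142)) N))))))))))) (K a35 (M a19 (F (T t2140 (L l174 (T t5706 N))))) N))))))))))) (K a187 (M a171 (L l43 (F (T t2130 (L l208 (L l367 (T t5706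 (K a19 (Fr a35 a239 l403 (V t2138)) (K a35 (M a19 (F (T t2140 (L l208 (T t5706 N))))) N))))))))) N))))))))))) N))))))))))))))))) N)))))))))))))))))))))))) N)))))))))))))))))))))))))))⟩
def e0_63__207_2 : Ent 4 := ⟨[a0, a63], [a207, a5], (M a60 (F (T t522 (L l47 (L l331 (T t67 (L l331 (T t43 (L l47 (L l331 (T t68 (L l5 (L l331 (T t69 (K a20 (M a48 (F (T t277 (L l11 (L l14 (L l47 (L l325 (T t3 (L l46 (T t71 N)))))))))) (K a40 (M a48 (F (L l511 (T t70 (L l47 (L l325 (T t3 (L l22 (L l24 (T t71 N)))))))))) (K a21 (M a192 (L l47 (F (T t1343 (L l11 (L l291 (T t79 (L l347 (T t74 (K a37 (M a53 (F (T t2658 (L l50 (L l71 (T t5176 N)))))) (K a53 (M a37 (F (T t2647 (L l235 (L l347 (L l491 (T t73 (L l11 (T t78 N))))))))) N))))))))))) (K a41 (M a192 (F (T t81 (L l291 (T t79 (L l47 (L l65 (L l289 (T t35 N))))))))) (K a61 (M a192 (F (T t1334 (L l47 (L l65 (L l289 (L l515 (T t35 (T t80 N))))))))) (K a22 (M a192 (F (T t614 (L l11 (L l291 (T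 t79 (L l11 (L l47 (L l289 (T t35 N)))))))))) (K a42 (M a192 (F (T t614 (L l291 (T t79 (L l22 (T t74 N))))))) (K a62 (M a192 (F (T t2658 (L l47 (L l289 (T t35 (L l66 (L l516 (T t80 N))))))))) (K a3 (M a106 (L l331 (F (T t2792 (L l47 (T t1513 (K a71 (M a139 (F (T t2359 (L l236 (L l309 (T t4429 (T t2369 N))))))) (K a139 (M a71 (F (T t2359 (L l236 (L l309 (T t4429 (T t2369 N))))))) N)))))))) N)))))))))))))))))))))))⟩
def e0_63__207_3 : Ent 4 := ⟨[a0, a63], [a207, a6], (M a60 (F (T t116 (L l9 (L l331 (T t67 (L l9 (L l331 (T t43 (L l6 (L l9 (L l331 (T t68 (L l9 (L l331 (T t69 (K a20 (M a48 (F (T t138 (L l6 (L l11 (L l325 (T t1 (L l1 (L l6 (L l11 (T t235 N))))))))))) (K a40 (M a48 (F (T t607 (L l511 (T t64 (L l1 (L l6 (L l52 (T t235 N))))))))) (K a21 (M a192 (F (T t1343 (L l11 (L l291 (T t79 (L l347 (T t74 N)))))))) (K a41 (M a192 (F (T t81 (L l291 (T t79 (L l65 (L l289 (T t35 N)))))))) (K a61 (M a192 (F (T t1334 (L l65 (L l289 (L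 l515 (T t35 (T t80 N)))))))) (K a22 (M a54 (F (T t5188 (L l9 (L l11 (L l326 (T t3771 (L l1 (L l11 (L l16 (L l19 (T t3772 N)))))))))))) (K a42 (M a192 (F (T t614 (L l291 (T t79 (L l22 (T t74 N))))))) (K a62 (M a192 (F (T t57 (L l291 (T t79 (L l66 (L l516 (T t80 N)))))))) (K a3 (M a12 (L l331 (F (T t421 (L l43 (L l511 (T t122 (L l6 (L l7 (L l325 (T t398 (K a71 (M a139 (F (T t1252 (L l45 (L l512 (T t410 (L l7 (L l325 (T t680 N))))))))) (K a139 (M a71 (F (T t1252 (L l45 (L l512 (T t410 (L l7 (L l325 (T t680 N))))))))) N))))))))))))) N)))))))))))))))))))))))))⟩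
def e0_63__207_4 : Ent 4 := ⟨[a0, a63], [a207, a7], (M a12 (F (T t1252 (L l511 (T t122 (L l511 (T t151 (L l1 (L l511 (T t152 (L l49 (L l511 (T t153 (K a4 (M a5 (F (T t5073 (L l506 (T t1107 (T t3134 (T t3135 N))))))) (K a8 (M a60 (F (T t116 (T t423 (L l49 (L l52 (L l56 (T t448 N)))))))) (K a21 (M a192 (F (T t158 (L l231 (T t156 (L l15 (L l347 (L l457 (T t157 N))))))))) (K a25 (M a192 (F (T t155 (L l231 (T t156 (L l289 (T t21 N))))))) (K a29 (M a192 (F (T t1725 (L l289 (L l371 (T t21 (T t160 N))))))) (K a38 (M a192 (F (T t161 (L l231 (T t156 (L l289 (T t21 N))))))) (K a42 (M a192 (F (T t161 (L l231 (T t156 (L l56 (L l457 (T t157 N)))))))) (K a46 (M a192 (F (T t57 (L l231 (T t156 (L l26 (L l408 (T t160 N)))))))) (K a51 (M a170 (L l511 (F (T t4159 (L l1 (T t3682 (K a103 (M a155 (F (T t4159 (L l1 (T t3682 N))))) (K a155 (M a103 (F (T t4159 (L l1 (T t3682 N))))) N)))))))) N))))))))))))))))))))))⟩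
def e0_63__207_5 : Ent 4 := ⟨[a0, a63], [a207, a15], (M a85 (L l325 (F (T t89 (L l236 (L l339 (T t88 (L l289 (L l469 (T t52 (L l236 (L l339 (T t90 (K a64 (M a4 (L l325 (F (T t129 (L l120 (T t1399 (L l80 (T t131 (K a79 (M a143 (L l84 (F (T t2885 (L l73 (L l511 (T t519 (L l80 (T t131 (K a69 (M a74 (F (T t2885 (L l73 (L l511 (T t519 (L l77 (L l80 (T t131 N))))))))) (K a74 (M a69 (L l339 (F (T t1604 (L l336 (T t2882 (K a192 (M a133 (L l236 (F (T t2885 (L l7 (L l336 (T t5709 (K a197 (M a202 (F (T t1604 (L l336 (T t2882 N))))) (K a202 (Fr a197 a5 l311 (V t2887)) N))))))))) (K a133 (M a192 (F (T t1586 (L l153 (L l336 (T t2882 N)))))) N)))))))) N))))))))))) (K a143 (M a79 (F (T t129 (L l289 (L l469 (T t1510 (L l80 (T t131 N)))))))) N)))))))))) (K a192 (M a4 (L l236 (L l325 (L l339 (F (T t1399 (L l73 (L l489 (L l511 (T t519 (L l296 (T t131 (K a133 (M a74 (L l236 (L l325 (F (T t1399 (L l73 (L l489 (L l511 (T t519 (L l296 (T t131 (K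 a197 (M a202 (L l311 (L l325 (F (T t1399 (L l75 (L l160 (L l512 (T t2881 (L l73 (L l489 (L l511 (T t519 (K a5 (M a69 (L l325 (F (T t1604 (L l153 (T t5710 (K a79 (M a143 (F (T t129 (L l153 (T t2920 N))))) (K a143 (Fr a79 a64 l84 (V t1510)) N)))))))) (K a69 (M a5 (L l325 (F (T t1399 (L l491 (T t2883 (K a79 (M a143 (F (T t1399 (L l491 (T t2883 N))))) (K a143 (M a79 (L l160 (F (T t1399 (L l491 (T t2883 (K a128 (Fr a138 a10 l318 (V t519)) (K a138 (M a128 (F (L l289 (L l296 (L l469 (T t5711 (L l225 (L l481 (T t5712 N))))))))) N)))))))) N)))))))) (K a79 (M a143 (L l311 (F (T t1399 (L l75 (L l512 (T t2881 (L l73 (L l489 (L l511 (T t519 (K a5 (M a69 (F (T t129 (L l153 (T t2920 N))))) (K a69 (M a5 (F (T t1399 (L l491 (T t2883 N))))) N))))))))))))) (K a143 (M a79 (L l160 (L l311 (F (T t129 (L l153 (T t5713 (K a128 (Fr a138 a10 l318 (V t519)) (K a5 (Fr a69 a64 l84 (V t1510)) (K a69 (M a5 (L l160 (F (T t1399 (L l491 (T t2883 (K a128 (Fr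 a138 a10 l318 (V t519)) (K a138 (M a128 (F (L l289 (L l296 (L l469 (T t5711 (L l225 (L l481 (T t5712 N))))))))) N)))))))) (K a138 (M a128 (L l311 (F (L l275 (L l296 (T t5714 (L l153 (L l158 (T t5713 (K a5 (Fr a69 a64 l84 (V t5711)) (K a69 (M a5 (F (L l289 (L l296 (L l469 (T t5711 (L l225 (L l481 (T t5712 N))))))))) N))))))))))) N))))))))))) N))))))))))))))))) (K a202 (M a197 (L l325 (F (T t1399 (L l73 (L l489 (L l511 (T t519 (L l296 (T t131 (K a79 (M a143 (F (T t1399 (L l73 (L l489 (L l511 (T t519 (L l296 (T t131 N))))))))) (K a143 (M a79 (L l160 (F (T t1399 (L l512 (T t5715 (K a128 (M a138 (F (T t1399 (L l512 (T t5715 N))))) (K a138 (M a128 (F (L l296 (T t5714 (L l512 (T t5715 N)))))) N)))))))) N)))))))))))) (K a79 (M a143 (L l236 (F (T t1399 (L l73 (L l489 (L l511 (T t519 (L l296 (T t131 (K a197 (M a202 (L l311 (F (T t1399 (L l75 (L l512 (T t2881 (L l73 (L l489 (L l511 (T t519 (K a5 (M a69 (F (T t129 (L l153 (T t2920 N)))))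 (K a69 (M a5 (F (T t1399 (L l491 (T t2883 N))))) N))))))))))))) (K a202 (M a197 (F (T t1399 (L l73 (L l489 (L l511 (T t519 (L l296 (T t131 N))))))))) N)))))))))))) (K a143 (M a79 (L l160 (L l236 (F (T t1399 (L l311 (L l512 (T t5715 (K a128 (M a138 (L l236 (F (T t1399 (L l311 (L l512 (T t5715 (K a197 (Fr a202 a10 l318 (V t519)) (K a202 (M a197 (F (T t1399 (L l512 (T t5715 N))))) N))))))))) (K a197 (M a202 (L l160 (L l311 (F (T t129 (L l153 (T t5713 (K a128 (Fr a138 a10 l318 (V t519)) (K a5 (Fr a69 a64 l84 (V t1510)) (K a69 (M a5 (L l160 (F (T t1399 (L l491 (T t2883 (K a128 (Fr a138 a10 l318 (V t519)) (K a138 (M a128 (F (L l289 (L l296 (L l469 (T t5711 (L l225 (L l481 (T t5712 N))))))))) N)))))))) (K a138 (M a128 (L l311 (F (L l275 (L l296 (T t5714 (L l153 (L l158 (T t5713 (K a5 (Fr a69 a64 l84 (V t5711)) (K a69 (M a5 (F (L l289 (L l296 (L l469 (T t5711 (L l225 (L l481 (T t5712 N))))))))) N))))))))))) N))))))))))) (K a138 (M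 a128 (L l236 (F (L l296 (T t5714 (L l311 (L l512 (T t5715 (K a197 (M a202 (L l311 (F (L l275 (L l296 (T t5714 (L l153 (L l158 (T t5713 (K a5 (Fr a69 a64 l84 (V t5711)) (K a69 (M a5 (F (L l289 (L l296 (L l469 (T t5711 (L l225 (L l481 (T t5712 N))))))))) N))))))))))) (K a202 (M a197 (F (L l296 (T t5714 (L l512 (T t5715 N)))))) N)))))))))) (K a202 (M a197 (L l160 (F (T t1399 (L l512 (T t5715 (K a128 (M a138 (F (T t1399 (L l512 (T t5715 N))))) (K a138 (M a128 (F (L l296 (T t5714 (L l512 (T t5715 N)))))) N)))))))) N)))))))))))) N))))))))))))))) (K a197 (M a202 (L l325 (L l339 (F (T t1399 (L l73 (L l489 (L l511 (T t519 (L l275 (L l296 (T t131 (K a133 (M a74 (L l311 (L l325 (F (T t1399 (L l75 (L l160 (L l512 (T t2881 (L l73 (L l489 (L l511 (T t519 (K a5 (M a69 (L l325 (F (T t1604 (L l153 (T t5710 (K a79 (M a143 (F (T t129 (L l153 (T t2920 N))))) (K a143 (Fr a79 a64 l84 (V t1510)) N)))))))) (K a69 (M a5 (L l325 (F (T t1399 (L l491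 (T t2883 (K a79 (M a143 (F (T t1399 (L l491 (T t2883 N))))) (K a143 (M a79 (L l160 (F (T t1399 (L l491 (T t2883 (K a128 (Fr a138 a10 l318 (V t519)) (K a138 (M a128 (F (L l289 (L l296 (L l469 (T t5711 (L l225 (L l481 (T t5712 N))))))))) N)))))))) N)))))))) (K a79 (M a143 (L l311 (F (T t1399 (L l75 (L l512 (T t2881 (L l73 (L l489 (L l511 (T t519 (K a5 (M a69 (F (T t129 (L l153 (T t2920 N))))) (K a69 (M a5 (F (T t1399 (L l491 (T t2883 N))))) N))))))))))))) (K a143 (M a79 (L l160 (L l311 (F (T t129 (L l153 (T t5713 (K a128 (Fr a138 a10 l318 (V t519)) (K a5 (Fr a69 a64 l84 (V t1510)) (K a69 (M a5 (L l160 (F (T t1399 (L l491 (T t2883 (K a128 (Fr a138 a10 l318 (V t519)) (K a138 (M a128 (F (L l289 (L l296 (L l469 (T t5711 (L l225 (L l481 (T t5712 N))))))))) N)))))))) (K a138 (M a128 (L l311 (F (L l275 (L l296 (T t5714 (L l153 (L l158 (T t5713 (K a5 (Fr a69 a64 l84 (V t5711)) (K a69 (M a5 (F (L l289 (L l296 (L l469 (T t5711 (L l225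 (L l481 (T t5712 N))))))))) N))))))))))) N))))))))))) N))))))))))))))))) (K a74 (M a133 (L l325 (F (T t1399 (L l73 (L l489 (L l511 (T t519 (L l275 (L l296 (T t131 (K a79 (M a143 (L l84 (F (T t129 (L l289 (L l296 (L l469 (L l512 (T t2884 (K a64 (M a69 (F (T t1604 (L l336 (T t2882 N))))) (K a69 (M a64 (F (T t359 (L l73 (L l489 (L l511 (T t519 N))))))) N))))))))))) (K a143 (M a79 (F (T t1399 (L l73 (L l489 (L l511 (T t519 (L l275 (L l296 (T t131 N)))))))))) N))))))))))))) (K a79 (M a143 (L l339 (F (T t1399 (L l73 (L l489 (L l511 (T t519 (L l275 (L l296 (T t131 (K a133 (M a74 (L l311 (F (T t1399 (L l75 (L l512 (T t2881 (L l73 (L l489 (L l511 (T t519 (K a5 (M a69 (F (T t129 (L l153 (T t2920 N))))) (K a69 (M a5 (F (T t1399 (L l491 (T t2883 N))))) N))))))))))))) (K a74 (M a133 (L l84 (F (T t129 (L l289 (L l296 (L l469 (L l512 (T t2884 (K a64 (M a69 (F (T t1604 (L l336 (T t2882 N))))) (K a69 (M a64 (F (T t359 (L l73 (L l489 (L l511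 (T t519 N))))))) N))))))))))) N))))))))))))) (K a143 (M a79 (L l339 (F (T t1399 (L l73 (L l489 (L l511 (T t519 (L l275 (L l296 (T t131 (K a133 (M a74 (L l160 (L l311 (F (T t129 (L l153 (T t5713 (K a128 (Fr a138 a10 l318 (V t519)) (K a5 (Fr a69 a64 l84 (V t1510)) (K a69 (M a5 (L l160 (F (T t1399 (L l491 (T t2883 (K a128 (Fr a138 a10 l318 (V t519)) (K a138 (M a128 (F (L l289 (L l296 (L l469 (T t5711 (L l225 (L l481 (T t5712 N))))))))) N)))))))) (K a138 (M a128 (L l311 (F (L l275 (L l296 (T t5714 (L l153 (L l158 (T t5713 (K a5 (Fr a69 a64 l84 (V t5711)) (K a69 (M a5 (F (L l289 (L l296 (L l469 (T t5711 (L l225 (L l481 (T t5712 N))))))))) N))))))))))) N))))))))))) (K a74 (M a133 (F (T t1399 (L l73 (L l489 (L l511 (T t519 (L l275 (L l296 (T t131 N)))))))))) N))))))))))))) N)))))))))))))))) (K a74 (M a133 (L l236 (L l325 (F (T t1399 (L l84 (L l296 (T t3832 (L l73 (L l489 (L l511 (T t519 (K a197 (M a202 (L l325 (F (T t1399 (L l73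 (L l489 (L l511 (T t519 (L l275 (L l296 (T t131 (K a79 (M a143 (L l84 (F (T t129 (L l289 (L l296 (L l469 (L l512 (T t2884 (K a64 (M a69 (F (T t1604 (L l336 (T t2882 N))))) (K a69 (M a64 (F (T t359 (L l73 (L l489 (L l511 (T t519 N))))))) N))))))))))) (K a143 (M a79 (F (T t1399 (L l73 (L l489 (L l511 (T t519 (L l275 (L l296 (T t131 N)))))))))) N))))))))))))) (K a202 (M a197 (L l318 (L l325 (F (T t1399 (L l84 (L l512 (T t5716 (K a10 (M a138 (L l325 (F (L l2 (T t1399 (L l84 (L l512 (T t5716 (K a79 (Fr a143 a128 l160 (V t5717)) (K a143 (M a79 (F (L l2 (T t1399 (L l512 (T t5716 N)))))) N)))))))))) (K a138 (M a10 (L l325 (F (L l320 (T t1399 (L l7 (L l158 (L l234 (L l336 (T t2888 (K a79 (M a143 (L l84 (F (L l320 (T t1399 (L l7 (L l158 (L l234 (L l336 (T t2888 (K a64 (Fr a69 a5 l311 (V t5718)) (K a69 (M a64 (F (L l206 (T t359 (L l73 (L l320 (L l489 (L l511 (T t519 N))))))))) N)))))))))))) (K a143 (M a79 (F (T t5719 (L l73 (L l320 (L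 l489 (L l511 (T t519 N)))))))) N)))))))))))) (K a79 (M a143 (L l84 (L l318 (F (T t1399 (L l7 (L l234 (L l336 (T t2888 (K a64 (Fr a69 a5 l311 (V t2887)) (K a69 (M a64 (L l318 (F (T t359 (L l73 (L l489 (L l511 (T t519 (K a10 (Fr a138 a128 l160 (V t359)) (K a138 (M a10 (F (L l206 (T t359 (L l73 (L l320 (L l489 (L l511 (T t519 N))))))))) N)))))))))) (K a10 (Fr a138 a128 l160 (V t5717)) (K a138 (M a10 (L l84 (F (L l320 (T t1399 (L l7 (L l158 (L l234 (L l336 (T t2888 (K a64 (Fr a69 a5 l311 (V t5718)) (K a69 (M a64 (F (L l206 (T t359 (L l73 (L l320 (L l489 (L l511 (T t519 N))))))))) N)))))))))))) N))))))))))))) (K a143 (M a79 (L l318 (F (T t1399 (L l7 (L l234 (L l336 (T t2888 (K a10 (M a138 (F (L l2 (T t1399 (L l512 (T t5716 N)))))) (K a138 (M a10 (F (T t5719 (L l73 (L l320 (L l489 (L l511 (T t519 N)))))))) N)))))))))) N)))))))))))) (K a79 (M a143 (L l84 (L l236 (F (T t129 (L l289 (L l296 (L l318 (L l469 (L l512 (T t2884 (K a64 (M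 a69 (L l236 (F (T t2885 (L l7 (L l336 (T t5709 (K a197 (M a202 (F (T t1604 (L l336 (T t2882 N))))) (K a202 (Fr a197 a5 l311 (V t2887)) N))))))))) (K a69 (M a64 (L l236 (F (T t359 (L l73 (L l489 (L l511 (T t519 (K a197 (M a202 (F (T t359 (L l73 (L l489 (L l511 (T t519 N))))))) (K a202 (M a197 (L l318 (F (T t359 (L l73 (L l489 (L l511 (T t519 (K a10 (Fr a138 a128 l160 (V t359)) (K a138 (M a10 (F (L l206 (T t359 (L l73 (L l320 (L l489 (L l511 (T t519 N))))))))) N)))))))))) N)))))))))) (K a197 (M a202 (L l84 (F (T t129 (L l289 (L l296 (L l469 (L l512 (T t2884 (K a64 (M a69 (F (T t1604 (L l336 (T t2882 N))))) (K a69 (M a64 (F (T t359 (L l73 (L l489 (L l511 (T t519 N))))))) N))))))))))) (K a202 (M a197 (L l84 (L l318 (F (T t1399 (L l7 (L l234 (L l336 (T t2888 (K a64 (Fr a69 a5 l311 (V t2887)) (K a69 (M a64 (L l318 (F (T t359 (L l73 (L l489 (L l511 (T t519 (K a10 (Fr a138 a128 l160 (V t359)) (K a138 (M a10 (F (L l206 (T t359 (L l73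 (L l320 (L l489 (L l511 (T t519 N))))))))) N)))))))))) (K a10 (Fr a138 a128 l160 (V t5717)) (K a138 (M a10 (L l84 (F (L l320 (T t1399 (L l7 (L l158 (L l234 (L l336 (T t2888 (K a64 (Fr a69 a5 l311 (V t5718)) (K a69 (M a64 (F (L l206 (T t359 (L l73 (L l320 (L l489 (L l511 (T t519 N))))))))) N)))))))))))) N))))))))))))) N))))))))))))))) (K a143 (M a79 (L l236 (F (T t1399 (L l296 (T t3832 (L l73 (L l489 (L l511 (T t519 (K a197 (M a202 (F (T t1399 (L l73 (L l489 (L l511 (T t519 (L l275 (L l296 (T t131 N)))))))))) (K a202 (M a197 (L l318 (F (T t1399 (L l7 (L l234 (L l336 (T t2888 (K a10 (M a138 (F (L l2 (T t1399 (L l512 (T t5716 N)))))) (K a138 (M a10 (F (T t5719 (L l73 (L l320 (L l489 (L l511 (T t519 N)))))))) N)))))))))) N)))))))))))) N)))))))))))))))) (K a202 (M a197 (L l325 (L l339 (F (T t1399 (L l75 (L l296 (L l512 (T t2889 (L l73 (L l489 (L l511 (T t519 (K a133 (M a74 (L l325 (F (T t1399 (L l73 (L l489 (L l511 (T t519 (L l296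 (T t131 (K a79 (M a143 (F (T t1399 (L l73 (L l489 (L l511 (T t519 (L l296 (T t131 N))))))))) (K a143 (M a79 (L l160 (F (T t1399 (L l512 (T t5715 (K a128 (M a138 (F (T t1399 (L l512 (T t5715 N))))) (K a138 (M a128 (F (L l296 (T t5714 (L l512 (T t5715 N)))))) N)))))))) N)))))))))))) (K a74 (M a133 (L l318 (L l325 (F (T t1399 (L l84 (L l512 (T t5716 (K a10 (M a138 (L l325 (F (L l2 (T t1399 (L l84 (L l512 (T t5716 (K a79 (Fr a143 a128 l160 (V t5717)) (K a143 (M a79 (F (L l2 (T t1399 (L l512 (T t5716 N)))))) N)))))))))) (K a138 (M a10 (L l325 (F (L l320 (T t1399 (L l7 (L l158 (L l234 (L l336 (T t2888 (K a79 (M a143 (L l84 (F (L l320 (T t1399 (L l7 (L l158 (L l234 (L l336 (T t2888 (K a64 (Fr a69 a5 l311 (V t5718)) (K a69 (M a64 (F (L l206 (T t359 (L l73 (L l320 (L l489 (L l511 (T t519 N))))))))) N)))))))))))) (K a143 (M a79 (F (T t5719 (L l73 (L l320 (L l489 (L l511 (T t519 N)))))))) N)))))))))))) (K a79 (M a143 (L l84 (L l318 (F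 (T t1399 (L l7 (L l234 (L l336 (T t2888 (K a64 (Fr a69 a5 l311 (V t2887)) (K a69 (M a64 (L l318 (F (T t359 (L l73 (L l489 (L l511 (T t519 (K a10 (Fr a138 a128 l160 (V t359)) (K a138 (M a10 (F (L l206 (T t359 (L l73 (L l320 (L l489 (L l511 (T t519 N))))))))) N)))))))))) (K a10 (Fr a138 a128 l160 (V t5717)) (K a138 (M a10 (L l84 (F (L l320 (T t1399 (L l7 (L l158 (L l234 (L l336 (T t2888 (K a64 (Fr a69 a5 l311 (V t5718)) (K a69 (M a64 (F (L l206 (T t359 (L l73 (L l320 (L l489 (L l511 (T t519 N))))))))) N)))))))))))) N))))))))))))) (K a143 (M a79 (L l318 (F (T t1399 (L l7 (L l234 (L l336 (T t2888 (K a10 (M a138 (F (L l2 (T t1399 (L l512 (T t5716 N)))))) (K a138 (M a10 (F (T t5719 (L l73 (L l320 (L l489 (L l511 (T t519 N)))))))) N)))))))))) N)))))))))))) (K a79 (M a143 (L l339 (F (T t1399 (L l75 (L l84 (L l151 (L l296 (L l512 (T t2889 (L l73 (L l489 (L l511 (T t519 (K a133 (M a74 (F (T t1399 (L l73 (L l489 (L l511 (T t519 (L l296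 (T t131 N))))))))) (K a74 (M a133 (L l84 (L l318 (F (T t1399 (L l7 (L l234 (L l336 (T t2888 (K a64 (Fr a69 a5 l311 (V t2887)) (K a69 (M a64 (L l318 (F (T t359 (L l73 (L l489 (L l511 (T t519 (K a10 (Fr a138 a128 l160 (V t359)) (K a138 (M a10 (F (L l206 (T t359 (L l73 (L l320 (L l489 (L l511 (T t519 N))))))))) N)))))))))) (K a10 (Fr a138 a128 l160 (V t5717)) (K a138 (M a10 (L l84 (F (L l320 (T t1399 (L l7 (L l158 (L l234 (L l336 (T t2888 (K a64 (Fr a69 a5 l311 (V t5718)) (K a69 (M a64 (F (L l206 (T t359 (L l73 (L l320 (L l489 (L l511 (T t519 N))))))))) N)))))))))))) N))))))))))))) N)))))))))))))))) (K a143 (M a79 (L l339 (F (T t1399 (L l75 (L l296 (L l512 (T t2889 (L l73 (L l489 (L l511 (T t519 (K a133 (M a74 (L l160 (F (T t1399 (L l512 (T t5715 (K a128 (M a138 (F (T t1399 (L l512 (T t5715 N))))) (K a138 (M a128 (F (L l296 (T t5714 (L l512 (T t5715 N)))))) N)))))))) (K a74 (M a133 (L l318 (F (T t1399 (L l7 (L l234 (L l336 (T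 t2888 (K a10 (M a138 (F (L l2 (T t1399 (L l512 (T t5716 N)))))) (K a138 (M a10 (F (T t5719 (L l73 (L l320 (L l489 (L l511 (T t519 N)))))))) N)))))))))) N)))))))))))))) N))))))))))))))))) (K a79 (M a143 (L l236 (L l339 (F (T t1399 (L l73 (L l489 (L l511 (T t519 (L l296 (T t131 (K a133 (M a74 (L l236 (F (T t1399 (L l73 (L l489 (L l511 (T t519 (L l296 (T t131 (K a197 (M a202 (L l311 (F (T t1399 (L l75 (L l512 (T t2881 (L l73 (L l489 (L l511 (T t519 (K a5 (M a69 (F (T t129 (L l153 (T t2920 N))))) (K a69 (M a5 (F (T t1399 (L l491 (T t2883 N))))) N))))))))))))) (K a202 (M a197 (F (T t1399 (L l73 (L l489 (L l511 (T t519 (L l296 (T t131 N))))))))) N)))))))))))) (K a197 (M a202 (L l339 (F (T t1399 (L l73 (L l489 (L l511 (T t519 (L l275 (L l296 (T t131 (K a133 (M a74 (L l311 (F (T t1399 (L l75 (L l512 (T t2881 (L l73 (L l489 (L l511 (T t519 (K a5 (M a69 (F (T t129 (L l153 (T t2920 N))))) (K a69 (M a5 (F (T t1399 (L l491 (T t2883 N)))))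 N))))))))))))) (K a74 (M a133 (L l84 (F (T t129 (L l289 (L l296 (L l469 (L l512 (T t2884 (K a64 (M a69 (F (T t1604 (L l336 (T t2882 N))))) (K a69 (M a64 (F (T t359 (L l73 (L l489 (L l511 (T t519 N))))))) N))))))))))) N))))))))))))) (K a74 (M a133 (L l84 (L l236 (F (T t129 (L l289 (L l296 (L l318 (L l469 (L l512 (T t2884 (K a64 (M a69 (L l236 (F (T t2885 (L l7 (L l336 (T t5709 (K a197 (M a202 (F (T t1604 (L l336 (T t2882 N))))) (K a202 (Fr a197 a5 l311 (V t2887)) N))))))))) (K a69 (M a64 (L l236 (F (T t359 (L l73 (L l489 (L l511 (T t519 (K a197 (M a202 (F (T t359 (L l73 (L l489 (L l511 (T t519 N))))))) (K a202 (M a197 (L l318 (F (T t359 (L l73 (L l489 (L l511 (T t519 (K a10 (Fr a138 a128 l160 (V t359)) (K a138 (M a10 (F (L l206 (T t359 (L l73 (L l320 (L l489 (L l511 (T t519 N))))))))) N)))))))))) N)))))))))) (K a197 (M a202 (L l84 (F (T t129 (L l289 (L l296 (L l469 (L l512 (T t2884 (K a64 (M a69 (F (T t1604 (L l336 (T t2882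 N))))) (K a69 (M a64 (F (T t359 (L l73 (L l489 (L l511 (T t519 N))))))) N))))))))))) (K a202 (M a197 (L l84 (L l318 (F (T t1399 (L l7 (L l234 (L l336 (T t2888 (K a64 (Fr a69 a5 l311 (V t2887)) (K a69 (M a64 (L l318 (F (T t359 (L l73 (L l489 (L l511 (T t519 (K a10 (Fr a138 a128 l160 (V t359)) (K a138 (M a10 (F (L l206 (T t359 (L l73 (L l320 (L l489 (L l511 (T t519 N))))))))) N)))))))))) (K a10 (Fr a138 a128 l160 (V t5717)) (K a138 (M a10 (L l84 (F (L l320 (T t1399 (L l7 (L l158 (L l234 (L l336 (T t2888 (K a64 (Fr a69 a5 l311 (V t5718)) (K a69 (M a64 (F (L l206 (T t359 (L l73 (L l320 (L l489 (L l511 (T t519 N))))))))) N)))))))))))) N))))))))))))) N))))))))))))))) (K a202 (M a197 (L l339 (F (T t1399 (L l75 (L l84 (L l151 (L l296 (L l512 (T t2889 (L l73 (L l489 (L l511 (T t519 (K a133 (M a74 (F (T t1399 (L l73 (L l489 (L l511 (T t519 (L l296 (T t131 N))))))))) (K a74 (M a133 (L l84 (L l318 (F (T t1399 (L l7 (L l234 (L l336 (T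 t2888 (K a64 (Fr a69 a5 l311 (V t2887)) (K a69 (M a64 (L l318 (F (T t359 (L l73 (L l489 (L l511 (T t519 (K a10 (Fr a138 a128 l160 (V t359)) (K a138 (M a10 (F (L l206 (T t359 (L l73 (L l320 (L l489 (L l511 (T t519 N))))))))) N)))))))))) (K a10 (Fr a138 a128 l160 (V t5717)) (K a138 (M a10 (L l84 (F (L l320 (T t1399 (L l7 (L l158 (L l234 (L l336 (T t2888 (K a64 (Fr a69 a5 l311 (V t5718)) (K a69 (M a64 (F (L l206 (T t359 (L l73 (L l320 (L l489 (L l511 (T t519 N))))))))) N)))))))))))) N))))))))))))) N)))))))))))))))) N))))))))))))))) (K a143 (M a79 (L l236 (L l339 (F (T t1399 (L l73 (L l489 (L l511 (T t519 (L l296 (T t131 (K a133 (M a74 (L l160 (L l236 (F (T t1399 (L l311 (L l512 (T t5715 (K a128 (M a138 (L l236 (F (T t1399 (L l311 (L l512 (T t5715 (K a197 (Fr a202 a10 l318 (V t519)) (K a202 (M a197 (F (T t1399 (L l512 (T t5715 N))))) N))))))))) (K a197 (M a202 (L l160 (L l311 (F (T t129 (L l153 (T t5713 (K a128 (Fr a138 a10 l318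 (V t519)) (K a5 (Fr a69 a64 l84 (V t1510)) (K a69 (M a5 (L l160 (F (T t1399 (L l491 (T t2883 (K a128 (Fr a138 a10 l318 (V t519)) (K a138 (M a128 (F (L l289 (L l296 (L l469 (T t5711 (L l225 (L l481 (T t5712 N))))))))) N)))))))) (K a138 (M a128 (L l311 (F (L l275 (L l296 (T t5714 (L l153 (L l158 (T t5713 (K a5 (Fr a69 a64 l84 (V t5711)) (K a69 (M a5 (F (L l289 (L l296 (L l469 (T t5711 (L l225 (L l481 (T t5712 N))))))))) N))))))))))) N))))))))))) (K a138 (M a128 (L l236 (F (L l296 (T t5714 (L l311 (L l512 (T t5715 (K a197 (M a202 (L l311 (F (L l275 (L l296 (T t5714 (L l153 (L l158 (T t5713 (K a5 (Fr a69 a64 l84 (V t5711)) (K a69 (M a5 (F (L l289 (L l296 (L l469 (T t5711 (L l225 (L l481 (T t5712 N))))))))) N))))))))))) (K a202 (M a197 (F (L l296 (T t5714 (L l512 (T t5715 N)))))) N)))))))))) (K a202 (M a197 (L l160 (F (T t1399 (L l512 (T t5715 (K a128 (M a138 (F (T t1399 (L l512 (T t5715 N))))) (K a138 (M a128 (F (L l296 (T t5714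 (L l512 (T t5715 N)))))) N)))))))) N)))))))))))) (K a197 (M a202 (L l339 (F (T t1399 (L l73 (L l489 (L l511 (T t519 (L l275 (L l296 (T t131 (K a133 (M a74 (L l160 (L l311 (F (T t129 (L l153 (T t5713 (K a128 (Fr a138 a10 l318 (V t519)) (K a5 (Fr a69 a64 l84 (V t1510)) (K a69 (M a5 (L l160 (F (T t1399 (L l491 (T t2883 (K a128 (Fr a138 a10 l318 (V t519)) (K a138 (M a128 (F (L l289 (L l296 (L l469 (T t5711 (L l225 (L l481 (T t5712 N))))))))) N)))))))) (K a138 (M a128 (L l311 (F (L l275 (L l296 (T t5714 (L l153 (L l158 (T t5713 (K a5 (Fr a69 a64 l84 (V t5711)) (K a69 (M a5 (F (L l289 (L l296 (L l469 (T t5711 (L l225 (L l481 (T t5712 N))))))))) N))))))))))) N))))))))))) (K a74 (M a133 (F (T t1399 (L l73 (L l489 (L l511 (T t519 (L l275 (L l296 (T t131 N)))))))))) N))))))))))))) (K a74 (M a133 (L l236 (F (T t1399 (L l296 (T t3832 (L l73 (L l489 (L l511 (T t519 (K a197 (M a202 (F (T t1399 (L l73 (L l489 (L l511 (T t519 (L l275 (L l296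 (T t131 N)))))))))) (K a202 (M a197 (L l318 (F (T t1399 (L l7 (L l234 (L l336 (T t2888 (K a10 (M a138 (F (L l2 (T t1399 (L l512 (T t5716 N)))))) (K a138 (M a10 (F (T t5719 (L l73 (L l320 (L l489 (L l511 (T t519 N)))))))) N)))))))))) N)))))))))))) (K a202 (M a197 (L l339 (F (T t1399 (L l75 (L l296 (L l512 (T t2889 (L l73 (L l489 (L l511 (T t519 (K a133 (M a74 (L l160 (F (T t1399 (L l512 (T t5715 (K a128 (M a138 (F (T t1399 (L l512 (T t5715 N))))) (K a138 (M a128 (F (L l296 (T t5714 (L l512 (T t5715 N)))))) N)))))))) (K a74 (M a133 (L l318 (F (T t1399 (L l7 (L l234 (L l336 (T t2888 (K a10 (M a138 (F (L l2 (T t1399 (L l512 (T t5716 N)))))) (K a138 (M a10 (F (T t5719 (L l73 (L l320 (L l489 (L l511 (T t519 N)))))))) N)))))))))) N)))))))))))))) N))))))))))))))) N)))))))))))))))))) (K a21 (M a12 (L l325 (F (T t123 (L l231 (L l327 (T t124 (L l15 (T t574 (K a79 (M a143 (F (T t123 (L l137 (L l231 (L l327 (T t124 (L l15 (L l137 (T t574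 N)))))))))) (K a143 (M a79 (F (T t123 (L l155 (L l231 (L l327 (T t124 (L l15 (T t574 N))))))))) N))))))))))) (K a149 (M a4 (L l325 (F (T t129 (L l301 (L l481 (T t1371 (L l202 (T t1372 (K a79 (M a143 (F (T t129 (L l220 (L l301 (L l481 (T t1509 (L l202 (T t1372 N))))))))) (K a143 (M a79 (F (T t129 (L l301 (L l481 (T t1371 (L l202 (T t1372 N)))))))) N))))))))))) (K a213 (Fr a170 a255 l476 (Fr a42 a21 l68 (Fr a106 a234 l390 (Fr a192 a149 l519 (V t581))))) (K a42 (M a12 (L l325 (F (L l56 (T t123 (L l231 (L l327 (L l390 (T t124 (L l56 (T t574 (K a79 (M a143 (F (L l56 (T t123 (L l137 (L l231 (L l327 (L l390 (T t124 (L l56 (L l137 (T t574 N)))))))))))) (K a143 (M a79 (F (L l56 (T t123 (L l155 (L l231 (L l327 (L l390 (T t124 (L l56 (T t574 N))))))))))) N))))))))))))) (K a106 (M a12 (L l325 (F (T t150 (L l132 (T t123 (L l231 (L l327 (L l390 (T t124 (K a79 (M a143 (F (T t150 (L l132 (L l289 (L l469 (T t1366 (L l137 (L l231 (L l327 (L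 l390 (T t124 N)))))))))))) (K a143 (M a79 (F (T t150 (L l132 (L l289 (L l469 (T t1366 (L l155 (L l231 (L l327 (L l390 (T t124 N)))))))))))) N)))))))))))) (K a170 (M a4 (L l325 (F (L l464 (T t130 (L l390 (T t131 (L l73 (L l390 (L l464 (L l511 (T t519 (L l301 (L l464 (L l481 (T t938 (K a79 (M a143 (F (L l390 (L l464 (T t129 (L l390 (T t131 (L l137 (L l464 (T t130 (L l301 (L l464 (L l481 (T t938 N)))))))))))))) (K a143 (M a79 (F (L l464 (T t130 (L l390 (T t131 (L l73 (L l390 (L l464 (L l511 (T t519 (L l301 (L l464 (L l481 (T t938 N))))))))))))))) N)))))))))))))))))) (K a255 (M a20 (L l289 (L l325 (L l469 (F (T t1268 (L l295 (T t2160 (L l295 (L l296 (T t2161 (K a79 (M a143 (L l289 (L l469 (F (T t1268 (L l137 (L l295 (T t2160 (L l295 (L l296 (T t2161 (K a95 (M a175 (L l137 (L l289 (F (T t1268 (L l295 (T t4450 (L l295 (L l296 (T t2161 (K a223 (M a239 (L l137 (L l361 (F (T t1268 (L l245 (L l295 (T t4450 (L l245 (L l246 (L l295 (L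 l296 (T t2161 (K a31 (Fr a159 a191 l213 (V t238)) (K a159 (M a31 (L l137 (F (T t2163 (L l169 (L l245 (L l246 (L l295 (L l296 (T t2161 (L l170 (L l245 (L l295 (T t4450 (K a111 (M a127 (F (L l84 (L l245 (L l295 (T t5720 (L l75 (L l367 (T t5721 N))))))))) (K a127 (Fr a111 a47 l397 (V t238)) N)))))))))))))))) (K a111 (M a127 (L l361 (F (L l84 (T t1191 (L l7 (L l331 (L l475 (T t238 (L l84 (L l245 (L l295 (T t5720 (K a31 (Fr a159 a191 l213 (V t5722)) (K a159 (M a31 (F (L l84 (L l245 (L l295 (T t5720 (L l75 (L l367 (T t5721 N))))))))) N))))))))))))))) (K a127 (Fr a111 a47 l397 (V t238)) N))))))))))))))))) (K a111 (M a127 (L l289 (F (L l296 (T t917 (L l7 (L l331 (L l475 (T t238 (L l84 (L l295 (T t5720 (K a223 (M a239 (L l361 (F (L l84 (T t1191 (L l7 (L l331 (L l475 (T t238 (L l84 (L l245 (L l295 (T t5720 (K a31 (Fr a159 a191 l213 (V t5722)) (K a159 (M a31 (F (L l84 (L l245 (L l295 (T t5720 (L l75 (L l367 (T t5721 N))))))))) N)))))))))))))))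 (K a239 (M a223 (F (L l296 (T t917 (L l295 (L l512 (T t5723 N))))))) N)))))))))))))) (K a239 (M a223 (L l137 (F (T t1268 (L l295 (L l512 (T t5723 (K a111 (M a127 (F (L l296 (T t917 (L l295 (L l512 (T t5723 N))))))) (K a127 (M a111 (F (T t1268 (L l295 (L l512 (T t5723 N)))))) N))))))))) (K a127 (M a111 (L l289 (F (T t1268 (L l295 (L l296 (T t2161 (L l236 (L l295 (L l296 (L l339 (T t5724 (K a223 (Fr a239 a47 l397 (V t238)) (K a239 (M a223 (F (T t1268 (L l295 (L l512 (T t5723 N)))))) N)))))))))))))) N)))))))))))))) (K a223 (M a239 (L l469 (F (T t1268 (L l137 (L l245 (L l295 (T t2160 (L l245 (L l246 (L l295 (L l296 (T t2161 (K a95 (M a175 (L l137 (L l361 (F (T t1268 (L l245 (L l295 (T t4450 (L l245 (L l246 (L l295 (L l296 (T t2161 (K a31 (Fr a159 a191 l213 (V t238)) (K a159 (M a31 (L l137 (F (T t2163 (L l169 (L l245 (L l246 (L l295 (L l296 (T t2161 (L l170 (L l245 (L l295 (T t4450 (K a111 (M a127 (F (L l84 (L l245 (L l295 (T t5720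 (L l75 (L l367 (T t5721 N))))))))) (K a127 (Fr a111 a47 l397 (V t238)) N)))))))))))))))) (K a111 (M a127 (L l361 (F (L l84 (T t1191 (L l7 (L l331 (L l475 (T t238 (L l84 (L l245 (L l295 (T t5720 (K a31 (Fr a159 a191 l213 (V t5722)) (K a159 (M a31 (F (L l84 (L l245 (L l295 (T t5720 (L l75 (L l367 (T t5721 N))))))))) N))))))))))))))) (K a127 (Fr a111 a47 l397 (V t238)) N))))))))))))))))) (K a175 (M a95 (F (T t1268 (L l245 (L l295 (T t2160 (L l245 (L l246 (L l295 (L l296 (T t2161 N))))))))))) N))))))))))))))) (K a175 (M a95 (L l289 (F (T t1268 (L l296 (T t2878 (L l295 (T t2160 (K a223 (M a239 (F (T t1268 (L l245 (L l295 (T t2160 (L l245 (L l246 (L l295 (L l296 (T t2161 N))))))))))) (K a239 (M a223 (L l397 (F (T t5725 (L l7 (L l331 (L l475 (T t238 (K a47 (M a111 (F (T t5725 (L l7 (L l28 (L l331 (L l475 (T t238 N)))))))) (K a111 (M a47 (F (T t5725 (L l7 (L l331 (L l475 (T t238 N))))))) N)))))))))) N)))))))))) (K a239 (M a223 (L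 l469 (F (T t2163 (L l295 (L l512 (T t5723 (K a95 (M a175 (L l137 (F (T t1268 (L l295 (L l512 (T t5723 (K a111 (M a127 (F (L l296 (T t917 (L l295 (L l512 (T t5723 N))))))) (K a127 (M a111 (F (T t1268 (L l295 (L l512 (T t5723 N)))))) N))))))))) (K a175 (M a95 (L l397 (F (T t5725 (L l7 (L l331 (L l475 (T t238 (K a47 (M a111 (F (T t5725 (L l7 (L l28 (L l331 (L l475 (T t238 N)))))))) (K a111 (M a47 (F (T t5725 (L l7 (L l331 (L l475 (T t238 N))))))) N)))))))))) N))))))))) N))))))))))))))) (K a143 (M a79 (L l289 (L l469 (F (T t1268 (L l295 (T t2160 (L l295 (L l296 (T t2161 (K a95 (M a175 (L l289 (F (T t1268 (L l295 (T t2160 (L l295 (L l296 (T t2161 (K a223 (M a239 (L l361 (F (T t1268 (L l75 (L l512 (T t5726 (L l245 (L l295 (T t2160 (K a31 (M a159 (F (T t2163 (L l18 (L l75 (L l296 (L l512 (T t5727 (L l245 (L l295 (T t2160 N))))))))))) (K a159 (M a31 (F (L l245 (L l295 (T t2160 (L l75 (L l367 (T t5721 N)))))))) N)))))))))))) (K a239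 (M a223 (F (T t1268 (L l227 (L l295 (L l512 (T t5723 N))))))) N))))))))))) (K a223 (M a239 (L l469 (F (T t1268 (L l245 (L l295 (T t2160 (L l245 (L l246 (L l295 (L l296 (T t2161 (K a95 (M a175 (L l361 (F (T t1268 (L l75 (L l512 (T t5726 (L l245 (L l295 (T t2160 (K a31 (M a159 (F (T t2163 (L l18 (L l75 (L l296 (L l512 (T t5727 (L l245 (L l295 (T t2160 N))))))))))) (K a159 (M a31 (F (L l245 (L l295 (T t2160 (L l75 (L l367 (T t5721 N)))))))) N)))))))))))) (K a175 (M a95 (L l213 (F (T t5728 (L l7 (L l331 (L l475 (T t238 (K a159 (M a191 (F (T t5728 (L l7 (L l331 (L l475 (T t238 N))))))) (K a191 (M a159 (F (T t5728 (L l7 (L l331 (L l475 (T t238 N))))))) N)))))))))) N)))))))))))))) (K a175 (M a95 (L l213 (L l289 (F (T t2163 (L l339 (L l397 (T t5729 (K a159 (M a191 (L l289 (F (L l397 (T t5728 (L l7 (L l331 (L l475 (T t238 (K a223 (M a239 (F (T t5728 (L l7 (L l331 (L l475 (T t238 N))))))) (K a239 (M a223 (L l397 (F (T t1268 (L l170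 (L l227 (L l295 (L l512 (T t5723 (K a47 (Fr a111 a127 l137 (V t5730)) (K a111 (M a47 (F (T t1268 (L l170 (L l227 (L l295 (L l512 (T t5723 N)))))))) N))))))))))) N))))))))))) (K a223 (M a239 (L l213 (F (T t5728 (L l7 (L l331 (L l475 (T t238 (K a159 (M a191 (F (T t5728 (L l7 (L l331 (L l475 (T t238 N))))))) (K a191 (M a159 (F (T t5728 (L l7 (L l331 (L l475 (T t238 N))))))) N)))))))))) (K a239 (M a223 (L l213 (L l397 (F (T t2163 (L l227 (L l295 (L l512 (T t5723 (K a159 (M a191 (L l397 (F (T t1268 (L l170 (L l227 (L l295 (L l512 (T t5723 (K a47 (Fr a111 a127 l137 (V t5730)) (K a111 (M a47 (F (T t1268 (L l170 (L l227 (L l295 (L l512 (T t5723 N)))))))) N))))))))))) (K a47 (Fr a111 a127 l137 (V t238)) (K a111 (M a47 (L l213 (F (T t1268 (L l227 (L l295 (L l512 (T t5723 (K a159 (M a191 (F (T t1268 (L l170 (L l227 (L l295 (L l512 (T t5723 N)))))))) (K a191 (Fr a159 a31 l361 (V t5723)) N)))))))))) (K a191 (Fr a159 a31 l361 (V t5723))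 N))))))))))))) (K a191 (M a159 (L l289 (F (L l397 (T t5728 (L l7 (L l331 (L l475 (T t238 (K a223 (M a239 (F (T t5728 (L l7 (L l331 (L l475 (T t238 N))))))) (K a239 (Fr a223 a31 l361 (V t5723)) N))))))))))) N)))))))))))) (K a239 (M a223 (L l469 (F (T t1268 (L l227 (L l295 (L l512 (T t5723 (K a95 (M a175 (F (T t1268 (L l227 (L l295 (L l512 (T t5723 N))))))) (K a175 (M a95 (L l213 (L l397 (F (T t2163 (L l227 (L l295 (L l512 (T t5723 (K a159 (M a191 (L l397 (F (T t1268 (L l170 (L l227 (L l295 (L l512 (T t5723 (K a47 (Fr a111 a127 l137 (V t5730)) (K a111 (M a47 (F (T t1268 (L l170 (L l227 (L l295 (L l512 (T t5723 N)))))))) N))))))))))) (K a47 (Fr a111 a127 l137 (V t238)) (K a111 (M a47 (L l213 (F (T t1268 (L l227 (L l295 (L l512 (T t5723 (K a159 (M a191 (F (T t1268 (L l170 (L l227 (L l295 (L l512 (T t5723 N)))))))) (K a191 (Fr a159 a31 l361 (V t5723)) N)))))))))) (K a191 (Fr a159 a31 l361 (V t5723)) N))))))))))))) N)))))))))) N))))))))))))))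 (K a95 (M a175 (L l289 (L l325 (F (T t1268 (L l137 (L l295 (T t2160 (L l295 (L l296 (T t2161 (K a79 (M a143 (L l137 (L l289 (F (T t1268 (L l295 (T t4450 (L l295 (L l296 (T t2161 (K a223 (M a239 (L l137 (L l361 (F (T t1268 (L l245 (L l295 (T t4450 (L l245 (L l246 (L l295 (L l296 (T t2161 (K a31 (Fr a159 a191 l213 (V t238)) (K a159 (M a31 (L l137 (F (T t2163 (L l169 (L l245 (L l246 (L l295 (L l296 (T t2161 (L l170 (L l245 (L l295 (T t4450 (K a111 (M a127 (F (L l84 (L l245 (L l295 (T t5720 (L l75 (L l367 (T t5721 N))))))))) (K a127 (Fr a111 a47 l397 (V t238)) N)))))))))))))))) (K a111 (M a127 (L l361 (F (L l84 (T t1191 (L l7 (L l331 (L l475 (T t238 (L l84 (L l245 (L l295 (T t5720 (K a31 (Fr a159 a191 l213 (V t5722)) (K a159 (M a31 (F (L l84 (L l245 (L l295 (T t5720 (L l75 (L l367 (T t5721 N))))))))) N))))))))))))))) (K a127 (Fr a111 a47 l397 (V t238)) N))))))))))))))))) (K a111 (M a127 (L l289 (F (L l296 (T t917 (L l7 (L l331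 (L l475 (T t238 (L l84 (L l295 (T t5720 (K a223 (M a239 (L l361 (F (L l84 (T t1191 (L l7 (L l331 (L l475 (T t238 (L l84 (L l245 (L l295 (T t5720 (K a31 (Fr a159 a191 l213 (V t5722)) (K a159 (M a31 (F (L l84 (L l245 (L l295 (T t5720 (L l75 (L l367 (T t5721 N))))))))) N))))))))))))))) (K a239 (M a223 (F (L l296 (T t917 (L l295 (L l512 (T t5723 N))))))) N)))))))))))))) (K a239 (M a223 (L l137 (F (T t1268 (L l295 (L l512 (T t5723 (K a111 (M a127 (F (L l296 (T t917 (L l295 (L l512 (T t5723 N))))))) (K a127 (M a111 (F (T t1268 (L l295 (L l512 (T t5723 N)))))) N))))))))) (K a127 (M a111 (L l289 (F (T t1268 (L l295 (L l296 (T t2161 (L l236 (L l295 (L l296 (L l339 (T t5724 (K a223 (Fr a239 a47 l397 (V t238)) (K a239 (M a223 (F (T t1268 (L l295 (L l512 (T t5723 N)))))) N)))))))))))))) N)))))))))))))) (K a143 (M a79 (L l289 (F (T t1268 (L l295 (T t2160 (L l295 (L l296 (T t2161 (K a223 (M a239 (L l361 (F (T t1268 (L l75 (L l512 (T t5726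 (L l245 (L l295 (T t2160 (K a31 (M a159 (F (T t2163 (L l18 (L l75 (L l296 (L l512 (T t5727 (L l245 (L l295 (T t2160 N))))))))))) (K a159 (M a31 (F (L l245 (L l295 (T t2160 (L l75 (L l367 (T t5721 N)))))))) N)))))))))))) (K a239 (M a223 (F (T t1268 (L l227 (L l295 (L l512 (T t5723 N))))))) N))))))))))) (K a223 (M a239 (L l325 (L l361 (F (T t1268 (L l75 (L l137 (L l296 (L l512 (T t5727 (L l137 (L l245 (L l295 (T t2160 (K a79 (M a143 (L l137 (L l361 (F (T t1268 (L l245 (L l295 (T t4450 (L l245 (L l246 (L l295 (L l296 (T t2161 (K a31 (Fr a159 a191 l213 (V t238)) (K a159 (M a31 (L l137 (F (T t2163 (L l169 (L l245 (L l246 (L l295 (L l296 (T t2161 (L l170 (L l245 (L l295 (T t4450 (K a111 (M a127 (F (L l84 (L l245 (L l295 (T t5720 (L l75 (L l367 (T t5721 N))))))))) (K a127 (Fr a111 a47 l397 (V t238)) N)))))))))))))))) (K a111 (M a127 (L l361 (F (L l84 (T t1191 (L l7 (L l331 (L l475 (T t238 (L l84 (L l245 (L l295 (T t5720 (K a31 (Fr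 a159 a191 l213 (V t5722)) (K a159 (M a31 (F (L l84 (L l245 (L l295 (T t5720 (L l75 (L l367 (T t5721 N))))))))) N))))))))))))))) (K a127 (Fr a111 a47 l397 (V t238)) N))))))))))))))))) (K a143 (M a79 (L l361 (F (T t1268 (L l75 (L l512 (T t5726 (L l245 (L l295 (T t2160 (K a31 (M a159 (F (T t2163 (L l18 (L l75 (L l296 (L l512 (T t5727 (L l245 (L l295 (T t2160 N))))))))))) (K a159 (M a31 (F (L l245 (L l295 (T t2160 (L l75 (L l367 (T t5721 N)))))))) N)))))))))))) (K a31 (M a159 (L l325 (F (T t2163 (L l18 (L l75 (L l137 (L l512 (T t5726 (L l137 (L l245 (L l295 (T t2160 (K a79 (Fr a143 a191 l213 (V t238)) (K a143 (M a79 (F (T t2163 (L l18 (L l75 (L l296 (L l512 (T t5727 (L l245 (L l295 (T t2160 N))))))))))) N))))))))))))))) (K a159 (M a31 (L l325 (F (L l137 (L l245 (L l295 (T t2160 (L l75 (L l367 (T t5721 (K a79 (M a143 (L l137 (F (T t2163 (L l169 (L l245 (L l246 (L l295 (L l296 (T t2161 (L l170 (L l245 (L l295 (T t4450 (K a111 (M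 a127 (F (L l84 (L l245 (L l295 (T t5720 (L l75 (L l367 (T t5721 N))))))))) (K a127 (Fr a111 a47 l397 (V t238)) N)))))))))))))))) (K a143 (M a79 (F (L l245 (L l295 (T t2160 (L l75 (L l367 (T t5721 N)))))))) N)))))))))))) N)))))))))))))))))) (K a239 (M a223 (L l325 (F (T t1268 (L l295 (L l512 (T t5723 (K a79 (M a143 (L l137 (F (T t1268 (L l295 (L l512 (T t5723 (K a111 (M a127 (F (L l296 (T t917 (L l295 (L l512 (T t5723 N))))))) (K a127 (M a111 (F (T t1268 (L l295 (L l512 (T t5723 N)))))) N))))))))) (K a143 (M a79 (F (T t1268 (L l227 (L l295 (L l512 (T t5723 N))))))) N))))))))) N))))))))))))))) (K a223 (M a239 (L l325 (L l469 (F (T t1268 (L l245 (L l295 (T t2160 (L l245 (L l246 (L l295 (L l296 (T t2161 (K a79 (M a143 (L l469 (F (T t1268 (L l137 (L l245 (L l295 (T t2160 (L l245 (L l246 (L l295 (L l296 (T t2161 (K a95 (M a175 (L l137 (L l361 (F (T t1268 (L l245 (L l295 (T t4450 (L l245 (L l246 (L l295 (L l296 (T t2161 (K a31 (Fr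 a159 a191 l213 (V t238)) (K a159 (M a31 (L l137 (F (T t2163 (L l169 (L l245 (L l246 (L l295 (L l296 (T t2161 (L l170 (L l245 (L l295 (T t4450 (K a111 (M a127 (F (L l84 (L l245 (L l295 (T t5720 (L l75 (L l367 (T t5721 N))))))))) (K a127 (Fr a111 a47 l397 (V t238)) N)))))))))))))))) (K a111 (M a127 (L l361 (F (L l84 (T t1191 (L l7 (L l331 (L l475 (T t238 (L l84 (L l245 (L l295 (T t5720 (K a31 (Fr a159 a191 l213 (V t5722)) (K a159 (M a31 (F (L l84 (L l245 (L l295 (T t5720 (L l75 (L l367 (T t5721 N))))))))) N))))))))))))))) (K a127 (Fr a111 a47 l397 (V t238)) N))))))))))))))))) (K a175 (M a95 (F (T t1268 (L l245 (L l295 (T t2160 (L l245 (L l246 (L l295 (L l296 (T t2161 N))))))))))) N))))))))))))))) (K a143 (M a79 (L l469 (F (T t1268 (L l245 (L l295 (T t2160 (L l245 (L l246 (L l295 (L l296 (T t2161 (K a95 (M a175 (L l361 (F (T t1268 (L l75 (L l512 (T t5726 (L l245 (L l295 (T t2160 (K a31 (M a159 (F (T t2163 (L l18 (L l75 (L l296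 (L l512 (T t5727 (L l245 (L l295 (T t2160 N))))))))))) (K a159 (M a31 (F (L l245 (L l295 (T t2160 (L l75 (L l367 (T t5721 N)))))))) N)))))))))))) (K a175 (M a95 (L l213 (F (T t5728 (L l7 (L l331 (L l475 (T t238 (K a159 (M a191 (F (T t5728 (L l7 (L l331 (L l475 (T t238 N))))))) (K a191 (M a159 (F (T t5728 (L l7 (L l331 (L l475 (T t238 N))))))) N)))))))))) N)))))))))))))) (K a95 (M a175 (L l325 (L l361 (F (T t1268 (L l75 (L l137 (L l296 (L l512 (T t5727 (L l137 (L l245 (L l295 (T t2160 (K a79 (M a143 (L l137 (L l361 (F (T t1268 (L l245 (L l295 (T t4450 (L l245 (L l246 (L l295 (L l296 (T t2161 (K a31 (Fr a159 a191 l213 (V t238)) (K a159 (M a31 (L l137 (F (T t2163 (L l169 (L l245 (L l246 (L l295 (L l296 (T t2161 (L l170 (L l245 (L l295 (T t4450 (K a111 (M a127 (F (L l84 (L l245 (L l295 (T t5720 (L l75 (L l367 (T t5721 N))))))))) (K a127 (Fr a111 a47 l397 (V t238)) N)))))))))))))))) (K a111 (M a127 (L l361 (F (L l84 (T t1191 (L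 l7 (L l331 (L l475 (T t238 (L l84 (L l245 (L l295 (T t5720 (K a31 (Fr a159 a191 l213 (V t5722)) (K a159 (M a31 (F (L l84 (L l245 (L l295 (T t5720 (L l75 (L l367 (T t5721 N))))))))) N))))))))))))))) (K a127 (Fr a111 a47 l397 (V t238)) N))))))))))))))))) (K a143 (M a79 (L l361 (F (T t1268 (L l75 (L l512 (T t5726 (L l245 (L l295 (T t2160 (K a31 (M a159 (F (T t2163 (L l18 (L l75 (L l296 (L l512 (T t5727 (L l245 (L l295 (T t2160 N))))))))))) (K a159 (M a31 (F (L l245 (L l295 (T t2160 (L l75 (L l367 (T t5721 N)))))))) N)))))))))))) (K a31 (M a159 (L l325 (F (T t2163 (L l18 (L l75 (L l137 (L l512 (T t5726 (L l137 (L l245 (L l295 (T t2160 (K a79 (Fr a143 a191 l213 (V t238)) (K a143 (M a79 (F (T t2163 (L l18 (L l75 (L l296 (L l512 (T t5727 (L l245 (L l295 (T t2160 N))))))))))) N))))))))))))))) (K a159 (M a31 (L l325 (F (L l137 (L l245 (L l295 (T t2160 (L l75 (L l367 (T t5721 (K a79 (M a143 (L l137 (F (T t2163 (L l169 (L l245 (L l246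 (L l295 (L l296 (T t2161 (L l170 (L l245 (L l295 (T t4450 (K a111 (M a127 (F (L l84 (L l245 (L l295 (T t5720 (L l75 (L l367 (T t5721 N))))))))) (K a127 (Fr a111 a47 l397 (V t238)) N)))))))))))))))) (K a143 (M a79 (F (L l245 (L l295 (T t2160 (L l75 (L l367 (T t5721 N)))))))) N)))))))))))) N)))))))))))))))))) (K a175 (M a95 (L l325 (F (T t1268 (L l245 (L l295 (T t2160 (L l245 (L l246 (L l295 (L l296 (T t2161 (K a79 (M a143 (F (T t1268 (L l245 (L l295 (T t2160 (L l245 (L l246 (L l295 (L l296 (T t2161 N))))))))))) (K a143 (M a79 (L l213 (F (T t5728 (L l7 (L l331 (L l475 (T t238 (K a159 (M a191 (F (T t5728 (L l7 (L l331 (L l475 (T t238 N))))))) (K a191 (M a159 (F (T t5728 (L l7 (L l331 (L l475 (T t238 N))))))) N)))))))))) N)))))))))))))) N))))))))))))))))) (K a175 (M a95 (L l289 (L l325 (F (T t1268 (L l213 (L l296 (T t2878 (L l295 (T t2160 (K a79 (M a143 (L l289 (F (T t1268 (L l296 (T t2878 (L l295 (T t2160 (K a223 (M a239 (F (T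 t1268 (L l245 (L l295 (T t2160 (L l245 (L l246 (L l295 (L l296 (T t2161 N))))))))))) (K a239 (M a223 (L l397 (F (T t5725 (L l7 (L l331 (L l475 (T t238 (K a47 (M a111 (F (T t5725 (L l7 (L l28 (L l331 (L l475 (T t238 N)))))))) (K a111 (M a47 (F (T t5725 (L l7 (L l331 (L l475 (T t238 N))))))) N)))))))))) N)))))))))) (K a143 (M a79 (L l213 (L l289 (F (T t2163 (L l339 (L l397 (T t5729 (K a159 (M a191 (L l289 (F (L l397 (T t5728 (L l7 (L l331 (L l475 (T t238 (K a223 (M a239 (F (T t5728 (L l7 (L l331 (L l475 (T t238 N))))))) (K a239 (M a223 (L l397 (F (T t1268 (L l170 (L l227 (L l295 (L l512 (T t5723 (K a47 (Fr a111 a127 l137 (V t5730)) (K a111 (M a47 (F (T t1268 (L l170 (L l227 (L l295 (L l512 (T t5723 N)))))))) N))))))))))) N))))))))))) (K a223 (M a239 (L l213 (F (T t5728 (L l7 (L l331 (L l475 (T t238 (K a159 (M a191 (F (T t5728 (L l7 (L l331 (L l475 (T t238 N))))))) (K a191 (M a159 (F (T t5728 (L l7 (L l331 (L l475 (T t238 N)))))))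 N)))))))))) (K a239 (M a223 (L l213 (L l397 (F (T t2163 (L l227 (L l295 (L l512 (T t5723 (K a159 (M a191 (L l397 (F (T t1268 (L l170 (L l227 (L l295 (L l512 (T t5723 (K a47 (Fr a111 a127 l137 (V t5730)) (K a111 (M a47 (F (T t1268 (L l170 (L l227 (L l295 (L l512 (T t5723 N)))))))) N))))))))))) (K a47 (Fr a111 a127 l137 (V t238)) (K a111 (M a47 (L l213 (F (T t1268 (L l227 (L l295 (L l512 (T t5723 (K a159 (M a191 (F (T t1268 (L l170 (L l227 (L l295 (L l512 (T t5723 N)))))))) (K a191 (Fr a159 a31 l361 (V t5723)) N)))))))))) (K a191 (Fr a159 a31 l361 (V t5723)) N))))))))))))) (K a191 (M a159 (L l289 (F (L l397 (T t5728 (L l7 (L l331 (L l475 (T t238 (K a223 (M a239 (F (T t5728 (L l7 (L l331 (L l475 (T t238 N))))))) (K a239 (Fr a223 a31 l361 (V t5723)) N))))))))))) N)))))))))))) (K a223 (M a239 (L l325 (F (T t1268 (L l245 (L l295 (T t2160 (L l245 (L l246 (L l295 (L l296 (T t2161 (K a79 (M a143 (F (T t1268 (L l245 (L l295 (T t2160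 (L l245 (L l246 (L l295 (L l296 (T t2161 N))))))))))) (K a143 (M a79 (L l213 (F (T t5728 (L l7 (L l331 (L l475 (T t238 (K a159 (M a191 (F (T t5728 (L l7 (L l331 (L l475 (T t238 N))))))) (K a191 (M a159 (F (T t5728 (L l7 (L l331 (L l475 (T t238 N))))))) N)))))))))) N)))))))))))))) (K a239 (M a223 (L l325 (L l397 (F (L l213 (T t5725 (L l7 (L l331 (L l475 (T t238 (K a79 (M a143 (L l397 (F (T t5725 (L l7 (L l331 (L l475 (T t238 (K a47 (M a111 (F (T t5725 (L l7 (L l28 (L l331 (L l475 (T t238 N)))))))) (K a111 (M a47 (F (T t5725 (L l7 (L l331 (L l475 (T t238 N))))))) N)))))))))) (K a143 (M a79 (L l213 (L l397 (F (T t2163 (L l227 (L l295 (L l512 (T t5723 (K a159 (M a191 (L l397 (F (T t1268 (L l170 (L l227 (L l295 (L l512 (T t5723 (K a47 (Fr a111 a127 l137 (V t5730)) (K a111 (M a47 (F (T t1268 (L l170 (L l227 (L l295 (L l512 (T t5723 N)))))))) N))))))))))) (K a47 (Fr a111 a127 l137 (V t238)) (K a111 (M a47 (L l213 (F (T t1268 (L l227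 (L l295 (L l512 (T t5723 (K a159 (M a191 (F (T t1268 (L l170 (L l227 (L l295 (L l512 (T t5723 N)))))))) (K a191 (Fr a159 a31 l361 (V t5723)) N)))))))))) (K a191 (Fr a159 a31 l361 (V t5723)) N))))))))))))) (K a47 (M a111 (L l325 (F (L l213 (T t5725 (L l7 (L l28 (L l331 (L l475 (T t238 (K a79 (M a143 (F (T t5725 (L l7 (L l28 (L l331 (L l475 (T t238 N)))))))) (K a143 (Fr a79 a127 l137 (V t238)) N)))))))))))) (K a111 (M a47 (L l325 (F (L l213 (T t5725 (L l7 (L l331 (L l475 (T t238 (K a79 (M a143 (F (T t5725 (L l7 (L l331 (L l475 (T t238 N))))))) (K a143 (M a79 (L l213 (F (T t1268 (L l227 (L l295 (L l512 (T t5723 (K a159 (M a191 (F (T t1268 (L l170 (L l227 (L l295 (L l512 (T t5723 N)))))))) (K a191 (Fr a159 a31 l361 (V t5723)) N)))))))))) N))))))))))) N)))))))))))))) N)))))))))))))) (K a239 (M a223 (L l325 (L l469 (F (T t2163 (L l295 (L l512 (T t5723 (K a79 (M a143 (L l469 (F (T t2163 (L l295 (L l512 (T t5723 (K a95 (M a175 (L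 l137 (F (T t1268 (L l295 (L l512 (T t5723 (K a111 (M a127 (F (L l296 (T t917 (L l295 (L l512 (T t5723 N))))))) (K a127 (M a111 (F (T t1268 (L l295 (L l512 (T t5723 N)))))) N))))))))) (K a175 (M a95 (L l397 (F (T t5725 (L l7 (L l331 (L l475 (T t238 (K a47 (M a111 (F (T t5725 (L l7 (L l28 (L l331 (L l475 (T t238 N)))))))) (K a111 (M a47 (F (T t5725 (L l7 (L l331 (L l475 (T t238 N))))))) N)))))))))) N))))))))) (K a143 (M a79 (L l469 (F (T t1268 (L l227 (L l295 (L l512 (T t5723 (K a95 (M a175 (F (T t1268 (L l227 (L l295 (L l512 (T t5723 N))))))) (K a175 (M a95 (L l213 (L l397 (F (T t2163 (L l227 (L l295 (L l512 (T t5723 (K a159 (M a191 (L l397 (F (T t1268 (L l170 (L l227 (L l295 (L l512 (T t5723 (K a47 (Fr a111 a127 l137 (V t5730)) (K a111 (M a47 (F (T t1268 (L l170 (L l227 (L l295 (L l512 (T t5723 N)))))))) N))))))))))) (K a47 (Fr a111 a127 l137 (V t238)) (K a111 (M a47 (L l213 (F (T t1268 (L l227 (L l295 (L l512 (T t5723 (K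 a159 (M a191 (F (T t1268 (L l170 (L l227 (L l295 (L l512 (T t5723 N)))))))) (K a191 (Fr a159 a31 l361 (V t5723)) N)))))))))) (K a191 (Fr a159 a31 l361 (V t5723)) N))))))))))))) N)))))))))) (K a95 (M a175 (L l325 (F (T t1268 (L l295 (L l512 (T t5723 (K a79 (M a143 (L l137 (F (T t1268 (L l295 (L l512 (T t5723 (K a111 (M a127 (F (L l296 (T t917 (L l295 (L l512 (T t5723 N))))))) (K a127 (M a111 (F (T t1268 (L l295 (L l512 (T t5723 N)))))) N))))))))) (K a143 (M a79 (F (T t1268 (L l227 (L l295 (L l512 (T t5723 N))))))) N))))))))) (K a175 (M a95 (L l325 (L l397 (F (L l213 (T t5725 (L l7 (L l331 (L l475 (T t238 (K a79 (M a143 (L l397 (F (T t5725 (L l7 (L l331 (L l475 (T t238 (K a47 (M a111 (F (T t5725 (L l7 (L l28 (L l331 (L l475 (T t238 N)))))))) (K a111 (M a47 (F (T t5725 (L l7 (L l331 (L l475 (T t238 N))))))) N)))))))))) (K a143 (M a79 (L l213 (L l397 (F (T t2163 (L l227 (L l295 (L l512 (T t5723 (K a159 (M a191 (L l397 (F (T t1268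 (L l170 (L l227 (L l295 (L l512 (T t5723 (K a47 (Fr a111 a127 l137 (V t5730)) (K a111 (M a47 (F (T t1268 (L l170 (L l227 (L l295 (L l512 (T t5723 N)))))))) N))))))))))) (K a47 (Fr a111 a127 l137 (V t238)) (K a111 (M a47 (L l213 (F (T t1268 (L l227 (L l295 (L l512 (T t5723 (K a159 (M a191 (F (T t1268 (L l170 (L l227 (L l295 (L l512 (T t5723 N)))))))) (K a191 (Fr a159 a31 l361 (V t5723)) N)))))))))) (K a191 (Fr a159 a31 l361 (V t5723)) N))))))))))))) (K a47 (M a111 (L l325 (F (L l213 (T t5725 (L l7 (L l28 (L l331 (L l475 (T t238 (K a79 (M a143 (F (T t5725 (L l7 (L l28 (L l331 (L l475 (T t238 N)))))))) (K a143 (Fr a79 a127 l137 (V t238)) N)))))))))))) (K a111 (M a47 (L l325 (F (L l213 (T t5725 (L l7 (L l331 (L l475 (T t238 (K a79 (M a143 (F (T t5725 (L l7 (L l331 (L l475 (T t238 N))))))) (K a143 (M a79 (L l213 (F (T t1268 (L l227 (L l295 (L l512 (T t5723 (K a159 (M a191 (F (T t1268 (L l170 (L l227 (L l295 (L l512 (T t5723 N))))))))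 (K a191 (Fr a159 a31 l361 (V t5723)) N)))))))))) N))))))))))) N)))))))))))))) N)))))))))))) N))))))))))))))))) (K a79 (M a143 (F (L l236 (L l339 (T t352 (L l289 (L l469 (L l512 (T t2879 (L l137 (L l289 (L l469 (T t52 (L l84 (L l236 (L l339 (T t90 (L l84 (L l512 (T t2880 (K a192 (M a4 (L l236 (L l339 (F (T t1399 (L l73 (L l489 (L l511 (T t519 (L l296 (T t131 (K a133 (M a74 (L l236 (F (T t1399 (L l73 (L l489 (L l511 (T t519 (L l296 (T t131 (K a197 (M a202 (L l311 (F (T t1399 (L l75 (L l512 (T t2881 (L l73 (L l489 (L l511 (T t519 (K a5 (M a69 (F (T t129 (L l153 (T t2920 N))))) (K a69 (M a5 (F (T t1399 (L l491 (T t2883 N))))) N))))))))))))) (K a202 (M a197 (F (T t1399 (L l73 (L l489 (L l511 (T t519 (L l296 (T t131 N))))))))) N)))))))))))) (K a197 (M a202 (L l339 (F (T t1399 (L l73 (L l489 (L l511 (T t519 (L l275 (L l296 (T t131 (K a133 (M a74 (L l311 (F (T t1399 (L l75 (L l512 (T t2881 (L l73 (L l489 (L l511 (T t519 (K a5 (M a69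 (F (T t129 (L l153 (T t2920 N))))) (K a69 (M a5 (F (T t1399 (L l491 (T t2883 N))))) N))))))))))))) (K a74 (M a133 (L l84 (F (T t129 (L l289 (L l296 (L l469 (L l512 (T t2884 (K a64 (M a69 (F (T t1604 (L l336 (T t2882 N))))) (K a69 (M a64 (F (T t359 (L l73 (L l489 (L l511 (T t519 N))))))) N))))))))))) N))))))))))))) (K a74 (M a133 (L l84 (L l236 (F (T t129 (L l289 (L l296 (L l318 (L l469 (L l512 (T t2884 (K a64 (M a69 (L l236 (F (T t2885 (L l7 (L l336 (T t5709 (K a197 (M a202 (F (T t1604 (L l336 (T t2882 N))))) (K a202 (Fr a197 a5 l311 (V t2887)) N))))))))) (K a69 (M a64 (L l236 (F (T t359 (L l73 (L l489 (L l511 (T t519 (K a197 (M a202 (F (T t359 (L l73 (L l489 (L l511 (T t519 N))))))) (K a202 (M a197 (L l318 (F (T t359 (L l73 (L l489 (L l511 (T t519 (K a10 (Fr a138 a128 l160 (V t359)) (K a138 (M a10 (F (L l206 (T t359 (L l73 (L l320 (L l489 (L l511 (T t519 N))))))))) N)))))))))) N)))))))))) (K a197 (M a202 (L l84 (F (T t129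 (L l289 (L l296 (L l469 (L l512 (T t2884 (K a64 (M a69 (F (T t1604 (L l336 (T t2882 N))))) (K a69 (M a64 (F (T t359 (L l73 (L l489 (L l511 (T t519 N))))))) N))))))))))) (K a202 (M a197 (L l84 (L l318 (F (T t1399 (L l7 (L l234 (L l336 (T t2888 (K a64 (Fr a69 a5 l311 (V t2887)) (K a69 (M a64 (L l318 (F (T t359 (L l73 (L l489 (L l511 (T t519 (K a10 (Fr a138 a128 l160 (V t359)) (K a138 (M a10 (F (L l206 (T t359 (L l73 (L l320 (L l489 (L l511 (T t519 N))))))))) N)))))))))) (K a10 (Fr a138 a128 l160 (V t5717)) (K a138 (M a10 (L l84 (F (L l320 (T t1399 (L l7 (L l158 (L l234 (L l336 (T t2888 (K a64 (Fr a69 a5 l311 (V t5718)) (K a69 (M a64 (F (L l206 (T t359 (L l73 (L l320 (L l489 (L l511 (T t519 N))))))))) N)))))))))))) N))))))))))))) N))))))))))))))) (K a202 (M a197 (L l339 (F (T t1399 (L l75 (L l84 (L l151 (L l296 (L l512 (T t2889 (L l73 (L l489 (L l511 (T t519 (K a133 (M a74 (F (T t1399 (L l73 (L l489 (L l511 (T t519 (L l296 (T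 t131 N))))))))) (K a74 (M a133 (L l84 (L l318 (F (T t1399 (L l7 (L l234 (L l336 (T t2888 (K a64 (Fr a69 a5 l311 (V t2887)) (K a69 (M a64 (L l318 (F (T t359 (L l73 (L l489 (L l511 (T t519 (K a10 (Fr a138 a128 l160 (V t359)) (K a138 (M a10 (F (L l206 (T t359 (L l73 (L l320 (L l489 (L l511 (T t519 N))))))))) N)))))))))) (K a10 (Fr a138 a128 l160 (V t5717)) (K a138 (M a10 (L l84 (F (L l320 (T t1399 (L l7 (L l158 (L l234 (L l336 (T t2888 (K a64 (Fr a69 a5 l311 (V t5718)) (K a69 (M a64 (F (L l206 (T t359 (L l73 (L l320 (L l489 (L l511 (T t519 N))))))))) N)))))))))))) N))))))))))))) N)))))))))))))))) N))))))))))))))) (K a21 (M a12 (F (T t123 (L l137 (L l231 (L l327 (T t124 (L l15 (L l137 (T t574 N)))))))))) (K a149 (M a4 (F (T t129 (L l220 (L l301 (L l481 (T t1509 (L l202 (T t1372 N))))))))) (K a213 (Fr a170 a255 l476 (Fr a42 a21 l68 (Fr a106 a234 l390 (Fr a192 a149 l519 (V t581))))) (K a42 (M a12 (F (L l56 (T t123 (L l137 (L l231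 (L l327 (L l390 (T t124 (L l56 (L l137 (T t574 N)))))))))))) (K a170 (M a4 (F (L l390 (L l464 (T t129 (L l390 (T t131 (L l137 (L l464 (T t130 (L l301 (L l464 (L l481 (T t938 N)))))))))))))) N)))))))))))))))))))))))))) (K a143 (M a79 (F (T t89 (L l213 (L l483 (T t5731 (L l289 (L l339 (L l469 (T t5732 (L l236 (L l339 (L l512 (T t5733 (K a255 (M a95 (L l289 (F (L l296 (T t5734 (T t5728 (L l213 (L l296 (T t2878 (K a223 (M a239 (F (T t5728 (L l246 (L l296 (T t5734 (L l75 (L l213 (T t5735 (L l246 (L l296 (T t5736 N)))))))))))) (K a239 (M a223 (F (L l227 (L l512 (T t5737 (L l339 (L l397 (T t5729 (L l213 (L l296 (T t5738 N))))))))))) N))))))))))) N))))))))))))))) N))))))))))))))))))))))))⟩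
def e0_63__207_6 : Ent 4 := ⟨[a0, a63], [a207, a16], (M a60 (F (T t522 (L l14 (L l18 (L l331 (T t67 (L l331 (T t43 (L l18 (L l331 (T t68 (L l331 (T t69 (K a20 (M a28 (F (T t1346 (L l10 (L l11 (L l18 (L l331 (T t197 (L l511 (T t1347 N)))))))))) (K a40 (M a12 (F (L l325 (T t398 (L l18 (L l511 (T t122 (L l10 (L l18 (L l24 (T t399 N))))))))))) (K a21 (M a192 (L l18 (F (T t1343 (L l11 (L l14 (L l291 (T t79 (L l347 (T t74 (K a26 (M a31 (F (T t2647 (L l303 (L l340 (T t1348 N)))))) (K a31 (M a26 (F (T t1343 (L l291 (T t72 (L l11 (L l14 (T t78 N)))))))) N)))))))))))) (K a41 (M a192 (F (T t1343 (L l14 (L l291 (T t79 (L l18 (L l65 (L l289 (T t35 N)))))))))) (K a61 (M a192 (F (T t2647 (L l18 (L l65 (L l289 (L l515 (T t35 (T t80 N))))))))) (K a22 (M a192 (F (T t614 (L l11 (L l14 (L l291 (T t79 (L l11 (L l18 (L l289 (T t35 N))))))))))) (K a42 (M a192 (F (T t614 (L l14 (L l291 (T t79 (L l22 (T t74 N)))))))) (K a62 (M a192 (F (T t2658 (L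 l18 (L l289 (T t35 (L l66 (L l516 (T t80 N))))))))) (K a3 (M a106 (L l331 (F (T t2792 (L l18 (T t1513 (K a71 (M a139 (F (T t2359 (L l236 (L l309 (T t4429 (T t2369 N))))))) (K a139 (M a71 (F (T t2359 (L l236 (L l309 (T t4429 (T t2369 N))))))) N)))))))) N)))))))))))))))))))))))⟩
def e0_63__207_7 : Ent 4 := ⟨[a0, a63], [a207, a17], (M a60 (F (T t522 (L l15 (L l331 (T t67 (L l331 (T t43 (L l15 (L l331 (T t68 (L l41 (L l331 (T t69 (K a20 (M a48 (F (T t277 (L l11 (L l15 (L l325 (T t1 (L l11 (L l15 (T t235 N)))))))))) (K a40 (M a48 (F (T t246 (L l15 (L l325 (T t1 (L l15 (L l52 (T t235 N))))))))) (K a21 (M a192 (L l15 (F (T t1343 (L l11 (L l291 (T t79 (L l347 (T t74 (K a25 (M a29 (F (T t2658 (L l301 (L l341 (T t2409 N)))))) (K a29 (M a25 (F (T t2647 (L l235 (L l347 (L l371 (T t73 (L l11 (T t78 N))))))))) N))))))))))) (K a41 (M a192 (F (T t81 (L l291 (T t79 (L l15 (L l65 (L l289 (T t35 N))))))))) (K a61 (M a192 (F (T t1334 (L l15 (L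 l65 (L l289 (L l515 (T t35 (T t80 N))))))))) (K a22 (M a192 (F (T t614 (L l11 (L l291 (T t79 (L l11 (L l15 (L l289 (T t35 N)))))))))) (K a42 (M a192 (F (T t614 (L l291 (T t79 (L l22 (T t74 N))))))) (K a62 (M a192 (F (T t2658 (L l15 (L l289 (T t35 (L l66 (L l516 (T t80 N))))))))) (K a3 (M a106 (L l331 (F (T t2792 (L l15 (T t1513 (K a71 (M a139 (F (T t2359 (L l236 (L l309 (T t4429 (T t2369 N))))))) (K a139 (M a71 (F (T t2359 (L l236 (L l309 (T t4429 (T t2369 N))))))) N)))))))) N)))))))))))))))))))))))⟩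
def e0_63__207_8 : Ent 4 := ⟨[a0, a63], [a207, a18], (M a12 (F (T t2575 (L l42 (L l511 (T t122 (L l10 (L l511 (T t151 (L l511 (T t152 (L l511 (T t153 (K a4 (M a60 (F (T t570 (L l45 (L l46 (L l50 (L l331 (T t67 (L l10 (T t448 N)))))))))) (K a8 (M a60 (F (T t570 (L l45 (L l331 (T t67 (L l10 (L l52 (L l56 (T t448 N)))))))))) (K a21 (M a192 (F (T t158 (L l231 (T t156 (L l15 (L l347 (T t157 N)))))))) (K a25 (M a192 (F (T t155 (L l231 (T t156 (L l289 (T t21 N))))))) (K a29 (M a192 (F (T t159 (L l289 (L l371 (T t21 (T t160 N))))))) (K a38 (M a192 (F (T t576 (L l231 (T t156 (L l289 (T t21 N))))))) (K a42 (M a192 (F (T t161 (L l231 (T t156 (L l56 (T t157 N))))))) (K a46 (M a192 (F (T t57 (L l231 (T t156 (L l26 (L l408 (T t160 N)))))))) (K a51 (M a192 (L l511 (F (T t47 (L l231 (L l513 (T t156 (L l301 (L l415 (T t450 (K a103 (M a155 (F (T t1800 (L l301 (L l415 (T t543 (L l231 (L l513 (T t468 N))))))))) (K a155 (M a103 (F (T t1800 (L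 l301 (L l415 (T t543 (L l231 (L l513 (T t468 N))))))))) N)))))))))))) N))))))))))))))))))))))⟩
def e0_63__207_9 : Ent 4 := ⟨[a0, a63], [a207, a19], (M a60 (F (T t116 (L l43 (L l331 (T t67 (L l17 (L l43 (L l331 (T t43 (L l43 (L l331 (T t68 (L l43 (L l331 (T t69 (K a20 (M a48 (F (T t138 (L l11 (L l325 (T t1 (L l11 (T t235 N)))))))) (K a40 (M a48 (F (T t246 (L l325 (T t1 (L l52 (T t235 N))))))) (K a21 (M a192 (F (T t1343 (L l11 (L l291 (T t79 (L l347 (T t74 N)))))))) (K a41 (M a192 (F (T t81 (L l291 (T t79 (L l65 (L l289 (T t35 N)))))))) (K a61 (M a192 (F (T t1334 (L l65 (L l289 (L l515 (T t35 (T t80 N)))))))) (K a22 (M a28 (F (L l66 (T t1346 (L l10 (L l512 (T t1353 (L l16 (L l66 (T t1354 N)))))))))) (K a42 (M a192 (F (T t614 (L l291 (T t79 (L l22 (T t74 N))))))) (K a62 (M a192 (F (T t57 (L l291 (T t79 (L l66 (L l516 (T t80 N)))))))) (K a3 (M a51 (L l331 (F (T t841 (L l45 (L l512 (T t1356 (L l9 (L l10 (T t1357 (K a71 (M a139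 (F (T t1355 (L l45 (L l512 (T t3961 (L l9 (L l10 (T t1357 N))))))))) (K a139 (M a71 (F (T t1355 (L l45 (L l512 (T t3961 (L l9 (L l10 (T t1357 N))))))))) N)))))))))))) N)))))))))))))))))))))))))⟩
def e0_63__207_10 : Ent 4 := ⟨[a0, a63], [a207, a22], (M a192 (F (L l289 (T t21 (L l11 (T t47 (L l11 (L l289 (T t35 (L l289 (T t202 (L l66 (L l289 (T t37 (K a64 (M a12 (F (T t161 (L l11 (L l511 (T t122 (L l66 (L l80 (L l144 (T t160 N)))))))))) (K a128 (M a12 (F (T t158 (L l11 (L l511 (T t122 (L l66 (T t160 N)))))))) (K a21 (M a20 (F (T t5739 (L l66 (L l289 (L l347 (T t949 (L l65 (L l235 (L l347 (T t950 N))))))))))) (K a85 (M a16 (F (L l303 (T t210 (L l66 (L l325 (T t97 (L l16 (L l66 (L l94 (L l144 (T t211 N)))))))))))) (K a149 (M a48 (F (T t1922 (L l11 (L l325 (L l347 (L l491 (T t1 (L l11 (L l170 (L l220 (L l325 (L l347 (L l491 (T t213 (L l66 (L l325 (L l375 (T t214 N))))))))))))))))))) (K a42 (M a2 (F (T t2679 (L l11 (L l289 (L l390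 (T t1804 (L l291 (L l390 (T t1365 N)))))))))) (K a106 (M a48 (F (T t55 (L l11 (L l325 (T t1 (L l11 (L l325 (L l411 (T t213 (L l66 (L l104 (L l144 (L l325 (L l390 (L l498 (T t214 N))))))))))))))))) (K a170 (M a32 (F (L l303 (T t218 (L l11 (L l325 (T t219 (L l11 (L l51 (L l180 (L l220 (T t220 N)))))))))))) (K a255 (M a16 (L l289 (F (T t1805 (L l66 (L l325 (L l469 (T t97 (L l16 (L l66 (T t211 (K a223 (M a239 (F (T t1805 (L l66 (L l325 (L l361 (L l469 (T t97 (L l16 (L l66 (T t211 N))))))))))) (K a239 (M a223 (F (L l404 (T t1805 (L l66 (L l325 (L l404 (L l469 (T t97 (T t5427 N)))))))))) N))))))))))))) N)))))))))))))))))))))))⟩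
def e0_63__207_11 : Ent 4 := ⟨[a0, a63], [a207, a23], (M a12 (F (T t1252 (L l11 (L l511 (T t122 (L l511 (T t151 (L l11 (L l511 (T t152 (L l49 (L l511 (T t153 (K a4 (M a60 (F (T t423 (L l11 (L l50 (L l331 (T t68 (L l11 (L l50 (T t2410 N)))))))))) (K a8 (M a60 (F (T t423 (L l11 (L l331 (T t68 (L l11 (T t2410 N)))))))) (K a21 (M a192 (L l11 (F (T t158 (L l231 (T t156 (L l15 (L l347 (L l351 (T t157 (K a20 (M a22 (F (T t2119 (L l15 (L l301 (L l347 (L l351 (T t450 (L l46 (L l50 (T t681 N))))))))))) (K a22 (M a20 (F (T t5740 (L l301 (T t221 N))))) N)))))))))))) (K a25 (M a192 (F (T t158 (L l231 (T t156 (L l289 (L l351 (T t21 N)))))))) (K a29 (M a192 (F (T t1681 (L l231 (T t156 (T t160 N)))))) (K a38 (M a192 (F (T t2119 (L l301 (L l351 (T t450 (L l289 (L l351 (T t21 N))))))))) (K a42 (M a192 (F (T t496 (L l301 (L l351 (T t450 (L l56 (L l351 (T t157 N))))))))) (K a46 (M a192 (F (T t1725 (L l289 (L l351 (T t21 (L l26 (L l408 (T t160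 N))))))))) (K a51 (M a170 (L l511 (F (T t4159 (L l11 (T t3682 (K a103 (M a155 (F (T t5242 (L l11 (L l236 (L l489 (T t320 (T t3880 N)))))))) (K a155 (M a103 (F (T t5242 (L l11 (L l236 (L l489 (T t320 (T t3880 N)))))))) N)))))))) N)))))))))))))))))))))))⟩
def e0_63__207_12 : Ent 4 := ⟨[a0, a63], [a207, a26], (M a192 (F (L l289 (T t21 (L l18 (T t47 (L l18 (L l289 (T t35 (L l289 (T t202 (L l54 (L l289 (T t37 (K a64 (M a12 (F (T t161 (L l18 (L l511 (T t122 (L l54 (L l80 (L l144 (T t160 N)))))))))) (K a128 (M a12 (F (T t158 (L l18 (L l511 (T t122 (L l54 (T t160 N)))))))) (K a21 (M a12 (L l18 (F (T t158 (L l231 (T t156 (L l15 (L l347 (T t157 (K a16 (M a31 (F (T t158 (L l47 (L l50 (L l57 (L l331 (T t3859 N)))))))) (K a31 (M a16 (F (T t1805 (L l301 (T t543 N))))) N))))))))))) (K a85 (M a240 (F (T t4730 (L l347 (T t4731 (L l94 (L l144 (T t4732 N)))))))) (K a149 (M a12 (F (T t1725 (L l18 (L l347 (L l371 (L l511 (T t122 (L l18 (L l202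 (L l220 (L l347 (L l371 (L l511 (T t227 (L l54 (L l495 (L l511 (T t228 N))))))))))))))))))) (K a42 (M a12 (L l54 (F (T t161 (L l231 (T t156 (L l56 (T t157 (K a10 (M a58 (F (T t161 (L l12 (L l18 (L l506 (T t5741 N))))))) (K a58 (M a10 (F (T t159 (L l28 (L l303 (L l390 (L l498 (T t1444 N)))))))) N)))))))))) (K a106 (M a12 (F (T t159 (L l18 (L l511 (T t122 (L l18 (L l501 (L l511 (T t227 (L l54 (L l132 (L l144 (L l390 (L l408 (L l511 (T t228 N))))))))))))))))) (K a170 (M a240 (F (T t5327 (L l390 (T t4223 (L l180 (L l220 (T t4221 N)))))))) (K a255 (M a224 (L l289 (F (T t233 (T t232 (L l18 (L l75 (T t234 (K a223 (M a239 (F (L l246 (T t233 (L l469 (T t5742 (L l75 (L l246 (L l325 (L l469 (T t5743 N))))))))))) (K a239 (M a223 (F (T t232 (T t5744 (L l18 (L l75 (T t234 N))))))) N)))))))))) N)))))))))))))))))))))))⟩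
def e0_63__207_13 : Ent 4 := ⟨[a0, a63], [a207, a27], (M a60 (F (T t2568 (L l55 (L l331 (T t67 (L l17 (L l331 (T t43 (L l331 (T t68 (L l331 (T t69 (K a20 (M a48 (F (T t138 (L l11 (L l14 (T t48 (L l11 (T t235 N)))))))) (K a40 (M a48 (F (T t48 (T t236 (L l52 (T t235 N)))))) (K a21 (M a192 (F (T t1343 (L l11 (L l291 (T t79 (L l347 (T t74 N)))))))) (K a41 (M a192 (F (T t81 (L l291 (T t79 (L l65 (L l289 (T t35 N)))))))) (K a61 (M a192 (F (T t1334 (L l65 (L l289 (L l515 (T t35 (T t80 N)))))))) (K a22 (M a192 (F (T t614 (L l11 (L l291 (T t79 (L l11 (L l289 (T t35 N))))))))) (K a42 (M a192 (F (T t614 (L l291 (T t79 (L l22 (T t74 N))))))) (K a62 (M a192 (F (T t57 (L l291 (T t79 (L l66 (L l516 (T t80 N)))))))) (K a3 (M a192 (L l331 (F (T t237 (L l291 (L l477 (T t79 (L l289 (L l475 (T t35 (K a71 (M a139 (F (T t1800 (L l235 (L l307 (T t75 (L l291 (L l477 (T t1333 N))))))))) (K a139 (M a71 (F (T t1800 (L l235 (L l307 (T t75 (L l291 (L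 l477 (T t1333 N))))))))) N)))))))))))) N))))))))))))))))))))))⟩
def e0_63__207_14 : Ent 4 := ⟨[a0, a63], [a207, a31], (M a60 (F (T t662 (L l18 (L l331 (T t67 (L l17 (L l331 (T t43 (L l18 (L l331 (T t68 (L l331 (T t69 (K a20 (M a48 (F (T t277 (L l11 (L l18 (L l325 (T t1 (L l11 (L l18 (T t235 N)))))))))) (K a40 (M a48 (F (T t236 (L l18 (L l325 (T t1 (L l18 (L l52 (T t235 N))))))))) (K a21 (M a48 (L l18 (F (T t138 (L l13 (L l326 (T t248 (L l11 (L l47 (L l65 (L l326 (L l511 (T t249 (L l13 (L l50 (L l326 (T t250 (K a16 (M a26 (F (L l47 (T t251 (L l11 (L l325 (T t252 (L l50 (L l511 (T t451 N)))))))))) (K a26 (Fr a16 a32 l40 (V t253)) N))))))))))))))))))) (K a41 (M a192 (F (T t1334 (L l18 (L l65 (L l289 (L l375 (T t35 (L l235 (L l375 (T t73 N))))))))))) (K a61 (M a192 (F (T t1334 (L l18 (L l65 (L l289 (L l375 (L l515 (T t35 (L l373 (T t80 N))))))))))) (K a22 (M a192 (F (T t2658 (L l289 (L l375 (T t21 (L l235 (L l375 (T t73 N)))))))))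 (K a42 (M a192 (F (T t1334 (L l235 (L l375 (T t73 (L l22 (L l375 (T t74 N))))))))) (K a62 (M a192 (F (T t2658 (L l18 (L l289 (L l375 (T t35 (L l66 (L l373 (L l516 (T t80 N))))))))))) (K a3 (M a192 (L l331 (F (T t1343 (L l291 (L l477 (T t79 (L l18 (L l289 (L l375 (L l475 (T t35 (K a71 (M a139 (F (T t1681 (L l235 (L l307 (L l373 (T t75 (L l291 (L l477 (T t1333 N)))))))))) (K a139 (M a71 (F (T t1681 (L l235 (L l307 (L l373 (T t75 (L l291 (L l477 (T t1333 N)))))))))) N)))))))))))))) N)))))))))))))))))))))))⟩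
def e0_63__207_15 : Ent 4 := ⟨[a0, a63], [a207, a48], (M a192 (L l512 (F (T t47 (L l289 (L l440 (T t21 (L l289 (L l440 (T t35 (L l289 (L l440 (T t202 (L l289 (L l440 (T t37 (K a64 (M a61 (L l512 (F (T t529 (L l144 (L l235 (L l488 (T t584 (L l144 (T t5745 (K a101 (M a154 (F (T t529 (L l104 (L l144 (L l235 (L l488 (T t584 (L l101 (L l104 (L l144 (T t5745 N)))))))))))) (K a154 (M a101 (F (T t4856 (L l144 (L l231 (L l498 (T t5746 N))))))) N)))))))))))) (K a128 (M a61 (L l512 (F (T t529 (L l235 (L l488 (T t584 (L l152 (T t5745 (K a101 (M a154 (F (T t529 (L l104 (L l235 (L l488 (T t584 (L l101 (L l104 (L l152 (T t5745 N))))))))))) (K a154 (M a101 (F (T t4856 (L l231 (L l498 (T t5746 N)))))) N))))))))))) (K a21 (M a148 (L l512 (F (T t5076 (L l235 (L l488 (T t5747 (T t5748 (K a101 (M a154 (F (T t5076 (L l104 (L l508 (L l509 (T t5749 N))))))) (K a154 (M a101 (F (T t5076 (L l235 (L l498 (T t5750 N)))))) N)))))))))) (K a85 (M a12 (L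 l512 (F (T t2061 (L l231 (L l508 (T t156 (L l301 (L l347 (L l416 (T t450 (K a101 (M a154 (L l123 (F (T t2061 (L l104 (L l144 (L l301 (L l416 (T t543 (L l231 (L l508 (T t468 (K a69 (M a117 (F (T t2061 (L l104 (L l144 (L l301 (L l416 (T t543 (L l231 (L l508 (T t468 N))))))))))) (K a117 (M a69 (L l440 (F (T t2061 (L l151 (L l325 (T t5751 (K a186 (M a255 (F (T t2061 (L l91 (L l104 (L l144 (T t5752 N))))))) (K a255 (M a186 (L l289 (F (T t2061 (L l104 (L l144 (L l469 (T t5753 (K a223 (M a239 (F (T t2061 (L l104 (L l144 (L l419 (T t5754 N))))))) (K a239 (M a223 (L l404 (F (T t2061 (L l104 (L l144 (L l397 (L l469 (T t5753 (K a32 (Fr a170 a138 l206 (V t5112)) (K a170 (M a32 (F (L l347 (L l458 (T t2575 (L l144 (L l231 (L l290 (L l508 (T t836 (L l220 (L l265 (L l301 (L l347 (L l416 (L l491 (T t450 N))))))))))))))))) N))))))))))) N)))))))))) N))))))))) N)))))))))))))) (K a154 (M a101 (L l368 (F (T t2061 (L l144 (L l301 (L l416 (L l498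 (T t543 (L l231 (L l508 (T t468 (K a16 (M a223 (F (T t2061 (L l144 (L l301 (L l416 (L l498 (T t543 (L l231 (L l508 (T t468 N))))))))))) (K a223 (M a16 (L l289 (F (L l458 (T t159 (L l75 (L l354 (T t2243 (K a239 (M a255 (F (T t2061 (L l91 (L l144 (L l362 (L l498 (T t5752 N)))))))) (K a255 (M a239 (L l440 (F (L l144 (T t1725 (L l75 (L l354 (L l356 (T t872 (K a117 (M a186 (F (L l458 (T t159 (L l170 (L l303 (L l347 (L l469 (T t5755 N))))))))) (K a186 (M a117 (L l206 (F (L l458 (T t496 (L l170 (L l303 (L l347 (L l469 (T t5755 (K a138 (Fr a170 a32 l404 (V t5110)) (K a170 (M a138 (F (L l390 (L l464 (T t2061 (L l220 (L l231 (L l290 (L l508 (T t156 (L l170 (L l220 (L l265 (L l301 (L l347 (L l416 (T t450 N))))))))))))))))) N)))))))))))) N))))))))))) N)))))))))) N)))))))))))))) N))))))))))))) (K a149 (M a12 (L l512 (F (T t1725 (L l30 (L l347 (L l371 (L l511 (T t122 (L l30 (L l202 (L l220 (L l347 (L l371 (L l511 (T t227 (L l30 (L l495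 (L l511 (T t228 (K a101 (M a154 (L l491 (F (T t1252 (L l231 (L l508 (T t836 (L l30 (L l202 (L l220 (L l347 (L l371 (L l511 (T t227 (L l30 (L l495 (L l511 (T t228 (K a197 (M a53 (F (T t1725 (L l75 (L l383 (T t5756 N)))))) (K a53 (M a197 (F (T t1252 (L l231 (L l508 (T t836 (L l30 (L l47 (L l202 (L l220 (L l347 (L l371 (L l511 (T t227 (L l30 (L l31 (L l495 (L l511 (T t228 N))))))))))))))))))) N)))))))))))))))))))) (K a154 (M a101 (L l170 (F (T t1252 (L l231 (L l508 (T t836 (L l30 (L l202 (L l220 (L l347 (L l371 (L l511 (T t227 (L l30 (L l495 (L l511 (T t228 (K a144 (M a159 (F (T t1725 (L l30 (L l347 (L l371 (L l511 (T t122 (L l30 (L l192 (L l202 (L l220 (L l347 (L l371 (L l511 (T t227 (L l30 (L l495 (L l511 (T t5757 N)))))))))))))))))))) (K a159 (M a144 (F (T t1252 (L l227 (L l412 (T t5758 N)))))) N)))))))))))))))))))) N)))))))))))))))))))))) (K a42 (M a148 (L l512 (F (T t5076 (L l235 (L l390 (L l488 (T t5747 (L l390 (T t5748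 (K a101 (M a154 (F (T t5076 (L l104 (L l390 (L l508 (L l509 (T t5749 N)))))))) (K a154 (M a101 (F (T t5076 (L l235 (L l390 (L l498 (T t5750 N))))))) N)))))))))))) (K a106 (M a12 (L l512 (F (T t150 (L l231 (L l508 (T t156 (L l30 (L l501 (L l511 (T t227 (L l30 (L l132 (L l144 (L l390 (L l408 (L l511 (T t228 (K a101 (M a154 (L l104 (F (T t150 (L l132 (L l231 (L l508 (T t468 (L l30 (L l501 (L l511 (T t227 (L l30 (L l132 (L l144 (L l390 (L l408 (L l511 (T t228 (K a96 (M a111 (F (T t159 (L l30 (L l390 (L l511 (T t153 (L l30 (L l501 (L l511 (T t2404 (L l30 (L l116 (L l132 (L l144 (L l390 (L l408 (L l511 (T t228 N))))))))))))))))))) (K a111 (M a96 (F (T t150 (L l151 (L l412 (T t5759 N)))))) N))))))))))))))))))))) (K a154 (M a101 (L l498 (F (T t150 (L l132 (L l231 (L l508 (T t468 (L l30 (L l501 (L l511 (T t227 (L l30 (L l132 (L l144 (L l390 (L l408 (L l511 (T t228 (K a202 (M a58 (F (T t159 (L l75 (L l354 (T t5760 N)))))) (K a58 (M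 a202 (F (T t150 (L l231 (L l508 (T t156 (L l30 (L l32 (L l501 (L l511 (T t227 (L l30 (L l54 (L l132 (L l144 (L l390 (L l408 (L l511 (T t228 N))))))))))))))))))) N))))))))))))))))))))) N)))))))))))))))))))) (K a170 (M a12 (L l512 (F (T t2575 (L l220 (L l231 (L l508 (T t156 (L l220 (L l301 (L l416 (T t450 (K a101 (M a154 (L l404 (F (T t2575 (L l220 (L l301 (L l416 (L l491 (T t467 (L l231 (L l464 (L l508 (T t468 (K a32 (M a239 (F (T t2575 (L l220 (L l301 (L l416 (L l491 (T t467 (L l231 (L l464 (L l508 (T t468 N)))))))))))) (K a239 (M a32 (L l289 (F (L l220 (T t159 (L l75 (L l383 (T t2493 (K a223 (M a255 (F (T t2575 (L l178 (L l220 (L l398 (L l491 (T t5761 N)))))))) (K a255 (M a223 (L l440 (F (L l464 (T t1725 (L l104 (L l303 (L l390 (L l469 (T t5762 (K a117 (M a186 (L l123 (F (L l464 (T t2119 (L l104 (L l303 (L l390 (L l469 (T t5762 (K a69 (Fr a85 a16 l368 (V t5138)) (K a85 (M a69 (F (L l347 (L l458 (T t2575 (L l144 (L l231 (L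 l290 (L l508 (T t836 (L l220 (L l265 (L l301 (L l347 (L l416 (L l491 (T t450 N))))))))))))))))) N)))))))))))) (K a186 (M a117 (F (L l464 (T t1725 (L l104 (L l303 (L l390 (L l469 (T t5762 N))))))))) N)))))))))))) N)))))))))) N))))))))))))))) (K a154 (M a101 (L l206 (F (T t2575 (L l170 (L l220 (L l301 (L l416 (T t467 (L l231 (L l464 (L l508 (T t468 (K a138 (M a186 (F (T t2575 (L l170 (L l220 (L l301 (L l416 (T t467 (L l231 (L l320 (L l464 (L l508 (T t468 N))))))))))))) (K a186 (M a138 (L l440 (F (T t2575 (L l227 (L l325 (T t5763 (K a117 (M a255 (F (T t2575 (L l170 (L l178 (L l220 (T t5761 N))))))) (K a255 (M a117 (L l289 (F (T t2575 (L l170 (L l220 (L l426 (T t5764 (K a223 (M a239 (L l368 (F (T t2575 (L l170 (L l220 (L l361 (L l469 (T t5765 (K a16 (Fr a85 a69 l123 (V t1586)) (K a85 (M a16 (F (L l390 (L l464 (T t2061 (L l220 (L l231 (L l290 (L l508 (T t156 (L l170 (L l220 (L l265 (L l301 (L l347 (L l416 (T t450 N)))))))))))))))))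 N))))))))))) (K a239 (M a223 (F (T t2575 (L l170 (L l220 (L l426 (T t5764 N))))))) N)))))))))) N))))))))) N))))))))))))))) N)))))))))))))) (K a255 (M a196 (L l289 (L l440 (L l512 (F (T t5489 (L l30 (L l439 (L l511 (T t5400 (T t5238 (K a101 (M a154 (L l289 (L l440 (F (T t5489 (L l30 (L l104 (L l439 (L l511 (T t5400 (L l97 (L l104 (T t5238 (K a117 (M a186 (L l123 (L l289 (F (T t5489 (L l114 (T t5766 (K a69 (M a85 (L l289 (F (T t1586 (L l70 (L l314 (L l326 (L l470 (T t5767 (K a223 (M a239 (F (T t1586 (L l70 (L l314 (L l326 (L l470 (T t5767 N)))))))) (K a239 (Fr a223 a16 l368 (V t1586)) N))))))))))) (K a85 (M a69 (L l289 (F (T t5489 (L l114 (L l347 (T t5766 (K a223 (M a239 (F (T t5489 (L l75 (L l347 (L l491 (T t5768 N))))))) (K a239 (M a223 (L l404 (F (T t5489 (L l114 (L l256 (L l347 (T t5766 (K a32 (Fr a170 a138 l206 (V t5135)) (K a170 (M a32 (F (L l75 (L l347 (L l383 (T t5769 (L l70 (L l208 (L l326 (L l458 (L l470 (T t5767 N))))))))))))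 N)))))))))) N))))))))) (K a223 (M a239 (L l123 (F (T t5489 (L l75 (L l491 (T t5768 (K a69 (M a85 (F (T t1586 (L l70 (L l314 (L l326 (L l470 (T t5767 N)))))))) (K a85 (M a69 (F (T t5489 (L l75 (L l347 (L l491 (T t5768 N))))))) N))))))))) (K a239 (M a223 (L l123 (L l404 (F (T t5770 (L l104 (L l303 (L l469 (T t5762 (K a32 (Fr a170 a138 l206 (V t5135)) (K a69 (Fr a85 a16 l368 (V t1586)) (K a85 (M a69 (L l404 (F (T t5489 (L l114 (L l256 (L l347 (T t5766 (K a32 (Fr a170 a138 l206 (V t5135)) (K a170 (M a32 (F (L l75 (L l347 (L l383 (T t5769 (L l70 (L l208 (L l326 (L l458 (L l470 (T t5767 N)))))))))))) N)))))))))) (K a170 (M a32 (L l123 (F (L l70 (L l208 (L l326 (L l470 (T t5767 (L l104 (L l303 (L l390 (L l469 (T t5762 (K a69 (Fr a85 a16 l368 (V t5119)) (K a85 (M a69 (F (L l75 (L l347 (L l383 (T t5769 (L l70 (L l208 (L l326 (L l458 (L l470 (T t5767 N)))))))))))) N))))))))))))))) N))))))))))))) N))))))))))) (K a186 (M a117 (L l289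 (F (T t5489 (L l30 (L l104 (L l439 (L l511 (T t5400 (L l97 (L l104 (T t5238 (K a223 (M a239 (F (T t5489 (L l30 (L l104 (L l439 (L l511 (T t5400 (L l97 (L l104 (T t5238 N))))))))))) (K a239 (M a223 (L l404 (F (T t5770 (L l104 (L l303 (L l469 (T t5762 (K a32 (M a170 (F (T t5135 (L l70 (L l326 (L l470 (T t5767 N))))))) (K a170 (M a32 (F (L l70 (L l208 (L l326 (L l470 (T t5767 (L l104 (L l303 (L l390 (L l469 (T t5762 N)))))))))))) N)))))))))) N)))))))))))))) (K a223 (M a239 (L l440 (F (T t5489 (L l30 (L l104 (L l439 (L l511 (T t5400 (L l97 (L l104 (T t5238 (K a117 (M a186 (L l123 (F (T t5489 (L l75 (L l491 (T t5768 (K a69 (M a85 (F (T t1586 (L l70 (L l314 (L l326 (L l470 (T t5767 N)))))))) (K a85 (M a69 (F (T t5489 (L l75 (L l347 (L l491 (T t5768 N))))))) N))))))))) (K a186 (M a117 (F (T t5489 (L l30 (L l104 (L l439 (L l511 (T t5400 (L l97 (L l104 (T t5238 N))))))))))) N)))))))))))))) (K a239 (M a223 (L l404 (L l440 (F (T t5489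 (L l104 (L l303 (L l469 (T t5762 (K a32 (M a170 (L l440 (F (T t5135 (L l70 (L l326 (L l470 (T t5767 (K a117 (Fr a186 a138 l206 (V t5135)) (K a186 (M a117 (F (T t5135 (L l70 (L l326 (L l470 (T t5767 N))))))) N)))))))))) (K a117 (M a186 (L l123 (L l404 (F (T t5770 (L l104 (L l303 (L l469 (T t5762 (K a32 (Fr a170 a138 l206 (V t5135)) (K a69 (Fr a85 a16 l368 (V t1586)) (K a85 (M a69 (L l404 (F (T t5489 (L l114 (L l256 (L l347 (T t5766 (K a32 (Fr a170 a138 l206 (V t5135)) (K a170 (M a32 (F (L l75 (L l347 (L l383 (T t5769 (L l70 (L l208 (L l326 (L l458 (L l470 (T t5767 N)))))))))))) N)))))))))) (K a170 (M a32 (L l123 (F (L l70 (L l208 (L l326 (L l470 (T t5767 (L l104 (L l303 (L l390 (L l469 (T t5762 (K a69 (Fr a85 a16 l368 (V t5119)) (K a85 (M a69 (F (L l75 (L l347 (L l383 (T t5769 (L l70 (L l208 (L l326 (L l458 (L l470 (T t5767 N)))))))))))) N))))))))))))))) N))))))))))))) (K a170 (M a32 (L l440 (F (L l70 (L l208 (L l326 (L l470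 (T t5767 (L l104 (L l303 (L l390 (L l469 (T t5762 (K a117 (M a186 (L l123 (F (L l70 (L l208 (L l326 (L l470 (T t5767 (L l104 (L l303 (L l390 (L l469 (T t5762 (K a69 (Fr a85 a16 l368 (V t5119)) (K a85 (M a69 (F (L l75 (L l347 (L l383 (T t5769 (L l70 (L l208 (L l326 (L l458 (L l470 (T t5767 N)))))))))))) N))))))))))))))) (K a186 (M a117 (F (L l70 (L l208 (L l326 (L l470 (T t5767 (L l104 (L l303 (L l390 (L l469 (T t5762 N)))))))))))) N))))))))))))))) (K a186 (M a117 (L l404 (F (T t5770 (L l104 (L l303 (L l469 (T t5762 (K a32 (M a170 (F (T t5135 (L l70 (L l326 (L l470 (T t5767 N))))))) (K a170 (M a32 (F (L l70 (L l208 (L l326 (L l470 (T t5767 (L l104 (L l303 (L l390 (L l469 (T t5762 N)))))))))))) N)))))))))) N))))))))))))) N))))))))))))))))) (K a117 (M a186 (L l289 (L l512 (F (T t5771 (L l70 (L l326 (L l470 (T t5767 (T t5238 (K a101 (M a154 (L l123 (L l289 (F (T t5489 (L l114 (T t5766 (K a69 (M a85 (L l289 (F (T t1586 (L l70 (L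 l314 (L l326 (L l470 (T t5767 (K a223 (M a239 (F (T t1586 (L l70 (L l314 (L l326 (L l470 (T t5767 N)))))))) (K a239 (Fr a223 a16 l368 (V t1586)) N))))))))))) (K a85 (M a69 (L l289 (F (T t5489 (L l114 (L l347 (T t5766 (K a223 (M a239 (F (T t5489 (L l75 (L l347 (L l491 (T t5768 N))))))) (K a239 (M a223 (L l404 (F (T t5489 (L l114 (L l256 (L l347 (T t5766 (K a32 (Fr a170 a138 l206 (V t5135)) (K a170 (M a32 (F (L l75 (L l347 (L l383 (T t5769 (L l70 (L l208 (L l326 (L l458 (L l470 (T t5767 N)))))))))))) N)))))))))) N))))))))) (K a223 (M a239 (L l123 (F (T t5489 (L l75 (L l491 (T t5768 (K a69 (M a85 (F (T t1586 (L l70 (L l314 (L l326 (L l470 (T t5767 N)))))))) (K a85 (M a69 (F (T t5489 (L l75 (L l347 (L l491 (T t5768 N))))))) N))))))))) (K a239 (M a223 (L l123 (L l404 (F (T t5770 (L l104 (L l303 (L l469 (T t5762 (K a32 (Fr a170 a138 l206 (V t5135)) (K a69 (Fr a85 a16 l368 (V t1586)) (K a85 (M a69 (L l404 (F (T t5489 (L l114 (L l256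 (L l347 (T t5766 (K a32 (Fr a170 a138 l206 (V t5135)) (K a170 (M a32 (F (L l75 (L l347 (L l383 (T t5769 (L l70 (L l208 (L l326 (L l458 (L l470 (T t5767 N)))))))))))) N)))))))))) (K a170 (M a32 (L l123 (F (L l70 (L l208 (L l326 (L l470 (T t5767 (L l104 (L l303 (L l390 (L l469 (T t5762 (K a69 (Fr a85 a16 l368 (V t5119)) (K a85 (M a69 (F (L l75 (L l347 (L l383 (T t5769 (L l70 (L l208 (L l326 (L l458 (L l470 (T t5767 N)))))))))))) N))))))))))))))) N))))))))))))) N))))))))))) (K a154 (M a101 (L l289 (F (T t5770 (L l34 (L l419 (L l422 (L l498 (T t5772 (K a223 (M a239 (L l368 (F (T t5489 (L l34 (L l419 (L l422 (L l498 (T t5772 (K a16 (M a85 (F (T t1586 (L l70 (L l326 (L l470 (T t5767 N))))))) (K a85 (M a16 (F (T t5489 (L l170 (L l303 (L l347 (L l469 (T t5755 N)))))))) N))))))))))) (K a239 (M a223 (F (T t5770 (L l34 (L l419 (L l422 (L l498 (T t5772 N)))))))) N))))))))))) (K a223 (M a239 (L l512 (F (T t5771 (L l70 (L l326 (L l470 (T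 t5767 (T t5238 (K a101 (M a154 (L l123 (F (T t5489 (L l75 (L l491 (T t5768 (K a69 (M a85 (F (T t1586 (L l70 (L l314 (L l326 (L l470 (T t5767 N)))))))) (K a85 (M a69 (F (T t5489 (L l75 (L l347 (L l491 (T t5768 N))))))) N))))))))) (K a154 (M a101 (L l368 (F (T t5489 (L l34 (L l419 (L l422 (L l498 (T t5772 (K a16 (M a85 (F (T t1586 (L l70 (L l326 (L l470 (T t5767 N))))))) (K a85 (M a16 (F (T t5489 (L l170 (L l303 (L l347 (L l469 (T t5755 N)))))))) N))))))))))) N))))))))))) (K a239 (M a223 (L l512 (F (T t5771 (L l70 (L l326 (L l470 (T t5767 (T t5238 (K a101 (M a154 (L l123 (L l404 (F (T t5770 (L l104 (L l303 (L l469 (T t5762 (K a32 (Fr a170 a138 l206 (V t5135)) (K a69 (Fr a85 a16 l368 (V t1586)) (K a85 (M a69 (L l404 (F (T t5489 (L l114 (L l256 (L l347 (T t5766 (K a32 (Fr a170 a138 l206 (V t5135)) (K a170 (M a32 (F (L l75 (L l347 (L l383 (T t5769 (L l70 (L l208 (L l326 (L l458 (L l470 (T t5767 N)))))))))))) N)))))))))) (K a170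 (M a32 (L l123 (F (L l70 (L l208 (L l326 (L l470 (T t5767 (L l104 (L l303 (L l390 (L l469 (T t5762 (K a69 (Fr a85 a16 l368 (V t5119)) (K a85 (M a69 (F (L l75 (L l347 (L l383 (T t5769 (L l70 (L l208 (L l326 (L l458 (L l470 (T t5767 N)))))))))))) N))))))))))))))) N))))))))))))) (K a154 (M a101 (F (T t5770 (L l34 (L l419 (L l422 (L l498 (T t5772 N)))))))) N))))))))))) N)))))))))))))) (K a154 (M a101 (L l289 (L l440 (F (T t5770 (L l34 (L l498 (T t5772 (K a117 (M a186 (L l289 (F (T t5770 (L l34 (L l419 (L l422 (L l498 (T t5772 (K a223 (M a239 (L l368 (F (T t5489 (L l34 (L l419 (L l422 (L l498 (T t5772 (K a16 (M a85 (F (T t1586 (L l70 (L l326 (L l470 (T t5767 N))))))) (K a85 (M a16 (F (T t5489 (L l170 (L l303 (L l347 (L l469 (T t5755 N)))))))) N))))))))))) (K a239 (M a223 (F (T t5770 (L l34 (L l419 (L l422 (L l498 (T t5772 N)))))))) N))))))))))) (K a186 (M a117 (L l206 (L l289 (F (T t5489 (L l34 (L l498 (T t5772 (K a138 (M a170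 (L l289 (F (T t5135 (L l70 (L l154 (L l326 (L l470 (T t5767 (K a223 (Fr a239 a32 l404 (V t5135)) (K a239 (M a223 (F (T t5135 (L l70 (L l154 (L l326 (L l470 (T t5767 N)))))))) N))))))))))) (K a170 (M a138 (L l289 (F (L l227 (L l325 (T t5773 (L l34 (L l390 (L l498 (T t5772 (K a223 (M a239 (L l368 (F (L l227 (L l325 (T t5773 (L l34 (L l390 (L l498 (T t5772 (K a16 (Fr a85 a69 l123 (V t5119)) (K a85 (M a16 (F (L l144 (L l390 (L l498 (T t5774 (L l70 (L l208 (L l326 (L l458 (L l470 (T t5767 (L l75 (L l170 (L l220 (L l347 (L l354 (L l390 (T t5775 N))))))))))))))))))) N)))))))))))) (K a239 (M a223 (F (L l227 (L l325 (T t5773 (L l34 (L l390 (L l498 (T t5772 N))))))))) N)))))))))))) (K a223 (M a239 (L l206 (L l368 (F (T t5489 (L l170 (L l303 (L l469 (T t5755 (K a16 (Fr a85 a69 l123 (V t1586)) (K a85 (M a16 (L l206 (F (T t5489 (L l170 (L l303 (L l347 (L l469 (T t5755 (K a138 (Fr a170 a32 l404 (V t5150)) (K a170 (M a138 (F (L l144 (L l390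 (L l498 (T t5774 (L l70 (L l208 (L l326 (L l458 (L l470 (T t5767 (L l75 (L l170 (L l220 (L l347 (L l354 (L l390 (T t5775 N))))))))))))))))))) N))))))))))) (K a138 (Fr a170 a32 l404 (V t5135)) (K a170 (M a138 (L l368 (F (L l227 (L l325 (T t5773 (L l34 (L l390 (L l498 (T t5772 (K a16 (Fr a85 a69 l123 (V t5119)) (K a85 (M a16 (F (L l144 (L l390 (L l498 (T t5774 (L l70 (L l208 (L l326 (L l458 (L l470 (T t5767 (L l75 (L l170 (L l220 (L l347 (L l354 (L l390 (T t5775 N))))))))))))))))))) N)))))))))))) N))))))))))))) (K a239 (M a223 (L l206 (F (T t5489 (L l34 (L l498 (T t5772 (K a138 (M a170 (F (T t5135 (L l70 (L l154 (L l326 (L l470 (T t5767 N)))))))) (K a170 (M a138 (F (L l227 (L l325 (T t5773 (L l34 (L l390 (L l498 (T t5772 N))))))))) N))))))))) N)))))))))))) (K a223 (M a239 (L l368 (L l440 (F (T t5770 (L l170 (L l303 (L l469 (T t5755 (K a16 (M a85 (L l440 (F (T t1586 (L l70 (L l326 (L l470 (T t5767 (K a117 (M a186 (F (T t1586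 (L l70 (L l326 (L l470 (T t5767 N))))))) (K a186 (Fr a117 a69 l123 (V t1586)) N)))))))))) (K a85 (M a16 (L l440 (F (T t5489 (L l170 (L l303 (L l347 (L l469 (T t5755 (K a117 (M a186 (F (T t5489 (L l170 (L l303 (L l347 (L l469 (T t5755 N)))))))) (K a186 (M a117 (L l206 (F (T t5489 (L l170 (L l303 (L l347 (L l469 (T t5755 (K a138 (Fr a170 a32 l404 (V t5150)) (K a170 (M a138 (F (L l144 (L l390 (L l498 (T t5774 (L l70 (L l208 (L l326 (L l458 (L l470 (T t5767 (L l75 (L l170 (L l220 (L l347 (L l354 (L l390 (T t5775 N))))))))))))))))))) N))))))))))) N))))))))))) (K a117 (M a186 (L l368 (F (T t5489 (L l34 (L l419 (L l422 (L l498 (T t5772 (K a16 (M a85 (F (T t1586 (L l70 (L l326 (L l470 (T t5767 N))))))) (K a85 (M a16 (F (T t5489 (L l170 (L l303 (L l347 (L l469 (T t5755 N)))))))) N))))))))))) (K a186 (M a117 (L l206 (L l368 (F (T t5489 (L l170 (L l303 (L l469 (T t5755 (K a16 (Fr a85 a69 l123 (V t1586)) (K a85 (M a16 (L l206 (F (T t5489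 (L l170 (L l303 (L l347 (L l469 (T t5755 (K a138 (Fr a170 a32 l404 (V t5150)) (K a170 (M a138 (F (L l144 (L l390 (L l498 (T t5774 (L l70 (L l208 (L l326 (L l458 (L l470 (T t5767 (L l75 (L l170 (L l220 (L l347 (L l354 (L l390 (T t5775 N))))))))))))))))))) N))))))))))) (K a138 (Fr a170 a32 l404 (V t5135)) (K a170 (M a138 (L l368 (F (L l227 (L l325 (T t5773 (L l34 (L l390 (L l498 (T t5772 (K a16 (Fr a85 a69 l123 (V t5119)) (K a85 (M a16 (F (L l144 (L l390 (L l498 (T t5774 (L l70 (L l208 (L l326 (L l458 (L l470 (T t5767 (L l75 (L l170 (L l220 (L l347 (L l354 (L l390 (T t5775 N))))))))))))))))))) N)))))))))))) N))))))))))))) N))))))))))))) (K a239 (M a223 (L l440 (F (T t5770 (L l34 (L l498 (T t5772 (K a117 (M a186 (F (T t5770 (L l34 (L l419 (L l422 (L l498 (T t5772 N)))))))) (K a186 (M a117 (L l206 (F (T t5489 (L l34 (L l498 (T t5772 (K a138 (M a170 (F (T t5135 (L l70 (L l154 (L l326 (L l470 (T t5767 N)))))))) (K a170 (M a138 (F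 (L l227 (L l325 (T t5773 (L l34 (L l390 (L l498 (T t5772 N))))))))) N))))))))) N))))))))) N)))))))))))) (K a186 (M a117 (L l289 (L l512 (F (T t5771 (L l70 (L l326 (L l470 (T t5767 (T t5238 (K a101 (M a154 (L l289 (F (T t5489 (L l30 (L l104 (L l439 (L l511 (T t5400 (L l97 (L l104 (T t5238 (K a223 (M a239 (F (T t5489 (L l30 (L l104 (L l439 (L l511 (T t5400 (L l97 (L l104 (T t5238 N))))))))))) (K a239 (M a223 (L l404 (F (T t5770 (L l104 (L l303 (L l469 (T t5762 (K a32 (M a170 (F (T t5135 (L l70 (L l326 (L l470 (T t5767 N))))))) (K a170 (M a32 (F (L l70 (L l208 (L l326 (L l470 (T t5767 (L l104 (L l303 (L l390 (L l469 (T t5762 N)))))))))))) N)))))))))) N)))))))))))))) (K a154 (M a101 (L l206 (L l289 (F (T t5489 (L l34 (L l498 (T t5772 (K a138 (M a170 (L l289 (F (T t5135 (L l70 (L l154 (L l326 (L l470 (T t5767 (K a223 (Fr a239 a32 l404 (V t5135)) (K a239 (M a223 (F (T t5135 (L l70 (L l154 (L l326 (L l470 (T t5767 N)))))))) N)))))))))))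 (K a170 (M a138 (L l289 (F (L l227 (L l325 (T t5773 (L l34 (L l390 (L l498 (T t5772 (K a223 (M a239 (L l368 (F (L l227 (L l325 (T t5773 (L l34 (L l390 (L l498 (T t5772 (K a16 (Fr a85 a69 l123 (V t5119)) (K a85 (M a16 (F (L l144 (L l390 (L l498 (T t5774 (L l70 (L l208 (L l326 (L l458 (L l470 (T t5767 (L l75 (L l170 (L l220 (L l347 (L l354 (L l390 (T t5775 N))))))))))))))))))) N)))))))))))) (K a239 (M a223 (F (L l227 (L l325 (T t5773 (L l34 (L l390 (L l498 (T t5772 N))))))))) N)))))))))))) (K a223 (M a239 (L l206 (L l368 (F (T t5489 (L l170 (L l303 (L l469 (T t5755 (K a16 (Fr a85 a69 l123 (V t1586)) (K a85 (M a16 (L l206 (F (T t5489 (L l170 (L l303 (L l347 (L l469 (T t5755 (K a138 (Fr a170 a32 l404 (V t5150)) (K a170 (M a138 (F (L l144 (L l390 (L l498 (T t5774 (L l70 (L l208 (L l326 (L l458 (L l470 (T t5767 (L l75 (L l170 (L l220 (L l347 (L l354 (L l390 (T t5775 N))))))))))))))))))) N))))))))))) (K a138 (Fr a170 a32 l404 (V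 t5135)) (K a170 (M a138 (L l368 (F (L l227 (L l325 (T t5773 (L l34 (L l390 (L l498 (T t5772 (K a16 (Fr a85 a69 l123 (V t5119)) (K a85 (M a16 (F (L l144 (L l390 (L l498 (T t5774 (L l70 (L l208 (L l326 (L l458 (L l470 (T t5767 (L l75 (L l170 (L l220 (L l347 (L l354 (L l390 (T t5775 N))))))))))))))))))) N)))))))))))) N))))))))))))) (K a239 (M a223 (L l206 (F (T t5489 (L l34 (L l498 (T t5772 (K a138 (M a170 (F (T t5135 (L l70 (L l154 (L l326 (L l470 (T t5767 N)))))))) (K a170 (M a138 (F (L l227 (L l325 (T t5773 (L l34 (L l390 (L l498 (T t5772 N))))))))) N))))))))) N)))))))))))) (K a223 (M a239 (L l512 (F (T t5771 (L l70 (L l326 (L l470 (T t5767 (T t5238 (K a101 (M a154 (F (T t5489 (L l30 (L l104 (L l439 (L l511 (T t5400 (L l97 (L l104 (T t5238 N))))))))))) (K a154 (M a101 (L l206 (L l368 (F (T t5489 (L l170 (L l303 (L l469 (T t5755 (K a16 (Fr a85 a69 l123 (V t1586)) (K a85 (M a16 (L l206 (F (T t5489 (L l170 (L l303 (L l347 (L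 l469 (T t5755 (K a138 (Fr a170 a32 l404 (V t5150)) (K a170 (M a138 (F (L l144 (L l390 (L l498 (T t5774 (L l70 (L l208 (L l326 (L l458 (L l470 (T t5767 (L l75 (L l170 (L l220 (L l347 (L l354 (L l390 (T t5775 N))))))))))))))))))) N))))))))))) (K a138 (Fr a170 a32 l404 (V t5135)) (K a170 (M a138 (L l368 (F (L l227 (L l325 (T t5773 (L l34 (L l390 (L l498 (T t5772 (K a16 (Fr a85 a69 l123 (V t5119)) (K a85 (M a16 (F (L l144 (L l390 (L l498 (T t5774 (L l70 (L l208 (L l326 (L l458 (L l470 (T t5767 (L l75 (L l170 (L l220 (L l347 (L l354 (L l390 (T t5775 N))))))))))))))))))) N)))))))))))) N))))))))))))) N))))))))))) (K a239 (M a223 (L l512 (F (T t5771 (L l70 (L l326 (L l470 (T t5767 (T t5238 (K a101 (M a154 (L l404 (F (T t5770 (L l104 (L l303 (L l469 (T t5762 (K a32 (M a170 (F (T t5135 (L l70 (L l326 (L l470 (T t5767 N))))))) (K a170 (M a32 (F (L l70 (L l208 (L l326 (L l470 (T t5767 (L l104 (L l303 (L l390 (L l469 (T t5762 N))))))))))))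 N)))))))))) (K a154 (M a101 (L l206 (F (T t5489 (L l34 (L l498 (T t5772 (K a138 (M a170 (F (T t5135 (L l70 (L l154 (L l326 (L l470 (T t5767 N)))))))) (K a170 (M a138 (F (L l227 (L l325 (T t5773 (L l34 (L l390 (L l498 (T t5772 N))))))))) N))))))))) N))))))))))) N)))))))))))))) (K a223 (M a239 (L l440 (L l512 (F (T t5771 (L l70 (L l326 (L l470 (T t5767 (T t5238 (K a101 (M a154 (L l440 (F (T t5489 (L l30 (L l104 (L l439 (L l511 (T t5400 (L l97 (L l104 (T t5238 (K a117 (M a186 (L l123 (F (T t5489 (L l75 (L l491 (T t5768 (K a69 (M a85 (F (T t1586 (L l70 (L l314 (L l326 (L l470 (T t5767 N)))))))) (K a85 (M a69 (F (T t5489 (L l75 (L l347 (L l491 (T t5768 N))))))) N))))))))) (K a186 (M a117 (F (T t5489 (L l30 (L l104 (L l439 (L l511 (T t5400 (L l97 (L l104 (T t5238 N))))))))))) N)))))))))))))) (K a117 (M a186 (L l512 (F (T t5771 (L l70 (L l326 (L l470 (T t5767 (T t5238 (K a101 (M a154 (L l123 (F (T t5489 (L l75 (L l491 (T t5768 (K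 a69 (M a85 (F (T t1586 (L l70 (L l314 (L l326 (L l470 (T t5767 N)))))))) (K a85 (M a69 (F (T t5489 (L l75 (L l347 (L l491 (T t5768 N))))))) N))))))))) (K a154 (M a101 (L l368 (F (T t5489 (L l34 (L l419 (L l422 (L l498 (T t5772 (K a16 (M a85 (F (T t1586 (L l70 (L l326 (L l470 (T t5767 N))))))) (K a85 (M a16 (F (T t5489 (L l170 (L l303 (L l347 (L l469 (T t5755 N)))))))) N))))))))))) N))))))))))) (K a154 (M a101 (L l368 (L l440 (F (T t5770 (L l170 (L l303 (L l469 (T t5755 (K a16 (M a85 (L l440 (F (T t1586 (L l70 (L l326 (L l470 (T t5767 (K a117 (M a186 (F (T t1586 (L l70 (L l326 (L l470 (T t5767 N))))))) (K a186 (Fr a117 a69 l123 (V t1586)) N)))))))))) (K a85 (M a16 (L l440 (F (T t5489 (L l170 (L l303 (L l347 (L l469 (T t5755 (K a117 (M a186 (F (T t5489 (L l170 (L l303 (L l347 (L l469 (T t5755 N)))))))) (K a186 (M a117 (L l206 (F (T t5489 (L l170 (L l303 (L l347 (L l469 (T t5755 (K a138 (Fr a170 a32 l404 (V t5150)) (K a170 (M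 a138 (F (L l144 (L l390 (L l498 (T t5774 (L l70 (L l208 (L l326 (L l458 (L l470 (T t5767 (L l75 (L l170 (L l220 (L l347 (L l354 (L l390 (T t5775 N))))))))))))))))))) N))))))))))) N))))))))))) (K a117 (M a186 (L l368 (F (T t5489 (L l34 (L l419 (L l422 (L l498 (T t5772 (K a16 (M a85 (F (T t1586 (L l70 (L l326 (L l470 (T t5767 N))))))) (K a85 (M a16 (F (T t5489 (L l170 (L l303 (L l347 (L l469 (T t5755 N)))))))) N))))))))))) (K a186 (M a117 (L l206 (L l368 (F (T t5489 (L l170 (L l303 (L l469 (T t5755 (K a16 (Fr a85 a69 l123 (V t1586)) (K a85 (M a16 (L l206 (F (T t5489 (L l170 (L l303 (L l347 (L l469 (T t5755 (K a138 (Fr a170 a32 l404 (V t5150)) (K a170 (M a138 (F (L l144 (L l390 (L l498 (T t5774 (L l70 (L l208 (L l326 (L l458 (L l470 (T t5767 (L l75 (L l170 (L l220 (L l347 (L l354 (L l390 (T t5775 N))))))))))))))))))) N))))))))))) (K a138 (Fr a170 a32 l404 (V t5135)) (K a170 (M a138 (L l368 (F (L l227 (L l325 (T t5773 (L l34 (L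 l390 (L l498 (T t5772 (K a16 (Fr a85 a69 l123 (V t5119)) (K a85 (M a16 (F (L l144 (L l390 (L l498 (T t5774 (L l70 (L l208 (L l326 (L l458 (L l470 (T t5767 (L l75 (L l170 (L l220 (L l347 (L l354 (L l390 (T t5775 N))))))))))))))))))) N)))))))))))) N))))))))))))) N))))))))))))) (K a186 (M a117 (L l512 (F (T t5771 (L l70 (L l326 (L l470 (T t5767 (T t5238 (K a101 (M a154 (F (T t5489 (L l30 (L l104 (L l439 (L l511 (T t5400 (L l97 (L l104 (T t5238 N))))))))))) (K a154 (M a101 (L l206 (L l368 (F (T t5489 (L l170 (L l303 (L l469 (T t5755 (K a16 (Fr a85 a69 l123 (V t1586)) (K a85 (M a16 (L l206 (F (T t5489 (L l170 (L l303 (L l347 (L l469 (T t5755 (K a138 (Fr a170 a32 l404 (V t5150)) (K a170 (M a138 (F (L l144 (L l390 (L l498 (T t5774 (L l70 (L l208 (L l326 (L l458 (L l470 (T t5767 (L l75 (L l170 (L l220 (L l347 (L l354 (L l390 (T t5775 N))))))))))))))))))) N))))))))))) (K a138 (Fr a170 a32 l404 (V t5135)) (K a170 (M a138 (L l368 (F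 (L l227 (L l325 (T t5773 (L l34 (L l390 (L l498 (T t5772 (K a16 (Fr a85 a69 l123 (V t5119)) (K a85 (M a16 (F (L l144 (L l390 (L l498 (T t5774 (L l70 (L l208 (L l326 (L l458 (L l470 (T t5767 (L l75 (L l170 (L l220 (L l347 (L l354 (L l390 (T t5775 N))))))))))))))))))) N)))))))))))) N))))))))))))) N))))))))))) N)))))))))))))) (K a239 (M a223 (L l440 (L l512 (F (T t5771 (L l70 (L l326 (L l470 (T t5767 (T t5238 (K a101 (M a154 (L l404 (L l440 (F (T t5489 (L l104 (L l303 (L l469 (T t5762 (K a32 (M a170 (L l440 (F (T t5135 (L l70 (L l326 (L l470 (T t5767 (K a117 (Fr a186 a138 l206 (V t5135)) (K a186 (M a117 (F (T t5135 (L l70 (L l326 (L l470 (T t5767 N))))))) N)))))))))) (K a117 (M a186 (L l123 (L l404 (F (T t5770 (L l104 (L l303 (L l469 (T t5762 (K a32 (Fr a170 a138 l206 (V t5135)) (K a69 (Fr a85 a16 l368 (V t1586)) (K a85 (M a69 (L l404 (F (T t5489 (L l114 (L l256 (L l347 (T t5766 (K a32 (Fr a170 a138 l206 (V t5135)) (K a170 (M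 a32 (F (L l75 (L l347 (L l383 (T t5769 (L l70 (L l208 (L l326 (L l458 (L l470 (T t5767 N)))))))))))) N)))))))))) (K a170 (M a32 (L l123 (F (L l70 (L l208 (L l326 (L l470 (T t5767 (L l104 (L l303 (L l390 (L l469 (T t5762 (K a69 (Fr a85 a16 l368 (V t5119)) (K a85 (M a69 (F (L l75 (L l347 (L l383 (T t5769 (L l70 (L l208 (L l326 (L l458 (L l470 (T t5767 N)))))))))))) N))))))))))))))) N))))))))))))) (K a170 (M a32 (L l440 (F (L l70 (L l208 (L l326 (L l470 (T t5767 (L l104 (L l303 (L l390 (L l469 (T t5762 (K a117 (M a186 (L l123 (F (L l70 (L l208 (L l326 (L l470 (T t5767 (L l104 (L l303 (L l390 (L l469 (T t5762 (K a69 (Fr a85 a16 l368 (V t5119)) (K a85 (M a69 (F (L l75 (L l347 (L l383 (T t5769 (L l70 (L l208 (L l326 (L l458 (L l470 (T t5767 N)))))))))))) N))))))))))))))) (K a186 (M a117 (F (L l70 (L l208 (L l326 (L l470 (T t5767 (L l104 (L l303 (L l390 (L l469 (T t5762 N)))))))))))) N))))))))))))))) (K a186 (M a117 (L l404 (F (T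 t5770 (L l104 (L l303 (L l469 (T t5762 (K a32 (M a170 (F (T t5135 (L l70 (L l326 (L l470 (T t5767 N))))))) (K a170 (M a32 (F (L l70 (L l208 (L l326 (L l470 (T t5767 (L l104 (L l303 (L l390 (L l469 (T t5762 N)))))))))))) N)))))))))) N))))))))))))) (K a117 (M a186 (L l512 (F (T t5771 (L l70 (L l326 (L l470 (T t5767 (T t5238 (K a101 (M a154 (L l123 (L l404 (F (T t5770 (L l104 (L l303 (L l469 (T t5762 (K a32 (Fr a170 a138 l206 (V t5135)) (K a69 (Fr a85 a16 l368 (V t1586)) (K a85 (M a69 (L l404 (F (T t5489 (L l114 (L l256 (L l347 (T t5766 (K a32 (Fr a170 a138 l206 (V t5135)) (K a170 (M a32 (F (L l75 (L l347 (L l383 (T t5769 (L l70 (L l208 (L l326 (L l458 (L l470 (T t5767 N)))))))))))) N)))))))))) (K a170 (M a32 (L l123 (F (L l70 (L l208 (L l326 (L l470 (T t5767 (L l104 (L l303 (L l390 (L l469 (T t5762 (K a69 (Fr a85 a16 l368 (V t5119)) (K a85 (M a69 (F (L l75 (L l347 (L l383 (T t5769 (L l70 (L l208 (L l326 (L l458 (L l470 (T t5767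 N)))))))))))) N))))))))))))))) N))))))))))))) (K a154 (M a101 (F (T t5770 (L l34 (L l419 (L l422 (L l498 (T t5772 N)))))))) N))))))))))) (K a154 (M a101 (L l440 (F (T t5770 (L l34 (L l498 (T t5772 (K a117 (M a186 (F (T t5770 (L l34 (L l419 (L l422 (L l498 (T t5772 N)))))))) (K a186 (M a117 (L l206 (F (T t5489 (L l34 (L l498 (T t5772 (K a138 (M a170 (F (T t5135 (L l70 (L l154 (L l326 (L l470 (T t5767 N)))))))) (K a170 (M a138 (F (L l227 (L l325 (T t5773 (L l34 (L l390 (L l498 (T t5772 N))))))))) N))))))))) N))))))))) (K a186 (M a117 (L l512 (F (T t5771 (L l70 (L l326 (L l470 (T t5767 (T t5238 (K a101 (M a154 (L l404 (F (T t5770 (L l104 (L l303 (L l469 (T t5762 (K a32 (M a170 (F (T t5135 (L l70 (L l326 (L l470 (T t5767 N))))))) (K a170 (M a32 (F (L l70 (L l208 (L l326 (L l470 (T t5767 (L l104 (L l303 (L l390 (L l469 (T t5762 N)))))))))))) N)))))))))) (K a154 (M a101 (L l206 (F (T t5489 (L l34 (L l498 (T t5772 (K a138 (M a170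 (F (T t5135 (L l70 (L l154 (L l326 (L l470 (T t5767 N)))))))) (K a170 (M a138 (F (L l227 (L l325 (T t5773 (L l34 (L l390 (L l498 (T t5772 N))))))))) N))))))))) N))))))))))) N)))))))))))))) N))))))))))))))))) (K a101 (M a154 (F (L l491 (T t47 (L l104 (L l325 (T t5776 (L l75 (L l104 (L l151 (L l289 (T t5777 (K a85 (M a200 (L l123 (F (L l70 (L l126 (L l326 (T t5778 (L l34 (L l347 (L l491 (T t5779 (K a69 (M a117 (F (L l70 (L l77 (L l126 (L l326 (T t5778 (L l34 (L l347 (L l491 (T t5779 N))))))))))) (K a117 (M a69 (L l440 (F (L l70 (L l126 (L l326 (T t5778 (L l34 (L l347 (L l491 (T t5779 (K a186 (M a255 (F (L l70 (L l126 (L l326 (T t5778 (L l34 (L l347 (L l426 (L l428 (L l491 (T t5779 N)))))))))))) (K a255 (M a186 (L l289 (F (L l151 (L l325 (T t5780 (L l34 (L l347 (L l491 (T t5779 (K a223 (M a239 (F (L l151 (L l325 (T t5781 (L l34 (L l347 (L l491 (T t5779 N))))))))) (K a239 (M a223 (L l404 (F (L l151 (L l325 (T t5781 (L l34 (L l347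 (L l491 (T t5779 (K a32 (Fr a170 a138 l206 (V t5110)) (K a170 (M a32 (F (L l220 (L l347 (L l491 (T t5782 (L l70 (L l126 (L l326 (L l464 (L l470 (T t5778 (L l75 (L l104 (L l144 (L l347 (L l383 (L l390 (T t5783 N))))))))))))))))))) N)))))))))))) N)))))))))))) N))))))))))))) N))))))))))))) (K a149 (M a12 (L l491 (F (T t1252 (L l231 (L l508 (T t836 (L l30 (L l202 (L l220 (L l347 (L l371 (L l511 (T t227 (L l30 (L l495 (L l511 (T t228 (K a197 (M a53 (F (T t1725 (L l75 (L l383 (T t5756 N)))))) (K a53 (M a197 (F (T t1252 (L l231 (L l508 (T t836 (L l30 (L l47 (L l202 (L l220 (L l347 (L l371 (L l511 (T t227 (L l30 (L l31 (L l495 (L l511 (T t228 N))))))))))))))))))) N)))))))))))))))))))) (K a106 (M a12 (L l104 (F (T t150 (L l132 (L l231 (L l508 (T t468 (L l30 (L l501 (L l511 (T t227 (L l30 (L l132 (L l144 (L l390 (L l408 (L l511 (T t228 (K a96 (M a111 (F (T t159 (L l30 (L l390 (L l511 (T t153 (L l30 (L l501 (L l511 (T t2404 (L l30 (L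 l116 (L l132 (L l144 (L l390 (L l408 (L l511 (T t228 N))))))))))))))))))) (K a111 (M a96 (F (T t150 (L l151 (L l412 (T t5759 N)))))) N))))))))))))))))))))) N))))))))))))))) (K a154 (M a101 (F (L l170 (T t47 (L l303 (L l498 (T t5784 (L l170 (L l440 (T t5785 (K a149 (M a12 (L l170 (F (T t1252 (L l231 (L l508 (T t836 (L l30 (L l202 (L l220 (L l347 (L l371 (L l511 (T t227 (L l30 (L l495 (L l511 (T t228 (K a144 (M a159 (F (T t1725 (L l30 (L l347 (L l371 (L l511 (T t122 (L l30 (L l192 (L l202 (L l220 (L l347 (L l371 (L l511 (T t227 (L l30 (L l495 (L l511 (T t5757 N)))))))))))))))))))) (K a159 (M a144 (F (T t1252 (L l227 (L l412 (T t5758 N)))))) N)))))))))))))))))))) (K a106 (M a12 (L l498 (F (T t150 (L l132 (L l231 (L l508 (T t468 (L l30 (L l501 (L l511 (T t227 (L l30 (L l132 (L l144 (L l390 (L l408 (L l511 (T t228 (K a202 (M a58 (F (T t159 (L l75 (L l354 (T t5760 N)))))) (K a58 (M a202 (F (T t150 (L l231 (L l508 (T t156 (L l30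 (L l32 (L l501 (L l511 (T t227 (L l30 (L l54 (L l132 (L l144 (L l390 (L l408 (L l511 (T t228 N))))))))))))))))))) N))))))))))))))))))))) (K a170 (M a196 (L l206 (F (L l70 (L l208 (L l326 (T t5767 (L l34 (L l390 (L l498 (T t5772 (K a138 (M a186 (F (L l70 (L l154 (L l208 (L l326 (T t5767 (L l34 (L l390 (L l498 (T t5772 N))))))))))) (K a186 (M a138 (L l440 (F (L l70 (L l208 (L l326 (T t5767 (L l34 (L l390 (L l498 (T t5772 (K a117 (M a255 (F (L l70 (L l208 (L l326 (T t5767 (L l34 (L l390 (L l419 (L l422 (L l498 (T t5772 N)))))))))))) (K a255 (M a117 (L l289 (F (L l227 (L l325 (T t5773 (L l34 (L l390 (L l498 (T t5772 (K a223 (M a239 (L l368 (F (L l227 (L l325 (T t5773 (L l34 (L l390 (L l498 (T t5772 (K a16 (Fr a85 a69 l123 (V t5119)) (K a85 (M a16 (F (L l144 (L l390 (L l498 (T t5774 (L l70 (L l208 (L l326 (L l458 (L l470 (T t5767 (L l75 (L l170 (L l220 (L l347 (L l354 (L l390 (T t5775 N))))))))))))))))))) N)))))))))))) (K a239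 (M a223 (F (L l227 (L l325 (T t5773 (L l34 (L l390 (L l498 (T t5772 N))))))))) N)))))))))))) N))))))))))))) N))))))))))))) N))))))))))))) N)))))))))))))))))))))))))))⟩
def e0_63__207_16 : Ent 4 := ⟨[a0, a63], [a207, a49], (M a60 (F (T t522 (L l331 (T t67 (L l331 (T t43 (L l35 (L l331 (T t68 (L l41 (L l331 (T t69 (K a20 (M a48 (F (T t132 (L l35 (L l46 (L l511 (T t42 (L l11 (L l14 (T t1419 N)))))))))) (K a40 (M a48 (F (L l35 (L l511 (T t42 (L l22 (L l325 (T t2 (L l52 (T t1419 N)))))))))) (K a21 (M a192 (F (T t81 (L l11 (L l291 (T t79 (L l347 (T t74 N)))))))) (K a41 (M a192 (F (T t81 (L l291 (T t79 (L l65 (L l289 (T t35 N)))))))) (K a61 (M a53 (F (T t178 (L l326 (T t76 (T t1420 (T t1421 N))))))) (K a22 (M a192 (F (T t2647 (L l289 (T t21 (L l235 (T t73 N))))))) (K a42 (M a192 (F (T t1334 (L l235 (T t73 (L l22 (T t74 N))))))) (K a62 (M a192 (F (T t57 (L l291 (T t79 (L l66 (L l516 (T t80 N)))))))) (K a3 (M a106 (L l331 (F (T t310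 (L l35 (T t2359 (L l35 (T t2369 (K a71 (M a139 (F (T t2792 (L l35 (T t1513 N))))) (K a139 (M a71 (F (T t2792 (L l35 (T t1513 N))))) N)))))))))) N))))))))))))))))))))))⟩
def e0_63__207_17 : Ent 4 := ⟨[a0, a63], [a207, a51], (M a60 (L l511 (F (T t116 (L l43 (L l331 (T t67 (L l43 (L l331 (T t43 (L l43 (L l331 (T t68 (L l43 (L l331 (T t69 (K a20 (M a85 (L l511 (F (T t89 (L l291 (L l441 (T t114 (T t1344 (K a103 (M a155 (F (T t89 (L l291 (L l441 (T t114 (T t1344 N))))))) (K a155 (M a103 (F (T t89 (L l291 (L l441 (T t114 (T t1344 N))))))) N)))))))))) (K a40 (M a85 (L l511 (F (L l22 (T t89 (L l291 (L l392 (L l441 (T t114 (L l22 (T t1344 (K a103 (M a155 (F (L l22 (T t89 (L l291 (L l392 (L l441 (T t114 (L l22 (T t1344 N)))))))))) (K a155 (M a103 (F (L l22 (T t89 (L l291 (L l392 (L l441 (T t114 (L l22 (T t1344 N)))))))))) N))))))))))))) (K a21 (M a192 (L l511 (F (T t2647 (L l235 (L l347 (L l487 (T t73 (L l347 (T t74 (K a103 (M a155 (F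 (T t1343 (L l291 (L l441 (T t1333 (L l347 (T t74 N)))))))) (K a155 (M a103 (F (T t1343 (L l291 (L l441 (T t1333 (L l347 (T t74 N)))))))) N)))))))))))) (K a41 (M a192 (L l511 (F (T t1343 (L l291 (L l441 (T t79 (L l65 (L l289 (L l439 (T t35 (K a103 (M a155 (F (T t1343 (L l291 (L l441 (T t1333 (L l65 (L l289 (L l439 (T t35 N)))))))))) (K a155 (M a103 (F (T t1343 (L l291 (L l441 (T t1333 (L l65 (L l289 (L l439 (T t35 N)))))))))) N))))))))))))) (K a61 (M a192 (L l511 (F (T t1800 (L l291 (L l441 (T t79 (T t80 (K a103 (M a155 (F (T t1681 (L l291 (L l441 (T t1333 (L l65 (L l103 (L l515 (T t2549 N)))))))))) (K a155 (M a103 (F (T t1681 (L l291 (L l441 (T t1333 (L l65 (L l499 (L l515 (T t2549 N)))))))))) N)))))))))) (K a22 (M a192 (L l511 (F (T t614 (L l11 (L l291 (L l441 (T t79 (L l11 (L l289 (L l439 (T t35 (K a103 (M a155 (F (T t237 (L l11 (L l289 (L l439 (T t35 (L l291 (L l441 (T t1333 N)))))))))) (K a155 (M a103 (F (T t237 (L l11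 (L l289 (L l439 (T t35 (L l291 (L l441 (T t1333 N)))))))))) N)))))))))))))) (K a42 (M a192 (L l511 (F (T t614 (L l291 (L l441 (T t79 (L l22 (T t74 (K a103 (M a155 (F (T t237 (L l291 (L l441 (T t1333 (L l22 (T t74 N)))))))) (K a155 (M a103 (F (T t237 (L l291 (L l441 (T t1333 (L l22 (T t74 N)))))))) N))))))))))) (K a62 (M a192 (L l511 (F (T t57 (L l291 (L l441 (T t79 (L l66 (L l516 (T t80 (K a103 (M a155 (F (T t47 (L l291 (L l441 (T t1333 (L l103 (T t2549 N)))))))) (K a155 (M a103 (F (T t47 (L l291 (L l441 (T t1333 (L l499 (T t2549 N)))))))) N)))))))))))) (K a3 (M a255 (L l43 (L l331 (L l511 (F (T t2122 (L l291 (L l441 (L l477 (T t1565 (L l235 (L l307 (L l487 (T t1634 (K a19 (M a35 (L l331 (L l511 (F (T t2125 (L l235 (L l307 (L l487 (T t2967 (L l291 (L l441 (L l477 (T t2969 (K a71 (M a139 (L l511 (F (T t2125 (L l235 (L l307 (L l487 (T t2967 (L l291 (L l441 (L l477 (T t2969 (K a103 (M a155 (L l125 (F (T t5786 (L l313 (L l415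 (L l493 (T t5787 (K a87 (M a119 (F (T t1639 (L l87 (T t2129 N))))) (K a119 (M a87 (F (T t1639 (L l126 (T t2129 N))))) N)))))))))) (K a155 (M a103 (L l367 (F (T t2132 (L l291 (L l441 (L l477 (T t2963 (L l235 (L l307 (L l487 (T t2967 (K a87 (M a223 (F (T t1639 (L l87 (T t2131 N))))) (K a223 (M a87 (F (T t5788 (L l368 (T t2131 N))))) N)))))))))))))) N)))))))))))))) (K a103 (M a155 (L l331 (F (T t2125 (L l235 (L l307 (L l487 (T t2967 (L l291 (L l441 (L l477 (T t2969 (K a71 (M a139 (L l125 (F (T t5786 (L l313 (L l415 (L l493 (T t5787 (K a87 (M a119 (F (T t1639 (L l87 (T t2129 N))))) (K a119 (M a87 (F (T t1639 (L l126 (T t2129 N))))) N)))))))))) (K a139 (M a71 (F (T t2125 (L l235 (L l307 (L l487 (T t2967 (L l291 (L l441 (L l477 (T t2969 N))))))))))) N)))))))))))))) (K a139 (M a71 (L l511 (F (T t2125 (L l235 (L l307 (L l487 (T t2967 (L l291 (L l441 (L l477 (T t2969 (K a103 (M a155 (F (T t2125 (L l235 (L l307 (L l487 (T t2967 (L l291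 (L l441 (L l477 (T t2969 N))))))))))) (K a155 (M a103 (L l207 (L l367 (F (T t5786 (L l319 (L l499 (T t5700 (K a87 (M a223 (L l207 (F (T t5788 (L l164 (L l209 (L l512 (T t5789 (K a171 (M a187 (F (L l143 (T t1640 (L l174 (L l236 (L l309 (L l489 (T t2142 (L l87 (L l235 (L l307 (L l391 (L l487 (T t1634 N))))))))))))))) (K a187 (Fr a171 a239 l403 (V t4709)) N)))))))))) (K a171 (M a187 (L l367 (F (T t5790 (L l219 (L l319 (L l391 (L l415 (L l499 (T t5791 (L l291 (L l441 (L l477 (T t1633 (K a87 (M a223 (F (L l143 (T t1640 (L l174 (L l236 (L l309 (L l489 (T t2142 (L l87 (L l235 (L l307 (L l391 (L l487 (T t1634 N))))))))))))))) (K a223 (Fr a87 a119 l125 (V t2142)) N)))))))))))))))) (K a187 (Fr a171 a239 l403 (V t1565)) (K a223 (Fr a87 a119 l125 (V t2967)) N)))))))))))) N)))))))))))))) (K a155 (M a103 (L l331 (L l367 (F (T t2125 (L l235 (L l307 (L l487 (T t2967 (L l291 (L l441 (L l477 (T t2969 (K a71 (M a139 (L l367 (F (T t2132 (L l291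 (L l441 (L l477 (T t2963 (L l235 (L l307 (L l487 (T t2967 (K a87 (M a223 (F (T t1639 (L l87 (T t2131 N))))) (K a223 (M a87 (F (T t5788 (L l368 (T t2131 N))))) N)))))))))))))) (K a87 (M a223 (L l331 (F (T t5788 (L l87 (L l207 (T t2131 (K a71 (M a139 (F (T t1639 (L l87 (T t2131 N))))) (K a139 (M a71 (L l207 (F (T t5788 (L l164 (L l209 (L l512 (T t5789 (K a171 (M a187 (F (L l143 (T t1640 (L l174 (L l236 (L l309 (L l489 (T t2142 (L l87 (L l235 (L l307 (L l391 (L l487 (T t1634 N))))))))))))))) (K a187 (Fr a171 a239 l403 (V t4709)) N)))))))))) N))))))))) (K a139 (M a71 (L l207 (L l367 (F (T t5786 (L l319 (L l499 (T t5700 (K a87 (M a223 (L l207 (F (T t5788 (L l164 (L l209 (L l512 (T t5789 (K a171 (M a187 (F (L l143 (T t1640 (L l174 (L l236 (L l309 (L l489 (T t2142 (L l87 (L l235 (L l307 (L l391 (L l487 (T t1634 N))))))))))))))) (K a187 (Fr a171 a239 l403 (V t4709)) N)))))))))) (K a171 (M a187 (L l367 (F (T t5790 (L l219 (L l319 (L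 l391 (L l415 (L l499 (T t5791 (L l291 (L l441 (L l477 (T t1633 (K a87 (M a223 (F (L l143 (T t1640 (L l174 (L l236 (L l309 (L l489 (T t2142 (L l87 (L l235 (L l307 (L l391 (L l487 (T t1634 N))))))))))))))) (K a223 (Fr a87 a119 l125 (V t2142)) N)))))))))))))))) (K a187 (Fr a171 a239 l403 (V t1565)) (K a223 (Fr a87 a119 l125 (V t2967)) N)))))))))))) (K a223 (M a87 (L l331 (F (T t5788 (L l207 (L l368 (T t2131 (K a71 (M a139 (F (T t5788 (L l368 (T t2131 N))))) (K a139 (Fr a71 a119 l125 (V t2967)) N))))))))) N))))))))))))))))) N))))))))))))))))) (K a35 (M a19 (L l331 (L l511 (F (T t2125 (L l235 (L l307 (L l487 (T t2967 (L l291 (L l441 (L l477 (T t2969 (K a71 (M a139 (L l511 (F (T t2125 (L l235 (L l307 (L l487 (T t2967 (L l291 (L l441 (L l477 (T t2969 (K a103 (M a155 (L l125 (L l403 (F (T t5786 (L l313 (L l493 (T t2127 (K a87 (M a119 (L l403 (F (T t1639 (L l235 (L l307 (L l487 (T t2967 (L l236 (L l309 (L l489 (T t2142 (K a171 (M a239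 (F (L l219 (T t1639 (L l174 (L l236 (L l309 (L l489 (T t2142 (L l174 (L l235 (L l307 (L l487 (T t2967 N)))))))))))))) (K a239 (Fr a171 a187 l207 (V t4709)) N)))))))))))))) (K a119 (Fr a87 a223 l367 (V t2142)) (K a171 (M a239 (L l125 (F (T t5792 (L l97 (L l127 (L l512 (T t5793 (K a87 (M a119 (F (L l219 (T t1639 (L l174 (L l236 (L l309 (L l489 (T t2142 (L l174 (L l235 (L l307 (L l487 (T t2967 N)))))))))))))) (K a119 (Fr a87 a223 l367 (V t1565)) N)))))))))) (K a239 (Fr a171 a187 l207 (V t2967)) N)))))))))))) (K a155 (M a103 (F (T t2125 (L l235 (L l307 (L l487 (T t2967 (L l291 (L l441 (L l477 (T t2969 N))))))))))) N)))))))))))))) (K a103 (M a155 (L l331 (L l403 (F (T t2125 (L l235 (L l307 (L l487 (T t2967 (L l291 (L l441 (L l477 (T t2969 (K a71 (M a139 (L l125 (L l403 (F (T t5786 (L l313 (L l493 (T t2127 (K a87 (M a119 (L l403 (F (T t1639 (L l235 (L l307 (L l487 (T t2967 (L l236 (L l309 (L l489 (T t2142 (K a171 (M a239 (F (L l219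 (T t1639 (L l174 (L l236 (L l309 (L l489 (T t2142 (L l174 (L l235 (L l307 (L l487 (T t2967 N)))))))))))))) (K a239 (Fr a171 a187 l207 (V t4709)) N)))))))))))))) (K a119 (Fr a87 a223 l367 (V t2142)) (K a171 (M a239 (L l125 (F (T t5792 (L l97 (L l127 (L l512 (T t5793 (K a87 (M a119 (F (L l219 (T t1639 (L l174 (L l236 (L l309 (L l489 (T t2142 (L l174 (L l235 (L l307 (L l487 (T t2967 N)))))))))))))) (K a119 (Fr a87 a223 l367 (V t1565)) N)))))))))) (K a239 (Fr a171 a187 l207 (V t2967)) N)))))))))))) (K a139 (M a71 (L l403 (F (T t5792 (T t5703 (K a171 (M a239 (F (T t5792 (L l174 (T t5703 N))))) (K a239 (M a171 (F (T t1639 (L l404 (T t5703 N))))) N))))))) (K a171 (M a239 (L l331 (F (T t1640 (L l125 (L l174 (T t5703 (K a71 (M a139 (L l125 (F (T t5792 (L l97 (L l127 (L l512 (T t5793 (K a87 (M a119 (F (L l219 (T t1639 (L l174 (L l236 (L l309 (L l489 (T t2142 (L l174 (L l235 (L l307 (L l487 (T t2967 N)))))))))))))) (K a119 (Fr a87 a223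 l367 (V t1565)) N)))))))))) (K a139 (M a71 (F (T t5792 (L l174 (T t5703 N))))) N))))))))) (K a239 (M a171 (L l331 (F (T t1639 (L l125 (L l404 (T t5703 (K a71 (Fr a139 a187 l207 (V t2967)) (K a139 (M a71 (F (T t1639 (L l404 (T t5703 N))))) N))))))))) N))))))))))))))))) (K a139 (M a71 (L l511 (F (T t2125 (L l235 (L l307 (L l487 (T t2967 (L l291 (L l441 (L l477 (T t2969 (K a103 (M a155 (L l403 (F (T t5792 (T t5703 (K a171 (M a239 (F (T t5792 (L l174 (T t5703 N))))) (K a239 (M a171 (F (T t1639 (L l404 (T t5703 N))))) N))))))) (K a155 (M a103 (L l207 (F (T t4940 (L l319 (L l415 (L l499 (T t5791 (K a171 (M a187 (F (T t1640 (L l174 (T t5706 N))))) (K a187 (M a171 (F (T t4940 (L l189 (L l319 (L l415 (L l499 (T t5791 N)))))))) N)))))))))) N)))))))))))))) (K a155 (M a103 (L l331 (F (T t2125 (L l235 (L l307 (L l487 (T t2967 (L l291 (L l441 (L l477 (T t2969 (K a71 (M a139 (F (T t2125 (L l235 (L l307 (L l487 (T t2967 (L l291 (L l441 (L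 l477 (T t2969 N))))))))))) (K a139 (M a71 (L l207 (F (T t4940 (L l319 (L l415 (L l499 (T t5791 (K a171 (M a187 (F (T t1640 (L l174 (T t5706 N))))) (K a187 (M a171 (F (T t4940 (L l189 (L l319 (L l415 (L l499 (T t5791 N)))))))) N)))))))))) N)))))))))))))) N))))))))))))))))) (K a71 (M a139 (L l43 (L l511 (F (T t2125 (L l235 (L l307 (L l487 (T t2967 (L l291 (L l441 (L l477 (T t2969 (K a19 (M a35 (L l511 (F (T t2125 (L l235 (L l307 (L l487 (T t2967 (L l291 (L l441 (L l477 (T t2969 (K a103 (M a155 (L l125 (F (T t5786 (L l313 (L l415 (L l493 (T t5787 (K a87 (M a119 (F (T t1639 (L l87 (T t2129 N))))) (K a119 (M a87 (F (T t1639 (L l126 (T t2129 N))))) N)))))))))) (K a155 (M a103 (L l367 (F (T t2132 (L l291 (L l441 (L l477 (T t2963 (L l235 (L l307 (L l487 (T t2967 (K a87 (M a223 (F (T t1639 (L l87 (T t2131 N))))) (K a223 (M a87 (F (T t5788 (L l368 (T t2131 N))))) N)))))))))))))) N)))))))))))))) (K a35 (M a19 (L l511 (F (T t2125 (L l235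 (L l307 (L l487 (T t2967 (L l291 (L l441 (L l477 (T t2969 (K a103 (M a155 (L l125 (L l403 (F (T t5786 (L l313 (L l493 (T t2127 (K a87 (M a119 (L l403 (F (T t1639 (L l235 (L l307 (L l487 (T t2967 (L l236 (L l309 (L l489 (T t2142 (K a171 (M a239 (F (L l219 (T t1639 (L l174 (L l236 (L l309 (L l489 (T t2142 (L l174 (L l235 (L l307 (L l487 (T t2967 N)))))))))))))) (K a239 (Fr a171 a187 l207 (V t4709)) N)))))))))))))) (K a119 (Fr a87 a223 l367 (V t2142)) (K a171 (M a239 (L l125 (F (T t5792 (L l97 (L l127 (L l512 (T t5793 (K a87 (M a119 (F (L l219 (T t1639 (L l174 (L l236 (L l309 (L l489 (T t2142 (L l174 (L l235 (L l307 (L l487 (T t2967 N)))))))))))))) (K a119 (Fr a87 a223 l367 (V t1565)) N)))))))))) (K a239 (Fr a171 a187 l207 (V t2967)) N)))))))))))) (K a155 (M a103 (F (T t2125 (L l235 (L l307 (L l487 (T t2967 (L l291 (L l441 (L l477 (T t2969 N))))))))))) N)))))))))))))) (K a103 (M a155 (L l43 (L l125 (F (T t4940 (L l313 (L l415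 (L l493 (T t5787 (K a19 (M a35 (L l125 (F (T t5786 (L l313 (L l415 (L l493 (T t5787 (K a87 (M a119 (F (T t1639 (L l87 (T t2129 N))))) (K a119 (M a87 (F (T t1639 (L l126 (T t2129 N))))) N)))))))))) (K a35 (M a19 (L l125 (L l403 (F (T t5786 (L l313 (L l493 (T t2127 (K a87 (M a119 (L l403 (F (T t1639 (L l235 (L l307 (L l487 (T t2967 (L l236 (L l309 (L l489 (T t2142 (K a171 (M a239 (F (L l219 (T t1639 (L l174 (L l236 (L l309 (L l489 (T t2142 (L l174 (L l235 (L l307 (L l487 (T t2967 N)))))))))))))) (K a239 (Fr a171 a187 l207 (V t4709)) N)))))))))))))) (K a119 (Fr a87 a223 l367 (V t2142)) (K a171 (M a239 (L l125 (F (T t5792 (L l97 (L l127 (L l512 (T t5793 (K a87 (M a119 (F (L l219 (T t1639 (L l174 (L l236 (L l309 (L l489 (T t2142 (L l174 (L l235 (L l307 (L l487 (T t2967 N)))))))))))))) (K a119 (Fr a87 a223 l367 (V t1565)) N)))))))))) (K a239 (Fr a171 a187 l207 (V t2967)) N)))))))))))) (K a87 (M a119 (L l43 (F (T t1639 (L l87 (L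 l403 (T t2129 (K a19 (M a35 (F (T t1639 (L l87 (T t2129 N))))) (K a35 (M a19 (L l403 (F (T t1639 (L l235 (L l307 (L l487 (T t2967 (L l236 (L l309 (L l489 (T t2142 (K a171 (M a239 (F (L l219 (T t1639 (L l174 (L l236 (L l309 (L l489 (T t2142 (L l174 (L l235 (L l307 (L l487 (T t2967 N)))))))))))))) (K a239 (Fr a171 a187 l207 (V t4709)) N)))))))))))))) N))))))))) (K a119 (M a87 (L l43 (F (T t1639 (L l126 (L l403 (T t2129 (K a19 (M a35 (F (T t1639 (L l126 (T t2129 N))))) (K a35 (Fr a19 a223 l367 (V t2142)) N))))))))) N))))))))))))) (K a155 (M a103 (L l43 (F (T t2125 (L l235 (L l307 (L l487 (T t2967 (L l291 (L l441 (L l477 (T t2969 (K a19 (M a35 (L l367 (F (T t2132 (L l291 (L l441 (L l477 (T t2963 (L l235 (L l307 (L l487 (T t2967 (K a87 (M a223 (F (T t1639 (L l87 (T t2131 N))))) (K a223 (M a87 (F (T t5788 (L l368 (T t2131 N))))) N)))))))))))))) (K a35 (M a19 (F (T t2125 (L l235 (L l307 (L l487 (T t2967 (L l291 (L l441 (L l477 (T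 t2969 N))))))))))) N)))))))))))))) N))))))))))))))))) (K a103 (M a155 (L l43 (L l331 (F (T t2125 (L l235 (L l307 (L l487 (T t2967 (L l291 (L l441 (L l477 (T t2969 (K a19 (M a35 (L l331 (F (T t2125 (L l235 (L l307 (L l487 (T t2967 (L l291 (L l441 (L l477 (T t2969 (K a71 (M a139 (L l125 (F (T t5786 (L l313 (L l415 (L l493 (T t5787 (K a87 (M a119 (F (T t1639 (L l87 (T t2129 N))))) (K a119 (M a87 (F (T t1639 (L l126 (T t2129 N))))) N)))))))))) (K a139 (M a71 (F (T t2125 (L l235 (L l307 (L l487 (T t2967 (L l291 (L l441 (L l477 (T t2969 N))))))))))) N)))))))))))))) (K a35 (M a19 (L l331 (L l403 (F (T t2125 (L l235 (L l307 (L l487 (T t2967 (L l291 (L l441 (L l477 (T t2969 (K a71 (M a139 (L l125 (L l403 (F (T t5786 (L l313 (L l493 (T t2127 (K a87 (M a119 (L l403 (F (T t1639 (L l235 (L l307 (L l487 (T t2967 (L l236 (L l309 (L l489 (T t2142 (K a171 (M a239 (F (L l219 (T t1639 (L l174 (L l236 (L l309 (L l489 (T t2142 (L l174 (L l235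 (L l307 (L l487 (T t2967 N)))))))))))))) (K a239 (Fr a171 a187 l207 (V t4709)) N)))))))))))))) (K a119 (Fr a87 a223 l367 (V t2142)) (K a171 (M a239 (L l125 (F (T t5792 (L l97 (L l127 (L l512 (T t5793 (K a87 (M a119 (F (L l219 (T t1639 (L l174 (L l236 (L l309 (L l489 (T t2142 (L l174 (L l235 (L l307 (L l487 (T t2967 N)))))))))))))) (K a119 (Fr a87 a223 l367 (V t1565)) N)))))))))) (K a239 (Fr a171 a187 l207 (V t2967)) N)))))))))))) (K a139 (M a71 (L l403 (F (T t5792 (T t5703 (K a171 (M a239 (F (T t5792 (L l174 (T t5703 N))))) (K a239 (M a171 (F (T t1639 (L l404 (T t5703 N))))) N))))))) (K a171 (M a239 (L l331 (F (T t1640 (L l125 (L l174 (T t5703 (K a71 (M a139 (L l125 (F (T t5792 (L l97 (L l127 (L l512 (T t5793 (K a87 (M a119 (F (L l219 (T t1639 (L l174 (L l236 (L l309 (L l489 (T t2142 (L l174 (L l235 (L l307 (L l487 (T t2967 N)))))))))))))) (K a119 (Fr a87 a223 l367 (V t1565)) N)))))))))) (K a139 (M a71 (F (T t5792 (L l174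 (T t5703 N))))) N))))))))) (K a239 (M a171 (L l331 (F (T t1639 (L l125 (L l404 (T t5703 (K a71 (Fr a139 a187 l207 (V t2967)) (K a139 (M a71 (F (T t1639 (L l404 (T t5703 N))))) N))))))))) N))))))))))))))))) (K a71 (M a139 (L l43 (L l125 (F (T t4940 (L l313 (L l415 (L l493 (T t5787 (K a19 (M a35 (L l125 (F (T t5786 (L l313 (L l415 (L l493 (T t5787 (K a87 (M a119 (F (T t1639 (L l87 (T t2129 N))))) (K a119 (M a87 (F (T t1639 (L l126 (T t2129 N))))) N)))))))))) (K a35 (M a19 (L l125 (L l403 (F (T t5786 (L l313 (L l493 (T t2127 (K a87 (M a119 (L l403 (F (T t1639 (L l235 (L l307 (L l487 (T t2967 (L l236 (L l309 (L l489 (T t2142 (K a171 (M a239 (F (L l219 (T t1639 (L l174 (L l236 (L l309 (L l489 (T t2142 (L l174 (L l235 (L l307 (L l487 (T t2967 N)))))))))))))) (K a239 (Fr a171 a187 l207 (V t4709)) N)))))))))))))) (K a119 (Fr a87 a223 l367 (V t2142)) (K a171 (M a239 (L l125 (F (T t5792 (L l97 (L l127 (L l512 (T t5793 (K a87 (M a119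 (F (L l219 (T t1639 (L l174 (L l236 (L l309 (L l489 (T t2142 (L l174 (L l235 (L l307 (L l487 (T t2967 N)))))))))))))) (K a119 (Fr a87 a223 l367 (V t1565)) N)))))))))) (K a239 (Fr a171 a187 l207 (V t2967)) N)))))))))))) (K a87 (M a119 (L l43 (F (T t1639 (L l87 (L l403 (T t2129 (K a19 (M a35 (F (T t1639 (L l87 (T t2129 N))))) (K a35 (M a19 (L l403 (F (T t1639 (L l235 (L l307 (L l487 (T t2967 (L l236 (L l309 (L l489 (T t2142 (K a171 (M a239 (F (L l219 (T t1639 (L l174 (L l236 (L l309 (L l489 (T t2142 (L l174 (L l235 (L l307 (L l487 (T t2967 N)))))))))))))) (K a239 (Fr a171 a187 l207 (V t4709)) N)))))))))))))) N))))))))) (K a119 (M a87 (L l43 (F (T t1639 (L l126 (L l403 (T t2129 (K a19 (M a35 (F (T t1639 (L l126 (T t2129 N))))) (K a35 (Fr a19 a223 l367 (V t2142)) N))))))))) N))))))))))))) (K a139 (M a71 (L l43 (F (T t2125 (L l235 (L l307 (L l487 (T t2967 (L l291 (L l441 (L l477 (T t2969 (K a19 (M a35 (F (T t2125 (L l235 (L l307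 (L l487 (T t2967 (L l291 (L l441 (L l477 (T t2969 N))))))))))) (K a35 (M a19 (L l403 (F (T t5792 (T t5703 (K a171 (M a239 (F (T t5792 (L l174 (T t5703 N))))) (K a239 (M a171 (F (T t1639 (L l404 (T t5703 N))))) N))))))) N)))))))))))))) N))))))))))))))))) (K a139 (M a71 (L l43 (L l511 (F (T t2125 (L l235 (L l307 (L l487 (T t2967 (L l291 (L l441 (L l477 (T t2969 (K a19 (M a35 (L l511 (F (T t2125 (L l235 (L l307 (L l487 (T t2967 (L l291 (L l441 (L l477 (T t2969 (K a103 (M a155 (F (T t2125 (L l235 (L l307 (L l487 (T t2967 (L l291 (L l441 (L l477 (T t2969 N))))))))))) (K a155 (M a103 (L l207 (L l367 (F (T t5786 (L l319 (L l499 (T t5700 (K a87 (M a223 (L l207 (F (T t5788 (L l164 (L l209 (L l512 (T t5789 (K a171 (M a187 (F (L l143 (T t1640 (L l174 (L l236 (L l309 (L l489 (T t2142 (L l87 (L l235 (L l307 (L l391 (L l487 (T t1634 N))))))))))))))) (K a187 (Fr a171 a239 l403 (V t4709)) N)))))))))) (K a171 (M a187 (L l367 (F (T t5790 (L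 l219 (L l319 (L l391 (L l415 (L l499 (T t5791 (L l291 (L l441 (L l477 (T t1633 (K a87 (M a223 (F (L l143 (T t1640 (L l174 (L l236 (L l309 (L l489 (T t2142 (L l87 (L l235 (L l307 (L l391 (L l487 (T t1634 N))))))))))))))) (K a223 (Fr a87 a119 l125 (V t2142)) N)))))))))))))))) (K a187 (Fr a171 a239 l403 (V t1565)) (K a223 (Fr a87 a119 l125 (V t2967)) N)))))))))))) N)))))))))))))) (K a35 (M a19 (L l511 (F (T t2125 (L l235 (L l307 (L l487 (T t2967 (L l291 (L l441 (L l477 (T t2969 (K a103 (M a155 (L l403 (F (T t5792 (T t5703 (K a171 (M a239 (F (T t5792 (L l174 (T t5703 N))))) (K a239 (M a171 (F (T t1639 (L l404 (T t5703 N))))) N))))))) (K a155 (M a103 (L l207 (F (T t4940 (L l319 (L l415 (L l499 (T t5791 (K a171 (M a187 (F (T t1640 (L l174 (T t5706 N))))) (K a187 (M a171 (F (T t4940 (L l189 (L l319 (L l415 (L l499 (T t5791 N)))))))) N)))))))))) N)))))))))))))) (K a103 (M a155 (L l43 (F (T t2125 (L l235 (L l307 (L l487 (T t2967 (L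 l291 (L l441 (L l477 (T t2969 (K a19 (M a35 (F (T t2125 (L l235 (L l307 (L l487 (T t2967 (L l291 (L l441 (L l477 (T t2969 N))))))))))) (K a35 (M a19 (L l403 (F (T t5792 (T t5703 (K a171 (M a239 (F (T t5792 (L l174 (T t5703 N))))) (K a239 (M a171 (F (T t1639 (L l404 (T t5703 N))))) N))))))) N)))))))))))))) (K a155 (M a103 (L l43 (L l207 (F (T t4940 (L l319 (L l415 (L l499 (T t5791 (K a19 (M a35 (L l207 (L l367 (F (T t5786 (L l319 (L l499 (T t5700 (K a87 (M a223 (L l207 (F (T t5788 (L l164 (L l209 (L l512 (T t5789 (K a171 (M a187 (F (L l143 (T t1640 (L l174 (L l236 (L l309 (L l489 (T t2142 (L l87 (L l235 (L l307 (L l391 (L l487 (T t1634 N))))))))))))))) (K a187 (Fr a171 a239 l403 (V t4709)) N)))))))))) (K a171 (M a187 (L l367 (F (T t5790 (L l219 (L l319 (L l391 (L l415 (L l499 (T t5791 (L l291 (L l441 (L l477 (T t1633 (K a87 (M a223 (F (L l143 (T t1640 (L l174 (L l236 (L l309 (L l489 (T t2142 (L l87 (L l235 (L l307 (L l391 (L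 l487 (T t1634 N))))))))))))))) (K a223 (Fr a87 a119 l125 (V t2142)) N)))))))))))))))) (K a187 (Fr a171 a239 l403 (V t1565)) (K a223 (Fr a87 a119 l125 (V t2967)) N)))))))))))) (K a35 (M a19 (L l207 (F (T t4940 (L l319 (L l415 (L l499 (T t5791 (K a171 (M a187 (F (T t1640 (L l174 (T t5706 N))))) (K a187 (M a171 (F (T t4940 (L l189 (L l319 (L l415 (L l499 (T t5791 N)))))))) N)))))))))) (K a171 (M a187 (L l43 (F (T t1640 (L l174 (L l367 (T t5706 (K a19 (M a35 (L l367 (F (T t5790 (L l219 (L l319 (L l391 (L l415 (L l499 (T t5791 (L l291 (L l441 (L l477 (T t1633 (K a87 (M a223 (F (L l143 (T t1640 (L l174 (L l236 (L l309 (L l489 (T t2142 (L l87 (L l235 (L l307 (L l391 (L l487 (T t1634 N))))))))))))))) (K a223 (Fr a87 a119 l125 (V t2142)) N)))))))))))))))) (K a35 (M a19 (F (T t1640 (L l174 (T t5706 N))))) N))))))))) (K a187 (M a171 (L l43 (F (T t1640 (L l208 (L l367 (T t5706 (K a19 (Fr a35 a239 l403 (V t1565)) (K a35 (M a19 (F (T t4940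 (L l189 (L l319 (L l415 (L l499 (T t5791 N)))))))) N))))))))) N))))))))))))) N))))))))))))))))) (K a155 (M a103 (L l43 (L l331 (F (T t2125 (L l235 (L l307 (L l487 (T t2967 (L l291 (L l441 (L l477 (T t2969 (K a19 (M a35 (L l331 (L l367 (F (T t2125 (L l235 (L l307 (L l487 (T t2967 (L l291 (L l441 (L l477 (T t2969 (K a71 (M a139 (L l367 (F (T t2132 (L l291 (L l441 (L l477 (T t2963 (L l235 (L l307 (L l487 (T t2967 (K a87 (M a223 (F (T t1639 (L l87 (T t2131 N))))) (K a223 (M a87 (F (T t5788 (L l368 (T t2131 N))))) N)))))))))))))) (K a87 (M a223 (L l331 (F (T t5788 (L l87 (L l207 (T t2131 (K a71 (M a139 (F (T t1639 (L l87 (T t2131 N))))) (K a139 (M a71 (L l207 (F (T t5788 (L l164 (L l209 (L l512 (T t5789 (K a171 (M a187 (F (L l143 (T t1640 (L l174 (L l236 (L l309 (L l489 (T t2142 (L l87 (L l235 (L l307 (L l391 (L l487 (T t1634 N))))))))))))))) (K a187 (Fr a171 a239 l403 (V t4709)) N)))))))))) N))))))))) (K a139 (M a71 (L l207 (L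 l367 (F (T t5786 (L l319 (L l499 (T t5700 (K a87 (M a223 (L l207 (F (T t5788 (L l164 (L l209 (L l512 (T t5789 (K a171 (M a187 (F (L l143 (T t1640 (L l174 (L l236 (L l309 (L l489 (T t2142 (L l87 (L l235 (L l307 (L l391 (L l487 (T t1634 N))))))))))))))) (K a187 (Fr a171 a239 l403 (V t4709)) N)))))))))) (K a171 (M a187 (L l367 (F (T t5790 (L l219 (L l319 (L l391 (L l415 (L l499 (T t5791 (L l291 (L l441 (L l477 (T t1633 (K a87 (M a223 (F (L l143 (T t1640 (L l174 (L l236 (L l309 (L l489 (T t2142 (L l87 (L l235 (L l307 (L l391 (L l487 (T t1634 N))))))))))))))) (K a223 (Fr a87 a119 l125 (V t2142)) N)))))))))))))))) (K a187 (Fr a171 a239 l403 (V t1565)) (K a223 (Fr a87 a119 l125 (V t2967)) N)))))))))))) (K a223 (M a87 (L l331 (F (T t5788 (L l207 (L l368 (T t2131 (K a71 (M a139 (F (T t5788 (L l368 (T t2131 N))))) (K a139 (Fr a71 a119 l125 (V t2967)) N))))))))) N))))))))))))))))) (K a35 (M a19 (L l331 (F (T t2125 (L l235 (L l307 (L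 l487 (T t2967 (L l291 (L l441 (L l477 (T t2969 (K a71 (M a139 (F (T t2125 (L l235 (L l307 (L l487 (T t2967 (L l291 (L l441 (L l477 (T t2969 N))))))))))) (K a139 (M a71 (L l207 (F (T t4940 (L l319 (L l415 (L l499 (T t5791 (K a171 (M a187 (F (T t1640 (L l174 (T t5706 N))))) (K a187 (M a171 (F (T t4940 (L l189 (L l319 (L l415 (L l499 (T t5791 N)))))))) N)))))))))) N)))))))))))))) (K a71 (M a139 (L l43 (F (T t2125 (L l235 (L l307 (L l487 (T t2967 (L l291 (L l441 (L l477 (T t2969 (K a19 (M a35 (L l367 (F (T t2132 (L l291 (L l441 (L l477 (T t2963 (L l235 (L l307 (L l487 (T t2967 (K a87 (M a223 (F (T t1639 (L l87 (T t2131 N))))) (K a223 (M a87 (F (T t5788 (L l368 (T t2131 N))))) N)))))))))))))) (K a35 (M a19 (F (T t2125 (L l235 (L l307 (L l487 (T t2967 (L l291 (L l441 (L l477 (T t2969 N))))))))))) N)))))))))))))) (K a139 (M a71 (L l43 (L l207 (F (T t4940 (L l319 (L l415 (L l499 (T t5791 (K a19 (M a35 (L l207 (L l367 (F (T t5786 (L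 l319 (L l499 (T t5700 (K a87 (M a223 (L l207 (F (T t5788 (L l164 (L l209 (L l512 (T t5789 (K a171 (M a187 (F (L l143 (T t1640 (L l174 (L l236 (L l309 (L l489 (T t2142 (L l87 (L l235 (L l307 (L l391 (L l487 (T t1634 N))))))))))))))) (K a187 (Fr a171 a239 l403 (V t4709)) N)))))))))) (K a171 (M a187 (L l367 (F (T t5790 (L l219 (L l319 (L l391 (L l415 (L l499 (T t5791 (L l291 (L l441 (L l477 (T t1633 (K a87 (M a223 (F (L l143 (T t1640 (L l174 (L l236 (L l309 (L l489 (T t2142 (L l87 (L l235 (L l307 (L l391 (L l487 (T t1634 N))))))))))))))) (K a223 (Fr a87 a119 l125 (V t2142)) N)))))))))))))))) (K a187 (Fr a171 a239 l403 (V t1565)) (K a223 (Fr a87 a119 l125 (V t2967)) N)))))))))))) (K a35 (M a19 (L l207 (F (T t4940 (L l319 (L l415 (L l499 (T t5791 (K a171 (M a187 (F (T t1640 (L l174 (T t5706 N))))) (K a187 (M a171 (F (T t4940 (L l189 (L l319 (L l415 (L l499 (T t5791 N)))))))) N)))))))))) (K a171 (M a187 (L l43 (F (T t1640 (L l174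 (L l367 (T t5706 (K a19 (M a35 (L l367 (F (T t5790 (L l219 (L l319 (L l391 (L l415 (L l499 (T t5791 (L l291 (L l441 (L l477 (T t1633 (K a87 (M a223 (F (L l143 (T t1640 (L l174 (L l236 (L l309 (L l489 (T t2142 (L l87 (L l235 (L l307 (L l391 (L l487 (T t1634 N))))))))))))))) (K a223 (Fr a87 a119 l125 (V t2142)) N)))))))))))))))) (K a35 (M a19 (F (T t1640 (L l174 (T t5706 N))))) N))))))))) (K a187 (M a171 (L l43 (F (T t1640 (L l208 (L l367 (T t5706 (K a19 (Fr a35 a239 l403 (V t1565)) (K a35 (M a19 (F (T t4940 (L l189 (L l319 (L l415 (L l499 (T t5791 N)))))))) N))))))))) N))))))))))))) N))))))))))))))))) N)))))))))))))))))))) (K a103 (M a155 (F (T t116 (L l43 (L l331 (T t67 (L l43 (L l331 (T t43 (L l43 (L l331 (T t68 (L l43 (L l331 (T t69 (K a20 (M a85 (F (T t89 (L l291 (L l441 (T t114 (T t1344 N))))))) (K a40 (M a85 (F (L l22 (T t89 (L l291 (L l392 (L l441 (T t114 (L l22 (T t1344 N)))))))))) (K a21 (M a192 (F (T t1343 (L l291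 (L l441 (T t1333 (L l347 (T t74 N)))))))) (K a41 (M a192 (F (T t1343 (L l291 (L l441 (T t1333 (L l65 (L l289 (L l439 (T t35 N)))))))))) (K a61 (M a192 (F (T t1681 (L l291 (L l441 (T t1333 (L l65 (L l103 (L l515 (T t2549 N)))))))))) (K a22 (M a192 (F (T t237 (L l11 (L l289 (L l439 (T t35 (L l291 (L l441 (T t1333 N)))))))))) (K a42 (M a192 (F (T t237 (L l291 (L l441 (T t1333 (L l22 (T t74 N)))))))) (K a62 (M a192 (F (T t47 (L l291 (L l441 (T t1333 (L l103 (T t2549 N)))))))) (K a3 (M a255 (L l43 (L l331 (F (T t2125 (L l235 (L l307 (L l487 (T t2967 (L l291 (L l441 (L l477 (T t2969 (K a19 (M a35 (L l331 (F (T t2125 (L l235 (L l307 (L l487 (T t2967 (L l291 (L l441 (L l477 (T t2969 (K a71 (M a139 (L l125 (F (T t5786 (L l313 (L l415 (L l493 (T t5787 (K a87 (M a119 (F (T t1639 (L l87 (T t2129 N))))) (K a119 (M a87 (F (T t1639 (L l126 (T t2129 N))))) N)))))))))) (K a139 (M a71 (F (T t2125 (L l235 (L l307 (L l487 (T t2967 (L l291 (L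 l441 (L l477 (T t2969 N))))))))))) N)))))))))))))) (K a35 (M a19 (L l331 (L l403 (F (T t2125 (L l235 (L l307 (L l487 (T t2967 (L l291 (L l441 (L l477 (T t2969 (K a71 (M a139 (L l125 (L l403 (F (T t5786 (L l313 (L l493 (T t2127 (K a87 (M a119 (L l403 (F (T t1639 (L l235 (L l307 (L l487 (T t2967 (L l236 (L l309 (L l489 (T t2142 (K a171 (M a239 (F (L l219 (T t1639 (L l174 (L l236 (L l309 (L l489 (T t2142 (L l174 (L l235 (L l307 (L l487 (T t2967 N)))))))))))))) (K a239 (Fr a171 a187 l207 (V t4709)) N)))))))))))))) (K a119 (Fr a87 a223 l367 (V t2142)) (K a171 (M a239 (L l125 (F (T t5792 (L l97 (L l127 (L l512 (T t5793 (K a87 (M a119 (F (L l219 (T t1639 (L l174 (L l236 (L l309 (L l489 (T t2142 (L l174 (L l235 (L l307 (L l487 (T t2967 N)))))))))))))) (K a119 (Fr a87 a223 l367 (V t1565)) N)))))))))) (K a239 (Fr a171 a187 l207 (V t2967)) N)))))))))))) (K a139 (M a71 (L l403 (F (T t5792 (T t5703 (K a171 (M a239 (F (T t5792 (L l174 (T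 t5703 N))))) (K a239 (M a171 (F (T t1639 (L l404 (T t5703 N))))) N))))))) (K a171 (M a239 (L l331 (F (T t1640 (L l125 (L l174 (T t5703 (K a71 (M a139 (L l125 (F (T t5792 (L l97 (L l127 (L l512 (T t5793 (K a87 (M a119 (F (L l219 (T t1639 (L l174 (L l236 (L l309 (L l489 (T t2142 (L l174 (L l235 (L l307 (L l487 (T t2967 N)))))))))))))) (K a119 (Fr a87 a223 l367 (V t1565)) N)))))))))) (K a139 (M a71 (F (T t5792 (L l174 (T t5703 N))))) N))))))))) (K a239 (M a171 (L l331 (F (T t1639 (L l125 (L l404 (T t5703 (K a71 (Fr a139 a187 l207 (V t2967)) (K a139 (M a71 (F (T t1639 (L l404 (T t5703 N))))) N))))))))) N))))))))))))))))) (K a71 (M a139 (L l43 (L l125 (F (T t4940 (L l313 (L l415 (L l493 (T t5787 (K a19 (M a35 (L l125 (F (T t5786 (L l313 (L l415 (L l493 (T t5787 (K a87 (M a119 (F (T t1639 (L l87 (T t2129 N))))) (K a119 (M a87 (F (T t1639 (L l126 (T t2129 N))))) N)))))))))) (K a35 (M a19 (L l125 (L l403 (F (T t5786 (L l313 (L l493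 (T t2127 (K a87 (M a119 (L l403 (F (T t1639 (L l235 (L l307 (L l487 (T t2967 (L l236 (L l309 (L l489 (T t2142 (K a171 (M a239 (F (L l219 (T t1639 (L l174 (L l236 (L l309 (L l489 (T t2142 (L l174 (L l235 (L l307 (L l487 (T t2967 N)))))))))))))) (K a239 (Fr a171 a187 l207 (V t4709)) N)))))))))))))) (K a119 (Fr a87 a223 l367 (V t2142)) (K a171 (M a239 (L l125 (F (T t5792 (L l97 (L l127 (L l512 (T t5793 (K a87 (M a119 (F (L l219 (T t1639 (L l174 (L l236 (L l309 (L l489 (T t2142 (L l174 (L l235 (L l307 (L l487 (T t2967 N)))))))))))))) (K a119 (Fr a87 a223 l367 (V t1565)) N)))))))))) (K a239 (Fr a171 a187 l207 (V t2967)) N)))))))))))) (K a87 (M a119 (L l43 (F (T t1639 (L l87 (L l403 (T t2129 (K a19 (M a35 (F (T t1639 (L l87 (T t2129 N))))) (K a35 (M a19 (L l403 (F (T t1639 (L l235 (L l307 (L l487 (T t2967 (L l236 (L l309 (L l489 (T t2142 (K a171 (M a239 (F (L l219 (T t1639 (L l174 (L l236 (L l309 (L l489 (T t2142 (L l174 (L l235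 (L l307 (L l487 (T t2967 N)))))))))))))) (K a239 (Fr a171 a187 l207 (V t4709)) N)))))))))))))) N))))))))) (K a119 (M a87 (L l43 (F (T t1639 (L l126 (L l403 (T t2129 (K a19 (M a35 (F (T t1639 (L l126 (T t2129 N))))) (K a35 (Fr a19 a223 l367 (V t2142)) N))))))))) N))))))))))))) (K a139 (M a71 (L l43 (F (T t2125 (L l235 (L l307 (L l487 (T t2967 (L l291 (L l441 (L l477 (T t2969 (K a19 (M a35 (F (T t2125 (L l235 (L l307 (L l487 (T t2967 (L l291 (L l441 (L l477 (T t2969 N))))))))))) (K a35 (M a19 (L l403 (F (T t5792 (T t5703 (K a171 (M a239 (F (T t5792 (L l174 (T t5703 N))))) (K a239 (M a171 (F (T t1639 (L l404 (T t5703 N))))) N))))))) N)))))))))))))) N))))))))))))))))) N)))))))))))))))))))))))) (K a155 (M a103 (F (T t116 (L l43 (L l331 (T t67 (L l43 (L l331 (T t43 (L l43 (L l331 (T t68 (L l43 (L l331 (T t69 (K a20 (M a85 (F (T t89 (L l291 (L l441 (T t114 (T t1344 N))))))) (K a40 (M a85 (F (L l22 (T t89 (L l291 (L l392 (L l441 (T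 t114 (L l22 (T t1344 N)))))))))) (K a21 (M a192 (F (T t1343 (L l291 (L l441 (T t1333 (L l347 (T t74 N)))))))) (K a41 (M a192 (F (T t1343 (L l291 (L l441 (T t1333 (L l65 (L l289 (L l439 (T t35 N)))))))))) (K a61 (M a192 (F (T t1681 (L l291 (L l441 (T t1333 (L l65 (L l499 (L l515 (T t2549 N)))))))))) (K a22 (M a192 (F (T t237 (L l11 (L l289 (L l439 (T t35 (L l291 (L l441 (T t1333 N)))))))))) (K a42 (M a192 (F (T t237 (L l291 (L l441 (T t1333 (L l22 (T t74 N)))))))) (K a62 (M a192 (F (T t47 (L l291 (L l441 (T t1333 (L l499 (T t2549 N)))))))) (K a3 (M a255 (L l43 (L l331 (F (T t2125 (L l235 (L l307 (L l487 (T t2967 (L l291 (L l441 (L l477 (T t2969 (K a19 (M a35 (L l331 (L l367 (F (T t2125 (L l235 (L l307 (L l487 (T t2967 (L l291 (L l441 (L l477 (T t2969 (K a71 (M a139 (L l367 (F (T t2132 (L l291 (L l441 (L l477 (T t2963 (L l235 (L l307 (L l487 (T t2967 (K a87 (M a223 (F (T t1639 (L l87 (T t2131 N))))) (K a223 (M a87 (F (T t5788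 (L l368 (T t2131 N))))) N)))))))))))))) (K a87 (M a223 (L l331 (F (T t5788 (L l87 (L l207 (T t2131 (K a71 (M a139 (F (T t1639 (L l87 (T t2131 N))))) (K a139 (M a71 (L l207 (F (T t5788 (L l164 (L l209 (L l512 (T t5789 (K a171 (M a187 (F (L l143 (T t1640 (L l174 (L l236 (L l309 (L l489 (T t2142 (L l87 (L l235 (L l307 (L l391 (L l487 (T t1634 N))))))))))))))) (K a187 (Fr a171 a239 l403 (V t4709)) N)))))))))) N))))))))) (K a139 (M a71 (L l207 (L l367 (F (T t5786 (L l319 (L l499 (T t5700 (K a87 (M a223 (L l207 (F (T t5788 (L l164 (L l209 (L l512 (T t5789 (K a171 (M a187 (F (L l143 (T t1640 (L l174 (L l236 (L l309 (L l489 (T t2142 (L l87 (L l235 (L l307 (L l391 (L l487 (T t1634 N))))))))))))))) (K a187 (Fr a171 a239 l403 (V t4709)) N)))))))))) (K a171 (M a187 (L l367 (F (T t5790 (L l219 (L l319 (L l391 (L l415 (L l499 (T t5791 (L l291 (L l441 (L l477 (T t1633 (K a87 (M a223 (F (L l143 (T t1640 (L l174 (L l236 (L l309 (L l489 (T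 t2142 (L l87 (L l235 (L l307 (L l391 (L l487 (T t1634 N))))))))))))))) (K a223 (Fr a87 a119 l125 (V t2142)) N)))))))))))))))) (K a187 (Fr a171 a239 l403 (V t1565)) (K a223 (Fr a87 a119 l125 (V t2967)) N)))))))))))) (K a223 (M a87 (L l331 (F (T t5788 (L l207 (L l368 (T t2131 (K a71 (M a139 (F (T t5788 (L l368 (T t2131 N))))) (K a139 (Fr a71 a119 l125 (V t2967)) N))))))))) N))))))))))))))))) (K a35 (M a19 (L l331 (F (T t2125 (L l235 (L l307 (L l487 (T t2967 (L l291 (L l441 (L l477 (T t2969 (K a71 (M a139 (F (T t2125 (L l235 (L l307 (L l487 (T t2967 (L l291 (L l441 (L l477 (T t2969 N))))))))))) (K a139 (M a71 (L l207 (F (T t4940 (L l319 (L l415 (L l499 (T t5791 (K a171 (M a187 (F (T t1640 (L l174 (T t5706 N))))) (K a187 (M a171 (F (T t4940 (L l189 (L l319 (L l415 (L l499 (T t5791 N)))))))) N)))))))))) N)))))))))))))) (K a71 (M a139 (L l43 (F (T t2125 (L l235 (L l307 (L l487 (T t2967 (L l291 (L l441 (L l477 (T t2969 (K a19 (M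 a35 (L l367 (F (T t2132 (L l291 (L l441 (L l477 (T t2963 (L l235 (L l307 (L l487 (T t2967 (K a87 (M a223 (F (T t1639 (L l87 (T t2131 N))))) (K a223 (M a87 (F (T t5788 (L l368 (T t2131 N))))) N)))))))))))))) (K a35 (M a19 (F (T t2125 (L l235 (L l307 (L l487 (T t2967 (L l291 (L l441 (L l477 (T t2969 N))))))))))) N)))))))))))))) (K a139 (M a71 (L l43 (L l207 (F (T t4940 (L l319 (L l415 (L l499 (T t5791 (K a19 (M a35 (L l207 (L l367 (F (T t5786 (L l319 (L l499 (T t5700 (K a87 (M a223 (L l207 (F (T t5788 (L l164 (L l209 (L l512 (T t5789 (K a171 (M a187 (F (L l143 (T t1640 (L l174 (L l236 (L l309 (L l489 (T t2142 (L l87 (L l235 (L l307 (L l391 (L l487 (T t1634 N))))))))))))))) (K a187 (Fr a171 a239 l403 (V t4709)) N)))))))))) (K a171 (M a187 (L l367 (F (T t5790 (L l219 (L l319 (L l391 (L l415 (L l499 (T t5791 (L l291 (L l441 (L l477 (T t1633 (K a87 (M a223 (F (L l143 (T t1640 (L l174 (L l236 (L l309 (L l489 (T t2142 (L l87 (L l235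 (L l307 (L l391 (L l487 (T t1634 N))))))))))))))) (K a223 (Fr a87 a119 l125 (V t2142)) N)))))))))))))))) (K a187 (Fr a171 a239 l403 (V t1565)) (K a223 (Fr a87 a119 l125 (V t2967)) N)))))))))))) (K a35 (M a19 (L l207 (F (T t4940 (L l319 (L l415 (L l499 (T t5791 (K a171 (M a187 (F (T t1640 (L l174 (T t5706 N))))) (K a187 (M a171 (F (T t4940 (L l189 (L l319 (L l415 (L l499 (T t5791 N)))))))) N)))))))))) (K a171 (M a187 (L l43 (F (T t1640 (L l174 (L l367 (T t5706 (K a19 (M a35 (L l367 (F (T t5790 (L l219 (L l319 (L l391 (L l415 (L l499 (T t5791 (L l291 (L l441 (L l477 (T t1633 (K a87 (M a223 (F (L l143 (T t1640 (L l174 (L l236 (L l309 (L l489 (T t2142 (L l87 (L l235 (L l307 (L l391 (L l487 (T t1634 N))))))))))))))) (K a223 (Fr a87 a119 l125 (V t2142)) N)))))))))))))))) (K a35 (M a19 (F (T t1640 (L l174 (T t5706 N))))) N))))))))) (K a187 (M a171 (L l43 (F (T t1640 (L l208 (L l367 (T t5706 (K a19 (Fr a35 a239 l403 (V t1565)) (K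 a35 (M a19 (F (T t4940 (L l189 (L l319 (L l415 (L l499 (T t5791 N)))))))) N))))))))) N))))))))))))) N))))))))))))))))) N)))))))))))))))))))))))) N)))))))))))))))))))))))))))⟩
def e0_63__207_18 : Ent 4 := ⟨[a0, a63], [a207, a53], (M a12 (F (T t1252 (L l47 (L l511 (T t122 (L l511 (T t151 (L l47 (L l511 (T t152 (L l31 (L l511 (T t153 (K a4 (M a60 (F (T t570 (L l46 (L l47 (L l50 (L l331 (T t67 (T t448 N))))))))) (K a8 (M a60 (F (T t570 (L l47 (L l331 (T t67 (L l52 (L l56 (T t448 N))))))))) (K a21 (M a192 (L l47 (F (T t158 (L l231 (T t156 (L l15 (L l347 (L l491 (T t157 (K a5 (M a37 (F (T t2119 (L l15 (L l301 (L l347 (L l491 (T t450 (L l1 (L l50 (T t681 N))))))))))) (K a37 (M a5 (F (T t2119 (L l303 (L l347 (L l491 (T t4476 N))))))) N)))))))))))) (K a25 (M a192 (F (T t158 (L l231 (T t156 (L l289 (L l491 (T t21 N)))))))) (K a29 (M a192 (F (T t1681 (L l231 (T t156 (T t160 N)))))) (K a38 (M a192 (F (T t2119 (L l301 (L l491 (T t450 (L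 l289 (L l491 (T t21 N))))))))) (K a42 (M a192 (F (T t496 (L l301 (L l491 (T t450 (L l56 (L l491 (T t157 N))))))))) (K a46 (M a192 (F (T t1725 (L l289 (L l491 (T t21 (L l26 (L l408 (T t160 N))))))))) (K a51 (M a170 (L l511 (F (T t4159 (L l47 (T t3682 (K a103 (M a155 (F (T t5242 (L l47 (L l236 (L l489 (T t320 (T t3880 N)))))))) (K a155 (M a103 (F (T t5242 (L l47 (L l236 (L l489 (T t320 (T t3880 N)))))))) N)))))))) N)))))))))))))))))))))))⟩
def e0_63__207_19 : Ent 4 := ⟨[a0, a63], [a207, a54], (M a12 (F (T t150 (L l39 (L l511 (T t122 (L l39 (L l511 (T t151 (L l39 (L l511 (T t152 (L l31 (L l39 (L l511 (T t153 (K a4 (M a60 (F (T t423 (L l46 (L l50 (L l331 (T t67 (T t448 N)))))))) (K a8 (M a60 (F (T t116 (L l325 (T t398 (L l52 (L l56 (T t448 N)))))))) (K a21 (M a192 (F (T t158 (L l231 (T t156 (L l15 (L l347 (T t157 N)))))))) (K a25 (M a192 (F (T t155 (L l231 (T t156 (L l289 (T t21 N))))))) (K a29 (M a192 (F (T t159 (L l289 (L l371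 (T t21 (T t160 N))))))) (K a38 (M a6 (F (T t5794 (L l26 (L l39 (L l506 (T t3916 (L l21 (L l26 (L l29 (L l36 (T t3917 N)))))))))))) (K a42 (M a192 (F (T t161 (L l231 (T t156 (L l56 (T t157 N))))))) (K a46 (M a192 (F (T t57 (L l231 (T t156 (L l26 (L l408 (T t160 N)))))))) (K a51 (M a60 (L l511 (F (T t3918 (L l43 (L l331 (T t67 (L l73 (L l325 (T t398 (K a103 (M a155 (F (T t116 (L l30 (L l512 (T t410 (L l36 (L l73 (L l325 (T t680 N)))))))))) (K a155 (M a103 (F (T t116 (L l30 (L l512 (T t410 (L l36 (L l73 (L l325 (T t680 N)))))))))) N)))))))))))) N)))))))))))))))))))))))))⟩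
def e0_63__207_20 : Ent 4 := ⟨[a0, a63], [a207, a55], (M a60 (F (T t662 (L l50 (L l331 (T t67 (L l49 (L l331 (T t43 (L l50 (L l331 (T t68 (L l331 (T t69 (K a20 (M a48 (F (T t132 (L l31 (L l511 (T t64 (L l11 (L l49 (L l50 (T t235 N)))))))))) (K a40 (M a48 (F (L l31 (L l511 (T t64 (L l22 (L l325 (T t2 (L l49 (L l50 (L l52 (T t235 N)))))))))))) (K a21 (M a12 (L l50 (F (T t570 (L l31 (L l512 (T t409 (L l11 (L l15 (L l65 (L l325 (L l512 (T t1665 (L l18 (L l31 (L l512 (T t2437 (K a4 (M a38 (F (L l15 (T t1669 (L l11 (L l511 (T t2438 (L l18 (L l325 (T t402 N)))))))))) (K a38 (Fr a4 a8 l4 (V t1671)) N))))))))))))))))))) (K a41 (M a192 (F (T t1334 (L l50 (L l65 (L l289 (L l495 (T t35 (L l235 (L l495 (T t73 N))))))))))) (K a61 (M a192 (F (T t1334 (L l50 (L l65 (L l289 (L l495 (L l515 (T t35 (L l493 (T t80 N))))))))))) (K a22 (M a192 (F (T t2658 (L l289 (L l495 (T t21 (L l235 (L l495 (T t73 N))))))))) (K a42 (M a192 (F (T t1334 (L l235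 (L l495 (T t73 (L l22 (L l495 (T t74 N))))))))) (K a62 (M a192 (F (T t2658 (L l50 (L l289 (L l495 (T t35 (L l66 (L l493 (L l516 (T t80 N))))))))))) (K a3 (M a192 (L l331 (F (T t1343 (L l291 (L l477 (T t79 (L l50 (L l289 (L l475 (L l495 (T t35 (K a71 (M a139 (F (T t1800 (L l235 (L l307 (L l493 (T t75 (L l291 (L l477 (T t1333 N)))))))))) (K a139 (M a71 (F (T t1800 (L l235 (L l307 (L l493 (T t75 (L l291 (L l477 (T t1333 N)))))))))) N)))))))))))))) N)))))))))))))))))))))))⟩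
def e0_63__207_21 : Ent 4 := ⟨[a0, a63], [a207, a64], (M a12 (F (T t150 (L l511 (T t122 (L l511 (T t151 (L l511 (T t152 (L l511 (T t153 (K a4 (M a60 (F (T t570 (L l46 (L l50 (L l331 (T t67 (T t448 N)))))))) (K a8 (M a60 (F (T t570 (L l331 (T t67 (L l52 (L l56 (T t448 N)))))))) (K a21 (M a89 (F (T t862 (L l50 (L l301 (T t863 (L l50 (T t864 N)))))))) (K a25 (M a48 (F (T t865 (L l15 (L l325 (T t1 (L l12 (L l56 (T t866 N))))))))) (K a29 (M a48 (F (T t145 (L l15 (L l325 (T t1 (T t866 N))))))) (K a38 (M a48 (F (T t867 (L l26 (L l325 (T t2 (L l21 (L l50 (T t868 N))))))))) (K a42 (M a89 (F (T t4375 (L l26 (L l80 (L l236 (T t870 (L l26 (T t864 N))))))))) (K a46 (M a48 (F (T t48 (L l506 (T t443 (L l26 (T t866 N))))))) (K a51 (M a85 (L l511 (F (T t571 (T t572 (K a103 (M a155 (F (T t571 (T t572 N)))) (K a155 (M a103 (F (T t571 (T t572 N)))) N))))))) N))))))))))))))))))))⟩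
def e0_63__207_22 : Ent 4 := ⟨[a0, a63], [a207, a65], (M a12 (F (T t150 (L l511 (T t122 (L l511 (T t151 (L l511 (T t152 (L l511 (T t153 (K a4 (M a60 (F (T t570 (L l46 (L l50 (L l331 (T t67 (T t448 N)))))))) (K a8 (M a60 (F (T t116 (L l325 (T t398 (L l52 (L l56 (T t448 N)))))))) (K a21 (M a192 (F (T t155 (L l231 (T t156 (L l15 (L l347 (T t157 N)))))))) (K a25 (M a192 (F (T t158 (L l231 (T t156 (L l289 (T t21 N))))))) (K a29 (M a192 (F (T t159 (L l289 (L l371 (T t21 (T t160 N))))))) (K a38 (M a192 (F (T t161 (L l231 (T t156 (L l289 (T t21 N))))))) (K a42 (M a192 (F (T t161 (L l231 (T t156 (L l56 (T t157 N))))))) (K a46 (M a192 (F (T t57 (L l231 (T t156 (L l26 (L l408 (T t160 N)))))))) (K a51 (M a85 (L l511 (F (T t571 (T t572 (K a103 (M a155 (F (T t49 (L l289 (L l439 (T t573 (T t574 N))))))) (K a155 (M a103 (F (T t49 (L l289 (L l439 (T t573 (T t574 N))))))) N))))))) N))))))))))))))))))))⟩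
def e0_63__207_23 : Ent 4 := ⟨[a0, a63], [a207, a66], (M a12 (F (T t150 (L l511 (T t122 (L l511 (T t151 (L l511 (T t152 (L l511 (T t153 (K a4 (M a60 (F (T t570 (L l46 (L l50 (L l309 (L l331 (T t67 (T t448 N))))))))) (K a8 (M a60 (F (T t570 (L l309 (L l331 (T t67 (L l52 (L l56 (T t448 N))))))))) (K a21 (M a192 (F (L l231 (T t468 (L l15 (L l301 (L l347 (T t450 (L l15 (L l347 (T t157 N))))))))))) (K a25 (M a192 (F (T t496 (L l15 (L l301 (T t450 (L l289 (T t21 N)))))))) (K a29 (M a192 (F (T t496 (L l289 (L l371 (T t21 (L l142 (T t160 N)))))))) (K a38 (M a192 (F (T t161 (L l231 (T t156 (L l289 (T t21 N))))))) (K a42 (M a192 (F (T t161 (L l231 (T t156 (L l56 (T t157 N))))))) (K a46 (M a192 (F (T t57 (L l231 (T t156 (L l26 (L l142 (L l408 (T t160 N))))))))) (K a51 (M a192 (L l511 (F (T t57 (L l231 (L l513 (T t156 (L l301 (L l415 (T t450 (K a103 (M a155 (F (T t47 (L l142 (L l301 (L l415 (T t543 (L l231 (L l513 (T t468 N))))))))))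 (K a155 (M a103 (F (T t47 (L l142 (L l301 (L l415 (T t543 (L l231 (L l513 (T t468 N)))))))))) N)))))))))))) N))))))))))))))))))))⟩
def e0_63__207_24 : Ent 4 := ⟨[a0, a63], [a207, a67], (M a12 (F (T t150 (L l511 (T t122 (L l511 (T t151 (L l511 (T t152 (L l511 (T t153 (K a4 (M a60 (F (T t570 (L l46 (L l50 (L l307 (L l331 (T t67 (T t448 N))))))))) (K a8 (M a60 (F (T t116 (L l325 (T t398 (L l52 (L l56 (T t448 N)))))))) (K a21 (M a192 (F (T t158 (L l85 (L l231 (T t156 (L l15 (L l347 (T t157 N))))))))) (K a25 (M a192 (F (T t158 (L l85 (L l231 (T t156 (L l143 (L l289 (T t21 N))))))))) (K a29 (M a192 (F (T t496 (L l143 (L l289 (L l371 (T t21 (T t160 N)))))))) (K a38 (M a192 (F (T t161 (L l85 (L l231 (T t156 (L l143 (L l289 (T t21 N))))))))) (K a42 (M a192 (F (T t161 (L l85 (L l231 (T t156 (L l56 (T t157 N)))))))) (K a46 (M a192 (F (T t57 (L l85 (L l231 (T t156 (L l26 (L l408 (T t160 N))))))))) (K a51 (M a192 (L l511 (F (T t57 (L l85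 (L l231 (L l513 (T t156 (L l301 (L l415 (T t450 (K a103 (M a155 (F (T t57 (L l301 (L l415 (T t543 (L l231 (L l513 (T t468 N))))))))) (K a155 (M a103 (F (T t57 (L l301 (L l415 (T t543 (L l231 (L l513 (T t468 N))))))))) N))))))))))))) N))))))))))))))))))))⟩
def e0_63__207_25 : Ent 4 := ⟨[a0, a63], [a207, a69], (M a48 (F (T t48 (L l325 (T t1 (L l311 (L l325 (T t2 (L l325 (T t3 (L l325 (T t0 (K a16 (M a60 (F (T t138 (L l14 (L l18 (L l331 (T t67 (L l311 (T t65 N))))))))) (K a32 (M a60 (F (T t116 (L l511 (T t64 (L l24 (L l28 (L l311 (T t65 N))))))))) (K a21 (M a80 (F (T t61 (L l47 (L l289 (T t942 (L l84 (L l289 (T t1676 (L l47 (L l84 (L l236 (T t1677 N))))))))))))) (K a37 (M a192 (F (T t55 (L l289 (T t21 (L l28 (T t31 N))))))) (K a53 (M a192 (F (T t55 (L l289 (L l491 (T t21 (T t31 N))))))) (K a26 (M a192 (F (L l303 (T t27 (L l289 (T t21 (L l54 (T t31 N)))))))) (K a42 (M a80 (F (L l303 (T t1678 (L l289 (T t942 (L l28 (L l84 (L l289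 (L l390 (T t1676 (L l28 (L l84 (L l236 (T t1677 N))))))))))))))) (K a58 (M a192 (F (T t57 (L l303 (T t27 (L l54 (L l498 (T t31 N)))))))) (K a15 (M a192 (L l325 (F (T t57 (L l303 (L l483 (T t27 (T t31 (K a79 (M a143 (L l84 (F (T t36 (L l289 (L l469 (T t35 (L l137 (T t525 (K a64 (M a74 (F (L l137 (T t525 (L l151 (L l483 (T t1679 (L l116 (L l311 (T t1680 N)))))))))) (K a74 (Fr a64 a128 l304 (V t392)) N))))))))))) (K a143 (M a79 (F (T t1681 (L l303 (L l483 (T t28 (T t525 N))))))) N)))))))))) N)))))))))))))))))))))⟩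
def e0_63__207_26 : Ent 4 := ⟨[a0, a63], [a207, a70], (M a12 (F (T t150 (L l511 (T t122 (L l511 (T t151 (L l511 (T t152 (L l511 (T t153 (K a4 (M a60 (F (T t570 (L l46 (L l50 (L l331 (L l333 (T t67 (T t448 N))))))))) (K a8 (M a60 (F (T t570 (L l331 (L l333 (T t67 (L l52 (L l56 (T t448 N))))))))) (K a21 (M a192 (F (T t158 (L l85 (L l231 (L l333 (T t156 (L l15 (L l347 (T t157 N)))))))))) (K a25 (M a192 (F (T t155 (L l85 (L l231 (L l333 (T t156 (L l289 (T t21 N))))))))) (K a29 (M a192 (F (T t1681 (L l85 (L l231 (L l333 (T t156 (T t160 N)))))))) (K a38 (M a192 (F (T t161 (L l85 (L l231 (L l333 (T t156 (L l289 (T t21 N))))))))) (K a42 (M a192 (F (T t161 (L l85 (L l231 (L l333 (T t156 (L l56 (T t157 N))))))))) (K a46 (M a192 (F (T t57 (L l85 (L l231 (L l333 (T t156 (L l26 (L l408 (T t160 N)))))))))) (K a51 (M a192 (L l511 (F (T t1681 (L l85 (L l231 (L l333 (L l513 (T t156 (L l301 (L l415 (T t450 (K a103 (M a155 (F (T t1800 (L l301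 (L l415 (T t543 (L l231 (L l315 (L l333 (L l513 (T t468 N))))))))))) (K a155 (M a103 (F (T t1800 (L l301 (L l415 (T t543 (L l231 (L l315 (L l333 (L l513 (T t468 N))))))))))) N)))))))))))))) N))))))))))))))))))))⟩
def e0_63__207_27 : Ent 4 := ⟨[a0, a63], [a207, a71], (M a3 (F (T t85 (L l506 (T t137 (L l506 (T t353 (L l506 (T t665 (L l506 (T t358 (K a60 (M a192 (L l506 (F (T t57 (L l83 (L l235 (L l518 (T t2064 (L l291 (L l430 (T t2069 (K a109 (M a158 (F (T t1800 (L l291 (L l430 (T t2047 (L l235 (L l518 (T t2297 N))))))))) (K a158 (M a109 (F (T t1800 (L l291 (L l430 (T t2047 (L l235 (L l518 (T t2297 N))))))))) N))))))))))))) (K a1 (M a85 (F (T t89 (L l125 (L l235 (T t355 (L l125 (T t377 N)))))))) (K a21 (M a192 (F (T t2335 (L l83 (L l235 (T t2064 (L l65 (T t2065 N)))))))) (K a41 (M a192 (F (T t2066 (L l83 (L l235 (T t2064 (L l65 (L l289 (T t35 N))))))))) (K a2 (M a85 (F (L l289 (T t52 (L l125 (L l235 (L l474 (T t355 (L l66 (L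 l125 (T t377 N))))))))))) (K a22 (M a192 (F (T t2335 (L l83 (L l235 (T t2064 (L l11 (L l289 (T t35 N))))))))) (K a42 (M a192 (F (T t2066 (L l83 (L l235 (T t2064 (L l22 (L l390 (T t2065 N))))))))) (K a23 (M a192 (F (T t1681 (L l83 (L l235 (T t2064 (L l11 (L l351 (T t2070 N))))))))) (K a43 (M a192 (F (T t2068 (L l289 (T t35 (T t2070 N)))))) N))))))))))))))))))))⟩
def e0_63__207_28 : Ent 4 := ⟨[a0, a63], [a207, a74], (M a60 (F (T t116 (L l331 (T t67 (L l331 (T t43 (L l331 (T t68 (L l331 (T t69 (K a20 (M a48 (F (T t138 (L l11 (L l318 (L l325 (L l339 (T t1 (L l11 (T t235 N)))))))))) (K a40 (M a48 (F (T t607 (L l511 (T t64 (L l52 (T t235 N))))))) (K a21 (M a192 (F (L l291 (T t72 (L l235 (L l347 (T t73 (L l347 (T t74 N))))))))) (K a41 (M a192 (F (T t254 (L l65 (L l289 (T t35 (L l235 (T t73 N)))))))) (K a61 (M a192 (F (T t254 (L l65 (L l289 (L l515 (T t35 (L l130 (T t80 N))))))))) (K a22 (M a192 (F (T t614 (L l11 (L l291 (T t79 (L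 l11 (L l289 (T t35 N))))))))) (K a42 (M a192 (F (T t614 (L l291 (T t79 (L l22 (T t74 N))))))) (K a62 (M a192 (F (T t57 (L l291 (T t79 (L l66 (L l130 (L l516 (T t80 N))))))))) (K a3 (M a85 (L l331 (F (T t447 (T t115 (K a71 (M a139 (F (T t447 (T t115 N)))) (K a139 (M a71 (F (T t447 (T t115 N)))) N))))))) N))))))))))))))))))))⟩
def e0_63__207_29 : Ent 4 := ⟨[a0, a63], [a207, a75], (M a12 (F (T t150 (L l511 (T t122 (L l511 (T t151 (L l511 (T t152 (L l511 (T t153 (K a4 (M a60 (F (T t570 (L l46 (L l50 (L l331 (T t67 (T t448 N)))))))) (K a8 (M a60 (F (T t570 (L l331 (T t67 (L l52 (L l56 (T t448 N)))))))) (K a21 (M a192 (F (L l231 (T t156 (L l15 (L l301 (L l347 (T t450 (L l15 (L l347 (T t157 N))))))))))) (K a25 (M a192 (F (T t159 (L l15 (L l301 (T t450 (L l289 (T t21 N)))))))) (K a29 (M a192 (F (T t1681 (L l231 (T t156 (L l78 (T t160 N))))))) (K a38 (M a192 (F (T t161 (L l231 (T t156 (L l289 (T t21 N))))))) (K a42 (M a192 (F (T t161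 (L l231 (T t156 (L l56 (T t157 N))))))) (K a46 (M a192 (F (T t57 (L l231 (T t156 (L l26 (L l78 (L l408 (T t160 N))))))))) (K a51 (M a192 (L l511 (F (T t496 (L l301 (L l415 (T t450 (L l289 (L l439 (T t21 (K a103 (M a155 (F (T t159 (L l289 (L l439 (T t35 (L l78 (L l301 (L l415 (T t543 N)))))))))) (K a155 (M a103 (F (T t159 (L l289 (L l439 (T t35 (L l78 (L l301 (L l415 (T t543 N)))))))))) N)))))))))))) N))))))))))))))))))))⟩
def e0_63__207_30 : Ent 4 := ⟨[a0, a63], [a207, a79], (M a15 (F (T t1254 (L l512 (T t716 (L l512 (T t731 (L l512 (T t723 (L l512 (T t732 (K a48 (M a90 (L l512 (F (T t3053 (L l303 (L l412 (T t3054 (T t3021 (K a101 (M a154 (F (T t3021 (L l303 (L l412 (L l491 (T t3055 (L l123 (L l303 (L l412 (T t3056 N))))))))))) (K a154 (M a101 (F (T t3057 (L l137 (L l227 (L l289 (L l440 (T t3058 (L l84 (L l498 (T t3059 N))))))))))) N)))))))))) (K a5 (M a12 (F (T t2823 (L l47 (L l511 (T t122 (L l5 (T t722 N)))))))) (K a21 (M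 a165 (F (T t3060 (L l303 (T t3046 (L l18 (L l84 (T t3048 N)))))))) (K a37 (M a4 (F (T t3049 (L l28 (L l511 (T t519 (L l21 (L l28 (T t2571 N))))))))) (K a10 (M a12 (F (T t2825 (L l511 (T t122 (L l54 (T t722 N))))))) (K a26 (M a8 (F (T t2581 (L l18 (L l511 (T t414 (L l12 (L l18 (T t2582 N))))))))) (K a42 (M a165 (F (T t3061 (L l54 (L l303 (T t3047 (L l54 (L l84 (T t3048 N))))))))) (K a31 (M a4 (F (T t129 (L l331 (T t2570 (L l17 (T t2571 N))))))) (K a47 (M a4 (F (T t3062 (L l28 (L l511 (T t519 (L l28 (T t2571 N)))))))) N))))))))))))))))))))⟩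
def e0_63__207_31 : Ent 4 := ⟨[a0, a63], [a207, a80], (M a12 (F (T t150 (L l511 (T t122 (L l511 (T t151 (L l511 (T t152 (L l511 (T t153 (K a4 (M a60 (F (T t570 (L l46 (L l50 (L l331 (T t67 (T t448 N)))))))) (K a8 (M a60 (F (T t570 (L l331 (T t67 (L l52 (L l56 (T t448 N)))))))) (K a21 (M a192 (F (T t155 (L l231 (T t156 (L l15 (L l347 (T t157 N)))))))) (K a25 (M a192 (F (T t158 (L l231 (T t156 (L l289 (T t21 N))))))) (K a29 (M a192 (F (T t159 (L l289 (L l371 (T t21 (T t160 N))))))) (K a38 (M a192 (F (T t161 (L l231 (T t156 (L l289 (T t21 N))))))) (K a42 (M a192 (F (T t161 (L l231 (T t156 (L l56 (T t157 N))))))) (K a46 (M a192 (F (T t57 (L l231 (T t156 (L l26 (L l408 (T t160 N)))))))) (K a51 (M a85 (L l511 (F (T t571 (T t572 (K a103 (M a155 (F (T t49 (L l289 (L l439 (T t573 (T t574 N))))))) (K a155 (M a103 (F (T t49 (L l289 (L l439 (T t573 (T t574 N))))))) N))))))) N))))))))))))))))))))⟩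
def e0_63__207_32 : Ent 4 := ⟨[a0, a63], [a207, a81], (M a12 (F (T t150 (L l511 (T t122 (L l341 (L l511 (T t151 (L l511 (T t152 (L l511 (T t153 (K a4 (M a60 (F (T t570 (L l46 (L l50 (L l331 (T t67 (L l341 (T t448 N))))))))) (K a8 (M a60 (F (T t116 (L l325 (T t398 (L l52 (L l56 (L l341 (T t448 N))))))))) (K a21 (M a192 (F (T t158 (L l231 (T t156 (L l15 (L l347 (T t157 N)))))))) (K a25 (M a192 (F (T t158 (L l231 (T t156 (L l289 (T t21 N))))))) (K a29 (M a192 (F (T t159 (L l289 (L l371 (T t21 (T t160 N))))))) (K a38 (M a192 (F (T t161 (L l231 (T t156 (L l289 (T t21 N))))))) (K a42 (M a192 (F (T t161 (L l231 (T t156 (L l56 (T t157 N))))))) (K a46 (M a192 (F (T t57 (L l231 (T t156 (L l26 (L l408 (T t160 N)))))))) (K a51 (M a85 (L l511 (F (T t571 (T t572 (K a103 (M a155 (F (T t574 (L l231 (L l513 (T t124 (L l289 (L l439 (T t924 N))))))))) (K a155 (M a103 (F (T t574 (L l231 (L l513 (T t124 (L l289 (L l439 (T t924 N))))))))) N)))))))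 N)))))))))))))))))))))⟩
def e0_63__207_33 : Ent 4 := ⟨[a0, a63], [a207, a82], (M a12 (F (T t150 (L l511 (T t122 (L l511 (T t151 (L l511 (T t152 (L l511 (T t153 (K a4 (M a60 (F (T t570 (L l46 (L l50 (L l331 (L l453 (T t67 (T t448 N))))))))) (K a8 (M a60 (F (T t570 (L l331 (L l453 (T t67 (L l52 (L l56 (T t448 N))))))))) (K a21 (M a192 (F (T t158 (L l231 (T t156 (L l15 (L l347 (T t157 N)))))))) (K a25 (M a192 (F (T t155 (L l231 (T t156 (L l289 (T t21 N))))))) (K a29 (M a192 (F (T t159 (L l289 (L l371 (T t21 (T t160 N))))))) (K a38 (M a192 (F (T t576 (L l231 (T t156 (L l289 (T t21 N))))))) (K a42 (M a192 (F (T t161 (L l231 (T t156 (L l56 (T t157 N))))))) (K a46 (M a192 (F (T t57 (L l231 (T t156 (L l26 (L l408 (T t160 N)))))))) (K a51 (M a192 (L l511 (F (T t47 (L l231 (L l513 (T t156 (L l301 (L l415 (T t450 (K a103 (M a155 (F (T t1800 (L l301 (L l415 (T t543 (L l231 (L l513 (T t468 N))))))))) (K a155 (M a103 (F (T t1800 (L l301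 (L l415 (T t543 (L l231 (L l513 (T t468 N))))))))) N)))))))))))) N))))))))))))))))))))⟩
def e0_63__207_34 : Ent 4 := ⟨[a0, a63], [a207, a83], (M a12 (F (T t150 (L l511 (T t122 (L l511 (T t151 (L l511 (T t152 (L l511 (T t153 (K a4 (M a60 (F (T t570 (L l46 (L l50 (L l331 (L l451 (T t67 (T t448 N))))))))) (K a8 (M a60 (F (T t116 (L l325 (T t398 (L l52 (L l56 (T t448 N)))))))) (K a21 (M a192 (F (T t158 (L l231 (T t156 (L l15 (L l347 (T t157 N)))))))) (K a25 (M a192 (F (T t158 (L l231 (T t156 (L l289 (T t21 N))))))) (K a29 (M a192 (F (T t159 (L l289 (L l371 (T t21 (T t160 N))))))) (K a38 (M a192 (F (T t161 (L l231 (T t156 (L l289 (T t21 N))))))) (K a42 (M a192 (F (T t161 (L l231 (T t156 (L l56 (T t157 N))))))) (K a46 (M a192 (F (T t57 (L l231 (T t156 (L l26 (L l408 (T t160 N)))))))) (K a51 (M a192 (L l511 (F (T t47 (L l231 (L l513 (T t156 (L l301 (L l415 (L l451 (T t450 (K a103 (M a155 (F (T t1800 (L l301 (L l415 (L l451 (T t543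 (L l231 (L l513 (T t468 N)))))))))) (K a155 (M a103 (F (T t1800 (L l301 (L l415 (L l451 (T t543 (L l231 (L l513 (T t468 N)))))))))) N))))))))))))) N))))))))))))))))))))⟩
def e0_63__207_35 : Ent 4 := ⟨[a0, a63], [a207, a85], (M a12 (F (T t2061 (L l347 (L l511 (T t122 (L l365 (L l511 (T t151 (L l347 (L l458 (L l511 (T t152 (L l511 (T t153 (K a4 (M a60 (L l458 (F (T t522 (L l325 (T t398 (L l365 (T t448 (K a166 (M a247 (F (T t423 (L l331 (L l473 (T t69 (L l365 (L l408 (T t448 N))))))))) (K a247 (M a166 (F (T t522 (L l236 (L l310 (T t2470 N)))))) N)))))))))) (K a8 (M a60 (F (T t570 (L l331 (L l347 (L l350 (T t67 (L l52 (L l56 (L l365 (T t448 N))))))))))) (K a21 (M a149 (F (L l236 (T t958 (L l144 (L l231 (T t648 (L l50 (L l91 (L l144 (L l458 (T t2471 (L l50 (L l91 (L l301 (L l458 (T t2472 N))))))))))))))))) (K a25 (M a192 (F (L l231 (T t156 (L l15 (L l301 (L l347 (T t450 (L l144 (L l458 (T t2473 N))))))))))) (K a29 (M a48 (F (L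 l506 (T t1580 (L l15 (L l325 (L l347 (T t1 (L l455 (T t866 N)))))))))) (K a38 (M a192 (F (L l231 (T t156 (L l301 (L l347 (T t450 (L l26 (L l50 (L l144 (L l458 (T t2473 N)))))))))))) (K a42 (M a192 (F (L l231 (T t156 (L l301 (L l347 (T t450 (L l26 (L l144 (L l390 (L l458 (T t2473 N)))))))))))) (K a46 (M a48 (F (L l506 (T t443 (L l325 (L l347 (T t1 (L l26 (L l455 (T t866 N)))))))))) (K a51 (M a192 (L l511 (F (L l347 (T t161 (L l231 (L l513 (T t156 (L l144 (L l458 (T t2473 (K a103 (M a155 (F (L l347 (T t161 (L l231 (L l513 (T t468 (L l144 (L l458 (T t2473 N)))))))))) (K a155 (M a103 (F (L l347 (T t161 (L l231 (L l513 (T t468 (L l144 (L l458 (T t2473 N)))))))))) N))))))))))))) N))))))))))))))))))))))))⟩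
def e0_63__207_36 : Ent 4 := ⟨[a0, a63], [a207, a86], (M a12 (F (T t150 (L l511 (T t122 (L l511 (T t151 (L l511 (T t152 (L l511 (T t153 (K a4 (M a60 (F (T t570 (L l46 (L l50 (L l331 (L l477 (T t67 (L l351 (T t448 N)))))))))) (K a8 (M a60 (F (T t570 (L l331 (L l477 (T t67 (L l52 (L l56 (L l351 (T t448 N)))))))))) (K a21 (M a192 (F (T t1725 (L l15 (L l301 (L l347 (L l351 (T t450 (L l15 (L l347 (L l351 (T t157 N)))))))))))) (K a25 (M a192 (F (T t496 (L l15 (L l301 (L l351 (T t450 (L l289 (L l351 (T t21 N)))))))))) (K a29 (M a192 (F (T t159 (L l289 (L l351 (L l371 (T t21 (L l142 (T t160 N))))))))) (K a38 (M a192 (F (T t1725 (L l301 (L l351 (T t450 (L l289 (L l351 (T t21 N))))))))) (K a42 (M a192 (F (T t496 (L l301 (L l351 (T t450 (L l56 (L l351 (T t157 N))))))))) (K a46 (M a192 (F (T t1725 (L l289 (L l351 (T t21 (L l26 (L l142 (L l408 (T t160 N)))))))))) (K a51 (M a192 (L l511 (F (T t1725 (L l301 (L l351 (L l415 (T t450 (L l289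 (L l351 (L l439 (T t21 (K a103 (M a155 (F (T t159 (L l289 (L l351 (L l439 (T t35 (L l142 (L l301 (L l415 (T t543 N))))))))))) (K a155 (M a103 (F (T t159 (L l289 (L l351 (L l439 (T t35 (L l142 (L l301 (L l415 (T t543 N))))))))))) N)))))))))))))) N))))))))))))))))))))⟩
def e0_63__207_37 : Ent 4 := ⟨[a0, a63], [a207, a87], (M a48 (F (T t48 (L l325 (T t1 (L l325 (T t2 (L l325 (T t3 (L l325 (T t0 (K a16 (M a60 (F (T t662 (L l511 (T t64 (L l349 (T t65 N))))))) (K a32 (M a60 (F (T t116 (L l511 (T t64 (L l24 (L l28 (L l349 (T t65 N))))))))) (K a21 (M a80 (F (T t1831 (L l47 (L l289 (L l475 (T t942 (L l289 (L l367 (T t1676 (L l47 (L l143 (L l236 (T t3328 N)))))))))))))) (K a37 (M a192 (F (T t36 (L l143 (L l289 (L l475 (T t21 (L l28 (T t31 N))))))))) (K a53 (M a192 (F (T t1681 (L l303 (T t27 (T t31 N)))))) (K a26 (M a192 (F (T t1922 (L l143 (L l289 (L l475 (T t21 (L l54 (T t31 N))))))))) (K a42 (M a80 (F (L l303 (T t1678 (L l289 (L l475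 (T t942 (L l28 (L l289 (L l367 (L l390 (T t1676 (L l28 (L l143 (L l236 (T t3328 N)))))))))))))))) (K a58 (M a192 (F (T t57 (L l303 (T t27 (L l54 (L l498 (T t31 N)))))))) (K a15 (M a192 (L l325 (F (T t1681 (L l303 (L l483 (T t27 (T t31 (K a79 (M a143 (F (T t36 (L l289 (L l469 (L l475 (T t35 (L l137 (T t525 N))))))))) (K a143 (M a79 (F (T t2113 (L l289 (L l469 (L l475 (T t35 (T t525 N)))))))) N)))))))))) N))))))))))))))))))))⟩
def e0_63__207_38 : Ent 4 := ⟨[a0, a63], [a207, a90], (M a12 (F (T t150 (L l511 (T t122 (L l511 (T t151 (L l511 (T t152 (L l511 (T t153 (K a4 (M a60 (F (T t570 (L l46 (L l50 (L l331 (T t67 (T t448 N)))))))) (K a8 (M a60 (F (T t570 (L l331 (T t67 (L l52 (L l56 (T t448 N)))))))) (K a21 (M a192 (F (T t1725 (L l15 (L l301 (L l347 (L l375 (T t450 (L l15 (L l347 (L l375 (T t157 N)))))))))))) (K a25 (M a192 (F (T t496 (L l15 (L l301 (L l375 (T t450 (L l289 (L l375 (T t21 N)))))))))) (K a29 (M a192 (F (T t159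 (L l289 (L l371 (L l375 (T t21 (L l130 (T t160 N))))))))) (K a38 (M a192 (F (T t1725 (L l301 (L l375 (T t450 (L l289 (L l375 (T t21 N))))))))) (K a42 (M a192 (F (T t496 (L l301 (L l375 (T t450 (L l56 (L l375 (T t157 N))))))))) (K a46 (M a192 (F (T t1725 (L l289 (L l375 (T t21 (L l26 (L l130 (L l408 (T t160 N)))))))))) (K a51 (M a192 (L l511 (F (T t1725 (L l301 (L l375 (L l415 (T t450 (L l289 (L l375 (L l439 (T t21 (K a103 (M a155 (F (T t159 (L l289 (L l375 (L l439 (T t35 (L l130 (L l301 (L l415 (T t543 N))))))))))) (K a155 (M a103 (F (T t159 (L l289 (L l375 (L l439 (T t35 (L l130 (L l301 (L l415 (T t543 N))))))))))) N)))))))))))))) N))))))))))))))))))))⟩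
def e0_63__207_39 : Ent 4 := ⟨[a0, a63], [a207, a91], (M a60 (F (T t116 (L l331 (T t67 (L l331 (T t43 (L l331 (T t68 (L l331 (T t69 (K a20 (M a48 (F (T t138 (L l11 (L l325 (L l481 (T t1 (L l11 (T t235 N))))))))) (K a40 (M a48 (F (T t48 (L l511 (T t64 (L l52 (T t235 N))))))) (K a21 (M a192 (F (T t2647 (L l131 (L l235 (L l347 (T t73 (L l347 (T t74 N))))))))) (K a41 (M a192 (F (T t1343 (L l291 (T t79 (L l65 (L l289 (T t35 N)))))))) (K a61 (M a192 (F (T t1800 (L l291 (T t79 (L l373 (T t80 N))))))) (K a22 (M a192 (F (T t237 (L l11 (L l291 (T t79 (L l11 (L l289 (T t35 N))))))))) (K a42 (M a192 (F (T t237 (L l291 (T t79 (L l22 (T t74 N))))))) (K a62 (M a192 (F (T t57 (L l291 (T t79 (L l66 (L l373 (L l516 (T t80 N))))))))) (K a3 (M a192 (L l331 (F (T t237 (L l291 (L l477 (T t79 (L l289 (L l475 (T t35 (K a71 (M a139 (F (T t1800 (L l235 (L l307 (L l373 (T t75 (L l291 (L l477 (T t1333 N)))))))))) (K a139 (M a71 (F (T t1800 (L l235 (L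 l307 (L l373 (T t75 (L l291 (L l477 (T t1333 N)))))))))) N)))))))))))) N))))))))))))))))))))⟩
def e0_63__207_40 : Ent 4 := ⟨[a0, a63], [a207, a95], (M a12 (F (T t150 (L l511 (T t122 (L l511 (T t151 (L l511 (T t152 (L l511 (T t153 (K a4 (M a60 (F (T t570 (L l46 (L l50 (L l331 (T t67 (T t448 N)))))))) (K a8 (M a60 (F (T t116 (L l325 (L l469 (T t398 (L l52 (L l56 (T t448 N))))))))) (K a21 (M a192 (F (T t158 (L l231 (T t156 (L l15 (L l347 (T t157 N)))))))) (K a25 (M a192 (F (T t158 (L l231 (T t156 (L l137 (L l289 (L l469 (T t21 N))))))))) (K a29 (M a192 (F (T t1681 (L l231 (T t156 (T t160 N)))))) (K a38 (M a192 (F (T t161 (L l231 (T t156 (L l137 (L l289 (L l469 (T t21 N))))))))) (K a42 (M a192 (F (T t161 (L l231 (T t156 (L l56 (T t157 N))))))) (K a46 (M a192 (F (T t57 (L l231 (T t156 (L l26 (L l408 (T t160 N)))))))) (K a51 (M a106 (L l511 (F (T t3609 (T t2474 (K a103 (M a155 (F (T t2419 (L l236 (L l489 (T t4429 (T t2415 N)))))))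 (K a155 (M a103 (F (T t2419 (L l236 (L l489 (T t4429 (T t2415 N))))))) N))))))) N))))))))))))))))))))⟩
def e0_63__207_41 : Ent 4 := ⟨[a0, a63], [a207, a96], (M a60 (F (T t116 (L l331 (T t67 (L l331 (T t43 (L l331 (T t68 (L l331 (T t69 (K a20 (M a48 (F (T t138 (L l11 (L l325 (T t1 (L l11 (T t235 N)))))))) (K a40 (M a48 (F (T t48 (L l511 (T t64 (L l52 (T t235 N))))))) (K a21 (M a192 (F (L l291 (T t77 (L l235 (L l347 (T t73 (L l347 (T t74 N))))))))) (K a41 (M a192 (F (T t254 (L l65 (L l289 (T t35 (L l235 (T t73 N)))))))) (K a61 (M a192 (F (T t1334 (L l65 (L l289 (L l515 (T t35 (L l100 (L l104 (T t80 N)))))))))) (K a22 (M a192 (F (T t614 (L l11 (L l291 (T t79 (L l11 (L l289 (T t35 N))))))))) (K a42 (M a192 (F (T t1334 (L l235 (T t73 (L l22 (T t74 N))))))) (K a62 (M a192 (F (T t57 (L l291 (T t79 (L l66 (L l100 (L l104 (L l516 (T t80 N)))))))))) (K a3 (M a85 (L l331 (F (T t447 (T t115 (K a71 (M a139 (F (T t2431 (L l236 (L l309 (L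 l484 (T t352 (T t523 N)))))))) (K a139 (M a71 (F (T t2431 (L l236 (L l309 (L l484 (T t352 (T t523 N)))))))) N))))))) N))))))))))))))))))))⟩
def e0_63__207_42 : Ent 4 := ⟨[a0, a63], [a207, a97], (M a60 (F (T t116 (L l331 (T t67 (L l331 (T t43 (L l331 (T t68 (L l331 (T t69 (K a20 (M a48 (F (T t277 (L l11 (L l325 (T t1 (L l11 (T t235 N)))))))) (K a40 (M a48 (F (T t246 (L l325 (T t1 (L l52 (T t235 N))))))) (K a21 (M a192 (F (T t2647 (L l235 (L l347 (L l488 (T t73 (L l347 (T t74 N))))))))) (K a41 (M a192 (F (T t81 (L l291 (T t79 (L l65 (L l289 (T t35 N)))))))) (K a61 (M a192 (F (T t1334 (L l65 (L l289 (L l515 (T t35 (T t80 N)))))))) (K a22 (M a192 (F (T t614 (L l11 (L l291 (T t79 (L l11 (L l289 (T t35 N))))))))) (K a42 (M a192 (F (T t614 (L l291 (T t79 (L l22 (T t74 N))))))) (K a62 (M a192 (F (T t57 (L l291 (T t79 (L l66 (L l516 (T t80 N)))))))) (K a3 (M a149 (L l331 (F (T t5317 (L l485 (T t1256 (K a71 (M a139 (F (T t25 (L l236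 (L l309 (L l485 (T t1022 (L l485 (T t462 N))))))))) (K a139 (M a71 (F (T t25 (L l236 (L l309 (L l485 (T t1022 (L l485 (T t462 N))))))))) N)))))))) N))))))))))))))))))))⟩
def e0_63__207_43 : Ent 4 := ⟨[a0, a63], [a207, a98], (M a60 (F (T t116 (L l331 (T t67 (L l331 (T t43 (L l331 (T t68 (L l331 (T t69 (K a20 (M a48 (F (T t138 (L l11 (L l325 (T t1 (L l11 (T t235 N)))))))) (K a40 (M a48 (F (T t246 (L l325 (T t1 (L l52 (T t235 N))))))) (K a21 (M a192 (F (L l291 (T t72 (L l235 (L l347 (T t73 (L l347 (T t74 N))))))))) (K a41 (M a192 (F (T t254 (L l65 (L l289 (T t35 (L l235 (T t73 N)))))))) (K a61 (M a192 (F (T t254 (L l65 (L l289 (L l515 (T t35 (L l102 (T t80 N))))))))) (K a22 (M a192 (F (T t614 (L l11 (L l291 (T t79 (L l11 (L l289 (T t35 N))))))))) (K a42 (M a192 (F (T t614 (L l291 (T t79 (L l22 (T t74 N))))))) (K a62 (M a192 (F (T t57 (L l291 (T t79 (L l66 (L l102 (L l516 (T t80 N))))))))) (K a3 (M a85 (L l331 (F (T t447 (T t115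 (K a71 (M a139 (F (T t447 (T t115 N)))) (K a139 (M a71 (F (T t447 (T t115 N)))) N))))))) N))))))))))))))))))))⟩
def e0_63__207_44 : Ent 4 := ⟨[a0, a63], [a207, a99], (M a60 (F (T t116 (L l331 (T t67 (L l331 (T t43 (L l331 (T t68 (L l331 (T t69 (K a20 (M a48 (F (T t138 (L l11 (L l325 (T t1 (L l11 (T t235 N)))))))) (K a40 (M a48 (F (T t246 (L l325 (T t1 (L l52 (T t235 N))))))) (K a21 (M a192 (F (T t2647 (L l103 (L l235 (L l347 (L l487 (T t73 (L l347 (T t74 N)))))))))) (K a41 (M a192 (F (T t1343 (L l291 (T t79 (L l65 (L l289 (T t35 N)))))))) (K a61 (M a192 (F (T t1334 (L l65 (L l289 (L l515 (T t35 (T t80 N)))))))) (K a22 (M a192 (F (T t237 (L l11 (L l291 (T t79 (L l11 (L l289 (T t35 N))))))))) (K a42 (M a192 (F (T t237 (L l291 (T t79 (L l22 (T t74 N))))))) (K a62 (M a192 (F (T t57 (L l291 (T t79 (L l66 (L l516 (T t80 N)))))))) (K a3 (M a192 (L l331 (F (T t237 (L l291 (L l477 (T t79 (L l289 (L l475 (T t35 (K a71 (M a139 (F (T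 t1800 (L l235 (L l307 (L l487 (T t75 (L l291 (L l477 (T t1333 N)))))))))) (K a139 (M a71 (F (T t1800 (L l235 (L l307 (L l487 (T t75 (L l291 (L l477 (T t1333 N)))))))))) N)))))))))))) N))))))))))))))))))))⟩
def e0_63__207_45 : Ent 4 := ⟨[a0, a63], [a207, a101], (M a48 (F (L l325 (T t2 (L l491 (T t48 (L l325 (L l491 (T t1 (L l325 (T t3 (L l325 (L l404 (T t0 (K a16 (M a60 (F (T t277 (L l14 (L l18 (L l331 (T t67 (T t65 N)))))))) (K a32 (M a170 (F (L l289 (T t2190 (L l123 (L l151 (L l303 (T t514 (L l236 (L l491 (T t5795 N))))))))))) (K a21 (M a80 (F (L l236 (T t4032 (L l289 (T t3336 (L l104 (L l289 (L l347 (L l404 (L l491 (T t5796 (L l47 (L l236 (L l404 (L l491 (T t1677 N))))))))))))))))) (K a37 (M a52 (L l383 (F (T t555 (L l326 (T t82 (L l21 (L l28 (T t84 (K a165 (M a229 (F (T t555 (L l326 (T t82 (L l21 (L l28 (T t84 N)))))))) (K a229 (M a165 (L l303 (F (T t555 (L l326 (T t82 (L l21 (L l28 (T t84 (K a240 (M a218 (F (T t555 (L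 l326 (L l478 (T t82 (L l21 (L l28 (T t84 N))))))))) (K a218 (M a240 (F (T t555 (L l151 (L l236 (L l354 (T t5797 N))))))) N))))))))))) N))))))))))) (K a53 (M a149 (F (L l236 (T t5 (L l104 (L l151 (L l303 (T t13 (L l289 (L l404 (T t5798 N))))))))))) (K a26 (M a192 (F (L l289 (L l491 (T t21 (L l151 (L l303 (T t27 (L l54 (L l104 (L l289 (L l404 (T t521 N))))))))))))) (K a42 (M a80 (F (L l303 (T t1678 (L l289 (L l491 (T t942 (L l28 (L l104 (L l289 (L l404 (L l491 (T t5796 (L l28 (L l236 (L l404 (L l491 (T t1677 N)))))))))))))))))) (K a58 (M a192 (F (T t36 (L l289 (L l491 (T t21 (L l54 (L l104 (L l289 (L l404 (L l498 (T t521 N)))))))))))) (K a15 (M a192 (L l325 (F (T t36 (L l289 (L l469 (L l491 (T t21 (L l104 (L l289 (L l404 (T t521 (K a79 (M a143 (L l151 (F (T t36 (L l289 (L l469 (L l491 (T t35 (L l104 (L l289 (L l404 (T t521 (K a112 (M a90 (F (L l491 (T t57 (L l104 (L l116 (L l303 (L l404 (T t28 (L l104 (L l137 (L l469 (T t5799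 (L l404 (L l491 (T t5800 N)))))))))))))))) (K a90 (M a112 (L l483 (F (T t5801 (L l137 (L l289 (L l469 (T t346 (K a240 (M a165 (L l303 (F (T t5801 (L l137 (L l266 (L l289 (L l375 (L l469 (L l491 (T t21 (L l104 (L l130 (L l289 (L l404 (T t521 (K a229 (M a218 (F (T t5801 (L l256 (L l266 (L l289 (L l375 (L l469 (L l491 (T t35 (L l104 (L l130 (L l275 (L l289 (L l404 (T t521 N)))))))))))))))) (K a218 (M a229 (L l354 (F (T t5801 (L l375 (L l491 (T t5802 (K a26 (Fr a154 a176 l227 (V t5801)) (K a154 (M a26 (F (T t4134 (T t5801 N)))) N))))))))) N)))))))))))))))))) (K a165 (Fr a240 a176 l412 (V t5801)) N)))))))))) N)))))))))))))) (K a143 (M a79 (F (L l160 (T t36 (L l289 (L l469 (L l491 (T t35 (L l104 (L l289 (L l404 (T t521 N)))))))))))) N)))))))))))))) N)))))))))))))))))))))))⟩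
def e0_63__207_46 : Ent 4 := ⟨[a0, a63], [a207, a102], (M a60 (F (T t116 (L l331 (T t67 (L l331 (T t43 (L l331 (T t68 (L l331 (T t69 (K a20 (M a48 (F (T t138 (L l11 (L l325 (T t1 (L l11 (T t235 N)))))))) (K a40 (M a48 (F (T t246 (L l325 (T t1 (L l52 (T t235 N))))))) (K a21 (M a192 (F (T t2658 (L l235 (L l347 (L l495 (T t73 (L l347 (L l495 (T t74 N)))))))))) (K a41 (M a192 (F (T t254 (L l65 (L l289 (L l495 (T t35 (L l235 (L l495 (T t73 N)))))))))) (K a61 (M a192 (F (T t1334 (L l65 (L l289 (L l495 (L l515 (T t35 (L l102 (T t80 N)))))))))) (K a22 (M a192 (F (T t2658 (L l289 (L l495 (T t21 (L l235 (L l495 (T t73 N))))))))) (K a42 (M a192 (F (T t254 (L l235 (L l495 (T t73 (L l22 (L l495 (T t74 N))))))))) (K a62 (M a192 (F (T t2658 (L l289 (L l495 (T t35 (L l66 (L l102 (L l516 (T t80 N)))))))))) (K a3 (M a192 (L l331 (F (T t2658 (L l289 (L l475 (L l495 (T t35 (L l235 (L l307 (L l495 (T t73 (K a71 (M a139 (F (T t1334 (L l289 (L l475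 (L l495 (T t35 (L l102 (L l235 (L l307 (T t75 N))))))))))) (K a139 (M a71 (F (T t1334 (L l289 (L l475 (L l495 (T t35 (L l102 (L l235 (L l307 (T t75 N))))))))))) N)))))))))))))) N))))))))))))))))))))⟩
def e0_63__207_47 : Ent 4 := ⟨[a0, a63], [a207, a103], (M a51 (F (T t1355 (L l326 (T t1294 (L l326 (T t589 (L l326 (T t1296 (L l326 (L l493 (T t592 (K a12 (M a106 (L l326 (F (T t5803 (L l493 (T t5804 (K a77 (M a142 (F (T t5803 (L l493 (T t5804 N))))) (K a142 (M a77 (F (T t5803 (L l493 (T t5804 N))))) N)))))))) (K a17 (M a48 (F (T t5805 (L l15 (L l325 (T t1 (L l41 (T t1902 N)))))))) (K a21 (M a192 (F (T t5023 (L l15 (L l301 (T t5032 (L l15 (T t3255 N)))))))) (K a25 (M a192 (F (T t5806 (L l289 (T t21 (L l231 (T t5021 N))))))) (K a34 (M a48 (F (T t48 (L l42 (L l506 (T t1995 (L l26 (T t1902 N)))))))) (K a38 (M a192 (F (T t5807 (L l50 (L l289 (T t35 (L l231 (T t5021 N)))))))) (K a42 (M a192 (F (T t5807 (L l231 (L l390 (T t5021 (L l56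 (L l390 (T t3255 N))))))))) (K a55 (M a192 (L l493 (F (T t1681 (L l301 (T t5032 (L l50 (L l495 (T t1714 (K a199 (M a151 (L l235 (F (T t5808 (L l103 (L l506 (T t3751 (K a195 (M a203 (F (T t5806 (L l50 (L l289 (L l295 (L l495 (T t35 (T t5022 N))))))))) (K a203 (Fr a195 a107 l517 (V t4416)) N))))))))) (K a151 (M a199 (F (T t5808 (L l50 (L l163 (L l289 (L l495 (T t35 (T t5022 N))))))))) N))))))))))) (K a59 (M a192 (F (T t5807 (L l289 (T t35 (T t1714 N)))))) N)))))))))))))))))))))⟩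
def e0_63__207_48 : Ent 4 := ⟨[a0, a63], [a207, a106], (M a12 (F (T t150 (L l511 (T t122 (L l390 (L l408 (L l511 (T t151 (L l501 (L l511 (T t152 (L l390 (L l511 (T t153 (K a4 (M a60 (F (T t1413 (L l46 (L l50 (L l331 (L l393 (T t67 (L l390 (L l408 (T t448 N))))))))))) (K a8 (M a60 (F (T t2568 (L l325 (T t398 (L l52 (L l56 (L l390 (L l408 (T t448 N)))))))))) (K a21 (M a255 (F (L l231 (T t2486 (L l301 (L l390 (T t2137 (L l50 (L l144 (L l347 (L l408 (T t2487 N)))))))))))) (K a25 (M a48 (F (T t865 (L l15 (L l325 (T t1 (L l12 (L l56 (L l390 (L l498 (T t866 N))))))))))) (K a29 (M a48 (F (T t145 (L l15 (L l325 (T t1 (L l390 (L l498 (T t866 N))))))))) (K a38 (M a48 (F (T t867 (L l26 (L l325 (L l390 (L l498 (T t2 (L l21 (L l50 (T t868 N))))))))))) (K a42 (M a170 (F (L l301 (T t2497 (L l144 (L l231 (T t2498 (L l26 (L l132 (L l144 (L l408 (T t2499 (L l26 (L l301 (L l408 (T t2500 N)))))))))))))))) (K a46 (M a48 (L l408 (F (T t48 (L l506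 (T t443 (L l26 (L l390 (L l498 (T t866 (K a226 (M a166 (F (T t48 (L l132 (L l289 (L l396 (T t2624 N))))))) (K a166 (M a226 (F (T t48 (L l506 (T t1580 (L l26 (L l390 (L l498 (T t866 N))))))))) N)))))))))))) (K a51 (M a16 (L l511 (F (T t2517 (L l73 (L l325 (L l390 (T t97 (L l390 (L l408 (T t872 (K a103 (M a155 (F (T t652 (L l73 (L l325 (L l390 (T t97 (L l390 (L l408 (T t872 N)))))))))) (K a155 (M a103 (F (T t652 (L l73 (L l325 (L l390 (T t97 (L l390 (L l408 (T t872 N)))))))))) N))))))))))))) N))))))))))))))))))))))))⟩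
def e0_63__207_49 : Ent 4 := ⟨[a0, a63], [a207, a107], (M a60 (F (T t522 (L l331 (L l391 (T t67 (L l331 (T t43 (L l331 (T t68 (L l331 (T t69 (K a20 (M a48 (F (T t132 (L l511 (T t64 (L l11 (T t235 N))))))) (K a40 (M a48 (F (T t48 (L l511 (T t64 (L l52 (T t235 N))))))) (K a21 (M a192 (F (L l291 (T t77 (L l98 (L l235 (T t1516 (L l143 (L l347 (T t74 N)))))))))) (K a41 (M a192 (F (T t254 (L l65 (L l289 (T t35 (L l98 (L l235 (T t1516 N))))))))) (K a61 (M a192 (F (T t254 (L l65 (L l289 (L l515 (T t35 (L l98 (T t2718 N))))))))) (K a22 (M a192 (F (L l291 (T t77 (L l143 (L l289 (T t21 (L l66 (L l98 (L l235 (T t1516 N))))))))))) (K a42 (M a192 (F (T t1334 (L l66 (L l98 (L l235 (L l390 (T t1516 (L l22 (L l143 (T t74 N))))))))))) (K a62 (M a192 (F (T t57 (L l291 (T t79 (L l66 (L l98 (L l516 (T t2718 N))))))))) (K a3 (M a106 (L l331 (F (T t2792 (T t1513 (K a71 (M a139 (F (T t3759 (L l291 (L l477 (T t565 (L l289 (L l475 (T t4708 N)))))))))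 (K a139 (M a71 (F (T t3759 (L l291 (L l477 (T t565 (L l289 (L l475 (T t4708 N))))))))) N))))))) N)))))))))))))))))))))⟩
def e0_63__207_50 : Ent 4 := ⟨[a0, a63], [a207, a111], (M a60 (F (T t116 (L l331 (T t67 (L l331 (T t43 (L l331 (T t68 (L l331 (T t69 (K a20 (M a48 (F (T t138 (L l11 (L l325 (T t1 (L l11 (T t235 N)))))))) (K a40 (M a48 (F (T t48 (L l511 (T t64 (L l52 (T t235 N))))))) (K a21 (M a192 (F (T t2658 (L l103 (L l235 (L l347 (T t73 (L l137 (L l347 (T t74 N)))))))))) (K a41 (M a192 (F (T t254 (L l65 (L l289 (T t35 (L l103 (L l235 (T t73 N))))))))) (K a61 (M a192 (F (T t1334 (L l65 (L l289 (L l515 (T t35 (L l104 (T t80 N))))))))) (K a22 (M a192 (F (T t237 (L l11 (L l291 (T t79 (L l11 (L l289 (T t35 N))))))))) (K a42 (M a192 (F (T t237 (L l291 (T t79 (L l22 (L l137 (T t74 N)))))))) (K a62 (M a192 (F (T t57 (L l291 (T t79 (L l66 (L l104 (L l516 (T t80 N))))))))) (K a3 (M a192 (L l331 (F (T t237 (L l291 (L l477 (T t79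 (L l289 (L l475 (T t35 (K a71 (M a139 (F (T t57 (L l104 (L l235 (L l307 (T t75 (L l291 (L l477 (T t1333 N)))))))))) (K a139 (M a71 (F (T t57 (L l104 (L l235 (L l307 (T t75 (L l291 (L l477 (T t1333 N)))))))))) N)))))))))))) N))))))))))))))))))))⟩
def e0_63__207_51 : Ent 4 := ⟨[a0, a63], [a207, a112], (M a12 (F (T t150 (L l511 (T t122 (L l511 (T t151 (L l511 (T t152 (L l511 (T t153 (K a4 (M a60 (F (T t570 (L l46 (L l50 (L l331 (T t67 (T t448 N)))))))) (K a8 (M a60 (F (T t570 (L l331 (T t67 (L l52 (L l56 (T t448 N)))))))) (K a21 (M a192 (F (T t158 (L l146 (L l231 (T t156 (L l15 (L l347 (T t157 N))))))))) (K a25 (M a192 (F (T t158 (L l146 (L l231 (T t156 (L l114 (L l289 (T t21 N))))))))) (K a29 (M a192 (F (T t496 (L l114 (L l289 (L l371 (T t21 (T t160 N)))))))) (K a38 (M a192 (F (T t161 (L l146 (L l231 (T t156 (L l114 (L l289 (T t21 N))))))))) (K a42 (M a192 (F (T t161 (L l146 (L l231 (T t156 (L l56 (T t157 N)))))))) (K a46 (M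 a192 (F (T t57 (L l146 (L l231 (T t156 (L l26 (L l408 (T t160 N))))))))) (K a51 (M a192 (L l511 (F (T t57 (L l146 (L l231 (L l513 (T t156 (L l301 (L l415 (T t450 (K a103 (M a155 (F (T t57 (L l301 (L l415 (T t543 (L l231 (L l513 (T t468 N))))))))) (K a155 (M a103 (F (T t57 (L l301 (L l415 (T t543 (L l231 (L l513 (T t468 N))))))))) N))))))))))))) N))))))))))))))))))))⟩
def e0_63__207_52 : Ent 4 := ⟨[a0, a63], [a207, a113], (M a12 (F (T t150 (L l511 (T t122 (L l511 (T t151 (L l511 (T t152 (L l511 (T t153 (K a4 (M a60 (F (T t570 (L l46 (L l50 (L l331 (T t67 (T t448 N)))))))) (K a8 (M a60 (F (T t570 (L l331 (T t67 (L l52 (L l56 (T t448 N)))))))) (K a21 (M a192 (F (T t158 (L l231 (T t156 (L l15 (L l347 (T t157 N)))))))) (K a25 (M a192 (F (T t158 (L l231 (T t156 (L l289 (T t21 N))))))) (K a29 (M a192 (F (T t159 (L l289 (L l371 (T t21 (T t160 N))))))) (K a38 (M a192 (F (T t161 (L l231 (T t156 (L l289 (T t21 N))))))) (K a42 (M a192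 (F (T t161 (L l231 (T t156 (L l56 (T t157 N))))))) (K a46 (M a192 (F (T t57 (L l231 (T t156 (L l26 (L l408 (T t160 N)))))))) (K a51 (M a192 (L l511 (F (T t47 (L l231 (L l513 (T t156 (L l301 (L l415 (L l416 (T t450 (K a103 (M a155 (F (T t1800 (L l301 (L l415 (L l416 (T t543 (L l231 (L l513 (T t468 N)))))))))) (K a155 (M a103 (F (T t1800 (L l301 (L l415 (L l416 (T t543 (L l231 (L l513 (T t468 N)))))))))) N))))))))))))) N))))))))))))))))))))⟩
def e0_63__207_53 : Ent 4 := ⟨[a0, a63], [a207, a114], (M a60 (F (T t116 (L l331 (T t67 (L l331 (T t43 (L l331 (T t68 (L l331 (T t69 (K a20 (M a48 (F (T t138 (L l11 (L l325 (T t1 (L l11 (T t235 N)))))))) (K a40 (M a48 (F (T t246 (L l325 (T t1 (L l52 (T t235 N))))))) (K a21 (M a192 (F (T t1343 (L l11 (L l291 (T t79 (L l347 (T t74 N)))))))) (K a41 (M a192 (F (T t81 (L l291 (T t79 (L l65 (L l289 (T t35 N)))))))) (K a61 (M a192 (F (T t1334 (L l65 (L l289 (L l515 (T t35 (T t80 N)))))))) (K a22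 (M a192 (F (T t614 (L l11 (L l291 (T t79 (L l11 (L l289 (T t35 N))))))))) (K a42 (M a192 (F (T t614 (L l291 (T t79 (L l22 (T t74 N))))))) (K a62 (M a192 (F (T t57 (L l291 (T t79 (L l66 (L l516 (T t80 N)))))))) (K a3 (M a192 (L l331 (F (T t237 (L l291 (L l477 (T t79 (L l289 (L l475 (T t35 (K a71 (M a139 (F (T t1800 (L l235 (L l307 (T t75 (L l291 (L l477 (T t1333 N))))))))) (K a139 (M a71 (F (T t1800 (L l235 (L l307 (T t75 (L l291 (L l477 (T t1333 N))))))))) N)))))))))))) N))))))))))))))))))))⟩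
def e0_63__207_54 : Ent 4 := ⟨[a0, a63], [a207, a115], (M a60 (F (T t116 (L l331 (T t67 (L l331 (T t43 (L l331 (T t68 (L l331 (T t69 (K a20 (M a48 (F (T t138 (L l11 (L l325 (T t1 (L l11 (T t235 N)))))))) (K a40 (M a48 (F (T t246 (L l325 (T t1 (L l52 (T t235 N))))))) (K a21 (M a192 (F (T t1343 (L l11 (L l291 (T t79 (L l113 (L l347 (T t74 N))))))))) (K a41 (M a192 (F (T t1343 (L l291 (T t79 (L l65 (L l289 (T t35 N)))))))) (K a61 (M a192 (F (T t1334 (L l65 (L l289 (L l515 (T t35 (T t80 N)))))))) (K a22 (M a192 (F (T t614 (L l11 (L l291 (T t79 (L l11 (L l289 (T t35 N))))))))) (K a42 (M a192 (F (T t614 (L l291 (T t79 (L l22 (L l113 (T t74 N)))))))) (K a62 (M a192 (F (T t57 (L l291 (T t79 (L l66 (L l516 (T t80 N)))))))) (K a3 (M a192 (L l331 (F (T t1343 (L l291 (L l477 (T t79 (L l289 (L l475 (T t35 (K a71 (M a139 (F (T t57 (L l235 (L l307 (T t75 (L l120 (L l291 (L l477 (T t1333 N)))))))))) (K a139 (M a71 (F (T t57 (L l235 (L l307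 (T t75 (L l120 (L l291 (L l477 (T t1333 N)))))))))) N)))))))))))) N))))))))))))))))))))⟩
def e0_63__207_55 : Ent 4 := ⟨[a0, a63], [a207, a117], (M a12 (F (T t150 (L l511 (T t122 (L l511 (T t151 (L l511 (T t152 (L l511 (T t153 (K a4 (M a60 (F (T t570 (L l46 (L l50 (L l331 (T t67 (T t448 N)))))))) (K a8 (M a60 (F (T t570 (L l331 (T t67 (L l52 (L l56 (T t448 N)))))))) (K a21 (M a192 (F (T t158 (L l231 (T t156 (L l15 (L l347 (L l422 (T t157 N))))))))) (K a25 (M a192 (F (T t158 (L l231 (T t156 (L l114 (L l289 (L l440 (T t21 N))))))))) (K a29 (M a192 (F (T t1681 (L l231 (T t156 (T t160 N)))))) (K a38 (M a192 (F (T t161 (L l231 (T t156 (L l114 (L l289 (L l440 (T t21 N))))))))) (K a42 (M a192 (F (T t161 (L l231 (T t156 (L l56 (L l422 (T t157 N)))))))) (K a46 (M a192 (F (T t57 (L l231 (T t156 (L l26 (L l408 (T t160 N)))))))) (K a51 (M a106 (L l511 (F (T t3609 (T t2474 (K a103 (M a155 (F (T t3609 (T t2474 N)))) (K a155 (M a103 (F (T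 t3609 (T t2474 N)))) N))))))) N))))))))))))))))))))⟩
def e0_63__207_56 : Ent 4 := ⟨[a0, a63], [a207, a118], (M a60 (F (T t116 (L l331 (T t67 (L l331 (T t43 (L l331 (T t68 (L l331 (T t69 (K a20 (M a48 (F (T t138 (L l11 (L l325 (T t1 (L l11 (T t235 N)))))))) (K a40 (M a48 (F (T t246 (L l325 (T t1 (L l52 (T t235 N))))))) (K a21 (M a192 (F (T t2647 (L l235 (L l347 (T t73 (L l347 (T t74 N)))))))) (K a41 (M a192 (F (T t1343 (L l291 (L l441 (T t79 (L l65 (L l289 (T t35 N))))))))) (K a61 (M a192 (F (T t1800 (L l291 (L l441 (T t79 (T t80 N))))))) (K a22 (M a192 (F (T t2658 (L l289 (T t21 (L l235 (T t73 N))))))) (K a42 (M a192 (F (T t614 (L l291 (L l441 (T t79 (L l22 (T t74 N)))))))) (K a62 (M a192 (F (T t57 (L l291 (L l441 (T t79 (L l66 (L l516 (T t80 N))))))))) (K a3 (M a192 (L l331 (F (T t1343 (L l291 (L l441 (L l477 (T t79 (L l289 (L l475 (T t35 (K a71 (M a139 (F (T t1800 (L l235 (L l307 (T t75 (L l291 (L l441 (L l477 (T t1333 N))))))))))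 (K a139 (M a71 (F (T t1800 (L l235 (L l307 (T t75 (L l291 (L l441 (L l477 (T t1333 N)))))))))) N))))))))))))) N))))))))))))))))))))⟩
def e0_63__207_57 : Ent 4 := ⟨[a0, a63], [a207, a119], (M a48 (F (T t48 (L l325 (T t1 (L l325 (T t2 (L l325 (T t3 (L l325 (T t0 (K a16 (M a60 (F (T t138 (L l14 (L l18 (L l331 (T t67 (T t65 N)))))))) (K a32 (M a60 (F (T t116 (L l439 (L l511 (T t64 (L l24 (L l28 (T t65 N))))))))) (K a21 (M a80 (F (T t1831 (L l47 (L l289 (L l439 (T t942 (L l289 (T t1676 (L l47 (L l236 (T t1677 N)))))))))))) (K a37 (M a192 (F (T t36 (L l113 (L l289 (L l439 (T t21 (L l28 (T t31 N))))))))) (K a53 (M a192 (F (T t1681 (L l303 (T t27 (T t31 N)))))) (K a26 (M a192 (F (T t1922 (L l113 (L l289 (L l439 (T t21 (L l54 (T t31 N))))))))) (K a42 (M a80 (F (L l303 (T t1678 (L l289 (L l439 (T t942 (L l28 (L l289 (L l390 (T t1676 (L l28 (L l236 (T t1677 N)))))))))))))) (K a58 (M a192 (F (T t57 (L l303 (T t27 (L l54 (L l498 (T t31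 N)))))))) (K a15 (M a192 (L l325 (F (T t1681 (L l303 (L l483 (T t27 (T t31 (K a79 (M a143 (F (T t36 (L l289 (L l439 (L l469 (T t35 (L l137 (T t525 N))))))))) (K a143 (M a79 (F (T t2113 (L l289 (L l439 (L l469 (T t35 (T t525 N)))))))) N)))))))))) N))))))))))))))))))))⟩
def e0_63__207_58 : Ent 4 := ⟨[a0, a63], [a207, a122], (M a12 (F (T t150 (L l511 (T t122 (L l511 (T t151 (L l429 (L l511 (T t152 (L l511 (T t153 (K a4 (M a60 (F (T t423 (L l46 (L l50 (L l331 (T t67 (T t448 N)))))))) (K a8 (M a60 (F (T t116 (L l325 (T t398 (L l52 (L l56 (T t448 N)))))))) (K a21 (M a192 (F (T t2119 (L l15 (L l301 (L l347 (T t450 (L l15 (L l347 (T t157 N)))))))))) (K a25 (M a192 (F (T t496 (L l15 (L l301 (T t450 (L l114 (L l289 (T t21 N))))))))) (K a29 (M a192 (F (T t159 (L l114 (L l289 (L l371 (T t21 (L l130 (T t160 N))))))))) (K a38 (M a192 (F (T t161 (L l231 (T t156 (L l114 (L l289 (T t21 N)))))))) (K a42 (M a192 (F (T t161 (L l231 (T t156 (L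 l56 (T t157 N))))))) (K a46 (M a192 (F (T t57 (L l231 (T t156 (L l26 (L l130 (L l408 (T t160 N))))))))) (K a51 (M a106 (L l511 (F (T t3609 (T t2474 (K a103 (M a155 (F (T t3759 (L l236 (L l489 (T t3885 (T t2415 N))))))) (K a155 (M a103 (F (T t3759 (L l236 (L l489 (T t3885 (T t2415 N))))))) N))))))) N)))))))))))))))))))))⟩
def e0_63__207_59 : Ent 4 := ⟨[a0, a63], [a207, a123], (M a12 (F (T t150 (L l511 (T t122 (L l511 (T t151 (L l427 (L l511 (T t152 (L l511 (T t153 (K a4 (M a60 (F (T t570 (L l46 (L l50 (L l331 (T t67 (T t448 N)))))))) (K a8 (M a60 (F (T t570 (L l331 (T t67 (L l52 (L l56 (T t448 N)))))))) (K a21 (M a192 (F (L l132 (L l301 (T t221 (L l231 (T t156 (L l15 (L l347 (T t157 N)))))))))) (K a25 (M a192 (F (T t159 (L l132 (L l301 (T t221 (L l113 (L l289 (T t21 N))))))))) (K a29 (M a192 (F (T t496 (L l113 (L l289 (L l371 (T t21 (L l132 (T t2539 N))))))))) (K a38 (M a192 (F (L l231 (T t156 (L l26 (L l132 (L l301 (T t221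 (L l113 (L l289 (T t21 N))))))))))) (K a42 (M a192 (F (T t159 (L l26 (L l132 (L l301 (L l390 (T t221 (L l56 (T t157 N)))))))))) (K a46 (M a192 (F (T t57 (L l231 (T t156 (L l26 (L l132 (L l408 (T t2539 N))))))))) (K a51 (M a106 (L l511 (F (T t3609 (T t2474 (K a103 (M a155 (F (T t3759 (L l231 (L l513 (T t2305 (L l289 (L l439 (T t5809 N))))))))) (K a155 (M a103 (F (T t3759 (L l231 (L l513 (T t2305 (L l289 (L l439 (T t5809 N))))))))) N))))))) N)))))))))))))))))))))⟩
def e0_63__207_60 : Ent 4 := ⟨[a0, a63], [a207, a127], (M a12 (F (T t150 (L l511 (T t122 (L l511 (T t151 (L l511 (T t152 (L l511 (T t153 (K a4 (M a60 (F (T t570 (L l46 (L l50 (L l331 (T t67 (T t448 N)))))))) (K a8 (M a60 (F (T t570 (L l331 (T t67 (L l52 (L l56 (T t448 N)))))))) (K a21 (M a192 (F (L l231 (T t468 (L l15 (L l301 (L l347 (T t450 (L l50 (L l144 (T t2473 N))))))))))) (K a25 (M a192 (F (T t496 (L l15 (L l301 (T t450 (L l56 (L l144 (L l289 (T t37 N))))))))))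 (K a29 (M a192 (F (T t496 (L l144 (L l289 (T t37 (L l15 (L l113 (L l371 (T t776 N)))))))))) (K a38 (M a192 (F (T t161 (L l138 (L l231 (T t156 (L l26 (L l144 (L l289 (T t37 N)))))))))) (K a42 (M a192 (F (T t161 (L l138 (L l231 (T t156 (L l26 (L l144 (L l390 (T t2473 N)))))))))) (K a46 (M a192 (F (T t496 (L l26 (L l144 (L l289 (L l408 (T t37 (L l113 (T t776 N)))))))))) (K a51 (M a106 (L l511 (F (T t3609 (T t2474 (K a103 (M a155 (F (T t3609 (T t2474 N)))) (K a155 (M a103 (F (T t3609 (T t2474 N)))) N))))))) N))))))))))))))))))))⟩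
def e0_63__207_61 : Ent 4 := ⟨[a0, a63], [a207, a192], (M a12 (L l236 (F (T t150 (L l489 (L l511 (T t122 (L l489 (L l511 (T t151 (L l489 (L l511 (T t152 (L l489 (L l511 (T t153 (K a4 (M a60 (L l236 (F (T t570 (L l46 (L l50 (L l309 (L l331 (T t67 (T t448 (K a197 (M a202 (F (T t662 (L l325 (L l339 (T t680 (L l46 (L l50 (T t1096 N))))))))) (K a202 (M a197 (F (T t662 (L l325 (L l339 (T t680 (L l46 (L l50 (T t1096 N))))))))) N)))))))))))) (K a8 (M a60 (L l236 (F (T t116 (L l325 (L l339 (T t398 (L l52 (L l56 (T t448 (K a197 (M a202 (F (T t570 (L l56 (L l309 (L l331 (T t69 (T t1096 N)))))))) (K a202 (M a197 (F (T t570 (L l56 (L l309 (L l331 (T t69 (T t1096 N)))))))) N)))))))))))) (K a21 (M a255 (L l236 (F (T t2030 (L l272 (L l301 (L l347 (T t2031 (L l15 (L l272 (T t2032 (K a197 (M a202 (F (T t2126 (L l231 (L l232 (T t2124 (L l15 (L l272 (T t2032 N))))))))) (K a202 (M a197 (F (T t2126 (L l231 (L l232 (T t2124 (L l15 (L l272 (T t2032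 N))))))))) N))))))))))))) (K a25 (M a48 (L l236 (F (T t865 (L l15 (L l325 (L l339 (T t1 (L l12 (L l56 (T t866 (K a197 (M a202 (F (T t865 (L l15 (L l325 (L l339 (T t3 (L l12 (L l56 (L l311 (T t866 N))))))))))) (K a202 (M a197 (F (T t865 (L l15 (L l325 (L l339 (T t3 (L l12 (L l56 (L l498 (T t866 N))))))))))) N))))))))))))) (K a29 (M a5 (L l236 (F (T t1428 (L l484 (L l512 (T t1110 (T t5341 (K a197 (M a202 (F (T t1428 (L l484 (L l491 (L l512 (T t1110 (T t5341 N)))))))) (K a202 (M a197 (F (T t1428 (L l296 (L l512 (T t5810 N)))))) N)))))))))) (K a38 (M a48 (L l236 (F (T t867 (L l26 (L l325 (L l339 (T t2 (L l21 (L l50 (T t868 (K a197 (M a202 (F (T t867 (L l26 (L l311 (L l325 (L l339 (T t2 (L l21 (L l50 (L l491 (T t868 N)))))))))))) (K a202 (M a197 (F (T t867 (L l26 (L l325 (L l339 (L l498 (T t2 (L l21 (L l50 (L l318 (T t868 N)))))))))))) N))))))))))))) (K a42 (M a255 (L l236 (F (T t2033 (L l26 (L l231 (L l232 (T t2034 (L l56 (L l272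 (L l390 (T t2032 (K a197 (M a202 (F (T t2130 (L l272 (L l301 (L l390 (T t2123 (L l56 (L l272 (L l390 (T t2032 N))))))))))) (K a202 (M a197 (F (T t2130 (L l272 (L l301 (L l390 (T t2123 (L l56 (L l272 (L l390 (T t2032 N))))))))))) N)))))))))))))) (K a46 (M a5 (L l236 (F (T t1428 (L l26 (L l484 (L l512 (T t1110 (L l26 (T t5344 (K a197 (M a202 (F (T t1428 (L l26 (L l484 (L l491 (L l512 (T t1110 (L l26 (T t5344 N)))))))))) (K a202 (M a197 (F (T t1428 (L l26 (L l296 (L l512 (T t5810 N))))))) N)))))))))))) (K a51 (M a16 (L l236 (L l489 (L l511 (F (T t112 (L l39 (L l506 (L l514 (T t871 (T t872 (K a145 (M a98 (L l236 (L l511 (F (T t112 (L l39 (L l506 (L l514 (T t871 (T t872 (K a197 (M a202 (L l511 (F (T t652 (L l73 (L l325 (L l339 (T t97 (T t872 (K a103 (M a155 (F (T t652 (L l73 (L l325 (L l339 (T t97 (T t872 N)))))))) (K a155 (M a103 (F (T t652 (L l73 (L l325 (L l339 (T t97 (T t872 N)))))))) N))))))))))) (K a202 (M a197 (L l511 (F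 (T t652 (L l73 (L l325 (L l339 (T t97 (T t872 (K a103 (M a155 (F (T t652 (L l73 (L l325 (L l339 (T t97 (T t872 N)))))))) (K a155 (M a103 (F (T t652 (L l73 (L l325 (L l339 (T t97 (T t872 N)))))))) N))))))))))) (K a103 (M a155 (L l236 (F (T t112 (L l39 (L l506 (L l514 (T t871 (T t872 (K a197 (M a202 (F (T t652 (L l73 (L l325 (L l339 (T t97 (T t872 N)))))))) (K a202 (M a197 (F (T t652 (L l73 (L l325 (L l339 (T t97 (T t872 N)))))))) N))))))))))) (K a155 (M a103 (L l236 (F (T t112 (L l39 (L l506 (L l514 (T t871 (T t872 (K a197 (M a202 (F (T t652 (L l73 (L l325 (L l339 (T t97 (T t872 N)))))))) (K a202 (M a197 (F (T t652 (L l73 (L l325 (L l339 (T t97 (T t872 N)))))))) N))))))))))) N)))))))))))))) (K a197 (M a202 (L l489 (L l511 (F (T t652 (L l73 (L l325 (L l339 (T t97 (T t872 (K a145 (M a98 (L l511 (F (T t652 (L l73 (L l325 (L l339 (T t97 (T t872 (K a103 (M a155 (F (T t652 (L l73 (L l325 (L l339 (T t97 (T t872 N)))))))) (K a155 (M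 a103 (F (T t652 (L l73 (L l325 (L l339 (T t97 (T t872 N)))))))) N))))))))))) (K a98 (M a145 (L l511 (F (T t652 (L l73 (L l325 (L l339 (T t97 (T t872 (K a103 (M a155 (F (T t652 (L l73 (L l325 (L l339 (T t97 (T t872 N)))))))) (K a155 (M a103 (F (T t652 (L l73 (L l325 (L l339 (T t97 (T t872 N)))))))) N))))))))))) (K a103 (M a155 (L l489 (F (T t652 (L l73 (L l325 (L l339 (T t97 (T t872 (K a145 (M a98 (F (T t652 (L l73 (L l325 (L l339 (T t97 (T t872 N)))))))) (K a98 (M a145 (F (T t652 (L l73 (L l325 (L l339 (T t97 (T t872 N)))))))) N))))))))))) (K a155 (M a103 (L l489 (F (T t652 (L l73 (L l325 (L l339 (T t97 (T t872 (K a145 (M a98 (F (T t652 (L l73 (L l325 (L l339 (T t97 (T t872 N)))))))) (K a98 (M a145 (F (T t652 (L l73 (L l325 (L l339 (T t97 (T t872 N)))))))) N))))))))))) N)))))))))))))) (K a98 (M a145 (L l236 (L l511 (F (T t112 (L l39 (L l506 (L l514 (T t871 (T t872 (K a197 (M a202 (L l511 (F (T t652 (L l73 (L l325 (L l339 (T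 t97 (T t872 (K a103 (M a155 (F (T t652 (L l73 (L l325 (L l339 (T t97 (T t872 N)))))))) (K a155 (M a103 (F (T t652 (L l73 (L l325 (L l339 (T t97 (T t872 N)))))))) N))))))))))) (K a202 (M a197 (L l511 (F (T t652 (L l73 (L l325 (L l339 (T t97 (T t872 (K a103 (M a155 (F (T t652 (L l73 (L l325 (L l339 (T t97 (T t872 N)))))))) (K a155 (M a103 (F (T t652 (L l73 (L l325 (L l339 (T t97 (T t872 N)))))))) N))))))))))) (K a103 (M a155 (L l236 (F (T t112 (L l39 (L l506 (L l514 (T t871 (T t872 (K a197 (M a202 (F (T t652 (L l73 (L l325 (L l339 (T t97 (T t872 N)))))))) (K a202 (M a197 (F (T t652 (L l73 (L l325 (L l339 (T t97 (T t872 N)))))))) N))))))))))) (K a155 (M a103 (L l236 (F (T t112 (L l39 (L l506 (L l514 (T t871 (T t872 (K a197 (M a202 (F (T t652 (L l73 (L l325 (L l339 (T t97 (T t872 N)))))))) (K a202 (M a197 (F (T t652 (L l73 (L l325 (L l339 (T t97 (T t872 N)))))))) N))))))))))) N)))))))))))))) (K a202 (M a197 (L l489 (L l511 (F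 (T t652 (L l73 (L l325 (L l339 (T t97 (T t872 (K a145 (M a98 (L l511 (F (T t652 (L l73 (L l325 (L l339 (T t97 (T t872 (K a103 (M a155 (F (T t652 (L l73 (L l325 (L l339 (T t97 (T t872 N)))))))) (K a155 (M a103 (F (T t652 (L l73 (L l325 (L l339 (T t97 (T t872 N)))))))) N))))))))))) (K a98 (M a145 (L l511 (F (T t652 (L l73 (L l325 (L l339 (T t97 (T t872 (K a103 (M a155 (F (T t652 (L l73 (L l325 (L l339 (T t97 (T t872 N)))))))) (K a155 (M a103 (F (T t652 (L l73 (L l325 (L l339 (T t97 (T t872 N)))))))) N))))))))))) (K a103 (M a155 (L l489 (F (T t652 (L l73 (L l325 (L l339 (T t97 (T t872 (K a145 (M a98 (F (T t652 (L l73 (L l325 (L l339 (T t97 (T t872 N)))))))) (K a98 (M a145 (F (T t652 (L l73 (L l325 (L l339 (T t97 (T t872 N)))))))) N))))))))))) (K a155 (M a103 (L l489 (F (T t652 (L l73 (L l325 (L l339 (T t97 (T t872 (K a145 (M a98 (F (T t652 (L l73 (L l325 (L l339 (T t97 (T t872 N)))))))) (K a98 (M a145 (F (T t652 (L l73 (L l325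 (L l339 (T t97 (T t872 N)))))))) N))))))))))) N)))))))))))))) (K a103 (M a155 (L l236 (L l489 (F (T t112 (L l39 (L l506 (L l514 (T t871 (T t872 (K a145 (M a98 (L l236 (F (T t112 (L l39 (L l506 (L l514 (T t871 (T t872 (K a197 (M a202 (F (T t652 (L l73 (L l325 (L l339 (T t97 (T t872 N)))))))) (K a202 (M a197 (F (T t652 (L l73 (L l325 (L l339 (T t97 (T t872 N)))))))) N))))))))))) (K a197 (M a202 (L l489 (F (T t652 (L l73 (L l325 (L l339 (T t97 (T t872 (K a145 (M a98 (F (T t652 (L l73 (L l325 (L l339 (T t97 (T t872 N)))))))) (K a98 (M a145 (F (T t652 (L l73 (L l325 (L l339 (T t97 (T t872 N)))))))) N))))))))))) (K a98 (M a145 (L l236 (F (T t112 (L l39 (L l506 (L l514 (T t871 (T t872 (K a197 (M a202 (F (T t652 (L l73 (L l325 (L l339 (T t97 (T t872 N)))))))) (K a202 (M a197 (F (T t652 (L l73 (L l325 (L l339 (T t97 (T t872 N)))))))) N))))))))))) (K a202 (M a197 (L l489 (F (T t652 (L l73 (L l325 (L l339 (T t97 (T t872 (K a145 (M a98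 (F (T t652 (L l73 (L l325 (L l339 (T t97 (T t872 N)))))))) (K a98 (M a145 (F (T t652 (L l73 (L l325 (L l339 (T t97 (T t872 N)))))))) N))))))))))) N)))))))))))))) (K a155 (M a103 (L l236 (L l489 (F (T t112 (L l39 (L l506 (L l514 (T t871 (T t872 (K a145 (M a98 (L l236 (F (T t112 (L l39 (L l506 (L l514 (T t871 (T t872 (K a197 (M a202 (F (T t652 (L l73 (L l325 (L l339 (T t97 (T t872 N)))))))) (K a202 (M a197 (F (T t652 (L l73 (L l325 (L l339 (T t97 (T t872 N)))))))) N))))))))))) (K a197 (M a202 (L l489 (F (T t652 (L l73 (L l325 (L l339 (T t97 (T t872 (K a145 (M a98 (F (T t652 (L l73 (L l325 (L l339 (T t97 (T t872 N)))))))) (K a98 (M a145 (F (T t652 (L l73 (L l325 (L l339 (T t97 (T t872 N)))))))) N))))))))))) (K a98 (M a145 (L l236 (F (T t112 (L l39 (L l506 (L l514 (T t871 (T t872 (K a197 (M a202 (F (T t652 (L l73 (L l325 (L l339 (T t97 (T t872 N)))))))) (K a202 (M a197 (F (T t652 (L l73 (L l325 (L l339 (T t97 (T t872 N))))))))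 N))))))))))) (K a202 (M a197 (L l489 (F (T t652 (L l73 (L l325 (L l339 (T t97 (T t872 (K a145 (M a98 (F (T t652 (L l73 (L l325 (L l339 (T t97 (T t872 N)))))))) (K a98 (M a145 (F (T t652 (L l73 (L l325 (L l339 (T t97 (T t872 N)))))))) N))))))))))) N)))))))))))))) N))))))))))))))))) (K a197 (M a202 (F (T t150 (L l489 (L l511 (T t122 (L l489 (L l511 (T t151 (L l489 (L l511 (T t152 (L l489 (L l511 (T t153 (K a4 (M a170 (F (L l458 (T t4159 (L l1 (L l50 (L l303 (L l311 (T t5394 N))))))))) (K a8 (M a60 (F (T t570 (L l56 (L l309 (L l331 (T t69 (T t1096 N)))))))) (K a21 (M a136 (F (L l15 (T t5395 (L l50 (L l233 (L l331 (T t5396 N)))))))) (K a25 (M a136 (F (L l15 (T t5395 (L l233 (L l331 (T t5396 N))))))) (K a29 (M a10 (F (T t2421 (L l15 (L l296 (L l512 (T t5397 N))))))) (K a38 (M a136 (F (T t5395 (L l50 (L l233 (L l331 (T t5396 N))))))) (K a42 (M a136 (F (T t5395 (L l233 (L l331 (T t5396 N)))))) (K a46 (M a10 (F (T t2421 (L l296 (L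 l512 (T t5397 N)))))) (K a51 (M a136 (L l489 (L l511 (F (T t5395 (L l233 (L l331 (T t5396 (K a145 (M a98 (L l511 (F (L l167 (T t5395 (L l233 (L l331 (T t5396 (K a103 (M a155 (F (L l167 (T t5395 (L l233 (L l331 (T t5396 N))))))) (K a155 (M a103 (F (L l167 (T t5395 (L l207 (L l233 (L l331 (T t5396 N)))))))) N)))))))))) (K a98 (M a145 (L l511 (F (T t5395 (L l233 (L l331 (T t5396 (K a103 (M a155 (F (T t5395 (L l233 (L l331 (T t5396 N)))))) (K a155 (M a103 (F (T t5395 (L l207 (L l233 (L l331 (T t5396 N))))))) N))))))))) (K a103 (M a155 (L l489 (F (T t5395 (L l233 (L l331 (T t5396 (K a145 (M a98 (F (L l167 (T t5395 (L l233 (L l331 (T t5396 N))))))) (K a98 (M a145 (F (T t5395 (L l233 (L l331 (T t5396 N)))))) N))))))))) (K a155 (M a103 (L l489 (F (T t5395 (L l207 (L l233 (L l331 (T t5396 (K a145 (M a98 (F (L l167 (T t5395 (L l207 (L l233 (L l331 (T t5396 N)))))))) (K a98 (M a145 (F (T t5395 (L l207 (L l233 (L l331 (T t5396 N)))))))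 N)))))))))) N)))))))))))) N)))))))))))))))))))))))) (K a202 (M a197 (F (T t150 (L l489 (L l511 (T t122 (L l489 (L l511 (T t151 (L l489 (L l511 (T t152 (L l489 (L l511 (T t153 (K a4 (M a60 (F (T t662 (L l325 (L l339 (T t680 (L l46 (L l50 (T t1096 N))))))))) (K a8 (M a85 (F (L l464 (T t571 (L l2 (L l56 (L l303 (L l318 (T t5811 N))))))))) (K a21 (M a68 (F (T t2173 (L l47 (L l234 (T t5812 N)))))) (K a25 (M a68 (F (T t2173 (L l56 (L l234 (T t5812 N)))))) (K a29 (M a5 (F (T t1428 (L l296 (L l512 (T t5810 N)))))) (K a38 (M a68 (F (L l26 (T t2173 (L l234 (T t5812 N)))))) (K a42 (M a68 (F (L l26 (T t2173 (L l56 (L l234 (T t5812 N))))))) (K a46 (M a5 (F (T t1428 (L l26 (L l296 (L l512 (T t5810 N))))))) (K a51 (M a68 (L l489 (L l511 (F (T t2173 (L l234 (T t5812 (K a145 (M a98 (L l511 (F (T t2173 (L l234 (T t5812 (K a103 (M a155 (F (T t2173 (L l234 (T t5812 N))))) (K a155 (M a103 (F (T t2173 (L l234 (T t5812 N))))) N)))))))) (K a98 (M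 a145 (L l511 (F (L l102 (T t2173 (L l234 (T t5812 (K a103 (M a155 (F (L l102 (T t2173 (L l234 (T t5812 N)))))) (K a155 (M a103 (F (L l102 (T t2173 (L l234 (T t5812 N)))))) N))))))))) (K a103 (M a155 (L l489 (F (T t2173 (L l234 (T t5812 (K a145 (M a98 (F (T t2173 (L l234 (T t5812 N))))) (K a98 (M a145 (F (L l102 (T t2173 (L l234 (T t5812 N)))))) N)))))))) (K a155 (M a103 (L l489 (F (T t2173 (L l234 (T t5812 (K a145 (M a98 (F (T t2173 (L l234 (T t5812 N))))) (K a98 (M a145 (F (L l102 (T t2173 (L l234 (T t5812 N)))))) N)))))))) N))))))))))) N)))))))))))))))))))))))) N)))))))))))))))))))))))))))⟩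
def e0_63__207_62 : Ent 4 := ⟨[a0, a63], [a207, a193], (M a12 (F (T t150 (L l511 (T t122 (L l511 (T t151 (L l511 (T t152 (L l511 (T t153 (K a4 (M a60 (F (T t835 (L l46 (L l50 (L l331 (T t67 (T t448 N)))))))) (K a8 (M a60 (F (T t835 (L l331 (T t67 (L l52 (L l56 (T t448 N)))))))) (K a21 (M a192 (F (T t158 (L l231 (T t156 (L l15 (L l347 (L l515 (T t157 N))))))))) (K a25 (M a192 (F (T t158 (L l231 (T t156 (L l289 (L l515 (T t21 N)))))))) (K a29 (M a192 (F (T t159 (L l289 (L l371 (L l515 (T t21 (L l293 (T t160 N))))))))) (K a38 (M a192 (F (T t1725 (L l301 (L l515 (T t450 (L l289 (L l515 (T t21 N))))))))) (K a42 (M a192 (F (T t496 (L l301 (L l515 (T t450 (L l56 (L l515 (T t157 N))))))))) (K a46 (M a192 (F (T t1725 (L l289 (L l515 (T t21 (L l26 (L l293 (L l408 (T t160 N)))))))))) (K a51 (M a149 (L l511 (F (T t4854 (L l228 (L l236 (L l489 (T t991 (L l269 (T t649 (K a103 (M a155 (F (T t4374 (L l269 (L l293 (T t960 N)))))) (K a155 (M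 a103 (F (T t4374 (L l269 (L l293 (T t960 N)))))) N)))))))))))) N))))))))))))))))))))⟩
def e0_63__207_63 : Ent 4 := ⟨[a0, a63], [a207, a195], (M a12 (L l235 (F (T t150 (L l487 (L l511 (T t122 (L l487 (L l511 (T t151 (L l487 (L l511 (T t152 (L l487 (L l511 (T t153 (K a4 (M a60 (L l235 (F (T t570 (L l46 (L l50 (L l307 (L l331 (T t67 (T t448 (K a199 (M a203 (L l314 (F (T t423 (L l307 (L l331 (T t69 (T t448 (K a69 (M a134 (F (T t570 (L l307 (L l329 (L l331 (T t69 (T t448 N)))))))) (K a134 (M a69 (F (T t835 (L l46 (L l50 (L l307 (L l331 (T t67 (T t448 N))))))))) N)))))))))) (K a203 (M a199 (F (T t423 (L l307 (L l331 (T t69 (T t448 N))))))) N)))))))))))) (K a8 (M a60 (L l235 (F (T t116 (L l325 (L l337 (T t398 (L l52 (L l56 (T t448 (K a199 (M a203 (F (T t423 (L l56 (L l307 (L l331 (T t69 (L l52 (L l56 (T t448 N)))))))))) (K a203 (M a199 (L l320 (F (T t423 (L l56 (L l307 (L l331 (T t69 (L l52 (L l56 (T t448 (K a73 (M a138 (F (T t835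 (L l307 (L l331 (T t67 (L l52 (L l56 (T t448 N))))))))) (K a138 (M a73 (F (T t116 (L l325 (L l337 (T t398 (L l52 (L l56 (T t448 N))))))))) N))))))))))))) N)))))))))))) (K a21 (M a85 (L l235 (F (T t123 (L l231 (L l237 (T t124 (L l15 (T t574 (K a199 (M a203 (F (T t4326 (L l15 (L l277 (T t574 (L l231 (L l237 (T t124 N))))))))) (K a203 (M a199 (F (L l320 (T t5240 (L l231 (L l237 (T t124 N))))))) N))))))))))) (K a25 (M a89 (L l235 (F (T t2788 (L l271 (L l301 (T t863 (T t864 (K a199 (M a203 (F (T t2788 (L l295 (L l314 (T t5241 N)))))) (K a203 (M a199 (F (T t2788 (L l56 (L l271 (L l301 (L l320 (T t2755 (L l283 (T t3372 N)))))))))) N)))))))))) (K a29 (M a85 (L l235 (F (T t89 (L l289 (L l295 (T t1368 (T t572 (K a199 (M a203 (F (T t89 (L l289 (L l295 (L l314 (T t573 (L l277 (T t572 N))))))))) (K a203 (M a199 (F (T t89 (L l301 (L l320 (T t2168 N)))))) N)))))))))) (K a38 (M a85 (L l235 (F (T t123 (L l26 (L l228 (L l236 (T t88 (T t574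 (K a199 (M a203 (F (T t4326 (L l26 (L l228 (L l236 (T t352 (L l277 (T t574 N))))))))) (K a203 (M a199 (F (L l26 (T t89 (L l301 (L l320 (T t2168 N))))))) N))))))))))) (K a42 (M a85 (L l235 (F (L l56 (T t123 (L l231 (L l237 (L l390 (T t124 (L l56 (T t574 (K a199 (M a203 (F (L l56 (L l277 (T t123 (L l231 (L l237 (L l390 (T t124 (L l56 (L l277 (T t574 N)))))))))))) (K a203 (M a199 (F (L l390 (T t571 (L l56 (L l301 (L l320 (T t2168 N)))))))) N))))))))))))) (K a46 (M a85 (L l235 (F (T t123 (L l26 (L l228 (L l236 (T t88 (L l26 (T t572 (K a199 (M a203 (F (L l277 (T t123 (L l26 (L l228 (L l236 (T t352 (L l26 (L l277 (T t572 N))))))))))) (K a203 (M a199 (F (L l26 (T t49 (L l301 (L l320 (T t2168 N))))))) N)))))))))))) (K a51 (M a170 (L l235 (L l487 (L l511 (F (T t439 (L l289 (L l295 (L l439 (T t3685 (T t3880 (K a147 (M a99 (L l235 (L l511 (F (T t5242 (L l228 (L l236 (L l489 (T t320 (T t3880 (K a199 (M a203 (L l511 (F (T t439 (L l301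 (L l314 (T t5243 (K a103 (M a155 (L l493 (F (T t439 (L l314 (T t5813 (K a151 (M a55 (F (T t4695 (L l219 (L l231 (L l237 (L l513 (T t2498 N)))))))) (K a55 (M a151 (F (T t4159 (L l50 (L l301 (L l314 (T t5244 N))))))) N)))))))) (K a155 (M a103 (L l169 (F (T t439 (L l164 (L l314 (L l512 (T t5245 (K a151 (M a159 (F (T t874 (L l164 (L l314 (L l512 (T t5245 N))))))) (K a159 (M a151 (F (T t5309 (L l301 (L l314 (L l355 (T t5243 N))))))) N)))))))))) N))))))))) (K a103 (M a155 (L l235 (F (T t5242 (L l228 (L l236 (L l489 (T t320 (T t3880 (K a199 (M a203 (L l493 (F (T t439 (L l314 (T t5813 (K a151 (M a55 (F (T t4695 (L l219 (L l231 (L l237 (L l513 (T t2498 N)))))))) (K a55 (M a151 (F (T t4159 (L l50 (L l301 (L l314 (T t5244 N))))))) N)))))))) (K a203 (M a199 (F (T t439 (L l271 (L l283 (L l301 (L l415 (T t4735 (L l283 (T t3880 N)))))))))) N))))))))))) (K a203 (M a199 (L l511 (F (T t439 (L l271 (L l283 (L l301 (L l415 (T t4735 (L l283 (T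 t3880 (K a103 (M a155 (F (T t439 (L l271 (L l283 (L l301 (L l415 (T t4735 (L l283 (T t3880 N)))))))))) (K a155 (M a103 (L l169 (L l499 (F (T t439 (L l283 (L l289 (L l295 (L l439 (T t4734 (L l283 (T t3880 (K a151 (M a159 (L l499 (F (T t5246 (L l163 (T t439 (L l219 (L l283 (T t3880 (K a107 (M a59 (F (T t5248 (L l219 (L l231 (L l237 (L l513 (T t2498 N)))))))) (K a59 (Fr a107 a111 l103 (V t434)) N))))))))))) (K a107 (M a59 (L l169 (F (T t5247 (L l231 (L l237 (L l513 (T t2498 (K a151 (M a159 (F (T t5248 (L l219 (L l231 (L l237 (L l513 (T t2498 N)))))))) (K a159 (Fr a151 a55 l493 (V t5247)) N)))))))))) (K a59 (Fr a107 a111 l103 (V t4734)) (K a159 (Fr a151 a55 l493 (V t4734)) N)))))))))))))))) N))))))))))))) (K a155 (M a103 (L l169 (L l235 (F (T t5242 (L l289 (L l295 (L l439 (T t434 (T t3880 (K a199 (M a203 (L l169 (F (T t439 (L l164 (L l314 (L l512 (T t5245 (K a151 (M a159 (F (T t874 (L l164 (L l314 (L l512 (T t5245 N))))))) (K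 a159 (M a151 (F (T t5309 (L l301 (L l314 (L l355 (T t5243 N))))))) N)))))))))) (K a151 (M a159 (L l235 (F (T t5242 (L l289 (L l295 (L l439 (T t434 (L l219 (T t3880 (K a199 (M a203 (F (T t874 (L l164 (L l314 (L l512 (T t5245 N))))))) (K a203 (M a199 (L l499 (F (T t5246 (L l163 (T t439 (L l219 (L l283 (T t3880 (K a107 (M a59 (F (T t5248 (L l219 (L l231 (L l237 (L l513 (T t2498 N)))))))) (K a59 (Fr a107 a111 l103 (V t434)) N))))))))))) N)))))))))))) (K a203 (M a199 (L l169 (L l499 (F (T t439 (L l283 (L l289 (L l295 (L l439 (T t4734 (L l283 (T t3880 (K a151 (M a159 (L l499 (F (T t5246 (L l163 (T t439 (L l219 (L l283 (T t3880 (K a107 (M a59 (F (T t5248 (L l219 (L l231 (L l237 (L l513 (T t2498 N)))))))) (K a59 (Fr a107 a111 l103 (V t434)) N))))))))))) (K a107 (M a59 (L l169 (F (T t5247 (L l231 (L l237 (L l513 (T t2498 (K a151 (M a159 (F (T t5248 (L l219 (L l231 (L l237 (L l513 (T t2498 N)))))))) (K a159 (Fr a151 a55 l493 (V t5247))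 N)))))))))) (K a59 (Fr a107 a111 l103 (V t4734)) (K a159 (Fr a151 a55 l493 (V t4734)) N)))))))))))))))) (K a159 (M a151 (L l235 (F (T t5242 (L l228 (L l236 (L l489 (T t2102 (L l213 (T t3880 (K a199 (M a203 (F (T t5309 (L l301 (L l314 (L l355 (T t5243 N))))))) (K a203 (Fr a199 a55 l493 (V t4734)) N)))))))))))) N)))))))))))))) N)))))))))))))) (K a99 (M a147 (L l235 (L l511 (F (T t5242 (L l228 (L l236 (L l489 (T t320 (T t3880 (K a199 (M a203 (L l511 (F (T t439 (L l301 (L l314 (T t5243 (K a103 (M a155 (L l103 (L l493 (F (T t439 (L l301 (L l314 (T t5244 (K a151 (M a55 (L l103 (F (T t5249 (L l219 (L l231 (L l237 (L l513 (T t2498 (K a107 (M a111 (F (T t5249 (L l219 (L l231 (L l237 (L l513 (T t2498 N)))))))) (K a111 (Fr a107 a59 l499 (V t4695)) N))))))))))) (K a55 (Fr a151 a159 l169 (V t438)) (K a107 (M a111 (L l493 (F (T t439 (L l314 (L l512 (T t5245 (K a151 (M a55 (F (T t5249 (L l219 (L l231 (L l237 (L l513 (T t2498 N)))))))) (K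 a55 (Fr a151 a159 l169 (V t5242)) N))))))))) (K a111 (Fr a107 a59 l499 (V t438)) N)))))))))))) (K a155 (M a103 (F (T t439 (L l301 (L l314 (L l355 (T t5243 N))))))) N))))))))) (K a103 (M a155 (L l103 (L l235 (F (T t5242 (L l289 (L l295 (L l439 (T t434 (T t3880 (K a199 (M a203 (L l103 (L l493 (F (T t439 (L l301 (L l314 (T t5244 (K a151 (M a55 (L l103 (F (T t5249 (L l219 (L l231 (L l237 (L l513 (T t2498 (K a107 (M a111 (F (T t5249 (L l219 (L l231 (L l237 (L l513 (T t2498 N)))))))) (K a111 (Fr a107 a59 l499 (V t4695)) N))))))))))) (K a55 (Fr a151 a159 l169 (V t438)) (K a107 (M a111 (L l493 (F (T t439 (L l314 (L l512 (T t5245 (K a151 (M a55 (F (T t5249 (L l219 (L l231 (L l237 (L l513 (T t2498 N)))))))) (K a55 (Fr a151 a159 l169 (V t5242)) N))))))))) (K a111 (Fr a107 a59 l499 (V t438)) N)))))))))))) (K a203 (M a199 (L l103 (F (T t4159 (L l283 (T t3682 (K a107 (M a111 (F (T t4159 (L l283 (T t3682 N))))) (K a111 (M a107 (F (T t439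 (L l271 (L l301 (L l415 (T t4566 (L l283 (T t3880 N))))))))) N)))))))) (K a107 (M a111 (L l235 (F (T t5242 (L l289 (L l295 (L l439 (T t456 (T t3880 (K a199 (M a203 (L l493 (F (T t439 (L l314 (L l512 (T t5245 (K a151 (M a55 (F (T t5249 (L l219 (L l231 (L l237 (L l513 (T t2498 N)))))))) (K a55 (Fr a151 a159 l169 (V t5242)) N))))))))) (K a203 (M a199 (F (T t4159 (L l283 (T t3682 N))))) N))))))))))) (K a111 (M a107 (L l235 (F (T t5242 (L l228 (L l236 (L l489 (T t320 (T t3880 (K a199 (Fr a203 a59 l499 (V t438)) (K a203 (M a199 (F (T t439 (L l271 (L l301 (L l415 (T t4566 (L l283 (T t3880 N))))))))) N))))))))))) N)))))))))))))) (K a203 (M a199 (L l511 (F (T t439 (L l271 (L l283 (L l301 (L l415 (T t4735 (L l283 (T t3880 (K a103 (M a155 (L l103 (F (T t4159 (L l283 (T t3682 (K a107 (M a111 (F (T t4159 (L l283 (T t3682 N))))) (K a111 (M a107 (F (T t439 (L l271 (L l301 (L l415 (T t4566 (L l283 (T t3880 N))))))))) N)))))))) (K a155 (M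 a103 (L l499 (F (T t439 (L l283 (L l289 (L l295 (L l439 (T t4734 (L l283 (T t3880 (K a107 (M a59 (F (T t5247 (L l231 (L l237 (L l513 (T t2498 N))))))) (K a59 (M a107 (F (T t4159 (L l283 (L l427 (T t3682 N)))))) N))))))))))))) N))))))))))))) (K a155 (M a103 (L l235 (F (T t5242 (L l228 (L l236 (L l489 (T t320 (T t3880 (K a199 (M a203 (F (T t439 (L l301 (L l314 (L l355 (T t5243 N))))))) (K a203 (M a199 (L l499 (F (T t439 (L l283 (L l289 (L l295 (L l439 (T t4734 (L l283 (T t3880 (K a107 (M a59 (F (T t5247 (L l231 (L l237 (L l513 (T t2498 N))))))) (K a59 (M a107 (F (T t4159 (L l283 (L l427 (T t3682 N)))))) N))))))))))))) N))))))))))) N)))))))))))))) (K a199 (M a203 (L l487 (L l511 (F (T t439 (L l301 (L l314 (T t5243 (K a147 (M a99 (L l511 (F (T t439 (L l301 (L l314 (T t5243 (K a103 (M a155 (L l493 (F (T t439 (L l314 (T t5813 (K a151 (M a55 (F (T t4695 (L l219 (L l231 (L l237 (L l513 (T t2498 N)))))))) (K a55 (M a151 (F (T t4159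 (L l50 (L l301 (L l314 (T t5244 N))))))) N)))))))) (K a155 (M a103 (L l169 (F (T t439 (L l164 (L l314 (L l512 (T t5245 (K a151 (M a159 (F (T t874 (L l164 (L l314 (L l512 (T t5245 N))))))) (K a159 (M a151 (F (T t5309 (L l301 (L l314 (L l355 (T t5243 N))))))) N)))))))))) N))))))))) (K a99 (M a147 (L l511 (F (T t439 (L l301 (L l314 (T t5243 (K a103 (M a155 (L l103 (L l493 (F (T t439 (L l301 (L l314 (T t5244 (K a151 (M a55 (L l103 (F (T t5249 (L l219 (L l231 (L l237 (L l513 (T t2498 (K a107 (M a111 (F (T t5249 (L l219 (L l231 (L l237 (L l513 (T t2498 N)))))))) (K a111 (Fr a107 a59 l499 (V t4695)) N))))))))))) (K a55 (Fr a151 a159 l169 (V t438)) (K a107 (M a111 (L l493 (F (T t439 (L l314 (L l512 (T t5245 (K a151 (M a55 (F (T t5249 (L l219 (L l231 (L l237 (L l513 (T t2498 N)))))))) (K a55 (Fr a151 a159 l169 (V t5242)) N))))))))) (K a111 (Fr a107 a59 l499 (V t438)) N)))))))))))) (K a155 (M a103 (F (T t439 (L l301 (L l314 (L l355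 (T t5243 N))))))) N))))))))) (K a103 (M a155 (L l487 (L l493 (F (T t439 (L l314 (L l518 (T t5814 (K a147 (M a99 (L l493 (F (T t439 (L l314 (T t5813 (K a151 (M a55 (F (T t4695 (L l219 (L l231 (L l237 (L l513 (T t2498 N)))))))) (K a55 (M a151 (F (T t4159 (L l50 (L l301 (L l314 (T t5244 N))))))) N)))))))) (K a99 (M a147 (L l103 (L l493 (F (T t439 (L l301 (L l314 (T t5244 (K a151 (M a55 (L l103 (F (T t5249 (L l219 (L l231 (L l237 (L l513 (T t2498 (K a107 (M a111 (F (T t5249 (L l219 (L l231 (L l237 (L l513 (T t2498 N)))))))) (K a111 (Fr a107 a59 l499 (V t4695)) N))))))))))) (K a55 (Fr a151 a159 l169 (V t438)) (K a107 (M a111 (L l493 (F (T t439 (L l314 (L l512 (T t5245 (K a151 (M a55 (F (T t5249 (L l219 (L l231 (L l237 (L l513 (T t2498 N)))))))) (K a55 (Fr a151 a159 l169 (V t5242)) N))))))))) (K a111 (Fr a107 a59 l499 (V t438)) N)))))))))))) (K a151 (M a55 (L l487 (F (T t5249 (L l219 (L l231 (L l237 (L l513 (T t2498 (K a147 (M a99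 (F (T t4695 (L l219 (L l231 (L l237 (L l513 (T t2498 N)))))))) (K a99 (M a147 (L l103 (F (T t5249 (L l219 (L l231 (L l237 (L l513 (T t2498 (K a107 (M a111 (F (T t5249 (L l219 (L l231 (L l237 (L l513 (T t2498 N)))))))) (K a111 (Fr a107 a59 l499 (V t4695)) N))))))))))) N))))))))))) (K a55 (M a151 (L l487 (F (T t4159 (L l50 (L l301 (L l314 (T t5244 (K a147 (M a99 (F (T t4159 (L l50 (L l301 (L l314 (T t5244 N))))))) (K a99 (Fr a147 a159 l169 (V t438)) N)))))))))) N)))))))))))) (K a155 (M a103 (L l487 (F (T t439 (L l301 (L l314 (L l355 (T t5243 (K a147 (M a99 (L l169 (F (T t439 (L l164 (L l314 (L l512 (T t5245 (K a151 (M a159 (F (T t874 (L l164 (L l314 (L l512 (T t5245 N))))))) (K a159 (M a151 (F (T t5309 (L l301 (L l314 (L l355 (T t5243 N))))))) N)))))))))) (K a99 (M a147 (F (T t439 (L l301 (L l314 (L l355 (T t5243 N))))))) N)))))))))) N)))))))))))) (K a103 (M a155 (L l235 (L l487 (F (T t5242 (L l228 (L l236 (L l489 (T t320 (T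 t3880 (K a147 (M a99 (L l235 (F (T t5242 (L l228 (L l236 (L l489 (T t320 (T t3880 (K a199 (M a203 (L l493 (F (T t439 (L l314 (T t5813 (K a151 (M a55 (F (T t4695 (L l219 (L l231 (L l237 (L l513 (T t2498 N)))))))) (K a55 (M a151 (F (T t4159 (L l50 (L l301 (L l314 (T t5244 N))))))) N)))))))) (K a203 (M a199 (F (T t439 (L l271 (L l283 (L l301 (L l415 (T t4735 (L l283 (T t3880 N)))))))))) N))))))))))) (K a99 (M a147 (L l103 (L l235 (F (T t5242 (L l289 (L l295 (L l439 (T t434 (T t3880 (K a199 (M a203 (L l103 (L l493 (F (T t439 (L l301 (L l314 (T t5244 (K a151 (M a55 (L l103 (F (T t5249 (L l219 (L l231 (L l237 (L l513 (T t2498 (K a107 (M a111 (F (T t5249 (L l219 (L l231 (L l237 (L l513 (T t2498 N)))))))) (K a111 (Fr a107 a59 l499 (V t4695)) N))))))))))) (K a55 (Fr a151 a159 l169 (V t438)) (K a107 (M a111 (L l493 (F (T t439 (L l314 (L l512 (T t5245 (K a151 (M a55 (F (T t5249 (L l219 (L l231 (L l237 (L l513 (T t2498 N)))))))) (K a55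 (Fr a151 a159 l169 (V t5242)) N))))))))) (K a111 (Fr a107 a59 l499 (V t438)) N)))))))))))) (K a203 (M a199 (L l103 (F (T t4159 (L l283 (T t3682 (K a107 (M a111 (F (T t4159 (L l283 (T t3682 N))))) (K a111 (M a107 (F (T t439 (L l271 (L l301 (L l415 (T t4566 (L l283 (T t3880 N))))))))) N)))))))) (K a107 (M a111 (L l235 (F (T t5242 (L l289 (L l295 (L l439 (T t456 (T t3880 (K a199 (M a203 (L l493 (F (T t439 (L l314 (L l512 (T t5245 (K a151 (M a55 (F (T t5249 (L l219 (L l231 (L l237 (L l513 (T t2498 N)))))))) (K a55 (Fr a151 a159 l169 (V t5242)) N))))))))) (K a203 (M a199 (F (T t4159 (L l283 (T t3682 N))))) N))))))))))) (K a111 (M a107 (L l235 (F (T t5242 (L l228 (L l236 (L l489 (T t320 (T t3880 (K a199 (Fr a203 a59 l499 (V t438)) (K a203 (M a199 (F (T t439 (L l271 (L l301 (L l415 (T t4566 (L l283 (T t3880 N))))))))) N))))))))))) N)))))))))))))) (K a199 (M a203 (L l487 (L l493 (F (T t439 (L l314 (L l518 (T t5814 (K a147 (M a99 (L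 l493 (F (T t439 (L l314 (T t5813 (K a151 (M a55 (F (T t4695 (L l219 (L l231 (L l237 (L l513 (T t2498 N)))))))) (K a55 (M a151 (F (T t4159 (L l50 (L l301 (L l314 (T t5244 N))))))) N)))))))) (K a99 (M a147 (L l103 (L l493 (F (T t439 (L l301 (L l314 (T t5244 (K a151 (M a55 (L l103 (F (T t5249 (L l219 (L l231 (L l237 (L l513 (T t2498 (K a107 (M a111 (F (T t5249 (L l219 (L l231 (L l237 (L l513 (T t2498 N)))))))) (K a111 (Fr a107 a59 l499 (V t4695)) N))))))))))) (K a55 (Fr a151 a159 l169 (V t438)) (K a107 (M a111 (L l493 (F (T t439 (L l314 (L l512 (T t5245 (K a151 (M a55 (F (T t5249 (L l219 (L l231 (L l237 (L l513 (T t2498 N)))))))) (K a55 (Fr a151 a159 l169 (V t5242)) N))))))))) (K a111 (Fr a107 a59 l499 (V t438)) N)))))))))))) (K a151 (M a55 (L l487 (F (T t5249 (L l219 (L l231 (L l237 (L l513 (T t2498 (K a147 (M a99 (F (T t4695 (L l219 (L l231 (L l237 (L l513 (T t2498 N)))))))) (K a99 (M a147 (L l103 (F (T t5249 (L l219 (L l231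 (L l237 (L l513 (T t2498 (K a107 (M a111 (F (T t5249 (L l219 (L l231 (L l237 (L l513 (T t2498 N)))))))) (K a111 (Fr a107 a59 l499 (V t4695)) N))))))))))) N))))))))))) (K a55 (M a151 (L l487 (F (T t4159 (L l50 (L l301 (L l314 (T t5244 (K a147 (M a99 (F (T t4159 (L l50 (L l301 (L l314 (T t5244 N))))))) (K a99 (Fr a147 a159 l169 (V t438)) N)))))))))) N)))))))))))) (K a203 (M a199 (L l487 (F (T t439 (L l271 (L l283 (L l301 (L l415 (T t4735 (L l283 (T t3880 (K a147 (M a99 (F (T t439 (L l271 (L l283 (L l301 (L l415 (T t4735 (L l283 (T t3880 N)))))))))) (K a99 (M a147 (L l103 (F (T t4159 (L l283 (T t3682 (K a107 (M a111 (F (T t4159 (L l283 (T t3682 N))))) (K a111 (M a107 (F (T t439 (L l271 (L l301 (L l415 (T t4566 (L l283 (T t3880 N))))))))) N)))))))) N))))))))))))) N)))))))))))))) (K a203 (M a199 (L l487 (L l511 (F (T t439 (L l271 (L l283 (L l301 (L l415 (T t4735 (L l283 (T t3880 (K a147 (M a99 (L l511 (F (T t439 (L l271 (L l283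 (L l301 (L l415 (T t4735 (L l283 (T t3880 (K a103 (M a155 (F (T t439 (L l271 (L l283 (L l301 (L l415 (T t4735 (L l283 (T t3880 N)))))))))) (K a155 (M a103 (L l169 (L l499 (F (T t439 (L l283 (L l289 (L l295 (L l439 (T t4734 (L l283 (T t3880 (K a151 (M a159 (L l499 (F (T t5246 (L l163 (T t439 (L l219 (L l283 (T t3880 (K a107 (M a59 (F (T t5248 (L l219 (L l231 (L l237 (L l513 (T t2498 N)))))))) (K a59 (Fr a107 a111 l103 (V t434)) N))))))))))) (K a107 (M a59 (L l169 (F (T t5247 (L l231 (L l237 (L l513 (T t2498 (K a151 (M a159 (F (T t5248 (L l219 (L l231 (L l237 (L l513 (T t2498 N)))))))) (K a159 (Fr a151 a55 l493 (V t5247)) N)))))))))) (K a59 (Fr a107 a111 l103 (V t4734)) (K a159 (Fr a151 a55 l493 (V t4734)) N)))))))))))))))) N))))))))))))) (K a99 (M a147 (L l511 (F (T t439 (L l271 (L l283 (L l301 (L l415 (T t4735 (L l283 (T t3880 (K a103 (M a155 (L l103 (F (T t4159 (L l283 (T t3682 (K a107 (M a111 (F (T t4159 (L l283 (T t3682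 N))))) (K a111 (M a107 (F (T t439 (L l271 (L l301 (L l415 (T t4566 (L l283 (T t3880 N))))))))) N)))))))) (K a155 (M a103 (L l499 (F (T t439 (L l283 (L l289 (L l295 (L l439 (T t4734 (L l283 (T t3880 (K a107 (M a59 (F (T t5247 (L l231 (L l237 (L l513 (T t2498 N))))))) (K a59 (M a107 (F (T t4159 (L l283 (L l427 (T t3682 N)))))) N))))))))))))) N))))))))))))) (K a103 (M a155 (L l487 (F (T t439 (L l271 (L l283 (L l301 (L l415 (T t4735 (L l283 (T t3880 (K a147 (M a99 (F (T t439 (L l271 (L l283 (L l301 (L l415 (T t4735 (L l283 (T t3880 N)))))))))) (K a99 (M a147 (L l103 (F (T t4159 (L l283 (T t3682 (K a107 (M a111 (F (T t4159 (L l283 (T t3682 N))))) (K a111 (M a107 (F (T t439 (L l271 (L l301 (L l415 (T t4566 (L l283 (T t3880 N))))))))) N)))))))) N))))))))))))) (K a155 (M a103 (L l487 (L l499 (F (T t439 (L l271 (L l283 (L l301 (L l415 (T t2497 (L l283 (T t3880 (K a147 (M a99 (L l169 (L l499 (F (T t439 (L l283 (L l289 (L l295 (L l439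 (T t4734 (L l283 (T t3880 (K a151 (M a159 (L l499 (F (T t5246 (L l163 (T t439 (L l219 (L l283 (T t3880 (K a107 (M a59 (F (T t5248 (L l219 (L l231 (L l237 (L l513 (T t2498 N)))))))) (K a59 (Fr a107 a111 l103 (V t434)) N))))))))))) (K a107 (M a59 (L l169 (F (T t5247 (L l231 (L l237 (L l513 (T t2498 (K a151 (M a159 (F (T t5248 (L l219 (L l231 (L l237 (L l513 (T t2498 N)))))))) (K a159 (Fr a151 a55 l493 (V t5247)) N)))))))))) (K a59 (Fr a107 a111 l103 (V t4734)) (K a159 (Fr a151 a55 l493 (V t4734)) N)))))))))))))))) (K a99 (M a147 (L l499 (F (T t439 (L l283 (L l289 (L l295 (L l439 (T t4734 (L l283 (T t3880 (K a107 (M a59 (F (T t5247 (L l231 (L l237 (L l513 (T t2498 N))))))) (K a59 (M a107 (F (T t4159 (L l283 (L l427 (T t3682 N)))))) N))))))))))))) (K a107 (M a59 (L l487 (F (T t5247 (L l231 (L l237 (L l513 (T t2498 (K a147 (M a99 (L l169 (F (T t5247 (L l231 (L l237 (L l513 (T t2498 (K a151 (M a159 (F (T t5248 (L l219 (L l231 (L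 l237 (L l513 (T t2498 N)))))))) (K a159 (Fr a151 a55 l493 (V t5247)) N)))))))))) (K a99 (M a147 (F (T t5247 (L l231 (L l237 (L l513 (T t2498 N))))))) N)))))))))) (K a59 (M a107 (L l487 (F (T t4159 (L l283 (L l427 (T t3682 (K a147 (Fr a99 a111 l103 (V t4734)) (K a99 (M a147 (F (T t4159 (L l283 (L l427 (T t3682 N)))))) N))))))))) N)))))))))))))))) N)))))))))))))))) (K a155 (M a103 (L l235 (L l487 (F (T t5242 (L l228 (L l236 (L l489 (T t320 (T t3880 (K a147 (M a99 (L l169 (L l235 (F (T t5242 (L l289 (L l295 (L l439 (T t434 (T t3880 (K a199 (M a203 (L l169 (F (T t439 (L l164 (L l314 (L l512 (T t5245 (K a151 (M a159 (F (T t874 (L l164 (L l314 (L l512 (T t5245 N))))))) (K a159 (M a151 (F (T t5309 (L l301 (L l314 (L l355 (T t5243 N))))))) N)))))))))) (K a151 (M a159 (L l235 (F (T t5242 (L l289 (L l295 (L l439 (T t434 (L l219 (T t3880 (K a199 (M a203 (F (T t874 (L l164 (L l314 (L l512 (T t5245 N))))))) (K a203 (M a199 (L l499 (F (T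 t5246 (L l163 (T t439 (L l219 (L l283 (T t3880 (K a107 (M a59 (F (T t5248 (L l219 (L l231 (L l237 (L l513 (T t2498 N)))))))) (K a59 (Fr a107 a111 l103 (V t434)) N))))))))))) N)))))))))))) (K a203 (M a199 (L l169 (L l499 (F (T t439 (L l283 (L l289 (L l295 (L l439 (T t4734 (L l283 (T t3880 (K a151 (M a159 (L l499 (F (T t5246 (L l163 (T t439 (L l219 (L l283 (T t3880 (K a107 (M a59 (F (T t5248 (L l219 (L l231 (L l237 (L l513 (T t2498 N)))))))) (K a59 (Fr a107 a111 l103 (V t434)) N))))))))))) (K a107 (M a59 (L l169 (F (T t5247 (L l231 (L l237 (L l513 (T t2498 (K a151 (M a159 (F (T t5248 (L l219 (L l231 (L l237 (L l513 (T t2498 N)))))))) (K a159 (Fr a151 a55 l493 (V t5247)) N)))))))))) (K a59 (Fr a107 a111 l103 (V t4734)) (K a159 (Fr a151 a55 l493 (V t4734)) N)))))))))))))))) (K a159 (M a151 (L l235 (F (T t5242 (L l228 (L l236 (L l489 (T t2102 (L l213 (T t3880 (K a199 (M a203 (F (T t5309 (L l301 (L l314 (L l355 (T t5243 N)))))))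 (K a203 (Fr a199 a55 l493 (V t4734)) N)))))))))))) N)))))))))))))) (K a99 (M a147 (L l235 (F (T t5242 (L l228 (L l236 (L l489 (T t320 (T t3880 (K a199 (M a203 (F (T t439 (L l301 (L l314 (L l355 (T t5243 N))))))) (K a203 (M a199 (L l499 (F (T t439 (L l283 (L l289 (L l295 (L l439 (T t4734 (L l283 (T t3880 (K a107 (M a59 (F (T t5247 (L l231 (L l237 (L l513 (T t2498 N))))))) (K a59 (M a107 (F (T t4159 (L l283 (L l427 (T t3682 N)))))) N))))))))))))) N))))))))))) (K a199 (M a203 (L l487 (F (T t439 (L l301 (L l314 (L l355 (T t5243 (K a147 (M a99 (L l169 (F (T t439 (L l164 (L l314 (L l512 (T t5245 (K a151 (M a159 (F (T t874 (L l164 (L l314 (L l512 (T t5245 N))))))) (K a159 (M a151 (F (T t5309 (L l301 (L l314 (L l355 (T t5243 N))))))) N)))))))))) (K a99 (M a147 (F (T t439 (L l301 (L l314 (L l355 (T t5243 N))))))) N)))))))))) (K a203 (M a199 (L l487 (L l499 (F (T t439 (L l271 (L l283 (L l301 (L l415 (T t2497 (L l283 (T t3880 (K a147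 (M a99 (L l169 (L l499 (F (T t439 (L l283 (L l289 (L l295 (L l439 (T t4734 (L l283 (T t3880 (K a151 (M a159 (L l499 (F (T t5246 (L l163 (T t439 (L l219 (L l283 (T t3880 (K a107 (M a59 (F (T t5248 (L l219 (L l231 (L l237 (L l513 (T t2498 N)))))))) (K a59 (Fr a107 a111 l103 (V t434)) N))))))))))) (K a107 (M a59 (L l169 (F (T t5247 (L l231 (L l237 (L l513 (T t2498 (K a151 (M a159 (F (T t5248 (L l219 (L l231 (L l237 (L l513 (T t2498 N)))))))) (K a159 (Fr a151 a55 l493 (V t5247)) N)))))))))) (K a59 (Fr a107 a111 l103 (V t4734)) (K a159 (Fr a151 a55 l493 (V t4734)) N)))))))))))))))) (K a99 (M a147 (L l499 (F (T t439 (L l283 (L l289 (L l295 (L l439 (T t4734 (L l283 (T t3880 (K a107 (M a59 (F (T t5247 (L l231 (L l237 (L l513 (T t2498 N))))))) (K a59 (M a107 (F (T t4159 (L l283 (L l427 (T t3682 N)))))) N))))))))))))) (K a107 (M a59 (L l487 (F (T t5247 (L l231 (L l237 (L l513 (T t2498 (K a147 (M a99 (L l169 (F (T t5247 (L l231 (L l237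 (L l513 (T t2498 (K a151 (M a159 (F (T t5248 (L l219 (L l231 (L l237 (L l513 (T t2498 N)))))))) (K a159 (Fr a151 a55 l493 (V t5247)) N)))))))))) (K a99 (M a147 (F (T t5247 (L l231 (L l237 (L l513 (T t2498 N))))))) N)))))))))) (K a59 (M a107 (L l487 (F (T t4159 (L l283 (L l427 (T t3682 (K a147 (Fr a99 a111 l103 (V t4734)) (K a99 (M a147 (F (T t4159 (L l283 (L l427 (T t3682 N)))))) N))))))))) N)))))))))))))))) N)))))))))))))) N))))))))))))))))) (K a199 (M a203 (F (T t1252 (L l487 (L l511 (T t122 (L l487 (L l511 (T t151 (L l314 (L l487 (L l511 (T t152 (L l487 (L l493 (L l511 (T t153 (K a4 (M a60 (L l314 (F (T t423 (L l307 (L l331 (T t69 (T t448 (K a69 (M a134 (F (T t570 (L l307 (L l329 (L l331 (T t69 (T t448 N)))))))) (K a134 (M a69 (F (T t835 (L l46 (L l50 (L l307 (L l331 (T t67 (T t448 N))))))))) N)))))))))) (K a8 (M a60 (F (T t423 (L l56 (L l307 (L l331 (T t69 (L l52 (L l56 (T t448 N)))))))))) (K a21 (M a72 (F (L l15 (L l347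 (T t5250 (L l50 (L l314 (L l337 (T t5251 N))))))))) (K a25 (M a72 (F (L l15 (T t5250 (L l314 (L l337 (T t5251 N))))))) (K a29 (M a72 (F (T t5252 (L l314 (L l337 (T t5251 N)))))) (K a38 (M a72 (F (T t5250 (L l50 (L l314 (L l337 (T t5251 N))))))) (K a42 (M a72 (F (T t5250 (L l314 (L l337 (T t5251 N)))))) (K a46 (M a24 (F (T t5253 (L l301 (L l314 (L l518 (T t5254 N))))))) (K a51 (M a72 (L l487 (L l511 (F (T t5255 (L l314 (L l337 (T t5251 (K a147 (M a99 (L l511 (F (T t5255 (L l314 (L l337 (T t5251 (K a103 (M a155 (L l493 (F (T t5255 (L l314 (L l337 (T t5251 (K a151 (M a55 (F (T t4695 (L l163 (L l271 (L l301 (L l415 (T t5256 N)))))))) (K a55 (M a151 (F (L l495 (T t5255 (L l50 (L l314 (L l337 (T t5251 N)))))))) N))))))))) (K a155 (M a103 (L l169 (F (T t5250 (L l314 (L l337 (T t5251 (K a151 (M a159 (F (T t5257 (L l314 (L l337 (T t5251 N)))))) (K a159 (M a151 (F (T t5257 (L l314 (L l337 (T t5251 N)))))) N))))))))) N))))))))) (K a99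 (M a147 (L l511 (F (T t5255 (L l314 (L l337 (T t5251 (K a103 (M a155 (L l103 (L l493 (F (T t5250 (L l314 (L l337 (T t5251 (K a151 (M a55 (L l103 (F (T t5249 (L l163 (L l271 (L l301 (L l415 (T t5256 (K a107 (M a111 (F (T t4695 (L l131 (L l163 (L l271 (L l301 (L l415 (T t5256 N))))))))) (K a111 (Fr a107 a59 l499 (V t5249)) N))))))))))) (K a55 (Fr a151 a159 l169 (V t5259)) (K a107 (M a111 (L l493 (F (L l98 (T t5252 (L l131 (L l314 (L l337 (T t5251 (K a151 (M a55 (F (T t4695 (L l131 (L l163 (L l271 (L l301 (L l415 (T t5256 N))))))))) (K a55 (Fr a151 a159 l169 (V t5815)) N))))))))))) (K a111 (Fr a107 a59 l499 (V t5256)) N)))))))))))) (K a155 (M a103 (F (T t5255 (L l314 (L l337 (T t5251 N)))))) N))))))))) (K a103 (M a155 (L l487 (L l493 (F (T t5250 (L l314 (L l337 (T t5251 (K a147 (M a99 (L l493 (F (T t5255 (L l314 (L l337 (T t5251 (K a151 (M a55 (F (T t4695 (L l163 (L l271 (L l301 (L l415 (T t5256 N)))))))) (K a55 (M a151 (F (L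 l495 (T t5255 (L l50 (L l314 (L l337 (T t5251 N)))))))) N))))))))) (K a99 (M a147 (L l103 (L l493 (F (T t5250 (L l314 (L l337 (T t5251 (K a151 (M a55 (L l103 (F (T t5249 (L l163 (L l271 (L l301 (L l415 (T t5256 (K a107 (M a111 (F (T t4695 (L l131 (L l163 (L l271 (L l301 (L l415 (T t5256 N))))))))) (K a111 (Fr a107 a59 l499 (V t5249)) N))))))))))) (K a55 (Fr a151 a159 l169 (V t5259)) (K a107 (M a111 (L l493 (F (L l98 (T t5252 (L l131 (L l314 (L l337 (T t5251 (K a151 (M a55 (F (T t4695 (L l131 (L l163 (L l271 (L l301 (L l415 (T t5256 N))))))))) (K a55 (Fr a151 a159 l169 (V t5815)) N))))))))))) (K a111 (Fr a107 a59 l499 (V t5256)) N)))))))))))) (K a151 (M a55 (L l487 (F (T t5249 (L l163 (L l271 (L l301 (L l415 (T t5256 (K a147 (M a99 (F (T t4695 (L l163 (L l271 (L l301 (L l415 (T t5256 N)))))))) (K a99 (M a147 (L l103 (F (T t5249 (L l163 (L l271 (L l301 (L l415 (T t5256 (K a107 (M a111 (F (T t4695 (L l131 (L l163 (L l271 (L l301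 (L l415 (T t5256 N))))))))) (K a111 (Fr a107 a59 l499 (V t5249)) N))))))))))) N))))))))))) (K a55 (M a151 (L l487 (F (L l495 (T t5255 (L l50 (L l314 (L l337 (T t5251 (K a147 (M a99 (F (L l495 (T t5255 (L l50 (L l314 (L l337 (T t5251 N)))))))) (K a99 (Fr a147 a159 l169 (V t5259)) N))))))))))) N)))))))))))) (K a155 (M a103 (L l487 (F (T t5255 (L l314 (L l337 (T t5251 (K a147 (M a99 (L l169 (F (T t5250 (L l314 (L l337 (T t5251 (K a151 (M a159 (F (T t5257 (L l314 (L l337 (T t5251 N)))))) (K a159 (M a151 (F (T t5257 (L l314 (L l337 (T t5251 N)))))) N))))))))) (K a99 (M a147 (F (T t5255 (L l314 (L l337 (T t5251 N)))))) N))))))))) N)))))))))))) N)))))))))))))))))))))))))) (K a203 (M a199 (F (T t150 (L l487 (L l511 (T t122 (L l487 (L l511 (T t151 (L l487 (L l499 (L l511 (T t152 (L l320 (L l487 (L l511 (T t153 (K a4 (M a60 (F (T t423 (L l307 (L l331 (T t69 (T t448 N))))))) (K a8 (M a60 (L l320 (F (T t423 (L l56 (L l307 (L l331 (T t69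 (L l52 (L l56 (T t448 (K a73 (M a138 (F (T t835 (L l307 (L l331 (T t67 (L l52 (L l56 (T t448 N))))))))) (K a138 (M a73 (F (T t116 (L l325 (L l337 (T t398 (L l52 (L l56 (T t448 N))))))))) N))))))))))))) (K a21 (M a68 (F (T t162 (L l320 (L l331 (T t5260 N)))))) (K a25 (M a68 (F (T t162 (L l56 (L l320 (L l331 (T t5260 N))))))) (K a29 (M a20 (F (T t1268 (L l295 (L l320 (L l512 (T t5261 N))))))) (K a38 (M a132 (F (L l26 (T t5262 (L l320 (L l337 (T t5263 N))))))) (K a42 (M a132 (F (L l26 (L l390 (T t5264 (L l56 (L l320 (L l337 (T t5263 N))))))))) (K a46 (M a132 (F (T t5265 (L l320 (L l337 (T t5263 N)))))) (K a51 (M a68 (L l487 (L l511 (F (T t162 (L l320 (L l331 (T t5260 (K a147 (M a99 (L l511 (F (T t162 (L l320 (L l331 (T t5260 (K a103 (M a155 (F (T t162 (L l125 (L l320 (L l331 (T t5260 N))))))) (K a155 (M a103 (L l169 (L l499 (F (T t2173 (L l320 (L l331 (T t5260 (K a151 (M a159 (L l499 (F (T t2173 (L l320 (L l331 (T t5260 (K a107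 (M a59 (F (T t5248 (L l219 (L l289 (L l295 (L l439 (T t2245 N)))))))) (K a59 (Fr a107 a111 l103 (V t2174)) N))))))))) (K a107 (M a59 (L l169 (F (T t5247 (L l289 (L l295 (L l439 (T t2245 (K a151 (M a159 (F (T t5248 (L l219 (L l289 (L l295 (L l439 (T t2245 N)))))))) (K a159 (Fr a151 a55 l493 (V t5248)) N)))))))))) (K a59 (Fr a107 a111 l103 (V t5266)) (K a159 (Fr a151 a55 l493 (V t5816)) N)))))))))))) N))))))))) (K a99 (M a147 (L l511 (F (T t162 (L l320 (L l331 (T t5260 (K a103 (M a155 (L l103 (F (T t2173 (L l125 (L l320 (L l331 (T t5260 (K a107 (M a111 (F (T t2173 (L l125 (L l320 (L l331 (T t5260 N))))))) (K a111 (M a107 (F (L l99 (T t162 (L l125 (L l320 (L l331 (T t5260 N)))))))) N)))))))))) (K a155 (M a103 (L l499 (F (T t2173 (L l320 (L l331 (T t5260 (K a107 (M a59 (F (T t5248 (L l289 (L l295 (L l439 (T t767 N))))))) (K a59 (M a107 (F (T t162 (L l56 (L l320 (L l331 (T t5260 N))))))) N))))))))) N))))))))) (K a103 (M a155 (L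 l487 (F (T t162 (L l125 (L l320 (L l331 (T t5260 (K a147 (M a99 (F (T t162 (L l125 (L l320 (L l331 (T t5260 N))))))) (K a99 (M a147 (L l103 (F (T t2173 (L l125 (L l320 (L l331 (T t5260 (K a107 (M a111 (F (T t2173 (L l125 (L l320 (L l331 (T t5260 N))))))) (K a111 (M a107 (F (L l99 (T t162 (L l125 (L l320 (L l331 (T t5260 N)))))))) N)))))))))) N)))))))))) (K a155 (M a103 (L l487 (L l499 (F (T t2173 (L l320 (L l331 (T t5260 (K a147 (M a99 (L l169 (L l499 (F (T t2173 (L l320 (L l331 (T t5260 (K a151 (M a159 (L l499 (F (T t2173 (L l320 (L l331 (T t5260 (K a107 (M a59 (F (T t5248 (L l219 (L l289 (L l295 (L l439 (T t2245 N)))))))) (K a59 (Fr a107 a111 l103 (V t2174)) N))))))))) (K a107 (M a59 (L l169 (F (T t5247 (L l289 (L l295 (L l439 (T t2245 (K a151 (M a159 (F (T t5248 (L l219 (L l289 (L l295 (L l439 (T t2245 N)))))))) (K a159 (Fr a151 a55 l493 (V t5248)) N)))))))))) (K a59 (Fr a107 a111 l103 (V t5266)) (K a159 (Fr a151 a55 l493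 (V t5816)) N)))))))))))) (K a99 (M a147 (L l499 (F (T t2173 (L l320 (L l331 (T t5260 (K a107 (M a59 (F (T t5248 (L l289 (L l295 (L l439 (T t767 N))))))) (K a59 (M a107 (F (T t162 (L l56 (L l320 (L l331 (T t5260 N))))))) N))))))))) (K a107 (M a59 (L l487 (F (T t5248 (L l289 (L l295 (L l439 (T t767 (K a147 (M a99 (L l169 (F (T t5247 (L l289 (L l295 (L l439 (T t2245 (K a151 (M a159 (F (T t5248 (L l219 (L l289 (L l295 (L l439 (T t2245 N)))))))) (K a159 (Fr a151 a55 l493 (V t5248)) N)))))))))) (K a99 (M a147 (F (T t5248 (L l289 (L l295 (L l439 (T t767 N))))))) N)))))))))) (K a59 (M a107 (L l487 (F (T t162 (L l56 (L l320 (L l331 (T t5260 (K a147 (Fr a99 a111 l103 (V t5266)) (K a99 (M a147 (F (T t162 (L l56 (L l320 (L l331 (T t5260 N))))))) N)))))))))) N)))))))))))) N)))))))))))) N)))))))))))))))))))))))))) N)))))))))))))))))))))))))))⟩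
def e0_63__207_64 : Ent 4 := ⟨[a0, a63], [a207, a197], (M a192 (F (T t1800 (L l289 (L l491 (T t21 (L l289 (L l491 (T t35 (L l289 (T t202 (L l275 (L l289 (T t37 (K a64 (M a12 (F (T t2061 (L l301 (L l491 (T t450 (L l80 (L l144 (L l275 (T t160 N)))))))))) (K a128 (M a12 (F (T t150 (L l220 (L l301 (L l491 (T t450 (L l275 (T t160 N))))))))) (K a21 (M a240 (F (T t4730 (L l325 (L l347 (L l491 (T t4220 (L l347 (L l491 (T t4221 N)))))))))) (K a85 (M a16 (F (T t504 (L l303 (T t210 (L l94 (L l144 (T t211 N)))))))) (K a149 (M a48 (L l491 (F (T t1922 (L l311 (L l325 (T t2 (L l170 (L l220 (L l303 (L l325 (L l347 (T t5419 (L l311 (L l325 (L l375 (T t214 (K a101 (Fr a53 a58 l38 (V t5367)) (K a53 (M a101 (F (T t1922 (L l47 (L l289 (L l347 (T t5424 (L l170 (L l220 (L l311 (T t5425 N))))))))))) N))))))))))))))))))) (K a42 (M a240 (F (T t5426 (L l325 (L l491 (T t4220 (L l491 (T t4221 N)))))))) (K a106 (M a48 (F (T t55 (L l325 (L l491 (T t1 (L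 l325 (L l411 (L l491 (T t213 (L l104 (L l144 (L l311 (L l325 (L l390 (L l498 (T t214 N))))))))))))))))) (K a170 (M a32 (F (L l303 (T t218 (L l325 (T t219 (L l180 (L l220 (L l491 (T t220 N)))))))))) (K a255 (M a16 (L l289 (F (T t504 (L l266 (L l303 (T t210 (T t211 (K a223 (M a239 (F (T t1805 (L l325 (L l361 (L l469 (T t97 (T t211 N)))))))) (K a239 (M a223 (F (L l404 (T t504 (T t5427 (L l266 (L l303 (L l404 (T t210 N))))))))) N)))))))))) N)))))))))))))))))))))))⟩
def e0_63__207_65 : Ent 4 := ⟨[a0, a63], [a207, a198], (M a12 (F (T t150 (L l511 (T t122 (L l511 (T t151 (L l511 (T t152 (L l511 (T t153 (K a4 (M a60 (F (T t570 (L l46 (L l50 (L l331 (T t67 (T t448 N)))))))) (K a8 (M a60 (F (T t570 (L l331 (T t67 (L l52 (L l56 (T t448 N)))))))) (K a21 (M a192 (F (T t158 (L l231 (L l237 (T t156 (L l15 (L l347 (T t157 N))))))))) (K a25 (M a192 (F (T t155 (L l231 (L l237 (T t156 (L l289 (T t21 N)))))))) (K a29 (M a192 (F (T t1681 (L l231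 (L l237 (T t156 (T t160 N))))))) (K a38 (M a192 (F (T t161 (L l231 (L l237 (T t156 (L l289 (T t21 N)))))))) (K a42 (M a192 (F (T t161 (L l231 (L l237 (T t156 (L l56 (T t157 N)))))))) (K a46 (M a192 (F (T t57 (L l231 (L l237 (T t156 (L l26 (L l408 (T t160 N))))))))) (K a51 (M a192 (L l511 (F (T t1681 (L l231 (L l237 (L l513 (T t156 (L l301 (L l415 (T t450 (K a103 (M a155 (F (T t1800 (L l301 (L l415 (T t543 (L l229 (L l231 (L l237 (L l513 (T t468 N))))))))))) (K a155 (M a103 (F (T t1800 (L l301 (L l415 (T t543 (L l229 (L l231 (L l237 (L l513 (T t468 N))))))))))) N))))))))))))) N))))))))))))))))))))⟩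
def e0_63__207_66 : Ent 4 := ⟨[a0, a63], [a207, a199], (M a48 (L l235 (F (T t48 (L l325 (T t1 (L l325 (T t2 (L l325 (T t3 (L l325 (T t0 (K a16 (M a61 (L l235 (F (T t529 (L l511 (T t262 (L l10 (T t530 (K a195 (M a203 (F (T t529 (L l487 (L l511 (T t262 (L l10 (T t530 N)))))))) (K a203 (M a195 (F (T t529 (L l344 (T t5817 N))))) N)))))))))) (K a32 (M a61 (L l235 (F (T t5612 (L l28 (L l331 (T t505 (L l28 (T t530 (K a195 (M a203 (F (T t5612 (L l28 (L l307 (L l331 (T t505 (L l28 (T t530 N))))))))) (K a203 (M a195 (F (L l511 (T t262 (L l28 (T t5613 N)))))) N))))))))))) (K a21 (M a80 (L l235 (F (T t1831 (L l47 (L l289 (T t942 (L l289 (T t1676 (L l47 (L l236 (T t3328 (K a195 (M a203 (F (T t1831 (L l47 (L l289 (L l295 (T t942 (L l289 (T t1676 (L l47 (L l228 (L l236 (T t3328 N))))))))))))) (K a203 (M a195 (F (T t5623 (L l47 (L l289 (T t942 N)))))) N)))))))))))))) (K a37 (M a192 (L l235 (F (T t55 (L l289 (T t21 (L l28 (T t31 (K a195 (M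 a203 (F (T t36 (L l47 (L l289 (L l295 (T t35 (L l47 (T t525 N))))))))) (K a203 (M a195 (F (T t36 (L l499 (L l506 (T t2653 N)))))) N)))))))))) (K a53 (M a192 (L l235 (F (T t55 (L l289 (L l491 (T t21 (T t31 (K a195 (M a203 (F (T t1681 (L l273 (L l303 (T t28 (L l47 (L l491 (T t525 N))))))))) (K a203 (M a195 (F (T t5620 (L l289 (L l491 (T t21 N)))))) N)))))))))) (K a26 (M a59 (L l235 (F (L l493 (T t4674 (L l18 (L l326 (L l493 (T t2388 (L l12 (L l18 (T t4668 (K a195 (M a203 (F (L l18 (L l493 (T t5621 (L l236 (L l518 (T t5622 N)))))))) (K a203 (M a195 (F (T t5623 (L l57 (L l493 (L l500 (L l506 (T t4667 N)))))))) N)))))))))))))) (K a42 (M a80 (L l235 (F (L l303 (T t1678 (L l289 (T t942 (L l28 (L l289 (L l390 (T t1676 (L l28 (L l236 (T t3328 (K a195 (M a203 (F (L l28 (T t1831 (L l289 (L l295 (T t942 (L l28 (L l289 (L l390 (T t1676 (L l28 (L l228 (L l236 (T t3328 N))))))))))))))) (K a203 (M a195 (F (T t5627 (L l289 (T t942 N))))) N))))))))))))))))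 (K a58 (M a192 (L l235 (F (T t57 (L l303 (T t27 (L l54 (L l498 (T t31 (K a195 (M a203 (F (T t47 (L l273 (L l303 (T t28 (T t525 N))))))) (K a203 (M a195 (F (T t5620 (L l289 (T t21 N))))) N))))))))))) (K a15 (M a3 (L l235 (L l325 (F (T t630 (L l73 (L l511 (T t86 (L l63 (T t87 (K a195 (M a203 (L l325 (L l337 (F (T t630 (L l73 (L l487 (L l511 (T t1249 (L l63 (T t87 (K a135 (M a75 (L l313 (L l325 (F (T t1341 (L l73 (L l487 (L l511 (T t1249 (L l63 (T t560 (K a7 (M a71 (L l325 (F (T t136 (L l63 (L l506 (L l518 (T t358 (L l63 (T t87 (K a79 (M a143 (F (T t85 (L l73 (L l487 (L l511 (T t86 (L l49 (L l63 (T t560 N)))))))))) (K a143 (Fr a79 a67 l83 (V t1249)) N)))))))))))) (K a71 (M a7 (L l325 (F (T t1341 (L l73 (L l487 (L l511 (T t348 (L l63 (T t87 (K a79 (M a143 (F (T t1341 (L l73 (L l487 (L l511 (T t1249 (L l63 (T t560 N))))))))) (K a143 (M a79 (L l159 (F (T t136 (L l63 (L l506 (L l518 (T t137 (L l63 (T t87 (K a131 (Fr a139 a11 l319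 (V t137)) (K a139 (M a131 (F (T t136 (L l63 (L l506 (L l518 (T t137 (L l63 (T t560 N))))))))) N)))))))))))) N)))))))))))) (K a79 (M a143 (L l313 (F (T t136 (L l63 (L l506 (L l518 (T t665 (L l63 (T t560 (K a7 (M a71 (F (T t85 (L l73 (L l487 (L l511 (T t86 (L l49 (L l63 (T t560 N)))))))))) (K a71 (M a7 (F (T t1341 (L l73 (L l487 (L l511 (T t1249 (L l63 (T t560 N))))))))) N)))))))))))) (K a143 (M a79 (L l159 (L l313 (F (T t1341 (L l73 (L l487 (L l511 (T t348 (L l63 (T t87 (K a131 (Fr a139 a11 l319 (V t137)) (K a7 (Fr a71 a67 l83 (V t1249)) (K a71 (M a7 (L l159 (F (T t136 (L l63 (L l506 (L l518 (T t137 (L l63 (T t87 (K a131 (Fr a139 a11 l319 (V t137)) (K a139 (M a131 (F (T t136 (L l63 (L l506 (L l518 (T t137 (L l63 (T t560 N))))))))) N)))))))))))) (K a139 (M a131 (L l313 (F (T t632 (L l73 (L l487 (L l511 (T t559 (L l63 (T t87 (K a7 (Fr a71 a67 l83 (V t348)) (K a71 (M a7 (F (T t136 (L l63 (L l506 (L l518 (T t137 (L l63 (T t560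 N))))))))) N)))))))))))) N))))))))))))))) N))))))))))))))) (K a75 (M a135 (L l325 (F (T t630 (L l73 (L l487 (L l511 (T t1249 (L l63 (T t87 (K a79 (M a143 (L l83 (F (T t4666 (L l63 (L l506 (L l518 (T t137 (L l63 (T t87 (K a67 (M a71 (F (T t85 (L l73 (L l487 (L l511 (T t1249 (L l63 (T t560 N))))))))) (K a71 (M a67 (F (T t85 (L l73 (L l487 (L l511 (T t1249 (L l63 (T t560 N))))))))) N)))))))))))) (K a143 (M a79 (F (T t630 (L l73 (L l487 (L l511 (T t1249 (L l63 (T t87 N))))))))) N)))))))))))) (K a79 (M a143 (L l337 (F (T t630 (L l73 (L l487 (L l511 (T t1249 (L l63 (T t87 (K a135 (M a75 (L l313 (F (T t136 (L l63 (L l506 (L l518 (T t665 (L l63 (T t560 (K a7 (M a71 (F (T t85 (L l73 (L l487 (L l511 (T t86 (L l49 (L l63 (T t560 N)))))))))) (K a71 (M a7 (F (T t1341 (L l73 (L l487 (L l511 (T t1249 (L l63 (T t560 N))))))))) N)))))))))))) (K a75 (M a135 (L l83 (F (T t4666 (L l63 (L l506 (L l518 (T t137 (L l63 (T t87 (K a67 (M a71 (F (T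 t85 (L l73 (L l487 (L l511 (T t1249 (L l63 (T t560 N))))))))) (K a71 (M a67 (F (T t85 (L l73 (L l487 (L l511 (T t1249 (L l63 (T t560 N))))))))) N)))))))))))) N)))))))))))) (K a143 (M a79 (L l337 (F (T t630 (L l73 (L l487 (L l511 (T t1249 (L l63 (T t87 (K a135 (M a75 (L l159 (L l313 (F (T t1341 (L l73 (L l487 (L l511 (T t348 (L l63 (T t87 (K a131 (Fr a139 a11 l319 (V t137)) (K a7 (Fr a71 a67 l83 (V t1249)) (K a71 (M a7 (L l159 (F (T t136 (L l63 (L l506 (L l518 (T t137 (L l63 (T t87 (K a131 (Fr a139 a11 l319 (V t137)) (K a139 (M a131 (F (T t136 (L l63 (L l506 (L l518 (T t137 (L l63 (T t560 N))))))))) N)))))))))))) (K a139 (M a131 (L l313 (F (T t632 (L l73 (L l487 (L l511 (T t559 (L l63 (T t87 (K a7 (Fr a71 a67 l83 (V t348)) (K a71 (M a7 (F (T t136 (L l63 (L l506 (L l518 (T t137 (L l63 (T t560 N))))))))) N)))))))))))) N))))))))))))))) (K a75 (M a135 (F (T t630 (L l73 (L l487 (L l511 (T t1249 (L l63 (T t87 N))))))))) N))))))))))))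 N))))))))))))))) (K a203 (M a195 (L l325 (F (T t632 (L l301 (L l481 (T t5818 (K a79 (M a143 (F (T t5619 (L l83 (L l289 (L l469 (L l499 (T t5819 N)))))))) (K a143 (M a79 (F (T t5619 (L l213 (L l289 (L l469 (L l499 (T t5819 N)))))))) N))))))))) (K a79 (M a143 (L l235 (F (T t630 (L l73 (L l511 (T t1249 (L l63 (T t87 (K a195 (M a203 (L l337 (F (T t630 (L l73 (L l487 (L l511 (T t1249 (L l63 (T t87 (K a135 (M a75 (L l313 (F (T t136 (L l63 (L l506 (L l518 (T t665 (L l63 (T t560 (K a7 (M a71 (F (T t85 (L l73 (L l487 (L l511 (T t86 (L l49 (L l63 (T t560 N)))))))))) (K a71 (M a7 (F (T t1341 (L l73 (L l487 (L l511 (T t1249 (L l63 (T t560 N))))))))) N)))))))))))) (K a75 (M a135 (L l83 (F (T t4666 (L l63 (L l506 (L l518 (T t137 (L l63 (T t87 (K a67 (M a71 (F (T t85 (L l73 (L l487 (L l511 (T t1249 (L l63 (T t560 N))))))))) (K a71 (M a67 (F (T t85 (L l73 (L l487 (L l511 (T t1249 (L l63 (T t560 N))))))))) N)))))))))))) N)))))))))))) (K a203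 (M a195 (F (T t5619 (L l83 (L l289 (L l469 (L l499 (T t5819 N)))))))) N))))))))))) (K a143 (M a79 (L l235 (F (T t630 (L l73 (L l511 (T t1249 (L l63 (T t87 (K a195 (M a203 (L l337 (F (T t630 (L l73 (L l487 (L l511 (T t1249 (L l63 (T t87 (K a135 (M a75 (L l159 (L l313 (F (T t1341 (L l73 (L l487 (L l511 (T t348 (L l63 (T t87 (K a131 (Fr a139 a11 l319 (V t137)) (K a7 (Fr a71 a67 l83 (V t1249)) (K a71 (M a7 (L l159 (F (T t136 (L l63 (L l506 (L l518 (T t137 (L l63 (T t87 (K a131 (Fr a139 a11 l319 (V t137)) (K a139 (M a131 (F (T t136 (L l63 (L l506 (L l518 (T t137 (L l63 (T t560 N))))))))) N)))))))))))) (K a139 (M a131 (L l313 (F (T t632 (L l73 (L l487 (L l511 (T t559 (L l63 (T t87 (K a7 (Fr a71 a67 l83 (V t348)) (K a71 (M a7 (F (T t136 (L l63 (L l506 (L l518 (T t137 (L l63 (T t560 N))))))))) N)))))))))))) N))))))))))))))) (K a75 (M a135 (F (T t630 (L l73 (L l487 (L l511 (T t1249 (L l63 (T t87 N))))))))) N)))))))))))) (K a203 (M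 a195 (F (T t5619 (L l213 (L l289 (L l469 (L l499 (T t5819 N)))))))) N))))))))))) N)))))))))))))) (K a195 (M a203 (F (T t48 (L l325 (L l337 (T t1 (L l325 (L l337 (T t2 (L l325 (L l337 (T t3 (L l325 (L l337 (T t0 (K a16 (M a59 (F (L l10 (L l18 (L l493 (T t5621 (L l236 (L l518 (T t5622 N))))))))) (K a32 (M a59 (F (L l493 (T t5621 (L l236 (L l518 (T t5622 N))))))) (K a21 (M a106 (F (L l347 (T t2289 (L l47 (L l50 (L l237 (L l493 (T t5632 N))))))))) (K a37 (M a192 (F (T t36 (L l47 (L l289 (L l295 (T t35 (L l47 (T t525 N))))))))) (K a53 (M a192 (F (T t1681 (L l273 (L l303 (T t28 (L l47 (L l491 (T t525 N))))))))) (K a26 (M a59 (F (L l18 (L l493 (T t5621 (L l236 (L l518 (T t5622 N)))))))) (K a42 (M a106 (F (L l28 (T t2289 (L l66 (L l237 (L l493 (T t5632 N)))))))) (K a58 (M a192 (F (T t47 (L l273 (L l303 (T t28 (T t525 N))))))) (K a15 (M a3 (L l325 (L l337 (F (T t630 (L l73 (L l487 (L l511 (T t1249 (L l63 (T t87 (K a135 (M a75 (L l313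 (L l325 (F (T t1341 (L l73 (L l487 (L l511 (T t1249 (L l63 (T t560 (K a7 (M a71 (L l325 (F (T t136 (L l63 (L l506 (L l518 (T t358 (L l63 (T t87 (K a79 (M a143 (F (T t85 (L l73 (L l487 (L l511 (T t86 (L l49 (L l63 (T t560 N)))))))))) (K a143 (Fr a79 a67 l83 (V t1249)) N)))))))))))) (K a71 (M a7 (L l325 (F (T t1341 (L l73 (L l487 (L l511 (T t348 (L l63 (T t87 (K a79 (M a143 (F (T t1341 (L l73 (L l487 (L l511 (T t1249 (L l63 (T t560 N))))))))) (K a143 (M a79 (L l159 (F (T t136 (L l63 (L l506 (L l518 (T t137 (L l63 (T t87 (K a131 (Fr a139 a11 l319 (V t137)) (K a139 (M a131 (F (T t136 (L l63 (L l506 (L l518 (T t137 (L l63 (T t560 N))))))))) N)))))))))))) N)))))))))))) (K a79 (M a143 (L l313 (F (T t136 (L l63 (L l506 (L l518 (T t665 (L l63 (T t560 (K a7 (M a71 (F (T t85 (L l73 (L l487 (L l511 (T t86 (L l49 (L l63 (T t560 N)))))))))) (K a71 (M a7 (F (T t1341 (L l73 (L l487 (L l511 (T t1249 (L l63 (T t560 N))))))))) N))))))))))))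 (K a143 (M a79 (L l159 (L l313 (F (T t1341 (L l73 (L l487 (L l511 (T t348 (L l63 (T t87 (K a131 (Fr a139 a11 l319 (V t137)) (K a7 (Fr a71 a67 l83 (V t1249)) (K a71 (M a7 (L l159 (F (T t136 (L l63 (L l506 (L l518 (T t137 (L l63 (T t87 (K a131 (Fr a139 a11 l319 (V t137)) (K a139 (M a131 (F (T t136 (L l63 (L l506 (L l518 (T t137 (L l63 (T t560 N))))))))) N)))))))))))) (K a139 (M a131 (L l313 (F (T t632 (L l73 (L l487 (L l511 (T t559 (L l63 (T t87 (K a7 (Fr a71 a67 l83 (V t348)) (K a71 (M a7 (F (T t136 (L l63 (L l506 (L l518 (T t137 (L l63 (T t560 N))))))))) N)))))))))))) N))))))))))))))) N))))))))))))))) (K a75 (M a135 (L l325 (F (T t630 (L l73 (L l487 (L l511 (T t1249 (L l63 (T t87 (K a79 (M a143 (L l83 (F (T t4666 (L l63 (L l506 (L l518 (T t137 (L l63 (T t87 (K a67 (M a71 (F (T t85 (L l73 (L l487 (L l511 (T t1249 (L l63 (T t560 N))))))))) (K a71 (M a67 (F (T t85 (L l73 (L l487 (L l511 (T t1249 (L l63 (T t560 N))))))))) N))))))))))))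 (K a143 (M a79 (F (T t630 (L l73 (L l487 (L l511 (T t1249 (L l63 (T t87 N))))))))) N)))))))))))) (K a79 (M a143 (L l337 (F (T t630 (L l73 (L l487 (L l511 (T t1249 (L l63 (T t87 (K a135 (M a75 (L l313 (F (T t136 (L l63 (L l506 (L l518 (T t665 (L l63 (T t560 (K a7 (M a71 (F (T t85 (L l73 (L l487 (L l511 (T t86 (L l49 (L l63 (T t560 N)))))))))) (K a71 (M a7 (F (T t1341 (L l73 (L l487 (L l511 (T t1249 (L l63 (T t560 N))))))))) N)))))))))))) (K a75 (M a135 (L l83 (F (T t4666 (L l63 (L l506 (L l518 (T t137 (L l63 (T t87 (K a67 (M a71 (F (T t85 (L l73 (L l487 (L l511 (T t1249 (L l63 (T t560 N))))))))) (K a71 (M a67 (F (T t85 (L l73 (L l487 (L l511 (T t1249 (L l63 (T t560 N))))))))) N)))))))))))) N)))))))))))) (K a143 (M a79 (L l337 (F (T t630 (L l73 (L l487 (L l511 (T t1249 (L l63 (T t87 (K a135 (M a75 (L l159 (L l313 (F (T t1341 (L l73 (L l487 (L l511 (T t348 (L l63 (T t87 (K a131 (Fr a139 a11 l319 (V t137)) (K a7 (Fr a71 a67 l83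 (V t1249)) (K a71 (M a7 (L l159 (F (T t136 (L l63 (L l506 (L l518 (T t137 (L l63 (T t87 (K a131 (Fr a139 a11 l319 (V t137)) (K a139 (M a131 (F (T t136 (L l63 (L l506 (L l518 (T t137 (L l63 (T t560 N))))))))) N)))))))))))) (K a139 (M a131 (L l313 (F (T t632 (L l73 (L l487 (L l511 (T t559 (L l63 (T t87 (K a7 (Fr a71 a67 l83 (V t348)) (K a71 (M a7 (F (T t136 (L l63 (L l506 (L l518 (T t137 (L l63 (T t560 N))))))))) N)))))))))))) N))))))))))))))) (K a75 (M a135 (F (T t630 (L l73 (L l487 (L l511 (T t1249 (L l63 (T t87 N))))))))) N)))))))))))) N))))))))))))))) N)))))))))))))))))))))))) (K a203 (M a195 (F (T t610 (L l301 (T t5633 (K a16 (M a64 (F (L l289 (T t397 (L l344 (T t5634 N)))))) (K a32 (M a64 (F (T t749 (L l376 (T t5634 N))))) N))))))) N)))))))))))))))))))))))⟩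
def e0_63__207_67 : Ent 4 := ⟨[a0, a63], [a207, a208], (M a12 (F (T t150 (L l511 (T t122 (L l511 (T t151 (L l511 (T t152 (L l511 (T t153 (K a4 (M a60 (F (T t570 (L l46 (L l50 (L l331 (T t67 (T t448 N)))))))) (K a8 (M a60 (F (T t116 (L l325 (T t398 (L l52 (L l56 (T t448 N)))))))) (K a21 (M a192 (F (T t158 (L l231 (T t156 (L l15 (L l347 (L l375 (T t157 N))))))))) (K a25 (M a192 (F (T t158 (L l231 (T t156 (L l289 (L l375 (T t21 N)))))))) (K a29 (M a192 (F (T t159 (L l289 (L l371 (L l375 (T t21 (L l246 (T t160 N))))))))) (K a38 (M a192 (F (T t1725 (L l301 (L l375 (T t450 (L l289 (L l375 (T t21 N))))))))) (K a42 (M a192 (F (T t496 (L l301 (L l375 (T t450 (L l56 (L l375 (T t157 N))))))))) (K a46 (M a192 (F (T t1725 (L l289 (L l375 (T t21 (L l26 (L l246 (L l408 (T t160 N)))))))))) (K a51 (M a149 (L l511 (F (T t4374 (L l238 (L l246 (T t960 (K a103 (M a155 (F (T t4374 (L l238 (L l246 (T t960 N)))))) (K a155 (M a103 (F (T t4374 (L l238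 (L l246 (T t960 N)))))) N))))))))) N))))))))))))))))))))⟩
def e0_63__207_68 : Ent 4 := ⟨[a0, a63], [a207, a209], (M a60 (F (T t116 (L l331 (T t67 (L l331 (T t43 (L l331 (T t68 (L l331 (T t69 (K a20 (M a48 (F (T t138 (L l11 (L l325 (T t1 (L l11 (T t235 N)))))))) (K a40 (M a48 (F (T t48 (L l511 (T t64 (L l52 (T t235 N))))))) (K a21 (M a192 (F (T t81 (L l11 (L l291 (T t79 (L l347 (L l371 (T t74 N))))))))) (K a41 (M a192 (F (T t81 (L l291 (T t79 (L l65 (L l289 (L l371 (T t35 N))))))))) (K a61 (M a192 (F (T t1334 (L l65 (L l289 (L l371 (L l515 (T t35 (L l243 (T t80 N)))))))))) (K a22 (M a192 (F (T t2658 (L l289 (L l371 (T t21 (L l235 (L l371 (T t73 N))))))))) (K a42 (M a192 (F (T t1334 (L l235 (L l371 (T t73 (L l22 (L l371 (T t74 N))))))))) (K a62 (M a192 (F (T t2658 (L l289 (L l371 (T t35 (L l66 (L l243 (L l516 (T t80 N)))))))))) (K a3 (M a149 (L l331 (F (T t5317 (L l243 (L l269 (T t1256 (K a71 (M a139 (F (T t5314 (L l236 (L l243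 (L l272 (L l309 (T t424 (L l269 (T t462 N)))))))))) (K a139 (M a71 (F (T t5314 (L l236 (L l243 (L l272 (L l309 (T t424 (L l269 (T t462 N)))))))))) N))))))))) N))))))))))))))))))))⟩
def e0_63__207_69 : Ent 4 := ⟨[a0, a63], [a207, a210], (M a12 (F (T t150 (L l511 (T t122 (L l511 (T t151 (L l511 (T t152 (L l511 (T t153 (K a4 (M a60 (F (T t570 (L l46 (L l50 (L l331 (T t67 (T t448 N)))))))) (K a8 (M a60 (F (T t570 (L l331 (T t67 (L l52 (L l56 (T t448 N)))))))) (K a21 (M a192 (F (T t158 (L l231 (T t156 (L l15 (L l270 (L l347 (T t157 N))))))))) (K a25 (M a192 (F (T t159 (L l15 (L l270 (L l301 (T t450 (L l289 (T t21 N))))))))) (K a29 (M a192 (F (T t159 (L l289 (L l371 (T t21 (T t160 N))))))) (K a38 (M a192 (F (T t576 (L l231 (T t156 (L l289 (T t21 N))))))) (K a42 (M a192 (F (T t576 (L l231 (T t156 (L l56 (L l270 (T t157 N)))))))) (K a46 (M a192 (F (T t57 (L l231 (T t156 (L l26 (L l408 (T t160 N)))))))) (K a51 (M a149 (L l511 (F (T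 t4374 (L l238 (T t960 (K a103 (M a155 (F (T t25 (L l236 (L l238 (L l489 (T t2638 (L l238 (T t649 N))))))))) (K a155 (M a103 (F (T t25 (L l236 (L l238 (L l489 (T t2638 (L l238 (T t649 N))))))))) N)))))))) N))))))))))))))))))))⟩
def e0_63__207_70 : Ent 4 := ⟨[a0, a63], [a207, a211], (M a60 (F (T t116 (L l331 (T t67 (L l331 (T t43 (L l331 (T t68 (L l331 (T t69 (K a20 (M a48 (F (T t138 (L l11 (L l325 (T t1 (L l11 (T t235 N)))))))) (K a40 (M a48 (F (T t246 (L l325 (T t1 (L l52 (T t235 N))))))) (K a21 (M a192 (F (T t2647 (L l235 (L l271 (L l347 (T t73 (L l245 (L l347 (T t74 N)))))))))) (K a41 (M a192 (F (T t1343 (L l291 (T t79 (L l65 (L l289 (T t35 N)))))))) (K a61 (M a192 (F (T t1800 (L l291 (T t79 (L l373 (T t80 N))))))) (K a22 (M a192 (F (T t614 (L l11 (L l291 (T t79 (L l11 (L l289 (T t35 N))))))))) (K a42 (M a192 (F (T t614 (L l291 (T t79 (L l22 (L l245 (T t74 N)))))))) (K a62 (M a192 (F (T t57 (L l291 (T t79 (L l66 (L l373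 (L l516 (T t80 N))))))))) (K a3 (M a85 (L l331 (F (T t447 (L l245 (T t115 (K a71 (M a139 (F (T t447 (L l245 (T t115 N))))) (K a139 (M a71 (F (T t447 (L l245 (T t115 N))))) N)))))))) N))))))))))))))))))))⟩
def e0_63__207_71 : Ent 4 := ⟨[a0, a63], [a207, a213], (M a12 (F (T t1252 (L l347 (L l511 (T t122 (L l511 (T t151 (L l347 (L l511 (T t152 (L l511 (T t153 (K a4 (M a60 (F (T t570 (L l46 (L l50 (L l331 (L l347 (T t67 (T t448 N))))))))) (K a8 (M a60 (F (T t423 (L l331 (L l347 (T t67 (L l52 (L l56 (T t448 N))))))))) (K a21 (M a85 (F (T t4326 (L l15 (L l278 (T t574 (L l231 (T t124 N)))))))) (K a25 (M a192 (F (T t158 (L l231 (T t156 (L l289 (L l347 (T t21 N)))))))) (K a29 (M a192 (F (T t159 (L l289 (L l347 (L l371 (T t21 (L l347 (L l371 (T t2623 N)))))))))) (K a38 (M a192 (F (T t1725 (L l301 (L l347 (T t450 (L l289 (L l347 (T t21 N))))))))) (K a42 (M a192 (F (T t496 (L l301 (L l347 (T t450 (L l56 (L l278 (L l347 (T t157 N))))))))))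 (K a46 (M a192 (F (T t159 (L l289 (L l347 (T t21 (L l347 (T t2623 N)))))))) (K a51 (M a192 (L l511 (F (T t158 (L l231 (L l513 (T t156 (L l289 (L l347 (L l439 (T t21 (K a103 (M a155 (F (T t158 (L l231 (L l278 (L l513 (T t468 (L l289 (L l347 (L l439 (T t21 N))))))))))) (K a155 (M a103 (F (T t158 (L l231 (L l278 (L l513 (T t468 (L l289 (L l347 (L l439 (T t21 N))))))))))) N))))))))))))) N))))))))))))))))))))))⟩
def e0_63__207_72 : Ent 4 := ⟨[a0, a63], [a207, a214], (M a12 (F (T t150 (L l511 (T t122 (L l511 (T t151 (L l511 (T t152 (L l511 (T t153 (K a4 (M a60 (F (T t570 (L l46 (L l50 (L l331 (T t67 (T t448 N)))))))) (K a8 (M a60 (F (T t570 (L l331 (T t67 (L l52 (L l56 (T t448 N)))))))) (K a21 (M a192 (F (T t158 (L l231 (T t156 (L l15 (L l347 (T t157 N)))))))) (K a25 (M a192 (F (T t158 (L l231 (T t156 (L l289 (T t21 N))))))) (K a29 (M a192 (F (T t159 (L l289 (L l371 (T t21 (L l239 (T t160 N)))))))) (K a38 (M a192 (F (T t161 (L l231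 (T t156 (L l289 (T t21 N))))))) (K a42 (M a192 (F (T t161 (L l231 (T t156 (L l56 (T t157 N))))))) (K a46 (M a192 (F (T t47 (L l231 (T t156 (L l26 (L l239 (L l408 (T t160 N))))))))) (K a51 (M a192 (L l511 (F (T t47 (L l231 (L l513 (T t156 (L l301 (L l415 (T t450 (K a103 (M a155 (F (T t1800 (L l301 (L l415 (T t543 (L l231 (L l513 (T t468 N))))))))) (K a155 (M a103 (F (T t1800 (L l301 (L l415 (T t543 (L l231 (L l513 (T t468 N))))))))) N)))))))))))) N))))))))))))))))))))⟩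
def e0_63__207_73 : Ent 4 := ⟨[a0, a63], [a207, a215], (M a12 (F (T t150 (L l511 (T t122 (L l511 (T t151 (L l511 (T t152 (L l511 (T t153 (K a4 (M a60 (F (T t570 (L l46 (L l50 (L l331 (L l350 (T t67 (L l349 (T t448 N)))))))))) (K a8 (M a60 (F (T t423 (L l331 (L l350 (T t67 (L l52 (L l56 (L l349 (T t448 N)))))))))) (K a21 (M a192 (F (T t158 (L l231 (T t156 (L l15 (L l277 (L l347 (T t157 N))))))))) (K a25 (M a192 (F (T t158 (L l231 (T t156 (L l289 (L l295 (T t21 N)))))))) (K a29 (M a192 (F (T t159 (L l289 (L l295 (L l371 (T t21 (L l239 (T t160 N))))))))) (K a38 (M a192 (F (T t161 (L l231 (T t156 (L l289 (L l295 (T t21 N)))))))) (K a42 (M a192 (F (T t161 (L l231 (T t156 (L l56 (L l277 (T t157 N)))))))) (K a46 (M a192 (F (T t57 (L l231 (T t156 (L l26 (L l239 (L l408 (T t160 N))))))))) (K a51 (M a192 (L l511 (F (T t1800 (L l231 (L l513 (T t156 (L l301 (L l415 (T t450 (K a103 (M a155 (F (T t47 (L l301 (L l415 (T t543 (L l231 (L l513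 (T t468 N))))))))) (K a155 (M a103 (F (T t47 (L l301 (L l415 (T t543 (L l231 (L l513 (T t468 N))))))))) N)))))))))))) N))))))))))))))))))))⟩
def e0_63__207_74 : Ent 4 := ⟨[a0, a63], [a207, a218], (M a192 (L l303 (F (T t47 (L l289 (T t21 (L l282 (L l289 (T t35 (L l289 (T t202 (L l246 (L l289 (T t37 (K a64 (M a12 (L l303 (F (T t161 (L l511 (T t122 (L l80 (L l144 (L l246 (T t160 (K a240 (M a229 (F (T t2061 (L l80 (L l144 (L l258 (L l301 (T t543 (L l282 (T t776 N)))))))))) (K a229 (M a240 (F (T t2747 (L l84 (L l325 (T t4220 N)))))) N)))))))))))) (K a128 (M a12 (L l303 (F (T t158 (L l511 (T t122 (L l246 (T t160 (K a240 (M a229 (F (T t2061 (L l258 (L l301 (T t543 (L l156 (L l220 (L l282 (T t776 N)))))))))) (K a229 (M a240 (F (T t2061 (L l220 (L l325 (T t4220 N)))))) N)))))))))) (K a21 (M a240 (F (T t4223 (L l512 (T t5418 (L l347 (T t4221 N))))))) (K a85 (M a240 (F (T t4730 (L l325 (L l347 (T t4220 (L l94 (L l144 (T t4732 N)))))))))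 (K a149 (M a12 (L l303 (F (T t1725 (L l347 (L l371 (L l511 (T t122 (L l202 (L l220 (L l347 (L l371 (L l511 (T t227 (L l495 (L l511 (T t228 (K a240 (M a229 (F (T t1252 (L l231 (L l298 (T t836 (L l202 (L l220 (L l347 (L l371 (L l417 (L l511 (T t227 (L l417 (L l495 (L l511 (T t228 N))))))))))))))))) (K a229 (M a240 (F (T t1252 (L l512 (T t4219 N))))) N))))))))))))))))))) (K a42 (M a240 (F (T t5426 (L l325 (T t4220 (T t4221 N)))))) (K a106 (M a12 (L l303 (F (T t150 (L l231 (T t156 (L l501 (L l511 (T t227 (L l132 (L l144 (L l390 (L l408 (L l511 (T t228 (K a240 (M a229 (F (T t159 (L l390 (L l417 (L l511 (T t153 (L l417 (L l501 (L l511 (T t227 (L l132 (L l144 (L l390 (L l408 (L l417 (L l511 (T t228 N)))))))))))))))))) (K a229 (M a240 (F (T t150 (L l144 (L l512 (T t4219 N)))))) N))))))))))))))))) (K a170 (M a240 (F (L l512 (T t4219 (L l325 (L l390 (T t4222 (L l180 (L l220 (T t4221 N)))))))))) (K a255 (M a240 (L l289 (F (T t4223 (L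 l440 (L l512 (T t5820 (L l469 (T t4221 (K a223 (M a239 (L l246 (F (T t4730 (L l325 (L l361 (L l469 (T t5821 (L l361 (L l469 (T t4221 (K a208 (M a213 (F (T t5280 (L l340 (L l469 (T t4732 (L l340 (L l440 (L l512 (T t5822 (L l340 (L l368 (L l469 (T t5823 N)))))))))))))) (K a213 (Fr a208 a224 l268 (V t5824)) N))))))))))))) (K a239 (M a223 (F (T t5825 (L l440 (L l512 (T t4219 (L l469 (T t4221 N)))))))) N))))))))))) (K a240 (M a229 (F (T t47 (L l289 (L l483 (T t5826 (L l266 (L l512 (T t5827 (L l266 (L l289 (T t21 (L l266 (L l289 (T t202 (K a21 (M a12 (F (T t1725 (L l258 (L l301 (T t543 (L l15 (L l347 (T t157 N))))))))) (K a85 (M a4 (F (T t1604 (L l231 (L l298 (T t1407 (L l126 (L l144 (T t4217 N))))))))) (K a149 (M a12 (F (T t1252 (L l231 (L l298 (T t836 (L l202 (L l220 (L l347 (L l371 (L l417 (L l511 (T t227 (L l417 (L l495 (L l511 (T t228 N))))))))))))))))) (K a42 (M a12 (F (T t496 (L l258 (L l301 (L l390 (T t543 (L l56 (T t157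 N))))))))) (K a106 (M a12 (F (T t159 (L l390 (L l417 (L l511 (T t153 (L l417 (L l501 (L l511 (T t227 (L l132 (L l144 (L l390 (L l408 (L l417 (L l511 (T t228 N)))))))))))))))))) (K a170 (M a8 (F (T t2407 (L l231 (L l298 (T t215 (L l208 (L l220 (T t2408 N))))))))) (K a255 (M a212 (L l266 (L l289 (F (T t5828 (L l434 (L l442 (L l506 (T t3434 (T t5829 (K a245 (M a250 (L l289 (F (T t5828 (L l434 (L l442 (L l506 (T t3434 (T t5829 (K a223 (M a239 (L l246 (F (T t5830 (T t5831 (K a208 (M a213 (F (T t5280 (L l434 (L l442 (L l506 (T t3434 N))))))) (K a213 (M a208 (F (T t5830 (L l240 (L l298 (L l367 (T t5294 N))))))) N))))))) (K a239 (M a223 (F (T t5828 (L l434 (L l442 (L l506 (T t3434 (T t5829 N)))))))) N))))))))))) (K a250 (M a245 (L l282 (L l289 (F (T t5832 (L l235 (L l295 (L l298 (T t5833 (K a202 (M a234 (L l289 (F (T t5291 (L l434 (L l442 (L l506 (T t3434 (K a223 (Fr a239 a224 l256 (V t5292)) (K a239 (M a223 (F (T t5291 (L l434 (L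 l442 (L l506 (T t3434 N))))))) N)))))))))) (K a234 (M a202 (L l289 (F (L l250 (T t5834 (L l246 (L l390 (T t5835 (K a223 (M a239 (L l246 (F (L l390 (T t5836 (L l250 (L l434 (L l442 (L l506 (T t3434 (K a208 (Fr a213 a197 l275 (V t5012)) (K a213 (M a208 (F (L l250 (T t5834 (L l240 (L l298 (L l367 (L l390 (T t5294 N))))))))) N)))))))))))) (K a239 (M a223 (F (L l250 (T t5830 (L l390 (T t5835 N)))))) N)))))))))) (K a223 (M a239 (L l246 (L l282 (F (T t5834 (L l235 (L l245 (L l295 (L l298 (T t5833 (K a208 (Fr a213 a197 l275 (V t5012)) (K a213 (M a208 (L l282 (F (T t5830 (L l240 (L l298 (L l367 (T t5294 (K a202 (Fr a234 a224 l256 (V t5291)) (K a234 (M a202 (F (L l250 (T t5834 (L l240 (L l298 (L l367 (L l390 (T t5294 N))))))))) N)))))))))) (K a202 (Fr a234 a224 l256 (V t5292)) (K a234 (M a202 (L l246 (F (L l390 (T t5836 (L l250 (L l434 (L l442 (L l506 (T t3434 (K a208 (Fr a213 a197 l275 (V t5012)) (K a213 (M a208 (F (L l250 (T t5834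 (L l240 (L l298 (L l367 (L l390 (T t5294 N))))))))) N)))))))))))) N)))))))))))))) (K a239 (M a223 (L l282 (F (T t5834 (L l235 (L l295 (L l298 (T t5833 (K a202 (M a234 (F (T t5291 (L l434 (L l442 (L l506 (T t3434 N))))))) (K a234 (M a202 (F (L l250 (T t5830 (L l390 (T t5835 N)))))) N)))))))))) N))))))))))))) (K a223 (M a239 (L l246 (L l266 (F (T t5830 (L l282 (T t5831 (K a208 (M a213 (L l266 (F (T t5012 (L l235 (L l245 (L l295 (L l298 (L l300 (T t5837 (K a245 (M a250 (F (T t5280 (L l434 (L l442 (L l506 (T t3434 N))))))) (K a250 (Fr a245 a197 l275 (V t5012)) N)))))))))))) (K a213 (M a208 (L l266 (F (T t5830 (L l282 (L l347 (T t5831 (K a245 (M a250 (F (T t5830 (L l240 (L l298 (L l367 (T t5294 N))))))) (K a250 (M a245 (L l282 (F (T t5830 (L l240 (L l298 (L l367 (T t5294 (K a202 (Fr a234 a224 l256 (V t5291)) (K a234 (M a202 (F (L l250 (T t5834 (L l240 (L l298 (L l367 (L l390 (T t5294 N))))))))) N)))))))))) N))))))))) (K a245 (M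 a250 (L l246 (F (T t5830 (T t5831 (K a208 (M a213 (F (T t5280 (L l434 (L l442 (L l506 (T t3434 N))))))) (K a213 (M a208 (F (T t5830 (L l240 (L l298 (L l367 (T t5294 N))))))) N))))))) (K a250 (M a245 (L l246 (L l282 (F (T t5834 (L l235 (L l245 (L l295 (L l298 (T t5833 (K a208 (Fr a213 a197 l275 (V t5012)) (K a213 (M a208 (L l282 (F (T t5830 (L l240 (L l298 (L l367 (T t5294 (K a202 (Fr a234 a224 l256 (V t5291)) (K a234 (M a202 (F (L l250 (T t5834 (L l240 (L l298 (L l367 (L l390 (T t5294 N))))))))) N)))))))))) (K a202 (Fr a234 a224 l256 (V t5292)) (K a234 (M a202 (L l246 (F (L l390 (T t5836 (L l250 (L l434 (L l442 (L l506 (T t3434 (K a208 (Fr a213 a197 l275 (V t5012)) (K a213 (M a208 (F (L l250 (T t5834 (L l240 (L l298 (L l367 (L l390 (T t5294 N))))))))) N)))))))))))) N)))))))))))))) N))))))))))) (K a239 (M a223 (L l266 (F (T t5828 (L l434 (L l442 (L l506 (T t3434 (T t5829 (K a245 (M a250 (F (T t5828 (L l434 (L l442 (L l506 (T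 t3434 (T t5829 N)))))))) (K a250 (M a245 (L l282 (F (T t5834 (L l235 (L l295 (L l298 (T t5833 (K a202 (M a234 (F (T t5291 (L l434 (L l442 (L l506 (T t3434 N))))))) (K a234 (M a202 (F (L l250 (T t5830 (L l390 (T t5835 N)))))) N)))))))))) N))))))))))) N)))))))))))))) N)))))))))))))))))))))) (K a229 (M a240 (F (T t1800 (L l512 (T t5418 (L l325 (T t4220 N))))))) N)))))))))))))))))))))))))⟩
def e0_63__207_75 : Ent 4 := ⟨[a0, a63], [a207, a219], (M a85 (L l301 (F (T t89 (L l236 (T t88 (L l289 (T t52 (L l236 (T t90 (K a64 (M a243 (F (T t2087 (L l511 (T t2088 (L l80 (T t4184 N))))))) (K a192 (M a243 (L l236 (F (L l296 (T t4179 (L l489 (L l511 (T t2088 (T t4185 (K a197 (M a202 (F (T t2087 (L l489 (L l511 (T t2088 (L l275 (L l296 (T t4179 (T t4185 N)))))))))) (K a202 (M a197 (F (T t2087 (L l296 (L l512 (T t2889 (T t4185 N))))))) N))))))))))) (K a21 (M a243 (F (L l289 (T t2338 (L l511 (T t2088 (T t3594 N))))))) (K a149 (M a4 (L l301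 (F (T t129 (L l289 (T t4281 (L l202 (T t1372 (K a243 (M a231 (F (T t129 (L l202 (L l220 (L l235 (L l283 (L l446 (L l482 (L l506 (T t5838 (L l220 (T t5839 N))))))))))))) (K a231 (M a243 (F (T t5840 (L l220 (L l511 (T t2088 N)))))) N)))))))))) (K a213 (Fr a170 a255 l476 (Fr a42 a21 l68 (Fr a106 a234 l390 (Fr a192 a149 l519 (V t581))))) (K a42 (M a243 (F (T t2087 (L l390 (L l511 (T t2088 (T t3594 N))))))) (K a106 (M a243 (F (L l289 (T t2338 (L l390 (L l501 (L l511 (T t4188 (L l132 (L l390 (T t2089 (L l132 (L l326 (T t4189 N)))))))))))))) (K a170 (M a243 (F (L l178 (L l390 (T t2089 (L l178 (T t3594 (L l220 (L l236 (L l390 (T t4194 (L l178 (L l390 (T t4192 (L l236 (L l390 (T t4193 (L l178 (L l326 (T t4189 (L l178 (L l283 (L l326 (L l464 (T t4187 N))))))))))))))))))))))))) (K a255 (M a243 (L l289 (F (L l470 (T t3594 (L l296 (T t4191 (L l296 (T t5841 (L l470 (T t4185 (L l283 (L l296 (L l470 (T t4186 (L l296 (L l470 (T t5842 (K a223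 (M a239 (L l245 (F (L l362 (L l470 (T t3594 (L l246 (L l296 (T t4191 (L l246 (L l296 (T t5841 (L l362 (L l470 (T t4185 (L l283 (L l296 (L l362 (L l470 (T t4186 (L l246 (L l296 (L l470 (T t5842 (K a211 (M a215 (F (L l362 (L l470 (T t3594 (L l331 (L l374 (L l475 (T t5307 (L l246 (L l296 (L l434 (L l506 (T t5843 N)))))))))))))) (K a215 (M a211 (L l295 (F (T t5844 (L l239 (L l246 (L l296 (L l362 (L l470 (T t5845 (K a195 (M a235 (L l235 (F (L l362 (L l470 (T t4184 (L l277 (L l488 (L l512 (T t5846 (L l239 (L l246 (L l296 (L l356 (T t4199 (K a199 (M a203 (L l277 (F (L l362 (L l470 (T t3594 (L l349 (L l488 (L l493 (T t5847 (L l239 (L l246 (L l296 (L l356 (T t4199 (K a231 (M a247 (F (L l314 (T t3596 (L l229 (L l239 (L l246 (L l296 (L l386 (T t3590 (L l239 (L l246 (L l296 (L l362 (L l470 (T t4190 N)))))))))))))))) (K a247 (Fr a231 a227 l255 (V t2089)) N))))))))))))))))) (K a203 (M a199 (F (L l362 (L l470 (T t4184 (L l488 (L l512 (T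 t5846 (L l239 (L l246 (L l296 (L l356 (T t4199 N))))))))))))) N))))))))))))))))) (K a235 (Fr a195 a227 l271 (V t5848)) N)))))))))))) N)))))))))))))))))))))))))) (K a239 (M a223 (F (L l296 (T t2089 (L l235 (L l295 (L l356 (L l404 (L l512 (T t5849 (L l325 (L l356 (L l404 (L l469 (L l512 (T t5850 (L l296 (L l398 (L l470 (T t5851 N)))))))))))))))))))) N)))))))))))))))))))) (K a243 (M a231 (F (T t89 (L l236 (L l272 (T t88 (L l265 (L l289 (T t52 (L l236 (L l272 (T t90 (K a64 (M a101 (F (L l245 (T t5852 (L l236 (T t3924 N)))))) (K a192 (M a117 (L l236 (L l272 (F (L l245 (T t5853 (L l258 (L l268 (L l303 (T t5854 (K a209 (M a226 (L l236 (F (L l245 (T t5853 (L l258 (L l268 (L l303 (T t5854 (K a197 (M a202 (F (L l311 (L l446 (T t5855 (L l258 (L l268 (L l275 (L l303 (T t5854 N)))))))))) (K a202 (M a197 (F (L l245 (T t5853 (T t5856 N))))) N))))))))))) (K a197 (M a202 (L l272 (F (L l311 (L l446 (T t5855 (L l258 (L l268 (L l275 (L l303 (T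 t5854 (K a209 (M a226 (F (L l311 (L l446 (T t5855 (L l258 (L l268 (L l275 (L l303 (T t5854 N)))))))))) (K a226 (M a209 (F (L l245 (L l311 (T t5853 (L l275 (T t5856 N))))))) N))))))))))))) (K a226 (M a209 (L l236 (F (L l245 (T t5853 (T t5856 (K a197 (M a202 (F (L l245 (L l311 (T t5853 (L l275 (T t5856 N))))))) (K a202 (M a197 (F (L l245 (T t5853 (T t5856 N))))) N)))))))) (K a202 (M a197 (L l272 (F (L l245 (T t5853 (T t5856 (K a209 (M a226 (F (L l245 (T t5853 (T t5856 N))))) (K a226 (M a209 (F (L l245 (T t5853 (T t5856 N))))) N)))))))) N)))))))))))))) (K a21 (M a117 (F (T t5856 (L l50 (L l446 (T t5855 N)))))) (K a149 (M a117 (F (L l446 (T t5855 (L l220 (L l258 (L l303 (T t5854 N)))))))) (K a213 (Fr a170 a255 l476 (Fr a42 a21 l68 (Fr a106 a234 l390 (Fr a192 a149 l519 (V t581))))) (K a42 (M a117 (F (L l446 (T t5855 (L l54 (L l258 (L l303 (L l390 (T t5854 N))))))))) (K a106 (M a101 (F (L l446 (T t5857 (L l236 (L l390 (L l498 (T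 t3924 N)))))))) (K a170 (M a4 (F (L l390 (L l464 (T t129 (L l265 (L l356 (L l404 (L l464 (L l512 (T t5858 (L l390 (T t4210 N))))))))))))) (K a255 (M a247 (L l289 (F (L l245 (L l295 (T t5859 (L l415 (L l439 (L l482 (L l511 (T t3599 (L l235 (L l296 (T t5860 (K a223 (M a239 (L l245 (F (L l446 (T t5861 (L l415 (L l439 (L l482 (L l511 (T t3599 (L l235 (L l246 (L l296 (T t5860 (K a211 (Fr a215 a199 l277 (V t3599)) (K a215 (M a211 (L l295 (F (L l482 (T t5862 (L l506 (T t5863 (L l272 (L l291 (T t5864 (K a195 (Fr a235 a227 l255 (V t3599)) (K a235 (M a195 (L l283 (F (L l349 (L l434 (T t910 (L l415 (L l439 (L l482 (L l511 (T t3599 (K a203 (M a251 (F (L l349 (L l434 (T t901 (L l320 (L l415 (L l439 (L l482 (L l511 (T t3599 N))))))))))) (K a251 (M a203 (F (L l349 (L l434 (T t910 (L l415 (L l439 (L l464 (L l482 (L l511 (T t3599 N))))))))))) N))))))))))))) N)))))))))))) N)))))))))))))))) (K a239 (M a223 (F (L l295 (T t5859 (L l325 (L l356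 (L l404 (L l469 (L l481 (L l512 (T t5850 (L l415 (L l439 (L l482 (L l511 (T t3599 N)))))))))))))))) N)))))))))))))))) N))))))))))))))))))))) (K a231 (M a243 (F (T t89 (L l326 (T t4211 (T t4184 N)))))) N)))))))))))))))))))))⟩
def e0_63__207_76 : Ent 4 := ⟨[a0, a63], [a207, a223], (M a255 (F (T t5297 (L l236 (L l246 (T t2142 (L l236 (T t1165 (L l236 (L l368 (T t2138 (L l236 (L l368 (T t2139 (K a192 (M a240 (L l236 (F (T t5865 (L l484 (L l512 (T t5866 (L l339 (L l361 (T t5867 (K a197 (M a202 (F (T t5868 (L l325 (L l339 (L l368 (T t5869 (L l339 (L l361 (T t5867 N)))))))))) (K a202 (M a197 (F (T t5870 (L l325 (L l339 (L l368 (T t5869 (L l318 (L l339 (L l361 (T t5867 N))))))))))) N)))))))))))) (K a21 (M a240 (F (T t5871 (L l325 (L l347 (L l368 (T t5869 (L l361 (T t5867 N))))))))) (K a85 (M a48 (L l368 (F (T t4430 (L l325 (L l347 (T t1 (L l123 (L l144 (L l303 (L l325 (L l347 (T t5872 (L l325 (L l361 (L l455 (T t3586 (K a16 (M a154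 (F (T t4430 (L l18 (L l236 (L l347 (T t5873 (L l123 (L l144 (L l361 (T t5874 N))))))))))) (K a154 (Fr a16 a32 l40 (V t3290)) N))))))))))))))))))) (K a149 (M a240 (F (T t5868 (L l325 (L l347 (L l368 (T t5869 (L l199 (L l220 (L l361 (T t5867 N))))))))))) (K a42 (M a240 (F (T t5875 (L l325 (L l368 (T t5869 (L l361 (L l390 (T t5867 N))))))))) (K a106 (M a240 (F (T t5870 (L l325 (L l390 (T t5876 (L l130 (L l144 (L l368 (T t5877 N)))))))))) (K a170 (M a48 (F (T t557 (L l325 (L l390 (T t2 (L l325 (L l368 (L l462 (T t3585 (L l206 (L l220 (L l325 (L l361 (L l390 (L l404 (T t5878 N))))))))))))))))) (K a127 (M a4 (F (T t129 (L l301 (T t4436 (L l113 (T t4437 N))))))) (K a191 (M a4 (F (T t129 (L l220 (L l301 (T t4436 (L l220 (T t4437 N)))))))) N)))))))))))))))))))))))⟩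
def e0_63__207_77 : Ent 4 := ⟨[a0, a63], [a207, a240], (M a12 (L l303 (F (T t150 (L l417 (L l511 (T t122 (L l417 (L l511 (T t151 (L l417 (L l511 (T t152 (L l417 (L l511 (T t153 (K a4 (M a60 (L l303 (F (T t570 (L l46 (L l50 (L l331 (L l453 (T t67 (T t448 (K a229 (M a218 (F (T t662 (L l325 (L l483 (T t680 (L l46 (L l50 (T t1096 N))))))))) (K a218 (M a229 (F (T t662 (L l325 (L l483 (T t680 (L l46 (L l50 (T t1096 N))))))))) N)))))))))))) (K a8 (M a60 (L l303 (F (T t116 (L l325 (L l483 (T t398 (L l52 (L l56 (T t448 (K a229 (M a218 (F (T t570 (L l56 (L l331 (L l453 (T t69 (T t1096 N)))))))) (K a218 (M a229 (F (T t570 (L l56 (L l331 (L l453 (T t69 (T t1096 N)))))))) N)))))))))))) (K a21 (M a192 (L l303 (F (T t158 (L l231 (L l298 (T t156 (L l15 (L l347 (T t157 (K a229 (M a218 (F (T t1725 (L l258 (L l301 (T t543 (L l15 (L l347 (T t157 N))))))))) (K a218 (M a229 (F (T t1725 (L l258 (L l301 (T t543 (L l15 (L l347 (T t157 N))))))))) N))))))))))))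 (K a25 (M a192 (L l303 (F (T t158 (L l231 (L l298 (T t156 (L l266 (L l289 (T t21 (K a229 (M a218 (F (T t158 (L l56 (L l231 (L l298 (T t468 (L l15 (L l256 (L l266 (L l289 (T t35 N)))))))))))) (K a218 (M a229 (F (T t158 (L l56 (L l231 (L l298 (T t468 (L l15 (L l266 (L l282 (L l289 (T t35 N)))))))))))) N)))))))))))) (K a29 (M a192 (L l303 (F (T t1681 (L l231 (L l298 (T t156 (T t160 (K a229 (M a218 (F (T t1800 (L l231 (L l298 (T t468 (L l15 (L l256 (L l371 (T t776 N)))))))))) (K a218 (M a229 (F (T t1800 (L l231 (L l298 (T t468 (L l15 (L l282 (L l371 (T t776 N)))))))))) N)))))))))) (K a38 (M a192 (L l303 (F (T t161 (L l231 (L l298 (T t156 (L l266 (L l289 (T t21 (K a229 (M a218 (F (T t161 (L l50 (L l256 (L l266 (L l289 (T t35 (L l231 (L l298 (T t468 N))))))))))) (K a218 (M a229 (F (T t161 (L l50 (L l266 (L l282 (L l289 (T t35 (L l231 (L l298 (T t468 N))))))))))) N)))))))))))) (K a42 (M a192 (L l303 (F (T t161 (L l231 (L l298 (T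 t156 (L l56 (T t157 (K a229 (M a218 (F (T t496 (L l258 (L l301 (L l390 (T t543 (L l56 (T t157 N))))))))) (K a218 (M a229 (F (T t496 (L l258 (L l301 (L l390 (T t543 (L l56 (T t157 N))))))))) N))))))))))) (K a46 (M a192 (L l303 (F (T t57 (L l231 (L l298 (T t156 (L l26 (L l408 (T t160 (K a229 (M a218 (F (T t1725 (L l256 (L l266 (L l289 (T t35 (L l256 (T t776 N))))))))) (K a218 (M a229 (F (T t1725 (L l266 (L l282 (L l289 (T t35 (L l282 (T t776 N))))))))) N)))))))))))) (K a51 (M a192 (L l303 (L l417 (L l511 (F (T t1681 (L l231 (L l298 (L l513 (T t156 (L l258 (L l301 (L l415 (T t450 (K a177 (M a114 (L l303 (L l511 (F (T t47 (L l258 (L l301 (L l415 (T t543 (L l231 (L l298 (L l513 (T t468 (K a229 (M a218 (L l511 (F (T t1800 (L l258 (L l301 (L l415 (T t543 (L l231 (L l298 (L l513 (T t468 (K a103 (M a155 (F (T t1800 (L l258 (L l301 (L l415 (T t543 (L l231 (L l298 (L l513 (T t468 N))))))))))) (K a155 (M a103 (F (T t1800 (L l258 (L l301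 (L l415 (T t543 (L l231 (L l298 (L l513 (T t468 N))))))))))) N)))))))))))))) (K a218 (M a229 (L l511 (F (T t1800 (L l258 (L l301 (L l415 (T t543 (L l231 (L l298 (L l513 (T t468 (K a103 (M a155 (F (T t1800 (L l258 (L l301 (L l415 (T t543 (L l231 (L l298 (L l513 (T t468 N))))))))))) (K a155 (M a103 (F (T t1800 (L l258 (L l301 (L l415 (T t543 (L l231 (L l298 (L l513 (T t468 N))))))))))) N)))))))))))))) (K a103 (M a155 (L l303 (F (T t47 (L l258 (L l301 (L l415 (T t543 (L l231 (L l298 (L l513 (T t468 (K a229 (M a218 (F (T t1800 (L l258 (L l301 (L l415 (T t543 (L l231 (L l298 (L l513 (T t468 N))))))))))) (K a218 (M a229 (F (T t1800 (L l258 (L l301 (L l415 (T t543 (L l231 (L l298 (L l513 (T t468 N))))))))))) N)))))))))))))) (K a155 (M a103 (L l303 (F (T t47 (L l258 (L l301 (L l415 (T t543 (L l231 (L l298 (L l513 (T t468 (K a229 (M a218 (F (T t1800 (L l258 (L l301 (L l415 (T t543 (L l231 (L l298 (L l513 (T t468 N))))))))))) (K a218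 (M a229 (F (T t1800 (L l258 (L l301 (L l415 (T t543 (L l231 (L l298 (L l513 (T t468 N))))))))))) N)))))))))))))) N))))))))))))))))) (K a229 (M a218 (L l417 (L l511 (F (T t1800 (L l258 (L l301 (L l415 (T t543 (L l231 (L l298 (L l513 (T t468 (K a177 (M a114 (L l511 (F (T t1800 (L l258 (L l301 (L l415 (T t543 (L l231 (L l298 (L l513 (T t468 (K a103 (M a155 (F (T t1800 (L l258 (L l301 (L l415 (T t543 (L l231 (L l298 (L l513 (T t468 N))))))))))) (K a155 (M a103 (F (T t1800 (L l258 (L l301 (L l415 (T t543 (L l231 (L l298 (L l513 (T t468 N))))))))))) N)))))))))))))) (K a114 (M a177 (L l511 (F (T t1800 (L l258 (L l301 (L l415 (T t543 (L l231 (L l298 (L l513 (T t468 (K a103 (M a155 (F (T t1800 (L l258 (L l301 (L l415 (T t543 (L l231 (L l298 (L l513 (T t468 N))))))))))) (K a155 (M a103 (F (T t1800 (L l258 (L l301 (L l415 (T t543 (L l231 (L l298 (L l513 (T t468 N))))))))))) N)))))))))))))) (K a103 (M a155 (L l417 (F (T t1800 (L l258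 (L l301 (L l415 (T t543 (L l231 (L l298 (L l513 (T t468 (K a177 (M a114 (F (T t1800 (L l258 (L l301 (L l415 (T t543 (L l231 (L l298 (L l513 (T t468 N))))))))))) (K a114 (M a177 (F (T t1800 (L l258 (L l301 (L l415 (T t543 (L l231 (L l298 (L l513 (T t468 N))))))))))) N)))))))))))))) (K a155 (M a103 (L l417 (F (T t1800 (L l258 (L l301 (L l415 (T t543 (L l231 (L l298 (L l513 (T t468 (K a177 (M a114 (F (T t1800 (L l258 (L l301 (L l415 (T t543 (L l231 (L l298 (L l513 (T t468 N))))))))))) (K a114 (M a177 (F (T t1800 (L l258 (L l301 (L l415 (T t543 (L l231 (L l298 (L l513 (T t468 N))))))))))) N)))))))))))))) N))))))))))))))))) (K a114 (M a177 (L l303 (L l511 (F (T t47 (L l258 (L l301 (L l415 (T t543 (L l231 (L l298 (L l513 (T t468 (K a229 (M a218 (L l511 (F (T t1800 (L l258 (L l301 (L l415 (T t543 (L l231 (L l298 (L l513 (T t468 (K a103 (M a155 (F (T t1800 (L l258 (L l301 (L l415 (T t543 (L l231 (L l298 (L l513 (T t468 N)))))))))))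 (K a155 (M a103 (F (T t1800 (L l258 (L l301 (L l415 (T t543 (L l231 (L l298 (L l513 (T t468 N))))))))))) N)))))))))))))) (K a218 (M a229 (L l511 (F (T t1800 (L l258 (L l301 (L l415 (T t543 (L l231 (L l298 (L l513 (T t468 (K a103 (M a155 (F (T t1800 (L l258 (L l301 (L l415 (T t543 (L l231 (L l298 (L l513 (T t468 N))))))))))) (K a155 (M a103 (F (T t1800 (L l258 (L l301 (L l415 (T t543 (L l231 (L l298 (L l513 (T t468 N))))))))))) N)))))))))))))) (K a103 (M a155 (L l303 (F (T t47 (L l258 (L l301 (L l415 (T t543 (L l231 (L l298 (L l513 (T t468 (K a229 (M a218 (F (T t1800 (L l258 (L l301 (L l415 (T t543 (L l231 (L l298 (L l513 (T t468 N))))))))))) (K a218 (M a229 (F (T t1800 (L l258 (L l301 (L l415 (T t543 (L l231 (L l298 (L l513 (T t468 N))))))))))) N)))))))))))))) (K a155 (M a103 (L l303 (F (T t47 (L l258 (L l301 (L l415 (T t543 (L l231 (L l298 (L l513 (T t468 (K a229 (M a218 (F (T t1800 (L l258 (L l301 (L l415 (T t543 (L l231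 (L l298 (L l513 (T t468 N))))))))))) (K a218 (M a229 (F (T t1800 (L l258 (L l301 (L l415 (T t543 (L l231 (L l298 (L l513 (T t468 N))))))))))) N)))))))))))))) N))))))))))))))))) (K a218 (M a229 (L l417 (L l511 (F (T t1800 (L l258 (L l301 (L l415 (T t543 (L l231 (L l298 (L l513 (T t468 (K a177 (M a114 (L l511 (F (T t1800 (L l258 (L l301 (L l415 (T t543 (L l231 (L l298 (L l513 (T t468 (K a103 (M a155 (F (T t1800 (L l258 (L l301 (L l415 (T t543 (L l231 (L l298 (L l513 (T t468 N))))))))))) (K a155 (M a103 (F (T t1800 (L l258 (L l301 (L l415 (T t543 (L l231 (L l298 (L l513 (T t468 N))))))))))) N)))))))))))))) (K a114 (M a177 (L l511 (F (T t1800 (L l258 (L l301 (L l415 (T t543 (L l231 (L l298 (L l513 (T t468 (K a103 (M a155 (F (T t1800 (L l258 (L l301 (L l415 (T t543 (L l231 (L l298 (L l513 (T t468 N))))))))))) (K a155 (M a103 (F (T t1800 (L l258 (L l301 (L l415 (T t543 (L l231 (L l298 (L l513 (T t468 N))))))))))) N))))))))))))))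 (K a103 (M a155 (L l417 (F (T t1800 (L l258 (L l301 (L l415 (T t543 (L l231 (L l298 (L l513 (T t468 (K a177 (M a114 (F (T t1800 (L l258 (L l301 (L l415 (T t543 (L l231 (L l298 (L l513 (T t468 N))))))))))) (K a114 (M a177 (F (T t1800 (L l258 (L l301 (L l415 (T t543 (L l231 (L l298 (L l513 (T t468 N))))))))))) N)))))))))))))) (K a155 (M a103 (L l417 (F (T t1800 (L l258 (L l301 (L l415 (T t543 (L l231 (L l298 (L l513 (T t468 (K a177 (M a114 (F (T t1800 (L l258 (L l301 (L l415 (T t543 (L l231 (L l298 (L l513 (T t468 N))))))))))) (K a114 (M a177 (F (T t1800 (L l258 (L l301 (L l415 (T t543 (L l231 (L l298 (L l513 (T t468 N))))))))))) N)))))))))))))) N))))))))))))))))) (K a103 (M a155 (L l303 (L l417 (F (T t47 (L l258 (L l301 (L l415 (T t543 (L l231 (L l298 (L l513 (T t468 (K a177 (M a114 (L l303 (F (T t47 (L l258 (L l301 (L l415 (T t543 (L l231 (L l298 (L l513 (T t468 (K a229 (M a218 (F (T t1800 (L l258 (L l301 (L l415 (T t543 (L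 l231 (L l298 (L l513 (T t468 N))))))))))) (K a218 (M a229 (F (T t1800 (L l258 (L l301 (L l415 (T t543 (L l231 (L l298 (L l513 (T t468 N))))))))))) N)))))))))))))) (K a229 (M a218 (L l417 (F (T t1800 (L l258 (L l301 (L l415 (T t543 (L l231 (L l298 (L l513 (T t468 (K a177 (M a114 (F (T t1800 (L l258 (L l301 (L l415 (T t543 (L l231 (L l298 (L l513 (T t468 N))))))))))) (K a114 (M a177 (F (T t1800 (L l258 (L l301 (L l415 (T t543 (L l231 (L l298 (L l513 (T t468 N))))))))))) N)))))))))))))) (K a114 (M a177 (L l303 (F (T t47 (L l258 (L l301 (L l415 (T t543 (L l231 (L l298 (L l513 (T t468 (K a229 (M a218 (F (T t1800 (L l258 (L l301 (L l415 (T t543 (L l231 (L l298 (L l513 (T t468 N))))))))))) (K a218 (M a229 (F (T t1800 (L l258 (L l301 (L l415 (T t543 (L l231 (L l298 (L l513 (T t468 N))))))))))) N)))))))))))))) (K a218 (M a229 (L l417 (F (T t1800 (L l258 (L l301 (L l415 (T t543 (L l231 (L l298 (L l513 (T t468 (K a177 (M a114 (F (T t1800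 (L l258 (L l301 (L l415 (T t543 (L l231 (L l298 (L l513 (T t468 N))))))))))) (K a114 (M a177 (F (T t1800 (L l258 (L l301 (L l415 (T t543 (L l231 (L l298 (L l513 (T t468 N))))))))))) N)))))))))))))) N))))))))))))))))) (K a155 (M a103 (L l303 (L l417 (F (T t47 (L l258 (L l301 (L l415 (T t543 (L l231 (L l298 (L l513 (T t468 (K a177 (M a114 (L l303 (F (T t47 (L l258 (L l301 (L l415 (T t543 (L l231 (L l298 (L l513 (T t468 (K a229 (M a218 (F (T t1800 (L l258 (L l301 (L l415 (T t543 (L l231 (L l298 (L l513 (T t468 N))))))))))) (K a218 (M a229 (F (T t1800 (L l258 (L l301 (L l415 (T t543 (L l231 (L l298 (L l513 (T t468 N))))))))))) N)))))))))))))) (K a229 (M a218 (L l417 (F (T t1800 (L l258 (L l301 (L l415 (T t543 (L l231 (L l298 (L l513 (T t468 (K a177 (M a114 (F (T t1800 (L l258 (L l301 (L l415 (T t543 (L l231 (L l298 (L l513 (T t468 N))))))))))) (K a114 (M a177 (F (T t1800 (L l258 (L l301 (L l415 (T t543 (L l231 (L l298 (L l513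 (T t468 N))))))))))) N)))))))))))))) (K a114 (M a177 (L l303 (F (T t47 (L l258 (L l301 (L l415 (T t543 (L l231 (L l298 (L l513 (T t468 (K a229 (M a218 (F (T t1800 (L l258 (L l301 (L l415 (T t543 (L l231 (L l298 (L l513 (T t468 N))))))))))) (K a218 (M a229 (F (T t1800 (L l258 (L l301 (L l415 (T t543 (L l231 (L l298 (L l513 (T t468 N))))))))))) N)))))))))))))) (K a218 (M a229 (L l417 (F (T t1800 (L l258 (L l301 (L l415 (T t543 (L l231 (L l298 (L l513 (T t468 (K a177 (M a114 (F (T t1800 (L l258 (L l301 (L l415 (T t543 (L l231 (L l298 (L l513 (T t468 N))))))))))) (K a114 (M a177 (F (T t1800 (L l258 (L l301 (L l415 (T t543 (L l231 (L l298 (L l513 (T t468 N))))))))))) N)))))))))))))) N))))))))))))))))) N)))))))))))))))))))) (K a229 (M a218 (F (T t150 (L l417 (L l511 (T t122 (L l417 (L l511 (T t151 (L l417 (L l511 (T t152 (L l417 (L l511 (T t153 (K a4 (M a60 (F (T t662 (L l325 (L l483 (T t680 (L l46 (L l50 (T t1096 N))))))))) (K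 a8 (M a60 (F (T t570 (L l56 (L l331 (L l453 (T t69 (T t1096 N)))))))) (K a21 (M a192 (F (T t1725 (L l258 (L l301 (T t543 (L l15 (L l347 (T t157 N))))))))) (K a25 (M a192 (F (T t158 (L l56 (L l231 (L l298 (T t468 (L l15 (L l256 (L l266 (L l289 (T t35 N)))))))))))) (K a29 (M a192 (F (T t1800 (L l231 (L l298 (T t468 (L l15 (L l256 (L l371 (T t776 N)))))))))) (K a38 (M a192 (F (T t161 (L l50 (L l256 (L l266 (L l289 (T t35 (L l231 (L l298 (T t468 N))))))))))) (K a42 (M a192 (F (T t496 (L l258 (L l301 (L l390 (T t543 (L l56 (T t157 N))))))))) (K a46 (M a192 (F (T t1725 (L l256 (L l266 (L l289 (T t35 (L l256 (T t776 N))))))))) (K a51 (M a192 (L l417 (L l511 (F (T t1800 (L l258 (L l301 (L l415 (T t543 (L l231 (L l298 (L l513 (T t468 (K a177 (M a114 (L l511 (F (T t1800 (L l258 (L l301 (L l415 (T t543 (L l231 (L l298 (L l513 (T t468 (K a103 (M a155 (F (T t1800 (L l258 (L l301 (L l415 (T t543 (L l231 (L l298 (L l513 (T t468 N)))))))))))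 (K a155 (M a103 (F (T t1800 (L l258 (L l301 (L l415 (T t543 (L l231 (L l298 (L l513 (T t468 N))))))))))) N)))))))))))))) (K a114 (M a177 (L l511 (F (T t1800 (L l258 (L l301 (L l415 (T t543 (L l231 (L l298 (L l513 (T t468 (K a103 (M a155 (F (T t1800 (L l258 (L l301 (L l415 (T t543 (L l231 (L l298 (L l513 (T t468 N))))))))))) (K a155 (M a103 (F (T t1800 (L l258 (L l301 (L l415 (T t543 (L l231 (L l298 (L l513 (T t468 N))))))))))) N)))))))))))))) (K a103 (M a155 (L l417 (F (T t1800 (L l258 (L l301 (L l415 (T t543 (L l231 (L l298 (L l513 (T t468 (K a177 (M a114 (F (T t1800 (L l258 (L l301 (L l415 (T t543 (L l231 (L l298 (L l513 (T t468 N))))))))))) (K a114 (M a177 (F (T t1800 (L l258 (L l301 (L l415 (T t543 (L l231 (L l298 (L l513 (T t468 N))))))))))) N)))))))))))))) (K a155 (M a103 (L l417 (F (T t1800 (L l258 (L l301 (L l415 (T t543 (L l231 (L l298 (L l513 (T t468 (K a177 (M a114 (F (T t1800 (L l258 (L l301 (L l415 (T t543 (L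 l231 (L l298 (L l513 (T t468 N))))))))))) (K a114 (M a177 (F (T t1800 (L l258 (L l301 (L l415 (T t543 (L l231 (L l298 (L l513 (T t468 N))))))))))) N)))))))))))))) N))))))))))))))))) N)))))))))))))))))))))))) (K a218 (M a229 (F (T t150 (L l417 (L l511 (T t122 (L l417 (L l511 (T t151 (L l417 (L l511 (T t152 (L l417 (L l511 (T t153 (K a4 (M a60 (F (T t662 (L l325 (L l483 (T t680 (L l46 (L l50 (T t1096 N))))))))) (K a8 (M a60 (F (T t570 (L l56 (L l331 (L l453 (T t69 (T t1096 N)))))))) (K a21 (M a192 (F (T t1725 (L l258 (L l301 (T t543 (L l15 (L l347 (T t157 N))))))))) (K a25 (M a192 (F (T t158 (L l56 (L l231 (L l298 (T t468 (L l15 (L l266 (L l282 (L l289 (T t35 N)))))))))))) (K a29 (M a192 (F (T t1800 (L l231 (L l298 (T t468 (L l15 (L l282 (L l371 (T t776 N)))))))))) (K a38 (M a192 (F (T t161 (L l50 (L l266 (L l282 (L l289 (T t35 (L l231 (L l298 (T t468 N))))))))))) (K a42 (M a192 (F (T t496 (L l258 (L l301 (L l390 (T t543 (L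 l56 (T t157 N))))))))) (K a46 (M a192 (F (T t1725 (L l266 (L l282 (L l289 (T t35 (L l282 (T t776 N))))))))) (K a51 (M a192 (L l417 (L l511 (F (T t1800 (L l258 (L l301 (L l415 (T t543 (L l231 (L l298 (L l513 (T t468 (K a177 (M a114 (L l511 (F (T t1800 (L l258 (L l301 (L l415 (T t543 (L l231 (L l298 (L l513 (T t468 (K a103 (M a155 (F (T t1800 (L l258 (L l301 (L l415 (T t543 (L l231 (L l298 (L l513 (T t468 N))))))))))) (K a155 (M a103 (F (T t1800 (L l258 (L l301 (L l415 (T t543 (L l231 (L l298 (L l513 (T t468 N))))))))))) N)))))))))))))) (K a114 (M a177 (L l511 (F (T t1800 (L l258 (L l301 (L l415 (T t543 (L l231 (L l298 (L l513 (T t468 (K a103 (M a155 (F (T t1800 (L l258 (L l301 (L l415 (T t543 (L l231 (L l298 (L l513 (T t468 N))))))))))) (K a155 (M a103 (F (T t1800 (L l258 (L l301 (L l415 (T t543 (L l231 (L l298 (L l513 (T t468 N))))))))))) N)))))))))))))) (K a103 (M a155 (L l417 (F (T t1800 (L l258 (L l301 (L l415 (T t543 (L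 l231 (L l298 (L l513 (T t468 (K a177 (M a114 (F (T t1800 (L l258 (L l301 (L l415 (T t543 (L l231 (L l298 (L l513 (T t468 N))))))))))) (K a114 (M a177 (F (T t1800 (L l258 (L l301 (L l415 (T t543 (L l231 (L l298 (L l513 (T t468 N))))))))))) N)))))))))))))) (K a155 (M a103 (L l417 (F (T t1800 (L l258 (L l301 (L l415 (T t543 (L l231 (L l298 (L l513 (T t468 (K a177 (M a114 (F (T t1800 (L l258 (L l301 (L l415 (T t543 (L l231 (L l298 (L l513 (T t468 N))))))))))) (K a114 (M a177 (F (T t1800 (L l258 (L l301 (L l415 (T t543 (L l231 (L l298 (L l513 (T t468 N))))))))))) N)))))))))))))) N))))))))))))))))) N)))))))))))))))))))))))) N)))))))))))))))))))))))))))⟩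
def e0_63__207_78 : Ent 4 := ⟨[a0, a63], [a207, a241], (M a12 (F (T t150 (L l511 (T t122 (L l511 (T t151 (L l511 (T t152 (L l511 (T t153 (K a4 (M a60 (F (T t835 (L l46 (L l50 (L l331 (T t67 (T t448 N)))))))) (K a8 (M a60 (F (T t835 (L l331 (T t67 (L l52 (L l56 (T t448 N)))))))) (K a21 (M a192 (F (T t158 (L l231 (T t156 (L l15 (L l347 (T t157 N)))))))) (K a25 (M a192 (F (T t158 (L l231 (T t156 (L l289 (T t21 N))))))) (K a29 (M a192 (F (T t159 (L l289 (L l371 (T t21 (T t160 N))))))) (K a38 (M a192 (F (T t161 (L l231 (T t156 (L l289 (T t21 N))))))) (K a42 (M a192 (F (T t161 (L l231 (T t156 (L l56 (T t157 N))))))) (K a46 (M a192 (F (T t57 (L l231 (T t156 (L l26 (L l408 (T t160 N)))))))) (K a51 (M a192 (L l511 (F (T t1681 (L l231 (L l513 (T t156 (L l258 (L l301 (L l415 (T t450 (K a103 (M a155 (F (T t47 (L l258 (L l301 (L l415 (T t543 (L l231 (L l513 (T t468 N)))))))))) (K a155 (M a103 (F (T t47 (L l258 (L l301 (L l415 (T t543 (L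 l231 (L l513 (T t468 N)))))))))) N))))))))))))) N))))))))))))))))))))⟩
def e0_63__207_79 : Ent 4 := ⟨[a0, a63], [a207, a243], (M a60 (L l301 (F (T t116 (L l331 (L l451 (T t67 (L l331 (L l451 (T t43 (L l331 (L l451 (T t68 (L l331 (L l451 (T t69 (K a20 (M a48 (L l301 (F (T t138 (L l11 (L l325 (L l481 (T t1 (L l11 (T t235 (K a231 (M a219 (F (T t138 (L l325 (L l481 (T t2 (L l11 (T t235 N)))))))) (K a219 (M a231 (F (T t138 (L l325 (L l481 (T t2 (L l11 (T t235 N)))))))) N)))))))))))) (K a40 (M a48 (L l301 (F (T t48 (L l415 (L l511 (T t64 (L l52 (T t235 (K a231 (M a219 (F (T t246 (L l22 (L l325 (L l481 (T t2 (L l52 (T t235 N))))))))) (K a219 (M a231 (F (T t246 (L l22 (L l325 (L l481 (T t2 (L l52 (T t235 N))))))))) N))))))))))) (K a21 (M a48 (L l301 (F (T t1543 (L l47 (L l65 (L l415 (L l511 (T t64 (L l11 (L l18 (L l47 (L l65 (L l326 (L l482 (T t288 (L l50 (L l326 (L l482 (T t250 (K a231 (M a219 (F (T t138 (L l277 (L l289 (L l482 (T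 t5879 N))))))) (K a219 (M a231 (F (T t138 (L l11 (L l18 (L l283 (L l289 (L l482 (T t5880 N))))))))) N)))))))))))))))))))))) (K a41 (M a192 (L l301 (F (T t1343 (L l267 (L l291 (T t79 (L l65 (L l265 (L l289 (T t35 (K a231 (M a219 (F (T t1343 (L l267 (L l291 (T t1333 (L l65 (L l265 (L l289 (T t35 N)))))))))) (K a219 (M a231 (F (T t1343 (L l267 (L l291 (T t1333 (L l65 (L l265 (L l289 (T t35 N)))))))))) N))))))))))))) (K a61 (M a192 (L l301 (F (T t1800 (L l267 (L l291 (T t79 (T t80 (K a231 (M a219 (F (T t1681 (L l267 (L l291 (T t1333 (L l65 (L l515 (T t2549 N))))))))) (K a219 (M a231 (F (T t1681 (L l267 (L l291 (T t1333 (L l65 (L l515 (T t2549 N))))))))) N)))))))))) (K a22 (M a192 (L l301 (F (T t614 (L l11 (L l267 (L l291 (T t79 (L l11 (L l265 (L l289 (T t35 (K a231 (M a219 (F (T t614 (L l11 (L l265 (L l289 (T t35 (L l267 (L l291 (T t1333 N)))))))))) (K a219 (M a231 (F (T t614 (L l11 (L l265 (L l289 (T t35 (L l267 (L l291 (T t1333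 N)))))))))) N)))))))))))))) (K a42 (M a48 (L l301 (F (T t3520 (L l415 (L l511 (T t64 (L l56 (L l326 (L l482 (T t288 (L l22 (L l28 (L l54 (L l66 (L l326 (L l482 (T t250 (K a231 (M a219 (F (T t236 (L l22 (L l28 (L l277 (L l289 (L l482 (T t5879 N))))))))) (K a219 (M a231 (F (T t236 (L l283 (L l289 (L l482 (T t5880 N))))))) N)))))))))))))))))))) (K a62 (M a192 (L l301 (F (T t57 (L l267 (L l291 (T t79 (L l66 (L l516 (T t80 (K a231 (M a219 (F (T t47 (L l267 (L l291 (T t1333 (T t2549 N))))))) (K a219 (M a231 (F (T t47 (L l267 (L l291 (T t1333 (T t2549 N))))))) N)))))))))))) (K a3 (M a192 (L l301 (L l331 (L l451 (F (T t1343 (L l267 (L l291 (L l477 (T t79 (L l265 (L l289 (L l475 (T t35 (K a83 (M a163 (L l301 (L l331 (F (T t47 (L l235 (L l271 (L l307 (T t75 (L l267 (L l291 (L l477 (T t1333 (K a71 (M a139 (L l301 (F (T t47 (L l235 (L l271 (L l307 (T t75 (L l267 (L l291 (L l477 (T t1333 (K a231 (M a219 (F (T t47 (L l235 (L l271 (L l307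 (T t75 (L l267 (L l291 (L l477 (T t1333 N))))))))))) (K a219 (M a231 (F (T t47 (L l235 (L l271 (L l307 (T t75 (L l267 (L l291 (L l477 (T t1333 N))))))))))) N)))))))))))))) (K a231 (M a219 (L l331 (F (T t47 (L l235 (L l271 (L l307 (T t75 (L l267 (L l291 (L l477 (T t1333 (K a71 (M a139 (F (T t47 (L l235 (L l271 (L l307 (T t75 (L l267 (L l291 (L l477 (T t1333 N))))))))))) (K a139 (M a71 (F (T t47 (L l235 (L l271 (L l307 (T t75 (L l267 (L l291 (L l477 (T t1333 N))))))))))) N)))))))))))))) (K a139 (M a71 (L l301 (F (T t47 (L l235 (L l271 (L l307 (T t75 (L l267 (L l291 (L l477 (T t1333 (K a231 (M a219 (F (T t47 (L l235 (L l271 (L l307 (T t75 (L l267 (L l291 (L l477 (T t1333 N))))))))))) (K a219 (M a231 (F (T t47 (L l235 (L l271 (L l307 (T t75 (L l267 (L l291 (L l477 (T t1333 N))))))))))) N)))))))))))))) (K a219 (M a231 (L l331 (F (T t47 (L l235 (L l271 (L l307 (T t75 (L l267 (L l291 (L l477 (T t1333 (K a71 (M a139 (F (T t47 (L l235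 (L l271 (L l307 (T t75 (L l267 (L l291 (L l477 (T t1333 N))))))))))) (K a139 (M a71 (F (T t47 (L l235 (L l271 (L l307 (T t75 (L l267 (L l291 (L l477 (T t1333 N))))))))))) N)))))))))))))) N))))))))))))))))) (K a163 (M a83 (L l301 (L l331 (F (T t47 (L l235 (L l271 (L l307 (T t75 (L l267 (L l291 (L l477 (T t1333 (K a71 (M a139 (L l301 (F (T t47 (L l235 (L l271 (L l307 (T t75 (L l267 (L l291 (L l477 (T t1333 (K a231 (M a219 (F (T t47 (L l235 (L l271 (L l307 (T t75 (L l267 (L l291 (L l477 (T t1333 N))))))))))) (K a219 (M a231 (F (T t47 (L l235 (L l271 (L l307 (T t75 (L l267 (L l291 (L l477 (T t1333 N))))))))))) N)))))))))))))) (K a231 (M a219 (L l331 (F (T t47 (L l235 (L l271 (L l307 (T t75 (L l267 (L l291 (L l477 (T t1333 (K a71 (M a139 (F (T t47 (L l235 (L l271 (L l307 (T t75 (L l267 (L l291 (L l477 (T t1333 N))))))))))) (K a139 (M a71 (F (T t47 (L l235 (L l271 (L l307 (T t75 (L l267 (L l291 (L l477 (T t1333 N))))))))))) N))))))))))))))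 (K a139 (M a71 (L l301 (F (T t47 (L l235 (L l271 (L l307 (T t75 (L l267 (L l291 (L l477 (T t1333 (K a231 (M a219 (F (T t47 (L l235 (L l271 (L l307 (T t75 (L l267 (L l291 (L l477 (T t1333 N))))))))))) (K a219 (M a231 (F (T t47 (L l235 (L l271 (L l307 (T t75 (L l267 (L l291 (L l477 (T t1333 N))))))))))) N)))))))))))))) (K a219 (M a231 (L l331 (F (T t47 (L l235 (L l271 (L l307 (T t75 (L l267 (L l291 (L l477 (T t1333 (K a71 (M a139 (F (T t47 (L l235 (L l271 (L l307 (T t75 (L l267 (L l291 (L l477 (T t1333 N))))))))))) (K a139 (M a71 (F (T t47 (L l235 (L l271 (L l307 (T t75 (L l267 (L l291 (L l477 (T t1333 N))))))))))) N)))))))))))))) N))))))))))))))))) (K a71 (M a139 (L l301 (L l451 (F (T t47 (L l235 (L l271 (L l307 (T t75 (L l267 (L l291 (L l477 (T t1333 (K a83 (M a163 (L l301 (F (T t47 (L l235 (L l271 (L l307 (T t75 (L l267 (L l291 (L l477 (T t1333 (K a231 (M a219 (F (T t47 (L l235 (L l271 (L l307 (T t75 (L l267 (L l291 (L l477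 (T t1333 N))))))))))) (K a219 (M a231 (F (T t47 (L l235 (L l271 (L l307 (T t75 (L l267 (L l291 (L l477 (T t1333 N))))))))))) N)))))))))))))) (K a163 (M a83 (L l301 (F (T t47 (L l235 (L l271 (L l307 (T t75 (L l267 (L l291 (L l477 (T t1333 (K a231 (M a219 (F (T t47 (L l235 (L l271 (L l307 (T t75 (L l267 (L l291 (L l477 (T t1333 N))))))))))) (K a219 (M a231 (F (T t47 (L l235 (L l271 (L l307 (T t75 (L l267 (L l291 (L l477 (T t1333 N))))))))))) N)))))))))))))) (K a231 (M a219 (L l451 (F (T t47 (L l235 (L l271 (L l307 (T t75 (L l267 (L l291 (L l477 (T t1333 (K a83 (M a163 (F (T t47 (L l235 (L l271 (L l307 (T t75 (L l267 (L l291 (L l477 (T t1333 N))))))))))) (K a163 (M a83 (F (T t47 (L l235 (L l271 (L l307 (T t75 (L l267 (L l291 (L l477 (T t1333 N))))))))))) N)))))))))))))) (K a219 (M a231 (L l451 (F (T t47 (L l235 (L l271 (L l307 (T t75 (L l267 (L l291 (L l477 (T t1333 (K a83 (M a163 (F (T t47 (L l235 (L l271 (L l307 (T t75 (L l267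 (L l291 (L l477 (T t1333 N))))))))))) (K a163 (M a83 (F (T t47 (L l235 (L l271 (L l307 (T t75 (L l267 (L l291 (L l477 (T t1333 N))))))))))) N)))))))))))))) N))))))))))))))))) (K a231 (M a219 (L l331 (L l451 (F (T t47 (L l235 (L l271 (L l307 (T t75 (L l267 (L l291 (L l477 (T t1333 (K a83 (M a163 (L l331 (F (T t47 (L l235 (L l271 (L l307 (T t75 (L l267 (L l291 (L l477 (T t1333 (K a71 (M a139 (F (T t47 (L l235 (L l271 (L l307 (T t75 (L l267 (L l291 (L l477 (T t1333 N))))))))))) (K a139 (M a71 (F (T t47 (L l235 (L l271 (L l307 (T t75 (L l267 (L l291 (L l477 (T t1333 N))))))))))) N)))))))))))))) (K a163 (M a83 (L l331 (F (T t47 (L l235 (L l271 (L l307 (T t75 (L l267 (L l291 (L l477 (T t1333 (K a71 (M a139 (F (T t47 (L l235 (L l271 (L l307 (T t75 (L l267 (L l291 (L l477 (T t1333 N))))))))))) (K a139 (M a71 (F (T t47 (L l235 (L l271 (L l307 (T t75 (L l267 (L l291 (L l477 (T t1333 N))))))))))) N)))))))))))))) (K a71 (M a139 (L l451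 (F (T t47 (L l235 (L l271 (L l307 (T t75 (L l267 (L l291 (L l477 (T t1333 (K a83 (M a163 (F (T t47 (L l235 (L l271 (L l307 (T t75 (L l267 (L l291 (L l477 (T t1333 N))))))))))) (K a163 (M a83 (F (T t47 (L l235 (L l271 (L l307 (T t75 (L l267 (L l291 (L l477 (T t1333 N))))))))))) N)))))))))))))) (K a139 (M a71 (L l451 (F (T t47 (L l235 (L l271 (L l307 (T t75 (L l267 (L l291 (L l477 (T t1333 (K a83 (M a163 (F (T t47 (L l235 (L l271 (L l307 (T t75 (L l267 (L l291 (L l477 (T t1333 N))))))))))) (K a163 (M a83 (F (T t47 (L l235 (L l271 (L l307 (T t75 (L l267 (L l291 (L l477 (T t1333 N))))))))))) N)))))))))))))) N))))))))))))))))) (K a139 (M a71 (L l301 (L l451 (F (T t47 (L l235 (L l271 (L l307 (T t75 (L l267 (L l291 (L l477 (T t1333 (K a83 (M a163 (L l301 (F (T t47 (L l235 (L l271 (L l307 (T t75 (L l267 (L l291 (L l477 (T t1333 (K a231 (M a219 (F (T t47 (L l235 (L l271 (L l307 (T t75 (L l267 (L l291 (L l477 (T t1333 N))))))))))) (K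 a219 (M a231 (F (T t47 (L l235 (L l271 (L l307 (T t75 (L l267 (L l291 (L l477 (T t1333 N))))))))))) N)))))))))))))) (K a163 (M a83 (L l301 (F (T t47 (L l235 (L l271 (L l307 (T t75 (L l267 (L l291 (L l477 (T t1333 (K a231 (M a219 (F (T t47 (L l235 (L l271 (L l307 (T t75 (L l267 (L l291 (L l477 (T t1333 N))))))))))) (K a219 (M a231 (F (T t47 (L l235 (L l271 (L l307 (T t75 (L l267 (L l291 (L l477 (T t1333 N))))))))))) N)))))))))))))) (K a231 (M a219 (L l451 (F (T t47 (L l235 (L l271 (L l307 (T t75 (L l267 (L l291 (L l477 (T t1333 (K a83 (M a163 (F (T t47 (L l235 (L l271 (L l307 (T t75 (L l267 (L l291 (L l477 (T t1333 N))))))))))) (K a163 (M a83 (F (T t47 (L l235 (L l271 (L l307 (T t75 (L l267 (L l291 (L l477 (T t1333 N))))))))))) N)))))))))))))) (K a219 (M a231 (L l451 (F (T t47 (L l235 (L l271 (L l307 (T t75 (L l267 (L l291 (L l477 (T t1333 (K a83 (M a163 (F (T t47 (L l235 (L l271 (L l307 (T t75 (L l267 (L l291 (L l477 (T t1333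 N))))))))))) (K a163 (M a83 (F (T t47 (L l235 (L l271 (L l307 (T t75 (L l267 (L l291 (L l477 (T t1333 N))))))))))) N)))))))))))))) N))))))))))))))))) (K a219 (M a231 (L l331 (L l451 (F (T t47 (L l235 (L l271 (L l307 (T t75 (L l267 (L l291 (L l477 (T t1333 (K a83 (M a163 (L l331 (F (T t47 (L l235 (L l271 (L l307 (T t75 (L l267 (L l291 (L l477 (T t1333 (K a71 (M a139 (F (T t47 (L l235 (L l271 (L l307 (T t75 (L l267 (L l291 (L l477 (T t1333 N))))))))))) (K a139 (M a71 (F (T t47 (L l235 (L l271 (L l307 (T t75 (L l267 (L l291 (L l477 (T t1333 N))))))))))) N)))))))))))))) (K a163 (M a83 (L l331 (F (T t47 (L l235 (L l271 (L l307 (T t75 (L l267 (L l291 (L l477 (T t1333 (K a71 (M a139 (F (T t47 (L l235 (L l271 (L l307 (T t75 (L l267 (L l291 (L l477 (T t1333 N))))))))))) (K a139 (M a71 (F (T t47 (L l235 (L l271 (L l307 (T t75 (L l267 (L l291 (L l477 (T t1333 N))))))))))) N)))))))))))))) (K a71 (M a139 (L l451 (F (T t47 (L l235 (L l271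 (L l307 (T t75 (L l267 (L l291 (L l477 (T t1333 (K a83 (M a163 (F (T t47 (L l235 (L l271 (L l307 (T t75 (L l267 (L l291 (L l477 (T t1333 N))))))))))) (K a163 (M a83 (F (T t47 (L l235 (L l271 (L l307 (T t75 (L l267 (L l291 (L l477 (T t1333 N))))))))))) N)))))))))))))) (K a139 (M a71 (L l451 (F (T t47 (L l235 (L l271 (L l307 (T t75 (L l267 (L l291 (L l477 (T t1333 (K a83 (M a163 (F (T t47 (L l235 (L l271 (L l307 (T t75 (L l267 (L l291 (L l477 (T t1333 N))))))))))) (K a163 (M a83 (F (T t47 (L l235 (L l271 (L l307 (T t75 (L l267 (L l291 (L l477 (T t1333 N))))))))))) N)))))))))))))) N))))))))))))))))) N)))))))))))))))))))) (K a231 (M a219 (F (T t116 (L l331 (L l451 (T t67 (L l331 (L l451 (T t43 (L l331 (L l451 (T t68 (L l331 (L l451 (T t69 (K a20 (M a48 (F (T t138 (L l325 (L l481 (T t2 (L l11 (T t235 N)))))))) (K a40 (M a48 (F (T t246 (L l22 (L l325 (L l481 (T t2 (L l52 (T t235 N))))))))) (K a21 (M a48 (F (T t138 (L l277 (L l289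 (L l482 (T t5879 N))))))) (K a41 (M a16 (F (L l57 (T t5694 (L l22 (L l235 (L l271 (L l277 (L l289 (L l482 (T t5881 N))))))))))) (K a61 (M a192 (F (T t1681 (L l267 (L l291 (T t1333 (L l65 (L l515 (T t2549 N))))))))) (K a22 (M a8 (F (L l66 (T t3949 (L l11 (L l235 (L l255 (L l265 (L l271 (L l512 (T t5882 N))))))))))) (K a42 (M a48 (F (T t236 (L l22 (L l28 (L l277 (L l289 (L l482 (T t5879 N))))))))) (K a62 (M a192 (F (T t47 (L l267 (L l291 (T t1333 (T t2549 N))))))) (K a3 (M a192 (L l331 (L l451 (F (T t47 (L l235 (L l271 (L l307 (T t75 (L l267 (L l291 (L l477 (T t1333 (K a83 (M a163 (L l331 (F (T t47 (L l235 (L l271 (L l307 (T t75 (L l267 (L l291 (L l477 (T t1333 (K a71 (M a139 (F (T t47 (L l235 (L l271 (L l307 (T t75 (L l267 (L l291 (L l477 (T t1333 N))))))))))) (K a139 (M a71 (F (T t47 (L l235 (L l271 (L l307 (T t75 (L l267 (L l291 (L l477 (T t1333 N))))))))))) N)))))))))))))) (K a163 (M a83 (L l331 (F (T t47 (L l235 (L l271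 (L l307 (T t75 (L l267 (L l291 (L l477 (T t1333 (K a71 (M a139 (F (T t47 (L l235 (L l271 (L l307 (T t75 (L l267 (L l291 (L l477 (T t1333 N))))))))))) (K a139 (M a71 (F (T t47 (L l235 (L l271 (L l307 (T t75 (L l267 (L l291 (L l477 (T t1333 N))))))))))) N)))))))))))))) (K a71 (M a139 (L l451 (F (T t47 (L l235 (L l271 (L l307 (T t75 (L l267 (L l291 (L l477 (T t1333 (K a83 (M a163 (F (T t47 (L l235 (L l271 (L l307 (T t75 (L l267 (L l291 (L l477 (T t1333 N))))))))))) (K a163 (M a83 (F (T t47 (L l235 (L l271 (L l307 (T t75 (L l267 (L l291 (L l477 (T t1333 N))))))))))) N)))))))))))))) (K a139 (M a71 (L l451 (F (T t47 (L l235 (L l271 (L l307 (T t75 (L l267 (L l291 (L l477 (T t1333 (K a83 (M a163 (F (T t47 (L l235 (L l271 (L l307 (T t75 (L l267 (L l291 (L l477 (T t1333 N))))))))))) (K a163 (M a83 (F (T t47 (L l235 (L l271 (L l307 (T t75 (L l267 (L l291 (L l477 (T t1333 N))))))))))) N)))))))))))))) N))))))))))))))))) N))))))))))))))))))))))))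 (K a219 (M a231 (F (T t116 (L l331 (L l451 (T t67 (L l331 (L l451 (T t43 (L l331 (L l451 (T t68 (L l331 (L l451 (T t69 (K a20 (M a48 (F (T t138 (L l325 (L l481 (T t2 (L l11 (T t235 N)))))))) (K a40 (M a48 (F (T t246 (L l22 (L l325 (L l481 (T t2 (L l52 (T t235 N))))))))) (K a21 (M a48 (F (T t138 (L l11 (L l18 (L l283 (L l289 (L l482 (T t5880 N))))))))) (K a41 (M a4 (F (L l29 (T t5883 (L l22 (L l235 (L l245 (L l265 (L l271 (L l512 (T t5884 N))))))))))) (K a61 (M a192 (F (T t1681 (L l267 (L l291 (T t1333 (L l65 (L l515 (T t2549 N))))))))) (K a22 (M a32 (F (L l66 (T t5885 (L l11 (L l235 (L l271 (L l283 (L l289 (L l482 (T t5886 N))))))))))) (K a42 (M a48 (F (T t236 (L l283 (L l289 (L l482 (T t5880 N))))))) (K a62 (M a192 (F (T t47 (L l267 (L l291 (T t1333 (T t2549 N))))))) (K a3 (M a192 (L l331 (L l451 (F (T t47 (L l235 (L l271 (L l307 (T t75 (L l267 (L l291 (L l477 (T t1333 (K a83 (M a163 (L l331 (F (T t47 (L l235 (L l271 (L l307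 (T t75 (L l267 (L l291 (L l477 (T t1333 (K a71 (M a139 (F (T t47 (L l235 (L l271 (L l307 (T t75 (L l267 (L l291 (L l477 (T t1333 N))))))))))) (K a139 (M a71 (F (T t47 (L l235 (L l271 (L l307 (T t75 (L l267 (L l291 (L l477 (T t1333 N))))))))))) N)))))))))))))) (K a163 (M a83 (L l331 (F (T t47 (L l235 (L l271 (L l307 (T t75 (L l267 (L l291 (L l477 (T t1333 (K a71 (M a139 (F (T t47 (L l235 (L l271 (L l307 (T t75 (L l267 (L l291 (L l477 (T t1333 N))))))))))) (K a139 (M a71 (F (T t47 (L l235 (L l271 (L l307 (T t75 (L l267 (L l291 (L l477 (T t1333 N))))))))))) N)))))))))))))) (K a71 (M a139 (L l451 (F (T t47 (L l235 (L l271 (L l307 (T t75 (L l267 (L l291 (L l477 (T t1333 (K a83 (M a163 (F (T t47 (L l235 (L l271 (L l307 (T t75 (L l267 (L l291 (L l477 (T t1333 N))))))))))) (K a163 (M a83 (F (T t47 (L l235 (L l271 (L l307 (T t75 (L l267 (L l291 (L l477 (T t1333 N))))))))))) N)))))))))))))) (K a139 (M a71 (L l451 (F (T t47 (L l235 (L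 l271 (L l307 (T t75 (L l267 (L l291 (L l477 (T t1333 (K a83 (M a163 (F (T t47 (L l235 (L l271 (L l307 (T t75 (L l267 (L l291 (L l477 (T t1333 N))))))))))) (K a163 (M a83 (F (T t47 (L l235 (L l271 (L l307 (T t75 (L l267 (L l291 (L l477 (T t1333 N))))))))))) N)))))))))))))) N))))))))))))))))) N)))))))))))))))))))))))) N)))))))))))))))))))))))))))⟩
def e0_63__207_80 : Ent 4 := ⟨[a0, a63], [a207, a245], (M a12 (F (T t150 (L l511 (T t122 (L l511 (T t151 (L l511 (T t152 (L l511 (T t153 (K a4 (M a60 (F (T t570 (L l46 (L l50 (L l331 (T t67 (T t448 N)))))))) (K a8 (M a60 (F (T t570 (L l331 (T t67 (L l52 (L l56 (T t448 N)))))))) (K a21 (M a192 (F (T t158 (L l231 (T t156 (L l15 (L l259 (L l347 (T t157 N))))))))) (K a25 (M a192 (F (T t158 (L l231 (T t156 (L l266 (L l289 (T t21 N)))))))) (K a29 (M a192 (F (T t159 (L l266 (L l289 (L l371 (T t21 (L l275 (T t160 N))))))))) (K a38 (M a192 (F (T t161 (L l231 (T t156 (L l266 (L l289 (T t21 N))))))))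 (K a42 (M a192 (F (T t161 (L l231 (T t156 (L l56 (L l259 (T t157 N)))))))) (K a46 (M a192 (F (T t57 (L l231 (T t156 (L l26 (L l275 (L l408 (T t160 N))))))))) (K a51 (M a192 (L l511 (F (T t1800 (L l231 (L l513 (T t156 (L l301 (L l415 (T t450 (K a103 (M a155 (F (T t47 (L l301 (L l415 (T t543 (L l231 (L l513 (T t468 N))))))))) (K a155 (M a103 (F (T t47 (L l301 (L l415 (T t543 (L l231 (L l513 (T t468 N))))))))) N)))))))))))) N))))))))))))))))))))⟩
def e0_63__207_81 : Ent 4 := ⟨[a0, a63], [a207, a246], (M a12 (F (T t150 (L l511 (T t122 (L l511 (T t151 (L l511 (T t152 (L l511 (T t153 (K a4 (M a60 (F (T t570 (L l46 (L l50 (L l331 (T t67 (T t448 N)))))))) (K a8 (M a60 (F (T t570 (L l331 (T t67 (L l52 (L l56 (T t448 N)))))))) (K a21 (M a192 (F (T t2119 (L l15 (L l267 (L l301 (L l347 (T t450 (L l15 (L l259 (L l347 (T t157 N)))))))))))) (K a25 (M a192 (F (T t158 (L l231 (T t156 (L l289 (T t21 N))))))) (K a29 (M a192 (F (T t159 (L l289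 (L l371 (T t21 (T t160 N))))))) (K a38 (M a192 (F (T t161 (L l231 (T t156 (L l289 (T t21 N))))))) (K a42 (M a192 (F (T t161 (L l231 (T t156 (L l56 (L l259 (T t157 N)))))))) (K a46 (M a192 (F (T t57 (L l231 (T t156 (L l26 (L l408 (T t160 N)))))))) (K a51 (M a85 (L l511 (F (T t571 (L l259 (T t572 (K a103 (M a155 (F (T t89 (L l289 (L l439 (L l456 (T t573 (L l259 (T t574 N))))))))) (K a155 (M a103 (F (T t89 (L l289 (L l439 (L l456 (T t573 (L l259 (T t574 N))))))))) N)))))))) N))))))))))))))))))))⟩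
def e0_63__207_82 : Ent 4 := ⟨[a0, a63], [a207, a247], (M a60 (F (T t116 (L l331 (T t67 (L l331 (T t43 (L l331 (T t68 (L l331 (T t69 (K a20 (M a48 (F (T t138 (L l11 (L l325 (T t1 (L l11 (L l457 (T t235 N))))))))) (K a40 (M a48 (F (T t48 (L l511 (T t64 (L l52 (L l457 (T t235 N)))))))) (K a21 (M a192 (F (T t2647 (L l235 (L l347 (T t73 (L l277 (L l347 (T t74 N))))))))) (K a41 (M a192 (F (T t254 (L l65 (L l265 (L l289 (T t35 (L l235 (T t73 N))))))))) (K a61 (M a192 (F (T t1334 (L l65 (L l265 (L l289 (L l515 (T t35 (L l278 (T t80 N)))))))))) (K a22 (M a192 (F (T t614 (L l11 (L l291 (T t79 (L l11 (L l265 (L l289 (T t35 N)))))))))) (K a42 (M a192 (F (T t614 (L l291 (T t79 (L l22 (L l277 (T t74 N)))))))) (K a62 (M a192 (F (T t57 (L l291 (T t79 (L l66 (L l278 (L l516 (T t80 N))))))))) (K a3 (M a85 (L l331 (F (T t5413 (L l236 (L l278 (L l309 (T t88 (L l277 (T t523 (K a71 (M a139 (F (T t447 (L l277 (L l278 (T t115 N)))))) (K a139 (M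 a71 (F (T t4539 (L l265 (L l289 (L l475 (T t1345 (L l277 (T t523 N))))))))) N)))))))))))) N))))))))))))))))))))⟩
def e0_63__207_83 : Ent 4 := ⟨[a0, a63], [a207, a255], (M a48 (L l289 (F (T t48 (L l325 (L l469 (T t1 (L l325 (L l469 (T t2 (L l325 (L l469 (T t3 (L l325 (L l469 (T t0 (K a16 (M a60 (L l289 (F (T t138 (L l14 (L l18 (L l331 (L l475 (T t67 (T t65 (K a223 (M a239 (L l368 (F (T t522 (L l439 (L l511 (T t451 (T t65 (K a85 (M a154 (F (T t522 (L l235 (L l236 (T t5887 N)))))) (K a154 (M a85 (F (T t246 (L l245 (L l246 (L l295 (L l296 (T t115 N)))))))) N)))))))))) (K a239 (M a223 (F (T t522 (L l439 (L l511 (T t451 (T t65 N))))))) N)))))))))))) (K a32 (M a60 (L l289 (F (T t116 (L l439 (L l511 (T t64 (L l24 (L l28 (T t65 (K a223 (M a239 (F (T t2568 (L l439 (L l511 (T t451 (L l24 (L l28 (T t65 N))))))))) (K a239 (M a223 (L l404 (F (T t2568 (L l439 (L l511 (T t451 (L l24 (L l28 (T t65 (K a101 (M a170 (F (T t277 (L l255 (L l256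 (L l295 (L l296 (T t458 N)))))))) (K a170 (M a101 (F (T t116 (L l235 (L l236 (T t5888 N)))))) N)))))))))))) N)))))))))))) (K a21 (M a60 (L l289 (F (T t1543 (L l47 (L l65 (L l439 (L l511 (T t64 (L l11 (L l18 (L l47 (L l65 (L l326 (L l470 (T t288 (L l50 (L l326 (L l470 (T t250 (K a223 (M a239 (F (T t138 (L l11 (L l326 (L l470 (T t489 (L l11 (L l18 (L l295 (L l368 (T t5889 N)))))))))))) (K a239 (M a223 (F (T t138 (L l295 (L l404 (T t5890 (L l65 (L l295 (L l347 (L l404 (T t5891 N))))))))))) N)))))))))))))))))))))) (K a37 (M a36 (L l289 (F (T t5892 (L l47 (L l439 (L l511 (T t5893 (L l25 (L l47 (L l71 (T t5894 (K a223 (M a239 (F (L l47 (T t5895 (L l301 (L l368 (T t5896 N))))))) (K a239 (M a223 (F (L l398 (T t5892 (L l28 (L l47 (L l236 (L l404 (T t5897 (L l47 (L l439 (L l511 (T t5893 N))))))))))))) N)))))))))))))) (K a53 (M a20 (L l289 (F (T t183 (L l331 (L l475 (T t238 (T t5898 (K a223 (M a239 (F (T t2163 (L l31 (L l368 (L l434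 (L l506 (T t1201 (T t5899 N))))))))) (K a239 (M a223 (F (T t1268 (L l295 (L l404 (T t5900 N)))))) N)))))))))) (K a26 (M a24 (L l289 (F (T t5100 (L l54 (L l439 (L l511 (T t3180 (L l16 (L l54 (L l72 (T t3233 (K a223 (M a239 (F (L l362 (T t5100 (L l18 (L l54 (L l236 (L l368 (T t5901 (L l54 (L l439 (L l511 (T t3180 N))))))))))))) (K a239 (M a223 (F (L l54 (T t5902 (L l301 (L l404 (T t5903 N))))))) N)))))))))))))) (K a42 (M a60 (L l289 (F (T t3520 (L l439 (L l511 (T t64 (L l56 (L l326 (L l470 (T t288 (L l22 (L l28 (L l54 (L l66 (L l326 (L l470 (T t250 (K a223 (M a239 (F (T t236 (L l326 (L l368 (L l470 (T t880 (L l54 (L l66 (L l236 (L l368 (L l390 (T t5904 N))))))))))))) (K a239 (M a223 (F (T t236 (L l22 (L l28 (L l295 (L l404 (T t5890 (L l22 (L l28 (L l295 (L l404 (T t5891 N))))))))))))) N)))))))))))))))))))) (K a58 (M a20 (L l289 (F (T t183 (L l54 (L l331 (L l475 (T t238 (L l54 (T t5905 (K a223 (M a239 (F (L l362 (T t183 (L l54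 (L l331 (L l475 (T t238 (L l54 (L l361 (L l362 (T t5906 N)))))))))))) (K a239 (M a223 (F (L l36 (L l54 (T t1268 (L l295 (L l404 (L l498 (T t5900 N))))))))) N)))))))))))) (K a15 (M a20 (L l289 (L l325 (L l469 (F (T t183 (L l7 (L l331 (L l475 (T t238 (L l73 (T t5907 (K a79 (M a143 (L l289 (L l469 (F (T t183 (L l7 (L l331 (L l475 (T t238 (L l73 (T t5907 (K a95 (M a175 (L l137 (L l289 (F (T t183 (L l7 (L l331 (L l475 (T t238 (L l73 (T t5907 (K a223 (M a239 (L l137 (L l361 (F (L l368 (T t5908 (L l73 (L l439 (L l511 (T t239 (K a31 (Fr a159 a191 l213 (V t238)) (K a159 (M a31 (L l137 (F (T t5174 (L l73 (L l439 (L l511 (T t3339 (K a111 (M a127 (F (T t5174 (L l73 (L l439 (L l511 (T t239 N))))))) (K a127 (Fr a111 a47 l397 (V t5174)) N)))))))))) (K a111 (M a127 (L l361 (F (T t5909 (L l104 (L l151 (L l296 (L l368 (T t5910 (K a31 (Fr a159 a191 l213 (V t3439)) (K a159 (M a31 (F (T t5174 (L l73 (L l439 (L l511 (T t239 N))))))) N)))))))))))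 (K a127 (Fr a111 a47 l397 (V t803)) N)))))))))))))) (K a111 (M a127 (L l289 (F (T t183 (L l7 (L l331 (L l475 (T t238 (L l73 (T t5907 (K a223 (M a239 (L l361 (F (T t5909 (L l104 (L l151 (L l296 (L l368 (T t5910 (K a31 (Fr a159 a191 l213 (V t3439)) (K a159 (M a31 (F (T t5174 (L l73 (L l439 (L l511 (T t239 N))))))) N))))))))))) (K a239 (M a223 (F (T t1268 (L l295 (L l404 (T t5900 N)))))) N)))))))))))) (K a239 (M a223 (L l137 (F (T t1268 (L l295 (L l404 (T t5900 (K a111 (M a127 (F (T t1268 (L l295 (L l404 (T t5900 N)))))) (K a127 (M a111 (F (T t1268 (L l295 (L l404 (T t5900 N)))))) N))))))))) (K a127 (M a111 (L l289 (F (T t5911 (L l73 (L l439 (L l511 (T t3339 (K a223 (Fr a239 a47 l397 (V t803)) (K a239 (M a223 (F (T t1268 (L l295 (L l404 (T t5900 N)))))) N)))))))))) N))))))))))))))) (K a223 (M a239 (L l469 (F (T t5912 (L l7 (L l331 (L l475 (T t238 (L l73 (T t5899 (K a95 (M a175 (L l137 (L l361 (F (L l368 (T t5908 (L l73 (L l439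 (L l511 (T t239 (K a31 (Fr a159 a191 l213 (V t238)) (K a159 (M a31 (L l137 (F (T t5174 (L l73 (L l439 (L l511 (T t3339 (K a111 (M a127 (F (T t5174 (L l73 (L l439 (L l511 (T t239 N))))))) (K a127 (Fr a111 a47 l397 (V t5174)) N)))))))))) (K a111 (M a127 (L l361 (F (T t5909 (L l104 (L l151 (L l296 (L l368 (T t5910 (K a31 (Fr a159 a191 l213 (V t3439)) (K a159 (M a31 (F (T t5174 (L l73 (L l439 (L l511 (T t239 N))))))) N))))))))))) (K a127 (Fr a111 a47 l397 (V t803)) N)))))))))))))) (K a175 (M a95 (F (T t5912 (L l7 (L l331 (L l475 (T t238 (L l73 (T t5899 N))))))))) N)))))))))))) (K a175 (M a95 (L l289 (F (T t183 (L l7 (L l331 (L l475 (T t238 (L l73 (T t5898 (K a223 (M a239 (F (T t5912 (L l7 (L l331 (L l475 (T t238 (L l73 (T t5899 N))))))))) (K a239 (M a223 (L l397 (F (T t2163 (L l295 (L l404 (T t5900 (K a47 (M a111 (F (T t5909 (L l28 (L l404 (T t5913 N)))))) (K a111 (M a47 (F (T t5914 (L l73 (L l439 (L l511 (T t239 N))))))) N)))))))))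 N)))))))))))) (K a239 (M a223 (L l469 (F (T t2163 (L l295 (L l404 (T t5900 (K a95 (M a175 (L l137 (F (T t1268 (L l295 (L l404 (T t5900 (K a111 (M a127 (F (T t1268 (L l295 (L l404 (T t5900 N)))))) (K a127 (M a111 (F (T t1268 (L l295 (L l404 (T t5900 N)))))) N))))))))) (K a175 (M a95 (L l397 (F (T t2163 (L l295 (L l404 (T t5900 (K a47 (M a111 (F (T t5909 (L l28 (L l404 (T t5913 N)))))) (K a111 (M a47 (F (T t5914 (L l73 (L l439 (L l511 (T t239 N))))))) N))))))))) N))))))))) N))))))))))))))) (K a143 (M a79 (L l289 (L l469 (F (T t183 (L l7 (L l331 (L l475 (T t238 (L l73 (T t5907 (K a95 (M a175 (L l289 (F (T t183 (L l7 (L l331 (L l475 (T t238 (L l73 (T t5907 (K a223 (M a239 (L l361 (F (T t5915 (L l368 (T t5916 (K a31 (M a159 (F (T t5915 (L l18 (L l368 (T t5916 N)))))) (K a159 (M a31 (F (T t5174 (L l73 (L l439 (L l511 (T t3341 N))))))) N)))))))) (K a239 (M a223 (F (T t1268 (L l227 (L l295 (L l404 (T t5900 N))))))) N)))))))))))) (K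 a223 (M a239 (L l469 (F (T t5912 (L l7 (L l331 (L l475 (T t238 (L l73 (T t5899 (K a95 (M a175 (L l361 (F (T t5915 (L l368 (T t5916 (K a31 (M a159 (F (T t5915 (L l18 (L l368 (T t5916 N)))))) (K a159 (M a31 (F (T t5174 (L l73 (L l439 (L l511 (T t3341 N))))))) N)))))))) (K a175 (M a95 (L l213 (F (T t1268 (L l180 (L l236 (L l368 (T t5917 (K a159 (M a191 (F (T t5915 (L l160 (L l236 (L l296 (L l339 (L l368 (T t5918 N))))))))) (K a191 (M a159 (F (T t2163 (L l180 (L l220 (L l236 (L l368 (T t5919 (L l63 (L l362 (L l434 (L l506 (T t3701 N))))))))))))) N)))))))))) N)))))))))))) (K a175 (M a95 (L l213 (L l289 (F (T t183 (L l7 (L l331 (L l475 (T t238 (L l73 (T t5898 (K a159 (M a191 (L l289 (F (T t183 (L l7 (L l331 (L l475 (T t238 (L l73 (T t5907 (K a223 (M a239 (F (T t5915 (L l160 (L l236 (L l296 (L l339 (L l368 (T t5918 N))))))))) (K a239 (M a223 (L l397 (F (T t2163 (L l170 (L l227 (L l295 (L l404 (T t5900 (K a47 (Fr a111 a127 l137 (V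 t3439)) (K a111 (M a47 (F (T t5920 (L l73 (L l439 (L l511 (T t3339 N))))))) N))))))))))) N)))))))))))) (K a223 (M a239 (L l213 (F (T t1268 (L l180 (L l236 (L l368 (T t5917 (K a159 (M a191 (F (T t5915 (L l160 (L l236 (L l296 (L l339 (L l368 (T t5918 N))))))))) (K a191 (M a159 (F (T t2163 (L l180 (L l220 (L l236 (L l368 (T t5919 (L l63 (L l362 (L l434 (L l506 (T t3701 N))))))))))))) N)))))))))) (K a239 (M a223 (L l213 (L l397 (F (T t1268 (L l227 (L l295 (L l404 (T t5900 (K a159 (M a191 (L l397 (F (T t2163 (L l170 (L l227 (L l295 (L l404 (T t5900 (K a47 (Fr a111 a127 l137 (V t3439)) (K a111 (M a47 (F (T t5920 (L l73 (L l439 (L l511 (T t3339 N))))))) N))))))))))) (K a47 (Fr a111 a127 l137 (V t183)) (K a111 (M a47 (L l213 (F (T t5914 (L l73 (L l439 (L l511 (T t3339 (K a159 (M a191 (F (T t5920 (L l73 (L l439 (L l511 (T t3339 N))))))) (K a191 (Fr a159 a31 l361 (V t5920)) N)))))))))) (K a191 (Fr a159 a31 l361 (V t3439)) N)))))))))))))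 (K a191 (M a159 (L l289 (F (T t5921 (L l73 (L l439 (L l511 (T t3339 (K a223 (M a239 (F (T t2163 (L l180 (L l220 (L l236 (L l368 (T t5919 (L l63 (L l362 (L l434 (L l506 (T t3701 N))))))))))))) (K a239 (Fr a223 a31 l361 (V t3439)) N)))))))))) N))))))))))))))) (K a239 (M a223 (L l469 (F (T t1268 (L l227 (L l295 (L l404 (T t5900 (K a95 (M a175 (F (T t1268 (L l227 (L l295 (L l404 (T t5900 N))))))) (K a175 (M a95 (L l213 (L l397 (F (T t1268 (L l227 (L l295 (L l404 (T t5900 (K a159 (M a191 (L l397 (F (T t2163 (L l170 (L l227 (L l295 (L l404 (T t5900 (K a47 (Fr a111 a127 l137 (V t3439)) (K a111 (M a47 (F (T t5920 (L l73 (L l439 (L l511 (T t3339 N))))))) N))))))))))) (K a47 (Fr a111 a127 l137 (V t183)) (K a111 (M a47 (L l213 (F (T t5914 (L l73 (L l439 (L l511 (T t3339 (K a159 (M a191 (F (T t5920 (L l73 (L l439 (L l511 (T t3339 N))))))) (K a191 (Fr a159 a31 l361 (V t5920)) N)))))))))) (K a191 (Fr a159 a31 l361 (V t3439)) N)))))))))))))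 N)))))))))) N))))))))))))))) (K a95 (M a175 (L l289 (L l325 (F (T t183 (L l7 (L l331 (L l475 (T t238 (L l73 (T t5907 (K a79 (M a143 (L l137 (L l289 (F (T t183 (L l7 (L l331 (L l475 (T t238 (L l73 (T t5907 (K a223 (M a239 (L l137 (L l361 (F (L l368 (T t5908 (L l73 (L l439 (L l511 (T t239 (K a31 (Fr a159 a191 l213 (V t238)) (K a159 (M a31 (L l137 (F (T t5174 (L l73 (L l439 (L l511 (T t3339 (K a111 (M a127 (F (T t5174 (L l73 (L l439 (L l511 (T t239 N))))))) (K a127 (Fr a111 a47 l397 (V t5174)) N)))))))))) (K a111 (M a127 (L l361 (F (T t5909 (L l104 (L l151 (L l296 (L l368 (T t5910 (K a31 (Fr a159 a191 l213 (V t3439)) (K a159 (M a31 (F (T t5174 (L l73 (L l439 (L l511 (T t239 N))))))) N))))))))))) (K a127 (Fr a111 a47 l397 (V t803)) N)))))))))))))) (K a111 (M a127 (L l289 (F (T t183 (L l7 (L l331 (L l475 (T t238 (L l73 (T t5907 (K a223 (M a239 (L l361 (F (T t5909 (L l104 (L l151 (L l296 (L l368 (T t5910 (K a31 (Fr a159 a191 l213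 (V t3439)) (K a159 (M a31 (F (T t5174 (L l73 (L l439 (L l511 (T t239 N))))))) N))))))))))) (K a239 (M a223 (F (T t1268 (L l295 (L l404 (T t5900 N)))))) N)))))))))))) (K a239 (M a223 (L l137 (F (T t1268 (L l295 (L l404 (T t5900 (K a111 (M a127 (F (T t1268 (L l295 (L l404 (T t5900 N)))))) (K a127 (M a111 (F (T t1268 (L l295 (L l404 (T t5900 N)))))) N))))))))) (K a127 (M a111 (L l289 (F (T t5911 (L l73 (L l439 (L l511 (T t3339 (K a223 (Fr a239 a47 l397 (V t803)) (K a239 (M a223 (F (T t1268 (L l295 (L l404 (T t5900 N)))))) N)))))))))) N))))))))))))))) (K a143 (M a79 (L l289 (F (T t183 (L l7 (L l331 (L l475 (T t238 (L l73 (T t5907 (K a223 (M a239 (L l361 (F (T t5915 (L l368 (T t5916 (K a31 (M a159 (F (T t5915 (L l18 (L l368 (T t5916 N)))))) (K a159 (M a31 (F (T t5174 (L l73 (L l439 (L l511 (T t3341 N))))))) N)))))))) (K a239 (M a223 (F (T t1268 (L l227 (L l295 (L l404 (T t5900 N))))))) N)))))))))))) (K a223 (M a239 (L l325 (L l361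 (F (T t5909 (L l137 (L l368 (T t5916 (K a79 (M a143 (L l137 (L l361 (F (L l368 (T t5908 (L l73 (L l439 (L l511 (T t239 (K a31 (Fr a159 a191 l213 (V t238)) (K a159 (M a31 (L l137 (F (T t5174 (L l73 (L l439 (L l511 (T t3339 (K a111 (M a127 (F (T t5174 (L l73 (L l439 (L l511 (T t239 N))))))) (K a127 (Fr a111 a47 l397 (V t5174)) N)))))))))) (K a111 (M a127 (L l361 (F (T t5909 (L l104 (L l151 (L l296 (L l368 (T t5910 (K a31 (Fr a159 a191 l213 (V t3439)) (K a159 (M a31 (F (T t5174 (L l73 (L l439 (L l511 (T t239 N))))))) N))))))))))) (K a127 (Fr a111 a47 l397 (V t803)) N)))))))))))))) (K a143 (M a79 (L l361 (F (T t5915 (L l368 (T t5916 (K a31 (M a159 (F (T t5915 (L l18 (L l368 (T t5916 N)))))) (K a159 (M a31 (F (T t5174 (L l73 (L l439 (L l511 (T t3341 N))))))) N)))))))) (K a31 (M a159 (L l325 (F (T t5915 (L l18 (L l137 (L l368 (T t5916 (K a79 (Fr a143 a191 l213 (V t238)) (K a143 (M a79 (F (T t5915 (L l18 (L l368 (T t5916 N))))))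 N)))))))))) (K a159 (M a31 (L l325 (F (T t5922 (L l73 (L l439 (L l511 (T t3339 (K a79 (M a143 (L l137 (F (T t5174 (L l73 (L l439 (L l511 (T t3339 (K a111 (M a127 (F (T t5174 (L l73 (L l439 (L l511 (T t239 N))))))) (K a127 (Fr a111 a47 l397 (V t5174)) N)))))))))) (K a143 (M a79 (F (T t5174 (L l73 (L l439 (L l511 (T t3341 N))))))) N)))))))))) N)))))))))))) (K a239 (M a223 (L l325 (F (T t2163 (L l295 (L l404 (T t5900 (K a79 (M a143 (L l137 (F (T t1268 (L l295 (L l404 (T t5900 (K a111 (M a127 (F (T t1268 (L l295 (L l404 (T t5900 N)))))) (K a127 (M a111 (F (T t1268 (L l295 (L l404 (T t5900 N)))))) N))))))))) (K a143 (M a79 (F (T t1268 (L l227 (L l295 (L l404 (T t5900 N))))))) N))))))))) N))))))))))))))) (K a223 (M a239 (L l325 (L l469 (F (T t5912 (L l7 (L l331 (L l475 (T t238 (L l73 (T t5899 (K a79 (M a143 (L l469 (F (T t5912 (L l7 (L l331 (L l475 (T t238 (L l73 (T t5899 (K a95 (M a175 (L l137 (L l361 (F (L l368 (T t5908 (L l73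 (L l439 (L l511 (T t239 (K a31 (Fr a159 a191 l213 (V t238)) (K a159 (M a31 (L l137 (F (T t5174 (L l73 (L l439 (L l511 (T t3339 (K a111 (M a127 (F (T t5174 (L l73 (L l439 (L l511 (T t239 N))))))) (K a127 (Fr a111 a47 l397 (V t5174)) N)))))))))) (K a111 (M a127 (L l361 (F (T t5909 (L l104 (L l151 (L l296 (L l368 (T t5910 (K a31 (Fr a159 a191 l213 (V t3439)) (K a159 (M a31 (F (T t5174 (L l73 (L l439 (L l511 (T t239 N))))))) N))))))))))) (K a127 (Fr a111 a47 l397 (V t803)) N)))))))))))))) (K a175 (M a95 (F (T t5912 (L l7 (L l331 (L l475 (T t238 (L l73 (T t5899 N))))))))) N)))))))))))) (K a143 (M a79 (L l469 (F (T t5912 (L l7 (L l331 (L l475 (T t238 (L l73 (T t5899 (K a95 (M a175 (L l361 (F (T t5915 (L l368 (T t5916 (K a31 (M a159 (F (T t5915 (L l18 (L l368 (T t5916 N)))))) (K a159 (M a31 (F (T t5174 (L l73 (L l439 (L l511 (T t3341 N))))))) N)))))))) (K a175 (M a95 (L l213 (F (T t1268 (L l180 (L l236 (L l368 (T t5917 (K a159 (M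 a191 (F (T t5915 (L l160 (L l236 (L l296 (L l339 (L l368 (T t5918 N))))))))) (K a191 (M a159 (F (T t2163 (L l180 (L l220 (L l236 (L l368 (T t5919 (L l63 (L l362 (L l434 (L l506 (T t3701 N))))))))))))) N)))))))))) N)))))))))))) (K a95 (M a175 (L l325 (L l361 (F (T t5909 (L l137 (L l368 (T t5916 (K a79 (M a143 (L l137 (L l361 (F (L l368 (T t5908 (L l73 (L l439 (L l511 (T t239 (K a31 (Fr a159 a191 l213 (V t238)) (K a159 (M a31 (L l137 (F (T t5174 (L l73 (L l439 (L l511 (T t3339 (K a111 (M a127 (F (T t5174 (L l73 (L l439 (L l511 (T t239 N))))))) (K a127 (Fr a111 a47 l397 (V t5174)) N)))))))))) (K a111 (M a127 (L l361 (F (T t5909 (L l104 (L l151 (L l296 (L l368 (T t5910 (K a31 (Fr a159 a191 l213 (V t3439)) (K a159 (M a31 (F (T t5174 (L l73 (L l439 (L l511 (T t239 N))))))) N))))))))))) (K a127 (Fr a111 a47 l397 (V t803)) N)))))))))))))) (K a143 (M a79 (L l361 (F (T t5915 (L l368 (T t5916 (K a31 (M a159 (F (T t5915 (L l18 (L l368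 (T t5916 N)))))) (K a159 (M a31 (F (T t5174 (L l73 (L l439 (L l511 (T t3341 N))))))) N)))))))) (K a31 (M a159 (L l325 (F (T t5915 (L l18 (L l137 (L l368 (T t5916 (K a79 (Fr a143 a191 l213 (V t238)) (K a143 (M a79 (F (T t5915 (L l18 (L l368 (T t5916 N)))))) N)))))))))) (K a159 (M a31 (L l325 (F (T t5922 (L l73 (L l439 (L l511 (T t3339 (K a79 (M a143 (L l137 (F (T t5174 (L l73 (L l439 (L l511 (T t3339 (K a111 (M a127 (F (T t5174 (L l73 (L l439 (L l511 (T t239 N))))))) (K a127 (Fr a111 a47 l397 (V t5174)) N)))))))))) (K a143 (M a79 (F (T t5174 (L l73 (L l439 (L l511 (T t3341 N))))))) N)))))))))) N)))))))))))) (K a175 (M a95 (L l325 (F (T t5912 (L l7 (L l331 (L l475 (T t238 (L l73 (T t5899 (K a79 (M a143 (F (T t5912 (L l7 (L l331 (L l475 (T t238 (L l73 (T t5899 N))))))))) (K a143 (M a79 (L l213 (F (T t1268 (L l180 (L l236 (L l368 (T t5917 (K a159 (M a191 (F (T t5915 (L l160 (L l236 (L l296 (L l339 (L l368 (T t5918 N))))))))) (K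 a191 (M a159 (F (T t2163 (L l180 (L l220 (L l236 (L l368 (T t5919 (L l63 (L l362 (L l434 (L l506 (T t3701 N))))))))))))) N)))))))))) N)))))))))))) N))))))))))))))) (K a175 (M a95 (L l289 (L l325 (F (T t183 (L l7 (L l331 (L l475 (T t238 (L l73 (T t5898 (K a79 (M a143 (L l289 (F (T t183 (L l7 (L l331 (L l475 (T t238 (L l73 (T t5898 (K a223 (M a239 (F (T t5912 (L l7 (L l331 (L l475 (T t238 (L l73 (T t5899 N))))))))) (K a239 (M a223 (L l397 (F (T t2163 (L l295 (L l404 (T t5900 (K a47 (M a111 (F (T t5909 (L l28 (L l404 (T t5913 N)))))) (K a111 (M a47 (F (T t5914 (L l73 (L l439 (L l511 (T t239 N))))))) N))))))))) N)))))))))))) (K a143 (M a79 (L l213 (L l289 (F (T t183 (L l7 (L l331 (L l475 (T t238 (L l73 (T t5898 (K a159 (M a191 (L l289 (F (T t183 (L l7 (L l331 (L l475 (T t238 (L l73 (T t5907 (K a223 (M a239 (F (T t5915 (L l160 (L l236 (L l296 (L l339 (L l368 (T t5918 N))))))))) (K a239 (M a223 (L l397 (F (T t2163 (L l170 (L l227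 (L l295 (L l404 (T t5900 (K a47 (Fr a111 a127 l137 (V t3439)) (K a111 (M a47 (F (T t5920 (L l73 (L l439 (L l511 (T t3339 N))))))) N))))))))))) N)))))))))))) (K a223 (M a239 (L l213 (F (T t1268 (L l180 (L l236 (L l368 (T t5917 (K a159 (M a191 (F (T t5915 (L l160 (L l236 (L l296 (L l339 (L l368 (T t5918 N))))))))) (K a191 (M a159 (F (T t2163 (L l180 (L l220 (L l236 (L l368 (T t5919 (L l63 (L l362 (L l434 (L l506 (T t3701 N))))))))))))) N)))))))))) (K a239 (M a223 (L l213 (L l397 (F (T t1268 (L l227 (L l295 (L l404 (T t5900 (K a159 (M a191 (L l397 (F (T t2163 (L l170 (L l227 (L l295 (L l404 (T t5900 (K a47 (Fr a111 a127 l137 (V t3439)) (K a111 (M a47 (F (T t5920 (L l73 (L l439 (L l511 (T t3339 N))))))) N))))))))))) (K a47 (Fr a111 a127 l137 (V t183)) (K a111 (M a47 (L l213 (F (T t5914 (L l73 (L l439 (L l511 (T t3339 (K a159 (M a191 (F (T t5920 (L l73 (L l439 (L l511 (T t3339 N))))))) (K a191 (Fr a159 a31 l361 (V t5920)) N))))))))))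 (K a191 (Fr a159 a31 l361 (V t3439)) N))))))))))))) (K a191 (M a159 (L l289 (F (T t5921 (L l73 (L l439 (L l511 (T t3339 (K a223 (M a239 (F (T t2163 (L l180 (L l220 (L l236 (L l368 (T t5919 (L l63 (L l362 (L l434 (L l506 (T t3701 N))))))))))))) (K a239 (Fr a223 a31 l361 (V t3439)) N)))))))))) N))))))))))))))) (K a223 (M a239 (L l325 (F (T t5912 (L l7 (L l331 (L l475 (T t238 (L l73 (T t5899 (K a79 (M a143 (F (T t5912 (L l7 (L l331 (L l475 (T t238 (L l73 (T t5899 N))))))))) (K a143 (M a79 (L l213 (F (T t1268 (L l180 (L l236 (L l368 (T t5917 (K a159 (M a191 (F (T t5915 (L l160 (L l236 (L l296 (L l339 (L l368 (T t5918 N))))))))) (K a191 (M a159 (F (T t2163 (L l180 (L l220 (L l236 (L l368 (T t5919 (L l63 (L l362 (L l434 (L l506 (T t3701 N))))))))))))) N)))))))))) N)))))))))))) (K a239 (M a223 (L l325 (L l397 (F (T t1268 (L l295 (L l404 (T t5900 (K a79 (M a143 (L l397 (F (T t2163 (L l295 (L l404 (T t5900 (K a47 (M a111 (F (T t5909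 (L l28 (L l404 (T t5913 N)))))) (K a111 (M a47 (F (T t5914 (L l73 (L l439 (L l511 (T t239 N))))))) N))))))))) (K a143 (M a79 (L l213 (L l397 (F (T t1268 (L l227 (L l295 (L l404 (T t5900 (K a159 (M a191 (L l397 (F (T t2163 (L l170 (L l227 (L l295 (L l404 (T t5900 (K a47 (Fr a111 a127 l137 (V t3439)) (K a111 (M a47 (F (T t5920 (L l73 (L l439 (L l511 (T t3339 N))))))) N))))))))))) (K a47 (Fr a111 a127 l137 (V t183)) (K a111 (M a47 (L l213 (F (T t5914 (L l73 (L l439 (L l511 (T t3339 (K a159 (M a191 (F (T t5920 (L l73 (L l439 (L l511 (T t3339 N))))))) (K a191 (Fr a159 a31 l361 (V t5920)) N)))))))))) (K a191 (Fr a159 a31 l361 (V t3439)) N))))))))))))) (K a47 (M a111 (L l325 (F (T t5909 (L l28 (L l213 (L l404 (T t5913 (K a79 (M a143 (F (T t5909 (L l28 (L l404 (T t5913 N)))))) (K a143 (Fr a79 a127 l137 (V t183)) N)))))))))) (K a111 (M a47 (L l325 (F (T t5920 (L l73 (L l439 (L l511 (T t3341 (K a79 (M a143 (F (T t5914 (L l73 (L l439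 (L l511 (T t239 N))))))) (K a143 (M a79 (L l213 (F (T t5914 (L l73 (L l439 (L l511 (T t3339 (K a159 (M a191 (F (T t5920 (L l73 (L l439 (L l511 (T t3339 N))))))) (K a191 (Fr a159 a31 l361 (V t5920)) N)))))))))) N)))))))))) N)))))))))))) N))))))))))))))) (K a239 (M a223 (L l325 (L l469 (F (T t2163 (L l295 (L l404 (T t5900 (K a79 (M a143 (L l469 (F (T t2163 (L l295 (L l404 (T t5900 (K a95 (M a175 (L l137 (F (T t1268 (L l295 (L l404 (T t5900 (K a111 (M a127 (F (T t1268 (L l295 (L l404 (T t5900 N)))))) (K a127 (M a111 (F (T t1268 (L l295 (L l404 (T t5900 N)))))) N))))))))) (K a175 (M a95 (L l397 (F (T t2163 (L l295 (L l404 (T t5900 (K a47 (M a111 (F (T t5909 (L l28 (L l404 (T t5913 N)))))) (K a111 (M a47 (F (T t5914 (L l73 (L l439 (L l511 (T t239 N))))))) N))))))))) N))))))))) (K a143 (M a79 (L l469 (F (T t1268 (L l227 (L l295 (L l404 (T t5900 (K a95 (M a175 (F (T t1268 (L l227 (L l295 (L l404 (T t5900 N))))))) (K a175 (M a95 (L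 l213 (L l397 (F (T t1268 (L l227 (L l295 (L l404 (T t5900 (K a159 (M a191 (L l397 (F (T t2163 (L l170 (L l227 (L l295 (L l404 (T t5900 (K a47 (Fr a111 a127 l137 (V t3439)) (K a111 (M a47 (F (T t5920 (L l73 (L l439 (L l511 (T t3339 N))))))) N))))))))))) (K a47 (Fr a111 a127 l137 (V t183)) (K a111 (M a47 (L l213 (F (T t5914 (L l73 (L l439 (L l511 (T t3339 (K a159 (M a191 (F (T t5920 (L l73 (L l439 (L l511 (T t3339 N))))))) (K a191 (Fr a159 a31 l361 (V t5920)) N)))))))))) (K a191 (Fr a159 a31 l361 (V t3439)) N))))))))))))) N)))))))))) (K a95 (M a175 (L l325 (F (T t2163 (L l295 (L l404 (T t5900 (K a79 (M a143 (L l137 (F (T t1268 (L l295 (L l404 (T t5900 (K a111 (M a127 (F (T t1268 (L l295 (L l404 (T t5900 N)))))) (K a127 (M a111 (F (T t1268 (L l295 (L l404 (T t5900 N)))))) N))))))))) (K a143 (M a79 (F (T t1268 (L l227 (L l295 (L l404 (T t5900 N))))))) N))))))))) (K a175 (M a95 (L l325 (L l397 (F (T t1268 (L l295 (L l404 (T t5900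 (K a79 (M a143 (L l397 (F (T t2163 (L l295 (L l404 (T t5900 (K a47 (M a111 (F (T t5909 (L l28 (L l404 (T t5913 N)))))) (K a111 (M a47 (F (T t5914 (L l73 (L l439 (L l511 (T t239 N))))))) N))))))))) (K a143 (M a79 (L l213 (L l397 (F (T t1268 (L l227 (L l295 (L l404 (T t5900 (K a159 (M a191 (L l397 (F (T t2163 (L l170 (L l227 (L l295 (L l404 (T t5900 (K a47 (Fr a111 a127 l137 (V t3439)) (K a111 (M a47 (F (T t5920 (L l73 (L l439 (L l511 (T t3339 N))))))) N))))))))))) (K a47 (Fr a111 a127 l137 (V t183)) (K a111 (M a47 (L l213 (F (T t5914 (L l73 (L l439 (L l511 (T t3339 (K a159 (M a191 (F (T t5920 (L l73 (L l439 (L l511 (T t3339 N))))))) (K a191 (Fr a159 a31 l361 (V t5920)) N)))))))))) (K a191 (Fr a159 a31 l361 (V t3439)) N))))))))))))) (K a47 (M a111 (L l325 (F (T t5909 (L l28 (L l213 (L l404 (T t5913 (K a79 (M a143 (F (T t5909 (L l28 (L l404 (T t5913 N)))))) (K a143 (Fr a79 a127 l137 (V t183)) N)))))))))) (K a111 (M a47 (L l325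 (F (T t5920 (L l73 (L l439 (L l511 (T t3341 (K a79 (M a143 (F (T t5914 (L l73 (L l439 (L l511 (T t239 N))))))) (K a143 (M a79 (L l213 (F (T t5914 (L l73 (L l439 (L l511 (T t3339 (K a159 (M a191 (F (T t5920 (L l73 (L l439 (L l511 (T t3339 N))))))) (K a191 (Fr a159 a31 l361 (V t5920)) N)))))))))) N)))))))))) N)))))))))))) N)))))))))))) N)))))))))))))))))) (K a223 (M a239 (F (T t132 (L l236 (L l368 (T t5901 (L l296 (L l368 (T t5923 (K a16 (M a60 (L l368 (F (T t522 (L l439 (L l511 (T t451 (T t65 (K a85 (M a154 (F (T t522 (L l235 (L l236 (T t5887 N)))))) (K a154 (M a85 (F (T t246 (L l245 (L l246 (L l295 (L l296 (T t115 N)))))))) N)))))))))) (K a32 (M a60 (F (T t2568 (L l439 (L l511 (T t451 (L l24 (L l28 (T t65 N))))))))) (K a53 (M a36 (F (L l47 (T t5895 (L l301 (L l368 (T t5896 N))))))) (K a42 (M a40 (F (L l439 (L l511 (T t271 (L l295 (L l368 (T t5924 N)))))))) N))))))))))))) (K a239 (M a223 (F (T t48 (L l236 (L l404 (T t5897 (L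 l296 (L l404 (T t5925 (K a16 (M a60 (F (T t522 (L l439 (L l511 (T t451 (T t65 N))))))) (K a32 (M a60 (L l404 (F (T t2568 (L l439 (L l511 (T t451 (L l24 (L l28 (T t65 (K a101 (M a170 (F (T t277 (L l255 (L l256 (L l295 (L l296 (T t458 N)))))))) (K a170 (M a101 (F (T t116 (L l235 (L l236 (T t5888 N)))))) N)))))))))))) (K a21 (M a20 (F (L l295 (L l404 (T t5900 (L l47 (L l65 (L l439 (L l511 (T t239 N)))))))))) (K a58 (M a20 (F (L l36 (L l54 (T t1268 (L l295 (L l404 (L l498 (T t5900 N))))))))) N))))))))))))) N)))))))))))))))))))))))))))⟩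
def b0_63__207 : Blk 4 := ⟨[0, 63], [207], [1, 3, 5, 6, 7, 15, 16, 17, 18, 19, 22, 23, 26, 27, 31, 48, 49, 51, 53, 54, 55, 64, 65, 66, 67, 69, 70, 71, 74, 75, 79, 80, 81, 82, 83, 85, 86, 87, 90, 91, 95, 96, 97, 98, 99, 101, 102, 103, 106, 107, 111, 112, 113, 114, 115, 117, 118, 119, 122, 123, 127, 192, 193, 195, 197, 198, 199, 208, 209, 210, 211, 213, 214, 215, 218, 219, 223, 240, 241, 243, 245, 246, 247, 255], [e0_63__207_0, e0_63__207_1, e0_63__207_2, e0_63__207_3, e0_63__207_4, e0_63__207_5, e0_63__207_6, e0_63__207_7, e0_63__207_8, e0_63__207_9, e0_63__207_10, e0_63__207_11, e0_63__207_12, e0_63__207_13, e0_63__207_14, e0_63__207_15, e0_63__207_16, e0_63__207_17, e0_63__207_18, e0_63__207_19, e0_63__207_20, e0_63__207_21, e0_63__207_22, e0_63__207_23, e0_63__207_24, e0_63__207_25, e0_63__207_26, e0_63__207_27, e0_63__207_28, e0_63__207_29, e0_63__207_30, e0_63__207_31, e0_63__207_32, e0_63__207_33, e0_63__207_34, e0_63__207_35,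 e0_63__207_36, e0_63__207_37, e0_63__207_38, e0_63__207_39, e0_63__207_40, e0_63__207_41, e0_63__207_42, e0_63__207_43, e0_63__207_44, e0_63__207_45, e0_63__207_46, e0_63__207_47, e0_63__207_48, e0_63__207_49, e0_63__207_50, e0_63__207_51, e0_63__207_52, e0_63__207_53, e0_63__207_54, e0_63__207_55, e0_63__207_56, e0_63__207_57, e0_63__207_58, e0_63__207_59, e0_63__207_60, e0_63__207_61, e0_63__207_62, e0_63__207_63, e0_63__207_64, e0_63__207_65, e0_63__207_66, e0_63__207_67, e0_63__207_68, e0_63__207_69, e0_63__207_70, e0_63__207_71, e0_63__207_72, e0_63__207_73, e0_63__207_74, e0_63__207_75, e0_63__207_76, e0_63__207_77, e0_63__207_78, e0_63__207_79, e0_63__207_80, e0_63__207_81, e0_63__207_82, e0_63__207_83], by decide +kernel, by decide +kernel⟩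

end Pool.Agent.Lib_TTT.K4
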