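import Pool.Agent.Lib_TTT.K4Base
import Pool.Agent.Lib_TTT.K4T00
import Pool.Agent.Lib_TTT.K4T01
import Pool.Agent.Lib_TTT.K4T02
import Pool.Agent.Lib_TTT.K4T03
import Pool.Agent.Lib_TTT.K4T04
import Pool.Agent.Lib_TTT.K4T05
import Pool.Agent.Lib_TTT.K4T06

/-! Certificates in `4^4`. -/

set_option autoImplicit false
set_option maxRecDepth 200000

namespace Pool.Agent.Lib_TTT.K4

open Lib_TTT AC DC

def e0_63__214_0 : Ent 4 := ⟨[a0, a63], [a214, a1], (M a85 (F (T t90 (L l239 (T t88 (L l65 (L l294 (T t52 (L l239 (T t89 (K a64 (M a252 (F (T t93 (L l239 (T t497 N))))) (K a192 (M a16 (F (T t260 (L l339 (T t97 (L l239 (L l296 (T t98 N)))))))) (K a21 (M a48 (L l65 (F (T t99 (T t50 (L l47 (T t100 (K a41 (M a61 (F (T t261 (L l41 (T t262 N))))) (K a61 (M a41 (F (T t261 (L l35 (L l47 (T t100 (T t50 N))))))) N))))))))) (K a149 (M a16 (F (T t101 (L l375 (T t97 (L l170 (T t102 N))))))) (K a213 (Fr a170 a255 l476 (Fr a42 a21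 l68 (Fr a106 a234 l390 (Fr a192 a149 l519 (V t581))))) (K a42 (M a48 (F (T t364 (L l390 (T t50 (L l28 (T t100 N))))))) (K a106 (M a48 (F (T t99 (L l65 (T t1 (L l390 (T t50 N))))))) (K a170 (M a16 (F (L l404 (T t113 (L l239 (L l390 (T t98 (L l390 (L l404 (T t97 (L l404 (T t174 N)))))))))))) (K a255 (M a16 (F (T t504 (L l289 (T t113 (L l239 (L l289 (L l296 (T t98 N))))))))) N)))))))))))))))))))⟩
def e0_63__214_1 : Ent 4 := ⟨[a0, a63], [a214, a2], (M a48 (F (T t3 (L l6 (T t1 (L l66 (T t2 (L l66 (T t0 (K a16 (M a60 (F (T t42 (L l66 (T t43 (L l6 (L l14 (L l18 (T t44 N))))))))) (K a32 (M a60 (F (T t42 (L l24 (L l28 (L l66 (T t43 (L l6 (T t44 N))))))))) (K a21 (M a192 (F (T t837 (L l47 (L l347 (T t20 (L l47 (L l347 (T t29 N))))))))) (K a37 (M a192 (F (T t19 (L l47 (T t20 (T t21 N)))))) (K a53 (M a192 (F (T t19 (L l491 (T t21 (L l66 (L l239 (T t31 N)))))))) (K a26 (M a192 (F (T t837 (T t20 (T t21 N))))) (K a42 (M a106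 (L l66 (F (T t309 (T t551 (L l28 (T t579 (K a22 (M a62 (L l348 (F (T t307 (L l22 (L l239 (L l294 (L l306 (T t5926 (K a86 (Fr a150 a194 l516 (V t3517)) (K a150 (M a86 (F (T t309 (L l294 (L l297 (L l306 (T t5927 N))))))) N))))))))))) (K a62 (M a22 (F (T t309 (T t551 (L l28 (T t579 N)))))) N))))))))) (K a58 (M a192 (F (T t19 (T t21 (L l54 (L l66 (L l239 (L l498 (T t31 N))))))))) (K a15 (M a192 (F (T t47 (L l483 (T t27 (L l325 (T t20 N))))))) N))))))))))))))))))⟩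
def e0_63__214_2 : Ent 4 := ⟨[a0, a63], [a214, a3], (M a48 (F (T t48 (L l7 (T t1 (L l7 (T t2 (L l7 (T t3 (L l7 (T t0 (K a16 (M a85 (F (T t4539 (L l453 (T t50 (L l239 (T t51 N))))))) (K a32 (M a85 (F (L l294 (L l475 (T t52 (L l404 (L l453 (T t50 (L l28 (L l239 (T t51 N))))))))))) (K a21 (M a192 (F (T t54 (L l453 (T t27 (L l47 (L l347 (T t29 N)))))))) (K a37 (M a192 (F (T t54 (L l453 (T t27 (L l475 (T t21 N))))))) (K a53 (M a192 (F (T t55 (L l475 (L l491 (T t21 (L l239 (T t31 N)))))))) (K a26 (M a192 (F (T t56 (L l453 (T t27 (L l475 (T t21 N))))))) (K a42 (M a192 (F (T t56 (L l453 (T t27 (L l28 (T t29 N))))))) (K a58 (M a192 (F (T t47 (L l453 (T t27 (L l54 (L l239 (L l498 (T t31 N))))))))) (K a15 (M a192 (L l7 (F (T t47 (L l453 (L l483 (T t27 (L l325 (L l331 (T t20 (K a7 (M a11 (F (T t1800 (L l325 (L l331 (T t22 (L l453 (L l483 (T t28 N))))))))) (K a11 (M a7 (F (T t1800 (L l325 (L l331 (T t22 (L l453 (L l483 (T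 t28 N))))))))) N)))))))))))) N))))))))))))))))))))⟩
def e0_63__214_3 : Ent 4 := ⟨[a0, a63], [a214, a4], (M a85 (F (T t90 (L l239 (T t88 (L l50 (L l294 (T t52 (L l239 (T t89 (K a64 (M a16 (F (T t97 (L l84 (L l314 (T t96 (L l116 (L l239 (T t98 N))))))))) (K a192 (M a16 (F (T t260 (L l339 (T t97 (L l239 (L l296 (T t98 N)))))))) (K a21 (M a48 (L l50 (F (T t99 (T t50 (L l47 (T t100 (K a38 (M a55 (F (T t360 (L l46 (T t1743 N))))) (K a55 (M a38 (F (T t99 (T t50 (L l31 (L l47 (T t100 N))))))) N))))))))) (K a149 (M a16 (F (T t101 (L l375 (T t97 (L l170 (T t102 N))))))) (K a213 (Fr a170 a255 l476 (Fr a42 a21 l68 (Fr a106 a234 l390 (Fr a192 a149 l519 (V t581))))) (K a42 (M a48 (F (T t364 (L l390 (T t50 (L l28 (T t100 N))))))) (K a106 (M a48 (F (T t99 (L l50 (T t1 (L l390 (T t50 N))))))) (K a170 (M a16 (F (L l404 (T t113 (L l239 (L l390 (T t98 (L l390 (L l404 (T t97 (L l404 (T t174 N)))))))))))) (K a255 (M a16 (F (T t504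 (L l289 (T t113 (L l239 (L l289 (L l296 (T t98 N))))))))) N)))))))))))))))))))⟩
def e0_63__214_4 : Ent 4 := ⟨[a0, a63], [a214, a5], (M a85 (F (T t90 (L l239 (T t88 (L l47 (L l294 (T t52 (L l239 (T t89 (K a64 (M a240 (F (T t933 (L l239 (T t387 N))))) (K a192 (M a48 (F (T t935 (L l47 (L l339 (T t3 (L l268 (T t50 N)))))))) (K a21 (M a60 (L l47 (F (T t5413 (L l65 (L l239 (L l294 (T t523 (L l297 (T t114 (K a37 (M a53 (F (T t5413 (L l50 (L l71 (T t937 N)))))) (K a53 (M a37 (F (T t5413 (L l35 (L l65 (L l239 (L l294 (T t523 (L l297 (T t114 N)))))))))) N)))))))))))) (K a149 (M a48 (F (T t99 (L l47 (T t3 (L l220 (T t50 N))))))) (K a213 (Fr a170 a255 l476 (Fr a42 a21 l68 (Fr a106 a234 l390 (Fr a192 a149 l519 (V t581))))) (K a42 (M a48 (F (T t364 (L l390 (T t50 (L l28 (L l47 (T t100 N)))))))) (K a106 (M a48 (F (T t99 (L l47 (L l411 (T t3 (L l390 (T t50 N)))))))) (K a170 (M a4 (F (L l464 (T t130 (L l239 (L l390 (T t131 (L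 l390 (L l464 (T t519 (L l464 (T t938 N)))))))))))) (K a255 (M a4 (F (T t129 (L l265 (T t130 (L l239 (L l265 (L l296 (T t131 N))))))))) N)))))))))))))))))))⟩
def e0_63__214_5 : Ent 4 := ⟨[a0, a63], [a214, a6], (M a85 (F (T t90 (L l239 (T t88 (L l294 (T t52 (L l239 (T t89 (K a64 (M a240 (F (T t386 (L l239 (T t387 N))))) (K a192 (M a16 (F (T t96 (L l339 (T t97 (L l239 (L l296 (T t98 N)))))))) (K a21 (M a48 (F (T t99 (T t50 (L l47 (T t100 N)))))) (K a149 (M a16 (F (T t173 (L l375 (T t97 (L l170 (T t102 N))))))) (K a213 (Fr a170 a255 l476 (Fr a42 a21 l68 (Fr a106 a234 l390 (Fr a192 a149 l519 (V t581))))) (K a42 (M a48 (F (T t364 (L l390 (T t50 (L l28 (T t100 N))))))) (K a106 (M a48 (F (T t99 (L l6 (T t1 (L l390 (T t50 N))))))) (K a170 (M a16 (F (L l404 (T t113 (L l239 (L l390 (T t98 (L l390 (L l404 (T t97 (L l404 (T t174 N)))))))))))) (K a255 (M a16 (F (T t504 (L l289 (T t113 (L l239 (L l289 (L l296 (T t98 N)))))))))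 N))))))))))))))))))⟩
def e0_63__214_6 : Ent 4 := ⟨[a0, a63], [a214, a7], (M a85 (F (T t90 (L l239 (T t88 (L l294 (T t52 (L l239 (T t89 (K a64 (M a252 (F (T t91 (L l49 (L l239 (L l457 (T t497 N))))))) (K a192 (M a16 (F (T t96 (L l7 (L l339 (T t97 (L l239 (L l296 (T t98 N))))))))) (K a21 (M a48 (F (T t99 (T t50 (L l47 (T t100 N)))))) (K a149 (M a16 (F (T t173 (L l7 (L l375 (T t97 (L l170 (T t102 N)))))))) (K a213 (Fr a170 a255 l476 (Fr a42 a21 l68 (Fr a106 a234 l390 (Fr a192 a149 l519 (V t581))))) (K a42 (M a48 (F (T t364 (L l390 (T t50 (L l28 (T t100 N))))))) (K a106 (M a48 (F (T t99 (L l7 (T t1 (L l390 (T t50 N))))))) (K a170 (M a16 (F (L l404 (T t113 (L l239 (L l390 (T t98 (L l7 (L l390 (L l404 (T t97 (L l404 (T t174 N))))))))))))) (K a255 (M a16 (F (T t504 (L l289 (T t113 (L l239 (L l289 (L l296 (T t98 N))))))))) N))))))))))))))))))⟩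
def e0_63__214_7 : Ent 4 := ⟨[a0, a63], [a214, a8], (M a85 (F (L l294 (T t52 (L l56 (L l239 (T t88 (L l56 (L l239 (T t89 (L l464 (T t90 (K a64 (M a252 (F (L l464 (T t91 (L l56 (L l239 (L l460 (T t497 N)))))))) (K a192 (M a16 (F (T t96 (L l56 (L l339 (T t97 (L l56 (L l239 (L l296 (T t98 N)))))))))) (K a21 (M a48 (F (T t99 (L l464 (T t50 (L l47 (T t100 N))))))) (K a149 (M a16 (F (T t173 (L l56 (L l375 (T t97 (L l56 (L l170 (T t102 N))))))))) (K a213 (Fr a170 a255 l476 (Fr a42 a21 l68 (Fr a106 a234 l390 (Fr a192 a149 l519 (V t581))))) (K a42 (M a59 (F (T t104 (L l390 (L l464 (T t105 (L l26 (L l316 (T t106 (L l316 (L l390 (L l464 (T t107 N))))))))))))) (K a106 (M a48 (F (T t99 (L l2 (T t1 (L l390 (L l464 (T t50 N)))))))) (K a170 (M a89 (F (L l178 (T t108 (L l56 (L l239 (L l390 (T t109 (L l178 (L l316 (T t110 (L l56 (L l178 (L l239 (L l390 (T t111 N)))))))))))))))) (K a255 (M a16 (F (L l56 (T t112 (L l289 (T t113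 (L l56 (L l239 (L l289 (L l296 (T t98 N))))))))))) N)))))))))))))))))))))⟩
def e0_63__214_8 : Ent 4 := ⟨[a0, a63], [a214, a9], (M a85 (F (T t90 (L l239 (T t88 (L l294 (T t52 (L l239 (T t89 (K a64 (M a240 (F (T t386 (L l239 (T t387 N))))) (K a192 (M a16 (F (T t96 (L l339 (T t97 (L l239 (L l296 (T t98 N)))))))) (K a21 (M a48 (F (T t99 (T t50 (L l47 (T t100 N)))))) (K a149 (M a16 (F (T t173 (L l375 (T t97 (L l170 (T t102 N))))))) (K a213 (Fr a170 a255 l476 (Fr a42 a21 l68 (Fr a106 a234 l390 (Fr a192 a149 l519 (V t581))))) (K a42 (M a48 (F (T t364 (L l390 (T t50 (L l28 (T t100 N))))))) (K a106 (M a48 (F (T t99 (L l2 (T t1 (L l390 (T t50 N))))))) (K a170 (M a16 (F (L l404 (T t113 (L l239 (L l390 (T t98 (L l390 (L l404 (T t97 (L l404 (T t174 N)))))))))))) (K a255 (M a16 (F (T t504 (L l289 (T t113 (L l239 (L l289 (L l296 (T t98 N))))))))) N))))))))))))))))))⟩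
def e0_63__214_9 : Ent 4 := ⟨[a0, a63], [a214, a10], (M a85 (F (L l294 (T t52 (L l54 (L l239 (T t88 (L l54 (L l239 (T t89 (L l462 (T t90 (K a64 (M a16 (F (L l54 (T t97 (L l84 (T t96 (L l54 (L l116 (L l239 (T t98 N)))))))))) (K a192 (M a16 (F (T t96 (L l54 (L l339 (T t97 (L l54 (L l239 (L l296 (T t98 N)))))))))) (K a21 (M a48 (F (T t99 (L l462 (T t50 (L l47 (L l318 (T t100 N)))))))) (K a149 (M a48 (F (T t99 (L l54 (L l375 (T t0 (L l220 (L l462 (T t50 N))))))))) (K a213 (Fr a170 a255 l476 (Fr a42 a21 l68 (Fr a106 a234 l390 (Fr a192 a149 l519 (V t581))))) (K a42 (M a58 (F (T t118 (L l390 (L l462 (T t119 (L l28 (L l318 (T t120 (L l318 (L l390 (L l462 (T t121 N))))))))))))) (K a106 (M a12 (F (T t1373 (T t122 (L l390 (L l462 (T t124 N))))))) (K a170 (M a90 (F (L l180 (T t125 (L l54 (L l239 (L l390 (T t126 (L l180 (L l318 (T t127 (L l54 (L l180 (L l239 (L l390 (T t128 N)))))))))))))))) (K a255 (M a4 (F (L l2 (L l54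 (T t129 (L l2 (L l265 (T t130 (L l54 (L l239 (L l265 (L l296 (T t131 N))))))))))))) N)))))))))))))))))))))⟩
def e0_63__214_10 : Ent 4 := ⟨[a0, a63], [a214, a11], (M a85 (F (T t90 (L l239 (T t88 (L l294 (T t52 (L l239 (T t89 (K a64 (M a252 (F (T t91 (L l239 (T t497 N))))) (K a192 (M a16 (F (T t96 (L l7 (L l339 (T t97 (L l239 (L l296 (T t98 N))))))))) (K a21 (M a48 (F (T t99 (T t50 (L l47 (T t100 N)))))) (K a149 (M a16 (F (T t173 (L l7 (L l375 (T t97 (L l57 (L l170 (T t102 N))))))))) (K a213 (Fr a170 a255 l476 (Fr a42 a21 l68 (Fr a106 a234 l390 (Fr a192 a149 l519 (V t581))))) (K a42 (M a48 (F (T t364 (L l390 (T t50 (L l28 (T t100 N))))))) (K a106 (M a48 (F (T t99 (L l2 (L l7 (T t1 (L l390 (T t50 N)))))))) (K a170 (M a16 (F (L l404 (T t113 (L l239 (L l390 (T t98 (L l7 (L l390 (L l404 (T t97 (L l404 (T t174 N))))))))))))) (K a255 (M a16 (F (T t112 (L l289 (T t113 (L l239 (L l289 (L l296 (T t98 N))))))))) N))))))))))))))))))⟩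
def e0_63__214_11 : Ent 4 := ⟨[a0, a63], [a214, a12], (M a60 (F (T t116 (L l9 (T t67 (L l9 (T t43 (L l9 (T t68 (L l9 (T t69 (K a20 (M a48 (F (T t138 (L l3 (L l11 (T t1 (L l11 (T t235 N)))))))) (K a40 (M a48 (F (T t48 (L l74 (T t64 (L l52 (T t235 N))))))) (K a21 (M a192 (F (T t2658 (L l65 (L l294 (L l347 (T t237 (L l239 (L l347 (T t74 N)))))))))) (K a41 (M a192 (F (T t1343 (L l470 (T t21 (L l297 (L l466 (T t79 N)))))))) (K a61 (M a192 (F (T t1334 (L l65 (L l294 (L l470 (L l515 (T t35 (L l239 (T t80 N)))))))))) (K a22 (M a150 (F (T t5928 (L l294 (L l334 (T t1136 (L l239 (L l294 (T t1137 N))))))))) (K a42 (M a192 (F (T t614 (T t1334 (L l22 (L l239 (T t74 N))))))) (K a62 (M a192 (F (T t1334 (L l294 (L l470 (T t35 (L l66 (L l239 (L l516 (T t80 N)))))))))) (K a3 (M a84 (L l9 (F (T t2648 (L l239 (T t5929 (L l239 (L l309 (L l334 (T t5071 (K a9 (M a6 (F (T t1414 (L l70 (T t2649 N))))) (K a6 (M a9 (F (T t1414 (L l70 (T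 t2650 N))))) N)))))))))))) N))))))))))))))))))))⟩
def e0_63__214_12 : Ent 4 := ⟨[a0, a63], [a214, a13], (M a85 (F (T t90 (L l239 (T t88 (L l294 (T t52 (L l239 (T t89 (K a64 (M a252 (F (T t91 (L l239 (T t497 N))))) (K a192 (M a16 (F (T t96 (L l3 (L l339 (T t97 (L l239 (L l296 (T t98 N))))))))) (K a21 (M a48 (F (T t99 (T t50 (L l47 (T t100 N)))))) (K a149 (M a16 (F (T t173 (L l3 (L l375 (T t97 (L l170 (T t102 N)))))))) (K a213 (Fr a170 a255 l476 (Fr a42 a21 l68 (Fr a106 a234 l390 (Fr a192 a149 l519 (V t581))))) (K a42 (M a48 (F (T t364 (L l390 (T t50 (L l28 (T t100 N))))))) (K a106 (M a48 (F (T t99 (L l3 (T t1 (L l390 (T t50 N))))))) (K a170 (M a16 (F (L l404 (T t113 (L l239 (L l390 (T t98 (L l3 (L l390 (L l404 (T t97 (L l404 (T t174 N))))))))))))) (K a255 (M a16 (F (T t504 (L l289 (T t113 (L l239 (L l289 (L l296 (T t98 N))))))))) N))))))))))))))))))⟩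
def e0_63__214_13 : Ent 4 := ⟨[a0, a63], [a214, a14], (M a85 (F (T t90 (L l239 (T t88 (L l294 (T t52 (L l239 (T t89 (K a64 (M a252 (F (T t91 (L l239 (T t497 N))))) (K a192 (M a16 (F (T t96 (L l3 (L l339 (T t97 (L l239 (L l296 (T t98 N))))))))) (K a21 (M a48 (F (T t99 (T t50 (L l47 (T t100 N)))))) (K a149 (M a16 (F (T t173 (L l3 (L l375 (T t97 (L l72 (L l170 (T t102 N))))))))) (K a213 (Fr a170 a255 l476 (Fr a42 a21 l68 (Fr a106 a234 l390 (Fr a192 a149 l519 (V t581))))) (K a42 (M a48 (F (T t364 (L l390 (T t50 (L l28 (T t100 N))))))) (K a106 (M a48 (F (T t99 (L l3 (L l6 (T t1 (L l390 (T t50 N)))))))) (K a170 (M a16 (F (L l404 (T t113 (L l239 (L l390 (T t98 (L l3 (L l390 (L l404 (T t97 (L l404 (T t174 N))))))))))))) (K a255 (M a16 (F (T t112 (L l289 (T t113 (L l239 (L l289 (L l296 (T t98 N))))))))) N))))))))))))))))))⟩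
def e0_63__214_14 : Ent 4 := ⟨[a0, a63], [a214, a15], (M a12 (F (T t150 (L l73 (T t122 (L l73 (T t151 (L l73 (T t152 (L l73 (T t153 (K a4 (M a85 (F (T t4539 (L l327 (T t124 (L l239 (T t154 N))))))) (K a8 (M a85 (F (L l294 (L l469 (T t52 (L l327 (L l464 (T t124 (L l56 (L l239 (T t154 N))))))))))) (K a21 (M a192 (F (T t158 (L l327 (T t156 (L l15 (L l347 (T t157 N)))))))) (K a25 (M a192 (F (T t158 (L l327 (T t156 (L l469 (T t21 N))))))) (K a29 (M a192 (F (T t159 (L l371 (L l469 (T t21 (L l239 (T t160 N)))))))) (K a38 (M a192 (F (T t161 (L l327 (T t156 (L l469 (T t21 N))))))) (K a42 (M a192 (F (T t161 (L l327 (T t156 (L l56 (T t157 N))))))) (K a46 (M a192 (F (T t47 (L l327 (T t156 (L l26 (L l239 (L l408 (T t160 N))))))))) (K a51 (M a68 (L l73 (F (T t2173 (L l239 (T t163 (L l239 (L l439 (L l469 (L l513 (T t164 (K a39 (M a27 (F (T t2174 (L l63 (T t166 N))))) (K a27 (M a39 (F (T t2174 (L l63 (T t167 N))))) N)))))))))))))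 N))))))))))))))))))))⟩
def e0_63__214_15 : Ent 4 := ⟨[a0, a63], [a214, a20], (M a85 (F (T t90 (L l239 (T t88 (L l11 (L l294 (T t52 (L l239 (T t89 (K a64 (M a252 (F (T t91 (L l11 (L l239 (T t497 N)))))) (K a192 (M a16 (F (T t96 (L l339 (T t97 (L l239 (L l296 (T t98 N)))))))) (K a21 (M a51 (L l11 (F (T t943 (T t944 (L l50 (T t945 (K a22 (M a23 (L l348 (F (T t943 (L l19 (L l50 (L l69 (T t946 (K a86 (M a150 (F (T t2213 (L l51 (L l69 (L l459 (L l477 (T t5930 N)))))))) (K a150 (M a86 (F (T t2213 (L l239 (L l346 (L l516 (T t5931 N))))))) N)))))))))) (K a23 (M a22 (F (T t2678 (L l49 (L l50 (T t945 (T t944 N))))))) N))))))))) (K a149 (M a16 (F (T t173 (L l375 (T t97 (L l170 (T t102 N))))))) (K a213 (Fr a170 a255 l476 (Fr a42 a21 l68 (Fr a106 a234 l390 (Fr a192 a149 l519 (V t581))))) (K a42 (M a48 (F (L l28 (T t99 (L l390 (T t50 (L l28 (T t100 N)))))))) (K a106 (M a48 (F (T t99 (L l11 (T t1 (L l390 (T t50 N))))))) (K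 a170 (M a16 (F (L l404 (T t113 (L l239 (L l390 (T t98 (L l390 (L l404 (T t97 (L l404 (T t174 N)))))))))))) (K a255 (M a16 (F (T t112 (L l289 (T t113 (L l239 (L l289 (L l296 (T t98 N))))))))) N)))))))))))))))))))⟩
def e0_63__214_16 : Ent 4 := ⟨[a0, a63], [a214, a22], (M a85 (L l348 (F (T t90 (L l66 (L l239 (T t88 (L l11 (L l294 (T t52 (L l66 (L l239 (T t89 (K a64 (M a86 (F (T t2267 (L l66 (L l76 (T t2274 (L l239 (L l294 (T t370 (L l140 (L l239 (T t5932 N)))))))))))) (K a192 (M a86 (F (L l69 (L l309 (T t5933 (L l239 (L l292 (L l294 (L l296 (T t370 (L l66 (L l239 (L l296 (T t699 (L l239 (L l292 (T t5934 (L l66 (L l239 (L l296 (T t5935 (T t5936 N)))))))))))))))))))))) (K a21 (M a51 (L l11 (L l348 (F (T t943 (T t944 (L l50 (T t945 (K a20 (M a23 (L l348 (F (T t943 (L l19 (L l50 (L l69 (T t946 (K a86 (M a150 (F (T t2213 (L l51 (L l69 (L l459 (L l477 (T t5930 N)))))))) (K a150 (M a86 (F (T t2213 (L l239 (L l346 (L l516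 (T t5931 N))))))) N)))))))))) (K a86 (M a150 (L l11 (F (T t2213 (L l65 (L l239 (L l294 (T t1960 (K a20 (M a23 (F (T t2213 (L l51 (L l69 (L l459 (L l477 (T t5930 N)))))))) (K a23 (Fr a20 a215 l350 (V t3420)) N)))))))))) (K a150 (M a86 (L l11 (F (T t2213 (T t2265 (K a20 (M a23 (F (T t2213 (L l239 (L l346 (L l516 (T t5931 N))))))) (K a23 (M a20 (F (T t2213 (L l51 (L l494 (T t5937 N)))))) N))))))) (K a23 (M a20 (L l348 (F (T t5099 (L l65 (L l239 (L l294 (L l349 (T t2160 (K a86 (Fr a150 a215 l350 (V t3420)) (K a150 (M a86 (F (T t2213 (L l51 (L l494 (T t5937 N)))))) N))))))))))) N)))))))))))) (K a149 (M a51 (L l348 (F (T t5938 (L l66 (L l371 (T t1294 (L l220 (T t944 (K a86 (M a150 (L l351 (F (T t5939 (L l220 (L l474 (T t944 (K a212 (M a23 (L l239 (F (T t2213 (L l51 (L l69 (L l459 (L l477 (T t5930 (K a213 (Fr a215 a20 l350 (V t5940)) (K a215 (M a213 (F (T t2213 (L l51 (L l69 (L l459 (L l477 (T t5941 N)))))))) N)))))))))))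 (K a23 (M a212 (L l11 (F (T t5939 (L l220 (L l474 (T t944 (K a20 (Fr a21 a42 l68 (V t5942)) (K a21 (Fr a20 a215 l350 (V t3420)) N))))))))) N))))))))) (K a150 (M a86 (L l163 (F (T t5943 (L l218 (L l220 (T t944 (K a148 (M a151 (F (T t2213 (L l279 (L l297 (L l494 (L l518 (T t5944 N)))))))) (K a151 (M a148 (F (T t943 (L l221 (L l239 (L l349 (T t5945 N))))))) N))))))))) N))))))))))) (K a213 (Fr a170 a255 l476 (Fr a42 a21 l68 (Fr a106 a234 l390 (Fr a192 a149 l519 (V t581))))) (K a42 (M a62 (L l348 (F (L l390 (T t1694 (L l22 (L l239 (T t5946 (L l22 (L l239 (L l294 (T t1695 (L l11 (L l294 (L l390 (T t3621 (K a86 (M a150 (F (L l294 (L l390 (L l474 (T t5947 (L l145 (T t5555 (L l294 (L l351 (T t3212 N))))))))))) (K a150 (M a86 (F (L l221 (T t5948 (L l218 (L l390 (T t5949 (L l163 (T t5950 N))))))))) N)))))))))))))))))) (K a106 (M a86 (F (L l393 (T t2267 (L l66 (L l239 (L l390 (T t699 (L l66 (L l239 (L l294 (L l390 (T t5951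 (L l69 (T t1703 (L l239 (L l390 (L l393 (T t5932 (L l11 (L l66 (L l239 (L l390 (L l393 (T t5952 N))))))))))))))))))))))))) (K a170 (M a16 (L l348 (F (L l404 (T t113 (L l66 (L l239 (L l390 (T t98 (L l66 (L l390 (L l404 (T t97 (L l404 (T t174 (K a86 (M a150 (L l474 (F (L l239 (T t5953 (L l66 (L l390 (L l404 (T t97 (K a2 (M a254 (L l66 (F (L l239 (T t5954 (L l404 (T t113 (L l239 (L l306 (L l392 (T t1960 (K a42 (M a62 (L l390 (F (L l306 (T t5955 (L l239 (L l247 (T t5956 (K a106 (M a234 (L l142 (F (L l239 (T t5953 (L l28 (L l42 (L l404 (T t5957 (K a66 (Fr a126 a190 l432 (V t5956)) (K a126 (M a66 (F (L l239 (T t5953 (L l28 (L l42 (L l404 (T t5957 N)))))))) N))))))))))) (K a234 (Fr a106 a194 l516 (V t5958)) N)))))))))) (K a62 (Fr a42 a21 l68 (V t5959)) N))))))))))))) (K a254 (M a2 (L l294 (F (L l390 (L l404 (T t97 (L l206 (L l239 (L l366 (T t5960 (K a194 (M a234 (F (L l404 (T t97 (L l206 (L l239 (L l366 (T t5960 N))))))))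 (K a234 (M a194 (L l390 (F (L l239 (T t5953 (L l404 (L l438 (T t5961 (K a42 (Fr a106 a62 l516 (V t103)) (K a106 (Fr a42 a21 l68 (V t5962)) N)))))))))) N)))))))))))) N))))))))))) (K a150 (M a86 (L l218 (F (L l19 (T t5963 (L l66 (L l390 (L l404 (T t97 (K a130 (M a190 (F (L l19 (T t5963 (L l66 (L l390 (L l404 (T t97 N)))))))) (K a190 (M a130 (F (L l19 (T t5963 (L l66 (L l390 (L l404 (T t97 N)))))))) N))))))))))) N))))))))))))))))) (K a255 (M a16 (L l348 (F (L l66 (T t112 (L l289 (T t113 (L l66 (L l239 (L l289 (L l296 (T t98 (K a86 (M a150 (F (L l66 (T t112 (L l95 (L l289 (T t5959 N))))))) (K a150 (M a86 (F (L l66 (T t504 (L l19 (L l168 (L l475 (T t5964 N)))))))) N)))))))))))))) (K a86 (M a150 (F (L l474 (T t90 (L l145 (T t5555 (L l239 (L l294 (T t1960 N))))))))) (K a150 (M a86 (F (L l221 (T t2267 (L l218 (T t90 (L l66 (T t2274 N)))))))) N))))))))))))))))))))))))⟩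
def e0_63__214_17 : Ent 4 := ⟨[a0, a63], [a214, a23], (M a149 (F (T t177 (L l239 (T t5 (L l11 (L l294 (T t175 (L l239 (T t176 (K a192 (M a53 (F (T t178 (L l236 (T t179 (L l236 (L l239 (L l296 (T t180 N))))))))) (K a21 (M a60 (L l11 (F (T t1034 (L l297 (T t463 (T t5965 (L l348 (T t5966 (L l239 (L l297 (L l349 (T t5967 (K a20 (M a22 (F (L l65 (T t3444 (L l349 (L l350 (T t1020 (L l65 (T t5968 (K a61 (Fr a192 a106 l519 (Fr a3 a41 l69 (Fr a1 a2 l0 (V t6151)))) N)))))))))) (K a22 (Fr a20 a40 l64 (V t461)) N))))))))))))))) (K a85 (M a16 (F (L l17 (T t97 (L l144 (T t190 (L l94 (T t278 N)))))))) (K a213 (Fr a106 a192 l519 (Fr a42 a21 l68 (Fr a170 a234 l390 (Fr a255 a85 l476 (V t582))))) (K a42 (M a48 (F (T t187 (L l390 (T t13 (L l54 (T t14 N))))))) (K a106 (M a48 (F (L l11 (T t1 (L l498 (T t14 (L l239 (L l390 (L l498 (T t6 (L l239 (L l390 (T t26 N))))))))))))) (K a170 (M a48 (F (T t4 (L l11 (L l462 (T t1 (L l390 (T t13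 N)))))))) (K a191 (M a16 (F (T t112 (T t190 (L l213 (L l239 (T t191 N))))))) (K a255 (M a16 (F (T t112 (L l266 (T t190 (L l239 (L l289 (L l296 (T t191 N))))))))) N)))))))))))))))))))⟩
def e0_63__214_18 : Ent 4 := ⟨[a0, a63], [a214, a24], (M a85 (F (T t90 (L l239 (T t88 (L l294 (T t52 (L l239 (T t89 (K a64 (M a16 (F (T t97 (L l84 (T t96 (L l116 (L l239 (T t98 N)))))))) (K a192 (M a16 (F (T t96 (L l339 (T t97 (L l239 (L l296 (T t98 N)))))))) (K a21 (M a48 (F (T t99 (T t50 (L l47 (T t100 N)))))) (K a149 (M a16 (F (T t173 (L l375 (T t97 (L l12 (L l170 (L l356 (T t102 N))))))))) (K a213 (Fr a170 a255 l476 (Fr a42 a21 l68 (Fr a106 a234 l390 (Fr a192 a149 l519 (V t581))))) (K a42 (M a48 (F (L l28 (T t99 (L l390 (T t50 (L l28 (T t100 N)))))))) (K a106 (M a48 (F (T t1 (L l104 (T t509 (L l390 (T t50 N))))))) (K a170 (M a16 (F (L l404 (T t113 (L l239 (L l390 (T t98 (L l390 (L l404 (T t97 (L l404 (T t174 N)))))))))))) (K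 a255 (M a16 (F (T t112 (L l289 (T t113 (L l239 (L l289 (L l296 (T t98 N))))))))) N))))))))))))))))))⟩
def e0_63__214_19 : Ent 4 := ⟨[a0, a63], [a214, a25], (M a192 (F (T t21 (L l15 (L l294 (T t35 (T t202 (L l56 (L l239 (T t37 (K a64 (M a48 (F (T t20 (L l15 (T t1 (L l56 (L l116 (L l144 (L l239 (T t31 N)))))))))) (K a128 (M a48 (F (T t206 (L l15 (T t1 (L l56 (L l239 (T t31 N)))))))) (K a21 (M a17 (F (T t207 (L l56 (L l347 (T t208 (L l56 (T t209 N)))))))) (K a85 (M a16 (F (T t210 (L l56 (T t97 (L l12 (L l56 (L l94 (L l144 (T t211 N)))))))))) (K a149 (M a48 (F (T t837 (L l15 (L l347 (L l491 (T t1 (L l15 (L l170 (L l220 (L l347 (L l491 (T t213 (L l56 (L l375 (T t214 N)))))))))))))))) (K a42 (M a8 (F (T t215 (L l15 (L l390 (T t1807 (L l15 (T t217 N)))))))) (K a106 (M a48 (F (T t27 (L l15 (T t1 (L l15 (L l411 (T t213 (L l56 (L l104 (L l144 (L l390 (L l498 (T t214 N)))))))))))))) (K a170 (M a32 (F (T t218 (L l15 (T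 t219 (L l15 (L l71 (L l180 (L l220 (T t220 N)))))))))) (K a255 (M a16 (F (T t1805 (L l56 (L l469 (T t97 (L l12 (L l56 (T t211 N))))))))) N)))))))))))))))))))⟩
def e0_63__214_20 : Ent 4 := ⟨[a0, a63], [a214, a26], (M a192 (F (T t21 (L l18 (L l294 (T t35 (T t202 (L l54 (L l239 (T t37 (K a64 (M a12 (F (T t450 (L l18 (T t122 (L l54 (L l80 (L l144 (L l239 (T t160 N)))))))))) (K a128 (M a12 (F (T t221 (L l18 (T t122 (L l54 (L l239 (T t160 N)))))))) (K a21 (M a16 (F (T t210 (L l54 (L l347 (T t222 (L l347 (T t223 N)))))))) (K a85 (M a48 (F (T t28 (L l347 (T t20 (L l18 (L l54 (L l144 (L l368 (T t224 N)))))))))) (K a149 (M a12 (F (T t836 (L l18 (L l347 (L l371 (T t122 (L l18 (L l202 (L l220 (L l347 (L l371 (T t227 (L l54 (L l495 (T t228 N)))))))))))))))) (K a42 (M a10 (F (T t229 (L l18 (L l390 (T t230 (L l390 (T t231 N)))))))) (K a106 (M a12 (F (T t156 (L l18 (T t122 (L l18 (L l501 (T t227 (L l54 (L l132 (L l144 (L l390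 (L l408 (T t228 N)))))))))))))) (K a170 (M a48 (F (T t837 (L l54 (L l390 (T t206 (L l220 (L l404 (T t29 N))))))))) (K a255 (M a224 (F (T t233 (T t232 (L l18 (L l75 (T t234 N))))))) N)))))))))))))))))))⟩
def e0_63__214_21 : Ent 4 := ⟨[a0, a63], [a214, a27], (M a85 (F (T t90 (L l239 (T t88 (L l294 (T t52 (L l239 (T t89 (K a64 (M a16 (F (T t258 (L l17 (L l73 (T t97 (L l116 (L l239 (T t98 N))))))))) (K a192 (M a16 (F (T t96 (L l17 (L l73 (L l339 (T t97 (L l239 (L l296 (T t98 N)))))))))) (K a21 (M a48 (F (T t99 (T t50 (L l47 (T t100 N)))))) (K a149 (M a16 (F (T t173 (L l17 (L l73 (L l375 (T t97 (L l12 (L l170 (T t102 N)))))))))) (K a213 (Fr a170 a255 l476 (Fr a42 a21 l68 (Fr a106 a234 l390 (Fr a192 a149 l519 (V t581))))) (K a42 (M a48 (F (T t364 (L l390 (T t50 (L l28 (T t100 N))))))) (K a106 (M a48 (F (T t99 (L l73 (T t1 (L l390 (T t50 N))))))) (K a170 (M a16 (F (L l404 (T t113 (L l239 (L l390 (T t98 (L l17 (L l73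 (L l390 (L l404 (T t97 (L l404 (T t174 N)))))))))))))) (K a255 (M a16 (F (T t112 (L l289 (T t113 (L l239 (L l289 (L l296 (T t98 N))))))))) N))))))))))))))))))⟩
def e0_63__214_22 : Ent 4 := ⟨[a0, a63], [a214, a28], (M a85 (F (T t90 (L l239 (T t88 (L l294 (T t52 (L l239 (T t89 (K a64 (M a16 (F (T t112 (L l84 (L l362 (T t96 (L l116 (L l239 (L l362 (T t98 N)))))))))) (K a192 (M a16 (F (T t112 (L l362 (T t96 (L l239 (L l296 (L l362 (T t98 N))))))))) (K a21 (M a48 (F (T t873 (L l47 (L l362 (T t100 (T t50 N))))))) (K a149 (M a16 (F (T t112 (L l362 (T t173 (L l170 (T t102 N))))))) (K a213 (Fr a170 a255 l476 (Fr a42 a21 l68 (Fr a106 a234 l390 (Fr a192 a149 l519 (V t581))))) (K a42 (M a48 (F (L l14 (T t364 (L l390 (T t50 (L l28 (L l362 (T t100 N))))))))) (K a106 (M a48 (F (T t1 (L l104 (L l362 (T t509 (L l390 (T t50 N)))))))) (K a170 (M a16 (F (L l390 (L l404 (T t112 (L l239 (L l362 (L l390 (T t98 (L l362 (L l404 (T t113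 (L l362 (L l404 (T t174 N))))))))))))))) (K a255 (M a16 (F (T t112 (L l289 (L l362 (T t113 (L l239 (L l289 (L l296 (L l362 (T t98 N))))))))))) N))))))))))))))))))⟩
def e0_63__214_23 : Ent 4 := ⟨[a0, a63], [a214, a29], (M a149 (F (T t177 (L l239 (T t5 (L l15 (L l294 (T t175 (L l239 (T t176 (K a192 (M a53 (F (T t178 (L l236 (T t179 (L l236 (L l239 (L l296 (T t180 N))))))))) (K a21 (M a48 (L l15 (F (T t4 (T t13 (L l18 (T t14 (K a17 (M a25 (F (T t4 (T t13 (L l10 (L l18 (T t14 N))))))) (K a25 (M a17 (F (T t181 (L l19 (L l65 (T t642 N)))))) N))))))))) (K a85 (M a16 (F (L l13 (T t97 (L l144 (T t190 (L l94 (T t278 N)))))))) (K a213 (Fr a106 a192 l519 (Fr a42 a21 l68 (Fr a170 a234 l390 (Fr a255 a85 l476 (V t582))))) (K a42 (M a48 (F (T t187 (L l390 (T t13 (L l54 (T t14 N))))))) (K a106 (M a48 (F (L l15 (T t1 (L l498 (T t14 (L l239 (L l390 (L l498 (T t6 (L l239 (L l390 (T t26 N))))))))))))) (K a170 (M a48 (F (T t4 (L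 l15 (L l462 (T t1 (L l390 (T t13 N)))))))) (K a191 (M a16 (F (T t112 (T t190 (L l213 (L l239 (T t191 N))))))) (K a255 (M a16 (F (T t112 (L l266 (T t190 (L l239 (L l289 (L l296 (T t191 N))))))))) N)))))))))))))))))))⟩
def e0_63__214_24 : Ent 4 := ⟨[a0, a63], [a214, a30], (M a85 (F (T t90 (L l239 (T t88 (L l294 (T t52 (L l239 (T t89 (K a64 (M a16 (F (T t258 (L l13 (L l63 (T t97 (L l116 (L l239 (T t98 N))))))))) (K a192 (M a16 (F (T t96 (L l13 (L l63 (L l339 (T t97 (L l239 (L l296 (T t98 N)))))))))) (K a21 (M a48 (F (T t99 (T t50 (L l47 (T t100 N)))))) (K a149 (M a16 (F (T t173 (L l13 (L l63 (L l375 (T t97 (L l16 (L l170 (T t102 N)))))))))) (K a213 (Fr a170 a255 l476 (Fr a42 a21 l68 (Fr a106 a234 l390 (Fr a192 a149 l519 (V t581))))) (K a42 (M a48 (F (T t364 (L l390 (T t50 (L l28 (T t100 N))))))) (K a106 (M a48 (F (T t99 (L l63 (T t1 (L l390 (T t50 N))))))) (K a170 (M a16 (F (L l404 (T t113 (L l239 (L l390 (T t98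 (L l13 (L l63 (L l390 (L l404 (T t97 (L l404 (T t174 N)))))))))))))) (K a255 (M a16 (F (T t112 (L l289 (T t113 (L l239 (L l289 (L l296 (T t98 N))))))))) N))))))))))))))))))⟩
def e0_63__214_25 : Ent 4 := ⟨[a0, a63], [a214, a31], (M a149 (F (T t177 (L l239 (T t5 (L l18 (L l294 (T t175 (L l239 (T t176 (K a192 (M a29 (F (T t956 (L l272 (T t641 (L l239 (L l272 (L l296 (L l363 (T t957 N)))))))))) (K a21 (M a12 (L l18 (F (T t958 (T t648 (L l50 (T t649 (K a16 (M a26 (F (T t958 (T t648 (L l50 (T t649 N)))))) (K a26 (M a16 (F (T t958 (L l50 (L l57 (T t652 N)))))) N))))))))) (K a85 (M a48 (F (T t4 (L l18 (T t1 (L l144 (T t13 N))))))) (K a213 (Fr a106 a192 l519 (Fr a42 a21 l68 (Fr a170 a234 l390 (Fr a255 a85 l476 (V t582))))) (K a42 (M a48 (F (T t187 (L l390 (T t13 (L l18 (L l54 (T t14 N)))))))) (K a106 (M a12 (F (L l408 (T t649 (L l13 (L l18 (T t122 (L l239 (L l390 (L l408 (T t960 (L l239 (L l390 (T t961 N))))))))))))))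 (K a170 (M a48 (F (T t4 (L l18 (L l462 (T t1 (L l390 (T t13 N)))))))) (K a191 (M a240 (F (T t1091 (L l239 (T t963 N))))) (K a255 (M a48 (F (T t964 (L l18 (L l469 (T t1 (L l266 (T t13 N)))))))) N)))))))))))))))))))⟩
def e0_63__214_26 : Ent 4 := ⟨[a0, a63], [a214, a40], (M a85 (F (L l294 (T t52 (L l22 (L l239 (T t88 (L l22 (L l239 (T t89 (L l392 (T t90 (K a64 (M a16 (F (L l24 (T t258 (L l22 (L l116 (L l239 (T t98 (L l22 (L l24 (T t97 N))))))))))) (K a192 (M a16 (F (L l24 (T t96 (L l22 (T t966 (L l22 (L l24 (L l339 (T t97 N)))))))))) (K a21 (M a48 (F (L l24 (T t99 (L l392 (T t50 (L l24 (L l47 (T t100 N))))))))) (K a149 (M a16 (F (T t666 (L l22 (L l24 (L l375 (T t97 (L l22 (L l170 (T t102 N)))))))))) (K a213 (Fr a170 a255 l476 (Fr a42 a21 l68 (Fr a106 a234 l390 (Fr a192 a149 l519 (V t581))))) (K a42 (M a43 (F (L l294 (T t667 (L l390 (L l392 (T t265 (L l66 (L l388 (T t264 (L l294 (L l388 (L l390 (L l392 (T t1824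 N))))))))))))))) (K a106 (M a48 (F (T t364 (T t1 (L l390 (L l392 (T t50 N))))))) (K a170 (M a105 (F (L l218 (T t669 (L l22 (L l239 (L l390 (T t670 (L l218 (L l388 (T t3644 (L l22 (L l239 (L l388 (L l390 (T t5549 N)))))))))))))))) (K a255 (M a16 (F (L l22 (L l24 (T t112 (L l24 (L l289 (T t113 (L l22 (L l239 (L l289 (L l296 (T t98 N))))))))))))) N)))))))))))))))))))))⟩
def e0_63__214_27 : Ent 4 := ⟨[a0, a63], [a214, a41], (M a192 (F (T t21 (L l65 (L l294 (T t35 (T t202 (L l22 (L l239 (T t37 (K a64 (M a48 (F (T t20 (L l65 (T t1 (L l22 (L l116 (L l144 (L l239 (T t31 N)))))))))) (K a128 (M a48 (F (T t206 (L l65 (T t1 (L l22 (L l239 (T t31 N)))))))) (K a21 (M a1 (F (T t2681 (L l22 (L l239 (L l347 (T t1826 (L l22 (L l239 (L l297 (T t1827 N))))))))))) (K a85 (M a16 (F (T t210 (L l22 (T t97 (L l22 (L l57 (L l94 (L l144 (T t211 N)))))))))) (K a149 (M a48 (F (T t837 (L l65 (L l347 (L l491 (T t1 (L l65 (L l170 (L l220 (L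 l347 (L l491 (T t213 (L l22 (L l375 (T t214 N)))))))))))))))) (K a42 (M a40 (F (T t5970 (L l65 (L l294 (L l390 (T t1829 (L l65 (L l294 (L l297 (T t1830 N))))))))))) (K a106 (M a48 (F (T t27 (L l65 (T t1 (L l65 (L l411 (T t213 (L l22 (L l104 (L l144 (L l390 (L l498 (T t214 N)))))))))))))) (K a170 (M a32 (F (T t218 (L l65 (T t219 (L l25 (L l65 (L l180 (L l220 (T t220 N)))))))))) (K a255 (M a16 (F (T t1805 (L l22 (L l469 (T t97 (L l22 (L l57 (T t211 N))))))))) N)))))))))))))))))))⟩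
def e0_63__214_28 : Ent 4 := ⟨[a0, a63], [a214, a43], (M a149 (F (L l294 (T t175 (L l22 (L l239 (T t5 (L l22 (L l239 (T t176 (L l393 (T t177 (K a192 (M a53 (F (L l22 (T t178 (L l236 (T t179 (L l22 (L l236 (L l239 (L l296 (T t180 N))))))))))) (K a21 (M a48 (F (T t4 (L l393 (T t13 (L l18 (T t14 N))))))) (K a85 (M a16 (F (L l22 (T t97 (L l144 (L l393 (T t190 (L l22 (L l94 (T t278 N)))))))))) (K a213 (Fr a106 a192 l519 (Fr a42 a21 l68 (Fr a170 a234 l390 (Fr a255 a85 l476 (V t582))))) (K a42 (M a40 (F (L l294 (T t973 (L l390 (L l393 (T t974 (L l66 (L l391 (T t969 (L l294 (L l390 (L l391 (L l393 (T t972 N))))))))))))))) (K a106 (M a169 (F (L l142 (T t981 (L l22 (L l239 (L l390 (T t977 (L l142 (L l391 (T t5971 (L l22 (L l142 (L l239 (L l348 (L l390 (T t979 N))))))))))))))))) (K a170 (M a48 (F (T t4 (L l462 (T t1 (L l390 (L l393 (T t13 N)))))))) (K a191 (M a16 (F (T t2682 (L l22 (L l213 (L l239 (T t191 (L l22 (T t97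 N))))))))) (K a255 (M a16 (F (T t192 (L l22 (T t193 (L l266 (L l393 (T t190 N)))))))) N)))))))))))))))))))))⟩
def e0_63__214_29 : Ent 4 := ⟨[a0, a63], [a214, a44], (M a85 (F (T t90 (L l239 (T t88 (L l294 (T t52 (L l239 (T t89 (K a64 (M a16 (F (L l24 (T t97 (L l84 (T t666 (L l116 (L l239 (T t98 N))))))))) (K a192 (M a16 (F (L l24 (T t96 (T t966 (L l24 (L l339 (T t97 N)))))))) (K a21 (M a48 (F (T t873 (L l24 (L l47 (T t100 (T t50 N))))))) (K a149 (M a16 (F (T t666 (L l24 (L l375 (T t97 (L l170 (T t102 N)))))))) (K a213 (Fr a170 a255 l476 (Fr a42 a21 l68 (Fr a106 a234 l390 (Fr a192 a149 l519 (V t581))))) (K a42 (M a48 (F (L l398 (T t364 (L l390 (T t50 (L l24 (L l28 (T t100 N))))))))) (K a106 (M a48 (F (T t1 (L l24 (L l104 (T t509 (L l390 (T t50 N)))))))) (K a170 (M a16 (F (L l24 (L l404 (T t113 (L l239 (L l390 (T t98 (L l24 (L l390 (L l404 (T t97 (L l24 (L l404 (T t174 N))))))))))))))) (K a255 (M a16 (F (L l24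 (T t112 (L l239 (L l289 (L l296 (T t98 (L l24 (L l289 (T t113 N))))))))))) N))))))))))))))))))⟩
def e0_63__214_30 : Ent 4 := ⟨[a0, a63], [a214, a45], (M a85 (F (T t90 (L l239 (T t88 (L l294 (T t52 (L l239 (T t89 (K a64 (M a16 (F (T t258 (L l63 (T t97 (L l116 (L l239 (T t98 N)))))))) (K a192 (M a16 (F (T t96 (L l63 (L l339 (T t97 (L l239 (L l296 (T t98 N))))))))) (K a21 (M a48 (F (T t99 (T t50 (L l47 (T t100 N)))))) (K a149 (M a16 (F (T t173 (L l63 (L l375 (T t97 (L l170 (T t102 N)))))))) (K a213 (Fr a170 a255 l476 (Fr a42 a21 l68 (Fr a106 a234 l390 (Fr a192 a149 l519 (V t581))))) (K a42 (M a48 (F (T t364 (L l390 (T t50 (L l28 (T t100 N))))))) (K a106 (M a48 (F (T t99 (L l63 (T t1 (L l390 (T t50 N))))))) (K a170 (M a16 (F (L l404 (T t113 (L l239 (L l390 (T t98 (L l63 (L l390 (L l404 (T t97 (L l404 (T t174 N))))))))))))) (K a255 (M a16 (F (T t112 (L l289 (T t113 (L l239 (L l289 (L l296 (T t98 N))))))))) N))))))))))))))))))⟩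
def e0_63__214_31 : Ent 4 := ⟨[a0, a63], [a214, a46], (M a149 (F (L l294 (T t175 (L l26 (L l239 (T t5 (L l26 (L l239 (T t176 (L l408 (T t177 (K a192 (M a53 (F (L l26 (T t178 (L l236 (T t179 (L l26 (L l236 (L l239 (L l296 (T t180 N))))))))))) (K a21 (M a48 (F (T t4 (L l408 (T t13 (L l18 (T t14 N))))))) (K a85 (M a16 (F (L l26 (T t97 (L l144 (L l408 (T t190 (L l26 (L l94 (T t278 N)))))))))) (K a213 (Fr a106 a192 l519 (Fr a42 a21 l68 (Fr a170 a234 l390 (Fr a255 a85 l476 (V t582))))) (K a42 (M a34 (F (T t279 (L l390 (L l408 (T t280 (L l56 (L l396 (T t281 (L l390 (L l396 (L l408 (T t282 N))))))))))))) (K a106 (M a166 (F (L l132 (T t283 (L l26 (L l239 (L l390 (T t284 (L l132 (L l396 (T t285 (L l26 (L l132 (L l239 (L l390 (T t286 N)))))))))))))))) (K a170 (M a48 (F (T t4 (L l462 (T t1 (L l390 (L l408 (T t13 N)))))))) (K a191 (M a16 (F (T t2682 (L l26 (L l213 (L l239 (T t191 (L l26 (T t97 N))))))))) (K a255 (M a16 (F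 (T t192 (L l26 (T t193 (L l266 (L l408 (T t190 N)))))))) N)))))))))))))))))))))⟩
def e0_63__214_32 : Ent 4 := ⟨[a0, a63], [a214, a47], (M a149 (F (L l294 (T t175 (L l28 (L l239 (T t5 (L l28 (L l239 (T t176 (L l411 (T t177 (K a192 (M a29 (F (L l23 (L l28 (T t956 (L l23 (L l272 (T t641 (L l28 (L l239 (L l272 (L l296 (T t957 N))))))))))))) (K a21 (M a48 (F (T t4 (L l411 (T t13 (L l18 (L l397 (T t14 N)))))))) (K a85 (M a48 (F (T t4 (L l28 (L l455 (T t2 (L l144 (L l411 (T t13 N))))))))) (K a213 (Fr a106 a192 l519 (Fr a42 a21 l68 (Fr a170 a234 l390 (Fr a255 a85 l476 (V t582))))) (K a42 (M a32 (F (T t983 (L l390 (L l411 (T t984 (L l54 (L l397 (T t985 (L l390 (L l397 (L l411 (T t986 N))))))))))))) (K a106 (M a165 (F (L l130 (T t987 (L l28 (L l239 (L l390 (T t988 (L l130 (L l397 (T t989 (L l28 (L l130 (L l239 (L l390 (T t990 N)))))))))))))))) (K a170 (M a12 (F (T t991 (L l402 (T t122 (L l390 (L l411 (T t648 N))))))))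 (K a191 (M a144 (F (L l411 (T t992 (L l28 (L l213 (L l239 (T t993 (L l411 (T t994 N)))))))))) (K a255 (M a48 (F (T t16 (L l28 (L l469 (T t2 (L l266 (L l411 (T t13 N))))))))) N)))))))))))))))))))))⟩
def e0_63__214_33 : Ent 4 := ⟨[a0, a63], [a214, a60], (M a48 (F (T t48 (L l63 (T t1 (L l63 (T t2 (L l63 (T t3 (L l63 (T t0 (K a16 (M a85 (F (T t4539 (L l442 (T t50 (L l239 (T t51 N))))))) (K a32 (M a85 (F (L l294 (L l434 (T t52 (L l404 (L l442 (T t50 (L l28 (L l239 (T t51 N))))))))))) (K a21 (M a192 (F (T t54 (L l442 (T t27 (L l47 (L l347 (T t29 N)))))))) (K a37 (M a192 (F (T t54 (L l442 (T t27 (L l434 (T t21 N))))))) (K a53 (M a192 (F (T t55 (L l434 (L l491 (T t21 (L l239 (T t31 N)))))))) (K a26 (M a192 (F (T t56 (L l442 (T t27 (L l434 (T t21 N))))))) (K a42 (M a192 (F (T t56 (L l442 (T t27 (L l28 (T t29 N))))))) (K a58 (M a192 (F (T t47 (L l442 (T t27 (L l54 (L l239 (L l498 (T t31 N))))))))) (K a15 (M a80 (L l63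 (F (T t58 (L l239 (T t59 (L l239 (L l434 (L l469 (L l483 (T t60 (K a45 (M a30 (F (T t1831 (L l39 (T t293 N))))) (K a30 (M a45 (F (T t1831 (L l39 (T t294 N))))) N))))))))))))) N))))))))))))))))))))⟩
def e0_63__214_34 : Ent 4 := ⟨[a0, a63], [a214, a61], (M a149 (F (T t177 (L l239 (T t5 (L l65 (L l294 (T t175 (L l239 (T t176 (K a192 (M a53 (F (T t178 (L l236 (T t179 (L l236 (L l239 (L l296 (L l443 (T t180 N)))))))))) (K a21 (M a48 (L l65 (F (T t4 (T t13 (L l18 (T t14 (K a1 (M a41 (F (T t7 (L l18 (T t14 (T t13 N)))))) (K a41 (M a1 (F (T t181 (L l18 (L l29 (T t295 N)))))) N))))))))) (K a85 (M a16 (F (T t97 (L l144 (T t190 (L l94 (T t278 N))))))) (K a213 (Fr a106 a192 l519 (Fr a42 a21 l68 (Fr a170 a234 l390 (Fr a255 a85 l476 (V t582))))) (K a42 (M a48 (F (L l54 (T t4 (L l390 (T t13 (L l54 (T t14 N)))))))) (K a106 (M a48 (F (L l498 (T t14 (L l35 (L l65 (T t1 (L l239 (L l390 (L l498 (T t6 (L l239 (L l390 (T t26 N))))))))))))))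 (K a170 (M a48 (F (T t4 (L l35 (L l65 (L l462 (T t1 (L l390 (T t13 N))))))))) (K a191 (M a16 (F (T t97 (T t190 (L l213 (L l239 (T t191 N))))))) (K a255 (M a16 (F (T t112 (L l266 (T t190 (L l239 (L l289 (L l296 (T t191 N))))))))) N)))))))))))))))))))⟩
def e0_63__214_35 : Ent 4 := ⟨[a0, a63], [a214, a62], (M a48 (F (T t1 (L l36 (L l66 (T t2 (T t3 (L l66 (T t0 (K a16 (M a85 (F (T t90 (T t50 (L l36 (L l66 (L l239 (T t51 N)))))))) (K a32 (M a85 (F (L l294 (T t52 (L l404 (T t50 (L l28 (L l36 (L l66 (L l239 (T t51 N))))))))))) (K a21 (M a192 (F (T t837 (L l47 (L l347 (T t20 (L l47 (L l347 (T t29 N))))))))) (K a37 (M a192 (F (T t19 (L l47 (T t20 (T t21 N)))))) (K a53 (M a192 (F (T t19 (L l491 (T t21 (L l66 (L l239 (L l516 (T t31 N))))))))) (K a26 (M a192 (F (T t837 (T t20 (T t21 N))))) (K a42 (M a170 (L l66 (F (T t316 (L l36 (L l54 (T t3070 (T t514 (K a2 (M a22 (F (T t319 (T t514 (L l36 (L l54 (T t3070 N))))))) (K a22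 (M a2 (L l348 (F (T t316 (L l22 (L l239 (L l294 (L l432 (T t5972 (K a86 (M a150 (F (T t316 (L l294 (L l432 (T t3206 N)))))) (K a150 (Fr a86 a254 l474 (V t5973)) N))))))))))) N)))))))))) (K a58 (M a50 (F (T t301 (L l54 (L l60 (L l66 (T t302 (T t303 N)))))))) (K a15 (M a192 (F (T t47 (L l483 (T t27 (L l325 (T t20 N))))))) N))))))))))))))))))⟩
def e0_63__214_36 : Ent 4 := ⟨[a0, a63], [a214, a64], (M a48 (F (T t1 (T t2 (T t3 (T t0 (K a16 (M a60 (F (T t43 (T t64 (T t65 N))))) (K a32 (M a60 (F (T t67 (T t64 (L l24 (L l28 (T t65 N))))))) (K a21 (M a101 (F (T t312 (L l116 (T t313 (L l18 (T t314 N))))))) (K a37 (M a52 (F (T t82 (T t83 (L l21 (L l28 (T t84 N))))))) (K a53 (M a12 (F (T t151 (T t443 (L l47 (T t146 N)))))) (K a26 (M a56 (F (T t133 (T t134 (L l12 (L l18 (T t135 N))))))) (K a42 (M a101 (F (T t333 (T t334 (L l54 (T t314 N)))))) (K a58 (M a12 (F (T t443 (T t122 (T t146 N))))) (K a15 (M a4 (F (T t129 (L l63 (T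 t528 (T t520 N)))))) N)))))))))))))))⟩
def e0_63__214_37 : Ent 4 := ⟨[a0, a63], [a214, a65], (M a48 (F (T t1 (T t2 (T t3 (T t0 (K a16 (M a60 (F (T t43 (T t64 (T t65 N))))) (K a32 (M a60 (F (T t67 (T t64 (L l24 (L l28 (T t65 N))))))) (K a21 (M a192 (F (T t28 (L l47 (L l347 (T t20 (L l47 (L l347 (T t29 N))))))))) (K a37 (M a192 (F (T t19 (L l47 (T t20 (T t21 N)))))) (K a53 (M a192 (F (T t19 (L l491 (T t21 (L l239 (T t31 N))))))) (K a26 (M a192 (F (T t27 (T t20 (T t21 N))))) (K a42 (M a192 (F (T t19 (T t20 (L l28 (T t29 N)))))) (K a58 (M a192 (F (T t19 (T t21 (L l54 (L l239 (L l498 (T t31 N)))))))) (K a15 (M a192 (F (T t47 (L l483 (T t27 (L l325 (T t20 N))))))) N)))))))))))))))⟩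
def e0_63__214_38 : Ent 4 := ⟨[a0, a63], [a214, a66], (M a48 (F (T t1 (T t2 (T t3 (T t0 (K a16 (M a60 (F (T t64 (L l14 (L l18 (L l309 (T t67 (T t65 N)))))))) (K a32 (M a60 (F (T t64 (L l309 (T t67 (L l24 (L l28 (T t65 N)))))))) (K a21 (M a192 (F (T t28 (L l47 (L l347 (T t20 (L l47 (L l347 (T t29 N))))))))) (K a37 (M a192 (F (T t19 (L l47 (T t20 (T t21 N)))))) (K a53 (M a192 (F (T t19 (L l491 (T t21 (L l142 (L l239 (T t31 N)))))))) (K a26 (M a192 (F (T t28 (T t20 (T t21 N))))) (K a42 (M a192 (F (T t19 (T t20 (L l28 (T t29 N)))))) (K a58 (M a192 (F (T t19 (T t21 (L l54 (L l142 (L l239 (L l498 (T t31 N))))))))) (K a15 (M a192 (F (T t47 (L l483 (T t27 (L l325 (T t20 N))))))) N)))))))))))))))⟩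
def e0_63__214_39 : Ent 4 := ⟨[a0, a63], [a214, a67], (M a149 (F (L l239 (T t25 (L l294 (T t175 (L l239 (T t176 (L l76 (T t177 (K a192 (M a53 (F (T t178 (L l236 (T t179 (L l236 (L l239 (L l296 (T t180 N))))))))) (K a21 (M a48 (F (T t4 (L l121 (T t13 (L l18 (T t14 N))))))) (K a85 (M a16 (F (T t97 (L l144 (T t190 (L l94 (T t278 N))))))) (K a213 (Fr a106 a192 l519 (Fr a42 a21 l68 (Fr a170 a234 l390 (Fr a255 a85 l476 (V t582))))) (K a42 (M a48 (F (T t187 (L l121 (L l390 (T t13 (L l54 (T t14 N)))))))) (K a106 (M a48 (F (T t1 (L l498 (T t14 (L l239 (L l390 (L l498 (T t6 (L l239 (L l390 (T t26 N)))))))))))) (K a170 (M a48 (F (T t4 (L l462 (T t1 (L l121 (L l390 (T t13 N)))))))) (K a191 (M a16 (F (T t97 (T t190 (L l213 (L l239 (T t191 N))))))) (K a255 (M a16 (F (T t112 (L l266 (T t190 (L l239 (L l289 (L l296 (T t191 N))))))))) N)))))))))))))))))))⟩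
def e0_63__214_40 : Ent 4 := ⟨[a0, a63], [a214, a68], (M a48 (F (T t1 (T t2 (T t3 (T t0 (K a16 (M a60 (F (T t43 (T t64 (T t65 N))))) (K a32 (M a60 (F (T t67 (T t64 (L l24 (L l28 (T t65 N))))))) (K a21 (M a192 (F (T t28 (L l47 (L l347 (T t20 (L l47 (L l347 (T t29 N))))))))) (K a37 (M a192 (F (T t19 (L l47 (T t20 (T t21 N)))))) (K a53 (M a192 (F (T t19 (L l491 (T t21 (L l239 (T t31 N))))))) (K a26 (M a192 (F (T t27 (T t20 (T t21 N))))) (K a42 (M a192 (F (T t19 (T t20 (L l28 (T t29 N)))))) (K a58 (M a192 (F (T t19 (T t21 (L l54 (L l239 (L l498 (T t31 N)))))))) (K a15 (M a192 (F (T t47 (L l483 (T t27 (L l325 (T t20 N))))))) N)))))))))))))))⟩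
def e0_63__214_41 : Ent 4 := ⟨[a0, a63], [a214, a69], (M a48 (F (T t1 (L l311 (T t2 (T t3 (T t0 (K a16 (M a60 (F (T t43 (T t64 (L l311 (T t65 N)))))) (K a32 (M a60 (F (T t64 (T t67 (L l24 (L l28 (L l311 (T t65 N)))))))) (K a21 (M a192 (F (T t28 (L l47 (L l347 (T t20 (L l47 (L l347 (T t29 N))))))))) (K a37 (M a192 (F (T t19 (L l47 (T t20 (T t21 N)))))) (K a53 (M a192 (F (T t19 (L l491 (T t21 (L l239 (T t31 N))))))) (K a26 (M a192 (F (T t28 (T t20 (T t21 N))))) (K a42 (M a192 (F (T t19 (T t20 (L l28 (T t29 N)))))) (K a58 (M a192 (F (T t19 (T t21 (L l54 (L l239 (L l498 (T t31 N)))))))) (K a15 (M a85 (F (T t567 (L l239 (T t568 N))))) N))))))))))))))))⟩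
def e0_63__214_42 : Ent 4 := ⟨[a0, a63], [a214, a70], (M a149 (F (T t177 (L l239 (T t5 (L l294 (T t175 (L l239 (T t176 (K a192 (M a53 (F (T t178 (L l236 (T t179 (L l77 (L l236 (L l239 (L l296 (T t180 N)))))))))) (K a21 (M a48 (F (T t4 (T t13 (L l18 (T t14 N)))))) (K a85 (M a16 (F (T t97 (L l144 (T t190 (L l94 (T t278 N))))))) (K a213 (Fr a106 a192 l519 (Fr a42 a21 l68 (Fr a170 a234 l390 (Fr a255 a85 l476 (V t582))))) (K a42 (M a48 (F (T t187 (L l390 (T t13 (L l54 (T t14 N))))))) (K a106 (M a48 (F (T t1 (L l498 (T t14 (L l239 (L l390 (L l498 (T t6 (L l239 (L l390 (T t26 N)))))))))))) (K a170 (M a48 (F (T t4 (L l462 (T t1 (L l390 (T t13 N))))))) (K a191 (M a240 (F (T t962 (L l239 (L l315 (T t963 N)))))) (K a255 (M a16 (F (T t112 (L l266 (T t190 (L l239 (L l289 (L l296 (T t191 N))))))))) N))))))))))))))))))⟩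
def e0_63__214_43 : Ent 4 := ⟨[a0, a63], [a214, a71], (M a85 (F (T t90 (L l239 (T t88 (L l294 (T t52 (L l239 (T t89 (K a64 (M a252 (F (T t91 (L l125 (L l239 (T t497 N)))))) (K a192 (M a16 (F (T t112 (L l77 (L l127 (T t96 (L l239 (L l296 (T t98 N))))))))) (K a21 (M a48 (F (T t99 (T t50 (L l47 (T t100 N)))))) (K a149 (M a16 (F (T t112 (L l77 (L l331 (T t173 (L l170 (T t102 N)))))))) (K a213 (Fr a170 a255 l476 (Fr a42 a21 l68 (Fr a106 a234 l390 (Fr a192 a149 l519 (V t581))))) (K a42 (M a48 (F (T t364 (L l390 (T t50 (L l28 (T t100 N))))))) (K a106 (M a48 (F (T t1 (L l77 (L l104 (L l127 (T t509 (L l390 (T t50 N))))))))) (K a170 (M a16 (F (L l404 (T t113 (L l239 (L l390 (T t98 (L l390 (L l404 (T t97 (L l331 (L l404 (T t174 N))))))))))))) (K a255 (M a16 (F (T t112 (L l289 (T t113 (L l239 (L l289 (L l296 (T t98 N))))))))) N))))))))))))))))))⟩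
def e0_63__214_44 : Ent 4 := ⟨[a0, a63], [a214, a72], (M a48 (F (T t1 (T t2 (T t3 (T t0 (K a16 (M a60 (F (T t43 (T t64 (T t65 N))))) (K a32 (M a60 (F (T t67 (T t64 (L l24 (L l28 (T t65 N))))))) (K a21 (M a192 (F (T t28 (L l47 (L l347 (T t20 (L l47 (L l347 (T t29 N))))))))) (K a37 (M a192 (F (T t19 (L l47 (T t20 (T t21 N)))))) (K a53 (M a192 (F (T t19 (L l491 (T t21 (L l132 (L l239 (T t31 N)))))))) (K a26 (M a192 (F (T t28 (T t20 (T t21 N))))) (K a42 (M a192 (F (T t19 (T t20 (L l28 (T t29 N)))))) (K a58 (M a192 (F (T t19 (T t21 (L l54 (L l132 (L l239 (L l498 (T t31 N))))))))) (K a15 (M a192 (F (T t47 (L l483 (T t27 (L l325 (T t20 N))))))) N)))))))))))))))⟩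
def e0_63__214_45 : Ent 4 := ⟨[a0, a63], [a214, a73], (M a149 (F (T t177 (L l239 (T t5 (L l294 (T t175 (L l239 (T t176 (K a192 (M a53 (F (T t178 (L l236 (T t179 (L l81 (L l236 (L l239 (L l296 (T t180 N)))))))))) (K a21 (M a48 (F (T t4 (T t13 (L l18 (T t14 N)))))) (K a85 (M a16 (F (T t97 (L l144 (T t190 (L l94 (T t278 N))))))) (K a213 (Fr a106 a192 l519 (Fr a42 a21 l68 (Fr a170 a234 l390 (Fr a255 a85 l476 (V t582))))) (K a42 (M a48 (F (T t187 (L l390 (T t13 (L l54 (T t14 N))))))) (K a106 (M a48 (F (T t1 (L l498 (T t14 (L l239 (L l390 (L l498 (T t6 (L l239 (L l390 (T t26 N)))))))))))) (K a170 (M a48 (F (T t4 (L l462 (T t1 (L l390 (T t13 N))))))) (K a191 (M a240 (F (T t962 (L l239 (L l335 (T t963 N)))))) (K a255 (M a16 (F (T t112 (L l266 (T t190 (L l239 (L l289 (L l296 (T t191 N))))))))) N))))))))))))))))))⟩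
def e0_63__214_46 : Ent 4 := ⟨[a0, a63], [a214, a74], (M a12 (F (T t122 (T t151 (T t152 (T t153 (K a4 (M a60 (F (T t43 (L l336 (L l339 (T t398 (T t448 N))))))) (K a8 (M a60 (F (T t67 (L l336 (L l339 (T t398 (L l52 (L l56 (T t448 N))))))))) (K a21 (M a192 (F (T t156 (L l15 (L l347 (T t450 (L l15 (L l347 (T t157 N))))))))) (K a25 (M a192 (F (T t467 (T t156 (T t21 N))))) (K a29 (M a192 (F (T t156 (L l371 (T t21 (L l78 (L l130 (L l239 (T t160 N))))))))) (K a38 (M a192 (F (T t156 (T t450 (T t21 N))))) (K a42 (M a192 (F (T t156 (T t450 (L l56 (T t157 N)))))) (K a46 (M a192 (F (T t156 (T t21 (L l26 (L l78 (L l130 (L l239 (L l408 (T t160 N)))))))))) (K a51 (M a192 (F (T t47 (L l513 (T t156 (L l415 (T t450 N))))))) N)))))))))))))))⟩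
def e0_63__214_47 : Ent 4 := ⟨[a0, a63], [a214, a75], (M a85 (F (T t90 (L l239 (T t88 (L l294 (T t52 (L l239 (T t89 (K a64 (M a16 (F (T t258 (L l337 (T t97 (L l116 (L l239 (T t98 N)))))))) (K a192 (M a16 (F (T t96 (L l337 (L l339 (T t97 (L l239 (L l296 (T t98 N))))))))) (K a21 (M a48 (F (T t99 (T t50 (L l47 (T t100 N)))))) (K a149 (M a16 (F (T t173 (L l337 (L l375 (T t97 (L l170 (T t102 N)))))))) (K a213 (Fr a170 a255 l476 (Fr a42 a21 l68 (Fr a106 a234 l390 (Fr a192 a149 l519 (V t581))))) (K a42 (M a48 (F (T t364 (L l390 (T t50 (L l28 (T t100 N))))))) (K a106 (M a48 (F (T t99 (L l337 (T t1 (L l390 (T t50 N))))))) (K a170 (M a16 (F (L l404 (T t113 (L l239 (L l390 (T t98 (L l337 (L l390 (L l404 (T t97 (L l404 (T t174 N))))))))))))) (K a255 (M a16 (F (T t112 (L l289 (T t113 (L l239 (L l289 (L l296 (T t98 N))))))))) N))))))))))))))))))⟩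
def e0_63__214_48 : Ent 4 := ⟨[a0, a63], [a214, a76], (M a149 (F (L l239 (T t25 (L l294 (T t175 (L l239 (T t176 (L l80 (T t177 (K a192 (M a53 (F (T t178 (L l236 (T t179 (L l236 (L l239 (L l296 (T t180 N))))))))) (K a21 (M a48 (F (T t4 (L l146 (T t13 (L l18 (T t14 N))))))) (K a85 (M a16 (F (T t97 (L l144 (T t190 (L l94 (T t278 N))))))) (K a213 (Fr a106 a192 l519 (Fr a42 a21 l68 (Fr a170 a234 l390 (Fr a255 a85 l476 (V t582))))) (K a42 (M a48 (F (T t187 (L l146 (L l390 (T t13 (L l54 (T t14 N)))))))) (K a106 (M a48 (F (T t1 (L l498 (T t14 (L l239 (L l390 (L l498 (T t6 (L l239 (L l390 (T t26 N)))))))))))) (K a170 (M a48 (F (T t4 (L l462 (T t1 (L l146 (L l390 (T t13 N)))))))) (K a191 (M a204 (F (L l80 (T t1043 (L l138 (L l239 (T t1112 N))))))) (K a255 (M a16 (F (T t112 (L l266 (T t190 (L l239 (L l289 (L l296 (T t191 N))))))))) N)))))))))))))))))))⟩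
def e0_63__214_49 : Ent 4 := ⟨[a0, a63], [a214, a77], (M a85 (F (T t90 (L l239 (T t88 (L l294 (T t52 (L l239 (T t89 (K a64 (M a16 (F (T t97 (L l81 (L l84 (L l147 (T t96 (L l116 (L l239 (T t98 N)))))))))) (K a192 (M a16 (F (T t112 (L l81 (L l147 (T t96 (L l239 (L l296 (T t98 N))))))))) (K a21 (M a48 (F (T t99 (T t50 (L l47 (T t100 N)))))) (K a149 (M a16 (F (T t112 (L l81 (L l326 (T t173 (L l170 (T t102 N)))))))) (K a213 (Fr a170 a255 l476 (Fr a42 a21 l68 (Fr a106 a234 l390 (Fr a192 a149 l519 (V t581))))) (K a42 (M a48 (F (T t364 (L l390 (T t50 (L l28 (T t100 N))))))) (K a106 (M a48 (F (T t1 (L l81 (L l104 (L l147 (T t509 (L l390 (T t50 N))))))))) (K a170 (M a16 (F (L l404 (T t113 (L l239 (L l390 (T t98 (L l390 (L l404 (T t97 (L l326 (L l404 (T t174 N))))))))))))) (K a255 (M a16 (F (T t112 (L l289 (T t113 (L l239 (L l289 (L l296 (T t98 N))))))))) N))))))))))))))))))⟩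
def e0_63__214_50 : Ent 4 := ⟨[a0, a63], [a214, a78], (M a149 (F (T t177 (L l239 (T t5 (L l294 (T t175 (L l239 (T t176 (K a192 (M a53 (F (T t178 (L l236 (T t179 (L l236 (L l239 (L l296 (T t180 N))))))))) (K a21 (M a48 (F (T t4 (T t13 (L l18 (T t14 N)))))) (K a85 (M a16 (F (T t504 (L l144 (T t190 (L l94 (L l148 (T t278 N)))))))) (K a213 (Fr a106 a192 l519 (Fr a42 a21 l68 (Fr a170 a234 l390 (Fr a255 a85 l476 (V t582))))) (K a42 (M a48 (F (T t187 (L l390 (T t13 (L l54 (T t14 N))))))) (K a106 (M a48 (F (T t48 (L l498 (T t14 (L l239 (L l390 (L l498 (T t6 (L l239 (L l390 (T t26 N)))))))))))) (K a170 (M a48 (F (T t4 (L l327 (L l462 (T t1 (L l390 (T t13 N)))))))) (K a191 (M a204 (F (T t1043 (L l136 (L l239 (T t1112 N)))))) (K a255 (M a16 (F (T t112 (L l266 (T t190 (L l239 (L l289 (L l296 (T t191 N))))))))) N))))))))))))))))))⟩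
def e0_63__214_51 : Ent 4 := ⟨[a0, a63], [a214, a79], (M a149 (F (L l239 (T t25 (L l294 (T t175 (L l239 (T t176 (L l84 (T t177 (K a192 (M a53 (F (T t178 (L l236 (T t179 (L l84 (L l236 (L l239 (L l296 (T t180 N)))))))))) (K a21 (M a48 (F (T t4 (L l18 (T t1082 (L l18 (T t14 N))))))) (K a85 (M a16 (F (T t504 (L l144 (T t190 (L l94 (L l151 (T t278 N)))))))) (K a213 (Fr a106 a192 l519 (Fr a42 a21 l68 (Fr a170 a234 l390 (Fr a255 a85 l476 (V t582))))) (K a42 (M a48 (F (T t11 (L l390 (T t1082 (L l54 (T t14 N))))))) (K a106 (M a48 (F (T t48 (L l498 (T t14 (L l239 (L l390 (L l498 (T t6 (L l239 (L l390 (T t26 N)))))))))))) (K a170 (M a48 (F (T t4 (L l462 (T t48 (L l151 (L l390 (T t13 N)))))))) (K a191 (M a16 (F (T t112 (T t190 (L l213 (L l239 (T t191 N))))))) (K a255 (M a16 (F (T t112 (L l266 (T t190 (L l239 (L l289 (L l296 (T t191 N))))))))) N)))))))))))))))))))⟩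
def e0_63__214_52 : Ent 4 := ⟨[a0, a63], [a214, a84], (M a85 (F (L l294 (T t52 (L l140 (L l239 (T t88 (L l140 (L l239 (T t89 (L l140 (T t90 (K a64 (M a16 (L l140 (F (T t97 (L l84 (T t96 (L l90 (L l116 (L l239 (T t98 (K a104 (M a124 (F (T t259 (T t97 (L l90 (L l116 (L l239 (T t98 N)))))))) (K a124 (M a104 (F (T t259 (T t97 (L l90 (L l116 (L l239 (T t98 N)))))))) N)))))))))))) (K a192 (M a16 (F (T t96 (L l339 (T t97 (L l90 (L l239 (L l296 (T t98 N))))))))) (K a21 (M a48 (F (T t99 (T t50 (L l47 (T t100 N)))))) (K a149 (M a16 (F (T t173 (L l375 (T t97 (L l170 (T t102 N))))))) (K a213 (Fr a170 a255 l476 (Fr a42 a21 l68 (Fr a106 a234 l390 (Fr a192 a149 l519 (V t581))))) (K a42 (M a48 (F (L l28 (T t99 (L l390 (T t50 (L l28 (T t100 N)))))))) (K a106 (M a48 (F (T t1 (L l104 (T t509 (L l390 (T t50 N))))))) (K a170 (M a16 (F (L l404 (T t113 (L l90 (L l239 (L l390 (T t98 (L l390 (L l404 (T t97 (L l404 (T t174 N)))))))))))))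 (K a255 (M a16 (F (T t112 (L l289 (T t113 (L l90 (L l239 (L l289 (L l296 (T t98 N)))))))))) N)))))))))))))))))))))⟩
def e0_63__214_53 : Ent 4 := ⟨[a0, a63], [a214, a85], (M a48 (F (T t0 (L l347 (T t1 (L l455 (T t2 (L l347 (L l368 (T t3 (K a16 (M a60 (L l368 (F (T t43 (T t64 (L l455 (T t65 (K a154 (M a223 (F (T t42 (L l473 (T t69 (L l455 (L l498 (T t65 N)))))))) (K a223 (M a154 (F (T t43 (L l340 (T t473 N))))) N))))))))) (K a32 (M a60 (F (T t64 (L l347 (L l350 (T t67 (L l24 (L l28 (L l455 (T t65 N)))))))))) (K a21 (M a149 (F (T t4 (L l144 (T t13 (L l18 (L l123 (L l144 (L l368 (T t482 (L l18 (L l123 (L l368 (T t483 N)))))))))))))) (K a37 (M a192 (F (T t27 (L l47 (L l347 (T t20 (L l144 (L l368 (T t224 N))))))))) (K a53 (M a12 (F (T t443 (L l47 (L l347 (T t122 (L l47 (L l347 (T t146 N))))))))) (K a26 (M a192 (F (T t28 (L l347 (T t20 (L l18 (L l54 (L l144 (L l368 (T t224 N)))))))))) (K a42 (M a192 (F (T t27 (L l347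 (T t20 (L l54 (L l144 (L l368 (L l390 (T t224 N)))))))))) (K a58 (M a12 (F (T t443 (L l347 (T t122 (L l347 (T t146 N))))))) (K a15 (M a192 (F (L l483 (T t27 (L l325 (L l347 (T t20 (L l144 (L l368 (T t224 N)))))))))) N)))))))))))))))))))⟩
def e0_63__214_54 : Ent 4 := ⟨[a0, a63], [a214, a86], (M a60 (L l348 (F (T t116 (L l477 (T t67 (L l351 (L l477 (T t43 (L l474 (L l477 (T t68 (L l477 (T t69 (K a20 (M a85 (L l348 (F (L l239 (T t88 (L l297 (L l474 (L l477 (T t114 (L l239 (T t1344 (K a22 (M a150 (L l11 (F (T t3522 (L l66 (L l142 (L l297 (T t1435 (L l66 (L l142 (L l239 (T t924 (K a21 (M a23 (F (T t3522 (L l65 (L l294 (L l346 (T t1136 (L l65 (L l474 (T t447 N)))))))))) (K a23 (Fr a21 a42 l68 (V t5974)) N)))))))))))))) (K a150 (M a22 (F (T t3525 (L l163 (L l294 (L l351 (T t255 (L l218 (L l221 (L l297 (L l474 (L l477 (T t114 N))))))))))))) N))))))))))))) (K a40 (M a48 (L l348 (F (T t1 (T t64 (L l52 (L l459 (L l474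 (T t235 (K a22 (M a150 (F (T t64 (L l145 (L l392 (T t3526 N)))))) (K a150 (M a22 (F (T t3539 (L l52 (L l372 (L l459 (T t882 N))))))) N))))))))))) (K a21 (M a150 (F (L l297 (T t3523 (L l239 (T t1135 (L l65 (L l239 (L l294 (T t1137 N)))))))))) (K a41 (M a150 (F (L l297 (T t2366 (L l65 (L l294 (T t1136 (L l22 (L l65 (L l239 (L l294 (T t1137 N)))))))))))) (K a61 (M a16 (L l348 (F (T t1140 (T t97 (L l59 (T t1141 (K a22 (M a150 (F (L l239 (T t1135 (L l66 (T t97 N)))))) (K a150 (M a22 (F (T t5975 (L l372 (L l459 (T t5976 N)))))) N))))))))) (K a42 (M a150 (F (L l297 (T t2366 (L l294 (T t1136 (L l22 (L l239 (L l294 (T t1137 N)))))))))) (K a62 (M a106 (L l348 (F (L l294 (T t305 (L l297 (L l351 (L l477 (T t565 (L l294 (T t566 (K a22 (M a150 (L l66 (F (T t3530 (L l239 (L l432 (T t1135 (L l11 (L l294 (L l351 (T t393 (K a2 (Fr a42 a21 l68 (V t4131)) (K a42 (M a2 (F (T t3530 (L l22 (L l239 (L l297 (T t1436 (L l22 (L l351 (T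 t2792 N)))))))))) N))))))))))))) (K a150 (M a22 (F (T t3532 (L l239 (T t586 (L l163 (L l221 (L l297 (L l351 (L l477 (T t565 N))))))))))) N))))))))))))) (K a3 (M a150 (L l477 (F (L l297 (L l307 (T t2366 (L l294 (L l309 (T t1136 (L l239 (L l294 (T t1137 (K a252 (M a169 (L l297 (F (L l145 (T t2375 (L l239 (L l474 (T t1434 (L l239 (L l294 (T t1137 (K a233 (Fr a195 a105 l518 (V t5977)) (K a195 (M a233 (L l307 (F (L l294 (L l474 (T t3534 (L l239 (L l351 (T t3536 (L l228 (L l239 (L l294 (L l295 (T t1139 (K a67 (Fr a131 a188 l221 (V t1137)) (K a131 (M a67 (F (L l294 (L l474 (T t3537 (L l239 (L l351 (T t3536 (L l228 (L l239 (L l294 (L l295 (T t1137 N))))))))))))) N)))))))))))))))) N))))))))))))) (K a169 (M a252 (F (L l307 (T t3523 (L l174 (L l239 (L l474 (T t1434 (L l174 (L l309 (T t5978 N))))))))))) N)))))))))))))) (K a22 (M a150 (F (L l239 (T t1135 (L l294 (T t1136 (L l239 (L l294 (T t1137 N))))))))) (K a150 (M a22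 (F (T t3539 (T t881 (T t3444 N))))) N))))))))))))))))))))))))⟩
def e0_63__214_55 : Ent 4 := ⟨[a0, a63], [a214, a87], (M a85 (F (T t90 (L l239 (T t88 (L l143 (L l294 (L l475 (T t52 (L l239 (T t89 (K a64 (M a240 (F (T t933 (L l93 (L l239 (T t387 N)))))) (K a192 (M a16 (F (T t1924 (L l339 (T t97 (L l239 (L l296 (L l367 (T t98 N))))))))) (K a21 (M a48 (F (T t873 (L l47 (L l143 (L l367 (T t100 (L l143 (T t50 N))))))))) (K a149 (M a16 (F (T t112 (L l367 (T t173 (L l93 (L l170 (T t102 N)))))))) (K a213 (Fr a170 a255 l476 (Fr a42 a21 l68 (Fr a106 a234 l390 (Fr a192 a149 l519 (V t581))))) (K a42 (M a48 (F (L l475 (T t364 (L l143 (L l390 (T t50 (L l28 (L l143 (L l367 (T t100 N))))))))))) (K a106 (M a48 (F (T t1 (L l104 (L l367 (T t509 (L l143 (L l390 (T t50 N))))))))) (K a170 (M a16 (F (L l390 (L l404 (T t97 (L l239 (L l367 (L l390 (T t98 (L l143 (L l367 (L l404 (T t113 (L l367 (L l404 (T t174 N)))))))))))))))) (K a255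 (M a3 (F (T t85 (L l143 (L l261 (L l349 (T t376 (L l239 (L l261 (L l296 (T t357 (L l239 (L l296 (T t3748 N)))))))))))))) N))))))))))))))))))))⟩
def e0_63__214_56 : Ent 4 := ⟨[a0, a63], [a214, a88], (M a85 (F (T t90 (L l239 (T t88 (L l294 (T t52 (L l239 (T t89 (K a64 (M a252 (F (T t91 (L l239 (L l460 (T t497 N)))))) (K a192 (M a16 (F (T t96 (L l339 (T t97 (L l90 (L l239 (L l296 (T t98 N))))))))) (K a21 (M a48 (F (T t99 (L l478 (T t50 (L l47 (T t100 N))))))) (K a149 (M a16 (F (T t173 (L l375 (T t97 (L l170 (T t102 N))))))) (K a213 (Fr a170 a255 l476 (Fr a42 a21 l68 (Fr a106 a234 l390 (Fr a192 a149 l519 (V t581))))) (K a42 (M a48 (F (T t364 (L l390 (L l478 (T t50 (L l28 (T t100 N)))))))) (K a106 (M a48 (F (T t99 (T t1 (L l390 (L l478 (T t50 N))))))) (K a170 (M a16 (F (L l404 (T t113 (L l90 (L l239 (L l390 (T t98 (L l390 (L l404 (T t97 (L l404 (T t174 N))))))))))))) (K a255 (M a16 (F (T t112 (L l289 (T t113 (L l90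 (L l239 (L l289 (L l296 (T t98 N)))))))))) N))))))))))))))))))⟩
def e0_63__214_57 : Ent 4 := ⟨[a0, a63], [a214, a89], (M a48 (F (T t1 (T t2 (T t3 (T t0 (K a16 (M a60 (F (T t43 (T t64 (T t65 N))))) (K a32 (M a60 (F (T t67 (T t64 (L l24 (L l28 (T t65 N))))))) (K a21 (M a192 (F (T t837 (L l47 (L l347 (L l371 (T t20 (L l47 (L l347 (L l371 (T t29 N))))))))))) (K a37 (M a192 (F (T t19 (L l47 (L l371 (T t20 (L l371 (T t21 N)))))))) (K a53 (M a192 (F (T t19 (L l371 (L l491 (T t21 (L l132 (L l239 (T t31 N))))))))) (K a26 (M a192 (F (T t27 (L l371 (T t20 (L l371 (T t21 N))))))) (K a42 (M a192 (F (T t19 (L l371 (T t20 (L l28 (L l371 (T t29 N)))))))) (K a58 (M a192 (F (T t19 (L l371 (T t21 (L l54 (L l132 (L l239 (L l498 (T t31 N)))))))))) (K a15 (M a192 (F (T t1922 (L l325 (L l371 (T t20 (L l371 (L l469 (T t21 N))))))))) N)))))))))))))))⟩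
def e0_63__214_58 : Ent 4 := ⟨[a0, a63], [a214, a90], (M a12 (F (T t122 (T t151 (T t152 (T t153 (K a4 (M a60 (F (T t43 (L l480 (L l483 (T t398 (T t448 N))))))) (K a8 (M a60 (F (T t67 (L l480 (L l483 (T t398 (L l52 (L l56 (T t448 N))))))))) (K a21 (M a192 (F (T t836 (L l15 (L l347 (L l375 (T t450 (L l15 (L l347 (L l375 (T t157 N))))))))))) (K a25 (M a192 (F (T t449 (L l15 (L l375 (T t450 (L l375 (T t21 N)))))))) (K a29 (M a192 (F (T t449 (L l371 (L l375 (T t21 (L l130 (L l239 (T t160 N))))))))) (K a38 (M a192 (F (T t156 (L l375 (T t450 (L l375 (T t21 N))))))) (K a42 (M a192 (F (T t449 (L l375 (T t450 (L l56 (L l375 (T t157 N)))))))) (K a46 (M a192 (F (T t449 (L l375 (T t21 (L l26 (L l130 (L l239 (L l408 (T t160 N)))))))))) (K a51 (M a192 (F (T t1725 (L l375 (L l415 (T t450 (L l375 (L l439 (T t21 N))))))))) N)))))))))))))))⟩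
def e0_63__214_59 : Ent 4 := ⟨[a0, a63], [a214, a91], (M a85 (F (T t90 (L l239 (T t88 (L l294 (T t52 (L l239 (T t89 (K a64 (M a240 (F (T t386 (L l93 (L l239 (T t387 N)))))) (K a192 (M a16 (F (T t96 (L l339 (L l373 (L l481 (T t97 (L l239 (L l296 (T t98 N)))))))))) (K a21 (M a48 (F (T t99 (T t50 (L l47 (T t100 N)))))) (K a149 (M a16 (F (T t173 (L l373 (L l375 (L l481 (T t97 (L l93 (L l170 (T t102 N)))))))))) (K a213 (Fr a170 a255 l476 (Fr a42 a21 l68 (Fr a106 a234 l390 (Fr a192 a149 l519 (V t581))))) (K a42 (M a48 (F (T t364 (L l390 (T t50 (L l28 (T t100 N))))))) (K a106 (M a48 (F (T t99 (L l481 (T t1 (L l390 (T t50 N))))))) (K a170 (M a16 (F (L l404 (T t113 (L l239 (L l390 (T t98 (L l373 (L l390 (L l404 (L l481 (T t97 (L l404 (T t174 N)))))))))))))) (K a255 (M a16 (F (T t112 (L l289 (T t113 (L l239 (L l289 (L l296 (T t98 N))))))))) N))))))))))))))))))⟩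
def e0_63__214_60 : Ent 4 := ⟨[a0, a63], [a214, a92], (M a85 (F (T t90 (L l239 (T t88 (L l294 (T t52 (L l239 (T t89 (K a64 (M a16 (F (T t97 (L l84 (T t96 (L l90 (L l116 (L l239 (T t98 N))))))))) (K a192 (M a16 (F (T t96 (L l339 (T t97 (L l90 (L l239 (L l296 (T t98 N))))))))) (K a21 (M a48 (F (T t99 (T t50 (L l47 (T t100 N)))))) (K a149 (M a16 (F (T t173 (L l375 (T t97 (L l89 (L l170 (T t102 N)))))))) (K a213 (Fr a170 a255 l476 (Fr a42 a21 l68 (Fr a106 a234 l390 (Fr a192 a149 l519 (V t581))))) (K a42 (M a48 (F (T t364 (L l390 (T t50 (L l28 (T t100 N))))))) (K a106 (M a48 (F (T t1 (L l104 (T t509 (L l390 (T t50 N))))))) (K a170 (M a16 (F (L l404 (T t113 (L l90 (L l239 (L l390 (T t98 (L l390 (L l404 (T t97 (L l404 (T t174 N))))))))))))) (K a255 (M a16 (F (T t112 (L l289 (T t113 (L l90 (L l239 (L l289 (L l296 (T t98 N)))))))))) N))))))))))))))))))⟩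
def e0_63__214_61 : Ent 4 := ⟨[a0, a63], [a214, a93], (M a85 (F (T t90 (L l239 (T t88 (L l138 (L l294 (L l470 (T t52 (L l239 (T t89 (K a64 (M a240 (F (T t933 (L l89 (L l239 (T t387 N)))))) (K a192 (M a16 (F (T t1924 (L l339 (T t97 (L l239 (L l296 (L l362 (T t98 N))))))))) (K a21 (M a48 (F (T t873 (L l47 (L l138 (L l362 (T t100 (L l138 (T t50 N))))))))) (K a149 (M a16 (F (T t112 (L l362 (T t173 (L l89 (L l170 (T t102 N)))))))) (K a213 (Fr a170 a255 l476 (Fr a42 a21 l68 (Fr a106 a234 l390 (Fr a192 a149 l519 (V t581))))) (K a42 (M a48 (F (L l470 (T t364 (L l138 (L l390 (T t50 (L l28 (L l138 (L l362 (T t100 N))))))))))) (K a106 (M a48 (F (T t1 (L l104 (L l362 (T t509 (L l138 (L l390 (T t50 N))))))))) (K a170 (M a16 (F (L l390 (L l404 (T t97 (L l239 (L l362 (L l390 (T t98 (L l138 (L l362 (L l404 (T t113 (L l362 (L l404 (T t174 N)))))))))))))))) (K a255 (M a12 (F (T t1252 (L l138 (L l265 (L l359 (T t574 (L l239 (L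 l265 (L l296 (T t572 (L l239 (L l265 (L l296 (T t1923 N))))))))))))))) N))))))))))))))))))))⟩
def e0_63__214_62 : Ent 4 := ⟨[a0, a63], [a214, a94], (M a85 (F (T t90 (L l239 (T t88 (L l294 (T t52 (L l239 (T t89 (K a64 (M a240 (F (T t386 (L l89 (L l239 (T t387 N)))))) (K a192 (M a16 (F (T t96 (L l339 (L l363 (L l471 (T t97 (L l239 (L l296 (T t98 N)))))))))) (K a21 (M a48 (F (T t99 (T t50 (L l47 (T t100 N)))))) (K a149 (M a16 (F (T t173 (L l363 (L l375 (L l471 (T t97 (L l89 (L l170 (T t102 N)))))))))) (K a213 (Fr a170 a255 l476 (Fr a42 a21 l68 (Fr a106 a234 l390 (Fr a192 a149 l519 (V t581))))) (K a42 (M a48 (F (T t364 (L l390 (T t50 (L l28 (T t100 N))))))) (K a106 (M a48 (F (T t99 (L l471 (T t1 (L l390 (T t50 N))))))) (K a170 (M a16 (F (L l404 (T t113 (L l239 (L l390 (T t98 (L l363 (L l390 (L l404 (L l471 (T t97 (L l404 (T t174 N)))))))))))))) (K a255 (M a16 (F (T t112 (L l289 (T t113 (L l239 (L l289 (L l296 (T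 t98 N))))))))) N))))))))))))))))))⟩
def e0_63__214_63 : Ent 4 := ⟨[a0, a63], [a214, a95], (M a85 (F (T t90 (L l239 (T t88 (L l137 (L l294 (L l469 (T t52 (L l239 (T t89 (K a64 (M a252 (F (T t93 (L l93 (L l239 (T t497 N)))))) (K a192 (M a16 (F (T t112 (T t1924 (L l239 (L l296 (T t1925 N))))))) (K a21 (M a48 (F (T t873 (L l47 (L l137 (L l361 (T t100 (L l137 (T t50 N))))))))) (K a149 (M a48 (F (T t132 (L l220 (T t873 (L l137 (L l220 (T t50 N)))))))) (K a213 (Fr a170 a255 l476 (Fr a42 a21 l68 (Fr a106 a234 l390 (Fr a192 a149 l519 (V t581))))) (K a42 (M a48 (F (L l469 (T t364 (L l137 (L l390 (T t50 (L l28 (L l137 (L l361 (T t100 N))))))))))) (K a106 (M a48 (F (T t48 (L l104 (L l361 (T t509 (L l137 (L l390 (T t50 N))))))))) (K a170 (M a48 (F (T t607 (L l137 (L l361 (L l404 (T t100 (L l239 (L l390 (T t51 (L l239 (L l361 (L l390 (L l404 (T t568 N))))))))))))))) (K a255 (M a15 (F (T t1254 (L l137 (L l266 (L l361 (T t1497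 (L l239 (L l266 (L l296 (T t1484 (L l239 (L l266 (L l296 (T t1926 N))))))))))))))) N))))))))))))))))))))⟩
def e0_63__214_64 : Ent 4 := ⟨[a0, a63], [a214, a104], (M a48 (F (T t1 (T t2 (T t3 (T t0 (K a16 (M a60 (F (T t64 (L l14 (L l18 (T t67 (L l388 (T t65 N)))))))) (K a32 (M a60 (F (T t64 (T t67 (L l24 (L l28 (L l388 (T t65 N)))))))) (K a21 (M a192 (F (T t27 (L l47 (L l347 (T t20 (L l47 (L l347 (T t29 N))))))))) (K a37 (M a192 (F (T t225 (T t27 (T t21 N))))) (K a53 (M a192 (F (T t27 (L l491 (T t21 (L l98 (L l100 (L l239 (T t31 N))))))))) (K a26 (M a192 (F (T t27 (T t20 (T t21 N))))) (K a42 (M a192 (F (T t27 (T t20 (L l28 (T t29 N)))))) (K a58 (M a192 (F (T t27 (T t21 (L l54 (L l98 (L l100 (L l239 (L l498 (T t31 N)))))))))) (K a15 (M a192 (F (T t47 (L l483 (T t27 (L l325 (T t20 N))))))) N)))))))))))))))⟩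
def e0_63__214_65 : Ent 4 := ⟨[a0, a63], [a214, a105], (M a48 (F (T t1 (T t2 (T t3 (T t0 (K a16 (M a60 (F (T t42 (L l14 (L l18 (T t67 (L l392 (T t65 N)))))))) (K a32 (M a60 (F (T t67 (L l515 (T t64 (L l24 (L l28 (L l392 (T t65 N))))))))) (K a21 (M a192 (F (T t837 (L l47 (L l347 (L l515 (T t20 (L l47 (L l347 (L l515 (T t29 N))))))))))) (K a37 (M a192 (F (T t19 (L l47 (L l515 (T t20 (L l515 (T t21 N)))))))) (K a53 (M a192 (F (T t19 (L l491 (L l515 (T t21 (L l98 (L l239 (T t31 N))))))))) (K a26 (M a192 (F (T t27 (L l515 (T t20 (L l515 (T t21 N))))))) (K a42 (M a192 (F (T t19 (L l515 (T t20 (L l28 (L l515 (T t29 N)))))))) (K a58 (M a192 (F (T t19 (L l515 (T t21 (L l54 (L l98 (L l239 (L l498 (T t31 N)))))))))) (K a15 (M a192 (F (T t1922 (L l325 (L l515 (T t20 (L l469 (L l515 (T t21 N))))))))) N)))))))))))))))⟩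
def e0_63__214_66 : Ent 4 := ⟨[a0, a63], [a214, a106], (M a48 (F (T t1 (L l390 (L l498 (T t2 (L l411 (T t3 (L l390 (T t0 (K a16 (M a60 (F (T t64 (L l14 (L l18 (L l393 (T t67 (L l390 (L l498 (T t65 N)))))))))) (K a32 (M a60 (F (T t64 (L l393 (T t67 (L l24 (L l28 (L l390 (L l498 (T t65 N)))))))))) (K a21 (M a255 (F (T t511 (L l390 (T t512 (L l18 (L l144 (L l347 (L l498 (T t513 N)))))))))) (K a37 (M a52 (F (T t82 (L l498 (T t83 (L l21 (L l28 (L l390 (L l498 (T t84 N)))))))))) (K a53 (M a12 (F (T t443 (L l47 (T t122 (L l47 (T t146 N))))))) (K a26 (M a56 (F (T t133 (L l501 (T t134 (L l12 (L l18 (T t135 N)))))))) (K a42 (M a170 (F (T t316 (L l144 (T t514 (L l54 (L l104 (L l144 (L l498 (T t515 (L l54 (L l498 (T t516 N))))))))))))) (K a58 (M a12 (L l498 (F (T t122 (T t443 (T t146 (K a202 (M a154 (F (T t122 (L l104 (L l426 (T t517 N)))))) (K a154 (M a202 (F (T t122 (L l356 (L l368 (T t445 (L l356 (T t146 N)))))))) N))))))))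 (K a15 (M a4 (F (T t518 (L l73 (L l390 (T t519 (L l390 (L l498 (T t520 N))))))))) N)))))))))))))))))))⟩
def e0_63__214_67 : Ent 4 := ⟨[a0, a63], [a214, a107], (M a149 (F (L l239 (T t5 (L l294 (T t175 (L l239 (T t176 (L l98 (T t177 (K a192 (M a53 (F (T t178 (L l236 (T t179 (L l236 (L l239 (L l296 (T t180 N))))))))) (K a21 (M a48 (F (T t4 (L l98 (T t13 (L l18 (T t14 N))))))) (K a85 (M a16 (F (T t97 (L l98 (L l144 (T t190 (L l94 (T t278 N)))))))) (K a213 (Fr a106 a192 l519 (Fr a42 a21 l68 (Fr a170 a234 l390 (Fr a255 a85 l476 (V t582))))) (K a42 (M a48 (F (T t187 (L l98 (L l390 (T t13 (L l54 (T t14 N)))))))) (K a106 (M a105 (F (L l391 (L l516 (T t1932 (L l239 (L l390 (T t1931 (L l239 (L l348 (L l390 (L l391 (L l516 (T t1933 (L l390 (L l516 (T t1934 (L l239 (L l297 (L l516 (T t1935 N))))))))))))))))))))) (K a170 (M a48 (F (T t4 (L l462 (T t1 (L l98 (L l390 (T t13 N)))))))) (K a191 (M a16 (F (T t97 (L l98 (T t190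 (L l213 (L l239 (T t191 N)))))))) (K a255 (M a16 (F (T t112 (L l98 (L l266 (T t190 (L l239 (L l289 (L l296 (T t191 N)))))))))) N)))))))))))))))))))⟩
def e0_63__214_68 : Ent 4 := ⟨[a0, a63], [a214, a108], (M a149 (F (T t177 (L l239 (T t5 (L l294 (T t175 (L l239 (T t176 (K a192 (M a53 (F (T t178 (L l236 (T t179 (L l236 (L l239 (L l296 (T t180 N))))))))) (K a21 (M a48 (F (T t16 (T t13 (L l18 (T t14 N)))))) (K a85 (M a16 (F (T t97 (L l100 (L l144 (T t190 (L l94 (T t278 N)))))))) (K a213 (Fr a106 a192 l519 (Fr a42 a21 l68 (Fr a170 a234 l390 (Fr a255 a85 l476 (V t582))))) (K a42 (M a48 (F (T t187 (L l390 (T t13 (L l54 (T t14 N))))))) (K a106 (M a48 (F (T t1 (L l498 (T t14 (L l239 (L l390 (L l498 (T t6 (L l239 (L l390 (T t26 N)))))))))))) (K a170 (M a48 (F (T t11 (L l462 (T t1 (L l390 (T t13 N))))))) (K a191 (M a204 (F (T t1043 (L l99 (L l239 (T t1112 N)))))) (K a255 (M a16 (F (T t112 (L l100 (L l266 (T t190 (L l239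 (L l289 (L l296 (T t191 N)))))))))) N))))))))))))))))))⟩
def e0_63__214_69 : Ent 4 := ⟨[a0, a63], [a214, a109], (M a149 (F (T t177 (L l239 (T t5 (L l294 (T t175 (L l239 (T t176 (K a192 (M a53 (F (T t178 (L l236 (L l398 (T t179 (L l236 (L l239 (L l296 (T t180 N)))))))))) (K a21 (M a48 (F (T t4 (T t13 (L l18 (L l398 (T t14 N))))))) (K a85 (M a16 (F (T t97 (L l144 (T t190 (L l94 (T t278 N))))))) (K a213 (Fr a106 a192 l519 (Fr a42 a21 l68 (Fr a170 a234 l390 (Fr a255 a85 l476 (V t582))))) (K a42 (M a48 (F (T t11 (L l390 (T t13 (L l54 (L l398 (T t14 N)))))))) (K a106 (M a48 (F (T t1 (L l398 (L l498 (T t14 (L l239 (L l390 (L l498 (T t6 (L l239 (L l390 (T t26 N))))))))))))) (K a170 (M a48 (F (T t4 (L l462 (T t1 (L l390 (T t13 N))))))) (K a191 (M a204 (F (T t1043 (L l99 (L l239 (T t1112 N)))))) (K a255 (M a16 (F (T t112 (L l266 (T t190 (L l239 (L l289 (L l296 (T t191 N))))))))) N))))))))))))))))))⟩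
def e0_63__214_70 : Ent 4 := ⟨[a0, a63], [a214, a110], (M a149 (F (L l239 (T t5 (L l294 (T t175 (L l239 (T t176 (L l102 (T t177 (K a192 (M a53 (F (T t178 (L l236 (T t179 (L l236 (L l239 (L l296 (T t180 N))))))))) (K a21 (M a48 (F (T t4 (L l102 (T t13 (L l18 (T t14 N))))))) (K a85 (M a16 (F (T t97 (L l102 (L l144 (T t190 (L l94 (T t278 N)))))))) (K a213 (Fr a106 a192 l519 (Fr a42 a21 l68 (Fr a170 a234 l390 (Fr a255 a85 l476 (V t582))))) (K a42 (M a48 (F (T t187 (L l102 (L l390 (T t13 (L l54 (T t14 N)))))))) (K a106 (M a102 (F (L l501 (T t1206 (L l239 (L l390 (T t1202 (L l396 (L l501 (T t1203 (L l239 (L l390 (L l501 (T t1204 (L l390 (L l501 (T t1205 N))))))))))))))))) (K a170 (M a48 (F (T t4 (L l462 (T t1 (L l102 (L l390 (T t13 N)))))))) (K a191 (M a16 (F (T t97 (L l102 (T t190 (L l213 (L l239 (T t191 N)))))))) (K a255 (M a16 (F (T t112 (L l102 (L l266 (T t190 (L l239 (L l289 (L l296 (T t191 N)))))))))) N)))))))))))))))))))⟩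
def e0_63__214_71 : Ent 4 := ⟨[a0, a63], [a214, a111], (M a48 (F (T t1 (T t2 (L l397 (T t3 (T t0 (K a16 (M a60 (F (T t43 (T t64 (T t65 N))))) (K a32 (M a60 (F (T t67 (T t64 (L l24 (L l28 (T t65 N))))))) (K a21 (M a192 (F (L l104 (T t206 (T t27 (L l47 (L l347 (T t29 N)))))))) (K a37 (M a192 (F (T t19 (L l104 (T t206 (L l137 (T t21 N))))))) (K a53 (M a192 (F (T t19 (L l137 (L l491 (T t21 (L l104 (L l239 (T t521 N))))))))) (K a26 (M a192 (F (T t27 (L l54 (L l104 (T t206 (L l137 (T t21 N)))))))) (K a42 (M a192 (F (T t19 (L l54 (L l104 (L l390 (T t206 (L l28 (T t29 N))))))))) (K a58 (M a192 (F (T t19 (L l137 (T t21 (L l54 (L l104 (L l239 (L l498 (T t521 N)))))))))) (K a15 (M a106 (F (T t2289 (L l294 (T t306 N))))) N))))))))))))))))⟩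
def e0_63__214_72 : Ent 4 := ⟨[a0, a63], [a214, a124], (M a149 (F (L l239 (T t25 (L l294 (T t175 (L l239 (T t176 (L l140 (T t177 (K a192 (M a53 (F (T t178 (L l236 (T t179 (L l236 (L l239 (L l296 (T t180 N))))))))) (K a21 (M a48 (F (T t4 (L l110 (T t13 (L l18 (T t14 N))))))) (K a85 (M a16 (F (T t97 (L l144 (T t190 (L l94 (T t278 N))))))) (K a213 (Fr a106 a192 l519 (Fr a42 a21 l68 (Fr a170 a234 l390 (Fr a255 a85 l476 (V t582))))) (K a42 (M a48 (F (T t187 (L l110 (L l390 (T t13 (L l54 (T t14 N)))))))) (K a106 (M a48 (F (T t1 (L l498 (T t14 (L l239 (L l390 (L l498 (T t6 (L l239 (L l390 (T t26 N)))))))))))) (K a170 (M a48 (F (T t4 (L l462 (T t1 (L l110 (L l390 (T t13 N)))))))) (K a191 (M a16 (F (T t97 (T t190 (L l213 (L l239 (T t191 N))))))) (K a255 (M a16 (F (T t112 (L l266 (T t190 (L l239 (L l289 (L l296 (T t191 N))))))))) N)))))))))))))))))))⟩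
def e0_63__214_73 : Ent 4 := ⟨[a0, a63], [a214, a125], (M a85 (F (T t90 (L l239 (T t88 (L l109 (L l294 (L l434 (T t52 (L l239 (T t89 (K a64 (M a16 (F (T t97 (L l84 (T t96 (L l116 (L l239 (T t98 N)))))))) (K a192 (M a16 (F (T t96 (L l339 (T t97 (L l239 (L l296 (T t98 N)))))))) (K a21 (M a48 (F (T t1699 (L l47 (L l109 (T t100 (L l109 (L l111 (T t50 N))))))))) (K a149 (M a16 (F (T t173 (L l375 (T t97 (L l170 (T t102 N))))))) (K a213 (Fr a170 a255 l476 (Fr a42 a21 l68 (Fr a106 a234 l390 (Fr a192 a149 l519 (V t581))))) (K a42 (M a48 (F (L l28 (T t1699 (L l109 (L l111 (L l390 (T t50 (L l28 (L l109 (T t100 N))))))))))) (K a106 (M a48 (F (T t1 (L l104 (T t509 (L l109 (L l111 (L l390 (T t50 N))))))))) (K a170 (M a16 (F (L l390 (L l404 (T t97 (L l239 (L l390 (T t98 (L l109 (L l404 (T t113 (L l404 (T t174 N))))))))))))) (K a255 (M a60 (F (T t522 (L l109 (L l239 (L l294 (L l295 (L l431 (T t523 (L l239 (L l295 (T t117 (L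 l239 (L l295 (L l296 (L l297 (T t524 N))))))))))))))))) N))))))))))))))))))))⟩
def e0_63__214_74 : Ent 4 := ⟨[a0, a63], [a214, a126], (M a48 (F (T t1 (T t2 (T t3 (T t0 (K a16 (M a60 (F (T t43 (T t64 (T t65 N))))) (K a32 (M a60 (F (T t67 (T t64 (L l24 (L l28 (T t65 N))))))) (K a21 (M a192 (F (T t837 (L l47 (L l347 (T t20 (L l47 (L l347 (T t29 N))))))))) (K a37 (M a192 (F (T t19 (L l47 (T t20 (L l109 (T t21 N))))))) (K a53 (M a192 (F (T t19 (L l109 (L l491 (T t21 (L l142 (L l239 (T t31 N))))))))) (K a26 (M a192 (F (T t27 (T t20 (L l109 (T t21 N)))))) (K a42 (M a192 (F (T t19 (T t20 (L l28 (T t29 N)))))) (K a58 (M a192 (F (T t19 (L l109 (T t21 (L l54 (L l142 (L l239 (L l498 (T t31 N)))))))))) (K a15 (M a192 (F (T t56 (L l483 (T t27 (L l109 (L l469 (T t21 N)))))))) N)))))))))))))))⟩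
def e0_63__214_75 : Ent 4 := ⟨[a0, a63], [a214, a127], (M a48 (F (T t1 (T t2 (T t3 (T t0 (K a16 (M a60 (F (T t43 (T t64 (T t65 N))))) (K a32 (M a60 (F (T t67 (T t64 (L l24 (L l28 (T t65 N))))))) (K a21 (M a192 (F (T t28 (L l47 (L l347 (T t20 (L l18 (L l144 (T t224 N))))))))) (K a37 (M a192 (F (T t19 (L l47 (T t20 (L l28 (L l144 (L l239 (T t37 N))))))))) (K a53 (M a192 (F (T t19 (L l144 (L l239 (T t37 (L l47 (L l137 (L l294 (L l491 (T t525 N))))))))))) (K a26 (M a192 (F (T t28 (T t20 (L l54 (L l144 (L l239 (T t37 N)))))))) (K a42 (M a192 (F (T t19 (T t20 (L l54 (L l144 (L l390 (T t224 N)))))))) (K a58 (M a192 (F (T t19 (L l54 (L l144 (L l239 (L l498 (T t37 (L l137 (L l294 (T t525 N))))))))))) (K a15 (M a192 (F (T t56 (L l114 (L l483 (T t27 (L l144 (L l239 (L l469 (T t37 N)))))))))) N)))))))))))))))⟩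
def e0_63__214_76 : Ent 4 := ⟨[a0, a63], [a214, a128], (M a48 (F (T t1 (T t2 (T t3 (T t0 (K a16 (M a60 (F (T t43 (T t64 (T t65 N))))) (K a32 (M a60 (F (T t67 (T t64 (L l24 (L l28 (T t65 N))))))) (K a21 (M a154 (F (T t822 (L l47 (L l192 (T t473 (L l47 (T t527 N)))))))) (K a37 (M a52 (F (T t82 (T t83 (L l21 (L l28 (T t84 N))))))) (K a53 (M a12 (F (T t151 (T t443 (L l47 (T t146 N)))))) (K a26 (M a56 (F (T t133 (T t134 (L l12 (L l18 (T t135 N))))))) (K a42 (M a154 (F (T t4139 (L l192 (T t473 (L l28 (T t527 N))))))) (K a58 (M a12 (F (T t443 (T t122 (T t146 N))))) (K a15 (M a4 (F (T t129 (L l63 (T t528 (T t520 N)))))) N)))))))))))))))⟩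
def e0_63__214_77 : Ent 4 := ⟨[a0, a63], [a214, a129], (M a149 (F (T t177 (L l239 (L l309 (T t5 (L l152 (L l294 (L l309 (T t175 (L l239 (T t176 (K a192 (M a3 (F (T t85 (L l152 (L l239 (L l292 (L l294 (L l305 (T t615 (L l239 (L l292 (T t5979 (L l239 (L l292 (L l296 (L l297 (T t1244 N))))))))))))))))) (K a21 (M a48 (F (T t16 (L l152 (T t13 (L l18 (L l152 (T t14 N)))))))) (K a85 (M a16 (F (T t97 (L l144 (T t190 (L l94 (T t278 N))))))) (K a213 (Fr a106 a192 l519 (Fr a42 a21 l68 (Fr a170 a234 l390 (Fr a255 a85 l476 (V t582))))) (K a42 (M a48 (F (L l54 (T t16 (L l152 (L l390 (T t13 (L l54 (L l152 (T t14 N)))))))))) (K a106 (M a48 (F (T t1 (L l152 (L l498 (T t14 (L l239 (L l390 (L l498 (T t6 (L l239 (L l390 (T t26 N))))))))))))) (K a170 (M a48 (F (T t184 (L l462 (T t1 (L l152 (L l390 (T t13 N)))))))) (K a191 (M a240 (F (T t962 (L l157 (L l239 (T t963 N)))))) (K a255 (M a16 (F (T t112 (L l266 (T t190 (L l239 (L l289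 (L l296 (T t191 N))))))))) N)))))))))))))))))))))⟩
def e0_63__214_78 : Ent 4 := ⟨[a0, a63], [a214, a130], (M a48 (F (T t1 (T t2 (T t3 (T t0 (K a16 (M a60 (F (T t43 (T t64 (T t65 N))))) (K a32 (M a60 (F (T t67 (T t64 (L l24 (L l28 (T t65 N))))))) (K a21 (M a192 (F (T t837 (L l47 (L l347 (T t20 (L l47 (L l347 (T t29 N))))))))) (K a37 (M a192 (F (T t19 (L l47 (T t20 (L l152 (T t21 N))))))) (K a53 (M a192 (F (T t19 (L l152 (L l491 (T t21 (L l239 (T t31 N)))))))) (K a26 (M a192 (F (T t837 (T t20 (L l152 (T t21 N)))))) (K a42 (M a192 (F (T t19 (T t20 (L l28 (T t29 N)))))) (K a58 (M a192 (F (T t19 (L l152 (T t21 (L l54 (L l239 (L l498 (T t31 N))))))))) (K a15 (M a192 (F (T t54 (L l152 (L l483 (T t27 (L l152 (L l469 (T t21 N))))))))) N)))))))))))))))⟩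
def e0_63__214_79 : Ent 4 := ⟨[a0, a63], [a214, a131], (M a85 (F (L l239 (T t88 (L l294 (T t52 (L l239 (T t89 (L l219 (T t90 (K a64 (M a252 (F (T t93 (L l239 (T t497 N))))) (K a192 (M a16 (F (T t96 (L l339 (T t97 (L l239 (L l296 (T t98 N)))))))) (K a21 (M a48 (F (T t99 (L l197 (T t50 (L l47 (T t100 N))))))) (K a149 (M a16 (F (T t173 (L l375 (T t97 (L l170 (T t102 N))))))) (K a213 (Fr a170 a255 l476 (Fr a42 a21 l68 (Fr a106 a234 l390 (Fr a192 a149 l519 (V t581))))) (K a42 (M a48 (F (T t364 (L l197 (L l390 (T t50 (L l28 (T t100 N)))))))) (K a106 (M a48 (F (T t1 (L l104 (T t509 (L l197 (L l390 (T t50 N)))))))) (K a170 (M a16 (F (L l404 (T t113 (L l239 (L l390 (T t98 (L l390 (L l404 (T t97 (L l404 (T t174 N)))))))))))) (K a255 (M a16 (F (T t112 (L l289 (T t113 (L l239 (L l289 (L l296 (T t98 N))))))))) N)))))))))))))))))))⟩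
def e0_63__214_80 : Ent 4 := ⟨[a0, a63], [a214, a132], (M a149 (F (T t177 (L l239 (L l334 (T t5 (L l156 (L l294 (L l334 (T t175 (L l239 (T t176 (K a192 (M a12 (F (T t1252 (L l156 (L l272 (L l310 (T t649 (L l239 (L l272 (L l296 (T t960 (L l239 (L l272 (L l296 (T t1253 N))))))))))))))) (K a21 (M a48 (F (T t16 (L l156 (T t13 (L l18 (L l156 (T t14 N)))))))) (K a85 (M a16 (F (T t97 (L l144 (T t190 (L l94 (T t278 N))))))) (K a213 (Fr a106 a192 l519 (Fr a42 a21 l68 (Fr a170 a234 l390 (Fr a255 a85 l476 (V t582))))) (K a42 (M a48 (F (L l54 (T t16 (L l156 (L l390 (T t13 (L l54 (L l156 (T t14 N)))))))))) (K a106 (M a48 (F (T t1 (L l156 (L l498 (T t14 (L l239 (L l390 (L l498 (T t6 (L l239 (L l390 (T t26 N))))))))))))) (K a170 (M a48 (F (T t184 (L l462 (T t1 (L l156 (L l390 (T t13 N)))))))) (K a191 (M a240 (F (T t962 (L l153 (L l239 (T t963 N)))))) (K a255 (M a16 (F (T t112 (L l266 (T t190 (L l239 (L l289 (L l296 (T t191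 N))))))))) N)))))))))))))))))))))⟩
def e0_63__214_81 : Ent 4 := ⟨[a0, a63], [a214, a133], (M a149 (F (T t177 (L l239 (L l339 (T t5 (L l160 (L l294 (L l339 (T t175 (L l239 (T t176 (K a192 (M a15 (F (T t1254 (L l160 (L l268 (L l311 (T t1026 (L l239 (L l268 (L l296 (T t1031 (L l239 (L l268 (L l296 (T t1255 N))))))))))))))) (K a21 (M a48 (F (T t7 (L l18 (L l160 (L l311 (T t14 (L l160 (T t13 N))))))))) (K a85 (M a16 (F (T t504 (L l144 (T t190 (L l94 (T t278 N))))))) (K a213 (Fr a106 a192 l519 (Fr a42 a21 l68 (Fr a170 a234 l390 (Fr a255 a85 l476 (V t582))))) (K a42 (M a48 (F (L l339 (T t187 (L l160 (L l390 (T t13 (L l54 (L l160 (L l311 (T t14 N))))))))))) (K a106 (M a48 (F (T t48 (L l160 (L l311 (L l498 (T t14 (L l239 (L l390 (T t26 (L l239 (L l311 (L l390 (L l498 (T t6 N))))))))))))))) (K a170 (M a48 (F (T t607 (L l339 (T t11 (L l160 (L l390 (T t13 N)))))))) (K a191 (M a16 (F (T t504 (T t190 (L l213 (L l239 (T t191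 N))))))) (K a255 (M a16 (F (T t504 (L l266 (T t190 (L l239 (L l289 (L l296 (T t191 N))))))))) N)))))))))))))))))))))⟩
def e0_63__214_82 : Ent 4 := ⟨[a0, a63], [a214, a134], (M a149 (F (T t177 (L l239 (T t5 (L l294 (T t175 (L l239 (T t176 (K a192 (M a53 (F (T t178 (L l236 (T t179 (L l236 (L l239 (L l296 (L l314 (T t180 N)))))))))) (K a21 (M a48 (F (T t4 (T t13 (L l18 (T t14 N)))))) (K a85 (M a16 (F (T t97 (L l144 (T t190 (L l94 (T t278 N))))))) (K a213 (Fr a106 a192 l519 (Fr a42 a21 l68 (Fr a170 a234 l390 (Fr a255 a85 l476 (V t582))))) (K a42 (M a48 (F (T t187 (L l390 (T t13 (L l54 (T t14 N))))))) (K a106 (M a48 (F (T t1 (L l498 (T t14 (L l239 (L l390 (L l498 (T t6 (L l239 (L l390 (T t26 N)))))))))))) (K a170 (M a48 (F (T t4 (L l462 (T t1 (L l390 (T t13 N))))))) (K a191 (M a240 (F (T t962 (L l153 (L l239 (T t963 N)))))) (K a255 (M a16 (F (T t112 (L l266 (T t190 (L l239 (L l289 (L l296 (T t191 N))))))))) N))))))))))))))))))⟩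
def e0_63__214_83 : Ent 4 := ⟨[a0, a63], [a214, a135], (M a149 (F (T t177 (L l239 (T t5 (L l294 (T t175 (L l239 (T t176 (K a192 (M a53 (F (T t178 (L l236 (T t179 (L l236 (L l239 (L l296 (T t180 N))))))))) (K a21 (M a48 (F (T t4 (T t13 (L l18 (T t14 N)))))) (K a85 (M a16 (F (T t504 (L l144 (T t190 (L l94 (T t278 N))))))) (K a213 (Fr a106 a192 l519 (Fr a42 a21 l68 (Fr a170 a234 l390 (Fr a255 a85 l476 (V t582))))) (K a42 (M a48 (F (T t187 (L l390 (T t13 (L l54 (T t14 N))))))) (K a106 (M a48 (F (T t48 (L l498 (T t14 (L l239 (L l390 (L l498 (T t6 (L l239 (L l390 (T t26 N)))))))))))) (K a170 (M a48 (F (T t4 (L l337 (L l462 (T t1 (L l390 (T t13 N)))))))) (K a191 (M a240 (F (T t962 (L l153 (L l239 (T t963 N)))))) (K a255 (M a16 (F (T t112 (L l266 (T t190 (L l239 (L l289 (L l296 (T t191 N))))))))) N))))))))))))))))))⟩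
def e0_63__214_84 : Ent 4 := ⟨[a0, a63], [a214, a136], (M a85 (F (L l239 (T t88 (L l294 (T t52 (L l239 (T t89 (L l208 (T t90 (K a64 (M a252 (F (L l208 (T t91 (L l204 (L l239 (T t497 N))))))) (K a192 (M a16 (F (T t96 (L l339 (T t97 (L l239 (L l296 (T t98 N)))))))) (K a21 (M a48 (F (T t99 (L l208 (T t50 (L l47 (T t100 N))))))) (K a149 (M a16 (F (T t173 (L l375 (T t97 (L l170 (T t102 N))))))) (K a213 (Fr a170 a255 l476 (Fr a42 a21 l68 (Fr a106 a234 l390 (Fr a192 a149 l519 (V t581))))) (K a42 (M a48 (F (T t364 (L l208 (L l390 (T t50 (L l28 (T t100 N)))))))) (K a106 (M a48 (F (T t1 (L l104 (T t509 (L l208 (L l390 (T t50 N)))))))) (K a170 (M a153 (F (L l316 (L l402 (T t1989 (L l239 (L l390 (T t1988 (L l239 (L l390 (L l402 (T t1990 (L l390 (L l402 (T t1991 (L l402 (T t1992 N))))))))))))))))) (K a255 (M a16 (F (T t112 (L l289 (T t113 (L l239 (L l289 (L l296 (T t98 N))))))))) N)))))))))))))))))))⟩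
def e0_63__214_85 : Ent 4 := ⟨[a0, a63], [a214, a137], (M a85 (F (T t90 (L l239 (T t88 (L l294 (T t52 (L l239 (T t89 (K a64 (M a204 (F (T t1575 (L l154 (L l239 (T t1576 N)))))) (K a192 (M a16 (F (T t260 (L l339 (T t97 (L l239 (L l296 (T t98 N)))))))) (K a21 (M a48 (F (T t99 (T t50 (L l47 (T t100 N)))))) (K a149 (M a16 (F (T t112 (L l329 (T t173 (L l170 (T t102 N))))))) (K a213 (Fr a170 a255 l476 (Fr a42 a21 l68 (Fr a106 a234 l390 (Fr a192 a149 l519 (V t581))))) (K a42 (M a48 (F (T t364 (L l390 (T t50 (L l28 (T t100 N))))))) (K a106 (M a48 (F (T t1 (L l104 (L l329 (T t509 (L l390 (T t50 N)))))))) (K a170 (M a16 (F (L l404 (T t113 (L l239 (L l390 (T t98 (L l390 (L l404 (T t97 (L l404 (T t174 N)))))))))))) (K a255 (M a16 (F (T t112 (L l289 (T t113 (L l239 (L l289 (L l296 (T t98 N))))))))) N))))))))))))))))))⟩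
def e0_63__214_86 : Ent 4 := ⟨[a0, a63], [a214, a138], (M a48 (F (T t2 (L l318 (T t1 (T t3 (T t0 (K a16 (M a60 (F (T t43 (T t64 (T t65 N))))) (K a32 (M a60 (F (T t64 (T t67 (L l24 (L l28 (T t65 N))))))) (K a21 (M a192 (F (T t837 (L l47 (L l318 (L l347 (T t20 (L l47 (L l318 (L l347 (T t29 N))))))))))) (K a37 (M a192 (F (T t19 (L l47 (L l318 (T t20 (L l160 (T t21 N)))))))) (K a53 (M a192 (F (T t19 (L l160 (L l491 (T t21 (L l239 (T t31 N)))))))) (K a26 (M a192 (F (T t837 (L l318 (T t20 (L l160 (T t21 N))))))) (K a42 (M a192 (F (T t19 (L l318 (T t20 (L l28 (L l318 (T t29 N)))))))) (K a58 (M a192 (F (T t19 (L l160 (T t21 (L l54 (L l239 (L l498 (T t31 N))))))))) (K a15 (M a170 (F (T t2101 (L l294 (T t324 N))))) N))))))))))))))))⟩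
def e0_63__214_87 : Ent 4 := ⟨[a0, a63], [a214, a139], (M a85 (F (T t90 (L l239 (T t88 (L l294 (T t52 (L l239 (T t89 (K a64 (M a204 (F (T t1744 (L l154 (L l239 (T t1576 N)))))) (K a192 (M a16 (F (T t96 (L l339 (T t97 (L l239 (L l296 (T t98 N)))))))) (K a21 (M a48 (F (T t99 (T t50 (L l47 (T t100 N)))))) (K a149 (M a16 (F (T t112 (L l331 (T t173 (L l170 (L l209 (T t102 N)))))))) (K a213 (Fr a170 a255 l476 (Fr a42 a21 l68 (Fr a106 a234 l390 (Fr a192 a149 l519 (V t581))))) (K a42 (M a48 (F (T t364 (L l390 (T t50 (L l28 (T t100 N))))))) (K a106 (M a48 (F (T t1 (L l104 (T t509 (L l390 (T t50 N))))))) (K a170 (M a16 (F (L l404 (T t113 (L l239 (L l390 (T t98 (L l390 (L l404 (T t97 (L l331 (L l404 (T t174 N))))))))))))) (K a255 (M a16 (F (T t112 (L l289 (T t113 (L l239 (L l289 (L l296 (T t98 N))))))))) N))))))))))))))))))⟩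
def e0_63__214_88 : Ent 4 := ⟨[a0, a63], [a214, a140], (M a85 (F (L l239 (T t88 (L l294 (T t52 (L l239 (T t89 (L l214 (T t90 (K a64 (M a204 (F (L l214 (T t1575 (L l156 (L l239 (T t1576 N))))))) (K a192 (M a16 (F (T t96 (L l339 (T t97 (L l239 (L l296 (T t98 N)))))))) (K a21 (M a48 (F (T t99 (L l222 (T t50 (L l47 (T t100 N))))))) (K a149 (M a16 (F (T t173 (L l375 (T t97 (L l170 (T t102 N))))))) (K a213 (Fr a170 a255 l476 (Fr a42 a21 l68 (Fr a106 a234 l390 (Fr a192 a149 l519 (V t581))))) (K a42 (M a48 (F (T t364 (L l222 (L l390 (T t50 (L l28 (T t100 N)))))))) (K a106 (M a48 (F (T t1 (L l104 (T t509 (L l222 (L l390 (T t50 N)))))))) (K a170 (M a16 (F (L l404 (T t113 (L l239 (L l390 (T t98 (L l390 (L l404 (T t97 (L l404 (T t174 N)))))))))))) (K a255 (M a16 (F (T t112 (L l289 (T t113 (L l239 (L l289 (L l296 (T t98 N))))))))) N)))))))))))))))))))⟩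
def e0_63__214_89 : Ent 4 := ⟨[a0, a63], [a214, a141], (M a85 (F (T t90 (L l239 (T t88 (L l294 (T t52 (L l239 (T t89 (K a64 (M a252 (F (T t91 (L l239 (T t497 N))))) (K a192 (M a16 (F (T t96 (L l327 (L l339 (T t97 (L l239 (L l296 (T t98 N))))))))) (K a21 (M a48 (F (T t99 (T t50 (L l47 (T t100 N)))))) (K a149 (M a16 (F (T t173 (L l327 (L l375 (T t97 (L l170 (T t102 N)))))))) (K a213 (Fr a170 a255 l476 (Fr a42 a21 l68 (Fr a106 a234 l390 (Fr a192 a149 l519 (V t581))))) (K a42 (M a48 (F (T t364 (L l390 (T t50 (L l28 (T t100 N))))))) (K a106 (M a48 (F (T t99 (L l327 (T t1 (L l390 (T t50 N))))))) (K a170 (M a16 (F (L l404 (T t113 (L l239 (L l390 (T t98 (L l327 (L l390 (L l404 (T t97 (L l404 (T t174 N))))))))))))) (K a255 (M a16 (F (T t112 (L l289 (T t113 (L l239 (L l289 (L l296 (T t98 N))))))))) N))))))))))))))))))⟩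
def e0_63__214_90 : Ent 4 := ⟨[a0, a63], [a214, a142], (M a85 (F (T t90 (L l239 (T t88 (L l294 (T t52 (L l239 (T t89 (K a64 (M a16 (F (T t97 (L l84 (T t96 (L l116 (L l239 (T t98 N)))))))) (K a192 (M a16 (F (T t96 (L l339 (T t97 (L l239 (L l296 (T t98 N)))))))) (K a21 (M a48 (F (T t99 (T t50 (L l47 (T t100 N)))))) (K a149 (M a16 (F (T t112 (L l326 (T t173 (L l170 (L l224 (T t102 N)))))))) (K a213 (Fr a170 a255 l476 (Fr a42 a21 l68 (Fr a106 a234 l390 (Fr a192 a149 l519 (V t581))))) (K a42 (M a48 (F (T t364 (L l390 (T t50 (L l28 (T t100 N))))))) (K a106 (M a48 (F (T t1 (L l104 (T t509 (L l390 (T t50 N))))))) (K a170 (M a16 (F (L l404 (T t113 (L l239 (L l390 (T t98 (L l390 (L l404 (T t97 (L l326 (L l404 (T t174 N))))))))))))) (K a255 (M a16 (F (T t112 (L l289 (T t113 (L l239 (L l289 (L l296 (T t98 N))))))))) N))))))))))))))))))⟩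
def e0_63__214_91 : Ent 4 := ⟨[a0, a63], [a214, a143], (M a85 (F (L l239 (T t88 (L l294 (T t52 (L l239 (T t89 (L l213 (T t90 (K a64 (M a16 (F (T t258 (T t112 (L l116 (L l213 (L l239 (T t98 N)))))))) (K a192 (M a16 (F (T t96 (T t112 (L l213 (L l239 (L l296 (T t98 N)))))))) (K a21 (M a48 (F (T t99 (L l47 (T t903 (L l47 (T t100 N))))))) (K a149 (M a16 (F (T t112 (T t666 (L l170 (L l227 (T t102 N))))))) (K a213 (Fr a170 a255 l476 (Fr a42 a21 l68 (Fr a106 a234 l390 (Fr a192 a149 l519 (V t581))))) (K a42 (M a48 (F (T t364 (L l390 (T t903 (L l28 (T t100 N))))))) (K a106 (M a48 (F (T t99 (T t48 (L l227 (L l390 (T t50 N))))))) (K a170 (M a16 (F (L l404 (T t113 (L l213 (L l239 (L l390 (T t98 (L l325 (L l390 (L l404 (T t97 (L l325 (L l404 (T t174 N))))))))))))))) (K a255 (M a16 (F (T t112 (L l289 (T t113 (L l213 (L l239 (L l289 (L l296 (T t98 N)))))))))) N)))))))))))))))))))⟩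
def e0_63__214_92 : Ent 4 := ⟨[a0, a63], [a214, a148], (M a149 (F (T t177 (L l239 (L l514 (T t5 (L l216 (L l294 (L l514 (T t175 (L l239 (T t176 (K a192 (M a60 (F (T t522 (L l216 (L l228 (L l346 (T t462 (L l228 (L l239 (L l296 (T t1256 (L l239 (L l296 (T t5980 N)))))))))))))) (K a21 (M a48 (F (T t16 (L l166 (L l216 (T t13 (L l18 (L l216 (T t14 N))))))))) (K a85 (M a16 (F (T t97 (L l144 (L l370 (T t190 (L l94 (L l166 (T t278 N))))))))) (K a213 (Fr a106 a192 l519 (Fr a42 a21 l68 (Fr a170 a234 l390 (Fr a255 a85 l476 (V t582))))) (K a42 (M a48 (F (L l54 (T t16 (L l166 (L l216 (L l390 (T t13 (L l54 (L l216 (T t14 N))))))))))) (K a106 (M a48 (F (T t1 (L l216 (L l498 (T t14 (L l239 (L l390 (L l498 (T t6 (L l166 (L l239 (L l390 (T t26 N)))))))))))))) (K a170 (M a48 (F (T t184 (L l462 (T t1 (L l166 (L l216 (L l390 (T t13 N))))))))) (K a191 (M a16 (F (T t97 (L l370 (T t190 (L l213 (L l239 (T t191 N)))))))) (K a255 (M a16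 (F (T t112 (L l266 (L l370 (T t190 (L l239 (L l289 (L l296 (T t191 N)))))))))) N)))))))))))))))))))))⟩
def e0_63__214_93 : Ent 4 := ⟨[a0, a63], [a214, a149], (M a48 (F (T t2 (L l347 (L l491 (T t1 (L l347 (T t3 (L l375 (T t0 (K a16 (M a60 (F (T t70 (L l14 (L l18 (L l347 (T t67 (L l351 (T t65 N))))))))) (K a32 (M a60 (F (T t70 (L l347 (T t67 (L l24 (L l28 (L l351 (T t65 N))))))))) (K a21 (M a85 (F (T t99 (L l220 (T t50 (L l47 (L l170 (L l220 (L l491 (T t544 (L l47 (L l491 (T t545 N))))))))))))) (K a37 (M a52 (F (T t82 (L l495 (T t83 (L l21 (L l28 (T t84 N)))))))) (K a53 (M a12 (L l491 (F (T t151 (T t443 (L l47 (L l347 (L l371 (T t146 (K a197 (M a101 (F (T t151 (L l236 (T t334 N))))) (K a101 (M a197 (F (T t151 (T t445 (L l47 (L l347 (L l371 (T t146 N)))))))) N))))))))))) (K a26 (M a56 (F (T t133 (L l491 (T t134 (L l12 (L l18 (L l347 (L l491 (T t135 N)))))))))) (K a42 (M a255 (F (T t546 (L l347 (T t547 (L l28 (L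 l220 (L l390 (L l491 (T t548 N)))))))))) (K a58 (M a12 (F (T t443 (L l347 (L l371 (T t122 (L l347 (L l371 (T t146 N))))))))) (K a15 (M a4 (F (T t129 (L l63 (T t528 (T t520 N)))))) N)))))))))))))))))))⟩
def e0_63__214_94 : Ent 4 := ⟨[a0, a63], [a214, a150], (M a3 (L l348 (F (T t632 (L l350 (L l518 (T t137 (L l518 (T t353 (L l518 (T t665 (L l516 (L l518 (T t358 (K a60 (M a86 (L l518 (F (L l221 (T t5981 (L l239 (L l514 (T t1262 (L l239 (L l294 (T t1229 (K a105 (M a195 (F (L l430 (T t5982 (L l98 (L l239 (L l516 (T t5983 (L l98 (L l434 (T t5819 N))))))))))) (K a195 (M a105 (L l297 (F (L l221 (T t5984 (L l294 (L l295 (L l434 (T t5985 (L l239 (L l294 (T t1229 (K a252 (M a233 (L l430 (F (L l239 (L l350 (T t5986 (L l294 (L l516 (T t5987 (L l239 (L l261 (L l292 (L l294 (T t5988 (K a124 (M a188 (F (L l294 (L l516 (T t5987 (L l239 (L l350 (T t5986 (L l239 (L l261 (L l292 (L l294 (T t1229 N))))))))))))) (K a188 (Fr a124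 a67 l145 (V t5988)) N)))))))))))))))) (K a233 (Fr a252 a169 l477 (V t5989)) N)))))))))))))) N))))))))))))) (K a1 (M a51 (L l348 (F (T t1294 (T t842 (L l350 (T t843 (K a22 (M a86 (F (L l239 (T t1262 (L l66 (T t1294 N)))))) (K a86 (M a22 (F (T t5990 (L l369 (L l518 (T t5991 N)))))) N))))))))) (K a21 (M a86 (F (L l239 (T t1262 (L l297 (T t5982 (L l65 (L l239 (L l294 (T t1229 N)))))))))) (K a41 (M a86 (F (L l297 (T t5992 (L l65 (L l294 (L l350 (T t5993 (L l22 (L l65 (L l239 (L l294 (T t1229 N))))))))))))) (K a2 (M a170 (L l348 (F (L l294 (T t2190 (L l297 (L l350 (L l518 (T t3492 (L l294 (T t5994 (K a22 (M a86 (L l66 (F (T t5995 (L l239 (L l297 (T t1227 (L l11 (L l294 (T t317 (K a42 (M a62 (F (T t5995 (L l22 (L l239 (L l306 (T t1262 (L l22 (L l350 (T t5996 N)))))))))) (K a62 (Fr a42 a21 l68 (V t5997)) N)))))))))))) (K a86 (M a22 (F (T t5998 (L l294 (T t317 (L l87 (L l145 (L l297 (L l350 (L l518 (T t3492 N)))))))))))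 N))))))))))))) (K a42 (M a86 (F (L l297 (T t5992 (L l294 (L l350 (T t5993 (L l22 (L l239 (L l294 (T t1229 N))))))))))) (K a23 (M a149 (L l348 (F (L l239 (T t5 (L l297 (L l516 (L l518 (T t1883 (L l239 (T t617 (K a22 (M a86 (L l11 (F (T t5999 (L l221 (L l294 (T t1264 (L l66 (L l218 (L l239 (T t25 (K a20 (Fr a21 a42 l68 (V t6000)) (K a21 (M a20 (F (T t5999 (L l65 (L l221 (L l294 (T t1264 (L l65 (L l516 (T t6001 N)))))))))) N))))))))))))) (K a86 (M a22 (F (T t6002 (L l239 (T t5 (L l142 (L l145 (L l297 (L l516 (L l518 (T t1883 N))))))))))) N))))))))))))) (K a43 (M a48 (L l348 (F (T t86 (T t1 (L l372 (T t847 (K a22 (M a86 (F (L l294 (T t5985 (L l11 (T t1 N)))))) (K a86 (M a22 (F (T t6002 (L l372 (L l459 (T t6003 N)))))) N))))))))) (K a22 (M a86 (F (L l221 (T t5159 (L l239 (T t1262 (L l239 (L l294 (T t1229 N))))))))) (K a86 (M a22 (F (T t6004 (T t6005 (T t3299 N))))) N))))))))))))))))))))))))⟩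
def e0_63__214_95 : Ent 4 := ⟨[a0, a63], [a214, a151], (M a48 (F (T t1 (T t2 (T t3 (L l373 (T t0 (K a16 (M a60 (F (T t64 (L l14 (L l18 (T t67 (L l349 (T t65 N)))))))) (K a32 (M a60 (F (T t64 (T t67 (L l24 (L l28 (L l349 (T t65 N)))))))) (K a21 (M a192 (F (T t837 (L l47 (L l163 (L l347 (T t20 (L l47 (L l163 (L l347 (T t29 N))))))))))) (K a37 (M a192 (F (T t19 (L l47 (L l163 (T t20 (L l163 (T t21 N)))))))) (K a53 (M a192 (F (T t19 (L l163 (L l491 (T t21 (L l169 (L l239 (T t31 N))))))))) (K a26 (M a192 (F (T t27 (L l163 (T t20 (L l163 (T t21 N))))))) (K a42 (M a192 (F (T t19 (L l163 (T t20 (L l28 (L l163 (T t29 N)))))))) (K a58 (M a192 (F (T t19 (L l163 (T t21 (L l54 (L l169 (L l239 (L l498 (T t31 N)))))))))) (K a15 (M a192 (F (T t53 (L l483 (T t27 (L l163 (L l469 (T t21 N)))))))) N))))))))))))))))⟩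
def e0_63__214_96 : Ent 4 := ⟨[a0, a63], [a214, a152], (M a85 (F (T t90 (L l239 (T t88 (L l294 (T t52 (L l239 (T t89 (K a64 (M a204 (F (T t1575 (L l204 (L l239 (T t1576 N)))))) (K a192 (M a16 (F (T t96 (L l339 (T t97 (L l239 (L l296 (T t98 N)))))))) (K a21 (M a48 (F (T t99 (L l222 (T t50 (L l47 (T t100 N))))))) (K a149 (M a16 (F (T t173 (L l375 (T t97 (L l164 (L l170 (T t102 N)))))))) (K a213 (Fr a170 a255 l476 (Fr a42 a21 l68 (Fr a106 a234 l390 (Fr a192 a149 l519 (V t581))))) (K a42 (M a48 (F (L l28 (T t99 (L l222 (L l390 (T t50 (L l28 (T t100 N))))))))) (K a106 (M a48 (F (T t1 (L l104 (T t509 (L l222 (L l390 (T t50 N)))))))) (K a170 (M a16 (F (L l404 (T t113 (L l239 (L l390 (T t98 (L l390 (L l404 (T t97 (L l404 (T t174 N)))))))))))) (K a255 (M a16 (F (T t112 (L l289 (T t113 (L l239 (L l289 (L l296 (T t98 N))))))))) N))))))))))))))))))⟩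
def e0_63__214_97 : Ent 4 := ⟨[a0, a63], [a214, a153], (M a48 (F (T t1 (T t2 (T t3 (T t0 (K a16 (M a60 (F (T t43 (L l513 (T t64 (T t65 N)))))) (K a32 (M a60 (F (T t67 (L l513 (T t64 (L l24 (L l28 (T t65 N)))))))) (K a21 (M a192 (F (T t837 (L l47 (L l167 (L l347 (T t20 (L l47 (L l167 (L l347 (T t29 N))))))))))) (K a37 (M a192 (F (T t19 (L l47 (L l167 (T t20 (L l167 (T t21 N)))))))) (K a53 (M a192 (F (T t19 (L l167 (L l491 (T t21 (L l239 (L l501 (T t31 N))))))))) (K a26 (M a192 (F (T t27 (L l167 (T t20 (L l167 (T t21 N))))))) (K a42 (M a192 (F (T t19 (L l167 (T t20 (L l28 (L l167 (T t29 N)))))))) (K a58 (M a192 (F (T t19 (L l167 (T t21 (L l54 (L l239 (L l498 (L l501 (T t31 N)))))))))) (K a15 (M a192 (F (T t1922 (L l167 (L l325 (T t20 (L l167 (L l469 (T t21 N))))))))) N)))))))))))))))⟩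
def e0_63__214_98 : Ent 4 := ⟨[a0, a63], [a214, a154], (M a12 (F (T t122 (T t151 (T t152 (T t153 (K a4 (M a60 (F (T t43 (T t398 (T t448 N))))) (K a8 (M a60 (F (T t67 (T t398 (L l52 (L l56 (T t448 N))))))) (K a21 (M a192 (F (T t836 (L l15 (L l170 (L l347 (T t450 (L l15 (L l170 (L l347 (T t157 N))))))))))) (K a25 (M a192 (F (T t449 (L l15 (L l170 (T t450 (L l170 (T t21 N)))))))) (K a29 (M a192 (F (T t449 (L l170 (L l371 (T t21 (L l239 (L l498 (T t160 N))))))))) (K a38 (M a192 (F (T t156 (L l170 (T t450 (L l170 (T t21 N))))))) (K a42 (M a192 (F (T t449 (L l170 (T t450 (L l56 (L l170 (T t157 N)))))))) (K a46 (M a192 (F (T t449 (L l170 (T t21 (L l26 (L l239 (L l408 (L l498 (T t160 N)))))))))) (K a51 (M a192 (F (T t1725 (L l170 (L l415 (T t450 (L l170 (L l439 (T t21 N))))))))) N)))))))))))))))⟩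
def e0_63__214_99 : Ent 4 := ⟨[a0, a63], [a214, a155], (M a85 (F (T t90 (L l239 (T t88 (L l294 (T t52 (L l239 (T t89 (K a64 (M a252 (F (T t91 (L l239 (L l367 (T t497 N)))))) (K a192 (M a16 (F (T t1924 (L l339 (T t97 (L l169 (L l239 (L l296 (L l367 (T t98 N)))))))))) (K a21 (M a48 (F (T t1243 (L l47 (L l367 (T t100 (T t50 N))))))) (K a149 (M a16 (F (T t112 (L l367 (L l511 (T t173 (L l164 (L l170 (T t102 N))))))))) (K a213 (Fr a170 a255 l476 (Fr a42 a21 l68 (Fr a106 a234 l390 (Fr a192 a149 l519 (V t581))))) (K a42 (M a48 (F (T t364 (L l390 (T t50 (L l28 (L l367 (T t100 N)))))))) (K a106 (M a48 (F (T t364 (T t1 (L l390 (T t50 N)))))) (K a170 (M a16 (F (L l390 (L l404 (T t97 (L l169 (L l239 (L l367 (L l390 (T t98 (L l367 (L l404 (T t113 (L l367 (L l404 (L l511 (T t174 N))))))))))))))))) (K a255 (M a16 (F (T t112 (L l289 (L l367 (T t113 (L l169 (L l239 (L l289 (L l296 (L l367 (T t98 N)))))))))))) N))))))))))))))))))⟩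
def e0_63__214_100 : Ent 4 := ⟨[a0, a63], [a214, a156], (M a85 (F (T t90 (L l239 (T t88 (L l294 (T t52 (L l239 (T t89 (K a64 (M a16 (F (T t97 (L l84 (T t96 (L l116 (L l165 (L l239 (T t98 N))))))))) (K a192 (M a16 (F (T t96 (L l339 (T t97 (L l165 (L l239 (L l296 (T t98 N))))))))) (K a21 (M a48 (F (T t99 (T t50 (L l47 (T t100 N)))))) (K a149 (M a16 (F (T t173 (L l375 (T t97 (L l170 (T t102 N))))))) (K a213 (Fr a170 a255 l476 (Fr a42 a21 l68 (Fr a106 a234 l390 (Fr a192 a149 l519 (V t581))))) (K a42 (M a48 (F (T t364 (L l390 (T t50 (L l28 (T t100 N))))))) (K a106 (M a48 (F (T t1 (L l104 (T t509 (L l390 (T t50 N))))))) (K a170 (M a16 (F (L l404 (T t113 (L l165 (L l239 (L l390 (T t98 (L l390 (L l404 (T t97 (L l404 (T t174 N))))))))))))) (K a255 (M a16 (F (T t112 (L l289 (T t113 (L l165 (L l239 (L l289 (L l296 (T t98 N)))))))))) N))))))))))))))))))⟩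
def e0_63__214_101 : Ent 4 := ⟨[a0, a63], [a214, a157], (M a48 (F (T t1 (T t2 (T t3 (L l363 (T t0 (K a16 (M a60 (F (T t43 (L l503 (T t64 (T t65 N)))))) (K a32 (M a60 (F (T t67 (L l503 (T t64 (L l24 (L l28 (T t65 N)))))))) (K a21 (M a192 (F (T t837 (L l47 (L l167 (L l347 (T t20 (L l47 (L l167 (L l347 (T t29 N))))))))))) (K a37 (M a192 (F (T t19 (L l47 (L l167 (T t20 (L l167 (T t21 N)))))))) (K a53 (M a192 (F (T t19 (L l167 (L l491 (T t21 (L l165 (L l239 (T t31 N))))))))) (K a26 (M a192 (F (T t27 (L l167 (T t20 (L l167 (T t21 N))))))) (K a42 (M a192 (F (T t19 (L l167 (T t20 (L l28 (L l167 (T t29 N)))))))) (K a58 (M a192 (F (T t19 (L l167 (T t21 (L l54 (L l165 (L l239 (L l498 (T t31 N)))))))))) (K a15 (M a192 (F (T t53 (L l483 (T t27 (L l167 (L l469 (T t21 N)))))))) N))))))))))))))))⟩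
def e0_63__214_102 : Ent 4 := ⟨[a0, a63], [a214, a158], (M a149 (F (T t177 (L l239 (T t5 (L l294 (T t175 (L l239 (T t176 (K a192 (M a53 (F (T t178 (L l236 (T t179 (L l236 (L l239 (L l296 (T t180 N))))))))) (K a21 (M a48 (F (T t4 (T t13 (L l18 (T t14 N)))))) (K a85 (M a16 (F (T t97 (L l144 (T t190 (L l94 (T t278 N))))))) (K a213 (Fr a106 a192 l519 (Fr a42 a21 l68 (Fr a170 a234 l390 (Fr a255 a85 l476 (V t582))))) (K a42 (M a48 (F (T t187 (L l390 (T t13 (L l54 (T t14 N))))))) (K a106 (M a48 (F (T t1 (L l498 (T t14 (L l239 (L l390 (L l498 (T t6 (L l239 (L l362 (L l390 (T t26 N))))))))))))) (K a170 (M a48 (F (T t4 (L l462 (T t1 (L l390 (T t13 N))))))) (K a191 (M a204 (F (T t1043 (L l239 (L l504 (T t1112 N)))))) (K a255 (M a16 (F (T t112 (L l266 (T t190 (L l165 (L l239 (L l289 (L l296 (L l362 (T t191 N))))))))))) N))))))))))))))))))⟩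
def e0_63__214_103 : Ent 4 := ⟨[a0, a63], [a214, a159], (M a48 (F (T t1 (T t2 (T t3 (L l361 (T t0 (K a16 (M a60 (F (T t43 (T t64 (T t65 N))))) (K a32 (M a60 (F (T t67 (T t64 (L l24 (L l28 (T t65 N))))))) (K a21 (M a192 (F (T t837 (L l47 (L l170 (L l347 (T t20 (L l18 (T t224 N))))))))) (K a37 (M a192 (F (T t837 (L l47 (L l170 (T t20 (L l213 (T t202 N)))))))) (K a53 (M a192 (F (T t837 (L l213 (T t202 (L l47 (L l170 (L l294 (L l491 (T t838 N)))))))))) (K a26 (M a192 (F (T t837 (L l170 (T t20 (L l213 (T t202 N))))))) (K a42 (M a192 (F (T t837 (L l170 (T t20 (L l54 (L l390 (T t224 N)))))))) (K a58 (M a192 (F (T t837 (L l213 (L l498 (T t202 (L l170 (L l294 (T t838 N))))))))) (K a15 (M a149 (F (T t1274 (L l239 (T t6 N))))) N))))))))))))))))⟩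
def e0_63__214_104 : Ent 4 := ⟨[a0, a63], [a214, a168], (M a85 (F (L l239 (T t88 (L l294 (T t52 (L l239 (T t89 (L l174 (T t90 (K a64 (M a16 (F (L l400 (T t97 (L l84 (T t666 (L l116 (L l239 (T t98 N))))))))) (K a192 (M a16 (F (L l400 (T t96 (T t966 (L l339 (L l400 (T t97 N)))))))) (K a21 (M a48 (F (L l400 (T t99 (L l174 (T t50 (L l47 (L l400 (T t100 N))))))))) (K a149 (M a16 (F (T t666 (L l375 (L l400 (T t97 (L l170 (T t102 N)))))))) (K a213 (Fr a170 a255 l476 (Fr a42 a21 l68 (Fr a106 a234 l390 (Fr a192 a149 l519 (V t581))))) (K a42 (M a48 (F (T t364 (L l174 (L l390 (T t50 (L l28 (L l400 (T t100 N))))))))) (K a106 (M a48 (F (T t1 (L l104 (L l400 (T t509 (L l174 (L l390 (T t50 N))))))))) (K a170 (M a169 (F (L l388 (L l474 (T t2025 (L l239 (L l390 (T t2024 (L l239 (L l348 (L l390 (L l474 (T t2026 (L l390 (L l474 (T t2027 (L l239 (L l297 (L l474 (T t2028 N)))))))))))))))))))) (K a255 (M a16 (F (L l400 (T t112 (L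 l239 (L l289 (L l296 (T t98 (L l289 (L l400 (T t113 N))))))))))) N)))))))))))))))))))⟩
def e0_63__214_105 : Ent 4 := ⟨[a0, a63], [a214, a169], (M a48 (F (T t1 (T t2 (T t3 (T t0 (K a16 (M a60 (F (T t64 (L l14 (L l18 (L l393 (L l477 (T t67 (T t65 N))))))))) (K a32 (M a60 (F (T t64 (L l393 (L l477 (T t67 (L l24 (L l28 (T t65 N))))))))) (K a21 (M a192 (F (T t837 (L l47 (L l217 (L l347 (T t20 (L l47 (L l217 (L l347 (T t29 N))))))))))) (K a37 (M a192 (F (T t19 (L l47 (L l217 (T t20 (L l217 (T t21 N)))))))) (K a53 (M a192 (F (T t19 (L l217 (L l491 (T t21 (L l239 (L l393 (T t31 N))))))))) (K a26 (M a192 (F (T t27 (L l217 (T t20 (L l217 (T t21 N))))))) (K a42 (M a192 (F (T t19 (L l217 (T t20 (L l28 (L l217 (T t29 N)))))))) (K a58 (M a192 (F (T t19 (L l217 (T t21 (L l54 (L l239 (L l393 (L l498 (T t31 N)))))))))) (K a15 (M a192 (F (T t1922 (L l217 (L l325 (T t20 (L l217 (L l469 (T t21 N))))))))) N)))))))))))))))⟩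
def e0_63__214_106 : Ent 4 := ⟨[a0, a63], [a214, a170], (M a48 (F (T t3 (L l462 (T t1 (L l390 (T t2 (L l390 (L l404 (T t0 (K a16 (M a60 (F (T t64 (L l14 (L l18 (T t67 (L l390 (L l392 (T t65 N))))))))) (K a32 (M a60 (L l404 (F (T t64 (T t67 (L l24 (L l28 (L l390 (L l392 (T t65 (K a101 (M a239 (F (T t451 (L l28 (L l390 (T t69 (L l24 (L l28 (L l390 (L l392 (T t65 N))))))))))) (K a239 (M a101 (F (T t67 (L l376 (T t313 N))))) N)))))))))))) (K a21 (M a192 (F (T t837 (L l390 (T t206 (L l47 (L l220 (L l347 (L l404 (T t29 N)))))))))) (K a37 (M a192 (F (T t19 (L l390 (T t206 (L l28 (L l47 (L l220 (L l404 (T t29 N)))))))))) (K a53 (M a12 (F (T t550 (L l47 (L l402 (T t122 (L l47 (L l402 (T t146 N))))))))) (K a26 (M a192 (F (T t837 (L l54 (L l390 (T t206 (L l220 (L l404 (T t29 N))))))))) (K a42 (M a106 (F (T t309 (L l220 (T t551 (L l28 (L l206 (L l220 (L l404 (T t552 (L l28 (L l206 (L l404 (T t553 N)))))))))))))) (K a58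 (M a12 (F (T t445 (L l402 (T t122 (L l402 (T t146 N))))))) (K a15 (M a192 (F (L l483 (T t19 (L l325 (L l390 (T t206 (L l220 (L l404 (T t29 N)))))))))) N)))))))))))))))))))⟩
def e0_63__214_107 : Ent 4 := ⟨[a0, a63], [a214, a171], (M a48 (F (T t1 (T t2 (T t3 (T t0 (K a16 (M a60 (F (T t64 (L l14 (L l18 (L l391 (L l475 (T t67 (T t65 N))))))))) (K a32 (M a60 (F (T t64 (L l391 (L l475 (T t67 (L l24 (L l28 (T t65 N))))))))) (K a21 (M a192 (F (T t837 (L l47 (L l347 (T t20 (L l47 (L l347 (T t29 N))))))))) (K a37 (M a192 (F (T t19 (L l47 (T t20 (L l475 (T t21 N))))))) (K a53 (M a192 (F (T t19 (L l475 (L l491 (T t21 (L l239 (T t31 N)))))))) (K a26 (M a192 (F (T t837 (T t20 (L l475 (T t21 N)))))) (K a42 (M a192 (F (T t19 (T t20 (L l28 (T t29 N)))))) (K a58 (M a192 (F (T t19 (L l475 (T t21 (L l54 (L l239 (L l498 (T t31 N))))))))) (K a15 (M a192 (F (T t47 (L l483 (T t27 (L l325 (T t20 N))))))) N)))))))))))))))⟩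
def e0_63__214_108 : Ent 4 := ⟨[a0, a63], [a214, a172], (M a85 (F (T t90 (L l239 (T t88 (L l294 (T t52 (L l239 (T t89 (K a64 (M a240 (F (T t386 (L l176 (L l239 (T t387 N)))))) (K a192 (M a16 (F (T t96 (L l339 (T t97 (L l239 (L l296 (T t98 N)))))))) (K a21 (M a48 (F (T t99 (T t50 (L l47 (T t100 N)))))) (K a149 (M a16 (F (T t173 (L l375 (T t97 (L l170 (T t102 N))))))) (K a213 (Fr a170 a255 l476 (Fr a42 a21 l68 (Fr a106 a234 l390 (Fr a192 a149 l519 (V t581))))) (K a42 (M a48 (F (T t364 (L l390 (T t50 (L l28 (T t100 N))))))) (K a106 (M a48 (F (T t1 (L l104 (T t509 (L l390 (T t50 N))))))) (K a170 (M a16 (F (L l404 (T t113 (L l239 (L l390 (T t98 (L l390 (L l404 (T t97 (L l404 (T t174 N)))))))))))) (K a255 (M a16 (F (T t112 (L l289 (T t113 (L l239 (L l289 (L l296 (T t98 N))))))))) N))))))))))))))))))⟩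
def e0_63__214_109 : Ent 4 := ⟨[a0, a63], [a214, a173], (M a149 (F (T t177 (L l239 (T t5 (L l294 (T t175 (L l239 (T t176 (K a192 (M a53 (F (T t178 (L l236 (T t179 (L l236 (L l239 (L l296 (T t180 N))))))))) (K a21 (M a48 (F (T t4 (T t13 (L l18 (T t14 N)))))) (K a85 (M a16 (F (T t504 (L l144 (T t190 (L l94 (T t278 N))))))) (K a213 (Fr a106 a192 l519 (Fr a42 a21 l68 (Fr a170 a234 l390 (Fr a255 a85 l476 (V t582))))) (K a42 (M a48 (F (T t187 (L l390 (T t13 (L l54 (T t14 N))))))) (K a106 (M a48 (F (T t48 (L l498 (T t14 (L l239 (L l390 (L l498 (T t6 (L l239 (L l390 (T t26 N)))))))))))) (K a170 (M a48 (F (T t4 (L l462 (L l471 (T t1 (L l390 (T t13 N)))))))) (K a191 (M a204 (F (T t1043 (L l239 (L l399 (T t1112 N)))))) (K a255 (M a16 (F (T t112 (L l266 (T t190 (L l239 (L l289 (L l296 (T t191 N))))))))) N))))))))))))))))))⟩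
def e0_63__214_110 : Ent 4 := ⟨[a0, a63], [a214, a174], (M a85 (F (L l239 (T t88 (L l294 (L l470 (T t52 (L l239 (T t89 (L l178 (L l214 (T t90 (K a64 (M a252 (F (L l239 (T t497 (L l178 (T t93 N)))))) (K a192 (M a16 (F (T t96 (L l339 (T t97 (L l239 (L l296 (T t98 N)))))))) (K a21 (M a48 (F (T t1699 (L l47 (T t100 (L l178 (T t50 N))))))) (K a149 (M a16 (F (T t173 (L l375 (T t97 (L l170 (T t102 N))))))) (K a213 (Fr a170 a255 l476 (Fr a42 a21 l68 (Fr a106 a234 l390 (Fr a192 a149 l519 (V t581))))) (K a42 (M a48 (F (L l28 (T t509 (L l178 (L l390 (T t50 (L l28 (T t100 N))))))))) (K a106 (M a48 (F (T t1 (L l104 (T t509 (L l178 (L l390 (T t50 N)))))))) (K a170 (M a166 (F (L l464 (T t2019 (L l239 (L l390 (T t6006 (L l239 (L l390 (T t2020 (L l390 (L l396 (L l464 (T t2022 (L l396 (L l464 (T t2023 N))))))))))))))))) (K a255 (M a12 (F (T t150 (L l265 (T t574 (L l239 (L l296 (L l396 (T t154 (L l239 (L l265 (L l296 (T t572 N)))))))))))))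 N)))))))))))))))))))))⟩
def e0_63__214_111 : Ent 4 := ⟨[a0, a63], [a214, a175], (M a12 (F (T t122 (T t151 (T t152 (T t153 (K a4 (M a60 (F (T t43 (L l469 (T t398 (T t448 N)))))) (K a8 (M a60 (F (T t67 (L l469 (T t398 (L l52 (L l56 (T t448 N)))))))) (K a21 (M a192 (F (T t836 (L l15 (L l347 (T t450 (L l15 (L l347 (T t157 N))))))))) (K a25 (M a192 (F (T t449 (L l15 (T t450 (L l469 (T t21 N))))))) (K a29 (M a192 (F (T t449 (L l371 (L l469 (T t21 (L l239 (T t160 N)))))))) (K a38 (M a192 (F (T t836 (T t450 (L l469 (T t21 N)))))) (K a42 (M a192 (F (T t449 (T t450 (L l56 (T t157 N)))))) (K a46 (M a192 (F (T t449 (L l469 (T t21 (L l26 (L l239 (L l408 (T t160 N))))))))) (K a51 (M a192 (F (T t47 (L l513 (T t156 (L l415 (T t450 N))))))) N)))))))))))))))⟩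
def e0_63__214_112 : Ent 4 := ⟨[a0, a63], [a214, a188], (M a85 (F (L l239 (T t88 (L l294 (T t52 (L l239 (T t89 (L l185 (T t90 (K a64 (M a252 (F (L l185 (T t93 (L l216 (L l239 (T t497 N))))))) (K a192 (M a16 (F (T t96 (L l339 (T t97 (L l239 (L l296 (T t98 N)))))))) (K a21 (M a48 (F (T t99 (L l186 (T t50 (L l47 (T t100 N))))))) (K a149 (M a16 (F (T t173 (L l375 (T t97 (L l170 (T t102 N))))))) (K a213 (Fr a170 a255 l476 (Fr a42 a21 l68 (Fr a106 a234 l390 (Fr a192 a149 l519 (V t581))))) (K a42 (M a48 (F (T t364 (L l186 (L l390 (T t50 (L l28 (T t100 N)))))))) (K a106 (M a48 (F (T t1 (L l104 (T t509 (L l186 (L l390 (T t50 N)))))))) (K a170 (M a16 (F (L l404 (T t113 (L l239 (L l390 (T t98 (L l390 (L l404 (T t97 (L l404 (T t174 N)))))))))))) (K a255 (M a16 (F (T t112 (L l289 (T t113 (L l239 (L l289 (L l296 (T t98 N))))))))) N)))))))))))))))))))⟩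
def e0_63__214_113 : Ent 4 := ⟨[a0, a63], [a214, a189], (M a48 (F (T t1 (T t2 (T t3 (T t0 (K a16 (M a60 (F (T t43 (L l431 (T t64 (T t65 N)))))) (K a32 (M a60 (F (T t67 (L l431 (T t64 (L l24 (L l28 (T t65 N)))))))) (K a21 (M a192 (F (T t837 (L l47 (L l217 (L l347 (T t20 (L l47 (L l217 (L l347 (T t29 N))))))))))) (K a37 (M a192 (F (T t19 (L l47 (L l217 (T t20 (L l217 (T t21 N)))))))) (K a53 (M a192 (F (T t19 (L l217 (L l491 (T t21 (L l239 (T t31 N)))))))) (K a26 (M a192 (F (T t27 (L l217 (T t20 (L l217 (T t21 N))))))) (K a42 (M a192 (F (T t19 (L l217 (T t20 (L l28 (L l217 (T t29 N)))))))) (K a58 (M a192 (F (T t19 (L l217 (T t21 (L l54 (L l239 (L l498 (T t31 N))))))))) (K a15 (M a192 (F (T t54 (L l483 (T t27 (L l217 (L l469 (T t21 N)))))))) N)))))))))))))))⟩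
def e0_63__214_114 : Ent 4 := ⟨[a0, a63], [a214, a190], (M a48 (F (T t1 (T t2 (T t3 (T t0 (K a16 (M a60 (F (T t43 (T t64 (T t65 N))))) (K a32 (M a60 (F (T t67 (T t64 (L l24 (L l28 (T t65 N))))))) (K a21 (M a192 (F (T t837 (L l47 (L l347 (T t20 (L l47 (L l347 (T t29 N))))))))) (K a37 (M a192 (F (T t19 (L l47 (T t20 (L l434 (T t21 N))))))) (K a53 (M a192 (F (T t19 (L l434 (L l491 (T t21 (L l239 (T t31 N)))))))) (K a26 (M a192 (F (T t837 (T t20 (L l434 (T t21 N)))))) (K a42 (M a192 (F (T t19 (T t20 (L l28 (T t29 N)))))) (K a58 (M a192 (F (T t19 (L l434 (T t21 (L l54 (L l239 (L l498 (T t31 N))))))))) (K a15 (M a192 (F (T t47 (L l483 (T t27 (L l325 (T t20 N))))))) N)))))))))))))))⟩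
def e0_63__214_115 : Ent 4 := ⟨[a0, a63], [a214, a191], (M a48 (F (T t1 (T t2 (T t3 (T t0 (K a16 (M a60 (F (T t43 (T t64 (T t65 N))))) (K a32 (M a60 (F (T t67 (T t64 (L l24 (L l28 (T t65 N))))))) (K a21 (M a192 (F (T t28 (T t206 (L l47 (L l220 (L l347 (T t29 N)))))))) (K a37 (M a192 (F (T t19 (T t206 (L l47 (L l220 (L l294 (T t35 N)))))))) (K a53 (M a192 (F (T t19 (L l47 (L l220 (L l294 (L l491 (T t35 (L l213 (L l239 (T t31 N))))))))))) (K a26 (M a192 (F (T t28 (L l54 (T t206 (L l18 (L l220 (L l294 (T t35 N))))))))) (K a42 (M a192 (F (T t19 (L l54 (L l390 (T t206 (L l28 (L l220 (T t29 N))))))))) (K a58 (M a192 (F (T t19 (L l220 (L l294 (T t35 (L l54 (L l213 (L l239 (L l498 (T t31 N))))))))))) (K a15 (M a192 (F (T t53 (L l483 (T t19 (L l220 (L l294 (L l469 (T t35 N))))))))) N)))))))))))))))⟩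
def e0_63__214_116 : Ent 4 := ⟨[a0, a63], [a214, a192], (M a48 (F (T t48 (L l339 (T t1 (L l339 (T t2 (L l339 (T t3 (L l339 (T t0 (K a16 (M a60 (F (T t138 (L l14 (L l18 (L l309 (T t67 (T t65 N)))))))) (K a32 (M a60 (F (T t138 (L l309 (T t67 (L l24 (L l28 (T t65 N)))))))) (K a21 (M a255 (F (T t554 (L l236 (L l347 (T t547 (L l47 (L l236 (T t548 N))))))))) (K a37 (M a52 (F (T t555 (L l334 (T t82 (L l21 (L l28 (T t84 N)))))))) (K a53 (M a12 (F (T t145 (L l47 (L l489 (T t122 (L l47 (T t146 N)))))))) (K a26 (M a56 (F (T t556 (L l334 (T t133 (L l12 (L l18 (T t135 N)))))))) (K a42 (M a255 (F (T t1260 (L l54 (L l268 (T t1160 (L l28 (L l236 (L l390 (T t548 N)))))))))) (K a58 (M a12 (F (T t145 (L l489 (T t122 (T t146 N)))))) (K a15 (M a4 (L l339 (F (T t129 (L l63 (L l514 (T t528 (T t520 (K a133 (M a74 (F (T t558 (L l73 (L l489 (T t519 (T t520 N))))))) (K a74 (M a133 (F (T t558 (L l73 (L l489 (T t519 (T t520 N))))))) N))))))))))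 N))))))))))))))))))))⟩
def e0_63__214_117 : Ent 4 := ⟨[a0, a63], [a214, a193], (M a48 (F (T t1 (T t2 (T t3 (T t0 (K a16 (M a60 (F (T t43 (L l515 (T t64 (T t65 N)))))) (K a32 (M a60 (F (T t67 (L l515 (T t64 (L l24 (L l28 (T t65 N)))))))) (K a21 (M a192 (F (T t837 (L l47 (L l347 (L l515 (T t20 (L l47 (L l347 (L l515 (T t29 N))))))))))) (K a37 (M a192 (F (T t19 (L l47 (L l515 (T t20 (L l515 (T t21 N)))))))) (K a53 (M a192 (F (T t19 (L l491 (L l515 (T t21 (L l239 (L l293 (T t31 N))))))))) (K a26 (M a192 (F (T t27 (L l515 (T t20 (L l515 (T t21 N))))))) (K a42 (M a192 (F (T t19 (L l515 (T t20 (L l28 (L l515 (T t29 N)))))))) (K a58 (M a192 (F (T t19 (L l515 (T t21 (L l54 (L l239 (L l293 (L l498 (T t31 N)))))))))) (K a15 (M a149 (F (T t1274 (L l233 (L l239 (L l293 (T t6 N))))))) N)))))))))))))))⟩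
def e0_63__214_118 : Ent 4 := ⟨[a0, a63], [a214, a194], (M a48 (L l294 (F (T t1 (T t2 (T t3 (T t0 (K a16 (M a255 (L l294 (F (T t1169 (L l228 (T t1165 (L l239 (T t6007 (K a234 (M a254 (F (T t511 (L l306 (L l368 (T t6008 N)))))) (K a254 (M a234 (F (L l18 (T t6009 (L l438 (T t1160 N)))))) N)))))))))) (K a32 (M a255 (L l294 (F (T t1169 (L l228 (L l404 (T t1165 (L l28 (L l239 (L l404 (T t6007 (K a234 (M a254 (F (T t511 (L l306 (T t6008 N))))) (K a254 (M a234 (F (T t6009 (L l438 (T t1160 N))))) N))))))))))))) (K a21 (M a255 (L l294 (F (T t511 (L l347 (T t547 (L l47 (L l234 (T t548 (K a234 (M a254 (F (T t546 (L l306 (L l347 (T t6008 N)))))) (K a254 (M a234 (F (L l347 (T t6010 (L l438 (T t1160 N)))))) N))))))))))) (K a37 (M a170 (L l294 (F (T t316 (L l228 (T t2102 (T t3070 (K a234 (M a254 (F (T t4556 (L l47 (L l348 (L l516 (T t6011 N))))))) (K a254 (M a234 (F (T t6012 (L l261 (T t3204 N))))) N))))))))) (K a53 (M a192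 (L l294 (F (T t19 (L l491 (T t21 (L l239 (L l516 (T t31 (K a234 (M a254 (F (T t28 (L l390 (L l516 (T t202 (L l390 (L l516 (T t577 N))))))))) (K a254 (M a234 (F (L l491 (T t5291 (T t837 N))))) N))))))))))) (K a26 (M a170 (L l294 (F (T t323 (L l54 (L l239 (T t456 (L l18 (L l54 (T t3070 (K a234 (M a254 (F (T t6013 (L l18 (L l54 (L l256 (T t3070 N))))))) (K a254 (M a234 (F (T t6012 (T t4556 N)))) N)))))))))))) (K a42 (M a170 (L l294 (F (T t316 (L l54 (T t3070 (T t514 (K a234 (M a254 (F (T t6013 (L l54 (L l256 (T t3070 N)))))) (K a254 (M a234 (F (T t6014 (L l261 (T t3204 (L l54 (T t3070 N))))))) N))))))))) (K a58 (M a170 (L l294 (F (T t316 (L l54 (L l239 (T t456 (T t6015 (K a234 (M a254 (F (T t4556 (L l36 (L l348 (L l516 (T t6011 N))))))) (K a254 (M a234 (F (T t6012 (T t4556 N)))) N)))))))))) (K a15 (M a170 (L l294 (F (T t325 (L l239 (L l469 (T t456 (T t3070 (K a234 (M a254 (F (T t6016 (L l63 (L l348 (L l516 (T t6011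 N))))))) (K a254 (M a234 (F (T t6012 (L l261 (L l469 (T t3204 N)))))) N)))))))))) (K a234 (M a254 (F (T t1 (L l390 (T t2 (T t3 (L l390 (T t0 (K a16 (M a252 (F (T t6017 (L l18 (L l348 (L l390 (T t6018 N))))))) (K a32 (M a252 (F (T t6017 (L l348 (L l390 (L l404 (T t6018 N))))))) (K a21 (M a60 (F (T t248 (L l47 (L l65 (T t6019 N)))))) (K a37 (M a60 (F (T t880 (L l47 (T t6019 N))))) (K a53 (M a60 (F (T t880 (L l35 (L l348 (T t6020 N)))))) (K a26 (M a60 (F (T t248 (T t6019 N)))) (K a42 (M a170 (F (T t6013 (L l54 (L l256 (T t3070 N)))))) (K a58 (M a60 (F (T t880 (L l348 (T t6020 N))))) (K a15 (M a60 (F (T t3235 (T t6019 N)))) N))))))))))))))))) (K a254 (M a234 (F (T t1 (L l474 (T t6021 (L l474 (T t6022 (K a21 (M a192 (F (L l347 (T t6023 (T t837 N))))) (K a42 (M a192 (F (T t6024 (L l54 (L l516 (T t206 (T t837 N))))))) N))))))))) N))))))))))))))))))⟩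
def e0_63__214_119 : Ent 4 := ⟨[a0, a63], [a214, a195], (M a192 (L l297 (F (T t47 (L l295 (T t21 (L l294 (L l295 (T t35 (L l295 (T t202 (L l239 (L l295 (T t37 (K a64 (M a48 (L l297 (F (T t56 (L l337 (T t1 (L l116 (L l144 (L l239 (T t31 (K a252 (M a233 (F (T t610 (L l116 (L l144 (L l235 (L l291 (T t22 (L l294 (T t525 N)))))))))) (K a233 (M a252 (F (T t610 (L l76 (L l307 (T t5268 N)))))) N)))))))))))) (K a128 (M a48 (L l297 (F (T t54 (L l337 (T t1 (L l239 (T t31 (K a252 (M a233 (F (T t610 (L l235 (L l291 (T t22 (L l192 (L l220 (L l294 (T t525 N)))))))))) (K a233 (M a252 (F (T t54 (L l237 (L l257 (T t801 N)))))) N)))))))))) (K a21 (M a252 (F (T t5269 (L l239 (L l518 (T t5270 (L l347 (T t5271 N)))))))) (K a85 (M a252 (F (T t5272 (L l307 (L l347 (T t5268 (L l87 (L l144 (T t5273 N))))))))) (K a149 (M a48 (L l297 (F (T t1922 (L l337 (L l347 (L l491 (T t1 (L l170 (L l220 (L l337 (L l347 (L l491 (T t213 (L l337 (L l375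 (T t214 (K a252 (M a233 (F (T t132 (L l262 (L l273 (T t837 (L l170 (L l220 (L l337 (L l347 (L l471 (L l491 (T t213 (L l337 (L l375 (L l471 (T t214 N))))))))))))))))) (K a233 (M a252 (F (T t132 (L l518 (T t5274 N))))) N))))))))))))))))))) (K a42 (M a252 (F (T t5275 (L l307 (T t5268 (T t5271 N)))))) (K a106 (M a48 (L l297 (F (T t48 (L l273 (T t27 (L l337 (L l411 (T t213 (L l104 (L l144 (L l337 (L l390 (L l498 (T t214 (K a252 (M a233 (F (T t55 (L l337 (L l390 (L l471 (T t0 (L l337 (L l411 (L l471 (T t213 (L l104 (L l144 (L l337 (L l390 (L l471 (L l498 (T t214 N)))))))))))))))))) (K a233 (M a252 (F (T t48 (L l144 (L l518 (T t5274 N)))))) N))))))))))))))))) (K a170 (M a252 (F (L l518 (T t5274 (L l307 (L l390 (T t5276 (L l174 (L l220 (T t5271 N)))))))))) (K a255 (M a252 (L l295 (F (T t5277 (L l434 (L l518 (T t5278 (L l475 (T t5271 (K a215 (M a235 (L l239 (F (T t5272 (L l307 (L l475 (T t5279 (L l349 (L l475 (T t5271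 (K a212 (M a213 (F (T t5280 (L l346 (L l475 (T t5273 (L l346 (L l434 (L l518 (T t5281 (L l346 (L l350 (L l475 (T t5282 N)))))))))))))) (K a213 (Fr a212 a232 l292 (V t5283)) N)))))))))))) (K a235 (M a215 (F (T t5284 (L l307 (L l475 (T t5279 (L l475 (T t5271 N)))))))) N))))))))))) (K a252 (M a233 (F (T t47 (L l295 (L l477 (T t5285 (L l261 (L l518 (T t5286 (L l261 (L l295 (T t21 (L l261 (L l295 (T t202 (K a21 (M a48 (F (T t1922 (L l235 (L l291 (T t22 (L l47 (L l347 (T t29 N))))))))) (K a85 (M a16 (F (T t504 (L l262 (L l273 (T t210 (L l94 (L l144 (T t211 N))))))))) (K a149 (M a48 (F (T t132 (L l262 (L l273 (T t837 (L l170 (L l220 (L l337 (L l347 (L l471 (L l491 (T t213 (L l337 (L l375 (L l471 (T t214 N))))))))))))))))) (K a42 (M a48 (F (T t36 (L l235 (L l291 (L l390 (T t22 (L l28 (T t29 N))))))))) (K a106 (M a48 (F (T t55 (L l337 (L l390 (L l471 (T t0 (L l337 (L l411 (L l471 (T t213 (L l104 (L l144 (L l337 (L l390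 (L l471 (L l498 (T t214 N)))))))))))))))))) (K a170 (M a32 (F (T t612 (L l262 (L l273 (T t218 (L l180 (L l220 (T t220 N))))))))) (K a255 (M a208 (L l261 (L l295 (F (T t5287 (L l436 (L l440 (L l488 (T t4068 (T t1822 (K a253 (M a254 (L l295 (F (T t5287 (L l436 (L l440 (L l488 (T t4068 (T t1822 (K a215 (M a235 (L l239 (F (T t5288 (T t5289 (K a212 (M a213 (F (T t5280 (L l436 (L l440 (L l488 (T t4068 N))))))) (K a213 (M a212 (F (T t5288 (L l347 (T t5289 N))))) N))))))) (K a235 (M a215 (F (T t5287 (L l436 (L l440 (L l488 (T t4068 (T t1822 N)))))))) N))))))))))) (K a254 (M a253 (L l294 (L l295 (F (T t1820 (L l239 (T t5290 (K a194 (M a234 (L l295 (F (T t5292 (L l436 (L l440 (L l488 (T t4068 (K a215 (Fr a235 a232 l250 (V t5292)) (K a235 (M a215 (F (T t5291 (L l436 (L l440 (L l488 (T t4068 N))))))) N)))))))))) (K a234 (M a194 (L l295 (F (L l256 (T t5288 (L l239 (L l390 (T t5290 (K a215 (M a235 (L l239 (F (L l390 (T t5293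 (L l256 (L l436 (L l440 (L l488 (T t4068 (K a212 (Fr a213 a193 l293 (V t5012)) (K a213 (M a212 (F (L l256 (T t5288 (L l349 (L l390 (T t5294 N))))))) N)))))))))))) (K a235 (M a215 (F (L l256 (T t5288 (L l390 (T t5290 N)))))) N)))))))))) (K a215 (M a235 (L l239 (L l294 (F (T t1821 (L l436 (L l440 (L l488 (T t4068 (T t6025 (K a212 (Fr a213 a193 l293 (V t5280)) (K a213 (M a212 (L l294 (F (T t1820 (L l349 (T t5294 (K a194 (Fr a234 a232 l250 (V t5291)) (K a234 (M a194 (F (L l256 (T t5288 (L l349 (L l390 (T t5294 N))))))) N)))))))) (K a194 (Fr a234 a232 l250 (V t5292)) (K a234 (M a194 (L l239 (F (L l390 (T t5293 (L l256 (L l436 (L l440 (L l488 (T t4068 (K a212 (Fr a213 a193 l293 (V t5012)) (K a213 (M a212 (F (L l256 (T t5288 (L l349 (L l390 (T t5294 N))))))) N)))))))))))) N)))))))))))))) (K a235 (M a215 (L l294 (F (T t1820 (T t5290 (K a194 (M a234 (F (T t5291 (L l436 (L l440 (L l488 (T t4068 N))))))) (K a234 (M a194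 (F (L l256 (T t5288 (L l390 (T t5290 N)))))) N))))))) N))))))))))) (K a215 (M a235 (L l239 (L l261 (F (T t1820 (L l294 (T t5289 (K a212 (M a213 (L l261 (F (T t5012 (L l436 (L l440 (L l488 (T t4068 (K a253 (M a254 (F (T t5280 (L l436 (L l440 (L l488 (T t4068 N))))))) (K a254 (Fr a253 a193 l293 (V t5280)) N)))))))))) (K a213 (M a212 (L l261 (F (T t1820 (L l349 (T t5294 (K a253 (M a254 (F (T t5288 (L l347 (T t5289 N))))) (K a254 (M a253 (L l294 (F (T t1820 (L l349 (T t5294 (K a194 (Fr a234 a232 l250 (V t5291)) (K a234 (M a194 (F (L l256 (T t5288 (L l349 (L l390 (T t5294 N))))))) N)))))))) N)))))))) (K a253 (M a254 (L l239 (F (T t5288 (T t5289 (K a212 (M a213 (F (T t5280 (L l436 (L l440 (L l488 (T t4068 N))))))) (K a213 (M a212 (F (T t5288 (L l347 (T t5289 N))))) N))))))) (K a254 (M a253 (L l239 (L l294 (F (T t1821 (L l436 (L l440 (L l488 (T t4068 (T t6025 (K a212 (Fr a213 a193 l293 (V t5280)) (K a213 (M a212 (L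 l294 (F (T t1820 (L l349 (T t5294 (K a194 (Fr a234 a232 l250 (V t5291)) (K a234 (M a194 (F (L l256 (T t5288 (L l349 (L l390 (T t5294 N))))))) N)))))))) (K a194 (Fr a234 a232 l250 (V t5292)) (K a234 (M a194 (L l239 (F (L l390 (T t5293 (L l256 (L l436 (L l440 (L l488 (T t4068 (K a212 (Fr a213 a193 l293 (V t5012)) (K a213 (M a212 (F (L l256 (T t5288 (L l349 (L l390 (T t5294 N))))))) N)))))))))))) N)))))))))))))) N))))))))))) (K a235 (M a215 (L l261 (F (T t5287 (L l436 (L l440 (L l488 (T t4068 (T t1822 (K a253 (M a254 (F (T t5287 (L l436 (L l440 (L l488 (T t4068 (T t1822 N)))))))) (K a254 (M a253 (L l294 (F (T t1820 (T t5290 (K a194 (M a234 (F (T t5291 (L l436 (L l440 (L l488 (T t4068 N))))))) (K a234 (M a194 (F (L l256 (T t5288 (L l390 (T t5290 N)))))) N))))))) N))))))))))) N)))))))))))))) N)))))))))))))))))))))) (K a233 (M a252 (F (T t1800 (L l518 (T t5296 (L l307 (T t5268 N))))))) N)))))))))))))))))))))))))⟩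
def e0_63__214_120 : Ent 4 := ⟨[a0, a63], [a214, a196], (M a85 (F (L l294 (T t52 (L l232 (L l239 (L l278 (T t88 (L l239 (L l278 (T t89 (L l232 (T t90 (K a64 (M a16 (F (T t97 (L l84 (T t96 (L l116 (L l239 (L l278 (T t98 N))))))))) (K a192 (M a204 (F (T t1993 (L l334 (T t1575 (L l239 (L l278 (L l296 (T t1685 (L l310 (T t2309 N))))))))))) (K a21 (M a48 (F (T t99 (T t50 (L l47 (T t100 N)))))) (K a149 (M a55 (F (L l310 (T t2039 (L l220 (L l278 (T t2310 (L l202 (T t2311 N))))))))) (K a213 (Fr a170 a255 l476 (Fr a42 a21 l68 (Fr a106 a234 l390 (Fr a192 a149 l519 (V t581))))) (K a42 (M a48 (F (T t364 (L l390 (T t50 (L l28 (T t100 N))))))) (K a106 (M a48 (F (T t1 (L l104 (T t509 (L l390 (T t50 N))))))) (K a170 (M a16 (F (L l404 (T t113 (L l239 (L l278 (L l390 (T t98 (L l390 (L l404 (T t97 (L l229 (L l404 (T t174 N)))))))))))))) (K a255 (M a16 (F (T t112 (L l289 (T t113 (L l239 (L l278 (L l289 (L l296 (T t98 N))))))))))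 N))))))))))))))))))))))⟩
def e0_63__214_121 : Ent 4 := ⟨[a0, a63], [a214, a197], (M a85 (F (L l294 (T t52 (L l236 (L l239 (L l275 (T t88 (L l239 (L l275 (T t89 (L l236 (T t90 (K a64 (M a16 (F (T t97 (L l236 (T t259 (L l116 (L l239 (L l275 (T t98 N))))))))) (K a192 (M a207 (F (T t2056 (L l339 (T t2057 (L l239 (L l275 (L l296 (L l484 (T t2058 (L l339 (T t2059 N)))))))))))) (K a21 (M a48 (F (T t99 (T t50 (L l47 (L l236 (L l491 (T t100 N)))))))) (K a149 (M a53 (F (L l311 (T t982 (L l220 (L l275 (T t1560 (L l199 (T t2060 N))))))))) (K a213 (Fr a170 a255 l476 (Fr a42 a21 l68 (Fr a106 a234 l390 (Fr a192 a149 l519 (V t581))))) (K a42 (M a48 (F (T t364 (L l390 (T t50 (L l28 (L l236 (L l491 (T t100 N))))))))) (K a106 (M a48 (F (T t99 (L l411 (T t3 (L l390 (T t50 N))))))) (K a170 (M a48 (F (T t3 (L l206 (L l220 (L l236 (L l239 (L l275 (L l311 (L l390 (T t3747 (L l236 (L l404 (L l491 (T t100 N))))))))))))))) (K a255 (M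 a16 (F (T t504 (L l236 (L l289 (L l491 (T t113 (L l239 (L l275 (L l289 (L l296 (T t98 N)))))))))))) N))))))))))))))))))))))⟩
def e0_63__214_122 : Ent 4 := ⟨[a0, a63], [a214, a198], (M a85 (L l276 (F (T t90 (L l239 (T t88 (L l294 (T t52 (L l239 (T t89 (K a64 (M a252 (L l276 (F (T t5499 (L l76 (T t5500 (T t93 (K a230 (M a246 (F (T t5501 (T t91 N)))) (K a246 (M a230 (F (T t91 (L l239 (T t497 N))))) N))))))))) (K a192 (M a245 (L l276 (F (T t5429 (T t5502 (L l484 (T t4204 (K a230 (M a246 (F (L l484 (T t5433 (L l268 (L l300 (T t5503 N))))))) (K a246 (M a230 (F (L l264 (T t5429 (T t5502 (L l264 (L l484 (T t4204 N)))))))) N))))))))) (K a21 (M a252 (L l276 (F (T t94 (T t93 (T t5504 (K a230 (M a246 (F (T t5501 (T t91 N)))) (K a246 (M a230 (F (T t5505 (T t93 (T t5506 N))))) N)))))))) (K a149 (M a16 (L l276 (F (T t173 (L l375 (T t97 (L l170 (T t102 (K a230 (M a246 (F (T t173 (L l375 (T t97 (L l170 (T t102 N))))))) (K a246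 (M a230 (F (T t173 (L l375 (T t97 (L l170 (T t102 N))))))) N)))))))))) (K a213 (Fr a170 a255 l476 (Fr a42 a21 l68 (Fr a106 a234 l390 (Fr a192 a149 l519 (V t581))))) (K a42 (M a252 (L l276 (F (T t94 (L l390 (T t91 (T t5504 (K a230 (M a246 (F (T t5501 (L l390 (T t91 N))))) (K a246 (M a230 (F (T t171 (L l390 (T t91 (T t5506 N)))))) N))))))))) (K a106 (M a48 (L l276 (F (T t1 (L l104 (T t509 (L l390 (T t50 (K a230 (M a246 (F (T t1699 (T t1 (L l390 (T t50 N)))))) (K a246 (M a230 (F (T t1699 (T t1 (L l390 (T t50 N)))))) N)))))))))) (K a170 (M a12 (L l276 (F (T t152 (L l464 (T t574 (L l239 (L l390 (T t154 (L l239 (L l390 (L l464 (T t572 (K a230 (M a246 (F (T t152 (L l174 (L l278 (L l312 (L l464 (T t5507 (L l239 (L l278 (L l390 (T t154 N)))))))))))) (K a246 (M a230 (F (T t152 (L l259 (L l464 (T t574 (L l208 (L l259 (L l464 (T t5508 (L l239 (L l390 (T t154 N))))))))))))) N))))))))))))))) (K a255 (M a16 (L l276 (F (T t112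 (L l234 (L l289 (T t113 (L l239 (L l289 (L l296 (T t98 (K a230 (M a246 (F (T t112 (L l234 (L l289 (T t113 (L l239 (L l278 (L l289 (L l296 (T t98 N))))))))))) (K a246 (M a230 (F (T t112 (L l234 (L l289 (T t113 (L l239 (L l289 (L l296 (T t98 N)))))))))) N))))))))))))) (K a230 (M a246 (F (T t90 (L l239 (L l278 (T t88 (L l254 (L l294 (T t52 (L l239 (L l278 (T t89 (K a64 (M a204 (F (T t1744 (L l239 (L l278 (T t2343 N)))))) (K a192 (M a252 (F (T t5501 (L l514 (T t91 N))))) (K a21 (M a252 (F (T t5501 (T t91 N)))) (K a149 (M a252 (F (T t5501 (L l220 (T t91 N))))) (K a213 (Fr a170 a255 l476 (Fr a42 a21 l68 (Fr a106 a234 l390 (Fr a192 a149 l519 (V t581))))) (K a42 (M a252 (F (T t5501 (L l390 (T t91 N))))) (K a106 (M a252 (F (T t5501 (L l390 (L l516 (T t93 N)))))) (K a170 (M a12 (F (T t152 (L l174 (L l278 (L l312 (L l464 (T t5507 (L l239 (L l278 (L l390 (T t154 N)))))))))))) (K a255 (M a16 (F (T t112 (L l234 (L l289 (T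 t113 (L l239 (L l278 (L l289 (L l296 (T t98 N))))))))))) N))))))))))))))))))))) (K a246 (M a230 (F (T t90 (L l229 (L l456 (T t5509 (L l229 (T t5510 (K a21 (M a192 (F (T t5511 (L l229 (L l239 (T t5512 N)))))) (K a149 (M a16 (F (T t173 (L l375 (T t97 (L l170 (T t102 N))))))) (K a213 (Fr a170 a255 l476 (Fr a42 a21 l68 (Fr a106 a234 l390 (Fr a192 a149 l519 (V t581))))) (K a106 (Fr a21 a42 l68 (Fr a213 a149 l347 (Fr a255 a170 l476 (Fr a234 a192 l296 (V t5519))))) N)))))))))))) N)))))))))))))))))))))⟩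
def e0_63__214_123 : Ent 4 := ⟨[a0, a63], [a214, a199], (M a85 (L l279 (F (T t90 (L l239 (T t88 (L l294 (T t52 (L l239 (T t89 (K a64 (M a12 (L l279 (F (T t124 (L l239 (L l277 (T t572 (K a244 (M a229 (F (T t124 (L l239 (L l259 (L l277 (T t572 N))))))) (K a229 (M a244 (F (T t122 (L l120 (T t1370 (T t124 N)))))) N))))))))) (K a192 (M a4 (L l279 (F (T t129 (L l277 (T t1399 (L l239 (L l277 (L l296 (T t131 (K a244 (M a229 (F (T t2152 (L l423 (L l489 (L l493 (T t519 (L l239 (L l259 (L l277 (L l296 (T t131 N)))))))))))) (K a229 (M a244 (F (T t129 (L l276 (L l313 (T t5636 N)))))) N)))))))))))) (K a21 (M a240 (L l279 (F (T t1384 (T t933 (T t1385 (K a244 (M a229 (F (T t5637 (L l18 (L l244 (T t5638 (L l244 (T t5639 N)))))))) (K a229 (M a244 (F (T t5637 (L l50 (L l493 (T t5640 N)))))) N)))))))) (K a149 (M a4 (L l279 (F (T t129 (L l277 (T t1371 (L l202 (T t1372 (K a244 (M a229 (F (T t129 (L l220 (L l259 (L l277 (T t1509 (L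 l202 (T t1372 N))))))))) (K a229 (M a244 (F (T t129 (L l202 (L l276 (L l313 (T t5636 N))))))) N)))))))))) (K a213 (Fr a170 a255 l476 (Fr a42 a21 l68 (Fr a106 a234 l390 (Fr a192 a149 l519 (V t581))))) (K a42 (M a240 (L l279 (F (T t1384 (L l390 (T t386 (T t1385 (K a244 (M a229 (F (T t5382 (L l244 (L l390 (T t5638 (L l244 (T t5639 N)))))))) (K a229 (M a244 (F (T t5382 (L l493 (T t5640 N))))) N))))))))) (K a106 (M a48 (L l279 (F (T t1 (L l104 (L l314 (L l494 (T t509 (L l390 (T t50 (K a244 (M a229 (F (T t364 (T t1 (L l262 (L l390 (T t50 N))))))) (K a229 (M a244 (F (T t99 (T t1 (L l303 (L l390 (T t50 N))))))) N)))))))))))) (K a170 (M a4 (L l279 (F (L l390 (L l464 (T t129 (L l239 (L l277 (L l390 (T t131 (L l277 (L l464 (T t130 (L l277 (L l464 (T t938 (K a244 (M a229 (F (L l390 (L l464 (T t129 (L l239 (L l259 (L l277 (L l390 (T t131 (L l259 (L l277 (L l464 (T t130 (L l259 (L l277 (L l464 (T t938 N))))))))))))))))))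 (K a229 (M a244 (F (L l313 (T t5641 (L l390 (L l464 (L l493 (T t519 N)))))))) N)))))))))))))))))) (K a255 (M a4 (L l279 (F (T t129 (L l265 (L l277 (T t130 (L l239 (L l265 (L l277 (L l296 (T t131 (K a244 (M a229 (F (T t129 (L l259 (L l265 (L l277 (T t130 (L l239 (L l259 (L l265 (L l277 (L l296 (T t131 N))))))))))))) (K a229 (M a244 (F (T t129 (L l276 (L l313 (T t5636 N)))))) N)))))))))))))) (K a244 (M a229 (F (T t90 (L l229 (L l459 (T t5642 (L l229 (T t5643 (K a21 (M a192 (F (T t5511 (L l229 (L l239 (T t5644 N)))))) (K a149 (M a16 (F (T t101 (L l375 (T t97 (L l170 (T t102 N))))))) (K a213 (Fr a170 a255 l476 (Fr a42 a21 l68 (Fr a106 a234 l390 (Fr a192 a149 l519 (V t581))))) (K a106 (Fr a21 a42 l68 (Fr a213 a149 l347 (Fr a255 a170 l476 (Fr a234 a192 l296 (V t5696))))) N)))))))))))) (K a229 (M a244 (F (T t90 (L l239 (L l275 (T t88 (L l256 (L l294 (T t52 (L l239 (L l275 (T t89 (K a64 (M a240 (F (T t3653 (L l493 (T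 t5640 N))))) (K a192 (M a240 (F (T t4376 (L l489 (L l493 (T t5640 N)))))) (K a21 (M a240 (F (T t5637 (L l50 (L l493 (T t5640 N)))))) (K a149 (M a240 (F (T t3104 (L l493 (L l495 (T t5640 N)))))) (K a213 (Fr a170 a255 l476 (Fr a42 a21 l68 (Fr a106 a234 l390 (Fr a192 a149 l519 (V t581))))) (K a42 (M a240 (F (T t5382 (L l493 (T t5640 N))))) (K a106 (M a240 (F (T t5646 (L l130 (L l390 (T t386 N)))))) (K a170 (M a240 (F (T t3175 (L l180 (L l239 (L l275 (L l390 (T t387 N)))))))) (K a255 (M a240 (F (T t5646 (L l239 (L l275 (L l296 (T t5647 N))))))) N))))))))))))))))))))) N)))))))))))))))))))))⟩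
def e0_63__214_124 : Ent 4 := ⟨[a0, a63], [a214, a200], (M a48 (F (T t1 (T t2 (T t3 (T t0 (K a16 (M a60 (F (T t43 (T t64 (T t65 N))))) (K a32 (M a60 (F (T t64 (T t67 (L l24 (L l28 (T t65 N))))))) (K a21 (M a192 (F (T t837 (L l47 (L l230 (L l347 (T t20 (L l47 (L l230 (L l347 (T t29 N))))))))))) (K a37 (M a192 (F (T t19 (L l47 (L l230 (T t20 (T t21 N))))))) (K a53 (M a192 (F (T t19 (L l491 (T t21 (L l239 (L l501 (T t31 N)))))))) (K a26 (M a192 (F (T t27 (L l230 (T t20 (T t21 N)))))) (K a42 (M a192 (F (T t19 (L l230 (T t20 (L l28 (L l230 (T t29 N)))))))) (K a58 (M a192 (F (T t19 (T t21 (L l54 (L l239 (L l498 (L l501 (T t31 N))))))))) (K a15 (M a192 (F (T t47 (L l483 (T t27 (L l230 (L l325 (T t20 N)))))))) N)))))))))))))))⟩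
def e0_63__214_125 : Ent 4 := ⟨[a0, a63], [a214, a201], (M a85 (F (T t90 (L l239 (T t88 (L l294 (T t52 (L l239 (T t89 (K a64 (M a16 (F (T t97 (L l84 (T t96 (L l116 (L l239 (T t98 N)))))))) (K a192 (M a16 (F (T t96 (L l339 (T t97 (L l239 (L l296 (T t98 N)))))))) (K a21 (M a48 (F (T t99 (T t50 (L l47 (L l230 (T t100 N))))))) (K a149 (M a16 (F (T t173 (L l375 (T t97 (L l170 (T t102 N))))))) (K a213 (Fr a170 a255 l476 (Fr a42 a21 l68 (Fr a106 a234 l390 (Fr a192 a149 l519 (V t581))))) (K a42 (M a48 (F (T t364 (L l390 (T t50 (L l28 (L l230 (T t100 N)))))))) (K a106 (M a48 (F (T t1 (L l104 (T t509 (L l390 (T t50 N))))))) (K a170 (M a16 (F (L l390 (L l404 (T t97 (L l239 (L l390 (T t98 (L l230 (L l404 (T t113 (L l233 (L l404 (T t174 N)))))))))))))) (K a255 (M a16 (F (T t112 (L l230 (L l289 (T t113 (L l239 (L l289 (L l296 (T t98 N)))))))))) N))))))))))))))))))⟩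
def e0_63__214_126 : Ent 4 := ⟨[a0, a63], [a214, a202], (M a85 (F (L l239 (T t168 (L l282 (L l294 (T t52 (L l236 (L l239 (T t88 (L l236 (T t90 (K a64 (M a240 (F (T t386 (L l239 (T t387 N))))) (K a192 (M a207 (F (L l296 (T t2115 (L l339 (T t2057 (L l239 (L l296 (L l318 (L l484 (T t2058 (L l318 (L l498 (T t5320 N)))))))))))))) (K a21 (M a240 (F (T t1552 (L l498 (T t933 (L l318 (T t1385 N))))))) (K a149 (M a16 (F (T t101 (L l375 (T t97 (L l170 (L l498 (T t102 N)))))))) (K a213 (Fr a170 a255 l476 (Fr a42 a21 l68 (Fr a106 a234 l390 (Fr a192 a149 l519 (V t581))))) (K a42 (M a240 (F (T t1552 (L l390 (T t386 (L l318 (T t1385 N))))))) (K a106 (M a154 (F (T t6026 (L l239 (L l390 (T t2294 (L l104 (L l239 (L l390 (T t6027 (L l236 (L l411 (T t6028 N))))))))))))) (K a170 (M a4 (F (L l464 (T t130 (L l239 (L l390 (T t131 (L l390 (L l464 (T t519 (L l464 (T t938 N)))))))))))) (K a255 (M a4 (F (T t129 (L l265 (T t130 (L l239 (L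 l265 (L l296 (T t131 N))))))))) N)))))))))))))))))))))⟩
def e0_63__214_127 : Ent 4 := ⟨[a0, a63], [a214, a203], (M a85 (F (T t90 (L l239 (T t88 (L l294 (T t52 (L l239 (T t89 (K a64 (M a16 (F (T t97 (L l84 (T t96 (L l116 (L l239 (T t98 N)))))))) (K a192 (M a16 (F (T t96 (L l339 (T t97 (L l239 (L l296 (T t98 N)))))))) (K a21 (M a48 (F (T t99 (T t50 (L l47 (L l230 (T t100 N))))))) (K a149 (M a16 (F (T t112 (L l235 (T t173 (L l170 (L l500 (T t102 N)))))))) (K a213 (Fr a170 a255 l476 (Fr a42 a21 l68 (Fr a106 a234 l390 (Fr a192 a149 l519 (V t581))))) (K a42 (M a48 (F (T t364 (L l390 (T t50 (L l28 (L l230 (T t100 N)))))))) (K a106 (M a48 (F (T t1 (L l104 (T t509 (L l390 (T t50 N))))))) (K a170 (M a16 (F (L l390 (L l404 (T t97 (L l239 (L l390 (T t98 (L l230 (L l404 (T t113 (L l235 (L l404 (T t174 N)))))))))))))) (K a255 (M a16 (F (T t112 (L l230 (L l289 (T t113 (L l239 (L l289 (L l296 (T t98 N)))))))))) N))))))))))))))))))⟩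
def e0_63__214_128 : Ent 4 := ⟨[a0, a63], [a214, a204], (M a48 (F (T t48 (L l327 (T t1 (L l327 (T t2 (L l327 (T t3 (L l327 (T t0 (K a16 (M a60 (F (T t138 (L l14 (L l18 (L l333 (T t67 (T t65 N)))))))) (K a32 (M a60 (F (T t138 (L l333 (T t67 (L l24 (L l28 (T t65 N)))))))) (K a21 (M a192 (F (T t54 (L l298 (T t27 (L l47 (L l347 (T t29 N)))))))) (K a37 (M a192 (F (T t54 (L l298 (T t27 (L l290 (T t21 N))))))) (K a53 (M a192 (F (T t55 (L l290 (L l491 (T t21 (L l239 (T t31 N)))))))) (K a26 (M a192 (F (T t56 (L l298 (T t27 (L l290 (T t21 N))))))) (K a42 (M a192 (F (T t56 (L l298 (T t27 (L l28 (T t29 N))))))) (K a58 (M a192 (F (T t47 (L l298 (T t27 (L l54 (L l239 (L l498 (T t31 N))))))))) (K a15 (M a192 (L l327 (F (T t47 (L l298 (L l483 (T t27 (L l231 (L l325 (T t20 (K a141 (M a78 (F (T t1800 (L l231 (L l325 (T t22 (L l298 (L l483 (T t28 N))))))))) (K a78 (M a141 (F (T t1800 (L l231 (L l325 (T t22 (L l298 (L l483 (T t28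 N))))))))) N)))))))))))) N))))))))))))))))))))⟩
def e0_63__214_129 : Ent 4 := ⟨[a0, a63], [a214, a205], (M a85 (F (T t90 (L l239 (T t88 (L l294 (T t52 (L l239 (T t89 (K a64 (M a252 (F (T t91 (L l239 (T t497 N))))) (K a192 (M a16 (F (T t112 (L l329 (L l509 (T t96 (L l239 (L l296 (T t98 N))))))))) (K a21 (M a48 (F (T t99 (T t50 (L l47 (T t100 N)))))) (K a149 (M a16 (F (T t112 (L l231 (L l329 (T t173 (L l170 (T t102 N)))))))) (K a213 (Fr a170 a255 l476 (Fr a42 a21 l68 (Fr a106 a234 l390 (Fr a192 a149 l519 (V t581))))) (K a42 (M a48 (F (T t364 (L l390 (T t50 (L l28 (T t100 N))))))) (K a106 (M a48 (F (T t1 (L l104 (L l329 (L l509 (T t509 (L l390 (T t50 N))))))))) (K a170 (M a16 (F (L l404 (T t113 (L l239 (L l390 (T t98 (L l390 (L l404 (T t97 (L l231 (L l233 (L l404 (T t174 N)))))))))))))) (K a255 (M a16 (F (T t112 (L l289 (T t113 (L l239 (L l289 (L l296 (T t98 N))))))))) N))))))))))))))))))⟩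
def e0_63__214_130 : Ent 4 := ⟨[a0, a63], [a214, a206], (M a85 (F (T t90 (L l239 (T t88 (L l294 (T t52 (L l239 (T t89 (K a64 (M a252 (F (T t91 (L l239 (T t497 N))))) (K a192 (M a16 (F (T t96 (L l339 (T t97 (L l239 (L l296 (T t98 N)))))))) (K a21 (M a48 (F (T t99 (T t50 (L l47 (L l234 (T t100 N))))))) (K a149 (M a16 (F (T t112 (L l231 (T t173 (L l170 (L l510 (T t102 N)))))))) (K a213 (Fr a170 a255 l476 (Fr a42 a21 l68 (Fr a106 a234 l390 (Fr a192 a149 l519 (V t581))))) (K a42 (M a48 (F (T t364 (L l390 (T t50 (L l28 (L l234 (T t100 N)))))))) (K a106 (M a48 (F (T t1 (L l104 (T t509 (L l390 (T t50 N))))))) (K a170 (M a16 (F (L l390 (L l404 (T t97 (L l239 (L l390 (T t98 (L l234 (L l404 (T t113 (L l231 (L l404 (T t174 N)))))))))))))) (K a255 (M a16 (F (T t112 (L l234 (L l289 (T t113 (L l239 (L l289 (L l296 (T t98 N)))))))))) N))))))))))))))))))⟩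
def e0_63__214_131 : Ent 4 := ⟨[a0, a63], [a214, a207], (M a12 (F (T t150 (L l511 (T t122 (L l511 (T t151 (L l511 (T t152 (L l511 (T t153 (K a4 (M a60 (F (T t570 (L l46 (L l50 (L l331 (T t67 (T t448 N)))))))) (K a8 (M a60 (F (T t570 (L l331 (T t67 (L l52 (L l56 (T t448 N)))))))) (K a21 (M a192 (F (T t158 (L l231 (T t156 (L l15 (L l347 (T t157 N)))))))) (K a25 (M a192 (F (T t158 (L l231 (T t156 (L l289 (T t21 N))))))) (K a29 (M a192 (F (T t159 (L l289 (L l371 (T t21 (L l239 (T t160 N)))))))) (K a38 (M a192 (F (T t161 (L l231 (T t156 (L l289 (T t21 N))))))) (K a42 (M a192 (F (T t161 (L l231 (T t156 (L l56 (T t157 N))))))) (K a46 (M a192 (F (T t47 (L l231 (T t156 (L l26 (L l239 (L l408 (T t160 N))))))))) (K a51 (M a192 (L l511 (F (T t47 (L l231 (L l513 (T t156 (L l301 (L l415 (T t450 (K a103 (M a155 (F (T t1800 (L l301 (L l415 (T t543 (L l231 (L l513 (T t468 N))))))))) (K a155 (M a103 (F (T t1800 (L l301 (L l415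 (T t543 (L l231 (L l513 (T t468 N))))))))) N)))))))))))) N))))))))))))))))))))⟩
def e0_63__214_132 : Ent 4 := ⟨[a0, a63], [a214, a212], (M a48 (L l239 (F (T t1 (T t2 (T t3 (T t0 (K a16 (M a255 (L l239 (F (T t1169 (L l292 (T t1165 (L l18 (L l294 (L l368 (T t1167 (K a213 (M a215 (F (T t546 (L l14 (L l346 (T t6029 N)))))) (K a215 (M a213 (F (T t6030 (T t1160 N)))) N)))))))))))) (K a32 (M a255 (L l239 (F (T t1169 (L l292 (L l404 (T t1165 (L l294 (T t1167 (K a213 (M a215 (F (T t546 (L l346 (L l404 (T t6029 N)))))) (K a215 (M a213 (F (L l28 (T t6030 (T t1160 N))))) N))))))))))) (K a21 (M a85 (L l239 (F (T t99 (T t50 (L l47 (T t100 (K a213 (M a215 (F (T t3630 (L l47 (L l246 (T t100 N)))))) (K a215 (M a213 (F (T t5007 (T t873 (L l47 (L l245 (T t100 N))))))) N))))))))) (K a37 (M a85 (L l239 (F (T t364 (L l47 (L l294 (T t52 (L l28 (L l47 (T t100 (K a213 (M a215 (F (T t3630 (L l28 (L l47 (L l246 (T t100 N))))))) (K a215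 (M a213 (F (T t5008 (T t873 N)))) N)))))))))))) (K a53 (M a85 (L l239 (F (T t99 (L l47 (L l294 (T t52 (T t5009 (K a213 (M a215 (F (T t873 (L l348 (L l351 (T t5307 N)))))) (K a215 (M a213 (F (T t5008 (T t873 N)))) N)))))))))) (K a26 (M a85 (L l239 (F (T t509 (L l292 (T t90 (T t100 (K a213 (M a215 (F (T t873 (L l54 (L l348 (L l351 (T t5307 N))))))) (K a215 (M a213 (F (T t5008 (T t873 N)))) N))))))))) (K a42 (M a255 (L l239 (F (T t1169 (T t547 (L l28 (L l390 (T t548 (K a213 (M a215 (F (T t546 (L l346 (L l390 (T t6029 N)))))) (K a215 (M a213 (F (L l390 (T t5011 (L l54 (T t1160 N)))))) N)))))))))) (K a58 (M a192 (L l239 (F (T t19 (L l351 (T t21 (L l294 (L l351 (T t525 (K a213 (M a215 (F (T t837 (L l347 (L l351 (T t21 (L l347 (L l351 (T t575 N))))))))) (K a215 (M a213 (F (L l498 (T t5012 (T t837 N))))) N))))))))))) (K a15 (M a85 (L l239 (F (T t509 (L l294 (L l469 (T t52 (T t100 (K a213 (M a215 (F (T t1243 (L l7 (L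 l348 (L l351 (T t5307 N))))))) (K a215 (M a213 (F (T t5008 (L l325 (T t873 N))))) N)))))))))) (K a213 (M a215 (F (T t2 (L l347 (T t1 (L l347 (T t3 (T t0 (K a16 (M a60 (F (T t451 (L l347 (L l368 (T t5685 N)))))) (K a32 (M a60 (F (T t451 (L l24 (L l28 (L l347 (T t5685 N))))))) (K a21 (M a85 (F (T t3630 (L l47 (L l246 (T t100 N)))))) (K a37 (M a60 (F (T t451 (L l28 (L l347 (T t5685 N)))))) (K a53 (M a20 (F (T t3638 (L l348 (T t6031 N))))) (K a26 (M a20 (F (T t805 (L l16 (L l54 (L l348 (T t6031 N))))))) (K a42 (M a154 (F (T t493 (L l28 (L l246 (L l346 (T t3631 N))))))) (K a58 (M a20 (F (T t1201 (L l54 (L l348 (T t6031 N)))))) (K a15 (M a20 (F (T t183 (L l348 (T t6031 N))))) N))))))))))))))))) (K a215 (M a213 (F (T t1 (L l350 (T t5013 (L l245 (L l351 (T t5014 (K a21 (M a192 (F (T t5015 (T t206 (T t837 N))))) (K a42 (M a192 (F (L l390 (T t5016 (T t837 N))))) N)))))))))) N))))))))))))))))))⟩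
def e0_63__214_133 : Ent 4 := ⟨[a0, a63], [a214, a213], (M a48 (L l239 (F (T t2 (L l347 (T t1 (L l347 (T t3 (T t0 (K a16 (M a60 (L l239 (F (T t43 (T t64 (T t65 (K a212 (M a215 (F (T t451 (L l347 (L l368 (T t5685 N)))))) (K a215 (M a212 (F (T t451 (L l364 (T t6032 N))))) N)))))))) (K a32 (M a60 (L l239 (F (T t64 (L l347 (T t67 (L l24 (L l28 (T t65 (K a212 (M a215 (F (T t451 (L l24 (L l28 (L l347 (T t5685 N))))))) (K a215 (M a212 (F (T t451 (L l24 (L l28 (T t6032 N)))))) N))))))))))) (K a21 (M a85 (L l239 (F (T t873 (L l47 (L l246 (T t100 (T t50 (K a212 (M a215 (F (T t3630 (L l47 (L l246 (T t100 N)))))) (K a215 (M a212 (F (T t873 (L l47 (L l245 (L l246 (T t100 (T t50 N)))))))) N)))))))))) (K a37 (M a60 (L l239 (F (T t880 (L l47 (L l347 (T t67 (L l47 (T t64 (K a212 (M a215 (F (T t451 (L l28 (L l347 (T t5685 N)))))) (K a215 (M a212 (F (T t451 (L l28 (T t6032 N))))) N))))))))))) (K a53 (M a3 (L l239 (F (T t137 (T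 t86 (T t87 (K a212 (M a215 (F (T t348 (T t6033 N)))) (K a215 (M a212 (F (T t348 (L l347 (L l491 (T t6034 N)))))) N)))))))) (K a26 (M a60 (L l239 (F (T t42 (L l18 (L l347 (T t67 (L l57 (T t247 (K a212 (M a215 (F (T t42 (L l347 (T t5678 N))))) (K a215 (M a212 (F (T t42 (L l348 (T t6035 N))))) N))))))))))) (K a42 (M a192 (L l239 (F (T t19 (L l347 (T t20 (L l28 (L l246 (L l347 (T t29 (K a212 (M a215 (F (T t837 (L l390 (T t22 (L l28 (L l246 (L l347 (L l351 (T t29 N)))))))))) (K a215 (M a212 (F (T t837 (L l349 (L l390 (T t6036 N)))))) N)))))))))))) (K a58 (M a3 (L l239 (F (T t559 (L l54 (T t137 (L l54 (T t87 (K a212 (M a215 (F (T t1249 (L l54 (T t6033 N))))) (K a215 (M a212 (F (T t1249 (L l54 (L l347 (T t6034 N)))))) N)))))))))) (K a15 (M a60 (L l239 (F (T t1308 (L l7 (L l347 (T t67 (L l73 (T t64 (K a212 (M a215 (F (T t138 (L l347 (T t5685 N))))) (K a215 (M a212 (F (T t246 (T t6032 N)))) N))))))))))) (K a212 (M a215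 (F (T t2 (L l347 (T t1 (L l347 (T t3 (T t0 (K a16 (M a60 (F (T t451 (L l347 (L l368 (T t5685 N)))))) (K a32 (M a60 (F (T t451 (L l24 (L l28 (L l347 (T t5685 N))))))) (K a21 (M a85 (F (T t3630 (L l47 (L l246 (T t100 N)))))) (K a37 (M a60 (F (T t451 (L l28 (L l347 (T t5685 N)))))) (K a53 (M a20 (F (T t3638 (L l348 (T t6031 N))))) (K a26 (M a20 (F (T t805 (L l16 (L l54 (L l348 (T t6031 N))))))) (K a42 (M a154 (F (T t493 (L l28 (L l246 (L l346 (T t3631 N))))))) (K a58 (M a20 (F (T t1201 (L l54 (L l348 (T t6031 N)))))) (K a15 (M a20 (F (T t183 (L l348 (T t6031 N))))) N))))))))))))))))) (K a215 (M a212 (F (T t2 (L l347 (T t1 (L l347 (T t3 (T t0 (K a16 (M a192 (F (T t22 (L l14 (L l350 (T t3434 N)))))) (K a32 (M a192 (F (L l376 (T t22 (L l350 (L l400 (T t3434 N))))))) (K a21 (M a149 (F (T t1059 (L l18 (L l275 (T t14 N)))))) (K a37 (M a192 (F (T t22 (L l350 (T t3434 N))))) (K a53 (M a192 (F (T t837 (L l349 (T t6036 N)))))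 (K a26 (M a192 (F (T t22 (L l350 (T t3434 N))))) (K a42 (M a192 (F (T t837 (L l349 (L l390 (T t6036 N)))))) (K a58 (M a192 (F (T t837 (L l349 (L l498 (T t6036 N)))))) (K a15 (M a192 (F (T t1922 (L l7 (L l349 (T t6036 N)))))) N))))))))))))))))) N))))))))))))))))))))⟩
def e0_63__214_134 : Ent 4 := ⟨[a0, a63], [a214, a215], (M a48 (L l239 (F (T t1 (T t2 (T t3 (T t0 (K a16 (M a149 (L l239 (F (T t4 (L l18 (L l294 (T t175 (T t6037 (K a212 (M a213 (F (T t6038 (T t181 N)))) (K a213 (M a212 (F (T t7 (L l14 (L l348 (L l350 (T t6039 N))))))) N)))))))))) (K a32 (M a192 (L l239 (F (T t20 (L l295 (T t21 (L l28 (L l376 (T t214 (K a212 (M a213 (F (T t5012 (L l294 (T t6040 N))))) (K a213 (M a212 (F (L l376 (T t22 (L l350 (L l400 (T t3434 N))))))) N))))))))))) (K a21 (M a149 (L l239 (F (T t4 (T t13 (L l18 (T t14 (K a212 (M a213 (F (T t6041 (T t181 (L l18 (T t14 N)))))) (K a213 (M a212 (F (T t1059 (L l18 (L l275 (T t14 N))))))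 N))))))))) (K a37 (M a192 (L l239 (F (T t19 (L l47 (T t20 (L l295 (T t21 (K a212 (M a213 (F (T t5012 (T t837 N)))) (K a213 (M a212 (F (T t22 (L l350 (T t3434 N))))) N)))))))))) (K a53 (M a192 (L l239 (F (T t19 (L l295 (L l491 (T t21 (L l47 (L l294 (L l491 (T t525 (K a212 (M a213 (F (T t5012 (T t837 N)))) (K a213 (M a212 (F (T t837 (L l349 (T t6036 N))))) N))))))))))))) (K a26 (M a192 (L l239 (F (T t837 (T t20 (L l295 (T t21 (K a212 (M a213 (F (T t5012 (T t837 N)))) (K a213 (M a212 (F (T t22 (L l350 (T t3434 N))))) N))))))))) (K a42 (M a192 (L l239 (F (T t19 (T t20 (L l28 (L l245 (T t29 (K a212 (M a213 (F (L l390 (T t5016 (T t837 N))))) (K a213 (M a212 (F (T t837 (L l349 (L l390 (T t6036 N)))))) N)))))))))) (K a58 (M a192 (L l239 (F (T t19 (L l295 (T t21 (L l294 (T t525 (K a212 (M a213 (F (L l498 (T t5012 (T t837 N))))) (K a213 (M a212 (F (T t837 (L l349 (L l498 (T t6036 N)))))) N)))))))))) (K a15 (M a192 (L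 l239 (F (T t1800 (L l483 (T t27 (L l325 (T t20 (K a212 (M a213 (F (T t5012 (L l483 (T t837 N))))) (K a213 (M a212 (F (T t1922 (L l7 (L l349 (T t6036 N)))))) N)))))))))) (K a212 (M a213 (F (T t1 (L l350 (T t5013 (L l245 (L l351 (T t5014 (K a21 (M a192 (F (T t5015 (T t206 (T t837 N))))) (K a42 (M a192 (F (L l390 (T t5016 (T t837 N))))) N)))))))))) (K a213 (M a212 (F (T t2 (L l347 (T t1 (L l347 (T t3 (T t0 (K a16 (M a192 (F (T t22 (L l14 (L l350 (T t3434 N)))))) (K a32 (M a192 (F (L l376 (T t22 (L l350 (L l400 (T t3434 N))))))) (K a21 (M a149 (F (T t1059 (L l18 (L l275 (T t14 N)))))) (K a37 (M a192 (F (T t22 (L l350 (T t3434 N))))) (K a53 (M a192 (F (T t837 (L l349 (T t6036 N))))) (K a26 (M a192 (F (T t22 (L l350 (T t3434 N))))) (K a42 (M a192 (F (T t837 (L l349 (L l390 (T t6036 N)))))) (K a58 (M a192 (F (T t837 (L l349 (L l498 (T t6036 N)))))) (K a15 (M a192 (F (T t1922 (L l7 (L l349 (T t6036 N)))))) N)))))))))))))))))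 N))))))))))))))))))⟩
def e0_63__214_135 : Ent 4 := ⟨[a0, a63], [a214, a216], (M a85 (F (T t90 (L l239 (T t88 (L l294 (T t52 (L l239 (T t89 (K a64 (M a16 (F (T t97 (L l84 (T t96 (L l116 (L l239 (T t98 N)))))))) (K a192 (M a16 (F (T t96 (L l339 (T t97 (L l239 (L l296 (T t98 N)))))))) (K a21 (M a48 (F (T t99 (L l298 (T t50 (L l47 (T t100 N))))))) (K a149 (M a16 (F (T t173 (L l375 (T t97 (L l170 (T t102 N))))))) (K a213 (Fr a170 a255 l476 (Fr a42 a21 l68 (Fr a106 a234 l390 (Fr a192 a149 l519 (V t581))))) (K a42 (M a48 (F (T t364 (L l298 (L l390 (T t50 (L l28 (T t100 N)))))))) (K a106 (M a48 (F (T t99 (T t1 (L l298 (L l390 (T t50 N))))))) (K a170 (M a16 (F (L l404 (T t113 (L l239 (L l390 (T t98 (L l390 (L l404 (T t97 (L l404 (T t174 N)))))))))))) (K a255 (M a16 (F (T t112 (L l289 (T t113 (L l239 (L l289 (L l296 (T t98 N))))))))) N))))))))))))))))))⟩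
def e0_63__214_136 : Ent 4 := ⟨[a0, a63], [a214, a217], (M a149 (L l247 (F (T t177 (L l239 (L l243 (T t5 (L l284 (L l294 (T t175 (L l239 (L l243 (T t176 (K a192 (M a31 (L l247 (F (T t2312 (L l268 (T t651 (L l239 (L l243 (L l268 (L l296 (T t2313 (K a220 (M a211 (F (T t2312 (L l242 (L l244 (L l268 (L l514 (T t6042 N)))))))) (K a211 (M a220 (F (T t2312 (L l238 (L l239 (L l268 (L l292 (T t6043 N)))))))) N))))))))))))) (K a21 (M a204 (L l247 (F (T t6044 (T t1283 (T t1044 (K a220 (M a211 (F (T t1046 (T t1283 (T t1044 N))))) (K a211 (M a220 (F (T t1046 (L l18 (L l344 (T t3461 N)))))) N)))))))) (K a85 (M a48 (L l247 (F (T t4 (T t1 (L l144 (T t13 (K a220 (M a211 (F (T t184 (L l91 (T t6045 N))))) (K a211 (M a220 (F (T t184 (L l87 (T t6046 N))))) N))))))))) (K a213 (Fr a106 a192 l519 (Fr a42 a21 l68 (Fr a170 a234 l390 (Fr a255 a85 l476 (V t582))))) (K a42 (M a15 (L l247 (F (T t1024 (L l390 (T t4157 (L l28 (T t1026 (K a220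 (M a211 (F (L l390 (T t4157 (L l28 (L l242 (L l243 (T t6047 N)))))))) (K a211 (M a220 (F (L l390 (T t4157 (L l28 (L l238 (L l240 (T t6048 N)))))))) N)))))))))) (K a106 (M a31 (L l247 (F (L l411 (T t651 (L l239 (L l243 (L l390 (T t2313 (L l390 (L l411 (T t2084 (L l411 (T t4379 (K a220 (M a211 (F (L l358 (T t6049 (L l364 (L l390 (L l411 (T t2084 N)))))))) (K a211 (M a220 (F (L l343 (T t6050 (L l344 (L l390 (L l411 (T t2084 N)))))))) N)))))))))))))))) (K a170 (M a48 (L l247 (F (T t4 (L l462 (T t1 (L l390 (T t13 (K a220 (M a211 (F (T t184 (L l404 (T t6051 (L l462 (T t1 N))))))) (K a211 (M a220 (F (T t184 (L l404 (T t6052 (L l390 (T t2 N))))))) N)))))))))) (K a191 (M a204 (L l247 (F (T t1043 (L l239 (L l243 (T t1066 (K a220 (M a211 (F (T t1043 (L l239 (L l243 (T t1066 N)))))) (K a211 (M a220 (F (T t1046 (L l344 (T t3461 N))))) N))))))))) (K a255 (M a208 (L l247 (F (T t2180 (T t1833 (L l440 (T t1277 (K a220 (M a211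 (F (L l358 (T t6053 (L l364 (L l440 (T t1277 N))))))) (K a211 (M a220 (F (L l343 (T t6054 (L l344 (L l440 (T t1277 N))))))) N))))))))) (K a220 (M a211 (F (T t177 (L l239 (L l243 (T t5 (L l284 (L l294 (T t175 (L l239 (L l243 (T t176 (K a192 (M a29 (F (T t1748 (L l243 (L l272 (L l348 (T t6055 N))))))) (K a21 (M a208 (F (L l358 (T t6053 (T t1840 N))))) (K a85 (M a208 (F (L l244 (L l363 (T t6056 (L l144 (L l364 (L l368 (T t1277 N))))))))) (K a213 (Fr a106 a192 l519 (Fr a42 a21 l68 (Fr a170 a234 l390 (Fr a255 a85 l476 (V t582))))) (K a42 (M a208 (F (L l358 (T t6053 (L l364 (L l390 (T t1277 N))))))) (K a106 (M a29 (F (L l390 (L l408 (T t2091 (L l243 (L l348 (L l516 (T t6055 N))))))))) (K a170 (M a208 (F (L l244 (L l363 (T t6056 (L l180 (L l364 (L l390 (T t1277 N))))))))) (K a191 (M a208 (F (L l358 (T t6053 (L l364 (T t1277 N)))))) (K a255 (M a208 (F (L l358 (T t6053 (L l364 (L l440 (T t1277 N))))))) N)))))))))))))))))))))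 (K a211 (M a220 (F (T t177 (L l239 (L l243 (T t5 (L l284 (L l294 (T t175 (L l239 (L l243 (T t176 (K a192 (M a204 (F (T t6057 (L l239 (L l243 (L l296 (L l489 (T t1064 N)))))))) (K a21 (M a208 (F (L l343 (T t6054 (T t1840 N))))) (K a85 (M a208 (F (L l240 (L l343 (T t6058 (L l144 (L l344 (L l368 (T t1277 N))))))))) (K a213 (Fr a106 a192 l519 (Fr a42 a21 l68 (Fr a170 a234 l390 (Fr a255 a85 l476 (V t582))))) (K a42 (M a208 (F (L l343 (T t6054 (L l344 (L l390 (T t1277 N))))))) (K a106 (M a204 (F (T t6057 (L l102 (L l240 (L l343 (T t6059 N))))))) (K a170 (M a208 (F (L l240 (L l343 (T t6058 (L l180 (L l344 (L l390 (T t1277 N))))))))) (K a191 (M a208 (F (L l343 (T t6054 (L l344 (T t1277 N)))))) (K a255 (M a208 (F (L l343 (T t6054 (L l344 (L l440 (T t1277 N))))))) N))))))))))))))))))))) N))))))))))))))))))))))))⟩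
def e0_63__214_137 : Ent 4 := ⟨[a0, a63], [a214, a218], (M a85 (L l244 (F (T t90 (L l239 (L l246 (T t88 (L l282 (L l294 (T t52 (L l239 (L l246 (T t89 (K a64 (M a240 (L l244 (F (T t386 (L l239 (L l246 (T t2099 (K a210 (M a222 (F (T t386 (L l239 (L l246 (T t2099 N)))))) (K a222 (M a210 (F (T t6060 (T t933 N)))) N))))))))) (K a192 (M a221 (L l244 (F (T t6061 (T t6062 (L l334 (T t6063 (K a210 (M a222 (F (L l334 (T t6064 (L l232 (L l300 (T t6065 N))))))) (K a222 (M a210 (F (L l288 (T t6061 (T t6062 (L l288 (L l334 (T t6063 N)))))))) N))))))))) (K a21 (M a240 (L l244 (F (T t1552 (T t933 (T t1385 (K a210 (M a222 (F (T t5637 (T t933 (T t2804 N))))) (K a222 (M a210 (F (T t6060 (T t933 N)))) N)))))))) (K a149 (M a48 (L l244 (F (T t2 (L l246 (T t99 (L l220 (L l303 (T t50 (K a210 (M a222 (F (T t364 (L l375 (T t0 (L l220 (L l273 (L l303 (T t50 N))))))))) (K a222 (M a210 (F (T t364 (L l375 (T t0 (L l220 (L l303 (T t50 N))))))))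 N))))))))))) (K a213 (Fr a170 a255 l476 (Fr a42 a21 l68 (Fr a106 a234 l390 (Fr a192 a149 l519 (V t581))))) (K a42 (M a240 (L l244 (F (T t1552 (L l390 (T t386 (T t1385 (K a210 (M a222 (F (T t2803 (L l390 (T t386 (T t2804 N)))))) (K a222 (M a210 (F (T t6060 (L l54 (L l390 (T t933 N)))))) N))))))))) (K a106 (M a48 (L l244 (F (T t364 (T t1 (L l303 (L l390 (T t50 (K a210 (M a222 (F (T t364 (T t1 (L l273 (L l303 (L l390 (T t50 N)))))))) (K a222 (M a210 (F (T t364 (T t1 (L l303 (L l390 (T t50 N))))))) N)))))))))) (K a170 (M a101 (L l244 (F (L l206 (T t1810 (L l239 (L l246 (L l390 (T t1811 (L l206 (T t1812 (L l239 (L l246 (L l390 (T t2269 (K a210 (M a222 (F (L l174 (L l206 (T t6066 (L l239 (L l246 (L l390 (T t1811 (L l239 (L l246 (L l303 (L l390 (T t2352 N)))))))))))))) (K a222 (M a210 (F (L l206 (T t1810 (L l239 (L l246 (L l390 (T t1811 (L l206 (T t1812 (L l239 (L l246 (L l291 (L l303 (L l390 (T t2352 N))))))))))))))))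 N))))))))))))))))) (K a255 (M a4 (L l244 (F (T t129 (L l265 (T t130 (L l239 (L l246 (L l265 (L l296 (T t131 (K a210 (M a222 (F (T t129 (L l265 (L l270 (T t130 (L l239 (L l246 (L l265 (L l296 (T t131 N))))))))))) (K a222 (M a210 (F (T t129 (L l265 (T t130 (L l239 (L l246 (L l265 (L l296 (T t131 N)))))))))) N))))))))))))) (K a210 (M a222 (F (T t90 (L l239 (L l246 (T t88 (L l282 (L l294 (T t52 (L l239 (L l246 (T t89 (K a64 (M a240 (F (T t386 (L l239 (L l246 (T t2099 N)))))) (K a192 (M a252 (F (T t6067 (L l514 (T t91 N))))) (K a21 (M a252 (F (T t6067 (T t91 N)))) (K a149 (M a252 (F (T t6067 (L l220 (T t91 N))))) (K a213 (Fr a170 a255 l476 (Fr a42 a21 l68 (Fr a106 a234 l390 (Fr a192 a149 l519 (V t581))))) (K a42 (M a252 (F (T t6067 (L l390 (T t91 N))))) (K a106 (M a252 (F (T t6067 (L l390 (L l516 (T t93 N)))))) (K a170 (M a48 (F (T t3 (L l174 (L l246 (L l342 (L l404 (T t6068 (L l239 (L l246 (L l390 (T t51 N))))))))))))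 (K a255 (M a48 (F (T t610 (L l246 (L l289 (L l342 (L l475 (T t6068 (L l239 (L l246 (L l296 (T t51 N)))))))))))) N))))))))))))))))))))) (K a222 (M a210 (F (T t90 (L l239 (L l246 (T t88 (L l282 (L l294 (T t52 (L l239 (L l246 (T t89 (K a64 (M a240 (F (T t6060 (T t933 N)))) (K a192 (M a240 (F (T t6060 (L l484 (T t933 N))))) (K a21 (M a240 (F (T t6060 (T t933 N)))) (K a149 (M a240 (F (T t6060 (L l199 (L l220 (T t933 N)))))) (K a213 (Fr a170 a255 l476 (Fr a42 a21 l68 (Fr a106 a234 l390 (Fr a192 a149 l519 (V t581))))) (K a42 (M a240 (F (T t6060 (L l54 (L l390 (T t933 N)))))) (K a106 (M a240 (F (T t6060 (L l390 (L l498 (T t933 N)))))) (K a170 (M a60 (F (T t67 (L l180 (L l239 (L l360 (L l392 (T t6069 (L l239 (L l246 (L l390 (T t1344 N)))))))))))) (K a255 (M a4 (F (T t129 (L l265 (T t130 (L l239 (L l246 (L l265 (L l296 (T t131 N)))))))))) N))))))))))))))))))))) N))))))))))))))))))))))))⟩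
def e0_63__214_138 : Ent 4 := ⟨[a0, a63], [a214, a219], (M a85 (F (T t90 (L l239 (T t88 (L l294 (T t52 (L l239 (T t89 (K a64 (M a16 (F (T t97 (L l84 (L l245 (T t96 (L l116 (L l239 (L l245 (T t98 N)))))))))) (K a192 (M a16 (F (T t112 (L l245 (T t96 (L l239 (L l245 (L l296 (T t98 N))))))))) (K a21 (M a48 (F (T t1243 (L l47 (L l245 (T t100 (T t50 N))))))) (K a149 (M a16 (F (T t112 (L l245 (L l301 (T t173 (L l170 (L l356 (T t102 N))))))))) (K a213 (Fr a170 a255 l476 (Fr a42 a21 l68 (Fr a106 a234 l390 (Fr a192 a149 l519 (V t581))))) (K a42 (M a48 (F (T t364 (L l390 (T t50 (L l28 (L l245 (T t100 N)))))))) (K a106 (M a48 (F (T t364 (T t1 (L l390 (T t50 N)))))) (K a170 (M a16 (F (L l390 (L l404 (T t97 (L l239 (L l245 (L l390 (T t98 (L l245 (L l404 (T t113 (L l245 (L l301 (L l404 (T t174 N)))))))))))))))) (K a255 (M a16 (F (T t112 (L l245 (L l289 (T t113 (L l239 (L l245 (L l289 (L l296 (T t98 N))))))))))) N))))))))))))))))))⟩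
def e0_63__214_139 : Ent 4 := ⟨[a0, a63], [a214, a220], (M a85 (L l247 (F (T t90 (L l239 (T t88 (L l294 (T t52 (L l239 (T t89 (K a64 (M a252 (L l247 (F (T t5499 (L l76 (T t5500 (T t93 (K a217 (M a211 (F (T t91 (L l239 (L l243 (T t497 N)))))) (K a211 (M a217 (F (T t91 (L l239 (T t497 N))))) N))))))))) (K a192 (M a16 (L l247 (F (T t112 (L l241 (T t96 (L l239 (L l241 (L l296 (T t98 (K a217 (M a211 (F (T t112 (L l240 (L l358 (T t6070 N)))))) (K a211 (M a217 (F (T t1924 (L l339 (L l363 (L l373 (T t97 (L l239 (L l241 (L l245 (L l296 (T t98 N)))))))))))) N)))))))))))) (K a21 (M a195 (L l247 (F (T t6071 (L l239 (T t2035 (T t910 (K a217 (M a211 (F (T t2155 (L l18 (L l363 (T t6072 N)))))) (K a211 (M a217 (F (T t2155 (L l239 (L l245 (L l373 (T t2035 (L l373 (T t901 N))))))))) N))))))))) (K a149 (M a16 (L l247 (F (T t112 (L l241 (T t173 (L l170 (T t102 (K a217 (M a211 (F (T t112 (L l170 (L l240 (L l358 (T t6070 N)))))))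 (K a211 (M a217 (F (T t112 (L l220 (L l241 (L l245 (T t259 (L l170 (T t102 N))))))))) N)))))))))) (K a213 (Fr a170 a255 l476 (Fr a42 a21 l68 (Fr a106 a234 l390 (Fr a192 a149 l519 (V t581))))) (K a42 (M a195 (L l247 (F (T t6071 (L l390 (T t2158 (T t910 (K a217 (M a211 (F (T t2155 (L l363 (T t6072 N))))) (K a211 (M a217 (F (T t2155 (L l390 (T t2158 (L l373 (T t901 N))))))) N))))))))) (K a106 (M a48 (L l247 (F (T t1 (L l104 (L l241 (T t509 (L l390 (T t50 (K a217 (M a211 (F (T t1 (L l104 (L l241 (T t360 (L l390 (T t50 N)))))))) (K a211 (M a217 (F (T t1 (L l104 (L l241 (L l245 (T t360 (L l390 (T t50 N))))))))) N))))))))))) (K a170 (M a16 (L l247 (F (L l390 (L l404 (T t112 (L l239 (L l241 (L l390 (T t98 (L l241 (L l404 (T t113 (L l241 (L l404 (T t174 (K a217 (M a211 (F (L l358 (T t6073 (L l363 (L l390 (L l404 (T t97 N)))))))) (K a211 (M a217 (F (L l390 (L l404 (T t112 (L l239 (L l241 (L l245 (L l390 (T t98 (L l241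 (L l245 (L l404 (T t113 (L l241 (L l245 (L l404 (T t174 N)))))))))))))))))) N)))))))))))))))))) (K a255 (M a16 (L l247 (F (T t112 (L l241 (L l289 (T t113 (L l239 (L l241 (L l289 (L l296 (T t98 (K a217 (M a211 (F (T t112 (L l240 (L l358 (T t6070 N)))))) (K a211 (M a217 (F (T t112 (L l241 (L l245 (L l289 (T t113 (L l239 (L l241 (L l245 (L l289 (L l296 (T t98 N))))))))))))) N)))))))))))))) (K a217 (M a211 (F (T t90 (L l239 (L l243 (T t88 (L l284 (L l294 (T t52 (L l239 (L l243 (T t89 (K a64 (M a16 (F (T t112 (L l240 (L l358 (T t6070 N)))))) (K a192 (M a16 (F (T t112 (L l240 (L l358 (T t6070 N)))))) (K a21 (M a81 (F (L l358 (T t6074 (T t6075 N))))) (K a149 (M a16 (F (T t112 (L l170 (L l240 (L l358 (T t6070 N))))))) (K a213 (Fr a170 a255 l476 (Fr a42 a21 l68 (Fr a106 a234 l390 (Fr a192 a149 l519 (V t581))))) (K a42 (M a81 (F (L l348 (T t6076 (L l363 (T t6077 N)))))) (K a106 (M a16 (F (L l358 (T t6073 (L l363 (L l390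 (T t97 N))))))) (K a170 (M a16 (F (L l358 (T t6073 (L l363 (L l390 (L l404 (T t97 N)))))))) (K a255 (M a16 (F (T t112 (L l240 (L l358 (T t6070 N)))))) N))))))))))))))))))))) (K a211 (M a217 (F (T t90 (L l238 (L l369 (T t6078 (L l238 (T t6079 (K a21 (M a192 (F (T t5511 (L l238 (L l239 (T t6080 N)))))) (K a149 (M a16 (F (T t112 (L l220 (L l241 (L l245 (T t259 (L l170 (T t102 N))))))))) (K a213 (Fr a170 a255 l476 (Fr a42 a21 l68 (Fr a106 a234 l390 (Fr a192 a149 l519 (V t581))))) (K a106 (Fr a21 a42 l68 (Fr a213 a149 l347 (Fr a255 a170 l476 (Fr a234 a192 l296 (V t6152))))) N)))))))))))) N)))))))))))))))))))))⟩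
def e0_63__214_140 : Ent 4 := ⟨[a0, a63], [a214, a221], (M a149 (F (L l294 (T t175 (L l239 (L l243 (T t5 (L l239 (L l243 (L l290 (T t176 (L l290 (T t177 (K a192 (M a53 (F (T t178 (L l236 (T t179 (L l236 (L l239 (L l243 (L l296 (T t180 N)))))))))) (K a21 (M a48 (F (T t4 (T t13 (L l18 (T t14 N)))))) (K a85 (M a17 (F (L l359 (T t1279 (L l144 (L l243 (T t1280 (L l91 (T t1281 N))))))))) (K a213 (Fr a106 a192 l519 (Fr a42 a21 l68 (Fr a170 a234 l390 (Fr a255 a85 l476 (V t582))))) (K a42 (M a48 (F (T t187 (L l390 (T t13 (L l54 (T t14 N))))))) (K a106 (M a48 (F (T t1 (L l498 (T t14 (L l239 (L l243 (L l390 (L l498 (T t6 (L l239 (L l241 (L l243 (L l390 (T t26 N))))))))))))))) (K a170 (M a48 (F (T t4 (L l462 (T t1 (L l390 (T t13 N))))))) (K a191 (M a16 (F (T t97 (T t190 (L l213 (L l239 (L l241 (L l243 (T t191 N))))))))) (K a255 (M a204 (F (T t1282 (L l470 (T t1283 (L l239 (L l243 (L l296 (L l439 (T t1055 (L l359 (T t1284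 N)))))))))))) N))))))))))))))))))))))⟩
def e0_63__214_141 : Ent 4 := ⟨[a0, a63], [a214, a222], (M a85 (L l244 (F (T t90 (L l239 (T t88 (L l294 (T t52 (L l239 (T t89 (K a64 (M a252 (L l244 (F (T t91 (L l239 (T t497 (K a210 (M a218 (F (T t91 (L l239 (T t497 N))))) (K a218 (M a210 (F (T t91 (L l239 (L l246 (T t497 N)))))) N)))))))) (K a192 (M a48 (L l244 (F (T t1243 (L l339 (T t1 (L l268 (T t50 (K a210 (M a218 (F (T t132 (L l296 (L l366 (T t365 (L l268 (L l273 (T t50 N))))))))) (K a218 (M a210 (F (T t132 (L l241 (L l246 (L l296 (T t360 (L l268 (L l303 (T t50 N)))))))))) N)))))))))) (K a21 (M a240 (L l244 (F (T t1384 (T t933 (T t1385 (K a210 (M a218 (F (T t5637 (L l18 (L l279 (L l366 (T t6082 (L l18 (L l279 (T t6083 N)))))))))) (K a218 (M a210 (F (T t6060 (T t933 N)))) N)))))))) (K a149 (M a48 (L l244 (F (T t2 (L l241 (T t99 (L l220 (T t50 (K a210 (M a218 (F (T t364 (L l375 (T t0 (L l220 (L l273 (T t50 N))))))))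 (K a218 (M a210 (F (T t364 (L l375 (T t0 (L l220 (L l303 (T t50 N)))))))) N)))))))))) (K a213 (Fr a170 a255 l476 (Fr a42 a21 l68 (Fr a106 a234 l390 (Fr a192 a149 l519 (V t581))))) (K a42 (M a240 (L l244 (F (T t1384 (L l390 (T t386 (T t1385 (K a210 (M a218 (F (T t2803 (L l279 (L l366 (T t6082 (L l54 (L l279 (T t6083 N))))))))) (K a218 (M a210 (F (T t6060 (L l54 (L l390 (T t933 N)))))) N))))))))) (K a106 (M a48 (L l244 (F (T t364 (T t1 (L l390 (T t50 (K a210 (M a218 (F (T t364 (T t1 (L l273 (L l390 (T t50 N))))))) (K a218 (M a210 (F (T t364 (T t1 (L l303 (L l390 (T t50 N))))))) N))))))))) (K a170 (M a90 (L l244 (F (L l180 (T t125 (L l239 (L l390 (T t126 (L l180 (T t127 (L l239 (L l390 (T t6084 (K a210 (M a218 (F (T t6085 (L l180 (T t6086 (L l206 (L l366 (T t6087 N)))))))) (K a218 (M a210 (F (L l180 (L l390 (T t6088 (L l180 (L l218 (T t6089 (L l239 (L l246 (L l294 (L l360 (L l390 (T t6090 N)))))))))))))) N)))))))))))))))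 (K a255 (M a4 (L l244 (F (T t129 (L l265 (T t130 (L l239 (L l265 (L l296 (T t131 (K a210 (M a218 (F (T t129 (L l265 (L l270 (T t130 (L l239 (L l265 (L l296 (T t131 N)))))))))) (K a218 (M a210 (F (T t129 (L l265 (T t130 (L l239 (L l246 (L l265 (L l296 (T t131 N)))))))))) N)))))))))))) (K a210 (M a218 (F (T t90 (L l238 (L l366 (T t6091 (L l238 (T t6092 (K a21 (M a192 (F (T t5511 (L l238 (L l239 (T t6093 N)))))) (K a149 (M a16 (F (T t112 (L l170 (L l220 (L l279 (L l366 (T t6094 (L l170 (L l366 (T t102 N))))))))))) (K a213 (Fr a170 a255 l476 (Fr a42 a21 l68 (Fr a106 a234 l390 (Fr a192 a149 l519 (V t581))))) (K a106 (Fr a21 a42 l68 (Fr a213 a149 l347 (Fr a255 a170 l476 (Fr a234 a192 l296 (V t6153))))) N)))))))))))) (K a218 (M a210 (F (T t90 (L l239 (L l246 (T t88 (L l282 (L l294 (T t52 (L l239 (L l246 (T t89 (K a64 (M a240 (F (T t6060 (T t933 N)))) (K a192 (M a240 (F (T t6060 (L l484 (T t933 N))))) (K a21 (M a240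 (F (T t6060 (T t933 N)))) (K a149 (M a240 (F (T t6060 (L l199 (L l220 (T t933 N)))))) (K a213 (Fr a170 a255 l476 (Fr a42 a21 l68 (Fr a106 a234 l390 (Fr a192 a149 l519 (V t581))))) (K a42 (M a240 (F (T t6060 (L l54 (L l390 (T t933 N)))))) (K a106 (M a240 (F (T t6060 (L l390 (L l498 (T t933 N)))))) (K a170 (M a60 (F (T t67 (L l180 (L l239 (L l360 (L l392 (T t6069 (L l239 (L l246 (L l390 (T t1344 N)))))))))))) (K a255 (M a4 (F (T t129 (L l265 (T t130 (L l239 (L l246 (L l265 (L l296 (T t131 N)))))))))) N))))))))))))))))))))) N)))))))))))))))))))))⟩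
def e0_63__214_142 : Ent 4 := ⟨[a0, a63], [a214, a223], (M a149 (F (L l294 (T t175 (L l239 (L l246 (T t5 (L l239 (L l246 (L l289 (T t176 (L l289 (T t177 (K a192 (M a53 (F (T t178 (L l236 (L l289 (L l368 (T t179 (L l236 (L l239 (L l246 (L l296 (T t180 N)))))))))))) (K a21 (M a48 (F (T t4 (T t13 (L l18 (L l289 (L l368 (T t14 N)))))))) (K a85 (M a16 (F (L l361 (T t97 (L l144 (L l246 (T t190 (L l94 (T t278 N))))))))) (K a213 (Fr a106 a192 l519 (Fr a42 a21 l68 (Fr a170 a234 l390 (Fr a255 a85 l476 (V t582))))) (K a42 (M a48 (F (T t11 (L l390 (T t13 (L l54 (L l289 (L l368 (T t14 N))))))))) (K a106 (M a48 (F (T t1 (L l104 (L l144 (L l239 (L l246 (L l289 (L l361 (L l390 (T t1285 (L l289 (L l368 (L l498 (T t14 N))))))))))))))) (K a170 (M a48 (F (T t4 (L l462 (T t1 (L l390 (T t13 N))))))) (K a191 (M a16 (F (T t112 (L l246 (T t190 (T t278 N)))))) (K a255 (M a207 (F (T t1286 (L l469 (T t1287 (L l239 (L l246 (L l296 (T t1288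 (L l361 (T t1289 N))))))))))) N))))))))))))))))))))))⟩
def e0_63__214_143 : Ent 4 := ⟨[a0, a63], [a214, a232], (M a48 (F (T t1 (T t2 (T t3 (T t0 (K a16 (M a60 (F (T t64 (L l14 (L l18 (L l393 (T t67 (L l388 (T t65 N))))))))) (K a32 (M a60 (F (T t64 (L l393 (T t67 (L l24 (L l28 (L l388 (T t65 N))))))))) (K a21 (M a192 (F (T t837 (L l47 (L l347 (T t20 (L l47 (L l347 (T t29 N))))))))) (K a37 (M a192 (F (T t837 (L l47 (T t20 (T t21 N)))))) (K a53 (M a192 (F (T t837 (L l491 (T t21 (L l239 (L l393 (T t31 N)))))))) (K a26 (M a192 (F (T t837 (T t20 (T t21 N))))) (K a42 (M a192 (F (T t27 (T t20 (L l28 (T t29 N)))))) (K a58 (M a192 (F (T t27 (T t21 (L l54 (L l239 (L l393 (L l498 (T t31 N))))))))) (K a15 (M a192 (F (T t56 (L l483 (T t27 (L l469 (T t21 N))))))) N)))))))))))))))⟩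
def e0_63__214_144 : Ent 4 := ⟨[a0, a63], [a214, a233], (M a85 (L l297 (F (T t90 (L l239 (L l293 (T t88 (L l250 (L l294 (T t52 (L l239 (L l293 (T t89 (K a64 (M a252 (F (T t5499 (L l76 (T t5500 (L l293 (T t93 N))))))) (K a192 (M a252 (F (L l309 (T t5499 (L l293 (L l514 (T t93 (L l309 (T t6096 (L l239 (L l389 (T t6097 N)))))))))))) (K a21 (M a252 (F (T t5505 (L l293 (T t93 (T t5504 N)))))) (K a149 (M a252 (F (T t5499 (L l220 (T t91 (L l217 (L l351 (L l389 (T t6098 (L l217 (L l294 (T t6099 N)))))))))))) (K a213 (Fr a170 a255 l476 (Fr a42 a21 l68 (Fr a106 a234 l390 (Fr a192 a149 l519 (V t581))))) (K a42 (M a252 (F (T t5499 (L l66 (L l293 (L l390 (T t93 (T t5504 N)))))))) (K a106 (M a252 (F (T t5499 (L l293 (L l390 (L l516 (T t93 (L l142 (T t6100 (L l142 (L l239 (L l293 (L l390 (T t170 N)))))))))))))) (K a170 (M a195 (F (L l218 (T t906 (L l218 (L l239 (L l293 (L l390 (T t904 (L l239 (L l293 (L l389 (L l390 (L l392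 (T t896 (L l218 (T t6101 (L l239 (L l293 (L l390 (T t907 (L l220 (L l239 (L l293 (L l390 (T t5608 N)))))))))))))))))))))))))) (K a255 (M a252 (F (L l475 (T t5504 (L l389 (L l475 (T t6098 (L l239 (L l293 (L l296 (L l348 (T t6102 (L l239 (L l250 (L l293 (L l296 (T t6103 (L l239 (L l293 (L l296 (L l475 (T t6104 N)))))))))))))))))))))) (K a252 (M a195 (F (T t4539 (L l430 (T t2232 (T t884 N)))))) (K a195 (M a252 (F (T t4539 (L l389 (T t2094 (L l239 (L l293 (T t170 N)))))))) N))))))))))))))))))))))))⟩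
def e0_63__214_145 : Ent 4 := ⟨[a0, a63], [a214, a234], (M a48 (L l294 (F (T t1 (L l390 (T t2 (T t3 (L l390 (T t0 (K a16 (M a62 (L l294 (F (T t825 (L l18 (T t709 (L l18 (L l348 (T t826 (K a194 (M a254 (F (T t827 (L l18 (L l348 (L l390 (T t6105 N))))))) (K a254 (M a194 (F (T t827 (L l18 (L l348 (T t6106 N)))))) N))))))))))) (K a32 (M a62 (L l294 (F (T t825 (T t709 (L l20 (L l348 (T t826 (K a194 (M a254 (F (T t711 (L l270 (L l282 (T t6107 N)))))) (K a254 (M a194 (F (T t827 (L l348 (T t6106 N))))) N)))))))))) (K a21 (M a192 (L l294 (F (T t837 (L l47 (L l282 (L l347 (T t20 (L l47 (L l282 (L l347 (T t29 (K a194 (M a254 (F (T t28 (L l390 (L l516 (T t22 (L l47 (L l234 (L l282 (L l347 (T t29 N))))))))))) (K a254 (M a194 (F (T t28 (L l347 (L l432 (T t595 N)))))) N)))))))))))))) (K a37 (M a60 (L l294 (F (T t451 (L l28 (L l390 (T t43 (T t247 (K a194 (M a254 (F (T t880 (L l47 (T t6019 N))))) (K a254 (M a194 (F (T t880 (L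 l47 (L l390 (T t6108 N)))))) N)))))))))) (K a53 (M a60 (L l294 (F (T t247 (L l47 (T t67 (L l35 (L l47 (T t235 (K a194 (M a254 (F (T t880 (L l35 (L l348 (T t6020 N)))))) (K a254 (M a194 (F (T t880 (L l35 (L l47 (L l390 (T t6109 N))))))) N))))))))))) (K a26 (M a60 (L l294 (F (T t489 (L l54 (L l390 (T t43 (L l72 (T t64 (K a194 (M a254 (F (T t248 (T t6019 N)))) (K a254 (M a194 (F (T t489 (L l390 (T t6108 N))))) N))))))))))) (K a42 (M a106 (L l294 (F (T t578 (L l28 (L l282 (T t579 (T t551 (K a194 (M a254 (F (T t578 (L l28 (L l234 (L l282 (T t579 (T t551 N)))))))) (K a254 (M a194 (F (T t587 (L l28 (L l282 (T t579 N)))))) N)))))))))) (K a58 (M a60 (L l294 (F (T t67 (L l32 (T t247 (L l32 (T t235 (K a194 (M a254 (F (T t880 (L l348 (T t6020 N))))) (K a254 (M a194 (F (T t880 (L l390 (L l498 (T t6109 N)))))) N)))))))))) (K a15 (M a60 (L l294 (F (T t1308 (L l7 (T t67 (L l73 (T t64 (K a194 (M a254 (F (T t3235 (T t6019 N))))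 (K a254 (M a194 (F (T t3235 (L l390 (T t6108 N))))) N)))))))))) (K a194 (M a254 (F (T t1 (L l390 (T t2 (T t3 (L l390 (T t0 (K a16 (M a252 (F (T t6017 (L l18 (L l348 (L l390 (T t6018 N))))))) (K a32 (M a252 (F (T t6017 (L l348 (L l390 (L l404 (T t6018 N))))))) (K a21 (M a60 (F (T t248 (L l47 (L l65 (T t6019 N)))))) (K a37 (M a60 (F (T t880 (L l47 (T t6019 N))))) (K a53 (M a60 (F (T t880 (L l35 (L l348 (T t6020 N)))))) (K a26 (M a60 (F (T t248 (T t6019 N)))) (K a42 (M a170 (F (T t6013 (L l54 (L l256 (T t3070 N)))))) (K a58 (M a60 (F (T t880 (L l348 (T t6020 N))))) (K a15 (M a60 (F (T t3235 (T t6019 N)))) N))))))))))))))))) (K a254 (M a194 (F (T t1 (L l390 (T t2 (T t3 (L l390 (T t0 (K a16 (M a192 (F (T t6110 (L l390 (T t22 N))))) (K a32 (M a192 (F (T t225 (L l474 (T t2413 N))))) (K a21 (M a192 (F (T t28 (L l347 (L l432 (T t595 N)))))) (K a37 (M a192 (F (T t225 (L l474 (T t2413 N))))) (K a53 (M a192 (F (T t28 (L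 l432 (L l491 (T t595 N)))))) (K a26 (M a192 (F (T t225 (L l474 (T t2413 N))))) (K a42 (M a106 (F (T t587 (L l28 (L l282 (T t579 N)))))) (K a58 (M a192 (F (T t28 (L l36 (L l432 (T t595 N)))))) (K a15 (M a192 (F (T t2113 (L l63 (L l432 (T t595 N)))))) N))))))))))))))))) N))))))))))))))))))))⟩
def e0_63__214_146 : Ent 4 := ⟨[a0, a63], [a214, a235], (M a48 (F (T t1 (T t2 (T t3 (T t0 (K a16 (M a60 (F (T t64 (L l14 (L l18 (L l391 (T t67 (L l392 (T t65 N))))))))) (K a32 (M a60 (F (T t64 (L l391 (T t67 (L l24 (L l28 (L l392 (T t65 N))))))))) (K a21 (M a192 (F (T t837 (L l47 (L l347 (T t20 (L l47 (L l347 (T t29 N))))))))) (K a37 (M a192 (F (T t19 (L l47 (T t20 (L l295 (T t21 N))))))) (K a53 (M a192 (F (T t19 (L l295 (L l491 (T t21 (L l239 (T t31 N)))))))) (K a26 (M a192 (F (T t27 (T t20 (L l295 (T t21 N)))))) (K a42 (M a192 (F (T t19 (T t20 (L l28 (T t29 N)))))) (K a58 (M a192 (F (T t19 (L l295 (T t21 (L l54 (L l239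 (L l498 (T t31 N))))))))) (K a15 (M a192 (F (T t1800 (L l483 (T t27 (L l325 (T t20 N))))))) N)))))))))))))))⟩
def e0_63__214_147 : Ent 4 := ⟨[a0, a63], [a214, a236], (M a85 (F (T t90 (L l239 (T t88 (L l294 (T t52 (L l239 (T t89 (K a64 (M a252 (F (T t91 (L l239 (L l400 (T t497 N)))))) (K a192 (M a16 (F (L l400 (T t96 (T t966 (L l339 (L l400 (T t97 N)))))))) (K a21 (M a48 (F (T t873 (L l47 (L l400 (T t100 (T t50 N))))))) (K a149 (M a16 (F (T t666 (L l375 (L l400 (T t97 (L l170 (T t102 N)))))))) (K a213 (Fr a170 a255 l476 (Fr a42 a21 l68 (Fr a106 a234 l390 (Fr a192 a149 l519 (V t581))))) (K a42 (M a48 (F (L l251 (T t364 (L l390 (T t50 (L l28 (L l400 (T t100 N))))))))) (K a106 (M a48 (F (T t1 (L l104 (L l400 (T t509 (L l390 (T t50 N)))))))) (K a170 (M a16 (F (L l400 (L l404 (T t113 (L l239 (L l390 (T t98 (L l390 (L l400 (L l404 (T t97 (L l400 (L l404 (T t174 N))))))))))))))) (K a255 (M a16 (F (L l400 (T t112 (L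 l239 (L l289 (L l296 (T t98 (L l289 (L l400 (T t113 N))))))))))) N))))))))))))))))))⟩
def e0_63__214_148 : Ent 4 := ⟨[a0, a63], [a214, a237], (M a85 (F (T t90 (L l239 (T t88 (L l294 (T t52 (L l239 (T t89 (K a64 (M a16 (F (T t97 (L l84 (L l401 (T t96 (L l116 (L l239 (T t98 N))))))))) (K a192 (M a16 (F (T t260 (L l339 (T t97 (L l239 (L l296 (T t98 N)))))))) (K a21 (M a48 (F (T t99 (T t50 (L l47 (T t100 N)))))) (K a149 (M a16 (F (T t112 (L l291 (T t173 (L l170 (T t102 N))))))) (K a213 (Fr a170 a255 l476 (Fr a42 a21 l68 (Fr a106 a234 l390 (Fr a192 a149 l519 (V t581))))) (K a42 (M a48 (F (L l28 (T t99 (L l390 (T t50 (L l28 (T t100 N)))))))) (K a106 (M a48 (F (T t1 (L l104 (L l401 (T t509 (L l390 (T t50 N)))))))) (K a170 (M a16 (F (L l404 (T t113 (L l239 (L l390 (T t98 (L l390 (L l404 (T t97 (L l291 (L l404 (T t174 N))))))))))))) (K a255 (M a16 (F (T t112 (L l289 (T t113 (L l239 (L l289 (L l296 (T t98 N))))))))) N))))))))))))))))))⟩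
def e0_63__214_149 : Ent 4 := ⟨[a0, a63], [a214, a238], (M a48 (F (T t1 (T t2 (T t3 (T t0 (K a16 (M a60 (F (T t43 (T t64 (T t65 N))))) (K a32 (M a60 (F (T t67 (T t64 (L l24 (L l28 (T t65 N))))))) (K a21 (M a192 (F (T t837 (L l47 (L l347 (T t20 (L l47 (L l347 (T t29 N))))))))) (K a37 (M a192 (F (T t19 (L l47 (T t20 (L l290 (T t21 N))))))) (K a53 (M a192 (F (T t19 (L l290 (L l491 (T t21 (L l239 (T t31 N)))))))) (K a26 (M a192 (F (T t27 (T t20 (L l290 (T t21 N)))))) (K a42 (M a192 (F (T t19 (T t20 (L l28 (T t29 N)))))) (K a58 (M a192 (F (T t19 (L l290 (T t21 (L l54 (L l239 (L l498 (T t31 N))))))))) (K a15 (M a192 (F (T t1800 (L l483 (T t27 (L l325 (T t20 N))))))) N)))))))))))))))⟩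
def e0_63__214_150 : Ent 4 := ⟨[a0, a63], [a214, a239], (M a48 (F (T t1 (T t2 (L l397 (T t3 (L l404 (T t0 (K a16 (M a60 (F (T t43 (T t64 (T t65 N))))) (K a32 (M a170 (F (T t2102 (T t514 (L l256 (L l294 (T t580 N))))))) (K a21 (M a192 (F (T t27 (L l47 (L l289 (L l347 (T t20 (L l47 (L l289 (L l347 (L l404 (T t29 N)))))))))))) (K a37 (M a192 (F (T t837 (L l47 (L l289 (T t20 (L l289 (T t21 N)))))))) (K a53 (M a192 (F (T t27 (L l289 (L l491 (T t21 (L l239 (T t31 N)))))))) (K a26 (M a192 (F (T t27 (L l289 (T t20 (L l289 (T t21 N))))))) (K a42 (M a192 (F (T t837 (L l289 (T t20 (L l28 (L l289 (L l404 (T t29 N))))))))) (K a58 (M a192 (F (T t837 (L l289 (T t21 (L l54 (L l239 (L l498 (T t31 N))))))))) (K a15 (M a192 (F (T t1800 (L l483 (T t27 (L l289 (L l325 (T t20 N)))))))) N)))))))))))))))))⟩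
def e0_63__214_151 : Ent 4 := ⟨[a0, a63], [a214, a252], (M a60 (L l297 (F (T t116 (L l477 (T t67 (L l477 (T t43 (L l477 (T t68 (L l477 (T t69 (K a20 (M a48 (L l297 (F (T t138 (L l11 (L l471 (T t1 (L l11 (T t235 (K a233 (M a195 (F (T t610 (L l292 (L l346 (L l389 (T t6111 N))))))) (K a195 (M a233 (F (T t138 (L l337 (L l471 (T t2 (L l11 (T t235 N)))))))) N))))))))))) (K a40 (M a48 (L l297 (F (T t48 (L l441 (T t64 (L l52 (T t235 (K a233 (M a195 (F (T t246 (L l267 (T t4663 N))))) (K a195 (M a233 (F (T t246 (L l22 (L l337 (L l471 (T t2 (L l52 (T t235 N))))))))) N)))))))))) (K a21 (M a105 (L l297 (F (T t1142 (L l11 (L l261 (T t1129 (L l11 (T t405 (K a233 (Fr a195 a150 l518 (V t1153)) (K a195 (M a233 (F (L l11 (L l477 (T t6112 (L l228 (T t6113 (K a20 (Fr a169 a41 l389 (Fr a61 a62 l33 (Fr a193 a149 l515 (Fr a253 a213 l293 (Fr a85 a1 l473 (V t6154)))))) (K a40 (Fr a169 a41 l389 (Fr a61 a62 l33 (Fr a193 a149 l515 (Fr a253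 a213 l293 (Fr a85 a1 l473 (V t6154)))))) N))))))))) N))))))))))) (K a41 (M a105 (L l297 (F (T t1142 (T t419 (T t405 (K a233 (Fr a195 a150 l518 (V t1153)) (K a195 (M a233 (F (L l228 (L l295 (T t405 (L l294 (T t6115 (L l239 (T t6116 (L l65 (L l228 (L l294 (L l295 (T t6117 (L l22 (L l228 (L l239 (L l295 (T t6118 N))))))))))))))))))) N)))))))) (K a61 (M a16 (L l297 (F (T t112 (L l466 (T t1140 (L l59 (T t1141 (K a233 (M a195 (F (T t1574 (T t4939 N)))) (K a195 (M a233 (F (T t112 (L l338 (L l466 (T t1140 (L l59 (T t1141 N)))))))) N)))))))))) (K a22 (M a150 (L l297 (F (T t2375 (L l239 (L l261 (T t1135 (L l239 (L l294 (T t1137 (K a233 (Fr a195 a105 l518 (V t5977)) (K a195 (M a233 (F (L l228 (L l294 (T t6119 (L l66 (L l228 (L l239 (L l295 (L l477 (T t6120 (L l66 (L l239 (L l295 (T t6121 (L l228 (L l239 (L l294 (L l295 (T t1137 (L l228 (L l261 (L l294 (L l295 (T t6122 (L l239 (L l295 (T t6123 (L l11 (L l228 (L l294 (L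 l295 (L l477 (T t6124 (L l228 (L l239 (L l292 (L l295 (T t6125 (L l11 (L l228 (L l294 (T t6126 N))))))))))))))))))))))))))))))))))))))))))) N)))))))))))) (K a42 (M a105 (L l297 (F (T t419 (L l66 (L l292 (T t1128 (L l66 (T t405 (K a233 (Fr a195 a150 l518 (V t1153)) (K a195 (M a233 (F (L l66 (L l477 (T t6127 (L l295 (T t6128 (K a61 (Fr a169 a41 l389 (Fr a40 a20 l64 (Fr a235 a170 l392 (Fr a232 a234 l250 (Fr a106 a43 l393 (V t6155)))))) (K a62 (Fr a169 a41 l389 (Fr a40 a20 l64 (Fr a235 a170 l392 (Fr a232 a234 l250 (Fr a106 a43 l393 (V t6155)))))) N))))))))) N))))))))))) (K a62 (M a16 (L l297 (F (T t2447 (L l66 (L l471 (T t97 (L l66 (T t1141 (K a233 (M a195 (F (T t1574 (L l66 (T t4939 N))))) (K a195 (M a233 (F (T t2447 (L l66 (L l337 (L l471 (T t97 (L l66 (T t1141 N))))))))) N))))))))))) (K a3 (M a105 (L l297 (L l477 (F (T t419 (L l292 (L l309 (T t1128 (T t405 (K a169 (M a86 (L l297 (F (L l473 (T t419 (L l221 (L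 l292 (L l309 (T t403 (T t405 (K a233 (Fr a195 a150 l518 (V t1144)) (K a195 (M a233 (L l307 (F (L l228 (L l295 (T t405 (L l295 (T t6130 (L l228 (T t6131 (L l217 (L l294 (L l295 (T t6132 (L l174 (L l228 (L l239 (T t1154 (K a67 (M a131 (F (L l228 (L l295 (T t406 (L l295 (T t6130 (L l228 (T t6131 (L l143 (L l294 (L l295 (T t1155 (L l174 (L l228 (L l239 (T t1154 N))))))))))))))))) (K a131 (Fr a67 a124 l145 (V t405)) N)))))))))))))))))))) N)))))))))))) (K a233 (Fr a195 a150 l518 (V t1153)) (K a86 (M a169 (L l297 (L l348 (F (L l142 (T t1142 (L l261 (L l475 (T t1129 (K a233 (Fr a195 a150 l518 (M a22 (F (T t3539 (L l218 (L l261 (L l475 (T t1144 N)))))))) (K a22 (Fr a150 a195 l518 (Fr a233 a41 l389 (V t6133))) (K a150 (M a22 (L l297 (F (T t3525 (T t3532 (L l350 (L l516 (T t406 (K a233 (M a195 (F (T t3539 (L l218 (L l261 (L l475 (T t1144 N))))))) (K a195 (Fr a233 a41 l389 (V t5975)) N)))))))))) (K a195 (Fr a233 a41 l389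 (V t405)) N))))))))))))) (K a195 (M a233 (L l307 (L l477 (F (L l239 (T t6134 (L l294 (T t6135 (L l228 (L l295 (T t406 (K a169 (M a86 (L l307 (F (L l228 (L l295 (T t405 (L l295 (T t6130 (L l228 (T t6131 (L l217 (L l294 (L l295 (T t6132 (L l174 (L l228 (L l239 (T t1154 (K a67 (M a131 (F (L l228 (L l295 (T t406 (L l295 (T t6130 (L l228 (T t6131 (L l143 (L l294 (L l295 (T t1155 (L l174 (L l228 (L l239 (T t1154 N))))))))))))))))) (K a131 (Fr a67 a124 l145 (V t405)) N)))))))))))))))))))) (K a86 (Fr a169 a41 l389 (V t405)) (K a67 (M a131 (L l477 (F (L l239 (T t6134 (L l294 (T t6135 (L l228 (L l295 (T t405 (K a169 (M a86 (F (L l228 (L l295 (T t406 (L l295 (T t6130 (L l228 (T t6131 (L l143 (L l294 (L l295 (T t1155 (L l174 (L l228 (L l239 (T t1154 N))))))))))))))))) (K a86 (Fr a169 a41 l389 (V t406)) N)))))))))))) (K a131 (M a67 (L l477 (F (L l294 (T t6135 (L l239 (T t6134 (L l152 (L l228 (L l295 (T t405 (K a169 (Fr a86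 a124 l145 (V t405)) (K a86 (Fr a169 a41 l389 (V t405)) N))))))))))))) N))))))))))))))) N))))))))))))) (K a233 (M a195 (F (T t662 (L l239 (L l261 (L l389 (T t4396 (L l292 (L l293 (L l348 (T t6136 N))))))))))) (K a195 (M a233 (F (T t116 (L l228 (L l239 (L l477 (T t6137 (L l294 (L l295 (L l477 (T t6138 (K a21 (M a48 (F (T t138 (L l11 (L l338 (L l466 (T t489 (L l11 (L l18 (L l47 (L l65 (L l338 (L l466 (T t288 (L l50 (L l338 (L l466 (T t250 N)))))))))))))))))) (K a41 (M a32 (F (T t1568 (L l65 (L l337 (L l471 (T t219 (L l25 (L l65 (T t1569 N)))))))))) (K a22 (M a105 (L l348 (F (L l66 (L l239 (T t6134 (L l11 (L l294 (T t6135 (L l66 (L l228 (T t6113 (L l11 (L l295 (T t6128 (K a86 (M a150 (L l477 (F (L l66 (L l228 (T t1138 (L l11 (L l87 (L l295 (T t6139 (K a169 (M a3 (F (L l239 (L l295 (T t6140 (L l66 (L l228 (T t1138 N)))))))) (K a3 (Fr a169 a41 l389 (V t6133)) N)))))))))))) (K a150 (M a86 (F (L l66 (L l228 (L l239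 (L l292 (L l307 (L l516 (T t6141 (L l11 (L l221 (L l350 (T t6142 (L l11 (L l66 (L l228 (L l295 (L l350 (L l516 (T t406 (L l66 (L l221 (L l516 (T t6143 (L l11 (L l261 (L l294 (L l295 (L l307 (L l350 (T t6144 N))))))))))))))))))))))))))))))) N))))))))))))))))) (K a42 (M a48 (F (T t3520 (L l54 (L l441 (L l487 (T t451 (L l56 (L l338 (L l466 (T t288 (L l22 (L l28 (L l54 (L l66 (L l338 (L l466 (T t250 N)))))))))))))))))) (K a3 (M a105 (L l307 (L l477 (F (L l239 (T t6134 (L l294 (T t6135 (L l228 (L l295 (T t406 (K a169 (M a86 (L l307 (F (L l228 (L l295 (T t405 (L l295 (T t6130 (L l228 (T t6131 (L l217 (L l294 (L l295 (T t6132 (L l174 (L l228 (L l239 (T t1154 (K a67 (M a131 (F (L l228 (L l295 (T t406 (L l295 (T t6130 (L l228 (T t6131 (L l143 (L l294 (L l295 (T t1155 (L l174 (L l228 (L l239 (T t1154 N))))))))))))))))) (K a131 (Fr a67 a124 l145 (V t405)) N)))))))))))))))))))) (K a86 (Fr a169 a41 l389 (V t405)) (K a67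 (M a131 (L l477 (F (L l239 (T t6134 (L l294 (T t6135 (L l228 (L l295 (T t405 (K a169 (M a86 (F (L l228 (L l295 (T t406 (L l295 (T t6130 (L l228 (T t6131 (L l143 (L l294 (L l295 (T t1155 (L l174 (L l228 (L l239 (T t1154 N))))))))))))))))) (K a86 (Fr a169 a41 l389 (V t406)) N)))))))))))) (K a131 (M a67 (L l477 (F (L l294 (T t6135 (L l239 (T t6134 (L l152 (L l228 (L l295 (T t405 (K a169 (Fr a86 a124 l145 (V t405)) (K a86 (Fr a169 a41 l389 (V t405)) N))))))))))))) N))))))))))))))) N)))))))))))))))) N)))))))))))))))))))))))⟩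
def e0_63__214_152 : Ent 4 := ⟨[a0, a63], [a214, a253], (M a149 (F (L l294 (T t175 (L l239 (L l293 (T t5 (L l239 (L l261 (L l293 (T t176 (L l261 (T t177 (K a192 (M a53 (F (T t178 (L l236 (T t179 (L l236 (L l239 (L l293 (L l296 (T t180 N)))))))))) (K a21 (M a48 (F (T t4 (T t13 (L l18 (T t14 N)))))) (K a85 (M a1 (F (L l431 (T t534 (L l144 (L l293 (L l297 (T t1083 (L l141 (T t1084 N)))))))))) (K a213 (Fr a106 a192 l519 (Fr a42 a21 l68 (Fr a170 a234 l390 (Fr a255 a85 l476 (V t582))))) (K a42 (M a48 (F (T t187 (L l390 (T t13 (L l54 (T t14 N))))))) (K a106 (M a48 (F (T t1 (L l498 (T t14 (L l239 (L l293 (L l390 (L l437 (L l498 (T t6 (L l239 (L l293 (L l390 (T t26 N))))))))))))))) (K a170 (M a48 (F (T t4 (L l462 (T t1 (L l390 (T t13 N))))))) (K a191 (M a16 (F (T t97 (T t190 (L l213 (L l239 (L l293 (T t191 N)))))))) (K a255 (M a252 (F (T t2112 (L l239 (L l434 (T t940 (L l475 (T t6145 (L l348 (L l431 (T t1292 N)))))))))))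 N))))))))))))))))))))))⟩
def e0_63__214_153 : Ent 4 := ⟨[a0, a63], [a214, a254], (M a48 (L l294 (F (T t1 (T t2 (T t3 (T t0 (K a16 (M a192 (L l294 (F (T t20 (L l261 (T t21 (L l18 (L l340 (T t213 (K a194 (M a234 (F (T t5291 (L l239 (L l264 (T t6146 N)))))) (K a234 (M a194 (F (T t6110 (L l390 (T t22 N))))) N))))))))))) (K a32 (M a106 (L l294 (F (T t309 (L l28 (L l239 (T t586 (T t6147 (K a194 (M a234 (F (T t6148 (L l234 (T t307 N))))) (K a234 (M a194 (F (T t578 (L l348 (L l474 (T t6149 N)))))) N)))))))))) (K a21 (M a192 (L l294 (F (T t837 (L l47 (L l347 (T t20 (L l47 (L l347 (T t29 (K a194 (M a234 (F (L l347 (T t6023 (T t837 N))))) (K a234 (M a194 (F (T t28 (L l347 (L l432 (T t595 N)))))) N)))))))))))) (K a37 (M a192 (L l294 (F (T t19 (L l47 (T t20 (L l261 (T t21 (K a194 (M a234 (F (T t5291 (T t837 N)))) (K a234 (M a194 (F (T t225 (L l474 (T t2413 N))))) N)))))))))) (K a53 (M a192 (L l294 (F (T t19 (L l261 (L l491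 (T t21 (L l239 (T t31 (K a194 (M a234 (F (L l491 (T t5291 (T t837 N))))) (K a234 (M a194 (F (T t28 (L l432 (L l491 (T t595 N)))))) N))))))))))) (K a26 (M a192 (L l294 (F (T t27 (T t20 (L l261 (T t21 (K a194 (M a234 (F (T t5291 (T t837 N)))) (K a234 (M a194 (F (T t225 (L l474 (T t2413 N))))) N))))))))) (K a42 (M a106 (L l294 (F (T t309 (T t551 (L l28 (T t579 (K a194 (M a234 (F (T t6150 (L l234 (T t307 (L l28 (L l234 (T t579 N)))))))) (K a234 (M a194 (F (T t587 (L l28 (L l282 (T t579 N)))))) N))))))))) (K a58 (M a192 (L l294 (F (T t19 (L l261 (T t21 (L l54 (L l239 (L l498 (T t31 (K a194 (M a234 (F (T t5291 (T t837 N)))) (K a234 (M a194 (F (T t28 (L l36 (L l432 (T t595 N)))))) N)))))))))))) (K a15 (M a192 (L l294 (F (T t1800 (L l483 (T t27 (L l325 (T t20 (K a194 (M a234 (F (T t5291 (L l483 (T t837 N))))) (K a234 (M a194 (F (T t2113 (L l63 (L l432 (T t595 N)))))) N)))))))))) (K a194 (M a234 (F (T t1 (L l474 (T t6021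 (L l474 (T t6022 (K a21 (M a192 (F (L l347 (T t6023 (T t837 N))))) (K a42 (M a192 (F (T t6024 (L l54 (L l516 (T t206 (T t837 N))))))) N))))))))) (K a234 (M a194 (F (T t1 (L l390 (T t2 (T t3 (L l390 (T t0 (K a16 (M a192 (F (T t6110 (L l390 (T t22 N))))) (K a32 (M a192 (F (T t225 (L l474 (T t2413 N))))) (K a21 (M a192 (F (T t28 (L l347 (L l432 (T t595 N)))))) (K a37 (M a192 (F (T t225 (L l474 (T t2413 N))))) (K a53 (M a192 (F (T t28 (L l432 (L l491 (T t595 N)))))) (K a26 (M a192 (F (T t225 (L l474 (T t2413 N))))) (K a42 (M a106 (F (T t587 (L l28 (L l282 (T t579 N)))))) (K a58 (M a192 (F (T t28 (L l36 (L l432 (T t595 N)))))) (K a15 (M a192 (F (T t2113 (L l63 (L l432 (T t595 N)))))) N))))))))))))))))) N))))))))))))))))))⟩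
def e0_63__214_154 : Ent 4 := ⟨[a0, a63], [a214, a255], (M a48 (F (T t48 (L l469 (T t1 (L l469 (T t2 (L l469 (T t3 (L l469 (T t0 (K a16 (M a60 (F (T t138 (L l14 (L l18 (L l475 (T t67 (T t65 N)))))))) (K a32 (M a60 (F (T t138 (L l475 (T t67 (L l24 (L l28 (T t65 N)))))))) (K a21 (M a192 (F (T t2113 (L l47 (L l289 (L l347 (T t20 (L l47 (L l289 (L l347 (T t29 N))))))))))) (K a37 (M a192 (F (T t54 (L l266 (T t27 (L l28 (L l47 (L l289 (T t29 N))))))))) (K a53 (M a12 (F (T t145 (L l47 (L l439 (T t122 (L l47 (T t146 N)))))))) (K a26 (M a192 (F (T t2113 (L l289 (T t20 (L l289 (T t29 N))))))) (K a42 (M a192 (F (T t56 (L l266 (T t27 (L l28 (L l289 (T t29 N)))))))) (K a58 (M a12 (F (T t145 (L l439 (T t122 (T t146 N)))))) (K a15 (M a192 (L l469 (F (T t54 (L l266 (L l483 (T t27 (L l289 (T t29 (K a95 (M a175 (F (T t53 (L l266 (L l483 (T t28 (L l289 (L l361 (T t29 N))))))))) (K a175 (M a95 (F (T t53 (L l266 (L l483 (T t28 (L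 l289 (T t29 N)))))))) N))))))))))) N))))))))))))))))))))⟩
def b0_63__214 : Blk 4 := ⟨[0, 63], [214], [1, 2, 3, 4, 5, 6, 7, 8, 9, 10, 11, 12, 13, 14, 15, 20, 22, 23, 24, 25, 26, 27, 28, 29, 30, 31, 40, 41, 43, 44, 45, 46, 47, 60, 61, 62, 64, 65, 66, 67, 68, 69, 70, 71, 72, 73, 74, 75, 76, 77, 78, 79, 84, 85, 86, 87, 88, 89, 90, 91, 92, 93, 94, 95, 104, 105, 106, 107, 108, 109, 110, 111, 124, 125, 126, 127, 128, 129, 130, 131, 132, 133, 134, 135, 136, 137, 138, 139, 140, 141, 142, 143, 148, 149, 150, 151, 152, 153, 154, 155, 156, 157, 158, 159, 168, 169, 170, 171, 172, 173, 174, 175, 188, 189, 190, 191, 192, 193, 194, 195, 196, 197, 198, 199, 200, 201, 202, 203, 204, 205, 206, 207, 212, 213, 215, 216, 217, 218, 219, 220, 221, 222, 223, 232, 233, 234, 235, 236, 237, 238, 239, 252, 253, 254, 255], [e0_63__214_0, e0_63__214_1, e0_63__214_2, e0_63__214_3, e0_63__214_4, e0_63__214_5, e0_63__214_6, e0_63__214_7, e0_63__214_8,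 e0_63__214_9, e0_63__214_10, e0_63__214_11, e0_63__214_12, e0_63__214_13, e0_63__214_14, e0_63__214_15, e0_63__214_16, e0_63__214_17, e0_63__214_18, e0_63__214_19, e0_63__214_20, e0_63__214_21, e0_63__214_22, e0_63__214_23, e0_63__214_24, e0_63__214_25, e0_63__214_26, e0_63__214_27, e0_63__214_28, e0_63__214_29, e0_63__214_30, e0_63__214_31, e0_63__214_32, e0_63__214_33, e0_63__214_34, e0_63__214_35, e0_63__214_36, e0_63__214_37, e0_63__214_38, e0_63__214_39, e0_63__214_40, e0_63__214_41, e0_63__214_42, e0_63__214_43, e0_63__214_44, e0_63__214_45, e0_63__214_46, e0_63__214_47, e0_63__214_48, e0_63__214_49, e0_63__214_50, e0_63__214_51, e0_63__214_52, e0_63__214_53, e0_63__214_54, e0_63__214_55, e0_63__214_56, e0_63__214_57, e0_63__214_58, e0_63__214_59, e0_63__214_60, e0_63__214_61, e0_63__214_62, e0_63__214_63, e0_63__214_64, e0_63__214_65, e0_63__214_66, e0_63__214_67, e0_63__214_68, e0_63__214_69, e0_63__214_70,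 e0_63__214_71, e0_63__214_72, e0_63__214_73, e0_63__214_74, e0_63__214_75, e0_63__214_76, e0_63__214_77, e0_63__214_78, e0_63__214_79, e0_63__214_80, e0_63__214_81, e0_63__214_82, e0_63__214_83, e0_63__214_84, e0_63__214_85, e0_63__214_86, e0_63__214_87, e0_63__214_88, e0_63__214_89, e0_63__214_90, e0_63__214_91, e0_63__214_92, e0_63__214_93, e0_63__214_94, e0_63__214_95, e0_63__214_96, e0_63__214_97, e0_63__214_98, e0_63__214_99, e0_63__214_100, e0_63__214_101, e0_63__214_102, e0_63__214_103, e0_63__214_104, e0_63__214_105, e0_63__214_106, e0_63__214_107, e0_63__214_108, e0_63__214_109, e0_63__214_110, e0_63__214_111, e0_63__214_112, e0_63__214_113, e0_63__214_114, e0_63__214_115, e0_63__214_116, e0_63__214_117, e0_63__214_118, e0_63__214_119, e0_63__214_120, e0_63__214_121, e0_63__214_122, e0_63__214_123, e0_63__214_124, e0_63__214_125, e0_63__214_126, e0_63__214_127, e0_63__214_128, e0_63__214_129, e0_63__214_130,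 e0_63__214_131, e0_63__214_132, e0_63__214_133, e0_63__214_134, e0_63__214_135, e0_63__214_136, e0_63__214_137, e0_63__214_138, e0_63__214_139, e0_63__214_140, e0_63__214_141, e0_63__214_142, e0_63__214_143, e0_63__214_144, e0_63__214_145, e0_63__214_146, e0_63__214_147, e0_63__214_148, e0_63__214_149, e0_63__214_150, e0_63__214_151, e0_63__214_152, e0_63__214_153, e0_63__214_154], by decide +kernel, by decide +kernel⟩

end Pool.Agent.Lib_TTT.K4
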