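import Pool.Agent.Lib_TTT.K4Base
import Pool.Agent.Lib_TTT.K4T00
import Pool.Agent.Lib_TTT.K4T01
import Pool.Agent.Lib_TTT.K4T02
import Pool.Agent.Lib_TTT.K4T03
import Pool.Agent.Lib_TTT.K4T04
import Pool.Agent.Lib_TTT.K4T05
import Pool.Agent.Lib_TTT.K4T06

/-! Certificates in `4^4`. -/

set_option autoImplicit false
set_option maxRecDepth 200000

namespace Pool.Agent.Lib_TTT.K4

open Lib_TTT AC DC

def e0_63__215_0 : Ent 4 := ⟨[a0, a63], [a215, a1], (M a48 (F (T t0 (L l65 (T t1 (L l5 (T t2 (L l65 (T t3 (K a16 (M a60 (F (T t42 (L l14 (L l18 (L l65 (L l350 (T t67 (L l5 (L l349 (T t65 N))))))))))) (K a32 (M a60 (F (T t42 (L l65 (L l350 (T t67 (L l5 (L l24 (L l28 (L l349 (T t65 N))))))))))) (K a21 (M a192 (L l65 (F (T t837 (L l47 (L l347 (T t20 (L l47 (L l245 (L l347 (T t29 (K a41 (M a61 (F (T t27 (L l295 (L l305 (T t584 N)))))) (K a61 (M a41 (F (T t27 (L l35 (L l47 (L l347 (L l515 (T t20 (L l18 (T t46 N))))))))))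 N))))))))))))) (K a37 (M a192 (F (T t19 (L l47 (T t20 (L l295 (T t21 N))))))) (K a53 (M a192 (F (T t19 (L l295 (L l491 (T t21 (L l239 (T t31 N)))))))) (K a26 (M a192 (F (T t837 (T t20 (L l295 (T t21 N)))))) (K a42 (M a192 (F (T t19 (T t20 (L l28 (L l245 (T t29 N))))))) (K a58 (M a192 (F (T t19 (L l295 (T t21 (L l54 (L l239 (L l498 (T t31 N))))))))) (K a15 (M a85 (F (T t567 (L l239 (L l245 (T t568 N)))))) N))))))))))))))))))⟩
def e0_63__215_1 : Ent 4 := ⟨[a0, a63], [a215, a2], (M a48 (F (T t3 (L l6 (T t1 (L l66 (T t2 (L l66 (T t0 (K a16 (M a60 (F (T t42 (L l66 (L l349 (T t43 (L l6 (L l14 (L l18 (L l350 (T t44 N))))))))))) (K a32 (M a60 (F (T t42 (L l24 (L l28 (L l66 (L l349 (T t43 (L l6 (L l350 (T t44 N))))))))))) (K a21 (M a192 (F (T t837 (L l47 (L l347 (T t20 (L l47 (L l245 (L l347 (T t29 N)))))))))) (K a37 (M a192 (F (T t19 (L l47 (T t20 (L l295 (T t21 N))))))) (K a53 (M a192 (F (T t19 (L l295 (L l491 (T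 t21 (L l66 (L l239 (T t31 N))))))))) (K a26 (M a192 (F (T t837 (T t20 (L l295 (T t21 N)))))) (K a42 (M a192 (L l66 (F (T t19 (T t20 (L l28 (L l245 (T t29 (K a22 (M a62 (F (T t19 (L l295 (L l306 (T t45 N)))))) (K a62 (M a22 (F (T t27 (T t20 (L l390 (L l516 (T t46 N))))))) N)))))))))) (K a58 (M a192 (F (T t19 (L l295 (T t21 (L l54 (L l66 (L l239 (L l498 (T t31 N)))))))))) (K a15 (M a192 (F (T t47 (L l483 (T t27 (L l325 (T t20 N))))))) N))))))))))))))))))⟩
def e0_63__215_2 : Ent 4 := ⟨[a0, a63], [a215, a3], (M a48 (F (T t48 (L l7 (T t1 (L l7 (T t2 (L l7 (T t3 (L l7 (T t0 (K a16 (M a85 (F (T t4539 (L l453 (T t50 (L l239 (T t51 N))))))) (K a32 (M a85 (F (L l295 (L l475 (T t52 (L l404 (L l453 (T t50 (L l28 (L l239 (T t51 N))))))))))) (K a21 (M a192 (F (T t54 (L l453 (T t27 (L l47 (L l245 (L l347 (T t29 N))))))))) (K a37 (M a192 (F (T t54 (L l453 (T t27 (L l295 (L l475 (T t21 N)))))))) (K a53 (M a192 (F (T t55 (L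 l295 (L l475 (L l491 (T t21 (L l239 (T t31 N))))))))) (K a26 (M a192 (F (T t56 (L l453 (T t27 (L l295 (L l475 (T t21 N)))))))) (K a42 (M a192 (F (T t56 (L l453 (T t27 (L l28 (L l245 (T t29 N)))))))) (K a58 (M a192 (F (T t57 (L l453 (T t27 (L l54 (L l239 (L l498 (T t31 N))))))))) (K a15 (M a85 (L l7 (F (T t567 (L l239 (L l245 (T t568 (K a7 (M a11 (F (T t1243 (L l239 (L l309 (L l339 (T t352 (L l245 (T t100 N))))))))) (K a11 (M a7 (F (T t567 (L l239 (L l245 (T t568 N)))))) N))))))))) N))))))))))))))))))))⟩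
def e0_63__215_3 : Ent 4 := ⟨[a0, a63], [a215, a4], (M a48 (F (T t0 (L l50 (T t1 (L l1 (T t2 (L l50 (T t3 (K a16 (M a60 (F (T t64 (L l349 (T t43 (L l1 (L l349 (T t65 N)))))))) (K a32 (M a60 (F (T t64 (L l24 (L l28 (L l349 (T t43 (L l1 (L l24 (L l28 (L l349 (T t65 N)))))))))))) (K a21 (M a192 (L l50 (F (T t837 (L l47 (L l347 (T t20 (L l47 (L l245 (L l347 (T t29 (K a38 (M a55 (F (T t837 (L l310 (T t66 N))))) (K a55 (M a38 (F (T t27 (L l31 (L l47 (L l347 (L l495 (T t20 (L l18 (T t46 N)))))))))) N))))))))))))) (K a37 (M a192 (F (T t19 (L l47 (T t20 (L l295 (T t21 N))))))) (K a53 (M a192 (F (T t19 (L l295 (L l491 (T t21 (L l239 (T t31 N)))))))) (K a26 (M a192 (F (T t837 (T t20 (L l295 (T t21 N)))))) (K a42 (M a192 (F (T t19 (T t20 (L l28 (L l245 (T t29 N))))))) (K a58 (M a192 (F (T t19 (L l295 (T t21 (L l54 (L l239 (L l498 (T t31 N))))))))) (K a15 (M a85 (F (T t567 (L l239 (L l245 (T t568 N)))))) N))))))))))))))))))⟩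
def e0_63__215_4 : Ent 4 := ⟨[a0, a63], [a215, a5], (M a60 (F (L l349 (T t43 (L l47 (L l350 (T t67 (L l47 (T t68 (L l5 (T t69 (K a20 (M a85 (F (T t90 (T t114 (L l239 (T t1344 N)))))) (K a40 (M a48 (F (T t70 (L l47 (T t3 (L l22 (L l24 (T t71 N)))))))) (K a21 (M a192 (L l47 (F (T t77 (L l295 (L l347 (T t73 (L l11 (L l295 (L l350 (T t1541 (K a37 (M a53 (F (T t1333 (L l311 (T t613 N))))) (K a53 (M a37 (F (T t77 (L l295 (L l347 (L l491 (T t73 (L l11 (L l295 (L l350 (T t78 N))))))))))) N))))))))))))) (K a41 (M a192 (F (T t77 (L l47 (L l65 (L l295 (T t35 (L l295 (T t73 N))))))))) (K a61 (M a192 (F (T t77 (L l47 (L l65 (L l295 (L l515 (T t35 (L l47 (L l65 (L l515 (T t2549 N)))))))))))) (K a22 (M a192 (F (T t77 (L l295 (T t21 (L l295 (T t73 N))))))) (K a42 (M a192 (F (T t77 (L l295 (T t73 (L l66 (L l295 (L l350 (L l390 (T t1541 N)))))))))) (K a62 (M a192 (F (T t77 (L l47 (L l295 (T t35 (L l47 (T t2549 N)))))))) (K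 a3 (M a192 (F (T t1343 (L l239 (L l477 (T t72 (L l47 (L l295 (L l475 (T t35 N)))))))))) N))))))))))))))))))))⟩
def e0_63__215_5 : Ent 4 := ⟨[a0, a63], [a215, a6], (M a149 (F (T t175 (L l239 (T t5 (L l239 (L l295 (T t176 (L l295 (T t177 (K a192 (M a53 (F (T t939 (L l236 (T t179 (L l236 (L l239 (L l296 (T t180 N))))))))) (K a21 (M a48 (F (T t4 (T t13 (L l18 (T t14 N)))))) (K a85 (M a20 (F (L l349 (T t1268 (L l144 (L l239 (T t1269 (L l48 (L l87 (L l456 (T t1270 N))))))))))) (K a213 (Fr a106 a192 l519 (Fr a42 a21 l68 (Fr a170 a234 l390 (Fr a255 a85 l476 (V t582))))) (K a42 (M a48 (F (T t187 (L l390 (T t13 (L l54 (T t14 N))))))) (K a106 (M a48 (F (L l411 (T t3 (L l498 (T t14 (L l239 (L l390 (L l498 (T t6 (L l239 (L l245 (L l390 (T t26 N)))))))))))))) (K a170 (M a48 (F (T t4 (L l6 (L l462 (T t1 (L l390 (T t13 N)))))))) (K a191 (M a60 (F (T t463 (L l239 (T t1256 N))))) (K a255 (M a195 (F (T t2098 (L l6 (L l9 (L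 l475 (T t1114 (L l239 (L l296 (L l434 (T t1272 (L l349 (T t1273 N))))))))))))) N)))))))))))))))))))⟩
def e0_63__215_6 : Ent 4 := ⟨[a0, a63], [a215, a7], (M a149 (F (T t175 (L l239 (T t5 (L l239 (L l295 (T t176 (L l295 (T t177 (K a192 (M a53 (F (T t939 (L l236 (T t179 (L l236 (L l239 (L l296 (T t180 N))))))))) (K a21 (M a48 (F (T t4 (T t13 (L l18 (T t14 N)))))) (K a85 (M a20 (F (L l473 (T t2163 (L l144 (L l239 (T t1269 (L l51 (L l87 (L l459 (T t1270 N))))))))))) (K a213 (Fr a106 a192 l519 (Fr a42 a21 l68 (Fr a170 a234 l390 (Fr a255 a85 l476 (V t582))))) (K a42 (M a48 (F (T t187 (L l390 (T t13 (L l54 (T t14 N))))))) (K a106 (M a48 (F (T t48 (L l498 (T t14 (L l239 (L l390 (L l498 (T t6 (L l239 (L l245 (L l390 (T t26 N))))))))))))) (K a170 (M a48 (F (T t4 (L l7 (L l462 (T t1 (L l390 (T t13 N)))))))) (K a191 (M a240 (F (T t962 (L l239 (L l315 (T t963 N)))))) (K a255 (M a195 (F (T t2098 (L l7 (L l475 (T t1114 (L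 l239 (L l296 (L l434 (T t1272 (L l49 (L l349 (T t1273 N))))))))))))) N)))))))))))))))))))⟩
def e0_63__215_7 : Ent 4 := ⟨[a0, a63], [a215, a8], (M a85 (F (L l295 (T t52 (L l56 (L l239 (T t88 (L l56 (L l239 (T t89 (L l464 (T t90 (K a64 (M a16 (F (L l56 (T t97 (L l84 (L l245 (T t96 (L l56 (L l116 (L l239 (L l245 (T t98 N)))))))))))) (K a192 (M a16 (F (L l245 (T t96 (L l56 (L l339 (T t97 (L l56 (L l239 (L l245 (L l296 (T t98 N)))))))))))) (K a21 (M a48 (F (L l245 (T t1699 (L l464 (T t50 (L l47 (L l245 (T t100 N))))))))) (K a149 (M a16 (F (L l245 (T t173 (L l56 (L l375 (T t97 (L l56 (L l170 (T t102 N)))))))))) (K a213 (Fr a170 a255 l476 (Fr a42 a21 l68 (Fr a106 a234 l390 (Fr a192 a149 l519 (V t581))))) (K a42 (M a59 (F (L l26 (T t3224 (L l390 (L l464 (T t105 (L l26 (L l316 (T t106 (L l316 (L l390 (L l464 (T t107 N)))))))))))))) (K a106 (M a48 (F (L l2 (T t1 (L l104 (L l245 (T t509 (L l390 (L l464 (T t50 N))))))))))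 (K a170 (M a89 (F (L l178 (T t108 (L l56 (L l239 (L l390 (T t109 (L l178 (L l316 (T t110 (L l56 (L l178 (L l239 (L l390 (T t111 N)))))))))))))))) (K a255 (M a16 (L l295 (F (L l56 (T t112 (L l245 (L l289 (T t113 (L l56 (L l239 (L l245 (L l289 (L l296 (T t98 (K a195 (M a235 (F (L l56 (T t112 (L l245 (L l289 (T t113 (L l56 (L l239 (L l245 (L l289 (L l296 (T t98 N))))))))))))) (K a235 (M a195 (F (T t6156 (L l56 (L l239 (L l296 (T t2820 N))))))) N)))))))))))))))) N)))))))))))))))))))))⟩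
def e0_63__215_8 : Ent 4 := ⟨[a0, a63], [a215, a9], (M a149 (F (T t175 (L l239 (T t5 (L l239 (L l295 (T t176 (L l295 (T t177 (K a192 (M a53 (F (T t939 (L l236 (T t179 (L l236 (L l239 (L l296 (T t180 N))))))))) (K a21 (M a48 (F (T t4 (T t13 (L l18 (T t14 N)))))) (K a85 (M a20 (F (L l349 (T t1268 (L l144 (L l239 (T t1269 (L l87 (T t1270 N))))))))) (K a213 (Fr a106 a192 l519 (Fr a42 a21 l68 (Fr a170 a234 l390 (Fr a255 a85 l476 (V t582))))) (K a42 (M a48 (F (T t187 (L l390 (T t13 (L l54 (T t14 N))))))) (K a106 (M a48 (F (L l411 (T t3 (L l498 (T t14 (L l239 (L l390 (L l498 (T t6 (L l239 (L l245 (L l390 (T t26 N)))))))))))))) (K a170 (M a48 (F (T t4 (L l2 (L l462 (T t1 (L l390 (T t13 N)))))))) (K a191 (M a60 (F (T t463 (L l239 (T t1256 N))))) (K a255 (M a195 (F (T t2098 (L l9 (L l475 (T t1114 (L l239 (L l296 (L l434 (T t1272 (L l349 (T t1273 N)))))))))))) N)))))))))))))))))))⟩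
def e0_63__215_9 : Ent 4 := ⟨[a0, a63], [a215, a10], (M a85 (F (L l295 (T t52 (L l54 (L l239 (T t88 (L l54 (L l239 (T t89 (L l462 (T t90 (K a64 (M a16 (F (L l54 (T t97 (L l84 (L l245 (T t96 (L l54 (L l116 (L l239 (L l245 (T t98 N)))))))))))) (K a192 (M a16 (F (L l54 (L l339 (T t97 (L l245 (T t96 (L l54 (L l239 (L l245 (L l296 (T t98 N)))))))))))) (K a21 (M a48 (F (L l245 (T t509 (L l462 (T t50 (L l47 (L l245 (L l318 (T t100 N)))))))))) (K a149 (M a48 (F (L l54 (L l375 (T t0 (L l245 (L l295 (T t99 (L l220 (L l462 (T t50 N))))))))))) (K a213 (Fr a170 a255 l476 (Fr a42 a21 l68 (Fr a106 a234 l390 (Fr a192 a149 l519 (V t581))))) (K a42 (M a58 (F (L l295 (T t118 (L l390 (L l462 (T t119 (L l28 (L l245 (L l318 (T t120 (L l318 (L l390 (L l462 (T t121 N))))))))))))))) (K a106 (M a12 (F (T t122 (L l2 (L l132 (L l277 (T t123 (L l390 (L l462 (T t124 N)))))))))) (K a170 (M a90 (F (L l180 (T t125 (L l54 (L l239 (L l390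 (T t126 (L l180 (L l318 (T t127 (L l54 (L l180 (L l239 (L l390 (T t128 N)))))))))))))))) (K a255 (M a4 (L l295 (F (L l2 (L l54 (T t129 (L l2 (L l265 (L l277 (T t130 (L l54 (L l239 (L l265 (L l277 (L l296 (T t131 (K a195 (M a235 (F (L l2 (L l54 (T t129 (L l2 (L l265 (L l277 (T t130 (L l54 (L l239 (L l265 (L l277 (L l296 (T t131 N))))))))))))))) (K a235 (M a195 (F (L l2 (T t6157 (L l54 (L l239 (L l296 (T t6158 N)))))))) N)))))))))))))))))) N)))))))))))))))))))))⟩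
def e0_63__215_10 : Ent 4 := ⟨[a0, a63], [a215, a11], (M a149 (F (T t175 (L l239 (T t5 (L l239 (L l295 (T t176 (L l295 (T t177 (K a192 (M a53 (F (T t178 (L l236 (T t179 (L l236 (L l239 (L l296 (T t180 N))))))))) (K a21 (M a48 (F (T t4 (T t13 (L l18 (T t14 N)))))) (K a85 (M a20 (F (L l349 (T t1268 (L l144 (L l239 (T t1269 (L l87 (T t1270 N))))))))) (K a213 (Fr a106 a192 l519 (Fr a42 a21 l68 (Fr a170 a234 l390 (Fr a255 a85 l476 (V t582))))) (K a42 (M a48 (F (T t187 (L l390 (T t13 (L l54 (T t14 N))))))) (K a106 (M a48 (F (L l2 (T t48 (L l498 (T t14 (L l239 (L l390 (L l498 (T t6 (L l239 (L l245 (L l390 (T t26 N)))))))))))))) (K a170 (M a48 (F (T t4 (L l2 (L l7 (L l462 (T t1 (L l390 (T t13 N))))))))) (K a191 (M a60 (F (T t463 (L l239 (T t1256 N))))) (K a255 (M a195 (F (T t2098 (L l7 (L l475 (T t1114 (L l239 (L l296 (L l434 (T t1272 (L l349 (T t1273 N)))))))))))) N)))))))))))))))))))⟩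
def e0_63__215_11 : Ent 4 := ⟨[a0, a63], [a215, a12], (M a48 (F (T t48 (L l3 (T t1 (L l3 (T t2 (L l3 (T t3 (L l3 (T t0 (K a16 (M a60 (F (T t138 (L l9 (L l14 (L l18 (L l350 (T t67 (L l349 (T t65 N)))))))))) (K a32 (M a60 (F (T t236 (L l9 (L l350 (T t67 (L l24 (L l28 (L l349 (T t65 N)))))))))) (K a21 (M a192 (F (T t54 (L l478 (T t27 (L l47 (L l245 (L l347 (T t29 N))))))))) (K a37 (M a192 (F (T t54 (L l478 (T t27 (L l295 (L l470 (T t21 N)))))))) (K a53 (M a192 (F (T t55 (L l295 (L l470 (L l491 (T t21 (L l239 (T t31 N))))))))) (K a26 (M a192 (F (T t56 (L l478 (T t27 (L l295 (L l470 (T t21 N)))))))) (K a42 (M a192 (F (T t56 (L l478 (T t27 (L l28 (L l245 (T t29 N)))))))) (K a58 (M a192 (F (T t57 (L l478 (T t27 (L l54 (L l239 (L l498 (T t31 N))))))))) (K a15 (M a85 (L l3 (F (T t567 (L l239 (L l245 (T t568 (K a13 (M a14 (F (T t1243 (L l239 (L l334 (L l339 (T t352 (L l245 (T t100 N))))))))) (K a14 (M a13 (F (T t567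 (L l239 (L l245 (T t568 N)))))) N))))))))) N))))))))))))))))))))⟩
def e0_63__215_12 : Ent 4 := ⟨[a0, a63], [a215, a13], (M a149 (F (T t175 (L l239 (T t5 (L l239 (L l295 (T t176 (L l295 (T t177 (K a192 (M a53 (F (T t939 (L l236 (T t179 (L l236 (L l239 (L l296 (T t180 N))))))))) (K a21 (M a48 (F (T t4 (T t13 (L l18 (T t14 N)))))) (K a85 (M a20 (F (L l349 (T t238 (L l144 (L l239 (T t1269 (L l87 (T t1270 N))))))))) (K a213 (Fr a106 a192 l519 (Fr a42 a21 l68 (Fr a170 a234 l390 (Fr a255 a85 l476 (V t582))))) (K a42 (M a48 (F (T t187 (L l390 (T t13 (L l54 (T t14 N))))))) (K a106 (M a48 (F (T t48 (L l498 (T t14 (L l239 (L l390 (L l498 (T t6 (L l239 (L l245 (L l390 (T t26 N))))))))))))) (K a170 (M a48 (F (T t4 (L l3 (L l462 (T t1 (L l390 (T t13 N)))))))) (K a191 (M a240 (F (T t962 (L l239 (L l335 (T t963 N)))))) (K a255 (M a195 (F (T t6159 (L l335 (L l475 (T t1114 (L l239 (L l296 (L l434 (T t1272 (L l349 (T t6160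 N)))))))))))) N)))))))))))))))))))⟩
def e0_63__215_13 : Ent 4 := ⟨[a0, a63], [a215, a14], (M a149 (F (T t175 (L l239 (T t5 (L l239 (L l295 (T t176 (L l295 (T t177 (K a192 (M a53 (F (T t178 (L l236 (T t179 (L l236 (L l239 (L l296 (T t180 N))))))))) (K a21 (M a48 (F (T t4 (T t13 (L l18 (T t14 N)))))) (K a85 (M a20 (F (L l349 (T t238 (L l144 (L l239 (T t1269 (L l87 (T t1270 N))))))))) (K a213 (Fr a106 a192 l519 (Fr a42 a21 l68 (Fr a170 a234 l390 (Fr a255 a85 l476 (V t582))))) (K a42 (M a48 (F (T t187 (L l390 (T t13 (L l54 (T t14 N))))))) (K a106 (M a48 (F (L l6 (T t48 (L l498 (T t14 (L l239 (L l390 (L l498 (T t6 (L l239 (L l245 (L l390 (T t26 N)))))))))))))) (K a170 (M a48 (F (T t4 (L l3 (L l6 (L l462 (T t1 (L l390 (T t13 N))))))))) (K a191 (M a16 (F (T t112 (T t190 (L l213 (L l239 (L l245 (T t191 N)))))))) (K a255 (M a195 (F (T t2098 (L l6 (L l475 (T t1114 (L l239 (L l296 (L l434 (T t1272 (L l60 (L l349 (T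 t1273 N))))))))))))) N)))))))))))))))))))⟩
def e0_63__215_14 : Ent 4 := ⟨[a0, a63], [a215, a15], (M a12 (F (T t150 (L l73 (T t122 (L l73 (T t151 (L l73 (T t152 (L l73 (T t153 (K a4 (M a85 (F (T t4539 (L l327 (T t124 (L l239 (T t154 N))))))) (K a8 (M a85 (F (L l295 (L l469 (T t52 (L l327 (L l464 (T t124 (L l56 (L l239 (T t154 N))))))))))) (K a21 (M a192 (F (T t158 (L l327 (T t156 (L l15 (L l277 (L l347 (T t157 N))))))))) (K a25 (M a192 (F (T t158 (L l327 (T t156 (L l295 (L l469 (T t21 N)))))))) (K a29 (M a192 (F (T t159 (L l295 (L l371 (L l469 (T t21 (L l239 (T t160 N))))))))) (K a38 (M a192 (F (T t161 (L l327 (T t156 (L l295 (L l469 (T t21 N)))))))) (K a42 (M a192 (F (T t161 (L l327 (T t156 (L l56 (L l277 (T t157 N)))))))) (K a46 (M a192 (F (T t57 (L l327 (T t156 (L l26 (L l239 (L l408 (T t160 N))))))))) (K a51 (M a85 (L l73 (F (T t571 (L l239 (L l277 (T t572 (K a39 (M a27 (F (T t571 (L l239 (L l277 (T t572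 N)))))) (K a27 (M a39 (F (T t4326 (L l239 (L l339 (L l489 (T t352 (L l277 (T t574 N))))))))) N))))))))) N))))))))))))))))))))⟩
def e0_63__215_15 : Ent 4 := ⟨[a0, a63], [a215, a20], (M a85 (F (T t90 (L l239 (T t88 (L l11 (L l295 (T t52 (L l239 (T t89 (K a64 (M a48 (F (T t50 (L l239 (L l245 (T t568 N)))))) (K a192 (M a16 (F (T t1924 (L l339 (T t97 (L l239 (L l245 (L l296 (T t98 N))))))))) (K a21 (M a243 (L l11 (F (T t3593 (T t2088 (T t3594 (K a22 (M a23 (F (T t2088 (T t6161 N)))) (K a23 (M a22 (L l349 (F (T t3593 (T t2088 (T t3594 (K a87 (M a151 (F (T t3593 (L l17 (L l18 (L l143 (T t6162 N))))))) (K a151 (M a87 (F (T t2088 (L l346 (L l373 (T t6163 N)))))) N)))))))) N)))))))) (K a149 (M a16 (F (T t112 (L l245 (T t173 (L l170 (T t102 N))))))) (K a213 (Fr a170 a255 l476 (Fr a42 a21 l68 (Fr a106 a234 l390 (Fr a192 a149 l519 (V t581))))) (K a42 (M a48 (F (L l14 (L l295 (T t364 (L l390 (T t50 (L l28 (L l245 (T t100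 N)))))))))) (K a106 (M a48 (F (L l11 (T t1 (L l104 (L l245 (T t509 (L l390 (T t50 N))))))))) (K a170 (M a16 (F (L l390 (L l404 (T t97 (L l239 (L l245 (L l390 (T t98 (L l245 (L l404 (T t113 (L l245 (L l404 (T t174 N))))))))))))))) (K a255 (M a16 (L l295 (F (T t112 (L l245 (L l289 (T t113 (L l239 (L l245 (L l289 (L l296 (T t98 (K a195 (M a235 (F (T t112 (L l245 (L l289 (T t113 (L l239 (L l245 (L l289 (L l296 (T t98 N))))))))))) (K a235 (M a195 (F (T t6156 (L l239 (L l296 (T t2820 N)))))) N)))))))))))))) N)))))))))))))))))))⟩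
def e0_63__215_16 : Ent 4 := ⟨[a0, a63], [a215, a22], (M a85 (F (T t90 (L l66 (L l239 (T t88 (L l11 (L l295 (T t52 (L l66 (L l239 (T t89 (K a64 (M a48 (F (T t50 (L l66 (L l239 (L l245 (T t568 N))))))) (K a192 (M a16 (F (T t1924 (L l66 (L l339 (T t97 (L l66 (L l239 (L l245 (L l296 (T t98 N))))))))))) (K a21 (M a48 (L l11 (F (T t873 (L l47 (L l245 (T t100 (T t50 (K a20 (M a23 (F (T t50 (L l19 (T t172 N))))) (K a23 (M a20 (L l349 (F (T t873 (L l66 (T t3339 (K a87 (M a151 (F (T t873 (L l47 (L l65 (T t239 N)))))) (K a151 (M a87 (F (T t873 (L l47 (L l51 (T t3341 N)))))) N)))))))) N)))))))))) (K a149 (M a16 (F (L l245 (T t173 (L l66 (L l375 (T t97 (L l16 (L l66 (L l170 (T t102 N))))))))))) (K a213 (Fr a170 a255 l476 (Fr a42 a21 l68 (Fr a106 a234 l390 (Fr a192 a149 l519 (V t581))))) (K a42 (M a48 (L l66 (F (L l295 (T t364 (L l390 (T t50 (L l28 (L l245 (T t100 (K a2 (M a62 (F (L l295 (T t365 (L l42 (T t825 N))))))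 (K a62 (M a2 (F (L l295 (L l432 (T t857 (L l28 (L l245 (T t100 N)))))))) N)))))))))))) (K a106 (M a48 (F (L l11 (T t1 (L l104 (L l245 (T t509 (L l390 (T t50 N))))))))) (K a170 (M a16 (F (L l66 (L l390 (L l404 (T t97 (L l245 (L l404 (T t113 (L l66 (L l239 (L l245 (L l390 (T t98 (L l245 (L l404 (T t174 N))))))))))))))))) (K a255 (M a16 (L l295 (F (L l66 (T t112 (L l245 (L l289 (T t113 (L l66 (L l239 (L l245 (L l289 (L l296 (T t98 (K a195 (M a235 (F (L l66 (T t112 (L l245 (L l289 (T t113 (L l66 (L l239 (L l245 (L l289 (L l296 (T t98 N))))))))))))) (K a235 (M a195 (F (T t6156 (L l16 (L l66 (L l239 (L l296 (T t2820 N)))))))) N)))))))))))))))) N)))))))))))))))))))))⟩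
def e0_63__215_17 : Ent 4 := ⟨[a0, a63], [a215, a23], (M a48 (L l349 (F (T t2 (L l11 (T t1 (L l11 (T t3 (L l17 (T t0 (K a16 (M a60 (L l349 (F (T t64 (L l11 (L l18 (T t68 (L l11 (L l18 (T t194 (K a87 (M a151 (F (T t70 (L l143 (L l295 (L l350 (L l475 (T t3627 N)))))))) (K a151 (M a87 (F (T t70 (L l11 (L l18 (T t68 (L l11 (L l18 (T t194 N))))))))) N)))))))))))) (K a32 (M a60 (L l349 (F (T t64 (L l11 (T t68 (L l11 (T t194 (K a87 (M a151 (F (T t70 (L l143 (L l295 (L l350 (L l475 (T t3627 N)))))))) (K a151 (M a87 (F (T t70 (L l11 (T t68 (L l11 (T t194 N))))))) N)))))))))) (K a21 (M a85 (L l11 (L l349 (F (T t873 (L l47 (L l245 (T t100 (T t50 (K a20 (M a22 (L l349 (F (T t873 (L l47 (L l245 (T t100 (T t50 (K a87 (M a151 (F (T t873 (L l143 (T t3628 (L l143 (T t50 N))))))) (K a151 (M a87 (F (T t50 (L l351 (T t4284 N))))) N)))))))))) (K a22 (M a20 (L l349 (F (T t873 (L l66 (T t3339 (K a87 (M a151 (F (T t873 (L l47 (L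 l65 (T t239 N)))))) (K a151 (M a87 (F (T t873 (L l47 (L l51 (T t3341 N)))))) N)))))))) (K a87 (M a151 (L l11 (F (T t873 (L l143 (L l295 (L l475 (T t3313 (L l47 (L l143 (L l245 (L l367 (T t100 (K a20 (M a22 (F (T t873 (L l143 (T t3628 (L l143 (T t50 N))))))) (K a22 (M a20 (F (T t873 (L l47 (L l65 (T t239 N)))))) N))))))))))))))) (K a151 (M a87 (L l11 (F (T t50 (L l351 (T t4284 (K a20 (M a22 (F (T t50 (L l351 (T t4284 N))))) (K a22 (M a20 (F (T t873 (L l47 (L l51 (T t3341 N)))))) N)))))))) N))))))))))))) (K a37 (M a154 (L l349 (F (T t526 (L l28 (L l245 (L l295 (T t327 (L l28 (L l47 (L l245 (T t527 (K a87 (M a151 (F (T t3195 (L l28 (L l143 (L l245 (T t3632 N))))))) (K a151 (M a87 (F (T t3195 (L l25 (L l28 (L l245 (T t1197 N))))))) N)))))))))))))) (K a53 (M a85 (L l349 (F (T t873 (L l239 (T t88 (L l239 (L l245 (T t568 (K a87 (M a151 (F (T t873 (L l143 (L l239 (T t3634 N)))))) (K a151 (M a87 (F (L l219 (T t1198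 (L l239 (L l245 (T t568 N))))))) N))))))))))) (K a26 (M a85 (L l349 (F (T t90 (L l245 (T t509 (L l245 (T t100 (K a87 (M a151 (F (T t873 (L l54 (L l143 (L l239 (T t3634 N))))))) (K a151 (M a87 (F (T t50 (L l351 (T t4284 N))))) N)))))))))) (K a42 (M a154 (L l349 (F (T t473 (L l28 (L l245 (L l295 (T t327 (L l28 (L l245 (T t527 (K a87 (M a151 (F (T t3635 (L l28 (L l143 (L l245 (T t3632 N))))))) (K a151 (M a87 (F (T t473 (L l28 (L l245 (T t1197 N)))))) N))))))))))))) (K a58 (M a85 (L l349 (F (T t90 (L l245 (T t509 (L l54 (L l239 (L l245 (T t568 (K a87 (M a151 (F (L l426 (T t873 (L l54 (L l143 (L l239 (T t3634 N)))))))) (K a151 (M a87 (F (L l219 (T t1198 (L l54 (L l239 (L l245 (T t568 N)))))))) N)))))))))))) (K a15 (M a85 (L l349 (F (T t1243 (L l239 (L l339 (T t88 (L l245 (T t100 (K a87 (M a151 (F (T t1243 (L l143 (L l239 (T t3634 N)))))) (K a151 (M a87 (F (L l239 (T t89 (L l169 (T t6164 N)))))) N))))))))))) (K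 a87 (M a151 (F (T t2 (L l143 (T t3628 (K a16 (M a192 (F (T t206 (L l143 (L l475 (T t3640 N)))))) (K a32 (M a192 (F (T t206 (L l143 (L l475 (T t3640 N)))))) N))))))) (K a151 (M a87 (F (T t2 (L l11 (T t1 (L l11 (T t3 (L l17 (L l373 (T t0 (K a16 (M a1 (F (L l219 (T t6165 (T t536 N))))) (K a32 (M a1 (F (L l219 (L l404 (T t6166 (L l28 (T t536 N))))))) (K a21 (M a85 (L l11 (F (T t50 (L l351 (T t4284 (K a20 (M a22 (F (T t50 (L l351 (T t4284 N))))) (K a22 (M a20 (F (T t873 (L l47 (L l51 (T t3341 N)))))) N)))))))) (K a37 (M a84 (F (T t6167 (L l11 (L l47 (L l295 (L l351 (T t6168 N)))))))) (K a53 (M a84 (F (T t3406 (L l219 (L l239 (L l295 (L l351 (T t6169 N)))))))) (K a26 (M a84 (F (T t3406 (L l54 (L l219 (L l239 (L l295 (L l351 (T t6169 N))))))))) (K a42 (M a154 (F (T t473 (L l28 (L l245 (T t1197 N)))))) (K a58 (M a84 (F (T t3406 (L l54 (L l219 (L l239 (L l295 (L l351 (T t6169 N))))))))) (K a15 (M a84 (F (T t3650 (L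 l219 (L l239 (L l295 (L l351 (L l469 (T t6169 N))))))))) N))))))))))))))))))) N)))))))))))))))))))))⟩
def e0_63__215_18 : Ent 4 := ⟨[a0, a63], [a215, a24], (M a149 (F (T t175 (L l239 (T t5 (L l239 (L l295 (T t176 (L l295 (T t177 (K a192 (M a53 (F (T t178 (L l14 (L l236 (T t179 (L l236 (L l239 (L l296 (T t180 N)))))))))) (K a21 (M a48 (F (T t4 (T t13 (L l14 (L l18 (T t14 N))))))) (K a85 (M a20 (F (L l52 (L l349 (T t238 (L l52 (L l144 (L l239 (T t1269 (L l87 (T t1270 N))))))))))) (K a213 (Fr a106 a192 l519 (Fr a42 a21 l68 (Fr a170 a234 l390 (Fr a255 a85 l476 (V t582))))) (K a42 (M a48 (F (T t187 (L l390 (T t13 (L l14 (L l54 (T t14 N)))))))) (K a106 (M a48 (F (T t1 (L l14 (L l498 (T t14 (L l239 (L l390 (L l498 (T t6 (L l239 (L l245 (L l390 (T t26 N)))))))))))))) (K a170 (M a48 (F (T t4 (L l462 (T t1 (L l390 (T t13 N))))))) (K a191 (M a16 (F (T t97 (T t190 (L l213 (L l239 (L l245 (T t191 N)))))))) (K a255 (M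 a195 (F (T t2098 (L l475 (T t1114 (L l239 (L l296 (L l434 (T t1272 (L l475 (T t6170 N))))))))))) N)))))))))))))))))))⟩
def e0_63__215_19 : Ent 4 := ⟨[a0, a63], [a215, a25], (M a192 (F (L l295 (T t21 (L l15 (T t47 (L l15 (L l295 (T t35 (L l295 (T t202 (L l56 (L l239 (L l295 (T t37 (K a64 (M a48 (F (T t20 (L l15 (T t1 (L l56 (L l116 (L l144 (L l239 (T t31 N)))))))))) (K a128 (M a48 (F (T t206 (L l15 (T t1 (L l56 (L l239 (T t31 N)))))))) (K a21 (M a17 (F (T t207 (L l56 (L l295 (L l347 (T t208 (L l56 (T t209 N))))))))) (K a85 (M a20 (F (L l239 (T t948 (L l56 (L l349 (T t238 (L l19 (L l56 (L l87 (L l144 (T t6171 N)))))))))))) (K a149 (M a48 (F (T t837 (L l15 (L l347 (L l491 (T t1 (L l15 (L l170 (L l220 (L l347 (L l491 (T t213 (L l56 (L l375 (T t214 N)))))))))))))))) (K a42 (M a8 (F (T t215 (L l15 (L l295 (L l390 (T t216 (L l15 (T t217 N))))))))) (K a106 (M a48 (F (T t27 (L l15 (T t1 (L l15 (L l411 (T t213 (L l56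 (L l104 (L l144 (L l390 (L l498 (T t214 N)))))))))))))) (K a170 (M a32 (F (T t218 (L l15 (T t219 (L l15 (L l71 (L l180 (L l220 (T t220 N)))))))))) (K a255 (M a195 (F (T t6172 (L l475 (T t2668 (L l434 (T t2655 N))))))) N))))))))))))))))))))))))⟩
def e0_63__215_20 : Ent 4 := ⟨[a0, a63], [a215, a26], (M a192 (F (L l295 (T t21 (L l18 (T t47 (L l18 (L l295 (T t35 (L l295 (T t202 (L l54 (L l239 (L l295 (T t37 (K a64 (M a12 (F (T t450 (L l18 (T t122 (L l54 (L l80 (L l144 (L l239 (T t160 N)))))))))) (K a128 (M a12 (F (T t221 (L l18 (T t122 (L l54 (L l239 (T t160 N)))))))) (K a21 (M a16 (F (T t210 (L l54 (L l245 (L l295 (L l347 (T t222 (L l347 (T t223 N)))))))))) (K a85 (M a20 (F (L l239 (T t948 (L l54 (L l349 (T t238 (L l16 (L l54 (L l87 (L l144 (T t6171 N)))))))))))) (K a149 (M a12 (F (T t836 (L l18 (L l347 (L l371 (T t122 (L l18 (L l202 (L l220 (L l347 (L l371 (T t227 (L l54 (L l495 (T t228 N)))))))))))))))) (K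 a42 (M a10 (F (T t229 (L l18 (L l295 (L l390 (T t230 (L l390 (T t231 N))))))))) (K a106 (M a12 (F (T t156 (L l18 (T t122 (L l18 (L l501 (T t227 (L l54 (L l132 (L l144 (L l390 (L l408 (T t228 N)))))))))))))) (K a170 (M a48 (F (T t837 (L l54 (L l390 (T t206 (L l220 (L l245 (L l404 (T t29 N)))))))))) (K a255 (M a195 (F (T t6172 (L l475 (T t2668 (L l434 (T t2655 N))))))) N))))))))))))))))))))))))⟩
def e0_63__215_21 : Ent 4 := ⟨[a0, a63], [a215, a27], (M a149 (F (T t175 (L l239 (T t5 (L l239 (L l295 (T t176 (L l295 (T t177 (K a192 (M a53 (F (T t178 (L l236 (T t179 (L l236 (L l239 (L l296 (T t180 N))))))))) (K a21 (M a48 (F (T t4 (T t13 (L l18 (T t14 N)))))) (K a85 (M a20 (F (L l473 (T t2163 (L l144 (L l239 (T t1269 (L l87 (T t1270 N))))))))) (K a213 (Fr a106 a192 l519 (Fr a42 a21 l68 (Fr a170 a234 l390 (Fr a255 a85 l476 (V t582))))) (K a42 (M a48 (F (T t187 (L l390 (T t13 (L l54 (T t14 N))))))) (K a106 (M a48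 (F (T t48 (L l498 (T t14 (L l239 (L l390 (L l498 (T t6 (L l239 (L l245 (L l390 (T t26 N))))))))))))) (K a170 (M a48 (F (T t4 (L l73 (L l462 (T t1 (L l390 (T t13 N)))))))) (K a191 (M a16 (F (T t112 (T t190 (L l213 (L l239 (L l245 (T t191 N)))))))) (K a255 (M a195 (F (T t2098 (L l475 (T t1114 (L l239 (L l296 (L l434 (T t1272 (L l17 (L l349 (T t1273 N)))))))))))) N)))))))))))))))))))⟩
def e0_63__215_22 : Ent 4 := ⟨[a0, a63], [a215, a28], (M a149 (F (T t175 (L l239 (T t5 (L l239 (L l295 (T t176 (L l295 (T t177 (K a192 (M a53 (F (T t178 (L l14 (L l236 (T t179 (L l236 (L l239 (L l296 (T t180 N)))))))))) (K a21 (M a48 (F (T t4 (T t13 (L l14 (L l18 (T t14 N))))))) (K a85 (M a20 (F (L l349 (T t238 (L l144 (L l239 (T t1269 (L l19 (L l87 (L l370 (T t1270 N))))))))))) (K a213 (Fr a106 a192 l519 (Fr a42 a21 l68 (Fr a170 a234 l390 (Fr a255 a85 l476 (V t582))))) (K a42 (M a48 (F (T t187 (L l390 (T t13 (L l14 (L l54 (T t14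 N)))))))) (K a106 (M a48 (F (T t1 (L l14 (L l498 (T t14 (L l239 (L l390 (L l498 (T t6 (L l239 (L l245 (L l362 (L l390 (T t26 N))))))))))))))) (K a170 (M a48 (F (T t4 (L l462 (T t1 (L l390 (T t13 N))))))) (K a191 (M a16 (F (T t112 (L l370 (T t190 (L l213 (L l239 (L l245 (L l362 (T t191 N)))))))))) (K a255 (M a195 (F (T t6173 (L l475 (T t1114 (L l239 (L l296 (L l434 (T t1272 (L l370 (L l475 (T t6170 N)))))))))))) N)))))))))))))))))))⟩
def e0_63__215_23 : Ent 4 := ⟨[a0, a63], [a215, a29], (M a149 (F (L l239 (T t5 (L l15 (T t175 (L l239 (L l295 (T t176 (L l295 (T t177 (K a192 (M a53 (F (T t178 (L l236 (T t179 (L l236 (L l239 (L l296 (T t180 N))))))))) (K a21 (M a48 (L l15 (F (T t4 (T t13 (L l18 (T t14 (K a17 (M a25 (F (T t4 (T t13 (L l10 (L l18 (T t14 N))))))) (K a25 (M a17 (F (T t4 (L l19 (L l65 (T t642 N)))))) N))))))))) (K a85 (M a20 (F (L l349 (T t238 (L l144 (L l239 (T t1269 (L l87 (T t1270 N))))))))) (K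 a213 (Fr a106 a192 l519 (Fr a42 a21 l68 (Fr a170 a234 l390 (Fr a255 a85 l476 (V t582))))) (K a42 (M a48 (F (T t187 (L l390 (T t13 (L l54 (T t14 N))))))) (K a106 (M a60 (F (L l15 (L l59 (T t68 (L l98 (L l144 (L l239 (L l295 (L l349 (L l390 (T t6174 (L l295 (L l350 (L l516 (T t462 N)))))))))))))))) (K a170 (M a48 (F (T t4 (L l15 (L l462 (T t1 (L l390 (T t13 N)))))))) (K a191 (M a16 (F (T t112 (T t190 (L l213 (L l239 (L l245 (T t191 N)))))))) (K a255 (M a195 (F (T t6159 (L l475 (T t1114 (L l239 (L l296 (L l434 (T t1272 (L l349 (T t6160 N))))))))))) N))))))))))))))))))))⟩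
def e0_63__215_24 : Ent 4 := ⟨[a0, a63], [a215, a30], (M a149 (F (T t175 (L l239 (T t5 (L l239 (L l295 (T t176 (L l295 (T t177 (K a192 (M a53 (F (T t178 (L l236 (T t179 (L l236 (L l239 (L l296 (T t180 N))))))))) (K a21 (M a48 (F (T t4 (T t13 (L l18 (T t14 N)))))) (K a85 (M a20 (F (L l349 (T t238 (L l144 (L l239 (T t1269 (L l16 (L l87 (T t1270 N)))))))))) (K a213 (Fr a106 a192 l519 (Fr a42 a21 l68 (Fr a170 a234 l390 (Fr a255 a85 l476 (V t582))))) (K a42 (M a48 (F (T t187 (L l390 (T t13 (L l54 (T t14 N))))))) (K a106 (M a48 (F (T t48 (L l498 (T t14 (L l239 (L l390 (L l498 (T t6 (L l239 (L l245 (L l390 (T t26 N))))))))))))) (K a170 (M a48 (F (T t4 (L l63 (L l462 (T t1 (L l390 (T t13 N)))))))) (K a191 (M a60 (F (T t463 (L l60 (L l239 (T t1256 N)))))) (K a255 (M a195 (F (T t2098 (L l475 (T t1114 (L l239 (L l296 (L l434 (T t1272 (L l60 (L l349 (T t1273 N)))))))))))) N)))))))))))))))))))⟩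
def e0_63__215_25 : Ent 4 := ⟨[a0, a63], [a215, a31], (M a149 (F (L l239 (T t5 (L l18 (T t175 (L l239 (L l295 (T t176 (L l295 (T t177 (K a192 (M a29 (F (T t956 (L l272 (T t641 (L l239 (L l272 (L l296 (L l363 (T t957 N)))))))))) (K a21 (M a12 (L l18 (F (T t958 (T t648 (L l50 (T t649 (K a16 (M a26 (F (T t958 (T t648 (L l50 (T t649 N)))))) (K a26 (M a16 (F (T t958 (L l50 (L l57 (T t652 N)))))) N))))))))) (K a85 (M a20 (F (L l473 (T t2163 (L l144 (L l239 (T t1269 (L l87 (T t1270 N))))))))) (K a213 (Fr a106 a192 l519 (Fr a42 a21 l68 (Fr a170 a234 l390 (Fr a255 a85 l476 (V t582))))) (K a42 (M a48 (F (T t187 (L l390 (T t13 (L l18 (L l54 (T t14 N)))))))) (K a106 (M a60 (F (L l18 (T t68 (L l98 (L l144 (L l239 (L l295 (L l349 (L l373 (L l390 (T t6174 (L l295 (L l350 (L l516 (T t462 N)))))))))))))))) (K a170 (M a48 (F (T t4 (L l18 (L l462 (T t1 (L l390 (T t13 N)))))))) (K a191 (M a240 (F (T t1091 (L l239 (T t963 N)))))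 (K a255 (M a195 (F (T t2098 (L l475 (T t1114 (L l239 (L l296 (L l434 (T t1272 (L l17 (L l349 (T t1273 N)))))))))))) N))))))))))))))))))))⟩
def e0_63__215_26 : Ent 4 := ⟨[a0, a63], [a215, a40], (M a48 (F (T t1 (L l22 (T t2 (T t3 (L l22 (L l24 (T t0 (K a16 (M a85 (F (L l392 (T t90 (L l22 (L l239 (T t51 (L l392 (T t50 N))))))))) (K a32 (M a85 (L l24 (F (L l295 (T t52 (L l392 (L l404 (T t50 (L l22 (L l28 (L l239 (T t51 (K a36 (M a44 (F (L l295 (T t255 (L l392 (L l404 (T t50 (L l22 (L l28 (L l239 (T t51 N))))))))))) (K a44 (M a36 (F (L l52 (T t256 (L l392 (L l404 (T t50 N))))))) N)))))))))))))) (K a21 (M a192 (F (T t837 (L l47 (L l347 (T t20 (L l24 (L l47 (L l245 (L l347 (T t29 N))))))))))) (K a37 (M a192 (F (T t19 (L l47 (T t20 (L l295 (T t21 N))))))) (K a53 (M a192 (F (T t19 (L l295 (L l491 (T t21 (L l22 (L l239 (T t31 N))))))))) (K a26 (M a192 (F (T t837 (T t20 (L l295 (T t21 N)))))) (K a42 (M a192 (L l22 (F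 (T t19 (T t20 (L l24 (L l28 (L l245 (T t29 (K a41 (M a43 (F (T t225 (L l29 (L l349 (T t257 N)))))) (K a43 (M a41 (F (T t27 (T t20 (L l390 (L l393 (T t46 N))))))) N))))))))))) (K a58 (M a192 (F (T t19 (L l295 (T t21 (L l22 (L l54 (L l239 (L l498 (T t31 N)))))))))) (K a15 (M a192 (F (T t56 (L l483 (T t27 (L l295 (L l469 (T t21 N)))))))) N))))))))))))))))))⟩
def e0_63__215_27 : Ent 4 := ⟨[a0, a63], [a215, a41], (M a192 (F (L l295 (T t21 (L l65 (T t47 (L l65 (L l295 (T t35 (L l295 (T t202 (L l22 (L l239 (L l295 (T t37 (K a64 (M a48 (F (T t20 (L l65 (T t1 (L l22 (L l116 (L l144 (L l239 (T t31 N)))))))))) (K a128 (M a48 (F (T t206 (L l65 (T t1 (L l22 (L l239 (T t31 N)))))))) (K a21 (M a1 (F (T t2681 (L l22 (L l239 (L l295 (L l347 (T t1826 (L l22 (L l239 (T t1827 N))))))))))) (K a85 (M a16 (L l350 (F (T t210 (L l22 (T t97 (L l22 (L l57 (L l94 (L l144 (T t211 (K a20 (M a150 (F (T t210 (L l347 (L l349 (T t6175 N))))))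 (K a150 (M a20 (F (T t210 (L l22 (L l349 (L l365 (T t6176 N))))))) N))))))))))))) (K a149 (M a48 (F (T t837 (L l65 (L l347 (L l491 (T t1 (L l65 (L l170 (L l220 (L l347 (L l491 (T t213 (L l22 (L l375 (T t214 N)))))))))))))))) (K a42 (M a43 (F (L l349 (T t4875 (L l65 (L l295 (L l349 (T t6177 (T t6178 (L l239 (L l389 (T t6179 (L l66 (T t6180 N)))))))))))))) (K a106 (M a48 (F (T t27 (L l65 (T t1 (L l65 (L l411 (T t213 (L l22 (L l104 (L l144 (L l390 (L l498 (T t214 N)))))))))))))) (K a170 (M a32 (F (T t218 (L l65 (T t219 (L l25 (L l65 (L l180 (L l220 (T t220 N)))))))))) (K a255 (M a195 (F (T t6181 (T t6172 (L l434 (T t2655 N)))))) N))))))))))))))))))))))))⟩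
def e0_63__215_28 : Ent 4 := ⟨[a0, a63], [a215, a43], (M a48 (F (T t1 (L l22 (T t2 (L l27 (T t3 (L l22 (T t0 (K a16 (M a60 (F (T t64 (L l22 (T t69 (L l22 (T t268 N))))))) (K a32 (M a60 (F (T t64 (L l22 (L l28 (T t69 (L l22 (L l28 (T t268 N))))))))) (K a21 (M a192 (F (T t837 (L l47 (L l347 (T t20 (L l47 (L l245 (L l347 (T t29 N)))))))))) (K a37 (M a192 (F (T t19 (L l47 (T t20 (L l295 (T t21 N))))))) (K a53 (M a192 (F (T t19 (L l295 (L l491 (T t21 (L l22 (L l239 (L l393 (T t31 N)))))))))) (K a26 (M a192 (F (T t837 (T t20 (L l295 (T t21 N)))))) (K a42 (M a192 (L l22 (F (T t19 (T t20 (L l28 (L l245 (T t29 (K a40 (M a41 (F (T t27 (T t20 (L l390 (L l393 (T t46 N))))))) (K a41 (M a40 (F (T t27 (L l66 (L l295 (L l350 (L l390 (L l393 (T t269 N))))))))) N)))))))))) (K a58 (M a192 (F (T t19 (L l295 (T t21 (L l22 (L l54 (L l239 (L l393 (L l498 (T t31 N))))))))))) (K a15 (M a192 (F (T t57 (L l483 (T t27 (L l325 (T t20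 N))))))) N))))))))))))))))))⟩
def e0_63__215_29 : Ent 4 := ⟨[a0, a63], [a215, a44], (M a149 (F (T t175 (L l239 (T t5 (L l239 (L l295 (T t176 (L l295 (T t177 (K a192 (M a53 (F (L l339 (T t982 (L l236 (L l398 (T t179 (L l236 (L l239 (L l296 (T t180 N))))))))))) (K a21 (M a48 (F (T t4 (T t13 (L l18 (L l398 (T t14 N))))))) (K a85 (M a20 (F (L l24 (L l349 (T t238 (L l24 (L l144 (L l239 (L l406 (T t1269 (L l87 (T t1270 N)))))))))))) (K a213 (Fr a106 a192 l519 (Fr a42 a21 l68 (Fr a170 a234 l390 (Fr a255 a85 l476 (V t582))))) (K a42 (M a48 (F (T t187 (L l390 (T t13 (L l54 (L l398 (T t14 N)))))))) (K a106 (M a48 (F (T t1 (L l398 (L l498 (T t14 (L l239 (L l390 (L l498 (T t6 (L l24 (L l239 (L l245 (L l390 (T t26 N))))))))))))))) (K a170 (M a48 (F (T t4 (L l462 (T t1 (L l390 (T t13 N))))))) (K a191 (M a16 (F (L l24 (T t97 (L l213 (L l239 (L l245 (T t191 (L l24 (L l213 (T t192 N))))))))))) (K a255 (M a195 (F (T t6159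 (L l475 (T t1114 (L l239 (L l296 (L l434 (T t1272 (L l24 (L l349 (L l410 (T t1273 N))))))))))))) N)))))))))))))))))))⟩
def e0_63__215_30 : Ent 4 := ⟨[a0, a63], [a215, a45], (M a149 (F (T t175 (L l239 (T t5 (L l239 (L l295 (T t176 (L l295 (T t177 (K a192 (M a53 (F (T t178 (L l236 (T t179 (L l236 (L l239 (L l296 (T t180 N))))))))) (K a21 (M a48 (F (T t4 (T t13 (L l18 (T t14 N)))))) (K a85 (M a20 (F (L l349 (T t238 (L l144 (L l239 (T t1269 (L l87 (T t1270 N))))))))) (K a213 (Fr a106 a192 l519 (Fr a42 a21 l68 (Fr a170 a234 l390 (Fr a255 a85 l476 (V t582))))) (K a42 (M a48 (F (T t187 (L l390 (T t13 (L l54 (T t14 N))))))) (K a106 (M a48 (F (T t48 (L l498 (T t14 (L l239 (L l390 (L l498 (T t6 (L l239 (L l245 (L l390 (T t26 N))))))))))))) (K a170 (M a48 (F (T t4 (L l63 (L l462 (T t1 (L l390 (T t13 N)))))))) (K a191 (M a60 (F (T t463 (L l239 (T t1256 N))))) (K a255 (M a195 (F (T t6159 (L l475 (T t1114 (L l239 (L l296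 (L l434 (T t1272 (L l349 (L l407 (T t6160 N)))))))))))) N)))))))))))))))))))⟩
def e0_63__215_31 : Ent 4 := ⟨[a0, a63], [a215, a46], (M a149 (F (T t175 (L l26 (L l239 (T t5 (L l26 (L l239 (L l295 (T t176 (L l295 (L l408 (T t177 (K a192 (M a53 (F (L l26 (T t178 (L l236 (T t179 (L l26 (L l236 (L l239 (L l296 (T t180 N))))))))))) (K a21 (M a48 (F (T t4 (L l408 (T t13 (L l18 (T t14 N))))))) (K a85 (M a20 (F (L l26 (L l349 (T t238 (L l144 (L l239 (L l408 (T t1269 (L l26 (L l87 (T t1270 N)))))))))))) (K a213 (Fr a106 a192 l519 (Fr a42 a21 l68 (Fr a170 a234 l390 (Fr a255 a85 l476 (V t582))))) (K a42 (M a34 (F (T t279 (L l390 (L l408 (T t280 (L l56 (L l396 (T t281 (L l295 (L l390 (L l396 (L l408 (T t282 N)))))))))))))) (K a106 (M a166 (F (L l132 (T t283 (L l26 (L l239 (L l277 (L l390 (T t284 (L l132 (L l277 (L l396 (T t285 (L l26 (L l132 (L l239 (L l277 (L l295 (L l390 (T t286 N)))))))))))))))))))) (K a170 (M a48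 (F (T t4 (L l462 (T t1 (L l390 (L l408 (T t13 N)))))))) (K a191 (M a16 (F (T t2682 (L l26 (L l213 (L l239 (L l245 (T t191 (L l26 (T t97 N)))))))))) (K a255 (M a195 (F (T t2098 (L l408 (L l475 (T t1114 (L l26 (L l239 (L l296 (L l434 (T t1272 (L l26 (L l60 (L l349 (T t1273 N))))))))))))))) N))))))))))))))))))))))⟩
def e0_63__215_32 : Ent 4 := ⟨[a0, a63], [a215, a47], (M a149 (F (T t175 (L l28 (L l239 (T t5 (L l28 (L l239 (L l295 (T t176 (L l295 (L l411 (T t177 (K a192 (M a29 (F (L l23 (L l28 (T t956 (L l23 (L l272 (T t641 (L l28 (L l239 (L l272 (L l296 (T t957 N))))))))))))) (K a21 (M a48 (F (T t4 (L l411 (T t13 (L l18 (L l397 (T t14 N)))))))) (K a85 (M a20 (F (L l28 (L l349 (T t238 (L l144 (L l239 (L l411 (T t1269 (L l28 (L l87 (T t1270 N)))))))))))) (K a213 (Fr a106 a192 l519 (Fr a42 a21 l68 (Fr a170 a234 l390 (Fr a255 a85 l476 (V t582))))) (K a42 (M a32 (F (T t983 (L l390 (L l411 (T t984 (L l54 (L l397 (T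 t985 (L l295 (L l390 (L l397 (L l411 (T t986 N)))))))))))))) (K a106 (M a165 (F (L l130 (T t987 (L l28 (L l239 (L l390 (T t988 (L l130 (L l397 (T t989 (L l28 (L l130 (L l239 (L l295 (L l390 (T t990 N))))))))))))))))) (K a170 (M a12 (F (T t991 (L l402 (T t122 (L l390 (L l411 (T t648 N)))))))) (K a191 (M a144 (F (L l411 (T t992 (L l28 (L l213 (L l239 (L l245 (T t993 (L l411 (T t994 N))))))))))) (K a255 (M a195 (F (L l409 (T t2098 (L l411 (L l475 (T t1114 (L l28 (L l239 (L l296 (L l409 (L l434 (T t1272 (L l28 (L l349 (L l409 (T t1273 N))))))))))))))))) N))))))))))))))))))))))⟩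
def e0_63__215_33 : Ent 4 := ⟨[a0, a63], [a215, a60], (M a48 (F (T t48 (L l63 (T t1 (L l63 (T t2 (L l63 (T t3 (L l63 (T t0 (K a16 (M a85 (F (T t4539 (L l442 (T t50 (L l239 (T t51 N))))))) (K a32 (M a85 (F (L l295 (L l434 (T t52 (L l404 (L l442 (T t50 (L l28 (L l239 (T t51 N))))))))))) (K a21 (M a192 (F (T t54 (L l442 (T t27 (L l47 (L l245 (L l347 (T t29 N))))))))) (K a37 (M a192 (F (T t54 (L l442 (T t27 (L l295 (L l434 (T t21 N)))))))) (K a53 (M a192 (F (T t55 (L l295 (L l434 (L l491 (T t21 (L l239 (T t31 N))))))))) (K a26 (M a192 (F (T t56 (L l442 (T t27 (L l295 (L l434 (T t21 N)))))))) (K a42 (M a192 (F (T t56 (L l442 (T t27 (L l28 (L l245 (T t29 N)))))))) (K a58 (M a192 (F (T t57 (L l442 (T t27 (L l54 (L l239 (L l498 (T t31 N))))))))) (K a15 (M a85 (L l63 (F (T t567 (L l239 (L l245 (T t568 (K a45 (M a30 (F (T t1243 (L l239 (L l339 (L l514 (T t352 (L l245 (T t100 N))))))))) (K a30 (M a45 (F (T t567 (L l239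 (L l245 (T t568 N)))))) N))))))))) N))))))))))))))))))))⟩
def e0_63__215_34 : Ent 4 := ⟨[a0, a63], [a215, a61], (M a48 (F (T t2 (L l35 (L l65 (T t1 (L l65 (T t3 (T t0 (K a16 (M a85 (F (T t90 (T t50 (L l239 (T t51 N)))))) (K a32 (M a85 (F (L l65 (L l295 (T t52 (L l404 (T t50 (L l28 (L l239 (T t51 N)))))))))) (K a21 (M a192 (L l65 (F (T t837 (L l35 (L l47 (L l347 (L l515 (T t20 (L l35 (L l47 (L l245 (L l347 (L l515 (T t29 (K a1 (M a41 (F (T t27 (L l35 (L l47 (L l347 (L l515 (T t20 (L l18 (T t46 N)))))))))) (K a41 (M a1 (F (T t206 (T t3651 N)))) N))))))))))))))))) (K a37 (M a192 (F (T t19 (L l35 (L l47 (L l515 (T t20 (L l295 (L l515 (T t21 N)))))))))) (K a53 (M a49 (F (T t296 (T t297 (L l31 (L l47 (L l59 (L l65 (T t298 (L l59 (T t299 N))))))))))) (K a26 (M a192 (F (T t837 (L l35 (L l515 (T t20 (L l295 (L l515 (T t21 N))))))))) (K a42 (M a192 (F (T t19 (L l35 (L l515 (T t20 (L l28 (L l35 (L l245 (L l515 (T t29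 N))))))))))) (K a58 (M a192 (F (T t19 (L l295 (L l515 (T t21 (L l54 (L l239 (L l498 (T t31 N)))))))))) (K a15 (M a192 (F (T t1800 (L l483 (T t27 (L l35 (L l325 (L l515 (T t20 N))))))))) N))))))))))))))))))⟩
def e0_63__215_35 : Ent 4 := ⟨[a0, a63], [a215, a62], (M a48 (F (T t1 (L l36 (L l66 (T t2 (T t3 (L l66 (T t0 (K a16 (M a85 (F (T t90 (T t50 (L l36 (L l66 (L l239 (T t51 N)))))))) (K a32 (M a85 (F (L l295 (T t52 (L l404 (T t50 (L l28 (L l36 (L l66 (L l239 (T t51 N))))))))))) (K a21 (M a192 (F (T t837 (L l47 (L l347 (T t20 (L l47 (L l245 (L l347 (T t29 N)))))))))) (K a37 (M a192 (F (T t19 (L l47 (T t20 (L l295 (T t21 N))))))) (K a53 (M a192 (F (T t19 (L l295 (L l491 (T t21 (L l66 (L l239 (L l516 (T t31 N)))))))))) (K a26 (M a192 (F (T t837 (T t20 (L l295 (T t21 N)))))) (K a42 (M a192 (L l66 (F (T t19 (T t20 (L l28 (L l245 (T t29 (K a2 (M a22 (F (T t27 (T t20 (L l390 (L l516 (T t46 N))))))) (K a22 (M a2 (F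 (T t19 (L l390 (L l516 (T t1365 N)))))) N)))))))))) (K a58 (M a50 (F (T t301 (L l54 (L l60 (L l66 (T t302 (T t303 N)))))))) (K a15 (M a192 (F (T t57 (L l483 (T t27 (L l325 (T t20 N))))))) N))))))))))))))))))⟩
def e0_63__215_36 : Ent 4 := ⟨[a0, a63], [a215, a64], (M a12 (F (T t122 (T t151 (T t152 (T t153 (K a4 (M a60 (F (T t398 (L l46 (L l50 (L l350 (T t67 (L l349 (T t448 N))))))))) (K a8 (M a60 (F (T t398 (L l350 (T t67 (L l52 (L l56 (L l349 (T t448 N))))))))) (K a21 (M a89 (F (T t2786 (L l50 (T t863 (L l50 (T t864 N))))))) (K a25 (M a48 (F (T t550 (L l15 (T t1 (L l12 (L l56 (T t866 N)))))))) (K a29 (M a48 (F (T t2 (T t550 (T t866 N))))) (K a38 (M a48 (F (T t1580 (L l26 (T t2 (L l21 (L l50 (T t868 N)))))))) (K a42 (M a89 (F (T t3370 (T t863 (L l26 (T t864 N)))))) (K a46 (M a48 (F (T t443 (T t1 (L l26 (T t866 N)))))) (K a51 (M a85 (F (T t571 (L l239 (L l277 (T t572 N)))))) N)))))))))))))))⟩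
def e0_63__215_37 : Ent 4 := ⟨[a0, a63], [a215, a65], (M a48 (F (T t1 (T t2 (T t3 (T t0 (K a16 (M a60 (F (T t64 (L l14 (L l18 (L l350 (T t67 (L l349 (T t65 N))))))))) (K a32 (M a60 (F (T t64 (L l350 (T t67 (L l24 (L l28 (L l349 (T t65 N))))))))) (K a21 (M a192 (F (T t28 (L l47 (L l347 (T t20 (L l47 (L l245 (L l347 (T t29 N)))))))))) (K a37 (M a192 (F (T t19 (L l47 (T t20 (L l295 (T t21 N))))))) (K a53 (M a192 (F (T t19 (L l295 (L l491 (T t21 (L l239 (T t31 N)))))))) (K a26 (M a192 (F (T t28 (T t20 (L l295 (T t21 N)))))) (K a42 (M a192 (F (T t19 (T t20 (L l28 (L l245 (T t29 N))))))) (K a58 (M a192 (F (T t19 (L l295 (T t21 (L l54 (L l239 (L l498 (T t31 N))))))))) (K a15 (M a85 (F (T t567 (L l239 (L l245 (T t568 N)))))) N)))))))))))))))⟩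
def e0_63__215_38 : Ent 4 := ⟨[a0, a63], [a215, a66], (M a48 (F (T t1 (T t2 (T t3 (T t0 (K a16 (M a60 (F (T t64 (L l14 (L l18 (L l309 (L l350 (T t67 (L l349 (T t65 N)))))))))) (K a32 (M a60 (F (T t64 (L l309 (L l350 (T t67 (L l24 (L l28 (L l349 (T t65 N)))))))))) (K a21 (M a192 (F (T t28 (L l47 (L l347 (T t20 (L l47 (L l245 (L l347 (T t29 N)))))))))) (K a37 (M a192 (F (T t19 (L l47 (T t20 (L l295 (T t21 N))))))) (K a53 (M a192 (F (T t19 (L l295 (L l491 (T t21 (L l142 (L l239 (T t31 N))))))))) (K a26 (M a192 (F (T t28 (T t20 (L l295 (T t21 N)))))) (K a42 (M a192 (F (T t19 (T t20 (L l28 (L l245 (T t29 N))))))) (K a58 (M a192 (F (T t19 (L l295 (T t21 (L l54 (L l142 (L l239 (L l498 (T t31 N)))))))))) (K a15 (M a85 (F (T t567 (L l239 (L l245 (T t568 N)))))) N)))))))))))))))⟩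
def e0_63__215_39 : Ent 4 := ⟨[a0, a63], [a215, a67], (M a149 (F (T t175 (L l76 (L l239 (T t5 (L l239 (L l295 (T t176 (L l76 (L l295 (T t177 (K a192 (M a53 (F (T t178 (L l236 (T t179 (L l236 (L l239 (L l296 (T t180 N))))))))) (K a21 (M a48 (F (T t4 (L l121 (T t13 (L l18 (T t14 N))))))) (K a85 (M a20 (F (L l349 (T t1268 (L l144 (L l239 (T t1269 (L l87 (L l145 (T t1270 N)))))))))) (K a213 (Fr a106 a192 l519 (Fr a42 a21 l68 (Fr a170 a234 l390 (Fr a255 a85 l476 (V t582))))) (K a42 (M a48 (F (T t187 (L l121 (L l390 (T t13 (L l54 (T t14 N)))))))) (K a106 (M a48 (F (T t1 (L l498 (T t14 (L l239 (L l390 (L l498 (T t6 (L l239 (L l245 (L l390 (T t26 N))))))))))))) (K a170 (M a48 (F (T t4 (L l462 (T t1 (L l121 (L l390 (T t13 N)))))))) (K a191 (M a16 (F (T t97 (T t190 (L l213 (L l239 (L l245 (T t191 N)))))))) (K a255 (M a195 (F (L l434 (T t1271 (L l76 (L l475 (T t1114 (L l143 (L l239 (L l296 (L l434 (T t1272 (L l143 (L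 l145 (L l349 (T t1273 N)))))))))))))))) N)))))))))))))))))))))⟩
def e0_63__215_40 : Ent 4 := ⟨[a0, a63], [a215, a68], (M a48 (F (T t1 (T t2 (T t3 (T t0 (K a16 (M a60 (F (T t64 (L l14 (L l18 (L l350 (T t67 (L l349 (T t65 N))))))))) (K a32 (M a60 (F (T t64 (L l350 (T t67 (L l24 (L l28 (L l349 (T t65 N))))))))) (K a21 (M a192 (F (T t28 (L l47 (L l347 (T t20 (L l47 (L l245 (L l347 (T t29 N)))))))))) (K a37 (M a192 (F (T t19 (L l47 (T t20 (L l295 (T t21 N))))))) (K a53 (M a192 (F (T t19 (L l295 (L l491 (T t21 (L l239 (T t31 N)))))))) (K a26 (M a192 (F (T t28 (T t20 (L l295 (T t21 N)))))) (K a42 (M a192 (F (T t19 (T t20 (L l28 (L l245 (T t29 N))))))) (K a58 (M a192 (F (T t19 (L l295 (T t21 (L l54 (L l239 (L l498 (T t31 N))))))))) (K a15 (M a85 (F (T t567 (L l239 (L l245 (T t568 N)))))) N)))))))))))))))⟩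
def e0_63__215_41 : Ent 4 := ⟨[a0, a63], [a215, a69], (M a48 (F (T t1 (L l311 (T t2 (T t3 (T t0 (K a16 (M a60 (F (T t64 (L l14 (L l18 (L l350 (T t67 (L l311 (L l349 (T t65 N)))))))))) (K a32 (M a60 (F (T t64 (L l350 (T t67 (L l24 (L l28 (L l311 (L l349 (T t65 N)))))))))) (K a21 (M a192 (F (T t28 (L l47 (L l347 (T t20 (L l47 (L l245 (L l347 (T t29 N)))))))))) (K a37 (M a192 (F (T t19 (L l47 (T t20 (L l295 (T t21 N))))))) (K a53 (M a192 (F (T t19 (L l295 (L l491 (T t21 (L l239 (T t31 N)))))))) (K a26 (M a192 (F (T t28 (T t20 (L l295 (T t21 N)))))) (K a42 (M a192 (F (T t19 (T t20 (L l28 (L l245 (T t29 N))))))) (K a58 (M a192 (F (T t19 (L l295 (T t21 (L l54 (L l239 (L l498 (T t31 N))))))))) (K a15 (M a85 (F (T t567 (L l239 (L l245 (T t568 N)))))) N))))))))))))))))⟩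
def e0_63__215_42 : Ent 4 := ⟨[a0, a63], [a215, a70], (M a149 (F (T t175 (L l239 (T t5 (L l239 (L l295 (T t176 (L l295 (T t177 (K a192 (M a53 (F (T t178 (L l236 (T t179 (L l77 (L l236 (L l239 (L l296 (T t180 N)))))))))) (K a21 (M a48 (F (T t4 (T t13 (L l18 (T t14 N)))))) (K a85 (M a20 (F (L l349 (T t1268 (L l144 (L l239 (T t1269 (L l87 (L l124 (T t1270 N)))))))))) (K a213 (Fr a106 a192 l519 (Fr a42 a21 l68 (Fr a170 a234 l390 (Fr a255 a85 l476 (V t582))))) (K a42 (M a48 (F (T t187 (L l390 (T t13 (L l54 (T t14 N))))))) (K a106 (M a48 (F (T t1 (L l498 (T t14 (L l239 (L l390 (L l498 (T t6 (L l239 (L l245 (L l390 (T t26 N))))))))))))) (K a170 (M a48 (F (T t4 (L l462 (T t1 (L l390 (T t13 N))))))) (K a191 (M a240 (F (T t962 (L l239 (L l315 (T t963 N)))))) (K a255 (M a195 (F (T t2098 (L l330 (L l333 (L l475 (T t1114 (L l239 (L l296 (L l434 (T t1272 (L l349 (T t1273 N))))))))))))) N)))))))))))))))))))⟩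
def e0_63__215_43 : Ent 4 := ⟨[a0, a63], [a215, a71], (M a149 (F (T t175 (L l239 (T t5 (L l239 (L l295 (T t176 (L l295 (T t177 (K a192 (M a53 (F (T t178 (L l236 (T t179 (L l77 (L l236 (L l239 (L l296 (T t180 N)))))))))) (K a21 (M a48 (F (T t4 (T t13 (L l18 (T t14 N)))))) (K a85 (M a20 (F (L l349 (T t1268 (L l144 (L l239 (T t1269 (L l87 (L l127 (T t1270 N)))))))))) (K a213 (Fr a106 a192 l519 (Fr a42 a21 l68 (Fr a170 a234 l390 (Fr a255 a85 l476 (V t582))))) (K a42 (M a48 (F (T t11 (L l390 (T t13 (L l54 (T t14 N))))))) (K a106 (M a48 (F (T t1 (L l498 (T t14 (L l239 (L l390 (L l498 (T t6 (L l239 (L l245 (L l390 (T t26 N))))))))))))) (K a170 (M a48 (F (T t4 (L l462 (T t1 (L l390 (T t13 N))))))) (K a191 (M a60 (F (T t463 (L l239 (T t1256 N))))) (K a255 (M a195 (F (T t2098 (L l331 (L l475 (T t1114 (L l239 (L l296 (L l434 (T t1272 (L l349 (T t1273 N)))))))))))) N)))))))))))))))))))⟩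
def e0_63__215_44 : Ent 4 := ⟨[a0, a63], [a215, a72], (M a48 (F (T t1 (T t2 (T t3 (T t0 (K a16 (M a60 (F (T t64 (L l14 (L l18 (L l350 (T t67 (L l349 (T t65 N))))))))) (K a32 (M a60 (F (T t64 (L l350 (T t67 (L l24 (L l28 (L l349 (T t65 N))))))))) (K a21 (M a192 (F (T t28 (L l47 (L l347 (T t20 (L l47 (L l245 (L l347 (T t29 N)))))))))) (K a37 (M a192 (F (T t19 (L l47 (T t20 (L l295 (T t21 N))))))) (K a53 (M a192 (F (T t19 (L l295 (L l491 (T t21 (L l132 (L l239 (T t31 N))))))))) (K a26 (M a192 (F (T t28 (T t20 (L l295 (T t21 N)))))) (K a42 (M a192 (F (T t19 (T t20 (L l28 (L l245 (T t29 N))))))) (K a58 (M a192 (F (T t19 (L l295 (T t21 (L l54 (L l132 (L l239 (L l498 (T t31 N)))))))))) (K a15 (M a85 (F (T t567 (L l239 (L l245 (T t568 N)))))) N)))))))))))))))⟩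
def e0_63__215_45 : Ent 4 := ⟨[a0, a63], [a215, a73], (M a149 (F (T t175 (L l239 (T t5 (L l239 (L l295 (T t176 (L l295 (T t177 (K a192 (M a53 (F (T t178 (L l236 (T t179 (L l81 (L l236 (L l239 (L l296 (T t180 N)))))))))) (K a21 (M a48 (F (T t4 (T t13 (L l18 (T t14 N)))))) (K a85 (M a20 (F (L l349 (T t238 (L l144 (L l239 (T t1269 (L l87 (T t1270 N))))))))) (K a213 (Fr a106 a192 l519 (Fr a42 a21 l68 (Fr a170 a234 l390 (Fr a255 a85 l476 (V t582))))) (K a42 (M a48 (F (T t187 (L l390 (T t13 (L l54 (T t14 N))))))) (K a106 (M a48 (F (T t1 (L l498 (T t14 (L l239 (L l390 (L l498 (T t6 (L l239 (L l245 (L l390 (T t26 N))))))))))))) (K a170 (M a48 (F (T t4 (L l462 (T t1 (L l390 (T t13 N))))))) (K a191 (M a240 (F (T t962 (L l239 (L l335 (T t963 N)))))) (K a255 (M a195 (F (T t6173 (L l81 (L l335 (L l475 (T t1114 (L l239 (L l296 (L l434 (T t1272 (L l129 (L l349 (T t1273 N)))))))))))))) N)))))))))))))))))))⟩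
def e0_63__215_46 : Ent 4 := ⟨[a0, a63], [a215, a74], (M a12 (F (T t122 (T t151 (T t152 (T t153 (K a4 (M a60 (F (T t69 (L l336 (L l339 (T t398 (L l349 (T t448 N)))))))) (K a8 (M a60 (F (T t68 (L l336 (L l339 (T t398 (L l52 (L l56 (L l349 (T t448 N)))))))))) (K a21 (M a192 (F (T t156 (L l15 (L l347 (T t450 (L l15 (L l277 (L l347 (T t157 N)))))))))) (K a25 (M a192 (F (T t156 (L l15 (T t450 (L l295 (T t21 N))))))) (K a29 (M a192 (F (T t156 (L l295 (L l371 (T t21 (L l78 (L l130 (L l239 (T t160 N)))))))))) (K a38 (M a192 (F (T t156 (T t450 (L l295 (T t21 N)))))) (K a42 (M a192 (F (T t156 (T t450 (L l56 (L l277 (T t157 N))))))) (K a46 (M a192 (F (T t156 (L l295 (T t21 (L l26 (L l78 (L l130 (L l239 (L l408 (T t160 N))))))))))) (K a51 (M a85 (F (T t571 (L l239 (L l277 (T t572 N)))))) N)))))))))))))))⟩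
def e0_63__215_47 : Ent 4 := ⟨[a0, a63], [a215, a75], (M a149 (F (T t175 (L l239 (T t5 (L l239 (L l295 (T t176 (L l295 (T t177 (K a192 (M a53 (F (T t178 (L l236 (T t179 (L l236 (L l239 (L l296 (T t180 N))))))))) (K a21 (M a48 (F (T t4 (T t13 (L l18 (T t14 N)))))) (K a85 (M a20 (F (L l349 (T t238 (L l144 (L l239 (T t1269 (L l87 (T t1270 N))))))))) (K a213 (Fr a106 a192 l519 (Fr a42 a21 l68 (Fr a170 a234 l390 (Fr a255 a85 l476 (V t582))))) (K a42 (M a48 (F (T t187 (L l390 (T t13 (L l54 (T t14 N))))))) (K a106 (M a48 (F (T t48 (L l498 (T t14 (L l239 (L l390 (L l498 (T t6 (L l239 (L l245 (L l390 (T t26 N))))))))))))) (K a170 (M a48 (F (T t4 (L l337 (L l462 (T t1 (L l390 (T t13 N)))))))) (K a191 (M a16 (F (T t112 (T t190 (L l213 (L l239 (L l245 (T t191 N)))))))) (K a255 (M a195 (F (L l434 (T t1271 (L l475 (T t1114 (L l131 (L l239 (L l296 (L l434 (T t1272 (L l131 (L l133 (L l349 (T t1273 N))))))))))))))) N)))))))))))))))))))⟩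
def e0_63__215_48 : Ent 4 := ⟨[a0, a63], [a215, a76], (M a149 (F (T t175 (L l80 (L l239 (T t5 (L l239 (L l295 (T t176 (L l80 (L l295 (T t177 (K a192 (M a53 (F (T t178 (L l236 (T t179 (L l236 (L l239 (L l296 (T t180 N))))))))) (K a21 (M a48 (F (T t4 (L l146 (T t13 (L l18 (T t14 N))))))) (K a85 (M a20 (F (L l349 (T t238 (L l144 (L l239 (T t1269 (L l87 (T t1270 N))))))))) (K a213 (Fr a106 a192 l519 (Fr a42 a21 l68 (Fr a170 a234 l390 (Fr a255 a85 l476 (V t582))))) (K a42 (M a48 (F (T t187 (L l146 (L l390 (T t13 (L l54 (T t14 N)))))))) (K a106 (M a48 (F (T t1 (L l498 (T t14 (L l239 (L l390 (L l498 (T t6 (L l239 (L l245 (L l390 (T t26 N))))))))))))) (K a170 (M a48 (F (T t4 (L l462 (T t1 (L l146 (L l390 (T t13 N)))))))) (K a191 (M a204 (F (L l80 (T t1043 (L l138 (L l239 (T t1112 N))))))) (K a255 (M a195 (F (T t2098 (L l475 (T t1114 (L l239 (L l296 (L l434 (T t1272 (L l349 (T t1273 N))))))))))) N)))))))))))))))))))))⟩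
def e0_63__215_49 : Ent 4 := ⟨[a0, a63], [a215, a77], (M a149 (F (T t175 (L l239 (T t5 (L l239 (L l295 (T t176 (L l295 (T t177 (K a192 (M a53 (F (T t178 (L l236 (T t179 (L l81 (L l236 (L l239 (L l296 (T t180 N)))))))))) (K a21 (M a48 (F (T t4 (T t13 (L l18 (T t14 N)))))) (K a85 (M a20 (F (L l349 (T t238 (L l144 (L l239 (T t1269 (L l87 (T t1270 N))))))))) (K a213 (Fr a106 a192 l519 (Fr a42 a21 l68 (Fr a170 a234 l390 (Fr a255 a85 l476 (V t582))))) (K a42 (M a48 (F (T t11 (L l390 (T t13 (L l54 (T t14 N))))))) (K a106 (M a48 (F (T t1 (L l498 (T t14 (L l239 (L l390 (L l498 (T t6 (L l239 (L l245 (L l390 (T t26 N))))))))))))) (K a170 (M a48 (F (T t4 (L l462 (T t1 (L l390 (T t13 N))))))) (K a191 (M a16 (F (T t97 (T t190 (L l213 (L l239 (L l245 (T t191 N)))))))) (K a255 (M a195 (F (T t2098 (L l81 (L l475 (T t1114 (L l135 (L l239 (L l296 (L l434 (T t1272 (L l349 (T t1273 N))))))))))))) N)))))))))))))))))))⟩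
def e0_63__215_50 : Ent 4 := ⟨[a0, a63], [a215, a78], (M a149 (F (T t175 (L l239 (T t5 (L l239 (L l295 (T t176 (L l295 (T t177 (K a192 (M a53 (F (T t178 (L l236 (T t179 (L l236 (L l239 (L l296 (T t180 N))))))))) (K a21 (M a48 (F (T t4 (T t13 (L l18 (T t14 N)))))) (K a85 (M a20 (F (L l349 (T t238 (L l144 (L l239 (T t1269 (L l87 (T t1270 N))))))))) (K a213 (Fr a106 a192 l519 (Fr a42 a21 l68 (Fr a170 a234 l390 (Fr a255 a85 l476 (V t582))))) (K a42 (M a48 (F (T t187 (L l390 (T t13 (L l54 (T t14 N))))))) (K a106 (M a48 (F (T t48 (L l498 (T t14 (L l239 (L l390 (L l498 (T t6 (L l239 (L l245 (L l390 (T t26 N))))))))))))) (K a170 (M a48 (F (T t4 (L l327 (L l462 (T t1 (L l390 (T t13 N)))))))) (K a191 (M a204 (F (T t1043 (L l136 (L l239 (T t1112 N)))))) (K a255 (M a195 (F (T t2098 (L l475 (T t1114 (L l239 (L l296 (L l434 (T t1272 (L l349 (T t1273 N))))))))))) N)))))))))))))))))))⟩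
def e0_63__215_51 : Ent 4 := ⟨[a0, a63], [a215, a79], (M a149 (F (T t175 (L l84 (L l239 (T t5 (L l239 (L l295 (T t176 (L l84 (L l295 (T t177 (K a192 (M a53 (F (T t178 (L l236 (T t179 (L l84 (L l236 (L l239 (L l296 (T t180 N)))))))))) (K a21 (M a48 (F (T t4 (L l18 (T t1082 (L l18 (T t14 N))))))) (K a85 (M a20 (F (L l349 (T t238 (L l144 (L l239 (T t1269 (L l87 (T t1270 N))))))))) (K a213 (Fr a106 a192 l519 (Fr a42 a21 l68 (Fr a170 a234 l390 (Fr a255 a85 l476 (V t582))))) (K a42 (M a48 (F (T t11 (L l390 (T t1082 (L l54 (T t14 N))))))) (K a106 (M a48 (F (T t48 (L l498 (T t14 (L l239 (L l390 (L l498 (T t6 (L l239 (L l245 (L l390 (T t26 N))))))))))))) (K a170 (M a48 (F (T t4 (L l462 (T t48 (L l151 (L l390 (T t13 N)))))))) (K a191 (M a240 (F (T t962 (L l239 (T t963 N))))) (K a255 (M a195 (F (T t2098 (L l475 (T t1114 (L l239 (L l296 (L l434 (T t1272 (L l349 (T t1273 N))))))))))) N)))))))))))))))))))))⟩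
def e0_63__215_52 : Ent 4 := ⟨[a0, a63], [a215, a84], (M a48 (F (T t1 (T t2 (L l364 (T t3 (T t0 (K a16 (M a60 (L l364 (F (T t64 (L l14 (L l18 (L l346 (L l350 (T t67 (L l349 (T t65 (K a152 (M a220 (F (T t42 (T t69 (L l14 (L l18 (L l346 (L l350 (T t44 N))))))))) (K a220 (M a152 (F (T t69 (L l286 (T t469 N))))) N))))))))))))) (K a32 (M a60 (F (T t64 (L l346 (L l350 (T t67 (L l24 (L l28 (L l349 (T t65 N)))))))))) (K a21 (M a192 (F (T t28 (L l47 (L l347 (T t20 (L l47 (L l245 (L l347 (T t29 N)))))))))) (K a37 (M a192 (F (T t225 (T t27 (L l295 (T t21 N)))))) (K a53 (M a192 (F (T t27 (L l295 (L l491 (T t21 (L l239 (T t31 N)))))))) (K a26 (M a192 (F (T t27 (T t20 (L l295 (T t21 N)))))) (K a42 (M a192 (F (T t27 (T t20 (L l28 (L l245 (T t29 N))))))) (K a58 (M a192 (F (T t28 (L l295 (T t21 (L l54 (L l239 (L l498 (T t31 N))))))))) (K a15 (M a85 (F (T t567 (L l239 (L l245 (T t568 N)))))) N))))))))))))))))⟩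
def e0_63__215_53 : Ent 4 := ⟨[a0, a63], [a215, a85], (M a48 (L l350 (F (T t0 (L l347 (T t1 (L l455 (T t2 (L l347 (L l368 (T t3 (K a16 (M a20 (L l368 (F (T t239 (L l349 (T t238 (L l349 (L l455 (T t240 (L l349 (L l455 (T t241 (K a154 (M a223 (F (T t3341 (L l349 (T t238 (L l349 (L l455 (L l498 (T t240 (L l349 (L l455 (L l498 (T t241 N))))))))))))) (K a223 (M a154 (L l245 (F (L l340 (T t473 (L l349 (T t238 (K a211 (M a219 (L l344 (F (T t6182 (L l349 (T t238 (K a81 (M a146 (L l91 (F (T t6182 (L l349 (T t238 (K a89 (M a93 (L l374 (F (T t3339 (L l117 (L l361 (T t6183 (K a28 (Fr a150 a158 l168 (V t6184)) (K a150 (M a28 (F (T t6185 (L l132 (L l144 (L l289 (L l516 (T t3195 N)))))))) N))))))))) (K a93 (Fr a89 a24 l356 (V t6186)) N)))))))) (K a146 (M a81 (F (T t6182 (L l349 (T t238 N))))) N)))))))) (K a219 (M a211 (F (L l340 (T t473 (L l349 (T t238 N)))))) N))))))))) N)))))))))))))) (K a32 (M a20 (F (L l24 (T t239 (L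 l24 (L l28 (L l349 (T t238 (L l28 (L l349 (L l455 (T t6187 (L l28 (L l349 (L l455 (T t240 N)))))))))))))))) (K a21 (M a149 (L l350 (F (T t4 (L l144 (T t13 (L l18 (L l123 (L l144 (L l368 (T t482 (L l18 (L l123 (L l368 (T t483 (K a20 (M a150 (L l11 (F (T t184 (L l144 (L l295 (L l349 (T t6188 (L l346 (T t6189 (K a22 (M a23 (F (T t184 (L l16 (L l66 (T t636 N)))))) (K a23 (M a22 (L l349 (F (T t4 (L l144 (L l346 (T t6190 (L l346 (T t6189 (K a87 (Fr a151 a148 l163 (V t4268)) (K a151 (M a87 (F (L l144 (T t13 (L l277 (L l493 (T t6191 N))))))) N))))))))))) N)))))))))))) (K a150 (M a20 (F (T t4 (L l50 (L l374 (L l458 (T t183 N))))))) N))))))))))))))))) (K a37 (M a20 (F (L l28 (T t3209 (L l47 (T t239 (L l21 (L l28 (L l47 (L l347 (L l458 (T t6192 (L l28 (L l458 (T t6193 N))))))))))))))) (K a53 (M a20 (F (T t3209 (L l349 (T t238 (L l365 (T t5898 N))))))) (K a26 (M a20 (F (T t3209 (L l54 (L l349 (T t238 (L l54 (L l349 (L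 l458 (T t6194 (L l54 (T t6195 N)))))))))))) (K a42 (M a192 (L l350 (F (T t27 (L l347 (T t20 (L l54 (L l144 (L l368 (L l390 (T t224 (K a20 (M a150 (F (T t27 (L l295 (L l347 (T t3194 N)))))) (K a150 (M a20 (F (T t27 (L l22 (T t239 N))))) N))))))))))))) (K a58 (M a20 (F (T t3209 (L l54 (L l349 (T t238 (L l54 (L l365 (T t5905 N))))))))) (K a15 (M a20 (F (T t6196 (L l7 (L l349 (T t238 (L l73 (L l365 (T t5905 N))))))))) (K a20 (M a150 (F (T t0 (L l11 (L l347 (T t1 (L l455 (T t2 (L l11 (L l14 (L l347 (L l368 (T t3 (K a16 (M a154 (L l14 (F (T t526 (L l123 (L l295 (L l344 (T t6197 (T t3199 (K a24 (M a28 (F (T t526 (L l123 (T t6198 (L l346 (T t3196 N))))))) (K a28 (M a24 (F (T t493 (L l46 (L l245 (L l362 (T t6199 N))))))) N))))))))))) (K a32 (M a61 (F (L l295 (L l349 (T t6200 (L l28 (L l365 (T t530 N)))))))) (K a21 (M a149 (L l11 (F (T t184 (L l144 (L l295 (L l349 (T t6188 (L l346 (T t6189 (K a22 (M a23 (F (T t184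 (L l16 (L l66 (T t636 N)))))) (K a23 (M a22 (L l349 (F (T t4 (L l144 (L l346 (T t6190 (L l346 (T t6189 (K a87 (Fr a151 a148 l163 (V t4268)) (K a151 (M a87 (F (L l144 (T t13 (L l277 (L l493 (T t6191 N))))))) N))))))))))) N)))))))))))) (K a37 (M a192 (F (T t27 (L l295 (L l347 (T t3194 N)))))) (K a53 (M a192 (F (T t28 (L l35 (L l295 (L l347 (L l491 (T t3194 N)))))))) (K a26 (M a192 (F (T t28 (L l295 (L l347 (T t3194 N)))))) (K a42 (M a192 (F (T t27 (L l295 (L l347 (T t3194 N)))))) (K a58 (M a192 (F (T t28 (L l295 (L l347 (T t3194 N)))))) (K a15 (M a192 (F (L l483 (T t28 (L l295 (L l337 (L l347 (T t3194 N)))))))) N)))))))))))))))))))))) (K a150 (M a20 (F (T t0 (L l374 (L l458 (T t183 (L l349 (T t238 N)))))))) N))))))))))))))))))))))⟩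
def e0_63__215_54 : Ent 4 := ⟨[a0, a63], [a215, a86], (M a48 (F (T t1 (T t2 (T t3 (T t0 (K a16 (M a60 (F (T t64 (L l14 (L l18 (L l350 (L l477 (T t67 (L l349 (L l351 (T t65 N))))))))))) (K a32 (M a60 (F (T t64 (L l350 (L l477 (T t67 (L l24 (L l28 (L l349 (L l351 (T t65 N))))))))))) (K a21 (M a192 (F (T t837 (L l47 (L l347 (L l351 (T t20 (L l47 (L l245 (L l347 (L l351 (T t29 N)))))))))))) (K a37 (M a192 (F (T t19 (L l47 (L l351 (T t20 (L l295 (L l351 (T t21 N))))))))) (K a53 (M a192 (F (T t19 (L l295 (L l351 (L l491 (T t21 (L l142 (L l239 (T t31 N)))))))))) (K a26 (M a192 (F (T t837 (L l351 (T t20 (L l295 (L l351 (T t21 N)))))))) (K a42 (M a192 (F (T t19 (L l351 (T t20 (L l28 (L l245 (L l351 (T t29 N))))))))) (K a58 (M a192 (F (T t19 (L l295 (L l351 (T t21 (L l54 (L l142 (L l239 (L l498 (T t31 N))))))))))) (K a15 (M a192 (F (T t1922 (L l325 (L l351 (T t20 (L l295 (L l351 (L l469 (T t21 N)))))))))) N)))))))))))))))⟩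
def e0_63__215_55 : Ent 4 := ⟨[a0, a63], [a215, a87], (M a48 (L l349 (F (T t1 (T t2 (T t3 (T t0 (K a16 (M a60 (L l349 (F (T t64 (L l14 (L l18 (L l350 (L l475 (T t67 (L l14 (L l18 (L l350 (T t44 (K a23 (M a151 (F (T t70 (L l143 (L l295 (L l350 (L l475 (T t3627 N)))))))) (K a151 (M a23 (F (T t3419 (T t64 N)))) N))))))))))))))) (K a32 (M a60 (L l349 (F (T t64 (L l350 (L l475 (T t67 (L l350 (T t44 (K a23 (M a151 (F (T t70 (L l143 (L l295 (L l350 (L l475 (T t3627 N)))))))) (K a151 (M a23 (F (L l24 (T t3419 (T t64 N))))) N))))))))))) (K a21 (M a85 (L l349 (F (T t873 (L l47 (L l143 (L l245 (L l367 (T t100 (L l143 (T t50 (K a23 (M a151 (L l11 (F (T t873 (L l143 (L l295 (L l475 (T t3313 (L l47 (L l143 (L l245 (L l367 (T t100 (K a20 (M a22 (F (T t873 (L l143 (T t3628 (L l143 (T t50 N))))))) (K a22 (M a20 (F (T t873 (L l47 (L l65 (T t239 N)))))) N))))))))))))))) (K a151 (M a23 (F (T t3614 (L l47 (L l143 (L l245 (L l367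 (T t100 N)))))))) N))))))))))))) (K a37 (M a3 (L l349 (F (T t348 (L l47 (T t358 (L l25 (L l28 (L l350 (T t87 (K a23 (M a151 (F (T t348 (L l143 (T t3749 (L l143 (T t3628 N))))))) (K a151 (Fr a23 a43 l67 (V t3712)) N)))))))))))) (K a53 (M a23 (F (T t3181 (L l350 (T t1941 (T t3750 N)))))) (K a26 (M a192 (L l349 (F (T t837 (T t20 (L l143 (L l295 (L l475 (T t21 (K a23 (M a151 (F (T t837 (L l143 (T t3751 N))))) (K a151 (M a23 (F (T t27 (L l239 (T t3752 N))))) N))))))))))) (K a42 (M a192 (L l349 (F (T t19 (T t20 (L l28 (L l245 (L l367 (T t29 (K a23 (M a151 (F (T t837 (L l143 (L l390 (T t3751 N)))))) (K a151 (M a23 (F (T t837 (L l22 (L l239 (L l390 (T t3752 N))))))) N))))))))))) (K a58 (M a23 (F (T t636 (L l54 (T t3425 (L l54 (L l350 (T t1941 (L l54 (L l350 (T t3421 N))))))))))) (K a15 (M a3 (L l349 (F (T t1341 (L l73 (T t86 (L l63 (L l350 (T t87 (K a23 (M a151 (F (T t136 (L l143 (L l339 (T t3749 (L l143 (L l481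 (T t3628 N))))))))) (K a151 (Fr a23 a43 l67 (V t3712)) N))))))))))) (K a23 (M a151 (F (T t2 (L l143 (T t3628 (K a16 (M a192 (F (T t206 (L l143 (L l475 (T t3640 N)))))) (K a32 (M a192 (F (T t206 (L l143 (L l475 (T t3640 N)))))) N))))))) (K a151 (M a23 (F (T t2 (L l350 (T t1941 (L l367 (T t172 N))))))) N))))))))))))))))))⟩
def e0_63__215_56 : Ent 4 := ⟨[a0, a63], [a215, a88], (M a149 (F (T t175 (L l239 (T t5 (L l239 (L l295 (T t176 (L l295 (T t177 (K a192 (M a53 (F (T t178 (L l236 (T t179 (L l236 (L l239 (L l296 (T t180 N))))))))) (K a21 (M a48 (F (T t4 (L l146 (L l478 (T t13 (L l18 (T t14 N)))))))) (K a85 (M a20 (F (L l349 (T t238 (L l128 (L l144 (L l239 (T t1269 (L l87 (L l370 (L l460 (T t1270 N)))))))))))) (K a213 (Fr a106 a192 l519 (Fr a42 a21 l68 (Fr a170 a234 l390 (Fr a255 a85 l476 (V t582))))) (K a42 (M a48 (F (T t187 (L l146 (L l390 (L l478 (T t13 (L l54 (T t14 N))))))))) (K a106 (M a48 (F (T t1 (L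 l498 (T t14 (L l239 (L l390 (L l498 (T t6 (L l239 (L l245 (L l390 (T t26 N))))))))))))) (K a170 (M a48 (F (T t4 (L l462 (T t1 (L l146 (L l390 (L l478 (T t13 N))))))))) (K a191 (M a16 (F (T t97 (L l370 (L l478 (T t190 (L l90 (L l213 (L l239 (L l245 (T t191 N))))))))))) (K a255 (M a195 (F (T t6173 (L l475 (T t1114 (L l239 (L l296 (L l434 (T t1272 (L l349 (L l370 (T t1273 N)))))))))))) N)))))))))))))))))))⟩
def e0_63__215_57 : Ent 4 := ⟨[a0, a63], [a215, a89], (M a48 (F (T t1 (T t2 (T t3 (T t0 (K a16 (M a60 (F (T t64 (L l14 (L l18 (L l350 (T t67 (L l349 (T t65 N))))))))) (K a32 (M a60 (F (T t64 (L l350 (T t67 (L l24 (L l28 (L l349 (T t65 N))))))))) (K a21 (M a192 (F (T t837 (L l47 (L l347 (L l371 (T t20 (L l47 (L l245 (L l347 (L l371 (T t29 N)))))))))))) (K a37 (M a192 (F (T t19 (L l47 (L l371 (T t20 (L l295 (L l371 (T t21 N))))))))) (K a53 (M a192 (F (T t19 (L l295 (L l371 (L l491 (T t21 (L l132 (L l239 (T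 t31 N)))))))))) (K a26 (M a192 (F (T t837 (L l371 (T t20 (L l295 (L l371 (T t21 N)))))))) (K a42 (M a192 (F (T t19 (L l371 (T t20 (L l28 (L l245 (L l371 (T t29 N))))))))) (K a58 (M a192 (F (T t19 (L l295 (L l371 (T t21 (L l54 (L l132 (L l239 (L l498 (T t31 N))))))))))) (K a15 (M a192 (F (T t1922 (L l325 (L l371 (T t20 (L l295 (L l371 (L l469 (T t21 N)))))))))) N)))))))))))))))⟩
def e0_63__215_58 : Ent 4 := ⟨[a0, a63], [a215, a90], (M a12 (F (T t122 (T t151 (T t152 (T t153 (K a4 (M a60 (F (T t69 (L l480 (L l483 (T t398 (L l349 (T t448 N)))))))) (K a8 (M a60 (F (T t68 (L l480 (L l483 (T t398 (L l52 (L l56 (L l349 (T t448 N)))))))))) (K a21 (M a192 (F (T t836 (L l15 (L l347 (L l375 (T t450 (L l15 (L l277 (L l347 (L l375 (T t157 N)))))))))))) (K a25 (M a192 (F (T t449 (L l15 (L l375 (T t450 (L l295 (L l375 (T t21 N))))))))) (K a29 (M a192 (F (T t449 (L l295 (L l371 (L l375 (T t21 (L l130 (L l239 (T t160 N))))))))))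 (K a38 (M a192 (F (T t836 (L l375 (T t450 (L l295 (L l375 (T t21 N)))))))) (K a42 (M a192 (F (T t449 (L l375 (T t450 (L l56 (L l277 (L l375 (T t157 N))))))))) (K a46 (M a192 (F (T t449 (L l295 (L l375 (T t21 (L l26 (L l130 (L l239 (L l408 (T t160 N))))))))))) (K a51 (M a192 (F (T t1725 (L l375 (L l415 (T t450 (L l295 (L l375 (L l439 (T t21 N)))))))))) N)))))))))))))))⟩
def e0_63__215_59 : Ent 4 := ⟨[a0, a63], [a215, a91], (M a12 (F (T t122 (T t151 (T t152 (T t153 (K a4 (M a60 (F (T t69 (L l481 (T t398 (L l349 (T t448 N))))))) (K a8 (M a60 (F (T t68 (L l481 (T t398 (L l52 (L l56 (L l349 (T t448 N))))))))) (K a21 (M a192 (F (T t836 (L l15 (L l347 (L l481 (T t450 (L l15 (L l277 (L l347 (T t157 N))))))))))) (K a25 (M a192 (F (T t449 (L l15 (L l481 (T t450 (L l295 (T t21 N)))))))) (K a29 (M a192 (F (T t449 (L l295 (L l371 (T t21 (L l239 (T t160 N)))))))) (K a38 (M a192 (F (T t836 (L l481 (T t450 (L l295 (T t21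 N))))))) (K a42 (M a192 (F (T t449 (L l481 (T t450 (L l56 (L l277 (T t157 N)))))))) (K a46 (M a192 (F (T t449 (L l295 (T t21 (L l26 (L l239 (L l408 (T t160 N))))))))) (K a51 (M a85 (F (T t571 (L l239 (L l277 (T t572 N)))))) N)))))))))))))))⟩
def e0_63__215_60 : Ent 4 := ⟨[a0, a63], [a215, a92], (M a149 (F (T t175 (L l239 (T t5 (L l239 (L l295 (T t176 (L l295 (T t177 (K a192 (M a53 (F (T t178 (L l236 (T t179 (L l236 (L l239 (L l296 (T t180 N))))))))) (K a21 (M a48 (F (T t4 (T t13 (L l18 (T t14 N)))))) (K a85 (M a20 (F (L l349 (T t238 (L l144 (L l239 (L l466 (T t1269 (L l87 (L l95 (T t1270 N))))))))))) (K a213 (Fr a106 a192 l519 (Fr a42 a21 l68 (Fr a170 a234 l390 (Fr a255 a85 l476 (V t582))))) (K a42 (M a48 (F (T t187 (L l390 (T t13 (L l54 (T t14 N))))))) (K a106 (M a48 (F (T t1 (L l498 (T t14 (L l239 (L l390 (L l498 (T t6 (L l239 (L l245 (L l390 (T t26 N))))))))))))) (K a170 (M a48 (F (T t4 (L l462 (T t1 (L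 l390 (T t13 N))))))) (K a191 (M a16 (F (T t97 (T t190 (L l90 (L l213 (L l239 (L l245 (T t191 N))))))))) (K a255 (M a195 (F (T t2098 (L l475 (T t1114 (L l239 (L l296 (L l434 (T t1272 (L l349 (T t1273 N))))))))))) N)))))))))))))))))))⟩
def e0_63__215_61 : Ent 4 := ⟨[a0, a63], [a215, a93], (M a48 (F (T t1 (T t2 (T t3 (T t0 (K a16 (M a60 (F (T t64 (L l14 (L l18 (L l350 (T t67 (L l349 (T t65 N))))))))) (K a32 (M a60 (F (T t64 (L l350 (T t67 (L l24 (L l28 (L l349 (T t65 N))))))))) (K a21 (M a192 (F (T t837 (L l47 (L l347 (T t20 (L l47 (L l245 (L l347 (L l362 (T t29 N))))))))))) (K a37 (M a192 (F (T t19 (L l47 (T t20 (L l138 (L l295 (L l470 (T t21 N))))))))) (K a53 (M a192 (F (T t19 (L l138 (L l295 (L l470 (L l491 (T t21 (L l239 (T t31 N)))))))))) (K a26 (M a192 (F (T t837 (T t20 (L l138 (L l295 (L l470 (T t21 N)))))))) (K a42 (M a192 (F (T t19 (T t20 (L l28 (L l245 (L l362 (T t29 N)))))))) (K a58 (M a192 (F (T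 t19 (L l138 (L l295 (L l470 (T t21 (L l54 (L l239 (L l498 (T t31 N))))))))))) (K a15 (M a192 (F (T t57 (L l483 (T t27 (L l325 (T t20 N))))))) N)))))))))))))))⟩
def e0_63__215_62 : Ent 4 := ⟨[a0, a63], [a215, a94], (M a149 (F (T t175 (L l239 (T t5 (L l239 (L l295 (T t176 (L l295 (T t177 (K a192 (M a53 (F (T t178 (L l236 (T t179 (L l236 (L l239 (L l296 (T t180 N))))))))) (K a21 (M a48 (F (T t4 (T t13 (L l18 (T t14 N)))))) (K a85 (M a20 (F (L l349 (T t238 (L l144 (L l239 (L l471 (T t1269 (L l87 (L l92 (T t1270 N))))))))))) (K a213 (Fr a106 a192 l519 (Fr a42 a21 l68 (Fr a170 a234 l390 (Fr a255 a85 l476 (V t582))))) (K a42 (M a48 (F (T t187 (L l390 (T t13 (L l54 (T t14 N))))))) (K a106 (M a48 (F (T t48 (L l498 (T t14 (L l239 (L l390 (L l498 (T t6 (L l239 (L l245 (L l390 (T t26 N))))))))))))) (K a170 (M a48 (F (T t4 (L l462 (L l471 (T t1 (L l390 (T t13 N)))))))) (K a191 (M a16 (F (T t112 (T t190 (L l213 (L l239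 (L l245 (T t191 N)))))))) (K a255 (M a195 (F (T t2098 (L l475 (T t1114 (L l239 (L l296 (L l434 (T t1272 (L l349 (T t1273 N))))))))))) N)))))))))))))))))))⟩
def e0_63__215_63 : Ent 4 := ⟨[a0, a63], [a215, a95], (M a12 (F (T t122 (T t151 (T t152 (T t153 (K a4 (M a60 (F (T t69 (L l469 (T t398 (L l349 (T t448 N))))))) (K a8 (M a60 (F (T t68 (L l469 (T t398 (L l52 (L l56 (L l349 (T t448 N))))))))) (K a21 (M a192 (F (T t836 (L l15 (L l347 (T t450 (L l15 (L l277 (L l347 (T t157 N)))))))))) (K a25 (M a192 (F (T t449 (L l15 (T t450 (L l137 (L l295 (L l469 (T t21 N))))))))) (K a29 (M a192 (F (T t449 (L l137 (L l295 (L l371 (L l469 (T t21 (L l239 (T t160 N)))))))))) (K a38 (M a192 (F (T t836 (T t450 (L l137 (L l295 (L l469 (T t21 N)))))))) (K a42 (M a192 (F (T t449 (T t450 (L l56 (L l277 (T t157 N))))))) (K a46 (M a192 (F (T t449 (L l137 (L l295 (L l469 (T t21 (L l26 (L l239 (L l408 (T t160 N))))))))))) (K a51 (M a192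 (F (T t57 (L l513 (T t156 (L l415 (T t450 N))))))) N)))))))))))))))⟩
def e0_63__215_64 : Ent 4 := ⟨[a0, a63], [a215, a104], (M a48 (F (T t1 (T t2 (T t3 (T t0 (K a16 (M a60 (F (T t64 (L l14 (L l18 (L l350 (T t67 (L l349 (L l388 (T t65 N)))))))))) (K a32 (M a60 (F (T t64 (L l350 (T t67 (L l24 (L l28 (L l349 (L l388 (T t65 N)))))))))) (K a21 (M a192 (F (T t27 (L l47 (L l347 (T t20 (L l47 (L l245 (L l347 (T t29 N)))))))))) (K a37 (M a192 (F (T t27 (L l47 (T t20 (L l295 (T t21 N))))))) (K a53 (M a192 (F (T t27 (L l295 (L l491 (T t21 (L l98 (L l100 (L l239 (T t31 N)))))))))) (K a26 (M a192 (F (T t27 (T t20 (L l295 (T t21 N)))))) (K a42 (M a192 (F (T t27 (T t20 (L l28 (L l245 (T t29 N))))))) (K a58 (M a192 (F (T t27 (L l295 (T t21 (L l54 (L l98 (L l100 (L l239 (L l498 (T t31 N))))))))))) (K a15 (M a85 (F (T t567 (L l239 (L l245 (T t568 N)))))) N)))))))))))))))⟩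
def e0_63__215_65 : Ent 4 := ⟨[a0, a63], [a215, a105], (M a48 (F (T t1 (T t2 (T t3 (T t0 (K a16 (M a60 (F (T t42 (L l14 (L l18 (L l350 (T t67 (L l349 (L l392 (T t65 N)))))))))) (K a32 (M a60 (F (T t42 (L l350 (T t67 (L l24 (L l28 (L l349 (L l392 (T t65 N)))))))))) (K a21 (M a192 (F (T t837 (L l47 (L l347 (L l515 (T t20 (L l47 (L l245 (L l347 (L l515 (T t29 N)))))))))))) (K a37 (M a192 (F (T t19 (L l47 (L l515 (T t20 (L l295 (L l515 (T t21 N))))))))) (K a53 (M a192 (F (T t19 (L l295 (L l491 (L l515 (T t21 (L l98 (L l239 (T t31 N)))))))))) (K a26 (M a192 (F (T t837 (L l515 (T t20 (L l295 (L l515 (T t21 N)))))))) (K a42 (M a192 (F (T t19 (L l515 (T t20 (L l28 (L l245 (L l515 (T t29 N))))))))) (K a58 (M a192 (F (T t19 (L l295 (L l515 (T t21 (L l54 (L l98 (L l239 (L l498 (T t31 N))))))))))) (K a15 (M a192 (F (T t1922 (L l325 (L l515 (T t20 (L l295 (L l469 (L l515 (T t21 N)))))))))) N)))))))))))))))⟩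
def e0_63__215_66 : Ent 4 := ⟨[a0, a63], [a215, a106], (M a48 (F (T t1 (L l390 (L l498 (T t2 (L l411 (T t3 (L l390 (T t0 (K a16 (M a60 (F (T t64 (L l14 (L l18 (L l350 (L l393 (T t67 (L l349 (L l390 (L l498 (T t65 N)))))))))))) (K a32 (M a60 (F (T t64 (L l350 (L l393 (T t67 (L l24 (L l28 (L l349 (L l390 (L l498 (T t65 N)))))))))))) (K a21 (M a255 (F (T t511 (L l245 (L l390 (T t512 (L l18 (L l144 (L l347 (L l350 (L l498 (T t513 N)))))))))))) (K a37 (M a52 (F (T t82 (L l498 (T t83 (L l21 (L l28 (L l350 (L l390 (L l498 (T t84 N))))))))))) (K a53 (M a12 (F (T t443 (L l47 (T t122 (L l47 (T t146 N))))))) (K a26 (M a56 (F (L l350 (T t133 (L l501 (T t134 (L l12 (L l18 (T t135 N))))))))) (K a42 (M a170 (F (T t316 (L l144 (L l350 (T t514 (L l54 (L l104 (L l144 (L l498 (T t515 (L l54 (L l498 (T t516 N)))))))))))))) (K a58 (M a12 (L l498 (F (T t122 (T t443 (T t146 (K a202 (M a154 (F (T t122 (L l104 (L l295 (L l426 (T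 t517 N))))))) (K a154 (M a202 (F (T t122 (L l356 (L l368 (T t445 (L l356 (T t146 N)))))))) N)))))))) (K a15 (M a4 (F (T t518 (L l73 (L l390 (T t519 (L l390 (L l498 (T t520 N))))))))) N)))))))))))))))))))⟩
def e0_63__215_67 : Ent 4 := ⟨[a0, a63], [a215, a107], (M a60 (F (T t68 (L l350 (L l391 (T t67 (L l349 (T t43 (T t69 (K a20 (M a85 (F (T t90 (L l143 (T t114 (L l239 (T t1344 N))))))) (K a40 (M a48 (F (T t64 (T t1 (L l52 (T t235 N)))))) (K a21 (M a255 (F (T t1565 (L l347 (L l350 (T t4709 (L l143 (L l347 (L l350 (T t4710 N)))))))))) (K a41 (M a192 (F (T t77 (L l65 (L l295 (T t35 (L l98 (L l295 (T t1516 N))))))))) (K a61 (M a192 (F (T t77 (L l65 (L l295 (L l515 (T t35 (L l98 (T t4711 N))))))))) (K a22 (M a192 (F (T t77 (L l143 (L l295 (T t21 (L l66 (L l98 (L l295 (T t1516 N)))))))))) (K a42 (M a255 (F (T t1565 (L l350 (T t4709 (L l66 (L l143 (L l350 (T t4710 N))))))))) (K a62 (M a192 (F (T t77 (L l295 (T t35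 (L l350 (T t4712 N))))))) (K a3 (M a106 (F (T t2792 (T t1513 N)))) N))))))))))))))))))⟩
def e0_63__215_68 : Ent 4 := ⟨[a0, a63], [a215, a108], (M a149 (F (T t175 (L l239 (T t5 (L l239 (L l295 (T t176 (L l295 (T t177 (K a192 (M a53 (F (T t178 (L l236 (T t179 (L l236 (L l239 (L l296 (T t180 N))))))))) (K a21 (M a48 (F (T t16 (T t13 (L l18 (T t14 N)))))) (K a85 (M a20 (F (L l349 (T t238 (L l100 (L l144 (L l239 (T t1269 (L l87 (T t1270 N)))))))))) (K a213 (Fr a106 a192 l519 (Fr a42 a21 l68 (Fr a170 a234 l390 (Fr a255 a85 l476 (V t582))))) (K a42 (M a48 (F (T t187 (L l390 (T t13 (L l54 (T t14 N))))))) (K a106 (M a48 (F (T t1 (L l498 (T t14 (L l239 (L l390 (L l498 (T t6 (L l239 (L l245 (L l390 (T t26 N))))))))))))) (K a170 (M a48 (F (T t11 (L l462 (T t1 (L l390 (T t13 N))))))) (K a191 (M a204 (F (T t1043 (L l99 (L l239 (T t1112 N)))))) (K a255 (M a195 (F (T t6159 (L l475 (T t1114 (L l239 (L l296 (L l434 (T t1272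 (L l105 (L l349 (T t1273 N)))))))))))) N)))))))))))))))))))⟩
def e0_63__215_69 : Ent 4 := ⟨[a0, a63], [a215, a109], (M a48 (F (T t1 (T t2 (T t3 (T t0 (K a16 (M a60 (F (T t42 (L l14 (L l18 (L l350 (T t67 (L l349 (T t65 N))))))))) (K a32 (M a60 (F (T t42 (L l350 (T t67 (L l24 (L l28 (L l349 (T t65 N))))))))) (K a21 (M a192 (F (T t837 (L l47 (L l347 (L l506 (T t20 (L l47 (L l245 (L l347 (T t29 N))))))))))) (K a37 (M a192 (F (T t19 (L l47 (L l506 (T t20 (L l295 (T t21 N)))))))) (K a53 (M a192 (F (T t19 (L l295 (L l491 (T t21 (L l239 (T t31 N)))))))) (K a26 (M a192 (F (T t837 (L l506 (T t20 (L l295 (T t21 N))))))) (K a42 (M a192 (F (T t19 (L l506 (T t20 (L l28 (L l245 (T t29 N)))))))) (K a58 (M a192 (F (T t19 (L l295 (T t21 (L l54 (L l239 (L l498 (T t31 N))))))))) (K a15 (M a85 (F (T t567 (L l239 (L l245 (T t568 N)))))) N)))))))))))))))⟩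
def e0_63__215_70 : Ent 4 := ⟨[a0, a63], [a215, a110], (M a48 (F (T t1 (T t2 (L l399 (T t3 (T t0 (K a16 (M a60 (F (T t64 (L l14 (L l18 (L l350 (T t67 (L l349 (T t65 N))))))))) (K a32 (M a60 (F (T t64 (L l350 (T t67 (L l24 (L l28 (L l349 (T t65 N))))))))) (K a21 (M a192 (F (T t837 (L l47 (L l347 (T t20 (L l47 (L l245 (L l347 (T t29 N)))))))))) (K a37 (M a192 (F (T t19 (L l47 (T t20 (L l138 (L l295 (T t21 N)))))))) (K a53 (M a192 (F (T t19 (L l138 (L l295 (L l491 (T t21 (L l102 (L l239 (T t31 N)))))))))) (K a26 (M a192 (F (T t837 (T t20 (L l138 (L l295 (T t21 N))))))) (K a42 (M a192 (F (T t19 (T t20 (L l28 (L l245 (T t29 N))))))) (K a58 (M a192 (F (T t19 (L l138 (L l295 (T t21 (L l54 (L l102 (L l239 (L l498 (T t31 N))))))))))) (K a15 (M a192 (F (T t57 (L l483 (T t27 (L l325 (T t20 N))))))) N))))))))))))))))⟩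
def e0_63__215_71 : Ent 4 := ⟨[a0, a63], [a215, a111], (M a48 (F (T t1 (T t2 (L l397 (T t3 (T t0 (K a16 (M a60 (F (T t64 (L l14 (L l18 (L l350 (T t67 (L l349 (T t65 N))))))))) (K a32 (M a60 (F (T t64 (L l350 (T t67 (L l24 (L l28 (L l349 (T t65 N))))))))) (K a21 (M a192 (F (L l104 (T t206 (T t27 (L l47 (L l245 (L l347 (T t29 N))))))))) (K a37 (M a192 (F (T t19 (L l104 (T t206 (L l137 (L l295 (T t21 N)))))))) (K a53 (M a192 (F (T t19 (L l137 (L l295 (L l491 (T t21 (L l104 (L l239 (L l245 (T t521 N))))))))))) (K a26 (M a192 (F (T t27 (L l54 (L l104 (T t206 (L l137 (L l295 (T t21 N))))))))) (K a42 (M a192 (F (T t19 (L l54 (L l104 (L l390 (T t206 (L l28 (L l245 (T t29 N)))))))))) (K a58 (M a192 (F (T t19 (L l137 (L l295 (T t21 (L l54 (L l104 (L l239 (L l245 (L l498 (T t521 N)))))))))))) (K a15 (M a106 (F (T t2289 (T t306 N)))) N))))))))))))))))⟩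
def e0_63__215_72 : Ent 4 := ⟨[a0, a63], [a215, a124], (M a149 (F (T t175 (L l140 (L l239 (T t5 (L l239 (L l295 (T t176 (L l140 (L l295 (T t177 (K a192 (M a53 (F (T t178 (L l236 (T t179 (L l236 (L l239 (L l296 (T t180 N))))))))) (K a21 (M a48 (F (T t4 (L l110 (T t13 (L l18 (T t14 N))))))) (K a85 (M a20 (F (L l349 (T t238 (L l140 (L l144 (L l239 (L l430 (T t1269 (L l87 (L l145 (T t1270 N)))))))))))) (K a213 (Fr a106 a192 l519 (Fr a42 a21 l68 (Fr a170 a234 l390 (Fr a255 a85 l476 (V t582))))) (K a42 (M a48 (F (T t187 (L l110 (L l390 (T t13 (L l54 (T t14 N)))))))) (K a106 (M a48 (F (T t1 (L l498 (T t14 (L l239 (L l390 (L l498 (T t6 (L l239 (L l245 (L l390 (T t26 N))))))))))))) (K a170 (M a48 (F (T t4 (L l462 (T t1 (L l110 (L l390 (T t13 N)))))))) (K a191 (M a16 (F (T t97 (T t190 (L l213 (L l239 (L l245 (T t191 N)))))))) (K a255 (M a195 (F (T t6159 (L l475 (T t1114 (L l109 (L l239 (L l296 (L l434 (T t1272 (L l145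 (L l349 (T t1273 N))))))))))))) N)))))))))))))))))))))⟩
def e0_63__215_73 : Ent 4 := ⟨[a0, a63], [a215, a125], (M a48 (F (T t1 (T t2 (T t3 (T t0 (K a16 (M a60 (F (T t42 (L l14 (L l18 (L l350 (T t67 (L l349 (T t65 N))))))))) (K a32 (M a60 (F (T t42 (L l350 (T t67 (L l24 (L l28 (L l349 (T t65 N))))))))) (K a21 (M a192 (F (T t837 (L l47 (L l347 (T t20 (L l47 (L l245 (L l347 (T t29 N)))))))))) (K a37 (M a192 (F (T t19 (L l47 (T t20 (L l109 (L l295 (L l434 (T t21 N))))))))) (K a53 (M a192 (F (T t19 (L l109 (L l295 (L l434 (L l491 (T t21 (L l239 (T t31 N)))))))))) (K a26 (M a192 (F (T t837 (T t20 (L l109 (L l295 (L l434 (T t21 N)))))))) (K a42 (M a192 (F (T t19 (T t20 (L l28 (L l245 (T t29 N))))))) (K a58 (M a192 (F (T t19 (L l109 (L l295 (L l434 (T t21 (L l54 (L l239 (L l498 (T t31 N))))))))))) (K a15 (M a192 (F (T t57 (L l483 (T t27 (L l325 (T t20 N))))))) N)))))))))))))))⟩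
def e0_63__215_74 : Ent 4 := ⟨[a0, a63], [a215, a126], (M a48 (F (T t1 (T t2 (T t3 (T t0 (K a16 (M a60 (F (T t64 (L l14 (L l18 (L l350 (T t67 (L l349 (T t65 N))))))))) (K a32 (M a60 (F (T t64 (L l350 (T t67 (L l24 (L l28 (L l349 (T t65 N))))))))) (K a21 (M a192 (F (T t837 (L l47 (L l347 (T t20 (L l47 (L l245 (L l347 (T t29 N)))))))))) (K a37 (M a192 (F (T t19 (L l47 (T t20 (L l109 (L l295 (T t21 N)))))))) (K a53 (M a192 (F (T t19 (L l109 (L l295 (L l491 (T t21 (L l142 (L l239 (T t31 N)))))))))) (K a26 (M a192 (F (T t837 (T t20 (L l109 (L l295 (T t21 N))))))) (K a42 (M a192 (F (T t19 (T t20 (L l28 (L l245 (T t29 N))))))) (K a58 (M a192 (F (T t19 (L l109 (L l295 (T t21 (L l54 (L l142 (L l239 (L l498 (T t31 N))))))))))) (K a15 (M a192 (F (T t57 (L l483 (T t27 (L l325 (T t20 N))))))) N)))))))))))))))⟩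
def e0_63__215_75 : Ent 4 := ⟨[a0, a63], [a215, a127], (M a48 (F (T t1 (T t2 (T t3 (T t0 (K a16 (M a60 (F (T t64 (L l14 (L l18 (L l350 (T t67 (L l349 (T t65 N))))))))) (K a32 (M a60 (F (T t64 (L l350 (T t67 (L l24 (L l28 (L l349 (T t65 N))))))))) (K a21 (M a192 (F (T t28 (L l47 (L l347 (T t20 (L l18 (L l144 (T t224 N))))))))) (K a37 (M a192 (F (T t19 (L l47 (T t20 (L l28 (L l144 (L l239 (L l295 (T t37 N)))))))))) (K a53 (M a192 (F (T t19 (L l144 (L l239 (L l295 (T t37 (L l47 (L l137 (L l491 (T t525 N))))))))))) (K a26 (M a192 (F (T t28 (T t20 (L l54 (L l144 (L l239 (L l295 (T t37 N))))))))) (K a42 (M a192 (F (T t19 (T t20 (L l54 (L l144 (L l390 (T t224 N)))))))) (K a58 (M a192 (F (T t19 (L l54 (L l144 (L l239 (L l295 (L l498 (T t37 (L l137 (T t525 N))))))))))) (K a15 (M a192 (F (T t56 (L l114 (L l483 (T t27 (L l144 (L l239 (L l295 (L l469 (T t37 N))))))))))) N)))))))))))))))⟩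
def e0_63__215_76 : Ent 4 := ⟨[a0, a63], [a215, a128], (M a48 (F (T t1 (T t2 (T t3 (T t0 (K a16 (M a60 (F (T t64 (L l14 (L l18 (L l350 (T t67 (L l349 (T t65 N))))))))) (K a32 (M a60 (F (T t64 (L l350 (T t67 (L l24 (L l28 (L l349 (T t65 N))))))))) (K a21 (M a154 (F (T t526 (L l245 (L l295 (T t327 (L l47 (L l245 (T t527 N))))))))) (K a37 (M a52 (F (T t82 (T t83 (L l21 (L l28 (L l350 (T t84 N)))))))) (K a53 (M a12 (F (T t151 (T t443 (L l47 (T t146 N)))))) (K a26 (M a56 (F (T t134 (L l350 (T t133 (L l12 (L l18 (T t135 N)))))))) (K a42 (M a154 (F (T t493 (L l28 (L l245 (L l295 (T t327 (L l28 (L l245 (T t527 N)))))))))) (K a58 (M a12 (F (T t443 (T t122 (T t146 N))))) (K a15 (M a4 (F (T t129 (L l63 (T t528 (T t520 N)))))) N)))))))))))))))⟩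
def e0_63__215_77 : Ent 4 := ⟨[a0, a63], [a215, a129], (M a48 (F (T t1 (T t2 (T t3 (T t0 (K a16 (M a60 (F (T t64 (L l14 (L l18 (L l309 (L l350 (T t67 (L l349 (T t65 N)))))))))) (K a32 (M a60 (F (T t64 (L l309 (L l350 (T t67 (L l24 (L l28 (L l349 (T t65 N)))))))))) (K a21 (M a192 (F (T t837 (L l47 (L l217 (L l347 (T t20 (L l47 (L l217 (L l245 (L l347 (T t29 N)))))))))))) (K a37 (M a192 (F (T t19 (L l47 (L l217 (T t20 (L l152 (L l217 (L l295 (T t21 N)))))))))) (K a53 (M a192 (F (T t19 (L l152 (L l217 (L l295 (L l491 (T t21 (L l239 (T t31 N)))))))))) (K a26 (M a192 (F (T t837 (L l217 (T t20 (L l152 (L l217 (L l295 (T t21 N))))))))) (K a42 (M a192 (F (T t19 (L l217 (T t20 (L l28 (L l217 (L l245 (T t29 N))))))))) (K a58 (M a192 (F (T t19 (L l152 (L l217 (L l295 (T t21 (L l54 (L l239 (L l498 (T t31 N))))))))))) (K a15 (M a192 (F (T t1800 (L l152 (L l483 (T t27 (L l217 (L l325 (T t20 N))))))))) N)))))))))))))))⟩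
def e0_63__215_78 : Ent 4 := ⟨[a0, a63], [a215, a130], (M a48 (F (T t1 (T t2 (T t3 (T t0 (K a16 (M a60 (F (T t64 (L l14 (L l18 (L l350 (T t67 (L l349 (T t65 N))))))))) (K a32 (M a60 (F (T t64 (L l350 (T t67 (L l24 (L l28 (L l349 (T t65 N))))))))) (K a21 (M a192 (F (T t837 (L l47 (L l347 (T t20 (L l47 (L l245 (L l347 (T t29 N)))))))))) (K a37 (M a192 (F (T t19 (L l47 (T t20 (L l152 (L l295 (T t21 N)))))))) (K a53 (M a192 (F (T t19 (L l152 (L l295 (L l491 (T t21 (L l239 (T t31 N))))))))) (K a26 (M a192 (F (T t837 (T t20 (L l152 (L l295 (T t21 N))))))) (K a42 (M a192 (F (T t19 (T t20 (L l28 (L l245 (T t29 N))))))) (K a58 (M a192 (F (T t19 (L l152 (L l295 (T t21 (L l54 (L l239 (L l498 (T t31 N)))))))))) (K a15 (M a192 (F (T t53 (L l152 (L l483 (T t27 (L l152 (L l295 (L l469 (T t21 N)))))))))) N)))))))))))))))⟩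
def e0_63__215_79 : Ent 4 := ⟨[a0, a63], [a215, a131], (M a48 (F (T t1 (T t2 (T t3 (T t0 (K a16 (M a60 (F (T t64 (L l14 (L l18 (L l307 (L l350 (T t67 (L l349 (T t65 N)))))))))) (K a32 (M a60 (F (T t64 (L l307 (L l350 (T t67 (L l24 (L l28 (L l349 (T t65 N)))))))))) (K a21 (M a192 (F (T t28 (L l47 (L l347 (T t20 (L l47 (L l245 (L l347 (T t29 N)))))))))) (K a37 (M a192 (F (T t19 (L l47 (T t20 (L l152 (L l295 (T t21 N)))))))) (K a53 (M a192 (F (T t19 (L l152 (L l295 (L l491 (T t21 (L l239 (T t31 N))))))))) (K a26 (M a192 (F (T t28 (T t20 (L l152 (L l295 (T t21 N))))))) (K a42 (M a192 (F (T t19 (T t20 (L l28 (L l245 (T t29 N))))))) (K a58 (M a192 (F (T t19 (L l152 (L l295 (T t21 (L l54 (L l239 (L l498 (T t31 N)))))))))) (K a15 (M a192 (F (T t54 (L l152 (L l483 (T t27 (L l152 (L l295 (L l469 (T t21 N)))))))))) N)))))))))))))))⟩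
def e0_63__215_80 : Ent 4 := ⟨[a0, a63], [a215, a132], (M a149 (F (L l239 (T t25 (L l156 (L l334 (T t175 (L l239 (L l295 (T t176 (L l295 (T t177 (K a192 (M a12 (F (T t1252 (L l156 (L l272 (L l310 (T t649 (L l239 (L l272 (L l296 (T t960 (L l239 (L l272 (L l277 (L l296 (T t1253 N)))))))))))))))) (K a21 (M a48 (F (T t16 (L l156 (T t13 (L l18 (L l156 (T t14 N)))))))) (K a85 (M a20 (F (L l349 (T t238 (L l144 (L l239 (T t1269 (L l87 (L l198 (T t1270 N)))))))))) (K a213 (Fr a106 a192 l519 (Fr a42 a21 l68 (Fr a170 a234 l390 (Fr a255 a85 l476 (V t582))))) (K a42 (M a48 (F (L l54 (T t16 (L l156 (L l390 (T t13 (L l54 (L l156 (T t14 N)))))))))) (K a106 (M a48 (F (T t1 (L l156 (L l498 (T t14 (L l239 (L l390 (L l498 (T t6 (L l239 (L l245 (L l390 (T t26 N)))))))))))))) (K a170 (M a48 (F (T t184 (L l462 (T t1 (L l156 (L l390 (T t13 N)))))))) (K a191 (M a240 (F (T t962 (L l153 (L l239 (T t963 N)))))) (K a255 (M a195 (F (T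 t6173 (L l475 (T t1114 (L l239 (L l296 (L l434 (T t1272 (L l198 (L l349 (T t1273 N)))))))))))) N)))))))))))))))))))))⟩
def e0_63__215_81 : Ent 4 := ⟨[a0, a63], [a215, a133], (M a149 (F (L l239 (T t25 (L l160 (L l339 (T t175 (L l239 (L l295 (T t176 (L l295 (T t177 (K a192 (M a15 (F (T t1254 (L l160 (L l268 (L l311 (T t1026 (L l239 (L l268 (L l296 (T t1031 (L l239 (L l268 (L l296 (T t1255 N))))))))))))))) (K a21 (M a48 (F (T t7 (L l18 (L l160 (L l311 (T t14 (L l160 (T t13 N))))))))) (K a85 (M a20 (F (L l349 (T t238 (L l144 (L l239 (T t1269 (L l87 (T t1270 N))))))))) (K a213 (Fr a106 a192 l519 (Fr a42 a21 l68 (Fr a170 a234 l390 (Fr a255 a85 l476 (V t582))))) (K a42 (M a48 (F (L l339 (T t187 (L l160 (L l390 (T t13 (L l54 (L l160 (L l311 (T t14 N))))))))))) (K a106 (M a60 (F (T t68 (L l98 (L l144 (L l239 (L l295 (L l349 (L l390 (T t6174 (L l160 (L l295 (L l335 (L l350 (L l516 (T t462 N)))))))))))))))) (K a170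 (M a48 (F (T t607 (L l339 (T t11 (L l160 (L l390 (T t13 N)))))))) (K a191 (M a16 (F (T t504 (T t190 (L l213 (L l239 (L l245 (T t191 N)))))))) (K a255 (M a195 (F (T t2098 (L l335 (L l475 (T t1114 (L l239 (L l296 (L l434 (T t1272 (L l349 (T t1273 N)))))))))))) N)))))))))))))))))))))⟩
def e0_63__215_82 : Ent 4 := ⟨[a0, a63], [a215, a134], (M a149 (F (T t175 (L l239 (T t5 (L l239 (L l295 (T t176 (L l295 (T t177 (K a192 (M a53 (F (T t178 (L l236 (T t179 (L l236 (L l239 (L l296 (L l314 (T t180 N)))))))))) (K a21 (M a48 (F (T t4 (T t13 (L l18 (T t14 N)))))) (K a85 (M a20 (F (L l349 (T t238 (L l144 (L l239 (T t1269 (L l87 (T t1270 N))))))))) (K a213 (Fr a106 a192 l519 (Fr a42 a21 l68 (Fr a170 a234 l390 (Fr a255 a85 l476 (V t582))))) (K a42 (M a48 (F (T t187 (L l390 (T t13 (L l54 (T t14 N))))))) (K a106 (M a48 (F (T t1 (L l498 (T t14 (L l239 (L l390 (L l498 (T t6 (L l239 (L l245 (L l390 (T t26 N))))))))))))) (K a170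 (M a48 (F (T t4 (L l462 (T t1 (L l390 (T t13 N))))))) (K a191 (M a240 (F (T t962 (L l153 (L l239 (T t963 N)))))) (K a255 (M a195 (F (T t2098 (L l475 (T t1114 (L l158 (L l239 (L l296 (L l434 (T t1272 (L l349 (T t1273 N)))))))))))) N)))))))))))))))))))⟩
def e0_63__215_83 : Ent 4 := ⟨[a0, a63], [a215, a135], (M a149 (F (T t175 (L l239 (T t5 (L l239 (L l295 (T t176 (L l295 (T t177 (K a192 (M a53 (F (T t178 (L l236 (T t179 (L l236 (L l239 (L l296 (T t180 N))))))))) (K a21 (M a48 (F (T t4 (T t13 (L l18 (T t14 N)))))) (K a85 (M a20 (F (L l349 (T t238 (L l144 (L l239 (T t1269 (L l87 (T t1270 N))))))))) (K a213 (Fr a106 a192 l519 (Fr a42 a21 l68 (Fr a170 a234 l390 (Fr a255 a85 l476 (V t582))))) (K a42 (M a48 (F (T t187 (L l390 (T t13 (L l54 (T t14 N))))))) (K a106 (M a48 (F (T t48 (L l498 (T t14 (L l239 (L l390 (L l498 (T t6 (L l239 (L l245 (L l390 (T t26 N))))))))))))) (K a170 (M a48 (F (T t4 (L l337 (L l462 (T t1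 (L l390 (T t13 N)))))))) (K a191 (M a240 (F (T t962 (L l153 (L l239 (T t963 N)))))) (K a255 (M a195 (F (T t2098 (L l475 (T t1114 (L l239 (L l296 (L l434 (T t1272 (L l349 (T t1273 N))))))))))) N)))))))))))))))))))⟩
def e0_63__215_84 : Ent 4 := ⟨[a0, a63], [a215, a136], (M a48 (F (T t1 (T t2 (T t3 (T t0 (K a16 (M a60 (F (T t64 (L l14 (L l18 (L l350 (T t67 (L l349 (T t65 N))))))))) (K a32 (M a60 (F (T t64 (L l350 (T t67 (L l24 (L l28 (L l349 (T t65 N))))))))) (K a21 (M a192 (F (T t837 (L l47 (L l347 (T t20 (L l47 (L l245 (L l347 (T t29 N)))))))))) (K a37 (M a192 (F (T t19 (L l47 (T t20 (L l156 (L l295 (T t21 N)))))))) (K a53 (M a192 (F (T t19 (L l156 (L l295 (L l491 (T t21 (L l239 (T t31 N))))))))) (K a26 (M a192 (F (T t837 (T t20 (L l156 (L l295 (T t21 N))))))) (K a42 (M a192 (F (T t19 (T t20 (L l28 (L l245 (T t29 N))))))) (K a58 (M a192 (F (T t19 (L l156 (L l295 (T t21 (L l54 (L l239 (L l498 (T t31 N))))))))))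 (K a15 (M a192 (F (T t53 (L l156 (L l483 (T t27 (L l156 (L l295 (L l469 (T t21 N)))))))))) N)))))))))))))))⟩
def e0_63__215_85 : Ent 4 := ⟨[a0, a63], [a215, a137], (M a149 (F (T t175 (L l239 (T t5 (L l239 (L l295 (T t176 (L l295 (T t177 (K a192 (M a53 (F (T t178 (L l236 (T t179 (L l236 (L l239 (L l296 (L l329 (T t180 N)))))))))) (K a21 (M a48 (F (T t4 (T t13 (L l18 (T t14 N)))))) (K a85 (M a20 (F (L l349 (T t1268 (L l144 (L l239 (T t1269 (L l87 (T t1270 N))))))))) (K a213 (Fr a106 a192 l519 (Fr a42 a21 l68 (Fr a170 a234 l390 (Fr a255 a85 l476 (V t582))))) (K a42 (M a48 (F (T t187 (L l390 (T t13 (L l54 (T t14 N))))))) (K a106 (M a48 (F (T t1 (L l498 (T t14 (L l239 (L l390 (L l498 (T t6 (L l239 (L l245 (L l390 (T t26 N))))))))))))) (K a170 (M a48 (F (T t4 (L l462 (T t1 (L l390 (T t13 N))))))) (K a191 (M a240 (F (T t962 (L l157 (L l239 (T t963 N)))))) (K a255 (M a195 (F (T t2098 (L l333 (L l475 (T t1114 (L l239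 (L l296 (L l434 (T t1272 (L l349 (T t1273 N)))))))))))) N)))))))))))))))))))⟩
def e0_63__215_86 : Ent 4 := ⟨[a0, a63], [a215, a138], (M a48 (F (T t2 (L l318 (T t1 (T t3 (T t0 (K a16 (M a60 (F (T t64 (L l14 (L l18 (L l350 (T t67 (L l349 (T t65 N))))))))) (K a32 (M a60 (F (T t64 (L l350 (T t67 (L l24 (L l28 (L l349 (T t65 N))))))))) (K a21 (M a192 (F (T t837 (L l47 (L l318 (L l347 (T t20 (L l47 (L l245 (L l318 (L l347 (T t29 N)))))))))))) (K a37 (M a192 (F (T t19 (L l47 (L l318 (T t20 (L l160 (L l295 (T t21 N))))))))) (K a53 (M a192 (F (T t19 (L l160 (L l295 (L l491 (T t21 (L l239 (T t31 N))))))))) (K a26 (M a192 (F (T t837 (L l318 (T t20 (L l160 (L l295 (T t21 N)))))))) (K a42 (M a192 (F (T t19 (L l318 (T t20 (L l28 (L l245 (L l318 (T t29 N))))))))) (K a58 (M a192 (F (T t19 (L l160 (L l295 (T t21 (L l54 (L l239 (L l498 (T t31 N)))))))))) (K a15 (M a192 (F (T t33 (L l160 (L l483 (T t27 (L l160 (L l295 (L l469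 (T t21 N)))))))))) N))))))))))))))))⟩
def e0_63__215_87 : Ent 4 := ⟨[a0, a63], [a215, a139], (M a149 (F (T t175 (L l239 (T t5 (L l239 (L l295 (T t176 (L l295 (T t177 (K a192 (M a53 (F (T t178 (L l236 (T t179 (L l236 (L l239 (L l296 (T t180 N))))))))) (K a21 (M a48 (F (T t4 (T t13 (L l18 (T t14 N)))))) (K a85 (M a20 (F (L l349 (T t1268 (L l144 (L l239 (T t1269 (L l87 (T t1270 N))))))))) (K a213 (Fr a106 a192 l519 (Fr a42 a21 l68 (Fr a170 a234 l390 (Fr a255 a85 l476 (V t582))))) (K a42 (M a48 (F (T t187 (L l390 (T t13 (L l54 (T t14 N))))))) (K a106 (M a48 (F (T t1 (L l498 (T t14 (L l239 (L l390 (L l498 (T t6 (L l239 (L l245 (L l390 (T t26 N))))))))))))) (K a170 (M a48 (F (T t4 (L l462 (T t1 (L l390 (T t13 N))))))) (K a191 (M a60 (F (T t463 (L l239 (T t1256 N))))) (K a255 (M a195 (F (T t2098 (L l331 (L l475 (T t1114 (L l239 (L l296 (L l434 (T t1272 (L l349 (T t1273 N)))))))))))) N)))))))))))))))))))⟩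
def e0_63__215_88 : Ent 4 := ⟨[a0, a63], [a215, a140], (M a48 (F (T t1 (T t2 (T t3 (T t0 (K a16 (M a60 (F (T t64 (L l14 (L l18 (L l350 (T t67 (L l349 (T t65 N))))))))) (K a32 (M a60 (F (T t64 (L l350 (T t67 (L l24 (L l28 (L l349 (T t65 N))))))))) (K a21 (M a192 (F (T t28 (L l47 (L l347 (T t20 (L l47 (L l245 (L l347 (T t29 N)))))))))) (K a37 (M a192 (F (T t19 (L l47 (T t20 (L l156 (L l295 (T t21 N)))))))) (K a53 (M a192 (F (T t19 (L l156 (L l295 (L l491 (T t21 (L l239 (T t31 N))))))))) (K a26 (M a192 (F (T t28 (T t20 (L l156 (L l295 (T t21 N))))))) (K a42 (M a192 (F (T t19 (T t20 (L l28 (L l245 (T t29 N))))))) (K a58 (M a192 (F (T t19 (L l156 (L l295 (T t21 (L l54 (L l239 (L l498 (T t31 N)))))))))) (K a15 (M a192 (F (T t54 (L l156 (L l483 (T t27 (L l156 (L l295 (L l469 (T t21 N)))))))))) N)))))))))))))))⟩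
def e0_63__215_89 : Ent 4 := ⟨[a0, a63], [a215, a141], (M a149 (F (T t175 (L l239 (T t5 (L l239 (L l295 (T t176 (L l295 (T t177 (K a192 (M a53 (F (T t178 (L l236 (T t179 (L l236 (L l239 (L l296 (T t180 N))))))))) (K a21 (M a48 (F (T t4 (T t13 (L l18 (T t14 N)))))) (K a85 (M a20 (F (L l349 (T t238 (L l144 (L l239 (T t1269 (L l87 (T t1270 N))))))))) (K a213 (Fr a106 a192 l519 (Fr a42 a21 l68 (Fr a170 a234 l390 (Fr a255 a85 l476 (V t582))))) (K a42 (M a48 (F (T t187 (L l390 (T t13 (L l54 (T t14 N))))))) (K a106 (M a48 (F (T t48 (L l498 (T t14 (L l239 (L l390 (L l498 (T t6 (L l239 (L l245 (L l390 (T t26 N))))))))))))) (K a170 (M a48 (F (T t4 (L l327 (L l462 (T t1 (L l390 (T t13 N)))))))) (K a191 (M a240 (F (T t962 (L l157 (L l239 (T t963 N)))))) (K a255 (M a195 (F (T t2098 (L l475 (T t1114 (L l239 (L l296 (L l434 (T t1272 (L l349 (T t1273 N))))))))))) N)))))))))))))))))))⟩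
def e0_63__215_90 : Ent 4 := ⟨[a0, a63], [a215, a142], (M a48 (F (T t1 (T t2 (T t3 (T t0 (K a16 (M a60 (F (T t64 (L l14 (L l18 (L l350 (T t67 (L l349 (T t65 N))))))))) (K a32 (M a60 (F (T t64 (L l350 (T t67 (L l24 (L l28 (L l349 (T t65 N))))))))) (K a21 (M a192 (F (T t837 (L l47 (L l326 (L l347 (T t20 (L l47 (L l245 (L l347 (T t29 N))))))))))) (K a37 (M a192 (F (T t19 (L l47 (L l326 (T t20 (L l295 (T t21 N)))))))) (K a53 (M a192 (F (T t19 (L l295 (L l491 (T t21 (L l239 (T t31 N)))))))) (K a26 (M a192 (F (T t837 (L l326 (T t20 (L l295 (T t21 N))))))) (K a42 (M a192 (F (T t19 (L l326 (T t20 (L l28 (L l245 (T t29 N)))))))) (K a58 (M a192 (F (T t19 (L l295 (T t21 (L l54 (L l239 (L l498 (T t31 N))))))))) (K a15 (M a85 (F (T t567 (L l239 (L l245 (T t568 N)))))) N)))))))))))))))⟩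
def e0_63__215_91 : Ent 4 := ⟨[a0, a63], [a215, a143], (M a12 (F (T t122 (T t151 (T t152 (T t153 (K a4 (M a60 (F (T t69 (L l325 (T t398 (L l349 (T t448 N))))))) (K a8 (M a60 (F (T t68 (L l325 (T t398 (L l52 (L l56 (L l349 (T t448 N))))))))) (K a21 (M a192 (F (T t468 (L l15 (L l347 (T t450 (L l15 (L l277 (L l347 (T t157 N)))))))))) (K a25 (M a192 (F (T t449 (L l15 (T t450 (L l160 (L l295 (T t21 N)))))))) (K a29 (M a192 (F (T t449 (L l160 (L l295 (L l371 (T t21 (L l239 (T t160 N))))))))) (K a38 (M a192 (F (T t468 (T t450 (L l160 (L l295 (T t21 N))))))) (K a42 (M a192 (F (T t449 (T t450 (L l56 (L l277 (T t157 N))))))) (K a46 (M a192 (F (T t449 (L l160 (L l295 (T t21 (L l26 (L l239 (L l408 (T t160 N)))))))))) (K a51 (M a192 (F (T t158 (L l160 (L l513 (T t156 (L l160 (L l295 (L l439 (T t21 N)))))))))) N)))))))))))))))⟩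
def e0_63__215_92 : Ent 4 := ⟨[a0, a63], [a215, a148], (M a48 (F (T t1 (T t2 (T t3 (T t0 (K a16 (M a60 (F (T t64 (L l14 (L l18 (L l346 (L l350 (T t67 (L l349 (T t65 N)))))))))) (K a32 (M a60 (F (T t64 (L l346 (L l350 (T t67 (L l24 (L l28 (L l349 (T t65 N)))))))))) (K a21 (M a192 (F (T t837 (L l47 (L l163 (L l347 (T t20 (L l47 (L l163 (L l245 (L l347 (T t29 N)))))))))))) (K a37 (M a192 (F (T t837 (L l47 (L l163 (T t20 (L l163 (L l216 (L l295 (T t21 N)))))))))) (K a53 (M a192 (F (T t837 (L l163 (L l216 (L l295 (L l491 (T t21 (L l239 (T t31 N)))))))))) (K a26 (M a192 (F (T t837 (L l163 (T t20 (L l163 (L l216 (L l295 (T t21 N))))))))) (K a42 (M a192 (F (T t837 (L l163 (T t20 (L l28 (L l163 (L l245 (T t29 N))))))))) (K a58 (M a192 (F (T t837 (L l163 (L l216 (L l295 (T t21 (L l54 (L l239 (L l498 (T t31 N))))))))))) (K a15 (M a192 (F (T t1800 (L l166 (L l216 (L l483 (T t27 (L l163 (L l325 (T t20 N)))))))))) N)))))))))))))))⟩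
def e0_63__215_93 : Ent 4 := ⟨[a0, a63], [a215, a149], (M a48 (F (T t2 (L l347 (L l491 (T t1 (L l347 (T t3 (L l375 (T t0 (K a16 (M a60 (F (T t70 (L l14 (L l18 (L l347 (L l350 (T t67 (L l349 (L l351 (T t65 N))))))))))) (K a32 (M a60 (F (T t70 (L l347 (L l350 (T t67 (L l24 (L l28 (L l349 (L l351 (T t65 N))))))))))) (K a21 (M a85 (F (L l245 (T t1699 (L l220 (T t50 (L l47 (L l170 (L l220 (L l245 (L l491 (T t544 (L l47 (L l245 (L l491 (T t545 N)))))))))))))))) (K a37 (M a52 (F (T t82 (L l495 (T t83 (L l21 (L l28 (L l350 (T t84 N))))))))) (K a53 (M a12 (L l491 (F (T t151 (T t443 (L l47 (L l347 (L l371 (T t146 (K a197 (M a101 (F (T t151 (L l236 (T t334 N))))) (K a101 (M a197 (F (T t151 (T t445 (L l47 (L l347 (L l371 (T t146 N)))))))) N))))))))))) (K a26 (M a56 (F (L l350 (T t133 (L l491 (T t134 (L l12 (L l18 (L l347 (L l491 (T t135 N))))))))))) (K a42 (M a255 (F (T t546 (L l347 (L l350 (T t547 (L l28 (L l220 (L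 l245 (L l390 (L l491 (T t548 N)))))))))))) (K a58 (M a12 (F (T t443 (L l347 (L l371 (T t122 (L l347 (L l371 (T t146 N))))))))) (K a15 (M a4 (F (T t129 (L l63 (T t528 (T t520 N)))))) N)))))))))))))))))))⟩
def e0_63__215_94 : Ent 4 := ⟨[a0, a63], [a215, a150], (M a48 (L l350 (F (T t1 (T t2 (T t3 (T t0 (K a16 (M a85 (F (L l218 (T t90 (L l239 (T t51 (L l218 (T t50 N)))))))) (K a32 (M a85 (F (L l295 (T t52 (L l218 (L l404 (T t50 (L l28 (L l239 (T t51 N)))))))))) (K a21 (M a85 (F (L l245 (T t1699 (L l218 (T t50 (L l47 (L l245 (T t100 N))))))))) (K a37 (M a85 (F (L l218 (T t873 (L l47 (L l295 (T t52 (L l28 (L l47 (L l245 (T t100 N))))))))))) (K a53 (M a85 (F (L l239 (T t88 (L l245 (L l295 (T t99 (L l239 (L l245 (T t568 N)))))))))) (K a26 (M a85 (F (L l218 (T t873 (L l54 (L l239 (T t88 (L l245 (T t100 N))))))))) (K a42 (M a85 (F (L l295 (T t364 (L l218 (L l390 (T t50 (L l28 (L l245 (T t100 N)))))))))) (K a58 (M a85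 (F (L l295 (T t52 (L l245 (L l494 (T t509 (L l54 (L l239 (L l245 (T t568 N))))))))))) (K a15 (M a85 (F (L l245 (T t100 (L l218 (L l483 (T t50 (L l239 (L l295 (L l469 (T t168 N))))))))))) (K a20 (M a85 (F (T t2 (L l239 (T t88 (L l245 (L l494 (T t509 N)))))))) (K a85 (M a20 (F (T t0 (L l374 (L l458 (T t183 (L l349 (T t238 N)))))))) N))))))))))))))))))⟩
def e0_63__215_95 : Ent 4 := ⟨[a0, a63], [a215, a151], (M a149 (L l349 (F (T t175 (L l239 (T t5 (L l219 (L l239 (L l295 (T t176 (L l219 (L l295 (T t177 (K a192 (M a23 (F (T t1079 (L l239 (L l292 (T t182 (L l239 (L l292 (T t6201 (L l239 (L l296 (T t6202 (K a43 (Fr a86 a212 l351 (Fr a21 a42 l68 (Fr a22 a20 l11 (Fr a85 a213 l347 (Fr a214 a150 l348 (V t6255)))))) N))))))))))))) (K a21 (M a48 (L l349 (F (T t4 (T t13 (L l18 (T t14 (K a23 (M a87 (L l11 (F (T t4 (T t13 (L l18 (T t14 (K a20 (M a22 (L l350 (F (T t15 (T t13 (L l14 (L l18 (T t14 (K a85 (M a150 (F (L l144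 (T t13 (L l277 (L l493 (T t6191 N))))))) (K a150 (M a85 (F (T t3183 (L l168 (L l169 (L l346 (T t6164 N))))))) N)))))))))) (K a22 (M a20 (F (T t4 (L l19 (L l50 (T t183 N)))))) N))))))))) (K a87 (M a23 (F (T t181 (L l65 (L l239 (T t182 N)))))) N))))))))) (K a85 (M a23 (L l350 (F (T t1079 (L l239 (T t1940 (L l87 (T t3706 (K a20 (M a150 (F (T t6204 (L l144 (L l239 (L l346 (T t3709 (L l239 (L l346 (L l473 (T t6205 (L l239 (L l346 (T t6206 N)))))))))))))) (K a150 (M a20 (F (T t6207 (L l221 (L l239 (L l473 (T t3708 N))))))) N)))))))))) (K a213 (Fr a106 a192 l519 (Fr a42 a21 l68 (Fr a170 a234 l390 (Fr a255 a85 l476 (V t582))))) (K a42 (M a48 (L l349 (F (T t187 (L l390 (T t13 (L l54 (T t14 (K a23 (M a87 (F (T t187 (L l390 (T t13 (L l54 (T t14 N))))))) (K a87 (M a23 (F (T t187 (L l22 (L l239 (T t182 N)))))) N)))))))))) (K a106 (M a48 (L l349 (F (T t1 (L l498 (T t14 (L l239 (L l390 (L l498 (T t6 (L l239 (L l245 (L l390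 (T t26 (K a23 (M a87 (F (L l11 (T t1 (L l498 (T t14 (L l239 (L l390 (L l498 (T t6 (L l239 (L l245 (L l390 (T t26 N)))))))))))))) (K a87 (M a23 (F (T t1 (L l239 (L l393 (T t3705 N)))))) N)))))))))))))))) (K a170 (M a23 (F (L l239 (T t1940 (L l350 (L l390 (T t1941 (L l174 (L l390 (L l474 (T t3706 (L l239 (L l474 (T t3707 N)))))))))))))) (K a191 (M a23 (L l219 (F (T t1079 (L l185 (L l239 (T t3708 (T t3706 (K a131 (M a171 (F (T t1079 (L l239 (T t3709 (T t3706 N)))))) (K a171 (M a131 (F (L l391 (T t1079 (L l185 (L l239 (T t6208 (L l174 (T t3706 N))))))))) N)))))))))) (K a255 (M a23 (L l295 (F (T t6209 (L l350 (L l434 (T t1941 (T t3706 (K a195 (M a235 (F (T t6209 (L l350 (L l434 (L l518 (T t1941 (T t3706 N)))))))) (K a235 (M a195 (F (L l391 (T t6209 (L l239 (L l296 (L l434 (T t2643 (L l350 (L l391 (L l434 (T t1941 N)))))))))))) N)))))))))) (K a23 (M a87 (F (L l239 (T t5 (L l219 (L l295 (T t6210 (L l219 (L l239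 (T t6211 (L l239 (T t6212 (L l239 (T t6213 (K a85 (M a60 (L l350 (F (L l11 (T t68 (L l144 (T t463 (L l11 (L l141 (T t6214 (K a20 (M a150 (L l11 (F (T t6215 (T t6216 (L l141 (L l144 (L l473 (T t6217 (K a21 (M a22 (F (T t6218 (L l239 (L l295 (T t6219 N)))))) (K a22 (Fr a21 a42 l68 (V t6216)) N))))))))))) (K a150 (Fr a20 a40 l64 (V t6220)) N)))))))))))) (K a106 (M a48 (F (L l11 (T t1 (L l498 (T t14 (L l239 (L l390 (L l498 (T t6 (L l239 (L l245 (L l390 (T t26 N)))))))))))))) N)))))))))))))))) (K a87 (M a23 (F (T t175 (T t1079 (L l239 (T t3708 N)))))) N))))))))))))))))))))))))⟩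
def e0_63__215_96 : Ent 4 := ⟨[a0, a63], [a215, a152], (M a149 (F (T t175 (L l239 (T t5 (L l239 (L l295 (T t176 (L l295 (T t177 (K a192 (M a53 (F (T t178 (L l236 (L l364 (T t179 (L l236 (L l239 (L l296 (T t180 N)))))))))) (K a21 (M a48 (F (T t4 (L l166 (T t13 (L l18 (L l364 (T t14 N)))))))) (K a85 (M a20 (F (L l349 (T t238 (L l144 (L l239 (L l496 (T t1269 (L l87 (L l166 (L l204 (T t1270 N)))))))))))) (K a213 (Fr a106 a192 l519 (Fr a42 a21 l68 (Fr a170 a234 l390 (Fr a255 a85 l476 (V t582))))) (K a42 (M a48 (F (T t187 (L l166 (L l390 (T t13 (L l54 (L l364 (T t14 N))))))))) (K a106 (M a48 (F (T t1 (L l364 (L l498 (T t14 (L l239 (L l390 (L l498 (T t6 (L l166 (L l239 (L l245 (L l390 (T t26 N))))))))))))))) (K a170 (M a48 (F (T t4 (L l462 (T t1 (L l166 (L l390 (T t13 N)))))))) (K a191 (M a16 (F (T t97 (T t190 (L l213 (L l239 (L l245 (T t191 N)))))))) (K a255 (M a195 (F (T t6173 (L l475 (T t1114 (L l239 (L l296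 (L l434 (T t1272 (L l166 (L l349 (T t1273 N)))))))))))) N)))))))))))))))))))⟩
def e0_63__215_97 : Ent 4 := ⟨[a0, a63], [a215, a153], (M a48 (F (T t1 (T t2 (T t3 (T t0 (K a16 (M a60 (F (T t69 (L l513 (T t64 (L l349 (T t65 N))))))) (K a32 (M a60 (F (T t68 (L l513 (T t64 (L l24 (L l28 (L l349 (T t65 N))))))))) (K a21 (M a192 (F (T t837 (L l47 (L l167 (L l347 (T t20 (L l47 (L l167 (L l245 (L l347 (T t29 N)))))))))))) (K a37 (M a192 (F (T t19 (L l47 (L l167 (T t20 (L l167 (L l295 (T t21 N))))))))) (K a53 (M a192 (F (T t19 (L l167 (L l295 (L l491 (T t21 (L l239 (L l501 (T t31 N)))))))))) (K a26 (M a192 (F (T t837 (L l167 (T t20 (L l167 (L l295 (T t21 N)))))))) (K a42 (M a192 (F (T t19 (L l167 (T t20 (L l28 (L l167 (L l245 (T t29 N))))))))) (K a58 (M a192 (F (T t19 (L l167 (L l295 (T t21 (L l54 (L l239 (L l498 (L l501 (T t31 N))))))))))) (K a15 (M a192 (F (T t1922 (L l167 (L l325 (T t20 (L l167 (L l295 (L l469 (T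 t21 N)))))))))) N)))))))))))))))⟩
def e0_63__215_98 : Ent 4 := ⟨[a0, a63], [a215, a154], (M a12 (F (T t122 (T t151 (T t152 (T t153 (K a4 (M a60 (F (T t398 (L l46 (L l50 (L l350 (T t67 (L l349 (T t448 N))))))))) (K a8 (M a60 (F (T t398 (L l350 (T t67 (L l52 (L l56 (L l349 (T t448 N))))))))) (K a21 (M a192 (F (T t836 (L l15 (L l170 (L l347 (T t450 (L l15 (L l170 (L l277 (L l347 (T t157 N)))))))))))) (K a25 (M a192 (F (T t449 (L l15 (L l170 (T t450 (L l170 (L l295 (T t21 N))))))))) (K a29 (M a192 (F (T t449 (L l170 (L l295 (L l371 (T t21 (L l239 (L l498 (T t160 N)))))))))) (K a38 (M a192 (F (T t836 (L l170 (T t450 (L l170 (L l295 (T t21 N)))))))) (K a42 (M a192 (F (T t449 (L l170 (T t450 (L l56 (L l170 (L l277 (T t157 N))))))))) (K a46 (M a192 (F (T t449 (L l170 (L l295 (T t21 (L l26 (L l239 (L l408 (L l498 (T t160 N))))))))))) (K a51 (M a192 (F (T t1725 (L l170 (L l415 (T t450 (L l170 (L l295 (L l439 (T t21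 N)))))))))) N)))))))))))))))⟩
def e0_63__215_99 : Ent 4 := ⟨[a0, a63], [a215, a155], (M a149 (F (T t175 (L l239 (T t5 (L l239 (L l295 (T t176 (L l295 (T t177 (K a192 (M a53 (F (T t178 (L l236 (T t179 (L l236 (L l239 (L l296 (T t180 N))))))))) (K a21 (M a48 (F (T t4 (T t13 (L l18 (T t14 N)))))) (K a85 (M a20 (F (L l349 (T t238 (L l144 (L l239 (T t1269 (L l87 (T t1270 N))))))))) (K a213 (Fr a106 a192 l519 (Fr a42 a21 l68 (Fr a170 a234 l390 (Fr a255 a85 l476 (V t582))))) (K a42 (M a48 (F (T t187 (L l390 (T t13 (L l54 (T t14 N))))))) (K a106 (M a48 (F (T t1 (L l498 (T t14 (L l239 (L l390 (L l498 (T t6 (L l239 (L l245 (L l367 (L l390 (T t26 N)))))))))))))) (K a170 (M a48 (F (T t4 (L l462 (T t1 (L l390 (T t13 N))))))) (K a191 (M a16 (F (T t97 (T t190 (L l169 (L l213 (L l239 (L l245 (L l367 (T t191 N)))))))))) (K a255 (M a195 (F (L l499 (T t2098 (L l475 (T t1114 (L l239 (L l296 (L l434 (L l499 (T t1272 (L l349 (L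 l499 (T t1273 N)))))))))))))) N)))))))))))))))))))⟩
def e0_63__215_100 : Ent 4 := ⟨[a0, a63], [a215, a156], (M a149 (F (T t175 (L l239 (T t5 (L l239 (L l295 (T t176 (L l295 (T t177 (K a192 (M a53 (F (T t178 (L l236 (T t179 (L l236 (L l239 (L l296 (T t180 N))))))))) (K a21 (M a48 (F (T t4 (L l166 (T t13 (L l18 (T t14 N))))))) (K a85 (M a20 (F (L l349 (T t238 (L l144 (L l239 (T t1269 (L l87 (L l166 (T t1270 N)))))))))) (K a213 (Fr a106 a192 l519 (Fr a42 a21 l68 (Fr a170 a234 l390 (Fr a255 a85 l476 (V t582))))) (K a42 (M a48 (F (T t187 (L l166 (L l390 (T t13 (L l54 (T t14 N)))))))) (K a106 (M a48 (F (T t1 (L l498 (T t14 (L l239 (L l390 (L l498 (T t6 (L l166 (L l239 (L l245 (L l390 (T t26 N)))))))))))))) (K a170 (M a48 (F (T t4 (L l462 (T t1 (L l166 (L l390 (T t13 N)))))))) (K a191 (M a16 (F (T t97 (T t190 (L l165 (L l213 (L l239 (L l245 (T t191 N))))))))) (K a255 (M a195 (F (T t6173 (L l475 (T t1114 (L l239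 (L l296 (L l434 (T t1272 (L l166 (L l349 (T t1273 N)))))))))))) N)))))))))))))))))))⟩
def e0_63__215_101 : Ent 4 := ⟨[a0, a63], [a215, a157], (M a48 (F (T t1 (T t2 (T t3 (L l363 (T t0 (K a16 (M a60 (F (T t42 (L l14 (L l18 (L l350 (T t67 (L l349 (T t65 N))))))))) (K a32 (M a60 (F (T t42 (L l350 (T t67 (L l24 (L l28 (L l349 (T t65 N))))))))) (K a21 (M a192 (F (T t837 (L l47 (L l167 (L l347 (T t20 (L l47 (L l167 (L l245 (L l347 (T t29 N)))))))))))) (K a37 (M a192 (F (T t19 (L l47 (L l167 (T t20 (L l167 (L l295 (T t21 N))))))))) (K a53 (M a192 (F (T t19 (L l167 (L l295 (L l491 (T t21 (L l165 (L l239 (T t31 N)))))))))) (K a26 (M a192 (F (T t27 (L l167 (T t20 (L l167 (L l295 (T t21 N)))))))) (K a42 (M a192 (F (T t19 (L l167 (T t20 (L l28 (L l167 (L l245 (T t29 N))))))))) (K a58 (M a192 (F (T t19 (L l167 (L l295 (T t21 (L l54 (L l165 (L l239 (L l498 (T t31 N))))))))))) (K a15 (M a85 (F (T t567 (L l239 (L l245 (T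 t568 N)))))) N))))))))))))))))⟩
def e0_63__215_102 : Ent 4 := ⟨[a0, a63], [a215, a158], (M a149 (F (T t175 (L l239 (T t5 (L l239 (L l295 (T t176 (L l295 (T t177 (K a192 (M a53 (F (T t178 (L l236 (T t179 (L l236 (L l239 (L l296 (T t180 N))))))))) (K a21 (M a48 (F (T t4 (T t13 (L l18 (T t14 N)))))) (K a85 (M a20 (F (L l349 (T t238 (L l144 (L l239 (T t1269 (L l87 (T t1270 N))))))))) (K a213 (Fr a106 a192 l519 (Fr a42 a21 l68 (Fr a170 a234 l390 (Fr a255 a85 l476 (V t582))))) (K a42 (M a48 (F (T t187 (L l390 (T t13 (L l54 (T t14 N))))))) (K a106 (M a48 (F (T t1 (L l498 (T t14 (L l239 (L l390 (L l498 (T t6 (L l239 (L l245 (L l362 (L l390 (T t26 N)))))))))))))) (K a170 (M a48 (F (T t4 (L l462 (T t1 (L l390 (T t13 N))))))) (K a191 (M a60 (F (T t463 (L l239 (L l504 (T t1256 N)))))) (K a255 (M a195 (F (T t2098 (L l475 (T t1114 (L l239 (L l296 (L l434 (T t1272 (L l349 (L l504 (T t1273 N)))))))))))) N)))))))))))))))))))⟩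
def e0_63__215_103 : Ent 4 := ⟨[a0, a63], [a215, a159], (M a48 (F (T t1 (T t2 (T t3 (L l361 (T t0 (K a16 (M a60 (F (T t64 (L l14 (L l18 (L l350 (T t67 (L l349 (T t65 N))))))))) (K a32 (M a60 (F (T t64 (L l350 (T t67 (L l24 (L l28 (L l349 (T t65 N))))))))) (K a21 (M a192 (F (T t837 (L l47 (L l170 (L l347 (T t20 (L l18 (T t224 N))))))))) (K a37 (M a192 (F (T t837 (L l47 (L l170 (T t20 (L l213 (L l295 (T t202 N))))))))) (K a53 (M a192 (F (T t837 (L l213 (L l295 (T t202 (L l47 (L l170 (L l491 (T t838 N)))))))))) (K a26 (M a192 (F (T t837 (L l170 (T t20 (L l213 (L l295 (T t202 N)))))))) (K a42 (M a192 (F (T t837 (L l170 (T t20 (L l54 (L l390 (T t224 N)))))))) (K a58 (M a192 (F (T t837 (L l213 (L l295 (L l498 (T t202 (L l170 (T t838 N))))))))) (K a15 (M a149 (F (T t1274 (L l239 (T t6 N))))) N))))))))))))))))⟩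
def e0_63__215_104 : Ent 4 := ⟨[a0, a63], [a215, a168], (M a85 (F (L l239 (T t88 (L l295 (T t52 (L l239 (T t89 (L l174 (T t90 (K a64 (M a240 (F (L l174 (T t386 (L l176 (L l239 (T t387 N))))))) (K a192 (M a16 (F (L l400 (T t504 (L l245 (L l295 (L l296 (T t666 (L l239 (L l245 (L l296 (T t98 N)))))))))))) (K a21 (M a48 (F (L l174 (T t873 (L l47 (L l245 (L l400 (T t100 (L l174 (T t50 N)))))))))) (K a149 (M a16 (F (L l400 (T t112 (L l245 (L l295 (T t666 (L l170 (T t102 N))))))))) (K a213 (Fr a170 a255 l476 (Fr a42 a21 l68 (Fr a106 a234 l390 (Fr a192 a149 l519 (V t581))))) (K a42 (M a48 (F (L l295 (T t364 (L l174 (L l390 (T t50 (L l28 (L l245 (L l400 (T t100 N))))))))))) (K a106 (M a48 (F (T t1 (L l104 (L l245 (L l400 (T t509 (L l174 (L l390 (T t50 N)))))))))) (K a170 (M a169 (F (L l239 (L l474 (T t2028 (L l239 (L l390 (T t2024 (L l349 (L l388 (L l474 (T t2025 (L l239 (L l390 (L l474 (T t2026 (L l390 (L l474 (T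 t2027 N))))))))))))))))))) (K a255 (M a17 (L l295 (F (T t3084 (L l290 (T t2281 (L l239 (L l290 (L l296 (T t2205 (K a195 (M a235 (F (T t3084 (L l290 (T t2281 (L l239 (L l290 (L l296 (T t2205 N))))))))) (K a235 (M a195 (F (T t3087 (L l349 (L l388 (L l434 (T t901 N))))))) N)))))))))))) N)))))))))))))))))))⟩
def e0_63__215_105 : Ent 4 := ⟨[a0, a63], [a215, a169], (M a48 (F (T t1 (T t2 (T t3 (T t0 (K a16 (M a60 (F (T t64 (L l14 (L l18 (L l350 (L l393 (L l477 (T t67 (L l349 (T t65 N))))))))))) (K a32 (M a60 (F (T t64 (L l350 (L l393 (L l477 (T t67 (L l24 (L l28 (L l349 (T t65 N))))))))))) (K a21 (M a192 (F (T t837 (L l47 (L l217 (L l347 (T t20 (L l47 (L l217 (L l245 (L l347 (T t29 N)))))))))))) (K a37 (M a192 (F (T t19 (L l47 (L l217 (T t20 (L l217 (L l295 (T t21 N))))))))) (K a53 (M a192 (F (T t19 (L l217 (L l295 (L l491 (T t21 (L l239 (L l393 (T t31 N)))))))))) (K a26 (M a192 (F (T t837 (L l217 (T t20 (L l217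 (L l295 (T t21 N)))))))) (K a42 (M a192 (F (T t19 (L l217 (T t20 (L l28 (L l217 (L l245 (T t29 N))))))))) (K a58 (M a192 (F (T t19 (L l217 (L l295 (T t21 (L l54 (L l239 (L l393 (L l498 (T t31 N))))))))))) (K a15 (M a192 (F (T t1922 (L l217 (L l325 (T t20 (L l217 (L l295 (L l469 (T t21 N)))))))))) N)))))))))))))))⟩
def e0_63__215_106 : Ent 4 := ⟨[a0, a63], [a215, a170], (M a48 (F (T t3 (L l462 (T t1 (L l390 (T t2 (L l390 (L l404 (T t0 (K a16 (M a60 (F (T t64 (L l14 (L l18 (L l350 (T t67 (L l349 (L l390 (L l392 (T t65 N))))))))))) (K a32 (M a62 (L l404 (F (T t825 (L l474 (T t709 (L l20 (L l402 (T t826 (K a101 (M a239 (F (L l491 (T t825 (L l474 (T t709 (L l20 (L l402 (L l491 (T t826 N)))))))))) (K a239 (M a101 (F (L l206 (T t315 (L l474 (T t709 N)))))) N))))))))))) (K a21 (M a192 (F (T t837 (L l390 (T t206 (L l47 (L l220 (L l245 (L l347 (L l404 (T t29 N))))))))))) (K a37 (M a192 (F (T t19 (L l390 (T t206 (L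 l28 (L l47 (L l220 (L l245 (L l404 (T t29 N))))))))))) (K a53 (M a12 (F (T t550 (L l47 (L l402 (T t122 (L l47 (L l402 (T t146 N))))))))) (K a26 (M a192 (F (T t837 (L l54 (L l390 (T t206 (L l220 (L l245 (L l404 (T t29 N)))))))))) (K a42 (M a106 (F (T t309 (L l220 (T t551 (L l28 (L l206 (L l220 (L l245 (L l404 (T t552 (L l28 (L l206 (L l245 (L l404 (T t553 N)))))))))))))))) (K a58 (M a12 (F (T t445 (L l402 (T t122 (L l402 (T t146 N))))))) (K a15 (M a192 (F (L l483 (T t19 (L l325 (L l390 (T t206 (L l220 (L l245 (L l404 (T t29 N))))))))))) N)))))))))))))))))))⟩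
def e0_63__215_107 : Ent 4 := ⟨[a0, a63], [a215, a171], (M a48 (F (T t1 (T t2 (T t3 (T t0 (K a16 (M a60 (F (T t64 (L l14 (L l18 (L l350 (L l391 (L l475 (T t67 (L l349 (T t65 N))))))))))) (K a32 (M a60 (F (T t64 (L l350 (L l391 (L l475 (T t67 (L l24 (L l28 (L l349 (T t65 N))))))))))) (K a21 (M a192 (F (T t837 (L l47 (L l347 (T t20 (L l47 (L l245 (L l347 (T t29 N)))))))))) (K a37 (M a192 (F (T t19 (L l47 (T t20 (L l295 (L l475 (T t21 N)))))))) (K a53 (M a192 (F (T t19 (L l295 (L l475 (L l491 (T t21 (L l239 (T t31 N))))))))) (K a26 (M a192 (F (T t837 (T t20 (L l295 (L l475 (T t21 N))))))) (K a42 (M a192 (F (T t19 (T t20 (L l28 (L l245 (T t29 N))))))) (K a58 (M a192 (F (T t19 (L l295 (L l475 (T t21 (L l54 (L l239 (L l498 (T t31 N)))))))))) (K a15 (M a192 (F (T t57 (L l483 (T t27 (L l325 (T t20 N))))))) N)))))))))))))))⟩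
def e0_63__215_108 : Ent 4 := ⟨[a0, a63], [a215, a172], (M a149 (F (T t175 (L l239 (T t5 (L l239 (L l295 (T t176 (L l295 (T t177 (K a192 (M a53 (F (T t178 (L l236 (T t179 (L l236 (L l239 (L l296 (T t180 N))))))))) (K a21 (M a48 (F (T t4 (T t13 (L l18 (T t14 N)))))) (K a85 (M a20 (F (L l349 (T t238 (L l144 (L l239 (L l466 (T t1269 (L l87 (L l176 (T t1270 N))))))))))) (K a213 (Fr a106 a192 l519 (Fr a42 a21 l68 (Fr a170 a234 l390 (Fr a255 a85 l476 (V t582))))) (K a42 (M a48 (F (T t187 (L l390 (T t13 (L l54 (T t14 N))))))) (K a106 (M a48 (F (T t1 (L l498 (T t14 (L l239 (L l390 (L l498 (T t6 (L l239 (L l245 (L l390 (T t26 N))))))))))))) (K a170 (M a48 (F (T t4 (L l462 (T t1 (L l390 (T t13 N))))))) (K a191 (M a16 (F (T t97 (T t190 (L l213 (L l239 (L l245 (T t191 N)))))))) (K a255 (M a195 (F (T t2098 (L l475 (T t1114 (L l239 (L l296 (L l434 (T t1272 (L l349 (T t1273 N))))))))))) N)))))))))))))))))))⟩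
def e0_63__215_109 : Ent 4 := ⟨[a0, a63], [a215, a173], (M a149 (F (T t175 (L l239 (T t5 (L l239 (L l295 (T t176 (L l295 (T t177 (K a192 (M a53 (F (T t178 (L l236 (T t179 (L l236 (L l239 (L l296 (T t180 N))))))))) (K a21 (M a48 (F (T t4 (T t13 (L l18 (T t14 N)))))) (K a85 (M a20 (F (L l349 (T t238 (L l144 (L l239 (L l471 (T t1269 (L l87 (T t1270 N)))))))))) (K a213 (Fr a106 a192 l519 (Fr a42 a21 l68 (Fr a170 a234 l390 (Fr a255 a85 l476 (V t582))))) (K a42 (M a48 (F (T t187 (L l390 (T t13 (L l54 (T t14 N))))))) (K a106 (M a48 (F (T t48 (L l498 (T t14 (L l239 (L l390 (L l498 (T t6 (L l239 (L l245 (L l390 (T t26 N))))))))))))) (K a170 (M a48 (F (T t4 (L l462 (L l471 (T t1 (L l390 (T t13 N)))))))) (K a191 (M a16 (F (T t112 (T t190 (L l213 (L l239 (L l245 (T t191 N)))))))) (K a255 (M a195 (F (T t2098 (L l475 (T t1114 (L l239 (L l296 (L l434 (T t1272 (L l349 (T t1273 N))))))))))) N)))))))))))))))))))⟩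
def e0_63__215_110 : Ent 4 := ⟨[a0, a63], [a215, a174], (M a48 (F (T t1 (T t2 (T t3 (T t0 (K a16 (M a60 (F (T t64 (L l14 (L l18 (L l350 (T t67 (L l349 (T t65 N))))))))) (K a32 (M a60 (F (T t64 (L l350 (T t67 (L l24 (L l28 (L l349 (T t65 N))))))))) (K a21 (M a192 (F (T t837 (L l47 (L l347 (T t20 (L l47 (L l245 (L l347 (T t29 N)))))))))) (K a37 (M a192 (F (T t19 (L l47 (T t20 (L l295 (L l470 (T t21 N)))))))) (K a53 (M a192 (F (T t19 (L l295 (L l470 (L l491 (T t21 (L l239 (T t31 N))))))))) (K a26 (M a192 (F (T t837 (T t20 (L l295 (L l470 (T t21 N))))))) (K a42 (M a192 (F (T t19 (T t20 (L l28 (L l245 (T t29 N))))))) (K a58 (M a192 (F (T t19 (L l295 (L l470 (T t21 (L l54 (L l239 (L l498 (T t31 N)))))))))) (K a15 (M a192 (F (T t57 (L l483 (T t27 (L l325 (T t20 N))))))) N)))))))))))))))⟩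
def e0_63__215_111 : Ent 4 := ⟨[a0, a63], [a215, a175], (M a12 (F (T t122 (T t151 (T t152 (T t153 (K a4 (M a60 (F (T t69 (L l469 (T t398 (L l349 (T t448 N))))))) (K a8 (M a60 (F (T t68 (L l469 (T t398 (L l52 (L l56 (L l349 (T t448 N))))))))) (K a21 (M a192 (F (T t836 (L l15 (L l347 (T t450 (L l15 (L l277 (L l347 (T t157 N)))))))))) (K a25 (M a192 (F (T t449 (L l15 (T t450 (L l295 (L l469 (T t21 N)))))))) (K a29 (M a192 (F (T t449 (L l295 (L l371 (L l469 (T t21 (L l239 (T t160 N))))))))) (K a38 (M a192 (F (T t836 (T t450 (L l295 (L l469 (T t21 N))))))) (K a42 (M a192 (F (T t449 (T t450 (L l56 (L l277 (T t157 N))))))) (K a46 (M a192 (F (T t449 (L l295 (L l469 (T t21 (L l26 (L l239 (L l408 (T t160 N)))))))))) (K a51 (M a192 (F (T t57 (L l513 (T t156 (L l415 (T t450 N))))))) N)))))))))))))))⟩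
def e0_63__215_112 : Ent 4 := ⟨[a0, a63], [a215, a188], (M a48 (F (T t1 (T t2 (T t3 (T t0 (K a16 (M a60 (F (T t64 (L l14 (L l18 (L l350 (T t67 (L l349 (T t65 N))))))))) (K a32 (M a60 (F (T t64 (L l350 (T t67 (L l24 (L l28 (L l349 (T t65 N))))))))) (K a21 (M a192 (F (T t28 (L l47 (L l347 (T t20 (L l47 (L l245 (L l347 (T t29 N)))))))))) (K a37 (M a192 (F (T t19 (L l47 (T t20 (L l216 (L l295 (T t21 N)))))))) (K a53 (M a192 (F (T t19 (L l216 (L l295 (L l491 (T t21 (L l239 (T t31 N))))))))) (K a26 (M a192 (F (T t28 (T t20 (L l216 (L l295 (T t21 N))))))) (K a42 (M a192 (F (T t19 (T t20 (L l28 (L l245 (T t29 N))))))) (K a58 (M a192 (F (T t19 (L l216 (L l295 (T t21 (L l54 (L l239 (L l498 (T t31 N)))))))))) (K a15 (M a192 (F (T t54 (L l216 (L l483 (T t27 (L l216 (L l295 (L l469 (T t21 N)))))))))) N)))))))))))))))⟩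
def e0_63__215_113 : Ent 4 := ⟨[a0, a63], [a215, a189], (M a48 (F (T t1 (T t2 (T t3 (T t0 (K a16 (M a60 (F (T t42 (L l14 (L l18 (L l350 (T t67 (L l349 (T t65 N))))))))) (K a32 (M a60 (F (T t42 (L l350 (T t67 (L l24 (L l28 (L l349 (T t65 N))))))))) (K a21 (M a192 (F (T t837 (L l47 (L l217 (L l347 (T t20 (L l47 (L l217 (L l245 (L l347 (T t29 N)))))))))))) (K a37 (M a192 (F (T t19 (L l47 (L l217 (T t20 (L l217 (L l295 (T t21 N))))))))) (K a53 (M a192 (F (T t19 (L l217 (L l295 (L l491 (T t21 (L l239 (T t31 N))))))))) (K a26 (M a192 (F (T t27 (L l217 (T t20 (L l217 (L l295 (T t21 N)))))))) (K a42 (M a192 (F (T t19 (L l217 (T t20 (L l28 (L l217 (L l245 (T t29 N))))))))) (K a58 (M a192 (F (T t19 (L l217 (L l295 (T t21 (L l54 (L l239 (L l498 (T t31 N)))))))))) (K a15 (M a85 (F (T t567 (L l239 (L l245 (T t568 N)))))) N)))))))))))))))⟩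
def e0_63__215_114 : Ent 4 := ⟨[a0, a63], [a215, a190], (M a48 (F (T t1 (T t2 (T t3 (T t0 (K a16 (M a60 (F (T t64 (L l14 (L l18 (L l350 (T t67 (L l349 (T t65 N))))))))) (K a32 (M a60 (F (T t64 (L l350 (T t67 (L l24 (L l28 (L l349 (T t65 N))))))))) (K a21 (M a192 (F (T t837 (L l47 (L l347 (T t20 (L l47 (L l245 (L l347 (T t29 N)))))))))) (K a37 (M a192 (F (T t19 (L l47 (T t20 (L l295 (L l434 (T t21 N)))))))) (K a53 (M a192 (F (T t19 (L l295 (L l434 (L l491 (T t21 (L l239 (T t31 N))))))))) (K a26 (M a192 (F (T t837 (T t20 (L l295 (L l434 (T t21 N))))))) (K a42 (M a192 (F (T t19 (T t20 (L l28 (L l245 (T t29 N))))))) (K a58 (M a192 (F (T t19 (L l295 (L l434 (T t21 (L l54 (L l239 (L l498 (T t31 N)))))))))) (K a15 (M a192 (F (T t57 (L l483 (T t27 (L l325 (T t20 N))))))) N)))))))))))))))⟩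
def e0_63__215_115 : Ent 4 := ⟨[a0, a63], [a215, a191], (M a48 (F (T t1 (T t2 (T t3 (T t0 (K a16 (M a60 (F (T t64 (L l14 (L l18 (L l350 (T t67 (L l349 (T t65 N))))))))) (K a32 (M a60 (F (T t64 (L l350 (T t67 (L l24 (L l28 (L l349 (T t65 N))))))))) (K a21 (M a192 (F (T t28 (T t206 (L l47 (L l220 (L l245 (L l347 (T t29 N))))))))) (K a37 (M a192 (F (T t19 (T t206 (L l47 (L l220 (L l295 (T t35 N)))))))) (K a53 (M a192 (F (T t19 (L l47 (L l220 (L l295 (L l491 (T t35 (L l213 (L l239 (T t31 N))))))))))) (K a26 (M a192 (F (T t28 (L l54 (T t206 (L l18 (L l220 (L l295 (T t35 N))))))))) (K a42 (M a192 (F (T t19 (L l54 (L l390 (T t206 (L l28 (L l220 (L l245 (T t29 N)))))))))) (K a58 (M a192 (F (T t19 (L l220 (L l295 (T t35 (L l54 (L l213 (L l239 (L l498 (T t31 N))))))))))) (K a15 (M a192 (F (T t53 (L l483 (T t19 (L l220 (L l295 (L l469 (T t35 N))))))))) N)))))))))))))))⟩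
def e0_63__215_116 : Ent 4 := ⟨[a0, a63], [a215, a192], (M a48 (F (T t48 (L l339 (T t1 (L l339 (T t2 (L l339 (T t3 (L l339 (T t0 (K a16 (M a60 (F (T t138 (L l14 (L l18 (L l309 (L l350 (T t67 (L l349 (T t65 N)))))))))) (K a32 (M a60 (F (T t236 (L l309 (L l350 (T t67 (L l24 (L l28 (L l349 (T t65 N)))))))))) (K a21 (M a255 (F (T t3576 (L l268 (T t1160 (L l47 (L l236 (L l245 (T t548 N))))))))) (K a37 (M a52 (F (T t555 (L l334 (T t82 (L l21 (L l28 (L l350 (T t84 N))))))))) (K a53 (M a12 (F (T t145 (L l47 (L l489 (T t122 (L l47 (T t146 N)))))))) (K a26 (M a56 (F (T t556 (L l334 (L l350 (T t133 (L l12 (L l18 (T t135 N))))))))) (K a42 (M a255 (F (T t557 (L l236 (L l350 (T t547 (L l28 (L l236 (L l245 (L l390 (T t548 N))))))))))) (K a58 (M a12 (F (T t145 (L l489 (T t122 (T t146 N)))))) (K a15 (M a4 (L l339 (F (T t129 (L l63 (L l514 (T t528 (T t520 (K a133 (M a74 (F (T t558 (L l73 (L l489 (T t519 (T t520 N))))))) (K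 a74 (M a133 (F (T t558 (L l73 (L l489 (T t519 (T t520 N))))))) N)))))))))) N))))))))))))))))))))⟩
def e0_63__215_117 : Ent 4 := ⟨[a0, a63], [a215, a193], (M a48 (F (T t1 (T t2 (T t3 (T t0 (K a16 (M a60 (F (T t42 (L l14 (L l18 (L l350 (T t67 (L l349 (T t65 N))))))))) (K a32 (M a60 (F (T t42 (L l350 (T t67 (L l24 (L l28 (L l349 (T t65 N))))))))) (K a21 (M a192 (F (T t837 (L l47 (L l347 (L l515 (T t20 (L l47 (L l245 (L l347 (L l515 (T t29 N)))))))))))) (K a37 (M a192 (F (T t19 (L l47 (L l515 (T t20 (L l295 (L l515 (T t21 N))))))))) (K a53 (M a192 (F (T t19 (L l295 (L l491 (L l515 (T t21 (L l239 (L l293 (T t31 N)))))))))) (K a26 (M a192 (F (T t27 (L l515 (T t20 (L l295 (L l515 (T t21 N)))))))) (K a42 (M a192 (F (T t19 (L l515 (T t20 (L l28 (L l245 (L l515 (T t29 N))))))))) (K a58 (M a192 (F (T t19 (L l295 (L l515 (T t21 (L l54 (L l239 (L l293 (L l498 (T t31 N))))))))))) (K a15 (M a192 (F (T t1800 (L l483 (T t27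 (L l325 (L l515 (T t20 N)))))))) N)))))))))))))))⟩
def e0_63__215_118 : Ent 4 := ⟨[a0, a63], [a215, a194], (M a48 (F (T t1 (T t2 (T t3 (T t0 (K a16 (M a60 (F (T t42 (L l14 (L l18 (L l350 (T t67 (L l349 (T t65 N))))))))) (K a32 (M a60 (F (T t42 (L l350 (T t67 (L l24 (L l28 (L l349 (T t65 N))))))))) (K a21 (M a192 (F (T t837 (L l47 (L l234 (L l347 (T t20 (L l47 (L l234 (L l245 (L l347 (T t29 N)))))))))))) (K a37 (M a192 (F (T t19 (L l47 (L l234 (T t20 (L l295 (T t21 N)))))))) (K a53 (M a192 (F (T t19 (L l295 (L l491 (T t21 (L l239 (L l516 (T t31 N))))))))) (K a26 (M a192 (F (T t837 (L l234 (T t20 (L l295 (T t21 N))))))) (K a42 (M a192 (F (T t19 (L l234 (T t20 (L l28 (L l234 (L l245 (T t29 N))))))))) (K a58 (M a192 (F (T t19 (L l295 (T t21 (L l54 (L l239 (L l498 (L l516 (T t31 N)))))))))) (K a15 (M a85 (F (T t567 (L l239 (L l245 (T t568 N)))))) N)))))))))))))))⟩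
def e0_63__215_119 : Ent 4 := ⟨[a0, a63], [a215, a195], (M a255 (F (T t5297 (L l228 (L l239 (T t2142 (L l228 (T t1165 (L l228 (L l350 (T t2138 (L l228 (L l350 (T t2139 (K a192 (M a16 (L l228 (F (T t112 (L l235 (L l236 (L l245 (T t3574 (T t3575 (K a193 (M a194 (F (T t112 (L l235 (L l236 (L l245 (T t3574 (T t3575 N)))))))) (K a194 (M a193 (F (T t112 (L l235 (L l236 (L l245 (T t3574 (T t3575 N)))))))) N))))))))))) (K a21 (M a48 (F (T t3576 (L l273 (T t1160 (L l47 (L l245 (T t548 N)))))))) (K a85 (M a60 (L l350 (F (T t1639 (L l307 (L l349 (T t43 (L l141 (L l144 (L l297 (L l307 (L l347 (T t5298 (L l307 (L l349 (L l473 (T t5299 (K a20 (M a150 (F (T t1639 (L l11 (L l228 (L l347 (T t5300 (L l141 (L l144 (L l349 (T t5301 N))))))))))) (K a150 (Fr a20 a40 l64 (V t5302)) N))))))))))))))))))) (K a149 (M a16 (F (T t112 (L l220 (L l235 (L l245 (T t3574 (L l170 (L l220 (T t3575 N)))))))))) (K a42 (M a48 (F (T t557 (L l235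 (L l350 (T t547 (L l28 (L l245 (L l390 (T t548 N)))))))))) (K a106 (M a32 (F (T t820 (L l144 (L l235 (L l350 (T t3583 (L l104 (L l144 (L l350 (T t3584 N))))))))))) (K a170 (M a48 (F (T t557 (L l337 (L l390 (T t2 (L l337 (L l462 (T t3585 (L l206 (L l220 (L l337 (L l390 (L l404 (T t3586 N))))))))))))))) (K a127 (M a16 (F (T t112 (L l235 (L l245 (T t3574 (L l137 (T t3575 N)))))))) (K a191 (M a16 (F (T t112 (L l220 (L l235 (L l245 (T t3574 (L l220 (T t3575 N))))))))) N)))))))))))))))))))))))⟩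
def e0_63__215_120 : Ent 4 := ⟨[a0, a63], [a215, a196], (M a48 (F (T t1 (T t2 (T t3 (T t0 (K a16 (M a60 (F (T t64 (L l14 (L l18 (L l350 (T t67 (L l349 (T t65 N))))))))) (K a32 (M a60 (F (T t64 (L l350 (T t67 (L l24 (L l28 (L l349 (T t65 N))))))))) (K a21 (M a192 (F (T t837 (L l47 (L l347 (L l495 (T t20 (L l47 (L l245 (L l347 (L l495 (T t29 N)))))))))))) (K a37 (M a192 (F (T t19 (L l47 (L l495 (T t20 (L l295 (L l495 (T t21 N))))))))) (K a53 (M a192 (F (T t19 (L l295 (L l491 (L l495 (T t21 (L l239 (L l278 (T t31 N)))))))))) (K a26 (M a192 (F (T t27 (L l495 (T t20 (L l295 (L l495 (T t21 N)))))))) (K a42 (M a192 (F (T t19 (L l495 (T t20 (L l28 (L l245 (L l495 (T t29 N))))))))) (K a58 (M a192 (F (T t19 (L l295 (L l495 (T t21 (L l54 (L l239 (L l278 (L l498 (T t31 N))))))))))) (K a15 (M a192 (F (T t1800 (L l483 (T t27 (L l325 (L l495 (T t20 N)))))))) N)))))))))))))))⟩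
def e0_63__215_121 : Ent 4 := ⟨[a0, a63], [a215, a197], (M a48 (F (T t3 (L l491 (T t1 (L l311 (T t2 (T t0 (K a16 (M a60 (F (T t70 (L l14 (L l18 (L l350 (T t67 (L l311 (L l349 (T t65 N)))))))))) (K a32 (M a60 (F (T t70 (L l350 (T t67 (L l24 (L l28 (L l311 (L l349 (T t65 N)))))))))) (K a21 (M a192 (F (T t27 (L l347 (L l491 (T t225 (L l245 (L l347 (L l491 (T t861 N)))))))))) (K a37 (M a192 (F (T t19 (L l491 (T t225 (L l295 (L l491 (T t21 N)))))))) (K a53 (M a149 (F (T t4854 (T t13 (L l239 (L l245 (L l275 (T t26 N)))))))) (K a26 (M a192 (F (T t837 (L l491 (T t225 (L l295 (L l491 (T t21 N)))))))) (K a42 (M a192 (F (T t27 (L l491 (T t225 (L l28 (L l245 (L l491 (T t861 N))))))))) (K a58 (M a192 (F (T t19 (L l295 (L l491 (T t21 (L l54 (L l239 (L l275 (L l498 (T t31 N))))))))))) (K a15 (M a85 (F (L l483 (T t50 (L l239 (L l245 (L l275 (T t568 N)))))))) N)))))))))))))))))⟩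
def e0_63__215_122 : Ent 4 := ⟨[a0, a63], [a215, a198], (M a149 (F (T t175 (L l239 (T t5 (L l239 (L l295 (T t176 (L l295 (T t177 (K a192 (M a53 (F (T t178 (L l229 (L l236 (T t179 (L l229 (L l236 (L l239 (L l296 (T t180 N))))))))))) (K a21 (M a48 (F (T t7 (L l18 (L l229 (T t14 (T t13 N))))))) (K a85 (M a20 (F (L l349 (T t238 (L l144 (L l239 (T t1269 (L l87 (T t1270 N))))))))) (K a213 (Fr a106 a192 l519 (Fr a42 a21 l68 (Fr a170 a234 l390 (Fr a255 a85 l476 (V t582))))) (K a42 (M a48 (F (L l234 (T t187 (L l390 (T t13 (L l54 (L l229 (T t14 N))))))))) (K a106 (M a48 (F (T t1 (L l229 (L l498 (T t14 (L l229 (L l239 (L l390 (L l498 (T t6 (L l239 (L l245 (L l390 (T t26 N))))))))))))))) (K a170 (M a48 (F (T t3 (L l234 (T t11 (L l390 (T t13 N))))))) (K a191 (M a16 (F (T t97 (T t190 (L l213 (L l239 (L l245 (T t191 N)))))))) (K a255 (M a195 (F (T t2098 (L l475 (T t1114 (L l239 (L l296 (L l434 (T t1272 (L l349 (T t1273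 N))))))))))) N)))))))))))))))))))⟩
def e0_63__215_123 : Ent 4 := ⟨[a0, a63], [a215, a199], (M a48 (L l277 (F (T t1 (T t2 (T t3 (T t0 (K a16 (M a149 (L l277 (F (T t4854 (L l340 (T t11 (L l229 (L l239 (T t6 (K a231 (M a247 (F (T t1267 (L l239 (L l314 (T t5648 N)))))) (K a247 (M a231 (F (T t4854 (L l229 (T t5649 N))))) N))))))))))) (K a32 (M a149 (L l277 (F (T t11 (L l28 (L l239 (T t5 (L l28 (L l229 (L l239 (T t6 (K a231 (M a247 (F (T t11 (L l28 (L l239 (L l314 (T t5648 N))))))) (K a247 (M a231 (F (T t175 (L l24 (L l229 (T t5649 N)))))) N))))))))))))) (K a21 (M a85 (L l277 (F (T t50 (L l245 (L l314 (L l494 (T t509 (L l47 (L l245 (T t100 (K a231 (M a247 (F (T t3589 (L l47 (L l245 (T t100 N)))))) (K a247 (M a231 (F (L l245 (T t935 (L l422 (T t50 (L l47 (L l245 (T t100 N))))))))) N))))))))))))) (K a37 (M a149 (L l277 (F (T t1267 (L l28 (L l239 (T t5 (L l229 (T t14 (K a231 (M a247 (F (T t1267 (L l28 (L l239 (L l314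 (T t5648 N))))))) (K a247 (M a231 (F (T t13 (L l21 (L l229 (T t5649 N)))))) N))))))))))) (K a53 (M a85 (L l277 (F (T t90 (L l245 (L l295 (T t99 (L l239 (L l245 (T t568 (K a231 (M a247 (F (T t90 (L l31 (L l386 (L l494 (T t5650 N))))))) (K a247 (M a231 (F (T t90 (L l265 (L l295 (T t365 (L l239 (L l245 (L l278 (T t568 N)))))))))) N)))))))))))) (K a26 (M a149 (L l277 (F (T t11 (L l18 (T t175 (L l18 (L l54 (L l229 (T t14 (K a231 (M a247 (F (T t13 (L l54 (L l239 (L l314 (T t5648 N))))))) (K a247 (M a231 (F (T t13 (L l54 (L l229 (T t5649 N)))))) N)))))))))))) (K a42 (M a85 (L l277 (F (L l295 (T t364 (L l390 (T t50 (L l28 (L l245 (T t100 (K a231 (M a247 (F (L l390 (T t50 (L l56 (L l386 (L l494 (T t5650 N)))))))) (K a247 (M a231 (F (L l265 (L l295 (T t365 (L l390 (L l422 (T t50 (L l28 (L l245 (T t100 N))))))))))) N)))))))))))) (K a58 (M a85 (L l277 (F (T t90 (L l245 (L l314 (L l494 (T t509 (L l54 (L l239 (L l245 (T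 t568 (K a231 (M a247 (F (T t90 (L l386 (L l494 (T t5650 N)))))) (K a247 (M a231 (F (T t90 (L l245 (L l265 (L l295 (L l494 (T t360 (L l54 (L l239 (L l245 (L l278 (T t568 N))))))))))))) N)))))))))))))) (K a15 (M a85 (L l277 (F (T t567 (L l239 (L l245 (T t568 (K a231 (M a247 (F (T t4539 (L l63 (L l386 (L l494 (T t5650 N))))))) (K a247 (M a231 (F (T t4539 (L l265 (L l295 (L l469 (T t365 (L l245 (T t100 N))))))))) N))))))))) (K a231 (M a247 (F (T t1 (T t2 (T t3 (T t0 (K a16 (M a4 (F (L l493 (T t519 (L l386 (T t5651 N)))))) (K a32 (M a4 (F (L l28 (T t129 (L l386 (L l404 (T t5651 N))))))) (K a21 (M a52 (F (T t1429 (T t5652 N)))) (K a37 (M a4 (F (L l28 (T t129 (L l386 (T t5651 N)))))) (K a53 (M a4 (F (T t518 (T t5653 N)))) (K a26 (M a4 (F (L l54 (T t129 (L l245 (L l295 (L l386 (T t5654 N)))))))) (K a42 (M a52 (F (L l54 (L l493 (T t83 (L l235 (L l301 (L l314 (L l390 (T t5655 N)))))))))) (K a58 (M a4 (F (T t518 (L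 l54 (T t5653 N))))) (K a15 (M a4 (F (T t518 (T t5653 N)))) N))))))))))))))) (K a247 (M a231 (F (T t1 (T t2 (T t3 (T t0 (K a16 (M a149 (F (T t4854 (L l229 (T t5649 N))))) (K a32 (M a149 (F (T t175 (L l24 (L l229 (T t5649 N)))))) (K a21 (M a36 (F (L l18 (T t5656 (L l229 (L l458 (T t5657 N))))))) (K a37 (M a36 (F (T t5656 (L l229 (L l458 (T t5657 N)))))) (K a53 (M a101 (F (L l245 (T t5658 (L l47 (T t1477 N)))))) (K a26 (M a36 (F (L l18 (T t5656 (L l54 (L l229 (L l458 (T t5657 N)))))))) (K a42 (M a36 (F (L l56 (T t5656 (L l54 (L l229 (L l458 (T t5657 N)))))))) (K a58 (M a170 (F (T t317 (T t5659 N)))) (K a15 (M a36 (F (L l3 (T t5656 (L l229 (L l339 (L l458 (T t5657 N)))))))) N))))))))))))))) N))))))))))))))))))⟩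
def e0_63__215_124 : Ent 4 := ⟨[a0, a63], [a215, a200], (M a48 (F (T t1 (T t2 (T t3 (T t0 (K a16 (M a60 (F (T t64 (L l14 (L l18 (L l350 (T t67 (L l349 (T t65 N))))))))) (K a32 (M a60 (F (T t64 (L l350 (T t67 (L l24 (L l28 (L l349 (T t65 N))))))))) (K a21 (M a192 (F (T t837 (L l47 (L l230 (L l347 (T t20 (L l47 (L l230 (L l245 (L l347 (T t29 N)))))))))))) (K a37 (M a192 (F (T t19 (L l47 (L l230 (T t20 (L l295 (T t21 N)))))))) (K a53 (M a192 (F (T t19 (L l295 (L l491 (T t21 (L l239 (L l501 (T t31 N))))))))) (K a26 (M a192 (F (T t837 (L l230 (T t20 (L l295 (T t21 N))))))) (K a42 (M a192 (F (T t19 (L l230 (T t20 (L l28 (L l230 (L l245 (T t29 N))))))))) (K a58 (M a192 (F (T t19 (L l295 (T t21 (L l54 (L l239 (L l498 (L l501 (T t31 N)))))))))) (K a15 (M a85 (F (T t567 (L l239 (L l245 (T t568 N)))))) N)))))))))))))))⟩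
def e0_63__215_125 : Ent 4 := ⟨[a0, a63], [a215, a201], (M a149 (F (T t175 (L l239 (T t5 (L l239 (L l295 (T t176 (L l295 (T t177 (K a192 (M a53 (F (T t178 (L l233 (L l236 (T t179 (L l233 (L l236 (L l239 (L l296 (T t180 N))))))))))) (K a21 (M a48 (F (T t7 (L l18 (L l233 (T t14 (T t13 N))))))) (K a85 (M a20 (F (L l349 (T t238 (L l144 (L l239 (T t1269 (L l87 (T t1270 N))))))))) (K a213 (Fr a106 a192 l519 (Fr a42 a21 l68 (Fr a170 a234 l390 (Fr a255 a85 l476 (V t582))))) (K a42 (M a48 (F (L l230 (T t187 (L l390 (T t13 (L l54 (L l233 (T t14 N))))))))) (K a106 (M a48 (F (T t1 (L l233 (L l498 (T t14 (L l233 (L l239 (L l390 (L l498 (T t6 (L l239 (L l245 (L l390 (T t26 N))))))))))))))) (K a170 (M a48 (F (T t3 (L l230 (T t11 (L l390 (T t13 N))))))) (K a191 (M a16 (F (T t97 (T t190 (L l213 (L l239 (L l245 (T t191 N)))))))) (K a255 (M a195 (F (T t6159 (L l233 (L l475 (T t1114 (L l239 (L l296 (L l434 (T t1272 (L l349 (L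 l497 (T t1273 N))))))))))))) N)))))))))))))))))))⟩
def e0_63__215_126 : Ent 4 := ⟨[a0, a63], [a215, a202], (M a48 (F (T t3 (L l318 (T t1 (L l498 (T t2 (T t0 (K a16 (M a60 (F (T t64 (L l14 (L l18 (L l350 (T t67 (L l349 (L l498 (T t65 N)))))))))) (K a32 (M a60 (F (T t64 (L l350 (T t67 (L l24 (L l28 (L l349 (L l498 (T t65 N)))))))))) (K a21 (M a192 (F (T t27 (L l498 (T t22 (L l18 (L l498 (T t46 N)))))))) (K a37 (M a192 (F (T t19 (L l498 (T t22 (L l295 (T t21 N))))))) (K a53 (M a192 (F (T t19 (L l295 (L l491 (T t21 (L l239 (L l498 (T t31 N))))))))) (K a26 (M a192 (F (T t837 (L l498 (T t22 (L l295 (T t21 N))))))) (K a42 (M a192 (F (T t27 (L l390 (L l498 (T t22 (L l390 (L l498 (T t46 N))))))))) (K a58 (M a106 (F (T t1321 (T t551 (L l282 (T t599 N)))))) (K a15 (M a85 (F (T t567 (L l239 (L l245 (T t568 N)))))) N)))))))))))))))))⟩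
def e0_63__215_127 : Ent 4 := ⟨[a0, a63], [a215, a203], (M a149 (F (T t175 (L l239 (T t5 (L l239 (L l295 (T t176 (L l295 (T t177 (K a192 (M a53 (F (T t178 (L l236 (T t179 (L l236 (L l239 (L l296 (T t180 N))))))))) (K a21 (M a48 (F (T t4 (T t13 (L l18 (T t14 N)))))) (K a85 (M a20 (F (L l349 (T t238 (L l144 (L l239 (T t1269 (L l87 (T t1270 N))))))))) (K a213 (Fr a106 a192 l519 (Fr a42 a21 l68 (Fr a170 a234 l390 (Fr a255 a85 l476 (V t582))))) (K a42 (M a48 (F (L l54 (T t4 (L l390 (T t13 (L l54 (T t14 N)))))))) (K a106 (M a48 (F (T t1 (L l498 (T t14 (L l239 (L l390 (L l498 (T t6 (L l239 (L l245 (L l390 (T t26 N))))))))))))) (K a170 (M a48 (F (T t4 (L l462 (T t1 (L l390 (T t13 N))))))) (K a191 (M a16 (F (T t97 (T t190 (L l213 (L l239 (L l245 (T t191 N)))))))) (K a255 (M a195 (F (L l434 (T t1271 (L l475 (T t1114 (L l239 (L l296 (L l434 (L l499 (T t1272 (L l349 (L l499 (L l500 (T t1273 N))))))))))))))) N)))))))))))))))))))⟩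
def e0_63__215_128 : Ent 4 := ⟨[a0, a63], [a215, a204], (M a48 (F (T t48 (L l327 (T t1 (L l327 (T t2 (L l327 (T t3 (L l327 (T t0 (K a16 (M a60 (F (T t138 (L l14 (L l18 (L l333 (L l350 (T t67 (L l349 (T t65 N)))))))))) (K a32 (M a60 (F (T t236 (L l333 (L l350 (T t67 (L l24 (L l28 (L l349 (T t65 N)))))))))) (K a21 (M a192 (F (T t54 (L l298 (T t27 (L l47 (L l245 (L l347 (T t29 N))))))))) (K a37 (M a192 (F (T t54 (L l298 (T t27 (L l290 (L l295 (T t21 N)))))))) (K a53 (M a192 (F (T t55 (L l290 (L l295 (L l491 (T t21 (L l239 (T t31 N))))))))) (K a26 (M a192 (F (T t56 (L l298 (T t27 (L l290 (L l295 (T t21 N)))))))) (K a42 (M a192 (F (T t56 (L l298 (T t27 (L l28 (L l245 (T t29 N)))))))) (K a58 (M a192 (F (T t57 (L l298 (T t27 (L l54 (L l239 (L l498 (T t31 N))))))))) (K a15 (M a85 (L l327 (F (T t567 (L l239 (L l245 (T t568 (K a141 (M a78 (F (T t567 (L l239 (L l245 (T t568 N)))))) (K a78 (M a141 (F (T t567 (L l239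 (L l245 (T t568 N)))))) N))))))))) N))))))))))))))))))))⟩
def e0_63__215_129 : Ent 4 := ⟨[a0, a63], [a215, a205], (M a149 (F (T t175 (L l239 (T t5 (L l239 (L l295 (T t176 (L l295 (T t177 (K a192 (M a53 (F (T t178 (L l233 (L l236 (T t179 (L l233 (L l236 (L l239 (L l296 (L l329 (T t180 N)))))))))))) (K a21 (M a48 (F (T t1267 (L l18 (L l233 (T t14 (T t13 N))))))) (K a85 (M a20 (F (L l349 (T t238 (L l144 (L l239 (T t1269 (L l87 (T t1270 N))))))))) (K a213 (Fr a106 a192 l519 (Fr a42 a21 l68 (Fr a170 a234 l390 (Fr a255 a85 l476 (V t582))))) (K a42 (M a48 (F (T t11 (L l390 (T t13 (L l54 (L l233 (T t14 N)))))))) (K a106 (M a48 (F (T t1 (L l233 (L l498 (T t14 (L l233 (L l239 (L l390 (L l498 (T t6 (L l239 (L l245 (L l390 (T t26 N))))))))))))))) (K a170 (M a48 (F (T t11 (L l462 (T t1 (L l390 (T t13 N))))))) (K a191 (M a60 (F (T t463 (L l233 (L l239 (T t1256 N)))))) (K a255 (M a195 (F (T t6159 (L l233 (L l475 (T t1114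 (L l239 (L l296 (L l434 (T t1272 (L l349 (T t6160 N)))))))))))) N)))))))))))))))))))⟩
def e0_63__215_130 : Ent 4 := ⟨[a0, a63], [a215, a206], (M a149 (F (T t175 (L l239 (T t5 (L l239 (L l295 (T t176 (L l295 (T t177 (K a192 (M a53 (F (T t178 (L l236 (T t179 (L l236 (L l239 (L l296 (T t180 N))))))))) (K a21 (M a48 (F (T t4 (T t13 (L l18 (T t14 N)))))) (K a85 (M a20 (F (L l349 (T t238 (L l144 (L l239 (T t1269 (L l87 (T t1270 N))))))))) (K a213 (Fr a106 a192 l519 (Fr a42 a21 l68 (Fr a170 a234 l390 (Fr a255 a85 l476 (V t582))))) (K a42 (M a48 (F (L l54 (T t4 (L l390 (T t13 (L l54 (T t14 N)))))))) (K a106 (M a48 (F (T t1 (L l498 (T t14 (L l239 (L l390 (L l498 (T t6 (L l239 (L l245 (L l390 (T t26 N))))))))))))) (K a170 (M a48 (F (T t4 (L l462 (T t1 (L l390 (T t13 N))))))) (K a191 (M a204 (F (T t1043 (L l239 (L l504 (T t1112 N)))))) (K a255 (M a195 (F (T t2098 (L l330 (L l475 (T t1114 (L l239 (L l296 (L l434 (T t1272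 (L l349 (L l504 (T t1273 N))))))))))))) N)))))))))))))))))))⟩
def e0_63__215_131 : Ent 4 := ⟨[a0, a63], [a215, a207], (M a12 (F (T t150 (L l511 (T t122 (L l511 (T t151 (L l511 (T t152 (L l511 (T t153 (K a4 (M a60 (F (T t570 (L l46 (L l50 (L l331 (L l350 (T t67 (L l349 (T t448 N)))))))))) (K a8 (M a60 (F (T t423 (L l331 (L l350 (T t67 (L l52 (L l56 (L l349 (T t448 N)))))))))) (K a21 (M a192 (F (T t158 (L l231 (T t156 (L l15 (L l277 (L l347 (T t157 N))))))))) (K a25 (M a192 (F (T t158 (L l231 (T t156 (L l289 (L l295 (T t21 N)))))))) (K a29 (M a192 (F (T t159 (L l289 (L l295 (L l371 (T t21 (L l239 (T t160 N))))))))) (K a38 (M a192 (F (T t161 (L l231 (T t156 (L l289 (L l295 (T t21 N)))))))) (K a42 (M a192 (F (T t161 (L l231 (T t156 (L l56 (L l277 (T t157 N)))))))) (K a46 (M a192 (F (T t57 (L l231 (T t156 (L l26 (L l239 (L l408 (T t160 N))))))))) (K a51 (M a192 (L l511 (F (T t1800 (L l231 (L l513 (T t156 (L l301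 (L l415 (T t450 (K a103 (M a155 (F (T t47 (L l301 (L l415 (T t543 (L l231 (L l513 (T t468 N))))))))) (K a155 (M a103 (F (T t47 (L l301 (L l415 (T t543 (L l231 (L l513 (T t468 N))))))))) N)))))))))))) N))))))))))))))))))))⟩
def e0_63__215_132 : Ent 4 := ⟨[a0, a63], [a215, a212], (M a48 (L l239 (F (T t1 (T t2 (T t3 (T t0 (K a16 (M a255 (L l239 (F (T t1169 (L l292 (T t1165 (L l18 (L l350 (L l368 (T t1167 (K a213 (M a214 (F (T t546 (L l292 (L l347 (L l350 (L l368 (T t2139 (L l347 (L l350 (L l368 (T t5017 N)))))))))))) (K a214 (M a213 (F (T t6030 (T t1160 N)))) N)))))))))))) (K a32 (M a255 (L l239 (F (T t1169 (L l292 (L l404 (T t1165 (L l350 (T t1167 (K a213 (M a214 (F (T t546 (L l292 (L l347 (L l350 (T t2139 (L l347 (L l350 (T t5017 N)))))))))) (K a214 (M a213 (F (L l28 (T t6030 (T t1160 N))))) N))))))))))) (K a21 (M a85 (L l239 (F (T t873 (L l47 (L l245 (T t100 (T t50 (K a213 (M a214 (F (T t873 (L l47 (L l245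 (L l246 (T t100 (T t50 N)))))))) (K a214 (M a213 (F (T t5007 (T t873 (L l47 (L l245 (T t100 N))))))) N)))))))))) (K a37 (M a192 (L l239 (F (T t19 (L l47 (L l351 (T t20 (L l295 (L l351 (T t21 (K a213 (M a214 (F (T t22 (L l28 (L l242 (L l246 (T t28 (L l295 (L l347 (L l351 (T t21 N))))))))))) (K a214 (M a213 (F (T t5012 (T t837 N)))) N)))))))))))) (K a53 (M a192 (L l239 (F (T t19 (L l295 (L l351 (L l491 (T t21 (L l47 (L l351 (L l491 (T t525 (K a213 (M a214 (F (T t837 (L l295 (L l347 (L l351 (L l491 (T t21 (L l347 (L l351 (L l491 (T t575 N)))))))))))) (K a214 (M a213 (F (T t5012 (T t837 N)))) N)))))))))))))) (K a26 (M a192 (L l239 (F (T t837 (L l351 (T t20 (L l295 (L l351 (T t21 (K a213 (M a214 (F (T t837 (T t22 (L l295 (L l347 (L l351 (T t21 N)))))))) (K a214 (M a213 (F (T t5012 (T t837 N)))) N))))))))))) (K a42 (M a192 (L l239 (F (T t19 (L l351 (T t20 (L l28 (L l245 (L l351 (T t29 (K a213 (M a214 (F (T t837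 (L l390 (T t22 (L l28 (L l245 (L l246 (L l347 (L l351 (T t29 N))))))))))) (K a214 (M a213 (F (L l390 (T t5016 (T t837 N))))) N)))))))))))) (K a58 (M a192 (L l239 (F (T t19 (L l295 (L l351 (T t21 (L l351 (T t525 (K a213 (M a214 (F (T t837 (L l295 (L l347 (L l351 (T t21 (L l347 (L l351 (T t575 N)))))))))) (K a214 (M a213 (F (L l498 (T t5012 (T t837 N))))) N))))))))))) (K a15 (M a192 (L l239 (F (T t1800 (L l483 (T t27 (L l325 (L l351 (T t20 (K a213 (M a214 (F (T t1922 (L l325 (T t22 (L l295 (L l347 (L l351 (L l469 (T t21 N)))))))))) (K a214 (M a213 (F (T t5012 (L l483 (T t837 N))))) N))))))))))) (K a213 (M a214 (F (T t2 (L l347 (T t1 (L l347 (T t3 (T t0 (K a16 (M a60 (F (T t70 (T t69 (L l14 (L l18 (L l346 (L l347 (L l350 (T t44 N)))))))))) (K a32 (M a60 (F (T t70 (L l28 (T t69 (L l346 (L l347 (L l350 (T t44 N))))))))) (K a21 (M a85 (F (T t873 (L l47 (L l245 (L l246 (T t100 (T t50 N)))))))) (K a37 (M a192 (F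 (T t22 (L l28 (L l242 (L l246 (T t28 (L l295 (L l347 (L l351 (T t21 N))))))))))) (K a53 (M a192 (F (T t837 (L l295 (L l347 (L l351 (L l491 (T t21 (L l347 (L l351 (L l491 (T t575 N)))))))))))) (K a26 (M a192 (F (T t837 (T t22 (L l295 (L l347 (L l351 (T t21 N)))))))) (K a42 (M a192 (F (T t837 (L l390 (T t22 (L l28 (L l245 (L l246 (L l347 (L l351 (T t29 N))))))))))) (K a58 (M a192 (F (T t837 (L l295 (L l347 (L l351 (T t21 (L l347 (L l351 (T t575 N)))))))))) (K a15 (M a192 (F (T t1922 (L l325 (T t22 (L l295 (L l347 (L l351 (L l469 (T t21 N)))))))))) N))))))))))))))))) (K a214 (M a213 (F (T t1 (L l350 (T t5013 (L l245 (L l351 (T t5014 (K a21 (M a192 (F (T t5015 (T t206 (T t837 N))))) (K a42 (M a192 (F (L l390 (T t5016 (T t837 N))))) N)))))))))) N))))))))))))))))))⟩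
def e0_63__215_133 : Ent 4 := ⟨[a0, a63], [a215, a213], (M a48 (L l239 (F (T t2 (L l347 (T t1 (L l347 (T t3 (T t0 (K a16 (M a60 (L l239 (F (T t64 (L l14 (L l18 (L l347 (L l350 (T t67 (L l349 (T t65 (K a212 (M a214 (F (T t70 (T t69 (L l14 (L l18 (L l346 (L l347 (L l350 (T t44 N)))))))))) (K a214 (M a212 (F (T t451 (L l364 (T t6032 N))))) N))))))))))))) (K a32 (M a60 (L l239 (F (T t64 (L l347 (L l350 (T t67 (L l24 (L l28 (L l349 (T t65 (K a212 (M a214 (F (T t70 (L l28 (T t69 (L l346 (L l347 (L l350 (T t44 N))))))))) (K a214 (M a212 (F (T t451 (L l24 (L l28 (T t6032 N)))))) N))))))))))))) (K a21 (M a149 (L l239 (F (T t7 (L l18 (L l275 (T t14 (T t13 (K a212 (M a214 (F (T t7 (L l18 (L l275 (T t14 (T t13 N))))))) (K a214 (M a212 (F (T t1059 (L l18 (L l275 (T t14 N)))))) N)))))))))) (K a37 (M a192 (L l239 (F (T t19 (L l47 (L l347 (T t20 (L l295 (L l347 (T t21 (K a212 (M a214 (F (T t22 (L l28 (L l242 (L l246 (T t28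 (L l295 (L l347 (L l351 (T t21 N))))))))))) (K a214 (M a212 (F (T t22 (L l350 (T t3434 N))))) N)))))))))))) (K a53 (M a192 (L l239 (F (T t27 (L l295 (L l347 (L l491 (T t21 (L l347 (L l491 (T t575 (K a212 (M a214 (F (T t837 (L l295 (L l347 (L l351 (L l491 (T t21 (L l347 (L l351 (L l491 (T t575 N)))))))))))) (K a214 (M a212 (F (T t837 (L l349 (T t6036 N))))) N))))))))))))) (K a26 (M a192 (L l239 (F (T t837 (L l347 (T t20 (L l295 (L l347 (T t21 (K a212 (M a214 (F (T t837 (T t22 (L l295 (L l347 (L l351 (T t21 N)))))))) (K a214 (M a212 (F (T t22 (L l350 (T t3434 N))))) N))))))))))) (K a42 (M a192 (L l239 (F (T t19 (L l347 (T t20 (L l28 (L l245 (L l246 (L l347 (T t29 (K a212 (M a214 (F (T t837 (L l390 (T t22 (L l28 (L l245 (L l246 (L l347 (L l351 (T t29 N))))))))))) (K a214 (M a212 (F (T t837 (L l349 (L l390 (T t6036 N)))))) N))))))))))))) (K a58 (M a192 (L l239 (F (T t27 (L l295 (L l347 (T t21 (L l347 (T t575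 (K a212 (M a214 (F (T t837 (L l295 (L l347 (L l351 (T t21 (L l347 (L l351 (T t575 N)))))))))) (K a214 (M a212 (F (T t837 (L l349 (L l498 (T t6036 N)))))) N))))))))))) (K a15 (M a192 (L l239 (F (T t54 (L l483 (T t27 (L l295 (L l347 (L l469 (T t21 (K a212 (M a214 (F (T t1922 (L l325 (T t22 (L l295 (L l347 (L l351 (L l469 (T t21 N)))))))))) (K a214 (M a212 (F (T t1922 (L l7 (L l349 (T t6036 N)))))) N)))))))))))) (K a212 (M a214 (F (T t2 (L l347 (T t1 (L l347 (T t3 (T t0 (K a16 (M a60 (F (T t70 (T t69 (L l14 (L l18 (L l346 (L l347 (L l350 (T t44 N)))))))))) (K a32 (M a60 (F (T t70 (L l28 (T t69 (L l346 (L l347 (L l350 (T t44 N))))))))) (K a21 (M a85 (F (T t873 (L l47 (L l245 (L l246 (T t100 (T t50 N)))))))) (K a37 (M a192 (F (T t22 (L l28 (L l242 (L l246 (T t28 (L l295 (L l347 (L l351 (T t21 N))))))))))) (K a53 (M a192 (F (T t837 (L l295 (L l347 (L l351 (L l491 (T t21 (L l347 (L l351 (L l491 (T t575 N))))))))))))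 (K a26 (M a192 (F (T t837 (T t22 (L l295 (L l347 (L l351 (T t21 N)))))))) (K a42 (M a192 (F (T t837 (L l390 (T t22 (L l28 (L l245 (L l246 (L l347 (L l351 (T t29 N))))))))))) (K a58 (M a192 (F (T t837 (L l295 (L l347 (L l351 (T t21 (L l347 (L l351 (T t575 N)))))))))) (K a15 (M a192 (F (T t1922 (L l325 (T t22 (L l295 (L l347 (L l351 (L l469 (T t21 N)))))))))) N))))))))))))))))) (K a214 (M a212 (F (T t2 (L l347 (T t1 (L l347 (T t3 (T t0 (K a16 (M a192 (F (T t22 (L l14 (L l350 (T t3434 N)))))) (K a32 (M a192 (F (L l376 (T t22 (L l350 (L l400 (T t3434 N))))))) (K a21 (M a149 (F (T t1059 (L l18 (L l275 (T t14 N)))))) (K a37 (M a192 (F (T t22 (L l350 (T t3434 N))))) (K a53 (M a192 (F (T t837 (L l349 (T t6036 N))))) (K a26 (M a192 (F (T t22 (L l350 (T t3434 N))))) (K a42 (M a192 (F (T t837 (L l349 (L l390 (T t6036 N)))))) (K a58 (M a192 (F (T t837 (L l349 (L l498 (T t6036 N)))))) (K a15 (M a192 (F (T t1922 (L l7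 (L l349 (T t6036 N)))))) N))))))))))))))))) N))))))))))))))))))))⟩
def e0_63__215_134 : Ent 4 := ⟨[a0, a63], [a215, a214], (M a48 (L l239 (F (T t1 (T t2 (T t3 (T t0 (K a16 (M a149 (L l239 (F (T t4 (L l18 (L l294 (T t175 (T t6037 (K a212 (M a213 (F (T t6038 (T t181 N)))) (K a213 (M a212 (F (T t7 (L l14 (L l348 (L l350 (T t6039 N))))))) N)))))))))) (K a32 (M a192 (L l239 (F (T t20 (L l295 (T t21 (L l28 (L l376 (T t214 (K a212 (M a213 (F (T t5012 (L l294 (T t6040 N))))) (K a213 (M a212 (F (L l376 (T t22 (L l350 (L l400 (T t3434 N))))))) N))))))))))) (K a21 (M a149 (L l239 (F (T t4 (T t13 (L l18 (T t14 (K a212 (M a213 (F (T t6041 (T t181 (L l18 (T t14 N)))))) (K a213 (M a212 (F (T t1059 (L l18 (L l275 (T t14 N)))))) N))))))))) (K a37 (M a192 (L l239 (F (T t19 (L l47 (T t20 (L l295 (T t21 (K a212 (M a213 (F (T t5012 (T t837 N)))) (K a213 (M a212 (F (T t22 (L l350 (T t3434 N))))) N)))))))))) (K a53 (M a192 (L l239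 (F (T t19 (L l295 (L l491 (T t21 (L l47 (L l294 (L l491 (T t525 (K a212 (M a213 (F (T t5012 (T t837 N)))) (K a213 (M a212 (F (T t837 (L l349 (T t6036 N))))) N))))))))))))) (K a26 (M a192 (L l239 (F (T t837 (T t20 (L l295 (T t21 (K a212 (M a213 (F (T t5012 (T t837 N)))) (K a213 (M a212 (F (T t22 (L l350 (T t3434 N))))) N))))))))) (K a42 (M a192 (L l239 (F (T t19 (T t20 (L l28 (L l245 (T t29 (K a212 (M a213 (F (L l390 (T t5016 (T t837 N))))) (K a213 (M a212 (F (T t837 (L l349 (L l390 (T t6036 N)))))) N)))))))))) (K a58 (M a192 (L l239 (F (T t19 (L l295 (T t21 (L l294 (T t525 (K a212 (M a213 (F (L l498 (T t5012 (T t837 N))))) (K a213 (M a212 (F (T t837 (L l349 (L l498 (T t6036 N)))))) N)))))))))) (K a15 (M a192 (L l239 (F (T t1800 (L l483 (T t27 (L l325 (T t20 (K a212 (M a213 (F (T t5012 (L l483 (T t837 N))))) (K a213 (M a212 (F (T t1922 (L l7 (L l349 (T t6036 N)))))) N)))))))))) (K a212 (M a213 (F (T t1 (L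 l350 (T t5013 (L l245 (L l351 (T t5014 (K a21 (M a192 (F (T t5015 (T t206 (T t837 N))))) (K a42 (M a192 (F (L l390 (T t5016 (T t837 N))))) N)))))))))) (K a213 (M a212 (F (T t2 (L l347 (T t1 (L l347 (T t3 (T t0 (K a16 (M a192 (F (T t22 (L l14 (L l350 (T t3434 N)))))) (K a32 (M a192 (F (L l376 (T t22 (L l350 (L l400 (T t3434 N))))))) (K a21 (M a149 (F (T t1059 (L l18 (L l275 (T t14 N)))))) (K a37 (M a192 (F (T t22 (L l350 (T t3434 N))))) (K a53 (M a192 (F (T t837 (L l349 (T t6036 N))))) (K a26 (M a192 (F (T t22 (L l350 (T t3434 N))))) (K a42 (M a192 (F (T t837 (L l349 (L l390 (T t6036 N)))))) (K a58 (M a192 (F (T t837 (L l349 (L l498 (T t6036 N)))))) (K a15 (M a192 (F (T t1922 (L l7 (L l349 (T t6036 N)))))) N))))))))))))))))) N))))))))))))))))))⟩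
def e0_63__215_135 : Ent 4 := ⟨[a0, a63], [a215, a216], (M a149 (F (T t175 (L l239 (T t5 (L l239 (L l295 (T t176 (L l295 (T t177 (K a192 (M a53 (F (T t178 (L l236 (T t179 (L l236 (L l239 (L l296 (T t180 N))))))))) (K a21 (M a48 (F (T t4 (L l298 (T t13 (L l18 (T t14 N))))))) (K a85 (M a20 (F (L l349 (T t238 (L l144 (L l239 (L l242 (T t1269 (L l87 (T t1270 N)))))))))) (K a213 (Fr a106 a192 l519 (Fr a42 a21 l68 (Fr a170 a234 l390 (Fr a255 a85 l476 (V t582))))) (K a42 (M a48 (F (T t187 (L l298 (L l390 (T t13 (L l54 (T t14 N)))))))) (K a106 (M a48 (F (T t1 (L l498 (T t14 (L l239 (L l390 (L l498 (T t6 (L l239 (L l245 (L l390 (T t26 N))))))))))))) (K a170 (M a48 (F (T t4 (L l462 (T t1 (L l298 (L l390 (T t13 N)))))))) (K a191 (M a16 (F (T t97 (L l242 (L l298 (T t190 (L l213 (L l239 (L l245 (T t191 N)))))))))) (K a255 (M a195 (F (T t2098 (L l475 (T t1114 (L l239 (L l296 (L l434 (T t1272 (L l349 (T t1273 N)))))))))))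 N)))))))))))))))))))⟩
def e0_63__215_136 : Ent 4 := ⟨[a0, a63], [a215, a217], (M a149 (F (L l284 (T t175 (L l239 (L l243 (T t5 (L l239 (L l243 (L l295 (T t176 (L l295 (T t177 (K a192 (M a53 (F (T t178 (L l236 (T t179 (L l236 (L l239 (L l243 (L l296 (T t180 N)))))))))) (K a21 (M a48 (F (T t4 (T t13 (L l18 (T t14 N)))))) (K a85 (M a20 (F (L l349 (T t238 (L l144 (L l239 (T t1269 (L l87 (T t1270 N))))))))) (K a213 (Fr a106 a192 l519 (Fr a42 a21 l68 (Fr a170 a234 l390 (Fr a255 a85 l476 (V t582))))) (K a42 (M a48 (F (T t187 (L l390 (T t13 (L l54 (T t14 N))))))) (K a106 (M a60 (F (T t68 (L l98 (L l144 (L l239 (L l243 (L l295 (L l349 (L l390 (T t6174 (L l295 (L l350 (L l516 (T t462 N))))))))))))))) (K a170 (M a48 (F (T t4 (L l462 (T t1 (L l390 (T t13 N))))))) (K a191 (M a16 (F (T t97 (T t190 (L l213 (L l239 (L l243 (L l245 (T t191 N))))))))) (K a255 (M a195 (F (T t2098 (L l475 (T t1114 (L l239 (L l243 (L l296 (L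 l434 (T t1272 (L l349 (T t1273 N)))))))))))) N))))))))))))))))))))))⟩
def e0_63__215_137 : Ent 4 := ⟨[a0, a63], [a215, a218], (M a149 (F (L l282 (T t175 (L l239 (L l246 (T t5 (L l239 (L l246 (L l295 (T t176 (L l295 (T t177 (K a192 (M a53 (F (T t178 (L l236 (T t179 (L l236 (L l239 (L l246 (L l296 (T t180 N)))))))))) (K a21 (M a48 (F (T t4 (L l18 (T t1274 (L l18 (T t14 N))))))) (K a85 (M a20 (F (L l349 (T t238 (L l144 (L l239 (T t1269 (L l87 (T t1270 N))))))))) (K a213 (Fr a106 a192 l519 (Fr a42 a21 l68 (Fr a170 a234 l390 (Fr a255 a85 l476 (V t582))))) (K a42 (M a48 (F (L l54 (T t4 (L l390 (T t1274 (L l54 (T t14 N)))))))) (K a106 (M a60 (F (T t68 (L l98 (L l144 (L l239 (L l246 (L l295 (L l349 (L l390 (T t6174 (L l295 (L l350 (L l516 (T t462 N))))))))))))))) (K a170 (M a48 (F (T t4 (L l462 (T t1 (L l303 (L l390 (T t13 N)))))))) (K a191 (M a208 (F (T t1277 (L l354 (T t1276 (L l239 (T t1275 N))))))) (K a255 (M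 a195 (F (T t2098 (L l475 (T t1114 (L l239 (L l246 (L l296 (L l434 (T t1272 (L l349 (T t1273 N)))))))))))) N))))))))))))))))))))))⟩
def e0_63__215_138 : Ent 4 := ⟨[a0, a63], [a215, a219], (M a48 (L l245 (F (T t1 (T t2 (T t3 (T t0 (K a16 (M a85 (L l245 (F (T t90 (T t50 (L l239 (T t51 (K a211 (M a223 (L l344 (F (T t3725 (L l239 (T t88 (L l239 (T t51 (K a81 (M a146 (F (T t3725 (L l18 (L l295 (T t52 (L l239 (T t51 N)))))))) (K a146 (M a81 (F (T t3725 (L l194 (L l239 (T t6221 N)))))) N)))))))))) (K a223 (M a211 (F (T t90 (T t50 (L l239 (L l246 (T t51 N))))))) N))))))))) (K a32 (M a255 (L l245 (F (T t1169 (L l404 (T t1165 (L l350 (T t1167 (K a211 (M a223 (F (L l344 (L l404 (T t6222 (T t1160 N)))))) (K a223 (M a211 (F (T t1169 (L l350 (L l368 (T t2139 (L l350 (L l368 (T t1167 N))))))))) N)))))))))) (K a21 (M a255 (L l245 (F (T t511 (L l301 (L l347 (L l350 (T t547 (L l47 (T t3728 (K a211 (M a223 (F (T t3729 (T t1160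 N)))) (K a223 (M a211 (F (T t511 (L l301 (L l347 (L l350 (L l368 (T t547 (L l347 (L l350 (L l368 (T t3730 N)))))))))))) N)))))))))))) (K a37 (M a52 (L l245 (F (T t82 (T t83 (L l21 (L l28 (L l350 (T t84 (K a211 (M a223 (F (T t83 (L l28 (L l350 (L l383 (T t6223 N))))))) (K a223 (M a211 (F (T t83 (L l28 (L l355 (T t6051 N)))))) N))))))))))) (K a53 (M a12 (L l245 (F (T t151 (T t443 (L l47 (L l356 (T t146 (K a211 (M a223 (F (T t151 (L l356 (T t3734 N))))) (K a223 (M a211 (F (T t151 (T t6224 N)))) N)))))))))) (K a26 (M a12 (L l245 (F (T t443 (L l54 (T t151 (L l12 (L l18 (L l356 (T t146 (K a211 (M a223 (F (L l54 (T t151 (L l354 (L l356 (T t3734 N))))))) (K a223 (M a211 (F (L l54 (T t151 (T t6224 N))))) N)))))))))))) (K a42 (M a101 (L l245 (F (L l301 (T t334 (L l54 (T t313 (L l54 (T t314 (K a211 (M a223 (F (L l301 (T t3735 (L l54 (L l390 (T t440 (L l54 (L l344 (T t431 N)))))))))) (K a223 (M a211 (F (L l289 (L l301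 (T t336 (L l28 (L l355 (T t6225 N)))))))) N))))))))))) (K a58 (M a12 (L l245 (F (T t443 (T t122 (L l356 (T t146 (K a211 (M a223 (F (T t122 (L l356 (L l498 (T t3734 N)))))) (K a223 (M a211 (F (T t122 (T t6224 N)))) N))))))))) (K a15 (M a52 (L l245 (F (T t491 (L l3 (T t82 (L l350 (T t84 (K a211 (M a223 (F (T t555 (L l350 (T t3740 N))))) (K a223 (M a211 (F (T t555 (T t6045 N)))) N)))))))))) (K a211 (M a223 (F (T t1 (L l350 (T t3739 (L l350 (T t3740 (K a16 (M a60 (L l344 (F (T t70 (T t69 (L l349 (T t65 (K a81 (M a146 (F (T t70 (L l117 (L l295 (L l350 (L l374 (T t6226 N)))))))) (K a146 (M a81 (F (T t69 (L l194 (L l283 (L l295 (T t6227 N))))))) N))))))))) (K a32 (M a31 (F (L l28 (L l344 (T t3743 (L l404 (T t3744 N))))))) N))))))))) (K a223 (M a211 (F (T t1 (L l355 (T t6051 (L l355 (T t6225 (K a16 (M a85 (F (T t90 (T t50 (L l239 (L l246 (T t51 N))))))) (K a32 (M a60 (F (T t70 (L l28 (T t69 (L l24 (L l28 (L l349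 (T t65 N))))))))) (K a21 (M a144 (F (T t6228 (L l367 (T t6229 N))))) (K a26 (M a240 (F (T t6230 (T t6231 N)))) N))))))))))) N))))))))))))))))))⟩
def e0_63__215_139 : Ent 4 := ⟨[a0, a63], [a215, a220], (M a149 (F (T t175 (L l239 (T t5 (L l239 (L l295 (T t176 (L l295 (T t177 (K a192 (M a53 (F (T t178 (L l236 (L l364 (T t179 (L l236 (L l239 (L l296 (T t180 N)))))))))) (K a21 (M a48 (F (T t4 (T t13 (L l18 (L l364 (T t14 N))))))) (K a85 (M a20 (F (L l349 (T t238 (L l144 (L l239 (L l242 (L l286 (T t1269 (L l87 (L l369 (T t1270 N)))))))))))) (K a213 (Fr a106 a192 l519 (Fr a42 a21 l68 (Fr a170 a234 l390 (Fr a255 a85 l476 (V t582))))) (K a42 (M a48 (F (T t187 (L l390 (T t13 (L l54 (L l364 (T t14 N)))))))) (K a106 (M a48 (F (T t1 (L l364 (L l498 (T t14 (L l239 (L l390 (L l498 (T t6 (L l239 (L l241 (L l245 (L l390 (T t26 N))))))))))))))) (K a170 (M a48 (F (T t4 (L l462 (T t1 (L l390 (T t13 N))))))) (K a191 (M a16 (F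 (T t112 (L l242 (T t190 (L l213 (L l239 (L l241 (L l245 (T t191 N)))))))))) (K a255 (M a195 (F (T t2098 (L l475 (T t1114 (L l239 (L l296 (L l434 (T t1272 (L l349 (T t1273 N))))))))))) N)))))))))))))))))))⟩
def e0_63__215_140 : Ent 4 := ⟨[a0, a63], [a215, a221], (M a48 (F (T t1 (T t2 (T t3 (T t0 (K a16 (M a60 (F (T t64 (L l14 (L l18 (L l350 (T t67 (L l349 (T t65 N))))))))) (K a32 (M a60 (F (T t64 (L l350 (T t67 (L l24 (L l28 (L l349 (T t65 N))))))))) (K a21 (M a192 (F (T t837 (L l47 (L l347 (T t20 (L l47 (L l241 (L l245 (L l347 (T t29 N))))))))))) (K a37 (M a192 (F (T t19 (L l47 (T t20 (L l290 (L l295 (T t21 N)))))))) (K a53 (M a192 (F (T t19 (L l290 (L l295 (L l491 (T t21 (L l239 (L l243 (T t31 N)))))))))) (K a26 (M a192 (F (T t837 (T t20 (L l290 (L l295 (T t21 N))))))) (K a42 (M a192 (F (T t19 (T t20 (L l28 (L l241 (L l245 (T t29 N)))))))) (K a58 (M a192 (F (T t19 (L l290 (L l295 (T t21 (L l54 (L l239 (L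 l243 (L l498 (T t31 N))))))))))) (K a15 (M a85 (F (T t567 (L l239 (L l241 (L l243 (L l245 (T t568 N)))))))) N)))))))))))))))⟩
def e0_63__215_141 : Ent 4 := ⟨[a0, a63], [a215, a222], (M a149 (F (T t175 (L l239 (T t5 (L l239 (L l295 (T t176 (L l295 (T t177 (K a192 (M a53 (F (T t178 (L l236 (T t179 (L l236 (L l239 (L l296 (T t180 N))))))))) (K a21 (M a48 (F (T t4 (T t13 (L l18 (T t14 N)))))) (K a85 (M a20 (F (L l349 (T t238 (L l144 (L l239 (L l291 (T t1269 (L l87 (L l366 (T t1270 N))))))))))) (K a213 (Fr a106 a192 l519 (Fr a42 a21 l68 (Fr a170 a234 l390 (Fr a255 a85 l476 (V t582))))) (K a42 (M a48 (F (T t187 (L l390 (T t13 (L l54 (T t14 N))))))) (K a106 (M a48 (F (T t1 (L l498 (T t14 (L l239 (L l390 (L l498 (T t6 (L l239 (L l241 (L l245 (L l390 (T t26 N)))))))))))))) (K a170 (M a48 (F (T t4 (L l462 (T t1 (L l390 (T t13 N))))))) (K a191 (M a16 (F (T t97 (T t190 (L l213 (L l239 (L l241 (L l245 (T t191 N)))))))))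 (K a255 (M a195 (F (T t2098 (L l475 (T t1114 (L l239 (L l296 (L l434 (T t1272 (L l349 (T t1273 N))))))))))) N)))))))))))))))))))⟩
def e0_63__215_142 : Ent 4 := ⟨[a0, a63], [a215, a223], (M a12 (L l245 (F (T t122 (T t151 (T t152 (T t153 (K a4 (M a149 (L l245 (F (T t958 (L l239 (L l246 (T t5 (L l239 (L l246 (L l362 (T t960 (K a211 (M a219 (F (T t4854 (L l238 (T t6232 N))))) (K a219 (M a211 (F (T t4854 (L l362 (T t6233 N))))) N))))))))))))) (K a8 (M a149 (L l245 (F (T t991 (L l56 (L l239 (L l246 (T t5 (L l56 (L l239 (L l246 (L l362 (T t960 (K a211 (M a219 (F (T t175 (L l52 (L l238 (T t6232 N)))))) (K a219 (M a211 (F (T t175 (L l362 (T t6233 N))))) N))))))))))))))) (K a21 (M a89 (L l245 (F (T t2788 (L l50 (T t863 (L l50 (T t864 (K a211 (M a219 (F (T t3543 (L l50 (L l295 (T t6234 N)))))) (K a219 (M a211 (F (T t2752 (L l18 (L l350 (L l368 (T t6235 N))))))) N)))))))))) (K a25 (M a89 (L l245 (F (T t2788 (T t863 (T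 t864 (K a211 (M a219 (F (T t3543 (L l12 (L l295 (T t6234 N)))))) (K a219 (M a211 (F (T t870 (L l350 (L l368 (T t6235 N)))))) N)))))))) (K a29 (M a170 (L l245 (F (T t2497 (L l15 (T t317 (L l15 (T t3682 (K a211 (M a219 (F (L l15 (T t317 (T t6236 N))))) (K a219 (M a211 (F (L l15 (T t317 (L l13 (L l283 (L l362 (T t6237 N)))))))) N)))))))))) (K a38 (M a149 (L l245 (F (T t991 (L l50 (T t175 (L l26 (L l50 (T t649 (K a211 (M a219 (F (T t648 (L l26 (L l238 (T t6232 N)))))) (K a219 (M a211 (F (T t648 (L l26 (L l362 (T t6233 N)))))) N))))))))))) (K a42 (M a89 (L l245 (F (T t3370 (T t863 (L l26 (T t864 (K a211 (M a219 (F (T t3543 (L l28 (L l362 (L l368 (T t6238 N))))))) (K a219 (M a211 (F (T t3543 (L l22 (L l350 (L l368 (T t6235 N))))))) N))))))))) (K a46 (M a170 (L l245 (F (T t439 (L l277 (L l289 (L l295 (L l396 (T t3685 (T t3682 (K a211 (M a219 (F (T t317 (T t6236 N)))) (K a219 (M a211 (F (T t317 (L l283 (L l362 (T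 t6237 N)))))) N)))))))))))) (K a51 (M a149 (L l245 (F (T t647 (L l239 (L l246 (L l489 (T t5 (T t649 (K a211 (M a219 (F (T t4854 (L l238 (T t6232 N))))) (K a219 (M a211 (F (T t4854 (L l362 (T t6233 N))))) N))))))))))) (K a211 (M a219 (F (T t122 (T t151 (T t152 (T t153 (K a4 (M a149 (F (T t4854 (L l238 (T t6232 N))))) (K a8 (M a149 (F (T t175 (L l52 (L l238 (T t6232 N)))))) (K a21 (M a24 (F (L l50 (T t2412 (L l238 (L l368 (T t6239 N))))))) (K a25 (M a24 (F (T t2412 (L l238 (L l368 (T t6239 N)))))) (K a29 (M a89 (F (L l277 (T t6240 (L l15 (T t3691 N)))))) (K a38 (M a24 (F (L l50 (T t2412 (L l26 (L l238 (L l368 (T t6239 N)))))))) (K a42 (M a24 (F (L l28 (T t2412 (L l26 (L l238 (L l368 (T t6239 N)))))))) (K a46 (M a170 (F (T t317 (T t6236 N)))) (K a51 (M a24 (F (L l30 (T t2412 (L l238 (L l368 (L l489 (T t6239 N)))))))) N))))))))))))))) (K a219 (M a211 (F (T t122 (T t151 (T t152 (T t153 (K a4 (M a16 (F (L l361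 (T t97 (L l350 (L l356 (L l458 (T t4338 N)))))))) (K a8 (M a16 (F (L l56 (T t112 (L l52 (L l350 (L l356 (T t4338 N)))))))) (K a21 (M a28 (F (T t2738 (L l50 (L l283 (L l301 (L l350 (T t4339 N)))))))) (K a25 (M a16 (F (L l56 (T t112 (L l350 (T t6241 N)))))) (K a29 (M a16 (F (T t112 (L l289 (L l295 (L l359 (L l362 (T t4337 N)))))))) (K a38 (M a16 (F (L l26 (T t112 (L l289 (L l295 (L l362 (L l384 (T t4337 N))))))))) (K a42 (M a28 (F (L l22 (L l368 (T t2735 (L l26 (L l355 (T t6242 N)))))))) (K a46 (M a16 (F (T t652 (L l26 (L l355 (T t6243 N)))))) (K a51 (M a16 (F (T t112 (L l289 (L l295 (L l362 (L l439 (T t4337 N)))))))) N))))))))))))))) N))))))))))))))))))⟩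
def e0_63__215_143 : Ent 4 := ⟨[a0, a63], [a215, a232], (M a48 (F (T t1 (T t2 (T t3 (T t0 (K a16 (M a60 (F (T t64 (L l14 (L l18 (L l350 (L l393 (T t67 (L l349 (L l388 (T t65 N))))))))))) (K a32 (M a60 (F (T t64 (L l350 (L l393 (T t67 (L l24 (L l28 (L l349 (L l388 (T t65 N))))))))))) (K a21 (M a192 (F (T t837 (L l47 (L l347 (T t20 (L l47 (L l245 (L l347 (T t29 N)))))))))) (K a37 (M a192 (F (T t27 (L l47 (T t20 (L l295 (T t21 N))))))) (K a53 (M a192 (F (T t837 (L l295 (L l491 (T t21 (L l239 (L l393 (T t31 N))))))))) (K a26 (M a192 (F (T t27 (T t20 (L l295 (T t21 N)))))) (K a42 (M a192 (F (T t27 (T t20 (L l28 (L l245 (T t29 N))))))) (K a58 (M a192 (F (T t837 (L l295 (T t21 (L l54 (L l239 (L l393 (L l498 (T t31 N)))))))))) (K a15 (M a192 (F (T t47 (L l483 (T t27 (L l325 (T t20 N))))))) N)))))))))))))))⟩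
def e0_63__215_144 : Ent 4 := ⟨[a0, a63], [a215, a233], (M a149 (F (L l250 (T t175 (L l239 (L l293 (T t5 (L l239 (L l293 (L l295 (T t176 (L l295 (T t177 (K a192 (M a53 (F (T t178 (L l236 (T t179 (L l236 (L l239 (L l293 (L l296 (T t180 N)))))))))) (K a21 (M a48 (F (T t4 (T t13 (L l18 (T t14 N)))))) (K a85 (M a20 (F (L l349 (T t238 (L l144 (L l239 (L l297 (T t1269 (L l87 (T t1270 N)))))))))) (K a213 (Fr a106 a192 l519 (Fr a42 a21 l68 (Fr a170 a234 l390 (Fr a255 a85 l476 (V t582))))) (K a42 (M a48 (F (T t187 (L l390 (T t13 (L l54 (T t14 N))))))) (K a106 (M a48 (F (T t1 (L l498 (T t14 (L l239 (L l293 (L l390 (L l498 (T t6 (L l239 (L l245 (L l293 (L l390 (T t26 N))))))))))))))) (K a170 (M a48 (F (T t4 (L l462 (T t1 (L l390 (T t13 N))))))) (K a191 (M a16 (F (T t97 (T t190 (L l213 (L l239 (L l245 (L l293 (T t191 N))))))))) (K a255 (M a195 (F (T t6159 (L l293 (L l475 (T t1114 (L l434 (T t6244 (L l349 (L l389 (T t1273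 N))))))))))) N))))))))))))))))))))))⟩
def e0_63__215_145 : Ent 4 := ⟨[a0, a63], [a215, a234], (M a48 (F (T t1 (L l390 (T t2 (T t3 (L l390 (T t0 (K a16 (M a60 (F (T t64 (L l14 (L l18 (L l350 (T t67 (L l349 (L l390 (T t65 N)))))))))) (K a32 (M a60 (F (T t64 (L l350 (T t67 (L l24 (L l28 (L l349 (L l390 (T t65 N)))))))))) (K a21 (M a192 (F (T t837 (L l47 (L l282 (L l347 (T t20 (L l47 (L l245 (L l282 (L l347 (T t29 N)))))))))))) (K a37 (M a192 (F (T t27 (L l47 (L l282 (T t20 (L l295 (L l390 (T t202 N))))))))) (K a53 (M a192 (F (T t27 (L l295 (L l390 (T t202 (L l245 (L l390 (T t577 N))))))))) (K a26 (M a192 (F (T t27 (L l282 (T t20 (L l295 (L l390 (T t202 N)))))))) (K a42 (M a106 (F (T t578 (L l28 (L l245 (L l282 (T t579 (T t551 N)))))))) (K a58 (M a192 (F (T t27 (L l295 (L l390 (L l498 (T t202 (L l245 (L l390 (L l498 (T t577 N))))))))))) (K a15 (M a192 (F (T t33 (L l483 (T t27 (L l295 (L l390 (L l469 (T t202 N)))))))))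 N)))))))))))))))))⟩
def e0_63__215_146 : Ent 4 := ⟨[a0, a63], [a215, a235], (M a255 (F (L l392 (T t1165 (L l250 (L l350 (T t2138 (L l239 (L l392 (T t2142 (L l350 (T t2139 (K a192 (M a16 (F (T t112 (L l236 (L l245 (L l392 (T t3574 (L l392 (T t3575 N))))))))) (K a21 (M a48 (F (T t511 (L l347 (L l350 (T t547 (L l47 (L l245 (L l392 (T t548 N)))))))))) (K a85 (M a60 (L l350 (F (T t1565 (L l349 (L l392 (T t43 (L l141 (L l144 (L l347 (T t5298 (L l349 (L l392 (L l473 (T t5299 (K a20 (M a150 (F (L l141 (L l392 (T t6245 (L l473 (T t2963 (L l144 (T t1435 N))))))))) (K a150 (Fr a20 a40 l64 (V t5302)) N))))))))))))))))) (K a149 (M a16 (F (T t112 (L l220 (L l245 (L l392 (T t3574 (L l170 (L l220 (L l392 (T t3575 N))))))))))) (K a42 (M a48 (F (T t1169 (L l350 (T t547 (L l28 (L l245 (L l390 (L l392 (T t548 N)))))))))) (K a106 (M a32 (F (T t820 (L l144 (L l255 (L l350 (T t3583 (L l104 (L l144 (L l350 (T t3584 N)))))))))))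 (K a170 (M a60 (L l392 (F (T t1633 (L l350 (L l391 (T t67 (L l350 (L l391 (L l474 (T t6246 (L l218 (L l220 (L l390 (T t6247 (K a40 (M a105 (F (L l218 (L l350 (T t6248 (L l474 (T t2969 (L l390 (T t1125 N))))))))) (K a105 (Fr a40 a20 l64 (V t6249)) N))))))))))))))))) (K a127 (M a16 (F (T t97 (L l245 (L l392 (T t3574 (L l137 (L l392 (T t3575 N))))))))) (K a191 (M a16 (F (T t97 (L l220 (L l245 (L l392 (T t3574 (L l220 (L l392 (T t3575 N)))))))))) N)))))))))))))))))))))⟩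
def e0_63__215_147 : Ent 4 := ⟨[a0, a63], [a215, a236], (M a149 (F (T t175 (L l239 (T t5 (L l239 (L l295 (T t176 (L l295 (T t177 (K a192 (M a53 (F (L l339 (T t982 (L l236 (L l251 (T t179 (L l236 (L l239 (L l296 (T t180 N))))))))))) (K a21 (M a48 (F (T t4 (T t13 (L l18 (L l251 (T t14 N))))))) (K a85 (M a20 (F (L l349 (T t238 (L l144 (L l239 (L l286 (T t1269 (L l87 (L l400 (T t1270 N))))))))))) (K a213 (Fr a106 a192 l519 (Fr a42 a21 l68 (Fr a170 a234 l390 (Fr a255 a85 l476 (V t582))))) (K a42 (M a48 (F (T t187 (L l390 (T t13 (L l54 (L l251 (T t14 N)))))))) (K a106 (M a48 (F (T t1 (L l251 (L l498 (T t14 (L l239 (L l390 (L l498 (T t6 (L l239 (L l245 (L l390 (L l400 (T t26 N))))))))))))))) (K a170 (M a48 (F (T t4 (L l462 (T t1 (L l390 (T t13 N))))))) (K a191 (M a204 (F (T t1043 (L l239 (L l399 (T t1112 N)))))) (K a255 (M a195 (F (T t2098 (L l475 (T t1114 (L l239 (L l296 (L l434 (T t1272 (L l349 (T t1273 N)))))))))))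 N)))))))))))))))))))⟩
def e0_63__215_148 : Ent 4 := ⟨[a0, a63], [a215, a237], (M a48 (F (T t1 (T t2 (T t3 (T t0 (K a16 (M a60 (F (T t64 (L l14 (L l18 (L l350 (T t67 (L l349 (T t65 N))))))))) (K a32 (M a60 (F (T t64 (L l350 (T t67 (L l24 (L l28 (L l349 (T t65 N))))))))) (K a21 (M a192 (F (T t837 (L l47 (L l291 (L l347 (T t20 (L l47 (L l245 (L l347 (T t29 N))))))))))) (K a37 (M a192 (F (T t19 (L l47 (L l291 (T t20 (L l295 (T t21 N)))))))) (K a53 (M a192 (F (T t19 (L l295 (L l491 (T t21 (L l239 (T t31 N)))))))) (K a26 (M a192 (F (T t837 (L l291 (T t20 (L l295 (T t21 N))))))) (K a42 (M a192 (F (T t19 (L l291 (T t20 (L l28 (L l245 (T t29 N)))))))) (K a58 (M a192 (F (T t19 (L l295 (T t21 (L l54 (L l239 (L l498 (T t31 N))))))))) (K a15 (M a85 (F (T t567 (L l239 (L l245 (T t568 N)))))) N)))))))))))))))⟩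
def e0_63__215_149 : Ent 4 := ⟨[a0, a63], [a215, a238], (M a48 (F (T t1 (T t2 (T t3 (T t0 (K a16 (M a60 (F (T t64 (L l14 (L l18 (L l350 (T t67 (L l349 (T t65 N))))))))) (K a32 (M a60 (F (T t64 (L l350 (T t67 (L l24 (L l28 (L l349 (T t65 N))))))))) (K a21 (M a192 (F (T t837 (L l47 (L l347 (T t20 (L l47 (L l245 (L l347 (T t29 N)))))))))) (K a37 (M a192 (F (T t19 (L l47 (T t20 (L l290 (L l295 (T t21 N)))))))) (K a53 (M a192 (F (T t19 (L l290 (L l295 (L l491 (T t21 (L l239 (T t31 N))))))))) (K a26 (M a192 (F (T t837 (T t20 (L l290 (L l295 (T t21 N))))))) (K a42 (M a192 (F (T t19 (T t20 (L l28 (L l245 (T t29 N))))))) (K a58 (M a192 (F (T t19 (L l290 (L l295 (T t21 (L l54 (L l239 (L l498 (T t31 N)))))))))) (K a15 (M a192 (F (T t1800 (L l483 (T t27 (L l325 (T t20 N))))))) N)))))))))))))))⟩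
def e0_63__215_150 : Ent 4 := ⟨[a0, a63], [a215, a239], (M a48 (F (T t1 (T t2 (L l397 (T t3 (L l404 (T t0 (K a16 (M a60 (F (T t64 (L l14 (L l18 (L l350 (T t67 (L l349 (T t65 N))))))))) (K a32 (M a170 (F (L l256 (T t439 (L l350 (T t514 (L l256 (T t580 N)))))))) (K a21 (M a192 (F (T t27 (L l47 (L l289 (L l347 (T t20 (L l47 (L l245 (L l289 (L l347 (L l404 (T t29 N))))))))))))) (K a37 (M a192 (F (T t837 (L l47 (L l289 (T t20 (L l289 (L l295 (T t21 N))))))))) (K a53 (M a192 (F (T t27 (L l289 (L l295 (L l491 (T t21 (L l239 (T t31 N))))))))) (K a26 (M a192 (F (T t27 (L l289 (T t20 (L l289 (L l295 (T t21 N)))))))) (K a42 (M a192 (F (T t837 (L l289 (T t20 (L l28 (L l245 (L l289 (L l404 (T t29 N)))))))))) (K a58 (M a192 (F (T t837 (L l289 (L l295 (T t21 (L l54 (L l239 (L l498 (T t31 N)))))))))) (K a15 (M a192 (F (T t1800 (L l483 (T t27 (L l289 (L l325 (T t20 N)))))))) N)))))))))))))))))⟩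
def e0_63__215_151 : Ent 4 := ⟨[a0, a63], [a215, a252], (M a48 (F (T t48 (L l471 (T t1 (L l471 (T t2 (L l471 (T t3 (L l471 (T t0 (K a16 (M a60 (F (T t138 (L l14 (L l18 (L l350 (L l477 (T t67 (L l349 (T t65 N)))))))))) (K a32 (M a60 (F (T t236 (L l350 (L l477 (T t67 (L l24 (L l28 (L l349 (T t65 N)))))))))) (K a21 (M a192 (F (T t54 (L l262 (T t27 (L l47 (L l245 (L l347 (T t29 N))))))))) (K a37 (M a192 (F (T t54 (L l262 (T t27 (L l261 (L l295 (T t21 N)))))))) (K a53 (M a192 (F (T t55 (L l261 (L l295 (L l491 (T t21 (L l239 (T t31 N))))))))) (K a26 (M a192 (F (T t56 (L l262 (T t27 (L l261 (L l295 (T t21 N)))))))) (K a42 (M a192 (F (T t56 (L l262 (T t27 (L l28 (L l245 (T t29 N)))))))) (K a58 (M a192 (F (T t57 (L l262 (T t27 (L l54 (L l239 (L l498 (T t31 N))))))))) (K a15 (M a192 (L l471 (F (T t1800 (L l262 (L l483 (T t27 (L l291 (L l325 (T t20 (K a173 (M a94 (F (T t47 (L l291 (L l325 (T t22 (L l262 (L l483 (T t28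 N))))))))) (K a94 (M a173 (F (T t47 (L l291 (L l325 (T t22 (L l262 (L l483 (T t28 N))))))))) N)))))))))))) N))))))))))))))))))))⟩
def e0_63__215_152 : Ent 4 := ⟨[a0, a63], [a215, a253], (M a48 (F (T t1 (T t2 (T t3 (T t0 (K a16 (M a60 (F (T t42 (L l14 (L l18 (L l350 (T t67 (L l349 (T t65 N))))))))) (K a32 (M a60 (F (T t42 (L l350 (T t67 (L l24 (L l28 (L l349 (T t65 N))))))))) (K a21 (M a192 (F (T t837 (L l47 (L l347 (T t20 (L l47 (L l245 (L l347 (T t29 N)))))))))) (K a37 (M a192 (F (T t19 (L l47 (T t20 (L l261 (L l295 (T t21 N)))))))) (K a53 (M a192 (F (T t19 (L l261 (L l295 (L l491 (T t21 (L l239 (L l293 (T t31 N)))))))))) (K a26 (M a192 (F (T t837 (T t20 (L l261 (L l295 (T t21 N))))))) (K a42 (M a192 (F (T t19 (T t20 (L l28 (L l245 (T t29 N))))))) (K a58 (M a192 (F (T t19 (L l261 (L l295 (T t21 (L l54 (L l239 (L l293 (L l498 (T t31 N))))))))))) (K a15 (M a192 (F (T t1800 (L l483 (T t27 (L l325 (T t20 N)))))))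 N)))))))))))))))⟩
def e0_63__215_153 : Ent 4 := ⟨[a0, a63], [a215, a254], (M a48 (F (T t1 (T t2 (T t3 (T t0 (K a16 (M a60 (F (T t42 (L l14 (L l18 (L l350 (T t67 (L l349 (T t65 N))))))))) (K a32 (M a60 (F (T t42 (L l350 (T t67 (L l24 (L l28 (L l349 (T t65 N))))))))) (K a21 (M a192 (F (T t837 (L l47 (L l347 (T t20 (L l47 (L l245 (L l347 (T t29 N)))))))))) (K a37 (M a192 (F (T t19 (L l47 (T t20 (L l261 (L l295 (T t21 N)))))))) (K a53 (M a192 (F (T t19 (L l261 (L l295 (L l491 (T t21 (L l239 (T t31 N))))))))) (K a26 (M a192 (F (T t837 (T t20 (L l261 (L l295 (T t21 N))))))) (K a42 (M a192 (F (T t19 (T t20 (L l28 (L l245 (T t29 N))))))) (K a58 (M a192 (F (T t19 (L l261 (L l295 (T t21 (L l54 (L l239 (L l498 (T t31 N)))))))))) (K a15 (M a192 (F (T t47 (L l483 (T t27 (L l325 (T t20 N))))))) N)))))))))))))))⟩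
def e0_63__215_154 : Ent 4 := ⟨[a0, a63], [a215, a255], (M a48 (L l295 (F (T t48 (L l469 (T t1 (L l469 (T t2 (L l469 (T t3 (L l469 (T t0 (K a16 (M a61 (L l295 (F (T t4856 (L l439 (T t262 (L l10 (T t530 (K a195 (M a235 (F (T t4856 (L l439 (L l487 (T t262 (L l10 (T t530 N)))))))) (K a235 (M a195 (F (T t531 (T t5613 N)))) N)))))))))) (K a32 (M a61 (L l295 (F (T t5612 (L l28 (L l475 (T t505 (L l28 (T t530 (K a195 (M a235 (F (T t5612 (L l28 (L l307 (L l475 (T t505 (L l28 (T t530 N))))))))) (K a235 (M a195 (F (T t5612 (L l28 (T t5613 N))))) N))))))))))) (K a21 (M a192 (L l295 (F (T t2113 (L l47 (L l289 (L l347 (T t20 (L l47 (L l245 (L l289 (L l347 (T t29 (K a195 (M a235 (F (T t54 (L l266 (L l273 (T t28 (L l47 (L l245 (L l289 (L l347 (T t29 N))))))))))) (K a235 (M a195 (F (T t6250 (L l391 (L l434 (T t2655 N)))))) N))))))))))))))) (K a37 (M a192 (L l295 (F (T t54 (L l266 (T t27 (L l28 (L l47 (L l245 (L l289 (T t29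 (K a195 (M a235 (F (T t54 (L l28 (L l266 (L l273 (T t28 (L l28 (L l47 (L l245 (L l289 (T t29 N)))))))))))) (K a235 (M a195 (F (T t54 (L l475 (T t6251 N))))) N))))))))))))) (K a53 (M a12 (L l295 (F (T t145 (L l47 (L l439 (T t122 (L l47 (T t146 (K a195 (M a235 (F (T t1252 (L l434 (L l518 (T t445 (L l47 (T t146 N)))))))) (K a235 (M a195 (F (T t6252 (T t3324 N)))) N))))))))))) (K a26 (M a192 (L l295 (F (T t2113 (L l289 (T t20 (L l245 (L l289 (T t29 (K a195 (M a235 (F (T t56 (L l266 (L l273 (T t28 (L l245 (L l289 (T t29 N))))))))) (K a235 (M a195 (F (T t5620 (L l391 (L l434 (T t2655 N)))))) N))))))))))) (K a42 (M a192 (L l295 (F (T t56 (L l266 (T t27 (L l28 (L l245 (L l289 (T t29 (K a195 (M a235 (F (T t36 (L l235 (L l289 (L l390 (T t22 (L l28 (L l245 (L l289 (T t29 N))))))))))) (K a235 (M a195 (F (T t6253 (L l390 (L l391 (L l434 (T t2655 N))))))) N)))))))))))) (K a58 (M a12 (L l295 (F (T t145 (L l439 (T t122 (T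 t146 (K a195 (M a235 (F (T t150 (L l434 (L l518 (T t445 (T t146 N))))))) (K a235 (M a195 (F (T t6252 (L l54 (T t3324 N))))) N))))))))) (K a15 (M a192 (L l295 (L l469 (F (T t54 (L l266 (L l483 (T t27 (L l245 (L l289 (T t29 (K a195 (M a235 (L l337 (L l469 (F (T t1922 (L l235 (L l289 (L l325 (T t22 (L l245 (L l289 (T t29 (K a135 (M a75 (L l469 (F (T t1922 (L l235 (L l289 (L l325 (T t22 (L l245 (L l289 (T t29 (K a95 (M a175 (F (T t53 (L l266 (L l273 (L l483 (T t28 (L l245 (L l289 (L l361 (T t29 N))))))))))) (K a175 (M a95 (F (T t53 (L l266 (L l273 (L l483 (T t28 (L l245 (L l289 (T t29 N)))))))))) N))))))))))))) (K a75 (M a135 (L l469 (F (T t1922 (L l235 (L l289 (L l325 (T t22 (L l245 (L l289 (T t29 (K a95 (M a175 (F (T t53 (L l266 (L l273 (L l483 (T t28 (L l245 (L l289 (L l361 (T t29 N))))))))))) (K a175 (M a95 (F (T t53 (L l266 (L l273 (L l483 (T t28 (L l245 (L l289 (T t29 N)))))))))) N))))))))))))) (K a95 (M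 a175 (L l337 (F (T t53 (L l266 (L l273 (L l483 (T t28 (L l245 (L l289 (L l361 (T t29 (K a135 (M a75 (F (T t53 (L l266 (L l273 (L l483 (T t28 (L l245 (L l289 (L l361 (T t29 N))))))))))) (K a75 (M a135 (F (T t53 (L l266 (L l273 (L l483 (T t28 (L l245 (L l289 (L l361 (T t29 N))))))))))) N)))))))))))))) (K a175 (M a95 (L l337 (F (T t53 (L l266 (L l273 (L l483 (T t28 (L l245 (L l289 (T t29 (K a135 (M a75 (F (T t53 (L l266 (L l273 (L l483 (T t28 (L l245 (L l289 (T t29 N)))))))))) (K a75 (M a135 (F (T t53 (L l266 (L l273 (L l483 (T t28 (L l245 (L l289 (T t29 N)))))))))) N))))))))))))) N)))))))))))))))) (K a235 (M a195 (L l469 (F (T t36 (L l63 (L l391 (L l434 (T t2653 (K a95 (M a175 (F (T t36 (L l63 (L l391 (L l434 (T t2653 N))))))) (K a175 (M a95 (F (T t36 (L l63 (L l391 (L l434 (T t2653 N))))))) N)))))))))) (K a95 (M a175 (L l295 (F (T t53 (L l266 (L l483 (T t28 (L l245 (L l289 (L l361 (T t29 (K a195 (M a235 (L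 l337 (F (T t53 (L l266 (L l273 (L l483 (T t28 (L l245 (L l289 (L l361 (T t29 (K a135 (M a75 (F (T t53 (L l266 (L l273 (L l483 (T t28 (L l245 (L l289 (L l361 (T t29 N))))))))))) (K a75 (M a135 (F (T t53 (L l266 (L l273 (L l483 (T t28 (L l245 (L l289 (L l361 (T t29 N))))))))))) N)))))))))))))) (K a235 (M a195 (F (T t36 (L l63 (L l391 (L l434 (T t2653 N))))))) N))))))))))))) (K a175 (M a95 (L l295 (F (T t53 (L l266 (L l483 (T t28 (L l245 (L l289 (T t29 (K a195 (M a235 (L l337 (F (T t53 (L l266 (L l273 (L l483 (T t28 (L l245 (L l289 (T t29 (K a135 (M a75 (F (T t53 (L l266 (L l273 (L l483 (T t28 (L l245 (L l289 (T t29 N)))))))))) (K a75 (M a135 (F (T t53 (L l266 (L l273 (L l483 (T t28 (L l245 (L l289 (T t29 N)))))))))) N))))))))))))) (K a235 (M a195 (F (T t36 (L l63 (L l391 (L l434 (T t2653 N))))))) N)))))))))))) N))))))))))))))) (K a195 (M a235 (F (T t48 (L l337 (L l469 (T t1 (L l337 (L l469 (T t2 (L l337 (L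 l469 (T t3 (L l337 (L l469 (T t0 (K a16 (M a60 (F (T t662 (L l439 (L l487 (T t42 (L l14 (L l18 (L l350 (T t44 N)))))))))) (K a32 (M a60 (F (T t236 (L l28 (L l307 (L l475 (T t69 (L l350 (T t44 N))))))))) (K a21 (M a192 (F (T t54 (L l266 (L l273 (T t28 (L l47 (L l245 (L l289 (L l347 (T t29 N))))))))))) (K a37 (M a192 (F (T t54 (L l28 (L l266 (L l273 (T t28 (L l28 (L l47 (L l245 (L l289 (T t29 N)))))))))))) (K a53 (M a106 (F (L l491 (T t2289 (L l47 (L l297 (L l349 (T t5303 N)))))))) (K a26 (M a192 (F (T t56 (L l266 (L l273 (T t28 (L l245 (L l289 (T t29 N))))))))) (K a42 (M a192 (F (T t36 (L l235 (L l289 (L l390 (T t22 (L l28 (L l245 (L l289 (T t29 N))))))))))) (K a58 (M a12 (F (T t150 (L l434 (L l518 (T t445 (T t146 N))))))) (K a15 (M a170 (L l337 (L l469 (F (L l289 (T t3070 (L l7 (L l307 (L l350 (L l475 (L l518 (T t5304 (K a135 (M a75 (L l469 (F (L l289 (T t3070 (L l7 (L l307 (L l350 (L l475 (L l518 (T t5304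 (K a95 (M a175 (F (L l289 (T t3070 (L l7 (L l307 (L l350 (L l475 (L l518 (T t5304 N)))))))))) (K a175 (M a95 (F (L l350 (L l518 (T t5305 (L l296 (T t580 N))))))) N))))))))))))) (K a75 (M a135 (L l469 (F (L l289 (T t3070 (L l7 (L l133 (L l307 (L l350 (L l475 (L l518 (T t5304 (K a95 (M a175 (F (L l289 (T t3070 (L l7 (L l133 (L l307 (L l350 (L l475 (L l518 (T t5304 N))))))))))) (K a175 (M a95 (F (L l133 (L l350 (L l518 (T t5305 (L l296 (T t580 N)))))))) N)))))))))))))) (K a95 (M a175 (L l337 (F (L l289 (T t3070 (L l7 (L l307 (L l350 (L l475 (L l518 (T t5304 (K a135 (M a75 (F (L l289 (T t3070 (L l7 (L l307 (L l350 (L l475 (L l518 (T t5304 N)))))))))) (K a75 (M a135 (F (L l289 (T t3070 (L l7 (L l133 (L l307 (L l350 (L l475 (L l518 (T t5304 N))))))))))) N))))))))))))) (K a175 (M a95 (L l337 (F (L l350 (L l518 (T t5305 (L l296 (T t580 (K a135 (M a75 (F (L l350 (L l518 (T t5305 (L l296 (T t580 N))))))) (K a75 (M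 a135 (F (L l133 (L l350 (L l518 (T t5305 (L l296 (T t580 N)))))))) N)))))))))) N)))))))))))))))) N)))))))))))))))))))))))) (K a235 (M a195 (F (T t610 (L l265 (T t5633 (K a16 (M a192 (F (T t6250 (L l391 (L l434 (T t2655 N)))))) (K a32 (M a192 (F (T t6254 (L l391 (L l434 (T t2655 N)))))) N))))))) N)))))))))))))))))))))))⟩
def b0_63__215 : Blk 4 := ⟨[0, 63], [215], [1, 2, 3, 4, 5, 6, 7, 8, 9, 10, 11, 12, 13, 14, 15, 20, 22, 23, 24, 25, 26, 27, 28, 29, 30, 31, 40, 41, 43, 44, 45, 46, 47, 60, 61, 62, 64, 65, 66, 67, 68, 69, 70, 71, 72, 73, 74, 75, 76, 77, 78, 79, 84, 85, 86, 87, 88, 89, 90, 91, 92, 93, 94, 95, 104, 105, 106, 107, 108, 109, 110, 111, 124, 125, 126, 127, 128, 129, 130, 131, 132, 133, 134, 135, 136, 137, 138, 139, 140, 141, 142, 143, 148, 149, 150, 151, 152, 153, 154, 155, 156, 157, 158, 159, 168, 169, 170, 171, 172, 173, 174, 175, 188, 189, 190, 191, 192, 193, 194, 195, 196, 197, 198, 199, 200,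 201, 202, 203, 204, 205, 206, 207, 212, 213, 214, 216, 217, 218, 219, 220, 221, 222, 223, 232, 233, 234, 235, 236, 237, 238, 239, 252, 253, 254, 255], [e0_63__215_0, e0_63__215_1, e0_63__215_2, e0_63__215_3, e0_63__215_4, e0_63__215_5, e0_63__215_6, e0_63__215_7, e0_63__215_8, e0_63__215_9, e0_63__215_10, e0_63__215_11, e0_63__215_12, e0_63__215_13, e0_63__215_14, e0_63__215_15, e0_63__215_16, e0_63__215_17, e0_63__215_18, e0_63__215_19, e0_63__215_20, e0_63__215_21, e0_63__215_22, e0_63__215_23, e0_63__215_24, e0_63__215_25, e0_63__215_26, e0_63__215_27, e0_63__215_28, e0_63__215_29, e0_63__215_30, e0_63__215_31, e0_63__215_32, e0_63__215_33, e0_63__215_34, e0_63__215_35, e0_63__215_36, e0_63__215_37, e0_63__215_38, e0_63__215_39, e0_63__215_40, e0_63__215_41, e0_63__215_42, e0_63__215_43, e0_63__215_44, e0_63__215_45, e0_63__215_46, e0_63__215_47, e0_63__215_48, e0_63__215_49, e0_63__215_50, e0_63__215_51,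 e0_63__215_52, e0_63__215_53, e0_63__215_54, e0_63__215_55, e0_63__215_56, e0_63__215_57, e0_63__215_58, e0_63__215_59, e0_63__215_60, e0_63__215_61, e0_63__215_62, e0_63__215_63, e0_63__215_64, e0_63__215_65, e0_63__215_66, e0_63__215_67, e0_63__215_68, e0_63__215_69, e0_63__215_70, e0_63__215_71, e0_63__215_72, e0_63__215_73, e0_63__215_74, e0_63__215_75, e0_63__215_76, e0_63__215_77, e0_63__215_78, e0_63__215_79, e0_63__215_80, e0_63__215_81, e0_63__215_82, e0_63__215_83, e0_63__215_84, e0_63__215_85, e0_63__215_86, e0_63__215_87, e0_63__215_88, e0_63__215_89, e0_63__215_90, e0_63__215_91, e0_63__215_92, e0_63__215_93, e0_63__215_94, e0_63__215_95, e0_63__215_96, e0_63__215_97, e0_63__215_98, e0_63__215_99, e0_63__215_100, e0_63__215_101, e0_63__215_102, e0_63__215_103, e0_63__215_104, e0_63__215_105, e0_63__215_106, e0_63__215_107, e0_63__215_108, e0_63__215_109, e0_63__215_110, e0_63__215_111, e0_63__215_112,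 e0_63__215_113, e0_63__215_114, e0_63__215_115, e0_63__215_116, e0_63__215_117, e0_63__215_118, e0_63__215_119, e0_63__215_120, e0_63__215_121, e0_63__215_122, e0_63__215_123, e0_63__215_124, e0_63__215_125, e0_63__215_126, e0_63__215_127, e0_63__215_128, e0_63__215_129, e0_63__215_130, e0_63__215_131, e0_63__215_132, e0_63__215_133, e0_63__215_134, e0_63__215_135, e0_63__215_136, e0_63__215_137, e0_63__215_138, e0_63__215_139, e0_63__215_140, e0_63__215_141, e0_63__215_142, e0_63__215_143, e0_63__215_144, e0_63__215_145, e0_63__215_146, e0_63__215_147, e0_63__215_148, e0_63__215_149, e0_63__215_150, e0_63__215_151, e0_63__215_152, e0_63__215_153, e0_63__215_154], by decide +kernel, by decide +kernel⟩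

end Pool.Agent.Lib_TTT.K4
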