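import Pool.Agent.Lib_TTT.K4Base
import Pool.Agent.Lib_TTT.K4T00
import Pool.Agent.Lib_TTT.K4T01
import Pool.Agent.Lib_TTT.K4T02
import Pool.Agent.Lib_TTT.K4T03
import Pool.Agent.Lib_TTT.K4T04
import Pool.Agent.Lib_TTT.K4T05
import Pool.Agent.Lib_TTT.K4T06
import Pool.Agent.Lib_TTT.K4T07

/-! Certificates in `4^4`. -/

set_option autoImplicit false
set_option maxRecDepth 200000

namespace Pool.Agent.Lib_TTT.K4

open Lib_TTT AC DC

def e0_63__219_0 : Ent 4 := ⟨[a0, a63], [a219, a1], (M a85 (F (T t88 (L l65 (T t52 (T t89 (T t90 (K a64 (M a12 (F (T t124 (T t572 N)))) (K a192 (M a16 (F (T t504 (L l245 (L l329 (T t96 (L l245 (L l296 (T t98 N))))))))) (K a21 (M a48 (L l65 (F (L l245 (T t99 (T t50 (L l47 (L l245 (T t100 (K a41 (M a61 (F (L l41 (T t262 (L l301 (L l329 (T t873 N))))))) (K a61 (M a41 (F (L l245 (T t360 (T t50 (L l35 (L l47 (L l245 (T t100 N))))))))) N))))))))))) (K a149 (M a16 (F (L l375 (T t97 (L l245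 (L l301 (L l329 (T t173 (L l170 (L l356 (T t102 N))))))))))) (K a213 (Fr a170 a255 l476 (Fr a42 a21 l68 (Fr a106 a234 l390 (Fr a192 a149 l519 (V t581))))) (K a42 (M a48 (F (T t364 (L l390 (T t50 (L l28 (L l245 (T t100 N)))))))) (K a106 (M a48 (F (T t364 (L l65 (T t1 (L l390 (T t50 N))))))) (K a170 (M a16 (F (L l390 (L l404 (T t97 (L l245 (L l390 (T t98 (L l245 (L l404 (T t113 (L l245 (L l301 (L l404 (T t174 N))))))))))))))) (K a255 (M a16 (F (T t504 (L l245 (L l289 (T t113 (L l245 (L l289 (L l296 (T t98 N)))))))))) N))))))))))))))))⟩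
def e0_63__219_1 : Ent 4 := ⟨[a0, a63], [a219, a3], (M a12 (F (T t150 (L l43 (T t122 (L l43 (T t151 (L l43 (T t152 (L l43 (T t153 (K a4 (M a85 (F (T t89 (L l333 (T t124 (T t154 N)))))) (K a8 (M a85 (F (L l475 (T t52 (L l333 (L l464 (T t124 (L l56 (T t154 N))))))))) (K a21 (M a192 (F (T t2119 (L l15 (L l301 (L l347 (L l451 (T t450 (L l15 (L l347 (T t157 N))))))))))) (K a25 (M a192 (F (T t158 (L l333 (T t156 (L l475 (T t21 N))))))) (K a29 (M a192 (F (T t159 (L l371 (L l475 (T t21 (T t160 N))))))) (K a38 (M a192 (F (T t161 (L l333 (T t156 (L l475 (T t21 N))))))) (K a42 (M a192 (F (T t161 (L l333 (T t156 (L l56 (T t157 N))))))) (K a46 (M a192 (F (T t57 (L l333 (T t156 (L l26 (L l408 (T t160 N)))))))) (K a51 (M a170 (L l43 (F (T t439 (L l439 (L l475 (T t3685 (L l283 (T t3880 (K a19 (M a35 (F (T t4159 (L l283 (T t3682 N))))) (K a35 (M a19 (F (T t4159 (L l283 (T t3682 N))))) N))))))))))) N))))))))))))))))))))⟩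
def e0_63__219_2 : Ent 4 := ⟨[a0, a63], [a219, a4], (M a85 (F (T t88 (L l50 (T t52 (T t89 (T t90 (K a64 (M a60 (F (T t114 (L l245 (T t115 N))))) (K a192 (M a16 (F (T t504 (L l245 (L l314 (T t96 (L l245 (L l296 (T t98 N))))))))) (K a21 (M a48 (L l50 (F (L l245 (T t99 (T t50 (L l47 (L l245 (T t100 (K a38 (M a55 (F (L l46 (T t1743 (L l245 (L l301 (T t261 N))))))) (K a55 (M a38 (F (L l245 (T t99 (T t50 (L l31 (L l47 (L l245 (T t100 N))))))))) N))))))))))) (K a149 (M a16 (F (L l375 (T t97 (L l245 (L l301 (L l314 (T t173 (L l170 (L l356 (T t102 N))))))))))) (K a213 (Fr a170 a255 l476 (Fr a42 a21 l68 (Fr a106 a234 l390 (Fr a192 a149 l519 (V t581))))) (K a42 (M a48 (F (T t364 (L l390 (T t50 (L l28 (L l245 (T t100 N)))))))) (K a106 (M a48 (F (T t364 (L l50 (T t1 (L l390 (T t50 N))))))) (K a170 (M a16 (F (L l390 (L l404 (T t97 (L l245 (L l390 (T t98 (L l245 (L l404 (T t113 (L l245 (L l301 (L l404 (T t174 N)))))))))))))))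 (K a255 (M a16 (F (T t504 (L l245 (L l289 (T t113 (L l245 (L l289 (L l296 (T t98 N)))))))))) N))))))))))))))))⟩
def e0_63__219_3 : Ent 4 := ⟨[a0, a63], [a219, a5], (M a85 (F (T t88 (L l47 (T t52 (T t89 (T t90 (K a64 (M a48 (F (T t50 (L l245 (T t568 N))))) (K a192 (M a48 (F (L l47 (L l339 (T t3 (L l245 (L l296 (T t99 (L l268 (T t50 N)))))))))) (K a21 (M a12 (L l47 (F (T t1368 (T t124 (L l15 (T t574 (K a37 (M a53 (F (T t124 (L l21 (L l28 (T t4160 N)))))) (K a53 (M a37 (F (T t1368 (T t124 (L l15 (T t574 N)))))) N))))))))) (K a149 (M a48 (F (L l47 (T t3 (L l245 (T t99 (L l220 (T t50 N)))))))) (K a213 (Fr a170 a255 l476 (Fr a42 a21 l68 (Fr a106 a234 l390 (Fr a192 a149 l519 (V t581))))) (K a42 (M a48 (F (T t364 (L l390 (T t50 (L l28 (L l47 (L l245 (T t100 N))))))))) (K a106 (M a48 (F (T t364 (L l47 (L l411 (T t3 (L l390 (T t50 N)))))))) (K a170 (M a4 (F (L l464 (T t130 (L l390 (T t131 (L l390 (L l464 (T t519 (L l301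 (L l464 (T t938 N)))))))))))) (K a255 (M a4 (F (T t129 (L l265 (T t130 (L l265 (L l296 (T t131 N)))))))) N))))))))))))))))⟩
def e0_63__219_4 : Ent 4 := ⟨[a0, a63], [a219, a6], (M a85 (F (T t88 (T t52 (T t89 (T t90 (K a64 (M a16 (F (T t97 (L l84 (L l245 (T t96 (L l116 (L l245 (T t98 N))))))))) (K a192 (M a16 (F (T t504 (L l245 (T t96 (L l245 (L l296 (T t98 N)))))))) (K a21 (M a48 (F (T t1243 (L l47 (L l245 (T t100 (T t50 N))))))) (K a149 (M a16 (F (L l375 (T t97 (L l245 (L l301 (T t173 (L l170 (L l356 (T t102 N)))))))))) (K a213 (Fr a170 a255 l476 (Fr a42 a21 l68 (Fr a106 a234 l390 (Fr a192 a149 l519 (V t581))))) (K a42 (M a48 (F (T t364 (L l390 (T t50 (L l28 (L l245 (T t100 N)))))))) (K a106 (M a48 (F (T t364 (L l6 (T t1 (L l390 (T t50 N))))))) (K a170 (M a16 (F (L l390 (L l404 (T t97 (L l245 (L l390 (T t98 (L l245 (L l404 (T t113 (L l245 (L l301 (L l404 (T t174 N))))))))))))))) (K a255 (M a16 (F (T t504 (L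 l245 (L l289 (T t113 (L l245 (L l289 (L l296 (T t98 N)))))))))) N)))))))))))))))⟩
def e0_63__219_5 : Ent 4 := ⟨[a0, a63], [a219, a7], (M a85 (F (T t88 (T t52 (T t89 (T t90 (K a64 (M a48 (F (T t50 (L l245 (T t568 N))))) (K a192 (M a16 (F (T t504 (L l245 (T t96 (L l245 (L l296 (T t98 N)))))))) (K a21 (M a48 (F (T t1243 (L l47 (L l245 (T t100 (T t50 N))))))) (K a149 (M a16 (F (L l1 (T t112 (L l245 (L l301 (T t173 (L l170 (L l356 (T t102 N)))))))))) (K a213 (Fr a170 a255 l476 (Fr a42 a21 l68 (Fr a106 a234 l390 (Fr a192 a149 l519 (V t581))))) (K a42 (M a48 (F (T t364 (L l390 (T t50 (L l28 (L l245 (T t100 N)))))))) (K a106 (M a48 (F (T t364 (L l7 (T t1 (L l390 (T t50 N))))))) (K a170 (M a16 (F (L l390 (L l404 (T t504 (L l245 (L l390 (T t98 (L l245 (L l404 (T t113 (L l245 (L l301 (L l404 (T t174 N))))))))))))))) (K a255 (M a16 (F (T t504 (L l245 (L l289 (T t113 (L l245 (L l289 (L l296 (T t98 N)))))))))) N)))))))))))))))⟩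
def e0_63__219_6 : Ent 4 := ⟨[a0, a63], [a219, a8], (M a85 (F (T t52 (L l56 (T t88 (L l56 (T t89 (L l464 (T t90 (K a64 (M a16 (F (L l56 (T t97 (L l84 (L l245 (T t96 (L l56 (L l116 (L l245 (T t98 N))))))))))) (K a192 (M a16 (F (L l245 (T t96 (L l56 (L l339 (T t97 (L l56 (L l245 (L l296 (T t98 N))))))))))) (K a21 (M a48 (F (L l245 (T t99 (L l464 (T t50 (L l47 (L l245 (T t100 N))))))))) (K a149 (M a16 (F (L l56 (T t112 (L l245 (L l301 (T t173 (L l56 (L l170 (L l356 (T t102 N))))))))))) (K a213 (Fr a170 a255 l476 (Fr a42 a21 l68 (Fr a106 a234 l390 (Fr a192 a149 l519 (V t581))))) (K a42 (M a59 (F (T t104 (L l390 (L l464 (T t105 (L l26 (L l316 (T t106 (L l316 (L l390 (L l464 (T t107 N))))))))))))) (K a106 (M a48 (F (T t364 (L l2 (T t1 (L l390 (L l464 (T t50 N)))))))) (K a170 (M a89 (F (L l178 (T t108 (L l56 (L l390 (T t109 (L l178 (L l283 (L l316 (T t110 (L l56 (L l178 (L l390 (T t111 N))))))))))))))) (K a255 (M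 a16 (F (L l56 (T t112 (L l245 (L l289 (T t113 (L l56 (L l245 (L l289 (L l296 (T t98 N)))))))))))) N))))))))))))))))))⟩
def e0_63__219_7 : Ent 4 := ⟨[a0, a63], [a219, a9], (M a85 (F (T t88 (T t52 (T t89 (T t90 (K a64 (M a60 (F (T t114 (L l245 (T t115 N))))) (K a192 (M a16 (F (T t504 (L l245 (T t96 (L l245 (L l296 (T t98 N)))))))) (K a21 (M a48 (F (T t1243 (L l47 (L l245 (T t100 (T t50 N))))))) (K a149 (M a16 (F (L l375 (T t97 (L l245 (L l301 (T t173 (L l170 (L l356 (T t102 N)))))))))) (K a213 (Fr a170 a255 l476 (Fr a42 a21 l68 (Fr a106 a234 l390 (Fr a192 a149 l519 (V t581))))) (K a42 (M a48 (F (T t364 (L l390 (T t50 (L l28 (L l245 (T t100 N)))))))) (K a106 (M a48 (F (T t364 (L l2 (T t1 (L l390 (T t50 N))))))) (K a170 (M a16 (F (L l390 (L l404 (T t97 (L l245 (L l390 (T t98 (L l245 (L l404 (T t113 (L l245 (L l301 (L l404 (T t174 N))))))))))))))) (K a255 (M a16 (F (T t504 (L l245 (L l289 (T t113 (L l245 (L l289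 (L l296 (T t98 N)))))))))) N)))))))))))))))⟩
def e0_63__219_8 : Ent 4 := ⟨[a0, a63], [a219, a10], (M a85 (F (T t52 (L l54 (T t88 (L l54 (T t89 (L l462 (T t90 (K a64 (M a16 (F (L l54 (T t97 (L l84 (L l245 (T t96 (L l54 (L l116 (L l245 (T t98 N))))))))))) (K a192 (M a16 (F (L l54 (L l339 (T t97 (L l245 (T t96 (L l54 (L l245 (L l296 (T t98 N))))))))))) (K a21 (M a48 (F (L l245 (T t99 (L l462 (T t50 (L l47 (L l245 (L l318 (T t100 N)))))))))) (K a149 (M a48 (F (T t364 (L l54 (L l375 (T t0 (L l220 (L l462 (T t50 N))))))))) (K a213 (Fr a170 a255 l476 (Fr a42 a21 l68 (Fr a106 a234 l390 (Fr a192 a149 l519 (V t581))))) (K a42 (M a58 (F (L l356 (T t118 (L l390 (L l462 (T t119 (L l28 (L l245 (L l318 (T t120 (L l318 (L l390 (L l462 (T t3230 N))))))))))))))) (K a106 (M a12 (F (T t122 (L l2 (L l132 (L l356 (T t123 (L l390 (L l462 (T t124 N)))))))))) (K a170 (M a90 (F (L l180 (T t125 (L l54 (L l390 (T t126 (L l180 (L l318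 (T t127 (L l54 (L l180 (L l390 (T t128 N)))))))))))))) (K a255 (M a4 (F (L l2 (L l54 (T t129 (L l2 (L l265 (T t130 (L l54 (L l265 (L l296 (T t131 N)))))))))))) N))))))))))))))))))⟩
def e0_63__219_9 : Ent 4 := ⟨[a0, a63], [a219, a11], (M a85 (F (T t88 (T t52 (T t89 (T t90 (K a64 (M a48 (F (T t50 (L l245 (T t568 N))))) (K a192 (M a16 (F (T t112 (L l245 (T t96 (L l245 (L l296 (T t98 N)))))))) (K a21 (M a48 (F (T t1243 (L l47 (L l245 (T t100 (T t50 N))))))) (K a149 (M a16 (F (T t112 (L l245 (L l301 (T t173 (L l57 (L l170 (L l356 (T t102 N)))))))))) (K a213 (Fr a170 a255 l476 (Fr a42 a21 l68 (Fr a106 a234 l390 (Fr a192 a149 l519 (V t581))))) (K a42 (M a48 (F (T t364 (L l390 (T t50 (L l28 (L l245 (T t100 N)))))))) (K a106 (M a48 (F (T t364 (L l2 (L l7 (T t1 (L l390 (T t50 N)))))))) (K a170 (M a16 (F (L l390 (L l404 (T t112 (L l245 (L l390 (T t98 (L l245 (L l404 (T t113 (L l245 (L l301 (L l404 (T t174 N)))))))))))))))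 (K a255 (M a16 (F (T t112 (L l245 (L l289 (T t113 (L l245 (L l289 (L l296 (T t98 N)))))))))) N)))))))))))))))⟩
def e0_63__219_10 : Ent 4 := ⟨[a0, a63], [a219, a12], (M a60 (F (T t116 (L l9 (T t67 (L l9 (T t43 (L l9 (T t68 (L l9 (T t69 (K a20 (M a48 (F (T t138 (L l3 (L l11 (T t1 (L l11 (T t235 N)))))))) (K a40 (M a48 (F (T t48 (L l74 (T t64 (L l52 (T t235 N))))))) (K a21 (M a192 (F (T t2647 (L l338 (L l347 (T t73 (L l245 (L l347 (T t74 N))))))))) (K a41 (M a192 (F (T t254 (L l65 (L l470 (T t35 (L l338 (T t73 N)))))))) (K a61 (M a192 (F (T t1334 (L l65 (L l470 (L l515 (T t35 (T t80 N)))))))) (K a22 (M a192 (F (T t614 (L l11 (L l466 (T t79 (L l11 (L l470 (T t35 N))))))))) (K a42 (M a192 (F (T t614 (L l466 (T t79 (L l22 (L l245 (T t74 N)))))))) (K a62 (M a192 (F (T t57 (L l466 (T t79 (L l66 (L l516 (T t80 N)))))))) (K a3 (M a84 (L l9 (F (T t2648 (T t1415 (L l470 (L l475 (L l477 (T t1416 (K a9 (M a6 (F (T t1414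 (L l70 (T t2649 N))))) (K a6 (M a9 (F (T t1414 (L l70 (L l356 (T t2650 N)))))) N))))))))))) N))))))))))))))))))))⟩
def e0_63__219_11 : Ent 4 := ⟨[a0, a63], [a219, a13], (M a85 (F (T t88 (T t52 (T t89 (T t90 (K a64 (M a48 (F (T t50 (L l245 (T t568 N))))) (K a192 (M a16 (F (T t504 (L l245 (T t96 (L l245 (L l296 (T t98 N)))))))) (K a21 (M a48 (F (T t1243 (L l47 (L l245 (T t100 (T t50 N))))))) (K a149 (M a16 (F (L l5 (T t112 (L l245 (L l301 (T t173 (L l170 (L l356 (T t102 N)))))))))) (K a213 (Fr a170 a255 l476 (Fr a42 a21 l68 (Fr a106 a234 l390 (Fr a192 a149 l519 (V t581))))) (K a42 (M a48 (F (T t364 (L l390 (T t50 (L l28 (L l245 (T t100 N)))))))) (K a106 (M a48 (F (T t364 (L l3 (T t1 (L l390 (T t50 N))))))) (K a170 (M a16 (F (L l390 (L l404 (T t504 (L l245 (L l390 (T t98 (L l245 (L l404 (T t113 (L l245 (L l301 (L l404 (T t174 N))))))))))))))) (K a255 (M a16 (F (T t504 (L l245 (L l289 (T t113 (L l245 (L l289 (L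 l296 (T t98 N)))))))))) N)))))))))))))))⟩
def e0_63__219_12 : Ent 4 := ⟨[a0, a63], [a219, a14], (M a85 (F (T t88 (T t52 (T t89 (T t90 (K a64 (M a48 (F (T t50 (L l245 (T t568 N))))) (K a192 (M a16 (F (T t112 (L l245 (T t96 (L l245 (L l296 (T t98 N)))))))) (K a21 (M a48 (F (T t1243 (L l47 (L l245 (T t100 (T t50 N))))))) (K a149 (M a16 (F (T t112 (L l245 (L l301 (T t173 (L l72 (L l170 (L l356 (T t102 N)))))))))) (K a213 (Fr a170 a255 l476 (Fr a42 a21 l68 (Fr a106 a234 l390 (Fr a192 a149 l519 (V t581))))) (K a42 (M a48 (F (T t364 (L l390 (T t50 (L l28 (L l245 (T t100 N)))))))) (K a106 (M a48 (F (T t364 (L l3 (L l6 (T t1 (L l390 (T t50 N)))))))) (K a170 (M a16 (F (L l390 (L l404 (T t112 (L l245 (L l390 (T t98 (L l245 (L l404 (T t113 (L l245 (L l301 (L l404 (T t174 N))))))))))))))) (K a255 (M a16 (F (T t112 (L l245 (L l289 (T t113 (L l245 (L l289 (L l296 (T t98 N)))))))))) N)))))))))))))))⟩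
def e0_63__219_13 : Ent 4 := ⟨[a0, a63], [a219, a15], (M a60 (F (T t116 (L l7 (T t67 (L l7 (T t43 (L l7 (T t68 (L l7 (T t69 (K a20 (M a85 (F (T t89 (L l471 (T t114 (T t1344 N)))))) (K a40 (M a85 (F (L l469 (T t52 (L l392 (L l471 (T t114 (L l22 (T t1344 N))))))))) (K a21 (M a192 (F (T t2647 (L l337 (L l347 (T t73 (L l245 (L l347 (T t74 N))))))))) (K a41 (M a192 (F (T t254 (L l65 (L l469 (T t35 (L l337 (T t73 N)))))))) (K a61 (M a192 (F (T t1334 (L l65 (L l469 (L l515 (T t35 (T t80 N)))))))) (K a22 (M a192 (F (T t614 (L l11 (L l471 (T t79 (L l11 (L l469 (T t35 N))))))))) (K a42 (M a192 (F (T t614 (L l471 (T t79 (L l22 (L l245 (T t74 N)))))))) (K a62 (M a192 (F (T t57 (L l471 (T t79 (L l66 (L l516 (T t80 N)))))))) (K a3 (M a85 (L l7 (F (T t447 (L l245 (T t115 (K a7 (M a11 (F (T t89 (L l283 (L l469 (L l475 (T t1345 (L l245 (T t523 N))))))))) (K a11 (M a7 (F (T t89 (L l283 (L l469 (L l475 (T t1345 (L l245 (T t523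 N))))))))) N)))))))) N))))))))))))))))))))⟩
def e0_63__219_14 : Ent 4 := ⟨[a0, a63], [a219, a20], (M a85 (F (T t88 (L l11 (T t52 (T t89 (T t90 (K a64 (M a16 (F (T t97 (L l84 (L l245 (T t96 (L l116 (L l245 (T t98 N))))))))) (K a192 (M a16 (F (T t112 (L l245 (T t96 (L l245 (L l296 (T t98 N)))))))) (K a21 (M a48 (L l11 (F (T t1243 (L l47 (L l245 (T t100 (T t50 (K a22 (M a23 (F (T t50 (L l19 (T t172 N))))) (K a23 (M a22 (F (T t1243 (L l47 (L l245 (T t100 (T t50 N))))))) N)))))))))) (K a149 (M a16 (F (T t112 (L l245 (L l301 (T t173 (L l170 (L l356 (T t102 N))))))))) (K a213 (Fr a170 a255 l476 (Fr a42 a21 l68 (Fr a106 a234 l390 (Fr a192 a149 l519 (V t581))))) (K a42 (M a48 (F (L l14 (T t364 (L l390 (T t50 (L l28 (L l245 (T t100 N))))))))) (K a106 (M a48 (F (L l245 (T t99 (L l11 (T t1 (L l390 (T t50 N)))))))) (K a170 (M a16 (F (L l390 (L l404 (T t97 (L l245 (L l390 (T t98 (L l245 (L l404 (T t113 (L l245 (L l301 (L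 l404 (T t174 N))))))))))))))) (K a255 (M a16 (F (T t112 (L l245 (L l289 (T t113 (L l245 (L l289 (L l296 (T t98 N)))))))))) N))))))))))))))))⟩
def e0_63__219_15 : Ent 4 := ⟨[a0, a63], [a219, a22], (M a192 (F (T t21 (L l11 (T t35 (T t202 (L l66 (T t37 (K a64 (M a48 (F (T t56 (L l11 (T t1 (L l66 (L l116 (L l144 (T t31 N))))))))) (K a128 (M a48 (F (T t54 (L l11 (T t1 (L l66 (T t31 N))))))) (K a21 (M a20 (F (T t948 (L l66 (L l245 (L l347 (T t949 (L l65 (L l347 (T t950 N)))))))))) (K a85 (M a16 (F (T t210 (L l66 (T t97 (L l16 (L l66 (L l94 (L l144 (T t211 N)))))))))) (K a149 (M a48 (F (T t837 (L l11 (L l347 (L l491 (T t1 (L l11 (L l170 (L l220 (L l347 (L l491 (T t213 (L l66 (L l375 (T t214 N)))))))))))))))) (K a42 (M a2 (F (T t1363 (L l11 (L l390 (T t1804 (L l390 (T t1365 N)))))))) (K a106 (M a48 (F (T t27 (L l11 (T t1 (L l11 (L l411 (T t213 (L l66 (L l104 (L l144 (L l390 (L l498 (T t214 N)))))))))))))) (K a170 (M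 a32 (F (T t218 (L l11 (T t219 (L l11 (L l51 (L l180 (L l220 (T t220 N)))))))))) (K a255 (M a16 (F (T t1805 (L l66 (L l469 (T t97 (L l16 (L l66 (T t211 N))))))))) N)))))))))))))))))⟩
def e0_63__219_16 : Ent 4 := ⟨[a0, a63], [a219, a23], (M a149 (F (T t5 (L l11 (T t175 (T t176 (T t177 (K a192 (M a53 (F (T t178 (L l236 (T t179 (L l236 (L l296 (T t180 N)))))))) (K a21 (M a48 (L l11 (F (T t4 (T t13 (L l18 (T t14 (K a20 (M a22 (F (T t4 (T t13 (L l14 (L l18 (T t14 N))))))) (K a22 (M a20 (F (T t4 (L l19 (L l50 (T t183 N)))))) N))))))))) (K a85 (M a16 (F (L l17 (T t97 (L l144 (T t190 (L l94 (T t278 N)))))))) (K a213 (Fr a106 a192 l519 (Fr a42 a21 l68 (Fr a170 a234 l390 (Fr a255 a85 l476 (V t582))))) (K a42 (M a48 (F (T t187 (L l390 (T t13 (L l54 (T t14 N))))))) (K a106 (M a48 (F (L l11 (T t1 (L l498 (T t14 (L l390 (L l498 (T t6 (L l245 (L l390 (T t26 N)))))))))))) (K a170 (M a48 (F (T t4 (L l11 (L l462 (T t1 (L l390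 (T t13 N)))))))) (K a191 (M a252 (F (T t940 (T t941 N)))) (K a255 (M a16 (F (T t112 (L l266 (T t190 (L l245 (L l289 (L l296 (T t191 N))))))))) N))))))))))))))))⟩
def e0_63__219_17 : Ent 4 := ⟨[a0, a63], [a219, a24], (M a85 (L l356 (F (T t88 (T t52 (T t89 (T t90 (K a64 (M a89 (F (T t6256 (L l120 (T t109 (L l283 (T t6257 N))))))) (K a192 (M a154 (F (L l245 (T t6258 (L l245 (L l296 (T t2294 (L l296 (L l484 (T t6027 (L l245 (T t1711 N)))))))))))) (K a21 (M a240 (L l356 (F (T t1384 (L l70 (T t933 (T t1385 (K a89 (M a154 (F (L l147 (T t6259 (L l371 (T t2804 N)))))) (K a154 (M a89 (F (T t1384 (T t6260 N)))) N))))))))) (K a149 (M a29 (L l356 (F (T t2091 (L l220 (T t2092 (L l12 (L l167 (T t2093 (K a89 (M a154 (F (T t2091 (L l147 (L l491 (T t6259 N)))))) (K a154 (M a89 (L l170 (F (T t2091 (L l202 (L l206 (L l220 (T t6261 (K a144 (M a159 (F (T t2091 (L l206 (L l220 (L l227 (T t6262 N))))))) (K a159 (M a144 (F (T t2091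 (L l202 (L l206 (L l220 (T t6261 N))))))) N)))))))))) N))))))))))) (K a213 (Fr a170 a255 l476 (Fr a42 a21 l68 (Fr a106 a234 l390 (Fr a192 a149 l519 (V t581))))) (K a42 (M a240 (L l356 (F (T t1384 (L l70 (L l390 (T t386 (T t1385 (K a89 (M a154 (F (T t3104 (L l28 (L l245 (T t1705 N)))))) (K a154 (M a89 (F (T t1384 (T t6260 N)))) N)))))))))) (K a106 (M a89 (F (L l70 (T t6263 (L l390 (T t109 (L l283 (L l408 (T t6257 (L l70 (T t108 N))))))))))) (K a170 (M a89 (F (L l390 (T t109 (L l70 (L l178 (L l283 (T t110 (L l52 (L l390 (T t4171 (L l70 (L l178 (T t108 N)))))))))))))) (K a255 (M a154 (F (L l296 (T t4234 (L l245 (L l289 (T t1705 (L l245 (L l289 (T t1711 (L l245 (L l289 (L l296 (T t2294 (L l296 (T t6264 N)))))))))))))))) (K a89 (M a154 (F (T t52 (L l14 (L l464 (T t6265 (T t4234 N))))))) (K a154 (M a89 (F (T t52 (L l206 (L l283 (T t6266 (T t6267 N))))))) N))))))))))))))))))⟩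
def e0_63__219_18 : Ent 4 := ⟨[a0, a63], [a219, a25], (M a192 (F (T t21 (L l15 (T t35 (T t202 (L l56 (T t37 (K a64 (M a48 (F (T t56 (L l15 (T t1 (L l56 (L l116 (L l144 (T t31 N))))))))) (K a128 (M a48 (F (T t54 (L l15 (T t1 (L l56 (T t31 N))))))) (K a21 (M a17 (F (T t4225 (L l56 (L l347 (T t208 (L l56 (T t209 N)))))))) (K a85 (M a16 (F (T t210 (L l56 (T t97 (L l12 (L l56 (L l94 (L l144 (T t211 N)))))))))) (K a149 (M a48 (F (T t837 (L l15 (L l347 (L l491 (T t1 (L l15 (L l170 (L l220 (L l347 (L l491 (T t213 (L l56 (L l375 (T t214 N)))))))))))))))) (K a42 (M a8 (F (T t215 (L l15 (L l283 (L l390 (T t1807 (L l15 (L l301 (T t217 N)))))))))) (K a106 (M a48 (F (T t27 (L l15 (T t1 (L l15 (L l411 (T t213 (L l56 (L l104 (L l144 (L l390 (L l498 (T t214 N)))))))))))))) (K a170 (M a32 (F (T t218 (L l15 (T t219 (L l15 (L l71 (L l180 (L l220 (T t220 N)))))))))) (K a255 (M a16 (F (T t1805 (L l56 (L l469 (T t97 (L l12 (L l56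 (T t211 N))))))))) N)))))))))))))))))⟩
def e0_63__219_19 : Ent 4 := ⟨[a0, a63], [a219, a27], (M a85 (L l355 (F (T t88 (T t52 (T t89 (T t90 (K a64 (M a16 (L l355 (F (T t112 (L l84 (L l245 (T t96 (L l116 (L l245 (T t98 (K a91 (M a155 (F (T t112 (L l93 (L l149 (L l356 (T t4227 N))))))) (K a155 (M a91 (F (L l84 (T t1924 (L l12 (L l169 (T t2764 N))))))) N)))))))))))) (K a192 (M a16 (L l355 (F (T t1924 (L l17 (L l73 (L l339 (T t97 (L l245 (L l296 (T t98 (K a91 (M a155 (F (T t112 (L l93 (L l149 (L l356 (T t4227 N))))))) (K a155 (M a91 (F (T t1924 (L l12 (L l169 (T t2764 N)))))) N))))))))))))) (K a21 (M a195 (L l355 (F (T t2230 (L l55 (L l245 (T t2035 (T t910 (K a91 (M a155 (F (T t2230 (L l55 (L l73 (L l373 (T t4391 N))))))) (K a155 (M a91 (F (T t2230 (L l17 (L l18 (L l73 (L l499 (T t6268 N)))))))) N)))))))))) (K a149 (M a16 (L l355 (F (T t112 (L l245 (L l301 (T t173 (L l12 (L l170 (L l356 (T t102 (K a91 (M a155 (F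 (T t112 (L l93 (L l149 (L l170 (L l356 (T t4227 N)))))))) (K a155 (M a91 (F (L l220 (T t1924 (L l12 (L l163 (L l169 (T t2764 N)))))))) N))))))))))))) (K a213 (Fr a170 a255 l476 (Fr a42 a21 l68 (Fr a106 a234 l390 (Fr a192 a149 l519 (V t581))))) (K a42 (M a195 (L l355 (F (T t883 (L l390 (T t2158 (T t910 (K a91 (M a155 (F (T t902 (L l55 (L l56 (L l73 (L l373 (T t4391 N)))))))) (K a155 (M a91 (F (T t2232 (L l17 (L l73 (L l499 (T t6268 N))))))) N))))))))) (K a106 (M a48 (L l355 (F (T t364 (L l73 (T t1 (L l390 (T t50 (K a91 (M a155 (F (T t364 (L l73 (L l481 (T t1 (L l390 (T t50 N)))))))) (K a155 (M a91 (F (T t364 (L l73 (T t1 (L l390 (T t50 N))))))) N)))))))))) (K a170 (M a17 (L l355 (F (L l402 (T t2281 (L l390 (T t2205 (L l390 (L l402 (T t1279 (L l55 (L l402 (T t2279 (K a91 (M a155 (F (L l390 (T t2205 (L l283 (L l301 (L l402 (T t4247 N)))))))) (K a155 (M a91 (F (L l402 (T t2281 (L l390 (T t2205 (L l390 (L l402 (T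 t1279 (L l55 (L l402 (L l499 (T t2279 N))))))))))))) N))))))))))))))) (K a255 (M a5 (L l355 (F (T t5073 (L l17 (L l266 (T t1402 (L l266 (L l296 (T t2817 (K a91 (M a155 (F (T t5073 (L l17 (L l266 (L l373 (T t1402 (L l266 (L l296 (T t2817 N)))))))))) (K a155 (M a91 (F (L l225 (T t6269 (L l266 (L l296 (T t2817 N))))))) N)))))))))))) (K a91 (M a155 (F (T t88 (T t52 (T t89 (T t90 (K a64 (M a16 (F (T t112 (L l93 (L l149 (L l356 (T t4227 N))))))) (K a192 (M a16 (F (T t112 (L l93 (L l149 (L l356 (T t4227 N))))))) (K a21 (M a154 (F (T t4244 (L l47 (L l245 (T t1705 N)))))) (K a149 (M a16 (F (T t112 (L l93 (L l149 (L l170 (L l356 (T t4227 N)))))))) (K a213 (Fr a170 a255 l476 (Fr a42 a21 l68 (Fr a106 a234 l390 (Fr a192 a149 l519 (V t581))))) (K a42 (M a48 (F (L l390 (T t50 (L l26 (L l28 (L l245 (T t4233 N)))))))) (K a106 (M a153 (F (T t4245 (L l102 (L l390 (T t4246 N)))))) (K a170 (M a17 (F (L l390 (T t2205 (L l283 (L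 l301 (L l402 (T t4247 N)))))))) (K a255 (M a153 (F (T t4245 (L l296 (T t4248 N))))) N))))))))))))))) (K a155 (M a91 (F (T t88 (T t52 (T t89 (T t90 (K a64 (M a16 (F (L l84 (T t1924 (L l12 (L l169 (T t2764 N))))))) (K a192 (M a16 (F (T t1924 (L l12 (L l169 (T t2764 N)))))) (K a21 (M a93 (F (T t6270 (L l15 (T t3675 N))))) (K a149 (M a16 (F (L l220 (T t1924 (L l12 (L l163 (L l169 (T t2764 N)))))))) (K a213 (Fr a170 a255 l476 (Fr a42 a21 l68 (Fr a106 a234 l390 (Fr a192 a149 l519 (V t581))))) (K a42 (M a89 (F (T t6271 (T t6260 N)))) (K a106 (M a89 (F (T t6272 (L l283 (L l408 (T t6257 N)))))) (K a170 (M a89 (F (T t6272 (L l390 (T t4171 N))))) (K a255 (M a5 (F (L l225 (T t6269 (L l266 (L l296 (T t2817 N))))))) N))))))))))))))) N))))))))))))))))))⟩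
def e0_63__219_20 : Ent 4 := ⟨[a0, a63], [a219, a28], (M a85 (F (T t88 (T t52 (T t89 (T t90 (K a64 (M a48 (F (T t50 (L l245 (L l362 (T t568 N)))))) (K a192 (M a16 (F (T t112 (L l245 (L l362 (T t96 (L l245 (L l296 (L l362 (T t98 N)))))))))) (K a21 (M a48 (F (T t1243 (L l47 (L l245 (L l362 (T t100 (T t50 N)))))))) (K a149 (M a16 (F (T t112 (L l245 (L l301 (L l362 (T t173 (L l170 (L l356 (T t102 N)))))))))) (K a213 (Fr a170 a255 l476 (Fr a42 a21 l68 (Fr a106 a234 l390 (Fr a192 a149 l519 (V t581))))) (K a42 (M a48 (F (L l14 (T t364 (L l390 (T t50 (L l28 (L l245 (L l362 (T t100 N)))))))))) (K a106 (M a48 (F (T t1 (L l104 (L l245 (L l362 (T t509 (L l390 (T t50 N))))))))) (K a170 (M a16 (F (L l390 (L l404 (T t112 (L l245 (L l362 (L l390 (T t98 (L l245 (L l362 (L l404 (T t113 (L l245 (L l301 (L l362 (L l404 (T t174 N)))))))))))))))))) (K a255 (M a16 (F (T t112 (L l245 (L l289 (L l362 (T t113 (L l245 (L l289 (L l296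 (L l362 (T t98 N)))))))))))) N)))))))))))))))⟩
def e0_63__219_21 : Ent 4 := ⟨[a0, a63], [a219, a29], (M a149 (F (T t5 (L l15 (T t175 (T t176 (T t177 (K a192 (M a53 (F (T t178 (L l236 (T t179 (L l236 (L l296 (T t180 N)))))))) (K a21 (M a48 (L l15 (F (T t4 (T t13 (L l18 (T t14 (K a17 (M a25 (F (T t4 (T t13 (L l10 (L l18 (T t14 N))))))) (K a25 (M a17 (F (T t4 (L l19 (L l65 (T t642 N)))))) N))))))))) (K a85 (M a16 (F (L l13 (T t97 (L l144 (T t190 (L l94 (T t278 N)))))))) (K a213 (Fr a106 a192 l519 (Fr a42 a21 l68 (Fr a170 a234 l390 (Fr a255 a85 l476 (V t582))))) (K a42 (M a48 (F (T t187 (L l390 (T t13 (L l54 (T t14 N))))))) (K a106 (M a48 (F (L l15 (T t1 (L l498 (T t14 (L l390 (L l498 (T t6 (L l245 (L l390 (T t26 N)))))))))))) (K a170 (M a48 (F (T t4 (L l15 (L l462 (T t1 (L l390 (T t13 N)))))))) (K a191 (M a16 (F (T t112 (T t190 (L l213 (L l245 (T t191 N))))))) (K a255 (M a16 (F (T t112 (L l266 (T t190 (L l245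 (L l289 (L l296 (T t191 N))))))))) N))))))))))))))))⟩
def e0_63__219_22 : Ent 4 := ⟨[a0, a63], [a219, a30], (M a149 (F (T t5 (T t175 (T t176 (T t177 (K a192 (M a53 (F (T t178 (L l236 (T t179 (L l236 (L l296 (T t180 N)))))))) (K a21 (M a48 (F (T t4 (T t13 (L l18 (T t14 N)))))) (K a85 (M a16 (F (L l455 (T t112 (L l144 (T t190 (L l16 (L l94 (L l372 (T t278 N)))))))))) (K a213 (Fr a106 a192 l519 (Fr a42 a21 l68 (Fr a170 a234 l390 (Fr a255 a85 l476 (V t582))))) (K a42 (M a48 (F (T t187 (L l390 (T t13 (L l54 (T t14 N))))))) (K a106 (M a48 (F (T t48 (L l498 (T t14 (L l390 (L l498 (T t6 (L l245 (L l390 (T t26 N))))))))))) (K a170 (M a48 (F (T t4 (L l63 (L l462 (T t1 (L l390 (T t13 N)))))))) (K a191 (M a12 (F (T t648 (L l60 (T t960 N))))) (K a255 (M a16 (F (T t112 (L l266 (T t190 (L l245 (L l289 (L l296 (T t191 N))))))))) N)))))))))))))))⟩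
def e0_63__219_23 : Ent 4 := ⟨[a0, a63], [a219, a31], (M a149 (F (T t5 (L l18 (T t175 (T t176 (T t177 (K a192 (M a29 (F (T t956 (L l272 (L l283 (T t641 (L l272 (L l296 (L l363 (T t957 N)))))))))) (K a21 (M a12 (L l18 (F (T t958 (T t648 (L l50 (L l283 (T t649 (K a16 (M a26 (F (T t958 (T t648 (L l50 (L l283 (T t649 N))))))) (K a26 (M a16 (F (T t958 (L l50 (L l57 (T t652 N)))))) N)))))))))) (K a85 (M a48 (F (T t4 (L l18 (T t1 (L l144 (T t13 N))))))) (K a213 (Fr a106 a192 l519 (Fr a42 a21 l68 (Fr a170 a234 l390 (Fr a255 a85 l476 (V t582))))) (K a42 (M a48 (F (T t11 (L l390 (T t13 (L l18 (L l54 (T t14 N)))))))) (K a106 (M a12 (F (L l18 (L l501 (T t152 (L l283 (L l408 (T t649 (L l390 (L l408 (T t960 (L l390 (T t961 N))))))))))))) (K a170 (M a48 (F (T t4 (L l18 (L l462 (T t1 (L l390 (T t13 N)))))))) (K a191 (M a240 (F (T t1091 (T t963 N)))) (K a255 (M a48 (F (T t964 (L l18 (L l469 (T t1 (L l266 (T t13 N)))))))) N))))))))))))))))⟩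
def e0_63__219_24 : Ent 4 := ⟨[a0, a63], [a219, a36], (M a85 (F (T t88 (T t52 (T t89 (T t90 (K a64 (M a60 (F (T t114 (L l24 (L l245 (T t115 N)))))) (K a192 (M a16 (F (L l24 (T t112 (L l245 (L l296 (T t666 (L l245 (L l296 (T t98 N)))))))))) (K a21 (M a48 (F (L l18 (T t364 (T t50 (L l24 (L l47 (L l245 (T t100 N))))))))) (K a149 (M a16 (F (L l24 (T t112 (L l245 (T t666 (L l170 (L l356 (T t102 N))))))))) (K a213 (Fr a170 a255 l476 (Fr a42 a21 l68 (Fr a106 a234 l390 (Fr a192 a149 l519 (V t581))))) (K a42 (M a48 (F (T t364 (L l390 (T t50 (L l24 (L l28 (L l245 (T t100 N))))))))) (K a106 (M a48 (F (T t364 (T t1 (L l390 (T t50 N)))))) (K a170 (M a16 (F (L l24 (L l390 (L l404 (T t97 (L l245 (L l390 (T t98 (L l24 (L l245 (L l404 (T t113 (L l24 (L l245 (L l301 (L l404 (T t174 N)))))))))))))))))) (K a255 (M a16 (F (L l24 (T t112 (L l245 (L l289 (L l296 (T t98 (L l24 (L l245 (L l289 (T t113 N)))))))))))) N)))))))))))))))⟩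
def e0_63__219_25 : Ent 4 := ⟨[a0, a63], [a219, a37], (M a192 (F (T t21 (L l47 (T t35 (T t202 (L l28 (T t37 (K a64 (M a12 (F (T t161 (L l47 (T t122 (L l28 (L l80 (L l144 (T t160 N))))))))) (K a128 (M a12 (F (T t158 (L l47 (T t122 (L l28 (T t160 N))))))) (K a21 (M a5 (F (T t2177 (L l28 (L l347 (T t1816 (L l28 (T t1817 N)))))))) (K a85 (M a48 (F (T t27 (L l47 (L l301 (L l347 (T t20 (L l144 (L l368 (T t224 N)))))))))) (K a149 (M a12 (F (T t836 (L l47 (L l347 (L l371 (T t122 (L l47 (L l202 (L l220 (L l347 (L l371 (T t227 (L l28 (L l495 (T t228 N)))))))))))))))) (K a42 (M a32 (F (T t218 (L l47 (L l390 (T t1818 (L l47 (L l301 (T t1819 N))))))))) (K a106 (M a12 (F (T t156 (L l47 (T t122 (L l47 (L l501 (T t227 (L l28 (L l132 (L l144 (L l390 (L l408 (T t228 N)))))))))))))) (K a170 (M a48 (F (T t19 (L l301 (L l390 (T t206 (L l28 (L l47 (L l220 (L l245 (L l404 (T t29 N)))))))))))) (K a255 (M a208 (F (T t1820 (T t1821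 (L l28 (L l75 (T t1822 N))))))) N)))))))))))))))))⟩
def e0_63__219_26 : Ent 4 := ⟨[a0, a63], [a219, a39], (M a85 (F (T t88 (T t52 (T t89 (T t90 (K a64 (M a60 (F (T t114 (L l245 (T t115 N))))) (K a192 (M a16 (F (T t112 (L l245 (T t96 (L l245 (L l296 (T t98 N)))))))) (K a21 (M a48 (F (T t1243 (L l47 (L l245 (T t100 (T t50 N))))))) (K a149 (M a16 (F (T t112 (L l245 (L l301 (T t173 (L l170 (L l356 (T t102 N))))))))) (K a213 (Fr a170 a255 l476 (Fr a42 a21 l68 (Fr a106 a234 l390 (Fr a192 a149 l519 (V t581))))) (K a42 (M a48 (F (T t364 (L l390 (T t50 (L l28 (L l245 (T t100 N)))))))) (K a106 (M a48 (F (T t364 (L l73 (T t1 (L l390 (T t50 N))))))) (K a170 (M a16 (F (L l390 (L l404 (T t112 (L l245 (L l390 (T t98 (L l245 (L l404 (T t113 (L l245 (L l301 (L l404 (T t174 N))))))))))))))) (K a255 (M a16 (F (T t112 (L l245 (L l289 (T t113 (L l245 (L l289 (L l296 (T t98 N)))))))))) N)))))))))))))))⟩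
def e0_63__219_27 : Ent 4 := ⟨[a0, a63], [a219, a44], (M a85 (F (T t88 (T t52 (T t89 (T t90 (K a64 (M a48 (F (T t50 (L l24 (L l245 (T t568 N)))))) (K a192 (M a16 (F (L l24 (T t112 (L l245 (L l296 (T t666 (L l245 (L l296 (T t98 N)))))))))) (K a21 (M a48 (F (L l301 (T t873 (L l24 (L l47 (L l245 (T t100 (T t50 N))))))))) (K a149 (M a16 (F (L l24 (T t112 (L l245 (T t666 (L l170 (L l356 (T t102 N))))))))) (K a213 (Fr a170 a255 l476 (Fr a42 a21 l68 (Fr a106 a234 l390 (Fr a192 a149 l519 (V t581))))) (K a42 (M a48 (F (L l398 (T t364 (L l390 (T t50 (L l24 (L l28 (L l245 (T t100 N)))))))))) (K a106 (M a48 (F (T t1 (L l24 (L l104 (L l245 (T t509 (L l390 (T t50 N))))))))) (K a170 (M a16 (F (L l24 (L l390 (L l404 (T t97 (L l245 (L l390 (T t98 (L l24 (L l245 (L l404 (T t113 (L l24 (L l245 (L l301 (L l404 (T t174 N)))))))))))))))))) (K a255 (M a16 (F (L l24 (T t112 (L l245 (L l289 (L l296 (T t98 (L l24 (L l245 (L l289 (T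 t113 N)))))))))))) N)))))))))))))))⟩
def e0_63__219_28 : Ent 4 := ⟨[a0, a63], [a219, a45], (M a149 (F (T t5 (T t175 (T t176 (T t177 (K a192 (M a53 (F (T t178 (L l236 (T t179 (L l236 (L l296 (T t180 N)))))))) (K a21 (M a48 (F (T t4 (T t13 (L l18 (T t14 N)))))) (K a85 (M a16 (F (T t504 (L l144 (T t190 (L l94 (T t278 N))))))) (K a213 (Fr a106 a192 l519 (Fr a42 a21 l68 (Fr a170 a234 l390 (Fr a255 a85 l476 (V t582))))) (K a42 (M a48 (F (T t187 (L l390 (T t13 (L l54 (T t14 N))))))) (K a106 (M a48 (F (T t48 (L l498 (T t14 (L l390 (L l498 (T t6 (L l245 (L l390 (T t26 N))))))))))) (K a170 (M a48 (F (T t4 (L l63 (L l462 (T t1 (L l390 (T t13 N)))))))) (K a191 (M a12 (F (T t648 (L l23 (T t960 N))))) (K a255 (M a16 (F (T t112 (L l266 (T t190 (L l245 (L l289 (L l296 (T t191 N))))))))) N)))))))))))))))⟩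
def e0_63__219_29 : Ent 4 := ⟨[a0, a63], [a219, a46], (M a149 (F (T t175 (L l26 (T t5 (L l26 (T t176 (L l408 (T t177 (K a192 (M a53 (F (L l26 (T t178 (L l236 (T t179 (L l26 (L l236 (L l296 (T t180 N)))))))))) (K a21 (M a48 (F (T t4 (L l408 (T t13 (L l18 (T t14 N))))))) (K a85 (M a16 (F (L l26 (T t97 (L l144 (L l408 (T t190 (L l26 (L l94 (T t278 N)))))))))) (K a213 (Fr a106 a192 l519 (Fr a42 a21 l68 (Fr a170 a234 l390 (Fr a255 a85 l476 (V t582))))) (K a42 (M a34 (F (T t279 (L l390 (L l408 (T t280 (L l56 (L l396 (T t281 (L l390 (L l396 (L l408 (T t282 N))))))))))))) (K a106 (M a166 (F (L l132 (T t283 (L l26 (L l390 (T t284 (L l132 (L l396 (T t4283 (L l26 (L l132 (L l356 (L l390 (T t286 N))))))))))))))) (K a170 (M a48 (F (T t4 (L l462 (T t1 (L l390 (L l408 (T t13 N)))))))) (K a191 (M a16 (F (L l26 (T t97 (L l408 (T t190 (L l26 (L l213 (L l245 (T t191 N)))))))))) (K a255 (M a16 (F (L l26 (T t112 (L l266 (L l408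 (T t190 (L l26 (L l245 (L l289 (L l296 (T t191 N)))))))))))) N))))))))))))))))))⟩
def e0_63__219_30 : Ent 4 := ⟨[a0, a63], [a219, a47], (M a149 (F (T t175 (L l28 (T t5 (L l28 (T t176 (L l411 (T t177 (K a192 (M a29 (F (L l23 (L l28 (T t956 (L l23 (L l272 (L l283 (T t641 (L l28 (L l272 (L l296 (T t957 N))))))))))))) (K a21 (M a48 (F (T t4 (L l411 (T t13 (L l18 (L l397 (T t14 N)))))))) (K a85 (M a48 (F (T t4 (L l28 (L l455 (T t2 (L l144 (L l411 (T t13 N))))))))) (K a213 (Fr a106 a192 l519 (Fr a42 a21 l68 (Fr a170 a234 l390 (Fr a255 a85 l476 (V t582))))) (K a42 (M a32 (F (T t983 (L l390 (L l411 (T t984 (L l54 (L l397 (T t985 (L l390 (L l397 (L l411 (T t986 N))))))))))))) (K a106 (M a165 (F (L l130 (T t987 (L l28 (L l390 (T t988 (L l130 (L l397 (T t989 (L l28 (L l130 (L l390 (T t990 N)))))))))))))) (K a170 (M a12 (F (T t991 (L l402 (T t122 (L l390 (L l411 (T t648 N)))))))) (K a191 (M a144 (F (L l411 (T t992 (L l28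 (L l213 (L l245 (T t993 (L l411 (T t994 N)))))))))) (K a255 (M a48 (F (L l296 (T t4 (L l28 (L l469 (T t2 (L l266 (L l411 (T t13 N)))))))))) N))))))))))))))))))⟩
def e0_63__219_31 : Ent 4 := ⟨[a0, a63], [a219, a60], (M a12 (F (T t150 (L l39 (T t122 (L l39 (T t151 (L l39 (T t152 (L l39 (T t153 (K a4 (M a85 (F (T t89 (L l502 (T t124 (T t154 N)))))) (K a8 (M a85 (F (L l434 (T t52 (L l464 (L l502 (T t124 (L l56 (T t154 N))))))))) (K a21 (M a192 (F (T t2119 (L l15 (L l301 (L l347 (L l446 (T t450 (L l15 (L l347 (T t157 N))))))))))) (K a25 (M a192 (F (T t158 (L l502 (T t156 (L l434 (T t21 N))))))) (K a29 (M a192 (F (T t159 (L l371 (L l434 (T t21 (T t160 N))))))) (K a38 (M a192 (F (T t161 (L l502 (T t156 (L l434 (T t21 N))))))) (K a42 (M a192 (F (T t161 (L l502 (T t156 (L l56 (T t157 N))))))) (K a46 (M a192 (F (T t57 (L l502 (T t156 (L l26 (L l408 (T t160 N)))))))) (K a51 (M a170 (L l39 (F (T t439 (L l434 (L l439 (T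 t3685 (L l283 (T t3880 (K a57 (M a54 (F (T t4159 (L l283 (T t3682 N))))) (K a54 (M a57 (F (T t4159 (L l283 (T t3682 N))))) N))))))))))) N))))))))))))))))))))⟩
def e0_63__219_32 : Ent 4 := ⟨[a0, a63], [a219, a61], (M a149 (F (T t5 (L l65 (T t175 (T t176 (T t177 (K a192 (M a53 (F (T t178 (L l236 (T t179 (L l236 (L l296 (L l443 (T t180 N))))))))) (K a21 (M a48 (L l65 (F (T t4 (T t13 (L l18 (T t14 (K a1 (M a41 (F (T t4 (T t13 (L l18 (T t14 N)))))) (K a41 (M a1 (F (T t4 (L l18 (L l29 (T t295 N)))))) N))))))))) (K a85 (M a16 (F (T t97 (L l144 (T t190 (L l94 (T t278 N))))))) (K a213 (Fr a106 a192 l519 (Fr a42 a21 l68 (Fr a170 a234 l390 (Fr a255 a85 l476 (V t582))))) (K a42 (M a48 (F (L l54 (T t4 (L l390 (T t13 (L l54 (T t14 N)))))))) (K a106 (M a48 (F (L l498 (T t14 (L l35 (L l65 (T t1 (L l390 (L l498 (T t6 (L l245 (L l390 (T t26 N))))))))))))) (K a170 (M a48 (F (T t4 (L l35 (L l65 (L l462 (T t1 (L l390 (T t13 N)))))))))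 (K a191 (M a16 (F (T t97 (T t190 (L l213 (L l245 (T t191 N))))))) (K a255 (M a16 (F (T t112 (L l266 (T t190 (L l245 (L l289 (L l296 (T t191 N))))))))) N))))))))))))))))⟩
def e0_63__219_33 : Ent 4 := ⟨[a0, a63], [a219, a64], (M a12 (F (T t122 (T t151 (T t152 (T t153 (K a4 (M a60 (F (T t43 (T t398 (T t448 N))))) (K a8 (M a60 (F (T t67 (T t398 (L l52 (L l56 (T t448 N))))))) (K a21 (M a89 (F (T t2752 (L l50 (L l283 (L l301 (T t863 (L l50 (L l283 (T t864 N)))))))))) (K a25 (M a48 (F (T t550 (L l15 (T t1 (L l12 (L l56 (L l356 (T t866 N))))))))) (K a29 (M a48 (F (T t2 (T t550 (L l356 (T t866 N)))))) (K a38 (M a48 (F (L l26 (T t2 (L l356 (T t1580 (L l21 (L l50 (L l355 (T t868 N)))))))))) (K a42 (M a89 (F (T t2761 (L l26 (L l80 (T t870 (L l26 (L l283 (T t864 N))))))))) (K a46 (M a48 (F (T t443 (T t1 (L l26 (L l356 (T t866 N))))))) (K a51 (M a85 (F (T t571 (T t572 N)))) N)))))))))))))))⟩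
def e0_63__219_34 : Ent 4 := ⟨[a0, a63], [a219, a65], (M a48 (F (T t1 (T t2 (T t3 (T t0 (K a16 (M a60 (F (T t43 (T t64 (T t65 N))))) (K a32 (M a60 (F (T t67 (T t64 (L l24 (L l28 (T t65 N))))))) (K a21 (M a192 (F (T t28 (L l47 (L l301 (L l347 (T t20 (L l47 (L l245 (L l347 (T t29 N))))))))))) (K a37 (M a192 (F (T t19 (L l47 (L l301 (T t20 (T t21 N))))))) (K a53 (M a192 (F (T t19 (L l491 (T t21 (T t31 N)))))) (K a26 (M a192 (F (T t21 (T t27 (L l301 (T t20 N)))))) (K a42 (M a192 (F (T t19 (L l301 (T t20 (L l28 (L l245 (T t29 N)))))))) (K a58 (M a192 (F (T t19 (T t21 (L l54 (L l498 (T t31 N))))))) (K a15 (M a192 (F (T t56 (L l483 (T t27 (L l469 (T t21 N))))))) N)))))))))))))))⟩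
def e0_63__219_35 : Ent 4 := ⟨[a0, a63], [a219, a66], (M a48 (F (T t1 (T t2 (T t3 (T t0 (K a16 (M a60 (F (T t64 (L l14 (L l18 (L l309 (T t67 (T t65 N)))))))) (K a32 (M a60 (F (T t64 (L l309 (T t67 (L l24 (L l28 (T t65 N)))))))) (K a21 (M a192 (F (T t28 (L l47 (L l301 (L l347 (T t20 (L l47 (L l245 (L l347 (T t29 N))))))))))) (K a37 (M a192 (F (T t19 (L l47 (L l301 (T t20 (T t21 N))))))) (K a53 (M a192 (F (T t19 (L l491 (T t21 (L l142 (T t31 N))))))) (K a26 (M a192 (F (T t28 (L l301 (T t20 (T t21 N)))))) (K a42 (M a192 (F (T t19 (L l301 (T t20 (L l28 (L l245 (T t29 N)))))))) (K a58 (M a192 (F (T t19 (T t21 (L l54 (L l142 (L l498 (T t31 N)))))))) (K a15 (M a192 (F (T t57 (L l483 (T t27 (L l301 (L l325 (T t20 N)))))))) N)))))))))))))))⟩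
def e0_63__219_36 : Ent 4 := ⟨[a0, a63], [a219, a67], (M a149 (F (T t25 (T t175 (T t176 (L l76 (T t177 (K a192 (M a53 (F (T t178 (L l236 (T t179 (L l236 (L l296 (T t180 N)))))))) (K a21 (M a48 (F (T t4 (L l121 (T t13 (L l18 (T t14 N))))))) (K a85 (M a16 (F (T t97 (L l144 (T t190 (L l94 (T t278 N))))))) (K a213 (Fr a106 a192 l519 (Fr a42 a21 l68 (Fr a170 a234 l390 (Fr a255 a85 l476 (V t582))))) (K a42 (M a48 (F (T t187 (L l121 (L l390 (T t13 (L l54 (T t14 N)))))))) (K a106 (M a48 (F (T t1 (L l498 (T t14 (L l390 (L l498 (T t6 (L l245 (L l390 (T t26 N))))))))))) (K a170 (M a48 (F (T t4 (L l462 (T t1 (L l121 (L l390 (T t13 N)))))))) (K a191 (M a16 (F (T t97 (T t190 (L l213 (L l245 (T t191 N))))))) (K a255 (M a16 (F (T t112 (L l266 (T t190 (L l245 (L l289 (L l296 (T t191 N))))))))) N))))))))))))))))⟩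
def e0_63__219_37 : Ent 4 := ⟨[a0, a63], [a219, a68], (M a48 (F (T t1 (T t2 (T t3 (T t0 (K a16 (M a60 (F (T t43 (T t64 (T t65 N))))) (K a32 (M a60 (F (T t67 (T t64 (L l24 (L l28 (T t65 N))))))) (K a21 (M a192 (F (T t28 (L l47 (L l301 (L l347 (T t20 (L l47 (L l245 (L l347 (T t29 N))))))))))) (K a37 (M a192 (F (T t19 (L l47 (L l301 (T t20 (T t21 N))))))) (K a53 (M a192 (F (T t19 (L l491 (T t21 (T t31 N)))))) (K a26 (M a192 (F (T t21 (T t27 (L l301 (T t20 N)))))) (K a42 (M a192 (F (T t19 (L l301 (T t20 (L l28 (L l245 (T t29 N)))))))) (K a58 (M a192 (F (T t19 (T t21 (L l54 (L l498 (T t31 N))))))) (K a15 (M a192 (F (T t56 (L l483 (T t27 (L l469 (T t21 N))))))) N)))))))))))))))⟩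
def e0_63__219_38 : Ent 4 := ⟨[a0, a63], [a219, a69], (M a48 (F (T t1 (L l311 (T t2 (T t3 (T t0 (K a16 (M a60 (F (T t43 (T t64 (L l311 (T t65 N)))))) (K a32 (M a60 (F (T t64 (T t67 (L l24 (L l28 (L l311 (T t65 N)))))))) (K a21 (M a192 (F (T t28 (L l47 (L l301 (L l347 (T t20 (L l47 (L l245 (L l347 (T t29 N))))))))))) (K a37 (M a192 (F (T t19 (L l47 (L l301 (T t20 (T t21 N))))))) (K a53 (M a192 (F (T t19 (L l491 (T t21 (T t31 N)))))) (K a26 (M a192 (F (T t28 (L l301 (T t20 (T t21 N)))))) (K a42 (M a192 (F (T t19 (L l301 (T t20 (L l28 (L l245 (T t29 N)))))))) (K a58 (M a192 (F (T t19 (T t21 (L l54 (L l498 (T t31 N))))))) (K a15 (M a192 (F (T t57 (L l483 (T t27 (L l301 (L l325 (T t20 N)))))))) N))))))))))))))))⟩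
def e0_63__219_39 : Ent 4 := ⟨[a0, a63], [a219, a70], (M a149 (F (T t5 (T t175 (T t176 (T t177 (K a192 (M a53 (F (T t178 (L l236 (T t179 (L l77 (L l236 (L l296 (T t180 N))))))))) (K a21 (M a48 (F (T t4 (T t13 (L l18 (T t14 N)))))) (K a85 (M a16 (F (T t97 (L l144 (T t190 (L l94 (T t278 N))))))) (K a213 (Fr a106 a192 l519 (Fr a42 a21 l68 (Fr a170 a234 l390 (Fr a255 a85 l476 (V t582))))) (K a42 (M a48 (F (T t187 (L l390 (T t13 (L l54 (T t14 N))))))) (K a106 (M a48 (F (T t1 (L l498 (T t14 (L l390 (L l498 (T t6 (L l245 (L l390 (T t26 N))))))))))) (K a170 (M a48 (F (T t4 (L l462 (T t1 (L l390 (T t13 N))))))) (K a191 (M a240 (F (T t962 (L l315 (T t963 N))))) (K a255 (M a16 (F (T t112 (L l266 (T t190 (L l245 (L l289 (L l296 (T t191 N))))))))) N)))))))))))))))⟩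
def e0_63__219_40 : Ent 4 := ⟨[a0, a63], [a219, a71], (M a85 (F (T t88 (T t52 (T t89 (T t90 (K a64 (M a204 (F (T t1744 (L l125 (T t1576 N))))) (K a192 (M a16 (F (T t112 (L l77 (L l127 (L l245 (T t96 (L l245 (L l296 (T t98 N)))))))))) (K a21 (M a48 (F (L l245 (T t99 (T t50 (L l47 (L l245 (T t100 N)))))))) (K a149 (M a16 (F (T t112 (L l77 (L l245 (L l301 (L l331 (T t173 (L l170 (L l356 (T t102 N))))))))))) (K a213 (Fr a170 a255 l476 (Fr a42 a21 l68 (Fr a106 a234 l390 (Fr a192 a149 l519 (V t581))))) (K a42 (M a48 (F (T t364 (L l390 (T t50 (L l28 (L l245 (T t100 N)))))))) (K a106 (M a48 (F (T t364 (T t1 (L l390 (T t50 N)))))) (K a170 (M a16 (F (L l390 (L l404 (T t97 (L l245 (L l390 (T t98 (L l245 (L l404 (T t113 (L l245 (L l301 (L l331 (L l404 (T t174 N)))))))))))))))) (K a255 (M a16 (F (T t112 (L l245 (L l289 (T t113 (L l245 (L l289 (L l296 (T t98 N)))))))))) N)))))))))))))))⟩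
def e0_63__219_41 : Ent 4 := ⟨[a0, a63], [a219, a72], (M a48 (F (T t1 (T t2 (T t3 (T t0 (K a16 (M a60 (F (T t43 (T t64 (T t65 N))))) (K a32 (M a60 (F (T t67 (T t64 (L l24 (L l28 (T t65 N))))))) (K a21 (M a192 (F (T t28 (L l47 (L l301 (L l347 (T t20 (L l47 (L l245 (L l347 (T t29 N))))))))))) (K a37 (M a192 (F (T t19 (L l47 (L l301 (T t20 (T t21 N))))))) (K a53 (M a192 (F (T t19 (L l491 (T t21 (L l132 (T t31 N))))))) (K a26 (M a192 (F (T t28 (L l301 (T t20 (T t21 N)))))) (K a42 (M a192 (F (T t19 (L l301 (T t20 (L l28 (L l245 (T t29 N)))))))) (K a58 (M a192 (F (T t19 (T t21 (L l54 (L l132 (L l498 (T t31 N)))))))) (K a15 (M a192 (F (T t57 (L l483 (T t27 (L l301 (L l325 (T t20 N)))))))) N)))))))))))))))⟩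
def e0_63__219_42 : Ent 4 := ⟨[a0, a63], [a219, a73], (M a149 (F (T t5 (T t175 (T t176 (T t177 (K a192 (M a53 (F (T t178 (L l236 (T t179 (L l81 (L l236 (L l296 (T t180 N))))))))) (K a21 (M a48 (F (T t4 (T t13 (L l18 (T t14 N)))))) (K a85 (M a16 (F (T t97 (L l144 (T t190 (L l94 (T t278 N))))))) (K a213 (Fr a106 a192 l519 (Fr a42 a21 l68 (Fr a170 a234 l390 (Fr a255 a85 l476 (V t582))))) (K a42 (M a48 (F (T t187 (L l390 (T t13 (L l54 (T t14 N))))))) (K a106 (M a48 (F (T t1 (L l498 (T t14 (L l390 (L l498 (T t6 (L l245 (L l390 (T t26 N))))))))))) (K a170 (M a48 (F (T t4 (L l462 (T t1 (L l390 (T t13 N))))))) (K a191 (M a240 (F (T t962 (L l335 (T t963 N))))) (K a255 (M a16 (F (T t112 (L l266 (T t190 (L l245 (L l289 (L l296 (T t191 N))))))))) N)))))))))))))))⟩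
def e0_63__219_43 : Ent 4 := ⟨[a0, a63], [a219, a74], (M a12 (F (T t122 (T t151 (T t152 (T t153 (K a4 (M a60 (F (T t43 (L l336 (L l339 (T t398 (T t448 N))))))) (K a8 (M a60 (F (T t67 (L l336 (L l339 (T t398 (L l52 (L l56 (T t448 N))))))))) (K a21 (M a192 (F (T t156 (L l15 (L l301 (L l347 (T t450 (L l15 (L l347 (T t157 N)))))))))) (K a25 (M a192 (F (T t156 (L l15 (L l301 (T t450 (T t21 N))))))) (K a29 (M a192 (F (T t156 (L l371 (T t21 (L l78 (L l130 (T t160 N)))))))) (K a38 (M a192 (F (T t156 (L l301 (T t450 (T t21 N)))))) (K a42 (M a192 (F (T t156 (L l301 (T t450 (L l56 (T t157 N))))))) (K a46 (M a192 (F (T t156 (T t21 (L l26 (L l78 (L l130 (L l408 (T t160 N))))))))) (K a51 (M a192 (F (T t57 (L l513 (T t156 (L l301 (L l415 (T t450 N)))))))) N)))))))))))))))⟩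
def e0_63__219_44 : Ent 4 := ⟨[a0, a63], [a219, a75], (M a85 (F (T t88 (T t52 (T t89 (T t90 (K a64 (M a16 (F (T t112 (L l84 (L l245 (T t96 (L l116 (L l245 (T t98 N))))))))) (K a192 (M a16 (F (T t1924 (L l337 (L l339 (T t97 (L l245 (L l296 (T t98 N))))))))) (K a21 (M a48 (F (T t1243 (L l47 (L l245 (T t100 (T t50 N))))))) (K a149 (M a16 (F (T t112 (L l245 (L l301 (T t173 (L l170 (L l356 (T t102 N))))))))) (K a213 (Fr a170 a255 l476 (Fr a42 a21 l68 (Fr a106 a234 l390 (Fr a192 a149 l519 (V t581))))) (K a42 (M a48 (F (T t364 (L l390 (T t50 (L l28 (L l245 (T t100 N)))))))) (K a106 (M a48 (F (T t364 (L l337 (T t1 (L l390 (T t50 N))))))) (K a170 (M a16 (F (L l390 (L l404 (T t112 (L l245 (L l390 (T t98 (L l245 (L l404 (T t113 (L l245 (L l301 (L l404 (T t174 N))))))))))))))) (K a255 (M a16 (F (T t112 (L l245 (L l289 (T t113 (L l245 (L l289 (L l296 (T t98 N)))))))))) N)))))))))))))))⟩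
def e0_63__219_45 : Ent 4 := ⟨[a0, a63], [a219, a76], (M a149 (F (T t25 (T t175 (T t176 (L l80 (T t177 (K a192 (M a53 (F (T t178 (L l236 (T t179 (L l236 (L l296 (T t180 N)))))))) (K a21 (M a48 (F (T t4 (L l146 (T t13 (L l18 (T t14 N))))))) (K a85 (M a16 (F (T t97 (L l144 (T t190 (L l94 (T t278 N))))))) (K a213 (Fr a106 a192 l519 (Fr a42 a21 l68 (Fr a170 a234 l390 (Fr a255 a85 l476 (V t582))))) (K a42 (M a48 (F (T t187 (L l146 (L l390 (T t13 (L l54 (T t14 N)))))))) (K a106 (M a48 (F (T t1 (L l498 (T t14 (L l390 (L l498 (T t6 (L l245 (L l390 (T t26 N))))))))))) (K a170 (M a48 (F (T t4 (L l462 (T t1 (L l146 (L l390 (T t13 N)))))))) (K a191 (M a16 (F (T t97 (T t190 (L l213 (L l245 (T t191 N))))))) (K a255 (M a16 (F (T t112 (L l266 (T t190 (L l245 (L l289 (L l296 (T t191 N))))))))) N))))))))))))))))⟩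
def e0_63__219_46 : Ent 4 := ⟨[a0, a63], [a219, a77], (M a85 (F (T t88 (T t52 (T t89 (T t90 (K a64 (M a16 (F (T t97 (L l81 (L l84 (L l147 (L l245 (T t96 (L l116 (L l245 (T t98 N))))))))))) (K a192 (M a16 (F (T t112 (L l81 (L l147 (L l245 (T t96 (L l245 (L l296 (T t98 N)))))))))) (K a21 (M a48 (F (L l245 (T t99 (T t50 (L l47 (L l245 (T t100 N)))))))) (K a149 (M a16 (F (T t112 (L l81 (L l245 (L l301 (L l326 (T t173 (L l170 (L l356 (T t102 N))))))))))) (K a213 (Fr a170 a255 l476 (Fr a42 a21 l68 (Fr a106 a234 l390 (Fr a192 a149 l519 (V t581))))) (K a42 (M a48 (F (T t364 (L l390 (T t50 (L l28 (L l245 (T t100 N)))))))) (K a106 (M a48 (F (T t364 (T t1 (L l390 (T t50 N)))))) (K a170 (M a16 (F (L l390 (L l404 (T t97 (L l245 (L l390 (T t98 (L l245 (L l404 (T t113 (L l245 (L l301 (L l326 (L l404 (T t174 N)))))))))))))))) (K a255 (M a16 (F (T t112 (L l245 (L l289 (T t113 (L l245 (L l289 (L l296 (T t98 N)))))))))) N)))))))))))))))⟩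
def e0_63__219_47 : Ent 4 := ⟨[a0, a63], [a219, a78], (M a149 (F (T t5 (T t175 (T t176 (T t177 (K a192 (M a53 (F (T t178 (L l236 (T t179 (L l236 (L l296 (T t180 N)))))))) (K a21 (M a48 (F (T t4 (T t13 (L l18 (T t14 N)))))) (K a85 (M a16 (F (T t504 (L l144 (T t190 (L l94 (L l148 (T t278 N)))))))) (K a213 (Fr a106 a192 l519 (Fr a42 a21 l68 (Fr a170 a234 l390 (Fr a255 a85 l476 (V t582))))) (K a42 (M a48 (F (T t187 (L l390 (T t13 (L l54 (T t14 N))))))) (K a106 (M a48 (F (T t48 (L l498 (T t14 (L l390 (L l498 (T t6 (L l245 (L l390 (T t26 N))))))))))) (K a170 (M a48 (F (T t4 (L l327 (L l462 (T t1 (L l390 (T t13 N)))))))) (K a191 (M a252 (F (T t1850 (L l136 (T t941 N))))) (K a255 (M a16 (F (T t112 (L l266 (T t190 (L l245 (L l289 (L l296 (T t191 N))))))))) N)))))))))))))))⟩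
def e0_63__219_48 : Ent 4 := ⟨[a0, a63], [a219, a79], (M a149 (F (T t25 (T t175 (T t176 (L l84 (T t177 (K a192 (M a53 (F (T t178 (L l236 (T t179 (L l84 (L l236 (L l296 (T t180 N))))))))) (K a21 (M a48 (F (T t4 (L l18 (T t1082 (L l18 (T t14 N))))))) (K a85 (M a16 (F (T t504 (L l144 (T t190 (L l94 (L l151 (T t278 N)))))))) (K a213 (Fr a106 a192 l519 (Fr a42 a21 l68 (Fr a170 a234 l390 (Fr a255 a85 l476 (V t582))))) (K a42 (M a48 (F (T t11 (L l390 (T t1082 (L l54 (T t14 N))))))) (K a106 (M a48 (F (T t48 (L l498 (T t14 (L l390 (L l498 (T t6 (L l245 (L l390 (T t26 N))))))))))) (K a170 (M a48 (F (T t4 (L l462 (T t48 (L l151 (L l390 (T t13 N)))))))) (K a191 (M a240 (F (T t962 (T t963 N)))) (K a255 (M a16 (F (T t112 (L l266 (T t190 (L l245 (L l289 (L l296 (T t191 N))))))))) N))))))))))))))))⟩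
def e0_63__219_49 : Ent 4 := ⟨[a0, a63], [a219, a80], (M a12 (F (T t122 (T t151 (T t152 (T t153 (K a4 (M a60 (F (T t43 (T t398 (T t448 N))))) (K a8 (M a60 (F (T t67 (T t398 (L l52 (L l56 (T t448 N))))))) (K a21 (M a192 (F (T t468 (L l15 (L l301 (L l347 (T t450 (L l15 (L l347 (T t157 N)))))))))) (K a25 (M a192 (F (T t449 (L l15 (L l301 (T t450 (T t21 N))))))) (K a29 (M a192 (F (T t449 (L l371 (T t21 (T t160 N)))))) (K a38 (M a192 (F (T t468 (L l301 (T t450 (T t21 N)))))) (K a42 (M a192 (F (T t449 (L l301 (T t450 (L l56 (T t157 N))))))) (K a46 (M a192 (F (T t449 (T t21 (L l26 (L l408 (T t160 N))))))) (K a51 (M a192 (F (T t57 (L l513 (T t156 (L l301 (L l415 (T t450 N)))))))) N)))))))))))))))⟩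
def e0_63__219_50 : Ent 4 := ⟨[a0, a63], [a219, a81], (M a12 (F (T t122 (L l341 (T t151 (T t152 (T t153 (K a4 (M a60 (F (T t43 (T t398 (L l341 (T t448 N)))))) (K a8 (M a60 (F (T t398 (T t67 (L l52 (L l56 (L l341 (T t448 N)))))))) (K a21 (M a192 (F (T t468 (L l15 (L l301 (L l347 (T t450 (L l15 (L l347 (T t157 N)))))))))) (K a25 (M a192 (F (T t449 (L l15 (L l301 (T t450 (T t21 N))))))) (K a29 (M a192 (F (T t449 (L l371 (T t21 (T t160 N)))))) (K a38 (M a192 (F (T t468 (L l301 (T t450 (T t21 N)))))) (K a42 (M a192 (F (T t449 (L l301 (T t450 (L l56 (T t157 N))))))) (K a46 (M a192 (F (T t449 (T t21 (L l26 (L l408 (T t160 N))))))) (K a51 (M a192 (F (T t57 (L l513 (T t156 (L l301 (L l415 (T t450 N)))))))) N))))))))))))))))⟩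
def e0_63__219_51 : Ent 4 := ⟨[a0, a63], [a219, a82], (M a149 (F (T t5 (T t175 (T t176 (T t177 (K a192 (M a53 (F (T t178 (L l236 (T t179 (L l236 (L l296 (T t180 N)))))))) (K a21 (M a48 (F (T t4 (L l121 (L l453 (T t13 (L l18 (T t14 N)))))))) (K a85 (M a16 (F (T t97 (L l144 (L l345 (L l453 (T t190 (L l92 (L l94 (T t278 N)))))))))) (K a213 (Fr a106 a192 l519 (Fr a42 a21 l68 (Fr a170 a234 l390 (Fr a255 a85 l476 (V t582))))) (K a42 (M a48 (F (T t187 (L l121 (L l390 (L l453 (T t13 (L l54 (T t14 N))))))))) (K a106 (M a48 (F (T t1 (L l498 (T t14 (L l390 (L l498 (T t6 (L l245 (L l390 (T t26 N))))))))))) (K a170 (M a48 (F (T t4 (L l462 (T t1 (L l121 (L l390 (L l453 (T t13 N))))))))) (K a191 (M a204 (F (T t1043 (L l345 (T t1112 N))))) (K a255 (M a16 (F (T t112 (L l266 (L l345 (L l453 (T t190 (L l86 (L l245 (L l289 (L l296 (T t191 N)))))))))))) N)))))))))))))))⟩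
def e0_63__219_52 : Ent 4 := ⟨[a0, a63], [a219, a83], (M a85 (F (T t88 (T t52 (T t89 (T t90 (K a64 (M a240 (F (T t386 (L l93 (T t387 N))))) (K a192 (M a16 (F (T t112 (L l245 (T t96 (L l86 (L l245 (L l296 (T t98 N))))))))) (K a21 (M a48 (F (T t1243 (L l47 (L l245 (T t100 (T t50 N))))))) (K a149 (M a16 (F (T t112 (L l245 (L l301 (T t173 (L l93 (L l170 (L l356 (T t102 N)))))))))) (K a213 (Fr a170 a255 l476 (Fr a42 a21 l68 (Fr a106 a234 l390 (Fr a192 a149 l519 (V t581))))) (K a42 (M a48 (F (T t364 (L l390 (T t50 (L l28 (L l245 (T t100 N)))))))) (K a106 (M a48 (F (T t1 (L l104 (L l245 (T t509 (L l390 (T t50 N)))))))) (K a170 (M a16 (F (L l390 (L l404 (T t97 (L l86 (L l245 (L l390 (T t98 (L l245 (L l404 (T t113 (L l245 (L l301 (L l404 (T t174 N)))))))))))))))) (K a255 (M a16 (F (T t112 (L l245 (L l289 (T t113 (L l86 (L l245 (L l289 (L l296 (T t98 N))))))))))) N)))))))))))))))⟩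
def e0_63__219_53 : Ent 4 := ⟨[a0, a63], [a219, a84], (M a85 (F (T t52 (L l140 (T t88 (L l140 (T t89 (L l140 (T t90 (K a64 (M a60 (L l140 (F (T t114 (L l245 (L l346 (T t115 (K a104 (M a124 (F (T t1126 (L l245 (L l346 (L l388 (T t115 N))))))) (K a124 (M a104 (F (T t43 (L l76 (T t3040 (L l109 (T t1895 N))))))) N))))))))) (K a192 (M a16 (F (T t112 (L l245 (T t96 (L l90 (L l245 (L l296 (T t98 N))))))))) (K a21 (M a48 (F (T t1243 (L l47 (L l245 (T t100 (T t50 N))))))) (K a149 (M a16 (F (T t112 (L l245 (L l301 (T t173 (L l170 (L l356 (T t102 N))))))))) (K a213 (Fr a170 a255 l476 (Fr a42 a21 l68 (Fr a106 a234 l390 (Fr a192 a149 l519 (V t581))))) (K a42 (M a48 (F (L l364 (T t364 (L l390 (T t50 (L l28 (L l245 (T t100 N))))))))) (K a106 (M a48 (F (T t1 (L l104 (L l245 (T t509 (L l390 (T t50 N)))))))) (K a170 (M a16 (F (L l390 (L l404 (T t97 (L l90 (L l245 (L l390 (T t98 (L l245 (L l404 (T t113 (L l245 (L l301 (L l404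 (T t174 N)))))))))))))))) (K a255 (M a16 (F (T t112 (L l245 (L l289 (T t113 (L l90 (L l245 (L l289 (L l296 (T t98 N))))))))))) N))))))))))))))))))⟩
def e0_63__219_54 : Ent 4 := ⟨[a0, a63], [a219, a85], (M a12 (F (T t153 (L l347 (T t122 (L l365 (T t151 (L l347 (L l458 (T t152 (K a4 (M a60 (L l458 (F (T t43 (T t398 (L l365 (T t448 (K a166 (M a247 (F (T t408 (L l473 (T t69 (L l365 (L l408 (T t448 N)))))))) (K a247 (M a166 (F (T t43 (L l310 (T t2470 N))))) N))))))))) (K a8 (M a60 (F (T t398 (L l347 (L l350 (T t67 (L l52 (L l56 (L l365 (T t448 N)))))))))) (K a21 (M a149 (F (T t958 (L l144 (T t648 (L l50 (L l91 (L l144 (L l283 (L l458 (T t2471 (L l50 (L l91 (L l283 (L l301 (L l458 (T t2472 N))))))))))))))))) (K a25 (M a192 (F (T t156 (L l15 (L l301 (L l347 (T t450 (L l144 (L l283 (L l458 (T t2473 N))))))))))) (K a29 (M a48 (F (L l455 (T t2 (L l458 (T t550 (L l356 (L l455 (T t866 N))))))))) (K a38 (M a192 (F (T t468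 (L l301 (L l347 (T t450 (L l26 (L l50 (L l144 (L l283 (L l458 (T t2473 N)))))))))))) (K a42 (M a192 (F (T t156 (L l301 (L l347 (T t450 (L l26 (L l144 (L l283 (L l390 (L l458 (T t2473 N)))))))))))) (K a46 (M a48 (F (T t443 (L l347 (T t1 (L l26 (L l356 (L l455 (T t866 N))))))))) (K a51 (M a192 (F (L l513 (T t156 (L l301 (L l347 (L l415 (T t450 (L l144 (L l283 (L l458 (T t2473 N)))))))))))) N)))))))))))))))))))⟩
def e0_63__219_55 : Ent 4 := ⟨[a0, a63], [a219, a86], (M a48 (F (T t1 (T t2 (T t3 (T t0 (K a16 (M a60 (F (T t64 (L l14 (L l18 (L l477 (T t67 (L l351 (T t65 N))))))))) (K a32 (M a60 (F (T t64 (L l477 (T t67 (L l24 (L l28 (L l351 (T t65 N))))))))) (K a21 (M a192 (F (T t837 (L l47 (L l301 (L l347 (L l351 (T t20 (L l47 (L l245 (L l347 (L l351 (T t29 N))))))))))))) (K a37 (M a192 (F (T t19 (L l47 (L l301 (L l351 (T t20 (L l351 (T t21 N))))))))) (K a53 (M a192 (F (T t19 (L l351 (L l491 (T t21 (L l142 (T t31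 N)))))))) (K a26 (M a192 (F (T t27 (L l301 (L l351 (T t20 (L l351 (T t21 N)))))))) (K a42 (M a192 (F (T t19 (L l301 (L l351 (T t20 (L l28 (L l245 (L l351 (T t29 N)))))))))) (K a58 (M a192 (F (T t19 (L l351 (T t21 (L l54 (L l142 (L l498 (T t31 N))))))))) (K a15 (M a192 (F (T t1922 (L l301 (L l325 (L l351 (T t20 (L l351 (L l469 (T t21 N)))))))))) N)))))))))))))))⟩
def e0_63__219_56 : Ent 4 := ⟨[a0, a63], [a219, a87], (M a85 (F (T t88 (L l143 (L l475 (T t52 (T t89 (T t90 (K a64 (M a240 (F (T t933 (L l93 (T t387 N))))) (K a192 (M a16 (F (T t112 (L l245 (L l367 (T t96 (L l245 (L l296 (L l367 (T t98 N)))))))))) (K a21 (M a48 (F (T t1243 (L l47 (L l143 (L l245 (L l367 (T t100 (L l143 (T t50 N)))))))))) (K a149 (M a16 (F (T t112 (L l245 (L l301 (L l367 (T t173 (L l93 (L l170 (L l356 (T t102 N))))))))))) (K a213 (Fr a170 a255 l476 (Fr a42 a21 l68 (Fr a106 a234 l390 (Fr a192 a149 l519 (V t581))))) (K a42 (M a48 (F (L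 l475 (T t364 (L l143 (L l390 (T t50 (L l28 (L l143 (L l245 (L l367 (T t100 N)))))))))))) (K a106 (M a48 (F (T t1 (L l104 (L l245 (L l367 (T t509 (L l143 (L l390 (T t50 N)))))))))) (K a170 (M a16 (F (L l390 (L l404 (T t97 (L l245 (L l367 (L l390 (T t98 (L l143 (L l245 (L l367 (L l404 (T t113 (L l245 (L l301 (L l367 (L l404 (T t174 N))))))))))))))))))) (K a255 (M a3 (F (T t85 (L l143 (L l261 (L l349 (T t376 (L l261 (L l296 (T t357 (L l261 (L l296 (T t1921 N))))))))))))) N)))))))))))))))))⟩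
def e0_63__219_57 : Ent 4 := ⟨[a0, a63], [a219, a88], (M a85 (F (T t88 (T t52 (T t89 (T t90 (K a64 (M a252 (F (T t91 (L l460 (T t92 N))))) (K a192 (M a16 (F (T t112 (L l245 (T t96 (L l90 (L l245 (L l296 (T t98 N))))))))) (K a21 (M a48 (F (T t1243 (L l47 (L l245 (T t100 (L l478 (T t50 N)))))))) (K a149 (M a16 (F (T t112 (L l245 (L l301 (T t173 (L l170 (L l356 (T t102 N))))))))) (K a213 (Fr a170 a255 l476 (Fr a42 a21 l68 (Fr a106 a234 l390 (Fr a192 a149 l519 (V t581))))) (K a42 (M a48 (F (T t364 (L l390 (L l478 (T t50 (L l28 (L l245 (T t100 N))))))))) (K a106 (M a48 (F (T t364 (T t1 (L l390 (L l478 (T t50 N))))))) (K a170 (M a16 (F (L l390 (L l404 (T t97 (L l90 (L l245 (L l390 (T t98 (L l245 (L l404 (T t113 (L l245 (L l301 (L l404 (T t174 N)))))))))))))))) (K a255 (M a16 (F (T t112 (L l245 (L l289 (T t113 (L l90 (L l245 (L l289 (L l296 (T t98 N))))))))))) N)))))))))))))))⟩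
def e0_63__219_58 : Ent 4 := ⟨[a0, a63], [a219, a89], (M a48 (L l356 (F (T t1 (T t2 (T t3 (T t0 (K a16 (M a85 (L l356 (F (T t168 (L l464 (T t50 (T t51 (K a24 (M a154 (L l14 (F (T t3550 (L l340 (T t473 (L l132 (T t924 (K a20 (M a28 (F (T t3550 (L l340 (T t473 (L l132 (T t924 N))))))) (K a28 (M a20 (L l374 (F (T t3550 (L l52 (T t238 (K a150 (M a211 (F (T t3550 (L l52 (T t238 N))))) (K a211 (Fr a150 a215 l350 (M a223 (L l344 (F (L l147 (T t4133 (L l52 (L l349 (T t238 (K a81 (Fr a146 a158 l168 (V t3551)) (K a146 (M a81 (F (L l147 (T t4133 (L l52 (L l271 (L l295 (T t3420 (L l301 (T t493 N)))))))))) N))))))))))) N)))))))) N)))))))))) (K a154 (M a24 (F (T t168 (L l10 (T t3180 (L l206 (L l227 (L l464 (T t50 N))))))))) N))))))))) (K a32 (M a60 (L l356 (F (T t67 (T t64 (L l24 (L l28 (T t65 (K a24 (M a154 (F (T t473 (T t68 N)))) (K a154 (M a24 (F (L l24 (L l368 (T t6273 (L l498 (L l500 (T t451 N)))))))) N)))))))))) (K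 a21 (M a154 (F (L l301 (T t526 (L l245 (T t327 (L l47 (L l245 (T t527 N))))))))) (K a37 (M a154 (F (L l301 (T t526 (L l28 (L l245 (T t327 (L l28 (L l47 (L l245 (T t527 N))))))))))) (K a53 (M a24 (F (T t6274 (L l47 (L l371 (T t6275 (L l355 (L l371 (T t6276 N))))))))) (K a26 (M a154 (F (T t473 (L l245 (T t327 (L l245 (T t527 N))))))) (K a42 (M a154 (F (T t473 (L l28 (L l245 (T t327 (L l28 (L l245 (T t527 N))))))))) (K a58 (M a24 (F (L l32 (T t6274 (L l54 (T t3180 (L l54 (L l355 (L l371 (T t6276 N)))))))))) (K a15 (M a154 (F (L l371 (T t326 (L l245 (L l469 (T t327 (L l245 (T t527 N))))))))) (K a24 (M a154 (F (T t473 (T t1 (L l245 (T t327 N)))))) (K a154 (M a24 (F (T t1 (L l374 (L l500 (T t6277 (L l371 (T t6275 N)))))))) N))))))))))))))))))⟩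
def e0_63__219_59 : Ent 4 := ⟨[a0, a63], [a219, a90], (M a12 (F (T t122 (T t151 (T t152 (T t153 (K a4 (M a60 (F (T t43 (L l480 (L l483 (T t398 (T t448 N))))))) (K a8 (M a60 (F (T t67 (L l480 (L l483 (T t398 (L l52 (L l56 (T t448 N))))))))) (K a21 (M a192 (F (T t836 (L l15 (L l301 (L l347 (L l375 (T t450 (L l15 (L l347 (L l375 (T t157 N)))))))))))) (K a25 (M a192 (F (T t449 (L l15 (L l301 (L l375 (T t450 (L l375 (T t21 N))))))))) (K a29 (M a192 (F (T t449 (L l371 (L l375 (T t21 (L l130 (T t160 N)))))))) (K a38 (M a192 (F (T t156 (L l301 (L l375 (T t450 (L l375 (T t21 N)))))))) (K a42 (M a192 (F (T t449 (L l301 (L l375 (T t450 (L l56 (L l375 (T t157 N))))))))) (K a46 (M a192 (F (T t449 (L l375 (T t21 (L l26 (L l130 (L l408 (T t160 N))))))))) (K a51 (M a192 (F (T t1725 (L l301 (L l375 (L l415 (T t450 (L l375 (L l439 (T t21 N)))))))))) N)))))))))))))))⟩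
def e0_63__219_60 : Ent 4 := ⟨[a0, a63], [a219, a91], (M a60 (L l355 (F (T t67 (T t43 (T t68 (T t69 (K a20 (M a51 (L l355 (F (T t3965 (T t1294 (L l11 (T t1357 (K a27 (M a155 (F (T t1294 (L l149 (T t4381 N))))) (K a155 (M a27 (F (T t3965 (L l14 (L l356 (T t4382 N)))))) N))))))))) (K a40 (M a51 (L l355 (F (T t589 (T t1356 (T t1357 (K a27 (M a155 (F (T t589 (L l149 (T t4381 N))))) (K a155 (M a27 (F (T t3961 (L l22 (T t4383 N))))) N)))))))) (K a21 (M a192 (L l355 (F (T t72 (L l131 (L l347 (T t73 (L l245 (L l347 (T t74 (K a27 (M a155 (F (T t1516 (T t1333 (L l245 (L l347 (T t74 N))))))) (K a155 (M a27 (F (T t1516 (T t1333 (L l245 (L l347 (T t74 N))))))) N)))))))))))) (K a41 (M a51 (L l355 (F (T t3961 (L l22 (T t1294 (L l53 (L l65 (T t1357 (K a27 (M a155 (F (L l149 (T t4384 (L l53 (L l65 (T t1357 N))))))) (K a155 (M a27 (F (T t3961 (L l22 (L l356 (T t4382 N)))))) N))))))))))) (K a61 (M a8 (L l355 (F (T t413 (L l65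 (T t414 (L l65 (L l356 (T t415 (K a27 (M a155 (F (T t413 (L l12 (L l65 (L l131 (T t4385 (L l55 (L l65 (L l73 (T t414 N))))))))))) (K a155 (M a27 (F (T t413 (L l65 (T t4386 N))))) N))))))))))) (K a22 (M a51 (L l355 (F (T t3965 (L l11 (T t589 (L l48 (L l66 (T t3964 (K a27 (M a155 (F (L l149 (T t4384 (L l48 (L l66 (T t3964 N))))))) (K a155 (M a27 (F (T t4387 (L l11 (L l48 (T t4388 N)))))) N))))))))))) (K a42 (M a192 (L l355 (F (T t77 (L l131 (T t73 (L l22 (L l245 (T t74 (K a27 (M a155 (F (T t569 (T t1333 (L l22 (L l245 (T t74 N))))))) (K a155 (M a27 (F (T t569 (T t1333 (L l22 (L l245 (T t74 N))))))) N))))))))))) (K a62 (M a8 (L l355 (F (T t413 (T t414 (L l36 (L l356 (T t415 (K a27 (M a155 (F (T t413 (L l12 (L l131 (T t4385 (L l55 (L l73 (T t414 N))))))))) (K a155 (M a27 (F (T t413 (T t4386 N)))) N)))))))))) (K a3 (M a51 (L l355 (F (T t848 (L l45 (T t1356 (L l9 (T t1357 (K a27 (M a155 (F (T t4306 (L l149 (L l333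 (T t4381 N)))))) (K a155 (M a27 (F (T t4389 (L l356 (T t4382 N))))) N)))))))))) (K a27 (M a155 (F (T t68 (L l55 (T t67 (L l17 (T t43 (T t69 (K a20 (M a195 (F (L l350 (T t4390 (L l55 (L l73 (L l373 (T t4391 N)))))))) (K a40 (M a195 (F (L l392 (T t2661 (L l55 (L l73 (L l373 (T t4391 N)))))))) (K a21 (M a195 (F (T t4392 (L l55 (L l73 (L l373 (T t4391 N))))))) (K a41 (M a195 (F (T t4393 (L l55 (L l73 (L l373 (T t4391 N))))))) (K a61 (M a195 (F (L l283 (T t4394 (L l131 (L l301 (T t4395 N))))))) (K a22 (M a195 (F (T t4392 (L l55 (L l73 (L l373 (T t4391 N))))))) (K a42 (M a195 (F (T t4392 (L l55 (L l56 (L l73 (L l373 (T t4391 N)))))))) (K a62 (M a195 (F (L l245 (T t4396 (L l73 (L l131 (T t4397 N))))))) (K a3 (M a195 (F (T t4398 (L l43 (L l55 (L l73 (L l373 (T t4391 N)))))))) N))))))))))))))))) (K a155 (M a27 (F (T t67 (L l463 (T t4399 (L l367 (T t4400 (L l463 (T t4401 (L l367 (T t4402 (K a21 (M a43 (F (L l11 (T t4403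 (L l50 (L l463 (T t4404 N))))))) (K a41 (M a51 (F (T t3961 (L l22 (L l356 (T t4382 N)))))) (K a22 (M a25 (F (L l16 (T t4405 (L l48 (L l66 (T t4406 N))))))) (K a42 (M a23 (F (L l22 (T t4407 (L l28 (L l367 (T t4408 N))))))) N))))))))))))))) N))))))))))))))))))⟩
def e0_63__219_61 : Ent 4 := ⟨[a0, a63], [a219, a92], (M a85 (F (T t88 (T t52 (T t89 (T t90 (K a64 (M a240 (F (T t386 (L l89 (T t387 N))))) (K a192 (M a16 (F (T t112 (L l245 (T t96 (L l90 (L l245 (L l296 (T t98 N))))))))) (K a21 (M a48 (F (T t1243 (L l47 (L l245 (T t100 (T t50 N))))))) (K a149 (M a16 (F (T t112 (L l245 (L l301 (T t173 (L l89 (L l170 (L l356 (T t102 N)))))))))) (K a213 (Fr a170 a255 l476 (Fr a42 a21 l68 (Fr a106 a234 l390 (Fr a192 a149 l519 (V t581))))) (K a42 (M a48 (F (T t364 (L l390 (T t50 (L l28 (L l245 (T t100 N)))))))) (K a106 (M a48 (F (T t1 (L l104 (L l245 (T t509 (L l390 (T t50 N)))))))) (K a170 (M a16 (F (L l390 (L l404 (T t97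 (L l90 (L l245 (L l390 (T t98 (L l245 (L l404 (T t113 (L l245 (L l301 (L l404 (T t174 N)))))))))))))))) (K a255 (M a16 (F (T t112 (L l245 (L l289 (T t113 (L l90 (L l245 (L l289 (L l296 (T t98 N))))))))))) N)))))))))))))))⟩
def e0_63__219_62 : Ent 4 := ⟨[a0, a63], [a219, a93], (M a85 (F (T t88 (L l138 (L l470 (T t52 (T t89 (T t90 (K a64 (M a240 (F (T t933 (L l89 (T t387 N))))) (K a192 (M a16 (F (T t112 (L l245 (L l362 (T t96 (L l245 (L l296 (L l362 (T t98 N)))))))))) (K a21 (M a48 (F (T t1243 (L l47 (L l138 (L l245 (L l362 (T t100 (L l138 (T t50 N)))))))))) (K a149 (M a16 (F (T t112 (L l245 (L l301 (L l362 (T t173 (L l89 (L l170 (L l356 (T t102 N))))))))))) (K a213 (Fr a170 a255 l476 (Fr a42 a21 l68 (Fr a106 a234 l390 (Fr a192 a149 l519 (V t581))))) (K a42 (M a48 (F (L l470 (T t364 (L l138 (L l390 (T t50 (L l28 (L l138 (L l245 (L l362 (T t100 N)))))))))))) (K a106 (M a48 (F (T t1 (L l104 (L l245 (L l362 (T t509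 (L l138 (L l390 (T t50 N)))))))))) (K a170 (M a16 (F (L l390 (L l404 (T t97 (L l245 (L l362 (L l390 (T t98 (L l138 (L l245 (L l362 (L l404 (T t113 (L l245 (L l301 (L l362 (L l404 (T t174 N))))))))))))))))))) (K a255 (M a12 (F (T t1252 (L l138 (L l265 (L l359 (T t574 (L l265 (L l296 (T t572 (L l265 (L l296 (L l301 (T t1923 N)))))))))))))) N)))))))))))))))))⟩
def e0_63__219_63 : Ent 4 := ⟨[a0, a63], [a219, a94], (M a85 (F (T t88 (T t52 (T t89 (T t90 (K a64 (M a240 (F (T t933 (L l89 (T t387 N))))) (K a192 (M a16 (F (T t112 (L l245 (T t96 (L l245 (L l296 (T t98 N)))))))) (K a21 (M a48 (F (T t1243 (L l47 (L l245 (T t100 (T t50 N))))))) (K a149 (M a16 (F (T t112 (L l245 (L l301 (T t173 (L l89 (L l170 (L l356 (T t102 N)))))))))) (K a213 (Fr a170 a255 l476 (Fr a42 a21 l68 (Fr a106 a234 l390 (Fr a192 a149 l519 (V t581))))) (K a42 (M a48 (F (T t364 (L l390 (T t50 (L l28 (L l245 (T t100 N)))))))) (K a106 (M a48 (F (T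 t364 (L l471 (T t1 (L l390 (T t50 N))))))) (K a170 (M a16 (F (L l390 (L l404 (T t112 (L l245 (L l390 (T t98 (L l245 (L l404 (T t113 (L l245 (L l301 (L l404 (T t174 N))))))))))))))) (K a255 (M a16 (F (T t112 (L l245 (L l289 (T t113 (L l245 (L l289 (L l296 (T t98 N)))))))))) N)))))))))))))))⟩
def e0_63__219_64 : Ent 4 := ⟨[a0, a63], [a219, a95], (M a85 (F (T t88 (L l137 (L l469 (T t52 (T t89 (T t90 (K a64 (M a252 (F (T t93 (L l93 (T t92 N))))) (K a192 (M a16 (F (T t112 (T t1924 (L l296 (T t1925 N)))))) (K a21 (M a48 (F (T t1243 (L l47 (L l137 (L l245 (L l361 (T t100 (L l137 (T t50 N)))))))))) (K a149 (M a48 (F (T t132 (L l220 (L l301 (T t873 (L l137 (L l220 (T t50 N))))))))) (K a213 (Fr a170 a255 l476 (Fr a42 a21 l68 (Fr a106 a234 l390 (Fr a192 a149 l519 (V t581))))) (K a42 (M a48 (F (L l469 (T t364 (L l137 (L l390 (T t50 (L l28 (L l137 (L l245 (L l361 (T t100 N)))))))))))) (K a106 (M a48 (F (T t48 (L l104 (L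 l245 (L l361 (T t509 (L l137 (L l390 (T t50 N)))))))))) (K a170 (M a48 (F (T t607 (L l137 (L l245 (L l361 (L l404 (T t100 (L l390 (T t51 (L l245 (L l361 (L l390 (L l404 (T t568 N))))))))))))))) (K a255 (M a15 (F (T t1254 (L l137 (L l266 (L l361 (T t1497 (L l266 (L l296 (T t1484 (L l266 (L l296 (T t1926 N))))))))))))) N)))))))))))))))))⟩
def e0_63__219_65 : Ent 4 := ⟨[a0, a63], [a219, a96], (M a12 (F (T t122 (T t151 (T t152 (T t153 (K a4 (M a60 (F (T t43 (T t398 (T t448 N))))) (K a8 (M a60 (F (T t67 (T t398 (L l52 (L l56 (T t448 N))))))) (K a21 (M a192 (F (T t468 (L l15 (L l301 (L l347 (T t450 (L l15 (L l347 (T t157 N)))))))))) (K a25 (M a192 (F (T t449 (L l15 (L l301 (T t450 (T t21 N))))))) (K a29 (M a192 (F (T t449 (L l371 (T t21 (L l104 (T t160 N))))))) (K a38 (M a192 (F (T t468 (L l301 (T t450 (T t21 N)))))) (K a42 (M a192 (F (T t449 (L l301 (T t450 (L l56 (T t157 N))))))) (K a46 (M a192 (F (T t449 (T t21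 (L l26 (L l104 (L l408 (T t160 N)))))))) (K a51 (M a192 (F (T t57 (L l513 (T t156 (L l301 (L l415 (T t450 N)))))))) N)))))))))))))))⟩
def e0_63__219_66 : Ent 4 := ⟨[a0, a63], [a219, a97], (M a149 (F (T t5 (T t175 (T t176 (T t177 (K a192 (M a53 (F (L l339 (T t982 (L l236 (T t179 (L l236 (L l296 (T t180 N))))))))) (K a21 (M a48 (F (L l96 (T t4 (L l121 (T t13 (L l18 (T t14 N)))))))) (K a85 (M a16 (F (L l380 (T t97 (L l96 (L l144 (L l380 (T t190 (L l94 (T t278 N)))))))))) (K a213 (Fr a106 a192 l519 (Fr a42 a21 l68 (Fr a170 a234 l390 (Fr a255 a85 l476 (V t582))))) (K a42 (M a48 (F (T t11 (L l121 (L l390 (T t13 (L l54 (T t14 N)))))))) (K a106 (M a48 (F (T t1 (L l498 (T t14 (L l390 (L l498 (T t6 (L l245 (L l380 (L l390 (T t26 N)))))))))))) (K a170 (M a48 (F (T t11 (L l462 (T t1 (L l121 (L l390 (T t13 N)))))))) (K a191 (M a204 (F (T t1043 (L l485 (T t1112 N))))) (K a255 (M a16 (F (L l380 (T t112 (L l245 (L l289 (L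 l296 (T t191 (L l356 (L l380 (T t192 N))))))))))) N)))))))))))))))⟩
def e0_63__219_67 : Ent 4 := ⟨[a0, a63], [a219, a98], (M a48 (F (T t1 (T t2 (T t3 (T t0 (K a16 (M a60 (F (T t43 (L l486 (L l489 (T t64 (T t65 N))))))) (K a32 (M a60 (F (T t67 (L l486 (L l489 (T t64 (L l24 (L l28 (T t65 N))))))))) (K a21 (M a192 (F (T t27 (L l47 (L l301 (L l347 (T t20 (L l47 (L l245 (L l347 (T t29 N))))))))))) (K a37 (M a192 (F (T t27 (L l47 (L l301 (T t20 (T t21 N))))))) (K a53 (M a192 (F (T t27 (L l491 (T t21 (L l96 (L l102 (T t31 N)))))))) (K a26 (M a192 (F (T t27 (L l301 (T t20 (T t21 N)))))) (K a42 (M a192 (F (T t27 (L l301 (T t20 (L l28 (L l245 (T t29 N)))))))) (K a58 (M a192 (F (T t27 (T t21 (L l54 (L l96 (L l102 (L l498 (T t31 N))))))))) (K a15 (M a192 (F (T t57 (L l483 (T t27 (L l301 (L l325 (T t20 N)))))))) N)))))))))))))))⟩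
def e0_63__219_68 : Ent 4 := ⟨[a0, a63], [a219, a99], (M a85 (F (T t88 (T t52 (T t89 (T t90 (K a64 (M a16 (F (T t97 (L l84 (L l245 (T t96 (L l116 (L l245 (T t98 N))))))))) (K a192 (M a16 (F (T t112 (L l245 (T t96 (L l245 (L l296 (T t98 N)))))))) (K a21 (M a48 (F (T t1243 (L l47 (L l245 (T t100 (T t50 N))))))) (K a149 (M a16 (F (T t112 (L l245 (L l301 (T t173 (L l103 (L l170 (L l356 (T t102 N)))))))))) (K a213 (Fr a170 a255 l476 (Fr a42 a21 l68 (Fr a106 a234 l390 (Fr a192 a149 l519 (V t581))))) (K a42 (M a48 (F (T t364 (L l390 (T t50 (L l28 (L l245 (T t100 N)))))))) (K a106 (M a48 (F (T t1 (L l104 (L l245 (T t509 (L l390 (T t50 N)))))))) (K a170 (M a16 (F (L l390 (L l404 (T t97 (L l245 (L l390 (T t98 (L l245 (L l404 (T t113 (L l245 (L l301 (L l404 (T t174 N))))))))))))))) (K a255 (M a16 (F (T t112 (L l245 (L l289 (T t113 (L l245 (L l289 (L l296 (T t98 N)))))))))) N)))))))))))))))⟩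
def e0_63__219_69 : Ent 4 := ⟨[a0, a63], [a219, a100], (M a85 (F (T t88 (T t52 (T t89 (T t90 (K a64 (M a252 (F (T t91 (L l400 (T t92 N))))) (K a192 (M a16 (F (L l400 (T t112 (L l245 (L l296 (T t666 (L l245 (L l296 (T t98 N)))))))))) (K a21 (M a48 (F (L l18 (T t364 (T t50 (L l47 (L l245 (L l400 (T t100 N))))))))) (K a149 (M a16 (F (L l400 (T t112 (L l245 (T t666 (L l170 (L l356 (T t102 N))))))))) (K a213 (Fr a170 a255 l476 (Fr a42 a21 l68 (Fr a106 a234 l390 (Fr a192 a149 l519 (V t581))))) (K a42 (M a48 (F (T t364 (L l390 (T t50 (L l28 (L l245 (L l400 (T t100 N))))))))) (K a106 (M a48 (F (T t364 (T t1 (L l390 (T t50 N)))))) (K a170 (M a16 (F (L l390 (L l400 (L l404 (T t97 (L l245 (L l390 (T t98 (L l245 (L l400 (L l404 (T t113 (L l245 (L l301 (L l400 (L l404 (T t174 N)))))))))))))))))) (K a255 (M a16 (F (L l400 (T t112 (L l245 (L l289 (L l296 (T t98 (L l245 (L l289 (L l400 (T t113 N)))))))))))) N)))))))))))))))⟩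
def e0_63__219_70 : Ent 4 := ⟨[a0, a63], [a219, a101], (M a12 (F (T t122 (T t151 (T t152 (T t153 (K a4 (M a60 (F (T t43 (T t398 (T t448 N))))) (K a8 (M a60 (F (T t67 (T t398 (L l52 (L l56 (T t448 N))))))) (K a21 (M a192 (F (T t836 (L l15 (L l301 (L l347 (L l491 (T t450 (L l15 (L l347 (L l491 (T t157 N)))))))))))) (K a25 (M a192 (F (T t449 (L l15 (L l301 (L l491 (T t450 (L l491 (T t21 N))))))))) (K a29 (M a192 (F (T t449 (L l371 (L l491 (T t21 (L l104 (T t160 N)))))))) (K a38 (M a192 (F (T t156 (L l301 (L l491 (T t450 (L l491 (T t21 N)))))))) (K a42 (M a192 (F (T t449 (L l301 (L l491 (T t450 (L l56 (L l491 (T t157 N))))))))) (K a46 (M a192 (F (T t449 (L l491 (T t21 (L l26 (L l104 (L l408 (T t160 N))))))))) (K a51 (M a192 (F (T t1725 (L l301 (L l415 (L l491 (T t450 (L l439 (L l491 (T t21 N)))))))))) N)))))))))))))))⟩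
def e0_63__219_71 : Ent 4 := ⟨[a0, a63], [a219, a102], (M a48 (F (T t1 (T t2 (T t3 (T t0 (K a16 (M a60 (F (T t43 (L l510 (L l513 (T t64 (T t65 N))))))) (K a32 (M a60 (F (T t67 (L l510 (L l513 (T t64 (L l24 (L l28 (T t65 N))))))))) (K a21 (M a192 (F (T t837 (L l47 (L l301 (L l347 (L l495 (T t20 (L l47 (L l245 (L l347 (L l495 (T t29 N))))))))))))) (K a37 (M a192 (F (T t19 (L l47 (L l301 (L l495 (T t20 (L l495 (T t21 N))))))))) (K a53 (M a192 (F (T t19 (L l491 (L l495 (T t21 (L l102 (T t31 N)))))))) (K a26 (M a192 (F (T t27 (L l301 (L l495 (T t20 (L l495 (T t21 N)))))))) (K a42 (M a192 (F (T t19 (L l301 (L l495 (T t20 (L l28 (L l245 (L l495 (T t29 N)))))))))) (K a58 (M a192 (F (T t19 (L l495 (T t21 (L l54 (L l102 (L l498 (T t31 N))))))))) (K a15 (M a192 (F (T t1922 (L l301 (L l325 (L l495 (T t20 (L l469 (L l495 (T t21 N)))))))))) N)))))))))))))))⟩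
def e0_63__219_72 : Ent 4 := ⟨[a0, a63], [a219, a103], (M a85 (F (T t88 (T t52 (T t89 (T t90 (K a64 (M a204 (F (T t1575 (L l125 (T t1576 N))))) (K a192 (M a16 (F (T t112 (L l97 (L l245 (T t96 (L l245 (L l296 (T t98 N))))))))) (K a21 (M a48 (F (T t1243 (L l47 (L l245 (T t100 (T t50 N))))))) (K a149 (M a16 (F (T t112 (L l245 (L l301 (L l511 (T t173 (L l103 (L l170 (L l356 (T t102 N))))))))))) (K a213 (Fr a170 a255 l476 (Fr a42 a21 l68 (Fr a106 a234 l390 (Fr a192 a149 l519 (V t581))))) (K a42 (M a48 (F (L l403 (T t364 (L l390 (T t50 (L l28 (L l245 (T t100 N))))))))) (K a106 (M a48 (F (T t1 (L l97 (L l104 (L l245 (T t509 (L l390 (T t50 N))))))))) (K a170 (M a16 (F (L l390 (L l404 (T t97 (L l245 (L l390 (T t98 (L l245 (L l404 (T t113 (L l245 (L l301 (L l404 (L l511 (T t174 N)))))))))))))))) (K a255 (M a16 (F (T t112 (L l245 (L l289 (T t113 (L l245 (L l289 (L l296 (T t98 N)))))))))) N)))))))))))))))⟩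
def e0_63__219_73 : Ent 4 := ⟨[a0, a63], [a219, a104], (M a48 (F (T t1 (T t2 (T t3 (T t0 (K a16 (M a60 (F (T t64 (L l14 (L l18 (T t67 (L l388 (T t65 N)))))))) (K a32 (M a60 (F (T t67 (T t64 (L l24 (L l28 (L l388 (T t65 N)))))))) (K a21 (M a192 (F (T t27 (L l47 (L l301 (L l347 (T t20 (L l47 (L l245 (L l347 (T t29 N))))))))))) (K a37 (M a192 (F (T t27 (L l47 (L l301 (T t20 (T t21 N))))))) (K a53 (M a192 (F (T t27 (L l491 (T t21 (L l98 (L l100 (T t31 N)))))))) (K a26 (M a192 (F (T t27 (L l301 (T t20 (T t21 N)))))) (K a42 (M a192 (F (T t27 (L l301 (T t20 (L l28 (L l245 (T t29 N)))))))) (K a58 (M a192 (F (T t27 (T t21 (L l54 (L l98 (L l100 (L l498 (T t31 N))))))))) (K a15 (M a192 (F (T t57 (L l483 (T t27 (L l301 (L l325 (T t20 N)))))))) N)))))))))))))))⟩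
def e0_63__219_74 : Ent 4 := ⟨[a0, a63], [a219, a105], (M a48 (F (T t1 (T t2 (T t3 (T t0 (K a16 (M a60 (F (T t42 (L l14 (L l18 (T t67 (L l392 (T t65 N)))))))) (K a32 (M a60 (F (T t67 (L l515 (T t64 (L l24 (L l28 (L l392 (T t65 N))))))))) (K a21 (M a192 (F (T t837 (L l47 (L l301 (L l347 (L l515 (T t20 (L l47 (L l245 (L l347 (L l515 (T t29 N))))))))))))) (K a37 (M a192 (F (T t19 (L l47 (L l301 (L l515 (T t20 (L l515 (T t21 N))))))))) (K a53 (M a192 (F (T t19 (L l491 (L l515 (T t21 (L l98 (T t31 N)))))))) (K a26 (M a192 (F (T t27 (L l301 (L l515 (T t20 (L l515 (T t21 N)))))))) (K a42 (M a192 (F (T t19 (L l301 (L l515 (T t20 (L l28 (L l245 (L l515 (T t29 N)))))))))) (K a58 (M a192 (F (T t19 (L l515 (T t21 (L l54 (L l98 (L l498 (T t31 N))))))))) (K a15 (M a192 (F (T t1922 (L l301 (L l325 (L l515 (T t20 (L l469 (L l515 (T t21 N)))))))))) N)))))))))))))))⟩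
def e0_63__219_75 : Ent 4 := ⟨[a0, a63], [a219, a106], (M a12 (F (T t122 (L l390 (L l408 (T t151 (L l501 (T t152 (L l390 (T t153 (K a4 (M a60 (F (T t398 (L l46 (L l50 (L l393 (T t67 (L l390 (L l408 (T t448 N)))))))))) (K a8 (M a60 (F (T t398 (L l393 (T t67 (L l52 (L l56 (L l390 (L l408 (T t448 N)))))))))) (K a21 (M a255 (F (T t2486 (L l301 (L l390 (T t2137 (L l50 (L l144 (L l283 (L l347 (L l408 (T t2487 N)))))))))))) (K a25 (M a48 (F (T t550 (L l15 (T t1 (L l12 (L l56 (L l356 (L l390 (L l498 (T t866 N))))))))))) (K a29 (M a48 (F (T t550 (L l15 (T t1 (L l356 (L l390 (L l498 (T t866 N))))))))) (K a38 (M a48 (F (L l356 (T t1580 (L l26 (L l390 (T t0 (L l21 (L l50 (L l355 (T t868 N))))))))))) (K a42 (M a170 (F (L l283 (T t2501 (L l144 (T t2498 (L l26 (L l132 (L l144 (L l283 (L l408 (T t2499 (L l26 (L l283 (L l301 (L l408 (T t2500 N))))))))))))))))) (K a46 (M a48 (L l408 (F (T t443 (T t1 (L l26 (L l356 (L l390 (L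 l498 (T t866 (K a226 (M a166 (F (T t1 (L l132 (L l356 (L l396 (T t2624 N))))))) (K a166 (M a226 (F (T t1 (L l356 (T t1580 (L l26 (L l356 (L l390 (L l498 (T t866 N)))))))))) N)))))))))))) (K a51 (M a16 (F (T t2517 (L l73 (L l390 (T t97 (L l356 (L l390 (L l408 (T t872 N)))))))))) N)))))))))))))))))))⟩
def e0_63__219_76 : Ent 4 := ⟨[a0, a63], [a219, a107], (M a149 (F (T t5 (T t175 (T t176 (L l98 (T t177 (K a192 (M a53 (F (T t178 (L l236 (T t179 (L l236 (L l296 (T t180 N)))))))) (K a21 (M a48 (F (T t4 (L l98 (T t13 (L l18 (T t14 N))))))) (K a85 (M a16 (F (T t97 (L l98 (L l144 (T t190 (L l94 (T t278 N)))))))) (K a213 (Fr a106 a192 l519 (Fr a42 a21 l68 (Fr a170 a234 l390 (Fr a255 a85 l476 (V t582))))) (K a42 (M a48 (F (T t187 (L l98 (L l390 (T t13 (L l54 (T t14 N)))))))) (K a106 (M a105 (F (L l390 (T t1931 (L l283 (L l391 (L l516 (T t1932 (L l283 (L l390 (L l391 (L l516 (T t1933 (L l390 (L l516 (T t1934 (L l245 (L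 l516 (T t1935 N))))))))))))))))))) (K a170 (M a48 (F (T t4 (L l462 (T t1 (L l98 (L l390 (T t13 N)))))))) (K a191 (M a16 (F (T t97 (L l98 (T t190 (L l213 (L l245 (T t191 N)))))))) (K a255 (M a16 (F (T t112 (L l98 (L l266 (T t190 (L l245 (L l289 (L l296 (T t191 N)))))))))) N))))))))))))))))⟩
def e0_63__219_77 : Ent 4 := ⟨[a0, a63], [a219, a108], (M a85 (F (T t88 (T t52 (T t89 (T t90 (K a64 (M a16 (F (T t97 (L l84 (L l245 (T t96 (L l116 (L l245 (T t98 N))))))))) (K a192 (M a16 (F (T t112 (L l245 (T t96 (L l245 (L l296 (T t98 N)))))))) (K a21 (M a48 (F (T t1243 (L l47 (L l245 (T t100 (T t50 N))))))) (K a149 (M a16 (F (T t112 (L l245 (L l301 (T t173 (L l99 (L l170 (L l356 (T t102 N)))))))))) (K a213 (Fr a170 a255 l476 (Fr a42 a21 l68 (Fr a106 a234 l390 (Fr a192 a149 l519 (V t581))))) (K a42 (M a48 (F (T t364 (L l390 (T t50 (L l28 (L l245 (T t100 N)))))))) (K a106 (M a48 (F (T t1 (L l104 (L l245 (T t509 (L l390 (T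 t50 N)))))))) (K a170 (M a16 (F (L l390 (L l404 (T t97 (L l245 (L l390 (T t98 (L l245 (L l404 (T t113 (L l245 (L l301 (L l404 (T t174 N))))))))))))))) (K a255 (M a16 (F (T t112 (L l245 (L l289 (T t113 (L l245 (L l289 (L l296 (T t98 N)))))))))) N)))))))))))))))⟩
def e0_63__219_78 : Ent 4 := ⟨[a0, a63], [a219, a109], (M a149 (F (T t5 (T t175 (T t176 (T t177 (K a192 (M a53 (F (T t178 (L l236 (L l398 (T t179 (L l236 (L l296 (T t180 N))))))))) (K a21 (M a48 (F (T t4 (T t13 (L l18 (L l398 (T t14 N))))))) (K a85 (M a16 (F (T t97 (L l144 (T t190 (L l94 (T t278 N))))))) (K a213 (Fr a106 a192 l519 (Fr a42 a21 l68 (Fr a170 a234 l390 (Fr a255 a85 l476 (V t582))))) (K a42 (M a48 (F (T t11 (L l390 (T t13 (L l54 (L l398 (T t14 N)))))))) (K a106 (M a48 (F (T t1 (L l398 (L l498 (T t14 (L l390 (L l498 (T t6 (L l245 (L l390 (T t26 N)))))))))))) (K a170 (M a48 (F (T t4 (L l462 (T t1 (L l390 (T t13 N))))))) (K a191 (M a204 (F (T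 t1043 (L l99 (T t1112 N))))) (K a255 (M a16 (F (T t112 (L l266 (T t190 (L l245 (L l289 (L l296 (T t191 N))))))))) N)))))))))))))))⟩
def e0_63__219_79 : Ent 4 := ⟨[a0, a63], [a219, a110], (M a149 (F (T t5 (T t175 (T t176 (L l102 (T t177 (K a192 (M a53 (F (T t178 (L l236 (T t179 (L l236 (L l296 (T t180 N)))))))) (K a21 (M a48 (F (T t4 (L l102 (T t13 (L l18 (T t14 N))))))) (K a85 (M a16 (F (T t97 (L l102 (L l144 (T t190 (L l94 (T t278 N)))))))) (K a213 (Fr a106 a192 l519 (Fr a42 a21 l68 (Fr a170 a234 l390 (Fr a255 a85 l476 (V t582))))) (K a42 (M a48 (F (T t187 (L l102 (L l390 (T t13 (L l54 (T t14 N)))))))) (K a106 (M a102 (F (L l390 (T t1202 (L l396 (L l501 (T t1203 (L l390 (L l501 (T t1204 (L l390 (L l501 (T t1205 (L l501 (T t1206 N))))))))))))))) (K a170 (M a48 (F (T t4 (L l462 (T t1 (L l102 (L l390 (T t13 N)))))))) (K a191 (M a16 (F (T t97 (L l102 (T t190 (L l213 (L l245 (T t191 N)))))))) (K a255 (M a16 (F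 (T t112 (L l102 (L l266 (T t190 (L l245 (L l289 (L l296 (T t191 N)))))))))) N))))))))))))))))⟩
def e0_63__219_80 : Ent 4 := ⟨[a0, a63], [a219, a111], (M a149 (F (T t5 (T t175 (T t176 (L l104 (T t177 (K a192 (M a53 (F (T t178 (L l236 (L l296 (T t180 (L l236 (L l397 (T t179 N))))))))) (K a21 (M a240 (F (T t1090 (L l104 (T t1091 (L l397 (T t1207 N))))))) (K a85 (M a48 (F (T t1 (L l301 (T t184 (L l104 (L l144 (T t13 N)))))))) (K a213 (Fr a106 a192 l519 (Fr a42 a21 l68 (Fr a170 a234 l390 (Fr a255 a85 l476 (V t582))))) (K a42 (M a240 (F (T t1090 (L l104 (L l390 (T t1091 (L l397 (T t1207 N)))))))) (K a106 (M a101 (F (L l390 (T t1208 (L l397 (L l498 (T t1209 (L l356 (L l390 (L l397 (L l498 (T t1210 (L l390 (L l498 (T t1211 (L l245 (L l301 (L l498 (T t1212 N))))))))))))))))))) (K a170 (M a48 (F (L l462 (T t1 (L l301 (T t184 (L l104 (L l390 (T t13 N))))))))) (K a191 (M a16 (F (T t97 (L l213 (L l301 (T t1213 (L l213 (L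 l245 (T t191 N))))))))) (K a255 (M a16 (F (T t112 (L l289 (L l301 (T t1213 (L l245 (L l289 (L l296 (T t191 N)))))))))) N))))))))))))))))⟩
def e0_63__219_81 : Ent 4 := ⟨[a0, a63], [a219, a112], (M a149 (F (T t25 (T t175 (T t176 (L l116 (T t177 (K a192 (M a53 (F (T t178 (L l236 (T t179 (L l236 (L l296 (T t180 N)))))))) (K a21 (M a240 (F (T t1937 (L l116 (T t962 (L l114 (L l116 (T t1207 N)))))))) (K a85 (M a16 (F (T t97 (L l116 (L l144 (L l412 (T t190 (L l94 (L l151 (T t278 N)))))))))) (K a213 (Fr a106 a192 l519 (Fr a42 a21 l68 (Fr a170 a234 l390 (Fr a255 a85 l476 (V t582))))) (K a42 (M a240 (F (T t1937 (L l28 (L l116 (L l390 (T t962 (L l114 (L l116 (T t1207 N)))))))))) (K a106 (M a48 (F (T t1 (L l498 (T t14 (L l114 (L l390 (L l498 (T t6 (L l245 (L l390 (T t26 N)))))))))))) (K a170 (M a48 (F (T t3 (T t11 (L l116 (L l390 (L l404 (T t1938 N)))))))) (K a191 (M a16 (F (T t97 (L l116 (L l412 (T t190 (L l116 (L l213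 (L l245 (T t191 N)))))))))) (K a255 (M a16 (F (T t112 (L l116 (L l266 (L l412 (T t190 (L l116 (L l245 (L l289 (L l296 (T t191 N)))))))))))) N))))))))))))))))⟩
def e0_63__219_82 : Ent 4 := ⟨[a0, a63], [a219, a113], (M a85 (F (T t88 (T t52 (T t89 (T t90 (K a64 (M a16 (F (T t97 (L l84 (L l147 (L l245 (T t96 (L l116 (L l245 (T t98 N)))))))))) (K a192 (M a16 (F (T t112 (L l147 (L l245 (T t96 (L l245 (L l296 (T t98 N))))))))) (K a21 (M a48 (F (T t1243 (L l47 (L l245 (T t100 (L l111 (T t50 N)))))))) (K a149 (M a16 (F (T t112 (L l245 (L l301 (T t173 (L l170 (L l356 (T t102 N))))))))) (K a213 (Fr a170 a255 l476 (Fr a42 a21 l68 (Fr a106 a234 l390 (Fr a192 a149 l519 (V t581))))) (K a42 (M a48 (F (L l111 (T t364 (L l28 (L l245 (T t100 (L l111 (L l390 (T t50 N)))))))))) (K a106 (M a48 (F (T t1 (L l104 (L l147 (L l245 (T t509 (L l111 (L l390 (T t50 N)))))))))) (K a170 (M a16 (F (L l390 (L l404 (T t97 (L l245 (L l390 (T t98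 (L l245 (L l404 (T t113 (L l245 (L l301 (L l404 (T t174 N))))))))))))))) (K a255 (M a16 (F (T t112 (L l245 (L l289 (T t113 (L l245 (L l289 (L l296 (T t98 N)))))))))) N)))))))))))))))⟩
def e0_63__219_83 : Ent 4 := ⟨[a0, a63], [a219, a114], (M a149 (F (T t5 (T t175 (T t176 (T t177 (K a192 (M a53 (F (T t178 (L l236 (T t179 (L l236 (L l296 (T t180 N)))))))) (K a21 (M a48 (F (T t4 (L l106 (L l417 (T t13 (L l18 (T t14 N)))))))) (K a85 (M a16 (F (T t97 (L l144 (L l417 (T t190 (L l94 (L l148 (T t278 N))))))))) (K a213 (Fr a106 a192 l519 (Fr a42 a21 l68 (Fr a170 a234 l390 (Fr a255 a85 l476 (V t582))))) (K a42 (M a48 (F (T t187 (L l106 (L l390 (L l417 (T t13 (L l54 (T t14 N))))))))) (K a106 (M a48 (F (T t1 (L l498 (T t14 (L l390 (L l498 (T t6 (L l245 (L l390 (T t26 N))))))))))) (K a170 (M a48 (F (T t4 (L l462 (T t1 (L l106 (L l390 (L l417 (T t13 N))))))))) (K a191 (M a252 (F (T t1850 (L l112 (T t941 N))))) (K a255 (M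 a16 (F (T t112 (L l266 (L l417 (T t190 (L l245 (L l289 (L l296 (T t191 N)))))))))) N)))))))))))))))⟩
def e0_63__219_84 : Ent 4 := ⟨[a0, a63], [a219, a115], (M a149 (F (T t25 (T t175 (T t176 (L l120 (T t177 (K a192 (M a53 (F (T t178 (L l236 (T t179 (L l236 (L l296 (T t180 N)))))))) (K a21 (M a48 (F (T t4 (L l106 (T t13 (L l18 (T t14 N))))))) (K a85 (M a16 (F (T t97 (L l144 (T t190 (L l94 (T t278 N))))))) (K a213 (Fr a106 a192 l519 (Fr a42 a21 l68 (Fr a170 a234 l390 (Fr a255 a85 l476 (V t582))))) (K a42 (M a48 (F (T t187 (L l106 (L l390 (T t13 (L l54 (T t14 N)))))))) (K a106 (M a48 (F (T t1 (L l498 (T t14 (L l390 (L l498 (T t6 (L l245 (L l390 (T t26 N))))))))))) (K a170 (M a48 (F (T t4 (L l462 (T t1 (L l106 (L l390 (T t13 N)))))))) (K a191 (M a204 (F (T t1043 (T t1112 N)))) (K a255 (M a16 (F (T t112 (L l266 (T t190 (L l245 (L l289 (L l296 (T t191 N))))))))) N))))))))))))))))⟩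
def e0_63__219_85 : Ent 4 := ⟨[a0, a63], [a219, a116], (M a85 (F (T t88 (T t52 (T t89 (T t90 (K a64 (M a204 (F (T t1744 (L l107 (T t1576 N))))) (K a192 (M a16 (F (T t112 (L l127 (L l245 (T t96 (L l245 (L l296 (T t98 N))))))))) (K a21 (M a48 (F (T t1243 (L l47 (L l245 (T t100 (L l107 (T t50 N)))))))) (K a149 (M a16 (F (T t112 (L l245 (L l301 (T t173 (L l170 (L l356 (T t102 N))))))))) (K a213 (Fr a170 a255 l476 (Fr a42 a21 l68 (Fr a106 a234 l390 (Fr a192 a149 l519 (V t581))))) (K a42 (M a48 (F (L l107 (T t364 (L l28 (L l245 (T t100 (L l107 (L l390 (T t50 N)))))))))) (K a106 (M a48 (F (T t1 (L l104 (L l127 (L l245 (T t509 (L l107 (L l390 (T t50 N)))))))))) (K a170 (M a16 (F (L l390 (L l404 (T t97 (L l245 (L l390 (T t98 (L l245 (L l404 (T t113 (L l245 (L l301 (L l404 (T t174 N))))))))))))))) (K a255 (M a16 (F (T t112 (L l245 (L l289 (T t113 (L l245 (L l289 (L l296 (T t98 N)))))))))) N)))))))))))))))⟩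
def e0_63__219_86 : Ent 4 := ⟨[a0, a63], [a219, a117], (M a85 (F (T t88 (L l114 (L l440 (T t52 (T t89 (T t90 (K a64 (M a204 (F (T t1575 (L l107 (T t1576 N))))) (K a192 (M a16 (F (T t112 (L l245 (T t96 (L l245 (L l296 (T t98 N)))))))) (K a21 (M a12 (F (T t4326 (L l15 (L l114 (L l422 (T t574 (L l114 (T t124 N))))))))) (K a149 (M a16 (F (T t112 (L l245 (L l491 (T t96 (L l170 (L l356 (T t102 N))))))))) (K a213 (Fr a170 a255 l476 (Fr a42 a21 l68 (Fr a106 a234 l390 (Fr a192 a149 l519 (V t581))))) (K a42 (M a12 (F (L l283 (L l440 (T t1373 (L l114 (L l390 (T t124 (L l56 (L l114 (L l422 (T t574 N)))))))))))) (K a106 (M a12 (F (T t122 (L l132 (L l356 (L l422 (T t123 (L l114 (L l390 (T t124 N)))))))))) (K a170 (M a16 (F (L l390 (L l404 (T t97 (L l245 (L l390 (T t98 (L l114 (L l245 (L l404 (L l419 (T t113 (L l245 (L l301 (L l404 (T t174 N))))))))))))))))) (K a255 (M a48 (F (T t132 (L l114 (L l245 (L l289 (L l419 (T t100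 (L l245 (L l289 (L l296 (T t568 (L l289 (L l296 (L l301 (T t1579 N)))))))))))))))) N)))))))))))))))))⟩
def e0_63__219_87 : Ent 4 := ⟨[a0, a63], [a219, a118], (M a85 (F (T t88 (T t52 (T t89 (T t90 (K a64 (M a204 (F (T t1575 (L l107 (T t1576 N))))) (K a192 (M a16 (F (T t112 (L l245 (T t96 (L l245 (L l296 (T t98 N)))))))) (K a21 (M a48 (F (L l245 (T t360 (L l107 (T t50 (L l47 (L l245 (T t100 N))))))))) (K a149 (M a16 (F (T t112 (L l245 (L l301 (T t173 (L l170 (L l356 (T t102 N))))))))) (K a213 (Fr a170 a255 l476 (Fr a42 a21 l68 (Fr a106 a234 l390 (Fr a192 a149 l519 (V t581))))) (K a42 (M a48 (F (L l107 (T t364 (L l28 (L l245 (T t100 (L l107 (L l390 (T t50 N)))))))))) (K a106 (M a48 (F (T t1 (L l104 (L l245 (T t509 (L l107 (L l390 (T t50 N))))))))) (K a170 (M a16 (F (L l390 (L l404 (T t97 (L l245 (L l390 (T t98 (L l245 (L l404 (T t113 (L l245 (L l301 (L l404 (T t174 N))))))))))))))) (K a255 (M a16 (F (T t112 (L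 l245 (L l289 (T t113 (L l245 (L l289 (L l296 (T t98 N)))))))))) N)))))))))))))))⟩
def e0_63__219_88 : Ent 4 := ⟨[a0, a63], [a219, a119], (M a85 (F (T t88 (L l113 (L l439 (T t52 (T t89 (T t90 (K a64 (M a252 (F (T t93 (L l125 (T t92 N))))) (K a192 (M a16 (F (T t1924 (L l339 (T t97 (L l245 (L l296 (T t98 N)))))))) (K a21 (M a48 (F (T t1243 (L l47 (L l113 (L l245 (T t100 (L l107 (L l113 (T t50 N)))))))))) (K a149 (M a16 (F (T t112 (L l245 (L l301 (T t173 (L l170 (L l356 (T t102 N))))))))) (K a213 (Fr a170 a255 l476 (Fr a42 a21 l68 (Fr a106 a234 l390 (Fr a192 a149 l519 (V t581))))) (K a42 (M a48 (F (L l107 (L l439 (T t364 (L l28 (L l113 (L l245 (T t100 (L l107 (L l113 (L l390 (T t50 N))))))))))))) (K a106 (M a48 (F (T t1 (L l104 (L l245 (T t509 (L l107 (L l113 (L l390 (T t50 N)))))))))) (K a170 (M a16 (F (L l390 (L l404 (T t97 (L l245 (L l390 (T t98 (L l113 (L l245 (L l404 (T t113 (L l245 (L l301 (L l404 (T t174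 N)))))))))))))))) (K a255 (M a51 (F (T t1355 (L l113 (L l290 (L l421 (T t945 (L l290 (L l296 (T t1952 (L l290 (L l296 (T t1953 N))))))))))))) N)))))))))))))))))⟩
def e0_63__219_89 : Ent 4 := ⟨[a0, a63], [a219, a120], (M a85 (F (T t88 (T t52 (T t89 (T t90 (K a64 (M a16 (F (T t97 (L l84 (L l245 (T t96 (L l116 (L l245 (T t98 N))))))))) (K a192 (M a16 (F (T t1924 (L l339 (T t97 (L l245 (L l296 (T t98 N)))))))) (K a21 (M a48 (F (T t1243 (L l47 (L l245 (T t100 (L l442 (T t50 N)))))))) (K a149 (M a16 (F (T t112 (L l245 (L l301 (T t173 (L l170 (L l356 (T t102 N))))))))) (K a213 (Fr a170 a255 l476 (Fr a42 a21 l68 (Fr a106 a234 l390 (Fr a192 a149 l519 (V t581))))) (K a42 (M a48 (F (T t364 (L l390 (L l442 (T t50 (L l28 (L l245 (T t100 N))))))))) (K a106 (M a48 (F (T t364 (T t1 (L l390 (L l442 (T t50 N))))))) (K a170 (M a16 (F (L l390 (L l404 (T t97 (L l245 (L l390 (T t98 (L l245 (L l404 (T t113 (L l245 (L l301 (L l404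 (T t174 N))))))))))))))) (K a255 (M a16 (F (T t112 (L l245 (L l289 (T t113 (L l245 (L l289 (L l296 (T t98 N)))))))))) N)))))))))))))))⟩
def e0_63__219_90 : Ent 4 := ⟨[a0, a63], [a219, a121], (M a149 (F (T t5 (T t175 (T t176 (T t177 (K a192 (M a53 (F (T t178 (L l236 (T t179 (L l236 (L l296 (L l443 (T t180 N))))))))) (K a21 (M a48 (F (T t4 (T t13 (L l18 (T t14 N)))))) (K a85 (M a16 (F (T t97 (L l144 (T t190 (L l94 (T t278 N))))))) (K a213 (Fr a106 a192 l519 (Fr a42 a21 l68 (Fr a170 a234 l390 (Fr a255 a85 l476 (V t582))))) (K a42 (M a48 (F (T t187 (L l390 (T t13 (L l54 (T t14 N))))))) (K a106 (M a48 (F (T t1 (L l498 (T t14 (L l111 (L l390 (L l498 (T t6 (L l245 (L l390 (T t26 N)))))))))))) (K a170 (M a48 (F (T t4 (L l462 (T t1 (L l390 (T t13 N))))))) (K a191 (M a240 (F (T t962 (L l108 (T t963 N))))) (K a255 (M a16 (F (T t112 (L l266 (T t190 (L l245 (L l289 (L l296 (T t191 N))))))))) N)))))))))))))))⟩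
def e0_63__219_91 : Ent 4 := ⟨[a0, a63], [a219, a122], (M a149 (F (T t5 (T t175 (T t176 (L l130 (T t177 (K a192 (M a53 (F (L l426 (T t178 (L l236 (L l296 (T t180 (L l236 (L l426 (T t179 N)))))))))) (K a21 (M a48 (F (L l426 (T t4 (L l114 (L l130 (T t13 (L l18 (L l426 (T t14 N)))))))))) (K a85 (M a16 (F (T t97 (L l130 (L l144 (T t190 (L l94 (L l130 (T t278 N))))))))) (K a213 (Fr a106 a192 l519 (Fr a42 a21 l68 (Fr a170 a234 l390 (Fr a255 a85 l476 (V t582))))) (K a42 (M a48 (F (T t187 (L l114 (L l130 (L l390 (T t13 (L l54 (L l426 (T t14 N)))))))))) (K a106 (M a90 (F (L l390 (T t1073 (L l411 (L l426 (T t1040 (L l390 (L l411 (T t1954 (L l390 (L l411 (T t1074 (L l411 (T t1075 N))))))))))))))) (K a170 (M a48 (F (T t11 (L l462 (T t1 (L l114 (L l130 (L l390 (T t13 N))))))))) (K a191 (M a16 (F (T t97 (L l130 (T t190 (L l213 (L l245 (T t191 N)))))))) (K a255 (M a16 (F (L l469 (T t97 (L l130 (L l266 (T t190 (L l245 (L l289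 (L l296 (T t191 N))))))))))) N))))))))))))))))⟩
def e0_63__219_92 : Ent 4 := ⟨[a0, a63], [a219, a123], (M a149 (F (T t5 (T t175 (T t176 (L l132 (T t177 (K a192 (M a53 (F (T t178 (L l236 (T t179 (L l236 (L l296 (T t180 N)))))))) (K a21 (M a48 (F (T t4 (L l132 (T t13 (L l18 (T t14 N))))))) (K a85 (M a16 (F (T t97 (L l132 (L l144 (T t190 (L l94 (T t278 N)))))))) (K a213 (Fr a106 a192 l519 (Fr a42 a21 l68 (Fr a170 a234 l390 (Fr a255 a85 l476 (V t582))))) (K a42 (M a48 (F (T t187 (L l132 (L l390 (T t13 (L l54 (T t14 N)))))))) (K a106 (M a89 (F (L l390 (T t1955 (L l283 (L l408 (L l427 (T t1956 (L l283 (L l390 (L l408 (L l427 (T t1957 (L l390 (L l408 (T t1958 (L l301 (L l408 (T t1959 N))))))))))))))))))) (K a170 (M a48 (F (T t4 (L l462 (T t1 (L l132 (L l390 (T t13 N)))))))) (K a191 (M a16 (F (T t97 (L l132 (T t190 (L l213 (L l245 (T t191 N)))))))) (K a255 (M a16 (F (T t112 (L l132 (L l266 (T t190 (L l245 (L l289 (L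 l296 (T t191 N)))))))))) N))))))))))))))))⟩
def e0_63__219_93 : Ent 4 := ⟨[a0, a63], [a219, a124], (M a149 (F (T t25 (T t175 (T t176 (L l140 (T t177 (K a192 (M a53 (F (T t178 (L l236 (T t179 (L l236 (L l296 (T t180 N)))))))) (K a21 (M a48 (F (T t4 (L l110 (T t13 (L l18 (T t14 N))))))) (K a85 (M a16 (F (T t97 (L l144 (T t190 (L l94 (T t278 N))))))) (K a213 (Fr a106 a192 l519 (Fr a42 a21 l68 (Fr a170 a234 l390 (Fr a255 a85 l476 (V t582))))) (K a42 (M a48 (F (T t187 (L l110 (L l390 (T t13 (L l54 (T t14 N)))))))) (K a106 (M a48 (F (T t1 (L l498 (T t14 (L l390 (L l498 (T t6 (L l245 (L l390 (T t26 N))))))))))) (K a170 (M a48 (F (T t4 (L l462 (T t1 (L l110 (L l390 (T t13 N)))))))) (K a191 (M a252 (F (L l140 (T t940 (L l109 (T t941 N)))))) (K a255 (M a16 (F (T t112 (L l266 (T t190 (L l245 (L l289 (L l296 (T t191 N))))))))) N))))))))))))))))⟩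
def e0_63__219_94 : Ent 4 := ⟨[a0, a63], [a219, a125], (M a85 (F (T t88 (L l109 (L l434 (T t52 (T t89 (T t90 (K a64 (M a16 (F (T t97 (L l84 (L l245 (T t96 (L l116 (L l245 (T t98 N))))))))) (K a192 (M a16 (F (T t1924 (L l339 (T t97 (L l245 (L l296 (T t98 N)))))))) (K a21 (M a48 (F (T t1243 (L l47 (L l109 (L l245 (T t100 (L l109 (L l111 (T t50 N)))))))))) (K a149 (M a16 (F (T t112 (L l245 (L l301 (T t173 (L l170 (L l356 (T t102 N))))))))) (K a213 (Fr a170 a255 l476 (Fr a42 a21 l68 (Fr a106 a234 l390 (Fr a192 a149 l519 (V t581))))) (K a42 (M a48 (F (L l111 (L l434 (T t364 (L l28 (L l109 (L l245 (T t100 (L l109 (L l111 (L l390 (T t50 N))))))))))))) (K a106 (M a48 (F (T t1 (L l104 (L l245 (T t509 (L l109 (L l111 (L l390 (T t50 N)))))))))) (K a170 (M a16 (F (L l390 (L l404 (T t97 (L l245 (L l390 (T t98 (L l109 (L l245 (L l404 (T t113 (L l245 (L l301 (L l404 (T t174 N)))))))))))))))) (K a255 (M a60 (F (T t522 (L l109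 (L l245 (L l295 (L l431 (T t523 (L l245 (L l295 (L l296 (T t115 (L l295 (L l296 (T t524 N))))))))))))))) N)))))))))))))))))⟩
def e0_63__219_95 : Ent 4 := ⟨[a0, a63], [a219, a126], (M a149 (F (T t5 (T t175 (T t176 (L l142 (T t177 (K a192 (M a53 (F (T t178 (L l236 (T t179 (L l236 (L l296 (T t180 N)))))))) (K a21 (M a48 (F (T t4 (L l142 (T t13 (L l18 (T t14 N))))))) (K a85 (M a16 (F (T t97 (L l142 (L l144 (T t190 (L l94 (T t278 N)))))))) (K a213 (Fr a106 a192 l519 (Fr a42 a21 l68 (Fr a170 a234 l390 (Fr a255 a85 l476 (V t582))))) (K a42 (M a48 (F (T t187 (L l142 (L l390 (T t13 (L l54 (T t14 N)))))))) (K a106 (M a86 (F (L l393 (L l432 (T t618 (L l390 (T t620 (L l390 (L l393 (T t1239 (L l390 (L l393 (T t621 (L l393 (T t622 N))))))))))))))) (K a170 (M a48 (F (T t4 (L l462 (T t1 (L l142 (L l390 (T t13 N)))))))) (K a191 (M a16 (F (T t97 (L l142 (T t190 (L l213 (L l245 (T t191 N)))))))) (K a255 (M a16 (F (T t112 (L l142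 (L l266 (T t190 (L l245 (L l289 (L l296 (T t191 N)))))))))) N))))))))))))))))⟩
def e0_63__219_96 : Ent 4 := ⟨[a0, a63], [a219, a127], (M a48 (F (T t1 (T t2 (T t3 (T t0 (K a16 (M a60 (F (T t43 (T t64 (T t65 N))))) (K a32 (M a60 (F (T t67 (T t64 (L l24 (L l28 (T t65 N))))))) (K a21 (M a192 (F (T t28 (L l47 (L l301 (L l347 (T t20 (L l18 (L l144 (T t224 N)))))))))) (K a37 (M a192 (F (T t19 (L l47 (L l301 (T t20 (L l28 (L l144 (T t37 N))))))))) (K a53 (M a192 (F (T t19 (L l144 (T t37 (L l47 (L l137 (L l491 (T t525 N))))))))) (K a26 (M a192 (F (T t28 (L l301 (T t20 (L l54 (L l144 (T t37 N)))))))) (K a42 (M a192 (F (T t19 (L l301 (T t20 (L l54 (L l144 (L l390 (T t224 N))))))))) (K a58 (M a192 (F (T t19 (L l54 (L l144 (L l498 (T t37 (L l137 (T t525 N))))))))) (K a15 (M a106 (F (T t2289 (T t306 N)))) N)))))))))))))))⟩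
def e0_63__219_97 : Ent 4 := ⟨[a0, a63], [a219, a192], (M a48 (F (T t48 (L l339 (T t1 (L l339 (T t2 (L l339 (T t3 (L l339 (T t0 (K a16 (M a60 (F (T t138 (L l14 (L l18 (L l309 (T t67 (T t65 N)))))))) (K a32 (M a60 (F (T t138 (L l309 (T t67 (L l24 (L l28 (T t65 N)))))))) (K a21 (M a255 (F (T t3576 (L l268 (T t1160 (L l47 (L l236 (L l245 (T t548 N))))))))) (K a37 (M a52 (F (T t555 (L l334 (T t82 (L l21 (L l28 (T t84 N)))))))) (K a53 (M a12 (F (T t3475 (L l47 (L l489 (T t122 (L l47 (L l356 (T t146 N))))))))) (K a26 (M a56 (F (T t556 (L l334 (T t133 (L l12 (L l18 (T t135 N)))))))) (K a42 (M a255 (F (T t1260 (L l54 (L l268 (T t1160 (L l28 (L l236 (L l245 (L l390 (T t548 N))))))))))) (K a58 (M a12 (F (T t3475 (L l489 (T t122 (L l356 (T t146 N))))))) (K a15 (M a4 (L l339 (F (T t129 (L l63 (L l356 (L l514 (T t528 (T t520 (K a133 (M a74 (F (T t1604 (L l63 (L l356 (L l514 (T t528 (T t520 N)))))))) (K a74 (M a133 (F (T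 t1604 (L l63 (L l356 (L l514 (T t528 (T t520 N)))))))) N))))))))))) N))))))))))))))))))))⟩
def e0_63__219_98 : Ent 4 := ⟨[a0, a63], [a219, a193], (M a85 (F (T t52 (L l228 (L l293 (T t88 (L l293 (T t89 (L l228 (T t90 (K a64 (M a60 (F (T t114 (L l245 (L l293 (T t115 N)))))) (K a192 (M a195 (F (T t883 (L l245 (L l309 (T t2035 (L l293 (L l296 (T t894 (L l305 (T t2036 N))))))))))) (K a21 (M a48 (F (T t1243 (L l47 (L l245 (T t100 (T t50 N))))))) (K a149 (M a61 (F (L l305 (T t505 (L l220 (L l293 (T t506 (L l217 (T t2037 N))))))))) (K a213 (Fr a170 a255 l476 (Fr a42 a21 l68 (Fr a106 a234 l390 (Fr a192 a149 l519 (V t581))))) (K a42 (M a48 (F (T t364 (L l390 (T t50 (L l28 (L l245 (T t100 N)))))))) (K a106 (M a48 (F (T t364 (T t1 (L l390 (T t50 N)))))) (K a170 (M a16 (F (L l390 (L l404 (T t97 (L l245 (L l293 (L l390 (T t98 (L l245 (L l404 (T t113 (L l233 (L l245 (L l301 (L l404 (T t174 N))))))))))))))))) (K a255 (M a16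 (F (T t112 (L l245 (L l289 (T t113 (L l245 (L l289 (L l293 (L l296 (T t98 N))))))))))) N)))))))))))))))))))⟩
def e0_63__219_99 : Ent 4 := ⟨[a0, a63], [a219, a195], (M a12 (F (T t150 (L l487 (T t122 (L l487 (T t151 (L l487 (T t152 (L l487 (T t153 (K a4 (M a60 (F (T t570 (L l46 (L l50 (L l307 (T t67 (T t448 N)))))))) (K a8 (M a60 (F (T t570 (L l307 (T t67 (L l52 (L l56 (T t448 N)))))))) (K a21 (M a192 (F (T t2119 (L l15 (L l271 (L l301 (L l347 (T t450 (L l15 (L l347 (T t157 N))))))))))) (K a25 (M a192 (F (T t158 (L l237 (T t156 (L l295 (T t21 N))))))) (K a29 (M a192 (F (T t159 (L l295 (L l371 (T t21 (T t160 N))))))) (K a38 (M a192 (F (T t161 (L l237 (T t156 (L l295 (T t21 N))))))) (K a42 (M a192 (F (T t161 (L l237 (T t156 (L l56 (T t157 N))))))) (K a46 (M a192 (F (T t57 (L l237 (T t156 (L l26 (L l408 (T t160 N)))))))) (K a51 (M a170 (L l487 (F (T t439 (L l295 (L l439 (T t3685 (L l283 (T t3880 (K a147 (M a99 (F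 (T t4159 (L l283 (T t3682 N))))) (K a99 (M a147 (F (T t4159 (L l283 (T t3682 N))))) N))))))))))) N))))))))))))))))))))⟩
def e0_63__219_100 : Ent 4 := ⟨[a0, a63], [a219, a196], (M a85 (F (T t52 (L l232 (L l278 (T t88 (L l278 (T t89 (L l232 (T t90 (K a64 (M a16 (F (T t97 (L l84 (L l245 (T t96 (L l116 (L l245 (L l278 (T t98 N)))))))))) (K a192 (M a204 (F (T t1993 (L l334 (T t1575 (L l278 (L l296 (T t1685 (L l310 (T t2309 N)))))))))) (K a21 (M a48 (F (T t1243 (L l47 (L l245 (T t100 (T t50 N))))))) (K a149 (M a55 (F (L l310 (T t2039 (L l220 (L l278 (L l301 (T t2310 (L l202 (T t2311 N)))))))))) (K a213 (Fr a170 a255 l476 (Fr a42 a21 l68 (Fr a106 a234 l390 (Fr a192 a149 l519 (V t581))))) (K a42 (M a48 (F (T t364 (L l390 (T t50 (L l28 (L l245 (T t100 N)))))))) (K a106 (M a48 (F (T t364 (T t1 (L l390 (T t50 N)))))) (K a170 (M a16 (F (L l390 (L l404 (T t97 (L l245 (L l278 (L l390 (T t98 (L l245 (L l404 (T t113 (L l229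 (L l245 (L l301 (L l404 (T t174 N))))))))))))))))) (K a255 (M a16 (F (T t112 (L l245 (L l289 (T t113 (L l245 (L l278 (L l289 (L l296 (T t98 N))))))))))) N)))))))))))))))))))⟩
def e0_63__219_101 : Ent 4 := ⟨[a0, a63], [a219, a197], (M a85 (F (T t52 (L l236 (L l275 (T t88 (L l275 (T t89 (L l236 (T t90 (K a64 (M a48 (F (T t50 (L l245 (L l275 (T t568 N)))))) (K a192 (M a207 (F (T t5332 (L l339 (T t2057 (L l275 (L l296 (L l484 (T t2058 (L l339 (L l356 (T t2059 N)))))))))))) (K a21 (M a48 (F (L l245 (T t99 (T t50 (L l47 (L l236 (L l245 (L l491 (T t100 N)))))))))) (K a149 (M a53 (F (L l311 (T t982 (L l220 (L l275 (T t1560 (L l199 (T t2060 N))))))))) (K a213 (Fr a170 a255 l476 (Fr a42 a21 l68 (Fr a106 a234 l390 (Fr a192 a149 l519 (V t581))))) (K a42 (M a48 (F (T t364 (L l390 (T t50 (L l28 (L l236 (L l245 (L l491 (T t100 N)))))))))) (K a106 (M a48 (F (T t364 (L l411 (T t3 (L l390 (T t50 N))))))) (K a170 (M a4 (F (L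 l464 (T t130 (L l275 (L l390 (T t131 (L l390 (L l464 (T t519 (L l301 (L l464 (T t938 N))))))))))))) (K a255 (M a16 (F (T t504 (L l236 (L l245 (L l289 (L l491 (T t113 (L l245 (L l275 (L l289 (L l296 (T t98 N))))))))))))) N)))))))))))))))))))⟩
def e0_63__219_102 : Ent 4 := ⟨[a0, a63], [a219, a198], (M a85 (F (T t88 (T t52 (T t89 (T t90 (K a64 (M a16 (F (T t97 (L l84 (L l245 (T t96 (L l116 (L l245 (T t98 N))))))))) (K a192 (M a16 (F (T t112 (L l245 (T t96 (L l245 (L l296 (T t98 N)))))))) (K a21 (M a48 (F (T t1243 (L l47 (L l234 (L l245 (T t100 (T t50 N)))))))) (K a149 (M a16 (F (T t112 (L l245 (L l301 (T t173 (L l170 (L l356 (T t102 N))))))))) (K a213 (Fr a170 a255 l476 (Fr a42 a21 l68 (Fr a106 a234 l390 (Fr a192 a149 l519 (V t581))))) (K a42 (M a48 (F (T t364 (L l390 (T t50 (L l28 (L l234 (L l245 (T t100 N))))))))) (K a106 (M a48 (F (T t364 (T t1 (L l390 (T t50 N)))))) (K a170 (M a16 (F (L l390 (L l404 (T t97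 (L l245 (L l390 (T t98 (L l234 (L l245 (L l404 (T t113 (L l229 (L l245 (L l301 (L l404 (T t174 N))))))))))))))))) (K a255 (M a16 (F (T t112 (L l234 (L l245 (L l289 (T t113 (L l245 (L l289 (L l296 (T t98 N))))))))))) N)))))))))))))))⟩
def e0_63__219_103 : Ent 4 := ⟨[a0, a63], [a219, a199], (M a85 (F (T t88 (T t52 (T t89 (T t90 (K a64 (M a12 (F (T t124 (L l277 (T t572 N))))) (K a192 (M a16 (F (T t112 (L l245 (L l314 (L l494 (T t96 (L l245 (L l296 (T t98 N)))))))))) (K a21 (M a48 (F (L l245 (T t99 (T t50 (L l47 (L l245 (T t100 N)))))))) (K a149 (M a16 (F (T t112 (L l235 (L l245 (L l301 (L l314 (T t173 (L l170 (L l356 (T t102 N))))))))))) (K a213 (Fr a170 a255 l476 (Fr a42 a21 l68 (Fr a106 a234 l390 (Fr a192 a149 l519 (V t581))))) (K a42 (M a48 (F (T t364 (L l390 (T t50 (L l28 (L l245 (T t100 N)))))))) (K a106 (M a48 (F (T t364 (T t1 (L l390 (T t50 N)))))) (K a170 (M a16 (F (L l390 (L l404 (T t97 (L l245 (L l390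 (T t98 (L l245 (L l404 (T t113 (L l229 (L l235 (L l245 (L l301 (L l404 (T t174 N))))))))))))))))) (K a255 (M a16 (F (T t112 (L l245 (L l289 (T t113 (L l245 (L l289 (L l296 (T t98 N)))))))))) N)))))))))))))))⟩
def e0_63__219_104 : Ent 4 := ⟨[a0, a63], [a219, a200], (M a48 (F (T t1 (T t2 (T t3 (T t0 (K a16 (M a60 (F (T t43 (T t64 (T t65 N))))) (K a32 (M a60 (F (T t64 (T t67 (L l24 (L l28 (T t65 N))))))) (K a21 (M a192 (F (T t837 (L l47 (L l230 (L l301 (L l347 (T t20 (L l47 (L l230 (L l245 (L l347 (T t29 N))))))))))))) (K a37 (M a192 (F (T t19 (L l47 (L l230 (L l301 (T t20 (T t21 N)))))))) (K a53 (M a192 (F (T t19 (L l491 (T t21 (L l501 (T t31 N))))))) (K a26 (M a192 (F (T t27 (L l230 (L l301 (T t20 (T t21 N))))))) (K a42 (M a192 (F (T t19 (L l230 (L l301 (T t20 (L l28 (L l230 (L l245 (T t29 N)))))))))) (K a58 (M a192 (F (T t19 (T t21 (L l54 (L l498 (L l501 (T t31 N)))))))) (K a15 (M a192 (F (T t47 (L l483 (T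 t27 (L l230 (L l301 (L l325 (T t20 N))))))))) N)))))))))))))))⟩
def e0_63__219_105 : Ent 4 := ⟨[a0, a63], [a219, a201], (M a85 (F (T t88 (T t52 (T t89 (T t90 (K a64 (M a16 (F (T t97 (L l84 (L l245 (T t96 (L l116 (L l245 (T t98 N))))))))) (K a192 (M a16 (F (T t112 (L l245 (T t96 (L l245 (L l296 (T t98 N)))))))) (K a21 (M a48 (F (T t1243 (L l47 (L l230 (L l245 (T t100 (T t50 N)))))))) (K a149 (M a16 (F (T t112 (L l245 (L l301 (T t173 (L l170 (L l356 (T t102 N))))))))) (K a213 (Fr a170 a255 l476 (Fr a42 a21 l68 (Fr a106 a234 l390 (Fr a192 a149 l519 (V t581))))) (K a42 (M a48 (F (T t364 (L l390 (T t50 (L l28 (L l230 (L l245 (T t100 N))))))))) (K a106 (M a48 (F (T t364 (T t1 (L l390 (T t50 N)))))) (K a170 (M a16 (F (L l390 (L l404 (T t97 (L l245 (L l390 (T t98 (L l230 (L l245 (L l404 (T t113 (L l233 (L l245 (L l301 (L l404 (T t174 N))))))))))))))))) (K a255 (M a16 (F (T t112 (L l230 (L l245 (L l289 (T t113 (L l245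 (L l289 (L l296 (T t98 N))))))))))) N)))))))))))))))⟩
def e0_63__219_106 : Ent 4 := ⟨[a0, a63], [a219, a202], (M a48 (F (T t3 (L l318 (T t1 (L l498 (T t2 (T t0 (K a16 (M a60 (F (T t43 (T t64 (L l498 (T t65 N)))))) (K a32 (M a60 (F (T t67 (T t64 (L l24 (L l28 (L l498 (T t65 N)))))))) (K a21 (M a192 (F (T t27 (L l301 (L l498 (T t22 (L l18 (L l498 (T t46 N))))))))) (K a37 (M a192 (F (T t19 (L l301 (L l498 (T t22 (T t21 N))))))) (K a53 (M a192 (F (T t19 (L l491 (T t21 (L l498 (T t31 N))))))) (K a26 (M a192 (F (T t837 (L l301 (L l498 (T t22 (T t21 N))))))) (K a42 (M a192 (F (T t27 (L l301 (L l390 (L l498 (T t22 (L l390 (L l498 (T t46 N)))))))))) (K a58 (M a106 (F (T t564 (T t551 (L l282 (T t599 N)))))) (K a15 (M a192 (F (T t47 (L l483 (T t27 (L l301 (L l325 (L l498 (T t22 N))))))))) N)))))))))))))))))⟩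
def e0_63__219_107 : Ent 4 := ⟨[a0, a63], [a219, a203], (M a60 (L l283 (F (T t67 (T t43 (T t68 (T t69 (K a20 (M a255 (L l283 (F (T t2963 (T t2142 (L l11 (L l350 (T t2964 (K a235 (M a251 (F (T t2969 (L l320 (L l350 (T t6278 N)))))) (K a251 (M a235 (F (L l350 (T t6279 (T t2969 N))))) N)))))))))) (K a40 (M a170 (L l283 (F (T t439 (T t1570 (T t1123 (K a235 (M a251 (F (T t6280 (L l250 (T t1123 N))))) (K a251 (M a235 (F (T t6281 (L l284 (T t317 (L l284 (T t1123 N))))))) N)))))))) (K a21 (M a255 (L l283 (F (T t2963 (L l235 (L l347 (T t4709 (L l65 (L l245 (T t1635 (K a235 (M a251 (F (T t1633 (L l320 (L l347 (T t6278 N)))))) (K a251 (M a235 (F (L l347 (T t6282 (L l245 (T t6283 N)))))) N)))))))))))) (K a41 (M a255 (L l283 (F (T t2963 (L l235 (T t4709 (L l22 (T t2142 (K a235 (M a251 (F (T t1633 (L l320 (T t6278 N))))) (K a251 (M a235 (F (T t6282 (L l65 (T t2969 N))))) N)))))))))) (K a61 (M a170 (L l283 (F (T t434 (L l245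 (T t2689 (L l65 (T t6284 (K a235 (M a251 (F (T t2102 (L l356 (L l500 (T t6285 N)))))) (K a251 (M a235 (F (T t6286 (L l65 (L l284 (T t317 N)))))) N)))))))))) (K a22 (M a12 (L l283 (F (T t398 (L l11 (T t122 (L l51 (L l320 (T t409 (K a235 (M a251 (F (T t398 (L l11 (L l392 (T t6287 N)))))) (K a251 (M a235 (F (T t402 (L l11 (L l348 (L l463 (L l464 (T t6288 N)))))))) N))))))))))) (K a42 (M a255 (L l283 (F (T t1565 (L l235 (T t4709 (L l22 (L l245 (L l390 (T t1635 (K a235 (M a251 (F (T t2969 (L l56 (L l320 (T t6278 N)))))) (K a251 (M a235 (F (T t6282 (T t2969 N)))) N)))))))))))) (K a62 (M a170 (L l283 (F (T t317 (L l245 (L l432 (T t2689 (T t6289 (K a235 (M a251 (F (T t2102 (L l356 (L l500 (T t6285 N)))))) (K a251 (M a235 (F (T t6286 (L l284 (T t317 N))))) N)))))))))) (K a3 (M a48 (L l283 (F (T t3520 (L l7 (T t1 (L l43 (T t64 (K a235 (M a251 (F (T t610 (L l356 (T t6290 N))))) (K a251 (M a235 (F (T t236 (L l464 (T t6291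 N))))) N)))))))))) (K a235 (M a251 (F (T t68 (L l391 (T t67 (L l392 (T t43 (T t69 (K a20 (M a8 (F (L l46 (T t6292 (L l11 (L l250 (L l356 (T t6293 N)))))))) (K a40 (M a170 (F (T t6280 (L l250 (T t1123 N))))) (K a21 (M a56 (F (T t6294 (L l11 (L l320 (T t6295 N)))))) (K a41 (M a48 (F (L l65 (T t1 (L l356 (T t6290 N)))))) (K a61 (M a48 (F (T t2 (L l356 (L l443 (T t6290 N)))))) (K a22 (M a8 (F (T t6296 (L l11 (L l250 (L l356 (T t6293 N))))))) (K a42 (M a56 (F (T t6297 (L l66 (T t6294 N))))) (K a62 (M a48 (F (T t1 (L l356 (T t6290 N))))) (K a3 (M a48 (F (T t610 (L l356 (T t6290 N))))) N))))))))))))))))) (K a251 (M a235 (F (T t67 (L l464 (T t6298 (L l464 (T t6291 (K a20 (M a43 (F (L l11 (T t6299 (L l350 (L l463 (T t6300 N))))))) (K a40 (M a48 (F (T t1 (L l427 (L l499 (T t42 (L l52 (L l428 (L l500 (T t1419 N)))))))))) N))))))))) N))))))))))))))))))⟩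
def e0_63__219_108 : Ent 4 := ⟨[a0, a63], [a219, a204], (M a48 (F (T t48 (L l327 (T t1 (L l327 (T t2 (L l327 (T t3 (L l327 (T t0 (K a16 (M a60 (F (T t138 (L l14 (L l18 (L l333 (T t67 (T t65 N)))))))) (K a32 (M a60 (F (T t138 (L l333 (T t67 (L l24 (L l28 (T t65 N)))))))) (K a21 (M a192 (F (T t2113 (L l47 (L l231 (L l301 (L l347 (T t20 (L l47 (L l245 (L l347 (T t29 N)))))))))))) (K a37 (M a192 (F (T t54 (L l298 (T t27 (L l290 (T t21 N))))))) (K a53 (M a192 (F (T t55 (L l290 (L l491 (T t21 (T t31 N))))))) (K a26 (M a192 (F (T t56 (L l298 (T t27 (L l290 (T t21 N))))))) (K a42 (M a192 (F (T t56 (L l298 (T t27 (L l28 (L l245 (T t29 N)))))))) (K a58 (M a192 (F (T t57 (L l298 (T t27 (L l54 (L l498 (T t31 N)))))))) (K a15 (M a85 (L l327 (F (T t567 (L l245 (T t568 (K a141 (M a78 (F (T t89 (L l290 (L l356 (L l469 (T t365 (L l245 (T t100 N))))))))) (K a78 (M a141 (F (T t89 (L l290 (L l356 (L l469 (T t365 (L l245 (T t100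 N))))))))) N)))))))) N))))))))))))))))))))⟩
def e0_63__219_109 : Ent 4 := ⟨[a0, a63], [a219, a205], (M a85 (F (T t88 (T t52 (T t89 (T t90 (K a64 (M a60 (F (T t114 (L l245 (T t115 N))))) (K a192 (M a16 (F (T t112 (L l245 (L l329 (L l509 (T t96 (L l245 (L l296 (T t98 N)))))))))) (K a21 (M a48 (F (L l245 (T t99 (T t50 (L l47 (L l245 (T t100 N)))))))) (K a149 (M a16 (F (T t112 (L l231 (L l245 (L l301 (L l329 (T t173 (L l170 (L l356 (T t102 N))))))))))) (K a213 (Fr a170 a255 l476 (Fr a42 a21 l68 (Fr a106 a234 l390 (Fr a192 a149 l519 (V t581))))) (K a42 (M a48 (F (T t364 (L l390 (T t50 (L l28 (L l245 (T t100 N)))))))) (K a106 (M a48 (F (T t364 (T t1 (L l390 (T t50 N)))))) (K a170 (M a16 (F (L l390 (L l404 (T t97 (L l245 (L l390 (T t98 (L l245 (L l404 (T t113 (L l231 (L l233 (L l245 (L l301 (L l404 (T t174 N))))))))))))))))) (K a255 (M a16 (F (T t112 (L l245 (L l289 (T t113 (L l245 (L l289 (L l296 (T t98 N))))))))))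 N)))))))))))))))⟩
def e0_63__219_110 : Ent 4 := ⟨[a0, a63], [a219, a206], (M a85 (F (T t88 (T t52 (T t89 (T t90 (K a64 (M a60 (F (T t114 (L l245 (T t115 N))))) (K a192 (M a16 (F (T t112 (L l245 (T t96 (L l245 (L l296 (T t98 N)))))))) (K a21 (M a48 (F (T t1243 (L l47 (L l234 (L l245 (T t100 (T t50 N)))))))) (K a149 (M a16 (F (T t112 (L l231 (L l245 (L l301 (T t173 (L l170 (L l356 (L l510 (T t102 N))))))))))) (K a213 (Fr a170 a255 l476 (Fr a42 a21 l68 (Fr a106 a234 l390 (Fr a192 a149 l519 (V t581))))) (K a42 (M a48 (F (T t364 (L l390 (T t50 (L l28 (L l234 (L l245 (T t100 N))))))))) (K a106 (M a48 (F (T t364 (T t1 (L l390 (T t50 N)))))) (K a170 (M a16 (F (L l390 (L l404 (T t97 (L l245 (L l390 (T t98 (L l234 (L l245 (L l404 (T t113 (L l231 (L l245 (L l301 (L l404 (T t174 N))))))))))))))))) (K a255 (M a16 (F (T t112 (L l234 (L l245 (L l289 (T t113 (L l245 (L l289 (L l296 (T t98 N))))))))))) N)))))))))))))))⟩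
def e0_63__219_111 : Ent 4 := ⟨[a0, a63], [a219, a207], (M a85 (L l301 (F (T t89 (L l236 (T t88 (L l289 (T t52 (L l236 (T t90 (K a64 (M a243 (F (T t2087 (L l511 (T t2088 (L l80 (T t4184 N))))))) (K a192 (M a243 (L l236 (F (L l296 (T t4179 (L l489 (L l511 (T t2088 (T t4185 (K a197 (M a202 (F (T t2087 (L l489 (L l511 (T t2088 (L l275 (L l296 (T t4179 (T t4185 N)))))))))) (K a202 (M a197 (F (T t2087 (L l296 (L l512 (T t2889 (T t4185 N))))))) N))))))))))) (K a21 (M a243 (F (L l289 (T t2338 (L l511 (T t2088 (T t3594 N))))))) (K a149 (M a4 (L l301 (F (T t129 (L l289 (T t4281 (L l202 (T t1372 (K a243 (M a231 (F (T t129 (L l202 (L l220 (L l235 (L l283 (L l446 (L l482 (L l506 (T t5838 (L l220 (T t5839 N))))))))))))) (K a231 (M a243 (F (T t5840 (L l220 (L l511 (T t2088 N)))))) N)))))))))) (K a213 (Fr a170 a255 l476 (Fr a42 a21 l68 (Fr a106 a234 l390 (Fr a192 a149 l519 (V t581))))) (K a42 (M a243 (F (T t2087 (L l390 (L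 l511 (T t2088 (T t3594 N))))))) (K a106 (M a243 (F (L l289 (T t2338 (L l390 (L l501 (L l511 (T t4188 (L l132 (L l390 (T t2089 (L l132 (L l326 (T t4189 N)))))))))))))) (K a170 (M a243 (F (L l178 (L l390 (T t2089 (L l178 (T t3594 (L l220 (L l236 (L l390 (T t4194 (L l178 (L l390 (T t4192 (L l236 (L l390 (T t4193 (L l178 (L l326 (T t4189 (L l178 (L l283 (L l326 (L l464 (T t4187 N))))))))))))))))))))))))) (K a255 (M a243 (L l289 (F (L l470 (T t3594 (L l296 (T t4191 (L l296 (T t5841 (L l470 (T t4185 (L l283 (L l296 (L l470 (T t4186 (L l296 (L l470 (T t5842 (K a223 (M a239 (L l245 (F (L l362 (L l470 (T t3594 (L l246 (L l296 (T t4191 (L l246 (L l296 (T t5841 (L l362 (L l470 (T t4185 (L l283 (L l296 (L l362 (L l470 (T t4186 (L l246 (L l296 (L l470 (T t5842 (K a211 (M a215 (F (L l362 (L l470 (T t4197 (L l331 (L l374 (L l475 (T t5307 (L l246 (L l296 (L l434 (L l506 (T t5843 N)))))))))))))) (K a215 (M a211 (L l295 (F (T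 t5844 (L l239 (L l246 (L l296 (L l362 (L l470 (T t5845 (K a195 (M a235 (L l235 (F (L l362 (L l470 (T t4184 (L l277 (L l488 (L l512 (T t5846 (L l239 (L l246 (L l296 (L l356 (T t4199 (K a199 (M a203 (L l277 (F (L l362 (L l470 (T t4197 (L l349 (L l488 (L l493 (T t5847 (L l239 (L l246 (L l296 (L l356 (T t4199 (K a231 (M a247 (F (L l314 (T t3596 (L l229 (L l239 (L l246 (L l296 (L l386 (T t3590 (L l239 (L l246 (L l296 (L l362 (L l470 (T t4190 N)))))))))))))))) (K a247 (Fr a231 a227 l255 (V t4179)) N))))))))))))))))) (K a203 (M a199 (F (L l362 (L l470 (T t4184 (L l488 (L l512 (T t5846 (L l239 (L l246 (L l296 (T t4191 N)))))))))))) N))))))))))))))))) (K a235 (Fr a195 a227 l271 (V t5848)) N)))))))))))) N)))))))))))))))))))))))))) (K a239 (M a223 (F (L l296 (T t2089 (L l235 (L l295 (L l356 (L l404 (L l512 (T t5849 (L l325 (L l356 (L l404 (L l469 (L l512 (T t5850 (L l296 (L l398 (L l470 (T t5851 N))))))))))))))))))))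 N)))))))))))))))))))) (K a243 (M a231 (F (T t89 (L l236 (L l272 (T t88 (L l265 (L l289 (T t52 (L l236 (L l272 (T t90 (K a64 (M a101 (F (L l245 (T t5852 (L l236 (T t3924 N)))))) (K a192 (M a117 (L l236 (L l272 (F (L l245 (T t5853 (L l258 (L l268 (L l303 (T t5854 (K a209 (M a226 (L l236 (F (L l245 (T t5853 (L l258 (L l268 (L l303 (T t5854 (K a197 (M a202 (F (L l311 (L l446 (T t5855 (L l258 (L l268 (L l275 (L l303 (T t5854 N)))))))))) (K a202 (M a197 (F (L l245 (T t5853 (T t5856 N))))) N))))))))))) (K a197 (M a202 (L l272 (F (L l311 (L l446 (T t5855 (L l258 (L l268 (L l275 (L l303 (T t5854 (K a209 (M a226 (F (L l311 (L l446 (T t5855 (L l258 (L l268 (L l275 (L l303 (T t5854 N)))))))))) (K a226 (M a209 (F (L l245 (L l311 (T t5853 (L l275 (T t5856 N))))))) N))))))))))))) (K a226 (M a209 (L l236 (F (L l245 (T t5853 (T t5856 (K a197 (M a202 (F (L l245 (L l311 (T t5853 (L l275 (T t5856 N))))))) (K a202 (M a197 (F (L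 l245 (T t5853 (T t5856 N))))) N)))))))) (K a202 (M a197 (L l272 (F (L l245 (T t5853 (T t5856 (K a209 (M a226 (F (L l245 (T t5853 (T t5856 N))))) (K a226 (M a209 (F (L l245 (T t5853 (T t5856 N))))) N)))))))) N)))))))))))))) (K a21 (M a117 (F (T t5856 (L l50 (L l446 (T t5855 N)))))) (K a149 (M a117 (F (L l446 (T t5855 (L l220 (L l258 (L l303 (T t5854 N)))))))) (K a213 (Fr a170 a255 l476 (Fr a42 a21 l68 (Fr a106 a234 l390 (Fr a192 a149 l519 (V t581))))) (K a42 (M a117 (F (L l446 (T t5855 (L l54 (L l258 (L l303 (L l390 (T t5854 N))))))))) (K a106 (M a101 (F (L l446 (T t5857 (L l236 (L l390 (L l498 (T t3924 N)))))))) (K a170 (M a4 (F (L l390 (L l464 (T t129 (L l265 (L l356 (L l404 (L l464 (L l512 (T t5858 (L l390 (T t4210 N))))))))))))) (K a255 (M a247 (L l289 (F (L l245 (L l295 (T t5859 (L l415 (L l439 (L l482 (L l511 (T t3599 (L l235 (L l296 (T t5860 (K a223 (M a239 (L l245 (F (L l446 (T t5861 (L l415 (L l439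 (L l482 (L l511 (T t3599 (L l235 (L l246 (L l296 (T t5860 (K a211 (Fr a215 a199 l277 (V t3599)) (K a215 (M a211 (L l295 (F (L l506 (T t5863 (L l272 (L l291 (T t5864 (L l415 (L l439 (L l482 (L l511 (T t3599 (K a195 (Fr a235 a227 l255 (V t3599)) (K a235 (M a195 (L l283 (F (L l349 (L l434 (T t901 (L l415 (L l439 (L l482 (L l511 (T t3599 (K a203 (M a251 (F (L l349 (L l434 (T t901 (L l320 (L l415 (L l439 (L l482 (L l511 (T t3599 N))))))))))) (K a251 (M a203 (F (L l349 (L l434 (T t910 (L l415 (L l439 (L l464 (L l482 (L l511 (T t3599 N))))))))))) N))))))))))))) N))))))))))))))) N)))))))))))))))) (K a239 (M a223 (F (L l295 (T t5859 (L l325 (L l356 (L l404 (L l469 (L l481 (L l512 (T t5850 (L l415 (L l439 (L l482 (L l511 (T t3599 N)))))))))))))))) N)))))))))))))))) N))))))))))))))))))))) (K a231 (M a243 (F (T t89 (L l326 (T t4211 (T t4184 N)))))) N)))))))))))))))))))))⟩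
def e0_63__219_112 : Ent 4 := ⟨[a0, a63], [a219, a212], (M a85 (F (T t52 (L l239 (L l292 (T t88 (L l239 (T t89 (L l292 (T t90 (K a64 (M a16 (F (T t97 (L l84 (L l245 (T t96 (L l116 (L l239 (L l245 (T t98 N)))))))))) (K a192 (M a252 (F (T t2094 (L l514 (T t93 (L l239 (L l296 (L l309 (T t170 (L l514 (T t2095 N))))))))))) (K a21 (M a48 (F (T t1243 (L l47 (L l245 (T t100 (T t50 N))))))) (K a149 (M a23 (F (L l346 (T t1941 (L l220 (L l239 (L l245 (T t2096 (L l163 (T t2097 N)))))))))) (K a213 (Fr a170 a255 l476 (Fr a42 a21 l68 (Fr a106 a234 l390 (Fr a192 a149 l519 (V t581))))) (K a42 (M a48 (F (T t364 (L l390 (T t50 (L l28 (L l245 (T t100 N)))))))) (K a106 (M a48 (F (T t364 (T t1 (L l390 (T t50 N)))))) (K a170 (M a16 (F (L l390 (L l404 (T t97 (L l239 (L l245 (L l390 (T t98 (L l245 (L l404 (T t113 (L l245 (L l301 (L l404 (T t174 N)))))))))))))))) (K a255 (M a16 (F (T t112 (L l245 (L l289 (T t113 (L l239 (L l245 (L l289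 (L l296 (T t98 N))))))))))) N)))))))))))))))))))⟩
def e0_63__219_113 : Ent 4 := ⟨[a0, a63], [a219, a213], (M a48 (F (T t2 (L l347 (T t1 (L l347 (T t3 (T t0 (K a16 (M a60 (F (T t43 (T t64 (T t65 N))))) (K a32 (M a60 (F (T t64 (L l347 (T t67 (L l24 (L l28 (T t65 N)))))))) (K a21 (M a85 (F (T t1243 (L l47 (L l245 (L l246 (T t100 (T t50 N)))))))) (K a37 (M a192 (F (T t19 (L l47 (L l301 (L l347 (T t20 (L l347 (T t21 N))))))))) (K a53 (M a192 (F (T t27 (L l347 (L l491 (T t21 (L l347 (L l491 (T t575 N))))))))) (K a26 (M a192 (F (T t837 (L l301 (L l347 (T t20 (L l347 (T t21 N)))))))) (K a42 (M a192 (F (T t19 (L l301 (L l347 (T t20 (L l28 (L l245 (L l246 (L l347 (T t29 N))))))))))) (K a58 (M a192 (F (T t27 (L l347 (T t21 (L l347 (T t575 N))))))) (K a15 (M a192 (F (T t54 (L l483 (T t27 (L l347 (L l469 (T t21 N)))))))) N)))))))))))))))))⟩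
def e0_63__219_114 : Ent 4 := ⟨[a0, a63], [a219, a214], (M a85 (F (T t90 (L l239 (T t88 (L l294 (T t52 (L l239 (T t89 (K a64 (M a16 (F (T t97 (L l84 (L l245 (T t96 (L l116 (L l239 (L l245 (T t98 N)))))))))) (K a192 (M a16 (F (T t112 (L l245 (T t96 (L l239 (L l245 (L l296 (T t98 N))))))))) (K a21 (M a48 (F (T t1243 (L l47 (L l245 (T t100 (T t50 N))))))) (K a149 (M a16 (F (T t112 (L l245 (L l301 (T t173 (L l170 (L l356 (T t102 N))))))))) (K a213 (Fr a170 a255 l476 (Fr a42 a21 l68 (Fr a106 a234 l390 (Fr a192 a149 l519 (V t581))))) (K a42 (M a48 (F (T t364 (L l390 (T t50 (L l28 (L l245 (T t100 N)))))))) (K a106 (M a48 (F (T t364 (T t1 (L l390 (T t50 N)))))) (K a170 (M a16 (F (L l390 (L l404 (T t97 (L l239 (L l245 (L l390 (T t98 (L l245 (L l404 (T t113 (L l245 (L l301 (L l404 (T t174 N)))))))))))))))) (K a255 (M a16 (F (T t112 (L l245 (L l289 (T t113 (L l239 (L l245 (L l289 (L l296 (T t98 N))))))))))) N))))))))))))))))))⟩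
def e0_63__219_115 : Ent 4 := ⟨[a0, a63], [a219, a215], (M a48 (L l245 (F (T t1 (T t2 (T t3 (T t0 (K a16 (M a85 (L l245 (F (T t90 (T t50 (L l239 (T t51 (K a211 (M a223 (L l344 (F (T t3725 (L l239 (T t88 (L l239 (T t51 (K a81 (M a146 (F (T t3725 (L l18 (L l295 (T t52 (L l239 (T t51 N)))))))) (K a146 (M a81 (F (T t3725 (L l194 (L l239 (T t6221 N)))))) N)))))))))) (K a223 (M a211 (F (T t90 (T t50 (L l239 (L l246 (T t51 N))))))) N))))))))) (K a32 (M a255 (L l245 (F (T t1169 (L l404 (T t1165 (L l350 (T t1167 (K a211 (M a223 (F (L l344 (L l404 (T t6222 (T t1160 N)))))) (K a223 (M a211 (F (T t1169 (L l350 (L l368 (T t2139 (L l350 (L l368 (T t1167 N))))))))) N)))))))))) (K a21 (M a255 (L l245 (F (T t511 (L l301 (L l347 (L l350 (T t547 (L l47 (T t3728 (K a211 (M a223 (F (T t3729 (T t1160 N)))) (K a223 (M a211 (F (T t511 (L l301 (L l347 (L l350 (L l368 (T t547 (L l347 (L l350 (L l368 (T t3730 N)))))))))))) N))))))))))))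 (K a37 (M a52 (L l245 (F (T t82 (T t83 (L l21 (L l28 (L l350 (T t84 (K a211 (M a223 (F (T t83 (L l28 (L l350 (L l383 (T t6223 N))))))) (K a223 (M a211 (F (T t83 (L l28 (L l355 (T t6051 N)))))) N))))))))))) (K a53 (M a12 (L l245 (F (T t151 (T t443 (L l47 (L l356 (T t146 (K a211 (M a223 (F (T t151 (L l356 (T t3734 N))))) (K a223 (M a211 (F (T t151 (T t6224 N)))) N)))))))))) (K a26 (M a12 (L l245 (F (T t443 (L l54 (T t151 (L l12 (L l18 (L l356 (T t146 (K a211 (M a223 (F (L l54 (T t151 (L l354 (L l356 (T t3734 N))))))) (K a223 (M a211 (F (L l54 (T t151 (T t6224 N))))) N)))))))))))) (K a42 (M a101 (L l245 (F (L l301 (T t334 (L l54 (T t313 (L l54 (T t314 (K a211 (M a223 (F (L l301 (T t3735 (L l54 (L l390 (T t440 (L l54 (L l344 (T t431 N)))))))))) (K a223 (M a211 (F (L l289 (L l301 (T t336 (L l28 (L l355 (T t6225 N)))))))) N))))))))))) (K a58 (M a12 (L l245 (F (T t443 (T t122 (L l356 (T t146 (K a211 (M a223 (F (T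 t122 (L l356 (L l498 (T t3734 N)))))) (K a223 (M a211 (F (T t122 (T t6224 N)))) N))))))))) (K a15 (M a52 (L l245 (F (T t491 (L l3 (T t82 (L l350 (T t84 (K a211 (M a223 (F (T t555 (L l350 (T t3740 N))))) (K a223 (M a211 (F (T t555 (T t6045 N)))) N)))))))))) (K a211 (M a223 (F (T t1 (L l350 (T t3739 (L l350 (T t3740 (K a16 (M a60 (L l344 (F (T t70 (T t69 (L l349 (T t65 (K a81 (M a146 (F (T t70 (L l117 (L l295 (L l350 (L l374 (T t6226 N)))))))) (K a146 (M a81 (F (T t69 (L l194 (L l283 (L l295 (T t6227 N))))))) N))))))))) (K a32 (M a31 (F (L l28 (L l344 (T t3743 (L l404 (T t3744 N))))))) N))))))))) (K a223 (M a211 (F (T t1 (L l355 (T t6051 (L l355 (T t6225 (K a16 (M a85 (F (T t90 (T t50 (L l239 (L l246 (T t51 N))))))) (K a32 (M a60 (F (T t70 (L l28 (T t69 (L l24 (L l28 (L l349 (T t65 N))))))))) (K a21 (M a144 (F (T t6228 (L l367 (T t6229 N))))) (K a26 (M a240 (F (T t6230 (T t6231 N)))) N))))))))))) N))))))))))))))))))⟩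
def e0_63__219_116 : Ent 4 := ⟨[a0, a63], [a219, a216], (M a149 (L l240 (F (T t5 (T t175 (T t176 (T t177 (K a192 (M a53 (L l240 (F (T t178 (L l236 (T t179 (L l236 (L l296 (T t180 (K a217 (M a218 (F (T t939 (L l236 (T t179 (L l236 (L l243 (L l296 (T t180 N))))))))) (K a218 (M a217 (F (T t939 (L l236 (T t179 (L l236 (L l246 (L l296 (T t180 N))))))))) N))))))))))) (K a21 (M a48 (L l240 (F (T t4 (L l298 (T t13 (L l18 (T t14 (K a217 (M a218 (F (T t4 (L l298 (T t13 (L l18 (T t14 N))))))) (K a218 (M a217 (F (T t4 (L l18 (T t1274 (L l18 (T t14 N))))))) N)))))))))) (K a85 (M a16 (L l240 (F (T t97 (L l144 (L l242 (L l298 (T t190 (L l94 (L l357 (T t278 (K a217 (M a218 (F (T t97 (L l144 (L l242 (L l298 (T t190 (L l94 (L l357 (T t278 N)))))))))) (K a218 (M a217 (F (T t97 (L l144 (L l242 (L l246 (L l298 (L l303 (T t190 (L l242 (L l246 (L l354 (T t6301 N))))))))))))) N))))))))))))) (K a213 (Fr a106 a192 l519 (Fr a42 a21 l68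 (Fr a170 a234 l390 (Fr a255 a85 l476 (V t582))))) (K a42 (M a48 (L l240 (F (T t187 (L l298 (L l390 (T t13 (L l54 (T t14 (K a217 (M a218 (F (T t187 (L l298 (L l390 (T t13 (L l54 (T t14 N)))))))) (K a218 (M a217 (F (L l282 (T t187 (L l54 (T t14 (L l298 (L l303 (L l390 (T t13 N)))))))))) N))))))))))) (K a106 (M a48 (L l240 (F (T t1 (L l498 (T t14 (L l390 (L l498 (T t6 (L l245 (L l390 (T t26 (K a217 (M a218 (F (T t1 (L l498 (T t14 (L l243 (L l245 (L l390 (T t26 (L l243 (L l390 (L l498 (T t6 N))))))))))))) (K a218 (M a217 (F (T t1 (L l498 (T t14 (L l246 (L l390 (L l498 (T t6 (L l246 (L l390 (T t6302 N)))))))))))) N)))))))))))))) (K a170 (M a48 (L l240 (F (T t4 (L l462 (T t1 (L l298 (L l390 (T t13 (K a217 (M a218 (F (T t3 (L l206 (L l356 (T t15 (L l298 (L l390 (T t13 N))))))))) (K a218 (M a217 (F (T t4 (L l462 (T t1 (L l298 (L l303 (L l390 (T t13 N))))))))) N))))))))))) (K a191 (M a208 (L l240 (F (T t6303 (L l245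 (L l357 (T t6304 (T t1277 (K a217 (M a218 (F (L l357 (T t1276 (L l245 (T t6305 N)))))) (K a218 (M a217 (F (T t1275 (L l354 (L l357 (T t1276 (T t1277 N))))))) N)))))))))) (K a255 (M a208 (L l240 (F (T t2180 (L l357 (T t1833 (L l440 (T t1277 (K a217 (M a218 (F (T t2180 (T t6306 (L l440 (T t1277 N)))))) (K a218 (M a217 (F (T t1278 (L l354 (L l357 (L l440 (T t1276 (L l296 (L l469 (T t1275 N)))))))))) N)))))))))) (K a217 (M a218 (F (T t177 (L l245 (L l357 (T t6307 (L l245 (T t6308 (K a21 (M a255 (F (T t5668 (L l243 (L l245 (T t6309 N)))))) (K a85 (M a16 (F (T t97 (L l144 (L l242 (L l298 (T t190 (L l94 (L l357 (T t278 N)))))))))) (K a213 (Fr a106 a192 l519 (Fr a42 a21 l68 (Fr a170 a234 l390 (Fr a255 a85 l476 (V t582))))) (K a170 (Fr a21 a42 l68 (Fr a213 a85 l347 (Fr a192 a106 l519 (Fr a234 a255 l296 (V t6337))))) N)))))))))))) (K a218 (M a217 (F (T t177 (L l356 (T t6311 (T t6312 (K a21 (M a255 (F (T t5668 (L l246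 (L l283 (T t6313 N)))))) (K a85 (M a48 (F (T t4 (T t1 (L l144 (L l298 (L l303 (T t13 N)))))))) (K a213 (Fr a106 a192 l519 (Fr a42 a21 l68 (Fr a170 a234 l390 (Fr a255 a85 l476 (V t582))))) (K a170 (Fr a21 a42 l68 (Fr a213 a85 l347 (Fr a192 a106 l519 (Fr a234 a255 l296 (V t6338))))) N)))))))))) N))))))))))))))))))⟩
def e0_63__219_117 : Ent 4 := ⟨[a0, a63], [a219, a217], (M a149 (L l240 (F (T t177 (L l243 (T t5 (L l284 (T t175 (L l243 (T t176 (K a192 (M a53 (L l240 (F (T t178 (L l236 (T t179 (L l236 (L l243 (L l296 (T t180 (K a216 (M a218 (F (T t939 (L l236 (T t179 (L l236 (L l243 (L l296 (T t180 N))))))))) (K a218 (M a216 (F (T t939 (L l236 (T t179 (L l236 (L l243 (L l246 (L l296 (T t180 N)))))))))) N)))))))))))) (K a21 (M a240 (L l240 (F (T t1090 (T t1091 (T t1207 (K a216 (M a218 (F (T t5662 (L l299 (T t6315 (L l18 (L l299 (T t6316 N)))))))) (K a218 (M a216 (F (T t6317 (T t1091 N)))) N)))))))) (K a85 (M a16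 (L l240 (F (T t97 (L l144 (T t190 (L l94 (T t278 (K a216 (M a218 (F (T t97 (L l144 (L l242 (L l298 (T t190 (L l94 (L l357 (T t278 N)))))))))) (K a218 (M a216 (F (T t97 (L l144 (L l246 (L l303 (T t190 (L l246 (L l354 (T t6301 N)))))))))) N)))))))))) (K a213 (Fr a106 a192 l519 (Fr a42 a21 l68 (Fr a170 a234 l390 (Fr a255 a85 l476 (V t582))))) (K a42 (M a240 (L l240 (F (T t1090 (L l390 (T t1091 (T t1207 (K a216 (M a218 (F (T t1834 (L l299 (L l390 (T t6315 (L l54 (L l299 (T t6316 N))))))))) (K a218 (M a216 (F (T t6317 (L l390 (T t1091 N))))) N))))))))) (K a106 (M a90 (L l240 (F (L l411 (T t1040 (L l243 (L l390 (T t1072 (L l243 (L l390 (T t1073 (L l390 (L l411 (T t1074 (L l411 (T t1075 (K a216 (M a218 (F (T t6318 (L l242 (L l411 (T t1040 (L l104 (L l299 (T t6319 N))))))))) (K a218 (M a216 (F (L l355 (T t6320 (L l243 (L l246 (L l390 (T t1072 (L l102 (L l355 (T t6321 N))))))))))) N)))))))))))))))))) (K a170 (M a48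 (L l240 (F (T t4 (L l462 (T t1 (L l390 (T t13 (K a216 (M a218 (F (T t3 (L l206 (L l356 (T t15 (L l298 (L l390 (T t13 N))))))))) (K a218 (M a216 (F (T t4 (L l462 (T t1 (L l303 (L l390 (T t13 N)))))))) N)))))))))) (K a191 (M a208 (L l240 (F (T t6303 (L l243 (L l245 (T t6304 (T t1277 (K a216 (M a218 (F (L l357 (T t1276 (L l245 (T t6305 N)))))) (K a218 (M a216 (F (L l355 (T t6322 (T t1277 N))))) N)))))))))) (K a255 (M a208 (L l240 (F (T t2180 (T t1833 (L l440 (T t1277 (K a216 (M a218 (F (T t2180 (T t6306 (L l440 (T t1277 N)))))) (K a218 (M a216 (F (L l355 (T t6322 (L l440 (T t1277 N)))))) N))))))))) (K a216 (M a218 (F (T t177 (L l245 (L l357 (T t6307 (L l245 (T t6308 (K a21 (M a255 (F (T t5668 (L l243 (L l245 (T t6309 N)))))) (K a85 (M a16 (F (T t97 (L l144 (L l242 (L l298 (T t190 (L l94 (L l357 (T t278 N)))))))))) (K a213 (Fr a106 a192 l519 (Fr a42 a21 l68 (Fr a170 a234 l390 (Fr a255 a85 l476 (V t582))))) (K a170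 (Fr a21 a42 l68 (Fr a213 a85 l347 (Fr a192 a106 l519 (Fr a234 a255 l296 (V t6337))))) N)))))))))))) (K a218 (M a216 (F (T t177 (L l243 (L l246 (T t5 (L l282 (L l284 (T t175 (L l243 (L l246 (T t176 (K a192 (M a165 (F (L l339 (L l489 (T t6323 (L l243 (L l246 (L l296 (T t988 (L l243 (L l246 (L l268 (L l296 (L l303 (T t6324 N))))))))))))))) (K a21 (M a240 (F (T t6317 (T t1091 N)))) (K a85 (M a208 (F (L l355 (T t6325 (L l144 (L l368 (T t1277 N))))))) (K a213 (Fr a106 a192 l519 (Fr a42 a21 l68 (Fr a170 a234 l390 (Fr a255 a85 l476 (V t582))))) (K a42 (M a208 (F (L l355 (T t6322 (L l390 (T t1277 N)))))) (K a106 (M a165 (F (L l102 (L l130 (T t6323 (L l243 (L l246 (L l390 (T t988 (L l243 (L l246 (L l303 (L l390 (T t6324 N)))))))))))))) (K a170 (M a208 (F (L l355 (T t6325 (L l180 (L l390 (T t1277 N))))))) (K a191 (M a208 (F (L l355 (T t6322 (T t1277 N))))) (K a255 (M a208 (F (L l355 (T t6322 (L l440 (T t1277 N)))))) N)))))))))))))))))))))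 N)))))))))))))))))))))⟩
def e0_63__219_118 : Ent 4 := ⟨[a0, a63], [a219, a220], (M a85 (F (T t88 (T t52 (T t89 (T t90 (K a64 (M a48 (F (T t50 (L l241 (L l245 (T t568 N)))))) (K a192 (M a16 (F (T t112 (L l241 (L l245 (T t96 (L l241 (L l245 (L l296 (T t98 N)))))))))) (K a21 (M a48 (F (T t1243 (L l47 (L l241 (L l245 (T t100 (T t50 N)))))))) (K a149 (M a16 (F (T t112 (L l241 (L l245 (L l301 (T t173 (L l170 (L l356 (T t102 N)))))))))) (K a213 (Fr a170 a255 l476 (Fr a42 a21 l68 (Fr a106 a234 l390 (Fr a192 a149 l519 (V t581))))) (K a42 (M a48 (F (L l364 (T t364 (L l390 (T t50 (L l28 (L l241 (L l245 (T t100 N)))))))))) (K a106 (M a48 (F (T t1 (L l104 (L l241 (L l245 (T t509 (L l390 (T t50 N))))))))) (K a170 (M a16 (F (L l390 (L l404 (T t112 (L l241 (L l245 (L l390 (T t98 (L l241 (L l245 (L l404 (T t113 (L l241 (L l245 (L l301 (L l404 (T t174 N)))))))))))))))))) (K a255 (M a16 (F (T t112 (L l241 (L l245 (L l289 (T t113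 (L l241 (L l245 (L l289 (L l296 (T t98 N)))))))))))) N)))))))))))))))⟩
def e0_63__219_119 : Ent 4 := ⟨[a0, a63], [a219, a221], (M a149 (F (T t175 (L l243 (T t5 (L l243 (L l290 (T t176 (L l290 (T t177 (K a192 (M a53 (F (T t178 (L l236 (T t179 (L l236 (L l243 (L l296 (T t180 N))))))))) (K a21 (M a48 (F (T t4 (T t13 (L l18 (T t14 N)))))) (K a85 (M a17 (F (L l359 (T t1279 (L l144 (L l243 (L l301 (T t1280 (L l91 (L l356 (T t1281 N))))))))))) (K a213 (Fr a106 a192 l519 (Fr a42 a21 l68 (Fr a170 a234 l390 (Fr a255 a85 l476 (V t582))))) (K a42 (M a48 (F (T t187 (L l390 (T t13 (L l54 (T t14 N))))))) (K a106 (M a48 (F (T t1 (L l498 (T t14 (L l243 (L l390 (L l498 (T t6 (L l241 (L l243 (L l245 (L l390 (T t26 N)))))))))))))) (K a170 (M a48 (F (T t4 (L l462 (T t1 (L l390 (T t13 N))))))) (K a191 (M a16 (F (T t97 (T t190 (L l213 (L l241 (L l243 (L l245 (T t191 N))))))))) (K a255 (M a204 (F (T t1282 (L l470 (T t1283 (L l243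 (L l296 (L l439 (T t1055 (L l359 (T t1284 N))))))))))) N)))))))))))))))))))⟩
def e0_63__219_120 : Ent 4 := ⟨[a0, a63], [a219, a222], (M a85 (F (T t88 (T t52 (T t89 (T t90 (K a64 (M a16 (F (T t97 (L l84 (L l241 (L l245 (T t96 (L l116 (L l241 (L l245 (T t98 N))))))))))) (K a192 (M a16 (F (T t112 (L l241 (L l245 (T t96 (L l241 (L l245 (L l296 (T t98 N)))))))))) (K a21 (M a48 (F (T t1243 (L l47 (L l241 (L l245 (T t100 (T t50 N)))))))) (K a149 (M a16 (F (T t112 (L l241 (L l245 (L l291 (L l301 (T t173 (L l170 (L l356 (L l366 (T t102 N)))))))))))) (K a213 (Fr a170 a255 l476 (Fr a42 a21 l68 (Fr a106 a234 l390 (Fr a192 a149 l519 (V t581))))) (K a42 (M a48 (F (T t364 (L l390 (T t50 (L l28 (L l241 (L l245 (T t100 N))))))))) (K a106 (M a48 (F (T t364 (T t1 (L l390 (T t50 N)))))) (K a170 (M a16 (F (L l390 (L l404 (T t97 (L l241 (L l245 (L l390 (T t98 (L l241 (L l245 (L l404 (T t113 (L l241 (L l245 (L l291 (L l301 (L l404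 (T t174 N))))))))))))))))))) (K a255 (M a16 (F (T t112 (L l241 (L l245 (L l289 (T t113 (L l241 (L l245 (L l289 (L l296 (T t98 N)))))))))))) N)))))))))))))))⟩
def e0_63__219_121 : Ent 4 := ⟨[a0, a63], [a219, a223], (M a60 (L l245 (F (T t67 (T t43 (T t68 (T t69 (K a20 (M a85 (L l245 (F (T t90 (T t114 (L l246 (T t1344 (K a211 (M a215 (F (T t5673 (T t90 (L l246 (T t1344 N)))))) (K a215 (M a211 (F (T t90 (T t114 (L l239 (L l246 (T t1344 N))))))) N))))))))) (K a40 (M a48 (L l245 (F (T t1 (T t64 (L l52 (T t235 (K a211 (M a215 (F (T t1 (T t42 (L l52 (L l344 (L l368 (T t1419 N)))))))) (K a215 (M a211 (F (T t70 (L l24 (L l355 (T t6051 N)))))) N))))))))) (K a21 (M a255 (L l245 (F (T t2967 (T t1565 (L l11 (L l283 (L l347 (L l368 (T t1567 (K a211 (M a215 (F (T t5676 (L l65 (T t2969 N))))) (K a215 (M a211 (F (T t1633 (L l347 (L l350 (L l368 (T t4709 (L l347 (L l350 (L l368 (T t4710 N))))))))))) N)))))))))))) (K a41 (M a48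 (L l245 (F (T t42 (L l22 (T t2 (L l22 (L l57 (T t247 (K a211 (M a215 (F (T t70 (L l22 (L l367 (L l368 (L l389 (T t5678 N)))))))) (K a215 (M a211 (F (T t70 (L l355 (T t6051 N))))) N))))))))))) (K a61 (M a16 (L l245 (F (T t112 (L l362 (T t1140 (L l59 (L l356 (T t1141 (K a211 (M a215 (F (T t2447 (L l361 (L l373 (T t97 (L l367 (T t6326 N)))))))) (K a215 (M a211 (F (T t112 (L l350 (L l356 (T t6327 N)))))) N))))))))))) (K a22 (M a150 (L l245 (F (T t1136 (L l11 (L l283 (T t2366 (L l11 (T t6328 (K a211 (M a215 (F (T t6329 (T t1622 N)))) (K a215 (M a211 (F (T t1622 (L l356 (L l368 (T t6330 N)))))) N))))))))))) (K a42 (M a255 (L l245 (F (T t1565 (L l283 (L l368 (T t1634 (L l66 (L l283 (L l368 (T t1567 (K a211 (M a215 (F (L l390 (T t5676 (L l283 (T t5682 N)))))) (K a215 (M a211 (F (T t2969 (L l350 (L l368 (T t4709 (L l66 (L l350 (L l368 (T t4710 N)))))))))) N))))))))))))) (K a62 (M a16 (L l245 (F (T t2447 (L l66 (L l361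 (T t97 (L l66 (L l356 (T t1141 (K a211 (M a215 (F (T t2447 (L l66 (L l361 (L l373 (T t97 (L l66 (T t5685 N))))))))) (K a215 (M a211 (F (T t2447 (L l66 (L l349 (T t6331 N)))))) N)))))))))))) (K a3 (M a16 (L l245 (F (T t112 (L l9 (L l362 (T t1140 (L l356 (T t1141 (K a211 (M a215 (F (T t6332 (T t5685 N)))) (K a215 (M a211 (F (T t112 (L l350 (L l356 (T t6327 N)))))) N))))))))))) (K a211 (M a215 (F (T t67 (L l368 (T t5690 (L l368 (T t5685 (K a20 (M a48 (F (T t451 (L l11 (T t1 (L l11 (L l14 (L l344 (L l368 (T t1419 N)))))))))) (K a40 (M a23 (F (L l22 (T t5691 (L l367 (L l392 (T t5692 N))))))) N))))))))) (K a215 (M a211 (F (T t68 (L l350 (T t67 (L l349 (T t43 (T t69 (K a20 (M a150 (F (T t6333 (L l11 (L l368 (T t5415 N)))))) (K a40 (M a48 (F (T t70 (L l24 (L l355 (T t6051 N)))))) (K a21 (M a48 (F (T t70 (T t6334 N)))) (K a41 (M a48 (F (T t70 (L l355 (T t6051 N))))) (K a61 (M a16 (F (T t112 (L l350 (L l356 (T t6327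 N)))))) (K a22 (M a16 (F (T t2447 (L l16 (L l66 (L l349 (T t6331 N))))))) (K a42 (M a48 (F (T t64 (L l22 (L l28 (T t6334 N)))))) (K a62 (M a16 (F (T t2447 (L l66 (L l349 (T t6331 N)))))) (K a3 (M a16 (F (T t112 (L l350 (L l356 (T t6327 N)))))) N))))))))))))))))) N))))))))))))))))))⟩
def e0_63__219_122 : Ent 4 := ⟨[a0, a63], [a219, a228], (M a85 (F (T t88 (T t52 (T t89 (T t90 (K a64 (M a16 (F (T t97 (L l84 (L l245 (T t96 (L l116 (L l245 (T t98 N))))))))) (K a192 (M a16 (F (T t112 (L l245 (T t96 (L l245 (L l296 (T t98 N)))))))) (K a21 (M a48 (F (T t1243 (L l47 (L l245 (T t100 (L l298 (T t50 N)))))))) (K a149 (M a16 (F (T t112 (L l245 (L l301 (T t173 (L l170 (L l356 (T t102 N))))))))) (K a213 (Fr a170 a255 l476 (Fr a42 a21 l68 (Fr a106 a234 l390 (Fr a192 a149 l519 (V t581))))) (K a42 (M a48 (F (T t364 (L l298 (L l390 (T t50 (L l28 (L l245 (T t100 N))))))))) (K a106 (M a48 (F (T t364 (T t1 (L l298 (L l390 (T t50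 N))))))) (K a170 (M a16 (F (L l390 (L l404 (T t97 (L l245 (L l390 (T t98 (L l245 (L l404 (T t113 (L l245 (L l301 (L l404 (T t174 N))))))))))))))) (K a255 (M a16 (F (T t112 (L l245 (L l289 (T t113 (L l245 (L l289 (L l296 (T t98 N)))))))))) N)))))))))))))))⟩
def e0_63__219_123 : Ent 4 := ⟨[a0, a63], [a219, a229], (M a85 (F (T t90 (L l275 (T t88 (L l256 (T t52 (L l275 (T t89 (K a64 (M a16 (F (T t97 (L l84 (L l245 (L l301 (L l303 (T t173 (L l116 (L l245 (L l275 (T t98 N)))))))))))) (K a192 (M a16 (F (T t112 (L l236 (L l245 (L l301 (L l303 (T t173 (L l245 (L l275 (L l296 (T t98 N)))))))))))) (K a21 (M a48 (F (T t1243 (L l47 (L l245 (T t100 (L l303 (T t50 N)))))))) (K a149 (M a16 (F (T t112 (L l245 (L l301 (L l303 (T t173 (L l170 (L l356 (T t102 N)))))))))) (K a213 (Fr a170 a255 l476 (Fr a42 a21 l68 (Fr a106 a234 l390 (Fr a192 a149 l519 (V t581))))) (K a42 (M a48 (F (L l256 (T t364 (L l28 (L l245 (T t100 (L l303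 (L l390 (T t50 N)))))))))) (K a106 (M a48 (F (T t1 (L l245 (T t99 (L l303 (L l390 (T t50 N)))))))) (K a170 (M a16 (F (L l390 (L l404 (T t97 (L l245 (L l275 (L l390 (T t98 (L l245 (L l404 (T t113 (L l245 (L l275 (L l301 (L l303 (L l404 (T t174 N)))))))))))))))))) (K a255 (M a16 (F (T t112 (L l245 (L l289 (T t113 (L l245 (L l275 (L l289 (L l296 (T t98 N))))))))))) N))))))))))))))))))⟩
def e0_63__219_124 : Ent 4 := ⟨[a0, a63], [a219, a231], (M a85 (L l301 (F (T t88 (T t52 (T t89 (T t90 (K a64 (M a243 (F (T t3593 (L l80 (T t4184 (T t2088 N)))))) (K a192 (M a243 (F (L l296 (T t4179 (L l489 (T t2088 (L l386 (T t4185 N)))))))) (K a21 (M a243 (F (T t3593 (T t2088 (T t3594 N))))) (K a149 (M a16 (L l301 (F (T t112 (L l245 (T t666 (L l170 (L l356 (T t102 (K a243 (M a207 (F (T t6335 (L l220 (L l481 (T t2057 N)))))) (K a207 (M a243 (F (T t6336 (L l202 (L l220 (L l277 (L l511 (T t4188 N)))))))) N))))))))))) (K a213 (Fr a170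 a255 l476 (Fr a42 a21 l68 (Fr a106 a234 l390 (Fr a192 a149 l519 (V t581))))) (K a42 (M a243 (F (T t4211 (L l390 (T t2088 (T t3594 N)))))) (K a106 (M a243 (F (T t4211 (L l277 (L l390 (L l501 (T t4188 (L l132 (L l390 (T t2089 (L l132 (T t4189 N)))))))))))) (K a170 (M a243 (F (L l178 (L l390 (T t2089 (L l178 (T t3594 (L l220 (L l390 (T t4194 (L l178 (L l390 (T t4192 (L l390 (T t4193 (L l178 (T t4189 (L l178 (L l283 (L l464 (T t4187 N))))))))))))))))))))) (K a255 (M a243 (F (L l296 (T t5841 (L l470 (T t3594 (L l277 (L l296 (T t4191 (L l386 (L l470 (T t4185 (L l283 (L l296 (L l386 (L l470 (T t4186 (L l296 (L l470 (T t5842 N)))))))))))))))))))) (K a243 (M a207 (F (T t89 (L l416 (T t5610 (T t2846 N)))))) (K a207 (M a243 (F (T t89 (L l326 (T t4211 (T t4184 N)))))) N))))))))))))))))))⟩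
def e0_63__219_125 : Ent 4 := ⟨[a0, a63], [a219, a236], (M a85 (F (T t88 (T t52 (T t89 (T t90 (K a64 (M a48 (F (T t50 (L l245 (L l400 (T t568 N)))))) (K a192 (M a16 (F (L l400 (T t112 (L l245 (L l296 (T t666 (L l245 (L l296 (T t98 N)))))))))) (K a21 (M a48 (F (L l301 (T t873 (L l47 (L l245 (L l400 (T t100 (T t50 N))))))))) (K a149 (M a16 (F (L l400 (T t112 (L l245 (T t666 (L l170 (L l356 (T t102 N))))))))) (K a213 (Fr a170 a255 l476 (Fr a42 a21 l68 (Fr a106 a234 l390 (Fr a192 a149 l519 (V t581))))) (K a42 (M a48 (F (L l251 (T t364 (L l390 (T t50 (L l28 (L l245 (L l400 (T t100 N)))))))))) (K a106 (M a48 (F (T t1 (L l104 (L l245 (L l400 (T t509 (L l390 (T t50 N))))))))) (K a170 (M a16 (F (L l390 (L l400 (L l404 (T t97 (L l245 (L l390 (T t98 (L l245 (L l400 (L l404 (T t113 (L l245 (L l301 (L l400 (L l404 (T t174 N)))))))))))))))))) (K a255 (M a16 (F (L l400 (T t112 (L l245 (L l289 (L l296 (T t98 (L l245 (L l289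 (L l400 (T t113 N)))))))))))) N)))))))))))))))⟩
def e0_63__219_126 : Ent 4 := ⟨[a0, a63], [a219, a237], (M a85 (F (T t88 (T t52 (T t89 (T t90 (K a64 (M a16 (F (T t97 (L l84 (L l245 (L l401 (T t96 (L l116 (L l245 (T t98 N)))))))))) (K a192 (M a16 (F (T t112 (L l245 (L l401 (T t96 (L l245 (L l296 (T t98 N))))))))) (K a21 (M a48 (F (T t1243 (L l47 (L l245 (T t100 (T t50 N))))))) (K a149 (M a16 (F (T t112 (L l245 (L l291 (L l301 (T t173 (L l170 (L l356 (T t102 N)))))))))) (K a213 (Fr a170 a255 l476 (Fr a42 a21 l68 (Fr a106 a234 l390 (Fr a192 a149 l519 (V t581))))) (K a42 (M a48 (F (L l251 (T t364 (L l390 (T t50 (L l28 (L l245 (T t100 N))))))))) (K a106 (M a48 (F (T t1 (L l104 (L l245 (L l401 (T t509 (L l390 (T t50 N))))))))) (K a170 (M a16 (F (L l390 (L l404 (T t97 (L l245 (L l390 (T t98 (L l245 (L l404 (T t113 (L l245 (L l291 (L l301 (L l404 (T t174 N)))))))))))))))) (K a255 (M a16 (F (T t112 (L l245 (L l289 (T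 t113 (L l245 (L l289 (L l296 (T t98 N)))))))))) N)))))))))))))))⟩
def e0_63__219_127 : Ent 4 := ⟨[a0, a63], [a219, a238], (M a48 (F (T t1 (T t2 (T t3 (T t0 (K a16 (M a60 (F (T t43 (T t64 (T t65 N))))) (K a32 (M a60 (F (T t67 (T t64 (L l24 (L l28 (T t65 N))))))) (K a21 (M a192 (F (T t837 (L l47 (L l301 (L l347 (T t20 (L l47 (L l245 (L l347 (T t29 N))))))))))) (K a37 (M a192 (F (T t19 (L l47 (L l301 (T t20 (L l290 (T t21 N)))))))) (K a53 (M a192 (F (T t19 (L l290 (L l491 (T t21 (T t31 N))))))) (K a26 (M a192 (F (T t837 (L l301 (T t20 (L l290 (T t21 N))))))) (K a42 (M a192 (F (T t19 (L l301 (T t20 (L l28 (L l245 (T t29 N)))))))) (K a58 (M a192 (F (T t19 (L l290 (T t21 (L l54 (L l498 (T t31 N)))))))) (K a15 (M a170 (F (T t2101 (L l251 (L l254 (T t324 N)))))) N)))))))))))))))⟩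
def e0_63__219_128 : Ent 4 := ⟨[a0, a63], [a219, a239], (M a60 (F (T t67 (T t43 (T t68 (T t69 (K a20 (M a48 (F (T t2 (T t64 (L l11 (T t235 N)))))) (K a40 (M a48 (F (T t1 (T t64 (L l52 (T t235 N)))))) (K a21 (M a192 (F (T t72 (L l347 (T t73 (L l245 (L l347 (T t74 N)))))))) (K a41 (M a192 (F (T t77 (L l65 (L l256 (L l289 (T t35 (T t73 N)))))))) (K a61 (M a192 (F (T t72 (L l65 (L l256 (L l289 (L l515 (T t35 (T t80 N))))))))) (K a22 (M a192 (F (T t72 (L l289 (T t21 (T t73 N)))))) (K a42 (M a192 (F (T t79 (T t73 (L l22 (L l245 (T t74 N))))))) (K a62 (M a192 (F (T t72 (L l256 (L l289 (T t35 (L l66 (L l516 (T t80 N))))))))) (K a3 (M a170 (F (T t4824 (L l255 (L l256 (L l283 (T t458 N))))))) N)))))))))))))))⟩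
def e0_63__219_129 : Ent 4 := ⟨[a0, a63], [a219, a252], (M a12 (F (T t150 (L l441 (T t122 (L l441 (T t151 (L l441 (T t152 (L l441 (T t153 (K a4 (M a60 (F (T t570 (L l46 (L l50 (L l477 (T t67 (T t448 N)))))))) (K a8 (M a60 (F (T t570 (L l477 (T t67 (L l52 (L l56 (T t448 N)))))))) (K a21 (M a192 (F (T t2119 (L l15 (L l267 (L l301 (L l347 (T t450 (L l15 (L l347 (T t157 N))))))))))) (K a25 (M a192 (F (T t158 (L l286 (T t156 (L l261 (T t21 N))))))) (K a29 (M a192 (F (T t159 (L l261 (L l371 (T t21 (T t160 N))))))) (K a38 (M a192 (F (T t161 (L l286 (T t156 (L l261 (T t21 N))))))) (K a42 (M a192 (F (T t161 (L l286 (T t156 (L l56 (T t157 N))))))) (K a46 (M a192 (F (T t57 (L l286 (T t156 (L l26 (L l408 (T t160 N)))))))) (K a51 (M a170 (L l441 (F (T t439 (L l261 (L l439 (T t3685 (L l283 (T t3880 (K a185 (M a118 (F (T t4159 (L l283 (T t3682 N))))) (K a118 (M a185 (F (T t4159 (L l283 (T t3682 N))))) N))))))))))) N))))))))))))))))))))⟩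
def e0_63__219_130 : Ent 4 := ⟨[a0, a63], [a219, a253], (M a149 (F (T t175 (L l293 (T t5 (L l261 (L l293 (T t176 (L l261 (T t177 (K a192 (M a53 (F (T t178 (L l236 (T t179 (L l236 (L l293 (L l296 (T t180 N))))))))) (K a21 (M a48 (F (T t4 (T t13 (L l18 (T t14 N)))))) (K a85 (M a1 (F (L l431 (T t534 (L l144 (L l293 (T t1083 (L l141 (T t1084 N))))))))) (K a213 (Fr a106 a192 l519 (Fr a42 a21 l68 (Fr a170 a234 l390 (Fr a255 a85 l476 (V t582))))) (K a42 (M a48 (F (T t187 (L l390 (T t13 (L l54 (T t14 N))))))) (K a106 (M a48 (F (T t1 (L l498 (T t14 (L l293 (L l390 (L l437 (L l498 (T t6 (L l245 (L l293 (L l390 (T t26 N)))))))))))))) (K a170 (M a48 (F (T t4 (L l462 (T t1 (L l390 (T t13 N))))))) (K a191 (M a16 (F (T t97 (T t190 (L l213 (L l245 (L l293 (T t191 N)))))))) (K a255 (M a252 (F (T t2838 (L l434 (T t940 (L l293 (L l296 (T t1291 (L l431 (T t1292 N)))))))))) N)))))))))))))))))))⟩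
def e0_63__219_131 : Ent 4 := ⟨[a0, a63], [a219, a255], (M a48 (F (T t48 (L l469 (T t1 (L l469 (T t2 (L l469 (T t3 (L l469 (T t0 (K a16 (M a60 (F (T t138 (L l14 (L l18 (L l475 (T t67 (T t65 N)))))))) (K a32 (M a60 (F (T t138 (L l475 (T t67 (L l24 (L l28 (T t65 N)))))))) (K a21 (M a192 (F (T t54 (L l266 (T t27 (L l47 (L l245 (L l289 (L l347 (T t29 N)))))))))) (K a37 (M a192 (F (T t54 (L l266 (T t27 (L l28 (L l47 (L l245 (L l289 (T t29 N)))))))))) (K a53 (M a12 (F (T t3475 (L l47 (L l439 (T t122 (L l47 (L l356 (T t146 N))))))))) (K a26 (M a192 (F (T t56 (L l266 (T t27 (L l245 (L l289 (T t29 N)))))))) (K a42 (M a192 (F (T t56 (L l266 (T t27 (L l28 (L l245 (L l289 (T t29 N))))))))) (K a58 (M a12 (F (T t3475 (L l439 (T t122 (L l356 (T t146 N))))))) (K a15 (M a192 (L l469 (F (T t54 (L l266 (L l483 (T t27 (L l245 (L l289 (T t29 (K a95 (M a175 (F (T t1922 (L l289 (L l301 (L l325 (L l361 (T t22 (L l245 (L l289 (L l361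 (T t29 N)))))))))))) (K a175 (M a95 (F (T t53 (L l266 (L l483 (T t28 (L l245 (L l289 (T t29 N))))))))) N)))))))))))) N))))))))))))))))))))⟩
def b0_63__219 : Blk 4 := ⟨[0, 63], [219], [1, 3, 4, 5, 6, 7, 8, 9, 10, 11, 12, 13, 14, 15, 20, 22, 23, 24, 25, 27, 28, 29, 30, 31, 36, 37, 39, 44, 45, 46, 47, 60, 61, 64, 65, 66, 67, 68, 69, 70, 71, 72, 73, 74, 75, 76, 77, 78, 79, 80, 81, 82, 83, 84, 85, 86, 87, 88, 89, 90, 91, 92, 93, 94, 95, 96, 97, 98, 99, 100, 101, 102, 103, 104, 105, 106, 107, 108, 109, 110, 111, 112, 113, 114, 115, 116, 117, 118, 119, 120, 121, 122, 123, 124, 125, 126, 127, 192, 193, 195, 196, 197, 198, 199, 200, 201, 202, 203, 204, 205, 206, 207, 212, 213, 214, 215, 216, 217, 220, 221, 222, 223, 228, 229, 231, 236, 237, 238, 239, 252, 253, 255], [e0_63__219_0, e0_63__219_1, e0_63__219_2, e0_63__219_3, e0_63__219_4, e0_63__219_5, e0_63__219_6, e0_63__219_7, e0_63__219_8, e0_63__219_9, e0_63__219_10,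 e0_63__219_11, e0_63__219_12, e0_63__219_13, e0_63__219_14, e0_63__219_15, e0_63__219_16, e0_63__219_17, e0_63__219_18, e0_63__219_19, e0_63__219_20, e0_63__219_21, e0_63__219_22, e0_63__219_23, e0_63__219_24, e0_63__219_25, e0_63__219_26, e0_63__219_27, e0_63__219_28, e0_63__219_29, e0_63__219_30, e0_63__219_31, e0_63__219_32, e0_63__219_33, e0_63__219_34, e0_63__219_35, e0_63__219_36, e0_63__219_37, e0_63__219_38, e0_63__219_39, e0_63__219_40, e0_63__219_41, e0_63__219_42, e0_63__219_43, e0_63__219_44, e0_63__219_45, e0_63__219_46, e0_63__219_47, e0_63__219_48, e0_63__219_49, e0_63__219_50, e0_63__219_51, e0_63__219_52, e0_63__219_53, e0_63__219_54, e0_63__219_55, e0_63__219_56, e0_63__219_57, e0_63__219_58, e0_63__219_59, e0_63__219_60, e0_63__219_61, e0_63__219_62, e0_63__219_63, e0_63__219_64, e0_63__219_65, e0_63__219_66, e0_63__219_67, e0_63__219_68, e0_63__219_69, e0_63__219_70, e0_63__219_71, e0_63__219_72,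 e0_63__219_73, e0_63__219_74, e0_63__219_75, e0_63__219_76, e0_63__219_77, e0_63__219_78, e0_63__219_79, e0_63__219_80, e0_63__219_81, e0_63__219_82, e0_63__219_83, e0_63__219_84, e0_63__219_85, e0_63__219_86, e0_63__219_87, e0_63__219_88, e0_63__219_89, e0_63__219_90, e0_63__219_91, e0_63__219_92, e0_63__219_93, e0_63__219_94, e0_63__219_95, e0_63__219_96, e0_63__219_97, e0_63__219_98, e0_63__219_99, e0_63__219_100, e0_63__219_101, e0_63__219_102, e0_63__219_103, e0_63__219_104, e0_63__219_105, e0_63__219_106, e0_63__219_107, e0_63__219_108, e0_63__219_109, e0_63__219_110, e0_63__219_111, e0_63__219_112, e0_63__219_113, e0_63__219_114, e0_63__219_115, e0_63__219_116, e0_63__219_117, e0_63__219_118, e0_63__219_119, e0_63__219_120, e0_63__219_121, e0_63__219_122, e0_63__219_123, e0_63__219_124, e0_63__219_125, e0_63__219_126, e0_63__219_127, e0_63__219_128, e0_63__219_129, e0_63__219_130, e0_63__219_131], by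 decide +kernel, by decide +kernel⟩

end Pool.Agent.Lib_TTT.K4
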