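import Pool.Agent.Lib_TTT.K4Base
import Pool.Agent.Lib_TTT.K4T00
import Pool.Agent.Lib_TTT.K4T01
import Pool.Agent.Lib_TTT.K4T02
import Pool.Agent.Lib_TTT.K4T03
import Pool.Agent.Lib_TTT.K4T04
import Pool.Agent.Lib_TTT.K4T05
import Pool.Agent.Lib_TTT.K4T06
import Pool.Agent.Lib_TTT.K4T07

/-! Certificates in `4^4`. -/

set_option autoImplicit false
set_option maxRecDepth 200000

namespace Pool.Agent.Lib_TTT.K4

open Lib_TTT AC DC

def e0_63__223_0 : Ent 4 := ⟨[a0, a63], [a223, a1], (M a48 (F (L l65 (T t1 (L l5 (T t2 (L l65 (L l368 (T t3 (L l361 (T t0 (K a16 (M a85 (F (T t90 (T t50 (L l246 (T t51 N)))))) (K a32 (M a60 (F (T t42 (L l65 (T t67 (L l5 (L l24 (L l28 (T t65 N))))))))) (K a21 (M a60 (L l65 (F (L l47 (T t42 (L l362 (T t248 (L l11 (L l18 (L l47 (L l368 (T t876 (L l41 (L l50 (L l362 (T t5102 (K a41 (Fr a61 a62 l33 (V t877)) (K a61 (M a41 (F (L l11 (T t878 (L l59 (T t879 (L l50 (T t247 N)))))))) N))))))))))))))))))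 (K a37 (M a192 (F (T t837 (L l47 (L l289 (T t20 (L l289 (T t21 N)))))))) (K a53 (M a192 (F (T t27 (L l289 (L l491 (T t21 (L l47 (L l65 (L l491 (T t525 N)))))))))) (K a26 (M a192 (F (T t27 (L l289 (T t20 (L l289 (T t21 N))))))) (K a42 (M a192 (F (T t837 (L l289 (T t20 (L l54 (L l289 (L l368 (L l390 (T t224 N)))))))))) (K a58 (M a192 (F (T t837 (L l289 (T t21 (L l65 (T t525 N))))))) (K a15 (M a192 (F (T t1800 (L l483 (T t27 (L l289 (L l325 (T t20 N)))))))) N))))))))))))))))))))⟩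
def e0_63__223_1 : Ent 4 := ⟨[a0, a63], [a223, a2], (M a48 (F (L l6 (T t1 (L l66 (T t2 (L l368 (T t3 (L l66 (L l361 (T t0 (K a16 (M a85 (F (L l474 (T t90 (L l66 (L l246 (T t51 (L l474 (T t50 N))))))))) (K a32 (M a60 (F (T t42 (L l24 (L l28 (L l66 (T t43 (L l6 (T t44 N))))))))) (K a21 (M a192 (F (T t27 (L l47 (L l289 (L l347 (T t20 (L l18 (L l289 (L l368 (T t224 N))))))))))) (K a37 (M a192 (F (T t837 (L l47 (L l289 (T t20 (L l289 (T t21 N)))))))) (K a53 (M a192 (F (T t837 (L l289 (L l491 (T t21 (L l47 (L l491 (T t525 N))))))))) (K a26 (M a192 (F (T t27 (L l289 (T t20 (L l289 (T t21 N))))))) (K a42 (M a60 (L l66 (F (L l42 (T t64 (L l22 (T t247 (L l42 (L l56 (L l368 (T t288 (L l22 (L l28 (L l54 (L l362 (T t638 (K a22 (Fr a62 a61 l33 (V t639)) (K a62 (M a22 (F (L l22 (T t881 (L l54 (L l60 (T t882 (L l368 (T t880 N))))))))) N)))))))))))))))))) (K a58 (M a192 (F (T t837 (L l289 (T t21 (T t525 N)))))) (K a15 (M a192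 (F (T t57 (L l483 (T t27 (L l289 (L l325 (T t20 N)))))))) N))))))))))))))))))))⟩
def e0_63__223_2 : Ent 4 := ⟨[a0, a63], [a223, a3], (M a48 (F (T t132 (L l7 (T t1 (L l7 (T t2 (L l7 (L l368 (T t3 (L l7 (L l361 (T t0 (K a16 (M a85 (F (T t4539 (L l453 (T t50 (L l246 (T t51 N))))))) (K a32 (M a85 (F (L l289 (L l475 (T t52 (L l404 (L l453 (T t50 (L l28 (L l246 (T t51 N))))))))))) (K a21 (M a192 (F (T t53 (L l453 (T t27 (L l18 (L l289 (L l368 (T t224 N))))))))) (K a37 (M a192 (F (T t53 (L l453 (T t27 (L l289 (L l475 (T t21 N)))))))) (K a53 (M a192 (F (T t1800 (L l453 (T t27 (L l47 (L l491 (T t525 N)))))))) (K a26 (M a192 (F (T t56 (L l453 (T t27 (L l289 (L l475 (T t21 N)))))))) (K a42 (M a192 (F (T t56 (L l453 (T t27 (L l54 (L l289 (L l368 (L l390 (T t224 N)))))))))) (K a58 (M a192 (F (T t1922 (L l289 (L l475 (T t21 (T t525 N))))))) (K a15 (M a80 (L l7 (F (T t6339 (L l289 (L l469 (L l475 (T t942 (L l246 (L l289 (L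 l469 (L l475 (L l483 (T t60 (L l246 (L l289 (L l325 (L l331 (L l361 (T t3327 (K a7 (M a11 (F (T t6339 (L l69 (T t62 N))))) (K a11 (M a7 (F (T t6339 (L l69 (T t63 N))))) N)))))))))))))))))))))) N))))))))))))))))))))))⟩
def e0_63__223_3 : Ent 4 := ⟨[a0, a63], [a223, a5], (M a60 (F (T t43 (L l47 (T t67 (L l47 (T t68 (L l5 (T t69 (K a20 (M a48 (F (T t70 (L l11 (L l14 (L l47 (L l368 (T t3 (L l46 (L l361 (T t71 N))))))))))) (K a40 (M a48 (F (T t70 (L l47 (L l368 (T t3 (L l22 (L l24 (L l361 (T t71 N)))))))))) (K a21 (M a192 (L l47 (F (T t72 (L l347 (T t73 (L l245 (L l347 (T t74 (K a37 (M a53 (F (T t75 (L l28 (L l362 (T t76 N)))))) (K a53 (M a37 (F (T t77 (L l347 (L l491 (T t73 (L l11 (T t78 N)))))))) N))))))))))) (K a41 (M a192 (F (T t79 (L l47 (L l65 (L l289 (T t35 (T t73 N)))))))) (K a61 (M a192 (F (T t72 (L l47 (L l65 (L l289 (L l515 (T t35 (L l246 (T t80 N)))))))))) (K a22 (M a192 (F (T t72 (L l289 (T t21 (T t73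 N)))))) (K a42 (M a192 (F (T t79 (T t73 (L l22 (L l245 (T t74 N))))))) (K a62 (M a192 (F (T t72 (L l47 (L l289 (T t35 (L l66 (L l246 (L l516 (T t80 N)))))))))) (K a3 (M a192 (F (T t1800 (L l477 (T t79 (L l307 (T t73 N))))))) N))))))))))))))))))⟩
def e0_63__223_4 : Ent 4 := ⟨[a0, a63], [a223, a6], (M a149 (F (T t175 (L l246 (T t5 (L l246 (L l289 (T t176 (L l289 (T t177 (K a192 (M a53 (F (L l1 (T t178 (L l236 (L l289 (L l368 (T t179 (L l236 (L l246 (L l296 (T t180 N)))))))))))) (K a21 (M a48 (F (T t4 (T t13 (L l18 (L l289 (L l368 (T t14 N)))))))) (K a85 (M a16 (F (L l361 (T t97 (L l144 (L l246 (T t190 (L l94 (T t278 N))))))))) (K a213 (Fr a106 a192 l519 (Fr a42 a21 l68 (Fr a170 a234 l390 (Fr a255 a85 l476 (V t582))))) (K a42 (M a48 (F (T t11 (L l390 (T t13 (L l54 (L l289 (L l368 (T t14 N))))))))) (K a106 (M a48 (F (L l6 (T t1 (L l104 (L l144 (L l246 (L l289 (L l361 (L l390 (T t1285 (L l289 (L l368 (L l498 (T t14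 N))))))))))))))) (K a170 (M a48 (F (T t4 (L l6 (L l462 (T t1 (L l390 (T t13 N)))))))) (K a191 (M a48 (F (T t13 (L l246 (T t6 N))))) (K a255 (M a207 (F (T t1286 (L l6 (L l469 (T t1287 (L l246 (L l296 (T t1288 (L l361 (T t1289 N))))))))))) N)))))))))))))))))))⟩
def e0_63__223_5 : Ent 4 := ⟨[a0, a63], [a223, a7], (M a149 (F (T t175 (L l246 (T t5 (L l246 (L l289 (T t176 (L l289 (T t177 (K a192 (M a53 (F (L l1 (T t178 (L l236 (L l289 (L l368 (T t179 (L l236 (L l246 (L l296 (T t180 N)))))))))))) (K a21 (M a48 (F (T t4 (T t13 (L l18 (L l289 (L l368 (T t14 N)))))))) (K a85 (M a16 (F (L l361 (T t504 (L l144 (L l246 (T t190 (L l94 (T t278 N))))))))) (K a213 (Fr a106 a192 l519 (Fr a42 a21 l68 (Fr a170 a234 l390 (Fr a255 a85 l476 (V t582))))) (K a42 (M a48 (F (T t11 (L l390 (T t13 (L l54 (L l289 (L l368 (T t14 N))))))))) (K a106 (M a48 (F (L l7 (T t1 (L l104 (L l144 (L l246 (L l289 (L l361 (L l390 (T t1285 (L l289 (L l368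 (L l498 (T t14 N))))))))))))))) (K a170 (M a48 (F (T t4 (L l7 (L l462 (T t1 (L l390 (T t13 N)))))))) (K a191 (M a48 (F (T t13 (L l246 (T t6 N))))) (K a255 (M a207 (F (T t1286 (L l7 (L l469 (T t1287 (L l246 (L l296 (T t1288 (L l361 (T t1289 N))))))))))) N)))))))))))))))))))⟩
def e0_63__223_6 : Ent 4 := ⟨[a0, a63], [a223, a10], (M a60 (F (T t67 (L l54 (T t43 (L l6 (T t68 (L l54 (T t69 (K a20 (M a48 (F (T t64 (L l54 (L l361 (T t0 (L l6 (L l11 (T t235 N))))))))) (K a40 (M a48 (F (T t42 (L l22 (L l24 (L l54 (L l361 (T t0 (L l6 (L l52 (T t235 N))))))))))) (K a21 (M a192 (F (T t72 (L l347 (T t73 (L l245 (L l347 (T t74 N)))))))) (K a41 (M a192 (F (T t79 (L l65 (L l289 (T t35 (T t73 N))))))) (K a61 (M a192 (F (T t72 (L l65 (L l289 (L l515 (T t35 (L l54 (L l246 (T t80 N)))))))))) (K a22 (M a192 (F (T t72 (L l289 (T t21 (T t73 N)))))) (K a42 (M a192 (L l54 (F (T t79 (T t73 (L l22 (L l245 (T t74 (K a26 (M a58 (F (T t569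 (L l22 (L l57 (T t1342 N)))))) (K a58 (M a26 (F (T t79 (T t73 (L l390 (L l498 (T t78 N))))))) N)))))))))) (K a62 (M a192 (F (T t72 (L l289 (T t35 (L l54 (L l66 (L l246 (L l516 (T t80 N)))))))))) (K a3 (M a192 (F (T t237 (L l477 (T t79 (L l289 (L l475 (T t35 N)))))))) N))))))))))))))))))⟩
def e0_63__223_7 : Ent 4 := ⟨[a0, a63], [a223, a11], (M a149 (F (T t175 (L l246 (T t5 (L l246 (L l289 (T t176 (L l289 (T t177 (K a192 (M a53 (F (T t178 (L l236 (L l289 (L l368 (T t179 (L l236 (L l246 (L l296 (T t180 N))))))))))) (K a21 (M a48 (F (T t4 (T t13 (L l18 (L l289 (L l368 (T t14 N)))))))) (K a85 (M a16 (F (L l455 (T t112 (L l144 (L l246 (T t190 (L l57 (L l94 (L l465 (T t278 N))))))))))) (K a213 (Fr a106 a192 l519 (Fr a42 a21 l68 (Fr a170 a234 l390 (Fr a255 a85 l476 (V t582))))) (K a42 (M a48 (F (T t11 (L l390 (T t13 (L l54 (L l289 (L l368 (T t14 N))))))))) (K a106 (M a48 (F (L l2 (L l7 (T t1 (L l104 (L l144 (L l246 (L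 l289 (L l361 (L l390 (T t1285 (L l289 (L l368 (L l498 (T t14 N)))))))))))))))) (K a170 (M a48 (F (T t4 (L l2 (L l7 (L l462 (T t1 (L l390 (T t13 N))))))))) (K a191 (M a16 (F (T t112 (L l246 (T t190 (L l57 (L l465 (T t278 N)))))))) (K a255 (M a207 (F (T t1286 (L l2 (L l7 (L l469 (T t1287 (L l246 (L l296 (T t1288 (L l361 (T t1289 N)))))))))))) N)))))))))))))))))))⟩
def e0_63__223_8 : Ent 4 := ⟨[a0, a63], [a223, a15], (M a12 (F (T t150 (L l73 (T t122 (L l73 (T t151 (L l73 (T t152 (L l73 (T t153 (K a4 (M a85 (F (T t4539 (L l327 (L l362 (T t124 (L l246 (L l362 (T t154 N))))))))) (K a8 (M a85 (F (L l289 (L l469 (T t52 (L l327 (L l362 (L l464 (T t124 (L l56 (L l246 (L l362 (T t154 N))))))))))))) (K a21 (M a192 (F (T t158 (L l327 (T t156 (L l15 (L l347 (T t157 N)))))))) (K a25 (M a192 (F (T t158 (L l327 (T t156 (L l289 (L l469 (T t21 N)))))))) (K a29 (M a192 (F (T t1800 (L l327 (T t156 (L l246 (T t160 N))))))) (K a38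 (M a192 (F (T t161 (L l327 (T t156 (L l289 (L l469 (T t21 N)))))))) (K a42 (M a192 (F (T t161 (L l327 (T t156 (L l56 (T t157 N))))))) (K a46 (M a192 (F (T t57 (L l327 (T t156 (L l26 (L l246 (L l408 (T t160 N))))))))) (K a51 (M a68 (L l73 (F (T t162 (L l246 (T t163 (L l246 (L l289 (L l439 (L l469 (L l513 (T t164 (K a39 (M a27 (F (T t2174 (L l63 (L l368 (T t166 N)))))) (K a27 (M a39 (F (T t2174 (L l63 (T t167 N))))) N)))))))))))))) N))))))))))))))))))))⟩
def e0_63__223_9 : Ent 4 := ⟨[a0, a63], [a223, a16], (M a85 (F (T t90 (L l246 (T t88 (L l18 (L l289 (T t52 (L l246 (T t89 (K a64 (M a60 (F (T t114 (L l245 (L l246 (T t115 N)))))) (K a192 (M a4 (F (T t1604 (L l344 (T t1399 (L l246 (L l296 (T t131 N)))))))) (K a21 (M a204 (L l18 (F (T t1746 (L l241 (T t1575 (T t1691 (K a26 (M a31 (F (T t1746 (T t6340 N)))) (K a31 (M a26 (L l361 (F (T t1746 (L l241 (L l363 (T t1575 (L l363 (L l375 (T t1747 (K a95 (M a159 (F (T t1746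 (L l137 (T t4442 N))))) (K a159 (M a95 (F (T t1746 (L l213 (L l340 (T t3008 (L l165 (L l363 (T t1691 N))))))))) N)))))))))))) N))))))))) (K a149 (M a4 (F (L l495 (T t519 (L l344 (T t1371 (L l202 (T t1372 N)))))))) (K a213 (Fr a170 a255 l476 (Fr a42 a21 l68 (Fr a106 a234 l390 (Fr a192 a149 l519 (V t581))))) (K a42 (M a240 (F (L l361 (T t3104 (L l54 (L l390 (T t933 (L l361 (T t1385 N))))))))) (K a106 (M a12 (F (L l18 (T t122 (L l132 (L l344 (T t123 (L l362 (L l390 (T t124 N)))))))))) (K a170 (M a4 (F (L l464 (T t130 (L l246 (L l390 (T t131 (L l390 (L l464 (T t519 (L l464 (T t938 N)))))))))))) (K a255 (M a4 (L l289 (F (T t1604 (L l265 (T t130 (L l246 (L l265 (L l296 (T t131 (K a207 (M a239 (F (T t1604 (L l265 (T t130 (L l246 (L l265 (L l296 (T t131 N))))))))) (K a239 (M a207 (F (T t6341 (L l246 (L l265 (L l296 (T t131 N))))))) N)))))))))))) N)))))))))))))))))))⟩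
def e0_63__223_10 : Ent 4 := ⟨[a0, a63], [a223, a17], (M a60 (F (T t43 (L l15 (T t67 (L l15 (T t68 (L l41 (T t69 (K a20 (M a48 (F (T t2 (T t64 (L l11 (L l15 (T t235 N))))))) (K a40 (M a48 (F (T t64 (L l15 (T t1 (L l15 (L l52 (T t235 N)))))))) (K a21 (M a192 (L l15 (F (T t72 (L l347 (T t73 (L l245 (L l347 (T t74 (K a25 (M a29 (F (T t75 (L l56 (T t1349 N))))) (K a29 (M a25 (F (T t77 (L l347 (L l371 (T t73 (L l11 (T t78 N)))))))) N))))))))))) (K a41 (M a192 (F (T t79 (L l15 (L l65 (L l289 (T t35 (T t73 N)))))))) (K a61 (M a192 (F (T t72 (L l15 (L l65 (L l289 (L l515 (T t35 (L l246 (T t80 N)))))))))) (K a22 (M a192 (F (T t72 (L l289 (T t21 (T t73 N)))))) (K a42 (M a192 (F (T t79 (T t73 (L l22 (L l245 (T t74 N))))))) (K a62 (M a192 (F (T t72 (L l15 (L l289 (T t35 (L l66 (L l246 (L l516 (T t80 N)))))))))) (K a3 (M a192 (F (T t1800 (L l477 (T t79 (L l307 (T t73 N))))))) N))))))))))))))))))⟩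
def e0_63__223_11 : Ent 4 := ⟨[a0, a63], [a223, a18], (M a149 (F (T t175 (L l246 (T t5 (L l246 (L l289 (T t176 (L l289 (T t177 (K a192 (M a53 (F (T t178 (L l10 (L l236 (L l289 (L l368 (T t179 (L l236 (L l246 (L l296 (T t180 N)))))))))))) (K a21 (M a48 (F (T t4 (T t13 (L l10 (L l18 (L l289 (L l368 (T t14 N))))))))) (K a85 (M a16 (F (L l361 (T t97 (L l144 (L l246 (T t190 (L l16 (L l94 (T t278 N)))))))))) (K a213 (Fr a106 a192 l519 (Fr a42 a21 l68 (Fr a170 a234 l390 (Fr a255 a85 l476 (V t582))))) (K a42 (M a48 (F (T t11 (L l390 (T t13 (L l10 (L l54 (L l289 (L l368 (T t14 N)))))))))) (K a106 (M a48 (F (T t1 (L l104 (L l144 (L l246 (L l289 (L l361 (L l390 (T t1285 (L l10 (L l289 (L l368 (L l498 (T t14 N))))))))))))))) (K a170 (M a48 (F (T t4 (L l462 (T t1 (L l390 (T t13 N))))))) (K a191 (M a16 (F (T t112 (L l246 (T t190 (L l16 (T t278 N))))))) (K a255 (M a207 (F (T t1286 (L l469 (T t1287 (L l246 (L l296 (T t1288 (L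 l361 (T t1289 N)))))))))) N)))))))))))))))))))⟩
def e0_63__223_12 : Ent 4 := ⟨[a0, a63], [a223, a19], (M a60 (L l367 (F (T t116 (L l43 (T t67 (L l17 (L l43 (T t43 (L l43 (T t68 (L l43 (T t69 (K a20 (M a51 (L l367 (F (T t3965 (T t1294 (L l10 (L l11 (T t1357 (K a87 (M a155 (F (T t1294 (L l125 (T t6342 N))))) (K a155 (M a87 (F (T t1294 (T t3961 (L l10 (L l11 (T t1357 N))))))) N)))))))))) (K a40 (M a255 (L l367 (F (T t2963 (L l22 (L l246 (L l392 (T t2142 (L l368 (T t2964 (K a87 (M a155 (F (T t2963 (L l87 (L l143 (L l368 (T t2139 (L l22 (L l246 (L l392 (T t5693 N))))))))))) (K a155 (M a87 (F (T t2969 (L l22 (L l207 (L l246 (L l392 (T t6343 N)))))))) N)))))))))))) (K a21 (M a255 (L l367 (F (T t2963 (L l11 (L l347 (L l368 (T t1634 (L l65 (L l245 (T t1635 (K a87 (M a155 (F (T t2963 (T t2967 (L l65 (L l245 (L l349 (T t1635 N)))))))) (K a155 (M a87 (F (T t1565 (L l207 (L l245 (T t6344 N)))))) N))))))))))))) (K a41 (M a85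 (L l367 (F (T t90 (L l289 (T t1563 (L l22 (L l65 (L l245 (T t523 (K a87 (M a155 (F (T t90 (L l289 (L l475 (T t1345 (L l22 (L l65 (L l143 (L l245 (L l349 (T t523 N)))))))))))) (K a155 (M a87 (F (T t114 (L l22 (L l169 (T t6345 N)))))) N)))))))))))) (K a61 (M a85 (L l367 (F (T t90 (L l245 (L l289 (T t936 (L l245 (L l246 (T t115 (K a87 (M a155 (F (T t90 (L l289 (L l475 (T t1345 (L l245 (L l246 (L l349 (T t115 N)))))))))) (K a155 (M a87 (F (L l207 (T t1198 (L l245 (L l246 (T t115 N))))))) N)))))))))))) (K a22 (M a28 (L l367 (F (L l66 (T t1346 (L l10 (L l368 (T t1353 (L l16 (L l66 (T t1354 (K a87 (M a155 (F (L l66 (T t1346 (L l10 (L l368 (T t1353 (L l16 (L l66 (T t1354 N)))))))))) (K a155 (M a87 (F (L l66 (T t1346 (L l10 (L l368 (T t1353 (L l16 (L l66 (T t1354 N)))))))))) N))))))))))))) (K a42 (M a85 (L l367 (F (L l289 (T t1563 (L l390 (T t114 (L l22 (L l245 (T t523 (K a87 (M a155 (F (L l289 (L l475 (T t1345 (L l143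 (L l390 (T t114 (L l22 (L l143 (L l245 (L l349 (T t523 N))))))))))))) (K a155 (M a87 (F (L l390 (T t114 (L l22 (L l169 (T t6345 N))))))) N)))))))))))) (K a62 (M a192 (L l367 (F (T t72 (L l289 (T t35 (L l66 (L l246 (L l516 (T t80 (K a87 (M a155 (F (T t1333 (L l289 (L l475 (T t35 (L l143 (T t2549 N)))))))) (K a155 (M a87 (F (T t1333 (L l289 (T t35 (L l499 (T t2549 N))))))) N)))))))))))) (K a3 (M a51 (L l367 (F (T t1355 (L l45 (T t1356 (L l9 (L l10 (T t1357 (K a87 (M a155 (L l475 (F (T t1355 (L l125 (L l333 (T t6342 (K a171 (M a255 (F (T t1355 (L l219 (L l477 (T t1565 N)))))) (K a255 (M a171 (L l289 (F (T t1355 (L l125 (L l290 (L l333 (L l361 (L l362 (T t6346 (K a207 (M a239 (L l331 (F (T t841 (L l45 (L l440 (L l512 (T t3961 (L l9 (T t3964 (K a71 (Fr a139 a187 l207 (V t3961)) (K a139 (M a71 (F (T t1355 (L l45 (L l440 (L l512 (T t4967 (L l9 (T t3964 N))))))))) N)))))))))))) (K a239 (Fr a207 a103 l511 (V t6347)) N))))))))))))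 N))))))))) (K a155 (M a87 (F (T t4389 (L l9 (T t1294 (L l9 (L l10 (T t1357 N)))))))) N))))))))))) (K a87 (M a155 (F (T t116 (L l43 (L l475 (T t67 (L l17 (L l43 (L l349 (L l475 (T t43 (L l43 (L l475 (T t68 (L l43 (L l475 (T t69 (K a20 (M a195 (F (L l289 (L l349 (T t6348 (T t6349 N)))))) (K a40 (M a195 (F (L l289 (L l349 (T t6348 (L l392 (T t2661 N))))))) (K a21 (M a195 (F (T t4398 (L l43 (L l143 (L l343 (T t4397 N))))))) (K a41 (M a195 (F (T t6350 (L l43 (L l143 (L l343 (T t4397 N))))))) (K a61 (M a195 (F (T t6350 (L l43 (L l143 (L l343 (T t4397 N))))))) (K a22 (M a28 (F (L l66 (T t1346 (L l10 (L l368 (T t1353 (L l16 (L l66 (T t1354 N)))))))))) (K a42 (M a195 (F (T t6351 (L l43 (L l143 (L l343 (T t4397 N))))))) (K a62 (M a195 (F (L l516 (T t6350 (L l43 (L l143 (L l343 (T t4397 N)))))))) (K a3 (M a255 (L l43 (F (T t5786 (L l477 (T t2969 (L l87 (L l143 (L l309 (L l368 (T t2139 (K a35 (M a51 (F (T t1639 (L l125 (L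 l307 (L l403 (T t6352 N))))))) (K a51 (M a35 (F (T t5297 (L l307 (L l487 (T t2967 (L l441 (L l477 (T t2969 N))))))))) N))))))))))))) N)))))))))))))))))))))))))) (K a155 (M a87 (F (L l43 (T t68 (L l19 (L l169 (L l246 (T t6353 (L l17 (L l43 (T t43 (L l43 (T t69 (K a20 (M a1 (F (T t4948 (L l207 (T t6165 N))))) (K a40 (M a1 (F (T t4949 (L l207 (L l392 (T t6165 N)))))) (K a21 (M a255 (F (T t1565 (L l207 (L l245 (T t6344 N)))))) (K a41 (M a85 (F (T t114 (L l22 (L l169 (T t6345 N)))))) (K a22 (M a28 (F (L l66 (T t1346 (L l10 (L l368 (T t1353 (L l16 (L l66 (T t1354 N)))))))))) (K a42 (M a85 (F (L l390 (T t114 (L l22 (L l169 (T t6345 N))))))) (K a62 (M a22 (F (T t3532 (L l207 (T t6354 N))))) N)))))))))))))))))))) N))))))))))))))))))))))))⟩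
def e0_63__223_13 : Ent 4 := ⟨[a0, a63], [a223, a22], (M a192 (F (L l289 (T t21 (L l11 (T t47 (L l11 (L l289 (T t35 (L l289 (T t202 (L l66 (L l246 (L l289 (T t37 (K a64 (M a48 (F (T t56 (L l11 (T t1 (L l11 (T t525 N))))))) (K a128 (M a48 (F (T t53 (L l11 (T t1 (L l11 (L l192 (L l220 (T t525 N))))))))) (K a21 (M a20 (F (T t948 (L l66 (L l245 (L l289 (L l347 (T t949 (L l65 (L l347 (T t950 N))))))))))) (K a85 (M a16 (F (L l246 (T t210 (L l66 (L l361 (T t97 (L l16 (L l66 (L l94 (L l144 (T t211 N)))))))))))) (K a149 (M a48 (F (T t837 (L l11 (L l347 (L l491 (T t1 (L l11 (L l170 (L l220 (L l347 (L l491 (T t213 (L l66 (L l361 (L l375 (T t214 N))))))))))))))))) (K a42 (M a2 (F (T t1363 (L l11 (L l289 (L l390 (T t1364 (L l390 (T t1365 N))))))))) (K a106 (M a48 (F (T t27 (L l11 (T t1 (L l11 (L l411 (T t213 (L l66 (L l104 (L l144 (L l361 (L l390 (L l498 (T t214 N))))))))))))))) (K a170 (M a48 (F (T t837 (L l11 (L l462 (T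 t1 (L l220 (L l289 (T t20 N))))))))) (K a255 (M a207 (F (T t2116 (L l469 (T t6355 (L l440 (T t6356 N))))))) N))))))))))))))))))))))))⟩
def e0_63__223_14 : Ent 4 := ⟨[a0, a63], [a223, a23], (M a149 (F (L l246 (T t5 (L l11 (T t175 (L l246 (L l289 (T t176 (L l289 (T t177 (K a192 (M a53 (F (T t178 (L l236 (L l289 (L l368 (T t179 (L l236 (L l246 (L l296 (T t180 N))))))))))) (K a21 (M a48 (L l11 (F (T t4 (T t13 (L l18 (L l289 (L l368 (T t14 (K a20 (M a22 (F (T t4 (T t13 (L l14 (L l18 (L l289 (L l368 (T t14 N))))))))) (K a22 (M a20 (F (T t4 (L l19 (L l50 (L l362 (T t183 N))))))) N))))))))))) (K a85 (M a16 (F (L l455 (T t112 (L l144 (L l246 (T t190 (L l94 (T t278 N))))))))) (K a213 (Fr a106 a192 l519 (Fr a42 a21 l68 (Fr a170 a234 l390 (Fr a255 a85 l476 (V t582))))) (K a42 (M a48 (F (T t11 (L l390 (T t13 (L l54 (L l289 (L l368 (T t14 N))))))))) (K a106 (M a48 (F (L l11 (T t1 (L l104 (L l144 (L l246 (L l289 (L l361 (L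 l390 (T t1285 (L l289 (L l368 (L l498 (T t14 N))))))))))))))) (K a170 (M a48 (F (T t4 (L l11 (L l462 (T t1 (L l390 (T t13 N)))))))) (K a191 (M a252 (F (T t1850 (L l246 (T t941 N))))) (K a255 (M a207 (F (T t1286 (L l469 (T t1287 (L l246 (L l296 (T t1288 (L l17 (L l361 (T t1289 N))))))))))) N))))))))))))))))))))⟩
def e0_63__223_15 : Ent 4 := ⟨[a0, a63], [a223, a26], (M a85 (F (T t90 (L l54 (L l246 (T t88 (L l18 (L l289 (T t52 (L l54 (L l246 (T t89 (K a64 (M a60 (F (T t114 (L l54 (L l245 (L l246 (T t115 N))))))) (K a192 (M a4 (F (T t1399 (L l54 (L l489 (T t519 (L l54 (L l246 (L l296 (T t131 N)))))))))) (K a21 (M a204 (L l18 (F (T t1746 (L l241 (T t1575 (T t1691 (K a16 (M a31 (F (T t1746 (T t6340 N)))) (K a31 (M a16 (L l361 (F (T t6357 (T t1744 (K a95 (M a159 (F (T t1746 (L l137 (T t4442 N))))) (K a159 (M a95 (F (T t1746 (L l354 (L l375 (T t6358 N)))))) N))))))) N))))))))) (K a149 (M a4 (F (T t1371 (L l54 (L l495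 (T t519 (L l54 (L l72 (L l202 (T t1372 N)))))))))) (K a213 (Fr a170 a255 l476 (Fr a42 a21 l68 (Fr a106 a234 l390 (Fr a192 a149 l519 (V t581))))) (K a42 (M a12 (L l54 (F (L l56 (T t1601 (L l362 (L l390 (T t124 (L l56 (T t574 (K a10 (M a58 (F (L l57 (T t3884 (L l26 (L l241 (L l390 (L l462 (T t4724 N))))))))) (K a58 (M a10 (F (L l57 (T t2608 (L l362 (L l390 (T t124 N))))))) N)))))))))))) (K a106 (M a12 (F (T t1601 (L l18 (T t122 (L l362 (L l390 (T t124 N)))))))) (K a170 (M a4 (F (L l464 (T t130 (L l54 (L l246 (L l390 (T t131 (L l54 (L l390 (L l464 (T t519 (L l464 (T t938 N)))))))))))))) (K a255 (M a4 (L l289 (F (L l54 (T t129 (L l265 (T t130 (L l54 (L l246 (L l265 (L l296 (T t131 (K a207 (M a239 (F (L l54 (T t129 (L l265 (T t130 (L l54 (L l246 (L l265 (L l296 (T t131 N))))))))))) (K a239 (M a207 (F (T t6341 (L l54 (L l246 (L l265 (L l296 (T t131 N)))))))) N)))))))))))))) N)))))))))))))))))))))⟩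
def e0_63__223_16 : Ent 4 := ⟨[a0, a63], [a223, a27], (M a149 (F (T t175 (L l246 (T t5 (L l246 (L l289 (T t176 (L l289 (T t177 (K a192 (M a53 (F (T t178 (L l236 (L l289 (L l368 (T t179 (L l236 (L l246 (L l296 (T t180 N))))))))))) (K a21 (M a48 (F (T t4 (T t13 (L l18 (L l289 (L l368 (T t14 N)))))))) (K a85 (M a16 (F (L l455 (T t112 (L l144 (L l246 (T t190 (L l12 (L l94 (L l357 (T t278 N))))))))))) (K a213 (Fr a106 a192 l519 (Fr a42 a21 l68 (Fr a170 a234 l390 (Fr a255 a85 l476 (V t582))))) (K a42 (M a48 (F (T t11 (L l390 (T t13 (L l54 (L l289 (L l368 (T t14 N))))))))) (K a106 (M a48 (F (L l73 (T t1 (L l104 (L l144 (L l246 (L l289 (L l361 (L l390 (T t1285 (L l289 (L l368 (L l498 (T t14 N))))))))))))))) (K a170 (M a48 (F (T t4 (L l73 (L l462 (T t1 (L l390 (T t13 N)))))))) (K a191 (M a48 (F (T t13 (L l246 (T t6 N))))) (K a255 (M a207 (F (T t1286 (L l73 (L l469 (T t1287 (L l246 (L l296 (T t1288 (L l17 (L l361 (T t1289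 N)))))))))))) N)))))))))))))))))))⟩
def e0_63__223_17 : Ent 4 := ⟨[a0, a63], [a223, a31], (M a60 (L l361 (F (T t69 (L l18 (T t67 (L l17 (T t43 (L l18 (T t68 (K a20 (M a85 (L l361 (F (T t90 (T t114 (L l246 (T t1344 (K a95 (M a159 (F (L l246 (T t89 (L l137 (T t4454 N)))))) (K a159 (M a95 (F (L l213 (T t3008 (L l246 (T t1344 N)))))) N))))))))) (K a40 (M a48 (L l361 (F (L l18 (T t1 (T t64 (L l18 (L l52 (T t235 (K a95 (M a159 (F (T t70 (L l137 (L l289 (L l368 (L l469 (T t4455 N)))))))) (K a159 (M a95 (F (T t70 (L l18 (T t1 (L l18 (L l52 (T t235 N)))))))) N))))))))))) (K a21 (M a85 (L l18 (L l361 (F (T t3040 (L l65 (L l245 (T t523 (T t114 (K a16 (M a26 (L l361 (F (T t3040 (L l65 (L l245 (T t523 (T t114 (K a95 (M a159 (F (T t3040 (L l137 (T t4454 N))))) (K a159 (M a95 (F (T t3040 (L l213 (L l340 (T t3008 (L l65 (L l245 (T t523 N))))))))) N)))))))))) (K a26 (M a16 (L l361 (F (T t3040 (L l50 (L l54 (L l57 (T t4456 (K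 a95 (M a159 (F (T t3040 (L l137 (T t4454 N))))) (K a159 (M a95 (F (T t3040 (L l47 (L l65 (L l72 (T t4462 N))))))) N)))))))))) (K a95 (M a159 (L l18 (F (T t3040 (L l137 (T t4454 (K a16 (M a26 (F (T t3040 (L l137 (T t4454 N))))) (K a26 (M a16 (F (T t3040 (L l137 (T t4454 N))))) N)))))))) (K a159 (M a95 (L l18 (F (L l213 (T t3008 (L l65 (L l245 (T t523 (K a16 (M a26 (F (T t3040 (L l213 (L l340 (T t3008 (L l65 (L l245 (T t523 N))))))))) (K a26 (M a16 (F (T t3040 (L l47 (L l65 (L l72 (T t4462 N))))))) N)))))))))) N))))))))))))) (K a41 (M a85 (L l361 (F (T t90 (L l289 (T t1563 (L l22 (L l65 (L l245 (T t523 (K a95 (M a159 (F (T t3040 (L l137 (T t4454 N))))) (K a159 (M a95 (F (L l213 (T t3008 (L l22 (L l65 (L l245 (T t523 N)))))))) N)))))))))))) (K a61 (M a85 (L l361 (F (T t3040 (L l246 (T t88 (L l245 (L l246 (T t115 (K a95 (M a159 (F (T t3040 (L l137 (L l246 (T t6359 N)))))) (K a159 (M a95 (F (L l213 (T t3008 (L l245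 (L l246 (T t115 N))))))) N))))))))))) (K a22 (M a85 (L l361 (F (T t3040 (L l66 (L l246 (T t88 (L l245 (T t523 (K a95 (M a159 (F (T t3040 (L l137 (T t4454 N))))) (K a159 (M a95 (F (L l213 (T t3008 (L l245 (T t523 N)))))) N))))))))))) (K a42 (M a150 (L l361 (F (T t2366 (T t1136 (L l22 (L l245 (T t1137 (K a95 (M a159 (F (T t2366 (L l137 (T t4454 N))))) (K a159 (M a95 (F (T t1622 (L l22 (L l245 (T t6360 N)))))) N)))))))))) (K a62 (M a85 (L l361 (F (T t90 (L l245 (T t2431 (L l66 (L l245 (L l246 (T t115 (K a95 (M a159 (F (L l245 (T t1401 (L l66 (L l137 (L l246 (T t6359 N)))))))) (K a159 (M a95 (F (L l213 (T t3008 (L l66 (L l245 (L l246 (T t115 N)))))))) N)))))))))))) (K a3 (M a85 (L l361 (F (T t4539 (L l245 (T t2431 (L l245 (T t523 (K a95 (M a159 (F (T t5413 (L l137 (L l333 (T t4454 N)))))) (K a159 (M a95 (F (T t447 (L l245 (L l246 (T t115 N)))))) N)))))))))) (K a95 (M a159 (F (T t69 (L l137 (T t4454 (L l18 (L l137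 (T t4466 (K a62 (M a128 (F (T t4467 (L l137 (L l375 (L l469 (T t4468 N))))))) N))))))))) (K a159 (M a95 (F (T t69 (L l18 (T t67 (L l17 (T t43 (L l18 (T t68 (K a20 (M a80 (F (T t2977 (L l213 (L l246 (L l289 (L l375 (T t3043 N)))))))) (K a40 (M a80 (F (T t2977 (L l22 (L l213 (L l246 (L l289 (L l375 (T t3043 N))))))))) (K a21 (M a85 (L l18 (F (L l213 (T t3008 (L l65 (L l245 (T t523 (K a16 (M a26 (F (T t3040 (L l213 (L l340 (T t3008 (L l65 (L l245 (T t523 N))))))))) (K a26 (M a16 (F (T t3040 (L l47 (L l65 (L l72 (T t4462 N))))))) N)))))))))) (K a41 (M a80 (F (T t2977 (L l22 (L l213 (L l246 (L l289 (L l375 (T t3043 N))))))))) (K a61 (M a85 (F (L l213 (T t3008 (L l245 (L l246 (T t115 N))))))) (K a22 (M a80 (F (T t2977 (L l245 (L l375 (T t3045 N)))))) (K a42 (M a80 (F (T t2977 (L l22 (L l245 (L l375 (T t3045 N))))))) (K a62 (M a85 (F (L l213 (T t3008 (L l66 (L l245 (L l246 (T t115 N)))))))) (K a3 (M a80 (F (T t6361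 (L l213 (L l246 (L l289 (L l375 (L l475 (T t3043 N))))))))) N)))))))))))))))))) N)))))))))))))))))))))⟩
def e0_63__223_18 : Ent 4 := ⟨[a0, a63], [a223, a32], (M a12 (F (T t152 (L l20 (T t122 (L l28 (T t151 (L l28 (T t153 (K a4 (M a60 (F (T t398 (L l46 (L l50 (T t67 (L l24 (L l28 (T t448 N))))))))) (K a8 (M a60 (F (T t398 (T t67 (L l24 (L l28 (L l52 (L l56 (T t448 N))))))))) (K a21 (M a192 (F (T t836 (L l15 (L l347 (T t450 (L l15 (L l347 (T t157 N))))))))) (K a25 (M a192 (F (T t449 (L l15 (T t450 (L l289 (T t21 N))))))) (K a29 (M a192 (F (T t449 (L l289 (L l371 (T t21 (L l28 (L l246 (T t160 N))))))))) (K a38 (M a192 (F (T t836 (T t450 (L l289 (T t21 N)))))) (K a42 (M a192 (L l28 (F (T t449 (T t450 (L l56 (T t157 (K a37 (M a47 (F (T t449 (L l361 (L l376 (T t1378 N)))))) (K a47 (M a37 (F (T t156 (T t450 (L l390 (L l411 (T t681 N))))))) N))))))))) (K a46 (M a192 (F (T t449 (L l289 (T t21 (L l26 (L l28 (L l246 (L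 l408 (T t160 N)))))))))) (K a51 (M a192 (F (T t57 (L l513 (T t156 (L l415 (T t450 N))))))) N))))))))))))))))))⟩
def e0_63__223_19 : Ent 4 := ⟨[a0, a63], [a223, a33], (M a149 (F (T t175 (L l246 (T t5 (L l246 (L l289 (T t176 (L l289 (T t177 (K a192 (M a53 (F (L l339 (T t982 (L l236 (L l289 (L l368 (T t179 (L l236 (L l246 (L l296 (T t180 N)))))))))))) (K a21 (M a48 (F (T t4 (T t13 (L l18 (L l289 (L l368 (T t14 N)))))))) (K a85 (M a16 (F (L l20 (L l361 (T t97 (L l20 (L l144 (L l246 (T t190 (L l94 (T t278 N))))))))))) (K a213 (Fr a106 a192 l519 (Fr a42 a21 l68 (Fr a170 a234 l390 (Fr a255 a85 l476 (V t582))))) (K a42 (M a48 (F (T t11 (L l390 (T t13 (L l54 (L l289 (L l368 (T t14 N))))))))) (K a106 (M a48 (F (T t1 (L l104 (L l144 (L l246 (L l289 (L l361 (L l390 (T t1285 (L l289 (L l368 (L l498 (T t14 N)))))))))))))) (K a170 (M a48 (F (T t4 (L l462 (T t1 (L l390 (T t13 N))))))) (K a191 (M a16 (F (L l20 (T t112 (L l20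 (L l246 (T t190 (T t278 N)))))))) (K a255 (M a207 (F (T t2337 (L l469 (T t1287 (L l246 (L l296 (T t1288 (L l20 (L l361 (L l401 (T t1289 N)))))))))))) N)))))))))))))))))))⟩
def e0_63__223_20 : Ent 4 := ⟨[a0, a63], [a223, a34], (M a85 (F (L l289 (T t52 (L l26 (L l246 (T t88 (L l26 (L l246 (T t89 (L l402 (T t90 (K a64 (M a240 (F (L l361 (T t3104 (L l402 (T t933 (L l26 (L l246 (L l361 (T t1550 N)))))))))) (K a192 (M a4 (F (T t1399 (L l26 (L l489 (T t519 (L l26 (L l246 (L l296 (T t131 N)))))))))) (K a21 (M a240 (F (L l289 (T t1552 (L l402 (T t933 (L l361 (T t1385 N)))))))) (K a149 (M a20 (F (L l245 (T t6362 (L l26 (L l351 (T t238 (L l26 (L l163 (L l367 (T t1387 N))))))))))) (K a213 (Fr a170 a255 l476 (Fr a42 a21 l68 (Fr a106 a234 l390 (Fr a192 a149 l519 (V t581))))) (K a42 (M a46 (F (L l56 (T t1388 (L l362 (L l390 (L l402 (T t1389 (L l56 (L l378 (T t1390 (L l378 (L l390 (L l402 (T t1391 N))))))))))))))) (K a106 (M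 a60 (F (L l289 (T t1563 (L l393 (T t67 (L l390 (L l402 (T t114 N))))))))) (K a170 (M a102 (F (L l208 (T t1392 (L l26 (L l246 (L l390 (T t1393 (L l208 (L l378 (T t1394 (L l26 (L l208 (L l246 (L l390 (T t1395 N)))))))))))))))) (K a255 (M a20 (L l289 (F (L l26 (T t1268 (L l245 (L l295 (T t2160 (L l26 (L l245 (L l246 (L l295 (L l296 (T t2161 (K a207 (M a239 (F (L l26 (T t1268 (L l245 (L l295 (T t2160 (L l26 (L l245 (L l246 (L l295 (L l296 (T t2161 N))))))))))))) (K a239 (M a207 (F (L l26 (T t2163 (L l361 (L l440 (T t2211 N))))))) N)))))))))))))))) N)))))))))))))))))))))⟩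
def e0_63__223_21 : Ent 4 := ⟨[a0, a63], [a223, a35], (M a149 (F (T t175 (L l246 (T t5 (L l246 (L l289 (T t176 (L l289 (T t177 (K a192 (M a53 (F (L l339 (T t982 (L l236 (L l289 (L l368 (L l403 (T t179 (L l236 (L l246 (L l296 (T t180 N))))))))))))) (K a21 (M a48 (F (T t4 (T t13 (L l18 (L l289 (L l368 (L l403 (T t14 N))))))))) (K a85 (M a16 (F (L l20 (L l361 (T t97 (L l20 (L l144 (L l246 (T t190 (L l94 (T t278 N))))))))))) (K a213 (Fr a106 a192 l519 (Fr a42 a21 l68 (Fr a170 a234 l390 (Fr a255 a85 l476 (V t582))))) (K a42 (M a48 (F (T t11 (L l390 (T t13 (L l54 (L l289 (L l368 (L l403 (T t14 N)))))))))) (K a106 (M a48 (F (T t1 (L l104 (L l144 (L l246 (L l289 (L l361 (L l390 (T t1285 (L l289 (L l368 (L l403 (L l498 (T t14 N))))))))))))))) (K a170 (M a48 (F (T t4 (L l462 (T t1 (L l390 (T t13 N))))))) (K a191 (M a16 (F (L l20 (T t112 (L l20 (L l246 (T t190 (T t278 N)))))))) (K a255 (M a207 (F (T t1286 (L l469 (T t1287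 (L l246 (L l296 (T t1288 (L l20 (L l361 (T t1289 N))))))))))) N)))))))))))))))))))⟩
def e0_63__223_22 : Ent 4 := ⟨[a0, a63], [a223, a37], (M a192 (F (L l289 (T t21 (L l47 (T t47 (L l47 (L l289 (T t35 (L l289 (T t202 (L l28 (L l246 (L l289 (T t37 (K a64 (M a12 (F (T t450 (L l47 (T t122 (L l28 (L l80 (L l144 (L l246 (T t160 N)))))))))) (K a128 (M a12 (F (T t221 (L l47 (T t122 (L l28 (L l246 (T t160 N)))))))) (K a21 (M a5 (F (T t2177 (L l28 (L l246 (L l289 (L l347 (T t1816 (L l28 (L l246 (T t1817 N))))))))))) (K a85 (M a20 (L l368 (F (T t948 (L l28 (T t238 (L l28 (L l51 (L l87 (L l144 (T t6171 (K a16 (M a154 (F (T t948 (L l347 (L l361 (T t4218 N)))))) (K a154 (M a16 (F (T t948 (L l28 (L l356 (L l365 (L l367 (T t6176 N)))))))) N))))))))))))) (K a149 (M a12 (F (T t836 (L l47 (L l347 (L l371 (T t122 (L l47 (L l202 (L l220 (L l347 (L l371 (T t227 (L l28 (L l495 (T t228 N)))))))))))))))) (K a42 (M a47 (F (L l361 (T t1378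 (L l47 (L l289 (L l361 (T t6363 (T t6364 (L l246 (L l383 (T t6365 (L l54 (T t6366 N)))))))))))))) (K a106 (M a12 (F (T t156 (L l47 (T t122 (L l47 (L l501 (T t227 (L l28 (L l132 (L l144 (L l390 (L l408 (T t228 N)))))))))))))) (K a170 (M a240 (F (L l75 (T t4219 (L l361 (L l390 (T t6367 (L l180 (L l220 (L l361 (T t4221 N))))))))))) (K a255 (M a207 (F (T t6368 (T t2116 (L l440 (T t6356 N)))))) N))))))))))))))))))))))))⟩
def e0_63__223_23 : Ent 4 := ⟨[a0, a63], [a223, a38], (M a192 (F (L l289 (T t21 (L l50 (T t47 (L l50 (L l289 (T t35 (L l289 (T t202 (L l26 (L l246 (L l289 (T t37 (K a64 (M a48 (F (T t56 (L l50 (T t1 (L l50 (T t525 N))))))) (K a128 (M a48 (F (T t53 (L l50 (T t1 (L l50 (L l192 (L l220 (T t525 N))))))))) (K a21 (M a4 (F (T t1407 (L l26 (L l289 (L l347 (T t1408 (L l347 (T t1409 N))))))))) (K a85 (M a16 (F (L l246 (T t210 (L l26 (L l361 (T t97 (L l26 (L l72 (L l94 (L l144 (T t211 N)))))))))))) (K a149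 (M a48 (F (T t837 (L l50 (L l347 (L l491 (T t1 (L l50 (L l170 (L l220 (L l347 (L l491 (T t213 (L l26 (L l361 (L l375 (T t214 N))))))))))))))))) (K a42 (M a34 (F (T t1410 (L l50 (L l289 (L l390 (T t1411 (L l390 (T t1412 N))))))))) (K a106 (M a48 (F (T t27 (L l50 (T t1 (L l50 (L l411 (T t213 (L l26 (L l104 (L l144 (L l361 (L l390 (L l498 (T t214 N))))))))))))))) (K a170 (M a48 (F (T t837 (L l50 (L l462 (T t1 (L l220 (L l289 (T t20 N))))))))) (K a255 (M a207 (F (T t2116 (L l469 (T t6355 (L l440 (T t6356 N))))))) N))))))))))))))))))))))))⟩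
def e0_63__223_24 : Ent 4 := ⟨[a0, a63], [a223, a39], (M a149 (F (T t175 (L l246 (T t5 (L l246 (L l289 (T t176 (L l289 (T t177 (K a192 (M a53 (F (T t178 (L l236 (L l289 (L l368 (T t179 (L l236 (L l246 (L l296 (T t180 N))))))))))) (K a21 (M a48 (F (T t4 (T t13 (L l18 (L l289 (L l368 (T t14 N)))))))) (K a85 (M a16 (F (L l455 (T t112 (L l144 (L l246 (T t190 (L l94 (T t278 N))))))))) (K a213 (Fr a106 a192 l519 (Fr a42 a21 l68 (Fr a170 a234 l390 (Fr a255 a85 l476 (V t582))))) (K a42 (M a48 (F (T t11 (L l390 (T t13 (L l54 (L l289 (L l368 (T t14 N))))))))) (K a106 (M a48 (F (L l73 (T t1 (L l104 (L l144 (L l246 (L l289 (L l361 (L l390 (T t1285 (L l289 (L l368 (L l498 (T t14 N))))))))))))))) (K a170 (M a48 (F (T t4 (L l73 (L l462 (T t1 (L l390 (T t13 N)))))))) (K a191 (M a48 (F (T t13 (L l246 (T t6 N))))) (K a255 (M a207 (F (T t1286 (L l73 (L l469 (T t1287 (L l246 (L l296 (T t1288 (L l361 (T t1289 N))))))))))) N)))))))))))))))))))⟩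
def e0_63__223_25 : Ent 4 := ⟨[a0, a63], [a223, a43], (M a149 (F (T t175 (L l22 (L l246 (T t5 (L l22 (L l246 (L l289 (T t176 (L l289 (L l393 (T t177 (K a192 (M a53 (F (L l22 (T t178 (L l236 (L l289 (L l368 (T t179 (L l22 (L l236 (L l246 (L l296 (T t180 N))))))))))))) (K a21 (M a48 (F (T t4 (L l393 (T t13 (L l18 (L l289 (L l368 (T t14 N))))))))) (K a85 (M a16 (F (L l22 (L l361 (T t97 (L l144 (L l246 (L l393 (T t190 (L l22 (L l94 (T t278 N)))))))))))) (K a213 (Fr a106 a192 l519 (Fr a42 a21 l68 (Fr a170 a234 l390 (Fr a255 a85 l476 (V t582))))) (K a42 (M a40 (F (T t973 (L l390 (L l393 (T t974 (L l66 (L l391 (T t969 (L l289 (L l390 (L l391 (L l393 (T t972 N)))))))))))))) (K a106 (M a169 (F (L l142 (L l367 (T t981 (L l22 (L l246 (L l390 (T t977 (L l142 (L l391 (T t978 (L l22 (L l142 (L l246 (L l289 (L l390 (T t979 N)))))))))))))))))) (K a170 (M a48 (F (T t4 (L l462 (T t1 (L l390 (L l393 (T t13 N)))))))) (K a191 (M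 a16 (F (L l22 (T t112 (L l246 (L l393 (T t190 (L l22 (T t278 N))))))))) (K a255 (M a207 (F (T t1286 (L l393 (L l469 (T t1287 (L l22 (L l246 (L l296 (T t1288 (L l22 (L l361 (T t1289 N))))))))))))) N))))))))))))))))))))))⟩
def e0_63__223_26 : Ent 4 := ⟨[a0, a63], [a223, a47], (M a60 (F (T t68 (L l27 (T t67 (L l28 (T t43 (L l28 (T t69 (K a20 (M a48 (F (L l28 (T t2 (T t64 (L l28 (L l46 (T t287 N)))))))) (K a40 (M a48 (F (T t64 (L l22 (L l28 (T t2 (L l22 (L l28 (T t287 N))))))))) (K a21 (M a192 (F (T t72 (L l347 (L l409 (T t73 (L l245 (L l347 (T t74 N))))))))) (K a41 (M a192 (F (T t79 (L l65 (L l289 (T t35 (L l409 (T t73 N)))))))) (K a61 (M a192 (F (T t72 (L l65 (L l289 (L l515 (T t35 (L l28 (L l246 (L l411 (T t80 N))))))))))) (K a22 (M a192 (F (T t72 (L l289 (T t21 (L l409 (T t73 N))))))) (K a42 (M a48 (L l28 (F (T t64 (L l22 (T t247 (L l23 (L l56 (L l368 (T t288 (L l22 (L l54 (L l66 (T t289 (K a32 (M a37 (F (L l54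 (T t290 (L l66 (T t291 (T t64 N))))))) (K a37 (Fr a32 a16 l40 (V t292)) N)))))))))))))))) (K a62 (M a192 (F (T t72 (L l289 (T t35 (L l28 (L l66 (L l246 (L l411 (L l516 (T t80 N))))))))))) (K a3 (M a192 (F (T t237 (L l477 (T t79 (L l289 (L l475 (T t35 N)))))))) N))))))))))))))))))⟩
def e0_63__223_27 : Ent 4 := ⟨[a0, a63], [a223, a48], (M a60 (F (T t116 (L l45 (T t67 (L l45 (T t43 (L l45 (T t68 (L l45 (T t69 (K a20 (M a12 (F (T t570 (L l11 (L l30 (T t122 (L l11 (L l46 (L l367 (T t399 N)))))))))) (K a40 (M a12 (F (T t150 (L l75 (T t398 (L l24 (L l367 (T t399 N)))))))) (K a21 (M a192 (F (T t2647 (L l347 (L l488 (T t73 (L l245 (L l347 (T t74 N))))))))) (K a41 (M a192 (F (T t254 (L l65 (L l289 (L l440 (T t35 (L l488 (T t73 N))))))))) (K a61 (M a192 (F (T t1334 (L l65 (L l289 (L l440 (L l515 (T t35 (L l246 (T t80 N)))))))))) (K a22 (M a192 (F (T t614 (L l11 (L l436 (T t79 (L l11 (L l289 (L l440 (T t35 N)))))))))) (K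 a42 (M a192 (F (T t614 (L l436 (T t79 (L l22 (L l245 (T t74 N)))))))) (K a62 (M a192 (F (T t57 (L l436 (T t79 (L l66 (L l246 (L l516 (T t80 N))))))))) (K a3 (M a84 (L l45 (F (T t2648 (L l246 (T t1415 (L l246 (L l289 (L l440 (L l475 (L l477 (T t1416 (K a33 (M a18 (F (T t1414 (L l70 (L l361 (T t1417 N)))))) (K a18 (M a33 (F (T t1414 (L l70 (T t1418 N))))) N)))))))))))))) N))))))))))))))))))))⟩
def e0_63__223_28 : Ent 4 := ⟨[a0, a63], [a223, a49], (M a149 (F (T t175 (L l246 (T t5 (L l246 (L l289 (T t176 (L l289 (T t177 (K a192 (M a53 (F (T t178 (L l236 (L l289 (L l368 (T t179 (L l236 (L l246 (L l296 (T t180 N))))))))))) (K a21 (M a48 (F (T t4 (T t13 (L l18 (L l289 (L l368 (T t14 N)))))))) (K a85 (M a16 (F (L l361 (T t97 (L l144 (L l246 (T t190 (L l94 (T t278 N))))))))) (K a213 (Fr a106 a192 l519 (Fr a42 a21 l68 (Fr a170 a234 l390 (Fr a255 a85 l476 (V t582))))) (K a42 (M a48 (F (L l54 (T t4 (L l390 (T t13 (L l54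 (L l289 (L l368 (T t14 N)))))))))) (K a106 (M a48 (F (L l35 (T t1 (L l104 (L l144 (L l246 (L l289 (L l361 (L l390 (T t1285 (L l289 (L l368 (L l498 (T t14 N))))))))))))))) (K a170 (M a48 (F (T t4 (L l35 (L l462 (T t1 (L l390 (T t13 N)))))))) (K a191 (M a204 (F (T t1043 (L l241 (L l246 (L l485 (T t1112 N))))))) (K a255 (M a207 (F (T t6369 (L l469 (T t1287 (L l246 (L l296 (T t1288 (L l361 (L l509 (T t1289 N))))))))))) N)))))))))))))))))))⟩
def e0_63__223_29 : Ent 4 := ⟨[a0, a63], [a223, a50], (M a149 (F (T t175 (L l246 (T t5 (L l246 (L l289 (T t176 (L l289 (T t177 (K a192 (M a53 (F (L l36 (T t178 (L l236 (L l246 (L l296 (T t180 (L l36 (L l236 (L l289 (L l368 (T t179 N))))))))))))) (K a21 (M a48 (F (L l36 (T t4 (T t13 (L l18 (L l36 (L l289 (L l368 (T t14 N)))))))))) (K a85 (M a16 (F (L l361 (T t97 (L l144 (L l246 (T t190 (L l72 (L l94 (T t278 N)))))))))) (K a213 (Fr a106 a192 l519 (Fr a42 a21 l68 (Fr a170 a234 l390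 (Fr a255 a85 l476 (V t582))))) (K a42 (M a48 (F (T t11 (L l390 (T t13 (L l36 (L l54 (L l289 (L l368 (T t14 N)))))))))) (K a106 (M a48 (F (T t1 (L l104 (L l144 (L l246 (L l289 (L l361 (L l390 (L l438 (T t1285 (L l36 (L l289 (L l368 (L l498 (T t14 N)))))))))))))))) (K a170 (M a48 (F (T t11 (L l462 (T t1 (L l390 (T t13 N))))))) (K a191 (M a48 (F (T t13 (L l36 (L l246 (T t6 N)))))) (K a255 (M a207 (F (T t1286 (L l469 (T t1287 (L l246 (L l296 (T t1288 (L l36 (L l361 (T t1289 N))))))))))) N)))))))))))))))))))⟩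
def e0_63__223_30 : Ent 4 := ⟨[a0, a63], [a223, a51], (M a48 (F (T t132 (L l73 (T t1 (L l73 (T t2 (L l73 (L l368 (T t3 (L l73 (L l361 (T t0 (K a16 (M a85 (F (T t4539 (L l417 (T t50 (L l246 (T t51 N))))))) (K a32 (M a85 (F (L l289 (L l439 (T t52 (L l404 (L l417 (T t50 (L l28 (L l246 (T t51 N))))))))))) (K a21 (M a192 (F (T t53 (L l417 (T t27 (L l18 (L l289 (L l368 (T t224 N))))))))) (K a37 (M a192 (F (T t53 (L l417 (T t27 (L l289 (L l439 (T t21 N)))))))) (K a53 (M a192 (F (T t1800 (L l417 (T t27 (L l47 (L l491 (T t525 N)))))))) (K a26 (M a192 (F (T t56 (L l417 (T t27 (L l289 (L l439 (T t21 N)))))))) (K a42 (M a192 (F (T t56 (L l417 (T t27 (L l54 (L l289 (L l368 (L l390 (T t224 N)))))))))) (K a58 (M a192 (F (T t1922 (L l289 (L l439 (T t21 (T t525 N))))))) (K a15 (M a144 (L l73 (F (T t6370 (L l289 (L l325 (L l361 (L l511 (T t6371 (L l289 (L l325 (L l361 (L l483 (L l511 (T t6372 (K a39 (M a27 (F (T t6370 (L l39 (T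 t1425 N))))) (K a27 (M a39 (F (T t6370 (L l39 (T t1426 N))))) N))))))))))))))))) N))))))))))))))))))))))⟩
def e0_63__223_31 : Ent 4 := ⟨[a0, a63], [a223, a53], (M a12 (F (T t151 (L l47 (T t122 (L l47 (T t152 (L l31 (T t153 (K a4 (M a60 (F (T t43 (L l35 (T t398 (T t448 N)))))) (K a8 (M a60 (F (T t680 (L l47 (T t67 (L l52 (L l56 (T t448 N)))))))) (K a21 (M a192 (L l47 (F (T t836 (L l15 (L l347 (L l491 (T t450 (L l15 (L l347 (L l491 (T t157 (K a5 (M a37 (F (T t156 (L l15 (L l347 (L l491 (T t450 (L l1 (L l50 (T t681 N)))))))))) (K a37 (M a5 (F (T t156 (L l347 (L l491 (T t4476 N)))))) N)))))))))))))) (K a25 (M a192 (F (T t449 (L l15 (L l491 (T t450 (L l289 (L l491 (T t21 N))))))))) (K a29 (M a192 (F (T t449 (L l289 (L l371 (L l491 (T t21 (L l246 (T t160 N))))))))) (K a38 (M a192 (F (T t156 (L l491 (T t450 (L l289 (L l491 (T t21 N)))))))) (K a42 (M a192 (F (T t449 (L l491 (T t450 (L l56 (L l491 (T t157 N)))))))) (K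 a46 (M a192 (F (T t449 (L l289 (L l491 (T t21 (L l26 (L l246 (L l408 (T t160 N)))))))))) (K a51 (M a192 (F (T t1725 (L l415 (L l491 (T t450 (L l289 (L l439 (L l491 (T t21 N)))))))))) N))))))))))))))))))⟩
def e0_63__223_32 : Ent 4 := ⟨[a0, a63], [a223, a54], (M a149 (F (T t175 (L l246 (T t5 (L l246 (L l289 (T t176 (L l289 (T t177 (K a192 (M a53 (F (L l36 (T t178 (L l236 (L l246 (L l296 (T t180 (L l36 (L l236 (L l289 (L l368 (T t179 N))))))))))))) (K a21 (M a48 (F (L l36 (T t4 (T t13 (L l18 (L l36 (L l289 (L l368 (T t14 N)))))))))) (K a85 (M a16 (F (L l361 (T t97 (L l144 (L l246 (T t190 (L l94 (T t278 N))))))))) (K a213 (Fr a106 a192 l519 (Fr a42 a21 l68 (Fr a170 a234 l390 (Fr a255 a85 l476 (V t582))))) (K a42 (M a48 (F (L l31 (T t11 (L l390 (T t13 (L l36 (L l54 (L l289 (L l368 (T t14 N))))))))))) (K a106 (M a48 (F (L l31 (T t1 (L l104 (L l144 (L l246 (L l289 (L l361 (L l390 (T t1285 (L l36 (L l289 (L l368 (L l498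 (T t14 N)))))))))))))))) (K a170 (M a48 (F (L l36 (T t4 (L l31 (L l462 (T t1 (L l390 (T t13 N))))))))) (K a191 (M a48 (F (T t13 (L l36 (L l246 (T t6 N)))))) (K a255 (M a207 (F (T t6369 (L l469 (T t1287 (L l246 (L l296 (T t1288 (L l361 (L l469 (T t3065 N))))))))))) N)))))))))))))))))))⟩
def e0_63__223_33 : Ent 4 := ⟨[a0, a63], [a223, a55], (M a149 (F (L l246 (T t5 (L l50 (T t175 (L l246 (L l289 (T t176 (L l289 (T t177 (K a192 (M a53 (F (T t178 (L l236 (L l289 (L l368 (T t179 (L l236 (L l246 (L l296 (L l423 (T t180 N)))))))))))) (K a21 (M a240 (L l50 (F (T t1090 (T t1091 (T t1207 (K a4 (M a38 (F (T t5662 (T t1091 (T t1207 N))))) (K a38 (M a4 (F (T t4727 (T t3836 N)))) N)))))))) (K a85 (M a16 (F (L l361 (T t97 (L l144 (L l246 (T t190 (L l94 (T t278 N))))))))) (K a213 (Fr a106 a192 l519 (Fr a42 a21 l68 (Fr a170 a234 l390 (Fr a255 a85 l476 (V t582))))) (K a42 (M a48 (F (L l54 (T t4 (L l390 (T t13 (L l54 (L l289 (L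 l368 (T t14 N)))))))))) (K a106 (M a48 (F (L l31 (L l50 (T t1 (L l104 (L l144 (L l246 (L l289 (L l361 (L l390 (T t1285 (L l289 (L l368 (L l498 (T t14 N)))))))))))))))) (K a170 (M a48 (F (T t4 (L l31 (L l50 (L l462 (T t1 (L l390 (T t13 N))))))))) (K a191 (M a48 (F (T t13 (L l246 (T t6 N))))) (K a255 (M a207 (F (T t6369 (L l469 (T t1287 (L l246 (L l296 (T t1288 (L l361 (L l469 (T t3065 N))))))))))) N))))))))))))))))))))⟩
def e0_63__223_34 : Ent 4 := ⟨[a0, a63], [a223, a58], (M a12 (F (T t122 (L l54 (T t151 (L l32 (T t152 (L l54 (T t153 (K a4 (M a60 (F (T t398 (L l46 (L l50 (T t67 (L l54 (T t448 N)))))))) (K a8 (M a60 (F (T t398 (T t67 (L l52 (L l54 (L l56 (T t448 N)))))))) (K a21 (M a192 (F (T t836 (L l15 (L l347 (T t450 (L l15 (L l347 (T t157 N))))))))) (K a25 (M a192 (F (T t449 (L l15 (T t450 (L l289 (T t21 N))))))) (K a29 (M a192 (F (T t449 (L l289 (L l371 (T t21 (L l54 (L l246 (L l498 (T t160 N)))))))))) (K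 a38 (M a192 (F (T t836 (T t450 (L l289 (T t21 N)))))) (K a42 (M a192 (L l54 (F (T t449 (T t450 (L l56 (T t157 (K a10 (M a26 (F (T t156 (T t450 (L l390 (L l498 (T t681 N))))))) (K a26 (M a10 (F (T t156 (L l28 (L l246 (L l390 (L l498 (T t1444 N)))))))) N))))))))) (K a46 (M a192 (F (T t449 (L l289 (T t21 (L l26 (L l54 (L l246 (L l408 (L l498 (T t160 N))))))))))) (K a51 (M a192 (F (T t57 (L l513 (T t156 (L l415 (T t450 N))))))) N))))))))))))))))))⟩
def e0_63__223_35 : Ent 4 := ⟨[a0, a63], [a223, a59], (M a149 (F (T t175 (L l56 (L l246 (T t5 (L l56 (L l246 (L l289 (T t176 (L l289 (L l501 (T t177 (K a192 (M a53 (F (L l32 (L l56 (T t178 (L l32 (L l236 (L l289 (L l368 (T t179 (L l56 (L l236 (L l246 (L l296 (T t180 N))))))))))))))) (K a21 (M a48 (F (L l32 (T t4 (L l501 (T t13 (L l18 (L l32 (L l289 (L l368 (T t14 N))))))))))) (K a85 (M a16 (F (L l56 (L l361 (T t97 (L l144 (L l246 (L l501 (T t190 (L l56 (L l94 (T t278 N))))))))))))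 (K a213 (Fr a106 a192 l519 (Fr a42 a21 l68 (Fr a170 a234 l390 (Fr a255 a85 l476 (V t582))))) (K a42 (M a8 (F (T t1841 (L l390 (L l501 (T t644 (L l26 (L l427 (T t643 (L l289 (L l390 (L l427 (L l501 (T t1842 N)))))))))))))) (K a106 (M a153 (F (L l102 (T t1843 (L l56 (L l241 (L l246 (L l390 (T t1844 (L l102 (L l427 (T t1845 (L l56 (L l102 (L l241 (L l246 (L l289 (L l390 (T t1846 N))))))))))))))))))) (K a170 (M a48 (F (T t11 (L l462 (T t1 (L l390 (L l501 (T t13 N)))))))) (K a191 (M a16 (F (L l56 (L l361 (T t97 (L l246 (L l501 (T t190 (L l56 (T t278 N)))))))))) (K a255 (M a207 (F (T t1286 (L l469 (L l501 (T t1287 (L l56 (L l246 (L l296 (T t1288 (L l32 (L l56 (L l361 (T t1289 N)))))))))))))) N))))))))))))))))))))))⟩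
def e0_63__223_36 : Ent 4 := ⟨[a0, a63], [a223, a64], (M a60 (F (T t67 (T t43 (T t68 (T t69 (K a20 (M a48 (F (T t2 (T t64 (L l11 (T t235 N)))))) (K a40 (M a48 (F (T t1 (T t64 (L l52 (T t235 N)))))) (K a21 (M a105 (F (T t1217 (L l11 (T t404 (L l11 (T t405 N))))))) (K a41 (M a32 (F (L l368 (T t1568 (L l65 (L l368 (T t219 (L l25 (L l65 (T t1569 N)))))))))) (K a61 (M a16 (F (T t112 (L l362 (T t1140 (L l59 (T t1141 N))))))) (K a22 (M a16 (F (T t2447 (L l66 (L l361 (T t97 (L l16 (L l66 (T t1141 N))))))))) (K a42 (M a105 (F (T t420 (T t404 (L l66 (T t405 N)))))) (K a62 (M a16 (F (T t2447 (L l66 (L l361 (T t97 (L l66 (T t1141 N)))))))) (K a3 (M a85 (F (T t447 (L l245 (L l246 (T t115 N)))))) N)))))))))))))))⟩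
def e0_63__223_37 : Ent 4 := ⟨[a0, a63], [a223, a65], (M a60 (F (T t67 (T t43 (T t68 (L l305 (T t69 (K a20 (M a48 (F (T t2 (T t64 (L l11 (T t235 N)))))) (K a40 (M a48 (F (T t1 (T t64 (L l52 (T t235 N)))))) (K a21 (M a192 (F (T t72 (L l347 (T t73 (L l245 (L l347 (T t74 N)))))))) (K a41 (M a192 (F (T t77 (L l65 (L l289 (T t35 (T t73 N))))))) (K a61 (M a192 (F (T t72 (L l65 (L l289 (L l515 (T t35 (L l246 (T t80 N))))))))) (K a22 (M a192 (F (T t72 (L l289 (T t21 (T t73 N)))))) (K a42 (M a192 (F (T t79 (T t73 (L l22 (L l245 (T t74 N))))))) (K a62 (M a192 (F (T t72 (L l289 (T t35 (L l66 (L l246 (L l516 (T t80 N))))))))) (K a3 (M a85 (F (T t447 (L l245 (L l246 (T t115 N)))))) N))))))))))))))))⟩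
def e0_63__223_38 : Ent 4 := ⟨[a0, a63], [a223, a66], (M a48 (F (T t1 (T t2 (L l368 (T t3 (L l361 (T t0 (K a16 (M a85 (F (T t50 (L l18 (L l289 (T t52 (L l246 (T t51 N)))))))) (K a32 (M a60 (F (T t64 (L l309 (T t67 (L l24 (L l28 (T t65 N)))))))) (K a21 (M a192 (F (T t27 (L l47 (L l289 (L l347 (T t20 (L l18 (L l142 (L l289 (L l368 (T t224 N)))))))))))) (K a37 (M a192 (F (T t27 (L l47 (L l289 (T t20 (L l289 (T t21 N)))))))) (K a53 (M a192 (F (T t27 (L l289 (L l491 (T t21 (L l47 (L l491 (T t525 N))))))))) (K a26 (M a192 (F (T t27 (L l289 (T t20 (L l289 (T t21 N))))))) (K a42 (M a192 (F (T t27 (L l289 (T t20 (L l54 (L l142 (L l289 (L l368 (L l390 (T t224 N))))))))))) (K a58 (M a192 (F (T t27 (L l289 (T t21 (T t525 N)))))) (K a15 (M a192 (F (T t56 (L l483 (T t27 (L l289 (L l469 (T t21 N)))))))) N)))))))))))))))))⟩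
def e0_63__223_39 : Ent 4 := ⟨[a0, a63], [a223, a67], (M a149 (F (T t175 (L l76 (L l246 (T t5 (L l246 (L l289 (T t176 (L l76 (L l289 (T t177 (K a192 (M a53 (F (T t178 (L l236 (L l289 (L l368 (T t179 (L l236 (L l246 (L l296 (T t180 N))))))))))) (K a21 (M a48 (F (T t4 (L l121 (T t13 (L l18 (L l289 (L l368 (T t14 N))))))))) (K a85 (M a16 (F (L l361 (T t97 (L l144 (L l246 (T t190 (L l94 (T t278 N))))))))) (K a213 (Fr a106 a192 l519 (Fr a42 a21 l68 (Fr a170 a234 l390 (Fr a255 a85 l476 (V t582))))) (K a42 (M a48 (F (T t11 (L l121 (L l390 (T t13 (L l54 (L l289 (L l368 (T t14 N)))))))))) (K a106 (M a48 (F (T t1 (L l76 (L l104 (L l144 (L l246 (L l289 (L l361 (L l390 (T t1285 (L l289 (L l368 (L l498 (T t14 N))))))))))))))) (K a170 (M a48 (F (T t4 (L l462 (T t1 (L l121 (L l390 (T t13 N)))))))) (K a191 (M a16 (F (T t112 (L l246 (T t190 (T t278 N)))))) (K a255 (M a207 (F (T t1286 (L l469 (T t1287 (L l246 (L l296 (T t1288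 (L l361 (T t1289 N)))))))))) N)))))))))))))))))))))⟩
def e0_63__223_40 : Ent 4 := ⟨[a0, a63], [a223, a69], (M a60 (F (T t67 (T t43 (T t68 (L l329 (T t69 (K a20 (M a48 (F (T t64 (L l11 (T t1 (L l11 (T t235 N))))))) (K a40 (M a48 (F (T t1 (T t64 (L l52 (T t235 N)))))) (K a21 (M a192 (F (T t72 (L l347 (T t73 (L l245 (L l347 (T t74 N)))))))) (K a41 (M a192 (F (T t77 (L l65 (L l289 (T t35 (T t73 N))))))) (K a61 (M a192 (F (T t72 (L l65 (L l289 (L l515 (T t35 (L l246 (T t80 N))))))))) (K a22 (M a192 (F (T t72 (L l289 (T t21 (T t73 N)))))) (K a42 (M a192 (F (T t79 (T t73 (L l22 (L l245 (T t74 N))))))) (K a62 (M a192 (F (T t72 (L l289 (T t35 (L l66 (L l246 (L l516 (T t80 N))))))))) (K a3 (M a85 (F (T t447 (L l245 (L l246 (T t115 N)))))) N))))))))))))))))⟩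
def e0_63__223_41 : Ent 4 := ⟨[a0, a63], [a223, a70], (M a149 (F (T t175 (L l246 (T t5 (L l246 (L l289 (T t176 (L l289 (T t177 (K a192 (M a53 (F (T t178 (L l236 (L l289 (L l368 (T t179 (L l77 (L l236 (L l246 (L l296 (T t180 N)))))))))))) (K a21 (M a48 (F (T t4 (T t13 (L l18 (L l289 (L l368 (T t14 N)))))))) (K a85 (M a16 (F (L l361 (T t97 (L l144 (L l246 (T t190 (L l94 (T t278 N))))))))) (K a213 (Fr a106 a192 l519 (Fr a42 a21 l68 (Fr a170 a234 l390 (Fr a255 a85 l476 (V t582))))) (K a42 (M a48 (F (T t11 (L l390 (T t13 (L l54 (L l289 (L l368 (T t14 N))))))))) (K a106 (M a48 (F (T t1 (L l104 (L l144 (L l246 (L l289 (L l361 (L l390 (T t1285 (L l289 (L l368 (L l498 (T t14 N)))))))))))))) (K a170 (M a48 (F (T t4 (L l462 (T t1 (L l390 (T t13 N))))))) (K a191 (M a16 (F (T t112 (L l246 (T t190 (T t278 N)))))) (K a255 (M a207 (F (T t1286 (L l77 (L l469 (T t1287 (L l246 (L l296 (L l330 (T t1288 (L l361 (T t1289 N))))))))))))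 N)))))))))))))))))))⟩
def e0_63__223_42 : Ent 4 := ⟨[a0, a63], [a223, a71], (M a149 (F (T t175 (L l246 (T t5 (L l246 (L l289 (T t176 (L l289 (T t177 (K a192 (M a53 (F (T t178 (L l236 (L l289 (L l368 (T t179 (L l77 (L l236 (L l246 (L l296 (T t180 N)))))))))))) (K a21 (M a48 (F (T t4 (T t13 (L l18 (L l289 (L l368 (T t14 N)))))))) (K a85 (M a16 (F (L l361 (T t97 (L l144 (L l246 (T t190 (L l94 (T t278 N))))))))) (K a213 (Fr a106 a192 l519 (Fr a42 a21 l68 (Fr a170 a234 l390 (Fr a255 a85 l476 (V t582))))) (K a42 (M a48 (F (T t11 (L l390 (T t13 (L l54 (L l289 (L l368 (T t14 N))))))))) (K a106 (M a48 (F (T t1 (L l104 (L l144 (L l246 (L l289 (L l361 (L l390 (T t1285 (L l289 (L l368 (L l498 (T t14 N)))))))))))))) (K a170 (M a48 (F (T t4 (L l462 (T t1 (L l390 (T t13 N))))))) (K a191 (M a16 (F (T t112 (L l246 (T t190 (T t278 N)))))) (K a255 (M a207 (F (T t2337 (L l77 (L l469 (T t1287 (L l246 (L l296 (T t1288 (L l127 (L l361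 (T t1289 N)))))))))))) N)))))))))))))))))))⟩
def e0_63__223_43 : Ent 4 := ⟨[a0, a63], [a223, a74], (M a12 (F (T t122 (T t151 (T t152 (T t153 (K a4 (M a60 (F (T t43 (L l336 (L l339 (T t398 (T t448 N))))))) (K a8 (M a60 (F (T t68 (L l336 (L l339 (T t398 (L l52 (L l56 (T t448 N))))))))) (K a21 (M a192 (F (T t156 (L l15 (L l347 (T t450 (L l15 (L l347 (T t157 N))))))))) (K a25 (M a192 (F (T t156 (L l15 (T t450 (L l289 (T t21 N))))))) (K a29 (M a192 (F (T t156 (L l289 (L l371 (T t21 (L l78 (L l130 (L l246 (T t160 N)))))))))) (K a38 (M a192 (F (T t156 (T t450 (L l289 (T t21 N)))))) (K a42 (M a192 (F (T t156 (T t450 (L l56 (T t157 N)))))) (K a46 (M a192 (F (T t156 (L l289 (T t21 (L l26 (L l78 (L l130 (L l246 (L l408 (T t160 N))))))))))) (K a51 (M a192 (F (T t57 (L l513 (T t156 (L l415 (T t450 N))))))) N)))))))))))))))⟩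
def e0_63__223_44 : Ent 4 := ⟨[a0, a63], [a223, a75], (M a149 (F (T t175 (L l246 (T t5 (L l246 (L l289 (T t176 (L l289 (T t177 (K a192 (M a53 (F (T t178 (L l236 (L l289 (L l368 (T t179 (L l236 (L l246 (L l296 (T t180 N))))))))))) (K a21 (M a48 (F (T t4 (T t13 (L l18 (L l289 (L l368 (T t14 N)))))))) (K a85 (M a16 (F (L l455 (T t112 (L l144 (L l246 (T t190 (L l94 (L l133 (T t278 N)))))))))) (K a213 (Fr a106 a192 l519 (Fr a42 a21 l68 (Fr a170 a234 l390 (Fr a255 a85 l476 (V t582))))) (K a42 (M a48 (F (T t11 (L l390 (T t13 (L l54 (L l289 (L l368 (T t14 N))))))))) (K a106 (M a48 (F (L l337 (T t1 (L l104 (L l144 (L l246 (L l289 (L l361 (L l390 (T t1285 (L l289 (L l368 (L l498 (T t14 N))))))))))))))) (K a170 (M a48 (F (T t4 (L l337 (L l462 (T t1 (L l390 (T t13 N)))))))) (K a191 (M a16 (F (T t112 (L l246 (T t190 (L l133 (T t278 N))))))) (K a255 (M a207 (F (T t1286 (L l337 (L l469 (T t1287 (L l246 (L l296 (T t1288 (L l361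 (T t1289 N))))))))))) N)))))))))))))))))))⟩
def e0_63__223_45 : Ent 4 := ⟨[a0, a63], [a223, a79], (M a149 (F (T t175 (L l84 (L l246 (T t5 (L l246 (L l289 (T t176 (L l84 (L l289 (T t177 (K a192 (M a53 (F (T t178 (L l236 (L l289 (L l368 (T t179 (L l84 (L l236 (L l246 (L l296 (T t180 N)))))))))))) (K a21 (M a240 (F (T t1090 (L l246 (T t962 (T t1207 N)))))) (K a85 (M a16 (F (L l455 (T t112 (L l144 (L l246 (T t190 (L l94 (L l151 (T t278 N)))))))))) (K a213 (Fr a106 a192 l519 (Fr a42 a21 l68 (Fr a170 a234 l390 (Fr a255 a85 l476 (V t582))))) (K a42 (M a240 (F (T t1090 (L l151 (L l390 (T t1091 (T t1207 N))))))) (K a106 (M a12 (F (T t122 (L l408 (T t649 (L l246 (L l362 (L l390 (L l408 (T t960 (L l246 (L l390 (T t961 N))))))))))))) (K a170 (M a48 (F (T t4 (L l325 (L l462 (T t1 (L l151 (L l390 (T t13 N))))))))) (K a191 (M a16 (F (T t112 (L l246 (T t190 (L l151 (T t278 N))))))) (K a255 (M a207 (F (L l440 (T t3064 (L l84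 (L l469 (T t1287 (L l137 (L l246 (L l296 (T t1288 (L l137 (L l151 (L l361 (L l469 (T t3065 N)))))))))))))))) N)))))))))))))))))))))⟩
def e0_63__223_46 : Ent 4 := ⟨[a0, a63], [a223, a80], (M a60 (F (T t67 (T t43 (T t68 (T t69 (K a20 (M a48 (F (T t2 (T t64 (L l11 (T t235 N)))))) (K a40 (M a48 (F (T t1 (T t64 (L l52 (T t235 N)))))) (K a21 (M a192 (F (T t72 (L l347 (T t73 (L l245 (L l347 (T t74 N)))))))) (K a41 (M a192 (F (T t77 (L l65 (L l289 (T t35 (T t73 N))))))) (K a61 (M a192 (F (T t72 (L l65 (L l289 (L l515 (T t35 (L l246 (T t80 N))))))))) (K a22 (M a192 (F (T t72 (L l289 (T t21 (T t73 N)))))) (K a42 (M a192 (F (T t79 (T t73 (L l22 (L l245 (T t74 N))))))) (K a62 (M a192 (F (T t72 (L l289 (T t35 (L l66 (L l246 (L l516 (T t80 N))))))))) (K a3 (M a85 (F (T t447 (L l245 (L l246 (T t115 N)))))) N)))))))))))))))⟩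
def e0_63__223_47 : Ent 4 := ⟨[a0, a63], [a223, a81], (M a60 (F (T t67 (T t43 (T t68 (L l449 (T t69 (K a20 (M a48 (F (T t2 (T t64 (L l11 (T t235 N)))))) (K a40 (M a48 (F (T t1 (T t64 (L l52 (T t235 N)))))) (K a21 (M a192 (F (T t72 (L l347 (T t73 (L l245 (L l347 (T t74 N)))))))) (K a41 (M a192 (F (T t77 (L l65 (L l289 (T t35 (T t73 N))))))) (K a61 (M a192 (F (T t72 (L l65 (L l289 (L l515 (T t35 (L l246 (T t80 N))))))))) (K a22 (M a192 (F (T t72 (L l289 (T t21 (T t73 N)))))) (K a42 (M a192 (F (T t79 (T t73 (L l22 (L l245 (T t74 N))))))) (K a62 (M a192 (F (T t72 (L l289 (T t35 (L l66 (L l246 (L l516 (T t80 N))))))))) (K a3 (M a85 (F (T t447 (L l245 (L l246 (T t115 N)))))) N))))))))))))))))⟩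
def e0_63__223_48 : Ent 4 := ⟨[a0, a63], [a223, a82], (M a149 (F (T t175 (L l246 (T t5 (L l246 (L l289 (T t176 (L l289 (T t177 (K a192 (M a53 (F (T t178 (L l236 (L l289 (L l368 (T t179 (L l236 (L l246 (L l296 (T t180 N))))))))))) (K a21 (M a48 (F (T t4 (L l121 (L l453 (T t13 (L l18 (L l289 (L l368 (T t14 N)))))))))) (K a85 (M a16 (F (L l361 (T t97 (L l144 (L l246 (L l345 (L l453 (T t190 (L l92 (L l94 (T t278 N)))))))))))) (K a213 (Fr a106 a192 l519 (Fr a42 a21 l68 (Fr a170 a234 l390 (Fr a255 a85 l476 (V t582))))) (K a42 (M a48 (F (T t11 (L l121 (L l390 (L l453 (T t13 (L l54 (L l289 (L l368 (T t14 N))))))))))) (K a106 (M a48 (F (T t1 (L l104 (L l144 (L l246 (L l289 (L l361 (L l390 (T t1285 (L l289 (L l368 (L l498 (T t14 N)))))))))))))) (K a170 (M a48 (F (T t4 (L l462 (T t1 (L l121 (L l390 (L l453 (T t13 N))))))))) (K a191 (M a204 (F (T t1043 (L l241 (L l246 (L l345 (T t1112 N))))))) (K a255 (M a207 (F (T t1286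 (L l469 (T t1287 (L l246 (L l296 (T t1288 (L l361 (T t1289 N)))))))))) N)))))))))))))))))))⟩
def e0_63__223_49 : Ent 4 := ⟨[a0, a63], [a223, a83], (M a149 (F (T t175 (L l246 (T t5 (L l246 (L l289 (T t176 (L l289 (T t177 (K a192 (M a53 (F (T t178 (L l236 (L l289 (L l368 (T t179 (L l236 (L l246 (L l296 (T t180 N))))))))))) (K a21 (M a48 (F (T t4 (T t13 (L l18 (L l289 (L l368 (T t14 N)))))))) (K a85 (M a16 (F (L l361 (T t97 (L l144 (L l246 (T t190 (L l94 (T t278 N))))))))) (K a213 (Fr a106 a192 l519 (Fr a42 a21 l68 (Fr a170 a234 l390 (Fr a255 a85 l476 (V t582))))) (K a42 (M a48 (F (T t11 (L l390 (T t13 (L l54 (L l289 (L l368 (T t14 N))))))))) (K a106 (M a48 (F (T t1 (L l104 (L l144 (L l246 (L l289 (L l361 (L l390 (T t1285 (L l289 (L l368 (L l498 (T t14 N)))))))))))))) (K a170 (M a48 (F (T t4 (L l462 (T t1 (L l390 (T t13 N))))))) (K a191 (M a16 (F (T t112 (L l246 (T t190 (T t278 N)))))) (K a255 (M a207 (F (T t1286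 (L l469 (T t1287 (L l246 (L l296 (T t1288 (L l361 (T t1289 N)))))))))) N)))))))))))))))))))⟩
def e0_63__223_50 : Ent 4 := ⟨[a0, a63], [a223, a85], (M a60 (L l368 (F (T t43 (L l347 (L l350 (T t67 (L l347 (T t68 (L l473 (T t69 (K a20 (M a16 (L l350 (F (L l361 (T t97 (T t4462 (L l361 (L l473 (T t6373 (L l46 (L l361 (L l473 (T t6374 (L l362 (T t6375 (K a150 (M a215 (F (T t4462 (L l361 (T t97 (L l46 (L l361 (L l494 (T t6376 (L l46 (L l361 (L l473 (L l494 (L l516 (T t6374 (L l362 (L l374 (T t6375 N)))))))))))))))))) (K a215 (M a150 (L l245 (F (L l141 (T t5577 (L l361 (T t97 (K a211 (M a219 (F (L l141 (T t5577 (L l455 (T t112 N)))))) (K a219 (M a211 (F (L l295 (T t1545 (L l361 (T t97 N)))))) N))))))))) N))))))))))))))))) (K a40 (M a16 (F (L l24 (T t4462 (L l22 (L l362 (T t6377 (L l22 (L l24 (L l361 (T t97 (L l22 (L l361 (L l473 (T t6373 (L l22 (L l361 (L l473 (T t6374 N))))))))))))))))))) (K a21 (M a149 (L l368 (F (T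 t1034 (L l144 (T t463 (L l11 (L l141 (L l144 (L l350 (T t1532 (L l11 (L l350 (T t1533 (K a16 (M a154 (L l18 (F (T t1034 (L l144 (L l289 (L l361 (T t6378 (L l340 (T t6379 (K a26 (M a31 (F (T t1034 (L l246 (L l340 (T t6380 (L l14 (L l362 (T t6381 N))))))))) (K a31 (M a26 (L l361 (F (T t1034 (L l144 (L l340 (T t6382 (L l340 (T t6383 (K a95 (Fr a159 a144 l170 (V t6384)) (K a159 (M a95 (F (T t6385 (L l144 (T t463 N))))) N))))))))))) N)))))))))))) (K a154 (M a16 (F (T t1534 (L l362 (T t1140 N))))) N)))))))))))))))) (K a41 (M a48 (L l368 (F (T t42 (L l22 (L l455 (T t2 (L l22 (L l57 (L l458 (T t247 (K a16 (M a154 (F (T t70 (L l340 (T t473 (L l57 (L l289 (L l362 (T t6386 N))))))))) (K a154 (Fr a16 a32 l40 (V t3290)) N))))))))))))) (K a61 (M a16 (F (L l362 (T t1140 (L l361 (T t97 (L l59 (T t1141 N)))))))) (K a22 (M a16 (F (L l458 (T t2447 (L l66 (L l361 (T t97 (L l16 (L l66 (T t1141 N)))))))))) (K a42 (M a192 (L l368 (F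 (T t77 (L l347 (T t73 (L l66 (L l144 (L l350 (L l390 (T t1541 (K a16 (M a154 (F (T t77 (L l289 (L l347 (T t6387 N)))))) (K a154 (M a16 (F (T t77 (L l28 (L l510 (T t4462 N)))))) N))))))))))))) (K a62 (M a16 (F (L l362 (T t1140 (L l66 (L l361 (T t97 (L l66 (T t1141 N))))))))) (K a3 (M a16 (F (L l455 (T t112 (L l9 (L l362 (T t1140 (T t1141 N)))))))) (K a16 (M a154 (F (T t43 (L l14 (L l18 (L l347 (L l350 (T t67 (L l18 (L l347 (T t68 (L l473 (T t69 (K a20 (M a150 (L l14 (F (T t1545 (L l46 (L l123 (T t6388 (L l344 (T t6389 (K a24 (M a28 (F (T t1545 (L l52 (T t1347 N))))) (K a28 (M a24 (L l362 (F (T t1545 (L l46 (L l123 (L l344 (T t6390 (L l126 (T t6391 (K a93 (Fr a158 a146 l168 (V t6392)) (K a158 (M a93 (F (T t1545 (L l245 (T t6393 (T t6394 N)))))) N)))))))))))) N))))))))))) (K a40 (M a106 (F (T t6395 (L l18 (L l123 (L l347 (T t6396 N))))))) (K a21 (M a149 (L l18 (F (T t1034 (L l144 (L l289 (L l361 (T t6378 (L l340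 (T t6379 (K a26 (M a31 (F (T t1034 (L l246 (L l340 (T t6380 (L l14 (L l362 (T t6381 N))))))))) (K a31 (M a26 (L l361 (F (T t1034 (L l144 (L l340 (T t6382 (L l340 (T t6383 (K a95 (Fr a159 a144 l170 (V t6384)) (K a159 (M a95 (F (T t6385 (L l144 (T t463 N))))) N))))))))))) N)))))))))))) (K a41 (M a192 (F (T t77 (L l289 (L l347 (T t6387 N)))))) (K a61 (M a192 (F (T t72 (L l35 (L l289 (L l347 (L l515 (T t6387 N)))))))) (K a22 (M a192 (F (T t72 (L l289 (L l347 (T t6387 N)))))) (K a42 (M a192 (F (T t77 (L l289 (L l347 (T t6387 N)))))) (K a62 (M a192 (F (T t72 (L l289 (L l347 (T t6387 N)))))) (K a3 (M a192 (F (L l477 (T t72 (L l289 (L l331 (L l347 (T t6387 N)))))))) N)))))))))))))))))))))) (K a154 (M a16 (F (T t43 (L l362 (T t1140 (L l361 (T t97 N))))))) N))))))))))))))))))))))⟩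
def e0_63__223_51 : Ent 4 := ⟨[a0, a63], [a223, a86], (M a48 (F (T t1 (T t2 (L l368 (T t3 (L l361 (T t0 (K a16 (M a85 (F (L l474 (T t90 (L l246 (T t51 (L l474 (T t50 N)))))))) (K a32 (M a60 (F (T t64 (L l477 (T t67 (L l24 (L l28 (L l351 (T t65 N))))))))) (K a21 (M a192 (F (T t27 (L l47 (L l289 (L l347 (L l351 (T t20 (L l18 (L l142 (L l289 (L l368 (T t224 N))))))))))))) (K a37 (M a192 (F (T t27 (L l47 (L l289 (L l351 (T t20 (L l289 (L l351 (T t21 N)))))))))) (K a53 (M a192 (F (T t837 (L l289 (L l351 (L l491 (T t21 (L l47 (L l351 (L l491 (T t525 N))))))))))) (K a26 (M a192 (F (T t27 (L l289 (L l351 (T t20 (L l289 (L l351 (T t21 N))))))))) (K a42 (M a192 (F (T t837 (L l289 (L l351 (T t20 (L l54 (L l142 (L l289 (L l368 (L l390 (T t224 N)))))))))))) (K a58 (M a192 (F (T t837 (L l289 (L l351 (T t21 (L l351 (T t525 N)))))))) (K a15 (M a192 (F (T t1922 (L l289 (L l325 (L l351 (T t20 (L l289 (L l351 (L l469 (T t21 N)))))))))))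 N)))))))))))))))))⟩
def e0_63__223_52 : Ent 4 := ⟨[a0, a63], [a223, a87], (M a48 (L l367 (F (T t1 (T t2 (L l368 (T t3 (L l361 (T t0 (K a16 (M a85 (L l367 (F (T t90 (L l143 (T t50 (L l246 (T t51 (K a19 (M a155 (L l10 (F (T t90 (L l143 (T t50 (L l246 (T t51 (K a17 (M a18 (F (T t90 (L l14 (L l41 (T t244 (L l143 (T t50 N)))))))) (K a18 (M a17 (F (T t90 (L l42 (L l125 (T t6397 N)))))) N)))))))))) (K a155 (M a19 (F (T t90 (L l143 (T t50 (L l246 (T t51 N))))))) N)))))))))) (K a32 (M a51 (L l367 (F (T t589 (T t1995 (T t591 (K a19 (M a155 (F (T t592 (L l125 (L l404 (T t3754 N)))))) (K a155 (M a19 (F (L l20 (L l368 (T t3727 (T t3279 N)))))) N)))))))) (K a21 (M a192 (L l367 (F (T t27 (L l47 (L l289 (L l347 (T t20 (L l18 (L l289 (L l368 (T t224 (K a19 (M a155 (F (T t837 (L l289 (L l361 (T t22 (L l10 (L l18 (L l289 (L l368 (T t224 N))))))))))) (K a155 (M a19 (F (T t837 (L l169 (L l289 (L l361 (L l511 (T t22 (L l18 (L l289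 (L l368 (T t224 N)))))))))))) N)))))))))))))) (K a37 (M a106 (L l367 (F (T t777 (L l28 (L l246 (T t586 (L l47 (L l289 (L l368 (T t599 (K a19 (M a155 (F (T t551 (L l47 (L l143 (T t3755 N)))))) (K a155 (M a19 (F (T t777 (L l25 (L l28 (L l355 (T t3732 N))))))) N))))))))))))) (K a53 (M a51 (L l367 (F (T t1294 (L l35 (L l475 (T t1901 (L l35 (T t1902 (K a19 (M a155 (F (T t1296 (L l125 (L l491 (T t3754 N)))))) (K a155 (M a19 (F (T t3756 (L l361 (T t3269 N))))) N))))))))))) (K a26 (M a50 (L l367 (F (T t147 (L l475 (T t148 (L l16 (L l18 (T t149 (K a19 (M a155 (F (L l125 (T t3757 (L l16 (L l18 (L l19 (T t149 N)))))))) (K a155 (M a19 (F (T t3758 (T t147 N)))) N))))))))))) (K a42 (M a192 (L l367 (F (T t837 (L l289 (T t20 (L l54 (L l289 (L l368 (L l390 (T t224 (K a19 (M a155 (F (T t837 (L l289 (L l361 (L l390 (T t22 (L l10 (L l54 (L l289 (L l368 (L l390 (T t224 N))))))))))))) (K a155 (M a19 (F (T t837 (L l169 (L l289 (L l361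 (L l390 (L l511 (T t22 (L l54 (L l289 (L l368 (L l390 (T t224 N)))))))))))))) N))))))))))))) (K a58 (M a51 (L l367 (F (T t589 (L l475 (T t1901 (L l32 (L l54 (T t1902 (K a19 (M a155 (F (T t592 (L l125 (T t3754 N))))) (K a155 (M a19 (F (T t3756 (L l361 (T t3269 N))))) N))))))))))) (K a15 (M a106 (L l367 (F (T t585 (L l246 (L l339 (T t586 (T t306 (K a19 (M a155 (F (T t3759 (T t3760 N)))) (K a155 (M a19 (F (T t585 (L l73 (L l355 (T t3732 N)))))) N)))))))))) (K a19 (M a155 (F (T t1 (T t2 (L l10 (L l368 (T t3 (L l17 (L l361 (T t0 (K a16 (M a154 (L l10 (F (T t3635 (L l125 (L l364 (T t3761 (L l143 (L l364 (T t3762 (K a17 (M a18 (F (T t3635 (L l14 (L l41 (T t244 N)))))) (K a18 (M a17 (F (T t3635 (L l42 (T t1279 N))))) N)))))))))))) (K a32 (M a106 (F (T t305 (T t3760 N)))) (K a21 (M a56 (F (L l11 (T t133 (L l47 (L l143 (T t3764 N))))))) (K a37 (M a56 (F (L l51 (T t133 (L l47 (L l143 (T t3764 N))))))) (K a53 (M a154 (F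 (L l369 (T t3765 (L l43 (L l361 (L l491 (T t3766 N)))))))) (K a26 (M a56 (F (T t133 (L l143 (T t3764 N))))) (K a42 (M a154 (F (T t473 (L l369 (T t3765 N))))) (K a58 (M a154 (F (L l369 (T t3765 (L l32 (L l43 (L l361 (T t3766 N)))))))) (K a15 (M a56 (F (L l3 (T t133 (L l143 (T t3764 N)))))) N))))))))))))))))))) (K a155 (M a19 (F (T t1 (L l499 (T t3745 (L l355 (T t3732 (L l361 (T t3746 (K a16 (M a85 (F (T t90 (L l143 (T t50 (L l246 (T t51 N))))))) N)))))))))) N))))))))))))))))))))⟩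
def e0_63__223_53 : Ent 4 := ⟨[a0, a63], [a223, a90], (M a12 (F (T t122 (T t151 (T t152 (T t153 (K a4 (M a60 (F (T t43 (L l480 (L l483 (T t398 (T t448 N))))))) (K a8 (M a60 (F (T t67 (L l480 (L l483 (T t398 (L l52 (L l56 (T t448 N))))))))) (K a21 (M a192 (F (T t836 (L l15 (L l347 (L l375 (T t450 (L l15 (L l347 (L l375 (T t157 N))))))))))) (K a25 (M a192 (F (T t449 (L l15 (L l375 (T t450 (L l289 (L l375 (T t21 N))))))))) (K a29 (M a192 (F (T t449 (L l289 (L l371 (L l375 (T t21 (L l130 (L l246 (T t160 N)))))))))) (K a38 (M a192 (F (T t156 (L l375 (T t450 (L l289 (L l375 (T t21 N)))))))) (K a42 (M a192 (F (T t449 (L l375 (T t450 (L l56 (L l375 (T t157 N)))))))) (K a46 (M a192 (F (T t449 (L l289 (L l375 (T t21 (L l26 (L l130 (L l246 (L l408 (T t160 N))))))))))) (K a51 (M a192 (F (T t1725 (L l375 (L l415 (T t450 (L l289 (L l375 (L l439 (T t21 N)))))))))) N)))))))))))))))⟩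
def e0_63__223_54 : Ent 4 := ⟨[a0, a63], [a223, a91], (M a149 (F (T t175 (L l246 (T t5 (L l246 (L l289 (T t176 (L l289 (T t177 (K a192 (M a53 (F (T t178 (L l236 (L l289 (L l368 (T t179 (L l236 (L l246 (L l296 (T t180 N))))))))))) (K a21 (M a48 (F (T t4 (T t13 (L l18 (L l289 (L l368 (T t14 N)))))))) (K a85 (M a16 (F (L l455 (T t112 (L l144 (L l246 (T t190 (L l88 (L l94 (T t278 N)))))))))) (K a213 (Fr a106 a192 l519 (Fr a42 a21 l68 (Fr a170 a234 l390 (Fr a255 a85 l476 (V t582))))) (K a42 (M a48 (F (T t11 (L l390 (T t13 (L l54 (L l289 (L l368 (T t14 N))))))))) (K a106 (M a48 (F (L l481 (T t1 (L l104 (L l144 (L l246 (L l289 (L l361 (L l390 (T t1285 (L l289 (L l368 (L l498 (T t14 N))))))))))))))) (K a170 (M a48 (F (T t4 (L l462 (L l481 (T t1 (L l390 (T t13 N)))))))) (K a191 (M a48 (F (T t13 (L l246 (T t6 N))))) (K a255 (M a207 (F (T t1286 (L l469 (L l481 (T t1287 (L l246 (L l296 (T t1288 (L l361 (L l373 (T t1289 N))))))))))))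 N)))))))))))))))))))⟩
def e0_63__223_55 : Ent 4 := ⟨[a0, a63], [a223, a95], (M a12 (L l361 (F (T t122 (T t151 (T t152 (T t153 (K a4 (M a31 (F (T t2312 (L l362 (T t1369 (L l46 (T t3445 N))))))) (K a8 (M a31 (F (T t3446 (L l56 (L l368 (T t2084 (L l56 (T t3445 N)))))))) (K a21 (M a85 (L l361 (F (T t1601 (L l15 (L l137 (T t574 (L l89 (L l137 (L l362 (T t124 (K a31 (M a159 (L l18 (F (T t2427 (L l137 (T t4527 (L l137 (L l289 (L l469 (T t4528 (K a16 (M a26 (F (T t2427 (L l137 (T t4529 (L l89 (L l137 (L l362 (T t124 N))))))))) (K a26 (M a16 (F (T t2427 (L l137 (T t4530 (L l13 (L l362 (T t871 N)))))))) N)))))))))))) (K a159 (M a31 (F (T t2427 (L l65 (T t3446 N))))) N))))))))))))) (K a25 (M a31 (F (T t3446 (L l56 (L l368 (T t2084 (L l12 (L l56 (T t3445 N))))))))) (K a29 (M a31 (F (T t2312 (L l59 (T t3860 (L l59 (L l368 (T t4050 (L l362 (T t4051 (L l59 (L l368 (T t4052 N))))))))))))) (K a38 (M a15 (L l361 (F (T t2576 (L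 l50 (T t731 (T t717 (K a31 (M a159 (F (T t3936 (L l137 (T t4527 (L l137 (T t4531 N))))))) (K a159 (Fr a31 a47 l61 (V t4532)) N))))))))) (K a42 (M a192 (L l361 (F (T t449 (T t450 (L l56 (T t157 (K a31 (M a159 (F (T t156 (L l137 (L l390 (T t4533 N)))))) (K a159 (M a31 (F (T t449 (L l28 (L l246 (L l390 (T t1348 N))))))) N))))))))) (K a46 (M a31 (F (L l23 (T t3860 (L l26 (L l362 (T t4058 (L l23 (L l26 (L l368 (T t2084 (L l26 (L l368 (T t4053 (L l26 (L l368 (T t4052 N))))))))))))))))) (K a51 (M a31 (F (T t2312 (L l39 (L l362 (T t1369 (T t3445 N))))))) (K a31 (M a159 (F (T t151 (L l137 (T t4527 (K a4 (M a192 (F (T t543 (L l1 (L l137 (L l469 (T t4534 N))))))) (K a8 (M a192 (F (T t221 (L l137 (L l320 (L l469 (T t4534 N))))))) N))))))) (K a159 (M a31 (F (T t151 (L l362 (T t1369 (L l368 (T t2084 N))))))) N))))))))))))))))))⟩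
def e0_63__223_56 : Ent 4 := ⟨[a0, a63], [a223, a96], (M a60 (F (T t67 (T t43 (T t68 (T t69 (K a20 (M a48 (F (T t2 (T t64 (L l11 (T t235 N)))))) (K a40 (M a48 (F (T t1 (T t64 (L l52 (T t235 N)))))) (K a21 (M a192 (F (T t77 (L l347 (T t73 (L l245 (L l347 (T t74 N)))))))) (K a41 (M a192 (F (T t79 (L l65 (L l289 (T t35 (T t73 N))))))) (K a61 (M a192 (F (T t79 (L l65 (L l289 (L l515 (T t35 (L l100 (L l104 (L l246 (T t80 N))))))))))) (K a22 (M a192 (F (T t77 (L l289 (T t21 (T t73 N)))))) (K a42 (M a192 (F (T t79 (T t73 (L l22 (L l245 (T t74 N))))))) (K a62 (M a192 (F (T t79 (L l289 (T t35 (L l66 (L l100 (L l104 (L l246 (L l516 (T t80 N))))))))))) (K a3 (M a85 (F (T t447 (L l245 (L l246 (T t115 N)))))) N)))))))))))))))⟩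
def e0_63__223_57 : Ent 4 := ⟨[a0, a63], [a223, a97], (M a149 (F (T t175 (L l246 (T t5 (L l246 (L l289 (T t176 (L l289 (T t177 (K a192 (M a53 (F (L l339 (T t982 (L l236 (L l289 (L l368 (T t179 (L l236 (L l246 (L l296 (T t180 N)))))))))))) (K a21 (M a48 (F (L l96 (T t4 (L l121 (T t13 (L l18 (L l289 (L l368 (T t14 N)))))))))) (K a85 (M a16 (F (L l361 (L l380 (T t97 (L l96 (L l144 (L l246 (L l380 (T t190 (L l94 (T t278 N)))))))))))) (K a213 (Fr a106 a192 l519 (Fr a42 a21 l68 (Fr a170 a234 l390 (Fr a255 a85 l476 (V t582))))) (K a42 (M a48 (F (T t11 (L l121 (L l390 (T t13 (L l54 (L l289 (L l368 (T t14 N)))))))))) (K a106 (M a48 (F (T t1 (L l96 (L l104 (L l144 (L l246 (L l289 (L l361 (L l390 (T t1285 (L l289 (L l368 (L l498 (T t14 N))))))))))))))) (K a170 (M a48 (F (T t11 (L l462 (T t1 (L l121 (L l390 (T t13 N)))))))) (K a191 (M a16 (F (L l380 (T t112 (L l96 (L l246 (L l380 (T t190 (T t278 N))))))))) (K a255 (M a207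 (F (T t2337 (L l469 (T t1287 (L l246 (L l296 (T t1288 (L l101 (L l361 (L l380 (T t1289 N)))))))))))) N)))))))))))))))))))⟩
def e0_63__223_58 : Ent 4 := ⟨[a0, a63], [a223, a98], (M a48 (F (T t1 (T t2 (L l368 (T t3 (L l361 (T t0 (K a16 (M a85 (F (T t50 (L l18 (L l289 (T t52 (L l246 (T t51 N)))))))) (K a32 (M a60 (F (T t67 (L l486 (L l489 (T t64 (L l24 (L l28 (T t65 N))))))))) (K a21 (M a192 (F (T t27 (L l47 (L l289 (L l347 (T t20 (L l18 (L l102 (L l289 (L l368 (T t224 N)))))))))))) (K a37 (M a192 (F (T t27 (L l47 (L l289 (T t20 (L l289 (T t21 N)))))))) (K a53 (M a192 (F (T t27 (L l289 (L l491 (T t21 (L l47 (L l491 (T t525 N))))))))) (K a26 (M a192 (F (T t27 (L l289 (T t20 (L l289 (T t21 N))))))) (K a42 (M a192 (F (T t27 (L l289 (T t20 (L l54 (L l102 (L l289 (L l368 (L l390 (T t224 N))))))))))) (K a58 (M a192 (F (T t27 (L l289 (T t21 (T t525 N)))))) (K a15 (M a192 (F (T t57 (L l483 (T t27 (L l289 (L l325 (T t20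 N)))))))) N)))))))))))))))))⟩
def e0_63__223_59 : Ent 4 := ⟨[a0, a63], [a223, a99], (M a149 (F (T t175 (L l246 (T t5 (L l246 (L l289 (T t176 (L l289 (T t177 (K a192 (M a53 (F (T t178 (L l236 (L l289 (L l368 (T t179 (L l236 (L l246 (L l296 (T t180 N))))))))))) (K a21 (M a48 (F (L l96 (T t4 (T t13 (L l18 (L l289 (L l368 (T t14 N))))))))) (K a85 (M a16 (F (L l361 (T t97 (L l96 (L l144 (L l246 (T t190 (L l94 (T t278 N)))))))))) (K a213 (Fr a106 a192 l519 (Fr a42 a21 l68 (Fr a170 a234 l390 (Fr a255 a85 l476 (V t582))))) (K a42 (M a48 (F (T t11 (L l390 (T t13 (L l54 (L l289 (L l368 (T t14 N))))))))) (K a106 (M a48 (F (T t1 (L l96 (L l104 (L l144 (L l246 (L l289 (L l361 (L l390 (T t1285 (L l289 (L l368 (L l498 (T t14 N))))))))))))))) (K a170 (M a48 (F (T t11 (L l462 (T t1 (L l390 (T t13 N))))))) (K a191 (M a16 (F (T t112 (L l96 (L l246 (T t190 (T t278 N))))))) (K a255 (M a207 (F (L l103 (T t1286 (L l469 (T t1287 (L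 l103 (L l246 (L l296 (T t1288 (L l103 (L l361 (T t1289 N))))))))))))) N)))))))))))))))))))⟩
def e0_63__223_60 : Ent 4 := ⟨[a0, a63], [a223, a101], (M a12 (F (T t122 (T t151 (T t152 (T t153 (K a4 (M a60 (F (T t43 (T t398 (T t448 N))))) (K a8 (M a60 (F (T t398 (T t67 (L l52 (L l56 (T t448 N))))))) (K a21 (M a192 (F (T t836 (L l15 (L l347 (L l491 (T t450 (L l15 (L l347 (L l491 (T t157 N))))))))))) (K a25 (M a192 (F (T t449 (L l15 (L l491 (T t450 (L l289 (L l491 (T t21 N))))))))) (K a29 (M a192 (F (T t449 (L l289 (L l371 (L l491 (T t21 (L l104 (L l246 (T t160 N)))))))))) (K a38 (M a192 (F (T t156 (L l491 (T t450 (L l289 (L l491 (T t21 N)))))))) (K a42 (M a192 (F (T t449 (L l491 (T t450 (L l56 (L l491 (T t157 N)))))))) (K a46 (M a192 (F (T t449 (L l289 (L l491 (T t21 (L l26 (L l104 (L l246 (L l408 (T t160 N))))))))))) (K a51 (M a192 (F (T t1725 (L l415 (L l491 (T t450 (L l289 (L l439 (L l491 (T t21 N)))))))))) N)))))))))))))))⟩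
def e0_63__223_61 : Ent 4 := ⟨[a0, a63], [a223, a102], (M a48 (F (T t1 (T t2 (L l368 (T t3 (L l361 (T t0 (K a16 (M a85 (F (L l402 (T t90 (L l246 (T t51 (L l402 (T t50 N)))))))) (K a32 (M a60 (F (T t67 (L l510 (L l513 (T t64 (L l24 (L l28 (T t65 N))))))))) (K a21 (M a192 (F (T t27 (L l47 (L l289 (L l347 (L l495 (T t20 (L l18 (L l102 (L l289 (L l368 (T t224 N))))))))))))) (K a37 (M a192 (F (T t27 (L l47 (L l289 (L l495 (T t20 (L l289 (L l495 (T t21 N)))))))))) (K a53 (M a192 (F (T t837 (L l289 (L l491 (L l495 (T t21 (L l47 (L l491 (L l495 (T t525 N))))))))))) (K a26 (M a192 (F (T t27 (L l289 (L l495 (T t20 (L l289 (L l495 (T t21 N))))))))) (K a42 (M a192 (F (T t837 (L l289 (L l495 (T t20 (L l54 (L l102 (L l289 (L l368 (L l390 (T t224 N)))))))))))) (K a58 (M a192 (F (T t837 (L l289 (L l495 (T t21 (L l495 (T t525 N)))))))) (K a15 (M a192 (F (T t1922 (L l289 (L l325 (L l495 (T t20 (L l289 (L l469 (L l495 (T t21 N)))))))))))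 N)))))))))))))))))⟩
def e0_63__223_62 : Ent 4 := ⟨[a0, a63], [a223, a103], (M a149 (F (T t175 (L l246 (T t5 (L l246 (L l289 (T t176 (L l289 (T t177 (K a192 (M a53 (F (T t178 (L l236 (L l289 (L l368 (L l403 (T t179 (L l236 (L l246 (L l296 (T t180 N)))))))))))) (K a21 (M a48 (F (T t4 (T t13 (L l18 (L l289 (L l368 (L l403 (T t14 N))))))))) (K a85 (M a16 (F (L l361 (T t97 (L l144 (L l246 (T t190 (L l94 (T t278 N))))))))) (K a213 (Fr a106 a192 l519 (Fr a42 a21 l68 (Fr a170 a234 l390 (Fr a255 a85 l476 (V t582))))) (K a42 (M a48 (F (T t11 (L l390 (T t13 (L l54 (L l289 (L l368 (L l403 (T t14 N)))))))))) (K a106 (M a48 (F (T t1 (L l104 (L l144 (L l246 (L l289 (L l361 (L l390 (T t1285 (L l289 (L l368 (L l403 (L l498 (T t14 N))))))))))))))) (K a170 (M a48 (F (T t4 (L l462 (T t1 (L l390 (T t13 N))))))) (K a191 (M a16 (F (T t112 (L l246 (T t190 (T t278 N)))))) (K a255 (M a207 (F (L l440 (T t3064 (L l469 (T t1287 (L l103 (L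 l246 (L l296 (T t1288 (L l97 (L l103 (L l361 (T t1289 N)))))))))))))) N)))))))))))))))))))⟩
def e0_63__223_63 : Ent 4 := ⟨[a0, a63], [a223, a106], (M a12 (F (T t122 (L l390 (L l408 (T t151 (L l501 (T t152 (L l390 (T t153 (K a4 (M a60 (F (T t398 (L l46 (L l50 (L l393 (T t67 (L l390 (L l408 (T t448 N)))))))))) (K a8 (M a60 (F (T t398 (L l393 (T t67 (L l52 (L l56 (L l390 (L l408 (T t448 N)))))))))) (K a21 (M a255 (F (T t2486 (L l390 (T t2137 (L l50 (L l144 (L l347 (L l368 (L l408 (T t2487 N))))))))))) (K a25 (M a48 (F (T t550 (L l15 (T t1 (L l12 (L l56 (L l390 (L l498 (T t866 N)))))))))) (K a29 (M a48 (F (T t550 (L l15 (T t1 (L l390 (L l498 (T t866 N)))))))) (K a38 (M a48 (F (T t1580 (L l26 (L l390 (L l498 (T t2 (L l21 (L l50 (T t868 N)))))))))) (K a42 (M a170 (F (T t2497 (L l144 (L l368 (T t2498 (L l26 (L l132 (L l144 (L l408 (T t2499 (L l26 (L l362 (L l408 (T t2500 N))))))))))))))) (K a46 (M a48 (L l408 (F (T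 t550 (T t1 (L l26 (L l390 (L l498 (T t866 (K a226 (M a166 (F (T t1 (L l132 (L l289 (L l396 (T t2624 N))))))) (K a166 (M a226 (F (T t1 (T t1580 (L l26 (L l390 (L l498 (T t866 N)))))))) N))))))))))) (K a51 (M a16 (F (T t652 (L l73 (L l361 (L l390 (T t97 (L l390 (L l408 (T t872 N)))))))))) N)))))))))))))))))))⟩
def e0_63__223_64 : Ent 4 := ⟨[a0, a63], [a223, a107], (M a60 (F (T t43 (L l391 (T t67 (T t68 (T t69 (K a20 (M a48 (F (T t2 (T t64 (L l11 (T t235 N)))))) (K a40 (M a48 (F (T t64 (T t1 (L l52 (T t235 N)))))) (K a21 (M a192 (F (T t77 (L l98 (T t1516 (L l143 (L l245 (L l347 (T t74 N))))))))) (K a41 (M a192 (F (T t77 (L l65 (L l289 (T t35 (L l98 (T t1516 N)))))))) (K a61 (M a192 (F (T t79 (L l65 (L l289 (L l515 (T t35 (L l98 (L l245 (L l246 (T t2718 N))))))))))) (K a22 (M a192 (F (T t77 (L l143 (L l289 (T t21 (L l66 (L l98 (T t1516 N))))))))) (K a42 (M a192 (F (T t77 (L l66 (L l98 (L l390 (T t1516 (L l22 (L l143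 (L l245 (T t74 N))))))))))) (K a62 (M a192 (F (T t77 (L l289 (T t35 (L l66 (L l98 (L l245 (L l246 (L l516 (T t2718 N))))))))))) (K a3 (M a106 (F (T t2792 (T t1513 N)))) N))))))))))))))))⟩
def e0_63__223_65 : Ent 4 := ⟨[a0, a63], [a223, a111], (M a48 (F (T t1 (T t2 (L l368 (L l397 (T t3 (L l361 (T t0 (K a16 (M a85 (F (T t90 (L l137 (T t50 (L l246 (T t51 N))))))) (K a32 (M a60 (F (T t67 (T t64 (L l24 (L l28 (T t65 N))))))) (K a21 (M a255 (F (T t1160 (L l347 (L l368 (T t547 (L l137 (L l347 (L l368 (T t3730 N)))))))))) (K a37 (M a192 (F (T t27 (L l104 (L l289 (T t206 (L l137 (L l289 (T t21 N))))))))) (K a53 (M a192 (F (T t27 (L l137 (L l289 (L l491 (T t21 (L l104 (T t4838 N))))))))) (K a26 (M a192 (F (T t27 (L l54 (L l104 (L l289 (T t206 (L l137 (L l289 (T t21 N)))))))))) (K a42 (M a255 (F (T t1169 (L l368 (T t547 (L l54 (L l137 (L l368 (T t3730 N))))))))) (K a58 (M a192 (F (T t27 (L l137 (L l289 (T t21 (L l368 (T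 t4839 N)))))))) (K a15 (M a106 (F (T t2289 (T t306 N)))) N))))))))))))))))))⟩
def e0_63__223_66 : Ent 4 := ⟨[a0, a63], [a223, a112], (M a149 (F (T t175 (L l116 (L l246 (T t5 (L l246 (L l289 (T t176 (L l116 (L l289 (T t177 (K a192 (M a53 (F (T t178 (L l236 (L l289 (L l368 (T t179 (L l236 (L l246 (L l296 (T t180 N))))))))))) (K a21 (M a240 (F (T t1834 (L l116 (L l246 (T t962 (L l114 (L l116 (T t1207 N))))))))) (K a85 (M a16 (F (L l361 (T t97 (L l116 (L l144 (L l246 (L l412 (T t190 (L l94 (L l151 (T t278 N)))))))))))) (K a213 (Fr a106 a192 l519 (Fr a42 a21 l68 (Fr a170 a234 l390 (Fr a255 a85 l476 (V t582))))) (K a42 (M a240 (F (T t1834 (L l28 (L l116 (L l246 (L l390 (T t962 (L l114 (L l116 (T t1207 N))))))))))) (K a106 (M a12 (F (T t122 (L l408 (T t649 (L l246 (L l362 (L l390 (L l408 (T t960 (L l246 (L l390 (T t961 N))))))))))))) (K a170 (M a48 (F (T t11 (L l462 (T t1 (L l116 (L l246 (L l390 (L l404 (T t1938 N))))))))))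 (K a191 (M a16 (F (T t112 (L l116 (L l246 (L l412 (T t190 (L l151 (T t278 N))))))))) (K a255 (M a207 (F (T t2337 (L l469 (T t1287 (L l246 (L l296 (T t1288 (L l151 (L l361 (T t1289 N))))))))))) N)))))))))))))))))))))⟩
def e0_63__223_67 : Ent 4 := ⟨[a0, a63], [a223, a113], (M a149 (F (T t175 (L l246 (T t5 (L l246 (L l289 (T t176 (L l289 (T t177 (K a192 (M a53 (F (T t178 (L l236 (L l289 (L l368 (T t179 (L l236 (L l246 (L l296 (T t180 N))))))))))) (K a21 (M a48 (F (T t4 (L l106 (T t13 (L l18 (L l289 (L l368 (T t14 N))))))))) (K a85 (M a16 (F (L l361 (T t97 (L l144 (L l246 (T t190 (L l94 (T t278 N))))))))) (K a213 (Fr a106 a192 l519 (Fr a42 a21 l68 (Fr a170 a234 l390 (Fr a255 a85 l476 (V t582))))) (K a42 (M a48 (F (T t11 (L l106 (L l390 (T t13 (L l54 (L l289 (L l368 (T t14 N)))))))))) (K a106 (M a48 (F (T t1 (L l104 (L l144 (L l246 (L l289 (L l361 (L l390 (T t1285 (L l289 (L l368 (L l498 (T t14 N)))))))))))))) (K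 a170 (M a48 (F (T t4 (L l462 (T t1 (L l106 (L l390 (T t13 N)))))))) (K a191 (M a16 (F (T t112 (L l246 (T t190 (T t278 N)))))) (K a255 (M a207 (F (T t2337 (L l469 (T t1287 (L l246 (L l296 (T t1288 (L l147 (L l361 (T t1289 N))))))))))) N)))))))))))))))))))⟩
def e0_63__223_68 : Ent 4 := ⟨[a0, a63], [a223, a114], (M a149 (F (T t175 (L l246 (T t5 (L l246 (L l289 (T t176 (L l289 (T t177 (K a192 (M a53 (F (T t178 (L l236 (L l289 (L l368 (T t179 (L l236 (L l246 (L l296 (T t180 N))))))))))) (K a21 (M a48 (F (T t4 (L l106 (L l417 (T t13 (L l18 (L l289 (L l368 (T t14 N)))))))))) (K a85 (M a16 (F (L l361 (T t97 (L l144 (L l246 (L l417 (T t190 (L l94 (L l148 (T t278 N))))))))))) (K a213 (Fr a106 a192 l519 (Fr a42 a21 l68 (Fr a170 a234 l390 (Fr a255 a85 l476 (V t582))))) (K a42 (M a48 (F (T t11 (L l106 (L l390 (L l417 (T t13 (L l54 (L l289 (L l368 (T t14 N))))))))))) (K a106 (M a48 (F (T t1 (L l104 (L l144 (L l246 (L l289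 (L l361 (L l390 (T t1285 (L l289 (L l368 (L l498 (T t14 N)))))))))))))) (K a170 (M a48 (F (T t4 (L l462 (T t1 (L l106 (L l390 (L l417 (T t13 N))))))))) (K a191 (M a252 (F (T t1850 (L l112 (L l246 (T t941 N)))))) (K a255 (M a207 (F (T t1286 (L l469 (T t1287 (L l246 (L l296 (T t1288 (L l361 (T t1289 N)))))))))) N)))))))))))))))))))⟩
def e0_63__223_69 : Ent 4 := ⟨[a0, a63], [a223, a115], (M a149 (F (T t175 (L l120 (L l246 (T t5 (L l246 (L l289 (T t176 (L l120 (L l289 (T t177 (K a192 (M a53 (F (T t178 (L l236 (L l289 (L l368 (T t179 (L l236 (L l246 (L l296 (T t180 N))))))))))) (K a21 (M a48 (F (T t4 (L l106 (T t13 (L l18 (L l289 (L l368 (T t14 N))))))))) (K a85 (M a16 (F (L l361 (T t97 (L l144 (L l246 (T t190 (L l94 (T t278 N))))))))) (K a213 (Fr a106 a192 l519 (Fr a42 a21 l68 (Fr a170 a234 l390 (Fr a255 a85 l476 (V t582))))) (K a42 (M a48 (F (T t11 (L l106 (L l390 (T t13 (L l54 (L l289 (L l368 (T t14 N))))))))))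 (K a106 (M a48 (F (T t1 (L l104 (L l120 (L l144 (L l246 (L l289 (L l361 (L l390 (T t1285 (L l289 (L l368 (L l498 (T t14 N))))))))))))))) (K a170 (M a48 (F (T t4 (L l462 (T t1 (L l106 (L l390 (T t13 N)))))))) (K a191 (M a16 (F (T t112 (L l246 (T t190 (T t278 N)))))) (K a255 (M a207 (F (T t1286 (L l469 (T t1287 (L l246 (L l296 (T t1288 (L l361 (T t1289 N)))))))))) N)))))))))))))))))))))⟩
def e0_63__223_70 : Ent 4 := ⟨[a0, a63], [a223, a117], (M a12 (F (T t122 (T t151 (T t152 (T t153 (K a4 (M a60 (F (T t43 (T t398 (T t448 N))))) (K a8 (M a60 (F (T t398 (T t67 (L l52 (L l56 (T t448 N))))))) (K a21 (M a192 (F (T t836 (L l15 (L l347 (T t450 (L l15 (L l347 (L l422 (T t157 N)))))))))) (K a25 (M a192 (F (T t449 (L l15 (T t450 (L l114 (L l289 (L l440 (T t21 N))))))))) (K a29 (M a192 (F (T t449 (L l114 (L l289 (L l371 (L l440 (T t21 (L l246 (T t160 N)))))))))) (K a38 (M a192 (F (T t836 (T t450 (L l114 (L l289 (L l440 (T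 t21 N)))))))) (K a42 (M a192 (F (T t449 (T t450 (L l56 (L l422 (T t157 N))))))) (K a46 (M a192 (F (T t449 (L l114 (L l289 (L l440 (T t21 (L l26 (L l246 (L l408 (T t160 N))))))))))) (K a51 (M a192 (F (T t57 (L l513 (T t156 (L l415 (T t450 N))))))) N)))))))))))))))⟩
def e0_63__223_71 : Ent 4 := ⟨[a0, a63], [a223, a118], (M a149 (F (T t175 (L l246 (T t5 (L l246 (L l289 (T t176 (L l289 (T t177 (K a192 (M a53 (F (T t178 (L l236 (L l289 (L l368 (T t179 (L l236 (L l246 (L l296 (L l423 (T t180 N)))))))))))) (K a21 (M a48 (F (T t4 (T t13 (L l18 (L l289 (L l368 (T t14 N)))))))) (K a85 (M a16 (F (L l361 (T t97 (L l144 (L l246 (T t190 (L l94 (T t278 N))))))))) (K a213 (Fr a106 a192 l519 (Fr a42 a21 l68 (Fr a170 a234 l390 (Fr a255 a85 l476 (V t582))))) (K a42 (M a48 (F (T t11 (L l390 (T t13 (L l54 (L l289 (L l368 (T t14 N))))))))) (K a106 (M a48 (F (T t1 (L l104 (L l144 (L l246 (L l289 (L l361 (L l390 (L l438 (T t1285 (L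 l289 (L l368 (L l498 (T t14 N))))))))))))))) (K a170 (M a48 (F (T t4 (L l462 (T t1 (L l390 (T t13 N))))))) (K a191 (M a16 (F (T t112 (L l246 (T t190 (T t278 N)))))) (K a255 (M a207 (F (T t1286 (L l469 (T t1287 (L l246 (L l296 (T t1288 (L l361 (T t1289 N)))))))))) N)))))))))))))))))))⟩
def e0_63__223_72 : Ent 4 := ⟨[a0, a63], [a223, a119], (M a48 (F (T t1 (T t2 (L l368 (T t3 (L l361 (T t0 (K a16 (M a85 (F (T t90 (L l107 (L l113 (T t50 (L l107 (L l246 (T t51 N))))))))) (K a32 (M a60 (F (T t67 (L l439 (T t64 (L l24 (L l28 (T t65 N)))))))) (K a21 (M a192 (F (T t27 (L l47 (L l289 (L l347 (T t20 (L l18 (L l289 (L l368 (T t224 N))))))))))) (K a37 (M a192 (F (T t837 (L l47 (L l289 (T t20 (L l113 (L l289 (L l439 (T t21 N)))))))))) (K a53 (M a192 (F (T t27 (L l113 (L l289 (L l439 (L l491 (T t21 (L l47 (L l491 (T t525 N))))))))))) (K a26 (M a192 (F (T t27 (L l289 (T t20 (L l113 (L l289 (L l439 (T t21 N))))))))) (K a42 (M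 a192 (F (T t837 (L l289 (T t20 (L l54 (L l289 (L l368 (L l390 (T t224 N)))))))))) (K a58 (M a192 (F (T t837 (L l113 (L l289 (L l439 (T t21 (T t525 N)))))))) (K a15 (M a192 (F (T t1800 (L l483 (T t27 (L l289 (L l325 (T t20 N)))))))) N)))))))))))))))))⟩
def e0_63__223_73 : Ent 4 := ⟨[a0, a63], [a223, a122], (M a12 (F (T t122 (T t151 (L l429 (T t152 (T t153 (K a4 (M a60 (F (T t43 (T t398 (T t448 N))))) (K a8 (M a60 (F (T t398 (T t67 (L l52 (L l56 (T t448 N))))))) (K a21 (M a192 (F (T t836 (L l15 (L l347 (T t450 (L l15 (L l347 (T t157 N))))))))) (K a25 (M a192 (F (T t449 (L l15 (T t450 (L l114 (L l289 (T t21 N)))))))) (K a29 (M a192 (F (T t449 (L l114 (L l289 (L l371 (T t21 (L l130 (L l246 (T t160 N)))))))))) (K a38 (M a192 (F (T t836 (T t450 (L l114 (L l289 (T t21 N))))))) (K a42 (M a192 (F (T t449 (T t450 (L l56 (T t157 N)))))) (K a46 (M a192 (F (T t449 (L l114 (L l289 (T t21 (L l26 (L l130 (L l246 (L l408 (T t160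 N))))))))))) (K a51 (M a192 (F (T t57 (L l513 (T t156 (L l415 (T t450 N))))))) N))))))))))))))))⟩
def e0_63__223_74 : Ent 4 := ⟨[a0, a63], [a223, a123], (M a12 (F (T t122 (T t151 (L l427 (T t152 (T t153 (K a4 (M a60 (F (T t43 (T t398 (T t448 N))))) (K a8 (M a60 (F (T t398 (T t67 (L l52 (L l56 (T t448 N))))))) (K a21 (M a192 (F (L l132 (T t221 (T t156 (L l15 (L l347 (T t157 N)))))))) (K a25 (M a192 (F (T t449 (L l132 (T t221 (L l113 (L l289 (T t21 N)))))))) (K a29 (M a192 (F (T t449 (L l113 (L l289 (L l371 (T t21 (L l132 (L l246 (T t2539 N)))))))))) (K a38 (M a192 (F (T t156 (L l26 (L l132 (T t221 (L l113 (L l289 (T t21 N))))))))) (K a42 (M a192 (F (T t449 (L l26 (L l132 (L l390 (T t221 (L l56 (T t157 N))))))))) (K a46 (M a192 (F (T t449 (L l113 (L l289 (T t21 (L l26 (L l132 (L l246 (L l408 (T t2539 N))))))))))) (K a51 (M a106 (F (T t3609 (T t2474 N)))) N))))))))))))))))⟩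
def e0_63__223_75 : Ent 4 := ⟨[a0, a63], [a223, a127], (M a12 (F (T t122 (T t151 (T t152 (T t153 (K a4 (M a60 (F (T t43 (T t398 (T t448 N))))) (K a8 (M a60 (F (T t398 (T t67 (L l52 (L l56 (T t448 N))))))) (K a21 (M a192 (F (T t468 (L l15 (L l347 (T t450 (L l50 (L l144 (T t2473 N))))))))) (K a25 (M a192 (F (T t449 (L l15 (T t450 (L l56 (L l144 (L l246 (L l289 (T t37 N)))))))))) (K a29 (M a192 (F (T t449 (L l144 (L l246 (L l289 (T t37 (L l15 (L l113 (L l371 (T t776 N))))))))))) (K a38 (M a192 (F (T t468 (T t450 (L l26 (L l144 (L l246 (L l289 (T t37 N))))))))) (K a42 (M a192 (F (T t449 (T t450 (L l26 (L l144 (L l390 (T t2473 N)))))))) (K a46 (M a192 (F (T t449 (L l26 (L l144 (L l246 (L l289 (L l408 (T t37 (L l113 (T t776 N))))))))))) (K a51 (M a192 (F (T t161 (L l138 (L l513 (T t156 (L l144 (L l246 (L l289 (L l439 (T t37 N))))))))))) N)))))))))))))))⟩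
def e0_63__223_76 : Ent 4 := ⟨[a0, a63], [a223, a128], (M a12 (F (T t122 (T t151 (T t152 (T t153 (K a4 (M a60 (F (T t43 (T t398 (T t448 N))))) (K a8 (M a60 (F (T t398 (T t67 (L l52 (L l56 (T t448 N))))))) (K a21 (M a166 (F (T t2793 (L l289 (T t2543 (L l15 (T t2541 N))))))) (K a25 (M a48 (F (T t550 (L l15 (T t1 (L l12 (L l56 (T t866 N)))))))) (K a29 (M a48 (F (T t2 (T t550 (T t866 N))))) (K a38 (M a48 (F (T t1580 (L l26 (T t2 (L l21 (L l50 (T t868 N)))))))) (K a42 (M a166 (F (T t2542 (L l56 (L l289 (T t2543 (L l56 (T t2541 N)))))))) (K a46 (M a48 (F (T t550 (T t1 (L l26 (T t866 N)))))) (K a51 (M a16 (F (T t112 (L l39 (L l362 (T t871 (T t872 N))))))) N)))))))))))))))⟩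
def e0_63__223_77 : Ent 4 := ⟨[a0, a63], [a223, a129], (M a149 (F (L l246 (T t25 (L l152 (L l309 (T t175 (L l246 (L l289 (T t176 (L l289 (T t177 (K a192 (M a3 (F (T t85 (L l152 (L l292 (L l305 (T t615 (L l246 (L l292 (L l296 (L l367 (T t616 (L l246 (L l292 (L l296 (T t1244 N)))))))))))))))) (K a21 (M a48 (F (T t964 (L l152 (T t13 (L l18 (L l152 (L l289 (L l368 (T t14 N)))))))))) (K a85 (M a16 (F (L l361 (T t97 (L l144 (L l246 (T t190 (L l94 (T t278 N))))))))) (K a213 (Fr a106 a192 l519 (Fr a42 a21 l68 (Fr a170 a234 l390 (Fr a255 a85 l476 (V t582))))) (K a42 (M a48 (F (L l309 (T t11 (L l152 (L l390 (T t13 (L l54 (L l152 (L l289 (L l368 (T t14 N)))))))))))) (K a106 (M a48 (F (T t1 (L l104 (L l144 (L l246 (L l289 (L l361 (L l390 (T t1285 (L l152 (L l289 (L l368 (L l498 (T t14 N))))))))))))))) (K a170 (M a48 (F (L l309 (T t4 (L l462 (T t1 (L l152 (L l390 (T t13 N))))))))) (K a191 (M a204 (F (T t1043 (L l193 (L l241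 (L l246 (T t1112 N))))))) (K a255 (M a207 (F (T t1286 (L l469 (T t1287 (L l246 (L l296 (T t1288 (L l361 (T t1289 N)))))))))) N)))))))))))))))))))))⟩
def e0_63__223_78 : Ent 4 := ⟨[a0, a63], [a223, a130], (M a48 (F (T t1 (T t2 (L l368 (T t3 (L l361 (T t0 (K a16 (M a85 (F (L l246 (T t89 (L l218 (T t50 (L l246 (T t51 N)))))))) (K a32 (M a60 (F (T t67 (T t64 (L l24 (L l28 (T t65 N))))))) (K a21 (M a192 (F (T t837 (L l47 (L l289 (L l347 (T t20 (L l18 (L l289 (L l368 (T t224 N))))))))))) (K a37 (M a192 (F (T t837 (L l47 (L l289 (T t20 (L l152 (L l289 (T t21 N))))))))) (K a53 (M a192 (F (T t837 (L l152 (L l289 (L l491 (T t21 (L l47 (L l491 (T t525 N)))))))))) (K a26 (M a192 (F (T t837 (L l289 (T t20 (L l152 (L l289 (T t21 N)))))))) (K a42 (M a192 (F (T t837 (L l289 (T t20 (L l54 (L l289 (L l368 (L l390 (T t224 N)))))))))) (K a58 (M a192 (F (T t837 (L l152 (L l289 (T t21 (T t525 N))))))) (K a15 (M a192 (F (T t1800 (L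 l152 (L l483 (T t27 (L l289 (L l325 (T t20 N))))))))) N)))))))))))))))))⟩
def e0_63__223_79 : Ent 4 := ⟨[a0, a63], [a223, a131], (M a48 (F (T t1 (T t2 (L l368 (T t3 (L l361 (T t0 (K a16 (M a85 (F (L l246 (T t88 (L l197 (T t50 (L l246 (T t51 N)))))))) (K a32 (M a60 (F (T t64 (L l307 (T t67 (L l24 (L l28 (T t65 N)))))))) (K a21 (M a192 (F (T t53 (L l152 (T t27 (L l18 (L l289 (L l368 (T t224 N))))))))) (K a37 (M a192 (F (T t53 (L l152 (T t27 (L l152 (L l289 (T t21 N)))))))) (K a53 (M a192 (F (L l368 (T t19 (L l152 (L l289 (L l491 (T t21 (T t6398 N))))))))) (K a26 (M a192 (F (T t56 (L l152 (T t27 (L l152 (L l289 (T t21 N)))))))) (K a42 (M a192 (F (T t56 (L l152 (T t27 (L l54 (L l289 (L l368 (L l390 (T t224 N)))))))))) (K a58 (M a192 (F (L l197 (T t837 (L l152 (L l289 (T t21 (T t525 N)))))))) (K a15 (M a192 (F (T t53 (L l152 (L l483 (T t27 (L l152 (L l289 (L l469 (T t21 N)))))))))) N)))))))))))))))))⟩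
def e0_63__223_80 : Ent 4 := ⟨[a0, a63], [a223, a133], (M a12 (F (T t122 (T t151 (T t152 (T t153 (K a4 (M a60 (F (T t43 (L l339 (T t398 (T t448 N)))))) (K a8 (M a60 (F (T t68 (L l339 (T t398 (L l52 (L l56 (T t448 N)))))))) (K a21 (M a192 (F (T t836 (L l15 (L l199 (L l347 (T t450 (L l15 (L l199 (L l347 (T t157 N))))))))))) (K a25 (M a192 (F (T t836 (L l15 (L l199 (T t450 (L l160 (L l199 (L l289 (T t21 N)))))))))) (K a29 (M a192 (F (T t836 (L l160 (L l199 (L l289 (L l371 (T t21 (L l246 (T t160 N)))))))))) (K a38 (M a192 (F (T t836 (L l199 (T t450 (L l160 (L l199 (L l289 (T t21 N))))))))) (K a42 (M a192 (F (T t836 (L l199 (T t450 (L l56 (L l199 (T t157 N)))))))) (K a46 (M a192 (F (T t836 (L l160 (L l199 (L l289 (T t21 (L l26 (L l246 (L l408 (T t160 N))))))))))) (K a51 (M a192 (F (T t1800 (L l153 (L l160 (L l513 (T t156 (L l199 (L l415 (T t450 N)))))))))) N)))))))))))))))⟩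
def e0_63__223_81 : Ent 4 := ⟨[a0, a63], [a223, a134], (M a149 (F (T t175 (L l246 (T t5 (L l246 (L l289 (T t176 (L l289 (T t177 (K a192 (M a53 (F (T t178 (L l236 (L l289 (L l368 (T t179 (L l236 (L l246 (L l296 (L l314 (T t180 N)))))))))))) (K a21 (M a48 (F (T t4 (T t13 (L l18 (L l289 (L l368 (T t14 N)))))))) (K a85 (M a16 (F (L l361 (T t97 (L l144 (L l246 (T t190 (L l94 (T t278 N))))))))) (K a213 (Fr a106 a192 l519 (Fr a42 a21 l68 (Fr a170 a234 l390 (Fr a255 a85 l476 (V t582))))) (K a42 (M a48 (F (T t11 (L l390 (T t13 (L l54 (L l289 (L l368 (T t14 N))))))))) (K a106 (M a48 (F (T t1 (L l104 (L l144 (L l246 (L l289 (L l361 (L l390 (T t1285 (L l289 (L l368 (L l498 (T t14 N)))))))))))))) (K a170 (M a48 (F (T t4 (L l462 (T t1 (L l390 (T t13 N))))))) (K a191 (M a16 (F (T t112 (L l246 (T t190 (T t278 N)))))) (K a255 (M a207 (F (T t1286 (L l314 (L l469 (T t1287 (L l158 (L l246 (L l296 (T t1288 (L l361 (T t1289 N))))))))))))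 N)))))))))))))))))))⟩
def e0_63__223_82 : Ent 4 := ⟨[a0, a63], [a223, a135], (M a149 (F (T t175 (L l246 (T t5 (L l246 (L l289 (T t176 (L l289 (T t177 (K a192 (M a53 (F (T t178 (L l236 (L l289 (L l368 (T t179 (L l236 (L l246 (L l296 (T t180 N))))))))))) (K a21 (M a48 (F (T t4 (T t13 (L l18 (L l289 (L l368 (T t14 N)))))))) (K a85 (M a16 (F (L l455 (T t112 (L l144 (L l246 (T t190 (L l94 (T t278 N))))))))) (K a213 (Fr a106 a192 l519 (Fr a42 a21 l68 (Fr a170 a234 l390 (Fr a255 a85 l476 (V t582))))) (K a42 (M a48 (F (T t11 (L l390 (T t13 (L l54 (L l289 (L l368 (T t14 N))))))))) (K a106 (M a48 (F (L l337 (T t1 (L l104 (L l144 (L l246 (L l289 (L l361 (L l390 (T t1285 (L l289 (L l368 (L l498 (T t14 N))))))))))))))) (K a170 (M a48 (F (T t4 (L l337 (L l462 (T t1 (L l390 (T t13 N)))))))) (K a191 (M a16 (F (T t112 (L l246 (T t190 (T t278 N)))))) (K a255 (M a207 (F (T t1286 (L l337 (L l469 (T t1287 (L l246 (L l296 (T t1288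 (L l361 (T t1289 N))))))))))) N)))))))))))))))))))⟩
def e0_63__223_83 : Ent 4 := ⟨[a0, a63], [a223, a138], (M a60 (F (T t67 (T t43 (L l330 (T t68 (T t69 (K a20 (M a48 (F (T t2 (T t64 (L l11 (L l330 (T t235 N))))))) (K a40 (M a48 (F (T t64 (L l318 (T t1 (L l52 (L l330 (T t235 N)))))))) (K a21 (M a192 (F (T t72 (L l347 (T t73 (L l160 (L l245 (L l347 (T t74 N))))))))) (K a41 (M a192 (F (T t1333 (L l65 (L l289 (T t35 (T t73 N))))))) (K a61 (M a192 (F (T t72 (L l65 (L l289 (L l515 (T t35 (L l246 (T t80 N))))))))) (K a22 (M a192 (F (T t72 (L l160 (L l289 (T t21 (T t73 N))))))) (K a42 (M a192 (F (T t79 (T t73 (L l22 (L l160 (L l245 (T t74 N)))))))) (K a62 (M a192 (F (T t72 (L l289 (T t35 (L l66 (L l246 (L l516 (T t80 N))))))))) (K a3 (M a192 (F (T t2658 (L l289 (L l475 (T t35 (L l307 (T t73 N)))))))) N))))))))))))))))⟩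
def e0_63__223_84 : Ent 4 := ⟨[a0, a63], [a223, a139], (M a149 (F (T t175 (L l246 (T t5 (L l246 (L l289 (T t176 (L l289 (T t177 (K a192 (M a53 (F (T t178 (L l236 (L l289 (L l368 (T t179 (L l236 (L l246 (L l296 (T t180 N))))))))))) (K a21 (M a48 (F (T t4 (T t13 (L l18 (L l289 (L l368 (T t14 N)))))))) (K a85 (M a16 (F (L l361 (T t97 (L l144 (L l246 (T t190 (L l94 (T t278 N))))))))) (K a213 (Fr a106 a192 l519 (Fr a42 a21 l68 (Fr a170 a234 l390 (Fr a255 a85 l476 (V t582))))) (K a42 (M a48 (F (T t11 (L l390 (T t13 (L l54 (L l289 (L l368 (T t14 N))))))))) (K a106 (M a48 (F (T t1 (L l104 (L l144 (L l246 (L l289 (L l361 (L l390 (T t1285 (L l289 (L l368 (L l498 (T t14 N)))))))))))))) (K a170 (M a48 (F (T t4 (L l462 (T t1 (L l390 (T t13 N))))))) (K a191 (M a16 (F (T t112 (L l246 (T t190 (T t278 N)))))) (K a255 (M a207 (F (T t1286 (L l469 (T t1287 (L l154 (L l246 (L l296 (T t1288 (L l361 (T t1289 N))))))))))) N)))))))))))))))))))⟩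
def e0_63__223_85 : Ent 4 := ⟨[a0, a63], [a223, a143], (M a12 (F (T t122 (T t151 (T t152 (T t153 (K a4 (M a60 (F (T t43 (L l325 (T t398 (T t448 N)))))) (K a8 (M a60 (F (T t68 (L l325 (T t398 (L l52 (L l56 (T t448 N)))))))) (K a21 (M a192 (F (T t468 (L l15 (L l347 (T t450 (L l15 (L l347 (T t157 N))))))))) (K a25 (M a192 (F (T t449 (L l15 (T t450 (L l160 (L l289 (T t21 N)))))))) (K a29 (M a192 (F (T t449 (L l160 (L l289 (L l371 (T t21 (L l246 (T t160 N))))))))) (K a38 (M a192 (F (T t468 (T t450 (L l160 (L l289 (T t21 N))))))) (K a42 (M a192 (F (T t449 (T t450 (L l56 (T t157 N)))))) (K a46 (M a192 (F (T t449 (L l160 (L l289 (T t21 (L l26 (L l246 (L l408 (T t160 N)))))))))) (K a51 (M a192 (F (T t576 (L l160 (L l513 (T t156 (L l160 (L l289 (L l439 (T t21 N)))))))))) N)))))))))))))))⟩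
def e0_63__223_86 : Ent 4 := ⟨[a0, a63], [a223, a144], (M a12 (F (T t122 (T t151 (T t152 (T t153 (K a4 (M a60 (F (T t43 (T t398 (T t448 N))))) (K a8 (M a60 (F (T t398 (T t67 (L l52 (L l56 (T t448 N))))))) (K a21 (M a192 (F (T t836 (L l15 (L l170 (L l347 (T t450 (L l15 (L l170 (L l347 (T t157 N))))))))))) (K a25 (M a192 (F (T t449 (L l15 (L l170 (T t450 (L l170 (L l192 (L l289 (T t21 N)))))))))) (K a29 (M a192 (F (T t449 (L l170 (L l192 (L l289 (L l371 (T t21 (L l246 (T t160 N)))))))))) (K a38 (M a192 (F (T t836 (L l170 (T t450 (L l170 (L l192 (L l289 (T t21 N))))))))) (K a42 (M a192 (F (T t449 (L l170 (T t450 (L l56 (L l170 (T t157 N)))))))) (K a46 (M a192 (F (T t449 (L l170 (L l192 (L l289 (T t21 (L l26 (L l246 (L l408 (T t160 N))))))))))) (K a51 (M a192 (F (T t1800 (L l192 (L l513 (T t156 (L l170 (L l415 (T t450 N))))))))) N)))))))))))))))⟩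
def e0_63__223_87 : Ent 4 := ⟨[a0, a63], [a223, a145], (M a149 (F (L l246 (T t25 (L l196 (L l489 (T t175 (L l246 (L l289 (T t176 (L l289 (T t177 (K a192 (M a51 (F (T t1355 (L l196 (L l232 (L l341 (T t2011 (L l232 (L l246 (L l296 (T t2012 (L l232 (L l241 (L l246 (L l296 (T t2013 N)))))))))))))))) (K a21 (M a48 (F (T t964 (L l162 (L l196 (T t13 (L l18 (L l196 (L l289 (L l368 (T t14 N))))))))))) (K a85 (M a16 (F (L l361 (T t97 (L l144 (L l246 (L l345 (T t190 (L l94 (L l162 (T t278 N))))))))))) (K a213 (Fr a106 a192 l519 (Fr a42 a21 l68 (Fr a170 a234 l390 (Fr a255 a85 l476 (V t582))))) (K a42 (M a48 (F (L l489 (T t187 (L l162 (L l196 (L l390 (T t13 (L l54 (L l196 (L l289 (L l368 (T t14 N))))))))))))) (K a106 (M a48 (F (T t1 (L l104 (L l144 (L l246 (L l289 (L l361 (L l390 (T t1285 (L l196 (L l289 (L l368 (L l498 (T t14 N))))))))))))))) (K a170 (M a48 (F (L l489 (T t4 (L l462 (T t1 (L l162 (L l196 (L l390 (T t13 N))))))))))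 (K a191 (M a252 (F (T t940 (L l193 (L l246 (T t941 N)))))) (K a255 (M a207 (F (T t2337 (L l469 (T t1287 (L l162 (L l246 (L l296 (T t1288 (L l162 (L l361 (T t1289 N)))))))))))) N)))))))))))))))))))))⟩
def e0_63__223_88 : Ent 4 := ⟨[a0, a63], [a223, a146], (M a149 (F (T t175 (L l246 (T t5 (L l246 (L l289 (T t176 (L l289 (T t177 (K a192 (M a53 (F (T t178 (L l236 (L l289 (L l344 (L l368 (T t179 (L l236 (L l246 (L l296 (T t180 N)))))))))))) (K a21 (M a48 (F (T t4 (L l162 (T t13 (L l18 (L l289 (L l344 (L l368 (T t14 N)))))))))) (K a85 (M a16 (F (L l361 (T t97 (L l144 (L l246 (T t190 (L l94 (L l162 (T t278 N)))))))))) (K a213 (Fr a106 a192 l519 (Fr a42 a21 l68 (Fr a170 a234 l390 (Fr a255 a85 l476 (V t582))))) (K a42 (M a48 (F (T t187 (L l162 (L l390 (T t13 (L l54 (L l289 (L l344 (L l368 (T t14 N))))))))))) (K a106 (M a48 (F (T t1 (L l104 (L l144 (L l246 (L l289 (L l361 (L l390 (T t1285 (L l289 (L l344 (L l368 (L l498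 (T t14 N))))))))))))))) (K a170 (M a48 (F (T t4 (L l462 (T t1 (L l162 (L l390 (T t13 N)))))))) (K a191 (M a16 (F (T t112 (L l246 (T t190 (L l162 (T t278 N))))))) (K a255 (M a207 (F (T t2337 (L l469 (T t1287 (L l162 (L l246 (L l296 (T t1288 (L l162 (L l361 (T t1289 N)))))))))))) N)))))))))))))))))))⟩
def e0_63__223_89 : Ent 4 := ⟨[a0, a63], [a223, a147], (M a149 (F (T t175 (L l246 (T t5 (L l246 (L l289 (T t176 (L l289 (T t177 (K a192 (M a53 (F (T t178 (L l236 (L l289 (L l368 (T t179 (L l236 (L l246 (L l296 (T t180 N))))))))))) (K a21 (M a48 (F (T t4 (L l162 (T t13 (L l18 (L l289 (L l368 (T t14 N))))))))) (K a85 (M a16 (F (L l361 (T t97 (L l144 (L l246 (T t190 (L l94 (L l162 (T t278 N)))))))))) (K a213 (Fr a106 a192 l519 (Fr a42 a21 l68 (Fr a170 a234 l390 (Fr a255 a85 l476 (V t582))))) (K a42 (M a48 (F (T t187 (L l162 (L l390 (T t13 (L l54 (L l289 (L l368 (T t14 N)))))))))) (K a106 (M a48 (F (T t1 (L l104 (L l144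 (L l169 (L l246 (L l289 (L l361 (L l390 (T t1285 (L l289 (L l368 (L l498 (T t14 N))))))))))))))) (K a170 (M a48 (F (T t4 (L l462 (T t1 (L l162 (L l390 (T t13 N)))))))) (K a191 (M a204 (F (T t1043 (L l162 (L l241 (L l246 (T t1112 N))))))) (K a255 (M a207 (F (T t2337 (L l469 (T t1287 (L l162 (L l246 (L l296 (T t1288 (L l162 (L l361 (T t1289 N)))))))))))) N)))))))))))))))))))⟩
def e0_63__223_90 : Ent 4 := ⟨[a0, a63], [a223, a149], (M a12 (F (T t151 (L l347 (L l371 (T t122 (L l347 (T t152 (L l495 (T t153 (K a4 (M a60 (F (T t680 (L l46 (L l50 (L l347 (T t67 (L l351 (T t448 N))))))))) (K a8 (M a60 (F (T t680 (L l347 (T t67 (L l52 (L l56 (L l351 (T t448 N))))))))) (K a21 (M a85 (F (T t1601 (L l220 (L l362 (T t124 (L l15 (L l202 (L l220 (L l371 (T t2301 (L l15 (L l371 (T t2302 N)))))))))))))) (K a25 (M a48 (F (T t550 (L l15 (L l347 (L l491 (T t1 (L l12 (L l56 (T t866 N)))))))))) (K a29 (M a48 (L l371 (F (T t2 (T t550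 (T t866 (K a209 (M a89 (F (T t2 (L l272 (T t863 N))))) (K a89 (M a209 (F (T t2 (L l356 (L l368 (T t445 (L l356 (T t866 N)))))))) N)))))))) (K a38 (M a48 (F (T t1580 (L l26 (T t2 (L l21 (L l50 (L l347 (L l491 (T t868 N)))))))))) (K a42 (M a255 (F (L l362 (T t2124 (L l347 (L l368 (T t2134 (L l56 (L l220 (L l371 (L l390 (T t2032 N)))))))))))) (K a46 (M a48 (F (T t550 (L l347 (L l491 (T t1 (L l26 (T t866 N)))))))) (K a51 (M a16 (F (T t112 (L l39 (L l362 (T t871 (T t872 N))))))) N)))))))))))))))))))⟩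
def e0_63__223_91 : Ent 4 := ⟨[a0, a63], [a223, a150], (M a48 (F (T t1 (T t2 (L l368 (T t3 (L l361 (T t0 (K a16 (M a85 (F (L l218 (T t90 (L l246 (T t51 (L l218 (T t50 N)))))))) (K a32 (M a60 (F (T t64 (L l350 (T t67 (L l24 (L l28 (T t65 N)))))))) (K a21 (M a192 (F (T t27 (L l47 (L l163 (L l289 (L l347 (T t20 (L l18 (L l289 (L l368 (L l516 (T t224 N))))))))))))) (K a37 (M a192 (F (T t27 (L l47 (L l163 (L l289 (T t20 (L l163 (L l289 (T t21 N)))))))))) (K a53 (M a192 (F (T t837 (L l163 (L l289 (L l491 (T t21 (L l47 (L l163 (L l491 (T t525 N))))))))))) (K a26 (M a192 (F (T t27 (L l163 (L l289 (T t20 (L l163 (L l289 (T t21 N))))))))) (K a42 (M a192 (F (T t837 (L l163 (L l289 (T t20 (L l54 (L l289 (L l368 (L l390 (L l516 (T t224 N)))))))))))) (K a58 (M a192 (F (T t837 (L l163 (L l289 (T t21 (L l163 (T t525 N)))))))) (K a15 (M a192 (F (T t1922 (L l163 (L l289 (L l325 (T t20 (L l163 (L l289 (L l469 (T t21 N)))))))))))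 N)))))))))))))))))⟩
def e0_63__223_92 : Ent 4 := ⟨[a0, a63], [a223, a151], (M a60 (F (T t67 (L l349 (T t43 (T t68 (T t69 (K a20 (M a48 (F (T t2 (T t64 (L l11 (T t235 N)))))) (K a40 (M a48 (F (T t1 (T t64 (L l52 (T t235 N)))))) (K a21 (M a192 (F (T t72 (L l65 (L l163 (L l347 (T t569 (L l11 (T t1541 N))))))))) (K a41 (M a192 (F (T t1333 (L l219 (L l289 (T t202 (L l65 (L l163 (T t569 N))))))))) (K a61 (M a192 (F (T t72 (L l246 (L l289 (T t37 (L l65 (L l163 (L l515 (T t6399 N)))))))))) (K a22 (M a192 (F (T t72 (L l66 (L l246 (L l289 (T t37 (L l163 (T t569 N))))))))) (K a42 (M a192 (F (T t1333 (L l163 (T t569 (L l66 (L l390 (T t1541 N)))))))) (K a62 (M a192 (F (T t72 (L l66 (L l246 (L l289 (L l516 (T t37 (L l163 (T t6399 N)))))))))) (K a3 (M a149 (F (T t5317 (L l246 (T t1256 N))))) N))))))))))))))))⟩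
def e0_63__223_93 : Ent 4 := ⟨[a0, a63], [a223, a154], (M a12 (L l368 (F (T t122 (T t151 (T t152 (T t153 (K a4 (M a85 (F (L l206 (T t90 (L l246 (L l362 (T t154 (L l206 (L l362 (T t124 N)))))))))) (K a8 (M a85 (F (L l289 (T t52 (L l206 (L l362 (L l464 (T t124 (L l56 (L l246 (L l362 (T t154 N)))))))))))) (K a21 (M a85 (F (T t1601 (L l15 (T t574 (L l206 (L l362 (T t124 N)))))))) (K a25 (M a85 (F (L l206 (T t90 (L l289 (L l362 (T t1373 (L l15 (L l56 (T t574 N)))))))))) (K a29 (M a85 (F (T t1601 (L l246 (T t88 (L l246 (T t572 N))))))) (K a38 (M a85 (F (T t1601 (L l26 (L l246 (T t88 (T t574 N))))))) (K a42 (M a85 (F (L l56 (T t1601 (L l206 (L l362 (L l390 (T t124 (L l56 (T t574 N)))))))))) (K a46 (M a85 (F (T t1601 (L l26 (L l246 (T t88 (L l26 (L l246 (T t572 N))))))))) (K a51 (M a16 (F (L l498 (T t112 (L l39 (L l362 (T t871 (L l354 (L l356 (T t872 N)))))))))) (K a16 (M a85 (F (T t153 (L l246 (T t88 (L l344 (L l356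 (T t123 N)))))))) (K a85 (M a16 (F (T t153 (L l362 (T t871 (L l361 (T t97 N))))))) N))))))))))))))))))⟩
def e0_63__223_94 : Ent 4 := ⟨[a0, a63], [a223, a155], (M a48 (L l367 (F (T t1 (T t2 (L l368 (T t3 (L l361 (T t0 (K a16 (M a85 (L l367 (F (T t90 (T t50 (L l246 (T t51 (K a19 (M a87 (L l10 (F (T t50 (L l169 (L l246 (L l364 (T t923 (K a17 (M a18 (F (T t90 (L l41 (L l241 (L l364 (T t6400 N))))))) (K a18 (M a17 (F (T t90 (L l42 (L l499 (T t3334 N)))))) N)))))))))) (K a87 (M a19 (F (T t90 (L l143 (T t50 (L l246 (T t51 N))))))) N))))))))) (K a32 (M a149 (L l367 (F (T t175 (T t11 (L l28 (L l246 (T t6 (K a19 (M a87 (F (T t11 (L l19 (L l28 (L l246 (T t6401 N))))))) (K a87 (M a19 (F (T t11 (T t175 (L l28 (L l246 (T t6 N))))))) N)))))))))) (K a21 (M a255 (L l367 (F (T t1160 (L l347 (L l368 (L l511 (T t547 (L l347 (L l368 (T t3730 (K a19 (M a87 (F (T t511 (L l207 (T t1188 N))))) (K a87 (M a19 (F (T t511 (L l87 (L l347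 (L l368 (L l511 (T t547 (L l87 (L l143 (L l347 (L l368 (T t3730 N))))))))))))) N))))))))))))) (K a37 (M a85 (L l367 (F (T t90 (T t50 (L l28 (L l246 (T t51 (K a19 (M a87 (F (T t90 (L l369 (T t4284 N))))) (K a87 (M a19 (F (T t2029 (L l25 (L l28 (L l355 (T t3732 N))))))) N)))))))))) (K a53 (M a3 (L l367 (F (T t137 (L l511 (T t86 (T t87 (K a19 (M a87 (F (T t137 (L l207 (L l289 (L l368 (L l419 (L l511 (T t6402 N))))))))) (K a87 (M a19 (F (T t6403 (L l47 (T t358 N))))) N))))))))) (K a26 (M a3 (L l367 (F (L l54 (T t137 (L l72 (L l511 (T t86 (L l16 (L l18 (T t560 (K a19 (M a87 (F (L l54 (T t665 (L l207 (L l289 (L l368 (L l511 (T t6402 N))))))))) (K a87 (M a19 (F (T t6403 (L l54 (T t665 N))))) N))))))))))))) (K a42 (M a255 (L l367 (F (T t1169 (L l368 (L l511 (T t547 (L l54 (L l368 (T t3730 (K a19 (M a87 (F (T t511 (L l207 (L l390 (T t1188 N)))))) (K a87 (M a19 (F (T t511 (L l87 (L l368 (L l511 (T t547 (L l54 (L l87 (L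 l143 (L l368 (T t3730 N)))))))))))) N)))))))))))) (K a58 (M a3 (L l367 (F (T t353 (L l368 (L l511 (T t348 (L l54 (T t87 (K a19 (M a87 (F (L l36 (T t358 (L l207 (L l289 (L l368 (L l511 (T t6402 N))))))))) (K a87 (M a19 (F (T t6403 (L l36 (T t358 N))))) N))))))))))) (K a15 (M a149 (L l367 (F (T t4854 (L l339 (T t11 (L l289 (L l368 (T t14 (K a19 (M a87 (F (T t964 (L l19 (L l246 (T t6401 N)))))) (K a87 (M a19 (F (T t964 (L l73 (L l355 (T t3732 N)))))) N))))))))))) (K a19 (M a87 (F (T t1 (T t2 (L l10 (L l368 (T t3 (L l17 (L l361 (T t0 (K a16 (M a85 (L l10 (F (T t50 (L l169 (L l246 (L l364 (T t923 (K a17 (M a18 (F (T t90 (L l41 (L l241 (L l364 (T t6400 N))))))) (K a18 (M a17 (F (T t90 (L l42 (L l499 (T t3334 N)))))) N)))))))))) (K a32 (M a1 (F (L l207 (L l404 (T t6166 (L l28 (T t536 N))))))) (K a21 (M a85 (F (T t50 (L l369 (T t4284 N))))) (K a37 (M a1 (F (L l207 (T t6166 (L l25 (L l28 (T t536 N))))))) (K a53 (M a85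 (F (T t90 (L l369 (T t4284 N))))) (K a26 (M a85 (F (T t90 (L l369 (T t4284 N))))) (K a42 (M a85 (F (L l369 (T t4284 (L l390 (T t50 N)))))) (K a58 (M a85 (F (T t90 (L l369 (T t4284 N))))) (K a15 (M a1 (F (L l207 (T t6166 (T t536 N))))) N))))))))))))))))))) (K a87 (M a19 (F (T t1 (L l499 (T t3745 (L l355 (T t3732 (L l361 (T t3746 (K a16 (M a85 (F (T t90 (L l143 (T t50 (L l246 (T t51 N))))))) N)))))))))) N))))))))))))))))))))⟩
def e0_63__223_95 : Ent 4 := ⟨[a0, a63], [a223, a159], (M a12 (L l361 (F (T t122 (T t151 (T t152 (T t153 (K a4 (M a31 (F (T t2312 (L l362 (T t1369 (L l46 (T t3445 N))))))) (K a8 (M a31 (F (T t3446 (L l56 (L l368 (T t2084 (L l56 (T t3445 N)))))))) (K a21 (M a85 (L l361 (F (T t123 (L l362 (T t124 (L l15 (T t574 (K a31 (M a95 (L l18 (F (T t1370 (L l213 (T t3008 (L l13 (L l15 (T t574 (K a16 (M a26 (F (T t2427 (L l213 (L l340 (T t3008 (L l13 (L l15 (T t574 N))))))))) (K a26 (M a16 (F (T t1601 (L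 l354 (L l375 (T t6358 N)))))) N))))))))))) (K a95 (M a31 (F (T t2427 (L l65 (T t3446 N))))) N)))))))))) (K a25 (M a31 (F (T t3446 (L l56 (L l368 (T t2084 (L l12 (L l56 (T t3445 N))))))))) (K a29 (M a31 (F (T t2312 (L l59 (T t3860 (L l59 (L l368 (T t4050 (L l362 (T t4051 (L l59 (L l368 (T t4052 N))))))))))))) (K a38 (M a15 (L l361 (F (T t2576 (L l50 (T t731 (T t717 (K a31 (M a95 (F (T t717 (L l13 (L l213 (L l362 (T t6404 N))))))) (K a95 (Fr a31 a47 l61 (V t4532)) N))))))))) (K a42 (M a166 (L l361 (F (T t2470 (L l56 (L l289 (T t2543 (L l56 (T t2541 (K a31 (M a95 (F (T t4358 (L l56 (T t6405 N))))) (K a95 (M a31 (F (T t2470 (L l28 (L l66 (T t3860 N)))))) N))))))))))) (K a46 (M a31 (F (L l23 (T t3860 (L l26 (L l362 (T t4058 (L l23 (L l26 (L l368 (T t2084 (L l26 (L l368 (T t4053 (L l26 (L l368 (T t4052 N))))))))))))))))) (K a51 (M a31 (F (T t2312 (L l39 (L l362 (T t1369 (T t3445 N))))))) (K a31 (M a95 (F (T t151 (L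 l13 (L l18 (T t122 (L l18 (T t152 (T t153 (K a4 (M a85 (F (L l213 (T t3008 (L l246 (L l362 (T t154 N))))))) (K a8 (M a13 (F (L l213 (T t3938 (L l56 (T t3915 N)))))) (K a21 (M a85 (L l18 (F (T t1370 (L l213 (T t3008 (L l13 (L l15 (T t574 (K a16 (M a26 (F (T t2427 (L l213 (L l340 (T t3008 (L l13 (L l15 (T t574 N))))))))) (K a26 (M a16 (F (T t1601 (L l354 (L l375 (T t6358 N)))))) N))))))))))) (K a25 (M a80 (F (T t2526 (L l15 (L l18 (L l289 (L l375 (T t6406 N)))))))) (K a29 (M a28 (F (T t2739 (T t3236 (L l15 (L l17 (L l18 (L l59 (L l367 (T t3237 (L l17 (L l367 (T t3238 N))))))))))))) (K a38 (M a80 (F (T t2526 (L l26 (L l246 (L l375 (T t6407 N))))))) (K a42 (M a92 (F (T t3325 (L l26 (L l241 (L l363 (T t6408 N))))))) (K a46 (M a80 (F (T t2526 (L l26 (L l246 (L l375 (T t6407 N))))))) (K a51 (M a80 (F (T t6409 (L l246 (L l375 (L l489 (T t6407 N))))))) N)))))))))))))))))) (K a95 (M a31 (F (T t151 (L l362 (T t1369 (L l368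 (T t2084 N))))))) N))))))))))))))))))⟩
def e0_63__223_96 : Ent 4 := ⟨[a0, a63], [a223, a160], (M a12 (F (T t122 (T t151 (T t152 (T t153 (K a4 (M a60 (F (T t43 (T t398 (T t448 N))))) (K a8 (M a60 (F (T t398 (T t67 (L l52 (L l56 (T t448 N))))))) (K a21 (M a192 (F (T t836 (L l15 (L l347 (T t450 (L l15 (L l347 (T t157 N))))))))) (K a25 (M a192 (F (T t449 (L l15 (T t450 (L l192 (L l289 (T t21 N)))))))) (K a29 (M a192 (F (T t449 (L l192 (L l289 (L l371 (T t21 (L l246 (T t160 N))))))))) (K a38 (M a192 (F (T t836 (T t450 (L l192 (L l289 (T t21 N))))))) (K a42 (M a192 (F (T t449 (T t450 (L l56 (T t157 N)))))) (K a46 (M a192 (F (T t449 (L l192 (L l289 (T t21 (L l26 (L l246 (L l408 (T t160 N)))))))))) (K a51 (M a192 (F (T t158 (L l192 (L l513 (T t156 (L l192 (L l289 (L l439 (T t21 N)))))))))) N)))))))))))))))⟩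
def e0_63__223_97 : Ent 4 := ⟨[a0, a63], [a223, a161], (M a149 (F (T t175 (L l246 (T t5 (L l246 (L l289 (T t176 (L l289 (T t177 (K a192 (M a53 (F (T t178 (L l236 (L l289 (L l368 (T t179 (L l236 (L l246 (L l296 (T t180 N))))))))))) (K a21 (M a48 (F (T t4 (L l453 (T t13 (L l18 (L l289 (L l368 (T t14 N))))))))) (K a85 (M a16 (F (L l361 (T t97 (L l144 (L l246 (L l453 (T t190 (L l94 (L l172 (T t278 N))))))))))) (K a213 (Fr a106 a192 l519 (Fr a42 a21 l68 (Fr a170 a234 l390 (Fr a255 a85 l476 (V t582))))) (K a42 (M a48 (F (T t11 (L l390 (L l453 (T t13 (L l54 (L l289 (L l368 (T t14 N)))))))))) (K a106 (M a48 (F (T t1 (L l104 (L l144 (L l246 (L l289 (L l361 (L l390 (T t1285 (L l289 (L l368 (L l498 (T t14 N)))))))))))))) (K a170 (M a48 (F (T t4 (L l462 (T t1 (L l390 (L l453 (T t13 N)))))))) (K a191 (M a252 (F (T t1850 (L l193 (L l246 (T t941 N)))))) (K a255 (M a207 (F (T t1286 (L l469 (T t1287 (L l246 (L l296 (T t1288 (L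 l361 (T t1289 N)))))))))) N)))))))))))))))))))⟩
def e0_63__223_98 : Ent 4 := ⟨[a0, a63], [a223, a162], (M a12 (F (T t151 (L l378 (T t122 (T t152 (T t153 (K a4 (M a60 (F (T t43 (T t398 (T t448 N))))) (K a8 (M a60 (F (T t398 (T t67 (L l52 (L l56 (T t448 N))))))) (K a21 (M a192 (F (T t836 (L l15 (L l347 (L l378 (T t450 (L l15 (L l347 (L l378 (T t157 N))))))))))) (K a25 (M a192 (F (T t449 (L l15 (L l378 (T t450 (L l196 (L l289 (T t21 N))))))))) (K a29 (M a192 (F (T t449 (L l196 (L l289 (L l371 (T t21 (L l246 (T t160 N))))))))) (K a38 (M a192 (F (T t836 (L l378 (T t450 (L l196 (L l289 (T t21 N)))))))) (K a42 (M a192 (F (T t449 (L l378 (T t450 (L l56 (L l378 (T t157 N)))))))) (K a46 (M a192 (F (T t449 (L l196 (L l289 (T t21 (L l26 (L l246 (L l408 (T t160 N)))))))))) (K a51 (M a192 (F (T t576 (L l196 (L l513 (T t156 (L l196 (L l289 (L l439 (T t21 N)))))))))) N))))))))))))))))⟩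
def e0_63__223_99 : Ent 4 := ⟨[a0, a63], [a223, a163], (M a149 (F (T t175 (L l246 (T t5 (L l246 (L l289 (T t176 (L l289 (T t177 (K a192 (M a53 (F (T t178 (L l236 (L l289 (L l368 (T t179 (L l236 (L l246 (L l296 (T t180 N))))))))))) (K a21 (M a48 (F (T t4 (T t13 (L l18 (L l289 (L l368 (T t14 N)))))))) (K a85 (M a16 (F (L l361 (T t97 (L l144 (L l246 (T t190 (L l94 (L l172 (T t278 N)))))))))) (K a213 (Fr a106 a192 l519 (Fr a42 a21 l68 (Fr a170 a234 l390 (Fr a255 a85 l476 (V t582))))) (K a42 (M a48 (F (T t11 (L l390 (T t13 (L l54 (L l289 (L l368 (T t14 N))))))))) (K a106 (M a48 (F (T t1 (L l104 (L l144 (L l246 (L l289 (L l361 (L l390 (T t1285 (L l289 (L l368 (L l498 (T t14 N)))))))))))))) (K a170 (M a48 (F (T t4 (L l462 (T t1 (L l390 (T t13 N))))))) (K a191 (M a16 (F (T t112 (L l246 (T t190 (L l172 (T t278 N))))))) (K a255 (M a207 (F (T t1286 (L l469 (T t1287 (L l246 (L l296 (T t1288 (L l361 (T t1289 N)))))))))) N)))))))))))))))))))⟩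
def e0_63__223_100 : Ent 4 := ⟨[a0, a63], [a223, a165], (M a12 (F (T t122 (T t151 (T t152 (T t153 (K a4 (M a60 (F (T t43 (L l483 (T t398 (T t448 N)))))) (K a8 (M a60 (F (T t67 (L l483 (T t398 (L l52 (L l56 (T t448 N)))))))) (K a21 (M a192 (F (T t836 (L l15 (L l199 (L l347 (T t450 (L l15 (L l199 (L l347 (T t157 N))))))))))) (K a25 (M a192 (F (T t449 (L l15 (L l199 (T t450 (L l199 (L l289 (T t21 N))))))))) (K a29 (M a192 (F (T t449 (L l199 (L l289 (L l371 (T t21 (L l246 (L l411 (T t160 N)))))))))) (K a38 (M a192 (F (T t156 (L l199 (T t450 (L l199 (L l289 (T t21 N)))))))) (K a42 (M a192 (F (T t449 (L l199 (T t450 (L l56 (L l199 (T t157 N)))))))) (K a46 (M a192 (F (T t449 (L l199 (L l289 (T t21 (L l26 (L l246 (L l408 (L l411 (T t160 N))))))))))) (K a51 (M a192 (F (T t1725 (L l199 (L l415 (T t450 (L l199 (L l289 (L l439 (T t21 N)))))))))) N)))))))))))))))⟩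
def e0_63__223_101 : Ent 4 := ⟨[a0, a63], [a223, a166], (M a48 (F (T t1 (T t2 (L l368 (T t3 (L l361 (T t0 (K a16 (M a85 (F (L l178 (T t90 (L l246 (T t51 (L l178 (T t50 N)))))))) (K a32 (M a60 (F (T t67 (T t64 (L l24 (L l28 (T t65 N))))))) (K a21 (M a192 (F (T t27 (L l47 (L l202 (L l289 (L l347 (T t20 (L l18 (L l289 (L l368 (L l408 (T t224 N))))))))))))) (K a37 (M a192 (F (T t27 (L l47 (L l202 (L l289 (T t20 (L l202 (L l289 (T t21 N)))))))))) (K a53 (M a192 (F (T t837 (L l202 (L l289 (L l491 (T t21 (L l47 (L l202 (L l491 (T t525 N))))))))))) (K a26 (M a192 (F (T t27 (L l202 (L l289 (T t20 (L l202 (L l289 (T t21 N))))))))) (K a42 (M a192 (F (T t837 (L l202 (L l289 (T t20 (L l54 (L l289 (L l368 (L l390 (L l408 (T t224 N)))))))))))) (K a58 (M a192 (F (T t837 (L l202 (L l289 (T t21 (L l202 (T t525 N)))))))) (K a15 (M a192 (F (T t1922 (L l202 (L l289 (L l325 (T t20 (L l202 (L l289 (L l469 (T t21 N))))))))))) N)))))))))))))))))⟩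
def e0_63__223_102 : Ent 4 := ⟨[a0, a63], [a223, a167], (M a149 (F (T t175 (L l246 (T t5 (L l246 (L l289 (T t176 (L l289 (T t177 (K a192 (M a53 (F (T t178 (L l236 (L l289 (L l368 (T t179 (L l236 (L l246 (L l296 (T t180 N))))))))))) (K a21 (M a48 (F (T t4 (T t13 (L l18 (L l289 (L l368 (T t14 N)))))))) (K a85 (M a16 (F (L l455 (T t112 (L l144 (L l246 (T t190 (L l94 (T t278 N))))))))) (K a213 (Fr a106 a192 l519 (Fr a42 a21 l68 (Fr a170 a234 l390 (Fr a255 a85 l476 (V t582))))) (K a42 (M a48 (F (T t11 (L l390 (T t13 (L l54 (L l289 (L l368 (T t14 N))))))))) (K a106 (M a48 (F (L l481 (T t1 (L l104 (L l144 (L l246 (L l289 (L l361 (L l390 (T t1285 (L l289 (L l368 (L l498 (T t14 N))))))))))))))) (K a170 (M a48 (F (T t4 (L l462 (L l481 (T t1 (L l390 (T t13 N)))))))) (K a191 (M a48 (F (T t13 (L l246 (T t6 N))))) (K a255 (M a207 (F (T t1286 (L l469 (L l481 (T t1287 (L l246 (L l296 (T t1288 (L l361 (T t1289 N))))))))))) N)))))))))))))))))))⟩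
def e0_63__223_103 : Ent 4 := ⟨[a0, a63], [a223, a170], (M a12 (F (T t152 (L l402 (T t122 (L l390 (T t151 (L l390 (L l464 (T t153 (K a4 (M a60 (F (T t398 (L l46 (L l50 (T t67 (L l390 (L l392 (T t448 N))))))))) (K a8 (M a60 (L l464 (F (T t398 (T t67 (L l52 (L l56 (L l390 (L l392 (T t448 (K a89 (M a251 (F (T t67 (L l479 (T t680 (L l52 (L l56 (L l390 (L l392 (T t448 N)))))))))) (K a251 (M a89 (F (T t67 (L l316 (T t870 N))))) N)))))))))))) (K a21 (M a192 (F (T t836 (L l390 (T t221 (L l15 (L l220 (L l347 (L l464 (T t157 N)))))))))) (K a25 (M a192 (F (T t449 (L l390 (T t221 (L l15 (L l56 (L l220 (L l464 (T t157 N)))))))))) (K a29 (M a48 (F (T t550 (L l15 (L l462 (T t1 (L l390 (T t866 N)))))))) (K a38 (M a192 (F (T t836 (L l26 (L l390 (T t221 (L l220 (L l464 (T t157 N))))))))) (K a42 (M a106 (F (T t2304 (L l220 (T t2305 (L l56 (L l178 (L l220 (L l464 (T t2306 (L l56 (L l464 (T t4521 N))))))))))))) (K a46 (M a48 (F (T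 t550 (L l462 (T t1 (L l26 (L l390 (T t866 N)))))))) (K a51 (M a192 (F (L l513 (T t449 (L l390 (L l415 (T t221 (L l220 (L l464 (T t157 N)))))))))) N)))))))))))))))))))⟩
def e0_63__223_104 : Ent 4 := ⟨[a0, a63], [a223, a171], (M a48 (F (T t1 (T t2 (L l368 (T t3 (L l361 (T t0 (K a16 (M a85 (F (L l246 (T t88 (L l174 (T t50 (L l246 (T t51 N)))))))) (K a32 (M a60 (F (T t64 (L l391 (L l475 (T t67 (L l24 (L l28 (T t65 N))))))))) (K a21 (M a192 (F (T t27 (L l47 (L l289 (L l347 (T t20 (L l18 (L l289 (L l368 (L l403 (T t224 N)))))))))))) (K a37 (M a192 (F (T t837 (L l47 (L l289 (T t20 (L l289 (L l475 (T t21 N))))))))) (K a53 (M a192 (F (T t837 (L l289 (L l475 (L l491 (T t21 (L l47 (L l491 (T t525 N)))))))))) (K a26 (M a192 (F (T t27 (L l289 (T t20 (L l289 (L l475 (T t21 N)))))))) (K a42 (M a192 (F (T t837 (L l289 (T t20 (L l54 (L l289 (L l368 (L l390 (L l403 (T t224 N))))))))))) (K a58 (M a192 (F (T t837 (L l289 (L l475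 (T t21 (T t525 N))))))) (K a15 (M a192 (F (T t57 (L l483 (T t27 (L l289 (L l325 (T t20 N)))))))) N)))))))))))))))))⟩
def e0_63__223_105 : Ent 4 := ⟨[a0, a63], [a223, a175], (M a12 (F (T t122 (T t151 (T t152 (T t153 (K a4 (M a60 (F (T t43 (L l469 (T t398 (T t448 N)))))) (K a8 (M a60 (F (T t67 (L l469 (T t398 (L l52 (L l56 (T t448 N)))))))) (K a21 (M a192 (F (T t836 (L l15 (L l347 (T t450 (L l15 (L l347 (T t157 N))))))))) (K a25 (M a192 (F (T t449 (L l15 (T t450 (L l289 (L l469 (T t21 N)))))))) (K a29 (M a192 (F (T t449 (L l289 (L l371 (L l469 (T t21 (L l246 (T t160 N))))))))) (K a38 (M a192 (F (T t836 (T t450 (L l289 (L l469 (T t21 N))))))) (K a42 (M a192 (F (T t449 (T t450 (L l56 (T t157 N)))))) (K a46 (M a192 (F (T t449 (L l289 (L l469 (T t21 (L l26 (L l246 (L l408 (T t160 N)))))))))) (K a51 (M a192 (F (T t57 (L l513 (T t156 (L l415 (T t450 N))))))) N)))))))))))))))⟩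
def e0_63__223_106 : Ent 4 := ⟨[a0, a63], [a223, a176], (M a48 (F (T t1 (T t2 (L l368 (T t3 (L l361 (T t0 (K a16 (M a85 (F (L l246 (T t89 (L l190 (T t2029 (L l246 (T t51 N)))))))) (K a32 (M a60 (F (T t67 (T t64 (L l24 (L l28 (T t65 N))))))) (K a21 (M a255 (F (L l190 (T t1160 (L l347 (L l368 (T t547 (L l192 (L l347 (L l368 (T t3730 N))))))))))) (K a37 (M a192 (F (T t53 (L l28 (L l190 (T t1800 (L l192 (L l368 (T t19 N))))))))) (K a53 (M a192 (F (L l192 (L l368 (T t19 (L l47 (L l289 (L l491 (T t35 (T t6398 N)))))))))) (K a26 (M a192 (F (L l289 (T t20 (L l18 (L l192 (L l368 (T t19 (L l18 (L l289 (T t35 N))))))))))) (K a42 (M a255 (F (L l368 (T t547 (L l54 (L l190 (T t1160 (L l54 (L l192 (L l368 (T t3730 N))))))))))) (K a58 (M a12 (F (T t1580 (T t122 (T t146 N))))) (K a15 (M a192 (F (T t53 (L l190 (T t1800 (L l192 (L l368 (L l483 (T t19 N))))))))) N)))))))))))))))))⟩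
def e0_63__223_107 : Ent 4 := ⟨[a0, a63], [a223, a177], (M a149 (F (T t175 (L l246 (T t5 (L l246 (L l289 (T t176 (L l289 (T t177 (K a192 (M a53 (F (T t178 (L l236 (L l289 (L l368 (T t179 (L l187 (L l236 (L l246 (L l296 (T t180 N)))))))))))) (K a21 (M a48 (F (T t4 (L l417 (T t13 (L l18 (L l289 (L l368 (T t14 N))))))))) (K a85 (M a16 (F (L l361 (T t97 (L l144 (L l246 (L l417 (T t190 (L l94 (T t278 N)))))))))) (K a213 (Fr a106 a192 l519 (Fr a42 a21 l68 (Fr a170 a234 l390 (Fr a255 a85 l476 (V t582))))) (K a42 (M a48 (F (T t11 (L l390 (L l417 (T t13 (L l54 (L l289 (L l368 (T t14 N)))))))))) (K a106 (M a48 (F (T t1 (L l104 (L l144 (L l246 (L l289 (L l361 (L l390 (T t1285 (L l289 (L l368 (L l498 (T t14 N)))))))))))))) (K a170 (M a48 (F (T t4 (L l462 (T t1 (L l390 (L l417 (T t13 N)))))))) (K a191 (M a204 (F (T t1043 (L l193 (L l241 (L l246 (T t1112 N))))))) (K a255 (M a207 (F (T t1286 (L l469 (T t1287 (L l246 (L l296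 (T t1288 (L l361 (T t1289 N)))))))))) N)))))))))))))))))))⟩
def e0_63__223_108 : Ent 4 := ⟨[a0, a63], [a223, a178], (M a149 (F (T t175 (L l246 (T t5 (L l246 (L l289 (T t176 (L l289 (T t177 (K a192 (M a53 (F (T t178 (L l236 (L l289 (L l368 (T t179 (L l236 (L l246 (L l296 (T t180 N))))))))))) (K a21 (M a48 (F (T t4 (T t13 (L l18 (L l289 (L l368 (T t14 N)))))))) (K a85 (M a16 (F (L l361 (T t97 (L l144 (L l246 (T t190 (L l94 (T t278 N))))))))) (K a213 (Fr a106 a192 l519 (Fr a42 a21 l68 (Fr a170 a234 l390 (Fr a255 a85 l476 (V t582))))) (K a42 (M a48 (F (T t11 (L l390 (T t13 (L l54 (L l289 (L l368 (T t14 N))))))))) (K a106 (M a48 (F (T t1 (L l104 (L l144 (L l188 (L l246 (L l289 (L l361 (L l390 (T t1285 (L l289 (L l368 (L l498 (T t14 N))))))))))))))) (K a170 (M a48 (F (T t4 (L l462 (T t1 (L l390 (T t13 N))))))) (K a191 (M a16 (F (T t112 (L l246 (T t190 (T t278 N)))))) (K a255 (M a207 (F (T t1286 (L l469 (T t1287 (L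 l246 (L l296 (T t1288 (L l361 (T t1289 N)))))))))) N)))))))))))))))))))⟩
def e0_63__223_109 : Ent 4 := ⟨[a0, a63], [a223, a179], (M a48 (F (T t1 (T t2 (L l368 (T t3 (L l361 (T t0 (K a16 (M a85 (F (L l246 (T t88 (L l182 (T t50 (L l246 (T t51 N)))))))) (K a32 (M a60 (F (T t67 (L l415 (T t64 (L l24 (L l28 (T t65 N)))))))) (K a21 (M a192 (F (T t53 (L l196 (T t27 (L l18 (L l289 (L l368 (T t224 N))))))))) (K a37 (M a192 (F (T t53 (L l196 (T t27 (L l196 (L l289 (T t21 N)))))))) (K a53 (M a192 (F (L l368 (T t19 (L l196 (L l289 (L l491 (T t21 (T t6398 N))))))))) (K a26 (M a192 (F (T t56 (L l196 (T t27 (L l196 (L l289 (T t21 N)))))))) (K a42 (M a192 (F (T t56 (L l196 (T t27 (L l54 (L l289 (L l368 (L l390 (T t224 N)))))))))) (K a58 (M a192 (F (L l182 (T t837 (L l196 (L l289 (T t21 (T t525 N)))))))) (K a15 (M a192 (F (T t53 (L l196 (L l483 (T t27 (L l196 (L l289 (L l469 (T t21 N)))))))))) N)))))))))))))))))⟩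
def e0_63__223_110 : Ent 4 := ⟨[a0, a63], [a223, a181], (M a12 (F (T t122 (T t151 (T t152 (L l423 (T t153 (K a4 (M a60 (F (T t43 (L l443 (T t398 (T t448 N)))))) (K a8 (M a60 (F (T t680 (T t67 (L l52 (L l56 (T t448 N))))))) (K a21 (M a192 (F (T t836 (L l15 (L l199 (L l347 (T t450 (L l15 (L l199 (L l347 (T t157 N))))))))))) (K a25 (M a192 (F (T t449 (L l15 (L l199 (T t450 (L l199 (L l289 (T t21 N))))))))) (K a29 (M a192 (F (T t449 (L l199 (L l289 (L l371 (T t21 (L l183 (L l246 (T t160 N)))))))))) (K a38 (M a192 (F (T t156 (L l199 (T t450 (L l199 (L l289 (T t21 N)))))))) (K a42 (M a192 (F (T t449 (L l199 (T t450 (L l56 (L l199 (T t157 N)))))))) (K a46 (M a192 (F (T t449 (L l199 (L l289 (T t21 (L l26 (L l183 (L l246 (L l408 (T t160 N))))))))))) (K a51 (M a192 (F (T t155 (L l513 (T t156 (L l199 (L l289 (L l439 (T t21 N))))))))) N))))))))))))))))⟩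
def e0_63__223_111 : Ent 4 := ⟨[a0, a63], [a223, a182], (M a149 (F (T t175 (L l246 (T t5 (L l246 (L l289 (T t176 (L l289 (T t177 (K a192 (M a53 (F (T t178 (L l236 (L l289 (L l368 (T t179 (L l183 (L l236 (L l246 (L l296 (T t180 N)))))))))))) (K a21 (M a48 (F (T t4 (T t13 (L l18 (L l289 (L l368 (T t14 N)))))))) (K a85 (M a16 (F (L l361 (T t97 (L l144 (L l246 (T t190 (L l94 (T t278 N))))))))) (K a213 (Fr a106 a192 l519 (Fr a42 a21 l68 (Fr a170 a234 l390 (Fr a255 a85 l476 (V t582))))) (K a42 (M a48 (F (T t11 (L l390 (T t13 (L l54 (L l289 (L l368 (T t14 N))))))))) (K a106 (M a48 (F (T t1 (L l104 (L l144 (L l188 (L l246 (L l289 (L l361 (L l390 (T t1285 (L l289 (L l368 (L l498 (T t14 N))))))))))))))) (K a170 (M a48 (F (T t4 (L l462 (T t1 (L l390 (T t13 N))))))) (K a191 (M a16 (F (T t112 (L l246 (T t190 (T t278 N)))))) (K a255 (M a207 (F (T t1286 (L l469 (T t1287 (L l246 (L l296 (T t1288 (L l361 (T t1289 N))))))))))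 N)))))))))))))))))))⟩
def e0_63__223_112 : Ent 4 := ⟨[a0, a63], [a223, a183], (M a12 (F (T t122 (T t151 (T t152 (L l421 (T t153 (K a4 (M a60 (F (T t43 (T t398 (T t448 N))))) (K a8 (M a60 (F (T t398 (T t67 (L l52 (L l56 (T t448 N))))))) (K a21 (M a192 (F (T t836 (L l15 (L l202 (L l347 (T t450 (L l50 (T t2473 N))))))))) (K a25 (M a192 (F (T t836 (L l15 (L l202 (T t450 (L l189 (L l289 (T t202 N))))))))) (K a29 (M a192 (F (T t836 (L l189 (L l289 (T t202 (L l15 (L l202 (L l371 (T t2569 N)))))))))) (K a38 (M a192 (F (T t836 (L l202 (T t450 (L l189 (L l289 (T t202 N)))))))) (K a42 (M a192 (F (T t836 (L l202 (T t450 (L l26 (L l390 (T t2473 N)))))))) (K a46 (M a192 (F (T t836 (L l189 (L l289 (L l408 (T t202 (L l202 (T t2569 N))))))))) (K a51 (M a149 (F (T t4374 (L l246 (L l362 (T t960 N)))))) N))))))))))))))))⟩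
def e0_63__223_113 : Ent 4 := ⟨[a0, a63], [a223, a186], (M a12 (F (T t122 (T t151 (T t152 (T t153 (K a4 (M a60 (F (T t43 (T t398 (T t448 N))))) (K a8 (M a60 (F (T t398 (T t67 (L l52 (L l56 (T t448 N))))))) (K a21 (M a192 (F (T t836 (L l15 (L l347 (T t450 (L l15 (L l347 (T t157 N))))))))) (K a25 (M a192 (F (T t449 (L l15 (T t450 (L l289 (L l440 (T t21 N)))))))) (K a29 (M a192 (F (T t449 (L l289 (L l371 (L l440 (T t21 (L l246 (T t160 N))))))))) (K a38 (M a192 (F (T t836 (T t450 (L l289 (L l440 (T t21 N))))))) (K a42 (M a192 (F (T t449 (T t450 (L l56 (T t157 N)))))) (K a46 (M a192 (F (T t449 (L l289 (L l440 (T t21 (L l26 (L l246 (L l408 (T t160 N)))))))))) (K a51 (M a192 (F (T t57 (L l513 (T t156 (L l415 (T t450 N))))))) N)))))))))))))))⟩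
def e0_63__223_114 : Ent 4 := ⟨[a0, a63], [a223, a187], (M a48 (F (T t1 (T t2 (L l368 (T t3 (L l361 (T t0 (K a16 (M a85 (F (L l246 (T t88 (L l208 (T t50 (L l246 (T t51 N)))))))) (K a32 (M a60 (F (T t67 (L l439 (T t64 (L l24 (L l28 (T t65 N)))))))) (K a21 (M a192 (F (T t27 (L l47 (L l289 (L l347 (T t20 (L l18 (L l289 (L l368 (T t224 N))))))))))) (K a37 (M a192 (F (T t837 (L l47 (L l289 (T t20 (L l289 (L l439 (T t21 N))))))))) (K a53 (M a192 (F (T t837 (L l289 (L l439 (L l491 (T t21 (L l47 (L l491 (T t525 N)))))))))) (K a26 (M a192 (F (T t27 (L l289 (T t20 (L l289 (L l439 (T t21 N)))))))) (K a42 (M a192 (F (T t837 (L l289 (T t20 (L l54 (L l289 (L l368 (L l390 (T t224 N)))))))))) (K a58 (M a192 (F (T t837 (L l289 (L l439 (T t21 (T t525 N))))))) (K a15 (M a192 (F (T t57 (L l483 (T t27 (L l289 (L l325 (T t20 N)))))))) N)))))))))))))))))⟩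
def e0_63__223_115 : Ent 4 := ⟨[a0, a63], [a223, a191], (M a12 (F (T t122 (T t151 (T t152 (T t153 (K a4 (M a60 (F (T t43 (T t398 (T t448 N))))) (K a8 (M a60 (F (T t398 (T t67 (L l52 (L l56 (T t448 N))))))) (K a21 (M a192 (F (T t468 (T t221 (L l15 (L l220 (L l347 (T t157 N)))))))) (K a25 (M a192 (F (T t449 (T t221 (L l15 (L l220 (L l289 (T t35 N)))))))) (K a29 (M a192 (F (T t449 (L l15 (L l220 (L l289 (L l371 (T t35 (L l189 (L l246 (T t160 N))))))))))) (K a38 (M a192 (F (T t468 (L l26 (T t221 (L l50 (L l220 (L l289 (T t35 N))))))))) (K a42 (M a192 (F (T t449 (L l26 (L l390 (T t221 (L l56 (L l220 (T t157 N))))))))) (K a46 (M a192 (F (T t449 (L l220 (L l289 (T t35 (L l26 (L l189 (L l246 (L l408 (T t160 N))))))))))) (K a51 (M a192 (F (T t155 (L l513 (T t449 (L l220 (L l289 (L l439 (T t35 N))))))))) N)))))))))))))))⟩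
def e0_63__223_116 : Ent 4 := ⟨[a0, a63], [a223, a192], (M a12 (F (T t150 (L l489 (T t122 (L l489 (T t151 (L l489 (T t152 (L l489 (T t153 (K a4 (M a60 (F (T t570 (L l46 (L l50 (L l309 (T t67 (T t448 N)))))))) (K a8 (M a60 (F (T t116 (L l339 (T t398 (L l52 (L l56 (T t448 N)))))))) (K a21 (M a255 (F (T t2126 (L l232 (L l241 (T t2034 (L l15 (L l272 (T t2032 N))))))))) (K a25 (M a48 (F (T t865 (L l15 (L l339 (T t1 (L l12 (L l56 (T t866 N))))))))) (K a29 (M a48 (F (T t865 (L l15 (L l339 (T t1 (T t866 N))))))) (K a38 (M a48 (F (L l514 (T t1580 (L l26 (L l339 (T t2 (L l21 (L l50 (T t868 N)))))))))) (K a42 (M a255 (F (L l232 (T t2486 (L l272 (L l362 (L l368 (T t2031 (L l56 (L l272 (L l390 (T t2032 N)))))))))))) (K a46 (M a48 (F (T t865 (L l339 (T t1 (L l26 (T t866 N))))))) (K a51 (M a16 (L l489 (F (T t112 (L l39 (L l362 (L l514 (T t871 (T t872 (K a145 (M a98 (F (T t112 (L l39 (L l362 (L l514 (T t871 (T t872 N))))))))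 (K a98 (M a145 (F (T t112 (L l39 (L l362 (L l514 (T t871 (T t872 N)))))))) N))))))))))) N))))))))))))))))))))⟩
def e0_63__223_117 : Ent 4 := ⟨[a0, a63], [a223, a193], (M a48 (F (T t1 (T t2 (L l368 (T t3 (L l361 (T t0 (K a16 (M a85 (F (T t4539 (T t50 (L l233 (L l246 (L l293 (T t51 N)))))))) (K a32 (M a60 (F (T t67 (L l515 (T t64 (L l24 (L l28 (T t65 N)))))))) (K a21 (M a192 (F (T t27 (L l47 (L l289 (L l347 (L l515 (T t20 (L l18 (L l233 (L l289 (L l368 (T t224 N))))))))))))) (K a37 (M a192 (F (T t837 (L l47 (L l289 (L l515 (T t20 (L l289 (L l515 (T t21 N)))))))))) (K a53 (M a192 (F (T t27 (L l289 (L l491 (L l515 (T t21 (L l47 (L l491 (L l515 (T t525 N))))))))))) (K a26 (M a192 (F (T t27 (L l289 (L l515 (T t20 (L l289 (L l515 (T t21 N))))))))) (K a42 (M a192 (F (T t837 (L l289 (L l515 (T t20 (L l54 (L l233 (L l289 (L l368 (L l390 (T t224 N)))))))))))) (K a58 (M a192 (F (T t837 (L l289 (L l515 (T t21 (L l515 (T t525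 N)))))))) (K a15 (M a149 (F (L l483 (T t13 (L l233 (L l246 (L l293 (T t6 N)))))))) N)))))))))))))))))⟩
def e0_63__223_118 : Ent 4 := ⟨[a0, a63], [a223, a194], (M a48 (F (T t1 (T t2 (L l368 (T t3 (L l361 (T t0 (K a16 (M a85 (F (T t4539 (T t50 (L l246 (T t51 N)))))) (K a32 (M a60 (F (T t67 (L l486 (T t64 (L l24 (L l28 (T t65 N)))))))) (K a21 (M a192 (F (T t27 (L l47 (L l234 (L l289 (L l347 (T t20 (L l18 (L l289 (L l368 (L l516 (T t224 N))))))))))))) (K a37 (M a192 (F (T t27 (L l47 (L l234 (L l289 (T t20 (L l289 (T t21 N))))))))) (K a53 (M a192 (F (T t837 (L l289 (L l491 (T t21 (L l47 (L l294 (L l491 (T t525 N)))))))))) (K a26 (M a192 (F (T t27 (L l234 (L l289 (T t20 (L l289 (T t21 N)))))))) (K a42 (M a192 (F (T t837 (L l234 (L l289 (T t20 (L l54 (L l289 (L l368 (L l390 (L l516 (T t224 N)))))))))))) (K a58 (M a192 (F (T t837 (L l289 (T t21 (L l294 (T t525 N))))))) (K a15 (M a106 (F (T t2289 (L l234 (L l294 (T t306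 N)))))) N)))))))))))))))))⟩
def e0_63__223_119 : Ent 4 := ⟨[a0, a63], [a223, a195], (M a48 (F (T t132 (L l337 (T t1 (L l337 (T t2 (L l337 (L l368 (T t3 (L l337 (L l361 (T t0 (K a16 (M a85 (F (T t4539 (L l273 (T t50 (L l246 (T t51 N))))))) (K a32 (M a60 (F (T t138 (L l307 (T t67 (L l24 (L l28 (T t65 N)))))))) (K a21 (M a192 (F (T t53 (L l273 (T t27 (L l18 (L l289 (L l368 (T t224 N))))))))) (K a37 (M a192 (F (T t53 (L l273 (T t27 (L l289 (L l295 (T t21 N)))))))) (K a53 (M a192 (F (T t1800 (L l273 (T t27 (L l47 (L l491 (T t525 N)))))))) (K a26 (M a192 (F (T t56 (L l273 (T t27 (L l289 (L l295 (T t21 N)))))))) (K a42 (M a192 (F (T t56 (L l273 (T t27 (L l54 (L l289 (L l368 (L l390 (T t224 N)))))))))) (K a58 (M a192 (F (T t1922 (L l289 (L l295 (T t21 (T t525 N))))))) (K a15 (M a192 (L l337 (F (T t1800 (L l273 (L l483 (T t27 (L l235 (L l289 (L l325 (T t20 (K a135 (M a75 (F (T t33 (L l246 (L l273 (L l483 (T t28 (L l289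 (L l295 (L l469 (T t35 N))))))))))) (K a75 (M a135 (F (T t33 (L l246 (L l273 (L l483 (T t28 (L l289 (L l295 (L l469 (T t35 N))))))))))) N))))))))))))) N))))))))))))))))))))))⟩
def e0_63__223_120 : Ent 4 := ⟨[a0, a63], [a223, a197], (M a60 (F (T t67 (T t43 (T t68 (T t69 (K a20 (M a48 (F (T t70 (L l11 (L l491 (T t1 (L l11 (T t235 N)))))))) (K a40 (M a48 (F (T t70 (L l491 (T t1 (L l52 (T t235 N))))))) (K a21 (M a192 (F (T t72 (L l347 (L l491 (T t73 (L l245 (L l347 (L l491 (T t74 N)))))))))) (K a41 (M a192 (F (T t79 (L l65 (L l289 (L l491 (T t35 (L l491 (T t73 N))))))))) (K a61 (M a192 (F (T t72 (L l65 (L l289 (L l491 (L l515 (T t35 (L l246 (L l275 (T t80 N))))))))))) (K a22 (M a192 (F (T t72 (L l289 (L l491 (T t21 (L l491 (T t73 N)))))))) (K a42 (M a192 (F (T t77 (L l491 (T t73 (L l22 (L l245 (L l491 (T t74 N))))))))) (K a62 (M a192 (F (T t72 (L l289 (L l491 (T t35 (L l66 (L l246 (L l275 (L l516 (T t80 N)))))))))))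 (K a3 (M a149 (F (T t5317 (L l233 (L l246 (L l275 (T t1256 N))))))) N)))))))))))))))⟩
def e0_63__223_121 : Ent 4 := ⟨[a0, a63], [a223, a198], (M a149 (F (T t175 (L l246 (T t5 (L l246 (L l289 (T t176 (L l289 (T t177 (K a192 (M a53 (F (T t178 (L l229 (L l236 (L l289 (L l368 (T t179 (L l229 (L l236 (L l246 (L l296 (T t180 N))))))))))))) (K a21 (M a48 (F (L l229 (T t4 (T t13 (L l18 (L l229 (L l289 (L l368 (T t14 N)))))))))) (K a85 (M a16 (F (L l361 (T t97 (L l144 (L l246 (T t190 (L l94 (T t278 N))))))))) (K a213 (Fr a106 a192 l519 (Fr a42 a21 l68 (Fr a170 a234 l390 (Fr a255 a85 l476 (V t582))))) (K a42 (M a48 (F (L l234 (T t11 (L l390 (T t13 (L l54 (L l229 (L l289 (L l368 (T t14 N))))))))))) (K a106 (M a48 (F (T t1 (L l104 (L l144 (L l246 (L l289 (L l361 (L l390 (T t1285 (L l229 (L l289 (L l368 (L l498 (T t14 N))))))))))))))) (K a170 (M a48 (F (L l229 (T t4 (L l462 (T t1 (L l390 (T t13 N)))))))) (K a191 (M a48 (F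 (T t13 (L l229 (L l246 (T t6 N)))))) (K a255 (M a207 (F (T t1286 (L l229 (L l469 (T t1287 (L l246 (L l296 (T t1288 (L l361 (T t1289 N))))))))))) N)))))))))))))))))))⟩
def e0_63__223_122 : Ent 4 := ⟨[a0, a63], [a223, a199], (M a149 (F (T t175 (L l246 (T t5 (L l246 (L l289 (T t176 (L l289 (T t177 (K a192 (M a53 (F (T t178 (L l229 (L l236 (L l289 (L l368 (T t179 (L l229 (L l236 (L l246 (L l296 (L l314 (T t180 N)))))))))))))) (K a21 (M a48 (F (L l229 (T t4 (T t13 (L l18 (L l229 (L l289 (L l368 (T t14 N)))))))))) (K a85 (M a16 (F (L l361 (T t97 (L l144 (L l246 (T t190 (L l94 (T t278 N))))))))) (K a213 (Fr a106 a192 l519 (Fr a42 a21 l68 (Fr a170 a234 l390 (Fr a255 a85 l476 (V t582))))) (K a42 (M a48 (F (T t11 (L l390 (T t13 (L l54 (L l229 (L l289 (L l368 (T t14 N)))))))))) (K a106 (M a48 (F (T t1 (L l104 (L l144 (L l246 (L l289 (L l361 (L l390 (T t1285 (L l229 (L l289 (L l368 (L l498 (T t14 N))))))))))))))) (K a170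 (M a48 (F (T t11 (L l462 (T t1 (L l390 (T t13 N))))))) (K a191 (M a16 (F (T t112 (L l246 (T t190 (T t278 N)))))) (K a255 (M a207 (F (T t2337 (L l229 (L l314 (L l469 (T t1287 (L l246 (L l296 (T t1288 (L l361 (L l494 (T t1289 N))))))))))))) N)))))))))))))))))))⟩
def e0_63__223_123 : Ent 4 := ⟨[a0, a63], [a223, a202], (M a60 (F (T t67 (T t43 (T t68 (T t69 (K a20 (M a48 (F (T t64 (L l11 (L l318 (T t1 (L l11 (T t235 N)))))))) (K a40 (M a48 (F (T t64 (L l318 (T t1 (L l52 (T t235 N))))))) (K a21 (M a192 (F (T t72 (L l347 (T t73 (L l245 (L l347 (T t74 N)))))))) (K a41 (M a192 (F (T t77 (L l65 (L l282 (L l289 (T t35 (T t73 N)))))))) (K a61 (M a192 (F (T t72 (L l65 (L l282 (L l289 (L l515 (T t35 (L l246 (L l498 (T t80 N))))))))))) (K a22 (M a192 (F (T t72 (L l289 (T t21 (T t73 N)))))) (K a42 (M a192 (F (T t79 (T t73 (L l22 (L l245 (T t74 N))))))) (K a62 (M a192 (F (T t72 (L l282 (L l289 (T t35 (L l66 (L l246 (L l498 (L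 l516 (T t80 N))))))))))) (K a3 (M a106 (F (T t2792 (L l234 (L l282 (T t1513 N)))))) N)))))))))))))))⟩
def e0_63__223_124 : Ent 4 := ⟨[a0, a63], [a223, a203], (M a149 (F (T t175 (L l246 (T t5 (L l246 (L l289 (T t176 (L l289 (T t177 (K a192 (M a53 (F (T t178 (L l236 (L l289 (L l368 (T t179 (L l236 (L l246 (L l296 (T t180 N))))))))))) (K a21 (M a48 (F (T t4 (T t13 (L l18 (L l289 (L l368 (T t14 N)))))))) (K a85 (M a16 (F (L l361 (T t97 (L l144 (L l246 (T t190 (L l94 (T t278 N))))))))) (K a213 (Fr a106 a192 l519 (Fr a42 a21 l68 (Fr a170 a234 l390 (Fr a255 a85 l476 (V t582))))) (K a42 (M a48 (F (L l54 (T t4 (L l390 (T t13 (L l54 (L l289 (L l368 (T t14 N)))))))))) (K a106 (M a48 (F (T t1 (L l104 (L l144 (L l246 (L l289 (L l361 (L l390 (T t1285 (L l289 (L l368 (L l498 (T t14 N)))))))))))))) (K a170 (M a48 (F (T t4 (L l462 (T t1 (L l390 (T t13 N))))))) (K a191 (M a16 (F (T t112 (L l246 (T t190 (T t278 N)))))) (K a255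 (M a207 (F (T t1286 (L l469 (T t1287 (L l246 (L l296 (L l320 (T t1288 (L l361 (T t1289 N))))))))))) N)))))))))))))))))))⟩
def e0_63__223_125 : Ent 4 := ⟨[a0, a63], [a223, a207], (M a255 (F (T t5297 (L l236 (L l246 (T t2142 (L l236 (T t1165 (L l236 (L l368 (T t2138 (L l236 (L l368 (T t2139 (K a192 (M a240 (L l236 (F (T t5865 (L l484 (L l512 (T t5866 (L l339 (L l361 (T t5867 (K a197 (M a202 (F (T t5868 (L l311 (L l325 (L l339 (T t5876 (L l339 (L l361 (T t5867 N)))))))))) (K a202 (M a197 (F (T t5870 (L l325 (L l339 (L l368 (T t5869 (L l318 (L l339 (L l361 (T t5867 N))))))))))) N)))))))))))) (K a21 (M a240 (F (T t5871 (L l325 (L l347 (L l368 (T t5869 (L l361 (T t5867 N))))))))) (K a85 (M a48 (L l368 (F (T t4430 (L l325 (L l347 (T t1 (L l123 (L l144 (L l303 (L l325 (L l347 (T t5872 (L l325 (L l361 (L l455 (T t3586 (K a16 (M a154 (F (T t4430 (L l18 (L l236 (L l347 (T t5873 (L l123 (L l144 (L l361 (T t5874 N)))))))))))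 (K a154 (Fr a16 a32 l40 (V t3290)) N))))))))))))))))))) (K a149 (M a240 (F (T t5868 (L l325 (L l347 (L l368 (T t5869 (L l199 (L l220 (L l361 (T t5867 N))))))))))) (K a42 (M a240 (F (T t5875 (L l325 (L l368 (T t5869 (L l361 (L l390 (T t5867 N))))))))) (K a106 (M a240 (F (T t5870 (L l325 (L l390 (T t5876 (L l130 (L l144 (L l368 (T t5877 N)))))))))) (K a170 (M a48 (F (T t557 (L l325 (L l390 (T t2 (L l325 (L l368 (L l462 (T t3585 (L l206 (L l220 (L l325 (L l361 (L l390 (L l404 (T t5878 N))))))))))))))))) (K a127 (M a4 (F (T t129 (L l301 (T t4436 (L l113 (T t4437 N))))))) (K a191 (M a4 (F (T t129 (L l220 (L l301 (T t4436 (L l220 (T t4437 N)))))))) N)))))))))))))))))))))))⟩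
def e0_63__223_126 : Ent 4 := ⟨[a0, a63], [a223, a208], (M a60 (L l246 (F (T t67 (T t43 (T t68 (T t69 (K a20 (M a255 (L l246 (F (T t2963 (L l268 (T t1165 (L l11 (L l350 (L l368 (T t2964 (K a213 (M a218 (F (T t2969 (L l268 (L l347 (L l350 (L l368 (T t2139 (L l347 (L l350 (L l368 (T t5441 N)))))))))))) (K a218 (M a213 (F (T t6030 (T t2969 N)))) N)))))))))))) (K a40 (M a255 (L l246 (F (T t2963 (L l268 (L l392 (T t1165 (L l368 (T t2964 (K a213 (M a218 (F (T t2969 (L l268 (L l347 (L l368 (T t2139 (L l347 (L l368 (T t5441 N)))))))))) (K a218 (M a213 (F (L l22 (T t6030 (T t2969 N))))) N))))))))))) (K a21 (M a85 (L l246 (F (T t3040 (L l65 (L l245 (T t523 (T t114 (K a213 (M a218 (F (T t3040 (L l65 (L l239 (L l245 (T t523 (T t114 N)))))))) (K a218 (M a213 (F (T t5007 (T t3040 (L l65 (L l245 (T t523 N))))))) N)))))))))) (K a41 (M a192 (L l246 (F (T t1333 (L l65 (L l289 (L l375 (T t35 (L l370 (L l375 (T t73 (K a213 (M a218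 (F (T t1333 (T t75 (L l289 (L l347 (L l375 (T t21 N)))))))) (K a218 (M a213 (F (T t5012 (L l370 (T t79 N))))) N))))))))))))) (K a61 (M a192 (L l246 (F (T t1333 (L l65 (L l289 (L l375 (L l515 (T t35 (L l65 (L l370 (L l375 (L l515 (T t2549 (K a213 (M a218 (F (T t1333 (L l289 (L l347 (L l375 (L l515 (T t21 (L l347 (L l370 (L l375 (L l515 (T t5442 N))))))))))))) (K a218 (M a213 (F (T t5012 (L l370 (T t79 N))))) N)))))))))))))))) (K a22 (M a192 (L l246 (F (T t1333 (L l289 (L l375 (T t21 (L l370 (L l375 (T t73 (K a213 (M a218 (F (T t75 (T t1333 (L l289 (L l347 (L l375 (T t21 N)))))))) (K a218 (M a213 (F (T t5012 (L l242 (T t72 N))))) N)))))))))))) (K a42 (M a192 (L l246 (F (T t1333 (L l370 (L l375 (T t73 (L l22 (L l245 (L l375 (T t74 (K a213 (M a218 (F (T t1333 (L l390 (T t75 (L l22 (L l239 (L l245 (L l347 (L l375 (T t74 N))))))))))) (K a218 (M a213 (F (L l390 (T t5016 (L l370 (T t79 N)))))) N))))))))))))) (K a62 (M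 a192 (L l246 (F (T t1333 (L l289 (L l375 (T t35 (L l370 (L l375 (T t2549 (K a213 (M a218 (F (T t1333 (L l289 (L l347 (L l375 (T t21 (L l347 (L l370 (L l375 (T t5442 N))))))))))) (K a218 (M a213 (F (L l516 (T t5012 (L l370 (T t79 N)))))) N)))))))))))) (K a3 (M a192 (L l246 (F (T t1800 (L l370 (L l477 (T t79 (L l307 (L l370 (L l375 (T t73 (K a213 (M a218 (F (T t2658 (L l307 (T t75 (L l289 (L l347 (L l375 (L l475 (T t21 N)))))))))) (K a218 (M a213 (F (T t5012 (L l370 (L l477 (T t79 N)))))) N))))))))))))) (K a213 (M a218 (F (T t43 (L l347 (T t67 (L l347 (T t68 (T t69 (K a20 (M a48 (F (T t451 (T t2 (L l11 (L l347 (T t235 N))))))) (K a40 (M a48 (F (T t70 (L l22 (T t2 (L l52 (L l347 (T t235 N)))))))) (K a21 (M a85 (F (T t3040 (L l65 (L l239 (L l245 (T t523 (T t114 N)))))))) (K a41 (M a192 (F (T t1333 (T t75 (L l289 (L l347 (L l375 (T t21 N)))))))) (K a61 (M a192 (F (T t1333 (L l289 (L l347 (L l375 (L l515 (T t21 (L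 l347 (L l370 (L l375 (L l515 (T t5442 N))))))))))))) (K a22 (M a192 (F (T t75 (T t1333 (L l289 (L l347 (L l375 (T t21 N)))))))) (K a42 (M a192 (F (T t1333 (L l390 (T t75 (L l22 (L l239 (L l245 (L l347 (L l375 (T t74 N))))))))))) (K a62 (M a192 (F (T t1333 (L l289 (L l347 (L l375 (T t21 (L l347 (L l370 (L l375 (T t5442 N))))))))))) (K a3 (M a192 (F (T t2658 (L l307 (T t75 (L l289 (L l347 (L l375 (L l475 (T t21 N)))))))))) N))))))))))))))))) (K a218 (M a213 (F (T t67 (L l368 (T t5443 (L l245 (L l375 (T t5444 (K a21 (M a192 (F (T t5015 (L l11 (L l370 (T t79 (L l370 (L l375 (T t73 N))))))))) (K a42 (M a192 (F (L l390 (T t5016 (L l370 (T t79 N)))))) N)))))))))) N))))))))))))))))))⟩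
def e0_63__223_127 : Ent 4 := ⟨[a0, a63], [a223, a209], (M a60 (F (T t67 (T t43 (T t68 (T t69 (K a20 (M a48 (F (T t2 (T t64 (L l11 (T t235 N)))))) (K a40 (M a48 (F (T t1 (T t64 (L l52 (T t235 N)))))) (K a21 (M a192 (F (T t72 (L l347 (L l371 (T t73 (L l245 (L l347 (L l371 (T t74 N)))))))))) (K a41 (M a192 (F (T t79 (L l65 (L l289 (L l371 (T t35 (L l371 (T t73 N))))))))) (K a61 (M a192 (F (T t72 (L l65 (L l289 (L l371 (L l515 (T t35 (L l243 (L l246 (T t80 N))))))))))) (K a22 (M a192 (F (T t72 (L l289 (L l371 (T t21 (L l371 (T t73 N)))))))) (K a42 (M a192 (F (T t77 (L l371 (T t73 (L l22 (L l245 (L l371 (T t74 N))))))))) (K a62 (M a192 (F (T t72 (L l289 (L l371 (T t35 (L l66 (L l243 (L l246 (L l516 (T t80 N))))))))))) (K a3 (M a149 (F (T t5317 (L l243 (L l246 (L l269 (T t1256 N))))))) N)))))))))))))))⟩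
def e0_63__223_128 : Ent 4 := ⟨[a0, a63], [a223, a210], (M a149 (F (T t175 (L l246 (T t5 (L l246 (L l289 (T t176 (L l289 (T t177 (K a192 (M a53 (F (T t178 (L l236 (L l289 (L l368 (T t179 (L l236 (L l246 (L l296 (T t180 N))))))))))) (K a21 (M a48 (F (T t4 (L l273 (T t13 (L l18 (L l289 (L l368 (T t14 N))))))))) (K a85 (M a16 (F (L l361 (T t97 (L l144 (L l238 (L l246 (L l273 (T t190 (L l94 (L l372 (T t278 N)))))))))))) (K a213 (Fr a106 a192 l519 (Fr a42 a21 l68 (Fr a170 a234 l390 (Fr a255 a85 l476 (V t582))))) (K a42 (M a48 (F (T t11 (L l273 (L l390 (T t13 (L l54 (L l289 (L l368 (T t14 N)))))))))) (K a106 (M a48 (F (T t1 (L l104 (L l144 (L l246 (L l289 (L l361 (L l390 (T t1285 (L l289 (L l368 (L l498 (T t14 N)))))))))))))) (K a170 (M a48 (F (T t4 (L l462 (T t1 (L l273 (L l390 (T t13 N)))))))) (K a191 (M a16 (F (T t112 (L l238 (L l246 (L l273 (T t190 (L l372 (T t278 N))))))))) (K a255 (M a207 (F (T t1286 (L l469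 (T t1287 (L l246 (L l296 (T t1288 (L l361 (T t1289 N)))))))))) N)))))))))))))))))))⟩
def e0_63__223_129 : Ent 4 := ⟨[a0, a63], [a223, a211], (M a60 (L l245 (F (T t67 (T t43 (T t68 (T t69 (K a20 (M a85 (L l245 (F (T t90 (T t114 (L l246 (T t1344 (K a215 (M a219 (F (T t90 (T t114 (L l239 (L l246 (T t1344 N))))))) (K a219 (M a215 (F (T t5673 (T t90 (L l246 (T t1344 N)))))) N))))))))) (K a40 (M a255 (L l245 (F (T t2963 (L l22 (L l246 (L l392 (T t2142 (L l368 (T t2964 (K a215 (M a219 (F (T t1633 (L l350 (L l368 (T t2139 (L l22 (L l239 (L l246 (L l392 (T t5693 N))))))))))) (K a219 (M a215 (F (L l392 (T t5675 (T t2969 N))))) N)))))))))))) (K a21 (M a255 (L l245 (F (T t2963 (L l11 (L l271 (L l347 (L l368 (T t1634 (L l11 (L l347 (L l368 (T t1567 (K a215 (M a219 (F (T t1633 (L l271 (L l347 (L l350 (L l368 (T t4709 (L l347 (L l350 (L l368 (T t4710 N)))))))))))) (K a219 (M a215 (F (T t5676 (L l65 (T t2969 N))))) N)))))))))))))))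 (K a41 (M a48 (L l245 (F (T t42 (L l22 (T t2 (L l22 (L l57 (T t247 (K a215 (M a219 (F (T t70 (L l22 (T t2 (L l350 (T t489 N))))))) (K a219 (M a215 (F (T t70 (L l22 (L l367 (L l368 (L l389 (T t5678 N)))))))) N))))))))))) (K a61 (M a192 (L l245 (F (T t72 (L l65 (L l289 (L l515 (T t35 (L l246 (L l373 (T t80 (K a215 (M a219 (F (T t1333 (L l65 (L l289 (L l295 (L l515 (T t35 (L l65 (L l515 (T t2549 N))))))))))) (K a219 (M a215 (F (T t1333 (L l65 (L l289 (L l515 (T t35 (L l65 (L l515 (T t2549 N)))))))))) N))))))))))))) (K a22 (M a255 (L l245 (F (T t1633 (L l11 (L l271 (L l368 (T t1634 (L l66 (L l246 (T t2142 (K a215 (M a219 (F (T t2969 (L l271 (L l350 (L l368 (T t4709 (L l350 (L l368 (T t2139 N)))))))))) (K a219 (M a215 (F (T t5676 (T t2969 N)))) N))))))))))))) (K a42 (M a255 (L l245 (F (T t1565 (L l271 (L l368 (T t1634 (L l66 (L l368 (T t1567 (K a215 (M a219 (F (T t2969 (L l271 (L l350 (L l368 (T t4709 (L l66 (L l350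 (L l368 (T t4710 N))))))))))) (K a219 (M a215 (F (L l390 (T t5676 (L l283 (T t5682 N)))))) N)))))))))))) (K a62 (M a192 (L l245 (F (T t72 (L l289 (T t35 (L l66 (L l246 (L l373 (L l516 (T t80 (K a215 (M a219 (F (T t1333 (L l289 (L l295 (T t35 (T t2549 N))))))) (K a219 (M a215 (F (T t1333 (L l289 (T t35 (T t2549 N)))))) N))))))))))))) (K a3 (M a16 (L l245 (F (T t112 (L l9 (L l362 (L l374 (T t1140 (T t1141 (K a215 (M a219 (F (T t112 (L l9 (L l362 (L l374 (T t1140 (T t1141 N)))))))) (K a219 (M a215 (F (T t6332 (T t5685 N)))) N))))))))))) (K a215 (M a219 (F (T t68 (L l350 (T t67 (L l349 (T t43 (T t69 (K a20 (M a85 (F (T t90 (T t114 (L l239 (L l246 (T t1344 N))))))) (K a40 (M a48 (F (T t70 (L l22 (T t2 (L l52 (T t235 N))))))) (K a21 (M a12 (F (T t680 (L l11 (L l50 (L l295 (L l350 (L l368 (T t6410 N))))))))) (K a41 (M a192 (F (T t1333 (L l65 (L l289 (L l295 (T t35 (L l271 (L l295 (L l349 (L l373 (T t75 N))))))))))))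 (K a61 (M a192 (F (T t1333 (L l65 (L l289 (L l295 (L l515 (T t35 (L l65 (L l515 (T t2549 N))))))))))) (K a22 (M a192 (F (T t1333 (L l271 (L l295 (L l349 (L l373 (T t75 (L l11 (L l289 (L l295 (T t35 N)))))))))))) (K a42 (M a12 (F (T t398 (L l295 (L l350 (L l368 (T t6410 N))))))) (K a62 (M a192 (F (T t1333 (L l289 (L l295 (T t35 (T t2549 N))))))) (K a3 (M a192 (F (T t47 (L l477 (T t1333 (L l271 (L l295 (L l307 (L l349 (L l373 (T t75 N))))))))))) N))))))))))))))))) (K a219 (M a215 (F (T t67 (L l368 (T t5690 (L l368 (T t5685 (K a20 (M a48 (F (T t451 (L l11 (T t1 (L l11 (L l14 (L l344 (L l368 (T t1419 N)))))))))) (K a40 (M a23 (F (L l22 (T t5691 (L l367 (L l392 (T t5692 N))))))) N))))))))) N))))))))))))))))))⟩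
def e0_63__223_130 : Ent 4 := ⟨[a0, a63], [a223, a213], (M a12 (L l246 (F (T t151 (L l347 (T t122 (L l347 (T t152 (T t153 (K a4 (M a60 (L l246 (F (T t43 (T t398 (T t448 (K a208 (M a218 (F (T t398 (T t69 (L l46 (L l50 (L l347 (T t1096 N)))))))) (K a218 (M a208 (F (T t69 (L l354 (T t6411 N))))) N)))))))) (K a8 (M a60 (L l246 (F (T t398 (L l347 (T t67 (L l52 (L l56 (T t448 (K a208 (M a218 (F (T t680 (L l56 (T t69 (L l347 (T t1096 N))))))) (K a218 (M a208 (F (L l56 (T t69 (L l354 (L l460 (T t6411 N))))))) N))))))))))) (K a21 (M a149 (L l246 (F (T t5329 (L l50 (L l243 (T t649 (T t648 (K a208 (M a218 (F (T t5329 (L l50 (L l238 (L l243 (T t649 (T t648 N)))))))) (K a218 (M a208 (F (T t2180 (L l50 (L l243 (T t649 N)))))) N)))))))))) (K a25 (M a192 (L l246 (F (T t449 (L l15 (L l347 (T t450 (L l289 (L l347 (T t21 (K a208 (M a218 (F (T t543 (L l56 (L l278 (T t468 (L l289 (L l347 (L l375 (T t21 N)))))))))) (K a218 (M a208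 (F (T t156 (L l361 (T t5295 N))))) N)))))))))))) (K a29 (M a192 (L l246 (F (T t156 (L l289 (L l347 (L l371 (T t21 (L l347 (L l371 (T t2623 (K a208 (M a218 (F (T t836 (L l289 (L l347 (L l371 (L l375 (T t21 (L l347 (L l371 (L l375 (T t2623 N)))))))))))) (K a218 (M a208 (F (T t156 (L l13 (L l361 (T t5295 N)))))) N))))))))))))) (K a38 (M a192 (L l246 (F (T t836 (L l347 (T t450 (L l289 (L l347 (T t21 (K a208 (M a218 (F (T t543 (L l278 (T t468 (L l289 (L l347 (L l375 (T t21 N))))))))) (K a218 (M a208 (F (T t156 (L l361 (T t5295 N))))) N))))))))))) (K a42 (M a192 (L l246 (F (T t449 (L l347 (T t450 (L l56 (L l278 (L l347 (T t157 (K a208 (M a218 (F (T t836 (L l390 (T t543 (L l56 (L l278 (L l347 (L l375 (T t157 N)))))))))) (K a218 (M a208 (F (T t156 (L l361 (L l390 (T t5295 N)))))) N)))))))))))) (K a46 (M a192 (L l246 (F (T t156 (L l289 (L l347 (T t21 (L l347 (T t2623 (K a208 (M a218 (F (T t836 (L l289 (L l347 (L l375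 (T t21 (L l347 (L l375 (T t2623 N)))))))))) (K a218 (M a208 (F (T t156 (L l361 (L l408 (T t5295 N)))))) N))))))))))) (K a51 (M a192 (L l246 (F (T t158 (L l513 (T t156 (L l289 (L l347 (L l439 (T t21 (K a208 (M a218 (F (T t158 (L l278 (L l513 (T t468 (L l289 (L l347 (L l375 (L l439 (T t21 N))))))))))) (K a218 (M a208 (F (T t158 (L l30 (L l368 (T t4068 N)))))) N)))))))))))) (K a208 (M a218 (F (T t151 (L l347 (T t122 (L l347 (T t152 (T t153 (K a4 (M a60 (F (T t398 (T t69 (L l46 (L l50 (L l347 (T t1096 N)))))))) (K a8 (M a60 (F (T t680 (L l56 (T t69 (L l347 (T t1096 N))))))) (K a21 (M a85 (F (T t1370 (L l15 (L l278 (T t574 (L l362 (T t124 N)))))))) (K a25 (M a192 (F (T t543 (L l56 (L l278 (T t468 (L l289 (L l347 (L l375 (T t21 N)))))))))) (K a29 (M a192 (F (T t836 (L l289 (L l347 (L l371 (L l375 (T t21 (L l347 (L l371 (L l375 (T t2623 N)))))))))))) (K a38 (M a192 (F (T t543 (L l278 (T t468 (L l289 (L l347 (L l375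 (T t21 N))))))))) (K a42 (M a192 (F (T t836 (L l390 (T t543 (L l56 (L l278 (L l347 (L l375 (T t157 N)))))))))) (K a46 (M a192 (F (T t836 (L l289 (L l347 (L l375 (T t21 (L l347 (L l375 (T t2623 N)))))))))) (K a51 (M a192 (F (T t158 (L l278 (L l513 (T t468 (L l289 (L l347 (L l375 (L l439 (T t21 N))))))))))) N))))))))))))))))) (K a218 (M a208 (F (T t151 (L l347 (T t122 (L l347 (T t152 (T t153 (K a4 (M a192 (F (T t543 (L l368 (T t4068 N))))) (K a8 (M a192 (F (T t1820 (L l347 (T t450 N))))) (K a21 (M a149 (F (T t2180 (L l50 (L l243 (T t649 N)))))) (K a25 (M a192 (F (T t156 (L l361 (T t5295 N))))) (K a29 (M a192 (F (T t156 (L l13 (L l361 (T t5295 N)))))) (K a38 (M a192 (F (T t156 (L l361 (T t5295 N))))) (K a42 (M a192 (F (T t156 (L l361 (L l390 (T t5295 N)))))) (K a46 (M a192 (F (T t156 (L l361 (L l408 (T t5295 N)))))) (K a51 (M a192 (F (T t158 (L l30 (L l368 (T t4068 N)))))) N))))))))))))))))) N))))))))))))))))))))⟩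
def e0_63__223_131 : Ent 4 := ⟨[a0, a63], [a223, a214], (M a149 (F (L l294 (T t175 (L l239 (L l246 (T t5 (L l239 (L l246 (L l289 (T t176 (L l289 (T t177 (K a192 (M a53 (F (T t178 (L l236 (L l289 (L l368 (T t179 (L l236 (L l239 (L l246 (L l296 (T t180 N)))))))))))) (K a21 (M a48 (F (T t4 (T t13 (L l18 (L l289 (L l368 (T t14 N)))))))) (K a85 (M a16 (F (L l361 (T t97 (L l144 (L l246 (T t190 (L l94 (T t278 N))))))))) (K a213 (Fr a106 a192 l519 (Fr a42 a21 l68 (Fr a170 a234 l390 (Fr a255 a85 l476 (V t582))))) (K a42 (M a48 (F (T t11 (L l390 (T t13 (L l54 (L l289 (L l368 (T t14 N))))))))) (K a106 (M a48 (F (T t1 (L l104 (L l144 (L l239 (L l246 (L l289 (L l361 (L l390 (T t1285 (L l289 (L l368 (L l498 (T t14 N))))))))))))))) (K a170 (M a48 (F (T t4 (L l462 (T t1 (L l390 (T t13 N))))))) (K a191 (M a16 (F (T t112 (L l246 (T t190 (T t278 N)))))) (K a255 (M a207 (F (T t1286 (L l469 (T t1287 (L l239 (L l246 (L l296 (T t1288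 (L l361 (T t1289 N))))))))))) N))))))))))))))))))))))⟩
def e0_63__223_132 : Ent 4 := ⟨[a0, a63], [a223, a215], (M a12 (L l245 (F (T t122 (T t151 (T t152 (T t153 (K a4 (M a149 (L l245 (F (T t958 (L l239 (L l246 (T t5 (L l239 (L l246 (L l362 (T t960 (K a211 (M a219 (F (T t4854 (L l238 (T t6232 N))))) (K a219 (M a211 (F (T t4854 (L l362 (T t6233 N))))) N))))))))))))) (K a8 (M a149 (L l245 (F (T t991 (L l56 (L l239 (L l246 (T t5 (L l56 (L l239 (L l246 (L l362 (T t960 (K a211 (M a219 (F (T t175 (L l52 (L l238 (T t6232 N)))))) (K a219 (M a211 (F (T t175 (L l362 (T t6233 N))))) N))))))))))))))) (K a21 (M a89 (L l245 (F (T t2788 (L l50 (T t863 (L l50 (T t864 (K a211 (M a219 (F (T t3543 (L l50 (L l295 (T t6234 N)))))) (K a219 (M a211 (F (T t2752 (L l18 (L l350 (L l368 (T t6235 N))))))) N)))))))))) (K a25 (M a89 (L l245 (F (T t2788 (T t863 (T t864 (K a211 (M a219 (F (T t3543 (L l12 (L l295 (T t6234 N)))))) (K a219 (M a211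 (F (T t870 (L l350 (L l368 (T t6235 N)))))) N)))))))) (K a29 (M a170 (L l245 (F (T t2497 (L l15 (T t317 (L l15 (T t3682 (K a211 (M a219 (F (L l15 (T t317 (T t6236 N))))) (K a219 (M a211 (F (L l15 (T t317 (L l13 (L l283 (L l362 (T t6237 N)))))))) N)))))))))) (K a38 (M a149 (L l245 (F (T t991 (L l50 (T t175 (L l26 (L l50 (T t649 (K a211 (M a219 (F (T t648 (L l26 (L l238 (T t6232 N)))))) (K a219 (M a211 (F (T t648 (L l26 (L l362 (T t6233 N)))))) N))))))))))) (K a42 (M a89 (L l245 (F (T t3370 (T t863 (L l26 (T t864 (K a211 (M a219 (F (T t3543 (L l28 (L l362 (L l368 (T t6238 N))))))) (K a219 (M a211 (F (T t3543 (L l22 (L l350 (L l368 (T t6235 N))))))) N))))))))) (K a46 (M a170 (L l245 (F (T t439 (L l277 (L l289 (L l295 (L l396 (T t3685 (T t3682 (K a211 (M a219 (F (T t317 (T t6236 N)))) (K a219 (M a211 (F (T t317 (L l283 (L l362 (T t6237 N)))))) N)))))))))))) (K a51 (M a149 (L l245 (F (T t647 (L l239 (L l246 (L l489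 (T t5 (T t649 (K a211 (M a219 (F (T t4854 (L l238 (T t6232 N))))) (K a219 (M a211 (F (T t4854 (L l362 (T t6233 N))))) N))))))))))) (K a211 (M a219 (F (T t122 (T t151 (T t152 (T t153 (K a4 (M a149 (F (T t4854 (L l238 (T t6232 N))))) (K a8 (M a149 (F (T t175 (L l52 (L l238 (T t6232 N)))))) (K a21 (M a24 (F (L l50 (T t2412 (L l238 (L l368 (T t6239 N))))))) (K a25 (M a24 (F (T t2412 (L l238 (L l368 (T t6239 N)))))) (K a29 (M a89 (F (L l277 (T t6240 (L l15 (T t3691 N)))))) (K a38 (M a24 (F (L l50 (T t2412 (L l26 (L l238 (L l368 (T t6239 N)))))))) (K a42 (M a24 (F (L l28 (T t2412 (L l26 (L l238 (L l368 (T t6239 N)))))))) (K a46 (M a170 (F (T t317 (T t6236 N)))) (K a51 (M a24 (F (L l30 (T t2412 (L l238 (L l368 (L l489 (T t6239 N)))))))) N))))))))))))))) (K a219 (M a211 (F (T t122 (T t151 (T t152 (T t153 (K a4 (M a16 (F (L l361 (T t97 (L l350 (L l356 (L l458 (T t4338 N)))))))) (K a8 (M a16 (F (L l56 (T t112 (L l52 (L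 l350 (L l356 (T t4338 N)))))))) (K a21 (M a28 (F (T t2738 (L l50 (L l283 (L l301 (L l350 (T t4339 N)))))))) (K a25 (M a16 (F (L l56 (T t112 (L l350 (T t6241 N)))))) (K a29 (M a16 (F (T t112 (L l289 (L l295 (L l359 (L l362 (T t4337 N)))))))) (K a38 (M a16 (F (L l26 (T t112 (L l289 (L l295 (L l362 (L l384 (T t4337 N))))))))) (K a42 (M a28 (F (L l22 (L l368 (T t2735 (L l26 (L l355 (T t6242 N)))))))) (K a46 (M a16 (F (T t652 (L l26 (L l355 (T t6243 N)))))) (K a51 (M a16 (F (T t112 (L l289 (L l295 (L l362 (L l439 (T t4337 N)))))))) N))))))))))))))) N))))))))))))))))))⟩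
def e0_63__223_133 : Ent 4 := ⟨[a0, a63], [a223, a218], (M a12 (L l246 (F (T t122 (T t151 (T t152 (T t153 (K a4 (M a149 (L l246 (F (T t958 (L l50 (L l282 (T t175 (T t6412 (K a208 (M a213 (F (T t6038 (L l238 (T t959 N))))) (K a213 (M a208 (F (T t5329 (L l354 (L l368 (T t1276 N)))))) N)))))))))) (K a8 (M a192 (L l246 (F (T t450 (L l289 (T t21 (L l56 (L l316 (T t228 (K a208 (M a213 (F (T t5012 (L l241 (L l282 (T t6413 N)))))) (K a213 (M a208 (F (T t1820 (L l347 (T t450 N))))) N))))))))))) (K a21 (M a149 (L l246 (F (T t958 (T t648 (L l50 (T t649 (K a208 (M a213 (F (T t6041 (L l238 (T t959 (L l50 (L l238 (T t649 N)))))))) (K a213 (M a208 (F (T t2180 (L l50 (L l243 (T t649 N)))))) N))))))))) (K a25 (M a192 (L l246 (F (T t449 (L l15 (T t450 (L l289 (T t21 (K a208 (M a213 (F (T t5012 (T t156 N)))) (K a213 (M a208 (F (T t156 (L l361 (T t5295 N))))) N)))))))))) (K a29 (M a192 (L l246 (F (T t449 (L l289 (L l371 (T t21 (L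 l15 (L l282 (L l371 (T t776 (K a208 (M a213 (F (T t5012 (T t156 N)))) (K a213 (M a208 (F (T t156 (L l13 (L l361 (T t5295 N)))))) N))))))))))))) (K a38 (M a192 (L l246 (F (T t156 (T t450 (L l289 (T t21 (K a208 (M a213 (F (T t5012 (T t156 N)))) (K a213 (M a208 (F (T t156 (L l361 (T t5295 N))))) N))))))))) (K a42 (M a192 (L l246 (F (T t449 (T t450 (L l56 (T t157 (K a208 (M a213 (F (L l390 (T t5016 (T t156 N))))) (K a213 (M a208 (F (T t156 (L l361 (L l390 (T t5295 N)))))) N))))))))) (K a46 (M a192 (L l246 (F (T t449 (L l289 (T t21 (L l282 (T t776 (K a208 (M a213 (F (L l408 (T t5012 (T t156 N))))) (K a213 (M a208 (F (T t156 (L l361 (L l408 (T t5295 N)))))) N)))))))))) (K a51 (M a192 (L l246 (F (T t1800 (L l513 (T t156 (L l415 (T t450 (K a208 (M a213 (F (T t5012 (L l513 (T t156 N))))) (K a213 (M a208 (F (T t158 (L l30 (L l368 (T t4068 N)))))) N)))))))))) (K a208 (M a213 (F (T t122 (L l238 (L l368 (T t5439 (L l375 (T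 t5440 (K a21 (M a192 (F (T t5015 (T t156 (L l15 (L l375 (T t450 N))))))) (K a42 (M a192 (F (L l390 (T t5016 (T t156 N))))) N)))))))))) (K a213 (M a208 (F (T t151 (L l347 (T t122 (L l347 (T t152 (T t153 (K a4 (M a192 (F (T t543 (L l368 (T t4068 N))))) (K a8 (M a192 (F (T t1820 (L l347 (T t450 N))))) (K a21 (M a149 (F (T t2180 (L l50 (L l243 (T t649 N)))))) (K a25 (M a192 (F (T t156 (L l361 (T t5295 N))))) (K a29 (M a192 (F (T t156 (L l13 (L l361 (T t5295 N)))))) (K a38 (M a192 (F (T t156 (L l361 (T t5295 N))))) (K a42 (M a192 (F (T t156 (L l361 (L l390 (T t5295 N)))))) (K a46 (M a192 (F (T t156 (L l361 (L l408 (T t5295 N)))))) (K a51 (M a192 (F (T t158 (L l30 (L l368 (T t4068 N)))))) N))))))))))))))))) N))))))))))))))))))⟩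
def e0_63__223_134 : Ent 4 := ⟨[a0, a63], [a223, a219], (M a60 (L l245 (F (T t67 (T t43 (T t68 (T t69 (K a20 (M a85 (L l245 (F (T t90 (T t114 (L l246 (T t1344 (K a211 (M a215 (F (T t5673 (T t90 (L l246 (T t1344 N)))))) (K a215 (M a211 (F (T t90 (T t114 (L l239 (L l246 (T t1344 N))))))) N))))))))) (K a40 (M a48 (L l245 (F (T t1 (T t64 (L l52 (T t235 (K a211 (M a215 (F (T t1 (T t42 (L l52 (L l344 (L l368 (T t1419 N)))))))) (K a215 (M a211 (F (T t70 (L l24 (L l355 (T t6051 N)))))) N))))))))) (K a21 (M a255 (L l245 (F (T t2967 (T t1565 (L l11 (L l283 (L l347 (L l368 (T t1567 (K a211 (M a215 (F (T t5676 (L l65 (T t2969 N))))) (K a215 (M a211 (F (T t1633 (L l347 (L l350 (L l368 (T t4709 (L l347 (L l350 (L l368 (T t4710 N))))))))))) N)))))))))))) (K a41 (M a48 (L l245 (F (T t42 (L l22 (T t2 (L l22 (L l57 (T t247 (K a211 (M a215 (F (T t70 (L l22 (L l367 (L l368 (L l389 (T t5678 N)))))))) (K a215 (M a211 (F (T t70 (L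 l355 (T t6051 N))))) N))))))))))) (K a61 (M a16 (L l245 (F (T t112 (L l362 (T t1140 (L l59 (L l356 (T t1141 (K a211 (M a215 (F (T t2447 (L l361 (L l373 (T t97 (L l367 (T t6326 N)))))))) (K a215 (M a211 (F (T t2447 (L l355 (T t6243 N))))) N))))))))))) (K a22 (M a150 (L l245 (F (T t1136 (L l11 (L l283 (T t2366 (L l11 (T t6328 (K a211 (M a215 (F (T t6329 (T t1622 N)))) (K a215 (M a211 (F (T t1622 (L l356 (L l368 (T t6330 N)))))) N))))))))))) (K a42 (M a255 (L l245 (F (T t1565 (L l283 (L l368 (T t1634 (L l66 (L l283 (L l368 (T t1567 (K a211 (M a215 (F (L l390 (T t5676 (L l283 (T t5682 N)))))) (K a215 (M a211 (F (T t2969 (L l350 (L l368 (T t4709 (L l66 (L l350 (L l368 (T t4710 N)))))))))) N))))))))))))) (K a62 (M a16 (L l245 (F (T t2447 (L l66 (L l361 (T t97 (L l66 (L l356 (T t1141 (K a211 (M a215 (F (T t2447 (L l66 (L l361 (L l373 (T t97 (L l66 (T t5685 N))))))))) (K a215 (M a211 (F (T t2447 (L l66 (L l355 (T t6243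 N)))))) N)))))))))))) (K a3 (M a16 (L l245 (F (T t112 (L l9 (L l362 (T t1140 (L l356 (T t1141 (K a211 (M a215 (F (T t6332 (T t5685 N)))) (K a215 (M a211 (F (T t2447 (L l355 (T t6243 N))))) N))))))))))) (K a211 (M a215 (F (T t67 (L l368 (T t5690 (L l368 (T t5685 (K a20 (M a48 (F (T t451 (L l11 (T t1 (L l11 (L l14 (L l344 (L l368 (T t1419 N)))))))))) (K a40 (M a23 (F (L l22 (T t5691 (L l367 (L l392 (T t5692 N))))))) N))))))))) (K a215 (M a211 (F (T t68 (L l350 (T t67 (L l349 (T t43 (T t69 (K a20 (M a150 (F (T t6333 (L l11 (L l368 (T t5415 N)))))) (K a40 (M a48 (F (T t70 (L l24 (L l355 (T t6051 N)))))) (K a21 (M a48 (F (T t70 (T t6334 N)))) (K a41 (M a48 (F (T t70 (L l355 (T t6051 N))))) (K a61 (M a16 (F (T t2447 (L l355 (T t6243 N))))) (K a22 (M a16 (F (T t2447 (L l16 (L l66 (L l355 (T t6243 N))))))) (K a42 (M a48 (F (T t64 (L l22 (L l28 (T t6334 N)))))) (K a62 (M a16 (F (T t2447 (L l66 (L l355 (T t6243 N))))))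 (K a3 (M a16 (F (T t2447 (L l355 (T t6243 N))))) N))))))))))))))))) N))))))))))))))))))⟩
def e0_63__223_135 : Ent 4 := ⟨[a0, a63], [a223, a224], (M a12 (F (T t122 (T t151 (T t152 (T t153 (K a4 (M a60 (F (T t43 (T t398 (T t448 N))))) (K a8 (M a60 (F (T t398 (T t67 (L l52 (L l56 (T t448 N))))))) (K a21 (M a192 (F (T t836 (L l15 (L l248 (L l347 (T t450 (L l15 (L l248 (L l347 (T t157 N))))))))))) (K a25 (M a192 (F (T t449 (L l15 (L l248 (T t450 (L l289 (T t21 N)))))))) (K a29 (M a192 (F (T t449 (L l289 (L l371 (T t21 (L l246 (L l411 (T t160 N))))))))) (K a38 (M a192 (F (T t156 (L l248 (T t450 (L l289 (T t21 N))))))) (K a42 (M a192 (F (T t449 (L l248 (T t450 (L l56 (L l248 (T t157 N)))))))) (K a46 (M a192 (F (T t449 (L l289 (T t21 (L l26 (L l246 (L l408 (L l411 (T t160 N)))))))))) (K a51 (M a192 (F (T t47 (L l513 (T t156 (L l248 (L l415 (T t450 N)))))))) N)))))))))))))))⟩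
def e0_63__223_136 : Ent 4 := ⟨[a0, a63], [a223, a225], (M a149 (F (T t175 (L l246 (T t5 (L l246 (L l289 (T t176 (L l289 (T t177 (K a192 (M a53 (F (T t178 (L l236 (L l289 (L l368 (T t179 (L l236 (L l246 (L l296 (T t180 N))))))))))) (K a21 (M a48 (F (T t4 (L l273 (T t13 (L l18 (L l289 (L l368 (T t14 N))))))))) (K a85 (M a16 (F (L l361 (T t97 (L l144 (L l246 (L l273 (T t190 (L l94 (T t278 N)))))))))) (K a213 (Fr a106 a192 l519 (Fr a42 a21 l68 (Fr a170 a234 l390 (Fr a255 a85 l476 (V t582))))) (K a42 (M a48 (F (T t11 (L l273 (L l390 (T t13 (L l54 (L l289 (L l368 (T t14 N)))))))))) (K a106 (M a48 (F (T t1 (L l104 (L l144 (L l246 (L l289 (L l361 (L l390 (T t1285 (L l289 (L l368 (L l498 (T t14 N)))))))))))))) (K a170 (M a48 (F (T t4 (L l462 (T t1 (L l273 (L l390 (T t13 N)))))))) (K a191 (M a16 (F (T t112 (L l246 (L l273 (T t190 (T t278 N))))))) (K a255 (M a207 (F (T t1286 (L l469 (T t1287 (L l246 (L l296 (T t1288 (L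 l361 (T t1289 N)))))))))) N)))))))))))))))))))⟩
def e0_63__223_137 : Ent 4 := ⟨[a0, a63], [a223, a226], (M a48 (F (T t1 (T t2 (L l368 (T t3 (L l361 (T t0 (K a16 (M a85 (F (T t4539 (T t50 (L l246 (T t51 N)))))) (K a32 (M a60 (F (T t67 (T t64 (L l24 (L l28 (T t65 N))))))) (K a21 (M a192 (F (T t27 (L l47 (L l289 (L l347 (T t20 (L l18 (L l289 (L l368 (L l408 (T t224 N)))))))))))) (K a37 (M a192 (F (T t27 (L l47 (L l289 (T t20 (L l289 (T t21 N)))))))) (K a53 (M a192 (F (T t27 (L l289 (L l491 (T t21 (L l47 (L l254 (L l491 (T t525 N)))))))))) (K a26 (M a192 (F (T t27 (L l289 (T t20 (L l289 (T t21 N))))))) (K a42 (M a192 (F (T t837 (L l289 (T t20 (L l54 (L l289 (L l368 (L l390 (L l408 (T t224 N))))))))))) (K a58 (M a192 (F (T t837 (L l289 (T t21 (L l254 (T t525 N))))))) (K a15 (M a106 (F (T t2289 (L l254 (T t306 N))))) N)))))))))))))))))⟩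
def e0_63__223_138 : Ent 4 := ⟨[a0, a63], [a223, a227], (M a149 (F (T t175 (L l246 (T t5 (L l246 (L l289 (T t176 (L l289 (T t177 (K a192 (M a53 (F (L l339 (T t982 (L l236 (L l255 (L l289 (L l368 (T t179 (L l236 (L l246 (L l296 (T t180 N))))))))))))) (K a21 (M a48 (F (T t4 (T t13 (L l18 (L l255 (L l289 (L l368 (T t14 N))))))))) (K a85 (M a16 (F (L l361 (L l380 (T t97 (L l144 (L l246 (L l380 (T t190 (L l94 (T t278 N))))))))))) (K a213 (Fr a106 a192 l519 (Fr a42 a21 l68 (Fr a170 a234 l390 (Fr a255 a85 l476 (V t582))))) (K a42 (M a48 (F (T t11 (L l390 (T t13 (L l54 (L l255 (L l289 (L l368 (T t14 N)))))))))) (K a106 (M a48 (F (T t1 (L l104 (L l144 (L l246 (L l289 (L l361 (L l390 (T t1285 (L l255 (L l289 (L l368 (L l498 (T t14 N))))))))))))))) (K a170 (M a48 (F (T t4 (L l462 (T t1 (L l390 (T t13 N))))))) (K a191 (M a16 (F (L l380 (T t112 (L l246 (L l380 (T t190 (T t278 N)))))))) (K a255 (M a207 (F (T t1286 (L l469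 (T t1287 (L l246 (L l296 (T t1288 (L l361 (L l380 (T t1289 N))))))))))) N)))))))))))))))))))⟩
def e0_63__223_139 : Ent 4 := ⟨[a0, a63], [a223, a229], (M a149 (F (L l256 (T t175 (L l246 (L l275 (T t5 (L l246 (L l275 (L l289 (T t176 (L l289 (T t177 (K a192 (M a29 (F (T t956 (L l272 (T t641 (L l246 (L l272 (L l275 (L l296 (T t957 N)))))))))) (K a21 (M a240 (F (T t4727 (T t1091 (T t1207 N))))) (K a85 (M a16 (F (L l361 (T t97 (L l144 (L l246 (L l303 (T t190 (L l94 (T t278 N)))))))))) (K a213 (Fr a106 a192 l519 (Fr a42 a21 l68 (Fr a170 a234 l390 (Fr a255 a85 l476 (V t582))))) (K a42 (M a240 (F (T t4727 (L l390 (T t1091 (T t1207 N)))))) (K a106 (M a12 (F (T t122 (L l408 (T t649 (L l246 (L l275 (L l362 (L l390 (L l408 (T t960 (L l246 (L l275 (L l390 (T t961 N))))))))))))))) (K a170 (M a48 (F (T t11 (L l462 (T t1 (L l303 (L l390 (T t13 N)))))))) (K a191 (M a16 (F (T t112 (L l246 (L l303 (T t190 (T t278 N))))))) (K a255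 (M a207 (F (T t6369 (L l275 (L l469 (T t1287 (L l440 (T t6414 (L l361 (L l383 (T t1289 N))))))))))) N))))))))))))))))))))))⟩
def e0_63__223_140 : Ent 4 := ⟨[a0, a63], [a223, a230], (M a149 (F (L l254 (T t175 (L l246 (L l278 (T t5 (L l246 (L l278 (L l289 (T t176 (L l289 (T t177 (K a192 (M a53 (F (T t178 (L l236 (L l289 (L l368 (T t179 (L l236 (L l246 (L l278 (L l296 (T t180 N)))))))))))) (K a21 (M a48 (F (T t4 (T t13 (L l18 (L l289 (L l368 (T t14 N)))))))) (K a85 (M a16 (F (L l361 (T t97 (L l144 (L l246 (T t190 (L l94 (T t278 N))))))))) (K a213 (Fr a106 a192 l519 (Fr a42 a21 l68 (Fr a170 a234 l390 (Fr a255 a85 l476 (V t582))))) (K a42 (M a48 (F (T t11 (L l390 (T t13 (L l54 (L l289 (L l368 (T t14 N))))))))) (K a106 (M a48 (F (T t1 (L l104 (L l144 (L l246 (L l278 (L l289 (L l361 (L l390 (T t1285 (L l289 (L l368 (L l498 (T t14 N))))))))))))))) (K a170 (M a48 (F (T t4 (L l462 (T t1 (L l390 (T t13 N))))))) (K a191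 (M a16 (F (T t112 (L l246 (T t190 (T t278 N)))))) (K a255 (M a207 (F (T t1286 (L l469 (T t1287 (L l246 (L l278 (L l296 (T t1288 (L l361 (T t1289 N))))))))))) N))))))))))))))))))))))⟩
def e0_63__223_141 : Ent 4 := ⟨[a0, a63], [a223, a231], (M a149 (F (T t175 (L l246 (T t5 (L l246 (L l289 (T t176 (L l289 (T t177 (K a192 (M a53 (F (T t178 (L l236 (L l255 (L l289 (L l368 (T t179 (L l236 (L l246 (L l296 (T t180 N)))))))))))) (K a21 (M a48 (F (T t4 (T t13 (L l18 (L l255 (L l289 (L l368 (T t14 N))))))))) (K a85 (M a16 (F (L l361 (T t97 (L l144 (L l246 (T t190 (L l94 (T t278 N))))))))) (K a213 (Fr a106 a192 l519 (Fr a42 a21 l68 (Fr a170 a234 l390 (Fr a255 a85 l476 (V t582))))) (K a42 (M a48 (F (T t11 (L l390 (T t13 (L l54 (L l255 (L l289 (L l368 (T t14 N)))))))))) (K a106 (M a48 (F (T t1 (L l104 (L l144 (L l246 (L l289 (L l361 (L l390 (T t1285 (L l255 (L l289 (L l368 (L l498 (T t14 N))))))))))))))) (K a170 (M a48 (F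 (T t4 (L l462 (T t1 (L l390 (T t13 N))))))) (K a191 (M a16 (F (T t112 (L l246 (T t190 (T t278 N)))))) (K a255 (M a207 (F (T t6369 (L l469 (T t1287 (L l246 (L l296 (T t1288 (L l361 (L l386 (T t1289 N))))))))))) N)))))))))))))))))))⟩
def e0_63__223_142 : Ent 4 := ⟨[a0, a63], [a223, a234], (M a12 (F (T t122 (L l390 (T t151 (T t152 (L l390 (T t153 (K a4 (M a60 (F (T t398 (L l46 (L l50 (T t67 (L l390 (T t448 N)))))))) (K a8 (M a60 (F (T t398 (T t67 (L l52 (L l56 (L l390 (T t448 N)))))))) (K a21 (M a192 (F (T t836 (L l15 (L l254 (L l347 (T t450 (L l15 (L l254 (L l347 (T t157 N))))))))))) (K a25 (M a192 (F (T t156 (L l15 (L l254 (T t450 (L l289 (L l390 (T t202 N))))))))) (K a29 (M a192 (F (T t156 (L l289 (L l390 (T t202 (L l390 (T t2625 N)))))))) (K a38 (M a192 (F (T t156 (L l254 (T t450 (L l289 (L l390 (T t202 N)))))))) (K a42 (M a106 (F (T t2416 (L l56 (L l254 (T t2415 (T t2305 N))))))) (K a46 (M a192 (F (T t156 (L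 l289 (L l390 (L l408 (T t202 (L l390 (L l408 (T t2625 N)))))))))) (K a51 (M a192 (F (T t159 (L l254 (L l415 (T t450 (L l289 (L l390 (L l439 (T t202 N)))))))))) N)))))))))))))))))⟩
def e0_63__223_143 : Ent 4 := ⟨[a0, a63], [a223, a235], (M a48 (F (T t1 (T t2 (L l368 (T t3 (L l361 (T t0 (K a16 (M a85 (F (L l246 (T t88 (L l392 (T t50 (L l246 (T t51 N)))))))) (K a32 (M a60 (F (T t64 (L l391 (T t67 (L l24 (L l28 (L l392 (T t65 N))))))))) (K a21 (M a192 (F (T t27 (L l47 (L l289 (L l347 (T t20 (L l18 (L l255 (L l289 (L l368 (T t224 N)))))))))))) (K a37 (M a192 (F (T t837 (L l47 (L l289 (T t20 (L l289 (L l295 (T t21 N))))))))) (K a53 (M a192 (F (T t27 (L l289 (L l295 (L l491 (T t21 (L l47 (L l250 (L l491 (T t525 N))))))))))) (K a26 (M a192 (F (T t27 (L l289 (T t20 (L l289 (L l295 (T t21 N)))))))) (K a42 (M a192 (F (T t837 (L l289 (T t20 (L l54 (L l255 (L l289 (L l368 (L l390 (T t224 N))))))))))) (K a58 (M a192 (F (T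 t837 (L l289 (L l295 (T t21 (L l250 (T t525 N)))))))) (K a15 (M a192 (F (T t1800 (L l483 (T t27 (L l289 (L l325 (T t20 N)))))))) N)))))))))))))))))⟩
def e0_63__223_144 : Ent 4 := ⟨[a0, a63], [a223, a239], (M a255 (F (L l404 (T t1165 (L l256 (L l368 (T t2138 (L l246 (L l404 (T t2142 (L l368 (T t2139 (K a192 (M a240 (F (T t5871 (L l339 (L l368 (L l397 (T t5869 (L l339 (L l361 (L l404 (T t5867 N))))))))))) (K a21 (M a240 (F (T t6415 (L l347 (L l368 (L l397 (T t5869 (L l361 (L l404 (T t5867 N)))))))))) (K a85 (M a48 (L l368 (F (T t511 (L l347 (T t1 (L l123 (L l144 (L l347 (T t5872 (L l361 (L l404 (L l455 (T t3586 (K a16 (M a154 (F (L l123 (L l404 (T t6416 (T t511 (L l144 (T t3195 N)))))))) (K a154 (Fr a16 a32 l40 (V t3290)) N)))))))))))))))) (K a149 (M a240 (F (T t6417 (L l347 (L l368 (L l397 (T t5869 (L l199 (L l220 (L l361 (L l404 (T t5867 N)))))))))))) (K a42 (M a240 (F (T t6418 (L l368 (L l397 (T t5869 (L l361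 (L l390 (L l404 (T t5867 N)))))))))) (K a106 (M a240 (F (T t6415 (L l390 (L l404 (T t5876 (L l130 (L l144 (L l368 (L l397 (T t5877 N))))))))))) (K a170 (M a48 (L l404 (F (T t546 (L l390 (T t2 (L l368 (L l397 (L l462 (T t3585 (L l206 (L l220 (L l390 (T t6419 (K a32 (M a101 (F (L l206 (L l368 (T t6420 (T t546 (L l390 (T t3188 N)))))))) (K a101 (Fr a32 a16 l40 (V t6421)) N)))))))))))))))) (K a127 (M a4 (F (T t519 (L l404 (T t4436 (L l113 (L l404 (T t4437 N)))))))) (K a191 (M a4 (F (T t519 (L l220 (L l404 (T t4436 (L l220 (L l404 (T t4437 N))))))))) N)))))))))))))))))))))⟩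
def e0_63__223_145 : Ent 4 := ⟨[a0, a63], [a223, a240], (M a12 (F (T t150 (L l417 (T t122 (L l417 (T t151 (L l417 (T t152 (L l417 (T t153 (K a4 (M a60 (F (T t570 (L l46 (L l50 (L l453 (T t67 (T t448 N)))))))) (K a8 (M a60 (F (T t116 (L l483 (T t398 (L l52 (L l56 (T t448 N)))))))) (K a21 (M a192 (F (T t158 (L l298 (T t156 (L l15 (L l347 (T t157 N)))))))) (K a25 (M a192 (F (T t158 (L l298 (T t156 (L l266 (L l289 (T t21 N)))))))) (K a29 (M a192 (F (T t1800 (L l298 (T t156 (L l246 (T t160 N))))))) (K a38 (M a192 (F (T t161 (L l298 (T t156 (L l266 (L l289 (T t21 N)))))))) (K a42 (M a192 (F (T t161 (L l298 (T t156 (L l56 (T t157 N))))))) (K a46 (M a192 (F (T t57 (L l298 (T t156 (L l26 (L l246 (L l408 (T t160 N))))))))) (K a51 (M a192 (L l417 (F (T t47 (L l298 (L l513 (T t156 (L l258 (L l415 (T t450 (K a177 (M a114 (F (T t1800 (L l258 (L l415 (T t543 (L l298 (L l513 (T t468 N))))))))) (K a114 (M a177 (F (T t1800 (L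 l258 (L l415 (T t543 (L l298 (L l513 (T t468 N))))))))) N)))))))))))) N))))))))))))))))))))⟩
def e0_63__223_146 : Ent 4 := ⟨[a0, a63], [a223, a241], (M a149 (F (T t175 (L l246 (T t5 (L l246 (L l289 (T t176 (L l289 (T t177 (K a192 (M a53 (F (T t178 (L l236 (L l289 (L l368 (T t179 (L l236 (L l246 (L l296 (L l443 (T t180 N)))))))))))) (K a21 (M a48 (F (T t4 (L l258 (T t13 (L l18 (L l289 (L l368 (T t14 N))))))))) (K a85 (M a16 (F (L l361 (T t97 (L l144 (L l246 (L l258 (T t190 (L l94 (T t278 N)))))))))) (K a213 (Fr a106 a192 l519 (Fr a42 a21 l68 (Fr a170 a234 l390 (Fr a255 a85 l476 (V t582))))) (K a42 (M a48 (F (T t11 (L l258 (L l390 (T t13 (L l54 (L l289 (L l368 (T t14 N)))))))))) (K a106 (M a48 (F (T t1 (L l104 (L l144 (L l246 (L l289 (L l361 (L l390 (T t1285 (L l289 (L l368 (L l498 (T t14 N)))))))))))))) (K a170 (M a48 (F (T t4 (L l462 (T t1 (L l258 (L l390 (T t13 N)))))))) (K a191 (M a16 (F (T t112 (L l246 (L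 l258 (T t190 (T t278 N))))))) (K a255 (M a207 (F (T t1286 (L l469 (T t1287 (L l246 (L l296 (T t1288 (L l361 (T t1289 N)))))))))) N)))))))))))))))))))⟩
def e0_63__223_147 : Ent 4 := ⟨[a0, a63], [a223, a242], (M a149 (F (T t175 (L l246 (T t5 (L l246 (L l289 (T t176 (L l289 (T t177 (K a192 (M a53 (F (T t178 (L l236 (L l289 (L l368 (T t179 (L l236 (L l246 (L l296 (T t180 N))))))))))) (K a21 (M a48 (F (T t4 (L l258 (T t13 (L l18 (L l289 (L l368 (T t14 N))))))))) (K a85 (M a16 (F (L l361 (T t97 (L l144 (L l246 (L l258 (T t190 (L l94 (L l480 (T t278 N))))))))))) (K a213 (Fr a106 a192 l519 (Fr a42 a21 l68 (Fr a170 a234 l390 (Fr a255 a85 l476 (V t582))))) (K a42 (M a48 (F (T t11 (L l258 (L l390 (T t13 (L l54 (L l289 (L l368 (T t14 N)))))))))) (K a106 (M a48 (F (T t1 (L l104 (L l144 (L l246 (L l289 (L l361 (L l390 (T t1285 (L l289 (L l368 (L l498 (T t14 N)))))))))))))) (K a170 (M a48 (F (T t4 (L l462 (T t1 (L l258 (L l390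 (T t13 N)))))))) (K a191 (M a60 (F (T t463 (L l246 (L l444 (T t1256 N)))))) (K a255 (M a207 (F (T t1286 (L l469 (T t1287 (L l246 (L l296 (T t1288 (L l361 (T t1289 N)))))))))) N)))))))))))))))))))⟩
def e0_63__223_148 : Ent 4 := ⟨[a0, a63], [a223, a243], (M a60 (F (T t116 (L l451 (T t67 (L l451 (T t43 (L l451 (T t68 (L l451 (T t69 (K a20 (M a48 (F (T t138 (L l11 (L l481 (T t1 (L l11 (T t235 N)))))))) (K a40 (M a48 (F (T t246 (L l481 (T t1 (L l52 (T t235 N))))))) (K a21 (M a192 (F (T t2647 (L l271 (L l347 (T t73 (L l245 (L l347 (T t74 N))))))))) (K a41 (M a192 (F (T t254 (L l65 (L l265 (L l289 (T t35 (L l271 (T t73 N))))))))) (K a61 (M a192 (F (T t1334 (L l65 (L l265 (L l289 (L l515 (T t35 (L l246 (T t80 N)))))))))) (K a22 (M a192 (F (T t614 (L l11 (L l267 (T t79 (L l11 (L l265 (L l289 (T t35 N)))))))))) (K a42 (M a192 (F (T t614 (L l267 (T t79 (L l22 (L l245 (T t74 N)))))))) (K a62 (M a192 (F (T t57 (L l267 (T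 t79 (L l66 (L l246 (L l516 (T t80 N))))))))) (K a3 (M a85 (L l451 (F (T t5413 (L l246 (L l272 (L l309 (T t88 (L l245 (T t523 (K a83 (M a163 (F (T t447 (L l245 (L l246 (T t115 N)))))) (K a163 (M a83 (F (T t4539 (L l265 (L l289 (L l475 (T t1345 (L l245 (T t523 N))))))))) N)))))))))))) N))))))))))))))))))))⟩
def e0_63__223_149 : Ent 4 := ⟨[a0, a63], [a223, a245], (M a12 (F (T t122 (T t151 (T t152 (T t153 (K a4 (M a60 (F (T t43 (T t398 (T t448 N))))) (K a8 (M a60 (F (T t398 (T t67 (L l52 (L l56 (T t448 N))))))) (K a21 (M a192 (F (T t836 (L l15 (L l347 (T t450 (L l15 (L l259 (L l347 (T t157 N)))))))))) (K a25 (M a192 (F (T t449 (L l15 (T t450 (L l266 (L l289 (T t21 N)))))))) (K a29 (M a192 (F (T t449 (L l266 (L l289 (L l371 (T t21 (L l246 (L l275 (T t160 N)))))))))) (K a38 (M a192 (F (T t836 (T t450 (L l266 (L l289 (T t21 N))))))) (K a42 (M a192 (F (T t449 (T t450 (L l56 (L l259 (T t157 N))))))) (K a46 (M a192 (F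 (T t449 (L l266 (L l289 (T t21 (L l26 (L l246 (L l275 (L l408 (T t160 N))))))))))) (K a51 (M a192 (F (T t1800 (L l513 (T t156 (L l415 (T t450 N))))))) N)))))))))))))))⟩
def e0_63__223_150 : Ent 4 := ⟨[a0, a63], [a223, a246], (M a149 (F (T t175 (L l246 (T t5 (L l246 (L l289 (T t176 (L l289 (T t177 (K a192 (M a53 (F (T t178 (L l236 (L l289 (L l368 (T t179 (L l236 (L l246 (L l296 (T t180 N))))))))))) (K a21 (M a48 (F (T t4 (T t13 (L l18 (L l289 (L l368 (T t14 N)))))))) (K a85 (M a16 (F (L l361 (T t97 (L l144 (L l246 (T t190 (L l94 (T t278 N))))))))) (K a213 (Fr a106 a192 l519 (Fr a42 a21 l68 (Fr a170 a234 l390 (Fr a255 a85 l476 (V t582))))) (K a42 (M a48 (F (T t11 (L l390 (T t13 (L l54 (L l289 (L l368 (T t14 N))))))))) (K a106 (M a48 (F (T t1 (L l104 (L l144 (L l246 (L l289 (L l361 (L l390 (T t1285 (L l289 (L l368 (L l498 (T t14 N)))))))))))))) (K a170 (M a48 (F (T t4 (L l462 (T t1 (L l390 (T t13 N))))))) (K a191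 (M a16 (F (T t112 (L l246 (T t190 (T t278 N)))))) (K a255 (M a207 (F (T t1286 (L l469 (T t1287 (L l246 (L l296 (T t1288 (L l361 (T t1289 N)))))))))) N)))))))))))))))))))⟩
def e0_63__223_151 : Ent 4 := ⟨[a0, a63], [a223, a247], (M a60 (F (T t67 (T t43 (T t68 (T t69 (K a20 (M a48 (F (T t2 (T t64 (L l11 (L l457 (T t235 N))))))) (K a40 (M a48 (F (T t64 (T t1 (L l52 (L l457 (T t235 N))))))) (K a21 (M a192 (F (T t72 (L l347 (T t73 (L l245 (L l277 (L l347 (T t74 N))))))))) (K a41 (M a192 (F (T t77 (L l65 (L l265 (L l289 (T t35 (T t73 N)))))))) (K a61 (M a192 (F (T t72 (L l65 (L l265 (L l289 (L l515 (T t35 (L l246 (L l278 (T t80 N))))))))))) (K a22 (M a192 (F (T t72 (L l265 (L l289 (T t21 (T t73 N))))))) (K a42 (M a192 (F (T t79 (T t73 (L l22 (L l245 (L l277 (T t74 N)))))))) (K a62 (M a192 (F (T t72 (L l265 (L l289 (T t35 (L l66 (L l246 (L l278 (L l516 (T t80 N))))))))))) (K a3 (M a85 (F (T t447 (L l245 (L l246 (L l277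 (L l278 (T t115 N)))))))) N)))))))))))))))⟩
def e0_63__223_152 : Ent 4 := ⟨[a0, a63], [a223, a250], (M a12 (F (T t122 (T t151 (T t152 (T t153 (K a4 (M a60 (F (T t43 (T t398 (T t448 N))))) (K a8 (M a60 (F (T t398 (T t67 (L l52 (L l56 (T t448 N))))))) (K a21 (M a192 (F (T t836 (L l15 (L l347 (T t450 (L l15 (L l347 (T t157 N))))))))) (K a25 (M a192 (F (T t449 (L l15 (T t450 (L l266 (L l289 (T t21 N)))))))) (K a29 (M a192 (F (T t449 (L l266 (L l289 (L l371 (T t21 (L l246 (T t160 N))))))))) (K a38 (M a192 (F (T t836 (T t450 (L l266 (L l289 (T t21 N))))))) (K a42 (M a192 (F (T t449 (T t450 (L l56 (T t157 N)))))) (K a46 (M a192 (F (T t449 (L l266 (L l289 (T t21 (L l26 (L l246 (L l408 (T t160 N)))))))))) (K a51 (M a192 (F (T t1800 (L l513 (T t156 (L l415 (T t450 N))))))) N)))))))))))))))⟩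
def e0_63__223_153 : Ent 4 := ⟨[a0, a63], [a223, a251], (M a48 (F (T t1 (T t2 (L l368 (T t3 (L l361 (T t0 (K a16 (M a85 (F (L l246 (T t88 (L l464 (T t50 (L l246 (T t51 N)))))))) (K a32 (M a60 (F (T t64 (T t67 (L l24 (L l28 (T t65 N))))))) (K a21 (M a192 (F (T t27 (L l47 (L l289 (L l347 (T t20 (L l18 (L l289 (L l368 (T t224 N))))))))))) (K a37 (M a192 (F (T t837 (L l47 (L l289 (T t20 (L l265 (L l289 (T t21 N))))))))) (K a53 (M a192 (F (T t27 (L l265 (L l289 (L l491 (T t21 (L l47 (L l284 (L l491 (T t525 N))))))))))) (K a26 (M a192 (F (T t27 (L l289 (T t20 (L l265 (L l289 (T t21 N)))))))) (K a42 (M a192 (F (T t837 (L l289 (T t20 (L l54 (L l289 (L l368 (L l390 (T t224 N)))))))))) (K a58 (M a192 (F (T t837 (L l265 (L l289 (T t21 (L l284 (T t525 N)))))))) (K a15 (M a192 (F (T t1800 (L l483 (T t27 (L l289 (L l325 (T t20 N)))))))) N)))))))))))))))))⟩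
def e0_63__223_154 : Ent 4 := ⟨[a0, a63], [a223, a255], (M a48 (L l289 (F (T t132 (L l469 (T t1 (L l469 (T t2 (L l368 (L l469 (T t3 (L l361 (L l469 (T t0 (K a16 (M a60 (L l289 (L l368 (F (T t138 (L l14 (L l18 (L l475 (T t67 (T t65 (K a85 (M a154 (L l289 (F (T t522 (L l296 (L l340 (T t473 (K a207 (M a239 (F (T t522 (L l235 (L l236 (T t5887 N)))))) (K a239 (Fr a207 a101 l512 (V t6422)) N))))))))) (K a154 (M a85 (L l289 (F (T t246 (L l245 (L l246 (L l295 (L l296 (T t115 (K a207 (M a239 (F (T t246 (L l245 (L l246 (L l295 (L l296 (T t115 N)))))))) (K a239 (M a207 (F (T t246 (L l170 (L l206 (L l246 (L l296 (L l361 (T t2862 N))))))))) N))))))))))) (K a207 (M a239 (L l368 (F (T t522 (L l439 (L l511 (T t451 (T t65 (K a85 (M a154 (F (T t522 (L l235 (L l236 (T t5887 N)))))) (K a154 (M a85 (F (T t246 (L l245 (L l246 (L l295 (L l296 (T t115 N)))))))) N)))))))))) (K a239 (M a207 (L l368 (F (T t662 (L l296 (L l404 (T t6423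 (K a85 (Fr a154 a101 l512 (V t6422)) (K a154 (M a85 (F (T t246 (L l170 (L l206 (L l246 (L l296 (L l361 (T t2862 N))))))))) N))))))))) N)))))))))))))) (K a32 (M a60 (L l289 (F (T t138 (L l475 (T t67 (L l24 (L l28 (T t65 (K a207 (M a239 (F (T t2568 (L l439 (L l511 (T t451 (L l24 (L l28 (T t65 N))))))))) (K a239 (M a207 (L l404 (F (T t2568 (L l296 (L l361 (L l368 (L l376 (T t6424 (K a101 (M a170 (F (T t277 (L l101 (L l123 (L l255 (L l295 (L l398 (T t6425 N))))))))) (K a170 (Fr a101 a154 l512 (V t6426)) N))))))))))) N))))))))))) (K a21 (M a192 (L l289 (F (T t53 (L l266 (T t27 (T t6427 (K a207 (M a239 (F (T t1922 (L l18 (L l368 (T t6428 (T t6429 (L l347 (T t6430 N))))))))) (K a239 (M a207 (F (T t6431 (L l469 (T t6432 N))))) N))))))))) (K a37 (M a52 (L l289 (F (T t555 (L l470 (T t82 (L l21 (L l28 (T t84 (K a207 (M a239 (F (T t555 (L l326 (L l470 (T t82 (L l21 (L l28 (T t84 N))))))))) (K a239 (M a207 (F (T t555 (L l368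 (T t6433 N))))) N))))))))))) (K a53 (M a12 (L l289 (F (T t865 (L l47 (L l439 (T t122 (L l47 (T t146 (K a207 (M a239 (F (T t1252 (L l368 (L l434 (L l506 (T t445 (L l47 (T t146 N))))))))) (K a239 (M a207 (F (T t5387 (L l47 (T t146 N))))) N))))))))))) (K a26 (M a56 (L l289 (F (T t556 (L l470 (T t133 (L l12 (L l18 (T t135 (K a207 (M a239 (F (T t556 (L l326 (L l470 (T t133 (L l12 (L l18 (T t135 N))))))))) (K a239 (M a207 (F (T t556 (L l404 (T t6434 N))))) N))))))))))) (K a42 (M a192 (L l289 (F (T t33 (L l266 (T t27 (L l54 (L l390 (T t6427 (K a207 (M a239 (F (L l28 (T t1922 (L l54 (L l368 (L l390 (T t6435 (L l28 (L l390 (T t6429 (L l368 (T t6436 N))))))))))))) (K a239 (M a207 (F (T t6437 (L l266 (T t27 N))))) N))))))))))) (K a58 (M a12 (L l289 (F (T t150 (L l362 (L l434 (T t443 (T t146 (K a207 (M a239 (F (T t150 (L l368 (L l434 (L l506 (T t445 (T t146 N)))))))) (K a239 (M a207 (F (T t5384 (T t146 N)))) N))))))))))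 (K a15 (M a52 (L l289 (L l469 (F (T t491 (L l3 (L l470 (T t82 (T t84 (K a207 (M a239 (L l325 (L l469 (F (T t4776 (L l73 (L l439 (L l511 (T t83 (T t84 (K a79 (M a143 (L l469 (F (T t4776 (L l73 (L l439 (L l511 (T t83 (T t84 (K a95 (M a175 (L l137 (L l361 (F (T t491 (L l3 (L l326 (L l470 (T t82 (T t84 (K a31 (Fr a159 a191 l213 (V t83)) (K a159 (M a31 (L l137 (F (T t5174 (L l73 (L l439 (L l511 (T t83 (K a111 (M a127 (F (T t5174 (L l73 (L l439 (L l511 (T t83 N))))))) (K a127 (Fr a111 a47 l397 (V t5174)) N)))))))))) (K a111 (M a127 (L l361 (F (T t4776 (L l73 (L l439 (L l511 (T t83 (T t84 (K a31 (Fr a159 a191 l213 (V t82)) (K a159 (M a31 (F (T t5174 (L l73 (L l439 (L l511 (T t83 N))))))) N))))))))))) (K a127 (Fr a111 a47 l397 (V t83)) N)))))))))))))) (K a175 (M a95 (F (T t4776 (L l73 (L l439 (L l511 (T t83 (T t84 N)))))))) N))))))))))) (K a143 (M a79 (L l469 (F (T t4776 (L l73 (L l439 (L l511 (T t83 (T t84 (K a95 (M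 a175 (L l361 (F (T t555 (L l368 (T t5916 (K a31 (M a159 (F (T t491 (L l18 (L l368 (T t5916 N)))))) (K a159 (M a31 (F (T t5922 (L l73 (L l439 (L l511 (T t83 N))))))) N)))))))) (K a175 (M a95 (L l213 (F (T t4776 (L l73 (L l439 (L l511 (T t83 (T t84 (K a159 (M a191 (F (T t491 (L l3 (L l326 (L l470 (T t82 (T t84 N)))))))) (K a191 (M a159 (F (T t555 (L l3 (L l326 (L l470 (T t82 (T t84 N)))))))) N))))))))))) N))))))))))) (K a95 (M a175 (L l325 (L l361 (F (T t491 (L l137 (L l368 (T t5916 (K a79 (M a143 (L l137 (L l361 (F (T t491 (L l3 (L l326 (L l470 (T t82 (T t84 (K a31 (Fr a159 a191 l213 (V t83)) (K a159 (M a31 (L l137 (F (T t5174 (L l73 (L l439 (L l511 (T t83 (K a111 (M a127 (F (T t5174 (L l73 (L l439 (L l511 (T t83 N))))))) (K a127 (Fr a111 a47 l397 (V t5174)) N)))))))))) (K a111 (M a127 (L l361 (F (T t4776 (L l73 (L l439 (L l511 (T t83 (T t84 (K a31 (Fr a159 a191 l213 (V t82)) (K a159 (M a31 (F (T t5174 (L l73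 (L l439 (L l511 (T t83 N))))))) N))))))))))) (K a127 (Fr a111 a47 l397 (V t83)) N)))))))))))))) (K a143 (M a79 (L l361 (F (T t555 (L l368 (T t5916 (K a31 (M a159 (F (T t491 (L l18 (L l368 (T t5916 N)))))) (K a159 (M a31 (F (T t5922 (L l73 (L l439 (L l511 (T t83 N))))))) N)))))))) (K a31 (M a159 (L l325 (F (T t491 (L l18 (L l137 (L l368 (T t5916 (K a79 (Fr a143 a191 l213 (V t83)) (K a143 (M a79 (F (T t491 (L l18 (L l368 (T t5916 N)))))) N)))))))))) (K a159 (M a31 (L l325 (F (T t5174 (L l73 (L l439 (L l511 (T t83 (K a79 (M a143 (L l137 (F (T t5174 (L l73 (L l439 (L l511 (T t83 (K a111 (M a127 (F (T t5174 (L l73 (L l439 (L l511 (T t83 N))))))) (K a127 (Fr a111 a47 l397 (V t5174)) N)))))))))) (K a143 (M a79 (F (T t5922 (L l73 (L l439 (L l511 (T t83 N))))))) N)))))))))) N)))))))))))) (K a175 (M a95 (L l325 (F (T t4776 (L l73 (L l439 (L l511 (T t83 (T t84 (K a79 (M a143 (F (T t4776 (L l73 (L l439 (L l511 (T t83 (T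 t84 N)))))))) (K a143 (M a79 (L l213 (F (T t4776 (L l73 (L l439 (L l511 (T t83 (T t84 (K a159 (M a191 (F (T t491 (L l3 (L l326 (L l470 (T t82 (T t84 N)))))))) (K a191 (M a159 (F (T t555 (L l3 (L l326 (L l470 (T t82 (T t84 N)))))))) N))))))))))) N))))))))))) N)))))))))))))) (K a95 (M a175 (L l289 (L l361 (F (T t491 (L l3 (L l470 (T t82 (T t84 (K a207 (M a239 (L l325 (L l361 (F (T t491 (L l137 (L l368 (T t5916 (K a79 (M a143 (L l137 (L l361 (F (T t491 (L l3 (L l326 (L l470 (T t82 (T t84 (K a31 (Fr a159 a191 l213 (V t83)) (K a159 (M a31 (L l137 (F (T t5174 (L l73 (L l439 (L l511 (T t83 (K a111 (M a127 (F (T t5174 (L l73 (L l439 (L l511 (T t83 N))))))) (K a127 (Fr a111 a47 l397 (V t5174)) N)))))))))) (K a111 (M a127 (L l361 (F (T t4776 (L l73 (L l439 (L l511 (T t83 (T t84 (K a31 (Fr a159 a191 l213 (V t82)) (K a159 (M a31 (F (T t5174 (L l73 (L l439 (L l511 (T t83 N))))))) N))))))))))) (K a127 (Fr a111 a47 l397 (V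 t83)) N)))))))))))))) (K a143 (M a79 (L l361 (F (T t555 (L l368 (T t5916 (K a31 (M a159 (F (T t491 (L l18 (L l368 (T t5916 N)))))) (K a159 (M a31 (F (T t5922 (L l73 (L l439 (L l511 (T t83 N))))))) N)))))))) (K a31 (M a159 (L l325 (F (T t491 (L l18 (L l137 (L l368 (T t5916 (K a79 (Fr a143 a191 l213 (V t83)) (K a143 (M a79 (F (T t491 (L l18 (L l368 (T t5916 N)))))) N)))))))))) (K a159 (M a31 (L l325 (F (T t5174 (L l73 (L l439 (L l511 (T t83 (K a79 (M a143 (L l137 (F (T t5174 (L l73 (L l439 (L l511 (T t83 (K a111 (M a127 (F (T t5174 (L l73 (L l439 (L l511 (T t83 N))))))) (K a127 (Fr a111 a47 l397 (V t5174)) N)))))))))) (K a143 (M a79 (F (T t5922 (L l73 (L l439 (L l511 (T t83 N))))))) N)))))))))) N)))))))))))) (K a31 (M a159 (L l289 (F (T t4776 (L l137 (L l296 (L l339 (T t4458 (K a207 (M a239 (L l325 (F (T t491 (L l18 (L l137 (L l368 (T t5916 (K a79 (Fr a143 a191 l213 (V t83)) (K a143 (M a79 (F (T t491 (L l18 (L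 l368 (T t5916 N)))))) N)))))))))) (K a239 (Fr a207 a111 l505 (V t6438)) N)))))))))) (K a159 (M a31 (L l289 (F (T t5174 (L l73 (L l439 (T t83 (K a207 (M a239 (L l325 (F (T t5174 (L l73 (L l439 (L l511 (T t83 (K a79 (M a143 (L l137 (F (T t5174 (L l73 (L l439 (L l511 (T t83 (K a111 (M a127 (F (T t5174 (L l73 (L l439 (L l511 (T t83 N))))))) (K a127 (Fr a111 a47 l397 (V t5174)) N)))))))))) (K a143 (M a79 (F (T t5922 (L l73 (L l439 (L l511 (T t83 N))))))) N)))))))))) (K a239 (M a207 (F (T t5174 (L l73 (L l439 (T t83 N)))))) N))))))))) (K a239 (M a207 (L l361 (F (T t4775 (L l137 (L l296 (L l339 (L l404 (T t6439 (K a31 (Fr a159 a111 l505 (V t6438)) (K a159 (M a31 (F (T t5174 (L l73 (L l439 (T t83 N)))))) N))))))))))) N))))))))))))) (K a175 (M a95 (L l289 (F (T t491 (L l3 (L l470 (T t82 (T t84 (K a207 (M a239 (L l325 (F (T t4776 (L l73 (L l439 (L l511 (T t83 (T t84 (K a79 (M a143 (F (T t4776 (L l73 (L l439 (L l511 (T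 t83 (T t84 N)))))))) (K a143 (M a79 (L l213 (F (T t4776 (L l73 (L l439 (L l511 (T t83 (T t84 (K a159 (M a191 (F (T t491 (L l3 (L l326 (L l470 (T t82 (T t84 N)))))))) (K a191 (M a159 (F (T t555 (L l3 (L l326 (L l470 (T t82 (T t84 N)))))))) N))))))))))) N))))))))))) (K a239 (M a207 (L l397 (F (T t6440 (L l296 (L l339 (L l368 (T t6441 (K a47 (Fr a111 a159 l505 (V t6442)) (K a111 (M a47 (F (T t5920 (L l73 (L l439 (T t83 N)))))) N)))))))))) N)))))))))) (K a239 (M a207 (L l469 (F (T t6440 (L l296 (L l339 (L l361 (L l368 (T t6424 (K a95 (M a175 (L l361 (F (T t4775 (L l137 (L l296 (L l339 (L l404 (T t6439 (K a31 (Fr a159 a111 l505 (V t6438)) (K a159 (M a31 (F (T t5174 (L l73 (L l439 (T t83 N)))))) N))))))))))) (K a175 (M a95 (L l397 (F (T t6440 (L l296 (L l339 (L l368 (T t6441 (K a47 (Fr a111 a159 l505 (V t6442)) (K a111 (M a47 (F (T t5920 (L l73 (L l439 (T t83 N)))))) N)))))))))) N))))))))))) N))))))))))))) (K a207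 (M a239 (F (T t132 (L l236 (L l368 (T t5901 (L l296 (L l368 (T t5923 (K a16 (M a60 (L l368 (F (T t522 (L l439 (L l511 (T t451 (T t65 (K a85 (M a154 (F (T t522 (L l235 (L l236 (T t5887 N)))))) (K a154 (M a85 (F (T t246 (L l245 (L l246 (L l295 (L l296 (T t115 N)))))))) N)))))))))) (K a32 (M a60 (F (T t2568 (L l439 (L l511 (T t451 (L l24 (L l28 (T t65 N))))))))) (K a53 (M a36 (F (L l47 (T t5895 (L l301 (L l368 (T t5896 N))))))) (K a42 (M a40 (F (L l439 (L l511 (T t271 (L l295 (L l368 (T t5924 N)))))))) N))))))))))))) (K a239 (M a207 (F (L l469 (T t2 (L l296 (L l404 (T t6423 (L l246 (L l296 (L l368 (T t6443 (L l256 (L l296 (L l404 (T t6444 N))))))))))))))) N)))))))))))))))))))))))))⟩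
def b0_63__223 : Blk 4 := ⟨[0, 63], [223], [1, 2, 3, 5, 6, 7, 10, 11, 15, 16, 17, 18, 19, 22, 23, 26, 27, 31, 32, 33, 34, 35, 37, 38, 39, 43, 47, 48, 49, 50, 51, 53, 54, 55, 58, 59, 64, 65, 66, 67, 69, 70, 71, 74, 75, 79, 80, 81, 82, 83, 85, 86, 87, 90, 91, 95, 96, 97, 98, 99, 101, 102, 103, 106, 107, 111, 112, 113, 114, 115, 117, 118, 119, 122, 123, 127, 128, 129, 130, 131, 133, 134, 135, 138, 139, 143, 144, 145, 146, 147, 149, 150, 151, 154, 155, 159, 160, 161, 162, 163, 165, 166, 167, 170, 171, 175, 176, 177, 178, 179, 181, 182, 183, 186, 187, 191, 192, 193, 194, 195, 197, 198, 199, 202, 203, 207, 208, 209, 210, 211, 213, 214, 215, 218, 219, 224, 225, 226, 227, 229, 230, 231, 234, 235, 239, 240, 241, 242, 243, 245, 246, 247, 250, 251, 255], [e0_63__223_0, e0_63__223_1, e0_63__223_2, e0_63__223_3, e0_63__223_4, e0_63__223_5, e0_63__223_6, e0_63__223_7, e0_63__223_8, e0_63__223_9, e0_63__223_10, e0_63__223_11,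 e0_63__223_12, e0_63__223_13, e0_63__223_14, e0_63__223_15, e0_63__223_16, e0_63__223_17, e0_63__223_18, e0_63__223_19, e0_63__223_20, e0_63__223_21, e0_63__223_22, e0_63__223_23, e0_63__223_24, e0_63__223_25, e0_63__223_26, e0_63__223_27, e0_63__223_28, e0_63__223_29, e0_63__223_30, e0_63__223_31, e0_63__223_32, e0_63__223_33, e0_63__223_34, e0_63__223_35, e0_63__223_36, e0_63__223_37, e0_63__223_38, e0_63__223_39, e0_63__223_40, e0_63__223_41, e0_63__223_42, e0_63__223_43, e0_63__223_44, e0_63__223_45, e0_63__223_46, e0_63__223_47, e0_63__223_48, e0_63__223_49, e0_63__223_50, e0_63__223_51, e0_63__223_52, e0_63__223_53, e0_63__223_54, e0_63__223_55, e0_63__223_56, e0_63__223_57, e0_63__223_58, e0_63__223_59, e0_63__223_60, e0_63__223_61, e0_63__223_62, e0_63__223_63, e0_63__223_64, e0_63__223_65, e0_63__223_66, e0_63__223_67, e0_63__223_68, e0_63__223_69, e0_63__223_70, e0_63__223_71, e0_63__223_72, e0_63__223_73,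 e0_63__223_74, e0_63__223_75, e0_63__223_76, e0_63__223_77, e0_63__223_78, e0_63__223_79, e0_63__223_80, e0_63__223_81, e0_63__223_82, e0_63__223_83, e0_63__223_84, e0_63__223_85, e0_63__223_86, e0_63__223_87, e0_63__223_88, e0_63__223_89, e0_63__223_90, e0_63__223_91, e0_63__223_92, e0_63__223_93, e0_63__223_94, e0_63__223_95, e0_63__223_96, e0_63__223_97, e0_63__223_98, e0_63__223_99, e0_63__223_100, e0_63__223_101, e0_63__223_102, e0_63__223_103, e0_63__223_104, e0_63__223_105, e0_63__223_106, e0_63__223_107, e0_63__223_108, e0_63__223_109, e0_63__223_110, e0_63__223_111, e0_63__223_112, e0_63__223_113, e0_63__223_114, e0_63__223_115, e0_63__223_116, e0_63__223_117, e0_63__223_118, e0_63__223_119, e0_63__223_120, e0_63__223_121, e0_63__223_122, e0_63__223_123, e0_63__223_124, e0_63__223_125, e0_63__223_126, e0_63__223_127, e0_63__223_128, e0_63__223_129, e0_63__223_130, e0_63__223_131, e0_63__223_132, e0_63__223_133,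 e0_63__223_134, e0_63__223_135, e0_63__223_136, e0_63__223_137, e0_63__223_138, e0_63__223_139, e0_63__223_140, e0_63__223_141, e0_63__223_142, e0_63__223_143, e0_63__223_144, e0_63__223_145, e0_63__223_146, e0_63__223_147, e0_63__223_148, e0_63__223_149, e0_63__223_150, e0_63__223_151, e0_63__223_152, e0_63__223_153, e0_63__223_154], by decide +kernel, by decide +kernel⟩

end Pool.Agent.Lib_TTT.K4
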