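import Pool.Agent.Lib_TTT.K4Base
import Pool.Agent.Lib_TTT.K4T00
import Pool.Agent.Lib_TTT.K4T01
import Pool.Agent.Lib_TTT.K4T02
import Pool.Agent.Lib_TTT.K4T03
import Pool.Agent.Lib_TTT.K4T04
import Pool.Agent.Lib_TTT.K4T07
import Pool.Agent.Lib_TTT.K4T08
import Pool.Agent.Lib_TTT.K4T09
import Pool.Agent.Lib_TTT.K4T10

/-! Certificates in `4^4`. -/

set_option autoImplicit false
set_option maxRecDepth 200000

namespace Pool.Agent.Lib_TTT.K4

open Lib_TTT AC DC

def e0_64__85_0 : Ent 4 := ⟨[a0, a64], [a85, a1], (M a84 (L l473 (F (T t8861 (L l350 (T t3307 (K a128 (M a116 (L l473 (F (T t8862 (L l126 (L l216 (T t8863 (L l192 (L l216 (T t8864 (K a169 (M a253 (F (T t8862 (L l41 (L l174 (L l209 (L l216 (T t8865 N)))))))) (K a253 (M a169 (F (T t8862 (L l41 (L l216 (T t8866 N)))))) N)))))))))))) (K a192 (M a240 (L l473 (F (T t6885 (L l126 (T t8867 (L l514 (T t8868 (K a169 (M a253 (F (L l126 (T t8867 (L l174 (L l272 (L l449 (T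 t8869 N)))))))) (K a253 (M a169 (F (T t8870 (L l126 (T t8867 N))))) N)))))))))) (K a20 (M a116 (L l350 (L l473 (F (T t8862 (L l126 (T t8863 (L l94 (T t8871 (K a169 (M a253 (L l350 (F (T t8862 (L l41 (L l174 (L l209 (T t8865 (K a150 (M a215 (L l221 (F (T t8862 (L l41 (L l174 (L l209 (T t8865 (K a188 (M a131 (F (T t8862 (L l41 (L l174 (L l186 (L l209 (L l216 (T t8865 N))))))))) (K a131 (M a188 (F (T t8872 (L l46 (L l152 (L l458 (T t8873 N))))))) N)))))))))) (K a215 (M a150 (F (T t8862 (L l41 (L l174 (L l209 (T t8865 N))))))) N)))))))))) (K a253 (M a169 (L l350 (F (T t8862 (L l41 (T t8866 (K a150 (M a215 (F (T t8862 (L l41 (T t8866 N))))) (K a215 (M a150 (F (T t8874 (L l431 (T t8875 N))))) N)))))))) (K a150 (M a215 (L l473 (F (T t8862 (L l126 (T t8863 (L l94 (T t8876 (K a169 (M a253 (L l221 (F (T t8862 (L l41 (L l174 (L l209 (T t8865 (K a188 (M a131 (F (T t8862 (L l41 (L l174 (L l186 (L l209 (L l216 (T t8865 N))))))))) (K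 a131 (M a188 (F (T t8872 (L l46 (L l152 (L l458 (T t8873 N))))))) N)))))))))) (K a253 (M a169 (F (T t8862 (L l41 (T t8866 N))))) N)))))))))) (K a215 (M a150 (L l473 (F (T t8862 (L l126 (T t8863 (L l94 (T t8876 (K a169 (M a253 (F (T t8862 (L l41 (L l174 (L l209 (T t8865 N))))))) (K a253 (M a169 (F (T t8874 (L l431 (T t8875 N))))) N)))))))))) N))))))))))))) (K a148 (M a116 (L l473 (F (L l514 (T t8862 (L l126 (L l216 (T t8863 (L l94 (L l166 (L l216 (L l514 (T t8871 (K a169 (M a253 (F (L l514 (T t8862 (L l41 (L l174 (L l209 (L l216 (T t8865 N))))))))) (K a253 (M a169 (F (L l514 (T t8862 (L l41 (L l216 (T t8866 N))))))) N))))))))))))))) (K a104 (M a48 (L l473 (F (T t363 (L l126 (L l388 (T t3280 (L l100 (L l126 (L l388 (T t8877 (K a169 (M a253 (F (T t363 (L l41 (L l174 (L l388 (T t8878 N))))))) (K a253 (M a169 (F (T t363 (L l123 (L l287 (L l388 (T t8879 N))))))) N))))))))))))) (K a168 (M a80 (L l473 (F (T t8880 (L l216 (L l368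 (T t8881 (L l176 (T t8882 (K a169 (M a253 (L l174 (F (T t8880 (L l216 (L l368 (T t8881 (L l176 (L l216 (T t8883 (K a170 (M a171 (F (T t8880 (L l176 (L l180 (L l216 (L l220 (T t8884 (L l176 (L l180 (T t8882 N))))))))))) (K a171 (M a170 (F (T t8880 (L l176 (L l216 (T t8884 (L l176 (T t8882 N)))))))) N)))))))))))) (K a253 (M a169 (F (T t8880 (L l176 (L l216 (T t8884 (L l176 (T t8882 N)))))))) N))))))))))) (K a232 (M a48 (L l473 (F (T t363 (L l126 (T t3650 (L l126 (T t8885 (K a169 (M a253 (L l393 (F (T t363 (L l41 (L l174 (L l388 (T t8878 (K a106 (M a43 (F (T t363 (L l41 (L l174 (L l388 (T t8878 N))))))) (K a43 (M a106 (F (T t363 (L l41 (L l174 (L l388 (T t8878 N))))))) N)))))))))) (K a253 (M a169 (F (T t363 (L l123 (L l287 (L l388 (T t8879 N))))))) N)))))))))) (K a60 (M a48 (L l473 (F (T t8886 (L l442 (T t363 (L l126 (L l430 (L l502 (T t8885 (K a169 (M a253 (F (L l442 (T t363 (L l39 (L l41 (L l174 (T t8878 N)))))))) (K a253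 (M a169 (F (L l442 (T t363 (L l123 (L l287 (T t8879 N))))))) N)))))))))))) (K a124 (M a240 (L l473 (F (L l134 (T t8887 (L l110 (T t7768 (T t8888 (K a169 (M a253 (F (L l110 (T t7768 (L l174 (L l449 (T t8869 N))))))) (K a253 (M a169 (F (T t8889 (L l110 (T t7768 N))))) N)))))))))) (K a188 (Fr a192 a128 l304 (Fr a104 a124 l140 (Fr a252 a168 l472 (Fr a148 a60 l514 (V t9512))))) (K a252 (M a68 (L l473 (F (T t8891 (L l94 (L l436 (T t8892 (L l430 (L l436 (T t8893 (K a169 (M a253 (L l477 (F (T t8891 (L l94 (L l436 (T t8894 (L l430 (L l436 (T t8893 (K a86 (M a3 (F (L l94 (T t8895 (L l205 (L l217 (L l305 (L l329 (T t8896 N))))))))) (K a3 (M a86 (F (T t8891 (L l123 (L l141 (L l389 (L l401 (T t8897 N)))))))) N)))))))))))) (K a253 (M a169 (L l261 (F (T t8891 (L l94 (L l436 (T t8892 (L l430 (L l436 (T t8893 (K a254 (M a255 (F (T t8891 (L l94 (L l436 (T t8892 (L l430 (T t8898 N)))))))) (K a255 (M a254 (F (T t8891 (L l430 (L l436 (T t8899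 (L l430 (T t8898 N)))))))) N)))))))))))) N)))))))))))) (K a169 (M a253 (F (L l350 (T t3307 (L l174 (L l305 (T t8900 (L l174 (L l221 (T t8901 (L l305 (L l350 (L l393 (T t8902 (L l174 (L l305 (L l350 (T t8903 (K a128 (M a116 (F (T t8862 (L l41 (L l174 (L l209 (L l216 (T t8865 N)))))))) (K a148 (Fr a252 a168 l472 (Fr a255 a254 l261 (Fr a124 a104 l140 (Fr a60 a188 l430 (Fr a128 a192 l304 (V t9513)))))) (K a188 (Fr a252 a168 l472 (Fr a104 a124 l140 (Fr a192 a128 l304 (Fr a148 a60 l514 (V t9512))))) (K a252 (M a68 (L l477 (F (T t8891 (L l94 (L l436 (T t8894 (L l430 (L l436 (T t8893 (K a86 (M a3 (F (L l94 (T t8895 (L l205 (L l217 (L l305 (L l329 (T t8896 N))))))))) (K a3 (M a86 (F (T t8891 (L l123 (L l141 (L l389 (L l401 (T t8897 N)))))))) N)))))))))))) N)))))))))))))))))))))) (K a253 (M a169 (F (T t8861 (L l65 (T t8905 (T t8906 (L l350 (T t8907 (L l350 (T t8908 (K a188 (Fr a192 a128 l304 (Fr a104 a124 l140 (Fr a252 a168 l472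 (Fr a148 a60 l514 (V t9512))))) (K a252 (M a80 (L l261 (F (T t8909 (L l430 (L l466 (T t8910 (L l430 (L l466 (T t8882 (K a254 (M a255 (F (T t8909 (L l430 (L l466 (T t8910 (L l430 (T t8883 N)))))))) (K a255 (M a254 (F (T t8909 (L l126 (L l466 (T t8911 (L l430 (T t8883 N)))))))) N)))))))))))) N)))))))))))) N)))))))))))))))))))⟩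
def e0_64__85_1 : Ent 4 := ⟨[a0, a64], [a85, a2], (M a80 (F (T t8884 (L l368 (T t8881 (K a128 (M a84 (F (T t8912 (L l192 (L l458 (T t8913 (L l192 (T t8914 N)))))))) (K a192 (M a84 (F (T t8915 (L l126 (L l484 (T t8911 (L l484 (L l514 (T t8914 N))))))))) (K a16 (M a252 (L l368 (F (T t8916 (T t8917 (K a154 (M a223 (F (T t8918 (T t7648 (T t8919 N))))) (K a223 (M a154 (F (T t8916 (L l246 (T t8917 N))))) N))))))) (K a144 (M a84 (F (L l484 (T t8912 (L l192 (L l458 (T t8913 (L l166 (L l192 (L l350 (T t3307 N))))))))))) (K a96 (M a84 (F (T t8861 (L l376 (L l458 (T t8913 (L l376 (T t8882 N)))))))) (K a160 (M a84 (F (L l376 (T t8912 (L l192 (L l350 (T t3307 (L l176 (L l192 (L l368 (T t8920 N))))))))))) (K a224 (M a84 (F (T t8861 (L l126 (L l376 (T t8911 (L l376 (L l458 (T t8921 N))))))))) (K a48 (M a84 (F (T t8915 (L l126 (L l484 (T t8911 (L l350 (T t3307 N)))))))) (K a112 (M a84 (F (T t8922 (L l110 (L l350 (T t3307 (L l110 (T t8882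 N)))))))) (K a176 (Fr a192 a128 l304 (Fr a96 a112 l116 (Fr a240 a160 l448 (Fr a144 a48 l484 (V t9514))))) (K a240 (M a84 (F (T t8912 (L l350 (T t3307 (L l458 (L l478 (T t8924 N)))))))) N))))))))))))))))⟩
def e0_64__85_2 : Ent 4 := ⟨[a0, a64], [a85, a3], (M a81 (F (L l365 (T t8925 (L l43 (T t8926 (K a128 (M a65 (F (L l94 (T t8927 (L l152 (L l368 (T t8928 (L l152 (L l309 (L l451 (T t8929 N))))))))))) (K a192 (M a66 (F (L l141 (T t8930 (L l307 (L l368 (T t8931 (L l272 (L l451 (T t8932 (K a113 (Fr a98 a115 l120 (Fr a67 a65 l76 (Fr a82 a114 l118 (Fr a112 a97 l121 (V t9515))))) N))))))))))) (K a17 (M a80 (L l365 (F (T t8909 (L l141 (L l451 (T t8934 (L l309 (L l451 (T t8935 (K a153 (M a221 (F (T t8909 (L l451 (T t8936 (L l223 (L l309 (L l451 (T t8935 N))))))))) (K a221 (M a153 (F (T t8909 (L l451 (T t8936 (L l309 (L l451 (T t8935 N)))))))) N)))))))))))) (K a145 (M a96 (F (L l196 (T t8937 (L l94 (T t8938 (L l162 (L l196 (T t8939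 N))))))))) (K a98 (M a32 (F (L l368 (T t7541 (L l451 (T t8940 (L l309 (L l365 (L l381 (L l451 (L l453 (L l489 (T t8941 N))))))))))))) (K a162 (M a80 (F (L l451 (T t8942 (L l196 (L l368 (T t8881 (L l172 (L l309 (L l451 (T t8935 N))))))))))) (K a226 (M a80 (F (L l451 (T t8936 (L l368 (T t8881 (L l309 (L l451 (T t8935 N))))))))) (K a51 (M a96 (L l43 (F (T t8937 (L l94 (L l415 (L l487 (T t8938 (L l415 (T t8939 (K a19 (M a35 (F (T t8937 (L l94 (L l415 (L l487 (T t8938 (L l343 (L l415 (T t8939 N)))))))))) (K a35 (M a19 (F (L l368 (T t8943 (L l94 (L l379 (L l415 (L l487 (T t8938 (L l20 (L l415 (T t8939 N)))))))))))) N)))))))))))) (K a115 (M a48 (F (T t8944 (L l368 (T t1184 (L l141 (L l365 (T t8945 N)))))))) (K a179 (Fr a192 a128 l304 (Fr a98 a115 l120 (Fr a243 a162 l452 (Fr a145 a51 l489 (V t9516))))) (K a243 (M a80 (L l451 (F (T t8909 (L l141 (T t8947 (L l415 (T t8948 (K a83 (M a163 (F (T t8909 (L l119 (L l272 (L l365 (L l415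 (T t8949 (L l119 (L l258 (L l415 (L l453 (T t8950 (L l45 (L l119 (L l271 (L l343 (L l415 (L l416 (T t8951 (L l119 (L l271 (L l343 (L l415 (T t8952 N))))))))))))))))))))))))) (K a163 (Fr a83 a82 l86 (V t8884)) N)))))))))) N)))))))))))))))))⟩
def e0_64__85_3 : Ent 4 := ⟨[a0, a64], [a85, a5], (M a80 (L l455 (F (T t8884 (L l368 (T t8881 (K a128 (M a88 (L l455 (F (T t8953 (L l192 (L l216 (T t8954 (L l156 (L l192 (T t8955 (K a165 (M a245 (F (T t8956 (L l173 (L l180 (L l192 (T t8957 (L l156 (L l180 (L l192 (T t8955 N))))))))))) (K a245 (M a165 (F (T t8956 (L l5 (L l192 (T t8958 N)))))) N)))))))))))) (K a192 (M a252 (L l455 (F (T t8959 (L l126 (L l484 (T t8960 (L l484 (T t8961 (K a165 (M a245 (F (L l126 (T t8962 (L l180 (L l296 (L l459 (L l473 (T t8963 N))))))))) (K a245 (M a165 (F (T t8964 (L l126 (L l484 (T t8960 N)))))) N))))))))))) (K a16 (M a252 (L l368 (L l455 (F (T t8916 (T t8917 (K a165 (M a245 (L l368 (F (T t7648 (L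 l180 (L l459 (L l473 (T t8963 (K a154 (M a223 (L l227 (F (T t7648 (L l180 (L l459 (L l473 (T t8963 (K a176 (M a143 (F (T t8916 (L l180 (L l192 (L l459 (L l473 (T t8963 N)))))))) (K a143 (M a176 (F (T t8965 (L l160 (T t7648 N))))) N)))))))))) (K a223 (M a154 (F (T t7648 (L l180 (L l289 (L l459 (L l473 (T t8963 N)))))))) N)))))))))) (K a245 (M a165 (L l368 (F (T t7648 (L l259 (T t8966 (K a154 (M a223 (F (T t7648 (L l259 (T t8966 N))))) (K a223 (M a154 (F (T t7648 (L l123 (L l275 (T t8967 N)))))) N)))))))) (K a154 (M a223 (L l455 (F (T t8918 (T t7648 (T t8919 (K a165 (M a245 (L l227 (F (T t7648 (L l180 (L l459 (L l473 (T t8963 (K a176 (M a143 (F (T t8916 (L l180 (L l192 (L l459 (L l473 (T t8963 N)))))))) (K a143 (M a176 (F (T t8965 (L l160 (T t7648 N))))) N)))))))))) (K a245 (M a165 (F (T t7648 (L l259 (T t8966 N))))) N)))))))) (K a223 (M a154 (L l455 (F (T t8916 (L l246 (T t8917 (K a165 (M a245 (F (T t7648 (L l180 (L l289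 (L l459 (L l473 (T t8963 N)))))))) (K a245 (M a165 (F (T t7648 (L l123 (L l275 (T t8967 N)))))) N)))))))) N)))))))))) (K a144 (M a88 (L l455 (F (L l484 (T t8953 (L l192 (T t8954 (L l192 (L l484 (T t8955 (K a165 (M a245 (F (L l484 (T t8956 (L l173 (L l180 (L l192 (T t8957 (L l180 (L l192 (L l484 (T t8955 N)))))))))))) (K a245 (M a165 (F (L l484 (T t8956 (L l5 (L l192 (T t8958 N))))))) N)))))))))))) (K a96 (M a252 (L l455 (F (T t7648 (L l376 (T t8918 (L l376 (T t8968 (K a165 (M a245 (F (T t7648 (L l180 (L l376 (L l459 (L l473 (T t8963 N)))))))) (K a245 (M a165 (F (T t7648 (L l259 (L l376 (T t8966 N)))))) N)))))))))) (K a160 (M a84 (L l455 (F (L l376 (T t8912 (L l192 (L l350 (T t3307 (L l176 (L l192 (L l368 (T t8920 (K a165 (M a245 (L l180 (F (L l376 (T t8912 (L l192 (L l350 (T t8969 (L l176 (L l192 (L l368 (T t8920 (K a170 (M a175 (F (L l376 (T t8912 (L l192 (L l220 (T t8970 (L l174 (L l176 (L l192 (L l220 (L l368 (T t8920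 N))))))))))))) (K a175 (M a170 (F (L l376 (T t8910 (L l179 (L l213 (T t8971 N))))))) N)))))))))))))) (K a245 (M a165 (F (L l376 (T t8912 (L l192 (T t8970 (L l176 (L l192 (L l368 (T t8920 N)))))))))) N)))))))))))))) (K a224 (M a252 (L l455 (F (T t7648 (L l376 (T t8918 (L l252 (L l368 (L l376 (T t8972 (K a165 (M a245 (L l411 (F (T t7648 (L l180 (L l376 (L l459 (L l473 (T t8963 (K a106 (M a47 (F (T t7648 (L l180 (L l376 (L l459 (L l473 (T t8963 N)))))))) (K a47 (M a106 (F (T t7648 (L l180 (L l376 (L l458 (T t8973 N))))))) N))))))))))) (K a245 (M a165 (F (T t7648 (L l259 (L l376 (T t8966 N)))))) N)))))))))))) (K a48 (M a252 (L l455 (F (T t8959 (L l34 (T t7648 (T t8974 (K a165 (M a245 (F (T t7494 (L l180 (L l440 (L l459 (L l473 (T t8963 N)))))))) (K a245 (M a165 (F (T t7494 (L l75 (L l259 (T t8966 N)))))) N))))))))) (K a112 (M a252 (L l455 (F (T t8918 (L l110 (T t7648 (T t8974 (K a165 (M a245 (F (L l110 (T t7648 (L l180 (L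 l459 (L l473 (T t8963 N)))))))) (K a245 (M a165 (F (L l110 (T t7648 (L l259 (T t8966 N)))))) N))))))))) (K a176 (Fr a192 a128 l304 (Fr a96 a112 l116 (Fr a240 a160 l448 (Fr a144 a48 l484 (V t9514))))) (K a240 (M a72 (L l455 (F (T t8975 (L l126 (L l442 (T t8976 (L l368 (L l412 (T t8977 (K a165 (M a245 (L l483 (F (T t8975 (L l126 (T t8978 (L l368 (L l412 (T t8977 (K a90 (M a15 (F (L l126 (T t8978 (L l5 (L l199 (L l311 (L l479 (T t8979 N))))))))) (K a15 (M a90 (F (T t8975 (L l126 (L l442 (T t8976 (L l368 (L l412 (T t8977 N))))))))) N))))))))))) (K a245 (M a165 (L l266 (F (T t8975 (L l126 (T t8978 (L l368 (L l412 (T t8977 (K a250 (M a255 (F (T t8975 (L l126 (T t8978 (L l368 (L l412 (T t8977 N)))))))) (K a255 (M a250 (F (T t8975 (L l126 (T t8978 (L l368 (L l412 (T t8977 N)))))))) N))))))))))) N)))))))))))) (K a165 (M a245 (F (L l368 (T t8881 (L l180 (L l311 (T t8980 (L l180 (L l227 (T t8981 (L l311 (L l368 (L l411 (T t8982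 (L l180 (L l311 (L l368 (T t8983 (K a128 (M a252 (F (L l216 (T t8916 (L l180 (L l192 (L l459 (L l473 (T t8963 N))))))))) (K a144 (Fr a240 a160 l448 (Fr a255 a250 l266 (Fr a112 a96 l116 (Fr a48 a176 l412 (Fr a128 a192 l304 (V t9517)))))) (K a176 (Fr a240 a160 l448 (Fr a96 a112 l116 (Fr a192 a128 l304 (Fr a144 a48 l484 (V t9514))))) (K a240 (M a72 (L l483 (F (T t8975 (L l126 (T t8978 (L l368 (L l412 (T t8977 (K a90 (M a15 (F (L l126 (T t8978 (L l5 (L l199 (L l311 (L l479 (T t8979 N))))))))) (K a15 (M a90 (F (T t8975 (L l126 (L l442 (T t8976 (L l368 (L l412 (T t8977 N))))))))) N))))))))))) N)))))))))))))))))))))) (K a245 (M a165 (F (T t8884 (L l47 (T t8985 (T t8986 (L l368 (T t8987 (L l368 (T t8988 (K a176 (Fr a192 a128 l304 (Fr a96 a112 l116 (Fr a240 a160 l448 (Fr a144 a48 l484 (V t9514))))) (K a240 (M a84 (L l266 (F (T t8912 (L l262 (T t8970 (L l1 (L l458 (L l478 (T t8924 (K a250 (M a255 (F (T t8910 (L l263 (L l275 (L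 l347 (L l473 (T t8989 N)))))))) (K a255 (M a250 (F (T t8912 (L l350 (T t3307 (L l1 (L l458 (L l478 (T t8924 N))))))))) N)))))))))))) N)))))))))))) N)))))))))))))))))))⟩
def e0_64__85_4 : Ent 4 := ⟨[a0, a64], [a85, a6], (M a80 (F (T t8884 (L l368 (T t8881 (K a128 (M a84 (F (T t8912 (L l1 (L l192 (L l458 (T t8913 (L l192 (T t8914 N))))))))) (K a192 (M a84 (F (T t8915 (L l126 (L l484 (T t8911 (L l484 (L l514 (T t8914 N))))))))) (K a16 (M a252 (L l368 (F (T t8916 (T t8917 (K a154 (M a223 (F (T t7648 (L l9 (T t8918 (T t8919 N)))))) (K a223 (M a154 (F (T t8916 (L l246 (T t8917 N))))) N))))))) (K a144 (M a84 (F (L l484 (T t8912 (L l1 (L l192 (L l458 (T t8913 (L l166 (L l192 (L l350 (T t3307 N)))))))))))) (K a96 (M a84 (F (T t8861 (L l1 (L l376 (L l458 (T t8913 (L l376 (T t8882 N))))))))) (K a160 (M a84 (F (L l376 (T t8912 (L l192 (L l350 (T t3307 (L l176 (L l192 (L l368 (T t8920 N))))))))))) (K a224 (M a84 (F (T t8861 (L l126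 (L l376 (T t8911 (L l1 (L l9 (L l376 (L l458 (T t8921 N))))))))))) (K a48 (M a84 (F (T t8990 (L l1 (L l458 (T t8913 (L l126 (L l484 (T t8911 N))))))))) (K a112 (M a84 (F (T t8991 (L l110 (L l350 (T t3307 (L l110 (T t8882 N)))))))) (K a176 (Fr a192 a128 l304 (Fr a96 a112 l116 (Fr a240 a160 l448 (Fr a144 a48 l484 (V t9514))))) (K a240 (M a84 (F (T t8912 (L l350 (T t3307 (L l1 (L l458 (L l478 (T t8924 N))))))))) N))))))))))))))))⟩
def e0_64__85_5 : Ent 4 := ⟨[a0, a64], [a85, a7], (M a80 (F (T t8884 (L l368 (T t8881 (K a128 (M a84 (F (T t8912 (L l1 (L l192 (L l458 (T t8913 (L l192 (T t8914 N))))))))) (K a192 (M a84 (F (T t8915 (L l126 (L l484 (T t8911 (L l484 (L l514 (T t8914 N))))))))) (K a16 (M a252 (L l368 (F (T t8916 (L l459 (T t8917 (K a154 (M a223 (F (T t8918 (T t7648 (L l315 (T t8919 N)))))) (K a223 (M a154 (F (T t8916 (L l246 (L l459 (T t8917 N)))))) N)))))))) (K a144 (M a84 (F (L l484 (T t8912 (L l1 (L l192 (L l458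 (T t8913 (L l166 (L l192 (L l350 (T t3307 N)))))))))))) (K a96 (M a84 (F (T t8861 (L l1 (L l376 (L l458 (T t8913 (L l376 (T t8882 N))))))))) (K a160 (M a84 (F (L l376 (T t8912 (L l192 (L l350 (T t3307 (L l176 (L l192 (L l368 (T t8920 N))))))))))) (K a224 (M a84 (F (T t8861 (L l126 (L l376 (T t8911 (L l1 (L l376 (L l458 (T t8921 N)))))))))) (K a48 (M a84 (F (T t8915 (L l126 (L l484 (T t8911 (L l350 (T t3307 N)))))))) (K a112 (M a84 (F (T t8922 (L l110 (L l350 (T t3307 (L l110 (T t8882 N)))))))) (K a176 (Fr a192 a128 l304 (Fr a96 a112 l116 (Fr a240 a160 l448 (Fr a144 a48 l484 (V t9514))))) (K a240 (M a84 (F (T t8912 (L l350 (T t3307 (L l1 (L l458 (L l478 (T t8924 N))))))))) N))))))))))))))))⟩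
def e0_64__85_6 : Ent 4 := ⟨[a0, a64], [a85, a10], (M a80 (F (T t8884 (L l368 (T t8881 (K a128 (M a84 (F (T t8912 (L l192 (L l458 (T t8913 (L l192 (T t8914 N)))))))) (K a192 (M a84 (F (T t8915 (L l126 (L l484 (T t8911 (L l484 (L l514 (T t8914 N))))))))) (K a16 (M a252 (L l368 (F (T t8916 (T t8917 (K a154 (M a223 (F (T t8918 (T t7648 (T t8919 N))))) (K a223 (M a154 (F (T t8916 (L l246 (T t8917 N))))) N))))))) (K a144 (M a84 (F (L l484 (T t8912 (L l192 (L l458 (T t8913 (L l166 (L l192 (L l350 (T t3307 N))))))))))) (K a96 (M a84 (F (T t8861 (L l376 (L l458 (T t8913 (L l376 (T t8882 N)))))))) (K a160 (M a84 (F (L l376 (T t8912 (L l192 (L l350 (T t3307 (L l176 (L l192 (L l368 (T t8920 N))))))))))) (K a224 (M a84 (F (T t8861 (L l126 (L l376 (T t8911 (L l376 (L l458 (T t8921 N))))))))) (K a48 (M a84 (F (T t8915 (L l126 (L l484 (T t8911 (L l350 (T t3307 N)))))))) (K a112 (M a84 (F (T t8922 (L l110 (L l350 (T t3307 (L l110 (T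 t8882 N)))))))) (K a176 (Fr a192 a128 l304 (Fr a96 a112 l116 (Fr a240 a160 l448 (Fr a144 a48 l484 (V t9514))))) (K a240 (M a84 (F (T t8912 (L l350 (T t3307 (L l458 (L l478 (T t8924 N)))))))) N))))))))))))))))⟩
def e0_64__85_7 : Ent 4 := ⟨[a0, a64], [a85, a11], (M a68 (F (T t8992 (L l458 (T t8993 (K a128 (M a84 (F (T t8899 (L l156 (L l368 (T t8994 (L l156 (T t8995 N)))))))) (K a192 (M a84 (F (T t8996 (L l94 (L l334 (T t8892 (L l334 (L l514 (T t8995 N))))))))) (K a4 (M a252 (L l458 (F (T t8997 (T t8998 (K a166 (M a247 (F (T t8999 (T t7648 (L l321 (T t9000 N)))))) (K a247 (M a166 (F (T t8997 (L l278 (T t8998 N))))) N))))))) (K a132 (M a84 (F (L l334 (T t8899 (L l156 (L l368 (T t8994 (L l156 (L l198 (L l350 (T t3307 N))))))))))) (K a72 (M a48 (F (T t363 (L l316 (T t1474 (L l316 (T t9001 N))))))) (K a136 (M a96 (F (L l156 (T t8937 (L l94 (L l316 (T t9002 (L l156 (L l204 (L l316 (L l321 (L l458 (T t9003 N))))))))))))) (K a200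 (M a74 (F (T t4007 (L l316 (T t9004 (T t9005 N)))))) (K a12 (M a48 (F (L l478 (T t363 (L l466 (T t1474 (T t9001 N))))))) (K a76 (M a48 (F (T t1474 (L l368 (T t1184 (L l134 (T t9006 N))))))) (K a140 (Fr a192 a128 l304 (Fr a72 a76 l80 (Fr a204 a136 l328 (Fr a132 a12 l334 (V t9518))))) (K a204 (M a96 (F (T t8937 (L l94 (T t9002 (L l57 (L l322 (L l458 (T t9008 N))))))))) N))))))))))))))))⟩
def e0_64__85_8 : Ent 4 := ⟨[a0, a64], [a85, a15], (M a68 (F (L l458 (T t8993 (L l3 (T t8992 (K a128 (M a84 (F (T t8899 (L l156 (L l368 (T t8994 (L l156 (T t8995 N)))))))) (K a192 (M a69 (L l339 (F (T t9009 (L l141 (L l334 (T t9010 (L l7 (L l232 (L l325 (L l327 (T t9011 (K a133 (Fr a74 a79 l84 (V t9012)) (K a74 (M a133 (F (L l318 (T t9009 (L l7 (L l334 (L l336 (T t9013 (L l78 (L l141 (L l228 (L l318 (L l334 (T t9014 N)))))))))))))) N)))))))))))))) (K a4 (M a252 (L l458 (F (T t8997 (T t8998 (K a166 (M a247 (F (T t7494 (L l75 (T t8999 (T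 t9000 N)))))) (K a247 (M a166 (F (T t8997 (L l278 (T t8998 N))))) N))))))) (K a132 (M a84 (F (L l334 (T t8899 (L l156 (L l368 (T t8994 (L l156 (L l198 (L l350 (T t3307 N))))))))))) (K a72 (M a48 (F (L l483 (T t363 (L l316 (L l471 (T t1474 (L l316 (T t9001 N))))))))) (K a136 (M a96 (F (L l156 (T t8937 (L l94 (L l316 (T t9002 (L l3 (L l156 (L l204 (L l316 (L l458 (T t9003 N))))))))))))) (K a200 (M a96 (F (T t8937 (L l94 (L l316 (T t9002 (L l316 (L l496 (T t9015 N))))))))) (K a12 (M a48 (L l3 (F (L l368 (T t9016 (L l478 (L l483 (T t363 (T t9001 (K a13 (M a14 (F (L l368 (T t9017 (L l466 (L l471 (T t1474 (T t9001 N)))))))) (K a14 (M a13 (F (L l368 (T t9017 (L l466 (L l471 (T t1474 (T t9001 N)))))))) N))))))))))) (K a76 (M a48 (F (L l471 (T t1474 (L l368 (T t1184 (L l134 (T t9006 N)))))))) (K a140 (Fr a192 a128 l304 (Fr a72 a76 l80 (Fr a204 a136 l328 (Fr a132 a12 l334 (V t9518))))) (K a204 (M a96 (L l327 (F (T t8937 (L l94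 (T t9002 (L l322 (L l458 (T t9008 (K a141 (M a78 (F (T t8937 (L l94 (L l502 (T t9018 (L l322 (L l458 (T t9008 N))))))))) (K a78 (M a141 (F (T t8937 (L l94 (L l502 (T t9018 (L l79 (L l322 (L l458 (T t9008 N)))))))))) N))))))))))) N)))))))))))))))))⟩
def e0_64__85_9 : Ent 4 := ⟨[a0, a64], [a85, a21], (M a80 (L l347 (F (T t8884 (L l18 (L l368 (T t8881 (K a128 (M a168 (L l347 (F (L l192 (T t9019 (L l126 (T t9020 (L l18 (L l192 (L l368 (T t9021 (K a149 (M a213 (L l220 (F (L l192 (T t9019 (L l126 (T t9020 (L l18 (L l163 (L l170 (L l192 (L l368 (T t9021 (K a170 (M a191 (F (L l180 (L l192 (T t9019 (L l126 (T t9020 (L l18 (L l163 (L l170 (L l192 (L l368 (T t9021 N))))))))))))) (K a191 (M a170 (F (L l126 (T t9020 (L l196 (L l213 (L l219 (T t9022 N)))))))) N))))))))))))))) (K a213 (M a149 (F (L l192 (T t9019 (L l126 (T t9020 (L l18 (L l47 (L l192 (L l368 (T t9023 N))))))))))) N))))))))))))) (K a192 (M a252 (L l347 (F (T t8959 (L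 l126 (L l484 (T t8960 (L l484 (T t8961 (K a149 (M a213 (L l519 (F (T t8959 (L l126 (L l484 (T t8960 (L l484 (T t8961 (K a106 (M a63 (F (L l126 (T t8962 (L l199 (L l217 (L l489 (T t9024 N)))))))) (K a63 (M a106 (F (T t8959 (L l126 (L l484 (T t8960 (L l484 (T t8961 N)))))))) N))))))))))) (K a213 (M a149 (L l296 (F (T t8959 (L l126 (L l484 (T t8960 (L l484 (T t8961 (K a234 (M a255 (F (L l126 (T t8962 (L l272 (L l275 (L l293 (L l455 (L l473 (T t9025 N)))))))))) (K a255 (M a234 (F (T t8959 (L l126 (L l484 (T t8960 (L l484 (T t8961 N)))))))) N))))))))))) N))))))))))) (K a16 (M a252 (L l18 (L l347 (L l368 (F (T t8916 (T t8917 (K a149 (M a213 (L l18 (L l368 (F (T t8918 (L l220 (L l515 (T t9026 (K a26 (M a31 (L l368 (F (T t8918 (L l220 (L l515 (T t9026 (K a154 (M a223 (L l170 (L l354 (F (T t8918 (L l220 (L l351 (T t9027 (K a144 (Fr a159 a95 l361 (V t8918)) (K a90 (Fr a218 a208 l246 (V t7648)) (K a218 (M a90 (L l170 (F (T t8918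 (L l220 (L l244 (L l351 (T t9027 (K a144 (Fr a159 a95 l361 (V t8918)) (K a159 (M a144 (F (T t9028 (T t8918 N)))) N)))))))))) (K a159 (M a144 (L l354 (F (T t9028 (T t8918 (K a90 (Fr a218 a208 l246 (V t9029)) (K a218 (M a90 (F (T t9028 (T t8918 N)))) N))))))) N)))))))))))) (K a223 (M a154 (F (T t8918 (L l220 (L l515 (T t9026 N)))))) N))))))))) (K a154 (M a223 (L l18 (L l170 (F (T t8918 (L l220 (L l350 (T t9030 (K a144 (M a159 (L l18 (F (L l126 (T t8962 (L l192 (L l220 (L l375 (T t9031 (K a26 (Fr a31 a95 l361 (V t8918)) (K a31 (M a26 (L l375 (F (L l126 (T t8962 (L l192 (L l220 (L l350 (L l515 (T t9032 (K a208 (M a90 (F (L l126 (T t8962 (L l192 (L l220 (L l350 (L l515 (T t9032 N))))))))) (K a90 (Fr a208 a218 l246 (V t9033)) N)))))))))))) N))))))))))) (K a26 (M a31 (L l170 (L l354 (F (T t8918 (L l220 (L l351 (T t9027 (K a144 (Fr a159 a95 l361 (V t8918)) (K a90 (Fr a218 a208 l246 (V t7648)) (K a218 (M a90 (L l170 (F (T t8918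 (L l220 (L l244 (L l351 (T t9027 (K a144 (Fr a159 a95 l361 (V t8918)) (K a159 (M a144 (F (T t9028 (T t8918 N)))) N)))))))))) (K a159 (M a144 (L l354 (F (T t9028 (T t8918 (K a90 (Fr a218 a208 l246 (V t9029)) (K a218 (M a90 (F (T t9028 (T t8918 N)))) N))))))) N)))))))))))) (K a31 (M a26 (L l170 (L l375 (F (T t8918 (L l220 (L l350 (L l515 (T t9032 (K a144 (M a159 (L l375 (F (L l126 (T t8962 (L l192 (L l220 (L l350 (L l515 (T t9032 (K a208 (M a90 (F (L l126 (T t8962 (L l192 (L l220 (L l350 (L l515 (T t9032 N))))))))) (K a90 (Fr a208 a218 l246 (V t9033)) N)))))))))))) (K a208 (M a90 (L l170 (F (T t8918 (L l220 (L l515 (T t9026 (K a144 (M a159 (F (L l126 (T t8962 (L l192 (L l220 (L l350 (L l515 (T t9032 N))))))))) (K a159 (M a144 (F (T t9028 (T t8918 N)))) N))))))))) (K a90 (Fr a208 a218 l246 (V t9033)) (K a159 (M a144 (L l375 (F (T t9029 (L l126 (T t8960 (K a208 (M a90 (F (T t9028 (T t8918 N)))) (K a90 (Fr a208 a218 l246 (V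 t9029)) N)))))))) N))))))))))))) (K a159 (M a144 (L l18 (F (T t9028 (T t8918 (K a26 (M a31 (L l354 (F (T t9028 (T t8918 (K a90 (Fr a218 a208 l246 (V t9029)) (K a218 (M a90 (F (T t9028 (T t8918 N)))) N))))))) (K a31 (M a26 (L l375 (F (T t9029 (L l126 (T t8960 (K a208 (M a90 (F (T t9028 (T t8918 N)))) (K a90 (Fr a208 a218 l246 (V t9029)) N)))))))) N))))))) N)))))))))))) (K a31 (M a26 (L l368 (L l375 (F (T t8918 (L l220 (L l515 (T t9026 (K a208 (M a90 (L l368 (F (T t8918 (L l220 (L l350 (L l515 (T t9032 (K a154 (M a223 (L l170 (F (T t8918 (L l220 (L l515 (T t9026 (K a144 (M a159 (F (L l126 (T t8962 (L l192 (L l220 (L l350 (L l515 (T t9032 N))))))))) (K a159 (M a144 (F (T t9028 (T t8918 N)))) N))))))))) (K a223 (Fr a154 a218 l354 (V t8918)) N)))))))))) (K a90 (M a208 (L l368 (F (T t9034 (L l126 (T t8960 (K a154 (Fr a223 a218 l246 (V t9033)) (K a223 (M a154 (L l361 (F (T t9034 (L l126 (T t8960 (K a95 (M a159 (F (T t9034 (L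 l89 (L l126 (T t8960 N)))))) (K a159 (M a95 (F (T t9034 (L l126 (T t8960 N))))) N)))))))) N)))))))) (K a154 (M a223 (L l170 (L l375 (F (T t8918 (L l220 (L l350 (L l515 (T t9032 (K a144 (M a159 (L l375 (F (L l126 (T t8962 (L l192 (L l220 (L l350 (L l515 (T t9032 (K a208 (M a90 (F (L l126 (T t8962 (L l192 (L l220 (L l350 (L l515 (T t9032 N))))))))) (K a90 (Fr a208 a218 l246 (V t9033)) N)))))))))))) (K a208 (M a90 (L l170 (F (T t8918 (L l220 (L l515 (T t9026 (K a144 (M a159 (F (L l126 (T t8962 (L l192 (L l220 (L l350 (L l515 (T t9032 N))))))))) (K a159 (M a144 (F (T t9028 (T t8918 N)))) N))))))))) (K a90 (Fr a208 a218 l246 (V t9033)) (K a159 (M a144 (L l375 (F (T t9029 (L l126 (T t8960 (K a208 (M a90 (F (T t9028 (T t8918 N)))) (K a90 (Fr a208 a218 l246 (V t9029)) N)))))))) N))))))))))))) (K a223 (M a154 (L l361 (L l375 (F (T t8918 (L l220 (L l245 (L l289 (L l350 (T t9035 (K a208 (Fr a90 a218 l354 (V t8918)) (K a90 (M a208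 (L l361 (F (T t9034 (L l126 (T t8960 (K a95 (M a159 (F (T t9034 (L l89 (L l126 (T t8960 N)))))) (K a159 (M a95 (F (T t9034 (L l126 (T t8960 N))))) N)))))))) (K a95 (M a159 (L l375 (F (L l220 (T t7648 (L l137 (L l289 (T t9036 (K a208 (Fr a90 a218 l354 (V t8918)) (K a90 (M a208 (F (T t9034 (L l89 (L l126 (T t8960 N)))))) N)))))))))) (K a159 (M a95 (L l375 (F (T t8918 (L l220 (L l245 (L l350 (L l515 (T t9032 (K a208 (Fr a90 a218 l354 (V t7648)) (K a90 (M a208 (F (T t9034 (L l126 (T t8960 N))))) N))))))))))) N)))))))))))))) N)))))))))))) (K a223 (M a154 (L l18 (F (T t8918 (L l220 (L l515 (T t9026 (K a26 (M a31 (F (T t8918 (L l220 (L l515 (T t9026 N)))))) (K a31 (M a26 (L l361 (L l375 (F (T t8918 (L l220 (L l245 (L l289 (L l350 (T t9035 (K a208 (Fr a90 a218 l354 (V t8918)) (K a90 (M a208 (L l361 (F (T t9034 (L l126 (T t8960 (K a95 (M a159 (F (T t9034 (L l89 (L l126 (T t8960 N)))))) (K a159 (M a95 (F (T t9034 (L l126 (T t8960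 N))))) N)))))))) (K a95 (M a159 (L l375 (F (L l220 (T t7648 (L l137 (L l289 (T t9036 (K a208 (Fr a90 a218 l354 (V t8918)) (K a90 (M a208 (F (T t9034 (L l89 (L l126 (T t8960 N)))))) N)))))))))) (K a159 (M a95 (L l375 (F (T t8918 (L l220 (L l245 (L l350 (L l515 (T t9032 (K a208 (Fr a90 a218 l354 (V t7648)) (K a90 (M a208 (F (T t9034 (L l126 (T t8960 N))))) N))))))))))) N)))))))))))))) N))))))))) N)))))))))))) (K a213 (M a149 (L l18 (L l368 (F (T t8918 (L l239 (T t9037 (K a26 (M a31 (L l368 (F (T t8918 (L l11 (T t9038 (K a154 (M a223 (L l354 (F (T t8918 (L l11 (L l498 (T t9039 (K a90 (M a218 (F (T t7648 (L l275 (L l500 (T t9040 N)))))) (K a218 (Fr a90 a208 l375 (V t7648)) N))))))))) (K a223 (M a154 (L l246 (F (T t8918 (L l54 (L l123 (L l275 (T t9041 (K a208 (M a218 (F (T t7648 (L l275 (T t9040 N))))) (K a218 (Fr a208 a90 l375 (V t9033)) N)))))))))) N)))))))) (K a154 (M a223 (L l18 (F (T t8918 (L l239 (T t9037 (K a26 (M a31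 (L l354 (F (T t8918 (L l11 (L l498 (T t9039 (K a90 (M a218 (F (T t7648 (L l275 (L l500 (T t9040 N)))))) (K a218 (Fr a90 a208 l375 (V t7648)) N))))))))) (K a31 (M a26 (F (T t8918 (L l61 (L l239 (T t9037 N)))))) N)))))))) (K a31 (M a26 (L l368 (F (T t8918 (L l61 (L l239 (T t9037 (K a154 (M a223 (F (T t8918 (L l61 (L l239 (T t9037 N)))))) (K a223 (M a154 (L l246 (L l361 (F (T t8918 (L l61 (L l123 (L l275 (T t9041 (K a208 (Fr a218 a90 l354 (V t7648)) (K a218 (M a208 (L l361 (F (T t9034 (L l126 (T t8960 (K a95 (Fr a159 a144 l170 (V t9033)) (K a159 (M a95 (F (T t9034 (L l126 (T t8960 N))))) N)))))))) (K a95 (Fr a159 a144 l170 (V t7648)) (K a159 (M a95 (L l246 (F (T t8918 (L l11 (L l17 (L l61 (L l473 (L l505 (T t9042 (K a208 (Fr a218 a90 l354 (V t8918)) (K a218 (M a208 (F (T t9034 (L l126 (T t8960 N))))) N)))))))))))) N))))))))))))) N))))))))) (K a223 (M a154 (L l18 (L l246 (F (T t8918 (L l123 (L l361 (T t9043 (K a208 (M a218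 (L l18 (F (T t7648 (L l238 (L l275 (T t9044 (K a26 (M a31 (F (T t7648 (L l275 (T t9040 N))))) (K a31 (Fr a26 a90 l354 (V t7648)) N))))))))) (K a26 (M a31 (L l246 (F (T t8918 (L l54 (L l123 (L l275 (T t9041 (K a208 (M a218 (F (T t7648 (L l275 (T t9040 N))))) (K a218 (Fr a208 a90 l375 (V t9033)) N)))))))))) (K a218 (M a208 (L l18 (F (T t9034 (L l126 (T t8960 (K a26 (Fr a31 a90 l375 (V t9033)) (K a31 (M a26 (L l361 (F (T t9034 (L l126 (T t8960 (K a95 (Fr a159 a144 l170 (V t9033)) (K a159 (M a95 (F (T t9034 (L l126 (T t8960 N))))) N)))))))) N)))))))) (K a31 (M a26 (L l246 (L l361 (F (T t8918 (L l61 (L l123 (L l275 (T t9041 (K a208 (Fr a218 a90 l354 (V t7648)) (K a218 (M a208 (L l361 (F (T t9034 (L l126 (T t8960 (K a95 (Fr a159 a144 l170 (V t9033)) (K a159 (M a95 (F (T t9034 (L l126 (T t8960 N))))) N)))))))) (K a95 (Fr a159 a144 l170 (V t7648)) (K a159 (M a95 (L l246 (F (T t8918 (L l11 (L l17 (L l61 (L l473 (L l505 (T t9042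 (K a208 (Fr a218 a90 l354 (V t8918)) (K a218 (M a208 (F (T t9034 (L l126 (T t8960 N))))) N)))))))))))) N))))))))))))) N)))))))))))) N))))))))))) (K a26 (M a31 (L l347 (L l368 (F (T t8918 (T t7648 (T t8919 (K a149 (M a213 (L l368 (F (T t8918 (L l220 (L l515 (T t9026 (K a154 (M a223 (L l170 (L l354 (F (T t8918 (L l220 (L l351 (T t9027 (K a144 (Fr a159 a95 l361 (V t8918)) (K a90 (Fr a218 a208 l246 (V t7648)) (K a218 (M a90 (L l170 (F (T t8918 (L l220 (L l244 (L l351 (T t9027 (K a144 (Fr a159 a95 l361 (V t8918)) (K a159 (M a144 (F (T t9028 (T t8918 N)))) N)))))))))) (K a159 (M a144 (L l354 (F (T t9028 (T t8918 (K a90 (Fr a218 a208 l246 (V t9029)) (K a218 (M a90 (F (T t9028 (T t8918 N)))) N))))))) N)))))))))))) (K a223 (M a154 (F (T t8918 (L l220 (L l515 (T t9026 N)))))) N))))))))) (K a213 (M a149 (L l368 (F (T t8918 (L l11 (T t9038 (K a154 (M a223 (L l354 (F (T t8918 (L l11 (L l498 (T t9039 (K a90 (M a218 (F (T t7648 (L l275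 (L l500 (T t9040 N)))))) (K a218 (Fr a90 a208 l375 (V t7648)) N))))))))) (K a223 (M a154 (L l246 (F (T t8918 (L l54 (L l123 (L l275 (T t9041 (K a208 (M a218 (F (T t7648 (L l275 (T t9040 N))))) (K a218 (Fr a208 a90 l375 (V t9033)) N)))))))))) N)))))))) (K a154 (M a223 (L l347 (L l354 (F (T t8918 (T t7648 (T t8919 (K a149 (M a213 (L l170 (L l354 (F (T t8918 (L l220 (L l351 (T t9027 (K a144 (Fr a159 a95 l361 (V t8918)) (K a90 (Fr a218 a208 l246 (V t7648)) (K a218 (M a90 (L l170 (F (T t8918 (L l220 (L l244 (L l351 (T t9027 (K a144 (Fr a159 a95 l361 (V t8918)) (K a159 (M a144 (F (T t9028 (T t8918 N)))) N)))))))))) (K a159 (M a144 (L l354 (F (T t9028 (T t8918 (K a90 (Fr a218 a208 l246 (V t9029)) (K a218 (M a90 (F (T t9028 (T t8918 N)))) N))))))) N)))))))))))) (K a213 (M a149 (L l354 (F (T t8918 (L l11 (L l498 (T t9039 (K a90 (M a218 (F (T t7648 (L l275 (L l500 (T t9040 N)))))) (K a218 (Fr a90 a208 l375 (V t7648)) N)))))))))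 (K a90 (M a218 (L l347 (F (T t7648 (L l372 (L l500 (T t9045 (K a149 (Fr a213 a208 l246 (V t7648)) (K a213 (M a149 (F (T t7648 (L l275 (L l500 (T t9040 N)))))) N))))))))) (K a218 (M a90 (L l347 (F (T t7648 (L l75 (L l285 (T t9046 (K a149 (M a213 (L l170 (F (T t8918 (L l220 (L l244 (L l351 (T t9027 (K a144 (Fr a159 a95 l361 (V t8918)) (K a159 (M a144 (F (T t9028 (T t8918 N)))) N)))))))))) (K a213 (Fr a149 a208 l375 (V t7648)) N))))))))) N))))))))))) (K a223 (M a154 (L l347 (F (T t8918 (T t7648 (T t9047 (K a149 (M a213 (F (T t8918 (L l220 (L l515 (T t9026 N)))))) (K a213 (M a149 (L l246 (F (T t8918 (L l54 (L l123 (L l275 (T t9041 (K a208 (M a218 (F (T t7648 (L l275 (T t9040 N))))) (K a218 (Fr a208 a90 l375 (V t9033)) N)))))))))) N)))))))) N))))))))))) (K a154 (M a223 (L l18 (L l347 (F (T t8918 (T t7648 (T t8919 (K a149 (M a213 (L l18 (L l170 (F (T t8918 (L l220 (L l350 (T t9030 (K a144 (M a159 (L l18 (F (L l126 (T t8962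 (L l192 (L l220 (L l375 (T t9031 (K a26 (Fr a31 a95 l361 (V t8918)) (K a31 (M a26 (L l375 (F (L l126 (T t8962 (L l192 (L l220 (L l350 (L l515 (T t9032 (K a208 (M a90 (F (L l126 (T t8962 (L l192 (L l220 (L l350 (L l515 (T t9032 N))))))))) (K a90 (Fr a208 a218 l246 (V t9033)) N)))))))))))) N))))))))))) (K a26 (M a31 (L l170 (L l354 (F (T t8918 (L l220 (L l351 (T t9027 (K a144 (Fr a159 a95 l361 (V t8918)) (K a90 (Fr a218 a208 l246 (V t7648)) (K a218 (M a90 (L l170 (F (T t8918 (L l220 (L l244 (L l351 (T t9027 (K a144 (Fr a159 a95 l361 (V t8918)) (K a159 (M a144 (F (T t9028 (T t8918 N)))) N)))))))))) (K a159 (M a144 (L l354 (F (T t9028 (T t8918 (K a90 (Fr a218 a208 l246 (V t9029)) (K a218 (M a90 (F (T t9028 (T t8918 N)))) N))))))) N)))))))))))) (K a31 (M a26 (L l170 (L l375 (F (T t8918 (L l220 (L l350 (L l515 (T t9032 (K a144 (M a159 (L l375 (F (L l126 (T t8962 (L l192 (L l220 (L l350 (L l515 (T t9032 (K a208 (M a90 (F (L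 l126 (T t8962 (L l192 (L l220 (L l350 (L l515 (T t9032 N))))))))) (K a90 (Fr a208 a218 l246 (V t9033)) N)))))))))))) (K a208 (M a90 (L l170 (F (T t8918 (L l220 (L l515 (T t9026 (K a144 (M a159 (F (L l126 (T t8962 (L l192 (L l220 (L l350 (L l515 (T t9032 N))))))))) (K a159 (M a144 (F (T t9028 (T t8918 N)))) N))))))))) (K a90 (Fr a208 a218 l246 (V t9033)) (K a159 (M a144 (L l375 (F (T t9029 (L l126 (T t8960 (K a208 (M a90 (F (T t9028 (T t8918 N)))) (K a90 (Fr a208 a218 l246 (V t9029)) N)))))))) N))))))))))))) (K a159 (M a144 (L l18 (F (T t9028 (T t8918 (K a26 (M a31 (L l354 (F (T t9028 (T t8918 (K a90 (Fr a218 a208 l246 (V t9029)) (K a218 (M a90 (F (T t9028 (T t8918 N)))) N))))))) (K a31 (M a26 (L l375 (F (T t9029 (L l126 (T t8960 (K a208 (M a90 (F (T t9028 (T t8918 N)))) (K a90 (Fr a208 a218 l246 (V t9029)) N)))))))) N))))))) N)))))))))))) (K a213 (M a149 (L l18 (F (T t8918 (L l239 (T t9037 (K a26 (M a31 (L l354 (F (T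 t8918 (L l11 (L l498 (T t9039 (K a90 (M a218 (F (T t7648 (L l275 (L l500 (T t9040 N)))))) (K a218 (Fr a90 a208 l375 (V t7648)) N))))))))) (K a31 (M a26 (F (T t8918 (L l61 (L l239 (T t9037 N)))))) N)))))))) (K a26 (M a31 (L l347 (L l354 (F (T t8918 (T t7648 (T t8919 (K a149 (M a213 (L l170 (L l354 (F (T t8918 (L l220 (L l351 (T t9027 (K a144 (Fr a159 a95 l361 (V t8918)) (K a90 (Fr a218 a208 l246 (V t7648)) (K a218 (M a90 (L l170 (F (T t8918 (L l220 (L l244 (L l351 (T t9027 (K a144 (Fr a159 a95 l361 (V t8918)) (K a159 (M a144 (F (T t9028 (T t8918 N)))) N)))))))))) (K a159 (M a144 (L l354 (F (T t9028 (T t8918 (K a90 (Fr a218 a208 l246 (V t9029)) (K a218 (M a90 (F (T t9028 (T t8918 N)))) N))))))) N)))))))))))) (K a213 (M a149 (L l354 (F (T t8918 (L l11 (L l498 (T t9039 (K a90 (M a218 (F (T t7648 (L l275 (L l500 (T t9040 N)))))) (K a218 (Fr a90 a208 l375 (V t7648)) N))))))))) (K a90 (M a218 (L l347 (F (T t7648 (L l372 (L l500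 (T t9045 (K a149 (Fr a213 a208 l246 (V t7648)) (K a213 (M a149 (F (T t7648 (L l275 (L l500 (T t9040 N)))))) N))))))))) (K a218 (M a90 (L l347 (F (T t7648 (L l75 (L l285 (T t9046 (K a149 (M a213 (L l170 (F (T t8918 (L l220 (L l244 (L l351 (T t9027 (K a144 (Fr a159 a95 l361 (V t8918)) (K a159 (M a144 (F (T t9028 (T t8918 N)))) N)))))))))) (K a213 (Fr a149 a208 l375 (V t7648)) N))))))))) N))))))))))) (K a31 (M a26 (L l347 (F (T t8918 (T t7648 (T t8919 (K a149 (M a213 (L l170 (L l375 (F (T t8918 (L l220 (L l350 (L l515 (T t9032 (K a144 (M a159 (L l375 (F (L l126 (T t8962 (L l192 (L l220 (L l350 (L l515 (T t9032 (K a208 (M a90 (F (L l126 (T t8962 (L l192 (L l220 (L l350 (L l515 (T t9032 N))))))))) (K a90 (Fr a208 a218 l246 (V t9033)) N)))))))))))) (K a208 (M a90 (L l170 (F (T t8918 (L l220 (L l515 (T t9026 (K a144 (M a159 (F (L l126 (T t8962 (L l192 (L l220 (L l350 (L l515 (T t9032 N))))))))) (K a159 (M a144 (F (T t9028 (T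 t8918 N)))) N))))))))) (K a90 (Fr a208 a218 l246 (V t9033)) (K a159 (M a144 (L l375 (F (T t9029 (L l126 (T t8960 (K a208 (M a90 (F (T t9028 (T t8918 N)))) (K a90 (Fr a208 a218 l246 (V t9029)) N)))))))) N))))))))))))) (K a213 (M a149 (F (T t8918 (L l61 (L l239 (T t9037 N)))))) N)))))))) N))))))))))) (K a31 (M a26 (L l347 (L l368 (F (T t8916 (L l375 (T t8917 (K a149 (M a213 (L l368 (L l375 (F (T t8918 (L l220 (L l515 (T t9026 (K a208 (M a90 (L l368 (F (T t8918 (L l220 (L l350 (L l515 (T t9032 (K a154 (M a223 (L l170 (F (T t8918 (L l220 (L l515 (T t9026 (K a144 (M a159 (F (L l126 (T t8962 (L l192 (L l220 (L l350 (L l515 (T t9032 N))))))))) (K a159 (M a144 (F (T t9028 (T t8918 N)))) N))))))))) (K a223 (Fr a154 a218 l354 (V t8918)) N)))))))))) (K a90 (M a208 (L l368 (F (T t9034 (L l126 (T t8960 (K a154 (Fr a223 a218 l246 (V t9033)) (K a223 (M a154 (L l361 (F (T t9034 (L l126 (T t8960 (K a95 (M a159 (F (T t9034 (L l89 (L l126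 (T t8960 N)))))) (K a159 (M a95 (F (T t9034 (L l126 (T t8960 N))))) N)))))))) N)))))))) (K a154 (M a223 (L l170 (L l375 (F (T t8918 (L l220 (L l350 (L l515 (T t9032 (K a144 (M a159 (L l375 (F (L l126 (T t8962 (L l192 (L l220 (L l350 (L l515 (T t9032 (K a208 (M a90 (F (L l126 (T t8962 (L l192 (L l220 (L l350 (L l515 (T t9032 N))))))))) (K a90 (Fr a208 a218 l246 (V t9033)) N)))))))))))) (K a208 (M a90 (L l170 (F (T t8918 (L l220 (L l515 (T t9026 (K a144 (M a159 (F (L l126 (T t8962 (L l192 (L l220 (L l350 (L l515 (T t9032 N))))))))) (K a159 (M a144 (F (T t9028 (T t8918 N)))) N))))))))) (K a90 (Fr a208 a218 l246 (V t9033)) (K a159 (M a144 (L l375 (F (T t9029 (L l126 (T t8960 (K a208 (M a90 (F (T t9028 (T t8918 N)))) (K a90 (Fr a208 a218 l246 (V t9029)) N)))))))) N))))))))))))) (K a223 (M a154 (L l361 (L l375 (F (T t8918 (L l220 (L l245 (L l289 (L l350 (T t9035 (K a208 (Fr a90 a218 l354 (V t8918)) (K a90 (M a208 (L l361 (F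 (T t9034 (L l126 (T t8960 (K a95 (M a159 (F (T t9034 (L l89 (L l126 (T t8960 N)))))) (K a159 (M a95 (F (T t9034 (L l126 (T t8960 N))))) N)))))))) (K a95 (M a159 (L l375 (F (L l220 (T t7648 (L l137 (L l289 (T t9036 (K a208 (Fr a90 a218 l354 (V t8918)) (K a90 (M a208 (F (T t9034 (L l89 (L l126 (T t8960 N)))))) N)))))))))) (K a159 (M a95 (L l375 (F (T t8918 (L l220 (L l245 (L l350 (L l515 (T t9032 (K a208 (Fr a90 a218 l354 (V t7648)) (K a90 (M a208 (F (T t9034 (L l126 (T t8960 N))))) N))))))))))) N)))))))))))))) N)))))))))))) (K a213 (M a149 (L l368 (F (T t8918 (L l61 (L l239 (T t9037 (K a154 (M a223 (F (T t8918 (L l61 (L l239 (T t9037 N)))))) (K a223 (M a154 (L l246 (L l361 (F (T t8918 (L l61 (L l123 (L l275 (T t9041 (K a208 (Fr a218 a90 l354 (V t7648)) (K a218 (M a208 (L l361 (F (T t9034 (L l126 (T t8960 (K a95 (Fr a159 a144 l170 (V t9033)) (K a159 (M a95 (F (T t9034 (L l126 (T t8960 N))))) N)))))))) (K a95 (Fr a159 a144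 l170 (V t7648)) (K a159 (M a95 (L l246 (F (T t8918 (L l11 (L l17 (L l61 (L l473 (L l505 (T t9042 (K a208 (Fr a218 a90 l354 (V t8918)) (K a218 (M a208 (F (T t9034 (L l126 (T t8960 N))))) N)))))))))))) N))))))))))))) N))))))))) (K a154 (M a223 (L l347 (F (T t8918 (T t7648 (T t8919 (K a149 (M a213 (L l170 (L l375 (F (T t8918 (L l220 (L l350 (L l515 (T t9032 (K a144 (M a159 (L l375 (F (L l126 (T t8962 (L l192 (L l220 (L l350 (L l515 (T t9032 (K a208 (M a90 (F (L l126 (T t8962 (L l192 (L l220 (L l350 (L l515 (T t9032 N))))))))) (K a90 (Fr a208 a218 l246 (V t9033)) N)))))))))))) (K a208 (M a90 (L l170 (F (T t8918 (L l220 (L l515 (T t9026 (K a144 (M a159 (F (L l126 (T t8962 (L l192 (L l220 (L l350 (L l515 (T t9032 N))))))))) (K a159 (M a144 (F (T t9028 (T t8918 N)))) N))))))))) (K a90 (Fr a208 a218 l246 (V t9033)) (K a159 (M a144 (L l375 (F (T t9029 (L l126 (T t8960 (K a208 (M a90 (F (T t9028 (T t8918 N)))) (K a90 (Fr a208 a218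 l246 (V t9029)) N)))))))) N))))))))))))) (K a213 (M a149 (F (T t8918 (L l61 (L l239 (T t9037 N)))))) N)))))))) (K a223 (M a154 (L l347 (L l361 (F (T t7648 (L l246 (L l289 (T t9036 (K a149 (M a213 (L l361 (L l375 (F (T t8918 (L l220 (L l245 (L l289 (L l350 (T t9035 (K a208 (Fr a90 a218 l354 (V t8918)) (K a90 (M a208 (L l361 (F (T t9034 (L l126 (T t8960 (K a95 (M a159 (F (T t9034 (L l89 (L l126 (T t8960 N)))))) (K a159 (M a95 (F (T t9034 (L l126 (T t8960 N))))) N)))))))) (K a95 (M a159 (L l375 (F (L l220 (T t7648 (L l137 (L l289 (T t9036 (K a208 (Fr a90 a218 l354 (V t8918)) (K a90 (M a208 (F (T t9034 (L l89 (L l126 (T t8960 N)))))) N)))))))))) (K a159 (M a95 (L l375 (F (T t8918 (L l220 (L l245 (L l350 (L l515 (T t9032 (K a208 (Fr a90 a218 l354 (V t7648)) (K a90 (M a208 (F (T t9034 (L l126 (T t8960 N))))) N))))))))))) N)))))))))))))) (K a213 (M a149 (L l246 (L l361 (F (T t8918 (L l61 (L l123 (L l275 (T t9041 (K a208 (Fr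 a218 a90 l354 (V t7648)) (K a218 (M a208 (L l361 (F (T t9034 (L l126 (T t8960 (K a95 (Fr a159 a144 l170 (V t9033)) (K a159 (M a95 (F (T t9034 (L l126 (T t8960 N))))) N)))))))) (K a95 (Fr a159 a144 l170 (V t7648)) (K a159 (M a95 (L l246 (F (T t8918 (L l11 (L l17 (L l61 (L l473 (L l505 (T t9042 (K a208 (Fr a218 a90 l354 (V t8918)) (K a218 (M a208 (F (T t9034 (L l126 (T t8960 N))))) N)))))))))))) N))))))))))))) (K a95 (M a159 (L l347 (F (T t7648 (L l47 (L l137 (L l246 (L l289 (T t9048 (K a149 (M a213 (L l375 (F (L l220 (T t7648 (L l137 (L l289 (T t9036 (K a208 (Fr a90 a218 l354 (V t8918)) (K a90 (M a208 (F (T t9034 (L l89 (L l126 (T t8960 N)))))) N)))))))))) (K a213 (Fr a149 a144 l170 (V t7648)) N))))))))))) (K a159 (M a95 (L l347 (F (T t7648 (L l246 (L l289 (L l505 (T t9036 (K a149 (M a213 (L l375 (F (T t8918 (L l220 (L l245 (L l350 (L l515 (T t9032 (K a208 (Fr a90 a218 l354 (V t7648)) (K a90 (M a208 (F (T t9034 (L l126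 (T t8960 N))))) N))))))))))) (K a213 (M a149 (L l246 (F (T t8918 (L l11 (L l17 (L l61 (L l473 (L l505 (T t9042 (K a208 (Fr a218 a90 l354 (V t8918)) (K a218 (M a208 (F (T t9034 (L l126 (T t8960 N))))) N)))))))))))) N)))))))))) N)))))))))))) N))))))))))) (K a223 (M a154 (L l18 (L l347 (F (T t8916 (L l246 (T t8917 (K a149 (M a213 (L l18 (F (T t8918 (L l220 (L l515 (T t9026 (K a26 (M a31 (F (T t8918 (L l220 (L l515 (T t9026 N)))))) (K a31 (M a26 (L l361 (L l375 (F (T t8918 (L l220 (L l245 (L l289 (L l350 (T t9035 (K a208 (Fr a90 a218 l354 (V t8918)) (K a90 (M a208 (L l361 (F (T t9034 (L l126 (T t8960 (K a95 (M a159 (F (T t9034 (L l89 (L l126 (T t8960 N)))))) (K a159 (M a95 (F (T t9034 (L l126 (T t8960 N))))) N)))))))) (K a95 (M a159 (L l375 (F (L l220 (T t7648 (L l137 (L l289 (T t9036 (K a208 (Fr a90 a218 l354 (V t8918)) (K a90 (M a208 (F (T t9034 (L l89 (L l126 (T t8960 N)))))) N)))))))))) (K a159 (M a95 (L l375 (F (T t8918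 (L l220 (L l245 (L l350 (L l515 (T t9032 (K a208 (Fr a90 a218 l354 (V t7648)) (K a90 (M a208 (F (T t9034 (L l126 (T t8960 N))))) N))))))))))) N)))))))))))))) N))))))))) (K a213 (M a149 (L l18 (L l246 (F (T t8918 (L l123 (L l361 (T t9043 (K a208 (M a218 (L l18 (F (T t7648 (L l238 (L l275 (T t9044 (K a26 (M a31 (F (T t7648 (L l275 (T t9040 N))))) (K a31 (Fr a26 a90 l354 (V t7648)) N))))))))) (K a26 (M a31 (L l246 (F (T t8918 (L l54 (L l123 (L l275 (T t9041 (K a208 (M a218 (F (T t7648 (L l275 (T t9040 N))))) (K a218 (Fr a208 a90 l375 (V t9033)) N)))))))))) (K a218 (M a208 (L l18 (F (T t9034 (L l126 (T t8960 (K a26 (Fr a31 a90 l375 (V t9033)) (K a31 (M a26 (L l361 (F (T t9034 (L l126 (T t8960 (K a95 (Fr a159 a144 l170 (V t9033)) (K a159 (M a95 (F (T t9034 (L l126 (T t8960 N))))) N)))))))) N)))))))) (K a31 (M a26 (L l246 (L l361 (F (T t8918 (L l61 (L l123 (L l275 (T t9041 (K a208 (Fr a218 a90 l354 (V t7648)) (K a218 (M a208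 (L l361 (F (T t9034 (L l126 (T t8960 (K a95 (Fr a159 a144 l170 (V t9033)) (K a159 (M a95 (F (T t9034 (L l126 (T t8960 N))))) N)))))))) (K a95 (Fr a159 a144 l170 (V t7648)) (K a159 (M a95 (L l246 (F (T t8918 (L l11 (L l17 (L l61 (L l473 (L l505 (T t9042 (K a208 (Fr a218 a90 l354 (V t8918)) (K a218 (M a208 (F (T t9034 (L l126 (T t8960 N))))) N)))))))))))) N))))))))))))) N)))))))))))) (K a26 (M a31 (L l347 (F (T t8918 (T t7648 (T t9047 (K a149 (M a213 (F (T t8918 (L l220 (L l515 (T t9026 N)))))) (K a213 (M a149 (L l246 (F (T t8918 (L l54 (L l123 (L l275 (T t9041 (K a208 (M a218 (F (T t7648 (L l275 (T t9040 N))))) (K a218 (Fr a208 a90 l375 (V t9033)) N)))))))))) N)))))))) (K a31 (M a26 (L l347 (L l361 (F (T t7648 (L l246 (L l289 (T t9036 (K a149 (M a213 (L l361 (L l375 (F (T t8918 (L l220 (L l245 (L l289 (L l350 (T t9035 (K a208 (Fr a90 a218 l354 (V t8918)) (K a90 (M a208 (L l361 (F (T t9034 (L l126 (T t8960 (K a95 (M a159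 (F (T t9034 (L l89 (L l126 (T t8960 N)))))) (K a159 (M a95 (F (T t9034 (L l126 (T t8960 N))))) N)))))))) (K a95 (M a159 (L l375 (F (L l220 (T t7648 (L l137 (L l289 (T t9036 (K a208 (Fr a90 a218 l354 (V t8918)) (K a90 (M a208 (F (T t9034 (L l89 (L l126 (T t8960 N)))))) N)))))))))) (K a159 (M a95 (L l375 (F (T t8918 (L l220 (L l245 (L l350 (L l515 (T t9032 (K a208 (Fr a90 a218 l354 (V t7648)) (K a90 (M a208 (F (T t9034 (L l126 (T t8960 N))))) N))))))))))) N)))))))))))))) (K a213 (M a149 (L l246 (L l361 (F (T t8918 (L l61 (L l123 (L l275 (T t9041 (K a208 (Fr a218 a90 l354 (V t7648)) (K a218 (M a208 (L l361 (F (T t9034 (L l126 (T t8960 (K a95 (Fr a159 a144 l170 (V t9033)) (K a159 (M a95 (F (T t9034 (L l126 (T t8960 N))))) N)))))))) (K a95 (Fr a159 a144 l170 (V t7648)) (K a159 (M a95 (L l246 (F (T t8918 (L l11 (L l17 (L l61 (L l473 (L l505 (T t9042 (K a208 (Fr a218 a90 l354 (V t8918)) (K a218 (M a208 (F (T t9034 (L l126 (T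 t8960 N))))) N)))))))))))) N))))))))))))) (K a95 (M a159 (L l347 (F (T t7648 (L l47 (L l137 (L l246 (L l289 (T t9048 (K a149 (M a213 (L l375 (F (L l220 (T t7648 (L l137 (L l289 (T t9036 (K a208 (Fr a90 a218 l354 (V t8918)) (K a90 (M a208 (F (T t9034 (L l89 (L l126 (T t8960 N)))))) N)))))))))) (K a213 (Fr a149 a144 l170 (V t7648)) N))))))))))) (K a159 (M a95 (L l347 (F (T t7648 (L l246 (L l289 (L l505 (T t9036 (K a149 (M a213 (L l375 (F (T t8918 (L l220 (L l245 (L l350 (L l515 (T t9032 (K a208 (Fr a90 a218 l354 (V t7648)) (K a90 (M a208 (F (T t9034 (L l126 (T t8960 N))))) N))))))))))) (K a213 (M a149 (L l246 (F (T t8918 (L l11 (L l17 (L l61 (L l473 (L l505 (T t9042 (K a208 (Fr a218 a90 l354 (V t8918)) (K a218 (M a208 (F (T t9034 (L l126 (T t8960 N))))) N)))))))))))) N)))))))))) N)))))))))))) N))))))))))) N))))))))))))) (K a144 (M a104 (L l347 (F (L l192 (T t9049 (L l126 (T t9050 (L l166 (L l192 (T t9051 (K a149 (M a213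 (L l170 (F (L l126 (T t9050 (L l163 (L l166 (L l192 (L l220 (T t9052 (L l163 (L l166 (L l192 (L l220 (T t9051 (K a154 (M a159 (L l368 (F (L l126 (T t9050 (L l163 (L l166 (L l192 (L l220 (T t9052 (L l163 (L l166 (L l192 (L l220 (T t9051 (K a16 (M a223 (L l18 (F (L l126 (T t9050 (L l192 (L l220 (L l375 (T t9031 (K a26 (Fr a31 a95 l361 (V t9052)) (K a31 (M a26 (L l375 (F (L l126 (T t9050 (L l192 (L l220 (L l455 (L l498 (T t9053 (K a208 (M a90 (F (L l126 (T t9050 (L l192 (L l220 (T t9054 (L l123 (L l192 (L l206 (L l484 (L l491 (L l512 (T t9055 N)))))))))))))) (K a90 (Fr a208 a218 l246 (V t9034)) N)))))))))))) N))))))))))) (K a223 (M a16 (F (T t9056 (L l11 (L l350 (T t9057 N)))))) N))))))))))))))))) (K a159 (M a154 (F (L l126 (T t9050 (L l163 (L l166 (L l192 (L l220 (T t9052 (L l163 (L l166 (L l192 (L l220 (T t9051 N)))))))))))))) N))))))))))))))))) (K a213 (M a149 (F (L l126 (T t9050 (L l65 (L l192 (T t9058 N))))))) N))))))))))))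 (K a96 (M a252 (L l347 (F (T t7648 (L l376 (T t8918 (L l376 (T t8968 (K a149 (M a213 (F (L l376 (T t8918 (L l220 (L l515 (T t9026 N))))))) (K a213 (M a149 (F (L l376 (T t8918 (L l239 (T t9037 N)))))) N)))))))))) (K a160 (M a84 (L l347 (F (L l376 (T t8912 (L l11 (L l192 (L l350 (T t3307 (L l18 (L l176 (L l192 (L l368 (T t8920 (K a149 (M a213 (F (L l376 (T t8910 (L l176 (L l192 (L l220 (L l515 (T t9059 N))))))))) (K a213 (M a149 (F (L l376 (T t8912 (L l176 (L l192 (T t9060 N))))))) N)))))))))))))))) (K a224 (M a252 (L l347 (F (T t7648 (L l376 (T t8918 (L l18 (L l252 (L l368 (L l376 (T t8972 (K a149 (M a213 (F (L l376 (T t8918 (L l220 (L l256 (L l515 (T t9026 N)))))))) (K a213 (M a149 (F (L l376 (T t8918 (L l239 (T t9037 N)))))) N))))))))))))) (K a48 (M a252 (L l347 (F (T t8959 (L l34 (T t7648 (T t8974 (K a149 (M a213 (F (T t8959 (L l220 (L l488 (L l515 (T t9026 N))))))) (K a213 (M a149 (F (T t8959 (L l38 (L l239 (T t9037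 N)))))) N))))))))) (K a112 (M a252 (L l347 (F (T t8918 (L l110 (T t7648 (T t8974 (K a149 (M a213 (F (T t8918 (L l220 (L l515 (T t9026 N)))))) (K a213 (M a149 (F (T t8918 (L l239 (T t9037 N))))) N))))))))) (K a176 (Fr a192 a128 l304 (Fr a96 a112 l116 (Fr a240 a160 l448 (Fr a144 a48 l484 (V t9514))))) (K a240 (M a84 (L l347 (F (T t8912 (L l11 (L l350 (T t3307 (L l50 (L l458 (L l478 (T t8924 (K a149 (M a213 (F (T t8910 (L l220 (L l273 (L l515 (T t9059 N))))))) (K a213 (M a149 (F (T t8912 (L l453 (T t9060 N))))) N))))))))))))) (K a149 (M a213 (F (L l170 (L l220 (T t9061 (L l220 (L l491 (T t9062 (L l18 (L l368 (T t9063 (L l18 (L l220 (L l368 (L l491 (T t9064 (L l220 (L l368 (L l491 (T t9065 (K a128 (M a168 (L l220 (F (L l192 (T t9019 (L l126 (T t9020 (L l18 (L l163 (L l170 (L l192 (L l368 (T t9021 (K a170 (M a191 (F (L l180 (L l192 (T t9019 (L l126 (T t9020 (L l18 (L l163 (L l170 (L l192 (L l368 (T t9021 N))))))))))))) (K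 a191 (M a170 (F (L l126 (T t9020 (L l196 (L l213 (L l219 (T t9022 N)))))))) N))))))))))))))) (K a192 (M a252 (L l519 (F (T t8959 (L l126 (L l484 (T t8960 (L l484 (T t8961 (K a106 (M a63 (F (L l126 (T t8962 (L l199 (L l217 (L l489 (T t9024 N)))))))) (K a63 (M a106 (F (T t8959 (L l126 (L l484 (T t8960 (L l484 (T t8961 N)))))))) N))))))))))) (K a144 (Fr a192 a128 l304 (Fr a255 a234 l296 (Fr a112 a96 l116 (Fr a240 a160 l448 (Fr a176 a48 l412 (V t9519)))))) (K a176 (Fr a192 a128 l304 (Fr a96 a112 l116 (Fr a240 a160 l448 (Fr a144 a48 l484 (V t9514))))) (K a240 (M a252 (F (L l126 (T t8960 (L l220 (L l273 (L l515 (T t9026 N)))))))) N))))))))))))))))))))))))) (K a213 (M a149 (F (T t8884 (L l47 (T t9067 (T t9068 (L l18 (L l47 (L l368 (T t9069 (K a192 (M a252 (L l296 (F (T t8959 (L l126 (L l484 (T t8960 (L l484 (T t8961 (K a234 (M a255 (F (L l126 (T t8962 (L l272 (L l275 (L l293 (L l455 (L l473 (T t9025 N)))))))))) (K a255 (M a234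 (F (T t8959 (L l126 (L l484 (T t8960 (L l484 (T t8961 N)))))))) N))))))))))) (K a144 (Fr a240 a160 l448 (Fr a112 a96 l116 (Fr a192 a128 l304 (Fr a176 a48 l412 (V t9520))))) N)))))))))))) N))))))))))))))))))))⟩
def e0_64__85_10 : Ent 4 := ⟨[a0, a64], [a85, a22], (M a80 (F (T t8884 (L l368 (T t8881 (K a128 (M a84 (F (T t8912 (L l192 (L l458 (T t8913 (L l192 (T t8914 N)))))))) (K a192 (M a84 (F (T t8915 (L l126 (L l484 (T t8911 (L l484 (L l514 (T t8914 N))))))))) (K a16 (M a252 (L l368 (F (T t8916 (T t8917 (K a154 (M a223 (F (T t8918 (L l69 (T t7648 (T t8919 N)))))) (K a223 (M a154 (F (T t8916 (L l246 (T t8917 N))))) N))))))) (K a144 (M a84 (F (L l484 (T t8912 (L l192 (L l458 (T t8913 (L l11 (L l166 (L l192 (L l350 (T t3307 N)))))))))))) (K a96 (M a84 (F (T t8970 (L l376 (L l458 (T t8913 (L l376 (T t8882 N)))))))) (K a160 (M a84 (F (L l376 (T t8912 (L l11 (L l192 (L l350 (T t3307 (L l19 (L l176 (L l192 (L l368 (T t8920 N)))))))))))))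 (K a224 (M a84 (F (T t8970 (L l126 (L l376 (T t8911 (L l376 (L l458 (T t8921 N))))))))) (K a48 (M a84 (F (T t8990 (L l458 (T t8913 (L l126 (L l484 (T t8911 N)))))))) (K a112 (M a84 (F (T t8922 (L l11 (L l110 (L l350 (T t3307 (L l110 (T t8882 N))))))))) (K a176 (Fr a192 a128 l304 (Fr a96 a112 l116 (Fr a240 a160 l448 (Fr a144 a48 l484 (V t9514))))) (K a240 (M a84 (F (T t8912 (L l11 (L l350 (T t3307 (L l458 (L l478 (T t8924 N))))))))) N))))))))))))))))⟩
def e0_64__85_11 : Ent 4 := ⟨[a0, a64], [a85, a23], (M a80 (F (T t8884 (L l368 (T t8881 (K a128 (M a84 (F (T t8912 (L l192 (L l458 (T t8913 (L l192 (T t8914 N)))))))) (K a192 (M a84 (F (T t8915 (L l126 (L l484 (T t8911 (L l484 (L l514 (T t8914 N))))))))) (K a16 (M a252 (L l368 (F (T t8916 (L l351 (T t8917 (K a154 (M a223 (F (T t8918 (T t7648 (T t8919 N))))) (K a223 (M a154 (F (T t8916 (L l246 (L l351 (T t8917 N)))))) N)))))))) (K a144 (M a84 (F (L l484 (T t8912 (L l192 (L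 l458 (T t8913 (L l11 (L l166 (L l192 (L l350 (T t3307 N)))))))))))) (K a96 (M a84 (F (T t8861 (L l376 (L l458 (T t8913 (L l376 (T t8882 N)))))))) (K a160 (M a84 (F (L l376 (T t8912 (L l11 (L l192 (L l350 (T t3307 (L l176 (L l192 (L l368 (T t8920 N)))))))))))) (K a224 (M a84 (F (T t8970 (L l126 (L l376 (T t8911 (L l376 (L l458 (T t8921 N))))))))) (K a48 (M a84 (F (T t8915 (L l126 (L l484 (T t8911 (L l11 (L l350 (T t3307 N))))))))) (K a112 (M a84 (F (T t8922 (L l11 (L l110 (L l350 (T t3307 (L l110 (T t8882 N))))))))) (K a176 (Fr a192 a128 l304 (Fr a96 a112 l116 (Fr a240 a160 l448 (Fr a144 a48 l484 (V t9514))))) (K a240 (M a84 (F (T t8912 (L l11 (L l350 (T t3307 (L l458 (L l478 (T t8924 N))))))))) N))))))))))))))))⟩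
def e0_64__85_12 : Ent 4 := ⟨[a0, a64], [a85, a26], (M a68 (F (T t8992 (L l458 (T t8993 (K a128 (M a84 (F (T t8899 (L l18 (L l156 (L l368 (T t8994 (L l156 (T t8995 N))))))))) (K a192 (M a84 (F (T t8996 (L l94 (L l334 (T t8892 (L l334 (L l514 (T t8995 N))))))))) (K a4 (M a252 (L l458 (F (T t8997 (T t8998 (K a166 (M a247 (F (T t7648 (L l75 (T t8999 (T t9000 N)))))) (K a247 (M a166 (F (T t8997 (L l278 (T t8998 N))))) N))))))) (K a132 (M a84 (F (L l334 (T t8899 (L l18 (L l156 (L l368 (T t8994 (L l156 (L l198 (L l350 (T t3307 N)))))))))))) (K a72 (M a48 (F (T t363 (L l316 (T t1474 (L l316 (T t9001 N))))))) (K a136 (M a96 (F (L l156 (T t8937 (L l94 (L l316 (T t9002 (L l156 (L l204 (L l316 (L l458 (T t9003 N)))))))))))) (K a200 (M a96 (F (T t8937 (L l94 (L l316 (T t9002 (L l316 (L l496 (T t9015 N))))))))) (K a12 (M a48 (F (L l478 (T t363 (L l466 (T t1474 (T t9001 N))))))) (K a76 (M a48 (F (T t1474 (L l18 (L l368 (T t1184 (L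 l134 (T t9006 N)))))))) (K a140 (Fr a192 a128 l304 (Fr a72 a76 l80 (Fr a204 a136 l328 (Fr a132 a12 l334 (V t9518))))) (K a204 (M a96 (F (T t8937 (L l94 (T t9002 (L l57 (L l322 (L l458 (T t9008 N))))))))) N))))))))))))))))⟩
def e0_64__85_13 : Ent 4 := ⟨[a0, a64], [a85, a27], (M a80 (F (T t8884 (L l368 (T t8881 (K a128 (M a84 (F (T t8912 (L l192 (L l458 (T t8913 (L l192 (T t8914 N)))))))) (K a192 (M a84 (F (T t8915 (L l126 (L l484 (T t8911 (L l484 (L l514 (T t8914 N))))))))) (K a16 (M a252 (L l368 (F (T t8916 (T t8917 (K a154 (M a223 (F (T t8918 (T t7648 (T t8919 N))))) (K a223 (M a154 (F (T t8916 (L l246 (T t8917 N))))) N))))))) (K a144 (M a84 (F (L l484 (T t8912 (L l192 (L l458 (T t8913 (L l166 (L l192 (L l350 (T t3307 N))))))))))) (K a96 (M a84 (F (T t8861 (L l376 (L l458 (T t8913 (L l376 (T t8882 N)))))))) (K a160 (M a84 (F (L l376 (T t8912 (L l192 (L l350 (T t3307 (L l176 (L l192 (L l368 (T t8920 N))))))))))) (K a224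 (M a84 (F (T t8861 (L l126 (L l376 (T t8911 (L l376 (L l458 (T t8921 N))))))))) (K a48 (M a84 (F (T t8915 (L l126 (L l484 (T t8911 (L l350 (T t3307 N)))))))) (K a112 (M a84 (F (T t8922 (L l110 (L l350 (T t3307 (L l110 (T t8882 N)))))))) (K a176 (Fr a192 a128 l304 (Fr a96 a112 l116 (Fr a240 a160 l448 (Fr a144 a48 l484 (V t9514))))) (K a240 (M a84 (F (T t8912 (L l350 (T t3307 (L l458 (L l478 (T t8924 N)))))))) N))))))))))))))))⟩
def e0_64__85_14 : Ent 4 := ⟨[a0, a64], [a85, a31], (M a68 (F (T t8992 (L l458 (T t8993 (K a128 (M a84 (F (T t8899 (L l18 (L l156 (L l368 (T t8994 (L l156 (T t8995 N))))))))) (K a192 (M a84 (F (T t8996 (L l94 (L l334 (T t8892 (L l334 (L l514 (T t8995 N))))))))) (K a4 (M a252 (L l458 (F (T t8997 (L l363 (T t8998 (K a166 (M a247 (F (T t8999 (T t7648 (L l375 (T t9000 N)))))) (K a247 (M a166 (F (T t8997 (L l278 (L l363 (T t8998 N)))))) N)))))))) (K a132 (M a84 (F (L l334 (T t8899 (L l18 (L l156 (L l368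 (T t8994 (L l156 (L l198 (L l350 (T t3307 N)))))))))))) (K a72 (M a48 (F (T t363 (L l316 (T t1474 (L l316 (T t9001 N))))))) (K a136 (M a96 (F (L l156 (T t8937 (L l94 (L l316 (T t9002 (L l156 (L l204 (L l316 (L l458 (T t9003 N)))))))))))) (K a200 (M a96 (F (T t8937 (L l94 (L l316 (T t9002 (L l316 (L l496 (T t9015 N))))))))) (K a12 (M a48 (F (L l478 (T t363 (L l466 (T t1474 (T t9001 N))))))) (K a76 (M a48 (F (T t1474 (L l18 (L l368 (T t1184 (L l134 (T t9006 N)))))))) (K a140 (Fr a192 a128 l304 (Fr a72 a76 l80 (Fr a204 a136 l328 (Fr a132 a12 l334 (V t9518))))) (K a204 (M a96 (F (T t8937 (L l94 (T t9002 (L l322 (L l458 (T t9008 N)))))))) N))))))))))))))))⟩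
def e0_64__85_15 : Ent 4 := ⟨[a0, a64], [a85, a42], (M a80 (F (T t8884 (L l368 (T t8881 (K a128 (M a84 (F (T t8912 (L l192 (L l458 (T t8913 (L l192 (T t8914 N)))))))) (K a192 (M a84 (F (T t8915 (L l126 (L l484 (T t8911 (L l484 (L l514 (T t8914 N))))))))) (K a16 (M a252 (L l368 (F (T t8916 (T t8917 (K a154 (M a223 (F (T t8918 (T t7648 (T t8919 N))))) (K a223 (M a154 (F (T t8916 (L l246 (T t8917 N))))) N))))))) (K a144 (M a84 (F (L l484 (T t8912 (L l192 (L l458 (T t8913 (L l166 (L l192 (L l350 (T t3307 N))))))))))) (K a96 (M a84 (F (T t8861 (L l376 (L l458 (T t8913 (L l376 (T t8882 N)))))))) (K a160 (M a84 (F (L l376 (T t8912 (L l192 (L l350 (T t3307 (L l176 (L l192 (L l368 (T t8920 N))))))))))) (K a224 (M a84 (F (T t8861 (L l126 (L l376 (T t8911 (L l376 (L l458 (T t8921 N))))))))) (K a48 (M a84 (F (T t8915 (L l126 (L l484 (T t8911 (L l350 (T t3307 N)))))))) (K a112 (M a84 (F (T t8922 (L l110 (L l350 (T t3307 (L l110 (T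 t8882 N)))))))) (K a176 (Fr a192 a128 l304 (Fr a96 a112 l116 (Fr a240 a160 l448 (Fr a144 a48 l484 (V t9514))))) (K a240 (M a84 (F (T t8912 (L l350 (T t3307 (L l458 (L l478 (T t8924 N)))))))) N))))))))))))))))⟩
def e0_64__85_16 : Ent 4 := ⟨[a0, a64], [a85, a43], (M a80 (F (T t8884 (L l368 (T t8881 (K a128 (M a84 (F (T t8912 (L l192 (L l458 (T t8913 (L l192 (T t8914 N)))))))) (K a192 (M a84 (F (T t8915 (L l126 (L l484 (T t8911 (L l484 (L l514 (T t8914 N))))))))) (K a16 (M a252 (L l368 (F (T t8916 (T t8917 (K a154 (M a223 (F (T t8918 (T t7648 (L l393 (T t8919 N)))))) (K a223 (M a154 (F (T t8916 (L l246 (T t8917 N))))) N))))))) (K a144 (M a84 (F (L l484 (T t8912 (L l192 (L l458 (T t8913 (L l166 (L l192 (L l350 (T t3307 N))))))))))) (K a96 (M a84 (F (T t8861 (L l376 (L l458 (T t8913 (L l376 (T t8882 N)))))))) (K a160 (M a84 (F (L l376 (T t8912 (L l192 (L l350 (T t3307 (L l176 (L l192 (L l368 (T t8920 N))))))))))) (K a224 (M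 a84 (F (T t8970 (L l126 (L l376 (T t8911 (L l376 (L l458 (T t8921 N))))))))) (K a48 (M a84 (F (T t8915 (L l126 (L l484 (T t8911 (L l350 (T t3307 N)))))))) (K a112 (M a84 (F (T t8922 (L l110 (L l350 (T t3307 (L l110 (T t8882 N)))))))) (K a176 (Fr a192 a128 l304 (Fr a96 a112 l116 (Fr a240 a160 l448 (Fr a144 a48 l484 (V t9514))))) (K a240 (M a84 (F (T t8912 (L l350 (T t3307 (L l458 (L l478 (T t8924 N)))))))) N))))))))))))))))⟩
def e0_64__85_17 : Ent 4 := ⟨[a0, a64], [a85, a47], (M a68 (F (T t8992 (L l458 (T t8993 (K a128 (M a84 (F (T t8899 (L l156 (L l368 (T t8994 (L l156 (T t8995 N)))))))) (K a192 (M a84 (F (L l334 (T t8899 (L l368 (T t8994 (L l334 (L l514 (T t8995 N))))))))) (K a4 (M a252 (L l458 (F (T t7648 (T t8999 (L l399 (T t9000 (K a166 (M a247 (F (T t8999 (T t7648 (L l399 (T t9000 N)))))) (K a247 (M a166 (F (T t8997 (L l278 (L l411 (T t9071 N)))))) N))))))))) (K a132 (M a84 (F (L l334 (T t8899 (L l156 (L l368 (T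 t8994 (L l156 (L l198 (L l350 (T t3307 N))))))))))) (K a72 (M a48 (F (T t363 (L l316 (T t1474 (L l316 (T t9001 N))))))) (K a136 (M a96 (F (L l156 (T t9072 (L l94 (L l316 (T t9002 (L l156 (L l204 (L l316 (L l458 (T t9003 N)))))))))))) (K a200 (M a96 (F (T t9072 (L l94 (L l316 (T t9002 (L l316 (L l496 (T t9015 N))))))))) (K a12 (M a48 (F (L l478 (T t363 (L l466 (T t1474 (T t9001 N))))))) (K a76 (M a48 (F (T t1474 (L l368 (L l411 (T t1184 (L l134 (T t9006 N)))))))) (K a140 (Fr a192 a128 l304 (Fr a72 a76 l80 (Fr a204 a136 l328 (Fr a132 a12 l334 (V t9518))))) (K a204 (M a96 (F (L l411 (T t8937 (L l94 (T t9002 (L l28 (L l322 (L l458 (T t9008 N)))))))))) N))))))))))))))))⟩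
def e0_64__85_18 : Ent 4 := ⟨[a0, a64], [a85, a63], (M a80 (F (L l368 (T t8881 (L l38 (T t8884 (K a128 (M a84 (F (T t8912 (L l192 (L l458 (T t8913 (L l192 (T t8914 N)))))))) (K a192 (M a252 (L l519 (F (T t8959 (L l126 (L l484 (T t8960 (L l484 (T t8961 (K a149 (M a106 (L l347 (F (T t8959 (L l126 (L l484 (T t8960 (L l484 (T t8961 (K a21 (M a213 (F (T t8959 (L l126 (L l484 (T t8960 (L l484 (T t8961 N)))))))) (K a213 (M a21 (L l296 (F (T t8959 (L l126 (L l484 (T t8960 (L l484 (T t8961 (K a234 (M a255 (F (L l484 (T t8916 (L l272 (L l282 (L l294 (L l445 (T t9073 N))))))))) (K a255 (M a234 (L l433 (F (T t8959 (L l67 (L l87 (L l293 (L l475 (T t9074 (L l61 (L l266 (L l268 (L l447 (L l469 (L l484 (T t9075 (K a127 (M a191 (F (T t8959 (L l67 (L l87 (L l293 (L l475 (T t9074 (L l61 (L l266 (L l268 (L l447 (L l469 (L l484 (T t9075 N))))))))))))))) (K a191 (M a127 (L l220 (F (T t8959 (L l61 (L l213 (L l266 (L l268 (L l447 (L l469 (L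 l484 (T t9075 (L l126 (L l484 (T t8960 (K a128 (Fr a170 a42 l390 (V t9076)) (K a170 (M a128 (F (L l174 (L l180 (T t8959 (L l61 (L l266 (L l268 (L l404 (L l447 (L l505 (T t9077 (L l174 (L l484 (L l514 (T t9078 N)))))))))))))))) N))))))))))))))))) N)))))))))))))))))) N))))))))))) N))))))))))) (K a106 (M a149 (F (T t8959 (L l104 (L l126 (L l484 (T t8960 (L l104 (L l484 (T t8961 N)))))))))) N))))))))))) (K a16 (M a252 (L l368 (F (T t8916 (T t8917 (K a154 (M a223 (F (T t7494 (L l62 (T t8918 (T t8919 N)))))) (K a223 (M a154 (F (T t8916 (L l246 (T t8917 N))))) N))))))) (K a144 (M a84 (F (L l484 (T t8912 (L l192 (L l458 (T t8913 (L l166 (L l192 (L l350 (T t3307 N))))))))))) (K a96 (M a84 (F (T t8990 (L l376 (L l458 (T t8913 (L l376 (T t8882 N)))))))) (K a160 (M a84 (F (L l376 (T t8912 (L l192 (L l350 (T t3307 (L l38 (L l176 (L l192 (L l368 (T t8920 N)))))))))))) (K a224 (M a84 (F (L l376 (T t8910 (L l350 (T t3307 (L l62 (L l376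 (L l458 (T t8921 N)))))))))) (K a48 (M a84 (L l38 (F (T t8990 (L l458 (T t8913 (L l126 (L l484 (T t8911 (K a53 (M a58 (F (T t8990 (L l435 (L l436 (T t8991 (L l484 (T t8912 N)))))))) (K a58 (M a53 (F (T t8990 (L l435 (L l436 (T t8991 (L l484 (T t8912 N)))))))) N))))))))))) (K a112 (M a84 (F (T t8915 (L l110 (L l350 (T t3307 (L l110 (T t8882 N)))))))) (K a176 (Fr a192 a128 l304 (Fr a96 a112 l116 (Fr a240 a160 l448 (Fr a144 a48 l484 (V t9514))))) (K a240 (M a84 (L l447 (F (T t8912 (L l350 (T t3307 (L l458 (L l478 (T t8924 (K a181 (M a122 (F (T t8912 (L l262 (L l435 (T t8970 (L l458 (L l478 (T t8924 N))))))))) (K a122 (M a181 (F (T t8910 (L l262 (L l435 (T t8970 (L l458 (L l478 (T t8924 N))))))))) N))))))))))) N)))))))))))))))))⟩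
def e0_64__85_19 : Ent 4 := ⟨[a0, a64], [a85, a65], (M a84 (L l141 (F (T t8861 (L l350 (T t3307 (K a128 (M a116 (L l141 (F (T t8862 (L l126 (L l216 (T t8863 (L l192 (L l216 (T t8864 (K a105 (M a125 (F (L l216 (T t8874 (L l98 (L l117 (L l133 (T t9079 N)))))))) (K a125 (M a105 (F (L l216 (T t8874 (L l117 (T t9080 N)))))) N)))))))))))) (K a192 (M a116 (L l141 (F (T t8874 (L l126 (L l514 (T t9081 (L l514 (T t8864 (K a105 (M a125 (F (T t8874 (L l98 (L l117 (L l133 (L l514 (T t9079 N)))))))) (K a125 (M a105 (F (T t8874 (L l117 (L l514 (T t9080 N)))))) N))))))))))) (K a20 (M a116 (L l141 (L l350 (F (T t8862 (L l126 (T t8863 (L l94 (T t8871 (K a105 (M a125 (L l350 (F (T t8874 (L l98 (L l117 (L l133 (T t9079 (K a150 (M a215 (L l518 (F (T t8874 (L l98 (L l117 (L l133 (T t9079 (K a60 (M a195 (F (T t8874 (L l98 (L l117 (L l133 (L l442 (L l514 (T t9079 N))))))))) (K a195 (M a60 (F (T t9082 (L l46 (L l458 (T t8873 N)))))) N))))))))))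 (K a215 (M a150 (F (T t8874 (L l98 (L l117 (L l133 (T t9079 N))))))) N)))))))))) (K a125 (M a105 (L l350 (F (T t8874 (L l117 (T t9080 (K a150 (M a215 (F (T t8874 (L l117 (T t9080 N))))) (K a215 (M a150 (F (T t8862 (L l431 (L l434 (T t9083 N)))))) N)))))))) (K a150 (M a215 (L l141 (F (T t8862 (L l126 (T t8863 (L l94 (T t8876 (K a105 (M a125 (L l518 (F (T t8874 (L l98 (L l117 (L l133 (T t9079 (K a60 (M a195 (F (T t8874 (L l98 (L l117 (L l133 (L l442 (L l514 (T t9079 N))))))))) (K a195 (M a60 (F (T t9082 (L l46 (L l458 (T t8873 N)))))) N)))))))))) (K a125 (M a105 (F (T t8874 (L l117 (T t9080 N))))) N)))))))))) (K a215 (M a150 (L l141 (F (T t8862 (L l126 (T t8863 (L l94 (T t8876 (K a105 (M a125 (F (T t8874 (L l98 (L l117 (L l133 (T t9079 N))))))) (K a125 (M a105 (F (T t8862 (L l431 (L l434 (T t9083 N)))))) N)))))))))) N))))))))))))) (K a148 (M a116 (L l141 (F (L l514 (T t8862 (L l126 (L l216 (T t8863 (L l94 (L l166 (L l216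 (L l514 (T t8871 (K a105 (M a125 (F (L l216 (T t8874 (L l98 (L l117 (L l133 (L l514 (T t9079 N))))))))) (K a125 (M a105 (F (L l216 (T t8874 (L l117 (L l514 (T t9080 N))))))) N))))))))))))))) (K a104 (M a48 (L l141 (F (T t363 (L l126 (L l388 (T t3280 (L l100 (L l126 (L l388 (T t8877 (K a105 (M a125 (L l98 (F (T t363 (L l368 (L l496 (T t9084 (L l100 (L l126 (L l388 (T t8877 (K a106 (M a107 (F (T t363 (L l368 (L l496 (T t9084 (L l100 (L l104 (L l126 (L l388 (T t8877 N))))))))))) (K a107 (M a106 (F (T t9085 (L l103 (L l517 (T t9086 N)))))) N))))))))))))) (K a125 (M a105 (F (T t363 (L l388 (T t3182 (L l100 (L l126 (L l388 (T t8877 N))))))))) N))))))))))))) (K a168 (M a96 (L l141 (F (T t9087 (L l176 (L l216 (T t8937 (L l216 (L l400 (T t9088 (K a105 (M a125 (F (L l216 (T t9089 (L l94 (L l105 (L l145 (L l460 (T t9090 (L l145 (L l216 (L l400 (T t9088 N))))))))))))) (K a125 (M a105 (F (L l216 (T t9089 (L l109 (L l135 (T t9091 N)))))))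 N)))))))))))) (K a232 (M a96 (L l141 (F (T t9072 (L l94 (T t9090 (T t9088 (K a105 (M a125 (F (T t9072 (L l94 (L l105 (L l145 (T t9090 (L l145 (T t9088 N))))))))) (K a125 (M a105 (F (T t9072 (L l109 (L l126 (T t9092 N)))))) N))))))))) (K a60 (M a116 (L l141 (F (T t8874 (L l126 (L l442 (L l514 (T t9081 (L l94 (L l442 (L l514 (T t8871 (K a105 (M a125 (L l518 (F (T t8874 (L l98 (L l117 (L l133 (L l442 (L l514 (T t9079 (K a150 (M a195 (L l350 (F (T t8874 (L l98 (L l117 (L l133 (L l442 (L l514 (T t9079 (K a20 (M a215 (F (T t8874 (L l98 (L l117 (L l133 (L l442 (L l514 (T t9079 N))))))))) (K a215 (M a20 (F (T t9093 (L l126 (L l502 (T t8863 (L l98 (L l126 (L l133 (L l442 (L l514 (T t9081 N)))))))))))) N)))))))))))) (K a195 (M a150 (F (T t8874 (L l98 (L l117 (L l133 (L l442 (L l514 (T t9079 N))))))))) N)))))))))))) (K a125 (M a105 (L l434 (F (T t8874 (L l117 (L l514 (T t9080 (K a190 (M a255 (F (T t8874 (L l117 (L l514 (T t9080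 N)))))) (K a255 (M a190 (F (T t8874 (L l117 (L l514 (T t9080 N)))))) N))))))))) N)))))))))))))) (K a124 (M a240 (L l141 (F (L l134 (T t8887 (L l110 (T t7768 (T t8888 (K a105 (M a125 (L l145 (F (L l110 (T t7768 (L l458 (T t9094 (T t8888 (K a86 (M a67 (F (L l458 (T t9094 (L l110 (T t7768 (T t8888 N))))))) (K a67 (M a86 (F (L l368 (T t7789 (L l307 (L l407 (L l455 (T t9095 N)))))))) N)))))))))) (K a125 (M a105 (L l109 (F (L l110 (T t7768 (L l458 (T t9094 (T t8888 (K a126 (M a127 (F (L l458 (T t9094 (L l110 (T t7768 (T t8888 N))))))) (K a127 (M a126 (F (L l368 (T t7789 (L l431 (T t9096 N)))))) N)))))))))) N)))))))))) (K a188 (Fr a192 a128 l304 (Fr a104 a124 l140 (Fr a252 a168 l472 (Fr a148 a60 l514 (V t9512))))) (K a252 (M a96 (L l141 (F (T t8937 (L l94 (L l430 (T t9090 (L l286 (L l430 (T t9088 (K a105 (M a125 (F (T t8937 (L l94 (L l105 (L l145 (L l430 (T t9090 (L l145 (L l286 (L l430 (T t9088 N)))))))))))) (K a125 (M a105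 (F (T t8937 (L l109 (L l126 (L l430 (T t9092 N))))))) N)))))))))))) (K a105 (M a125 (F (L l145 (L l518 (T t8861 (L l98 (L l515 (T t9097 (L l98 (L l347 (L l515 (T t9098 (K a104 (M a48 (L l98 (F (T t363 (L l368 (L l496 (T t9084 (L l100 (L l126 (L l388 (T t8877 (K a106 (M a107 (F (T t363 (L l368 (L l496 (T t9084 (L l100 (L l104 (L l126 (L l388 (T t8877 N))))))))))) (K a107 (M a106 (F (T t9085 (L l103 (L l517 (T t9086 N)))))) N))))))))))))) (K a168 (M a80 (F (L l126 (T t8911 (L l176 (L l216 (T t8884 (L l145 (L l176 (T t8882 N)))))))))) (K a232 (M a80 (F (T t8884 (L l388 (T t8922 (L l145 (T t8910 N))))))) (K a124 (M a240 (L l145 (F (L l110 (T t7768 (L l458 (T t9094 (T t8888 (K a86 (M a67 (F (L l458 (T t9094 (L l110 (T t7768 (T t8888 N))))))) (K a67 (M a86 (F (L l368 (T t7789 (L l307 (L l407 (L l455 (T t9095 N)))))))) N)))))))))) (K a188 (Fr a192 a128 l304 (Fr a104 a124 l140 (Fr a60 a148 l514 (Fr a168 a252 l472 (V t9521)))))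 (K a252 (M a80 (F (T t8909 (L l145 (L l430 (L l466 (T t8910 (L l145 (L l430 (L l466 (T t8882 N))))))))))) N)))))))))))))))))) (K a125 (M a105 (F (L l109 (T t8970 (T t9100 (L l109 (L l431 (T t9101 (L l109 (L l473 (T t9102 (K a104 (M a32 (F (T t9103 (L l368 (T t7541 (L l350 (L l406 (L l514 (T t9104 N))))))))) (K a124 (M a240 (L l109 (F (L l110 (T t7768 (L l458 (T t9094 (T t8888 (K a126 (M a127 (F (L l458 (T t9094 (L l110 (T t7768 (T t8888 N))))))) (K a127 (M a126 (F (L l368 (T t7789 (L l431 (T t9096 N)))))) N)))))))))) N))))))))))))) N)))))))))))))))))))⟩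
def e0_64__85_20 : Ent 4 := ⟨[a0, a64], [a85, a66], (M a80 (F (T t8884 (L l368 (T t8881 (K a128 (M a84 (F (T t8912 (L l192 (L l458 (T t8913 (L l192 (T t8914 N)))))))) (K a192 (M a84 (L l309 (F (T t8915 (L l126 (L l484 (T t8911 (L l484 (L l514 (T t8914 (K a129 (M a3 (F (L l484 (T t8910 (L l193 (L l272 (T t9105 N))))))) (K a3 (M a129 (F (T t8915 (L l126 (L l484 (T t9106 (L l484 (L l514 (T t9107 N))))))))) N)))))))))))) (K a16 (M a252 (L l368 (F (T t8916 (T t8968 (K a154 (M a223 (F (T t8918 (T t7648 (T t9108 N))))) (K a223 (M a154 (F (T t8916 (L l246 (T t8968 N))))) N))))))) (K a144 (M a84 (F (L l484 (T t8912 (L l192 (L l458 (T t8913 (L l166 (L l192 (L l350 (T t3307 N))))))))))) (K a96 (M a84 (F (T t8861 (L l376 (L l458 (T t8913 (L l376 (T t8882 N)))))))) (K a160 (M a84 (F (L l376 (T t8912 (L l192 (L l350 (T t3307 (L l176 (L l192 (L l368 (T t8920 N))))))))))) (K a224 (M a84 (F (T t8861 (L l126 (L l376 (T t8911 (L l376 (L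 l458 (T t8921 N))))))))) (K a48 (M a84 (F (T t8915 (L l126 (L l484 (T t8911 (L l350 (T t3307 N)))))))) (K a112 (M a84 (F (T t8922 (L l110 (L l350 (T t3307 (L l110 (T t8882 N)))))))) (K a176 (Fr a192 a128 l304 (Fr a96 a112 l116 (Fr a240 a160 l448 (Fr a144 a48 l484 (V t9514))))) (K a240 (M a84 (F (T t8912 (L l350 (T t3307 (L l458 (L l478 (T t8924 N)))))))) N))))))))))))))))⟩
def e0_64__85_21 : Ent 4 := ⟨[a0, a64], [a85, a67], (M a80 (F (L l121 (T t8884 (L l368 (T t9109 (L l121 (L l368 (T t8881 (K a128 (M a84 (F (T t9110 (L l192 (L l458 (T t8913 (L l192 (T t8914 N)))))))) (K a192 (M a84 (F (T t8915 (L l85 (L l126 (L l484 (T t8911 (L l484 (L l514 (T t8914 N)))))))))) (K a16 (M a84 (L l368 (F (T t8991 (L l85 (L l126 (T t8911 (L l14 (L l145 (L l350 (T t3307 (K a154 (M a223 (F (T t8991 (L l85 (T t8912 (L l145 (T t8970 N))))))) (K a223 (M a154 (F (T t8991 (L l85 (T t8912 (L l145 (T t8970 N))))))) N))))))))))))) (K a144 (M a84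 (F (L l192 (T t8991 (L l85 (L l126 (L l484 (T t8911 (L l145 (L l166 (L l192 (L l350 (T t3307 N))))))))))))) (K a96 (M a84 (F (L l376 (T t8922 (L l145 (L l350 (T t3307 (L l145 (L l376 (T t8882 N)))))))))) (K a160 (M a84 (F (L l376 (T t9110 (L l145 (L l192 (L l350 (T t3307 (L l121 (L l176 (L l192 (L l368 (T t8920 N))))))))))))) (K a224 (M a84 (F (L l376 (T t8922 (L l145 (L l350 (T t3307 (L l85 (L l126 (L l376 (T t8911 N))))))))))) (K a48 (M a84 (F (T t8915 (L l85 (L l126 (L l484 (T t8911 (L l145 (L l350 (T t3307 N)))))))))) (K a112 (M a82 (F (L l473 (T t9111 (L l119 (L l365 (T t9112 (L l106 (T t9113 (L l119 (L l307 (T t9114 N)))))))))))) (K a176 (Fr a192 a128 l304 (Fr a96 a112 l116 (Fr a240 a160 l448 (Fr a144 a48 l484 (V t9514))))) (K a240 (M a84 (F (L l126 (T t9106 (L l145 (L l350 (T t3307 (L l85 (L l458 (L l478 (T t8924 N))))))))))) N))))))))))))))))))))⟩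
def e0_64__85_22 : Ent 4 := ⟨[a0, a64], [a85, a69], (M a80 (L l123 (F (T t8884 (L l368 (T t8881 (K a128 (M a88 (L l123 (F (T t8953 (L l192 (L l216 (T t8954 (L l156 (L l192 (T t8955 (K a101 (M a117 (F (L l104 (T t9115 (L l192 (T t8957 (L l97 (L l104 (L l156 (L l192 (T t8955 N))))))))))) (K a117 (M a101 (F (L l192 (T t8957 (L l81 (T t9116 N)))))) N)))))))))))) (K a192 (M a88 (L l123 (F (T t8954 (L l77 (L l126 (L l484 (T t9117 (L l334 (L l484 (T t8955 (K a101 (M a117 (F (T t8954 (L l97 (L l104 (L l484 (T t8956 (L l97 (L l104 (L l334 (L l484 (T t8955 N)))))))))))) (K a117 (M a101 (F (T t8954 (L l81 (L l484 (T t9116 N)))))) N))))))))))))) (K a16 (M a124 (L l123 (L l368 (F (T t9118 (L l314 (L l458 (T t9119 (L l87 (L l364 (T t9120 (T t9121 (T t9122 (K a101 (M a117 (L l368 (F (T t9123 (L l104 (L l126 (T t9124 (K a154 (M a223 (L l512 (F (T t9123 (L l104 (L l126 (T t9124 (K a48 (M a207 (F (T t9125 (L l104 (L l126 (L l147 (L l416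 (L l484 (T t9126 N))))))))) (K a207 (M a48 (F (T t9127 (L l314 (L l326 (L l458 (T t9119 N))))))) N))))))))) (K a223 (M a154 (F (T t9123 (L l104 (L l126 (T t9124 N)))))) N))))))))) (K a117 (M a101 (L l368 (F (T t9123 (L l77 (T t9128 (K a154 (M a223 (F (T t9123 (L l77 (T t9128 N))))) (K a223 (M a154 (F (T t9118 (L l246 (L l440 (T t9129 N)))))) N)))))))) (K a154 (M a223 (L l123 (F (T t9118 (L l314 (L l458 (T t9119 (L l87 (L l364 (T t9120 (T t9121 (L l209 (L l227 (T t9122 (K a101 (M a117 (L l512 (F (T t9123 (L l104 (L l126 (T t9124 (K a48 (M a207 (F (T t9125 (L l104 (L l126 (L l147 (L l416 (L l484 (T t9126 N))))))))) (K a207 (M a48 (F (T t9127 (L l314 (L l326 (L l458 (T t9119 N))))))) N))))))))) (K a117 (M a101 (F (T t9123 (L l77 (T t9128 N))))) N)))))))))))))))) (K a223 (M a154 (L l123 (F (T t9118 (L l289 (L l347 (T t9130 (L l314 (L l458 (T t9119 (K a101 (M a117 (F (T t9123 (L l104 (L l126 (T t9124 N)))))) (K a117 (M a101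 (F (T t9118 (L l246 (L l440 (T t9129 N)))))) N)))))))))))) N))))))))))))))))) (K a144 (M a88 (L l123 (F (L l484 (T t8953 (L l192 (T t8954 (L l192 (L l484 (T t8955 (K a101 (M a117 (F (L l192 (T t9131 (L l97 (L l104 (L l484 (T t8956 (L l97 (L l104 (L l192 (L l484 (T t8955 N))))))))))))) (K a117 (M a101 (F (L l192 (T t9131 (L l81 (L l484 (T t9116 N))))))) N)))))))))))) (K a96 (M a12 (L l123 (F (T t1488 (L l376 (T t2526 (L l376 (T t9132 (K a101 (M a117 (L l104 (F (T t1488 (L l376 (T t2526 (L l376 (T t9132 (K a106 (M a111 (F (T t1488 (L l376 (T t2526 (L l376 (T t9132 N))))))) (K a111 (M a106 (F (L l376 (T t2526 (L l505 (T t9133 N)))))) N)))))))))) (K a117 (M a101 (F (T t1488 (L l376 (T t2526 (L l376 (T t9132 N))))))) N)))))))))) (K a160 (M a104 (L l123 (F (L l376 (T t9134 (L l176 (L l192 (T t9049 (L l192 (T t9135 (K a101 (M a117 (F (L l192 (T t9052 (L l97 (L l104 (L l376 (T t9134 (L l151 (L l192 (L l494 (T t9135 N))))))))))))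 (K a117 (M a101 (F (L l192 (T t9052 (L l114 (T t9136 N)))))) N)))))))))))) (K a224 (M a104 (L l123 (F (T t9054 (L l376 (T t9134 (T t9137 (K a101 (M a117 (F (T t9052 (L l97 (L l104 (L l376 (T t9134 (L l151 (L l494 (T t9137 N)))))))))) (K a117 (M a101 (F (T t9052 (L l114 (L l381 (T t9136 N)))))) N))))))))) (K a48 (M a124 (L l123 (F (L l484 (T t9118 (L l70 (L l314 (L l458 (T t9119 (L l87 (L l436 (L l484 (T t9120 (L l436 (L l484 (T t9121 (L l436 (L l484 (T t9138 (K a101 (M a117 (L l512 (F (T t9125 (L l104 (L l126 (L l484 (T t9124 (K a154 (M a207 (L l368 (F (T t9125 (L l104 (L l126 (L l484 (T t9124 (K a16 (M a223 (F (T t9125 (L l104 (L l126 (L l147 (L l416 (L l484 (T t9126 N))))))))) (K a223 (M a16 (F (T t9139 (L l104 (L l484 (T t9118 (L l70 (L l314 (L l458 (T t9119 N)))))))))) N)))))))))) (K a207 (M a154 (F (T t9125 (L l104 (L l126 (L l484 (T t9124 N))))))) N)))))))))) (K a117 (M a101 (L l440 (F (T t9125 (L l77 (L l484 (T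 t9128 (K a186 (M a255 (F (T t9125 (L l77 (L l484 (T t9140 N)))))) (K a255 (M a186 (F (T t9125 (L l77 (L l484 (T t9128 N)))))) N))))))))) N))))))))))))))))))))) (K a112 (M a252 (L l123 (F (T t8918 (L l110 (T t7648 (T t8974 (K a101 (M a117 (L l151 (F (T t8918 (L l110 (T t7648 (T t8974 (K a90 (M a79 (F (T t8918 (L l110 (T t7648 (L l465 (T t8919 N))))))) (K a79 (M a90 (F (L l350 (T t7558 (L l325 (T t9141 N)))))) N))))))))) (K a117 (M a101 (L l114 (F (T t8918 (L l110 (T t7648 (T t8974 (K a122 (M a127 (F (T t8918 (L l110 (T t7648 (L l429 (T t8974 N))))))) (K a127 (M a122 (F (L l350 (T t7558 (L l433 (T t9142 N)))))) N))))))))) N))))))))) (K a176 (Fr a192 a128 l304 (Fr a96 a112 l116 (Fr a240 a160 l448 (Fr a144 a48 l484 (V t9514))))) (K a240 (M a104 (L l123 (F (T t9134 (T t9049 (L l412 (T t9137 (K a101 (M a117 (F (T t9049 (L l97 (L l104 (T t9134 (L l151 (L l412 (L l494 (T t9137 N)))))))))) (K a117 (M a101 (F (T t9049 (L l114 (L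 l412 (T t9136 N)))))) N))))))))) (K a101 (M a117 (F (L l151 (L l512 (T t8884 (L l104 (L l491 (T t9143 (L l104 (L l347 (L l491 (T t9144 (K a96 (M a12 (L l104 (F (T t1488 (L l376 (T t2526 (L l376 (T t9132 (K a106 (M a111 (F (T t1488 (L l376 (T t2526 (L l376 (T t9132 N))))))) (K a111 (M a106 (F (L l376 (T t2526 (L l505 (T t9133 N)))))) N)))))))))) (K a160 (M a84 (F (L l192 (T t8970 (L l97 (L l104 (L l376 (T t8910 (L l151 (L l176 (L l192 (L l368 (L l512 (T t9145 N)))))))))))))) (K a224 (M a84 (F (T t8970 (L l376 (T t8922 (L l97 (L l104 (L l376 (T t8910 N))))))))) (K a112 (M a252 (L l151 (F (T t8918 (L l110 (T t7648 (T t8974 (K a90 (M a79 (F (T t8918 (L l110 (T t7648 (L l465 (T t8919 N))))))) (K a79 (M a90 (F (L l350 (T t7558 (L l325 (T t9141 N)))))) N))))))))) (K a176 (Fr a192 a128 l304 (Fr a96 a112 l116 (Fr a48 a144 l484 (Fr a160 a240 l448 (V t7927))))) (K a240 (M a84 (F (T t8990 (L l97 (L l104 (T t8910 (L l314 (L l458 (L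 l478 (T t8924 N)))))))))) N)))))))))))))))))) (K a117 (M a101 (F (L l114 (T t9061 (T t9147 (L l114 (L l419 (T t9148 (L l114 (L l455 (T t9149 (K a96 (M a84 (F (T t8861 (L l314 (L l376 (L l458 (T t8913 (L l376 (T t8882 N))))))))) (K a112 (M a252 (L l114 (F (T t8918 (L l110 (T t7648 (T t8974 (K a122 (M a127 (F (T t8918 (L l110 (T t7648 (L l429 (T t8974 N))))))) (K a127 (M a122 (F (L l350 (T t7558 (L l433 (T t9142 N)))))) N))))))))) N))))))))))))) N)))))))))))))))))))⟩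
def e0_64__85_23 : Ent 4 := ⟨[a0, a64], [a85, a70], (M a80 (F (T t8884 (L l368 (T t8881 (K a128 (M a84 (F (T t8910 (L l192 (L l458 (T t8913 (L l192 (T t8914 N)))))))) (K a192 (M a84 (F (T t8915 (L l77 (L l85 (L l126 (L l484 (T t8911 (L l484 (L l514 (T t8914 N))))))))))) (K a16 (M a252 (L l368 (F (T t8916 (T t8917 (K a154 (M a223 (F (T t8918 (T t7648 (L l315 (T t8919 N)))))) (K a223 (M a154 (F (T t8916 (L l246 (T t8917 N))))) N))))))) (K a144 (M a84 (F (L l484 (T t8910 (L l192 (L l458 (T t8913 (L l166 (L l192 (L l350 (T t3307 N))))))))))) (K a96 (M a84 (F (T t8861 (L l376 (L l458 (T t8913 (L l376 (T t8882 N)))))))) (K a160 (M a84 (F (L l376 (T t8910 (L l192 (L l350 (T t3307 (L l176 (L l192 (L l368 (T t8920 N))))))))))) (K a224 (M a84 (F (T t8970 (L l77 (L l85 (L l126 (L l376 (T t8911 (L l376 (L l458 (T t8921 N))))))))))) (K a48 (M a84 (F (T t8990 (L l458 (T t8913 (L l77 (L l85 (L l126 (L l484 (T t8911 N)))))))))) (K a112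 (M a84 (F (T t8922 (L l110 (L l350 (T t3307 (L l110 (T t8882 N)))))))) (K a176 (Fr a192 a128 l304 (Fr a96 a112 l116 (Fr a240 a160 l448 (Fr a144 a48 l484 (V t9514))))) (K a240 (M a84 (F (T t8910 (L l350 (T t3307 (L l85 (L l458 (L l478 (T t8924 N))))))))) N))))))))))))))))⟩
def e0_64__85_24 : Ent 4 := ⟨[a0, a64], [a85, a71], (M a80 (F (T t8884 (L l368 (T t8881 (K a128 (M a84 (F (T t8912 (L l192 (L l458 (T t8913 (L l127 (L l192 (T t8914 N))))))))) (K a192 (M a84 (F (T t8915 (L l77 (L l126 (L l484 (T t8911 (L l127 (L l484 (L l514 (T t8914 N))))))))))) (K a16 (M a252 (L l368 (F (T t8916 (T t8917 (K a154 (M a223 (F (T t8918 (T t7648 (T t8919 N))))) (K a223 (M a154 (F (T t8916 (L l246 (T t8917 N))))) N))))))) (K a144 (M a84 (F (L l484 (T t8912 (L l192 (L l458 (T t8913 (L l166 (L l192 (L l350 (T t3307 N))))))))))) (K a96 (M a84 (F (T t8861 (L l376 (L l458 (T t8913 (L l376 (T t8882 N)))))))) (K a160 (M a84 (F (L l376 (T t8912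 (L l192 (L l350 (T t3307 (L l176 (L l192 (L l368 (T t8920 N))))))))))) (K a224 (M a84 (F (T t8861 (L l77 (L l126 (L l376 (T t8911 (L l376 (L l458 (T t8921 N)))))))))) (K a48 (M a84 (F (T t8990 (L l458 (T t8913 (L l77 (L l126 (L l484 (T t8911 N))))))))) (K a112 (M a84 (F (T t8922 (L l110 (L l350 (T t3307 (L l110 (T t8882 N)))))))) (K a176 (Fr a192 a128 l304 (Fr a96 a112 l116 (Fr a240 a160 l448 (Fr a144 a48 l484 (V t9514))))) (K a240 (M a84 (F (T t8912 (L l350 (T t3307 (L l458 (L l478 (T t8924 N)))))))) N))))))))))))))))⟩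
def e0_64__85_25 : Ent 4 := ⟨[a0, a64], [a85, a74], (M a80 (F (T t8884 (L l368 (T t8881 (K a128 (M a84 (F (T t8912 (L l192 (L l458 (T t8913 (L l192 (T t8914 N)))))))) (K a192 (M a88 (L l339 (F (T t8954 (L l126 (L l484 (T t9117 (L l78 (L l334 (L l484 (T t8955 (K a133 (M a15 (F (L l484 (T t8956 (L l199 (L l272 (L l455 (T t9150 N)))))))) (K a15 (M a133 (F (T t8954 (L l484 (T t8956 (L l78 (L l334 (L l484 (T t9151 N))))))))) N))))))))))))) (K a16 (M a252 (L l368 (F (T t8916 (T t8968 (K a154 (M a223 (F (T t8918 (T t7648 (T t9108 N))))) (K a223 (M a154 (F (T t8916 (L l246 (T t8968 N))))) N))))))) (K a144 (M a84 (F (L l484 (T t8912 (L l192 (L l458 (T t8913 (L l166 (L l192 (L l350 (T t3307 N))))))))))) (K a96 (M a84 (F (T t8861 (L l376 (L l458 (T t8913 (L l78 (L l376 (T t8882 N))))))))) (K a160 (M a84 (F (L l376 (T t8912 (L l192 (L l350 (T t3307 (L l176 (L l192 (L l368 (T t8920 N))))))))))) (K a224 (M a84 (F (T t8861 (L l126 (L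 l376 (T t8911 (L l376 (L l458 (T t8921 N))))))))) (K a48 (M a84 (F (T t8915 (L l126 (L l484 (T t8911 (L l350 (T t3307 N)))))))) (K a112 (M a84 (F (T t8922 (L l110 (L l350 (T t3307 (L l78 (L l110 (T t8882 N))))))))) (K a176 (Fr a192 a128 l304 (Fr a96 a112 l116 (Fr a240 a160 l448 (Fr a144 a48 l484 (V t9514))))) (K a240 (M a84 (F (T t8912 (L l350 (T t3307 (L l458 (L l478 (T t8924 N)))))))) N))))))))))))))))⟩
def e0_64__85_26 : Ent 4 := ⟨[a0, a64], [a85, a75], (M a80 (F (T t8884 (L l368 (T t8881 (K a128 (M a84 (F (T t8912 (L l192 (L l458 (T t8913 (L l192 (T t8914 N)))))))) (K a192 (M a84 (F (T t8915 (L l126 (L l484 (T t8911 (L l484 (L l514 (T t8914 N))))))))) (K a16 (M a252 (L l368 (F (L l126 (T t8960 (T t8917 (K a154 (M a223 (F (T t8918 (T t7648 (T t8919 N))))) (K a223 (M a154 (F (L l126 (T t8960 (L l246 (T t8917 N)))))) N)))))))) (K a144 (M a84 (F (L l484 (T t8912 (L l192 (L l458 (T t8913 (L l166 (L l192 (L l350 (T t3307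 N))))))))))) (K a96 (M a84 (F (T t8861 (L l376 (L l458 (T t8913 (L l78 (L l376 (T t8882 N))))))))) (K a160 (M a84 (F (L l376 (T t8912 (L l192 (L l350 (T t3307 (L l176 (L l192 (L l368 (T t8920 N))))))))))) (K a224 (M a84 (F (T t8861 (L l126 (L l376 (T t8911 (L l376 (L l458 (T t8921 N))))))))) (K a48 (M a84 (F (T t8990 (L l458 (T t8913 (L l126 (L l484 (T t8911 N)))))))) (K a112 (M a84 (F (T t8922 (L l110 (L l350 (T t3307 (L l78 (L l110 (T t8882 N))))))))) (K a176 (Fr a192 a128 l304 (Fr a96 a112 l116 (Fr a240 a160 l448 (Fr a144 a48 l484 (V t9514))))) (K a240 (M a84 (F (T t8912 (L l350 (T t3307 (L l458 (L l478 (T t8924 N)))))))) N))))))))))))))))⟩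
def e0_64__85_27 : Ent 4 := ⟨[a0, a64], [a85, a79], (M a68 (F (L l79 (T t8992 (L l458 (T t9152 (L l79 (L l458 (T t8993 (K a128 (M a84 (F (T t9153 (L l156 (L l368 (T t8994 (L l156 (T t8995 N)))))))) (K a192 (M a84 (F (T t8996 (L l94 (L l334 (T t8892 (L l334 (L l514 (T t8995 N))))))))) (K a4 (M a96 (L l458 (F (L l151 (T t9072 (L l94 (T t9002 (T t9015 (K a166 (M a247 (F (L l151 (T t9089 (L l94 (T t9018 (T t9015 N))))))) (K a247 (M a166 (F (L l151 (T t9089 (L l94 (T t9018 (T t9015 N))))))) N)))))))))) (K a132 (M a84 (F (L l156 (T t9154 (L l94 (L l334 (T t8892 (L l139 (L l156 (L l198 (L l350 (T t3307 N)))))))))))) (K a72 (M a48 (F (L l316 (T t1474 (L l151 (T t363 (L l139 (L l316 (T t9001 N))))))))) (K a136 (M a96 (F (L l151 (L l156 (T t8937 (L l94 (L l316 (T t9002 (L l79 (L l156 (L l204 (L l316 (L l458 (T t9003 N)))))))))))))) (K a200 (M a96 (F (L l151 (T t8937 (L l94 (L l316 (T t9002 (L l316 (L l496 (T t9015 N)))))))))) (K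 a12 (M a48 (F (L l466 (T t1474 (L l151 (L l478 (T t363 (L l139 (T t9001 N))))))))) (K a76 (M a252 (L l79 (F (T t8999 (L l134 (L l139 (T t7648 (T t9000 (K a77 (M a78 (F (L l350 (T t7558 (L l323 (T t9155 N)))))) (K a78 (M a77 (F (T t8999 (L l134 (L l139 (T t7648 (T t9000 N))))))) N)))))))))) (K a140 (Fr a192 a128 l304 (Fr a72 a76 l80 (Fr a204 a136 l328 (Fr a132 a12 l334 (V t9518))))) (K a204 (M a96 (F (L l151 (T t8937 (L l94 (T t9002 (L l79 (L l322 (L l458 (T t9008 N)))))))))) N))))))))))))))))))))⟩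
def e0_64__85_28 : Ent 4 := ⟨[a0, a64], [a85, a86], (M a84 (F (L l145 (T t8861 (L l350 (T t9156 (L l145 (L l350 (T t3307 (K a128 (M a80 (F (L l95 (T t8912 (L l192 (L l216 (L l458 (T t9157 (L l127 (L l192 (T t8914 N))))))))))) (K a192 (M a80 (F (L l458 (T t9157 (L l95 (L l126 (L l484 (T t8911 (L l127 (L l484 (L l514 (T t8914 N)))))))))))) (K a20 (M a96 (L l350 (F (T t8937 (L l94 (L l145 (T t9090 (L l145 (L l369 (T t9088 (K a150 (M a215 (L l348 (F (T t8937 (L l94 (L l145 (T t9090 (L l145 (L l369 (T t9088 (K a22 (M a214 (L l11 (F (L l351 (T t9158 (L l94 (L l145 (T t9090 (K a21 (M a23 (L l347 (F (T t9158 (L l94 (L l145 (T t9090 (K a149 (Fr a213 a212 l239 (V t8937)) (K a213 (M a149 (F (L l94 (L l145 (T t9090 (L l47 (T t9159 N))))))) N))))))))) (K a23 (M a21 (L l351 (F (L l94 (L l145 (T t9090 (L l473 (L l516 (T t9160 (K a212 (M a149 (F (T t9161 (L l94 (L l145 (T t9090 N)))))) (K a149 (Fr a212 a213 l239 (V t9162)) N)))))))))))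 N)))))))))) (K a214 (M a22 (F (T t8937 (L l94 (L l145 (T t9090 (L l145 (L l247 (L l369 (T t9088 N)))))))))) N)))))))))))) (K a215 (M a150 (F (T t8937 (L l94 (L l145 (T t9090 (L l145 (L l369 (T t9088 N))))))))) N)))))))))))) (K a148 (M a80 (F (L l216 (T t8884 (L l95 (L l126 (T t8911 (L l95 (L l198 (L l458 (T t8913 N))))))))))) (K a104 (M a32 (F (L l368 (T t7541 (L l127 (L l477 (T t9103 (L l350 (L l406 (L l477 (L l514 (T t9104 N)))))))))))) (K a168 (M a80 (F (L l216 (T t9061 (L l95 (L l126 (T t8911 (L l95 (L l145 (L l176 (T t8882 N))))))))))) (K a232 (M a80 (F (T t9061 (L l95 (L l126 (T t8911 (L l95 (L l458 (T t8913 N))))))))) (K a60 (M a80 (F (T t8909 (L l95 (L l126 (T t8911 (L l95 (L l458 (T t8913 N))))))))) (K a124 (M a48 (L l145 (F (L l126 (T t3280 (L l368 (T t1184 (L l126 (L l350 (T t9163 (K a105 (M a67 (L l141 (F (L l369 (T t3182 (L l92 (L l142 (T t9164 (K a65 (M a125 (F (L l110 (T t363 (L l126 (L l369 (T t3650 (L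 l126 (L l350 (T t9163 N)))))))))) (K a125 (Fr a65 a66 l76 (V t3182)) N)))))))))) (K a67 (M a105 (F (L l369 (T t3182 (L l368 (T t1184 (L l126 (L l134 (T t9165 N))))))))) N)))))))))))) (K a188 (Fr a192 a128 l304 (Fr a104 a124 l140 (Fr a60 a148 l514 (Fr a168 a252 l472 (V t9521))))) (K a252 (M a240 (L l477 (F (T t7735 (L l145 (L l430 (L l459 (T t9166 (L l95 (L l126 (L l145 (L l430 (L l466 (T t8867 (K a169 (M a3 (L l473 (F (L l92 (L l267 (L l474 (T t7326 (L l145 (L l430 (L l459 (T t9166 (K a1 (M a253 (F (L l92 (L l142 (T t9167 (L l95 (L l126 (L l145 (L l430 (L l466 (T t8867 N))))))))))) (K a253 (Fr a1 a2 l0 (V t9168)) N))))))))))))) (K a3 (M a169 (F (T t7735 (L l145 (L l430 (L l459 (T t9166 (L l95 (L l126 (L l145 (L l430 (L l466 (T t8867 N))))))))))))) N)))))))))))))))) N))))))))))))))))))))⟩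
def e0_64__85_29 : Ent 4 := ⟨[a0, a64], [a85, a87], (M a84 (F (T t8861 (L l350 (T t3307 (K a128 (M a80 (F (T t8912 (L l192 (L l458 (T t8913 (L l192 (T t8914 N)))))))) (K a192 (M a80 (F (T t8915 (L l126 (L l484 (T t8911 (L l484 (L l514 (T t8914 N))))))))) (K a20 (M a240 (L l350 (F (T t8887 (T t7768 (T t9166 (K a150 (M a215 (F (T t9169 (T t7768 (T t9166 N))))) (K a215 (M a150 (L l349 (F (T t9169 (T t7768 (T t9166 (K a23 (M a151 (L l11 (F (T t7768 (L l94 (T t9170 (T t9166 (K a21 (M a22 (L l347 (F (T t7768 (L l143 (L l239 (L l295 (T t9171 (K a149 (M a213 (L l351 (F (T t8887 (L l220 (L l245 (L l295 (L l367 (L l368 (L l475 (T t9172 (K a212 (Fr a86 a214 l348 (V t7768)) (K a86 (M a212 (F (T t9162 (L l95 (L l126 (L l145 (T t8867 N))))))) N))))))))))))) (K a213 (Fr a149 a148 l163 (V t7768)) N)))))))))) (K a22 (M a21 (F (T t7768 (L l66 (T t9173 N))))) N))))))))) (K a151 (M a23 (F (T t9169 (T t7768 (T t9166 N))))) N)))))))) N))))))))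 (K a148 (M a80 (F (T t8880 (L l198 (L l458 (T t8913 (L l166 (L l216 (L l368 (T t8881 N)))))))))) (K a104 (M a32 (F (T t9103 (L l368 (L l406 (T t9174 (L l350 (L l406 (L l514 (T t9104 N)))))))))) (K a168 (M a80 (F (T t8880 (L l216 (L l368 (T t8881 (L l176 (T t8882 N)))))))) (K a232 (M a80 (F (T t8910 (L l458 (T t8913 (L l368 (T t8881 N))))))) (K a60 (M a80 (F (T t8909 (L l126 (T t8911 (L l458 (T t8913 N))))))) (K a124 (M a160 (F (L l110 (T t9175 (L l94 (L l430 (T t9176 (L l430 (T t9177 N))))))))) (K a188 (Fr a192 a128 l304 (Fr a104 a124 l140 (Fr a252 a168 l472 (Fr a148 a60 l514 (V t9512))))) (K a252 (M a80 (F (T t8909 (L l126 (L l466 (T t8911 (L l430 (L l466 (T t8882 N))))))))) N))))))))))))))))⟩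
def e0_64__85_30 : Ent 4 := ⟨[a0, a64], [a85, a90], (M a80 (F (L l151 (T t8884 (L l368 (T t9109 (L l151 (L l368 (T t8881 (K a128 (M a84 (F (T t8912 (L l192 (L l458 (T t8913 (L l192 (T t8914 N)))))))) (K a192 (M a84 (F (L l484 (T t8910 (L l458 (T t8913 (L l484 (L l514 (T t8914 N))))))))) (K a16 (M a252 (L l368 (F (L l126 (T t8960 (L l375 (T t9178 (K a154 (M a223 (L l354 (F (T t8918 (T t7648 (L l465 (T t8919 (K a26 (M a218 (L l18 (F (T t7648 (L l500 (L l512 (T t9179 (K a21 (M a31 (L l347 (F (T t7648 (L l372 (L l500 (T t9045 (K a149 (Fr a213 a208 l246 (V t7648)) (K a213 (M a149 (F (T t7648 (L l275 (L l500 (T t9040 N)))))) N))))))))) (K a31 (M a21 (L l375 (F (T t7648 (L l500 (T t9040 (K a208 (M a149 (F (T t9161 (T t8918 N)))) (K a149 (Fr a208 a213 l246 (V t9033)) N)))))))) N))))))))) (K a218 (M a26 (F (L l126 (T t8960 (L l375 (T t9178 N)))))) N))))))))) (K a223 (M a154 (F (L l126 (T t8960 (L l246 (L l375 (T t9178 N)))))))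 N))))))))) (K a144 (M a84 (F (L l484 (T t8912 (L l192 (L l458 (T t8913 (L l166 (L l192 (L l350 (T t3307 N))))))))))) (K a96 (M a84 (F (T t8861 (L l376 (L l458 (T t8913 (L l376 (T t8882 N)))))))) (K a160 (M a84 (F (L l376 (T t8912 (L l192 (L l350 (T t3307 (L l151 (L l176 (L l192 (L l368 (T t8920 N)))))))))))) (K a224 (M a84 (F (T t8970 (L l126 (L l376 (T t8911 (L l376 (L l458 (T t8921 N))))))))) (K a48 (M a84 (F (T t8990 (L l458 (T t8913 (L l126 (L l484 (T t8911 N)))))))) (K a112 (M a12 (L l151 (F (T t2526 (L l458 (T t4021 (L l110 (T t9180 (K a101 (M a79 (L l123 (F (T t2526 (L l126 (L l130 (L l148 (T t9181 (K a69 (M a117 (F (T t2526 (L l314 (L l458 (T t4021 (L l110 (T t9180 N)))))))) (K a117 (Fr a69 a74 l84 (V t2526)) N)))))))))) (K a79 (M a101 (F (T t2526 (L l458 (T t4021 (L l110 (L l139 (T t9180 N)))))))) N)))))))))) (K a176 (Fr a192 a128 l304 (Fr a96 a112 l116 (Fr a48 a144 l484 (Fr a160 a240 l448 (V t7927))))) (K a240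 (M a72 (L l483 (F (T t8975 (L l126 (L l133 (L l442 (T t8976 (L l151 (L l368 (L l412 (T t8977 (K a165 (M a15 (L l455 (F (L l126 (T t8978 (L l199 (L l479 (T t8979 (K a5 (M a245 (F (L l126 (T t8978 (L l5 (L l199 (L l311 (L l479 (T t8979 N))))))))) (K a245 (Fr a5 a10 l8 (V t8975)) N)))))))))) (K a15 (M a165 (F (T t8975 (L l126 (T t8978 (L l151 (L l368 (L l412 (T t8977 N))))))))) N)))))))))))))) N))))))))))))))))))))⟩
def e0_64__85_31 : Ent 4 := ⟨[a0, a64], [a85, a91], (M a80 (F (T t8884 (L l368 (T t8881 (K a128 (M a84 (F (T t8912 (L l192 (L l458 (T t8913 (L l192 (T t8914 N)))))))) (K a192 (M a84 (F (T t8915 (L l126 (L l484 (T t8911 (L l484 (L l514 (T t8914 N))))))))) (K a16 (M a252 (L l368 (F (T t8916 (T t8917 (K a154 (M a223 (F (T t8918 (T t7648 (T t8919 N))))) (K a223 (M a154 (F (T t8916 (L l246 (T t8917 N))))) N))))))) (K a144 (M a84 (F (L l484 (T t8912 (L l192 (L l458 (T t8913 (L l166 (L l192 (L l350 (T t3307 N)))))))))))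 (K a96 (M a84 (F (T t8861 (L l376 (L l458 (T t8913 (L l376 (T t8882 N)))))))) (K a160 (M a84 (F (L l376 (T t8912 (L l192 (L l350 (T t3307 (L l176 (L l192 (L l368 (T t8920 N))))))))))) (K a224 (M a84 (F (T t8861 (L l126 (L l376 (T t8911 (L l376 (L l458 (T t8921 N))))))))) (K a48 (M a84 (F (T t8915 (L l126 (L l484 (T t8911 (L l350 (T t3307 N)))))))) (K a112 (M a84 (F (T t8922 (L l110 (L l350 (T t3307 (L l110 (T t8882 N)))))))) (K a176 (Fr a192 a128 l304 (Fr a96 a112 l116 (Fr a240 a160 l448 (Fr a144 a48 l484 (V t9514))))) (K a240 (M a84 (F (T t8912 (L l350 (T t3307 (L l88 (L l458 (L l478 (T t8924 N))))))))) N))))))))))))))))⟩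
def e0_64__85_32 : Ent 4 := ⟨[a0, a64], [a85, a95], (M a80 (F (T t8884 (L l368 (T t8881 (K a128 (M a84 (F (L l89 (T t8912 (L l192 (L l216 (L l458 (T t9157 (L l192 (T t8914 N)))))))))) (K a192 (M a84 (F (L l458 (T t9157 (L l89 (L l126 (L l484 (T t8911 (L l484 (L l514 (T t8914 N))))))))))) (K a16 (M a88 (L l368 (F (L l89 (T t8953 (L l458 (T t9182 (T t8955 (K a154 (M a223 (F (L l89 (T t9131 (L l126 (T t9183 (T t9151 N))))))) (K a223 (M a154 (L l361 (F (L l89 (T t9131 (L l126 (T t9183 (T t9151 (K a31 (M a159 (L l18 (F (L l89 (T t9131 (L l137 (T t9184 (L l89 (T t8956 (K a21 (M a26 (L l347 (F (L l89 (T t9131 (L l15 (L l93 (L l245 (L l246 (L l373 (T t9185 (K a149 (M a213 (L l375 (F (L l89 (T t8956 (L l15 (L l93 (L l245 (L l373 (T t9185 (K a208 (Fr a90 a218 l354 (V t9186)) (K a90 (M a208 (F (T t9034 (L l89 (T t8956 N))))) N)))))))))))) (K a213 (Fr a149 a144 l170 (V t9187)) N))))))))))))) (K a26 (M a21 (F (L l89 (T t9131 (L l54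 (L l123 (L l137 (T t9188 N)))))))) N))))))))))) (K a159 (M a31 (F (L l89 (T t9131 (L l126 (T t9183 (T t9151 N))))))) N)))))))))) N)))))))))) (K a144 (M a84 (F (L l192 (T t8861 (L l89 (L l126 (T t9189 (L l89 (L l192 (L l458 (T t8913 N))))))))))) (K a96 (M a84 (F (T t8861 (L l89 (L l376 (L l458 (T t8913 (L l89 (L l376 (T t8882 N)))))))))) (K a160 (M a84 (F (L l192 (T t8970 (L l89 (L l126 (L l376 (T t8911 (L l89 (L l176 (L l192 (L l368 (T t8920 N))))))))))))) (K a224 (M a84 (F (T t8970 (L l89 (L l126 (L l376 (T t8911 (L l89 (L l376 (L l458 (T t8921 N))))))))))) (K a48 (M a84 (F (T t8990 (L l89 (L l458 (T t8913 (L l89 (L l126 (L l484 (T t8911 N)))))))))) (K a112 (M a84 (F (L l89 (T t8922 (L l110 (L l350 (T t3307 (L l89 (L l110 (T t8882 N)))))))))) (K a176 (Fr a192 a128 l304 (Fr a96 a112 l116 (Fr a240 a160 l448 (Fr a144 a48 l484 (V t9514))))) (K a240 (M a84 (F (T t8990 (L l89 (L l126 (T t8911 (L l412 (T t9190 N)))))))) N))))))))))))))))⟩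
def e0_64__85_33 : Ent 4 := ⟨[a0, a64], [a85, a106], (M a80 (F (T t8884 (L l368 (T t8881 (K a128 (M a84 (F (L l104 (T t8910 (L l192 (L l458 (T t8913 (L l98 (L l104 (L l192 (T t8914 N))))))))))) (K a192 (M a252 (L l519 (F (T t8959 (L l104 (L l126 (L l484 (T t8960 (L l104 (L l484 (T t8961 (K a149 (M a63 (L l347 (F (L l126 (T t8962 (L l199 (L l489 (L l501 (T t9191 (K a21 (M a213 (F (L l126 (T t8962 (L l199 (L l217 (L l489 (T t9024 N)))))))) (K a213 (Fr a21 a42 l68 (V t8918)) N))))))))))) (K a63 (M a149 (F (T t8959 (L l104 (L l126 (L l484 (T t8960 (L l104 (L l484 (T t8961 N)))))))))) N))))))))))))) (K a16 (M a252 (L l368 (F (L l126 (T t8962 (T t8968 (K a154 (M a223 (L l498 (F (T t8918 (T t7648 (L l393 (L l411 (T t9108 (K a202 (M a58 (F (T t8918 (T t7648 (L l393 (L l411 (T t9108 N))))))) (K a58 (M a202 (F (T t9192 (L l104 (L l126 (T t8960 N)))))) N)))))))))) (K a223 (M a154 (F (L l126 (T t8962 (L l246 (T t8968 N)))))) N))))))))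 (K a144 (M a84 (F (L l192 (T t8922 (L l104 (L l126 (L l484 (T t8911 (L l166 (L l192 (L l350 (T t3307 N)))))))))))) (K a96 (M a84 (L l104 (F (T t8861 (L l376 (L l458 (T t8913 (L l132 (L l376 (T t8882 (K a101 (M a111 (L l123 (F (T t8970 (L l376 (T t8991 (L l132 (L l376 (T t8882 (K a69 (M a117 (F (T t8970 (L l376 (T t8991 (L l132 (L l376 (T t8882 N)))))))) (K a117 (M a69 (F (L l376 (T t8922 (L l151 (L l455 (T t9193 N))))))) N))))))))))) (K a111 (M a101 (F (T t8861 (L l376 (L l458 (T t8913 (L l132 (L l376 (T t8882 N))))))))) N)))))))))))) (K a160 (M a84 (F (L l192 (T t8970 (L l104 (L l126 (L l376 (T t8911 (L l176 (L l192 (L l368 (T t8920 N)))))))))))) (K a224 (M a252 (L l411 (F (T t7648 (L l376 (T t8918 (L l252 (L l368 (L l376 (L l393 (T t9194 (K a165 (M a47 (L l455 (F (T t7648 (L l180 (L l376 (T t8918 (L l180 (L l252 (L l368 (L l376 (L l393 (T t8972 (K a5 (M a245 (F (T t7648 (L l180 (L l376 (L l459 (L l473 (T t8963 N))))))))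 (K a245 (M a5 (F (T t7648 (L l142 (L l223 (T t9195 N)))))) N))))))))))))))) (K a47 (M a165 (F (T t7648 (L l61 (L l376 (L l399 (T t8966 N))))))) N))))))))))))) (K a48 (M a84 (F (T t8915 (L l104 (L l126 (L l484 (T t8911 (L l350 (T t3307 N))))))))) (K a112 (M a84 (F (T t8922 (L l110 (L l350 (T t3307 (L l110 (L l132 (T t8882 N))))))))) (K a176 (Fr a192 a128 l304 (Fr a96 a112 l116 (Fr a240 a160 l448 (Fr a144 a48 l484 (V t9514))))) (K a240 (M a84 (F (L l104 (T t8910 (L l350 (T t3307 (L l458 (L l478 (T t8924 N))))))))) N))))))))))))))))⟩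
def e0_64__85_34 : Ent 4 := ⟨[a0, a64], [a85, a107], (M a80 (F (T t8884 (L l368 (T t8881 (K a128 (M a84 (F (T t8910 (L l192 (L l458 (T t8913 (L l98 (L l192 (T t8914 N))))))))) (K a192 (M a84 (F (T t8915 (L l126 (L l484 (T t8911 (L l98 (L l484 (L l514 (T t8914 N)))))))))) (K a16 (M a252 (L l368 (F (T t8916 (T t8917 (K a154 (M a223 (F (T t8918 (T t7648 (T t8919 N))))) (K a223 (M a154 (F (T t8916 (L l246 (T t8917 N))))) N))))))) (K a144 (M a84 (F (L l484 (T t8910 (L l192 (L l458 (T t8913 (L l166 (L l192 (L l350 (T t3307 N))))))))))) (K a96 (M a84 (F (T t8861 (L l376 (L l458 (T t8913 (L l376 (T t8882 N)))))))) (K a160 (M a84 (F (L l376 (T t8910 (L l192 (L l350 (T t3307 (L l176 (L l192 (L l368 (T t8920 N))))))))))) (K a224 (M a84 (F (T t8861 (L l126 (L l376 (T t8911 (L l376 (L l458 (T t8921 N))))))))) (K a48 (M a84 (F (T t8915 (L l126 (L l484 (T t8911 (L l350 (T t3307 N)))))))) (K a112 (M a84 (F (T t8922 (L l110 (L l350 (T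 t3307 (L l110 (T t8882 N)))))))) (K a176 (Fr a192 a128 l304 (Fr a96 a112 l116 (Fr a240 a160 l448 (Fr a144 a48 l484 (V t9514))))) (K a240 (M a84 (F (T t8910 (L l350 (T t3307 (L l458 (L l478 (T t8924 N)))))))) N))))))))))))))))⟩
def e0_64__85_35 : Ent 4 := ⟨[a0, a64], [a85, a111], (M a68 (F (T t8992 (L l458 (T t8993 (K a128 (M a84 (F (T t8899 (L l156 (L l368 (T t8994 (L l156 (T t8995 N)))))))) (K a192 (M a84 (F (T t8996 (L l94 (L l334 (T t8892 (L l334 (L l514 (T t8995 N))))))))) (K a4 (M a252 (L l458 (F (L l94 (T t9196 (T t8998 (K a166 (M a247 (F (T t8999 (T t7648 (T t9000 N))))) (K a247 (M a166 (F (L l94 (T t9196 (L l278 (T t8998 N)))))) N)))))))) (K a132 (M a84 (F (L l334 (T t8899 (L l156 (L l368 (T t8994 (L l156 (L l198 (L l350 (T t3307 N))))))))))) (K a72 (M a48 (F (T t363 (L l316 (T t1474 (L l99 (L l316 (T t9001 N)))))))) (K a136 (M a96 (F (L l156 (T t8937 (L l94 (L l316 (T t9002 (L l99 (L l156 (L l204 (L l316 (L l458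 (T t9003 N))))))))))))) (K a200 (M a96 (F (T t8937 (L l94 (L l316 (T t9002 (L l99 (L l316 (L l496 (T t9015 N)))))))))) (K a12 (M a48 (F (L l478 (T t363 (L l466 (T t1474 (L l99 (T t9001 N)))))))) (K a76 (M a48 (F (T t1474 (L l368 (T t1184 (L l134 (T t9006 N))))))) (K a140 (Fr a192 a128 l304 (Fr a72 a76 l80 (Fr a204 a136 l328 (Fr a132 a12 l334 (V t9518))))) (K a204 (M a96 (F (T t8937 (L l94 (T t9002 (L l322 (L l458 (T t9008 N)))))))) N))))))))))))))))⟩
def e0_64__85_36 : Ent 4 := ⟨[a0, a64], [a85, a127], (M a84 (F (L l109 (T t8861 (L l350 (T t9156 (L l109 (L l350 (T t3307 (K a128 (M a80 (F (T t9110 (L l192 (L l458 (T t8913 (L l192 (T t8914 N)))))))) (K a192 (M a80 (F (T t8915 (L l126 (L l138 (L l484 (T t8911 (L l484 (L l514 (T t8914 N)))))))))) (K a20 (M a80 (L l350 (F (T t8991 (L l126 (L l138 (T t8911 (L l14 (L l114 (L l368 (T t8881 (K a150 (M a215 (F (T t8991 (L l138 (T t8912 (L l14 (L l114 (L l368 (T t8881 N)))))))))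 (K a215 (M a150 (F (T t8991 (L l138 (T t8912 (L l14 (L l114 (L l368 (T t8881 N))))))))) N))))))))))))) (K a148 (M a80 (F (T t9197 (L l126 (L l138 (T t8911 (L l114 (L l166 (L l216 (L l368 (T t8881 N))))))))))) (K a104 (M a32 (F (T t9103 (L l368 (L l406 (T t9174 (L l350 (L l406 (L l514 (T t9104 N)))))))))) (K a168 (M a80 (F (L l109 (T t8880 (L l114 (L l216 (L l368 (T t8881 (L l109 (L l176 (T t8882 N))))))))))) (K a232 (M a80 (F (L l126 (T t9106 (L l458 (T t8913 (L l114 (L l368 (T t8881 N))))))))) (K a60 (M a80 (F (T t8915 (L l126 (L l138 (T t8911 (L l114 (L l368 (T t8881 N))))))))) (K a124 (M a240 (L l109 (F (L l134 (T t8887 (L l110 (L l114 (T t7768 (T t8888 (K a125 (M a126 (L l141 (F (L l368 (T t7789 (L l431 (T t9096 (K a65 (M a105 (F (L l368 (T t7789 (L l431 (T t9096 N)))))) (K a105 (M a65 (L l145 (F (L l134 (T t8887 (L l473 (T t9198 (K a86 (Fr a67 a66 l76 (V t7768)) (K a67 (M a86 (L l143 (F (L l368 (T t7789 (L l431 (T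 t9096 (K a87 (M a107 (F (L l368 (T t7789 (L l307 (L l407 (L l455 (L l475 (T t9095 N))))))))) (K a107 (M a87 (L l98 (F (L l368 (T t7789 (L l307 (L l407 (L l455 (T t9095 (K a104 (Fr a106 a66 l142 (V t7768)) (K a106 (M a104 (F (L l430 (T t9199 (L l110 (L l114 (L l121 (T t7768 (L l458 (T t9094 N)))))))))) N))))))))))) N))))))))) N))))))))) N))))))))) (K a126 (M a125 (F (L l458 (T t9094 (L l110 (L l114 (T t7768 (T t8888 N)))))))) N))))))))))) (K a188 (Fr a192 a128 l304 (Fr a104 a124 l140 (Fr a252 a168 l472 (Fr a148 a60 l514 (V t9512))))) (K a252 (M a80 (F (L l114 (T t8909 (L l126 (L l138 (L l466 (T t8911 (L l109 (L l430 (L l466 (T t8882 N)))))))))))) N))))))))))))))))))))⟩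
def e0_64__85_37 : Ent 4 := ⟨[a0, a64], [a85, a129], (M a81 (F (L l152 (T t8926 (L l365 (T t9200 (L l152 (L l193 (L l365 (T t8925 (K a128 (M a130 (F (T t9201 (L l94 (L l309 (T t9202 (L l309 (T t9203 (T t9204 N))))))))) (K a192 (M a66 (F (L l484 (T t9205 (L l152 (L l368 (T t8931 (L l94 (L l268 (T t9206 (L l228 (T t9207 N)))))))))))) (K a17 (M a80 (L l365 (F (T t8936 (L l10 (L l152 (L l368 (T t8881 (L l41 (L l193 (L l305 (L l473 (T t9208 (K a153 (M a221 (F (T t8936 (L l10 (L l152 (L l368 (T t8881 (L l41 (L l305 (L l309 (L l473 (T t9209 N)))))))))))) (K a221 (M a153 (F (T t8936 (L l10 (L l152 (L l368 (T t8881 (L l41 (L l305 (L l309 (L l473 (T t9209 N)))))))))))) N))))))))))))))) (K a145 (M a161 (F (T t9210 (L l152 (L l196 (L l345 (T t9211 (L l94 (L l152 (L l196 (L l345 (T t9212 (L l94 (L l152 (L l196 (T t9213 (L l345 (L l365 (T t9214 (L l141 (L l305 (T t9215 N)))))))))))))))))))))) (K a98 (M a48 (F (L l152 (T t363 (L l141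 (L l305 (T t9216 (L l96 (L l141 (L l152 (L l305 (L l378 (T t9217 N))))))))))))) (K a162 (M a80 (F (T t8942 (L l152 (L l196 (L l368 (T t8881 (L l172 (L l193 (L l309 (T t8935 N))))))))))) (K a226 (M a80 (F (T t8936 (L l152 (L l368 (T t8881 (L l193 (L l305 (L l473 (T t9208 N)))))))))) (K a51 (M a80 (F (T t9218 (L l489 (T t9219 (L l152 (L l368 (T t8881 N)))))))) (K a115 (M a160 (F (L l415 (T t9220 (L l106 (L l152 (T t9175 (L l152 (L l193 (L l309 (L l415 (T t9221 N)))))))))))) (K a179 (Fr a192 a128 l304 (Fr a98 a115 l120 (Fr a243 a162 l452 (Fr a145 a51 l489 (V t9516))))) (K a243 (M a80 (F (L l451 (T t9219 (L l152 (L l368 (T t8881 (L l193 (L l309 (L l415 (L l451 (T t8935 N)))))))))))) N)))))))))))))))))))))⟩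
def e0_64__85_38 : Ent 4 := ⟨[a0, a64], [a85, a130], (M a80 (F (L l152 (T t8884 (L l368 (T t9063 (L l152 (L l368 (T t8881 (K a128 (M a84 (L l152 (F (T t8912 (L l192 (L l458 (T t8913 (L l192 (T t8914 (K a129 (M a131 (F (T t8912 (L l192 (T t8991 (T t9222 N)))))) (K a131 (M a129 (F (T t8910 (L l192 (T t8991 (T t9222 N)))))) N))))))))))) (K a192 (M a84 (F (T t8915 (L l126 (L l484 (T t8911 (L l484 (L l514 (T t8914 N))))))))) (K a16 (M a252 (L l368 (F (T t8916 (L l152 (T t8917 (K a154 (M a223 (F (T t8918 (L l152 (T t7648 (L l152 (T t8919 N))))))) (K a223 (M a154 (F (T t8916 (L l152 (L l246 (T t8917 N)))))) N)))))))) (K a144 (M a84 (F (L l484 (T t8912 (L l192 (L l458 (T t8913 (L l152 (L l166 (L l192 (L l350 (T t3307 N)))))))))))) (K a96 (M a84 (F (L l376 (T t8922 (L l152 (L l350 (T t3307 (L l376 (T t8882 N))))))))) (K a160 (M a84 (F (L l376 (T t8912 (L l152 (L l192 (L l350 (T t3307 (L l152 (L l176 (L l192 (L l368 (T t8920 N)))))))))))))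 (K a224 (M a84 (F (L l376 (T t8910 (L l152 (L l350 (T t3307 (L l376 (L l458 (T t8921 N)))))))))) (K a48 (M a84 (F (T t8915 (L l126 (L l484 (T t8911 (L l152 (L l350 (T t3307 N))))))))) (K a112 (M a84 (F (T t8922 (L l110 (L l152 (L l350 (T t3307 (L l110 (T t8882 N))))))))) (K a176 (Fr a192 a128 l304 (Fr a96 a112 l116 (Fr a240 a160 l448 (Fr a144 a48 l484 (V t9514))))) (K a240 (M a84 (F (T t8912 (L l152 (L l350 (T t3307 (L l152 (L l458 (L l478 (T t8924 N)))))))))) N))))))))))))))))))))⟩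
def e0_64__85_39 : Ent 4 := ⟨[a0, a64], [a85, a131], (M a81 (F (L l152 (T t9223 (L l365 (T t9200 (L l152 (L l365 (T t9224 (K a128 (M a130 (F (T t9201 (L l94 (L l307 (T t9202 (T t9203 (K a113 (Fr a195 a65 l308 (Fr a162 a243 l452 (Fr a146 a178 l194 (Fr a48 a97 l488 (V t9522))))) N)))))))) (K a192 (M a80 (F (T t9218 (L l141 (L l484 (T t8934 (L l484 (L l489 (T t9226 N))))))))) (K a17 (M a80 (L l365 (F (T t8936 (L l41 (L l197 (L l473 (T t9208 (L l10 (L l152 (L l368 (T t8881 (K a153 (M a221 (F (T t8936 (L l10 (L l152 (L l368 (T t8881 (L l41 (L l307 (L l473 (T t9209 N))))))))))) (K a221 (M a153 (F (T t8936 (L l10 (L l152 (L l368 (T t8881 (L l41 (L l307 (L l473 (T t9209 N))))))))))) N)))))))))))))) (K a145 (M a80 (F (T t9227 (L l141 (L l485 (T t8934 (L l152 (L l162 (L l196 (L l368 (T t8881 N))))))))))) (K a98 (M a48 (F (L l152 (T t363 (L l141 (L l307 (T t9216 (L l96 (L l141 (L l152 (L l195 (L l307 (L l378 (T t9228 N))))))))))))))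 (K a162 (M a80 (F (T t8942 (L l152 (L l196 (L l368 (T t8881 (L l172 (T t8935 N))))))))) (K a226 (M a80 (F (T t8936 (L l197 (L l473 (T t9208 (L l152 (L l368 (T t8881 N))))))))) (K a51 (M a80 (F (T t9218 (L l141 (T t8934 (L l152 (L l368 (T t8881 N)))))))) (K a115 (M a48 (F (L l307 (T t9229 (L l152 (L l368 (T t1184 (L l141 (L l152 (L l365 (T t8945 N))))))))))) (K a179 (Fr a192 a128 l304 (Fr a98 a115 l120 (Fr a243 a162 l452 (Fr a145 a51 l489 (V t9516))))) (K a243 (M a80 (F (L l307 (L l451 (T t9219 (L l152 (L l368 (T t8881 (L l415 (L l451 (T t8935 N))))))))))) N))))))))))))))))))))⟩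
def e0_64__85_40 : Ent 4 := ⟨[a0, a64], [a85, a133], (M a80 (F (L l160 (T t8884 (L l368 (T t9063 (L l160 (L l368 (T t8881 (K a128 (M a84 (L l160 (F (T t8912 (L l192 (L l458 (T t8913 (L l192 (T t8914 (K a138 (M a143 (F (T t8912 (L l192 (T t8991 (T t9222 N)))))) (K a143 (M a138 (F (T t8910 (L l192 (T t8991 (T t9222 N)))))) N))))))))))) (K a192 (M a88 (L l339 (F (T t8954 (L l126 (L l484 (T t9117 (L l334 (L l484 (T t8955 (K a74 (M a15 (F (L l484 (T t8956 (L l199 (L l272 (L l455 (T t9150 N)))))))) (K a15 (M a74 (F (T t8954 (L l484 (T t8956 (L l334 (L l484 (T t8955 N)))))))) N)))))))))))) (K a16 (M a252 (L l368 (F (T t8916 (L l160 (T t8968 (K a154 (M a223 (F (T t8918 (L l160 (T t7648 (L l160 (L l315 (T t9108 N)))))))) (K a223 (M a154 (F (T t8916 (L l160 (L l246 (T t8968 N)))))) N)))))))) (K a144 (M a84 (F (L l484 (T t8912 (L l192 (L l458 (T t8913 (L l160 (L l166 (L l192 (L l350 (T t3307 N)))))))))))) (K a96 (M a84 (F (L l376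 (T t8922 (L l160 (L l350 (T t3307 (L l376 (T t8882 N))))))))) (K a160 (M a84 (F (L l376 (T t8912 (L l160 (L l192 (L l350 (T t3307 (L l160 (L l176 (L l192 (L l368 (T t8920 N))))))))))))) (K a224 (M a84 (F (L l376 (T t8910 (L l160 (L l350 (T t3307 (L l376 (L l458 (T t8921 N)))))))))) (K a48 (M a84 (F (T t8915 (L l126 (L l484 (T t8911 (L l160 (L l350 (T t3307 N))))))))) (K a112 (M a84 (F (T t8922 (L l110 (L l160 (L l350 (T t3307 (L l110 (T t8882 N))))))))) (K a176 (Fr a192 a128 l304 (Fr a96 a112 l116 (Fr a240 a160 l448 (Fr a144 a48 l484 (V t9514))))) (K a240 (M a84 (F (T t8912 (L l160 (L l350 (T t3307 (L l153 (L l160 (L l458 (L l478 (T t8924 N))))))))))) N))))))))))))))))))))⟩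
def e0_64__85_41 : Ent 4 := ⟨[a0, a64], [a85, a134], (M a80 (F (T t8884 (L l368 (T t8881 (K a128 (M a84 (F (T t8912 (L l192 (L l314 (L l458 (T t8913 (L l192 (T t8914 N))))))))) (K a192 (M a84 (F (T t8915 (L l126 (L l484 (T t8911 (L l484 (L l514 (T t8914 N))))))))) (K a16 (M a252 (L l368 (F (T t8916 (T t8917 (K a154 (M a223 (F (T t7648 (L l338 (T t8918 (T t8919 N)))))) (K a223 (M a154 (F (T t8916 (L l246 (T t8917 N))))) N))))))) (K a144 (M a84 (F (L l484 (T t8912 (L l192 (L l314 (L l458 (T t8913 (L l166 (L l192 (L l350 (T t3307 N)))))))))))) (K a96 (M a84 (F (T t8861 (L l314 (L l376 (L l458 (T t8913 (L l376 (T t8882 N))))))))) (K a160 (M a84 (F (L l376 (T t8912 (L l192 (L l350 (T t3307 (L l176 (L l192 (L l368 (T t8920 N))))))))))) (K a224 (M a84 (F (T t8861 (L l126 (L l376 (T t8911 (L l314 (L l338 (L l376 (L l458 (T t8921 N))))))))))) (K a48 (M a84 (F (T t8990 (L l314 (L l458 (T t8913 (L l126 (L l484 (T t8911 N)))))))))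 (K a112 (M a84 (F (T t8991 (L l110 (L l350 (T t3307 (L l110 (T t8882 N)))))))) (K a176 (Fr a192 a128 l304 (Fr a96 a112 l116 (Fr a240 a160 l448 (Fr a144 a48 l484 (V t9514))))) (K a240 (M a84 (F (T t8912 (L l350 (T t3307 (L l153 (L l314 (L l458 (L l478 (T t8924 N)))))))))) N))))))))))))))))⟩
def e0_64__85_42 : Ent 4 := ⟨[a0, a64], [a85, a135], (M a80 (F (T t8884 (L l368 (T t8881 (K a128 (M a84 (F (T t8912 (L l192 (L l458 (T t8913 (L l192 (L l203 (T t8914 N))))))))) (K a192 (M a84 (F (T t8915 (L l126 (L l484 (T t8911 (L l203 (L l484 (L l514 (T t8914 N)))))))))) (K a16 (M a252 (L l368 (F (T t8916 (T t8917 (K a154 (M a223 (F (T t8918 (T t7648 (T t8919 N))))) (K a223 (M a154 (F (T t8916 (L l246 (T t8917 N))))) N))))))) (K a144 (M a84 (F (L l484 (T t8912 (L l192 (L l458 (T t8913 (L l166 (L l192 (L l350 (T t3307 N))))))))))) (K a96 (M a84 (F (T t8861 (L l376 (L l458 (T t8913 (L l203 (L l376 (T t8882 N))))))))) (K a160 (M a84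 (F (L l376 (T t8912 (L l192 (L l350 (T t3307 (L l176 (L l192 (L l368 (T t8920 N))))))))))) (K a224 (M a84 (F (T t8861 (L l126 (L l376 (T t8911 (L l376 (L l458 (T t8921 N))))))))) (K a48 (M a84 (F (T t8915 (L l126 (L l484 (T t8911 (L l350 (T t3307 N)))))))) (K a112 (M a84 (F (T t8922 (L l110 (L l350 (T t3307 (L l110 (L l203 (T t8882 N))))))))) (K a176 (Fr a192 a128 l304 (Fr a96 a112 l116 (Fr a240 a160 l448 (Fr a144 a48 l484 (V t9514))))) (K a240 (M a84 (F (T t8912 (L l350 (T t3307 (L l153 (L l458 (L l478 (T t8924 N))))))))) N))))))))))))))))⟩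
def e0_64__85_43 : Ent 4 := ⟨[a0, a64], [a85, a138], (M a84 (F (L l160 (T t8861 (L l350 (T t9230 (L l160 (L l350 (T t3307 (K a128 (M a80 (L l160 (F (T t8912 (L l192 (L l458 (T t8913 (L l192 (T t8914 (K a133 (M a143 (F (T t8912 (L l192 (T t8991 (T t9222 N)))))) (K a143 (M a133 (F (T t8910 (L l192 (T t8991 (T t9222 N)))))) N))))))))))) (K a192 (M a80 (F (T t8915 (L l126 (L l484 (T t8911 (L l484 (L l514 (T t8914 N))))))))) (K a20 (M a80 (L l350 (F (T t8912 (L l46 (L l458 (T t8913 (L l14 (L l160 (L l368 (T t8881 (K a150 (M a215 (F (T t8912 (L l14 (L l160 (L l368 (T t8881 (T t8991 N)))))))) (K a215 (M a150 (F (T t8912 (L l14 (L l160 (L l368 (T t8881 (T t8991 N)))))))) N))))))))))))) (K a148 (M a80 (F (T t9197 (L l126 (T t8911 (L l160 (L l166 (L l216 (L l368 (T t8881 N)))))))))) (K a104 (M a32 (F (L l154 (T t9103 (L l160 (L l368 (L l406 (T t9174 (L l350 (L l406 (L l514 (T t9104 N)))))))))))) (K a168 (M a80 (F (T t8880 (L l160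 (L l216 (L l368 (T t8881 (L l176 (T t8882 N))))))))) (K a232 (M a80 (F (T t8910 (L l458 (T t8913 (L l160 (L l368 (T t8881 N)))))))) (K a60 (M a80 (F (T t8915 (L l126 (T t8911 (L l160 (L l368 (T t8881 N)))))))) (K a124 (M a160 (F (L l94 (L l430 (T t9176 (L l110 (L l160 (T t9175 (L l154 (L l430 (T t9231 N))))))))))) (K a188 (Fr a192 a128 l304 (Fr a104 a124 l140 (Fr a252 a168 l472 (Fr a148 a60 l514 (V t9512))))) (K a252 (M a80 (F (L l466 (T t8912 (L l160 (L l368 (T t8881 (L l430 (L l466 (T t8882 N)))))))))) N))))))))))))))))))))⟩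
def e0_64__85_44 : Ent 4 := ⟨[a0, a64], [a85, a139], (M a84 (F (T t8861 (L l350 (T t3307 (K a128 (M a80 (F (T t8912 (L l192 (L l458 (T t8913 (L l192 (T t8914 N)))))))) (K a192 (M a80 (F (T t8915 (L l126 (L l484 (T t8911 (L l484 (L l514 (T t8914 N))))))))) (K a20 (M a80 (L l350 (F (T t8912 (L l46 (L l458 (T t8913 (L l14 (L l368 (T t8881 (K a150 (M a215 (F (T t8912 (L l14 (L l368 (T t8881 (T t8991 N))))))) (K a215 (M a150 (F (T t8912 (L l14 (L l368 (T t8881 (T t8991 N))))))) N)))))))))))) (K a148 (M a80 (F (T t8880 (L l198 (L l458 (T t8913 (L l166 (L l216 (L l368 (T t8881 N)))))))))) (K a104 (M a32 (F (L l368 (T t7541 (L l154 (T t9103 (L l350 (L l406 (L l514 (T t9104 N)))))))))) (K a168 (M a80 (F (T t8880 (L l216 (L l368 (T t8881 (L l176 (T t8882 N)))))))) (K a232 (M a80 (F (T t8910 (L l458 (T t8913 (L l368 (T t8881 N))))))) (K a60 (M a80 (F (T t8909 (L l126 (T t8911 (L l458 (T t8913 N))))))) (K a124 (M a160 (F (L l110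 (T t9175 (L l94 (L l430 (T t9176 (L l430 (T t9232 N))))))))) (K a188 (Fr a192 a128 l304 (Fr a104 a124 l140 (Fr a252 a168 l472 (Fr a148 a60 l514 (V t9512))))) (K a252 (M a80 (F (T t8909 (L l126 (L l466 (T t8911 (L l430 (L l466 (T t8882 N))))))))) N))))))))))))))))⟩
def e0_64__85_45 : Ent 4 := ⟨[a0, a64], [a85, a143], (M a68 (F (L l160 (T t8992 (L l458 (T t9233 (L l160 (L l458 (T t8993 (K a128 (M a138 (F (L l156 (L l325 (T t9234 (L l141 (L l325 (T t9235 (L l156 (L l458 (T t9236 (L l159 (T t9237 N))))))))))))) (K a192 (M a84 (F (T t8996 (L l94 (L l334 (T t8892 (L l334 (L l514 (T t8995 N))))))))) (K a4 (M a252 (L l458 (F (T t8997 (L l160 (T t8998 (K a166 (M a247 (F (T t8999 (L l160 (T t7648 (L l160 (T t9000 N))))))) (K a247 (M a166 (F (T t8997 (L l160 (L l278 (T t8998 N)))))) N)))))))) (K a132 (M a84 (F (L l334 (T t8899 (L l156 (L l368 (T t8994 (L l156 (L l160 (L l198 (L l350 (T t3307 N)))))))))))) (K a72 (M a48 (F (L l316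 (T t1474 (L l160 (T t363 (L l316 (T t9001 N)))))))) (K a136 (M a96 (F (L l368 (T t9238 (L l94 (L l316 (T t9002 (L l156 (L l160 (L l204 (L l316 (L l458 (T t9003 N))))))))))))) (K a200 (M a96 (F (L l160 (T t8937 (L l94 (L l316 (T t9002 (L l160 (L l316 (L l496 (T t9015 N))))))))))) (K a12 (M a48 (F (L l466 (T t1474 (L l160 (L l478 (T t363 (T t9001 N)))))))) (K a76 (M a48 (F (T t1474 (L l160 (L l368 (T t1184 (L l134 (L l160 (T t9006 N))))))))) (K a140 (Fr a192 a128 l304 (Fr a72 a76 l80 (Fr a204 a136 l328 (Fr a132 a12 l334 (V t9518))))) (K a204 (M a96 (F (L l160 (T t8937 (L l94 (T t9002 (L l160 (L l322 (L l458 (T t9008 N)))))))))) N))))))))))))))))))))⟩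
def e0_64__85_46 : Ent 4 := ⟨[a0, a64], [a85, a149], (M a65 (L l347 (F (L l220 (T t9239 (L l473 (T t9240 (L l217 (L l220 (L l473 (T t9241 (K a128 (M a162 (L l220 (L l347 (F (L l152 (T t9242 (L l94 (T t9243 (L l152 (L l167 (L l217 (L l473 (T t9244 (K a21 (M a213 (L l220 (F (L l152 (T t9242 (L l94 (T t9243 (L l65 (L l152 (L l167 (L l217 (L l473 (T t9244 (K a170 (M a191 (F (L l152 (L l218 (T t9242 (L l94 (T t9243 (L l65 (L l152 (L l167 (L l217 (L l473 (T t9244 N))))))))))))) (K a191 (M a170 (F (L l94 (T t9243 (L l160 (L l185 (L l214 (T t9245 N)))))))) N))))))))))))))) (K a213 (M a21 (L l220 (F (L l152 (T t9242 (L l473 (L l519 (T t9246 (L l94 (T t9243 (K a170 (M a191 (F (L l368 (T t9247 (L l152 (L l163 (L l218 (L l390 (T t9248 (L l94 (T t9243 N))))))))))) (K a191 (M a170 (F (L l94 (T t9243 (L l160 (L l185 (L l214 (T t9245 N)))))))) N)))))))))))) (K a170 (M a191 (L l347 (F (L l368 (T t9247 (L l152 (L l167 (L l217 (L l473 (T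 t9244 (L l94 (T t9243 (K a21 (M a213 (F (L l152 (L l218 (T t9242 (L l94 (T t9243 (L l65 (L l152 (L l167 (L l217 (L l473 (T t9244 N))))))))))))) (K a213 (M a21 (F (L l368 (T t9247 (L l152 (L l163 (L l218 (L l390 (T t9248 (L l94 (T t9243 N))))))))))) N)))))))))))))) (K a191 (M a170 (L l347 (F (L l94 (T t9243 (L l160 (L l185 (L l214 (T t9245 (K a21 (M a213 (F (L l94 (T t9243 (L l160 (L l185 (L l214 (T t9245 N)))))))) (K a213 (M a21 (F (L l94 (T t9243 (L l160 (L l185 (L l214 (T t9245 N)))))))) N))))))))))) N))))))))))))))))) (K a192 (M a243 (L l347 (L l519 (F (T t9249 (L l94 (L l309 (T t9250 (L l309 (T t9251 (K a21 (M a213 (L l519 (F (T t9249 (L l94 (L l309 (T t9250 (L l309 (T t9251 (K a106 (M a63 (F (L l94 (T t9252 (L l163 (L l339 (L l411 (T t9253 N)))))))) (K a63 (M a106 (F (T t9249 (L l94 (L l309 (T t9250 (L l309 (T t9251 N)))))))) N))))))))))) (K a213 (M a21 (L l296 (L l519 (F (L l94 (T t9252 (L l163 (L l202 (T t9254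 (K a106 (Fr a63 a42 l68 (V t9255)) (K a234 (M a255 (L l519 (F (T t9249 (L l202 (L l220 (L l390 (L l489 (T t9256 (K a106 (Fr a63 a42 l68 (M a170 (F (L l91 (L l334 (T t9257 (L l98 (L l250 (L l309 (L l351 (T t9258 N))))))))))) (K a63 (M a106 (F (L l94 (T t9252 (L l236 (L l239 (L l256 (L l350 (L l505 (T t9259 N)))))))))) N))))))))))) (K a63 (M a106 (L l296 (F (T t9249 (L l94 (L l309 (T t9250 (L l309 (T t9251 (K a234 (M a255 (F (L l94 (T t9252 (L l236 (L l239 (L l256 (L l350 (L l505 (T t9259 N)))))))))) (K a255 (M a234 (L l433 (F (T t9249 (L l62 (L l91 (L l278 (L l470 (T t9260 (L l33 (L l228 (L l295 (L l309 (L l434 (L l517 (T t9261 (K a127 (M a191 (F (T t9249 (L l33 (L l228 (L l295 (L l309 (L l434 (L l517 (T t9261 (L l94 (L l114 (L l309 (T t9250 N)))))))))))))) (K a191 (M a127 (L l220 (F (T t9249 (L l62 (L l91 (L l214 (L l278 (L l470 (T t9260 (L l33 (L l185 (L l228 (L l295 (L l309 (L l434 (L l517 (T t9261 (K a128 (Fr a170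 a42 l390 (V t9255)) (K a170 (M a128 (F (L l178 (L l218 (T t9249 (L l33 (L l228 (L l295 (L l435 (L l474 (L l517 (T t9262 (L l94 (L l178 (L l309 (L l489 (T t9263 N))))))))))))))))) N)))))))))))))))))))) N)))))))))))))))))) N))))))))))) (K a255 (M a234 (L l519 (F (L l309 (T t9264 (L l163 (L l202 (T t9254 (K a106 (Fr a63 a42 l68 (V t9255)) (K a63 (M a106 (L l433 (F (T t9249 (L l62 (L l91 (L l278 (L l470 (T t9260 (L l33 (L l228 (L l295 (L l309 (L l434 (L l517 (T t9261 (K a127 (M a191 (F (T t9249 (L l33 (L l228 (L l295 (L l309 (L l434 (L l517 (T t9261 (L l94 (L l114 (L l309 (T t9250 N)))))))))))))) (K a191 (M a127 (L l220 (F (T t9249 (L l62 (L l91 (L l214 (L l278 (L l470 (T t9260 (L l33 (L l185 (L l228 (L l295 (L l309 (L l434 (L l517 (T t9261 (K a128 (Fr a170 a42 l390 (V t9255)) (K a170 (M a128 (F (L l178 (L l218 (T t9249 (L l33 (L l228 (L l295 (L l435 (L l474 (L l517 (T t9262 (L l94 (L l178 (L l309 (L l489 (T t9263 N)))))))))))))))))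 N)))))))))))))))))))) N)))))))))))))))))) N)))))))))) N))))))))))))) (K a106 (M a63 (L l347 (F (L l94 (T t9252 (L l163 (L l339 (L l411 (T t9253 (K a21 (M a213 (F (L l94 (T t9252 (L l163 (L l339 (L l411 (T t9253 N)))))))) (K a213 (Fr a21 a42 l68 (V t9255)) N))))))))))) (K a63 (M a106 (L l347 (F (T t9249 (L l94 (L l309 (T t9250 (L l309 (T t9251 (K a21 (M a213 (F (T t9249 (L l94 (L l309 (T t9250 (L l309 (T t9251 N)))))))) (K a213 (M a21 (L l296 (F (T t9249 (L l94 (L l309 (T t9250 (L l309 (T t9251 (K a234 (M a255 (F (L l94 (T t9252 (L l236 (L l239 (L l256 (L l350 (L l505 (T t9259 N)))))))))) (K a255 (M a234 (L l433 (F (T t9249 (L l62 (L l91 (L l278 (L l470 (T t9260 (L l33 (L l228 (L l295 (L l309 (L l434 (L l517 (T t9261 (K a127 (M a191 (F (T t9249 (L l33 (L l228 (L l295 (L l309 (L l434 (L l517 (T t9261 (L l94 (L l114 (L l309 (T t9250 N)))))))))))))) (K a191 (M a127 (L l220 (F (T t9249 (L l62 (L l91 (L l214 (L l278 (L l470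 (T t9260 (L l33 (L l185 (L l228 (L l295 (L l309 (L l434 (L l517 (T t9261 (K a128 (Fr a170 a42 l390 (V t9255)) (K a170 (M a128 (F (L l178 (L l218 (T t9249 (L l33 (L l228 (L l295 (L l435 (L l474 (L l517 (T t9262 (L l94 (L l178 (L l309 (L l489 (T t9263 N))))))))))))))))) N)))))))))))))))))))) N)))))))))))))))))) N))))))))))) N))))))))))) N)))))))))))))) (K a1 (M a97 (L l347 (L l473 (F (T t9265 (T t9266 (T t9267 (K a21 (M a213 (L l65 (L l473 (F (T t9268 (T t9269 (T t9270 (K a41 (M a61 (L l473 (F (T t9268 (T t9269 (T t9270 (K a169 (M a253 (L l217 (L l389 (F (T t9265 (L l350 (T t9271 (K a129 (Fr a189 a125 l431 (V t9272)) (K a105 (Fr a233 a193 l293 (V t9272)) (K a233 (M a105 (L l217 (F (T t9273 (L l5 (L l25 (L l123 (L l167 (L l365 (L l401 (L l491 (T t9274 (K a129 (Fr a189 a125 l431 (V t9275)) (K a189 (M a129 (F (T t9276 (L l257 (T t9266 N))))) N)))))))))))))) (K a189 (M a129 (L l389 (F (T t9276 (T t9272 (K a105 (Fr a233 a193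 l293 (V t9277)) (K a233 (M a105 (F (T t9276 (L l257 (T t9266 N))))) N))))))) N))))))))))) (K a253 (M a169 (F (T t9268 (T t9269 (T t9270 N))))) N)))))))) (K a169 (M a253 (L l65 (L l217 (F (T t9269 (L l350 (L l515 (T t9271 (K a129 (M a189 (L l65 (F (L l152 (T t9272 (L l309 (T t9269 (L l152 (L l309 (L l515 (L l519 (T t9278 (K a41 (Fr a61 a125 l431 (V t9272)) (K a61 (M a41 (L l515 (F (L l152 (T t9266 (L l309 (T t9265 (L l152 (L l220 (L l350 (L l393 (T t9279 (K a193 (M a105 (F (L l152 (T t9272 (L l309 (L l503 (T t9280 N))))))) (K a105 (Fr a193 a233 l293 (V t9281)) N)))))))))))))) N)))))))))))))) (K a41 (M a61 (L l217 (L l389 (F (T t9265 (L l350 (T t9271 (K a129 (Fr a189 a125 l431 (V t9272)) (K a105 (Fr a233 a193 l293 (V t9272)) (K a233 (M a105 (L l217 (F (T t9273 (L l5 (L l25 (L l123 (L l167 (L l365 (L l401 (L l491 (T t9274 (K a129 (Fr a189 a125 l431 (V t9275)) (K a189 (M a129 (F (T t9276 (L l257 (T t9266 N))))) N))))))))))))))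 (K a189 (M a129 (L l389 (F (T t9276 (T t9272 (K a105 (Fr a233 a193 l293 (V t9277)) (K a233 (M a105 (F (T t9276 (L l257 (T t9266 N))))) N))))))) N))))))))))) (K a61 (M a41 (L l217 (L l515 (F (T t9269 (L l220 (L l350 (L l393 (T t9279 (K a129 (M a189 (L l515 (F (L l152 (T t9266 (L l309 (T t9265 (L l152 (L l220 (L l350 (L l393 (T t9279 (K a193 (M a105 (F (L l152 (T t9272 (L l309 (L l503 (T t9280 N))))))) (K a105 (Fr a193 a233 l293 (V t9281)) N)))))))))))))) (K a193 (M a105 (L l217 (F (T t9273 (L l33 (L l503 (T t9282 (K a129 (M a189 (F (L l152 (T t9272 (L l309 (L l503 (T t9280 N))))))) (K a189 (M a129 (F (T t9276 (T t9272 N)))) N))))))))) (K a105 (Fr a193 a233 l293 (V t9283)) (K a189 (M a129 (L l515 (F (T t9276 (T t9268 (K a193 (M a105 (F (T t9276 (T t9272 N)))) (K a105 (Fr a193 a233 l293 (V t9281)) N))))))) N))))))))))))) (K a189 (M a129 (L l65 (F (T t9276 (T t9272 (K a41 (M a61 (L l389 (F (T t9276 (T t9272 (K a105 (Fr a233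 a193 l293 (V t9277)) (K a233 (M a105 (F (T t9276 (L l257 (T t9266 N))))) N))))))) (K a61 (M a41 (L l515 (F (T t9276 (T t9268 (K a193 (M a105 (F (T t9276 (T t9272 N)))) (K a105 (Fr a193 a233 l293 (V t9281)) N))))))) N))))))) N)))))))))))) (K a61 (M a41 (L l473 (L l515 (F (T t9272 (T t9269 (T t9270 (K a193 (M a105 (L l473 (F (T t9266 (L l47 (L l503 (T t9284 (K a169 (M a253 (L l217 (F (T t9273 (L l33 (L l503 (T t9282 (K a129 (M a189 (F (L l152 (T t9272 (L l309 (L l503 (T t9280 N))))))) (K a189 (M a129 (F (T t9276 (T t9272 N)))) N))))))))) (K a253 (Fr a169 a233 l389 (V t9285)) N))))))))) (K a105 (M a193 (L l473 (F (T t9281 (T t9269 (K a169 (Fr a253 a233 l293 (V t9283)) (K a253 (M a169 (L l431 (F (T t9281 (L l105 (T t9265 (K a125 (M a189 (F (T t9281 (L l105 (L l111 (T t9265 N)))))) (K a189 (M a125 (F (T t9281 (T t9269 N)))) N)))))))) N))))))) (K a169 (M a253 (L l217 (L l515 (F (T t9269 (L l220 (L l350 (L l393 (T t9279 (K a129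 (M a189 (L l515 (F (L l152 (T t9266 (L l309 (T t9265 (L l152 (L l220 (L l350 (L l393 (T t9279 (K a193 (M a105 (F (L l152 (T t9272 (L l309 (L l503 (T t9280 N))))))) (K a105 (Fr a193 a233 l293 (V t9281)) N)))))))))))))) (K a193 (M a105 (L l217 (F (T t9273 (L l33 (L l503 (T t9282 (K a129 (M a189 (F (L l152 (T t9272 (L l309 (L l503 (T t9280 N))))))) (K a189 (M a129 (F (T t9276 (T t9272 N)))) N))))))))) (K a105 (Fr a193 a233 l293 (V t9283)) (K a189 (M a129 (L l515 (F (T t9276 (T t9268 (K a193 (M a105 (F (T t9276 (T t9272 N)))) (K a105 (Fr a193 a233 l293 (V t9281)) N))))))) N))))))))))))) (K a253 (M a169 (L l431 (L l515 (F (T t9272 (L l47 (L l287 (L l503 (T t9286 (K a193 (Fr a105 a233 l389 (V t9285)) (K a105 (M a193 (L l431 (F (T t9281 (L l105 (T t9265 (K a125 (M a189 (F (T t9281 (L l105 (L l111 (T t9265 N)))))) (K a189 (M a125 (F (T t9281 (T t9269 N)))) N)))))))) (K a125 (M a189 (L l515 (F (L l111 (T t9265 (L l47 (L l135 (L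 l287 (L l503 (T t9286 (K a193 (Fr a105 a233 l389 (V t9285)) (K a105 (M a193 (F (T t9281 (L l105 (L l111 (T t9265 N)))))) N)))))))))))) (K a189 (M a125 (L l515 (F (T t9265 (L l47 (L l287 (L l503 (T t9286 (K a193 (Fr a105 a233 l389 (V t9287)) (K a105 (M a193 (F (T t9281 (T t9269 N)))) N)))))))))) N))))))))))))) N))))))))))) (K a253 (M a169 (L l65 (F (T t9268 (T t9269 (T t9270 (K a41 (M a61 (F (T t9268 (T t9269 (T t9270 N))))) (K a61 (M a41 (L l431 (L l515 (F (T t9272 (L l47 (L l287 (L l503 (T t9286 (K a193 (Fr a105 a233 l389 (V t9285)) (K a105 (M a193 (L l431 (F (T t9281 (L l105 (T t9265 (K a125 (M a189 (F (T t9281 (L l105 (L l111 (T t9265 N)))))) (K a189 (M a125 (F (T t9281 (T t9269 N)))) N)))))))) (K a125 (M a189 (L l515 (F (L l111 (T t9265 (L l47 (L l135 (L l287 (L l503 (T t9286 (K a193 (Fr a105 a233 l389 (V t9285)) (K a105 (M a193 (F (T t9281 (L l105 (L l111 (T t9265 N)))))) N)))))))))))) (K a189 (M a125 (L l515 (F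 (T t9265 (L l47 (L l287 (L l503 (T t9286 (K a193 (Fr a105 a233 l389 (V t9287)) (K a105 (M a193 (F (T t9281 (T t9269 N)))) N)))))))))) N))))))))))))) N)))))))) N))))))))))) (K a213 (M a21 (L l473 (F (T t9272 (T t9269 (T t9270 (K a169 (M a253 (L l217 (F (T t9272 (T t9269 (T t9270 (K a129 (M a189 (F (L l309 (T t9265 (L l515 (T t9288 N)))))) (K a189 (M a129 (F (T t9276 (T t9266 N)))) N)))))))) (K a253 (M a169 (L l293 (F (T t9268 (T t9269 (T t9270 (K a193 (M a233 (L l515 (F (T t9268 (T t9269 (L l87 (L l239 (L l351 (T t9289 (K a105 (M a61 (F (T t9272 (L l94 (T t9290 (T t9267 N)))))) (K a61 (Fr a105 a41 l389 (V t9272)) N))))))))))) (K a233 (M a193 (F (T t9281 (T t9269 N)))) N)))))))) N)))))))) (K a169 (M a253 (L l217 (L l347 (F (T t9272 (T t9269 (T t9270 (K a129 (M a189 (L l347 (F (L l152 (T t9268 (L l309 (T t9269 (L l152 (L l309 (T t9267 (K a21 (M a213 (L l65 (F (L l152 (T t9272 (L l309 (T t9269 (L l152 (L l309 (L l515 (L l519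 (T t9278 (K a41 (Fr a61 a125 l431 (V t9272)) (K a61 (M a41 (L l515 (F (L l152 (T t9266 (L l309 (T t9265 (L l152 (L l220 (L l350 (L l393 (T t9279 (K a193 (M a105 (F (L l152 (T t9272 (L l309 (L l503 (T t9280 N))))))) (K a105 (Fr a193 a233 l293 (V t9281)) N)))))))))))))) N)))))))))))))) (K a213 (M a21 (F (L l309 (T t9265 (L l515 (T t9288 N)))))) N)))))))))))) (K a21 (M a213 (L l65 (L l217 (F (T t9269 (L l350 (L l515 (T t9271 (K a129 (M a189 (L l65 (F (L l152 (T t9272 (L l309 (T t9269 (L l152 (L l309 (L l515 (L l519 (T t9278 (K a41 (Fr a61 a125 l431 (V t9272)) (K a61 (M a41 (L l515 (F (L l152 (T t9266 (L l309 (T t9265 (L l152 (L l220 (L l350 (L l393 (T t9279 (K a193 (M a105 (F (L l152 (T t9272 (L l309 (L l503 (T t9280 N))))))) (K a105 (Fr a193 a233 l293 (V t9281)) N)))))))))))))) N)))))))))))))) (K a41 (M a61 (L l217 (L l389 (F (T t9265 (L l350 (T t9271 (K a129 (Fr a189 a125 l431 (V t9272)) (K a105 (Fr a233 a193 l293 (V t9272))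 (K a233 (M a105 (L l217 (F (T t9273 (L l5 (L l25 (L l123 (L l167 (L l365 (L l401 (L l491 (T t9274 (K a129 (Fr a189 a125 l431 (V t9275)) (K a189 (M a129 (F (T t9276 (L l257 (T t9266 N))))) N)))))))))))))) (K a189 (M a129 (L l389 (F (T t9276 (T t9272 (K a105 (Fr a233 a193 l293 (V t9277)) (K a233 (M a105 (F (T t9276 (L l257 (T t9266 N))))) N))))))) N))))))))))) (K a61 (M a41 (L l217 (L l515 (F (T t9269 (L l220 (L l350 (L l393 (T t9279 (K a129 (M a189 (L l515 (F (L l152 (T t9266 (L l309 (T t9265 (L l152 (L l220 (L l350 (L l393 (T t9279 (K a193 (M a105 (F (L l152 (T t9272 (L l309 (L l503 (T t9280 N))))))) (K a105 (Fr a193 a233 l293 (V t9281)) N)))))))))))))) (K a193 (M a105 (L l217 (F (T t9273 (L l33 (L l503 (T t9282 (K a129 (M a189 (F (L l152 (T t9272 (L l309 (L l503 (T t9280 N))))))) (K a189 (M a129 (F (T t9276 (T t9272 N)))) N))))))))) (K a105 (Fr a193 a233 l293 (V t9283)) (K a189 (M a129 (L l515 (F (T t9276 (T t9268 (K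 a193 (M a105 (F (T t9276 (T t9272 N)))) (K a105 (Fr a193 a233 l293 (V t9281)) N))))))) N))))))))))))) (K a189 (M a129 (L l65 (F (T t9276 (T t9272 (K a41 (M a61 (L l389 (F (T t9276 (T t9272 (K a105 (Fr a233 a193 l293 (V t9277)) (K a233 (M a105 (F (T t9276 (L l257 (T t9266 N))))) N))))))) (K a61 (M a41 (L l515 (F (T t9276 (T t9268 (K a193 (M a105 (F (T t9276 (T t9272 N)))) (K a105 (Fr a193 a233 l293 (V t9281)) N))))))) N))))))) N)))))))))))) (K a213 (M a21 (L l217 (F (T t9272 (T t9269 (T t9270 (K a129 (M a189 (F (L l309 (T t9265 (L l515 (T t9288 N)))))) (K a189 (M a129 (F (T t9276 (T t9266 N)))) N)))))))) (K a189 (M a129 (L l347 (F (T t9276 (T t9266 (K a21 (M a213 (L l65 (F (T t9276 (T t9272 (K a41 (M a61 (L l389 (F (T t9276 (T t9272 (K a105 (Fr a233 a193 l293 (V t9277)) (K a233 (M a105 (F (T t9276 (L l257 (T t9266 N))))) N))))))) (K a61 (M a41 (L l515 (F (T t9276 (T t9268 (K a193 (M a105 (F (T t9276 (T t9272 N)))) (K a105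 (Fr a193 a233 l293 (V t9281)) N))))))) N))))))) (K a213 (M a21 (F (T t9276 (T t9266 N)))) N))))))) N))))))))))) (K a253 (M a169 (L l347 (F (T t9272 (T t9269 (T t9270 (K a21 (M a213 (L l65 (F (T t9268 (T t9269 (T t9270 (K a41 (M a61 (F (T t9268 (T t9269 (T t9270 N))))) (K a61 (M a41 (L l431 (L l515 (F (T t9272 (L l47 (L l287 (L l503 (T t9286 (K a193 (Fr a105 a233 l389 (V t9285)) (K a105 (M a193 (L l431 (F (T t9281 (L l105 (T t9265 (K a125 (M a189 (F (T t9281 (L l105 (L l111 (T t9265 N)))))) (K a189 (M a125 (F (T t9281 (T t9269 N)))) N)))))))) (K a125 (M a189 (L l515 (F (L l111 (T t9265 (L l47 (L l135 (L l287 (L l503 (T t9286 (K a193 (Fr a105 a233 l389 (V t9285)) (K a105 (M a193 (F (T t9281 (L l105 (L l111 (T t9265 N)))))) N)))))))))))) (K a189 (M a125 (L l515 (F (T t9265 (L l47 (L l287 (L l503 (T t9286 (K a193 (Fr a105 a233 l389 (V t9287)) (K a105 (M a193 (F (T t9281 (T t9269 N)))) N)))))))))) N))))))))))))) N))))))))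 (K a213 (M a21 (L l293 (F (T t9268 (T t9269 (T t9270 (K a193 (M a233 (L l515 (F (T t9268 (T t9269 (L l87 (L l239 (L l351 (T t9289 (K a105 (M a61 (F (T t9272 (L l94 (T t9290 (T t9267 N)))))) (K a61 (Fr a105 a41 l389 (V t9272)) N))))))))))) (K a233 (M a193 (F (T t9281 (T t9269 N)))) N)))))))) N)))))))) N))))))))))) (K a129 (M a81 (L l217 (L l347 (F (L l309 (T t9291 (L l152 (L l368 (T t8928 (L l152 (L l167 (L l193 (L l220 (L l365 (T t8925 (K a21 (M a213 (L l217 (F (L l152 (T t9292 (L l94 (L l309 (T t9293 (L l152 (L l220 (T t8926 (K a169 (M a189 (L l473 (F (L l152 (T t9292 (L l94 (L l309 (T t9293 (L l152 (L l220 (T t8926 (K a1 (M a253 (L l65 (F (L l94 (T t8927 (L l152 (L l350 (L l515 (T t9271 (K a41 (Fr a61 a125 l431 (V t9294)) (K a61 (M a41 (L l515 (F (L l94 (T t8927 (L l152 (L l220 (L l350 (L l393 (T t9279 (K a193 (M a105 (F (L l309 (T t9291 (L l18 (L l152 (L l368 (T t8928 (L l152 (L l220 (T t8926 N))))))))))) (K a105 (Fr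 a193 a233 l293 (V t9281)) N)))))))))))) N))))))))))) (K a253 (M a1 (F (T t9295 (L l15 (L l365 (T t9200 N)))))) N))))))))))))) (K a189 (M a169 (F (L l152 (T t9292 (L l94 (L l309 (T t9293 (L l152 (L l220 (T t8926 N)))))))))) N))))))))))))) (K a213 (M a21 (L l217 (F (L l152 (T t9292 (L l309 (T t9296 (L l152 (L l220 (T t8926 (K a169 (M a189 (L l473 (F (L l152 (T t9292 (L l309 (T t9296 (L l152 (L l220 (T t8926 (K a1 (M a253 (F (L l309 (T t9296 (L l515 (T t9288 N)))))) (K a253 (M a1 (L l293 (F (T t9295 (L l365 (T t9200 (K a193 (M a233 (L l515 (F (L l228 (T t9295 (L l177 (L l193 (L l199 (T t9297 (K a105 (Fr a61 a41 l65 (V t9298)) (K a61 (M a105 (F (L l309 (T t9299 (L l365 (T t9200 (L l152 (T t9298 N)))))))) N))))))))))) (K a233 (M a193 (L l389 (F (L l152 (T t9281 (L l167 (L l193 (L l365 (T t9300 (K a41 (M a105 (F (L l152 (T t9281 (L l167 (L l193 (L l365 (T t9300 N)))))))) (K a105 (Fr a41 a61 l65 (V t9281)) N))))))))))) N))))))))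 N)))))))))))) (K a189 (M a169 (F (L l152 (T t9292 (L l309 (T t9296 (L l152 (L l220 (T t8926 N))))))))) N)))))))))))) (K a169 (M a189 (L l347 (L l473 (F (L l152 (T t9292 (L l309 (T t9296 (L l152 (L l220 (T t8926 (K a1 (M a253 (L l347 (F (L l152 (T t9292 (L l309 (T t9296 (L l152 (L l220 (T t8926 (K a21 (M a213 (L l65 (F (L l94 (T t8927 (L l152 (L l350 (L l515 (T t9271 (K a41 (Fr a61 a125 l431 (V t9294)) (K a61 (M a41 (L l515 (F (L l94 (T t8927 (L l152 (L l220 (L l350 (L l393 (T t9279 (K a193 (M a105 (F (L l309 (T t9291 (L l18 (L l152 (L l368 (T t8928 (L l152 (L l220 (T t8926 N))))))))))) (K a105 (Fr a193 a233 l293 (V t9281)) N)))))))))))) N))))))))))) (K a213 (M a21 (F (L l309 (T t9296 (L l515 (T t9288 N)))))) N)))))))))))) (K a21 (M a213 (L l473 (F (L l152 (T t9292 (L l94 (L l309 (T t9293 (L l152 (L l220 (T t8926 (K a1 (M a253 (L l65 (F (L l94 (T t8927 (L l152 (L l350 (L l515 (T t9271 (K a41 (Fr a61 a125 l431 (V t9294))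 (K a61 (M a41 (L l515 (F (L l94 (T t8927 (L l152 (L l220 (L l350 (L l393 (T t9279 (K a193 (M a105 (F (L l309 (T t9291 (L l18 (L l152 (L l368 (T t8928 (L l152 (L l220 (T t8926 N))))))))))) (K a105 (Fr a193 a233 l293 (V t9281)) N)))))))))))) N))))))))))) (K a253 (M a1 (F (T t9295 (L l15 (L l365 (T t9200 N)))))) N))))))))))))) (K a213 (M a21 (L l473 (F (L l152 (T t9292 (L l309 (T t9296 (L l152 (L l220 (T t8926 (K a1 (M a253 (F (L l309 (T t9296 (L l515 (T t9288 N)))))) (K a253 (M a1 (L l293 (F (T t9295 (L l365 (T t9200 (K a193 (M a233 (L l515 (F (L l228 (T t9295 (L l177 (L l193 (L l199 (T t9297 (K a105 (Fr a61 a41 l65 (V t9298)) (K a61 (M a105 (F (L l309 (T t9299 (L l365 (T t9200 (L l152 (T t9298 N)))))))) N))))))))))) (K a233 (M a193 (L l389 (F (L l152 (T t9281 (L l167 (L l193 (L l365 (T t9300 (K a41 (M a105 (F (L l152 (T t9281 (L l167 (L l193 (L l365 (T t9300 N)))))))) (K a105 (Fr a41 a61 l65 (V t9281)) N))))))))))) N))))))))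 N)))))))))))) (K a253 (M a1 (L l347 (F (T t9295 (L l365 (T t9200 (K a21 (M a213 (F (T t9295 (L l15 (L l365 (T t9200 N)))))) (K a213 (M a21 (L l293 (F (T t9295 (L l365 (T t9200 (K a193 (M a233 (L l515 (F (L l228 (T t9295 (L l177 (L l193 (L l199 (T t9297 (K a105 (Fr a61 a41 l65 (V t9298)) (K a61 (M a105 (F (L l309 (T t9299 (L l365 (T t9200 (L l152 (T t9298 N)))))))) N))))))))))) (K a233 (M a193 (L l389 (F (L l152 (T t9281 (L l167 (L l193 (L l365 (T t9300 (K a41 (M a105 (F (L l152 (T t9281 (L l167 (L l193 (L l365 (T t9300 N)))))))) (K a105 (Fr a41 a61 l65 (V t9281)) N))))))))))) N)))))))) N)))))))) N))))))))))))))) (K a189 (M a169 (L l347 (F (L l152 (T t9292 (L l309 (T t9296 (L l152 (L l220 (T t8926 (K a21 (M a213 (F (L l152 (T t9292 (L l94 (L l309 (T t9293 (L l152 (L l220 (T t8926 N)))))))))) (K a213 (M a21 (F (L l152 (T t9292 (L l309 (T t9296 (L l152 (L l220 (T t8926 N))))))))) N)))))))))))) N))))))))))))))))))) (K a66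 (M a243 (L l347 (F (L l306 (T t9255 (L l220 (T t9301 (L l220 (L l306 (L l371 (L l515 (T t9302 (K a21 (M a213 (F (L l306 (T t9255 (L l220 (L l495 (T t9303 N))))))) (K a213 (M a21 (F (L l220 (T t9301 (L l163 (L l202 (L l306 (T t9254 N)))))))) N)))))))))))))) (K a130 (M a96 (L l347 (F (L l368 (T t9238 (L l94 (L l306 (T t9304 (L l152 (L l170 (L l194 (L l220 (L l306 (L l473 (T t9305 (K a21 (M a213 (F (L l152 (L l220 (T t9072 (L l94 (L l306 (T t9306 (L l65 (L l152 (L l170 (L l194 (L l220 (L l306 (L l473 (T t9305 N)))))))))))))))) (K a213 (M a21 (F (L l94 (L l306 (T t9306 (L l152 (L l170 (L l220 (L l455 (T t9307 N)))))))))) N))))))))))))))))) (K a194 (M a243 (L l347 (F (L l220 (T t9301 (L l306 (T t9255 (L l220 (L l270 (L l306 (L l375 (T t9308 (K a21 (M a213 (F (L l306 (T t9255 (L l220 (L l294 (L l495 (T t9303 N)))))))) (K a213 (M a21 (F (L l220 (T t9301 (L l163 (L l202 (L l306 (T t9254 N)))))))) N)))))))))))))) (K a3 (M a243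 (L l347 (F (T t9249 (L l43 (L l220 (T t9301 (L l220 (L l375 (T t9309 (K a21 (M a213 (F (T t9249 (L l220 (L l333 (L l495 (T t9303 N))))))) (K a213 (M a21 (F (L l220 (T t9310 (L l163 (L l202 (T t9254 N))))))) N)))))))))))) (K a67 (M a243 (L l347 (F (T t9255 (L l119 (L l220 (T t9301 (L l220 (L l375 (T t9311 (K a21 (M a213 (F (T t9255 (L l220 (L l495 (T t9303 N)))))) (K a213 (M a21 (F (L l119 (L l220 (T t9301 (L l163 (L l202 (T t9254 N)))))))) N)))))))))))) (K a131 (Fr a192 a128 l304 (Fr a66 a67 l76 (Fr a195 a130 l308 (Fr a129 a3 l309 (V t9523))))) (K a195 (M a96 (L l347 (F (L l220 (T t8937 (L l94 (L l487 (T t9304 (L l170 (L l217 (L l220 (L l307 (L l473 (T t9313 (K a21 (M a213 (F (L l220 (T t8937 (L l94 (T t9306 (L l65 (L l170 (L l217 (L l220 (L l307 (L l473 (T t9313 N))))))))))))) (K a213 (M a21 (F (L l94 (T t9306 (L l170 (L l220 (L l455 (T t9307 N)))))))) N)))))))))))))))) (K a21 (M a213 (F (L l217 (L l220 (T t9314 (L l220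 (L l351 (T t9315 (L l65 (L l473 (T t9240 (L l65 (L l220 (L l351 (L l473 (T t9316 (L l220 (L l351 (L l473 (T t9317 (K a128 (M a162 (L l220 (F (L l152 (T t9242 (L l94 (T t9243 (L l65 (L l152 (L l167 (L l217 (L l473 (T t9244 (K a170 (M a191 (F (L l152 (L l218 (T t9242 (L l94 (T t9243 (L l65 (L l152 (L l167 (L l217 (L l473 (T t9244 N))))))))))))) (K a191 (M a170 (F (L l94 (T t9243 (L l160 (L l185 (L l214 (T t9245 N)))))))) N))))))))))))))) (K a192 (M a243 (L l519 (F (T t9249 (L l94 (L l309 (T t9250 (L l309 (T t9251 (K a106 (M a63 (F (L l94 (T t9252 (L l163 (L l339 (L l411 (T t9253 N)))))))) (K a63 (M a106 (F (T t9249 (L l94 (L l309 (T t9250 (L l309 (T t9251 N)))))))) N))))))))))) (K a129 (Fr a192 a128 l304 (Fr a255 a234 l296 (Fr a67 a66 l76 (Fr a195 a130 l308 (Fr a131 a3 l307 (V t9524)))))) (K a131 (Fr a192 a128 l304 (Fr a66 a67 l76 (Fr a195 a130 l308 (Fr a129 a3 l309 (V t9523))))) (K a195 (M a243 (F (L l94 (T t9250 (L l220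 (L l237 (L l495 (T t9303 N)))))))) N))))))))))))))))))))))))) (K a213 (M a21 (F (L l220 (T t9239 (L l473 (L l519 (T t9319 (L l163 (L l351 (T t9320 (L l217 (L l220 (L l515 (T t9321 (K a66 (M a48 (F (L l455 (T t9322 (L l306 (T t9323 N)))))) (K a130 (M a3 (F (T t9324 (L l350 (T t9325 N))))) (K a3 (M a48 (F (L l375 (T t9326 (T t9323 N))))) (K a67 (M a48 (F (L l455 (T t9322 (L l119 (L l220 (T t9327 N))))))) (K a131 (Fr a195 a130 l308 (Fr a66 a67 l76 (Fr a192 a128 l304 (Fr a129 a3 l309 (V t9523))))) N))))))))))))))))))) N))))))))))))))))))))))))⟩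
def e0_64__85_47 : Ent 4 := ⟨[a0, a64], [a85, a150], (M a80 (L l350 (F (T t8884 (L l368 (T t8881 (K a128 (M a84 (L l350 (F (T t8912 (L l192 (L l458 (T t8913 (L l192 (L l203 (T t8914 (K a20 (M a215 (F (T t8912 (L l192 (T t8991 (T t9222 N)))))) (K a215 (M a20 (F (T t9328 (L l192 (T t8991 N))))) N)))))))))))) (K a192 (M a84 (L l350 (F (T t8915 (L l126 (L l484 (T t8911 (L l203 (L l484 (L l514 (T t8914 (K a20 (M a215 (F (T t8915 (L l484 (L l514 (T t8912 (L l221 (L l484 (L l514 (T t9107 N)))))))))) (K a215 (M a20 (F (T t9329 (L l334 (T t8922 (L l484 (T t8910 N))))))) N))))))))))))) (K a16 (M a81 (L l350 (L l368 (F (T t8936 (L l473 (T t9208 (L l10 (L l365 (T t8925 (K a20 (M a215 (L l14 (L l368 (F (T t8936 (L l473 (T t9209 (T t8926 (K a24 (M a28 (L l368 (F (T t8936 (L l473 (T t9209 (T t8926 (K a154 (M a223 (L l168 (L l356 (F (T t9219 (L l518 (T t9330 (K a89 (Fr a219 a211 l245 (V t8934)) (K a146 (Fr a158 a93 l362 (V t9223)) (K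 a158 (M a146 (L l356 (F (T t9331 (L l218 (L l510 (T t9332 (K a89 (Fr a219 a211 l245 (V t9219)) (K a219 (M a89 (F (T t9331 (L l70 (L l510 (L l512 (T t9333 N))))))) N))))))))) (K a219 (M a89 (L l168 (F (T t9331 (T t9219 (T t8926 (K a146 (Fr a158 a93 l362 (V t8936)) (K a158 (M a146 (F (T t9331 (L l70 (L l510 (L l512 (T t9333 N))))))) N)))))))) N))))))))))) (K a223 (M a154 (F (T t9331 (T t8936 (T t8926 N))))) N))))))))) (K a28 (M a24 (L l368 (L l374 (F (T t9331 (T t8936 (T t8926 (K a89 (M a211 (L l368 (F (L l150 (T t8926 (L l11 (L l171 (T t9334 (K a154 (Fr a223 a219 l245 (V t8934)) (K a223 (M a154 (L l362 (F (L l95 (T t9331 (L l150 (T t8926 (L l95 (T t9219 (K a93 (M a158 (F (L l95 (T t9219 (L l150 (T t8926 (L l95 (L l473 (T t9208 N))))))))) (K a158 (M a93 (F (L l95 (T t9331 (L l150 (T t8926 (L l95 (T t9219 N)))))))) N))))))))))) N)))))))))) (K a154 (M a223 (L l168 (L l374 (F (T t9223 (L l164 (L l171 (T t9335 (K a89 (Fr a211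 a219 l245 (V t8934)) (K a146 (M a158 (L l374 (F (T t9336 (L l162 (L l164 (L l171 (L l342 (T t9335 (L l194 (T t9331 (K a89 (Fr a211 a219 l245 (V t9337)) (K a211 (M a89 (F (L l194 (T t8926 (L l343 (L l473 (T t9209 (L l343 (L l486 (T t9219 N)))))))))) N))))))))))))) (K a158 (M a146 (L l374 (F (T t9331 (L l218 (L l510 (T t9332 (K a89 (Fr a211 a219 l245 (V t9338)) (K a211 (M a89 (F (L l343 (T t9331 (L l510 (L l512 (T t9333 N))))))) N))))))))) (K a211 (M a89 (L l168 (F (T t8926 (L l141 (L l343 (T t9339 (L l343 (L l473 (T t9209 (K a146 (M a158 (F (L l194 (T t8926 (L l343 (L l473 (T t9209 (L l343 (L l486 (T t9219 N)))))))))) (K a158 (M a146 (F (L l343 (T t9331 (L l510 (L l512 (T t9333 N))))))) N)))))))))))) N)))))))))))) (K a211 (M a89 (L l368 (F (L l343 (T t8936 (L l46 (L l200 (L l458 (T t9340 (K a154 (M a223 (L l168 (F (T t8926 (L l141 (L l343 (T t9339 (L l343 (L l473 (T t9209 (K a146 (M a158 (F (L l194 (T t8926 (L l343 (L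 l473 (T t9209 (L l343 (L l486 (T t9219 N)))))))))) (K a158 (M a146 (F (L l343 (T t9331 (L l510 (L l512 (T t9333 N))))))) N)))))))))))) (K a223 (Fr a154 a219 l356 (V t9209)) N))))))))))) (K a223 (M a154 (L l362 (L l374 (F (T t8936 (L l46 (L l200 (L l289 (L l458 (T t9341 (K a89 (M a211 (L l362 (F (L l95 (T t9331 (L l150 (T t8926 (L l95 (T t9219 (K a93 (M a158 (F (L l95 (T t9219 (L l150 (T t8926 (L l95 (L l473 (T t9208 N))))))))) (K a158 (M a93 (F (L l95 (T t9331 (L l150 (T t8926 (L l95 (T t9219 N)))))))) N))))))))))) (K a93 (M a158 (L l374 (F (T t8936 (L l46 (L l200 (L l289 (L l458 (T t9341 (K a89 (M a211 (F (L l95 (T t9219 (L l150 (T t8926 (L l95 (L l473 (T t9208 N))))))))) (K a211 (Fr a89 a219 l356 (V t9337)) N))))))))))) (K a158 (M a93 (L l374 (F (T t8936 (L l46 (L l200 (L l289 (L l458 (L l506 (T t9341 (K a89 (M a211 (F (L l95 (T t9331 (L l150 (T t8926 (L l95 (T t9219 N)))))))) (K a211 (Fr a89 a219 l356 (V t8934)) N))))))))))))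 (K a211 (Fr a89 a219 l356 (V t9209)) N)))))))))))))) N))))))))))) (K a154 (M a223 (L l14 (L l168 (F (T t9219 (L l374 (L l518 (T t9330 (K a24 (M a28 (L l168 (L l356 (F (T t9219 (L l518 (T t9330 (K a89 (Fr a219 a211 l245 (V t8934)) (K a146 (Fr a158 a93 l362 (V t9223)) (K a158 (M a146 (L l356 (F (T t9331 (L l218 (L l510 (T t9332 (K a89 (Fr a219 a211 l245 (V t9219)) (K a219 (M a89 (F (T t9331 (L l70 (L l510 (L l512 (T t9333 N))))))) N))))))))) (K a219 (M a89 (L l168 (F (T t9331 (T t9219 (T t8926 (K a146 (Fr a158 a93 l362 (V t8936)) (K a158 (M a146 (F (T t9331 (L l70 (L l510 (L l512 (T t9333 N))))))) N)))))))) N))))))))))) (K a28 (M a24 (L l168 (L l374 (F (T t9223 (L l164 (L l171 (T t9335 (K a89 (Fr a211 a219 l245 (V t8934)) (K a146 (M a158 (L l374 (F (T t9336 (L l162 (L l164 (L l171 (L l342 (T t9335 (L l194 (T t9331 (K a89 (Fr a211 a219 l245 (V t9337)) (K a211 (M a89 (F (L l194 (T t8926 (L l343 (L l473 (T t9209 (L l343 (L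 l486 (T t9219 N)))))))))) N))))))))))))) (K a158 (M a146 (L l374 (F (T t9331 (L l218 (L l510 (T t9332 (K a89 (Fr a211 a219 l245 (V t9338)) (K a211 (M a89 (F (L l343 (T t9331 (L l510 (L l512 (T t9333 N))))))) N))))))))) (K a211 (M a89 (L l168 (F (T t8926 (L l141 (L l343 (T t9339 (L l343 (L l473 (T t9209 (K a146 (M a158 (F (L l194 (T t8926 (L l343 (L l473 (T t9209 (L l343 (L l486 (T t9219 N)))))))))) (K a158 (M a146 (F (L l343 (T t9331 (L l510 (L l512 (T t9333 N))))))) N)))))))))))) N)))))))))))) (K a146 (M a158 (L l14 (F (T t8942 (L l194 (L l374 (L l458 (T t9342 (K a24 (Fr a28 a93 l362 (V t9223)) (K a28 (M a24 (L l374 (F (T t9336 (L l162 (L l164 (L l171 (L l342 (T t9335 (L l194 (T t9331 (K a89 (Fr a211 a219 l245 (V t9337)) (K a211 (M a89 (F (L l194 (T t8926 (L l343 (L l473 (T t9209 (L l343 (L l486 (T t9219 N)))))))))) N))))))))))))) N)))))))))) (K a158 (M a146 (L l14 (F (T t9219 (L l374 (L l458 (T t9342 (K a24 (M a28 (L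 l356 (F (T t9331 (L l218 (L l510 (T t9332 (K a89 (Fr a219 a211 l245 (V t9219)) (K a219 (M a89 (F (T t9331 (L l70 (L l510 (L l512 (T t9333 N))))))) N))))))))) (K a28 (M a24 (L l374 (F (T t9331 (L l218 (L l510 (T t9332 (K a89 (Fr a211 a219 l245 (V t9338)) (K a211 (M a89 (F (L l343 (T t9331 (L l510 (L l512 (T t9333 N))))))) N))))))))) N))))))))) N)))))))))))) (K a223 (M a154 (L l14 (F (T t9331 (T t8936 (T t8926 (K a24 (M a28 (F (T t9331 (T t8936 (T t8926 N))))) (K a28 (M a24 (L l362 (L l374 (F (T t8936 (L l46 (L l200 (L l289 (L l458 (T t9341 (K a89 (M a211 (L l362 (F (L l95 (T t9331 (L l150 (T t8926 (L l95 (T t9219 (K a93 (M a158 (F (L l95 (T t9219 (L l150 (T t8926 (L l95 (L l473 (T t9208 N))))))))) (K a158 (M a93 (F (L l95 (T t9331 (L l150 (T t8926 (L l95 (T t9219 N)))))))) N))))))))))) (K a93 (M a158 (L l374 (F (T t8936 (L l46 (L l200 (L l289 (L l458 (T t9341 (K a89 (M a211 (F (L l95 (T t9219 (L l150 (T t8926 (L l95 (L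 l473 (T t9208 N))))))))) (K a211 (Fr a89 a219 l356 (V t9337)) N))))))))))) (K a158 (M a93 (L l374 (F (T t8936 (L l46 (L l200 (L l289 (L l458 (L l506 (T t9341 (K a89 (M a211 (F (L l95 (T t9331 (L l150 (T t8926 (L l95 (T t9219 N)))))))) (K a211 (Fr a89 a219 l356 (V t8934)) N)))))))))))) (K a211 (Fr a89 a219 l356 (V t9209)) N)))))))))))))) N)))))))) N)))))))))))) (K a154 (M a223 (L l168 (L l350 (F (T t8936 (L l473 (T t9209 (T t8926 (K a20 (M a215 (L l14 (L l168 (F (T t9219 (L l374 (L l518 (T t9330 (K a24 (M a28 (L l168 (L l356 (F (T t9219 (L l518 (T t9330 (K a89 (Fr a219 a211 l245 (V t8934)) (K a146 (Fr a158 a93 l362 (V t9223)) (K a158 (M a146 (L l356 (F (T t9331 (L l218 (L l510 (T t9332 (K a89 (Fr a219 a211 l245 (V t9219)) (K a219 (M a89 (F (T t9331 (L l70 (L l510 (L l512 (T t9333 N))))))) N))))))))) (K a219 (M a89 (L l168 (F (T t9331 (T t9219 (T t8926 (K a146 (Fr a158 a93 l362 (V t8936)) (K a158 (M a146 (F (T t9331 (L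 l70 (L l510 (L l512 (T t9333 N))))))) N)))))))) N))))))))))) (K a28 (M a24 (L l168 (L l374 (F (T t9223 (L l164 (L l171 (T t9335 (K a89 (Fr a211 a219 l245 (V t8934)) (K a146 (M a158 (L l374 (F (T t9336 (L l162 (L l164 (L l171 (L l342 (T t9335 (L l194 (T t9331 (K a89 (Fr a211 a219 l245 (V t9337)) (K a211 (M a89 (F (L l194 (T t8926 (L l343 (L l473 (T t9209 (L l343 (L l486 (T t9219 N)))))))))) N))))))))))))) (K a158 (M a146 (L l374 (F (T t9331 (L l218 (L l510 (T t9332 (K a89 (Fr a211 a219 l245 (V t9338)) (K a211 (M a89 (F (L l343 (T t9331 (L l510 (L l512 (T t9333 N))))))) N))))))))) (K a211 (M a89 (L l168 (F (T t8926 (L l141 (L l343 (T t9339 (L l343 (L l473 (T t9209 (K a146 (M a158 (F (L l194 (T t8926 (L l343 (L l473 (T t9209 (L l343 (L l486 (T t9219 N)))))))))) (K a158 (M a146 (F (L l343 (T t9331 (L l510 (L l512 (T t9333 N))))))) N)))))))))))) N)))))))))))) (K a146 (M a158 (L l14 (F (T t8942 (L l194 (L l374 (L l458 (T t9342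 (K a24 (Fr a28 a93 l362 (V t9223)) (K a28 (M a24 (L l374 (F (T t9336 (L l162 (L l164 (L l171 (L l342 (T t9335 (L l194 (T t9331 (K a89 (Fr a211 a219 l245 (V t9337)) (K a211 (M a89 (F (L l194 (T t8926 (L l343 (L l473 (T t9209 (L l343 (L l486 (T t9219 N)))))))))) N))))))))))))) N)))))))))) (K a158 (M a146 (L l14 (F (T t9219 (L l374 (L l458 (T t9342 (K a24 (M a28 (L l356 (F (T t9331 (L l218 (L l510 (T t9332 (K a89 (Fr a219 a211 l245 (V t9219)) (K a219 (M a89 (F (T t9331 (L l70 (L l510 (L l512 (T t9333 N))))))) N))))))))) (K a28 (M a24 (L l374 (F (T t9331 (L l218 (L l510 (T t9332 (K a89 (Fr a211 a219 l245 (V t9338)) (K a211 (M a89 (F (L l343 (T t9331 (L l510 (L l512 (T t9333 N))))))) N))))))))) N))))))))) N)))))))))))) (K a146 (M a158 (L l350 (F (T t8942 (L l473 (T t9209 (L l194 (T t8926 (K a20 (M a215 (L l14 (F (T t8942 (L l194 (L l374 (L l458 (T t9342 (K a24 (Fr a28 a93 l362 (V t9223)) (K a28 (M a24 (L l374 (F (T t9336 (L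 l162 (L l164 (L l171 (L l342 (T t9335 (L l194 (T t9331 (K a89 (Fr a211 a219 l245 (V t9337)) (K a211 (M a89 (F (L l194 (T t8926 (L l343 (L l473 (T t9209 (L l343 (L l486 (T t9219 N)))))))))) N))))))))))))) N)))))))))) (K a215 (M a20 (F (T t9227 (L l374 (T t9343 N))))) N)))))))))) (K a158 (M a146 (L l350 (F (T t9337 (L l218 (L l510 (T t9332 (K a20 (M a215 (L l14 (F (T t9219 (L l374 (L l458 (T t9342 (K a24 (M a28 (L l356 (F (T t9331 (L l218 (L l510 (T t9332 (K a89 (Fr a219 a211 l245 (V t9219)) (K a219 (M a89 (F (T t9331 (L l70 (L l510 (L l512 (T t9333 N))))))) N))))))))) (K a28 (M a24 (L l374 (F (T t9331 (L l218 (L l510 (T t9332 (K a89 (Fr a211 a219 l245 (V t9338)) (K a211 (M a89 (F (L l343 (T t9331 (L l510 (L l512 (T t9333 N))))))) N))))))))) N))))))))) (K a215 (M a20 (F (T t9331 (L l218 (L l510 (T t9332 N)))))) N))))))))) (K a215 (M a20 (L l168 (F (T t8936 (L l473 (T t9209 (T t8926 (K a146 (M a158 (F (T t9227 (L l374 (T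 t9343 N))))) (K a158 (M a146 (F (T t9331 (L l218 (L l510 (T t9332 N)))))) N))))))))) N)))))))))))) (K a215 (M a20 (L l368 (F (T t8936 (L l473 (T t9209 (T t8926 (K a154 (M a223 (L l168 (F (T t8936 (L l473 (T t9209 (T t8926 (K a146 (M a158 (F (T t9227 (L l374 (T t9343 N))))) (K a158 (M a146 (F (T t9331 (L l218 (L l510 (T t9332 N)))))) N))))))))) (K a223 (M a154 (L l245 (F (T t9331 (T t8936 (T t8926 (K a211 (M a219 (L l374 (F (T t9344 (L l343 (T t8936 (K a28 (Fr a89 a24 l356 (V t8925)) (K a89 (M a28 (F (L l150 (T t8926 (L l95 (T t9345 N)))))) N)))))))) (K a219 (M a211 (F (T t9331 (T t9219 (T t8926 N))))) N)))))))) N))))))))) (K a223 (M a154 (L l350 (F (T t9331 (T t8936 (T t8926 (K a20 (M a215 (L l14 (F (T t9331 (T t8936 (T t8926 (K a24 (M a28 (F (T t9331 (T t8936 (T t8926 N))))) (K a28 (M a24 (L l362 (L l374 (F (T t8936 (L l46 (L l200 (L l289 (L l458 (T t9341 (K a89 (M a211 (L l362 (F (L l95 (T t9331 (L l150 (T t8926 (L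 l95 (T t9219 (K a93 (M a158 (F (L l95 (T t9219 (L l150 (T t8926 (L l95 (L l473 (T t9208 N))))))))) (K a158 (M a93 (F (L l95 (T t9331 (L l150 (T t8926 (L l95 (T t9219 N)))))))) N))))))))))) (K a93 (M a158 (L l374 (F (T t8936 (L l46 (L l200 (L l289 (L l458 (T t9341 (K a89 (M a211 (F (L l95 (T t9219 (L l150 (T t8926 (L l95 (L l473 (T t9208 N))))))))) (K a211 (Fr a89 a219 l356 (V t9337)) N))))))))))) (K a158 (M a93 (L l374 (F (T t8936 (L l46 (L l200 (L l289 (L l458 (L l506 (T t9341 (K a89 (M a211 (F (L l95 (T t9331 (L l150 (T t8926 (L l95 (T t9219 N)))))))) (K a211 (Fr a89 a219 l356 (V t8934)) N)))))))))))) (K a211 (Fr a89 a219 l356 (V t9209)) N)))))))))))))) N)))))))) (K a215 (M a20 (L l245 (F (T t9331 (T t8936 (T t8926 (K a211 (M a219 (L l374 (F (T t9344 (L l343 (T t8936 (K a28 (Fr a89 a24 l356 (V t8925)) (K a89 (M a28 (F (L l150 (T t8926 (L l95 (T t9345 N)))))) N)))))))) (K a219 (M a211 (F (T t9331 (T t9219 (T t8926 N)))))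 N)))))))) N)))))))) N)))))))))))))) (K a144 (M a84 (L l350 (F (L l484 (T t8912 (L l192 (L l458 (T t8913 (L l192 (L l518 (T t8861 (K a20 (M a215 (F (L l192 (T t8991 (L l484 (T t8912 (L l221 (L l484 (T t9107 N))))))))) (K a215 (M a20 (F (T t9328 (L l192 (T t8991 N))))) N))))))))))))) (K a96 (M a12 (L l350 (F (T t1488 (L l376 (T t2526 (L l376 (T t9132 (K a20 (M a215 (F (T t1488 (L l376 (T t2526 (L l376 (T t9132 N))))))) (K a215 (M a20 (F (T t1488 (L l239 (L l376 (T t9346 N)))))) N)))))))))) (K a160 (M a66 (L l350 (F (L l192 (L l518 (T t9347 (L l141 (L l376 (T t9348 (L l172 (L l192 (L l368 (L l376 (T t9349 (K a20 (M a215 (F (L l192 (L l518 (T t9347 (L l141 (L l376 (T t9350 (L l14 (L l172 (L l192 (L l368 (L l376 (T t9349 N)))))))))))))) (K a215 (M a20 (F (L l141 (L l376 (T t9350 (L l192 (L l349 (T t9351 N)))))))) N)))))))))))))))) (K a224 (M a252 (L l350 (F (L l518 (T t7648 (L l376 (T t8918 (L l252 (L l368 (L l376 (T t8972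 (K a20 (M a215 (F (L l376 (T t8918 (L l218 (L l252 (L l347 (L l516 (T t9352 N))))))))) (K a215 (M a20 (F (L l252 (T t9353 (L l203 (L l221 (L l376 (T t9354 N)))))))) N))))))))))))) (K a48 (M a84 (L l350 (F (T t8990 (L l458 (T t8913 (L l126 (L l484 (T t8911 (K a20 (M a215 (F (T t8915 (L l484 (T t8912 (L l221 (L l436 (L l484 (T t9107 N))))))))) (K a215 (M a20 (F (T t9355 (L l436 (T t8991 N))))) N))))))))))) (K a112 (M a12 (L l350 (F (T t2526 (L l458 (T t4021 (L l110 (T t9180 (K a20 (M a215 (F (T t2526 (L l46 (L l458 (T t4021 (L l110 (T t9180 N)))))))) (K a215 (M a20 (F (L l494 (T t9356 (L l110 (T t9180 N)))))) N)))))))))) (K a176 (Fr a192 a128 l304 (Fr a96 a112 l116 (Fr a240 a160 l448 (Fr a144 a48 l484 (V t9514))))) (K a240 (M a66 (L l350 (F (L l141 (T t9350 (L l218 (L l516 (T t9357 (L l368 (L l412 (T t9358 (K a20 (M a215 (F (L l141 (T t9350 (L l218 (L l516 (T t9357 (L l14 (L l368 (L l412 (T t9358 N))))))))))) (K a215 (M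 a20 (F (L l141 (T t9350 (L l349 (L l447 (T t9351 N))))))) N))))))))))))) (K a20 (M a215 (F (T t8884 (L l14 (L l368 (T t8881 (K a128 (M a84 (F (T t8912 (L l192 (T t8991 (T t9222 N)))))) (K a192 (M a84 (F (T t8915 (L l484 (L l514 (T t8912 (L l221 (L l484 (L l514 (T t9107 N)))))))))) (K a16 (M a81 (L l14 (L l368 (F (T t8936 (L l473 (T t9209 (T t8926 (K a24 (M a28 (L l368 (F (T t8936 (L l473 (T t9209 (T t8926 (K a154 (M a223 (L l168 (L l356 (F (T t9219 (L l518 (T t9330 (K a89 (Fr a219 a211 l245 (V t8934)) (K a146 (Fr a158 a93 l362 (V t9223)) (K a158 (M a146 (L l356 (F (T t9331 (L l218 (L l510 (T t9332 (K a89 (Fr a219 a211 l245 (V t9219)) (K a219 (M a89 (F (T t9331 (L l70 (L l510 (L l512 (T t9333 N))))))) N))))))))) (K a219 (M a89 (L l168 (F (T t9331 (T t9219 (T t8926 (K a146 (Fr a158 a93 l362 (V t8936)) (K a158 (M a146 (F (T t9331 (L l70 (L l510 (L l512 (T t9333 N))))))) N)))))))) N))))))))))) (K a223 (M a154 (F (T t9331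 (T t8936 (T t8926 N))))) N))))))))) (K a28 (M a24 (L l368 (L l374 (F (T t9331 (T t8936 (T t8926 (K a89 (M a211 (L l368 (F (L l150 (T t8926 (L l11 (L l171 (T t9334 (K a154 (Fr a223 a219 l245 (V t8934)) (K a223 (M a154 (L l362 (F (L l95 (T t9331 (L l150 (T t8926 (L l95 (T t9219 (K a93 (M a158 (F (L l95 (T t9219 (L l150 (T t8926 (L l95 (L l473 (T t9208 N))))))))) (K a158 (M a93 (F (L l95 (T t9331 (L l150 (T t8926 (L l95 (T t9219 N)))))))) N))))))))))) N)))))))))) (K a154 (M a223 (L l168 (L l374 (F (T t9223 (L l164 (L l171 (T t9335 (K a89 (Fr a211 a219 l245 (V t8934)) (K a146 (M a158 (L l374 (F (T t9336 (L l162 (L l164 (L l171 (L l342 (T t9335 (L l194 (T t9331 (K a89 (Fr a211 a219 l245 (V t9337)) (K a211 (M a89 (F (L l194 (T t8926 (L l343 (L l473 (T t9209 (L l343 (L l486 (T t9219 N)))))))))) N))))))))))))) (K a158 (M a146 (L l374 (F (T t9331 (L l218 (L l510 (T t9332 (K a89 (Fr a211 a219 l245 (V t9338)) (K a211 (M a89 (F (L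 l343 (T t9331 (L l510 (L l512 (T t9333 N))))))) N))))))))) (K a211 (M a89 (L l168 (F (T t8926 (L l141 (L l343 (T t9339 (L l343 (L l473 (T t9209 (K a146 (M a158 (F (L l194 (T t8926 (L l343 (L l473 (T t9209 (L l343 (L l486 (T t9219 N)))))))))) (K a158 (M a146 (F (L l343 (T t9331 (L l510 (L l512 (T t9333 N))))))) N)))))))))))) N)))))))))))) (K a211 (M a89 (L l368 (F (L l343 (T t8936 (L l46 (L l200 (L l458 (T t9340 (K a154 (M a223 (L l168 (F (T t8926 (L l141 (L l343 (T t9339 (L l343 (L l473 (T t9209 (K a146 (M a158 (F (L l194 (T t8926 (L l343 (L l473 (T t9209 (L l343 (L l486 (T t9219 N)))))))))) (K a158 (M a146 (F (L l343 (T t9331 (L l510 (L l512 (T t9333 N))))))) N)))))))))))) (K a223 (Fr a154 a219 l356 (V t9209)) N))))))))))) (K a223 (M a154 (L l362 (L l374 (F (T t8936 (L l46 (L l200 (L l289 (L l458 (T t9341 (K a89 (M a211 (L l362 (F (L l95 (T t9331 (L l150 (T t8926 (L l95 (T t9219 (K a93 (M a158 (F (L l95 (T t9219 (L l150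 (T t8926 (L l95 (L l473 (T t9208 N))))))))) (K a158 (M a93 (F (L l95 (T t9331 (L l150 (T t8926 (L l95 (T t9219 N)))))))) N))))))))))) (K a93 (M a158 (L l374 (F (T t8936 (L l46 (L l200 (L l289 (L l458 (T t9341 (K a89 (M a211 (F (L l95 (T t9219 (L l150 (T t8926 (L l95 (L l473 (T t9208 N))))))))) (K a211 (Fr a89 a219 l356 (V t9337)) N))))))))))) (K a158 (M a93 (L l374 (F (T t8936 (L l46 (L l200 (L l289 (L l458 (L l506 (T t9341 (K a89 (M a211 (F (L l95 (T t9331 (L l150 (T t8926 (L l95 (T t9219 N)))))))) (K a211 (Fr a89 a219 l356 (V t8934)) N)))))))))))) (K a211 (Fr a89 a219 l356 (V t9209)) N)))))))))))))) N))))))))))) (K a154 (M a223 (L l14 (L l168 (F (T t9219 (L l374 (L l518 (T t9330 (K a24 (M a28 (L l168 (L l356 (F (T t9219 (L l518 (T t9330 (K a89 (Fr a219 a211 l245 (V t8934)) (K a146 (Fr a158 a93 l362 (V t9223)) (K a158 (M a146 (L l356 (F (T t9331 (L l218 (L l510 (T t9332 (K a89 (Fr a219 a211 l245 (V t9219)) (K a219 (M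 a89 (F (T t9331 (L l70 (L l510 (L l512 (T t9333 N))))))) N))))))))) (K a219 (M a89 (L l168 (F (T t9331 (T t9219 (T t8926 (K a146 (Fr a158 a93 l362 (V t8936)) (K a158 (M a146 (F (T t9331 (L l70 (L l510 (L l512 (T t9333 N))))))) N)))))))) N))))))))))) (K a28 (M a24 (L l168 (L l374 (F (T t9223 (L l164 (L l171 (T t9335 (K a89 (Fr a211 a219 l245 (V t8934)) (K a146 (M a158 (L l374 (F (T t9336 (L l162 (L l164 (L l171 (L l342 (T t9335 (L l194 (T t9331 (K a89 (Fr a211 a219 l245 (V t9337)) (K a211 (M a89 (F (L l194 (T t8926 (L l343 (L l473 (T t9209 (L l343 (L l486 (T t9219 N)))))))))) N))))))))))))) (K a158 (M a146 (L l374 (F (T t9331 (L l218 (L l510 (T t9332 (K a89 (Fr a211 a219 l245 (V t9338)) (K a211 (M a89 (F (L l343 (T t9331 (L l510 (L l512 (T t9333 N))))))) N))))))))) (K a211 (M a89 (L l168 (F (T t8926 (L l141 (L l343 (T t9339 (L l343 (L l473 (T t9209 (K a146 (M a158 (F (L l194 (T t8926 (L l343 (L l473 (T t9209 (L l343 (L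 l486 (T t9219 N)))))))))) (K a158 (M a146 (F (L l343 (T t9331 (L l510 (L l512 (T t9333 N))))))) N)))))))))))) N)))))))))))) (K a146 (M a158 (L l14 (F (T t8942 (L l194 (L l374 (L l458 (T t9342 (K a24 (Fr a28 a93 l362 (V t9223)) (K a28 (M a24 (L l374 (F (T t9336 (L l162 (L l164 (L l171 (L l342 (T t9335 (L l194 (T t9331 (K a89 (Fr a211 a219 l245 (V t9337)) (K a211 (M a89 (F (L l194 (T t8926 (L l343 (L l473 (T t9209 (L l343 (L l486 (T t9219 N)))))))))) N))))))))))))) N)))))))))) (K a158 (M a146 (L l14 (F (T t9219 (L l374 (L l458 (T t9342 (K a24 (M a28 (L l356 (F (T t9331 (L l218 (L l510 (T t9332 (K a89 (Fr a219 a211 l245 (V t9219)) (K a219 (M a89 (F (T t9331 (L l70 (L l510 (L l512 (T t9333 N))))))) N))))))))) (K a28 (M a24 (L l374 (F (T t9331 (L l218 (L l510 (T t9332 (K a89 (Fr a211 a219 l245 (V t9338)) (K a211 (M a89 (F (L l343 (T t9331 (L l510 (L l512 (T t9333 N))))))) N))))))))) N))))))))) N)))))))))))) (K a223 (M a154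 (L l14 (F (T t9331 (T t8936 (T t8926 (K a24 (M a28 (F (T t9331 (T t8936 (T t8926 N))))) (K a28 (M a24 (L l362 (L l374 (F (T t8936 (L l46 (L l200 (L l289 (L l458 (T t9341 (K a89 (M a211 (L l362 (F (L l95 (T t9331 (L l150 (T t8926 (L l95 (T t9219 (K a93 (M a158 (F (L l95 (T t9219 (L l150 (T t8926 (L l95 (L l473 (T t9208 N))))))))) (K a158 (M a93 (F (L l95 (T t9331 (L l150 (T t8926 (L l95 (T t9219 N)))))))) N))))))))))) (K a93 (M a158 (L l374 (F (T t8936 (L l46 (L l200 (L l289 (L l458 (T t9341 (K a89 (M a211 (F (L l95 (T t9219 (L l150 (T t8926 (L l95 (L l473 (T t9208 N))))))))) (K a211 (Fr a89 a219 l356 (V t9337)) N))))))))))) (K a158 (M a93 (L l374 (F (T t8936 (L l46 (L l200 (L l289 (L l458 (L l506 (T t9341 (K a89 (M a211 (F (L l95 (T t9331 (L l150 (T t8926 (L l95 (T t9219 N)))))))) (K a211 (Fr a89 a219 l356 (V t8934)) N)))))))))))) (K a211 (Fr a89 a219 l356 (V t9209)) N)))))))))))))) N)))))))) N)))))))))))) (K a144 (M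 a84 (F (L l192 (T t8991 (L l484 (T t8912 (L l221 (L l484 (T t9107 N))))))))) (K a96 (M a12 (F (T t1488 (L l376 (T t2526 (L l376 (T t9132 N))))))) (K a160 (M a72 (F (L l192 (T t8975 (L l126 (L l376 (T t8978 (L l14 (L l176 (L l192 (L l368 (L l376 (T t9359 N))))))))))))) (K a224 (M a252 (F (L l376 (T t8918 (L l218 (L l252 (L l347 (L l516 (T t9352 N))))))))) (K a48 (M a84 (F (T t8915 (L l484 (T t8912 (L l221 (L l436 (L l484 (T t9107 N))))))))) (K a112 (M a12 (F (T t2526 (L l46 (L l458 (T t4021 (L l110 (T t9180 N)))))))) (K a176 (Fr a192 a128 l304 (Fr a96 a112 l116 (Fr a240 a160 l448 (Fr a144 a48 l484 (V t9514))))) (K a240 (M a81 (F (T t9219 (L l258 (T t9223 (L l453 (L l473 (T t9360 N)))))))) N))))))))))))))))) (K a215 (M a20 (F (T t8884 (L l203 (L l221 (T t9361 (L l239 (L l374 (T t9362 (L l239 (T t9363 N))))))))))) N)))))))))))))))))))⟩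
def e0_64__85_48 : Ent 4 := ⟨[a0, a64], [a85, a151], (M a80 (F (T t8884 (L l368 (T t8881 (K a128 (M a84 (F (T t8912 (L l192 (L l458 (T t8913 (L l192 (T t8914 N)))))))) (K a192 (M a84 (F (T t8915 (L l126 (L l484 (T t8911 (L l484 (L l514 (T t8914 N))))))))) (K a16 (M a252 (L l368 (F (T t8916 (T t8917 (K a154 (M a223 (F (T t8918 (T t7648 (T t8919 N))))) (K a223 (M a154 (F (T t8916 (L l246 (T t8917 N))))) N))))))) (K a144 (M a84 (F (L l484 (T t8912 (L l192 (L l458 (T t8913 (L l163 (L l166 (L l192 (L l350 (T t3307 N)))))))))))) (K a96 (M a84 (F (T t8861 (L l376 (L l458 (T t8913 (L l376 (T t8882 N)))))))) (K a160 (M a84 (F (L l376 (T t8912 (L l163 (L l192 (L l350 (T t3307 (L l176 (L l192 (L l368 (T t8920 N)))))))))))) (K a224 (M a84 (F (T t8861 (L l126 (L l376 (T t8911 (L l376 (L l458 (T t8921 N))))))))) (K a48 (M a84 (F (T t8915 (L l126 (L l484 (T t8911 (L l163 (L l350 (T t3307 N))))))))) (K a112 (M a84 (F (T t8922 (L l110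 (L l163 (L l350 (T t3307 (L l110 (T t8882 N))))))))) (K a176 (Fr a192 a128 l304 (Fr a96 a112 l116 (Fr a240 a160 l448 (Fr a144 a48 l484 (V t9514))))) (K a240 (M a84 (F (T t8912 (L l163 (L l350 (T t3307 (L l458 (L l478 (T t8924 N))))))))) N))))))))))))))))⟩
def e0_64__85_49 : Ent 4 := ⟨[a0, a64], [a85, a154], (M a68 (L l368 (F (T t8992 (L l458 (T t8993 (K a128 (M a69 (L l368 (F (T t9364 (L l156 (L l473 (T t9365 (L l156 (T t9366 (K a16 (M a223 (F (T t9364 (L l156 (L l473 (T t9365 (L l156 (T t9366 N)))))))) (K a223 (M a16 (F (T t9364 (L l156 (L l473 (T t9367 (T t9011 N))))))) N))))))))))) (K a192 (M a207 (L l368 (F (L l206 (L l309 (T t9368 (L l224 (L l334 (L l510 (T t9369 (L l141 (L l206 (L l334 (T t9370 (K a16 (M a223 (F (L l292 (L l364 (T t9371 (L l141 (L l206 (L l334 (T t9370 N))))))))) (K a223 (M a16 (F (L l206 (L l309 (T t9368 (L l164 (L l227 (L l334 (T t9372 (L l141 (L l206 (L l334 (T t9370 N))))))))))))) N))))))))))))))))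 (K a4 (M a3 (L l368 (L l458 (F (T t9373 (L l512 (T t9374 (T t9375 (K a16 (M a223 (L l458 (F (T t9373 (L l512 (T t9374 (T t9375 (K a166 (M a247 (L l224 (F (T t9373 (L l512 (T t9374 (T t9375 (K a178 (M a142 (F (T t9373 (L l512 (T t9374 (T t9375 N)))))) (K a142 (M a178 (F (T t9373 (L l326 (L l512 (T t9374 (L l324 (T t9375 N)))))))) N))))))))) (K a247 (M a166 (F (T t9373 (L l512 (T t9374 (T t9375 N)))))) N))))))))) (K a166 (M a247 (L l224 (L l368 (F (T t9373 (L l512 (T t9374 (T t9375 (K a16 (M a223 (L l224 (F (T t9373 (L l512 (T t9374 (T t9375 (K a178 (M a142 (F (T t9373 (L l512 (T t9374 (T t9375 N)))))) (K a142 (M a178 (F (T t9373 (L l326 (L l512 (T t9374 (L l324 (T t9375 N)))))))) N))))))))) (K a178 (M a142 (L l368 (F (T t9373 (L l512 (T t9374 (T t9375 (K a16 (M a223 (F (T t9373 (L l512 (T t9374 (T t9375 N)))))) (K a223 (M a16 (F (L l367 (T t839 (T t9376 N))))) N))))))))) (K a142 (M a178 (L l368 (F (T t9373 (L l326 (L l512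 (T t9374 (L l324 (T t9375 (K a16 (M a223 (F (T t9373 (L l326 (L l512 (T t9374 (L l324 (T t9375 N)))))))) (K a223 (M a16 (F (L l367 (T t839 (T t9376 N))))) N))))))))))) (K a223 (M a16 (L l224 (F (L l367 (T t839 (T t9376 (K a178 (M a142 (F (L l367 (T t839 (T t9376 N))))) (K a142 (M a178 (F (L l367 (T t839 (T t9376 N))))) N)))))))) N)))))))))))) (K a247 (M a166 (L l368 (F (T t9373 (L l512 (T t9374 (T t9375 (K a16 (M a223 (F (T t9373 (L l512 (T t9374 (T t9375 N)))))) (K a223 (M a16 (F (L l367 (T t839 (T t9376 N))))) N))))))))) (K a223 (M a16 (L l458 (F (L l367 (T t839 (T t9376 (K a166 (M a247 (L l224 (F (L l367 (T t839 (T t9376 (K a178 (M a142 (F (L l367 (T t839 (T t9376 N))))) (K a142 (M a178 (F (L l367 (T t839 (T t9376 N))))) N)))))))) (K a247 (M a166 (F (L l367 (T t839 (T t9376 N))))) N)))))))) N)))))))))))) (K a132 (M a74 (L l368 (F (L l141 (T t9377 (L l156 (L l206 (L l498 (T t3996 (L l153 (L l156 (L l500 (T t9378 (K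 a16 (M a223 (F (L l141 (T t9377 (L l156 (L l206 (T t3993 (L l153 (L l156 (L l500 (T t9378 N))))))))))) (K a223 (M a16 (F (L l141 (T t9377 (L l153 (L l156 (L l361 (T t9379 N)))))))) N))))))))))))))) (K a72 (M a3 (L l368 (F (T t9373 (L l316 (L l512 (T t9374 (L l316 (T t9375 (K a16 (M a223 (F (T t9373 (L l316 (L l512 (T t9374 (L l316 (T t9375 N)))))))) (K a223 (M a16 (F (L l367 (T t839 (L l316 (T t9376 N)))))) N))))))))))) (K a136 (M a84 (L l368 (F (L l316 (T t8899 (L l156 (L l350 (T t3307 (L l156 (L l204 (L l458 (T t9380 (K a16 (M a223 (F (L l316 (T t9381 (L l156 (T t8970 (L l156 (L l204 (L l458 (T t9380 N)))))))))) (K a223 (M a16 (F (T t9382 (L l156 (T t8970 N))))) N)))))))))))))) (K a200 (M a3 (L l368 (F (T t9373 (L l316 (L l321 (L l512 (T t9374 (L l316 (L l321 (T t9375 (K a16 (M a223 (F (T t9373 (L l316 (L l321 (L l512 (T t9374 (L l316 (L l321 (T t9375 N)))))))))) (K a223 (M a16 (F (L l367 (T t839 (L l316 (L l321 (T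 t9376 N))))))) N))))))))))))) (K a12 (M a84 (L l368 (F (T t8996 (L l94 (L l334 (L l478 (T t8892 (L l350 (T t3307 (K a16 (M a223 (F (T t8990 (L l94 (L l340 (T t9383 (T t9384 N))))))) (K a223 (M a16 (F (T t9385 (L l466 (T t8970 N))))) N)))))))))))) (K a76 (M a3 (L l368 (F (L l512 (T t9374 (L l473 (T t9386 (L l79 (T t9376 (K a16 (M a223 (F (L l512 (T t9374 (L l473 (T t9386 (L l79 (T t9376 N)))))))) (K a223 (M a16 (F (L l367 (T t839 (L l79 (T t9376 N)))))) N))))))))))) (K a140 (Fr a192 a128 l304 (Fr a72 a76 l80 (Fr a204 a136 l328 (Fr a132 a12 l334 (V t9518))))) (K a204 (M a66 (L l368 (F (T t9357 (L l141 (L l327 (T t9387 (L l322 (L l458 (T t9388 (K a16 (M a223 (F (T t9357 (L l141 (T t9389 (L l322 (L l458 (T t9388 N)))))))) (K a223 (M a16 (F (L l141 (T t9389 (L l367 (L l513 (T t9390 N))))))) N)))))))))))) (K a16 (M a223 (F (T t8992 (L l458 (T t8993 (K a128 (M a207 (F (L l156 (L l364 (T t9371 (L l141 (L l160 (L l206 (T t9370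 N))))))))) (K a192 (M a207 (F (L l292 (L l364 (T t9371 (L l141 (L l206 (L l334 (T t9370 N))))))))) (K a4 (M a207 (L l458 (F (L l206 (T t9391 (L l364 (T t9371 (K a166 (M a247 (L l224 (F (L l206 (T t9391 (L l364 (T t9371 (K a178 (M a142 (F (L l206 (T t9391 (L l364 (T t9371 N)))))) (K a142 (M a178 (F (L l158 (L l206 (T t9391 (L l364 (T t9371 N))))))) N))))))))) (K a247 (M a166 (F (L l206 (T t9368 (L l340 (T t9392 N)))))) N))))))))) (K a132 (M a207 (F (L l156 (L l340 (T t9392 (L l141 (L l206 (T t9393 N)))))))) (K a72 (M a207 (F (L l206 (T t9391 (L l316 (L l364 (T t9371 N))))))) (K a136 (M a207 (F (L l156 (L l340 (T t9392 (L l141 (L l154 (L l206 (L l316 (T t9370 N)))))))))) (K a200 (M a207 (F (L l206 (T t9391 (L l316 (L l364 (T t9371 N))))))) (K a12 (M a207 (F (L l3 (L l206 (T t9391 (L l364 (L l466 (T t9371 N)))))))) (K a76 (M a207 (F (L l206 (T t9368 (L l340 (T t9392 N)))))) (K a140 (Fr a192 a128 l304 (Fr a72 a76 l80 (Fr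 a204 a136 l328 (Fr a132 a12 l334 (V t9518))))) (K a204 (M a207 (F (L l298 (L l340 (T t9392 (L l141 (L l206 (T t9370 N)))))))) N)))))))))))))))) (K a223 (M a16 (F (T t8992 (L l94 (L l170 (T t9394 (L l164 (L l227 (T t9372 (L l164 (T t9395 N))))))))))) N)))))))))))))))))))⟩
def e0_64__85_50 : Ent 4 := ⟨[a0, a64], [a85, a155], (M a68 (F (T t8992 (L l458 (T t8993 (K a128 (M a84 (F (T t8899 (L l156 (L l164 (L l368 (T t8994 (L l156 (T t8995 N))))))))) (K a192 (M a84 (F (T t8996 (L l94 (L l334 (T t8892 (L l334 (L l514 (T t8995 N))))))))) (K a4 (M a252 (L l458 (F (T t8997 (T t8998 (K a166 (M a247 (F (T t8999 (T t7648 (T t9000 N))))) (K a247 (M a166 (F (T t8997 (L l278 (T t8998 N))))) N))))))) (K a132 (M a84 (F (L l334 (T t8899 (L l156 (L l164 (L l368 (T t8994 (L l156 (L l198 (L l350 (T t3307 N)))))))))))) (K a72 (M a48 (F (T t363 (L l164 (L l316 (T t1474 (L l164 (L l316 (T t9001 N))))))))) (K a136 (M a96 (F (L l156 (T t8937 (L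 l94 (L l316 (T t9002 (L l156 (L l164 (L l204 (L l316 (L l458 (T t9003 N))))))))))))) (K a200 (M a96 (F (T t8937 (L l94 (L l316 (T t9002 (L l164 (L l316 (L l496 (T t9015 N)))))))))) (K a12 (M a48 (F (L l478 (T t363 (L l164 (L l466 (T t1474 (L l164 (T t9001 N))))))))) (K a76 (M a84 (F (T t9396 (L l134 (L l350 (T t3307 (L l134 (T t8893 N)))))))) (K a140 (Fr a192 a128 l304 (Fr a72 a76 l80 (Fr a204 a136 l328 (Fr a132 a12 l334 (V t9518))))) (K a204 (M a96 (F (T t8937 (L l94 (T t9002 (L l322 (L l458 (T t9008 N)))))))) N))))))))))))))))⟩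
def e0_64__85_51 : Ent 4 := ⟨[a0, a64], [a85, a159], (M a68 (F (T t8992 (L l458 (T t8993 (K a128 (M a84 (F (T t8899 (L l156 (L l368 (T t8994 (L l156 (L l165 (T t8995 N))))))))) (K a192 (M a84 (F (T t8996 (L l94 (L l334 (T t8892 (L l165 (L l334 (L l514 (T t8995 N)))))))))) (K a4 (M a252 (L l458 (F (T t8997 (T t8998 (K a166 (M a247 (F (T t8999 (T t7648 (T t9000 N))))) (K a247 (M a166 (F (T t8997 (L l278 (T t8998 N))))) N))))))) (K a132 (M a84 (F (L l334 (T t8899 (L l156 (L l368 (T t8994 (L l156 (L l198 (L l350 (T t3307 N))))))))))) (K a72 (M a48 (F (L l316 (T t1474 (L l170 (T t363 (L l316 (T t9001 N)))))))) (K a136 (M a96 (F (L l156 (T t8937 (L l94 (L l316 (T t9002 (L l156 (L l170 (L l204 (L l316 (L l458 (T t9003 N))))))))))))) (K a200 (M a96 (F (T t8937 (L l94 (L l316 (T t9002 (L l170 (L l316 (L l496 (T t9015 N)))))))))) (K a12 (M a48 (F (L l466 (T t1474 (L l170 (L l478 (T t363 (T t9001 N)))))))) (K a76 (M a48 (F (T t1474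 (L l170 (L l368 (T t1184 (L l134 (T t9006 N)))))))) (K a140 (Fr a192 a128 l304 (Fr a72 a76 l80 (Fr a204 a136 l328 (Fr a132 a12 l334 (V t9518))))) (K a204 (M a96 (F (T t8937 (L l94 (T t9002 (L l170 (L l322 (L l458 (T t9008 N))))))))) N))))))))))))))))⟩
def e0_64__85_52 : Ent 4 := ⟨[a0, a64], [a85, a170], (M a80 (F (L l220 (T t9061 (L l368 (T t9063 (L l180 (L l220 (T t8884 (K a128 (M a84 (L l220 (F (T t8912 (L l180 (L l192 (L l458 (T t8913 (L l180 (L l192 (T t8914 (K a149 (M a191 (L l347 (F (T t8912 (L l180 (L l192 (T t8991 (L l404 (T t9222 (K a21 (M a213 (F (T t8910 (L l180 (L l192 (T t8991 (L l180 (L l192 (T t8914 N))))))))) (K a213 (M a21 (F (T t8910 (L l180 (L l192 (T t8991 (L l180 (L l192 (T t8914 N))))))))) N))))))))))) (K a191 (M a149 (F (T t8910 (L l180 (L l192 (T t8991 (L l404 (T t9222 N)))))))) N))))))))))))) (K a192 (M a84 (F (L l484 (T t8910 (L l180 (L l458 (T t8913 (L l180 (L l484 (L l514 (T t8914 N)))))))))))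 (K a16 (M a252 (L l368 (F (L l174 (T t8916 (L l180 (L l220 (T t8917 (K a154 (M a223 (L l206 (F (L l174 (L l180 (T t8918 (L l174 (L l220 (T t7648 (L l180 (L l220 (T t8919 (K a138 (M a186 (F (L l174 (L l180 (T t8918 (L l160 (L l174 (L l220 (T t7648 (L l160 (L l180 (L l220 (T t8919 N))))))))))))) (K a186 (M a138 (F (L l220 (L l512 (T t9397 (L l174 (L l180 (T t8918 N)))))))) N)))))))))))))) (K a223 (M a154 (F (L l174 (T t8916 (L l180 (L l220 (L l246 (T t8917 N)))))))) N)))))))))) (K a144 (M a84 (F (L l484 (T t8912 (L l180 (L l192 (L l458 (T t8913 (L l166 (L l192 (L l220 (L l350 (T t3307 N))))))))))))) (K a96 (M a84 (F (L l220 (T t8970 (L l180 (L l376 (L l458 (T t8913 (L l180 (L l376 (T t8882 N))))))))))) (K a160 (M a72 (L l180 (F (L l458 (T t9398 (L l126 (L l376 (T t8976 (L l176 (L l192 (L l220 (L l368 (L l376 (T t9359 (K a165 (M a175 (L l455 (F (L l458 (T t9398 (L l126 (L l376 (T t8978 (L l173 (L l176 (L l192 (L l220 (L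 l368 (L l376 (L l411 (T t9359 (K a5 (M a245 (F (L l192 (L l220 (T t9399 (L l126 (L l376 (T t8978 (L l173 (L l176 (L l192 (L l220 (L l368 (L l376 (L l411 (T t9359 N)))))))))))))))) (K a245 (M a5 (F (L l126 (L l376 (T t8976 (L l192 (L l199 (L l220 (L l462 (L l479 (T t9400 N))))))))))) N)))))))))))))))))) (K a175 (M a165 (F (L l458 (T t9398 (L l126 (L l376 (T t8978 (L l176 (L l192 (L l220 (L l368 (L l376 (T t9359 N))))))))))))) N)))))))))))))))) (K a224 (M a84 (F (L l376 (T t8910 (L l220 (L l350 (T t3307 (L l180 (L l376 (L l458 (T t8921 N))))))))))) (K a48 (M a84 (F (L l484 (T t8912 (L l180 (L l458 (T t8913 (L l220 (L l350 (T t3307 N)))))))))) (K a112 (M a84 (F (L l180 (T t8991 (L l110 (L l220 (L l350 (T t3307 (L l110 (L l180 (T t8882 N))))))))))) (K a176 (Fr a192 a128 l304 (Fr a96 a112 l116 (Fr a240 a160 l448 (Fr a144 a48 l484 (V t9514))))) (K a240 (M a84 (F (T t8912 (L l220 (L l350 (T t3307 (L l174 (L l220 (L l458 (L l478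 (T t8924 N))))))))))) N))))))))))))))))))))⟩
def e0_64__85_53 : Ent 4 := ⟨[a0, a64], [a85, a171], (M a80 (F (T t8884 (L l368 (T t8881 (K a128 (M a84 (F (T t8912 (L l192 (L l458 (T t8913 (L l192 (T t8914 N)))))))) (K a192 (M a84 (F (L l484 (T t8910 (L l458 (T t8913 (L l484 (L l514 (T t8914 N))))))))) (K a16 (M a252 (L l368 (F (L l174 (T t8916 (T t8917 (K a154 (M a223 (F (L l174 (T t8918 (L l174 (T t7648 (T t8919 N))))))) (K a223 (M a154 (F (L l174 (T t8916 (L l246 (T t8917 N)))))) N)))))))) (K a144 (M a84 (F (L l484 (T t8912 (L l192 (L l458 (T t8913 (L l166 (L l192 (L l350 (T t3307 N))))))))))) (K a96 (M a84 (F (T t8970 (L l376 (L l458 (T t8913 (L l376 (T t8882 N)))))))) (K a160 (M a84 (F (L l376 (T t8912 (L l192 (L l350 (T t3307 (L l174 (L l176 (L l192 (L l368 (T t8920 N)))))))))))) (K a224 (M a84 (F (T t8970 (L l126 (L l376 (T t8911 (L l376 (L l458 (T t8921 N))))))))) (K a48 (M a84 (F (L l484 (T t8912 (L l458 (T t8913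 (L l350 (T t3307 N)))))))) (K a112 (M a84 (F (T t8991 (L l110 (L l350 (T t3307 (L l110 (T t8882 N)))))))) (K a176 (Fr a192 a128 l304 (Fr a96 a112 l116 (Fr a240 a160 l448 (Fr a144 a48 l484 (V t9514))))) (K a240 (M a84 (F (T t8912 (L l350 (T t3307 (L l174 (L l458 (L l478 (T t8924 N))))))))) N))))))))))))))))⟩
def e0_64__85_54 : Ent 4 := ⟨[a0, a64], [a85, a175], (M a68 (F (T t8992 (L l458 (T t8993 (K a128 (M a84 (F (T t8899 (L l156 (L l368 (T t8994 (L l156 (T t8995 N)))))))) (K a192 (M a84 (F (T t8996 (L l94 (L l334 (T t8892 (L l334 (L l514 (T t8995 N))))))))) (K a4 (M a252 (L l458 (F (T t8997 (T t8998 (K a166 (M a247 (F (T t8999 (T t7648 (T t9000 N))))) (K a247 (M a166 (F (T t8997 (L l278 (T t8998 N))))) N))))))) (K a132 (M a84 (F (L l334 (T t8899 (L l156 (L l368 (T t8994 (L l156 (L l198 (L l350 (T t3307 N))))))))))) (K a72 (M a48 (F (T t363 (L l316 (T t1474 (L l316 (T t9001 N))))))) (K a136 (M a96 (F (L l156 (T t9089 (L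 l94 (L l316 (T t9002 (L l156 (L l204 (L l316 (L l458 (T t9003 N)))))))))))) (K a200 (M a96 (F (T t9089 (L l94 (L l316 (T t9002 (L l316 (L l496 (T t9015 N))))))))) (K a12 (M a48 (F (L l478 (T t363 (L l466 (T t1474 (T t9001 N))))))) (K a76 (M a48 (F (T t1474 (L l368 (T t1184 (L l134 (T t9006 N))))))) (K a140 (Fr a192 a128 l304 (Fr a72 a76 l80 (Fr a204 a136 l328 (Fr a132 a12 l334 (V t9518))))) (K a204 (M a96 (F (L l180 (T t8937 (L l94 (T t9002 (L l322 (L l458 (T t9008 N))))))))) N))))))))))))))))⟩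
def e0_64__85_55 : Ent 4 := ⟨[a0, a64], [a85, a191], (M a80 (F (L l220 (T t8884 (L l368 (T t9063 (L l220 (L l368 (T t8881 (K a128 (M a168 (L l220 (F (L l192 (T t9019 (L l126 (T t9020 (L l192 (L l368 (T t9021 (K a149 (M a170 (L l347 (F (L l126 (T t9020 (L l196 (L l213 (L l219 (T t9022 (K a21 (M a213 (F (L l126 (T t9020 (L l196 (L l213 (L l219 (T t9022 N)))))))) (K a213 (M a21 (F (L l126 (T t9020 (L l196 (L l213 (L l219 (T t9022 N)))))))) N))))))))))) (K a170 (M a149 (F (L l458 (T t9401 (L l192 (L l368 (T t9021 (L l126 (T t9020 N))))))))) N)))))))))))) (K a192 (M a84 (F (T t8915 (L l126 (L l484 (T t8911 (L l484 (L l514 (T t8914 N))))))))) (K a16 (M a252 (L l368 (F (T t8916 (L l220 (T t8917 (K a154 (M a223 (F (T t8918 (L l220 (T t7648 (L l220 (T t8919 N))))))) (K a223 (M a154 (F (T t8916 (L l220 (L l246 (T t8917 N)))))) N)))))))) (K a144 (M a84 (F (L l484 (T t8912 (L l192 (L l458 (T t8913 (L l166 (L l192 (L l220 (L l350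 (T t3307 N)))))))))))) (K a96 (M a84 (F (L l376 (T t8922 (L l220 (L l350 (T t3307 (L l376 (T t8882 N))))))))) (K a160 (M a84 (F (L l376 (T t8912 (L l192 (L l220 (L l350 (T t3307 (L l176 (L l192 (L l220 (L l368 (T t8920 N))))))))))))) (K a224 (M a84 (F (L l376 (T t8910 (L l220 (L l350 (T t3307 (L l376 (L l458 (T t8921 N)))))))))) (K a48 (M a84 (F (T t8915 (L l126 (L l484 (T t8911 (L l220 (L l350 (T t3307 N))))))))) (K a112 (M a84 (F (T t8922 (L l110 (L l220 (L l350 (T t3307 (L l110 (T t8882 N))))))))) (K a176 (Fr a192 a128 l304 (Fr a96 a112 l116 (Fr a240 a160 l448 (Fr a144 a48 l484 (V t9514))))) (K a240 (M a84 (F (T t8912 (L l220 (L l350 (T t3307 (L l220 (L l458 (L l478 (T t8924 N)))))))))) N))))))))))))))))))))⟩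
def e0_64__85_56 : Ent 4 := ⟨[a0, a64], [a85, a193], (M a81 (F (T t8926 (L l365 (L l485 (T t8925 (K a128 (M a80 (F (T t9219 (L l192 (T t9337 (L l192 (T t9226 N))))))) (K a192 (M a195 (F (T t9402 (L l94 (T t9403 (L l489 (T t9404 N))))))) (K a17 (M a80 (L l365 (F (T t9219 (L l10 (L l368 (T t8881 (L l41 (L l305 (L l473 (T t9208 (K a153 (M a221 (F (T t9331 (L l485 (T t8936 (L l10 (L l368 (T t8881 N)))))))) (K a221 (M a153 (F (T t9331 (L l485 (T t8936 (L l10 (L l368 (T t8881 N)))))))) N))))))))))))) (K a145 (M a97 (F (T t9405 (L l94 (T t9406 (L l162 (L l196 (T t9407 N)))))))) (K a98 (M a160 (F (T t9175 (L l94 (L l118 (T t9408 (L l228 (L l489 (T t9409 N))))))))) (K a162 (M a80 (F (T t8942 (L l196 (L l368 (T t8881 (L l172 (T t8935 N)))))))) (K a226 (M a80 (F (T t8884 (L l141 (L l305 (L l485 (T t8934 (L l305 (L l473 (T t9208 N)))))))))) (K a51 (M a80 (F (T t9218 (L l489 (T t9219 (L l368 (T t8881 N))))))) (K a115 (M a160 (F (L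 l106 (T t9175 (L l94 (L l415 (T t9408 (L l228 (L l415 (T t9410 N)))))))))) (K a179 (Fr a192 a128 l304 (Fr a98 a115 l120 (Fr a243 a162 l452 (Fr a145 a51 l489 (V t9516))))) (K a243 (M a80 (F (T t8909 (L l141 (L l305 (L l451 (L l485 (T t8934 (L l415 (L l451 (T t8935 N))))))))))) N)))))))))))))))))⟩
def e0_64__85_57 : Ent 4 := ⟨[a0, a64], [a85, a194], (M a80 (F (T t8884 (L l368 (T t8881 (K a128 (M a84 (F (T t8912 (L l192 (L l458 (T t8913 (L l192 (T t8914 N)))))))) (K a192 (M a252 (L l228 (F (T t8959 (L l126 (L l484 (T t8960 (L l484 (T t8961 (K a193 (M a195 (F (L l484 (T t8916 (L l236 (L l269 (L l293 (T t9411 N)))))))) (K a195 (M a193 (F (T t8959 (L l126 (L l484 (T t8960 (L l484 (T t8961 N)))))))) N))))))))))) (K a16 (M a252 (L l368 (F (T t8916 (T t8968 (K a154 (M a223 (F (T t8918 (T t7648 (T t9108 N))))) (K a223 (M a154 (F (T t8916 (L l246 (T t8968 N))))) N))))))) (K a144 (M a84 (F (L l484 (T t8912 (L l192 (L l458 (T t8913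 (L l166 (L l192 (L l350 (T t3307 N))))))))))) (K a96 (M a84 (F (T t8861 (L l376 (L l458 (T t8913 (L l376 (T t8882 N)))))))) (K a160 (M a84 (F (L l376 (T t8912 (L l192 (L l350 (T t3307 (L l176 (L l192 (L l368 (T t8920 N))))))))))) (K a224 (M a84 (F (T t8861 (L l126 (L l376 (T t8911 (L l376 (L l458 (T t8921 N))))))))) (K a48 (M a84 (F (T t8915 (L l126 (L l484 (T t8911 (L l350 (T t3307 N)))))))) (K a112 (M a84 (F (T t8922 (L l110 (L l350 (T t3307 (L l110 (T t8882 N)))))))) (K a176 (Fr a192 a128 l304 (Fr a96 a112 l116 (Fr a240 a160 l448 (Fr a144 a48 l484 (V t9514))))) (K a240 (M a84 (F (T t8912 (L l350 (T t3307 (L l458 (L l478 (T t8924 N)))))))) N))))))))))))))))⟩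
def e0_64__85_58 : Ent 4 := ⟨[a0, a64], [a85, a195], (M a80 (F (L l368 (T t8881 (L l488 (T t8884 (K a128 (M a84 (F (T t8912 (L l192 (L l458 (T t8913 (L l192 (T t8914 N)))))))) (K a192 (M a84 (L l228 (F (T t8915 (L l126 (L l484 (T t8911 (L l484 (L l514 (T t8914 (K a193 (M a194 (F (T t8915 (L l484 (L l514 (T t8912 (L l484 (L l514 (T t9107 N))))))))) (K a194 (M a193 (F (T t8915 (L l126 (L l484 (T t9106 (L l484 (L l514 (T t9107 N))))))))) N)))))))))))) (K a16 (M a252 (L l368 (F (T t8916 (T t8917 (K a154 (M a223 (F (T t7494 (L l338 (T t8918 (T t8919 N)))))) (K a223 (M a154 (F (T t8916 (L l246 (T t8917 N))))) N))))))) (K a144 (M a84 (F (L l484 (T t8912 (L l192 (L l458 (T t8913 (L l166 (L l192 (L l350 (T t3307 N))))))))))) (K a96 (M a84 (F (T t8990 (L l376 (L l458 (T t8913 (L l376 (T t8882 N)))))))) (K a160 (M a84 (F (L l376 (T t8912 (L l192 (L l350 (T t3307 (L l176 (L l192 (L l368 (L l488 (T t8920 N)))))))))))) (K a224 (M a84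 (F (L l376 (T t8910 (L l350 (T t3307 (L l338 (L l376 (L l458 (T t8921 N)))))))))) (K a48 (M a84 (L l488 (F (T t8990 (L l458 (T t8913 (L l126 (L l484 (T t8911 (K a97 (M a146 (F (T t8990 (L l297 (L l436 (T t8991 (L l96 (L l484 (T t8912 N))))))))) (K a146 (M a97 (F (T t8915 (L l307 (L l484 (L l486 (T t9412 N))))))) N))))))))))) (K a112 (M a84 (F (T t8915 (L l110 (L l350 (T t3307 (L l110 (T t8882 N)))))))) (K a176 (Fr a192 a128 l304 (Fr a96 a112 l116 (Fr a240 a160 l448 (Fr a144 a48 l484 (V t9514))))) (K a240 (M a84 (L l273 (F (T t8912 (L l350 (T t3307 (L l458 (L l478 (T t8924 (K a225 (M a210 (F (T t8910 (L l262 (L l297 (T t8970 (L l458 (L l478 (T t8924 N))))))))) (K a210 (M a225 (F (T t8910 (L l262 (L l297 (T t8970 (L l458 (L l478 (T t8924 N))))))))) N))))))))))) N)))))))))))))))))⟩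
def e0_64__85_59 : Ent 4 := ⟨[a0, a64], [a85, a197], (M a68 (F (T t8992 (L l458 (T t8993 (K a128 (M a84 (F (T t8899 (L l156 (L l368 (T t8994 (L l156 (T t8995 N)))))))) (K a192 (M a207 (F (T t9413 (L l141 (L l334 (T t9370 (L l334 (T t9369 N)))))))) (K a4 (M a252 (L l458 (F (T t8997 (L l229 (T t9414 (K a166 (M a247 (F (T t8999 (T t7648 (T t9415 N))))) (K a247 (M a166 (F (T t8997 (L l229 (L l278 (T t9414 N)))))) N)))))))) (K a132 (M a84 (F (L l334 (T t8899 (L l156 (L l368 (T t8994 (L l156 (L l198 (L l350 (T t3307 N))))))))))) (K a72 (M a48 (F (T t363 (L l316 (T t1474 (L l316 (T t9001 N))))))) (K a136 (M a96 (F (L l156 (T t8937 (L l94 (L l316 (T t9002 (L l156 (L l204 (L l316 (L l458 (T t9003 N)))))))))))) (K a200 (M a96 (F (T t8937 (L l94 (L l316 (T t9002 (L l316 (L l496 (T t9015 N))))))))) (K a12 (M a48 (F (L l478 (T t363 (L l466 (T t1474 (T t9001 N))))))) (K a76 (M a48 (F (T t1474 (L l368 (T t1184 (L l134 (T t9006 N)))))))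 (K a140 (Fr a192 a128 l304 (Fr a72 a76 l80 (Fr a204 a136 l328 (Fr a132 a12 l334 (V t9518))))) (K a204 (M a96 (F (T t8937 (L l94 (T t9002 (L l322 (L l458 (T t9008 N)))))))) N))))))))))))))))⟩
def e0_64__85_60 : Ent 4 := ⟨[a0, a64], [a85, a198], (M a80 (F (T t8884 (L l368 (T t8881 (K a128 (M a84 (F (T t8912 (L l192 (L l458 (T t8913 (L l192 (T t8914 N)))))))) (K a192 (M a84 (F (T t8915 (L l126 (L l484 (T t8911 (L l484 (L l514 (T t8914 N))))))))) (K a16 (M a252 (L l368 (F (T t8916 (T t8917 (K a154 (M a223 (F (T t8918 (T t7648 (L l229 (T t8919 N)))))) (K a223 (M a154 (F (T t8916 (L l246 (T t8917 N))))) N))))))) (K a144 (M a84 (F (L l484 (T t8912 (L l192 (L l458 (T t8913 (L l166 (L l192 (L l350 (T t3307 N))))))))))) (K a96 (M a84 (F (T t8861 (L l376 (L l458 (T t8913 (L l376 (T t8882 N)))))))) (K a160 (M a84 (F (L l376 (T t8912 (L l192 (L l350 (T t3307 (L l176 (L l192 (L l368 (T t8920 N))))))))))) (K a224 (M a84 (F (T t8861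 (L l126 (L l376 (T t8911 (L l376 (L l458 (T t8921 N))))))))) (K a48 (M a84 (F (T t8915 (L l126 (L l484 (T t8911 (L l350 (T t3307 N)))))))) (K a112 (M a84 (F (T t8922 (L l110 (L l350 (T t3307 (L l110 (T t8882 N)))))))) (K a176 (Fr a192 a128 l304 (Fr a96 a112 l116 (Fr a240 a160 l448 (Fr a144 a48 l484 (V t9514))))) (K a240 (M a84 (F (T t8912 (L l350 (T t3307 (L l458 (L l478 (T t8924 N)))))))) N))))))))))))))))⟩
def e0_64__85_61 : Ent 4 := ⟨[a0, a64], [a85, a199], (M a80 (F (T t8884 (L l368 (T t8881 (K a128 (M a84 (F (T t8912 (L l192 (L l314 (L l458 (T t8913 (L l192 (T t8914 N))))))))) (K a192 (M a84 (F (T t8915 (L l126 (L l484 (T t8911 (L l484 (L l514 (T t8914 N))))))))) (K a16 (M a252 (L l368 (F (T t8916 (L l279 (T t8917 (K a154 (M a223 (F (T t8918 (T t7648 (L l229 (T t8919 N)))))) (K a223 (M a154 (F (T t8916 (L l246 (L l279 (T t8917 N)))))) N)))))))) (K a144 (M a84 (F (L l484 (T t8912 (L l192 (L l314 (L l458 (T t8913 (L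 l166 (L l192 (L l350 (T t3307 N)))))))))))) (K a96 (M a84 (F (T t8861 (L l314 (L l376 (L l458 (T t8913 (L l376 (T t8882 N))))))))) (K a160 (M a84 (F (L l376 (T t8912 (L l192 (L l350 (T t3307 (L l176 (L l192 (L l368 (T t8920 N))))))))))) (K a224 (M a84 (F (T t8861 (L l126 (L l376 (T t8911 (L l314 (L l376 (L l458 (T t8921 N)))))))))) (K a48 (M a84 (F (T t8915 (L l126 (L l484 (T t8911 (L l350 (T t3307 N)))))))) (K a112 (M a84 (F (T t8922 (L l110 (L l350 (T t3307 (L l110 (T t8882 N)))))))) (K a176 (Fr a192 a128 l304 (Fr a96 a112 l116 (Fr a240 a160 l448 (Fr a144 a48 l484 (V t9514))))) (K a240 (M a84 (F (T t8912 (L l350 (T t3307 (L l314 (L l458 (L l478 (T t8924 N))))))))) N))))))))))))))))⟩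
def e0_64__85_62 : Ent 4 := ⟨[a0, a64], [a85, a202], (M a68 (F (T t8992 (L l458 (T t8993 (K a128 (M a84 (F (T t8899 (L l156 (L l368 (T t8994 (L l156 (T t8995 N)))))))) (K a192 (M a207 (F (L l309 (L l318 (T t9368 (L l234 (L l334 (T t9369 (L l141 (L l318 (L l334 (T t9370 N)))))))))))) (K a4 (M a252 (L l458 (F (T t8997 (T t9414 (K a166 (M a247 (F (T t8999 (T t7648 (L l230 (T t9415 N)))))) (K a247 (M a166 (F (T t8997 (L l278 (T t9414 N))))) N))))))) (K a132 (M a84 (F (L l334 (T t8899 (L l156 (L l368 (T t8994 (L l156 (L l198 (L l350 (T t3307 N))))))))))) (K a72 (M a48 (F (T t363 (L l316 (T t1474 (L l316 (T t9001 N))))))) (K a136 (M a96 (F (L l156 (T t8937 (L l94 (L l316 (T t9002 (L l156 (L l204 (L l230 (L l316 (L l458 (T t9003 N))))))))))))) (K a200 (M a252 (L l230 (F (T t7648 (L l316 (T t8999 (L l280 (L l316 (L l458 (T t9416 (K a201 (M a203 (F (T t7648 (L l316 (T t8999 (L l280 (L l316 (L l458 (T t9417 N))))))))) (K a203 (M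 a201 (F (T t7648 (L l234 (L l316 (T t9418 N)))))) N)))))))))))) (K a12 (M a48 (F (L l478 (T t363 (L l466 (T t1474 (T t9001 N))))))) (K a76 (M a48 (F (T t1474 (L l368 (T t1184 (L l134 (T t9006 N))))))) (K a140 (Fr a192 a128 l304 (Fr a72 a76 l80 (Fr a204 a136 l328 (Fr a132 a12 l334 (V t9518))))) (K a204 (M a96 (F (T t8937 (L l94 (T t9002 (L l322 (L l458 (T t9008 N)))))))) N))))))))))))))))⟩
def e0_64__85_63 : Ent 4 := ⟨[a0, a64], [a85, a203], (M a84 (F (T t8861 (L l350 (T t3307 (K a128 (M a80 (F (T t8912 (L l192 (L l458 (T t8913 (L l192 (T t8914 N)))))))) (K a192 (M a80 (F (L l484 (T t8910 (L l458 (T t8913 (L l484 (L l514 (T t8914 N))))))))) (K a20 (M a80 (L l350 (F (T t8912 (L l46 (L l458 (T t8913 (L l14 (L l368 (T t8881 (K a150 (M a215 (F (T t8912 (L l14 (L l368 (T t8881 (T t8991 N))))))) (K a215 (M a150 (F (T t8912 (L l14 (L l368 (T t8881 (T t8991 N))))))) N)))))))))))) (K a148 (M a80 (F (T t8880 (L l198 (L l458 (T t8913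 (L l166 (L l216 (L l368 (T t8881 N)))))))))) (K a104 (M a32 (F (T t9103 (L l368 (L l406 (T t9174 (L l350 (L l406 (L l514 (T t9104 N)))))))))) (K a168 (M a80 (F (T t8880 (L l216 (L l368 (T t8881 (L l176 (T t8882 N)))))))) (K a232 (M a80 (F (T t8910 (L l458 (T t8913 (L l368 (T t8881 N))))))) (K a60 (M a80 (F (T t8909 (L l126 (T t8911 (L l458 (T t8913 N))))))) (K a124 (M a160 (F (L l110 (T t9175 (L l94 (L l430 (T t9176 (L l430 (T t9177 N))))))))) (K a188 (Fr a192 a128 l304 (Fr a104 a124 l140 (Fr a252 a168 l472 (Fr a148 a60 l514 (V t9512))))) (K a252 (M a80 (F (T t8909 (L l126 (L l466 (T t8911 (L l430 (L l466 (T t8882 N))))))))) N))))))))))))))))⟩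
def e0_64__85_64 : Ent 4 := ⟨[a0, a64], [a85, a207], (M a68 (F (L l458 (T t8993 (L l326 (T t8992 (K a128 (M a84 (F (T t8899 (L l156 (L l368 (T t8994 (L l156 (T t8995 N)))))))) (K a192 (M a84 (L l236 (F (T t8996 (L l94 (L l334 (T t8892 (L l334 (L l514 (T t8995 (K a197 (M a202 (F (T t8996 (L l334 (T t8899 (L l334 (L l514 (T t9419 N)))))))) (K a202 (M a197 (F (T t8996 (L l94 (L l334 (T t8894 (L l334 (L l514 (T t9419 N))))))))) N)))))))))))) (K a4 (M a252 (L l458 (F (T t8997 (T t8998 (K a166 (M a247 (F (T t7494 (L l512 (T t8999 (T t9000 N)))))) (K a247 (M a166 (F (T t8997 (L l278 (T t8998 N))))) N))))))) (K a132 (M a84 (F (L l334 (T t8899 (L l156 (L l368 (T t8994 (L l156 (L l198 (L l350 (T t3307 N))))))))))) (K a72 (M a48 (F (L l303 (T t363 (L l291 (L l316 (T t1474 (L l316 (T t9001 N))))))))) (K a136 (M a96 (F (L l156 (T t8937 (L l94 (L l316 (T t9002 (L l156 (L l204 (L l316 (L l326 (L l458 (T t9003 N))))))))))))) (K a200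 (M a96 (F (T t8937 (L l94 (L l316 (T t9002 (L l316 (L l496 (T t9015 N))))))))) (K a12 (M a48 (L l326 (F (L l368 (T t9016 (L l303 (L l478 (T t363 (T t9001 (K a77 (M a142 (F (L l368 (T t9017 (L l291 (L l466 (T t1474 (T t9001 N)))))))) (K a142 (M a77 (F (L l368 (T t1476 (L l141 (L l324 (L l334 (T t9420 N)))))))) N))))))))))) (K a76 (M a48 (F (L l291 (T t1474 (L l368 (T t1184 (L l134 (T t9006 N)))))))) (K a140 (Fr a192 a128 l304 (Fr a72 a76 l80 (Fr a204 a136 l328 (Fr a132 a12 l334 (V t9518))))) (K a204 (M a96 (L l231 (F (T t8937 (L l94 (T t9002 (L l322 (L l458 (T t9008 (K a205 (M a206 (F (T t8937 (L l94 (L l502 (T t9018 (L l322 (L l458 (T t9008 N))))))))) (K a206 (M a205 (F (T t8937 (L l94 (L l502 (T t9018 (L l322 (L l458 (T t9008 N))))))))) N))))))))))) N)))))))))))))))))⟩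
def e0_64__85_65 : Ent 4 := ⟨[a0, a64], [a85, a213], (M a80 (L l347 (F (T t8884 (L l368 (T t8881 (K a128 (M a104 (L l347 (F (T t9134 (L l192 (L l216 (L l458 (T t9421 (L l192 (L l216 (L l368 (T t9422 (K a21 (M a149 (F (T t9134 (L l50 (L l192 (L l216 (L l458 (T t9421 (L l18 (L l192 (L l216 (L l368 (T t9422 N))))))))))))) (K a149 (M a21 (L l220 (F (T t9134 (L l368 (L l519 (T t9423 (L l192 (L l216 (L l458 (T t9421 (K a170 (M a191 (F (T t9134 (L l180 (L l192 (L l206 (L l390 (T t9424 (L l174 (L l180 (L l192 (L l216 (L l458 (T t9421 N)))))))))))))) (K a191 (M a170 (F (T t9134 (L l216 (L l296 (L l433 (L l519 (T t9425 N)))))))) N))))))))))))) N)))))))))))))) (K a192 (M a252 (L l296 (L l347 (F (T t8959 (L l126 (L l484 (T t8960 (L l484 (T t8961 (K a21 (M a149 (L l296 (F (T t8959 (L l126 (L l484 (T t8960 (L l484 (T t8961 (K a234 (M a255 (F (L l126 (T t8962 (L l272 (L l275 (L l293 (L l455 (L l473 (T t9025 N)))))))))) (K a255 (M a234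 (F (T t8959 (L l126 (L l484 (T t8960 (L l484 (T t8961 N)))))))) N))))))))))) (K a149 (M a21 (L l296 (L l519 (F (L l126 (T t8962 (L l199 (L l217 (T t9426 (K a106 (Fr a63 a42 l68 (V t8918)) (K a234 (M a255 (L l519 (F (T t8959 (L l294 (L l390 (L l514 (L l515 (T t9427 (K a106 (Fr a63 a42 l68 (M a170 (F (L l87 (L l309 (T t9428 (L l54 (L l199 (L l275 (L l455 (L l484 (L l498 (T t9429 N))))))))))))) (K a63 (M a106 (F (L l484 (T t8916 (L l272 (L l282 (L l294 (L l445 (T t9073 N))))))))) N))))))))))) (K a63 (M a106 (L l296 (F (T t8959 (L l126 (L l484 (T t8960 (L l484 (T t8961 (K a234 (M a255 (F (L l484 (T t8916 (L l272 (L l282 (L l294 (L l445 (T t9073 N))))))))) (K a255 (M a234 (L l433 (F (T t8959 (L l67 (L l87 (L l293 (L l475 (T t9074 (L l61 (L l266 (L l268 (L l447 (L l469 (L l484 (T t9075 (K a127 (M a191 (F (T t8959 (L l67 (L l87 (L l293 (L l475 (T t9074 (L l61 (L l266 (L l268 (L l447 (L l469 (L l484 (T t9075 N)))))))))))))))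 (K a191 (M a127 (L l220 (F (T t8959 (L l61 (L l213 (L l266 (L l268 (L l447 (L l469 (L l484 (T t9075 (L l126 (L l484 (T t8960 (K a128 (Fr a170 a42 l390 (V t9076)) (K a170 (M a128 (F (L l174 (L l180 (T t8959 (L l61 (L l266 (L l268 (L l404 (L l447 (L l505 (T t9077 (L l174 (L l484 (L l514 (T t9078 N)))))))))))))))) N))))))))))))))))) N)))))))))))))))))) N))))))))))) (K a255 (M a234 (L l519 (F (L l484 (T t8916 (L l199 (L l217 (T t9426 (K a106 (Fr a63 a42 l68 (V t8918)) (K a63 (M a106 (L l433 (F (T t8959 (L l67 (L l87 (L l293 (L l475 (T t9074 (L l61 (L l266 (L l268 (L l447 (L l469 (L l484 (T t9075 (K a127 (M a191 (F (T t8959 (L l67 (L l87 (L l293 (L l475 (T t9074 (L l61 (L l266 (L l268 (L l447 (L l469 (L l484 (T t9075 N))))))))))))))) (K a191 (M a127 (L l220 (F (T t8959 (L l61 (L l213 (L l266 (L l268 (L l447 (L l469 (L l484 (T t9075 (L l126 (L l484 (T t8960 (K a128 (Fr a170 a42 l390 (V t9076)) (K a170 (M a128 (F (L l174 (L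 l180 (T t8959 (L l61 (L l266 (L l268 (L l404 (L l447 (L l505 (T t9077 (L l174 (L l484 (L l514 (T t9078 N)))))))))))))))) N))))))))))))))))) N)))))))))))))))))) N)))))))))) N))))))))))))) (K a234 (M a255 (L l347 (F (L l484 (T t8916 (L l272 (L l282 (L l294 (T t9073 (K a21 (M a149 (F (L l126 (T t8962 (L l272 (L l275 (L l293 (L l455 (L l473 (T t9025 N)))))))))) (K a149 (M a21 (L l519 (F (T t8959 (L l294 (L l390 (L l514 (L l515 (T t9427 (K a106 (Fr a63 a42 l68 (M a170 (F (L l87 (L l309 (T t9428 (L l54 (L l199 (L l275 (L l455 (L l484 (L l498 (T t9429 N))))))))))))) (K a63 (M a106 (F (L l484 (T t8916 (L l272 (L l282 (L l294 (L l445 (T t9073 N))))))))) N))))))))))) N))))))))))) (K a255 (M a234 (L l347 (F (T t8959 (L l126 (L l484 (T t8960 (L l484 (T t8961 (K a21 (M a149 (F (T t8959 (L l126 (L l484 (T t8960 (L l484 (T t8961 N)))))))) (K a149 (M a21 (L l519 (F (L l484 (T t8916 (L l199 (L l217 (T t9426 (K a106 (Fr a63 a42 l68 (V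 t8918)) (K a63 (M a106 (L l433 (F (T t8959 (L l67 (L l87 (L l293 (L l475 (T t9074 (L l61 (L l266 (L l268 (L l447 (L l469 (L l484 (T t9075 (K a127 (M a191 (F (T t8959 (L l67 (L l87 (L l293 (L l475 (T t9074 (L l61 (L l266 (L l268 (L l447 (L l469 (L l484 (T t9075 N))))))))))))))) (K a191 (M a127 (L l220 (F (T t8959 (L l61 (L l213 (L l266 (L l268 (L l447 (L l469 (L l484 (T t9075 (L l126 (L l484 (T t8960 (K a128 (Fr a170 a42 l390 (V t9076)) (K a170 (M a128 (F (L l174 (L l180 (T t8959 (L l61 (L l266 (L l268 (L l404 (L l447 (L l505 (T t9077 (L l174 (L l484 (L l514 (T t9078 N)))))))))))))))) N))))))))))))))))) N)))))))))))))))))) N)))))))))) N))))))))))) N)))))))))))))) (K a16 (M a12 (L l347 (L l368 (F (T t1488 (T t2526 (T t9132 (K a21 (M a149 (L l18 (L l368 (F (T t2526 (L l91 (L l243 (T t9430 (K a26 (M a31 (L l368 (F (T t2526 (L l91 (L l243 (T t9430 (K a154 (M a223 (L l354 (F (T t2526 (L l498 (T t9431 (K a90 (M a218 (F (T t2526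 (T t9432 N)))) (K a218 (Fr a90 a208 l375 (V t1488)) N)))))))) (K a223 (M a154 (L l246 (F (T t2526 (T t9432 (K a208 (M a218 (F (T t2526 (L l91 (L l238 (L l243 (T t9430 N))))))) (K a218 (Fr a208 a90 l375 (V t9033)) N))))))) N))))))))) (K a154 (M a223 (L l18 (F (T t2526 (L l91 (L l243 (L l356 (T t9430 (K a26 (M a31 (L l354 (F (T t2526 (L l498 (T t9431 (K a90 (M a218 (F (T t2526 (T t9432 N)))) (K a218 (Fr a90 a208 l375 (V t1488)) N)))))))) (K a31 (M a26 (F (T t2526 (L l91 (L l243 (L l356 (T t9430 N))))))) N)))))))))) (K a31 (M a26 (L l368 (F (T t2526 (L l91 (L l243 (T t9430 (K a154 (M a223 (F (T t2526 (L l91 (L l243 (L l356 (T t9430 N))))))) (K a223 (M a154 (L l246 (L l361 (F (T t2526 (L l61 (L l123 (L l275 (T t9041 (K a208 (Fr a218 a90 l354 (V t2526)) (K a218 (M a208 (L l361 (F (T t2526 (L l61 (L l123 (L l275 (T t9041 (K a95 (Fr a159 a144 l170 (V t9034)) (K a159 (M a95 (F (T t2526 (L l61 (L l91 (L l505 (T t9433 N)))))))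 N)))))))))) (K a95 (Fr a159 a144 l170 (V t1488)) (K a159 (M a95 (L l246 (F (T t2526 (L l91 (L l243 (T t9430 (K a208 (Fr a218 a90 l354 (V t1488)) (K a218 (M a208 (F (T t2526 (L l61 (L l91 (L l505 (T t9433 N))))))) N))))))))) N))))))))))))) N))))))))) (K a223 (M a154 (L l18 (L l246 (F (T t2526 (L l361 (T t9434 (K a208 (M a218 (L l18 (F (T t2526 (L l91 (L l238 (L l243 (T t9430 (K a26 (M a31 (F (T t2526 (L l91 (L l238 (L l243 (T t9430 N))))))) (K a31 (Fr a26 a90 l354 (V t2526)) N)))))))))) (K a26 (M a31 (L l246 (F (T t2526 (T t9432 (K a208 (M a218 (F (T t2526 (L l91 (L l238 (L l243 (T t9430 N))))))) (K a218 (Fr a208 a90 l375 (V t9033)) N))))))) (K a218 (M a208 (L l18 (F (T t2526 (L l243 (T t9435 (K a26 (Fr a31 a90 l375 (V t9033)) (K a31 (M a26 (L l361 (F (T t2526 (L l61 (L l123 (L l275 (T t9041 (K a95 (Fr a159 a144 l170 (V t9034)) (K a159 (M a95 (F (T t2526 (L l61 (L l91 (L l505 (T t9433 N))))))) N)))))))))) N)))))))) (K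 a31 (M a26 (L l246 (L l361 (F (T t2526 (L l61 (L l123 (L l275 (T t9041 (K a208 (Fr a218 a90 l354 (V t2526)) (K a218 (M a208 (L l361 (F (T t2526 (L l61 (L l123 (L l275 (T t9041 (K a95 (Fr a159 a144 l170 (V t9034)) (K a159 (M a95 (F (T t2526 (L l61 (L l91 (L l505 (T t9433 N))))))) N)))))))))) (K a95 (Fr a159 a144 l170 (V t1488)) (K a159 (M a95 (L l246 (F (T t2526 (L l91 (L l243 (T t9430 (K a208 (Fr a218 a90 l354 (V t1488)) (K a218 (M a208 (F (T t2526 (L l61 (L l91 (L l505 (T t9433 N))))))) N))))))))) N))))))))))))) N))))))))))) N)))))))))))) (K a149 (M a21 (L l368 (F (L l495 (T t9436 (L l220 (T t9180 (K a154 (M a223 (L l170 (F (L l495 (T t9436 (L l220 (T t9180 (K a144 (M a159 (F (L l495 (T t9436 (L l192 (T t9132 N)))))) (K a159 (M a144 (F (T t9028 (L l10 (L l365 (L l495 (T t9437 N))))))) N))))))))) (K a223 (M a154 (L l246 (F (L l495 (T t9436 (L l220 (T t9180 (K a208 (M a218 (L l375 (F (T t9438 (L l10 (L l365 (L l495 (T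 t9437 (K a90 (M a31 (F (T t2526 (L l480 (L l515 (T t9439 N)))))) (K a31 (Fr a90 a26 l354 (V t9436)) N)))))))))) (K a218 (M a208 (F (T t9034 (L l10 (L l365 (L l495 (T t9437 N))))))) N))))))))) N))))))))) (K a154 (M a223 (L l347 (F (T t1488 (T t2526 (T t9132 (K a21 (M a149 (L l18 (F (T t2526 (L l91 (L l243 (L l356 (T t9430 (K a26 (M a31 (L l354 (F (T t2526 (L l498 (T t9431 (K a90 (M a218 (F (T t2526 (T t9432 N)))) (K a218 (Fr a90 a208 l375 (V t1488)) N)))))))) (K a31 (M a26 (F (T t2526 (L l91 (L l243 (L l356 (T t9430 N))))))) N)))))))))) (K a149 (M a21 (L l170 (F (L l495 (T t9436 (L l220 (T t9180 (K a144 (M a159 (F (L l495 (T t9436 (L l192 (T t9132 N)))))) (K a159 (M a144 (F (T t9028 (L l10 (L l365 (L l495 (T t9437 N))))))) N))))))))) N)))))))) (K a223 (M a154 (L l246 (L l347 (F (T t1488 (T t2526 (T t9132 (K a208 (M a218 (L l347 (F (T t1488 (L l18 (L l123 (L l275 (T t9440 (K a21 (M a149 (L l18 (F (T t2526 (L l91 (L l238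 (L l243 (T t9430 (K a26 (M a31 (F (T t2526 (L l91 (L l238 (L l243 (T t9430 N))))))) (K a31 (Fr a26 a90 l354 (V t2526)) N)))))))))) (K a149 (M a21 (L l375 (F (T t9438 (L l10 (L l365 (L l495 (T t9437 (K a90 (M a31 (F (T t2526 (L l480 (L l515 (T t9439 N)))))) (K a31 (Fr a90 a26 l354 (V t9436)) N)))))))))) N)))))))))) (K a21 (M a149 (L l18 (L l246 (F (T t2526 (L l361 (T t9434 (K a208 (M a218 (L l18 (F (T t2526 (L l91 (L l238 (L l243 (T t9430 (K a26 (M a31 (F (T t2526 (L l91 (L l238 (L l243 (T t9430 N))))))) (K a31 (Fr a26 a90 l354 (V t2526)) N)))))))))) (K a26 (M a31 (L l246 (F (T t2526 (T t9432 (K a208 (M a218 (F (T t2526 (L l91 (L l238 (L l243 (T t9430 N))))))) (K a218 (Fr a208 a90 l375 (V t9033)) N))))))) (K a218 (M a208 (L l18 (F (T t2526 (L l243 (T t9435 (K a26 (Fr a31 a90 l375 (V t9033)) (K a31 (M a26 (L l361 (F (T t2526 (L l61 (L l123 (L l275 (T t9041 (K a95 (Fr a159 a144 l170 (V t9034)) (K a159 (M a95 (F (T t2526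 (L l61 (L l91 (L l505 (T t9433 N))))))) N)))))))))) N)))))))) (K a31 (M a26 (L l246 (L l361 (F (T t2526 (L l61 (L l123 (L l275 (T t9041 (K a208 (Fr a218 a90 l354 (V t2526)) (K a218 (M a208 (L l361 (F (T t2526 (L l61 (L l123 (L l275 (T t9041 (K a95 (Fr a159 a144 l170 (V t9034)) (K a159 (M a95 (F (T t2526 (L l61 (L l91 (L l505 (T t9433 N))))))) N)))))))))) (K a95 (Fr a159 a144 l170 (V t1488)) (K a159 (M a95 (L l246 (F (T t2526 (L l91 (L l243 (T t9430 (K a208 (Fr a218 a90 l354 (V t1488)) (K a218 (M a208 (F (T t2526 (L l61 (L l91 (L l505 (T t9433 N))))))) N))))))))) N))))))))))))) N))))))))))) (K a149 (M a21 (L l246 (F (L l495 (T t9436 (L l220 (T t9180 (K a208 (M a218 (L l375 (F (T t9438 (L l10 (L l365 (L l495 (T t9437 (K a90 (M a31 (F (T t2526 (L l480 (L l515 (T t9439 N)))))) (K a31 (Fr a90 a26 l354 (V t9436)) N)))))))))) (K a218 (M a208 (F (T t9034 (L l10 (L l365 (L l495 (T t9437 N))))))) N))))))))) (K a218 (M a208 (L l347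 (F (T t9034 (T t2526 (T t1488 (K a21 (M a149 (L l18 (F (T t2526 (L l243 (T t9435 (K a26 (Fr a31 a90 l375 (V t9033)) (K a31 (M a26 (L l361 (F (T t2526 (L l61 (L l123 (L l275 (T t9041 (K a95 (Fr a159 a144 l170 (V t9034)) (K a159 (M a95 (F (T t2526 (L l61 (L l91 (L l505 (T t9433 N))))))) N)))))))))) N)))))))) (K a149 (M a21 (F (T t9034 (L l10 (L l365 (L l495 (T t9437 N))))))) N)))))))) N))))))))))) N))))))))))) (K a144 (M a84 (L l347 (F (L l484 (T t8912 (L l192 (L l458 (T t8913 (L l166 (L l192 (L l350 (T t3307 (K a21 (M a149 (F (L l192 (T t8922 (L l484 (T t8910 (L l166 (L l192 (T t8970 N))))))))) (K a149 (M a21 (L l170 (F (L l192 (T t8991 (L l484 (T t8912 (L l163 (L l166 (L l192 (L l220 (T t8970 (K a154 (M a159 (L l368 (F (L l192 (T t8991 (L l484 (T t8912 (L l163 (L l166 (L l192 (L l220 (T t8970 (K a16 (M a223 (F (L l484 (T t8910 (L l375 (T t9441 N)))))) (K a223 (M a16 (L l246 (F (T t9056 (L l350 (T t9230 (K a208 (M a218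 (L l375 (F (L l484 (T t9442 (L l164 (L l166 (L l167 (T t9443 (K a90 (Fr a31 a26 l18 (V t9056)) (K a31 (M a90 (F (L l484 (T t9442 (L l350 (T t9230 (L l192 (T t9444 N)))))))) N))))))))))) (K a218 (M a208 (L l354 (F (L l192 (T t9034 (L l163 (L l166 (L l350 (T t9445 (K a26 (M a90 (F (L l192 (T t9034 (L l163 (L l166 (L l350 (T t9445 N)))))))) (K a90 (Fr a26 a31 l18 (V t9033)) N))))))))))) N)))))))) N)))))))))))))) (K a159 (M a154 (F (L l192 (T t8991 (L l484 (T t8912 (L l163 (L l166 (L l192 (L l220 (T t8970 N))))))))))) N)))))))))))))) N)))))))))))))) (K a96 (M a12 (L l347 (F (T t1488 (L l376 (T t2526 (L l376 (T t9132 (K a21 (M a149 (F (T t9432 (L l376 (T t2526 N))))) (K a149 (M a21 (F (L l495 (T t9436 (L l220 (L l376 (T t9180 N))))))) N)))))))))) (K a160 (M a72 (L l347 (F (L l192 (T t8975 (L l126 (L l376 (T t8976 (L l176 (L l192 (L l368 (L l376 (T t9359 (K a21 (M a149 (F (L l126 (L l376 (T t8976 (L l15 (L l192 (T t9446 N))))))))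 (K a149 (M a21 (F (L l126 (L l376 (T t8978 (L l192 (L l202 (L l220 (L l365 (T t9447 N)))))))))) N))))))))))))))) (K a224 (M a12 (L l347 (F (T t1488 (L l376 (L l406 (T t2526 (L l376 (L l406 (T t9132 (K a21 (M a149 (F (T t9432 (L l376 (L l406 (T t2526 N)))))) (K a149 (M a21 (F (L l495 (T t9436 (L l220 (L l376 (L l406 (T t9180 N)))))))) N)))))))))))) (K a48 (M a12 (L l347 (F (L l508 (T t1488 (L l436 (T t2526 (T t9132 (K a21 (M a149 (F (L l436 (T t2526 (L l91 (L l243 (T t9430 N))))))) (K a149 (M a21 (F (L l365 (T t9448 (L l220 (T t9180 N)))))) N)))))))))) (K a112 (M a12 (L l347 (F (T t2526 (L l458 (T t4021 (L l110 (T t9180 (K a21 (M a149 (F (T t2526 (L l91 (L l243 (T t9430 N)))))) (K a149 (M a21 (F (L l495 (T t9436 (L l110 (L l220 (T t9180 N))))))) N)))))))))) (K a176 (Fr a192 a128 l304 (Fr a96 a112 l116 (Fr a240 a160 l448 (Fr a144 a48 l484 (V t9514))))) (K a240 (M a72 (L l347 (F (T t8975 (L l126 (L l442 (T t8976 (L l368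 (L l412 (T t8977 (K a21 (M a149 (F (L l126 (T t8978 (L l15 (L l447 (T t9446 N))))))) (K a149 (M a21 (F (L l126 (T t8978 (L l202 (L l220 (L l365 (T t9447 N)))))))) N)))))))))))) (K a21 (M a149 (F (T t8884 (L l47 (T t9067 (T t9068 (L l18 (L l47 (L l368 (T t9069 (K a192 (M a252 (L l296 (F (T t8959 (L l126 (L l484 (T t8960 (L l484 (T t8961 (K a234 (M a255 (F (L l126 (T t8962 (L l272 (L l275 (L l293 (L l455 (L l473 (T t9025 N)))))))))) (K a255 (M a234 (F (T t8959 (L l126 (L l484 (T t8960 (L l484 (T t8961 N)))))))) N))))))))))) (K a144 (Fr a240 a160 l448 (Fr a112 a96 l116 (Fr a192 a128 l304 (Fr a176 a48 l412 (V t9520))))) N)))))))))))) (K a149 (M a21 (F (L l220 (T t8884 (L l368 (L l519 (T t9449 (L l199 (L l491 (T t9450 (L l170 (L l220 (L l375 (T t9451 (K a96 (M a12 (F (L l495 (T t9436 (L l220 (L l376 (T t9180 N))))))) (K a160 (M a48 (F (T t9452 (L l455 (T t9322 N))))) (K a48 (M a12 (F (L l365 (T t9448 (L l220 (T t9180 N))))))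 (K a112 (M a16 (F (L l170 (T t9453 (L l455 (T t9454 N)))))) (K a176 (Fr a240 a160 l448 (Fr a96 a112 l116 (Fr a192 a128 l304 (Fr a144 a48 l484 (V t9514))))) N))))))))))))))))))) N)))))))))))))))))))⟩
def e0_64__85_66 : Ent 4 := ⟨[a0, a64], [a85, a214], (M a80 (F (T t8884 (L l368 (T t8881 (K a128 (M a84 (F (T t8912 (L l192 (L l458 (T t8913 (L l192 (T t8914 N)))))))) (K a192 (M a84 (F (T t8915 (L l126 (L l484 (T t8911 (L l484 (L l514 (T t8914 N))))))))) (K a16 (M a252 (L l368 (F (T t8916 (L l239 (L l279 (T t8917 (K a154 (M a223 (F (T t8918 (T t7648 (T t8919 N))))) (K a223 (M a154 (F (T t8916 (L l239 (L l246 (L l279 (T t8917 N))))))) N))))))))) (K a144 (M a84 (F (L l484 (T t8912 (L l192 (L l458 (T t8913 (L l166 (L l192 (L l350 (T t3307 N))))))))))) (K a96 (M a84 (F (T t8861 (L l376 (L l458 (T t8913 (L l376 (T t8882 N)))))))) (K a160 (M a84 (F (L l376 (T t8912 (L l192 (L l350 (T t3307 (L l176 (L l192 (L l368 (T t9455 N)))))))))))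 (K a224 (M a84 (F (T t8861 (L l126 (L l376 (T t8911 (L l376 (L l458 (T t8921 N))))))))) (K a48 (M a84 (F (T t8990 (L l458 (T t8913 (L l126 (L l484 (T t8911 N)))))))) (K a112 (M a84 (F (T t8922 (L l110 (L l350 (T t3307 (L l110 (T t8882 N)))))))) (K a176 (Fr a192 a128 l304 (Fr a96 a112 l116 (Fr a240 a160 l448 (Fr a144 a48 l484 (V t9514))))) (K a240 (M a84 (F (T t8912 (L l350 (T t3307 (L l458 (L l478 (T t9456 N)))))))) N))))))))))))))))⟩
def e0_64__85_67 : Ent 4 := ⟨[a0, a64], [a85, a215], (M a84 (L l350 (F (T t8861 (T t8970 (K a128 (M a80 (L l350 (F (T t8912 (L l192 (L l458 (T t8913 (L l192 (T t8914 (K a20 (M a150 (F (T t8912 (L l192 (T t8991 (T t9222 N)))))) (K a150 (M a20 (F (T t9328 (L l192 (T t8991 N))))) N))))))))))) (K a192 (M a80 (L l350 (F (T t8915 (L l126 (L l484 (T t8911 (L l484 (L l514 (T t8914 (K a20 (M a150 (F (T t8915 (L l484 (L l514 (T t8912 (L l484 (L l514 (T t9107 N))))))))) (K a150 (M a20 (F (T t9329 (L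 l334 (T t8922 (L l484 (T t8910 N))))))) N)))))))))))) (K a148 (M a80 (L l350 (F (T t8880 (L l198 (L l458 (T t8913 (L l166 (L l216 (L l368 (T t8881 (K a20 (M a150 (F (T t8880 (L l14 (L l166 (L l216 (L l368 (T t8881 (L l198 (T t8991 N)))))))))) (K a150 (M a20 (L l163 (F (T t9457 (L l368 (T t9063 (K a149 (M a151 (L l347 (F (T t9457 (L l368 (T t9063 (K a21 (M a213 (F (T t9457 (L l18 (L l368 (T t9063 N)))))) (K a213 (M a21 (L l239 (F (T t9457 (L l368 (T t9063 (K a212 (M a214 (L l351 (F (L l216 (T t9329 (L l368 (T t9063 (L l292 (L l514 (L l518 (T t9458 (K a86 (Fr a23 a22 l11 (V t9459)) (K a23 (M a86 (F (L l292 (T t9457 (L l368 (T t9063 (L l216 (T t9329 N)))))))) N))))))))))))) (K a214 (M a212 (L l348 (F (L l216 (T t9162 (L l473 (T t9460 (K a22 (M a86 (F (L l216 (T t9162 (L l126 (L l490 (T t9106 N))))))) (K a86 (Fr a22 a23 l11 (V t9162)) N))))))))) N)))))))) N)))))))) (K a151 (M a149 (L l349 (F (T t9457 (L l368 (T t9063 (K a23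 (M a87 (F (T t9457 (L l368 (T t9063 N))))) (K a87 (M a23 (F (T t9457 (L l368 (T t9063 N))))) N)))))))) N)))))))) N))))))))))))) (K a104 (M a48 (L l350 (F (T t363 (L l126 (L l388 (T t3280 (L l100 (L l126 (L l388 (T t8877 (K a20 (M a150 (F (T t363 (L l14 (L l368 (L l496 (T t9084 (L l46 (L l458 (T t9461 N)))))))))) (K a150 (M a20 (F (L l239 (T t9462 (L l374 (L l458 (T t805 N))))))) N))))))))))))) (K a168 (M a80 (L l350 (F (T t8880 (L l216 (L l368 (T t8881 (L l176 (T t8882 (K a20 (M a150 (F (T t8880 (L l14 (L l216 (L l368 (T t8881 (L l176 (T t8882 N))))))))) (K a150 (M a20 (F (L l388 (T t9328 (L l368 (T t9063 (L l400 (T t8910 N)))))))) N))))))))))) (K a232 (M a80 (L l350 (F (T t8910 (L l458 (T t8913 (L l368 (T t8881 (K a20 (M a150 (F (T t8910 (L l14 (L l368 (T t8881 (L l292 (T t8991 N)))))))) (K a150 (M a20 (F (T t9463 (L l458 (T t8921 N))))) N)))))))))) (K a60 (M a80 (L l350 (F (T t8909 (L l126 (T t8911 (L l458 (T t8913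 (K a20 (M a150 (F (T t8909 (L l430 (T t8991 (L l514 (T t8912 N))))))) (K a150 (M a20 (L l518 (F (T t9093 (L l126 (T t9106 (K a105 (M a195 (L l141 (F (T t9093 (L l126 (T t9106 (K a65 (M a125 (F (T t9093 (L l126 (T t8911 N))))) (K a125 (Fr a65 a130 l308 (V t9464)) N)))))))) (K a195 (M a105 (L l295 (F (T t9093 (L l126 (T t9106 (K a235 (M a255 (F (T t9093 (L l126 (T t8911 N))))) (K a255 (M a235 (L l434 (F (T t9093 (L l126 (T t8911 (K a125 (M a190 (F (T t9093 (L l126 (T t9106 N))))) (K a190 (M a125 (L l218 (F (T t9093 (L l126 (T t9106 (K a130 (Fr a170 a40 l392 (V t9465)) (K a170 (M a130 (F (L l174 (L l220 (T t9093 (L l126 (T t8911 N))))))) N)))))))) N)))))))) N)))))))) N)))))))) N)))))))))) (K a124 (M a48 (L l350 (F (T t3182 (L l368 (T t1184 (L l126 (L l134 (T t9165 (K a20 (M a150 (F (T t3182 (L l14 (L l368 (T t1184 (L l347 (L l430 (T t9466 N))))))))) (K a150 (M a20 (F (T t9355 (L l126 (T t3650 N))))) N))))))))))) (K a188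 (Fr a192 a128 l304 (Fr a104 a124 l140 (Fr a252 a168 l472 (Fr a148 a60 l514 (V t9512))))) (K a252 (M a80 (L l350 (F (T t8909 (L l126 (L l466 (T t8911 (L l430 (L l466 (T t8882 (K a20 (M a150 (F (T t8909 (L l466 (T t8912 (L l430 (L l466 (T t8882 N)))))))) (K a150 (M a20 (F (T t9355 (L l466 (T t8912 (L l368 (T t8881 N))))))) N)))))))))))) (K a20 (M a150 (F (L l295 (T t9467 (L l295 (L l473 (T t9468 (L l347 (T t9466 (K a128 (M a80 (F (T t8912 (L l192 (T t8991 (T t9222 N)))))) (K a148 (Fr a252 a168 l472 (Fr a124 a104 l140 (Fr a60 a188 l430 (Fr a128 a192 l304 (V t9525))))) (K a104 (M a195 (F (T t9470 (L l11 (L l388 (T t9471 (L l98 (L l514 (T t9472 N))))))))) (K a168 (M a80 (F (T t8880 (L l14 (L l216 (L l368 (T t8881 (L l176 (T t8882 N))))))))) (K a60 (Fr a128 a192 l304 (Fr a168 a252 l472 (Fr a104 a124 l140 (Fr a188 a148 l216 (V t9526))))) (K a188 (Fr a192 a128 l304 (Fr a104 a124 l140 (Fr a60 a148 l514 (Fr a168 a252 l472 (V t9527)))))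 N))))))))))))))) (K a150 (M a20 (F (T t9355 (T t9329 (L l163 (T t9464 N)))))) N)))))))))))))))))⟩
def e0_64__85_68 : Ent 4 := ⟨[a0, a64], [a85, a218], (M a68 (F (T t8992 (L l458 (T t8993 (K a128 (M a84 (F (T t8899 (L l156 (L l368 (T t8994 (L l156 (T t8995 N)))))))) (K a192 (M a84 (F (T t8996 (L l94 (L l334 (T t8892 (L l334 (L l514 (T t8995 N))))))))) (K a4 (M a252 (L l458 (F (T t8997 (T t8998 (K a166 (M a247 (F (T t8999 (T t7648 (L l246 (T t9000 N)))))) (K a247 (M a166 (F (T t8997 (L l278 (T t8998 N))))) N))))))) (K a132 (M a84 (F (L l334 (T t8899 (L l156 (L l368 (T t8994 (L l156 (L l198 (L l350 (T t3307 N))))))))))) (K a72 (M a48 (F (L l316 (T t1474 (L l303 (T t363 (L l316 (T t9001 N)))))))) (K a136 (M a96 (F (L l156 (T t8937 (L l94 (L l316 (T t9002 (L l156 (L l204 (L l316 (L l458 (T t9003 N)))))))))))) (K a200 (M a96 (F (T t8937 (L l94 (L l316 (T t9002 (L l316 (L l496 (T t9015 N))))))))) (K a12 (M a48 (F (L l466 (T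 t1474 (L l303 (L l478 (T t363 (T t9001 N)))))))) (K a76 (M a48 (F (T t1474 (L l368 (T t1184 (L l134 (T t9006 N))))))) (K a140 (Fr a192 a128 l304 (Fr a72 a76 l80 (Fr a204 a136 l328 (Fr a132 a12 l334 (V t9518))))) (K a204 (M a96 (F (T t8937 (L l94 (T t9002 (L l322 (L l458 (T t9008 N)))))))) N))))))))))))))))⟩
def e0_64__85_69 : Ent 4 := ⟨[a0, a64], [a85, a219], (M a68 (F (T t8992 (L l458 (T t8993 (K a128 (M a84 (F (T t8899 (L l156 (L l368 (T t8994 (L l156 (T t8995 N)))))))) (K a192 (M a84 (F (T t8996 (L l94 (L l334 (T t8892 (L l334 (L l514 (T t8995 N))))))))) (K a4 (M a252 (L l458 (F (T t8997 (T t8998 (K a166 (M a247 (F (T t8999 (T t7648 (T t9000 N))))) (K a247 (M a166 (F (T t8997 (L l278 (T t8998 N))))) N))))))) (K a132 (M a84 (F (L l334 (T t8899 (L l156 (L l368 (T t8994 (L l156 (L l198 (L l350 (T t3307 N))))))))))) (K a72 (M a48 (F (T t363 (L l316 (T t1474 (L l316 (T t9001 N))))))) (K a136 (M a96 (F (L l156 (T t8937 (L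 l94 (L l316 (T t9002 (L l156 (L l204 (L l316 (L l458 (T t9003 N)))))))))))) (K a200 (M a96 (F (T t8937 (L l94 (L l316 (T t9002 (L l316 (L l496 (T t9015 N))))))))) (K a12 (M a48 (F (L l478 (T t363 (L l466 (T t1474 (T t9001 N))))))) (K a76 (M a48 (F (T t1474 (L l368 (T t1184 (L l134 (T t9006 N))))))) (K a140 (Fr a192 a128 l304 (Fr a72 a76 l80 (Fr a204 a136 l328 (Fr a132 a12 l334 (V t9518))))) (K a204 (M a96 (F (T t8937 (L l94 (T t9002 (L l322 (L l458 (T t9008 N)))))))) N))))))))))))))))⟩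
def e0_64__85_70 : Ent 4 := ⟨[a0, a64], [a85, a223], (M a68 (L l368 (F (T t8992 (L l458 (T t8993 (K a128 (M a84 (L l368 (F (T t8899 (L l156 (T t9154 (L l156 (T t8995 (K a16 (M a154 (F (T t9381 (L l156 (L l289 (L l365 (T t9475 (T t9476 N)))))))) (K a154 (M a16 (F (T t9477 (T t9381 N)))) N)))))))))) (K a192 (M a100 (L l368 (F (T t9478 (L l334 (L l514 (T t9479 (L l334 (L l484 (T t9480 (K a16 (M a154 (F (L l334 (T t9481 (L l236 (L l289 (L l364 (T t9482 (L l334 (L l484 (T t9480 N))))))))))) (K a154 (M a16 (F (T t9483 (L l334 (L l514 (T t9484 N)))))) N)))))))))))) (K a4 (M a48 (L l368 (L l458 (F (T t1474 (T t363 (T t9001 (K a16 (M a154 (L l458 (F (L l123 (T t9485 (L l364 (T t1479 (L l289 (L l367 (T t9486 (K a166 (M a247 (F (L l367 (T t9487 (L l123 (L l361 (L l386 (T t9488 (L l364 (T t9001 N)))))))))) (K a247 (M a166 (F (L l14 (T t9489 (L l364 (T t9001 N)))))) N)))))))))))) (K a166 (M a247 (L l368 (F (T t363 (T t1474 (T t9001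 (K a16 (M a154 (F (L l367 (T t9487 (L l123 (L l361 (L l386 (T t9488 (L l364 (T t9001 N)))))))))) (K a154 (Fr a16 a32 l40 (V t9006)) N)))))))) (K a154 (Fr a16 a32 l40 (V t9006)) (K a247 (M a166 (L l368 (F (T t363 (T t1474 (T t9001 (K a16 (M a154 (F (L l14 (T t9489 (L l364 (T t9001 N)))))) (K a154 (Fr a16 a32 l40 (V t9006)) N)))))))) N))))))))))) (K a132 (M a100 (L l368 (F (L l156 (T t9478 (L l334 (T t9479 (L l156 (L l334 (T t9480 (K a16 (M a154 (F (L l334 (T t9481 (L l156 (L l289 (L l364 (T t9482 (L l156 (L l334 (T t9480 N))))))))))) (K a154 (M a16 (F (T t9490 (L l334 (T t9484 N))))) N)))))))))))) (K a72 (M a48 (L l368 (F (T t363 (L l316 (T t1474 (L l316 (T t9001 (K a16 (M a154 (F (L l123 (T t9485 (L l289 (L l316 (L l367 (T t9486 (L l316 (L l364 (T t9001 N))))))))))) (K a154 (Fr a16 a32 l40 (V t9006)) N)))))))))) (K a136 (M a84 (L l368 (F (L l316 (T t8899 (L l156 (L l350 (T t3307 (L l156 (L l204 (L l458 (T t9380 (K a16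 (M a154 (F (L l316 (T t9381 (L l156 (T t8970 (L l156 (L l204 (L l458 (T t9380 N)))))))))) (K a154 (M a16 (F (T t9382 (L l156 (T t8970 N))))) N)))))))))))))) (K a200 (M a48 (L l368 (F (T t363 (L l316 (L l496 (T t1474 (L l316 (L l496 (T t9001 (K a16 (M a154 (F (L l123 (T t9485 (L l289 (L l316 (L l367 (T t9486 (L l316 (L l364 (L l496 (T t9001 N)))))))))))) (K a154 (Fr a16 a32 l40 (V t9006)) N)))))))))))) (K a12 (M a48 (L l368 (F (L l466 (T t1474 (L l478 (T t363 (T t9001 (K a16 (M a154 (F (L l361 (T t9491 (L l289 (L l326 (L l367 (T t9486 (L l364 (T t9001 N)))))))))) (K a154 (Fr a16 a32 l40 (V t9006)) N)))))))))) (K a76 (M a3 (L l368 (F (L l289 (T t9374 (L l473 (T t9386 (L l79 (T t9376 (K a16 (M a154 (F (L l289 (T t9374 (L l473 (T t9386 (L l79 (T t9376 N)))))))) (K a154 (M a16 (F (L l367 (T t839 (L l79 (T t9376 N)))))) N))))))))))) (K a140 (Fr a192 a128 l304 (Fr a72 a76 l80 (Fr a204 a136 l328 (Fr a132 a12 l334 (V t9518)))))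 (K a204 (M a66 (L l368 (F (T t9357 (L l141 (L l327 (T t9387 (L l322 (L l458 (T t9388 (K a16 (M a154 (F (T t9357 (L l141 (T t9389 (L l322 (L l458 (T t9388 N)))))))) (K a154 (M a16 (F (L l141 (T t9389 (L l367 (L l513 (T t9390 N))))))) N)))))))))))) (K a16 (M a154 (F (T t8992 (L l458 (T t8993 (K a128 (M a138 (F (L l216 (L l367 (T t9492 (L l141 (L l289 (T t9235 N)))))))) (K a192 (M a138 (F (L l232 (L l367 (T t9492 (L l141 (L l236 (L l289 (L l334 (L l339 (T t9235 N))))))))))) (K a4 (M a138 (L l458 (F (L l289 (T t9397 (L l367 (T t9492 (K a166 (M a247 (F (L l289 (T t9397 (L l367 (T t9492 N)))))) (K a247 (M a166 (F (L l289 (T t9234 (L l362 (T t9493 N)))))) N))))))))) (K a132 (M a138 (F (L l289 (L l455 (T t9494 (L l367 (T t9492 N))))))) (K a72 (M a138 (F (L l289 (T t9397 (L l367 (T t9492 N)))))) (K a136 (M a138 (F (L l361 (T t9495 (L l141 (L l289 (L l316 (T t9235 N)))))))) (K a200 (M a51 (F (T t3306 (L l316 (L l367 (T t9496 N))))))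 (K a12 (M a138 (F (L l289 (L l326 (T t9397 (L l322 (L l367 (T t9492 N)))))))) (K a76 (M a138 (F (L l289 (T t9234 (L l361 (T t9495 N)))))) (K a140 (Fr a192 a128 l304 (Fr a72 a76 l80 (Fr a204 a136 l328 (Fr a132 a12 l334 (V t9518))))) (K a204 (M a138 (F (L l232 (L l361 (T t9495 (L l141 (L l231 (L l289 (L l327 (T t9235 N)))))))))) N)))))))))))))))) (K a154 (M a16 (F (T t8992 (L l94 (L l170 (T t9394 (L l164 (L l227 (T t9372 (L l164 (T t9395 N))))))))))) N)))))))))))))))))))⟩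
def e0_64__85_71 : Ent 4 := ⟨[a0, a64], [a85, a234], (M a80 (F (T t8884 (L l368 (T t8881 (K a128 (M a84 (F (T t8912 (L l192 (L l458 (T t8913 (L l192 (T t8914 N)))))))) (K a192 (M a252 (L l296 (F (T t8959 (L l126 (L l484 (T t8960 (L l484 (T t8961 (K a213 (M a255 (L l347 (F (L l484 (T t8916 (L l272 (L l282 (L l294 (T t9073 (K a21 (M a149 (F (L l126 (T t8962 (L l272 (L l275 (L l293 (L l455 (L l473 (T t9025 N)))))))))) (K a149 (M a21 (L l519 (F (T t8959 (L l294 (L l390 (L l514 (L l515 (T t9427 (K a106 (Fr a63 a42 l68 (M a170 (F (L l87 (L l309 (T t9428 (L l54 (L l199 (L l275 (L l455 (L l484 (L l498 (T t9429 N))))))))))))) (K a63 (M a106 (F (L l484 (T t8916 (L l272 (L l282 (L l294 (L l445 (T t9073 N))))))))) N))))))))))) N))))))))))) (K a255 (M a213 (F (T t8959 (L l126 (L l484 (T t8960 (L l484 (T t8961 N)))))))) N))))))))))) (K a16 (M a252 (L l368 (F (T t8916 (T t8968 (K a154 (M a223 (F (T t8918 (T t7648 (L l250 (L l256 (T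 t9108 N))))))) (K a223 (M a154 (F (T t8916 (L l246 (T t8968 N))))) N))))))) (K a144 (M a84 (F (L l484 (T t8912 (L l192 (L l458 (T t8913 (L l166 (L l192 (L l350 (T t3307 N))))))))))) (K a96 (M a84 (F (T t8861 (L l376 (L l458 (T t8913 (L l376 (T t8882 N)))))))) (K a160 (M a84 (F (L l376 (T t8912 (L l192 (L l350 (T t3307 (L l176 (L l192 (L l368 (T t8920 N))))))))))) (K a224 (M a252 (L l256 (F (T t7648 (L l376 (T t8918 (L l250 (L l252 (L l368 (L l376 (T t9497 (K a229 (M a239 (F (T t7648 (L l376 (T t8918 (L l250 (L l252 (L l368 (L l376 (T t9498 N)))))))))) (K a239 (M a229 (F (T t7648 (L l282 (L l376 (T t9499 N)))))) N))))))))))))) (K a48 (M a84 (F (T t8915 (L l126 (L l484 (T t8911 (L l350 (T t3307 N)))))))) (K a112 (M a84 (F (T t8922 (L l110 (L l350 (T t3307 (L l110 (T t8882 N)))))))) (K a176 (Fr a192 a128 l304 (Fr a96 a112 l116 (Fr a240 a160 l448 (Fr a144 a48 l484 (V t9514))))) (K a240 (M a84 (F (T t8912 (L l350 (T t3307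 (L l458 (L l478 (T t8924 N)))))))) N))))))))))))))))⟩
def e0_64__85_72 : Ent 4 := ⟨[a0, a64], [a85, a235], (M a80 (F (T t8884 (L l368 (T t8881 (K a128 (M a84 (F (T t8912 (L l192 (L l458 (T t8913 (L l192 (T t8914 N)))))))) (K a192 (M a84 (F (T t8915 (L l126 (L l484 (T t8911 (L l484 (L l514 (T t8914 N))))))))) (K a16 (M a252 (L l368 (F (T t8916 (T t8917 (K a154 (M a223 (F (T t8918 (T t7648 (L l250 (T t8919 N)))))) (K a223 (M a154 (F (T t8916 (L l246 (T t8917 N))))) N))))))) (K a144 (M a84 (F (L l484 (T t8912 (L l192 (L l458 (T t8913 (L l166 (L l192 (L l350 (T t3307 N))))))))))) (K a96 (M a84 (F (T t8861 (L l376 (L l458 (T t8913 (L l376 (T t8882 N)))))))) (K a160 (M a84 (F (L l376 (T t8912 (L l192 (L l350 (T t3307 (L l176 (L l192 (L l368 (T t8920 N))))))))))) (K a224 (M a84 (F (T t8970 (L l126 (L l376 (T t8911 (L l376 (L l458 (T t8921 N))))))))) (K a48 (M a84 (F (T t8915 (L l126 (L l484 (T t8911 (L l350 (T t3307 N))))))))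 (K a112 (M a84 (F (T t8922 (L l110 (L l350 (T t3307 (L l110 (T t8882 N)))))))) (K a176 (Fr a192 a128 l304 (Fr a96 a112 l116 (Fr a240 a160 l448 (Fr a144 a48 l484 (V t9514))))) (K a240 (M a84 (F (T t8912 (L l350 (T t3307 (L l458 (L l478 (T t8924 N)))))))) N))))))))))))))))⟩
def e0_64__85_73 : Ent 4 := ⟨[a0, a64], [a85, a239], (M a68 (F (T t8992 (L l458 (T t8993 (K a128 (M a84 (F (T t8899 (L l156 (L l368 (T t8994 (L l156 (T t8995 N)))))))) (K a192 (M a84 (F (L l334 (T t8899 (L l368 (T t8994 (L l334 (L l514 (T t8995 N))))))))) (K a4 (M a252 (L l458 (F (T t7648 (T t8999 (L l251 (T t9000 (K a166 (M a247 (F (T t8999 (T t7648 (L l251 (T t9000 N)))))) (K a247 (M a166 (F (T t8997 (L l256 (L l278 (T t9071 N)))))) N))))))))) (K a132 (M a84 (F (L l334 (T t8899 (L l156 (L l368 (T t8994 (L l156 (L l198 (L l350 (T t3307 N))))))))))) (K a72 (M a48 (F (T t363 (L l316 (T t1474 (L l316 (T t9001 N))))))) (K a136 (M a96 (F (L l156 (T t9072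 (L l94 (L l316 (T t9002 (L l156 (L l204 (L l316 (L l458 (T t9003 N)))))))))))) (K a200 (M a96 (F (T t9072 (L l94 (L l316 (T t9002 (L l316 (L l496 (T t9015 N))))))))) (K a12 (M a48 (F (L l478 (T t363 (L l466 (T t1474 (T t9001 N))))))) (K a76 (M a48 (F (T t1474 (L l256 (L l368 (T t1184 (L l134 (T t9006 N)))))))) (K a140 (Fr a192 a128 l304 (Fr a72 a76 l80 (Fr a204 a136 l328 (Fr a132 a12 l334 (V t9518))))) (K a204 (M a96 (F (L l256 (T t8937 (L l94 (T t9002 (L l322 (L l404 (L l458 (T t9008 N)))))))))) N))))))))))))))))⟩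
def e0_64__85_74 : Ent 4 := ⟨[a0, a64], [a85, a255], (M a80 (F (L l368 (T t8881 (L l440 (T t8884 (K a128 (M a84 (F (T t8912 (L l192 (L l458 (T t8913 (L l192 (T t8914 N)))))))) (K a192 (M a252 (L l296 (F (T t8959 (L l126 (L l484 (T t8960 (L l484 (T t8961 (K a213 (M a234 (L l347 (F (T t8959 (L l126 (L l484 (T t8960 (L l484 (T t8961 (K a21 (M a149 (F (T t8959 (L l126 (L l484 (T t8960 (L l484 (T t8961 N)))))))) (K a149 (M a21 (L l519 (F (L l484 (T t8916 (L l199 (L l217 (T t9426 (K a106 (Fr a63 a42 l68 (V t8918)) (K a63 (M a106 (L l433 (F (T t8959 (L l67 (L l87 (L l293 (L l475 (T t9074 (L l61 (L l266 (L l268 (L l447 (L l469 (L l484 (T t9075 (K a127 (M a191 (F (T t8959 (L l67 (L l87 (L l293 (L l475 (T t9074 (L l61 (L l266 (L l268 (L l447 (L l469 (L l484 (T t9075 N))))))))))))))) (K a191 (M a127 (L l220 (F (T t8959 (L l61 (L l213 (L l266 (L l268 (L l447 (L l469 (L l484 (T t9075 (L l126 (L l484 (T t8960 (K a128 (Fr a170 a42 l390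 (V t9076)) (K a170 (M a128 (F (L l174 (L l180 (T t8959 (L l61 (L l266 (L l268 (L l404 (L l447 (L l505 (T t9077 (L l174 (L l484 (L l514 (T t9078 N)))))))))))))))) N))))))))))))))))) N)))))))))))))))))) N)))))))))) N))))))))))) (K a234 (M a213 (F (T t8959 (L l126 (L l484 (T t8960 (L l484 (T t8961 N)))))))) N))))))))))) (K a16 (M a252 (L l368 (F (T t8916 (T t8917 (K a154 (M a223 (F (T t7494 (L l470 (T t8918 (T t8919 N)))))) (K a223 (M a154 (L l289 (F (T t8916 (L l246 (T t8917 (K a207 (M a239 (F (T t8916 (L l246 (T t9500 N))))) (K a239 (M a207 (F (T t9501 (L l87 (L l241 (L l440 (T t9502 N))))))) N)))))))) N))))))) (K a144 (M a84 (F (L l484 (T t8912 (L l192 (L l458 (T t8913 (L l166 (L l192 (L l350 (T t3307 N))))))))))) (K a96 (M a84 (F (T t8990 (L l376 (L l458 (T t8913 (L l376 (T t8882 N)))))))) (K a160 (M a84 (F (L l376 (T t8912 (L l192 (L l350 (T t3307 (L l176 (L l192 (L l368 (L l440 (T t8920 N)))))))))))) (K a224 (M a84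 (F (L l376 (T t8910 (L l350 (T t3307 (L l376 (L l458 (L l470 (T t8921 N)))))))))) (K a48 (M a12 (L l440 (F (L l458 (T t6409 (L l290 (L l508 (T t1488 (T t9132 (K a117 (M a186 (L l123 (F (L l458 (T t9503 (L l290 (L l508 (T t1488 (T t9132 (K a69 (M a101 (F (L l290 (L l508 (T t1488 (L l261 (L l436 (T t2526 (T t9132 N))))))))) (K a101 (M a69 (L l512 (F (L l151 (T t9504 (L l261 (L l436 (T t2526 (K a154 (Fr a207 a138 l332 (V t9505)) (K a207 (M a154 (L l289 (F (L l458 (T t6409 (L l151 (L l325 (T t9506 (K a223 (M a239 (F (L l458 (T t9503 (L l147 (L l151 (L l325 (T t9507 N)))))))) (K a239 (M a223 (L l404 (F (L l458 (T t9503 (L l147 (L l151 (L l325 (T t9507 (K a32 (Fr a170 a138 l206 (V t2526)) (K a170 (M a32 (F (L l266 (L l303 (L l412 (T t9508 (L l220 (L l231 (L l290 (L l508 (T t1488 N))))))))))) N))))))))))) N)))))))))) N)))))))))) N))))))))))) (K a186 (M a117 (F (L l458 (T t9503 (L l290 (L l508 (T t1488 (T t9132 N)))))))) N)))))))))))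 (K a112 (M a84 (F (T t8915 (L l110 (L l350 (T t3307 (L l110 (T t8882 N)))))))) (K a176 (Fr a192 a128 l304 (Fr a96 a112 l116 (Fr a240 a160 l448 (Fr a144 a48 l484 (V t9514))))) (K a240 (M a72 (L l266 (F (T t8975 (L l126 (L l442 (T t8976 (L l368 (L l412 (T t8977 (K a245 (M a250 (L l455 (F (T t8975 (L l126 (T t8978 (L l368 (L l412 (T t8977 (K a5 (M a165 (F (T t8975 (L l126 (T t8978 (L l368 (L l412 (T t8977 N)))))))) (K a165 (M a5 (L l483 (F (L l126 (T t8978 (L l199 (L l479 (T t9509 (K a90 (Fr a15 a10 l8 (V t8975)) (K a15 (M a90 (L l469 (F (T t8975 (L l126 (T t8978 (L l123 (L l339 (L l383 (T t9510 (K a95 (M a175 (F (T t8975 (L l89 (L l126 (T t8978 (L l123 (L l339 (L l383 (T t9510 N)))))))))) (K a175 (M a95 (L l180 (F (T t8975 (L l126 (T t8978 (L l123 (L l339 (L l383 (T t9510 (K a160 (Fr a170 a10 l462 (V t9399)) (K a170 (M a160 (F (L l220 (L l412 (T t9511 (L l126 (T t8978 (L l208 (L l220 (T t8975 N)))))))))) N)))))))))))) N))))))))))))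 N)))))))))) N))))))))))) (K a250 (M a245 (F (T t8975 (L l126 (T t8978 (L l368 (L l412 (T t8977 N)))))))) N)))))))))))) N)))))))))))))))))⟩
def b0_64__85 : Blk 4 := ⟨[0, 64], [85], [1, 2, 3, 5, 6, 7, 10, 11, 15, 21, 22, 23, 26, 27, 31, 42, 43, 47, 63, 65, 66, 67, 69, 70, 71, 74, 75, 79, 86, 87, 90, 91, 95, 106, 107, 111, 127, 129, 130, 131, 133, 134, 135, 138, 139, 143, 149, 150, 151, 154, 155, 159, 170, 171, 175, 191, 193, 194, 195, 197, 198, 199, 202, 203, 207, 213, 214, 215, 218, 219, 223, 234, 235, 239, 255], [e0_64__85_0, e0_64__85_1, e0_64__85_2, e0_64__85_3, e0_64__85_4, e0_64__85_5, e0_64__85_6, e0_64__85_7, e0_64__85_8, e0_64__85_9, e0_64__85_10, e0_64__85_11, e0_64__85_12, e0_64__85_13, e0_64__85_14, e0_64__85_15, e0_64__85_16, e0_64__85_17, e0_64__85_18, e0_64__85_19, e0_64__85_20, e0_64__85_21, e0_64__85_22, e0_64__85_23, e0_64__85_24, e0_64__85_25, e0_64__85_26, e0_64__85_27, e0_64__85_28, e0_64__85_29, e0_64__85_30,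 e0_64__85_31, e0_64__85_32, e0_64__85_33, e0_64__85_34, e0_64__85_35, e0_64__85_36, e0_64__85_37, e0_64__85_38, e0_64__85_39, e0_64__85_40, e0_64__85_41, e0_64__85_42, e0_64__85_43, e0_64__85_44, e0_64__85_45, e0_64__85_46, e0_64__85_47, e0_64__85_48, e0_64__85_49, e0_64__85_50, e0_64__85_51, e0_64__85_52, e0_64__85_53, e0_64__85_54, e0_64__85_55, e0_64__85_56, e0_64__85_57, e0_64__85_58, e0_64__85_59, e0_64__85_60, e0_64__85_61, e0_64__85_62, e0_64__85_63, e0_64__85_64, e0_64__85_65, e0_64__85_66, e0_64__85_67, e0_64__85_68, e0_64__85_69, e0_64__85_70, e0_64__85_71, e0_64__85_72, e0_64__85_73, e0_64__85_74], by decide +kernel, by decide +kernel⟩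

end Pool.Agent.Lib_TTT.K4
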