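import Pool.Agent.Lib_TTT.K4Base
import Pool.Agent.Lib_TTT.K4T00
import Pool.Agent.Lib_TTT.K4T01
import Pool.Agent.Lib_TTT.K4T02
import Pool.Agent.Lib_TTT.K4T03
import Pool.Agent.Lib_TTT.K4T04
import Pool.Agent.Lib_TTT.K4T05
import Pool.Agent.Lib_TTT.K4T06
import Pool.Agent.Lib_TTT.K4T07
import Pool.Agent.Lib_TTT.K4T08
import Pool.Agent.Lib_TTT.K4T09
import Pool.Agent.Lib_TTT.K4T10
import Pool.Agent.Lib_TTT.K4T11

/-! Certificates in `4^4`. -/

set_option autoImplicit false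
set_option maxRecDepth 200000

namespace Pool.Agent.Lib_TTT.K4

open Lib_TTT AC DC

def e0_192__255_0 : Ent 4 := ⟨[a0, a192], [a255, a1], (M a240 (F (T t5426 (L l440 (T t5418 (L l440 (T t5820 (L l440 (T t4219 (L l440 (T t7828 (K a64 (M a84 (F (T t6890 (L l290 (T t9745 (T t9746 N)))))) (K a128 (M a84 (F (L l261 (T t9601 (L l216 (L l290 (T t9745 (L l192 (T t9746 N))))))))) (K a80 (M a84 (F (T t9747 (L l290 (T t9745 (L l340 (T t9748 N))))))) (K a144 (M a84 (F (L l261 (T t9749 (L l470 (T t9094 (L l192 (L l340 (T t9748 N))))))))) (K a208 (M a84 (F (T t6890 (L l434 (T t9750 (T t9751 N)))))) (K a96 (M a84 (F (T t9747 (L l376 (T t6890 (T t9748 N)))))) (K a160 (M a84 (F (L l261 (T t9752 (L l176 (L l290 (T t9745 (L l192 (T t9748 N))))))))) (K a224 (M a84 (F (T t9747 (L l376 (L l470 (T t8887 (L l376 (T t9751 N)))))))) (K a48 (M a81 (L l440 (F (T t9753 (T t9754 (K a117 (M a186 (F (T t9753 (T t9754 N)))) (K a186 (M a117 (F (T t9753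 (T t9754 N)))) N))))))) N))))))))))))))))))))⟩
def e0_192__255_1 : Ent 4 := ⟨[a0, a192], [a255, a2], (M a240 (F (T t5426 (L l440 (T t5418 (L l440 (T t5820 (L l440 (T t4219 (L l440 (T t7828 (K a64 (M a84 (F (T t6890 (L l290 (T t9745 (T t9746 N)))))) (K a128 (M a84 (F (L l261 (T t9601 (L l216 (L l290 (T t9745 (L l192 (T t9746 N))))))))) (K a80 (M a84 (F (T t9747 (L l290 (T t9745 (L l340 (T t9748 N))))))) (K a144 (M a84 (F (L l261 (T t9749 (L l470 (T t9094 (L l192 (L l340 (T t9748 N))))))))) (K a208 (M a84 (F (T t6890 (L l434 (T t9750 (T t9751 N)))))) (K a96 (M a84 (F (T t9747 (L l376 (T t6890 (T t9748 N)))))) (K a160 (M a84 (F (L l261 (T t9752 (L l176 (L l290 (T t9745 (L l192 (T t9748 N))))))))) (K a224 (M a84 (F (T t9747 (L l376 (L l470 (T t8887 (L l376 (T t9751 N)))))))) (K a48 (M a162 (L l440 (F (T t9755 (T t9756 (K a117 (M a186 (F (T t9755 (T t9756 N)))) (K a186 (M a117 (F (T t9755 (T t9756 N)))) N))))))) N))))))))))))))))))))⟩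
def e0_192__255_2 : Ent 4 := ⟨[a0, a192], [a255, a3], (M a240 (L l475 (F (T t5426 (L l45 (L l440 (T t5418 (L l45 (L l440 (T t5820 (L l45 (L l440 (T t4219 (L l45 (L l440 (T t7828 (K a64 (M a84 (L l475 (F (T t6890 (L l290 (L l333 (T t9745 (T t9746 (K a87 (M a171 (F (T t6890 (L l290 (L l333 (T t9745 (T t9746 N))))))) (K a171 (M a87 (F (T t6890 (L l174 (L l290 (L l333 (T t9745 (T t9746 N)))))))) N)))))))))) (K a128 (M a84 (L l475 (F (L l192 (T t6890 (L l216 (L l290 (L l333 (T t9745 (L l192 (T t9746 (K a87 (M a171 (F (L l192 (T t6890 (L l216 (L l290 (L l333 (T t9745 (L l192 (T t9746 N)))))))))) (K a171 (M a87 (F (L l192 (T t6890 (L l174 (L l216 (L l290 (L l333 (T t9745 (L l192 (T t9746 N))))))))))) N))))))))))))) (K a80 (M a84 (L l475 (F (T t9747 (L l290 (L l333 (T t9745 (L l340 (T t9748 (K a87 (M a171 (F (T t9747 (L l290 (L l333 (T t9745 (L l340 (T t9748 N)))))))) (K a171 (M a87 (F (T t9747 (L l174 (L l290 (L l333 (T t9745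 (L l340 (T t9748 N))))))))) N))))))))))) (K a144 (M a162 (L l475 (F (T t9755 (T t9757 (L l340 (L l451 (T t9756 (K a87 (M a171 (F (T t9758 (L l340 (L l457 (L l470 (T t9759 N))))))) (K a171 (M a87 (F (T t9755 (T t9757 (L l179 (L l340 (L l451 (T t9756 N)))))))) N)))))))))) (K a208 (M a84 (L l475 (F (T t6890 (L l69 (L l434 (T t9750 (T t9751 (K a87 (M a171 (F (T t6890 (L l242 (L l261 (L l477 (T t9752 (T t9751 N)))))))) (K a171 (M a87 (F (T t6890 (L l261 (L l477 (T t9749 (T t9751 N))))))) N)))))))))) (K a96 (M a81 (L l475 (F (T t9753 (T t9760 (L l376 (L l451 (T t9754 (K a87 (M a171 (F (T t9753 (T t9760 (L l93 (L l376 (L l451 (T t9754 N)))))))) (K a171 (M a87 (F (T t9761 (L l376 (L l463 (T t9762 N)))))) N)))))))))) (K a160 (M a84 (L l475 (F (L l192 (T t9747 (L l176 (L l290 (L l333 (T t9745 (L l192 (T t9748 (K a87 (M a171 (F (L l192 (T t9747 (L l176 (L l290 (L l333 (T t9745 (L l192 (T t9748 N)))))))))) (K a171 (M a87 (F (L l192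 (T t9747 (L l174 (L l176 (L l290 (L l333 (T t9745 (L l192 (T t9748 N))))))))))) N))))))))))))) (K a224 (M a84 (L l475 (F (T t9747 (L l9 (L l376 (L l470 (T t8887 (L l376 (T t9751 (K a87 (M a171 (F (T t9747 (L l261 (L l477 (T t9601 (L l376 (T t9751 N)))))))) (K a171 (M a87 (F (T t9747 (L l9 (L l174 (L l470 (T t9094 (L l376 (T t9751 N))))))))) N)))))))))))) (K a48 (M a81 (L l45 (L l440 (L l475 (F (T t9753 (L l451 (T t9754 (T t9760 (K a33 (M a18 (L l440 (L l475 (F (T t9753 (L l451 (T t9754 (T t9760 (K a117 (M a186 (L l475 (F (T t9753 (L l451 (T t9754 (T t9760 (K a87 (M a171 (F (T t9753 (L l93 (L l451 (T t9754 (T t9760 N))))))) (K a171 (M a87 (F (T t9763 (L l463 (L l470 (T t9764 N)))))) N))))))))) (K a186 (M a117 (L l475 (F (T t9753 (L l451 (T t9754 (T t9760 (K a87 (M a171 (F (T t9753 (L l93 (L l451 (T t9754 (T t9760 N))))))) (K a171 (M a87 (F (T t9763 (L l463 (L l470 (T t9764 N)))))) N))))))))) (K a87 (M a171 (L l440 (F (T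 t9753 (L l93 (L l451 (T t9754 (T t9760 (K a117 (M a186 (F (T t9753 (L l93 (L l451 (T t9754 (T t9760 N))))))) (K a186 (M a117 (F (T t9753 (L l93 (L l451 (T t9754 (T t9760 N))))))) N)))))))))) (K a171 (M a87 (L l440 (F (T t9763 (L l463 (L l470 (T t9764 (K a117 (M a186 (F (T t9763 (L l463 (L l470 (T t9764 N)))))) (K a186 (M a117 (F (T t9763 (L l463 (L l470 (T t9764 N)))))) N))))))))) N)))))))))))) (K a117 (M a186 (L l45 (L l475 (F (T t9753 (L l451 (T t9754 (T t9760 (K a33 (M a18 (L l475 (F (T t9753 (L l451 (T t9754 (T t9760 (K a87 (M a171 (F (T t9753 (L l93 (L l451 (T t9754 (T t9760 N))))))) (K a171 (M a87 (F (T t9763 (L l463 (L l470 (T t9764 N)))))) N))))))))) (K a18 (M a33 (L l475 (F (T t9753 (L l451 (T t9754 (T t9760 (K a87 (M a171 (F (T t9753 (L l93 (L l451 (T t9754 (T t9760 N))))))) (K a171 (M a87 (F (T t9763 (L l342 (L l463 (T t9762 N)))))) N))))))))) (K a87 (M a171 (L l45 (F (T t9753 (L l93 (L l451 (T t9754 (T t9760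 (K a33 (M a18 (F (T t9753 (L l93 (L l451 (T t9754 (T t9760 N))))))) (K a18 (M a33 (F (T t9753 (L l93 (L l451 (T t9754 (T t9760 N))))))) N)))))))))) (K a171 (M a87 (L l45 (F (T t9761 (L l463 (T t9762 (K a33 (M a18 (F (T t9763 (L l463 (L l470 (T t9764 N)))))) (K a18 (M a33 (F (T t9763 (L l342 (L l463 (T t9762 N)))))) N)))))))) N)))))))))))) (K a18 (M a33 (L l440 (L l475 (F (T t9753 (L l451 (T t9754 (T t9760 (K a117 (M a186 (L l475 (F (T t9753 (L l451 (T t9754 (T t9760 (K a87 (M a171 (F (T t9753 (L l93 (L l451 (T t9754 (T t9760 N))))))) (K a171 (M a87 (F (T t9763 (L l342 (L l463 (T t9762 N)))))) N))))))))) (K a186 (M a117 (L l475 (F (T t9753 (L l451 (T t9754 (T t9760 (K a87 (M a171 (F (T t9753 (L l93 (L l451 (T t9754 (T t9760 N))))))) (K a171 (M a87 (F (T t9763 (L l342 (L l463 (T t9762 N)))))) N))))))))) (K a87 (M a171 (L l440 (F (T t9753 (L l93 (L l451 (T t9754 (T t9760 (K a117 (M a186 (F (T t9753 (L l93 (L l451 (T t9754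 (T t9760 N))))))) (K a186 (M a117 (F (T t9753 (L l93 (L l451 (T t9754 (T t9760 N))))))) N)))))))))) (K a171 (M a87 (L l440 (F (T t9763 (L l342 (L l463 (T t9762 (K a117 (M a186 (F (T t9763 (L l342 (L l463 (T t9762 N)))))) (K a186 (M a117 (F (T t9763 (L l342 (L l463 (T t9762 N)))))) N))))))))) N)))))))))))) (K a186 (M a117 (L l45 (L l475 (F (T t9753 (L l451 (T t9754 (T t9760 (K a33 (M a18 (L l475 (F (T t9753 (L l451 (T t9754 (T t9760 (K a87 (M a171 (F (T t9753 (L l93 (L l451 (T t9754 (T t9760 N))))))) (K a171 (M a87 (F (T t9763 (L l463 (L l470 (T t9764 N)))))) N))))))))) (K a18 (M a33 (L l475 (F (T t9753 (L l451 (T t9754 (T t9760 (K a87 (M a171 (F (T t9753 (L l93 (L l451 (T t9754 (T t9760 N))))))) (K a171 (M a87 (F (T t9763 (L l342 (L l463 (T t9762 N)))))) N))))))))) (K a87 (M a171 (L l45 (F (T t9753 (L l93 (L l451 (T t9754 (T t9760 (K a33 (M a18 (F (T t9753 (L l93 (L l451 (T t9754 (T t9760 N))))))) (K a18 (M a33 (F (T t9753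 (L l93 (L l451 (T t9754 (T t9760 N))))))) N)))))))))) (K a171 (M a87 (L l45 (F (T t9761 (L l463 (T t9762 (K a33 (M a18 (F (T t9763 (L l463 (L l470 (T t9764 N)))))) (K a18 (M a33 (F (T t9763 (L l342 (L l463 (T t9762 N)))))) N)))))))) N)))))))))))) (K a87 (M a171 (L l45 (L l440 (F (T t9753 (L l93 (L l451 (T t9754 (T t9760 (K a33 (M a18 (L l440 (F (T t9753 (L l93 (L l451 (T t9754 (T t9760 (K a117 (M a186 (F (T t9753 (L l93 (L l451 (T t9754 (T t9760 N))))))) (K a186 (M a117 (F (T t9753 (L l93 (L l451 (T t9754 (T t9760 N))))))) N)))))))))) (K a117 (M a186 (L l45 (F (T t9753 (L l93 (L l451 (T t9754 (T t9760 (K a33 (M a18 (F (T t9753 (L l93 (L l451 (T t9754 (T t9760 N))))))) (K a18 (M a33 (F (T t9753 (L l93 (L l451 (T t9754 (T t9760 N))))))) N)))))))))) (K a18 (M a33 (L l440 (F (T t9753 (L l93 (L l451 (T t9754 (T t9760 (K a117 (M a186 (F (T t9753 (L l93 (L l451 (T t9754 (T t9760 N))))))) (K a186 (M a117 (F (T t9753 (L l93 (L l451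 (T t9754 (T t9760 N))))))) N)))))))))) (K a186 (M a117 (L l45 (F (T t9753 (L l93 (L l451 (T t9754 (T t9760 (K a33 (M a18 (F (T t9753 (L l93 (L l451 (T t9754 (T t9760 N))))))) (K a18 (M a33 (F (T t9753 (L l93 (L l451 (T t9754 (T t9760 N))))))) N)))))))))) N))))))))))))) (K a171 (M a87 (L l45 (L l440 (F (T t9761 (L l463 (T t9762 (K a33 (M a18 (L l440 (F (T t9763 (L l463 (L l470 (T t9764 (K a117 (M a186 (F (T t9763 (L l463 (L l470 (T t9764 N)))))) (K a186 (M a117 (F (T t9763 (L l463 (L l470 (T t9764 N)))))) N))))))))) (K a117 (M a186 (L l45 (F (T t9761 (L l463 (T t9762 (K a33 (M a18 (F (T t9763 (L l463 (L l470 (T t9764 N)))))) (K a18 (M a33 (F (T t9763 (L l342 (L l463 (T t9762 N)))))) N)))))))) (K a18 (M a33 (L l440 (F (T t9763 (L l342 (L l463 (T t9762 (K a117 (M a186 (F (T t9763 (L l342 (L l463 (T t9762 N)))))) (K a186 (M a117 (F (T t9763 (L l342 (L l463 (T t9762 N)))))) N))))))))) (K a186 (M a117 (L l45 (F (T t9761 (L l463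 (T t9762 (K a33 (M a18 (F (T t9763 (L l463 (L l470 (T t9764 N)))))) (K a18 (M a33 (F (T t9763 (L l342 (L l463 (T t9762 N)))))) N)))))))) N))))))))))) N))))))))))))))) (K a87 (M a171 (F (T t5426 (L l45 (L l440 (T t5418 (L l45 (L l440 (T t5820 (L l45 (L l440 (T t4219 (L l45 (L l440 (T t7828 (K a64 (M a162 (F (L l120 (T t9755 (L l116 (L l457 (L l470 (T t9759 N)))))))) (K a128 (M a162 (F (T t9755 (L l457 (L l470 (T t9759 N)))))) (K a80 (M a130 (F (L l340 (T t9765 (L l116 (L l349 (L l434 (T t9766 N)))))))) (K a144 (M a130 (F (L l340 (T t9765 (L l170 (L l349 (L l434 (T t9766 N)))))))) (K a208 (M a162 (F (T t9758 (L l340 (L l457 (L l470 (T t9759 N))))))) (K a96 (M a130 (F (T t9765 (L l116 (L l349 (L l434 (T t9766 N))))))) (K a160 (M a130 (F (T t9765 (L l349 (L l434 (T t9766 N)))))) (K a224 (M a84 (F (T t9747 (L l261 (L l477 (T t9601 (L l376 (T t9751 N)))))))) (K a48 (M a130 (L l45 (L l440 (F (T t9765 (L l349 (L l434 (T t9766 (K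 a33 (M a18 (L l440 (F (T t9765 (L l349 (L l434 (T t9766 (K a117 (M a186 (F (T t9765 (L l349 (L l434 (T t9766 N)))))) (K a186 (M a117 (F (T t9765 (L l188 (L l349 (L l434 (T t9766 N))))))) N))))))))) (K a117 (M a186 (L l45 (F (T t9765 (L l349 (L l434 (T t9766 (K a33 (M a18 (F (T t9765 (L l349 (L l434 (T t9766 N)))))) (K a18 (M a33 (F (L l342 (T t9765 (L l349 (L l434 (T t9766 N))))))) N))))))))) (K a18 (M a33 (L l440 (F (L l342 (T t9765 (L l349 (L l434 (T t9766 (K a117 (M a186 (F (L l342 (T t9765 (L l349 (L l434 (T t9766 N))))))) (K a186 (M a117 (F (L l342 (T t9765 (L l188 (L l349 (L l434 (T t9766 N)))))))) N)))))))))) (K a186 (M a117 (L l45 (F (T t9765 (L l188 (L l349 (L l434 (T t9766 (K a33 (M a18 (F (T t9765 (L l188 (L l349 (L l434 (T t9766 N))))))) (K a18 (M a33 (F (L l342 (T t9765 (L l188 (L l349 (L l434 (T t9766 N)))))))) N)))))))))) N)))))))))))) N)))))))))))))))))))))))) (K a171 (M a87 (F (T t5426 (L l45 (L l440 (T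 t5418 (L l45 (L l440 (T t5820 (L l45 (L l440 (T t4219 (L l45 (L l440 (T t7828 (K a64 (M a81 (F (T t9753 (L l140 (L l463 (T t9762 N)))))) (K a128 (M a81 (F (L l196 (T t9753 (L l192 (L l463 (T t9762 N))))))) (K a80 (M a65 (F (T t9767 (L l391 (L l434 (T t9768 N)))))) (K a144 (M a65 (F (T t9767 (L l192 (L l391 (L l434 (T t9768 N))))))) (K a208 (M a84 (F (T t6890 (L l261 (L l477 (T t9749 (T t9751 N))))))) (K a96 (M a65 (F (L l376 (T t9767 (L l104 (L l391 (L l434 (T t9768 N)))))))) (K a160 (M a65 (F (L l376 (T t9767 (L l192 (L l391 (L l434 (T t9768 N)))))))) (K a224 (M a81 (F (T t9761 (L l376 (L l463 (T t9762 N)))))) (K a48 (M a65 (L l45 (L l440 (F (T t9767 (L l391 (L l434 (T t9768 (K a33 (M a18 (L l440 (F (L l377 (T t9767 (L l391 (L l434 (T t9768 (K a117 (M a186 (F (L l377 (T t9767 (L l111 (L l391 (L l434 (T t9768 N)))))))) (K a186 (M a117 (F (L l377 (T t9767 (L l391 (L l434 (T t9768 N))))))) N)))))))))) (K a117 (M a186 (L l45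 (F (T t9767 (L l111 (L l391 (L l434 (T t9768 (K a33 (M a18 (F (L l377 (T t9767 (L l111 (L l391 (L l434 (T t9768 N)))))))) (K a18 (M a33 (F (T t9767 (L l111 (L l391 (L l434 (T t9768 N))))))) N)))))))))) (K a18 (M a33 (L l440 (F (T t9767 (L l391 (L l434 (T t9768 (K a117 (M a186 (F (T t9767 (L l111 (L l391 (L l434 (T t9768 N))))))) (K a186 (M a117 (F (T t9767 (L l391 (L l434 (T t9768 N)))))) N))))))))) (K a186 (M a117 (L l45 (F (T t9767 (L l391 (L l434 (T t9768 (K a33 (M a18 (F (L l377 (T t9767 (L l391 (L l434 (T t9768 N))))))) (K a18 (M a33 (F (T t9767 (L l391 (L l434 (T t9768 N)))))) N))))))))) N)))))))))))) N)))))))))))))))))))))))) N)))))))))))))))))))))))))))⟩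
def e0_192__255_3 : Ent 4 := ⟨[a0, a192], [a255, a5], (M a240 (F (T t5426 (L l440 (T t5418 (L l440 (T t5820 (L l440 (T t4219 (L l440 (T t7828 (K a64 (M a84 (F (T t6885 (L l290 (T t9745 (T t9746 N)))))) (K a128 (M a84 (F (L l261 (T t9601 (L l216 (L l290 (T t9745 (L l192 (T t9746 N))))))))) (K a80 (M a84 (F (T t9747 (L l290 (T t9745 (L l340 (T t9748 N))))))) (K a144 (M a84 (F (L l261 (T t9749 (L l1 (L l470 (T t9094 (L l192 (L l340 (T t9748 N)))))))))) (K a208 (M a84 (F (T t9769 (L l1 (T t6890 (T t9751 N)))))) (K a96 (M a84 (F (T t9747 (L l1 (L l376 (T t6890 (T t9748 N))))))) (K a160 (M a84 (F (L l261 (T t9752 (L l176 (L l290 (T t9745 (L l192 (T t9748 N))))))))) (K a224 (M a84 (F (T t9747 (L l376 (L l470 (T t8887 (L l376 (T t9751 N)))))))) (K a48 (M a84 (L l440 (F (T t9747 (L l1 (T t6890 (T t9748 (K a117 (M a186 (F (T t9747 (L l261 (L l436 (T t9601 (T t9748 N))))))) (K a186 (M a117 (F (T t9747 (L l261 (L l436 (T t9601 (T t9748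 N))))))) N))))))))) N))))))))))))))))))))⟩
def e0_192__255_4 : Ent 4 := ⟨[a0, a192], [a255, a6], (M a48 (F (T t55 (L l266 (T t27 (L l266 (T t19 (L l266 (T t837 (L l266 (T t28 (K a64 (M a148 (F (L l434 (T t9770 (L l9 (L l140 (L l470 (T t9771 (L l116 (T t9772 N)))))))))) (K a128 (M a148 (F (T t9773 (L l9 (L l470 (T t9771 (T t9772 N))))))) (K a16 (M a148 (F (T t9773 (L l261 (T t9774 (T t9775 N)))))) (K a80 (M a84 (F (T t9747 (T t3650 (T t9776 N))))) (K a144 (M a84 (F (T t3650 (L l434 (T t9750 (L l192 (T t9776 N))))))) (K a32 (M a148 (F (T t5076 (L l290 (L l376 (T t9777 (L l376 (T t9775 N)))))))) (K a96 (M a84 (F (T t9747 (L l290 (T t3280 (L l376 (T t9776 N))))))) (K a160 (M a84 (F (L l192 (T t9747 (L l376 (T t3650 (L l192 (L l376 (T t9776 N))))))))) (K a240 (M a84 (L l266 (F (T t9747 (T t3650 (T t9776 (K a245 (M a250 (F (T t3650 (L l261 (L l262 (T t9749 (T t9778 N))))))) (K a250 (M a245 (F (T t3650 (L l261 (L l262 (T t9749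 (T t9778 N))))))) N)))))))) N))))))))))))))))))))⟩
def e0_192__255_5 : Ent 4 := ⟨[a0, a192], [a255, a7], (M a48 (F (T t55 (L l266 (T t27 (L l266 (T t19 (L l266 (T t837 (L l266 (T t28 (K a64 (M a148 (F (L l434 (T t9770 (L l51 (L l140 (L l470 (T t9771 (L l116 (T t9772 N)))))))))) (K a128 (M a148 (F (T t9779 (L l51 (L l470 (T t9771 (T t9772 N))))))) (K a16 (M a148 (F (T t9780 (L l315 (T t9773 (T t9775 N)))))) (K a80 (M a84 (F (T t9747 (T t3650 (T t9776 N))))) (K a144 (M a84 (F (T t3650 (L l434 (T t9750 (L l192 (T t9776 N))))))) (K a32 (M a148 (F (T t5076 (L l290 (L l315 (L l376 (T t9777 (L l376 (T t9775 N))))))))) (K a96 (M a84 (F (T t9747 (L l290 (T t3280 (L l376 (T t9776 N))))))) (K a160 (M a84 (F (L l192 (T t9747 (L l376 (T t3650 (L l192 (L l376 (T t9776 N))))))))) (K a240 (M a84 (L l266 (F (T t9747 (T t3650 (T t9776 (K a245 (M a250 (F (T t3650 (L l261 (L l262 (T t9749 (T t9778 N))))))) (K a250 (M a245 (F (T t3650 (L l261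 (L l262 (T t9749 (T t9778 N))))))) N)))))))) N))))))))))))))))))))⟩
def e0_192__255_6 : Ent 4 := ⟨[a0, a192], [a255, a10], (M a240 (F (T t5426 (L l440 (T t5418 (L l440 (T t5820 (L l440 (T t4219 (L l440 (T t7828 (K a64 (M a84 (F (T t6890 (L l290 (T t9745 (T t9746 N)))))) (K a128 (M a84 (F (L l261 (T t9601 (L l216 (L l290 (T t9745 (L l192 (T t9746 N))))))))) (K a80 (M a84 (F (T t9747 (L l290 (T t9745 (L l340 (T t9748 N))))))) (K a144 (M a84 (F (L l261 (T t9749 (L l470 (T t9094 (L l192 (L l340 (T t9748 N))))))))) (K a208 (M a84 (F (T t6890 (L l434 (T t9750 (T t9751 N)))))) (K a96 (M a84 (F (T t9747 (L l376 (T t6890 (T t9748 N)))))) (K a160 (M a84 (F (L l261 (T t9752 (L l176 (L l290 (T t9745 (L l192 (T t9748 N))))))))) (K a224 (M a84 (F (T t9747 (L l376 (L l470 (T t8887 (L l376 (T t9751 N)))))))) (K a48 (M a84 (L l440 (F (T t9747 (T t6890 (T t9748 (K a117 (M a186 (F (T t6890 (L l261 (L l436 (T t9752 (T t9748 N))))))) (K a186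 (M a117 (F (T t6890 (L l261 (L l436 (T t9752 (T t9748 N))))))) N)))))))) N))))))))))))))))))))⟩
def e0_192__255_7 : Ent 4 := ⟨[a0, a192], [a255, a11], (M a48 (F (T t55 (L l266 (T t27 (L l266 (T t19 (L l266 (T t837 (L l266 (T t28 (K a64 (M a148 (F (L l434 (T t9770 (L l2 (L l140 (L l470 (T t9771 (L l116 (T t9772 N)))))))))) (K a128 (M a148 (F (T t9773 (L l2 (L l470 (T t9771 (T t9772 N))))))) (K a16 (M a148 (F (T t9773 (L l261 (T t9774 (T t9775 N)))))) (K a80 (M a84 (F (T t9747 (T t3650 (L l57 (T t9776 N)))))) (K a144 (M a84 (F (T t3650 (L l434 (T t9750 (L l57 (L l192 (T t9776 N)))))))) (K a32 (M a148 (F (T t5076 (L l290 (L l376 (T t9777 (L l376 (T t9775 N)))))))) (K a96 (M a84 (F (T t9747 (L l290 (T t3280 (L l57 (L l376 (T t9776 N)))))))) (K a160 (M a84 (F (L l192 (T t9747 (L l376 (T t3650 (L l57 (L l192 (L l376 (T t9776 N)))))))))) (K a240 (M a84 (L l266 (F (T t9747 (T t3650 (L l57 (T t9776 (K a245 (M a250 (F (T t3650 (L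 l261 (L l262 (T t9749 (L l321 (T t9778 N)))))))) (K a250 (M a245 (F (T t3650 (L l261 (L l262 (T t9749 (L l321 (T t9778 N)))))))) N))))))))) N))))))))))))))))))))⟩
def e0_192__255_8 : Ent 4 := ⟨[a0, a192], [a255, a15], (M a240 (L l469 (F (T t5426 (L l75 (L l440 (T t5418 (L l75 (L l440 (T t5820 (L l75 (L l440 (T t4219 (L l75 (L l440 (T t7828 (K a64 (M a84 (L l469 (F (T t6890 (L l290 (L l327 (T t9745 (T t9746 (K a95 (M a175 (F (T t9781 (L l290 (L l327 (T t9745 (L l89 (T t9746 N)))))))) (K a175 (M a95 (F (T t9782 (L l180 (L l475 (T t9783 N)))))) N)))))))))) (K a128 (M a84 (L l469 (F (L l192 (T t6890 (L l216 (L l290 (L l327 (T t9745 (L l192 (T t9746 (K a95 (M a175 (F (L l89 (L l192 (T t6890 (L l216 (L l290 (L l327 (T t9745 (L l89 (L l192 (T t9746 N)))))))))))) (K a175 (M a95 (F (L l216 (T t9782 (L l180 (L l192 (L l475 (T t9783 N)))))))) N))))))))))))) (K a80 (M a12 (L l469 (F (T t9784 (L l290 (L l327 (T t449 (L l90 (L l340 (T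 t9785 (K a95 (M a175 (L l94 (F (T t9786 (L l290 (L l327 (T t468 (L l90 (T t9787 (K a85 (M a90 (F (L l458 (T t159 (L l61 (L l93 (L l361 (L l481 (T t9788 N))))))))) (K a90 (M a85 (F (T t9784 (L l137 (L l265 (L l433 (T t9789 N))))))) N))))))))))) (K a175 (M a95 (F (T t9786 (L l290 (L l327 (T t468 (L l90 (T t9787 N)))))))) N)))))))))))) (K a144 (M a88 (L l469 (F (T t9790 (L l192 (T t9791 (T t9792 (K a95 (M a175 (F (T t9790 (L l261 (L l471 (T t3953 (T t9792 N))))))) (K a175 (M a95 (F (T t9790 (L l180 (L l192 (L l481 (T t9793 N))))))) N))))))))) (K a208 (M a164 (L l469 (F (L l340 (T t9794 (L l290 (L l327 (L l370 (T t9795 (L l340 (T t9796 (K a95 (M a175 (F (L l370 (T t9797 (L l94 (L l340 (L l481 (T t9798 N)))))))) (K a175 (M a95 (F (L l175 (L l340 (T t9794 (L l290 (L l327 (L l370 (T t9795 (L l175 (L l340 (T t9796 N)))))))))))) N))))))))))))) (K a96 (M a84 (L l469 (F (T t9747 (L l376 (T t6890 (T t9748 (K a95 (M a175 (F (T t9747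 (L l89 (L l261 (L l376 (L l471 (T t9799 (T t9748 N))))))))) (K a175 (M a95 (F (T t9747 (L l180 (L l376 (L l475 (T t9783 N))))))) N))))))))) (K a160 (M a12 (L l469 (F (T t9800 (L l290 (L l327 (T t449 (L l192 (T t9785 (K a95 (M a175 (F (T t2119 (L l63 (L l434 (T t9801 (L l192 (T t9787 N)))))))) (K a175 (M a95 (L l180 (F (T t2119 (L l63 (L l434 (T t9801 (L l192 (T t9787 (K a165 (M a170 (F (T t9800 (L l213 (L l265 (L l433 (T t9802 N))))))) (K a170 (M a165 (F (L l464 (T t2119 (L l61 (L l179 (L l397 (L l481 (T t9803 N))))))))) N))))))))))) N))))))))))) (K a224 (M a84 (L l469 (F (T t9747 (L l3 (L l376 (L l470 (T t8887 (L l376 (T t9751 (K a95 (M a175 (F (T t9747 (L l94 (L l261 (L l471 (T t9601 (L l89 (L l376 (T t9751 N)))))))))) (K a175 (M a95 (F (T t9747 (L l180 (L l376 (L l475 (T t9783 N))))))) N)))))))))))) (K a48 (M a84 (L l75 (L l440 (L l469 (F (T t9747 (T t6890 (T t9748 (K a37 (M a26 (L l440 (L l469 (F (T t6890 (L l261 (L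 l436 (L l471 (T t9752 (T t9748 (K a117 (M a186 (L l469 (F (T t6890 (L l261 (L l436 (L l471 (T t9752 (T t9748 (K a95 (M a175 (F (T t9747 (L l94 (L l261 (L l436 (L l471 (T t9601 (T t9748 N))))))))) (K a175 (M a95 (F (T t9747 (L l180 (L l475 (T t9783 N)))))) N))))))))))) (K a186 (M a117 (L l469 (F (T t6890 (L l261 (L l436 (L l471 (T t9752 (T t9748 (K a95 (M a175 (F (T t9747 (L l94 (L l261 (L l436 (L l471 (T t9601 (T t9748 N))))))))) (K a175 (M a95 (F (T t9747 (L l180 (L l475 (T t9783 N)))))) N))))))))))) (K a95 (M a175 (L l440 (F (T t9747 (L l94 (L l261 (L l436 (L l471 (T t9601 (T t9748 (K a117 (M a186 (F (T t9747 (L l94 (L l261 (L l436 (L l471 (T t9601 (T t9748 N))))))))) (K a186 (M a117 (F (T t9747 (L l94 (L l261 (L l436 (L l471 (T t9601 (T t9748 N))))))))) N)))))))))))) (K a175 (M a95 (L l440 (F (T t9747 (L l180 (L l475 (T t9783 (K a117 (M a186 (F (T t9747 (L l180 (L l475 (T t9783 N)))))) (K a186 (M a117 (F (T t9747 (L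 l180 (L l475 (T t9783 N)))))) N))))))))) N)))))))))))))) (K a117 (M a186 (L l75 (L l469 (F (T t6890 (L l261 (L l436 (L l471 (T t9752 (T t9748 (K a37 (M a26 (L l469 (F (T t6890 (L l261 (L l436 (L l471 (T t9752 (T t9748 (K a95 (M a175 (F (T t9747 (L l94 (L l261 (L l436 (L l471 (T t9601 (T t9748 N))))))))) (K a175 (M a95 (F (T t9747 (L l180 (L l475 (T t9783 N)))))) N))))))))))) (K a26 (M a37 (L l469 (F (T t6890 (L l261 (L l436 (L l471 (T t9752 (T t9748 (K a95 (M a175 (F (T t9747 (L l94 (L l261 (L l436 (L l471 (T t9601 (T t9748 N))))))))) (K a175 (M a95 (F (T t9747 (L l180 (L l354 (L l475 (T t9783 N))))))) N))))))))))) (K a95 (M a175 (L l75 (F (T t9747 (L l94 (L l261 (L l436 (L l471 (T t9601 (T t9748 (K a37 (M a26 (F (T t9747 (L l94 (L l261 (L l436 (L l471 (T t9601 (T t9748 N))))))))) (K a26 (M a37 (F (T t9747 (L l94 (L l261 (L l436 (L l471 (T t9601 (T t9748 N))))))))) N)))))))))))) (K a175 (M a95 (L l75 (F (T t9747 (L l180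 (L l475 (T t9783 (K a37 (M a26 (F (T t9747 (L l180 (L l475 (T t9783 N)))))) (K a26 (M a37 (F (T t9747 (L l180 (L l354 (L l475 (T t9783 N))))))) N))))))))) N)))))))))))))) (K a26 (M a37 (L l440 (L l469 (F (T t6890 (L l261 (L l436 (L l471 (T t9752 (T t9748 (K a117 (M a186 (L l469 (F (T t6890 (L l261 (L l436 (L l471 (T t9752 (T t9748 (K a95 (M a175 (F (T t9747 (L l94 (L l261 (L l436 (L l471 (T t9601 (T t9748 N))))))))) (K a175 (M a95 (F (T t9747 (L l180 (L l354 (L l475 (T t9783 N))))))) N))))))))))) (K a186 (M a117 (L l469 (F (T t6890 (L l261 (L l436 (L l471 (T t9752 (T t9748 (K a95 (M a175 (F (T t9747 (L l94 (L l261 (L l436 (L l471 (T t9601 (T t9748 N))))))))) (K a175 (M a95 (F (T t9747 (L l180 (L l354 (L l475 (T t9783 N))))))) N))))))))))) (K a95 (M a175 (L l440 (F (T t9747 (L l94 (L l261 (L l436 (L l471 (T t9601 (T t9748 (K a117 (M a186 (F (T t9747 (L l94 (L l261 (L l436 (L l471 (T t9601 (T t9748 N))))))))) (K a186 (M a117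 (F (T t9747 (L l94 (L l261 (L l436 (L l471 (T t9601 (T t9748 N))))))))) N)))))))))))) (K a175 (M a95 (L l440 (F (T t9747 (L l180 (L l354 (L l475 (T t9783 (K a117 (M a186 (F (T t9747 (L l180 (L l354 (L l475 (T t9783 N))))))) (K a186 (M a117 (F (T t9747 (L l180 (L l354 (L l475 (T t9783 N))))))) N)))))))))) N)))))))))))))) (K a186 (M a117 (L l75 (L l469 (F (T t6890 (L l261 (L l436 (L l471 (T t9752 (T t9748 (K a37 (M a26 (L l469 (F (T t6890 (L l261 (L l436 (L l471 (T t9752 (T t9748 (K a95 (M a175 (F (T t9747 (L l94 (L l261 (L l436 (L l471 (T t9601 (T t9748 N))))))))) (K a175 (M a95 (F (T t9747 (L l180 (L l475 (T t9783 N)))))) N))))))))))) (K a26 (M a37 (L l469 (F (T t6890 (L l261 (L l436 (L l471 (T t9752 (T t9748 (K a95 (M a175 (F (T t9747 (L l94 (L l261 (L l436 (L l471 (T t9601 (T t9748 N))))))))) (K a175 (M a95 (F (T t9747 (L l180 (L l354 (L l475 (T t9783 N))))))) N))))))))))) (K a95 (M a175 (L l75 (F (T t9747 (L l94 (L l261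 (L l436 (L l471 (T t9601 (T t9748 (K a37 (M a26 (F (T t9747 (L l94 (L l261 (L l436 (L l471 (T t9601 (T t9748 N))))))))) (K a26 (M a37 (F (T t9747 (L l94 (L l261 (L l436 (L l471 (T t9601 (T t9748 N))))))))) N)))))))))))) (K a175 (M a95 (L l75 (F (T t9747 (L l180 (L l475 (T t9783 (K a37 (M a26 (F (T t9747 (L l180 (L l475 (T t9783 N)))))) (K a26 (M a37 (F (T t9747 (L l180 (L l354 (L l475 (T t9783 N))))))) N))))))))) N)))))))))))))) (K a95 (M a175 (L l75 (L l440 (F (T t9747 (L l94 (L l261 (L l436 (L l471 (T t9601 (T t9748 (K a37 (M a26 (L l440 (F (T t9747 (L l94 (L l261 (L l436 (L l471 (T t9601 (T t9748 (K a117 (M a186 (F (T t9747 (L l94 (L l261 (L l436 (L l471 (T t9601 (T t9748 N))))))))) (K a186 (M a117 (F (T t9747 (L l94 (L l261 (L l436 (L l471 (T t9601 (T t9748 N))))))))) N)))))))))))) (K a117 (M a186 (L l75 (F (T t9747 (L l94 (L l261 (L l436 (L l471 (T t9601 (T t9748 (K a37 (M a26 (F (T t9747 (L l94 (L l261 (L l436 (L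 l471 (T t9601 (T t9748 N))))))))) (K a26 (M a37 (F (T t9747 (L l94 (L l261 (L l436 (L l471 (T t9601 (T t9748 N))))))))) N)))))))))))) (K a26 (M a37 (L l440 (F (T t9747 (L l94 (L l261 (L l436 (L l471 (T t9601 (T t9748 (K a117 (M a186 (F (T t9747 (L l94 (L l261 (L l436 (L l471 (T t9601 (T t9748 N))))))))) (K a186 (M a117 (F (T t9747 (L l94 (L l261 (L l436 (L l471 (T t9601 (T t9748 N))))))))) N)))))))))))) (K a186 (M a117 (L l75 (F (T t9747 (L l94 (L l261 (L l436 (L l471 (T t9601 (T t9748 (K a37 (M a26 (F (T t9747 (L l94 (L l261 (L l436 (L l471 (T t9601 (T t9748 N))))))))) (K a26 (M a37 (F (T t9747 (L l94 (L l261 (L l436 (L l471 (T t9601 (T t9748 N))))))))) N)))))))))))) N))))))))))))))) (K a175 (M a95 (L l75 (L l440 (F (T t9747 (L l180 (L l475 (T t9783 (K a37 (M a26 (L l440 (F (T t9747 (L l180 (L l475 (T t9783 (K a117 (M a186 (F (T t9747 (L l180 (L l475 (T t9783 N)))))) (K a186 (M a117 (F (T t9747 (L l180 (L l475 (T t9783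 N)))))) N))))))))) (K a117 (M a186 (L l75 (F (T t9747 (L l180 (L l475 (T t9783 (K a37 (M a26 (F (T t9747 (L l180 (L l475 (T t9783 N)))))) (K a26 (M a37 (F (T t9747 (L l180 (L l354 (L l475 (T t9783 N))))))) N))))))))) (K a26 (M a37 (L l440 (F (T t9747 (L l180 (L l354 (L l475 (T t9783 (K a117 (M a186 (F (T t9747 (L l180 (L l354 (L l475 (T t9783 N))))))) (K a186 (M a117 (F (T t9747 (L l180 (L l354 (L l475 (T t9783 N))))))) N)))))))))) (K a186 (M a117 (L l75 (F (T t9747 (L l180 (L l475 (T t9783 (K a37 (M a26 (F (T t9747 (L l180 (L l475 (T t9783 N)))))) (K a26 (M a37 (F (T t9747 (L l180 (L l354 (L l475 (T t9783 N))))))) N))))))))) N)))))))))))) N)))))))))))))) (K a95 (M a175 (F (T t5426 (L l61 (L l75 (L l94 (L l325 (L l440 (T t9804 (L l75 (L l94 (L l289 (L l433 (L l440 (T t9805 (L l75 (L l440 (T t5418 (L l75 (L l440 (T t5820 (K a128 (M a168 (F (T t9806 (L l94 (L l475 (T t9807 N)))))) (K a80 (M a12 (L l94 (F (T t9786 (L l290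 (L l327 (T t468 (L l90 (T t9787 (K a85 (M a90 (F (L l458 (T t159 (L l61 (L l93 (L l361 (L l481 (T t9788 N))))))))) (K a90 (M a85 (F (T t9784 (L l137 (L l265 (L l433 (T t9789 N))))))) N))))))))))) (K a144 (M a168 (F (T t9808 (L l94 (L l340 (L l475 (T t9807 N))))))) (K a96 (M a164 (F (T t9809 (L l94 (L l116 (L l481 (T t9798 N))))))) (K a160 (M a84 (F (L l192 (T t9747 (L l176 (L l290 (L l327 (T t9745 (L l192 (T t9748 N)))))))))) (K a224 (M a164 (F (T t9797 (L l94 (L l481 (T t9798 N)))))) (K a48 (M a164 (L l75 (L l440 (F (T t9809 (L l94 (L l481 (T t9798 (K a37 (M a26 (L l440 (F (T t9809 (L l94 (L l481 (T t9798 (K a117 (M a186 (F (T t9809 (L l94 (L l481 (T t9798 N)))))) (K a186 (M a117 (F (T t9809 (L l94 (L l206 (L l481 (T t9798 N))))))) N))))))))) (K a117 (M a186 (L l75 (F (T t9809 (L l94 (L l481 (T t9798 (K a37 (M a26 (F (T t9809 (L l94 (L l481 (T t9798 N)))))) (K a26 (M a37 (F (T t9809 (L l94 (L l481 (T t9798 N)))))) N)))))))))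 (K a26 (M a37 (L l440 (F (T t9809 (L l94 (L l481 (T t9798 (K a117 (M a186 (F (T t9809 (L l94 (L l481 (T t9798 N)))))) (K a186 (M a117 (F (T t9809 (L l94 (L l206 (L l481 (T t9798 N))))))) N))))))))) (K a186 (M a117 (L l75 (F (T t9809 (L l94 (L l206 (L l481 (T t9798 (K a37 (M a26 (F (T t9809 (L l94 (L l206 (L l481 (T t9798 N))))))) (K a26 (M a37 (F (T t9809 (L l94 (L l206 (L l481 (T t9798 N))))))) N)))))))))) N)))))))))))) N)))))))))))))))))))))))))))) (K a175 (M a95 (F (T t5327 (L l61 (L l75 (L l180 (L l325 (L l440 (T t9810 (L l75 (L l180 (L l289 (L l433 (L l440 (T t9811 (L l75 (L l440 (T t4219 (L l75 (L l440 (T t7828 (K a64 (M a84 (F (T t9782 (L l180 (L l475 (T t9783 N)))))) (K a80 (M a84 (F (T t9747 (L l290 (L l327 (T t9745 (L l340 (T t9748 N)))))))) (K a144 (M a88 (F (T t9790 (L l180 (L l192 (L l481 (T t9793 N))))))) (K a208 (M a88 (F (T t9812 (L l180 (L l481 (T t9793 N)))))) (K a96 (M a84 (F (T t9747 (L l180 (L l376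 (L l475 (T t9783 N))))))) (K a160 (M a12 (L l180 (F (T t2119 (L l63 (L l434 (T t9801 (L l192 (T t9787 (K a165 (M a170 (F (T t9800 (L l213 (L l265 (L l433 (T t9802 N))))))) (K a170 (M a165 (F (L l464 (T t2119 (L l61 (L l179 (L l397 (L l481 (T t9803 N))))))))) N))))))))))) (K a48 (M a84 (L l75 (L l440 (F (T t9747 (L l180 (L l475 (T t9783 (K a37 (M a26 (L l440 (F (T t9747 (L l180 (L l475 (T t9783 (K a117 (M a186 (F (T t9747 (L l180 (L l475 (T t9783 N)))))) (K a186 (M a117 (F (T t9747 (L l180 (L l475 (T t9783 N)))))) N))))))))) (K a117 (M a186 (L l75 (F (T t9747 (L l180 (L l475 (T t9783 (K a37 (M a26 (F (T t9747 (L l180 (L l475 (T t9783 N)))))) (K a26 (M a37 (F (T t9747 (L l180 (L l354 (L l475 (T t9783 N))))))) N))))))))) (K a26 (M a37 (L l440 (F (T t9747 (L l180 (L l354 (L l475 (T t9783 (K a117 (M a186 (F (T t9747 (L l180 (L l354 (L l475 (T t9783 N))))))) (K a186 (M a117 (F (T t9747 (L l180 (L l354 (L l475 (T t9783 N)))))))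 N)))))))))) (K a186 (M a117 (L l75 (F (T t9747 (L l180 (L l475 (T t9783 (K a37 (M a26 (F (T t9747 (L l180 (L l475 (T t9783 N)))))) (K a26 (M a37 (F (T t9747 (L l180 (L l354 (L l475 (T t9783 N))))))) N))))))))) N)))))))))))) N)))))))))))))))))))))))))))) N)))))))))))))))))))))))))))⟩
def e0_192__255_9 : Ent 4 := ⟨[a0, a192], [a255, a21], (M a240 (F (T t4730 (L l440 (T t5418 (L l18 (L l440 (T t5820 (L l440 (T t4219 (L l440 (T t7828 (K a64 (M a84 (F (T t6885 (L l290 (T t9745 (T t9746 N)))))) (K a128 (M a84 (F (L l261 (T t9601 (L l216 (L l290 (T t9745 (L l192 (T t9746 N))))))))) (K a80 (M a84 (F (T t9769 (L l340 (T t9748 (L l290 (T t9745 N))))))) (K a144 (M a84 (F (L l261 (T t9749 (L l50 (L l470 (T t9094 (L l192 (L l340 (T t9748 N)))))))))) (K a208 (M a84 (F (T t9769 (L l50 (T t6890 (T t9751 N)))))) (K a96 (M a84 (F (T t9748 (L l290 (T t9745 (L l11 (T t9747 N))))))) (K a160 (M a84 (F (L l261 (T t9752 (L l176 (L l290 (T t9745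 (L l192 (T t9748 N))))))))) (K a224 (M a84 (F (L l11 (T t9747 (L l376 (L l470 (T t8887 (L l376 (T t9751 N))))))))) (K a48 (M a84 (L l440 (F (T t9748 (L l290 (L l508 (T t9745 (L l50 (T t6890 (K a117 (M a186 (F (T t9782 (T t9751 N)))) (K a186 (M a117 (F (T t9782 (T t9751 N)))) N))))))))))) N)))))))))))))))))))))⟩
def e0_192__255_10 : Ent 4 := ⟨[a0, a192], [a255, a22], (M a48 (F (T t55 (L l266 (T t27 (L l266 (T t19 (L l266 (T t837 (L l266 (T t28 (K a64 (M a148 (F (L l116 (T t9773 (L l11 (L l51 (L l140 (L l470 (T t9771 (L l11 (L l116 (T t9772 N)))))))))))) (K a128 (M a148 (F (T t9773 (L l11 (L l51 (L l470 (T t9771 (L l11 (T t9772 N))))))))) (K a16 (M a148 (F (T t9773 (L l261 (T t9774 (T t9775 N)))))) (K a80 (M a84 (F (T t3650 (L l11 (T t9747 (T t9776 N)))))) (K a144 (M a84 (F (T t3650 (L l11 (L l69 (L l434 (T t9750 (L l192 (T t9776 N))))))))) (K a32 (M a148 (F (T t5076 (L l290 (L l376 (T t9777 (L l376 (T t9775 N)))))))) (K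 a96 (M a84 (F (T t9769 (L l290 (T t3280 (L l376 (T t9776 N))))))) (K a160 (M a84 (F (L l376 (T t3650 (L l11 (L l192 (T t9747 (L l192 (L l376 (T t9776 N)))))))))) (K a240 (M a104 (L l266 (F (T t9813 (T t4642 (K a245 (M a250 (F (T t9813 (T t4642 N)))) (K a250 (M a245 (F (T t9813 (T t4642 N)))) N))))))) N))))))))))))))))))))⟩
def e0_192__255_11 : Ent 4 := ⟨[a0, a192], [a255, a23], (M a240 (F (T t5426 (L l440 (T t5418 (L l440 (T t5820 (L l440 (T t4219 (L l440 (T t7828 (K a64 (M a84 (F (T t6890 (L l290 (L l351 (T t9745 (L l351 (T t9746 N)))))))) (K a128 (M a84 (F (L l261 (T t9601 (L l216 (L l290 (L l351 (T t9745 (L l192 (L l351 (T t9746 N))))))))))) (K a80 (M a84 (F (T t9769 (L l340 (T t9748 (L l290 (L l351 (T t9745 N)))))))) (K a144 (M a84 (F (L l261 (T t9749 (L l470 (T t9094 (L l192 (L l340 (T t9748 N))))))))) (K a208 (M a84 (F (T t6890 (L l11 (L l434 (T t9750 (T t9751 N))))))) (K a96 (M a84 (F (T t9814 (L l376 (T t9751 (L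 l470 (T t9094 N))))))) (K a160 (M a84 (F (L l261 (T t9749 (L l176 (L l290 (L l351 (T t9745 (L l192 (T t9748 N)))))))))) (K a224 (M a84 (F (L l11 (T t9747 (L l376 (L l470 (T t8887 (L l376 (T t9751 N))))))))) (K a48 (M a82 (L l440 (F (T t9815 (L l17 (T t9816 (K a117 (M a186 (F (T t9817 (L l17 (L l45 (L l67 (L l475 (T t9818 (L l17 (T t9819 N)))))))))) (K a186 (M a117 (F (T t9817 (L l17 (L l45 (L l67 (L l475 (T t9818 (L l17 (T t9819 N)))))))))) N)))))))) N))))))))))))))))))))⟩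
def e0_192__255_12 : Ent 4 := ⟨[a0, a192], [a255, a26], (M a240 (F (T t4730 (L l75 (L l440 (T t5418 (L l18 (L l75 (L l440 (T t5820 (L l75 (L l440 (T t4219 (L l75 (L l440 (T t7828 (K a64 (M a84 (F (T t6890 (L l290 (T t9745 (T t9746 N)))))) (K a128 (M a84 (F (L l261 (T t9601 (L l216 (L l290 (T t9745 (L l192 (T t9746 N))))))))) (K a80 (M a84 (F (T t9747 (L l290 (T t9745 (L l340 (T t9748 N))))))) (K a144 (M a84 (F (L l261 (T t9749 (L l470 (T t9094 (L l192 (L l340 (T t9748 N))))))))) (K a208 (M a84 (F (T t6890 (L l434 (T t9750 (T t9751 N)))))) (K a96 (M a84 (F (T t9747 (L l376 (T t6890 (T t9748 N)))))) (K a160 (M a84 (F (L l261 (T t9752 (L l176 (L l290 (T t9745 (L l192 (T t9748 N))))))))) (K a224 (M a84 (F (T t9747 (L l376 (L l470 (T t8887 (L l376 (T t9751 N)))))))) (K a48 (M a15 (L l440 (F (T t2821 (L l38 (L l433 (T t9820 (L l433 (T t9821 (K a117 (M a186 (F (T t9822 (L l38 (L l354 (L l433 (T t9823 (L l433 (T t9821 N)))))))))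 (K a186 (M a117 (F (T t2821 (L l38 (L l354 (L l433 (T t9823 (L l190 (L l426 (L l433 (T t9821 N))))))))))) N))))))))))) N)))))))))))))))))))))))))⟩
def e0_192__255_13 : Ent 4 := ⟨[a0, a192], [a255, a27], (M a48 (F (T t55 (L l266 (T t27 (L l266 (T t19 (L l266 (T t837 (L l266 (T t28 (K a64 (M a148 (F (L l434 (T t9770 (L l140 (L l470 (T t9771 (L l116 (T t9772 N))))))))) (K a128 (M a148 (F (T t9773 (L l470 (T t9771 (T t9772 N)))))) (K a16 (M a148 (F (T t9773 (L l261 (T t9774 (T t9775 N)))))) (K a80 (M a84 (F (T t9747 (T t3650 (T t9776 N))))) (K a144 (M a84 (F (T t3650 (L l434 (T t9750 (L l192 (T t9776 N))))))) (K a32 (M a148 (F (T t5076 (L l290 (L l376 (T t9777 (L l376 (T t9775 N)))))))) (K a96 (M a84 (F (T t9747 (L l290 (T t3280 (L l376 (T t9776 N))))))) (K a160 (M a84 (F (L l192 (T t9747 (L l376 (T t3650 (L l192 (L l376 (T t9776 N))))))))) (K a240 (M a84 (L l266 (F (T t9747 (T t3650 (T t9776 (K a245 (M a250 (F (T t3650 (L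 l261 (L l262 (T t9749 (T t9778 N))))))) (K a250 (M a245 (F (T t3650 (L l261 (L l262 (T t9749 (T t9778 N))))))) N)))))))) N))))))))))))))))))))⟩
def e0_192__255_14 : Ent 4 := ⟨[a0, a192], [a255, a31], (M a240 (F (T t4730 (L l440 (T t5418 (L l18 (L l440 (T t5820 (L l440 (T t4219 (L l375 (L l440 (T t7828 (K a64 (M a84 (F (T t6890 (L l290 (T t9745 (L l13 (T t9746 N))))))) (K a128 (M a84 (F (L l261 (T t9601 (L l216 (L l290 (T t9745 (L l13 (L l192 (T t9746 N)))))))))) (K a80 (M a84 (F (T t9747 (L l290 (T t9745 (L l340 (L l375 (T t9748 N)))))))) (K a144 (M a84 (F (L l261 (T t9749 (L l470 (T t9094 (L l192 (L l340 (L l375 (T t9748 N)))))))))) (K a208 (M a168 (L l375 (F (T t9808 (L l261 (T t9824 (L l340 (T t9825 (K a149 (M a90 (F (L l470 (T t9826 (L l199 (L l289 (L l491 (T t9827 N)))))))) (K a90 (M a149 (F (L l261 (T t9824 (L l433 (L l475 (T t9828 N))))))) N)))))))))) (K a96 (M a84 (F (T t9747 (L l376 (T t6890 (L l375 (T t9748 N)))))))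 (K a160 (M a84 (F (L l261 (T t9752 (L l176 (L l290 (T t9745 (L l192 (L l375 (T t9748 N)))))))))) (K a224 (M a84 (F (T t9747 (L l376 (L l470 (T t8887 (L l376 (T t9751 N)))))))) (K a48 (M a161 (L l440 (F (T t9829 (L l375 (T t9830 (K a117 (M a186 (F (T t9829 (L l375 (T t9830 N))))) (K a186 (M a117 (F (T t9829 (L l375 (T t9830 N))))) N)))))))) N))))))))))))))))))))))⟩
def e0_192__255_15 : Ent 4 := ⟨[a0, a192], [a255, a42], (M a240 (F (T t5426 (L l440 (T t5418 (L l440 (T t5820 (L l440 (T t4219 (L l28 (L l440 (T t7828 (K a64 (M a84 (F (T t6890 (L l290 (T t9745 (T t9746 N)))))) (K a128 (M a84 (F (L l261 (T t9601 (L l216 (L l290 (T t9745 (L l192 (T t9746 N))))))))) (K a80 (M a84 (F (T t9747 (L l290 (T t9745 (L l340 (T t9748 N))))))) (K a144 (M a84 (F (L l261 (T t9749 (L l470 (T t9094 (L l192 (L l340 (T t9748 N))))))))) (K a208 (M a84 (F (T t6890 (L l434 (T t9750 (T t9751 N)))))) (K a96 (M a84 (F (T t9747 (L l376 (T t6890 (T t9748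 N)))))) (K a160 (M a84 (F (L l261 (T t9752 (L l176 (L l290 (T t9745 (L l192 (T t9748 N))))))))) (K a224 (M a84 (F (T t9747 (L l376 (L l470 (T t8887 (L l376 (T t9751 N)))))))) (K a48 (M a168 (L l440 (F (T t9831 (L l290 (L l508 (T t9832 (L l56 (T t9833 (K a117 (M a186 (F (T t9806 (T t9825 N)))) (K a186 (M a117 (F (T t9806 (T t9825 N)))) N))))))))))) N)))))))))))))))))))))⟩
def e0_192__255_16 : Ent 4 := ⟨[a0, a192], [a255, a43], (M a240 (F (T t5426 (L l440 (T t5418 (L l440 (T t5820 (L l440 (T t4219 (L l440 (T t7828 (K a64 (M a84 (F (T t6890 (L l290 (T t9745 (T t9746 N)))))) (K a128 (M a84 (F (L l192 (T t6890 (L l216 (L l290 (T t9745 (L l192 (T t9746 N))))))))) (K a80 (M a84 (F (T t9747 (L l290 (T t9745 (L l340 (T t9748 N))))))) (K a144 (M a84 (F (L l261 (T t9749 (L l470 (T t9094 (L l192 (L l340 (T t9748 N))))))))) (K a208 (M a84 (F (T t6890 (L l393 (L l434 (T t9750 (T t9751 N))))))) (K a96 (M a84 (F (T t9747 (L l376 (T t6890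 (T t9748 N)))))) (K a160 (M a84 (F (L l192 (T t9747 (L l176 (L l290 (T t9745 (L l192 (T t9748 N))))))))) (K a224 (M a84 (F (T t9747 (L l376 (L l470 (T t8887 (L l376 (T t9751 N)))))))) (K a48 (M a161 (L l440 (F (T t9829 (L l27 (T t9830 (K a117 (M a186 (F (T t9834 (L l45 (L l67 (L l475 (T t9835 (L l27 (T t9836 N))))))))) (K a186 (M a117 (F (T t9834 (L l45 (L l67 (L l475 (T t9835 (L l27 (T t9836 N))))))))) N)))))))) N))))))))))))))))))))⟩
def e0_192__255_17 : Ent 4 := ⟨[a0, a192], [a255, a47], (M a240 (F (T t5327 (L l440 (T t5418 (L l411 (L l440 (T t5820 (L l440 (T t4219 (L l28 (L l440 (T t7828 (K a64 (M a84 (F (T t6890 (L l290 (T t9745 (L l411 (T t9746 N))))))) (K a128 (M a84 (F (L l261 (T t9601 (L l216 (L l290 (T t9745 (L l192 (L l411 (T t9746 N)))))))))) (K a80 (M a84 (F (T t9747 (L l290 (T t9745 (L l23 (L l340 (T t9748 N)))))))) (K a144 (M a84 (F (L l261 (T t9749 (L l470 (T t9094 (L l23 (L l192 (L l340 (T t9748 N))))))))))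 (K a208 (M a84 (F (T t6890 (L l434 (T t9750 (T t9751 N)))))) (K a96 (M a84 (F (T t9747 (L l376 (T t6890 (L l23 (T t9748 N))))))) (K a160 (M a84 (F (L l261 (T t9752 (L l176 (L l290 (T t9745 (L l23 (L l192 (T t9748 N)))))))))) (K a224 (M a84 (L l411 (F (T t9747 (L l376 (L l470 (T t8887 (L l376 (T t9751 (K a165 (M a106 (F (L l261 (T t9601 (L l433 (L l475 (T t9837 N))))))) (K a106 (M a165 (F (L l261 (T t9601 (L l130 (L l289 (L l498 (T t9838 N)))))))) N))))))))))) (K a48 (M a82 (L l440 (F (T t9815 (L l411 (T t9816 (K a117 (M a186 (F (T t9815 (L l411 (T t9816 N))))) (K a186 (M a117 (F (T t9815 (L l411 (T t9816 N))))) N)))))))) N))))))))))))))))))))))⟩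
def e0_192__255_18 : Ent 4 := ⟨[a0, a192], [a255, a63], (M a48 (L l433 (F (T t55 (L l266 (L l447 (T t27 (L l266 (L l447 (T t19 (L l266 (L l447 (T t837 (L l266 (L l447 (T t28 (K a64 (M a60 (L l433 (F (T t9839 (L l62 (L l470 (T t247 (L l116 (L l140 (T t9840 (K a127 (M a191 (L l144 (F (T t9839 (L l62 (L l470 (T t489 (L l116 (L l140 (T t9840 (K a85 (M a106 (F (T t1543 (L l137 (L l143 (L l505 (L l517 (T t9841 N)))))))) (K a106 (M a85 (F (T t9842 (L l289 (L l295 (T t8376 N)))))) N)))))))))))) (K a191 (M a127 (F (T t9839 (L l62 (L l470 (T t489 (L l116 (L l140 (T t9840 N))))))))) N)))))))))))) (K a128 (M a60 (L l433 (F (T t1308 (L l290 (L l507 (T t9843 (T t9840 (K a127 (M a191 (F (T t9844 (L l62 (L l470 (T t489 (T t9840 N))))))) (K a191 (M a127 (L l220 (F (T t9844 (L l62 (L l470 (T t489 (T t9840 (K a149 (M a170 (F (T t9844 (L l289 (L l295 (T t8370 N)))))) (K a170 (M a149 (F (T t3520 (L l213 (L l219 (L l505 (L l517 (T t9845 N))))))))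 N)))))))))) N)))))))))) (K a16 (M a148 (L l433 (F (T t9773 (L l261 (L l435 (T t9774 (T t9775 (K a127 (M a191 (F (T t9773 (L l144 (L l517 (T t9846 N)))))) (K a191 (M a127 (F (T t9773 (L l33 (L l185 (L l434 (T t9847 (L l185 (T t9775 N))))))))) N)))))))))) (K a80 (M a84 (L l433 (F (T t9747 (T t3650 (T t9776 (K a127 (M a191 (F (T t3650 (L l116 (L l144 (L l261 (L l435 (T t9749 (L l109 (T t9778 N)))))))))) (K a191 (M a127 (F (T t3650 (L l220 (L l475 (T t9848 N)))))) N)))))))) (K a144 (M a84 (L l433 (F (T t3650 (L l33 (L l434 (T t9750 (L l192 (T t9776 (K a127 (M a191 (F (T t3650 (L l144 (L l261 (L l435 (T t9749 (L l109 (L l192 (T t9778 N)))))))))) (K a191 (M a127 (F (T t3650 (L l192 (L l220 (L l475 (T t9848 N))))))) N))))))))))) (K a32 (M a104 (L l433 (F (T t9849 (L l261 (L l435 (T t9850 (T t4642 (K a127 (M a191 (F (T t9849 (L l24 (L l33 (L l144 (L l434 (T t9851 (L l109 (T t4642 N)))))))))) (K a191 (M a127 (F (T t9849 (L l220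 (L l517 (T t9852 N)))))) N)))))))))) (K a96 (M a148 (L l433 (F (L l116 (T t5076 (L l62 (L l100 (L l470 (T t9771 (L l116 (T t9853 (K a127 (M a191 (F (L l100 (T t9854 (L l116 (L l144 (L l517 (T t9846 N)))))))) (K a191 (M a127 (F (L l116 (L l185 (T t5076 (L l62 (L l100 (L l470 (T t9771 (L l116 (L l185 (T t9853 N)))))))))))) N))))))))))))) (K a160 (M a84 (L l433 (F (L l192 (T t9747 (L l376 (T t3650 (L l192 (L l376 (T t9776 (K a127 (M a191 (F (L l376 (T t3650 (L l144 (L l261 (L l435 (T t9749 (L l109 (L l192 (L l376 (T t9778 N)))))))))))) (K a191 (M a127 (F (L l376 (T t3650 (L l192 (L l220 (L l475 (T t9848 N)))))))) N)))))))))))) (K a240 (M a60 (L l266 (L l433 (L l447 (F (T t2658 (L l290 (L l298 (L l507 (T t9843 (L l62 (L l470 (L l478 (T t247 (K a181 (M a122 (L l266 (L l433 (F (T t2658 (L l290 (L l298 (L l507 (T t9855 (L l62 (L l470 (L l478 (T t489 (K a245 (M a250 (L l419 (L l433 (F (T t254 (L l263 (L l443 (T t9856 (K a53 (M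 a117 (L l433 (F (T t254 (L l31 (L l263 (L l443 (T t9856 (K a127 (M a191 (F (T t1334 (L l31 (L l263 (L l443 (T t9856 N))))))) (K a191 (Fr a127 a112 l114 (V t247)) N)))))))))) (K a117 (M a53 (L l433 (F (T t2647 (L l111 (L l263 (L l422 (L l443 (T t9856 (K a127 (M a191 (F (T t1334 (L l111 (L l263 (L l422 (L l443 (T t9856 N)))))))) (K a191 (M a127 (L l190 (F (T t2647 (L l37 (L l111 (L l263 (L l422 (L l443 (T t9857 (K a176 (Fr a186 a58 l426 (V t248)) (K a186 (M a176 (F (T t9858 (L l62 (L l470 (L l478 (T t248 N))))))) N)))))))))))) N))))))))))) (K a127 (M a191 (L l419 (F (T t1334 (L l263 (L l443 (T t9856 (K a53 (M a117 (F (T t1334 (L l31 (L l263 (L l443 (T t9856 N))))))) (K a117 (M a53 (F (T t1334 (L l111 (L l263 (L l422 (L l443 (T t9856 N)))))))) N))))))))) (K a191 (M a127 (L l190 (L l419 (F (T t2647 (L l263 (L l443 (T t9856 (K a176 (Fr a186 a58 l426 (V t72)) (K a53 (Fr a117 a112 l114 (V t247)) (K a117 (M a53 (L l190 (F (T t2647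 (L l37 (L l111 (L l263 (L l422 (L l443 (T t9857 (K a176 (Fr a186 a58 l426 (V t248)) (K a186 (M a176 (F (T t9858 (L l62 (L l470 (L l478 (T t248 N))))))) N)))))))))))) (K a186 (M a176 (L l419 (F (T t9859 (L l62 (L l470 (L l478 (T t489 (K a53 (Fr a117 a112 l114 (V t9858)) (K a117 (M a53 (F (T t9858 (L l62 (L l470 (L l478 (T t248 N))))))) N)))))))))) N)))))))))))) N)))))))))))) (K a250 (M a245 (L l433 (F (T t2658 (L l290 (L l298 (L l507 (T t9855 (L l62 (L l470 (L l478 (T t489 (K a127 (M a191 (F (T t9842 (L l62 (L l470 (L l478 (T t489 (L l144 (L l261 (L l262 (L l435 (T t1333 N)))))))))))) (K a191 (M a127 (L l190 (F (T t1308 (L l220 (T t9860 (K a176 (M a186 (F (T t3520 (L l192 (L l220 (T t9860 N)))))) (K a186 (M a176 (F (T t9859 (L l62 (L l470 (L l478 (T t248 N))))))) N)))))))) N)))))))))))))) (K a127 (M a191 (L l266 (F (T t9842 (L l62 (L l470 (L l478 (T t489 (L l144 (L l261 (L l262 (L l435 (T t1333 (K a245 (M a250 (L l419 (F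 (T t1334 (L l263 (L l443 (T t9856 (K a53 (M a117 (F (T t1334 (L l31 (L l263 (L l443 (T t9856 N))))))) (K a117 (M a53 (F (T t1334 (L l111 (L l263 (L l422 (L l443 (T t9856 N)))))))) N))))))))) (K a250 (M a245 (F (T t9842 (L l62 (L l470 (L l478 (T t489 (L l144 (L l261 (L l262 (L l435 (T t1333 N)))))))))))) N))))))))))))))) (K a191 (M a127 (L l190 (L l266 (F (T t1308 (L l220 (L l419 (T t9860 (K a176 (M a186 (L l266 (F (T t1308 (L l192 (L l220 (L l419 (T t9860 (K a245 (Fr a250 a58 l426 (V t72)) (K a250 (M a245 (F (T t3520 (L l192 (L l220 (T t9860 N)))))) N)))))))))) (K a245 (M a250 (L l190 (L l419 (F (T t2647 (L l263 (L l443 (T t9856 (K a176 (Fr a186 a58 l426 (V t72)) (K a53 (Fr a117 a112 l114 (V t247)) (K a117 (M a53 (L l190 (F (T t2647 (L l37 (L l111 (L l263 (L l422 (L l443 (T t9857 (K a176 (Fr a186 a58 l426 (V t248)) (K a186 (M a176 (F (T t9858 (L l62 (L l470 (L l478 (T t248 N))))))) N)))))))))))) (K a186 (M a176 (L l419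 (F (T t9859 (L l62 (L l470 (L l478 (T t489 (K a53 (Fr a117 a112 l114 (V t9858)) (K a117 (M a53 (F (T t9858 (L l62 (L l470 (L l478 (T t248 N))))))) N)))))))))) N)))))))))))) (K a186 (M a176 (L l266 (F (T t9859 (L l62 (L l470 (L l478 (T t489 (K a245 (M a250 (L l419 (F (T t9859 (L l62 (L l470 (L l478 (T t489 (K a53 (Fr a117 a112 l114 (V t9858)) (K a117 (M a53 (F (T t9858 (L l62 (L l470 (L l478 (T t248 N))))))) N)))))))))) (K a250 (M a245 (F (T t9859 (L l62 (L l470 (L l478 (T t248 N))))))) N)))))))))) (K a250 (M a245 (L l190 (F (T t1308 (L l220 (T t9860 (K a176 (M a186 (F (T t3520 (L l192 (L l220 (T t9860 N)))))) (K a186 (M a176 (F (T t9859 (L l62 (L l470 (L l478 (T t248 N))))))) N)))))))) N)))))))))))) N))))))))))))))))) (K a245 (M a250 (L l433 (L l447 (F (T t2658 (L l290 (L l298 (L l507 (T t9855 (L l62 (L l470 (L l478 (T t489 (K a181 (M a122 (L l419 (L l433 (F (T t254 (L l263 (L l443 (T t9856 (K a53 (M a117 (L l433 (F (T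 t254 (L l31 (L l263 (L l443 (T t9856 (K a127 (M a191 (F (T t1334 (L l31 (L l263 (L l443 (T t9856 N))))))) (K a191 (Fr a127 a112 l114 (V t247)) N)))))))))) (K a117 (M a53 (L l433 (F (T t2647 (L l111 (L l263 (L l422 (L l443 (T t9856 (K a127 (M a191 (F (T t1334 (L l111 (L l263 (L l422 (L l443 (T t9856 N)))))))) (K a191 (M a127 (L l190 (F (T t2647 (L l37 (L l111 (L l263 (L l422 (L l443 (T t9857 (K a176 (Fr a186 a58 l426 (V t248)) (K a186 (M a176 (F (T t9858 (L l62 (L l470 (L l478 (T t248 N))))))) N)))))))))))) N))))))))))) (K a127 (M a191 (L l419 (F (T t1334 (L l263 (L l443 (T t9856 (K a53 (M a117 (F (T t1334 (L l31 (L l263 (L l443 (T t9856 N))))))) (K a117 (M a53 (F (T t1334 (L l111 (L l263 (L l422 (L l443 (T t9856 N)))))))) N))))))))) (K a191 (M a127 (L l190 (L l419 (F (T t2647 (L l263 (L l443 (T t9856 (K a176 (Fr a186 a58 l426 (V t72)) (K a53 (Fr a117 a112 l114 (V t247)) (K a117 (M a53 (L l190 (F (T t2647 (L l37 (L l111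 (L l263 (L l422 (L l443 (T t9857 (K a176 (Fr a186 a58 l426 (V t248)) (K a186 (M a176 (F (T t9858 (L l62 (L l470 (L l478 (T t248 N))))))) N)))))))))))) (K a186 (M a176 (L l419 (F (T t9859 (L l62 (L l470 (L l478 (T t489 (K a53 (Fr a117 a112 l114 (V t9858)) (K a117 (M a53 (F (T t9858 (L l62 (L l470 (L l478 (T t248 N))))))) N)))))))))) N)))))))))))) N)))))))))))) (K a122 (M a181 (L l433 (F (T t2658 (L l290 (L l298 (L l507 (T t9855 (L l62 (L l470 (L l478 (T t489 (K a127 (M a191 (L l114 (F (T t1308 (L l144 (T t9861 (K a112 (M a117 (F (T t1543 (L l116 (L l144 (T t9861 N)))))) (K a117 (M a112 (F (T t9862 (L l62 (L l470 (L l478 (T t248 N))))))) N)))))))) (K a191 (M a127 (F (T t9842 (L l62 (L l470 (L l478 (T t489 (L l185 (L l261 (L l262 (L l435 (T t1333 N)))))))))))) N)))))))))))))) (K a127 (M a191 (L l447 (F (T t9842 (L l62 (L l470 (L l478 (T t489 (L l144 (L l261 (L l262 (L l435 (T t1333 (K a181 (M a122 (L l419 (F (T t1334 (L l263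 (L l443 (T t9856 (K a53 (M a117 (F (T t1334 (L l31 (L l263 (L l443 (T t9856 N))))))) (K a117 (M a53 (F (T t1334 (L l111 (L l263 (L l422 (L l443 (T t9856 N)))))))) N))))))))) (K a122 (M a181 (L l114 (F (T t1308 (L l144 (T t9861 (K a112 (M a117 (F (T t1543 (L l116 (L l144 (T t9861 N)))))) (K a117 (M a112 (F (T t9862 (L l62 (L l470 (L l478 (T t248 N))))))) N)))))))) N))))))))))))))) (K a191 (M a127 (L l447 (F (T t9842 (L l62 (L l470 (L l478 (T t489 (L l185 (L l261 (L l262 (L l435 (T t1333 (K a181 (M a122 (L l190 (L l419 (F (T t2647 (L l263 (L l443 (T t9856 (K a176 (Fr a186 a58 l426 (V t72)) (K a53 (Fr a117 a112 l114 (V t247)) (K a117 (M a53 (L l190 (F (T t2647 (L l37 (L l111 (L l263 (L l422 (L l443 (T t9857 (K a176 (Fr a186 a58 l426 (V t248)) (K a186 (M a176 (F (T t9858 (L l62 (L l470 (L l478 (T t248 N))))))) N)))))))))))) (K a186 (M a176 (L l419 (F (T t9859 (L l62 (L l470 (L l478 (T t489 (K a53 (Fr a117 a112 l114 (V t9858))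 (K a117 (M a53 (F (T t9858 (L l62 (L l470 (L l478 (T t248 N))))))) N)))))))))) N)))))))))))) (K a122 (M a181 (F (T t9842 (L l62 (L l470 (L l478 (T t489 (L l185 (L l261 (L l262 (L l435 (T t1333 N)))))))))))) N))))))))))))))) N))))))))))))))))) (K a122 (M a181 (L l266 (L l433 (F (T t2658 (L l290 (L l298 (L l507 (T t9855 (L l62 (L l470 (L l478 (T t489 (K a245 (M a250 (L l433 (F (T t2658 (L l290 (L l298 (L l507 (T t9855 (L l62 (L l470 (L l478 (T t489 (K a127 (M a191 (L l114 (F (T t1308 (L l144 (T t9861 (K a112 (M a117 (F (T t1543 (L l116 (L l144 (T t9861 N)))))) (K a117 (M a112 (F (T t9862 (L l62 (L l470 (L l478 (T t248 N))))))) N)))))))) (K a191 (M a127 (F (T t9842 (L l62 (L l470 (L l478 (T t489 (L l185 (L l261 (L l262 (L l435 (T t1333 N)))))))))))) N)))))))))))))) (K a250 (M a245 (L l426 (L l433 (F (T t254 (L l264 (L l444 (T t9863 (K a58 (M a186 (L l433 (F (T t1334 (L l32 (L l264 (L l444 (T t9863 (K a127 (Fr a191 a176 l190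 (V t9855)) (K a191 (M a127 (F (T t2647 (L l32 (L l264 (L l444 (T t9863 N))))))) N)))))))))) (K a186 (M a58 (L l433 (F (T t2647 (L l188 (L l264 (L l428 (L l444 (T t9863 (K a127 (M a191 (L l114 (F (T t1334 (L l188 (L l264 (L l428 (L l444 (T t9863 (K a112 (Fr a117 a53 l419 (V t77)) (K a117 (M a112 (F (T t9862 (L l62 (L l422 (L l470 (L l478 (T t489 N)))))))) N))))))))))) (K a191 (M a127 (F (T t2647 (L l188 (L l264 (L l428 (L l444 (T t9863 N)))))))) N))))))))))) (K a127 (M a191 (L l114 (L l426 (F (T t1334 (L l264 (L l444 (T t9863 (K a112 (Fr a117 a53 l419 (V t247)) (K a117 (M a112 (L l426 (F (T t9862 (L l62 (L l470 (L l478 (T t247 (K a58 (Fr a186 a176 l190 (V t5801)) (K a186 (M a58 (F (T t9862 (L l62 (L l422 (L l470 (L l478 (T t489 N)))))))) N)))))))))) (K a58 (Fr a186 a176 l190 (V t9855)) (K a186 (M a58 (L l114 (F (T t1334 (L l188 (L l264 (L l428 (L l444 (T t9863 (K a112 (Fr a117 a53 l419 (V t77)) (K a117 (M a112 (F (T t9862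 (L l62 (L l422 (L l470 (L l478 (T t489 N)))))))) N))))))))))) N)))))))))))) (K a191 (M a127 (L l426 (F (T t2647 (L l264 (L l444 (T t9863 (K a58 (M a186 (F (T t2647 (L l32 (L l264 (L l444 (T t9863 N))))))) (K a186 (M a58 (F (T t2647 (L l188 (L l264 (L l428 (L l444 (T t9863 N)))))))) N))))))))) N)))))))))))) (K a127 (M a191 (L l114 (L l266 (F (T t1308 (L l144 (L l426 (T t9861 (K a112 (M a117 (L l266 (F (T t1308 (L l116 (L l144 (L l426 (T t9861 (K a245 (M a250 (F (T t1543 (L l116 (L l144 (T t9861 N)))))) (K a250 (Fr a245 a53 l419 (V t247)) N)))))))))) (K a117 (M a112 (L l266 (F (T t9862 (L l62 (L l422 (L l470 (L l478 (T t489 (K a245 (M a250 (F (T t9862 (L l62 (L l470 (L l478 (T t248 N))))))) (K a250 (M a245 (L l426 (F (T t9862 (L l62 (L l470 (L l478 (T t247 (K a58 (Fr a186 a176 l190 (V t5801)) (K a186 (M a58 (F (T t9862 (L l62 (L l422 (L l470 (L l478 (T t489 N)))))))) N)))))))))) N))))))))))) (K a245 (M a250 (L l114 (F (T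 t1308 (L l144 (T t9861 (K a112 (M a117 (F (T t1543 (L l116 (L l144 (T t9861 N)))))) (K a117 (M a112 (F (T t9862 (L l62 (L l470 (L l478 (T t248 N))))))) N)))))))) (K a250 (M a245 (L l114 (L l426 (F (T t1334 (L l264 (L l444 (T t9863 (K a112 (Fr a117 a53 l419 (V t247)) (K a117 (M a112 (L l426 (F (T t9862 (L l62 (L l470 (L l478 (T t247 (K a58 (Fr a186 a176 l190 (V t5801)) (K a186 (M a58 (F (T t9862 (L l62 (L l422 (L l470 (L l478 (T t489 N)))))))) N)))))))))) (K a58 (Fr a186 a176 l190 (V t9855)) (K a186 (M a58 (L l114 (F (T t1334 (L l188 (L l264 (L l428 (L l444 (T t9863 (K a112 (Fr a117 a53 l419 (V t77)) (K a117 (M a112 (F (T t9862 (L l62 (L l422 (L l470 (L l478 (T t489 N)))))))) N))))))))))) N)))))))))))) N)))))))))))) (K a191 (M a127 (L l266 (F (T t9842 (L l62 (L l470 (L l478 (T t489 (L l185 (L l261 (L l262 (L l435 (T t1333 (K a245 (M a250 (F (T t9842 (L l62 (L l470 (L l478 (T t489 (L l185 (L l261 (L l262 (L l435 (T t1333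 N)))))))))))) (K a250 (M a245 (L l426 (F (T t2647 (L l264 (L l444 (T t9863 (K a58 (M a186 (F (T t2647 (L l32 (L l264 (L l444 (T t9863 N))))))) (K a186 (M a58 (F (T t2647 (L l188 (L l264 (L l428 (L l444 (T t9863 N)))))))) N))))))))) N))))))))))))))) N))))))))))))))))) (K a250 (M a245 (L l433 (L l447 (F (T t2658 (L l290 (L l298 (L l507 (T t9855 (L l62 (L l470 (L l478 (T t489 (K a181 (M a122 (L l433 (F (T t2658 (L l290 (L l298 (L l507 (T t9855 (L l62 (L l470 (L l478 (T t489 (K a127 (M a191 (F (T t9842 (L l62 (L l470 (L l478 (T t489 (L l144 (L l261 (L l262 (L l435 (T t1333 N)))))))))))) (K a191 (M a127 (L l190 (F (T t1308 (L l220 (T t9860 (K a176 (M a186 (F (T t3520 (L l192 (L l220 (T t9860 N)))))) (K a186 (M a176 (F (T t9859 (L l62 (L l470 (L l478 (T t248 N))))))) N)))))))) N)))))))))))))) (K a122 (M a181 (L l426 (L l433 (F (T t254 (L l264 (L l444 (T t9863 (K a58 (M a186 (L l433 (F (T t1334 (L l32 (L l264 (L l444 (T t9863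 (K a127 (Fr a191 a176 l190 (V t9855)) (K a191 (M a127 (F (T t2647 (L l32 (L l264 (L l444 (T t9863 N))))))) N)))))))))) (K a186 (M a58 (L l433 (F (T t2647 (L l188 (L l264 (L l428 (L l444 (T t9863 (K a127 (M a191 (L l114 (F (T t1334 (L l188 (L l264 (L l428 (L l444 (T t9863 (K a112 (Fr a117 a53 l419 (V t77)) (K a117 (M a112 (F (T t9862 (L l62 (L l422 (L l470 (L l478 (T t489 N)))))))) N))))))))))) (K a191 (M a127 (F (T t2647 (L l188 (L l264 (L l428 (L l444 (T t9863 N)))))))) N))))))))))) (K a127 (M a191 (L l114 (L l426 (F (T t1334 (L l264 (L l444 (T t9863 (K a112 (Fr a117 a53 l419 (V t247)) (K a117 (M a112 (L l426 (F (T t9862 (L l62 (L l470 (L l478 (T t247 (K a58 (Fr a186 a176 l190 (V t5801)) (K a186 (M a58 (F (T t9862 (L l62 (L l422 (L l470 (L l478 (T t489 N)))))))) N)))))))))) (K a58 (Fr a186 a176 l190 (V t9855)) (K a186 (M a58 (L l114 (F (T t1334 (L l188 (L l264 (L l428 (L l444 (T t9863 (K a112 (Fr a117 a53 l419 (V t77))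 (K a117 (M a112 (F (T t9862 (L l62 (L l422 (L l470 (L l478 (T t489 N)))))))) N))))))))))) N)))))))))))) (K a191 (M a127 (L l426 (F (T t2647 (L l264 (L l444 (T t9863 (K a58 (M a186 (F (T t2647 (L l32 (L l264 (L l444 (T t9863 N))))))) (K a186 (M a58 (F (T t2647 (L l188 (L l264 (L l428 (L l444 (T t9863 N)))))))) N))))))))) N)))))))))))) (K a127 (M a191 (L l447 (F (T t9842 (L l62 (L l470 (L l478 (T t489 (L l144 (L l261 (L l262 (L l435 (T t1333 (K a181 (M a122 (F (T t9842 (L l62 (L l470 (L l478 (T t489 (L l144 (L l261 (L l262 (L l435 (T t1333 N)))))))))))) (K a122 (M a181 (L l114 (L l426 (F (T t1334 (L l264 (L l444 (T t9863 (K a112 (Fr a117 a53 l419 (V t247)) (K a117 (M a112 (L l426 (F (T t9862 (L l62 (L l470 (L l478 (T t247 (K a58 (Fr a186 a176 l190 (V t5801)) (K a186 (M a58 (F (T t9862 (L l62 (L l422 (L l470 (L l478 (T t489 N)))))))) N)))))))))) (K a58 (Fr a186 a176 l190 (V t9855)) (K a186 (M a58 (L l114 (F (T t1334 (L l188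 (L l264 (L l428 (L l444 (T t9863 (K a112 (Fr a117 a53 l419 (V t77)) (K a117 (M a112 (F (T t9862 (L l62 (L l422 (L l470 (L l478 (T t489 N)))))))) N))))))))))) N)))))))))))) N))))))))))))))) (K a191 (M a127 (L l447 (F (T t9842 (L l62 (L l470 (L l478 (T t489 (L l185 (L l261 (L l262 (L l435 (T t1333 (K a181 (M a122 (L l190 (F (T t1308 (L l220 (T t9860 (K a176 (M a186 (F (T t3520 (L l192 (L l220 (T t9860 N)))))) (K a186 (M a176 (F (T t9859 (L l62 (L l470 (L l478 (T t248 N))))))) N)))))))) (K a122 (M a181 (L l426 (F (T t2647 (L l264 (L l444 (T t9863 (K a58 (M a186 (F (T t2647 (L l32 (L l264 (L l444 (T t9863 N))))))) (K a186 (M a58 (F (T t2647 (L l188 (L l264 (L l428 (L l444 (T t9863 N)))))))) N))))))))) N))))))))))))))) N))))))))))))))))) (K a127 (M a191 (L l266 (L l447 (F (T t9842 (L l62 (L l470 (L l478 (T t489 (L l144 (L l261 (L l262 (L l435 (T t1333 (K a181 (M a122 (L l266 (F (T t9842 (L l62 (L l470 (L l478 (T t489 (L l144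 (L l261 (L l262 (L l435 (T t1333 (K a245 (M a250 (L l419 (F (T t1334 (L l263 (L l443 (T t9856 (K a53 (M a117 (F (T t1334 (L l31 (L l263 (L l443 (T t9856 N))))))) (K a117 (M a53 (F (T t1334 (L l111 (L l263 (L l422 (L l443 (T t9856 N)))))))) N))))))))) (K a250 (M a245 (F (T t9842 (L l62 (L l470 (L l478 (T t489 (L l144 (L l261 (L l262 (L l435 (T t1333 N)))))))))))) N))))))))))))))) (K a245 (M a250 (L l447 (F (T t9842 (L l62 (L l470 (L l478 (T t489 (L l144 (L l261 (L l262 (L l435 (T t1333 (K a181 (M a122 (L l419 (F (T t1334 (L l263 (L l443 (T t9856 (K a53 (M a117 (F (T t1334 (L l31 (L l263 (L l443 (T t9856 N))))))) (K a117 (M a53 (F (T t1334 (L l111 (L l263 (L l422 (L l443 (T t9856 N)))))))) N))))))))) (K a122 (M a181 (L l114 (F (T t1308 (L l144 (T t9861 (K a112 (M a117 (F (T t1543 (L l116 (L l144 (T t9861 N)))))) (K a117 (M a112 (F (T t9862 (L l62 (L l470 (L l478 (T t248 N))))))) N)))))))) N))))))))))))))) (K a122 (M a181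 (L l114 (L l266 (F (T t1308 (L l144 (L l426 (T t9861 (K a112 (M a117 (L l266 (F (T t1308 (L l116 (L l144 (L l426 (T t9861 (K a245 (M a250 (F (T t1543 (L l116 (L l144 (T t9861 N)))))) (K a250 (Fr a245 a53 l419 (V t247)) N)))))))))) (K a117 (M a112 (L l266 (F (T t9862 (L l62 (L l422 (L l470 (L l478 (T t489 (K a245 (M a250 (F (T t9862 (L l62 (L l470 (L l478 (T t248 N))))))) (K a250 (M a245 (L l426 (F (T t9862 (L l62 (L l470 (L l478 (T t247 (K a58 (Fr a186 a176 l190 (V t5801)) (K a186 (M a58 (F (T t9862 (L l62 (L l422 (L l470 (L l478 (T t489 N)))))))) N)))))))))) N))))))))))) (K a245 (M a250 (L l114 (F (T t1308 (L l144 (T t9861 (K a112 (M a117 (F (T t1543 (L l116 (L l144 (T t9861 N)))))) (K a117 (M a112 (F (T t9862 (L l62 (L l470 (L l478 (T t248 N))))))) N)))))))) (K a250 (M a245 (L l114 (L l426 (F (T t1334 (L l264 (L l444 (T t9863 (K a112 (Fr a117 a53 l419 (V t247)) (K a117 (M a112 (L l426 (F (T t9862 (L l62 (L l470 (L l478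 (T t247 (K a58 (Fr a186 a176 l190 (V t5801)) (K a186 (M a58 (F (T t9862 (L l62 (L l422 (L l470 (L l478 (T t489 N)))))))) N)))))))))) (K a58 (Fr a186 a176 l190 (V t9855)) (K a186 (M a58 (L l114 (F (T t1334 (L l188 (L l264 (L l428 (L l444 (T t9863 (K a112 (Fr a117 a53 l419 (V t77)) (K a117 (M a112 (F (T t9862 (L l62 (L l422 (L l470 (L l478 (T t489 N)))))))) N))))))))))) N)))))))))))) N)))))))))))) (K a250 (M a245 (L l447 (F (T t9842 (L l62 (L l470 (L l478 (T t489 (L l144 (L l261 (L l262 (L l435 (T t1333 (K a181 (M a122 (F (T t9842 (L l62 (L l470 (L l478 (T t489 (L l144 (L l261 (L l262 (L l435 (T t1333 N)))))))))))) (K a122 (M a181 (L l114 (L l426 (F (T t1334 (L l264 (L l444 (T t9863 (K a112 (Fr a117 a53 l419 (V t247)) (K a117 (M a112 (L l426 (F (T t9862 (L l62 (L l470 (L l478 (T t247 (K a58 (Fr a186 a176 l190 (V t5801)) (K a186 (M a58 (F (T t9862 (L l62 (L l422 (L l470 (L l478 (T t489 N)))))))) N)))))))))) (K a58 (Fr a186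 a176 l190 (V t9855)) (K a186 (M a58 (L l114 (F (T t1334 (L l188 (L l264 (L l428 (L l444 (T t9863 (K a112 (Fr a117 a53 l419 (V t77)) (K a117 (M a112 (F (T t9862 (L l62 (L l422 (L l470 (L l478 (T t489 N)))))))) N))))))))))) N)))))))))))) N))))))))))))))) N)))))))))))))))))) (K a191 (M a127 (L l266 (L l447 (F (T t9842 (L l62 (L l470 (L l478 (T t489 (L l185 (L l261 (L l262 (L l435 (T t1333 (K a181 (M a122 (L l190 (L l266 (F (T t1308 (L l220 (L l419 (T t9860 (K a176 (M a186 (L l266 (F (T t1308 (L l192 (L l220 (L l419 (T t9860 (K a245 (Fr a250 a58 l426 (V t72)) (K a250 (M a245 (F (T t3520 (L l192 (L l220 (T t9860 N)))))) N)))))))))) (K a245 (M a250 (L l190 (L l419 (F (T t2647 (L l263 (L l443 (T t9856 (K a176 (Fr a186 a58 l426 (V t72)) (K a53 (Fr a117 a112 l114 (V t247)) (K a117 (M a53 (L l190 (F (T t2647 (L l37 (L l111 (L l263 (L l422 (L l443 (T t9857 (K a176 (Fr a186 a58 l426 (V t248)) (K a186 (M a176 (F (T t9858 (L l62 (L l470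 (L l478 (T t248 N))))))) N)))))))))))) (K a186 (M a176 (L l419 (F (T t9859 (L l62 (L l470 (L l478 (T t489 (K a53 (Fr a117 a112 l114 (V t9858)) (K a117 (M a53 (F (T t9858 (L l62 (L l470 (L l478 (T t248 N))))))) N)))))))))) N)))))))))))) (K a186 (M a176 (L l266 (F (T t9859 (L l62 (L l470 (L l478 (T t489 (K a245 (M a250 (L l419 (F (T t9859 (L l62 (L l470 (L l478 (T t489 (K a53 (Fr a117 a112 l114 (V t9858)) (K a117 (M a53 (F (T t9858 (L l62 (L l470 (L l478 (T t248 N))))))) N)))))))))) (K a250 (M a245 (F (T t9859 (L l62 (L l470 (L l478 (T t248 N))))))) N)))))))))) (K a250 (M a245 (L l190 (F (T t1308 (L l220 (T t9860 (K a176 (M a186 (F (T t3520 (L l192 (L l220 (T t9860 N)))))) (K a186 (M a176 (F (T t9859 (L l62 (L l470 (L l478 (T t248 N))))))) N)))))))) N)))))))))))) (K a245 (M a250 (L l447 (F (T t9842 (L l62 (L l470 (L l478 (T t489 (L l185 (L l261 (L l262 (L l435 (T t1333 (K a181 (M a122 (L l190 (L l419 (F (T t2647 (L l263 (L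 l443 (T t9856 (K a176 (Fr a186 a58 l426 (V t72)) (K a53 (Fr a117 a112 l114 (V t247)) (K a117 (M a53 (L l190 (F (T t2647 (L l37 (L l111 (L l263 (L l422 (L l443 (T t9857 (K a176 (Fr a186 a58 l426 (V t248)) (K a186 (M a176 (F (T t9858 (L l62 (L l470 (L l478 (T t248 N))))))) N)))))))))))) (K a186 (M a176 (L l419 (F (T t9859 (L l62 (L l470 (L l478 (T t489 (K a53 (Fr a117 a112 l114 (V t9858)) (K a117 (M a53 (F (T t9858 (L l62 (L l470 (L l478 (T t248 N))))))) N)))))))))) N)))))))))))) (K a122 (M a181 (F (T t9842 (L l62 (L l470 (L l478 (T t489 (L l185 (L l261 (L l262 (L l435 (T t1333 N)))))))))))) N))))))))))))))) (K a122 (M a181 (L l266 (F (T t9842 (L l62 (L l470 (L l478 (T t489 (L l185 (L l261 (L l262 (L l435 (T t1333 (K a245 (M a250 (F (T t9842 (L l62 (L l470 (L l478 (T t489 (L l185 (L l261 (L l262 (L l435 (T t1333 N)))))))))))) (K a250 (M a245 (L l426 (F (T t2647 (L l264 (L l444 (T t9863 (K a58 (M a186 (F (T t2647 (L l32 (L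 l264 (L l444 (T t9863 N))))))) (K a186 (M a58 (F (T t2647 (L l188 (L l264 (L l428 (L l444 (T t9863 N)))))))) N))))))))) N))))))))))))))) (K a250 (M a245 (L l447 (F (T t9842 (L l62 (L l470 (L l478 (T t489 (L l185 (L l261 (L l262 (L l435 (T t1333 (K a181 (M a122 (L l190 (F (T t1308 (L l220 (T t9860 (K a176 (M a186 (F (T t3520 (L l192 (L l220 (T t9860 N)))))) (K a186 (M a176 (F (T t9859 (L l62 (L l470 (L l478 (T t248 N))))))) N)))))))) (K a122 (M a181 (L l426 (F (T t2647 (L l264 (L l444 (T t9863 (K a58 (M a186 (F (T t2647 (L l32 (L l264 (L l444 (T t9863 N))))))) (K a186 (M a58 (F (T t2647 (L l188 (L l264 (L l428 (L l444 (T t9863 N)))))))) N))))))))) N))))))))))))))) N)))))))))))))))))) N)))))))))))))))))))) (K a127 (M a191 (F (T t36 (L l144 (L l289 (T t9864 (L l144 (L l505 (T t9865 (K a64 (M a60 (L l144 (F (T t9839 (L l62 (L l470 (T t489 (L l116 (L l140 (T t9840 (K a85 (M a106 (F (T t1543 (L l137 (L l143 (L l505 (L l517 (T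 t9841 N)))))))) (K a106 (M a85 (F (T t9842 (L l289 (L l295 (T t8376 N)))))) N)))))))))))) (K a128 (M a148 (F (T t9773 (L l62 (L l470 (T t9771 (T t9772 N))))))) (K a144 (M a132 (F (T t9866 (L l144 (L l445 (T t9867 N)))))) (K a32 (M a136 (F (T t9868 (L l144 (L l439 (T t9869 N)))))) N))))))))))))) (K a191 (M a127 (F (T t2113 (L l220 (L l289 (T t9870 (L l220 (L l505 (T t9871 (K a64 (M a148 (F (L l116 (T t9773 (L l62 (L l140 (L l470 (T t9771 (L l116 (T t9772 N)))))))))) (K a128 (M a60 (L l220 (F (T t9844 (L l62 (L l470 (T t489 (T t9840 (K a149 (M a170 (F (T t9844 (L l289 (L l295 (T t8370 N)))))) (K a170 (M a149 (F (T t3520 (L l213 (L l219 (L l505 (L l517 (T t9845 N)))))))) N)))))))))) (K a16 (M a68 (F (T t9872 (L l220 (L l439 (T t9873 N)))))) (K a96 (M a68 (F (T t9016 (L l104 (L l220 (L l439 (T t9873 N))))))) N))))))))))))) N)))))))))))))))))))))))))))⟩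
def e0_192__255_19 : Ent 4 := ⟨[a0, a192], [a255, a65], (M a240 (F (T t5426 (L l440 (T t5418 (L l440 (T t5820 (L l76 (L l440 (T t4219 (L l440 (T t7828 (K a64 (M a82 (L l76 (F (T t9817 (L l439 (T t9874 (T t9816 (K a66 (M a67 (F (T t9875 (T t9816 N)))) (K a67 (M a66 (F (T t9876 (L l439 (T t9877 N))))) N))))))))) (K a128 (M a84 (F (L l261 (T t9601 (L l216 (L l290 (T t9745 (L l192 (T t9746 N))))))))) (K a80 (M a84 (F (T t9747 (L l290 (T t9745 (L l340 (T t9748 N))))))) (K a144 (M a84 (F (L l434 (T t9750 (L l261 (L l340 (T t9601 (L l192 (L l340 (T t9748 N)))))))))) (K a208 (M a84 (F (T t6890 (L l434 (T t9750 (T t9751 N)))))) (K a96 (M a84 (F (T t9747 (L l376 (T t6890 (T t9748 N)))))) (K a160 (M a84 (F (L l192 (T t9747 (L l176 (L l290 (T t9745 (L l192 (T t9748 N))))))))) (K a224 (M a84 (F (T t9747 (L l376 (L l470 (T t8887 (L l376 (T t9751 N)))))))) (K a48 (M a168 (L l440 (F (T t9806 (L l76 (T t9825 (K a117 (M a186 (F (T t9806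 (L l76 (T t9825 N))))) (K a186 (M a117 (F (T t9806 (L l76 (T t9825 N))))) N)))))))) N)))))))))))))))))))))⟩
def e0_192__255_20 : Ent 4 := ⟨[a0, a192], [a255, a66], (M a48 (F (T t55 (L l266 (T t27 (L l266 (T t19 (L l76 (L l266 (T t837 (L l266 (T t28 (K a64 (M a97 (L l76 (F (T t9878 (L l265 (T t9879 (T t9880 (K a65 (M a67 (F (T t9881 (T t9880 N)))) (K a67 (M a65 (F (T t9882 (T t9883 N)))) N))))))))) (K a128 (M a148 (F (T t9773 (L l470 (T t9771 (T t9772 N)))))) (K a16 (M a148 (F (T t9773 (L l261 (T t9774 (L l76 (T t9775 N))))))) (K a80 (M a84 (F (T t9747 (T t3650 (T t9776 N))))) (K a144 (M a84 (F (T t3650 (L l434 (T t9750 (L l192 (T t9776 N))))))) (K a32 (M a148 (F (L l76 (T t5076 (L l290 (L l376 (T t9777 (L l76 (L l376 (T t9775 N)))))))))) (K a96 (M a84 (F (T t9747 (L l290 (T t3280 (L l376 (T t9776 N))))))) (K a160 (M a84 (F (L l192 (T t9747 (L l376 (T t3650 (L l192 (L l376 (T t9776 N))))))))) (K a240 (M a148 (L l266 (F (T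 t9773 (L l76 (T t5076 (L l76 (T t9853 (K a245 (M a250 (F (T t9854 (L l76 (T t9775 N))))) (K a250 (M a245 (F (T t9854 (L l76 (T t9775 N))))) N)))))))))) N)))))))))))))))))))))⟩
def e0_192__255_21 : Ent 4 := ⟨[a0, a192], [a255, a67], (M a240 (F (T t5426 (L l121 (L l440 (T t5418 (L l440 (T t5820 (L l76 (L l440 (T t4219 (L l440 (T t7828 (K a64 (M a84 (L l76 (F (T t6890 (L l290 (T t9745 (T t9746 (K a65 (M a66 (F (T t6890 (L l305 (L l439 (T t9884 N)))))) (K a66 (M a65 (F (T t6890 (L l265 (L l306 (T t9885 N)))))) N))))))))) (K a128 (M a84 (F (L l261 (T t9601 (L l216 (L l290 (T t9745 (L l192 (T t9746 N))))))))) (K a80 (M a84 (F (T t9886 (L l145 (L l340 (T t9748 (L l290 (T t9745 N)))))))) (K a144 (M a84 (F (L l434 (T t9750 (L l261 (L l340 (T t9601 (L l145 (L l192 (L l340 (T t9748 N))))))))))) (K a208 (M a84 (F (T t6890 (L l434 (T t9750 (L l145 (T t9751 N))))))) (K a96 (M a84 (F (T t9886 (L l376 (T t6890 (L l145 (T t9748 N)))))))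 (K a160 (M a84 (F (L l145 (L l192 (T t9747 (L l176 (L l290 (T t9745 (L l145 (L l192 (T t9748 N))))))))))) (K a224 (M a84 (F (L l145 (T t9747 (L l376 (L l470 (T t8887 (L l145 (L l376 (T t9751 N)))))))))) (K a48 (M a168 (L l440 (F (T t9806 (L l76 (T t9825 (K a117 (M a186 (F (T t9806 (L l76 (T t9825 N))))) (K a186 (M a117 (F (T t9806 (L l76 (T t9825 N))))) N)))))))) N))))))))))))))))))))))⟩
def e0_192__255_22 : Ent 4 := ⟨[a0, a192], [a255, a69], (M a48 (F (T t55 (L l266 (T t27 (L l266 (T t19 (L l84 (L l266 (T t837 (L l266 (T t28 (K a64 (M a148 (L l84 (F (L l434 (T t9770 (L l140 (L l470 (T t9771 (L l116 (T t9772 (K a74 (M a79 (F (L l116 (T t9773 (L l140 (L l470 (T t9771 (L l116 (T t9772 N))))))))) (K a79 (M a74 (F (L l116 (T t9773 (L l311 (L l433 (T t9887 N))))))) N)))))))))))) (K a128 (M a148 (F (T t9773 (L l470 (T t9771 (T t9772 N)))))) (K a16 (M a148 (F (T t9773 (L l261 (T t9774 (L l84 (T t9775 N))))))) (K a80 (M a84 (F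 (T t9747 (L l77 (T t3650 (T t9776 N)))))) (K a144 (M a84 (F (T t8886 (L l434 (T t9750 (L l192 (T t9776 N))))))) (K a32 (M a148 (F (L l84 (T t5076 (L l290 (L l376 (T t9777 (L l84 (L l376 (T t9775 N)))))))))) (K a96 (M a84 (F (T t9747 (L l77 (L l290 (T t3280 (L l376 (T t9776 N)))))))) (K a160 (M a84 (F (L l192 (T t9747 (L l77 (L l376 (T t3650 (L l192 (L l376 (T t9776 N)))))))))) (K a240 (M a148 (L l266 (F (T t9773 (L l84 (T t5076 (L l84 (T t9853 (K a245 (M a250 (F (T t9854 (L l84 (T t9775 N))))) (K a250 (M a245 (F (T t9854 (L l84 (T t9775 N))))) N)))))))))) N)))))))))))))))))))))⟩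
def e0_192__255_23 : Ent 4 := ⟨[a0, a192], [a255, a70], (M a48 (F (T t55 (L l266 (T t27 (L l266 (T t19 (L l266 (T t837 (L l266 (T t28 (K a64 (M a148 (F (L l434 (T t9770 (L l140 (L l470 (T t9771 (L l116 (T t9772 N))))))))) (K a128 (M a148 (F (T t9779 (L l470 (T t9771 (T t9772 N)))))) (K a16 (M a148 (F (T t9780 (L l315 (T t9773 (T t9775 N)))))) (K a80 (M a84 (F (T t9747 (L l77 (T t3650 (T t9776 N)))))) (K a144 (M a84 (F (T t8886 (L l434 (T t9750 (L l192 (T t9776 N))))))) (K a32 (M a148 (F (T t5076 (L l290 (L l315 (L l333 (L l376 (T t9777 (L l376 (T t9775 N)))))))))) (K a96 (M a84 (F (T t9747 (L l77 (L l290 (L l333 (T t3280 (L l376 (T t9776 N))))))))) (K a160 (M a84 (F (L l192 (T t9747 (L l77 (L l376 (T t3650 (L l192 (L l376 (T t9776 N)))))))))) (K a240 (M a152 (L l266 (F (T t9888 (T t9889 (K a245 (M a250 (F (T t9888 (T t9889 N)))) (K a250 (M a245 (F (T t9888 (T t9889 N)))) N))))))) N))))))))))))))))))))⟩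
def e0_192__255_24 : Ent 4 := ⟨[a0, a192], [a255, a71], (M a48 (F (T t55 (L l266 (T t27 (L l266 (T t19 (L l266 (T t837 (L l266 (T t28 (K a64 (M a148 (F (L l434 (T t9770 (L l140 (L l470 (T t9771 (L l116 (T t9772 N))))))))) (K a128 (M a148 (F (T t9773 (L l470 (T t9771 (T t9772 N)))))) (K a16 (M a148 (F (T t9773 (L l261 (T t9774 (T t9775 N)))))) (K a80 (M a84 (F (T t9747 (L l77 (T t3650 (T t9776 N)))))) (K a144 (M a84 (F (T t8886 (L l434 (T t9750 (L l192 (T t9776 N))))))) (K a32 (M a148 (F (T t5076 (L l290 (L l376 (T t9777 (L l376 (T t9775 N)))))))) (K a96 (M a84 (F (T t9747 (L l77 (L l290 (T t3280 (L l376 (T t9776 N)))))))) (K a160 (M a84 (F (L l192 (T t9747 (L l77 (L l376 (T t3650 (L l192 (L l376 (T t9776 N)))))))))) (K a240 (M a84 (L l266 (F (T t9747 (L l77 (T t3650 (T t9776 (K a245 (M a250 (F (T t9747 (L l261 (L l262 (T t9084 (T t9778 N))))))) (K a250 (M a245 (F (T t9747 (L l261 (L l262 (T t9084 (T t9778 N))))))) N)))))))))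 N))))))))))))))))))))⟩
def e0_192__255_25 : Ent 4 := ⟨[a0, a192], [a255, a74], (M a240 (F (T t5426 (L l440 (T t5418 (L l440 (T t5820 (L l84 (L l440 (T t4219 (L l440 (T t7828 (K a64 (M a12 (L l84 (F (T t9786 (L l261 (T t2745 (L l78 (L l80 (L l116 (L l290 (T t9890 (K a69 (M a79 (F (T t9786 (L l261 (T t8053 (L l78 (L l80 (L l116 (L l290 (T t9891 N)))))))))) (K a79 (M a69 (F (T t9786 (L l295 (L l318 (T t2402 N)))))) N))))))))))))) (K a128 (M a84 (F (L l261 (T t9601 (L l216 (L l290 (L l321 (T t9745 (L l192 (T t9746 N)))))))))) (K a80 (M a84 (F (T t9747 (L l290 (L l321 (T t9745 (L l340 (T t9748 N)))))))) (K a144 (M a84 (F (L l434 (T t9750 (L l261 (L l340 (T t9601 (L l192 (L l340 (T t9748 N)))))))))) (K a208 (M a84 (F (T t6890 (L l434 (T t9750 (L l78 (T t9751 N))))))) (K a96 (M a84 (F (T t9747 (L l376 (T t6890 (T t9748 N)))))) (K a160 (M a84 (F (L l192 (T t9747 (L l176 (L l290 (L l321 (T t9745 (L l192 (T t9748 N)))))))))) (K a224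 (M a84 (F (T t9747 (L l376 (L l470 (T t8887 (L l78 (L l376 (T t9751 N))))))))) (K a48 (M a168 (L l440 (F (T t9806 (L l84 (T t9825 (K a117 (M a186 (F (T t9806 (L l84 (T t9825 N))))) (K a186 (M a117 (F (T t9806 (L l84 (T t9825 N))))) N)))))))) N)))))))))))))))))))))⟩
def e0_192__255_26 : Ent 4 := ⟨[a0, a192], [a255, a75], (M a48 (F (T t55 (L l266 (T t27 (L l266 (T t19 (L l266 (T t837 (L l266 (T t28 (K a64 (M a148 (F (L l434 (T t9770 (L l140 (L l470 (T t9771 (L l116 (T t9772 N))))))))) (K a128 (M a148 (F (T t9773 (L l470 (T t9771 (T t9772 N)))))) (K a16 (M a148 (F (T t9773 (L l261 (T t9774 (T t9775 N)))))) (K a80 (M a84 (F (T t9747 (T t3650 (T t9776 N))))) (K a144 (M a84 (F (T t3650 (L l434 (T t9750 (L l192 (T t9776 N))))))) (K a32 (M a148 (F (T t5076 (L l290 (L l376 (T t9777 (L l376 (T t9775 N)))))))) (K a96 (M a84 (F (T t9747 (L l290 (T t3280 (L l376 (T t9776 N))))))) (K a160 (M a84 (F (L l192 (T t9747 (L l376 (T t3650 (L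 l192 (L l376 (T t9776 N))))))))) (K a240 (M a84 (L l266 (F (T t9747 (T t3650 (T t9776 (K a245 (M a250 (F (T t3650 (L l261 (L l262 (T t9749 (T t9778 N))))))) (K a250 (M a245 (F (T t3650 (L l261 (L l262 (T t9749 (T t9778 N))))))) N)))))))) N))))))))))))))))))))⟩
def e0_192__255_27 : Ent 4 := ⟨[a0, a192], [a255, a79], (M a240 (F (T t5426 (L l151 (L l440 (T t5418 (L l440 (T t5820 (L l84 (L l440 (T t4219 (L l440 (T t7828 (K a64 (M a12 (L l84 (F (T t9786 (L l261 (T t2745 (L l80 (L l116 (L l290 (T t9890 (K a69 (M a74 (F (T t9784 (L l311 (L l329 (L l475 (T t2890 N))))))) (K a74 (M a69 (F (T t9786 (L l295 (L l318 (T t2402 N)))))) N)))))))))))) (K a128 (M a84 (F (L l261 (T t9601 (L l216 (L l290 (T t9745 (L l192 (T t9746 N))))))))) (K a80 (M a84 (F (T t9886 (L l139 (L l340 (T t9748 (L l290 (T t9745 N)))))))) (K a144 (M a84 (F (L l434 (T t9750 (L l261 (L l340 (T t9601 (L l139 (L l192 (L l340 (T t9748 N))))))))))) (K a208 (M a84 (F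 (T t6890 (L l434 (T t9750 (L l139 (T t9751 N))))))) (K a96 (M a84 (F (T t9886 (L l376 (T t6890 (L l139 (T t9748 N))))))) (K a160 (M a84 (F (L l139 (L l192 (T t9747 (L l176 (L l290 (T t9745 (L l139 (L l192 (T t9748 N))))))))))) (K a224 (M a84 (F (L l139 (T t9747 (L l376 (L l470 (T t8887 (L l139 (L l376 (T t9751 N)))))))))) (K a48 (M a168 (L l440 (F (T t9806 (L l84 (T t9825 (K a117 (M a186 (F (T t9806 (L l84 (T t9825 N))))) (K a186 (M a117 (F (T t9806 (L l84 (T t9825 N))))) N)))))))) N))))))))))))))))))))))⟩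
def e0_192__255_28 : Ent 4 := ⟨[a0, a192], [a255, a85], (M a48 (F (L l266 (T t27 (L l368 (T t55 (L l266 (L l368 (T t19 (L l144 (L l266 (T t837 (L l266 (T t28 (K a64 (M a106 (F (L l289 (T t9892 (L l347 (L l455 (L l469 (T t9893 (L l289 (L l368 (T t9894 N))))))))))) (K a128 (M a148 (F (T t9773 (L l350 (L l470 (T t9771 (L l350 (T t9772 N)))))))) (K a16 (M a154 (F (L l433 (T t9895 (L l123 (L l455 (L l469 (T t9896 (L l144 (L l433 (T t9897 N))))))))))) (K a80 (M a84 (L l94 (F (T t8886 (L l350 (T t9747 (T t9776 (K a90 (M a95 (F (T t9769 (L l261 (L l340 (L l368 (T t9084 (T t9778 N)))))))) (K a95 (M a90 (L l469 (F (T t9769 (L l261 (L l340 (L l368 (T t9084 (T t9778 (K a15 (M a175 (F (T t9769 (L l261 (L l340 (L l368 (L l471 (T t9084 (T t9778 N))))))))) (K a175 (M a15 (F (T t9778 (L l180 (L l289 (L l455 (T t9898 N))))))) N))))))))))) N))))))))) (K a144 (M a84 (F (T t8886 (L l350 (L l434 (T t9750 (L l192 (T t9776 N)))))))) (K a32 (M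 a148 (F (L l290 (T t9899 (L l87 (L l144 (T t5076 (L l144 (L l376 (T t9775 N)))))))))) (K a96 (M a84 (F (T t9769 (L l126 (L l290 (T t3280 (L l376 (T t9776 N)))))))) (K a160 (M a84 (F (L l192 (L l350 (T t9747 (L l126 (L l376 (T t3650 (L l192 (L l376 (T t9776 N))))))))))) (K a240 (M a84 (L l266 (F (T t9778 (L l126 (T t3650 (L l350 (T t9747 (K a245 (M a250 (L l455 (F (T t9769 (L l261 (L l262 (L l368 (T t9084 (T t9778 (K a5 (M a165 (F (T t9769 (L l261 (L l262 (L l368 (T t9084 (T t9778 N)))))))) (K a165 (M a5 (L l483 (F (T t9769 (L l419 (L l433 (L l447 (T t9724 (K a90 (Fr a15 a10 l8 (V t9900)) (K a15 (M a90 (L l469 (F (T t9776 (L l7 (L l261 (L l262 (L l471 (L l475 (L l478 (T t9901 (K a95 (M a175 (F (T t9776 (L l7 (L l261 (L l262 (L l471 (L l475 (L l478 (T t9901 N)))))))))) (K a175 (M a95 (L l180 (F (T t9778 (L l7 (L l179 (L l261 (L l262 (L l471 (L l475 (L l478 (T t9901 (K a160 (Fr a170 a10 l462 (V t3182)) (K a170 (M a160 (F (T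 t9902 (L l126 (L l290 (L l298 (L l327 (L l404 (T t9903 N))))))))) N)))))))))))))) N))))))))))))) N)))))))))) N))))))))))) (K a250 (M a245 (F (T t9769 (L l261 (L l262 (L l368 (T t9084 (T t9778 N)))))))) N)))))))))) N)))))))))))))))))))))))⟩
def e0_192__255_29 : Ent 4 := ⟨[a0, a192], [a255, a86], (M a240 (F (T t5426 (L l440 (T t5418 (L l440 (T t5820 (L l440 (T t4219 (L l440 (T t7828 (K a64 (M a84 (F (T t9781 (L l290 (L l351 (L l459 (T t9745 (L l95 (L l351 (T t9746 N)))))))))) (K a128 (M a84 (F (L l261 (L l477 (T t9601 (L l216 (L l290 (L l351 (L l459 (T t9745 (L l95 (L l192 (L l351 (T t9746 N)))))))))))))) (K a80 (M a84 (F (T t9886 (L l145 (L l340 (L l459 (T t9748 (L l290 (L l351 (L l459 (T t9745 N))))))))))) (K a144 (M a84 (F (L l470 (T t9094 (L l434 (T t9750 (L l145 (L l192 (L l340 (L l459 (T t9748 N))))))))))) (K a208 (M a84 (F (T t9781 (L l434 (T t9750 (L l95 (L l145 (T t9751 N)))))))) (K a96 (M a84 (F (T t9886 (L l95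 (L l376 (T t6890 (L l145 (L l459 (T t9748 N))))))))) (K a160 (M a84 (F (L l145 (L l192 (T t9747 (L l176 (L l290 (L l351 (L l459 (T t9745 (L l145 (L l192 (L l459 (T t9748 N)))))))))))))) (K a224 (M a84 (F (L l145 (T t9747 (L l95 (L l376 (L l470 (T t8887 (L l95 (L l145 (L l376 (T t9751 N)))))))))))) (K a48 (M a164 (L l440 (F (T t9797 (T t9904 (K a117 (M a186 (F (T t9797 (T t9904 N)))) (K a186 (M a117 (F (T t9797 (T t9904 N)))) N))))))) N))))))))))))))))))))⟩
def e0_192__255_30 : Ent 4 := ⟨[a0, a192], [a255, a87], (M a3 (F (T t2068 (L l143 (L l295 (T t2064 (L l295 (T t2298 (L l295 (T t9905 (L l295 (T t2297 (K a64 (M a145 (F (L l439 (T t9906 (L l120 (L l367 (L l440 (T t9907 (L l76 (T t9908 N)))))))))) (K a128 (M a145 (F (T t9909 (L l367 (L l440 (T t9907 (T t9908 N))))))) (K a1 (M a240 (F (T t5327 (L l305 (L l439 (L l449 (T t9910 (L l93 (L l305 (L l449 (T t9911 N))))))))))) (K a65 (M a240 (F (T t4730 (L l93 (L l265 (T t7328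 (L l305 (L l439 (T t9910 N))))))))) (K a129 (M a240 (F (T t5327 (L l93 (L l193 (L l265 (T t7328 (L l193 (L l305 (T t9912 N)))))))))) (K a2 (M a240 (F (T t9913 (L l440 (T t5820 (L l93 (T t9911 N))))))) (K a66 (M a240 (F (T t4730 (L l93 (L l265 (T t7328 (L l76 (T t9912 N)))))))) (K a130 (M a240 (F (T t5327 (L l93 (L l265 (T t7328 (L l152 (L l439 (T t9910 N))))))))) (K a195 (M a82 (L l295 (F (T t9914 (L l440 (L l488 (T t9915 (L l367 (T t9916 (K a215 (M a235 (L l349 (F (T t9917 (T t9918 (K a23 (M a151 (F (T t9917 (T t9918 N)))) (K a151 (M a23 (L l517 (F (T t9919 (L l265 (L l271 (T t9920 (K a107 (Fr a63 a43 l67 (V t9921)) (K a63 (M a107 (L l433 (F (T t9917 (T t9918 (K a127 (M a191 (F (T t9922 (L l367 (T t9916 (L l144 (T t9914 N))))))) (K a191 (M a127 (L l219 (F (T t9917 (T t9918 (K a131 (Fr a171 a43 l391 (V t3346)) (K a171 (M a131 (F (T t9923 (L l266 (L l273 (L l447 (T t9924 N))))))) N))))))) N))))))) N))))))))) N))))))) (K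 a235 (M a215 (F (T t9917 (T t9918 N)))) N))))))))))) N)))))))))))))))))))))⟩
def e0_192__255_31 : Ent 4 := ⟨[a0, a192], [a255, a90], (M a240 (F (T t5426 (L l151 (L l440 (T t5418 (L l440 (T t5820 (L l94 (L l440 (T t4219 (L l94 (L l375 (L l440 (T t7828 (K a64 (M a84 (F (T t6890 (L l290 (T t9745 (T t9746 N)))))) (K a128 (M a84 (F (L l192 (T t6890 (L l216 (L l290 (T t9745 (L l192 (T t9746 N))))))))) (K a80 (M a12 (L l94 (F (T t159 (L l133 (L l434 (T t9925 (L l88 (L l90 (L l340 (L l375 (T t9785 (K a85 (M a95 (F (T t9784 (L l290 (T t468 (L l88 (L l90 (T t9787 N)))))))) (K a95 (M a85 (L l469 (F (T t9784 (L l137 (L l265 (L l433 (T t9926 (K a15 (M a175 (F (T t9784 (L l137 (L l265 (L l433 (T t9789 N))))))) (K a175 (M a15 (F (T t9927 (L l137 (L l265 (L l433 (T t9926 N))))))) N)))))))))) N)))))))))))))) (K a144 (M a84 (F (L l261 (T t9749 (L l465 (L l470 (T t9094 (L l192 (L l340 (L l375 (T t9748 N))))))))))) (K a208 (M a168 (L l375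 (F (T t9808 (L l261 (T t9824 (L l94 (L l340 (T t9825 (K a149 (M a31 (F (T t9808 (L l94 (L l340 (L l470 (T t9928 (L l94 (L l202 (L l340 (T t9825 N))))))))))) (K a31 (M a149 (F (L l261 (T t9824 (L l433 (L l475 (T t9828 N))))))) N))))))))))) (K a96 (M a84 (F (T t9747 (L l376 (T t6890 (L l375 (T t9748 N))))))) (K a160 (M a84 (F (L l261 (T t9752 (L l176 (L l290 (T t9745 (L l192 (L l375 (T t9748 N)))))))))) (K a224 (M a84 (F (T t9747 (L l376 (L l470 (T t8887 (L l376 (T t9751 N)))))))) (K a48 (M a82 (L l440 (F (T t9815 (T t9816 (K a117 (M a186 (F (T t6948 (L l45 (L l475 (T t9818 (T t9819 N))))))) (K a186 (M a117 (F (T t6948 (L l45 (L l475 (T t9818 (T t9819 N))))))) N))))))) N))))))))))))))))))))))))⟩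
def e0_192__255_32 : Ent 4 := ⟨[a0, a192], [a255, a91], (M a48 (F (T t55 (L l266 (T t27 (L l266 (T t19 (L l266 (T t837 (L l266 (T t28 (K a64 (M a148 (F (L l434 (T t9770 (L l140 (L l470 (T t9771 (L l116 (T t9772 N))))))))) (K a128 (M a148 (F (T t9773 (L l470 (T t9771 (T t9772 N)))))) (K a16 (M a148 (F (T t9773 (L l261 (T t9774 (T t9775 N)))))) (K a80 (M a84 (F (T t9747 (T t3650 (T t9776 N))))) (K a144 (M a84 (F (T t3650 (L l434 (T t9750 (L l192 (T t9776 N))))))) (K a32 (M a148 (F (T t5076 (L l290 (L l376 (T t9777 (L l376 (T t9775 N)))))))) (K a96 (M a84 (F (T t9747 (L l290 (T t3280 (L l376 (T t9776 N))))))) (K a160 (M a84 (F (L l192 (T t9747 (L l376 (T t3650 (L l192 (L l376 (T t9776 N))))))))) (K a240 (M a146 (L l266 (F (T t9929 (L l373 (T t9930 (K a245 (M a250 (F (T t9929 (L l373 (T t9930 N))))) (K a250 (M a245 (F (T t9929 (L l373 (T t9930 N))))) N)))))))) N))))))))))))))))))))⟩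
def e0_192__255_33 : Ent 4 := ⟨[a0, a192], [a255, a95], (M a15 (F (T t2821 (L l289 (T t2795 (L l289 (T t2799 (L l137 (L l289 (T t4153 (L l289 (T t9931 (K a64 (M a12 (F (T t9927 (L l475 (T t717 (L l80 (L l84 (T t9932 N)))))))) (K a128 (M a12 (F (T t9933 (L l475 (T t717 (T t9932 N)))))) (K a5 (M a240 (F (T t5426 (L l311 (L l433 (L l455 (T t9820 (L l94 (L l433 (T t9934 N)))))))))) (K a69 (M a4 (F (T t3062 (L l290 (T t1407 (L l77 (L l84 (T t9935 N)))))))) (K a133 (M a144 (F (T t5030 (L l311 (L l433 (T t9936 (L l94 (L l199 (L l266 (L l311 (L l433 (T t9937 (L l266 (L l311 (L l361 (T t9938 N)))))))))))))))) (K a10 (M a240 (F (T t9939 (L l440 (T t5418 (L l94 (L l318 (L l433 (L l462 (T t9934 N)))))))))) (K a74 (M a144 (F (L l440 (T t9940 (L l433 (T t9936 (L l84 (L l94 (L l266 (L l433 (T t9937 (L l84 (L l266 (L l361 (T t9938 N))))))))))))))) (K a138 (M a240 (F (L l440 (T t5820 (L l361 (L l433 (T t9941 (L l94 (L l318 (L l433 (T t9934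 N))))))))))) (K a207 (M a240 (L l289 (F (T t9939 (L l440 (L l512 (T t5418 (L l94 (L l433 (T t9934 (K a223 (M a239 (L l361 (F (T t9939 (L l368 (L l440 (L l512 (T t5820 (L l94 (L l433 (T t9934 (K a31 (M a159 (F (T t4730 (L l94 (L l375 (L l433 (T t9942 (T t9943 N)))))))) (K a159 (M a31 (L l505 (F (T t9944 (L l368 (L l440 (L l512 (T t9945 (K a111 (Fr a63 a47 l61 (V t9946)) (K a63 (M a111 (L l433 (F (T t9944 (L l38 (L l368 (L l440 (L l512 (T t5820 (L l512 (T t9947 (K a127 (M a191 (F (T t9944 (L l38 (L l114 (L l440 (L l512 (T t5418 (L l94 (L l144 (L l170 (L l368 (L l512 (T t9948 N)))))))))))))) (K a191 (M a127 (L l213 (F (T t9944 (L l38 (L l368 (L l440 (L l512 (T t5820 (L l220 (T t9949 (K a143 (Fr a175 a47 l397 (V t9950)) (K a175 (M a143 (F (T t9951 (T t9946 N)))) N))))))))))))) N))))))))))))) N)))))))))) N))))))))))))) (K a239 (M a223 (F (L l256 (T t4730 (L l433 (L l505 (T t9820 (L l94 (L l433 (T t9934 N)))))))))) N))))))))))))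 N)))))))))))))))))))))⟩
def e0_192__255_34 : Ent 4 := ⟨[a0, a192], [a255, a106], (M a48 (F (T t55 (L l266 (T t27 (L l266 (L l411 (T t19 (L l104 (L l144 (L l266 (T t837 (L l104 (L l266 (T t28 (K a64 (M a60 (L l144 (F (T t1308 (L l98 (L l104 (L l116 (L l140 (L l290 (T t9843 (L l98 (L l104 (L l116 (L l140 (T t9840 (K a85 (M a127 (F (T t9842 (L l350 (L l470 (T t489 (L l98 (L l104 (L l116 (L l140 (T t9840 N))))))))))) (K a127 (M a85 (L l433 (F (T t9842 (L l289 (L l295 (T t8376 (K a63 (M a191 (F (T t9842 (L l289 (L l295 (T t8376 N)))))) (K a191 (M a63 (F (T t48 (L l98 (L l104 (L l116 (L l140 (L l290 (T t9843 N))))))))) N))))))))) N))))))))))))))))) (K a128 (M a148 (F (L l104 (T t9773 (L l98 (L l470 (T t9771 (L l104 (T t9772 N))))))))) (K a16 (M a148 (F (L l104 (T t9773 (L l98 (L l261 (T t9774 (L l104 (L l144 (T t9775 N)))))))))) (K a80 (M a84 (F (T t9747 (T t3650 (T t9776 N))))) (K a144 (M a84 (F (T t3650 (L l393 (L l434 (T t9750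 (L l192 (T t9776 N)))))))) (K a32 (M a148 (F (L l144 (T t5076 (L l104 (L l290 (L l376 (T t9777 (L l104 (L l144 (L l376 (T t9775 N)))))))))))) (K a96 (M a84 (L l104 (F (T t9747 (L l290 (T t3280 (L l376 (T t9776 (K a101 (M a111 (F (T t9747 (L l261 (T t9084 (L l376 (L l404 (L l501 (T t9778 N))))))))) (K a111 (M a101 (F (L l261 (T t6167 (L l469 (L l498 (T t9952 N))))))) N)))))))))) (K a160 (M a84 (F (L l192 (T t9747 (L l376 (T t3650 (L l192 (L l376 (T t9776 N))))))))) (K a240 (M a98 (L l266 (F (T t9953 (T t9954 (K a245 (M a250 (F (T t9955 (L l417 (L l439 (T t9956 (T t9957 N))))))) (K a250 (M a245 (F (T t9955 (L l417 (L l439 (T t9956 (T t9957 N))))))) N))))))) N))))))))))))))))))))))))⟩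
def e0_192__255_35 : Ent 4 := ⟨[a0, a192], [a255, a107], (M a48 (F (T t55 (L l266 (T t27 (L l266 (T t19 (L l266 (T t837 (L l266 (T t28 (K a64 (M a148 (F (L l434 (T t9770 (L l98 (L l140 (L l470 (T t9771 (L l116 (T t9772 N)))))))))) (K a128 (M a148 (F (T t9773 (L l98 (L l470 (T t9771 (T t9772 N))))))) (K a16 (M a148 (F (T t9773 (L l98 (L l261 (T t9774 (T t9775 N))))))) (K a80 (M a84 (F (T t9747 (T t3650 (T t9776 N))))) (K a144 (M a84 (F (T t3650 (L l434 (T t9750 (L l192 (T t9776 N))))))) (K a32 (M a148 (F (T t5076 (L l290 (L l376 (T t9777 (L l376 (T t9775 N)))))))) (K a96 (M a84 (F (T t9747 (L l290 (T t3280 (L l376 (T t9776 N))))))) (K a160 (M a84 (F (L l192 (T t9747 (L l376 (T t3650 (L l192 (L l376 (T t9776 N))))))))) (K a240 (M a97 (L l266 (F (T t9958 (L l103 (T t9878 (L l409 (T t9959 (K a245 (M a250 (F (T t9960 (L l103 (L l409 (T t9880 N)))))) (K a250 (M a245 (F (T t9960 (L l103 (L l409 (T t9880 N)))))) N)))))))))) N))))))))))))))))))))⟩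
def e0_192__255_36 : Ent 4 := ⟨[a0, a192], [a255, a111], (M a48 (F (T t55 (L l266 (T t27 (L l266 (T t19 (L l104 (L l266 (T t837 (L l104 (L l266 (T t28 (K a64 (M a148 (F (L l104 (L l116 (T t9773 (L l140 (L l470 (T t9771 (L l104 (L l116 (T t9772 N))))))))))) (K a128 (M a148 (F (L l104 (T t9773 (L l470 (T t9771 (L l104 (T t9772 N)))))))) (K a16 (M a148 (F (T t9780 (L l104 (T t9773 (L l104 (T t9775 N))))))) (K a80 (M a84 (F (T t9747 (T t3650 (T t9776 N))))) (K a144 (M a84 (F (T t3650 (L l434 (T t9750 (L l192 (T t9776 N))))))) (K a32 (M a148 (F (T t5076 (L l104 (L l290 (L l376 (T t9777 (L l104 (L l376 (T t9775 N)))))))))) (K a96 (M a84 (L l104 (F (T t9747 (L l290 (T t3280 (L l376 (T t9776 (K a101 (M a106 (F (T t9747 (L l469 (L l491 (T t9893 N)))))) (K a106 (M a101 (F (L l261 (T t6167 (L l469 (L l498 (T t9952 N))))))) N)))))))))) (K a160 (M a84 (F (L l192 (T t9747 (L l376 (T t3650 (L l192 (L l376 (T t9776 N))))))))) (K a240 (M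 a84 (L l266 (F (T t9747 (T t3650 (T t9776 (K a245 (M a250 (F (T t3650 (L l261 (L l262 (T t9749 (T t9778 N))))))) (K a250 (M a245 (F (T t3650 (L l261 (L l262 (T t9749 (T t9778 N))))))) N)))))))) N))))))))))))))))))))))⟩
def e0_192__255_37 : Ent 4 := ⟨[a0, a192], [a255, a127], (M a48 (L l433 (F (T t36 (L l114 (L l266 (T t27 (L l266 (T t19 (L l144 (L l266 (T t837 (L l266 (T t28 (K a64 (M a63 (L l144 (F (T t56 (L l469 (T t1 (L l137 (T t525 (K a85 (Fr a106 a149 l519 (V t6558)) (K a106 (M a85 (F (T t48 (L l104 (L l116 (L l289 (T t9961 (L l114 (L l390 (L l498 (T t51 N))))))))))) N)))))))))) (K a128 (M a63 (F (T t48 (L l220 (L l289 (T t20 (L l144 (T t31 N)))))))) (K a16 (M a148 (L l433 (F (T t9773 (L l261 (T t9774 (L l144 (T t9775 (K a63 (M a191 (F (T t9773 (L l144 (L l517 (T t9846 N)))))) (K a191 (M a63 (F (T t9773 (L l144 (L l219 (L l295 (T t5747 (L l144 (L l213 (L l289 (T t22 N))))))))))) N)))))))))) (K a80 (M a63 (F (T t132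 (L l289 (T t20 (L l116 (L l144 (T t31 N)))))))) (K a144 (M a148 (L l433 (F (L l261 (T t9774 (L l144 (L l340 (T t9853 (L l470 (T t9771 (K a63 (M a191 (F (L l340 (T t9854 (L l144 (L l517 (T t9846 N))))))) (K a191 (M a63 (F (T t132 (L l144 (L l219 (L l295 (T t5747 N))))))) N)))))))))))) (K a32 (M a148 (L l433 (F (L l144 (T t5076 (L l290 (L l376 (T t9777 (L l144 (L l376 (T t9775 (K a63 (M a191 (F (L l144 (T t5076 (L l33 (L l434 (T t9770 (L l144 (L l400 (L l404 (L l517 (T t9846 N)))))))))))) (K a191 (M a63 (F (L l220 (T t56 (L l475 (T t9962 N)))))) N))))))))))))) (K a96 (M a148 (L l433 (F (L l109 (L l434 (T t9963 (L l100 (L l470 (T t9771 (L l116 (L l144 (T t9853 (K a63 (M a191 (F (L l100 (T t9854 (L l116 (L l144 (L l517 (T t9846 N)))))))) (K a191 (M a63 (F (T t48 (L l100 (L l104 (L l144 (L l219 (L l295 (T t5747 N))))))))) N)))))))))))))) (K a160 (M a63 (F (T t48 (L l289 (T t20 (L l144 (L l376 (T t31 N)))))))) (K a240 (M a63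 (L l266 (F (T t56 (L l469 (L l483 (T t1 (L l144 (T t31 (K a245 (M a250 (F (T t610 (L l144 (L l289 (L l303 (T t22 (L l137 (T t525 N))))))))) (K a250 (M a245 (F (T t607 (L l144 (L l289 (L l303 (T t22 (L l137 (L l282 (T t525 N)))))))))) N))))))))))) (K a63 (M a191 (F (T t36 (L l144 (L l289 (T t9864 (L l144 (L l505 (T t9865 (K a64 (M a60 (L l144 (F (T t9839 (L l62 (L l470 (T t489 (L l116 (L l140 (T t9840 (K a85 (M a106 (F (T t1543 (L l137 (L l143 (L l505 (L l517 (T t9841 N)))))))) (K a106 (M a85 (F (T t9842 (L l289 (L l295 (T t8376 N)))))) N)))))))))))) (K a128 (M a148 (F (T t9773 (L l62 (L l470 (T t9771 (T t9772 N))))))) (K a144 (M a132 (F (T t9866 (L l144 (L l445 (T t9867 N)))))) (K a32 (M a136 (F (T t9868 (L l144 (L l439 (T t9869 N)))))) N))))))))))))) (K a191 (M a63 (F (T t610 (L l114 (L l220 (L l266 (T t27 (L l220 (L l289 (T t20 N)))))))))) N)))))))))))))))))))))))))⟩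
def e0_192__255_38 : Ent 4 := ⟨[a0, a192], [a255, a129], (M a48 (F (T t2113 (L l152 (L l266 (T t27 (L l266 (T t19 (L l266 (T t837 (L l266 (T t28 (K a64 (M a148 (F (L l434 (T t9770 (L l140 (L l470 (T t9771 (L l116 (T t9772 N))))))))) (K a128 (M a146 (L l152 (F (T t9964 (L l265 (T t9965 (T t9930 (K a130 (M a131 (F (T t9966 (T t9930 N)))) (K a131 (M a130 (F (T t9967 (T t9968 N)))) N))))))))) (K a16 (M a148 (F (T t9773 (L l261 (T t9774 (T t9775 N)))))) (K a80 (M a84 (F (T t3650 (L l152 (T t9747 (L l152 (T t9776 N))))))) (K a144 (M a84 (F (T t3650 (L l434 (T t9750 (L l152 (L l192 (T t9776 N)))))))) (K a32 (M a148 (F (T t5076 (L l290 (L l376 (T t9777 (L l376 (T t9775 N)))))))) (K a96 (M a84 (F (L l152 (T t9747 (L l290 (T t3280 (L l152 (L l376 (T t9776 N))))))))) (K a160 (M a84 (F (L l376 (T t3650 (L l152 (L l192 (T t9747 (L l152 (L l192 (L l376 (T t9776 N))))))))))) (K a240 (M a104 (L l266 (F (T t9849 (L l152 (T t5213 (L l152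 (T t9969 (K a245 (M a250 (F (T t9813 (L l152 (T t4642 N))))) (K a250 (M a245 (F (T t9813 (L l152 (T t4642 N))))) N)))))))))) N)))))))))))))))))))))⟩
def e0_192__255_39 : Ent 4 := ⟨[a0, a192], [a255, a130], (M a240 (F (T t5327 (L l152 (L l440 (T t5418 (L l440 (T t5820 (L l440 (T t4219 (L l440 (T t7828 (K a64 (M a84 (F (T t6890 (L l290 (T t9745 (T t9746 N)))))) (K a128 (M a161 (L l152 (F (T t9834 (L l439 (T t9970 (T t9830 (K a129 (M a131 (F (T t9971 (T t9830 N)))) (K a131 (M a129 (F (T t9972 (L l439 (T t9973 N))))) N))))))))) (K a80 (M a84 (F (L l434 (T t9750 (L l152 (L l340 (T t9748 (L l290 (T t9745 N))))))))) (K a144 (M a84 (F (L l261 (T t9749 (L l470 (T t9094 (L l152 (L l192 (L l340 (T t9748 N)))))))))) (K a208 (M a84 (F (T t6890 (L l434 (T t9750 (L l152 (T t9751 N))))))) (K a96 (M a84 (F (L l152 (T t9747 (L l376 (T t6890 (L l152 (T t9748 N)))))))) (K a160 (M a84 (F (L l261 (T t9752 (L l176 (L l290 (T t9745 (L l152 (L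 l192 (T t9748 N)))))))))) (K a224 (M a84 (F (L l152 (T t9747 (L l376 (L l470 (T t8887 (L l152 (L l376 (T t9751 N)))))))))) (K a48 (M a84 (L l440 (F (T t9782 (L l152 (T t9751 (K a117 (M a186 (F (T t9782 (L l152 (T t9751 N))))) (K a186 (M a117 (F (T t9782 (L l152 (T t9751 N))))) N)))))))) N)))))))))))))))))))))⟩
def e0_192__255_40 : Ent 4 := ⟨[a0, a192], [a255, a131], (M a240 (F (T t7856 (L l152 (L l440 (T t5418 (L l440 (T t5820 (L l197 (L l440 (T t4219 (L l440 (T t7828 (K a64 (M a84 (F (T t6890 (L l290 (T t9745 (T t9746 N)))))) (K a128 (M a84 (L l152 (F (L l261 (T t9601 (L l216 (L l290 (T t9745 (L l192 (T t9746 (K a129 (M a130 (F (L l192 (T t6890 (L l265 (L l305 (T t9974 N))))))) (K a130 (M a129 (F (L l192 (T t6890 (L l306 (L l439 (T t9975 N))))))) N)))))))))))) (K a80 (M a84 (F (L l434 (T t9750 (L l152 (L l340 (T t9748 (L l290 (T t9745 N))))))))) (K a144 (M a84 (F (L l470 (T t9094 (L l434 (T t9750 (L l152 (L l192 (L l340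 (T t9748 N)))))))))) (K a208 (M a84 (F (T t6890 (L l434 (T t9750 (L l152 (T t9751 N))))))) (K a96 (M a84 (F (L l152 (T t9747 (L l376 (T t6890 (L l152 (T t9748 N)))))))) (K a160 (M a84 (F (L l152 (L l192 (T t9747 (L l176 (L l290 (T t9745 (L l152 (L l192 (T t9748 N))))))))))) (K a224 (M a84 (F (L l152 (T t9747 (L l376 (L l470 (T t8887 (L l152 (L l376 (T t9751 N)))))))))) (K a48 (M a84 (L l440 (F (T t9782 (L l152 (T t9751 (K a117 (M a186 (F (T t9782 (L l152 (T t9751 N))))) (K a186 (M a117 (F (T t9782 (L l152 (T t9751 N))))) N)))))))) N))))))))))))))))))))))⟩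
def e0_192__255_41 : Ent 4 := ⟨[a0, a192], [a255, a133], (M a48 (F (T t2113 (L l160 (L l266 (T t27 (L l266 (T t19 (L l266 (T t837 (L l266 (T t28 (K a64 (M a148 (F (L l434 (T t9770 (L l140 (L l470 (T t9771 (L l116 (T t9772 N))))))))) (K a128 (M a100 (L l160 (F (T t5604 (L l290 (T t9976 (L l192 (T t9977 (K a138 (M a143 (F (T t5604 (L l434 (T t9978 (L l192 (T t9977 N))))))) (K a143 (M a138 (F (T t5604 (L l192 (L l227 (L l311 (L l433 (T t9979 N)))))))) N)))))))))) (K a16 (M a148 (F (T t9780 (L l315 (T t9773 (T t9775 N)))))) (K a80 (M a84 (F (T t3650 (L l160 (T t9747 (L l160 (T t9776 N))))))) (K a144 (M a84 (F (T t3650 (L l434 (T t9750 (L l160 (L l192 (T t9776 N)))))))) (K a32 (M a148 (F (T t5076 (L l290 (L l315 (L l376 (T t9777 (L l376 (T t9775 N))))))))) (K a96 (M a84 (F (L l160 (T t9747 (L l290 (T t3280 (L l160 (L l376 (T t9776 N))))))))) (K a160 (M a84 (F (L l376 (T t3650 (L l160 (L l192 (T t9747 (L l160 (L l192 (L l376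 (T t9776 N))))))))))) (K a240 (M a98 (L l266 (F (T t9953 (L l160 (T t9954 (K a245 (M a250 (F (T t9953 (L l160 (T t9954 N))))) (K a250 (M a245 (F (T t9953 (L l160 (T t9954 N))))) N)))))))) N)))))))))))))))))))))⟩
def e0_192__255_42 : Ent 4 := ⟨[a0, a192], [a255, a134], (M a48 (F (T t55 (L l266 (T t27 (L l266 (T t19 (L l266 (T t837 (L l266 (T t28 (K a64 (M a148 (F (L l434 (T t9770 (L l140 (L l338 (L l470 (T t9771 (L l116 (T t9772 N)))))))))) (K a128 (M a148 (F (T t9773 (L l338 (L l470 (T t9771 (T t9772 N))))))) (K a16 (M a148 (F (T t9773 (L l261 (T t9774 (T t9775 N)))))) (K a80 (M a84 (F (T t9747 (T t3650 (T t9776 N))))) (K a144 (M a84 (F (T t3650 (L l434 (T t9750 (L l192 (T t9776 N))))))) (K a32 (M a148 (F (T t5076 (L l290 (L l376 (T t9777 (L l376 (T t9775 N)))))))) (K a96 (M a84 (F (T t9747 (L l290 (T t3280 (L l376 (T t9776 N))))))) (K a160 (M a84 (F (L l192 (T t9747 (L l376 (T t3650 (L l192 (L l376 (T t9776 N)))))))))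 (K a240 (M a97 (L l266 (F (T t9960 (T t9880 (K a245 (M a250 (F (T t9878 (L l273 (L l295 (L l338 (T t9980 (T t9959 N)))))))) (K a250 (M a245 (F (T t9878 (L l273 (L l295 (L l338 (T t9980 (T t9959 N)))))))) N))))))) N))))))))))))))))))))⟩
def e0_192__255_43 : Ent 4 := ⟨[a0, a192], [a255, a135], (M a48 (F (T t55 (L l266 (T t27 (L l266 (T t19 (L l266 (T t837 (L l266 (T t28 (K a64 (M a148 (F (L l434 (T t9770 (L l140 (L l470 (T t9771 (L l116 (T t9772 N))))))))) (K a128 (M a148 (F (T t9773 (L l470 (T t9771 (T t9772 N)))))) (K a16 (M a148 (F (T t9773 (L l261 (T t9774 (T t9775 N)))))) (K a80 (M a84 (F (T t9747 (T t3650 (T t9776 N))))) (K a144 (M a84 (F (T t3650 (L l434 (T t9750 (L l192 (T t9776 N))))))) (K a32 (M a148 (F (T t5076 (L l290 (L l376 (T t9777 (L l376 (T t9775 N)))))))) (K a96 (M a84 (F (T t9747 (L l290 (T t3280 (L l376 (T t9776 N))))))) (K a160 (M a84 (F (L l192 (T t9747 (L l376 (T t3650 (L l192 (L l376 (T t9776 N)))))))))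 (K a240 (M a84 (L l266 (F (T t9747 (T t3650 (T t9776 (K a245 (M a250 (F (T t3650 (L l261 (L l262 (T t9749 (T t9778 N))))))) (K a250 (M a245 (F (T t3650 (L l261 (L l262 (T t9749 (T t9778 N))))))) N)))))))) N))))))))))))))))))))⟩
def e0_192__255_44 : Ent 4 := ⟨[a0, a192], [a255, a138], (M a48 (F (T t2113 (L l160 (L l266 (T t27 (L l266 (T t19 (L l266 (T t837 (L l266 (T t28 (K a64 (M a148 (F (L l434 (T t9770 (L l140 (L l320 (L l470 (T t9771 (L l116 (T t9772 N)))))))))) (K a128 (M a148 (L l160 (F (T t9773 (L l320 (L l470 (T t9771 (T t9772 (K a133 (M a143 (F (T t9779 (L l320 (L l470 (T t9771 (T t9772 N))))))) (K a143 (M a133 (F (T t9773 (L l318 (L l433 (T t9981 N)))))) N)))))))))) (K a16 (M a148 (F (T t9773 (L l261 (T t9774 (L l154 (T t9775 N))))))) (K a80 (M a84 (F (T t3650 (L l160 (T t9747 (L l160 (T t9776 N))))))) (K a144 (M a84 (F (T t3650 (L l434 (T t9750 (L l160 (L l192 (T t9776 N)))))))) (K a32 (M a148 (F (T t5076 (L l290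 (L l376 (T t9777 (L l154 (L l376 (T t9775 N))))))))) (K a96 (M a84 (F (L l160 (T t9747 (L l290 (T t3280 (L l160 (L l376 (T t9776 N))))))))) (K a160 (M a84 (F (L l376 (T t3650 (L l160 (L l192 (T t9747 (L l160 (L l192 (L l376 (T t9776 N))))))))))) (K a240 (M a98 (L l266 (F (T t9953 (L l160 (T t9954 (K a245 (M a250 (F (T t9953 (L l160 (T t9954 N))))) (K a250 (M a245 (F (T t9953 (L l160 (T t9954 N))))) N)))))))) N)))))))))))))))))))))⟩
def e0_192__255_45 : Ent 4 := ⟨[a0, a192], [a255, a139], (M a48 (F (T t55 (L l266 (T t27 (L l266 (T t19 (L l266 (T t837 (L l266 (T t28 (K a64 (M a148 (F (L l434 (T t9770 (L l140 (L l470 (T t9771 (L l116 (T t9772 N))))))))) (K a128 (M a148 (F (T t9773 (L l470 (T t9771 (T t9772 N)))))) (K a16 (M a148 (F (T t9773 (L l261 (T t9774 (L l154 (T t9775 N))))))) (K a80 (M a84 (F (T t9747 (T t3650 (T t9776 N))))) (K a144 (M a84 (F (T t3650 (L l434 (T t9750 (L l192 (T t9776 N))))))) (K a32 (M a148 (F (T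 t5076 (L l290 (L l376 (T t9777 (L l154 (L l376 (T t9775 N))))))))) (K a96 (M a84 (F (T t9747 (L l209 (L l290 (T t3280 (L l376 (T t9776 N)))))))) (K a160 (M a84 (F (L l192 (T t9747 (L l376 (T t3650 (L l192 (L l376 (T t9776 N))))))))) (K a240 (M a84 (L l266 (F (T t9747 (T t3650 (T t9776 (K a245 (M a250 (F (T t3650 (L l261 (L l262 (T t9749 (T t9778 N))))))) (K a250 (M a245 (F (T t3650 (L l261 (L l262 (T t9749 (T t9778 N))))))) N)))))))) N))))))))))))))))))))⟩
def e0_192__255_46 : Ent 4 := ⟨[a0, a192], [a255, a143], (M a240 (F (T t7856 (L l160 (L l440 (T t5418 (L l440 (T t5820 (L l227 (L l440 (T t4219 (L l440 (T t7828 (K a64 (M a84 (F (T t6890 (L l290 (T t9745 (T t9746 N)))))) (K a128 (M a12 (L l160 (F (T t3361 (L l156 (L l434 (T t9925 (L l156 (L l192 (L l290 (T t9982 (K a133 (M a138 (F (T t9800 (L l295 (L l311 (T t2439 N)))))) (K a138 (M a133 (F (T t9800 (L l318 (L l330 (L l475 (T t9983 N))))))) N))))))))))))) (K a80 (M a84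 (F (L l434 (T t9750 (L l160 (L l340 (T t9748 (L l290 (T t9745 N))))))))) (K a144 (M a84 (F (L l470 (T t9094 (L l434 (T t9750 (L l160 (L l192 (L l340 (T t9748 N)))))))))) (K a208 (M a84 (F (T t6890 (L l434 (T t9750 (L l160 (T t9751 N))))))) (K a96 (M a84 (F (L l160 (T t9747 (L l376 (T t6890 (L l160 (T t9748 N)))))))) (K a160 (M a84 (F (L l160 (L l192 (T t9747 (L l176 (L l290 (T t9745 (L l160 (L l192 (T t9748 N))))))))))) (K a224 (M a84 (F (L l160 (T t9747 (L l376 (L l470 (T t8887 (L l160 (L l376 (T t9751 N)))))))))) (K a48 (M a84 (L l440 (F (T t9782 (L l160 (T t9751 (K a117 (M a186 (F (T t9782 (L l160 (T t9751 N))))) (K a186 (M a117 (F (T t9782 (L l160 (T t9751 N))))) N)))))))) N))))))))))))))))))))))⟩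
def e0_192__255_47 : Ent 4 := ⟨[a0, a192], [a255, a149], (M a48 (F (T t1922 (L l170 (L l220 (L l266 (T t27 (L l170 (L l266 (T t19 (L l266 (T t837 (L l266 (L l375 (T t28 (K a64 (M a148 (F (L l116 (L l495 (T t9773 (L l140 (L l470 (T t9771 (L l116 (T t9772 N)))))))))) (K a128 (M a60 (L l220 (F (T t1308 (L l290 (T t9843 (L l351 (T t9840 (K a170 (M a191 (F (T t3520 (L l163 (L l216 (L l290 (T t9855 (L l351 (L l392 (T t9840 N)))))))))) (K a191 (M a170 (L l433 (F (T t9844 (L l289 (L l295 (T t8370 (K a63 (M a127 (F (T t9844 (L l289 (L l295 (T t8370 N)))))) (K a127 (M a63 (F (T t662 (L l290 (T t9843 N))))) N))))))))) N)))))))))) (K a16 (M a148 (F (T t9780 (L l495 (T t9773 (T t9775 N)))))) (K a80 (M a84 (F (T t3650 (L l163 (L l220 (T t9747 (L l220 (T t9776 N)))))))) (K a144 (M a84 (L l170 (F (T t3650 (L l434 (T t9750 (L l192 (L l220 (T t9776 (K a154 (M a159 (F (T t3650 (L l261 (T t9749 (L l192 (L l220 (T t9778 N)))))))) (K a159 (M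 a154 (F (T t3650 (L l469 (L l491 (T t9896 N)))))) N))))))))))) (K a32 (M a148 (F (L l351 (T t5076 (L l290 (L l376 (L l495 (T t9777 (L l376 (T t9775 N)))))))))) (K a96 (M a84 (F (L l290 (T t3280 (L l163 (L l220 (T t9747 (L l220 (L l376 (T t9776 N)))))))))) (K a160 (M a84 (F (L l261 (T t6167 (L l163 (L l192 (L l220 (T t9747 (L l192 (L l220 (L l376 (T t9776 N)))))))))))) (K a240 (M a84 (L l266 (F (T t3650 (L l163 (L l220 (T t9747 (L l220 (T t9776 (K a245 (M a250 (F (T t3650 (L l261 (L l262 (T t9749 (L l220 (T t9778 N)))))))) (K a250 (M a245 (F (T t3650 (L l261 (L l262 (T t9749 (L l220 (T t9778 N)))))))) N))))))))))) N))))))))))))))))))))))))⟩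
def e0_192__255_48 : Ent 4 := ⟨[a0, a192], [a255, a150], (M a48 (F (T t55 (L l266 (T t27 (L l266 (T t19 (L l266 (T t837 (L l266 (T t28 (K a64 (M a148 (F (L l434 (L l518 (T t9770 (L l140 (L l350 (L l470 (L l494 (T t9771 (L l116 (L l171 (L l350 (T t9772 N)))))))))))))) (K a128 (M a148 (F (T t9984 (L l350 (L l470 (L l494 (T t9771 (L l171 (L l350 (T t9772 N)))))))))) (K a16 (M a148 (F (T t9984 (L l261 (T t9774 (L l171 (L l221 (T t9775 N)))))))) (K a80 (M a84 (F (T t3650 (L l163 (L l350 (T t9747 (T t9776 N))))))) (K a144 (M a84 (F (T t3650 (L l350 (L l434 (L l518 (T t9750 (L l192 (T t9776 N))))))))) (K a32 (M a148 (F (L l221 (T t5076 (L l171 (L l290 (L l376 (T t9777 (L l171 (L l221 (L l376 (T t9775 N)))))))))))) (K a96 (M a84 (F (T t9769 (L l290 (T t3280 (L l376 (T t9776 N))))))) (K a160 (M a84 (F (L l376 (T t3650 (L l163 (L l192 (L l350 (T t9747 (L l192 (L l376 (T t9776 N))))))))))) (K a240 (M a100 (L l266 (F (T t9985 (T t9977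 (K a245 (M a250 (F (T t9985 (T t9977 N)))) (K a250 (M a245 (F (T t9985 (T t9977 N)))) N))))))) N))))))))))))))))))))⟩
def e0_192__255_49 : Ent 4 := ⟨[a0, a192], [a255, a151], (M a48 (F (T t55 (L l266 (T t27 (L l266 (T t19 (L l266 (T t837 (L l266 (T t28 (K a64 (M a148 (F (L l434 (T t9770 (L l140 (L l470 (T t9771 (L l116 (T t9772 N))))))))) (K a128 (M a148 (F (T t9773 (L l470 (T t9771 (T t9772 N)))))) (K a16 (M a148 (F (T t9773 (L l261 (T t9774 (T t9775 N)))))) (K a80 (M a84 (F (T t3650 (L l163 (T t9747 (T t9776 N)))))) (K a144 (M a84 (F (T t3650 (L l434 (T t9750 (L l192 (T t9776 N))))))) (K a32 (M a148 (F (T t5076 (L l290 (L l376 (T t9777 (L l376 (T t9775 N)))))))) (K a96 (M a84 (F (T t9769 (L l290 (T t3280 (L l376 (T t9776 N))))))) (K a160 (M a84 (F (L l261 (T t9749 (L l376 (T t3650 (L l192 (L l376 (T t9776 N))))))))) (K a240 (M a146 (L l266 (F (T t9986 (L l373 (T t7694 (L l373 (T t9987 (K a245 (M a250 (F (T t9929 (L l169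 (L l373 (T t9930 N)))))) (K a250 (M a245 (F (T t9929 (L l169 (L l373 (T t9930 N)))))) N)))))))))) N))))))))))))))))))))⟩
def e0_192__255_50 : Ent 4 := ⟨[a0, a192], [a255, a154], (M a48 (F (T t2113 (L l170 (L l266 (T t27 (L l170 (L l266 (L l368 (T t19 (L l227 (L l266 (T t837 (L l266 (T t28 (K a64 (M a148 (F (L l116 (T t9773 (L l140 (L l470 (T t9771 (L l116 (T t9772 N))))))))) (K a128 (M a148 (F (T t9773 (L l470 (T t9771 (T t9772 N)))))) (K a16 (M a204 (L l368 (F (T t9988 (L l470 (T t1720 (L l164 (L l170 (L l340 (L l364 (T t9989 (K a85 (M a223 (F (T t5210 (L l164 (L l364 (L l434 (T t9990 (L l164 (L l170 (L l340 (L l364 (T t9989 N)))))))))))) (K a223 (M a85 (L l289 (F (T t9988 (L l433 (L l439 (T t9991 (K a207 (M a239 (F (T t9988 (L l433 (L l439 (T t9991 N)))))) (K a239 (M a207 (F (T t6368 (L l164 (L l364 (L l434 (T t9990 N))))))) N))))))))) N))))))))))))) (K a80 (M a84 (F (T t9747 (T t3650 (L l500 (T t9776 N)))))) (K a144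 (M a84 (L l170 (F (T t3650 (L l434 (T t9750 (L l192 (L l500 (T t9776 (K a149 (M a159 (F (T t3650 (L l261 (T t9749 (L l192 (L l220 (T t9778 N)))))))) (K a159 (M a149 (F (L l261 (T t9749 (L l469 (L l498 (T t9992 N))))))) N))))))))))) (K a32 (M a148 (F (T t5076 (L l290 (L l376 (T t9777 (L l376 (T t9775 N)))))))) (K a96 (M a84 (F (T t9747 (L l209 (L l290 (T t3280 (L l376 (L l500 (T t9776 N))))))))) (K a160 (M a84 (F (L l192 (T t9747 (L l376 (T t3650 (L l192 (L l376 (L l500 (T t9776 N)))))))))) (K a240 (M a146 (L l266 (F (T t9929 (T t9930 (K a245 (M a250 (F (T t9929 (T t9930 N)))) (K a250 (M a245 (F (T t9929 (T t9930 N)))) N))))))) N))))))))))))))))))))))))⟩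
def e0_192__255_51 : Ent 4 := ⟨[a0, a192], [a255, a155], (M a240 (F (T t5426 (L l440 (T t5418 (L l440 (T t5820 (L l440 (T t4219 (L l440 (T t7828 (K a64 (M a84 (F (T t6890 (L l290 (T t9745 (T t9746 N)))))) (K a128 (M a84 (F (L l261 (T t9601 (L l216 (L l290 (T t9745 (L l192 (T t9746 N))))))))) (K a80 (M a84 (F (T t9747 (L l290 (T t9745 (L l340 (T t9748 N))))))) (K a144 (M a84 (F (L l261 (T t9749 (L l470 (T t9094 (L l192 (L l340 (T t9748 N))))))))) (K a208 (M a84 (F (T t6890 (L l434 (T t9750 (T t9751 N)))))) (K a96 (M a84 (F (T t9747 (L l376 (T t6890 (T t9748 N)))))) (K a160 (M a84 (F (L l261 (T t9752 (L l176 (L l290 (T t9745 (L l192 (T t9748 N))))))))) (K a224 (M a84 (F (T t9747 (L l376 (L l470 (T t8887 (L l376 (T t9751 N)))))))) (K a48 (M a82 (L l440 (F (T t9815 (L l367 (T t9816 (K a117 (M a186 (F (T t9815 (L l367 (T t9816 N))))) (K a186 (M a117 (F (T t9815 (L l367 (T t9816 N))))) N)))))))) N))))))))))))))))))))⟩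
def e0_192__255_52 : Ent 4 := ⟨[a0, a192], [a255, a159], (M a48 (F (T t2113 (L l170 (L l266 (T t27 (L l170 (L l266 (T t19 (L l266 (T t837 (L l266 (T t28 (K a64 (M a148 (F (L l116 (L l165 (T t9773 (L l140 (L l470 (T t9771 (L l116 (L l165 (T t9772 N))))))))))) (K a128 (M a148 (F (T t9984 (L l470 (T t9771 (L l165 (T t9772 N))))))) (K a16 (M a148 (F (T t9780 (L l165 (T t9773 (L l165 (T t9775 N))))))) (K a80 (M a84 (F (T t9747 (T t3650 (T t9776 N))))) (K a144 (M a84 (L l170 (F (T t3650 (L l434 (T t9750 (L l192 (T t9776 (K a149 (M a154 (F (T t3650 (L l469 (L l491 (T t9896 N)))))) (K a154 (M a149 (F (L l261 (T t9749 (L l469 (L l498 (T t9992 N))))))) N)))))))))) (K a32 (M a148 (F (T t5076 (L l165 (L l290 (L l376 (T t9777 (L l165 (L l376 (T t9775 N)))))))))) (K a96 (M a84 (F (T t9747 (L l290 (T t3280 (L l376 (T t9776 N))))))) (K a160 (M a84 (F (L l192 (T t9747 (L l376 (T t3650 (L l192 (L l376 (T t9776 N))))))))) (K a240 (M a84 (L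 l266 (F (T t9747 (T t3650 (T t9776 (K a245 (M a250 (F (T t3650 (L l261 (L l262 (T t9749 (T t9778 N))))))) (K a250 (M a245 (F (T t3650 (L l261 (L l262 (T t9749 (T t9778 N))))))) N)))))))) N))))))))))))))))))))))⟩
def e0_192__255_53 : Ent 4 := ⟨[a0, a192], [a255, a170], (M a48 (F (L l266 (T t19 (L l220 (T t55 (L l220 (L l266 (T t27 (L l266 (T t837 (L l266 (L l404 (T t28 (K a64 (M a148 (F (L l434 (T t9770 (L l140 (L l464 (L l470 (T t9771 (L l116 (L l404 (T t9772 N))))))))))) (K a128 (M a149 (F (L l433 (T t9993 (L l390 (L l462 (L l469 (T t9992 (L l289 (L l404 (T t9994 N))))))))))) (K a16 (M a148 (F (T t9773 (L l261 (L l392 (T t9774 (L l208 (T t9775 N)))))))) (K a80 (M a84 (F (L l220 (T t9747 (L l404 (T t3650 (L l220 (L l404 (T t9776 N))))))))) (K a144 (M a84 (F (L l261 (T t9749 (L l404 (T t3650 (L l192 (L l220 (L l404 (T t9776 N)))))))))) (K a32 (M a101 (F (L l289 (T t9995 (L l206 (L l462 (L l469 (T t9952 (L l220 (L l433 (T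 t9996 N))))))))))) (K a96 (M a84 (F (L l220 (T t9747 (L l174 (L l290 (T t3280 (L l220 (L l376 (L l404 (T t9776 N))))))))))) (K a160 (M a84 (L l180 (F (L l261 (T t9749 (L l376 (L l404 (T t3650 (L l192 (L l220 (L l376 (L l404 (T t9776 (K a165 (M a175 (F (L l261 (T t6167 (L l174 (L l176 (L l192 (L l220 (L l434 (T t9997 (L l192 (L l220 (L l376 (L l404 (T t9778 N))))))))))))))) (K a175 (M a165 (L l469 (F (L l261 (T t6167 (L l174 (L l176 (L l192 (L l220 (L l434 (T t9997 (L l192 (L l220 (L l376 (L l404 (T t9778 (K a15 (M a95 (F (L l261 (L l471 (T t6167 (L l63 (L l174 (L l176 (L l192 (L l220 (L l434 (T t9997 (L l192 (L l220 (L l376 (L l404 (T t9778 N))))))))))))))))) (K a95 (M a15 (F (L l261 (T t9084 (L l390 (L l397 (T t9998 N))))))) N)))))))))))))))))) N))))))))))))))) (K a240 (M a84 (L l266 (F (L l220 (T t9747 (L l404 (T t3650 (L l220 (L l404 (T t9776 (K a245 (M a250 (F (L l404 (T t3650 (L l261 (L l262 (T t9749 (L l220 (L l404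 (T t9778 N)))))))))) (K a250 (M a245 (L l462 (F (L l404 (T t3650 (L l261 (L l262 (T t9749 (L l220 (L l404 (T t9778 (K a10 (M a90 (F (L l404 (T t3650 (L l261 (L l262 (T t9749 (L l220 (L l404 (T t9778 N)))))))))) (K a90 (M a10 (L l483 (F (L l220 (T t9747 (L l404 (L l426 (T t9999 (K a165 (Fr a15 a5 l8 (V t10000)) (K a15 (M a165 (L l469 (F (L l404 (T t3650 (L l7 (L l475 (L l478 (T t10001 (K a95 (M a175 (L l94 (F (L l220 (T t9747 (L l7 (L l93 (L l264 (L l475 (T t10002 (K a80 (Fr a85 a5 l455 (V t10003)) (K a85 (M a80 (F (T t10004 (L l126 (L l404 (T t3650 N)))))) N)))))))))))) (K a175 (M a95 (F (L l404 (T t3650 (L l7 (L l264 (L l475 (T t10002 N)))))))) N))))))))))) N)))))))))) N))))))))))))) N)))))))))))) N)))))))))))))))))))))))⟩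
def e0_192__255_54 : Ent 4 := ⟨[a0, a192], [a255, a171], (M a3 (F (T t10005 (L l295 (T t2064 (L l295 (T t2298 (L l219 (L l295 (T t9905 (L l295 (T t2297 (K a64 (M a145 (F (L l439 (T t10006 (L l120 (L l440 (T t9907 (L l76 (T t9908 N))))))))) (K a128 (M a145 (F (T t9909 (L l440 (T t9907 (T t9908 N)))))) (K a1 (M a240 (F (T t5327 (L l305 (L l439 (L l449 (T t9910 (L l305 (L l449 (T t9911 N)))))))))) (K a65 (M a240 (F (T t7335 (L l76 (L l439 (T t10007 (L l440 (T t5820 N)))))))) (K a129 (M a240 (F (T t5327 (L l193 (L l265 (T t7328 (L l193 (L l305 (T t9912 N))))))))) (K a2 (M a240 (F (T t9913 (L l440 (T t5820 (T t9911 N)))))) (K a66 (M a240 (F (T t10008 (L l440 (T t5820 (L l76 (T t9912 N))))))) (K a130 (M a240 (F (T t10009 (L l152 (L l439 (T t9910 (L l440 (T t5820 N)))))))) (K a195 (M a161 (L l295 (F (T t10010 (L l440 (L l488 (T t10011 (L l403 (T t10012 (K a215 (M a235 (F (T t10013 (T t10014 N)))) (K a235 (M a215 (L l391 (F (T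 t10013 (T t10014 (K a43 (M a107 (F (T t10013 (T t10014 N)))) (K a107 (M a43 (L l517 (F (T t10015 (L l265 (L l271 (T t10016 (K a151 (Fr a63 a23 l67 (V t10017)) (K a63 (M a151 (L l433 (F (T t10013 (T t10014 (K a127 (M a191 (L l143 (F (T t10018 (L l266 (L l273 (L l447 (T t10019 (L l113 (T t10010 (K a67 (Fr a87 a23 l349 (V t10020)) (K a87 (M a67 (F (T t3558 (L l265 (L l271 (L l445 (T t10016 N))))))) N)))))))))))) (K a191 (M a127 (F (T t10021 (L l179 (T t10022 (L l220 (T t10010 N))))))) N))))))) N))))))))) N))))))) N))))))))))) N)))))))))))))))))))))⟩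
def e0_192__255_55 : Ent 4 := ⟨[a0, a192], [a255, a175], (M a15 (F (T t2821 (L l289 (T t2795 (L l289 (T t2799 (L l289 (T t4153 (L l213 (L l289 (T t9931 (K a64 (M a12 (F (T t9927 (L l475 (T t717 (L l80 (L l84 (T t9932 N)))))))) (K a128 (M a12 (F (T t9933 (L l475 (T t717 (T t9932 N)))))) (K a5 (M a240 (F (T t10023 (L l440 (T t7828 (L l180 (L l311 (L l433 (L l455 (T t10024 N)))))))))) (K a69 (M a240 (F (L l440 (T t7828 (L l397 (L l433 (T t9823 (L l180 (L l311 (L l433 (T t10024 N))))))))))) (K a133 (M a144 (F (T t5025 (L l311 (L l433 (T t9936 (L l180 (L l199 (L l213 (L l266 (L l311 (L l433 (T t9937 (L l266 (L l311 (T t9938 N)))))))))))))))) (K a10 (M a240 (F (T t7856 (L l318 (L l433 (L l462 (T t9942 (L l180 (L l433 (T t10024 N)))))))))) (K a74 (M a144 (F (L l84 (T t5025 (L l433 (T t9936 (L l84 (L l180 (L l213 (L l266 (L l433 (T t9937 (L l84 (L l266 (T t9938 N))))))))))))))) (K a138 (M a8 (F (T t10025 (L l290 (T t215 (L l154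 (L l160 (T t10026 N)))))))) (K a207 (M a240 (L l289 (F (T t10023 (L l440 (L l512 (T t7828 (L l180 (L l433 (T t10024 (K a223 (M a239 (F (L l246 (T t7856 (L l433 (L l505 (T t9942 (L l180 (L l433 (T t10024 N)))))))))) (K a239 (M a223 (L l397 (F (T t10023 (L l404 (L l440 (L l512 (T t7828 (L l180 (L l433 (T t10024 (K a47 (M a111 (F (T t5327 (L l180 (L l411 (L l433 (T t9820 (T t10027 N)))))))) (K a111 (M a47 (L l505 (F (T t10028 (L l404 (L l440 (L l512 (T t10029 (K a159 (Fr a63 a31 l61 (V t7764)) (K a63 (M a159 (L l433 (F (T t10028 (L l38 (L l440 (L l512 (T t4219 (L l104 (L l180 (L l404 (L l512 (T t9947 (K a127 (M a191 (L l137 (F (T t10028 (L l38 (L l404 (L l440 (L l512 (T t7828 (L l144 (T t10030 (K a79 (Fr a95 a31 l361 (V t10031)) (K a95 (M a79 (F (T t4146 (T t10032 N)))) N))))))))))))) (K a191 (M a127 (F (T t10028 (L l38 (L l190 (L l440 (L l512 (T t4219 (T t10030 N))))))))) N))))))))))))))) N)))))))))) N))))))))))))) N))))))))))))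 N)))))))))))))))))))))⟩
def e0_192__255_56 : Ent 4 := ⟨[a0, a192], [a255, a191], (M a48 (L l433 (F (T t2113 (L l220 (L l266 (T t27 (L l266 (T t19 (L l190 (L l266 (T t837 (L l266 (T t28 (K a64 (M a63 (F (T t610 (L l220 (L l289 (T t20 (L l116 (L l144 (L l213 (T t31 N)))))))))) (K a128 (M a63 (L l220 (F (T t53 (L l469 (T t1 (L l213 (T t31 (K a149 (M a170 (F (T t132 (L l170 (L l192 (L l289 (T t10033 (L l190 (L l347 (L l491 (T t580 N))))))))))) (K a170 (Fr a149 a106 l519 (V t10034)) N)))))))))) (K a16 (M a104 (L l433 (F (L l220 (T t5213 (L l434 (T t10035 (L l220 (L l340 (T t4642 (K a63 (M a127 (F (L l220 (T t5213 (L l290 (L l340 (L l507 (T t10036 (L l220 (L l364 (L l368 (L l517 (T t9852 N))))))))))))) (K a127 (M a63 (F (L l144 (T t53 (L l475 (T t4644 N)))))) N)))))))))))) (K a80 (M a63 (F (T t132 (L l220 (L l289 (T t20 (L l116 (L l213 (T t31 N))))))))) (K a144 (M a84 (L l433 (F (T t3650 (L l434 (T t9750 (L l192 (L l220 (T t9776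 (K a63 (M a127 (F (T t3650 (L l192 (L l220 (L l475 (T t9848 N))))))) (K a127 (M a63 (F (T t610 (L l109 (L l166 (L l192 (L l220 (T t9747 N)))))))) N))))))))))) (K a32 (M a148 (L l433 (F (L l185 (T t5076 (L l290 (L l376 (T t9777 (L l185 (L l376 (T t9775 (K a63 (M a127 (F (L l185 (T t5076 (L l290 (L l376 (L l507 (T t10037 (L l185 (L l376 (T t9775 N))))))))))) (K a127 (M a63 (F (L l220 (T t56 (L l475 (T t9962 N)))))) N))))))))))))) (K a96 (M a104 (L l433 (F (L l261 (T t9850 (L l220 (L l376 (T t9969 (L l470 (T t10038 (K a63 (M a127 (F (L l376 (T t9813 (L l220 (L l517 (T t9852 N))))))) (K a127 (M a63 (F (T t48 (L l143 (L l220 (L l295 (T t10039 N))))))) N)))))))))))) (K a160 (M a63 (F (T t48 (L l220 (L l289 (T t20 (L l213 (L l376 (T t31 N))))))))) (K a240 (M a63 (L l266 (F (T t48 (L l220 (L l289 (L l303 (T t20 (L l213 (T t31 (K a245 (M a250 (F (T t610 (L l213 (L l289 (L l303 (T t22 (L l220 (T t525 N))))))))) (K a250 (M a245 (F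 (T t607 (L l213 (L l289 (L l303 (T t22 (L l220 (L l282 (T t525 N)))))))))) N)))))))))))) (K a63 (M a127 (F (T t2113 (L l220 (L l289 (T t9870 (L l220 (L l505 (T t9871 (K a64 (M a148 (F (L l116 (T t9773 (L l62 (L l140 (L l470 (T t9771 (L l116 (T t9772 N)))))))))) (K a128 (M a60 (L l220 (F (T t9844 (L l62 (L l470 (T t489 (T t9840 (K a149 (M a170 (F (T t9844 (L l289 (L l295 (T t8370 N)))))) (K a170 (M a149 (F (T t3520 (L l213 (L l219 (L l505 (L l517 (T t9845 N)))))))) N)))))))))) (K a16 (M a68 (F (T t9872 (L l220 (L l439 (T t9873 N)))))) (K a96 (M a68 (F (T t9016 (L l104 (L l220 (L l439 (T t9873 N))))))) N))))))))))))) (K a127 (M a63 (F (T t610 (L l114 (L l220 (L l266 (T t27 (L l220 (L l289 (T t20 N)))))))))) N)))))))))))))))))))))))))⟩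
def e0_192__255_57 : Ent 4 := ⟨[a0, a192], [a255, a193], (M a48 (F (T t55 (L l266 (T t27 (L l266 (T t19 (L l266 (T t837 (L l266 (T t28 (K a64 (M a148 (F (L l434 (T t9770 (L l140 (L l470 (T t9771 (L l116 (T t9772 N))))))))) (K a128 (M a148 (F (T t9773 (L l470 (T t9771 (T t9772 N)))))) (K a16 (M a148 (F (T t9773 (L l261 (T t9774 (T t9775 N)))))) (K a80 (M a84 (F (T t9747 (T t3650 (T t9776 N))))) (K a144 (M a84 (F (T t3650 (L l434 (T t9750 (L l192 (T t9776 N))))))) (K a32 (M a148 (F (T t5076 (L l290 (L l376 (T t9777 (L l376 (T t9775 N)))))))) (K a96 (M a84 (F (T t9747 (L l290 (T t3280 (L l376 (T t9776 N))))))) (K a160 (M a84 (F (L l192 (T t9747 (L l376 (T t3650 (L l192 (L l376 (T t9776 N))))))))) (K a240 (M a145 (L l266 (F (T t10040 (T t10041 (K a245 (M a250 (F (T t10040 (T t10041 N)))) (K a250 (M a245 (F (T t10040 (T t10041 N)))) N))))))) N))))))))))))))))))))⟩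
def e0_192__255_58 : Ent 4 := ⟨[a0, a192], [a255, a194], (M a48 (F (T t55 (L l266 (T t27 (L l266 (T t19 (L l266 (T t837 (L l266 (T t28 (K a64 (M a148 (F (L l434 (T t9770 (L l140 (L l470 (T t9771 (L l116 (T t9772 N))))))))) (K a128 (M a148 (F (T t9773 (L l470 (T t9771 (T t9772 N)))))) (K a16 (M a148 (F (T t9773 (L l261 (T t9774 (T t9775 N)))))) (K a80 (M a84 (F (T t9747 (T t3650 (T t9776 N))))) (K a144 (M a84 (F (T t3650 (L l434 (T t9750 (L l192 (T t9776 N))))))) (K a32 (M a148 (F (T t5076 (L l290 (L l376 (T t9777 (L l376 (T t9775 N)))))))) (K a96 (M a84 (F (T t9747 (L l290 (T t3280 (L l376 (T t9776 N))))))) (K a160 (M a84 (F (L l192 (T t9747 (L l376 (T t3650 (L l192 (L l376 (T t9776 N))))))))) (K a240 (M a98 (L l266 (F (T t9953 (T t9954 (K a245 (M a250 (F (T t9953 (T t9954 N)))) (K a250 (M a245 (F (T t9953 (T t9954 N)))) N))))))) N))))))))))))))))))))⟩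
def e0_192__255_59 : Ent 4 := ⟨[a0, a192], [a255, a195], (M a240 (L l295 (F (T t5426 (L l440 (L l488 (T t5418 (L l440 (L l488 (T t5820 (L l440 (L l488 (T t4219 (L l440 (L l488 (T t7828 (K a64 (M a84 (L l295 (F (T t6890 (L l237 (L l290 (T t9745 (T t9746 (K a215 (M a235 (F (T t6890 (L l237 (L l239 (L l290 (T t9745 (L l239 (T t9746 N))))))))) (K a235 (M a215 (F (T t6890 (L l237 (L l290 (T t9745 (T t9746 N))))))) N)))))))))) (K a128 (M a84 (L l295 (F (L l192 (T t6890 (L l216 (L l237 (L l290 (T t9745 (L l192 (T t9746 (K a215 (M a235 (F (L l192 (T t6890 (L l216 (L l237 (L l239 (L l290 (T t9745 (L l192 (L l239 (T t9746 N)))))))))))) (K a235 (M a215 (F (L l192 (T t6890 (L l216 (L l237 (L l290 (T t9745 (L l192 (T t9746 N)))))))))) N))))))))))))) (K a80 (M a84 (L l295 (F (T t9747 (L l237 (L l290 (T t9745 (L l340 (T t9748 (K a215 (M a235 (F (T t9769 (L l340 (T t9748 (L l237 (L l239 (L l290 (T t9745 N))))))))) (K a235 (M a215 (F (T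 t9747 (L l237 (L l290 (T t9745 (L l340 (T t9748 N)))))))) N))))))))))) (K a144 (M a148 (L l295 (F (T t5076 (T t10042 (T t10043 (K a215 (M a235 (F (T t10042 (L l434 (L l518 (T t10044 (T t10045 N))))))) (K a235 (M a215 (F (T t10042 (L l434 (L l518 (T t10044 (T t10045 N))))))) N)))))))) (K a208 (M a84 (L l295 (F (T t6890 (L l434 (L l518 (T t9750 (T t9751 (K a215 (M a235 (F (T t6890 (L l239 (L l242 (L l261 (L l297 (T t9752 (T t9751 N))))))))) (K a235 (M a215 (F (T t6890 (L l242 (L l261 (L l297 (T t9752 (T t9751 N)))))))) N)))))))))) (K a96 (M a84 (L l295 (F (T t9747 (L l376 (T t6890 (T t9748 (K a215 (M a235 (F (T t9748 (L l237 (L l239 (L l290 (T t9745 (L l116 (L l239 (L l261 (L l297 (T t9752 N)))))))))))) (K a235 (M a215 (F (T t9747 (L l261 (L l297 (L l376 (T t9799 (T t9748 N)))))))) N))))))))) (K a160 (M a84 (L l295 (F (L l192 (T t9747 (L l176 (L l237 (L l290 (T t9745 (L l192 (T t9748 (K a215 (M a235 (F (L l192 (T t9748 (L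 l239 (L l261 (L l297 (T t9752 (L l176 (L l237 (L l239 (L l290 (T t9745 N))))))))))))) (K a235 (M a215 (F (L l192 (T t9747 (L l176 (L l237 (L l290 (T t9745 (L l192 (T t9748 N)))))))))) N))))))))))))) (K a224 (M a84 (L l295 (F (T t9747 (L l338 (L l376 (L l470 (T t8887 (L l376 (T t9751 (K a215 (M a235 (F (L l350 (T t9747 (L l261 (L l297 (T t9601 (L l376 (T t9751 N))))))))) (K a235 (M a215 (F (T t9747 (L l261 (L l297 (T t9601 (L l376 (T t9751 N)))))))) N)))))))))))) (K a48 (M a84 (L l295 (L l440 (L l488 (F (T t9747 (T t6890 (T t9748 (K a97 (M a146 (L l295 (L l440 (F (T t6890 (L l261 (L l297 (L l436 (T t9752 (T t9748 (K a117 (M a186 (L l295 (F (T t6890 (L l261 (L l297 (L l436 (T t9752 (T t9748 (K a215 (M a235 (F (T t6890 (L l239 (L l261 (L l297 (L l436 (T t9752 (T t9748 N))))))))) (K a235 (M a215 (F (T t6890 (L l261 (L l297 (L l436 (T t9752 (T t9748 N)))))))) N))))))))))) (K a186 (M a117 (L l295 (F (T t6890 (L l261 (L l297 (L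 l436 (T t9752 (T t9748 (K a215 (M a235 (F (T t6890 (L l239 (L l261 (L l297 (L l436 (T t9752 (T t9748 N))))))))) (K a235 (M a215 (F (T t6890 (L l261 (L l297 (L l436 (T t9752 (T t9748 N)))))))) N))))))))))) (K a215 (M a235 (L l440 (F (T t6890 (L l239 (L l261 (L l297 (L l436 (T t9752 (T t9748 (K a117 (M a186 (F (T t6890 (L l239 (L l261 (L l297 (L l436 (T t9752 (T t9748 N))))))))) (K a186 (M a117 (F (T t6890 (L l239 (L l261 (L l297 (L l436 (T t9752 (T t9748 N))))))))) N)))))))))))) (K a235 (M a215 (L l440 (F (T t6890 (L l261 (L l297 (L l436 (T t9752 (T t9748 (K a117 (M a186 (F (T t6890 (L l261 (L l297 (L l436 (T t9752 (T t9748 N)))))))) (K a186 (M a117 (F (T t6890 (L l261 (L l297 (L l436 (T t9752 (T t9748 N)))))))) N))))))))))) N)))))))))))))) (K a117 (M a186 (L l295 (L l488 (F (T t6890 (L l261 (L l297 (L l436 (T t9752 (T t9748 (K a97 (M a146 (L l295 (F (T t6890 (L l261 (L l297 (L l436 (T t9752 (T t9748 (K a215 (M a235 (F (T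 t6890 (L l239 (L l261 (L l297 (L l436 (T t9752 (T t9748 N))))))))) (K a235 (M a215 (F (T t6890 (L l261 (L l297 (L l436 (T t9752 (T t9748 N)))))))) N))))))))))) (K a146 (M a97 (L l295 (F (T t6890 (L l261 (L l297 (L l436 (T t9752 (T t9748 (K a215 (M a235 (F (T t6890 (L l239 (L l261 (L l297 (L l436 (T t9752 (T t9748 N))))))))) (K a235 (M a215 (F (T t6890 (L l261 (L l297 (L l436 (T t9752 (T t9748 N)))))))) N))))))))))) (K a215 (M a235 (L l488 (F (T t6890 (L l239 (L l261 (L l297 (L l436 (T t9752 (T t9748 (K a97 (M a146 (F (T t6890 (L l239 (L l261 (L l297 (L l436 (T t9752 (T t9748 N))))))))) (K a146 (M a97 (F (T t6890 (L l239 (L l261 (L l297 (L l436 (T t9752 (T t9748 N))))))))) N)))))))))))) (K a235 (M a215 (L l488 (F (T t6890 (L l261 (L l297 (L l436 (T t9752 (T t9748 (K a97 (M a146 (F (T t6890 (L l261 (L l297 (L l436 (T t9752 (T t9748 N)))))))) (K a146 (M a97 (F (T t6890 (L l261 (L l297 (L l436 (T t9752 (T t9748 N)))))))) N)))))))))))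 N)))))))))))))) (K a146 (M a97 (L l295 (L l440 (F (T t6890 (L l261 (L l297 (L l436 (T t9752 (T t9748 (K a117 (M a186 (L l295 (F (T t6890 (L l261 (L l297 (L l436 (T t9752 (T t9748 (K a215 (M a235 (F (T t6890 (L l239 (L l261 (L l297 (L l436 (T t9752 (T t9748 N))))))))) (K a235 (M a215 (F (T t6890 (L l261 (L l297 (L l436 (T t9752 (T t9748 N)))))))) N))))))))))) (K a186 (M a117 (L l295 (F (T t6890 (L l261 (L l297 (L l436 (T t9752 (T t9748 (K a215 (M a235 (F (T t6890 (L l239 (L l261 (L l297 (L l436 (T t9752 (T t9748 N))))))))) (K a235 (M a215 (F (T t6890 (L l261 (L l297 (L l436 (T t9752 (T t9748 N)))))))) N))))))))))) (K a215 (M a235 (L l440 (F (T t6890 (L l239 (L l261 (L l297 (L l436 (T t9752 (T t9748 (K a117 (M a186 (F (T t6890 (L l239 (L l261 (L l297 (L l436 (T t9752 (T t9748 N))))))))) (K a186 (M a117 (F (T t6890 (L l239 (L l261 (L l297 (L l436 (T t9752 (T t9748 N))))))))) N)))))))))))) (K a235 (M a215 (L l440 (F (T t6890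 (L l261 (L l297 (L l436 (T t9752 (T t9748 (K a117 (M a186 (F (T t6890 (L l261 (L l297 (L l436 (T t9752 (T t9748 N)))))))) (K a186 (M a117 (F (T t6890 (L l261 (L l297 (L l436 (T t9752 (T t9748 N)))))))) N))))))))))) N)))))))))))))) (K a186 (M a117 (L l295 (L l488 (F (T t6890 (L l261 (L l297 (L l436 (T t9752 (T t9748 (K a97 (M a146 (L l295 (F (T t6890 (L l261 (L l297 (L l436 (T t9752 (T t9748 (K a215 (M a235 (F (T t6890 (L l239 (L l261 (L l297 (L l436 (T t9752 (T t9748 N))))))))) (K a235 (M a215 (F (T t6890 (L l261 (L l297 (L l436 (T t9752 (T t9748 N)))))))) N))))))))))) (K a146 (M a97 (L l295 (F (T t6890 (L l261 (L l297 (L l436 (T t9752 (T t9748 (K a215 (M a235 (F (T t6890 (L l239 (L l261 (L l297 (L l436 (T t9752 (T t9748 N))))))))) (K a235 (M a215 (F (T t6890 (L l261 (L l297 (L l436 (T t9752 (T t9748 N)))))))) N))))))))))) (K a215 (M a235 (L l488 (F (T t6890 (L l239 (L l261 (L l297 (L l436 (T t9752 (T t9748 (K a97 (M a146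 (F (T t6890 (L l239 (L l261 (L l297 (L l436 (T t9752 (T t9748 N))))))))) (K a146 (M a97 (F (T t6890 (L l239 (L l261 (L l297 (L l436 (T t9752 (T t9748 N))))))))) N)))))))))))) (K a235 (M a215 (L l488 (F (T t6890 (L l261 (L l297 (L l436 (T t9752 (T t9748 (K a97 (M a146 (F (T t6890 (L l261 (L l297 (L l436 (T t9752 (T t9748 N)))))))) (K a146 (M a97 (F (T t6890 (L l261 (L l297 (L l436 (T t9752 (T t9748 N)))))))) N))))))))))) N)))))))))))))) (K a215 (M a235 (L l440 (L l488 (F (T t6890 (L l239 (L l261 (L l297 (L l436 (T t9752 (T t9748 (K a97 (M a146 (L l440 (F (T t6890 (L l239 (L l261 (L l297 (L l436 (T t9752 (T t9748 (K a117 (M a186 (F (T t6890 (L l239 (L l261 (L l297 (L l436 (T t9752 (T t9748 N))))))))) (K a186 (M a117 (F (T t6890 (L l239 (L l261 (L l297 (L l436 (T t9752 (T t9748 N))))))))) N)))))))))))) (K a117 (M a186 (L l488 (F (T t6890 (L l239 (L l261 (L l297 (L l436 (T t9752 (T t9748 (K a97 (M a146 (F (T t6890 (L l239 (L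 l261 (L l297 (L l436 (T t9752 (T t9748 N))))))))) (K a146 (M a97 (F (T t6890 (L l239 (L l261 (L l297 (L l436 (T t9752 (T t9748 N))))))))) N)))))))))))) (K a146 (M a97 (L l440 (F (T t6890 (L l239 (L l261 (L l297 (L l436 (T t9752 (T t9748 (K a117 (M a186 (F (T t6890 (L l239 (L l261 (L l297 (L l436 (T t9752 (T t9748 N))))))))) (K a186 (M a117 (F (T t6890 (L l239 (L l261 (L l297 (L l436 (T t9752 (T t9748 N))))))))) N)))))))))))) (K a186 (M a117 (L l488 (F (T t6890 (L l239 (L l261 (L l297 (L l436 (T t9752 (T t9748 (K a97 (M a146 (F (T t6890 (L l239 (L l261 (L l297 (L l436 (T t9752 (T t9748 N))))))))) (K a146 (M a97 (F (T t6890 (L l239 (L l261 (L l297 (L l436 (T t9752 (T t9748 N))))))))) N)))))))))))) N))))))))))))))) (K a235 (M a215 (L l440 (L l488 (F (T t6890 (L l261 (L l297 (L l436 (T t9752 (T t9748 (K a97 (M a146 (L l440 (F (T t6890 (L l261 (L l297 (L l436 (T t9752 (T t9748 (K a117 (M a186 (F (T t6890 (L l261 (L l297 (L l436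 (T t9752 (T t9748 N)))))))) (K a186 (M a117 (F (T t6890 (L l261 (L l297 (L l436 (T t9752 (T t9748 N)))))))) N))))))))))) (K a117 (M a186 (L l488 (F (T t6890 (L l261 (L l297 (L l436 (T t9752 (T t9748 (K a97 (M a146 (F (T t6890 (L l261 (L l297 (L l436 (T t9752 (T t9748 N)))))))) (K a146 (M a97 (F (T t6890 (L l261 (L l297 (L l436 (T t9752 (T t9748 N)))))))) N))))))))))) (K a146 (M a97 (L l440 (F (T t6890 (L l261 (L l297 (L l436 (T t9752 (T t9748 (K a117 (M a186 (F (T t6890 (L l261 (L l297 (L l436 (T t9752 (T t9748 N)))))))) (K a186 (M a117 (F (T t6890 (L l261 (L l297 (L l436 (T t9752 (T t9748 N)))))))) N))))))))))) (K a186 (M a117 (L l488 (F (T t6890 (L l261 (L l297 (L l436 (T t9752 (T t9748 (K a97 (M a146 (F (T t6890 (L l261 (L l297 (L l436 (T t9752 (T t9748 N)))))))) (K a146 (M a97 (F (T t6890 (L l261 (L l297 (L l436 (T t9752 (T t9748 N)))))))) N))))))))))) N)))))))))))))) N)))))))))))))) (K a215 (M a235 (F (T t5426 (L l440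 (L l488 (T t5418 (L l440 (L l488 (T t5820 (L l440 (L l488 (T t4219 (L l440 (L l488 (T t7828 (K a64 (M a226 (F (T t10046 (L l277 (L l290 (T t10047 N)))))) (K a128 (M a226 (F (L l277 (T t10048 (L l192 (L l196 (L l307 (L l475 (T t10049 N))))))))) (K a80 (M a226 (F (L l86 (L l116 (T t10050 (L l277 (L l290 (L l340 (T t10047 N))))))))) (K a144 (M a226 (F (T t10050 (L l277 (L l290 (L l340 (T t10047 N))))))) (K a208 (M a84 (F (T t6890 (L l239 (L l242 (L l261 (L l297 (T t9752 (T t9751 N))))))))) (K a96 (M a226 (F (L l116 (T t10050 (L l277 (L l290 (T t10047 N))))))) (K a160 (M a226 (F (T t10050 (L l277 (L l290 (T t10047 N)))))) (K a224 (M a84 (F (L l350 (T t9747 (L l261 (L l297 (T t9601 (L l376 (T t9751 N))))))))) (K a48 (M a226 (L l440 (L l488 (F (T t10050 (L l277 (L l290 (T t10047 (K a97 (M a146 (L l440 (F (L l117 (T t10050 (L l277 (L l377 (T t10048 (K a117 (M a186 (F (L l117 (T t10050 (L l277 (L l377 (T t10048 N))))))) (K a186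 (M a117 (F (L l117 (T t10050 (L l277 (L l377 (T t10048 N))))))) N)))))))))) (K a117 (M a186 (L l488 (F (T t10050 (L l277 (L l290 (T t10047 (K a97 (M a146 (F (L l117 (T t10050 (L l277 (L l377 (T t10048 N))))))) (K a146 (M a97 (F (L l344 (T t10050 (L l277 (L l290 (T t10047 N))))))) N))))))))) (K a146 (M a97 (L l440 (F (L l344 (T t10050 (L l277 (L l290 (T t10047 (K a117 (M a186 (F (L l344 (T t10050 (L l277 (L l290 (T t10047 N))))))) (K a186 (M a117 (F (L l344 (T t10050 (L l277 (L l290 (T t10047 N))))))) N)))))))))) (K a186 (M a117 (L l488 (F (T t10050 (L l277 (L l290 (T t10047 (K a97 (M a146 (F (L l117 (T t10050 (L l277 (L l377 (T t10048 N))))))) (K a146 (M a97 (F (L l344 (T t10050 (L l277 (L l290 (T t10047 N))))))) N))))))))) N)))))))))))) N)))))))))))))))))))))))) (K a235 (M a215 (F (T t5426 (L l440 (L l488 (T t5418 (L l440 (L l488 (T t5820 (L l440 (L l488 (T t4219 (L l440 (L l488 (T t7828 (K a64 (M a209 (F (L l283 (T t10051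 (L l116 (L l120 (L l307 (L l475 (T t10052 N))))))))) (K a128 (M a209 (F (T t10053 (L l283 (T t10051 N))))) (K a80 (M a209 (F (T t5127 (L l283 (T t10051 N))))) (K a144 (M a209 (F (L l192 (T t5127 (L l283 (T t10051 N)))))) (K a208 (M a84 (F (T t6890 (L l242 (L l261 (L l297 (T t9752 (T t9751 N)))))))) (K a96 (M a209 (F (T t5127 (L l283 (L l376 (T t10051 N)))))) (K a160 (M a209 (F (L l172 (L l192 (T t5127 (L l283 (L l376 (T t10051 N)))))))) (K a224 (M a84 (F (T t9747 (L l261 (L l297 (T t9601 (L l376 (T t9751 N)))))))) (K a48 (M a209 (L l440 (L l488 (F (T t5127 (L l283 (T t10051 (K a97 (M a146 (L l440 (F (L l380 (T t5127 (L l283 (T t10051 (K a117 (M a186 (F (L l380 (T t5127 (L l283 (T t10051 N)))))) (K a186 (M a117 (F (L l380 (T t5127 (L l283 (T t10051 N)))))) N))))))))) (K a117 (M a186 (L l488 (F (T t5127 (L l283 (T t10051 (K a97 (M a146 (F (L l380 (T t5127 (L l283 (T t10051 N)))))) (K a146 (M a97 (F (L l194 (T t5127 (L l283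 (L l290 (L l342 (T t10054 N)))))))) N)))))))) (K a146 (M a97 (L l440 (F (L l194 (T t5127 (L l283 (L l290 (L l342 (T t10054 (K a117 (M a186 (F (L l194 (T t5127 (L l283 (L l290 (L l342 (T t10054 N)))))))) (K a186 (M a117 (F (L l194 (T t5127 (L l283 (L l290 (L l342 (T t10054 N)))))))) N))))))))))) (K a186 (M a117 (L l488 (F (T t5127 (L l283 (T t10051 (K a97 (M a146 (F (L l380 (T t5127 (L l283 (T t10051 N)))))) (K a146 (M a97 (F (L l194 (T t5127 (L l283 (L l290 (L l342 (T t10054 N)))))))) N)))))))) N))))))))))) N)))))))))))))))))))))))) N)))))))))))))))))))))))))))⟩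
def e0_192__255_60 : Ent 4 := ⟨[a0, a192], [a255, a197], (M a240 (F (T t5426 (L l440 (T t5418 (L l440 (T t5820 (L l440 (T t4219 (L l440 (T t7828 (K a64 (M a84 (F (T t6890 (L l290 (T t9745 (T t9746 N)))))) (K a128 (M a84 (F (L l261 (T t9601 (L l216 (L l290 (T t9745 (L l192 (T t9746 N))))))))) (K a80 (M a84 (F (T t9747 (L l290 (T t9745 (L l340 (T t9748 N))))))) (K a144 (M a84 (F (L l261 (T t9749 (L l470 (T t9094 (L l192 (L l340 (T t9748 N))))))))) (K a208 (M a84 (F (T t6890 (L l434 (T t9750 (T t9751 N)))))) (K a96 (M a84 (F (T t9747 (L l376 (T t6890 (T t9748 N)))))) (K a160 (M a84 (F (L l261 (T t9752 (L l176 (L l290 (T t9745 (L l192 (T t9748 N))))))))) (K a224 (M a84 (F (T t9747 (L l376 (L l470 (T t8887 (L l376 (T t9751 N)))))))) (K a48 (M a84 (L l440 (F (T t9747 (T t6890 (T t9748 (K a117 (M a186 (F (T t6890 (L l261 (L l436 (T t9752 (T t9748 N))))))) (K a186 (M a117 (F (T t6890 (L l261 (L l436 (T t9752 (T t9748 N))))))) N))))))))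 N))))))))))))))))))))⟩
def e0_192__255_61 : Ent 4 := ⟨[a0, a192], [a255, a198], (M a48 (F (T t55 (L l266 (T t27 (L l266 (T t19 (L l266 (T t837 (L l266 (T t28 (K a64 (M a148 (F (L l434 (T t9770 (L l140 (L l470 (T t9771 (L l116 (T t9772 N))))))))) (K a128 (M a148 (F (T t9779 (L l470 (T t9771 (T t9772 N)))))) (K a16 (M a148 (F (T t9780 (L l229 (T t9773 (T t9775 N)))))) (K a80 (M a84 (F (T t9747 (T t3650 (T t9776 N))))) (K a144 (M a84 (F (T t3650 (L l434 (T t9750 (L l192 (T t9776 N))))))) (K a32 (M a148 (F (T t5076 (L l229 (L l237 (L l290 (L l376 (T t9777 (L l376 (T t9775 N)))))))))) (K a96 (M a84 (F (T t9747 (L l237 (L l290 (T t3280 (L l376 (T t9776 N)))))))) (K a160 (M a84 (F (L l192 (T t9747 (L l376 (T t3650 (L l192 (L l376 (T t9776 N))))))))) (K a240 (M a84 (L l266 (F (T t9747 (T t3650 (T t9776 (K a245 (M a250 (F (T t3650 (L l261 (L l262 (T t9749 (T t9778 N))))))) (K a250 (M a245 (F (T t3650 (L l261 (L l262 (T t9749 (T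 t9778 N))))))) N)))))))) N))))))))))))))))))))⟩
def e0_192__255_62 : Ent 4 := ⟨[a0, a192], [a255, a199], (M a48 (F (T t55 (L l266 (T t27 (L l266 (T t19 (L l266 (T t837 (L l266 (T t28 (K a64 (M a148 (F (L l434 (T t9770 (L l140 (L l470 (L l494 (T t9771 (L l116 (T t9772 N)))))))))) (K a128 (M a148 (F (T t9779 (L l470 (L l494 (T t9771 (T t9772 N))))))) (K a16 (M a148 (F (T t9780 (L l229 (T t9773 (T t9775 N)))))) (K a80 (M a84 (F (T t9747 (T t3650 (T t9776 N))))) (K a144 (M a84 (F (T t3650 (L l434 (T t9750 (L l192 (T t9776 N))))))) (K a32 (M a148 (F (T t5076 (L l229 (L l290 (L l376 (T t9777 (L l376 (T t9775 N))))))))) (K a96 (M a84 (F (T t9747 (L l290 (T t3280 (L l376 (T t9776 N))))))) (K a160 (M a84 (F (L l192 (T t9747 (L l376 (T t3650 (L l192 (L l376 (T t9776 N))))))))) (K a240 (M a84 (L l266 (F (T t9747 (T t3650 (T t9776 (K a245 (M a250 (F (T t3650 (L l261 (L l262 (T t9749 (T t9778 N))))))) (K a250 (M a245 (F (T t3650 (L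 l261 (L l262 (T t9749 (T t9778 N))))))) N)))))))) N))))))))))))))))))))⟩
def e0_192__255_63 : Ent 4 := ⟨[a0, a192], [a255, a202], (M a240 (F (T t5426 (L l440 (T t5418 (L l440 (T t5820 (L l440 (T t4219 (L l440 (T t7828 (K a64 (M a84 (F (T t6890 (L l230 (L l290 (T t9745 (T t9746 N))))))) (K a128 (M a84 (F (L l261 (T t9601 (L l216 (L l230 (L l290 (T t9745 (L l192 (T t9746 N)))))))))) (K a80 (M a84 (F (T t9747 (L l230 (L l290 (T t9745 (L l340 (T t9748 N)))))))) (K a144 (M a84 (F (L l261 (T t9749 (L l470 (T t9094 (L l192 (L l340 (T t9748 N))))))))) (K a208 (M a84 (F (T t6890 (L l434 (T t9750 (T t9751 N)))))) (K a96 (M a84 (F (T t9747 (L l376 (T t6890 (T t9748 N)))))) (K a160 (M a84 (F (L l261 (T t9752 (L l176 (L l230 (L l290 (T t9745 (L l192 (T t9748 N)))))))))) (K a224 (M a84 (F (T t9747 (L l376 (L l470 (T t8887 (L l376 (T t9751 N)))))))) (K a48 (M a84 (L l440 (F (T t9747 (T t6890 (T t9748 (K a117 (M a186 (F (T t6890 (L l261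 (L l436 (T t9752 (T t9748 N))))))) (K a186 (M a117 (F (T t6890 (L l261 (L l436 (T t9752 (T t9748 N))))))) N)))))))) N))))))))))))))))))))⟩
def e0_192__255_64 : Ent 4 := ⟨[a0, a192], [a255, a203], (M a48 (F (T t55 (L l266 (T t27 (L l266 (T t19 (L l266 (T t837 (L l266 (T t28 (K a64 (M a148 (F (L l434 (T t9770 (L l140 (L l320 (L l470 (T t9771 (L l116 (T t9772 N)))))))))) (K a128 (M a148 (F (T t9773 (L l320 (L l470 (T t9771 (T t9772 N))))))) (K a16 (M a148 (F (T t9773 (L l261 (T t9774 (T t9775 N)))))) (K a80 (M a84 (F (T t9747 (T t3650 (L l500 (T t9776 N)))))) (K a144 (M a84 (F (T t3650 (L l434 (T t9750 (L l192 (L l500 (T t9776 N)))))))) (K a32 (M a148 (F (T t5076 (L l290 (L l376 (T t9777 (L l376 (T t9775 N)))))))) (K a96 (M a84 (F (T t9747 (L l290 (T t3280 (L l376 (L l500 (T t9776 N)))))))) (K a160 (M a84 (F (L l192 (T t9747 (L l376 (T t3650 (L l192 (L l376 (L l500 (T t9776 N)))))))))) (K a240 (M a84 (L l266 (F (T t9747 (T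 t3650 (L l500 (T t9776 (K a245 (M a250 (F (T t3650 (L l261 (L l262 (T t9749 (L l230 (T t9778 N)))))))) (K a250 (M a245 (F (T t3650 (L l261 (L l262 (T t9749 (L l230 (T t9778 N)))))))) N))))))))) N))))))))))))))))))))⟩
def e0_192__255_65 : Ent 4 := ⟨[a0, a192], [a255, a207], (M a48 (L l289 (F (T t55 (L l266 (L l303 (T t27 (L l266 (L l303 (T t19 (L l266 (L l303 (T t837 (L l266 (L l303 (T t28 (K a64 (M a100 (L l289 (F (T t10055 (L l261 (L l291 (T t4655 (T t9977 (K a223 (M a239 (F (T t10055 (L l368 (L l511 (T t10056 N)))))) (K a239 (M a223 (F (T t10055 (L l251 (L l261 (L l291 (T t4657 (L l251 (T t9977 N))))))))) N)))))))))) (K a128 (M a152 (L l289 (F (T t10057 (L l261 (L l291 (T t4703 (T t9889 (K a223 (M a239 (F (T t10057 (L l231 (L l290 (L l368 (T t8816 (L l241 (T t9889 N))))))))) (K a239 (M a223 (F (T t10057 (L l404 (L l511 (T t10058 N)))))) N)))))))))) (K a16 (M a204 (L l289 (F (T t9988 (L l326 (L l470 (T t1720 (L l340 (L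 l364 (T t9989 (K a223 (M a239 (L l368 (F (T t5210 (L l364 (L l434 (L l506 (T t9990 (L l340 (L l364 (T t9989 (K a85 (M a154 (F (T t5210 (L l361 (L l367 (L l505 (L l511 (T t10059 N)))))))) (K a154 (M a85 (F (T t9988 (L l433 (L l439 (T t9991 N)))))) N))))))))))))) (K a239 (M a223 (F (T t5210 (L l364 (L l434 (L l506 (T t9990 (L l340 (L l364 (T t9989 N)))))))))) N)))))))))))) (K a80 (M a84 (L l289 (F (T t9747 (T t3650 (T t9776 (K a223 (M a239 (F (T t9747 (L l231 (L l241 (L l290 (T t3182 (L l241 (T t9778 N))))))))) (K a239 (M a223 (F (T t9747 (L l404 (L l475 (T t10060 N)))))) N)))))))) (K a144 (M a100 (L l289 (F (L l340 (T t5604 (L l166 (L l326 (L l470 (T t10061 (L l340 (T t10062 (K a223 (M a239 (F (L l166 (T t9985 (L l340 (L l368 (L l511 (T t10056 N)))))))) (K a239 (M a223 (F (L l251 (L l340 (T t5604 (L l166 (L l326 (L l470 (T t10061 (L l251 (L l340 (T t10062 N)))))))))))) N))))))))))))) (K a32 (M a204 (L l289 (F (T t10063 (L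 l326 (L l470 (T t1720 (T t9989 (K a223 (M a239 (F (T t1722 (L l434 (L l506 (T t9990 (T t9989 N))))))) (K a239 (M a223 (L l404 (F (T t1722 (L l434 (L l506 (T t9990 (T t9989 (K a101 (M a170 (F (T t10064 (L l433 (L l439 (T t10065 N)))))) (K a170 (M a101 (F (T t10066 (L l397 (L l403 (L l505 (L l511 (T t10067 N)))))))) N)))))))))) N)))))))))) (K a96 (M a84 (L l289 (F (T t9747 (L l231 (L l290 (T t3280 (L l376 (T t9776 (K a223 (M a239 (F (T t9747 (L l231 (L l241 (L l290 (L l376 (T t3182 (L l241 (L l376 (T t9778 N))))))))))) (K a239 (M a223 (F (T t9747 (L l376 (L l404 (L l475 (T t10060 N))))))) N))))))))))) (K a160 (M a84 (L l289 (F (L l192 (T t9747 (L l376 (T t3650 (L l192 (L l376 (T t9776 (K a223 (M a239 (F (L l192 (T t9747 (L l176 (L l231 (L l241 (L l290 (L l376 (T t3182 (L l192 (L l241 (L l376 (T t9778 N)))))))))))))) (K a239 (M a223 (F (L l192 (T t9747 (L l376 (L l404 (L l475 (T t10060 N)))))))) N)))))))))))) (K a240 (M a204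 (L l266 (L l289 (L l303 (F (T t5482 (L l434 (L l442 (L l506 (T t10068 (L l326 (L l470 (L l478 (T t1720 (K a229 (M a218 (L l266 (L l289 (F (T t10069 (L l261 (L l262 (L l291 (T t1315 (L l434 (L l442 (L l506 (T t9990 (K a245 (M a250 (L l275 (L l289 (F (T t4994 (L l263 (L l299 (T t10070 (K a197 (M a213 (L l289 (F (T t5482 (L l229 (L l235 (L l263 (L l299 (T t10071 (K a223 (M a239 (F (T t4994 (L l229 (L l235 (L l263 (L l299 (T t10071 N)))))))) (K a239 (Fr a223 a208 l246 (V t1315)) N))))))))))) (K a213 (M a197 (L l289 (F (T t4994 (L l235 (L l243 (L l263 (L l278 (L l299 (T t10071 (K a223 (M a239 (F (T t4994 (L l235 (L l243 (L l263 (L l278 (L l299 (T t10071 N))))))))) (K a239 (M a223 (L l256 (F (T t6676 (L l243 (L l263 (L l278 (L l299 (T t10070 (K a224 (Fr a234 a202 l282 (V t1317)) (K a234 (M a224 (F (T t10072 (L l326 (L l470 (L l478 (T t1720 N))))))) N))))))))))) N)))))))))))) (K a223 (M a239 (L l275 (F (T t4994 (L l235 (L l263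 (L l299 (T t10071 (K a197 (M a213 (F (T t4994 (L l229 (L l235 (L l263 (L l299 (T t10071 N)))))))) (K a213 (M a197 (F (T t4994 (L l235 (L l243 (L l263 (L l278 (L l299 (T t10071 N))))))))) N)))))))))) (K a239 (M a223 (L l256 (L l275 (F (T t6676 (L l235 (L l263 (L l299 (T t10071 (K a224 (Fr a234 a202 l282 (V t1315)) (K a197 (Fr a213 a208 l246 (V t1315)) (K a213 (M a197 (L l256 (F (T t6676 (L l243 (L l263 (L l278 (L l299 (T t10070 (K a224 (Fr a234 a202 l282 (V t1317)) (K a234 (M a224 (F (T t10072 (L l326 (L l470 (L l478 (T t1720 N))))))) N))))))))))) (K a234 (M a224 (L l275 (F (T t10072 (L l284 (L l326 (L l470 (L l478 (T t1733 (K a197 (Fr a213 a208 l246 (V t10072)) (K a213 (M a197 (F (T t10072 (L l326 (L l470 (L l478 (T t1720 N))))))) N))))))))))) N))))))))))))) N)))))))))))) (K a250 (M a245 (L l289 (F (T t10069 (L l261 (L l262 (L l291 (T t1315 (L l434 (L l442 (L l506 (T t9990 (K a223 (M a239 (F (T t10069 (L l261 (L l262 (L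 l291 (L l368 (T t1315 (L l434 (L l442 (L l506 (T t9990 N)))))))))))) (K a239 (M a223 (L l256 (F (T t5210 (L l404 (T t10073 (K a224 (M a234 (F (T t10069 (L l376 (L l404 (T t10073 N)))))) (K a234 (M a224 (F (T t10072 (L l284 (L l326 (L l470 (L l478 (T t1733 N)))))))) N)))))))) N)))))))))))))) (K a223 (M a239 (L l266 (F (T t10069 (L l261 (L l262 (L l291 (L l368 (T t1315 (L l434 (L l442 (L l506 (T t9990 (K a245 (M a250 (L l275 (F (T t4994 (L l235 (L l263 (L l299 (T t10071 (K a197 (M a213 (F (T t4994 (L l229 (L l235 (L l263 (L l299 (T t10071 N)))))))) (K a213 (M a197 (F (T t4994 (L l235 (L l243 (L l263 (L l278 (L l299 (T t10071 N))))))))) N)))))))))) (K a250 (M a245 (F (T t10069 (L l261 (L l262 (L l291 (L l368 (T t1315 (L l434 (L l442 (L l506 (T t9990 N)))))))))))) N))))))))))))))) (K a239 (M a223 (L l256 (L l266 (F (T t1722 (L l275 (L l404 (T t10073 (K a224 (M a234 (L l266 (F (T t10066 (L l275 (L l376 (L l404 (T t10073 (K a245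 (Fr a250 a202 l282 (V t1315)) (K a250 (M a245 (F (T t10069 (L l376 (L l404 (T t10073 N)))))) N)))))))))) (K a245 (M a250 (L l256 (L l275 (F (T t6676 (L l235 (L l263 (L l299 (T t10071 (K a224 (Fr a234 a202 l282 (V t1315)) (K a197 (Fr a213 a208 l246 (V t1315)) (K a213 (M a197 (L l256 (F (T t6676 (L l243 (L l263 (L l278 (L l299 (T t10070 (K a224 (Fr a234 a202 l282 (V t1317)) (K a234 (M a224 (F (T t10072 (L l326 (L l470 (L l478 (T t1720 N))))))) N))))))))))) (K a234 (M a224 (L l275 (F (T t10072 (L l284 (L l326 (L l470 (L l478 (T t1733 (K a197 (Fr a213 a208 l246 (V t10072)) (K a213 (M a197 (F (T t10072 (L l326 (L l470 (L l478 (T t1720 N))))))) N))))))))))) N))))))))))))) (K a234 (M a224 (L l266 (F (T t10072 (L l326 (L l470 (L l478 (T t1720 (K a245 (M a250 (L l275 (F (T t10072 (L l284 (L l326 (L l470 (L l478 (T t1733 (K a197 (Fr a213 a208 l246 (V t10072)) (K a213 (M a197 (F (T t10072 (L l326 (L l470 (L l478 (T t1720 N)))))))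 N))))))))))) (K a250 (M a245 (F (T t10072 (L l284 (L l326 (L l470 (L l478 (T t1733 N)))))))) N)))))))))) (K a250 (M a245 (L l256 (F (T t5210 (L l404 (T t10073 (K a224 (M a234 (F (T t10069 (L l376 (L l404 (T t10073 N)))))) (K a234 (M a224 (F (T t10072 (L l284 (L l326 (L l470 (L l478 (T t1733 N)))))))) N)))))))) N)))))))))))) N))))))))))))))))) (K a245 (M a250 (L l289 (L l303 (F (T t10069 (L l261 (L l262 (L l291 (T t1315 (L l434 (L l442 (L l506 (T t9990 (K a229 (M a218 (L l275 (L l289 (F (T t4994 (L l263 (L l299 (T t10070 (K a197 (M a213 (L l289 (F (T t5482 (L l229 (L l235 (L l263 (L l299 (T t10071 (K a223 (M a239 (F (T t4994 (L l229 (L l235 (L l263 (L l299 (T t10071 N)))))))) (K a239 (Fr a223 a208 l246 (V t1315)) N))))))))))) (K a213 (M a197 (L l289 (F (T t4994 (L l235 (L l243 (L l263 (L l278 (L l299 (T t10071 (K a223 (M a239 (F (T t4994 (L l235 (L l243 (L l263 (L l278 (L l299 (T t10071 N))))))))) (K a239 (M a223 (L l256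 (F (T t6676 (L l243 (L l263 (L l278 (L l299 (T t10070 (K a224 (Fr a234 a202 l282 (V t1317)) (K a234 (M a224 (F (T t10072 (L l326 (L l470 (L l478 (T t1720 N))))))) N))))))))))) N)))))))))))) (K a223 (M a239 (L l275 (F (T t4994 (L l235 (L l263 (L l299 (T t10071 (K a197 (M a213 (F (T t4994 (L l229 (L l235 (L l263 (L l299 (T t10071 N)))))))) (K a213 (M a197 (F (T t4994 (L l235 (L l243 (L l263 (L l278 (L l299 (T t10071 N))))))))) N)))))))))) (K a239 (M a223 (L l256 (L l275 (F (T t6676 (L l235 (L l263 (L l299 (T t10071 (K a224 (Fr a234 a202 l282 (V t1315)) (K a197 (Fr a213 a208 l246 (V t1315)) (K a213 (M a197 (L l256 (F (T t6676 (L l243 (L l263 (L l278 (L l299 (T t10070 (K a224 (Fr a234 a202 l282 (V t1317)) (K a234 (M a224 (F (T t10072 (L l326 (L l470 (L l478 (T t1720 N))))))) N))))))))))) (K a234 (M a224 (L l275 (F (T t10072 (L l284 (L l326 (L l470 (L l478 (T t1733 (K a197 (Fr a213 a208 l246 (V t10072)) (K a213 (M a197 (F (T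 t10072 (L l326 (L l470 (L l478 (T t1720 N))))))) N))))))))))) N))))))))))))) N)))))))))))) (K a218 (M a229 (L l289 (F (T t10069 (L l261 (L l262 (L l291 (T t1315 (L l434 (L l442 (L l506 (T t9990 (K a223 (M a239 (L l246 (F (T t5210 (L l368 (T t10074 (K a208 (M a213 (F (T t5210 (L l340 (L l368 (T t10074 N)))))) (K a213 (M a208 (F (T t10075 (L l326 (L l470 (L l478 (T t1735 N))))))) N)))))))) (K a239 (M a223 (F (T t6676 (L l434 (L l442 (L l506 (T t9990 (L l326 (L l470 (L l478 (T t1732 N))))))))))) N)))))))))))))) (K a223 (M a239 (L l303 (F (T t10069 (L l261 (L l262 (L l291 (L l368 (T t1315 (L l434 (L l442 (L l506 (T t9990 (K a229 (M a218 (L l275 (F (T t4994 (L l235 (L l263 (L l299 (T t10071 (K a197 (M a213 (F (T t4994 (L l229 (L l235 (L l263 (L l299 (T t10071 N)))))))) (K a213 (M a197 (F (T t4994 (L l235 (L l243 (L l263 (L l278 (L l299 (T t10071 N))))))))) N)))))))))) (K a218 (M a229 (L l246 (F (T t5210 (L l368 (T t10074 (K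 a208 (M a213 (F (T t5210 (L l340 (L l368 (T t10074 N)))))) (K a213 (M a208 (F (T t10075 (L l326 (L l470 (L l478 (T t1735 N))))))) N)))))))) N))))))))))))))) (K a239 (M a223 (L l303 (F (T t6676 (L l434 (L l442 (L l506 (T t9990 (L l326 (L l470 (L l478 (T t1732 (K a229 (M a218 (L l256 (L l275 (F (T t6676 (L l235 (L l263 (L l299 (T t10071 (K a224 (Fr a234 a202 l282 (V t1315)) (K a197 (Fr a213 a208 l246 (V t1315)) (K a213 (M a197 (L l256 (F (T t6676 (L l243 (L l263 (L l278 (L l299 (T t10070 (K a224 (Fr a234 a202 l282 (V t1317)) (K a234 (M a224 (F (T t10072 (L l326 (L l470 (L l478 (T t1720 N))))))) N))))))))))) (K a234 (M a224 (L l275 (F (T t10072 (L l284 (L l326 (L l470 (L l478 (T t1733 (K a197 (Fr a213 a208 l246 (V t10072)) (K a213 (M a197 (F (T t10072 (L l326 (L l470 (L l478 (T t1720 N))))))) N))))))))))) N))))))))))))) (K a218 (M a229 (F (T t6676 (L l434 (L l442 (L l506 (T t9990 (L l326 (L l470 (L l478 (T t1732 N)))))))))))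 N)))))))))))))) N))))))))))))))))) (K a218 (M a229 (L l266 (L l289 (F (T t10069 (L l261 (L l262 (L l291 (T t1315 (L l434 (L l442 (L l506 (T t9990 (K a245 (M a250 (L l289 (F (T t10069 (L l261 (L l262 (L l291 (T t1315 (L l434 (L l442 (L l506 (T t9990 (K a223 (M a239 (L l246 (F (T t5210 (L l368 (T t10074 (K a208 (M a213 (F (T t5210 (L l340 (L l368 (T t10074 N)))))) (K a213 (M a208 (F (T t10075 (L l326 (L l470 (L l478 (T t1735 N))))))) N)))))))) (K a239 (M a223 (F (T t6676 (L l434 (L l442 (L l506 (T t9990 (L l326 (L l470 (L l478 (T t1732 N))))))))))) N)))))))))))))) (K a250 (M a245 (L l282 (L l289 (F (T t4994 (L l264 (L l300 (T t10076 (K a202 (M a234 (L l289 (F (T t4994 (L l230 (L l235 (L l264 (L l300 (T t10077 (K a223 (Fr a239 a224 l256 (V t1720)) (K a239 (M a223 (F (T t6676 (L l230 (L l264 (L l300 (T t10076 N))))))) N))))))))))) (K a234 (M a202 (L l289 (F (T t4994 (L l235 (L l254 (L l264 (L l284 (L l300 (T t10077 (K a223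 (M a239 (L l246 (F (T t4994 (L l254 (L l264 (L l284 (L l300 (T t10076 (K a208 (Fr a213 a197 l275 (V t9990)) (K a213 (M a208 (F (T t10078 (L l326 (L l470 (L l478 (T t1720 N))))))) N))))))))))) (K a239 (M a223 (F (T t6676 (L l235 (L l254 (L l264 (L l284 (L l300 (T t10077 N))))))))) N)))))))))))) (K a223 (M a239 (L l246 (L l282 (F (T t4994 (L l235 (L l264 (L l300 (T t10077 (K a208 (Fr a213 a197 l275 (V t10079)) (K a213 (M a208 (L l282 (F (T t10075 (L l326 (L l470 (L l478 (T t1720 (K a202 (Fr a234 a224 l256 (V t10078)) (K a234 (M a202 (F (T t10078 (L l326 (L l470 (L l478 (T t1720 N))))))) N)))))))))) (K a202 (Fr a234 a224 l256 (V t1720)) (K a234 (M a202 (L l246 (F (T t4994 (L l254 (L l264 (L l284 (L l300 (T t10076 (K a208 (Fr a213 a197 l275 (V t9990)) (K a213 (M a208 (F (T t10078 (L l326 (L l470 (L l478 (T t1720 N))))))) N))))))))))) N))))))))))))) (K a239 (M a223 (L l282 (F (T t6676 (L l235 (L l264 (L l300 (T t10077 (K a202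 (M a234 (F (T t6676 (L l230 (L l264 (L l300 (T t10076 N))))))) (K a234 (M a202 (F (T t6676 (L l235 (L l254 (L l264 (L l284 (L l300 (T t10077 N))))))))) N)))))))))) N)))))))))))) (K a223 (M a239 (L l246 (L l266 (F (T t1722 (L l282 (L l368 (T t10074 (K a208 (M a213 (L l266 (F (T t10069 (L l282 (L l340 (L l368 (T t10074 (K a245 (M a250 (F (T t5210 (L l340 (L l368 (T t10074 N)))))) (K a250 (Fr a245 a197 l275 (V t10079)) N)))))))))) (K a213 (M a208 (L l266 (F (T t10075 (L l326 (L l470 (L l478 (T t1720 (K a245 (M a250 (F (T t10075 (L l326 (L l470 (L l478 (T t1735 N))))))) (K a250 (M a245 (L l282 (F (T t10075 (L l326 (L l470 (L l478 (T t1720 (K a202 (Fr a234 a224 l256 (V t10078)) (K a234 (M a202 (F (T t10078 (L l326 (L l470 (L l478 (T t1720 N))))))) N)))))))))) N)))))))))) (K a245 (M a250 (L l246 (F (T t5210 (L l368 (T t10074 (K a208 (M a213 (F (T t5210 (L l340 (L l368 (T t10074 N)))))) (K a213 (M a208 (F (T t10075 (L l326 (L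 l470 (L l478 (T t1735 N))))))) N)))))))) (K a250 (M a245 (L l246 (L l282 (F (T t4994 (L l235 (L l264 (L l300 (T t10077 (K a208 (Fr a213 a197 l275 (V t10079)) (K a213 (M a208 (L l282 (F (T t10075 (L l326 (L l470 (L l478 (T t1720 (K a202 (Fr a234 a224 l256 (V t10078)) (K a234 (M a202 (F (T t10078 (L l326 (L l470 (L l478 (T t1720 N))))))) N)))))))))) (K a202 (Fr a234 a224 l256 (V t1720)) (K a234 (M a202 (L l246 (F (T t4994 (L l254 (L l264 (L l284 (L l300 (T t10076 (K a208 (Fr a213 a197 l275 (V t9990)) (K a213 (M a208 (F (T t10078 (L l326 (L l470 (L l478 (T t1720 N))))))) N))))))))))) N))))))))))))) N)))))))))))) (K a239 (M a223 (L l266 (F (T t6676 (L l434 (L l442 (L l506 (T t9990 (L l326 (L l470 (L l478 (T t1732 (K a245 (M a250 (F (T t6676 (L l434 (L l442 (L l506 (T t9990 (L l326 (L l470 (L l478 (T t1732 N))))))))))) (K a250 (M a245 (L l282 (F (T t6676 (L l235 (L l264 (L l300 (T t10077 (K a202 (M a234 (F (T t6676 (L l230 (L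 l264 (L l300 (T t10076 N))))))) (K a234 (M a202 (F (T t6676 (L l235 (L l254 (L l264 (L l284 (L l300 (T t10077 N))))))))) N)))))))))) N)))))))))))))) N))))))))))))))))) (K a250 (M a245 (L l289 (L l303 (F (T t10069 (L l261 (L l262 (L l291 (T t1315 (L l434 (L l442 (L l506 (T t9990 (K a229 (M a218 (L l289 (F (T t10069 (L l261 (L l262 (L l291 (T t1315 (L l434 (L l442 (L l506 (T t9990 (K a223 (M a239 (F (T t10069 (L l261 (L l262 (L l291 (L l368 (T t1315 (L l434 (L l442 (L l506 (T t9990 N)))))))))))) (K a239 (M a223 (L l256 (F (T t5210 (L l404 (T t10073 (K a224 (M a234 (F (T t10069 (L l376 (L l404 (T t10073 N)))))) (K a234 (M a224 (F (T t10072 (L l284 (L l326 (L l470 (L l478 (T t1733 N)))))))) N)))))))) N)))))))))))))) (K a218 (M a229 (L l282 (L l289 (F (T t4994 (L l264 (L l300 (T t10076 (K a202 (M a234 (L l289 (F (T t4994 (L l230 (L l235 (L l264 (L l300 (T t10077 (K a223 (Fr a239 a224 l256 (V t1720)) (K a239 (M a223 (F (T t6676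 (L l230 (L l264 (L l300 (T t10076 N))))))) N))))))))))) (K a234 (M a202 (L l289 (F (T t4994 (L l235 (L l254 (L l264 (L l284 (L l300 (T t10077 (K a223 (M a239 (L l246 (F (T t4994 (L l254 (L l264 (L l284 (L l300 (T t10076 (K a208 (Fr a213 a197 l275 (V t9990)) (K a213 (M a208 (F (T t10078 (L l326 (L l470 (L l478 (T t1720 N))))))) N))))))))))) (K a239 (M a223 (F (T t6676 (L l235 (L l254 (L l264 (L l284 (L l300 (T t10077 N))))))))) N)))))))))))) (K a223 (M a239 (L l246 (L l282 (F (T t4994 (L l235 (L l264 (L l300 (T t10077 (K a208 (Fr a213 a197 l275 (V t10079)) (K a213 (M a208 (L l282 (F (T t10075 (L l326 (L l470 (L l478 (T t1720 (K a202 (Fr a234 a224 l256 (V t10078)) (K a234 (M a202 (F (T t10078 (L l326 (L l470 (L l478 (T t1720 N))))))) N)))))))))) (K a202 (Fr a234 a224 l256 (V t1720)) (K a234 (M a202 (L l246 (F (T t4994 (L l254 (L l264 (L l284 (L l300 (T t10076 (K a208 (Fr a213 a197 l275 (V t9990)) (K a213 (M a208 (F (T t10078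 (L l326 (L l470 (L l478 (T t1720 N))))))) N))))))))))) N))))))))))))) (K a239 (M a223 (L l282 (F (T t6676 (L l235 (L l264 (L l300 (T t10077 (K a202 (M a234 (F (T t6676 (L l230 (L l264 (L l300 (T t10076 N))))))) (K a234 (M a202 (F (T t6676 (L l235 (L l254 (L l264 (L l284 (L l300 (T t10077 N))))))))) N)))))))))) N)))))))))))) (K a223 (M a239 (L l303 (F (T t10069 (L l261 (L l262 (L l291 (L l368 (T t1315 (L l434 (L l442 (L l506 (T t9990 (K a229 (M a218 (F (T t10069 (L l261 (L l262 (L l291 (L l368 (T t1315 (L l434 (L l442 (L l506 (T t9990 N)))))))))))) (K a218 (M a229 (L l246 (L l282 (F (T t4994 (L l235 (L l264 (L l300 (T t10077 (K a208 (Fr a213 a197 l275 (V t10079)) (K a213 (M a208 (L l282 (F (T t10075 (L l326 (L l470 (L l478 (T t1720 (K a202 (Fr a234 a224 l256 (V t10078)) (K a234 (M a202 (F (T t10078 (L l326 (L l470 (L l478 (T t1720 N))))))) N)))))))))) (K a202 (Fr a234 a224 l256 (V t1720)) (K a234 (M a202 (L l246 (F (T t4994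 (L l254 (L l264 (L l284 (L l300 (T t10076 (K a208 (Fr a213 a197 l275 (V t9990)) (K a213 (M a208 (F (T t10078 (L l326 (L l470 (L l478 (T t1720 N))))))) N))))))))))) N))))))))))))) N))))))))))))))) (K a239 (M a223 (L l303 (F (T t6676 (L l434 (L l442 (L l506 (T t9990 (L l326 (L l470 (L l478 (T t1732 (K a229 (M a218 (L l256 (F (T t5210 (L l404 (T t10073 (K a224 (M a234 (F (T t10069 (L l376 (L l404 (T t10073 N)))))) (K a234 (M a224 (F (T t10072 (L l284 (L l326 (L l470 (L l478 (T t1733 N)))))))) N)))))))) (K a218 (M a229 (L l282 (F (T t6676 (L l235 (L l264 (L l300 (T t10077 (K a202 (M a234 (F (T t6676 (L l230 (L l264 (L l300 (T t10076 N))))))) (K a234 (M a202 (F (T t6676 (L l235 (L l254 (L l264 (L l284 (L l300 (T t10077 N))))))))) N)))))))))) N)))))))))))))) N))))))))))))))))) (K a223 (M a239 (L l266 (L l303 (F (T t10069 (L l261 (L l262 (L l291 (L l368 (T t1315 (L l434 (L l442 (L l506 (T t9990 (K a229 (M a218 (L l266 (F (T t10069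 (L l261 (L l262 (L l291 (L l368 (T t1315 (L l434 (L l442 (L l506 (T t9990 (K a245 (M a250 (L l275 (F (T t4994 (L l235 (L l263 (L l299 (T t10071 (K a197 (M a213 (F (T t4994 (L l229 (L l235 (L l263 (L l299 (T t10071 N)))))))) (K a213 (M a197 (F (T t4994 (L l235 (L l243 (L l263 (L l278 (L l299 (T t10071 N))))))))) N)))))))))) (K a250 (M a245 (F (T t10069 (L l261 (L l262 (L l291 (L l368 (T t1315 (L l434 (L l442 (L l506 (T t9990 N)))))))))))) N))))))))))))))) (K a245 (M a250 (L l303 (F (T t10069 (L l261 (L l262 (L l291 (L l368 (T t1315 (L l434 (L l442 (L l506 (T t9990 (K a229 (M a218 (L l275 (F (T t4994 (L l235 (L l263 (L l299 (T t10071 (K a197 (M a213 (F (T t4994 (L l229 (L l235 (L l263 (L l299 (T t10071 N)))))))) (K a213 (M a197 (F (T t4994 (L l235 (L l243 (L l263 (L l278 (L l299 (T t10071 N))))))))) N)))))))))) (K a218 (M a229 (L l246 (F (T t5210 (L l368 (T t10074 (K a208 (M a213 (F (T t5210 (L l340 (L l368 (T t10074 N))))))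 (K a213 (M a208 (F (T t10075 (L l326 (L l470 (L l478 (T t1735 N))))))) N)))))))) N))))))))))))))) (K a218 (M a229 (L l246 (L l266 (F (T t1722 (L l282 (L l368 (T t10074 (K a208 (M a213 (L l266 (F (T t10069 (L l282 (L l340 (L l368 (T t10074 (K a245 (M a250 (F (T t5210 (L l340 (L l368 (T t10074 N)))))) (K a250 (Fr a245 a197 l275 (V t10079)) N)))))))))) (K a213 (M a208 (L l266 (F (T t10075 (L l326 (L l470 (L l478 (T t1720 (K a245 (M a250 (F (T t10075 (L l326 (L l470 (L l478 (T t1735 N))))))) (K a250 (M a245 (L l282 (F (T t10075 (L l326 (L l470 (L l478 (T t1720 (K a202 (Fr a234 a224 l256 (V t10078)) (K a234 (M a202 (F (T t10078 (L l326 (L l470 (L l478 (T t1720 N))))))) N)))))))))) N)))))))))) (K a245 (M a250 (L l246 (F (T t5210 (L l368 (T t10074 (K a208 (M a213 (F (T t5210 (L l340 (L l368 (T t10074 N)))))) (K a213 (M a208 (F (T t10075 (L l326 (L l470 (L l478 (T t1735 N))))))) N)))))))) (K a250 (M a245 (L l246 (L l282 (F (T t4994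 (L l235 (L l264 (L l300 (T t10077 (K a208 (Fr a213 a197 l275 (V t10079)) (K a213 (M a208 (L l282 (F (T t10075 (L l326 (L l470 (L l478 (T t1720 (K a202 (Fr a234 a224 l256 (V t10078)) (K a234 (M a202 (F (T t10078 (L l326 (L l470 (L l478 (T t1720 N))))))) N)))))))))) (K a202 (Fr a234 a224 l256 (V t1720)) (K a234 (M a202 (L l246 (F (T t4994 (L l254 (L l264 (L l284 (L l300 (T t10076 (K a208 (Fr a213 a197 l275 (V t9990)) (K a213 (M a208 (F (T t10078 (L l326 (L l470 (L l478 (T t1720 N))))))) N))))))))))) N))))))))))))) N)))))))))))) (K a250 (M a245 (L l303 (F (T t10069 (L l261 (L l262 (L l291 (L l368 (T t1315 (L l434 (L l442 (L l506 (T t9990 (K a229 (M a218 (F (T t10069 (L l261 (L l262 (L l291 (L l368 (T t1315 (L l434 (L l442 (L l506 (T t9990 N)))))))))))) (K a218 (M a229 (L l246 (L l282 (F (T t4994 (L l235 (L l264 (L l300 (T t10077 (K a208 (Fr a213 a197 l275 (V t10079)) (K a213 (M a208 (L l282 (F (T t10075 (L l326 (L l470 (L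 l478 (T t1720 (K a202 (Fr a234 a224 l256 (V t10078)) (K a234 (M a202 (F (T t10078 (L l326 (L l470 (L l478 (T t1720 N))))))) N)))))))))) (K a202 (Fr a234 a224 l256 (V t1720)) (K a234 (M a202 (L l246 (F (T t4994 (L l254 (L l264 (L l284 (L l300 (T t10076 (K a208 (Fr a213 a197 l275 (V t9990)) (K a213 (M a208 (F (T t10078 (L l326 (L l470 (L l478 (T t1720 N))))))) N))))))))))) N))))))))))))) N))))))))))))))) N)))))))))))))))))) (K a239 (M a223 (L l266 (L l303 (F (T t6676 (L l434 (L l442 (L l506 (T t9990 (L l326 (L l470 (L l478 (T t1732 (K a229 (M a218 (L l256 (L l266 (F (T t1722 (L l275 (L l404 (T t10073 (K a224 (M a234 (L l266 (F (T t10066 (L l275 (L l376 (L l404 (T t10073 (K a245 (Fr a250 a202 l282 (V t1315)) (K a250 (M a245 (F (T t10069 (L l376 (L l404 (T t10073 N)))))) N)))))))))) (K a245 (M a250 (L l256 (L l275 (F (T t6676 (L l235 (L l263 (L l299 (T t10071 (K a224 (Fr a234 a202 l282 (V t1315)) (K a197 (Fr a213 a208 l246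 (V t1315)) (K a213 (M a197 (L l256 (F (T t6676 (L l243 (L l263 (L l278 (L l299 (T t10070 (K a224 (Fr a234 a202 l282 (V t1317)) (K a234 (M a224 (F (T t10072 (L l326 (L l470 (L l478 (T t1720 N))))))) N))))))))))) (K a234 (M a224 (L l275 (F (T t10072 (L l284 (L l326 (L l470 (L l478 (T t1733 (K a197 (Fr a213 a208 l246 (V t10072)) (K a213 (M a197 (F (T t10072 (L l326 (L l470 (L l478 (T t1720 N))))))) N))))))))))) N))))))))))))) (K a234 (M a224 (L l266 (F (T t10072 (L l326 (L l470 (L l478 (T t1720 (K a245 (M a250 (L l275 (F (T t10072 (L l284 (L l326 (L l470 (L l478 (T t1733 (K a197 (Fr a213 a208 l246 (V t10072)) (K a213 (M a197 (F (T t10072 (L l326 (L l470 (L l478 (T t1720 N))))))) N))))))))))) (K a250 (M a245 (F (T t10072 (L l284 (L l326 (L l470 (L l478 (T t1733 N)))))))) N)))))))))) (K a250 (M a245 (L l256 (F (T t5210 (L l404 (T t10073 (K a224 (M a234 (F (T t10069 (L l376 (L l404 (T t10073 N)))))) (K a234 (M a224 (F (T t10072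 (L l284 (L l326 (L l470 (L l478 (T t1733 N)))))))) N)))))))) N)))))))))))) (K a245 (M a250 (L l303 (F (T t6676 (L l434 (L l442 (L l506 (T t9990 (L l326 (L l470 (L l478 (T t1732 (K a229 (M a218 (L l256 (L l275 (F (T t6676 (L l235 (L l263 (L l299 (T t10071 (K a224 (Fr a234 a202 l282 (V t1315)) (K a197 (Fr a213 a208 l246 (V t1315)) (K a213 (M a197 (L l256 (F (T t6676 (L l243 (L l263 (L l278 (L l299 (T t10070 (K a224 (Fr a234 a202 l282 (V t1317)) (K a234 (M a224 (F (T t10072 (L l326 (L l470 (L l478 (T t1720 N))))))) N))))))))))) (K a234 (M a224 (L l275 (F (T t10072 (L l284 (L l326 (L l470 (L l478 (T t1733 (K a197 (Fr a213 a208 l246 (V t10072)) (K a213 (M a197 (F (T t10072 (L l326 (L l470 (L l478 (T t1720 N))))))) N))))))))))) N))))))))))))) (K a218 (M a229 (F (T t6676 (L l434 (L l442 (L l506 (T t9990 (L l326 (L l470 (L l478 (T t1732 N))))))))))) N)))))))))))))) (K a218 (M a229 (L l266 (F (T t6676 (L l434 (L l442 (L l506 (T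 t9990 (L l326 (L l470 (L l478 (T t1732 (K a245 (M a250 (F (T t6676 (L l434 (L l442 (L l506 (T t9990 (L l326 (L l470 (L l478 (T t1732 N))))))))))) (K a250 (M a245 (L l282 (F (T t6676 (L l235 (L l264 (L l300 (T t10077 (K a202 (M a234 (F (T t6676 (L l230 (L l264 (L l300 (T t10076 N))))))) (K a234 (M a202 (F (T t6676 (L l235 (L l254 (L l264 (L l284 (L l300 (T t10077 N))))))))) N)))))))))) N)))))))))))))) (K a250 (M a245 (L l303 (F (T t6676 (L l434 (L l442 (L l506 (T t9990 (L l326 (L l470 (L l478 (T t1732 (K a229 (M a218 (L l256 (F (T t5210 (L l404 (T t10073 (K a224 (M a234 (F (T t10069 (L l376 (L l404 (T t10073 N)))))) (K a234 (M a224 (F (T t10072 (L l284 (L l326 (L l470 (L l478 (T t1733 N)))))))) N)))))))) (K a218 (M a229 (L l282 (F (T t6676 (L l235 (L l264 (L l300 (T t10077 (K a202 (M a234 (F (T t6676 (L l230 (L l264 (L l300 (T t10076 N))))))) (K a234 (M a202 (F (T t6676 (L l235 (L l254 (L l264 (L l284 (L l300 (T t10077 N)))))))))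 N)))))))))) N)))))))))))))) N))))))))))))))))) N)))))))))))))))))))) (K a223 (M a239 (F (T t1922 (L l368 (L l433 (T t10080 (L l368 (L l505 (T t10081 (K a128 (M a40 (F (T t10082 (L l295 (L l368 (T t5924 N)))))) (K a16 (M a204 (L l368 (F (T t5210 (L l364 (L l434 (L l506 (T t9990 (L l340 (L l364 (T t9989 (K a85 (M a154 (F (T t5210 (L l361 (L l367 (L l505 (L l511 (T t10059 N)))))))) (K a154 (M a85 (F (T t9988 (L l433 (L l439 (T t9991 N)))))) N))))))))))))) (K a32 (M a148 (F (T t5076 (L l434 (L l506 (T t9770 (L l376 (T t9775 N)))))))) (K a96 (M a36 (F (T t10083 (L l301 (L l368 (T t5896 N)))))) N))))))))))))) (K a239 (M a223 (F (T t55 (L l404 (L l433 (T t10084 (L l404 (L l505 (T t10085 (K a64 (M a20 (F (T t10086 (L l295 (L l404 (T t5900 N)))))) (K a16 (M a148 (F (T t9773 (L l434 (L l506 (T t9847 (T t9775 N))))))) (K a144 (M a20 (F (T t5739 (L l170 (L l295 (L l404 (T t5900 N))))))) (K a32 (M a204 (L l404 (F (T t1722 (L l434 (L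 l506 (T t9990 (T t9989 (K a101 (M a170 (F (T t10064 (L l433 (L l439 (T t10065 N)))))) (K a170 (M a101 (F (T t10066 (L l397 (L l403 (L l505 (L l511 (T t10067 N)))))))) N)))))))))) N))))))))))))) N)))))))))))))))))))))))))))⟩
def e0_192__255_66 : Ent 4 := ⟨[a0, a192], [a255, a213], (M a240 (F (T t5426 (L l440 (T t5418 (L l440 (T t5820 (L l440 (T t4219 (L l246 (L l440 (T t7828 (K a64 (M a84 (F (T t6890 (L l239 (L l290 (T t9745 (L l239 (T t9746 N)))))))) (K a128 (M a84 (F (L l261 (T t9601 (L l216 (L l239 (L l290 (T t9745 (L l192 (L l239 (T t9746 N))))))))))) (K a80 (M a84 (F (T t9747 (L l239 (L l290 (T t9745 (L l246 (L l340 (T t9748 N))))))))) (K a144 (M a84 (F (L l261 (T t9749 (L l470 (T t9094 (L l192 (L l246 (L l340 (T t9748 N)))))))))) (K a208 (M a84 (L l246 (F (T t6890 (L l434 (T t9750 (T t9751 (K a218 (M a223 (F (T t6890 (L l239 (L l242 (L l261 (T t9752 (T t9751 N)))))))) (K a223 (M a218 (L l289 (F (T t6890 (L l275 (L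 l469 (T t10087 (K a207 (M a239 (F (T t6890 (L l261 (L l291 (T t9749 (T t9751 N))))))) (K a239 (Fr a207 a229 l303 (V t9094)) N))))))))) N))))))))) (K a96 (M a84 (F (T t9747 (L l376 (T t6890 (L l246 (T t9748 N))))))) (K a160 (M a84 (F (L l192 (T t9747 (L l176 (L l239 (L l290 (T t9745 (L l192 (L l246 (T t9748 N))))))))))) (K a224 (M a84 (F (T t9747 (L l376 (L l470 (T t8887 (L l376 (T t9751 N)))))))) (K a48 (M a161 (L l440 (F (T t9829 (L l246 (T t9830 (K a117 (M a186 (F (T t9829 (L l246 (T t9830 N))))) (K a186 (M a117 (F (T t9829 (L l246 (T t9830 N))))) N)))))))) N)))))))))))))))))))))⟩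
def e0_192__255_67 : Ent 4 := ⟨[a0, a192], [a255, a214], (M a48 (F (T t55 (L l266 (T t27 (L l266 (T t19 (L l266 (T t837 (L l266 (T t28 (K a64 (M a148 (F (L l116 (T t9773 (L l140 (L l470 (T t9771 (L l116 (L l247 (T t9772 N)))))))))) (K a128 (M a148 (F (T t9773 (L l470 (T t9771 (L l247 (T t9772 N))))))) (K a16 (M a148 (F (T t9773 (L l239 (L l261 (L l297 (T t9774 (T t9775 N)))))))) (K a80 (M a84 (F (T t9747 (L l247 (T t3650 (L l247 (T t9776 N))))))) (K a144 (M a84 (F (T t9646 (L l434 (T t9750 (L l192 (L l247 (T t9776 N)))))))) (K a32 (M a148 (F (L l239 (T t5076 (L l290 (L l376 (T t9777 (L l376 (T t9775 N))))))))) (K a96 (M a84 (F (T t9747 (L l290 (T t3280 (L l247 (L l376 (T t9776 N)))))))) (K a160 (M a84 (F (L l192 (T t9747 (L l247 (L l376 (T t3650 (L l192 (L l247 (L l376 (T t9776 N))))))))))) (K a240 (M a98 (L l266 (F (T t9953 (T t9954 (K a245 (M a250 (F (T t9953 (T t9954 N)))) (K a250 (M a245 (F (T t9953 (T t9954 N)))) N)))))))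 N))))))))))))))))))))⟩
def e0_192__255_68 : Ent 4 := ⟨[a0, a192], [a255, a215], (M a195 (F (T t2654 (L l475 (T t2663 (L l475 (T t2668 (L l475 (T t2657 (L l475 (T t6251 (K a64 (M a81 (F (T t10088 (L l245 (L l266 (T t10089 (T t10090 N))))))) (K a128 (M a81 (F (L l265 (T t10091 (L l196 (L l245 (L l266 (T t10089 (L l152 (T t10090 N)))))))))) (K a65 (M a48 (F (T t55 (L l117 (L l439 (T t10092 (L l117 (L l245 (T t10093 N))))))))) (K a129 (M a48 (F (T t6254 (L l152 (L l265 (T t4663 (L l266 (T t19 N)))))))) (K a193 (M a48 (F (T t2113 (L l265 (L l305 (L l485 (T t5633 (L l305 (L l485 (T t10094 N)))))))))) (K a66 (M a48 (F (T t6250 (L l76 (L l265 (T t5633 (L l266 (T t19 N)))))))) (K a130 (M a48 (F (T t2113 (L l439 (T t10092 (L l152 (L l245 (T t10093 N)))))))) (K a194 (M a48 (F (T t2113 (L l265 (T t5633 (T t10094 N)))))) (K a3 (M a243 (L l475 (F (T t10095 (L l43 (L l439 (T t10096 (L l45 (L l440 (T t8031 (K a87 (M a171 (L l349 (F (T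 t10097 (L l45 (L l245 (L l440 (T t10098 (L l245 (L l266 (L l453 (T t10099 (K a23 (M a151 (L l67 (F (T t10100 (L l7 (L l17 (L l143 (L l469 (T t10101 (K a43 (Fr a63 a107 l517 (V t4416)) (K a63 (M a43 (L l433 (F (T t10097 (L l49 (L l245 (L l457 (T t10102 (K a127 (Fr a191 a131 l219 (V t10103)) (K a191 (M a127 (F (T t10104 (L l49 (L l245 (L l289 (L l457 (T t10105 N)))))))) N)))))))))) N))))))))))) (K a151 (M a23 (F (T t10097 (L l45 (L l245 (L l373 (L l440 (T t10098 (L l245 (L l266 (L l373 (L l453 (T t10099 N))))))))))))) N)))))))))))))) (K a171 (M a87 (F (T t10097 (L l45 (L l245 (L l440 (T t10098 (L l245 (L l266 (L l453 (T t10099 N))))))))))) N)))))))))))) N))))))))))))))))))))⟩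
def e0_192__255_69 : Ent 4 := ⟨[a0, a192], [a255, a218], (M a48 (F (T t55 (L l266 (L l303 (T t27 (L l266 (L l303 (T t19 (L l266 (L l303 (T t837 (L l246 (L l266 (L l303 (T t28 (K a64 (M a148 (F (L l434 (T t9770 (L l140 (L l470 (T t9771 (L l116 (T t9772 N))))))))) (K a128 (M a148 (F (T t9773 (L l470 (T t9771 (T t9772 N)))))) (K a16 (M a148 (F (T t9773 (L l261 (T t9774 (T t9775 N)))))) (K a80 (M a84 (F (T t9747 (T t3650 (T t9776 N))))) (K a144 (M a84 (F (T t3650 (L l434 (T t9750 (L l192 (T t9776 N))))))) (K a32 (M a148 (F (T t5076 (L l290 (L l376 (T t9777 (L l376 (T t9775 N)))))))) (K a96 (M a84 (F (T t9747 (L l290 (T t3280 (L l376 (T t9776 N))))))) (K a160 (M a84 (F (L l192 (T t9747 (L l376 (T t3650 (L l192 (L l376 (T t9776 N))))))))) (K a240 (M a207 (L l266 (F (T t6368 (L l433 (L l447 (T t10106 (T t10107 (K a245 (M a250 (F (T t10108 (L l354 (L l419 (L l433 (L l447 (T t10109 (L l354 (L l419 (T t10110 N))))))))))) (K a250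 (M a245 (L l282 (F (T t10111 (L l469 (L l483 (T t2117 (L l354 (T t10110 (K a202 (M a234 (F (L l354 (L l498 (T t10112 (T t10113 (L l354 (L l433 (L l447 (L l498 (T t10114 (L l318 (L l354 (L l498 (T t10110 (L l483 (T t10115 (L l433 (T t10116 N))))))))))))))))))) (K a234 (Fr a202 a197 l236 (V t10117)) N))))))))))) N)))))))))) N)))))))))))))))))))))))))⟩
def e0_192__255_70 : Ent 4 := ⟨[a0, a192], [a255, a219], (M a48 (F (T t55 (L l266 (T t27 (L l266 (T t19 (L l266 (T t837 (L l266 (T t28 (K a64 (M a148 (F (L l434 (T t9770 (L l140 (L l470 (T t9771 (L l116 (T t9772 N))))))))) (K a128 (M a148 (F (T t9773 (L l470 (T t9771 (T t9772 N)))))) (K a16 (M a148 (F (T t9773 (L l261 (T t9774 (T t9775 N)))))) (K a80 (M a84 (F (T t9747 (T t3650 (T t9776 N))))) (K a144 (M a84 (F (T t3650 (L l434 (T t9750 (L l192 (T t9776 N))))))) (K a32 (M a148 (F (T t5076 (L l290 (L l376 (T t9777 (L l376 (T t9775 N)))))))) (K a96 (M a84 (F (T t9747 (L l290 (T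 t3280 (L l376 (T t9776 N))))))) (K a160 (M a84 (F (L l192 (T t9747 (L l376 (T t3650 (L l192 (L l376 (T t9776 N))))))))) (K a240 (M a84 (L l266 (F (T t9747 (T t3650 (T t9776 (K a245 (M a250 (F (T t3650 (L l261 (L l262 (T t9749 (T t9778 N))))))) (K a250 (M a245 (F (T t3650 (L l261 (L l262 (T t9749 (T t9778 N))))))) N)))))))) N))))))))))))))))))))⟩
def e0_192__255_71 : Ent 4 := ⟨[a0, a192], [a255, a223], (M a207 (F (T t6368 (L l469 (T t6355 (L l469 (T t10118 (L l469 (T t6432 (L l469 (T t2117 (K a64 (M a204 (F (T t10119 (L l80 (L l84 (L l475 (T t8143 (T t10120 N)))))))) (K a128 (M a204 (F (T t10119 (L l475 (T t8143 (L l156 (L l160 (T t10120 N)))))))) (K a69 (M a48 (F (L l266 (T t27 (L l123 (L l311 (L l433 (T t10106 (L l84 (L l368 (L l433 (T t10121 N)))))))))))) (K a133 (M a48 (F (T t1922 (L l311 (L l433 (T t10106 (L l368 (L l433 (T t10121 N))))))))) (K a197 (M a12 (F (T t1725 (L l295 (L l311 (T t2144 (L l311 (T t10122 N))))))))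 (K a74 (M a48 (F (T t10123 (L l266 (T t27 (L l84 (L l318 (L l368 (L l433 (T t10121 N)))))))))) (K a138 (M a48 (F (T t10123 (L l160 (L l266 (T t27 (L l206 (L l318 (L l368 (L l433 (T t10121 N))))))))))) (K a202 (M a12 (F (T t1725 (L l295 (T t2144 (T t10122 N)))))) (K a15 (M a4 (L l469 (F (T t10124 (L l290 (L l327 (T t1407 (T t10125 (K a95 (M a175 (L l361 (F (T t10126 (L l295 (L l337 (T t4439 (T t10125 (K a31 (M a159 (L l61 (F (T t10126 (L l75 (L l137 (L l440 (T t10127 (K a47 (Fr a63 a111 l505 (V t10128)) (K a63 (M a47 (L l433 (F (T t10126 (L l295 (L l337 (L l517 (T t4439 (T t10129 (K a127 (Fr a191 a143 l213 (V t1407)) (K a191 (M a127 (F (T t10126 (L l295 (L l337 (L l517 (T t4439 (T t10129 N)))))))) N))))))))))) N)))))))))) (K a159 (M a31 (F (T t10126 (L l295 (L l337 (T t4439 (T t10125 N))))))) N)))))))))) (K a175 (M a95 (F (T t10126 (L l295 (L l337 (T t4439 (T t10125 N))))))) N)))))))))) N))))))))))))))))))))⟩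
def e0_192__255_72 : Ent 4 := ⟨[a0, a192], [a255, a234], (M a48 (F (T t55 (L l266 (T t27 (L l256 (L l266 (T t19 (L l266 (T t837 (L l266 (T t28 (K a64 (M a148 (F (L l434 (T t9770 (L l140 (L l470 (T t9771 (L l116 (T t9772 N))))))))) (K a128 (M a148 (F (T t9773 (L l470 (T t9771 (T t9772 N)))))) (K a16 (M a148 (F (T t9773 (L l261 (T t9774 (T t9775 N)))))) (K a80 (M a84 (F (T t9747 (T t3650 (T t9776 N))))) (K a144 (M a84 (F (T t3650 (L l250 (L l434 (T t9750 (L l192 (T t9776 N)))))))) (K a32 (M a148 (F (T t5076 (L l290 (L l376 (T t9777 (L l376 (T t9775 N)))))))) (K a96 (M a84 (F (T t9747 (L l290 (T t3280 (L l376 (T t9776 N))))))) (K a160 (M a84 (F (L l192 (T t9747 (L l376 (T t3650 (L l192 (L l376 (T t9776 N))))))))) (K a240 (M a207 (L l266 (F (T t10123 (L l469 (L l483 (T t6355 (T t10107 (K a245 (M a250 (F (T t10108 (L l419 (L l433 (L l447 (T t10109 (L l419 (T t10110 N))))))))) (K a250 (M a245 (L l282 (F (T t10111 (L l469 (L l483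 (T t2117 (T t10110 (K a202 (M a218 (F (L l426 (T t10107 (L l462 (L l483 (T t10130 (L l256 (L l318 (L l469 (L l483 (T t10131 N)))))))))))) (K a218 (Fr a202 a197 l236 (V t10117)) N)))))))))) N)))))))))) N)))))))))))))))))))))⟩
def e0_192__255_73 : Ent 4 := ⟨[a0, a192], [a255, a235], (M a195 (F (T t2654 (L l475 (T t2663 (L l475 (T t2668 (L l475 (T t2657 (L l475 (T t6251 (K a64 (M a81 (F (T t10088 (L l266 (T t10089 (T t10090 N)))))) (K a128 (M a81 (F (L l265 (T t10091 (L l196 (L l266 (T t10089 (L l152 (T t10090 N))))))))) (K a65 (M a48 (F (T t55 (L l117 (L l439 (T t10092 (L l117 (T t10093 N)))))))) (K a129 (M a48 (F (T t6254 (L l152 (L l265 (T t4663 (L l266 (T t19 N)))))))) (K a193 (M a48 (F (T t5627 (L l266 (T t19 (L l305 (L l485 (T t10094 N)))))))) (K a66 (M a48 (F (T t36 (L l265 (L l306 (T t4663 (L l439 (T t10092 N)))))))) (K a130 (M a48 (F (T t2113 (L l439 (T t10092 (L l152 (T t10093 N))))))) (K a194 (M a48 (F (T t5619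 (L l266 (T t19 (T t10094 N)))))) (K a3 (M a243 (L l475 (F (T t10132 (L l43 (L l439 (T t10096 (L l45 (L l440 (T t8031 (K a87 (M a171 (F (T t10097 (L l45 (L l440 (T t10098 (L l266 (L l453 (T t10099 N))))))))) (K a171 (M a87 (L l391 (F (T t10097 (L l45 (L l440 (T t10098 (L l266 (L l453 (T t10099 (K a43 (M a107 (L l67 (F (T t10133 (L l219 (L l434 (T t10134 (K a23 (Fr a63 a151 l517 (V t10135)) (K a63 (M a23 (L l433 (F (T t10104 (L l55 (L l255 (L l463 (T t10136 (K a127 (M a191 (F (T t10137 (L l55 (L l255 (L l463 (T t10136 N))))))) (K a191 (Fr a127 a67 l143 (V t10138)) N)))))))))) N))))))))) (K a107 (M a43 (F (T t10097 (L l45 (L l440 (T t10098 (L l266 (L l453 (T t10099 N))))))))) N)))))))))))) N)))))))))))) N))))))))))))))))))))⟩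
def e0_192__255_74 : Ent 4 := ⟨[a0, a192], [a255, a239], (M a207 (F (T t6368 (L l469 (T t6355 (L l469 (T t10118 (L l469 (T t6432 (L l469 (T t2117 (K a64 (M a204 (F (T t10119 (L l80 (L l84 (L l475 (T t8143 (T t10120 N)))))))) (K a128 (M a204 (F (T t10119 (L l475 (T t8143 (L l156 (L l160 (T t10120 N)))))))) (K a69 (M a48 (F (T t10139 (L l266 (T t27 (L l123 (L l311 (L l404 (L l433 (T t10140 N)))))))))) (K a133 (M a48 (F (T t10139 (L l160 (L l266 (T t27 (L l160 (L l311 (L l404 (L l433 (T t10140 N))))))))))) (K a197 (M a12 (F (T t1725 (L l295 (L l311 (T t2144 (L l311 (T t10122 N)))))))) (K a74 (M a48 (F (T t55 (L l397 (L l433 (T t10141 (L l404 (L l433 (T t10140 N))))))))) (K a138 (M a48 (F (L l266 (T t837 (L l206 (L l397 (L l433 (T t10141 (L l160 (L l404 (L l433 (T t10140 N)))))))))))) (K a202 (M a12 (F (T t1725 (L l295 (T t2144 (T t10122 N)))))) (K a15 (M a4 (L l469 (F (T t10124 (L l290 (L l327 (T t1407 (T t10125 (K a95 (M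 a175 (F (T t10126 (L l295 (L l337 (T t4439 (T t10125 N))))))) (K a175 (M a95 (L l397 (F (T t10126 (L l295 (L l337 (T t4439 (T t10125 (K a47 (M a111 (L l61 (F (T t10126 (L l75 (L l213 (L l440 (T t10142 (K a31 (Fr a63 a159 l505 (V t10143)) (K a63 (M a31 (L l433 (F (T t10126 (L l295 (L l337 (L l517 (T t4439 (T t10125 (K a127 (M a191 (F (T t10124 (L l290 (L l327 (L l507 (T t1407 (T t10129 N)))))))) (K a191 (Fr a127 a79 l137 (V t1407)) N))))))))))) N)))))))))) (K a111 (M a47 (F (T t10126 (L l295 (L l337 (T t4439 (T t10125 N))))))) N)))))))))) N)))))))))) N))))))))))))))))))))⟩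
def b0_192__255 : Blk 4 := ⟨[0, 192], [255], [1, 2, 3, 5, 6, 7, 10, 11, 15, 21, 22, 23, 26, 27, 31, 42, 43, 47, 63, 65, 66, 67, 69, 70, 71, 74, 75, 79, 85, 86, 87, 90, 91, 95, 106, 107, 111, 127, 129, 130, 131, 133, 134, 135, 138, 139, 143, 149, 150, 151, 154, 155, 159, 170, 171, 175, 191, 193, 194, 195, 197, 198, 199, 202, 203, 207, 213, 214, 215, 218, 219, 223, 234, 235, 239], [e0_192__255_0, e0_192__255_1, e0_192__255_2, e0_192__255_3, e0_192__255_4, e0_192__255_5, e0_192__255_6, e0_192__255_7, e0_192__255_8, e0_192__255_9, e0_192__255_10, e0_192__255_11, e0_192__255_12, e0_192__255_13, e0_192__255_14, e0_192__255_15, e0_192__255_16, e0_192__255_17, e0_192__255_18, e0_192__255_19, e0_192__255_20, e0_192__255_21, e0_192__255_22, e0_192__255_23, e0_192__255_24, e0_192__255_25, e0_192__255_26, e0_192__255_27, e0_192__255_28, e0_192__255_29, e0_192__255_30, e0_192__255_31, e0_192__255_32, e0_192__255_33, e0_192__255_34,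 e0_192__255_35, e0_192__255_36, e0_192__255_37, e0_192__255_38, e0_192__255_39, e0_192__255_40, e0_192__255_41, e0_192__255_42, e0_192__255_43, e0_192__255_44, e0_192__255_45, e0_192__255_46, e0_192__255_47, e0_192__255_48, e0_192__255_49, e0_192__255_50, e0_192__255_51, e0_192__255_52, e0_192__255_53, e0_192__255_54, e0_192__255_55, e0_192__255_56, e0_192__255_57, e0_192__255_58, e0_192__255_59, e0_192__255_60, e0_192__255_61, e0_192__255_62, e0_192__255_63, e0_192__255_64, e0_192__255_65, e0_192__255_66, e0_192__255_67, e0_192__255_68, e0_192__255_69, e0_192__255_70, e0_192__255_71, e0_192__255_72, e0_192__255_73, e0_192__255_74], by decide +kernel, by decide +kernel⟩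
def e0_63_48__64_0 : Ent 4 := ⟨[a0, a63, a48], [a64, a21], (M a101 (F (T t312 (L l116 (T t313 (L l18 (T t314 N)))))))⟩
def e0_63_48__64_1 : Ent 4 := ⟨[a0, a63, a48], [a64, a42], (M a101 (F (T t333 (T t334 (L l54 (T t314 N))))))⟩
def b0_63_48__64 : Blk 4 := ⟨[0, 63, 48], [64], [21, 42], [e0_63_48__64_0, e0_63_48__64_1], by decide +kernel, by decide +kernel⟩
def e0_63_48__64_21_0 : Ent 4 := ⟨[a0, a63, a48], [a64, a21, a1], (M a101 (L l65 (F (T t312 (L l116 (T t313 (L l18 (T t314 (K a41 (M a61 (F (T t312 (L l41 (T t262 N))))) (K a61 (M a41 (F (T t315 (T t2181 (L l18 (T t314 N)))))) N))))))))))⟩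
def e0_63_48__64_21_1 : Ent 4 := ⟨[a0, a63, a48], [a64, a21, a2], (M a101 (F (T t687 (L l18 (L l330 (T t334 (L l18 (T t314 N))))))))⟩
def e0_63_48__64_21_2 : Ent 4 := ⟨[a0, a63, a48], [a64, a21, a3], (M a101 (F (T t8349 (L l18 (L l331 (T t334 (L l18 (T t314 N))))))))⟩
def e0_63_48__64_21_3 : Ent 4 := ⟨[a0, a63, a48], [a64, a21, a5], (M a101 (L l47 (F (T t312 (L l116 (T t1306 (L l18 (L l311 (T t314 (K a37 (Fr a53 a58 l38 (V t8392)) (K a53 (M a37 (F (L l18 (T t8393 (L l419 (T t2181 (L l116 (T t1664 N)))))))) N)))))))))))⟩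
def e0_63_48__64_21_4 : Ent 4 := ⟨[a0, a63, a48], [a64, a21, a6], (M a101 (F (T t312 (L l116 (T t313 (L l18 (T t314 N)))))))⟩
def e0_63_48__64_21_5 : Ent 4 := ⟨[a0, a63, a48], [a64, a21, a7], (M a101 (F (T t312 (L l116 (T t313 (L l18 (T t314 N)))))))⟩
def e0_63_48__64_21_6 : Ent 4 := ⟨[a0, a63, a48], [a64, a21, a10], (M a101 (F (L l54 (T t687 (L l84 (T t2198 (L l18 (L l54 (T t314 N)))))))))⟩
def e0_63_48__64_21_7 : Ent 4 := ⟨[a0, a63, a48], [a64, a21, a11], (M a101 (F (T t312 (L l116 (T t313 (L l18 (T t314 N)))))))⟩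
def e0_63_48__64_21_8 : Ent 4 := ⟨[a0, a63, a48], [a64, a21, a15], (M a101 (F (T t8349 (L l18 (L l325 (T t334 (L l18 (T t314 N))))))))⟩
def e0_63_48__64_21_9 : Ent 4 := ⟨[a0, a63, a48], [a64, a21, a16], (M a117 (L l18 (F (T t6623 (L l47 (L l84 (L l347 (T t8394 (L l47 (L l144 (T t8395 (L l84 (T t8396 (K a58 (M a119 (L l18 (F (L l120 (L l426 (T t8397 (T t8398 (K a26 (M a31 (L l54 (F (L l144 (L l426 (T t8399 (L l364 (T t8400 (K a10 (M a42 (F (L l144 (L l426 (T t8399 (L l364 (T t8400 N))))))) (K a42 (M a10 (F (T t8401 (L l426 (T t8402 N))))) N)))))))))) (K a31 (M a26 (F (L l120 (L l426 (T t8403 (T t8398 N)))))) N))))))))) (K a186 (M a252 (L l18 (F (L l426 (T t8404 (L l184 (L l438 (T t8405 (L l426 (T t8406 (K a26 (M a31 (F (T t8407 (L l54 (L l184 (L l426 (T t8408 N))))))) (K a31 (M a26 (F (L l47 (T t251 (L l144 (L l184 (T t8409 N))))))) N)))))))))))) (K a255 (M a61 (L l18 (F (L l266 (T t8410 (L l295 (T t8411 (K a26 (M a31 (F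 (L l54 (L l266 (T t8410 (L l15 (L l16 (L l57 (T t8412 N))))))))) (K a31 (M a26 (F (L l469 (T t7976 (L l266 (T t8410 N)))))) N))))))))) (K a26 (M a31 (F (L l54 (T t1531 (L l368 (T t8413 (L l54 (L l340 (T t8414 (L l54 (L l84 (L l116 (T t8415 N))))))))))))) (K a31 (M a26 (F (L l47 (T t251 (L l116 (T t8416 (L l47 (L l84 (T t8417 (K a53 (Fr a255 a186 l440 (Fr a15 a37 l75 (Fr a5 a10 l8 (V t8491)))) N)))))))))) N))))))))))))))))))⟩
def e0_63_48__64_21_10 : Ent 4 := ⟨[a0, a63, a48], [a64, a21, a17], (M a101 (L l15 (F (T t312 (L l116 (T t313 (L l10 (L l18 (T t314 (K a25 (M a29 (F (T t312 (L l12 (L l341 (T t8418 N)))))) (K a29 (M a25 (F (T t315 (T t2181 (L l10 (L l18 (T t314 N))))))) N)))))))))))⟩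
def e0_63_48__64_21_11 : Ent 4 := ⟨[a0, a63, a48], [a64, a21, a18], (M a101 (F (T t312 (L l116 (T t313 (L l10 (L l18 (T t314 N))))))))⟩
def e0_63_48__64_21_12 : Ent 4 := ⟨[a0, a63, a48], [a64, a21, a19], (M a101 (F (T t687 (L l10 (L l18 (T t334 (L l10 (L l18 (T t314 N)))))))))⟩
def e0_63_48__64_21_13 : Ent 4 := ⟨[a0, a63, a48], [a64, a21, a22], (M a101 (L l11 (F (T t312 (L l116 (T t313 (L l18 (T t314 (K a20 (M a23 (F (T t2181 (L l346 (T t8419 N))))) (K a23 (M a20 (F (T t687 (L l18 (L l51 (L l69 (T t1201 N))))))) N))))))))))⟩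
def e0_63_48__64_21_14 : Ent 4 := ⟨[a0, a63, a48], [a64, a21, a23], (M a101 (L l11 (F (T t312 (L l116 (T t313 (L l18 (T t314 (K a20 (M a22 (F (T t315 (T t2181 (L l14 (L l18 (T t314 N))))))) (K a22 (M a20 (F (T t687 (L l18 (L l51 (L l69 (T t1201 N))))))) N))))))))))⟩
def e0_63_48__64_21_15 : Ent 4 := ⟨[a0, a63, a48], [a64, a21, a26], (M a60 (L l18 (F (T t248 (L l47 (L l65 (L l72 (T t64 (L l11 (L l47 (L l65 (L l72 (T t249 (L l50 (L l54 (T t8420 (K a16 (M a31 (F (L l14 (T t6381 (L l50 (L l54 (L l57 (T t451 (L l14 (L l57 (T t8421 N))))))))))) (K a31 (Fr a16 a32 l40 (V t253)) N))))))))))))))))))⟩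
def e0_63_48__64_21_16 : Ent 4 := ⟨[a0, a63, a48], [a64, a21, a27], (M a101 (F (T t312 (L l116 (T t313 (L l18 (T t314 N)))))))⟩
def e0_63_48__64_21_17 : Ent 4 := ⟨[a0, a63, a48], [a64, a21, a31], (M a60 (L l18 (F (T t70 (L l13 (T t248 (L l11 (L l47 (L l65 (T t249 (L l13 (L l50 (T t250 (K a16 (M a26 (F (L l47 (T t251 (L l65 (T t8422 (L l50 (T t451 N)))))))) (K a26 (Fr a16 a32 l40 (V t253)) N)))))))))))))))⟩
def e0_63_48__64_21_18 : Ent 4 := ⟨[a0, a63, a48], [a64, a21, a32], (M a117 (F (T t6623 (L l47 (L l84 (L l347 (L l404 (T t8394 (L l47 (L l144 (T t8395 (L l84 (L l404 (T t8396 (K a58 (M a207 (F (T t8423 (L l28 (L l426 (T t8424 N)))))) (K a186 (M a207 (F (L l206 (T t8423 (L l28 (L l116 (L l190 (L l426 (T t8425 N))))))))) (K a255 (M a52 (F (T t491 (L l65 (L l144 (L l265 (T t8426 (L l265 (L l266 (T t8427 N)))))))))) N)))))))))))))))))⟩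
def e0_63_48__64_21_19 : Ent 4 := ⟨[a0, a63, a48], [a64, a21, a33], (M a101 (F (T t687 (L l18 (T t334 (L l18 (T t314 N)))))))⟩
def e0_63_48__64_21_20 : Ent 4 := ⟨[a0, a63, a48], [a64, a21, a34], (M a101 (F (T t687 (L l18 (T t334 (L l18 (T t314 N)))))))⟩
def e0_63_48__64_21_21 : Ent 4 := ⟨[a0, a63, a48], [a64, a21, a35], (M a101 (F (T t687 (L l18 (L l403 (T t334 (L l18 (L l403 (T t314 N)))))))))⟩
def e0_63_48__64_21_22 : Ent 4 := ⟨[a0, a63, a48], [a64, a21, a37], (M a101 (L l47 (F (T t687 (L l18 (T t334 (L l18 (T t314 (K a5 (Fr a53 a58 l38 (V t8392)) (K a53 (M a5 (F (L l419 (T t2181 (L l116 (T t8428 (L l18 (L l419 (T t8429 (L l116 (L l419 (T t8430 (L l18 (L l144 (L l347 (L l419 (T t8431 N))))))))))))))))) N))))))))))⟩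
def e0_63_48__64_21_23 : Ent 4 := ⟨[a0, a63, a48], [a64, a21, a38], (M a101 (L l50 (F (T t312 (L l116 (T t313 (L l18 (T t314 (K a4 (M a55 (F (T t312 (L l46 (T t1743 N))))) (K a55 (M a4 (F (T t687 (L l18 (L l29 (T t518 N)))))) N))))))))))⟩
def e0_63_48__64_21_24 : Ent 4 := ⟨[a0, a63, a48], [a64, a21, a39], (M a101 (F (T t312 (L l116 (T t313 (L l18 (T t314 N)))))))⟩
def e0_63_48__64_21_25 : Ent 4 := ⟨[a0, a63, a48], [a64, a21, a42], (M a101 (F (T t2181 (L l54 (L l116 (T t313 (L l18 (L l54 (T t314 N)))))))))⟩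
def e0_63_48__64_21_26 : Ent 4 := ⟨[a0, a63, a48], [a64, a21, a43], (M a101 (F (T t312 (L l116 (T t313 (L l18 (T t314 N)))))))⟩
def e0_63_48__64_21_27 : Ent 4 := ⟨[a0, a63, a48], [a64, a21, a47], (M a101 (F (T t687 (L l18 (L l397 (T t334 (L l18 (L l397 (T t314 N)))))))))⟩
def e0_63_48__64_21_28 : Ent 4 := ⟨[a0, a63, a48], [a64, a21, a49], (M a101 (F (T t687 (L l18 (T t334 (L l18 (T t314 N)))))))⟩
def e0_63_48__64_21_29 : Ent 4 := ⟨[a0, a63, a48], [a64, a21, a50], (M a101 (F (T t312 (L l36 (L l116 (T t313 (L l18 (L l36 (T t314 N)))))))))⟩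
def e0_63_48__64_21_30 : Ent 4 := ⟨[a0, a63, a48], [a64, a21, a51], (M a101 (F (T t8349 (L l18 (L l511 (T t334 (L l18 (T t314 N))))))))⟩
def e0_63_48__64_21_31 : Ent 4 := ⟨[a0, a63, a48], [a64, a21, a53], (M a100 (L l47 (F (T t4655 (L l18 (T t8432 (L l80 (T t8433 (L l18 (T t8434 (K a16 (M a12 (L l18 (L l47 (F (T t8435 (L l80 (L l364 (T t8436 (L l14 (T t8437 (K a5 (M a37 (L l18 (F (L l14 (T t8438 (L l80 (L l364 (T t8436 (K a26 (M a31 (F (T t8435 (L l35 (L l65 (L l72 (T t3446 N))))))) (K a31 (Fr a26 a15 l75 (V t8439)) N)))))))))) (K a37 (M a5 (L l18 (F (L l14 (T t8440 (L l51 (L l65 (T t8441 (K a26 (M a31 (F (T t8442 (L l12 (L l14 (L l116 (T t8443 N))))))) (K a31 (M a26 (F (L l21 (T t8435 (L l51 (L l65 (T t1428 N))))))) N)))))))))) (K a26 (M a31 (L l47 (F (T t8435 (L l35 (L l65 (L l72 (T t3446 (K a5 (M a37 (F (T t8435 (L l35 (L l65 (L l72 (T t3446 N))))))) (K a37 (M a5 (F (T t8442 (L l12 (L l14 (L l116 (T t8443 N))))))) N))))))))))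 (K a31 (M a26 (L l47 (F (L l14 (T t6989 (L l80 (L l364 (T t8436 (K a5 (Fr a37 a15 l75 (V t8439)) (K a37 (M a5 (F (L l21 (T t8435 (L l51 (L l65 (T t1428 N))))))) N)))))))))) N)))))))))))))) (K a32 (M a12 (L l47 (F (T t8444 (T t8437 (K a5 (M a37 (F (T t8438 (L l80 (T t8436 N))))) (K a37 (M a5 (L l28 (F (T t8445 (L l51 (L l65 (T t8441 (K a42 (M a47 (F (T t8446 (L l116 (T t8443 N))))) (K a47 (M a42 (F (L l50 (T t8447 (T t8440 N))))) N))))))))) N))))))) (K a84 (Fr a32 a16 l40 (Fr a236 a168 l400 (Fr a204 a152 l508 (Fr a220 a252 l286 (V t8492))))) (K a152 (M a12 (L l47 (F (T t443 (L l18 (L l50 (L l80 (L l364 (T t8449 (L l18 (L l352 (L l364 (T t8450 (L l80 (L l352 (T t8451 (K a5 (M a37 (F (L l18 (T t8452 (L l80 (L l352 (T t8451 N))))))) (K a37 (M a5 (F (L l51 (T t8453 (L l18 (L l352 (L l364 (T t8450 N)))))))) N)))))))))))))))))) (K a168 (M a96 (L l47 (F (L l18 (T t7700 (L l140 (L l204 (L l388 (T t8454 (K a5 (M a37 (F (L l18 (T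 t8393 (L l216 (T t8455 N)))))) (K a37 (M a5 (F (L l18 (T t7679 (L l140 (L l204 (L l388 (T t8454 N)))))))) N))))))))))) (K a204 (M a12 (L l47 (F (L l502 (T t443 (L l18 (L l50 (L l80 (L l286 (T t8449 (L l18 (L l140 (L l286 (T t8456 (L l80 (L l298 (T t8451 (K a5 (M a37 (F (L l18 (T t8393 (L l80 (L l298 (T t8451 N))))))) (K a37 (M a5 (F (L l51 (T t8457 (L l18 (L l140 (L l286 (T t8456 N)))))))) N))))))))))))))))))) (K a236 (Fr a16 a32 l40 (Fr a152 a204 l508 (Fr a84 a220 l364 (Fr a252 a168 l472 (V t8493))))) (K a5 (M a37 (F (L l18 (T t8393 (T t4655 (L l18 (T t8459 (K a16 (Fr a204 a152 l508 (Fr a15 a26 l75 (Fr a31 a47 l61 (V t8494)))) N)))))))) (K a37 (M a5 (F (T t4655 (T t8461 (L l18 (T t8462 (K a152 (M a240 (F (L l419 (T t8463 (L l18 (L l80 (L l222 (L l364 (T t8464 N))))))))) (K a204 (M a192 (F (L l11 (L l502 (T t8465 (L l298 (L l347 (L l491 (T t4476 N))))))))) N)))))))) N)))))))))))))))))))⟩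
def e0_63_48__64_21_32 : Ent 4 := ⟨[a0, a63, a48], [a64, a21, a54], (M a101 (F (T t312 (L l36 (L l116 (T t313 (L l18 (L l36 (T t314 N)))))))))⟩
def e0_63_48__64_21_33 : Ent 4 := ⟨[a0, a63, a48], [a64, a21, a55], (M a101 (L l50 (F (T t312 (L l116 (T t313 (L l18 (T t314 (K a4 (M a38 (F (T t315 (T t2181 (L l18 (T t314 N)))))) (K a38 (M a4 (F (T t687 (L l18 (L l29 (T t518 N)))))) N))))))))))⟩
def e0_63_48__64_21_34 : Ent 4 := ⟨[a0, a63, a48], [a64, a21, a58], (M a100 (F (T t4655 (L l18 (L l54 (T t8432 (L l80 (T t8433 (L l18 (T t8434 (K a16 (M a12 (L l18 (F (T t8435 (L l80 (L l364 (T t8436 (L l14 (T t8437 (K a26 (M a31 (L l54 (F (T t8435 (L l65 (L l72 (T t3446 (K a10 (M a42 (F (L l15 (T t8466 (L l116 (L l364 (T t8467 N))))))) (K a42 (M a10 (F (T t8401 (L l12 (L l14 (L l116 (T t8443 N))))))) N))))))))) (K a31 (M a26 (F (T t8435 (L l47 (L l65 (T t8468 N)))))) N))))))))))) (K a32 (M a12 (F (T t8444 (T t8437 N)))) (K a84 (Fr a32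 a16 l40 (Fr a236 a168 l400 (Fr a204 a152 l508 (Fr a220 a252 l286 (V t8492))))) (K a152 (M a20 (F (T t3701 (L l18 (L l80 (L l364 (T t8469 (L l32 (L l204 (L l496 (T t8470 N))))))))))) (K a168 (M a12 (F (T t443 (L l80 (L l204 (T t8436 N)))))) (K a204 (M a96 (F (L l18 (T t7679 (L l347 (T t8471 (L l18 (L l502 (T t8472 N))))))))) (K a236 (Fr a16 a32 l40 (Fr a152 a204 l508 (Fr a84 a220 l364 (Fr a252 a168 l472 (V t8493))))) N)))))))))))))))))⟩
def e0_63_48__64_21_35 : Ent 4 := ⟨[a0, a63, a48], [a64, a21, a59], (M a101 (F (T t312 (L l32 (L l116 (T t313 (L l18 (L l32 (T t314 N)))))))))⟩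
def e0_63_48__64_21_36 : Ent 4 := ⟨[a0, a63, a48], [a64, a21, a65], (M a101 (L l76 (F (T t312 (L l116 (T t313 (L l18 (T t314 (K a66 (M a67 (F (T t312 (L l309 (T t315 (L l18 (T t314 N))))))) (K a67 (M a66 (F (T t312 (T t315 (L l18 (T t314 N)))))) N))))))))))⟩
def e0_63_48__64_21_37 : Ent 4 := ⟨[a0, a63, a48], [a64, a21, a66], (M a101 (L l76 (F (T t687 (L l18 (T t334 (L l18 (T t314 (K a65 (M a67 (F (T t312 (L l309 (T t315 (L l18 (T t314 N))))))) (K a67 (M a65 (F (T t687 (L l306 (T t688 N))))) N))))))))))⟩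
def e0_63_48__64_21_38 : Ent 4 := ⟨[a0, a63, a48], [a64, a21, a67], (M a101 (L l76 (F (T t312 (L l116 (T t313 (L l18 (T t314 (K a65 (M a66 (F (T t312 (T t315 (L l18 (T t314 N)))))) (K a66 (M a65 (F (T t687 (L l306 (T t688 N))))) N))))))))))⟩
def e0_63_48__64_21_39 : Ent 4 := ⟨[a0, a63, a48], [a64, a21, a69], (M a101 (L l84 (F (L l47 (T t333 (L l18 (T t334 (L l18 (L l311 (T t314 (K a74 (M a79 (F (L l116 (T t8473 (L l18 (L l311 (T t314 (L l130 (L l144 (L l311 (T t3188 N))))))))))) (K a79 (M a74 (F (L l311 (T t315 (L l18 (L l325 (T t334 (L l18 (L l311 (T t314 N)))))))))) N))))))))))))⟩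
def e0_63_48__64_21_40 : Ent 4 := ⟨[a0, a63, a48], [a64, a21, a70], (M a101 (F (T t312 (L l116 (T t313 (L l18 (T t314 N)))))))⟩
def e0_63_48__64_21_41 : Ent 4 := ⟨[a0, a63, a48], [a64, a21, a71], (M a101 (F (T t315 (L l18 (L l331 (T t334 (L l18 (T t314 N))))))))⟩
def e0_63_48__64_21_42 : Ent 4 := ⟨[a0, a63, a48], [a64, a21, a74], (M a101 (L l84 (F (T t312 (L l116 (L l339 (T t313 (L l18 (T t314 (K a69 (M a79 (F (L l116 (T t8473 (L l18 (L l311 (T t314 (L l130 (L l144 (L l311 (T t3188 N))))))))))) (K a79 (M a69 (F (T t432 (L l18 (T t433 N))))) N)))))))))))⟩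
def e0_63_48__64_21_43 : Ent 4 := ⟨[a0, a63, a48], [a64, a21, a75], (M a101 (F (T t312 (L l116 (T t313 (L l18 (T t314 N)))))))⟩
def e0_63_48__64_21_44 : Ent 4 := ⟨[a0, a63, a48], [a64, a21, a79], (M a101 (L l84 (F (T t2181 (L l116 (T t313 (L l18 (T t314 (K a69 (M a74 (F (L l311 (T t315 (L l18 (L l325 (T t334 (L l18 (L l311 (T t314 N)))))))))) (K a74 (M a69 (F (T t432 (L l18 (T t433 N))))) N))))))))))⟩
def e0_63_48__64_21_45 : Ent 4 := ⟨[a0, a63, a48], [a64, a21, a80], (M a101 (L l116 (F (T t687 (L l84 (T t2198 (L l18 (L l340 (T t314 (K a96 (M a112 (F (L l84 (T t8474 (L l18 (L l340 (T t314 N))))))) (K a112 (M a96 (F (T t8475 (L l114 (T t2181 N))))) N)))))))))))⟩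
def e0_63_48__64_21_46 : Ent 4 := ⟨[a0, a63, a48], [a64, a21, a81], (M a101 (L l120 (F (T t312 (L l116 (T t313 (L l18 (L l344 (T t314 (K a98 (M a115 (F (T t312 (L l489 (T t315 (L l18 (L l344 (T t314 N)))))))) (K a115 (M a98 (F (T t312 (T t315 (L l18 (L l344 (T t314 N))))))) N)))))))))))⟩
def e0_63_48__64_21_47 : Ent 4 := ⟨[a0, a63, a48], [a64, a21, a82], (M a101 (F (T t312 (L l116 (T t313 (L l18 (T t314 N)))))))⟩
def e0_63_48__64_21_48 : Ent 4 := ⟨[a0, a63, a48], [a64, a21, a83], (M a101 (F (T t312 (L l116 (T t313 (L l18 (T t314 N)))))))⟩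
def e0_63_48__64_21_49 : Ent 4 := ⟨[a0, a63, a48], [a64, a21, a85], (M a60 (L l144 (L l347 (F (T t70 (T t248 (L l11 (L l18 (L l47 (L l65 (L l350 (L l368 (T t288 (L l50 (L l458 (T t5102 (K a149 (M a213 (L l144 (F (T t248 (T t70 (L l11 (L l18 (L l47 (L l65 (L l350 (L l368 (L l491 (L l515 (T t288 (L l50 (L l458 (T t1300 (K a106 (M a127 (F (T t248 (L l116 (L l220 (T t1171 N)))))) (K a127 (M a106 (F (T t248 (L l47 (L l65 (L l491 (L l515 (T t8363 N)))))))) N))))))))))))))))))) (K a213 (M a149 (L l144 (F (T t248 (L l47 (L l296 (T t11 (K a106 (M a127 (F (T t248 (L l116 (T t1171 N))))) (K a127 (Fr a106 a192 l519 (V t8364)) N))))))))) (K a106 (M a127 (L l347 (F (T t248 (L l140 (T t2970 (K a149 (M a213 (F (T t248 (L l116 (L l220 (T t1171 N)))))) (K a213 (M a149 (F (T t248 (L l116 (T t1171 N))))) N)))))))) (K a127 (M a106 (L l347 (F (T t248 (L l47 (L l123 (L l137 (T t585 (K a149 (M a213 (F (T t248 (L l47 (L l65 (L l491 (L l515 (T t8363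 N)))))))) (K a213 (Fr a149 a192 l519 (V t8364)) N)))))))))) N))))))))))))))))))))⟩
def e0_63_48__64_21_50 : Ent 4 := ⟨[a0, a63, a48], [a64, a21, a86], (M a101 (F (T t687 (L l18 (T t334 (L l18 (T t314 N)))))))⟩
def e0_63_48__64_21_51 : Ent 4 := ⟨[a0, a63, a48], [a64, a21, a87], (M a101 (F (T t687 (L l18 (T t334 (L l18 (T t314 N)))))))⟩
def e0_63_48__64_21_52 : Ent 4 := ⟨[a0, a63, a48], [a64, a21, a90], (M a101 (F (T t687 (L l18 (T t334 (L l18 (T t314 N)))))))⟩
def e0_63_48__64_21_53 : Ent 4 := ⟨[a0, a63, a48], [a64, a21, a91], (M a101 (F (T t312 (L l116 (T t313 (L l18 (T t314 N)))))))⟩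
def e0_63_48__64_21_54 : Ent 4 := ⟨[a0, a63, a48], [a64, a21, a95], (M a101 (F (T t315 (L l18 (T t334 (L l18 (T t314 N)))))))⟩
def e0_63_48__64_21_55 : Ent 4 := ⟨[a0, a63, a48], [a64, a21, a96], (M a255 (L l116 (F (T t1160 (L l376 (T t512 (L l18 (L l144 (L l347 (T t513 (K a80 (M a112 (F (T t8476 (L l18 (L l84 (L l94 (L l144 (L l340 (L l347 (T t8477 (L l47 (T t8478 N)))))))))))) (K a112 (M a80 (F (L l376 (T t8479 (L l84 (T t1162 (L l47 (L l114 (T t1169 N))))))))) N))))))))))))⟩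
def e0_63_48__64_21_56 : Ent 4 := ⟨[a0, a63, a48], [a64, a21, a97], (M a101 (F (T t687 (L l18 (T t334 (L l18 (T t314 N)))))))⟩
def e0_63_48__64_21_57 : Ent 4 := ⟨[a0, a63, a48], [a64, a21, a98], (M a101 (L l120 (F (T t687 (L l18 (T t334 (L l18 (T t314 (K a81 (M a115 (F (T t312 (L l489 (T t315 (L l18 (L l344 (T t314 N)))))))) (K a115 (M a81 (F (T t687 (L l415 (T t8480 N))))) N))))))))))⟩
def e0_63_48__64_21_58 : Ent 4 := ⟨[a0, a63, a48], [a64, a21, a99], (M a101 (F (T t687 (L l18 (T t334 (L l18 (T t314 N)))))))⟩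
def e0_63_48__64_21_59 : Ent 4 := ⟨[a0, a63, a48], [a64, a21, a101], (M a60 (F (L l509 (T t70 (L l404 (T t248 (L l11 (L l18 (L l47 (L l65 (L l491 (T t8481 (L l50 (L l404 (L l509 (T t8482 N))))))))))))))))⟩
def e0_63_48__64_21_60 : Ent 4 := ⟨[a0, a63, a48], [a64, a21, a102], (M a101 (F (T t687 (L l18 (T t334 (L l18 (T t314 N)))))))⟩
def e0_63_48__64_21_61 : Ent 4 := ⟨[a0, a63, a48], [a64, a21, a103], (M a101 (F (T t2181 (L l116 (T t313 (L l18 (L l403 (T t314 N))))))))⟩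
def e0_63_48__64_21_62 : Ent 4 := ⟨[a0, a63, a48], [a64, a21, a106], (M a60 (L l144 (F (T t248 (L l47 (L l65 (T t64 (L l11 (L l18 (L l47 (L l65 (T t288 (L l50 (L l498 (L l516 (T t250 (K a85 (M a127 (L l347 (F (T t248 (L l140 (T t2970 (K a149 (M a213 (F (T t248 (L l116 (L l220 (T t1171 N)))))) (K a213 (M a149 (F (T t248 (L l116 (T t1171 N))))) N)))))))) (K a127 (M a85 (F (T t936 (L l47 (L l65 (T t64 N)))))) N))))))))))))))))))⟩
def e0_63_48__64_21_63 : Ent 4 := ⟨[a0, a63, a48], [a64, a21, a107], (M a101 (F (T t687 (L l18 (T t334 (L l18 (T t314 N)))))))⟩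
def e0_63_48__64_21_64 : Ent 4 := ⟨[a0, a63, a48], [a64, a21, a111], (M a101 (F (T t687 (L l18 (L l397 (T t334 (L l18 (L l397 (T t314 N)))))))))⟩
def e0_63_48__64_21_65 : Ent 4 := ⟨[a0, a63, a48], [a64, a21, a112], (M a101 (L l116 (F (T t687 (L l18 (T t334 (L l18 (T t314 (K a80 (M a96 (F (T t8475 (L l114 (T t2181 N))))) (K a96 (M a80 (F (L l376 (T t8483 (L l18 (T t334 (L l18 (T t314 (L l114 (L l376 (T t8484 (L l144 (L l347 (T t8485 N)))))))))))))) N))))))))))⟩
def e0_63_48__64_21_66 : Ent 4 := ⟨[a0, a63, a48], [a64, a21, a113], (M a101 (F (T t312 (L l116 (T t313 (L l18 (T t314 N)))))))⟩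
def e0_63_48__64_21_67 : Ent 4 := ⟨[a0, a63, a48], [a64, a21, a114], (M a101 (F (T t312 (L l116 (T t313 (L l18 (T t314 N)))))))⟩
def e0_63_48__64_21_68 : Ent 4 := ⟨[a0, a63, a48], [a64, a21, a115], (M a101 (L l120 (F (T t312 (L l116 (T t313 (L l18 (T t314 (K a81 (M a98 (F (T t312 (T t315 (L l18 (L l344 (T t314 N))))))) (K a98 (M a81 (F (T t687 (L l415 (T t8480 N))))) N))))))))))⟩
def e0_63_48__64_21_69 : Ent 4 := ⟨[a0, a63, a48], [a64, a21, a117], (M a60 (F (T t248 (L l47 (L l65 (L l419 (T t64 (L l11 (L l18 (L l47 (L l65 (L l419 (T t288 (L l50 (L l437 (T t250 N))))))))))))))))⟩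
def e0_63_48__64_21_70 : Ent 4 := ⟨[a0, a63, a48], [a64, a21, a118], (M a101 (F (T t312 (L l116 (T t313 (L l18 (T t314 N)))))))⟩
def e0_63_48__64_21_71 : Ent 4 := ⟨[a0, a63, a48], [a64, a21, a119], (M a101 (F (T t312 (L l116 (T t313 (L l18 (T t314 N)))))))⟩
def e0_63_48__64_21_72 : Ent 4 := ⟨[a0, a63, a48], [a64, a21, a122], (M a101 (F (T t312 (L l47 (T t333 (L l18 (L l426 (T t314 N))))))))⟩
def e0_63_48__64_21_73 : Ent 4 := ⟨[a0, a63, a48], [a64, a21, a123], (M a101 (F (T t312 (L l116 (T t313 (L l18 (T t314 N)))))))⟩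
def e0_63_48__64_21_74 : Ent 4 := ⟨[a0, a63, a48], [a64, a21, a127], (M a60 (L l144 (F (T t70 (T t248 (L l11 (L l18 (L l47 (L l65 (T t288 (L l50 (T t250 (K a85 (M a106 (L l347 (F (T t248 (L l47 (L l123 (L l137 (T t585 (K a149 (M a213 (F (T t248 (L l47 (L l65 (L l491 (L l515 (T t8363 N)))))))) (K a213 (Fr a149 a192 l519 (V t8364)) N)))))))))) (K a106 (M a85 (F (T t936 (L l47 (L l65 (T t64 N)))))) N))))))))))))))⟩
def e0_63_48__64_21_75 : Ent 4 := ⟨[a0, a63, a48], [a64, a21, a128], (M a60 (F (T t70 (T t248 (L l11 (L l18 (L l47 (L l65 (T t288 (L l50 (T t250 N)))))))))))⟩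
def e0_63_48__64_21_76 : Ent 4 := ⟨[a0, a63, a48], [a64, a21, a129], (M a101 (F (T t312 (L l116 (L l309 (T t313 (L l18 (L l152 (T t314 N)))))))))⟩
def e0_63_48__64_21_77 : Ent 4 := ⟨[a0, a63, a48], [a64, a21, a130], (M a101 (F (T t687 (L l18 (L l158 (T t334 (L l18 (L l152 (T t314 N)))))))))⟩
def e0_63_48__64_21_78 : Ent 4 := ⟨[a0, a63, a48], [a64, a21, a131], (M a101 (F (T t312 (L l116 (T t313 (L l18 (L l152 (T t314 N))))))))⟩
def e0_63_48__64_21_79 : Ent 4 := ⟨[a0, a63, a48], [a64, a21, a133], (M a101 (F (T t312 (L l47 (T t333 (L l18 (L l160 (L l311 (T t314 N)))))))))⟩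
def e0_63_48__64_21_80 : Ent 4 := ⟨[a0, a63, a48], [a64, a21, a134], (M a101 (F (T t312 (L l116 (T t313 (L l18 (T t314 N)))))))⟩
def e0_63_48__64_21_81 : Ent 4 := ⟨[a0, a63, a48], [a64, a21, a135], (M a101 (F (T t312 (L l116 (T t313 (L l18 (T t314 N)))))))⟩
def e0_63_48__64_21_82 : Ent 4 := ⟨[a0, a63, a48], [a64, a21, a138], (M a101 (F (T t687 (L l84 (T t2198 (L l18 (L l160 (T t314 N))))))))⟩
def e0_63_48__64_21_83 : Ent 4 := ⟨[a0, a63, a48], [a64, a21, a139], (M a101 (F (L l116 (T t313 (L l18 (L l154 (L l331 (T t334 (L l18 (T t314 N))))))))))⟩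
def e0_63_48__64_21_84 : Ent 4 := ⟨[a0, a63, a48], [a64, a21, a143], (M a101 (F (L l116 (T t313 (L l18 (L l160 (L l325 (T t334 (L l18 (L l160 (T t314 N)))))))))))⟩
def e0_63_48__64_21_85 : Ent 4 := ⟨[a0, a63, a48], [a64, a21, a144], (M a101 (F (L l170 (T t315 (L l18 (L l340 (T t334 (L l18 (L l192 (L l340 (T t314 N)))))))))))⟩
def e0_63_48__64_21_86 : Ent 4 := ⟨[a0, a63, a48], [a64, a21, a145], (M a101 (F (T t312 (L l116 (L l489 (T t313 (L l18 (L l196 (T t314 N)))))))))⟩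
def e0_63_48__64_21_87 : Ent 4 := ⟨[a0, a63, a48], [a64, a21, a146], (M a101 (F (T t312 (L l116 (T t313 (L l18 (L l344 (T t314 N))))))))⟩
def e0_63_48__64_21_88 : Ent 4 := ⟨[a0, a63, a48], [a64, a21, a147], (M a101 (F (T t312 (L l116 (T t313 (L l18 (T t314 N)))))))⟩
def e0_63_48__64_21_89 : Ent 4 := ⟨[a0, a63, a48], [a64, a21, a149], (M a60 (L l347 (F (T t70 (T t248 (L l11 (L l18 (L l47 (L l65 (L l491 (L l515 (T t288 (L l50 (T t1300 (K a85 (M a213 (L l144 (F (T t248 (T t70 (L l11 (L l18 (L l47 (L l65 (L l350 (L l368 (L l491 (L l515 (T t288 (L l50 (L l458 (T t1300 (K a106 (M a127 (F (T t248 (L l116 (L l220 (T t1171 N)))))) (K a127 (M a106 (F (T t248 (L l47 (L l65 (L l491 (L l515 (T t8363 N)))))))) N))))))))))))))))))) (K a213 (M a85 (F (T t248 (L l220 (T t114 N))))) N))))))))))))))))⟩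
def e0_63_48__64_21_90 : Ent 4 := ⟨[a0, a63, a48], [a64, a21, a150], (M a101 (F (T t687 (L l18 (T t334 (L l18 (T t314 N)))))))⟩
def e0_63_48__64_21_91 : Ent 4 := ⟨[a0, a63, a48], [a64, a21, a151], (M a101 (F (T t312 (L l116 (T t313 (L l18 (T t314 N)))))))⟩
def e0_63_48__64_21_92 : Ent 4 := ⟨[a0, a63, a48], [a64, a21, a154], (M a60 (F (T t248 (L l47 (L l65 (L l510 (T t64 (L l11 (L l18 (L l47 (L l65 (L l368 (L l510 (T t8486 (L l50 (L l498 (T t8487 N)))))))))))))))))⟩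
def e0_63_48__64_21_93 : Ent 4 := ⟨[a0, a63, a48], [a64, a21, a155], (M a101 (F (L l116 (T t313 (L l18 (L l511 (T t334 (L l18 (T t314 N)))))))))⟩
def e0_63_48__64_21_94 : Ent 4 := ⟨[a0, a63, a48], [a64, a21, a159], (M a101 (F (L l47 (T t333 (L l18 (T t334 (L l18 (T t314 N))))))))⟩
def e0_63_48__64_21_95 : Ent 4 := ⟨[a0, a63, a48], [a64, a21, a160], (M a101 (F (T t687 (L l18 (T t334 (L l18 (L l192 (T t314 N))))))))⟩
def e0_63_48__64_21_96 : Ent 4 := ⟨[a0, a63, a48], [a64, a21, a161], (M a101 (F (T t312 (L l116 (T t313 (L l18 (T t314 N)))))))⟩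
def e0_63_48__64_21_97 : Ent 4 := ⟨[a0, a63, a48], [a64, a21, a162], (M a101 (F (T t687 (L l18 (T t334 (L l18 (L l196 (T t314 N))))))))⟩
def e0_63_48__64_21_98 : Ent 4 := ⟨[a0, a63, a48], [a64, a21, a163], (M a101 (F (T t312 (L l116 (T t313 (L l18 (T t314 N)))))))⟩
def e0_63_48__64_21_99 : Ent 4 := ⟨[a0, a63, a48], [a64, a21, a165], (M a101 (F (T t687 (L l18 (T t334 (L l18 (T t314 N)))))))⟩
def e0_63_48__64_21_100 : Ent 4 := ⟨[a0, a63, a48], [a64, a21, a166], (M a101 (F (T t687 (L l18 (T t334 (L l18 (T t314 N)))))))⟩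
def e0_63_48__64_21_101 : Ent 4 := ⟨[a0, a63, a48], [a64, a21, a167], (M a101 (F (T t312 (L l116 (T t313 (L l18 (T t314 N)))))))⟩
def e0_63_48__64_21_102 : Ent 4 := ⟨[a0, a63, a48], [a64, a21, a170], (M a60 (F (T t70 (L l392 (L l404 (T t248 (L l11 (L l18 (L l47 (L l65 (L l464 (T t8385 (L l50 (L l392 (L l404 (T t250 N))))))))))))))))⟩
def e0_63_48__64_21_103 : Ent 4 := ⟨[a0, a63, a48], [a64, a21, a171], (M a101 (F (T t687 (L l18 (L l403 (T t334 (L l18 (L l403 (T t314 N)))))))))⟩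
def e0_63_48__64_21_104 : Ent 4 := ⟨[a0, a63, a48], [a64, a21, a175], (M a101 (F (T t315 (L l84 (T t2198 (L l18 (L l397 (T t314 N))))))))⟩
def e0_63_48__64_21_105 : Ent 4 := ⟨[a0, a63, a48], [a64, a21, a176], (M a101 (F (T t312 (L l116 (T t313 (L l18 (L l192 (T t314 N))))))))⟩
def e0_63_48__64_21_106 : Ent 4 := ⟨[a0, a63, a48], [a64, a21, a177], (M a101 (F (T t312 (L l116 (T t313 (L l18 (T t314 N)))))))⟩
def e0_63_48__64_21_107 : Ent 4 := ⟨[a0, a63, a48], [a64, a21, a178], (M a101 (F (T t312 (L l116 (T t313 (L l18 (T t314 N)))))))⟩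
def e0_63_48__64_21_108 : Ent 4 := ⟨[a0, a63, a48], [a64, a21, a179], (M a101 (F (T t312 (L l116 (T t313 (L l18 (L l196 (T t314 N))))))))⟩
def e0_63_48__64_21_109 : Ent 4 := ⟨[a0, a63, a48], [a64, a21, a181], (M a101 (F (T t687 (L l18 (T t334 (L l18 (T t314 N)))))))⟩
def e0_63_48__64_21_110 : Ent 4 := ⟨[a0, a63, a48], [a64, a21, a182], (M a101 (F (T t312 (L l116 (T t313 (L l18 (T t314 N)))))))⟩
def e0_63_48__64_21_111 : Ent 4 := ⟨[a0, a63, a48], [a64, a21, a183], (M a101 (F (T t312 (L l116 (T t313 (L l18 (T t314 N)))))))⟩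
def e0_63_48__64_21_112 : Ent 4 := ⟨[a0, a63, a48], [a64, a21, a186], (M a101 (F (L l47 (T t333 (L l18 (T t2197 (L l18 (L l426 (T t314 N)))))))))⟩
def e0_63_48__64_21_113 : Ent 4 := ⟨[a0, a63, a48], [a64, a21, a187], (M a101 (F (T t687 (L l18 (T t334 (L l18 (T t314 N)))))))⟩
def e0_63_48__64_21_114 : Ent 4 := ⟨[a0, a63, a48], [a64, a21, a191], (M a60 (F (T t70 (T t248 (L l11 (L l18 (L l47 (L l65 (T t288 (L l50 (T t250 N)))))))))))⟩
def e0_63_48__64_21_115 : Ent 4 := ⟨[a0, a63, a48], [a64, a21, a192], (M a255 (F (T t1259 (L l268 (T t1160 (L l18 (L l144 (L l236 (L l347 (T t513 N))))))))))⟩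
def e0_63_48__64_21_116 : Ent 4 := ⟨[a0, a63, a48], [a64, a21, a193], (M a101 (F (T t312 (L l116 (L l228 (L l233 (T t313 (L l18 (L l233 (T t314 N))))))))))⟩
def e0_63_48__64_21_117 : Ent 4 := ⟨[a0, a63, a48], [a64, a21, a194], (M a101 (F (T t687 (L l18 (T t334 (L l18 (T t314 N)))))))⟩
def e0_63_48__64_21_118 : Ent 4 := ⟨[a0, a63, a48], [a64, a21, a195], (M a101 (F (T t8349 (L l18 (L l235 (T t334 (L l18 (T t314 N))))))))⟩
def e0_63_48__64_21_119 : Ent 4 := ⟨[a0, a63, a48], [a64, a21, a197], (M a60 (F (T t70 (T t248 (L l11 (L l18 (L l47 (L l65 (L l491 (T t288 (L l50 (T t250 N))))))))))))⟩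
def e0_63_48__64_21_120 : Ent 4 := ⟨[a0, a63, a48], [a64, a21, a198], (M a101 (F (T t312 (L l116 (L l229 (T t313 (L l18 (L l229 (T t314 N)))))))))⟩
def e0_63_48__64_21_121 : Ent 4 := ⟨[a0, a63, a48], [a64, a21, a199], (M a101 (F (T t2181 (L l116 (L l229 (T t313 (L l18 (L l229 (T t314 N)))))))))⟩
def e0_63_48__64_21_122 : Ent 4 := ⟨[a0, a63, a48], [a64, a21, a202], (M a255 (F (T t1259 (L l47 (L l282 (T t1169 (L l18 (L l144 (L l236 (L l347 (L l498 (T t513 N))))))))))))⟩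
def e0_63_48__64_21_123 : Ent 4 := ⟨[a0, a63, a48], [a64, a21, a203], (M a101 (F (L l116 (T t313 (L l18 (L l235 (L l320 (T t334 (L l18 (T t314 N))))))))))⟩
def e0_63_48__64_21_124 : Ent 4 := ⟨[a0, a63, a48], [a64, a21, a207], (M a60 (F (T t1543 (L l47 (L l65 (L l511 (T t64 (L l11 (L l18 (L l47 (L l65 (L l326 (T t288 (L l50 (L l326 (T t250 N))))))))))))))))⟩
def e0_63_48__64_21_125 : Ent 4 := ⟨[a0, a63, a48], [a64, a21, a208], (M a101 (F (T t687 (L l84 (L l246 (T t2198 (L l18 (L l340 (T t314 N)))))))))⟩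
def e0_63_48__64_21_126 : Ent 4 := ⟨[a0, a63, a48], [a64, a21, a209], (M a101 (F (T t312 (L l116 (L l272 (T t313 (L l18 (T t314 N))))))))⟩
def e0_63_48__64_21_127 : Ent 4 := ⟨[a0, a63, a48], [a64, a21, a210], (M a101 (F (T t312 (L l116 (T t313 (L l18 (T t314 N)))))))⟩
def e0_63_48__64_21_128 : Ent 4 := ⟨[a0, a63, a48], [a64, a21, a211], (M a101 (F (T t687 (L l18 (L l344 (T t334 (L l18 (L l344 (T t314 N)))))))))⟩
def e0_63_48__64_21_129 : Ent 4 := ⟨[a0, a63, a48], [a64, a21, a213], (M a101 (L l347 (F (L l47 (T t333 (L l18 (T t334 (L l18 (L l275 (T t314 (K a85 (M a149 (L l144 (F (T t8488 (L l368 (T t2924 (K a106 (M a127 (F (T t8488 (L l18 (L l368 (T t8489 N)))))) (K a127 (Fr a106 a192 l519 (V t8488)) N)))))))) (K a149 (M a85 (F (T t1660 (L l84 (T t8490 N))))) N))))))))))))⟩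
def e0_63_48__64_21_130 : Ent 4 := ⟨[a0, a63, a48], [a64, a21, a214], (M a101 (F (T t312 (L l116 (T t313 (L l18 (T t314 N)))))))⟩
def e0_63_48__64_21_131 : Ent 4 := ⟨[a0, a63, a48], [a64, a21, a215], (M a101 (F (T t687 (L l18 (T t334 (L l18 (T t314 N)))))))⟩
def e0_63_48__64_21_132 : Ent 4 := ⟨[a0, a63, a48], [a64, a21, a218], (M a101 (F (L l116 (T t313 (L l18 (L l303 (T t334 (L l18 (T t314 N)))))))))⟩
def e0_63_48__64_21_133 : Ent 4 := ⟨[a0, a63, a48], [a64, a21, a219], (M a101 (F (L l116 (T t313 (L l18 (L l301 (T t334 (L l18 (T t314 N)))))))))⟩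
def e0_63_48__64_21_134 : Ent 4 := ⟨[a0, a63, a48], [a64, a21, a223], (M a60 (F (T t70 (L l362 (T t248 (L l11 (L l18 (L l47 (L l65 (L l368 (T t288 (L l50 (L l362 (T t5102 N))))))))))))))⟩
def e0_63_48__64_21_135 : Ent 4 := ⟨[a0, a63, a48], [a64, a21, a224], (M a101 (F (T t687 (L l18 (L l256 (T t334 (L l18 (L l256 (T t314 N)))))))))⟩
def e0_63_48__64_21_136 : Ent 4 := ⟨[a0, a63, a48], [a64, a21, a225], (M a101 (F (T t312 (L l116 (T t313 (L l18 (T t314 N)))))))⟩
def e0_63_48__64_21_137 : Ent 4 := ⟨[a0, a63, a48], [a64, a21, a226], (M a101 (F (T t687 (L l18 (T t334 (L l18 (T t314 N)))))))⟩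
def e0_63_48__64_21_138 : Ent 4 := ⟨[a0, a63, a48], [a64, a21, a227], (M a101 (F (T t687 (L l18 (L l255 (T t334 (L l18 (L l255 (T t314 N)))))))))⟩
def e0_63_48__64_21_139 : Ent 4 := ⟨[a0, a63, a48], [a64, a21, a229], (M a101 (F (T t2181 (L l116 (L l275 (T t313 (L l18 (L l256 (L l275 (T t314 N))))))))))⟩
def e0_63_48__64_21_140 : Ent 4 := ⟨[a0, a63, a48], [a64, a21, a230], (M a101 (F (T t312 (L l116 (T t313 (L l18 (T t314 N)))))))⟩
def e0_63_48__64_21_141 : Ent 4 := ⟨[a0, a63, a48], [a64, a21, a231], (M a101 (F (T t315 (L l18 (L l255 (L l301 (T t334 (L l18 (L l255 (T t314 N))))))))))⟩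
def e0_63_48__64_21_142 : Ent 4 := ⟨[a0, a63, a48], [a64, a21, a234], (M a101 (F (T t687 (L l18 (L l256 (T t334 (L l18 (L l256 (T t314 N)))))))))⟩
def e0_63_48__64_21_143 : Ent 4 := ⟨[a0, a63, a48], [a64, a21, a235], (M a101 (F (T t687 (L l18 (L l255 (T t334 (L l18 (L l255 (T t314 N)))))))))⟩
def e0_63_48__64_21_144 : Ent 4 := ⟨[a0, a63, a48], [a64, a21, a239], (M a60 (F (T t70 (L l404 (T t248 (L l11 (L l18 (L l47 (L l65 (L l398 (T t8385 (L l50 (L l404 (T t250 N))))))))))))))⟩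
def e0_63_48__64_21_145 : Ent 4 := ⟨[a0, a63, a48], [a64, a21, a240], (M a101 (F (T t8349 (L l18 (L l303 (T t334 (L l18 (T t314 N))))))))⟩
def e0_63_48__64_21_146 : Ent 4 := ⟨[a0, a63, a48], [a64, a21, a241], (M a101 (F (T t312 (L l116 (T t313 (L l18 (T t314 N)))))))⟩
def e0_63_48__64_21_147 : Ent 4 := ⟨[a0, a63, a48], [a64, a21, a242], (M a101 (F (T t312 (L l116 (T t313 (L l18 (T t314 N)))))))⟩
def e0_63_48__64_21_148 : Ent 4 := ⟨[a0, a63, a48], [a64, a21, a243], (M a101 (F (T t8349 (L l18 (L l301 (T t334 (L l18 (T t314 N))))))))⟩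
def e0_63_48__64_21_149 : Ent 4 := ⟨[a0, a63, a48], [a64, a21, a245], (M a101 (F (T t312 (L l116 (L l275 (T t313 (L l18 (L l275 (T t314 N)))))))))⟩
def e0_63_48__64_21_150 : Ent 4 := ⟨[a0, a63, a48], [a64, a21, a246], (M a101 (F (T t312 (L l116 (T t313 (L l18 (T t314 N)))))))⟩
def e0_63_48__64_21_151 : Ent 4 := ⟨[a0, a63, a48], [a64, a21, a247], (M a101 (F (T t312 (L l116 (T t313 (L l18 (T t314 N)))))))⟩
def e0_63_48__64_21_152 : Ent 4 := ⟨[a0, a63, a48], [a64, a21, a250], (M a101 (F (L l426 (T t687 (L l18 (L l266 (T t2197 (L l18 (L l426 (T t314 N))))))))))⟩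
def e0_63_48__64_21_153 : Ent 4 := ⟨[a0, a63, a48], [a64, a21, a251], (M a101 (F (T t687 (L l18 (T t334 (L l18 (T t314 N)))))))⟩
def e0_63_48__64_21_154 : Ent 4 := ⟨[a0, a63, a48], [a64, a21, a255], (M a60 (F (T t1543 (L l47 (L l65 (L l439 (T t64 (L l11 (L l18 (L l47 (L l65 (L l470 (T t288 (L l50 (L l470 (T t250 N))))))))))))))))⟩
def b0_63_48__64_21 : Blk 4 := ⟨[0, 63, 48], [64, 21], [1, 2, 3, 5, 6, 7, 10, 11, 15, 16, 17, 18, 19, 22, 23, 26, 27, 31, 32, 33, 34, 35, 37, 38, 39, 42, 43, 47, 49, 50, 51, 53, 54, 55, 58, 59, 65, 66, 67, 69, 70, 71, 74, 75, 79, 80, 81, 82, 83, 85, 86, 87, 90, 91, 95, 96, 97, 98, 99, 101, 102, 103, 106, 107, 111, 112, 113, 114, 115, 117, 118, 119, 122, 123, 127, 128, 129, 130, 131, 133, 134, 135, 138, 139, 143, 144, 145, 146, 147, 149, 150, 151, 154, 155, 159, 160, 161, 162, 163, 165, 166, 167, 170, 171, 175, 176, 177, 178, 179, 181, 182, 183, 186, 187, 191, 192, 193, 194, 195, 197, 198, 199,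 202, 203, 207, 208, 209, 210, 211, 213, 214, 215, 218, 219, 223, 224, 225, 226, 227, 229, 230, 231, 234, 235, 239, 240, 241, 242, 243, 245, 246, 247, 250, 251, 255], [e0_63_48__64_21_0, e0_63_48__64_21_1, e0_63_48__64_21_2, e0_63_48__64_21_3, e0_63_48__64_21_4, e0_63_48__64_21_5, e0_63_48__64_21_6, e0_63_48__64_21_7, e0_63_48__64_21_8, e0_63_48__64_21_9, e0_63_48__64_21_10, e0_63_48__64_21_11, e0_63_48__64_21_12, e0_63_48__64_21_13, e0_63_48__64_21_14, e0_63_48__64_21_15, e0_63_48__64_21_16, e0_63_48__64_21_17, e0_63_48__64_21_18, e0_63_48__64_21_19, e0_63_48__64_21_20, e0_63_48__64_21_21, e0_63_48__64_21_22, e0_63_48__64_21_23, e0_63_48__64_21_24, e0_63_48__64_21_25, e0_63_48__64_21_26, e0_63_48__64_21_27, e0_63_48__64_21_28, e0_63_48__64_21_29, e0_63_48__64_21_30, e0_63_48__64_21_31, e0_63_48__64_21_32, e0_63_48__64_21_33, e0_63_48__64_21_34, e0_63_48__64_21_35, e0_63_48__64_21_36, e0_63_48__64_21_37, e0_63_48__64_21_38,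 e0_63_48__64_21_39, e0_63_48__64_21_40, e0_63_48__64_21_41, e0_63_48__64_21_42, e0_63_48__64_21_43, e0_63_48__64_21_44, e0_63_48__64_21_45, e0_63_48__64_21_46, e0_63_48__64_21_47, e0_63_48__64_21_48, e0_63_48__64_21_49, e0_63_48__64_21_50, e0_63_48__64_21_51, e0_63_48__64_21_52, e0_63_48__64_21_53, e0_63_48__64_21_54, e0_63_48__64_21_55, e0_63_48__64_21_56, e0_63_48__64_21_57, e0_63_48__64_21_58, e0_63_48__64_21_59, e0_63_48__64_21_60, e0_63_48__64_21_61, e0_63_48__64_21_62, e0_63_48__64_21_63, e0_63_48__64_21_64, e0_63_48__64_21_65, e0_63_48__64_21_66, e0_63_48__64_21_67, e0_63_48__64_21_68, e0_63_48__64_21_69, e0_63_48__64_21_70, e0_63_48__64_21_71, e0_63_48__64_21_72, e0_63_48__64_21_73, e0_63_48__64_21_74, e0_63_48__64_21_75, e0_63_48__64_21_76, e0_63_48__64_21_77, e0_63_48__64_21_78, e0_63_48__64_21_79, e0_63_48__64_21_80, e0_63_48__64_21_81, e0_63_48__64_21_82, e0_63_48__64_21_83, e0_63_48__64_21_84, e0_63_48__64_21_85,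 e0_63_48__64_21_86, e0_63_48__64_21_87, e0_63_48__64_21_88, e0_63_48__64_21_89, e0_63_48__64_21_90, e0_63_48__64_21_91, e0_63_48__64_21_92, e0_63_48__64_21_93, e0_63_48__64_21_94, e0_63_48__64_21_95, e0_63_48__64_21_96, e0_63_48__64_21_97, e0_63_48__64_21_98, e0_63_48__64_21_99, e0_63_48__64_21_100, e0_63_48__64_21_101, e0_63_48__64_21_102, e0_63_48__64_21_103, e0_63_48__64_21_104, e0_63_48__64_21_105, e0_63_48__64_21_106, e0_63_48__64_21_107, e0_63_48__64_21_108, e0_63_48__64_21_109, e0_63_48__64_21_110, e0_63_48__64_21_111, e0_63_48__64_21_112, e0_63_48__64_21_113, e0_63_48__64_21_114, e0_63_48__64_21_115, e0_63_48__64_21_116, e0_63_48__64_21_117, e0_63_48__64_21_118, e0_63_48__64_21_119, e0_63_48__64_21_120, e0_63_48__64_21_121, e0_63_48__64_21_122, e0_63_48__64_21_123, e0_63_48__64_21_124, e0_63_48__64_21_125, e0_63_48__64_21_126, e0_63_48__64_21_127, e0_63_48__64_21_128, e0_63_48__64_21_129, e0_63_48__64_21_130, e0_63_48__64_21_131,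 e0_63_48__64_21_132, e0_63_48__64_21_133, e0_63_48__64_21_134, e0_63_48__64_21_135, e0_63_48__64_21_136, e0_63_48__64_21_137, e0_63_48__64_21_138, e0_63_48__64_21_139, e0_63_48__64_21_140, e0_63_48__64_21_141, e0_63_48__64_21_142, e0_63_48__64_21_143, e0_63_48__64_21_144, e0_63_48__64_21_145, e0_63_48__64_21_146, e0_63_48__64_21_147, e0_63_48__64_21_148, e0_63_48__64_21_149, e0_63_48__64_21_150, e0_63_48__64_21_151, e0_63_48__64_21_152, e0_63_48__64_21_153, e0_63_48__64_21_154], by decide +kernel, by decide +kernel⟩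

end Pool.Agent.Lib_TTT.K4
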