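import Pool.Agent.Lib_TTT.K4Base
import Pool.Agent.Lib_TTT.K4T00
import Pool.Agent.Lib_TTT.K4T01
import Pool.Agent.Lib_TTT.K4T02
import Pool.Agent.Lib_TTT.K4T03
import Pool.Agent.Lib_TTT.K4T04
import Pool.Agent.Lib_TTT.K4T05
import Pool.Agent.Lib_TTT.K4T06
import Pool.Agent.Lib_TTT.K4T07
import Pool.Agent.Lib_TTT.K4T08
import Pool.Agent.Lib_TTT.K4T09

/-! Certificates in `4^4`. -/

set_option autoImplicit false
set_option maxRecDepth 200000

namespace Pool.Agent.Lib_TTT.K4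

open Lib_TTT AC DC

def e0_63_48__64_42_0 : Ent 4 := ⟨[a0, a63, a48], [a64, a42, a1], (M a101 (F (T t333 (T t334 (L l54 (T t314 N))))))⟩
def e0_63_48__64_42_1 : Ent 4 := ⟨[a0, a63, a48], [a64, a42, a2], (M a101 (L l66 (F (T t333 (L l330 (T t334 (L l54 (T t314 (K a22 (M a62 (F (T t335 (L l42 (T t825 N))))) (K a62 (M a22 (F (T t336 (L l330 (T t2181 (L l36 (L l54 (T t314 N)))))))) N))))))))))⟩
def e0_63_48__64_42_2 : Ent 4 := ⟨[a0, a63, a48], [a64, a42, a3], (M a101 (F (T t4850 (L l54 (L l116 (L l309 (T t313 (L l54 (T t314 N)))))))))⟩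
def e0_63_48__64_42_3 : Ent 4 := ⟨[a0, a63, a48], [a64, a42, a5], (M a101 (F (T t335 (L l47 (T t333 (L l54 (L l311 (T t314 N))))))))⟩
def e0_63_48__64_42_4 : Ent 4 := ⟨[a0, a63, a48], [a64, a42, a6], (M a101 (F (T t333 (T t334 (L l54 (T t314 N))))))⟩
def e0_63_48__64_42_5 : Ent 4 := ⟨[a0, a63, a48], [a64, a42, a7], (M a101 (F (T t333 (T t334 (L l54 (T t314 N))))))⟩
def e0_63_48__64_42_6 : Ent 4 := ⟨[a0, a63, a48], [a64, a42, a10], (M a85 (L l54 (F (T t364 (L l390 (L l462 (T t50 (L l28 (L l318 (T t361 (L l28 (L l318 (T t362 (K a26 (Fr a58 a53 l38 (V t873)) (K a58 (M a26 (F (L l28 (T t4144 (L l498 (T t365 (L l28 (L l84 (L l390 (L l426 (L l462 (T t8495 (K a32 (Fr a255 a170 l476 (Fr a15 a37 l75 (Fr a47 a31 l61 (V t8568)))) N))))))))))))) N)))))))))))))))⟩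
def e0_63_48__64_42_7 : Ent 4 := ⟨[a0, a63, a48], [a64, a42, a11], (M a101 (F (T t333 (T t334 (L l54 (T t314 N))))))⟩
def e0_63_48__64_42_8 : Ent 4 := ⟨[a0, a63, a48], [a64, a42, a15], (M a101 (F (T t3013 (L l54 (L l116 (L l339 (T t313 (L l54 (T t314 N)))))))))⟩
def e0_63_48__64_42_9 : Ent 4 := ⟨[a0, a63, a48], [a64, a42, a16], (M a117 (F (T t1537 (L l84 (L l390 (T t8394 (L l84 (L l390 (T t8396 (K a58 (M a60 (L l54 (F (T t8497 (L l144 (L l426 (T t8498 (L l32 (L l144 (T t8499 (K a10 (M a26 (F (T t8497 (L l28 (T t8500 N))))) (K a26 (M a10 (L l18 (F (T t8497 (L l72 (T t2562 (K a21 (M a31 (F (T t8401 (L l32 (L l57 (T t8501 N)))))) (K a31 (M a21 (F (L l17 (L l22 (T t8502 (T t8503 N)))))) N)))))))) N)))))))))))) (K a186 (M a101 (F (L l206 (L l368 (T t8504 (T t336 (L l54 (L l84 (L l190 (L l426 (T t8505 N))))))))))) (K a255 (M a52 (F (L l54 (L l439 (T t83 (L l144 (L l265 (T t8426 (L l54 (L l265 (L l266 (T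 t8427 N)))))))))))) N))))))))))))⟩
def e0_63_48__64_42_10 : Ent 4 := ⟨[a0, a63, a48], [a64, a42, a17], (M a101 (F (T t333 (L l10 (T t334 (L l10 (L l54 (T t314 N))))))))⟩
def e0_63_48__64_42_11 : Ent 4 := ⟨[a0, a63, a48], [a64, a42, a18], (M a101 (F (T t333 (L l10 (T t334 (L l10 (L l54 (T t314 N))))))))⟩
def e0_63_48__64_42_12 : Ent 4 := ⟨[a0, a63, a48], [a64, a42, a19], (M a101 (F (T t333 (L l10 (T t334 (L l10 (L l54 (T t314 N))))))))⟩
def e0_63_48__64_42_13 : Ent 4 := ⟨[a0, a63, a48], [a64, a42, a21], (M a101 (F (T t2181 (L l54 (L l116 (T t313 (L l18 (L l54 (T t314 N)))))))))⟩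
def e0_63_48__64_42_14 : Ent 4 := ⟨[a0, a63, a48], [a64, a42, a22], (M a101 (L l66 (F (T t333 (T t334 (L l54 (T t314 (K a2 (M a62 (F (T t335 (L l42 (T t825 N))))) (K a62 (M a2 (F (T t336 (L l19 (L l28 (T t342 N)))))) N)))))))))⟩
def e0_63_48__64_42_15 : Ent 4 := ⟨[a0, a63, a48], [a64, a42, a23], (M a101 (F (T t333 (T t334 (L l54 (T t314 N))))))⟩
def e0_63_48__64_42_16 : Ent 4 := ⟨[a0, a63, a48], [a64, a42, a26], (M a85 (L l54 (F (L l28 (T t99 (L l390 (T t50 (L l28 (T t361 (L l28 (T t362 (K a10 (Fr a58 a53 l38 (V t873)) (K a58 (M a10 (F (L l426 (T t8506 (L l18 (T t364 (L l28 (L l84 (L l426 (T t8507 (K a255 (Fr a15 a5 l8 (Fr a16 a32 l40 (Fr a154 a223 l368 (Fr a207 a101 l512 (Fr a138 a69 l332 (Fr a143 a79 l325 (Fr a74 a202 l318 (V t8569)))))))) N))))))))))) N)))))))))))))⟩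
def e0_63_48__64_42_17 : Ent 4 := ⟨[a0, a63, a48], [a64, a42, a27], (M a101 (F (T t333 (T t334 (L l54 (T t314 N))))))⟩
def e0_63_48__64_42_18 : Ent 4 := ⟨[a0, a63, a48], [a64, a42, a31], (M a101 (F (T t333 (L l18 (T t334 (L l18 (L l54 (T t314 N))))))))⟩
def e0_63_48__64_42_19 : Ent 4 := ⟨[a0, a63, a48], [a64, a42, a32], (M a117 (L l28 (F (T t1537 (L l84 (L l390 (L l404 (T t8394 (L l84 (L l390 (L l404 (T t8396 (K a58 (M a12 (L l28 (L l54 (F (L l426 (T t8509 (L l56 (T t8510 (L l56 (L l144 (T t8511 (K a37 (M a47 (L l54 (F (L l24 (T t3908 (L l144 (L l380 (L l426 (T t8512 (K a10 (M a26 (F (L l24 (T t3908 (L l144 (L l380 (L l426 (T t8512 N)))))))) (K a26 (M a10 (F (T t8513 (L l26 (L l426 (T t8514 N)))))) N))))))))))) (K a10 (M a26 (L l28 (F (L l56 (T t8515 (L l144 (L l426 (T t8516 (K a37 (M a47 (F (L l24 (T t3908 (L l144 (L l380 (L l426 (T t8512 N)))))))) (K a47 (Fr a37 a15 l75 (V t8517)) N)))))))))) (K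 a26 (M a10 (L l28 (F (L l56 (T t4088 (L l144 (L l426 (T t8516 (K a37 (M a47 (F (T t8513 (L l26 (L l426 (T t8514 N)))))) (K a47 (M a37 (F (L l57 (T t2611 (L l23 (L l26 (L l426 (T t8514 N)))))))) N)))))))))) (K a47 (M a37 (L l54 (F (L l27 (T t8438 (L l426 (T t8509 (K a10 (Fr a26 a15 l75 (V t8517)) (K a26 (M a10 (F (L l57 (T t2611 (L l23 (L l26 (L l426 (T t8514 N)))))))) N))))))))) N))))))))))))))) (K a186 (M a101 (L l28 (F (L l206 (T t8504 (T t336 (L l54 (L l84 (L l190 (L l426 (T t8505 (K a37 (M a47 (F (L l206 (T t8504 (L l54 (L l116 (L l376 (L l426 (T t313 (L l54 (L l84 (L l190 (L l426 (T t8518 N)))))))))))))) (K a47 (M a37 (F (L l206 (T t8504 (L l54 (L l426 (T t290 N))))))) N))))))))))))) (K a255 (M a52 (L l28 (F (L l54 (L l439 (T t83 (L l144 (L l265 (T t8426 (L l54 (L l265 (L l266 (T t8427 (K a37 (M a47 (F (L l54 (L l439 (T t83 (L l144 (L l265 (T t8426 (L l54 (L l265 (L l266 (T t8427 N))))))))))))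 (K a47 (M a37 (F (L l54 (T t290 (L l144 (L l265 (T t8426 N))))))) N))))))))))))))) (K a37 (M a47 (F (L l54 (T t6623 (L l404 (T t8519 (L l54 (T t8520 (K a186 (M a240 (F (L l190 (T t8521 (L l376 (L l383 (T t8522 N))))))) N))))))))) (K a47 (M a37 (F (L l54 (T t290 (L l116 (T t8416 (L l84 (L l390 (L l404 (T t8523 N)))))))))) N)))))))))))))))))⟩
def e0_63_48__64_42_20 : Ent 4 := ⟨[a0, a63, a48], [a64, a42, a33], (M a101 (F (T t333 (T t334 (L l54 (T t314 N))))))⟩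
def e0_63_48__64_42_21 : Ent 4 := ⟨[a0, a63, a48], [a64, a42, a34], (M a101 (L l26 (F (T t333 (T t334 (L l54 (T t314 (K a38 (M a46 (F (T t335 (L l54 (T t8524 N))))) (K a46 (M a38 (F (T t336 (T t2181 (L l54 (T t314 N)))))) N)))))))))⟩
def e0_63_48__64_42_22 : Ent 4 := ⟨[a0, a63, a48], [a64, a42, a35], (M a101 (F (T t333 (L l403 (T t334 (L l54 (L l403 (T t314 N))))))))⟩
def e0_63_48__64_42_23 : Ent 4 := ⟨[a0, a63, a48], [a64, a42, a37], (M a101 (L l28 (F (T t335 (L l54 (L l116 (T t313 (L l54 (T t314 (K a32 (M a47 (F (L l47 (T t333 (T t8525 (L l54 (L l376 (T t8526 (L l116 (L l376 (T t8527 (L l54 (L l116 (L l144 (L l376 (L l390 (T t8528 N))))))))))))))))) (K a47 (Fr a32 a16 l40 (V t8529)) N)))))))))))⟩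
def e0_63_48__64_42_24 : Ent 4 := ⟨[a0, a63, a48], [a64, a42, a38], (M a101 (L l26 (F (T t333 (T t334 (L l54 (T t314 (K a34 (M a46 (F (T t335 (L l54 (T t8524 N))))) (K a46 (M a34 (F (T t336 (L l28 (L l72 (L l74 (T t6555 N))))))) N)))))))))⟩
def e0_63_48__64_42_25 : Ent 4 := ⟨[a0, a63, a48], [a64, a42, a39], (M a101 (F (T t333 (T t334 (L l54 (T t314 N))))))⟩
def e0_63_48__64_42_26 : Ent 4 := ⟨[a0, a63, a48], [a64, a42, a43], (M a101 (L l22 (F (T t333 (T t334 (L l54 (T t314 (K a40 (M a41 (F (T t336 (T t2181 (L l54 (T t314 N)))))) (K a41 (M a40 (F (T t333 (L l29 (L l56 (T t8354 N)))))) N)))))))))⟩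
def e0_63_48__64_42_27 : Ent 4 := ⟨[a0, a63, a48], [a64, a42, a47], (M a101 (L l28 (F (T t2181 (L l54 (L l116 (T t313 (L l54 (L l397 (T t314 (K a32 (M a37 (F (L l54 (T t290 (T t336 (L l116 (T t1664 N))))))) (K a37 (Fr a32 a16 l40 (V t8529)) N))))))))))))⟩
def e0_63_48__64_42_28 : Ent 4 := ⟨[a0, a63, a48], [a64, a42, a49], (M a101 (F (T t335 (L l54 (L l116 (T t313 (L l54 (T t314 N))))))))⟩
def e0_63_48__64_42_29 : Ent 4 := ⟨[a0, a63, a48], [a64, a42, a50], (M a101 (F (T t333 (T t334 (L l36 (L l54 (T t314 N)))))))⟩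
def e0_63_48__64_42_30 : Ent 4 := ⟨[a0, a63, a48], [a64, a42, a51], (M a101 (F (T t4850 (L l54 (L l116 (L l489 (T t313 (L l54 (T t314 N)))))))))⟩
def e0_63_48__64_42_31 : Ent 4 := ⟨[a0, a63, a48], [a64, a42, a53], (M a152 (F (T t4706 (L l28 (L l47 (L l140 (T t8530 (L l80 (T t4703 (L l28 (T t7688 (K a16 (M a60 (F (T t8531 (L l14 (L l31 (L l140 (T t8532 N))))))) (K a32 (M a12 (L l28 (F (T t8533 (L l144 (L l400 (T t8534 (L l24 (T t8535 (K a37 (M a47 (L l47 (F (T t8533 (L l66 (L l71 (T t4019 (K a5 (M a21 (F (L l26 (T t4089 (T t8533 N))))) (K a21 (M a5 (F (T t8446 (L l21 (L l24 (T t8536 N)))))) N))))))))) (K a47 (M a37 (F (T t8533 (L l54 (L l66 (T t8537 N)))))) N))))))))))) (K a84 (M a12 (L l140 (F (T t445 (L l122 (L l144 (T t8534 (K a104 (M a124 (F (L l28 (L l514 (T t443 (L l26 (L l100 (L l122 (T t8538 N))))))))) (K a124 (M a104 (F (L l430 (T t445 (L l109 (L l122 (L l144 (T t8534 N)))))))) N)))))))))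 (K a100 (M a20 (F (T t3439 (L l22 (L l31 (L l80 (L l100 (L l122 (L l490 (T t8539 (L l28 (L l146 (L l400 (T t8540 N)))))))))))))) (K a168 (Fr a16 a32 l40 (Fr a220 a84 l364 (Fr a204 a100 l508 (Fr a236 a252 l286 (V t8570))))) (K a204 (M a20 (F (L l502 (T t3439 (L l22 (L l31 (L l232 (L l237 (L l491 (T t8542 (L l28 (L l286 (T t8540 N))))))))))))) (K a220 (Fr a32 a16 l40 (Fr a100 a204 l508 (Fr a168 a236 l400 (Fr a252 a84 l472 (V t8571))))) N))))))))))))))))))⟩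
def e0_63_48__64_42_32 : Ent 4 := ⟨[a0, a63, a48], [a64, a42, a54], (M a101 (F (T t335 (L l36 (L l54 (L l116 (T t313 (L l36 (L l54 (T t314 N))))))))))⟩
def e0_63_48__64_42_33 : Ent 4 := ⟨[a0, a63, a48], [a64, a42, a55], (M a101 (F (T t335 (L l54 (L l116 (T t313 (L l54 (T t314 N))))))))⟩
def e0_63_48__64_42_34 : Ent 4 := ⟨[a0, a63, a48], [a64, a42, a58], (M a100 (L l54 (F (T t4655 (L l140 (T t5604 (L l28 (L l80 (T t8433 (T t8434 (K a16 (M a12 (L l54 (F (T t8435 (L l80 (L l364 (T t8436 (L l14 (L l56 (T t8437 (K a10 (M a26 (F (T t4136 (L l80 (L l364 (T t8436 N)))))) (K a26 (M a10 (L l18 (F (T t8435 (L l57 (T t2611 (K a21 (M a31 (F (T t8401 (L l116 (L l364 (T t8467 N)))))) (K a31 (M a21 (F (L l56 (T t8544 (L l116 (L l364 (T t8467 N))))))) N)))))))) N)))))))))))) (K a32 (M a60 (L l28 (L l54 (F (T t8545 (L l22 (L l24 (L l32 (T t8546 (K a37 (M a47 (L l54 (F (L l51 (T t8547 (L l24 (T t4745 (K a10 (M a26 (F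 (L l51 (T t8547 (L l24 (T t4745 N)))))) (K a26 (M a10 (F (T t8513 (L l51 (T t549 N))))) N))))))))) (K a10 (M a26 (L l28 (F (L l32 (T t8548 (T t8545 (K a37 (M a47 (F (L l51 (T t8547 (L l24 (T t4745 N)))))) (K a47 (Fr a37 a15 l75 (V t8549)) N)))))))) (K a26 (M a10 (L l28 (F (T t8547 (L l16 (L l18 (L l24 (T t2566 (K a37 (M a47 (F (T t8513 (L l51 (T t549 N))))) (K a47 (M a37 (F (T t8545 (L l16 (L l32 (L l57 (T t8550 N))))))) N)))))))))) (K a47 (M a37 (L l54 (F (L l32 (T t8551 (L l399 (T t8552 (K a10 (Fr a26 a15 l75 (V t8549)) (K a26 (M a10 (F (T t8545 (L l16 (L l32 (L l57 (T t8550 N))))))) N))))))))) N))))))))))))) (K a84 (M a104 (L l54 (F (T t8553 (L l116 (L l364 (T t8554 (L l364 (T t8555 (T t8556 (K a10 (M a26 (F (L l28 (T t4144 (L l346 (T t8557 N)))))) (K a26 (M a10 (F (T t8553 (L l18 (L l364 (L l454 (T t8558 (L l18 (L l364 (T t8555 (L l18 (T t8559 N)))))))))))) N)))))))))))) (K a116 (M a96 (L l54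 (F (T t7699 (L l140 (T t8454 (K a10 (M a26 (F (L l28 (T t4144 (T t8455 N))))) (K a26 (M a10 (F (L l18 (T t7699 (L l140 (T t8454 N)))))) N)))))))) (K a152 (M a12 (L l54 (F (L l28 (T t443 (L l80 (L l364 (T t8449 (L l352 (L l364 (T t8450 (L l56 (L l80 (L l352 (T t8451 (K a10 (M a26 (F (L l28 (T t4144 (L l2 (L l56 (L l80 (L l352 (T t8451 N))))))))) (K a26 (M a10 (F (L l57 (T t2611 (L l12 (L l18 (L l352 (L l364 (T t8450 N))))))))) N))))))))))))))))) (K a168 (M a96 (L l54 (F (T t7700 (L l140 (L l204 (L l388 (T t8454 (K a10 (M a26 (F (L l28 (T t4144 (L l216 (T t8455 N)))))) (K a26 (M a10 (F (L l18 (T t7700 (L l140 (L l204 (L l388 (T t8454 N)))))))) N)))))))))) (K a204 (M a12 (L l54 (F (L l502 (T t445 (L l80 (L l286 (T t8449 (L l140 (L l286 (T t8456 (L l56 (L l80 (L l298 (T t8451 (K a10 (M a26 (F (L l28 (T t4144 (L l2 (L l56 (L l80 (L l298 (T t8451 N))))))))) (K a26 (M a10 (F (L l66 (T t2604 (L l18 (L l140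 (L l286 (T t8456 N)))))))) N))))))))))))))))) (K a236 (Fr a16 a32 l40 (Fr a152 a204 l508 (Fr a84 a220 l364 (Fr a252 a168 l472 (V t8493))))) (K a252 (M a12 (L l54 (F (L l430 (T t445 (L l80 (L l261 (T t8436 (K a10 (M a26 (F (L l28 (T t4144 (L l116 (L l262 (T t8467 N))))))) (K a26 (M a10 (F (L l286 (T t8435 (L l57 (L l471 (T t2611 N))))))) N)))))))))) (K a10 (M a26 (F (L l28 (T t4144 (L l140 (T t5604 (L l28 (T t8560 (K a32 (Fr a204 a152 l508 (Fr a15 a37 l75 (Fr a47 a31 l61 (V t8572)))) N))))))))) (K a26 (M a10 (F (T t4655 (T t8562 (L l18 (T t8563 (K a152 (M a240 (F (T t6610 (L l18 (L l80 (L l222 (L l364 (T t8464 N)))))))) (K a204 (M a192 (F (L l502 (T t8465 (L l84 (L l144 (L l298 (L l390 (L l498 (T t231 N)))))))))) N)))))))) N)))))))))))))))))))))⟩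
def e0_63_48__64_42_35 : Ent 4 := ⟨[a0, a63, a48], [a64, a42, a59], (M a101 (L l56 (F (T t333 (T t334 (L l32 (L l54 (T t314 (K a8 (M a25 (F (T t336 (L l320 (T t2181 (L l32 (L l54 (T t314 N)))))))) (K a25 (M a8 (F (T t333 (L l427 (T t8564 N))))) N))))))))))⟩
def e0_63_48__64_42_36 : Ent 4 := ⟨[a0, a63, a48], [a64, a42, a65], (M a101 (L l76 (F (T t333 (T t334 (L l54 (T t314 (K a66 (M a67 (F (T t335 (T t336 (L l54 (T t314 N)))))) (K a67 (M a66 (F (T t335 (T t336 (L l54 (T t314 N)))))) N)))))))))⟩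
def e0_63_48__64_42_37 : Ent 4 := ⟨[a0, a63, a48], [a64, a42, a66], (M a101 (L l76 (F (T t333 (T t334 (L l54 (T t314 (K a65 (M a67 (F (T t335 (T t336 (L l54 (T t314 N)))))) (K a67 (M a65 (F (T t336 (L l306 (T t688 N))))) N)))))))))⟩
def e0_63_48__64_42_38 : Ent 4 := ⟨[a0, a63, a48], [a64, a42, a67], (M a101 (L l76 (F (T t333 (T t334 (L l54 (T t314 (K a65 (M a66 (F (T t335 (T t336 (L l54 (T t314 N)))))) (K a66 (M a65 (F (T t336 (L l306 (T t688 N))))) N)))))))))⟩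
def e0_63_48__64_42_39 : Ent 4 := ⟨[a0, a63, a48], [a64, a42, a69], (M a101 (L l84 (F (T t333 (T t334 (L l54 (L l311 (T t314 (K a74 (M a79 (F (L l144 (T t1307 (L l116 (T t8473 (L l54 (L l311 (T t314 N))))))))) (K a79 (M a74 (F (L l325 (T t336 (L l144 (T t2103 (L l54 (L l311 (T t314 N))))))))) N))))))))))⟩
def e0_63_48__64_42_40 : Ent 4 := ⟨[a0, a63, a48], [a64, a42, a70], (M a101 (F (T t333 (L l330 (T t334 (L l54 (T t314 N)))))))⟩
def e0_63_48__64_42_41 : Ent 4 := ⟨[a0, a63, a48], [a64, a42, a71], (M a101 (F (T t335 (L l54 (L l116 (T t313 (L l54 (T t314 N))))))))⟩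
def e0_63_48__64_42_42 : Ent 4 := ⟨[a0, a63, a48], [a64, a42, a74], (M a101 (L l84 (F (T t335 (L l54 (L l116 (L l339 (T t313 (L l54 (T t314 (K a69 (M a79 (F (L l144 (T t1307 (L l116 (T t8473 (L l54 (L l311 (T t314 N))))))))) (K a79 (M a69 (F (T t432 (T t433 N)))) N))))))))))))⟩
def e0_63_48__64_42_43 : Ent 4 := ⟨[a0, a63, a48], [a64, a42, a75], (M a101 (F (T t333 (T t334 (L l54 (T t314 N))))))⟩
def e0_63_48__64_42_44 : Ent 4 := ⟨[a0, a63, a48], [a64, a42, a79], (M a101 (L l84 (F (T t335 (L l54 (L l116 (T t313 (L l54 (T t314 (K a69 (M a74 (F (L l325 (T t336 (L l144 (T t2103 (L l54 (L l311 (T t314 N))))))))) (K a74 (M a69 (F (T t432 (T t433 N)))) N)))))))))))⟩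
def e0_63_48__64_42_45 : Ent 4 := ⟨[a0, a63, a48], [a64, a42, a80], (M a101 (L l116 (F (T t336 (L l28 (L l84 (T t2198 (L l54 (L l340 (T t314 (K a96 (M a112 (F (T t2181 (L l54 (L l84 (T t8565 (L l94 (L l144 (L l340 (T t1307 N)))))))))) (K a112 (M a96 (F (T t8475 (L l114 (T t2181 N))))) N))))))))))))⟩
def e0_63_48__64_42_46 : Ent 4 := ⟨[a0, a63, a48], [a64, a42, a81], (M a101 (L l120 (F (T t333 (L l344 (T t334 (L l54 (L l344 (T t314 (K a98 (M a115 (F (T t2181 (T t336 (L l54 (L l344 (T t314 N))))))) (K a115 (M a98 (F (T t2181 (T t336 (L l54 (L l344 (T t314 N))))))) N)))))))))))⟩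
def e0_63_48__64_42_47 : Ent 4 := ⟨[a0, a63, a48], [a64, a42, a82], (M a101 (F (T t333 (T t334 (L l54 (T t314 N))))))⟩
def e0_63_48__64_42_48 : Ent 4 := ⟨[a0, a63, a48], [a64, a42, a83], (M a101 (F (T t333 (T t334 (L l54 (T t314 N))))))⟩
def e0_63_48__64_42_49 : Ent 4 := ⟨[a0, a63, a48], [a64, a42, a85], (M a60 (L l144 (F (T t64 (L l22 (L l458 (T t247 (L l56 (L l350 (L l368 (T t288 (L l22 (L l28 (L l54 (L l66 (L l458 (T t5102 (K a106 (M a127 (L l390 (F (L l116 (T t1171 (L l56 (L l350 (T t489 (K a170 (M a234 (F (T t64 (L l116 (L l206 (L l220 (T t1171 (L l140 (L l218 (L l220 (T t2970 N))))))))))) (K a234 (M a170 (F (T t64 (L l250 (L l256 (L l350 (L l368 (T t8370 N)))))))) N)))))))))) (K a127 (M a106 (F (T t309 (L l22 (L l458 (T t247 N)))))) N)))))))))))))))))))⟩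
def e0_63_48__64_42_50 : Ent 4 := ⟨[a0, a63, a48], [a64, a42, a86], (M a101 (F (T t333 (T t334 (L l54 (T t314 N))))))⟩
def e0_63_48__64_42_51 : Ent 4 := ⟨[a0, a63, a48], [a64, a42, a87], (M a101 (F (T t333 (T t334 (L l54 (T t314 N))))))⟩
def e0_63_48__64_42_52 : Ent 4 := ⟨[a0, a63, a48], [a64, a42, a90], (M a101 (F (T t333 (T t334 (L l54 (T t314 N))))))⟩
def e0_63_48__64_42_53 : Ent 4 := ⟨[a0, a63, a48], [a64, a42, a91], (M a101 (F (T t333 (T t334 (L l54 (T t314 N))))))⟩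
def e0_63_48__64_42_54 : Ent 4 := ⟨[a0, a63, a48], [a64, a42, a95], (M a101 (F (T t334 (L l54 (L l116 (T t313 (L l54 (T t314 N))))))))⟩
def e0_63_48__64_42_55 : Ent 4 := ⟨[a0, a63, a48], [a64, a42, a96], (M a255 (L l116 (F (T t1169 (L l28 (L l376 (L l390 (T t512 (L l54 (L l144 (T t513 (K a80 (M a112 (F (T t8476 (L l84 (L l94 (L l144 (L l340 (T t8477 (T t8478 N))))))))) (K a112 (M a80 (F (L l114 (T t1169 (L l84 (L l390 (T t1162 (L l376 (L l390 (T t8479 N)))))))))) N)))))))))))))⟩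
def e0_63_48__64_42_56 : Ent 4 := ⟨[a0, a63, a48], [a64, a42, a97], (M a101 (F (T t333 (T t334 (L l54 (T t314 N))))))⟩
def e0_63_48__64_42_57 : Ent 4 := ⟨[a0, a63, a48], [a64, a42, a98], (M a101 (L l120 (F (T t333 (T t334 (L l54 (T t314 (K a81 (M a115 (F (T t2181 (T t336 (L l54 (L l344 (T t314 N))))))) (K a115 (M a81 (F (T t333 (L l28 (L l415 (T t8480 N)))))) N)))))))))⟩
def e0_63_48__64_42_58 : Ent 4 := ⟨[a0, a63, a48], [a64, a42, a99], (M a101 (F (T t335 (L l54 (L l96 (L l116 (T t313 (L l54 (T t314 N)))))))))⟩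
def e0_63_48__64_42_59 : Ent 4 := ⟨[a0, a63, a48], [a64, a42, a101], (M a60 (F (T t880 (L l491 (T t64 (L l56 (L l491 (T t8481 (L l22 (L l28 (L l54 (L l66 (L l404 (L l509 (T t8482 N)))))))))))))))⟩
def e0_63_48__64_42_60 : Ent 4 := ⟨[a0, a63, a48], [a64, a42, a102], (M a101 (F (T t333 (T t334 (L l54 (T t314 N))))))⟩
def e0_63_48__64_42_61 : Ent 4 := ⟨[a0, a63, a48], [a64, a42, a103], (M a101 (F (T t2181 (L l54 (L l116 (T t313 (L l54 (L l403 (T t314 N)))))))))⟩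
def e0_63_48__64_42_62 : Ent 4 := ⟨[a0, a63, a48], [a64, a42, a106], (M a60 (L l144 (L l390 (F (T t880 (T t64 (L l56 (T t8375 (L l22 (L l28 (L l54 (L l66 (L l498 (L l516 (T t250 (K a85 (M a127 (L l390 (F (L l116 (T t1171 (L l56 (L l350 (T t489 (K a170 (M a234 (F (T t64 (L l116 (L l206 (L l220 (T t1171 (L l140 (L l218 (L l220 (T t2970 N))))))))))) (K a234 (M a170 (F (T t64 (L l250 (L l256 (L l350 (L l368 (T t8370 N)))))))) N)))))))))) (K a170 (M a234 (L l144 (F (T t880 (L l54 (L l498 (T t451 (L l56 (L l464 (T t8375 (L l22 (L l28 (L l54 (L l66 (L l392 (L l404 (L l498 (L l516 (T t250 (K a85 (M a127 (F (T t64 (L l116 (L l206 (L l220 (T t1171 (L l140 (L l218 (L l220 (T t2970 N))))))))))) (K a127 (M a85 (F (T t64 (L l22 (L l28 (L l392 (L l404 (T t8376 N)))))))) N))))))))))))))))))))) (K a234 (M a170 (L l144 (F (T t64 (L l28 (L l296 (T t323 (K a85 (M a127 (F (T t64 (L l250 (L l256 (L l350 (L l368 (T t8370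 N)))))))) (K a127 (Fr a85 a255 l476 (V t8377)) N))))))))) (K a127 (M a85 (L l390 (F (T t64 (L l28 (L l84 (L l104 (T t509 (K a170 (M a234 (F (T t64 (L l22 (L l28 (L l392 (L l404 (T t8376 N)))))))) (K a234 (Fr a170 a255 l476 (V t8377)) N)))))))))) N)))))))))))))))))))⟩
def e0_63_48__64_42_63 : Ent 4 := ⟨[a0, a63, a48], [a64, a42, a107], (M a101 (F (T t335 (L l54 (L l116 (T t313 (L l54 (T t314 N))))))))⟩
def e0_63_48__64_42_64 : Ent 4 := ⟨[a0, a63, a48], [a64, a42, a111], (M a101 (F (T t2181 (L l54 (T t687 (L l54 (L l397 (T t314 N))))))))⟩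
def e0_63_48__64_42_65 : Ent 4 := ⟨[a0, a63, a48], [a64, a42, a112], (M a101 (L l116 (F (T t336 (T t334 (L l54 (T t314 (K a80 (M a96 (F (T t8475 (L l114 (T t2181 N))))) (K a96 (M a80 (F (T t334 (L l28 (L l376 (T t8483 (L l54 (T t314 (L l54 (L l114 (L l376 (T t8484 (L l54 (L l144 (T t8485 N))))))))))))))) N)))))))))⟩
def e0_63_48__64_42_66 : Ent 4 := ⟨[a0, a63, a48], [a64, a42, a113], (M a101 (F (T t333 (T t334 (L l54 (T t314 N))))))⟩
def e0_63_48__64_42_67 : Ent 4 := ⟨[a0, a63, a48], [a64, a42, a114], (M a101 (F (T t333 (T t334 (L l54 (T t314 N))))))⟩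
def e0_63_48__64_42_68 : Ent 4 := ⟨[a0, a63, a48], [a64, a42, a115], (M a101 (L l120 (F (T t333 (T t334 (L l54 (T t314 (K a81 (M a98 (F (T t2181 (T t336 (L l54 (L l344 (T t314 N))))))) (K a98 (M a81 (F (T t333 (L l28 (L l415 (T t8480 N)))))) N)))))))))⟩
def e0_63_48__64_42_69 : Ent 4 := ⟨[a0, a63, a48], [a64, a42, a117], (M a60 (F (T t880 (L l419 (T t64 (L l56 (L l419 (T t288 (L l22 (L l28 (L l54 (L l66 (L l437 (T t250 N))))))))))))))⟩
def e0_63_48__64_42_70 : Ent 4 := ⟨[a0, a63, a48], [a64, a42, a118], (M a101 (F (T t333 (T t334 (L l54 (T t314 N))))))⟩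
def e0_63_48__64_42_71 : Ent 4 := ⟨[a0, a63, a48], [a64, a42, a119], (M a101 (F (T t333 (T t334 (L l54 (T t314 N))))))⟩
def e0_63_48__64_42_72 : Ent 4 := ⟨[a0, a63, a48], [a64, a42, a122], (M a101 (F (T t333 (T t334 (L l54 (L l426 (T t314 N)))))))⟩
def e0_63_48__64_42_73 : Ent 4 := ⟨[a0, a63, a48], [a64, a42, a123], (M a101 (F (T t333 (T t334 (L l54 (T t314 N))))))⟩
def e0_63_48__64_42_74 : Ent 4 := ⟨[a0, a63, a48], [a64, a42, a127], (M a60 (L l144 (F (T t880 (T t64 (L l56 (T t288 (L l22 (L l28 (L l54 (L l66 (T t250 (K a85 (M a106 (F (T t309 (L l22 (L l458 (T t247 N)))))) (K a106 (M a85 (L l390 (F (T t64 (L l28 (L l84 (L l104 (T t509 (K a170 (M a234 (F (T t64 (L l22 (L l28 (L l392 (L l404 (T t8376 N)))))))) (K a234 (Fr a170 a255 l476 (V t8377)) N)))))))))) N))))))))))))))⟩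
def e0_63_48__64_42_75 : Ent 4 := ⟨[a0, a63, a48], [a64, a42, a128], (M a60 (F (T t880 (T t64 (L l56 (T t288 (L l22 (L l28 (L l54 (L l66 (T t250 N)))))))))))⟩
def e0_63_48__64_42_76 : Ent 4 := ⟨[a0, a63, a48], [a64, a42, a129], (M a101 (F (T t333 (T t334 (L l54 (L l152 (T t314 N)))))))⟩
def e0_63_48__64_42_77 : Ent 4 := ⟨[a0, a63, a48], [a64, a42, a130], (M a101 (F (T t333 (L l158 (T t334 (L l54 (L l152 (T t314 N))))))))⟩
def e0_63_48__64_42_78 : Ent 4 := ⟨[a0, a63, a48], [a64, a42, a131], (M a101 (F (T t333 (T t334 (L l54 (L l152 (T t314 N)))))))⟩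
def e0_63_48__64_42_79 : Ent 4 := ⟨[a0, a63, a48], [a64, a42, a133], (M a101 (F (T t333 (L l160 (T t334 (L l54 (L l160 (L l311 (T t314 N)))))))))⟩
def e0_63_48__64_42_80 : Ent 4 := ⟨[a0, a63, a48], [a64, a42, a134], (M a101 (F (T t333 (L l158 (T t334 (L l54 (T t314 N)))))))⟩
def e0_63_48__64_42_81 : Ent 4 := ⟨[a0, a63, a48], [a64, a42, a135], (M a101 (F (T t333 (T t334 (L l54 (T t314 N))))))⟩
def e0_63_48__64_42_82 : Ent 4 := ⟨[a0, a63, a48], [a64, a42, a138], (M a101 (F (L l318 (T t333 (L l28 (L l84 (T t2198 (L l54 (L l160 (T t314 N))))))))))⟩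
def e0_63_48__64_42_83 : Ent 4 := ⟨[a0, a63, a48], [a64, a42, a139], (M a101 (F (T t2197 (L l54 (L l116 (T t313 (L l54 (T t314 N))))))))⟩
def e0_63_48__64_42_84 : Ent 4 := ⟨[a0, a63, a48], [a64, a42, a143], (M a101 (F (T t2197 (L l54 (L l116 (T t313 (L l54 (L l160 (T t314 N)))))))))⟩
def e0_63_48__64_42_85 : Ent 4 := ⟨[a0, a63, a48], [a64, a42, a144], (M a101 (F (L l340 (T t334 (L l54 (L l170 (T t315 (L l54 (L l192 (L l340 (T t314 N)))))))))))⟩
def e0_63_48__64_42_86 : Ent 4 := ⟨[a0, a63, a48], [a64, a42, a145], (M a101 (F (T t333 (T t334 (L l54 (L l196 (T t314 N)))))))⟩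
def e0_63_48__64_42_87 : Ent 4 := ⟨[a0, a63, a48], [a64, a42, a146], (M a101 (F (T t333 (L l344 (T t334 (L l54 (L l344 (T t314 N))))))))⟩
def e0_63_48__64_42_88 : Ent 4 := ⟨[a0, a63, a48], [a64, a42, a147], (M a101 (F (T t333 (T t334 (L l54 (T t314 N))))))⟩
def e0_63_48__64_42_89 : Ent 4 := ⟨[a0, a63, a48], [a64, a42, a149], (M a60 (F (T t880 (L l491 (L l515 (T t64 (L l56 (L l491 (L l515 (T t288 (L l22 (L l28 (L l54 (L l66 (T t250 N)))))))))))))))⟩
def e0_63_48__64_42_90 : Ent 4 := ⟨[a0, a63, a48], [a64, a42, a150], (M a101 (F (T t333 (T t334 (L l54 (T t314 N))))))⟩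
def e0_63_48__64_42_91 : Ent 4 := ⟨[a0, a63, a48], [a64, a42, a151], (M a101 (F (T t333 (T t334 (L l54 (T t314 N))))))⟩
def e0_63_48__64_42_92 : Ent 4 := ⟨[a0, a63, a48], [a64, a42, a154], (M a60 (F (L l56 (T t42 (L l22 (L l28 (T t248 (L l56 (L l368 (L l510 (T t8486 (L l22 (L l28 (L l54 (L l66 (L l498 (T t8487 N)))))))))))))))))⟩
def e0_63_48__64_42_93 : Ent 4 := ⟨[a0, a63, a48], [a64, a42, a155], (M a101 (F (T t2197 (L l54 (L l116 (T t313 (L l54 (T t314 N))))))))⟩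
def e0_63_48__64_42_94 : Ent 4 := ⟨[a0, a63, a48], [a64, a42, a159], (M a101 (F (T t333 (T t334 (L l54 (T t314 N))))))⟩
def e0_63_48__64_42_95 : Ent 4 := ⟨[a0, a63, a48], [a64, a42, a160], (M a101 (F (T t333 (T t334 (L l54 (L l192 (T t314 N)))))))⟩
def e0_63_48__64_42_96 : Ent 4 := ⟨[a0, a63, a48], [a64, a42, a161], (M a101 (F (T t333 (T t334 (L l54 (T t314 N))))))⟩
def e0_63_48__64_42_97 : Ent 4 := ⟨[a0, a63, a48], [a64, a42, a162], (M a101 (F (T t333 (T t334 (L l54 (L l196 (T t314 N)))))))⟩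
def e0_63_48__64_42_98 : Ent 4 := ⟨[a0, a63, a48], [a64, a42, a163], (M a101 (F (T t333 (T t334 (L l54 (T t314 N))))))⟩
def e0_63_48__64_42_99 : Ent 4 := ⟨[a0, a63, a48], [a64, a42, a165], (M a101 (F (T t333 (T t334 (L l54 (T t314 N))))))⟩
def e0_63_48__64_42_100 : Ent 4 := ⟨[a0, a63, a48], [a64, a42, a166], (M a101 (F (T t333 (T t334 (L l54 (T t314 N))))))⟩
def e0_63_48__64_42_101 : Ent 4 := ⟨[a0, a63, a48], [a64, a42, a167], (M a101 (F (T t333 (T t334 (L l54 (T t314 N))))))⟩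
def e0_63_48__64_42_102 : Ent 4 := ⟨[a0, a63, a48], [a64, a42, a170], (M a60 (L l390 (F (T t64 (L l22 (L l392 (T t247 (L l56 (L l464 (T t8385 (L l22 (L l28 (L l54 (L l66 (L l392 (L l404 (T t250 (K a106 (M a234 (L l144 (F (T t880 (L l54 (L l498 (T t451 (L l56 (L l464 (T t8375 (L l22 (L l28 (L l54 (L l66 (L l392 (L l404 (L l498 (L l516 (T t250 (K a85 (M a127 (F (T t64 (L l116 (L l206 (L l220 (T t1171 (L l140 (L l218 (L l220 (T t2970 N))))))))))) (K a127 (M a85 (F (T t64 (L l22 (L l28 (L l392 (L l404 (T t8376 N)))))))) N))))))))))))))))))))) (K a234 (M a106 (F (T t880 (L l282 (L l296 (T t309 N)))))) N)))))))))))))))))))⟩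
def e0_63_48__64_42_103 : Ent 4 := ⟨[a0, a63, a48], [a64, a42, a171], (M a101 (F (T t333 (L l403 (T t334 (L l54 (L l403 (T t314 N))))))))⟩
def e0_63_48__64_42_104 : Ent 4 := ⟨[a0, a63, a48], [a64, a42, a175], (M a101 (F (T t336 (L l28 (L l84 (T t2198 (L l54 (L l397 (T t314 N)))))))))⟩
def e0_63_48__64_42_105 : Ent 4 := ⟨[a0, a63, a48], [a64, a42, a176], (M a101 (F (T t333 (T t334 (L l54 (L l192 (T t314 N)))))))⟩
def e0_63_48__64_42_106 : Ent 4 := ⟨[a0, a63, a48], [a64, a42, a177], (M a101 (F (T t333 (T t334 (L l54 (T t314 N))))))⟩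
def e0_63_48__64_42_107 : Ent 4 := ⟨[a0, a63, a48], [a64, a42, a178], (M a101 (F (T t333 (T t334 (L l54 (T t314 N))))))⟩
def e0_63_48__64_42_108 : Ent 4 := ⟨[a0, a63, a48], [a64, a42, a179], (M a101 (F (T t333 (T t334 (L l54 (L l196 (T t314 N)))))))⟩
def e0_63_48__64_42_109 : Ent 4 := ⟨[a0, a63, a48], [a64, a42, a181], (M a101 (F (T t335 (L l54 (L l116 (T t313 (L l54 (T t314 N))))))))⟩
def e0_63_48__64_42_110 : Ent 4 := ⟨[a0, a63, a48], [a64, a42, a182], (M a101 (F (T t333 (T t334 (L l54 (T t314 N))))))⟩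
def e0_63_48__64_42_111 : Ent 4 := ⟨[a0, a63, a48], [a64, a42, a183], (M a101 (F (T t333 (T t334 (L l54 (T t314 N))))))⟩
def e0_63_48__64_42_112 : Ent 4 := ⟨[a0, a63, a48], [a64, a42, a186], (M a101 (F (T t333 (T t2197 (L l54 (L l426 (T t314 N)))))))⟩
def e0_63_48__64_42_113 : Ent 4 := ⟨[a0, a63, a48], [a64, a42, a187], (M a101 (F (T t333 (T t334 (L l54 (T t314 N))))))⟩
def e0_63_48__64_42_114 : Ent 4 := ⟨[a0, a63, a48], [a64, a42, a191], (M a60 (F (T t880 (T t64 (L l56 (T t288 (L l22 (L l28 (L l54 (L l66 (T t250 N)))))))))))⟩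
def e0_63_48__64_42_115 : Ent 4 := ⟨[a0, a63, a48], [a64, a42, a192], (M a255 (F (L l268 (T t1169 (L l28 (L l236 (L l390 (T t512 (L l54 (L l144 (L l236 (T t513 N))))))))))))⟩
def e0_63_48__64_42_116 : Ent 4 := ⟨[a0, a63, a48], [a64, a42, a193], (M a101 (F (T t333 (T t334 (L l54 (L l233 (T t314 N)))))))⟩
def e0_63_48__64_42_117 : Ent 4 := ⟨[a0, a63, a48], [a64, a42, a194], (M a101 (F (T t335 (L l54 (L l116 (L l228 (T t313 (L l54 (T t314 N)))))))))⟩
def e0_63_48__64_42_118 : Ent 4 := ⟨[a0, a63, a48], [a64, a42, a195], (M a101 (F (T t4850 (L l54 (L l116 (L l228 (T t313 (L l54 (T t314 N)))))))))⟩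
def e0_63_48__64_42_119 : Ent 4 := ⟨[a0, a63, a48], [a64, a42, a197], (M a60 (F (T t880 (L l491 (T t64 (L l56 (L l491 (T t288 (L l22 (L l28 (L l54 (L l66 (T t250 N)))))))))))))⟩
def e0_63_48__64_42_120 : Ent 4 := ⟨[a0, a63, a48], [a64, a42, a198], (M a101 (F (T t335 (L l54 (L l116 (L l229 (T t313 (L l54 (L l229 (T t314 N))))))))))⟩
def e0_63_48__64_42_121 : Ent 4 := ⟨[a0, a63, a48], [a64, a42, a199], (M a101 (F (T t335 (L l54 (L l116 (L l229 (T t313 (L l54 (L l229 (T t314 N))))))))))⟩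
def e0_63_48__64_42_122 : Ent 4 := ⟨[a0, a63, a48], [a64, a42, a202], (M a255 (F (L l116 (T t511 (L l28 (L l236 (L l390 (T t512 (L l54 (L l144 (L l236 (L l498 (T t513 N)))))))))))))⟩
def e0_63_48__64_42_123 : Ent 4 := ⟨[a0, a63, a48], [a64, a42, a203], (M a101 (F (T t2197 (L l54 (L l116 (T t313 (L l54 (T t314 N))))))))⟩
def e0_63_48__64_42_124 : Ent 4 := ⟨[a0, a63, a48], [a64, a42, a207], (M a60 (F (T t3520 (L l511 (T t64 (L l56 (L l326 (T t288 (L l22 (L l28 (L l54 (L l66 (L l326 (T t250 N))))))))))))))⟩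
def e0_63_48__64_42_125 : Ent 4 := ⟨[a0, a63, a48], [a64, a42, a208], (M a101 (F (T t333 (L l28 (L l84 (L l246 (T t2198 (L l54 (L l340 (T t314 N))))))))))⟩
def e0_63_48__64_42_126 : Ent 4 := ⟨[a0, a63, a48], [a64, a42, a209], (M a101 (F (T t333 (T t334 (L l54 (T t314 N))))))⟩
def e0_63_48__64_42_127 : Ent 4 := ⟨[a0, a63, a48], [a64, a42, a210], (M a101 (F (T t333 (T t334 (L l54 (T t314 N))))))⟩
def e0_63_48__64_42_128 : Ent 4 := ⟨[a0, a63, a48], [a64, a42, a211], (M a101 (F (T t333 (L l344 (T t334 (L l54 (L l344 (T t314 N))))))))⟩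
def e0_63_48__64_42_129 : Ent 4 := ⟨[a0, a63, a48], [a64, a42, a213], (M a101 (F (T t333 (T t334 (L l54 (L l275 (T t314 N)))))))⟩
def e0_63_48__64_42_130 : Ent 4 := ⟨[a0, a63, a48], [a64, a42, a214], (M a101 (F (T t333 (T t334 (L l54 (T t314 N))))))⟩
def e0_63_48__64_42_131 : Ent 4 := ⟨[a0, a63, a48], [a64, a42, a215], (M a101 (F (T t333 (T t334 (L l54 (T t314 N))))))⟩
def e0_63_48__64_42_132 : Ent 4 := ⟨[a0, a63, a48], [a64, a42, a218], (M a101 (F (T t2197 (L l54 (L l116 (T t313 (L l54 (T t314 N))))))))⟩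
def e0_63_48__64_42_133 : Ent 4 := ⟨[a0, a63, a48], [a64, a42, a219], (M a101 (F (T t2197 (L l54 (L l116 (T t313 (L l54 (T t314 N))))))))⟩
def e0_63_48__64_42_134 : Ent 4 := ⟨[a0, a63, a48], [a64, a42, a223], (M a60 (F (T t64 (L l22 (T t247 (L l56 (L l368 (T t288 (L l22 (L l28 (L l54 (L l66 (L l362 (T t5102 N))))))))))))))⟩
def e0_63_48__64_42_135 : Ent 4 := ⟨[a0, a63, a48], [a64, a42, a224], (M a101 (F (T t333 (L l256 (T t334 (L l54 (L l256 (T t314 N))))))))⟩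
def e0_63_48__64_42_136 : Ent 4 := ⟨[a0, a63, a48], [a64, a42, a225], (M a101 (F (T t333 (T t334 (L l54 (T t314 N))))))⟩
def e0_63_48__64_42_137 : Ent 4 := ⟨[a0, a63, a48], [a64, a42, a226], (M a101 (F (T t333 (T t334 (L l54 (T t314 N))))))⟩
def e0_63_48__64_42_138 : Ent 4 := ⟨[a0, a63, a48], [a64, a42, a227], (M a101 (F (T t333 (L l255 (T t334 (L l54 (L l255 (T t314 N))))))))⟩
def e0_63_48__64_42_139 : Ent 4 := ⟨[a0, a63, a48], [a64, a42, a229], (M a101 (F (T t2181 (L l54 (L l116 (L l275 (T t313 (L l54 (L l256 (L l275 (T t314 N)))))))))))⟩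
def e0_63_48__64_42_140 : Ent 4 := ⟨[a0, a63, a48], [a64, a42, a230], (M a101 (F (T t333 (T t334 (L l54 (T t314 N))))))⟩
def e0_63_48__64_42_141 : Ent 4 := ⟨[a0, a63, a48], [a64, a42, a231], (M a101 (F (T t2181 (L l54 (L l116 (T t313 (L l54 (L l255 (T t314 N)))))))))⟩
def e0_63_48__64_42_142 : Ent 4 := ⟨[a0, a63, a48], [a64, a42, a234], (M a101 (L l390 (F (T t4850 (L l282 (T t333 (L l54 (L l256 (T t314 (K a106 (M a170 (L l144 (F (T t8566 (L l296 (L l498 (T t8567 (K a85 (M a127 (F (T t8566 (L l116 (T t1171 N))))) (K a127 (Fr a85 a255 l476 (V t8566)) N))))))))) (K a170 (M a106 (F (T t6740 (L l220 (T t6741 N))))) N)))))))))))⟩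
def e0_63_48__64_42_143 : Ent 4 := ⟨[a0, a63, a48], [a64, a42, a235], (M a101 (F (T t333 (L l255 (T t334 (L l54 (L l255 (T t314 N))))))))⟩
def e0_63_48__64_42_144 : Ent 4 := ⟨[a0, a63, a48], [a64, a42, a239], (M a60 (F (T t64 (L l22 (T t247 (L l56 (L l398 (T t8385 (L l22 (L l28 (L l54 (L l66 (L l404 (T t250 N))))))))))))))⟩
def e0_63_48__64_42_145 : Ent 4 := ⟨[a0, a63, a48], [a64, a42, a240], (M a101 (F (T t4850 (L l54 (L l116 (L l268 (T t313 (L l54 (T t314 N)))))))))⟩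
def e0_63_48__64_42_146 : Ent 4 := ⟨[a0, a63, a48], [a64, a42, a241], (M a101 (F (T t333 (T t334 (L l54 (T t314 N))))))⟩
def e0_63_48__64_42_147 : Ent 4 := ⟨[a0, a63, a48], [a64, a42, a242], (M a101 (F (T t333 (T t334 (L l54 (T t314 N))))))⟩
def e0_63_48__64_42_148 : Ent 4 := ⟨[a0, a63, a48], [a64, a42, a243], (M a101 (F (T t4850 (L l54 (L l116 (L l272 (T t313 (L l54 (T t314 N)))))))))⟩
def e0_63_48__64_42_149 : Ent 4 := ⟨[a0, a63, a48], [a64, a42, a245], (M a101 (F (T t334 (L l54 (L l116 (L l275 (T t313 (L l54 (L l275 (T t314 N))))))))))⟩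
def e0_63_48__64_42_150 : Ent 4 := ⟨[a0, a63, a48], [a64, a42, a246], (M a101 (F (T t333 (T t334 (L l54 (T t314 N))))))⟩
def e0_63_48__64_42_151 : Ent 4 := ⟨[a0, a63, a48], [a64, a42, a247], (M a101 (F (T t333 (T t334 (L l54 (T t314 N))))))⟩
def e0_63_48__64_42_152 : Ent 4 := ⟨[a0, a63, a48], [a64, a42, a250], (M a101 (F (T t334 (L l282 (T t333 (L l54 (L l426 (T t314 N))))))))⟩
def e0_63_48__64_42_153 : Ent 4 := ⟨[a0, a63, a48], [a64, a42, a251], (M a101 (F (T t333 (T t334 (L l54 (T t314 N))))))⟩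
def e0_63_48__64_42_154 : Ent 4 := ⟨[a0, a63, a48], [a64, a42, a255], (M a60 (F (T t3520 (L l439 (T t64 (L l56 (L l470 (T t288 (L l22 (L l28 (L l54 (L l66 (L l470 (T t250 N))))))))))))))⟩
def b0_63_48__64_42 : Blk 4 := ⟨[0, 63, 48], [64, 42], [1, 2, 3, 5, 6, 7, 10, 11, 15, 16, 17, 18, 19, 21, 22, 23, 26, 27, 31, 32, 33, 34, 35, 37, 38, 39, 43, 47, 49, 50, 51, 53, 54, 55, 58, 59, 65, 66, 67, 69, 70, 71, 74, 75, 79, 80, 81, 82, 83, 85, 86, 87, 90, 91, 95, 96, 97, 98, 99, 101, 102, 103, 106, 107, 111, 112, 113, 114, 115, 117, 118, 119, 122, 123, 127, 128, 129, 130, 131, 133, 134, 135, 138, 139, 143, 144, 145, 146, 147, 149, 150, 151, 154, 155, 159, 160, 161, 162, 163, 165, 166, 167, 170, 171, 175, 176, 177, 178, 179, 181, 182, 183, 186, 187, 191, 192, 193, 194, 195, 197, 198, 199, 202, 203, 207, 208, 209, 210, 211, 213, 214, 215, 218, 219, 223, 224, 225, 226, 227, 229, 230, 231, 234, 235, 239, 240, 241,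 242, 243, 245, 246, 247, 250, 251, 255], [e0_63_48__64_42_0, e0_63_48__64_42_1, e0_63_48__64_42_2, e0_63_48__64_42_3, e0_63_48__64_42_4, e0_63_48__64_42_5, e0_63_48__64_42_6, e0_63_48__64_42_7, e0_63_48__64_42_8, e0_63_48__64_42_9, e0_63_48__64_42_10, e0_63_48__64_42_11, e0_63_48__64_42_12, e0_63_48__64_42_13, e0_63_48__64_42_14, e0_63_48__64_42_15, e0_63_48__64_42_16, e0_63_48__64_42_17, e0_63_48__64_42_18, e0_63_48__64_42_19, e0_63_48__64_42_20, e0_63_48__64_42_21, e0_63_48__64_42_22, e0_63_48__64_42_23, e0_63_48__64_42_24, e0_63_48__64_42_25, e0_63_48__64_42_26, e0_63_48__64_42_27, e0_63_48__64_42_28, e0_63_48__64_42_29, e0_63_48__64_42_30, e0_63_48__64_42_31, e0_63_48__64_42_32, e0_63_48__64_42_33, e0_63_48__64_42_34, e0_63_48__64_42_35, e0_63_48__64_42_36, e0_63_48__64_42_37, e0_63_48__64_42_38, e0_63_48__64_42_39, e0_63_48__64_42_40, e0_63_48__64_42_41, e0_63_48__64_42_42, e0_63_48__64_42_43,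 e0_63_48__64_42_44, e0_63_48__64_42_45, e0_63_48__64_42_46, e0_63_48__64_42_47, e0_63_48__64_42_48, e0_63_48__64_42_49, e0_63_48__64_42_50, e0_63_48__64_42_51, e0_63_48__64_42_52, e0_63_48__64_42_53, e0_63_48__64_42_54, e0_63_48__64_42_55, e0_63_48__64_42_56, e0_63_48__64_42_57, e0_63_48__64_42_58, e0_63_48__64_42_59, e0_63_48__64_42_60, e0_63_48__64_42_61, e0_63_48__64_42_62, e0_63_48__64_42_63, e0_63_48__64_42_64, e0_63_48__64_42_65, e0_63_48__64_42_66, e0_63_48__64_42_67, e0_63_48__64_42_68, e0_63_48__64_42_69, e0_63_48__64_42_70, e0_63_48__64_42_71, e0_63_48__64_42_72, e0_63_48__64_42_73, e0_63_48__64_42_74, e0_63_48__64_42_75, e0_63_48__64_42_76, e0_63_48__64_42_77, e0_63_48__64_42_78, e0_63_48__64_42_79, e0_63_48__64_42_80, e0_63_48__64_42_81, e0_63_48__64_42_82, e0_63_48__64_42_83, e0_63_48__64_42_84, e0_63_48__64_42_85, e0_63_48__64_42_86, e0_63_48__64_42_87, e0_63_48__64_42_88, e0_63_48__64_42_89,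 e0_63_48__64_42_90, e0_63_48__64_42_91, e0_63_48__64_42_92, e0_63_48__64_42_93, e0_63_48__64_42_94, e0_63_48__64_42_95, e0_63_48__64_42_96, e0_63_48__64_42_97, e0_63_48__64_42_98, e0_63_48__64_42_99, e0_63_48__64_42_100, e0_63_48__64_42_101, e0_63_48__64_42_102, e0_63_48__64_42_103, e0_63_48__64_42_104, e0_63_48__64_42_105, e0_63_48__64_42_106, e0_63_48__64_42_107, e0_63_48__64_42_108, e0_63_48__64_42_109, e0_63_48__64_42_110, e0_63_48__64_42_111, e0_63_48__64_42_112, e0_63_48__64_42_113, e0_63_48__64_42_114, e0_63_48__64_42_115, e0_63_48__64_42_116, e0_63_48__64_42_117, e0_63_48__64_42_118, e0_63_48__64_42_119, e0_63_48__64_42_120, e0_63_48__64_42_121, e0_63_48__64_42_122, e0_63_48__64_42_123, e0_63_48__64_42_124, e0_63_48__64_42_125, e0_63_48__64_42_126, e0_63_48__64_42_127, e0_63_48__64_42_128, e0_63_48__64_42_129, e0_63_48__64_42_130, e0_63_48__64_42_131, e0_63_48__64_42_132, e0_63_48__64_42_133,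 e0_63_48__64_42_134, e0_63_48__64_42_135, e0_63_48__64_42_136, e0_63_48__64_42_137, e0_63_48__64_42_138, e0_63_48__64_42_139, e0_63_48__64_42_140, e0_63_48__64_42_141, e0_63_48__64_42_142, e0_63_48__64_42_143, e0_63_48__64_42_144, e0_63_48__64_42_145, e0_63_48__64_42_146, e0_63_48__64_42_147, e0_63_48__64_42_148, e0_63_48__64_42_149, e0_63_48__64_42_150, e0_63_48__64_42_151, e0_63_48__64_42_152, e0_63_48__64_42_153, e0_63_48__64_42_154], by decide +kernel, by decide +kernel⟩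
def e0_63_48__192_0 : Ent 4 := ⟨[a0, a63, a48], [a192, a42], (M a255 (F (T t1260 (L l54 (L l268 (T t1160 (L l28 (L l236 (L l390 (T t548 N))))))))))⟩
def b0_63_48__192 : Blk 4 := ⟨[0, 63, 48], [192], [42], [e0_63_48__192_0], by decide +kernel, by decide +kernel⟩
def e0_63_48__192_42_0 : Ent 4 := ⟨[a0, a63, a48], [a192, a42, a1], (M a255 (F (T t557 (L l236 (L l473 (T t547 (L l28 (L l236 (L l390 (T t548 N))))))))))⟩
def e0_63_48__192_42_1 : Ent 4 := ⟨[a0, a63, a48], [a192, a42, a2], (M a255 (L l66 (F (T t8682 (L l54 (L l268 (T t1160 (L l28 (L l236 (L l390 (L l474 (T t548 (K a22 (M a62 (F (T t557 (L l19 (L l22 (L l28 (L l334 (T t598 N)))))))) (K a62 (M a22 (F (T t557 (L l236 (L l390 (L l474 (T t1162 (L l36 (L l54 (L l236 (T t513 N))))))))))) N))))))))))))))⟩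
def e0_63_48__192_42_2 : Ent 4 := ⟨[a0, a63, a48], [a192, a42, a3], (M a255 (L l309 (F (T t1260 (L l54 (L l268 (L l453 (T t1160 (L l28 (L l236 (L l390 (T t548 (K a129 (M a66 (F (T t557 (L l236 (L l331 (L l390 (T t1162 (L l28 (L l236 (L l390 (T t548 N))))))))))) (K a66 (M a129 (F (T t557 (L l236 (L l331 (L l390 (T t1162 (L l28 (L l236 (L l390 (T t548 N))))))))))) N))))))))))))))⟩
def e0_63_48__192_42_3 : Ent 4 := ⟨[a0, a63, a48], [a192, a42, a5], (M a255 (F (L l268 (T t511 (L l28 (L l236 (L l390 (T t512 (L l28 (L l47 (L l236 (L l390 (T t548 N)))))))))))))⟩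
def e0_63_48__192_42_4 : Ent 4 := ⟨[a0, a63, a48], [a192, a42, a6], (M a255 (F (T t1260 (L l54 (L l268 (T t1160 (L l28 (L l236 (L l390 (T t548 N))))))))))⟩
def e0_63_48__192_42_5 : Ent 4 := ⟨[a0, a63, a48], [a192, a42, a7], (M a255 (F (T t1260 (L l54 (L l268 (T t1160 (L l28 (L l236 (L l390 (T t548 N))))))))))⟩
def e0_63_48__192_42_6 : Ent 4 := ⟨[a0, a63, a48], [a192, a42, a10], (M a255 (L l54 (F (T t557 (L l236 (L l318 (T t547 (L l28 (L l236 (L l318 (L l390 (L l462 (T t548 (K a26 (Fr a58 a53 l38 (V t8741)) (K a58 (M a26 (F (L l28 (T t4144 (L l236 (L l318 (T t547 (L l28 (L l236 (T t8742 (K a32 (Fr a15 a37 l75 (Fr a47 a31 l61 (V t8859))) N))))))))))) N)))))))))))))))⟩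
def e0_63_48__192_42_7 : Ent 4 := ⟨[a0, a63, a48], [a192, a42, a11], (M a255 (F (T t1260 (L l54 (L l268 (T t1160 (L l28 (L l236 (L l390 (T t548 N))))))))))⟩
def e0_63_48__192_42_8 : Ent 4 := ⟨[a0, a63, a48], [a192, a42, a15], (M a255 (L l339 (F (T t1260 (L l54 (L l268 (L l483 (T t1160 (L l28 (L l236 (L l390 (T t548 (K a133 (M a74 (F (T t557 (L l236 (L l311 (L l325 (L l390 (T t1162 (L l28 (L l236 (L l390 (T t548 N)))))))))))) (K a74 (M a133 (F (T t8682 (L l268 (L l483 (T t546 (L l28 (L l236 (L l318 (L l390 (T t548 N))))))))))) N))))))))))))))⟩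
def e0_63_48__192_42_9 : Ent 4 := ⟨[a0, a63, a48], [a192, a42, a16], (M a117 (F (L l54 (T t1361 (L l390 (T t8744 (L l28 (L l54 (L l236 (L l368 (T t8745 (L l296 (T t8395 (K a186 (M a52 (F (L l428 (T t8426 (L l54 (L l426 (T t8427 (L l54 (L l426 (L l428 (L l489 (T t83 (L l66 (L l272 (L l428 (T t8746 N)))))))))))))))) (K a255 (M a52 (L l296 (F (L l265 (T t8426 (L l54 (L l439 (L l489 (T t83 (L l54 (L l265 (L l266 (T t8427 (K a213 (M a234 (F (L l54 (L l66 (T t555 (L l265 (L l278 (T t8426 (L l54 (L l265 (L l266 (L l275 (L l278 (T t8427 N)))))))))))))) (K a234 (M a213 (L l390 (F (L l265 (T t8426 (L l54 (L l439 (L l489 (T t83 (L l54 (L l265 (L l266 (T t8427 (K a106 (M a170 (F (L l144 (L l265 (T t8426 (L l54 (L l439 (L l489 (L l498 (T t83 (L l54 (L l265 (L l266 (L l498 (T t8427 N))))))))))))))) (K a170 (M a106 (F (L l228 (L l294 (T t8747 (L l54 (L l265 (L l266 (T t8427 N))))))))) N))))))))))))))) N)))))))))))))))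 N)))))))))))))))⟩
def e0_63_48__192_42_10 : Ent 4 := ⟨[a0, a63, a48], [a192, a42, a17], (M a255 (F (T t8669 (L l236 (L l365 (T t547 (L l28 (L l236 (L l390 (T t548 N))))))))))⟩
def e0_63_48__192_42_11 : Ent 4 := ⟨[a0, a63, a48], [a192, a42, a18], (M a255 (F (T t557 (L l236 (T t547 (L l28 (L l236 (L l390 (T t548 N)))))))))⟩
def e0_63_48__192_42_12 : Ent 4 := ⟨[a0, a63, a48], [a192, a42, a19], (M a255 (F (T t557 (L l236 (T t547 (L l28 (L l236 (L l367 (L l390 (T t548 N))))))))))⟩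
def e0_63_48__192_42_13 : Ent 4 := ⟨[a0, a63, a48], [a192, a42, a21], (M a255 (F (L l268 (T t511 (L l236 (L l347 (T t547 (L l28 (L l47 (L l236 (L l390 (T t548 N))))))))))))⟩
def e0_63_48__192_42_14 : Ent 4 := ⟨[a0, a63, a48], [a192, a42, a22], (M a255 (L l66 (F (T t1260 (L l54 (L l268 (T t1160 (L l28 (L l236 (L l390 (T t548 (K a2 (M a62 (F (T t557 (L l19 (L l22 (L l28 (L l334 (T t598 N)))))))) (K a62 (M a2 (F (T t8663 (L l268 (T t546 N))))) N)))))))))))))⟩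
def e0_63_48__192_42_15 : Ent 4 := ⟨[a0, a63, a48], [a192, a42, a23], (M a255 (F (T t1260 (L l54 (L l268 (T t1160 (L l28 (L l236 (L l390 (T t548 N))))))))))⟩
def e0_63_48__192_42_16 : Ent 4 := ⟨[a0, a63, a48], [a192, a42, a26], (M a255 (L l54 (F (T t557 (L l236 (T t547 (L l28 (L l236 (L l390 (T t548 (K a10 (Fr a58 a53 l38 (V t8741)) (K a58 (M a10 (F (T t8748 (L l236 (T t547 (L l236 (T t8749 N))))))) N))))))))))))⟩
def e0_63_48__192_42_17 : Ent 4 := ⟨[a0, a63, a48], [a192, a42, a27], (M a255 (F (T t1260 (L l54 (L l268 (T t1160 (L l28 (L l236 (L l390 (T t548 N))))))))))⟩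
def e0_63_48__192_42_18 : Ent 4 := ⟨[a0, a63, a48], [a192, a42, a31], (M a255 (F (T t557 (L l236 (T t547 (L l28 (L l236 (L l361 (L l390 (T t548 N))))))))))⟩
def e0_63_48__192_42_19 : Ent 4 := ⟨[a0, a63, a48], [a192, a42, a32], (M a60 (L l28 (F (T t236 (L l489 (T t64 (L l56 (L l489 (T t42 (L l54 (L l66 (L l489 (T t70 (L l54 (L l489 (T t451 (K a52 (M a255 (L l28 (F (L l268 (T t511 (L l228 (T t4709 (K a37 (M a47 (L l51 (F (T t5792 (L l268 (L l390 (L l404 (T t8750 (K a22 (M a7 (L l66 (F (T t5792 (L l54 (L l268 (L l390 (L l404 (T t8751 (K a2 (Fr a62 a61 l33 (V t8752)) (K a62 (M a2 (F (T t8753 (L l292 (L l432 (T t8754 N)))))) N))))))))))) (K a7 (M a22 (F (L l22 (L l24 (L l47 (T t881 (L l292 (T t1565 N)))))))) N)))))))))) (K a47 (M a37 (F (L l54 (T t290 (L l228 (T t4709 N)))))) N))))))))) (K a56 (M a255 (L l28 (F (T t4940 (L l32 (L l54 (L l268 (L l428 (T t1160 (K a37 (M a47 (F (T t5792 (L l268 (L l390 (L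 l404 (T t8750 N))))))) (K a47 (M a37 (F (L l32 (L l54 (T t290 (L l228 (T t4709 N))))))) N))))))))))) (K a53 (M a15 (L l28 (F (L l66 (T t5226 (L l31 (L l47 (T t8755 (L l20 (L l54 (L l309 (T t8756 (K a37 (Fr a47 a31 l61 (V t8757)) (K a47 (Fr a37 a26 l75 (V t8758)) N)))))))))))))) (K a57 (M a37 (F (L l32 (L l54 (T t290 (L l339 (T t8759 (L l54 (L l334 (T t8760 (L l32 (L l66 (L l309 (T t8761 (L l32 (L l54 (L l66 (T t8762 N)))))))))))))))))) (K a61 (M a37 (F (L l54 (L l65 (T t290 (L l20 (L l309 (T t8763 (L l54 (T t8764 (L l22 (L l24 (T t8765 N))))))))))))) (K a54 (M a37 (F (L l36 (L l54 (T t290 (L l22 (L l339 (T t8766 (L l36 (L l66 (L l309 (T t8761 (L l36 (L l54 (T t8767 N))))))))))))))) (K a58 (M a36 (L l28 (L l54 (F (L l32 (T t8768 (L l26 (L l36 (L l66 (L l339 (T t8769 (K a37 (M a47 (L l54 (F (L l32 (T t8768 (L l334 (T t4745 (K a10 (M a26 (F (L l22 (T t8770 (L l334 (T t4745 N)))))) (K a26 (M a10 (F (T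 t8513 (L l22 (T t8770 N))))) N))))))))) (K a10 (M a26 (L l28 (F (L l32 (T t8768 (L l6 (L l339 (T t8771 (K a37 (M a47 (F (L l22 (T t8770 (L l334 (T t4745 N)))))) (K a47 (Fr a37 a15 l75 (V t8768)) N)))))))))) (K a26 (M a10 (L l28 (F (L l22 (T t8770 (L l72 (L l334 (T t2562 (K a37 (M a47 (F (T t8513 (L l22 (T t8770 N))))) (K a47 (M a37 (F (L l22 (T t8770 (L l12 (L l23 (L l26 (L l36 (L l66 (L l339 (T t8769 N))))))))))) N)))))))))) (K a47 (M a37 (L l54 (F (L l32 (T t8768 (L l27 (L l489 (T t8772 (K a10 (Fr a26 a15 l75 (V t8768)) (K a26 (M a10 (F (L l22 (T t8770 (L l12 (L l23 (L l26 (L l36 (L l66 (L l339 (T t8769 N))))))))))) N)))))))))) N))))))))))))))) (K a62 (M a37 (L l66 (F (L l36 (L l54 (T t290 (L l22 (L l339 (T t8766 (L l22 (L l24 (T t8765 (K a2 (M a22 (F (T t8773 (L l36 (L l54 (T t290 N)))))) (K a22 (M a2 (F (L l11 (L l36 (L l54 (T t290 (L l16 (L l22 (T t8774 (L l20 (L l36 (T t640 N)))))))))))) N))))))))))))))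 (K a51 (M a37 (L l489 (F (L l54 (T t290 (L l22 (L l73 (L l339 (T t8766 (L l43 (L l66 (L l309 (T t8761 (L l54 (T t8767 (K a145 (M a98 (F (L l54 (T t290 (L l22 (L l73 (L l339 (T t8766 (L l43 (L l66 (L l309 (T t8761 (L l54 (T t8767 N)))))))))))))) (K a98 (M a145 (F (L l54 (T t290 (L l22 (L l73 (L l339 (T t8766 (L l43 (L l66 (L l309 (T t8761 (L l54 (T t8767 N)))))))))))))) N))))))))))))))))) (K a37 (M a47 (F (L l24 (L l334 (T t4745 (L l54 (L l489 (T t451 (L l24 (L l51 (T t4746 N))))))))))) (K a47 (M a37 (F (L l54 (T t290 (L l22 (L l339 (T t8766 (L l56 (L l489 (T t42 N)))))))))) N)))))))))))))))))))))))))))⟩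
def e0_63_48__192_42_20 : Ent 4 := ⟨[a0, a63, a48], [a192, a42, a33], (M a255 (F (T t1260 (L l54 (L l268 (T t1160 (L l20 (L l28 (L l236 (L l390 (T t548 N)))))))))))⟩
def e0_63_48__192_42_21 : Ent 4 := ⟨[a0, a63, a48], [a192, a42, a34], (M a255 (L l26 (F (T t1260 (L l54 (L l268 (T t1160 (L l20 (L l28 (L l236 (L l390 (L l402 (T t548 (K a38 (M a46 (F (T t8775 (L l236 (T t547 N))))) (K a46 (M a38 (F (T t557 (L l236 (L l390 (L l402 (T t1162 (L l54 (L l236 (T t513 N)))))))))) N)))))))))))))))⟩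
def e0_63_48__192_42_22 : Ent 4 := ⟨[a0, a63, a48], [a192, a42, a35], (M a255 (F (T t1260 (L l54 (L l268 (T t1160 (L l20 (L l28 (L l236 (L l390 (T t548 N)))))))))))⟩
def e0_63_48__192_42_23 : Ent 4 := ⟨[a0, a63, a48], [a192, a42, a37], (M a255 (L l28 (F (T t8682 (L l54 (L l268 (T t1160 (L l47 (L l236 (L l390 (T t3728 (K a32 (M a47 (F (T t8753 (L l268 (T t546 (L l47 (L l268 (T t8776 N)))))))) (K a47 (Fr a32 a16 l40 (V t8777)) N)))))))))))))⟩
def e0_63_48__192_42_24 : Ent 4 := ⟨[a0, a63, a48], [a192, a42, a38], (M a255 (L l26 (F (T t1260 (L l54 (L l268 (T t1160 (L l28 (L l236 (L l390 (T t548 (K a34 (M a46 (F (T t8775 (L l236 (T t547 N))))) (K a46 (M a34 (F (T t557 (L l232 (L l396 (T t8778 N)))))) N)))))))))))))⟩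
def e0_63_48__192_42_25 : Ent 4 := ⟨[a0, a63, a48], [a192, a42, a39], (M a255 (F (T t1260 (L l54 (L l268 (T t1160 (L l28 (L l236 (L l390 (T t548 N))))))))))⟩
def e0_63_48__192_42_26 : Ent 4 := ⟨[a0, a63, a48], [a192, a42, a43], (M a255 (L l22 (F (T t1260 (L l54 (L l268 (T t1160 (L l28 (L l236 (L l390 (T t548 (K a40 (M a41 (F (T t557 (L l236 (L l390 (L l392 (T t1162 (L l54 (L l236 (T t513 N)))))))))) (K a41 (M a40 (F (T t8669 (L l228 (L l391 (T t8779 N)))))) N)))))))))))))⟩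
def e0_63_48__192_42_27 : Ent 4 := ⟨[a0, a63, a48], [a192, a42, a47], (M a255 (L l28 (F (T t1260 (L l54 (L l268 (T t1160 (L l236 (L l390 (T t3728 (K a32 (M a37 (F (L l54 (T t290 (L l268 (T t546 (L l390 (L l404 (T t8780 N))))))))) (K a37 (Fr a32 a16 l40 (V t8777)) N))))))))))))⟩
def e0_63_48__192_42_28 : Ent 4 := ⟨[a0, a63, a48], [a192, a42, a49], (M a255 (F (L l268 (T t511 (L l236 (L l437 (T t547 (L l28 (L l35 (L l236 (L l390 (T t548 N))))))))))))⟩
def e0_63_48__192_42_29 : Ent 4 := ⟨[a0, a63, a48], [a192, a42, a50], (M a255 (F (T t1260 (L l36 (L l54 (L l268 (L l438 (T t1160 (L l28 (L l236 (L l390 (T t548 N))))))))))))⟩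
def e0_63_48__192_42_30 : Ent 4 := ⟨[a0, a63, a48], [a192, a42, a51], (M a255 (L l489 (F (T t1260 (L l54 (L l268 (L l417 (T t1160 (L l28 (L l236 (L l390 (T t548 (K a145 (M a98 (F (T t557 (L l236 (L l390 (L l511 (T t1162 (L l28 (L l236 (L l390 (T t548 N))))))))))) (K a98 (M a145 (F (T t557 (L l236 (L l390 (L l511 (T t1162 (L l28 (L l236 (L l390 (T t548 N))))))))))) N))))))))))))))⟩
def e0_63_48__192_42_31 : Ent 4 := ⟨[a0, a63, a48], [a192, a42, a53], (M a152 (F (L l292 (T t4703 (L l28 (L l47 (T t8530 (L l28 (L l292 (T t7688 (L l232 (T t4706 (K a16 (M a252 (F (T t8781 (L l339 (T t8782 N))))) (K a32 (M a12 (L l28 (F (L l232 (T t8533 (L l296 (L l400 (T t8534 (L l24 (T t8535 (K a37 (M a47 (L l47 (F (L l232 (T t8533 (L l66 (L l71 (T t4019 (K a5 (M a21 (F (L l26 (L l56 (T t8783 (L l232 (T t8533 N))))))) (K a21 (M a5 (F (T t8446 (L l21 (L l24 (T t8536 N)))))) N)))))))))) (K a47 (M a37 (F (L l24 (T t8536 (L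 l54 (L l66 (L l309 (T t8537 N)))))))) N)))))))))))) (K a84 (M a12 (F (L l514 (T t445 (L l122 (L l296 (T t8534 N))))))) (K a100 (M a24 (F (L l334 (T t8784 (L l28 (L l122 (L l268 (L l400 (T t8785 (L l382 (T t8786 (L l28 (L l56 (L l382 (L l400 (T t8787 N)))))))))))))))) (K a168 (Fr a16 a32 l40 (Fr a220 a84 l364 (Fr a204 a100 l508 (Fr a236 a252 l286 (V t8570))))) (K a204 (M a88 (L l232 (F (L l28 (L l292 (T t8788 (L l298 (L l322 (L l334 (T t8789 (L l298 (T t8790 (L l28 (L l286 (T t8791 (K a196 (M a200 (F (T t8792 (L l28 (L l286 (T t8791 N)))))) (K a200 (M a196 (F (L l28 (L l292 (T t8793 (L l280 (L l298 (L l322 (L l334 (T t8789 (L l28 (L l286 (T t8791 (L l280 (L l298 (T t8794 N)))))))))))))))) N))))))))))))))))) (K a220 (Fr a32 a16 l40 (Fr a100 a204 l508 (Fr a168 a236 l400 (Fr a252 a84 l472 (V t8571))))) N)))))))))))))))))))⟩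
def e0_63_48__192_42_32 : Ent 4 := ⟨[a0, a63, a48], [a192, a42, a54], (M a255 (F (T t1260 (L l36 (L l54 (L l268 (T t1160 (L l28 (L l31 (L l236 (L l390 (T t548 N))))))))))))⟩
def e0_63_48__192_42_33 : Ent 4 := ⟨[a0, a63, a48], [a192, a42, a55], (M a255 (F (T t1260 (L l54 (L l268 (T t1160 (L l28 (L l31 (L l236 (L l390 (T t548 N)))))))))))⟩
def e0_63_48__192_42_34 : Ent 4 := ⟨[a0, a63, a48], [a192, a42, a58], (M a152 (L l54 (F (L l292 (T t4703 (L l28 (T t8530 (L l28 (L l292 (T t7688 (L l232 (T t4706 (K a16 (M a252 (L l54 (F (T t8781 (L l339 (T t8782 (K a10 (M a26 (F (T t8781 (L l28 (L l232 (T t8795 N)))))) (K a26 (M a10 (L l18 (F (T t8781 (L l232 (T t8796 (K a21 (M a31 (F (T t8401 (T t8797 N)))) (K a31 (M a21 (F (T t8797 (L l339 (L l363 (T t8782 N)))))) N)))))))) N)))))))) (K a32 (M a12 (L l28 (L l54 (F (L l232 (T t8533 (L l296 (L l400 (T t8534 (L l24 (T t8535 (K a37 (M a47 (L l54 (F (L l232 (T t8533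 (L l36 (L l66 (L l71 (T t4019 (K a10 (M a26 (F (L l232 (T t8533 (L l36 (L l66 (L l71 (T t4019 N)))))))) (K a26 (M a10 (F (T t8513 (L l21 (L l24 (T t8536 N)))))) N))))))))))) (K a10 (M a26 (L l28 (F (L l56 (L l339 (T t8515 (L l296 (L l400 (T t8798 (K a37 (M a47 (F (L l232 (T t8533 (L l36 (L l66 (L l71 (T t4019 N)))))))) (K a47 (Fr a37 a15 l75 (V t8439)) N))))))))))) (K a26 (M a10 (L l28 (F (L l24 (T t8536 (L l57 (L l339 (T t2611 (K a37 (M a47 (F (T t8513 (L l21 (L l24 (T t8536 N)))))) (K a47 (M a37 (F (L l24 (T t8536 (L l57 (L l339 (T t2611 N))))))) N)))))))))) (K a47 (M a37 (L l54 (F (L l27 (L l56 (T t8799 (L l296 (L l400 (T t8534 (K a10 (Fr a26 a15 l75 (V t8439)) (K a26 (M a10 (F (L l24 (T t8536 (L l57 (L l339 (T t2611 N))))))) N))))))))))) N))))))))))))))) (K a84 (M a12 (L l54 (F (L l514 (T t445 (L l122 (L l296 (T t8534 (K a10 (M a26 (F (L l28 (T t4144 (L l122 (L l268 (T t8800 N))))))) (K a26 (M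 a10 (F (L l268 (T t8801 (L l56 (L l72 (L l339 (T t2913 N)))))))) N)))))))))) (K a100 (M a12 (L l54 (F (L l514 (T t445 (L l28 (L l56 (L l400 (T t8802 (L l28 (L l382 (L l400 (T t8803 (L l382 (T t8535 (K a10 (M a26 (F (L l28 (L l514 (T t8804 (L l382 (T t8535 N))))))) (K a26 (M a10 (F (L l66 (T t2604 (L l28 (L l382 (L l400 (T t8803 N)))))))) N))))))))))))))))) (K a168 (Fr a16 a32 l40 (Fr a220 a84 l364 (Fr a204 a100 l508 (Fr a236 a252 l286 (V t8570))))) (K a204 (M a24 (L l54 (L l232 (F (L l28 (T t5100 (L l298 (T t8805 (L l28 (L l298 (L l514 (T t8806 (L l298 (T t8786 (K a196 (M a200 (L l54 (F (L l322 (L l334 (T t8784 (L l28 (L l268 (L l298 (T t8785 (L l22 (L l298 (L l514 (T t8807 (K a10 (M a26 (F (L l28 (T t4144 (L l22 (L l298 (L l514 (T t8807 N)))))))) (K a26 (M a10 (F (L l28 (T t8808 (L l66 (L l309 (L l333 (T t8809 N)))))))) N)))))))))))))))) (K a200 (M a196 (L l54 (F (L l28 (T t5100 (L l280 (L l298 (T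 t8805 (L l28 (L l268 (L l280 (L l298 (T t8785 (L l280 (L l298 (T t8810 (K a10 (M a26 (F (L l28 (T t4144 (L l26 (L l327 (L l339 (T t8811 (L l32 (L l502 (L l514 (T t6274 N)))))))))))) (K a26 (M a10 (F (L l28 (T t8808 (L l66 (L l309 (L l333 (T t8809 N)))))))) N)))))))))))))))))) (K a10 (M a26 (L l232 (F (L l28 (T t4144 (L l298 (T t8786 (K a196 (M a200 (F (L l28 (T t4144 (L l22 (L l298 (L l514 (T t8807 N)))))))) (K a200 (M a196 (F (L l28 (T t4144 (L l26 (L l327 (L l339 (T t8811 (L l32 (L l502 (L l514 (T t6274 N)))))))))))) N))))))))) (K a26 (M a10 (L l232 (F (L l28 (T t8808 (L l56 (L l327 (L l339 (T t8812 (K a196 (M a200 (F (L l28 (T t8808 (L l66 (L l309 (L l333 (T t8809 N)))))))) (K a200 (M a196 (F (L l28 (T t8808 (L l66 (L l309 (L l333 (T t8809 N)))))))) N))))))))))) N)))))))))))))))))) (K a220 (Fr a32 a16 l40 (Fr a100 a204 l508 (Fr a168 a236 l400 (Fr a252 a84 l472 (V t8571))))) (K a10 (M a26 (F (L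 l28 (T t4144 (L l292 (T t4703 (L l28 (L l292 (T t8813 (K a32 (Fr a204 a100 l508 (Fr a15 a37 l75 (Fr a47 a31 l61 (V t8860)))) N)))))))))) (K a26 (M a10 (F (L l28 (T t4707 (L l292 (T t8815 (L l18 (L l232 (T t8816 (L l28 (T t8817 (K a100 (M a80 (F (T t8818 (L l28 (L l400 (L l490 (L l514 (T t8819 N)))))))) (K a204 (M a80 (L l232 (F (T t8818 (L l28 (L l286 (L l514 (T t8819 (K a196 (M a200 (F (T t8818 (L l56 (L l322 (L l334 (L l490 (L l514 (T t8820 N))))))))) (K a200 (M a196 (F (T t8818 (L l28 (L l286 (L l514 (T t8819 N))))))) N)))))))))) (K a220 (Fr a32 a16 l40 (Fr a100 a204 l508 (Fr a168 a236 l400 (Fr a252 a84 l472 (V t8571))))) N)))))))))))))) N)))))))))))))))))))))⟩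
def e0_63_48__192_42_35 : Ent 4 := ⟨[a0, a63, a48], [a192, a42, a59], (M a255 (L l56 (F (T t1260 (L l32 (L l54 (L l268 (T t1160 (L l28 (L l236 (L l390 (T t548 (K a8 (M a25 (F (T t557 (L l236 (L l390 (L l464 (T t1162 (L l32 (L l54 (L l236 (T t513 N))))))))))) (K a25 (M a8 (F (T t8588 (L l268 (T t546 N))))) N))))))))))))))⟩
def e0_63_48__192_42_36 : Ent 4 := ⟨[a0, a63, a48], [a192, a42, a64], (M a255 (F (L l268 (T t1169 (L l28 (L l236 (L l390 (T t512 (L l54 (L l144 (L l236 (T t513 N))))))))))))⟩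
def e0_63_48__192_42_37 : Ent 4 := ⟨[a0, a63, a48], [a192, a42, a65], (M a255 (F (T t557 (L l141 (L l236 (T t547 (L l28 (L l236 (L l390 (T t548 N))))))))))⟩
def e0_63_48__192_42_38 : Ent 4 := ⟨[a0, a63, a48], [a192, a42, a66], (M a255 (L l309 (F (T t1260 (L l54 (L l268 (T t1160 (L l28 (L l236 (L l390 (T t548 (K a129 (M a3 (F (T t8690 (L l236 (T t547 N))))) (K a3 (M a129 (F (T t557 (L l236 (L l331 (L l390 (T t1162 (L l28 (L l236 (L l390 (T t548 N))))))))))) N)))))))))))))⟩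
def e0_63_48__192_42_39 : Ent 4 := ⟨[a0, a63, a48], [a192, a42, a67], (M a255 (F (T t1260 (L l54 (L l268 (T t1160 (L l28 (L l236 (L l390 (T t548 N))))))))))⟩
def e0_63_48__192_42_40 : Ent 4 := ⟨[a0, a63, a48], [a192, a42, a69], (M a255 (F (L l268 (T t511 (L l123 (L l236 (T t1193 (L l28 (L l236 (L l390 (T t548 N)))))))))))⟩
def e0_63_48__192_42_41 : Ent 4 := ⟨[a0, a63, a48], [a192, a42, a70], (M a255 (F (T t8682 (L l54 (L l268 (T t1160 (L l28 (L l236 (L l390 (T t548 N))))))))))⟩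
def e0_63_48__192_42_42 : Ent 4 := ⟨[a0, a63, a48], [a192, a42, a71], (M a255 (F (T t1260 (L l54 (L l268 (T t1160 (L l28 (L l236 (L l390 (T t548 N))))))))))⟩
def e0_63_48__192_42_43 : Ent 4 := ⟨[a0, a63, a48], [a192, a42, a74], (M a255 (L l339 (F (T t8682 (L l54 (L l268 (T t1160 (L l28 (L l236 (L l318 (L l390 (T t548 (K a133 (M a15 (F (T t8669 (L l28 (L l390 (T t8821 N)))))) (K a15 (M a133 (F (T t8682 (L l268 (L l483 (T t546 (L l28 (L l236 (L l318 (L l390 (T t548 N))))))))))) N))))))))))))))⟩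
def e0_63_48__192_42_44 : Ent 4 := ⟨[a0, a63, a48], [a192, a42, a75], (M a255 (F (T t1260 (L l54 (L l268 (T t1160 (L l28 (L l236 (L l390 (T t548 N))))))))))⟩
def e0_63_48__192_42_45 : Ent 4 := ⟨[a0, a63, a48], [a192, a42, a79], (M a255 (F (T t1260 (L l54 (L l268 (T t1160 (L l28 (L l236 (L l390 (T t548 N))))))))))⟩
def e0_63_48__192_42_46 : Ent 4 := ⟨[a0, a63, a48], [a192, a42, a80], (M a255 (F (T t8669 (L l94 (L l236 (T t547 (L l28 (L l236 (L l390 (T t548 N))))))))))⟩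
def e0_63_48__192_42_47 : Ent 4 := ⟨[a0, a63, a48], [a192, a42, a81], (M a255 (F (T t8669 (L l91 (L l236 (T t547 (L l28 (L l236 (L l390 (T t548 N))))))))))⟩
def e0_63_48__192_42_48 : Ent 4 := ⟨[a0, a63, a48], [a192, a42, a82], (M a255 (F (T t1260 (L l54 (L l268 (L l453 (T t1160 (L l28 (L l236 (L l390 (T t548 N)))))))))))⟩
def e0_63_48__192_42_49 : Ent 4 := ⟨[a0, a63, a48], [a192, a42, a83], (M a255 (F (T t1260 (L l54 (L l268 (T t1160 (L l28 (L l236 (L l390 (T t548 N))))))))))⟩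
def e0_63_48__192_42_50 : Ent 4 := ⟨[a0, a63, a48], [a192, a42, a85], (M a60 (F (T t236 (L l22 (L l334 (L l458 (T t247 (L l56 (L l334 (L l350 (L l368 (T t288 (L l22 (L l28 (L l54 (L l66 (L l334 (L l458 (T t5102 N)))))))))))))))))))⟩
def e0_63_48__192_42_51 : Ent 4 := ⟨[a0, a63, a48], [a192, a42, a86], (M a255 (F (T t557 (L l87 (L l236 (T t547 (L l28 (L l236 (L l390 (L l474 (T t548 N)))))))))))⟩
def e0_63_48__192_42_52 : Ent 4 := ⟨[a0, a63, a48], [a192, a42, a87], (M a255 (F (L l268 (T t1169 (L l87 (L l236 (T t547 (L l28 (L l236 (L l367 (L l390 (T t548 N))))))))))))⟩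
def e0_63_48__192_42_53 : Ent 4 := ⟨[a0, a63, a48], [a192, a42, a90], (M a255 (F (T t557 (L l94 (L l236 (T t547 (L l28 (L l236 (L l390 (L l462 (T t548 N)))))))))))⟩
def e0_63_48__192_42_54 : Ent 4 := ⟨[a0, a63, a48], [a192, a42, a91], (M a255 (F (T t1260 (L l54 (L l268 (T t1160 (L l28 (L l236 (L l390 (T t548 N))))))))))⟩
def e0_63_48__192_42_55 : Ent 4 := ⟨[a0, a63, a48], [a192, a42, a95], (M a255 (F (L l268 (T t1169 (L l94 (L l236 (T t547 (L l28 (L l236 (L l361 (L l390 (T t548 N))))))))))))⟩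
def e0_63_48__192_42_56 : Ent 4 := ⟨[a0, a63, a48], [a192, a42, a96], (M a255 (F (T t1260 (L l54 (L l268 (T t1160 (L l28 (L l236 (L l376 (L l390 (T t548 N)))))))))))⟩
def e0_63_48__192_42_57 : Ent 4 := ⟨[a0, a63, a48], [a192, a42, a97], (M a255 (F (T t1260 (L l54 (L l268 (T t1160 (L l28 (L l236 (L l380 (L l390 (T t548 N)))))))))))⟩
def e0_63_48__192_42_58 : Ent 4 := ⟨[a0, a63, a48], [a192, a42, a98], (M a255 (L l489 (F (T t1260 (L l54 (L l268 (T t1160 (L l28 (L l236 (L l390 (T t548 (K a145 (M a51 (F (T t1260 (L l272 (T t8822 N))))) (K a51 (M a145 (F (T t557 (L l236 (L l390 (L l511 (T t1162 (L l28 (L l236 (L l390 (T t548 N))))))))))) N)))))))))))))⟩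
def e0_63_48__192_42_59 : Ent 4 := ⟨[a0, a63, a48], [a192, a42, a99], (M a255 (F (T t1260 (L l54 (L l268 (T t1160 (L l28 (L l236 (L l390 (T t548 N))))))))))⟩
def e0_63_48__192_42_60 : Ent 4 := ⟨[a0, a63, a48], [a192, a42, a101], (M a60 (F (L l334 (T t880 (L l489 (L l491 (T t64 (L l56 (L l334 (L l491 (T t8481 (L l22 (L l28 (L l54 (L l66 (L l404 (L l489 (L l509 (T t8482 N)))))))))))))))))))⟩
def e0_63_48__192_42_61 : Ent 4 := ⟨[a0, a63, a48], [a192, a42, a102], (M a255 (F (T t557 (L l126 (L l236 (T t547 (L l28 (L l236 (L l390 (L l402 (T t548 N)))))))))))⟩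
def e0_63_48__192_42_62 : Ent 4 := ⟨[a0, a63, a48], [a192, a42, a103], (M a255 (F (T t1260 (L l54 (L l268 (T t1160 (L l28 (L l236 (L l390 (T t548 N))))))))))⟩
def e0_63_48__192_42_63 : Ent 4 := ⟨[a0, a63, a48], [a192, a42, a106], (M a60 (L l390 (F (T t3520 (L l489 (T t64 (L l56 (L l334 (T t8375 (L l22 (L l28 (L l54 (L l66 (L l334 (L l498 (L l516 (T t250 (K a170 (M a234 (F (T t236 (L l334 (T t880 (L l56 (L l334 (L l464 (T t8375 (L l22 (L l28 (L l54 (L l66 (L l334 (L l392 (L l404 (L l498 (L l516 (T t250 N))))))))))))))))))) (K a234 (M a170 (L l296 (F (T t3520 (L l144 (L l292 (T t1570 (K a213 (Fr a255 a85 l476 (V t8823)) (K a255 (M a213 (F (T t236 (L l250 (L l256 (L l289 (L l295 (T t8370 N)))))))) N))))))))) N)))))))))))))))))))⟩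
def e0_63_48__192_42_64 : Ent 4 := ⟨[a0, a63, a48], [a192, a42, a107], (M a255 (F (T t1260 (L l54 (L l268 (T t1160 (L l28 (L l236 (L l390 (T t548 N))))))))))⟩
def e0_63_48__192_42_65 : Ent 4 := ⟨[a0, a63, a48], [a192, a42, a111], (M a255 (F (T t1260 (L l54 (L l268 (T t1160 (L l28 (L l236 (L l390 (T t548 N))))))))))⟩
def e0_63_48__192_42_66 : Ent 4 := ⟨[a0, a63, a48], [a192, a42, a112], (M a255 (F (L l236 (T t1193 (L l114 (L l268 (T t1169 (L l28 (L l236 (L l390 (T t548 N)))))))))))⟩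
def e0_63_48__192_42_67 : Ent 4 := ⟨[a0, a63, a48], [a192, a42, a113], (M a255 (F (L l236 (T t1193 (L l54 (L l268 (T t1160 (L l28 (L l236 (L l390 (T t548 N)))))))))))⟩
def e0_63_48__192_42_68 : Ent 4 := ⟨[a0, a63, a48], [a192, a42, a114], (M a255 (F (T t1260 (L l54 (L l268 (L l417 (T t1160 (L l28 (L l236 (L l390 (T t548 N)))))))))))⟩
def e0_63_48__192_42_69 : Ent 4 := ⟨[a0, a63, a48], [a192, a42, a115], (M a255 (F (T t1260 (L l54 (L l268 (T t1160 (L l28 (L l236 (L l390 (T t548 N))))))))))⟩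
def e0_63_48__192_42_70 : Ent 4 := ⟨[a0, a63, a48], [a192, a42, a117], (M a60 (F (L l334 (T t880 (L l419 (L l489 (T t64 (L l56 (L l334 (L l419 (T t288 (L l22 (L l28 (L l54 (L l66 (L l334 (L l437 (T t250 N))))))))))))))))))⟩
def e0_63_48__192_42_71 : Ent 4 := ⟨[a0, a63, a48], [a192, a42, a118], (M a255 (F (L l236 (T t1193 (L l54 (L l268 (L l438 (T t1160 (L l28 (L l236 (L l390 (T t548 N))))))))))))⟩
def e0_63_48__192_42_72 : Ent 4 := ⟨[a0, a63, a48], [a192, a42, a119], (M a255 (F (L l268 (T t511 (L l107 (L l126 (L l236 (T t547 (L l28 (L l236 (L l390 (T t548 N))))))))))))⟩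
def e0_63_48__192_42_73 : Ent 4 := ⟨[a0, a63, a48], [a192, a42, a122], (M a60 (F (T t3520 (L l489 (T t64 (L l56 (L l334 (T t8375 (L l22 (L l28 (L l54 (L l66 (L l334 (L l426 (L l444 (T t250 N))))))))))))))))⟩
def e0_63_48__192_42_74 : Ent 4 := ⟨[a0, a63, a48], [a192, a42, a123], (M a255 (F (T t1260 (L l54 (L l268 (T t1160 (L l28 (L l236 (L l390 (T t548 N))))))))))⟩
def e0_63_48__192_42_75 : Ent 4 := ⟨[a0, a63, a48], [a192, a42, a127], (M a60 (F (T t3520 (L l489 (T t64 (L l56 (L l334 (T t288 (L l22 (L l28 (L l54 (L l66 (L l334 (T t250 N))))))))))))))⟩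
def e0_63_48__192_42_76 : Ent 4 := ⟨[a0, a63, a48], [a192, a42, a128], (M a255 (F (T t8682 (L l54 (L l268 (T t1160 (L l28 (L l220 (L l236 (L l390 (T t548 N)))))))))))⟩
def e0_63_48__192_42_77 : Ent 4 := ⟨[a0, a63, a48], [a192, a42, a129], (M a255 (L l309 (F (T t1260 (L l54 (L l268 (T t1160 (L l28 (L l236 (L l390 (T t548 (K a66 (M a3 (F (T t8690 (L l236 (T t547 N))))) (K a3 (M a66 (F (T t557 (L l236 (L l331 (L l390 (T t1162 (L l28 (L l236 (L l390 (T t548 N))))))))))) N)))))))))))))⟩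
def e0_63_48__192_42_78 : Ent 4 := ⟨[a0, a63, a48], [a192, a42, a130], (M a255 (F (T t8682 (L l54 (L l268 (T t1160 (L l28 (L l218 (L l236 (L l390 (T t548 N)))))))))))⟩
def e0_63_48__192_42_79 : Ent 4 := ⟨[a0, a63, a48], [a192, a42, a131], (M a255 (F (T t1260 (L l54 (L l268 (T t1160 (L l28 (L l236 (L l390 (T t548 N))))))))))⟩
def e0_63_48__192_42_80 : Ent 4 := ⟨[a0, a63, a48], [a192, a42, a133], (M a255 (L l339 (F (T t8682 (L l54 (L l268 (T t1160 (L l28 (L l236 (L l390 (T t548 (K a74 (M a15 (F (T t8669 (L l28 (L l390 (T t8821 N)))))) (K a15 (M a74 (F (T t557 (L l236 (L l311 (L l325 (L l390 (T t1162 (L l28 (L l236 (L l390 (T t548 N)))))))))))) N)))))))))))))⟩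
def e0_63_48__192_42_81 : Ent 4 := ⟨[a0, a63, a48], [a192, a42, a134], (M a255 (F (T t8682 (L l54 (L l268 (T t1160 (L l28 (L l236 (L l390 (T t548 N))))))))))⟩
def e0_63_48__192_42_82 : Ent 4 := ⟨[a0, a63, a48], [a192, a42, a135], (M a255 (F (T t1260 (L l54 (L l268 (T t1160 (L l28 (L l236 (L l390 (T t548 N))))))))))⟩
def e0_63_48__192_42_83 : Ent 4 := ⟨[a0, a63, a48], [a192, a42, a138], (M a255 (F (T t8669 (L l28 (L l206 (L l236 (L l390 (T t512 (L l54 (L l160 (L l236 (T t3730 N))))))))))))⟩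
def e0_63_48__192_42_84 : Ent 4 := ⟨[a0, a63, a48], [a192, a42, a139], (M a255 (F (T t8682 (L l54 (L l268 (T t1160 (L l28 (L l236 (L l390 (T t548 N))))))))))⟩
def e0_63_48__192_42_85 : Ent 4 := ⟨[a0, a63, a48], [a192, a42, a143], (M a255 (F (T t8682 (L l54 (L l268 (T t1160 (L l28 (L l236 (L l390 (T t548 N))))))))))⟩
def e0_63_48__192_42_86 : Ent 4 := ⟨[a0, a63, a48], [a192, a42, a144], (M a255 (F (T t8669 (L l236 (T t547 (L l28 (L l236 (L l390 (T t548 N)))))))))⟩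
def e0_63_48__192_42_87 : Ent 4 := ⟨[a0, a63, a48], [a192, a42, a145], (M a255 (L l489 (F (T t1260 (L l54 (L l268 (T t1160 (L l28 (L l236 (L l390 (T t548 (K a98 (M a51 (F (T t1260 (L l272 (T t8822 N))))) (K a51 (M a98 (F (T t557 (L l236 (L l390 (L l511 (T t1162 (L l28 (L l236 (L l390 (T t548 N))))))))))) N)))))))))))))⟩
def e0_63_48__192_42_88 : Ent 4 := ⟨[a0, a63, a48], [a192, a42, a146], (M a255 (F (T t8669 (L l236 (T t547 (L l28 (L l236 (L l390 (T t548 N)))))))))⟩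
def e0_63_48__192_42_89 : Ent 4 := ⟨[a0, a63, a48], [a192, a42, a147], (M a255 (F (T t1260 (L l54 (L l268 (T t1160 (L l28 (L l236 (L l390 (T t548 N))))))))))⟩
def e0_63_48__192_42_90 : Ent 4 := ⟨[a0, a63, a48], [a192, a42, a149], (M a255 (F (L l268 (T t546 (L l236 (L l347 (T t547 (L l28 (L l220 (L l236 (L l390 (L l491 (T t548 N)))))))))))))⟩
def e0_63_48__192_42_91 : Ent 4 := ⟨[a0, a63, a48], [a192, a42, a150], (M a255 (F (T t557 (L l236 (L l350 (T t547 (L l28 (L l218 (L l236 (L l390 (T t548 N)))))))))))⟩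
def e0_63_48__192_42_92 : Ent 4 := ⟨[a0, a63, a48], [a192, a42, a151], (M a255 (F (T t1260 (L l54 (L l268 (T t1160 (L l28 (L l236 (L l390 (T t548 N))))))))))⟩
def e0_63_48__192_42_93 : Ent 4 := ⟨[a0, a63, a48], [a192, a42, a154], (M a60 (F (L l368 (T t3520 (L l489 (L l510 (T t64 (L l56 (L l368 (L l489 (L l510 (T t8486 (L l22 (L l28 (L l54 (L l66 (L l334 (L l498 (T t8487 N)))))))))))))))))))⟩
def e0_63_48__192_42_94 : Ent 4 := ⟨[a0, a63, a48], [a192, a42, a155], (M a255 (F (T t1260 (L l54 (L l268 (T t1160 (L l28 (L l236 (L l367 (L l390 (T t548 N)))))))))))⟩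
def e0_63_48__192_42_95 : Ent 4 := ⟨[a0, a63, a48], [a192, a42, a159], (M a255 (F (T t1260 (L l54 (L l268 (T t1160 (L l28 (L l236 (L l361 (L l390 (T t548 N)))))))))))⟩
def e0_63_48__192_42_96 : Ent 4 := ⟨[a0, a63, a48], [a192, a42, a160], (M a255 (F (T t1260 (L l54 (L l268 (T t1160 (L l28 (L l180 (L l236 (L l376 (L l390 (T t548 N))))))))))))⟩
def e0_63_48__192_42_97 : Ent 4 := ⟨[a0, a63, a48], [a192, a42, a161], (M a255 (F (T t1260 (L l54 (L l268 (L l453 (T t1160 (L l28 (L l236 (L l390 (T t548 N)))))))))))⟩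
def e0_63_48__192_42_98 : Ent 4 := ⟨[a0, a63, a48], [a192, a42, a162], (M a255 (F (T t1260 (L l54 (L l268 (T t1160 (L l28 (L l178 (L l236 (L l380 (L l390 (T t548 N))))))))))))⟩
def e0_63_48__192_42_99 : Ent 4 := ⟨[a0, a63, a48], [a192, a42, a163], (M a255 (F (T t1260 (L l54 (L l268 (T t1160 (L l28 (L l236 (L l390 (T t548 N))))))))))⟩
def e0_63_48__192_42_100 : Ent 4 := ⟨[a0, a63, a48], [a192, a42, a165], (M a255 (F (T t8669 (L l28 (L l180 (L l236 (L l390 (T t512 (L l28 (L l180 (L l236 (L l390 (T t548 N)))))))))))))⟩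
def e0_63_48__192_42_101 : Ent 4 := ⟨[a0, a63, a48], [a192, a42, a166], (M a255 (F (T t557 (L l236 (L l458 (T t547 (L l28 (L l178 (L l236 (L l390 (T t548 N)))))))))))⟩
def e0_63_48__192_42_102 : Ent 4 := ⟨[a0, a63, a48], [a192, a42, a167], (M a255 (F (T t1260 (L l54 (L l268 (T t1160 (L l28 (L l236 (L l390 (T t548 N))))))))))⟩
def e0_63_48__192_42_103 : Ent 4 := ⟨[a0, a63, a48], [a192, a42, a170], (M a60 (L l390 (F (T t3520 (L l489 (T t64 (L l56 (L l334 (L l464 (T t8385 (L l22 (L l28 (L l54 (L l66 (L l334 (L l392 (L l404 (T t250 (K a106 (M a234 (F (T t236 (L l334 (T t880 (L l56 (L l334 (L l464 (T t8375 (L l22 (L l28 (L l54 (L l66 (L l334 (L l392 (L l404 (L l498 (L l516 (T t250 N))))))))))))))))))) (K a234 (M a106 (L l296 (F (T t3520 (L l228 (L l236 (L l282 (L l294 (T t8363 (K a213 (M a255 (F (T t8824 (L l220 (L l228 (L l294 (T t8825 N))))))) (K a255 (M a213 (F (T t3520 (L l228 (L l236 (L l282 (L l294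 (T t8363 N)))))))) N))))))))))) N))))))))))))))))))))⟩
def e0_63_48__192_42_104 : Ent 4 := ⟨[a0, a63, a48], [a192, a42, a171], (M a255 (F (T t1260 (L l54 (L l268 (T t1160 (L l28 (L l174 (L l236 (L l390 (T t548 N)))))))))))⟩
def e0_63_48__192_42_105 : Ent 4 := ⟨[a0, a63, a48], [a192, a42, a175], (M a255 (F (T t1260 (L l54 (L l268 (T t1160 (L l28 (L l180 (L l236 (L l390 (T t548 N)))))))))))⟩
def e0_63_48__192_42_106 : Ent 4 := ⟨[a0, a63, a48], [a192, a42, a176], (M a255 (F (T t8682 (L l54 (L l190 (L l268 (T t1160 (L l28 (L l236 (L l390 (T t548 N)))))))))))⟩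
def e0_63_48__192_42_107 : Ent 4 := ⟨[a0, a63, a48], [a192, a42, a177], (M a255 (F (T t1260 (L l54 (L l268 (L l417 (T t1160 (L l28 (L l236 (L l390 (T t548 N)))))))))))⟩
def e0_63_48__192_42_108 : Ent 4 := ⟨[a0, a63, a48], [a192, a42, a178], (M a255 (F (T t1260 (L l54 (L l188 (L l268 (T t1160 (L l28 (L l236 (L l390 (T t548 N)))))))))))⟩
def e0_63_48__192_42_109 : Ent 4 := ⟨[a0, a63, a48], [a192, a42, a179], (M a255 (F (T t1260 (L l54 (L l268 (T t1160 (L l28 (L l236 (L l390 (T t548 N))))))))))⟩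
def e0_63_48__192_42_110 : Ent 4 := ⟨[a0, a63, a48], [a192, a42, a181], (M a60 (F (T t3520 (L l419 (L l443 (L l489 (T t64 (L l56 (L l334 (L l419 (L l443 (T t288 (L l22 (L l28 (L l54 (L l66 (L l334 (T t250 N))))))))))))))))))⟩
def e0_63_48__192_42_111 : Ent 4 := ⟨[a0, a63, a48], [a192, a42, a182], (M a255 (F (L l236 (T t1193 (L l54 (L l188 (L l268 (T t1160 (L l28 (L l236 (L l390 (T t548 N))))))))))))⟩
def e0_63_48__192_42_112 : Ent 4 := ⟨[a0, a63, a48], [a192, a42, a183], (M a255 (F (T t1260 (L l54 (L l268 (T t1160 (L l28 (L l236 (L l390 (T t548 N))))))))))⟩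
def e0_63_48__192_42_113 : Ent 4 := ⟨[a0, a63, a48], [a192, a42, a186], (M a60 (F (T t3520 (L l438 (L l489 (T t64 (L l56 (L l334 (L l438 (T t288 (L l22 (L l28 (L l54 (L l66 (L l334 (L l426 (T t250 N)))))))))))))))))⟩
def e0_63_48__192_42_114 : Ent 4 := ⟨[a0, a63, a48], [a192, a42, a187], (M a255 (F (T t1260 (L l54 (L l184 (L l268 (T t1160 (L l28 (L l208 (L l236 (L l390 (T t548 N))))))))))))⟩
def e0_63_48__192_42_115 : Ent 4 := ⟨[a0, a63, a48], [a192, a42, a191], (M a60 (F (T t3520 (L l489 (T t64 (L l56 (L l334 (T t288 (L l22 (L l28 (L l54 (L l66 (L l334 (T t250 N))))))))))))))⟩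
def e0_63_48__192_42_116 : Ent 4 := ⟨[a0, a63, a48], [a192, a42, a193], (M a255 (L l228 (F (T t1260 (L l54 (L l268 (T t1160 (L l28 (L l236 (L l390 (T t548 (K a194 (M a195 (F (T t8826 (L l28 (L l236 (L l390 (T t512 N))))))) (K a195 (M a194 (F (T t557 (L l235 (L l236 (L l390 (T t1162 (L l28 (L l236 (L l390 (T t548 N))))))))))) N)))))))))))))⟩
def e0_63_48__192_42_117 : Ent 4 := ⟨[a0, a63, a48], [a192, a42, a194], (M a255 (L l228 (F (T t1260 (L l54 (L l268 (T t1160 (L l28 (L l234 (L l236 (L l390 (T t548 (K a193 (M a195 (F (T t8826 (L l28 (L l236 (L l390 (T t512 N))))))) (K a195 (M a193 (F (T t557 (L l235 (L l236 (L l390 (T t1162 (L l28 (L l234 (L l236 (L l390 (T t548 N)))))))))))) N))))))))))))))⟩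
def e0_63_48__192_42_118 : Ent 4 := ⟨[a0, a63, a48], [a192, a42, a195], (M a255 (L l228 (F (T t1260 (L l54 (L l268 (L l273 (T t1160 (L l28 (L l236 (L l390 (T t548 (K a193 (M a194 (F (T t557 (L l235 (L l236 (L l390 (T t1162 (L l28 (L l236 (L l390 (T t548 N))))))))))) (K a194 (M a193 (F (T t557 (L l235 (L l236 (L l390 (T t1162 (L l28 (L l234 (L l236 (L l390 (T t548 N)))))))))))) N))))))))))))))⟩
def e0_63_48__192_42_119 : Ent 4 := ⟨[a0, a63, a48], [a192, a42, a197], (M a255 (L l236 (F (T t8682 (L l54 (L l268 (L l275 (T t1160 (L l28 (L l390 (L l491 (T t8827 (K a202 (M a207 (F (T t8828 (L l339 (T t8829 N))))) (K a207 (M a202 (F (L l28 (L l390 (T t8830 (L l268 (L l303 (T t546 (L l28 (L l54 (L l390 (T t8831 (L l491 (T t8832 N)))))))))))))) N))))))))))))))⟩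
def e0_63_48__192_42_120 : Ent 4 := ⟨[a0, a63, a48], [a192, a42, a198], (M a255 (F (T t1260 (L l54 (L l268 (T t1160 (L l28 (L l234 (L l236 (L l390 (T t548 N)))))))))))⟩
def e0_63_48__192_42_121 : Ent 4 := ⟨[a0, a63, a48], [a192, a42, a199], (M a255 (F (T t1260 (L l54 (L l268 (T t1160 (L l28 (L l236 (L l390 (T t548 N))))))))))⟩
def e0_63_48__192_42_122 : Ent 4 := ⟨[a0, a63, a48], [a192, a42, a202], (M a255 (L l236 (F (T t8682 (L l268 (L l282 (T t1169 (L l54 (L l498 (T t8833 (K a197 (M a207 (F (T t8828 (L l339 (T t8829 N))))) (K a207 (M a197 (F (T t557 (T t8834 (L l390 (T t8835 (L l390 (T t8836 N)))))))) N))))))))))))⟩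
def e0_63_48__192_42_123 : Ent 4 := ⟨[a0, a63, a48], [a192, a42, a203], (M a255 (F (T t8682 (L l54 (L l268 (T t1160 (L l28 (L l230 (L l236 (L l390 (T t548 N)))))))))))⟩
def e0_63_48__192_42_124 : Ent 4 := ⟨[a0, a63, a48], [a192, a42, a207], (M a56 (L l236 (F (T t6620 (T t1445 (L l26 (L l28 (T t8837 (K a52 (M a60 (L l236 (F (L l31 (T t8838 (L l46 (T t8839 (K a197 (M a202 (F (L l46 (T t8839 (L l31 (L l491 (T t8838 N))))))) (K a202 (M a197 (F (L l31 (T t8838 (L l46 (T t8839 N)))))) N))))))))) (K a197 (M a202 (F (T t1445 (L l491 (T t6620 (L l28 (L l235 (L l289 (L l390 (L l491 (L l506 (L l514 (T t8840 (L l26 (L l28 (L l491 (T t8841 N))))))))))))))))) (K a202 (M a197 (F (T t1445 (T t6620 (L l54 (L l289 (L l498 (T t8842 N)))))))) N)))))))))))⟩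
def e0_63_48__192_42_125 : Ent 4 := ⟨[a0, a63, a48], [a192, a42, a208], (M a52 (L l268 (F (L l54 (L l489 (T t83 (L l22 (L l334 (T t82 (L l26 (L l28 (L l54 (L l56 (L l309 (L l345 (T t8843 (K a56 (M a60 (L l268 (F (L l32 (L l54 (L l489 (T t8844 (L l22 (L l52 (L l334 (T t7671 (K a224 (M a240 (F (L l424 (T t8845 (L l32 (L l54 (L l489 (T t8844 N)))))))) (K a240 (M a224 (F (L l32 (L l54 (L l66 (T t8846 (L l22 (L l52 (L l334 (L l478 (T t7671 N))))))))))) N))))))))))))) (K a224 (M a240 (F (T t8847 (L l22 (L l334 (T t82 N)))))) (K a240 (M a224 (F (L l54 (L l66 (T t555 (L l22 (L l334 (L l478 (T t82 (L l54 (L l56 (L l66 (L l340 (T t8848 (K a56 (M a60 (F (L l32 (L l54 (L l66 (T t8846 (L l22 (L l52 (L l334 (L l478 (T t7671 N))))))))))) N))))))))))))))) N)))))))))))))))))))⟩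
def e0_63_48__192_42_126 : Ent 4 := ⟨[a0, a63, a48], [a192, a42, a209], (M a255 (L l272 (F (T t1260 (L l54 (L l268 (T t1160 (L l28 (L l236 (L l390 (T t548 (K a226 (M a243 (F (T t8849 (L l334 (L l378 (L l390 (T t8850 N))))))) (K a243 (M a226 (F (T t557 (L l236 (L l301 (L l390 (T t1162 (L l28 (L l236 (L l390 (T t548 N))))))))))) N)))))))))))))⟩
def e0_63_48__192_42_127 : Ent 4 := ⟨[a0, a63, a48], [a192, a42, a210], (M a255 (F (T t1260 (L l54 (L l268 (L l273 (T t1160 (L l28 (L l236 (L l390 (T t548 N)))))))))))⟩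
def e0_63_48__192_42_128 : Ent 4 := ⟨[a0, a63, a48], [a192, a42, a211], (M a255 (F (T t557 (L l236 (T t547 (L l28 (L l236 (L l245 (L l390 (T t548 N))))))))))⟩
def e0_63_48__192_42_129 : Ent 4 := ⟨[a0, a63, a48], [a192, a42, a213], (M a255 (F (T t557 (L l236 (L l347 (T t547 (L l28 (L l236 (L l246 (L l390 (T t548 N)))))))))))⟩
def e0_63_48__192_42_130 : Ent 4 := ⟨[a0, a63, a48], [a192, a42, a214], (M a255 (F (T t1260 (L l54 (L l268 (T t1160 (L l28 (L l236 (L l390 (T t548 N))))))))))⟩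
def e0_63_48__192_42_131 : Ent 4 := ⟨[a0, a63, a48], [a192, a42, a215], (M a255 (F (T t557 (L l236 (L l350 (T t547 (L l28 (L l236 (L l245 (L l390 (T t548 N)))))))))))⟩
def e0_63_48__192_42_132 : Ent 4 := ⟨[a0, a63, a48], [a192, a42, a218], (M a255 (F (T t1260 (L l54 (T t554 (L l28 (L l236 (L l246 (L l282 (L l390 (T t548 N)))))))))))⟩
def e0_63_48__192_42_133 : Ent 4 := ⟨[a0, a63, a48], [a192, a42, a219], (M a255 (F (T t1260 (L l54 (L l268 (T t1160 (L l28 (L l236 (L l245 (L l390 (T t548 N)))))))))))⟩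
def e0_63_48__192_42_134 : Ent 4 := ⟨[a0, a63, a48], [a192, a42, a223], (M a255 (F (T t8669 (L l236 (L l368 (T t547 (L l54 (L l236 (L l368 (T t3730 N))))))))))⟩
def e0_63_48__192_42_135 : Ent 4 := ⟨[a0, a63, a48], [a192, a42, a224], (M a52 (L l268 (F (L l54 (L l489 (T t83 (L l22 (L l334 (T t82 (L l26 (L l28 (L l54 (L l56 (L l309 (L l376 (T t8843 (K a56 (M a60 (L l268 (F (L l32 (L l54 (L l489 (T t8844 (L l22 (L l52 (L l334 (T t7671 (K a208 (M a240 (F (L l424 (T t8845 (L l32 (L l54 (L l489 (T t8844 N)))))))) (K a240 (M a208 (F (L l32 (L l54 (L l66 (T t8846 (L l22 (L l52 (L l334 (L l478 (T t7671 N))))))))))) N))))))))))))) (K a208 (M a240 (F (T t8847 (L l22 (L l334 (T t82 N)))))) (K a240 (M a208 (F (L l54 (L l66 (T t555 (L l22 (L l334 (L l478 (T t82 (L l26 (L l28 (L l54 (L l56 (L l309 (L l376 (L l453 (T t8851 (K a56 (M a148 (F (L l28 (L l376 (T t8852 (L l32 (L l54 (T t8853 N)))))))) N))))))))))))))))))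 N)))))))))))))))))))⟩
def e0_63_48__192_42_136 : Ent 4 := ⟨[a0, a63, a48], [a192, a42, a225], (M a255 (F (T t1260 (L l54 (L l268 (L l273 (T t1160 (L l28 (L l236 (L l390 (T t548 N)))))))))))⟩
def e0_63_48__192_42_137 : Ent 4 := ⟨[a0, a63, a48], [a192, a42, a226], (M a255 (L l272 (F (T t1260 (L l54 (L l268 (T t1160 (L l28 (L l236 (L l390 (T t548 (K a209 (M a243 (F (T t8849 (L l334 (L l378 (L l390 (T t8850 N))))))) (K a243 (M a209 (F (T t557 (L l236 (L l301 (L l390 (T t1162 (L l28 (L l236 (L l390 (T t548 N))))))))))) N)))))))))))))⟩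
def e0_63_48__192_42_138 : Ent 4 := ⟨[a0, a63, a48], [a192, a42, a227], (M a255 (F (T t1260 (L l54 (L l268 (T t1160 (L l28 (L l236 (L l380 (L l390 (T t548 N)))))))))))⟩
def e0_63_48__192_42_139 : Ent 4 := ⟨[a0, a63, a48], [a192, a42, a229], (M a255 (F (T t1260 (L l54 (L l275 (T t554 (L l28 (L l236 (L l390 (T t548 N))))))))))⟩
def e0_63_48__192_42_140 : Ent 4 := ⟨[a0, a63, a48], [a192, a42, a230], (M a255 (F (T t1260 (L l54 (L l268 (T t1160 (L l28 (L l236 (L l390 (T t548 N))))))))))⟩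
def e0_63_48__192_42_141 : Ent 4 := ⟨[a0, a63, a48], [a192, a42, a231], (M a255 (F (T t1260 (L l54 (L l268 (T t1160 (L l28 (L l236 (L l390 (T t548 N))))))))))⟩
def e0_63_48__192_42_142 : Ent 4 := ⟨[a0, a63, a48], [a192, a42, a234], (M a255 (L l390 (F (T t1260 (L l54 (L l268 (T t1160 (L l54 (L l236 (T t3730 (K a106 (Fr a170 a85 l476 (V t8728)) (K a170 (M a106 (F (T t557 (L l28 (L l236 (L l282 (L l404 (T t8729 (L l206 (L l220 (T t8730 N))))))))))) N))))))))))))⟩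
def e0_63_48__192_42_143 : Ent 4 := ⟨[a0, a63, a48], [a192, a42, a235], (M a255 (F (T t1260 (L l54 (L l268 (T t1160 (L l28 (L l236 (L l390 (L l392 (T t548 N)))))))))))⟩
def e0_63_48__192_42_144 : Ent 4 := ⟨[a0, a63, a48], [a192, a42, a239], (M a255 (F (T t8669 (L l236 (L l390 (L l404 (T t1162 (L l236 (L l390 (L l404 (T t3728 N)))))))))))⟩
def e0_63_48__192_42_145 : Ent 4 := ⟨[a0, a63, a48], [a192, a42, a240], (M a60 (L l268 (F (T t3520 (L l417 (L l489 (T t64 (L l56 (L l334 (L l478 (T t288 (L l22 (L l28 (L l54 (L l66 (L l334 (L l478 (T t250 (K a208 (M a224 (F (T t236 (L l292 (L l340 (L l478 (T t8854 (K a52 (M a168 (F (T t8855 (L l22 (L l340 (T t8856 N)))))) N)))))))) (K a224 (M a208 (F (T t236 (L l22 (L l28 (L l292 (L l376 (L l478 (T t8857 (K a56 (M a84 (F (L l66 (T t2648 (L l28 (L l298 (L l376 (T t8858 N)))))))) N)))))))))) N))))))))))))))))))))⟩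
def e0_63_48__192_42_146 : Ent 4 := ⟨[a0, a63, a48], [a192, a42, a241], (M a255 (F (T t1260 (L l54 (L l258 (L l263 (L l268 (T t1160 (L l28 (L l236 (L l390 (T t548 N))))))))))))⟩
def e0_63_48__192_42_147 : Ent 4 := ⟨[a0, a63, a48], [a192, a42, a242], (M a255 (F (T t557 (L l236 (T t547 (L l28 (L l236 (L l390 (T t548 N)))))))))⟩
def e0_63_48__192_42_148 : Ent 4 := ⟨[a0, a63, a48], [a192, a42, a243], (M a255 (L l272 (F (T t1260 (L l54 (L l258 (L l268 (T t1160 (L l28 (L l236 (L l390 (T t548 (K a209 (M a226 (F (T t557 (L l236 (L l301 (L l390 (T t1162 (L l28 (L l236 (L l390 (T t548 N))))))))))) (K a226 (M a209 (F (T t557 (L l236 (L l301 (L l390 (T t1162 (L l28 (L l236 (L l390 (T t548 N))))))))))) N))))))))))))))⟩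
def e0_63_48__192_42_149 : Ent 4 := ⟨[a0, a63, a48], [a192, a42, a245], (M a255 (F (L l268 (L l419 (T t546 (L l236 (L l455 (T t1193 (L l54 (L l236 (L l275 (L l455 (T t3730 N)))))))))))))⟩
def e0_63_48__192_42_150 : Ent 4 := ⟨[a0, a63, a48], [a192, a42, a246], (M a255 (F (T t1260 (L l54 (L l259 (L l268 (T t1160 (L l28 (L l236 (L l390 (T t548 N)))))))))))⟩
def e0_63_48__192_42_151 : Ent 4 := ⟨[a0, a63, a48], [a192, a42, a247], (M a255 (F (L l268 (T t511 (L l236 (L l422 (L l458 (T t547 (L l28 (L l236 (L l390 (T t548 N))))))))))))⟩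
def e0_63_48__192_42_152 : Ent 4 := ⟨[a0, a63, a48], [a192, a42, a250], (M a255 (F (T t1260 (L l268 (L l426 (T t511 (L l28 (L l236 (L l282 (L l390 (L l462 (T t548 N))))))))))))⟩
def e0_63_48__192_42_153 : Ent 4 := ⟨[a0, a63, a48], [a192, a42, a251], (M a255 (F (T t1260 (L l54 (L l268 (L l428 (T t1160 (L l28 (L l236 (L l390 (L l464 (T t548 N))))))))))))⟩
def e0_63_48__192_42_154 : Ent 4 := ⟨[a0, a63, a48], [a192, a42, a255], (M a60 (L l296 (F (T t3520 (L l439 (L l489 (T t64 (L l56 (L l334 (L l470 (T t288 (L l22 (L l28 (L l54 (L l66 (L l334 (L l470 (T t250 (K a213 (M a234 (F (T t236 (L l334 (L l470 (T t880 (L l56 (L l334 (L l470 (T t288 (L l22 (L l28 (L l54 (L l66 (L l334 (L l470 (T t250 N))))))))))))))))) (K a234 (M a213 (L l390 (F (T t236 (L l334 (L l470 (T t880 (L l56 (L l334 (L l470 (T t288 (L l22 (L l28 (L l54 (L l66 (L l334 (L l470 (T t250 (K a106 (M a170 (F (T t236 (L l250 (L l256 (L l289 (L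 l295 (T t8370 N)))))))) (K a170 (M a106 (F (T t3520 (L l228 (L l236 (L l282 (L l294 (T t8363 N)))))))) N)))))))))))))))))))) N))))))))))))))))))))⟩
def b0_63_48__192_42 : Blk 4 := ⟨[0, 63, 48], [192, 42], [1, 2, 3, 5, 6, 7, 10, 11, 15, 16, 17, 18, 19, 21, 22, 23, 26, 27, 31, 32, 33, 34, 35, 37, 38, 39, 43, 47, 49, 50, 51, 53, 54, 55, 58, 59, 64, 65, 66, 67, 69, 70, 71, 74, 75, 79, 80, 81, 82, 83, 85, 86, 87, 90, 91, 95, 96, 97, 98, 99, 101, 102, 103, 106, 107, 111, 112, 113, 114, 115, 117, 118, 119, 122, 123, 127, 128, 129, 130, 131, 133, 134, 135, 138, 139, 143, 144, 145, 146, 147, 149, 150, 151, 154, 155, 159, 160, 161, 162, 163, 165, 166, 167, 170, 171, 175, 176, 177, 178, 179, 181, 182, 183, 186, 187, 191, 193, 194, 195, 197, 198, 199, 202, 203, 207, 208, 209, 210, 211, 213, 214, 215, 218, 219, 223, 224, 225, 226, 227, 229, 230, 231, 234, 235, 239, 240, 241, 242, 243, 245, 246, 247, 250, 251,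 255], [e0_63_48__192_42_0, e0_63_48__192_42_1, e0_63_48__192_42_2, e0_63_48__192_42_3, e0_63_48__192_42_4, e0_63_48__192_42_5, e0_63_48__192_42_6, e0_63_48__192_42_7, e0_63_48__192_42_8, e0_63_48__192_42_9, e0_63_48__192_42_10, e0_63_48__192_42_11, e0_63_48__192_42_12, e0_63_48__192_42_13, e0_63_48__192_42_14, e0_63_48__192_42_15, e0_63_48__192_42_16, e0_63_48__192_42_17, e0_63_48__192_42_18, e0_63_48__192_42_19, e0_63_48__192_42_20, e0_63_48__192_42_21, e0_63_48__192_42_22, e0_63_48__192_42_23, e0_63_48__192_42_24, e0_63_48__192_42_25, e0_63_48__192_42_26, e0_63_48__192_42_27, e0_63_48__192_42_28, e0_63_48__192_42_29, e0_63_48__192_42_30, e0_63_48__192_42_31, e0_63_48__192_42_32, e0_63_48__192_42_33, e0_63_48__192_42_34, e0_63_48__192_42_35, e0_63_48__192_42_36, e0_63_48__192_42_37, e0_63_48__192_42_38, e0_63_48__192_42_39, e0_63_48__192_42_40, e0_63_48__192_42_41, e0_63_48__192_42_42, e0_63_48__192_42_43,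 e0_63_48__192_42_44, e0_63_48__192_42_45, e0_63_48__192_42_46, e0_63_48__192_42_47, e0_63_48__192_42_48, e0_63_48__192_42_49, e0_63_48__192_42_50, e0_63_48__192_42_51, e0_63_48__192_42_52, e0_63_48__192_42_53, e0_63_48__192_42_54, e0_63_48__192_42_55, e0_63_48__192_42_56, e0_63_48__192_42_57, e0_63_48__192_42_58, e0_63_48__192_42_59, e0_63_48__192_42_60, e0_63_48__192_42_61, e0_63_48__192_42_62, e0_63_48__192_42_63, e0_63_48__192_42_64, e0_63_48__192_42_65, e0_63_48__192_42_66, e0_63_48__192_42_67, e0_63_48__192_42_68, e0_63_48__192_42_69, e0_63_48__192_42_70, e0_63_48__192_42_71, e0_63_48__192_42_72, e0_63_48__192_42_73, e0_63_48__192_42_74, e0_63_48__192_42_75, e0_63_48__192_42_76, e0_63_48__192_42_77, e0_63_48__192_42_78, e0_63_48__192_42_79, e0_63_48__192_42_80, e0_63_48__192_42_81, e0_63_48__192_42_82, e0_63_48__192_42_83, e0_63_48__192_42_84, e0_63_48__192_42_85, e0_63_48__192_42_86, e0_63_48__192_42_87,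 e0_63_48__192_42_88, e0_63_48__192_42_89, e0_63_48__192_42_90, e0_63_48__192_42_91, e0_63_48__192_42_92, e0_63_48__192_42_93, e0_63_48__192_42_94, e0_63_48__192_42_95, e0_63_48__192_42_96, e0_63_48__192_42_97, e0_63_48__192_42_98, e0_63_48__192_42_99, e0_63_48__192_42_100, e0_63_48__192_42_101, e0_63_48__192_42_102, e0_63_48__192_42_103, e0_63_48__192_42_104, e0_63_48__192_42_105, e0_63_48__192_42_106, e0_63_48__192_42_107, e0_63_48__192_42_108, e0_63_48__192_42_109, e0_63_48__192_42_110, e0_63_48__192_42_111, e0_63_48__192_42_112, e0_63_48__192_42_113, e0_63_48__192_42_114, e0_63_48__192_42_115, e0_63_48__192_42_116, e0_63_48__192_42_117, e0_63_48__192_42_118, e0_63_48__192_42_119, e0_63_48__192_42_120, e0_63_48__192_42_121, e0_63_48__192_42_122, e0_63_48__192_42_123, e0_63_48__192_42_124, e0_63_48__192_42_125, e0_63_48__192_42_126, e0_63_48__192_42_127, e0_63_48__192_42_128, e0_63_48__192_42_129,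 e0_63_48__192_42_130, e0_63_48__192_42_131, e0_63_48__192_42_132, e0_63_48__192_42_133, e0_63_48__192_42_134, e0_63_48__192_42_135, e0_63_48__192_42_136, e0_63_48__192_42_137, e0_63_48__192_42_138, e0_63_48__192_42_139, e0_63_48__192_42_140, e0_63_48__192_42_141, e0_63_48__192_42_142, e0_63_48__192_42_143, e0_63_48__192_42_144, e0_63_48__192_42_145, e0_63_48__192_42_146, e0_63_48__192_42_147, e0_63_48__192_42_148, e0_63_48__192_42_149, e0_63_48__192_42_150, e0_63_48__192_42_151, e0_63_48__192_42_152, e0_63_48__192_42_153, e0_63_48__192_42_154], by decide +kernel, by decide +kernel⟩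
def e0_63_106__65_42_0 : Ent 4 := ⟨[a0, a63, a106], [a65, a42, a1], (M a48 (L l305 (F (T t309 (L l76 (T t551 (L l28 (L l76 (T t579 (K a129 (M a193 (F (T t304 (L l28 (L l76 (T t579 (L l76 (L l217 (T t551 N))))))))) (K a193 (M a129 (F (T t304 (L l28 (L l76 (T t579 (L l76 (L l515 (T t551 N))))))))) N)))))))))))⟩
def e0_63_106__65_42_1 : Ent 4 := ⟨[a0, a63, a106], [a65, a42, a2], (M a48 (L l66 (F (T t309 (L l76 (T t551 (L l28 (L l76 (T t579 (K a22 (M a62 (F (T t585 (L l22 (L l76 (L l306 (T t5926 N))))))) (K a62 (M a22 (F (T t578 (L l28 (L l76 (T t579 (L l76 (T t551 N)))))))) N)))))))))))⟩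
def e0_63_106__65_42_2 : Ent 4 := ⟨[a0, a63, a106], [a65, a42, a3], (M a48 (F (T t585 (L l76 (L l453 (T t551 (L l28 (L l76 (T t579 N)))))))))⟩
def e0_63_106__65_42_3 : Ent 4 := ⟨[a0, a63, a106], [a65, a42, a4], (M a48 (F (T t309 (L l76 (T t551 (L l28 (L l76 (T t579 N))))))))⟩
def e0_63_106__65_42_4 : Ent 4 := ⟨[a0, a63, a106], [a65, a42, a5], (M a48 (F (T t578 (L l28 (L l47 (L l76 (T t579 (L l76 (T t551 N)))))))))⟩
def e0_63_106__65_42_5 : Ent 4 := ⟨[a0, a63, a106], [a65, a42, a6], (M a48 (F (T t309 (L l76 (T t551 (L l28 (L l76 (T t579 N))))))))⟩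
def e0_63_106__65_42_6 : Ent 4 := ⟨[a0, a63, a106], [a65, a42, a7], (M a48 (F (T t309 (L l76 (T t551 (L l28 (L l76 (T t579 N))))))))⟩
def e0_63_106__65_42_7 : Ent 4 := ⟨[a0, a63, a106], [a65, a42, a8], (M a48 (L l56 (F (T t309 (L l76 (T t551 (L l28 (L l76 (T t579 (K a25 (M a59 (F (T t307 (L l26 (L l76 (L l316 (T t6445 N))))))) (K a59 (M a25 (F (T t578 (L l28 (L l76 (T t579 (L l76 (T t551 N)))))))) N)))))))))))⟩
def e0_63_106__65_42_8 : Ent 4 := ⟨[a0, a63, a106], [a65, a42, a9], (M a48 (F (T t309 (L l76 (T t551 (L l28 (L l76 (T t579 N))))))))⟩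
def e0_63_106__65_42_9 : Ent 4 := ⟨[a0, a63, a106], [a65, a42, a10], (M a48 (L l54 (F (T t578 (L l28 (L l76 (L l318 (T t579 (L l76 (T t551 (K a26 (Fr a58 a53 l38 (V t6446)) (K a58 (M a26 (F (L l28 (T t4144 (L l76 (T t551 (L l28 (L l426 (T t6447 (K a32 (Fr a192 a149 l519 (Fr a15 a37 l75 (Fr a47 a31 l61 (V t6528)))) N)))))))))) N))))))))))))⟩
def e0_63_106__65_42_10 : Ent 4 := ⟨[a0, a63, a106], [a65, a42, a11], (M a48 (F (T t309 (L l76 (T t551 (L l28 (L l76 (T t579 N))))))))⟩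
def e0_63_106__65_42_11 : Ent 4 := ⟨[a0, a63, a106], [a65, a42, a12], (M a48 (F (T t585 (L l76 (L l478 (T t551 (L l28 (L l76 (T t579 N)))))))))⟩
def e0_63_106__65_42_12 : Ent 4 := ⟨[a0, a63, a106], [a65, a42, a13], (M a48 (F (T t309 (L l76 (T t551 (L l28 (L l76 (T t579 N))))))))⟩
def e0_63_106__65_42_13 : Ent 4 := ⟨[a0, a63, a106], [a65, a42, a14], (M a48 (F (T t309 (L l76 (T t551 (L l28 (L l76 (T t579 N))))))))⟩
def e0_63_106__65_42_14 : Ent 4 := ⟨[a0, a63, a106], [a65, a42, a15], (M a48 (F (T t585 (L l76 (L l483 (T t551 (L l28 (L l76 (T t579 N)))))))))⟩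
def e0_63_106__65_42_15 : Ent 4 := ⟨[a0, a63, a106], [a65, a42, a20], (M a48 (F (T t309 (L l76 (T t551 (L l28 (L l76 (T t579 N))))))))⟩
def e0_63_106__65_42_16 : Ent 4 := ⟨[a0, a63, a106], [a65, a42, a21], (M a48 (F (L l47 (T t309 (L l76 (L l347 (T t551 (L l28 (L l47 (L l76 (T t579 N)))))))))))⟩
def e0_63_106__65_42_17 : Ent 4 := ⟨[a0, a63, a106], [a65, a42, a22], (M a48 (L l66 (F (T t309 (L l76 (T t551 (L l28 (L l76 (T t579 (K a2 (M a62 (F (T t585 (L l22 (L l76 (L l306 (T t5926 N))))))) (K a62 (M a2 (F (T t307 (L l19 (L l28 (L l305 (T t342 N))))))) N)))))))))))⟩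
def e0_63_106__65_42_18 : Ent 4 := ⟨[a0, a63, a106], [a65, a42, a23], (M a48 (F (T t309 (L l76 (L l351 (T t551 (L l28 (L l76 (T t579 N)))))))))⟩
def e0_63_106__65_42_19 : Ent 4 := ⟨[a0, a63, a106], [a65, a42, a24], (M a48 (F (T t309 (L l76 (T t551 (L l28 (L l76 (T t579 N))))))))⟩
def e0_63_106__65_42_20 : Ent 4 := ⟨[a0, a63, a106], [a65, a42, a25], (M a48 (L l56 (F (T t309 (L l76 (T t551 (L l28 (L l76 (T t579 (K a8 (M a59 (F (T t307 (L l26 (L l76 (L l316 (T t6445 N))))))) (K a59 (M a8 (F (T t307 (L l19 (L l28 (T t4700 N)))))) N)))))))))))⟩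
def e0_63_106__65_42_21 : Ent 4 := ⟨[a0, a63, a106], [a65, a42, a26], (M a48 (L l54 (F (T t309 (L l28 (L l76 (T t579 (L l76 (T t551 (K a10 (Fr a58 a53 l38 (V t6446)) (K a58 (M a10 (F (T t4033 (L l76 (T t551 (L l18 (L l354 (T t6449 (L l18 (L l141 (L l426 (T t6450 N)))))))))))) N)))))))))))⟩
def e0_63_106__65_42_22 : Ent 4 := ⟨[a0, a63, a106], [a65, a42, a27], (M a48 (F (T t309 (L l76 (T t551 (L l28 (L l76 (T t579 N))))))))⟩
def e0_63_106__65_42_23 : Ent 4 := ⟨[a0, a63, a106], [a65, a42, a28], (M a48 (F (T t309 (L l76 (T t551 (L l28 (L l76 (L l362 (T t579 N)))))))))⟩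
def e0_63_106__65_42_24 : Ent 4 := ⟨[a0, a63, a106], [a65, a42, a29], (M a48 (F (T t309 (L l76 (L l371 (T t551 (L l28 (L l76 (T t579 N)))))))))⟩
def e0_63_106__65_42_25 : Ent 4 := ⟨[a0, a63, a106], [a65, a42, a30], (M a48 (F (T t309 (L l76 (T t551 (L l28 (L l76 (T t579 N))))))))⟩
def e0_63_106__65_42_26 : Ent 4 := ⟨[a0, a63, a106], [a65, a42, a31], (M a48 (F (T t309 (L l76 (L l375 (T t551 (L l28 (L l76 (L l361 (T t579 N))))))))))⟩
def e0_63_106__65_42_27 : Ent 4 := ⟨[a0, a63, a106], [a65, a42, a40], (M a48 (L l22 (F (T t309 (L l76 (T t551 (L l24 (L l28 (L l76 (T t579 (K a41 (M a43 (F (T t307 (L l66 (L l76 (L l388 (T t6451 N))))))) (K a43 (M a41 (F (T t578 (L l24 (L l28 (L l76 (T t579 (L l76 (T t551 N))))))))) N))))))))))))⟩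
def e0_63_106__65_42_28 : Ent 4 := ⟨[a0, a63, a106], [a65, a42, a41], (M a48 (L l22 (F (T t309 (L l76 (T t551 (L l28 (L l76 (T t579 (K a40 (M a43 (F (T t307 (L l66 (L l76 (L l388 (T t6451 N))))))) (K a43 (M a40 (F (T t309 (L l29 (L l69 (T t6452 N)))))) N)))))))))))⟩
def e0_63_106__65_42_29 : Ent 4 := ⟨[a0, a63, a106], [a65, a42, a43], (M a48 (L l22 (F (T t309 (L l76 (T t551 (L l28 (L l76 (T t579 (K a40 (M a41 (F (T t578 (L l24 (L l28 (L l76 (T t579 (L l76 (T t551 N))))))))) (K a41 (M a40 (F (T t309 (L l29 (L l69 (T t6452 N)))))) N)))))))))))⟩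
def e0_63_106__65_42_30 : Ent 4 := ⟨[a0, a63, a106], [a65, a42, a44], (M a48 (F (T t309 (L l76 (T t551 (L l24 (L l28 (L l76 (T t579 N)))))))))⟩
def e0_63_106__65_42_31 : Ent 4 := ⟨[a0, a63, a106], [a65, a42, a45], (M a48 (F (T t309 (L l76 (T t551 (L l28 (L l76 (T t579 N))))))))⟩
def e0_63_106__65_42_32 : Ent 4 := ⟨[a0, a63, a106], [a65, a42, a46], (M a48 (L l26 (F (T t309 (L l76 (T t551 (L l28 (L l76 (T t579 (K a34 (M a38 (F (T t578 (L l20 (L l28 (L l76 (T t579 (L l76 (T t551 N))))))))) (K a38 (M a34 (F (T t309 (L l29 (L l66 (T t6453 N)))))) N)))))))))))⟩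
def e0_63_106__65_42_33 : Ent 4 := ⟨[a0, a63, a106], [a65, a42, a47], (M a12 (L l28 (F (T t2304 (L l76 (T t2305 (L l56 (L l76 (T t2415 (K a32 (M a37 (F (T t2416 (L l56 (L l76 (T t2415 (L l76 (T t2305 N)))))))) (K a37 (M a32 (F (T t2304 (L l51 (L l56 (T t682 N)))))) N)))))))))))⟩
def e0_63_106__65_42_34 : Ent 4 := ⟨[a0, a63, a106], [a65, a42, a60], (M a48 (F (T t585 (L l76 (L l442 (T t551 (L l28 (L l76 (T t579 N)))))))))⟩
def e0_63_106__65_42_35 : Ent 4 := ⟨[a0, a63, a106], [a65, a42, a61], (M a48 (F (L l35 (T t309 (L l76 (L l515 (T t551 (L l28 (L l35 (L l76 (T t579 N)))))))))))⟩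
def e0_63_106__65_42_36 : Ent 4 := ⟨[a0, a63, a106], [a65, a42, a62], (M a48 (L l66 (F (T t309 (L l76 (T t551 (L l28 (L l76 (T t579 (K a2 (M a22 (F (T t578 (L l28 (L l76 (T t579 (L l76 (T t551 N)))))))) (K a22 (M a2 (F (T t307 (L l19 (L l28 (L l305 (T t342 N))))))) N)))))))))))⟩
def e0_63_106__65_42_37 : Ent 4 := ⟨[a0, a63, a106], [a65, a42, a64], (M a48 (L l76 (F (T t585 (L l28 (T t6454 (L l28 (T t6455 (L l28 (T t6456 (L l28 (L l81 (L l84 (T t6457 (L l54 (T t6458 (K a207 (Fr a192 a149 l519 (Fr a96 a144 l484 (Fr a101 a111 l104 (Fr a32 a16 l40 (V t6459))))) (K a66 (M a67 (F (T t307 (L l28 (T t6454 (L l28 (T t6455 (L l28 (T t6456 (L l28 (L l81 (L l84 (L l309 (T t6457 (L l54 (L l309 (T t6458 (K a207 (Fr a192 a149 l519 (Fr a96 a144 l484 (Fr a101 a111 l104 (Fr a32 a16 l40 (V t6459))))) N)))))))))))))))))) (K a67 (M a66 (F (T t307 (L l305 (T t6460 (T t6461 N)))))) N)))))))))))))))))))⟩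
def e0_63_106__65_42_38 : Ent 4 := ⟨[a0, a63, a106], [a65, a42, a66], (M a48 (L l76 (F (T t304 (L l28 (T t6462 (L l28 (T t6463 (K a64 (M a67 (F (T t307 (L l28 (T t6454 (L l28 (T t6455 (L l28 (T t6456 (L l28 (L l81 (L l84 (L l309 (T t6457 (L l54 (L l309 (T t6458 (K a207 (Fr a192 a149 l519 (Fr a96 a144 l484 (Fr a101 a111 l104 (Fr a32 a16 l40 (V t6459))))) N)))))))))))))))))) (K a67 (M a64 (F (T t394 (L l121 (L l141 (T t6464 N)))))) N))))))))))⟩
def e0_63_106__65_42_39 : Ent 4 := ⟨[a0, a63, a106], [a65, a42, a67], (M a48 (L l76 (F (T t309 (L l28 (T t6462 (L l28 (T t6463 (K a64 (M a66 (F (T t307 (L l305 (T t6460 (T t6461 N)))))) (K a66 (M a64 (F (T t394 (L l121 (L l141 (T t6464 N)))))) N))))))))))⟩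
def e0_63_106__65_42_40 : Ent 4 := ⟨[a0, a63, a106], [a65, a42, a68], (M a48 (F (T t309 (L l76 (L l80 (T t551 (L l28 (L l76 (L l80 (T t579 N))))))))))⟩
def e0_63_106__65_42_41 : Ent 4 := ⟨[a0, a63, a106], [a65, a42, a69], (M a48 (L l81 (F (T t309 (L l76 (L l84 (T t551 (L l28 (L l76 (L l84 (T t579 (K a73 (M a77 (F (T t578 (L l28 (L l76 (L l84 (T t579 (L l76 (L l84 (T t551 N)))))))))) (K a77 (M a73 (F (T t309 (L l76 (L l84 (T t551 (L l28 (L l76 (L l84 (T t579 N)))))))))) N)))))))))))))⟩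
def e0_63_106__65_42_42 : Ent 4 := ⟨[a0, a63, a106], [a65, a42, a70], (M a48 (F (T t309 (L l76 (T t551 (L l28 (L l76 (T t579 N))))))))⟩
def e0_63_106__65_42_43 : Ent 4 := ⟨[a0, a63, a106], [a65, a42, a71], (M a48 (F (T t309 (L l76 (T t551 (L l28 (L l76 (T t579 N))))))))⟩
def e0_63_106__65_42_44 : Ent 4 := ⟨[a0, a63, a106], [a65, a42, a72], (M a48 (F (T t304 (L l28 (L l76 (L l80 (T t579 (L l76 (L l80 (T t551 N))))))))))⟩
def e0_63_106__65_42_45 : Ent 4 := ⟨[a0, a63, a106], [a65, a42, a73], (M a48 (L l81 (F (T t309 (L l76 (T t551 (L l28 (L l76 (T t579 (K a69 (M a77 (F (T t578 (L l28 (L l76 (L l84 (T t579 (L l76 (L l84 (T t551 N)))))))))) (K a77 (M a69 (F (T t309 (L l320 (T t446 (L l76 (T t551 N))))))) N)))))))))))⟩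
def e0_63_106__65_42_46 : Ent 4 := ⟨[a0, a63, a106], [a65, a42, a74], (M a48 (F (T t578 (L l28 (L l76 (L l84 (L l318 (T t579 (L l76 (L l84 (T t551 N)))))))))))⟩
def e0_63_106__65_42_47 : Ent 4 := ⟨[a0, a63, a106], [a65, a42, a75], (M a48 (F (T t309 (L l76 (T t551 (L l28 (L l76 (T t579 N))))))))⟩
def e0_63_106__65_42_48 : Ent 4 := ⟨[a0, a63, a106], [a65, a42, a76], (M a48 (F (T t309 (L l76 (L l80 (T t551 (L l28 (L l76 (L l80 (T t579 N))))))))))⟩
def e0_63_106__65_42_49 : Ent 4 := ⟨[a0, a63, a106], [a65, a42, a77], (M a48 (L l81 (F (T t309 (L l76 (T t551 (L l28 (L l76 (T t579 (K a69 (M a73 (F (T t309 (L l76 (L l84 (T t551 (L l28 (L l76 (L l84 (T t579 N)))))))))) (K a73 (M a69 (F (T t309 (L l320 (T t446 (L l76 (T t551 N))))))) N)))))))))))⟩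
def e0_63_106__65_42_50 : Ent 4 := ⟨[a0, a63, a106], [a65, a42, a78], (M a48 (F (T t309 (L l76 (T t551 (L l28 (L l76 (T t579 N))))))))⟩
def e0_63_106__65_42_51 : Ent 4 := ⟨[a0, a63, a106], [a65, a42, a79], (M a48 (F (T t309 (L l76 (L l84 (T t551 (L l28 (L l76 (L l84 (T t579 N))))))))))⟩
def e0_63_106__65_42_52 : Ent 4 := ⟨[a0, a63, a106], [a65, a42, a84], (M a48 (F (T t309 (L l76 (L l140 (T t551 (L l28 (L l76 (L l140 (T t579 N))))))))))⟩
def e0_63_106__65_42_53 : Ent 4 := ⟨[a0, a63, a106], [a65, a42, a85], (M a48 (L l141 (F (T t309 (L l76 (L l347 (T t551 (L l54 (T t777 (L l368 (T t6465 (K a192 (M a105 (F (L l514 (T t6466 (L l236 (T t6467 (L l236 (T t6468 (L l350 (L l514 (T t6469 (L l54 (L l66 (L l228 (L l236 (L l305 (L l350 (L l514 (T t6470 N))))))))))))))))))) (K a105 (M a125 (F (T t309 (L l76 (L l347 (L l515 (T t551 (L l54 (L l368 (L l500 (T t4540 (L l368 (T t6465 (K a192 (M a240 (F (T t6230 (L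 l236 (T t6471 (L l54 (L l236 (L l339 (T t6472 (L l339 (T t6473 N))))))))))) N)))))))))))))) (K a125 (M a105 (F (T t6474 (L l76 (L l347 (T t551 N)))))) N))))))))))))))⟩
def e0_63_106__65_42_54 : Ent 4 := ⟨[a0, a63, a106], [a65, a42, a86], (M a48 (F (T t309 (L l76 (L l351 (T t551 (L l28 (L l76 (T t579 N)))))))))⟩
def e0_63_106__65_42_55 : Ent 4 := ⟨[a0, a63, a106], [a65, a42, a87], (M a48 (F (T t309 (L l76 (T t551 (L l28 (L l76 (L l367 (T t579 N)))))))))⟩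
def e0_63_106__65_42_56 : Ent 4 := ⟨[a0, a63, a106], [a65, a42, a88], (M a48 (F (T t309 (L l76 (L l478 (T t551 (L l28 (L l76 (T t579 N)))))))))⟩
def e0_63_106__65_42_57 : Ent 4 := ⟨[a0, a63, a106], [a65, a42, a89], (M a48 (F (T t309 (L l76 (L l371 (T t551 (L l28 (L l76 (T t579 N)))))))))⟩
def e0_63_106__65_42_58 : Ent 4 := ⟨[a0, a63, a106], [a65, a42, a90], (M a48 (F (T t309 (L l76 (L l375 (L l483 (T t551 (L l28 (L l76 (T t579 N))))))))))⟩
def e0_63_106__65_42_59 : Ent 4 := ⟨[a0, a63, a106], [a65, a42, a91], (M a48 (F (T t309 (L l76 (T t551 (L l28 (L l76 (T t579 N))))))))⟩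
def e0_63_106__65_42_60 : Ent 4 := ⟨[a0, a63, a106], [a65, a42, a92], (M a48 (F (T t309 (L l76 (T t551 (L l28 (L l76 (T t579 N))))))))⟩
def e0_63_106__65_42_61 : Ent 4 := ⟨[a0, a63, a106], [a65, a42, a93], (M a48 (F (T t309 (L l76 (T t551 (L l28 (L l76 (L l362 (T t579 N)))))))))⟩
def e0_63_106__65_42_62 : Ent 4 := ⟨[a0, a63, a106], [a65, a42, a94], (M a48 (F (T t309 (L l76 (T t551 (L l28 (L l76 (T t579 N))))))))⟩
def e0_63_106__65_42_63 : Ent 4 := ⟨[a0, a63, a106], [a65, a42, a95], (M a48 (F (T t309 (L l76 (T t551 (L l28 (L l76 (L l361 (T t579 N)))))))))⟩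
def e0_63_106__65_42_64 : Ent 4 := ⟨[a0, a63, a106], [a65, a42, a104], (M a48 (F (T t304 (L l28 (L l76 (L l140 (T t579 (L l76 (L l100 (L l140 (T t551 N)))))))))))⟩
def e0_63_106__65_42_65 : Ent 4 := ⟨[a0, a63, a106], [a65, a42, a105], (M a252 (L l141 (F (L l305 (T t6475 (L l515 (L l518 (T t2535 (L l76 (L l392 (T t6476 (K a85 (M a125 (F (T t6477 (L l76 (L l389 (L l473 (T t6478 (L l347 (L l350 (L l515 (L l518 (T t2535 N)))))))))))) (K a125 (M a85 (F (L l109 (T t5958 (L l434 (T t169 N)))))) N)))))))))))))⟩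
def e0_63_106__65_42_66 : Ent 4 := ⟨[a0, a63, a106], [a65, a42, a107], (M a48 (F (T t309 (L l76 (T t551 (L l28 (L l76 (T t579 N))))))))⟩
def e0_63_106__65_42_67 : Ent 4 := ⟨[a0, a63, a106], [a65, a42, a108], (M a48 (F (T t309 (L l76 (L l100 (T t551 (L l28 (L l76 (T t579 N)))))))))⟩
def e0_63_106__65_42_68 : Ent 4 := ⟨[a0, a63, a106], [a65, a42, a109], (M a48 (F (T t309 (L l76 (T t551 (L l28 (L l76 (T t579 N))))))))⟩
def e0_63_106__65_42_69 : Ent 4 := ⟨[a0, a63, a106], [a65, a42, a110], (M a48 (F (T t309 (L l76 (T t551 (L l28 (L l76 (T t579 N))))))))⟩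
def e0_63_106__65_42_70 : Ent 4 := ⟨[a0, a63, a106], [a65, a42, a111], (M a240 (F (T t4779 (T t817 (L l76 (L l137 (T t4781 N)))))))⟩
def e0_63_106__65_42_71 : Ent 4 := ⟨[a0, a63, a106], [a65, a42, a124], (M a48 (F (T t309 (L l76 (L l140 (T t551 (L l28 (L l76 (L l140 (T t579 N))))))))))⟩
def e0_63_106__65_42_72 : Ent 4 := ⟨[a0, a63, a106], [a65, a42, a125], (M a48 (L l141 (F (T t309 (L l76 (T t551 (L l28 (L l76 (T t579 (K a85 (M a105 (F (T t6474 (L l76 (L l347 (T t551 N)))))) (K a105 (M a85 (F (L l109 (T t5958 (L l81 (L l392 (T t873 N))))))) N)))))))))))⟩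
def e0_63_106__65_42_73 : Ent 4 := ⟨[a0, a63, a106], [a65, a42, a126], (M a48 (F (T t309 (L l76 (T t551 (L l28 (L l76 (T t579 N))))))))⟩
def e0_63_106__65_42_74 : Ent 4 := ⟨[a0, a63, a106], [a65, a42, a127], (M a48 (F (T t309 (L l76 (T t551 (L l28 (T t6454 (L l28 (T t6479 N)))))))))⟩
def e0_63_106__65_42_75 : Ent 4 := ⟨[a0, a63, a106], [a65, a42, a128], (M a48 (F (T t585 (L l28 (L l76 (T t579 (L l141 (L l192 (L l220 (T t6480 (L l54 (L l160 (T t6481 N)))))))))))))⟩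
def e0_63_106__65_42_76 : Ent 4 := ⟨[a0, a63, a106], [a65, a42, a129], (M a48 (L l305 (F (T t304 (L l28 (L l76 (T t579 (L l76 (L l217 (T t551 (K a1 (M a193 (F (T t304 (L l28 (L l76 (T t579 (L l76 (L l217 (T t551 N))))))))) (K a193 (M a1 (F (T t304 (L l66 (L l485 (T t535 N)))))) N))))))))))))⟩
def e0_63_106__65_42_77 : Ent 4 := ⟨[a0, a63, a106], [a65, a42, a130], (M a48 (F (T t309 (L l76 (T t551 (L l28 (L l76 (T t579 N))))))))⟩
def e0_63_106__65_42_78 : Ent 4 := ⟨[a0, a63, a106], [a65, a42, a131], (M a48 (F (T t309 (L l76 (L l197 (T t551 (L l28 (L l76 (T t579 N)))))))))⟩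
def e0_63_106__65_42_79 : Ent 4 := ⟨[a0, a63, a106], [a65, a42, a132], (M a48 (F (T t304 (L l28 (L l76 (T t579 (L l76 (L l202 (T t551 N)))))))))⟩
def e0_63_106__65_42_80 : Ent 4 := ⟨[a0, a63, a106], [a65, a42, a133], (M a48 (F (T t585 (L l76 (L l199 (T t551 (L l28 (L l76 (T t579 N)))))))))⟩
def e0_63_106__65_42_81 : Ent 4 := ⟨[a0, a63, a106], [a65, a42, a134], (M a48 (F (T t309 (L l76 (T t551 (L l28 (L l76 (T t579 N))))))))⟩
def e0_63_106__65_42_82 : Ent 4 := ⟨[a0, a63, a106], [a65, a42, a135], (M a48 (F (T t309 (L l76 (T t551 (L l28 (L l76 (T t579 N))))))))⟩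
def e0_63_106__65_42_83 : Ent 4 := ⟨[a0, a63, a106], [a65, a42, a136], (M a48 (F (T t309 (L l76 (T t551 (L l28 (L l76 (T t579 N))))))))⟩
def e0_63_106__65_42_84 : Ent 4 := ⟨[a0, a63, a106], [a65, a42, a137], (M a48 (F (T t309 (L l76 (T t551 (L l28 (L l76 (T t579 N))))))))⟩
def e0_63_106__65_42_85 : Ent 4 := ⟨[a0, a63, a106], [a65, a42, a138], (M a48 (F (T t578 (L l28 (L l76 (L l318 (T t579 (L l76 (T t551 N)))))))))⟩
def e0_63_106__65_42_86 : Ent 4 := ⟨[a0, a63, a106], [a65, a42, a139], (M a48 (F (T t309 (L l76 (T t551 (L l28 (L l76 (T t579 N))))))))⟩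
def e0_63_106__65_42_87 : Ent 4 := ⟨[a0, a63, a106], [a65, a42, a140], (M a48 (F (T t309 (L l76 (L l222 (T t551 (L l28 (L l76 (T t579 N)))))))))⟩
def e0_63_106__65_42_88 : Ent 4 := ⟨[a0, a63, a106], [a65, a42, a141], (M a48 (F (T t309 (L l76 (T t551 (L l28 (L l76 (T t579 N))))))))⟩
def e0_63_106__65_42_89 : Ent 4 := ⟨[a0, a63, a106], [a65, a42, a142], (M a48 (F (T t309 (L l76 (T t551 (L l28 (L l76 (T t579 N))))))))⟩
def e0_63_106__65_42_90 : Ent 4 := ⟨[a0, a63, a106], [a65, a42, a143], (M a48 (F (T t309 (L l28 (T t6462 (L l28 (L l76 (T t579 N))))))))⟩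
def e0_63_106__65_42_91 : Ent 4 := ⟨[a0, a63, a106], [a65, a42, a148], (M a48 (F (T t304 (L l28 (L l76 (T t579 (L l76 (L l163 (T t551 N)))))))))⟩
def e0_63_106__65_42_92 : Ent 4 := ⟨[a0, a63, a106], [a65, a42, a149], (M a240 (F (L l199 (L l220 (T t6482 (L l28 (L l76 (L l199 (L l375 (T t6483 (L l141 (L l199 (L l347 (T t6484 (L l28 (L l199 (L l220 (L l375 (T t6485 (K a133 (M a165 (F (T t6486 (L l28 (L l160 (L l220 (L l311 (L l375 (T t6487 (L l160 (L l220 (T t6488 N)))))))))))) (K a165 (M a90 (L l199 (F (T t4788 (L l76 (L l180 (T t6489 (K a133 (Fr a181 a122 l447 (V t6489)) (K a181 (M a133 (F (L l76 (L l180 (T t6489 (L l81 (L l455 (T t6490 (L l220 (T t6491 N)))))))))) N))))))))) (K a181 (M a165 (F (T t6492 (T t6493 (L l28 (L l220 (L l375 (T t6487 (L l220 (T t6488 N)))))))))) (K a74 (M a48 (F (T t6494 (L l199 (L l491 (T t781 (L l28 (L l76 (L l84 (L l318 (L l491 (T t579 N)))))))))))) (K a90 (M a48 (L l375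 (F (L l76 (T t3318 (L l199 (L l462 (L l491 (T t781 (L l28 (L l76 (L l491 (T t579 (K a208 (M a31 (F (L l28 (L l347 (T t6495 (L l151 (L l220 (T t6496 N)))))))) (K a31 (M a208 (F (T t6497 (L l151 (L l220 (T t6496 N)))))) N))))))))))))))) (K a122 (M a48 (F (T t1915 (L l28 (L l76 (L l491 (T t579 (L l114 (L l491 (T t6471 N)))))))))) N)))))))))))))))))))))))))⟩
def e0_63_106__65_42_93 : Ent 4 := ⟨[a0, a63, a106], [a65, a42, a150], (M a48 (F (T t309 (L l76 (L l163 (T t551 (L l28 (L l76 (T t579 N)))))))))⟩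
def e0_63_106__65_42_94 : Ent 4 := ⟨[a0, a63, a106], [a65, a42, a151], (M a48 (F (T t309 (L l76 (L l163 (T t551 (L l28 (L l76 (T t579 N)))))))))⟩
def e0_63_106__65_42_95 : Ent 4 := ⟨[a0, a63, a106], [a65, a42, a152], (M a48 (F (T t304 (L l28 (L l76 (T t579 (L l76 (L l222 (T t551 N)))))))))⟩
def e0_63_106__65_42_96 : Ent 4 := ⟨[a0, a63, a106], [a65, a42, a153], (M a48 (F (T t309 (L l76 (L l167 (T t551 (L l28 (L l76 (T t579 N)))))))))⟩
def e0_63_106__65_42_97 : Ent 4 := ⟨[a0, a63, a106], [a65, a42, a154], (M a240 (F (T t4779 (L l170 (L l368 (L l512 (T t817 (L l76 (T t4781 N)))))))))⟩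
def e0_63_106__65_42_98 : Ent 4 := ⟨[a0, a63, a106], [a65, a42, a155], (M a48 (F (T t309 (L l76 (T t551 (L l28 (L l76 (L l367 (T t579 N)))))))))⟩
def e0_63_106__65_42_99 : Ent 4 := ⟨[a0, a63, a106], [a65, a42, a156], (M a48 (F (T t304 (L l28 (L l76 (T t579 (L l76 (T t551 N))))))))⟩
def e0_63_106__65_42_100 : Ent 4 := ⟨[a0, a63, a106], [a65, a42, a157], (M a48 (F (T t309 (L l76 (L l167 (T t551 (L l28 (L l76 (T t579 N)))))))))⟩
def e0_63_106__65_42_101 : Ent 4 := ⟨[a0, a63, a106], [a65, a42, a158], (M a48 (F (T t309 (L l76 (T t551 (L l28 (L l76 (L l362 (T t579 N)))))))))⟩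
def e0_63_106__65_42_102 : Ent 4 := ⟨[a0, a63, a106], [a65, a42, a159], (M a240 (F (T t4779 (L l170 (T t817 (L l76 (L l361 (T t4781 N))))))))⟩
def e0_63_106__65_42_103 : Ent 4 := ⟨[a0, a63, a106], [a65, a42, a168], (M a48 (F (T t309 (L l76 (T t551 (L l28 (L l76 (L l400 (T t579 N)))))))))⟩
def e0_63_106__65_42_104 : Ent 4 := ⟨[a0, a63, a106], [a65, a42, a169], (M a48 (F (T t309 (L l76 (L l217 (T t551 (L l28 (L l76 (T t579 N)))))))))⟩
def e0_63_106__65_42_105 : Ent 4 := ⟨[a0, a63, a106], [a65, a42, a170], (M a48 (F (T t309 (L l76 (L l220 (T t551 (L l28 (L l76 (L l206 (L l220 (L l404 (T t552 (L l28 (L l81 (L l206 (L l404 (T t553 N)))))))))))))))))⟩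
def e0_63_106__65_42_106 : Ent 4 := ⟨[a0, a63, a106], [a65, a42, a171], (M a48 (F (T t309 (L l76 (T t551 (L l28 (L l76 (T t579 N))))))))⟩
def e0_63_106__65_42_107 : Ent 4 := ⟨[a0, a63, a106], [a65, a42, a172], (M a48 (F (T t309 (L l76 (T t551 (L l28 (L l76 (T t579 N))))))))⟩
def e0_63_106__65_42_108 : Ent 4 := ⟨[a0, a63, a106], [a65, a42, a173], (M a48 (F (T t309 (L l76 (T t551 (L l28 (L l76 (T t579 N))))))))⟩
def e0_63_106__65_42_109 : Ent 4 := ⟨[a0, a63, a106], [a65, a42, a174], (M a48 (F (T t309 (L l76 (T t551 (L l28 (L l76 (T t579 N))))))))⟩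
def e0_63_106__65_42_110 : Ent 4 := ⟨[a0, a63, a106], [a65, a42, a175], (M a48 (F (T t309 (L l76 (T t551 (L l28 (L l76 (T t579 N))))))))⟩
def e0_63_106__65_42_111 : Ent 4 := ⟨[a0, a63, a106], [a65, a42, a188], (M a48 (F (T t309 (L l76 (L l186 (T t551 (L l28 (L l76 (T t579 N)))))))))⟩
def e0_63_106__65_42_112 : Ent 4 := ⟨[a0, a63, a106], [a65, a42, a189], (M a48 (F (T t309 (L l76 (L l217 (T t551 (L l28 (L l76 (T t579 N)))))))))⟩
def e0_63_106__65_42_113 : Ent 4 := ⟨[a0, a63, a106], [a65, a42, a190], (M a48 (F (T t309 (L l76 (T t551 (L l28 (L l76 (T t579 N))))))))⟩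
def e0_63_106__65_42_114 : Ent 4 := ⟨[a0, a63, a106], [a65, a42, a191], (M a48 (F (T t309 (L l76 (L l190 (L l220 (T t551 (L l28 (T t6498 (L l28 (L l81 (T t6499 N))))))))))))⟩
def e0_63_106__65_42_115 : Ent 4 := ⟨[a0, a63, a106], [a65, a42, a192], (M a240 (F (L l76 (L l339 (T t4781 (L l236 (L l339 (T t6500 (L l296 (L l339 (T t6501 (L l28 (L l339 (T t6502 (L l76 (L l339 (T t6503 (K a133 (M a90 (L l339 (F (T t4788 (T t6504 (K a74 (Fr a15 a165 l483 (V t6505)) (K a15 (Fr a74 a122 l130 (V t6506)) N))))))) (K a85 (M a105 (F (L l339 (T t6507 (L l514 (T t6508 (L l339 (T t6509 (L l350 (L l514 (T t6510 (L l66 (L l228 (L l305 (L l339 (L l350 (L l514 (T t6511 N)))))))))))))))))) (K a181 (M a12 (F (T t3358 (L l56 (L l76 (L l272 (T t2415 (L l272 (T t6512 N))))))))) (K a74 (M a165 (L l339 (F (T t6492 (L l296 (T t6513 (L l54 (L l76 (L l84 (L l318 (T t6514 (K a133 (Fr a15 a90 l483 (V t6515)) (K a15 (M a133 (F (T t6516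 (L l28 (L l236 (L l318 (L l484 (T t6517 N)))))))) N))))))))))))) (K a90 (M a252 (F (L l334 (T t6518 (L l148 (L l489 (T t6519 (L l76 (L l309 (L l462 (T t6476 N))))))))))) (K a122 (M a12 (F (T t2747 (L l56 (L l76 (L l272 (T t2415 (L l272 (T t6512 N))))))))) (K a15 (M a248 (L l339 (F (T t6520 (L l22 (T t6521 (K a133 (M a74 (F (T t6522 (L l3 (L l56 (L l334 (T t6523 N))))))) (K a74 (M a133 (F (T t3821 (T t6520 (L l141 (L l469 (L l484 (T t6524 N)))))))) N)))))))) N))))))))))))))))))))))))⟩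
def e0_63_106__65_42_116 : Ent 4 := ⟨[a0, a63, a106], [a65, a42, a193], (M a48 (L l305 (F (T t585 (L l76 (L l515 (T t551 (L l28 (L l76 (T t579 (K a1 (M a129 (F (T t304 (L l28 (L l76 (T t579 (L l76 (L l515 (T t551 N))))))))) (K a129 (M a1 (F (T t304 (L l66 (L l485 (T t535 N)))))) N))))))))))))⟩
def e0_63_106__65_42_117 : Ent 4 := ⟨[a0, a63, a106], [a65, a42, a194], (M a48 (F (T t578 (L l28 (L l76 (L l234 (T t579 (L l76 (T t551 N)))))))))⟩
def e0_63_106__65_42_118 : Ent 4 := ⟨[a0, a63, a106], [a65, a42, a195], (M a48 (F (T t585 (L l76 (L l273 (T t551 (L l28 (L l76 (T t579 N)))))))))⟩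
def e0_63_106__65_42_119 : Ent 4 := ⟨[a0, a63, a106], [a65, a42, a196], (M a48 (F (T t585 (L l76 (L l495 (T t551 (L l28 (L l76 (T t579 N)))))))))⟩
def e0_63_106__65_42_120 : Ent 4 := ⟨[a0, a63, a106], [a65, a42, a197], (M a240 (F (L l236 (T t4779 (L l491 (T t817 (L l76 (T t4781 N))))))))⟩
def e0_63_106__65_42_121 : Ent 4 := ⟨[a0, a63, a106], [a65, a42, a198], (M a48 (F (T t578 (L l28 (L l76 (L l234 (T t579 (L l76 (T t551 N)))))))))⟩
def e0_63_106__65_42_122 : Ent 4 := ⟨[a0, a63, a106], [a65, a42, a199], (M a48 (F (T t309 (L l76 (T t551 (L l28 (L l76 (T t579 N))))))))⟩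
def e0_63_106__65_42_123 : Ent 4 := ⟨[a0, a63, a106], [a65, a42, a200], (M a48 (F (T t578 (L l28 (L l76 (L l230 (T t579 (L l76 (T t551 N)))))))))⟩
def e0_63_106__65_42_124 : Ent 4 := ⟨[a0, a63, a106], [a65, a42, a201], (M a48 (F (T t578 (L l28 (L l76 (L l230 (T t579 (L l76 (T t551 N)))))))))⟩
def e0_63_106__65_42_125 : Ent 4 := ⟨[a0, a63, a106], [a65, a42, a202], (M a240 (F (L l236 (T t4786 (T t817 (L l76 (L l318 (T t4781 N))))))))⟩
def e0_63_106__65_42_126 : Ent 4 := ⟨[a0, a63, a106], [a65, a42, a203], (M a48 (F (T t2348 (L l28 (L l76 (L l230 (T t579 (L l76 (T t551 N)))))))))⟩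
def e0_63_106__65_42_127 : Ent 4 := ⟨[a0, a63, a106], [a65, a42, a204], (M a48 (F (T t585 (L l76 (L l298 (T t551 (L l28 (L l76 (T t579 N)))))))))⟩
def e0_63_106__65_42_128 : Ent 4 := ⟨[a0, a63, a106], [a65, a42, a205], (M a48 (F (T t309 (L l76 (T t551 (L l28 (L l76 (T t579 N))))))))⟩
def e0_63_106__65_42_129 : Ent 4 := ⟨[a0, a63, a106], [a65, a42, a206], (M a48 (F (T t2348 (L l28 (L l76 (L l234 (T t579 (L l76 (T t551 N)))))))))⟩
def e0_63_106__65_42_130 : Ent 4 := ⟨[a0, a63, a106], [a65, a42, a207], (M a240 (F (T t6525 (L l512 (T t817 (L l76 (T t4781 N)))))))⟩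
def e0_63_106__65_42_131 : Ent 4 := ⟨[a0, a63, a106], [a65, a42, a212], (M a48 (F (T t304 (L l28 (L l76 (T t579 (L l76 (L l351 (T t551 N)))))))))⟩
def e0_63_106__65_42_132 : Ent 4 := ⟨[a0, a63, a106], [a65, a42, a213], (M a48 (F (T t304 (L l28 (L l76 (L l246 (T t579 (L l76 (L l347 (T t551 N))))))))))⟩
def e0_63_106__65_42_133 : Ent 4 := ⟨[a0, a63, a106], [a65, a42, a214], (M a48 (F (T t309 (L l76 (T t551 (L l28 (L l76 (T t579 N))))))))⟩
def e0_63_106__65_42_134 : Ent 4 := ⟨[a0, a63, a106], [a65, a42, a215], (M a48 (F (T t309 (L l76 (T t551 (L l28 (L l76 (L l245 (T t579 N)))))))))⟩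
def e0_63_106__65_42_135 : Ent 4 := ⟨[a0, a63, a106], [a65, a42, a216], (M a48 (F (T t309 (L l76 (L l298 (T t551 (L l28 (L l76 (T t579 N)))))))))⟩
def e0_63_106__65_42_136 : Ent 4 := ⟨[a0, a63, a106], [a65, a42, a217], (M a48 (F (T t309 (L l76 (T t551 (L l28 (L l76 (T t579 N))))))))⟩
def e0_63_106__65_42_137 : Ent 4 := ⟨[a0, a63, a106], [a65, a42, a218], (M a48 (F (T t2348 (L l28 (L l76 (L l246 (L l282 (T t579 (L l76 (L l303 (T t551 N)))))))))))⟩
def e0_63_106__65_42_138 : Ent 4 := ⟨[a0, a63, a106], [a65, a42, a219], (M a48 (F (T t309 (L l76 (T t551 (L l28 (L l76 (L l245 (T t579 N)))))))))⟩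
def e0_63_106__65_42_139 : Ent 4 := ⟨[a0, a63, a106], [a65, a42, a220], (M a48 (F (T t309 (L l76 (T t551 (L l28 (L l76 (L l241 (T t579 N)))))))))⟩
def e0_63_106__65_42_140 : Ent 4 := ⟨[a0, a63, a106], [a65, a42, a221], (M a48 (F (T t309 (L l76 (T t551 (L l28 (L l76 (L l241 (T t579 N)))))))))⟩
def e0_63_106__65_42_141 : Ent 4 := ⟨[a0, a63, a106], [a65, a42, a222], (M a48 (F (T t309 (L l76 (T t551 (L l28 (L l76 (L l241 (T t579 N)))))))))⟩
def e0_63_106__65_42_142 : Ent 4 := ⟨[a0, a63, a106], [a65, a42, a223], (M a240 (F (T t4786 (L l368 (T t817 (L l76 (L l361 (T t4781 N))))))))⟩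
def e0_63_106__65_42_143 : Ent 4 := ⟨[a0, a63, a106], [a65, a42, a232], (M a48 (F (T t304 (L l28 (L l76 (T t579 (L l76 (T t551 N))))))))⟩
def e0_63_106__65_42_144 : Ent 4 := ⟨[a0, a63, a106], [a65, a42, a233], (M a48 (F (T t309 (L l76 (T t551 (L l28 (L l76 (T t579 N))))))))⟩
def e0_63_106__65_42_145 : Ent 4 := ⟨[a0, a63, a106], [a65, a42, a234], (M a48 (F (T t578 (L l28 (L l76 (L l282 (T t579 (L l76 (T t551 N)))))))))⟩
def e0_63_106__65_42_146 : Ent 4 := ⟨[a0, a63, a106], [a65, a42, a235], (M a48 (F (T t309 (L l76 (T t551 (L l28 (L l76 (T t579 N))))))))⟩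
def e0_63_106__65_42_147 : Ent 4 := ⟨[a0, a63, a106], [a65, a42, a236], (M a48 (F (T t309 (L l76 (T t551 (L l28 (L l76 (L l400 (T t579 N)))))))))⟩
def e0_63_106__65_42_148 : Ent 4 := ⟨[a0, a63, a106], [a65, a42, a237], (M a48 (F (T t309 (L l76 (T t551 (L l28 (L l76 (T t579 N))))))))⟩
def e0_63_106__65_42_149 : Ent 4 := ⟨[a0, a63, a106], [a65, a42, a238], (M a48 (F (T t309 (L l76 (T t551 (L l28 (L l76 (T t579 N))))))))⟩
def e0_63_106__65_42_150 : Ent 4 := ⟨[a0, a63, a106], [a65, a42, a239], (M a48 (F (T t309 (L l76 (T t551 (L l28 (L l76 (L l289 (L l404 (T t579 N))))))))))⟩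
def e0_63_106__65_42_151 : Ent 4 := ⟨[a0, a63, a106], [a65, a42, a252], (M a48 (F (T t585 (L l76 (L l262 (T t551 (L l28 (L l76 (T t579 N)))))))))⟩
def e0_63_106__65_42_152 : Ent 4 := ⟨[a0, a63, a106], [a65, a42, a253], (M a48 (F (T t309 (L l76 (T t551 (L l28 (L l76 (T t579 N))))))))⟩
def e0_63_106__65_42_153 : Ent 4 := ⟨[a0, a63, a106], [a65, a42, a254], (M a48 (F (T t309 (L l76 (T t551 (L l28 (L l76 (T t579 N))))))))⟩
def e0_63_106__65_42_154 : Ent 4 := ⟨[a0, a63, a106], [a65, a42, a255], (M a48 (F (T t585 (L l76 (L l266 (T t551 (L l28 (L l141 (L l469 (T t6526 (L l28 (L l289 (T t6527 N)))))))))))))⟩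
def b0_63_106__65_42 : Blk 4 := ⟨[0, 63, 106], [65, 42], [1, 2, 3, 4, 5, 6, 7, 8, 9, 10, 11, 12, 13, 14, 15, 20, 21, 22, 23, 24, 25, 26, 27, 28, 29, 30, 31, 40, 41, 43, 44, 45, 46, 47, 60, 61, 62, 64, 66, 67, 68, 69, 70, 71, 72, 73, 74, 75, 76, 77, 78, 79, 84, 85, 86, 87, 88, 89, 90, 91, 92, 93, 94, 95, 104, 105, 107, 108, 109, 110, 111, 124, 125, 126, 127, 128, 129, 130, 131, 132, 133, 134, 135, 136, 137, 138, 139, 140, 141, 142, 143, 148, 149, 150, 151, 152, 153, 154, 155, 156, 157, 158, 159, 168, 169, 170, 171, 172, 173, 174, 175, 188, 189, 190, 191, 192, 193, 194, 195, 196, 197, 198, 199, 200, 201, 202, 203, 204, 205, 206, 207, 212, 213, 214, 215, 216, 217, 218, 219, 220, 221, 222, 223, 232, 233, 234, 235, 236, 237, 238, 239, 252, 253, 254, 255], [e0_63_106__65_42_0, e0_63_106__65_42_1, e0_63_106__65_42_2, e0_63_106__65_42_3, e0_63_106__65_42_4, e0_63_106__65_42_5, e0_63_106__65_42_6, e0_63_106__65_42_7,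 e0_63_106__65_42_8, e0_63_106__65_42_9, e0_63_106__65_42_10, e0_63_106__65_42_11, e0_63_106__65_42_12, e0_63_106__65_42_13, e0_63_106__65_42_14, e0_63_106__65_42_15, e0_63_106__65_42_16, e0_63_106__65_42_17, e0_63_106__65_42_18, e0_63_106__65_42_19, e0_63_106__65_42_20, e0_63_106__65_42_21, e0_63_106__65_42_22, e0_63_106__65_42_23, e0_63_106__65_42_24, e0_63_106__65_42_25, e0_63_106__65_42_26, e0_63_106__65_42_27, e0_63_106__65_42_28, e0_63_106__65_42_29, e0_63_106__65_42_30, e0_63_106__65_42_31, e0_63_106__65_42_32, e0_63_106__65_42_33, e0_63_106__65_42_34, e0_63_106__65_42_35, e0_63_106__65_42_36, e0_63_106__65_42_37, e0_63_106__65_42_38, e0_63_106__65_42_39, e0_63_106__65_42_40, e0_63_106__65_42_41, e0_63_106__65_42_42, e0_63_106__65_42_43, e0_63_106__65_42_44, e0_63_106__65_42_45, e0_63_106__65_42_46, e0_63_106__65_42_47, e0_63_106__65_42_48, e0_63_106__65_42_49, e0_63_106__65_42_50, e0_63_106__65_42_51,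 e0_63_106__65_42_52, e0_63_106__65_42_53, e0_63_106__65_42_54, e0_63_106__65_42_55, e0_63_106__65_42_56, e0_63_106__65_42_57, e0_63_106__65_42_58, e0_63_106__65_42_59, e0_63_106__65_42_60, e0_63_106__65_42_61, e0_63_106__65_42_62, e0_63_106__65_42_63, e0_63_106__65_42_64, e0_63_106__65_42_65, e0_63_106__65_42_66, e0_63_106__65_42_67, e0_63_106__65_42_68, e0_63_106__65_42_69, e0_63_106__65_42_70, e0_63_106__65_42_71, e0_63_106__65_42_72, e0_63_106__65_42_73, e0_63_106__65_42_74, e0_63_106__65_42_75, e0_63_106__65_42_76, e0_63_106__65_42_77, e0_63_106__65_42_78, e0_63_106__65_42_79, e0_63_106__65_42_80, e0_63_106__65_42_81, e0_63_106__65_42_82, e0_63_106__65_42_83, e0_63_106__65_42_84, e0_63_106__65_42_85, e0_63_106__65_42_86, e0_63_106__65_42_87, e0_63_106__65_42_88, e0_63_106__65_42_89, e0_63_106__65_42_90, e0_63_106__65_42_91, e0_63_106__65_42_92, e0_63_106__65_42_93, e0_63_106__65_42_94, e0_63_106__65_42_95,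 e0_63_106__65_42_96, e0_63_106__65_42_97, e0_63_106__65_42_98, e0_63_106__65_42_99, e0_63_106__65_42_100, e0_63_106__65_42_101, e0_63_106__65_42_102, e0_63_106__65_42_103, e0_63_106__65_42_104, e0_63_106__65_42_105, e0_63_106__65_42_106, e0_63_106__65_42_107, e0_63_106__65_42_108, e0_63_106__65_42_109, e0_63_106__65_42_110, e0_63_106__65_42_111, e0_63_106__65_42_112, e0_63_106__65_42_113, e0_63_106__65_42_114, e0_63_106__65_42_115, e0_63_106__65_42_116, e0_63_106__65_42_117, e0_63_106__65_42_118, e0_63_106__65_42_119, e0_63_106__65_42_120, e0_63_106__65_42_121, e0_63_106__65_42_122, e0_63_106__65_42_123, e0_63_106__65_42_124, e0_63_106__65_42_125, e0_63_106__65_42_126, e0_63_106__65_42_127, e0_63_106__65_42_128, e0_63_106__65_42_129, e0_63_106__65_42_130, e0_63_106__65_42_131, e0_63_106__65_42_132, e0_63_106__65_42_133, e0_63_106__65_42_134, e0_63_106__65_42_135, e0_63_106__65_42_136, e0_63_106__65_42_137,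 e0_63_106__65_42_138, e0_63_106__65_42_139, e0_63_106__65_42_140, e0_63_106__65_42_141, e0_63_106__65_42_142, e0_63_106__65_42_143, e0_63_106__65_42_144, e0_63_106__65_42_145, e0_63_106__65_42_146, e0_63_106__65_42_147, e0_63_106__65_42_148, e0_63_106__65_42_149, e0_63_106__65_42_150, e0_63_106__65_42_151, e0_63_106__65_42_152, e0_63_106__65_42_153, e0_63_106__65_42_154], by decide +kernel, by decide +kernel⟩
def e0_63_106__66_42_0 : Ent 4 := ⟨[a0, a63, a106], [a66, a42, a1], (M a48 (F (T t304 (L l28 (L l76 (T t579 (L l76 (T t551 N))))))))⟩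
def e0_63_106__66_42_1 : Ent 4 := ⟨[a0, a63, a106], [a66, a42, a2], (M a48 (L l66 (L l306 (F (T t585 (L l76 (T t551 (L l28 (L l76 (T t579 (K a130 (M a194 (L l66 (F (T t587 (L l28 (L l76 (T t579 (K a22 (Fr a62 a150 l516 (V t825)) (K a62 (M a22 (F (T t578 (L l28 (L l76 (T t579 (L l76 (T t551 N)))))))) N))))))))) (K a194 (M a130 (L l66 (F (T t578 (L l76 (T t596 (K a22 (M a62 (F (T t578 (L l76 (T t596 N))))) (K a62 (M a22 (F (T t578 (L l76 (T t596 N))))) N)))))))) (K a22 (M a62 (L l306 (F (T t307 (L l22 (T t3443 (K a130 (Fr a194 a150 l516 (V t825)) (K a194 (M a130 (F (T t578 (L l76 (T t596 N))))) N)))))))) (K a62 (M a22 (L l306 (F (T t578 (L l28 (L l76 (T t579 (L l76 (T t551 (K a130 (M a194 (F (T t578 (L l28 (L l76 (T t579 (L l76 (T t551 N)))))))) (K a194 (M a130 (F (T t578 (L l76 (T t596 N))))) N))))))))))) N))))))))))))))⟩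
def e0_63_106__66_42_2 : Ent 4 := ⟨[a0, a63, a106], [a66, a42, a3], (M a243 (L l309 (F (T t6529 (L l43 (T t6530 (L l76 (T t6531 (K a192 (M a129 (F (L l76 (L l334 (T t6531 (L l232 (L l334 (T t6532 (L l296 (L l334 (L l475 (T t6533 (L l26 (L l334 (T t6534 (L l76 (L l334 (T t6535 (K a132 (M a89 (L l334 (F (T t6536 (L l296 (L l475 (T t6537 (K a72 (Fr a12 a166 l482 (V t6538)) (K a12 (Fr a72 a123 l132 (V t6539)) N))))))))) (K a72 (M a166 (L l334 (F (T t6540 (L l296 (L l475 (T t6541 (L l56 (L l76 (L l80 (L l316 (T t6542 (K a132 (Fr a12 a89 l482 (V t6543)) (K a12 (M a132 (L l9 (F (T t6544 (L l26 (L l118 (L l232 (L l316 (L l489 (T t6545 (K a9 (M a6 (F (T t6544 (L l2 (L l54 (L l470 (T t6546 N))))))) (K a6 (M a9 (F (T t6544 (L l26 (L l118 (L l232 (L l316 (L l489 (T t6545 N))))))))) N)))))))))))) N)))))))))))))) (K a12 (M a160 (L l9 (L l334 (F (T t6547 (L l306 (T t6548 (K a132 (M a72 (L l9 (F (T t6549 (L l306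 (T t6548 (K a9 (M a6 (F (T t6549 (L l306 (T t6548 N))))) (K a6 (M a9 (F (T t6549 (L l484 (T t6550 N))))) N)))))))) (K a72 (M a132 (L l9 (F (T t6551 (L l306 (T t6548 (K a9 (M a6 (F (T t6551 (L l306 (T t6548 N))))) (K a6 (M a9 (F (T t6551 (L l306 (T t6548 N))))) N)))))))) (K a9 (M a6 (L l334 (F (T t6547 (L l306 (T t6548 (K a132 (M a72 (F (T t6549 (L l306 (T t6548 N))))) (K a72 (M a132 (F (T t6551 (L l306 (T t6548 N))))) N)))))))) (K a6 (M a9 (L l334 (F (T t6551 (L l306 (T t6548 (K a132 (M a72 (F (T t6549 (L l484 (T t6550 N))))) (K a72 (M a132 (F (T t6551 (L l306 (T t6548 N))))) N)))))))) N))))))))))) (K a85 (M a160 (F (L l94 (T t6547 (L l91 (L l306 (T t6548 N))))))) (K a89 (M a160 (F (T t6547 (L l91 (L l306 (T t6548 N)))))) (K a183 (M a17 (F (L l45 (T t6552 (L l26 (L l232 (L l421 (T t6553 N)))))))) (K a123 (M a17 (F (L l45 (T t6552 (L l26 (L l232 (T t6553 N))))))) N))))))))))))))))))))))))) (K a129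 (Fr a192 a149 l519 (V t6554)) N))))))))))⟩
def e0_63_106__66_42_3 : Ent 4 := ⟨[a0, a63, a106], [a66, a42, a4], (M a48 (F (T t304 (L l28 (L l76 (T t579 (L l76 (T t551 N))))))))⟩
def e0_63_106__66_42_4 : Ent 4 := ⟨[a0, a63, a106], [a66, a42, a5], (M a48 (F (T t578 (L l28 (L l47 (L l76 (T t579 (L l76 (T t551 N)))))))))⟩
def e0_63_106__66_42_5 : Ent 4 := ⟨[a0, a63, a106], [a66, a42, a6], (M a48 (F (T t304 (L l28 (L l76 (T t579 (L l76 (T t551 N))))))))⟩
def e0_63_106__66_42_6 : Ent 4 := ⟨[a0, a63, a106], [a66, a42, a7], (M a48 (F (T t304 (L l28 (L l76 (T t579 (L l76 (T t551 N))))))))⟩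
def e0_63_106__66_42_7 : Ent 4 := ⟨[a0, a63, a106], [a66, a42, a8], (M a48 (L l56 (F (T t585 (L l76 (T t551 (L l28 (L l76 (T t579 (K a25 (M a59 (F (T t585 (L l26 (L l76 (L l316 (T t6445 N))))))) (K a59 (M a25 (F (T t578 (L l28 (L l76 (T t579 (L l76 (T t551 N)))))))) N)))))))))))⟩
def e0_63_106__66_42_8 : Ent 4 := ⟨[a0, a63, a106], [a66, a42, a9], (M a48 (F (T t304 (L l28 (L l76 (T t579 (L l76 (T t551 N))))))))⟩
def e0_63_106__66_42_9 : Ent 4 := ⟨[a0, a63, a106], [a66, a42, a10], (M a48 (L l54 (F (T t578 (L l28 (L l76 (L l318 (T t579 (L l76 (T t551 (K a26 (Fr a58 a53 l38 (V t6446)) (K a58 (M a26 (F (L l28 (T t4144 (L l76 (T t551 (L l28 (L l426 (T t6447 (K a32 (Fr a192 a149 l519 (Fr a15 a37 l75 (Fr a47 a31 l61 (V t6528)))) N)))))))))) N))))))))))))⟩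
def e0_63_106__66_42_10 : Ent 4 := ⟨[a0, a63, a106], [a66, a42, a11], (M a48 (F (T t304 (L l28 (L l76 (T t579 (L l76 (T t551 N))))))))⟩
def e0_63_106__66_42_11 : Ent 4 := ⟨[a0, a63, a106], [a66, a42, a12], (M a48 (F (T t585 (L l76 (L l478 (T t551 (L l28 (L l76 (T t579 N)))))))))⟩
def e0_63_106__66_42_12 : Ent 4 := ⟨[a0, a63, a106], [a66, a42, a13], (M a48 (F (T t304 (L l28 (L l76 (T t579 (L l76 (T t551 N))))))))⟩
def e0_63_106__66_42_13 : Ent 4 := ⟨[a0, a63, a106], [a66, a42, a14], (M a48 (F (T t304 (L l28 (L l76 (T t579 (L l76 (T t551 N))))))))⟩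
def e0_63_106__66_42_14 : Ent 4 := ⟨[a0, a63, a106], [a66, a42, a15], (M a48 (F (T t585 (L l76 (L l483 (T t551 (L l28 (L l76 (T t579 N)))))))))⟩
def e0_63_106__66_42_15 : Ent 4 := ⟨[a0, a63, a106], [a66, a42, a20], (M a48 (F (T t304 (L l28 (L l76 (T t579 (L l76 (T t551 N))))))))⟩
def e0_63_106__66_42_16 : Ent 4 := ⟨[a0, a63, a106], [a66, a42, a21], (M a48 (F (L l47 (T t304 (L l76 (L l347 (T t551 (L l28 (L l47 (L l76 (T t579 N)))))))))))⟩
def e0_63_106__66_42_17 : Ent 4 := ⟨[a0, a63, a106], [a66, a42, a22], (M a48 (L l66 (F (T t304 (L l28 (L l76 (T t579 (L l76 (T t551 (K a2 (M a62 (L l306 (F (T t307 (L l22 (T t3443 (K a130 (Fr a194 a150 l516 (V t825)) (K a194 (M a130 (F (T t578 (L l76 (T t596 N))))) N)))))))) (K a62 (M a2 (F (T t307 (L l19 (L l28 (T t342 N)))))) N)))))))))))⟩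
def e0_63_106__66_42_18 : Ent 4 := ⟨[a0, a63, a106], [a66, a42, a23], (M a48 (F (T t304 (L l28 (L l76 (T t579 (L l76 (L l351 (T t551 N)))))))))⟩
def e0_63_106__66_42_19 : Ent 4 := ⟨[a0, a63, a106], [a66, a42, a24], (M a48 (F (T t304 (L l28 (L l76 (T t579 (L l76 (T t551 N))))))))⟩
def e0_63_106__66_42_20 : Ent 4 := ⟨[a0, a63, a106], [a66, a42, a25], (M a48 (L l56 (F (T t304 (L l28 (L l76 (T t579 (L l76 (T t551 (K a8 (M a59 (F (T t585 (L l26 (L l76 (L l316 (T t6445 N))))))) (K a59 (M a8 (F (T t307 (L l19 (L l28 (T t4700 N)))))) N)))))))))))⟩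
def e0_63_106__66_42_21 : Ent 4 := ⟨[a0, a63, a106], [a66, a42, a26], (M a48 (L l54 (F (T t304 (L l28 (L l76 (T t579 (L l76 (T t551 (K a10 (Fr a58 a53 l38 (V t6446)) (K a58 (M a10 (F (T t4033 (L l76 (T t551 (L l18 (L l354 (T t6449 (L l18 (L l426 (T t6450 N))))))))))) N)))))))))))⟩
def e0_63_106__66_42_22 : Ent 4 := ⟨[a0, a63, a106], [a66, a42, a27], (M a48 (F (T t304 (L l28 (L l76 (T t579 (L l76 (T t551 N))))))))⟩
def e0_63_106__66_42_23 : Ent 4 := ⟨[a0, a63, a106], [a66, a42, a28], (M a48 (F (T t585 (L l76 (T t551 (L l28 (L l76 (L l362 (T t579 N)))))))))⟩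
def e0_63_106__66_42_24 : Ent 4 := ⟨[a0, a63, a106], [a66, a42, a29], (M a48 (F (T t304 (L l28 (L l76 (T t579 (L l76 (L l371 (T t551 N)))))))))⟩
def e0_63_106__66_42_25 : Ent 4 := ⟨[a0, a63, a106], [a66, a42, a30], (M a48 (F (T t304 (L l28 (L l76 (T t579 (L l76 (T t551 N))))))))⟩
def e0_63_106__66_42_26 : Ent 4 := ⟨[a0, a63, a106], [a66, a42, a31], (M a48 (F (T t304 (L l28 (L l76 (L l361 (T t579 (L l76 (L l375 (T t551 N))))))))))⟩
def e0_63_106__66_42_27 : Ent 4 := ⟨[a0, a63, a106], [a66, a42, a40], (M a48 (L l22 (F (T t585 (L l76 (T t551 (L l24 (L l28 (L l76 (T t579 (K a41 (M a43 (F (T t578 (L l66 (L l76 (L l306 (L l388 (T t6451 N)))))))) (K a43 (M a41 (F (T t578 (L l24 (L l28 (L l76 (T t579 (L l76 (T t551 N))))))))) N))))))))))))⟩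
def e0_63_106__66_42_28 : Ent 4 := ⟨[a0, a63, a106], [a66, a42, a41], (M a48 (L l22 (F (T t304 (L l28 (L l76 (T t579 (L l76 (T t551 (K a40 (M a43 (F (T t578 (L l66 (L l76 (L l306 (L l388 (T t6451 N)))))))) (K a43 (M a40 (F (T t304 (L l29 (L l69 (T t6452 N)))))) N)))))))))))⟩
def e0_63_106__66_42_29 : Ent 4 := ⟨[a0, a63, a106], [a66, a42, a43], (M a48 (L l22 (F (T t304 (L l28 (L l76 (T t579 (L l76 (T t551 (K a40 (M a41 (F (T t578 (L l24 (L l28 (L l76 (T t579 (L l76 (T t551 N))))))))) (K a41 (M a40 (F (T t304 (L l29 (L l69 (T t6452 N)))))) N)))))))))))⟩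
def e0_63_106__66_42_30 : Ent 4 := ⟨[a0, a63, a106], [a66, a42, a44], (M a48 (F (T t304 (L l24 (L l28 (L l76 (T t579 (L l76 (T t551 N)))))))))⟩
def e0_63_106__66_42_31 : Ent 4 := ⟨[a0, a63, a106], [a66, a42, a45], (M a48 (F (T t304 (L l28 (L l76 (T t579 (L l76 (T t551 N))))))))⟩
def e0_63_106__66_42_32 : Ent 4 := ⟨[a0, a63, a106], [a66, a42, a46], (M a48 (L l26 (F (T t304 (L l28 (L l76 (T t579 (L l76 (T t551 (K a34 (M a38 (F (T t578 (L l20 (L l28 (L l76 (T t579 (L l76 (T t551 N))))))))) (K a38 (M a34 (F (T t307 (L l28 (L l72 (L l74 (T t6555 N))))))) N)))))))))))⟩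
def e0_63_106__66_42_33 : Ent 4 := ⟨[a0, a63, a106], [a66, a42, a47], (M a12 (L l28 (F (T t2414 (L l56 (L l76 (T t2415 (L l76 (T t2305 (K a32 (M a37 (F (T t2416 (L l56 (L l76 (T t2415 (L l76 (T t2305 N)))))))) (K a37 (M a32 (F (T t2414 (L l51 (L l56 (T t682 N)))))) N)))))))))))⟩
def e0_63_106__66_42_34 : Ent 4 := ⟨[a0, a63, a106], [a66, a42, a60], (M a48 (F (T t585 (L l76 (L l442 (T t551 (L l28 (L l76 (T t579 N)))))))))⟩
def e0_63_106__66_42_35 : Ent 4 := ⟨[a0, a63, a106], [a66, a42, a61], (M a48 (F (L l35 (T t304 (L l76 (L l515 (T t551 (L l28 (L l35 (L l76 (T t579 N)))))))))))⟩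
def e0_63_106__66_42_36 : Ent 4 := ⟨[a0, a63, a106], [a66, a42, a62], (M a48 (L l66 (F (T t304 (L l28 (L l76 (T t579 (L l76 (T t551 (K a2 (M a22 (L l306 (F (T t578 (L l28 (L l76 (T t579 (L l76 (T t551 (K a130 (M a194 (F (T t578 (L l28 (L l76 (T t579 (L l76 (T t551 N)))))))) (K a194 (M a130 (F (T t578 (L l76 (T t596 N))))) N))))))))))) (K a22 (M a2 (F (T t307 (L l19 (L l28 (T t342 N)))))) N)))))))))))⟩
def e0_63_106__66_42_37 : Ent 4 := ⟨[a0, a63, a106], [a66, a42, a64], (M a48 (L l76 (F (T t585 (L l28 (T t6454 (L l28 (T t6455 (L l28 (T t6456 (L l28 (L l84 (L l309 (T t6457 (L l54 (L l309 (T t6458 (K a207 (Fr a192 a149 l519 (Fr a96 a144 l484 (Fr a101 a111 l104 (Fr a32 a16 l40 (V t6459))))) (K a65 (M a67 (F (T t307 (L l28 (T t6454 (L l28 (T t6455 (L l28 (T t6456 (L l28 (L l81 (L l84 (L l309 (T t6457 (L l54 (L l309 (T t6458 (K a207 (Fr a192 a149 l519 (Fr a96 a144 l484 (Fr a101 a111 l104 (Fr a32 a16 l40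 (V t6459))))) N)))))))))))))))))) (K a67 (M a65 (F (T t307 (L l306 (T t688 N))))) N))))))))))))))))))))⟩
def e0_63_106__66_42_38 : Ent 4 := ⟨[a0, a63, a106], [a66, a42, a65], (M a48 (L l76 (F (T t304 (L l28 (T t6462 (L l28 (T t6463 (K a64 (M a67 (F (T t307 (L l28 (T t6454 (L l28 (T t6455 (L l28 (T t6456 (L l28 (L l81 (L l84 (L l309 (T t6457 (L l54 (L l309 (T t6458 (K a207 (Fr a192 a149 l519 (Fr a96 a144 l484 (Fr a101 a111 l104 (Fr a32 a16 l40 (V t6459))))) N)))))))))))))))))) (K a67 (M a64 (F (T t394 (L l121 (L l141 (T t6464 N)))))) N))))))))))⟩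
def e0_63_106__66_42_39 : Ent 4 := ⟨[a0, a63, a106], [a66, a42, a67], (M a48 (L l76 (F (T t304 (L l28 (T t6462 (L l28 (T t6463 (K a64 (M a65 (F (T t307 (L l306 (T t688 N))))) (K a65 (M a64 (F (T t394 (L l121 (L l141 (T t6464 N)))))) N))))))))))⟩
def e0_63_106__66_42_40 : Ent 4 := ⟨[a0, a63, a106], [a66, a42, a68], (M a48 (F (T t304 (L l28 (L l76 (L l80 (T t579 (L l76 (L l80 (T t551 N))))))))))⟩
def e0_63_106__66_42_41 : Ent 4 := ⟨[a0, a63, a106], [a66, a42, a69], (M a48 (F (T t304 (L l28 (L l76 (L l84 (T t579 (L l76 (L l84 (T t551 N))))))))))⟩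
def e0_63_106__66_42_42 : Ent 4 := ⟨[a0, a63, a106], [a66, a42, a70], (M a48 (L l82 (F (T t304 (L l28 (L l76 (T t579 (L l76 (T t551 (K a74 (M a78 (F (T t578 (L l28 (L l76 (L l84 (L l318 (T t579 (L l76 (L l84 (T t551 N))))))))))) (K a78 (M a74 (F (T t307 (L l315 (T t6556 (L l28 (L l76 (T t579 N)))))))) N)))))))))))⟩
def e0_63_106__66_42_43 : Ent 4 := ⟨[a0, a63, a106], [a66, a42, a71], (M a48 (F (T t5173 (L l28 (L l76 (T t579 (L l76 (T t551 N))))))))⟩
def e0_63_106__66_42_44 : Ent 4 := ⟨[a0, a63, a106], [a66, a42, a72], (M a48 (F (T t304 (L l28 (L l76 (L l80 (T t579 (L l76 (L l80 (T t551 N))))))))))⟩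
def e0_63_106__66_42_45 : Ent 4 := ⟨[a0, a63, a106], [a66, a42, a73], (M a48 (F (T t304 (L l28 (L l76 (T t579 (L l76 (T t551 N))))))))⟩
def e0_63_106__66_42_46 : Ent 4 := ⟨[a0, a63, a106], [a66, a42, a74], (M a48 (L l82 (F (T t578 (L l28 (L l76 (L l84 (L l318 (T t579 (L l76 (L l84 (T t551 (K a70 (M a78 (F (T t578 (L l28 (L l76 (L l84 (L l318 (T t579 (L l76 (L l84 (T t551 N))))))))))) (K a78 (M a70 (F (T t578 (L l28 (L l76 (L l84 (L l318 (T t579 (L l76 (L l84 (T t551 N))))))))))) N))))))))))))))⟩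
def e0_63_106__66_42_47 : Ent 4 := ⟨[a0, a63, a106], [a66, a42, a75], (M a48 (F (T t304 (L l28 (L l76 (T t579 (L l76 (T t551 N))))))))⟩
def e0_63_106__66_42_48 : Ent 4 := ⟨[a0, a63, a106], [a66, a42, a76], (M a48 (F (T t304 (L l28 (L l76 (L l80 (T t579 (L l76 (L l80 (T t551 N))))))))))⟩
def e0_63_106__66_42_49 : Ent 4 := ⟨[a0, a63, a106], [a66, a42, a77], (M a48 (F (T t5173 (L l28 (L l76 (T t579 (L l76 (T t551 N))))))))⟩
def e0_63_106__66_42_50 : Ent 4 := ⟨[a0, a63, a106], [a66, a42, a78], (M a48 (L l82 (F (T t304 (L l28 (L l76 (T t579 (L l76 (T t551 (K a70 (M a74 (F (T t307 (L l315 (T t6556 (L l28 (L l76 (T t579 N)))))))) (K a74 (M a70 (F (T t578 (L l28 (L l76 (L l84 (L l318 (T t579 (L l76 (L l84 (T t551 N))))))))))) N)))))))))))⟩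
def e0_63_106__66_42_51 : Ent 4 := ⟨[a0, a63, a106], [a66, a42, a79], (M a48 (F (T t5173 (L l28 (L l76 (L l84 (T t579 (L l76 (L l84 (T t551 N))))))))))⟩
def e0_63_106__66_42_52 : Ent 4 := ⟨[a0, a63, a106], [a66, a42, a84], (M a48 (F (T t304 (L l28 (L l76 (L l140 (T t579 (L l76 (L l140 (T t551 N))))))))))⟩
def e0_63_106__66_42_53 : Ent 4 := ⟨[a0, a63, a106], [a66, a42, a85], (M a48 (F (L l309 (T t309 (L l76 (L l347 (T t551 (L l54 (L l309 (T t777 (L l368 (T t6465 (K a192 (M a3 (F (L l28 (L l489 (T t559 (L l236 (L l292 (T t6557 N)))))))) N)))))))))))))⟩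
def e0_63_106__66_42_54 : Ent 4 := ⟨[a0, a63, a106], [a66, a42, a86], (M a48 (F (T t304 (L l28 (L l76 (T t579 (L l76 (L l351 (T t551 N)))))))))⟩
def e0_63_106__66_42_55 : Ent 4 := ⟨[a0, a63, a106], [a66, a42, a87], (M a48 (F (T t585 (L l76 (T t551 (L l28 (L l76 (L l367 (T t579 N)))))))))⟩
def e0_63_106__66_42_56 : Ent 4 := ⟨[a0, a63, a106], [a66, a42, a88], (M a48 (F (T t304 (L l28 (L l76 (T t579 (L l76 (L l478 (T t551 N)))))))))⟩
def e0_63_106__66_42_57 : Ent 4 := ⟨[a0, a63, a106], [a66, a42, a89], (M a48 (F (T t304 (L l28 (L l76 (T t579 (L l76 (L l371 (T t551 N)))))))))⟩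
def e0_63_106__66_42_58 : Ent 4 := ⟨[a0, a63, a106], [a66, a42, a90], (M a48 (F (T t304 (L l28 (L l76 (T t579 (L l76 (L l375 (L l483 (T t551 N))))))))))⟩
def e0_63_106__66_42_59 : Ent 4 := ⟨[a0, a63, a106], [a66, a42, a91], (M a48 (F (T t304 (L l28 (L l76 (T t579 (L l76 (T t551 N))))))))⟩
def e0_63_106__66_42_60 : Ent 4 := ⟨[a0, a63, a106], [a66, a42, a92], (M a48 (F (T t304 (L l28 (L l76 (T t579 (L l76 (T t551 N))))))))⟩
def e0_63_106__66_42_61 : Ent 4 := ⟨[a0, a63, a106], [a66, a42, a93], (M a48 (F (T t585 (L l76 (T t551 (L l28 (L l76 (L l362 (T t579 N)))))))))⟩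
def e0_63_106__66_42_62 : Ent 4 := ⟨[a0, a63, a106], [a66, a42, a94], (M a48 (F (T t304 (L l28 (L l76 (T t579 (L l76 (T t551 N))))))))⟩
def e0_63_106__66_42_63 : Ent 4 := ⟨[a0, a63, a106], [a66, a42, a95], (M a48 (F (T t307 (L l28 (L l76 (L l361 (T t579 (L l76 (T t551 N)))))))))⟩
def e0_63_106__66_42_64 : Ent 4 := ⟨[a0, a63, a106], [a66, a42, a104], (M a48 (F (T t304 (L l28 (L l76 (L l140 (T t579 (L l76 (L l100 (L l140 (T t551 N)))))))))))⟩
def e0_63_106__66_42_65 : Ent 4 := ⟨[a0, a63, a106], [a66, a42, a105], (M a48 (F (T t304 (L l28 (L l76 (T t579 (L l76 (L l515 (T t551 N)))))))))⟩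
def e0_63_106__66_42_66 : Ent 4 := ⟨[a0, a63, a106], [a66, a42, a107], (M a48 (F (T t307 (L l28 (L l76 (T t579 (L l76 (T t551 N))))))))⟩
def e0_63_106__66_42_67 : Ent 4 := ⟨[a0, a63, a106], [a66, a42, a108], (M a48 (F (T t307 (L l28 (L l76 (T t579 (L l76 (L l100 (T t551 N)))))))))⟩
def e0_63_106__66_42_68 : Ent 4 := ⟨[a0, a63, a106], [a66, a42, a109], (M a48 (F (T t5173 (L l28 (L l76 (T t579 (L l76 (T t551 N))))))))⟩
def e0_63_106__66_42_69 : Ent 4 := ⟨[a0, a63, a106], [a66, a42, a110], (M a48 (F (T t307 (L l28 (L l76 (T t579 (L l76 (T t551 N))))))))⟩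
def e0_63_106__66_42_70 : Ent 4 := ⟨[a0, a63, a106], [a66, a42, a111], (M a240 (F (L l309 (T t4786 (T t817 (L l76 (L l82 (L l137 (T t4781 N)))))))))⟩
def e0_63_106__66_42_71 : Ent 4 := ⟨[a0, a63, a106], [a66, a42, a124], (M a48 (F (T t304 (L l28 (L l76 (L l140 (T t579 (L l76 (L l140 (T t551 N))))))))))⟩
def e0_63_106__66_42_72 : Ent 4 := ⟨[a0, a63, a106], [a66, a42, a125], (M a48 (F (T t304 (L l28 (L l76 (T t579 (L l76 (T t551 N))))))))⟩
def e0_63_106__66_42_73 : Ent 4 := ⟨[a0, a63, a106], [a66, a42, a126], (M a48 (F (T t304 (L l28 (L l76 (T t579 (L l76 (T t551 N))))))))⟩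
def e0_63_106__66_42_74 : Ent 4 := ⟨[a0, a63, a106], [a66, a42, a127], (M a48 (F (T t307 (L l76 (T t551 (L l28 (T t6454 (L l28 (T t6479 N)))))))))⟩
def e0_63_106__66_42_75 : Ent 4 := ⟨[a0, a63, a106], [a66, a42, a128], (M a48 (F (T t585 (L l28 (L l76 (T t579 (L l192 (L l220 (T t6480 (L l54 (L l160 (L l309 (T t6481 N)))))))))))))⟩
def e0_63_106__66_42_76 : Ent 4 := ⟨[a0, a63, a106], [a66, a42, a129], (M a48 (L l309 (F (T t304 (L l76 (L l217 (T t551 (L l28 (L l76 (T t579 (K a192 (M a3 (F (L l489 (T t348 (L l236 (L l292 (T t6557 N))))))) (K a3 (Fr a192 a149 l519 (V t6558)) N))))))))))))⟩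
def e0_63_106__66_42_77 : Ent 4 := ⟨[a0, a63, a106], [a66, a42, a130], (M a48 (L l306 (F (T t585 (L l76 (T t551 (L l28 (L l76 (T t579 (K a2 (M a194 (L l66 (F (T t587 (L l28 (L l76 (T t579 (K a22 (Fr a62 a150 l516 (V t825)) (K a62 (M a22 (F (T t578 (L l28 (L l76 (T t579 (L l76 (T t551 N)))))))) N))))))))) (K a194 (M a2 (F (T t578 (L l486 (T t339 N))))) N)))))))))))⟩
def e0_63_106__66_42_78 : Ent 4 := ⟨[a0, a63, a106], [a66, a42, a131], (M a48 (F (T t304 (L l28 (L l76 (T t579 (L l76 (L l197 (T t551 N)))))))))⟩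
def e0_63_106__66_42_79 : Ent 4 := ⟨[a0, a63, a106], [a66, a42, a132], (M a48 (F (T t585 (L l76 (L l202 (T t551 (L l28 (L l76 (T t579 N)))))))))⟩
def e0_63_106__66_42_80 : Ent 4 := ⟨[a0, a63, a106], [a66, a42, a133], (M a48 (F (T t585 (L l76 (L l199 (T t551 (L l28 (L l76 (T t579 N)))))))))⟩
def e0_63_106__66_42_81 : Ent 4 := ⟨[a0, a63, a106], [a66, a42, a134], (M a48 (F (T t304 (L l28 (L l76 (T t579 (L l76 (T t551 N))))))))⟩
def e0_63_106__66_42_82 : Ent 4 := ⟨[a0, a63, a106], [a66, a42, a135], (M a48 (F (T t304 (L l28 (L l76 (T t579 (L l76 (T t551 N))))))))⟩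
def e0_63_106__66_42_83 : Ent 4 := ⟨[a0, a63, a106], [a66, a42, a136], (M a48 (F (T t585 (L l76 (T t551 (L l28 (L l76 (T t579 N))))))))⟩
def e0_63_106__66_42_84 : Ent 4 := ⟨[a0, a63, a106], [a66, a42, a137], (M a48 (F (T t304 (L l28 (L l76 (T t579 (L l76 (T t551 N))))))))⟩
def e0_63_106__66_42_85 : Ent 4 := ⟨[a0, a63, a106], [a66, a42, a138], (M a48 (F (T t578 (L l28 (L l76 (L l318 (T t579 (L l76 (T t551 N)))))))))⟩
def e0_63_106__66_42_86 : Ent 4 := ⟨[a0, a63, a106], [a66, a42, a139], (M a48 (F (T t585 (L l76 (T t551 (L l28 (L l76 (T t579 N))))))))⟩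
def e0_63_106__66_42_87 : Ent 4 := ⟨[a0, a63, a106], [a66, a42, a140], (M a48 (F (T t304 (L l28 (L l76 (T t579 (L l76 (L l222 (T t551 N)))))))))⟩
def e0_63_106__66_42_88 : Ent 4 := ⟨[a0, a63, a106], [a66, a42, a141], (M a48 (F (T t304 (L l28 (L l76 (T t579 (L l76 (T t551 N))))))))⟩
def e0_63_106__66_42_89 : Ent 4 := ⟨[a0, a63, a106], [a66, a42, a142], (M a48 (F (T t585 (L l76 (T t551 (L l28 (L l76 (T t579 N))))))))⟩
def e0_63_106__66_42_90 : Ent 4 := ⟨[a0, a63, a106], [a66, a42, a143], (M a48 (F (T t585 (L l28 (T t6462 (L l28 (L l76 (T t579 N))))))))⟩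
def e0_63_106__66_42_91 : Ent 4 := ⟨[a0, a63, a106], [a66, a42, a148], (M a48 (F (T t585 (L l76 (L l163 (T t551 (L l28 (L l76 (T t579 N)))))))))⟩
def e0_63_106__66_42_92 : Ent 4 := ⟨[a0, a63, a106], [a66, a42, a149], (M a243 (F (L l202 (L l220 (T t6559 (L l26 (L l76 (L l202 (L l371 (T t6560 (L l202 (L l347 (T t6561 (L l26 (L l202 (L l220 (L l371 (T t6562 (K a132 (M a166 (F (T t6563 (L l26 (L l156 (L l220 (L l310 (L l371 (T t6564 (L l156 (L l220 (T t6565 N)))))))))))) (K a72 (M a170 (F (T t6566 (L l347 (L l495 (T t6567 N)))))) (K a89 (M a240 (L l371 (F (T t6568 (L l91 (L l309 (T t6569 (L l76 (L l82 (L l199 (T t4781 (K a209 (M a29 (F (T t6568 (L l26 (L l95 (T t6570 N)))))) (K a29 (M a209 (F (T t6568 (L l15 (T t6571 N))))) N))))))))))))) (K a166 (M a89 (L l202 (F (T t6536 (L l76 (L l178 (T t6572 (K a132 (Fr a183 a123 l445 (V t6572)) (K a183 (M a132 (F (L l76 (L l178 (T t6572 (L l309 (L l458 (T t6573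 (L l220 (T t6574 N)))))))))) N))))))))) (K a183 (M a166 (F (T t6540 (L l347 (T t6575 (L l26 (L l220 (L l371 (T t6564 (L l220 (T t6565 N))))))))))) (K a123 (M a48 (F (T t6576 (L l491 (T t6577 (L l28 (L l76 (L l491 (T t579 N))))))))) N))))))))))))))))))))))))⟩
def e0_63_106__66_42_93 : Ent 4 := ⟨[a0, a63, a106], [a66, a42, a150], (M a48 (F (T t304 (L l28 (L l76 (T t579 (L l76 (L l163 (T t551 N)))))))))⟩
def e0_63_106__66_42_94 : Ent 4 := ⟨[a0, a63, a106], [a66, a42, a151], (M a48 (F (T t304 (L l28 (L l76 (T t579 (L l76 (L l163 (T t551 N)))))))))⟩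
def e0_63_106__66_42_95 : Ent 4 := ⟨[a0, a63, a106], [a66, a42, a152], (M a48 (F (T t304 (L l28 (L l76 (T t579 (L l76 (L l222 (T t551 N)))))))))⟩
def e0_63_106__66_42_96 : Ent 4 := ⟨[a0, a63, a106], [a66, a42, a153], (M a48 (F (T t304 (L l28 (L l76 (T t579 (L l76 (L l167 (T t551 N)))))))))⟩
def e0_63_106__66_42_97 : Ent 4 := ⟨[a0, a63, a106], [a66, a42, a154], (M a240 (F (L l309 (T t4786 (L l170 (L l368 (L l512 (T t817 (L l76 (L l82 (T t4781 N)))))))))))⟩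
def e0_63_106__66_42_98 : Ent 4 := ⟨[a0, a63, a106], [a66, a42, a155], (M a48 (F (T t585 (L l76 (T t551 (L l28 (L l76 (L l367 (T t579 N)))))))))⟩
def e0_63_106__66_42_99 : Ent 4 := ⟨[a0, a63, a106], [a66, a42, a156], (M a48 (F (T t304 (L l28 (L l76 (T t579 (L l76 (T t551 N))))))))⟩
def e0_63_106__66_42_100 : Ent 4 := ⟨[a0, a63, a106], [a66, a42, a157], (M a48 (F (T t304 (L l28 (L l76 (T t579 (L l76 (L l167 (T t551 N)))))))))⟩
def e0_63_106__66_42_101 : Ent 4 := ⟨[a0, a63, a106], [a66, a42, a158], (M a48 (F (T t585 (L l76 (T t551 (L l28 (L l76 (L l362 (T t579 N)))))))))⟩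
def e0_63_106__66_42_102 : Ent 4 := ⟨[a0, a63, a106], [a66, a42, a159], (M a240 (F (L l309 (T t4786 (L l170 (T t817 (L l76 (L l82 (L l361 (T t4781 N))))))))))⟩
def e0_63_106__66_42_103 : Ent 4 := ⟨[a0, a63, a106], [a66, a42, a168], (M a48 (F (T t304 (L l28 (L l76 (L l400 (T t579 (L l76 (T t551 N)))))))))⟩
def e0_63_106__66_42_104 : Ent 4 := ⟨[a0, a63, a106], [a66, a42, a169], (M a48 (F (T t304 (L l28 (L l76 (T t579 (L l76 (L l217 (T t551 N)))))))))⟩
def e0_63_106__66_42_105 : Ent 4 := ⟨[a0, a63, a106], [a66, a42, a170], (M a48 (F (T t304 (L l76 (L l220 (T t551 (L l28 (L l76 (L l206 (L l220 (L l404 (T t552 (L l28 (L l206 (L l404 (T t553 N))))))))))))))))⟩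
def e0_63_106__66_42_106 : Ent 4 := ⟨[a0, a63, a106], [a66, a42, a171], (M a48 (F (T t585 (L l76 (T t551 (L l28 (L l76 (T t579 N))))))))⟩
def e0_63_106__66_42_107 : Ent 4 := ⟨[a0, a63, a106], [a66, a42, a172], (M a48 (F (T t304 (L l28 (L l76 (T t579 (L l76 (T t551 N))))))))⟩
def e0_63_106__66_42_108 : Ent 4 := ⟨[a0, a63, a106], [a66, a42, a173], (M a48 (F (T t304 (L l28 (L l76 (T t579 (L l76 (T t551 N))))))))⟩
def e0_63_106__66_42_109 : Ent 4 := ⟨[a0, a63, a106], [a66, a42, a174], (M a48 (F (T t585 (L l76 (T t551 (L l28 (L l76 (T t579 N))))))))⟩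
def e0_63_106__66_42_110 : Ent 4 := ⟨[a0, a63, a106], [a66, a42, a175], (M a48 (F (T t307 (L l28 (L l76 (T t579 (L l76 (T t551 N))))))))⟩
def e0_63_106__66_42_111 : Ent 4 := ⟨[a0, a63, a106], [a66, a42, a188], (M a48 (F (T t304 (L l28 (L l76 (T t579 (L l76 (L l186 (T t551 N)))))))))⟩
def e0_63_106__66_42_112 : Ent 4 := ⟨[a0, a63, a106], [a66, a42, a189], (M a48 (F (T t304 (L l28 (L l76 (T t579 (L l76 (L l217 (T t551 N)))))))))⟩
def e0_63_106__66_42_113 : Ent 4 := ⟨[a0, a63, a106], [a66, a42, a190], (M a48 (F (T t585 (L l76 (T t551 (L l28 (L l76 (T t579 N))))))))⟩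
def e0_63_106__66_42_114 : Ent 4 := ⟨[a0, a63, a106], [a66, a42, a191], (M a48 (F (T t304 (L l76 (L l190 (L l220 (T t551 (L l28 (T t6498 (L l28 (T t6499 N)))))))))))⟩
def e0_63_106__66_42_115 : Ent 4 := ⟨[a0, a63, a106], [a66, a42, a192], (M a243 (L l309 (F (L l76 (L l334 (T t6531 (L l232 (L l334 (T t6532 (L l296 (L l334 (T t6533 (L l26 (L l334 (T t6534 (L l76 (L l334 (T t6535 (K a132 (M a3 (L l334 (F (T t4200 (L l202 (L l292 (T t6578 (K a72 (M a12 (F (T t6579 (L l56 (L l316 (L l339 (T t761 N))))))) (K a12 (M a72 (F (T t6549 (L l268 (L l478 (T t6580 N)))))) N))))))))) (K a72 (M a3 (L l334 (F (T t4200 (L l292 (T t6581 (L l66 (L l76 (L l80 (L l292 (L l306 (T t809 (K a132 (M a12 (F (T t6579 (L l56 (L l316 (L l339 (T t761 N))))))) (K a12 (M a132 (F (T t6582 (L l66 (L l76 (L l80 (L l292 (L l306 (T t809 (L l466 (T t6583 N))))))))))) N)))))))))))))) (K a12 (M a3 (L l334 (F (T t4200 (L l292 (T t6578 (K a132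 (M a72 (F (T t6549 (L l268 (L l478 (T t6580 N)))))) (K a72 (M a132 (F (T t6582 (L l66 (L l76 (L l80 (L l292 (L l306 (T t809 (L l466 (T t6583 N))))))))))) N)))))))) (K a85 (M a3 (F (L l292 (L l334 (T t6584 (L l94 (L l268 (T t6580 N)))))))) (K a89 (M a3 (F (L l268 (T t6580 (L l66 (L l76 (L l292 (L l306 (T t809 (L l91 (L l95 (L l292 (T t6585 N))))))))))))) (K a183 (M a3 (F (T t4200 (L l292 (T t6581 (L l66 (L l76 (L l292 (L l306 (T t809 N)))))))))) (K a123 (M a3 (F (T t4200 (L l292 (T t6581 (L l66 (L l76 (L l292 (L l306 (T t809 N)))))))))) (K a129 (M a3 (F (L l268 (T t6586 (L l292 (L l334 (T t6584 N))))))) (K a3 (M a129 (F (L l76 (L l334 (T t6531 (L l232 (L l334 (T t6532 (L l296 (L l334 (L l475 (T t6533 (L l26 (L l334 (T t6534 (L l76 (L l334 (T t6535 (K a132 (M a89 (L l334 (F (T t6536 (L l296 (L l475 (T t6537 (K a72 (Fr a12 a166 l482 (V t6538)) (K a12 (Fr a72 a123 l132 (V t6539)) N))))))))) (K a72 (M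 a166 (L l334 (F (T t6540 (L l296 (L l475 (T t6541 (L l56 (L l76 (L l80 (L l316 (T t6542 (K a132 (Fr a12 a89 l482 (V t6543)) (K a12 (M a132 (L l9 (F (T t6544 (L l26 (L l118 (L l232 (L l316 (L l489 (T t6545 (K a9 (M a6 (F (T t6544 (L l2 (L l54 (L l470 (T t6546 N))))))) (K a6 (M a9 (F (T t6544 (L l26 (L l118 (L l232 (L l316 (L l489 (T t6545 N))))))))) N)))))))))))) N)))))))))))))) (K a12 (M a160 (L l9 (L l334 (F (T t6547 (L l306 (T t6548 (K a132 (M a72 (L l9 (F (T t6549 (L l306 (T t6548 (K a9 (M a6 (F (T t6549 (L l306 (T t6548 N))))) (K a6 (M a9 (F (T t6549 (L l484 (T t6550 N))))) N)))))))) (K a72 (M a132 (L l9 (F (T t6551 (L l306 (T t6548 (K a9 (M a6 (F (T t6551 (L l306 (T t6548 N))))) (K a6 (M a9 (F (T t6551 (L l306 (T t6548 N))))) N)))))))) (K a9 (M a6 (L l334 (F (T t6547 (L l306 (T t6548 (K a132 (M a72 (F (T t6549 (L l306 (T t6548 N))))) (K a72 (M a132 (F (T t6551 (L l306 (T t6548 N))))) N))))))))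 (K a6 (M a9 (L l334 (F (T t6551 (L l306 (T t6548 (K a132 (M a72 (F (T t6549 (L l484 (T t6550 N))))) (K a72 (M a132 (F (T t6551 (L l306 (T t6548 N))))) N)))))))) N))))))))))) (K a85 (M a160 (F (L l94 (T t6547 (L l91 (L l306 (T t6548 N))))))) (K a89 (M a160 (F (T t6547 (L l91 (L l306 (T t6548 N)))))) (K a183 (M a17 (F (L l45 (T t6552 (L l26 (L l232 (L l421 (T t6553 N)))))))) (K a123 (M a17 (F (L l45 (T t6552 (L l26 (L l232 (T t6553 N))))))) N))))))))))))))))))))))))) N)))))))))))))))))))))))))))⟩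
def e0_63_106__66_42_116 : Ent 4 := ⟨[a0, a63, a106], [a66, a42, a193], (M a48 (F (T t585 (L l76 (L l515 (T t551 (L l28 (L l76 (T t579 N)))))))))⟩
def e0_63_106__66_42_117 : Ent 4 := ⟨[a0, a63, a106], [a66, a42, a194], (M a48 (L l306 (F (T t578 (L l28 (L l76 (L l234 (T t579 (L l76 (T t551 (K a2 (M a130 (L l66 (F (T t578 (L l76 (T t596 (K a22 (M a62 (F (T t578 (L l76 (T t596 N))))) (K a62 (M a22 (F (T t578 (L l76 (T t596 N))))) N)))))))) (K a130 (M a2 (F (T t578 (L l486 (T t339 N))))) N))))))))))))⟩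
def e0_63_106__66_42_118 : Ent 4 := ⟨[a0, a63, a106], [a66, a42, a195], (M a48 (F (T t585 (L l76 (L l273 (T t551 (L l28 (L l76 (T t579 N)))))))))⟩
def e0_63_106__66_42_119 : Ent 4 := ⟨[a0, a63, a106], [a66, a42, a196], (M a48 (F (T t585 (L l76 (L l495 (T t551 (L l28 (L l76 (T t579 N)))))))))⟩
def e0_63_106__66_42_120 : Ent 4 := ⟨[a0, a63, a106], [a66, a42, a197], (M a240 (F (L l28 (L l82 (T t6587 (L l491 (T t6588 (L l76 (L l82 (T t4781 N))))))))))⟩
def e0_63_106__66_42_121 : Ent 4 := ⟨[a0, a63, a106], [a66, a42, a198], (M a48 (F (T t578 (L l28 (L l76 (L l234 (T t579 (L l76 (T t551 N)))))))))⟩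
def e0_63_106__66_42_122 : Ent 4 := ⟨[a0, a63, a106], [a66, a42, a199], (M a48 (F (T t5173 (L l28 (L l76 (T t579 (L l76 (T t551 N))))))))⟩
def e0_63_106__66_42_123 : Ent 4 := ⟨[a0, a63, a106], [a66, a42, a200], (M a48 (F (T t578 (L l28 (L l76 (L l230 (T t579 (L l76 (T t551 N)))))))))⟩
def e0_63_106__66_42_124 : Ent 4 := ⟨[a0, a63, a106], [a66, a42, a201], (M a48 (F (T t578 (L l28 (L l76 (L l230 (T t579 (L l76 (T t551 N)))))))))⟩
def e0_63_106__66_42_125 : Ent 4 := ⟨[a0, a63, a106], [a66, a42, a202], (M a240 (F (L l28 (T t815 (L l76 (L l82 (L l318 (T t4781 (T t817 N)))))))))⟩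
def e0_63_106__66_42_126 : Ent 4 := ⟨[a0, a63, a106], [a66, a42, a203], (M a48 (F (T t2348 (L l28 (L l76 (L l230 (T t579 (L l76 (T t551 N)))))))))⟩
def e0_63_106__66_42_127 : Ent 4 := ⟨[a0, a63, a106], [a66, a42, a204], (M a48 (F (T t585 (L l76 (L l298 (T t551 (L l28 (L l76 (T t579 N)))))))))⟩
def e0_63_106__66_42_128 : Ent 4 := ⟨[a0, a63, a106], [a66, a42, a205], (M a48 (F (T t5173 (L l28 (L l76 (T t579 (L l76 (T t551 N))))))))⟩
def e0_63_106__66_42_129 : Ent 4 := ⟨[a0, a63, a106], [a66, a42, a206], (M a48 (F (T t2348 (L l28 (L l76 (L l234 (T t579 (L l76 (T t551 N)))))))))⟩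
def e0_63_106__66_42_130 : Ent 4 := ⟨[a0, a63, a106], [a66, a42, a207], (M a240 (F (L l82 (T t6525 (L l512 (T t817 (L l76 (L l82 (T t4781 N)))))))))⟩
def e0_63_106__66_42_131 : Ent 4 := ⟨[a0, a63, a106], [a66, a42, a212], (M a48 (F (T t585 (L l76 (L l351 (T t551 (L l28 (L l76 (T t579 N)))))))))⟩
def e0_63_106__66_42_132 : Ent 4 := ⟨[a0, a63, a106], [a66, a42, a213], (M a48 (F (T t304 (L l28 (L l76 (L l246 (T t579 (L l76 (L l347 (T t551 N))))))))))⟩
def e0_63_106__66_42_133 : Ent 4 := ⟨[a0, a63, a106], [a66, a42, a214], (M a48 (F (T t304 (L l28 (L l76 (T t579 (L l76 (T t551 N))))))))⟩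
def e0_63_106__66_42_134 : Ent 4 := ⟨[a0, a63, a106], [a66, a42, a215], (M a48 (F (T t585 (L l76 (T t551 (L l28 (L l76 (L l245 (T t579 N)))))))))⟩
def e0_63_106__66_42_135 : Ent 4 := ⟨[a0, a63, a106], [a66, a42, a216], (M a48 (F (T t304 (L l28 (L l76 (T t579 (L l76 (L l298 (T t551 N)))))))))⟩
def e0_63_106__66_42_136 : Ent 4 := ⟨[a0, a63, a106], [a66, a42, a217], (M a48 (F (T t304 (L l28 (L l76 (T t579 (L l76 (T t551 N))))))))⟩
def e0_63_106__66_42_137 : Ent 4 := ⟨[a0, a63, a106], [a66, a42, a218], (M a48 (F (T t2348 (L l28 (L l76 (L l246 (L l282 (T t579 (L l76 (L l303 (T t551 N)))))))))))⟩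
def e0_63_106__66_42_138 : Ent 4 := ⟨[a0, a63, a106], [a66, a42, a219], (M a48 (F (T t585 (L l76 (T t551 (L l28 (L l76 (L l245 (T t579 N)))))))))⟩
def e0_63_106__66_42_139 : Ent 4 := ⟨[a0, a63, a106], [a66, a42, a220], (M a48 (F (T t585 (L l76 (T t551 (L l28 (L l76 (L l241 (T t579 N)))))))))⟩
def e0_63_106__66_42_140 : Ent 4 := ⟨[a0, a63, a106], [a66, a42, a221], (M a48 (F (T t585 (L l76 (T t551 (L l28 (L l76 (L l241 (T t579 N)))))))))⟩
def e0_63_106__66_42_141 : Ent 4 := ⟨[a0, a63, a106], [a66, a42, a222], (M a48 (F (T t585 (L l76 (T t551 (L l28 (L l76 (L l241 (T t579 N)))))))))⟩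
def e0_63_106__66_42_142 : Ent 4 := ⟨[a0, a63, a106], [a66, a42, a223], (M a240 (F (L l309 (T t4786 (L l368 (T t817 (L l76 (L l82 (L l361 (T t4781 N))))))))))⟩
def e0_63_106__66_42_143 : Ent 4 := ⟨[a0, a63, a106], [a66, a42, a232], (M a48 (F (T t304 (L l28 (L l76 (T t579 (L l76 (T t551 N))))))))⟩
def e0_63_106__66_42_144 : Ent 4 := ⟨[a0, a63, a106], [a66, a42, a233], (M a48 (F (T t304 (L l28 (L l76 (T t579 (L l76 (T t551 N))))))))⟩
def e0_63_106__66_42_145 : Ent 4 := ⟨[a0, a63, a106], [a66, a42, a234], (M a48 (F (T t578 (L l28 (L l76 (L l282 (T t579 (L l76 (T t551 N)))))))))⟩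
def e0_63_106__66_42_146 : Ent 4 := ⟨[a0, a63, a106], [a66, a42, a235], (M a48 (F (T t585 (L l76 (T t551 (L l28 (L l76 (T t579 N))))))))⟩
def e0_63_106__66_42_147 : Ent 4 := ⟨[a0, a63, a106], [a66, a42, a236], (M a48 (F (T t304 (L l28 (L l76 (L l400 (T t579 (L l76 (T t551 N)))))))))⟩
def e0_63_106__66_42_148 : Ent 4 := ⟨[a0, a63, a106], [a66, a42, a237], (M a48 (F (T t5173 (L l28 (L l76 (T t579 (L l76 (T t551 N))))))))⟩
def e0_63_106__66_42_149 : Ent 4 := ⟨[a0, a63, a106], [a66, a42, a238], (M a48 (F (T t585 (L l76 (T t551 (L l28 (L l76 (T t579 N))))))))⟩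
def e0_63_106__66_42_150 : Ent 4 := ⟨[a0, a63, a106], [a66, a42, a239], (M a48 (F (T t5173 (L l76 (T t551 (L l28 (L l76 (L l289 (L l404 (T t579 N))))))))))⟩
def e0_63_106__66_42_151 : Ent 4 := ⟨[a0, a63, a106], [a66, a42, a252], (M a48 (F (T t585 (L l76 (L l262 (T t551 (L l28 (L l76 (T t579 N)))))))))⟩
def e0_63_106__66_42_152 : Ent 4 := ⟨[a0, a63, a106], [a66, a42, a253], (M a48 (F (T t304 (L l28 (L l76 (T t579 (L l76 (T t551 N))))))))⟩
def e0_63_106__66_42_153 : Ent 4 := ⟨[a0, a63, a106], [a66, a42, a254], (M a48 (F (T t585 (L l76 (T t551 (L l28 (L l76 (T t579 N))))))))⟩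
def e0_63_106__66_42_154 : Ent 4 := ⟨[a0, a63, a106], [a66, a42, a255], (M a48 (F (T t585 (L l76 (L l266 (T t551 (L l28 (L l469 (T t6526 (L l28 (L l289 (T t6527 N))))))))))))⟩
def b0_63_106__66_42 : Blk 4 := ⟨[0, 63, 106], [66, 42], [1, 2, 3, 4, 5, 6, 7, 8, 9, 10, 11, 12, 13, 14, 15, 20, 21, 22, 23, 24, 25, 26, 27, 28, 29, 30, 31, 40, 41, 43, 44, 45, 46, 47, 60, 61, 62, 64, 65, 67, 68, 69, 70, 71, 72, 73, 74, 75, 76, 77, 78, 79, 84, 85, 86, 87, 88, 89, 90, 91, 92, 93, 94, 95, 104, 105, 107, 108, 109, 110, 111, 124, 125, 126, 127, 128, 129, 130, 131, 132, 133, 134, 135, 136, 137, 138, 139, 140, 141, 142, 143, 148, 149, 150, 151, 152, 153, 154, 155, 156, 157, 158, 159, 168, 169, 170, 171, 172, 173, 174, 175, 188, 189, 190, 191, 192, 193, 194, 195, 196, 197, 198, 199, 200, 201, 202, 203, 204, 205, 206, 207, 212, 213, 214, 215, 216, 217, 218, 219, 220, 221, 222, 223, 232, 233, 234, 235, 236, 237, 238,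 239, 252, 253, 254, 255], [e0_63_106__66_42_0, e0_63_106__66_42_1, e0_63_106__66_42_2, e0_63_106__66_42_3, e0_63_106__66_42_4, e0_63_106__66_42_5, e0_63_106__66_42_6, e0_63_106__66_42_7, e0_63_106__66_42_8, e0_63_106__66_42_9, e0_63_106__66_42_10, e0_63_106__66_42_11, e0_63_106__66_42_12, e0_63_106__66_42_13, e0_63_106__66_42_14, e0_63_106__66_42_15, e0_63_106__66_42_16, e0_63_106__66_42_17, e0_63_106__66_42_18, e0_63_106__66_42_19, e0_63_106__66_42_20, e0_63_106__66_42_21, e0_63_106__66_42_22, e0_63_106__66_42_23, e0_63_106__66_42_24, e0_63_106__66_42_25, e0_63_106__66_42_26, e0_63_106__66_42_27, e0_63_106__66_42_28, e0_63_106__66_42_29, e0_63_106__66_42_30, e0_63_106__66_42_31, e0_63_106__66_42_32, e0_63_106__66_42_33, e0_63_106__66_42_34, e0_63_106__66_42_35, e0_63_106__66_42_36, e0_63_106__66_42_37, e0_63_106__66_42_38, e0_63_106__66_42_39, e0_63_106__66_42_40, e0_63_106__66_42_41, e0_63_106__66_42_42,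 e0_63_106__66_42_43, e0_63_106__66_42_44, e0_63_106__66_42_45, e0_63_106__66_42_46, e0_63_106__66_42_47, e0_63_106__66_42_48, e0_63_106__66_42_49, e0_63_106__66_42_50, e0_63_106__66_42_51, e0_63_106__66_42_52, e0_63_106__66_42_53, e0_63_106__66_42_54, e0_63_106__66_42_55, e0_63_106__66_42_56, e0_63_106__66_42_57, e0_63_106__66_42_58, e0_63_106__66_42_59, e0_63_106__66_42_60, e0_63_106__66_42_61, e0_63_106__66_42_62, e0_63_106__66_42_63, e0_63_106__66_42_64, e0_63_106__66_42_65, e0_63_106__66_42_66, e0_63_106__66_42_67, e0_63_106__66_42_68, e0_63_106__66_42_69, e0_63_106__66_42_70, e0_63_106__66_42_71, e0_63_106__66_42_72, e0_63_106__66_42_73, e0_63_106__66_42_74, e0_63_106__66_42_75, e0_63_106__66_42_76, e0_63_106__66_42_77, e0_63_106__66_42_78, e0_63_106__66_42_79, e0_63_106__66_42_80, e0_63_106__66_42_81, e0_63_106__66_42_82, e0_63_106__66_42_83, e0_63_106__66_42_84, e0_63_106__66_42_85, e0_63_106__66_42_86,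 e0_63_106__66_42_87, e0_63_106__66_42_88, e0_63_106__66_42_89, e0_63_106__66_42_90, e0_63_106__66_42_91, e0_63_106__66_42_92, e0_63_106__66_42_93, e0_63_106__66_42_94, e0_63_106__66_42_95, e0_63_106__66_42_96, e0_63_106__66_42_97, e0_63_106__66_42_98, e0_63_106__66_42_99, e0_63_106__66_42_100, e0_63_106__66_42_101, e0_63_106__66_42_102, e0_63_106__66_42_103, e0_63_106__66_42_104, e0_63_106__66_42_105, e0_63_106__66_42_106, e0_63_106__66_42_107, e0_63_106__66_42_108, e0_63_106__66_42_109, e0_63_106__66_42_110, e0_63_106__66_42_111, e0_63_106__66_42_112, e0_63_106__66_42_113, e0_63_106__66_42_114, e0_63_106__66_42_115, e0_63_106__66_42_116, e0_63_106__66_42_117, e0_63_106__66_42_118, e0_63_106__66_42_119, e0_63_106__66_42_120, e0_63_106__66_42_121, e0_63_106__66_42_122, e0_63_106__66_42_123, e0_63_106__66_42_124, e0_63_106__66_42_125, e0_63_106__66_42_126, e0_63_106__66_42_127, e0_63_106__66_42_128,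 e0_63_106__66_42_129, e0_63_106__66_42_130, e0_63_106__66_42_131, e0_63_106__66_42_132, e0_63_106__66_42_133, e0_63_106__66_42_134, e0_63_106__66_42_135, e0_63_106__66_42_136, e0_63_106__66_42_137, e0_63_106__66_42_138, e0_63_106__66_42_139, e0_63_106__66_42_140, e0_63_106__66_42_141, e0_63_106__66_42_142, e0_63_106__66_42_143, e0_63_106__66_42_144, e0_63_106__66_42_145, e0_63_106__66_42_146, e0_63_106__66_42_147, e0_63_106__66_42_148, e0_63_106__66_42_149, e0_63_106__66_42_150, e0_63_106__66_42_151, e0_63_106__66_42_152, e0_63_106__66_42_153, e0_63_106__66_42_154], by decide +kernel, by decide +kernel⟩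
def e0_63_106__67_42_0 : Ent 4 := ⟨[a0, a63, a106], [a67, a42, a1], (M a48 (F (T t309 (L l76 (T t551 (L l28 (L l76 (T t579 N))))))))⟩
def e0_63_106__67_42_1 : Ent 4 := ⟨[a0, a63, a106], [a67, a42, a2], (M a48 (L l66 (F (T t309 (L l76 (T t551 (L l28 (L l76 (T t579 (K a22 (M a62 (F (T t585 (L l22 (L l76 (L l306 (T t5926 N))))))) (K a62 (M a22 (F (T t578 (L l28 (L l76 (T t579 (L l76 (T t551 N)))))))) N)))))))))))⟩
def e0_63_106__67_42_2 : Ent 4 := ⟨[a0, a63, a106], [a67, a42, a3], (M a48 (L l307 (F (T t585 (L l76 (L l453 (T t551 (L l28 (L l76 (T t579 (K a131 (M a195 (F (T t585 (L l152 (L l197 (L l451 (T t4663 N))))))) (K a195 (M a131 (F (T t585 (L l76 (L l273 (L l453 (T t551 (L l28 (L l76 (T t579 N)))))))))) N))))))))))))⟩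
def e0_63_106__67_42_3 : Ent 4 := ⟨[a0, a63, a106], [a67, a42, a4], (M a48 (F (T t309 (L l76 (T t551 (L l28 (L l76 (T t579 N))))))))⟩
def e0_63_106__67_42_4 : Ent 4 := ⟨[a0, a63, a106], [a67, a42, a5], (M a48 (F (T t578 (L l28 (L l47 (L l76 (T t579 (L l76 (T t551 N)))))))))⟩
def e0_63_106__67_42_5 : Ent 4 := ⟨[a0, a63, a106], [a67, a42, a6], (M a48 (F (T t309 (L l76 (T t551 (L l28 (L l76 (T t579 N))))))))⟩
def e0_63_106__67_42_6 : Ent 4 := ⟨[a0, a63, a106], [a67, a42, a7], (M a48 (F (T t309 (L l76 (T t551 (L l28 (L l76 (T t579 N))))))))⟩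
def e0_63_106__67_42_7 : Ent 4 := ⟨[a0, a63, a106], [a67, a42, a8], (M a48 (L l56 (F (T t309 (L l76 (T t551 (L l28 (L l76 (T t579 (K a25 (M a59 (F (T t307 (L l26 (L l76 (L l316 (T t6445 N))))))) (K a59 (M a25 (F (T t578 (L l28 (L l76 (T t579 (L l76 (T t551 N)))))))) N)))))))))))⟩
def e0_63_106__67_42_8 : Ent 4 := ⟨[a0, a63, a106], [a67, a42, a9], (M a48 (F (T t309 (L l76 (T t551 (L l28 (L l76 (T t579 N))))))))⟩
def e0_63_106__67_42_9 : Ent 4 := ⟨[a0, a63, a106], [a67, a42, a10], (M a48 (L l54 (F (T t578 (L l28 (L l76 (L l318 (T t579 (L l76 (T t551 (K a26 (Fr a58 a53 l38 (V t6446)) (K a58 (M a26 (F (L l28 (T t4144 (L l76 (T t551 (L l28 (L l426 (T t6447 (K a32 (Fr a192 a149 l519 (Fr a15 a37 l75 (Fr a47 a31 l61 (V t6528)))) N)))))))))) N))))))))))))⟩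
def e0_63_106__67_42_10 : Ent 4 := ⟨[a0, a63, a106], [a67, a42, a11], (M a48 (F (T t309 (L l76 (T t551 (L l28 (L l76 (T t579 N))))))))⟩
def e0_63_106__67_42_11 : Ent 4 := ⟨[a0, a63, a106], [a67, a42, a12], (M a48 (F (T t585 (L l76 (L l478 (T t551 (L l28 (L l76 (T t579 N)))))))))⟩
def e0_63_106__67_42_12 : Ent 4 := ⟨[a0, a63, a106], [a67, a42, a13], (M a48 (F (T t309 (L l76 (T t551 (L l28 (L l76 (T t579 N))))))))⟩
def e0_63_106__67_42_13 : Ent 4 := ⟨[a0, a63, a106], [a67, a42, a14], (M a48 (F (T t309 (L l76 (T t551 (L l28 (L l76 (T t579 N))))))))⟩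
def e0_63_106__67_42_14 : Ent 4 := ⟨[a0, a63, a106], [a67, a42, a15], (M a48 (F (T t585 (L l76 (L l483 (T t551 (L l28 (L l76 (T t579 N)))))))))⟩
def e0_63_106__67_42_15 : Ent 4 := ⟨[a0, a63, a106], [a67, a42, a20], (M a48 (F (T t309 (L l76 (T t551 (L l28 (L l76 (T t579 N))))))))⟩
def e0_63_106__67_42_16 : Ent 4 := ⟨[a0, a63, a106], [a67, a42, a21], (M a48 (F (L l47 (T t309 (L l76 (L l347 (T t551 (L l28 (L l47 (L l76 (T t579 N)))))))))))⟩
def e0_63_106__67_42_17 : Ent 4 := ⟨[a0, a63, a106], [a67, a42, a22], (M a48 (L l66 (F (T t309 (L l76 (T t551 (L l28 (L l76 (T t579 (K a2 (M a62 (F (T t585 (L l22 (L l76 (L l306 (T t5926 N))))))) (K a62 (M a2 (F (T t307 (L l19 (L l28 (T t342 N)))))) N)))))))))))⟩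
def e0_63_106__67_42_18 : Ent 4 := ⟨[a0, a63, a106], [a67, a42, a23], (M a48 (F (T t309 (L l76 (L l351 (T t551 (L l28 (L l76 (T t579 N)))))))))⟩
def e0_63_106__67_42_19 : Ent 4 := ⟨[a0, a63, a106], [a67, a42, a24], (M a48 (F (T t309 (L l76 (T t551 (L l28 (L l76 (T t579 N))))))))⟩
def e0_63_106__67_42_20 : Ent 4 := ⟨[a0, a63, a106], [a67, a42, a25], (M a48 (L l56 (F (T t309 (L l76 (T t551 (L l28 (L l76 (T t579 (K a8 (M a59 (F (T t307 (L l26 (L l76 (L l316 (T t6445 N))))))) (K a59 (M a8 (F (T t307 (L l19 (L l28 (T t4700 N)))))) N)))))))))))⟩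
def e0_63_106__67_42_21 : Ent 4 := ⟨[a0, a63, a106], [a67, a42, a26], (M a48 (L l54 (F (T t309 (L l28 (L l76 (T t579 (L l76 (T t551 (K a10 (Fr a58 a53 l38 (V t6446)) (K a58 (M a10 (F (T t4033 (L l76 (T t551 (L l18 (L l354 (T t6449 (L l18 (L l426 (T t6450 N))))))))))) N)))))))))))⟩
def e0_63_106__67_42_22 : Ent 4 := ⟨[a0, a63, a106], [a67, a42, a27], (M a48 (F (T t309 (L l76 (T t551 (L l28 (L l76 (T t579 N))))))))⟩
def e0_63_106__67_42_23 : Ent 4 := ⟨[a0, a63, a106], [a67, a42, a28], (M a48 (F (T t309 (L l76 (T t551 (L l28 (L l76 (L l362 (T t579 N)))))))))⟩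
def e0_63_106__67_42_24 : Ent 4 := ⟨[a0, a63, a106], [a67, a42, a29], (M a48 (F (T t309 (L l76 (L l371 (T t551 (L l28 (L l76 (T t579 N)))))))))⟩
def e0_63_106__67_42_25 : Ent 4 := ⟨[a0, a63, a106], [a67, a42, a30], (M a48 (F (T t309 (L l76 (T t551 (L l28 (L l76 (T t579 N))))))))⟩
def e0_63_106__67_42_26 : Ent 4 := ⟨[a0, a63, a106], [a67, a42, a31], (M a48 (F (T t309 (L l76 (L l375 (T t551 (L l28 (L l76 (L l361 (T t579 N))))))))))⟩
def e0_63_106__67_42_27 : Ent 4 := ⟨[a0, a63, a106], [a67, a42, a40], (M a48 (L l22 (F (T t309 (L l76 (T t551 (L l24 (L l28 (L l76 (T t579 (K a41 (M a43 (F (T t307 (L l66 (L l76 (L l388 (T t6451 N))))))) (K a43 (M a41 (F (T t578 (L l24 (L l28 (L l76 (T t579 (L l76 (T t551 N))))))))) N))))))))))))⟩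
def e0_63_106__67_42_28 : Ent 4 := ⟨[a0, a63, a106], [a67, a42, a41], (M a48 (L l22 (F (T t309 (L l76 (T t551 (L l28 (L l76 (T t579 (K a40 (M a43 (F (T t307 (L l66 (L l76 (L l388 (T t6451 N))))))) (K a43 (M a40 (F (T t309 (L l29 (L l69 (T t6452 N)))))) N)))))))))))⟩
def e0_63_106__67_42_29 : Ent 4 := ⟨[a0, a63, a106], [a67, a42, a43], (M a48 (L l22 (F (T t309 (L l76 (T t551 (L l28 (L l76 (T t579 (K a40 (M a41 (F (T t578 (L l24 (L l28 (L l76 (T t579 (L l76 (T t551 N))))))))) (K a41 (M a40 (F (T t309 (L l29 (L l69 (T t6452 N)))))) N)))))))))))⟩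
def e0_63_106__67_42_30 : Ent 4 := ⟨[a0, a63, a106], [a67, a42, a44], (M a48 (F (T t309 (L l76 (T t551 (L l24 (L l28 (L l76 (T t579 N)))))))))⟩
def e0_63_106__67_42_31 : Ent 4 := ⟨[a0, a63, a106], [a67, a42, a45], (M a48 (F (T t309 (L l76 (T t551 (L l28 (L l76 (T t579 N))))))))⟩
def e0_63_106__67_42_32 : Ent 4 := ⟨[a0, a63, a106], [a67, a42, a46], (M a48 (L l26 (F (T t309 (L l76 (T t551 (L l28 (L l76 (T t579 (K a34 (M a38 (F (T t578 (L l20 (L l28 (L l76 (T t579 (L l76 (T t551 N))))))))) (K a38 (M a34 (F (T t309 (L l29 (L l66 (L l307 (T t6453 N))))))) N)))))))))))⟩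
def e0_63_106__67_42_33 : Ent 4 := ⟨[a0, a63, a106], [a67, a42, a47], (M a12 (L l28 (F (T t2304 (L l76 (T t2305 (L l56 (L l76 (T t2415 (K a32 (M a37 (F (T t2416 (L l56 (L l76 (T t2415 (L l76 (T t2305 N)))))))) (K a37 (M a32 (F (T t2304 (L l51 (L l56 (T t682 N)))))) N)))))))))))⟩
def e0_63_106__67_42_34 : Ent 4 := ⟨[a0, a63, a106], [a67, a42, a60], (M a48 (F (T t585 (L l76 (L l442 (T t551 (L l28 (L l76 (T t579 N)))))))))⟩
def e0_63_106__67_42_35 : Ent 4 := ⟨[a0, a63, a106], [a67, a42, a61], (M a48 (F (L l35 (T t309 (L l76 (L l515 (T t551 (L l28 (L l35 (L l76 (T t579 N)))))))))))⟩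
def e0_63_106__67_42_36 : Ent 4 := ⟨[a0, a63, a106], [a67, a42, a62], (M a48 (L l66 (F (T t309 (L l76 (T t551 (L l28 (L l76 (T t579 (K a2 (M a22 (F (T t578 (L l28 (L l76 (T t579 (L l76 (T t551 N)))))))) (K a22 (M a2 (F (T t307 (L l19 (L l28 (T t342 N)))))) N)))))))))))⟩
def e0_63_106__67_42_37 : Ent 4 := ⟨[a0, a63, a106], [a67, a42, a64], (M a48 (L l76 (F (T t585 (L l28 (T t6454 (L l28 (T t6455 (L l28 (T t6456 (L l28 (L l84 (T t6457 (L l54 (T t6458 (K a207 (Fr a192 a149 l519 (Fr a96 a144 l484 (Fr a101 a111 l104 (Fr a32 a16 l40 (V t6459))))) (K a65 (M a66 (F (T t307 (L l305 (T t6460 (T t6461 N)))))) (K a66 (M a65 (F (T t307 (L l306 (T t688 N))))) N))))))))))))))))))⟩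
def e0_63_106__67_42_38 : Ent 4 := ⟨[a0, a63, a106], [a67, a42, a65], (M a48 (L l76 (F (T t309 (L l28 (T t6462 (L l28 (T t6463 (K a64 (M a66 (F (T t307 (L l305 (T t6460 (T t6461 N)))))) (K a66 (M a64 (F (T t394 (L l121 (L l141 (T t6464 N)))))) N))))))))))⟩
def e0_63_106__67_42_39 : Ent 4 := ⟨[a0, a63, a106], [a67, a42, a66], (M a48 (L l76 (F (T t304 (L l28 (T t6462 (L l28 (T t6463 (K a64 (M a65 (F (T t307 (L l306 (T t688 N))))) (K a65 (M a64 (F (T t394 (L l121 (L l141 (T t6464 N)))))) N))))))))))⟩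
def e0_63_106__67_42_40 : Ent 4 := ⟨[a0, a63, a106], [a67, a42, a68], (M a48 (F (T t309 (L l76 (L l80 (T t551 (L l28 (L l76 (L l80 (T t579 N))))))))))⟩
def e0_63_106__67_42_41 : Ent 4 := ⟨[a0, a63, a106], [a67, a42, a69], (M a48 (F (T t309 (L l76 (L l84 (T t551 (L l28 (L l76 (L l84 (T t579 N))))))))))⟩
def e0_63_106__67_42_42 : Ent 4 := ⟨[a0, a63, a106], [a67, a42, a70], (M a48 (L l85 (F (T t309 (L l76 (T t551 (L l28 (L l76 (T t579 (K a76 (M a73 (F (T t578 (L l28 (L l76 (L l80 (T t579 (L l76 (L l80 (T t551 N)))))))))) (K a73 (M a76 (F (T t578 (L l78 (T t6589 (L l28 (L l76 (T t579 N)))))))) N)))))))))))⟩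
def e0_63_106__67_42_43 : Ent 4 := ⟨[a0, a63, a106], [a67, a42, a71], (M a48 (L l83 (F (T t309 (L l76 (T t551 (L l28 (L l76 (T t579 (K a75 (M a79 (F (T t309 (L l76 (T t551 (L l28 (L l76 (T t579 N)))))))) (K a79 (M a75 (F (T t309 (L l76 (L l84 (T t551 (L l28 (L l76 (L l84 (T t579 N)))))))))) N)))))))))))⟩
def e0_63_106__67_42_44 : Ent 4 := ⟨[a0, a63, a106], [a67, a42, a72], (M a48 (F (T t304 (L l28 (L l76 (L l80 (T t579 (L l76 (L l80 (T t551 N))))))))))⟩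
def e0_63_106__67_42_45 : Ent 4 := ⟨[a0, a63, a106], [a67, a42, a73], (M a48 (L l85 (F (T t309 (L l76 (T t551 (L l28 (L l76 (T t579 (K a76 (M a70 (F (T t578 (L l28 (L l76 (L l80 (T t579 (L l76 (L l80 (T t551 N)))))))))) (K a70 (M a76 (F (T t578 (L l78 (T t6589 (L l28 (L l76 (T t579 N)))))))) N)))))))))))⟩
def e0_63_106__67_42_46 : Ent 4 := ⟨[a0, a63, a106], [a67, a42, a74], (M a48 (F (T t578 (L l28 (L l76 (L l84 (L l318 (T t579 (L l76 (L l84 (T t551 N)))))))))))⟩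
def e0_63_106__67_42_47 : Ent 4 := ⟨[a0, a63, a106], [a67, a42, a75], (M a48 (L l83 (F (T t309 (L l76 (T t551 (L l28 (L l76 (T t579 (K a71 (M a79 (F (T t309 (L l76 (T t551 (L l28 (L l76 (T t579 N)))))))) (K a79 (M a71 (F (T t309 (L l76 (L l84 (T t551 (L l28 (L l76 (L l84 (T t579 N)))))))))) N)))))))))))⟩
def e0_63_106__67_42_48 : Ent 4 := ⟨[a0, a63, a106], [a67, a42, a76], (M a48 (L l85 (F (T t309 (L l76 (L l80 (T t551 (L l28 (L l76 (L l80 (T t579 (K a73 (M a70 (F (T t578 (L l28 (L l76 (L l80 (T t579 (L l76 (L l80 (T t551 N)))))))))) (K a70 (M a73 (F (T t578 (L l28 (L l76 (L l80 (T t579 (L l76 (L l80 (T t551 N)))))))))) N)))))))))))))⟩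
def e0_63_106__67_42_49 : Ent 4 := ⟨[a0, a63, a106], [a67, a42, a77], (M a48 (F (T t309 (L l76 (T t551 (L l28 (L l76 (T t579 N))))))))⟩
def e0_63_106__67_42_50 : Ent 4 := ⟨[a0, a63, a106], [a67, a42, a78], (M a48 (F (T t309 (L l76 (T t551 (L l28 (L l76 (T t579 N))))))))⟩
def e0_63_106__67_42_51 : Ent 4 := ⟨[a0, a63, a106], [a67, a42, a79], (M a48 (L l83 (F (T t309 (L l76 (L l84 (T t551 (L l28 (L l76 (L l84 (T t579 (K a71 (M a75 (F (T t309 (L l76 (L l84 (T t551 (L l28 (L l76 (L l84 (T t579 N)))))))))) (K a75 (M a71 (F (T t309 (L l76 (L l84 (T t551 (L l28 (L l76 (L l84 (T t579 N)))))))))) N)))))))))))))⟩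
def e0_63_106__67_42_52 : Ent 4 := ⟨[a0, a63, a106], [a67, a42, a84], (M a48 (F (T t309 (L l76 (L l140 (T t551 (L l28 (L l76 (L l140 (T t579 N))))))))))⟩
def e0_63_106__67_42_53 : Ent 4 := ⟨[a0, a63, a106], [a67, a42, a85], (M a48 (F (T t309 (L l76 (L l347 (T t551 (L l54 (T t777 (L l368 (T t6465 (K a192 (M a240 (F (T t6230 (L l121 (L l236 (T t6471 (L l54 (L l236 (L l339 (T t6472 (L l83 (L l339 (T t6473 N))))))))))))) N)))))))))))⟩
def e0_63_106__67_42_54 : Ent 4 := ⟨[a0, a63, a106], [a67, a42, a86], (M a48 (L l145 (F (T t309 (L l76 (L l351 (T t551 (L l28 (L l76 (T t579 (K a124 (M a105 (F (T t304 (L l109 (L l140 (L l474 (T t6590 N))))))) (K a105 (M a124 (F (T t304 (L l87 (L l141 (L l351 (L l515 (T t6591 (L l28 (L l76 (T t579 N))))))))))) N))))))))))))⟩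
def e0_63_106__67_42_55 : Ent 4 := ⟨[a0, a63, a106], [a67, a42, a87], (M a48 (L l143 (F (T t309 (L l76 (T t551 (L l28 (L l76 (L l367 (T t579 (K a107 (M a127 (F (T t6592 (L l103 (T t585 N))))) (K a127 (M a107 (F (T t309 (L l349 (T t1164 N))))) N))))))))))))⟩
def e0_63_106__67_42_56 : Ent 4 := ⟨[a0, a63, a106], [a67, a42, a88], (M a48 (F (T t309 (L l76 (L l478 (T t551 (L l28 (L l76 (T t579 N)))))))))⟩
def e0_63_106__67_42_57 : Ent 4 := ⟨[a0, a63, a106], [a67, a42, a89], (M a48 (F (T t309 (L l76 (L l371 (T t551 (L l28 (L l76 (T t579 N)))))))))⟩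
def e0_63_106__67_42_58 : Ent 4 := ⟨[a0, a63, a106], [a67, a42, a90], (M a48 (F (T t309 (L l76 (L l375 (L l483 (T t551 (L l28 (L l76 (T t579 N))))))))))⟩
def e0_63_106__67_42_59 : Ent 4 := ⟨[a0, a63, a106], [a67, a42, a91], (M a48 (F (T t309 (L l76 (T t551 (L l28 (L l76 (T t579 N))))))))⟩
def e0_63_106__67_42_60 : Ent 4 := ⟨[a0, a63, a106], [a67, a42, a92], (M a48 (F (T t309 (L l76 (T t551 (L l28 (L l76 (T t579 N))))))))⟩
def e0_63_106__67_42_61 : Ent 4 := ⟨[a0, a63, a106], [a67, a42, a93], (M a48 (F (T t309 (L l76 (T t551 (L l28 (L l76 (L l362 (T t579 N)))))))))⟩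
def e0_63_106__67_42_62 : Ent 4 := ⟨[a0, a63, a106], [a67, a42, a94], (M a48 (F (T t309 (L l76 (T t551 (L l28 (L l76 (T t579 N))))))))⟩
def e0_63_106__67_42_63 : Ent 4 := ⟨[a0, a63, a106], [a67, a42, a95], (M a48 (F (T t309 (L l76 (T t551 (L l28 (L l76 (L l361 (T t579 N)))))))))⟩
def e0_63_106__67_42_64 : Ent 4 := ⟨[a0, a63, a106], [a67, a42, a104], (M a48 (F (T t304 (L l28 (L l76 (L l140 (T t579 (L l76 (L l100 (L l140 (T t551 N)))))))))))⟩
def e0_63_106__67_42_65 : Ent 4 := ⟨[a0, a63, a106], [a67, a42, a105], (M a48 (L l145 (F (T t309 (L l76 (L l515 (T t551 (L l28 (L l76 (T t579 (K a124 (M a86 (F (T t304 (L l76 (L l143 (L l392 (T t6593 N))))))) (K a86 (M a124 (F (T t304 (L l87 (L l141 (L l351 (L l515 (T t6591 (L l28 (L l76 (T t579 N))))))))))) N))))))))))))⟩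
def e0_63_106__67_42_66 : Ent 4 := ⟨[a0, a63, a106], [a67, a42, a107], (M a48 (L l143 (F (T t309 (L l76 (T t551 (L l28 (L l76 (T t579 (K a87 (M a127 (F (T t6592 (L l103 (T t585 N))))) (K a127 (M a87 (F (T t3405 (L l76 (T t551 (L l28 (T t6594 N))))))) N)))))))))))⟩
def e0_63_106__67_42_67 : Ent 4 := ⟨[a0, a63, a106], [a67, a42, a108], (M a48 (F (T t309 (L l76 (L l100 (T t551 (L l28 (L l76 (T t579 N)))))))))⟩
def e0_63_106__67_42_68 : Ent 4 := ⟨[a0, a63, a106], [a67, a42, a109], (M a48 (F (T t309 (L l76 (T t551 (L l28 (L l76 (T t579 N))))))))⟩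
def e0_63_106__67_42_69 : Ent 4 := ⟨[a0, a63, a106], [a67, a42, a110], (M a48 (F (T t309 (L l76 (T t551 (L l28 (L l76 (T t579 N))))))))⟩
def e0_63_106__67_42_70 : Ent 4 := ⟨[a0, a63, a106], [a67, a42, a111], (M a240 (F (T t4779 (T t817 (L l76 (L l137 (T t4781 N)))))))⟩
def e0_63_106__67_42_71 : Ent 4 := ⟨[a0, a63, a106], [a67, a42, a124], (M a48 (L l145 (F (T t309 (L l76 (L l140 (T t551 (L l28 (L l76 (L l140 (T t579 (K a105 (M a86 (F (T t304 (L l76 (L l143 (L l392 (T t6593 N))))))) (K a86 (M a105 (F (T t304 (L l109 (L l140 (L l474 (T t6590 N))))))) N)))))))))))))⟩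
def e0_63_106__67_42_72 : Ent 4 := ⟨[a0, a63, a106], [a67, a42, a125], (M a48 (F (T t309 (L l76 (T t551 (L l28 (L l76 (T t579 N))))))))⟩
def e0_63_106__67_42_73 : Ent 4 := ⟨[a0, a63, a106], [a67, a42, a126], (M a48 (F (T t309 (L l76 (T t551 (L l28 (L l76 (T t579 N))))))))⟩
def e0_63_106__67_42_74 : Ent 4 := ⟨[a0, a63, a106], [a67, a42, a127], (M a48 (L l143 (F (T t309 (L l76 (T t551 (L l28 (T t6454 (L l28 (T t6479 (K a87 (M a107 (F (T t309 (L l349 (T t1164 N))))) (K a107 (M a87 (F (T t3405 (L l76 (T t551 (L l28 (T t6594 N))))))) N))))))))))))⟩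
def e0_63_106__67_42_75 : Ent 4 := ⟨[a0, a63, a106], [a67, a42, a128], (M a48 (F (T t585 (L l28 (L l76 (T t579 (L l192 (L l220 (T t6480 (L l54 (L l160 (T t6481 N))))))))))))⟩
def e0_63_106__67_42_76 : Ent 4 := ⟨[a0, a63, a106], [a67, a42, a129], (M a48 (F (T t304 (L l28 (L l76 (T t579 (L l76 (L l217 (T t551 N)))))))))⟩
def e0_63_106__67_42_77 : Ent 4 := ⟨[a0, a63, a106], [a67, a42, a130], (M a48 (F (T t309 (L l76 (T t551 (L l28 (L l76 (T t579 N))))))))⟩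
def e0_63_106__67_42_78 : Ent 4 := ⟨[a0, a63, a106], [a67, a42, a131], (M a48 (L l307 (F (T t309 (L l76 (L l197 (T t551 (L l28 (L l76 (T t579 (K a3 (M a195 (F (T t585 (L l152 (L l197 (L l451 (T t4663 N))))))) (K a195 (M a3 (F (T t585 (L l28 (L l487 (T t559 N)))))) N))))))))))))⟩
def e0_63_106__67_42_79 : Ent 4 := ⟨[a0, a63, a106], [a67, a42, a132], (M a48 (F (T t304 (L l28 (L l76 (T t579 (L l76 (L l202 (T t551 N)))))))))⟩
def e0_63_106__67_42_80 : Ent 4 := ⟨[a0, a63, a106], [a67, a42, a133], (M a48 (F (T t585 (L l76 (L l199 (T t551 (L l28 (L l76 (T t579 N)))))))))⟩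
def e0_63_106__67_42_81 : Ent 4 := ⟨[a0, a63, a106], [a67, a42, a134], (M a48 (F (T t309 (L l76 (T t551 (L l28 (L l76 (T t579 N))))))))⟩
def e0_63_106__67_42_82 : Ent 4 := ⟨[a0, a63, a106], [a67, a42, a135], (M a48 (F (T t309 (L l76 (T t551 (L l28 (L l76 (T t579 N))))))))⟩
def e0_63_106__67_42_83 : Ent 4 := ⟨[a0, a63, a106], [a67, a42, a136], (M a48 (F (T t309 (L l76 (T t551 (L l28 (L l76 (T t579 N))))))))⟩
def e0_63_106__67_42_84 : Ent 4 := ⟨[a0, a63, a106], [a67, a42, a137], (M a48 (F (T t309 (L l76 (T t551 (L l28 (L l76 (T t579 N))))))))⟩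
def e0_63_106__67_42_85 : Ent 4 := ⟨[a0, a63, a106], [a67, a42, a138], (M a48 (F (T t578 (L l28 (L l76 (L l318 (T t579 (L l76 (T t551 N)))))))))⟩
def e0_63_106__67_42_86 : Ent 4 := ⟨[a0, a63, a106], [a67, a42, a139], (M a48 (F (T t309 (L l76 (T t551 (L l28 (L l76 (T t579 N))))))))⟩
def e0_63_106__67_42_87 : Ent 4 := ⟨[a0, a63, a106], [a67, a42, a140], (M a48 (F (T t309 (L l76 (L l222 (T t551 (L l28 (L l76 (T t579 N)))))))))⟩
def e0_63_106__67_42_88 : Ent 4 := ⟨[a0, a63, a106], [a67, a42, a141], (M a48 (F (T t309 (L l76 (T t551 (L l28 (L l76 (T t579 N))))))))⟩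
def e0_63_106__67_42_89 : Ent 4 := ⟨[a0, a63, a106], [a67, a42, a142], (M a48 (F (T t309 (L l76 (T t551 (L l28 (L l76 (T t579 N))))))))⟩
def e0_63_106__67_42_90 : Ent 4 := ⟨[a0, a63, a106], [a67, a42, a143], (M a48 (F (T t309 (L l28 (T t6462 (L l28 (L l76 (T t579 N))))))))⟩
def e0_63_106__67_42_91 : Ent 4 := ⟨[a0, a63, a106], [a67, a42, a148], (M a48 (F (T t304 (L l28 (L l76 (T t579 (L l76 (L l163 (T t551 N)))))))))⟩
def e0_63_106__67_42_92 : Ent 4 := ⟨[a0, a63, a106], [a67, a42, a149], (M a240 (F (L l199 (L l220 (T t6482 (L l28 (L l76 (L l199 (L l375 (T t6483 (L l199 (L l347 (T t6484 (L l28 (L l143 (L l199 (L l220 (L l375 (T t6485 (K a133 (M a165 (F (T t6486 (L l28 (L l143 (L l160 (L l220 (L l311 (L l375 (T t6487 (L l143 (L l160 (L l220 (T t6488 N)))))))))))))) (K a165 (M a90 (L l199 (F (T t4788 (L l76 (L l180 (T t6489 (K a133 (Fr a181 a122 l447 (V t6489)) (K a181 (M a133 (F (L l76 (L l180 (T t6489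 (L l455 (T t6490 (L l83 (L l220 (T t6491 N)))))))))) N))))))))) (K a181 (M a165 (F (T t6492 (T t6493 (L l28 (L l143 (L l220 (L l375 (T t6487 (L l143 (L l220 (T t6488 N)))))))))))) (K a74 (M a48 (F (L l339 (T t1915 (L l54 (T t3317 (L l28 (L l76 (L l84 (L l318 (L l491 (T t579 N)))))))))))) (K a90 (M a48 (L l375 (F (L l76 (T t3318 (L l199 (L l462 (L l491 (T t781 (L l28 (L l76 (L l491 (T t579 (K a208 (M a31 (F (L l28 (L l347 (T t6495 (L l121 (L l151 (L l220 (T t6496 N))))))))) (K a31 (M a208 (F (T t6497 (L l121 (L l151 (L l220 (T t6496 N))))))) N))))))))))))))) (K a122 (M a48 (F (T t1915 (L l28 (L l76 (L l491 (T t579 (L l114 (L l121 (L l491 (T t6471 N))))))))))) N)))))))))))))))))))))))))⟩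
def e0_63_106__67_42_93 : Ent 4 := ⟨[a0, a63, a106], [a67, a42, a150], (M a48 (F (T t309 (L l76 (L l163 (T t551 (L l28 (L l76 (T t579 N)))))))))⟩
def e0_63_106__67_42_94 : Ent 4 := ⟨[a0, a63, a106], [a67, a42, a151], (M a48 (F (T t309 (L l76 (L l163 (T t551 (L l28 (L l76 (T t579 N)))))))))⟩
def e0_63_106__67_42_95 : Ent 4 := ⟨[a0, a63, a106], [a67, a42, a152], (M a48 (F (T t304 (L l28 (L l76 (T t579 (L l76 (L l222 (T t551 N)))))))))⟩
def e0_63_106__67_42_96 : Ent 4 := ⟨[a0, a63, a106], [a67, a42, a153], (M a48 (F (T t309 (L l76 (L l167 (T t551 (L l28 (L l76 (T t579 N)))))))))⟩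
def e0_63_106__67_42_97 : Ent 4 := ⟨[a0, a63, a106], [a67, a42, a154], (M a240 (F (T t4779 (L l170 (L l368 (L l512 (T t817 (L l76 (T t4781 N)))))))))⟩
def e0_63_106__67_42_98 : Ent 4 := ⟨[a0, a63, a106], [a67, a42, a155], (M a48 (F (T t309 (L l76 (T t551 (L l28 (L l76 (L l367 (T t579 N)))))))))⟩
def e0_63_106__67_42_99 : Ent 4 := ⟨[a0, a63, a106], [a67, a42, a156], (M a48 (F (T t304 (L l28 (L l76 (T t579 (L l76 (T t551 N))))))))⟩
def e0_63_106__67_42_100 : Ent 4 := ⟨[a0, a63, a106], [a67, a42, a157], (M a48 (F (T t309 (L l76 (L l167 (T t551 (L l28 (L l76 (T t579 N)))))))))⟩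
def e0_63_106__67_42_101 : Ent 4 := ⟨[a0, a63, a106], [a67, a42, a158], (M a48 (F (T t309 (L l76 (T t551 (L l28 (L l76 (L l362 (T t579 N)))))))))⟩
def e0_63_106__67_42_102 : Ent 4 := ⟨[a0, a63, a106], [a67, a42, a159], (M a240 (F (T t4779 (L l170 (T t817 (L l76 (L l361 (T t4781 N))))))))⟩
def e0_63_106__67_42_103 : Ent 4 := ⟨[a0, a63, a106], [a67, a42, a168], (M a48 (F (T t309 (L l76 (T t551 (L l28 (L l76 (L l400 (T t579 N)))))))))⟩
def e0_63_106__67_42_104 : Ent 4 := ⟨[a0, a63, a106], [a67, a42, a169], (M a48 (F (T t309 (L l76 (L l217 (T t551 (L l28 (L l76 (T t579 N)))))))))⟩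
def e0_63_106__67_42_105 : Ent 4 := ⟨[a0, a63, a106], [a67, a42, a170], (M a48 (F (T t309 (L l76 (L l220 (T t551 (L l28 (L l76 (L l206 (L l220 (L l404 (T t552 (L l28 (L l206 (L l404 (T t553 N))))))))))))))))⟩
def e0_63_106__67_42_106 : Ent 4 := ⟨[a0, a63, a106], [a67, a42, a171], (M a48 (F (T t309 (L l76 (T t551 (L l28 (L l76 (T t579 N))))))))⟩
def e0_63_106__67_42_107 : Ent 4 := ⟨[a0, a63, a106], [a67, a42, a172], (M a48 (F (T t309 (L l76 (T t551 (L l28 (L l76 (T t579 N))))))))⟩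
def e0_63_106__67_42_108 : Ent 4 := ⟨[a0, a63, a106], [a67, a42, a173], (M a48 (F (T t309 (L l76 (T t551 (L l28 (L l76 (T t579 N))))))))⟩
def e0_63_106__67_42_109 : Ent 4 := ⟨[a0, a63, a106], [a67, a42, a174], (M a48 (F (T t309 (L l76 (T t551 (L l28 (L l76 (T t579 N))))))))⟩
def e0_63_106__67_42_110 : Ent 4 := ⟨[a0, a63, a106], [a67, a42, a175], (M a48 (F (T t309 (L l76 (T t551 (L l28 (L l76 (T t579 N))))))))⟩
def e0_63_106__67_42_111 : Ent 4 := ⟨[a0, a63, a106], [a67, a42, a188], (M a48 (F (T t309 (L l76 (L l186 (T t551 (L l28 (L l76 (T t579 N)))))))))⟩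
def e0_63_106__67_42_112 : Ent 4 := ⟨[a0, a63, a106], [a67, a42, a189], (M a48 (F (T t309 (L l76 (L l217 (T t551 (L l28 (L l76 (T t579 N)))))))))⟩
def e0_63_106__67_42_113 : Ent 4 := ⟨[a0, a63, a106], [a67, a42, a190], (M a48 (F (T t309 (L l76 (T t551 (L l28 (L l76 (T t579 N))))))))⟩
def e0_63_106__67_42_114 : Ent 4 := ⟨[a0, a63, a106], [a67, a42, a191], (M a48 (F (T t309 (L l76 (L l190 (L l220 (T t551 (L l28 (T t6498 (L l28 (T t6499 N)))))))))))⟩
def e0_63_106__67_42_115 : Ent 4 := ⟨[a0, a63, a106], [a67, a42, a192], (M a240 (F (L l76 (L l339 (T t4781 (L l236 (L l339 (T t6500 (L l296 (L l339 (T t6501 (L l28 (L l339 (T t6502 (L l76 (L l339 (T t6503 (K a133 (M a90 (L l339 (F (T t4788 (T t6504 (K a74 (Fr a15 a165 l483 (V t6505)) (K a15 (Fr a74 a122 l130 (V t6506)) N))))))) (K a85 (M a12 (F (L l292 (T t2745 (L l272 (L l339 (T t6595 N))))))) (K a181 (M a12 (F (T t3358 (L l56 (L l76 (L l272 (T t2415 (L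 l272 (T t6512 N))))))))) (K a74 (M a165 (L l339 (F (T t6492 (L l296 (T t6513 (L l54 (L l76 (L l84 (L l318 (T t6514 (K a133 (Fr a15 a90 l483 (V t6515)) (K a15 (M a133 (F (T t6516 (L l28 (L l236 (L l318 (L l484 (T t6517 N)))))))) N))))))))))))) (K a90 (M a252 (F (L l334 (T t6518 (L l148 (L l489 (T t6519 (L l76 (L l143 (L l309 (L l462 (T t6476 N)))))))))))) (K a122 (M a12 (F (T t2747 (L l56 (L l76 (L l272 (T t2415 (L l272 (T t6512 N))))))))) (K a15 (M a248 (L l339 (F (T t6520 (L l22 (T t6521 (K a133 (M a74 (F (T t6522 (L l3 (L l56 (L l334 (T t6523 N))))))) (K a74 (M a133 (F (T t3821 (T t6520 (L l143 (L l469 (L l484 (T t6524 N)))))))) N)))))))) N))))))))))))))))))))))))⟩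
def e0_63_106__67_42_116 : Ent 4 := ⟨[a0, a63, a106], [a67, a42, a193], (M a48 (F (T t585 (L l76 (L l515 (T t551 (L l28 (L l76 (T t579 N)))))))))⟩
def e0_63_106__67_42_117 : Ent 4 := ⟨[a0, a63, a106], [a67, a42, a194], (M a48 (F (T t578 (L l28 (L l76 (L l234 (T t579 (L l76 (T t551 N)))))))))⟩
def e0_63_106__67_42_118 : Ent 4 := ⟨[a0, a63, a106], [a67, a42, a195], (M a48 (L l307 (F (T t585 (L l76 (L l273 (T t551 (L l28 (L l76 (T t579 (K a3 (M a131 (F (T t585 (L l76 (L l273 (L l453 (T t551 (L l28 (L l76 (T t579 N)))))))))) (K a131 (M a3 (F (T t585 (L l28 (L l487 (T t559 N)))))) N))))))))))))⟩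
def e0_63_106__67_42_119 : Ent 4 := ⟨[a0, a63, a106], [a67, a42, a196], (M a48 (F (T t585 (L l76 (L l495 (T t551 (L l28 (L l76 (T t579 N)))))))))⟩
def e0_63_106__67_42_120 : Ent 4 := ⟨[a0, a63, a106], [a67, a42, a197], (M a240 (F (L l236 (T t4779 (L l491 (T t817 (L l76 (T t4781 N))))))))⟩
def e0_63_106__67_42_121 : Ent 4 := ⟨[a0, a63, a106], [a67, a42, a198], (M a48 (F (T t578 (L l28 (L l76 (L l234 (T t579 (L l76 (T t551 N)))))))))⟩
def e0_63_106__67_42_122 : Ent 4 := ⟨[a0, a63, a106], [a67, a42, a199], (M a48 (F (T t309 (L l76 (T t551 (L l28 (L l76 (T t579 N))))))))⟩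
def e0_63_106__67_42_123 : Ent 4 := ⟨[a0, a63, a106], [a67, a42, a200], (M a48 (F (T t578 (L l28 (L l76 (L l230 (T t579 (L l76 (T t551 N)))))))))⟩
def e0_63_106__67_42_124 : Ent 4 := ⟨[a0, a63, a106], [a67, a42, a201], (M a48 (F (T t578 (L l28 (L l76 (L l230 (T t579 (L l76 (T t551 N)))))))))⟩
def e0_63_106__67_42_125 : Ent 4 := ⟨[a0, a63, a106], [a67, a42, a202], (M a240 (F (L l236 (T t4786 (T t817 (L l76 (L l318 (T t4781 N))))))))⟩
def e0_63_106__67_42_126 : Ent 4 := ⟨[a0, a63, a106], [a67, a42, a203], (M a48 (F (T t2348 (L l28 (L l76 (L l230 (T t579 (L l76 (T t551 N)))))))))⟩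
def e0_63_106__67_42_127 : Ent 4 := ⟨[a0, a63, a106], [a67, a42, a204], (M a48 (F (T t585 (L l76 (L l298 (T t551 (L l28 (L l76 (T t579 N)))))))))⟩
def e0_63_106__67_42_128 : Ent 4 := ⟨[a0, a63, a106], [a67, a42, a205], (M a48 (F (T t309 (L l76 (T t551 (L l28 (L l76 (T t579 N))))))))⟩
def e0_63_106__67_42_129 : Ent 4 := ⟨[a0, a63, a106], [a67, a42, a206], (M a48 (F (T t2348 (L l28 (L l76 (L l234 (T t579 (L l76 (T t551 N)))))))))⟩
def e0_63_106__67_42_130 : Ent 4 := ⟨[a0, a63, a106], [a67, a42, a207], (M a240 (F (T t6525 (L l512 (T t817 (L l76 (T t4781 N)))))))⟩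
def e0_63_106__67_42_131 : Ent 4 := ⟨[a0, a63, a106], [a67, a42, a212], (M a48 (F (T t304 (L l28 (L l76 (T t579 (L l76 (L l351 (T t551 N)))))))))⟩
def e0_63_106__67_42_132 : Ent 4 := ⟨[a0, a63, a106], [a67, a42, a213], (M a48 (F (T t304 (L l28 (L l76 (L l246 (T t579 (L l76 (L l347 (T t551 N))))))))))⟩
def e0_63_106__67_42_133 : Ent 4 := ⟨[a0, a63, a106], [a67, a42, a214], (M a48 (F (T t309 (L l76 (T t551 (L l28 (L l76 (T t579 N))))))))⟩
def e0_63_106__67_42_134 : Ent 4 := ⟨[a0, a63, a106], [a67, a42, a215], (M a48 (F (T t309 (L l76 (T t551 (L l28 (L l76 (L l245 (T t579 N)))))))))⟩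
def e0_63_106__67_42_135 : Ent 4 := ⟨[a0, a63, a106], [a67, a42, a216], (M a48 (F (T t309 (L l76 (L l298 (T t551 (L l28 (L l76 (T t579 N)))))))))⟩
def e0_63_106__67_42_136 : Ent 4 := ⟨[a0, a63, a106], [a67, a42, a217], (M a48 (F (T t309 (L l76 (T t551 (L l28 (L l76 (T t579 N))))))))⟩
def e0_63_106__67_42_137 : Ent 4 := ⟨[a0, a63, a106], [a67, a42, a218], (M a48 (F (T t2348 (L l28 (L l76 (L l246 (L l282 (T t579 (L l76 (L l303 (T t551 N)))))))))))⟩
def e0_63_106__67_42_138 : Ent 4 := ⟨[a0, a63, a106], [a67, a42, a219], (M a48 (F (T t309 (L l76 (T t551 (L l28 (L l76 (L l245 (T t579 N)))))))))⟩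
def e0_63_106__67_42_139 : Ent 4 := ⟨[a0, a63, a106], [a67, a42, a220], (M a48 (F (T t309 (L l76 (T t551 (L l28 (L l76 (L l241 (T t579 N)))))))))⟩
def e0_63_106__67_42_140 : Ent 4 := ⟨[a0, a63, a106], [a67, a42, a221], (M a48 (F (T t309 (L l76 (T t551 (L l28 (L l76 (L l241 (T t579 N)))))))))⟩
def e0_63_106__67_42_141 : Ent 4 := ⟨[a0, a63, a106], [a67, a42, a222], (M a48 (F (T t309 (L l76 (T t551 (L l28 (L l76 (L l241 (T t579 N)))))))))⟩
def e0_63_106__67_42_142 : Ent 4 := ⟨[a0, a63, a106], [a67, a42, a223], (M a240 (F (T t4786 (L l368 (T t817 (L l76 (L l361 (T t4781 N))))))))⟩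
def e0_63_106__67_42_143 : Ent 4 := ⟨[a0, a63, a106], [a67, a42, a232], (M a48 (F (T t304 (L l28 (L l76 (T t579 (L l76 (T t551 N))))))))⟩
def e0_63_106__67_42_144 : Ent 4 := ⟨[a0, a63, a106], [a67, a42, a233], (M a48 (F (T t309 (L l76 (T t551 (L l28 (L l76 (T t579 N))))))))⟩
def e0_63_106__67_42_145 : Ent 4 := ⟨[a0, a63, a106], [a67, a42, a234], (M a48 (F (T t578 (L l28 (L l76 (L l282 (T t579 (L l76 (T t551 N)))))))))⟩
def e0_63_106__67_42_146 : Ent 4 := ⟨[a0, a63, a106], [a67, a42, a235], (M a48 (F (T t309 (L l76 (T t551 (L l28 (L l76 (T t579 N))))))))⟩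
def e0_63_106__67_42_147 : Ent 4 := ⟨[a0, a63, a106], [a67, a42, a236], (M a48 (F (T t309 (L l76 (T t551 (L l28 (L l76 (L l400 (T t579 N)))))))))⟩
def e0_63_106__67_42_148 : Ent 4 := ⟨[a0, a63, a106], [a67, a42, a237], (M a48 (F (T t309 (L l76 (T t551 (L l28 (L l76 (T t579 N))))))))⟩
def e0_63_106__67_42_149 : Ent 4 := ⟨[a0, a63, a106], [a67, a42, a238], (M a48 (F (T t309 (L l76 (T t551 (L l28 (L l76 (T t579 N))))))))⟩
def e0_63_106__67_42_150 : Ent 4 := ⟨[a0, a63, a106], [a67, a42, a239], (M a48 (F (T t309 (L l76 (T t551 (L l28 (L l76 (L l289 (L l404 (T t579 N))))))))))⟩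
def e0_63_106__67_42_151 : Ent 4 := ⟨[a0, a63, a106], [a67, a42, a252], (M a48 (F (T t585 (L l76 (L l262 (T t551 (L l28 (L l76 (T t579 N)))))))))⟩
def e0_63_106__67_42_152 : Ent 4 := ⟨[a0, a63, a106], [a67, a42, a253], (M a48 (F (T t309 (L l76 (T t551 (L l28 (L l76 (T t579 N))))))))⟩
def e0_63_106__67_42_153 : Ent 4 := ⟨[a0, a63, a106], [a67, a42, a254], (M a48 (F (T t309 (L l76 (T t551 (L l28 (L l76 (T t579 N))))))))⟩
def e0_63_106__67_42_154 : Ent 4 := ⟨[a0, a63, a106], [a67, a42, a255], (M a48 (F (T t585 (L l76 (L l266 (T t551 (L l28 (L l469 (T t6526 (L l28 (L l143 (L l289 (T t6527 N)))))))))))))⟩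
def b0_63_106__67_42 : Blk 4 := ⟨[0, 63, 106], [67, 42], [1, 2, 3, 4, 5, 6, 7, 8, 9, 10, 11, 12, 13, 14, 15, 20, 21, 22, 23, 24, 25, 26, 27, 28, 29, 30, 31, 40, 41, 43, 44, 45, 46, 47, 60, 61, 62, 64, 65, 66, 68, 69, 70, 71, 72, 73, 74, 75, 76, 77, 78, 79, 84, 85, 86, 87, 88, 89, 90, 91, 92, 93, 94, 95, 104, 105, 107, 108, 109, 110, 111, 124, 125, 126, 127, 128, 129, 130, 131, 132, 133, 134, 135, 136, 137, 138, 139, 140, 141, 142, 143, 148, 149, 150, 151, 152, 153, 154, 155, 156, 157, 158, 159, 168, 169, 170, 171, 172, 173, 174, 175, 188, 189, 190, 191, 192, 193, 194, 195, 196, 197, 198, 199, 200, 201, 202, 203, 204, 205, 206, 207, 212, 213, 214, 215, 216, 217, 218, 219, 220, 221, 222, 223, 232, 233, 234, 235, 236, 237, 238, 239, 252, 253, 254, 255], [e0_63_106__67_42_0, e0_63_106__67_42_1, e0_63_106__67_42_2, e0_63_106__67_42_3, e0_63_106__67_42_4, e0_63_106__67_42_5, e0_63_106__67_42_6, e0_63_106__67_42_7,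 e0_63_106__67_42_8, e0_63_106__67_42_9, e0_63_106__67_42_10, e0_63_106__67_42_11, e0_63_106__67_42_12, e0_63_106__67_42_13, e0_63_106__67_42_14, e0_63_106__67_42_15, e0_63_106__67_42_16, e0_63_106__67_42_17, e0_63_106__67_42_18, e0_63_106__67_42_19, e0_63_106__67_42_20, e0_63_106__67_42_21, e0_63_106__67_42_22, e0_63_106__67_42_23, e0_63_106__67_42_24, e0_63_106__67_42_25, e0_63_106__67_42_26, e0_63_106__67_42_27, e0_63_106__67_42_28, e0_63_106__67_42_29, e0_63_106__67_42_30, e0_63_106__67_42_31, e0_63_106__67_42_32, e0_63_106__67_42_33, e0_63_106__67_42_34, e0_63_106__67_42_35, e0_63_106__67_42_36, e0_63_106__67_42_37, e0_63_106__67_42_38, e0_63_106__67_42_39, e0_63_106__67_42_40, e0_63_106__67_42_41, e0_63_106__67_42_42, e0_63_106__67_42_43, e0_63_106__67_42_44, e0_63_106__67_42_45, e0_63_106__67_42_46, e0_63_106__67_42_47, e0_63_106__67_42_48, e0_63_106__67_42_49, e0_63_106__67_42_50, e0_63_106__67_42_51,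 e0_63_106__67_42_52, e0_63_106__67_42_53, e0_63_106__67_42_54, e0_63_106__67_42_55, e0_63_106__67_42_56, e0_63_106__67_42_57, e0_63_106__67_42_58, e0_63_106__67_42_59, e0_63_106__67_42_60, e0_63_106__67_42_61, e0_63_106__67_42_62, e0_63_106__67_42_63, e0_63_106__67_42_64, e0_63_106__67_42_65, e0_63_106__67_42_66, e0_63_106__67_42_67, e0_63_106__67_42_68, e0_63_106__67_42_69, e0_63_106__67_42_70, e0_63_106__67_42_71, e0_63_106__67_42_72, e0_63_106__67_42_73, e0_63_106__67_42_74, e0_63_106__67_42_75, e0_63_106__67_42_76, e0_63_106__67_42_77, e0_63_106__67_42_78, e0_63_106__67_42_79, e0_63_106__67_42_80, e0_63_106__67_42_81, e0_63_106__67_42_82, e0_63_106__67_42_83, e0_63_106__67_42_84, e0_63_106__67_42_85, e0_63_106__67_42_86, e0_63_106__67_42_87, e0_63_106__67_42_88, e0_63_106__67_42_89, e0_63_106__67_42_90, e0_63_106__67_42_91, e0_63_106__67_42_92, e0_63_106__67_42_93, e0_63_106__67_42_94, e0_63_106__67_42_95,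 e0_63_106__67_42_96, e0_63_106__67_42_97, e0_63_106__67_42_98, e0_63_106__67_42_99, e0_63_106__67_42_100, e0_63_106__67_42_101, e0_63_106__67_42_102, e0_63_106__67_42_103, e0_63_106__67_42_104, e0_63_106__67_42_105, e0_63_106__67_42_106, e0_63_106__67_42_107, e0_63_106__67_42_108, e0_63_106__67_42_109, e0_63_106__67_42_110, e0_63_106__67_42_111, e0_63_106__67_42_112, e0_63_106__67_42_113, e0_63_106__67_42_114, e0_63_106__67_42_115, e0_63_106__67_42_116, e0_63_106__67_42_117, e0_63_106__67_42_118, e0_63_106__67_42_119, e0_63_106__67_42_120, e0_63_106__67_42_121, e0_63_106__67_42_122, e0_63_106__67_42_123, e0_63_106__67_42_124, e0_63_106__67_42_125, e0_63_106__67_42_126, e0_63_106__67_42_127, e0_63_106__67_42_128, e0_63_106__67_42_129, e0_63_106__67_42_130, e0_63_106__67_42_131, e0_63_106__67_42_132, e0_63_106__67_42_133, e0_63_106__67_42_134, e0_63_106__67_42_135, e0_63_106__67_42_136, e0_63_106__67_42_137,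 e0_63_106__67_42_138, e0_63_106__67_42_139, e0_63_106__67_42_140, e0_63_106__67_42_141, e0_63_106__67_42_142, e0_63_106__67_42_143, e0_63_106__67_42_144, e0_63_106__67_42_145, e0_63_106__67_42_146, e0_63_106__67_42_147, e0_63_106__67_42_148, e0_63_106__67_42_149, e0_63_106__67_42_150, e0_63_106__67_42_151, e0_63_106__67_42_152, e0_63_106__67_42_153, e0_63_106__67_42_154], by decide +kernel, by decide +kernel⟩
def e0_63_106__69_42_0 : Ent 4 := ⟨[a0, a63, a106], [a69, a42, a1], (M a48 (L l329 (F (T t309 (L l84 (T t551 (L l28 (L l84 (T t579 (K a137 (M a205 (F (T t578 (L l28 (L l84 (T t579 (L l84 (T t551 N)))))))) (K a205 (M a137 (F (T t309 (L l84 (T t551 (L l28 (L l84 (T t579 N)))))))) N)))))))))))⟩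
def e0_63_106__69_42_1 : Ent 4 := ⟨[a0, a63, a106], [a69, a42, a2], (M a48 (L l66 (F (T t309 (L l84 (T t551 (L l28 (L l84 (T t579 (K a22 (M a62 (F (T t309 (L l22 (L l84 (L l306 (T t5926 N))))))) (K a62 (M a22 (F (T t578 (L l28 (L l84 (T t579 (L l84 (T t551 N)))))))) N)))))))))))⟩
def e0_63_106__69_42_2 : Ent 4 := ⟨[a0, a63, a106], [a69, a42, a3], (M a48 (F (T t5173 (L l28 (L l84 (T t579 (L l84 (L l453 (T t551 N)))))))))⟩
def e0_63_106__69_42_3 : Ent 4 := ⟨[a0, a63, a106], [a69, a42, a5], (M a12 (L l311 (F (T t2304 (L l84 (T t2305 (L l56 (L l84 (T t2415 (K a133 (M a197 (F (T t2414 (L l56 (L l84 (T t2415 (L l84 (L l199 (T t2305 N))))))))) (K a197 (M a133 (F (T t2414 (L l56 (L l84 (T t2415 (L l81 (L l491 (T t6596 N))))))))) N)))))))))))⟩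
def e0_63_106__69_42_4 : Ent 4 := ⟨[a0, a63, a106], [a69, a42, a6], (M a48 (F (T t309 (L l84 (T t551 (L l28 (L l84 (T t579 N))))))))⟩
def e0_63_106__69_42_5 : Ent 4 := ⟨[a0, a63, a106], [a69, a42, a7], (M a48 (F (T t309 (L l84 (T t551 (L l28 (L l84 (T t579 N))))))))⟩
def e0_63_106__69_42_6 : Ent 4 := ⟨[a0, a63, a106], [a69, a42, a10], (M a48 (L l54 (F (T t578 (L l28 (L l84 (L l318 (T t579 (L l84 (T t551 (K a26 (Fr a58 a53 l38 (V t6446)) (K a58 (M a26 (F (L l28 (T t4144 (L l84 (T t551 (L l28 (L l426 (T t6447 (K a32 (Fr a192 a149 l519 (Fr a15 a37 l75 (Fr a47 a31 l61 (V t6528)))) N)))))))))) N))))))))))))⟩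
def e0_63_106__69_42_7 : Ent 4 := ⟨[a0, a63, a106], [a69, a42, a11], (M a48 (F (T t309 (L l84 (T t551 (L l28 (L l84 (T t579 N))))))))⟩
def e0_63_106__69_42_8 : Ent 4 := ⟨[a0, a63, a106], [a69, a42, a15], (M a48 (F (T t5173 (L l28 (L l84 (T t579 (L l84 (L l483 (T t551 N)))))))))⟩
def e0_63_106__69_42_9 : Ent 4 := ⟨[a0, a63, a106], [a69, a42, a16], (M a240 (F (L l311 (T t4786 (L l84 (L l340 (T t4780 (L l84 (T t6482 (T t6597 N))))))))))⟩
def e0_63_106__69_42_10 : Ent 4 := ⟨[a0, a63, a106], [a69, a42, a17], (M a48 (F (T t309 (L l84 (T t551 (L l28 (L l84 (T t579 N))))))))⟩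
def e0_63_106__69_42_11 : Ent 4 := ⟨[a0, a63, a106], [a69, a42, a18], (M a48 (F (T t309 (L l84 (T t551 (L l28 (L l84 (T t579 N))))))))⟩
def e0_63_106__69_42_12 : Ent 4 := ⟨[a0, a63, a106], [a69, a42, a19], (M a48 (F (T t309 (L l84 (T t551 (L l28 (L l84 (L l367 (T t579 N)))))))))⟩
def e0_63_106__69_42_13 : Ent 4 := ⟨[a0, a63, a106], [a69, a42, a21], (M a48 (F (L l47 (T t309 (L l84 (L l347 (T t551 (L l28 (L l47 (L l84 (T t579 N)))))))))))⟩
def e0_63_106__69_42_14 : Ent 4 := ⟨[a0, a63, a106], [a69, a42, a22], (M a48 (L l66 (F (T t309 (L l84 (T t551 (L l28 (L l84 (T t579 (K a2 (M a62 (F (T t309 (L l22 (L l84 (L l306 (T t5926 N))))))) (K a62 (M a2 (F (T t307 (L l19 (L l28 (L l329 (T t342 N))))))) N)))))))))))⟩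
def e0_63_106__69_42_15 : Ent 4 := ⟨[a0, a63, a106], [a69, a42, a23], (M a48 (F (T t309 (L l84 (L l351 (T t551 (L l28 (L l84 (T t579 N)))))))))⟩
def e0_63_106__69_42_16 : Ent 4 := ⟨[a0, a63, a106], [a69, a42, a26], (M a48 (L l54 (F (T t309 (L l28 (L l84 (T t579 (L l84 (T t551 (K a10 (Fr a58 a53 l38 (V t6446)) (K a58 (M a10 (F (L l84 (T t551 (L l18 (L l311 (L l354 (L l426 (T t6598 (L l28 (L l84 (L l311 (T t6599 (T t6600 (L l18 (L l311 (L l354 (T t6449 (L l18 (L l311 (T t6601 (L l18 (L l123 (L l311 (L l426 (T t6450 N)))))))))))))))))))))))))) N)))))))))))⟩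
def e0_63_106__69_42_17 : Ent 4 := ⟨[a0, a63, a106], [a69, a42, a27], (M a48 (F (T t309 (L l84 (T t551 (L l28 (L l84 (T t579 N))))))))⟩
def e0_63_106__69_42_18 : Ent 4 := ⟨[a0, a63, a106], [a69, a42, a31], (M a48 (F (T t309 (L l84 (L l375 (T t551 (L l28 (L l84 (L l361 (T t579 N))))))))))⟩
def e0_63_106__69_42_19 : Ent 4 := ⟨[a0, a63, a106], [a69, a42, a32], (M a240 (L l28 (F (L l84 (T t4779 (L l376 (T t6588 (L l84 (L l376 (L l404 (T t6482 (L l311 (L l376 (T t4786 (K a37 (M a47 (F (T t6602 (T t6603 (T t6604 N))))) (K a47 (M a37 (F (L l376 (T t6588 (L l54 (L l311 (T t6605 (L l84 (L l376 (L l404 (T t6482 N))))))))))) N))))))))))))))))⟩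
def e0_63_106__69_42_20 : Ent 4 := ⟨[a0, a63, a106], [a69, a42, a33], (M a48 (F (T t309 (L l84 (T t551 (L l20 (L l28 (L l84 (T t579 N)))))))))⟩
def e0_63_106__69_42_21 : Ent 4 := ⟨[a0, a63, a106], [a69, a42, a34], (M a48 (L l26 (F (T t309 (L l84 (T t551 (L l20 (L l28 (L l84 (T t579 (K a38 (M a46 (F (T t307 (L l56 (L l84 (L l378 (T t4030 N))))))) (K a46 (M a38 (F (T t578 (L l20 (L l28 (L l84 (T t579 (L l84 (T t551 N))))))))) N))))))))))))⟩
def e0_63_106__69_42_22 : Ent 4 := ⟨[a0, a63, a106], [a69, a42, a35], (M a48 (F (T t309 (L l84 (T t551 (L l20 (L l28 (L l84 (T t579 N)))))))))⟩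
def e0_63_106__69_42_23 : Ent 4 := ⟨[a0, a63, a106], [a69, a42, a37], (M a240 (L l28 (F (L l311 (T t4786 (T t6606 (L l84 (T t6482 (K a32 (M a47 (F (T t6602 (T t6603 (T t6604 N))))) (K a47 (M a32 (F (T t6607 (L l84 (T t6482 (L l54 (T t6608 N))))))) N))))))))))⟩
def e0_63_106__69_42_24 : Ent 4 := ⟨[a0, a63, a106], [a69, a42, a38], (M a48 (L l26 (F (T t309 (L l84 (T t551 (L l28 (L l84 (T t579 (K a34 (M a46 (F (T t307 (L l56 (L l84 (L l378 (T t4030 N))))))) (K a46 (M a34 (F (T t309 (L l29 (L l66 (T t6453 N)))))) N)))))))))))⟩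
def e0_63_106__69_42_25 : Ent 4 := ⟨[a0, a63, a106], [a69, a42, a39], (M a48 (F (T t309 (L l84 (T t551 (L l28 (L l84 (T t579 N))))))))⟩
def e0_63_106__69_42_26 : Ent 4 := ⟨[a0, a63, a106], [a69, a42, a43], (M a48 (L l22 (F (T t309 (L l84 (T t551 (L l28 (L l84 (T t579 (K a40 (M a41 (F (T t578 (L l24 (L l28 (L l84 (T t579 (L l84 (T t551 N))))))))) (K a41 (M a40 (F (T t309 (L l29 (L l69 (T t6452 N)))))) N)))))))))))⟩
def e0_63_106__69_42_27 : Ent 4 := ⟨[a0, a63, a106], [a69, a42, a47], (M a12 (L l28 (F (T t2304 (L l84 (T t2305 (L l56 (L l84 (T t2415 (K a32 (M a37 (F (T t2416 (L l56 (L l84 (T t2415 (L l84 (T t2305 N)))))))) (K a37 (M a32 (F (T t2304 (L l51 (L l56 (T t682 N)))))) N)))))))))))⟩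
def e0_63_106__69_42_28 : Ent 4 := ⟨[a0, a63, a106], [a69, a42, a48], (M a12 (F (T t2419 (L l84 (L l508 (T t2305 (L l56 (L l84 (T t2415 N)))))))))⟩
def e0_63_106__69_42_29 : Ent 4 := ⟨[a0, a63, a106], [a69, a42, a49], (M a48 (F (T t578 (L l28 (L l35 (L l84 (T t579 (L l84 (T t551 N)))))))))⟩
def e0_63_106__69_42_30 : Ent 4 := ⟨[a0, a63, a106], [a69, a42, a50], (M a48 (F (T t309 (L l84 (T t551 (L l28 (L l84 (T t579 N))))))))⟩
def e0_63_106__69_42_31 : Ent 4 := ⟨[a0, a63, a106], [a69, a42, a51], (M a48 (F (T t5173 (L l28 (L l84 (T t579 (L l84 (L l417 (T t551 N)))))))))⟩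
def e0_63_106__69_42_32 : Ent 4 := ⟨[a0, a63, a106], [a69, a42, a53], (M a240 (F (L l311 (T t4786 (L l491 (T t817 (L l84 (L l419 (T t6482 N)))))))))⟩
def e0_63_106__69_42_33 : Ent 4 := ⟨[a0, a63, a106], [a69, a42, a54], (M a48 (F (T t578 (L l28 (L l31 (L l84 (T t579 (L l84 (T t551 N)))))))))⟩
def e0_63_106__69_42_34 : Ent 4 := ⟨[a0, a63, a106], [a69, a42, a55], (M a48 (F (L l31 (T t309 (L l84 (L l495 (T t551 (L l28 (L l31 (L l84 (T t579 N)))))))))))⟩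
def e0_63_106__69_42_35 : Ent 4 := ⟨[a0, a63, a106], [a69, a42, a58], (M a240 (L l54 (F (L l28 (T t815 (T t6588 (L l84 (T t6482 (K a10 (M a26 (F (L l28 (T t815 (T t6588 (L l84 (L l318 (L l462 (T t6482 N))))))))) (K a26 (M a10 (F (L l84 (T t6609 (L l311 (T t6610 (L l18 (T t6611 N)))))))) N))))))))))⟩
def e0_63_106__69_42_36 : Ent 4 := ⟨[a0, a63, a106], [a69, a42, a59], (M a48 (L l56 (F (T t309 (L l84 (T t551 (L l28 (L l84 (T t579 (K a8 (M a25 (F (T t578 (L l28 (L l84 (T t579 (L l84 (T t551 N)))))))) (K a25 (M a8 (F (T t307 (L l19 (L l28 (L l314 (T t4700 N))))))) N)))))))))))⟩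
def e0_63_106__69_42_37 : Ent 4 := ⟨[a0, a63, a106], [a69, a42, a64], (M a48 (L l84 (F (T t309 (L l28 (L l123 (T t6612 (L l123 (T t6613 (L l28 (L l54 (T t6614 (L l54 (L l311 (T t6458 (K a74 (M a79 (F (T t578 (L l123 (L l318 (T t6615 (T t6616 (L l28 (L l318 (T t6617 (L l28 (L l54 (L l318 (L l339 (T t6618 (L l54 (L l311 (L l339 (T t6458 N))))))))))))))))))) (K a79 (M a74 (F (T t309 (L l311 (T t6556 (L l137 (L l151 (T t6619 N)))))))) N)))))))))))))))))⟩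
def e0_63_106__69_42_38 : Ent 4 := ⟨[a0, a63, a106], [a69, a42, a65], (M a48 (L l81 (F (T t309 (L l76 (L l84 (T t551 (L l28 (L l76 (L l84 (T t579 (K a73 (M a77 (F (T t578 (L l28 (L l76 (L l84 (T t579 (L l76 (L l84 (T t551 N)))))))))) (K a77 (M a73 (F (T t309 (L l76 (L l84 (T t551 (L l28 (L l76 (L l84 (T t579 N)))))))))) N)))))))))))))⟩
def e0_63_106__69_42_39 : Ent 4 := ⟨[a0, a63, a106], [a69, a42, a66], (M a48 (F (T t304 (L l28 (L l76 (L l84 (T t579 (L l76 (L l84 (T t551 N))))))))))⟩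
def e0_63_106__69_42_40 : Ent 4 := ⟨[a0, a63, a106], [a69, a42, a67], (M a48 (F (T t309 (L l76 (L l84 (T t551 (L l28 (L l76 (L l84 (T t579 N))))))))))⟩
def e0_63_106__69_42_41 : Ent 4 := ⟨[a0, a63, a106], [a69, a42, a70], (M a48 (L l77 (F (T t309 (L l84 (T t551 (L l28 (L l84 (T t579 (K a68 (M a71 (F (T t578 (L l28 (L l80 (L l84 (T t579 (L l80 (L l84 (T t551 N)))))))))) (K a71 (M a68 (F (T t309 (T t1476 N)))) N)))))))))))⟩
def e0_63_106__69_42_42 : Ent 4 := ⟨[a0, a63, a106], [a69, a42, a71], (M a48 (L l77 (F (T t309 (L l84 (T t551 (L l28 (L l84 (T t579 (K a68 (M a70 (F (T t309 (L l80 (L l84 (T t551 (L l28 (L l80 (L l84 (T t579 N)))))))))) (K a70 (M a68 (F (T t309 (T t1476 N)))) N)))))))))))⟩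
def e0_63_106__69_42_43 : Ent 4 := ⟨[a0, a63, a106], [a69, a42, a74], (M a48 (L l84 (F (T t578 (L l28 (T t6462 (L l28 (L l318 (T t6463 (K a64 (M a79 (F (T t578 (L l123 (L l318 (T t6615 (T t6616 (L l28 (L l318 (T t6617 (L l28 (L l54 (L l318 (L l339 (T t6618 (L l54 (L l311 (L l339 (T t6458 N))))))))))))))))))) (K a79 (M a64 (F (T t394 (L l123 (L l151 (T t6464 N)))))) N)))))))))))⟩
def e0_63_106__69_42_44 : Ent 4 := ⟨[a0, a63, a106], [a69, a42, a75], (M a48 (F (T t309 (L l84 (T t551 (L l28 (L l84 (T t579 N))))))))⟩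
def e0_63_106__69_42_45 : Ent 4 := ⟨[a0, a63, a106], [a69, a42, a79], (M a48 (L l84 (F (T t309 (L l28 (T t6462 (L l28 (T t6463 (K a64 (M a74 (F (T t309 (L l311 (T t6556 (L l137 (L l151 (T t6619 N)))))))) (K a74 (M a64 (F (T t394 (L l123 (L l151 (T t6464 N)))))) N))))))))))⟩
def e0_63_106__69_42_46 : Ent 4 := ⟨[a0, a63, a106], [a69, a42, a80], (M a12 (F (T t2304 (L l84 (L l116 (T t2305 (L l56 (L l84 (L l116 (T t2415 N))))))))))⟩
def e0_63_106__69_42_47 : Ent 4 := ⟨[a0, a63, a106], [a69, a42, a81], (M a48 (F (T t309 (L l84 (L l120 (T t551 (L l28 (L l84 (L l120 (T t579 N))))))))))⟩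
def e0_63_106__69_42_48 : Ent 4 := ⟨[a0, a63, a106], [a69, a42, a82], (M a48 (F (T t309 (L l84 (L l453 (T t551 (L l28 (L l84 (T t579 N)))))))))⟩
def e0_63_106__69_42_49 : Ent 4 := ⟨[a0, a63, a106], [a69, a42, a83], (M a48 (F (T t309 (L l84 (T t551 (L l28 (L l84 (T t579 N))))))))⟩
def e0_63_106__69_42_50 : Ent 4 := ⟨[a0, a63, a106], [a69, a42, a85], (M a48 (L l123 (F (T t309 (L l84 (L l347 (T t551 (L l54 (L l311 (T t777 (L l368 (T t6465 (K a192 (M a56 (L l123 (F (T t6620 (L l350 (L l368 (T t1445 (L l236 (T t6621 (K a101 (M a117 (F (L l296 (L l491 (T t1537 (L l56 (L l334 (L l350 (L l494 (T t133 N)))))))))) (K a117 (M a101 (F (T t6622 (L l56 (L l334 (L l350 (L l422 (T t133 N)))))))) N))))))))))) (K a101 (M a117 (F (L l54 (L l455 (T t6623 (L l28 (L l347 (L l404 (L l491 (T t6462 (L l347 (L l491 (T t6624 (L l28 (L l84 (L l151 (T t6625 N))))))))))))))))) (K a117 (M a101 (F (T t6622 (L l54 (T t6626 N)))))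 N)))))))))))))))⟩
def e0_63_106__69_42_51 : Ent 4 := ⟨[a0, a63, a106], [a69, a42, a86], (M a48 (F (T t309 (L l84 (L l351 (T t551 (L l28 (L l84 (T t579 N)))))))))⟩
def e0_63_106__69_42_52 : Ent 4 := ⟨[a0, a63, a106], [a69, a42, a87], (M a48 (F (T t309 (L l84 (T t551 (L l28 (L l84 (L l367 (T t579 N)))))))))⟩
def e0_63_106__69_42_53 : Ent 4 := ⟨[a0, a63, a106], [a69, a42, a90], (M a48 (F (T t309 (L l84 (L l375 (L l483 (T t551 (L l28 (L l84 (T t579 N))))))))))⟩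
def e0_63_106__69_42_54 : Ent 4 := ⟨[a0, a63, a106], [a69, a42, a91], (M a48 (F (T t309 (L l84 (T t551 (L l28 (L l84 (T t579 N))))))))⟩
def e0_63_106__69_42_55 : Ent 4 := ⟨[a0, a63, a106], [a69, a42, a95], (M a48 (F (T t309 (L l84 (T t551 (L l28 (L l84 (L l361 (T t579 N)))))))))⟩
def e0_63_106__69_42_56 : Ent 4 := ⟨[a0, a63, a106], [a69, a42, a96], (M a12 (F (T t2414 (L l56 (L l84 (L l116 (T t2415 (L l84 (L l116 (T t2305 N))))))))))⟩
def e0_63_106__69_42_57 : Ent 4 := ⟨[a0, a63, a106], [a69, a42, a97], (M a48 (F (T t309 (L l84 (L l96 (T t551 (L l28 (L l84 (L l380 (T t579 N))))))))))⟩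
def e0_63_106__69_42_58 : Ent 4 := ⟨[a0, a63, a106], [a69, a42, a98], (M a48 (F (T t304 (L l28 (L l84 (L l120 (T t579 (L l84 (L l96 (L l120 (T t551 N)))))))))))⟩
def e0_63_106__69_42_59 : Ent 4 := ⟨[a0, a63, a106], [a69, a42, a99], (M a48 (F (T t309 (L l84 (L l96 (T t551 (L l28 (L l84 (T t579 N)))))))))⟩
def e0_63_106__69_42_60 : Ent 4 := ⟨[a0, a63, a106], [a69, a42, a101], (M a240 (L l123 (F (L l311 (T t4786 (L l491 (L l512 (T t817 (L l84 (L l404 (T t6482 (K a85 (M a117 (F (T t6627 (L l84 (L l383 (L l455 (T t6609 (L l347 (L l368 (L l491 (L l512 (T t817 N)))))))))))) (K a117 (M a85 (F (L l114 (T t5958 (L l440 (T t1384 N)))))) N)))))))))))))⟩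
def e0_63_106__69_42_61 : Ent 4 := ⟨[a0, a63, a106], [a69, a42, a102], (M a48 (F (T t309 (L l84 (L l495 (T t551 (L l28 (L l84 (T t579 N)))))))))⟩
def e0_63_106__69_42_62 : Ent 4 := ⟨[a0, a63, a106], [a69, a42, a103], (M a48 (F (T t309 (L l84 (T t551 (L l28 (L l84 (T t579 N))))))))⟩
def e0_63_106__69_42_63 : Ent 4 := ⟨[a0, a63, a106], [a69, a42, a107], (M a48 (F (T t309 (L l84 (T t551 (L l28 (L l84 (T t579 N))))))))⟩
def e0_63_106__69_42_64 : Ent 4 := ⟨[a0, a63, a106], [a69, a42, a111], (M a240 (F (L l311 (T t4786 (T t817 (L l84 (L l137 (T t6482 N))))))))⟩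
def e0_63_106__69_42_65 : Ent 4 := ⟨[a0, a63, a106], [a69, a42, a112], (M a48 (F (T t309 (L l28 (L l116 (T t6462 (L l28 (L l84 (L l116 (T t579 N))))))))))⟩
def e0_63_106__69_42_66 : Ent 4 := ⟨[a0, a63, a106], [a69, a42, a113], (M a48 (F (T t309 (L l84 (T t551 (L l28 (L l84 (T t579 N))))))))⟩
def e0_63_106__69_42_67 : Ent 4 := ⟨[a0, a63, a106], [a69, a42, a114], (M a48 (F (T t309 (L l84 (L l417 (T t551 (L l28 (L l84 (T t579 N)))))))))⟩
def e0_63_106__69_42_68 : Ent 4 := ⟨[a0, a63, a106], [a69, a42, a115], (M a48 (F (T t309 (L l84 (L l120 (T t551 (L l28 (L l84 (L l120 (T t579 N))))))))))⟩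
def e0_63_106__69_42_69 : Ent 4 := ⟨[a0, a63, a106], [a69, a42, a117], (M a48 (L l123 (F (T t578 (L l28 (L l84 (L l419 (T t579 (L l84 (T t551 (K a85 (M a101 (F (T t6622 (L l54 (T t6626 N))))) (K a101 (M a85 (F (L l114 (T t5958 (L l28 (L l404 (T t6628 N))))))) N))))))))))))⟩
def e0_63_106__69_42_70 : Ent 4 := ⟨[a0, a63, a106], [a69, a42, a118], (M a48 (F (T t309 (L l84 (T t551 (L l28 (L l84 (T t579 N))))))))⟩
def e0_63_106__69_42_71 : Ent 4 := ⟨[a0, a63, a106], [a69, a42, a119], (M a48 (F (T t309 (L l84 (T t551 (L l28 (L l84 (T t579 N))))))))⟩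
def e0_63_106__69_42_72 : Ent 4 := ⟨[a0, a63, a106], [a69, a42, a122], (M a48 (F (T t309 (L l84 (T t551 (L l28 (L l84 (T t579 N))))))))⟩
def e0_63_106__69_42_73 : Ent 4 := ⟨[a0, a63, a106], [a69, a42, a123], (M a48 (F (T t309 (L l84 (T t551 (L l28 (L l84 (T t579 N))))))))⟩
def e0_63_106__69_42_74 : Ent 4 := ⟨[a0, a63, a106], [a69, a42, a127], (M a240 (F (L l28 (T t815 (T t817 (L l84 (L l137 (T t6501 (L l84 (L l137 (T t6629 N)))))))))))⟩
def e0_63_106__69_42_75 : Ent 4 := ⟨[a0, a63, a106], [a69, a42, a128], (M a48 (F (T t304 (L l28 (L l84 (T t579 (L l123 (L l192 (L l220 (T t6613 (L l28 (L l54 (L l192 (L l220 (L l311 (T t6630 N))))))))))))))))⟩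
def e0_63_106__69_42_76 : Ent 4 := ⟨[a0, a63, a106], [a69, a42, a129], (M a48 (F (T t304 (L l28 (L l84 (T t579 (L l84 (L l217 (T t551 N)))))))))⟩
def e0_63_106__69_42_77 : Ent 4 := ⟨[a0, a63, a106], [a69, a42, a130], (M a48 (F (T t309 (L l84 (T t551 (L l28 (L l84 (T t579 N))))))))⟩
def e0_63_106__69_42_78 : Ent 4 := ⟨[a0, a63, a106], [a69, a42, a131], (M a48 (F (T t309 (L l84 (L l197 (T t551 (L l28 (L l84 (T t579 N)))))))))⟩
def e0_63_106__69_42_79 : Ent 4 := ⟨[a0, a63, a106], [a69, a42, a133], (M a48 (L l311 (F (T t304 (L l28 (L l84 (T t579 (L l84 (L l199 (T t551 (K a5 (M a197 (F (L l339 (T t6631 (L l199 (T t6632 (L l28 (L l47 (L l84 (T t579 N)))))))))) (K a197 (M a5 (F (L l54 (T t2053 (L l84 (L l199 (L l491 (T t551 (L l54 (L l84 (L l275 (T t6633 N)))))))))))) N))))))))))))⟩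
def e0_63_106__69_42_80 : Ent 4 := ⟨[a0, a63, a106], [a69, a42, a134], (M a48 (L l314 (F (T t309 (L l84 (T t551 (L l28 (L l84 (T t579 (K a4 (M a199 (F (T t578 (L l28 (L l84 (T t579 (L l84 (T t551 N)))))))) (K a199 (M a4 (F (T t309 (L l56 (T t518 N))))) N)))))))))))⟩
def e0_63_106__69_42_81 : Ent 4 := ⟨[a0, a63, a106], [a69, a42, a135], (M a48 (F (T t309 (L l84 (T t551 (L l28 (L l84 (T t579 N))))))))⟩
def e0_63_106__69_42_82 : Ent 4 := ⟨[a0, a63, a106], [a69, a42, a138], (M a48 (F (T t578 (L l28 (L l84 (L l318 (T t579 (L l84 (T t551 N)))))))))⟩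
def e0_63_106__69_42_83 : Ent 4 := ⟨[a0, a63, a106], [a69, a42, a139], (M a48 (F (T t309 (L l84 (T t551 (L l28 (L l84 (T t579 N))))))))⟩
def e0_63_106__69_42_84 : Ent 4 := ⟨[a0, a63, a106], [a69, a42, a143], (M a48 (F (T t309 (L l28 (T t6462 (L l28 (L l84 (T t579 N))))))))⟩
def e0_63_106__69_42_85 : Ent 4 := ⟨[a0, a63, a106], [a69, a42, a144], (M a12 (F (T t2414 (L l56 (L l84 (T t2415 (L l84 (L l170 (T t2305 N)))))))))⟩
def e0_63_106__69_42_86 : Ent 4 := ⟨[a0, a63, a106], [a69, a42, a145], (M a48 (F (T t304 (L l28 (L l84 (T t579 (L l84 (L l167 (T t551 N)))))))))⟩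
def e0_63_106__69_42_87 : Ent 4 := ⟨[a0, a63, a106], [a69, a42, a146], (M a48 (F (T t304 (L l28 (L l84 (T t579 (L l84 (L l197 (T t551 N)))))))))⟩
def e0_63_106__69_42_88 : Ent 4 := ⟨[a0, a63, a106], [a69, a42, a147], (M a48 (F (T t304 (L l28 (L l84 (T t579 (L l84 (T t551 N))))))))⟩
def e0_63_106__69_42_89 : Ent 4 := ⟨[a0, a63, a106], [a69, a42, a149], (M a204 (F (L l167 (L l220 (T t6634 (L l56 (L l77 (L l84 (L l167 (L l495 (T t6635 (L l77 (L l123 (L l167 (L l347 (T t6636 (L l56 (L l167 (L l220 (L l495 (T t6637 (K a145 (M a153 (F (T t6638 (L l56 (L l196 (L l220 (L l341 (L l495 (T t6639 (L l77 (L l196 (L l220 (T t6640 N))))))))))))) (K a153 (M a102 (L l167 (F (T t6641 (L l84 (L l208 (T t6642 (K a145 (Fr a157 a110 l507 (V t6642)) (K a157 (M a145 (F (L l84 (L l208 (T t6642 (L l365 (T t6643 (L l220 (T t6644 N))))))))) N))))))))) (K a157 (M a153 (F (T t6645 (T t6646 (L l56 (L l220 (L l495 (T t6639 (L l77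 (L l220 (T t6640 N))))))))))) (K a98 (M a170 (F (L l77 (T t6647 (L l123 (L l347 (L l371 (T t6648 N)))))))) (K a102 (M a12 (L l495 (F (L l84 (T t752 (L l167 (L l371 (L l402 (T t765 (L l56 (L l84 (L l371 (T t2415 (K a196 (M a55 (F (L l56 (L l347 (T t6649 (L l150 (L l220 (T t3459 N)))))))) (K a55 (M a196 (F (T t6650 (L l167 (L l371 (L l402 (T t765 N))))))) N))))))))))))))) (K a110 (M a48 (F (T t2046 (L l28 (L l84 (L l491 (T t579 (L l491 (L l495 (T t6651 N)))))))))) N)))))))))))))))))))))))))))⟩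
def e0_63_106__69_42_90 : Ent 4 := ⟨[a0, a63, a106], [a69, a42, a150], (M a48 (F (T t309 (L l84 (L l163 (T t551 (L l28 (L l84 (T t579 N)))))))))⟩
def e0_63_106__69_42_91 : Ent 4 := ⟨[a0, a63, a106], [a69, a42, a151], (M a48 (F (T t309 (L l84 (L l163 (T t551 (L l28 (L l84 (T t579 N)))))))))⟩
def e0_63_106__69_42_92 : Ent 4 := ⟨[a0, a63, a106], [a69, a42, a154], (M a240 (F (L l311 (T t4786 (L l170 (L l368 (L l512 (T t817 (L l84 (L l206 (T t6482 N)))))))))))⟩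
def e0_63_106__69_42_93 : Ent 4 := ⟨[a0, a63, a106], [a69, a42, a155], (M a48 (F (T t309 (L l84 (T t551 (L l28 (L l84 (L l367 (T t579 N)))))))))⟩
def e0_63_106__69_42_94 : Ent 4 := ⟨[a0, a63, a106], [a69, a42, a159], (M a240 (F (L l311 (T t4786 (L l170 (T t817 (L l84 (L l361 (T t6482 N)))))))))⟩
def e0_63_106__69_42_95 : Ent 4 := ⟨[a0, a63, a106], [a69, a42, a160], (M a12 (F (T t2304 (L l84 (T t2305 (L l56 (L l84 (T t2415 N))))))))⟩
def e0_63_106__69_42_96 : Ent 4 := ⟨[a0, a63, a106], [a69, a42, a161], (M a48 (F (T t309 (L l84 (L l197 (L l453 (T t551 (L l28 (L l84 (T t579 N))))))))))⟩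
def e0_63_106__69_42_97 : Ent 4 := ⟨[a0, a63, a106], [a69, a42, a162], (M a48 (F (T t309 (L l84 (T t551 (L l28 (L l84 (L l380 (T t579 N)))))))))⟩
def e0_63_106__69_42_98 : Ent 4 := ⟨[a0, a63, a106], [a69, a42, a163], (M a48 (F (T t309 (L l84 (T t551 (L l28 (L l84 (T t579 N))))))))⟩
def e0_63_106__69_42_99 : Ent 4 := ⟨[a0, a63, a106], [a69, a42, a165], (M a48 (F (T t309 (L l28 (L l199 (L l483 (T t6462 (L l28 (L l84 (T t579 N))))))))))⟩
def e0_63_106__69_42_100 : Ent 4 := ⟨[a0, a63, a106], [a69, a42, a166], (M a48 (F (T t309 (L l84 (L l202 (T t551 (L l28 (L l84 (T t579 N)))))))))⟩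
def e0_63_106__69_42_101 : Ent 4 := ⟨[a0, a63, a106], [a69, a42, a167], (M a48 (F (T t309 (L l84 (T t551 (L l28 (L l84 (T t579 N))))))))⟩
def e0_63_106__69_42_102 : Ent 4 := ⟨[a0, a63, a106], [a69, a42, a170], (M a12 (F (T t2304 (L l84 (L l220 (T t2305 (L l56 (L l84 (L l178 (L l220 (L l464 (T t6652 (L l56 (L l178 (L l464 (T t6653 N))))))))))))))))⟩
def e0_63_106__69_42_103 : Ent 4 := ⟨[a0, a63, a106], [a69, a42, a171], (M a48 (F (T t309 (L l84 (T t551 (L l28 (L l84 (T t579 N))))))))⟩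
def e0_63_106__69_42_104 : Ent 4 := ⟨[a0, a63, a106], [a69, a42, a175], (M a48 (F (T t309 (L l84 (T t551 (L l28 (L l84 (T t579 N))))))))⟩
def e0_63_106__69_42_105 : Ent 4 := ⟨[a0, a63, a106], [a69, a42, a176], (M a240 (F (L l311 (T t4786 (L l192 (T t817 (L l84 (L l190 (L l192 (T t6482 N))))))))))⟩
def e0_63_106__69_42_106 : Ent 4 := ⟨[a0, a63, a106], [a69, a42, a177], (M a48 (F (T t309 (L l84 (L l182 (L l417 (T t551 (L l28 (L l84 (T t579 N))))))))))⟩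
def e0_63_106__69_42_107 : Ent 4 := ⟨[a0, a63, a106], [a69, a42, a178], (M a48 (F (T t309 (L l84 (L l182 (T t551 (L l28 (L l84 (T t579 N)))))))))⟩
def e0_63_106__69_42_108 : Ent 4 := ⟨[a0, a63, a106], [a69, a42, a179], (M a48 (F (T t309 (L l84 (L l182 (T t551 (L l28 (L l84 (T t579 N)))))))))⟩
def e0_63_106__69_42_109 : Ent 4 := ⟨[a0, a63, a106], [a69, a42, a181], (M a48 (F (L l419 (T t309 (L l84 (L l190 (L l199 (T t551 (L l28 (L l84 (L l419 (T t579 N))))))))))))⟩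
def e0_63_106__69_42_110 : Ent 4 := ⟨[a0, a63, a106], [a69, a42, a182], (M a48 (F (T t309 (L l84 (T t551 (L l28 (L l84 (T t579 N))))))))⟩
def e0_63_106__69_42_111 : Ent 4 := ⟨[a0, a63, a106], [a69, a42, a183], (M a48 (F (T t309 (L l84 (L l202 (T t551 (L l28 (L l84 (T t579 N)))))))))⟩
def e0_63_106__69_42_112 : Ent 4 := ⟨[a0, a63, a106], [a69, a42, a186], (M a48 (F (T t309 (L l84 (L l190 (T t551 (L l28 (L l84 (T t579 N)))))))))⟩
def e0_63_106__69_42_113 : Ent 4 := ⟨[a0, a63, a106], [a69, a42, a187], (M a48 (F (T t309 (L l84 (T t551 (L l28 (L l84 (T t579 N))))))))⟩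
def e0_63_106__69_42_114 : Ent 4 := ⟨[a0, a63, a106], [a69, a42, a191], (M a240 (F (L l311 (T t4786 (L l220 (T t817 (L l84 (L l190 (T t6501 (L l84 (L l190 (L l311 (T t6654 N)))))))))))))⟩
def e0_63_106__69_42_115 : Ent 4 := ⟨[a0, a63, a106], [a69, a42, a192], (M a204 (F (L l84 (L l489 (T t6655 (L l272 (L l489 (T t6656 (L l296 (L l489 (T t6657 (L l56 (L l489 (T t6658 (L l84 (L l489 (T t6659 (K a145 (M a102 (L l489 (F (T t6641 (T t6660 (K a98 (Fr a51 a153 l513 (V t6661)) (K a51 (Fr a98 a110 l102 (V t6662)) N))))))) (K a85 (M a101 (F (L l484 (T t6663 (L l489 (T t6664 (L l66 (L l329 (L l484 (T t6665 (L l484 (L l489 (T t6666 (L l365 (L l489 (T t6667 N)))))))))))))))) (K a157 (M a48 (F (T t5482 (L l28 (L l84 (L l236 (T t579 (L l236 (T t6651 N))))))))) (K a98 (M a153 (L l489 (F (T t6645 (L l77 (L l296 (T t6668 (L l26 (L l84 (L l120 (L l378 (T t6669 (K a145 (Fr a51 a102 l513 (V t6670)) (K a51 (M a145 (F (T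 t6671 (L l56 (L l77 (L l272 (L l314 (L l334 (L l378 (T t6672 N)))))))))) N)))))))))))))) (K a102 (M a252 (F (L l484 (T t6673 (L l148 (L l339 (T t6674 (L l84 (L l309 (T t6675 N)))))))))) (K a110 (M a48 (F (T t6676 (L l28 (L l84 (L l236 (T t579 (L l236 (T t6651 N))))))))) (K a51 (M a48 (L l489 (F (T t5482 (L l123 (L l236 (L l329 (T t6677 (K a145 (M a98 (F (T t6678 (L l292 (L l441 (T t1315 N)))))) (K a98 (M a145 (F (T t5482 (L l28 (L l84 (L l120 (L l236 (T t579 (L l511 (T t6679 N)))))))))) N)))))))))) N))))))))))))))))))))))))⟩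
def e0_63_106__69_42_116 : Ent 4 := ⟨[a0, a63, a106], [a69, a42, a193], (M a48 (F (T t304 (L l28 (L l84 (T t579 (L l84 (L l515 (T t551 N)))))))))⟩
def e0_63_106__69_42_117 : Ent 4 := ⟨[a0, a63, a106], [a69, a42, a194], (M a48 (F (T t578 (L l28 (L l84 (L l234 (T t579 (L l84 (T t551 N)))))))))⟩
def e0_63_106__69_42_118 : Ent 4 := ⟨[a0, a63, a106], [a69, a42, a195], (M a48 (F (T t5173 (L l28 (L l84 (T t579 (L l84 (L l273 (T t551 N)))))))))⟩
def e0_63_106__69_42_119 : Ent 4 := ⟨[a0, a63, a106], [a69, a42, a197], (M a240 (L l311 (F (L l84 (L l236 (T t4779 (L l491 (T t817 (L l84 (T t6482 (L l28 (L l491 (T t815 (K a5 (M a133 (F (T t6680 (L l84 (L l491 (T t4780 (L l84 (T t6482 N)))))))) (K a133 (M a5 (F (L l54 (T t6681 (L l28 (L l199 (L l339 (L l491 (T t815 (L l84 (L l199 (L l491 (T t4780 (K a165 (Fr a15 a10 l8 (Fr a149 a192 l519 (V t6682))) N)))))))))))))) N)))))))))))))))⟩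
def e0_63_106__69_42_120 : Ent 4 := ⟨[a0, a63, a106], [a69, a42, a198], (M a48 (F (T t578 (L l28 (L l84 (L l234 (T t579 (L l84 (T t551 N)))))))))⟩
def e0_63_106__69_42_121 : Ent 4 := ⟨[a0, a63, a106], [a69, a42, a199], (M a48 (L l314 (F (T t309 (L l84 (T t551 (L l28 (L l84 (T t579 (K a4 (M a134 (F (T t309 (L l84 (T t551 (L l28 (L l84 (T t579 N)))))))) (K a134 (M a4 (F (T t309 (L l56 (T t518 N))))) N)))))))))))⟩
def e0_63_106__69_42_122 : Ent 4 := ⟨[a0, a63, a106], [a69, a42, a202], (M a240 (F (L l28 (T t815 (T t6588 (L l84 (L l318 (T t6482 N))))))))⟩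
def e0_63_106__69_42_123 : Ent 4 := ⟨[a0, a63, a106], [a69, a42, a203], (M a48 (F (T t2348 (L l28 (L l84 (L l230 (T t579 (L l84 (T t551 N)))))))))⟩
def e0_63_106__69_42_124 : Ent 4 := ⟨[a0, a63, a106], [a69, a42, a207], (M a240 (F (L l236 (L l311 (T t4786 (L l512 (T t817 (L l84 (T t6482 N)))))))))⟩
def e0_63_106__69_42_125 : Ent 4 := ⟨[a0, a63, a106], [a69, a42, a208], (M a12 (F (T t2419 (L l84 (L l375 (T t2305 (L l56 (L l84 (T t2415 N)))))))))⟩
def e0_63_106__69_42_126 : Ent 4 := ⟨[a0, a63, a106], [a69, a42, a209], (M a48 (F (T t304 (L l28 (L l84 (T t579 (L l84 (L l371 (T t551 N)))))))))⟩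
def e0_63_106__69_42_127 : Ent 4 := ⟨[a0, a63, a106], [a69, a42, a210], (M a48 (F (T t309 (L l84 (L l273 (T t551 (L l28 (L l84 (T t579 N)))))))))⟩
def e0_63_106__69_42_128 : Ent 4 := ⟨[a0, a63, a106], [a69, a42, a211], (M a48 (F (T t309 (L l84 (T t551 (L l28 (L l84 (L l245 (T t579 N)))))))))⟩
def e0_63_106__69_42_129 : Ent 4 := ⟨[a0, a63, a106], [a69, a42, a213], (M a48 (F (T t304 (L l28 (L l84 (L l246 (T t579 (L l84 (L l347 (T t551 N))))))))))⟩
def e0_63_106__69_42_130 : Ent 4 := ⟨[a0, a63, a106], [a69, a42, a214], (M a48 (F (T t309 (L l84 (T t551 (L l28 (L l84 (T t579 N))))))))⟩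
def e0_63_106__69_42_131 : Ent 4 := ⟨[a0, a63, a106], [a69, a42, a215], (M a48 (F (T t309 (L l84 (T t551 (L l28 (L l84 (L l245 (T t579 N)))))))))⟩
def e0_63_106__69_42_132 : Ent 4 := ⟨[a0, a63, a106], [a69, a42, a218], (M a48 (F (T t2348 (L l28 (L l84 (L l246 (L l282 (T t579 (L l84 (L l303 (T t551 N)))))))))))⟩
def e0_63_106__69_42_133 : Ent 4 := ⟨[a0, a63, a106], [a69, a42, a219], (M a48 (F (T t309 (L l84 (T t551 (L l28 (L l84 (L l245 (T t579 N)))))))))⟩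
def e0_63_106__69_42_134 : Ent 4 := ⟨[a0, a63, a106], [a69, a42, a223], (M a240 (F (L l311 (T t4786 (L l368 (T t817 (L l84 (L l361 (T t6482 N)))))))))⟩
def e0_63_106__69_42_135 : Ent 4 := ⟨[a0, a63, a106], [a69, a42, a224], (M a48 (F (L l268 (T t309 (L l28 (L l84 (L l376 (T t579 (L l84 (L l268 (L l376 (T t551 N))))))))))))⟩
def e0_63_106__69_42_136 : Ent 4 := ⟨[a0, a63, a106], [a69, a42, a225], (M a48 (F (T t309 (L l84 (L l273 (T t551 (L l28 (L l84 (T t579 N)))))))))⟩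
def e0_63_106__69_42_137 : Ent 4 := ⟨[a0, a63, a106], [a69, a42, a226], (M a48 (F (T t304 (L l28 (L l84 (T t579 (L l84 (T t551 N))))))))⟩
def e0_63_106__69_42_138 : Ent 4 := ⟨[a0, a63, a106], [a69, a42, a227], (M a48 (F (T t309 (L l84 (T t551 (L l28 (L l84 (L l380 (T t579 N)))))))))⟩
def e0_63_106__69_42_139 : Ent 4 := ⟨[a0, a63, a106], [a69, a42, a229], (M a48 (F (T t309 (L l28 (L l84 (T t2289 (L l28 (L l84 (T t579 N)))))))))⟩
def e0_63_106__69_42_140 : Ent 4 := ⟨[a0, a63, a106], [a69, a42, a230], (M a48 (F (T t309 (L l84 (T t551 (L l28 (L l84 (T t579 N))))))))⟩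
def e0_63_106__69_42_141 : Ent 4 := ⟨[a0, a63, a106], [a69, a42, a231], (M a48 (F (T t309 (L l84 (T t551 (L l28 (L l84 (T t579 N))))))))⟩
def e0_63_106__69_42_142 : Ent 4 := ⟨[a0, a63, a106], [a69, a42, a234], (M a48 (F (T t578 (L l28 (L l84 (L l282 (T t579 (L l84 (T t551 N)))))))))⟩
def e0_63_106__69_42_143 : Ent 4 := ⟨[a0, a63, a106], [a69, a42, a235], (M a48 (F (T t309 (L l84 (T t551 (L l28 (L l84 (T t579 N))))))))⟩
def e0_63_106__69_42_144 : Ent 4 := ⟨[a0, a63, a106], [a69, a42, a239], (M a48 (F (T t309 (L l84 (T t551 (L l28 (L l84 (L l289 (L l404 (T t579 N))))))))))⟩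
def e0_63_106__69_42_145 : Ent 4 := ⟨[a0, a63, a106], [a69, a42, a240], (M a12 (F (T t2419 (L l84 (L l298 (T t2305 (L l56 (L l84 (T t2415 N)))))))))⟩
def e0_63_106__69_42_146 : Ent 4 := ⟨[a0, a63, a106], [a69, a42, a241], (M a48 (F (T t309 (L l84 (L l258 (T t551 (L l28 (L l84 (T t579 N)))))))))⟩
def e0_63_106__69_42_147 : Ent 4 := ⟨[a0, a63, a106], [a69, a42, a242], (M a48 (F (T t309 (L l84 (L l258 (T t551 (L l28 (L l84 (T t579 N)))))))))⟩
def e0_63_106__69_42_148 : Ent 4 := ⟨[a0, a63, a106], [a69, a42, a243], (M a48 (F (T t5173 (L l28 (L l84 (T t579 (L l84 (L l258 (T t551 N)))))))))⟩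
def e0_63_106__69_42_149 : Ent 4 := ⟨[a0, a63, a106], [a69, a42, a245], (M a48 (F (T t578 (L l28 (L l84 (L l419 (T t579 (L l84 (L l266 (T t551 N))))))))))⟩
def e0_63_106__69_42_150 : Ent 4 := ⟨[a0, a63, a106], [a69, a42, a246], (M a48 (F (T t309 (L l84 (T t551 (L l28 (L l84 (T t579 N))))))))⟩
def e0_63_106__69_42_151 : Ent 4 := ⟨[a0, a63, a106], [a69, a42, a247], (M a48 (F (T t309 (L l84 (T t551 (L l28 (L l84 (T t579 N))))))))⟩
def e0_63_106__69_42_152 : Ent 4 := ⟨[a0, a63, a106], [a69, a42, a250], (M a48 (F (T t578 (L l28 (L l84 (L l282 (T t579 (L l84 (L l266 (T t551 N))))))))))⟩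
def e0_63_106__69_42_153 : Ent 4 := ⟨[a0, a63, a106], [a69, a42, a251], (M a48 (F (T t309 (L l84 (T t551 (L l28 (L l84 (T t579 N))))))))⟩
def e0_63_106__69_42_154 : Ent 4 := ⟨[a0, a63, a106], [a69, a42, a255], (M a240 (F (L l28 (T t6683 (L l440 (T t6588 (L l84 (L l311 (L l440 (T t6500 (L l28 (L l84 (L l469 (T t6684 N))))))))))))))⟩
def b0_63_106__69_42 : Blk 4 := ⟨[0, 63, 106], [69, 42], [1, 2, 3, 5, 6, 7, 10, 11, 15, 16, 17, 18, 19, 21, 22, 23, 26, 27, 31, 32, 33, 34, 35, 37, 38, 39, 43, 47, 48, 49, 50, 51, 53, 54, 55, 58, 59, 64, 65, 66, 67, 70, 71, 74, 75, 79, 80, 81, 82, 83, 85, 86, 87, 90, 91, 95, 96, 97, 98, 99, 101, 102, 103, 107, 111, 112, 113, 114, 115, 117, 118, 119, 122, 123, 127, 128, 129, 130, 131, 133, 134, 135, 138, 139, 143, 144, 145, 146, 147, 149, 150, 151, 154, 155, 159, 160, 161, 162, 163, 165, 166, 167, 170, 171, 175, 176, 177, 178, 179, 181, 182, 183, 186, 187, 191, 192, 193,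 194, 195, 197, 198, 199, 202, 203, 207, 208, 209, 210, 211, 213, 214, 215, 218, 219, 223, 224, 225, 226, 227, 229, 230, 231, 234, 235, 239, 240, 241, 242, 243, 245, 246, 247, 250, 251, 255], [e0_63_106__69_42_0, e0_63_106__69_42_1, e0_63_106__69_42_2, e0_63_106__69_42_3, e0_63_106__69_42_4, e0_63_106__69_42_5, e0_63_106__69_42_6, e0_63_106__69_42_7, e0_63_106__69_42_8, e0_63_106__69_42_9, e0_63_106__69_42_10, e0_63_106__69_42_11, e0_63_106__69_42_12, e0_63_106__69_42_13, e0_63_106__69_42_14, e0_63_106__69_42_15, e0_63_106__69_42_16, e0_63_106__69_42_17, e0_63_106__69_42_18, e0_63_106__69_42_19, e0_63_106__69_42_20, e0_63_106__69_42_21, e0_63_106__69_42_22, e0_63_106__69_42_23, e0_63_106__69_42_24, e0_63_106__69_42_25, e0_63_106__69_42_26, e0_63_106__69_42_27, e0_63_106__69_42_28, e0_63_106__69_42_29, e0_63_106__69_42_30, e0_63_106__69_42_31, e0_63_106__69_42_32, e0_63_106__69_42_33, e0_63_106__69_42_34,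 e0_63_106__69_42_35, e0_63_106__69_42_36, e0_63_106__69_42_37, e0_63_106__69_42_38, e0_63_106__69_42_39, e0_63_106__69_42_40, e0_63_106__69_42_41, e0_63_106__69_42_42, e0_63_106__69_42_43, e0_63_106__69_42_44, e0_63_106__69_42_45, e0_63_106__69_42_46, e0_63_106__69_42_47, e0_63_106__69_42_48, e0_63_106__69_42_49, e0_63_106__69_42_50, e0_63_106__69_42_51, e0_63_106__69_42_52, e0_63_106__69_42_53, e0_63_106__69_42_54, e0_63_106__69_42_55, e0_63_106__69_42_56, e0_63_106__69_42_57, e0_63_106__69_42_58, e0_63_106__69_42_59, e0_63_106__69_42_60, e0_63_106__69_42_61, e0_63_106__69_42_62, e0_63_106__69_42_63, e0_63_106__69_42_64, e0_63_106__69_42_65, e0_63_106__69_42_66, e0_63_106__69_42_67, e0_63_106__69_42_68, e0_63_106__69_42_69, e0_63_106__69_42_70, e0_63_106__69_42_71, e0_63_106__69_42_72, e0_63_106__69_42_73, e0_63_106__69_42_74, e0_63_106__69_42_75, e0_63_106__69_42_76, e0_63_106__69_42_77, e0_63_106__69_42_78,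 e0_63_106__69_42_79, e0_63_106__69_42_80, e0_63_106__69_42_81, e0_63_106__69_42_82, e0_63_106__69_42_83, e0_63_106__69_42_84, e0_63_106__69_42_85, e0_63_106__69_42_86, e0_63_106__69_42_87, e0_63_106__69_42_88, e0_63_106__69_42_89, e0_63_106__69_42_90, e0_63_106__69_42_91, e0_63_106__69_42_92, e0_63_106__69_42_93, e0_63_106__69_42_94, e0_63_106__69_42_95, e0_63_106__69_42_96, e0_63_106__69_42_97, e0_63_106__69_42_98, e0_63_106__69_42_99, e0_63_106__69_42_100, e0_63_106__69_42_101, e0_63_106__69_42_102, e0_63_106__69_42_103, e0_63_106__69_42_104, e0_63_106__69_42_105, e0_63_106__69_42_106, e0_63_106__69_42_107, e0_63_106__69_42_108, e0_63_106__69_42_109, e0_63_106__69_42_110, e0_63_106__69_42_111, e0_63_106__69_42_112, e0_63_106__69_42_113, e0_63_106__69_42_114, e0_63_106__69_42_115, e0_63_106__69_42_116, e0_63_106__69_42_117, e0_63_106__69_42_118, e0_63_106__69_42_119, e0_63_106__69_42_120, e0_63_106__69_42_121,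 e0_63_106__69_42_122, e0_63_106__69_42_123, e0_63_106__69_42_124, e0_63_106__69_42_125, e0_63_106__69_42_126, e0_63_106__69_42_127, e0_63_106__69_42_128, e0_63_106__69_42_129, e0_63_106__69_42_130, e0_63_106__69_42_131, e0_63_106__69_42_132, e0_63_106__69_42_133, e0_63_106__69_42_134, e0_63_106__69_42_135, e0_63_106__69_42_136, e0_63_106__69_42_137, e0_63_106__69_42_138, e0_63_106__69_42_139, e0_63_106__69_42_140, e0_63_106__69_42_141, e0_63_106__69_42_142, e0_63_106__69_42_143, e0_63_106__69_42_144, e0_63_106__69_42_145, e0_63_106__69_42_146, e0_63_106__69_42_147, e0_63_106__69_42_148, e0_63_106__69_42_149, e0_63_106__69_42_150, e0_63_106__69_42_151, e0_63_106__69_42_152, e0_63_106__69_42_153, e0_63_106__69_42_154], by decide +kernel, by decide +kernel⟩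
def e0_63_106__70_42_0 : Ent 4 := ⟨[a0, a63, a106], [a70, a42, a1], (M a48 (F (T t309 (T t551 (L l28 (T t579 N))))))⟩
def e0_63_106__70_42_1 : Ent 4 := ⟨[a0, a63, a106], [a70, a42, a2], (M a60 (L l66 (L l330 (F (T t1514 (L l22 (L l306 (T t2369 (T t565 (K a22 (Fr a62 a61 l33 (V t6685)) (K a138 (M a206 (L l66 (F (T t1514 (L l22 (L l306 (T t2369 (T t565 (K a22 (Fr a62 a61 l33 (V t6685)) (K a62 (M a22 (F (L l22 (T t881 (T t565 (L l22 (L l432 (T t6686 (K a40 (Fr a192 a149 l519 (Fr a3 a41 l69 (Fr a43 a23 l67 (V t6738)))) N))))))))) N)))))))))) (K a206 (M a138 (L l66 (F (T t565 (L l77 (L l231 (L l333 (L l504 (T t6688 (K a22 (Fr a62 a61 l33 (V t6685)) (K a62 (M a22 (L l504 (F (L l22 (T t881 (L l82 (L l231 (T t6689 (K a158 (M a110 (F (L l22 (T t881 (L l56 (L l165 (T t6690 N))))))) (K a110 (M a158 (F (T t6691 (L l22 (T t881 N))))) N)))))))))) N))))))))))) (K a62 (M a22 (L l330 (F (L l22 (T t881 (T t565 (L l22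 (L l432 (T t6692 (K a40 (Fr a192 a149 l519 (Fr a3 a41 l69 (Fr a43 a23 l67 (V t6738)))) (K a138 (M a206 (F (L l22 (T t881 (T t565 (L l22 (L l432 (T t6686 (K a40 (Fr a192 a149 l519 (Fr a3 a41 l69 (Fr a43 a23 l67 (V t6738)))) N))))))))) (K a206 (M a138 (L l504 (F (L l22 (T t881 (L l82 (L l231 (T t6689 (K a158 (M a110 (F (L l22 (T t881 (L l56 (L l165 (T t6690 N))))))) (K a110 (M a158 (F (T t6691 (L l22 (T t881 N))))) N)))))))))) N)))))))))))) N)))))))))))))⟩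
def e0_63_106__70_42_2 : Ent 4 := ⟨[a0, a63, a106], [a70, a42, a3], (M a204 (F (L l56 (T t6693 (L l9 (L l85 (T t6694 (T t6655 N))))))))⟩
def e0_63_106__70_42_3 : Ent 4 := ⟨[a0, a63, a106], [a70, a42, a4], (M a48 (F (T t309 (T t551 (L l28 (T t579 N))))))⟩
def e0_63_106__70_42_4 : Ent 4 := ⟨[a0, a63, a106], [a70, a42, a5], (M a48 (F (T t578 (L l28 (L l47 (T t579 (T t551 N)))))))⟩
def e0_63_106__70_42_5 : Ent 4 := ⟨[a0, a63, a106], [a70, a42, a6], (M a48 (L l312 (F (T t309 (T t551 (L l28 (T t579 (K a134 (M a198 (F (T t578 (L l28 (T t579 (T t551 N)))))) (K a198 (M a134 (F (T t578 (L l28 (L l234 (T t579 (T t551 N))))))) N)))))))))⟩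
def e0_63_106__70_42_6 : Ent 4 := ⟨[a0, a63, a106], [a70, a42, a7], (M a48 (L l315 (F (T t309 (T t551 (L l28 (T t579 (K a196 (M a133 (F (T t585 (L l495 (T t551 (L l28 (T t579 N))))))) (K a133 (M a196 (F (T t304 (L l1 (L l199 (T t6695 (L l28 (T t579 N)))))))) N)))))))))⟩
def e0_63_106__70_42_7 : Ent 4 := ⟨[a0, a63, a106], [a70, a42, a8], (M a48 (L l56 (F (T t309 (T t551 (L l28 (T t579 (K a25 (M a59 (F (T t585 (L l26 (L l316 (T t6445 N)))))) (K a59 (M a25 (F (T t578 (L l28 (T t579 (T t551 N)))))) N)))))))))⟩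
def e0_63_106__70_42_8 : Ent 4 := ⟨[a0, a63, a106], [a70, a42, a9], (M a48 (F (T t309 (T t551 (L l28 (T t579 N))))))⟩
def e0_63_106__70_42_9 : Ent 4 := ⟨[a0, a63, a106], [a70, a42, a10], (M a48 (L l54 (F (T t578 (L l28 (L l318 (T t579 (T t551 (K a26 (Fr a58 a53 l38 (V t6446)) (K a58 (M a26 (F (L l28 (T t4144 (T t551 (L l28 (L l426 (T t6447 (K a32 (Fr a192 a149 l519 (Fr a15 a37 l75 (Fr a47 a31 l61 (V t6528)))) N))))))))) N))))))))))⟩
def e0_63_106__70_42_10 : Ent 4 := ⟨[a0, a63, a106], [a70, a42, a11], (M a48 (F (T t309 (T t551 (L l28 (T t579 N))))))⟩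
def e0_63_106__70_42_11 : Ent 4 := ⟨[a0, a63, a106], [a70, a42, a12], (M a48 (F (T t585 (L l478 (T t551 (L l28 (T t579 N)))))))⟩
def e0_63_106__70_42_12 : Ent 4 := ⟨[a0, a63, a106], [a70, a42, a13], (M a48 (F (T t309 (T t551 (L l28 (T t579 N))))))⟩
def e0_63_106__70_42_13 : Ent 4 := ⟨[a0, a63, a106], [a70, a42, a14], (M a48 (F (T t309 (T t551 (L l28 (T t579 N))))))⟩
def e0_63_106__70_42_14 : Ent 4 := ⟨[a0, a63, a106], [a70, a42, a15], (M a48 (F (T t585 (L l483 (T t551 (L l28 (T t579 N)))))))⟩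
def e0_63_106__70_42_15 : Ent 4 := ⟨[a0, a63, a106], [a70, a42, a16], (M a240 (F (L l315 (T t4786 (L l340 (T t4780 (L l82 (T t4781 N))))))))⟩
def e0_63_106__70_42_16 : Ent 4 := ⟨[a0, a63, a106], [a70, a42, a17], (M a48 (F (T t309 (T t551 (L l28 (T t579 N))))))⟩
def e0_63_106__70_42_17 : Ent 4 := ⟨[a0, a63, a106], [a70, a42, a18], (M a48 (F (T t309 (T t551 (L l28 (T t579 N))))))⟩
def e0_63_106__70_42_18 : Ent 4 := ⟨[a0, a63, a106], [a70, a42, a19], (M a48 (F (T t309 (T t551 (L l28 (L l367 (T t579 N)))))))⟩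
def e0_63_106__70_42_19 : Ent 4 := ⟨[a0, a63, a106], [a70, a42, a20], (M a48 (F (T t309 (T t551 (L l28 (T t579 N))))))⟩
def e0_63_106__70_42_20 : Ent 4 := ⟨[a0, a63, a106], [a70, a42, a21], (M a48 (F (L l47 (T t309 (L l347 (T t551 (L l28 (L l47 (T t579 N)))))))))⟩
def e0_63_106__70_42_21 : Ent 4 := ⟨[a0, a63, a106], [a70, a42, a22], (M a48 (L l66 (F (T t309 (T t551 (L l28 (T t579 (K a2 (M a62 (L l330 (F (T t307 (L l22 (L l306 (T t5926 (K a138 (M a206 (F (T t578 (L l22 (L l306 (T t5926 N)))))) (K a206 (M a138 (F (T t6696 (L l77 (T t6697 N))))) N))))))))) (K a62 (M a2 (F (T t307 (L l19 (L l28 (T t342 N)))))) N)))))))))⟩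
def e0_63_106__70_42_22 : Ent 4 := ⟨[a0, a63, a106], [a70, a42, a23], (M a48 (F (T t309 (L l351 (T t551 (L l28 (T t579 N)))))))⟩
def e0_63_106__70_42_23 : Ent 4 := ⟨[a0, a63, a106], [a70, a42, a24], (M a48 (F (T t309 (T t551 (L l28 (T t579 N))))))⟩
def e0_63_106__70_42_24 : Ent 4 := ⟨[a0, a63, a106], [a70, a42, a25], (M a48 (L l56 (F (T t309 (T t551 (L l28 (T t579 (K a8 (M a59 (F (T t585 (L l26 (L l316 (T t6445 N)))))) (K a59 (M a8 (F (T t307 (L l19 (L l28 (T t4700 N)))))) N)))))))))⟩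
def e0_63_106__70_42_25 : Ent 4 := ⟨[a0, a63, a106], [a70, a42, a26], (M a48 (L l54 (F (T t309 (L l28 (T t579 (T t551 (K a10 (Fr a58 a53 l38 (V t6446)) (K a58 (M a10 (F (L l28 (T t2289 (L l315 (T t4033 (L l18 (L l354 (T t6449 (L l18 (L l426 (T t6450 N)))))))))))) N)))))))))⟩
def e0_63_106__70_42_26 : Ent 4 := ⟨[a0, a63, a106], [a70, a42, a27], (M a48 (F (T t309 (T t551 (L l28 (T t579 N))))))⟩
def e0_63_106__70_42_27 : Ent 4 := ⟨[a0, a63, a106], [a70, a42, a28], (M a48 (F (T t309 (T t551 (L l28 (L l362 (T t579 N)))))))⟩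
def e0_63_106__70_42_28 : Ent 4 := ⟨[a0, a63, a106], [a70, a42, a29], (M a48 (F (T t309 (L l371 (T t551 (L l28 (T t579 N)))))))⟩
def e0_63_106__70_42_29 : Ent 4 := ⟨[a0, a63, a106], [a70, a42, a30], (M a48 (F (T t309 (T t551 (L l28 (T t579 N))))))⟩
def e0_63_106__70_42_30 : Ent 4 := ⟨[a0, a63, a106], [a70, a42, a31], (M a48 (F (T t309 (L l375 (T t551 (L l28 (L l361 (T t579 N))))))))⟩
def e0_63_106__70_42_31 : Ent 4 := ⟨[a0, a63, a106], [a70, a42, a32], (M a240 (L l28 (F (L l82 (T t6609 (L l376 (T t6588 (L l82 (L l376 (T t4781 (K a37 (M a47 (F (T t6602 (T t6698 (T t6604 N))))) (K a47 (M a37 (F (L l376 (T t6588 (L l54 (L l82 (T t6699 (L l82 (L l376 (T t4781 N)))))))))) N))))))))))))⟩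
def e0_63_106__70_42_32 : Ent 4 := ⟨[a0, a63, a106], [a70, a42, a33], (M a48 (F (T t309 (T t551 (L l20 (L l28 (T t579 N)))))))⟩
def e0_63_106__70_42_33 : Ent 4 := ⟨[a0, a63, a106], [a70, a42, a34], (M a48 (L l26 (F (T t309 (T t551 (L l20 (L l28 (T t579 (K a38 (M a46 (F (T t307 (L l56 (L l378 (T t4030 N)))))) (K a46 (M a38 (F (T t578 (L l20 (L l28 (T t579 (T t551 N))))))) N))))))))))⟩
def e0_63_106__70_42_34 : Ent 4 := ⟨[a0, a63, a106], [a70, a42, a35], (M a48 (F (T t309 (T t551 (L l20 (L l28 (T t579 N)))))))⟩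
def e0_63_106__70_42_35 : Ent 4 := ⟨[a0, a63, a106], [a70, a42, a36], (M a48 (F (T t309 (T t551 (L l24 (L l28 (T t579 N)))))))⟩
def e0_63_106__70_42_36 : Ent 4 := ⟨[a0, a63, a106], [a70, a42, a37], (M a240 (L l28 (F (L l315 (T t4786 (T t6606 (L l82 (T t4781 (K a32 (M a47 (F (T t6602 (T t6698 (T t6604 N))))) (K a47 (M a32 (F (T t6607 (L l82 (T t4781 (L l54 (T t6608 N))))))) N))))))))))⟩
def e0_63_106__70_42_37 : Ent 4 := ⟨[a0, a63, a106], [a70, a42, a38], (M a48 (L l26 (F (T t309 (T t551 (L l28 (T t579 (K a34 (M a46 (F (T t307 (L l56 (L l378 (T t4030 N)))))) (K a46 (M a34 (F (T t309 (L l29 (L l66 (L l330 (L l333 (T t6453 N)))))))) N)))))))))⟩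
def e0_63_106__70_42_38 : Ent 4 := ⟨[a0, a63, a106], [a70, a42, a39], (M a48 (F (T t309 (T t551 (L l28 (T t579 N))))))⟩
def e0_63_106__70_42_39 : Ent 4 := ⟨[a0, a63, a106], [a70, a42, a40], (M a48 (L l22 (F (T t309 (T t551 (L l24 (L l28 (T t579 (K a41 (M a43 (F (T t307 (L l66 (L l330 (L l388 (T t6451 N))))))) (K a43 (M a41 (F (T t578 (L l24 (L l28 (T t579 (T t551 N))))))) N))))))))))⟩
def e0_63_106__70_42_40 : Ent 4 := ⟨[a0, a63, a106], [a70, a42, a41], (M a48 (L l22 (F (T t309 (T t551 (L l28 (T t579 (K a40 (M a43 (F (T t307 (L l66 (L l330 (L l388 (T t6451 N))))))) (K a43 (M a40 (F (T t307 (L l29 (L l69 (T t6452 N)))))) N)))))))))⟩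
def e0_63_106__70_42_41 : Ent 4 := ⟨[a0, a63, a106], [a70, a42, a43], (M a48 (L l22 (F (T t309 (T t551 (L l28 (T t579 (K a40 (M a41 (F (T t578 (L l24 (L l28 (T t579 (T t551 N))))))) (K a41 (M a40 (F (T t307 (L l29 (L l69 (T t6452 N)))))) N)))))))))⟩
def e0_63_106__70_42_42 : Ent 4 := ⟨[a0, a63, a106], [a70, a42, a44], (M a48 (F (T t309 (T t551 (L l24 (L l28 (T t579 N)))))))⟩
def e0_63_106__70_42_43 : Ent 4 := ⟨[a0, a63, a106], [a70, a42, a45], (M a48 (F (T t309 (T t551 (L l28 (T t579 N))))))⟩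
def e0_63_106__70_42_44 : Ent 4 := ⟨[a0, a63, a106], [a70, a42, a46], (M a48 (L l26 (F (T t309 (T t551 (L l28 (T t579 (K a34 (M a38 (F (T t578 (L l20 (L l28 (T t579 (T t551 N))))))) (K a38 (M a34 (F (T t309 (L l29 (L l66 (L l330 (L l333 (T t6453 N)))))))) N)))))))))⟩
def e0_63_106__70_42_45 : Ent 4 := ⟨[a0, a63, a106], [a70, a42, a47], (M a12 (L l28 (F (T t2304 (L l333 (T t2305 (L l56 (T t2415 (K a32 (M a37 (F (T t2416 (L l56 (T t2415 (L l333 (T t2305 N))))))) (K a37 (M a32 (F (T t2304 (L l51 (L l56 (T t682 N)))))) N))))))))))⟩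
def e0_63_106__70_42_46 : Ent 4 := ⟨[a0, a63, a106], [a70, a42, a48], (M a12 (F (T t2419 (L l333 (L l508 (T t2305 (L l56 (T t2415 N))))))))⟩
def e0_63_106__70_42_47 : Ent 4 := ⟨[a0, a63, a106], [a70, a42, a49], (M a48 (F (T t578 (L l28 (L l35 (T t579 (T t551 N)))))))⟩
def e0_63_106__70_42_48 : Ent 4 := ⟨[a0, a63, a106], [a70, a42, a50], (M a48 (F (T t309 (T t551 (L l28 (T t579 N))))))⟩
def e0_63_106__70_42_49 : Ent 4 := ⟨[a0, a63, a106], [a70, a42, a51], (M a48 (F (T t585 (L l417 (T t551 (L l28 (T t579 N)))))))⟩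
def e0_63_106__70_42_50 : Ent 4 := ⟨[a0, a63, a106], [a70, a42, a52], (M a48 (F (T t578 (L l28 (L l31 (T t579 (T t551 N)))))))⟩
def e0_63_106__70_42_51 : Ent 4 := ⟨[a0, a63, a106], [a70, a42, a53], (M a240 (F (L l315 (T t4786 (L l491 (T t817 (L l82 (L l419 (T t4781 N)))))))))⟩
def e0_63_106__70_42_52 : Ent 4 := ⟨[a0, a63, a106], [a70, a42, a54], (M a48 (F (T t578 (L l28 (L l31 (T t579 (T t551 N)))))))⟩
def e0_63_106__70_42_53 : Ent 4 := ⟨[a0, a63, a106], [a70, a42, a55], (M a48 (F (L l31 (T t309 (L l495 (T t551 (L l28 (L l31 (T t579 N)))))))))⟩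
def e0_63_106__70_42_54 : Ent 4 := ⟨[a0, a63, a106], [a70, a42, a56], (M a48 (F (T t309 (T t551 (L l28 (T t579 N))))))⟩
def e0_63_106__70_42_55 : Ent 4 := ⟨[a0, a63, a106], [a70, a42, a57], (M a48 (F (T t578 (L l28 (L l35 (T t579 (T t551 N)))))))⟩
def e0_63_106__70_42_56 : Ent 4 := ⟨[a0, a63, a106], [a70, a42, a58], (M a240 (L l54 (F (L l82 (T t4779 (T t817 (L l82 (T t4781 (K a10 (M a26 (F (L l28 (T t815 (L l82 (L l318 (T t4781 (T t817 N)))))))) (K a26 (M a10 (F (T t6610 (L l28 (L l75 (T t815 (L l18 (T t6611 N)))))))) N))))))))))⟩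
def e0_63_106__70_42_57 : Ent 4 := ⟨[a0, a63, a106], [a70, a42, a59], (M a48 (L l56 (F (T t309 (T t551 (L l28 (T t579 (K a8 (M a25 (F (T t578 (L l28 (T t579 (T t551 N)))))) (K a25 (M a8 (F (T t307 (L l19 (L l28 (T t4700 N)))))) N)))))))))⟩
def e0_63_106__70_42_58 : Ent 4 := ⟨[a0, a63, a106], [a70, a42, a60], (M a48 (F (T t585 (L l442 (T t551 (L l28 (T t579 N)))))))⟩
def e0_63_106__70_42_59 : Ent 4 := ⟨[a0, a63, a106], [a70, a42, a61], (M a48 (F (L l35 (T t309 (L l515 (T t551 (L l28 (L l35 (T t579 N)))))))))⟩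
def e0_63_106__70_42_60 : Ent 4 := ⟨[a0, a63, a106], [a70, a42, a62], (M a207 (L l66 (F (T t6700 (L l330 (T t6701 (L l330 (T t6702 (K a2 (M a22 (L l330 (F (T t6703 (L l77 (T t6704 (T t6705 (L l77 (T t6706 (K a138 (M a206 (F (T t6707 (L l56 (L l315 (T t6708 (L l36 (L l42 (L l318 (T t6709 N)))))))))) (K a206 (Fr a138 a69 l332 (V t6703)) N))))))))))) (K a22 (M a2 (F (T t6700 (L l11 (L l432 (T t6710 (T t6702 N))))))) N))))))))))⟩
def e0_63_106__70_42_61 : Ent 4 := ⟨[a0, a63, a106], [a70, a42, a64], (M a48 (F (T t585 (L l28 (T t6454 (L l28 (T t6455 (L l28 (T t6456 (L l28 (L l77 (L l84 (T t6457 (L l54 (T t6458 (K a207 (Fr a192 a149 l519 (Fr a96 a144 l484 (Fr a101 a111 l104 (Fr a32 a16 l40 (V t6459))))) N))))))))))))))))⟩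
def e0_63_106__70_42_62 : Ent 4 := ⟨[a0, a63, a106], [a70, a42, a65], (M a48 (F (T t309 (L l76 (T t551 (L l28 (L l76 (T t579 N))))))))⟩
def e0_63_106__70_42_63 : Ent 4 := ⟨[a0, a63, a106], [a70, a42, a66], (M a48 (L l82 (F (T t304 (L l28 (L l76 (T t579 (L l76 (T t551 (K a74 (M a78 (F (T t578 (L l28 (L l76 (L l84 (L l318 (T t579 (L l76 (L l84 (T t551 N))))))))))) (K a78 (M a74 (F (T t307 (L l315 (T t6556 (L l28 (L l76 (T t579 N)))))))) N)))))))))))⟩
def e0_63_106__70_42_64 : Ent 4 := ⟨[a0, a63, a106], [a70, a42, a67], (M a48 (L l85 (F (T t309 (L l76 (T t551 (L l28 (L l76 (T t579 (K a76 (M a73 (F (T t578 (L l28 (L l76 (L l80 (T t579 (L l76 (L l80 (T t551 N)))))))))) (K a73 (M a76 (F (T t578 (L l78 (T t6589 (L l28 (L l76 (T t579 N)))))))) N)))))))))))⟩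
def e0_63_106__70_42_65 : Ent 4 := ⟨[a0, a63, a106], [a70, a42, a68], (M a48 (L l77 (F (T t309 (L l80 (T t551 (L l28 (L l80 (T t579 (K a69 (M a71 (F (T t578 (L l28 (L l80 (L l84 (T t579 (L l80 (L l84 (T t551 N)))))))))) (K a71 (M a69 (F (T t309 (L l330 (T t446 (L l80 (T t551 N))))))) N)))))))))))⟩
def e0_63_106__70_42_66 : Ent 4 := ⟨[a0, a63, a106], [a70, a42, a69], (M a48 (L l77 (F (T t309 (L l84 (T t551 (L l28 (L l84 (T t579 (K a68 (M a71 (F (T t578 (L l28 (L l80 (L l84 (T t579 (L l80 (L l84 (T t551 N)))))))))) (K a71 (M a68 (F (T t309 (T t1476 N)))) N)))))))))))⟩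
def e0_63_106__70_42_67 : Ent 4 := ⟨[a0, a63, a106], [a70, a42, a71], (M a48 (L l77 (F (T t309 (T t551 (L l28 (T t579 (K a68 (M a69 (F (T t309 (L l330 (T t446 (L l80 (T t551 N))))))) (K a69 (M a68 (F (T t309 (T t1476 N)))) N)))))))))⟩
def e0_63_106__70_42_68 : Ent 4 := ⟨[a0, a63, a106], [a70, a42, a72], (M a48 (F (T t304 (L l28 (L l80 (T t579 (L l80 (T t551 N))))))))⟩
def e0_63_106__70_42_69 : Ent 4 := ⟨[a0, a63, a106], [a70, a42, a73], (M a48 (L l85 (F (T t309 (T t551 (L l28 (T t579 (K a76 (M a67 (F (T t578 (L l82 (T t6711 (L l28 (L l80 (T t579 N)))))))) (K a67 (M a76 (F (T t578 (L l78 (T t6589 (L l28 (L l76 (T t579 N)))))))) N)))))))))⟩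
def e0_63_106__70_42_70 : Ent 4 := ⟨[a0, a63, a106], [a70, a42, a74], (M a48 (L l82 (F (T t578 (L l28 (L l84 (L l318 (T t579 (L l84 (T t551 (K a66 (M a78 (F (T t578 (L l28 (L l76 (L l84 (L l318 (T t579 (L l76 (L l84 (T t551 N))))))))))) (K a78 (M a66 (F (T t6712 (L l28 (L l84 (L l318 (T t579 N))))))) N))))))))))))⟩
def e0_63_106__70_42_71 : Ent 4 := ⟨[a0, a63, a106], [a70, a42, a75], (M a48 (F (T t309 (T t551 (L l28 (T t579 N))))))⟩
def e0_63_106__70_42_72 : Ent 4 := ⟨[a0, a63, a106], [a70, a42, a76], (M a48 (L l85 (F (T t309 (L l80 (T t551 (L l28 (L l80 (T t579 (K a73 (M a67 (F (T t578 (L l82 (T t6711 (L l28 (L l80 (T t579 N)))))))) (K a67 (M a73 (F (T t578 (L l28 (L l76 (L l80 (T t579 (L l76 (L l80 (T t551 N)))))))))) N)))))))))))⟩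
def e0_63_106__70_42_73 : Ent 4 := ⟨[a0, a63, a106], [a70, a42, a77], (M a48 (F (T t309 (T t551 (L l28 (T t579 N))))))⟩
def e0_63_106__70_42_74 : Ent 4 := ⟨[a0, a63, a106], [a70, a42, a78], (M a48 (L l82 (F (T t309 (T t551 (L l28 (T t579 (K a66 (M a74 (F (T t307 (L l315 (T t6556 (L l28 (L l76 (T t579 N)))))))) (K a74 (M a66 (F (T t6712 (L l28 (L l84 (L l318 (T t579 N))))))) N)))))))))⟩
def e0_63_106__70_42_75 : Ent 4 := ⟨[a0, a63, a106], [a70, a42, a79], (M a48 (F (T t309 (L l84 (T t551 (L l28 (L l84 (T t579 N))))))))⟩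
def e0_63_106__70_42_76 : Ent 4 := ⟨[a0, a63, a106], [a70, a42, a80], (M a12 (F (T t2304 (L l116 (L l333 (T t2305 (L l56 (L l116 (T t2415 N)))))))))⟩
def e0_63_106__70_42_77 : Ent 4 := ⟨[a0, a63, a106], [a70, a42, a81], (M a48 (F (T t309 (L l120 (T t551 (L l28 (L l120 (T t579 N))))))))⟩
def e0_63_106__70_42_78 : Ent 4 := ⟨[a0, a63, a106], [a70, a42, a82], (M a48 (F (T t309 (L l453 (T t551 (L l28 (T t579 N)))))))⟩
def e0_63_106__70_42_79 : Ent 4 := ⟨[a0, a63, a106], [a70, a42, a83], (M a48 (F (T t309 (T t551 (L l28 (T t579 N))))))⟩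
def e0_63_106__70_42_80 : Ent 4 := ⟨[a0, a63, a106], [a70, a42, a84], (M a48 (F (T t309 (L l140 (T t551 (L l28 (L l140 (T t579 N))))))))⟩
def e0_63_106__70_42_81 : Ent 4 := ⟨[a0, a63, a106], [a70, a42, a85], (M a48 (F (T t309 (L l347 (T t551 (L l54 (T t777 (L l368 (T t6465 (K a192 (M a240 (F (T t6230 (L l236 (T t6471 (L l54 (L l82 (L l236 (L l339 (T t6472 (L l82 (L l339 (T t6473 N))))))))))))) N))))))))))⟩
def e0_63_106__70_42_82 : Ent 4 := ⟨[a0, a63, a106], [a70, a42, a86], (M a48 (L l124 (F (T t309 (L l351 (T t551 (L l28 (T t579 (K a102 (M a118 (F (T t304 (L l28 (T t579 (L l351 (L l495 (T t551 N)))))))) (K a118 (M a102 (F (T t304 (L l107 (T t6713 N))))) N))))))))))⟩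
def e0_63_106__70_42_83 : Ent 4 := ⟨[a0, a63, a106], [a70, a42, a87], (M a48 (F (T t309 (T t551 (L l28 (L l367 (T t579 N)))))))⟩
def e0_63_106__70_42_84 : Ent 4 := ⟨[a0, a63, a106], [a70, a42, a88], (M a48 (F (T t309 (L l478 (T t551 (L l28 (T t579 N)))))))⟩
def e0_63_106__70_42_85 : Ent 4 := ⟨[a0, a63, a106], [a70, a42, a89], (M a48 (F (T t309 (L l371 (T t551 (L l28 (T t579 N)))))))⟩
def e0_63_106__70_42_86 : Ent 4 := ⟨[a0, a63, a106], [a70, a42, a90], (M a48 (F (T t309 (L l375 (L l483 (T t551 (L l28 (T t579 N))))))))⟩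
def e0_63_106__70_42_87 : Ent 4 := ⟨[a0, a63, a106], [a70, a42, a91], (M a48 (F (T t309 (T t551 (L l28 (T t579 N))))))⟩
def e0_63_106__70_42_88 : Ent 4 := ⟨[a0, a63, a106], [a70, a42, a92], (M a48 (F (T t309 (T t551 (L l28 (T t579 N))))))⟩
def e0_63_106__70_42_89 : Ent 4 := ⟨[a0, a63, a106], [a70, a42, a93], (M a48 (F (T t309 (T t551 (L l28 (L l362 (T t579 N)))))))⟩
def e0_63_106__70_42_90 : Ent 4 := ⟨[a0, a63, a106], [a70, a42, a94], (M a48 (F (T t309 (T t551 (L l28 (T t579 N))))))⟩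
def e0_63_106__70_42_91 : Ent 4 := ⟨[a0, a63, a106], [a70, a42, a95], (M a48 (F (T t309 (T t551 (L l28 (L l361 (T t579 N)))))))⟩
def e0_63_106__70_42_92 : Ent 4 := ⟨[a0, a63, a106], [a70, a42, a96], (M a12 (F (T t2414 (L l56 (L l116 (T t2415 (L l116 (L l333 (T t2305 N)))))))))⟩
def e0_63_106__70_42_93 : Ent 4 := ⟨[a0, a63, a106], [a70, a42, a97], (M a48 (F (T t309 (L l96 (T t551 (L l28 (L l380 (T t579 N))))))))⟩
def e0_63_106__70_42_94 : Ent 4 := ⟨[a0, a63, a106], [a70, a42, a98], (M a48 (F (T t304 (L l28 (L l120 (T t579 (L l96 (L l120 (T t551 N)))))))))⟩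
def e0_63_106__70_42_95 : Ent 4 := ⟨[a0, a63, a106], [a70, a42, a99], (M a48 (F (T t309 (L l96 (T t551 (L l28 (T t579 N)))))))⟩
def e0_63_106__70_42_96 : Ent 4 := ⟨[a0, a63, a106], [a70, a42, a100], (M a48 (F (T t309 (L l100 (T t551 (L l28 (L l400 (T t579 N))))))))⟩
def e0_63_106__70_42_97 : Ent 4 := ⟨[a0, a63, a106], [a70, a42, a101], (M a240 (F (L l82 (T t4779 (L l491 (L l512 (T t817 (L l82 (T t4781 N)))))))))⟩
def e0_63_106__70_42_98 : Ent 4 := ⟨[a0, a63, a106], [a70, a42, a102], (M a48 (L l124 (F (T t309 (L l495 (T t551 (L l28 (T t579 (K a86 (M a118 (F (T t304 (L l28 (T t579 (L l351 (L l495 (T t551 N)))))))) (K a118 (M a86 (F (T t304 (L l82 (T t6714 N))))) N))))))))))⟩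
def e0_63_106__70_42_99 : Ent 4 := ⟨[a0, a63, a106], [a70, a42, a103], (M a48 (F (T t309 (T t551 (L l28 (T t579 N))))))⟩
def e0_63_106__70_42_100 : Ent 4 := ⟨[a0, a63, a106], [a70, a42, a104], (M a48 (F (T t304 (L l28 (L l140 (T t579 (L l100 (L l140 (T t551 N)))))))))⟩
def e0_63_106__70_42_101 : Ent 4 := ⟨[a0, a63, a106], [a70, a42, a105], (M a48 (F (T t309 (L l515 (T t551 (L l28 (T t579 N)))))))⟩
def e0_63_106__70_42_102 : Ent 4 := ⟨[a0, a63, a106], [a70, a42, a107], (M a48 (F (T t309 (T t551 (L l28 (T t579 N))))))⟩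
def e0_63_106__70_42_103 : Ent 4 := ⟨[a0, a63, a106], [a70, a42, a108], (M a48 (F (T t309 (L l100 (T t551 (L l28 (T t579 N)))))))⟩
def e0_63_106__70_42_104 : Ent 4 := ⟨[a0, a63, a106], [a70, a42, a109], (M a48 (F (T t309 (T t551 (L l28 (T t579 N))))))⟩
def e0_63_106__70_42_105 : Ent 4 := ⟨[a0, a63, a106], [a70, a42, a110], (M a48 (F (T t309 (T t551 (L l28 (T t579 N))))))⟩
def e0_63_106__70_42_106 : Ent 4 := ⟨[a0, a63, a106], [a70, a42, a111], (M a240 (F (L l82 (T t4779 (T t817 (L l82 (L l137 (T t4781 N))))))))⟩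
def e0_63_106__70_42_107 : Ent 4 := ⟨[a0, a63, a106], [a70, a42, a112], (M a48 (F (T t309 (L l28 (L l116 (T t6462 (L l28 (L l116 (T t579 N)))))))))⟩
def e0_63_106__70_42_108 : Ent 4 := ⟨[a0, a63, a106], [a70, a42, a113], (M a48 (F (T t309 (T t551 (L l28 (T t579 N))))))⟩
def e0_63_106__70_42_109 : Ent 4 := ⟨[a0, a63, a106], [a70, a42, a114], (M a48 (F (T t309 (L l417 (T t551 (L l28 (T t579 N)))))))⟩
def e0_63_106__70_42_110 : Ent 4 := ⟨[a0, a63, a106], [a70, a42, a115], (M a48 (F (T t309 (L l120 (T t551 (L l28 (L l120 (T t579 N))))))))⟩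
def e0_63_106__70_42_111 : Ent 4 := ⟨[a0, a63, a106], [a70, a42, a116], (M a48 (F (T t309 (T t551 (L l28 (T t579 N))))))⟩
def e0_63_106__70_42_112 : Ent 4 := ⟨[a0, a63, a106], [a70, a42, a117], (M a48 (F (T t578 (L l28 (L l419 (T t579 (T t551 N)))))))⟩
def e0_63_106__70_42_113 : Ent 4 := ⟨[a0, a63, a106], [a70, a42, a118], (M a48 (L l124 (F (T t309 (T t551 (L l28 (T t579 (K a86 (M a102 (F (T t304 (L l107 (T t6713 N))))) (K a102 (M a86 (F (T t304 (L l82 (T t6714 N))))) N)))))))))⟩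
def e0_63_106__70_42_114 : Ent 4 := ⟨[a0, a63, a106], [a70, a42, a119], (M a48 (F (T t309 (T t551 (L l28 (T t579 N))))))⟩
def e0_63_106__70_42_115 : Ent 4 := ⟨[a0, a63, a106], [a70, a42, a120], (M a48 (F (T t309 (L l442 (T t551 (L l28 (T t579 N)))))))⟩
def e0_63_106__70_42_116 : Ent 4 := ⟨[a0, a63, a106], [a70, a42, a121], (M a48 (F (T t309 (T t551 (L l28 (T t579 N))))))⟩
def e0_63_106__70_42_117 : Ent 4 := ⟨[a0, a63, a106], [a70, a42, a122], (M a48 (F (T t309 (T t551 (L l28 (T t579 N))))))⟩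
def e0_63_106__70_42_118 : Ent 4 := ⟨[a0, a63, a106], [a70, a42, a123], (M a48 (F (T t309 (T t551 (L l28 (T t579 N))))))⟩
def e0_63_106__70_42_119 : Ent 4 := ⟨[a0, a63, a106], [a70, a42, a124], (M a48 (F (T t309 (L l140 (T t551 (L l28 (L l140 (T t579 N))))))))⟩
def e0_63_106__70_42_120 : Ent 4 := ⟨[a0, a63, a106], [a70, a42, a125], (M a48 (F (T t309 (T t551 (L l28 (T t579 N))))))⟩
def e0_63_106__70_42_121 : Ent 4 := ⟨[a0, a63, a106], [a70, a42, a126], (M a48 (F (T t309 (T t551 (L l28 (T t579 N))))))⟩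
def e0_63_106__70_42_122 : Ent 4 := ⟨[a0, a63, a106], [a70, a42, a127], (M a48 (F (T t309 (T t551 (L l28 (T t6454 (L l28 (T t6479 N))))))))⟩
def e0_63_106__70_42_123 : Ent 4 := ⟨[a0, a63, a106], [a70, a42, a128], (M a48 (F (T t585 (L l28 (T t579 (L l192 (L l220 (T t6480 (L l54 (L l160 (L l330 (T t6481 N))))))))))))⟩
def e0_63_106__70_42_124 : Ent 4 := ⟨[a0, a63, a106], [a70, a42, a129], (M a48 (F (T t304 (L l28 (T t579 (L l217 (T t551 N)))))))⟩
def e0_63_106__70_42_125 : Ent 4 := ⟨[a0, a63, a106], [a70, a42, a130], (M a48 (F (T t309 (T t551 (L l28 (T t579 N))))))⟩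
def e0_63_106__70_42_126 : Ent 4 := ⟨[a0, a63, a106], [a70, a42, a131], (M a48 (F (T t309 (L l197 (T t551 (L l28 (T t579 N)))))))⟩
def e0_63_106__70_42_127 : Ent 4 := ⟨[a0, a63, a106], [a70, a42, a132], (M a48 (F (T t304 (L l28 (T t579 (L l202 (T t551 N)))))))⟩
def e0_63_106__70_42_128 : Ent 4 := ⟨[a0, a63, a106], [a70, a42, a133], (M a48 (L l315 (F (T t585 (L l199 (T t551 (L l28 (T t579 (K a196 (M a7 (F (T t304 (L l28 (T t579 (L l199 (L l495 (T t551 N)))))))) (K a7 (M a196 (F (T t304 (L l1 (L l199 (T t6695 (L l28 (T t579 N)))))))) N))))))))))⟩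
def e0_63_106__70_42_129 : Ent 4 := ⟨[a0, a63, a106], [a70, a42, a134], (M a48 (L l312 (F (T t309 (T t551 (L l28 (T t579 (K a6 (M a198 (F (T t578 (L l28 (T t579 (T t551 N)))))) (K a198 (M a6 (F (T t578 (L l28 (L l234 (T t579 (T t551 N))))))) N)))))))))⟩
def e0_63_106__70_42_130 : Ent 4 := ⟨[a0, a63, a106], [a70, a42, a135], (M a48 (F (T t309 (T t551 (L l28 (T t579 N))))))⟩
def e0_63_106__70_42_131 : Ent 4 := ⟨[a0, a63, a106], [a70, a42, a136], (M a48 (F (T t309 (T t551 (L l28 (T t579 N))))))⟩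
def e0_63_106__70_42_132 : Ent 4 := ⟨[a0, a63, a106], [a70, a42, a137], (M a204 (F (T t6715 (L l154 (L l321 (T t4770 (L l154 (T t6655 N))))))))⟩
def e0_63_106__70_42_133 : Ent 4 := ⟨[a0, a63, a106], [a70, a42, a138], (M a48 (L l330 (F (T t578 (L l28 (L l318 (T t579 (T t551 (K a2 (M a206 (L l66 (F (T t578 (L l28 (L l318 (T t579 (T t551 (K a22 (M a62 (F (T t578 (L l22 (L l306 (T t5926 N)))))) (K a62 (M a22 (F (T t578 (L l28 (L l318 (T t579 (T t551 N))))))) N)))))))))) (K a206 (M a2 (F (T t2348 (L l28 (T t342 N))))) N))))))))))⟩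
def e0_63_106__70_42_134 : Ent 4 := ⟨[a0, a63, a106], [a70, a42, a139], (M a48 (F (T t309 (T t551 (L l28 (T t579 N))))))⟩
def e0_63_106__70_42_135 : Ent 4 := ⟨[a0, a63, a106], [a70, a42, a140], (M a48 (F (T t309 (L l222 (T t551 (L l28 (T t579 N)))))))⟩
def e0_63_106__70_42_136 : Ent 4 := ⟨[a0, a63, a106], [a70, a42, a141], (M a48 (F (T t309 (T t551 (L l28 (T t579 N))))))⟩
def e0_63_106__70_42_137 : Ent 4 := ⟨[a0, a63, a106], [a70, a42, a142], (M a48 (F (T t309 (T t551 (L l28 (T t579 N))))))⟩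
def e0_63_106__70_42_138 : Ent 4 := ⟨[a0, a63, a106], [a70, a42, a143], (M a48 (F (T t309 (L l28 (T t6462 (L l28 (T t579 N)))))))⟩
def e0_63_106__70_42_139 : Ent 4 := ⟨[a0, a63, a106], [a70, a42, a144], (M a12 (F (T t2414 (L l56 (T t2415 (L l170 (L l333 (T t2305 N))))))))⟩
def e0_63_106__70_42_140 : Ent 4 := ⟨[a0, a63, a106], [a70, a42, a145], (M a48 (F (T t304 (L l28 (T t579 (L l167 (T t551 N)))))))⟩
def e0_63_106__70_42_141 : Ent 4 := ⟨[a0, a63, a106], [a70, a42, a146], (M a48 (F (T t304 (L l28 (T t579 (L l197 (T t551 N)))))))⟩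
def e0_63_106__70_42_142 : Ent 4 := ⟨[a0, a63, a106], [a70, a42, a147], (M a48 (F (T t304 (L l28 (T t579 (T t551 N))))))⟩
def e0_63_106__70_42_143 : Ent 4 := ⟨[a0, a63, a106], [a70, a42, a148], (M a48 (F (T t304 (L l28 (T t579 (L l163 (T t551 N)))))))⟩
def e0_63_106__70_42_144 : Ent 4 := ⟨[a0, a63, a106], [a70, a42, a149], (M a89 (F (L l202 (T t6716 (L l202 (L l347 (T t6717 (L l26 (L l202 (T t6718 (L l26 (L l202 (L l220 (T t6719 (K a132 (M a243 (L l202 (F (T t6536 (T t6537 (K a166 (Fr a183 a123 l445 (V t6572)) (K a183 (Fr a166 a12 l482 (V t6720)) N))))))) (K a72 (M a85 (F (L l220 (T t814 (L l334 (T t6263 (L l26 (L l334 (T t6721 (L l220 (T t6722 N))))))))))) (K a166 (M a243 (L l202 (F (T t6536 (L l178 (T t6572 (K a132 (Fr a183 a123 l445 (V t6572)) (K a183 (M a132 (F (L l178 (T t6572 (L l56 (L l315 (L l495 (T t6723 (L l220 (L l458 (T t6724 N))))))))))) N)))))))) (K a243 (M a204 (F (L l167 (T t6655 (L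 l77 (L l272 (T t6725 (L l167 (L l220 (L l415 (T t6726 N))))))))))) (K a183 (M a12 (L l202 (F (T t6727 (L l220 (T t6728 (K a132 (Fr a166 a243 l482 (V t6543)) (K a166 (M a132 (F (T t6729 (L l26 (L l458 (T t6730 N)))))) N)))))))) (K a123 (M a85 (F (T t3095 (T t6263 (L l26 (T t6721 (L l113 (L l220 (T t6722 N))))))))) N))))))))))))))))))))⟩
def e0_63_106__70_42_145 : Ent 4 := ⟨[a0, a63, a106], [a70, a42, a150], (M a48 (F (T t309 (L l163 (T t551 (L l28 (T t579 N)))))))⟩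
def e0_63_106__70_42_146 : Ent 4 := ⟨[a0, a63, a106], [a70, a42, a151], (M a48 (F (T t309 (L l163 (T t551 (L l28 (T t579 N)))))))⟩
def e0_63_106__70_42_147 : Ent 4 := ⟨[a0, a63, a106], [a70, a42, a152], (M a48 (F (T t304 (L l28 (T t579 (L l222 (T t551 N)))))))⟩
def e0_63_106__70_42_148 : Ent 4 := ⟨[a0, a63, a106], [a70, a42, a153], (M a48 (F (T t309 (L l167 (T t551 (L l28 (T t579 N)))))))⟩
def e0_63_106__70_42_149 : Ent 4 := ⟨[a0, a63, a106], [a70, a42, a154], (M a240 (F (L l82 (T t4779 (L l170 (L l368 (L l512 (T t817 (L l82 (T t4781 N))))))))))⟩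
def e0_63_106__70_42_150 : Ent 4 := ⟨[a0, a63, a106], [a70, a42, a155], (M a48 (F (T t309 (T t551 (L l28 (L l367 (T t579 N)))))))⟩
def e0_63_106__70_42_151 : Ent 4 := ⟨[a0, a63, a106], [a70, a42, a156], (M a48 (F (T t304 (L l28 (T t579 (T t551 N))))))⟩
def e0_63_106__70_42_152 : Ent 4 := ⟨[a0, a63, a106], [a70, a42, a157], (M a48 (F (T t309 (L l167 (T t551 (L l28 (T t579 N)))))))⟩
def e0_63_106__70_42_153 : Ent 4 := ⟨[a0, a63, a106], [a70, a42, a158], (M a48 (F (T t309 (T t551 (L l28 (L l362 (T t579 N)))))))⟩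
def e0_63_106__70_42_154 : Ent 4 := ⟨[a0, a63, a106], [a70, a42, a159], (M a240 (F (L l82 (T t4779 (L l170 (T t817 (L l82 (L l361 (T t4781 N)))))))))⟩
def e0_63_106__70_42_155 : Ent 4 := ⟨[a0, a63, a106], [a70, a42, a160], (M a12 (F (T t2304 (L l333 (T t2305 (L l56 (T t2415 N)))))))⟩
def e0_63_106__70_42_156 : Ent 4 := ⟨[a0, a63, a106], [a70, a42, a161], (M a48 (F (T t309 (L l197 (L l453 (T t551 (L l28 (T t579 N))))))))⟩
def e0_63_106__70_42_157 : Ent 4 := ⟨[a0, a63, a106], [a70, a42, a162], (M a48 (F (T t309 (T t551 (L l28 (L l380 (T t579 N)))))))⟩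
def e0_63_106__70_42_158 : Ent 4 := ⟨[a0, a63, a106], [a70, a42, a163], (M a48 (F (T t309 (T t551 (L l28 (T t579 N))))))⟩
def e0_63_106__70_42_159 : Ent 4 := ⟨[a0, a63, a106], [a70, a42, a164], (M a48 (F (T t309 (L l222 (L l478 (T t551 (L l28 (T t579 N))))))))⟩
def e0_63_106__70_42_160 : Ent 4 := ⟨[a0, a63, a106], [a70, a42, a165], (M a48 (F (T t309 (L l28 (L l199 (L l483 (T t6462 (L l28 (T t579 N)))))))))⟩
def e0_63_106__70_42_161 : Ent 4 := ⟨[a0, a63, a106], [a70, a42, a166], (M a48 (F (T t309 (L l202 (T t551 (L l28 (T t579 N)))))))⟩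
def e0_63_106__70_42_162 : Ent 4 := ⟨[a0, a63, a106], [a70, a42, a167], (M a48 (F (T t309 (T t551 (L l28 (T t579 N))))))⟩
def e0_63_106__70_42_163 : Ent 4 := ⟨[a0, a63, a106], [a70, a42, a168], (M a48 (F (T t309 (T t551 (L l28 (L l400 (T t579 N)))))))⟩
def e0_63_106__70_42_164 : Ent 4 := ⟨[a0, a63, a106], [a70, a42, a169], (M a48 (F (T t309 (L l217 (T t551 (L l28 (T t579 N)))))))⟩
def e0_63_106__70_42_165 : Ent 4 := ⟨[a0, a63, a106], [a70, a42, a170], (M a48 (F (T t309 (L l220 (T t551 (L l28 (L l206 (L l220 (L l404 (T t552 (L l28 (L l77 (L l206 (L l404 (T t553 N)))))))))))))))⟩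
def e0_63_106__70_42_166 : Ent 4 := ⟨[a0, a63, a106], [a70, a42, a171], (M a48 (F (T t309 (T t551 (L l28 (T t579 N))))))⟩
def e0_63_106__70_42_167 : Ent 4 := ⟨[a0, a63, a106], [a70, a42, a172], (M a48 (F (T t309 (T t551 (L l28 (T t579 N))))))⟩
def e0_63_106__70_42_168 : Ent 4 := ⟨[a0, a63, a106], [a70, a42, a173], (M a48 (F (T t309 (T t551 (L l28 (T t579 N))))))⟩
def e0_63_106__70_42_169 : Ent 4 := ⟨[a0, a63, a106], [a70, a42, a174], (M a48 (F (T t309 (T t551 (L l28 (T t579 N))))))⟩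
def e0_63_106__70_42_170 : Ent 4 := ⟨[a0, a63, a106], [a70, a42, a175], (M a48 (F (T t309 (T t551 (L l28 (T t579 N))))))⟩
def e0_63_106__70_42_171 : Ent 4 := ⟨[a0, a63, a106], [a70, a42, a176], (M a240 (F (L l315 (T t4786 (L l192 (T t817 (L l82 (L l190 (L l192 (T t4781 N))))))))))⟩
def e0_63_106__70_42_172 : Ent 4 := ⟨[a0, a63, a106], [a70, a42, a177], (M a48 (F (T t309 (L l182 (L l417 (T t551 (L l28 (T t579 N))))))))⟩
def e0_63_106__70_42_173 : Ent 4 := ⟨[a0, a63, a106], [a70, a42, a178], (M a48 (F (T t309 (L l182 (T t551 (L l28 (T t579 N)))))))⟩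
def e0_63_106__70_42_174 : Ent 4 := ⟨[a0, a63, a106], [a70, a42, a179], (M a48 (F (T t309 (L l182 (T t551 (L l28 (T t579 N)))))))⟩
def e0_63_106__70_42_175 : Ent 4 := ⟨[a0, a63, a106], [a70, a42, a180], (M a48 (F (T t309 (L l186 (L l442 (T t551 (L l28 (T t579 N))))))))⟩
def e0_63_106__70_42_176 : Ent 4 := ⟨[a0, a63, a106], [a70, a42, a181], (M a48 (F (L l419 (T t309 (L l190 (L l199 (T t551 (L l28 (L l419 (T t579 N))))))))))⟩
def e0_63_106__70_42_177 : Ent 4 := ⟨[a0, a63, a106], [a70, a42, a182], (M a48 (F (T t309 (T t551 (L l28 (T t579 N))))))⟩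
def e0_63_106__70_42_178 : Ent 4 := ⟨[a0, a63, a106], [a70, a42, a183], (M a48 (F (T t309 (L l202 (T t551 (L l28 (T t579 N)))))))⟩
def e0_63_106__70_42_179 : Ent 4 := ⟨[a0, a63, a106], [a70, a42, a184], (M a48 (F (T t309 (L l186 (T t551 (L l28 (T t579 N)))))))⟩
def e0_63_106__70_42_180 : Ent 4 := ⟨[a0, a63, a106], [a70, a42, a185], (M a48 (F (T t309 (T t551 (L l28 (T t579 N))))))⟩
def e0_63_106__70_42_181 : Ent 4 := ⟨[a0, a63, a106], [a70, a42, a186], (M a48 (F (T t309 (L l190 (T t551 (L l28 (T t579 N)))))))⟩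
def e0_63_106__70_42_182 : Ent 4 := ⟨[a0, a63, a106], [a70, a42, a187], (M a48 (F (T t309 (T t551 (L l28 (T t579 N))))))⟩
def e0_63_106__70_42_183 : Ent 4 := ⟨[a0, a63, a106], [a70, a42, a188], (M a48 (F (T t309 (L l186 (T t551 (L l28 (T t579 N)))))))⟩
def e0_63_106__70_42_184 : Ent 4 := ⟨[a0, a63, a106], [a70, a42, a189], (M a48 (F (T t309 (L l217 (T t551 (L l28 (T t579 N)))))))⟩
def e0_63_106__70_42_185 : Ent 4 := ⟨[a0, a63, a106], [a70, a42, a190], (M a48 (F (T t309 (T t551 (L l28 (T t579 N))))))⟩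
def e0_63_106__70_42_186 : Ent 4 := ⟨[a0, a63, a106], [a70, a42, a191], (M a48 (F (T t309 (L l190 (L l220 (T t551 (L l28 (T t6498 (L l28 (L l77 (T t6499 N)))))))))))⟩
def e0_63_106__70_42_187 : Ent 4 := ⟨[a0, a63, a106], [a70, a42, a192], (M a204 (F (L l489 (T t6655 (L l272 (L l489 (T t6656 (L l296 (L l489 (T t6657 (L l56 (L l315 (L l489 (T t6658 (L l489 (T t6659 (K a145 (M a102 (L l489 (F (T t6641 (T t6660 (K a98 (Fr a51 a153 l513 (V t6731)) (K a51 (Fr a98 a110 l102 (V t6662)) N))))))) (K a85 (M a48 (F (L l292 (T t2046 (L l123 (L l236 (L l489 (T t6732 N)))))))) (K a157 (M a48 (F (T t5482 (L l28 (L l236 (T t579 (L l124 (L l236 (T t6651 N))))))))) (K a98 (M a153 (L l489 (F (T t6645 (L l77 (L l296 (T t6668 (L l26 (L l120 (L l378 (T t6669 (K a145 (Fr a51 a102 l513 (V t6670)) (K a51 (M a145 (F (T t6671 (L l56 (L l77 (L l272 (L l334 (L l378 (T t6672 N))))))))) N))))))))))))) (K a102 (M a252 (L l124 (F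 (L l484 (T t6673 (L l82 (L l148 (L l339 (T t6674 (L l82 (L l309 (T t6675 (K a86 (M a118 (F (L l489 (T t6733 (L l28 (L l87 (L l369 (L l484 (T t6734 N))))))))) (K a118 (M a86 (F (T t6735 (L l107 (L l484 (T t6673 N)))))) N)))))))))))))) (K a110 (M a48 (F (T t6676 (L l28 (L l236 (T t579 (L l124 (L l236 (T t6651 N))))))))) (K a51 (M a48 (L l489 (F (T t5482 (L l236 (T t6677 (K a145 (M a98 (F (T t6678 (L l292 (L l441 (T t1315 N)))))) (K a98 (M a145 (F (T t5482 (L l28 (L l120 (L l236 (T t579 (L l511 (T t6679 N))))))))) N)))))))) N)))))))))))))))))))))))⟩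
def e0_63_106__70_42_188 : Ent 4 := ⟨[a0, a63, a106], [a70, a42, a193], (M a48 (F (T t585 (L l515 (T t551 (L l28 (T t579 N)))))))⟩
def e0_63_106__70_42_189 : Ent 4 := ⟨[a0, a63, a106], [a70, a42, a194], (M a48 (F (T t578 (L l28 (L l234 (T t579 (T t551 N)))))))⟩
def e0_63_106__70_42_190 : Ent 4 := ⟨[a0, a63, a106], [a70, a42, a195], (M a48 (F (T t585 (L l273 (T t551 (L l28 (T t579 N)))))))⟩
def e0_63_106__70_42_191 : Ent 4 := ⟨[a0, a63, a106], [a70, a42, a196], (M a48 (L l315 (F (T t585 (L l495 (T t551 (L l28 (T t579 (K a133 (M a7 (F (T t304 (L l28 (T t579 (L l199 (L l495 (T t551 N)))))))) (K a7 (M a133 (F (T t585 (L l495 (T t551 (L l28 (T t579 N))))))) N))))))))))⟩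
def e0_63_106__70_42_192 : Ent 4 := ⟨[a0, a63, a106], [a70, a42, a197], (M a240 (F (L l82 (L l236 (T t4779 (L l491 (T t817 (L l82 (T t4781 N)))))))))⟩
def e0_63_106__70_42_193 : Ent 4 := ⟨[a0, a63, a106], [a70, a42, a198], (M a48 (L l312 (F (T t578 (L l28 (L l234 (T t579 (T t551 (K a6 (M a134 (F (T t578 (L l28 (L l234 (T t579 (T t551 N))))))) (K a134 (M a6 (F (T t578 (L l28 (L l234 (T t579 (T t551 N))))))) N))))))))))⟩
def e0_63_106__70_42_194 : Ent 4 := ⟨[a0, a63, a106], [a70, a42, a199], (M a48 (F (T t309 (T t551 (L l28 (T t579 N))))))⟩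
def e0_63_106__70_42_195 : Ent 4 := ⟨[a0, a63, a106], [a70, a42, a200], (M a48 (F (T t578 (L l28 (L l230 (T t579 (T t551 N)))))))⟩
def e0_63_106__70_42_196 : Ent 4 := ⟨[a0, a63, a106], [a70, a42, a201], (M a48 (F (T t578 (L l28 (L l230 (T t579 (T t551 N)))))))⟩
def e0_63_106__70_42_197 : Ent 4 := ⟨[a0, a63, a106], [a70, a42, a202], (M a240 (F (L l28 (T t815 (L l82 (L l318 (T t4781 (T t817 N))))))))⟩
def e0_63_106__70_42_198 : Ent 4 := ⟨[a0, a63, a106], [a70, a42, a203], (M a48 (F (T t2348 (L l28 (L l230 (T t579 (T t551 N)))))))⟩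
def e0_63_106__70_42_199 : Ent 4 := ⟨[a0, a63, a106], [a70, a42, a204], (M a3 (F (T t6736 (L l66 (L l330 (T t809 (L l82 (L l237 (T t3500 N)))))))))⟩
def e0_63_106__70_42_200 : Ent 4 := ⟨[a0, a63, a106], [a70, a42, a205], (M a48 (F (T t309 (T t551 (L l28 (T t579 N))))))⟩
def e0_63_106__70_42_201 : Ent 4 := ⟨[a0, a63, a106], [a70, a42, a206], (M a60 (L l330 (F (T t1514 (L l22 (L l234 (T t2369 (T t565 (K a2 (M a138 (L l66 (F (T t565 (L l77 (L l231 (L l333 (L l504 (T t6688 (K a22 (Fr a62 a61 l33 (V t6685)) (K a62 (M a22 (L l504 (F (L l22 (T t881 (L l82 (L l231 (T t6689 (K a158 (M a110 (F (L l22 (T t881 (L l56 (L l165 (T t6690 N))))))) (K a110 (M a158 (F (T t6691 (L l22 (T t881 N))))) N)))))))))) N))))))))))) (K a138 (M a2 (F (T t1514 (L l124 (T t6737 (L l22 (L l234 (T t2369 N)))))))) N))))))))))⟩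
def e0_63_106__70_42_202 : Ent 4 := ⟨[a0, a63, a106], [a70, a42, a207], (M a240 (F (L l82 (T t6525 (L l512 (T t817 (L l82 (T t4781 N))))))))⟩
def e0_63_106__70_42_203 : Ent 4 := ⟨[a0, a63, a106], [a70, a42, a208], (M a12 (F (T t2419 (L l333 (L l375 (T t2305 (L l56 (T t2415 N))))))))⟩
def e0_63_106__70_42_204 : Ent 4 := ⟨[a0, a63, a106], [a70, a42, a209], (M a48 (F (T t304 (L l28 (T t579 (L l371 (T t551 N)))))))⟩
def e0_63_106__70_42_205 : Ent 4 := ⟨[a0, a63, a106], [a70, a42, a210], (M a48 (F (T t309 (L l273 (T t551 (L l28 (T t579 N)))))))⟩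
def e0_63_106__70_42_206 : Ent 4 := ⟨[a0, a63, a106], [a70, a42, a211], (M a48 (F (T t309 (T t551 (L l28 (L l245 (T t579 N)))))))⟩
def e0_63_106__70_42_207 : Ent 4 := ⟨[a0, a63, a106], [a70, a42, a212], (M a48 (F (T t304 (L l28 (T t579 (L l351 (T t551 N)))))))⟩
def e0_63_106__70_42_208 : Ent 4 := ⟨[a0, a63, a106], [a70, a42, a213], (M a48 (F (T t304 (L l28 (L l246 (T t579 (L l347 (T t551 N))))))))⟩
def e0_63_106__70_42_209 : Ent 4 := ⟨[a0, a63, a106], [a70, a42, a214], (M a48 (F (T t309 (T t551 (L l28 (T t579 N))))))⟩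
def e0_63_106__70_42_210 : Ent 4 := ⟨[a0, a63, a106], [a70, a42, a215], (M a48 (F (T t309 (T t551 (L l28 (L l245 (T t579 N)))))))⟩
def e0_63_106__70_42_211 : Ent 4 := ⟨[a0, a63, a106], [a70, a42, a216], (M a48 (F (T t309 (L l298 (T t551 (L l28 (T t579 N)))))))⟩
def e0_63_106__70_42_212 : Ent 4 := ⟨[a0, a63, a106], [a70, a42, a217], (M a48 (F (T t309 (T t551 (L l28 (T t579 N))))))⟩
def e0_63_106__70_42_213 : Ent 4 := ⟨[a0, a63, a106], [a70, a42, a218], (M a48 (F (T t2348 (L l28 (L l246 (L l282 (T t579 (L l303 (T t551 N)))))))))⟩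
def e0_63_106__70_42_214 : Ent 4 := ⟨[a0, a63, a106], [a70, a42, a219], (M a48 (F (T t309 (T t551 (L l28 (L l245 (T t579 N)))))))⟩
def e0_63_106__70_42_215 : Ent 4 := ⟨[a0, a63, a106], [a70, a42, a220], (M a48 (F (T t309 (T t551 (L l28 (L l241 (T t579 N)))))))⟩
def e0_63_106__70_42_216 : Ent 4 := ⟨[a0, a63, a106], [a70, a42, a221], (M a48 (F (T t309 (T t551 (L l28 (L l241 (T t579 N)))))))⟩
def e0_63_106__70_42_217 : Ent 4 := ⟨[a0, a63, a106], [a70, a42, a222], (M a48 (F (T t309 (T t551 (L l28 (L l241 (T t579 N)))))))⟩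
def e0_63_106__70_42_218 : Ent 4 := ⟨[a0, a63, a106], [a70, a42, a223], (M a240 (F (L l315 (T t4786 (L l368 (T t817 (L l82 (L l361 (T t4781 N)))))))))⟩
def e0_63_106__70_42_219 : Ent 4 := ⟨[a0, a63, a106], [a70, a42, a224], (M a48 (F (T t585 (L l268 (L l376 (T t551 (L l28 (L l376 (T t579 N)))))))))⟩
def e0_63_106__70_42_220 : Ent 4 := ⟨[a0, a63, a106], [a70, a42, a225], (M a48 (F (T t309 (L l273 (T t551 (L l28 (T t579 N)))))))⟩
def e0_63_106__70_42_221 : Ent 4 := ⟨[a0, a63, a106], [a70, a42, a226], (M a48 (F (T t304 (L l28 (T t579 (T t551 N))))))⟩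
def e0_63_106__70_42_222 : Ent 4 := ⟨[a0, a63, a106], [a70, a42, a227], (M a48 (F (T t309 (T t551 (L l28 (L l380 (T t579 N)))))))⟩
def e0_63_106__70_42_223 : Ent 4 := ⟨[a0, a63, a106], [a70, a42, a228], (M a48 (F (T t309 (L l298 (T t551 (L l28 (T t579 N)))))))⟩
def e0_63_106__70_42_224 : Ent 4 := ⟨[a0, a63, a106], [a70, a42, a229], (M a48 (F (T t309 (L l28 (T t2289 (L l28 (T t579 N)))))))⟩
def e0_63_106__70_42_225 : Ent 4 := ⟨[a0, a63, a106], [a70, a42, a230], (M a48 (F (T t309 (T t551 (L l28 (T t579 N))))))⟩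
def e0_63_106__70_42_226 : Ent 4 := ⟨[a0, a63, a106], [a70, a42, a231], (M a48 (F (T t309 (T t551 (L l28 (T t579 N))))))⟩
def e0_63_106__70_42_227 : Ent 4 := ⟨[a0, a63, a106], [a70, a42, a232], (M a48 (F (T t304 (L l28 (T t579 (T t551 N))))))⟩
def e0_63_106__70_42_228 : Ent 4 := ⟨[a0, a63, a106], [a70, a42, a233], (M a48 (F (T t309 (T t551 (L l28 (T t579 N))))))⟩
def e0_63_106__70_42_229 : Ent 4 := ⟨[a0, a63, a106], [a70, a42, a234], (M a48 (F (T t578 (L l28 (L l282 (T t579 (T t551 N)))))))⟩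
def e0_63_106__70_42_230 : Ent 4 := ⟨[a0, a63, a106], [a70, a42, a235], (M a48 (F (T t309 (T t551 (L l28 (T t579 N))))))⟩
def e0_63_106__70_42_231 : Ent 4 := ⟨[a0, a63, a106], [a70, a42, a236], (M a48 (F (T t309 (T t551 (L l28 (L l400 (T t579 N)))))))⟩
def e0_63_106__70_42_232 : Ent 4 := ⟨[a0, a63, a106], [a70, a42, a237], (M a48 (F (T t309 (T t551 (L l28 (T t579 N))))))⟩
def e0_63_106__70_42_233 : Ent 4 := ⟨[a0, a63, a106], [a70, a42, a238], (M a48 (F (T t309 (T t551 (L l28 (T t579 N))))))⟩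
def e0_63_106__70_42_234 : Ent 4 := ⟨[a0, a63, a106], [a70, a42, a239], (M a48 (F (T t309 (T t551 (L l28 (L l289 (L l404 (T t579 N))))))))⟩
def e0_63_106__70_42_235 : Ent 4 := ⟨[a0, a63, a106], [a70, a42, a240], (M a12 (F (T t2419 (L l298 (L l333 (T t2305 (L l56 (T t2415 N))))))))⟩
def e0_63_106__70_42_236 : Ent 4 := ⟨[a0, a63, a106], [a70, a42, a241], (M a48 (F (T t309 (L l258 (T t551 (L l28 (T t579 N)))))))⟩
def e0_63_106__70_42_237 : Ent 4 := ⟨[a0, a63, a106], [a70, a42, a242], (M a48 (F (T t309 (L l258 (T t551 (L l28 (T t579 N)))))))⟩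
def e0_63_106__70_42_238 : Ent 4 := ⟨[a0, a63, a106], [a70, a42, a243], (M a48 (F (T t585 (L l258 (T t551 (L l28 (T t579 N)))))))⟩
def e0_63_106__70_42_239 : Ent 4 := ⟨[a0, a63, a106], [a70, a42, a244], (M a48 (F (T t309 (L l262 (T t551 (L l28 (T t579 N)))))))⟩
def e0_63_106__70_42_240 : Ent 4 := ⟨[a0, a63, a106], [a70, a42, a245], (M a48 (F (T t578 (L l28 (L l419 (T t579 (L l266 (T t551 N))))))))⟩
def e0_63_106__70_42_241 : Ent 4 := ⟨[a0, a63, a106], [a70, a42, a246], (M a48 (F (T t309 (T t551 (L l28 (T t579 N))))))⟩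
def e0_63_106__70_42_242 : Ent 4 := ⟨[a0, a63, a106], [a70, a42, a247], (M a48 (F (T t309 (T t551 (L l28 (T t579 N))))))⟩
def e0_63_106__70_42_243 : Ent 4 := ⟨[a0, a63, a106], [a70, a42, a248], (M a48 (F (T t309 (L l262 (T t551 (L l28 (T t579 N)))))))⟩
def e0_63_106__70_42_244 : Ent 4 := ⟨[a0, a63, a106], [a70, a42, a249], (M a48 (F (T t309 (T t551 (L l28 (T t579 N))))))⟩
def e0_63_106__70_42_245 : Ent 4 := ⟨[a0, a63, a106], [a70, a42, a250], (M a48 (F (T t578 (L l28 (L l282 (T t579 (L l266 (T t551 N))))))))⟩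
def e0_63_106__70_42_246 : Ent 4 := ⟨[a0, a63, a106], [a70, a42, a251], (M a48 (F (T t309 (T t551 (L l28 (T t579 N))))))⟩
def e0_63_106__70_42_247 : Ent 4 := ⟨[a0, a63, a106], [a70, a42, a252], (M a48 (F (T t585 (L l262 (T t551 (L l28 (T t579 N)))))))⟩
def e0_63_106__70_42_248 : Ent 4 := ⟨[a0, a63, a106], [a70, a42, a253], (M a48 (F (T t309 (T t551 (L l28 (T t579 N))))))⟩
def e0_63_106__70_42_249 : Ent 4 := ⟨[a0, a63, a106], [a70, a42, a254], (M a48 (F (T t309 (T t551 (L l28 (T t579 N))))))⟩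
def e0_63_106__70_42_250 : Ent 4 := ⟨[a0, a63, a106], [a70, a42, a255], (M a48 (F (T t585 (L l266 (T t551 (L l28 (L l469 (T t6526 (L l28 (L l289 (T t6527 N)))))))))))⟩
def b0_63_106__70_42 : Blk 4 := ⟨[0, 63, 106], [70, 42], [1, 2, 3, 4, 5, 6, 7, 8, 9, 10, 11, 12, 13, 14, 15, 16, 17, 18, 19, 20, 21, 22, 23, 24, 25, 26, 27, 28, 29, 30, 31, 32, 33, 34, 35, 36, 37, 38, 39, 40, 41, 43, 44, 45, 46, 47, 48, 49, 50, 51, 52, 53, 54, 55, 56, 57, 58, 59, 60, 61, 62, 64, 65, 66, 67, 68, 69, 71, 72, 73, 74, 75, 76, 77, 78, 79, 80, 81, 82, 83, 84, 85, 86, 87, 88, 89, 90, 91, 92, 93, 94, 95, 96, 97, 98, 99, 100, 101, 102, 103, 104, 105, 107, 108, 109, 110, 111, 112, 113, 114, 115, 116, 117, 118, 119, 120, 121, 122, 123, 124, 125, 126, 127, 128, 129, 130, 131, 132, 133, 134, 135, 136, 137, 138, 139, 140, 141, 142, 143, 144, 145, 146, 147, 148, 149, 150, 151, 152, 153, 154, 155, 156, 157, 158, 159, 160, 161, 162,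 163, 164, 165, 166, 167, 168, 169, 170, 171, 172, 173, 174, 175, 176, 177, 178, 179, 180, 181, 182, 183, 184, 185, 186, 187, 188, 189, 190, 191, 192, 193, 194, 195, 196, 197, 198, 199, 200, 201, 202, 203, 204, 205, 206, 207, 208, 209, 210, 211, 212, 213, 214, 215, 216, 217, 218, 219, 220, 221, 222, 223, 224, 225, 226, 227, 228, 229, 230, 231, 232, 233, 234, 235, 236, 237, 238, 239, 240, 241, 242, 243, 244, 245, 246, 247, 248, 249, 250, 251, 252, 253, 254, 255], [e0_63_106__70_42_0, e0_63_106__70_42_1, e0_63_106__70_42_2, e0_63_106__70_42_3, e0_63_106__70_42_4, e0_63_106__70_42_5, e0_63_106__70_42_6, e0_63_106__70_42_7, e0_63_106__70_42_8, e0_63_106__70_42_9, e0_63_106__70_42_10, e0_63_106__70_42_11, e0_63_106__70_42_12, e0_63_106__70_42_13, e0_63_106__70_42_14, e0_63_106__70_42_15, e0_63_106__70_42_16, e0_63_106__70_42_17, e0_63_106__70_42_18, e0_63_106__70_42_19, e0_63_106__70_42_20, e0_63_106__70_42_21,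 e0_63_106__70_42_22, e0_63_106__70_42_23, e0_63_106__70_42_24, e0_63_106__70_42_25, e0_63_106__70_42_26, e0_63_106__70_42_27, e0_63_106__70_42_28, e0_63_106__70_42_29, e0_63_106__70_42_30, e0_63_106__70_42_31, e0_63_106__70_42_32, e0_63_106__70_42_33, e0_63_106__70_42_34, e0_63_106__70_42_35, e0_63_106__70_42_36, e0_63_106__70_42_37, e0_63_106__70_42_38, e0_63_106__70_42_39, e0_63_106__70_42_40, e0_63_106__70_42_41, e0_63_106__70_42_42, e0_63_106__70_42_43, e0_63_106__70_42_44, e0_63_106__70_42_45, e0_63_106__70_42_46, e0_63_106__70_42_47, e0_63_106__70_42_48, e0_63_106__70_42_49, e0_63_106__70_42_50, e0_63_106__70_42_51, e0_63_106__70_42_52, e0_63_106__70_42_53, e0_63_106__70_42_54, e0_63_106__70_42_55, e0_63_106__70_42_56, e0_63_106__70_42_57, e0_63_106__70_42_58, e0_63_106__70_42_59, e0_63_106__70_42_60, e0_63_106__70_42_61, e0_63_106__70_42_62, e0_63_106__70_42_63, e0_63_106__70_42_64, e0_63_106__70_42_65,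 e0_63_106__70_42_66, e0_63_106__70_42_67, e0_63_106__70_42_68, e0_63_106__70_42_69, e0_63_106__70_42_70, e0_63_106__70_42_71, e0_63_106__70_42_72, e0_63_106__70_42_73, e0_63_106__70_42_74, e0_63_106__70_42_75, e0_63_106__70_42_76, e0_63_106__70_42_77, e0_63_106__70_42_78, e0_63_106__70_42_79, e0_63_106__70_42_80, e0_63_106__70_42_81, e0_63_106__70_42_82, e0_63_106__70_42_83, e0_63_106__70_42_84, e0_63_106__70_42_85, e0_63_106__70_42_86, e0_63_106__70_42_87, e0_63_106__70_42_88, e0_63_106__70_42_89, e0_63_106__70_42_90, e0_63_106__70_42_91, e0_63_106__70_42_92, e0_63_106__70_42_93, e0_63_106__70_42_94, e0_63_106__70_42_95, e0_63_106__70_42_96, e0_63_106__70_42_97, e0_63_106__70_42_98, e0_63_106__70_42_99, e0_63_106__70_42_100, e0_63_106__70_42_101, e0_63_106__70_42_102, e0_63_106__70_42_103, e0_63_106__70_42_104, e0_63_106__70_42_105, e0_63_106__70_42_106, e0_63_106__70_42_107, e0_63_106__70_42_108,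 e0_63_106__70_42_109, e0_63_106__70_42_110, e0_63_106__70_42_111, e0_63_106__70_42_112, e0_63_106__70_42_113, e0_63_106__70_42_114, e0_63_106__70_42_115, e0_63_106__70_42_116, e0_63_106__70_42_117, e0_63_106__70_42_118, e0_63_106__70_42_119, e0_63_106__70_42_120, e0_63_106__70_42_121, e0_63_106__70_42_122, e0_63_106__70_42_123, e0_63_106__70_42_124, e0_63_106__70_42_125, e0_63_106__70_42_126, e0_63_106__70_42_127, e0_63_106__70_42_128, e0_63_106__70_42_129, e0_63_106__70_42_130, e0_63_106__70_42_131, e0_63_106__70_42_132, e0_63_106__70_42_133, e0_63_106__70_42_134, e0_63_106__70_42_135, e0_63_106__70_42_136, e0_63_106__70_42_137, e0_63_106__70_42_138, e0_63_106__70_42_139, e0_63_106__70_42_140, e0_63_106__70_42_141, e0_63_106__70_42_142, e0_63_106__70_42_143, e0_63_106__70_42_144, e0_63_106__70_42_145, e0_63_106__70_42_146, e0_63_106__70_42_147, e0_63_106__70_42_148, e0_63_106__70_42_149, e0_63_106__70_42_150,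 e0_63_106__70_42_151, e0_63_106__70_42_152, e0_63_106__70_42_153, e0_63_106__70_42_154, e0_63_106__70_42_155, e0_63_106__70_42_156, e0_63_106__70_42_157, e0_63_106__70_42_158, e0_63_106__70_42_159, e0_63_106__70_42_160, e0_63_106__70_42_161, e0_63_106__70_42_162, e0_63_106__70_42_163, e0_63_106__70_42_164, e0_63_106__70_42_165, e0_63_106__70_42_166, e0_63_106__70_42_167, e0_63_106__70_42_168, e0_63_106__70_42_169, e0_63_106__70_42_170, e0_63_106__70_42_171, e0_63_106__70_42_172, e0_63_106__70_42_173, e0_63_106__70_42_174, e0_63_106__70_42_175, e0_63_106__70_42_176, e0_63_106__70_42_177, e0_63_106__70_42_178, e0_63_106__70_42_179, e0_63_106__70_42_180, e0_63_106__70_42_181, e0_63_106__70_42_182, e0_63_106__70_42_183, e0_63_106__70_42_184, e0_63_106__70_42_185, e0_63_106__70_42_186, e0_63_106__70_42_187, e0_63_106__70_42_188, e0_63_106__70_42_189, e0_63_106__70_42_190, e0_63_106__70_42_191, e0_63_106__70_42_192,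 e0_63_106__70_42_193, e0_63_106__70_42_194, e0_63_106__70_42_195, e0_63_106__70_42_196, e0_63_106__70_42_197, e0_63_106__70_42_198, e0_63_106__70_42_199, e0_63_106__70_42_200, e0_63_106__70_42_201, e0_63_106__70_42_202, e0_63_106__70_42_203, e0_63_106__70_42_204, e0_63_106__70_42_205, e0_63_106__70_42_206, e0_63_106__70_42_207, e0_63_106__70_42_208, e0_63_106__70_42_209, e0_63_106__70_42_210, e0_63_106__70_42_211, e0_63_106__70_42_212, e0_63_106__70_42_213, e0_63_106__70_42_214, e0_63_106__70_42_215, e0_63_106__70_42_216, e0_63_106__70_42_217, e0_63_106__70_42_218, e0_63_106__70_42_219, e0_63_106__70_42_220, e0_63_106__70_42_221, e0_63_106__70_42_222, e0_63_106__70_42_223, e0_63_106__70_42_224, e0_63_106__70_42_225, e0_63_106__70_42_226, e0_63_106__70_42_227, e0_63_106__70_42_228, e0_63_106__70_42_229, e0_63_106__70_42_230, e0_63_106__70_42_231, e0_63_106__70_42_232, e0_63_106__70_42_233, e0_63_106__70_42_234,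 e0_63_106__70_42_235, e0_63_106__70_42_236, e0_63_106__70_42_237, e0_63_106__70_42_238, e0_63_106__70_42_239, e0_63_106__70_42_240, e0_63_106__70_42_241, e0_63_106__70_42_242, e0_63_106__70_42_243, e0_63_106__70_42_244, e0_63_106__70_42_245, e0_63_106__70_42_246, e0_63_106__70_42_247, e0_63_106__70_42_248, e0_63_106__70_42_249, e0_63_106__70_42_250], by decide +kernel, by decide +kernel⟩
def e0_63_106__71_42_0 : Ent 4 := ⟨[a0, a63, a106], [a71, a42, a1], (M a48 (F (T t309 (T t551 (L l28 (T t579 N))))))⟩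
def e0_63_106__71_42_1 : Ent 4 := ⟨[a0, a63, a106], [a71, a42, a2], (M a48 (L l66 (F (T t309 (T t551 (L l28 (T t579 (K a22 (M a62 (F (T t309 (L l22 (L l306 (T t5926 N)))))) (K a62 (M a22 (F (T t309 (T t551 (L l28 (T t579 N)))))) N)))))))))⟩
def e0_63_106__71_42_2 : Ent 4 := ⟨[a0, a63, a106], [a71, a42, a3], (M a207 (F (T t6739 (L l7 (T t6701 (T t6702 N))))))⟩
def e0_63_106__71_42_3 : Ent 4 := ⟨[a0, a63, a106], [a71, a42, a4], (M a48 (F (T t309 (T t551 (L l28 (T t579 N))))))⟩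
def e0_63_106__71_42_4 : Ent 4 := ⟨[a0, a63, a106], [a71, a42, a5], (M a48 (F (L l47 (T t309 (T t551 (L l28 (L l47 (T t579 N))))))))⟩
def e0_63_106__71_42_5 : Ent 4 := ⟨[a0, a63, a106], [a71, a42, a6], (M a48 (F (T t309 (T t551 (L l28 (T t579 N))))))⟩
def e0_63_106__71_42_6 : Ent 4 := ⟨[a0, a63, a106], [a71, a42, a7], (M a48 (L l313 (F (T t309 (T t551 (L l28 (T t579 (K a135 (M a199 (F (T t309 (T t551 (L l28 (T t579 N)))))) (K a199 (M a135 (F (T t309 (T t551 (L l28 (T t579 N)))))) N)))))))))⟩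
def e0_63_106__71_42_7 : Ent 4 := ⟨[a0, a63, a106], [a71, a42, a8], (M a48 (L l56 (F (T t309 (T t551 (L l28 (T t579 (K a25 (M a59 (F (T t309 (L l26 (L l316 (T t6445 N)))))) (K a59 (M a25 (F (T t309 (T t551 (L l28 (T t579 N)))))) N)))))))))⟩
def e0_63_106__71_42_8 : Ent 4 := ⟨[a0, a63, a106], [a71, a42, a9], (M a48 (F (T t309 (T t551 (L l28 (T t579 N))))))⟩
def e0_63_106__71_42_9 : Ent 4 := ⟨[a0, a63, a106], [a71, a42, a10], (M a48 (L l54 (F (T t2348 (L l28 (L l318 (T t579 (T t551 (K a26 (Fr a58 a53 l38 (V t6446)) (K a58 (M a26 (F (L l28 (T t4144 (T t551 (L l28 (L l426 (T t6447 (K a32 (Fr a192 a149 l519 (Fr a15 a37 l75 (Fr a47 a31 l61 (V t6528)))) N))))))))) N))))))))))⟩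
def e0_63_106__71_42_10 : Ent 4 := ⟨[a0, a63, a106], [a71, a42, a11], (M a48 (F (T t309 (T t551 (L l28 (T t579 N))))))⟩
def e0_63_106__71_42_11 : Ent 4 := ⟨[a0, a63, a106], [a71, a42, a12], (M a48 (F (T t5173 (L l28 (T t579 (L l478 (T t551 N)))))))⟩
def e0_63_106__71_42_12 : Ent 4 := ⟨[a0, a63, a106], [a71, a42, a13], (M a48 (F (T t309 (T t551 (L l28 (T t579 N))))))⟩
def e0_63_106__71_42_13 : Ent 4 := ⟨[a0, a63, a106], [a71, a42, a14], (M a48 (F (T t309 (T t551 (L l28 (T t579 N))))))⟩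
def e0_63_106__71_42_14 : Ent 4 := ⟨[a0, a63, a106], [a71, a42, a15], (M a48 (F (T t5173 (L l28 (T t579 (L l483 (T t551 N)))))))⟩
def e0_63_106__71_42_15 : Ent 4 := ⟨[a0, a63, a106], [a71, a42, a16], (M a240 (F (T t4786 (L l340 (T t4780 (T t4781 N))))))⟩
def e0_63_106__71_42_16 : Ent 4 := ⟨[a0, a63, a106], [a71, a42, a17], (M a48 (F (T t309 (T t551 (L l28 (T t579 N))))))⟩
def e0_63_106__71_42_17 : Ent 4 := ⟨[a0, a63, a106], [a71, a42, a18], (M a48 (F (T t309 (T t551 (L l28 (T t579 N))))))⟩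
def e0_63_106__71_42_18 : Ent 4 := ⟨[a0, a63, a106], [a71, a42, a19], (M a48 (F (T t309 (T t551 (L l28 (L l367 (T t579 N)))))))⟩
def e0_63_106__71_42_19 : Ent 4 := ⟨[a0, a63, a106], [a71, a42, a20], (M a48 (F (T t309 (T t551 (L l28 (T t579 N))))))⟩
def e0_63_106__71_42_20 : Ent 4 := ⟨[a0, a63, a106], [a71, a42, a21], (M a48 (F (L l47 (T t309 (L l347 (T t551 (L l28 (L l47 (T t579 N)))))))))⟩
def e0_63_106__71_42_21 : Ent 4 := ⟨[a0, a63, a106], [a71, a42, a22], (M a48 (L l66 (F (T t309 (T t551 (L l28 (T t579 (K a2 (M a62 (F (T t309 (L l22 (L l306 (T t5926 N)))))) (K a62 (M a2 (F (T t309 (L l19 (L l28 (T t342 N)))))) N)))))))))⟩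
def e0_63_106__71_42_22 : Ent 4 := ⟨[a0, a63, a106], [a71, a42, a23], (M a48 (F (T t309 (L l351 (T t551 (L l28 (T t579 N)))))))⟩
def e0_63_106__71_42_23 : Ent 4 := ⟨[a0, a63, a106], [a71, a42, a24], (M a48 (F (T t309 (T t551 (L l28 (T t579 N))))))⟩
def e0_63_106__71_42_24 : Ent 4 := ⟨[a0, a63, a106], [a71, a42, a25], (M a48 (L l56 (F (T t309 (T t551 (L l28 (T t579 (K a8 (M a59 (F (T t309 (L l26 (L l316 (T t6445 N)))))) (K a59 (M a8 (F (T t309 (L l19 (L l28 (T t4700 N)))))) N)))))))))⟩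
def e0_63_106__71_42_25 : Ent 4 := ⟨[a0, a63, a106], [a71, a42, a26], (M a48 (L l54 (F (T t309 (L l28 (T t579 (T t551 (K a10 (Fr a58 a53 l38 (V t6446)) (K a58 (M a10 (F (L l28 (T t2289 (L l331 (T t4033 (L l18 (L l354 (T t6449 (L l18 (L l426 (T t6450 N)))))))))))) N)))))))))⟩
def e0_63_106__71_42_26 : Ent 4 := ⟨[a0, a63, a106], [a71, a42, a27], (M a48 (F (T t309 (T t551 (L l28 (T t579 N))))))⟩
def e0_63_106__71_42_27 : Ent 4 := ⟨[a0, a63, a106], [a71, a42, a28], (M a48 (F (T t309 (T t551 (L l28 (L l362 (T t579 N)))))))⟩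
def e0_63_106__71_42_28 : Ent 4 := ⟨[a0, a63, a106], [a71, a42, a29], (M a48 (F (T t309 (L l371 (T t551 (L l28 (T t579 N)))))))⟩
def e0_63_106__71_42_29 : Ent 4 := ⟨[a0, a63, a106], [a71, a42, a30], (M a48 (F (T t309 (T t551 (L l28 (T t579 N))))))⟩
def e0_63_106__71_42_30 : Ent 4 := ⟨[a0, a63, a106], [a71, a42, a31], (M a48 (F (T t309 (L l375 (T t551 (L l28 (L l361 (T t579 N))))))))⟩
def e0_63_106__71_42_31 : Ent 4 := ⟨[a0, a63, a106], [a71, a42, a32], (M a240 (L l28 (F (T t6609 (L l376 (T t6588 (L l376 (T t4781 (K a37 (M a47 (F (T t6602 (T t6698 (T t6604 N))))) (K a47 (M a37 (F (L l376 (T t6588 (L l54 (T t6699 (L l376 (T t4781 N)))))))) N))))))))))⟩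
def e0_63_106__71_42_32 : Ent 4 := ⟨[a0, a63, a106], [a71, a42, a33], (M a48 (F (T t309 (T t551 (L l20 (L l28 (T t579 N)))))))⟩
def e0_63_106__71_42_33 : Ent 4 := ⟨[a0, a63, a106], [a71, a42, a34], (M a48 (L l26 (F (T t309 (T t551 (L l20 (L l28 (T t579 (K a38 (M a46 (F (T t309 (L l56 (L l378 (T t4030 N)))))) (K a46 (M a38 (F (T t309 (T t551 (L l20 (L l28 (T t579 N))))))) N))))))))))⟩
def e0_63_106__71_42_34 : Ent 4 := ⟨[a0, a63, a106], [a71, a42, a35], (M a48 (F (T t309 (T t551 (L l20 (L l28 (T t579 N)))))))⟩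
def e0_63_106__71_42_35 : Ent 4 := ⟨[a0, a63, a106], [a71, a42, a36], (M a48 (F (T t309 (T t551 (L l24 (L l28 (T t579 N)))))))⟩
def e0_63_106__71_42_36 : Ent 4 := ⟨[a0, a63, a106], [a71, a42, a37], (M a240 (L l28 (F (T t4786 (T t6606 (T t4781 (K a32 (M a47 (F (T t6602 (T t6698 (T t6604 N))))) (K a47 (M a32 (F (T t6607 (T t4781 (L l54 (T t6608 N)))))) N))))))))⟩
def e0_63_106__71_42_37 : Ent 4 := ⟨[a0, a63, a106], [a71, a42, a38], (M a48 (L l26 (F (T t309 (T t551 (L l28 (T t579 (K a34 (M a46 (F (T t309 (L l56 (L l378 (T t4030 N)))))) (K a46 (M a34 (F (T t309 (L l28 (L l72 (L l74 (T t6555 N))))))) N)))))))))⟩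
def e0_63_106__71_42_38 : Ent 4 := ⟨[a0, a63, a106], [a71, a42, a39], (M a48 (F (T t309 (T t551 (L l28 (T t579 N))))))⟩
def e0_63_106__71_42_39 : Ent 4 := ⟨[a0, a63, a106], [a71, a42, a40], (M a48 (L l22 (F (T t309 (T t551 (L l24 (L l28 (T t579 (K a41 (M a43 (F (T t309 (L l66 (L l388 (T t6451 N)))))) (K a43 (M a41 (F (T t309 (T t551 (L l24 (L l28 (T t579 N))))))) N))))))))))⟩
def e0_63_106__71_42_40 : Ent 4 := ⟨[a0, a63, a106], [a71, a42, a41], (M a48 (L l22 (F (T t309 (T t551 (L l28 (T t579 (K a40 (M a43 (F (T t309 (L l66 (L l388 (T t6451 N)))))) (K a43 (M a40 (F (T t309 (L l29 (L l69 (T t6452 N)))))) N)))))))))⟩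
def e0_63_106__71_42_41 : Ent 4 := ⟨[a0, a63, a106], [a71, a42, a43], (M a48 (L l22 (F (T t309 (T t551 (L l28 (T t579 (K a40 (M a41 (F (T t309 (T t551 (L l24 (L l28 (T t579 N))))))) (K a41 (M a40 (F (T t309 (L l29 (L l69 (T t6452 N)))))) N)))))))))⟩
def e0_63_106__71_42_42 : Ent 4 := ⟨[a0, a63, a106], [a71, a42, a44], (M a48 (F (T t309 (T t551 (L l24 (L l28 (T t579 N)))))))⟩
def e0_63_106__71_42_43 : Ent 4 := ⟨[a0, a63, a106], [a71, a42, a45], (M a48 (F (T t309 (T t551 (L l28 (T t579 N))))))⟩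
def e0_63_106__71_42_44 : Ent 4 := ⟨[a0, a63, a106], [a71, a42, a46], (M a48 (L l26 (F (T t309 (T t551 (L l28 (T t579 (K a34 (M a38 (F (T t309 (T t551 (L l20 (L l28 (T t579 N))))))) (K a38 (M a34 (F (T t309 (L l28 (L l72 (L l74 (T t6555 N))))))) N)))))))))⟩
def e0_63_106__71_42_45 : Ent 4 := ⟨[a0, a63, a106], [a71, a42, a47], (M a12 (L l28 (F (T t2304 (T t2305 (L l56 (T t2415 (K a32 (M a37 (F (T t2416 (L l56 (T t2415 (T t2305 N)))))) (K a37 (M a32 (F (T t2304 (L l51 (L l56 (T t682 N)))))) N)))))))))⟩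
def e0_63_106__71_42_46 : Ent 4 := ⟨[a0, a63, a106], [a71, a42, a48], (M a12 (F (T t2419 (L l508 (T t2305 (L l56 (T t2415 N)))))))⟩
def e0_63_106__71_42_47 : Ent 4 := ⟨[a0, a63, a106], [a71, a42, a49], (M a48 (F (L l35 (T t309 (T t551 (L l28 (L l35 (T t579 N))))))))⟩
def e0_63_106__71_42_48 : Ent 4 := ⟨[a0, a63, a106], [a71, a42, a50], (M a48 (F (T t309 (T t551 (L l28 (T t579 N))))))⟩
def e0_63_106__71_42_49 : Ent 4 := ⟨[a0, a63, a106], [a71, a42, a51], (M a48 (F (T t5173 (L l28 (T t579 (L l417 (T t551 N)))))))⟩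
def e0_63_106__71_42_50 : Ent 4 := ⟨[a0, a63, a106], [a71, a42, a52], (M a48 (F (L l31 (T t309 (T t551 (L l28 (L l31 (T t579 N))))))))⟩
def e0_63_106__71_42_51 : Ent 4 := ⟨[a0, a63, a106], [a71, a42, a53], (M a240 (F (T t4786 (L l491 (T t817 (L l419 (T t4781 N)))))))⟩
def e0_63_106__71_42_52 : Ent 4 := ⟨[a0, a63, a106], [a71, a42, a54], (M a48 (F (L l31 (T t309 (T t551 (L l28 (L l31 (T t579 N))))))))⟩
def e0_63_106__71_42_53 : Ent 4 := ⟨[a0, a63, a106], [a71, a42, a55], (M a48 (F (L l31 (T t309 (L l495 (T t551 (L l28 (L l31 (T t579 N)))))))))⟩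
def e0_63_106__71_42_54 : Ent 4 := ⟨[a0, a63, a106], [a71, a42, a56], (M a48 (F (T t309 (T t551 (L l28 (T t579 N))))))⟩
def e0_63_106__71_42_55 : Ent 4 := ⟨[a0, a63, a106], [a71, a42, a57], (M a48 (F (L l35 (T t309 (T t551 (L l28 (L l35 (T t579 N))))))))⟩
def e0_63_106__71_42_56 : Ent 4 := ⟨[a0, a63, a106], [a71, a42, a58], (M a240 (L l54 (F (T t4779 (T t817 (T t4781 (K a10 (M a26 (F (L l28 (T t815 (L l318 (T t4781 (T t817 N))))))) (K a26 (M a10 (F (T t6609 (T t6610 (L l18 (T t6611 N)))))) N))))))))⟩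
def e0_63_106__71_42_57 : Ent 4 := ⟨[a0, a63, a106], [a71, a42, a59], (M a48 (L l56 (F (T t309 (T t551 (L l28 (T t579 (K a8 (M a25 (F (T t309 (T t551 (L l28 (T t579 N)))))) (K a25 (M a8 (F (T t309 (L l19 (L l28 (T t4700 N)))))) N)))))))))⟩
def e0_63_106__71_42_58 : Ent 4 := ⟨[a0, a63, a106], [a71, a42, a60], (M a48 (F (T t5173 (L l28 (T t579 (L l442 (T t551 N)))))))⟩
def e0_63_106__71_42_59 : Ent 4 := ⟨[a0, a63, a106], [a71, a42, a61], (M a48 (F (L l35 (T t309 (L l515 (T t551 (L l28 (L l35 (T t579 N)))))))))⟩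
def e0_63_106__71_42_60 : Ent 4 := ⟨[a0, a63, a106], [a71, a42, a62], (M a48 (L l66 (F (T t309 (T t551 (L l28 (T t579 (K a2 (M a22 (F (T t309 (T t551 (L l28 (T t579 N)))))) (K a22 (M a2 (F (T t309 (L l19 (L l28 (T t342 N)))))) N)))))))))⟩
def e0_63_106__71_42_61 : Ent 4 := ⟨[a0, a63, a106], [a71, a42, a64], (M a48 (F (T t309 (L l28 (T t6594 (L l28 (L l331 (T t6455 (L l28 (L l77 (L l84 (T t6457 (L l54 (T t6458 (K a207 (Fr a192 a149 l519 (Fr a96 a144 l484 (Fr a101 a111 l104 (Fr a32 a16 l40 (V t6459))))) N)))))))))))))))⟩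
def e0_63_106__71_42_62 : Ent 4 := ⟨[a0, a63, a106], [a71, a42, a65], (M a48 (F (T t309 (L l76 (T t551 (L l28 (L l76 (T t579 N))))))))⟩
def e0_63_106__71_42_63 : Ent 4 := ⟨[a0, a63, a106], [a71, a42, a66], (M a48 (F (T t5173 (L l28 (L l76 (T t579 (L l76 (T t551 N))))))))⟩
def e0_63_106__71_42_64 : Ent 4 := ⟨[a0, a63, a106], [a71, a42, a67], (M a48 (L l83 (F (T t309 (L l76 (T t551 (L l28 (L l76 (T t579 (K a75 (M a79 (F (T t309 (L l76 (T t551 (L l28 (L l76 (T t579 N)))))))) (K a79 (M a75 (F (T t309 (L l76 (L l84 (T t551 (L l28 (L l76 (L l84 (T t579 N)))))))))) N)))))))))))⟩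
def e0_63_106__71_42_65 : Ent 4 := ⟨[a0, a63, a106], [a71, a42, a68], (M a48 (L l77 (F (T t309 (L l80 (T t551 (L l28 (L l80 (T t579 (K a69 (M a70 (F (T t309 (L l80 (L l84 (T t551 (L l28 (L l80 (L l84 (T t579 N)))))))))) (K a70 (M a69 (F (T t309 (L l330 (T t446 (L l80 (T t551 N))))))) N)))))))))))⟩
def e0_63_106__71_42_66 : Ent 4 := ⟨[a0, a63, a106], [a71, a42, a69], (M a48 (L l77 (F (T t309 (L l84 (T t551 (L l28 (L l84 (T t579 (K a68 (M a70 (F (T t309 (L l80 (L l84 (T t551 (L l28 (L l80 (L l84 (T t579 N)))))))))) (K a70 (M a68 (F (T t309 (T t1476 N)))) N)))))))))))⟩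
def e0_63_106__71_42_67 : Ent 4 := ⟨[a0, a63, a106], [a71, a42, a70], (M a48 (L l77 (F (T t309 (T t551 (L l28 (T t579 (K a68 (M a69 (F (T t309 (L l330 (T t446 (L l80 (T t551 N))))))) (K a69 (M a68 (F (T t309 (T t1476 N)))) N)))))))))⟩
def e0_63_106__71_42_68 : Ent 4 := ⟨[a0, a63, a106], [a71, a42, a72], (M a48 (F (T t5173 (L l28 (L l80 (T t579 (L l80 (T t551 N))))))))⟩
def e0_63_106__71_42_69 : Ent 4 := ⟨[a0, a63, a106], [a71, a42, a73], (M a48 (F (T t309 (T t551 (L l28 (T t579 N))))))⟩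
def e0_63_106__71_42_70 : Ent 4 := ⟨[a0, a63, a106], [a71, a42, a74], (M a48 (F (T t2348 (L l28 (L l84 (L l318 (T t579 (L l84 (T t551 N)))))))))⟩
def e0_63_106__71_42_71 : Ent 4 := ⟨[a0, a63, a106], [a71, a42, a75], (M a48 (L l83 (F (T t309 (T t551 (L l28 (T t579 (K a67 (M a79 (F (T t309 (L l76 (T t551 (L l28 (L l76 (T t579 N)))))))) (K a79 (M a67 (F (T t309 (L l125 (T t6711 (L l28 (L l84 (T t579 N)))))))) N)))))))))⟩
def e0_63_106__71_42_72 : Ent 4 := ⟨[a0, a63, a106], [a71, a42, a76], (M a48 (F (T t309 (L l80 (T t551 (L l28 (L l80 (T t579 N))))))))⟩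
def e0_63_106__71_42_73 : Ent 4 := ⟨[a0, a63, a106], [a71, a42, a77], (M a48 (F (T t309 (T t551 (L l28 (T t579 N))))))⟩
def e0_63_106__71_42_74 : Ent 4 := ⟨[a0, a63, a106], [a71, a42, a78], (M a48 (F (T t309 (T t551 (L l28 (T t579 N))))))⟩
def e0_63_106__71_42_75 : Ent 4 := ⟨[a0, a63, a106], [a71, a42, a79], (M a48 (L l83 (F (T t309 (L l84 (T t551 (L l28 (L l84 (T t579 (K a67 (M a75 (F (T t309 (L l76 (L l84 (T t551 (L l28 (L l76 (L l84 (T t579 N)))))))))) (K a75 (M a67 (F (T t309 (L l125 (T t6711 (L l28 (L l84 (T t579 N)))))))) N)))))))))))⟩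
def e0_63_106__71_42_76 : Ent 4 := ⟨[a0, a63, a106], [a71, a42, a80], (M a12 (F (T t2304 (L l116 (T t2305 (L l56 (L l116 (T t2415 N))))))))⟩
def e0_63_106__71_42_77 : Ent 4 := ⟨[a0, a63, a106], [a71, a42, a81], (M a48 (F (T t309 (L l120 (T t551 (L l28 (L l120 (T t579 N))))))))⟩
def e0_63_106__71_42_78 : Ent 4 := ⟨[a0, a63, a106], [a71, a42, a82], (M a48 (F (T t309 (L l453 (T t551 (L l28 (T t579 N)))))))⟩
def e0_63_106__71_42_79 : Ent 4 := ⟨[a0, a63, a106], [a71, a42, a83], (M a48 (F (T t309 (T t551 (L l28 (T t579 N))))))⟩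
def e0_63_106__71_42_80 : Ent 4 := ⟨[a0, a63, a106], [a71, a42, a84], (M a48 (F (T t309 (L l140 (T t551 (L l28 (L l140 (T t579 N))))))))⟩
def e0_63_106__71_42_81 : Ent 4 := ⟨[a0, a63, a106], [a71, a42, a85], (M a48 (F (T t309 (L l347 (T t551 (L l54 (T t777 (L l331 (L l368 (T t6465 (K a192 (M a240 (F (T t6230 (L l236 (T t6471 (L l54 (L l236 (L l339 (T t6472 (L l83 (L l339 (T t6473 N)))))))))))) N)))))))))))⟩
def e0_63_106__71_42_82 : Ent 4 := ⟨[a0, a63, a106], [a71, a42, a86], (M a48 (L l127 (F (T t309 (L l351 (T t551 (L l28 (T t579 (K a116 (M a101 (F (T t6740 (L l351 (T t6741 N))))) (K a101 (M a116 (F (L l77 (T t2196 (L l28 (L l404 (L l491 (T t779 (L l145 (L l351 (L l491 (T t6742 N)))))))))))) N))))))))))⟩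
def e0_63_106__71_42_83 : Ent 4 := ⟨[a0, a63, a106], [a71, a42, a87], (M a48 (L l125 (F (T t309 (T t551 (L l28 (L l367 (T t579 (K a103 (M a119 (F (T t309 (T t551 (L l28 (L l367 (T t579 N))))))) (K a119 (M a103 (F (T t309 (T t551 (L l28 (L l367 (T t579 N))))))) N))))))))))⟩
def e0_63_106__71_42_84 : Ent 4 := ⟨[a0, a63, a106], [a71, a42, a88], (M a48 (F (T t309 (L l478 (T t551 (L l28 (T t579 N)))))))⟩
def e0_63_106__71_42_85 : Ent 4 := ⟨[a0, a63, a106], [a71, a42, a89], (M a48 (F (T t309 (L l371 (T t551 (L l28 (T t579 N)))))))⟩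
def e0_63_106__71_42_86 : Ent 4 := ⟨[a0, a63, a106], [a71, a42, a90], (M a48 (F (T t309 (L l375 (L l483 (T t551 (L l28 (T t579 N))))))))⟩
def e0_63_106__71_42_87 : Ent 4 := ⟨[a0, a63, a106], [a71, a42, a91], (M a48 (F (T t309 (T t551 (L l28 (T t579 N))))))⟩
def e0_63_106__71_42_88 : Ent 4 := ⟨[a0, a63, a106], [a71, a42, a92], (M a48 (F (T t309 (T t551 (L l28 (T t579 N))))))⟩
def e0_63_106__71_42_89 : Ent 4 := ⟨[a0, a63, a106], [a71, a42, a93], (M a48 (F (T t309 (T t551 (L l28 (L l362 (T t579 N)))))))⟩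
def e0_63_106__71_42_90 : Ent 4 := ⟨[a0, a63, a106], [a71, a42, a94], (M a48 (F (T t309 (T t551 (L l28 (T t579 N))))))⟩
def e0_63_106__71_42_91 : Ent 4 := ⟨[a0, a63, a106], [a71, a42, a95], (M a48 (F (T t309 (T t551 (L l28 (L l361 (T t579 N)))))))⟩
def e0_63_106__71_42_92 : Ent 4 := ⟨[a0, a63, a106], [a71, a42, a96], (M a12 (F (T t2414 (L l56 (L l116 (T t2415 (L l116 (T t2305 N))))))))⟩
def e0_63_106__71_42_93 : Ent 4 := ⟨[a0, a63, a106], [a71, a42, a97], (M a48 (F (T t309 (L l96 (T t551 (L l28 (L l380 (T t579 N))))))))⟩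
def e0_63_106__71_42_94 : Ent 4 := ⟨[a0, a63, a106], [a71, a42, a98], (M a48 (F (T t5173 (L l28 (L l120 (T t579 (L l96 (L l120 (T t551 N)))))))))⟩
def e0_63_106__71_42_95 : Ent 4 := ⟨[a0, a63, a106], [a71, a42, a99], (M a48 (F (T t309 (L l96 (T t551 (L l28 (T t579 N)))))))⟩
def e0_63_106__71_42_96 : Ent 4 := ⟨[a0, a63, a106], [a71, a42, a100], (M a48 (F (T t309 (L l100 (T t551 (L l28 (L l400 (T t579 N))))))))⟩
def e0_63_106__71_42_97 : Ent 4 := ⟨[a0, a63, a106], [a71, a42, a101], (M a240 (L l127 (F (T t4779 (L l491 (L l512 (T t817 (T t4781 (K a116 (M a86 (F (T t4779 (L l125 (T t6714 N))))) (K a86 (M a116 (F (T t4779 (L l351 (L l491 (L l512 (T t817 (T t4781 N)))))))) N))))))))))⟩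
def e0_63_106__71_42_98 : Ent 4 := ⟨[a0, a63, a106], [a71, a42, a102], (M a48 (F (T t309 (L l495 (T t551 (L l28 (T t579 N)))))))⟩
def e0_63_106__71_42_99 : Ent 4 := ⟨[a0, a63, a106], [a71, a42, a103], (M a48 (L l125 (F (T t309 (T t551 (L l28 (T t579 (K a87 (M a119 (F (T t309 (T t551 (L l28 (L l367 (T t579 N))))))) (K a119 (M a87 (F (T t309 (T t551 (L l28 (T t579 N)))))) N)))))))))⟩
def e0_63_106__71_42_100 : Ent 4 := ⟨[a0, a63, a106], [a71, a42, a104], (M a48 (F (T t5173 (L l28 (L l140 (T t579 (L l100 (L l140 (T t551 N)))))))))⟩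
def e0_63_106__71_42_101 : Ent 4 := ⟨[a0, a63, a106], [a71, a42, a105], (M a48 (F (T t309 (L l515 (T t551 (L l28 (T t579 N)))))))⟩
def e0_63_106__71_42_102 : Ent 4 := ⟨[a0, a63, a106], [a71, a42, a107], (M a48 (F (T t309 (T t551 (L l28 (T t579 N))))))⟩
def e0_63_106__71_42_103 : Ent 4 := ⟨[a0, a63, a106], [a71, a42, a108], (M a48 (F (T t309 (L l100 (T t551 (L l28 (T t579 N)))))))⟩
def e0_63_106__71_42_104 : Ent 4 := ⟨[a0, a63, a106], [a71, a42, a109], (M a48 (F (T t309 (T t551 (L l28 (T t579 N))))))⟩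
def e0_63_106__71_42_105 : Ent 4 := ⟨[a0, a63, a106], [a71, a42, a110], (M a48 (F (T t309 (T t551 (L l28 (T t579 N))))))⟩
def e0_63_106__71_42_106 : Ent 4 := ⟨[a0, a63, a106], [a71, a42, a111], (M a240 (F (T t4779 (T t817 (L l137 (T t4781 N))))))⟩
def e0_63_106__71_42_107 : Ent 4 := ⟨[a0, a63, a106], [a71, a42, a112], (M a48 (F (T t309 (L l28 (L l116 (T t6462 (L l28 (L l116 (T t579 N)))))))))⟩
def e0_63_106__71_42_108 : Ent 4 := ⟨[a0, a63, a106], [a71, a42, a113], (M a48 (F (T t309 (T t551 (L l28 (T t579 N))))))⟩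
def e0_63_106__71_42_109 : Ent 4 := ⟨[a0, a63, a106], [a71, a42, a114], (M a48 (F (T t309 (L l417 (T t551 (L l28 (T t579 N)))))))⟩
def e0_63_106__71_42_110 : Ent 4 := ⟨[a0, a63, a106], [a71, a42, a115], (M a48 (F (T t309 (L l120 (T t551 (L l28 (L l120 (T t579 N))))))))⟩
def e0_63_106__71_42_111 : Ent 4 := ⟨[a0, a63, a106], [a71, a42, a116], (M a48 (L l127 (F (T t309 (T t551 (L l28 (T t579 (K a101 (M a86 (F (T t6743 (L l28 (L l404 (L l491 (T t579 (L l125 (T t6714 N))))))))) (K a86 (M a101 (F (T t6740 (L l351 (T t6741 N))))) N)))))))))⟩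
def e0_63_106__71_42_112 : Ent 4 := ⟨[a0, a63, a106], [a71, a42, a117], (M a48 (F (L l419 (T t309 (T t551 (L l28 (L l419 (T t579 N))))))))⟩
def e0_63_106__71_42_113 : Ent 4 := ⟨[a0, a63, a106], [a71, a42, a118], (M a48 (F (T t309 (T t551 (L l28 (T t579 N))))))⟩
def e0_63_106__71_42_114 : Ent 4 := ⟨[a0, a63, a106], [a71, a42, a119], (M a48 (L l125 (F (T t309 (T t551 (L l28 (T t579 (K a87 (M a103 (F (T t309 (T t551 (L l28 (L l367 (T t579 N))))))) (K a103 (M a87 (F (T t309 (T t551 (L l28 (T t579 N)))))) N)))))))))⟩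
def e0_63_106__71_42_115 : Ent 4 := ⟨[a0, a63, a106], [a71, a42, a120], (M a48 (F (T t309 (L l442 (T t551 (L l28 (T t579 N)))))))⟩
def e0_63_106__71_42_116 : Ent 4 := ⟨[a0, a63, a106], [a71, a42, a121], (M a48 (F (T t309 (T t551 (L l28 (T t579 N))))))⟩
def e0_63_106__71_42_117 : Ent 4 := ⟨[a0, a63, a106], [a71, a42, a122], (M a48 (F (T t309 (T t551 (L l28 (T t579 N))))))⟩
def e0_63_106__71_42_118 : Ent 4 := ⟨[a0, a63, a106], [a71, a42, a123], (M a48 (F (T t309 (T t551 (L l28 (T t579 N))))))⟩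
def e0_63_106__71_42_119 : Ent 4 := ⟨[a0, a63, a106], [a71, a42, a124], (M a48 (F (T t309 (L l140 (T t551 (L l28 (L l140 (T t579 N))))))))⟩
def e0_63_106__71_42_120 : Ent 4 := ⟨[a0, a63, a106], [a71, a42, a125], (M a48 (F (T t309 (T t551 (L l28 (T t579 N))))))⟩
def e0_63_106__71_42_121 : Ent 4 := ⟨[a0, a63, a106], [a71, a42, a126], (M a48 (F (T t309 (T t551 (L l28 (T t579 N))))))⟩
def e0_63_106__71_42_122 : Ent 4 := ⟨[a0, a63, a106], [a71, a42, a127], (M a48 (F (T t309 (T t551 (L l28 (L l127 (T t6744 (L l28 (L l331 (T t6456 N))))))))))⟩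
def e0_63_106__71_42_123 : Ent 4 := ⟨[a0, a63, a106], [a71, a42, a128], (M a48 (F (L l127 (T t585 (L l28 (T t579 (L l192 (L l220 (L l331 (T t6480 (L l54 (L l160 (T t6481 N)))))))))))))⟩
def e0_63_106__71_42_124 : Ent 4 := ⟨[a0, a63, a106], [a71, a42, a129], (M a48 (F (L l309 (T t309 (L l217 (T t551 (L l28 (T t579 N))))))))⟩
def e0_63_106__71_42_125 : Ent 4 := ⟨[a0, a63, a106], [a71, a42, a130], (M a48 (F (T t309 (T t551 (L l28 (T t579 N))))))⟩
def e0_63_106__71_42_126 : Ent 4 := ⟨[a0, a63, a106], [a71, a42, a131], (M a48 (F (T t309 (L l197 (T t551 (L l28 (T t579 N)))))))⟩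
def e0_63_106__71_42_127 : Ent 4 := ⟨[a0, a63, a106], [a71, a42, a132], (M a48 (F (L l334 (T t309 (L l202 (T t551 (L l28 (T t579 N))))))))⟩
def e0_63_106__71_42_128 : Ent 4 := ⟨[a0, a63, a106], [a71, a42, a133], (M a48 (F (L l339 (T t309 (L l199 (T t551 (L l28 (T t579 N))))))))⟩
def e0_63_106__71_42_129 : Ent 4 := ⟨[a0, a63, a106], [a71, a42, a134], (M a48 (F (T t309 (T t551 (L l28 (T t579 N))))))⟩
def e0_63_106__71_42_130 : Ent 4 := ⟨[a0, a63, a106], [a71, a42, a135], (M a48 (L l313 (F (T t309 (T t551 (L l28 (T t579 (K a7 (M a199 (F (T t309 (T t551 (L l28 (T t579 N)))))) (K a199 (M a7 (F (T t309 (T t551 (L l28 (T t579 N)))))) N)))))))))⟩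
def e0_63_106__71_42_131 : Ent 4 := ⟨[a0, a63, a106], [a71, a42, a136], (M a48 (F (T t309 (T t551 (L l28 (T t579 N))))))⟩
def e0_63_106__71_42_132 : Ent 4 := ⟨[a0, a63, a106], [a71, a42, a137], (M a48 (F (T t309 (T t551 (L l28 (T t579 N))))))⟩
def e0_63_106__71_42_133 : Ent 4 := ⟨[a0, a63, a106], [a71, a42, a138], (M a48 (F (T t2348 (L l28 (L l318 (T t579 (T t551 N)))))))⟩
def e0_63_106__71_42_134 : Ent 4 := ⟨[a0, a63, a106], [a71, a42, a139], (M a3 (F (T t6745 (L l66 (T t809 (L l159 (T t3500 N)))))))⟩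
def e0_63_106__71_42_135 : Ent 4 := ⟨[a0, a63, a106], [a71, a42, a140], (M a48 (F (T t309 (L l222 (T t551 (L l28 (T t579 N)))))))⟩
def e0_63_106__71_42_136 : Ent 4 := ⟨[a0, a63, a106], [a71, a42, a141], (M a48 (F (T t309 (T t551 (L l28 (T t579 N))))))⟩
def e0_63_106__71_42_137 : Ent 4 := ⟨[a0, a63, a106], [a71, a42, a142], (M a48 (F (T t309 (T t551 (L l28 (T t579 N))))))⟩
def e0_63_106__71_42_138 : Ent 4 := ⟨[a0, a63, a106], [a71, a42, a143], (M a48 (F (T t309 (L l28 (T t6462 (L l28 (T t579 N)))))))⟩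
def e0_63_106__71_42_139 : Ent 4 := ⟨[a0, a63, a106], [a71, a42, a144], (M a12 (F (T t2414 (L l56 (T t2415 (L l170 (T t2305 N)))))))⟩
def e0_63_106__71_42_140 : Ent 4 := ⟨[a0, a63, a106], [a71, a42, a145], (M a48 (F (L l331 (T t304 (L l28 (T t579 (L l167 (T t551 N))))))))⟩
def e0_63_106__71_42_141 : Ent 4 := ⟨[a0, a63, a106], [a71, a42, a146], (M a48 (F (L l162 (T t309 (L l197 (T t551 (L l28 (T t579 N))))))))⟩
def e0_63_106__71_42_142 : Ent 4 := ⟨[a0, a63, a106], [a71, a42, a147], (M a48 (F (L l162 (T t309 (T t551 (L l28 (T t579 N)))))))⟩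
def e0_63_106__71_42_143 : Ent 4 := ⟨[a0, a63, a106], [a71, a42, a148], (M a48 (F (L l331 (T t304 (L l28 (T t579 (L l163 (T t551 N))))))))⟩
def e0_63_106__71_42_144 : Ent 4 := ⟨[a0, a63, a106], [a71, a42, a149], (M a240 (F (L l199 (T t4781 (L l199 (L l347 (T t6484 (L l28 (L l199 (L l375 (T t6483 (L l28 (L l199 (L l220 (L l375 (T t6485 (K a133 (M a165 (F (T t6486 (L l28 (L l160 (L l220 (L l311 (L l375 (T t6487 (L l160 (L l220 (T t6488 N)))))))))))) (K a165 (M a90 (L l199 (F (T t4788 (L l180 (T t6489 (K a133 (Fr a181 a122 l447 (V t6489)) (K a181 (M a133 (F (L l180 (T t6489 (L l77 (L l227 (T t6746 (L l77 (L l455 (T t6490 N)))))))))) N)))))))) (K a181 (M a165 (F (T t6492 (T t6493 (L l28 (L l220 (L l375 (T t6487 (L l220 (T t6488 N)))))))))) (K a74 (M a48 (F (T t6494 (L l199 (L l491 (T t781 (L l28 (L l84 (L l318 (L l491 (T t579 N))))))))))) (K a90 (M a48 (L l375 (F (T t3318 (L l199 (L l462 (L l491 (T t781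 (L l28 (L l491 (T t579 (K a208 (M a31 (F (L l28 (L l347 (T t6495 (L l151 (L l220 (T t6496 N)))))))) (K a31 (M a208 (F (T t6497 (L l151 (L l220 (T t6496 N)))))) N))))))))))))) (K a122 (M a48 (F (T t3318 (L l114 (L l491 (T t6471 (L l28 (L l491 (T t579 N))))))))) N))))))))))))))))))))))⟩
def e0_63_106__71_42_145 : Ent 4 := ⟨[a0, a63, a106], [a71, a42, a150], (M a48 (F (T t309 (L l163 (T t551 (L l28 (T t579 N)))))))⟩
def e0_63_106__71_42_146 : Ent 4 := ⟨[a0, a63, a106], [a71, a42, a151], (M a48 (F (T t309 (L l163 (T t551 (L l28 (T t579 N)))))))⟩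
def e0_63_106__71_42_147 : Ent 4 := ⟨[a0, a63, a106], [a71, a42, a152], (M a48 (F (L l166 (T t309 (L l222 (T t551 (L l28 (T t579 N))))))))⟩
def e0_63_106__71_42_148 : Ent 4 := ⟨[a0, a63, a106], [a71, a42, a153], (M a48 (F (T t309 (L l167 (T t551 (L l28 (T t579 N)))))))⟩
def e0_63_106__71_42_149 : Ent 4 := ⟨[a0, a63, a106], [a71, a42, a154], (M a240 (F (T t4779 (L l170 (L l368 (L l512 (T t817 (T t4781 N))))))))⟩
def e0_63_106__71_42_150 : Ent 4 := ⟨[a0, a63, a106], [a71, a42, a155], (M a48 (F (T t309 (T t551 (L l28 (L l367 (T t579 N)))))))⟩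
def e0_63_106__71_42_151 : Ent 4 := ⟨[a0, a63, a106], [a71, a42, a156], (M a48 (F (L l166 (T t309 (T t551 (L l28 (T t579 N)))))))⟩
def e0_63_106__71_42_152 : Ent 4 := ⟨[a0, a63, a106], [a71, a42, a157], (M a48 (F (T t309 (L l167 (T t551 (L l28 (T t579 N)))))))⟩
def e0_63_106__71_42_153 : Ent 4 := ⟨[a0, a63, a106], [a71, a42, a158], (M a48 (F (T t309 (T t551 (L l28 (L l362 (T t579 N)))))))⟩
def e0_63_106__71_42_154 : Ent 4 := ⟨[a0, a63, a106], [a71, a42, a159], (M a240 (F (T t4779 (L l170 (T t817 (L l361 (T t4781 N)))))))⟩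
def e0_63_106__71_42_155 : Ent 4 := ⟨[a0, a63, a106], [a71, a42, a160], (M a12 (F (T t2304 (T t2305 (L l56 (T t2415 N))))))⟩
def e0_63_106__71_42_156 : Ent 4 := ⟨[a0, a63, a106], [a71, a42, a161], (M a48 (F (T t309 (L l197 (L l453 (T t551 (L l28 (T t579 N))))))))⟩
def e0_63_106__71_42_157 : Ent 4 := ⟨[a0, a63, a106], [a71, a42, a162], (M a48 (F (T t309 (T t551 (L l28 (L l380 (T t579 N)))))))⟩
def e0_63_106__71_42_158 : Ent 4 := ⟨[a0, a63, a106], [a71, a42, a163], (M a48 (F (T t309 (T t551 (L l28 (T t579 N))))))⟩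
def e0_63_106__71_42_159 : Ent 4 := ⟨[a0, a63, a106], [a71, a42, a164], (M a48 (F (T t309 (L l222 (L l478 (T t551 (L l28 (T t579 N))))))))⟩
def e0_63_106__71_42_160 : Ent 4 := ⟨[a0, a63, a106], [a71, a42, a165], (M a48 (F (T t309 (L l28 (L l199 (L l483 (T t6462 (L l28 (T t579 N)))))))))⟩
def e0_63_106__71_42_161 : Ent 4 := ⟨[a0, a63, a106], [a71, a42, a166], (M a48 (F (T t309 (L l202 (T t551 (L l28 (T t579 N)))))))⟩
def e0_63_106__71_42_162 : Ent 4 := ⟨[a0, a63, a106], [a71, a42, a167], (M a48 (F (T t309 (T t551 (L l28 (T t579 N))))))⟩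
def e0_63_106__71_42_163 : Ent 4 := ⟨[a0, a63, a106], [a71, a42, a168], (M a48 (F (T t309 (T t551 (L l28 (L l400 (T t579 N)))))))⟩
def e0_63_106__71_42_164 : Ent 4 := ⟨[a0, a63, a106], [a71, a42, a169], (M a48 (F (T t309 (L l217 (T t551 (L l28 (T t579 N)))))))⟩
def e0_63_106__71_42_165 : Ent 4 := ⟨[a0, a63, a106], [a71, a42, a170], (M a48 (F (T t309 (L l220 (T t551 (L l28 (L l206 (L l220 (L l404 (T t552 (L l28 (L l77 (L l206 (L l331 (L l404 (T t553 N))))))))))))))))⟩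
def e0_63_106__71_42_166 : Ent 4 := ⟨[a0, a63, a106], [a71, a42, a171], (M a48 (F (T t309 (T t551 (L l28 (T t579 N))))))⟩
def e0_63_106__71_42_167 : Ent 4 := ⟨[a0, a63, a106], [a71, a42, a172], (M a48 (F (T t309 (T t551 (L l28 (T t579 N))))))⟩
def e0_63_106__71_42_168 : Ent 4 := ⟨[a0, a63, a106], [a71, a42, a173], (M a48 (F (T t309 (T t551 (L l28 (T t579 N))))))⟩
def e0_63_106__71_42_169 : Ent 4 := ⟨[a0, a63, a106], [a71, a42, a174], (M a48 (F (T t309 (T t551 (L l28 (T t579 N))))))⟩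
def e0_63_106__71_42_170 : Ent 4 := ⟨[a0, a63, a106], [a71, a42, a175], (M a48 (F (T t309 (T t551 (L l28 (T t579 N))))))⟩
def e0_63_106__71_42_171 : Ent 4 := ⟨[a0, a63, a106], [a71, a42, a176], (M a240 (F (T t4786 (L l192 (T t817 (L l190 (L l192 (T t4781 N))))))))⟩
def e0_63_106__71_42_172 : Ent 4 := ⟨[a0, a63, a106], [a71, a42, a177], (M a48 (F (T t309 (L l182 (L l417 (T t551 (L l28 (T t579 N))))))))⟩
def e0_63_106__71_42_173 : Ent 4 := ⟨[a0, a63, a106], [a71, a42, a178], (M a48 (F (T t309 (L l182 (T t551 (L l28 (T t579 N)))))))⟩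
def e0_63_106__71_42_174 : Ent 4 := ⟨[a0, a63, a106], [a71, a42, a179], (M a48 (F (T t309 (L l182 (T t551 (L l28 (T t579 N)))))))⟩
def e0_63_106__71_42_175 : Ent 4 := ⟨[a0, a63, a106], [a71, a42, a180], (M a48 (F (T t309 (L l186 (L l442 (T t551 (L l28 (T t579 N))))))))⟩
def e0_63_106__71_42_176 : Ent 4 := ⟨[a0, a63, a106], [a71, a42, a181], (M a48 (F (L l419 (T t309 (L l190 (L l199 (T t551 (L l28 (L l419 (T t579 N))))))))))⟩
def e0_63_106__71_42_177 : Ent 4 := ⟨[a0, a63, a106], [a71, a42, a182], (M a48 (F (T t309 (T t551 (L l28 (T t579 N))))))⟩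
def e0_63_106__71_42_178 : Ent 4 := ⟨[a0, a63, a106], [a71, a42, a183], (M a48 (F (T t309 (L l202 (T t551 (L l28 (T t579 N)))))))⟩
def e0_63_106__71_42_179 : Ent 4 := ⟨[a0, a63, a106], [a71, a42, a184], (M a48 (F (T t309 (L l186 (T t551 (L l28 (T t579 N)))))))⟩
def e0_63_106__71_42_180 : Ent 4 := ⟨[a0, a63, a106], [a71, a42, a185], (M a48 (F (T t309 (T t551 (L l28 (T t579 N))))))⟩
def e0_63_106__71_42_181 : Ent 4 := ⟨[a0, a63, a106], [a71, a42, a186], (M a48 (F (T t309 (L l190 (T t551 (L l28 (T t579 N)))))))⟩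
def e0_63_106__71_42_182 : Ent 4 := ⟨[a0, a63, a106], [a71, a42, a187], (M a48 (F (T t309 (T t551 (L l28 (T t579 N))))))⟩
def e0_63_106__71_42_183 : Ent 4 := ⟨[a0, a63, a106], [a71, a42, a188], (M a48 (F (T t309 (L l186 (T t551 (L l28 (T t579 N)))))))⟩
def e0_63_106__71_42_184 : Ent 4 := ⟨[a0, a63, a106], [a71, a42, a189], (M a48 (F (T t309 (L l217 (T t551 (L l28 (T t579 N)))))))⟩
def e0_63_106__71_42_185 : Ent 4 := ⟨[a0, a63, a106], [a71, a42, a190], (M a48 (F (T t309 (T t551 (L l28 (T t579 N))))))⟩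
def e0_63_106__71_42_186 : Ent 4 := ⟨[a0, a63, a106], [a71, a42, a191], (M a48 (F (T t309 (L l190 (L l220 (T t551 (L l28 (L l127 (T t6498 (L l28 (L l77 (L l331 (T t6499 N)))))))))))))⟩
def e0_63_106__71_42_187 : Ent 4 := ⟨[a0, a63, a106], [a71, a42, a192], (M a240 (F (L l339 (T t4781 (L l236 (L l339 (T t6500 (L l296 (L l339 (T t6501 (L l28 (L l339 (T t6502 (L l339 (T t6503 (K a133 (M a90 (L l339 (F (T t4788 (T t6504 (K a74 (Fr a15 a165 l483 (V t6505)) (K a15 (Fr a74 a122 l130 (V t6506)) N))))))) (K a85 (M a12 (F (L l292 (T t2745 (L l272 (L l339 (T t6595 N))))))) (K a181 (M a12 (F (T t3358 (L l56 (L l272 (T t2415 (L l272 (T t6512 N)))))))) (K a74 (M a165 (L l339 (F (T t6492 (L l296 (T t6513 (L l54 (L l84 (L l318 (T t6514 (K a133 (Fr a15 a90 l483 (V t6515)) (K a15 (M a133 (F (T t6516 (L l28 (L l236 (L l318 (L l484 (T t6517 N)))))))) N)))))))))))) (K a90 (M a252 (F (L l334 (T t6518 (L l148 (L l489 (T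 t6519 (L l125 (L l309 (T t6675 N)))))))))) (K a122 (M a12 (F (T t2747 (L l56 (L l272 (T t2415 (L l272 (T t6512 N)))))))) (K a15 (M a248 (L l339 (F (T t6520 (L l22 (T t6521 (K a133 (M a74 (F (T t6522 (L l3 (L l56 (L l334 (T t6523 N))))))) (K a74 (M a133 (F (T t3821 (T t6520 (L l469 (L l484 (T t6524 N))))))) N)))))))) N))))))))))))))))))))))⟩
def e0_63_106__71_42_188 : Ent 4 := ⟨[a0, a63, a106], [a71, a42, a193], (M a48 (F (L l228 (T t309 (L l515 (T t551 (L l28 (T t579 N))))))))⟩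
def e0_63_106__71_42_189 : Ent 4 := ⟨[a0, a63, a106], [a71, a42, a194], (M a48 (F (T t2348 (L l28 (L l234 (T t579 (T t551 N)))))))⟩
def e0_63_106__71_42_190 : Ent 4 := ⟨[a0, a63, a106], [a71, a42, a195], (M a48 (F (T t5173 (L l28 (T t579 (L l273 (T t551 N)))))))⟩
def e0_63_106__71_42_191 : Ent 4 := ⟨[a0, a63, a106], [a71, a42, a196], (M a48 (F (L l232 (T t309 (L l495 (T t551 (L l28 (T t579 N))))))))⟩
def e0_63_106__71_42_192 : Ent 4 := ⟨[a0, a63, a106], [a71, a42, a197], (M a240 (F (L l236 (T t4779 (L l491 (T t817 (T t4781 N)))))))⟩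
def e0_63_106__71_42_193 : Ent 4 := ⟨[a0, a63, a106], [a71, a42, a198], (M a48 (F (T t2348 (L l28 (L l234 (T t579 (T t551 N)))))))⟩
def e0_63_106__71_42_194 : Ent 4 := ⟨[a0, a63, a106], [a71, a42, a199], (M a48 (L l313 (F (T t309 (T t551 (L l28 (T t579 (K a7 (M a135 (F (T t309 (T t551 (L l28 (T t579 N)))))) (K a135 (M a7 (F (T t309 (T t551 (L l28 (T t579 N)))))) N)))))))))⟩
def e0_63_106__71_42_195 : Ent 4 := ⟨[a0, a63, a106], [a71, a42, a200], (M a48 (F (T t2348 (L l28 (L l230 (T t579 (T t551 N)))))))⟩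
def e0_63_106__71_42_196 : Ent 4 := ⟨[a0, a63, a106], [a71, a42, a201], (M a48 (F (T t2348 (L l28 (L l230 (T t579 (T t551 N)))))))⟩
def e0_63_106__71_42_197 : Ent 4 := ⟨[a0, a63, a106], [a71, a42, a202], (M a240 (F (L l236 (T t4786 (T t817 (L l318 (T t4781 N)))))))⟩
def e0_63_106__71_42_198 : Ent 4 := ⟨[a0, a63, a106], [a71, a42, a203], (M a48 (F (T t2348 (L l28 (L l230 (T t579 (T t551 N)))))))⟩
def e0_63_106__71_42_199 : Ent 4 := ⟨[a0, a63, a106], [a71, a42, a204], (M a48 (F (T t5173 (L l28 (T t579 (L l298 (T t551 N)))))))⟩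
def e0_63_106__71_42_200 : Ent 4 := ⟨[a0, a63, a106], [a71, a42, a205], (M a48 (F (T t309 (T t551 (L l28 (T t579 N))))))⟩
def e0_63_106__71_42_201 : Ent 4 := ⟨[a0, a63, a106], [a71, a42, a206], (M a48 (F (T t2348 (L l28 (L l234 (T t579 (T t551 N)))))))⟩
def e0_63_106__71_42_202 : Ent 4 := ⟨[a0, a63, a106], [a71, a42, a207], (M a3 (F (T t6736 (L l66 (T t809 (L l235 (T t3500 N)))))))⟩
def e0_63_106__71_42_203 : Ent 4 := ⟨[a0, a63, a106], [a71, a42, a208], (M a12 (F (T t2419 (L l375 (T t2305 (L l56 (T t2415 N)))))))⟩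
def e0_63_106__71_42_204 : Ent 4 := ⟨[a0, a63, a106], [a71, a42, a209], (M a48 (F (L l272 (T t309 (L l371 (T t551 (L l28 (T t579 N))))))))⟩
def e0_63_106__71_42_205 : Ent 4 := ⟨[a0, a63, a106], [a71, a42, a210], (M a48 (F (T t309 (L l273 (T t551 (L l28 (T t579 N)))))))⟩
def e0_63_106__71_42_206 : Ent 4 := ⟨[a0, a63, a106], [a71, a42, a211], (M a48 (F (T t309 (T t551 (L l28 (L l245 (T t579 N)))))))⟩
def e0_63_106__71_42_207 : Ent 4 := ⟨[a0, a63, a106], [a71, a42, a212], (M a48 (F (L l292 (T t309 (L l351 (T t551 (L l28 (T t579 N))))))))⟩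
def e0_63_106__71_42_208 : Ent 4 := ⟨[a0, a63, a106], [a71, a42, a213], (M a48 (F (L l296 (T t309 (L l347 (T t551 (L l28 (L l246 (T t579 N)))))))))⟩
def e0_63_106__71_42_209 : Ent 4 := ⟨[a0, a63, a106], [a71, a42, a214], (M a48 (F (T t309 (T t551 (L l28 (T t579 N))))))⟩
def e0_63_106__71_42_210 : Ent 4 := ⟨[a0, a63, a106], [a71, a42, a215], (M a48 (F (T t309 (T t551 (L l28 (L l245 (T t579 N)))))))⟩
def e0_63_106__71_42_211 : Ent 4 := ⟨[a0, a63, a106], [a71, a42, a216], (M a48 (F (T t309 (L l298 (T t551 (L l28 (T t579 N)))))))⟩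
def e0_63_106__71_42_212 : Ent 4 := ⟨[a0, a63, a106], [a71, a42, a217], (M a48 (F (T t309 (T t551 (L l28 (T t579 N))))))⟩
def e0_63_106__71_42_213 : Ent 4 := ⟨[a0, a63, a106], [a71, a42, a218], (M a48 (F (T t2348 (L l28 (L l246 (L l282 (T t579 (L l303 (T t551 N)))))))))⟩
def e0_63_106__71_42_214 : Ent 4 := ⟨[a0, a63, a106], [a71, a42, a219], (M a48 (F (T t309 (T t551 (L l28 (L l245 (T t579 N)))))))⟩
def e0_63_106__71_42_215 : Ent 4 := ⟨[a0, a63, a106], [a71, a42, a220], (M a48 (F (T t309 (T t551 (L l28 (L l241 (T t579 N)))))))⟩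
def e0_63_106__71_42_216 : Ent 4 := ⟨[a0, a63, a106], [a71, a42, a221], (M a48 (F (T t309 (T t551 (L l28 (L l241 (T t579 N)))))))⟩
def e0_63_106__71_42_217 : Ent 4 := ⟨[a0, a63, a106], [a71, a42, a222], (M a48 (F (T t309 (T t551 (L l28 (L l241 (T t579 N)))))))⟩
def e0_63_106__71_42_218 : Ent 4 := ⟨[a0, a63, a106], [a71, a42, a223], (M a240 (F (T t4786 (L l368 (T t817 (L l361 (T t4781 N)))))))⟩
def e0_63_106__71_42_219 : Ent 4 := ⟨[a0, a63, a106], [a71, a42, a224], (M a48 (F (L l268 (T t309 (L l28 (L l376 (T t579 (L l268 (L l376 (T t551 N))))))))))⟩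
def e0_63_106__71_42_220 : Ent 4 := ⟨[a0, a63, a106], [a71, a42, a225], (M a48 (F (T t309 (L l273 (T t551 (L l28 (T t579 N)))))))⟩
def e0_63_106__71_42_221 : Ent 4 := ⟨[a0, a63, a106], [a71, a42, a226], (M a48 (F (T t5173 (L l28 (T t579 (T t551 N))))))⟩
def e0_63_106__71_42_222 : Ent 4 := ⟨[a0, a63, a106], [a71, a42, a227], (M a48 (F (T t309 (T t551 (L l28 (L l380 (T t579 N)))))))⟩
def e0_63_106__71_42_223 : Ent 4 := ⟨[a0, a63, a106], [a71, a42, a228], (M a48 (F (T t309 (L l298 (T t551 (L l28 (T t579 N)))))))⟩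
def e0_63_106__71_42_224 : Ent 4 := ⟨[a0, a63, a106], [a71, a42, a229], (M a48 (F (T t309 (L l28 (T t2289 (L l28 (T t579 N)))))))⟩
def e0_63_106__71_42_225 : Ent 4 := ⟨[a0, a63, a106], [a71, a42, a230], (M a48 (F (T t309 (T t551 (L l28 (T t579 N))))))⟩
def e0_63_106__71_42_226 : Ent 4 := ⟨[a0, a63, a106], [a71, a42, a231], (M a48 (F (T t309 (T t551 (L l28 (T t579 N))))))⟩
def e0_63_106__71_42_227 : Ent 4 := ⟨[a0, a63, a106], [a71, a42, a232], (M a48 (F (T t5173 (L l28 (T t579 (T t551 N))))))⟩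
def e0_63_106__71_42_228 : Ent 4 := ⟨[a0, a63, a106], [a71, a42, a233], (M a48 (F (T t309 (T t551 (L l28 (T t579 N))))))⟩
def e0_63_106__71_42_229 : Ent 4 := ⟨[a0, a63, a106], [a71, a42, a234], (M a48 (F (T t2348 (L l28 (L l282 (T t579 (T t551 N)))))))⟩
def e0_63_106__71_42_230 : Ent 4 := ⟨[a0, a63, a106], [a71, a42, a235], (M a48 (F (T t309 (T t551 (L l28 (T t579 N))))))⟩
def e0_63_106__71_42_231 : Ent 4 := ⟨[a0, a63, a106], [a71, a42, a236], (M a48 (F (T t309 (T t551 (L l28 (L l400 (T t579 N)))))))⟩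
def e0_63_106__71_42_232 : Ent 4 := ⟨[a0, a63, a106], [a71, a42, a237], (M a48 (F (T t309 (T t551 (L l28 (T t579 N))))))⟩
def e0_63_106__71_42_233 : Ent 4 := ⟨[a0, a63, a106], [a71, a42, a238], (M a48 (F (T t309 (T t551 (L l28 (T t579 N))))))⟩
def e0_63_106__71_42_234 : Ent 4 := ⟨[a0, a63, a106], [a71, a42, a239], (M a48 (F (T t309 (T t551 (L l28 (L l289 (L l404 (T t579 N))))))))⟩
def e0_63_106__71_42_235 : Ent 4 := ⟨[a0, a63, a106], [a71, a42, a240], (M a12 (F (T t2419 (L l298 (T t2305 (L l56 (T t2415 N)))))))⟩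
def e0_63_106__71_42_236 : Ent 4 := ⟨[a0, a63, a106], [a71, a42, a241], (M a48 (F (T t309 (L l258 (T t551 (L l28 (T t579 N)))))))⟩
def e0_63_106__71_42_237 : Ent 4 := ⟨[a0, a63, a106], [a71, a42, a242], (M a48 (F (T t309 (L l258 (T t551 (L l28 (T t579 N)))))))⟩
def e0_63_106__71_42_238 : Ent 4 := ⟨[a0, a63, a106], [a71, a42, a243], (M a48 (F (T t5173 (L l28 (T t579 (L l258 (T t551 N)))))))⟩
def e0_63_106__71_42_239 : Ent 4 := ⟨[a0, a63, a106], [a71, a42, a244], (M a48 (F (T t309 (L l262 (T t551 (L l28 (T t579 N)))))))⟩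
def e0_63_106__71_42_240 : Ent 4 := ⟨[a0, a63, a106], [a71, a42, a245], (M a48 (F (L l419 (T t309 (L l266 (T t551 (L l28 (L l419 (T t579 N)))))))))⟩
def e0_63_106__71_42_241 : Ent 4 := ⟨[a0, a63, a106], [a71, a42, a246], (M a48 (F (T t309 (T t551 (L l28 (T t579 N))))))⟩
def e0_63_106__71_42_242 : Ent 4 := ⟨[a0, a63, a106], [a71, a42, a247], (M a48 (F (T t309 (T t551 (L l28 (T t579 N))))))⟩
def e0_63_106__71_42_243 : Ent 4 := ⟨[a0, a63, a106], [a71, a42, a248], (M a48 (F (T t309 (L l262 (T t551 (L l28 (T t579 N)))))))⟩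
def e0_63_106__71_42_244 : Ent 4 := ⟨[a0, a63, a106], [a71, a42, a249], (M a48 (F (T t309 (T t551 (L l28 (T t579 N))))))⟩
def e0_63_106__71_42_245 : Ent 4 := ⟨[a0, a63, a106], [a71, a42, a250], (M a48 (F (T t2348 (L l28 (L l282 (T t579 (L l266 (T t551 N))))))))⟩
def e0_63_106__71_42_246 : Ent 4 := ⟨[a0, a63, a106], [a71, a42, a251], (M a48 (F (T t309 (T t551 (L l28 (T t579 N))))))⟩
def e0_63_106__71_42_247 : Ent 4 := ⟨[a0, a63, a106], [a71, a42, a252], (M a48 (F (T t5173 (L l28 (T t579 (L l262 (T t551 N)))))))⟩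
def e0_63_106__71_42_248 : Ent 4 := ⟨[a0, a63, a106], [a71, a42, a253], (M a48 (F (T t309 (T t551 (L l28 (T t579 N))))))⟩
def e0_63_106__71_42_249 : Ent 4 := ⟨[a0, a63, a106], [a71, a42, a254], (M a48 (F (T t309 (T t551 (L l28 (T t579 N))))))⟩
def e0_63_106__71_42_250 : Ent 4 := ⟨[a0, a63, a106], [a71, a42, a255], (M a48 (F (T t5173 (L l266 (T t551 (L l28 (L l127 (L l469 (T t6526 (L l28 (L l289 (T t6527 N))))))))))))⟩
def b0_63_106__71_42 : Blk 4 := ⟨[0, 63, 106], [71, 42], [1, 2, 3, 4, 5, 6, 7, 8, 9, 10, 11, 12, 13, 14, 15, 16, 17, 18, 19, 20, 21, 22, 23, 24, 25, 26, 27, 28, 29, 30, 31, 32, 33, 34, 35, 36, 37, 38, 39, 40, 41, 43, 44, 45, 46, 47, 48, 49, 50, 51, 52, 53, 54, 55, 56, 57, 58, 59, 60, 61, 62, 64, 65, 66, 67, 68, 69, 70, 72, 73, 74, 75, 76, 77, 78, 79, 80, 81, 82, 83, 84, 85, 86, 87, 88, 89, 90, 91, 92, 93, 94, 95, 96, 97, 98, 99, 100, 101, 102, 103, 104, 105, 107, 108, 109, 110, 111,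 112, 113, 114, 115, 116, 117, 118, 119, 120, 121, 122, 123, 124, 125, 126, 127, 128, 129, 130, 131, 132, 133, 134, 135, 136, 137, 138, 139, 140, 141, 142, 143, 144, 145, 146, 147, 148, 149, 150, 151, 152, 153, 154, 155, 156, 157, 158, 159, 160, 161, 162, 163, 164, 165, 166, 167, 168, 169, 170, 171, 172, 173, 174, 175, 176, 177, 178, 179, 180, 181, 182, 183, 184, 185, 186, 187, 188, 189, 190, 191, 192, 193, 194, 195, 196, 197, 198, 199, 200, 201, 202, 203, 204, 205, 206, 207, 208, 209, 210, 211, 212, 213, 214, 215, 216, 217, 218, 219, 220, 221, 222, 223, 224, 225, 226, 227, 228, 229, 230, 231, 232, 233, 234, 235, 236, 237, 238, 239, 240, 241, 242, 243, 244, 245, 246, 247, 248, 249, 250, 251, 252, 253, 254, 255], [e0_63_106__71_42_0, e0_63_106__71_42_1, e0_63_106__71_42_2, e0_63_106__71_42_3, e0_63_106__71_42_4, e0_63_106__71_42_5, e0_63_106__71_42_6, e0_63_106__71_42_7, e0_63_106__71_42_8, e0_63_106__71_42_9,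 e0_63_106__71_42_10, e0_63_106__71_42_11, e0_63_106__71_42_12, e0_63_106__71_42_13, e0_63_106__71_42_14, e0_63_106__71_42_15, e0_63_106__71_42_16, e0_63_106__71_42_17, e0_63_106__71_42_18, e0_63_106__71_42_19, e0_63_106__71_42_20, e0_63_106__71_42_21, e0_63_106__71_42_22, e0_63_106__71_42_23, e0_63_106__71_42_24, e0_63_106__71_42_25, e0_63_106__71_42_26, e0_63_106__71_42_27, e0_63_106__71_42_28, e0_63_106__71_42_29, e0_63_106__71_42_30, e0_63_106__71_42_31, e0_63_106__71_42_32, e0_63_106__71_42_33, e0_63_106__71_42_34, e0_63_106__71_42_35, e0_63_106__71_42_36, e0_63_106__71_42_37, e0_63_106__71_42_38, e0_63_106__71_42_39, e0_63_106__71_42_40, e0_63_106__71_42_41, e0_63_106__71_42_42, e0_63_106__71_42_43, e0_63_106__71_42_44, e0_63_106__71_42_45, e0_63_106__71_42_46, e0_63_106__71_42_47, e0_63_106__71_42_48, e0_63_106__71_42_49, e0_63_106__71_42_50, e0_63_106__71_42_51, e0_63_106__71_42_52, e0_63_106__71_42_53,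 e0_63_106__71_42_54, e0_63_106__71_42_55, e0_63_106__71_42_56, e0_63_106__71_42_57, e0_63_106__71_42_58, e0_63_106__71_42_59, e0_63_106__71_42_60, e0_63_106__71_42_61, e0_63_106__71_42_62, e0_63_106__71_42_63, e0_63_106__71_42_64, e0_63_106__71_42_65, e0_63_106__71_42_66, e0_63_106__71_42_67, e0_63_106__71_42_68, e0_63_106__71_42_69, e0_63_106__71_42_70, e0_63_106__71_42_71, e0_63_106__71_42_72, e0_63_106__71_42_73, e0_63_106__71_42_74, e0_63_106__71_42_75, e0_63_106__71_42_76, e0_63_106__71_42_77, e0_63_106__71_42_78, e0_63_106__71_42_79, e0_63_106__71_42_80, e0_63_106__71_42_81, e0_63_106__71_42_82, e0_63_106__71_42_83, e0_63_106__71_42_84, e0_63_106__71_42_85, e0_63_106__71_42_86, e0_63_106__71_42_87, e0_63_106__71_42_88, e0_63_106__71_42_89, e0_63_106__71_42_90, e0_63_106__71_42_91, e0_63_106__71_42_92, e0_63_106__71_42_93, e0_63_106__71_42_94, e0_63_106__71_42_95, e0_63_106__71_42_96, e0_63_106__71_42_97,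 e0_63_106__71_42_98, e0_63_106__71_42_99, e0_63_106__71_42_100, e0_63_106__71_42_101, e0_63_106__71_42_102, e0_63_106__71_42_103, e0_63_106__71_42_104, e0_63_106__71_42_105, e0_63_106__71_42_106, e0_63_106__71_42_107, e0_63_106__71_42_108, e0_63_106__71_42_109, e0_63_106__71_42_110, e0_63_106__71_42_111, e0_63_106__71_42_112, e0_63_106__71_42_113, e0_63_106__71_42_114, e0_63_106__71_42_115, e0_63_106__71_42_116, e0_63_106__71_42_117, e0_63_106__71_42_118, e0_63_106__71_42_119, e0_63_106__71_42_120, e0_63_106__71_42_121, e0_63_106__71_42_122, e0_63_106__71_42_123, e0_63_106__71_42_124, e0_63_106__71_42_125, e0_63_106__71_42_126, e0_63_106__71_42_127, e0_63_106__71_42_128, e0_63_106__71_42_129, e0_63_106__71_42_130, e0_63_106__71_42_131, e0_63_106__71_42_132, e0_63_106__71_42_133, e0_63_106__71_42_134, e0_63_106__71_42_135, e0_63_106__71_42_136, e0_63_106__71_42_137, e0_63_106__71_42_138, e0_63_106__71_42_139,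 e0_63_106__71_42_140, e0_63_106__71_42_141, e0_63_106__71_42_142, e0_63_106__71_42_143, e0_63_106__71_42_144, e0_63_106__71_42_145, e0_63_106__71_42_146, e0_63_106__71_42_147, e0_63_106__71_42_148, e0_63_106__71_42_149, e0_63_106__71_42_150, e0_63_106__71_42_151, e0_63_106__71_42_152, e0_63_106__71_42_153, e0_63_106__71_42_154, e0_63_106__71_42_155, e0_63_106__71_42_156, e0_63_106__71_42_157, e0_63_106__71_42_158, e0_63_106__71_42_159, e0_63_106__71_42_160, e0_63_106__71_42_161, e0_63_106__71_42_162, e0_63_106__71_42_163, e0_63_106__71_42_164, e0_63_106__71_42_165, e0_63_106__71_42_166, e0_63_106__71_42_167, e0_63_106__71_42_168, e0_63_106__71_42_169, e0_63_106__71_42_170, e0_63_106__71_42_171, e0_63_106__71_42_172, e0_63_106__71_42_173, e0_63_106__71_42_174, e0_63_106__71_42_175, e0_63_106__71_42_176, e0_63_106__71_42_177, e0_63_106__71_42_178, e0_63_106__71_42_179, e0_63_106__71_42_180, e0_63_106__71_42_181,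 e0_63_106__71_42_182, e0_63_106__71_42_183, e0_63_106__71_42_184, e0_63_106__71_42_185, e0_63_106__71_42_186, e0_63_106__71_42_187, e0_63_106__71_42_188, e0_63_106__71_42_189, e0_63_106__71_42_190, e0_63_106__71_42_191, e0_63_106__71_42_192, e0_63_106__71_42_193, e0_63_106__71_42_194, e0_63_106__71_42_195, e0_63_106__71_42_196, e0_63_106__71_42_197, e0_63_106__71_42_198, e0_63_106__71_42_199, e0_63_106__71_42_200, e0_63_106__71_42_201, e0_63_106__71_42_202, e0_63_106__71_42_203, e0_63_106__71_42_204, e0_63_106__71_42_205, e0_63_106__71_42_206, e0_63_106__71_42_207, e0_63_106__71_42_208, e0_63_106__71_42_209, e0_63_106__71_42_210, e0_63_106__71_42_211, e0_63_106__71_42_212, e0_63_106__71_42_213, e0_63_106__71_42_214, e0_63_106__71_42_215, e0_63_106__71_42_216, e0_63_106__71_42_217, e0_63_106__71_42_218, e0_63_106__71_42_219, e0_63_106__71_42_220, e0_63_106__71_42_221, e0_63_106__71_42_222, e0_63_106__71_42_223,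 e0_63_106__71_42_224, e0_63_106__71_42_225, e0_63_106__71_42_226, e0_63_106__71_42_227, e0_63_106__71_42_228, e0_63_106__71_42_229, e0_63_106__71_42_230, e0_63_106__71_42_231, e0_63_106__71_42_232, e0_63_106__71_42_233, e0_63_106__71_42_234, e0_63_106__71_42_235, e0_63_106__71_42_236, e0_63_106__71_42_237, e0_63_106__71_42_238, e0_63_106__71_42_239, e0_63_106__71_42_240, e0_63_106__71_42_241, e0_63_106__71_42_242, e0_63_106__71_42_243, e0_63_106__71_42_244, e0_63_106__71_42_245, e0_63_106__71_42_246, e0_63_106__71_42_247, e0_63_106__71_42_248, e0_63_106__71_42_249, e0_63_106__71_42_250], by decide +kernel, by decide +kernel⟩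

end Pool.Agent.Lib_TTT.K4
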