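import Pool.Agent.Lib_TTT.K4Base
import Pool.Agent.Lib_TTT.K4T00
import Pool.Agent.Lib_TTT.K4T01
import Pool.Agent.Lib_TTT.K4T02
import Pool.Agent.Lib_TTT.K4T03
import Pool.Agent.Lib_TTT.K4T04
import Pool.Agent.Lib_TTT.K4T05
import Pool.Agent.Lib_TTT.K4T06
import Pool.Agent.Lib_TTT.K4T07

/-! Certificates in `4^4`. -/

set_option autoImplicit false
set_option maxRecDepth 200000

namespace Pool.Agent.Lib_TTT.K4

open Lib_TTT AC DC

def e0_63_106__74_42_0 : Ent 4 := ⟨[a0, a63, a106], [a74, a42, a1], (M a48 (F (T t578 (L l28 (L l84 (L l318 (T t579 (L l84 (T t551 N)))))))))⟩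
def e0_63_106__74_42_1 : Ent 4 := ⟨[a0, a63, a106], [a74, a42, a2], (M a48 (L l66 (F (T t578 (L l28 (L l84 (L l318 (T t579 (L l84 (T t551 (K a22 (M a62 (F (T t578 (L l22 (L l84 (L l306 (L l336 (T t5926 N)))))))) (K a62 (M a22 (F (T t578 (L l28 (L l84 (L l318 (T t579 (L l84 (T t551 N))))))))) N))))))))))))⟩
def e0_63_106__74_42_2 : Ent 4 := ⟨[a0, a63, a106], [a74, a42, a3], (M a48 (F (T t2348 (L l28 (L l84 (L l318 (T t579 (L l84 (L l453 (T t551 N))))))))))⟩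
def e0_63_106__74_42_3 : Ent 4 := ⟨[a0, a63, a106], [a74, a42, a5], (M a48 (F (T t578 (L l28 (L l47 (L l84 (L l318 (T t579 (L l84 (T t551 N))))))))))⟩
def e0_63_106__74_42_4 : Ent 4 := ⟨[a0, a63, a106], [a74, a42, a6], (M a48 (F (T t578 (L l28 (L l84 (L l318 (T t579 (L l84 (T t551 N)))))))))⟩
def e0_63_106__74_42_5 : Ent 4 := ⟨[a0, a63, a106], [a74, a42, a7], (M a48 (F (T t578 (L l28 (L l84 (L l318 (T t579 (L l84 (T t551 N)))))))))⟩
def e0_63_106__74_42_6 : Ent 4 := ⟨[a0, a63, a106], [a74, a42, a10], (M a12 (L l54 (L l318 (F (T t2414 (L l2 (L l56 (L l84 (T t2415 (L l78 (L l84 (T t2305 (K a138 (M a202 (L l54 (F (T t2360 (L l2 (L l56 (L l84 (L l320 (T t2415 (K a26 (Fr a58 a154 l498 (V t2418)) (K a58 (M a26 (F (T t2416 (L l2 (L l56 (L l84 (L l320 (T t2415 (L l78 (L l84 (T t2305 N))))))))))) N))))))))))) (K a202 (M a138 (L l54 (F (T t2414 (L l230 (L l336 (T t2420 (K a26 (M a58 (F (T t2416 (L l84 (L l230 (T t2439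 N)))))) (K a58 (M a26 (F (T t2416 (L l230 (L l336 (T t2420 N)))))) N))))))))) (K a26 (M a58 (L l318 (F (T t2416 (L l57 (T t3884 (K a138 (Fr a202 a154 l498 (V t2418)) (K a202 (M a138 (F (T t2416 (L l84 (L l230 (T t2439 N)))))) N)))))))) (K a58 (M a26 (L l318 (F (T t2416 (L l2 (L l56 (L l84 (T t2415 (L l78 (L l84 (T t2305 (K a138 (M a202 (F (T t2416 (L l2 (L l56 (L l84 (L l320 (T t2415 (L l78 (L l84 (T t2305 N))))))))))) (K a202 (M a138 (F (T t2416 (L l230 (L l336 (T t2420 N)))))) N))))))))))))) N))))))))))))))))⟩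
def e0_63_106__74_42_7 : Ent 4 := ⟨[a0, a63, a106], [a74, a42, a11], (M a48 (L l321 (F (T t578 (L l28 (L l84 (L l318 (T t579 (L l84 (T t551 (K a200 (M a137 (F (T t578 (L l28 (L l84 (L l230 (L l318 (T t579 (L l84 (T t551 N)))))))))) (K a137 (M a200 (F (T t6747 (L l28 (L l84 (L l318 (T t579 N))))))) N))))))))))))⟩
def e0_63_106__74_42_8 : Ent 4 := ⟨[a0, a63, a106], [a74, a42, a15], (M a204 (L l339 (F (T t6748 (L l3 (L l321 (T t4770 (L l84 (T t6655 (K a192 (M a133 (F (L l84 (L l489 (T t6655 (L l272 (L l489 (T t6656 (L l296 (L l469 (L l489 (T t6657 (L l56 (L l489 (T t6658 (L l84 (L l489 (T t6659 (K a145 (M a102 (L l489 (F (T t6641 (T t6660 (K a98 (Fr a51 a153 l513 (V t6731)) (K a51 (Fr a98 a110 l102 (V t6662)) N))))))) (K a85 (M a48 (F (L l292 (L l471 (T t2046 (L l236 (L l318 (L l489 (T t6749 N))))))))) (K a157 (M a69 (F (L l7 (T t6750 (L l165 (L l318 (L l484 (T t6751 N)))))))) (K a98 (M a137 (L l489 (F (L l325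 (T t6752 (L l82 (L l292 (T t6753 (K a145 (M a51 (F (T t6754 (L l66 (L l82 (L l236 (L l325 (T t2384 N)))))))) (K a51 (M a145 (L l73 (F (L l82 (L l441 (T t6755 (L l325 (T t6752 (K a39 (M a27 (F (L l82 (L l441 (T t6755 (L l325 (T t6752 N))))))) (K a27 (M a39 (F (L l82 (L l441 (T t6755 (L l325 (T t6752 N))))))) N)))))))))) N)))))))))) (K a102 (M a4 (F (L l56 (T t6756 (L l318 (L l337 (L l495 (L l510 (T t6757 N))))))))) (K a110 (M a69 (F (L l7 (T t6750 (L l318 (L l484 (T t6751 N))))))) (K a51 (M a69 (L l73 (L l489 (F (L l7 (T t6750 (L l39 (L l63 (L l66 (L l318 (L l514 (T t2460 (K a145 (M a98 (L l73 (F (T t6678 (L l321 (T t6758 (K a39 (M a27 (F (T t6678 (L l321 (T t6758 N))))) (K a27 (M a39 (F (T t6678 (L l236 (L l321 (L l325 (L l511 (T t6759 N)))))))) N)))))))) (K a98 (M a145 (L l73 (F (L l7 (T t6750 (L l39 (L l63 (L l66 (L l318 (L l514 (T t2460 (K a39 (M a27 (F (L l318 (T t6760 (L l7 (L l49 (T t6750 N)))))))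 (K a27 (M a39 (F (L l318 (T t6760 (L l7 (T t6750 N)))))) N))))))))))))) (K a39 (M a27 (L l489 (F (L l318 (T t6760 (L l7 (L l49 (T t6750 (K a145 (M a98 (F (T t6678 (L l321 (T t6758 N))))) (K a98 (M a145 (F (L l318 (T t6760 (L l7 (L l49 (T t6750 N))))))) N)))))))))) (K a27 (M a39 (L l489 (F (L l318 (T t6760 (L l7 (T t6750 (K a145 (M a98 (F (T t6678 (L l236 (L l321 (L l325 (L l511 (T t6759 N)))))))) (K a98 (M a145 (F (L l318 (T t6760 (L l7 (T t6750 N)))))) N))))))))) N)))))))))))))))) N))))))))))))))))))))))))) (K a133 (Fr a192 a149 l519 (V t6761)) N)))))))))))⟩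
def e0_63_106__74_42_9 : Ent 4 := ⟨[a0, a63, a106], [a74, a42, a16], (M a12 (F (T t2414 (L l56 (L l84 (T t2415 (L l78 (L l84 (T t2305 N)))))))))⟩
def e0_63_106__74_42_10 : Ent 4 := ⟨[a0, a63, a106], [a74, a42, a17], (M a48 (F (T t578 (L l28 (L l84 (L l318 (T t579 (L l84 (T t551 N)))))))))⟩
def e0_63_106__74_42_11 : Ent 4 := ⟨[a0, a63, a106], [a74, a42, a18], (M a48 (F (T t578 (L l28 (L l84 (L l318 (T t579 (L l84 (T t551 N)))))))))⟩
def e0_63_106__74_42_12 : Ent 4 := ⟨[a0, a63, a106], [a74, a42, a19], (M a48 (F (T t578 (L l28 (L l84 (L l318 (L l367 (T t579 (L l84 (T t551 N))))))))))⟩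
def e0_63_106__74_42_13 : Ent 4 := ⟨[a0, a63, a106], [a74, a42, a21], (M a48 (F (L l54 (L l339 (T t777 (L l84 (L l347 (T t551 (L l28 (L l47 (L l84 (L l318 (T t579 N)))))))))))))⟩
def e0_63_106__74_42_14 : Ent 4 := ⟨[a0, a63, a106], [a74, a42, a22], (M a48 (L l66 (F (T t578 (L l28 (L l84 (L l318 (T t579 (L l84 (T t551 (K a2 (M a62 (F (T t578 (L l22 (L l84 (L l306 (L l336 (T t5926 N)))))))) (K a62 (M a2 (F (T t578 (L l19 (L l28 (T t342 N)))))) N))))))))))))⟩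
def e0_63_106__74_42_15 : Ent 4 := ⟨[a0, a63, a106], [a74, a42, a23], (M a48 (F (L l318 (T t304 (L l84 (L l351 (T t551 (L l28 (L l84 (L l318 (T t579 N)))))))))))⟩
def e0_63_106__74_42_16 : Ent 4 := ⟨[a0, a63, a106], [a74, a42, a26], (M a48 (L l54 (F (T t578 (L l28 (L l84 (L l318 (T t579 (L l84 (T t551 (K a10 (Fr a58 a53 l38 (V t6762)) (K a58 (M a10 (F (L l84 (T t551 (L l18 (L l354 (L l426 (T t6598 (L l426 (T t6763 (L l18 (L l354 (T t6449 (L l18 (T t6601 (L l18 (L l426 (T t6450 N)))))))))))))))))) N))))))))))))⟩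
def e0_63_106__74_42_17 : Ent 4 := ⟨[a0, a63, a106], [a74, a42, a27], (M a48 (F (T t578 (L l28 (L l84 (L l318 (T t579 (L l84 (T t551 N)))))))))⟩
def e0_63_106__74_42_18 : Ent 4 := ⟨[a0, a63, a106], [a74, a42, a31], (M a48 (F (L l318 (T t304 (L l84 (L l375 (T t551 (L l28 (L l84 (L l318 (L l361 (T t579 N))))))))))))⟩
def e0_63_106__74_42_19 : Ent 4 := ⟨[a0, a63, a106], [a74, a42, a32], (M a12 (L l28 (F (T t2414 (L l56 (L l84 (T t2415 (L l78 (L l84 (T t2305 (K a37 (M a47 (F (T t2419 (L l54 (L l84 (L l318 (L l376 (T t6764 N)))))))) (K a47 (M a37 (F (T t2416 (L l56 (L l84 (T t2415 (L l78 (L l84 (T t2305 N))))))))) N))))))))))))⟩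
def e0_63_106__74_42_20 : Ent 4 := ⟨[a0, a63, a106], [a74, a42, a33], (M a48 (F (T t578 (L l20 (L l28 (L l84 (L l318 (T t579 (L l84 (T t551 N))))))))))⟩
def e0_63_106__74_42_21 : Ent 4 := ⟨[a0, a63, a106], [a74, a42, a34], (M a48 (L l26 (F (T t578 (L l20 (L l28 (L l84 (L l318 (T t579 (L l84 (T t551 (K a38 (M a46 (F (T t578 (L l56 (L l84 (L l378 (T t4030 N))))))) (K a46 (M a38 (F (T t578 (L l20 (L l28 (L l84 (L l318 (T t579 (L l84 (T t551 N)))))))))) N)))))))))))))⟩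
def e0_63_106__74_42_22 : Ent 4 := ⟨[a0, a63, a106], [a74, a42, a35], (M a48 (F (T t578 (L l20 (L l28 (L l84 (L l318 (T t579 (L l84 (T t551 N))))))))))⟩
def e0_63_106__74_42_23 : Ent 4 := ⟨[a0, a63, a106], [a74, a42, a37], (M a12 (L l28 (F (T t2414 (L l56 (L l84 (T t2415 (L l78 (L l84 (T t2305 (K a32 (M a47 (F (T t2419 (L l54 (L l84 (L l318 (L l376 (T t6764 N)))))))) (K a47 (M a32 (F (T t2414 (L l51 (L l56 (T t682 N)))))) N))))))))))))⟩
def e0_63_106__74_42_24 : Ent 4 := ⟨[a0, a63, a106], [a74, a42, a38], (M a48 (L l26 (F (T t578 (L l28 (L l84 (L l318 (T t579 (L l84 (T t551 (K a34 (M a46 (F (T t578 (L l56 (L l84 (L l378 (T t4030 N))))))) (K a46 (M a34 (F (T t578 (L l29 (L l66 (T t6453 N)))))) N))))))))))))⟩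
def e0_63_106__74_42_25 : Ent 4 := ⟨[a0, a63, a106], [a74, a42, a39], (M a48 (F (T t578 (L l28 (L l84 (L l318 (T t579 (L l84 (T t551 N)))))))))⟩
def e0_63_106__74_42_26 : Ent 4 := ⟨[a0, a63, a106], [a74, a42, a43], (M a48 (L l22 (F (T t578 (L l28 (L l84 (L l318 (T t579 (L l84 (T t551 (K a40 (M a41 (F (T t578 (L l24 (L l28 (L l84 (L l318 (T t579 (L l84 (T t551 N)))))))))) (K a41 (M a40 (F (T t578 (L l29 (L l69 (T t6452 N)))))) N))))))))))))⟩
def e0_63_106__74_42_27 : Ent 4 := ⟨[a0, a63, a106], [a74, a42, a47], (M a12 (L l28 (F (T t2414 (L l56 (L l84 (T t2415 (L l78 (L l84 (T t2305 (K a32 (M a37 (F (T t2416 (L l56 (L l84 (T t2415 (L l78 (L l84 (T t2305 N))))))))) (K a37 (M a32 (F (T t2414 (L l51 (L l56 (T t682 N)))))) N))))))))))))⟩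
def e0_63_106__74_42_28 : Ent 4 := ⟨[a0, a63, a106], [a74, a42, a48], (M a12 (F (T t2419 (L l78 (L l84 (L l508 (T t2305 (L l56 (L l84 (T t2415 N))))))))))⟩
def e0_63_106__74_42_29 : Ent 4 := ⟨[a0, a63, a106], [a74, a42, a49], (M a48 (F (T t578 (L l28 (L l35 (L l84 (L l318 (T t579 (L l84 (T t551 N))))))))))⟩
def e0_63_106__74_42_30 : Ent 4 := ⟨[a0, a63, a106], [a74, a42, a50], (M a48 (F (T t578 (L l28 (L l84 (L l318 (T t579 (L l84 (T t551 N)))))))))⟩
def e0_63_106__74_42_31 : Ent 4 := ⟨[a0, a63, a106], [a74, a42, a51], (M a48 (F (T t2348 (L l28 (L l84 (L l318 (T t579 (L l84 (L l417 (T t551 N))))))))))⟩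
def e0_63_106__74_42_32 : Ent 4 := ⟨[a0, a63, a106], [a74, a42, a53], (M a12 (F (T t2419 (L l78 (L l84 (L l491 (T t2305 (L l56 (L l84 (T t2415 N))))))))))⟩
def e0_63_106__74_42_33 : Ent 4 := ⟨[a0, a63, a106], [a74, a42, a54], (M a48 (F (T t578 (L l28 (L l31 (L l84 (L l318 (T t579 (L l84 (T t551 N))))))))))⟩
def e0_63_106__74_42_34 : Ent 4 := ⟨[a0, a63, a106], [a74, a42, a55], (M a48 (F (L l495 (T t578 (L l28 (L l31 (L l84 (L l318 (T t579 (L l84 (L l495 (T t551 N))))))))))))⟩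
def e0_63_106__74_42_35 : Ent 4 := ⟨[a0, a63, a106], [a74, a42, a58], (M a12 (L l54 (F (T t2414 (L l56 (L l84 (T t2415 (L l78 (L l84 (T t2305 (K a10 (M a26 (L l318 (F (T t2416 (L l2 (L l56 (L l84 (T t2415 (L l78 (L l84 (T t2305 (K a138 (M a202 (F (T t2416 (L l2 (L l56 (L l84 (L l320 (T t2415 (L l78 (L l84 (T t2305 N))))))))))) (K a202 (M a138 (F (T t2416 (L l230 (L l336 (T t2420 N)))))) N))))))))))))) (K a26 (M a10 (F (T t2414 (L l57 (L l66 (L l321 (T t6765 N))))))) N))))))))))))⟩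
def e0_63_106__74_42_36 : Ent 4 := ⟨[a0, a63, a106], [a74, a42, a59], (M a48 (L l56 (F (T t578 (L l28 (L l84 (L l318 (T t579 (L l84 (T t551 (K a8 (M a25 (F (T t578 (L l28 (L l84 (L l318 (T t579 (L l84 (T t551 N))))))))) (K a25 (M a8 (F (T t578 (L l19 (L l28 (T t4700 N)))))) N))))))))))))⟩
def e0_63_106__74_42_37 : Ent 4 := ⟨[a0, a63, a106], [a74, a42, a64], (M a48 (L l84 (F (T t578 (L l28 (L l318 (T t6454 (L l28 (T t6455 (L l28 (L l318 (T t6456 (L l28 (L l318 (L l339 (T t6766 (L l54 (L l339 (T t6458 (K a207 (Fr a192 a149 l519 (Fr a96 a144 l484 (Fr a101 a111 l104 (Fr a32 a16 l40 (V t6459))))) (K a69 (M a79 (F (T t578 (L l123 (L l318 (T t6615 (T t6616 (L l28 (L l318 (T t6617 (L l28 (L l54 (L l318 (L l339 (T t6618 (L l54 (L l311 (L l339 (T t6458 N))))))))))))))))))) (K a79 (M a69 (F (L l318 (T t6767 (L l137 (T t6768 (L l318 (T t446 (L l151 (L l318 (T t6769 N))))))))))) N))))))))))))))))))))))⟩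
def e0_63_106__74_42_38 : Ent 4 := ⟨[a0, a63, a106], [a74, a42, a65], (M a48 (F (T t578 (L l28 (L l76 (L l84 (L l318 (T t579 (L l76 (L l84 (T t551 N)))))))))))⟩
def e0_63_106__74_42_39 : Ent 4 := ⟨[a0, a63, a106], [a74, a42, a66], (M a48 (L l82 (F (T t578 (L l28 (L l76 (L l84 (L l318 (T t579 (L l76 (L l84 (T t551 (K a70 (M a78 (F (T t578 (L l28 (L l76 (L l84 (L l318 (T t579 (L l76 (L l84 (T t551 N))))))))))) (K a78 (M a70 (F (T t578 (L l28 (L l76 (L l84 (L l318 (T t579 (L l76 (L l84 (T t551 N))))))))))) N))))))))))))))⟩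
def e0_63_106__74_42_40 : Ent 4 := ⟨[a0, a63, a106], [a74, a42, a67], (M a48 (F (T t578 (L l28 (L l76 (L l84 (L l318 (T t579 (L l76 (L l84 (T t551 N)))))))))))⟩
def e0_63_106__74_42_41 : Ent 4 := ⟨[a0, a63, a106], [a74, a42, a69], (M a48 (L l84 (F (T t578 (L l28 (T t6462 (L l28 (L l318 (T t6463 (K a64 (M a79 (F (T t578 (L l123 (L l318 (T t6615 (T t6616 (L l28 (L l318 (T t6617 (L l28 (L l54 (L l318 (L l339 (T t6618 (L l54 (L l311 (L l339 (T t6458 N))))))))))))))))))) (K a79 (M a64 (F (T t394 (L l123 (L l151 (T t6464 N)))))) N)))))))))))⟩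
def e0_63_106__74_42_42 : Ent 4 := ⟨[a0, a63, a106], [a74, a42, a70], (M a48 (L l82 (F (T t578 (L l28 (L l84 (L l318 (T t579 (L l84 (T t551 (K a66 (M a78 (F (T t578 (L l28 (L l76 (L l84 (L l318 (T t579 (L l76 (L l84 (T t551 N))))))))))) (K a78 (M a66 (F (T t6712 (L l28 (L l84 (L l318 (T t579 N))))))) N))))))))))))⟩
def e0_63_106__74_42_43 : Ent 4 := ⟨[a0, a63, a106], [a74, a42, a71], (M a48 (F (T t2348 (L l28 (L l84 (L l318 (T t579 (L l84 (T t551 N)))))))))⟩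
def e0_63_106__74_42_44 : Ent 4 := ⟨[a0, a63, a106], [a74, a42, a75], (M a48 (L l78 (F (T t578 (L l28 (L l84 (L l318 (T t579 (L l84 (T t551 (K a72 (M a73 (F (T t578 (L l28 (L l80 (L l84 (L l318 (T t579 (L l80 (L l84 (T t551 N))))))))))) (K a73 (M a72 (F (T t6770 (L l28 (L l84 (L l318 (T t579 N))))))) N))))))))))))⟩
def e0_63_106__74_42_45 : Ent 4 := ⟨[a0, a63, a106], [a74, a42, a79], (M a48 (L l84 (F (L l318 (T t5173 (L l28 (T t6462 (L l28 (L l318 (T t6463 (K a64 (M a69 (F (L l318 (T t6767 (L l137 (T t6768 (L l318 (T t446 (L l151 (L l318 (T t6769 N))))))))))) (K a69 (M a64 (F (T t394 (L l123 (L l151 (T t6464 N)))))) N))))))))))))⟩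
def e0_63_106__74_42_46 : Ent 4 := ⟨[a0, a63, a106], [a74, a42, a80], (M a12 (F (T t2414 (L l56 (L l84 (L l116 (T t2415 (L l78 (L l84 (L l116 (T t2305 N)))))))))))⟩
def e0_63_106__74_42_47 : Ent 4 := ⟨[a0, a63, a106], [a74, a42, a81], (M a48 (F (T t578 (L l28 (L l84 (L l120 (L l318 (T t579 (L l84 (L l120 (T t551 N)))))))))))⟩
def e0_63_106__74_42_48 : Ent 4 := ⟨[a0, a63, a106], [a74, a42, a82], (M a48 (F (T t578 (L l28 (L l84 (L l318 (T t579 (L l84 (L l453 (T t551 N))))))))))⟩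
def e0_63_106__74_42_49 : Ent 4 := ⟨[a0, a63, a106], [a74, a42, a83], (M a48 (F (T t578 (L l28 (L l84 (L l318 (T t579 (L l84 (T t551 N)))))))))⟩
def e0_63_106__74_42_50 : Ent 4 := ⟨[a0, a63, a106], [a74, a42, a85], (M a48 (F (L l318 (L l339 (T t309 (L l84 (L l347 (T t551 (L l54 (L l339 (T t777 (L l318 (L l368 (T t6465 (K a192 (M a56 (L l339 (F (T t6620 (L l350 (L l368 (T t1445 (L l236 (L l318 (T t6621 (K a133 (M a15 (F (L l28 (T t6771 (L l236 (L l318 (T t6621 N))))))) (K a15 (M a133 (F (T t6620 (L l350 (L l368 (T t1445 (L l236 (L l318 (T t6621 N))))))))) N)))))))))))) N)))))))))))))))⟩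
def e0_63_106__74_42_51 : Ent 4 := ⟨[a0, a63, a106], [a74, a42, a86], (M a48 (F (L l318 (T t304 (L l84 (L l351 (T t551 (L l28 (L l84 (L l318 (T t579 N)))))))))))⟩
def e0_63_106__74_42_52 : Ent 4 := ⟨[a0, a63, a106], [a74, a42, a87], (M a48 (F (T t578 (L l28 (L l84 (L l318 (L l367 (T t579 (L l84 (T t551 N))))))))))⟩
def e0_63_106__74_42_53 : Ent 4 := ⟨[a0, a63, a106], [a74, a42, a90], (M a48 (F (L l318 (T t304 (L l84 (L l375 (L l483 (T t551 (L l28 (L l84 (L l318 (T t579 N))))))))))))⟩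
def e0_63_106__74_42_54 : Ent 4 := ⟨[a0, a63, a106], [a74, a42, a91], (M a48 (F (T t578 (L l28 (L l84 (L l318 (T t579 (L l84 (T t551 N)))))))))⟩
def e0_63_106__74_42_55 : Ent 4 := ⟨[a0, a63, a106], [a74, a42, a95], (M a48 (F (L l137 (T t578 (L l28 (T t6462 (L l28 (L l84 (L l318 (L l361 (T t579 N)))))))))))⟩
def e0_63_106__74_42_56 : Ent 4 := ⟨[a0, a63, a106], [a74, a42, a96], (M a12 (F (T t2414 (L l56 (L l84 (L l116 (T t2415 (L l78 (L l84 (L l116 (T t2305 N)))))))))))⟩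
def e0_63_106__74_42_57 : Ent 4 := ⟨[a0, a63, a106], [a74, a42, a97], (M a48 (F (T t578 (L l28 (L l84 (L l318 (L l380 (T t579 (L l84 (L l96 (T t551 N)))))))))))⟩
def e0_63_106__74_42_58 : Ent 4 := ⟨[a0, a63, a106], [a74, a42, a98], (M a48 (F (T t578 (L l28 (L l84 (L l120 (L l318 (T t579 (L l84 (L l96 (L l120 (T t551 N))))))))))))⟩
def e0_63_106__74_42_59 : Ent 4 := ⟨[a0, a63, a106], [a74, a42, a99], (M a48 (F (L l318 (T t307 (L l84 (L l96 (T t551 (L l28 (L l84 (L l318 (T t579 N)))))))))))⟩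
def e0_63_106__74_42_60 : Ent 4 := ⟨[a0, a63, a106], [a74, a42, a101], (M a12 (F (T t2414 (L l56 (L l84 (T t2415 (L l78 (L l84 (L l491 (T t2305 N))))))))))⟩
def e0_63_106__74_42_61 : Ent 4 := ⟨[a0, a63, a106], [a74, a42, a102], (M a48 (F (L l318 (T t304 (L l84 (L l495 (T t551 (L l28 (L l84 (L l318 (T t579 N)))))))))))⟩
def e0_63_106__74_42_62 : Ent 4 := ⟨[a0, a63, a106], [a74, a42, a103], (M a48 (F (L l318 (T t5173 (L l84 (T t551 (L l28 (L l84 (L l318 (T t579 N))))))))))⟩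
def e0_63_106__74_42_63 : Ent 4 := ⟨[a0, a63, a106], [a74, a42, a107], (M a48 (F (L l103 (T t578 (L l28 (L l84 (L l318 (T t579 (L l84 (T t551 N))))))))))⟩
def e0_63_106__74_42_64 : Ent 4 := ⟨[a0, a63, a106], [a74, a42, a111], (M a12 (F (T t2414 (L l56 (L l84 (T t2415 (L l78 (L l84 (T t2305 N)))))))))⟩
def e0_63_106__74_42_65 : Ent 4 := ⟨[a0, a63, a106], [a74, a42, a112], (M a48 (F (T t578 (L l28 (L l116 (T t6462 (L l28 (L l318 (T t6463 N)))))))))⟩
def e0_63_106__74_42_66 : Ent 4 := ⟨[a0, a63, a106], [a74, a42, a113], (M a48 (F (T t578 (L l28 (L l84 (L l318 (T t579 (L l84 (T t551 N)))))))))⟩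
def e0_63_106__74_42_67 : Ent 4 := ⟨[a0, a63, a106], [a74, a42, a114], (M a48 (F (T t578 (L l28 (L l84 (L l318 (T t579 (L l84 (L l417 (T t551 N))))))))))⟩
def e0_63_106__74_42_68 : Ent 4 := ⟨[a0, a63, a106], [a74, a42, a115], (M a48 (F (T t578 (L l28 (L l84 (L l120 (L l318 (T t579 (L l84 (L l120 (T t551 N)))))))))))⟩
def e0_63_106__74_42_69 : Ent 4 := ⟨[a0, a63, a106], [a74, a42, a117], (M a48 (F (T t578 (L l28 (L l84 (L l318 (L l419 (T t579 (L l84 (T t551 N))))))))))⟩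
def e0_63_106__74_42_70 : Ent 4 := ⟨[a0, a63, a106], [a74, a42, a118], (M a48 (F (T t578 (L l28 (L l84 (L l318 (T t579 (L l84 (T t551 N)))))))))⟩
def e0_63_106__74_42_71 : Ent 4 := ⟨[a0, a63, a106], [a74, a42, a119], (M a48 (F (T t578 (L l28 (L l84 (L l318 (T t579 (L l84 (T t551 N)))))))))⟩
def e0_63_106__74_42_72 : Ent 4 := ⟨[a0, a63, a106], [a74, a42, a122], (M a48 (F (T t578 (L l28 (L l84 (L l318 (T t579 (L l84 (T t551 N)))))))))⟩
def e0_63_106__74_42_73 : Ent 4 := ⟨[a0, a63, a106], [a74, a42, a123], (M a48 (F (T t578 (L l28 (L l84 (L l318 (T t579 (L l84 (T t551 N)))))))))⟩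
def e0_63_106__74_42_74 : Ent 4 := ⟨[a0, a63, a106], [a74, a42, a127], (M a48 (F (L l318 (T t307 (L l84 (T t551 (L l28 (L l318 (T t6454 (L l28 (L l318 (T t6479 N))))))))))))⟩
def e0_63_106__74_42_75 : Ent 4 := ⟨[a0, a63, a106], [a74, a42, a128], (M a48 (F (L l54 (L l339 (T t777 (L l28 (L l84 (L l318 (T t579 (L l192 (L l220 (T t6480 (L l54 (L l160 (L l318 (L l339 (T t6481 N)))))))))))))))))⟩
def e0_63_106__74_42_76 : Ent 4 := ⟨[a0, a63, a106], [a74, a42, a129], (M a48 (F (L l318 (T t304 (L l84 (L l217 (T t551 (L l28 (L l84 (L l318 (T t579 N)))))))))))⟩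
def e0_63_106__74_42_77 : Ent 4 := ⟨[a0, a63, a106], [a74, a42, a130], (M a48 (F (T t578 (L l28 (L l84 (L l318 (T t579 (L l84 (T t551 N)))))))))⟩
def e0_63_106__74_42_78 : Ent 4 := ⟨[a0, a63, a106], [a74, a42, a131], (M a48 (F (T t578 (L l28 (L l84 (L l318 (T t579 (L l84 (L l197 (T t551 N))))))))))⟩
def e0_63_106__74_42_79 : Ent 4 := ⟨[a0, a63, a106], [a74, a42, a133], (M a48 (L l339 (F (L l318 (T t304 (L l84 (L l199 (T t551 (L l28 (L l84 (L l318 (T t579 (K a192 (M a15 (F (L l268 (T t6772 (L l28 (L l84 (L l236 (L l318 (T t579 (L l54 (L l268 (L l318 (T t6773 (L l54 (L l268 (T t6774 (L l160 (L l236 (L l268 (T t6775 (L l84 (L l236 (L l268 (L l318 (T t6776 N))))))))))))))))))))))))) (K a15 (Fr a192 a149 l519 (V t6558)) N))))))))))))))⟩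
def e0_63_106__74_42_80 : Ent 4 := ⟨[a0, a63, a106], [a74, a42, a134], (M a48 (L l336 (F (T t578 (L l28 (L l84 (L l318 (T t579 (L l84 (T t551 (K a194 (M a14 (F (T t578 (L l28 (L l84 (L l234 (L l318 (T t579 (L l84 (T t551 N)))))))))) (K a14 (M a194 (F (T t587 (L l28 (L l84 (L l318 (T t579 N))))))) N))))))))))))⟩
def e0_63_106__74_42_81 : Ent 4 := ⟨[a0, a63, a106], [a74, a42, a135], (M a48 (F (T t578 (L l28 (L l84 (L l318 (T t579 (L l84 (T t551 N)))))))))⟩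
def e0_63_106__74_42_82 : Ent 4 := ⟨[a0, a63, a106], [a74, a42, a138], (M a12 (L l318 (F (T t2419 (L l78 (L l84 (T t2305 (L l56 (L l84 (L l320 (T t2415 (K a10 (M a202 (L l54 (F (T t2360 (L l2 (L l56 (L l84 (L l320 (T t2415 (K a26 (Fr a58 a154 l498 (V t2418)) (K a58 (M a26 (F (T t2416 (L l2 (L l56 (L l84 (L l320 (T t2415 (L l78 (L l84 (T t2305 N))))))))))) N))))))))))) (K a202 (M a10 (F (T t2414 (L l66 (L l321 (L l330 (T t6765 N))))))) N)))))))))))))⟩
def e0_63_106__74_42_83 : Ent 4 := ⟨[a0, a63, a106], [a74, a42, a139], (M a48 (F (T t2348 (L l28 (L l84 (L l318 (T t579 (L l84 (T t551 N)))))))))⟩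
def e0_63_106__74_42_84 : Ent 4 := ⟨[a0, a63, a106], [a74, a42, a143], (M a48 (F (T t2348 (L l28 (L l84 (L l318 (T t579 (L l28 (T t6462 N)))))))))⟩
def e0_63_106__74_42_85 : Ent 4 := ⟨[a0, a63, a106], [a74, a42, a144], (M a12 (F (T t2419 (L l78 (L l84 (L l170 (T t2305 (L l56 (L l84 (T t2415 N))))))))))⟩
def e0_63_106__74_42_86 : Ent 4 := ⟨[a0, a63, a106], [a74, a42, a145], (M a48 (F (L l318 (T t585 (L l84 (L l167 (T t551 (L l28 (L l84 (L l318 (T t579 N)))))))))))⟩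
def e0_63_106__74_42_87 : Ent 4 := ⟨[a0, a63, a106], [a74, a42, a146], (M a48 (F (L l318 (T t304 (L l84 (L l197 (T t551 (L l28 (L l84 (L l318 (T t579 N)))))))))))⟩
def e0_63_106__74_42_88 : Ent 4 := ⟨[a0, a63, a106], [a74, a42, a147], (M a48 (F (L l318 (T t304 (L l84 (T t551 (L l28 (L l84 (L l318 (T t579 N))))))))))⟩
def e0_63_106__74_42_89 : Ent 4 := ⟨[a0, a63, a106], [a74, a42, a149], (M a204 (F (L l167 (L l220 (T t6634 (L l56 (L l84 (L l167 (L l495 (T t6635 (L l167 (L l347 (T t6636 (L l56 (L l167 (L l220 (L l495 (T t6637 (K a145 (M a153 (F (T t6638 (L l56 (L l196 (L l220 (L l341 (L l495 (T t6639 (L l196 (L l220 (T t6640 N)))))))))))) (K a153 (M a102 (L l167 (F (T t6641 (L l84 (L l208 (T t6642 (K a145 (Fr a157 a110 l507 (V t6642)) (K a157 (M a145 (F (L l84 (L l208 (T t6642 (L l339 (L l365 (T t6643 (L l220 (T t6644 N)))))))))) N))))))))) (K a157 (M a153 (F (L l495 (T t6777 (L l220 (T t6778 (L l56 (L l220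 (L l495 (T t6639 (L l220 (T t6640 N)))))))))))) (K a98 (M a48 (F (T t2046 (L l28 (L l84 (L l120 (L l318 (L l491 (T t579 (L l318 (L l491 (L l495 (T t6651 N))))))))))))) (K a102 (M a12 (L l495 (F (L l26 (T t737 (L l84 (L l339 (T t752 (L l56 (L l84 (L l371 (T t2415 (K a196 (M a55 (F (L l56 (L l347 (T t6649 (L l150 (L l220 (T t3459 N)))))))) (K a55 (M a196 (F (T t6650 (L l150 (L l220 (T t3459 N)))))) N)))))))))))))) (K a110 (M a48 (F (T t2046 (L l28 (L l84 (L l318 (L l491 (T t579 (L l318 (L l491 (L l495 (T t6651 N)))))))))))) N))))))))))))))))))))))))⟩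
def e0_63_106__74_42_90 : Ent 4 := ⟨[a0, a63, a106], [a74, a42, a150], (M a48 (F (L l318 (T t304 (L l84 (L l163 (T t551 (L l28 (L l84 (L l318 (T t579 N)))))))))))⟩
def e0_63_106__74_42_91 : Ent 4 := ⟨[a0, a63, a106], [a74, a42, a151], (M a48 (F (L l318 (T t304 (L l84 (L l163 (T t551 (L l28 (L l84 (L l318 (T t579 N)))))))))))⟩
def e0_63_106__74_42_92 : Ent 4 := ⟨[a0, a63, a106], [a74, a42, a154], (M a12 (F (T t2414 (L l56 (L l84 (T t2415 (L l78 (L l84 (L l170 (T t2305 N))))))))))⟩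
def e0_63_106__74_42_93 : Ent 4 := ⟨[a0, a63, a106], [a74, a42, a155], (M a48 (F (T t2348 (L l28 (L l84 (L l318 (L l367 (T t579 (L l84 (T t551 N))))))))))⟩
def e0_63_106__74_42_94 : Ent 4 := ⟨[a0, a63, a106], [a74, a42, a159], (M a12 (F (T t2419 (L l78 (L l84 (L l170 (T t2305 (L l56 (L l84 (T t2415 N))))))))))⟩
def e0_63_106__74_42_95 : Ent 4 := ⟨[a0, a63, a106], [a74, a42, a160], (M a12 (F (T t2419 (L l78 (L l84 (T t2305 (L l56 (L l84 (T t2415 N)))))))))⟩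
def e0_63_106__74_42_96 : Ent 4 := ⟨[a0, a63, a106], [a74, a42, a161], (M a48 (F (T t578 (L l28 (L l84 (L l318 (T t579 (L l84 (L l197 (L l453 (T t551 N)))))))))))⟩
def e0_63_106__74_42_97 : Ent 4 := ⟨[a0, a63, a106], [a74, a42, a162], (M a48 (F (T t578 (L l28 (L l84 (L l318 (L l380 (T t579 (L l84 (T t551 N))))))))))⟩
def e0_63_106__74_42_98 : Ent 4 := ⟨[a0, a63, a106], [a74, a42, a163], (M a48 (F (T t578 (L l28 (L l84 (L l318 (T t579 (L l84 (T t551 N)))))))))⟩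
def e0_63_106__74_42_99 : Ent 4 := ⟨[a0, a63, a106], [a74, a42, a165], (M a48 (F (L l318 (T t304 (L l28 (L l199 (L l483 (T t6462 (L l28 (L l84 (L l318 (T t579 N))))))))))))⟩
def e0_63_106__74_42_100 : Ent 4 := ⟨[a0, a63, a106], [a74, a42, a166], (M a48 (F (L l318 (T t304 (L l84 (L l202 (T t551 (L l28 (L l84 (L l318 (T t579 N)))))))))))⟩
def e0_63_106__74_42_101 : Ent 4 := ⟨[a0, a63, a106], [a74, a42, a167], (M a48 (F (T t578 (L l28 (L l84 (L l318 (T t579 (L l84 (T t551 N)))))))))⟩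
def e0_63_106__74_42_102 : Ent 4 := ⟨[a0, a63, a106], [a74, a42, a170], (M a48 (F (L l318 (T t304 (L l84 (L l220 (T t551 (L l28 (L l84 (L l206 (L l220 (L l318 (L l404 (T t552 (L l28 (L l84 (L l206 (L l318 (L l404 (T t553 N))))))))))))))))))))⟩
def e0_63_106__74_42_103 : Ent 4 := ⟨[a0, a63, a106], [a74, a42, a171], (M a48 (F (T t578 (L l28 (L l84 (L l318 (T t579 (L l84 (T t551 N)))))))))⟩
def e0_63_106__74_42_104 : Ent 4 := ⟨[a0, a63, a106], [a74, a42, a175], (M a48 (F (L l397 (T t578 (L l84 (T t551 (L l28 (L l84 (L l318 (T t579 N))))))))))⟩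
def e0_63_106__74_42_105 : Ent 4 := ⟨[a0, a63, a106], [a74, a42, a176], (M a12 (F (T t2414 (L l56 (L l84 (T t2415 (L l78 (L l84 (L l222 (T t2305 N))))))))))⟩
def e0_63_106__74_42_106 : Ent 4 := ⟨[a0, a63, a106], [a74, a42, a177], (M a48 (F (T t578 (L l28 (L l84 (L l318 (T t579 (L l84 (L l182 (L l417 (T t551 N)))))))))))⟩
def e0_63_106__74_42_107 : Ent 4 := ⟨[a0, a63, a106], [a74, a42, a178], (M a48 (F (T t578 (L l28 (L l84 (L l318 (T t579 (L l84 (L l182 (T t551 N))))))))))⟩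
def e0_63_106__74_42_108 : Ent 4 := ⟨[a0, a63, a106], [a74, a42, a179], (M a48 (F (T t578 (L l28 (L l84 (L l318 (T t579 (L l84 (L l182 (T t551 N))))))))))⟩
def e0_63_106__74_42_109 : Ent 4 := ⟨[a0, a63, a106], [a74, a42, a181], (M a48 (F (L l199 (T t578 (L l28 (L l84 (L l318 (L l419 (T t579 (L l84 (L l190 (L l199 (T t551 N)))))))))))))⟩
def e0_63_106__74_42_110 : Ent 4 := ⟨[a0, a63, a106], [a74, a42, a182], (M a48 (F (T t578 (L l28 (L l84 (L l318 (T t579 (L l84 (T t551 N)))))))))⟩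
def e0_63_106__74_42_111 : Ent 4 := ⟨[a0, a63, a106], [a74, a42, a183], (M a48 (F (L l318 (T t304 (L l84 (L l202 (T t551 (L l28 (L l84 (L l318 (T t579 N)))))))))))⟩
def e0_63_106__74_42_112 : Ent 4 := ⟨[a0, a63, a106], [a74, a42, a186], (M a48 (F (T t578 (L l28 (L l84 (L l318 (T t579 (L l84 (L l190 (T t551 N))))))))))⟩
def e0_63_106__74_42_113 : Ent 4 := ⟨[a0, a63, a106], [a74, a42, a187], (M a48 (F (T t578 (L l28 (L l84 (L l318 (T t579 (L l84 (T t551 N)))))))))⟩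
def e0_63_106__74_42_114 : Ent 4 := ⟨[a0, a63, a106], [a74, a42, a191], (M a48 (F (L l318 (T t585 (L l84 (L l190 (L l220 (T t551 (L l28 (L l318 (T t6498 (L l28 (L l84 (L l318 (T t6499 N)))))))))))))))⟩
def e0_63_106__74_42_115 : Ent 4 := ⟨[a0, a63, a106], [a74, a42, a192], (M a204 (L l339 (F (L l84 (L l489 (T t6655 (L l272 (L l489 (T t6656 (L l296 (L l489 (T t6657 (L l56 (L l489 (T t6658 (L l84 (L l489 (T t6659 (K a145 (M a102 (L l339 (L l489 (F (T t6641 (T t6660 (K a133 (M a15 (L l489 (F (T t6641 (L l157 (L l268 (T t6779 (K a98 (Fr a51 a153 l513 (V t6780)) (K a51 (Fr a98 a110 l102 (V t6781)) N))))))))) (K a98 (Fr a51 a153 l513 (V t6731)) (K a51 (Fr a98 a110 l102 (V t6662)) (K a15 (M a133 (L l489 (F (T t6641 (T t6660 (K a98 (Fr a51 a153 l513 (V t6731)) (K a51 (Fr a98 a110 l102 (V t6662)) N))))))) N)))))))))) (K a85 (M a15 (F (T t6782 (L l82 (L l268 (L l321 (T t6783 (L l94 (L l268 (T t6784 (L l268 (L l365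 (L l489 (T t6785 N)))))))))))))) (K a157 (M a48 (L l339 (F (T t5482 (L l28 (L l84 (L l236 (L l318 (T t579 (L l236 (L l318 (T t6651 (K a133 (M a15 (F (T t6676 (L l84 (L l236 (L l318 (T t6786 N))))))) (K a15 (M a133 (F (T t6676 (L l28 (L l84 (L l236 (L l318 (T t579 (L l236 (L l318 (T t6651 N))))))))))) N)))))))))))))) (K a98 (M a252 (L l339 (L l489 (F (T t6787 (L l484 (T t6673 (L l82 (L l84 (L l118 (L l120 (L l309 (T t6675 (K a145 (M a51 (L l339 (F (T t6754 (L l484 (T t6673 (K a133 (M a15 (F (T t6754 (L l28 (T t6788 N))))) (K a15 (M a133 (F (T t6789 (L l28 (L l75 (L l484 (T t6734 N))))))) N)))))))) (K a133 (M a15 (L l489 (F (T t6790 (L l82 (L l118 (L l309 (T t6476 (K a145 (M a51 (F (T t6754 (L l28 (T t6788 N))))) (K a51 (M a145 (F (T t6791 (L l28 (L l30 (L l484 (T t6734 N))))))) N)))))))))) (K a51 (M a145 (L l339 (F (T t6787 (L l30 (L l484 (T t6673 (L l82 (L l118 (L l309 (T t6476 (K a133 (M a15 (F (T t6791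 (L l28 (L l30 (L l484 (T t6734 N))))))) (K a15 (M a133 (L l73 (F (T t6792 (T t6793 (K a39 (M a27 (F (T t6792 (L l82 (L l118 (L l309 (T t6476 (L l43 (T t6794 N))))))))) (K a27 (M a39 (F (T t6792 (L l357 (T t6793 N))))) N))))))) N))))))))))))) (K a15 (M a133 (L l489 (F (T t6795 (L l82 (L l118 (L l309 (L l321 (T t6796 (L l82 (L l118 (L l309 (T t6476 (K a145 (M a51 (F (T t6789 (L l28 (L l75 (L l484 (T t6734 N))))))) (K a51 (M a145 (L l73 (F (T t6792 (T t6793 (K a39 (M a27 (F (T t6792 (L l82 (L l118 (L l309 (T t6476 (L l43 (T t6794 N))))))))) (K a27 (M a39 (F (T t6792 (L l357 (T t6793 N))))) N))))))) N))))))))))))))) N))))))))))))))))) (K a102 (M a47 (L l339 (F (T t6797 (L l54 (L l84 (L l268 (L l318 (T t6764 (L l292 (L l387 (L l484 (T t6798 (K a133 (Fr a15 a31 l61 (V t6799)) (K a15 (M a133 (F (L l268 (L l471 (L l489 (T t6800 (L l268 (L l402 (L l484 (L l495 (T t6801 (L l126 (L l471 (T t6802 N)))))))))))))) N)))))))))))))))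 (K a110 (M a48 (L l339 (F (T t6676 (L l28 (L l84 (L l236 (L l318 (T t579 (L l236 (L l318 (T t6651 (K a133 (M a15 (F (T t6676 (L l54 (L l84 (L l268 (L l318 (T t2532 N)))))))) (K a15 (M a133 (F (T t6676 (L l28 (L l84 (L l236 (L l318 (T t579 (L l236 (L l318 (T t6651 N))))))))))) N)))))))))))))) (K a51 (M a69 (L l339 (L l489 (F (L l321 (T t6758 (L l318 (L l484 (T t6803 (L l43 (L l309 (T t6804 (L l292 (L l321 (T t6805 (K a145 (M a98 (L l339 (F (T t6678 (L l321 (T t6758 (K a133 (M a15 (F (T t6678 (L l157 (L l321 (T t6758 N)))))) (K a15 (M a133 (L l73 (F (T t6678 (L l321 (T t6758 (K a39 (M a27 (F (T t6678 (L l321 (T t6758 N))))) (K a27 (M a39 (F (T t6678 (L l236 (L l321 (L l325 (L l511 (T t6759 N)))))))) N)))))))) N)))))))) (K a133 (M a15 (L l489 (F (L l157 (T t6806 (L l160 (L l318 (L l484 (T t6803 (K a145 (M a98 (F (T t6678 (L l157 (L l321 (T t6758 N)))))) (K a98 (M a145 (F (L l157 (T t6782 (L l96 (L l160 (L l318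 (L l484 (T t6751 N))))))))) N))))))))))) (K a98 (M a145 (L l339 (F (L l321 (T t6758 (L l96 (L l120 (L l318 (L l484 (T t6803 (L l334 (L l439 (T t6807 (K a133 (M a15 (F (L l157 (T t6782 (L l96 (L l160 (L l318 (L l484 (T t6751 N))))))))) (K a15 (M a133 (L l73 (F (L l7 (T t6750 (L l39 (L l63 (L l66 (L l318 (L l514 (T t2460 (K a39 (M a27 (F (L l318 (T t6760 (L l7 (L l49 (T t6750 N))))))) (K a27 (M a39 (F (L l318 (T t6760 (L l7 (T t6750 N)))))) N))))))))))))) N))))))))))))))) (K a15 (M a133 (L l73 (L l489 (F (L l7 (T t6750 (L l39 (L l63 (L l66 (L l318 (L l514 (T t2460 (K a145 (M a98 (L l73 (F (T t6678 (L l321 (T t6758 (K a39 (M a27 (F (T t6678 (L l321 (T t6758 N))))) (K a27 (M a39 (F (T t6678 (L l236 (L l321 (L l325 (L l511 (T t6759 N)))))))) N)))))))) (K a98 (M a145 (L l73 (F (L l7 (T t6750 (L l39 (L l63 (L l66 (L l318 (L l514 (T t2460 (K a39 (M a27 (F (L l318 (T t6760 (L l7 (L l49 (T t6750 N))))))) (K a27 (M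 a39 (F (L l318 (T t6760 (L l7 (T t6750 N)))))) N))))))))))))) (K a39 (M a27 (L l489 (F (L l318 (T t6760 (L l7 (L l49 (T t6750 (K a145 (M a98 (F (T t6678 (L l321 (T t6758 N))))) (K a98 (M a145 (F (L l318 (T t6760 (L l7 (L l49 (T t6750 N))))))) N)))))))))) (K a27 (M a39 (L l489 (F (L l318 (T t6760 (L l7 (T t6750 (K a145 (M a98 (F (T t6678 (L l236 (L l321 (L l325 (L l511 (T t6759 N)))))))) (K a98 (M a145 (F (L l318 (T t6760 (L l7 (T t6750 N)))))) N))))))))) N)))))))))))))))) N))))))))))))))))))) (K a133 (M a15 (F (L l292 (T t6808 (L l54 (L l84 (L l268 (L l318 (T t2532 (L l489 (T t6634 N))))))))))) (K a15 (M a133 (F (L l84 (L l489 (T t6655 (L l272 (L l489 (T t6656 (L l296 (L l469 (L l489 (T t6657 (L l56 (L l489 (T t6658 (L l84 (L l489 (T t6659 (K a145 (M a102 (L l489 (F (T t6641 (T t6660 (K a98 (Fr a51 a153 l513 (V t6731)) (K a51 (Fr a98 a110 l102 (V t6662)) N))))))) (K a85 (M a48 (F (L l292 (L l471 (T t2046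 (L l236 (L l318 (L l489 (T t6749 N))))))))) (K a157 (M a69 (F (L l7 (T t6750 (L l165 (L l318 (L l484 (T t6751 N)))))))) (K a98 (M a137 (L l489 (F (L l325 (T t6752 (L l82 (L l292 (T t6753 (K a145 (M a51 (F (T t6754 (L l66 (L l82 (L l236 (L l325 (T t2384 N)))))))) (K a51 (M a145 (L l73 (F (L l82 (L l441 (T t6755 (L l325 (T t6752 (K a39 (M a27 (F (L l82 (L l441 (T t6755 (L l325 (T t6752 N))))))) (K a27 (M a39 (F (L l82 (L l441 (T t6755 (L l325 (T t6752 N))))))) N)))))))))) N)))))))))) (K a102 (M a4 (F (L l56 (T t6756 (L l318 (L l337 (L l495 (L l510 (T t6757 N))))))))) (K a110 (M a69 (F (L l7 (T t6750 (L l318 (L l484 (T t6751 N))))))) (K a51 (M a69 (L l73 (L l489 (F (L l7 (T t6750 (L l39 (L l63 (L l66 (L l318 (L l514 (T t2460 (K a145 (M a98 (L l73 (F (T t6678 (L l321 (T t6758 (K a39 (M a27 (F (T t6678 (L l321 (T t6758 N))))) (K a27 (M a39 (F (T t6678 (L l236 (L l321 (L l325 (L l511 (T t6759 N)))))))) N))))))))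 (K a98 (M a145 (L l73 (F (L l7 (T t6750 (L l39 (L l63 (L l66 (L l318 (L l514 (T t2460 (K a39 (M a27 (F (L l318 (T t6760 (L l7 (L l49 (T t6750 N))))))) (K a27 (M a39 (F (L l318 (T t6760 (L l7 (T t6750 N)))))) N))))))))))))) (K a39 (M a27 (L l489 (F (L l318 (T t6760 (L l7 (L l49 (T t6750 (K a145 (M a98 (F (T t6678 (L l321 (T t6758 N))))) (K a98 (M a145 (F (L l318 (T t6760 (L l7 (L l49 (T t6750 N))))))) N)))))))))) (K a27 (M a39 (L l489 (F (L l318 (T t6760 (L l7 (T t6750 (K a145 (M a98 (F (T t6678 (L l236 (L l321 (L l325 (L l511 (T t6759 N)))))))) (K a98 (M a145 (F (L l318 (T t6760 (L l7 (T t6750 N)))))) N))))))))) N)))))))))))))))) N))))))))))))))))))))))))) N)))))))))))))))))))))))))))⟩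
def e0_63_106__74_42_116 : Ent 4 := ⟨[a0, a63, a106], [a74, a42, a193], (M a48 (F (L l318 (T t304 (L l84 (L l515 (T t551 (L l28 (L l84 (L l318 (T t579 N)))))))))))⟩
def e0_63_106__74_42_117 : Ent 4 := ⟨[a0, a63, a106], [a74, a42, a194], (M a48 (L l336 (F (T t578 (L l28 (L l84 (L l234 (L l318 (T t579 (L l84 (T t551 (K a134 (M a14 (F (T t578 (L l28 (L l84 (L l234 (L l318 (T t579 (L l84 (T t551 N)))))))))) (K a14 (M a134 (F (T t578 (L l28 (L l84 (L l234 (L l318 (T t579 (L l84 (T t551 N)))))))))) N)))))))))))))⟩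
def e0_63_106__74_42_118 : Ent 4 := ⟨[a0, a63, a106], [a74, a42, a195], (M a48 (F (T t2348 (L l28 (L l84 (L l318 (T t579 (L l84 (L l273 (T t551 N))))))))))⟩
def e0_63_106__74_42_119 : Ent 4 := ⟨[a0, a63, a106], [a74, a42, a197], (M a12 (F (T t2419 (L l78 (L l84 (L l491 (T t2305 (L l56 (L l84 (T t2415 N))))))))))⟩
def e0_63_106__74_42_120 : Ent 4 := ⟨[a0, a63, a106], [a74, a42, a198], (M a48 (F (T t578 (L l28 (L l84 (L l234 (L l318 (T t579 (L l84 (T t551 N))))))))))⟩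
def e0_63_106__74_42_121 : Ent 4 := ⟨[a0, a63, a106], [a74, a42, a199], (M a48 (F (T t2348 (L l28 (L l84 (L l318 (T t579 (L l84 (T t551 N)))))))))⟩
def e0_63_106__74_42_122 : Ent 4 := ⟨[a0, a63, a106], [a74, a42, a202], (M a12 (L l318 (F (T t2414 (L l56 (L l84 (T t2415 (L l78 (L l84 (T t2305 (K a10 (M a138 (L l54 (F (T t2414 (L l230 (L l336 (T t2420 (K a26 (M a58 (F (T t2416 (L l84 (L l230 (T t2439 N)))))) (K a58 (M a26 (F (T t2416 (L l230 (L l336 (T t2420 N)))))) N))))))))) (K a138 (M a10 (F (T t2414 (L l66 (L l321 (L l330 (T t6765 N))))))) N))))))))))))⟩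
def e0_63_106__74_42_123 : Ent 4 := ⟨[a0, a63, a106], [a74, a42, a203], (M a48 (F (T t2348 (L l28 (L l84 (L l230 (L l318 (T t579 (L l84 (T t551 N))))))))))⟩
def e0_63_106__74_42_124 : Ent 4 := ⟨[a0, a63, a106], [a74, a42, a207], (M a12 (F (T t2419 (L l78 (L l84 (L l231 (T t2305 (L l56 (L l84 (T t2415 N))))))))))⟩
def e0_63_106__74_42_125 : Ent 4 := ⟨[a0, a63, a106], [a74, a42, a208], (M a12 (F (T t2419 (L l78 (L l84 (L l375 (T t2305 (L l56 (L l84 (T t2415 N))))))))))⟩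
def e0_63_106__74_42_126 : Ent 4 := ⟨[a0, a63, a106], [a74, a42, a209], (M a48 (F (L l318 (T t304 (L l84 (L l371 (T t551 (L l28 (L l84 (L l318 (T t579 N)))))))))))⟩
def e0_63_106__74_42_127 : Ent 4 := ⟨[a0, a63, a106], [a74, a42, a210], (M a48 (F (T t578 (L l28 (L l84 (L l318 (T t579 (L l84 (L l273 (T t551 N))))))))))⟩
def e0_63_106__74_42_128 : Ent 4 := ⟨[a0, a63, a106], [a74, a42, a211], (M a48 (F (T t578 (L l28 (L l84 (L l245 (L l318 (T t579 (L l84 (T t551 N))))))))))⟩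
def e0_63_106__74_42_129 : Ent 4 := ⟨[a0, a63, a106], [a74, a42, a213], (M a48 (F (L l318 (T t304 (L l84 (L l347 (T t551 (L l28 (L l84 (L l246 (L l318 (T t579 N))))))))))))⟩
def e0_63_106__74_42_130 : Ent 4 := ⟨[a0, a63, a106], [a74, a42, a214], (M a48 (F (T t578 (L l28 (L l84 (L l318 (T t579 (L l84 (T t551 N)))))))))⟩
def e0_63_106__74_42_131 : Ent 4 := ⟨[a0, a63, a106], [a74, a42, a215], (M a48 (F (T t578 (L l28 (L l84 (L l245 (L l318 (T t579 (L l84 (T t551 N))))))))))⟩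
def e0_63_106__74_42_132 : Ent 4 := ⟨[a0, a63, a106], [a74, a42, a218], (M a48 (F (T t2348 (L l28 (L l84 (L l246 (L l282 (L l318 (T t579 (L l84 (L l303 (T t551 N))))))))))))⟩
def e0_63_106__74_42_133 : Ent 4 := ⟨[a0, a63, a106], [a74, a42, a219], (M a48 (F (T t2348 (L l28 (L l84 (L l245 (L l318 (T t579 (L l84 (T t551 N))))))))))⟩
def e0_63_106__74_42_134 : Ent 4 := ⟨[a0, a63, a106], [a74, a42, a223], (M a12 (F (T t2414 (L l56 (L l84 (T t2415 (L l78 (L l84 (T t2305 N)))))))))⟩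
def e0_63_106__74_42_135 : Ent 4 := ⟨[a0, a63, a106], [a74, a42, a224], (M a48 (F (L l318 (T t585 (L l84 (L l268 (L l376 (T t551 (L l28 (L l84 (L l318 (L l376 (T t579 N)))))))))))))⟩
def e0_63_106__74_42_136 : Ent 4 := ⟨[a0, a63, a106], [a74, a42, a225], (M a48 (F (T t578 (L l28 (L l84 (L l318 (T t579 (L l84 (L l273 (T t551 N))))))))))⟩
def e0_63_106__74_42_137 : Ent 4 := ⟨[a0, a63, a106], [a74, a42, a226], (M a48 (F (T t578 (L l28 (L l84 (L l318 (T t579 (L l84 (T t551 N)))))))))⟩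
def e0_63_106__74_42_138 : Ent 4 := ⟨[a0, a63, a106], [a74, a42, a227], (M a48 (F (T t578 (L l28 (L l84 (L l318 (L l380 (T t579 (L l84 (T t551 N))))))))))⟩
def e0_63_106__74_42_139 : Ent 4 := ⟨[a0, a63, a106], [a74, a42, a229], (M a48 (F (T t2348 (L l28 (L l84 (L l318 (T t579 (L l84 (L l303 (T t551 N))))))))))⟩
def e0_63_106__74_42_140 : Ent 4 := ⟨[a0, a63, a106], [a74, a42, a230], (M a48 (F (T t578 (L l28 (L l84 (L l318 (T t579 (L l84 (T t551 N)))))))))⟩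
def e0_63_106__74_42_141 : Ent 4 := ⟨[a0, a63, a106], [a74, a42, a231], (M a48 (F (T t2348 (L l28 (L l84 (L l318 (T t579 (L l84 (T t551 N)))))))))⟩
def e0_63_106__74_42_142 : Ent 4 := ⟨[a0, a63, a106], [a74, a42, a234], (M a48 (F (T t578 (L l28 (L l84 (L l282 (L l318 (T t579 (L l84 (T t551 N))))))))))⟩
def e0_63_106__74_42_143 : Ent 4 := ⟨[a0, a63, a106], [a74, a42, a235], (M a48 (F (T t578 (L l28 (L l84 (L l318 (T t579 (L l84 (T t551 N)))))))))⟩
def e0_63_106__74_42_144 : Ent 4 := ⟨[a0, a63, a106], [a74, a42, a239], (M a48 (F (L l397 (T t2348 (L l84 (T t551 (L l28 (L l84 (L l289 (L l318 (L l404 (T t579 N))))))))))))⟩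
def e0_63_106__74_42_145 : Ent 4 := ⟨[a0, a63, a106], [a74, a42, a240], (M a12 (F (T t2419 (L l78 (L l84 (L l298 (T t2305 (L l56 (L l84 (T t2415 N))))))))))⟩
def e0_63_106__74_42_146 : Ent 4 := ⟨[a0, a63, a106], [a74, a42, a241], (M a48 (F (T t578 (L l28 (L l84 (L l318 (T t579 (L l84 (L l258 (T t551 N))))))))))⟩
def e0_63_106__74_42_147 : Ent 4 := ⟨[a0, a63, a106], [a74, a42, a242], (M a48 (F (T t578 (L l28 (L l84 (L l318 (T t579 (L l84 (L l258 (T t551 N))))))))))⟩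
def e0_63_106__74_42_148 : Ent 4 := ⟨[a0, a63, a106], [a74, a42, a243], (M a48 (F (T t2348 (L l28 (L l84 (L l318 (T t579 (L l84 (L l258 (T t551 N))))))))))⟩
def e0_63_106__74_42_149 : Ent 4 := ⟨[a0, a63, a106], [a74, a42, a245], (M a48 (F (T t578 (L l28 (L l84 (L l318 (L l419 (T t579 (L l84 (L l266 (T t551 N)))))))))))⟩
def e0_63_106__74_42_150 : Ent 4 := ⟨[a0, a63, a106], [a74, a42, a246], (M a48 (F (T t578 (L l28 (L l84 (L l318 (T t579 (L l84 (T t551 N)))))))))⟩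
def e0_63_106__74_42_151 : Ent 4 := ⟨[a0, a63, a106], [a74, a42, a247], (M a48 (F (T t578 (L l28 (L l84 (L l318 (T t579 (L l84 (T t551 N)))))))))⟩
def e0_63_106__74_42_152 : Ent 4 := ⟨[a0, a63, a106], [a74, a42, a250], (M a48 (F (T t578 (L l28 (L l84 (L l282 (L l318 (T t579 (L l84 (L l266 (T t551 N)))))))))))⟩
def e0_63_106__74_42_153 : Ent 4 := ⟨[a0, a63, a106], [a74, a42, a251], (M a48 (F (T t578 (L l28 (L l84 (L l318 (T t579 (L l84 (T t551 N)))))))))⟩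
def e0_63_106__74_42_154 : Ent 4 := ⟨[a0, a63, a106], [a74, a42, a255], (M a48 (F (T t2348 (L l84 (L l266 (T t551 (L l28 (L l318 (L l469 (T t6526 (L l28 (L l289 (L l318 (T t6527 N))))))))))))))⟩
def b0_63_106__74_42 : Blk 4 := ⟨[0, 63, 106], [74, 42], [1, 2, 3, 5, 6, 7, 10, 11, 15, 16, 17, 18, 19, 21, 22, 23, 26, 27, 31, 32, 33, 34, 35, 37, 38, 39, 43, 47, 48, 49, 50, 51, 53, 54, 55, 58, 59, 64, 65, 66, 67, 69, 70, 71, 75, 79, 80, 81, 82, 83, 85, 86, 87, 90, 91, 95, 96, 97, 98, 99, 101, 102, 103, 107, 111, 112, 113, 114, 115, 117, 118, 119, 122, 123, 127, 128, 129, 130, 131, 133, 134, 135, 138, 139, 143, 144, 145, 146, 147, 149, 150, 151, 154, 155, 159, 160, 161, 162, 163, 165, 166, 167, 170, 171, 175, 176, 177, 178, 179, 181, 182, 183, 186, 187, 191, 192, 193, 194, 195, 197, 198, 199, 202, 203, 207, 208, 209, 210, 211, 213, 214, 215, 218, 219, 223, 224, 225, 226, 227, 229, 230, 231, 234, 235, 239, 240,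 241, 242, 243, 245, 246, 247, 250, 251, 255], [e0_63_106__74_42_0, e0_63_106__74_42_1, e0_63_106__74_42_2, e0_63_106__74_42_3, e0_63_106__74_42_4, e0_63_106__74_42_5, e0_63_106__74_42_6, e0_63_106__74_42_7, e0_63_106__74_42_8, e0_63_106__74_42_9, e0_63_106__74_42_10, e0_63_106__74_42_11, e0_63_106__74_42_12, e0_63_106__74_42_13, e0_63_106__74_42_14, e0_63_106__74_42_15, e0_63_106__74_42_16, e0_63_106__74_42_17, e0_63_106__74_42_18, e0_63_106__74_42_19, e0_63_106__74_42_20, e0_63_106__74_42_21, e0_63_106__74_42_22, e0_63_106__74_42_23, e0_63_106__74_42_24, e0_63_106__74_42_25, e0_63_106__74_42_26, e0_63_106__74_42_27, e0_63_106__74_42_28, e0_63_106__74_42_29, e0_63_106__74_42_30, e0_63_106__74_42_31, e0_63_106__74_42_32, e0_63_106__74_42_33, e0_63_106__74_42_34, e0_63_106__74_42_35, e0_63_106__74_42_36, e0_63_106__74_42_37, e0_63_106__74_42_38, e0_63_106__74_42_39, e0_63_106__74_42_40, e0_63_106__74_42_41,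 e0_63_106__74_42_42, e0_63_106__74_42_43, e0_63_106__74_42_44, e0_63_106__74_42_45, e0_63_106__74_42_46, e0_63_106__74_42_47, e0_63_106__74_42_48, e0_63_106__74_42_49, e0_63_106__74_42_50, e0_63_106__74_42_51, e0_63_106__74_42_52, e0_63_106__74_42_53, e0_63_106__74_42_54, e0_63_106__74_42_55, e0_63_106__74_42_56, e0_63_106__74_42_57, e0_63_106__74_42_58, e0_63_106__74_42_59, e0_63_106__74_42_60, e0_63_106__74_42_61, e0_63_106__74_42_62, e0_63_106__74_42_63, e0_63_106__74_42_64, e0_63_106__74_42_65, e0_63_106__74_42_66, e0_63_106__74_42_67, e0_63_106__74_42_68, e0_63_106__74_42_69, e0_63_106__74_42_70, e0_63_106__74_42_71, e0_63_106__74_42_72, e0_63_106__74_42_73, e0_63_106__74_42_74, e0_63_106__74_42_75, e0_63_106__74_42_76, e0_63_106__74_42_77, e0_63_106__74_42_78, e0_63_106__74_42_79, e0_63_106__74_42_80, e0_63_106__74_42_81, e0_63_106__74_42_82, e0_63_106__74_42_83, e0_63_106__74_42_84, e0_63_106__74_42_85,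 e0_63_106__74_42_86, e0_63_106__74_42_87, e0_63_106__74_42_88, e0_63_106__74_42_89, e0_63_106__74_42_90, e0_63_106__74_42_91, e0_63_106__74_42_92, e0_63_106__74_42_93, e0_63_106__74_42_94, e0_63_106__74_42_95, e0_63_106__74_42_96, e0_63_106__74_42_97, e0_63_106__74_42_98, e0_63_106__74_42_99, e0_63_106__74_42_100, e0_63_106__74_42_101, e0_63_106__74_42_102, e0_63_106__74_42_103, e0_63_106__74_42_104, e0_63_106__74_42_105, e0_63_106__74_42_106, e0_63_106__74_42_107, e0_63_106__74_42_108, e0_63_106__74_42_109, e0_63_106__74_42_110, e0_63_106__74_42_111, e0_63_106__74_42_112, e0_63_106__74_42_113, e0_63_106__74_42_114, e0_63_106__74_42_115, e0_63_106__74_42_116, e0_63_106__74_42_117, e0_63_106__74_42_118, e0_63_106__74_42_119, e0_63_106__74_42_120, e0_63_106__74_42_121, e0_63_106__74_42_122, e0_63_106__74_42_123, e0_63_106__74_42_124, e0_63_106__74_42_125, e0_63_106__74_42_126, e0_63_106__74_42_127, e0_63_106__74_42_128,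 e0_63_106__74_42_129, e0_63_106__74_42_130, e0_63_106__74_42_131, e0_63_106__74_42_132, e0_63_106__74_42_133, e0_63_106__74_42_134, e0_63_106__74_42_135, e0_63_106__74_42_136, e0_63_106__74_42_137, e0_63_106__74_42_138, e0_63_106__74_42_139, e0_63_106__74_42_140, e0_63_106__74_42_141, e0_63_106__74_42_142, e0_63_106__74_42_143, e0_63_106__74_42_144, e0_63_106__74_42_145, e0_63_106__74_42_146, e0_63_106__74_42_147, e0_63_106__74_42_148, e0_63_106__74_42_149, e0_63_106__74_42_150, e0_63_106__74_42_151, e0_63_106__74_42_152, e0_63_106__74_42_153, e0_63_106__74_42_154], by decide +kernel, by decide +kernel⟩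
def e0_63_106__75_42_0 : Ent 4 := ⟨[a0, a63, a106], [a75, a42, a1], (M a48 (F (T t309 (T t551 (L l28 (T t579 N))))))⟩
def e0_63_106__75_42_1 : Ent 4 := ⟨[a0, a63, a106], [a75, a42, a2], (M a48 (L l66 (F (T t309 (T t551 (L l28 (T t579 (K a22 (M a62 (F (T t585 (L l22 (L l306 (T t5926 N)))))) (K a62 (M a22 (F (T t578 (L l28 (T t579 (T t551 N)))))) N)))))))))⟩
def e0_63_106__75_42_2 : Ent 4 := ⟨[a0, a63, a106], [a75, a42, a3], (M a48 (F (T t585 (L l453 (T t551 (L l28 (T t579 N)))))))⟩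
def e0_63_106__75_42_3 : Ent 4 := ⟨[a0, a63, a106], [a75, a42, a4], (M a48 (F (T t309 (T t551 (L l28 (T t579 N))))))⟩
def e0_63_106__75_42_4 : Ent 4 := ⟨[a0, a63, a106], [a75, a42, a5], (M a48 (F (T t578 (L l28 (L l47 (T t579 (T t551 N)))))))⟩
def e0_63_106__75_42_5 : Ent 4 := ⟨[a0, a63, a106], [a75, a42, a6], (M a48 (F (T t309 (T t551 (L l28 (T t579 N))))))⟩
def e0_63_106__75_42_6 : Ent 4 := ⟨[a0, a63, a106], [a75, a42, a7], (M a48 (F (T t309 (T t551 (L l28 (T t579 N))))))⟩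
def e0_63_106__75_42_7 : Ent 4 := ⟨[a0, a63, a106], [a75, a42, a8], (M a48 (L l56 (F (T t309 (T t551 (L l28 (T t579 (K a25 (M a59 (F (T t307 (L l26 (L l316 (T t6445 N)))))) (K a59 (M a25 (F (T t578 (L l28 (T t579 (T t551 N)))))) N)))))))))⟩
def e0_63_106__75_42_8 : Ent 4 := ⟨[a0, a63, a106], [a75, a42, a9], (M a48 (F (T t309 (T t551 (L l28 (T t579 N))))))⟩
def e0_63_106__75_42_9 : Ent 4 := ⟨[a0, a63, a106], [a75, a42, a10], (M a48 (L l54 (F (T t578 (L l28 (L l318 (T t579 (T t551 (K a26 (Fr a58 a53 l38 (V t6446)) (K a58 (M a26 (F (L l28 (T t4144 (T t551 (L l28 (L l426 (T t6447 (K a32 (Fr a192 a149 l519 (Fr a15 a37 l75 (Fr a47 a31 l61 (V t6528)))) N))))))))) N))))))))))⟩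
def e0_63_106__75_42_10 : Ent 4 := ⟨[a0, a63, a106], [a75, a42, a11], (M a48 (L l319 (F (T t309 (T t551 (L l28 (T t579 (K a139 (M a203 (F (T t3405 (T t551 (L l28 (T t579 N)))))) (K a203 (M a139 (F (T t2348 (L l28 (L l230 (T t579 (T t551 N))))))) N)))))))))⟩
def e0_63_106__75_42_11 : Ent 4 := ⟨[a0, a63, a106], [a75, a42, a12], (M a48 (F (T t585 (L l478 (T t551 (L l28 (T t579 N)))))))⟩
def e0_63_106__75_42_12 : Ent 4 := ⟨[a0, a63, a106], [a75, a42, a13], (M a48 (F (T t309 (T t551 (L l28 (T t579 N))))))⟩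
def e0_63_106__75_42_13 : Ent 4 := ⟨[a0, a63, a106], [a75, a42, a14], (M a48 (F (T t309 (T t551 (L l28 (T t579 N))))))⟩
def e0_63_106__75_42_14 : Ent 4 := ⟨[a0, a63, a106], [a75, a42, a15], (M a195 (F (T t6809 (L l7 (T t6810 (T t6811 N))))))⟩
def e0_63_106__75_42_15 : Ent 4 := ⟨[a0, a63, a106], [a75, a42, a16], (M a240 (F (T t4786 (L l340 (T t4780 (L l78 (T t4781 N)))))))⟩
def e0_63_106__75_42_16 : Ent 4 := ⟨[a0, a63, a106], [a75, a42, a17], (M a48 (F (T t309 (T t551 (L l28 (T t579 N))))))⟩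
def e0_63_106__75_42_17 : Ent 4 := ⟨[a0, a63, a106], [a75, a42, a18], (M a48 (F (T t309 (T t551 (L l28 (T t579 N))))))⟩
def e0_63_106__75_42_18 : Ent 4 := ⟨[a0, a63, a106], [a75, a42, a19], (M a48 (F (T t309 (T t551 (L l28 (L l367 (T t579 N)))))))⟩
def e0_63_106__75_42_19 : Ent 4 := ⟨[a0, a63, a106], [a75, a42, a20], (M a48 (F (T t309 (T t551 (L l28 (T t579 N))))))⟩
def e0_63_106__75_42_20 : Ent 4 := ⟨[a0, a63, a106], [a75, a42, a21], (M a48 (F (L l47 (T t309 (L l347 (T t551 (L l28 (L l47 (T t579 N)))))))))⟩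
def e0_63_106__75_42_21 : Ent 4 := ⟨[a0, a63, a106], [a75, a42, a22], (M a48 (L l66 (F (T t309 (T t551 (L l28 (T t579 (K a2 (M a62 (F (T t585 (L l22 (L l306 (T t5926 N)))))) (K a62 (M a2 (F (T t307 (L l19 (L l28 (T t342 N)))))) N)))))))))⟩
def e0_63_106__75_42_22 : Ent 4 := ⟨[a0, a63, a106], [a75, a42, a23], (M a48 (F (T t309 (L l351 (T t551 (L l28 (T t579 N)))))))⟩
def e0_63_106__75_42_23 : Ent 4 := ⟨[a0, a63, a106], [a75, a42, a24], (M a48 (F (T t309 (T t551 (L l28 (T t579 N))))))⟩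
def e0_63_106__75_42_24 : Ent 4 := ⟨[a0, a63, a106], [a75, a42, a25], (M a48 (L l56 (F (T t309 (T t551 (L l28 (T t579 (K a8 (M a59 (F (T t307 (L l26 (L l316 (T t6445 N)))))) (K a59 (M a8 (F (T t307 (L l19 (L l28 (T t4700 N)))))) N)))))))))⟩
def e0_63_106__75_42_25 : Ent 4 := ⟨[a0, a63, a106], [a75, a42, a26], (M a48 (L l54 (F (T t309 (L l28 (T t579 (T t551 (K a10 (Fr a58 a53 l38 (V t6446)) (K a58 (M a10 (F (T t4033 (T t551 (L l18 (L l133 (L l354 (T t6449 (L l18 (L l426 (T t6450 N))))))))))) N)))))))))⟩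
def e0_63_106__75_42_26 : Ent 4 := ⟨[a0, a63, a106], [a75, a42, a27], (M a48 (F (T t309 (T t551 (L l28 (T t579 N))))))⟩
def e0_63_106__75_42_27 : Ent 4 := ⟨[a0, a63, a106], [a75, a42, a28], (M a48 (F (T t309 (T t551 (L l28 (L l362 (T t579 N)))))))⟩
def e0_63_106__75_42_28 : Ent 4 := ⟨[a0, a63, a106], [a75, a42, a29], (M a48 (F (T t309 (L l371 (T t551 (L l28 (T t579 N)))))))⟩
def e0_63_106__75_42_29 : Ent 4 := ⟨[a0, a63, a106], [a75, a42, a30], (M a48 (F (T t309 (T t551 (L l28 (T t579 N))))))⟩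
def e0_63_106__75_42_30 : Ent 4 := ⟨[a0, a63, a106], [a75, a42, a31], (M a48 (F (T t309 (L l375 (T t551 (L l28 (L l361 (T t579 N))))))))⟩
def e0_63_106__75_42_31 : Ent 4 := ⟨[a0, a63, a106], [a75, a42, a32], (M a240 (L l28 (F (L l78 (T t6609 (L l376 (T t6588 (L l78 (L l376 (T t4781 (K a37 (M a47 (F (T t6602 (T t6698 (L l133 (T t6604 N)))))) (K a47 (M a37 (F (L l376 (T t6588 (L l54 (L l78 (T t6699 (L l78 (L l376 (T t4781 N)))))))))) N))))))))))))⟩
def e0_63_106__75_42_32 : Ent 4 := ⟨[a0, a63, a106], [a75, a42, a33], (M a48 (F (T t309 (T t551 (L l20 (L l28 (T t579 N)))))))⟩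
def e0_63_106__75_42_33 : Ent 4 := ⟨[a0, a63, a106], [a75, a42, a34], (M a48 (L l26 (F (T t309 (T t551 (L l20 (L l28 (T t579 (K a38 (M a46 (F (T t307 (L l56 (L l378 (T t4030 N)))))) (K a46 (M a38 (F (T t578 (L l20 (L l28 (T t579 (T t551 N))))))) N))))))))))⟩
def e0_63_106__75_42_34 : Ent 4 := ⟨[a0, a63, a106], [a75, a42, a35], (M a48 (F (T t309 (T t551 (L l20 (L l28 (T t579 N)))))))⟩
def e0_63_106__75_42_35 : Ent 4 := ⟨[a0, a63, a106], [a75, a42, a36], (M a48 (F (T t309 (T t551 (L l24 (L l28 (T t579 N)))))))⟩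
def e0_63_106__75_42_36 : Ent 4 := ⟨[a0, a63, a106], [a75, a42, a37], (M a240 (L l28 (F (T t4786 (T t6606 (L l78 (T t4781 (K a32 (M a47 (F (T t6602 (T t6698 (L l133 (T t6604 N)))))) (K a47 (M a32 (F (T t6607 (L l78 (T t4781 (L l54 (T t6608 N))))))) N)))))))))⟩
def e0_63_106__75_42_37 : Ent 4 := ⟨[a0, a63, a106], [a75, a42, a38], (M a48 (L l26 (F (T t309 (T t551 (L l28 (T t579 (K a34 (M a46 (F (T t307 (L l56 (L l378 (T t4030 N)))))) (K a46 (M a34 (F (T t307 (L l29 (L l66 (T t6453 N)))))) N)))))))))⟩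
def e0_63_106__75_42_38 : Ent 4 := ⟨[a0, a63, a106], [a75, a42, a39], (M a48 (F (T t309 (T t551 (L l28 (T t579 N))))))⟩
def e0_63_106__75_42_39 : Ent 4 := ⟨[a0, a63, a106], [a75, a42, a40], (M a48 (L l22 (F (T t309 (T t551 (L l24 (L l28 (T t579 (K a41 (M a43 (F (T t578 (L l66 (L l388 (T t6451 N)))))) (K a43 (M a41 (F (T t578 (L l24 (L l28 (T t579 (T t551 N))))))) N))))))))))⟩
def e0_63_106__75_42_40 : Ent 4 := ⟨[a0, a63, a106], [a75, a42, a41], (M a48 (L l22 (F (T t309 (T t551 (L l28 (T t579 (K a40 (M a43 (F (T t578 (L l66 (L l388 (T t6451 N)))))) (K a43 (M a40 (F (T t307 (L l29 (L l69 (T t6452 N)))))) N)))))))))⟩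
def e0_63_106__75_42_41 : Ent 4 := ⟨[a0, a63, a106], [a75, a42, a43], (M a48 (L l22 (F (T t309 (T t551 (L l28 (T t579 (K a40 (M a41 (F (T t578 (L l24 (L l28 (T t579 (T t551 N))))))) (K a41 (M a40 (F (T t307 (L l29 (L l69 (T t6452 N)))))) N)))))))))⟩
def e0_63_106__75_42_42 : Ent 4 := ⟨[a0, a63, a106], [a75, a42, a44], (M a48 (F (T t309 (T t551 (L l24 (L l28 (T t579 N)))))))⟩
def e0_63_106__75_42_43 : Ent 4 := ⟨[a0, a63, a106], [a75, a42, a45], (M a48 (F (T t309 (T t551 (L l28 (T t579 N))))))⟩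
def e0_63_106__75_42_44 : Ent 4 := ⟨[a0, a63, a106], [a75, a42, a46], (M a48 (L l26 (F (T t309 (T t551 (L l28 (T t579 (K a34 (M a38 (F (T t578 (L l20 (L l28 (T t579 (T t551 N))))))) (K a38 (M a34 (F (T t307 (L l29 (L l66 (T t6453 N)))))) N)))))))))⟩
def e0_63_106__75_42_45 : Ent 4 := ⟨[a0, a63, a106], [a75, a42, a47], (M a12 (L l28 (F (T t2304 (L l78 (T t2305 (L l56 (T t2415 (K a32 (M a37 (F (T t6812 (L l78 (T t2305 (L l56 (T t2415 N))))))) (K a37 (M a32 (F (T t2304 (L l51 (L l56 (T t682 N)))))) N))))))))))⟩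
def e0_63_106__75_42_46 : Ent 4 := ⟨[a0, a63, a106], [a75, a42, a48], (M a12 (F (T t4425 (L l56 (T t2415 (L l78 (L l508 (T t2305 N))))))))⟩
def e0_63_106__75_42_47 : Ent 4 := ⟨[a0, a63, a106], [a75, a42, a49], (M a48 (F (T t578 (L l28 (L l35 (T t579 (T t551 N)))))))⟩
def e0_63_106__75_42_48 : Ent 4 := ⟨[a0, a63, a106], [a75, a42, a50], (M a48 (F (T t309 (T t551 (L l28 (T t579 N))))))⟩
def e0_63_106__75_42_49 : Ent 4 := ⟨[a0, a63, a106], [a75, a42, a51], (M a48 (F (T t585 (L l417 (T t551 (L l28 (T t579 N)))))))⟩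
def e0_63_106__75_42_50 : Ent 4 := ⟨[a0, a63, a106], [a75, a42, a52], (M a48 (F (T t578 (L l28 (L l31 (T t579 (T t551 N)))))))⟩
def e0_63_106__75_42_51 : Ent 4 := ⟨[a0, a63, a106], [a75, a42, a53], (M a240 (F (T t4786 (L l491 (T t817 (L l78 (L l419 (T t4781 N))))))))⟩
def e0_63_106__75_42_52 : Ent 4 := ⟨[a0, a63, a106], [a75, a42, a54], (M a48 (F (T t578 (L l28 (L l31 (T t579 (T t551 N)))))))⟩
def e0_63_106__75_42_53 : Ent 4 := ⟨[a0, a63, a106], [a75, a42, a55], (M a48 (F (L l31 (T t309 (L l495 (T t551 (L l28 (L l31 (T t579 N)))))))))⟩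
def e0_63_106__75_42_54 : Ent 4 := ⟨[a0, a63, a106], [a75, a42, a56], (M a48 (F (T t309 (T t551 (L l28 (T t579 N))))))⟩
def e0_63_106__75_42_55 : Ent 4 := ⟨[a0, a63, a106], [a75, a42, a57], (M a48 (F (T t578 (L l28 (L l35 (T t579 (T t551 N)))))))⟩
def e0_63_106__75_42_56 : Ent 4 := ⟨[a0, a63, a106], [a75, a42, a58], (M a240 (L l54 (F (L l78 (T t4779 (T t817 (L l78 (T t4781 (K a10 (M a26 (F (L l426 (T t4786 (T t817 (L l78 (L l318 (L l462 (T t6482 N))))))))) (K a26 (M a10 (F (T t6610 (L l28 (L l75 (L l337 (T t815 (L l18 (T t6611 N))))))))) N))))))))))⟩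
def e0_63_106__75_42_57 : Ent 4 := ⟨[a0, a63, a106], [a75, a42, a59], (M a48 (L l56 (F (T t309 (T t551 (L l28 (T t579 (K a8 (M a25 (F (T t578 (L l28 (T t579 (T t551 N)))))) (K a25 (M a8 (F (T t307 (L l19 (L l28 (T t4700 N)))))) N)))))))))⟩
def e0_63_106__75_42_58 : Ent 4 := ⟨[a0, a63, a106], [a75, a42, a60], (M a48 (F (T t585 (L l442 (T t551 (L l28 (T t579 N)))))))⟩
def e0_63_106__75_42_59 : Ent 4 := ⟨[a0, a63, a106], [a75, a42, a61], (M a48 (F (L l35 (T t309 (L l515 (T t551 (L l28 (L l35 (T t579 N)))))))))⟩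
def e0_63_106__75_42_60 : Ent 4 := ⟨[a0, a63, a106], [a75, a42, a62], (M a48 (L l66 (F (T t309 (T t551 (L l28 (T t579 (K a2 (M a22 (F (T t578 (L l28 (T t579 (T t551 N)))))) (K a22 (M a2 (F (T t307 (L l19 (L l28 (T t342 N)))))) N)))))))))⟩
def e0_63_106__75_42_61 : Ent 4 := ⟨[a0, a63, a106], [a75, a42, a64], (M a48 (F (T t585 (L l28 (T t6454 (L l28 (T t6455 (L l28 (T t6456 (L l28 (L l84 (T t6457 (L l54 (T t6458 (K a207 (Fr a192 a149 l519 (Fr a96 a144 l484 (Fr a101 a111 l104 (Fr a32 a16 l40 (V t6459))))) N)))))))))))))))⟩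
def e0_63_106__75_42_62 : Ent 4 := ⟨[a0, a63, a106], [a75, a42, a65], (M a48 (F (T t309 (L l76 (T t551 (L l28 (L l76 (T t579 N))))))))⟩
def e0_63_106__75_42_63 : Ent 4 := ⟨[a0, a63, a106], [a75, a42, a66], (M a48 (F (T t304 (L l28 (L l76 (T t579 (L l76 (T t551 N))))))))⟩
def e0_63_106__75_42_64 : Ent 4 := ⟨[a0, a63, a106], [a75, a42, a67], (M a48 (L l83 (F (T t309 (L l76 (T t551 (L l28 (L l76 (T t579 (K a71 (M a79 (F (T t309 (L l76 (T t551 (L l28 (L l76 (T t579 N)))))))) (K a79 (M a71 (F (T t309 (L l76 (L l84 (T t551 (L l28 (L l76 (L l84 (T t579 N)))))))))) N)))))))))))⟩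
def e0_63_106__75_42_65 : Ent 4 := ⟨[a0, a63, a106], [a75, a42, a68], (M a48 (F (T t309 (L l80 (T t551 (L l28 (L l80 (T t579 N))))))))⟩
def e0_63_106__75_42_66 : Ent 4 := ⟨[a0, a63, a106], [a75, a42, a69], (M a48 (F (T t309 (L l84 (T t551 (L l28 (L l84 (T t579 N))))))))⟩
def e0_63_106__75_42_67 : Ent 4 := ⟨[a0, a63, a106], [a75, a42, a70], (M a48 (F (T t309 (T t551 (L l28 (T t579 N))))))⟩
def e0_63_106__75_42_68 : Ent 4 := ⟨[a0, a63, a106], [a75, a42, a71], (M a48 (L l83 (F (T t309 (T t551 (L l28 (T t579 (K a67 (M a79 (F (T t309 (L l76 (T t551 (L l28 (L l76 (T t579 N)))))))) (K a79 (M a67 (F (T t309 (L l125 (T t6711 (L l28 (L l84 (T t579 N)))))))) N)))))))))⟩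
def e0_63_106__75_42_69 : Ent 4 := ⟨[a0, a63, a106], [a75, a42, a72], (M a48 (L l78 (F (T t304 (L l28 (L l80 (T t579 (L l80 (T t551 (K a73 (M a74 (F (T t307 (L l335 (T t6556 (L l28 (L l80 (T t579 N)))))))) (K a74 (M a73 (F (T t578 (L l28 (L l80 (L l84 (L l318 (T t579 (L l80 (L l84 (T t551 N))))))))))) N)))))))))))⟩
def e0_63_106__75_42_70 : Ent 4 := ⟨[a0, a63, a106], [a75, a42, a73], (M a48 (L l78 (F (T t309 (T t551 (L l28 (T t579 (K a72 (M a74 (F (T t307 (L l335 (T t6556 (L l28 (L l80 (T t579 N)))))))) (K a74 (M a72 (F (T t6770 (L l28 (L l84 (L l318 (T t579 N))))))) N)))))))))⟩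
def e0_63_106__75_42_71 : Ent 4 := ⟨[a0, a63, a106], [a75, a42, a74], (M a48 (L l78 (F (T t578 (L l28 (L l84 (L l318 (T t579 (L l84 (T t551 (K a72 (M a73 (F (T t578 (L l28 (L l80 (L l84 (L l318 (T t579 (L l80 (L l84 (T t551 N))))))))))) (K a73 (M a72 (F (T t6770 (L l28 (L l84 (L l318 (T t579 N))))))) N))))))))))))⟩
def e0_63_106__75_42_72 : Ent 4 := ⟨[a0, a63, a106], [a75, a42, a76], (M a48 (F (T t309 (L l80 (T t551 (L l28 (L l80 (T t579 N))))))))⟩
def e0_63_106__75_42_73 : Ent 4 := ⟨[a0, a63, a106], [a75, a42, a77], (M a48 (F (T t309 (T t551 (L l28 (T t579 N))))))⟩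
def e0_63_106__75_42_74 : Ent 4 := ⟨[a0, a63, a106], [a75, a42, a78], (M a48 (F (T t309 (T t551 (L l28 (T t579 N))))))⟩
def e0_63_106__75_42_75 : Ent 4 := ⟨[a0, a63, a106], [a75, a42, a79], (M a48 (L l83 (F (T t309 (L l84 (T t551 (L l28 (L l84 (T t579 (K a67 (M a71 (F (T t309 (L l76 (L l84 (T t551 (L l28 (L l76 (L l84 (T t579 N)))))))))) (K a71 (M a67 (F (T t309 (L l125 (T t6711 (L l28 (L l84 (T t579 N)))))))) N)))))))))))⟩
def e0_63_106__75_42_76 : Ent 4 := ⟨[a0, a63, a106], [a75, a42, a80], (M a12 (F (T t2304 (L l78 (L l116 (T t2305 (L l56 (L l116 (T t2415 N)))))))))⟩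
def e0_63_106__75_42_77 : Ent 4 := ⟨[a0, a63, a106], [a75, a42, a81], (M a48 (F (T t309 (L l120 (T t551 (L l28 (L l120 (T t579 N))))))))⟩
def e0_63_106__75_42_78 : Ent 4 := ⟨[a0, a63, a106], [a75, a42, a82], (M a48 (F (T t309 (L l453 (T t551 (L l28 (T t579 N)))))))⟩
def e0_63_106__75_42_79 : Ent 4 := ⟨[a0, a63, a106], [a75, a42, a83], (M a48 (F (T t309 (T t551 (L l28 (T t579 N))))))⟩
def e0_63_106__75_42_80 : Ent 4 := ⟨[a0, a63, a106], [a75, a42, a84], (M a48 (F (T t309 (L l140 (T t551 (L l28 (L l140 (T t579 N))))))))⟩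
def e0_63_106__75_42_81 : Ent 4 := ⟨[a0, a63, a106], [a75, a42, a85], (M a48 (F (T t309 (L l347 (T t551 (L l54 (T t777 (L l368 (T t6465 (K a192 (M a240 (F (T t6230 (L l236 (T t6471 (L l54 (L l78 (L l236 (L l339 (T t6472 (L l78 (L l83 (L l339 (T t6473 N)))))))))))))) N))))))))))⟩
def e0_63_106__75_42_82 : Ent 4 := ⟨[a0, a63, a106], [a75, a42, a86], (M a48 (F (T t309 (L l351 (T t551 (L l28 (T t579 N)))))))⟩
def e0_63_106__75_42_83 : Ent 4 := ⟨[a0, a63, a106], [a75, a42, a87], (M a48 (F (T t309 (T t551 (L l28 (L l367 (T t579 N)))))))⟩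
def e0_63_106__75_42_84 : Ent 4 := ⟨[a0, a63, a106], [a75, a42, a88], (M a48 (F (T t309 (L l478 (T t551 (L l28 (T t579 N)))))))⟩
def e0_63_106__75_42_85 : Ent 4 := ⟨[a0, a63, a106], [a75, a42, a89], (M a48 (F (T t309 (L l371 (T t551 (L l28 (T t579 N)))))))⟩
def e0_63_106__75_42_86 : Ent 4 := ⟨[a0, a63, a106], [a75, a42, a90], (M a48 (L l133 (F (T t309 (L l375 (L l483 (T t551 (L l28 (T t579 (K a120 (M a105 (F (T t304 (L l128 (T t6813 N))))) (K a105 (M a120 (F (T t304 (L l28 (T t579 (L l375 (L l483 (L l515 (T t551 N))))))))) N)))))))))))⟩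
def e0_63_106__75_42_87 : Ent 4 := ⟨[a0, a63, a106], [a75, a42, a91], (M a48 (L l131 (F (T t309 (T t551 (L l28 (T t579 (K a107 (M a123 (F (T t307 (L l337 (T t6814 N))))) (K a123 (M a107 (F (T t585 (L l373 (L l481 (T t1164 N)))))) N)))))))))⟩
def e0_63_106__75_42_88 : Ent 4 := ⟨[a0, a63, a106], [a75, a42, a92], (M a48 (F (T t309 (T t551 (L l28 (T t579 N))))))⟩
def e0_63_106__75_42_89 : Ent 4 := ⟨[a0, a63, a106], [a75, a42, a93], (M a48 (F (T t309 (T t551 (L l28 (L l362 (T t579 N)))))))⟩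
def e0_63_106__75_42_90 : Ent 4 := ⟨[a0, a63, a106], [a75, a42, a94], (M a48 (F (T t309 (T t551 (L l28 (T t579 N))))))⟩
def e0_63_106__75_42_91 : Ent 4 := ⟨[a0, a63, a106], [a75, a42, a95], (M a48 (F (T t309 (T t551 (L l28 (L l361 (T t579 N)))))))⟩
def e0_63_106__75_42_92 : Ent 4 := ⟨[a0, a63, a106], [a75, a42, a96], (M a12 (F (T t2418 (L l56 (L l116 (T t2415 (L l78 (L l116 (T t2305 N)))))))))⟩
def e0_63_106__75_42_93 : Ent 4 := ⟨[a0, a63, a106], [a75, a42, a97], (M a48 (F (T t309 (L l96 (T t551 (L l28 (L l380 (T t579 N))))))))⟩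
def e0_63_106__75_42_94 : Ent 4 := ⟨[a0, a63, a106], [a75, a42, a98], (M a48 (F (T t304 (L l28 (L l120 (T t579 (L l96 (L l120 (T t551 N)))))))))⟩
def e0_63_106__75_42_95 : Ent 4 := ⟨[a0, a63, a106], [a75, a42, a99], (M a48 (F (T t309 (L l96 (T t551 (L l28 (T t579 N)))))))⟩
def e0_63_106__75_42_96 : Ent 4 := ⟨[a0, a63, a106], [a75, a42, a100], (M a48 (F (T t309 (L l100 (T t551 (L l28 (L l400 (T t579 N))))))))⟩
def e0_63_106__75_42_97 : Ent 4 := ⟨[a0, a63, a106], [a75, a42, a101], (M a240 (F (T t4786 (L l491 (L l512 (T t817 (L l78 (T t4781 N))))))))⟩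
def e0_63_106__75_42_98 : Ent 4 := ⟨[a0, a63, a106], [a75, a42, a102], (M a48 (F (T t309 (L l495 (T t551 (L l28 (T t579 N)))))))⟩
def e0_63_106__75_42_99 : Ent 4 := ⟨[a0, a63, a106], [a75, a42, a103], (M a48 (F (T t309 (T t551 (L l28 (T t579 N))))))⟩
def e0_63_106__75_42_100 : Ent 4 := ⟨[a0, a63, a106], [a75, a42, a104], (M a48 (F (T t304 (L l28 (L l140 (T t579 (L l100 (L l140 (T t551 N)))))))))⟩
def e0_63_106__75_42_101 : Ent 4 := ⟨[a0, a63, a106], [a75, a42, a105], (M a48 (L l133 (F (T t309 (L l515 (T t551 (L l28 (T t579 (K a120 (M a90 (F (T t309 (L l78 (T t6815 N))))) (K a90 (M a120 (F (T t304 (L l28 (T t579 (L l375 (L l483 (L l515 (T t551 N))))))))) N))))))))))⟩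
def e0_63_106__75_42_102 : Ent 4 := ⟨[a0, a63, a106], [a75, a42, a107], (M a48 (L l131 (F (T t309 (T t551 (L l28 (T t579 (K a91 (M a123 (F (T t307 (L l337 (T t6814 N))))) (K a123 (M a91 (F (T t3405 (T t551 (L l28 (T t579 N)))))) N)))))))))⟩
def e0_63_106__75_42_103 : Ent 4 := ⟨[a0, a63, a106], [a75, a42, a108], (M a48 (F (T t309 (L l100 (T t551 (L l28 (T t579 N)))))))⟩
def e0_63_106__75_42_104 : Ent 4 := ⟨[a0, a63, a106], [a75, a42, a109], (M a48 (F (T t309 (T t551 (L l28 (T t579 N))))))⟩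
def e0_63_106__75_42_105 : Ent 4 := ⟨[a0, a63, a106], [a75, a42, a110], (M a48 (F (T t309 (T t551 (L l28 (T t579 N))))))⟩
def e0_63_106__75_42_106 : Ent 4 := ⟨[a0, a63, a106], [a75, a42, a111], (M a240 (F (T t4786 (T t817 (L l78 (L l137 (T t4781 N)))))))⟩
def e0_63_106__75_42_107 : Ent 4 := ⟨[a0, a63, a106], [a75, a42, a112], (M a48 (F (T t309 (L l28 (L l116 (T t6462 (L l28 (L l116 (T t579 N)))))))))⟩
def e0_63_106__75_42_108 : Ent 4 := ⟨[a0, a63, a106], [a75, a42, a113], (M a48 (F (T t309 (T t551 (L l28 (T t579 N))))))⟩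
def e0_63_106__75_42_109 : Ent 4 := ⟨[a0, a63, a106], [a75, a42, a114], (M a48 (F (T t309 (L l417 (T t551 (L l28 (T t579 N)))))))⟩
def e0_63_106__75_42_110 : Ent 4 := ⟨[a0, a63, a106], [a75, a42, a115], (M a48 (F (T t309 (L l120 (T t551 (L l28 (L l120 (T t579 N))))))))⟩
def e0_63_106__75_42_111 : Ent 4 := ⟨[a0, a63, a106], [a75, a42, a116], (M a48 (F (T t309 (T t551 (L l28 (T t579 N))))))⟩
def e0_63_106__75_42_112 : Ent 4 := ⟨[a0, a63, a106], [a75, a42, a117], (M a48 (F (T t578 (L l28 (L l419 (T t579 (T t551 N)))))))⟩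
def e0_63_106__75_42_113 : Ent 4 := ⟨[a0, a63, a106], [a75, a42, a118], (M a48 (F (T t309 (T t551 (L l28 (T t579 N))))))⟩
def e0_63_106__75_42_114 : Ent 4 := ⟨[a0, a63, a106], [a75, a42, a119], (M a48 (F (T t309 (T t551 (L l28 (T t579 N))))))⟩
def e0_63_106__75_42_115 : Ent 4 := ⟨[a0, a63, a106], [a75, a42, a120], (M a48 (L l133 (F (T t309 (L l442 (T t551 (L l28 (T t579 (K a105 (M a90 (F (T t309 (L l78 (T t6815 N))))) (K a90 (M a105 (F (T t304 (L l128 (T t6813 N))))) N))))))))))⟩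
def e0_63_106__75_42_116 : Ent 4 := ⟨[a0, a63, a106], [a75, a42, a121], (M a48 (F (T t309 (T t551 (L l28 (T t579 N))))))⟩
def e0_63_106__75_42_117 : Ent 4 := ⟨[a0, a63, a106], [a75, a42, a122], (M a48 (F (T t309 (T t551 (L l28 (T t579 N))))))⟩
def e0_63_106__75_42_118 : Ent 4 := ⟨[a0, a63, a106], [a75, a42, a123], (M a48 (L l131 (F (T t309 (T t551 (L l28 (T t579 (K a91 (M a107 (F (T t585 (L l373 (L l481 (T t1164 N)))))) (K a107 (M a91 (F (T t3405 (T t551 (L l28 (T t579 N)))))) N)))))))))⟩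
def e0_63_106__75_42_119 : Ent 4 := ⟨[a0, a63, a106], [a75, a42, a124], (M a48 (F (T t309 (L l140 (T t551 (L l28 (L l140 (T t579 N))))))))⟩
def e0_63_106__75_42_120 : Ent 4 := ⟨[a0, a63, a106], [a75, a42, a125], (M a48 (F (T t309 (T t551 (L l28 (T t579 N))))))⟩
def e0_63_106__75_42_121 : Ent 4 := ⟨[a0, a63, a106], [a75, a42, a126], (M a48 (F (T t309 (T t551 (L l28 (T t579 N))))))⟩
def e0_63_106__75_42_122 : Ent 4 := ⟨[a0, a63, a106], [a75, a42, a127], (M a48 (F (T t309 (T t551 (L l28 (T t6454 (L l28 (T t6479 N))))))))⟩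
def e0_63_106__75_42_123 : Ent 4 := ⟨[a0, a63, a106], [a75, a42, a128], (M a48 (F (T t585 (L l28 (T t579 (L l192 (L l220 (T t6480 (L l54 (L l160 (T t6481 N)))))))))))⟩
def e0_63_106__75_42_124 : Ent 4 := ⟨[a0, a63, a106], [a75, a42, a129], (M a48 (F (T t304 (L l28 (T t579 (L l217 (T t551 N)))))))⟩
def e0_63_106__75_42_125 : Ent 4 := ⟨[a0, a63, a106], [a75, a42, a130], (M a48 (F (T t309 (T t551 (L l28 (T t579 N))))))⟩
def e0_63_106__75_42_126 : Ent 4 := ⟨[a0, a63, a106], [a75, a42, a131], (M a48 (F (T t309 (L l197 (T t551 (L l28 (T t579 N)))))))⟩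
def e0_63_106__75_42_127 : Ent 4 := ⟨[a0, a63, a106], [a75, a42, a132], (M a48 (F (T t304 (L l28 (T t579 (L l202 (T t551 N)))))))⟩
def e0_63_106__75_42_128 : Ent 4 := ⟨[a0, a63, a106], [a75, a42, a133], (M a48 (F (T t585 (L l199 (T t551 (L l28 (T t579 N)))))))⟩
def e0_63_106__75_42_129 : Ent 4 := ⟨[a0, a63, a106], [a75, a42, a134], (M a48 (F (T t309 (T t551 (L l28 (T t579 N))))))⟩
def e0_63_106__75_42_130 : Ent 4 := ⟨[a0, a63, a106], [a75, a42, a135], (M a195 (F (L l201 (T t6816 (L l159 (T t6810 (L l201 (T t6811 N))))))))⟩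
def e0_63_106__75_42_131 : Ent 4 := ⟨[a0, a63, a106], [a75, a42, a136], (M a48 (F (T t309 (T t551 (L l28 (T t579 N))))))⟩
def e0_63_106__75_42_132 : Ent 4 := ⟨[a0, a63, a106], [a75, a42, a137], (M a48 (F (T t309 (T t551 (L l28 (T t579 N))))))⟩
def e0_63_106__75_42_133 : Ent 4 := ⟨[a0, a63, a106], [a75, a42, a138], (M a48 (F (T t578 (L l28 (L l318 (T t579 (T t551 N)))))))⟩
def e0_63_106__75_42_134 : Ent 4 := ⟨[a0, a63, a106], [a75, a42, a139], (M a48 (L l319 (F (T t309 (T t551 (L l28 (T t579 (K a11 (M a203 (F (T t3405 (T t551 (L l28 (T t579 N)))))) (K a203 (M a11 (F (T t2348 (L l28 (L l230 (T t579 (T t551 N))))))) N)))))))))⟩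
def e0_63_106__75_42_135 : Ent 4 := ⟨[a0, a63, a106], [a75, a42, a140], (M a48 (F (T t309 (L l222 (T t551 (L l28 (T t579 N)))))))⟩
def e0_63_106__75_42_136 : Ent 4 := ⟨[a0, a63, a106], [a75, a42, a141], (M a48 (F (T t309 (T t551 (L l28 (T t579 N))))))⟩
def e0_63_106__75_42_137 : Ent 4 := ⟨[a0, a63, a106], [a75, a42, a142], (M a48 (F (T t309 (T t551 (L l28 (T t579 N))))))⟩
def e0_63_106__75_42_138 : Ent 4 := ⟨[a0, a63, a106], [a75, a42, a143], (M a48 (F (T t309 (L l28 (T t6462 (L l28 (T t579 N)))))))⟩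
def e0_63_106__75_42_139 : Ent 4 := ⟨[a0, a63, a106], [a75, a42, a144], (M a12 (F (L l484 (T t2304 (L l78 (L l170 (T t2305 (L l56 (T t2415 N)))))))))⟩
def e0_63_106__75_42_140 : Ent 4 := ⟨[a0, a63, a106], [a75, a42, a145], (M a48 (F (T t304 (L l28 (T t579 (L l167 (T t551 N)))))))⟩
def e0_63_106__75_42_141 : Ent 4 := ⟨[a0, a63, a106], [a75, a42, a146], (M a48 (F (T t304 (L l28 (T t579 (L l197 (T t551 N)))))))⟩
def e0_63_106__75_42_142 : Ent 4 := ⟨[a0, a63, a106], [a75, a42, a147], (M a48 (F (T t304 (L l28 (T t579 (T t551 N))))))⟩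
def e0_63_106__75_42_143 : Ent 4 := ⟨[a0, a63, a106], [a75, a42, a148], (M a48 (F (T t304 (L l28 (T t579 (L l163 (T t551 N)))))))⟩
def e0_63_106__75_42_144 : Ent 4 := ⟨[a0, a63, a106], [a75, a42, a149], (M a204 (F (L l167 (T t6655 (L l167 (L l347 (T t6636 (L l56 (L l167 (L l495 (T t6635 (L l56 (L l167 (L l220 (L l495 (T t6637 (K a145 (M a153 (F (T t6638 (L l56 (L l196 (L l220 (L l341 (L l495 (T t6639 (L l196 (L l220 (T t6640 N)))))))))))) (K a153 (M a102 (L l167 (F (T t6641 (L l208 (T t6642 (K a145 (Fr a157 a110 l507 (V t6642)) (K a157 (M a145 (F (L l208 (T t6642 (L l226 (T t6817 (L l365 (T t6643 N)))))))) N)))))))) (K a157 (M a153 (F (T t6645 (T t6646 (L l56 (L l220 (L l495 (T t6639 (L l220 (T t6640 N)))))))))) (K a98 (M a48 (F (T t2046 (L l28 (L l120 (L l491 (T t579 (L l491 (L l495 (T t6651 N)))))))))) (K a102 (M a12 (L l495 (F (T t752 (L l167 (L l371 (L l402 (T t765 (L l56 (L l371 (T t2415 (K a196 (M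 a55 (F (L l56 (L l347 (T t6649 (L l150 (L l220 (T t3459 N)))))))) (K a55 (M a196 (F (T t6650 (L l150 (L l220 (T t3459 N)))))) N))))))))))))) (K a110 (M a48 (F (T t2046 (L l28 (L l491 (T t579 (L l491 (L l495 (T t6651 N))))))))) N))))))))))))))))))))))⟩
def e0_63_106__75_42_145 : Ent 4 := ⟨[a0, a63, a106], [a75, a42, a150], (M a48 (F (T t309 (L l163 (T t551 (L l28 (T t579 N)))))))⟩
def e0_63_106__75_42_146 : Ent 4 := ⟨[a0, a63, a106], [a75, a42, a151], (M a48 (F (T t309 (L l163 (T t551 (L l28 (T t579 N)))))))⟩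
def e0_63_106__75_42_147 : Ent 4 := ⟨[a0, a63, a106], [a75, a42, a152], (M a48 (F (T t304 (L l28 (T t579 (L l222 (T t551 N)))))))⟩
def e0_63_106__75_42_148 : Ent 4 := ⟨[a0, a63, a106], [a75, a42, a153], (M a48 (F (T t309 (L l167 (T t551 (L l28 (T t579 N)))))))⟩
def e0_63_106__75_42_149 : Ent 4 := ⟨[a0, a63, a106], [a75, a42, a154], (M a240 (F (T t4786 (L l170 (L l368 (L l512 (T t817 (L l78 (T t4781 N)))))))))⟩
def e0_63_106__75_42_150 : Ent 4 := ⟨[a0, a63, a106], [a75, a42, a155], (M a48 (F (T t309 (T t551 (L l28 (L l367 (T t579 N)))))))⟩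
def e0_63_106__75_42_151 : Ent 4 := ⟨[a0, a63, a106], [a75, a42, a156], (M a48 (F (T t304 (L l28 (T t579 (T t551 N))))))⟩
def e0_63_106__75_42_152 : Ent 4 := ⟨[a0, a63, a106], [a75, a42, a157], (M a48 (F (T t309 (L l167 (T t551 (L l28 (T t579 N)))))))⟩
def e0_63_106__75_42_153 : Ent 4 := ⟨[a0, a63, a106], [a75, a42, a158], (M a48 (F (T t309 (T t551 (L l28 (L l362 (T t579 N)))))))⟩
def e0_63_106__75_42_154 : Ent 4 := ⟨[a0, a63, a106], [a75, a42, a159], (M a240 (F (T t4786 (L l170 (T t817 (L l78 (L l361 (T t4781 N))))))))⟩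
def e0_63_106__75_42_155 : Ent 4 := ⟨[a0, a63, a106], [a75, a42, a160], (M a12 (F (T t2304 (L l78 (T t2305 (L l56 (T t2415 N)))))))⟩
def e0_63_106__75_42_156 : Ent 4 := ⟨[a0, a63, a106], [a75, a42, a161], (M a48 (F (T t309 (L l197 (L l453 (T t551 (L l28 (T t579 N))))))))⟩
def e0_63_106__75_42_157 : Ent 4 := ⟨[a0, a63, a106], [a75, a42, a162], (M a48 (F (T t309 (T t551 (L l28 (L l380 (T t579 N)))))))⟩
def e0_63_106__75_42_158 : Ent 4 := ⟨[a0, a63, a106], [a75, a42, a163], (M a48 (F (T t309 (T t551 (L l28 (T t579 N))))))⟩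
def e0_63_106__75_42_159 : Ent 4 := ⟨[a0, a63, a106], [a75, a42, a164], (M a48 (F (T t309 (L l222 (L l478 (T t551 (L l28 (T t579 N))))))))⟩
def e0_63_106__75_42_160 : Ent 4 := ⟨[a0, a63, a106], [a75, a42, a165], (M a48 (F (T t309 (L l28 (L l199 (L l483 (T t6462 (L l28 (T t579 N)))))))))⟩
def e0_63_106__75_42_161 : Ent 4 := ⟨[a0, a63, a106], [a75, a42, a166], (M a48 (F (T t309 (L l202 (T t551 (L l28 (T t579 N)))))))⟩
def e0_63_106__75_42_162 : Ent 4 := ⟨[a0, a63, a106], [a75, a42, a167], (M a48 (F (T t309 (T t551 (L l28 (T t579 N))))))⟩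
def e0_63_106__75_42_163 : Ent 4 := ⟨[a0, a63, a106], [a75, a42, a168], (M a48 (F (T t309 (T t551 (L l28 (L l400 (T t579 N)))))))⟩
def e0_63_106__75_42_164 : Ent 4 := ⟨[a0, a63, a106], [a75, a42, a169], (M a48 (F (T t309 (L l217 (T t551 (L l28 (T t579 N)))))))⟩
def e0_63_106__75_42_165 : Ent 4 := ⟨[a0, a63, a106], [a75, a42, a170], (M a48 (F (T t309 (L l220 (T t551 (L l28 (L l206 (L l220 (L l404 (T t552 (L l28 (L l206 (L l404 (T t553 N))))))))))))))⟩
def e0_63_106__75_42_166 : Ent 4 := ⟨[a0, a63, a106], [a75, a42, a171], (M a48 (F (T t309 (T t551 (L l28 (T t579 N))))))⟩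
def e0_63_106__75_42_167 : Ent 4 := ⟨[a0, a63, a106], [a75, a42, a172], (M a48 (F (T t309 (T t551 (L l28 (T t579 N))))))⟩
def e0_63_106__75_42_168 : Ent 4 := ⟨[a0, a63, a106], [a75, a42, a173], (M a48 (F (T t309 (T t551 (L l28 (T t579 N))))))⟩
def e0_63_106__75_42_169 : Ent 4 := ⟨[a0, a63, a106], [a75, a42, a174], (M a48 (F (T t309 (T t551 (L l28 (T t579 N))))))⟩
def e0_63_106__75_42_170 : Ent 4 := ⟨[a0, a63, a106], [a75, a42, a175], (M a48 (F (T t309 (T t551 (L l28 (T t579 N))))))⟩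
def e0_63_106__75_42_171 : Ent 4 := ⟨[a0, a63, a106], [a75, a42, a176], (M a240 (F (T t4786 (L l192 (T t817 (L l78 (L l190 (L l192 (T t4781 N)))))))))⟩
def e0_63_106__75_42_172 : Ent 4 := ⟨[a0, a63, a106], [a75, a42, a177], (M a48 (F (T t309 (L l182 (L l417 (T t551 (L l28 (T t579 N))))))))⟩
def e0_63_106__75_42_173 : Ent 4 := ⟨[a0, a63, a106], [a75, a42, a178], (M a48 (F (T t309 (L l182 (T t551 (L l28 (T t579 N)))))))⟩
def e0_63_106__75_42_174 : Ent 4 := ⟨[a0, a63, a106], [a75, a42, a179], (M a48 (F (T t309 (L l182 (T t551 (L l28 (T t579 N)))))))⟩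
def e0_63_106__75_42_175 : Ent 4 := ⟨[a0, a63, a106], [a75, a42, a180], (M a48 (F (T t309 (L l186 (L l442 (T t551 (L l28 (T t579 N))))))))⟩
def e0_63_106__75_42_176 : Ent 4 := ⟨[a0, a63, a106], [a75, a42, a181], (M a48 (F (L l419 (T t309 (L l190 (L l199 (T t551 (L l28 (L l419 (T t579 N))))))))))⟩
def e0_63_106__75_42_177 : Ent 4 := ⟨[a0, a63, a106], [a75, a42, a182], (M a48 (F (T t309 (T t551 (L l28 (T t579 N))))))⟩
def e0_63_106__75_42_178 : Ent 4 := ⟨[a0, a63, a106], [a75, a42, a183], (M a48 (F (T t309 (L l202 (T t551 (L l28 (T t579 N)))))))⟩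
def e0_63_106__75_42_179 : Ent 4 := ⟨[a0, a63, a106], [a75, a42, a184], (M a48 (F (T t309 (L l186 (T t551 (L l28 (T t579 N)))))))⟩
def e0_63_106__75_42_180 : Ent 4 := ⟨[a0, a63, a106], [a75, a42, a185], (M a48 (F (T t309 (T t551 (L l28 (T t579 N))))))⟩
def e0_63_106__75_42_181 : Ent 4 := ⟨[a0, a63, a106], [a75, a42, a186], (M a48 (F (T t309 (L l190 (T t551 (L l28 (T t579 N)))))))⟩
def e0_63_106__75_42_182 : Ent 4 := ⟨[a0, a63, a106], [a75, a42, a187], (M a48 (F (T t309 (T t551 (L l28 (T t579 N))))))⟩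
def e0_63_106__75_42_183 : Ent 4 := ⟨[a0, a63, a106], [a75, a42, a188], (M a48 (F (T t309 (L l186 (T t551 (L l28 (T t579 N)))))))⟩
def e0_63_106__75_42_184 : Ent 4 := ⟨[a0, a63, a106], [a75, a42, a189], (M a48 (F (T t309 (L l217 (T t551 (L l28 (T t579 N)))))))⟩
def e0_63_106__75_42_185 : Ent 4 := ⟨[a0, a63, a106], [a75, a42, a190], (M a48 (F (T t309 (T t551 (L l28 (T t579 N))))))⟩
def e0_63_106__75_42_186 : Ent 4 := ⟨[a0, a63, a106], [a75, a42, a191], (M a48 (F (T t309 (L l190 (L l220 (T t551 (L l28 (T t6498 (L l28 (T t6499 N))))))))))⟩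
def e0_63_106__75_42_187 : Ent 4 := ⟨[a0, a63, a106], [a75, a42, a192], (M a204 (F (L l489 (T t6655 (L l272 (L l489 (T t6656 (L l296 (L l489 (T t6657 (L l56 (L l489 (T t6658 (L l489 (T t6659 (K a145 (M a102 (L l489 (F (T t6641 (T t6660 (K a98 (Fr a51 a153 l513 (V t6661)) (K a51 (Fr a98 a110 l102 (V t6662)) N))))))) (K a85 (M a48 (F (L l292 (T t2046 (L l123 (L l236 (L l489 (T t6732 N)))))))) (K a157 (M a48 (F (T t5482 (L l28 (L l236 (T t579 (L l236 (T t6651 N)))))))) (K a98 (M a153 (L l489 (F (T t6645 (L l296 (T t6668 (L l26 (L l120 (L l378 (T t6669 (K a145 (Fr a51 a102 l513 (V t6670)) (K a51 (M a145 (F (T t6671 (L l56 (L l78 (L l272 (L l334 (L l378 (T t6672 N))))))))) N)))))))))))) (K a102 (M a252 (F (L l484 (T t6673 (L l148 (L l337 (L l339 (T t6674 (L l309 (T t6675 N)))))))))) (K a110 (M a48 (F (T t6676 (L l28 (L l236 (T t579 (L l236 (T t6651 N)))))))) (K a51 (M a48 (L l489 (F (T t5482 (L l236 (T t6677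 (K a145 (M a98 (F (T t6678 (L l292 (L l441 (T t1315 N)))))) (K a98 (M a145 (F (T t5482 (L l28 (L l120 (L l236 (T t579 (L l511 (T t6679 N))))))))) N)))))))) N))))))))))))))))))))))⟩
def e0_63_106__75_42_188 : Ent 4 := ⟨[a0, a63, a106], [a75, a42, a193], (M a48 (F (T t585 (L l515 (T t551 (L l28 (T t579 N)))))))⟩
def e0_63_106__75_42_189 : Ent 4 := ⟨[a0, a63, a106], [a75, a42, a194], (M a48 (F (T t578 (L l28 (L l234 (T t579 (T t551 N)))))))⟩
def e0_63_106__75_42_190 : Ent 4 := ⟨[a0, a63, a106], [a75, a42, a195], (M a15 (F (T t6818 (L l54 (T t2532 (L l78 (L l235 (T t6819 N))))))))⟩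
def e0_63_106__75_42_191 : Ent 4 := ⟨[a0, a63, a106], [a75, a42, a196], (M a48 (F (T t585 (L l495 (T t551 (L l28 (T t579 N)))))))⟩
def e0_63_106__75_42_192 : Ent 4 := ⟨[a0, a63, a106], [a75, a42, a197], (M a240 (F (L l78 (L l236 (T t4779 (L l491 (T t817 (L l78 (T t4781 N)))))))))⟩
def e0_63_106__75_42_193 : Ent 4 := ⟨[a0, a63, a106], [a75, a42, a198], (M a48 (F (T t578 (L l28 (L l234 (T t579 (T t551 N)))))))⟩
def e0_63_106__75_42_194 : Ent 4 := ⟨[a0, a63, a106], [a75, a42, a199], (M a48 (F (T t309 (T t551 (L l28 (T t579 N))))))⟩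
def e0_63_106__75_42_195 : Ent 4 := ⟨[a0, a63, a106], [a75, a42, a200], (M a48 (F (T t578 (L l28 (L l230 (T t579 (T t551 N)))))))⟩
def e0_63_106__75_42_196 : Ent 4 := ⟨[a0, a63, a106], [a75, a42, a201], (M a48 (F (T t578 (L l28 (L l230 (T t579 (T t551 N)))))))⟩
def e0_63_106__75_42_197 : Ent 4 := ⟨[a0, a63, a106], [a75, a42, a202], (M a240 (F (L l236 (T t4786 (T t817 (L l78 (L l318 (T t4781 N))))))))⟩
def e0_63_106__75_42_198 : Ent 4 := ⟨[a0, a63, a106], [a75, a42, a203], (M a48 (L l319 (F (T t2348 (L l28 (L l230 (T t579 (T t551 (K a11 (M a139 (F (T t2348 (L l28 (L l230 (T t579 (T t551 N))))))) (K a139 (M a11 (F (T t2348 (L l28 (L l230 (T t579 (T t551 N))))))) N))))))))))⟩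
def e0_63_106__75_42_199 : Ent 4 := ⟨[a0, a63, a106], [a75, a42, a204], (M a48 (F (T t585 (L l298 (T t551 (L l28 (T t579 N)))))))⟩
def e0_63_106__75_42_200 : Ent 4 := ⟨[a0, a63, a106], [a75, a42, a205], (M a48 (F (T t309 (T t551 (L l28 (T t579 N))))))⟩
def e0_63_106__75_42_201 : Ent 4 := ⟨[a0, a63, a106], [a75, a42, a206], (M a48 (F (T t2348 (L l28 (L l234 (T t579 (T t551 N)))))))⟩
def e0_63_106__75_42_202 : Ent 4 := ⟨[a0, a63, a106], [a75, a42, a207], (M a240 (F (L l236 (T t4786 (L l512 (T t817 (L l78 (T t4781 N))))))))⟩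
def e0_63_106__75_42_203 : Ent 4 := ⟨[a0, a63, a106], [a75, a42, a208], (M a12 (F (L l268 (T t2304 (L l78 (L l375 (T t2305 (L l56 (T t2415 N)))))))))⟩
def e0_63_106__75_42_204 : Ent 4 := ⟨[a0, a63, a106], [a75, a42, a209], (M a48 (F (T t304 (L l28 (T t579 (L l371 (T t551 N)))))))⟩
def e0_63_106__75_42_205 : Ent 4 := ⟨[a0, a63, a106], [a75, a42, a210], (M a48 (F (T t309 (L l273 (T t551 (L l28 (T t579 N)))))))⟩
def e0_63_106__75_42_206 : Ent 4 := ⟨[a0, a63, a106], [a75, a42, a211], (M a48 (F (T t309 (T t551 (L l28 (L l245 (T t579 N)))))))⟩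
def e0_63_106__75_42_207 : Ent 4 := ⟨[a0, a63, a106], [a75, a42, a212], (M a48 (F (T t304 (L l28 (T t579 (L l351 (T t551 N)))))))⟩
def e0_63_106__75_42_208 : Ent 4 := ⟨[a0, a63, a106], [a75, a42, a213], (M a48 (F (T t304 (L l28 (L l246 (T t579 (L l347 (T t551 N))))))))⟩
def e0_63_106__75_42_209 : Ent 4 := ⟨[a0, a63, a106], [a75, a42, a214], (M a48 (F (T t309 (T t551 (L l28 (T t579 N))))))⟩
def e0_63_106__75_42_210 : Ent 4 := ⟨[a0, a63, a106], [a75, a42, a215], (M a48 (F (T t309 (T t551 (L l28 (L l245 (T t579 N)))))))⟩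
def e0_63_106__75_42_211 : Ent 4 := ⟨[a0, a63, a106], [a75, a42, a216], (M a48 (F (T t309 (L l298 (T t551 (L l28 (T t579 N)))))))⟩
def e0_63_106__75_42_212 : Ent 4 := ⟨[a0, a63, a106], [a75, a42, a217], (M a48 (F (T t309 (T t551 (L l28 (T t579 N))))))⟩
def e0_63_106__75_42_213 : Ent 4 := ⟨[a0, a63, a106], [a75, a42, a218], (M a48 (F (T t2348 (L l28 (L l246 (L l282 (T t579 (L l303 (T t551 N)))))))))⟩
def e0_63_106__75_42_214 : Ent 4 := ⟨[a0, a63, a106], [a75, a42, a219], (M a48 (F (T t309 (T t551 (L l28 (L l245 (T t579 N)))))))⟩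
def e0_63_106__75_42_215 : Ent 4 := ⟨[a0, a63, a106], [a75, a42, a220], (M a48 (F (T t309 (T t551 (L l28 (L l241 (T t579 N)))))))⟩
def e0_63_106__75_42_216 : Ent 4 := ⟨[a0, a63, a106], [a75, a42, a221], (M a48 (F (T t309 (T t551 (L l28 (L l241 (T t579 N)))))))⟩
def e0_63_106__75_42_217 : Ent 4 := ⟨[a0, a63, a106], [a75, a42, a222], (M a48 (F (T t309 (T t551 (L l28 (L l241 (T t579 N)))))))⟩
def e0_63_106__75_42_218 : Ent 4 := ⟨[a0, a63, a106], [a75, a42, a223], (M a240 (F (T t4786 (L l368 (T t817 (L l78 (L l361 (T t4781 N))))))))⟩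
def e0_63_106__75_42_219 : Ent 4 := ⟨[a0, a63, a106], [a75, a42, a224], (M a48 (F (T t585 (L l268 (L l376 (T t551 (L l28 (L l376 (T t579 N)))))))))⟩
def e0_63_106__75_42_220 : Ent 4 := ⟨[a0, a63, a106], [a75, a42, a225], (M a48 (F (T t309 (L l273 (T t551 (L l28 (T t579 N)))))))⟩
def e0_63_106__75_42_221 : Ent 4 := ⟨[a0, a63, a106], [a75, a42, a226], (M a48 (F (T t304 (L l28 (T t579 (T t551 N))))))⟩
def e0_63_106__75_42_222 : Ent 4 := ⟨[a0, a63, a106], [a75, a42, a227], (M a48 (F (T t309 (T t551 (L l28 (L l380 (T t579 N)))))))⟩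
def e0_63_106__75_42_223 : Ent 4 := ⟨[a0, a63, a106], [a75, a42, a228], (M a48 (F (T t309 (L l298 (T t551 (L l28 (T t579 N)))))))⟩
def e0_63_106__75_42_224 : Ent 4 := ⟨[a0, a63, a106], [a75, a42, a229], (M a48 (F (T t309 (L l28 (T t2289 (L l28 (T t579 N)))))))⟩
def e0_63_106__75_42_225 : Ent 4 := ⟨[a0, a63, a106], [a75, a42, a230], (M a48 (F (T t309 (T t551 (L l28 (T t579 N))))))⟩
def e0_63_106__75_42_226 : Ent 4 := ⟨[a0, a63, a106], [a75, a42, a231], (M a48 (F (T t309 (T t551 (L l28 (T t579 N))))))⟩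
def e0_63_106__75_42_227 : Ent 4 := ⟨[a0, a63, a106], [a75, a42, a232], (M a48 (F (T t304 (L l28 (T t579 (T t551 N))))))⟩
def e0_63_106__75_42_228 : Ent 4 := ⟨[a0, a63, a106], [a75, a42, a233], (M a48 (F (T t309 (T t551 (L l28 (T t579 N))))))⟩
def e0_63_106__75_42_229 : Ent 4 := ⟨[a0, a63, a106], [a75, a42, a234], (M a48 (F (T t578 (L l28 (L l282 (T t579 (T t551 N)))))))⟩
def e0_63_106__75_42_230 : Ent 4 := ⟨[a0, a63, a106], [a75, a42, a235], (M a48 (F (T t309 (T t551 (L l28 (T t579 N))))))⟩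
def e0_63_106__75_42_231 : Ent 4 := ⟨[a0, a63, a106], [a75, a42, a236], (M a48 (F (T t309 (T t551 (L l28 (L l400 (T t579 N)))))))⟩
def e0_63_106__75_42_232 : Ent 4 := ⟨[a0, a63, a106], [a75, a42, a237], (M a48 (F (T t309 (T t551 (L l28 (T t579 N))))))⟩
def e0_63_106__75_42_233 : Ent 4 := ⟨[a0, a63, a106], [a75, a42, a238], (M a48 (F (T t309 (T t551 (L l28 (T t579 N))))))⟩
def e0_63_106__75_42_234 : Ent 4 := ⟨[a0, a63, a106], [a75, a42, a239], (M a48 (F (T t309 (T t551 (L l28 (L l289 (L l404 (T t579 N))))))))⟩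
def e0_63_106__75_42_235 : Ent 4 := ⟨[a0, a63, a106], [a75, a42, a240], (M a12 (F (T t4425 (L l56 (T t2415 (L l78 (L l298 (T t2305 N))))))))⟩
def e0_63_106__75_42_236 : Ent 4 := ⟨[a0, a63, a106], [a75, a42, a241], (M a48 (F (T t309 (L l258 (T t551 (L l28 (T t579 N)))))))⟩
def e0_63_106__75_42_237 : Ent 4 := ⟨[a0, a63, a106], [a75, a42, a242], (M a48 (F (T t309 (L l258 (T t551 (L l28 (T t579 N)))))))⟩
def e0_63_106__75_42_238 : Ent 4 := ⟨[a0, a63, a106], [a75, a42, a243], (M a48 (F (T t585 (L l258 (T t551 (L l28 (T t579 N)))))))⟩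
def e0_63_106__75_42_239 : Ent 4 := ⟨[a0, a63, a106], [a75, a42, a244], (M a48 (F (T t309 (L l262 (T t551 (L l28 (T t579 N)))))))⟩
def e0_63_106__75_42_240 : Ent 4 := ⟨[a0, a63, a106], [a75, a42, a245], (M a48 (F (T t578 (L l28 (L l419 (T t579 (L l266 (T t551 N))))))))⟩
def e0_63_106__75_42_241 : Ent 4 := ⟨[a0, a63, a106], [a75, a42, a246], (M a48 (F (T t309 (T t551 (L l28 (T t579 N))))))⟩
def e0_63_106__75_42_242 : Ent 4 := ⟨[a0, a63, a106], [a75, a42, a247], (M a48 (F (T t309 (T t551 (L l28 (T t579 N))))))⟩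
def e0_63_106__75_42_243 : Ent 4 := ⟨[a0, a63, a106], [a75, a42, a248], (M a48 (F (T t309 (L l262 (T t551 (L l28 (T t579 N)))))))⟩
def e0_63_106__75_42_244 : Ent 4 := ⟨[a0, a63, a106], [a75, a42, a249], (M a48 (F (T t309 (T t551 (L l28 (T t579 N))))))⟩
def e0_63_106__75_42_245 : Ent 4 := ⟨[a0, a63, a106], [a75, a42, a250], (M a48 (F (T t578 (L l28 (L l282 (T t579 (L l266 (T t551 N))))))))⟩
def e0_63_106__75_42_246 : Ent 4 := ⟨[a0, a63, a106], [a75, a42, a251], (M a48 (F (T t309 (T t551 (L l28 (T t579 N))))))⟩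
def e0_63_106__75_42_247 : Ent 4 := ⟨[a0, a63, a106], [a75, a42, a252], (M a48 (F (T t585 (L l262 (T t551 (L l28 (T t579 N)))))))⟩
def e0_63_106__75_42_248 : Ent 4 := ⟨[a0, a63, a106], [a75, a42, a253], (M a48 (F (T t309 (T t551 (L l28 (T t579 N))))))⟩
def e0_63_106__75_42_249 : Ent 4 := ⟨[a0, a63, a106], [a75, a42, a254], (M a48 (F (T t309 (T t551 (L l28 (T t579 N))))))⟩
def e0_63_106__75_42_250 : Ent 4 := ⟨[a0, a63, a106], [a75, a42, a255], (M a48 (F (T t585 (L l266 (T t551 (L l28 (L l469 (T t6526 (L l28 (L l289 (T t6527 N)))))))))))⟩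
def b0_63_106__75_42 : Blk 4 := ⟨[0, 63, 106], [75, 42], [1, 2, 3, 4, 5, 6, 7, 8, 9, 10, 11, 12, 13, 14, 15, 16, 17, 18, 19, 20, 21, 22, 23, 24, 25, 26, 27, 28, 29, 30, 31, 32, 33, 34, 35, 36, 37, 38, 39, 40, 41, 43, 44, 45, 46, 47, 48, 49, 50, 51, 52, 53, 54, 55, 56, 57, 58, 59, 60, 61, 62, 64, 65, 66, 67, 68, 69, 70, 71, 72, 73, 74, 76, 77, 78, 79, 80, 81, 82, 83, 84, 85, 86, 87, 88, 89, 90, 91, 92, 93, 94, 95, 96, 97, 98, 99, 100, 101, 102, 103, 104, 105, 107, 108, 109, 110, 111, 112, 113, 114, 115, 116, 117, 118, 119, 120, 121, 122, 123, 124, 125, 126, 127, 128, 129, 130, 131, 132, 133, 134, 135, 136, 137, 138, 139, 140, 141, 142, 143, 144, 145, 146, 147, 148, 149, 150, 151, 152, 153, 154, 155, 156, 157, 158, 159, 160, 161, 162, 163, 164, 165, 166, 167, 168, 169, 170, 171, 172, 173, 174, 175, 176, 177, 178, 179, 180, 181, 182, 183, 184, 185, 186, 187, 188, 189, 190, 191, 192, 193, 194, 195, 196, 197,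 198, 199, 200, 201, 202, 203, 204, 205, 206, 207, 208, 209, 210, 211, 212, 213, 214, 215, 216, 217, 218, 219, 220, 221, 222, 223, 224, 225, 226, 227, 228, 229, 230, 231, 232, 233, 234, 235, 236, 237, 238, 239, 240, 241, 242, 243, 244, 245, 246, 247, 248, 249, 250, 251, 252, 253, 254, 255], [e0_63_106__75_42_0, e0_63_106__75_42_1, e0_63_106__75_42_2, e0_63_106__75_42_3, e0_63_106__75_42_4, e0_63_106__75_42_5, e0_63_106__75_42_6, e0_63_106__75_42_7, e0_63_106__75_42_8, e0_63_106__75_42_9, e0_63_106__75_42_10, e0_63_106__75_42_11, e0_63_106__75_42_12, e0_63_106__75_42_13, e0_63_106__75_42_14, e0_63_106__75_42_15, e0_63_106__75_42_16, e0_63_106__75_42_17, e0_63_106__75_42_18, e0_63_106__75_42_19, e0_63_106__75_42_20, e0_63_106__75_42_21, e0_63_106__75_42_22, e0_63_106__75_42_23, e0_63_106__75_42_24, e0_63_106__75_42_25, e0_63_106__75_42_26, e0_63_106__75_42_27, e0_63_106__75_42_28, e0_63_106__75_42_29, e0_63_106__75_42_30,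 e0_63_106__75_42_31, e0_63_106__75_42_32, e0_63_106__75_42_33, e0_63_106__75_42_34, e0_63_106__75_42_35, e0_63_106__75_42_36, e0_63_106__75_42_37, e0_63_106__75_42_38, e0_63_106__75_42_39, e0_63_106__75_42_40, e0_63_106__75_42_41, e0_63_106__75_42_42, e0_63_106__75_42_43, e0_63_106__75_42_44, e0_63_106__75_42_45, e0_63_106__75_42_46, e0_63_106__75_42_47, e0_63_106__75_42_48, e0_63_106__75_42_49, e0_63_106__75_42_50, e0_63_106__75_42_51, e0_63_106__75_42_52, e0_63_106__75_42_53, e0_63_106__75_42_54, e0_63_106__75_42_55, e0_63_106__75_42_56, e0_63_106__75_42_57, e0_63_106__75_42_58, e0_63_106__75_42_59, e0_63_106__75_42_60, e0_63_106__75_42_61, e0_63_106__75_42_62, e0_63_106__75_42_63, e0_63_106__75_42_64, e0_63_106__75_42_65, e0_63_106__75_42_66, e0_63_106__75_42_67, e0_63_106__75_42_68, e0_63_106__75_42_69, e0_63_106__75_42_70, e0_63_106__75_42_71, e0_63_106__75_42_72, e0_63_106__75_42_73, e0_63_106__75_42_74,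 e0_63_106__75_42_75, e0_63_106__75_42_76, e0_63_106__75_42_77, e0_63_106__75_42_78, e0_63_106__75_42_79, e0_63_106__75_42_80, e0_63_106__75_42_81, e0_63_106__75_42_82, e0_63_106__75_42_83, e0_63_106__75_42_84, e0_63_106__75_42_85, e0_63_106__75_42_86, e0_63_106__75_42_87, e0_63_106__75_42_88, e0_63_106__75_42_89, e0_63_106__75_42_90, e0_63_106__75_42_91, e0_63_106__75_42_92, e0_63_106__75_42_93, e0_63_106__75_42_94, e0_63_106__75_42_95, e0_63_106__75_42_96, e0_63_106__75_42_97, e0_63_106__75_42_98, e0_63_106__75_42_99, e0_63_106__75_42_100, e0_63_106__75_42_101, e0_63_106__75_42_102, e0_63_106__75_42_103, e0_63_106__75_42_104, e0_63_106__75_42_105, e0_63_106__75_42_106, e0_63_106__75_42_107, e0_63_106__75_42_108, e0_63_106__75_42_109, e0_63_106__75_42_110, e0_63_106__75_42_111, e0_63_106__75_42_112, e0_63_106__75_42_113, e0_63_106__75_42_114, e0_63_106__75_42_115, e0_63_106__75_42_116, e0_63_106__75_42_117,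 e0_63_106__75_42_118, e0_63_106__75_42_119, e0_63_106__75_42_120, e0_63_106__75_42_121, e0_63_106__75_42_122, e0_63_106__75_42_123, e0_63_106__75_42_124, e0_63_106__75_42_125, e0_63_106__75_42_126, e0_63_106__75_42_127, e0_63_106__75_42_128, e0_63_106__75_42_129, e0_63_106__75_42_130, e0_63_106__75_42_131, e0_63_106__75_42_132, e0_63_106__75_42_133, e0_63_106__75_42_134, e0_63_106__75_42_135, e0_63_106__75_42_136, e0_63_106__75_42_137, e0_63_106__75_42_138, e0_63_106__75_42_139, e0_63_106__75_42_140, e0_63_106__75_42_141, e0_63_106__75_42_142, e0_63_106__75_42_143, e0_63_106__75_42_144, e0_63_106__75_42_145, e0_63_106__75_42_146, e0_63_106__75_42_147, e0_63_106__75_42_148, e0_63_106__75_42_149, e0_63_106__75_42_150, e0_63_106__75_42_151, e0_63_106__75_42_152, e0_63_106__75_42_153, e0_63_106__75_42_154, e0_63_106__75_42_155, e0_63_106__75_42_156, e0_63_106__75_42_157, e0_63_106__75_42_158, e0_63_106__75_42_159,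 e0_63_106__75_42_160, e0_63_106__75_42_161, e0_63_106__75_42_162, e0_63_106__75_42_163, e0_63_106__75_42_164, e0_63_106__75_42_165, e0_63_106__75_42_166, e0_63_106__75_42_167, e0_63_106__75_42_168, e0_63_106__75_42_169, e0_63_106__75_42_170, e0_63_106__75_42_171, e0_63_106__75_42_172, e0_63_106__75_42_173, e0_63_106__75_42_174, e0_63_106__75_42_175, e0_63_106__75_42_176, e0_63_106__75_42_177, e0_63_106__75_42_178, e0_63_106__75_42_179, e0_63_106__75_42_180, e0_63_106__75_42_181, e0_63_106__75_42_182, e0_63_106__75_42_183, e0_63_106__75_42_184, e0_63_106__75_42_185, e0_63_106__75_42_186, e0_63_106__75_42_187, e0_63_106__75_42_188, e0_63_106__75_42_189, e0_63_106__75_42_190, e0_63_106__75_42_191, e0_63_106__75_42_192, e0_63_106__75_42_193, e0_63_106__75_42_194, e0_63_106__75_42_195, e0_63_106__75_42_196, e0_63_106__75_42_197, e0_63_106__75_42_198, e0_63_106__75_42_199, e0_63_106__75_42_200, e0_63_106__75_42_201,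 e0_63_106__75_42_202, e0_63_106__75_42_203, e0_63_106__75_42_204, e0_63_106__75_42_205, e0_63_106__75_42_206, e0_63_106__75_42_207, e0_63_106__75_42_208, e0_63_106__75_42_209, e0_63_106__75_42_210, e0_63_106__75_42_211, e0_63_106__75_42_212, e0_63_106__75_42_213, e0_63_106__75_42_214, e0_63_106__75_42_215, e0_63_106__75_42_216, e0_63_106__75_42_217, e0_63_106__75_42_218, e0_63_106__75_42_219, e0_63_106__75_42_220, e0_63_106__75_42_221, e0_63_106__75_42_222, e0_63_106__75_42_223, e0_63_106__75_42_224, e0_63_106__75_42_225, e0_63_106__75_42_226, e0_63_106__75_42_227, e0_63_106__75_42_228, e0_63_106__75_42_229, e0_63_106__75_42_230, e0_63_106__75_42_231, e0_63_106__75_42_232, e0_63_106__75_42_233, e0_63_106__75_42_234, e0_63_106__75_42_235, e0_63_106__75_42_236, e0_63_106__75_42_237, e0_63_106__75_42_238, e0_63_106__75_42_239, e0_63_106__75_42_240, e0_63_106__75_42_241, e0_63_106__75_42_242, e0_63_106__75_42_243,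 e0_63_106__75_42_244, e0_63_106__75_42_245, e0_63_106__75_42_246, e0_63_106__75_42_247, e0_63_106__75_42_248, e0_63_106__75_42_249, e0_63_106__75_42_250], by decide +kernel, by decide +kernel⟩
def e0_63_106__79_42_0 : Ent 4 := ⟨[a0, a63, a106], [a79, a42, a1], (M a48 (F (T t309 (L l84 (T t551 (L l28 (L l84 (T t579 N))))))))⟩
def e0_63_106__79_42_1 : Ent 4 := ⟨[a0, a63, a106], [a79, a42, a2], (M a48 (L l66 (F (T t309 (L l84 (T t551 (L l28 (L l84 (T t579 (K a22 (M a62 (F (T t309 (L l22 (L l84 (L l306 (T t5926 N))))))) (K a62 (M a22 (F (T t309 (L l84 (T t551 (L l28 (L l84 (T t579 N)))))))) N)))))))))))⟩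
def e0_63_106__79_42_2 : Ent 4 := ⟨[a0, a63, a106], [a79, a42, a3], (M a48 (F (T t5173 (L l28 (L l84 (T t579 (L l84 (L l453 (T t551 N)))))))))⟩
def e0_63_106__79_42_3 : Ent 4 := ⟨[a0, a63, a106], [a79, a42, a5], (M a48 (F (L l47 (T t309 (L l84 (T t551 (L l28 (L l47 (L l84 (T t579 N))))))))))⟩
def e0_63_106__79_42_4 : Ent 4 := ⟨[a0, a63, a106], [a79, a42, a6], (M a48 (F (T t309 (L l84 (T t551 (L l28 (L l84 (T t579 N))))))))⟩
def e0_63_106__79_42_5 : Ent 4 := ⟨[a0, a63, a106], [a79, a42, a7], (M a48 (F (T t309 (L l84 (T t551 (L l28 (L l84 (T t579 N))))))))⟩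
def e0_63_106__79_42_6 : Ent 4 := ⟨[a0, a63, a106], [a79, a42, a10], (M a48 (L l54 (F (L l318 (T t309 (L l28 (T t6462 (L l28 (L l84 (L l318 (T t579 (K a26 (Fr a58 a53 l38 (V t6446)) (K a58 (M a26 (F (L l28 (T t4144 (L l84 (T t551 (L l28 (L l426 (T t6447 (K a32 (Fr a192 a149 l519 (Fr a15 a37 l75 (Fr a47 a31 l61 (V t6528)))) N)))))))))) N)))))))))))))⟩
def e0_63_106__79_42_7 : Ent 4 := ⟨[a0, a63, a106], [a79, a42, a11], (M a48 (F (T t309 (L l84 (T t551 (L l28 (L l84 (T t579 N))))))))⟩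
def e0_63_106__79_42_8 : Ent 4 := ⟨[a0, a63, a106], [a79, a42, a15], (M a12 (L l325 (F (T t2419 (L l84 (L l327 (T t2305 (L l56 (L l84 (T t2415 (K a143 (M a207 (F (T t2419 (L l79 (L l84 (L l337 (T t2144 N))))))) (K a207 (M a143 (F (T t2419 (L l84 (L l231 (L l327 (T t2305 (L l56 (L l84 (T t2415 N)))))))))) N))))))))))))⟩
def e0_63_106__79_42_9 : Ent 4 := ⟨[a0, a63, a106], [a79, a42, a16], (M a240 (F (T t4786 (L l84 (L l340 (T t4780 (L l84 (L l137 (T t6482 (T t6597 N))))))))))⟩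
def e0_63_106__79_42_10 : Ent 4 := ⟨[a0, a63, a106], [a79, a42, a17], (M a48 (F (T t309 (L l84 (T t551 (L l28 (L l84 (T t579 N))))))))⟩
def e0_63_106__79_42_11 : Ent 4 := ⟨[a0, a63, a106], [a79, a42, a18], (M a48 (F (T t309 (L l84 (T t551 (L l28 (L l84 (T t579 N))))))))⟩
def e0_63_106__79_42_12 : Ent 4 := ⟨[a0, a63, a106], [a79, a42, a19], (M a48 (F (T t309 (L l84 (T t551 (L l28 (L l84 (L l367 (T t579 N)))))))))⟩
def e0_63_106__79_42_13 : Ent 4 := ⟨[a0, a63, a106], [a79, a42, a21], (M a48 (F (L l47 (T t309 (L l84 (L l347 (T t551 (L l28 (L l47 (L l84 (T t579 N)))))))))))⟩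
def e0_63_106__79_42_14 : Ent 4 := ⟨[a0, a63, a106], [a79, a42, a22], (M a48 (L l66 (F (T t309 (L l84 (T t551 (L l28 (L l84 (T t579 (K a2 (M a62 (F (T t309 (L l22 (L l84 (L l306 (T t5926 N))))))) (K a62 (M a2 (F (T t309 (L l19 (L l28 (T t342 N)))))) N)))))))))))⟩
def e0_63_106__79_42_15 : Ent 4 := ⟨[a0, a63, a106], [a79, a42, a23], (M a48 (F (T t309 (L l84 (L l351 (T t551 (L l28 (L l84 (T t579 N)))))))))⟩
def e0_63_106__79_42_16 : Ent 4 := ⟨[a0, a63, a106], [a79, a42, a26], (M a48 (L l54 (F (T t309 (L l28 (L l84 (T t579 (L l84 (T t551 (K a10 (Fr a58 a53 l38 (V t6446)) (K a58 (M a10 (F (L l84 (T t551 (L l426 (T t6820 (L l18 (L l151 (L l354 (T t6821 (L l18 (T t6601 (L l18 (L l426 (T t6450 N))))))))))))))) N)))))))))))⟩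
def e0_63_106__79_42_17 : Ent 4 := ⟨[a0, a63, a106], [a79, a42, a27], (M a48 (F (T t309 (L l84 (T t551 (L l28 (L l84 (T t579 N))))))))⟩
def e0_63_106__79_42_18 : Ent 4 := ⟨[a0, a63, a106], [a79, a42, a31], (M a48 (F (T t309 (L l84 (L l375 (T t551 (L l28 (L l84 (L l361 (T t579 N))))))))))⟩
def e0_63_106__79_42_19 : Ent 4 := ⟨[a0, a63, a106], [a79, a42, a32], (M a240 (L l28 (F (L l84 (T t4779 (L l151 (L l376 (T t6588 (L l84 (L l137 (L l376 (L l404 (T t6482 (L l376 (T t4786 (L l376 (T t6822 (K a37 (M a47 (F (T t6602 (T t6698 (L l151 (T t6604 N)))))) (K a47 (M a37 (F (L l151 (L l376 (T t6588 (L l54 (L l151 (T t6823 (L l84 (L l137 (L l376 (L l404 (T t6482 (L l376 (T t6822 N))))))))))))))) N)))))))))))))))))))⟩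
def e0_63_106__79_42_20 : Ent 4 := ⟨[a0, a63, a106], [a79, a42, a33], (M a48 (F (T t309 (L l84 (T t551 (L l20 (L l28 (L l84 (T t579 N)))))))))⟩
def e0_63_106__79_42_21 : Ent 4 := ⟨[a0, a63, a106], [a79, a42, a34], (M a48 (L l26 (F (T t309 (L l84 (T t551 (L l20 (L l28 (L l84 (T t579 (K a38 (M a46 (F (T t309 (L l56 (L l84 (L l378 (T t4030 N))))))) (K a46 (M a38 (F (T t309 (L l84 (T t551 (L l20 (L l28 (L l84 (T t579 N))))))))) N))))))))))))⟩
def e0_63_106__79_42_22 : Ent 4 := ⟨[a0, a63, a106], [a79, a42, a35], (M a48 (F (T t309 (L l84 (T t551 (L l20 (L l28 (L l84 (T t579 N)))))))))⟩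
def e0_63_106__79_42_23 : Ent 4 := ⟨[a0, a63, a106], [a79, a42, a37], (M a240 (L l28 (F (T t4786 (T t6611 (L l84 (L l137 (T t6482 (K a32 (M a47 (F (T t6602 (T t6698 (L l151 (T t6604 N)))))) (K a47 (M a32 (F (T t6607 (L l84 (L l137 (T t6482 (L l54 (T t6608 N)))))))) N))))))))))⟩
def e0_63_106__79_42_24 : Ent 4 := ⟨[a0, a63, a106], [a79, a42, a38], (M a48 (L l26 (F (T t309 (L l84 (T t551 (L l28 (L l84 (T t579 (K a34 (M a46 (F (T t309 (L l56 (L l84 (L l378 (T t4030 N))))))) (K a46 (M a34 (F (T t309 (L l29 (L l66 (T t6453 N)))))) N)))))))))))⟩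
def e0_63_106__79_42_25 : Ent 4 := ⟨[a0, a63, a106], [a79, a42, a39], (M a48 (F (T t309 (L l84 (T t551 (L l28 (L l84 (T t579 N))))))))⟩
def e0_63_106__79_42_26 : Ent 4 := ⟨[a0, a63, a106], [a79, a42, a43], (M a48 (L l22 (F (T t309 (L l84 (T t551 (L l28 (L l84 (T t579 (K a40 (M a41 (F (T t309 (L l84 (T t551 (L l24 (L l28 (L l84 (T t579 N))))))))) (K a41 (M a40 (F (T t309 (L l29 (L l69 (T t6452 N)))))) N)))))))))))⟩
def e0_63_106__79_42_27 : Ent 4 := ⟨[a0, a63, a106], [a79, a42, a47], (M a12 (L l28 (F (T t2304 (L l84 (T t2305 (L l56 (L l84 (T t2415 (K a32 (M a37 (F (T t2416 (L l56 (L l84 (T t2415 (L l84 (T t2305 N)))))))) (K a37 (M a32 (F (T t2304 (L l51 (L l56 (T t682 N)))))) N)))))))))))⟩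
def e0_63_106__79_42_28 : Ent 4 := ⟨[a0, a63, a106], [a79, a42, a48], (M a12 (F (T t2419 (L l84 (L l508 (T t2305 (L l56 (L l84 (T t2415 N)))))))))⟩
def e0_63_106__79_42_29 : Ent 4 := ⟨[a0, a63, a106], [a79, a42, a49], (M a48 (F (L l35 (T t309 (L l84 (T t551 (L l28 (L l35 (L l84 (T t579 N))))))))))⟩
def e0_63_106__79_42_30 : Ent 4 := ⟨[a0, a63, a106], [a79, a42, a50], (M a48 (F (T t309 (L l84 (T t551 (L l28 (L l84 (T t579 N))))))))⟩
def e0_63_106__79_42_31 : Ent 4 := ⟨[a0, a63, a106], [a79, a42, a51], (M a48 (F (T t5173 (L l28 (L l84 (T t579 (L l84 (L l417 (T t551 N)))))))))⟩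
def e0_63_106__79_42_32 : Ent 4 := ⟨[a0, a63, a106], [a79, a42, a53], (M a240 (F (T t4786 (L l491 (T t817 (L l84 (L l137 (L l419 (T t6482 N)))))))))⟩
def e0_63_106__79_42_33 : Ent 4 := ⟨[a0, a63, a106], [a79, a42, a54], (M a48 (F (L l31 (T t309 (L l84 (T t551 (L l28 (L l31 (L l84 (T t579 N))))))))))⟩
def e0_63_106__79_42_34 : Ent 4 := ⟨[a0, a63, a106], [a79, a42, a55], (M a48 (F (L l31 (T t309 (L l84 (L l495 (T t551 (L l28 (L l31 (L l84 (T t579 N)))))))))))⟩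
def e0_63_106__79_42_35 : Ent 4 := ⟨[a0, a63, a106], [a79, a42, a58], (M a240 (L l54 (F (L l426 (T t4786 (T t817 (L l84 (L l137 (T t6482 (K a10 (M a26 (F (L l426 (T t4786 (T t817 (L l84 (L l137 (L l318 (L l462 (T t6482 N)))))))))) (K a26 (M a10 (F (L l84 (T t6609 (L l137 (T t6610 (L l18 (T t6611 N)))))))) N)))))))))))⟩
def e0_63_106__79_42_36 : Ent 4 := ⟨[a0, a63, a106], [a79, a42, a59], (M a48 (L l56 (F (T t309 (L l84 (T t551 (L l28 (L l84 (T t579 (K a8 (M a25 (F (T t309 (L l84 (T t551 (L l28 (L l84 (T t579 N)))))))) (K a25 (M a8 (F (T t309 (L l19 (L l28 (T t4700 N)))))) N)))))))))))⟩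
def e0_63_106__79_42_37 : Ent 4 := ⟨[a0, a63, a106], [a79, a42, a64], (M a48 (L l84 (F (T t309 (L l28 (T t6594 (L l28 (L l137 (L l325 (T t6455 (L l28 (T t6766 (L l54 (T t6458 (K a207 (Fr a192 a149 l519 (Fr a96 a144 l484 (Fr a101 a111 l104 (Fr a32 a16 l40 (V t6459))))) (K a69 (M a74 (F (T t309 (L l311 (T t6556 (L l137 (L l151 (T t6619 N)))))))) (K a74 (M a69 (F (L l318 (T t6767 (L l137 (T t6768 (L l318 (T t446 (L l151 (L l318 (T t6769 N))))))))))) N)))))))))))))))))⟩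
def e0_63_106__79_42_38 : Ent 4 := ⟨[a0, a63, a106], [a79, a42, a65], (M a48 (F (T t309 (L l76 (L l84 (T t551 (L l28 (L l76 (L l84 (T t579 N))))))))))⟩
def e0_63_106__79_42_39 : Ent 4 := ⟨[a0, a63, a106], [a79, a42, a66], (M a48 (F (T t5173 (L l28 (L l76 (L l84 (T t579 (L l76 (L l84 (T t551 N))))))))))⟩
def e0_63_106__79_42_40 : Ent 4 := ⟨[a0, a63, a106], [a79, a42, a67], (M a48 (L l83 (F (T t309 (L l76 (L l84 (T t551 (L l28 (L l76 (L l84 (T t579 (K a71 (M a75 (F (T t309 (L l76 (L l84 (T t551 (L l28 (L l76 (L l84 (T t579 N)))))))))) (K a75 (M a71 (F (T t309 (L l76 (L l84 (T t551 (L l28 (L l76 (L l84 (T t579 N)))))))))) N)))))))))))))⟩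
def e0_63_106__79_42_41 : Ent 4 := ⟨[a0, a63, a106], [a79, a42, a69], (M a48 (L l84 (F (T t309 (L l28 (T t6462 (L l28 (T t6463 (K a64 (M a74 (F (T t309 (L l311 (T t6556 (L l137 (L l151 (T t6619 N)))))))) (K a74 (M a64 (F (T t394 (L l123 (L l151 (T t6464 N)))))) N))))))))))⟩
def e0_63_106__79_42_42 : Ent 4 := ⟨[a0, a63, a106], [a79, a42, a70], (M a48 (F (T t309 (L l84 (T t551 (L l28 (L l84 (T t579 N))))))))⟩
def e0_63_106__79_42_43 : Ent 4 := ⟨[a0, a63, a106], [a79, a42, a71], (M a48 (L l83 (F (T t309 (L l84 (T t551 (L l28 (L l84 (T t579 (K a67 (M a75 (F (T t309 (L l76 (L l84 (T t551 (L l28 (L l76 (L l84 (T t579 N)))))))))) (K a75 (M a67 (F (T t309 (L l125 (T t6711 (L l28 (L l84 (T t579 N)))))))) N)))))))))))⟩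
def e0_63_106__79_42_44 : Ent 4 := ⟨[a0, a63, a106], [a79, a42, a74], (M a48 (L l84 (F (L l318 (T t5173 (L l28 (T t6462 (L l28 (L l318 (T t6463 (K a64 (M a69 (F (L l318 (T t6767 (L l137 (T t6768 (L l318 (T t446 (L l151 (L l318 (T t6769 N))))))))))) (K a69 (M a64 (F (T t394 (L l123 (L l151 (T t6464 N)))))) N))))))))))))⟩
def e0_63_106__79_42_45 : Ent 4 := ⟨[a0, a63, a106], [a79, a42, a75], (M a48 (L l83 (F (T t309 (L l84 (T t551 (L l28 (L l84 (T t579 (K a67 (M a71 (F (T t309 (L l76 (L l84 (T t551 (L l28 (L l76 (L l84 (T t579 N)))))))))) (K a71 (M a67 (F (T t309 (L l125 (T t6711 (L l28 (L l84 (T t579 N)))))))) N)))))))))))⟩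
def e0_63_106__79_42_46 : Ent 4 := ⟨[a0, a63, a106], [a79, a42, a80], (M a12 (F (T t2304 (L l84 (L l116 (T t2305 (L l56 (L l84 (L l116 (T t2415 N))))))))))⟩
def e0_63_106__79_42_47 : Ent 4 := ⟨[a0, a63, a106], [a79, a42, a81], (M a48 (F (T t309 (L l84 (L l120 (T t551 (L l28 (L l84 (L l120 (T t579 N))))))))))⟩
def e0_63_106__79_42_48 : Ent 4 := ⟨[a0, a63, a106], [a79, a42, a82], (M a48 (F (T t309 (L l84 (L l453 (T t551 (L l28 (L l84 (T t579 N)))))))))⟩
def e0_63_106__79_42_49 : Ent 4 := ⟨[a0, a63, a106], [a79, a42, a83], (M a48 (F (T t309 (L l84 (T t551 (L l28 (L l84 (T t579 N))))))))⟩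
def e0_63_106__79_42_50 : Ent 4 := ⟨[a0, a63, a106], [a79, a42, a85], (M a48 (F (T t309 (L l84 (L l347 (T t551 (L l54 (T t777 (L l137 (L l151 (L l325 (L l368 (T t6824 (K a192 (M a56 (F (T t6620 (L l350 (L l368 (T t1445 (L l236 (T t6621 N)))))))) N))))))))))))))⟩
def e0_63_106__79_42_51 : Ent 4 := ⟨[a0, a63, a106], [a79, a42, a86], (M a48 (F (T t309 (L l84 (L l351 (T t551 (L l28 (L l84 (T t579 N)))))))))⟩
def e0_63_106__79_42_52 : Ent 4 := ⟨[a0, a63, a106], [a79, a42, a87], (M a48 (F (T t309 (L l84 (T t551 (L l28 (L l84 (L l367 (T t579 N)))))))))⟩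
def e0_63_106__79_42_53 : Ent 4 := ⟨[a0, a63, a106], [a79, a42, a90], (M a48 (L l151 (F (T t309 (L l84 (L l375 (L l483 (T t551 (L l28 (L l84 (T t579 (K a112 (M a101 (F (T t6740 (L l375 (T t6741 N))))) (K a101 (M a112 (F (L l84 (T t2925 (L l137 (T t346 (L l28 (L l84 (L l404 (L l491 (T t579 N))))))))))) N)))))))))))))⟩
def e0_63_106__79_42_54 : Ent 4 := ⟨[a0, a63, a106], [a79, a42, a91], (M a48 (L l149 (F (T t309 (L l84 (T t551 (L l28 (L l84 (T t579 (K a115 (M a103 (F (T t309 (L l84 (L l120 (T t551 (L l28 (L l84 (L l120 (T t579 N)))))))))) (K a103 (M a115 (F (T t309 (L l125 (T t6825 (L l28 (L l84 (T t579 N)))))))) N)))))))))))⟩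
def e0_63_106__79_42_55 : Ent 4 := ⟨[a0, a63, a106], [a79, a42, a95], (M a48 (L l137 (F (T t309 (L l84 (T t551 (L l28 (L l84 (L l361 (T t579 (K a111 (M a127 (F (T t6826 (L l151 (T t1171 N))))) (K a127 (M a111 (F (T t6827 (L l84 (T t551 N))))) N))))))))))))⟩
def e0_63_106__79_42_56 : Ent 4 := ⟨[a0, a63, a106], [a79, a42, a96], (M a12 (F (T t2414 (L l56 (L l84 (L l116 (T t2415 (L l84 (L l116 (T t2305 N))))))))))⟩
def e0_63_106__79_42_57 : Ent 4 := ⟨[a0, a63, a106], [a79, a42, a97], (M a48 (F (T t309 (L l84 (L l96 (T t551 (L l28 (L l84 (L l380 (T t579 N))))))))))⟩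
def e0_63_106__79_42_58 : Ent 4 := ⟨[a0, a63, a106], [a79, a42, a98], (M a48 (F (T t5173 (L l28 (L l84 (L l120 (T t579 (L l84 (L l96 (L l120 (T t551 N)))))))))))⟩
def e0_63_106__79_42_59 : Ent 4 := ⟨[a0, a63, a106], [a79, a42, a99], (M a48 (F (T t309 (L l84 (L l96 (T t551 (L l28 (L l84 (T t579 N)))))))))⟩
def e0_63_106__79_42_60 : Ent 4 := ⟨[a0, a63, a106], [a79, a42, a101], (M a240 (L l151 (F (T t4786 (L l491 (L l512 (T t817 (L l84 (L l137 (L l404 (T t6482 (K a112 (M a90 (F (T t4788 (L l28 (L l383 (T t6828 N)))))) (K a90 (M a112 (F (L l375 (L l491 (T t6829 (L l137 (T t1556 (L l84 (T t4791 N))))))))) N)))))))))))))⟩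
def e0_63_106__79_42_61 : Ent 4 := ⟨[a0, a63, a106], [a79, a42, a102], (M a48 (F (T t309 (L l84 (L l495 (T t551 (L l28 (L l84 (T t579 N)))))))))⟩
def e0_63_106__79_42_62 : Ent 4 := ⟨[a0, a63, a106], [a79, a42, a103], (M a48 (L l149 (F (T t309 (L l84 (T t551 (L l28 (L l84 (T t579 (K a115 (M a91 (F (T t309 (L l84 (L l120 (T t551 (L l28 (L l84 (L l120 (T t579 N)))))))))) (K a91 (M a115 (F (T t309 (L l125 (T t6825 (L l28 (L l84 (T t579 N)))))))) N)))))))))))⟩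
def e0_63_106__79_42_63 : Ent 4 := ⟨[a0, a63, a106], [a79, a42, a107], (M a48 (F (T t309 (L l84 (T t551 (L l28 (L l84 (T t579 N))))))))⟩
def e0_63_106__79_42_64 : Ent 4 := ⟨[a0, a63, a106], [a79, a42, a111], (M a12 (L l137 (F (T t2304 (L l84 (T t2305 (L l56 (L l84 (T t2415 (K a95 (M a127 (F (T t6592 (T t2419 N)))) (K a127 (M a95 (F (T t6812 (L l84 (T t2305 (L l56 (T t6830 N))))))) N)))))))))))⟩
def e0_63_106__79_42_65 : Ent 4 := ⟨[a0, a63, a106], [a79, a42, a112], (M a48 (L l151 (F (T t309 (L l28 (L l116 (T t6462 (L l28 (L l84 (L l116 (T t579 (K a101 (M a90 (F (L l84 (T t6831 (L l28 (L l114 (L l137 (L l404 (L l491 (T t779 (L l84 (L l137 (L l404 (T t6832 (L l28 (L l491 (T t6833 N))))))))))))))))) (K a90 (M a101 (F (T t6740 (L l375 (T t6741 N))))) N)))))))))))))⟩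
def e0_63_106__79_42_66 : Ent 4 := ⟨[a0, a63, a106], [a79, a42, a113], (M a48 (F (T t309 (L l84 (T t551 (L l28 (L l84 (T t579 N))))))))⟩
def e0_63_106__79_42_67 : Ent 4 := ⟨[a0, a63, a106], [a79, a42, a114], (M a48 (F (T t309 (L l84 (L l417 (T t551 (L l28 (L l84 (T t579 N)))))))))⟩
def e0_63_106__79_42_68 : Ent 4 := ⟨[a0, a63, a106], [a79, a42, a115], (M a48 (L l149 (F (T t309 (L l84 (L l120 (T t551 (L l28 (L l84 (L l120 (T t579 (K a103 (M a91 (F (T t309 (L l84 (L l120 (T t551 (L l28 (L l84 (L l120 (T t579 N)))))))))) (K a91 (M a103 (F (T t309 (L l84 (L l120 (T t551 (L l28 (L l84 (L l120 (T t579 N)))))))))) N)))))))))))))⟩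
def e0_63_106__79_42_69 : Ent 4 := ⟨[a0, a63, a106], [a79, a42, a117], (M a48 (F (L l419 (T t309 (L l84 (T t551 (L l28 (L l84 (L l419 (T t579 N))))))))))⟩
def e0_63_106__79_42_70 : Ent 4 := ⟨[a0, a63, a106], [a79, a42, a118], (M a48 (F (T t309 (L l84 (T t551 (L l28 (L l84 (T t579 N))))))))⟩
def e0_63_106__79_42_71 : Ent 4 := ⟨[a0, a63, a106], [a79, a42, a119], (M a48 (F (T t309 (L l84 (T t551 (L l28 (L l84 (T t579 N))))))))⟩
def e0_63_106__79_42_72 : Ent 4 := ⟨[a0, a63, a106], [a79, a42, a122], (M a48 (F (T t309 (L l84 (T t551 (L l28 (L l84 (T t579 N))))))))⟩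
def e0_63_106__79_42_73 : Ent 4 := ⟨[a0, a63, a106], [a79, a42, a123], (M a48 (F (T t309 (L l84 (T t551 (L l28 (L l84 (T t579 N))))))))⟩
def e0_63_106__79_42_74 : Ent 4 := ⟨[a0, a63, a106], [a79, a42, a127], (M a48 (L l137 (F (T t309 (L l84 (T t551 (L l28 (L l151 (T t6744 (L l28 (L l325 (T t6456 (K a95 (M a111 (F (T t6827 (L l84 (T t551 N))))) (K a111 (M a95 (F (L l28 (T t6462 (L l28 (T t6594 (L l84 (L l114 (L l151 (T t6834 N)))))))))) N))))))))))))))⟩
def e0_63_106__79_42_75 : Ent 4 := ⟨[a0, a63, a106], [a79, a42, a128], (M a48 (F (L l192 (T t309 (L l28 (L l84 (T t579 (L l137 (L l192 (L l220 (L l325 (T t6480 (L l54 (L l160 (T t6481 N)))))))))))))))⟩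
def e0_63_106__79_42_76 : Ent 4 := ⟨[a0, a63, a106], [a79, a42, a129], (M a48 (F (L l309 (T t309 (L l84 (L l217 (T t551 (L l28 (L l84 (T t579 N))))))))))⟩
def e0_63_106__79_42_77 : Ent 4 := ⟨[a0, a63, a106], [a79, a42, a130], (M a48 (F (T t309 (L l84 (T t551 (L l28 (L l84 (T t579 N))))))))⟩
def e0_63_106__79_42_78 : Ent 4 := ⟨[a0, a63, a106], [a79, a42, a131], (M a48 (F (T t309 (L l84 (L l197 (T t551 (L l28 (L l84 (T t579 N)))))))))⟩
def e0_63_106__79_42_79 : Ent 4 := ⟨[a0, a63, a106], [a79, a42, a133], (M a48 (F (L l339 (T t309 (L l28 (L l199 (T t6462 (L l28 (L l84 (T t579 N))))))))))⟩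
def e0_63_106__79_42_80 : Ent 4 := ⟨[a0, a63, a106], [a79, a42, a134], (M a48 (F (T t309 (L l84 (T t551 (L l28 (L l84 (T t579 N))))))))⟩
def e0_63_106__79_42_81 : Ent 4 := ⟨[a0, a63, a106], [a79, a42, a135], (M a48 (F (T t309 (L l84 (T t551 (L l28 (L l84 (T t579 N))))))))⟩
def e0_63_106__79_42_82 : Ent 4 := ⟨[a0, a63, a106], [a79, a42, a138], (M a48 (F (L l318 (T t309 (L l28 (T t6462 (L l28 (L l84 (L l318 (T t579 N))))))))))⟩
def e0_63_106__79_42_83 : Ent 4 := ⟨[a0, a63, a106], [a79, a42, a139], (M a48 (F (T t309 (L l84 (T t551 (L l28 (L l84 (T t579 N))))))))⟩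
def e0_63_106__79_42_84 : Ent 4 := ⟨[a0, a63, a106], [a79, a42, a143], (M a48 (L l325 (F (T t309 (L l28 (T t6462 (L l28 (L l84 (T t579 (K a15 (M a207 (F (T t6835 (L l28 (L l483 (T t6462 N)))))) (K a207 (M a15 (F (L l160 (L l236 (T t6836 (L l54 (L l84 (T t2532 (L l137 (L l160 (L l236 (T t6837 N)))))))))))) N)))))))))))⟩
def e0_63_106__79_42_85 : Ent 4 := ⟨[a0, a63, a106], [a79, a42, a144], (M a12 (F (T t2414 (L l56 (L l84 (T t2415 (L l84 (L l170 (T t2305 N)))))))))⟩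
def e0_63_106__79_42_86 : Ent 4 := ⟨[a0, a63, a106], [a79, a42, a145], (M a48 (F (L l162 (L l489 (T t309 (L l84 (L l167 (T t551 (L l28 (L l84 (T t579 N)))))))))))⟩
def e0_63_106__79_42_87 : Ent 4 := ⟨[a0, a63, a106], [a79, a42, a146], (M a48 (F (L l162 (T t309 (L l84 (L l197 (T t551 (L l28 (L l84 (T t579 N))))))))))⟩
def e0_63_106__79_42_88 : Ent 4 := ⟨[a0, a63, a106], [a79, a42, a147], (M a48 (F (L l162 (T t309 (L l84 (T t551 (L l28 (L l84 (T t579 N)))))))))⟩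
def e0_63_106__79_42_89 : Ent 4 := ⟨[a0, a63, a106], [a79, a42, a149], (M a204 (F (L l167 (L l220 (T t6634 (L l56 (L l84 (L l167 (L l495 (T t6635 (L l167 (L l347 (T t6636 (L l56 (L l137 (L l167 (L l220 (L l495 (T t6637 (K a145 (M a153 (F (T t6638 (L l56 (L l137 (L l196 (L l220 (L l341 (L l495 (T t6639 (L l137 (L l196 (L l220 (T t6640 N)))))))))))))) (K a153 (M a102 (L l167 (F (T t6641 (L l84 (L l208 (T t6642 (K a145 (Fr a157 a110 l507 (V t6642)) (K a157 (M a145 (F (L l84 (L l208 (T t6642 (L l365 (T t6643 (L l149 (L l220 (T t6644 N)))))))))) N))))))))) (K a157 (M a153 (F (T t6645 (T t6646 (L l56 (L l137 (L l220 (L l495 (T t6639 (L l137 (L l220 (T t6640 N)))))))))))) (K a98 (M a48 (F (T t2046 (L l28 (L l84 (L l120 (L l491 (T t579 (L l491 (L l495 (T t6651 N))))))))))) (K a102 (M a12 (L l495 (F (L l84 (T t752 (L l167 (L l371 (L l402 (T t765 (L l56 (L l84 (L l371 (T t2415 (K a196 (M a55 (F (L l56 (L l347 (T t6649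 (L l79 (L l150 (L l220 (T t3459 N))))))))) (K a55 (M a196 (F (T t6650 (L l79 (L l150 (L l220 (T t3459 N))))))) N))))))))))))))) (K a110 (M a48 (F (T t2046 (L l28 (L l84 (L l491 (T t579 (L l491 (L l495 (T t6651 N)))))))))) N)))))))))))))))))))))))))⟩
def e0_63_106__79_42_90 : Ent 4 := ⟨[a0, a63, a106], [a79, a42, a150], (M a48 (F (T t309 (L l84 (L l163 (T t551 (L l28 (L l84 (T t579 N)))))))))⟩
def e0_63_106__79_42_91 : Ent 4 := ⟨[a0, a63, a106], [a79, a42, a151], (M a48 (F (T t309 (L l84 (L l163 (T t551 (L l28 (L l84 (T t579 N)))))))))⟩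
def e0_63_106__79_42_92 : Ent 4 := ⟨[a0, a63, a106], [a79, a42, a154], (M a240 (F (T t4786 (L l170 (L l368 (L l512 (T t817 (L l84 (L l137 (L l206 (T t6482 N)))))))))))⟩
def e0_63_106__79_42_93 : Ent 4 := ⟨[a0, a63, a106], [a79, a42, a155], (M a48 (F (T t309 (L l84 (T t551 (L l28 (L l84 (L l367 (T t579 N)))))))))⟩
def e0_63_106__79_42_94 : Ent 4 := ⟨[a0, a63, a106], [a79, a42, a159], (M a240 (F (T t4786 (L l170 (T t817 (L l84 (L l137 (L l361 (T t6482 N)))))))))⟩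
def e0_63_106__79_42_95 : Ent 4 := ⟨[a0, a63, a106], [a79, a42, a160], (M a12 (F (T t2304 (L l84 (T t2305 (L l56 (L l84 (T t2415 N))))))))⟩
def e0_63_106__79_42_96 : Ent 4 := ⟨[a0, a63, a106], [a79, a42, a161], (M a48 (F (T t309 (L l84 (L l197 (L l453 (T t551 (L l28 (L l84 (T t579 N))))))))))⟩
def e0_63_106__79_42_97 : Ent 4 := ⟨[a0, a63, a106], [a79, a42, a162], (M a48 (F (T t309 (L l84 (T t551 (L l28 (L l84 (L l380 (T t579 N)))))))))⟩
def e0_63_106__79_42_98 : Ent 4 := ⟨[a0, a63, a106], [a79, a42, a163], (M a48 (F (T t309 (L l84 (T t551 (L l28 (L l84 (T t579 N))))))))⟩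
def e0_63_106__79_42_99 : Ent 4 := ⟨[a0, a63, a106], [a79, a42, a165], (M a48 (F (T t309 (L l28 (L l199 (L l483 (T t6462 (L l28 (L l84 (T t579 N))))))))))⟩
def e0_63_106__79_42_100 : Ent 4 := ⟨[a0, a63, a106], [a79, a42, a166], (M a48 (F (T t309 (L l84 (L l202 (T t551 (L l28 (L l84 (T t579 N)))))))))⟩
def e0_63_106__79_42_101 : Ent 4 := ⟨[a0, a63, a106], [a79, a42, a167], (M a48 (F (T t309 (L l84 (T t551 (L l28 (L l84 (T t579 N))))))))⟩
def e0_63_106__79_42_102 : Ent 4 := ⟨[a0, a63, a106], [a79, a42, a170], (M a48 (F (T t309 (L l84 (L l220 (T t551 (L l28 (L l84 (L l206 (L l220 (L l404 (T t552 (L l28 (L l84 (L l206 (L l325 (L l404 (T t553 N))))))))))))))))))⟩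
def e0_63_106__79_42_103 : Ent 4 := ⟨[a0, a63, a106], [a79, a42, a171], (M a48 (F (T t309 (L l84 (T t551 (L l28 (L l84 (T t579 N))))))))⟩
def e0_63_106__79_42_104 : Ent 4 := ⟨[a0, a63, a106], [a79, a42, a175], (M a48 (F (T t309 (L l84 (T t551 (L l28 (L l84 (T t579 N))))))))⟩
def e0_63_106__79_42_105 : Ent 4 := ⟨[a0, a63, a106], [a79, a42, a176], (M a240 (F (T t4786 (L l192 (T t817 (L l84 (L l137 (L l190 (L l192 (T t6482 N))))))))))⟩
def e0_63_106__79_42_106 : Ent 4 := ⟨[a0, a63, a106], [a79, a42, a177], (M a48 (F (T t309 (L l84 (L l182 (L l417 (T t551 (L l28 (L l84 (T t579 N))))))))))⟩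
def e0_63_106__79_42_107 : Ent 4 := ⟨[a0, a63, a106], [a79, a42, a178], (M a48 (F (T t309 (L l84 (L l182 (T t551 (L l28 (L l84 (T t579 N)))))))))⟩
def e0_63_106__79_42_108 : Ent 4 := ⟨[a0, a63, a106], [a79, a42, a179], (M a48 (F (T t309 (L l84 (L l182 (T t551 (L l28 (L l84 (T t579 N)))))))))⟩
def e0_63_106__79_42_109 : Ent 4 := ⟨[a0, a63, a106], [a79, a42, a181], (M a48 (F (L l419 (T t309 (L l84 (L l190 (L l199 (T t551 (L l28 (L l84 (L l419 (T t579 N))))))))))))⟩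
def e0_63_106__79_42_110 : Ent 4 := ⟨[a0, a63, a106], [a79, a42, a182], (M a48 (F (T t309 (L l84 (T t551 (L l28 (L l84 (T t579 N))))))))⟩
def e0_63_106__79_42_111 : Ent 4 := ⟨[a0, a63, a106], [a79, a42, a183], (M a48 (F (T t309 (L l84 (L l202 (T t551 (L l28 (L l84 (T t579 N)))))))))⟩
def e0_63_106__79_42_112 : Ent 4 := ⟨[a0, a63, a106], [a79, a42, a186], (M a48 (F (T t309 (L l84 (L l190 (T t551 (L l28 (L l84 (T t579 N)))))))))⟩
def e0_63_106__79_42_113 : Ent 4 := ⟨[a0, a63, a106], [a79, a42, a187], (M a48 (F (T t309 (L l84 (T t551 (L l28 (L l84 (T t579 N))))))))⟩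
def e0_63_106__79_42_114 : Ent 4 := ⟨[a0, a63, a106], [a79, a42, a191], (M a48 (F (T t309 (L l84 (L l190 (L l220 (T t551 (L l28 (L l151 (T t6498 (L l28 (L l84 (L l325 (T t6499 N))))))))))))))⟩
def e0_63_106__79_42_115 : Ent 4 := ⟨[a0, a63, a106], [a79, a42, a192], (M a204 (F (L l84 (L l489 (T t6655 (L l272 (L l489 (T t6656 (L l296 (L l489 (T t6657 (L l56 (L l489 (T t6658 (L l84 (L l489 (T t6659 (K a145 (M a102 (L l489 (F (T t6641 (T t6660 (K a98 (Fr a51 a153 l513 (V t6661)) (K a51 (Fr a98 a110 l102 (V t6662)) N))))))) (K a85 (M a48 (F (L l292 (T t2046 (L l123 (L l151 (L l236 (L l489 (T t6732 N))))))))) (K a157 (M a48 (F (T t5482 (L l28 (L l84 (L l236 (T t579 (L l236 (T t6651 N))))))))) (K a98 (M a153 (L l489 (F (T t6645 (L l296 (T t6668 (L l26 (L l84 (L l120 (L l378 (T t6669 (K a145 (Fr a51 a102 l513 (V t6670)) (K a51 (M a145 (F (T t6671 (L l56 (L l272 (L l334 (L l378 (T t6672 N)))))))) N))))))))))))) (K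 a102 (M a252 (F (L l484 (T t6673 (L l79 (L l148 (L l325 (L l339 (T t6674 (L l84 (L l309 (T t6675 N)))))))))))) (K a110 (M a48 (F (T t6676 (L l28 (L l84 (L l236 (T t579 (L l236 (T t6651 N))))))))) (K a51 (M a48 (L l489 (F (T t5482 (L l151 (L l236 (T t6677 (K a145 (M a98 (F (T t6678 (L l292 (L l441 (T t1315 N)))))) (K a98 (M a145 (F (T t5482 (L l28 (L l84 (L l120 (L l236 (T t579 (L l511 (T t6679 N)))))))))) N))))))))) N))))))))))))))))))))))))⟩
def e0_63_106__79_42_116 : Ent 4 := ⟨[a0, a63, a106], [a79, a42, a193], (M a48 (F (L l228 (T t309 (L l84 (L l515 (T t551 (L l28 (L l84 (T t579 N))))))))))⟩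
def e0_63_106__79_42_117 : Ent 4 := ⟨[a0, a63, a106], [a79, a42, a194], (M a48 (F (L l234 (T t5173 (L l84 (T t551 (L l28 (L l84 (L l234 (T t579 N))))))))))⟩
def e0_63_106__79_42_118 : Ent 4 := ⟨[a0, a63, a106], [a79, a42, a195], (M a48 (F (T t5173 (L l28 (L l84 (T t579 (L l84 (L l273 (T t551 N)))))))))⟩
def e0_63_106__79_42_119 : Ent 4 := ⟨[a0, a63, a106], [a79, a42, a197], (M a240 (F (L l236 (L l311 (T t4786 (L l491 (T t817 (L l84 (L l137 (T t6482 N))))))))))⟩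
def e0_63_106__79_42_120 : Ent 4 := ⟨[a0, a63, a106], [a79, a42, a198], (M a48 (F (L l234 (T t309 (L l84 (T t551 (L l28 (L l84 (L l234 (T t579 N))))))))))⟩
def e0_63_106__79_42_121 : Ent 4 := ⟨[a0, a63, a106], [a79, a42, a199], (M a48 (F (T t309 (L l84 (T t551 (L l28 (L l84 (T t579 N))))))))⟩
def e0_63_106__79_42_122 : Ent 4 := ⟨[a0, a63, a106], [a79, a42, a202], (M a240 (F (L l236 (T t4786 (T t817 (L l84 (L l137 (L l318 (T t6482 N)))))))))⟩
def e0_63_106__79_42_123 : Ent 4 := ⟨[a0, a63, a106], [a79, a42, a203], (M a48 (F (L l230 (T t309 (L l84 (T t551 (L l28 (L l84 (L l230 (T t579 N))))))))))⟩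
def e0_63_106__79_42_124 : Ent 4 := ⟨[a0, a63, a106], [a79, a42, a207], (M a12 (L l325 (F (T t2419 (L l84 (L l231 (T t2305 (L l56 (L l84 (T t2415 (K a15 (M a143 (F (T t2419 (L l84 (L l231 (L l327 (T t2305 (L l56 (L l84 (T t2415 N)))))))))) (K a143 (M a15 (F (T t2419 (L l66 (L l331 (T t717 N)))))) N))))))))))))⟩
def e0_63_106__79_42_125 : Ent 4 := ⟨[a0, a63, a106], [a79, a42, a208], (M a12 (F (T t2419 (L l84 (L l375 (T t2305 (L l56 (L l84 (T t2415 N)))))))))⟩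
def e0_63_106__79_42_126 : Ent 4 := ⟨[a0, a63, a106], [a79, a42, a209], (M a48 (F (L l272 (T t309 (L l84 (L l371 (T t551 (L l28 (L l84 (T t579 N))))))))))⟩
def e0_63_106__79_42_127 : Ent 4 := ⟨[a0, a63, a106], [a79, a42, a210], (M a48 (F (T t309 (L l84 (L l273 (T t551 (L l28 (L l84 (T t579 N)))))))))⟩
def e0_63_106__79_42_128 : Ent 4 := ⟨[a0, a63, a106], [a79, a42, a211], (M a48 (F (T t309 (L l84 (T t551 (L l28 (L l84 (L l245 (T t579 N)))))))))⟩
def e0_63_106__79_42_129 : Ent 4 := ⟨[a0, a63, a106], [a79, a42, a213], (M a48 (F (L l296 (T t309 (L l84 (L l347 (T t551 (L l28 (L l84 (L l246 (T t579 N)))))))))))⟩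
def e0_63_106__79_42_130 : Ent 4 := ⟨[a0, a63, a106], [a79, a42, a214], (M a48 (F (T t309 (L l84 (T t551 (L l28 (L l84 (T t579 N))))))))⟩
def e0_63_106__79_42_131 : Ent 4 := ⟨[a0, a63, a106], [a79, a42, a215], (M a48 (F (T t309 (L l84 (T t551 (L l28 (L l84 (L l245 (T t579 N)))))))))⟩
def e0_63_106__79_42_132 : Ent 4 := ⟨[a0, a63, a106], [a79, a42, a218], (M a48 (F (L l282 (T t309 (L l28 (L l84 (T t2289 (L l28 (L l84 (L l246 (L l282 (T t579 N))))))))))))⟩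
def e0_63_106__79_42_133 : Ent 4 := ⟨[a0, a63, a106], [a79, a42, a219], (M a48 (F (T t309 (L l84 (T t551 (L l28 (L l84 (L l245 (T t579 N)))))))))⟩
def e0_63_106__79_42_134 : Ent 4 := ⟨[a0, a63, a106], [a79, a42, a223], (M a240 (F (T t4786 (L l368 (T t817 (L l84 (L l137 (L l361 (T t6482 N)))))))))⟩
def e0_63_106__79_42_135 : Ent 4 := ⟨[a0, a63, a106], [a79, a42, a224], (M a48 (F (L l268 (T t309 (L l28 (L l84 (L l376 (T t579 (L l84 (L l268 (L l376 (T t551 N))))))))))))⟩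
def e0_63_106__79_42_136 : Ent 4 := ⟨[a0, a63, a106], [a79, a42, a225], (M a48 (F (T t309 (L l84 (L l273 (T t551 (L l28 (L l84 (T t579 N)))))))))⟩
def e0_63_106__79_42_137 : Ent 4 := ⟨[a0, a63, a106], [a79, a42, a226], (M a48 (F (T t5173 (L l28 (L l84 (T t579 (L l84 (T t551 N))))))))⟩
def e0_63_106__79_42_138 : Ent 4 := ⟨[a0, a63, a106], [a79, a42, a227], (M a48 (F (T t309 (L l84 (T t551 (L l28 (L l84 (L l380 (T t579 N)))))))))⟩
def e0_63_106__79_42_139 : Ent 4 := ⟨[a0, a63, a106], [a79, a42, a229], (M a48 (F (T t309 (L l28 (L l84 (T t2289 (L l28 (L l84 (T t579 N)))))))))⟩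
def e0_63_106__79_42_140 : Ent 4 := ⟨[a0, a63, a106], [a79, a42, a230], (M a48 (F (T t309 (L l84 (T t551 (L l28 (L l84 (T t579 N))))))))⟩
def e0_63_106__79_42_141 : Ent 4 := ⟨[a0, a63, a106], [a79, a42, a231], (M a48 (F (T t309 (L l84 (T t551 (L l28 (L l84 (T t579 N))))))))⟩
def e0_63_106__79_42_142 : Ent 4 := ⟨[a0, a63, a106], [a79, a42, a234], (M a48 (F (L l282 (T t5173 (L l84 (T t551 (L l28 (L l84 (L l282 (T t579 N))))))))))⟩
def e0_63_106__79_42_143 : Ent 4 := ⟨[a0, a63, a106], [a79, a42, a235], (M a48 (F (T t309 (L l84 (T t551 (L l28 (L l84 (T t579 N))))))))⟩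
def e0_63_106__79_42_144 : Ent 4 := ⟨[a0, a63, a106], [a79, a42, a239], (M a48 (F (T t309 (L l84 (T t551 (L l28 (L l84 (L l289 (L l404 (T t579 N))))))))))⟩
def e0_63_106__79_42_145 : Ent 4 := ⟨[a0, a63, a106], [a79, a42, a240], (M a12 (F (T t2419 (L l84 (L l298 (T t2305 (L l56 (L l84 (T t2415 N)))))))))⟩
def e0_63_106__79_42_146 : Ent 4 := ⟨[a0, a63, a106], [a79, a42, a241], (M a48 (F (T t309 (L l84 (L l258 (T t551 (L l28 (L l84 (T t579 N)))))))))⟩
def e0_63_106__79_42_147 : Ent 4 := ⟨[a0, a63, a106], [a79, a42, a242], (M a48 (F (T t309 (L l84 (L l258 (T t551 (L l28 (L l84 (T t579 N)))))))))⟩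
def e0_63_106__79_42_148 : Ent 4 := ⟨[a0, a63, a106], [a79, a42, a243], (M a48 (F (T t5173 (L l28 (L l84 (T t579 (L l84 (L l258 (T t551 N)))))))))⟩
def e0_63_106__79_42_149 : Ent 4 := ⟨[a0, a63, a106], [a79, a42, a245], (M a48 (F (L l419 (T t309 (L l84 (L l266 (T t551 (L l28 (L l84 (L l419 (T t579 N)))))))))))⟩
def e0_63_106__79_42_150 : Ent 4 := ⟨[a0, a63, a106], [a79, a42, a246], (M a48 (F (T t309 (L l84 (T t551 (L l28 (L l84 (T t579 N))))))))⟩
def e0_63_106__79_42_151 : Ent 4 := ⟨[a0, a63, a106], [a79, a42, a247], (M a48 (F (T t309 (L l84 (T t551 (L l28 (L l84 (T t579 N))))))))⟩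
def e0_63_106__79_42_152 : Ent 4 := ⟨[a0, a63, a106], [a79, a42, a250], (M a48 (F (L l282 (T t309 (L l84 (L l266 (T t551 (L l28 (L l84 (L l282 (T t579 N)))))))))))⟩
def e0_63_106__79_42_153 : Ent 4 := ⟨[a0, a63, a106], [a79, a42, a251], (M a48 (F (T t309 (L l84 (T t551 (L l28 (L l84 (T t579 N))))))))⟩
def e0_63_106__79_42_154 : Ent 4 := ⟨[a0, a63, a106], [a79, a42, a255], (M a48 (F (T t5173 (L l84 (L l266 (T t551 (L l84 (L l151 (L l266 (T t6838 (L l28 (L l137 (L l289 (T t6527 N))))))))))))))⟩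
def b0_63_106__79_42 : Blk 4 := ⟨[0, 63, 106], [79, 42], [1, 2, 3, 5, 6, 7, 10, 11, 15, 16, 17, 18, 19, 21, 22, 23, 26, 27, 31, 32, 33, 34, 35, 37, 38, 39, 43, 47, 48, 49, 50, 51, 53, 54, 55, 58, 59, 64, 65, 66, 67, 69, 70, 71, 74, 75, 80, 81, 82, 83, 85, 86, 87, 90, 91, 95, 96, 97, 98, 99, 101, 102, 103, 107, 111, 112, 113, 114, 115, 117, 118, 119, 122, 123, 127, 128, 129, 130, 131, 133, 134, 135, 138, 139, 143, 144, 145, 146, 147, 149, 150, 151, 154, 155, 159, 160, 161, 162, 163, 165, 166, 167, 170, 171, 175, 176, 177, 178, 179, 181, 182, 183, 186, 187, 191, 192, 193, 194, 195, 197, 198, 199, 202, 203, 207, 208, 209, 210, 211, 213, 214, 215, 218, 219, 223, 224, 225, 226, 227, 229, 230, 231, 234, 235, 239, 240, 241, 242, 243, 245, 246, 247, 250, 251, 255], [e0_63_106__79_42_0, e0_63_106__79_42_1, e0_63_106__79_42_2, e0_63_106__79_42_3, e0_63_106__79_42_4, e0_63_106__79_42_5, e0_63_106__79_42_6, e0_63_106__79_42_7,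 e0_63_106__79_42_8, e0_63_106__79_42_9, e0_63_106__79_42_10, e0_63_106__79_42_11, e0_63_106__79_42_12, e0_63_106__79_42_13, e0_63_106__79_42_14, e0_63_106__79_42_15, e0_63_106__79_42_16, e0_63_106__79_42_17, e0_63_106__79_42_18, e0_63_106__79_42_19, e0_63_106__79_42_20, e0_63_106__79_42_21, e0_63_106__79_42_22, e0_63_106__79_42_23, e0_63_106__79_42_24, e0_63_106__79_42_25, e0_63_106__79_42_26, e0_63_106__79_42_27, e0_63_106__79_42_28, e0_63_106__79_42_29, e0_63_106__79_42_30, e0_63_106__79_42_31, e0_63_106__79_42_32, e0_63_106__79_42_33, e0_63_106__79_42_34, e0_63_106__79_42_35, e0_63_106__79_42_36, e0_63_106__79_42_37, e0_63_106__79_42_38, e0_63_106__79_42_39, e0_63_106__79_42_40, e0_63_106__79_42_41, e0_63_106__79_42_42, e0_63_106__79_42_43, e0_63_106__79_42_44, e0_63_106__79_42_45, e0_63_106__79_42_46, e0_63_106__79_42_47, e0_63_106__79_42_48, e0_63_106__79_42_49, e0_63_106__79_42_50, e0_63_106__79_42_51,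 e0_63_106__79_42_52, e0_63_106__79_42_53, e0_63_106__79_42_54, e0_63_106__79_42_55, e0_63_106__79_42_56, e0_63_106__79_42_57, e0_63_106__79_42_58, e0_63_106__79_42_59, e0_63_106__79_42_60, e0_63_106__79_42_61, e0_63_106__79_42_62, e0_63_106__79_42_63, e0_63_106__79_42_64, e0_63_106__79_42_65, e0_63_106__79_42_66, e0_63_106__79_42_67, e0_63_106__79_42_68, e0_63_106__79_42_69, e0_63_106__79_42_70, e0_63_106__79_42_71, e0_63_106__79_42_72, e0_63_106__79_42_73, e0_63_106__79_42_74, e0_63_106__79_42_75, e0_63_106__79_42_76, e0_63_106__79_42_77, e0_63_106__79_42_78, e0_63_106__79_42_79, e0_63_106__79_42_80, e0_63_106__79_42_81, e0_63_106__79_42_82, e0_63_106__79_42_83, e0_63_106__79_42_84, e0_63_106__79_42_85, e0_63_106__79_42_86, e0_63_106__79_42_87, e0_63_106__79_42_88, e0_63_106__79_42_89, e0_63_106__79_42_90, e0_63_106__79_42_91, e0_63_106__79_42_92, e0_63_106__79_42_93, e0_63_106__79_42_94, e0_63_106__79_42_95,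 e0_63_106__79_42_96, e0_63_106__79_42_97, e0_63_106__79_42_98, e0_63_106__79_42_99, e0_63_106__79_42_100, e0_63_106__79_42_101, e0_63_106__79_42_102, e0_63_106__79_42_103, e0_63_106__79_42_104, e0_63_106__79_42_105, e0_63_106__79_42_106, e0_63_106__79_42_107, e0_63_106__79_42_108, e0_63_106__79_42_109, e0_63_106__79_42_110, e0_63_106__79_42_111, e0_63_106__79_42_112, e0_63_106__79_42_113, e0_63_106__79_42_114, e0_63_106__79_42_115, e0_63_106__79_42_116, e0_63_106__79_42_117, e0_63_106__79_42_118, e0_63_106__79_42_119, e0_63_106__79_42_120, e0_63_106__79_42_121, e0_63_106__79_42_122, e0_63_106__79_42_123, e0_63_106__79_42_124, e0_63_106__79_42_125, e0_63_106__79_42_126, e0_63_106__79_42_127, e0_63_106__79_42_128, e0_63_106__79_42_129, e0_63_106__79_42_130, e0_63_106__79_42_131, e0_63_106__79_42_132, e0_63_106__79_42_133, e0_63_106__79_42_134, e0_63_106__79_42_135, e0_63_106__79_42_136, e0_63_106__79_42_137,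 e0_63_106__79_42_138, e0_63_106__79_42_139, e0_63_106__79_42_140, e0_63_106__79_42_141, e0_63_106__79_42_142, e0_63_106__79_42_143, e0_63_106__79_42_144, e0_63_106__79_42_145, e0_63_106__79_42_146, e0_63_106__79_42_147, e0_63_106__79_42_148, e0_63_106__79_42_149, e0_63_106__79_42_150, e0_63_106__79_42_151, e0_63_106__79_42_152, e0_63_106__79_42_153, e0_63_106__79_42_154], by decide +kernel, by decide +kernel⟩
def e0_63_106__86_42_0 : Ent 4 := ⟨[a0, a63, a106], [a86, a42, a1], (M a48 (F (T t309 (L l351 (T t551 (L l28 (T t579 N)))))))⟩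
def e0_63_106__86_42_1 : Ent 4 := ⟨[a0, a63, a106], [a86, a42, a2], (M a60 (L l66 (L l474 (F (L l306 (T t1512 (L l351 (L l477 (T t565 (L l22 (L l306 (T t2369 (K a22 (Fr a62 a61 l33 (V t6685)) (K a170 (M a254 (L l66 (F (L l306 (T t4117 (L l220 (L l351 (L l477 (T t565 (L l22 (L l220 (L l306 (L l392 (T t6839 (L l22 (L l306 (L l392 (T t6840 (K a22 (Fr a62 a61 l33 (V t6685)) (K a62 (M a22 (F (L l22 (L l392 (T t881 (L l220 (L l351 (L l477 (T t565 (L l22 (L l220 (L l351 (L l392 (T t2792 (L l22 (L l220 (L l306 (L l351 (T t6841 (K a40 (Fr a192 a149 l519 (Fr a128 a64 l304 (Fr a148 a104 l514 (Fr a168 a188 l216 (Fr a84 a252 l472 (Fr a20 a212 l346 (Fr a23 a21 l11 (V t6959)))))))) (K a23 (M a48 (L l351 (F (T t309 (L l28 (L l477 (T t6843 (K a212 (Fr a149 a192 l519 (V t6844)) (K a149 (M a212 (L l220 (F (T t880 (L l49 (L l54 (L l459 (L l477 (T t3527 (L l22 (L l28 (L l56 (L l404 (T t6845 (K a128 (M a191 (F (T t6846 (L l22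 (L l392 (T t247 N)))))) (K a191 (M a128 (F (T t6847 (L l49 (L l54 (L l60 (L l459 (T t882 N)))))))) N)))))))))))))))) N))))))))) N))))))))))))))))))))) N)))))))))))))))))))) (K a62 (M a22 (L l474 (F (L l22 (T t881 (L l351 (T t6848 (K a23 (M a170 (L l351 (F (T t3207 (T t6849 (T t2917 (K a212 (Fr a149 a192 l519 (V t186)) (K a149 (M a212 (F (T t6850 (L l163 (T t6851 (L l87 (L l347 (T t6852 (T t6853 N))))))))) N)))))))) (K a170 (M a254 (F (L l22 (L l392 (T t881 (L l220 (L l351 (L l477 (T t565 (L l22 (L l220 (L l351 (L l392 (T t2792 (L l22 (L l220 (L l306 (L l351 (T t6841 (K a40 (Fr a192 a149 l519 (Fr a128 a64 l304 (Fr a148 a104 l514 (Fr a168 a188 l216 (Fr a84 a252 l472 (Fr a20 a212 l346 (Fr a23 a21 l11 (V t6959)))))))) (K a23 (M a48 (L l351 (F (T t309 (L l28 (L l477 (T t6843 (K a212 (Fr a149 a192 l519 (V t6844)) (K a149 (M a212 (L l220 (F (T t880 (L l49 (L l54 (L l459 (L l477 (T t3527 (L l22 (L l28 (L l56 (L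 l404 (T t6845 (K a128 (M a191 (F (T t6846 (L l22 (L l392 (T t247 N)))))) (K a191 (M a128 (F (T t6847 (L l49 (L l54 (L l60 (L l459 (T t882 N)))))))) N)))))))))))))))) N))))))))) N))))))))))))))))))))) (K a254 (M a170 (L l432 (F (T t3207 (L l22 (T t881 (K a126 (M a190 (F (T t6854 (L l22 (T t881 N))))) (K a190 (M a126 (F (T t3207 (L l22 (T t881 N))))) N)))))))) N)))))))))) (K a254 (M a170 (L l66 (F (T t3207 (L l261 (L l348 (T t2917 (L l351 (T t1514 (K a22 (Fr a62 a61 l33 (V t6855)) (K a62 (M a22 (L l432 (F (T t3207 (L l22 (T t881 (K a126 (M a190 (F (T t6854 (L l22 (T t881 N))))) (K a190 (M a126 (F (T t3207 (L l22 (T t881 N))))) N)))))))) N))))))))))) N))))))))))))))))⟩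
def e0_63_106__86_42_2 : Ent 4 := ⟨[a0, a63, a106], [a86, a42, a3], (M a48 (L l477 (F (L l309 (T t309 (L l351 (L l453 (T t551 (L l28 (T t579 (K a252 (M a169 (F (L l127 (T t585 (L l262 (L l351 (L l453 (T t551 (L l28 (T t579 N)))))))))) (K a169 (M a252 (F (L l331 (T t304 (L l28 (L l174 (L l333 (L l369 (T t3108 N))))))))) N))))))))))))⟩
def e0_63_106__86_42_3 : Ent 4 := ⟨[a0, a63, a106], [a86, a42, a4], (M a48 (F (T t309 (L l351 (T t551 (L l28 (T t579 N)))))))⟩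
def e0_63_106__86_42_4 : Ent 4 := ⟨[a0, a63, a106], [a86, a42, a5], (M a48 (F (L l47 (T t309 (L l351 (T t551 (L l28 (L l47 (T t579 N)))))))))⟩
def e0_63_106__86_42_5 : Ent 4 := ⟨[a0, a63, a106], [a86, a42, a6], (M a48 (L l456 (F (T t309 (L l351 (T t551 (L l28 (T t579 (K a166 (M a246 (F (T t304 (L l28 (T t579 (L l202 (L l351 (T t551 N)))))))) (K a246 (M a166 (F (T t304 (L l56 (L l259 (T t6542 N)))))) N))))))))))⟩
def e0_63_106__86_42_6 : Ent 4 := ⟨[a0, a63, a106], [a86, a42, a7], (M a48 (L l459 (F (T t309 (L l351 (T t551 (L l28 (T t579 (K a244 (M a165 (F (T t309 (L l54 (L l259 (T t6514 (L l92 (T t6856 N)))))))) (K a165 (M a244 (F (T t304 (L l28 (T t579 (L l28 (L l199 (L l351 (L l483 (T t6462 N)))))))))) N))))))))))⟩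
def e0_63_106__86_42_7 : Ent 4 := ⟨[a0, a63, a106], [a86, a42, a8], (M a48 (L l56 (F (T t309 (L l351 (T t551 (L l28 (T t579 (K a25 (M a59 (F (T t304 (L l26 (L l316 (T t6445 N)))))) (K a59 (M a25 (F (T t304 (L l28 (T t579 (L l351 (T t551 N))))))) N))))))))))⟩
def e0_63_106__86_42_8 : Ent 4 := ⟨[a0, a63, a106], [a86, a42, a9], (M a48 (F (T t309 (L l351 (T t551 (L l28 (T t579 N)))))))⟩
def e0_63_106__86_42_9 : Ent 4 := ⟨[a0, a63, a106], [a86, a42, a10], (M a48 (L l54 (F (L l318 (T t309 (L l351 (T t551 (L l28 (L l318 (T t579 (K a26 (Fr a58 a53 l38 (V t6446)) (K a58 (M a26 (F (L l28 (T t4144 (L l351 (T t551 (L l28 (L l426 (T t6447 (K a32 (Fr a192 a149 l519 (Fr a15 a37 l75 (Fr a47 a31 l61 (V t6528)))) N)))))))))) N))))))))))))⟩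
def e0_63_106__86_42_10 : Ent 4 := ⟨[a0, a63, a106], [a86, a42, a11], (M a48 (F (T t309 (L l351 (T t551 (L l28 (T t579 N)))))))⟩
def e0_63_106__86_42_11 : Ent 4 := ⟨[a0, a63, a106], [a86, a42, a12], (M a48 (F (L l334 (T t309 (L l351 (L l478 (T t551 (L l28 (T t579 N)))))))))⟩
def e0_63_106__86_42_12 : Ent 4 := ⟨[a0, a63, a106], [a86, a42, a13], (M a48 (F (T t309 (L l351 (T t551 (L l28 (T t579 N)))))))⟩
def e0_63_106__86_42_13 : Ent 4 := ⟨[a0, a63, a106], [a86, a42, a14], (M a48 (F (T t309 (L l351 (T t551 (L l28 (T t579 N)))))))⟩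
def e0_63_106__86_42_14 : Ent 4 := ⟨[a0, a63, a106], [a86, a42, a15], (M a48 (F (L l339 (T t309 (L l351 (L l483 (T t551 (L l28 (T t579 N)))))))))⟩
def e0_63_106__86_42_15 : Ent 4 := ⟨[a0, a63, a106], [a86, a42, a20], (M a48 (F (T t309 (L l351 (T t551 (L l28 (T t579 N)))))))⟩
def e0_63_106__86_42_16 : Ent 4 := ⟨[a0, a63, a106], [a86, a42, a21], (M a48 (F (L l47 (T t309 (L l347 (L l351 (T t551 (L l28 (L l47 (T t579 N))))))))))⟩
def e0_63_106__86_42_17 : Ent 4 := ⟨[a0, a63, a106], [a86, a42, a22], (M a48 (L l66 (L l348 (F (T t309 (L l351 (T t551 (L l28 (T t579 (K a2 (M a62 (L l348 (L l474 (F (T t304 (L l22 (L l306 (T t5926 (K a150 (M a214 (L l474 (F (T t304 (L l11 (L l350 (T t602 (K a170 (M a254 (L l218 (F (T t309 (L l11 (L l350 (T t602 (K a130 (Fr a190 a126 l432 (V t825)) (K a190 (M a130 (F (T t309 (L l188 (T t596 N))))) N))))))))) (K a254 (M a170 (F (T t3207 (L l42 (L l438 (T t825 N)))))) N))))))))) (K a214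 (Fr a150 a194 l516 (V t3517)) (K a170 (M a254 (L l348 (F (T t309 (L l22 (L l392 (T t3443 (K a150 (M a214 (L l218 (F (T t309 (L l11 (L l350 (T t602 (K a130 (Fr a190 a126 l432 (V t825)) (K a190 (M a130 (F (T t309 (L l188 (T t596 N))))) N))))))))) (K a214 (Fr a150 a194 l516 (V t3517)) N))))))))) (K a254 (M a170 (L l348 (F (T t3207 (L l42 (L l438 (T t825 (K a150 (M a214 (F (T t3207 (L l42 (L l438 (T t825 N)))))) (K a214 (Fr a150 a194 l516 (M a234 (L l306 (F (L l228 (T t3207 (L l42 (L l438 (L l486 (T t825 (K a66 (Fr a130 a190 l218 (V t6855)) (K a130 (M a66 (F (L l228 (T t6857 (L l28 (L l127 (L l261 (T t337 N)))))))) N)))))))))))) N))))))))) N)))))))))))) (K a150 (M a214 (L l66 (F (T t304 (L l28 (T t579 (L l163 (L l351 (T t551 (K a2 (M a62 (L l474 (F (T t304 (L l11 (L l350 (T t602 (K a170 (M a254 (L l218 (F (T t309 (L l11 (L l350 (T t602 (K a130 (Fr a190 a126 l432 (V t825)) (K a190 (M a130 (F (T t309 (L l188 (T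 t596 N))))) N))))))))) (K a254 (M a170 (F (T t3207 (L l42 (L l438 (T t825 N)))))) N))))))))) (K a62 (M a2 (F (T t304 (L l19 (L l28 (L l369 (T t342 N))))))) N))))))))))) (K a214 (M a150 (L l66 (F (T t309 (L l22 (L l239 (L l294 (T t6858 (K a2 (Fr a62 a194 l516 (V t3517)) (K a62 (M a2 (F (T t304 (L l19 (L l28 (L l369 (T t342 N))))))) N)))))))))) (K a62 (M a2 (L l348 (F (T t304 (L l19 (L l28 (L l369 (T t342 (K a150 (M a214 (F (T t304 (L l19 (L l28 (L l369 (T t342 N))))))) (K a214 (M a150 (F (T t304 (L l19 (L l28 (L l369 (T t342 N))))))) N)))))))))) N)))))))))))))⟩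
def e0_63_106__86_42_18 : Ent 4 := ⟨[a0, a63, a106], [a86, a42, a23], (M a240 (L l351 (F (T t4779 (T t4781 (T t6859 (K a181 (M a165 (L l351 (F (L l28 (T t6860 (T t6493 (K a212 (Fr a149 a192 l519 (V t6861)) (K a149 (M a212 (F (T t6493 (L l28 (L l375 (L l423 (L l477 (T t6862 (L l220 (T t6488 N)))))))))) N)))))))) (K a74 (Fr a149 a192 l519 (Fr a181 a122 l447 (Fr a165 a133 l199 (Fr a15 a90 l483 (V t6515))))) (K a122 (M a64 (L l351 (F (T t394 (L l114 (L l426 (L l474 (T t6863 (K a212 (Fr a149 a192 l519 (V t6863)) (K a149 (M a212 (F (L l11 (L l220 (T t6864 (L l114 (T t6865 (L l28 (L l114 (T t6866 N)))))))))) N)))))))))) (K a212 (Fr a149 a192 l519 (V t6867)) (K a149 (M a212 (F (L l199 (T t4781 (L l87 (L l199 (L l347 (T t6484 (L l28 (L l199 (L l375 (T t6483 (L l28 (L l199 (L l220 (L l375 (T t6485 (K a133 (M a165 (F (T t6486 (L l28 (L l160 (L l220 (L l311 (L l375 (T t6487 (L l160 (L l220 (T t6488 N)))))))))))) (K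 a165 (M a244 (L l199 (F (T t5663 (L l124 (L l167 (L l495 (T t6868 (K a133 (Fr a181 a122 l447 (V t6869)) (K a181 (M a133 (F (T t5663 (L l167 (L l180 (L l220 (L l474 (L l495 (T t6870 (L l495 (T t6871 N))))))))))) N)))))))))) (K a181 (M a165 (F (T t6493 (L l28 (L l375 (L l423 (L l477 (T t6862 (L l220 (T t6488 N)))))))))) (K a74 (M a192 (F (T t5820 (L l56 (L l199 (L l459 (T t6872 N))))))) (K a90 (M a208 (L l92 (F (T t4059 (L l369 (L l495 (T t6873 (L l95 (L l170 (L l357 (T t6874 (K a82 (M a94 (F (T t4059 (L l17 (L l357 (T t6875 N)))))) (K a94 (M a82 (F (L l480 (T t3364 (L l363 (L l369 (T t6876 N))))))) N))))))))))))) (K a122 (M a204 (F (L l375 (T t6877 (L l167 (T t6655 N)))))) N))))))))))))))))))))))) N)))))))))))⟩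
def e0_63_106__86_42_19 : Ent 4 := ⟨[a0, a63, a106], [a86, a42, a24], (M a48 (F (T t309 (L l351 (T t551 (L l28 (T t579 N)))))))⟩
def e0_63_106__86_42_20 : Ent 4 := ⟨[a0, a63, a106], [a86, a42, a25], (M a48 (L l56 (F (T t309 (L l351 (T t551 (L l28 (T t579 (K a8 (M a59 (F (T t304 (L l26 (L l316 (T t6445 N)))))) (K a59 (M a8 (F (T t304 (L l19 (L l28 (T t4700 N)))))) N))))))))))⟩
def e0_63_106__86_42_21 : Ent 4 := ⟨[a0, a63, a106], [a86, a42, a26], (M a48 (L l54 (F (T t309 (L l28 (T t579 (L l351 (T t551 (K a10 (Fr a58 a53 l38 (V t6446)) (K a58 (M a10 (F (L l351 (T t4033 (L l18 (L l87 (L l426 (T t6450 (L l351 (T t551 (L l18 (L l92 (L l354 (L l474 (T t6449 N))))))))))))))) N))))))))))⟩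
def e0_63_106__86_42_22 : Ent 4 := ⟨[a0, a63, a106], [a86, a42, a27], (M a48 (F (T t309 (L l351 (T t551 (L l28 (T t579 N)))))))⟩
def e0_63_106__86_42_23 : Ent 4 := ⟨[a0, a63, a106], [a86, a42, a28], (M a48 (F (T t309 (L l351 (T t551 (L l28 (L l362 (T t579 N))))))))⟩
def e0_63_106__86_42_24 : Ent 4 := ⟨[a0, a63, a106], [a86, a42, a29], (M a48 (F (T t309 (L l351 (L l371 (T t551 (L l28 (T t579 N))))))))⟩
def e0_63_106__86_42_25 : Ent 4 := ⟨[a0, a63, a106], [a86, a42, a30], (M a48 (F (T t309 (L l351 (T t551 (L l28 (T t579 N)))))))⟩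
def e0_63_106__86_42_26 : Ent 4 := ⟨[a0, a63, a106], [a86, a42, a31], (M a48 (F (T t309 (L l351 (L l375 (T t551 (L l28 (L l361 (T t579 N)))))))))⟩
def e0_63_106__86_42_27 : Ent 4 := ⟨[a0, a63, a106], [a86, a42, a40], (M a48 (L l22 (F (T t309 (L l351 (T t551 (L l24 (L l28 (T t579 (K a41 (M a43 (F (T t309 (L l66 (L l351 (L l388 (L l474 (T t6451 (L l24 (L l28 (T t579 N))))))))))) (K a43 (M a41 (F (T t304 (L l24 (L l28 (T t579 (L l351 (T t551 N)))))))) N)))))))))))⟩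
def e0_63_106__86_42_28 : Ent 4 := ⟨[a0, a63, a106], [a86, a42, a41], (M a48 (L l22 (F (T t309 (L l351 (T t551 (L l28 (T t579 (K a40 (M a43 (F (T t309 (L l66 (L l351 (L l388 (L l474 (T t6451 (L l24 (L l28 (T t579 N))))))))))) (K a43 (M a40 (F (T t309 (L l29 (L l69 (T t6452 N)))))) N))))))))))⟩
def e0_63_106__86_42_29 : Ent 4 := ⟨[a0, a63, a106], [a86, a42, a43], (M a48 (L l22 (F (T t309 (L l351 (T t551 (L l28 (T t579 (K a40 (M a41 (F (T t304 (L l24 (L l28 (T t579 (L l351 (T t551 N)))))))) (K a41 (M a40 (F (T t309 (L l29 (L l69 (T t6452 N)))))) N))))))))))⟩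
def e0_63_106__86_42_30 : Ent 4 := ⟨[a0, a63, a106], [a86, a42, a44], (M a48 (F (T t309 (L l351 (T t551 (L l24 (L l28 (T t579 N))))))))⟩
def e0_63_106__86_42_31 : Ent 4 := ⟨[a0, a63, a106], [a86, a42, a45], (M a48 (F (T t309 (L l351 (T t551 (L l28 (T t579 N)))))))⟩
def e0_63_106__86_42_32 : Ent 4 := ⟨[a0, a63, a106], [a86, a42, a46], (M a48 (L l26 (F (T t309 (L l351 (T t551 (L l28 (T t579 (K a34 (M a38 (F (T t304 (L l20 (L l28 (T t579 (L l351 (T t551 N)))))))) (K a38 (M a34 (F (T t309 (L l29 (L l66 (L l474 (L l477 (T t6453 N)))))))) N))))))))))⟩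
def e0_63_106__86_42_33 : Ent 4 := ⟨[a0, a63, a106], [a86, a42, a47], (M a12 (L l28 (F (T t2304 (L l351 (T t2305 (L l56 (T t2415 (K a32 (M a37 (F (T t2414 (L l56 (T t2415 (L l351 (T t2305 N))))))) (K a37 (M a32 (F (T t2304 (L l51 (L l56 (T t682 N)))))) N))))))))))⟩
def e0_63_106__86_42_34 : Ent 4 := ⟨[a0, a63, a106], [a86, a42, a60], (M a48 (F (L l514 (T t309 (L l351 (L l442 (T t551 (L l28 (T t579 N)))))))))⟩
def e0_63_106__86_42_35 : Ent 4 := ⟨[a0, a63, a106], [a86, a42, a61], (M a48 (F (L l35 (T t309 (L l351 (L l515 (T t551 (L l28 (L l35 (T t579 N))))))))))⟩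
def e0_63_106__86_42_36 : Ent 4 := ⟨[a0, a63, a106], [a86, a42, a62], (M a48 (L l66 (F (T t309 (L l351 (T t551 (L l28 (T t579 (K a2 (M a22 (L l474 (F (T t304 (L l28 (T t579 (L l351 (T t551 (K a170 (M a254 (F (T t304 (L l220 (L l351 (T t551 (L l28 (L l206 (L l220 (L l404 (T t552 (L l28 (L l206 (L l404 (T t553 N))))))))))))))) (K a254 (M a170 (L l432 (F (T t3207 (L l28 (L l261 (L l438 (T t323 (L l351 (T t578 (K a126 (M a190 (F (T t3207 (T t6878 N)))) (K a190 (M a126 (F (L l351 (T t6879 (L l185 (T t780 N)))))) N)))))))))))) N)))))))))) (K a22 (M a2 (L l348 (F (T t304 (L l19 (L l28 (L l369 (T t342 (K a150 (M a214 (F (T t304 (L l19 (L l28 (L l369 (T t342 N))))))) (K a214 (M a150 (F (T t304 (L l19 (L l28 (L l369 (T t342 N))))))) N)))))))))) N))))))))))⟩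
def e0_63_106__86_42_37 : Ent 4 := ⟨[a0, a63, a106], [a86, a42, a64], (M a48 (F (T t309 (L l28 (L l127 (T t6454 (L l28 (L l351 (L l474 (T t6455 (L l28 (L l474 (T t6456 (L l28 (L l84 (T t6457 (L l54 (T t6458 (K a207 (Fr a192 a149 l519 (Fr a96 a144 l484 (Fr a101 a111 l104 (Fr a32 a16 l40 (V t6459))))) N)))))))))))))))))))⟩
def e0_63_106__86_42_38 : Ent 4 := ⟨[a0, a63, a106], [a86, a42, a65], (M a48 (F (T t309 (L l76 (L l351 (T t551 (L l28 (L l76 (T t579 N)))))))))⟩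
def e0_63_106__86_42_39 : Ent 4 := ⟨[a0, a63, a106], [a86, a42, a66], (M a48 (F (T t304 (L l28 (L l76 (T t579 (L l76 (L l351 (T t551 N)))))))))⟩
def e0_63_106__86_42_40 : Ent 4 := ⟨[a0, a63, a106], [a86, a42, a67], (M a48 (L l145 (F (T t309 (L l76 (L l351 (T t551 (L l28 (L l76 (T t579 (K a124 (M a105 (F (T t304 (L l109 (L l140 (L l474 (T t6590 N))))))) (K a105 (M a124 (F (T t304 (L l87 (L l141 (L l351 (L l515 (T t6591 (L l28 (L l76 (T t579 N))))))))))) N))))))))))))⟩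
def e0_63_106__86_42_41 : Ent 4 := ⟨[a0, a63, a106], [a86, a42, a68], (M a48 (F (T t309 (L l80 (L l351 (T t551 (L l28 (L l80 (T t579 N)))))))))⟩
def e0_63_106__86_42_42 : Ent 4 := ⟨[a0, a63, a106], [a86, a42, a69], (M a48 (F (T t309 (L l84 (L l351 (T t551 (L l28 (L l84 (T t579 N)))))))))⟩
def e0_63_106__86_42_43 : Ent 4 := ⟨[a0, a63, a106], [a86, a42, a70], (M a48 (L l124 (F (T t309 (L l351 (T t551 (L l28 (T t579 (K a102 (M a118 (F (T t304 (L l28 (T t579 (L l351 (L l495 (T t551 N)))))))) (K a118 (M a102 (F (T t304 (L l107 (T t6713 N))))) N))))))))))⟩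
def e0_63_106__86_42_44 : Ent 4 := ⟨[a0, a63, a106], [a86, a42, a71], (M a48 (L l127 (F (T t309 (L l351 (T t551 (L l28 (T t579 (K a116 (M a101 (F (T t6740 (L l351 (T t6741 N))))) (K a101 (M a116 (F (L l77 (T t2196 (L l28 (L l404 (L l491 (T t779 (L l145 (L l351 (L l491 (T t6742 N)))))))))))) N))))))))))⟩
def e0_63_106__86_42_45 : Ent 4 := ⟨[a0, a63, a106], [a86, a42, a72], (M a48 (F (T t304 (L l28 (L l80 (T t579 (L l80 (L l351 (T t551 N)))))))))⟩
def e0_63_106__86_42_46 : Ent 4 := ⟨[a0, a63, a106], [a86, a42, a73], (M a48 (F (T t309 (L l351 (T t551 (L l28 (T t579 N)))))))⟩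
def e0_63_106__86_42_47 : Ent 4 := ⟨[a0, a63, a106], [a86, a42, a74], (M a48 (F (L l318 (T t304 (L l84 (L l351 (T t551 (L l28 (L l84 (L l318 (T t579 N)))))))))))⟩
def e0_63_106__86_42_48 : Ent 4 := ⟨[a0, a63, a106], [a86, a42, a75], (M a48 (F (T t309 (L l351 (T t551 (L l28 (T t579 N)))))))⟩
def e0_63_106__86_42_49 : Ent 4 := ⟨[a0, a63, a106], [a86, a42, a76], (M a48 (F (T t309 (L l80 (L l351 (T t551 (L l28 (L l80 (T t579 N)))))))))⟩
def e0_63_106__86_42_50 : Ent 4 := ⟨[a0, a63, a106], [a86, a42, a77], (M a48 (F (T t309 (L l351 (T t551 (L l28 (T t579 N)))))))⟩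
def e0_63_106__86_42_51 : Ent 4 := ⟨[a0, a63, a106], [a86, a42, a78], (M a48 (F (T t309 (L l351 (T t551 (L l28 (T t579 N)))))))⟩
def e0_63_106__86_42_52 : Ent 4 := ⟨[a0, a63, a106], [a86, a42, a79], (M a48 (F (T t309 (L l84 (L l351 (T t551 (L l28 (L l84 (T t579 N)))))))))⟩
def e0_63_106__86_42_53 : Ent 4 := ⟨[a0, a63, a106], [a86, a42, a84], (M a195 (L l87 (F (L l346 (T t6880 (L l351 (L l477 (T t6881 (L l140 (L l474 (T t6882 (K a85 (M a87 (F (T t6883 (L l140 (L l348 (L l350 (T t6884 (L l140 (L l141 (L l347 (L l351 (L l477 (T t6810 N))))))))))))) (K a87 (M a85 (F (L l143 (T t5958 (L l348 (L l475 (T t902 N))))))) N)))))))))))))⟩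
def e0_63_106__86_42_54 : Ent 4 := ⟨[a0, a63, a106], [a86, a42, a85], (M a240 (L l87 (F (T t4779 (L l347 (L l351 (L l368 (T t817 (T t4786 (L l28 (L l94 (T t6483 (K a192 (M a84 (F (L l95 (T t6885 (L l489 (T t6886 (L l95 (L l334 (L l339 (T t6887 N)))))))))) (K a84 (M a87 (F (T t4786 (L l347 (L l351 (L l364 (L l368 (T t817 (L l455 (L l459 (T t6609 (L l28 (L l90 (L l94 (L l140 (T t6483 (K a192 (M a3 (F (T t6888 (L l90 (L l92 (L l94 (L l272 (T t6889 N)))))))) N))))))))))))))))) (K a87 (M a84 (F (T t4779 (L l95 (L l458 (T t6890 N)))))) N)))))))))))))))⟩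
def e0_63_106__86_42_55 : Ent 4 := ⟨[a0, a63, a106], [a86, a42, a87], (M a48 (L l87 (F (T t309 (L l351 (T t551 (L l28 (L l367 (T t579 (K a84 (M a85 (F (L l143 (T t5958 (L l474 (T t873 N)))))) (K a85 (M a84 (F (T t304 (L l28 (L l126 (L l369 (T t3650 N))))))) N)))))))))))⟩
def e0_63_106__86_42_56 : Ent 4 := ⟨[a0, a63, a106], [a86, a42, a88], (M a48 (F (T t309 (L l351 (L l478 (T t551 (L l28 (T t579 N))))))))⟩
def e0_63_106__86_42_57 : Ent 4 := ⟨[a0, a63, a106], [a86, a42, a89], (M a48 (L l95 (F (T t309 (L l351 (L l371 (T t551 (L l28 (T t579 (K a92 (M a83 (F (T t304 (L l28 (T t579 (L l351 (L l371 (T t551 N)))))))) (K a83 (M a92 (F (T t304 (L l28 (T t579 (L l351 (L l371 (T t551 N)))))))) N)))))))))))⟩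
def e0_63_106__86_42_58 : Ent 4 := ⟨[a0, a63, a106], [a86, a42, a90], (M a48 (L l92 (F (T t309 (L l351 (L l375 (L l483 (T t551 (L l28 (T t579 (K a82 (M a94 (F (T t304 (L l28 (T t579 (L l351 (L l375 (L l453 (L l483 (T t551 N)))))))))) (K a94 (M a82 (F (T t304 (L l28 (T t579 (L l351 (L l375 (L l483 (T t551 N))))))))) N))))))))))))⟩
def e0_63_106__86_42_59 : Ent 4 := ⟨[a0, a63, a106], [a86, a42, a91], (M a48 (F (T t309 (L l351 (T t551 (L l28 (T t579 N)))))))⟩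
def e0_63_106__86_42_60 : Ent 4 := ⟨[a0, a63, a106], [a86, a42, a92], (M a48 (L l95 (F (T t309 (L l351 (T t551 (L l28 (T t579 (K a89 (M a83 (F (T t304 (L l28 (T t579 (L l351 (L l371 (T t551 N)))))))) (K a83 (M a89 (F (T t304 (L l89 (T t6716 N))))) N))))))))))⟩
def e0_63_106__86_42_61 : Ent 4 := ⟨[a0, a63, a106], [a86, a42, a93], (M a48 (F (T t309 (L l351 (T t551 (L l28 (L l362 (T t579 N))))))))⟩
def e0_63_106__86_42_62 : Ent 4 := ⟨[a0, a63, a106], [a86, a42, a94], (M a48 (L l92 (F (T t309 (L l351 (T t551 (L l28 (T t579 (K a82 (M a90 (F (T t309 (L l89 (T t6815 N))))) (K a90 (M a82 (F (T t304 (L l28 (T t579 (L l351 (L l375 (L l483 (T t551 N))))))))) N))))))))))⟩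
def e0_63_106__86_42_63 : Ent 4 := ⟨[a0, a63, a106], [a86, a42, a95], (M a48 (F (T t309 (L l351 (T t551 (L l28 (L l361 (T t579 N))))))))⟩
def e0_63_106__86_42_64 : Ent 4 := ⟨[a0, a63, a106], [a86, a42, a104], (M a48 (F (T t304 (L l28 (L l140 (T t579 (L l100 (L l140 (L l351 (T t551 N))))))))))⟩
def e0_63_106__86_42_65 : Ent 4 := ⟨[a0, a63, a106], [a86, a42, a105], (M a48 (L l145 (F (T t309 (L l351 (L l515 (T t551 (L l28 (T t579 (K a124 (M a67 (F (T t304 (L l87 (L l141 (L l351 (L l515 (T t6891 (L l28 (L l140 (T t579 N))))))))))) (K a67 (M a124 (F (T t304 (L l87 (L l141 (L l351 (L l515 (T t6591 (L l28 (L l76 (T t579 N))))))))))) N)))))))))))⟩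
def e0_63_106__86_42_66 : Ent 4 := ⟨[a0, a63, a106], [a86, a42, a107], (M a48 (F (T t309 (L l351 (T t551 (L l28 (T t579 N)))))))⟩
def e0_63_106__86_42_67 : Ent 4 := ⟨[a0, a63, a106], [a86, a42, a108], (M a48 (F (T t309 (L l100 (L l351 (T t551 (L l28 (T t579 N))))))))⟩
def e0_63_106__86_42_68 : Ent 4 := ⟨[a0, a63, a106], [a86, a42, a109], (M a48 (F (T t309 (L l351 (T t551 (L l28 (T t579 N)))))))⟩
def e0_63_106__86_42_69 : Ent 4 := ⟨[a0, a63, a106], [a86, a42, a110], (M a48 (F (T t309 (L l351 (T t551 (L l28 (T t579 N)))))))⟩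
def e0_63_106__86_42_70 : Ent 4 := ⟨[a0, a63, a106], [a86, a42, a111], (M a240 (F (T t4779 (L l351 (T t817 (L l137 (T t4781 N)))))))⟩
def e0_63_106__86_42_71 : Ent 4 := ⟨[a0, a63, a106], [a86, a42, a124], (M a48 (L l145 (F (T t309 (L l140 (L l351 (T t551 (L l28 (L l140 (T t579 (K a105 (M a67 (F (T t304 (L l87 (L l141 (L l351 (L l515 (T t6891 (L l28 (L l140 (T t579 N))))))))))) (K a67 (M a105 (F (T t304 (L l109 (L l140 (L l474 (T t6590 N))))))) N))))))))))))⟩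
def e0_63_106__86_42_72 : Ent 4 := ⟨[a0, a63, a106], [a86, a42, a125], (M a48 (F (T t309 (L l351 (T t551 (L l28 (T t579 N)))))))⟩
def e0_63_106__86_42_73 : Ent 4 := ⟨[a0, a63, a106], [a86, a42, a126], (M a48 (F (T t309 (L l351 (T t551 (L l28 (T t579 N)))))))⟩
def e0_63_106__86_42_74 : Ent 4 := ⟨[a0, a63, a106], [a86, a42, a127], (M a48 (F (T t309 (L l351 (T t551 (L l28 (L l127 (T t6454 (L l28 (L l474 (T t6456 N)))))))))))⟩
def e0_63_106__86_42_75 : Ent 4 := ⟨[a0, a63, a106], [a86, a42, a128], (M a48 (F (T t304 (L l28 (T t579 (L l87 (L l192 (L l220 (L l351 (T t6480 (L l54 (L l160 (T t6481 N)))))))))))))⟩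
def e0_63_106__86_42_76 : Ent 4 := ⟨[a0, a63, a106], [a86, a42, a129], (M a48 (F (T t304 (L l28 (T t579 (L l217 (L l351 (T t551 N))))))))⟩
def e0_63_106__86_42_77 : Ent 4 := ⟨[a0, a63, a106], [a86, a42, a130], (M a48 (F (T t309 (L l351 (T t551 (L l28 (T t579 N)))))))⟩
def e0_63_106__86_42_78 : Ent 4 := ⟨[a0, a63, a106], [a86, a42, a131], (M a48 (F (T t309 (L l197 (L l351 (T t551 (L l28 (T t579 N))))))))⟩
def e0_63_106__86_42_79 : Ent 4 := ⟨[a0, a63, a106], [a86, a42, a132], (M a48 (F (T t304 (L l28 (T t579 (L l202 (L l351 (T t551 N))))))))⟩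
def e0_63_106__86_42_80 : Ent 4 := ⟨[a0, a63, a106], [a86, a42, a133], (M a48 (F (T t304 (L l28 (T t579 (L l199 (L l351 (T t551 N))))))))⟩
def e0_63_106__86_42_81 : Ent 4 := ⟨[a0, a63, a106], [a86, a42, a134], (M a48 (F (T t309 (L l351 (T t551 (L l28 (T t579 N)))))))⟩
def e0_63_106__86_42_82 : Ent 4 := ⟨[a0, a63, a106], [a86, a42, a135], (M a48 (F (T t309 (L l351 (T t551 (L l28 (T t579 N)))))))⟩
def e0_63_106__86_42_83 : Ent 4 := ⟨[a0, a63, a106], [a86, a42, a136], (M a48 (F (T t309 (L l351 (T t551 (L l28 (T t579 N)))))))⟩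
def e0_63_106__86_42_84 : Ent 4 := ⟨[a0, a63, a106], [a86, a42, a137], (M a48 (F (T t309 (L l351 (T t551 (L l28 (T t579 N)))))))⟩
def e0_63_106__86_42_85 : Ent 4 := ⟨[a0, a63, a106], [a86, a42, a138], (M a48 (F (L l318 (T t309 (L l351 (T t551 (L l28 (L l318 (T t579 N)))))))))⟩
def e0_63_106__86_42_86 : Ent 4 := ⟨[a0, a63, a106], [a86, a42, a139], (M a48 (F (T t309 (L l351 (T t551 (L l28 (T t579 N)))))))⟩
def e0_63_106__86_42_87 : Ent 4 := ⟨[a0, a63, a106], [a86, a42, a140], (M a48 (F (T t309 (L l222 (L l351 (T t551 (L l28 (T t579 N))))))))⟩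
def e0_63_106__86_42_88 : Ent 4 := ⟨[a0, a63, a106], [a86, a42, a141], (M a48 (F (T t309 (L l351 (T t551 (L l28 (T t579 N)))))))⟩
def e0_63_106__86_42_89 : Ent 4 := ⟨[a0, a63, a106], [a86, a42, a142], (M a48 (F (T t309 (L l351 (T t551 (L l28 (T t579 N)))))))⟩
def e0_63_106__86_42_90 : Ent 4 := ⟨[a0, a63, a106], [a86, a42, a143], (M a48 (F (T t309 (L l28 (L l351 (T t6462 (L l28 (T t579 N))))))))⟩
def e0_63_106__86_42_91 : Ent 4 := ⟨[a0, a63, a106], [a86, a42, a148], (M a48 (F (T t304 (L l28 (T t579 (L l163 (L l351 (T t551 N))))))))⟩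
def e0_63_106__86_42_92 : Ent 4 := ⟨[a0, a63, a106], [a86, a42, a149], (M a101 (L l351 (F (L l170 (T t6892 (L l87 (L l170 (L l347 (T t6893 (L l54 (L l170 (T t6894 (L l54 (L l170 (L l220 (T t6895 (K a144 (M a48 (L l170 (L l351 (F (T t6622 (L l28 (T t579 (K a212 (M a23 (L l170 (F (T t6622 (L l28 (T t579 (K a154 (M a159 (L l366 (F (T t6896 (L l22 (L l28 (L l369 (T t172 (K a18 (M a222 (F (T t6896 (L l10 (L l87 (L l292 (L l340 (L l346 (L l368 (L l477 (T t6897 (L l10 (L l192 (L l206 (L l220 (L l340 (L l368 (L l474 (T t6898 N))))))))))))))))))) (K a222 (M a18 (F (T t6896 (T t6899 N)))) N)))))))))) (K a159 (Fr a154 a207 l512 (V t6900)) N)))))))) (K a154 (M a159 (L l351 (L l366 (F (T t6896 (L l54 (L l340 (L l368 (T t6901 (L l192 (L l206 (L l220 (L l340 (L l368 (L l474 (T t6898 (K a212 (M a23 (L l366 (F (T t6896 (L l22 (L l28 (L l369 (T t172 (K a18 (M a222 (F (T t6896 (L l10 (L l87 (L l292 (L l340 (L l346 (L l368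 (L l477 (T t6897 (L l10 (L l192 (L l206 (L l220 (L l340 (L l368 (L l474 (T t6898 N))))))))))))))))))) (K a222 (M a18 (F (T t6896 (T t6899 N)))) N)))))))))) (K a18 (M a222 (L l351 (F (T t6896 (L l10 (L l54 (L l340 (L l368 (T t6901 (L l10 (L l28 (L l192 (L l206 (L l220 (L l340 (L l368 (L l474 (T t6902 (K a212 (M a23 (F (T t6896 (L l10 (L l87 (L l292 (L l340 (L l346 (L l368 (L l477 (T t6897 (L l10 (L l192 (L l206 (L l220 (L l340 (L l368 (L l474 (T t6898 N))))))))))))))))))) (K a23 (M a212 (F (T t6896 (L l10 (L l192 (L l220 (L l340 (L l368 (T t6903 (L l10 (L l28 (L l192 (L l206 (L l220 (L l340 (L l368 (L l474 (T t6902 N)))))))))))))))))) N)))))))))))))))))))) (K a222 (M a18 (L l351 (F (T t6896 (L l26 (L l28 (L l369 (L l510 (T t3197 (K a212 (M a23 (F (T t6896 (T t6899 N)))) (K a23 (M a212 (F (T t6896 (L l17 (L l26 (L l28 (L l369 (L l510 (T t3197 N))))))))) N))))))))))) (K a23 (M a212 (L l366 (F (T t6896 (L l54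 (L l340 (L l368 (T t6901 (L l28 (L l192 (L l206 (L l220 (L l340 (L l368 (L l474 (T t6902 (K a18 (M a222 (F (T t6896 (L l10 (L l192 (L l220 (L l340 (L l368 (T t6903 (L l10 (L l28 (L l192 (L l206 (L l220 (L l340 (L l368 (L l474 (T t6902 N)))))))))))))))))) (K a222 (M a18 (F (T t6896 (L l17 (L l26 (L l28 (L l369 (L l510 (T t3197 N))))))))) N)))))))))))))))))) N)))))))))))))))))))) (K a23 (M a212 (L l170 (F (T t6622 (L l28 (T t579 (K a154 (M a159 (L l366 (F (T t6896 (L l54 (L l340 (L l368 (T t6901 (L l28 (L l192 (L l206 (L l220 (L l340 (L l368 (L l474 (T t6902 (K a18 (M a222 (F (T t6896 (L l10 (L l192 (L l220 (L l340 (L l368 (T t6903 (L l10 (L l28 (L l192 (L l206 (L l220 (L l340 (L l368 (L l474 (T t6902 N)))))))))))))))))) (K a222 (M a18 (F (T t6896 (L l17 (L l26 (L l28 (L l369 (L l510 (T t3197 N))))))))) N)))))))))))))))))) (K a159 (Fr a154 a207 l512 (V t6900)) N)))))))) (K a159 (Fr a154 a207 l512 (V t6900))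 N))))))))))) (K a96 (M a85 (L l351 (F (L l116 (T t3095 (L l484 (T t2349 (L l54 (L l484 (T t6904 (L l220 (T t6905 (K a212 (M a23 (F (L l116 (T t3095 (L l170 (L l366 (T t6906 (L l54 (L l484 (T t6904 (L l220 (T t6905 N)))))))))))) (K a23 (M a212 (F (T t6907 (L l11 (L l220 (T t6908 (L l54 (L l484 (T t6904 N))))))))) N)))))))))))))) (K a154 (M a240 (L l170 (L l351 (L l366 (F (L l220 (T t6909 (L l28 (L l199 (T t6910 (L l199 (T t4781 (K a144 (M a159 (L l351 (L l366 (F (T t6896 (L l192 (L l199 (T t4781 (K a212 (M a23 (L l366 (F (T t6896 (L l22 (L l66 (L l92 (L l474 (T t6911 (K a18 (M a222 (F (T t6896 (L l22 (L l42 (L l66 (L l92 (L l342 (L l474 (T t6911 N)))))))))) (K a222 (M a18 (F (T t6896 (L l22 (L l92 (L l340 (T t4224 N))))))) N))))))))))) (K a18 (M a222 (L l351 (F (T t6896 (L l192 (L l199 (L l206 (L l220 (L l474 (T t6482 (K a212 (M a23 (F (T t6896 (L l22 (L l42 (L l66 (L l92 (L l342 (L l474 (T t6911 N))))))))))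 (K a23 (M a212 (F (T t6896 (L l192 (L l199 (L l206 (L l220 (L l474 (T t6482 N))))))))) N)))))))))))) (K a222 (M a18 (L l351 (F (T t6896 (L l192 (L l199 (T t4781 (K a212 (M a23 (F (T t6896 (L l22 (L l92 (L l340 (T t4224 N))))))) (K a23 (M a212 (F (T t6896 (L l192 (L l199 (L l206 (L l220 (L l474 (T t6482 N))))))))) N))))))))) (K a23 (M a212 (L l366 (F (T t6896 (L l192 (L l199 (L l206 (L l220 (L l474 (T t6482 (K a18 (M a222 (F (T t6896 (L l192 (L l199 (L l206 (L l220 (L l474 (T t6482 N))))))))) (K a222 (M a18 (F (T t6896 (L l192 (L l199 (L l206 (L l220 (L l474 (T t6482 N))))))))) N)))))))))))) N)))))))))))) (K a212 (M a23 (L l170 (L l366 (F (L l22 (T t6912 (L l28 (L l199 (L l354 (T t6913 (K a144 (M a159 (L l366 (F (T t6896 (L l22 (L l66 (L l92 (L l474 (T t6911 (K a18 (M a222 (F (T t6896 (L l22 (L l42 (L l66 (L l92 (L l342 (L l474 (T t6911 N)))))))))) (K a222 (M a18 (F (T t6896 (L l22 (L l92 (L l340 (T t4224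 N))))))) N))))))))))) (K a18 (M a222 (L l170 (F (L l22 (T t6912 (L l28 (L l199 (T t6910 (K a144 (M a159 (F (T t6896 (L l22 (L l42 (L l66 (L l92 (L l342 (L l474 (T t6911 N)))))))))) (K a159 (M a144 (F (L l22 (T t6912 (L l199 (L l227 (T t6914 N))))))) N)))))))))) (K a222 (M a18 (L l170 (F (L l22 (T t6912 (L l28 (L l199 (T t6910 (K a144 (M a159 (F (T t6896 (L l22 (L l92 (L l340 (T t4224 N))))))) (K a159 (M a144 (F (L l368 (T t6915 (L l22 (L l95 (T t6916 (L l22 (L l28 (L l510 (T t6917 N))))))))))) N)))))))))) (K a159 (M a144 (L l366 (F (L l22 (T t6912 (L l199 (L l227 (T t6914 (K a18 (M a222 (F (L l22 (T t6912 (L l199 (L l227 (T t6914 N))))))) (K a222 (M a18 (F (L l368 (T t6915 (L l22 (L l95 (T t6916 (L l22 (L l28 (L l510 (T t6917 N))))))))))) N)))))))))) N)))))))))))))) (K a18 (M a222 (L l170 (L l351 (F (L l45 (L l220 (T t6909 (L l28 (L l199 (L l354 (T t6913 (L l199 (L l206 (L l220 (L l474 (T t6482 (K a144 (M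 a159 (L l351 (F (T t6896 (L l192 (L l199 (L l206 (L l220 (L l474 (T t6482 (K a212 (M a23 (F (T t6896 (L l22 (L l42 (L l66 (L l92 (L l342 (L l474 (T t6911 N)))))))))) (K a23 (M a212 (F (T t6896 (L l192 (L l199 (L l206 (L l220 (L l474 (T t6482 N))))))))) N)))))))))))) (K a212 (M a23 (L l170 (F (L l22 (T t6912 (L l28 (L l199 (T t6910 (K a144 (M a159 (F (T t6896 (L l22 (L l42 (L l66 (L l92 (L l342 (L l474 (T t6911 N)))))))))) (K a159 (M a144 (F (L l22 (T t6912 (L l199 (L l227 (T t6914 N))))))) N)))))))))) (K a23 (M a212 (L l170 (F (L l45 (L l220 (T t6909 (L l28 (L l199 (L l354 (T t6913 (L l199 (L l206 (L l220 (L l474 (T t6482 (K a144 (M a159 (F (T t6896 (L l192 (L l199 (L l206 (L l220 (L l474 (T t6482 N))))))))) (K a159 (M a144 (F (L l45 (L l227 (T t6918 (L l199 (L l361 (T t4781 (L l10 (L l368 (T t6919 (L l199 (L l227 (T t6914 N)))))))))))))) N))))))))))))))))) (K a159 (M a144 (L l351 (F (L l45 (L l227 (T t6918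 (L l199 (L l361 (T t4781 (L l10 (L l368 (T t6919 (L l199 (L l227 (T t6914 (K a212 (M a23 (F (L l22 (T t6912 (L l199 (L l227 (T t6914 N))))))) (K a23 (M a212 (F (L l45 (L l227 (T t6918 (L l199 (L l361 (T t4781 (L l10 (L l368 (T t6919 (L l199 (L l227 (T t6914 N)))))))))))))) N))))))))))))))))) N)))))))))))))))))))) (K a222 (M a18 (L l170 (L l351 (F (L l220 (T t6909 (L l28 (L l199 (T t6910 (L l199 (T t4781 (K a144 (M a159 (L l351 (F (T t6896 (L l192 (L l199 (T t4781 (K a212 (M a23 (F (T t6896 (L l22 (L l92 (L l340 (T t4224 N))))))) (K a23 (M a212 (F (T t6896 (L l192 (L l199 (L l206 (L l220 (L l474 (T t6482 N))))))))) N))))))))) (K a212 (M a23 (L l170 (F (L l22 (T t6912 (L l28 (L l199 (T t6910 (K a144 (M a159 (F (T t6896 (L l22 (L l92 (L l340 (T t4224 N))))))) (K a159 (M a144 (F (L l368 (T t6915 (L l22 (L l95 (T t6916 (L l22 (L l28 (L l510 (T t6917 N))))))))))) N)))))))))) (K a23 (M a212 (L l170 (F (L l368 (T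 t6920 (L l199 (T t4781 (L l28 (L l199 (T t6910 (K a144 (M a159 (F (T t6896 (L l192 (L l199 (L l206 (L l220 (L l474 (T t6482 N))))))))) (K a159 (M a144 (F (T t6921 (L l199 (L l361 (T t4781 (L l199 (L l227 (T t6914 N))))))))) N)))))))))))) (K a159 (M a144 (L l351 (F (T t6921 (L l199 (L l361 (T t4781 (L l199 (L l227 (T t6914 (K a212 (M a23 (F (L l368 (T t6915 (L l22 (L l95 (T t6916 (L l22 (L l28 (L l510 (T t6917 N))))))))))) (K a23 (M a212 (F (T t6921 (L l199 (L l361 (T t4781 (L l199 (L l227 (T t6914 N))))))))) N)))))))))))) N))))))))))))))) (K a23 (M a212 (L l170 (L l366 (F (L l368 (T t6920 (L l199 (T t4781 (L l28 (L l199 (T t6910 (K a144 (M a159 (L l366 (F (T t6896 (L l192 (L l199 (L l206 (L l220 (L l474 (T t6482 (K a18 (M a222 (F (T t6896 (L l192 (L l199 (L l206 (L l220 (L l474 (T t6482 N))))))))) (K a222 (M a18 (F (T t6896 (L l192 (L l199 (L l206 (L l220 (L l474 (T t6482 N))))))))) N)))))))))))) (K a18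 (M a222 (L l170 (F (L l45 (L l220 (T t6909 (L l28 (L l199 (L l354 (T t6913 (L l199 (L l206 (L l220 (L l474 (T t6482 (K a144 (M a159 (F (T t6896 (L l192 (L l199 (L l206 (L l220 (L l474 (T t6482 N))))))))) (K a159 (M a144 (F (L l45 (L l227 (T t6918 (L l199 (L l361 (T t4781 (L l10 (L l368 (T t6919 (L l199 (L l227 (T t6914 N)))))))))))))) N))))))))))))))))) (K a222 (M a18 (L l170 (F (L l368 (T t6920 (L l199 (T t4781 (L l28 (L l199 (T t6910 (K a144 (M a159 (F (T t6896 (L l192 (L l199 (L l206 (L l220 (L l474 (T t6482 N))))))))) (K a159 (M a144 (F (T t6921 (L l199 (L l361 (T t4781 (L l199 (L l227 (T t6914 N))))))))) N)))))))))))) (K a159 (M a144 (L l366 (F (L l227 (T t6918 (L l199 (L l361 (T t4781 (L l368 (T t6919 (L l199 (L l227 (T t6914 (K a18 (M a222 (F (L l45 (L l227 (T t6918 (L l199 (L l361 (T t4781 (L l10 (L l368 (T t6919 (L l199 (L l227 (T t6914 N)))))))))))))) (K a222 (M a18 (F (T t6921 (L l199 (L l361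 (T t4781 (L l199 (L l227 (T t6914 N))))))))) N))))))))))))))) N))))))))))))))) (K a159 (M a144 (L l351 (L l366 (F (L l227 (T t6918 (L l199 (L l361 (T t4781 (L l368 (T t6919 (L l199 (L l227 (T t6914 (K a212 (M a23 (L l366 (F (L l22 (T t6912 (L l199 (L l227 (T t6914 (K a18 (M a222 (F (L l22 (T t6912 (L l199 (L l227 (T t6914 N))))))) (K a222 (M a18 (F (L l368 (T t6915 (L l22 (L l95 (T t6916 (L l22 (L l28 (L l510 (T t6917 N))))))))))) N)))))))))) (K a18 (M a222 (L l351 (F (L l45 (L l227 (T t6918 (L l199 (L l361 (T t4781 (L l10 (L l368 (T t6919 (L l199 (L l227 (T t6914 (K a212 (M a23 (F (L l22 (T t6912 (L l199 (L l227 (T t6914 N))))))) (K a23 (M a212 (F (L l45 (L l227 (T t6918 (L l199 (L l361 (T t4781 (L l10 (L l368 (T t6919 (L l199 (L l227 (T t6914 N)))))))))))))) N))))))))))))))))) (K a222 (M a18 (L l351 (F (T t6921 (L l199 (L l361 (T t4781 (L l199 (L l227 (T t6914 (K a212 (M a23 (F (L l368 (T t6915 (L l22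 (L l95 (T t6916 (L l22 (L l28 (L l510 (T t6917 N))))))))))) (K a23 (M a212 (F (T t6921 (L l199 (L l361 (T t4781 (L l199 (L l227 (T t6914 N))))))))) N)))))))))))) (K a23 (M a212 (L l366 (F (L l227 (T t6918 (L l199 (L l361 (T t4781 (L l368 (T t6919 (L l199 (L l227 (T t6914 (K a18 (M a222 (F (L l45 (L l227 (T t6918 (L l199 (L l361 (T t4781 (L l10 (L l368 (T t6919 (L l199 (L l227 (T t6914 N)))))))))))))) (K a222 (M a18 (F (T t6921 (L l199 (L l361 (T t4781 (L l199 (L l227 (T t6914 N))))))))) N))))))))))))))) N)))))))))))))))))) N)))))))))))))))))) (K a207 (M a48 (L l351 (F (T t6922 (L l28 (L l236 (L l289 (T t579 (L l220 (L l474 (T t6898 (L l170 (L l220 (T t6923 (K a212 (M a23 (F (T t6922 (L l22 (L l28 (L l369 (L l511 (T t172 (L l170 (L l220 (T t6923 N))))))))))) (K a23 (M a212 (F (T t6922 (L l28 (L l236 (L l289 (T t579 (L l220 (L l474 (T t6898 (L l170 (L l220 (T t6923 N))))))))))))) N)))))))))))))))) (K a159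 (M a64 (L l170 (L l351 (F (T t6924 (L l28 (L l220 (L l474 (T t6925 (L l220 (T t6926 (K a144 (M a154 (L l351 (F (T t6927 (L l92 (L l375 (T t6928 (K a212 (M a23 (F (T t6927 (L l92 (L l340 (L l375 (T t6929 N))))))) (K a23 (M a212 (F (T t6927 (L l92 (L l340 (L l375 (T t6930 N))))))) N))))))))) (K a212 (M a23 (L l170 (F (T t6924 (L l22 (L l145 (L l217 (L l220 (T t6931 (K a144 (M a154 (F (T t6927 (L l92 (L l340 (L l375 (T t6929 N))))))) (K a154 (M a144 (L l366 (F (T t6924 (L l22 (L l145 (L l217 (L l220 (T t6931 (K a18 (M a222 (F (T t6924 (L l22 (L l145 (L l217 (L l220 (T t6931 N)))))))) (K a222 (M a18 (F (T t6924 (L l22 (L l145 (L l217 (L l220 (T t6931 N)))))))) N))))))))))) N))))))))))) (K a154 (M a144 (L l351 (L l366 (F (L l220 (T t6932 (T t6924 (L l220 (T t6933 (T t6934 (K a212 (M a23 (L l366 (F (T t6924 (L l22 (L l145 (L l217 (L l220 (T t6931 (K a18 (M a222 (F (T t6924 (L l22 (L l145 (L l217 (L l220 (T t6931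 N)))))))) (K a222 (M a18 (F (T t6924 (L l22 (L l145 (L l217 (L l220 (T t6931 N)))))))) N))))))))))) (K a18 (M a222 (L l351 (F (L l220 (T t6932 (T t6924 (L l45 (L l220 (T t6933 (T t6934 (K a212 (M a23 (F (T t6924 (L l22 (L l145 (L l217 (L l220 (T t6931 N)))))))) (K a23 (M a212 (F (T t6924 (L l145 (L l220 (T t6935 N)))))) N)))))))))))) (K a222 (M a18 (L l351 (F (L l220 (T t6932 (T t6924 (L l220 (T t6933 (L l291 (T t6934 (K a212 (M a23 (F (T t6924 (L l22 (L l145 (L l217 (L l220 (T t6931 N)))))))) (K a23 (M a212 (F (T t6924 (L l11 (L l220 (T t6864 N)))))) N)))))))))))) (K a23 (M a212 (L l366 (F (T t6924 (L l11 (L l220 (T t6864 (K a18 (M a222 (F (T t6924 (L l145 (L l220 (T t6935 N)))))) (K a222 (M a18 (F (T t6924 (L l11 (L l220 (T t6864 N)))))) N))))))))) N)))))))))))))) (K a23 (M a212 (L l170 (F (T t6924 (L l11 (L l220 (T t6864 (K a144 (M a154 (F (T t6927 (L l92 (L l340 (L l375 (T t6930 N))))))) (K a154 (M a144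 (L l366 (F (T t6924 (L l11 (L l220 (T t6864 (K a18 (M a222 (F (T t6924 (L l145 (L l220 (T t6935 N)))))) (K a222 (M a18 (F (T t6924 (L l11 (L l220 (T t6864 N)))))) N))))))))) N))))))))) N))))))))))))))) (K a111 (M a85 (L l351 (F (T t3095 (T t2349 (L l54 (T t6904 (L l137 (L l220 (T t6905 (K a212 (M a23 (F (T t3095 (L l170 (L l366 (T t6906 (L l54 (T t6904 (L l137 (L l220 (T t6905 N))))))))))) (K a23 (M a212 (F (T t2349 (L l11 (L l137 (L l220 (T t6908 (L l54 (T t6904 N))))))))) N)))))))))))) (K a212 (M a23 (F (L l54 (L l170 (L l220 (T t6895 (L l22 (L l170 (T t6936 (K a144 (M a64 (L l170 (F (T t6937 (L l22 (L l145 (L l192 (L l217 (L l220 (T t6931 (K a154 (M a159 (L l366 (F (T t6896 (L l22 (L l145 (L l192 (L l217 (L l220 (T t6931 (K a18 (M a222 (F (T t6896 (L l22 (L l145 (L l192 (L l217 (L l220 (T t6931 N))))))))) (K a222 (M a18 (F (T t6896 (L l22 (L l510 (T t6938 N)))))) N)))))))))))) (K a159 (M a154 (F (T t6927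 (L l92 (L l340 (L l375 (T t6929 N))))))) N)))))))))))) (K a96 (M a64 (F (T t6939 (L l22 (L l145 (L l217 (L l220 (T t6931 (L l54 (L l484 (T t6940 N))))))))))) (K a154 (M a64 (L l170 (L l366 (F (T t6924 (L l22 (L l145 (L l217 (L l220 (T t6931 (K a144 (M a159 (L l366 (F (T t6896 (L l22 (L l145 (L l192 (L l217 (L l220 (T t6931 (K a18 (M a222 (F (T t6896 (L l22 (L l145 (L l192 (L l217 (L l220 (T t6931 N))))))))) (K a222 (M a18 (F (T t6896 (L l22 (L l510 (T t6938 N)))))) N)))))))))))) (K a18 (M a222 (L l170 (F (T t6924 (L l22 (L l145 (L l217 (L l220 (T t6931 (K a144 (M a159 (F (T t6896 (L l22 (L l145 (L l192 (L l217 (L l220 (T t6931 N))))))))) (K a159 (M a144 (F (T t6924 (L l22 (L l145 (L l217 (L l220 (T t6931 N)))))))) N))))))))))) (K a222 (M a18 (L l170 (F (T t6924 (L l22 (L l510 (T t6938 (K a144 (M a159 (F (T t6896 (L l22 (L l510 (T t6938 N)))))) (K a159 (M a144 (F (T t6924 (L l22 (L l145 (L l217 (L l220 (T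 t6931 N)))))))) N))))))))) (K a159 (M a144 (L l366 (F (T t6924 (L l22 (L l145 (L l217 (L l220 (T t6931 (K a18 (M a222 (F (T t6924 (L l22 (L l145 (L l217 (L l220 (T t6931 N)))))))) (K a222 (M a18 (F (T t6924 (L l22 (L l145 (L l217 (L l220 (T t6931 N)))))))) N))))))))))) N)))))))))))))) (K a207 (M a64 (F (T t6937 (L l22 (L l145 (L l217 (L l220 (L l235 (T t6931 N))))))))) (K a159 (M a64 (L l170 (F (T t6924 (L l22 (L l145 (L l217 (L l220 (T t6931 (K a144 (M a154 (F (T t6927 (L l92 (L l340 (L l375 (T t6929 N))))))) (K a154 (M a144 (L l366 (F (T t6924 (L l22 (L l145 (L l217 (L l220 (T t6931 (K a18 (M a222 (F (T t6924 (L l22 (L l145 (L l217 (L l220 (T t6931 N)))))))) (K a222 (M a18 (F (T t6924 (L l22 (L l145 (L l217 (L l220 (T t6931 N)))))))) N))))))))))) N))))))))))) (K a111 (M a64 (F (L l137 (T t6941 (L l22 (L l145 (L l217 (L l220 (T t6931 (L l54 (L l137 (T t6940 N)))))))))))) N))))))))))))))) (K a23 (M a212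 (F (L l170 (T t6892 (L l87 (L l170 (L l347 (T t6893 (L l54 (L l170 (T t6894 (L l54 (L l170 (L l220 (T t6895 (K a144 (M a64 (L l170 (F (T t6937 (L l11 (L l192 (L l220 (T t6864 (K a154 (M a159 (L l366 (F (T t6896 (L l145 (L l192 (L l220 (T t6935 (K a18 (M a222 (F (T t6896 (L l11 (L l192 (L l220 (T t6864 N))))))) (K a222 (M a18 (F (T t6896 (L l145 (L l192 (L l220 (T t6935 N))))))) N)))))))))) (K a159 (M a154 (F (T t6927 (L l92 (L l340 (L l375 (T t6930 N))))))) N)))))))))) (K a96 (M a64 (F (L l11 (L l220 (T t6864 (L l170 (L l366 (T t6942 (L l54 (L l484 (T t6940 N))))))))))) (K a154 (M a64 (L l170 (L l366 (F (T t6924 (L l11 (L l220 (T t6864 (K a144 (M a159 (L l366 (F (T t6896 (L l145 (L l192 (L l220 (T t6935 (K a18 (M a222 (F (T t6896 (L l11 (L l192 (L l220 (T t6864 N))))))) (K a222 (M a18 (F (T t6896 (L l145 (L l192 (L l220 (T t6935 N))))))) N)))))))))) (K a18 (M a222 (L l170 (F (T t6924 (L l11 (L l220 (T t6864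 (K a144 (M a159 (F (T t6896 (L l11 (L l192 (L l220 (T t6864 N))))))) (K a159 (M a144 (F (T t6924 (L l145 (L l220 (T t6935 N)))))) N))))))))) (K a222 (M a18 (L l170 (F (T t6924 (L l11 (L l220 (T t6864 (K a144 (M a159 (F (T t6896 (L l145 (L l192 (L l220 (T t6935 N))))))) (K a159 (M a144 (F (T t6924 (L l11 (L l220 (T t6864 N)))))) N))))))))) (K a159 (M a144 (L l366 (F (T t6924 (L l11 (L l220 (T t6864 (K a18 (M a222 (F (T t6924 (L l145 (L l220 (T t6935 N)))))) (K a222 (M a18 (F (T t6924 (L l11 (L l220 (T t6864 N)))))) N))))))))) N)))))))))))) (K a207 (M a64 (F (T t6943 (L l11 (L l220 (T t6864 N)))))) (K a159 (M a64 (L l170 (F (T t6924 (L l11 (L l220 (T t6864 (K a144 (M a154 (F (T t6927 (L l92 (L l340 (L l375 (T t6930 N))))))) (K a154 (M a144 (L l366 (F (T t6924 (L l11 (L l220 (T t6864 (K a18 (M a222 (F (T t6924 (L l145 (L l220 (T t6935 N)))))) (K a222 (M a18 (F (T t6924 (L l11 (L l220 (T t6864 N)))))) N)))))))))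 N))))))))) (K a111 (M a64 (F (L l11 (L l220 (T t6864 (L l137 (T t6941 (L l54 (L l137 (T t6940 N)))))))))) N))))))))))))))))))))) N))))))))))))))))))))))))⟩
def e0_63_106__86_42_93 : Ent 4 := ⟨[a0, a63, a106], [a86, a42, a150], (M a48 (L l348 (F (T t309 (L l163 (L l351 (T t551 (L l28 (T t579 (K a22 (M a214 (L l66 (F (T t304 (L l28 (T t579 (L l163 (L l351 (T t551 (K a2 (M a62 (L l474 (F (T t304 (L l11 (L l350 (T t602 (K a170 (M a254 (L l218 (F (T t309 (L l11 (L l350 (T t602 (K a130 (Fr a190 a126 l432 (V t825)) (K a190 (M a130 (F (T t309 (L l188 (T t596 N))))) N))))))))) (K a254 (M a170 (F (T t3207 (L l42 (L l438 (T t825 N)))))) N))))))))) (K a62 (M a2 (F (T t304 (L l19 (L l28 (L l369 (T t342 N))))))) N))))))))))) (K a214 (M a22 (F (T t304 (L l28 (T t579 (L l163 (L l351 (T t551 N)))))))) N)))))))))))⟩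
def e0_63_106__86_42_94 : Ent 4 := ⟨[a0, a63, a106], [a86, a42, a151], (M a48 (F (T t309 (L l163 (L l351 (T t551 (L l28 (T t579 N))))))))⟩
def e0_63_106__86_42_95 : Ent 4 := ⟨[a0, a63, a106], [a86, a42, a152], (M a48 (F (T t304 (L l28 (T t579 (L l222 (L l351 (T t551 N))))))))⟩
def e0_63_106__86_42_96 : Ent 4 := ⟨[a0, a63, a106], [a86, a42, a153], (M a48 (L l369 (F (T t309 (L l167 (L l351 (T t551 (L l28 (T t579 (K a220 (M a19 (F (T t304 (L l28 (L l241 (T t579 (L l167 (L l351 (T t551 N))))))))) (K a19 (M a220 (F (T t304 (L l28 (L l367 (T t579 (L l167 (L l351 (T t551 N))))))))) N)))))))))))⟩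
def e0_63_106__86_42_97 : Ent 4 := ⟨[a0, a63, a106], [a86, a42, a154], (M a240 (L l366 (F (T t4779 (L l170 (L l351 (L l368 (L l512 (T t817 (T t4781 (K a18 (M a222 (F (T t4786 (L l10 (L l45 (L l170 (L l351 (L l368 (L l512 (T t817 (T t4781 N))))))))))) (K a222 (M a18 (F (T t4786 (L l170 (L l351 (L l368 (L l512 (T t817 (T t4781 N))))))))) N))))))))))))⟩
def e0_63_106__86_42_98 : Ent 4 := ⟨[a0, a63, a106], [a86, a42, a155], (M a48 (F (T t309 (L l351 (T t551 (L l28 (L l367 (T t579 N))))))))⟩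
def e0_63_106__86_42_99 : Ent 4 := ⟨[a0, a63, a106], [a86, a42, a156], (M a48 (F (T t304 (L l28 (T t579 (L l351 (T t551 N)))))))⟩
def e0_63_106__86_42_100 : Ent 4 := ⟨[a0, a63, a106], [a86, a42, a157], (M a48 (F (T t309 (L l167 (L l351 (T t551 (L l28 (T t579 N))))))))⟩
def e0_63_106__86_42_101 : Ent 4 := ⟨[a0, a63, a106], [a86, a42, a158], (M a48 (F (T t309 (L l351 (T t551 (L l28 (L l362 (T t579 N))))))))⟩
def e0_63_106__86_42_102 : Ent 4 := ⟨[a0, a63, a106], [a86, a42, a159], (M a240 (F (T t4779 (L l170 (L l351 (T t817 (L l361 (T t4781 N))))))))⟩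
def e0_63_106__86_42_103 : Ent 4 := ⟨[a0, a63, a106], [a86, a42, a168], (M a48 (F (T t309 (L l351 (T t551 (L l28 (L l400 (T t579 N))))))))⟩
def e0_63_106__86_42_104 : Ent 4 := ⟨[a0, a63, a106], [a86, a42, a169], (M a48 (L l477 (F (T t309 (L l217 (L l351 (T t551 (L l28 (T t579 (K a252 (M a3 (F (L l291 (T t304 (L l401 (L l441 (L l473 (T t86 (L l366 (L l405 (L l441 (T t348 N)))))))))))) (K a3 (M a252 (F (L l331 (T t304 (L l28 (L l174 (L l333 (L l369 (T t3108 N))))))))) N)))))))))))⟩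
def e0_63_106__86_42_105 : Ent 4 := ⟨[a0, a63, a106], [a86, a42, a170], (M a48 (L l474 (F (T t309 (L l220 (L l351 (T t551 (L l28 (L l206 (L l220 (L l404 (T t552 (L l28 (L l206 (L l404 (T t553 (K a2 (M a254 (L l66 (F (T t304 (L l220 (L l351 (T t551 (L l28 (L l206 (L l220 (L l404 (T t552 (L l28 (L l206 (L l404 (T t553 (K a22 (M a62 (L l348 (F (T t309 (L l22 (L l392 (T t3443 (K a150 (M a214 (L l218 (F (T t309 (L l11 (L l350 (T t602 (K a130 (Fr a190 a126 l432 (V t825)) (K a190 (M a130 (F (T t309 (L l188 (T t596 N))))) N))))))))) (K a214 (Fr a150 a194 l516 (V t3517)) N))))))))) (K a62 (M a22 (F (T t304 (L l220 (L l351 (T t551 (L l28 (L l206 (L l220 (L l404 (T t552 (L l28 (L l206 (L l404 (T t553 N))))))))))))))) N)))))))))))))))))) (K a254 (M a2 (F (T t304 (L l438 (T t339 N))))) N))))))))))))))))))⟩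
def e0_63_106__86_42_106 : Ent 4 := ⟨[a0, a63, a106], [a86, a42, a171], (M a48 (F (T t309 (L l351 (T t551 (L l28 (T t579 N)))))))⟩
def e0_63_106__86_42_107 : Ent 4 := ⟨[a0, a63, a106], [a86, a42, a172], (M a48 (F (T t309 (L l351 (T t551 (L l28 (T t579 N)))))))⟩
def e0_63_106__86_42_108 : Ent 4 := ⟨[a0, a63, a106], [a86, a42, a173], (M a48 (F (T t309 (L l351 (T t551 (L l28 (T t579 N)))))))⟩
def e0_63_106__86_42_109 : Ent 4 := ⟨[a0, a63, a106], [a86, a42, a174], (M a48 (F (T t309 (L l351 (T t551 (L l28 (T t579 N)))))))⟩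
def e0_63_106__86_42_110 : Ent 4 := ⟨[a0, a63, a106], [a86, a42, a175], (M a48 (F (T t309 (L l351 (T t551 (L l28 (T t579 N)))))))⟩
def e0_63_106__86_42_111 : Ent 4 := ⟨[a0, a63, a106], [a86, a42, a188], (M a48 (F (T t309 (L l186 (L l351 (T t551 (L l28 (T t579 N))))))))⟩
def e0_63_106__86_42_112 : Ent 4 := ⟨[a0, a63, a106], [a86, a42, a189], (M a48 (F (T t309 (L l217 (L l351 (T t551 (L l28 (T t579 N))))))))⟩
def e0_63_106__86_42_113 : Ent 4 := ⟨[a0, a63, a106], [a86, a42, a190], (M a48 (F (T t309 (L l351 (T t551 (L l28 (T t579 N)))))))⟩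
def e0_63_106__86_42_114 : Ent 4 := ⟨[a0, a63, a106], [a86, a42, a191], (M a48 (F (T t309 (L l190 (L l220 (L l351 (T t551 (L l28 (L l127 (T t6498 (L l28 (T t6499 N))))))))))))⟩
def e0_63_106__86_42_115 : Ent 4 := ⟨[a0, a63, a106], [a86, a42, a192], (M a240 (F (L l339 (T t4781 (L l236 (L l339 (L l459 (L l474 (T t6500 (L l296 (L l339 (L l459 (T t6501 (L l28 (L l339 (L l459 (T t6502 (L l339 (T t6503 (K a133 (M a90 (L l339 (F (T t4788 (L l474 (T t6504 (K a74 (Fr a15 a165 l483 (V t6505)) (K a15 (Fr a74 a122 l130 (V t6506)) N)))))))) (K a85 (M a84 (F (L l95 (T t6885 (L l489 (T t6886 (L l95 (L l334 (L l339 (T t6887 N)))))))))) (K a181 (M a12 (F (T t3358 (L l56 (L l272 (T t2415 (L l272 (T t6512 N)))))))) (K a74 (M a165 (L l339 (F (T t6492 (L l296 (T t6513 (L l54 (L l84 (L l318 (T t6514 (K a133 (Fr a15 a90 l483 (V t6515)) (K a15 (M a133 (F (T t6516 (L l28 (L l236 (L l318 (L l484 (T t6517 N)))))))) N)))))))))))) (K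 a90 (M a84 (L l92 (F (L l489 (T t6944 (L l56 (L l95 (L l272 (L l462 (L l474 (T t6945 (L l95 (L l334 (L l465 (T t6946 (K a82 (M a94 (F (L l489 (T t6944 (L l56 (L l95 (L l272 (L l462 (L l474 (T t6945 (L l95 (L l334 (L l465 (T t6947 N)))))))))))))) (K a94 (M a82 (F (L l95 (T t6948 (L l56 (L l459 (L l489 (T t6949 N)))))))) N))))))))))))))))) (K a122 (M a12 (F (L l429 (T t3358 (L l272 (T t6512 (L l56 (L l272 (T t2415 N))))))))) (K a15 (M a242 (L l339 (F (T t6950 (L l26 (L l348 (T t6951 (K a133 (M a74 (F (T t6522 (L l7 (L l66 (L l309 (L l474 (L l477 (T t4106 N))))))))) (K a74 (M a133 (F (T t6950 (T t6952 (L l87 (L l351 (L l469 (L l484 (T t6524 N))))))))) N))))))))) N))))))))))))))))))))))))))⟩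
def e0_63_106__86_42_116 : Ent 4 := ⟨[a0, a63, a106], [a86, a42, a193], (M a48 (F (T t304 (L l28 (T t579 (L l351 (L l515 (T t551 N))))))))⟩
def e0_63_106__86_42_117 : Ent 4 := ⟨[a0, a63, a106], [a86, a42, a194], (M a48 (F (L l234 (T t304 (L l351 (T t551 (L l28 (L l234 (T t579 N)))))))))⟩
def e0_63_106__86_42_118 : Ent 4 := ⟨[a0, a63, a106], [a86, a42, a195], (M a48 (F (L l228 (T t309 (L l273 (L l351 (T t551 (L l28 (T t579 N)))))))))⟩
def e0_63_106__86_42_119 : Ent 4 := ⟨[a0, a63, a106], [a86, a42, a196], (M a48 (F (T t304 (L l28 (T t579 (L l351 (L l495 (T t551 N))))))))⟩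
def e0_63_106__86_42_120 : Ent 4 := ⟨[a0, a63, a106], [a86, a42, a197], (M a240 (F (L l236 (T t4779 (L l351 (L l491 (T t817 (T t4781 N))))))))⟩
def e0_63_106__86_42_121 : Ent 4 := ⟨[a0, a63, a106], [a86, a42, a198], (M a48 (F (L l234 (T t309 (L l351 (T t551 (L l28 (L l234 (T t579 N)))))))))⟩
def e0_63_106__86_42_122 : Ent 4 := ⟨[a0, a63, a106], [a86, a42, a199], (M a48 (F (T t309 (L l351 (T t551 (L l28 (T t579 N)))))))⟩
def e0_63_106__86_42_123 : Ent 4 := ⟨[a0, a63, a106], [a86, a42, a200], (M a48 (F (L l230 (T t304 (L l351 (T t551 (L l28 (L l230 (T t579 N)))))))))⟩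
def e0_63_106__86_42_124 : Ent 4 := ⟨[a0, a63, a106], [a86, a42, a201], (M a48 (F (L l230 (T t309 (L l351 (T t551 (L l28 (L l230 (T t579 N)))))))))⟩
def e0_63_106__86_42_125 : Ent 4 := ⟨[a0, a63, a106], [a86, a42, a202], (M a240 (F (L l236 (T t4786 (L l351 (T t817 (L l318 (T t4781 N))))))))⟩
def e0_63_106__86_42_126 : Ent 4 := ⟨[a0, a63, a106], [a86, a42, a203], (M a48 (F (L l230 (T t309 (L l351 (T t551 (L l28 (L l230 (T t579 N)))))))))⟩
def e0_63_106__86_42_127 : Ent 4 := ⟨[a0, a63, a106], [a86, a42, a204], (M a48 (F (L l232 (T t309 (L l298 (L l351 (T t551 (L l28 (T t579 N)))))))))⟩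
def e0_63_106__86_42_128 : Ent 4 := ⟨[a0, a63, a106], [a86, a42, a205], (M a48 (F (T t309 (L l351 (T t551 (L l28 (T t579 N)))))))⟩
def e0_63_106__86_42_129 : Ent 4 := ⟨[a0, a63, a106], [a86, a42, a206], (M a48 (F (L l234 (T t309 (L l351 (T t551 (L l28 (L l234 (T t579 N)))))))))⟩
def e0_63_106__86_42_130 : Ent 4 := ⟨[a0, a63, a106], [a86, a42, a207], (M a240 (F (L l236 (T t4779 (L l351 (L l512 (T t817 (T t4781 N))))))))⟩
def e0_63_106__86_42_131 : Ent 4 := ⟨[a0, a63, a106], [a86, a42, a212], (M a240 (L l351 (F (L l292 (T t4786 (T t4781 (L l292 (T t6859 (K a181 (M a23 (F (L l199 (T t817 (L l22 (L l66 (L l92 (L l443 (L l474 (T t6911 (L l22 (L l92 (L l199 (L l242 (T t6953 N))))))))))))))) (K a74 (Fr a149 a192 l519 (Fr a181 a122 l447 (Fr a165 a133 l199 (Fr a15 a90 l483 (V t6515))))) (K a122 (M a23 (F (T t4780 (L l22 (L l66 (L l92 (L l474 (T t6911 (L l22 (L l92 (L l242 (T t6953 N)))))))))))) (K a149 (M a23 (F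 (L l22 (T t6912 (L l199 (T t4781 (L l56 (L l199 (L l292 (L l369 (L l477 (T t6954 N)))))))))))) (K a23 (Fr a149 a192 l519 (V t6867)) N)))))))))))))⟩
def e0_63_106__86_42_132 : Ent 4 := ⟨[a0, a63, a106], [a86, a42, a213], (M a48 (F (T t304 (L l28 (L l246 (T t579 (L l347 (L l351 (T t551 N)))))))))⟩
def e0_63_106__86_42_133 : Ent 4 := ⟨[a0, a63, a106], [a86, a42, a214], (M a48 (L l348 (F (T t309 (L l351 (T t551 (L l28 (T t579 (K a22 (M a150 (L l66 (F (T t309 (L l22 (L l239 (L l294 (T t6858 (K a2 (Fr a62 a194 l516 (V t3517)) (K a62 (M a2 (F (T t304 (L l19 (L l28 (L l369 (T t342 N))))))) N)))))))))) (K a150 (M a22 (F (T t304 (L l28 (T t579 (L l163 (L l351 (T t551 N)))))))) N))))))))))⟩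
def e0_63_106__86_42_134 : Ent 4 := ⟨[a0, a63, a106], [a86, a42, a215], (M a48 (F (T t309 (L l351 (T t551 (L l28 (L l245 (T t579 N))))))))⟩
def e0_63_106__86_42_135 : Ent 4 := ⟨[a0, a63, a106], [a86, a42, a216], (M a48 (F (T t309 (L l298 (L l351 (T t551 (L l28 (T t579 N))))))))⟩
def e0_63_106__86_42_136 : Ent 4 := ⟨[a0, a63, a106], [a86, a42, a217], (M a48 (F (T t309 (L l351 (T t551 (L l28 (T t579 N)))))))⟩
def e0_63_106__86_42_137 : Ent 4 := ⟨[a0, a63, a106], [a86, a42, a218], (M a48 (F (L l282 (T t309 (L l28 (L l351 (T t2289 (L l28 (L l246 (L l282 (T t579 N)))))))))))⟩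
def e0_63_106__86_42_138 : Ent 4 := ⟨[a0, a63, a106], [a86, a42, a219], (M a48 (F (T t309 (L l351 (T t551 (L l28 (L l245 (T t579 N))))))))⟩
def e0_63_106__86_42_139 : Ent 4 := ⟨[a0, a63, a106], [a86, a42, a220], (M a48 (L l369 (F (T t309 (L l351 (T t551 (L l28 (L l241 (T t579 (K a153 (M a19 (F (T t304 (L l28 (L l241 (T t579 (L l167 (L l351 (T t551 N))))))))) (K a19 (M a153 (F (T t309 (L l26 (L l241 (T t6669 N)))))) N)))))))))))⟩
def e0_63_106__86_42_140 : Ent 4 := ⟨[a0, a63, a106], [a86, a42, a221], (M a48 (F (T t309 (L l351 (T t551 (L l28 (L l241 (T t579 N))))))))⟩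
def e0_63_106__86_42_141 : Ent 4 := ⟨[a0, a63, a106], [a86, a42, a222], (M a48 (L l366 (F (T t309 (L l28 (L l241 (T t579 (L l351 (T t551 (K a18 (M a154 (F (T t6900 (L l127 (T t6955 N))))) (K a154 (M a18 (F (L l510 (T t3387 (L l170 (L l227 (L l351 (T t551 (L l66 (L l170 (L l351 (L l474 (T t6956 N))))))))))))) N)))))))))))⟩
def e0_63_106__86_42_142 : Ent 4 := ⟨[a0, a63, a106], [a86, a42, a223], (M a240 (F (T t4786 (L l351 (L l368 (T t817 (L l361 (T t4781 N))))))))⟩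
def e0_63_106__86_42_143 : Ent 4 := ⟨[a0, a63, a106], [a86, a42, a232], (M a48 (F (T t304 (L l28 (T t579 (L l351 (T t551 N)))))))⟩
def e0_63_106__86_42_144 : Ent 4 := ⟨[a0, a63, a106], [a86, a42, a233], (M a48 (F (T t309 (L l351 (T t551 (L l28 (T t579 N)))))))⟩
def e0_63_106__86_42_145 : Ent 4 := ⟨[a0, a63, a106], [a86, a42, a234], (M a48 (F (L l282 (T t304 (L l351 (T t551 (L l28 (L l282 (T t579 N)))))))))⟩
def e0_63_106__86_42_146 : Ent 4 := ⟨[a0, a63, a106], [a86, a42, a235], (M a48 (F (T t309 (L l351 (T t551 (L l28 (T t579 N)))))))⟩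
def e0_63_106__86_42_147 : Ent 4 := ⟨[a0, a63, a106], [a86, a42, a236], (M a48 (F (T t309 (L l351 (T t551 (L l28 (L l400 (T t579 N))))))))⟩
def e0_63_106__86_42_148 : Ent 4 := ⟨[a0, a63, a106], [a86, a42, a237], (M a48 (F (T t309 (L l351 (T t551 (L l28 (T t579 N)))))))⟩
def e0_63_106__86_42_149 : Ent 4 := ⟨[a0, a63, a106], [a86, a42, a238], (M a48 (F (T t309 (L l351 (T t551 (L l28 (T t579 N)))))))⟩
def e0_63_106__86_42_150 : Ent 4 := ⟨[a0, a63, a106], [a86, a42, a239], (M a48 (F (T t309 (L l351 (T t551 (L l28 (L l289 (L l404 (T t579 N)))))))))⟩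
def e0_63_106__86_42_151 : Ent 4 := ⟨[a0, a63, a106], [a86, a42, a252], (M a48 (L l477 (F (L l292 (T t309 (L l28 (T t579 (L l262 (L l351 (T t551 (K a169 (M a3 (F (L l291 (T t304 (L l401 (L l441 (L l473 (T t86 (L l366 (L l405 (L l441 (T t348 N)))))))))))) (K a3 (M a169 (F (L l127 (T t585 (L l262 (L l351 (L l453 (T t551 (L l28 (T t579 N)))))))))) N))))))))))))⟩
def e0_63_106__86_42_152 : Ent 4 := ⟨[a0, a63, a106], [a86, a42, a253], (M a48 (F (T t309 (L l351 (T t551 (L l28 (T t579 N)))))))⟩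
def e0_63_106__86_42_153 : Ent 4 := ⟨[a0, a63, a106], [a86, a42, a254], (M a60 (L l474 (F (L l294 (T t1512 (L l261 (L l351 (L l477 (T t565 (L l22 (L l294 (T t2369 (K a2 (M a170 (L l66 (F (T t3207 (L l261 (L l348 (T t2917 (L l351 (T t1514 (K a22 (Fr a62 a61 l33 (V t6855)) (K a62 (M a22 (L l432 (F (T t3207 (L l22 (T t881 (K a126 (M a190 (F (T t6854 (L l22 (T t881 N))))) (K a190 (M a126 (F (T t3207 (L l22 (T t881 N))))) N)))))))) N))))))))))) (K a170 (M a2 (F (L l294 (T t1512 (L l220 (L l261 (L l351 (L l477 (T t565 (L l145 (L l294 (L l351 (L l392 (T t6957 (L l294 (L l348 (T t6958 N))))))))))))))))) N))))))))))))))⟩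
def e0_63_106__86_42_154 : Ent 4 := ⟨[a0, a63, a106], [a86, a42, a255], (M a48 (F (L l296 (T t309 (L l266 (L l351 (T t551 (L l28 (L l87 (L l127 (L l469 (T t6526 (L l28 (L l289 (T t6527 N)))))))))))))))⟩
def b0_63_106__86_42 : Blk 4 := ⟨[0, 63, 106], [86, 42], [1, 2, 3, 4, 5, 6, 7, 8, 9, 10, 11, 12, 13, 14, 15, 20, 21, 22, 23, 24, 25, 26, 27, 28, 29, 30, 31, 40, 41, 43, 44, 45, 46, 47, 60, 61, 62, 64, 65, 66, 67, 68, 69, 70, 71, 72, 73, 74, 75, 76, 77, 78, 79, 84, 85, 87, 88, 89, 90, 91, 92, 93, 94, 95, 104, 105, 107, 108, 109, 110, 111, 124, 125, 126, 127, 128, 129, 130, 131, 132, 133, 134, 135, 136, 137, 138, 139, 140, 141, 142, 143, 148, 149, 150, 151, 152, 153, 154, 155, 156, 157, 158, 159, 168, 169, 170, 171, 172, 173, 174, 175, 188, 189, 190, 191, 192, 193, 194, 195, 196, 197, 198, 199, 200, 201, 202, 203, 204, 205, 206, 207, 212, 213, 214, 215, 216, 217, 218, 219, 220, 221, 222, 223, 232, 233, 234,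 235, 236, 237, 238, 239, 252, 253, 254, 255], [e0_63_106__86_42_0, e0_63_106__86_42_1, e0_63_106__86_42_2, e0_63_106__86_42_3, e0_63_106__86_42_4, e0_63_106__86_42_5, e0_63_106__86_42_6, e0_63_106__86_42_7, e0_63_106__86_42_8, e0_63_106__86_42_9, e0_63_106__86_42_10, e0_63_106__86_42_11, e0_63_106__86_42_12, e0_63_106__86_42_13, e0_63_106__86_42_14, e0_63_106__86_42_15, e0_63_106__86_42_16, e0_63_106__86_42_17, e0_63_106__86_42_18, e0_63_106__86_42_19, e0_63_106__86_42_20, e0_63_106__86_42_21, e0_63_106__86_42_22, e0_63_106__86_42_23, e0_63_106__86_42_24, e0_63_106__86_42_25, e0_63_106__86_42_26, e0_63_106__86_42_27, e0_63_106__86_42_28, e0_63_106__86_42_29, e0_63_106__86_42_30, e0_63_106__86_42_31, e0_63_106__86_42_32, e0_63_106__86_42_33, e0_63_106__86_42_34, e0_63_106__86_42_35, e0_63_106__86_42_36, e0_63_106__86_42_37, e0_63_106__86_42_38, e0_63_106__86_42_39, e0_63_106__86_42_40, e0_63_106__86_42_41,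 e0_63_106__86_42_42, e0_63_106__86_42_43, e0_63_106__86_42_44, e0_63_106__86_42_45, e0_63_106__86_42_46, e0_63_106__86_42_47, e0_63_106__86_42_48, e0_63_106__86_42_49, e0_63_106__86_42_50, e0_63_106__86_42_51, e0_63_106__86_42_52, e0_63_106__86_42_53, e0_63_106__86_42_54, e0_63_106__86_42_55, e0_63_106__86_42_56, e0_63_106__86_42_57, e0_63_106__86_42_58, e0_63_106__86_42_59, e0_63_106__86_42_60, e0_63_106__86_42_61, e0_63_106__86_42_62, e0_63_106__86_42_63, e0_63_106__86_42_64, e0_63_106__86_42_65, e0_63_106__86_42_66, e0_63_106__86_42_67, e0_63_106__86_42_68, e0_63_106__86_42_69, e0_63_106__86_42_70, e0_63_106__86_42_71, e0_63_106__86_42_72, e0_63_106__86_42_73, e0_63_106__86_42_74, e0_63_106__86_42_75, e0_63_106__86_42_76, e0_63_106__86_42_77, e0_63_106__86_42_78, e0_63_106__86_42_79, e0_63_106__86_42_80, e0_63_106__86_42_81, e0_63_106__86_42_82, e0_63_106__86_42_83, e0_63_106__86_42_84, e0_63_106__86_42_85,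 e0_63_106__86_42_86, e0_63_106__86_42_87, e0_63_106__86_42_88, e0_63_106__86_42_89, e0_63_106__86_42_90, e0_63_106__86_42_91, e0_63_106__86_42_92, e0_63_106__86_42_93, e0_63_106__86_42_94, e0_63_106__86_42_95, e0_63_106__86_42_96, e0_63_106__86_42_97, e0_63_106__86_42_98, e0_63_106__86_42_99, e0_63_106__86_42_100, e0_63_106__86_42_101, e0_63_106__86_42_102, e0_63_106__86_42_103, e0_63_106__86_42_104, e0_63_106__86_42_105, e0_63_106__86_42_106, e0_63_106__86_42_107, e0_63_106__86_42_108, e0_63_106__86_42_109, e0_63_106__86_42_110, e0_63_106__86_42_111, e0_63_106__86_42_112, e0_63_106__86_42_113, e0_63_106__86_42_114, e0_63_106__86_42_115, e0_63_106__86_42_116, e0_63_106__86_42_117, e0_63_106__86_42_118, e0_63_106__86_42_119, e0_63_106__86_42_120, e0_63_106__86_42_121, e0_63_106__86_42_122, e0_63_106__86_42_123, e0_63_106__86_42_124, e0_63_106__86_42_125, e0_63_106__86_42_126, e0_63_106__86_42_127, e0_63_106__86_42_128,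 e0_63_106__86_42_129, e0_63_106__86_42_130, e0_63_106__86_42_131, e0_63_106__86_42_132, e0_63_106__86_42_133, e0_63_106__86_42_134, e0_63_106__86_42_135, e0_63_106__86_42_136, e0_63_106__86_42_137, e0_63_106__86_42_138, e0_63_106__86_42_139, e0_63_106__86_42_140, e0_63_106__86_42_141, e0_63_106__86_42_142, e0_63_106__86_42_143, e0_63_106__86_42_144, e0_63_106__86_42_145, e0_63_106__86_42_146, e0_63_106__86_42_147, e0_63_106__86_42_148, e0_63_106__86_42_149, e0_63_106__86_42_150, e0_63_106__86_42_151, e0_63_106__86_42_152, e0_63_106__86_42_153, e0_63_106__86_42_154], by decide +kernel, by decide +kernel⟩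
def e0_63_106__87_42_0 : Ent 4 := ⟨[a0, a63, a106], [a87, a42, a1], (M a48 (F (T t309 (T t551 (L l28 (L l367 (T t579 N)))))))⟩
def e0_63_106__87_42_1 : Ent 4 := ⟨[a0, a63, a106], [a87, a42, a2], (M a48 (L l66 (F (T t309 (T t551 (L l28 (L l367 (T t579 (K a22 (M a62 (F (T t585 (L l22 (L l306 (L l349 (T t5926 N))))))) (K a62 (M a22 (F (T t578 (L l28 (L l367 (T t579 (T t551 N))))))) N))))))))))⟩
def e0_63_106__87_42_2 : Ent 4 := ⟨[a0, a63, a106], [a87, a42, a3], (M a48 (L l475 (F (T t585 (L l453 (T t551 (L l28 (L l367 (T t579 (K a171 (M a255 (F (L l219 (T t6960 (L l331 (T t304 N)))))) (K a255 (M a171 (F (T t585 (L l266 (L l453 (T t551 (L l28 (L l87 (L l93 (L l469 (T t6526 (L l28 (L l143 (L l289 (L l367 (T t6527 N)))))))))))))))) N)))))))))))⟩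
def e0_63_106__87_42_3 : Ent 4 := ⟨[a0, a63, a106], [a87, a42, a4], (M a48 (F (T t309 (T t551 (L l28 (L l367 (T t579 N)))))))⟩
def e0_63_106__87_42_4 : Ent 4 := ⟨[a0, a63, a106], [a87, a42, a5], (M a48 (F (T t578 (L l28 (L l47 (L l367 (T t579 (T t551 N))))))))⟩
def e0_63_106__87_42_5 : Ent 4 := ⟨[a0, a63, a106], [a87, a42, a6], (M a48 (F (T t309 (T t551 (L l28 (L l367 (T t579 N)))))))⟩
def e0_63_106__87_42_6 : Ent 4 := ⟨[a0, a63, a106], [a87, a42, a7], (M a48 (L l457 (F (T t309 (T t551 (L l28 (L l367 (T t579 (K a167 (M a247 (F (T t578 (L l28 (L l367 (T t579 (T t551 N))))))) (K a247 (M a167 (F (T t578 (L l28 (L l367 (T t579 (T t551 N))))))) N))))))))))⟩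
def e0_63_106__87_42_7 : Ent 4 := ⟨[a0, a63, a106], [a87, a42, a8], (M a48 (L l56 (F (T t309 (T t551 (L l28 (L l367 (T t579 (K a25 (M a59 (F (T t307 (L l26 (L l316 (T t6445 N)))))) (K a59 (M a25 (F (T t578 (L l28 (L l367 (T t579 (T t551 N))))))) N))))))))))⟩
def e0_63_106__87_42_8 : Ent 4 := ⟨[a0, a63, a106], [a87, a42, a9], (M a48 (F (T t309 (T t551 (L l28 (L l367 (T t579 N)))))))⟩
def e0_63_106__87_42_9 : Ent 4 := ⟨[a0, a63, a106], [a87, a42, a10], (M a48 (L l54 (F (T t578 (L l28 (L l318 (L l367 (T t579 (T t551 (K a26 (Fr a58 a53 l38 (V t6446)) (K a58 (M a26 (F (L l28 (T t4144 (T t551 (L l28 (L l426 (T t6447 (K a32 (Fr a192 a149 l519 (Fr a15 a37 l75 (Fr a47 a31 l61 (V t6528)))) N))))))))) N)))))))))))⟩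
def e0_63_106__87_42_10 : Ent 4 := ⟨[a0, a63, a106], [a87, a42, a11], (M a48 (F (T t309 (T t551 (L l28 (L l367 (T t579 N)))))))⟩
def e0_63_106__87_42_11 : Ent 4 := ⟨[a0, a63, a106], [a87, a42, a12], (M a48 (F (T t585 (L l478 (T t551 (L l28 (L l367 (T t579 N))))))))⟩
def e0_63_106__87_42_12 : Ent 4 := ⟨[a0, a63, a106], [a87, a42, a13], (M a48 (F (T t309 (T t551 (L l28 (L l367 (T t579 N)))))))⟩
def e0_63_106__87_42_13 : Ent 4 := ⟨[a0, a63, a106], [a87, a42, a14], (M a48 (F (T t309 (T t551 (L l28 (L l367 (T t579 N)))))))⟩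
def e0_63_106__87_42_14 : Ent 4 := ⟨[a0, a63, a106], [a87, a42, a15], (M a48 (F (T t585 (L l483 (T t551 (L l28 (L l367 (T t579 N))))))))⟩
def e0_63_106__87_42_15 : Ent 4 := ⟨[a0, a63, a106], [a87, a42, a20], (M a48 (F (T t309 (T t551 (L l28 (L l367 (T t579 N)))))))⟩
def e0_63_106__87_42_16 : Ent 4 := ⟨[a0, a63, a106], [a87, a42, a21], (M a48 (F (L l47 (T t309 (L l347 (T t551 (L l28 (L l47 (L l367 (T t579 N))))))))))⟩
def e0_63_106__87_42_17 : Ent 4 := ⟨[a0, a63, a106], [a87, a42, a22], (M a48 (L l66 (F (T t309 (T t551 (L l28 (L l367 (T t579 (K a2 (M a62 (F (T t585 (L l22 (L l306 (L l349 (T t5926 N))))))) (K a62 (M a2 (F (T t307 (L l19 (L l28 (L l367 (T t342 N))))))) N))))))))))⟩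
def e0_63_106__87_42_18 : Ent 4 := ⟨[a0, a63, a106], [a87, a42, a23], (M a48 (L l349 (F (T t309 (L l351 (T t551 (L l28 (L l367 (T t579 (K a151 (M a215 (F (T t3405 (L l163 (L l351 (T t551 (L l28 (L l367 (T t579 N))))))))) (K a215 (M a151 (F (T t3405 (L l143 (T t3628 N))))) N)))))))))))⟩
def e0_63_106__87_42_19 : Ent 4 := ⟨[a0, a63, a106], [a87, a42, a24], (M a48 (F (T t309 (T t551 (L l28 (L l367 (T t579 N)))))))⟩
def e0_63_106__87_42_20 : Ent 4 := ⟨[a0, a63, a106], [a87, a42, a25], (M a48 (L l56 (F (T t309 (T t551 (L l28 (L l367 (T t579 (K a8 (M a59 (F (T t307 (L l26 (L l316 (T t6445 N)))))) (K a59 (M a8 (F (T t307 (L l19 (L l28 (T t4700 N)))))) N))))))))))⟩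
def e0_63_106__87_42_21 : Ent 4 := ⟨[a0, a63, a106], [a87, a42, a26], (M a48 (L l54 (F (T t309 (L l28 (L l367 (T t579 (T t551 (K a10 (Fr a58 a53 l38 (V t6446)) (K a58 (M a10 (F (T t4033 (T t551 (L l18 (L l354 (T t6449 (L l18 (L l87 (L l426 (T t6450 N))))))))))) N))))))))))⟩
def e0_63_106__87_42_22 : Ent 4 := ⟨[a0, a63, a106], [a87, a42, a27], (M a48 (F (T t309 (T t551 (L l28 (L l367 (T t579 N)))))))⟩
def e0_63_106__87_42_23 : Ent 4 := ⟨[a0, a63, a106], [a87, a42, a28], (M a48 (F (T t309 (T t551 (L l28 (L l362 (L l367 (T t579 N))))))))⟩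
def e0_63_106__87_42_24 : Ent 4 := ⟨[a0, a63, a106], [a87, a42, a29], (M a48 (F (T t309 (L l371 (T t551 (L l28 (L l367 (T t579 N))))))))⟩
def e0_63_106__87_42_25 : Ent 4 := ⟨[a0, a63, a106], [a87, a42, a30], (M a48 (F (T t309 (T t551 (L l28 (L l367 (T t579 N)))))))⟩
def e0_63_106__87_42_26 : Ent 4 := ⟨[a0, a63, a106], [a87, a42, a31], (M a48 (F (T t309 (L l375 (T t551 (L l28 (L l361 (L l367 (T t579 N)))))))))⟩
def e0_63_106__87_42_27 : Ent 4 := ⟨[a0, a63, a106], [a87, a42, a40], (M a48 (L l22 (F (T t309 (T t551 (L l24 (L l28 (L l367 (T t579 (K a41 (M a43 (F (T t578 (L l66 (L l349 (L l388 (T t6451 N))))))) (K a43 (M a41 (F (T t578 (L l24 (L l28 (L l367 (T t579 (T t551 N)))))))) N)))))))))))⟩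
def e0_63_106__87_42_28 : Ent 4 := ⟨[a0, a63, a106], [a87, a42, a41], (M a48 (L l22 (F (T t309 (T t551 (L l28 (L l367 (T t579 (K a40 (M a43 (F (T t578 (L l66 (L l349 (L l388 (T t6451 N))))))) (K a43 (M a40 (F (T t309 (L l29 (L l69 (T t6452 N)))))) N))))))))))⟩
def e0_63_106__87_42_29 : Ent 4 := ⟨[a0, a63, a106], [a87, a42, a43], (M a48 (L l22 (F (T t309 (T t551 (L l28 (L l367 (T t579 (K a40 (M a41 (F (T t578 (L l24 (L l28 (L l367 (T t579 (T t551 N)))))))) (K a41 (M a40 (F (T t309 (L l29 (L l69 (T t6452 N)))))) N))))))))))⟩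
def e0_63_106__87_42_30 : Ent 4 := ⟨[a0, a63, a106], [a87, a42, a44], (M a48 (F (T t309 (T t551 (L l24 (L l28 (L l367 (T t579 N))))))))⟩
def e0_63_106__87_42_31 : Ent 4 := ⟨[a0, a63, a106], [a87, a42, a45], (M a48 (F (T t309 (T t551 (L l28 (L l367 (T t579 N)))))))⟩
def e0_63_106__87_42_32 : Ent 4 := ⟨[a0, a63, a106], [a87, a42, a46], (M a48 (L l26 (F (T t309 (T t551 (L l28 (L l367 (T t579 (K a34 (M a38 (F (T t578 (L l20 (L l28 (L l367 (T t579 (T t551 N)))))))) (K a38 (M a34 (F (T t309 (L l29 (L l66 (L l475 (T t6453 N))))))) N))))))))))⟩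
def e0_63_106__87_42_33 : Ent 4 := ⟨[a0, a63, a106], [a87, a42, a47], (M a12 (L l28 (F (T t2304 (T t2305 (L l56 (L l457 (T t2415 (K a32 (M a37 (F (T t2416 (L l56 (L l457 (T t2415 (T t2305 N))))))) (K a37 (M a32 (F (T t2304 (L l51 (L l56 (T t682 N)))))) N))))))))))⟩
def e0_63_106__87_42_34 : Ent 4 := ⟨[a0, a63, a106], [a87, a42, a60], (M a48 (F (T t585 (L l442 (T t551 (L l28 (L l367 (T t579 N))))))))⟩
def e0_63_106__87_42_35 : Ent 4 := ⟨[a0, a63, a106], [a87, a42, a61], (M a48 (F (L l35 (T t309 (L l515 (T t551 (L l28 (L l35 (L l367 (T t579 N))))))))))⟩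
def e0_63_106__87_42_36 : Ent 4 := ⟨[a0, a63, a106], [a87, a42, a62], (M a48 (L l66 (F (T t309 (T t551 (L l28 (L l367 (T t579 (K a2 (M a22 (F (T t578 (L l28 (L l367 (T t579 (T t551 N))))))) (K a22 (M a2 (F (T t307 (L l19 (L l28 (L l367 (T t342 N))))))) N))))))))))⟩
def e0_63_106__87_42_37 : Ent 4 := ⟨[a0, a63, a106], [a87, a42, a64], (M a48 (F (T t585 (L l28 (L l367 (L l475 (T t6454 (L l28 (L l367 (T t6455 (L l28 (L l367 (T t6456 (L l28 (L l84 (L l367 (L l475 (T t6457 (L l54 (T t6458 (K a207 (Fr a192 a149 l519 (Fr a96 a144 l484 (Fr a101 a111 l104 (Fr a32 a16 l40 (V t6459))))) N)))))))))))))))))))))⟩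
def e0_63_106__87_42_38 : Ent 4 := ⟨[a0, a63, a106], [a87, a42, a65], (M a48 (F (T t309 (L l76 (T t551 (L l28 (L l76 (L l367 (T t579 N)))))))))⟩
def e0_63_106__87_42_39 : Ent 4 := ⟨[a0, a63, a106], [a87, a42, a66], (M a48 (F (T t585 (L l76 (T t551 (L l28 (L l76 (L l367 (T t579 N)))))))))⟩
def e0_63_106__87_42_40 : Ent 4 := ⟨[a0, a63, a106], [a87, a42, a67], (M a48 (L l143 (F (T t309 (L l76 (T t551 (L l28 (L l76 (L l367 (T t579 (K a107 (M a127 (F (T t6592 (T t307 N)))) (K a127 (M a107 (F (T t309 (L l349 (T t1164 N))))) N))))))))))))⟩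
def e0_63_106__87_42_41 : Ent 4 := ⟨[a0, a63, a106], [a87, a42, a68], (M a48 (F (T t309 (L l80 (T t551 (L l28 (L l80 (L l367 (T t579 N)))))))))⟩
def e0_63_106__87_42_42 : Ent 4 := ⟨[a0, a63, a106], [a87, a42, a69], (M a48 (F (T t309 (L l84 (T t551 (L l28 (L l84 (L l367 (T t579 N)))))))))⟩
def e0_63_106__87_42_43 : Ent 4 := ⟨[a0, a63, a106], [a87, a42, a70], (M a48 (F (T t309 (T t551 (L l28 (L l367 (T t579 N)))))))⟩
def e0_63_106__87_42_44 : Ent 4 := ⟨[a0, a63, a106], [a87, a42, a71], (M a48 (L l125 (F (T t309 (T t551 (L l28 (L l367 (T t579 (K a103 (M a119 (F (T t309 (T t551 (L l28 (L l367 (T t579 N))))))) (K a119 (M a103 (F (T t309 (T t551 (L l28 (L l367 (T t579 N))))))) N))))))))))⟩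
def e0_63_106__87_42_45 : Ent 4 := ⟨[a0, a63, a106], [a87, a42, a72], (M a48 (F (T t585 (L l80 (T t551 (L l28 (L l80 (L l367 (T t579 N)))))))))⟩
def e0_63_106__87_42_46 : Ent 4 := ⟨[a0, a63, a106], [a87, a42, a73], (M a48 (F (T t309 (T t551 (L l28 (L l367 (T t579 N)))))))⟩
def e0_63_106__87_42_47 : Ent 4 := ⟨[a0, a63, a106], [a87, a42, a74], (M a48 (F (T t578 (L l28 (L l84 (L l318 (L l367 (T t579 (L l84 (T t551 N))))))))))⟩
def e0_63_106__87_42_48 : Ent 4 := ⟨[a0, a63, a106], [a87, a42, a75], (M a48 (F (T t309 (T t551 (L l28 (L l367 (T t579 N)))))))⟩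
def e0_63_106__87_42_49 : Ent 4 := ⟨[a0, a63, a106], [a87, a42, a76], (M a48 (F (T t309 (L l80 (T t551 (L l28 (L l80 (L l367 (T t579 N)))))))))⟩
def e0_63_106__87_42_50 : Ent 4 := ⟨[a0, a63, a106], [a87, a42, a77], (M a48 (F (T t309 (T t551 (L l28 (L l367 (T t579 N)))))))⟩
def e0_63_106__87_42_51 : Ent 4 := ⟨[a0, a63, a106], [a87, a42, a78], (M a48 (F (T t309 (T t551 (L l28 (L l367 (T t579 N)))))))⟩
def e0_63_106__87_42_52 : Ent 4 := ⟨[a0, a63, a106], [a87, a42, a79], (M a48 (F (T t309 (L l84 (T t551 (L l28 (L l84 (L l367 (T t579 N)))))))))⟩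
def e0_63_106__87_42_53 : Ent 4 := ⟨[a0, a63, a106], [a87, a42, a84], (M a48 (L l87 (F (T t309 (L l140 (T t551 (L l28 (L l140 (L l367 (T t579 (K a85 (M a86 (F (T t6961 (L l140 (L l347 (T t551 N)))))) (K a86 (M a85 (F (L l143 (T t5958 (L l28 (L l127 (L l367 (L l475 (T t360 N))))))))) N))))))))))))⟩
def e0_63_106__87_42_54 : Ent 4 := ⟨[a0, a63, a106], [a87, a42, a85], (M a48 (L l87 (F (T t309 (L l347 (T t551 (L l54 (T t777 (L l368 (T t6465 (K a192 (M a240 (L l87 (F (T t6230 (L l236 (T t6471 (L l54 (L l236 (L l339 (T t6472 (L l339 (T t6473 (K a84 (M a86 (F (T t6230 (L l309 (L l457 (T t6962 N)))))) (K a86 (M a84 (F (T t6230 (L l28 (L l232 (L l369 (T t3182 N))))))) N)))))))))))))) (K a84 (M a86 (F (T t6961 (L l140 (L l347 (T t551 N)))))) (K a86 (M a84 (F (T t304 (L l28 (L l126 (L l369 (T t3650 N))))))) N)))))))))))))⟩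
def e0_63_106__87_42_55 : Ent 4 := ⟨[a0, a63, a106], [a87, a42, a86], (M a48 (L l87 (F (T t309 (L l351 (T t551 (L l28 (L l367 (T t579 (K a84 (M a85 (F (L l143 (T t5958 (L l28 (L l127 (L l367 (L l475 (T t360 N))))))))) (K a85 (M a84 (F (T t304 (L l28 (L l126 (L l369 (T t3650 N))))))) N)))))))))))⟩
def e0_63_106__87_42_56 : Ent 4 := ⟨[a0, a63, a106], [a87, a42, a88], (M a48 (F (T t309 (L l478 (T t551 (L l28 (L l367 (T t579 N))))))))⟩
def e0_63_106__87_42_57 : Ent 4 := ⟨[a0, a63, a106], [a87, a42, a89], (M a48 (F (T t309 (L l371 (T t551 (L l28 (L l367 (T t579 N))))))))⟩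
def e0_63_106__87_42_58 : Ent 4 := ⟨[a0, a63, a106], [a87, a42, a90], (M a48 (F (T t309 (L l375 (L l483 (T t551 (L l28 (L l367 (T t579 N)))))))))⟩
def e0_63_106__87_42_59 : Ent 4 := ⟨[a0, a63, a106], [a87, a42, a91], (M a48 (L l93 (F (T t309 (T t551 (L l28 (L l367 (T t579 (K a83 (M a95 (F (T t578 (L l28 (L l367 (T t579 (T t551 N))))))) (K a95 (M a83 (F (T t3405 (T t551 (L l28 (L l361 (L l367 (T t579 N)))))))) N))))))))))⟩
def e0_63_106__87_42_60 : Ent 4 := ⟨[a0, a63, a106], [a87, a42, a92], (M a48 (F (T t309 (T t551 (L l28 (L l367 (T t579 N)))))))⟩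
def e0_63_106__87_42_61 : Ent 4 := ⟨[a0, a63, a106], [a87, a42, a93], (M a48 (F (T t309 (T t551 (L l28 (L l362 (L l367 (T t579 N))))))))⟩
def e0_63_106__87_42_62 : Ent 4 := ⟨[a0, a63, a106], [a87, a42, a94], (M a48 (F (T t309 (T t551 (L l28 (L l367 (T t579 N)))))))⟩
def e0_63_106__87_42_63 : Ent 4 := ⟨[a0, a63, a106], [a87, a42, a95], (M a48 (L l93 (F (T t309 (T t551 (L l28 (L l361 (L l367 (T t579 (K a83 (M a91 (F (T t3405 (T t551 (L l28 (L l361 (L l367 (T t579 N)))))))) (K a91 (M a83 (F (T t3405 (T t551 (L l28 (L l361 (L l367 (T t579 N)))))))) N)))))))))))⟩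
def e0_63_106__87_42_64 : Ent 4 := ⟨[a0, a63, a106], [a87, a42, a104], (M a48 (F (T t304 (L l28 (L l140 (L l367 (T t579 (L l100 (L l140 (T t551 N))))))))))⟩
def e0_63_106__87_42_65 : Ent 4 := ⟨[a0, a63, a106], [a87, a42, a105], (M a48 (F (T t309 (L l515 (T t551 (L l28 (L l367 (T t579 N))))))))⟩
def e0_63_106__87_42_66 : Ent 4 := ⟨[a0, a63, a106], [a87, a42, a107], (M a48 (L l143 (F (T t309 (T t551 (L l28 (L l367 (T t579 (K a67 (M a127 (F (T t6592 (T t307 N)))) (K a127 (M a67 (F (T t307 (T t551 (L l28 (L l367 (L l475 (T t6454 (L l28 (L l367 (T t6479 N))))))))))) N))))))))))⟩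
def e0_63_106__87_42_67 : Ent 4 := ⟨[a0, a63, a106], [a87, a42, a108], (M a48 (F (T t309 (L l100 (T t551 (L l28 (L l367 (T t579 N))))))))⟩
def e0_63_106__87_42_68 : Ent 4 := ⟨[a0, a63, a106], [a87, a42, a109], (M a48 (F (T t309 (T t551 (L l28 (L l367 (T t579 N)))))))⟩
def e0_63_106__87_42_69 : Ent 4 := ⟨[a0, a63, a106], [a87, a42, a110], (M a48 (F (T t309 (T t551 (L l28 (L l367 (T t579 N)))))))⟩
def e0_63_106__87_42_70 : Ent 4 := ⟨[a0, a63, a106], [a87, a42, a111], (M a240 (F (T t4779 (T t817 (L l93 (L l137 (T t4781 N)))))))⟩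
def e0_63_106__87_42_71 : Ent 4 := ⟨[a0, a63, a106], [a87, a42, a124], (M a48 (F (T t309 (L l140 (T t551 (L l28 (L l140 (L l367 (T t579 N)))))))))⟩
def e0_63_106__87_42_72 : Ent 4 := ⟨[a0, a63, a106], [a87, a42, a125], (M a48 (F (T t309 (T t551 (L l28 (L l367 (T t579 N)))))))⟩
def e0_63_106__87_42_73 : Ent 4 := ⟨[a0, a63, a106], [a87, a42, a126], (M a48 (F (T t309 (T t551 (L l28 (L l367 (T t579 N)))))))⟩
def e0_63_106__87_42_74 : Ent 4 := ⟨[a0, a63, a106], [a87, a42, a127], (M a48 (L l143 (F (T t309 (T t551 (L l28 (L l367 (L l475 (T t6454 (L l28 (L l367 (T t6479 (K a67 (M a107 (F (T t309 (L l349 (T t1164 N))))) (K a107 (M a67 (F (T t307 (T t551 (L l28 (L l367 (L l475 (T t6454 (L l28 (L l367 (T t6479 N))))))))))) N))))))))))))))⟩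
def e0_63_106__87_42_75 : Ent 4 := ⟨[a0, a63, a106], [a87, a42, a128], (M a48 (F (T t585 (L l28 (L l367 (T t579 (L l87 (L l192 (L l220 (T t6480 (L l54 (L l160 (L l475 (T t6481 N))))))))))))))⟩
def e0_63_106__87_42_76 : Ent 4 := ⟨[a0, a63, a106], [a87, a42, a129], (M a48 (F (T t304 (L l28 (L l367 (T t579 (L l217 (T t551 N))))))))⟩
def e0_63_106__87_42_77 : Ent 4 := ⟨[a0, a63, a106], [a87, a42, a130], (M a48 (F (T t309 (T t551 (L l28 (L l367 (T t579 N)))))))⟩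
def e0_63_106__87_42_78 : Ent 4 := ⟨[a0, a63, a106], [a87, a42, a131], (M a48 (F (T t309 (L l197 (T t551 (L l28 (L l367 (T t579 N))))))))⟩
def e0_63_106__87_42_79 : Ent 4 := ⟨[a0, a63, a106], [a87, a42, a132], (M a48 (F (T t304 (L l28 (L l367 (T t579 (L l202 (T t551 N))))))))⟩
def e0_63_106__87_42_80 : Ent 4 := ⟨[a0, a63, a106], [a87, a42, a133], (M a48 (F (T t304 (L l28 (L l367 (T t579 (L l199 (T t551 N))))))))⟩
def e0_63_106__87_42_81 : Ent 4 := ⟨[a0, a63, a106], [a87, a42, a134], (M a48 (F (T t309 (T t551 (L l28 (L l367 (T t579 N)))))))⟩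
def e0_63_106__87_42_82 : Ent 4 := ⟨[a0, a63, a106], [a87, a42, a135], (M a48 (F (T t309 (T t551 (L l28 (L l367 (T t579 N)))))))⟩
def e0_63_106__87_42_83 : Ent 4 := ⟨[a0, a63, a106], [a87, a42, a136], (M a48 (F (T t309 (T t551 (L l28 (L l367 (T t579 N)))))))⟩
def e0_63_106__87_42_84 : Ent 4 := ⟨[a0, a63, a106], [a87, a42, a137], (M a48 (F (T t309 (T t551 (L l28 (L l367 (T t579 N)))))))⟩
def e0_63_106__87_42_85 : Ent 4 := ⟨[a0, a63, a106], [a87, a42, a138], (M a48 (F (T t578 (L l28 (L l318 (L l367 (T t579 (T t551 N))))))))⟩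
def e0_63_106__87_42_86 : Ent 4 := ⟨[a0, a63, a106], [a87, a42, a139], (M a48 (F (T t309 (T t551 (L l28 (L l367 (T t579 N)))))))⟩
def e0_63_106__87_42_87 : Ent 4 := ⟨[a0, a63, a106], [a87, a42, a140], (M a48 (F (T t309 (L l222 (T t551 (L l28 (L l367 (T t579 N))))))))⟩
def e0_63_106__87_42_88 : Ent 4 := ⟨[a0, a63, a106], [a87, a42, a141], (M a48 (F (T t309 (T t551 (L l28 (L l367 (T t579 N)))))))⟩
def e0_63_106__87_42_89 : Ent 4 := ⟨[a0, a63, a106], [a87, a42, a142], (M a48 (F (T t309 (T t551 (L l28 (L l367 (T t579 N)))))))⟩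
def e0_63_106__87_42_90 : Ent 4 := ⟨[a0, a63, a106], [a87, a42, a143], (M a48 (F (T t309 (L l28 (T t6462 (L l28 (L l367 (T t579 N))))))))⟩
def e0_63_106__87_42_91 : Ent 4 := ⟨[a0, a63, a106], [a87, a42, a148], (M a48 (F (T t304 (L l28 (L l367 (T t579 (L l163 (T t551 N))))))))⟩
def e0_63_106__87_42_92 : Ent 4 := ⟨[a0, a63, a106], [a87, a42, a149], (M a243 (F (L l202 (T t6531 (L l87 (L l202 (L l347 (T t6561 (L l26 (L l202 (L l371 (T t6560 (L l26 (L l143 (L l202 (L l220 (L l371 (T t6562 (K a132 (M a166 (F (T t6563 (L l26 (L l143 (L l156 (L l220 (L l310 (L l371 (T t6564 (L l143 (L l156 (L l220 (L l475 (T t6565 N))))))))))))))) (K a72 (M a170 (F (T t6566 (L l87 (L l347 (L l495 (T t6567 N))))))) (K a89 (M a240 (L l371 (F (T t6568 (L l91 (L l475 (T t6569 (L l93 (L l199 (T t4781 (K a209 (M a29 (F (T t6568 (L l26 (L l95 (T t6570 N)))))) (K a29 (M a209 (F (T t6568 (L l15 (T t6571 N))))) N)))))))))))) (K a166 (M a89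 (L l202 (F (T t6536 (L l178 (T t6572 (K a132 (Fr a183 a123 l445 (V t6572)) (K a183 (M a132 (F (L l178 (T t6572 (L l56 (L l495 (T t6723 (L l220 (L l458 (T t6724 N)))))))))) N)))))))) (K a183 (M a166 (F (T t6540 (L l421 (L l457 (L l475 (T t6963 (L l26 (L l143 (L l220 (L l371 (T t6564 (L l143 (L l220 (L l475 (T t6565 N)))))))))))))))) (K a123 (M a48 (F (T t6964 (L l491 (T t6577 (L l28 (L l367 (L l491 (T t579 N))))))))) N))))))))))))))))))))))))⟩
def e0_63_106__87_42_93 : Ent 4 := ⟨[a0, a63, a106], [a87, a42, a150], (M a48 (F (T t309 (L l163 (T t551 (L l28 (L l367 (T t579 N))))))))⟩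
def e0_63_106__87_42_94 : Ent 4 := ⟨[a0, a63, a106], [a87, a42, a151], (M a48 (L l349 (F (T t309 (L l163 (T t551 (L l28 (L l367 (T t579 (K a23 (M a215 (F (T t3405 (L l163 (L l351 (T t551 (L l28 (L l367 (T t579 N))))))))) (K a215 (M a23 (F (T t3405 (L l22 (T t3181 N))))) N)))))))))))⟩
def e0_63_106__87_42_95 : Ent 4 := ⟨[a0, a63, a106], [a87, a42, a152], (M a48 (F (T t304 (L l28 (L l367 (T t579 (L l222 (T t551 N))))))))⟩
def e0_63_106__87_42_96 : Ent 4 := ⟨[a0, a63, a106], [a87, a42, a153], (M a48 (F (T t309 (L l167 (T t551 (L l28 (L l367 (T t579 N))))))))⟩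
def e0_63_106__87_42_97 : Ent 4 := ⟨[a0, a63, a106], [a87, a42, a154], (M a240 (F (T t4779 (L l170 (L l368 (L l512 (T t817 (L l93 (T t4781 N)))))))))⟩
def e0_63_106__87_42_98 : Ent 4 := ⟨[a0, a63, a106], [a87, a42, a155], (M a240 (L l367 (F (T t4779 (T t817 (L l93 (T t4781 (K a19 (M a223 (F (T t6965 (L l10 (T t817 (L l93 (T t4781 N))))))) (K a223 (M a19 (F (T t6965 (L l368 (T t817 (L l93 (L l361 (T t4781 N)))))))) N)))))))))⟩
def e0_63_106__87_42_99 : Ent 4 := ⟨[a0, a63, a106], [a87, a42, a156], (M a48 (F (T t304 (L l28 (L l367 (T t579 (T t551 N)))))))⟩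
def e0_63_106__87_42_100 : Ent 4 := ⟨[a0, a63, a106], [a87, a42, a157], (M a48 (F (T t309 (L l167 (T t551 (L l28 (L l367 (T t579 N))))))))⟩
def e0_63_106__87_42_101 : Ent 4 := ⟨[a0, a63, a106], [a87, a42, a158], (M a48 (F (T t309 (T t551 (L l28 (L l362 (L l367 (T t579 N))))))))⟩
def e0_63_106__87_42_102 : Ent 4 := ⟨[a0, a63, a106], [a87, a42, a159], (M a240 (F (T t4779 (L l170 (T t817 (L l93 (L l361 (T t4781 N))))))))⟩
def e0_63_106__87_42_103 : Ent 4 := ⟨[a0, a63, a106], [a87, a42, a168], (M a48 (F (T t309 (T t551 (L l28 (L l367 (L l400 (T t579 N))))))))⟩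
def e0_63_106__87_42_104 : Ent 4 := ⟨[a0, a63, a106], [a87, a42, a169], (M a48 (F (T t309 (L l217 (T t551 (L l28 (L l367 (T t579 N))))))))⟩
def e0_63_106__87_42_105 : Ent 4 := ⟨[a0, a63, a106], [a87, a42, a170], (M a48 (F (T t309 (L l220 (T t551 (L l28 (L l206 (L l220 (L l367 (L l404 (T t552 (L l28 (L l206 (L l367 (L l404 (T t553 N))))))))))))))))⟩
def e0_63_106__87_42_106 : Ent 4 := ⟨[a0, a63, a106], [a87, a42, a171], (M a3 (F (T t6966 (L l66 (L l349 (T t809 (L l219 (T t3500 N))))))))⟩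
def e0_63_106__87_42_107 : Ent 4 := ⟨[a0, a63, a106], [a87, a42, a172], (M a48 (F (T t309 (T t551 (L l28 (L l367 (T t579 N)))))))⟩
def e0_63_106__87_42_108 : Ent 4 := ⟨[a0, a63, a106], [a87, a42, a173], (M a48 (F (T t309 (T t551 (L l28 (L l367 (T t579 N)))))))⟩
def e0_63_106__87_42_109 : Ent 4 := ⟨[a0, a63, a106], [a87, a42, a174], (M a48 (F (T t309 (T t551 (L l28 (L l367 (T t579 N)))))))⟩
def e0_63_106__87_42_110 : Ent 4 := ⟨[a0, a63, a106], [a87, a42, a175], (M a48 (F (T t309 (T t551 (L l28 (L l367 (T t579 N)))))))⟩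
def e0_63_106__87_42_111 : Ent 4 := ⟨[a0, a63, a106], [a87, a42, a188], (M a48 (F (T t309 (L l186 (T t551 (L l28 (L l367 (T t579 N))))))))⟩
def e0_63_106__87_42_112 : Ent 4 := ⟨[a0, a63, a106], [a87, a42, a189], (M a48 (F (T t309 (L l217 (T t551 (L l28 (L l367 (T t579 N))))))))⟩
def e0_63_106__87_42_113 : Ent 4 := ⟨[a0, a63, a106], [a87, a42, a190], (M a48 (F (T t309 (T t551 (L l28 (L l367 (T t579 N)))))))⟩
def e0_63_106__87_42_114 : Ent 4 := ⟨[a0, a63, a106], [a87, a42, a191], (M a48 (F (T t309 (L l190 (L l220 (T t551 (L l28 (L l367 (L l475 (T t6498 (L l28 (L l367 (T t6499 N)))))))))))))⟩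
def e0_63_106__87_42_115 : Ent 4 := ⟨[a0, a63, a106], [a87, a42, a192], (M a243 (F (L l334 (T t6531 (L l232 (L l334 (T t6532 (L l296 (L l334 (L l475 (T t6533 (L l26 (L l334 (T t6534 (L l334 (T t6535 (K a132 (M a89 (L l334 (F (T t6536 (L l296 (L l475 (T t6537 (K a72 (Fr a12 a166 l482 (V t6967)) (K a12 (Fr a72 a123 l132 (V t6539)) N))))))))) (K a72 (M a166 (L l334 (F (T t6540 (L l296 (L l457 (L l475 (T t6963 (L l56 (L l80 (L l316 (L l457 (T t6542 (K a132 (Fr a12 a89 l482 (V t6543)) (K a12 (M a132 (F (T t6544 (L l26 (L l232 (L l316 (L l489 (T t6545 N)))))))) N))))))))))))))) (K a12 (M a48 (L l334 (F (T t6968 (L l236 (T t6969 (K a132 (M a72 (F (T t6549 (L l228 (L l338 (T t6964 N)))))) (K a72 (M a132 (F (T t6970 (L l28 (L l80 (L l236 (L l367 (T t579 (L l326 (T t6971 N)))))))))) N)))))))) (K a85 (M a86 (F (L l309 (T t6972 (L l334 (L l349 (T t6973 (L l93 (L l334 (L l458 (T t6974 (L l309 (L l473 (T t6975 (L l26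 (L l334 (L l458 (T t6976 (L l22 (L l292 (L l309 (L l334 (L l473 (T t6977 N)))))))))))))))))))))))) (K a89 (M a240 (F (T t6978 (L l514 (T t6568 (L l93 (L l339 (T t4781 N)))))))) (K a183 (M a48 (F (T t6968 (L l236 (T t6577 (L l28 (L l236 (L l367 (T t579 N))))))))) (K a123 (M a48 (F (T t6968 (L l236 (T t6577 (L l28 (L l236 (L l367 (T t579 N))))))))) N)))))))))))))))))))))))⟩
def e0_63_106__87_42_116 : Ent 4 := ⟨[a0, a63, a106], [a87, a42, a193], (M a48 (F (T t304 (L l28 (L l367 (T t579 (L l515 (T t551 N))))))))⟩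
def e0_63_106__87_42_117 : Ent 4 := ⟨[a0, a63, a106], [a87, a42, a194], (M a48 (F (T t578 (L l28 (L l234 (L l367 (T t579 (T t551 N))))))))⟩
def e0_63_106__87_42_118 : Ent 4 := ⟨[a0, a63, a106], [a87, a42, a195], (M a48 (F (T t585 (L l273 (T t551 (L l28 (L l367 (T t579 N))))))))⟩
def e0_63_106__87_42_119 : Ent 4 := ⟨[a0, a63, a106], [a87, a42, a196], (M a48 (F (T t304 (L l28 (L l367 (T t579 (L l495 (T t551 N))))))))⟩
def e0_63_106__87_42_120 : Ent 4 := ⟨[a0, a63, a106], [a87, a42, a197], (M a240 (F (L l236 (T t4779 (L l491 (T t817 (L l93 (T t4781 N))))))))⟩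
def e0_63_106__87_42_121 : Ent 4 := ⟨[a0, a63, a106], [a87, a42, a198], (M a48 (F (T t578 (L l28 (L l234 (L l367 (T t579 (T t551 N))))))))⟩
def e0_63_106__87_42_122 : Ent 4 := ⟨[a0, a63, a106], [a87, a42, a199], (M a48 (F (T t309 (T t551 (L l28 (L l367 (T t579 N)))))))⟩
def e0_63_106__87_42_123 : Ent 4 := ⟨[a0, a63, a106], [a87, a42, a200], (M a48 (F (T t578 (L l28 (L l230 (L l367 (T t579 (T t551 N))))))))⟩
def e0_63_106__87_42_124 : Ent 4 := ⟨[a0, a63, a106], [a87, a42, a201], (M a48 (F (T t578 (L l28 (L l230 (L l367 (T t579 (T t551 N))))))))⟩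
def e0_63_106__87_42_125 : Ent 4 := ⟨[a0, a63, a106], [a87, a42, a202], (M a240 (F (L l236 (T t4786 (T t817 (L l93 (L l318 (T t4781 N))))))))⟩
def e0_63_106__87_42_126 : Ent 4 := ⟨[a0, a63, a106], [a87, a42, a203], (M a48 (F (T t2348 (L l28 (L l230 (L l367 (T t579 (T t551 N))))))))⟩
def e0_63_106__87_42_127 : Ent 4 := ⟨[a0, a63, a106], [a87, a42, a204], (M a48 (F (T t585 (L l298 (T t551 (L l28 (L l367 (T t579 N))))))))⟩
def e0_63_106__87_42_128 : Ent 4 := ⟨[a0, a63, a106], [a87, a42, a205], (M a48 (F (T t309 (T t551 (L l28 (L l367 (T t579 N)))))))⟩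
def e0_63_106__87_42_129 : Ent 4 := ⟨[a0, a63, a106], [a87, a42, a206], (M a48 (F (T t2348 (L l28 (L l234 (L l367 (T t579 (T t551 N))))))))⟩
def e0_63_106__87_42_130 : Ent 4 := ⟨[a0, a63, a106], [a87, a42, a207], (M a240 (F (T t6525 (L l512 (T t817 (L l93 (T t4781 N)))))))⟩
def e0_63_106__87_42_131 : Ent 4 := ⟨[a0, a63, a106], [a87, a42, a212], (M a48 (F (T t304 (L l28 (L l367 (T t579 (L l351 (T t551 N))))))))⟩
def e0_63_106__87_42_132 : Ent 4 := ⟨[a0, a63, a106], [a87, a42, a213], (M a48 (F (T t585 (L l347 (T t551 (L l28 (L l246 (L l367 (T t579 N)))))))))⟩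
def e0_63_106__87_42_133 : Ent 4 := ⟨[a0, a63, a106], [a87, a42, a214], (M a48 (F (T t309 (T t551 (L l28 (L l367 (T t579 N)))))))⟩
def e0_63_106__87_42_134 : Ent 4 := ⟨[a0, a63, a106], [a87, a42, a215], (M a48 (L l349 (F (T t309 (T t551 (L l28 (L l245 (L l367 (T t579 (K a23 (M a151 (F (T t3405 (L l143 (T t3628 N))))) (K a151 (M a23 (F (T t3405 (L l22 (T t3181 N))))) N)))))))))))⟩
def e0_63_106__87_42_135 : Ent 4 := ⟨[a0, a63, a106], [a87, a42, a216], (M a48 (F (T t309 (L l298 (T t551 (L l28 (L l367 (T t579 N))))))))⟩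
def e0_63_106__87_42_136 : Ent 4 := ⟨[a0, a63, a106], [a87, a42, a217], (M a48 (F (T t309 (T t551 (L l28 (L l367 (T t579 N)))))))⟩
def e0_63_106__87_42_137 : Ent 4 := ⟨[a0, a63, a106], [a87, a42, a218], (M a48 (F (T t2348 (L l28 (L l246 (L l282 (L l367 (T t579 (L l303 (T t551 N))))))))))⟩
def e0_63_106__87_42_138 : Ent 4 := ⟨[a0, a63, a106], [a87, a42, a219], (M a48 (F (T t309 (T t551 (L l28 (L l245 (L l367 (T t579 N))))))))⟩
def e0_63_106__87_42_139 : Ent 4 := ⟨[a0, a63, a106], [a87, a42, a220], (M a48 (F (T t309 (T t551 (L l28 (L l241 (L l367 (T t579 N))))))))⟩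
def e0_63_106__87_42_140 : Ent 4 := ⟨[a0, a63, a106], [a87, a42, a221], (M a48 (F (T t309 (T t551 (L l28 (L l241 (L l367 (T t579 N))))))))⟩
def e0_63_106__87_42_141 : Ent 4 := ⟨[a0, a63, a106], [a87, a42, a222], (M a48 (F (T t309 (T t551 (L l28 (L l241 (L l367 (T t579 N))))))))⟩
def e0_63_106__87_42_142 : Ent 4 := ⟨[a0, a63, a106], [a87, a42, a223], (M a240 (L l367 (F (T t4786 (L l368 (T t817 (L l93 (L l361 (T t4781 (K a19 (M a155 (F (T t6965 (L l10 (L l368 (T t817 (L l93 (L l361 (T t4781 N))))))))) (K a155 (M a19 (F (T t6965 (L l368 (T t817 (L l93 (L l361 (T t4781 N)))))))) N)))))))))))⟩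
def e0_63_106__87_42_143 : Ent 4 := ⟨[a0, a63, a106], [a87, a42, a232], (M a48 (F (T t585 (T t551 (L l28 (L l367 (T t579 N)))))))⟩
def e0_63_106__87_42_144 : Ent 4 := ⟨[a0, a63, a106], [a87, a42, a233], (M a48 (F (T t309 (T t551 (L l28 (L l367 (T t579 N)))))))⟩
def e0_63_106__87_42_145 : Ent 4 := ⟨[a0, a63, a106], [a87, a42, a234], (M a48 (F (T t578 (L l28 (L l282 (L l367 (T t579 (T t551 N))))))))⟩
def e0_63_106__87_42_146 : Ent 4 := ⟨[a0, a63, a106], [a87, a42, a235], (M a48 (F (T t309 (T t551 (L l28 (L l367 (T t579 N)))))))⟩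
def e0_63_106__87_42_147 : Ent 4 := ⟨[a0, a63, a106], [a87, a42, a236], (M a48 (F (T t309 (T t551 (L l28 (L l367 (L l400 (T t579 N))))))))⟩
def e0_63_106__87_42_148 : Ent 4 := ⟨[a0, a63, a106], [a87, a42, a237], (M a48 (F (T t309 (T t551 (L l28 (L l367 (T t579 N)))))))⟩
def e0_63_106__87_42_149 : Ent 4 := ⟨[a0, a63, a106], [a87, a42, a238], (M a48 (F (T t309 (T t551 (L l28 (L l367 (T t579 N)))))))⟩
def e0_63_106__87_42_150 : Ent 4 := ⟨[a0, a63, a106], [a87, a42, a239], (M a48 (F (T t309 (T t551 (L l28 (L l289 (L l367 (L l404 (T t579 N)))))))))⟩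
def e0_63_106__87_42_151 : Ent 4 := ⟨[a0, a63, a106], [a87, a42, a252], (M a48 (F (T t585 (L l262 (T t551 (L l28 (L l367 (T t579 N))))))))⟩
def e0_63_106__87_42_152 : Ent 4 := ⟨[a0, a63, a106], [a87, a42, a253], (M a48 (F (T t309 (T t551 (L l28 (L l367 (T t579 N)))))))⟩
def e0_63_106__87_42_153 : Ent 4 := ⟨[a0, a63, a106], [a87, a42, a254], (M a48 (F (T t309 (T t551 (L l28 (L l367 (T t579 N)))))))⟩
def e0_63_106__87_42_154 : Ent 4 := ⟨[a0, a63, a106], [a87, a42, a255], (M a48 (L l475 (F (T t585 (L l266 (T t551 (L l28 (L l87 (L l93 (L l469 (T t6526 (L l28 (L l143 (L l289 (L l367 (T t6527 (K a3 (M a171 (F (T t585 (L l266 (L l453 (T t551 (L l28 (L l87 (L l93 (L l469 (T t6526 (L l28 (L l143 (L l289 (L l367 (T t6527 N)))))))))))))))) (K a171 (M a3 (F (T t585 (L l28 (L l367 (L l439 (T t559 N))))))) N))))))))))))))))))⟩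
def b0_63_106__87_42 : Blk 4 := ⟨[0, 63, 106], [87, 42], [1, 2, 3, 4, 5, 6, 7, 8, 9, 10, 11, 12, 13, 14, 15, 20, 21, 22, 23, 24, 25, 26, 27, 28, 29, 30, 31, 40, 41, 43, 44, 45, 46, 47, 60, 61, 62, 64, 65, 66, 67, 68, 69, 70, 71, 72, 73, 74, 75, 76, 77, 78, 79, 84, 85, 86, 88, 89, 90, 91, 92, 93, 94, 95, 104, 105, 107, 108, 109, 110, 111, 124, 125, 126, 127, 128, 129, 130, 131, 132, 133, 134, 135, 136, 137, 138, 139, 140, 141, 142, 143, 148, 149, 150, 151, 152, 153, 154, 155, 156, 157, 158, 159, 168, 169, 170, 171, 172, 173, 174, 175, 188, 189, 190, 191, 192, 193, 194, 195, 196, 197, 198, 199, 200, 201, 202, 203, 204, 205, 206, 207, 212, 213, 214, 215, 216, 217, 218, 219, 220, 221, 222, 223, 232, 233, 234, 235, 236, 237, 238, 239, 252, 253, 254, 255], [e0_63_106__87_42_0, e0_63_106__87_42_1, e0_63_106__87_42_2, e0_63_106__87_42_3, e0_63_106__87_42_4, e0_63_106__87_42_5, e0_63_106__87_42_6, e0_63_106__87_42_7,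 e0_63_106__87_42_8, e0_63_106__87_42_9, e0_63_106__87_42_10, e0_63_106__87_42_11, e0_63_106__87_42_12, e0_63_106__87_42_13, e0_63_106__87_42_14, e0_63_106__87_42_15, e0_63_106__87_42_16, e0_63_106__87_42_17, e0_63_106__87_42_18, e0_63_106__87_42_19, e0_63_106__87_42_20, e0_63_106__87_42_21, e0_63_106__87_42_22, e0_63_106__87_42_23, e0_63_106__87_42_24, e0_63_106__87_42_25, e0_63_106__87_42_26, e0_63_106__87_42_27, e0_63_106__87_42_28, e0_63_106__87_42_29, e0_63_106__87_42_30, e0_63_106__87_42_31, e0_63_106__87_42_32, e0_63_106__87_42_33, e0_63_106__87_42_34, e0_63_106__87_42_35, e0_63_106__87_42_36, e0_63_106__87_42_37, e0_63_106__87_42_38, e0_63_106__87_42_39, e0_63_106__87_42_40, e0_63_106__87_42_41, e0_63_106__87_42_42, e0_63_106__87_42_43, e0_63_106__87_42_44, e0_63_106__87_42_45, e0_63_106__87_42_46, e0_63_106__87_42_47, e0_63_106__87_42_48, e0_63_106__87_42_49, e0_63_106__87_42_50, e0_63_106__87_42_51,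 e0_63_106__87_42_52, e0_63_106__87_42_53, e0_63_106__87_42_54, e0_63_106__87_42_55, e0_63_106__87_42_56, e0_63_106__87_42_57, e0_63_106__87_42_58, e0_63_106__87_42_59, e0_63_106__87_42_60, e0_63_106__87_42_61, e0_63_106__87_42_62, e0_63_106__87_42_63, e0_63_106__87_42_64, e0_63_106__87_42_65, e0_63_106__87_42_66, e0_63_106__87_42_67, e0_63_106__87_42_68, e0_63_106__87_42_69, e0_63_106__87_42_70, e0_63_106__87_42_71, e0_63_106__87_42_72, e0_63_106__87_42_73, e0_63_106__87_42_74, e0_63_106__87_42_75, e0_63_106__87_42_76, e0_63_106__87_42_77, e0_63_106__87_42_78, e0_63_106__87_42_79, e0_63_106__87_42_80, e0_63_106__87_42_81, e0_63_106__87_42_82, e0_63_106__87_42_83, e0_63_106__87_42_84, e0_63_106__87_42_85, e0_63_106__87_42_86, e0_63_106__87_42_87, e0_63_106__87_42_88, e0_63_106__87_42_89, e0_63_106__87_42_90, e0_63_106__87_42_91, e0_63_106__87_42_92, e0_63_106__87_42_93, e0_63_106__87_42_94, e0_63_106__87_42_95,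 e0_63_106__87_42_96, e0_63_106__87_42_97, e0_63_106__87_42_98, e0_63_106__87_42_99, e0_63_106__87_42_100, e0_63_106__87_42_101, e0_63_106__87_42_102, e0_63_106__87_42_103, e0_63_106__87_42_104, e0_63_106__87_42_105, e0_63_106__87_42_106, e0_63_106__87_42_107, e0_63_106__87_42_108, e0_63_106__87_42_109, e0_63_106__87_42_110, e0_63_106__87_42_111, e0_63_106__87_42_112, e0_63_106__87_42_113, e0_63_106__87_42_114, e0_63_106__87_42_115, e0_63_106__87_42_116, e0_63_106__87_42_117, e0_63_106__87_42_118, e0_63_106__87_42_119, e0_63_106__87_42_120, e0_63_106__87_42_121, e0_63_106__87_42_122, e0_63_106__87_42_123, e0_63_106__87_42_124, e0_63_106__87_42_125, e0_63_106__87_42_126, e0_63_106__87_42_127, e0_63_106__87_42_128, e0_63_106__87_42_129, e0_63_106__87_42_130, e0_63_106__87_42_131, e0_63_106__87_42_132, e0_63_106__87_42_133, e0_63_106__87_42_134, e0_63_106__87_42_135, e0_63_106__87_42_136, e0_63_106__87_42_137,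 e0_63_106__87_42_138, e0_63_106__87_42_139, e0_63_106__87_42_140, e0_63_106__87_42_141, e0_63_106__87_42_142, e0_63_106__87_42_143, e0_63_106__87_42_144, e0_63_106__87_42_145, e0_63_106__87_42_146, e0_63_106__87_42_147, e0_63_106__87_42_148, e0_63_106__87_42_149, e0_63_106__87_42_150, e0_63_106__87_42_151, e0_63_106__87_42_152, e0_63_106__87_42_153, e0_63_106__87_42_154], by decide +kernel, by decide +kernel⟩
def e0_63_106__90_42_0 : Ent 4 := ⟨[a0, a63, a106], [a90, a42, a1], (M a48 (F (T t309 (L l375 (L l483 (T t551 (L l28 (T t579 N))))))))⟩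
def e0_63_106__90_42_1 : Ent 4 := ⟨[a0, a63, a106], [a90, a42, a2], (M a48 (L l66 (F (T t309 (L l375 (L l483 (T t551 (L l28 (T t579 (K a22 (M a62 (F (T t304 (L l22 (L l306 (T t5926 N)))))) (K a62 (M a22 (F (T t304 (L l28 (T t579 (L l375 (L l483 (T t551 N)))))))) N)))))))))))⟩
def e0_63_106__90_42_2 : Ent 4 := ⟨[a0, a63, a106], [a90, a42, a3], (M a48 (F (L l309 (T t309 (L l375 (L l453 (L l483 (T t551 (L l28 (T t579 N))))))))))⟩
def e0_63_106__90_42_3 : Ent 4 := ⟨[a0, a63, a106], [a90, a42, a5], (M a48 (F (L l47 (T t309 (L l375 (L l483 (T t551 (L l28 (L l47 (T t579 N))))))))))⟩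
def e0_63_106__90_42_4 : Ent 4 := ⟨[a0, a63, a106], [a90, a42, a6], (M a48 (F (T t309 (L l375 (L l483 (T t551 (L l28 (T t579 N))))))))⟩
def e0_63_106__90_42_5 : Ent 4 := ⟨[a0, a63, a106], [a90, a42, a7], (M a48 (F (T t309 (L l375 (L l483 (T t551 (L l28 (T t579 N))))))))⟩
def e0_63_106__90_42_6 : Ent 4 := ⟨[a0, a63, a106], [a90, a42, a10], (M a48 (L l54 (L l462 (F (L l318 (T t309 (L l375 (L l483 (T t551 (L l28 (L l318 (T t579 (K a26 (Fr a58 a53 l38 (V t6446)) (K a170 (M a250 (L l54 (F (L l318 (T t304 (L l220 (L l375 (L l483 (T t551 (L l28 (L l220 (L l318 (L l404 (T t6979 (L l28 (L l318 (L l404 (T t6980 (K a26 (Fr a58 a53 l38 (V t6446)) (K a58 (M a26 (F (L l28 (L l404 (T t4144 (L l220 (L l375 (L l483 (T t551 (L l28 (L l220 (L l375 (L l404 (T t2289 (L l28 (L l220 (L l318 (L l375 (T t6981 (K a32 (Fr a192 a149 l519 (Fr a128 a64 l304 (Fr a144 a96 l484 (Fr a160 a176 l192 (Fr a80 a240 l448 (Fr a16 a208 l340 (Fr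 a31 a21 l18 (V t7151)))))))) (K a31 (M a12 (L l375 (F (T t445 (L l26 (L l178 (L l480 (T t3885 (K a208 (Fr a149 a192 l519 (V t6983)) (K a149 (M a208 (L l220 (F (T t445 (L l17 (L l26 (L l36 (L l357 (T t6984 (L l2 (L l28 (L l36 (L l56 (L l347 (L l464 (T t6985 (K a128 (M a191 (F (T t6986 (L l28 (L l36 (T t6987 N)))))) (K a191 (M a128 (F (T t6988 (L l6 (L l480 (L l483 (T t6989 N))))))) N)))))))))))))))))) N)))))))))) N))))))))))))))))))))) N)))))))))))))))))))) (K a58 (M a26 (L l462 (F (L l28 (T t4144 (L l375 (T t6990 (K a31 (M a170 (L l375 (F (T t3201 (T t6991 (L l28 (L l361 (L l426 (T t323 (K a208 (Fr a149 a192 l519 (V t186)) (K a149 (M a208 (F (T t6992 (L l170 (T t6993 (L l94 (L l318 (L l347 (T t4556 (T t6994 N)))))))))) N))))))))))) (K a170 (M a250 (F (L l28 (L l404 (T t4144 (L l220 (L l375 (L l483 (T t551 (L l28 (L l220 (L l375 (L l404 (T t2289 (L l28 (L l220 (L l318 (L l375 (T t6981 (K a32 (Fr a192 a149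 l519 (Fr a128 a64 l304 (Fr a144 a96 l484 (Fr a160 a176 l192 (Fr a80 a240 l448 (Fr a16 a208 l340 (Fr a31 a21 l18 (V t7151)))))))) (K a31 (M a12 (L l375 (F (T t445 (L l26 (L l178 (L l480 (T t3885 (K a208 (Fr a149 a192 l519 (V t6983)) (K a149 (M a208 (L l220 (F (T t445 (L l17 (L l26 (L l36 (L l357 (T t6984 (L l2 (L l28 (L l36 (L l56 (L l347 (L l464 (T t6985 (K a128 (M a191 (F (T t6986 (L l28 (L l36 (T t6987 N)))))) (K a191 (M a128 (F (T t6988 (L l6 (L l480 (L l483 (T t6989 N))))))) N)))))))))))))))))) N)))))))))) N))))))))))))))))))))) (K a250 (M a170 (L l426 (F (L l28 (T t4144 (L l94 (T t6995 (K a122 (M a186 (F (T t6996 (L l28 (T t4144 N))))) (K a186 (M a122 (F (T t3207 (L l28 (T t4144 N))))) N))))))))) N)))))))))) (K a250 (M a170 (L l54 (F (T t3207 (L l266 (L l354 (T t3204 (L l151 (L l282 (L l318 (T t585 (K a26 (Fr a58 a53 l38 (V t3207)) (K a58 (M a26 (L l426 (F (L l28 (T t4144 (L l94 (T t6995 (K a122 (M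 a186 (F (T t6996 (L l28 (T t4144 N))))) (K a186 (M a122 (F (T t3207 (L l28 (T t4144 N))))) N))))))))) N))))))))))))) N))))))))))))))))⟩
def e0_63_106__90_42_7 : Ent 4 := ⟨[a0, a63, a106], [a90, a42, a11], (M a48 (L l465 (F (T t309 (L l375 (L l483 (T t551 (L l28 (T t579 (K a248 (M a169 (F (T t309 (L l66 (L l280 (T t6997 N)))))) (K a169 (M a248 (F (T t304 (L l28 (T t579 (L l217 (L l375 (L l483 (T t551 N))))))))) N)))))))))))⟩
def e0_63_106__90_42_8 : Ent 4 := ⟨[a0, a63, a106], [a90, a42, a15], (M a48 (L l483 (F (L l339 (T t309 (L l28 (L l375 (T t2289 (L l28 (T t579 (K a240 (M a165 (F (L l151 (T t585 (L l28 (L l462 (T t6998 (L l28 (T t579 N))))))))) (K a165 (M a240 (F (L l339 (T t309 (L l54 (L l455 (L l469 (T t3317 (L l28 (L l180 (L l339 (L l375 (T t6999 N))))))))))))) N))))))))))))⟩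
def e0_63_106__90_42_9 : Ent 4 := ⟨[a0, a63, a106], [a90, a42, a16], (M a12 (F (T t2304 (L l375 (T t2305 (L l56 (T t2415 N)))))))⟩
def e0_63_106__90_42_10 : Ent 4 := ⟨[a0, a63, a106], [a90, a42, a17], (M a48 (F (T t309 (L l375 (L l483 (T t551 (L l28 (T t579 N))))))))⟩
def e0_63_106__90_42_11 : Ent 4 := ⟨[a0, a63, a106], [a90, a42, a18], (M a48 (F (T t309 (L l375 (L l483 (T t551 (L l28 (T t579 N))))))))⟩
def e0_63_106__90_42_12 : Ent 4 := ⟨[a0, a63, a106], [a90, a42, a19], (M a48 (F (T t309 (L l375 (L l483 (T t551 (L l28 (L l367 (T t579 N)))))))))⟩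
def e0_63_106__90_42_13 : Ent 4 := ⟨[a0, a63, a106], [a90, a42, a21], (M a48 (F (L l47 (T t309 (L l347 (L l375 (L l483 (T t551 (L l28 (L l47 (T t579 N)))))))))))⟩
def e0_63_106__90_42_14 : Ent 4 := ⟨[a0, a63, a106], [a90, a42, a22], (M a48 (L l66 (F (T t309 (L l375 (L l483 (T t551 (L l28 (T t579 (K a2 (M a62 (F (T t304 (L l22 (L l306 (T t5926 N)))))) (K a62 (M a2 (F (T t304 (L l19 (L l28 (T t342 N)))))) N)))))))))))⟩
def e0_63_106__90_42_15 : Ent 4 := ⟨[a0, a63, a106], [a90, a42, a23], (M a48 (F (T t309 (L l351 (L l375 (L l483 (T t551 (L l28 (T t579 N)))))))))⟩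
def e0_63_106__90_42_16 : Ent 4 := ⟨[a0, a63, a106], [a90, a42, a26], (M a3 (L l54 (L l354 (F (T t6745 (L l66 (T t809 (L l375 (T t3500 (K a10 (M a58 (L l354 (L l462 (F (T t7000 (L l28 (L l318 (T t3403 (K a154 (M a218 (L l462 (F (T t6745 (L l72 (L l510 (T t7001 (K a170 (M a250 (L l206 (F (T t7000 (L l72 (L l510 (T t7001 (K a138 (Fr a186 a122 l426 (V t7002)) (K a186 (M a138 (F (T t7000 (L l510 (L l512 (T t7003 N)))))) N))))))))) (K a250 (M a170 (F (T t3207 (L l72 (L l510 (T t7001 N)))))) N))))))))) (K a218 (Fr a154 a202 l498 (V t4118)) (K a170 (M a250 (L l354 (F (T t6745 (L l28 (L l404 (T t7004 (K a154 (M a218 (L l206 (F (T t7000 (L l72 (L l510 (T t7001 (K a138 (Fr a186 a122 l426 (V t7002)) (K a186 (M a138 (F (T t7000 (L l510 (L l512 (T t7003 N)))))) N))))))))) (K a218 (Fr a154 a202 l498 (V t4118)) N))))))))) (K a250 (M a170 (L l354 (F (T t3207 (L l282 (L l318 (T t7005 (K a154 (M a218 (F (T t3207 (L l72 (L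 l510 (T t7001 N)))))) (K a218 (Fr a154 a202 l498 (M a234 (L l318 (F (L l375 (T t6879 (T t7006 (K a74 (Fr a138 a186 l206 (V t6879)) (K a138 (M a74 (F (L l236 (T t7007 (L l6 (L l66 (L l266 (L l330 (T t7008 N))))))))) N))))))))) N))))))))) N)))))))))))) (K a154 (M a218 (L l54 (F (T t7000 (L l170 (L l375 (T t3500 (L l66 (T t809 (K a10 (M a58 (L l462 (F (T t6745 (L l72 (L l510 (T t7001 (K a170 (M a250 (L l206 (F (T t7000 (L l72 (L l510 (T t7001 (K a138 (Fr a186 a122 l426 (V t7002)) (K a186 (M a138 (F (T t7000 (L l510 (L l512 (T t7003 N)))))) N))))))))) (K a250 (M a170 (F (T t3207 (L l72 (L l510 (T t7001 N)))))) N))))))))) (K a58 (M a10 (F (T t7000 (L l72 (L l75 (L l480 (L l483 (T t7009 N)))))))) N))))))))))) (K a218 (M a154 (L l54 (F (T t6745 (L l28 (L l246 (L l282 (T t7010 (K a10 (Fr a58 a202 l498 (V t4118)) (K a58 (M a10 (F (T t7000 (L l72 (L l75 (L l480 (L l483 (T t7009 N)))))))) N)))))))))) (K a58 (M a10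 (L l354 (F (T t6745 (L l72 (L l75 (L l480 (L l483 (T t7009 (K a154 (M a218 (F (T t7000 (L l72 (L l75 (L l480 (L l483 (T t7009 N)))))))) (K a218 (M a154 (F (T t7000 (L l72 (L l75 (L l480 (L l483 (T t7009 N)))))))) N))))))))))) N)))))))))))))⟩
def e0_63_106__90_42_17 : Ent 4 := ⟨[a0, a63, a106], [a90, a42, a27], (M a48 (L l357 (F (T t309 (L l375 (L l483 (T t551 (L l28 (T t579 (K a216 (M a153 (F (T t304 (L l26 (L l280 (T t6669 N)))))) (K a153 (M a216 (F (T t304 (L l28 (T t579 (L l167 (L l375 (L l483 (T t551 N))))))))) N)))))))))))⟩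
def e0_63_106__90_42_18 : Ent 4 := ⟨[a0, a63, a106], [a90, a42, a31], (M a64 (L l375 (F (T t394 (K a128 (M a48 (L l375 (F (T t304 (L l54 (L l94 (L l220 (T t7011 (L l28 (L l220 (L l361 (L l462 (T t7012 (K a208 (Fr a149 a192 l519 (V t7013)) (K a149 (M a208 (L l220 (F (L l491 (T t7014 (L l28 (L l170 (L l192 (T t7015 (L l28 (L l94 (T t7016 (K a170 (M a191 (L l462 (F (T t7017 (L l28 (L l170 (L l192 (L l404 (T t7015 (K a10 (M a250 (L l54 (F (T t7017 (L l28 (L l170 (L l192 (L l404 (T t7015 (K a26 (Fr a58 a53 l38 (V t7017)) (K a58 (M a26 (F (T t7017 (L l28 (L l170 (L l192 (L l404 (T t7015 N)))))))) N))))))))))) (K a250 (M a10 (F (T t7017 (L l28 (L l170 (L l192 (L l404 (T t7015 N)))))))) N))))))))))) (K a191 (M a170 (F (T t7018 (L l28 (L l170 (L l192 (T t7015 N))))))) N)))))))))))))) N))))))))))))))) (K a192 (M a89 (L l375 (F (L l94 (T t7019 (L l56 (L l462 (T t7020 (L l232 (L l334 (L l489 (T t7021 (K a208 (M a149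 (L l268 (F (L l334 (L l480 (T t7022 (L l148 (L l489 (T t7023 (L l26 (L l238 (L l272 (T t1956 (K a224 (M a240 (F (L l334 (L l480 (T t7022 (L l94 (L l151 (L l484 (T t7024 N))))))))) (K a240 (M a224 (L l483 (F (T t7025 (L l28 (L l133 (L l258 (T t7026 (K a165 (M a15 (F (L l238 (L l272 (L l334 (T t7027 (L l489 (T t7028 (L l26 (L l238 (L l272 (T t1956 N)))))))))))) (K a15 (Fr a165 a47 l411 (V t7029)) N)))))))))) N))))))))))))))) (K a149 (M a208 (F (L l489 (T t7028 (L l56 (L l220 (L l462 (T t7020 (L l202 (L l334 (L l489 (L l495 (T t7030 N))))))))))))) N)))))))))))))) (K a208 (Fr a149 a192 l519 (M a29 (L l268 (F (L l238 (L l272 (L l334 (T t7031 (L l56 (L l246 (L l296 (L l357 (L l363 (T t7032 (L l26 (L l94 (T t7033 (K a224 (M a240 (F (L l238 (L l272 (L l334 (T t7031 (L l94 (L l151 (L l484 (T t7024 N)))))))))) (K a240 (M a224 (L l483 (F (L l26 (L l94 (T t7033 (L l28 (L l238 (L l258 (L l272 (T t7034 (K a165 (M a15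 (F (L l238 (L l272 (T t7035 (L l26 (L l54 (L l56 (L l309 (L l453 (L l459 (L l462 (T t7036 N))))))))))))) (K a15 (Fr a165 a47 l411 (V t7037)) N))))))))))))) N))))))))))))))))))) (K a149 (M a208 (F (L l151 (L l220 (T t7038 (L l94 (L l199 (L l220 (L l347 (T t7039 (L l18 (L l220 (T t7040 (K a128 (M a48 (L l220 (F (L l491 (T t7014 (L l28 (L l170 (L l192 (T t7015 (L l28 (L l94 (T t7016 (K a170 (M a191 (L l462 (F (T t7017 (L l28 (L l170 (L l192 (L l404 (T t7015 (K a10 (M a250 (L l54 (F (T t7017 (L l28 (L l170 (L l192 (L l404 (T t7015 (K a26 (Fr a58 a53 l38 (V t7017)) (K a58 (M a26 (F (T t7017 (L l28 (L l170 (L l192 (L l404 (T t7015 N)))))))) N))))))))))) (K a250 (M a10 (F (T t7017 (L l28 (L l170 (L l192 (L l404 (T t7015 N)))))))) N))))))))))) (K a191 (M a170 (F (T t7018 (L l28 (L l170 (L l192 (T t7015 N))))))) N)))))))))))))) (K a192 (M a48 (F (L l28 (L l170 (T t7015 (L l220 (L l236 (L l462 (T t7041 (L l94 (L l151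 (L l220 (L l347 (L l483 (T t6464 N))))))))))))))) (K a80 (M a98 (L l94 (F (T t7042 (L l17 (L l220 (T t7043 (K a85 (M a95 (L l347 (F (L l220 (T t7044 (L l28 (L l220 (L l483 (T t7045 (L l126 (L l148 (L l167 (L l202 (L l363 (L l495 (T t7046 (K a21 (M a213 (L l18 (F (L l220 (L l368 (T t7047 (L l126 (L l148 (L l167 (L l202 (L l363 (L l495 (T t7046 (K a16 (M a26 (L l368 (F (L l220 (L l462 (L l491 (T t7048 (L l126 (L l148 (L l167 (L l202 (L l363 (L l495 (T t7049 (K a154 (Fr a223 a218 l246 (V t7044)) (K a223 (M a154 (F (T t7050 (L l10 (L l15 (L l220 (L l365 (T t7051 N)))))))) N)))))))))))))))) (K a26 (M a16 (L l54 (L l354 (F (L l220 (T t7052 (L l28 (L l141 (L l373 (T t7053 (K a10 (M a58 (L l354 (L l462 (F (T t7054 (L l220 (T t7055 (K a154 (Fr a218 a223 l246 (V t7054)) (K a218 (Fr a154 a202 l498 (V t7054)) (K a170 (M a250 (L l220 (L l354 (F (T t7054 (L l318 (T t7056 (K a128 (M a191 (L l354 (F (T t7054 (L l455 (T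 t7057 (K a154 (Fr a218 a223 l246 (V t7054)) (K a218 (Fr a154 a202 l498 (V t7054)) N)))))))) (K a154 (Fr a218 a223 l246 (V t7054)) (K a218 (Fr a154 a202 l498 (V t7054)) (K a191 (Fr a128 a192 l304 (V t7054)) N))))))))))) (K a250 (M a170 (L l354 (F (T t7054 (T t7055 (K a154 (Fr a218 a223 l246 (V t7054)) (K a218 (Fr a154 a202 l498 (M a234 (L l318 (F (T t7058 (T t7054 (K a74 (Fr a138 a186 l206 (V t7058)) (K a138 (M a74 (F (T t7054 (T t7058 N)))) N)))))))) N))))))) N))))))))))) (K a154 (Fr a218 a223 l246 (V t7055)) (K a218 (M a154 (L l54 (F (L l220 (T t7055 (L l163 (L l300 (L l350 (L l372 (T t7059 (K a10 (Fr a58 a202 l498 (V t7054)) (K a58 (M a10 (F (L l373 (T t7060 (L l47 (L l199 (L l220 (L l282 (L l455 (T t7061 N)))))))))) N)))))))))))) (K a58 (M a10 (L l354 (F (L l220 (T t7052 (L l28 (L l141 (L l373 (T t7053 (K a154 (Fr a218 a223 l246 (V t7055)) (K a218 (M a154 (F (L l373 (T t7060 (L l47 (L l199 (L l220 (L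 l282 (L l455 (T t7061 N)))))))))) N))))))))))) N)))))))))))))) N))))))))))))))) (K a213 (M a21 (F (L l220 (T t7055 (L l28 (L l220 (L l483 (T t7045 (L l126 (L l148 (L l167 (L l202 (L l363 (L l495 (T t7046 N))))))))))))))) N)))))))))))))))))) (K a95 (Fr a85 a127 l144 (V t7062)) N))))))))) (K a96 (M a72 (F (T t7063 (L l133 (L l202 (L l220 (L l376 (T t7064 N)))))))) (K a160 (M a72 (F (T t7065 (L l133 (L l176 (L l192 (L l202 (L l220 (L l376 (T t7064 N)))))))))) (K a224 (M a68 (F (T t7066 (L l220 (T t7067 (L l220 (L l462 (T t7068 N)))))))) (K a112 (M a72 (L l151 (F (L l106 (T t7065 (L l110 (L l133 (L l202 (L l220 (T t7064 (K a101 (M a79 (L l491 (F (L l106 (T t7065 (L l110 (L l133 (L l202 (L l220 (T t7064 (K a197 (M a53 (F (L l106 (T t7065 (L l13 (L l202 (L l220 (T t7069 N)))))))) (K a53 (M a197 (F (T t7070 (L l106 (T t7065 N))))) N)))))))))))) (K a79 (M a101 (F (L l106 (L l149 (T t7065 (L l110 (L l133 (L l202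 (L l220 (T t7064 N)))))))))) N)))))))))))) (K a240 (M a204 (L l483 (F (L l220 (T t7071 (L l94 (L l167 (L l347 (L l363 (T t7072 (L l56 (L l220 (L l495 (T t7073 (K a165 (M a15 (L l199 (F (T t7074 (L l220 (L l453 (L l459 (T t7075 (K a133 (M a181 (F (T t7074 (L l56 (L l160 (L l220 (L l315 (L l495 (T t7073 (L l160 (L l220 (L l478 (T t7076 N))))))))))))) (K a181 (M a133 (F (T t7077 (L l54 (L l148 (L l217 (L l462 (L l491 (T t7078 N))))))))) N)))))))))) (K a15 (M a165 (F (L l220 (T t7071 (L l22 (L l167 (L l363 (T t7079 N)))))))) N)))))))))))))))) (K a170 (Fr a127 a85 l144 (Fr a192 a128 l304 (Fr a191 a255 l433 (V t7152)))) (K a191 (Fr a85 a127 l144 (Fr a192 a128 l304 (Fr a170 a255 l476 (V t7153)))) N))))))))))))))))))))))) N))))))))⟩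
def e0_63_106__90_42_19 : Ent 4 := ⟨[a0, a63, a106], [a90, a42, a32], (M a12 (L l28 (F (T t2304 (L l375 (T t2305 (L l56 (T t2415 (K a37 (M a47 (F (T t2414 (L l54 (L l375 (L l376 (L l462 (T t6764 (L l56 (T t2415 N)))))))))) (K a47 (M a37 (F (T t2414 (L l56 (T t2415 (L l375 (T t2305 N))))))) N))))))))))⟩
def e0_63_106__90_42_20 : Ent 4 := ⟨[a0, a63, a106], [a90, a42, a33], (M a48 (F (T t309 (L l375 (L l483 (T t551 (L l20 (L l28 (T t579 N)))))))))⟩
def e0_63_106__90_42_21 : Ent 4 := ⟨[a0, a63, a106], [a90, a42, a34], (M a48 (L l26 (F (T t309 (L l375 (L l483 (T t551 (L l20 (L l28 (T t579 (K a38 (M a46 (F (T t304 (L l56 (L l378 (T t4030 N)))))) (K a46 (M a38 (F (T t304 (L l20 (L l28 (T t579 (L l375 (L l483 (T t551 N))))))))) N))))))))))))⟩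
def e0_63_106__90_42_22 : Ent 4 := ⟨[a0, a63, a106], [a90, a42, a35], (M a48 (F (T t309 (L l375 (L l483 (T t551 (L l20 (L l28 (T t579 N)))))))))⟩
def e0_63_106__90_42_23 : Ent 4 := ⟨[a0, a63, a106], [a90, a42, a37], (M a12 (L l28 (F (T t2304 (L l375 (T t2305 (L l56 (T t2415 (K a32 (M a47 (F (T t2414 (L l54 (L l375 (L l376 (L l462 (T t6764 (L l56 (T t2415 N)))))))))) (K a47 (M a32 (F (T t2304 (L l51 (L l56 (T t682 N)))))) N))))))))))⟩
def e0_63_106__90_42_24 : Ent 4 := ⟨[a0, a63, a106], [a90, a42, a38], (M a48 (L l26 (F (T t309 (L l375 (L l483 (T t551 (L l28 (T t579 (K a34 (M a46 (F (T t304 (L l56 (L l378 (T t4030 N)))))) (K a46 (M a34 (F (T t309 (L l29 (L l66 (T t6453 N)))))) N)))))))))))⟩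
def e0_63_106__90_42_25 : Ent 4 := ⟨[a0, a63, a106], [a90, a42, a39], (M a48 (F (T t309 (L l375 (L l483 (T t551 (L l28 (T t579 N))))))))⟩
def e0_63_106__90_42_26 : Ent 4 := ⟨[a0, a63, a106], [a90, a42, a43], (M a48 (L l22 (F (T t309 (L l375 (L l483 (T t551 (L l28 (T t579 (K a40 (M a41 (F (T t304 (L l24 (L l28 (T t579 (L l375 (L l483 (T t551 N))))))))) (K a41 (M a40 (F (T t309 (L l29 (L l69 (T t6452 N)))))) N)))))))))))⟩
def e0_63_106__90_42_27 : Ent 4 := ⟨[a0, a63, a106], [a90, a42, a47], (M a12 (L l28 (F (T t2304 (L l375 (T t2305 (L l56 (T t2415 (K a32 (M a37 (F (T t2414 (L l56 (T t2415 (L l375 (T t2305 N))))))) (K a37 (M a32 (F (T t2304 (L l51 (L l56 (T t682 N)))))) N))))))))))⟩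
def e0_63_106__90_42_28 : Ent 4 := ⟨[a0, a63, a106], [a90, a42, a48], (M a12 (F (L l484 (T t2304 (L l375 (L l508 (T t2305 (L l56 (T t2415 N)))))))))⟩
def e0_63_106__90_42_29 : Ent 4 := ⟨[a0, a63, a106], [a90, a42, a49], (M a48 (F (L l35 (T t309 (L l375 (L l483 (T t551 (L l28 (L l35 (T t579 N))))))))))⟩
def e0_63_106__90_42_30 : Ent 4 := ⟨[a0, a63, a106], [a90, a42, a50], (M a48 (F (T t309 (L l375 (L l483 (T t551 (L l28 (T t579 N))))))))⟩
def e0_63_106__90_42_31 : Ent 4 := ⟨[a0, a63, a106], [a90, a42, a51], (M a48 (F (L l489 (T t309 (L l375 (L l417 (L l483 (T t551 (L l28 (T t579 N))))))))))⟩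
def e0_63_106__90_42_32 : Ent 4 := ⟨[a0, a63, a106], [a90, a42, a53], (M a12 (F (T t2304 (L l375 (L l491 (T t2305 (L l56 (T t2415 N))))))))⟩
def e0_63_106__90_42_33 : Ent 4 := ⟨[a0, a63, a106], [a90, a42, a54], (M a48 (F (L l31 (T t309 (L l375 (L l483 (T t551 (L l28 (L l31 (T t579 N))))))))))⟩
def e0_63_106__90_42_34 : Ent 4 := ⟨[a0, a63, a106], [a90, a42, a55], (M a48 (F (L l31 (T t309 (L l375 (L l483 (L l495 (T t551 (L l28 (L l31 (T t579 N)))))))))))⟩
def e0_63_106__90_42_35 : Ent 4 := ⟨[a0, a63, a106], [a90, a42, a58], (M a12 (L l54 (F (T t2304 (L l375 (T t2305 (L l56 (T t2415 (K a10 (M a26 (L l462 (F (T t2414 (L l2 (L l56 (T t2415 (L l375 (T t2305 (K a170 (M a250 (F (T t2414 (L l220 (L l375 (T t2305 (L l2 (L l56 (L l178 (L l220 (L l464 (T t2306 (L l2 (L l56 (L l178 (L l464 (T t2307 N))))))))))))))))) (K a250 (M a170 (L l426 (F (T t3207 (L l2 (L l56 (L l266 (T t3685 (L l375 (T t2416 (K a122 (M a186 (F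 (T t3207 (L l88 (L l108 (L l318 (T t7082 N))))))) (K a186 (M a122 (F (L l375 (T t6879 (L l190 (L l260 (L l465 (T t2495 N)))))))) N)))))))))))) N))))))))))) (K a26 (M a10 (L l354 (F (T t2304 (L l57 (L l66 (L l465 (T t6765 (K a154 (M a218 (F (T t2304 (L l57 (L l66 (L l465 (T t6765 N))))))) (K a218 (M a154 (F (T t2414 (L l66 (T t2609 N))))) N)))))))))) N))))))))))⟩
def e0_63_106__90_42_36 : Ent 4 := ⟨[a0, a63, a106], [a90, a42, a59], (M a48 (L l56 (F (T t309 (L l375 (L l483 (T t551 (L l28 (T t579 (K a8 (M a25 (F (T t304 (L l28 (T t579 (L l375 (L l483 (T t551 N)))))))) (K a25 (M a8 (F (T t304 (L l19 (L l28 (T t4700 N)))))) N)))))))))))⟩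
def e0_63_106__90_42_37 : Ent 4 := ⟨[a0, a63, a106], [a90, a42, a64], (M a48 (F (T t309 (L l28 (L l151 (T t6454 (L l28 (L l375 (L l462 (T t6455 (L l28 (L l462 (T t6456 (L l28 (L l84 (T t6457 (L l54 (T t6458 (K a207 (Fr a192 a149 l519 (Fr a96 a144 l484 (Fr a101 a111 l104 (Fr a32 a16 l40 (V t6459))))) N)))))))))))))))))))⟩
def e0_63_106__90_42_38 : Ent 4 := ⟨[a0, a63, a106], [a90, a42, a65], (M a48 (F (T t309 (L l76 (L l375 (L l483 (T t551 (L l28 (L l76 (T t579 N))))))))))⟩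
def e0_63_106__90_42_39 : Ent 4 := ⟨[a0, a63, a106], [a90, a42, a66], (M a48 (F (T t304 (L l28 (L l76 (T t579 (L l76 (L l375 (L l483 (T t551 N))))))))))⟩
def e0_63_106__90_42_40 : Ent 4 := ⟨[a0, a63, a106], [a90, a42, a67], (M a48 (F (T t309 (L l76 (L l375 (L l483 (T t551 (L l28 (L l76 (T t579 N))))))))))⟩
def e0_63_106__90_42_41 : Ent 4 := ⟨[a0, a63, a106], [a90, a42, a69], (M a48 (F (T t309 (L l84 (L l375 (L l483 (T t551 (L l28 (L l84 (T t579 N))))))))))⟩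
def e0_63_106__90_42_42 : Ent 4 := ⟨[a0, a63, a106], [a90, a42, a70], (M a48 (F (T t309 (L l375 (L l483 (T t551 (L l28 (T t579 N))))))))⟩
def e0_63_106__90_42_43 : Ent 4 := ⟨[a0, a63, a106], [a90, a42, a71], (M a48 (F (T t309 (L l375 (L l483 (T t551 (L l28 (T t579 N))))))))⟩
def e0_63_106__90_42_44 : Ent 4 := ⟨[a0, a63, a106], [a90, a42, a74], (M a48 (F (L l318 (T t304 (L l84 (L l375 (L l483 (T t551 (L l28 (L l84 (L l318 (T t579 N))))))))))))⟩
def e0_63_106__90_42_45 : Ent 4 := ⟨[a0, a63, a106], [a90, a42, a75], (M a48 (L l133 (F (T t309 (L l375 (L l483 (T t551 (L l28 (T t579 (K a120 (M a105 (F (T t304 (L l128 (T t6813 N))))) (K a105 (M a120 (F (T t304 (L l28 (T t579 (L l375 (L l483 (L l515 (T t551 N))))))))) N)))))))))))⟩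
def e0_63_106__90_42_46 : Ent 4 := ⟨[a0, a63, a106], [a90, a42, a79], (M a48 (L l151 (F (T t309 (L l84 (L l375 (L l483 (T t551 (L l28 (L l84 (T t579 (K a112 (M a101 (F (T t6740 (L l375 (T t6741 N))))) (K a101 (M a112 (F (L l84 (T t2925 (L l137 (T t346 (L l28 (L l84 (L l404 (L l491 (T t579 N))))))))))) N)))))))))))))⟩
def e0_63_106__90_42_47 : Ent 4 := ⟨[a0, a63, a106], [a90, a42, a80], (M a207 (L l94 (F (L l340 (T t6700 (L l375 (L l483 (T t6701 (L l116 (L l462 (T t7083 (K a85 (M a95 (F (T t7084 (L l116 (L l354 (L l368 (T t6703 (L l347 (L l375 (L l455 (L l483 (T t6701 N)))))))))))) (K a95 (M a85 (F (L l137 (T t5958 (L l354 (L l469 (T t2861 N))))))) N)))))))))))))⟩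
def e0_63_106__90_42_48 : Ent 4 := ⟨[a0, a63, a106], [a90, a42, a81], (M a48 (F (T t309 (L l120 (L l375 (L l483 (T t551 (L l28 (L l120 (T t579 N))))))))))⟩
def e0_63_106__90_42_49 : Ent 4 := ⟨[a0, a63, a106], [a90, a42, a82], (M a48 (L l92 (F (T t309 (L l375 (L l453 (L l483 (T t551 (L l28 (T t579 (K a86 (M a94 (F (T t304 (L l28 (T t579 (L l351 (L l375 (L l453 (L l483 (T t551 N)))))))))) (K a94 (M a86 (F (T t304 (L l118 (T t6714 N))))) N))))))))))))⟩
def e0_63_106__90_42_50 : Ent 4 := ⟨[a0, a63, a106], [a90, a42, a83], (M a48 (F (T t309 (L l375 (L l483 (T t551 (L l28 (T t579 N))))))))⟩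
def e0_63_106__90_42_51 : Ent 4 := ⟨[a0, a63, a106], [a90, a42, a85], (M a12 (L l94 (F (T t2304 (L l347 (L l375 (T t2305 (L l26 (T t2475 (L l458 (T t7085 (K a192 (M a3 (L l94 (F (L l272 (L l292 (T t7086 (L l56 (L l339 (L l483 (T t761 (K a80 (M a95 (F (L l272 (L l292 (T t7086 (L l56 (L l339 (L l483 (T t761 N))))))))) (K a95 (M a80 (F (L l272 (L l292 (T t7087 (L l66 (L l339 (L l469 (L l483 (T t759 N)))))))))) N)))))))))))) (K a80 (M a95 (F (T t2304 (L l116 (L l347 (L l375 (T t2305 (L l26 (L l458 (L l480 (T t3885 (L l458 (T t7085 (K a192 (M a48 (F (L l236 (L l272 (T t7088 (L l28 (L l514 (T t443 N)))))))) N)))))))))))))) (K a95 (M a80 (F (T t2304 (L l89 (T t2526 N))))) N))))))))))))))⟩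
def e0_63_106__90_42_52 : Ent 4 := ⟨[a0, a63, a106], [a90, a42, a86], (M a48 (L l92 (F (T t309 (L l351 (L l375 (L l483 (T t551 (L l28 (T t579 (K a82 (M a94 (F (T t304 (L l28 (T t579 (L l351 (L l375 (L l453 (L l483 (T t551 N)))))))))) (K a94 (M a82 (F (T t304 (L l28 (T t579 (L l351 (L l375 (L l483 (T t551 N))))))))) N))))))))))))⟩
def e0_63_106__90_42_53 : Ent 4 := ⟨[a0, a63, a106], [a90, a42, a87], (M a48 (F (T t309 (L l375 (L l483 (T t551 (L l28 (L l367 (T t579 N)))))))))⟩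
def e0_63_106__90_42_54 : Ent 4 := ⟨[a0, a63, a106], [a90, a42, a91], (M a48 (L l88 (F (T t309 (L l375 (L l483 (T t551 (L l28 (T t579 (K a88 (M a89 (F (T t304 (L l128 (T t6716 N))))) (K a89 (M a88 (F (T t304 (L l28 (T t579 (L l371 (L l375 (L l483 (T t551 N))))))))) N)))))))))))⟩
def e0_63_106__90_42_55 : Ent 4 := ⟨[a0, a63, a106], [a90, a42, a95], (M a48 (L l94 (F (T t309 (L l375 (L l483 (T t551 (L l28 (L l361 (T t579 (K a80 (M a85 (F (L l116 (T t3095 (L l340 (T t309 N)))))) (K a85 (M a80 (F (T t4032 (L l54 (T t777 (L l151 (L l469 (T t3329 N)))))))) N))))))))))))⟩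
def e0_63_106__90_42_56 : Ent 4 := ⟨[a0, a63, a106], [a90, a42, a96], (M a12 (F (T t2414 (L l56 (L l116 (T t2415 (L l116 (L l375 (T t2305 N)))))))))⟩
def e0_63_106__90_42_57 : Ent 4 := ⟨[a0, a63, a106], [a90, a42, a97], (M a48 (F (T t309 (L l96 (L l375 (L l483 (T t551 (L l28 (L l380 (T t579 N))))))))))⟩
def e0_63_106__90_42_58 : Ent 4 := ⟨[a0, a63, a106], [a90, a42, a98], (M a48 (F (T t304 (L l28 (L l120 (T t579 (L l96 (L l120 (L l375 (L l483 (T t551 N)))))))))))⟩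
def e0_63_106__90_42_59 : Ent 4 := ⟨[a0, a63, a106], [a90, a42, a99], (M a48 (F (T t309 (L l96 (L l375 (L l483 (T t551 (L l28 (T t579 N)))))))))⟩
def e0_63_106__90_42_60 : Ent 4 := ⟨[a0, a63, a106], [a90, a42, a101], (M a12 (L l151 (F (T t2304 (L l375 (L l491 (T t2305 (L l56 (T t2415 (K a112 (M a79 (F (T t2414 (L l94 (L l123 (L l375 (L l491 (T t7089 (L l56 (L l116 (T t2415 N))))))))))) (K a79 (M a112 (F (T t2414 (L l94 (L l123 (L l375 (L l491 (T t7090 (L l56 (L l84 (T t2415 N))))))))))) N)))))))))))⟩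
def e0_63_106__90_42_61 : Ent 4 := ⟨[a0, a63, a106], [a90, a42, a102], (M a48 (L l148 (F (T t309 (L l375 (L l483 (L l495 (T t551 (L l28 (T t579 (K a114 (M a78 (F (T t304 (L l28 (T t579 (L l375 (L l417 (L l483 (L l495 (T t551 N)))))))))) (K a78 (M a114 (F (T t304 (L l28 (T t579 (L l375 (L l483 (L l495 (T t551 N))))))))) N))))))))))))⟩
def e0_63_106__90_42_62 : Ent 4 := ⟨[a0, a63, a106], [a90, a42, a103], (M a48 (F (T t309 (L l375 (L l483 (T t551 (L l28 (T t579 N))))))))⟩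
def e0_63_106__90_42_63 : Ent 4 := ⟨[a0, a63, a106], [a90, a42, a107], (M a48 (F (T t309 (L l375 (L l483 (T t551 (L l28 (T t579 N))))))))⟩
def e0_63_106__90_42_64 : Ent 4 := ⟨[a0, a63, a106], [a90, a42, a111], (M a12 (F (T t2304 (L l375 (T t2305 (L l56 (T t2415 N)))))))⟩
def e0_63_106__90_42_65 : Ent 4 := ⟨[a0, a63, a106], [a90, a42, a112], (M a12 (L l151 (F (T t2304 (L l116 (L l375 (T t2305 (L l56 (L l116 (T t2415 (K a101 (M a79 (F (T t2414 (L l94 (L l123 (L l375 (L l491 (T t7089 (L l56 (L l116 (T t2415 N))))))))))) (K a79 (M a101 (F (T t2414 (L l114 (L l116 (L l462 (T t7091 N))))))) N))))))))))))⟩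
def e0_63_106__90_42_66 : Ent 4 := ⟨[a0, a63, a106], [a90, a42, a113], (M a48 (F (T t309 (L l375 (L l483 (T t551 (L l28 (T t579 N))))))))⟩
def e0_63_106__90_42_67 : Ent 4 := ⟨[a0, a63, a106], [a90, a42, a114], (M a48 (L l148 (F (T t309 (L l375 (L l417 (L l483 (T t551 (L l28 (T t579 (K a102 (M a78 (F (T t304 (L l28 (T t579 (L l375 (L l417 (L l483 (L l495 (T t551 N)))))))))) (K a78 (M a102 (F (T t304 (L l118 (T t6713 N))))) N))))))))))))⟩
def e0_63_106__90_42_68 : Ent 4 := ⟨[a0, a63, a106], [a90, a42, a115], (M a48 (F (T t309 (L l120 (L l375 (L l483 (T t551 (L l28 (L l120 (T t579 N))))))))))⟩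
def e0_63_106__90_42_69 : Ent 4 := ⟨[a0, a63, a106], [a90, a42, a117], (M a48 (F (L l419 (T t309 (L l375 (L l483 (T t551 (L l28 (L l419 (T t579 N))))))))))⟩
def e0_63_106__90_42_70 : Ent 4 := ⟨[a0, a63, a106], [a90, a42, a118], (M a48 (F (T t309 (L l375 (L l483 (T t551 (L l28 (T t579 N))))))))⟩
def e0_63_106__90_42_71 : Ent 4 := ⟨[a0, a63, a106], [a90, a42, a119], (M a48 (F (T t309 (L l375 (L l483 (T t551 (L l28 (T t579 N))))))))⟩
def e0_63_106__90_42_72 : Ent 4 := ⟨[a0, a63, a106], [a90, a42, a122], (M a48 (F (T t309 (L l375 (L l483 (T t551 (L l28 (T t579 N))))))))⟩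
def e0_63_106__90_42_73 : Ent 4 := ⟨[a0, a63, a106], [a90, a42, a123], (M a48 (F (T t309 (L l375 (L l483 (T t551 (L l28 (T t579 N))))))))⟩
def e0_63_106__90_42_74 : Ent 4 := ⟨[a0, a63, a106], [a90, a42, a127], (M a48 (F (T t309 (L l375 (L l483 (T t551 (L l28 (L l151 (T t6454 (L l28 (L l462 (T t6456 N))))))))))))⟩
def e0_63_106__90_42_75 : Ent 4 := ⟨[a0, a63, a106], [a90, a42, a128], (M a48 (F (T t304 (L l28 (T t579 (L l94 (L l192 (L l220 (L l375 (T t6480 (L l54 (L l160 (T t6481 N)))))))))))))⟩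
def e0_63_106__90_42_76 : Ent 4 := ⟨[a0, a63, a106], [a90, a42, a129], (M a48 (F (T t304 (L l28 (T t579 (L l217 (L l375 (L l483 (T t551 N)))))))))⟩
def e0_63_106__90_42_77 : Ent 4 := ⟨[a0, a63, a106], [a90, a42, a130], (M a48 (F (T t309 (L l375 (L l483 (T t551 (L l28 (T t579 N))))))))⟩
def e0_63_106__90_42_78 : Ent 4 := ⟨[a0, a63, a106], [a90, a42, a131], (M a48 (F (T t309 (L l197 (L l375 (L l483 (T t551 (L l28 (T t579 N)))))))))⟩
def e0_63_106__90_42_79 : Ent 4 := ⟨[a0, a63, a106], [a90, a42, a133], (M a48 (F (T t304 (L l28 (T t579 (L l199 (L l375 (L l483 (T t551 N)))))))))⟩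
def e0_63_106__90_42_80 : Ent 4 := ⟨[a0, a63, a106], [a90, a42, a134], (M a48 (F (T t309 (L l375 (L l483 (T t551 (L l28 (T t579 N))))))))⟩
def e0_63_106__90_42_81 : Ent 4 := ⟨[a0, a63, a106], [a90, a42, a135], (M a48 (F (T t309 (L l375 (L l483 (T t551 (L l28 (T t579 N))))))))⟩
def e0_63_106__90_42_82 : Ent 4 := ⟨[a0, a63, a106], [a90, a42, a138], (M a48 (F (L l318 (T t309 (L l375 (L l483 (T t551 (L l28 (L l318 (T t579 N))))))))))⟩
def e0_63_106__90_42_83 : Ent 4 := ⟨[a0, a63, a106], [a90, a42, a139], (M a48 (F (T t309 (L l375 (L l483 (T t551 (L l28 (T t579 N))))))))⟩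
def e0_63_106__90_42_84 : Ent 4 := ⟨[a0, a63, a106], [a90, a42, a143], (M a12 (F (T t2304 (L l155 (L l375 (T t2305 (L l56 (T t2415 N))))))))⟩
def e0_63_106__90_42_85 : Ent 4 := ⟨[a0, a63, a106], [a90, a42, a144], (M a12 (F (T t2414 (L l56 (T t2415 (L l170 (L l375 (T t2305 N))))))))⟩
def e0_63_106__90_42_86 : Ent 4 := ⟨[a0, a63, a106], [a90, a42, a145], (M a48 (F (T t304 (L l28 (T t579 (L l167 (L l375 (L l483 (T t551 N)))))))))⟩
def e0_63_106__90_42_87 : Ent 4 := ⟨[a0, a63, a106], [a90, a42, a146], (M a48 (F (T t304 (L l28 (T t579 (L l197 (L l375 (L l483 (T t551 N)))))))))⟩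
def e0_63_106__90_42_88 : Ent 4 := ⟨[a0, a63, a106], [a90, a42, a147], (M a48 (F (T t304 (L l28 (T t579 (L l375 (L l483 (T t551 N))))))))⟩
def e0_63_106__90_42_89 : Ent 4 := ⟨[a0, a63, a106], [a90, a42, a149], (M a89 (L l375 (F (L l202 (T t6716 (L l94 (L l202 (L l347 (T t6717 (L l26 (L l202 (T t6718 (L l26 (L l202 (L l220 (T t6719 (K a132 (M a12 (L l202 (L l375 (F (T t7092 (L l56 (T t2415 (K a208 (M a31 (L l202 (F (T t7092 (L l26 (L l28 (L l370 (T t1369 (K a166 (M a183 (L l480 (F (T t7093 (L l26 (L l28 (L l370 (T t1369 (K a242 (M a14 (F (T t7093 (T t7094 N)))) (K a14 (M a242 (F (T t7093 (L l28 (L l310 (L l458 (L l465 (T t7095 N)))))))) N)))))))))) (K a183 (Fr a166 a243 l482 (V t6543)) N)))))))))) (K a166 (M a183 (L l375 (L l480 (F (T t7093 (L l26 (L l310 (L l458 (T t7096 (L l156 (L l178 (L l220 (L l310 (L l458 (L l462 (T t7097 (K a208 (M a31 (L l480 (F (T t7093 (L l26 (L l28 (L l370 (T t1369 (K a242 (M a14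 (F (T t7093 (T t7094 N)))) (K a14 (M a242 (F (T t7093 (L l28 (L l310 (L l458 (L l465 (T t7095 N)))))))) N)))))))))) (K a242 (M a14 (L l375 (F (T t7093 (L l66 (L l444 (T t726 (K a208 (M a31 (F (T t7093 (T t7094 N)))) (K a31 (M a208 (F (T t7093 (L l66 (L l450 (T t727 N)))))) N))))))))) (K a14 (M a242 (L l375 (F (T t7093 (L l26 (L l60 (L l310 (L l458 (T t7096 (L l56 (L l156 (L l178 (L l220 (L l310 (L l458 (L l462 (T t7098 (K a208 (M a31 (F (T t7093 (L l28 (L l310 (L l458 (L l465 (T t7095 N)))))))) (K a31 (M a208 (F (T t7093 (L l156 (L l220 (L l310 (L l458 (T t7099 (L l56 (L l156 (L l178 (L l220 (L l310 (L l458 (L l462 (T t7098 N)))))))))))))))) N))))))))))))))))))) (K a31 (M a208 (L l480 (F (T t7093 (L l56 (L l156 (L l178 (L l220 (L l310 (L l458 (L l462 (T t7098 (L l178 (T t7100 (L l310 (L l458 (T t7101 (K a242 (M a14 (F (T t7093 (L l66 (L l450 (T t727 N)))))) (K a14 (M a242 (F (T t7093 (L l156 (L l220 (L l310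 (L l458 (T t7099 (L l56 (L l156 (L l178 (L l220 (L l310 (L l458 (L l462 (T t7098 N)))))))))))))))) N))))))))))))))))))) N)))))))))))))))))))) (K a183 (Fr a166 a243 l482 (V t6543)) (K a31 (M a208 (L l202 (F (T t7092 (L l13 (L l56 (T t2415 (K a166 (M a183 (L l480 (F (T t7093 (L l56 (L l156 (L l178 (L l220 (L l310 (L l458 (L l462 (T t7098 (L l178 (T t7100 (L l310 (L l458 (T t7101 (K a242 (M a14 (F (T t7093 (L l66 (L l450 (T t727 N)))))) (K a14 (M a242 (F (T t7093 (L l156 (L l220 (L l310 (L l458 (T t7099 (L l56 (L l156 (L l178 (L l220 (L l310 (L l458 (L l462 (T t7098 N)))))))))))))))) N))))))))))))))))))) (K a183 (Fr a166 a243 l482 (V t6543)) N))))))))) N))))))))))) (K a72 (M a85 (L l375 (F (L l80 (T t3095 (L l334 (T t6263 (L l26 (L l334 (T t6721 (L l220 (T t6722 (K a208 (M a31 (F (L l80 (T t3095 (L l202 (L l480 (T t7102 (L l220 (L l238 (T t6722 (L l26 (L l238 (L l334 (T t6721 N)))))))))))))) (K a31 (M a208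 (F (T t7103 (L l18 (L l220 (T t7104 (L l26 (L l334 (T t6721 N))))))))) N)))))))))))))) (K a166 (M a204 (L l202 (L l375 (L l480 (F (L l220 (T t7105 (L l56 (L l167 (T t7106 (L l167 (T t6655 (K a208 (M a31 (L l202 (L l480 (F (L l220 (T t7105 (L l28 (L l242 (T t4441 (K a132 (M a183 (L l480 (F (T t7093 (L l28 (L l242 (T t4441 (K a242 (M a14 (F (T t7093 (L l28 (L l242 (T t4441 N)))))) (K a14 (M a242 (F (T t7093 (L l28 (L l242 (T t4441 N)))))) N))))))))) (K a242 (M a14 (L l202 (F (L l220 (T t7105 (L l28 (L l242 (T t4441 (K a132 (M a183 (F (T t7093 (L l28 (L l242 (T t4441 N)))))) (K a183 (M a132 (F (L l458 (T t7107 (L l28 (L l242 (T t4441 N))))))) N)))))))))) (K a14 (M a242 (L l202 (F (L l28 (L l242 (T t4441 (L l268 (L l458 (T t6725 (K a132 (M a183 (F (T t7093 (L l28 (L l242 (T t4441 N)))))) (K a183 (M a132 (F (L l226 (L l495 (T t7108 (L l28 (L l242 (T t4441 N)))))))) N))))))))))) (K a183 (M a132 (L l480 (F (L l458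 (T t7107 (L l28 (L l242 (T t4441 (K a242 (M a14 (F (L l458 (T t7107 (L l28 (L l242 (T t4441 N))))))) (K a14 (M a242 (F (L l226 (L l495 (T t7108 (L l28 (L l242 (T t4441 N)))))))) N)))))))))) N))))))))))))) (K a132 (M a183 (L l375 (L l480 (F (T t7093 (L l156 (L l167 (T t6655 (K a208 (M a31 (L l480 (F (T t7093 (L l28 (L l242 (T t4441 (K a242 (M a14 (F (T t7093 (L l28 (L l242 (T t4441 N)))))) (K a14 (M a242 (F (T t7093 (L l28 (L l242 (T t4441 N)))))) N))))))))) (K a242 (M a14 (L l375 (F (T t7093 (L l156 (L l167 (T t6655 (K a208 (M a31 (F (T t7093 (L l28 (L l242 (T t4441 N)))))) (K a31 (M a208 (F (T t7093 (L l156 (L l167 (L l178 (L l220 (L l363 (L l462 (T t6634 N)))))))))) N))))))))) (K a14 (M a242 (L l375 (F (T t7093 (L l156 (L l167 (L l178 (L l220 (L l462 (T t6634 (K a208 (M a31 (F (T t7093 (L l28 (L l242 (T t4441 N)))))) (K a31 (M a208 (F (T t7093 (L l156 (L l167 (L l363 (T t6655 N))))))) N)))))))))))) (K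 a31 (M a208 (L l480 (F (T t7093 (L l156 (L l167 (L l178 (L l220 (L l363 (L l462 (T t6634 (K a242 (M a14 (F (T t7093 (L l156 (L l167 (L l178 (L l220 (L l363 (L l462 (T t6634 N)))))))))) (K a14 (M a242 (F (T t7093 (L l156 (L l167 (L l363 (T t6655 N))))))) N))))))))))))) N)))))))))))) (K a242 (M a14 (L l202 (L l375 (F (L l220 (T t7105 (L l56 (L l167 (T t7106 (L l167 (T t6655 (K a208 (M a31 (L l202 (F (L l220 (T t7105 (L l28 (L l242 (T t4441 (K a132 (M a183 (F (T t7093 (L l28 (L l242 (T t4441 N)))))) (K a183 (M a132 (F (L l458 (T t7107 (L l28 (L l242 (T t4441 N))))))) N)))))))))) (K a132 (M a183 (L l375 (F (T t7093 (L l156 (L l167 (T t6655 (K a208 (M a31 (F (T t7093 (L l28 (L l242 (T t4441 N)))))) (K a31 (M a208 (F (T t7093 (L l156 (L l167 (L l178 (L l220 (L l363 (L l462 (T t6634 N)))))))))) N))))))))) (K a183 (M a132 (L l375 (F (L l226 (T t7109 (L l167 (L l421 (T t6655 (L l458 (T t7110 (L l167 (L l226 (T t7111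 (K a208 (M a31 (F (L l458 (T t7107 (L l28 (L l242 (T t4441 N))))))) (K a31 (M a208 (F (L l226 (T t7109 (L l167 (L l363 (L l421 (T t6655 (L l458 (T t7110 (L l167 (L l226 (L l363 (T t7111 N)))))))))))))) N))))))))))))))) (K a31 (M a208 (L l202 (F (L l458 (T t6725 (L l167 (L l363 (T t6655 (L l56 (L l167 (L l363 (T t7106 (K a132 (M a183 (F (T t7093 (L l156 (L l167 (L l178 (L l220 (L l363 (L l462 (T t6634 N)))))))))) (K a183 (M a132 (F (L l226 (T t7109 (L l167 (L l363 (L l421 (T t6655 (L l458 (T t7110 (L l167 (L l226 (L l363 (T t7111 N)))))))))))))) N)))))))))))))) N))))))))))))))) (K a14 (M a242 (L l202 (L l375 (F (L l458 (T t6725 (L l167 (T t6655 (L l56 (L l167 (T t7106 (K a208 (M a31 (L l202 (F (L l28 (L l242 (T t4441 (L l268 (L l458 (T t6725 (K a132 (M a183 (F (T t7093 (L l28 (L l242 (T t4441 N)))))) (K a183 (M a132 (F (L l226 (L l495 (T t7108 (L l28 (L l242 (T t4441 N)))))))) N))))))))))) (K a132 (M a183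 (L l375 (F (T t7093 (L l156 (L l167 (L l178 (L l220 (L l462 (T t6634 (K a208 (M a31 (F (T t7093 (L l28 (L l242 (T t4441 N)))))) (K a31 (M a208 (F (T t7093 (L l156 (L l167 (L l363 (T t6655 N))))))) N)))))))))))) (K a183 (M a132 (L l375 (F (L l3 (L l226 (T t7109 (L l167 (L l421 (T t6655 (L l458 (T t7110 (L l167 (L l226 (T t7111 (K a208 (M a31 (F (L l226 (L l495 (T t7108 (L l28 (L l242 (T t4441 N)))))))) (K a31 (M a208 (F (L l3 (L l226 (T t7109 (L l167 (L l363 (L l421 (T t6655 (L l458 (T t7110 (L l167 (L l226 (L l363 (T t7111 N))))))))))))))) N)))))))))))))))) (K a31 (M a208 (L l202 (F (L l458 (T t6725 (L l167 (L l363 (T t6655 (L l56 (L l167 (L l363 (L l384 (T t7112 (K a132 (M a183 (F (T t7093 (L l156 (L l167 (L l363 (T t6655 N))))))) (K a183 (M a132 (F (L l3 (L l226 (T t7109 (L l167 (L l363 (L l421 (T t6655 (L l458 (T t7110 (L l167 (L l226 (L l363 (T t7111 N))))))))))))))) N))))))))))))))) N)))))))))))))))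 (K a183 (M a132 (L l375 (L l480 (F (L l226 (T t7109 (L l167 (L l421 (T t6655 (L l458 (T t7110 (L l167 (L l226 (T t7111 (K a208 (M a31 (L l480 (F (L l458 (T t7107 (L l28 (L l242 (T t4441 (K a242 (M a14 (F (L l458 (T t7107 (L l28 (L l242 (T t4441 N))))))) (K a14 (M a242 (F (L l226 (L l495 (T t7108 (L l28 (L l242 (T t4441 N)))))))) N)))))))))) (K a242 (M a14 (L l375 (F (L l226 (T t7109 (L l167 (L l421 (T t6655 (L l458 (T t7110 (L l167 (L l226 (T t7111 (K a208 (M a31 (F (L l458 (T t7107 (L l28 (L l242 (T t4441 N))))))) (K a31 (M a208 (F (L l226 (T t7109 (L l167 (L l363 (L l421 (T t6655 (L l458 (T t7110 (L l167 (L l226 (L l363 (T t7111 N)))))))))))))) N))))))))))))))) (K a14 (M a242 (L l375 (F (L l3 (L l226 (T t7109 (L l167 (L l421 (T t6655 (L l458 (T t7110 (L l167 (L l226 (T t7111 (K a208 (M a31 (F (L l226 (L l495 (T t7108 (L l28 (L l242 (T t4441 N)))))))) (K a31 (M a208 (F (L l3 (L l226 (T t7109 (L l167 (L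 l363 (L l421 (T t6655 (L l458 (T t7110 (L l167 (L l226 (L l363 (T t7111 N))))))))))))))) N)))))))))))))))) (K a31 (M a208 (L l480 (F (L l226 (T t7109 (L l167 (L l363 (L l421 (T t6655 (L l458 (T t7110 (L l167 (L l226 (L l363 (T t7111 (K a242 (M a14 (F (L l226 (T t7109 (L l167 (L l363 (L l421 (T t6655 (L l458 (T t7110 (L l167 (L l226 (L l363 (T t7111 N)))))))))))))) (K a14 (M a242 (F (L l3 (L l226 (T t7109 (L l167 (L l363 (L l421 (T t6655 (L l458 (T t7110 (L l167 (L l226 (L l363 (T t7111 N))))))))))))))) N))))))))))))))))) N)))))))))))))))))) (K a31 (M a208 (L l202 (L l480 (F (L l458 (T t6725 (L l167 (L l363 (T t6655 (L l56 (L l167 (L l363 (T t7106 (K a132 (M a183 (L l480 (F (T t7093 (L l156 (L l167 (L l178 (L l220 (L l363 (L l462 (T t6634 (K a242 (M a14 (F (T t7093 (L l156 (L l167 (L l178 (L l220 (L l363 (L l462 (T t6634 N)))))))))) (K a14 (M a242 (F (T t7093 (L l156 (L l167 (L l363 (T t6655 N))))))) N)))))))))))))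 (K a242 (M a14 (L l202 (F (L l458 (T t6725 (L l167 (L l363 (T t6655 (L l56 (L l167 (L l363 (T t7106 (K a132 (M a183 (F (T t7093 (L l156 (L l167 (L l178 (L l220 (L l363 (L l462 (T t6634 N)))))))))) (K a183 (M a132 (F (L l226 (T t7109 (L l167 (L l363 (L l421 (T t6655 (L l458 (T t7110 (L l167 (L l226 (L l363 (T t7111 N)))))))))))))) N)))))))))))))) (K a14 (M a242 (L l202 (F (L l458 (T t6725 (L l167 (L l363 (T t6655 (L l56 (L l167 (L l363 (L l384 (T t7112 (K a132 (M a183 (F (T t7093 (L l156 (L l167 (L l363 (T t6655 N))))))) (K a183 (M a132 (F (L l3 (L l226 (T t7109 (L l167 (L l363 (L l421 (T t6655 (L l458 (T t7110 (L l167 (L l226 (L l363 (T t7111 N))))))))))))))) N))))))))))))))) (K a183 (M a132 (L l480 (F (L l226 (T t7109 (L l167 (L l363 (L l421 (T t6655 (L l458 (T t7110 (L l167 (L l226 (L l363 (T t7111 (K a242 (M a14 (F (L l226 (T t7109 (L l167 (L l363 (L l421 (T t6655 (L l458 (T t7110 (L l167 (L l226 (L l363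 (T t7111 N)))))))))))))) (K a14 (M a242 (F (L l3 (L l226 (T t7109 (L l167 (L l363 (L l421 (T t6655 (L l458 (T t7110 (L l167 (L l226 (L l363 (T t7111 N))))))))))))))) N))))))))))))))))) N))))))))))))))))) N)))))))))))))))))) (K a243 (M a12 (L l375 (F (T t7113 (L l56 (L l265 (L l272 (T t2415 (L l220 (L l462 (T t7097 (L l202 (L l220 (T t7114 (K a208 (M a31 (F (T t7113 (L l26 (L l28 (L l370 (L l446 (T t1369 N)))))))) (K a31 (M a208 (F (L l220 (L l462 (T t7097 (L l13 (L l202 (T t7115 (L l13 (L l56 (L l265 (L l272 (T t2415 N))))))))))))) N)))))))))))))))) (K a183 (M a64 (L l202 (L l375 (F (T t7028 (L l56 (L l220 (L l462 (T t7020 (L l220 (T t7116 (K a208 (M a31 (L l202 (F (T t7028 (L l28 (L l151 (L l199 (L l220 (T t7117 (K a132 (M a166 (F (T t7118 (L l94 (L l310 (L l347 (T t7019 N))))))) (K a166 (M a132 (L l480 (F (T t7028 (L l28 (L l151 (L l199 (L l220 (T t7117 (K a242 (M a14 (F (T t7028 (L l28 (L l66 (L l450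 (T t7119 N))))))) (K a14 (M a242 (F (T t7028 (L l28 (L l151 (L l199 (L l220 (T t7117 N)))))))) N))))))))))) N))))))))))) (K a132 (M a166 (L l375 (F (T t7118 (L l148 (L l495 (T t7120 (K a208 (M a31 (F (T t7118 (L l94 (L l310 (L l347 (T t7019 N))))))) (K a31 (M a208 (F (T t7118 (L l148 (L l310 (L l495 (T t7023 N))))))) N))))))))) (K a166 (M a132 (L l375 (L l480 (F (L l220 (T t7121 (T t7028 (L l220 (T t7122 (T t7123 (K a208 (M a31 (L l480 (F (T t7028 (L l28 (L l151 (L l199 (L l220 (T t7117 (K a242 (M a14 (F (T t7028 (L l28 (L l66 (L l450 (T t7119 N))))))) (K a14 (M a242 (F (T t7028 (L l28 (L l151 (L l199 (L l220 (T t7117 N)))))))) N))))))))))) (K a242 (M a14 (L l375 (F (L l220 (T t7121 (T t7028 (L l220 (T t7122 (L l258 (L l270 (T t7123 (K a208 (M a31 (F (T t7028 (L l28 (L l66 (L l450 (T t7119 N))))))) (K a31 (M a208 (F (T t7028 (L l18 (L l220 (T t7040 N)))))) N))))))))))))) (K a14 (M a242 (L l375 (F (L l220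 (T t7121 (T t7028 (L l3 (L l220 (T t7122 (T t7123 (K a208 (M a31 (F (T t7028 (L l28 (L l151 (L l199 (L l220 (T t7117 N)))))))) (K a31 (M a208 (F (T t7028 (L l18 (L l220 (T t7040 N)))))) N)))))))))))) (K a31 (M a208 (L l480 (F (T t7028 (L l18 (L l220 (T t7040 (K a242 (M a14 (F (T t7028 (L l18 (L l220 (T t7040 N)))))) (K a14 (M a242 (F (T t7028 (L l18 (L l220 (T t7040 N)))))) N))))))))) N)))))))))))))) (K a31 (M a208 (L l202 (F (T t7028 (L l151 (L l220 (T t7038 (K a132 (M a166 (F (T t7118 (L l148 (L l310 (L l495 (T t7023 N))))))) (K a166 (M a132 (L l480 (F (T t7028 (L l18 (L l220 (T t7040 (K a242 (M a14 (F (T t7028 (L l18 (L l220 (T t7040 N)))))) (K a14 (M a242 (F (T t7028 (L l18 (L l220 (T t7040 N)))))) N))))))))) N))))))))) N))))))))))))))) (K a123 (M a85 (L l375 (F (T t3095 (T t6263 (L l26 (T t6721 (L l113 (L l220 (T t6722 (K a208 (M a31 (F (T t3095 (L l202 (L l480 (T t7102 (L l113 (L l220 (L l238 (T t6722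 (L l26 (L l238 (T t6721 N))))))))))))) (K a31 (M a208 (F (T t6263 (L l18 (L l113 (L l220 (T t7104 (L l26 (T t6721 N))))))))) N)))))))))))) (K a208 (M a31 (F (L l202 (T t6716 (L l28 (L l202 (L l238 (T t7124 (K a132 (M a166 (F (L l334 (T t7125 (L l133 (L l483 (L l515 (T t7126 N)))))))) (K a72 (M a64 (F (T t7127 (L l28 (L l151 (L l199 (L l220 (T t7117 (L l26 (L l334 (T t7128 N))))))))))) (K a166 (M a64 (L l202 (L l480 (F (T t7028 (L l28 (L l151 (L l199 (L l220 (T t7117 (K a132 (M a183 (L l480 (F (T t7093 (L l28 (L l151 (L l153 (L l156 (L l199 (L l220 (T t7117 (K a242 (M a14 (F (T t7093 (L l28 (L l151 (L l153 (L l156 (L l199 (L l220 (T t7117 N)))))))))) (K a14 (M a242 (F (T t7093 (L l28 (L l151 (L l153 (L l156 (L l199 (L l220 (T t7117 N)))))))))) N))))))))))))) (K a242 (M a14 (L l202 (F (T t7028 (L l28 (L l66 (L l450 (T t7119 (K a132 (M a183 (F (T t7093 (L l28 (L l151 (L l153 (L l156 (L l199 (L l220 (T t7117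 N)))))))))) (K a183 (M a132 (F (T t7028 (L l28 (L l66 (L l450 (T t7119 N))))))) N)))))))))) (K a14 (M a242 (L l202 (F (T t7028 (L l28 (L l151 (L l199 (L l220 (T t7117 (K a132 (M a183 (F (T t7093 (L l28 (L l151 (L l153 (L l156 (L l199 (L l220 (T t7117 N)))))))))) (K a183 (M a132 (F (T t7028 (L l28 (L l151 (L l199 (L l220 (T t7117 N)))))))) N))))))))))) (K a183 (M a132 (L l480 (F (T t7028 (L l28 (L l151 (L l199 (L l220 (T t7117 (K a242 (M a14 (F (T t7028 (L l28 (L l66 (L l450 (T t7119 N))))))) (K a14 (M a242 (F (T t7028 (L l28 (L l151 (L l199 (L l220 (T t7117 N)))))))) N))))))))))) N)))))))))))))) (K a243 (M a64 (F (T t7129 (L l28 (L l151 (L l199 (L l220 (L l301 (T t7117 N))))))))) (K a183 (M a166 (F (T t7130 (L l133 (L l268 (L l483 (L l515 (T t7131 N)))))))) (K a123 (M a64 (F (L l113 (T t7132 (L l28 (L l151 (L l199 (L l220 (T t7117 (L l26 (L l113 (T t7128 N)))))))))))) N)))))))))))))) (K a31 (M a208 (F (L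 l202 (T t6716 (L l94 (L l202 (L l347 (T t6717 (L l26 (L l202 (T t6718 (L l26 (L l202 (L l220 (T t6719 (K a132 (M a64 (L l202 (F (T t7129 (L l151 (L l156 (L l220 (T t7038 (K a166 (M a183 (L l480 (F (T t7093 (L l151 (L l156 (L l220 (T t7038 (K a242 (M a14 (F (T t7093 (L l151 (L l156 (L l220 (T t7038 N))))))) (K a14 (M a242 (F (T t7093 (L l18 (L l156 (L l220 (T t7040 N))))))) N)))))))))) (K a183 (M a166 (F (T t7118 (L l148 (L l310 (L l495 (T t7023 N))))))) N)))))))))) (K a72 (M a64 (F (L l151 (L l220 (T t7038 (L l202 (L l480 (T t7133 (L l26 (L l334 (T t7128 N))))))))))) (K a166 (M a64 (L l202 (L l480 (F (T t7028 (L l151 (L l220 (T t7038 (K a132 (M a183 (L l480 (F (T t7093 (L l151 (L l156 (L l220 (T t7038 (K a242 (M a14 (F (T t7093 (L l151 (L l156 (L l220 (T t7038 N))))))) (K a14 (M a242 (F (T t7093 (L l18 (L l156 (L l220 (T t7040 N))))))) N)))))))))) (K a242 (M a14 (L l202 (F (T t7028 (L l151 (L l220 (T t7038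 (K a132 (M a183 (F (T t7093 (L l151 (L l156 (L l220 (T t7038 N))))))) (K a183 (M a132 (F (T t7028 (L l18 (L l220 (T t7040 N)))))) N))))))))) (K a14 (M a242 (L l202 (F (T t7028 (L l18 (L l220 (T t7040 (K a132 (M a183 (F (T t7093 (L l18 (L l156 (L l220 (T t7040 N))))))) (K a183 (M a132 (F (T t7028 (L l18 (L l220 (T t7040 N)))))) N))))))))) (K a183 (M a132 (L l480 (F (T t7028 (L l18 (L l220 (T t7040 (K a242 (M a14 (F (T t7028 (L l18 (L l220 (T t7040 N)))))) (K a14 (M a242 (F (T t7028 (L l18 (L l220 (T t7040 N)))))) N))))))))) N)))))))))))) (K a243 (M a64 (F (T t7129 (L l151 (L l220 (T t7038 N)))))) (K a183 (M a64 (L l202 (F (T t7028 (L l151 (L l220 (T t7038 (K a132 (M a166 (F (T t7118 (L l148 (L l310 (L l495 (T t7023 N))))))) (K a166 (M a132 (L l480 (F (T t7028 (L l18 (L l220 (T t7040 (K a242 (M a14 (F (T t7028 (L l18 (L l220 (T t7040 N)))))) (K a14 (M a242 (F (T t7028 (L l18 (L l220 (T t7040 N)))))) N)))))))))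 N))))))))) (K a123 (M a64 (F (L l151 (L l220 (T t7038 (L l113 (T t7132 (L l26 (L l113 (T t7128 N)))))))))) N))))))))))))))))))))) N))))))))))))))))))))))))⟩
def e0_63_106__90_42_90 : Ent 4 := ⟨[a0, a63, a106], [a90, a42, a150], (M a48 (L l372 (F (T t309 (L l163 (L l375 (L l483 (T t551 (L l28 (T t579 (K a210 (M a30 (F (T t304 (L l28 (T t579 (L l163 (L l273 (L l375 (L l483 (T t551 N)))))))))) (K a30 (M a210 (F (T t304 (L l28 (T t579 (L l163 (L l375 (L l483 (T t551 N))))))))) N))))))))))))⟩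
def e0_63_106__90_42_91 : Ent 4 := ⟨[a0, a63, a106], [a90, a42, a151], (M a48 (F (T t309 (L l163 (L l375 (L l483 (T t551 (L l28 (T t579 N)))))))))⟩
def e0_63_106__90_42_92 : Ent 4 := ⟨[a0, a63, a106], [a90, a42, a154], (M a12 (L l354 (F (T t2304 (L l170 (L l375 (T t2305 (L l56 (T t2415 (K a26 (M a218 (L l54 (F (T t2414 (L l56 (T t2415 (L l170 (L l375 (T t2305 (K a10 (M a58 (L l462 (F (T t2414 (L l57 (L l500 (T t3884 (K a170 (M a250 (L l206 (F (T t2304 (L l28 (L l404 (T t2417 (K a138 (Fr a186 a122 l426 (V t2414)) (K a186 (M a138 (F (T t2304 (L l218 (L l500 (T t2420 N)))))) N))))))))) (K a250 (M a170 (F (T t3207 (L l28 (T t2417 N))))) N))))))))) (K a58 (M a10 (F (T t2304 (L l57 (L l66 (L l465 (T t6765 N))))))) N))))))))))) (K a218 (M a26 (F (T t2414 (L l56 (T t2415 (L l170 (L l375 (T t2305 N)))))))) N)))))))))))⟩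
def e0_63_106__90_42_93 : Ent 4 := ⟨[a0, a63, a106], [a90, a42, a155], (M a48 (F (T t309 (L l375 (L l483 (T t551 (L l28 (L l367 (T t579 N)))))))))⟩
def e0_63_106__90_42_94 : Ent 4 := ⟨[a0, a63, a106], [a90, a42, a159], (M a12 (F (T t2304 (L l170 (L l375 (T t2305 (L l56 (T t2415 N))))))))⟩
def e0_63_106__90_42_95 : Ent 4 := ⟨[a0, a63, a106], [a90, a42, a160], (M a12 (F (T t2304 (L l375 (T t2305 (L l56 (T t2415 N)))))))⟩
def e0_63_106__90_42_96 : Ent 4 := ⟨[a0, a63, a106], [a90, a42, a161], (M a48 (F (T t309 (L l197 (L l375 (L l453 (L l483 (T t551 (L l28 (T t579 N))))))))))⟩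
def e0_63_106__90_42_97 : Ent 4 := ⟨[a0, a63, a106], [a90, a42, a162], (M a48 (F (T t309 (L l375 (L l483 (T t551 (L l28 (L l380 (T t579 N)))))))))⟩
def e0_63_106__90_42_98 : Ent 4 := ⟨[a0, a63, a106], [a90, a42, a163], (M a48 (F (T t309 (L l375 (L l483 (T t551 (L l28 (T t579 N))))))))⟩
def e0_63_106__90_42_99 : Ent 4 := ⟨[a0, a63, a106], [a90, a42, a165], (M a12 (L l483 (F (T t2304 (L l199 (L l375 (T t2305 (L l56 (T t2415 (K a240 (M a15 (F (L l258 (T t2414 (L l453 (L l455 (L l465 (T t2591 N)))))))) (K a15 (M a240 (F (L l56 (T t2415 (L l63 (L l88 (L l199 (L l203 (L l375 (T t7134 N)))))))))) N)))))))))))⟩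
def e0_63_106__90_42_100 : Ent 4 := ⟨[a0, a63, a106], [a90, a42, a166], (M a48 (L l480 (F (T t309 (L l202 (L l375 (L l483 (T t551 (L l28 (T t579 (K a242 (M a14 (F (T t304 (L l28 (T t579 (L l202 (L l258 (L l375 (L l483 (T t551 N)))))))))) (K a14 (M a242 (F (T t304 (L l28 (T t579 (L l202 (L l375 (L l483 (T t551 N))))))))) N))))))))))))⟩
def e0_63_106__90_42_101 : Ent 4 := ⟨[a0, a63, a106], [a90, a42, a167], (M a48 (F (T t309 (L l375 (L l483 (T t551 (L l28 (T t579 N))))))))⟩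
def e0_63_106__90_42_102 : Ent 4 := ⟨[a0, a63, a106], [a90, a42, a170], (M a12 (L l462 (F (T t2304 (L l220 (L l375 (T t2305 (L l56 (L l178 (L l220 (L l464 (T t2306 (L l56 (L l178 (L l464 (T t2307 (K a10 (M a250 (L l54 (F (T t2414 (L l220 (L l375 (T t2305 (L l2 (L l56 (L l178 (L l220 (L l464 (T t2306 (L l2 (L l56 (L l178 (L l464 (T t2307 (K a26 (M a58 (L l354 (F (T t2304 (L l12 (L l18 (T t5741 (K a154 (M a218 (L l206 (F (T t2304 (L l28 (L l404 (T t2417 (K a138 (Fr a186 a122 l426 (V t2414)) (K a186 (M a138 (F (T t2304 (L l218 (L l500 (T t2420 N)))))) N))))))))) (K a218 (Fr a154 a202 l498 (V t4118)) N))))))))) (K a58 (M a26 (F (T t2414 (L l220 (L l375 (T t2305 (L l2 (L l56 (L l178 (L l220 (L l464 (T t2306 (L l2 (L l56 (L l178 (L l464 (T t2307 N))))))))))))))))) N)))))))))))))))))))) (K a250 (M a10 (F (T t2304 (L l66 (L l465 (L l474 (T t6765 N))))))) N))))))))))))))))))⟩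
def e0_63_106__90_42_103 : Ent 4 := ⟨[a0, a63, a106], [a90, a42, a171], (M a48 (F (T t309 (L l375 (L l483 (T t551 (L l28 (T t579 N))))))))⟩
def e0_63_106__90_42_104 : Ent 4 := ⟨[a0, a63, a106], [a90, a42, a175], (M a48 (F (T t309 (L l375 (L l483 (T t551 (L l28 (T t579 N))))))))⟩
def e0_63_106__90_42_105 : Ent 4 := ⟨[a0, a63, a106], [a90, a42, a176], (M a12 (F (T t2304 (L l222 (L l375 (T t2305 (L l56 (T t2415 N))))))))⟩
def e0_63_106__90_42_106 : Ent 4 := ⟨[a0, a63, a106], [a90, a42, a177], (M a48 (F (T t309 (L l182 (L l375 (L l417 (L l483 (T t551 (L l28 (T t579 N))))))))))⟩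
def e0_63_106__90_42_107 : Ent 4 := ⟨[a0, a63, a106], [a90, a42, a178], (M a48 (F (T t309 (L l182 (L l375 (L l483 (T t551 (L l28 (T t579 N)))))))))⟩
def e0_63_106__90_42_108 : Ent 4 := ⟨[a0, a63, a106], [a90, a42, a179], (M a48 (F (T t309 (L l182 (L l375 (L l483 (T t551 (L l28 (T t579 N)))))))))⟩
def e0_63_106__90_42_109 : Ent 4 := ⟨[a0, a63, a106], [a90, a42, a181], (M a48 (F (L l419 (T t309 (L l190 (L l199 (L l375 (L l483 (T t551 (L l28 (L l419 (T t579 N))))))))))))⟩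
def e0_63_106__90_42_110 : Ent 4 := ⟨[a0, a63, a106], [a90, a42, a182], (M a48 (F (T t309 (L l375 (L l483 (T t551 (L l28 (T t579 N))))))))⟩
def e0_63_106__90_42_111 : Ent 4 := ⟨[a0, a63, a106], [a90, a42, a183], (M a48 (F (T t309 (L l202 (L l375 (L l483 (T t551 (L l28 (T t579 N)))))))))⟩
def e0_63_106__90_42_112 : Ent 4 := ⟨[a0, a63, a106], [a90, a42, a186], (M a48 (F (T t309 (L l190 (L l375 (L l483 (T t551 (L l28 (T t579 N)))))))))⟩
def e0_63_106__90_42_113 : Ent 4 := ⟨[a0, a63, a106], [a90, a42, a187], (M a48 (F (T t309 (L l375 (L l483 (T t551 (L l28 (T t579 N))))))))⟩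
def e0_63_106__90_42_114 : Ent 4 := ⟨[a0, a63, a106], [a90, a42, a191], (M a48 (F (T t309 (L l190 (L l220 (L l375 (L l483 (T t551 (L l28 (L l151 (T t6498 (L l28 (T t6499 N)))))))))))))⟩
def e0_63_106__90_42_115 : Ent 4 := ⟨[a0, a63, a106], [a90, a42, a192], (M a204 (F (L l489 (T t6655 (L l272 (L l357 (L l462 (L l489 (T t6656 (L l296 (L l357 (L l489 (T t6657 (L l56 (L l357 (L l489 (T t6658 (L l489 (T t6659 (K a145 (M a102 (L l489 (F (T t6641 (L l462 (T t6660 (K a98 (Fr a51 a153 l513 (V t6661)) (K a51 (Fr a98 a110 l102 (V t6662)) N)))))))) (K a85 (M a48 (L l94 (F (L l292 (T t2046 (L l123 (L l151 (L l236 (L l489 (T t6732 (K a80 (M a95 (F (L l292 (T t2046 (L l123 (L l151 (L l236 (L l489 (T t6732 N))))))))) (K a95 (M a80 (F (L l292 (T t2046 (L l151 (L l296 (L l469 (T t3329 N)))))))) N)))))))))))) (K a157 (M a48 (F (T t5482 (L l28 (L l236 (T t579 (L l148 (L l236 (T t6651 N))))))))) (K a98 (M a153 (L l489 (F (T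 t6645 (L l296 (T t6668 (L l26 (L l120 (L l378 (T t6669 (K a145 (Fr a51 a102 l513 (V t6670)) (K a51 (M a145 (F (T t6671 (L l56 (L l272 (L l334 (L l378 (T t6672 N)))))))) N)))))))))))) (K a102 (M a252 (L l148 (F (L l484 (T t6673 (L l339 (L l483 (T t7135 (L l309 (T t6675 (K a114 (M a78 (F (T t7136 (L l484 (T t6673 N))))) (K a78 (M a114 (F (L l484 (T t6673 (L l136 (L l339 (L l375 (L l405 (L l483 (T t7137 (L l82 (L l309 (L l402 (L l462 (T t6476 N))))))))))))))) N)))))))))))) (K a110 (M a48 (F (T t6676 (L l28 (L l236 (T t579 (L l148 (L l236 (T t6651 N))))))))) (K a51 (M a48 (L l489 (F (T t5482 (L l151 (L l236 (T t6677 (K a145 (M a98 (F (T t6678 (L l292 (L l441 (T t1315 N)))))) (K a98 (M a145 (F (T t5482 (L l28 (L l120 (L l236 (T t579 (L l375 (L l511 (T t6679 N)))))))))) N))))))))) N))))))))))))))))))))))))))⟩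
def e0_63_106__90_42_116 : Ent 4 := ⟨[a0, a63, a106], [a90, a42, a193], (M a48 (F (T t304 (L l28 (T t579 (L l375 (L l483 (L l515 (T t551 N)))))))))⟩
def e0_63_106__90_42_117 : Ent 4 := ⟨[a0, a63, a106], [a90, a42, a194], (M a48 (F (L l234 (T t304 (L l375 (L l483 (T t551 (L l28 (L l234 (T t579 N))))))))))⟩
def e0_63_106__90_42_118 : Ent 4 := ⟨[a0, a63, a106], [a90, a42, a195], (M a48 (F (L l228 (T t309 (L l273 (L l375 (L l483 (T t551 (L l28 (T t579 N))))))))))⟩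
def e0_63_106__90_42_119 : Ent 4 := ⟨[a0, a63, a106], [a90, a42, a197], (M a12 (F (T t2414 (L l56 (T t2415 (L l375 (L l491 (T t2305 N))))))))⟩
def e0_63_106__90_42_120 : Ent 4 := ⟨[a0, a63, a106], [a90, a42, a198], (M a48 (F (L l234 (T t309 (L l375 (L l483 (T t551 (L l28 (L l234 (T t579 N))))))))))⟩
def e0_63_106__90_42_121 : Ent 4 := ⟨[a0, a63, a106], [a90, a42, a199], (M a48 (F (T t309 (L l375 (L l483 (T t551 (L l28 (T t579 N))))))))⟩
def e0_63_106__90_42_122 : Ent 4 := ⟨[a0, a63, a106], [a90, a42, a202], (M a12 (F (T t2414 (L l56 (T t2415 (L l375 (T t2305 N)))))))⟩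
def e0_63_106__90_42_123 : Ent 4 := ⟨[a0, a63, a106], [a90, a42, a203], (M a48 (F (L l230 (T t309 (L l375 (L l483 (T t551 (L l28 (L l230 (T t579 N))))))))))⟩
def e0_63_106__90_42_124 : Ent 4 := ⟨[a0, a63, a106], [a90, a42, a207], (M a12 (F (L l236 (T t2304 (L l231 (L l375 (T t2305 (L l56 (T t2415 N)))))))))⟩
def e0_63_106__90_42_125 : Ent 4 := ⟨[a0, a63, a106], [a90, a42, a208], (M a12 (L l375 (F (T t2414 (L l56 (T t2415 (L l26 (L l238 (L l268 (T t7138 (K a29 (M a31 (F (L l371 (T t2305 (L l28 (L l54 (L l462 (L l480 (T t7139 (L l28 (L l151 (L l371 (T t7140 N))))))))))))) (K a226 (Fr a149 a192 l519 (Fr a29 a46 l62 (Fr a89 a209 l371 (Fr a243 a166 l482 (V t6536))))) (K a46 (M a31 (L l26 (F (T t2305 (L l23 (L l28 (L l54 (L l60 (L l462 (L l480 (T t7139 (L l23 (L l28 (L l151 (T t7140 (K a34 (M a38 (F (T t2305 (L l23 (L l28 (L l42 (T t7142 N))))))) (K a38 (M a34 (F (T t2305 (L l21 (L l23 (L l28 (L l345 (T t7143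 N)))))))) N))))))))))))))))) (K a149 (M a31 (F (L l56 (L l371 (T t2415 (L l26 (L l28 (L l370 (T t1369 (L l28 (L l54 (L l462 (L l480 (T t7139 N)))))))))))))) (K a31 (Fr a149 a192 l519 (V t7144)) N)))))))))))))))⟩
def e0_63_106__90_42_126 : Ent 4 := ⟨[a0, a63, a106], [a90, a42, a209], (M a48 (F (T t304 (L l28 (T t579 (L l371 (L l375 (L l483 (T t551 N)))))))))⟩
def e0_63_106__90_42_127 : Ent 4 := ⟨[a0, a63, a106], [a90, a42, a210], (M a48 (L l372 (F (T t309 (L l273 (L l375 (L l483 (T t551 (L l28 (T t579 (K a150 (M a30 (F (T t304 (L l28 (T t579 (L l163 (L l273 (L l375 (L l483 (T t551 N)))))))))) (K a30 (M a150 (F (T t304 (L l22 (L l270 (T t6858 N)))))) N))))))))))))⟩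
def e0_63_106__90_42_128 : Ent 4 := ⟨[a0, a63, a106], [a90, a42, a211], (M a48 (F (T t309 (L l375 (L l483 (T t551 (L l28 (L l245 (T t579 N)))))))))⟩
def e0_63_106__90_42_129 : Ent 4 := ⟨[a0, a63, a106], [a90, a42, a213], (M a48 (F (T t304 (L l28 (L l246 (T t579 (L l347 (L l375 (L l483 (T t551 N))))))))))⟩
def e0_63_106__90_42_130 : Ent 4 := ⟨[a0, a63, a106], [a90, a42, a214], (M a48 (F (T t309 (L l375 (L l483 (T t551 (L l28 (T t579 N))))))))⟩
def e0_63_106__90_42_131 : Ent 4 := ⟨[a0, a63, a106], [a90, a42, a215], (M a48 (F (T t309 (L l375 (L l483 (T t551 (L l28 (L l245 (T t579 N)))))))))⟩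
def e0_63_106__90_42_132 : Ent 4 := ⟨[a0, a63, a106], [a90, a42, a218], (M a48 (L l354 (F (L l54 (T t777 (L l28 (L l246 (L l282 (T t579 (L l303 (L l375 (L l483 (T t551 (K a26 (M a154 (L l54 (F (T t6900 (L l151 (T t6955 (K a10 (Fr a58 a53 l38 (V t6955)) (K a58 (M a10 (F (T t4137 (L l28 (L l246 (L l303 (T t329 (L l28 (L l375 (T t2289 N)))))))))) N)))))))) (K a154 (M a26 (F (L l28 (T t4144 (L l368 (T t6458 (L l28 (L l170 (L l375 (L l462 (T t7145 (K a32 (Fr a15 a37 l75 (Fr a47 a31 l61 (V t7154))) N)))))))))))) N)))))))))))))))⟩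
def e0_63_106__90_42_133 : Ent 4 := ⟨[a0, a63, a106], [a90, a42, a219], (M a48 (F (T t309 (L l375 (L l483 (T t551 (L l28 (L l245 (T t579 N)))))))))⟩
def e0_63_106__90_42_134 : Ent 4 := ⟨[a0, a63, a106], [a90, a42, a223], (M a12 (F (T t2304 (L l375 (T t2305 (L l56 (T t2415 N)))))))⟩
def e0_63_106__90_42_135 : Ent 4 := ⟨[a0, a63, a106], [a90, a42, a224], (M a48 (F (L l268 (T t309 (L l28 (L l376 (T t579 (L l268 (L l375 (L l376 (L l483 (T t551 N))))))))))))⟩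
def e0_63_106__90_42_136 : Ent 4 := ⟨[a0, a63, a106], [a90, a42, a225], (M a48 (F (T t309 (L l273 (L l375 (L l483 (T t551 (L l28 (T t579 N)))))))))⟩
def e0_63_106__90_42_137 : Ent 4 := ⟨[a0, a63, a106], [a90, a42, a226], (M a48 (F (T t304 (L l28 (T t579 (L l375 (L l483 (T t551 N))))))))⟩
def e0_63_106__90_42_138 : Ent 4 := ⟨[a0, a63, a106], [a90, a42, a227], (M a48 (F (T t309 (L l375 (L l483 (T t551 (L l28 (L l380 (T t579 N)))))))))⟩
def e0_63_106__90_42_139 : Ent 4 := ⟨[a0, a63, a106], [a90, a42, a229], (M a48 (F (T t309 (L l28 (L l375 (T t2289 (L l28 (T t579 N))))))))⟩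
def e0_63_106__90_42_140 : Ent 4 := ⟨[a0, a63, a106], [a90, a42, a230], (M a48 (F (T t309 (L l375 (L l483 (T t551 (L l28 (T t579 N))))))))⟩
def e0_63_106__90_42_141 : Ent 4 := ⟨[a0, a63, a106], [a90, a42, a231], (M a48 (F (T t309 (L l375 (L l483 (T t551 (L l28 (T t579 N))))))))⟩
def e0_63_106__90_42_142 : Ent 4 := ⟨[a0, a63, a106], [a90, a42, a234], (M a48 (F (L l282 (T t304 (L l375 (L l483 (T t551 (L l28 (L l282 (T t579 N))))))))))⟩
def e0_63_106__90_42_143 : Ent 4 := ⟨[a0, a63, a106], [a90, a42, a235], (M a48 (F (T t309 (L l375 (L l483 (T t551 (L l28 (T t579 N))))))))⟩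
def e0_63_106__90_42_144 : Ent 4 := ⟨[a0, a63, a106], [a90, a42, a239], (M a48 (F (T t309 (L l375 (L l483 (T t551 (L l28 (L l289 (L l404 (T t579 N))))))))))⟩
def e0_63_106__90_42_145 : Ent 4 := ⟨[a0, a63, a106], [a90, a42, a240], (M a12 (L l483 (F (L l268 (T t2304 (L l56 (T t2415 (L l298 (L l375 (T t2305 (K a165 (M a15 (F (L l258 (T t2414 (L l453 (L l455 (L l465 (T t2591 N)))))))) (K a15 (M a165 (F (L l88 (T t2419 (L l298 (L l327 (L l375 (T t2305 (L l56 (T t2415 N)))))))))) N))))))))))))⟩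
def e0_63_106__90_42_146 : Ent 4 := ⟨[a0, a63, a106], [a90, a42, a241], (M a48 (F (T t309 (L l258 (L l375 (L l483 (T t551 (L l28 (T t579 N)))))))))⟩
def e0_63_106__90_42_147 : Ent 4 := ⟨[a0, a63, a106], [a90, a42, a242], (M a48 (L l480 (F (T t309 (L l258 (L l375 (L l483 (T t551 (L l28 (T t579 (K a166 (M a14 (F (T t304 (L l28 (T t579 (L l202 (L l258 (L l375 (L l483 (T t551 N)))))))))) (K a14 (M a166 (F (T t304 (L l56 (L l270 (T t6542 N)))))) N))))))))))))⟩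
def e0_63_106__90_42_148 : Ent 4 := ⟨[a0, a63, a106], [a90, a42, a243], (M a48 (F (L l272 (T t309 (L l258 (L l375 (L l483 (T t551 (L l28 (T t579 N))))))))))⟩
def e0_63_106__90_42_149 : Ent 4 := ⟨[a0, a63, a106], [a90, a42, a245], (M a48 (F (L l419 (T t309 (L l266 (L l375 (L l483 (T t551 (L l28 (L l419 (T t579 N)))))))))))⟩
def e0_63_106__90_42_150 : Ent 4 := ⟨[a0, a63, a106], [a90, a42, a246], (M a48 (F (T t309 (L l375 (L l483 (T t551 (L l28 (T t579 N))))))))⟩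
def e0_63_106__90_42_151 : Ent 4 := ⟨[a0, a63, a106], [a90, a42, a247], (M a48 (F (T t309 (L l375 (L l483 (T t551 (L l28 (T t579 N))))))))⟩
def e0_63_106__90_42_152 : Ent 4 := ⟨[a0, a63, a106], [a90, a42, a250], (M a48 (L l462 (F (L l282 (T t309 (L l266 (L l375 (L l483 (T t551 (L l28 (L l282 (T t579 (K a10 (M a170 (L l54 (F (T t3207 (L l266 (L l354 (T t3204 (L l151 (L l282 (L l318 (T t585 (K a26 (Fr a58 a53 l38 (V t3207)) (K a58 (M a26 (L l426 (F (L l28 (T t4144 (L l94 (T t6995 (K a122 (M a186 (F (T t6996 (L l28 (T t4144 N))))) (K a186 (M a122 (F (T t3207 (L l28 (T t4144 N))))) N))))))))) N))))))))))))) (K a170 (M a10 (F (L l426 (T t777 (L l220 (L l266 (L l375 (L l483 (T t551 (L l354 (L l375 (T t7147 (L l282 (L l354 (T t7148 N))))))))))))))) N))))))))))))))⟩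
def e0_63_106__90_42_153 : Ent 4 := ⟨[a0, a63, a106], [a90, a42, a251], (M a48 (F (T t309 (L l375 (L l483 (T t551 (L l28 (T t579 N))))))))⟩
def e0_63_106__90_42_154 : Ent 4 := ⟨[a0, a63, a106], [a90, a42, a255], (M a12 (F (L l296 (T t2304 (L l290 (L l375 (T t2305 (L l56 (L l88 (L l94 (L l439 (T t7149 (L l56 (L l265 (T t7150 N)))))))))))))))⟩
def b0_63_106__90_42 : Blk 4 := ⟨[0, 63, 106], [90, 42], [1, 2, 3, 5, 6, 7, 10, 11, 15, 16, 17, 18, 19, 21, 22, 23, 26, 27, 31, 32, 33, 34, 35, 37, 38, 39, 43, 47, 48, 49, 50, 51, 53, 54, 55, 58, 59, 64, 65, 66, 67, 69, 70, 71, 74, 75, 79, 80, 81, 82, 83, 85, 86, 87, 91, 95, 96, 97, 98, 99, 101, 102, 103, 107, 111, 112, 113, 114, 115, 117, 118, 119, 122, 123, 127, 128, 129, 130, 131, 133, 134, 135, 138, 139, 143, 144, 145, 146, 147, 149, 150, 151, 154, 155, 159, 160, 161, 162, 163, 165, 166, 167, 170, 171, 175, 176, 177, 178, 179, 181, 182, 183, 186, 187, 191, 192, 193,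 194, 195, 197, 198, 199, 202, 203, 207, 208, 209, 210, 211, 213, 214, 215, 218, 219, 223, 224, 225, 226, 227, 229, 230, 231, 234, 235, 239, 240, 241, 242, 243, 245, 246, 247, 250, 251, 255], [e0_63_106__90_42_0, e0_63_106__90_42_1, e0_63_106__90_42_2, e0_63_106__90_42_3, e0_63_106__90_42_4, e0_63_106__90_42_5, e0_63_106__90_42_6, e0_63_106__90_42_7, e0_63_106__90_42_8, e0_63_106__90_42_9, e0_63_106__90_42_10, e0_63_106__90_42_11, e0_63_106__90_42_12, e0_63_106__90_42_13, e0_63_106__90_42_14, e0_63_106__90_42_15, e0_63_106__90_42_16, e0_63_106__90_42_17, e0_63_106__90_42_18, e0_63_106__90_42_19, e0_63_106__90_42_20, e0_63_106__90_42_21, e0_63_106__90_42_22, e0_63_106__90_42_23, e0_63_106__90_42_24, e0_63_106__90_42_25, e0_63_106__90_42_26, e0_63_106__90_42_27, e0_63_106__90_42_28, e0_63_106__90_42_29, e0_63_106__90_42_30, e0_63_106__90_42_31, e0_63_106__90_42_32, e0_63_106__90_42_33, e0_63_106__90_42_34,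 e0_63_106__90_42_35, e0_63_106__90_42_36, e0_63_106__90_42_37, e0_63_106__90_42_38, e0_63_106__90_42_39, e0_63_106__90_42_40, e0_63_106__90_42_41, e0_63_106__90_42_42, e0_63_106__90_42_43, e0_63_106__90_42_44, e0_63_106__90_42_45, e0_63_106__90_42_46, e0_63_106__90_42_47, e0_63_106__90_42_48, e0_63_106__90_42_49, e0_63_106__90_42_50, e0_63_106__90_42_51, e0_63_106__90_42_52, e0_63_106__90_42_53, e0_63_106__90_42_54, e0_63_106__90_42_55, e0_63_106__90_42_56, e0_63_106__90_42_57, e0_63_106__90_42_58, e0_63_106__90_42_59, e0_63_106__90_42_60, e0_63_106__90_42_61, e0_63_106__90_42_62, e0_63_106__90_42_63, e0_63_106__90_42_64, e0_63_106__90_42_65, e0_63_106__90_42_66, e0_63_106__90_42_67, e0_63_106__90_42_68, e0_63_106__90_42_69, e0_63_106__90_42_70, e0_63_106__90_42_71, e0_63_106__90_42_72, e0_63_106__90_42_73, e0_63_106__90_42_74, e0_63_106__90_42_75, e0_63_106__90_42_76, e0_63_106__90_42_77, e0_63_106__90_42_78,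 e0_63_106__90_42_79, e0_63_106__90_42_80, e0_63_106__90_42_81, e0_63_106__90_42_82, e0_63_106__90_42_83, e0_63_106__90_42_84, e0_63_106__90_42_85, e0_63_106__90_42_86, e0_63_106__90_42_87, e0_63_106__90_42_88, e0_63_106__90_42_89, e0_63_106__90_42_90, e0_63_106__90_42_91, e0_63_106__90_42_92, e0_63_106__90_42_93, e0_63_106__90_42_94, e0_63_106__90_42_95, e0_63_106__90_42_96, e0_63_106__90_42_97, e0_63_106__90_42_98, e0_63_106__90_42_99, e0_63_106__90_42_100, e0_63_106__90_42_101, e0_63_106__90_42_102, e0_63_106__90_42_103, e0_63_106__90_42_104, e0_63_106__90_42_105, e0_63_106__90_42_106, e0_63_106__90_42_107, e0_63_106__90_42_108, e0_63_106__90_42_109, e0_63_106__90_42_110, e0_63_106__90_42_111, e0_63_106__90_42_112, e0_63_106__90_42_113, e0_63_106__90_42_114, e0_63_106__90_42_115, e0_63_106__90_42_116, e0_63_106__90_42_117, e0_63_106__90_42_118, e0_63_106__90_42_119, e0_63_106__90_42_120, e0_63_106__90_42_121,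 e0_63_106__90_42_122, e0_63_106__90_42_123, e0_63_106__90_42_124, e0_63_106__90_42_125, e0_63_106__90_42_126, e0_63_106__90_42_127, e0_63_106__90_42_128, e0_63_106__90_42_129, e0_63_106__90_42_130, e0_63_106__90_42_131, e0_63_106__90_42_132, e0_63_106__90_42_133, e0_63_106__90_42_134, e0_63_106__90_42_135, e0_63_106__90_42_136, e0_63_106__90_42_137, e0_63_106__90_42_138, e0_63_106__90_42_139, e0_63_106__90_42_140, e0_63_106__90_42_141, e0_63_106__90_42_142, e0_63_106__90_42_143, e0_63_106__90_42_144, e0_63_106__90_42_145, e0_63_106__90_42_146, e0_63_106__90_42_147, e0_63_106__90_42_148, e0_63_106__90_42_149, e0_63_106__90_42_150, e0_63_106__90_42_151, e0_63_106__90_42_152, e0_63_106__90_42_153, e0_63_106__90_42_154], by decide +kernel, by decide +kernel⟩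

end Pool.Agent.Lib_TTT.K4
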