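import Pool.Agent.Lib_TTT.K4Base
import Pool.Agent.Lib_TTT.K4T00
import Pool.Agent.Lib_TTT.K4T01
import Pool.Agent.Lib_TTT.K4T02
import Pool.Agent.Lib_TTT.K4T03
import Pool.Agent.Lib_TTT.K4T04
import Pool.Agent.Lib_TTT.K4T05
import Pool.Agent.Lib_TTT.K4T06
import Pool.Agent.Lib_TTT.K4T07
import Pool.Agent.Lib_TTT.K4T08

/-! Certificates in `4^4`. -/

set_option autoImplicit false
set_option maxRecDepth 200000

namespace Pool.Agent.Lib_TTT.K4

open Lib_TTT AC DC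

def e0_63_106__91_42_0 : Ent 4 := ⟨[a0, a63, a106], [a91, a42, a1], (M a48 (F (T t309 (T t551 (L l28 (T t579 N))))))⟩
def e0_63_106__91_42_1 : Ent 4 := ⟨[a0, a63, a106], [a91, a42, a2], (M a48 (L l66 (F (T t309 (T t551 (L l28 (T t579 (K a22 (M a62 (F (T t585 (L l22 (L l306 (T t5926 N)))))) (K a62 (M a22 (F (T t578 (L l28 (T t579 (T t551 N)))))) N)))))))))⟩
def e0_63_106__91_42_2 : Ent 4 := ⟨[a0, a63, a106], [a91, a42, a3], (M a48 (F (T t585 (L l453 (T t551 (L l28 (T t579 N)))))))⟩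
def e0_63_106__91_42_3 : Ent 4 := ⟨[a0, a63, a106], [a91, a42, a4], (M a48 (F (T t309 (T t551 (L l28 (T t579 N))))))⟩
def e0_63_106__91_42_4 : Ent 4 := ⟨[a0, a63, a106], [a91, a42, a5], (M a48 (F (T t578 (L l28 (L l47 (T t579 (T t551 N)))))))⟩
def e0_63_106__91_42_5 : Ent 4 := ⟨[a0, a63, a106], [a91, a42, a6], (M a48 (F (T t309 (T t551 (L l28 (T t579 N))))))⟩
def e0_63_106__91_42_6 : Ent 4 := ⟨[a0, a63, a106], [a91, a42, a7], (M a48 (F (T t309 (T t551 (L l28 (T t579 N))))))⟩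
def e0_63_106__91_42_7 : Ent 4 := ⟨[a0, a63, a106], [a91, a42, a8], (M a48 (L l56 (F (T t309 (T t551 (L l28 (T t579 (K a25 (M a59 (F (T t307 (L l26 (L l316 (T t6445 N)))))) (K a59 (M a25 (F (T t578 (L l28 (T t579 (T t551 N)))))) N)))))))))⟩
def e0_63_106__91_42_8 : Ent 4 := ⟨[a0, a63, a106], [a91, a42, a9], (M a48 (F (T t309 (T t551 (L l28 (T t579 N))))))⟩
def e0_63_106__91_42_9 : Ent 4 := ⟨[a0, a63, a106], [a91, a42, a10], (M a48 (L l54 (F (T t578 (L l28 (L l318 (T t579 (T t551 (K a26 (Fr a58 a53 l38 (V t6446)) (K a58 (M a26 (F (L l28 (T t4144 (T t551 (L l28 (L l373 (L l426 (T t6447 (K a32 (Fr a192 a149 l519 (Fr a15 a37 l75 (Fr a47 a31 l61 (V t6528)))) N)))))))))) N))))))))))⟩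
def e0_63_106__91_42_10 : Ent 4 := ⟨[a0, a63, a106], [a91, a42, a11], (M a48 (L l463 (F (T t309 (T t551 (L l28 (T t579 (K a171 (M a251 (F (T t578 (L l28 (T t579 (T t551 N)))))) (K a251 (M a171 (F (T t578 (L l28 (T t579 (T t551 N)))))) N)))))))))⟩
def e0_63_106__91_42_11 : Ent 4 := ⟨[a0, a63, a106], [a91, a42, a12], (M a48 (F (T t585 (L l478 (T t551 (L l28 (T t579 N)))))))⟩
def e0_63_106__91_42_12 : Ent 4 := ⟨[a0, a63, a106], [a91, a42, a13], (M a48 (F (T t309 (T t551 (L l28 (T t579 N))))))⟩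
def e0_63_106__91_42_13 : Ent 4 := ⟨[a0, a63, a106], [a91, a42, a14], (M a48 (F (T t309 (T t551 (L l28 (T t579 N))))))⟩
def e0_63_106__91_42_14 : Ent 4 := ⟨[a0, a63, a106], [a91, a42, a15], (M a243 (F (T t6529 (L l73 (T t6530 (T t6531 N))))))⟩
def e0_63_106__91_42_15 : Ent 4 := ⟨[a0, a63, a106], [a91, a42, a16], (M a240 (F (T t4786 (L l340 (T t4780 (L l93 (T t4781 N)))))))⟩
def e0_63_106__91_42_16 : Ent 4 := ⟨[a0, a63, a106], [a91, a42, a17], (M a48 (F (T t309 (T t551 (L l28 (T t579 N))))))⟩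
def e0_63_106__91_42_17 : Ent 4 := ⟨[a0, a63, a106], [a91, a42, a18], (M a48 (F (T t309 (T t551 (L l28 (T t579 N))))))⟩
def e0_63_106__91_42_18 : Ent 4 := ⟨[a0, a63, a106], [a91, a42, a19], (M a48 (F (T t309 (T t551 (L l28 (L l367 (T t579 N)))))))⟩
def e0_63_106__91_42_19 : Ent 4 := ⟨[a0, a63, a106], [a91, a42, a20], (M a48 (F (T t309 (T t551 (L l28 (T t579 N))))))⟩
def e0_63_106__91_42_20 : Ent 4 := ⟨[a0, a63, a106], [a91, a42, a21], (M a48 (F (L l47 (T t309 (L l347 (T t551 (L l28 (L l47 (T t579 N)))))))))⟩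
def e0_63_106__91_42_21 : Ent 4 := ⟨[a0, a63, a106], [a91, a42, a22], (M a48 (L l66 (F (T t309 (T t551 (L l28 (T t579 (K a2 (M a62 (F (T t585 (L l22 (L l306 (T t5926 N)))))) (K a62 (M a2 (F (T t307 (L l19 (L l28 (T t342 N)))))) N)))))))))⟩
def e0_63_106__91_42_22 : Ent 4 := ⟨[a0, a63, a106], [a91, a42, a23], (M a48 (F (T t309 (L l351 (T t551 (L l28 (T t579 N)))))))⟩
def e0_63_106__91_42_23 : Ent 4 := ⟨[a0, a63, a106], [a91, a42, a24], (M a48 (F (T t309 (T t551 (L l28 (T t579 N))))))⟩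
def e0_63_106__91_42_24 : Ent 4 := ⟨[a0, a63, a106], [a91, a42, a25], (M a48 (L l56 (F (T t309 (T t551 (L l28 (T t579 (K a8 (M a59 (F (T t307 (L l26 (L l316 (T t6445 N)))))) (K a59 (M a8 (F (T t307 (L l19 (L l28 (T t4700 N)))))) N)))))))))⟩
def e0_63_106__91_42_25 : Ent 4 := ⟨[a0, a63, a106], [a91, a42, a26], (M a48 (L l54 (F (T t309 (L l28 (T t579 (T t551 (K a10 (Fr a58 a53 l38 (V t6446)) (K a58 (M a10 (F (T t4033 (T t551 (L l18 (L l88 (L l354 (L l373 (T t6449 (L l18 (L l373 (L l426 (T t6450 N))))))))))))) N)))))))))⟩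
def e0_63_106__91_42_26 : Ent 4 := ⟨[a0, a63, a106], [a91, a42, a27], (M a48 (L l355 (F (T t309 (T t551 (L l28 (T t579 (K a155 (M a219 (F (T t3405 (T t551 (L l12 (T t7155 N)))))) (K a219 (M a155 (F (T t3405 (T t551 (L l28 (L l245 (T t579 N))))))) N)))))))))⟩
def e0_63_106__91_42_27 : Ent 4 := ⟨[a0, a63, a106], [a91, a42, a28], (M a48 (F (T t309 (T t551 (L l28 (L l362 (T t579 N)))))))⟩
def e0_63_106__91_42_28 : Ent 4 := ⟨[a0, a63, a106], [a91, a42, a29], (M a48 (F (T t309 (L l371 (T t551 (L l28 (T t579 N)))))))⟩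
def e0_63_106__91_42_29 : Ent 4 := ⟨[a0, a63, a106], [a91, a42, a30], (M a48 (F (T t309 (T t551 (L l28 (T t579 N))))))⟩
def e0_63_106__91_42_30 : Ent 4 := ⟨[a0, a63, a106], [a91, a42, a31], (M a48 (L l373 (F (T t309 (L l375 (T t551 (L l28 (L l361 (T t579 (K a211 (M a151 (F (T t3405 (L l131 (L l271 (L l344 (L l481 (T t4256 N)))))))) (K a151 (M a211 (F (T t3405 (L l163 (L l375 (T t551 (L l28 (L l361 (T t579 N))))))))) N)))))))))))⟩
def e0_63_106__91_42_31 : Ent 4 := ⟨[a0, a63, a106], [a91, a42, a32], (M a240 (L l28 (F (T t6609 (L l376 (T t6588 (L l93 (L l376 (T t4781 (K a37 (M a47 (F (T t6603 (T t7156 (L l88 (L l373 (T t6604 N))))))) (K a47 (M a37 (F (L l376 (T t6588 (L l54 (T t6699 (L l93 (L l376 (T t4781 N))))))))) N)))))))))))⟩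
def e0_63_106__91_42_32 : Ent 4 := ⟨[a0, a63, a106], [a91, a42, a33], (M a48 (F (T t309 (T t551 (L l20 (L l28 (T t579 N)))))))⟩
def e0_63_106__91_42_33 : Ent 4 := ⟨[a0, a63, a106], [a91, a42, a34], (M a48 (L l26 (F (T t309 (T t551 (L l20 (L l28 (T t579 (K a38 (M a46 (F (T t307 (L l56 (L l378 (T t4030 N)))))) (K a46 (M a38 (F (T t578 (L l20 (L l28 (T t579 (T t551 N))))))) N))))))))))⟩
def e0_63_106__91_42_34 : Ent 4 := ⟨[a0, a63, a106], [a91, a42, a35], (M a48 (F (T t309 (T t551 (L l20 (L l28 (T t579 N)))))))⟩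
def e0_63_106__91_42_35 : Ent 4 := ⟨[a0, a63, a106], [a91, a42, a36], (M a48 (F (T t309 (T t551 (L l24 (L l28 (T t579 N)))))))⟩
def e0_63_106__91_42_36 : Ent 4 := ⟨[a0, a63, a106], [a91, a42, a37], (M a240 (L l28 (F (T t4786 (T t6606 (L l93 (T t4781 (K a32 (M a47 (F (T t6603 (T t7156 (L l88 (L l373 (T t6604 N))))))) (K a47 (M a32 (F (T t6607 (L l93 (T t4781 (L l54 (T t6608 N))))))) N)))))))))⟩
def e0_63_106__91_42_37 : Ent 4 := ⟨[a0, a63, a106], [a91, a42, a38], (M a48 (L l26 (F (T t309 (T t551 (L l28 (T t579 (K a34 (M a46 (F (T t307 (L l56 (L l378 (T t4030 N)))))) (K a46 (M a34 (F (T t309 (L l29 (L l66 (T t6453 N)))))) N)))))))))⟩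
def e0_63_106__91_42_38 : Ent 4 := ⟨[a0, a63, a106], [a91, a42, a39], (M a48 (F (T t309 (T t551 (L l28 (T t579 N))))))⟩
def e0_63_106__91_42_39 : Ent 4 := ⟨[a0, a63, a106], [a91, a42, a40], (M a48 (L l22 (F (T t309 (T t551 (L l24 (L l28 (T t579 (K a41 (M a43 (F (T t578 (L l66 (L l388 (T t6451 N)))))) (K a43 (M a41 (F (T t578 (L l24 (L l28 (T t579 (T t551 N))))))) N))))))))))⟩
def e0_63_106__91_42_40 : Ent 4 := ⟨[a0, a63, a106], [a91, a42, a41], (M a48 (L l22 (F (T t309 (T t551 (L l28 (T t579 (K a40 (M a43 (F (T t578 (L l66 (L l388 (T t6451 N)))))) (K a43 (M a40 (F (T t307 (L l29 (L l69 (T t6452 N)))))) N)))))))))⟩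
def e0_63_106__91_42_41 : Ent 4 := ⟨[a0, a63, a106], [a91, a42, a43], (M a48 (L l22 (F (T t309 (T t551 (L l28 (T t579 (K a40 (M a41 (F (T t578 (L l24 (L l28 (T t579 (T t551 N))))))) (K a41 (M a40 (F (T t307 (L l29 (L l69 (T t6452 N)))))) N)))))))))⟩
def e0_63_106__91_42_42 : Ent 4 := ⟨[a0, a63, a106], [a91, a42, a44], (M a48 (F (T t309 (T t551 (L l24 (L l28 (T t579 N)))))))⟩
def e0_63_106__91_42_43 : Ent 4 := ⟨[a0, a63, a106], [a91, a42, a45], (M a48 (F (T t309 (T t551 (L l28 (T t579 N))))))⟩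
def e0_63_106__91_42_44 : Ent 4 := ⟨[a0, a63, a106], [a91, a42, a46], (M a48 (L l26 (F (T t309 (T t551 (L l28 (T t579 (K a34 (M a38 (F (T t578 (L l20 (L l28 (T t579 (T t551 N))))))) (K a38 (M a34 (F (T t309 (L l29 (L l66 (T t6453 N)))))) N)))))))))⟩
def e0_63_106__91_42_45 : Ent 4 := ⟨[a0, a63, a106], [a91, a42, a47], (M a12 (L l28 (F (T t2304 (T t2305 (L l56 (T t2415 (K a32 (M a37 (F (T t2304 (T t2305 (L l56 (T t2415 N)))))) (K a37 (M a32 (F (T t2304 (L l51 (L l56 (T t682 N)))))) N)))))))))⟩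
def e0_63_106__91_42_46 : Ent 4 := ⟨[a0, a63, a106], [a91, a42, a48], (M a12 (F (T t4425 (L l56 (T t2415 (L l508 (T t2305 N)))))))⟩
def e0_63_106__91_42_47 : Ent 4 := ⟨[a0, a63, a106], [a91, a42, a49], (M a48 (F (T t578 (L l28 (L l35 (T t579 (T t551 N)))))))⟩
def e0_63_106__91_42_48 : Ent 4 := ⟨[a0, a63, a106], [a91, a42, a50], (M a48 (F (T t309 (T t551 (L l28 (T t579 N))))))⟩
def e0_63_106__91_42_49 : Ent 4 := ⟨[a0, a63, a106], [a91, a42, a51], (M a48 (F (T t585 (L l417 (T t551 (L l28 (T t579 N)))))))⟩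
def e0_63_106__91_42_50 : Ent 4 := ⟨[a0, a63, a106], [a91, a42, a52], (M a48 (F (T t578 (L l28 (L l31 (T t579 (T t551 N)))))))⟩
def e0_63_106__91_42_51 : Ent 4 := ⟨[a0, a63, a106], [a91, a42, a53], (M a240 (F (T t4786 (L l491 (T t817 (L l93 (L l419 (T t4781 N))))))))⟩
def e0_63_106__91_42_52 : Ent 4 := ⟨[a0, a63, a106], [a91, a42, a54], (M a48 (F (T t578 (L l28 (L l31 (T t579 (T t551 N)))))))⟩
def e0_63_106__91_42_53 : Ent 4 := ⟨[a0, a63, a106], [a91, a42, a55], (M a48 (F (L l31 (T t309 (L l495 (T t551 (L l28 (L l31 (T t579 N)))))))))⟩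
def e0_63_106__91_42_54 : Ent 4 := ⟨[a0, a63, a106], [a91, a42, a56], (M a48 (F (T t309 (T t551 (L l28 (T t579 N))))))⟩
def e0_63_106__91_42_55 : Ent 4 := ⟨[a0, a63, a106], [a91, a42, a57], (M a48 (F (T t578 (L l28 (L l35 (T t579 (T t551 N)))))))⟩
def e0_63_106__91_42_56 : Ent 4 := ⟨[a0, a63, a106], [a91, a42, a58], (M a240 (L l54 (F (T t4779 (T t817 (L l93 (T t4781 (K a10 (M a26 (F (L l426 (T t4786 (T t817 (L l93 (L l318 (L l462 (T t6482 N))))))))) (K a26 (M a10 (F (T t4779 (L l93 (T t6610 (L l18 (T t6611 N))))))) N)))))))))⟩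
def e0_63_106__91_42_57 : Ent 4 := ⟨[a0, a63, a106], [a91, a42, a59], (M a48 (L l56 (F (T t309 (T t551 (L l28 (T t579 (K a8 (M a25 (F (T t578 (L l28 (T t579 (T t551 N)))))) (K a25 (M a8 (F (T t307 (L l19 (L l28 (T t4700 N)))))) N)))))))))⟩
def e0_63_106__91_42_58 : Ent 4 := ⟨[a0, a63, a106], [a91, a42, a60], (M a48 (F (T t585 (L l442 (T t551 (L l28 (T t579 N)))))))⟩
def e0_63_106__91_42_59 : Ent 4 := ⟨[a0, a63, a106], [a91, a42, a61], (M a48 (F (L l35 (T t309 (L l515 (T t551 (L l28 (L l35 (T t579 N)))))))))⟩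
def e0_63_106__91_42_60 : Ent 4 := ⟨[a0, a63, a106], [a91, a42, a62], (M a48 (L l66 (F (T t309 (T t551 (L l28 (T t579 (K a2 (M a22 (F (T t578 (L l28 (T t579 (T t551 N)))))) (K a22 (M a2 (F (T t307 (L l19 (L l28 (T t342 N)))))) N)))))))))⟩
def e0_63_106__91_42_61 : Ent 4 := ⟨[a0, a63, a106], [a91, a42, a64], (M a48 (F (T t585 (L l28 (T t6454 (L l28 (T t6455 (L l28 (T t6456 (L l28 (L l84 (T t6457 (L l54 (T t6458 (K a207 (Fr a192 a149 l519 (Fr a96 a144 l484 (Fr a101 a111 l104 (Fr a32 a16 l40 (V t6459))))) N)))))))))))))))⟩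
def e0_63_106__91_42_62 : Ent 4 := ⟨[a0, a63, a106], [a91, a42, a65], (M a48 (F (T t309 (L l76 (T t551 (L l28 (L l76 (T t579 N))))))))⟩
def e0_63_106__91_42_63 : Ent 4 := ⟨[a0, a63, a106], [a91, a42, a66], (M a48 (F (T t304 (L l28 (L l76 (T t579 (L l76 (T t551 N))))))))⟩
def e0_63_106__91_42_64 : Ent 4 := ⟨[a0, a63, a106], [a91, a42, a67], (M a48 (F (T t309 (L l76 (T t551 (L l28 (L l76 (T t579 N))))))))⟩
def e0_63_106__91_42_65 : Ent 4 := ⟨[a0, a63, a106], [a91, a42, a68], (M a48 (F (T t309 (L l80 (T t551 (L l28 (L l80 (T t579 N))))))))⟩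
def e0_63_106__91_42_66 : Ent 4 := ⟨[a0, a63, a106], [a91, a42, a69], (M a48 (F (T t309 (L l84 (T t551 (L l28 (L l84 (T t579 N))))))))⟩
def e0_63_106__91_42_67 : Ent 4 := ⟨[a0, a63, a106], [a91, a42, a70], (M a48 (F (T t309 (T t551 (L l28 (T t579 N))))))⟩
def e0_63_106__91_42_68 : Ent 4 := ⟨[a0, a63, a106], [a91, a42, a71], (M a48 (F (T t309 (T t551 (L l28 (T t579 N))))))⟩
def e0_63_106__91_42_69 : Ent 4 := ⟨[a0, a63, a106], [a91, a42, a72], (M a48 (F (T t304 (L l28 (L l80 (T t579 (L l80 (T t551 N))))))))⟩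
def e0_63_106__91_42_70 : Ent 4 := ⟨[a0, a63, a106], [a91, a42, a73], (M a48 (F (T t309 (T t551 (L l28 (T t579 N))))))⟩
def e0_63_106__91_42_71 : Ent 4 := ⟨[a0, a63, a106], [a91, a42, a74], (M a48 (F (T t578 (L l28 (L l84 (L l318 (T t579 (L l84 (T t551 N)))))))))⟩
def e0_63_106__91_42_72 : Ent 4 := ⟨[a0, a63, a106], [a91, a42, a75], (M a48 (L l131 (F (T t309 (T t551 (L l28 (T t579 (K a107 (M a123 (F (T t307 (L l337 (T t6814 N))))) (K a123 (M a107 (F (T t585 (L l373 (L l481 (T t1164 N)))))) N)))))))))⟩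
def e0_63_106__91_42_73 : Ent 4 := ⟨[a0, a63, a106], [a91, a42, a76], (M a48 (F (T t309 (L l80 (T t551 (L l28 (L l80 (T t579 N))))))))⟩
def e0_63_106__91_42_74 : Ent 4 := ⟨[a0, a63, a106], [a91, a42, a77], (M a48 (F (T t309 (T t551 (L l28 (T t579 N))))))⟩
def e0_63_106__91_42_75 : Ent 4 := ⟨[a0, a63, a106], [a91, a42, a78], (M a48 (F (T t309 (T t551 (L l28 (T t579 N))))))⟩
def e0_63_106__91_42_76 : Ent 4 := ⟨[a0, a63, a106], [a91, a42, a79], (M a48 (L l149 (F (T t309 (L l84 (T t551 (L l28 (L l84 (T t579 (K a115 (M a103 (F (T t309 (L l84 (L l120 (T t551 (L l28 (L l84 (L l120 (T t579 N)))))))))) (K a103 (M a115 (F (T t309 (L l125 (T t6825 (L l28 (L l84 (T t579 N)))))))) N)))))))))))⟩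
def e0_63_106__91_42_77 : Ent 4 := ⟨[a0, a63, a106], [a91, a42, a80], (M a12 (F (T t2304 (L l116 (T t2305 (L l56 (L l116 (T t2415 N))))))))⟩
def e0_63_106__91_42_78 : Ent 4 := ⟨[a0, a63, a106], [a91, a42, a81], (M a48 (F (T t309 (L l120 (T t551 (L l28 (L l120 (T t579 N))))))))⟩
def e0_63_106__91_42_79 : Ent 4 := ⟨[a0, a63, a106], [a91, a42, a82], (M a48 (F (T t309 (L l453 (T t551 (L l28 (T t579 N)))))))⟩
def e0_63_106__91_42_80 : Ent 4 := ⟨[a0, a63, a106], [a91, a42, a83], (M a48 (L l93 (F (T t309 (T t551 (L l28 (T t579 (K a87 (M a95 (F (T t578 (L l28 (L l367 (T t579 (T t551 N))))))) (K a95 (M a87 (F (T t3405 (T t551 (L l28 (L l361 (T t579 N))))))) N)))))))))⟩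
def e0_63_106__91_42_81 : Ent 4 := ⟨[a0, a63, a106], [a91, a42, a84], (M a48 (F (T t309 (L l140 (T t551 (L l28 (L l140 (T t579 N))))))))⟩
def e0_63_106__91_42_82 : Ent 4 := ⟨[a0, a63, a106], [a91, a42, a85], (M a48 (F (T t309 (L l347 (T t551 (L l54 (T t777 (L l368 (T t6465 (K a192 (M a240 (F (T t6230 (L l236 (T t6471 (L l54 (L l236 (L l339 (T t6472 (L l149 (L l339 (T t6473 N)))))))))))) N))))))))))⟩
def e0_63_106__91_42_83 : Ent 4 := ⟨[a0, a63, a106], [a91, a42, a86], (M a48 (F (T t309 (L l351 (T t551 (L l28 (T t579 N)))))))⟩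
def e0_63_106__91_42_84 : Ent 4 := ⟨[a0, a63, a106], [a91, a42, a87], (M a48 (L l93 (F (T t309 (T t551 (L l28 (L l367 (T t579 (K a83 (M a95 (F (T t578 (L l28 (L l367 (T t579 (T t551 N))))))) (K a95 (M a83 (F (T t3405 (T t551 (L l28 (L l361 (L l367 (T t579 N)))))))) N))))))))))⟩
def e0_63_106__91_42_85 : Ent 4 := ⟨[a0, a63, a106], [a91, a42, a88], (M a48 (L l88 (F (T t309 (L l478 (T t551 (L l28 (T t579 (K a89 (M a90 (F (T t309 (L l93 (T t6815 N))))) (K a90 (M a89 (F (T t304 (L l128 (T t6716 N))))) N))))))))))⟩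
def e0_63_106__91_42_86 : Ent 4 := ⟨[a0, a63, a106], [a91, a42, a89], (M a48 (L l88 (F (T t309 (L l371 (T t551 (L l28 (T t579 (K a88 (M a90 (F (T t309 (L l93 (T t6815 N))))) (K a90 (M a88 (F (T t304 (L l28 (T t579 (L l371 (L l375 (L l483 (T t551 N))))))))) N))))))))))⟩
def e0_63_106__91_42_87 : Ent 4 := ⟨[a0, a63, a106], [a91, a42, a90], (M a48 (L l88 (F (T t309 (L l375 (L l483 (T t551 (L l28 (T t579 (K a88 (M a89 (F (T t304 (L l128 (T t6716 N))))) (K a89 (M a88 (F (T t304 (L l28 (T t579 (L l371 (L l375 (L l483 (T t551 N))))))))) N)))))))))))⟩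
def e0_63_106__91_42_88 : Ent 4 := ⟨[a0, a63, a106], [a91, a42, a92], (M a48 (F (T t309 (T t551 (L l28 (T t579 N))))))⟩
def e0_63_106__91_42_89 : Ent 4 := ⟨[a0, a63, a106], [a91, a42, a93], (M a48 (F (T t309 (T t551 (L l28 (L l362 (T t579 N)))))))⟩
def e0_63_106__91_42_90 : Ent 4 := ⟨[a0, a63, a106], [a91, a42, a94], (M a48 (F (T t309 (T t551 (L l28 (T t579 N))))))⟩
def e0_63_106__91_42_91 : Ent 4 := ⟨[a0, a63, a106], [a91, a42, a95], (M a48 (L l93 (F (T t309 (T t551 (L l28 (L l361 (T t579 (K a83 (M a87 (F (T t3405 (T t551 (L l28 (L l361 (T t579 N))))))) (K a87 (M a83 (F (T t3405 (T t551 (L l28 (L l361 (L l367 (T t579 N)))))))) N))))))))))⟩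
def e0_63_106__91_42_92 : Ent 4 := ⟨[a0, a63, a106], [a91, a42, a96], (M a12 (F (T t4425 (L l56 (L l116 (T t2415 (L l116 (T t2305 N))))))))⟩
def e0_63_106__91_42_93 : Ent 4 := ⟨[a0, a63, a106], [a91, a42, a97], (M a48 (F (T t309 (L l96 (T t551 (L l28 (L l380 (T t579 N))))))))⟩
def e0_63_106__91_42_94 : Ent 4 := ⟨[a0, a63, a106], [a91, a42, a98], (M a48 (F (T t304 (L l28 (L l120 (T t579 (L l96 (L l120 (T t551 N)))))))))⟩
def e0_63_106__91_42_95 : Ent 4 := ⟨[a0, a63, a106], [a91, a42, a99], (M a48 (F (T t309 (L l96 (T t551 (L l28 (T t579 N)))))))⟩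
def e0_63_106__91_42_96 : Ent 4 := ⟨[a0, a63, a106], [a91, a42, a100], (M a48 (F (T t309 (L l100 (T t551 (L l28 (L l400 (T t579 N))))))))⟩
def e0_63_106__91_42_97 : Ent 4 := ⟨[a0, a63, a106], [a91, a42, a101], (M a240 (F (T t4779 (L l491 (L l512 (T t817 (L l93 (T t4781 N))))))))⟩
def e0_63_106__91_42_98 : Ent 4 := ⟨[a0, a63, a106], [a91, a42, a102], (M a48 (F (T t309 (L l495 (T t551 (L l28 (T t579 N)))))))⟩
def e0_63_106__91_42_99 : Ent 4 := ⟨[a0, a63, a106], [a91, a42, a103], (M a48 (L l149 (F (T t309 (T t551 (L l28 (T t579 (K a115 (M a79 (F (T t309 (L l120 (T t551 (L l28 (L l120 (T t579 N)))))))) (K a79 (M a115 (F (T t309 (L l125 (T t6825 (L l28 (L l84 (T t579 N)))))))) N)))))))))⟩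
def e0_63_106__91_42_100 : Ent 4 := ⟨[a0, a63, a106], [a91, a42, a104], (M a48 (F (T t304 (L l28 (L l140 (T t579 (L l100 (L l140 (T t551 N)))))))))⟩
def e0_63_106__91_42_101 : Ent 4 := ⟨[a0, a63, a106], [a91, a42, a105], (M a48 (F (T t309 (L l515 (T t551 (L l28 (T t579 N)))))))⟩
def e0_63_106__91_42_102 : Ent 4 := ⟨[a0, a63, a106], [a91, a42, a107], (M a48 (L l131 (F (T t309 (T t551 (L l28 (T t579 (K a75 (M a123 (F (T t307 (L l337 (T t6814 N))))) (K a123 (M a75 (F (T t3405 (T t551 (L l28 (T t579 N)))))) N)))))))))⟩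
def e0_63_106__91_42_103 : Ent 4 := ⟨[a0, a63, a106], [a91, a42, a108], (M a48 (F (T t309 (L l100 (T t551 (L l28 (T t579 N)))))))⟩
def e0_63_106__91_42_104 : Ent 4 := ⟨[a0, a63, a106], [a91, a42, a109], (M a48 (F (T t309 (T t551 (L l28 (T t579 N))))))⟩
def e0_63_106__91_42_105 : Ent 4 := ⟨[a0, a63, a106], [a91, a42, a110], (M a48 (F (T t309 (T t551 (L l28 (T t579 N))))))⟩
def e0_63_106__91_42_106 : Ent 4 := ⟨[a0, a63, a106], [a91, a42, a111], (M a240 (F (T t4779 (T t817 (L l93 (L l137 (T t4781 N)))))))⟩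
def e0_63_106__91_42_107 : Ent 4 := ⟨[a0, a63, a106], [a91, a42, a112], (M a48 (F (T t309 (L l28 (L l116 (T t6462 (L l28 (L l116 (T t579 N)))))))))⟩
def e0_63_106__91_42_108 : Ent 4 := ⟨[a0, a63, a106], [a91, a42, a113], (M a48 (F (T t309 (T t551 (L l28 (T t579 N))))))⟩
def e0_63_106__91_42_109 : Ent 4 := ⟨[a0, a63, a106], [a91, a42, a114], (M a48 (F (T t309 (L l417 (T t551 (L l28 (T t579 N)))))))⟩
def e0_63_106__91_42_110 : Ent 4 := ⟨[a0, a63, a106], [a91, a42, a115], (M a48 (L l149 (F (T t309 (L l120 (T t551 (L l28 (L l120 (T t579 (K a103 (M a79 (F (T t309 (L l120 (T t551 (L l28 (L l120 (T t579 N)))))))) (K a79 (M a103 (F (T t309 (L l84 (L l120 (T t551 (L l28 (L l84 (L l120 (T t579 N)))))))))) N)))))))))))⟩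
def e0_63_106__91_42_111 : Ent 4 := ⟨[a0, a63, a106], [a91, a42, a116], (M a48 (F (T t309 (T t551 (L l28 (T t579 N))))))⟩
def e0_63_106__91_42_112 : Ent 4 := ⟨[a0, a63, a106], [a91, a42, a117], (M a48 (F (T t578 (L l28 (L l419 (T t579 (T t551 N)))))))⟩
def e0_63_106__91_42_113 : Ent 4 := ⟨[a0, a63, a106], [a91, a42, a118], (M a48 (F (T t309 (T t551 (L l28 (T t579 N))))))⟩
def e0_63_106__91_42_114 : Ent 4 := ⟨[a0, a63, a106], [a91, a42, a119], (M a48 (F (T t309 (T t551 (L l28 (T t579 N))))))⟩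
def e0_63_106__91_42_115 : Ent 4 := ⟨[a0, a63, a106], [a91, a42, a120], (M a48 (F (T t309 (L l442 (T t551 (L l28 (T t579 N)))))))⟩
def e0_63_106__91_42_116 : Ent 4 := ⟨[a0, a63, a106], [a91, a42, a121], (M a48 (F (T t309 (T t551 (L l28 (T t579 N))))))⟩
def e0_63_106__91_42_117 : Ent 4 := ⟨[a0, a63, a106], [a91, a42, a122], (M a48 (F (T t309 (T t551 (L l28 (T t579 N))))))⟩
def e0_63_106__91_42_118 : Ent 4 := ⟨[a0, a63, a106], [a91, a42, a123], (M a48 (L l131 (F (T t309 (T t551 (L l28 (T t579 (K a75 (M a107 (F (T t585 (L l373 (L l481 (T t1164 N)))))) (K a107 (M a75 (F (T t3405 (T t551 (L l28 (T t579 N)))))) N)))))))))⟩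
def e0_63_106__91_42_119 : Ent 4 := ⟨[a0, a63, a106], [a91, a42, a124], (M a48 (F (T t309 (L l140 (T t551 (L l28 (L l140 (T t579 N))))))))⟩
def e0_63_106__91_42_120 : Ent 4 := ⟨[a0, a63, a106], [a91, a42, a125], (M a48 (F (T t309 (T t551 (L l28 (T t579 N))))))⟩
def e0_63_106__91_42_121 : Ent 4 := ⟨[a0, a63, a106], [a91, a42, a126], (M a48 (F (T t309 (T t551 (L l28 (T t579 N))))))⟩
def e0_63_106__91_42_122 : Ent 4 := ⟨[a0, a63, a106], [a91, a42, a127], (M a48 (F (T t309 (T t551 (L l28 (T t6454 (L l28 (T t6479 N))))))))⟩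
def e0_63_106__91_42_123 : Ent 4 := ⟨[a0, a63, a106], [a91, a42, a128], (M a48 (F (T t585 (L l28 (T t579 (L l192 (L l220 (T t6480 (L l54 (L l160 (T t6481 N)))))))))))⟩
def e0_63_106__91_42_124 : Ent 4 := ⟨[a0, a63, a106], [a91, a42, a129], (M a48 (F (T t304 (L l28 (T t579 (L l217 (T t551 N)))))))⟩
def e0_63_106__91_42_125 : Ent 4 := ⟨[a0, a63, a106], [a91, a42, a130], (M a48 (F (T t309 (T t551 (L l28 (T t579 N))))))⟩
def e0_63_106__91_42_126 : Ent 4 := ⟨[a0, a63, a106], [a91, a42, a131], (M a48 (F (T t309 (L l197 (T t551 (L l28 (T t579 N)))))))⟩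
def e0_63_106__91_42_127 : Ent 4 := ⟨[a0, a63, a106], [a91, a42, a132], (M a48 (F (T t304 (L l28 (T t579 (L l202 (T t551 N)))))))⟩
def e0_63_106__91_42_128 : Ent 4 := ⟨[a0, a63, a106], [a91, a42, a133], (M a48 (F (T t585 (L l199 (T t551 (L l28 (T t579 N)))))))⟩
def e0_63_106__91_42_129 : Ent 4 := ⟨[a0, a63, a106], [a91, a42, a134], (M a48 (F (T t309 (T t551 (L l28 (T t579 N))))))⟩
def e0_63_106__91_42_130 : Ent 4 := ⟨[a0, a63, a106], [a91, a42, a135], (M a48 (F (T t309 (T t551 (L l28 (T t579 N))))))⟩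
def e0_63_106__91_42_131 : Ent 4 := ⟨[a0, a63, a106], [a91, a42, a136], (M a48 (F (T t309 (T t551 (L l28 (T t579 N))))))⟩
def e0_63_106__91_42_132 : Ent 4 := ⟨[a0, a63, a106], [a91, a42, a137], (M a48 (F (T t309 (T t551 (L l28 (T t579 N))))))⟩
def e0_63_106__91_42_133 : Ent 4 := ⟨[a0, a63, a106], [a91, a42, a138], (M a48 (F (T t578 (L l28 (L l318 (T t579 (T t551 N)))))))⟩
def e0_63_106__91_42_134 : Ent 4 := ⟨[a0, a63, a106], [a91, a42, a139], (M a48 (F (T t309 (T t551 (L l28 (T t579 N))))))⟩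
def e0_63_106__91_42_135 : Ent 4 := ⟨[a0, a63, a106], [a91, a42, a140], (M a48 (F (T t309 (L l222 (T t551 (L l28 (T t579 N)))))))⟩
def e0_63_106__91_42_136 : Ent 4 := ⟨[a0, a63, a106], [a91, a42, a141], (M a48 (F (T t309 (T t551 (L l28 (T t579 N))))))⟩
def e0_63_106__91_42_137 : Ent 4 := ⟨[a0, a63, a106], [a91, a42, a142], (M a48 (F (T t309 (T t551 (L l28 (T t579 N))))))⟩
def e0_63_106__91_42_138 : Ent 4 := ⟨[a0, a63, a106], [a91, a42, a143], (M a48 (F (T t309 (L l28 (T t6462 (L l28 (T t579 N)))))))⟩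
def e0_63_106__91_42_139 : Ent 4 := ⟨[a0, a63, a106], [a91, a42, a144], (M a12 (F (L l484 (T t2304 (L l170 (T t2305 (L l56 (T t2415 N))))))))⟩
def e0_63_106__91_42_140 : Ent 4 := ⟨[a0, a63, a106], [a91, a42, a145], (M a48 (F (T t304 (L l28 (T t579 (L l167 (T t551 N)))))))⟩
def e0_63_106__91_42_141 : Ent 4 := ⟨[a0, a63, a106], [a91, a42, a146], (M a48 (F (T t304 (L l28 (T t579 (L l197 (T t551 N)))))))⟩
def e0_63_106__91_42_142 : Ent 4 := ⟨[a0, a63, a106], [a91, a42, a147], (M a48 (F (T t304 (L l28 (T t579 (T t551 N))))))⟩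
def e0_63_106__91_42_143 : Ent 4 := ⟨[a0, a63, a106], [a91, a42, a148], (M a48 (F (T t304 (L l28 (T t579 (L l163 (T t551 N)))))))⟩
def e0_63_106__91_42_144 : Ent 4 := ⟨[a0, a63, a106], [a91, a42, a149], (M a204 (F (L l167 (T t6655 (L l167 (L l347 (T t6636 (L l56 (L l167 (L l495 (T t6635 (L l56 (L l167 (L l220 (L l495 (T t6637 (K a145 (M a153 (F (T t6638 (L l56 (L l196 (L l220 (L l341 (L l495 (T t6639 (L l196 (L l220 (T t6640 N)))))))))))) (K a153 (M a102 (L l167 (F (T t6641 (L l208 (T t6642 (K a145 (Fr a157 a110 l507 (V t6642)) (K a157 (M a145 (F (L l208 (T t6642 (L l226 (T t6817 (L l365 (T t6643 N)))))))) N)))))))) (K a157 (M a153 (F (T t6645 (T t6646 (L l56 (L l220 (L l495 (T t6639 (L l220 (T t6640 N)))))))))) (K a98 (M a48 (F (T t2046 (L l28 (L l120 (L l491 (T t579 (L l355 (L l491 (L l495 (T t6651 N))))))))))) (K a102 (M a12 (L l495 (F (T t752 (L l167 (L l371 (L l402 (T t765 (L l56 (L l371 (T t2415 (K a196 (M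 a55 (F (L l56 (L l347 (T t6649 (L l150 (L l220 (T t3459 N)))))))) (K a55 (M a196 (F (T t6650 (L l150 (L l220 (T t3459 N)))))) N))))))))))))) (K a110 (M a48 (F (T t2046 (L l28 (L l491 (T t579 (L l355 (L l491 (L l495 (T t6651 N)))))))))) N))))))))))))))))))))))⟩
def e0_63_106__91_42_145 : Ent 4 := ⟨[a0, a63, a106], [a91, a42, a150], (M a48 (F (T t309 (L l163 (T t551 (L l28 (T t579 N)))))))⟩
def e0_63_106__91_42_146 : Ent 4 := ⟨[a0, a63, a106], [a91, a42, a151], (M a48 (L l373 (F (T t309 (L l163 (T t551 (L l28 (T t579 (K a211 (M a31 (F (L l28 (T t6495 (L l163 (T t307 N)))))) (K a31 (M a211 (F (T t3405 (L l163 (L l375 (T t551 (L l28 (L l361 (T t579 N))))))))) N))))))))))⟩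
def e0_63_106__91_42_147 : Ent 4 := ⟨[a0, a63, a106], [a91, a42, a152], (M a48 (F (T t304 (L l28 (T t579 (L l222 (T t551 N)))))))⟩
def e0_63_106__91_42_148 : Ent 4 := ⟨[a0, a63, a106], [a91, a42, a153], (M a48 (F (T t309 (L l167 (T t551 (L l28 (T t579 N)))))))⟩
def e0_63_106__91_42_149 : Ent 4 := ⟨[a0, a63, a106], [a91, a42, a154], (M a240 (F (T t4779 (L l170 (L l368 (L l512 (T t817 (L l93 (T t4781 N)))))))))⟩
def e0_63_106__91_42_150 : Ent 4 := ⟨[a0, a63, a106], [a91, a42, a155], (M a48 (L l355 (F (T t309 (T t551 (L l28 (L l367 (T t579 (K a27 (M a219 (F (T t3405 (T t551 (L l12 (T t7155 N)))))) (K a219 (M a27 (F (T t3405 (T t551 (L l28 (L l245 (L l367 (T t579 N)))))))) N))))))))))⟩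
def e0_63_106__91_42_151 : Ent 4 := ⟨[a0, a63, a106], [a91, a42, a156], (M a48 (F (T t304 (L l28 (T t579 (T t551 N))))))⟩
def e0_63_106__91_42_152 : Ent 4 := ⟨[a0, a63, a106], [a91, a42, a157], (M a48 (F (T t309 (L l167 (T t551 (L l28 (T t579 N)))))))⟩
def e0_63_106__91_42_153 : Ent 4 := ⟨[a0, a63, a106], [a91, a42, a158], (M a48 (F (T t309 (T t551 (L l28 (L l362 (T t579 N)))))))⟩
def e0_63_106__91_42_154 : Ent 4 := ⟨[a0, a63, a106], [a91, a42, a159], (M a240 (F (T t4779 (L l170 (T t817 (L l93 (L l361 (T t4781 N))))))))⟩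
def e0_63_106__91_42_155 : Ent 4 := ⟨[a0, a63, a106], [a91, a42, a160], (M a12 (F (T t2304 (T t2305 (L l56 (T t2415 N))))))⟩
def e0_63_106__91_42_156 : Ent 4 := ⟨[a0, a63, a106], [a91, a42, a161], (M a48 (F (T t309 (L l197 (L l453 (T t551 (L l28 (T t579 N))))))))⟩
def e0_63_106__91_42_157 : Ent 4 := ⟨[a0, a63, a106], [a91, a42, a162], (M a48 (F (T t309 (T t551 (L l28 (L l380 (T t579 N)))))))⟩
def e0_63_106__91_42_158 : Ent 4 := ⟨[a0, a63, a106], [a91, a42, a163], (M a48 (F (T t309 (T t551 (L l28 (T t579 N))))))⟩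
def e0_63_106__91_42_159 : Ent 4 := ⟨[a0, a63, a106], [a91, a42, a164], (M a48 (F (T t309 (L l222 (L l478 (T t551 (L l28 (T t579 N))))))))⟩
def e0_63_106__91_42_160 : Ent 4 := ⟨[a0, a63, a106], [a91, a42, a165], (M a48 (F (T t309 (L l28 (L l199 (L l483 (T t6462 (L l28 (T t579 N)))))))))⟩
def e0_63_106__91_42_161 : Ent 4 := ⟨[a0, a63, a106], [a91, a42, a166], (M a48 (F (T t309 (L l202 (T t551 (L l28 (T t579 N)))))))⟩
def e0_63_106__91_42_162 : Ent 4 := ⟨[a0, a63, a106], [a91, a42, a167], (M a243 (F (L l201 (T t7157 (T t6530 (L l201 (T t6531 N)))))))⟩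
def e0_63_106__91_42_163 : Ent 4 := ⟨[a0, a63, a106], [a91, a42, a168], (M a48 (F (T t309 (T t551 (L l28 (L l400 (T t579 N)))))))⟩
def e0_63_106__91_42_164 : Ent 4 := ⟨[a0, a63, a106], [a91, a42, a169], (M a48 (F (T t309 (L l217 (T t551 (L l28 (T t579 N)))))))⟩
def e0_63_106__91_42_165 : Ent 4 := ⟨[a0, a63, a106], [a91, a42, a170], (M a48 (F (T t309 (L l220 (T t551 (L l28 (L l206 (L l220 (L l404 (T t552 (L l28 (L l206 (L l404 (T t553 N))))))))))))))⟩
def e0_63_106__91_42_166 : Ent 4 := ⟨[a0, a63, a106], [a91, a42, a171], (M a48 (L l463 (F (T t309 (T t551 (L l28 (T t579 (K a11 (M a251 (F (T t578 (L l28 (T t579 (T t551 N)))))) (K a251 (M a11 (F (T t578 (L l28 (T t579 (T t551 N)))))) N)))))))))⟩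
def e0_63_106__91_42_167 : Ent 4 := ⟨[a0, a63, a106], [a91, a42, a172], (M a48 (F (T t309 (T t551 (L l28 (T t579 N))))))⟩
def e0_63_106__91_42_168 : Ent 4 := ⟨[a0, a63, a106], [a91, a42, a173], (M a48 (F (T t309 (T t551 (L l28 (T t579 N))))))⟩
def e0_63_106__91_42_169 : Ent 4 := ⟨[a0, a63, a106], [a91, a42, a174], (M a48 (F (T t309 (T t551 (L l28 (T t579 N))))))⟩
def e0_63_106__91_42_170 : Ent 4 := ⟨[a0, a63, a106], [a91, a42, a175], (M a48 (F (T t309 (T t551 (L l28 (T t579 N))))))⟩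
def e0_63_106__91_42_171 : Ent 4 := ⟨[a0, a63, a106], [a91, a42, a176], (M a240 (F (T t4786 (L l192 (T t817 (L l93 (L l190 (L l192 (T t4781 N)))))))))⟩
def e0_63_106__91_42_172 : Ent 4 := ⟨[a0, a63, a106], [a91, a42, a177], (M a48 (F (T t309 (L l182 (L l417 (T t551 (L l28 (T t579 N))))))))⟩
def e0_63_106__91_42_173 : Ent 4 := ⟨[a0, a63, a106], [a91, a42, a178], (M a48 (F (T t309 (L l182 (T t551 (L l28 (T t579 N)))))))⟩
def e0_63_106__91_42_174 : Ent 4 := ⟨[a0, a63, a106], [a91, a42, a179], (M a48 (F (T t309 (L l182 (T t551 (L l28 (T t579 N)))))))⟩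
def e0_63_106__91_42_175 : Ent 4 := ⟨[a0, a63, a106], [a91, a42, a180], (M a48 (F (T t309 (L l186 (L l442 (T t551 (L l28 (T t579 N))))))))⟩
def e0_63_106__91_42_176 : Ent 4 := ⟨[a0, a63, a106], [a91, a42, a181], (M a48 (F (L l419 (T t309 (L l190 (L l199 (T t551 (L l28 (L l419 (T t579 N))))))))))⟩
def e0_63_106__91_42_177 : Ent 4 := ⟨[a0, a63, a106], [a91, a42, a182], (M a48 (F (T t309 (T t551 (L l28 (T t579 N))))))⟩
def e0_63_106__91_42_178 : Ent 4 := ⟨[a0, a63, a106], [a91, a42, a183], (M a48 (F (T t309 (L l202 (T t551 (L l28 (T t579 N)))))))⟩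
def e0_63_106__91_42_179 : Ent 4 := ⟨[a0, a63, a106], [a91, a42, a184], (M a48 (F (T t309 (L l186 (T t551 (L l28 (T t579 N)))))))⟩
def e0_63_106__91_42_180 : Ent 4 := ⟨[a0, a63, a106], [a91, a42, a185], (M a48 (F (T t309 (T t551 (L l28 (T t579 N))))))⟩
def e0_63_106__91_42_181 : Ent 4 := ⟨[a0, a63, a106], [a91, a42, a186], (M a48 (F (T t309 (L l190 (T t551 (L l28 (T t579 N)))))))⟩
def e0_63_106__91_42_182 : Ent 4 := ⟨[a0, a63, a106], [a91, a42, a187], (M a48 (F (T t309 (T t551 (L l28 (T t579 N))))))⟩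
def e0_63_106__91_42_183 : Ent 4 := ⟨[a0, a63, a106], [a91, a42, a188], (M a48 (F (T t309 (L l186 (T t551 (L l28 (T t579 N)))))))⟩
def e0_63_106__91_42_184 : Ent 4 := ⟨[a0, a63, a106], [a91, a42, a189], (M a48 (F (T t309 (L l217 (T t551 (L l28 (T t579 N)))))))⟩
def e0_63_106__91_42_185 : Ent 4 := ⟨[a0, a63, a106], [a91, a42, a190], (M a48 (F (T t309 (T t551 (L l28 (T t579 N))))))⟩
def e0_63_106__91_42_186 : Ent 4 := ⟨[a0, a63, a106], [a91, a42, a191], (M a48 (F (T t309 (L l190 (L l220 (T t551 (L l28 (T t6498 (L l28 (T t6499 N))))))))))⟩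
def e0_63_106__91_42_187 : Ent 4 := ⟨[a0, a63, a106], [a91, a42, a192], (M a204 (F (L l489 (T t6655 (L l272 (L l489 (T t6656 (L l296 (L l489 (T t6657 (L l56 (L l489 (T t6658 (L l489 (T t6659 (K a145 (M a102 (L l489 (F (T t6641 (T t6660 (K a98 (Fr a51 a153 l513 (V t6661)) (K a51 (Fr a98 a110 l102 (V t6662)) N))))))) (K a85 (M a48 (F (L l292 (T t2046 (L l123 (L l236 (L l489 (T t6732 N)))))))) (K a157 (M a48 (F (T t5482 (L l28 (L l236 (T t579 (L l236 (L l355 (T t6651 N))))))))) (K a98 (M a153 (L l489 (F (T t6645 (L l296 (T t6668 (L l26 (L l120 (L l378 (T t6669 (K a145 (Fr a51 a102 l513 (V t6670)) (K a51 (M a145 (F (T t6671 (L l56 (L l272 (L l334 (L l378 (T t6672 N)))))))) N)))))))))))) (K a102 (M a252 (F (L l484 (T t6673 (L l148 (L l339 (L l481 (T t6674 (L l93 (L l309 (T t6675 N))))))))))) (K a110 (M a48 (F (T t6676 (L l28 (L l236 (T t579 (L l236 (L l355 (T t6651 N))))))))) (K a51 (M a48 (L l489 (F (T t5482 (L l236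 (T t6677 (K a145 (M a98 (F (T t6678 (L l292 (L l441 (T t1315 N)))))) (K a98 (M a145 (F (T t5482 (L l28 (L l120 (L l236 (T t579 (L l355 (L l511 (T t6679 N)))))))))) N)))))))) N))))))))))))))))))))))⟩
def e0_63_106__91_42_188 : Ent 4 := ⟨[a0, a63, a106], [a91, a42, a193], (M a48 (F (T t585 (L l515 (T t551 (L l28 (T t579 N)))))))⟩
def e0_63_106__91_42_189 : Ent 4 := ⟨[a0, a63, a106], [a91, a42, a194], (M a48 (F (T t578 (L l28 (L l234 (T t579 (T t551 N)))))))⟩
def e0_63_106__91_42_190 : Ent 4 := ⟨[a0, a63, a106], [a91, a42, a195], (M a48 (F (T t585 (L l273 (T t551 (L l28 (T t579 N)))))))⟩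
def e0_63_106__91_42_191 : Ent 4 := ⟨[a0, a63, a106], [a91, a42, a196], (M a48 (F (T t585 (L l495 (T t551 (L l28 (T t579 N)))))))⟩
def e0_63_106__91_42_192 : Ent 4 := ⟨[a0, a63, a106], [a91, a42, a197], (M a240 (F (L l236 (T t4779 (L l491 (T t817 (L l93 (T t4781 N))))))))⟩
def e0_63_106__91_42_193 : Ent 4 := ⟨[a0, a63, a106], [a91, a42, a198], (M a48 (F (T t578 (L l28 (L l234 (T t579 (T t551 N)))))))⟩
def e0_63_106__91_42_194 : Ent 4 := ⟨[a0, a63, a106], [a91, a42, a199], (M a48 (F (T t309 (T t551 (L l28 (T t579 N))))))⟩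
def e0_63_106__91_42_195 : Ent 4 := ⟨[a0, a63, a106], [a91, a42, a200], (M a48 (F (T t578 (L l28 (L l230 (T t579 (T t551 N)))))))⟩
def e0_63_106__91_42_196 : Ent 4 := ⟨[a0, a63, a106], [a91, a42, a201], (M a48 (F (T t578 (L l28 (L l230 (T t579 (T t551 N)))))))⟩
def e0_63_106__91_42_197 : Ent 4 := ⟨[a0, a63, a106], [a91, a42, a202], (M a240 (F (L l236 (T t4786 (T t817 (L l93 (L l318 (T t4781 N))))))))⟩
def e0_63_106__91_42_198 : Ent 4 := ⟨[a0, a63, a106], [a91, a42, a203], (M a48 (F (T t2348 (L l28 (L l230 (T t579 (T t551 N)))))))⟩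
def e0_63_106__91_42_199 : Ent 4 := ⟨[a0, a63, a106], [a91, a42, a204], (M a48 (F (T t585 (L l298 (T t551 (L l28 (T t579 N)))))))⟩
def e0_63_106__91_42_200 : Ent 4 := ⟨[a0, a63, a106], [a91, a42, a205], (M a48 (F (T t309 (T t551 (L l28 (T t579 N))))))⟩
def e0_63_106__91_42_201 : Ent 4 := ⟨[a0, a63, a106], [a91, a42, a206], (M a48 (F (T t2348 (L l28 (L l234 (T t579 (T t551 N)))))))⟩
def e0_63_106__91_42_202 : Ent 4 := ⟨[a0, a63, a106], [a91, a42, a207], (M a240 (F (T t6525 (L l512 (T t817 (L l93 (T t4781 N)))))))⟩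
def e0_63_106__91_42_203 : Ent 4 := ⟨[a0, a63, a106], [a91, a42, a208], (M a12 (F (L l268 (T t2304 (L l375 (T t2305 (L l56 (T t2415 N))))))))⟩
def e0_63_106__91_42_204 : Ent 4 := ⟨[a0, a63, a106], [a91, a42, a209], (M a48 (F (T t304 (L l28 (T t579 (L l371 (T t551 N)))))))⟩
def e0_63_106__91_42_205 : Ent 4 := ⟨[a0, a63, a106], [a91, a42, a210], (M a48 (F (T t309 (L l273 (T t551 (L l28 (T t579 N)))))))⟩
def e0_63_106__91_42_206 : Ent 4 := ⟨[a0, a63, a106], [a91, a42, a211], (M a48 (L l373 (F (T t309 (T t551 (L l28 (L l245 (T t579 (K a151 (M a31 (F (L l28 (T t6495 (L l163 (T t307 N)))))) (K a31 (M a151 (F (T t3405 (L l131 (L l271 (L l344 (L l481 (T t4256 N)))))))) N))))))))))⟩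
def e0_63_106__91_42_207 : Ent 4 := ⟨[a0, a63, a106], [a91, a42, a212], (M a48 (F (T t304 (L l28 (T t579 (L l351 (T t551 N)))))))⟩
def e0_63_106__91_42_208 : Ent 4 := ⟨[a0, a63, a106], [a91, a42, a213], (M a48 (F (T t304 (L l28 (L l246 (T t579 (L l347 (T t551 N))))))))⟩
def e0_63_106__91_42_209 : Ent 4 := ⟨[a0, a63, a106], [a91, a42, a214], (M a48 (F (T t309 (T t551 (L l28 (T t579 N))))))⟩
def e0_63_106__91_42_210 : Ent 4 := ⟨[a0, a63, a106], [a91, a42, a215], (M a48 (F (T t309 (T t551 (L l28 (L l245 (T t579 N)))))))⟩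
def e0_63_106__91_42_211 : Ent 4 := ⟨[a0, a63, a106], [a91, a42, a216], (M a48 (F (T t309 (L l298 (T t551 (L l28 (T t579 N)))))))⟩
def e0_63_106__91_42_212 : Ent 4 := ⟨[a0, a63, a106], [a91, a42, a217], (M a48 (F (T t309 (T t551 (L l28 (T t579 N))))))⟩
def e0_63_106__91_42_213 : Ent 4 := ⟨[a0, a63, a106], [a91, a42, a218], (M a48 (F (T t2348 (L l28 (L l246 (L l282 (T t579 (L l303 (T t551 N)))))))))⟩
def e0_63_106__91_42_214 : Ent 4 := ⟨[a0, a63, a106], [a91, a42, a219], (M a48 (L l355 (F (T t309 (T t551 (L l28 (L l245 (T t579 (K a27 (M a155 (F (T t3405 (T t551 (L l28 (L l245 (T t579 N))))))) (K a155 (M a27 (F (T t3405 (T t551 (L l28 (L l245 (L l367 (T t579 N)))))))) N))))))))))⟩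
def e0_63_106__91_42_215 : Ent 4 := ⟨[a0, a63, a106], [a91, a42, a220], (M a48 (F (T t309 (T t551 (L l28 (L l241 (T t579 N)))))))⟩
def e0_63_106__91_42_216 : Ent 4 := ⟨[a0, a63, a106], [a91, a42, a221], (M a48 (F (T t309 (T t551 (L l28 (L l241 (T t579 N)))))))⟩
def e0_63_106__91_42_217 : Ent 4 := ⟨[a0, a63, a106], [a91, a42, a222], (M a48 (F (T t309 (T t551 (L l28 (L l241 (T t579 N)))))))⟩
def e0_63_106__91_42_218 : Ent 4 := ⟨[a0, a63, a106], [a91, a42, a223], (M a240 (F (T t4786 (L l368 (T t817 (L l93 (L l361 (T t4781 N))))))))⟩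
def e0_63_106__91_42_219 : Ent 4 := ⟨[a0, a63, a106], [a91, a42, a224], (M a48 (F (T t585 (L l268 (L l376 (T t551 (L l28 (L l376 (T t579 N)))))))))⟩
def e0_63_106__91_42_220 : Ent 4 := ⟨[a0, a63, a106], [a91, a42, a225], (M a48 (F (T t309 (L l273 (T t551 (L l28 (T t579 N)))))))⟩
def e0_63_106__91_42_221 : Ent 4 := ⟨[a0, a63, a106], [a91, a42, a226], (M a48 (F (T t304 (L l28 (T t579 (T t551 N))))))⟩
def e0_63_106__91_42_222 : Ent 4 := ⟨[a0, a63, a106], [a91, a42, a227], (M a48 (F (T t309 (T t551 (L l28 (L l380 (T t579 N)))))))⟩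
def e0_63_106__91_42_223 : Ent 4 := ⟨[a0, a63, a106], [a91, a42, a228], (M a48 (F (T t309 (L l298 (T t551 (L l28 (T t579 N)))))))⟩
def e0_63_106__91_42_224 : Ent 4 := ⟨[a0, a63, a106], [a91, a42, a229], (M a48 (F (T t309 (L l28 (T t2289 (L l28 (T t579 N)))))))⟩
def e0_63_106__91_42_225 : Ent 4 := ⟨[a0, a63, a106], [a91, a42, a230], (M a48 (F (T t309 (T t551 (L l28 (T t579 N))))))⟩
def e0_63_106__91_42_226 : Ent 4 := ⟨[a0, a63, a106], [a91, a42, a231], (M a48 (F (T t309 (T t551 (L l28 (T t579 N))))))⟩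
def e0_63_106__91_42_227 : Ent 4 := ⟨[a0, a63, a106], [a91, a42, a232], (M a48 (F (T t304 (L l28 (T t579 (T t551 N))))))⟩
def e0_63_106__91_42_228 : Ent 4 := ⟨[a0, a63, a106], [a91, a42, a233], (M a48 (F (T t309 (T t551 (L l28 (T t579 N))))))⟩
def e0_63_106__91_42_229 : Ent 4 := ⟨[a0, a63, a106], [a91, a42, a234], (M a48 (F (T t578 (L l28 (L l282 (T t579 (T t551 N)))))))⟩
def e0_63_106__91_42_230 : Ent 4 := ⟨[a0, a63, a106], [a91, a42, a235], (M a48 (F (T t309 (T t551 (L l28 (T t579 N))))))⟩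
def e0_63_106__91_42_231 : Ent 4 := ⟨[a0, a63, a106], [a91, a42, a236], (M a48 (F (T t309 (T t551 (L l28 (L l400 (T t579 N)))))))⟩
def e0_63_106__91_42_232 : Ent 4 := ⟨[a0, a63, a106], [a91, a42, a237], (M a48 (F (T t309 (T t551 (L l28 (T t579 N))))))⟩
def e0_63_106__91_42_233 : Ent 4 := ⟨[a0, a63, a106], [a91, a42, a238], (M a48 (F (T t309 (T t551 (L l28 (T t579 N))))))⟩
def e0_63_106__91_42_234 : Ent 4 := ⟨[a0, a63, a106], [a91, a42, a239], (M a48 (F (T t309 (T t551 (L l28 (L l289 (L l404 (T t579 N))))))))⟩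
def e0_63_106__91_42_235 : Ent 4 := ⟨[a0, a63, a106], [a91, a42, a240], (M a12 (F (T t4425 (L l56 (T t2415 (L l298 (T t2305 N)))))))⟩
def e0_63_106__91_42_236 : Ent 4 := ⟨[a0, a63, a106], [a91, a42, a241], (M a48 (F (T t309 (L l258 (T t551 (L l28 (T t579 N)))))))⟩
def e0_63_106__91_42_237 : Ent 4 := ⟨[a0, a63, a106], [a91, a42, a242], (M a48 (F (T t309 (L l258 (T t551 (L l28 (T t579 N)))))))⟩
def e0_63_106__91_42_238 : Ent 4 := ⟨[a0, a63, a106], [a91, a42, a243], (M a15 (F (L l258 (T t7158 (L l54 (L l373 (T t2532 (L l301 (T t6819 N)))))))))⟩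
def e0_63_106__91_42_239 : Ent 4 := ⟨[a0, a63, a106], [a91, a42, a244], (M a48 (F (T t309 (L l262 (T t551 (L l28 (T t579 N)))))))⟩
def e0_63_106__91_42_240 : Ent 4 := ⟨[a0, a63, a106], [a91, a42, a245], (M a48 (F (T t578 (L l28 (L l419 (T t579 (L l266 (T t551 N))))))))⟩
def e0_63_106__91_42_241 : Ent 4 := ⟨[a0, a63, a106], [a91, a42, a246], (M a48 (F (T t309 (T t551 (L l28 (T t579 N))))))⟩
def e0_63_106__91_42_242 : Ent 4 := ⟨[a0, a63, a106], [a91, a42, a247], (M a48 (F (T t309 (T t551 (L l28 (T t579 N))))))⟩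
def e0_63_106__91_42_243 : Ent 4 := ⟨[a0, a63, a106], [a91, a42, a248], (M a48 (F (T t309 (L l262 (T t551 (L l28 (T t579 N)))))))⟩
def e0_63_106__91_42_244 : Ent 4 := ⟨[a0, a63, a106], [a91, a42, a249], (M a48 (F (T t309 (T t551 (L l28 (T t579 N))))))⟩
def e0_63_106__91_42_245 : Ent 4 := ⟨[a0, a63, a106], [a91, a42, a250], (M a48 (F (T t578 (L l28 (L l282 (T t579 (L l266 (T t551 N))))))))⟩
def e0_63_106__91_42_246 : Ent 4 := ⟨[a0, a63, a106], [a91, a42, a251], (M a48 (L l463 (F (T t309 (T t551 (L l28 (T t579 (K a11 (M a171 (F (T t578 (L l28 (T t579 (T t551 N)))))) (K a171 (M a11 (F (T t578 (L l28 (T t579 (T t551 N)))))) N)))))))))⟩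
def e0_63_106__91_42_247 : Ent 4 := ⟨[a0, a63, a106], [a91, a42, a252], (M a48 (F (T t585 (L l262 (T t551 (L l28 (T t579 N)))))))⟩
def e0_63_106__91_42_248 : Ent 4 := ⟨[a0, a63, a106], [a91, a42, a253], (M a48 (F (T t309 (T t551 (L l28 (T t579 N))))))⟩
def e0_63_106__91_42_249 : Ent 4 := ⟨[a0, a63, a106], [a91, a42, a254], (M a48 (F (T t309 (T t551 (L l28 (T t579 N))))))⟩
def e0_63_106__91_42_250 : Ent 4 := ⟨[a0, a63, a106], [a91, a42, a255], (M a48 (F (T t585 (L l266 (T t551 (L l28 (L l93 (L l469 (T t6526 (L l28 (L l289 (T t6527 N))))))))))))⟩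
def b0_63_106__91_42 : Blk 4 := ⟨[0, 63, 106], [91, 42], [1, 2, 3, 4, 5, 6, 7, 8, 9, 10, 11, 12, 13, 14, 15, 16, 17, 18, 19, 20, 21, 22, 23, 24, 25, 26, 27, 28, 29, 30, 31, 32, 33, 34, 35, 36, 37, 38, 39, 40, 41, 43, 44, 45, 46, 47, 48, 49, 50, 51, 52, 53, 54, 55, 56, 57, 58, 59, 60, 61, 62, 64, 65, 66, 67, 68, 69, 70, 71, 72, 73, 74, 75, 76, 77, 78, 79, 80, 81, 82, 83, 84, 85, 86, 87, 88, 89, 90, 92, 93, 94, 95, 96, 97, 98, 99, 100, 101, 102, 103, 104, 105, 107, 108, 109, 110, 111, 112, 113, 114, 115, 116, 117, 118, 119, 120, 121, 122, 123, 124, 125, 126, 127, 128, 129, 130, 131, 132, 133, 134, 135, 136, 137, 138, 139, 140, 141, 142, 143, 144, 145, 146, 147, 148, 149, 150, 151, 152, 153, 154, 155, 156, 157, 158, 159, 160, 161, 162, 163, 164, 165, 166, 167, 168, 169, 170, 171, 172, 173, 174, 175, 176, 177, 178, 179, 180, 181, 182, 183, 184, 185, 186, 187, 188, 189, 190, 191, 192, 193, 194, 195, 196, 197, 198, 199,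 200, 201, 202, 203, 204, 205, 206, 207, 208, 209, 210, 211, 212, 213, 214, 215, 216, 217, 218, 219, 220, 221, 222, 223, 224, 225, 226, 227, 228, 229, 230, 231, 232, 233, 234, 235, 236, 237, 238, 239, 240, 241, 242, 243, 244, 245, 246, 247, 248, 249, 250, 251, 252, 253, 254, 255], [e0_63_106__91_42_0, e0_63_106__91_42_1, e0_63_106__91_42_2, e0_63_106__91_42_3, e0_63_106__91_42_4, e0_63_106__91_42_5, e0_63_106__91_42_6, e0_63_106__91_42_7, e0_63_106__91_42_8, e0_63_106__91_42_9, e0_63_106__91_42_10, e0_63_106__91_42_11, e0_63_106__91_42_12, e0_63_106__91_42_13, e0_63_106__91_42_14, e0_63_106__91_42_15, e0_63_106__91_42_16, e0_63_106__91_42_17, e0_63_106__91_42_18, e0_63_106__91_42_19, e0_63_106__91_42_20, e0_63_106__91_42_21, e0_63_106__91_42_22, e0_63_106__91_42_23, e0_63_106__91_42_24, e0_63_106__91_42_25, e0_63_106__91_42_26, e0_63_106__91_42_27, e0_63_106__91_42_28, e0_63_106__91_42_29, e0_63_106__91_42_30, e0_63_106__91_42_31,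 e0_63_106__91_42_32, e0_63_106__91_42_33, e0_63_106__91_42_34, e0_63_106__91_42_35, e0_63_106__91_42_36, e0_63_106__91_42_37, e0_63_106__91_42_38, e0_63_106__91_42_39, e0_63_106__91_42_40, e0_63_106__91_42_41, e0_63_106__91_42_42, e0_63_106__91_42_43, e0_63_106__91_42_44, e0_63_106__91_42_45, e0_63_106__91_42_46, e0_63_106__91_42_47, e0_63_106__91_42_48, e0_63_106__91_42_49, e0_63_106__91_42_50, e0_63_106__91_42_51, e0_63_106__91_42_52, e0_63_106__91_42_53, e0_63_106__91_42_54, e0_63_106__91_42_55, e0_63_106__91_42_56, e0_63_106__91_42_57, e0_63_106__91_42_58, e0_63_106__91_42_59, e0_63_106__91_42_60, e0_63_106__91_42_61, e0_63_106__91_42_62, e0_63_106__91_42_63, e0_63_106__91_42_64, e0_63_106__91_42_65, e0_63_106__91_42_66, e0_63_106__91_42_67, e0_63_106__91_42_68, e0_63_106__91_42_69, e0_63_106__91_42_70, e0_63_106__91_42_71, e0_63_106__91_42_72, e0_63_106__91_42_73, e0_63_106__91_42_74, e0_63_106__91_42_75,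 e0_63_106__91_42_76, e0_63_106__91_42_77, e0_63_106__91_42_78, e0_63_106__91_42_79, e0_63_106__91_42_80, e0_63_106__91_42_81, e0_63_106__91_42_82, e0_63_106__91_42_83, e0_63_106__91_42_84, e0_63_106__91_42_85, e0_63_106__91_42_86, e0_63_106__91_42_87, e0_63_106__91_42_88, e0_63_106__91_42_89, e0_63_106__91_42_90, e0_63_106__91_42_91, e0_63_106__91_42_92, e0_63_106__91_42_93, e0_63_106__91_42_94, e0_63_106__91_42_95, e0_63_106__91_42_96, e0_63_106__91_42_97, e0_63_106__91_42_98, e0_63_106__91_42_99, e0_63_106__91_42_100, e0_63_106__91_42_101, e0_63_106__91_42_102, e0_63_106__91_42_103, e0_63_106__91_42_104, e0_63_106__91_42_105, e0_63_106__91_42_106, e0_63_106__91_42_107, e0_63_106__91_42_108, e0_63_106__91_42_109, e0_63_106__91_42_110, e0_63_106__91_42_111, e0_63_106__91_42_112, e0_63_106__91_42_113, e0_63_106__91_42_114, e0_63_106__91_42_115, e0_63_106__91_42_116, e0_63_106__91_42_117, e0_63_106__91_42_118, e0_63_106__91_42_119,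 e0_63_106__91_42_120, e0_63_106__91_42_121, e0_63_106__91_42_122, e0_63_106__91_42_123, e0_63_106__91_42_124, e0_63_106__91_42_125, e0_63_106__91_42_126, e0_63_106__91_42_127, e0_63_106__91_42_128, e0_63_106__91_42_129, e0_63_106__91_42_130, e0_63_106__91_42_131, e0_63_106__91_42_132, e0_63_106__91_42_133, e0_63_106__91_42_134, e0_63_106__91_42_135, e0_63_106__91_42_136, e0_63_106__91_42_137, e0_63_106__91_42_138, e0_63_106__91_42_139, e0_63_106__91_42_140, e0_63_106__91_42_141, e0_63_106__91_42_142, e0_63_106__91_42_143, e0_63_106__91_42_144, e0_63_106__91_42_145, e0_63_106__91_42_146, e0_63_106__91_42_147, e0_63_106__91_42_148, e0_63_106__91_42_149, e0_63_106__91_42_150, e0_63_106__91_42_151, e0_63_106__91_42_152, e0_63_106__91_42_153, e0_63_106__91_42_154, e0_63_106__91_42_155, e0_63_106__91_42_156, e0_63_106__91_42_157, e0_63_106__91_42_158, e0_63_106__91_42_159, e0_63_106__91_42_160, e0_63_106__91_42_161,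 e0_63_106__91_42_162, e0_63_106__91_42_163, e0_63_106__91_42_164, e0_63_106__91_42_165, e0_63_106__91_42_166, e0_63_106__91_42_167, e0_63_106__91_42_168, e0_63_106__91_42_169, e0_63_106__91_42_170, e0_63_106__91_42_171, e0_63_106__91_42_172, e0_63_106__91_42_173, e0_63_106__91_42_174, e0_63_106__91_42_175, e0_63_106__91_42_176, e0_63_106__91_42_177, e0_63_106__91_42_178, e0_63_106__91_42_179, e0_63_106__91_42_180, e0_63_106__91_42_181, e0_63_106__91_42_182, e0_63_106__91_42_183, e0_63_106__91_42_184, e0_63_106__91_42_185, e0_63_106__91_42_186, e0_63_106__91_42_187, e0_63_106__91_42_188, e0_63_106__91_42_189, e0_63_106__91_42_190, e0_63_106__91_42_191, e0_63_106__91_42_192, e0_63_106__91_42_193, e0_63_106__91_42_194, e0_63_106__91_42_195, e0_63_106__91_42_196, e0_63_106__91_42_197, e0_63_106__91_42_198, e0_63_106__91_42_199, e0_63_106__91_42_200, e0_63_106__91_42_201, e0_63_106__91_42_202, e0_63_106__91_42_203,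 e0_63_106__91_42_204, e0_63_106__91_42_205, e0_63_106__91_42_206, e0_63_106__91_42_207, e0_63_106__91_42_208, e0_63_106__91_42_209, e0_63_106__91_42_210, e0_63_106__91_42_211, e0_63_106__91_42_212, e0_63_106__91_42_213, e0_63_106__91_42_214, e0_63_106__91_42_215, e0_63_106__91_42_216, e0_63_106__91_42_217, e0_63_106__91_42_218, e0_63_106__91_42_219, e0_63_106__91_42_220, e0_63_106__91_42_221, e0_63_106__91_42_222, e0_63_106__91_42_223, e0_63_106__91_42_224, e0_63_106__91_42_225, e0_63_106__91_42_226, e0_63_106__91_42_227, e0_63_106__91_42_228, e0_63_106__91_42_229, e0_63_106__91_42_230, e0_63_106__91_42_231, e0_63_106__91_42_232, e0_63_106__91_42_233, e0_63_106__91_42_234, e0_63_106__91_42_235, e0_63_106__91_42_236, e0_63_106__91_42_237, e0_63_106__91_42_238, e0_63_106__91_42_239, e0_63_106__91_42_240, e0_63_106__91_42_241, e0_63_106__91_42_242, e0_63_106__91_42_243, e0_63_106__91_42_244, e0_63_106__91_42_245,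 e0_63_106__91_42_246, e0_63_106__91_42_247, e0_63_106__91_42_248, e0_63_106__91_42_249, e0_63_106__91_42_250], by decide +kernel, by decide +kernel⟩
def e0_63_106__95_42_0 : Ent 4 := ⟨[a0, a63, a106], [a95, a42, a1], (M a48 (F (T t309 (T t551 (L l28 (L l361 (T t579 N)))))))⟩
def e0_63_106__95_42_1 : Ent 4 := ⟨[a0, a63, a106], [a95, a42, a2], (M a48 (L l66 (F (T t309 (T t551 (L l28 (L l361 (T t579 (K a22 (M a62 (F (T t307 (L l22 (L l306 (T t5926 N)))))) (K a62 (M a22 (F (T t3405 (T t551 (L l28 (L l361 (T t579 N))))))) N))))))))))⟩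
def e0_63_106__95_42_2 : Ent 4 := ⟨[a0, a63, a106], [a95, a42, a3], (M a48 (F (T t5173 (L l453 (T t551 (L l28 (L l361 (T t579 N))))))))⟩
def e0_63_106__95_42_3 : Ent 4 := ⟨[a0, a63, a106], [a95, a42, a5], (M a48 (F (L l47 (T t309 (T t551 (L l28 (L l47 (L l361 (T t579 N)))))))))⟩
def e0_63_106__95_42_4 : Ent 4 := ⟨[a0, a63, a106], [a95, a42, a6], (M a48 (F (T t309 (T t551 (L l28 (L l361 (T t579 N)))))))⟩
def e0_63_106__95_42_5 : Ent 4 := ⟨[a0, a63, a106], [a95, a42, a7], (M a48 (F (T t309 (T t551 (L l28 (L l361 (T t579 N)))))))⟩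
def e0_63_106__95_42_6 : Ent 4 := ⟨[a0, a63, a106], [a95, a42, a10], (M a48 (L l54 (F (L l318 (T t309 (T t551 (L l28 (L l318 (L l361 (T t579 (K a26 (Fr a58 a53 l38 (V t6446)) (K a58 (M a26 (F (L l28 (T t4144 (T t551 (L l28 (L l361 (L l426 (T t6447 (K a32 (Fr a192 a149 l519 (Fr a15 a37 l75 (Fr a47 a31 l61 (V t6528)))) N)))))))))) N))))))))))))⟩
def e0_63_106__95_42_7 : Ent 4 := ⟨[a0, a63, a106], [a95, a42, a11], (M a48 (F (T t309 (T t551 (L l28 (L l361 (T t579 N)))))))⟩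
def e0_63_106__95_42_8 : Ent 4 := ⟨[a0, a63, a106], [a95, a42, a15], (M a48 (L l469 (F (T t5173 (L l483 (T t551 (L l28 (L l361 (T t579 (K a175 (M a255 (F (L l180 (T t7159 (L l325 (T t307 N)))))) (K a255 (M a175 (F (L l137 (T t585 (L l266 (L l483 (T t551 (L l289 (L l325 (T t7160 (T t7161 N))))))))))) N)))))))))))⟩
def e0_63_106__95_42_9 : Ent 4 := ⟨[a0, a63, a106], [a95, a42, a16], (M a12 (F (T t2304 (T t2305 (L l56 (T t2415 N))))))⟩
def e0_63_106__95_42_10 : Ent 4 := ⟨[a0, a63, a106], [a95, a42, a17], (M a48 (F (T t309 (T t551 (L l28 (L l361 (T t579 N)))))))⟩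
def e0_63_106__95_42_11 : Ent 4 := ⟨[a0, a63, a106], [a95, a42, a18], (M a48 (F (T t309 (T t551 (L l28 (L l361 (T t579 N)))))))⟩
def e0_63_106__95_42_12 : Ent 4 := ⟨[a0, a63, a106], [a95, a42, a19], (M a48 (F (T t309 (T t551 (L l28 (L l361 (L l367 (T t579 N))))))))⟩
def e0_63_106__95_42_13 : Ent 4 := ⟨[a0, a63, a106], [a95, a42, a21], (M a48 (F (L l47 (T t309 (L l347 (T t551 (L l28 (L l47 (L l361 (T t579 N))))))))))⟩
def e0_63_106__95_42_14 : Ent 4 := ⟨[a0, a63, a106], [a95, a42, a22], (M a48 (L l66 (F (T t309 (T t551 (L l28 (L l361 (T t579 (K a2 (M a62 (F (T t307 (L l22 (L l306 (T t5926 N)))))) (K a62 (M a2 (F (T t307 (L l19 (L l28 (T t342 N)))))) N))))))))))⟩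
def e0_63_106__95_42_15 : Ent 4 := ⟨[a0, a63, a106], [a95, a42, a23], (M a48 (F (T t309 (L l351 (T t551 (L l28 (L l361 (T t579 N))))))))⟩
def e0_63_106__95_42_16 : Ent 4 := ⟨[a0, a63, a106], [a95, a42, a26], (M a48 (L l54 (F (T t309 (T t551 (L l28 (L l361 (T t579 (K a10 (Fr a58 a53 l38 (V t6446)) (K a58 (M a10 (F (T t4033 (T t551 (L l18 (L l137 (L l361 (L l426 (T t7162 (L l18 (L l94 (L l354 (L l361 (T t7163 N)))))))))))))) N))))))))))⟩
def e0_63_106__95_42_17 : Ent 4 := ⟨[a0, a63, a106], [a95, a42, a27], (M a48 (F (T t309 (T t551 (L l28 (L l361 (T t579 N)))))))⟩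
def e0_63_106__95_42_18 : Ent 4 := ⟨[a0, a63, a106], [a95, a42, a31], (M a12 (L l361 (F (L l13 (T t2304 (L l375 (T t2305 (L l13 (L l56 (T t2415 (K a159 (M a223 (F (L l26 (T t3885 (L l170 (L l375 (T t2305 (L l13 (L l56 (T t2415 N)))))))))) (K a223 (M a159 (F (T t7164 (L l13 (L l56 (T t2415 N)))))) N))))))))))))⟩
def e0_63_106__95_42_19 : Ent 4 := ⟨[a0, a63, a106], [a95, a42, a32], (M a12 (L l28 (F (T t2304 (T t2305 (L l56 (T t2415 (K a37 (M a47 (F (T t2418 (L l54 (L l361 (L l376 (T t6764 N))))))) (K a47 (M a37 (F (T t2416 (L l56 (T t2415 (T t2305 N)))))) N)))))))))⟩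
def e0_63_106__95_42_20 : Ent 4 := ⟨[a0, a63, a106], [a95, a42, a33], (M a48 (F (T t309 (T t551 (L l20 (L l28 (L l361 (T t579 N))))))))⟩
def e0_63_106__95_42_21 : Ent 4 := ⟨[a0, a63, a106], [a95, a42, a34], (M a48 (L l26 (F (T t309 (T t551 (L l20 (L l28 (L l361 (T t579 (K a38 (M a46 (F (T t307 (L l56 (L l378 (T t4030 N)))))) (K a46 (M a38 (F (T t3405 (T t551 (L l20 (L l28 (L l361 (T t579 N)))))))) N)))))))))))⟩
def e0_63_106__95_42_22 : Ent 4 := ⟨[a0, a63, a106], [a95, a42, a35], (M a48 (F (T t309 (T t551 (L l20 (L l28 (L l361 (T t579 N))))))))⟩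
def e0_63_106__95_42_23 : Ent 4 := ⟨[a0, a63, a106], [a95, a42, a37], (M a12 (L l28 (F (T t2304 (T t2305 (L l56 (T t2415 (K a32 (M a47 (F (T t2418 (L l54 (L l361 (L l376 (T t6764 N))))))) (K a47 (M a32 (F (T t2304 (L l51 (L l56 (T t682 N)))))) N)))))))))⟩
def e0_63_106__95_42_24 : Ent 4 := ⟨[a0, a63, a106], [a95, a42, a38], (M a48 (L l26 (F (T t309 (T t551 (L l28 (L l361 (T t579 (K a34 (M a46 (F (T t307 (L l56 (L l378 (T t4030 N)))))) (K a46 (M a34 (F (T t309 (L l29 (L l66 (T t6453 N)))))) N))))))))))⟩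
def e0_63_106__95_42_25 : Ent 4 := ⟨[a0, a63, a106], [a95, a42, a39], (M a48 (F (T t309 (T t551 (L l28 (L l361 (T t579 N)))))))⟩
def e0_63_106__95_42_26 : Ent 4 := ⟨[a0, a63, a106], [a95, a42, a43], (M a48 (L l22 (F (T t309 (T t551 (L l28 (L l361 (T t579 (K a40 (M a41 (F (T t3405 (T t551 (L l24 (L l28 (L l361 (T t579 N)))))))) (K a41 (M a40 (F (T t309 (L l29 (L l69 (T t6452 N)))))) N))))))))))⟩
def e0_63_106__95_42_27 : Ent 4 := ⟨[a0, a63, a106], [a95, a42, a47], (M a12 (L l28 (F (T t2304 (T t2305 (L l56 (T t2415 (K a32 (M a37 (F (T t2416 (L l56 (T t2415 (T t2305 N)))))) (K a37 (M a32 (F (T t2304 (L l51 (L l56 (T t682 N)))))) N)))))))))⟩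
def e0_63_106__95_42_28 : Ent 4 := ⟨[a0, a63, a106], [a95, a42, a48], (M a12 (F (T t2419 (L l508 (T t2305 (L l56 (T t2415 N)))))))⟩
def e0_63_106__95_42_29 : Ent 4 := ⟨[a0, a63, a106], [a95, a42, a49], (M a48 (F (L l35 (T t309 (T t551 (L l28 (L l35 (L l361 (T t579 N)))))))))⟩
def e0_63_106__95_42_30 : Ent 4 := ⟨[a0, a63, a106], [a95, a42, a50], (M a48 (F (T t309 (T t551 (L l28 (L l361 (T t579 N)))))))⟩
def e0_63_106__95_42_31 : Ent 4 := ⟨[a0, a63, a106], [a95, a42, a51], (M a48 (F (T t5173 (L l417 (T t551 (L l28 (L l361 (T t579 N))))))))⟩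
def e0_63_106__95_42_32 : Ent 4 := ⟨[a0, a63, a106], [a95, a42, a53], (M a12 (F (T t2304 (L l491 (T t2305 (L l56 (T t2415 N)))))))⟩
def e0_63_106__95_42_33 : Ent 4 := ⟨[a0, a63, a106], [a95, a42, a54], (M a48 (F (L l31 (T t309 (T t551 (L l28 (L l31 (L l361 (T t579 N)))))))))⟩
def e0_63_106__95_42_34 : Ent 4 := ⟨[a0, a63, a106], [a95, a42, a55], (M a48 (F (L l31 (T t309 (L l495 (T t551 (L l28 (L l31 (L l361 (T t579 N))))))))))⟩
def e0_63_106__95_42_35 : Ent 4 := ⟨[a0, a63, a106], [a95, a42, a58], (M a12 (L l54 (F (T t2304 (T t2305 (L l56 (T t2415 (K a10 (M a26 (F (T t2416 (L l2 (L l56 (T t2415 (T t2305 N))))))) (K a26 (M a10 (F (T t2304 (L l57 (L l66 (T t6765 N)))))) N)))))))))⟩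
def e0_63_106__95_42_36 : Ent 4 := ⟨[a0, a63, a106], [a95, a42, a59], (M a48 (L l56 (F (T t309 (T t551 (L l28 (L l361 (T t579 (K a8 (M a25 (F (T t3405 (T t551 (L l28 (L l361 (T t579 N))))))) (K a25 (M a8 (F (T t307 (L l19 (L l28 (T t4700 N)))))) N))))))))))⟩
def e0_63_106__95_42_37 : Ent 4 := ⟨[a0, a63, a106], [a95, a42, a64], (M a48 (F (T t309 (L l28 (L l137 (L l361 (T t6455 (L l54 (T t6458 (L l28 (L l361 (L l469 (T t6454 (L l28 (L l361 (T t6456 (L l28 (L l84 (L l361 (L l469 (T t6457 (K a207 (Fr a192 a149 l519 (Fr a96 a144 l484 (Fr a101 a111 l104 (Fr a32 a16 l40 (V t6459))))) N))))))))))))))))))))))⟩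
def e0_63_106__95_42_38 : Ent 4 := ⟨[a0, a63, a106], [a95, a42, a65], (M a48 (F (T t309 (L l76 (T t551 (L l28 (L l76 (L l361 (T t579 N)))))))))⟩
def e0_63_106__95_42_39 : Ent 4 := ⟨[a0, a63, a106], [a95, a42, a66], (M a48 (F (T t307 (L l28 (L l76 (L l361 (T t579 (L l76 (T t551 N)))))))))⟩
def e0_63_106__95_42_40 : Ent 4 := ⟨[a0, a63, a106], [a95, a42, a67], (M a48 (F (T t309 (L l76 (T t551 (L l28 (L l76 (L l361 (T t579 N)))))))))⟩
def e0_63_106__95_42_41 : Ent 4 := ⟨[a0, a63, a106], [a95, a42, a69], (M a48 (F (T t309 (L l84 (T t551 (L l28 (L l84 (L l361 (T t579 N)))))))))⟩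
def e0_63_106__95_42_42 : Ent 4 := ⟨[a0, a63, a106], [a95, a42, a70], (M a48 (F (T t309 (T t551 (L l28 (L l361 (T t579 N)))))))⟩
def e0_63_106__95_42_43 : Ent 4 := ⟨[a0, a63, a106], [a95, a42, a71], (M a48 (F (T t309 (T t551 (L l28 (L l361 (T t579 N)))))))⟩
def e0_63_106__95_42_44 : Ent 4 := ⟨[a0, a63, a106], [a95, a42, a74], (M a48 (F (L l137 (T t578 (L l28 (T t6462 (L l28 (L l84 (L l318 (L l361 (T t579 N)))))))))))⟩
def e0_63_106__95_42_45 : Ent 4 := ⟨[a0, a63, a106], [a95, a42, a75], (M a48 (F (T t309 (T t551 (L l28 (L l361 (T t579 N)))))))⟩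
def e0_63_106__95_42_46 : Ent 4 := ⟨[a0, a63, a106], [a95, a42, a79], (M a48 (L l137 (F (T t309 (L l84 (T t551 (L l28 (L l84 (L l361 (T t579 (K a111 (M a127 (F (T t6826 (L l151 (T t1171 N))))) (K a127 (M a111 (F (T t6827 (L l84 (T t551 N))))) N))))))))))))⟩
def e0_63_106__95_42_47 : Ent 4 := ⟨[a0, a63, a106], [a95, a42, a80], (M a12 (L l94 (F (T t2304 (L l116 (T t2305 (L l56 (L l116 (T t2415 (K a85 (M a90 (F (T t7165 (L l116 (L l347 (T t2305 N)))))) (K a90 (M a85 (F (L l137 (T t5958 (L l56 (L l88 (L l469 (T t1366 N)))))))) N)))))))))))⟩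
def e0_63_106__95_42_48 : Ent 4 := ⟨[a0, a63, a106], [a95, a42, a81], (M a48 (F (T t309 (L l120 (T t551 (L l28 (L l120 (L l361 (T t579 N)))))))))⟩
def e0_63_106__95_42_49 : Ent 4 := ⟨[a0, a63, a106], [a95, a42, a82], (M a48 (F (T t309 (L l453 (T t551 (L l28 (L l361 (T t579 N))))))))⟩
def e0_63_106__95_42_50 : Ent 4 := ⟨[a0, a63, a106], [a95, a42, a83], (M a48 (L l93 (F (T t309 (T t551 (L l28 (L l361 (T t579 (K a87 (M a91 (F (T t3405 (T t551 (L l28 (L l361 (L l367 (T t579 N)))))))) (K a91 (M a87 (F (T t3405 (T t551 (L l28 (L l361 (T t579 N))))))) N))))))))))⟩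
def e0_63_106__95_42_51 : Ent 4 := ⟨[a0, a63, a106], [a95, a42, a85], (M a48 (L l94 (F (T t309 (L l347 (T t551 (L l54 (T t777 (L l137 (L l368 (T t6465 (K a192 (M a90 (F (L l339 (T t7166 (L l28 (L l236 (L l361 (T t7167 (L l137 (L l339 (T t7168 (L l54 (L l123 (L l236 (T t7169 (L l123 (L l236 (L l339 (T t7170 N))))))))))))))))))) (K a80 (M a90 (F (L l455 (T t7171 (L l347 (T t307 (L l54 (L l455 (T t7172 N))))))))) (K a90 (M a80 (F (T t309 (T t4032 (L l151 (L l469 (T t3329 N))))))) N))))))))))))))⟩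
def e0_63_106__95_42_52 : Ent 4 := ⟨[a0, a63, a106], [a95, a42, a86], (M a48 (F (T t309 (L l351 (T t551 (L l28 (L l361 (T t579 N))))))))⟩
def e0_63_106__95_42_53 : Ent 4 := ⟨[a0, a63, a106], [a95, a42, a87], (M a48 (L l93 (F (T t309 (T t551 (L l28 (L l361 (L l367 (T t579 (K a83 (M a91 (F (T t3405 (T t551 (L l28 (L l361 (L l367 (T t579 N)))))))) (K a91 (M a83 (F (T t3405 (T t551 (L l28 (L l361 (L l367 (T t579 N)))))))) N)))))))))))⟩
def e0_63_106__95_42_54 : Ent 4 := ⟨[a0, a63, a106], [a95, a42, a90], (M a48 (L l94 (F (T t309 (L l375 (L l483 (T t551 (L l28 (L l361 (T t579 (K a80 (M a85 (F (L l137 (T t5958 (L l462 (T t873 N)))))) (K a85 (M a80 (F (T t309 (T t4032 (L l151 (L l469 (T t3329 N))))))) N))))))))))))⟩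
def e0_63_106__95_42_55 : Ent 4 := ⟨[a0, a63, a106], [a95, a42, a91], (M a48 (L l93 (F (T t309 (T t551 (L l28 (L l361 (T t579 (K a83 (M a87 (F (T t3405 (T t551 (L l28 (L l361 (T t579 N))))))) (K a87 (M a83 (F (T t3405 (T t551 (L l28 (L l361 (L l367 (T t579 N)))))))) N))))))))))⟩
def e0_63_106__95_42_56 : Ent 4 := ⟨[a0, a63, a106], [a95, a42, a96], (M a12 (F (T t2414 (L l56 (L l116 (T t2415 (L l116 (T t2305 N))))))))⟩
def e0_63_106__95_42_57 : Ent 4 := ⟨[a0, a63, a106], [a95, a42, a97], (M a48 (F (T t309 (L l96 (T t551 (L l28 (L l361 (L l380 (T t579 N)))))))))⟩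
def e0_63_106__95_42_58 : Ent 4 := ⟨[a0, a63, a106], [a95, a42, a98], (M a48 (F (T t307 (L l28 (L l120 (L l361 (T t579 (L l96 (L l120 (T t551 N))))))))))⟩
def e0_63_106__95_42_59 : Ent 4 := ⟨[a0, a63, a106], [a95, a42, a99], (M a48 (F (T t309 (L l96 (T t551 (L l28 (L l361 (T t579 N))))))))⟩
def e0_63_106__95_42_60 : Ent 4 := ⟨[a0, a63, a106], [a95, a42, a101], (M a12 (F (T t2304 (L l491 (T t2305 (L l56 (T t2415 N)))))))⟩
def e0_63_106__95_42_61 : Ent 4 := ⟨[a0, a63, a106], [a95, a42, a102], (M a48 (F (T t309 (L l495 (T t551 (L l28 (L l361 (T t579 N))))))))⟩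
def e0_63_106__95_42_62 : Ent 4 := ⟨[a0, a63, a106], [a95, a42, a103], (M a48 (F (T t309 (T t551 (L l28 (L l361 (T t579 N)))))))⟩
def e0_63_106__95_42_63 : Ent 4 := ⟨[a0, a63, a106], [a95, a42, a107], (M a48 (F (T t309 (T t551 (L l28 (L l361 (T t579 N)))))))⟩
def e0_63_106__95_42_64 : Ent 4 := ⟨[a0, a63, a106], [a95, a42, a111], (M a12 (L l137 (F (T t2304 (T t2305 (L l56 (T t2415 (K a79 (M a127 (F (T t6592 (T t2419 N)))) (K a127 (M a79 (F (T t2418 (T t2305 (L l56 (L l469 (T t7173 (L l56 (T t7174 N))))))))) N)))))))))⟩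
def e0_63_106__95_42_65 : Ent 4 := ⟨[a0, a63, a106], [a95, a42, a112], (M a48 (F (T t309 (L l28 (L l116 (T t6462 (L l28 (L l116 (L l361 (T t579 N))))))))))⟩
def e0_63_106__95_42_66 : Ent 4 := ⟨[a0, a63, a106], [a95, a42, a113], (M a48 (F (T t309 (T t551 (L l28 (L l361 (T t579 N)))))))⟩
def e0_63_106__95_42_67 : Ent 4 := ⟨[a0, a63, a106], [a95, a42, a114], (M a48 (F (T t309 (L l417 (T t551 (L l28 (L l361 (T t579 N))))))))⟩
def e0_63_106__95_42_68 : Ent 4 := ⟨[a0, a63, a106], [a95, a42, a115], (M a48 (F (T t309 (L l120 (T t551 (L l28 (L l120 (L l361 (T t579 N)))))))))⟩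
def e0_63_106__95_42_69 : Ent 4 := ⟨[a0, a63, a106], [a95, a42, a117], (M a48 (F (L l419 (T t309 (T t551 (L l28 (L l361 (L l419 (T t579 N)))))))))⟩
def e0_63_106__95_42_70 : Ent 4 := ⟨[a0, a63, a106], [a95, a42, a118], (M a48 (F (T t309 (T t551 (L l28 (L l361 (T t579 N)))))))⟩
def e0_63_106__95_42_71 : Ent 4 := ⟨[a0, a63, a106], [a95, a42, a119], (M a48 (F (T t309 (T t551 (L l28 (L l361 (T t579 N)))))))⟩
def e0_63_106__95_42_72 : Ent 4 := ⟨[a0, a63, a106], [a95, a42, a122], (M a48 (F (T t309 (T t551 (L l28 (L l361 (T t579 N)))))))⟩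
def e0_63_106__95_42_73 : Ent 4 := ⟨[a0, a63, a106], [a95, a42, a123], (M a48 (F (T t309 (T t551 (L l28 (L l361 (T t579 N)))))))⟩
def e0_63_106__95_42_74 : Ent 4 := ⟨[a0, a63, a106], [a95, a42, a127], (M a48 (L l137 (F (T t309 (T t551 (L l28 (L l361 (L l469 (T t6454 (L l28 (L l361 (T t6479 (K a79 (M a111 (F (T t6827 (L l84 (T t551 N))))) (K a111 (M a79 (F (T t551 (L l28 (L l361 (L l469 (T t6454 (L l54 (L l114 (T t7175 (L l28 (L l361 (T t6479 N))))))))))))) N))))))))))))))⟩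
def e0_63_106__95_42_75 : Ent 4 := ⟨[a0, a63, a106], [a95, a42, a128], (M a48 (F (L l137 (T t304 (L l28 (L l361 (T t579 (L l94 (L l137 (L l192 (L l220 (T t6480 (L l54 (L l160 (L l469 (T t6481 N))))))))))))))))⟩
def e0_63_106__95_42_76 : Ent 4 := ⟨[a0, a63, a106], [a95, a42, a129], (M a48 (F (L l309 (T t309 (L l217 (T t551 (L l28 (L l361 (T t579 N)))))))))⟩
def e0_63_106__95_42_77 : Ent 4 := ⟨[a0, a63, a106], [a95, a42, a130], (M a48 (F (T t309 (T t551 (L l28 (L l361 (T t579 N)))))))⟩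
def e0_63_106__95_42_78 : Ent 4 := ⟨[a0, a63, a106], [a95, a42, a131], (M a48 (F (T t309 (L l197 (T t551 (L l28 (L l361 (T t579 N))))))))⟩
def e0_63_106__95_42_79 : Ent 4 := ⟨[a0, a63, a106], [a95, a42, a133], (M a48 (F (L l339 (T t309 (L l199 (T t551 (L l28 (L l361 (T t579 N)))))))))⟩
def e0_63_106__95_42_80 : Ent 4 := ⟨[a0, a63, a106], [a95, a42, a134], (M a48 (F (T t309 (T t551 (L l28 (L l361 (T t579 N)))))))⟩
def e0_63_106__95_42_81 : Ent 4 := ⟨[a0, a63, a106], [a95, a42, a135], (M a48 (F (T t309 (T t551 (L l28 (L l361 (T t579 N)))))))⟩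
def e0_63_106__95_42_82 : Ent 4 := ⟨[a0, a63, a106], [a95, a42, a138], (M a48 (F (L l318 (T t309 (T t551 (L l28 (L l318 (L l361 (T t579 N)))))))))⟩
def e0_63_106__95_42_83 : Ent 4 := ⟨[a0, a63, a106], [a95, a42, a139], (M a48 (F (T t309 (T t551 (L l28 (L l361 (T t579 N)))))))⟩
def e0_63_106__95_42_84 : Ent 4 := ⟨[a0, a63, a106], [a95, a42, a143], (M a48 (F (T t309 (L l28 (T t6462 (L l28 (L l361 (T t579 N))))))))⟩
def e0_63_106__95_42_85 : Ent 4 := ⟨[a0, a63, a106], [a95, a42, a144], (M a12 (F (T t2414 (L l56 (T t2415 (L l170 (T t2305 N)))))))⟩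
def e0_63_106__95_42_86 : Ent 4 := ⟨[a0, a63, a106], [a95, a42, a145], (M a48 (F (L l137 (T t304 (L l167 (T t551 (L l28 (L l361 (T t579 N)))))))))⟩
def e0_63_106__95_42_87 : Ent 4 := ⟨[a0, a63, a106], [a95, a42, a146], (M a48 (F (T t3405 (L l197 (T t551 (L l28 (L l361 (T t579 N))))))))⟩
def e0_63_106__95_42_88 : Ent 4 := ⟨[a0, a63, a106], [a95, a42, a147], (M a48 (F (T t3405 (T t551 (L l28 (L l361 (T t579 N)))))))⟩
def e0_63_106__95_42_89 : Ent 4 := ⟨[a0, a63, a106], [a95, a42, a149], (M a204 (F (L l167 (T t6655 (L l94 (L l167 (L l347 (T t6636 (L l56 (L l167 (L l495 (T t6635 (L l56 (L l137 (L l167 (L l220 (L l495 (T t6637 (K a145 (M a153 (F (T t6638 (L l56 (L l137 (L l196 (L l220 (L l341 (L l495 (T t6639 (L l137 (L l196 (L l220 (L l469 (T t6640 N))))))))))))))) (K a153 (M a102 (L l167 (F (T t6641 (L l208 (T t6642 (K a145 (Fr a157 a110 l507 (V t6642)) (K a157 (M a145 (F (L l208 (T t6642 (L l226 (T t6817 (L l365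 (T t6643 N)))))))) N)))))))) (K a157 (M a153 (F (T t6645 (T t6646 (L l56 (L l137 (L l220 (L l495 (T t6639 (L l137 (L l220 (L l469 (T t6640 N))))))))))))) (K a98 (M a48 (F (T t2046 (L l28 (L l120 (L l361 (L l491 (T t579 (L l491 (L l495 (T t6651 N))))))))))) (K a102 (M a12 (L l495 (F (T t752 (L l167 (L l371 (L l402 (L l469 (T t765 (L l56 (L l371 (T t2415 (K a196 (M a55 (F (L l56 (L l347 (T t6649 (L l150 (L l220 (L l469 (T t3459 N))))))))) (K a55 (M a196 (F (T t6650 (L l167 (L l371 (L l402 (L l469 (T t765 N)))))))) N)))))))))))))) (K a110 (M a48 (F (T t2046 (L l28 (L l361 (L l491 (T t579 (L l491 (L l495 (T t6651 N)))))))))) N))))))))))))))))))))))))⟩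
def e0_63_106__95_42_90 : Ent 4 := ⟨[a0, a63, a106], [a95, a42, a150], (M a48 (F (T t309 (L l163 (T t551 (L l28 (L l361 (T t579 N))))))))⟩
def e0_63_106__95_42_91 : Ent 4 := ⟨[a0, a63, a106], [a95, a42, a151], (M a48 (F (T t309 (L l163 (T t551 (L l28 (L l361 (T t579 N))))))))⟩
def e0_63_106__95_42_92 : Ent 4 := ⟨[a0, a63, a106], [a95, a42, a154], (M a12 (F (T t2304 (L l170 (T t2305 (L l56 (T t2415 N)))))))⟩
def e0_63_106__95_42_93 : Ent 4 := ⟨[a0, a63, a106], [a95, a42, a155], (M a48 (F (T t309 (T t551 (L l28 (L l361 (L l367 (T t579 N))))))))⟩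
def e0_63_106__95_42_94 : Ent 4 := ⟨[a0, a63, a106], [a95, a42, a159], (M a12 (L l361 (F (T t2304 (L l170 (T t2305 (L l56 (T t2415 (K a31 (M a223 (F (L l26 (T t3885 (L l170 (L l375 (T t2305 (L l13 (L l56 (T t2415 N)))))))))) (K a223 (M a31 (F (T t6812 (L l28 (L l54 (T t7139 N)))))) N))))))))))⟩
def e0_63_106__95_42_95 : Ent 4 := ⟨[a0, a63, a106], [a95, a42, a160], (M a12 (F (T t2304 (T t2305 (L l56 (T t2415 N))))))⟩
def e0_63_106__95_42_96 : Ent 4 := ⟨[a0, a63, a106], [a95, a42, a161], (M a48 (F (T t309 (L l197 (L l453 (T t551 (L l28 (L l361 (T t579 N)))))))))⟩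
def e0_63_106__95_42_97 : Ent 4 := ⟨[a0, a63, a106], [a95, a42, a162], (M a48 (F (T t309 (T t551 (L l28 (L l361 (L l380 (T t579 N))))))))⟩
def e0_63_106__95_42_98 : Ent 4 := ⟨[a0, a63, a106], [a95, a42, a163], (M a48 (F (T t309 (T t551 (L l28 (L l361 (T t579 N)))))))⟩
def e0_63_106__95_42_99 : Ent 4 := ⟨[a0, a63, a106], [a95, a42, a165], (M a48 (F (T t309 (L l28 (L l199 (L l483 (T t6462 (L l28 (L l361 (T t579 N))))))))))⟩
def e0_63_106__95_42_100 : Ent 4 := ⟨[a0, a63, a106], [a95, a42, a166], (M a48 (F (T t309 (L l202 (T t551 (L l28 (L l361 (T t579 N))))))))⟩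
def e0_63_106__95_42_101 : Ent 4 := ⟨[a0, a63, a106], [a95, a42, a167], (M a48 (F (T t309 (T t551 (L l28 (L l361 (T t579 N)))))))⟩
def e0_63_106__95_42_102 : Ent 4 := ⟨[a0, a63, a106], [a95, a42, a170], (M a48 (F (T t309 (L l220 (T t551 (L l28 (L l206 (L l220 (L l361 (L l404 (T t552 (L l28 (L l206 (L l361 (L l404 (T t553 N))))))))))))))))⟩
def e0_63_106__95_42_103 : Ent 4 := ⟨[a0, a63, a106], [a95, a42, a171], (M a48 (F (T t309 (T t551 (L l28 (L l361 (T t579 N)))))))⟩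
def e0_63_106__95_42_104 : Ent 4 := ⟨[a0, a63, a106], [a95, a42, a175], (M a15 (F (T t7158 (L l54 (L l361 (T t2532 (L l213 (T t6819 N))))))))⟩
def e0_63_106__95_42_105 : Ent 4 := ⟨[a0, a63, a106], [a95, a42, a176], (M a12 (F (T t2304 (L l222 (T t2305 (L l56 (T t2415 N)))))))⟩
def e0_63_106__95_42_106 : Ent 4 := ⟨[a0, a63, a106], [a95, a42, a177], (M a48 (F (T t309 (L l182 (L l417 (T t551 (L l28 (L l361 (T t579 N)))))))))⟩
def e0_63_106__95_42_107 : Ent 4 := ⟨[a0, a63, a106], [a95, a42, a178], (M a48 (F (T t309 (L l182 (T t551 (L l28 (L l361 (T t579 N))))))))⟩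
def e0_63_106__95_42_108 : Ent 4 := ⟨[a0, a63, a106], [a95, a42, a179], (M a48 (F (T t309 (L l182 (T t551 (L l28 (L l361 (T t579 N))))))))⟩
def e0_63_106__95_42_109 : Ent 4 := ⟨[a0, a63, a106], [a95, a42, a181], (M a48 (F (L l419 (T t309 (L l190 (L l199 (T t551 (L l28 (L l361 (L l419 (T t579 N)))))))))))⟩
def e0_63_106__95_42_110 : Ent 4 := ⟨[a0, a63, a106], [a95, a42, a182], (M a48 (F (T t309 (T t551 (L l28 (L l361 (T t579 N)))))))⟩
def e0_63_106__95_42_111 : Ent 4 := ⟨[a0, a63, a106], [a95, a42, a183], (M a48 (F (T t309 (L l202 (T t551 (L l28 (L l361 (T t579 N))))))))⟩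
def e0_63_106__95_42_112 : Ent 4 := ⟨[a0, a63, a106], [a95, a42, a186], (M a48 (F (T t309 (L l190 (T t551 (L l28 (L l361 (T t579 N))))))))⟩
def e0_63_106__95_42_113 : Ent 4 := ⟨[a0, a63, a106], [a95, a42, a187], (M a48 (F (T t309 (T t551 (L l28 (L l361 (T t579 N)))))))⟩
def e0_63_106__95_42_114 : Ent 4 := ⟨[a0, a63, a106], [a95, a42, a191], (M a48 (F (T t309 (L l190 (L l220 (T t551 (L l28 (L l361 (L l469 (T t6498 (L l28 (L l361 (T t6499 N)))))))))))))⟩
def e0_63_106__95_42_115 : Ent 4 := ⟨[a0, a63, a106], [a95, a42, a192], (M a204 (F (L l489 (T t6655 (L l272 (L l489 (T t6656 (L l296 (L l469 (L l489 (T t6657 (L l56 (L l489 (T t6658 (L l489 (T t6659 (K a145 (M a102 (L l489 (F (T t6641 (T t6660 (K a98 (Fr a51 a153 l513 (V t6661)) (K a51 (Fr a98 a110 l102 (V t6662)) N))))))) (K a85 (M a90 (F (L l339 (T t7176 (L l489 (T t7177 (L l361 (L l489 (T t7178 (L l339 (L l455 (T t7179 (L l28 (L l268 (L l339 (L l455 (L l489 (T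 t7180 N)))))))))))))))))) (K a157 (M a48 (F (T t5482 (L l28 (L l236 (L l361 (T t579 (L l236 (T t6651 N))))))))) (K a98 (M a153 (L l489 (F (T t6645 (L l296 (L l469 (T t6668 (L l26 (L l120 (L l378 (T t6669 (K a145 (Fr a51 a102 l513 (V t6670)) (K a51 (M a145 (F (T t6671 (L l56 (L l272 (L l334 (L l378 (T t6672 N)))))))) N))))))))))))) (K a102 (M a252 (F (L l484 (T t6673 (L l148 (L l339 (L l469 (T t6674 (L l93 (L l309 (T t6675 N))))))))))) (K a110 (M a48 (F (T t6676 (L l28 (L l236 (L l361 (T t579 (L l236 (T t6651 N))))))))) (K a51 (M a48 (L l489 (F (T t5482 (L l236 (T t6677 (K a145 (M a98 (F (T t6678 (L l292 (L l441 (T t1315 N)))))) (K a98 (M a145 (F (T t5482 (L l28 (L l120 (L l236 (L l361 (T t579 (L l511 (T t6679 N)))))))))) N)))))))) N)))))))))))))))))))))))⟩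
def e0_63_106__95_42_116 : Ent 4 := ⟨[a0, a63, a106], [a95, a42, a193], (M a48 (F (L l228 (T t309 (L l515 (T t551 (L l28 (L l361 (T t579 N)))))))))⟩
def e0_63_106__95_42_117 : Ent 4 := ⟨[a0, a63, a106], [a95, a42, a194], (M a48 (F (T t551 (L l137 (L l234 (T t585 (L l28 (L l234 (L l361 (T t579 N))))))))))⟩
def e0_63_106__95_42_118 : Ent 4 := ⟨[a0, a63, a106], [a95, a42, a195], (M a48 (F (T t5173 (L l273 (T t551 (L l28 (L l361 (T t579 N))))))))⟩
def e0_63_106__95_42_119 : Ent 4 := ⟨[a0, a63, a106], [a95, a42, a197], (M a12 (F (T t2414 (L l56 (T t2415 (L l491 (T t2305 N)))))))⟩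
def e0_63_106__95_42_120 : Ent 4 := ⟨[a0, a63, a106], [a95, a42, a198], (M a48 (F (L l234 (T t309 (T t551 (L l28 (L l234 (L l361 (T t579 N)))))))))⟩
def e0_63_106__95_42_121 : Ent 4 := ⟨[a0, a63, a106], [a95, a42, a199], (M a48 (F (T t309 (T t551 (L l28 (L l361 (T t579 N)))))))⟩
def e0_63_106__95_42_122 : Ent 4 := ⟨[a0, a63, a106], [a95, a42, a202], (M a12 (F (T t2414 (L l56 (T t2415 (T t2305 N))))))⟩
def e0_63_106__95_42_123 : Ent 4 := ⟨[a0, a63, a106], [a95, a42, a203], (M a48 (F (L l230 (T t309 (T t551 (L l28 (L l230 (L l361 (T t579 N)))))))))⟩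
def e0_63_106__95_42_124 : Ent 4 := ⟨[a0, a63, a106], [a95, a42, a207], (M a12 (F (T t2419 (L l231 (T t2305 (L l56 (T t2415 N)))))))⟩
def e0_63_106__95_42_125 : Ent 4 := ⟨[a0, a63, a106], [a95, a42, a208], (M a12 (F (T t2419 (L l375 (T t2305 (L l56 (T t2415 N)))))))⟩
def e0_63_106__95_42_126 : Ent 4 := ⟨[a0, a63, a106], [a95, a42, a209], (M a48 (F (L l272 (T t309 (L l371 (T t551 (L l28 (L l361 (T t579 N)))))))))⟩
def e0_63_106__95_42_127 : Ent 4 := ⟨[a0, a63, a106], [a95, a42, a210], (M a48 (F (T t309 (L l273 (T t551 (L l28 (L l361 (T t579 N))))))))⟩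
def e0_63_106__95_42_128 : Ent 4 := ⟨[a0, a63, a106], [a95, a42, a211], (M a48 (F (T t309 (T t551 (L l28 (L l245 (L l361 (T t579 N))))))))⟩
def e0_63_106__95_42_129 : Ent 4 := ⟨[a0, a63, a106], [a95, a42, a213], (M a48 (F (L l296 (T t309 (L l347 (T t551 (L l28 (L l246 (L l361 (T t579 N))))))))))⟩
def e0_63_106__95_42_130 : Ent 4 := ⟨[a0, a63, a106], [a95, a42, a214], (M a48 (F (T t309 (T t551 (L l28 (L l361 (T t579 N)))))))⟩
def e0_63_106__95_42_131 : Ent 4 := ⟨[a0, a63, a106], [a95, a42, a215], (M a48 (F (T t309 (T t551 (L l28 (L l245 (L l361 (T t579 N))))))))⟩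
def e0_63_106__95_42_132 : Ent 4 := ⟨[a0, a63, a106], [a95, a42, a218], (M a48 (F (L l282 (T t309 (L l28 (T t2289 (L l28 (L l246 (L l282 (L l361 (T t579 N)))))))))))⟩
def e0_63_106__95_42_133 : Ent 4 := ⟨[a0, a63, a106], [a95, a42, a219], (M a48 (F (T t309 (T t551 (L l28 (L l245 (L l361 (T t579 N))))))))⟩
def e0_63_106__95_42_134 : Ent 4 := ⟨[a0, a63, a106], [a95, a42, a223], (M a12 (L l361 (F (T t2304 (T t2305 (L l56 (T t2415 (K a31 (M a159 (F (T t7164 (L l13 (L l56 (T t2415 N)))))) (K a159 (M a31 (F (T t6812 (L l28 (L l54 (T t7139 N)))))) N)))))))))⟩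
def e0_63_106__95_42_135 : Ent 4 := ⟨[a0, a63, a106], [a95, a42, a224], (M a48 (F (L l268 (T t309 (L l28 (L l361 (L l376 (T t579 (L l268 (L l376 (T t551 N)))))))))))⟩
def e0_63_106__95_42_136 : Ent 4 := ⟨[a0, a63, a106], [a95, a42, a225], (M a48 (F (T t309 (L l273 (T t551 (L l28 (L l361 (T t579 N))))))))⟩
def e0_63_106__95_42_137 : Ent 4 := ⟨[a0, a63, a106], [a95, a42, a226], (M a48 (F (T t307 (L l28 (L l361 (T t579 (T t551 N)))))))⟩
def e0_63_106__95_42_138 : Ent 4 := ⟨[a0, a63, a106], [a95, a42, a227], (M a48 (F (T t309 (T t551 (L l28 (L l361 (L l380 (T t579 N))))))))⟩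
def e0_63_106__95_42_139 : Ent 4 := ⟨[a0, a63, a106], [a95, a42, a229], (M a48 (F (T t309 (L l28 (T t2289 (L l28 (L l361 (T t579 N))))))))⟩
def e0_63_106__95_42_140 : Ent 4 := ⟨[a0, a63, a106], [a95, a42, a230], (M a48 (F (T t309 (T t551 (L l28 (L l361 (T t579 N)))))))⟩
def e0_63_106__95_42_141 : Ent 4 := ⟨[a0, a63, a106], [a95, a42, a231], (M a48 (F (T t309 (T t551 (L l28 (L l361 (T t579 N)))))))⟩
def e0_63_106__95_42_142 : Ent 4 := ⟨[a0, a63, a106], [a95, a42, a234], (M a48 (F (T t551 (L l137 (L l282 (T t585 (L l28 (L l282 (L l361 (T t579 N))))))))))⟩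
def e0_63_106__95_42_143 : Ent 4 := ⟨[a0, a63, a106], [a95, a42, a235], (M a48 (F (T t309 (T t551 (L l28 (L l361 (T t579 N)))))))⟩
def e0_63_106__95_42_144 : Ent 4 := ⟨[a0, a63, a106], [a95, a42, a239], (M a48 (F (T t309 (T t551 (L l28 (L l289 (L l361 (L l404 (T t579 N)))))))))⟩
def e0_63_106__95_42_145 : Ent 4 := ⟨[a0, a63, a106], [a95, a42, a240], (M a12 (F (T t2419 (L l298 (T t2305 (L l56 (T t2415 N)))))))⟩
def e0_63_106__95_42_146 : Ent 4 := ⟨[a0, a63, a106], [a95, a42, a241], (M a48 (F (T t309 (L l258 (T t551 (L l28 (L l361 (T t579 N))))))))⟩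
def e0_63_106__95_42_147 : Ent 4 := ⟨[a0, a63, a106], [a95, a42, a242], (M a48 (F (T t309 (L l258 (T t551 (L l28 (L l361 (T t579 N))))))))⟩
def e0_63_106__95_42_148 : Ent 4 := ⟨[a0, a63, a106], [a95, a42, a243], (M a48 (F (T t5173 (L l258 (T t551 (L l28 (L l361 (T t579 N))))))))⟩
def e0_63_106__95_42_149 : Ent 4 := ⟨[a0, a63, a106], [a95, a42, a245], (M a48 (F (L l419 (T t309 (L l266 (T t551 (L l28 (L l361 (L l419 (T t579 N))))))))))⟩
def e0_63_106__95_42_150 : Ent 4 := ⟨[a0, a63, a106], [a95, a42, a246], (M a48 (F (T t309 (T t551 (L l28 (L l361 (T t579 N)))))))⟩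
def e0_63_106__95_42_151 : Ent 4 := ⟨[a0, a63, a106], [a95, a42, a247], (M a48 (F (T t309 (T t551 (L l28 (L l361 (T t579 N)))))))⟩
def e0_63_106__95_42_152 : Ent 4 := ⟨[a0, a63, a106], [a95, a42, a250], (M a48 (F (L l282 (T t309 (L l266 (T t551 (L l28 (L l282 (L l361 (T t579 N))))))))))⟩
def e0_63_106__95_42_153 : Ent 4 := ⟨[a0, a63, a106], [a95, a42, a251], (M a48 (F (T t309 (T t551 (L l28 (L l361 (T t579 N)))))))⟩
def e0_63_106__95_42_154 : Ent 4 := ⟨[a0, a63, a106], [a95, a42, a255], (M a48 (L l469 (F (T t5173 (L l266 (T t551 (L l266 (T t7181 (L l28 (L l137 (L l289 (L l361 (T t6527 (K a15 (M a175 (F (L l137 (T t585 (L l266 (L l483 (T t551 (L l289 (L l325 (T t7160 (T t7161 N))))))))))) (K a175 (M a15 (F (T t5173 (L l266 (T t7158 (L l213 (L l361 (T t7182 N)))))))) N)))))))))))))))⟩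
def b0_63_106__95_42 : Blk 4 := ⟨[0, 63, 106], [95, 42], [1, 2, 3, 5, 6, 7, 10, 11, 15, 16, 17, 18, 19, 21, 22, 23, 26, 27, 31, 32, 33, 34, 35, 37, 38, 39, 43, 47, 48, 49, 50, 51, 53, 54, 55, 58, 59, 64, 65, 66, 67, 69, 70, 71, 74, 75, 79, 80, 81, 82, 83, 85, 86, 87, 90, 91, 96, 97, 98, 99, 101, 102, 103, 107, 111, 112, 113, 114, 115, 117, 118, 119, 122, 123, 127, 128, 129, 130, 131, 133, 134, 135, 138, 139, 143, 144, 145, 146, 147, 149, 150, 151, 154, 155, 159, 160, 161, 162, 163, 165, 166, 167, 170, 171, 175, 176, 177, 178, 179, 181, 182, 183, 186, 187, 191, 192, 193, 194, 195, 197, 198, 199, 202, 203, 207, 208, 209, 210, 211, 213, 214, 215, 218, 219, 223, 224, 225, 226, 227, 229, 230, 231, 234, 235, 239, 240, 241, 242, 243, 245, 246, 247, 250, 251, 255], [e0_63_106__95_42_0, e0_63_106__95_42_1, e0_63_106__95_42_2, e0_63_106__95_42_3, e0_63_106__95_42_4, e0_63_106__95_42_5, e0_63_106__95_42_6, e0_63_106__95_42_7,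 e0_63_106__95_42_8, e0_63_106__95_42_9, e0_63_106__95_42_10, e0_63_106__95_42_11, e0_63_106__95_42_12, e0_63_106__95_42_13, e0_63_106__95_42_14, e0_63_106__95_42_15, e0_63_106__95_42_16, e0_63_106__95_42_17, e0_63_106__95_42_18, e0_63_106__95_42_19, e0_63_106__95_42_20, e0_63_106__95_42_21, e0_63_106__95_42_22, e0_63_106__95_42_23, e0_63_106__95_42_24, e0_63_106__95_42_25, e0_63_106__95_42_26, e0_63_106__95_42_27, e0_63_106__95_42_28, e0_63_106__95_42_29, e0_63_106__95_42_30, e0_63_106__95_42_31, e0_63_106__95_42_32, e0_63_106__95_42_33, e0_63_106__95_42_34, e0_63_106__95_42_35, e0_63_106__95_42_36, e0_63_106__95_42_37, e0_63_106__95_42_38, e0_63_106__95_42_39, e0_63_106__95_42_40, e0_63_106__95_42_41, e0_63_106__95_42_42, e0_63_106__95_42_43, e0_63_106__95_42_44, e0_63_106__95_42_45, e0_63_106__95_42_46, e0_63_106__95_42_47, e0_63_106__95_42_48, e0_63_106__95_42_49, e0_63_106__95_42_50, e0_63_106__95_42_51, e0_63_106__95_42_52,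 e0_63_106__95_42_53, e0_63_106__95_42_54, e0_63_106__95_42_55, e0_63_106__95_42_56, e0_63_106__95_42_57, e0_63_106__95_42_58, e0_63_106__95_42_59, e0_63_106__95_42_60, e0_63_106__95_42_61, e0_63_106__95_42_62, e0_63_106__95_42_63, e0_63_106__95_42_64, e0_63_106__95_42_65, e0_63_106__95_42_66, e0_63_106__95_42_67, e0_63_106__95_42_68, e0_63_106__95_42_69, e0_63_106__95_42_70, e0_63_106__95_42_71, e0_63_106__95_42_72, e0_63_106__95_42_73, e0_63_106__95_42_74, e0_63_106__95_42_75, e0_63_106__95_42_76, e0_63_106__95_42_77, e0_63_106__95_42_78, e0_63_106__95_42_79, e0_63_106__95_42_80, e0_63_106__95_42_81, e0_63_106__95_42_82, e0_63_106__95_42_83, e0_63_106__95_42_84, e0_63_106__95_42_85, e0_63_106__95_42_86, e0_63_106__95_42_87, e0_63_106__95_42_88, e0_63_106__95_42_89, e0_63_106__95_42_90, e0_63_106__95_42_91, e0_63_106__95_42_92, e0_63_106__95_42_93, e0_63_106__95_42_94, e0_63_106__95_42_95, e0_63_106__95_42_96,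 e0_63_106__95_42_97, e0_63_106__95_42_98, e0_63_106__95_42_99, e0_63_106__95_42_100, e0_63_106__95_42_101, e0_63_106__95_42_102, e0_63_106__95_42_103, e0_63_106__95_42_104, e0_63_106__95_42_105, e0_63_106__95_42_106, e0_63_106__95_42_107, e0_63_106__95_42_108, e0_63_106__95_42_109, e0_63_106__95_42_110, e0_63_106__95_42_111, e0_63_106__95_42_112, e0_63_106__95_42_113, e0_63_106__95_42_114, e0_63_106__95_42_115, e0_63_106__95_42_116, e0_63_106__95_42_117, e0_63_106__95_42_118, e0_63_106__95_42_119, e0_63_106__95_42_120, e0_63_106__95_42_121, e0_63_106__95_42_122, e0_63_106__95_42_123, e0_63_106__95_42_124, e0_63_106__95_42_125, e0_63_106__95_42_126, e0_63_106__95_42_127, e0_63_106__95_42_128, e0_63_106__95_42_129, e0_63_106__95_42_130, e0_63_106__95_42_131, e0_63_106__95_42_132, e0_63_106__95_42_133, e0_63_106__95_42_134, e0_63_106__95_42_135, e0_63_106__95_42_136, e0_63_106__95_42_137, e0_63_106__95_42_138, e0_63_106__95_42_139,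 e0_63_106__95_42_140, e0_63_106__95_42_141, e0_63_106__95_42_142, e0_63_106__95_42_143, e0_63_106__95_42_144, e0_63_106__95_42_145, e0_63_106__95_42_146, e0_63_106__95_42_147, e0_63_106__95_42_148, e0_63_106__95_42_149, e0_63_106__95_42_150, e0_63_106__95_42_151, e0_63_106__95_42_152, e0_63_106__95_42_153, e0_63_106__95_42_154], by decide +kernel, by decide +kernel⟩
def e0_63_106__107_42_0 : Ent 4 := ⟨[a0, a63, a106], [a107, a42, a1], (M a48 (F (T t309 (T t551 (L l28 (T t579 N))))))⟩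
def e0_63_106__107_42_1 : Ent 4 := ⟨[a0, a63, a106], [a107, a42, a2], (M a48 (L l66 (F (T t309 (T t551 (L l28 (T t579 (K a22 (M a62 (F (T t307 (L l22 (L l306 (T t5926 N)))))) (K a62 (M a22 (F (T t307 (L l28 (T t579 (T t551 N)))))) N)))))))))⟩
def e0_63_106__107_42_2 : Ent 4 := ⟨[a0, a63, a106], [a107, a42, a3], (M a48 (F (T t5173 (L l28 (T t579 (L l453 (T t551 N)))))))⟩
def e0_63_106__107_42_3 : Ent 4 := ⟨[a0, a63, a106], [a107, a42, a4], (M a48 (F (T t309 (T t551 (L l28 (T t579 N))))))⟩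
def e0_63_106__107_42_4 : Ent 4 := ⟨[a0, a63, a106], [a107, a42, a5], (M a48 (F (L l47 (T t309 (T t551 (L l28 (L l47 (T t579 N))))))))⟩
def e0_63_106__107_42_5 : Ent 4 := ⟨[a0, a63, a106], [a107, a42, a6], (M a48 (F (T t309 (T t551 (L l28 (T t579 N))))))⟩
def e0_63_106__107_42_6 : Ent 4 := ⟨[a0, a63, a106], [a107, a42, a7], (M a48 (F (T t309 (T t551 (L l28 (T t579 N))))))⟩
def e0_63_106__107_42_7 : Ent 4 := ⟨[a0, a63, a106], [a107, a42, a8], (M a207 (L l56 (F (T t7183 (L l320 (T t6701 (L l320 (T t6702 (K a25 (M a59 (F (T t6707 (L l26 (L l316 (T t6445 N)))))) (K a59 (M a25 (L l499 (F (T t6703 (L l320 (T t6701 (L l320 (L l464 (T t7083 (K a203 (M a155 (L l320 (F (L l26 (L l103 (T t7184 (T t6704 (K a73 (Fr a138 a69 l332 (V t7185)) (K a138 (M a73 (F (L l26 (L l103 (T t7184 (L l32 (L l54 (L l143 (L l160 (T t7186 N)))))))))) N))))))))) (K a155 (M a203 (F (L l169 (T t6707 (T t6701 (L l169 (T t6702 N))))))) N)))))))))))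 N))))))))))⟩
def e0_63_106__107_42_8 : Ent 4 := ⟨[a0, a63, a106], [a107, a42, a9], (M a48 (F (T t309 (T t551 (L l28 (T t579 N))))))⟩
def e0_63_106__107_42_9 : Ent 4 := ⟨[a0, a63, a106], [a107, a42, a10], (M a48 (L l54 (F (L l318 (T t309 (T t551 (L l28 (L l318 (T t579 (K a26 (Fr a58 a53 l38 (V t6446)) (K a58 (M a26 (F (L l28 (T t4144 (T t551 (L l28 (L l426 (T t6447 (K a32 (Fr a192 a149 l519 (Fr a15 a37 l75 (Fr a47 a31 l61 (V t6528)))) N))))))))) N)))))))))))⟩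
def e0_63_106__107_42_10 : Ent 4 := ⟨[a0, a63, a106], [a107, a42, a11], (M a48 (F (T t309 (T t551 (L l28 (T t579 N))))))⟩
def e0_63_106__107_42_11 : Ent 4 := ⟨[a0, a63, a106], [a107, a42, a12], (M a48 (F (T t5173 (L l28 (T t579 (L l478 (T t551 N)))))))⟩
def e0_63_106__107_42_12 : Ent 4 := ⟨[a0, a63, a106], [a107, a42, a13], (M a48 (F (T t309 (T t551 (L l28 (T t579 N))))))⟩
def e0_63_106__107_42_13 : Ent 4 := ⟨[a0, a63, a106], [a107, a42, a14], (M a48 (F (T t309 (T t551 (L l28 (T t579 N))))))⟩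
def e0_63_106__107_42_14 : Ent 4 := ⟨[a0, a63, a106], [a107, a42, a15], (M a48 (F (T t5173 (L l28 (T t579 (L l483 (T t551 N)))))))⟩
def e0_63_106__107_42_15 : Ent 4 := ⟨[a0, a63, a106], [a107, a42, a20], (M a48 (F (T t309 (T t551 (L l28 (T t579 N))))))⟩
def e0_63_106__107_42_16 : Ent 4 := ⟨[a0, a63, a106], [a107, a42, a21], (M a48 (F (L l47 (T t309 (L l347 (T t551 (L l28 (L l47 (T t579 N)))))))))⟩
def e0_63_106__107_42_17 : Ent 4 := ⟨[a0, a63, a106], [a107, a42, a22], (M a48 (L l66 (F (T t309 (T t551 (L l28 (T t579 (K a2 (M a62 (F (T t307 (L l22 (L l306 (T t5926 N)))))) (K a62 (M a2 (F (T t307 (L l19 (L l28 (T t342 N)))))) N)))))))))⟩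
def e0_63_106__107_42_18 : Ent 4 := ⟨[a0, a63, a106], [a107, a42, a23], (M a48 (F (T t309 (L l351 (T t551 (L l28 (T t579 N)))))))⟩
def e0_63_106__107_42_19 : Ent 4 := ⟨[a0, a63, a106], [a107, a42, a24], (M a48 (F (T t309 (T t551 (L l28 (T t579 N))))))⟩
def e0_63_106__107_42_20 : Ent 4 := ⟨[a0, a63, a106], [a107, a42, a25], (M a48 (L l56 (F (T t309 (T t551 (L l28 (T t579 (K a8 (M a59 (F (T t307 (L l26 (L l316 (T t6445 N)))))) (K a59 (M a8 (L l499 (F (T t307 (L l19 (L l28 (T t4700 (K a203 (M a155 (F (L l230 (T t3405 (L l19 (L l28 (T t4700 N))))))) (K a155 (M a203 (F (T t3405 (L l19 (L l28 (T t4700 N)))))) N))))))))) N)))))))))⟩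
def e0_63_106__107_42_21 : Ent 4 := ⟨[a0, a63, a106], [a107, a42, a26], (M a48 (L l54 (F (T t309 (L l28 (T t579 (T t551 (K a10 (Fr a58 a53 l38 (V t6446)) (K a58 (M a10 (F (T t4033 (T t551 (L l18 (L l354 (T t6449 (L l18 (L l426 (T t6450 N)))))))))) N)))))))))⟩
def e0_63_106__107_42_22 : Ent 4 := ⟨[a0, a63, a106], [a107, a42, a27], (M a48 (F (T t309 (T t551 (L l28 (T t579 N))))))⟩
def e0_63_106__107_42_23 : Ent 4 := ⟨[a0, a63, a106], [a107, a42, a28], (M a48 (F (T t309 (T t551 (L l28 (L l362 (T t579 N)))))))⟩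
def e0_63_106__107_42_24 : Ent 4 := ⟨[a0, a63, a106], [a107, a42, a29], (M a48 (F (T t309 (L l371 (T t551 (L l28 (T t579 N)))))))⟩
def e0_63_106__107_42_25 : Ent 4 := ⟨[a0, a63, a106], [a107, a42, a30], (M a48 (F (T t309 (T t551 (L l28 (T t579 N))))))⟩
def e0_63_106__107_42_26 : Ent 4 := ⟨[a0, a63, a106], [a107, a42, a31], (M a48 (F (T t309 (L l375 (T t551 (L l28 (L l361 (T t579 N))))))))⟩
def e0_63_106__107_42_27 : Ent 4 := ⟨[a0, a63, a106], [a107, a42, a40], (M a3 (L l22 (F (T t6966 (L l66 (L l388 (T t809 (T t3500 (K a41 (Fr a43 a23 l67 (V t7187)) (K a43 (M a41 (L l391 (F (L l66 (T t7188 (L l143 (T t7189 (K a171 (M a235 (F (L l66 (T t7188 (T t7190 (K a1 (Fr a192 a149 l519 (Fr a60 a22 l69 (Fr a62 a61 l33 (V t7191)))) N)))))) (K a235 (M a171 (L l392 (F (L l66 (T t7188 (L l143 (T t7192 (K a105 (M a170 (F (T t7193 (L l66 (T t7188 N))))) (K a170 (M a105 (F (L l66 (L l474 (T t7188 (L l220 (L l295 (T t3500 (L l250 (T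 t7194 N)))))))))) N))))))))) N))))))))) N))))))))))⟩
def e0_63_106__107_42_28 : Ent 4 := ⟨[a0, a63, a106], [a107, a42, a41], (M a48 (L l22 (F (T t309 (T t551 (L l28 (T t579 (K a40 (M a43 (F (T t307 (L l66 (L l388 (T t6451 N)))))) (K a43 (M a40 (L l391 (F (T t309 (L l29 (L l69 (T t6452 (K a171 (M a235 (F (T t307 (L l29 (L l56 (T t7195 N)))))) (K a235 (M a171 (F (T t309 (L l29 (L l56 (T t7195 N)))))) N))))))))) N)))))))))⟩
def e0_63_106__107_42_29 : Ent 4 := ⟨[a0, a63, a106], [a107, a42, a43], (M a12 (L l22 (L l391 (F (T t2304 (T t2305 (L l56 (T t2415 (K a40 (M a41 (L l391 (F (T t6812 (T t2305 (L l52 (L l56 (T t2415 (K a171 (M a235 (F (T t2418 (L l52 (L l56 (T t2415 (T t2305 N))))))) (K a235 (M a171 (L l392 (F (T t2418 (L l52 (L l56 (T t2415 (T t2305 (K a105 (M a170 (F (T t3207 (T t4427 N)))) (K a170 (M a105 (F (L l220 (T t2305 (L l255 (L l295 (L l409 (T t7196 N)))))))) N)))))))))) N)))))))))) (K a41 (M a40 (L l391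 (F (T t2418 (L l28 (L l57 (T t4573 (K a171 (M a235 (F (T t2418 (L l28 (L l57 (T t4573 N)))))) (K a235 (M a171 (F (T t2418 (L l28 (L l57 (T t4573 N)))))) N))))))))) (K a171 (M a235 (L l22 (F (T t6812 (T t2305 (L l56 (T t2415 (K a40 (M a41 (F (T t2418 (L l52 (L l56 (T t2415 (T t2305 N))))))) (K a41 (M a40 (F (T t2418 (L l28 (L l57 (T t4573 N)))))) N))))))))) (K a235 (M a171 (L l22 (F (T t2418 (L l56 (T t2415 (T t2305 (K a40 (M a41 (L l392 (F (T t2418 (L l52 (L l56 (T t2415 (T t2305 (K a105 (M a170 (F (T t3207 (T t4427 N)))) (K a170 (M a105 (F (L l220 (T t2305 (L l255 (L l295 (L l409 (T t7196 N)))))))) N)))))))))) (K a41 (M a40 (F (T t2418 (L l28 (L l57 (T t4573 N)))))) N))))))))) N))))))))))))⟩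
def e0_63_106__107_42_30 : Ent 4 := ⟨[a0, a63, a106], [a107, a42, a44], (M a48 (F (T t309 (T t551 (L l24 (L l28 (T t579 N)))))))⟩
def e0_63_106__107_42_31 : Ent 4 := ⟨[a0, a63, a106], [a107, a42, a45], (M a48 (F (T t309 (T t551 (L l28 (T t579 N))))))⟩
def e0_63_106__107_42_32 : Ent 4 := ⟨[a0, a63, a106], [a107, a42, a46], (M a48 (L l26 (F (T t309 (T t551 (L l28 (T t579 (K a34 (M a38 (F (T t3405 (T t551 (L l20 (L l28 (T t579 N))))))) (K a38 (M a34 (F (T t307 (L l29 (L l66 (T t6453 N)))))) N)))))))))⟩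
def e0_63_106__107_42_33 : Ent 4 := ⟨[a0, a63, a106], [a107, a42, a47], (M a243 (L l28 (L l409 (F (T t7157 (T t6530 (T t6531 (K a32 (M a37 (L l409 (F (T t7197 (L l380 (T t6530 (L l380 (L l404 (T t6559 (K a227 (M a167 (L l380 (F (L l54 (L l131 (T t7198 (T t7199 (K a97 (Fr a162 a81 l452 (V t7200)) (K a162 (M a97 (F (L l54 (L l131 (T t7198 (L l23 (L l26 (L l143 (L l196 (T t7201 N)))))))))) N))))))))) (K a167 (M a227 (F (L l201 (T t7202 (T t6530 (L l201 (T t6531 N))))))) N))))))))))) (K a37 (M a32 (L l409 (F (T t7157 (T t7203 (K a227 (M a167 (F (T t7157 (L l47 (L l103 (L l383 (L l397 (T t7204 (T t6531 N))))))))) (K a167 (M a227 (F (T t7205 (L l173 (L l201 (T t7197 N)))))) N))))))) (K a227 (M a167 (L l28 (F (T t7202 (L l248 (L l380 (T t6530 (L l380 (T t6531 (K a32 (M a37 (L l380 (F (L l54 (L l131 (T t7198 (T t7199 (K a97 (Fr a162 a81 l452 (V t7200)) (K a162 (M a97 (F (L l54 (L l131 (T t7198 (L l23 (L l26 (L l143 (L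 l196 (T t7201 N)))))))))) N))))))))) (K a37 (M a32 (F (T t7157 (L l47 (L l103 (L l383 (L l397 (T t7204 (T t6531 N))))))))) N))))))))))) (K a167 (M a227 (L l28 (F (T t7206 (L l173 (L l201 (T t7197 (K a32 (M a37 (F (L l201 (T t7202 (T t6530 (L l201 (T t6531 N))))))) (K a37 (M a32 (F (T t7205 (L l173 (L l201 (T t7197 N)))))) N))))))))) N)))))))))))⟩
def e0_63_106__107_42_34 : Ent 4 := ⟨[a0, a63, a106], [a107, a42, a60], (M a48 (F (T t5173 (L l28 (T t579 (L l442 (T t551 N)))))))⟩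
def e0_63_106__107_42_35 : Ent 4 := ⟨[a0, a63, a106], [a107, a42, a61], (M a48 (F (L l35 (T t309 (L l515 (T t551 (L l28 (L l35 (T t579 N)))))))))⟩
def e0_63_106__107_42_36 : Ent 4 := ⟨[a0, a63, a106], [a107, a42, a62], (M a48 (L l66 (F (T t309 (T t551 (L l28 (T t579 (K a2 (M a22 (F (T t307 (L l28 (T t579 (T t551 N)))))) (K a22 (M a2 (F (T t307 (L l19 (L l28 (T t342 N)))))) N)))))))))⟩
def e0_63_106__107_42_37 : Ent 4 := ⟨[a0, a63, a106], [a107, a42, a64], (M a48 (F (T t309 (L l28 (T t6454 (L l28 (L l103 (T t6455 (L l28 (T t6456 (L l28 (L l84 (T t6457 (L l54 (T t6458 (K a207 (Fr a192 a149 l519 (Fr a96 a144 l484 (Fr a101 a111 l104 (Fr a32 a16 l40 (V t6459))))) N))))))))))))))))⟩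
def e0_63_106__107_42_38 : Ent 4 := ⟨[a0, a63, a106], [a107, a42, a65], (M a48 (F (T t309 (L l76 (T t551 (L l28 (L l76 (T t579 N))))))))⟩
def e0_63_106__107_42_39 : Ent 4 := ⟨[a0, a63, a106], [a107, a42, a66], (M a48 (F (T t307 (L l28 (L l76 (T t579 (L l76 (T t551 N))))))))⟩
def e0_63_106__107_42_40 : Ent 4 := ⟨[a0, a63, a106], [a107, a42, a67], (M a48 (L l143 (F (T t309 (L l76 (T t551 (L l28 (L l76 (T t579 (K a87 (M a127 (F (T t6592 (T t307 N)))) (K a127 (M a87 (F (T t3405 (L l76 (T t551 (L l28 (T t6594 N))))))) N)))))))))))⟩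
def e0_63_106__107_42_41 : Ent 4 := ⟨[a0, a63, a106], [a107, a42, a68], (M a48 (F (T t309 (L l80 (T t551 (L l28 (L l80 (T t579 N))))))))⟩
def e0_63_106__107_42_42 : Ent 4 := ⟨[a0, a63, a106], [a107, a42, a69], (M a48 (F (T t309 (L l84 (T t551 (L l28 (L l84 (T t579 N))))))))⟩
def e0_63_106__107_42_43 : Ent 4 := ⟨[a0, a63, a106], [a107, a42, a70], (M a48 (F (T t309 (T t551 (L l28 (T t579 N))))))⟩
def e0_63_106__107_42_44 : Ent 4 := ⟨[a0, a63, a106], [a107, a42, a71], (M a48 (F (T t309 (T t551 (L l28 (T t579 N))))))⟩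
def e0_63_106__107_42_45 : Ent 4 := ⟨[a0, a63, a106], [a107, a42, a72], (M a48 (F (T t307 (L l28 (L l80 (T t579 (L l80 (T t551 N))))))))⟩
def e0_63_106__107_42_46 : Ent 4 := ⟨[a0, a63, a106], [a107, a42, a73], (M a48 (F (T t309 (T t551 (L l28 (T t579 N))))))⟩
def e0_63_106__107_42_47 : Ent 4 := ⟨[a0, a63, a106], [a107, a42, a74], (M a48 (F (L l103 (T t578 (L l28 (L l84 (L l318 (T t579 (L l84 (T t551 N))))))))))⟩
def e0_63_106__107_42_48 : Ent 4 := ⟨[a0, a63, a106], [a107, a42, a75], (M a48 (L l131 (F (T t309 (T t551 (L l28 (T t579 (K a91 (M a123 (F (T t307 (L l337 (T t6814 N))))) (K a123 (M a91 (F (T t3405 (T t551 (L l28 (T t579 N)))))) N)))))))))⟩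
def e0_63_106__107_42_49 : Ent 4 := ⟨[a0, a63, a106], [a107, a42, a76], (M a48 (F (T t309 (L l80 (T t551 (L l28 (L l80 (T t579 N))))))))⟩
def e0_63_106__107_42_50 : Ent 4 := ⟨[a0, a63, a106], [a107, a42, a77], (M a48 (F (T t309 (T t551 (L l28 (T t579 N))))))⟩
def e0_63_106__107_42_51 : Ent 4 := ⟨[a0, a63, a106], [a107, a42, a78], (M a48 (F (T t309 (T t551 (L l28 (T t579 N))))))⟩
def e0_63_106__107_42_52 : Ent 4 := ⟨[a0, a63, a106], [a107, a42, a79], (M a48 (F (T t309 (L l84 (T t551 (L l28 (L l84 (T t579 N))))))))⟩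
def e0_63_106__107_42_53 : Ent 4 := ⟨[a0, a63, a106], [a107, a42, a84], (M a48 (F (T t309 (L l140 (T t551 (L l28 (L l140 (T t579 N))))))))⟩
def e0_63_106__107_42_54 : Ent 4 := ⟨[a0, a63, a106], [a107, a42, a85], (M a48 (F (T t309 (L l347 (T t551 (L l54 (T t777 (L l103 (L l368 (T t6465 (K a192 (M a240 (F (T t6230 (L l236 (T t6471 (L l54 (L l236 (L l339 (T t6472 (L l339 (T t6473 N))))))))))) N)))))))))))⟩
def e0_63_106__107_42_55 : Ent 4 := ⟨[a0, a63, a106], [a107, a42, a86], (M a48 (F (T t309 (L l351 (T t551 (L l28 (T t579 N)))))))⟩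
def e0_63_106__107_42_56 : Ent 4 := ⟨[a0, a63, a106], [a107, a42, a87], (M a48 (L l143 (F (T t309 (T t551 (L l28 (L l367 (T t579 (K a67 (M a127 (F (T t6592 (T t307 N)))) (K a127 (M a67 (F (T t307 (T t551 (L l28 (L l367 (L l475 (T t6454 (L l28 (L l367 (T t6479 N))))))))))) N))))))))))⟩
def e0_63_106__107_42_57 : Ent 4 := ⟨[a0, a63, a106], [a107, a42, a88], (M a48 (F (T t309 (L l478 (T t551 (L l28 (T t579 N)))))))⟩
def e0_63_106__107_42_58 : Ent 4 := ⟨[a0, a63, a106], [a107, a42, a89], (M a48 (F (T t309 (L l371 (T t551 (L l28 (T t579 N)))))))⟩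
def e0_63_106__107_42_59 : Ent 4 := ⟨[a0, a63, a106], [a107, a42, a90], (M a48 (F (T t309 (L l375 (L l483 (T t551 (L l28 (T t579 N))))))))⟩
def e0_63_106__107_42_60 : Ent 4 := ⟨[a0, a63, a106], [a107, a42, a91], (M a48 (L l131 (F (T t309 (T t551 (L l28 (T t579 (K a75 (M a123 (F (T t307 (L l337 (T t6814 N))))) (K a123 (M a75 (F (T t3405 (T t551 (L l28 (T t579 N)))))) N)))))))))⟩
def e0_63_106__107_42_61 : Ent 4 := ⟨[a0, a63, a106], [a107, a42, a92], (M a48 (F (T t309 (T t551 (L l28 (T t579 N))))))⟩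
def e0_63_106__107_42_62 : Ent 4 := ⟨[a0, a63, a106], [a107, a42, a93], (M a48 (F (T t309 (T t551 (L l28 (L l362 (T t579 N)))))))⟩
def e0_63_106__107_42_63 : Ent 4 := ⟨[a0, a63, a106], [a107, a42, a94], (M a48 (F (T t309 (T t551 (L l28 (T t579 N))))))⟩
def e0_63_106__107_42_64 : Ent 4 := ⟨[a0, a63, a106], [a107, a42, a95], (M a48 (F (T t309 (T t551 (L l28 (L l361 (T t579 N)))))))⟩
def e0_63_106__107_42_65 : Ent 4 := ⟨[a0, a63, a106], [a107, a42, a104], (M a48 (F (T t307 (L l28 (L l140 (T t579 (L l100 (L l140 (T t551 N)))))))))⟩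
def e0_63_106__107_42_66 : Ent 4 := ⟨[a0, a63, a106], [a107, a42, a105], (M a48 (F (T t309 (L l515 (T t551 (L l28 (T t579 N)))))))⟩
def e0_63_106__107_42_67 : Ent 4 := ⟨[a0, a63, a106], [a107, a42, a108], (M a48 (F (T t309 (L l100 (T t551 (L l28 (T t579 N)))))))⟩
def e0_63_106__107_42_68 : Ent 4 := ⟨[a0, a63, a106], [a107, a42, a109], (M a48 (F (T t309 (T t551 (L l28 (T t579 N))))))⟩
def e0_63_106__107_42_69 : Ent 4 := ⟨[a0, a63, a106], [a107, a42, a110], (M a48 (F (T t309 (T t551 (L l28 (T t579 N))))))⟩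
def e0_63_106__107_42_70 : Ent 4 := ⟨[a0, a63, a106], [a107, a42, a111], (M a240 (L l103 (F (T t4779 (T t817 (L l137 (T t4781 (K a99 (M a103 (F (T t6965 (T t817 (L l137 (T t4781 N)))))) (K a103 (M a99 (F (T t6965 (T t817 (L l137 (T t4781 N)))))) N)))))))))⟩
def e0_63_106__107_42_71 : Ent 4 := ⟨[a0, a63, a106], [a107, a42, a124], (M a48 (F (T t309 (L l140 (T t551 (L l28 (L l140 (T t579 N))))))))⟩
def e0_63_106__107_42_72 : Ent 4 := ⟨[a0, a63, a106], [a107, a42, a125], (M a48 (F (T t309 (T t551 (L l28 (T t579 N))))))⟩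
def e0_63_106__107_42_73 : Ent 4 := ⟨[a0, a63, a106], [a107, a42, a126], (M a48 (F (T t309 (T t551 (L l28 (T t579 N))))))⟩
def e0_63_106__107_42_74 : Ent 4 := ⟨[a0, a63, a106], [a107, a42, a127], (M a48 (L l143 (F (T t309 (T t551 (L l28 (T t6454 (L l28 (T t6479 (K a67 (M a87 (F (T t3405 (L l76 (T t551 (L l28 (T t6594 N))))))) (K a87 (M a67 (F (T t307 (T t551 (L l28 (L l367 (L l475 (T t6454 (L l28 (L l367 (T t6479 N))))))))))) N)))))))))))⟩
def e0_63_106__107_42_75 : Ent 4 := ⟨[a0, a63, a106], [a107, a42, a128], (M a48 (F (T t3405 (L l28 (T t579 (L l103 (L l192 (L l220 (T t6480 (L l54 (L l160 (T t6481 N))))))))))))⟩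
def e0_63_106__107_42_76 : Ent 4 := ⟨[a0, a63, a106], [a107, a42, a129], (M a48 (F (L l309 (T t309 (L l217 (T t551 (L l28 (T t579 N))))))))⟩
def e0_63_106__107_42_77 : Ent 4 := ⟨[a0, a63, a106], [a107, a42, a130], (M a48 (F (T t309 (T t551 (L l28 (T t579 N))))))⟩
def e0_63_106__107_42_78 : Ent 4 := ⟨[a0, a63, a106], [a107, a42, a131], (M a48 (F (T t309 (L l197 (T t551 (L l28 (T t579 N)))))))⟩
def e0_63_106__107_42_79 : Ent 4 := ⟨[a0, a63, a106], [a107, a42, a132], (M a48 (F (L l334 (T t309 (L l202 (T t551 (L l28 (T t579 N))))))))⟩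
def e0_63_106__107_42_80 : Ent 4 := ⟨[a0, a63, a106], [a107, a42, a133], (M a48 (F (L l339 (T t309 (L l199 (T t551 (L l28 (T t579 N))))))))⟩
def e0_63_106__107_42_81 : Ent 4 := ⟨[a0, a63, a106], [a107, a42, a134], (M a48 (F (T t309 (T t551 (L l28 (T t579 N))))))⟩
def e0_63_106__107_42_82 : Ent 4 := ⟨[a0, a63, a106], [a107, a42, a135], (M a48 (F (T t309 (T t551 (L l28 (T t579 N))))))⟩
def e0_63_106__107_42_83 : Ent 4 := ⟨[a0, a63, a106], [a107, a42, a136], (M a48 (F (T t309 (T t551 (L l28 (T t579 N))))))⟩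
def e0_63_106__107_42_84 : Ent 4 := ⟨[a0, a63, a106], [a107, a42, a137], (M a48 (F (T t309 (T t551 (L l28 (T t579 N))))))⟩
def e0_63_106__107_42_85 : Ent 4 := ⟨[a0, a63, a106], [a107, a42, a138], (M a48 (F (L l318 (T t309 (T t551 (L l28 (L l318 (T t579 N))))))))⟩
def e0_63_106__107_42_86 : Ent 4 := ⟨[a0, a63, a106], [a107, a42, a139], (M a48 (F (T t309 (T t551 (L l28 (T t579 N))))))⟩
def e0_63_106__107_42_87 : Ent 4 := ⟨[a0, a63, a106], [a107, a42, a140], (M a48 (F (T t309 (L l222 (T t551 (L l28 (T t579 N)))))))⟩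
def e0_63_106__107_42_88 : Ent 4 := ⟨[a0, a63, a106], [a107, a42, a141], (M a48 (F (T t309 (T t551 (L l28 (T t579 N))))))⟩
def e0_63_106__107_42_89 : Ent 4 := ⟨[a0, a63, a106], [a107, a42, a142], (M a48 (F (T t309 (T t551 (L l28 (T t579 N))))))⟩
def e0_63_106__107_42_90 : Ent 4 := ⟨[a0, a63, a106], [a107, a42, a143], (M a48 (F (T t309 (L l28 (T t6462 (L l28 (T t579 N)))))))⟩
def e0_63_106__107_42_91 : Ent 4 := ⟨[a0, a63, a106], [a107, a42, a148], (M a48 (F (L l103 (T t304 (L l28 (T t579 (L l163 (T t551 N))))))))⟩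
def e0_63_106__107_42_92 : Ent 4 := ⟨[a0, a63, a106], [a107, a42, a149], (M a240 (F (L l199 (T t4781 (L l199 (L l347 (T t6484 (L l28 (L l199 (L l375 (L l409 (T t6483 (L l28 (L l143 (L l199 (L l220 (L l375 (L l409 (T t6485 (K a133 (M a165 (F (T t6486 (L l28 (L l143 (L l160 (L l220 (L l311 (L l375 (L l409 (T t6487 (L l143 (L l160 (L l220 (T t6488 N))))))))))))))) (K a165 (M a90 (L l199 (F (T t4788 (L l180 (T t6489 (K a133 (Fr a181 a122 l447 (V t6489)) (K a181 (M a133 (F (L l180 (T t6489 (L l227 (T t6746 (L l455 (T t6490 N)))))))) N)))))))) (K a181 (M a165 (F (T t6492 (T t6493 (L l28 (L l143 (L l220 (L l375 (L l409 (T t6487 (L l143 (L l220 (T t6488 N))))))))))))) (K a74 (M a48 (F (T t6494 (L l199 (L l491 (T t781 (L l28 (L l84 (L l318 (L l491 (T t579 N))))))))))) (K a90 (M a48 (L l375 (F (T t3318 (L l199 (L l462 (L l491 (T t781 (L l28 (L l491 (T t579 (K a208 (M a31 (F (L l28 (L l347 (T t6495 (L l151 (L l220 (T t6496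 N)))))))) (K a31 (M a208 (F (T t6497 (L l151 (L l220 (T t6496 N)))))) N))))))))))))) (K a122 (M a48 (F (T t3318 (L l114 (L l491 (T t6471 (L l28 (L l491 (T t579 N))))))))) N)))))))))))))))))))))))))⟩
def e0_63_106__107_42_93 : Ent 4 := ⟨[a0, a63, a106], [a107, a42, a150], (M a48 (F (T t309 (L l163 (T t551 (L l28 (T t579 N)))))))⟩
def e0_63_106__107_42_94 : Ent 4 := ⟨[a0, a63, a106], [a107, a42, a151], (M a48 (F (T t309 (L l163 (T t551 (L l28 (T t579 N)))))))⟩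
def e0_63_106__107_42_95 : Ent 4 := ⟨[a0, a63, a106], [a107, a42, a152], (M a48 (F (T t3405 (L l222 (T t551 (L l28 (T t579 N)))))))⟩
def e0_63_106__107_42_96 : Ent 4 := ⟨[a0, a63, a106], [a107, a42, a153], (M a48 (F (T t309 (L l167 (T t551 (L l28 (T t579 N)))))))⟩
def e0_63_106__107_42_97 : Ent 4 := ⟨[a0, a63, a106], [a107, a42, a154], (M a240 (F (T t4779 (L l170 (L l368 (L l512 (T t817 (T t4781 N))))))))⟩
def e0_63_106__107_42_98 : Ent 4 := ⟨[a0, a63, a106], [a107, a42, a155], (M a48 (L l499 (F (T t309 (T t551 (L l28 (L l367 (T t579 (K a203 (M a59 (F (L l230 (T t309 (T t4670 N))))) (K a59 (M a203 (L l56 (F (T t3405 (T t551 (L l28 (L l367 (T t579 (K a8 (M a25 (F (T t3405 (T t551 (L l28 (L l367 (T t579 N))))))) (K a25 (M a8 (F (T t3405 (L l19 (L l28 (T t4700 N)))))) N)))))))))) N))))))))))⟩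
def e0_63_106__107_42_99 : Ent 4 := ⟨[a0, a63, a106], [a107, a42, a156], (M a48 (F (T t3405 (T t551 (L l28 (T t579 N))))))⟩
def e0_63_106__107_42_100 : Ent 4 := ⟨[a0, a63, a106], [a107, a42, a157], (M a48 (F (T t309 (L l167 (T t551 (L l28 (T t579 N)))))))⟩
def e0_63_106__107_42_101 : Ent 4 := ⟨[a0, a63, a106], [a107, a42, a158], (M a48 (F (T t309 (T t551 (L l28 (L l362 (T t579 N)))))))⟩
def e0_63_106__107_42_102 : Ent 4 := ⟨[a0, a63, a106], [a107, a42, a159], (M a240 (F (T t4779 (L l170 (T t817 (L l361 (T t4781 N)))))))⟩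
def e0_63_106__107_42_103 : Ent 4 := ⟨[a0, a63, a106], [a107, a42, a168], (M a48 (F (T t309 (T t551 (L l28 (L l400 (T t579 N)))))))⟩
def e0_63_106__107_42_104 : Ent 4 := ⟨[a0, a63, a106], [a107, a42, a169], (M a48 (F (T t309 (L l217 (T t551 (L l28 (T t579 N)))))))⟩
def e0_63_106__107_42_105 : Ent 4 := ⟨[a0, a63, a106], [a107, a42, a170], (M a48 (F (T t309 (L l220 (T t551 (L l28 (L l206 (L l220 (L l404 (T t552 (L l28 (L l206 (L l404 (T t553 N))))))))))))))⟩
def e0_63_106__107_42_106 : Ent 4 := ⟨[a0, a63, a106], [a107, a42, a171], (M a48 (L l391 (F (T t309 (T t551 (L l28 (T t579 (K a43 (M a235 (L l22 (F (T t3405 (T t551 (L l28 (T t579 (K a40 (M a41 (F (T t307 (L l24 (L l28 (T t579 (T t551 N))))))) (K a41 (M a40 (F (T t307 (L l29 (L l56 (T t7195 N)))))) N))))))))) (K a235 (M a43 (F (T t307 (L l66 (L l250 (T t6451 N)))))) N)))))))))⟩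
def e0_63_106__107_42_107 : Ent 4 := ⟨[a0, a63, a106], [a107, a42, a172], (M a48 (F (T t309 (T t551 (L l28 (T t579 N))))))⟩
def e0_63_106__107_42_108 : Ent 4 := ⟨[a0, a63, a106], [a107, a42, a173], (M a48 (F (T t309 (T t551 (L l28 (T t579 N))))))⟩
def e0_63_106__107_42_109 : Ent 4 := ⟨[a0, a63, a106], [a107, a42, a174], (M a48 (F (T t309 (T t551 (L l28 (T t579 N))))))⟩
def e0_63_106__107_42_110 : Ent 4 := ⟨[a0, a63, a106], [a107, a42, a175], (M a48 (F (T t309 (T t551 (L l28 (T t579 N))))))⟩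
def e0_63_106__107_42_111 : Ent 4 := ⟨[a0, a63, a106], [a107, a42, a188], (M a48 (F (T t309 (L l186 (T t551 (L l28 (T t579 N)))))))⟩
def e0_63_106__107_42_112 : Ent 4 := ⟨[a0, a63, a106], [a107, a42, a189], (M a48 (F (T t309 (L l217 (T t551 (L l28 (T t579 N)))))))⟩
def e0_63_106__107_42_113 : Ent 4 := ⟨[a0, a63, a106], [a107, a42, a190], (M a48 (F (T t309 (T t551 (L l28 (T t579 N))))))⟩
def e0_63_106__107_42_114 : Ent 4 := ⟨[a0, a63, a106], [a107, a42, a191], (M a48 (F (T t309 (L l190 (L l220 (T t551 (L l28 (T t6498 (L l28 (T t6499 N))))))))))⟩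
def e0_63_106__107_42_115 : Ent 4 := ⟨[a0, a63, a106], [a107, a42, a192], (M a240 (F (L l339 (T t4781 (L l236 (L l339 (T t6500 (L l296 (L l339 (T t6501 (L l28 (L l339 (L l409 (T t6502 (L l339 (T t6503 (K a133 (M a90 (L l339 (F (T t4788 (T t6504 (K a74 (Fr a15 a165 l483 (V t6505)) (K a15 (Fr a74 a122 l130 (V t6506)) N))))))) (K a85 (M a12 (F (L l292 (T t2745 (L l272 (L l339 (T t6595 N))))))) (K a181 (M a12 (F (T t3358 (L l56 (L l272 (T t2415 (L l272 (L l409 (T t6512 N))))))))) (K a74 (M a165 (L l339 (F (T t6492 (L l296 (T t6513 (L l54 (L l84 (L l318 (T t6514 (K a133 (Fr a15 a90 l483 (V t6515)) (K a15 (M a133 (F (T t6516 (L l28 (L l236 (L l318 (L l409 (L l484 (T t6517 N))))))))) N)))))))))))) (K a90 (M a252 (F (L l334 (T t6518 (L l148 (L l489 (T t6519 (L l143 (L l309 (T t6675 N)))))))))) (K a122 (M a12 (F (T t2747 (L l56 (L l272 (T t2415 (L l272 (L l409 (T t6512 N))))))))) (K a15 (M a248 (L l339 (F (T t6520 (L l22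 (L l391 (T t6521 (K a133 (M a74 (F (T t6522 (L l3 (L l56 (L l334 (T t6523 N))))))) (K a74 (M a133 (F (T t3821 (T t6520 (L l143 (L l469 (L l484 (T t6524 N)))))))) N))))))))) N)))))))))))))))))))))))⟩
def e0_63_106__107_42_116 : Ent 4 := ⟨[a0, a63, a106], [a107, a42, a193], (M a48 (F (L l228 (T t309 (L l515 (T t551 (L l28 (T t579 N))))))))⟩
def e0_63_106__107_42_117 : Ent 4 := ⟨[a0, a63, a106], [a107, a42, a194], (M a48 (F (T t551 (L l103 (L l234 (T t585 (L l28 (L l234 (T t579 N)))))))))⟩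
def e0_63_106__107_42_118 : Ent 4 := ⟨[a0, a63, a106], [a107, a42, a195], (M a48 (F (T t5173 (L l28 (T t579 (L l273 (T t551 N)))))))⟩
def e0_63_106__107_42_119 : Ent 4 := ⟨[a0, a63, a106], [a107, a42, a196], (M a48 (F (L l232 (T t309 (L l495 (T t551 (L l28 (T t579 N))))))))⟩
def e0_63_106__107_42_120 : Ent 4 := ⟨[a0, a63, a106], [a107, a42, a197], (M a240 (F (L l236 (T t4779 (L l491 (T t817 (T t4781 N)))))))⟩
def e0_63_106__107_42_121 : Ent 4 := ⟨[a0, a63, a106], [a107, a42, a198], (M a48 (F (L l234 (T t309 (T t551 (L l28 (L l234 (T t579 N))))))))⟩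
def e0_63_106__107_42_122 : Ent 4 := ⟨[a0, a63, a106], [a107, a42, a199], (M a48 (F (T t309 (T t551 (L l28 (T t579 N))))))⟩
def e0_63_106__107_42_123 : Ent 4 := ⟨[a0, a63, a106], [a107, a42, a200], (M a48 (F (T t551 (L l103 (L l230 (T t585 (L l28 (L l230 (T t579 N)))))))))⟩
def e0_63_106__107_42_124 : Ent 4 := ⟨[a0, a63, a106], [a107, a42, a201], (M a48 (F (L l230 (T t309 (T t551 (L l28 (L l230 (T t579 N))))))))⟩
def e0_63_106__107_42_125 : Ent 4 := ⟨[a0, a63, a106], [a107, a42, a202], (M a240 (F (L l236 (T t4786 (T t817 (L l318 (T t4781 N)))))))⟩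
def e0_63_106__107_42_126 : Ent 4 := ⟨[a0, a63, a106], [a107, a42, a203], (M a51 (L l499 (F (T t7207 (L l26 (L l230 (T t7208 (T t7209 (K a155 (Fr a59 a55 l37 (V t7210)) (K a59 (M a155 (L l56 (F (T t7209 (L l103 (L l320 (T t7211 (L l32 (L l54 (L l103 (T t7212 (K a8 (M a25 (L l320 (F (L l26 (T t7213 (L l32 (L l54 (L l103 (T t7214 (K a73 (M a138 (F (T t7215 (L l26 (T t7213 N))))) (K a138 (M a73 (F (L l26 (T t7213 (L l32 (L l54 (L l103 (L l206 (L l500 (T t7216 N)))))))))) N))))))))))) (K a25 (M a8 (F (L l15 (T t7217 (L l103 (T t7211 N)))))) N))))))))))))) N))))))))))⟩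
def e0_63_106__107_42_127 : Ent 4 := ⟨[a0, a63, a106], [a107, a42, a204], (M a48 (F (T t5173 (L l28 (T t579 (L l298 (T t551 N)))))))⟩
def e0_63_106__107_42_128 : Ent 4 := ⟨[a0, a63, a106], [a107, a42, a205], (M a48 (F (T t309 (T t551 (L l28 (T t579 N))))))⟩
def e0_63_106__107_42_129 : Ent 4 := ⟨[a0, a63, a106], [a107, a42, a206], (M a48 (F (L l234 (T t309 (T t551 (L l28 (L l234 (T t579 N))))))))⟩
def e0_63_106__107_42_130 : Ent 4 := ⟨[a0, a63, a106], [a107, a42, a207], (M a240 (F (T t6525 (L l512 (T t817 (T t4781 N))))))⟩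
def e0_63_106__107_42_131 : Ent 4 := ⟨[a0, a63, a106], [a107, a42, a212], (M a48 (F (L l292 (T t309 (L l351 (T t551 (L l28 (T t579 N))))))))⟩
def e0_63_106__107_42_132 : Ent 4 := ⟨[a0, a63, a106], [a107, a42, a213], (M a48 (F (L l296 (T t309 (L l347 (T t551 (L l28 (L l246 (T t579 N)))))))))⟩
def e0_63_106__107_42_133 : Ent 4 := ⟨[a0, a63, a106], [a107, a42, a214], (M a48 (F (T t309 (T t551 (L l28 (T t579 N))))))⟩
def e0_63_106__107_42_134 : Ent 4 := ⟨[a0, a63, a106], [a107, a42, a215], (M a48 (F (T t309 (T t551 (L l28 (L l245 (T t579 N)))))))⟩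
def e0_63_106__107_42_135 : Ent 4 := ⟨[a0, a63, a106], [a107, a42, a216], (M a48 (F (T t309 (L l298 (T t551 (L l28 (T t579 N)))))))⟩
def e0_63_106__107_42_136 : Ent 4 := ⟨[a0, a63, a106], [a107, a42, a217], (M a48 (F (T t309 (T t551 (L l28 (T t579 N))))))⟩
def e0_63_106__107_42_137 : Ent 4 := ⟨[a0, a63, a106], [a107, a42, a218], (M a48 (F (L l282 (T t309 (L l28 (T t2289 (L l28 (L l246 (L l282 (T t579 N))))))))))⟩
def e0_63_106__107_42_138 : Ent 4 := ⟨[a0, a63, a106], [a107, a42, a219], (M a48 (F (T t309 (T t551 (L l28 (L l245 (T t579 N)))))))⟩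
def e0_63_106__107_42_139 : Ent 4 := ⟨[a0, a63, a106], [a107, a42, a220], (M a48 (F (T t309 (T t551 (L l28 (L l241 (T t579 N)))))))⟩
def e0_63_106__107_42_140 : Ent 4 := ⟨[a0, a63, a106], [a107, a42, a221], (M a48 (F (T t309 (T t551 (L l28 (L l241 (T t579 N)))))))⟩
def e0_63_106__107_42_141 : Ent 4 := ⟨[a0, a63, a106], [a107, a42, a222], (M a48 (F (T t309 (T t551 (L l28 (L l241 (T t579 N)))))))⟩
def e0_63_106__107_42_142 : Ent 4 := ⟨[a0, a63, a106], [a107, a42, a223], (M a240 (F (T t4786 (L l368 (T t817 (L l361 (T t4781 N)))))))⟩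
def e0_63_106__107_42_143 : Ent 4 := ⟨[a0, a63, a106], [a107, a42, a232], (M a48 (F (T t307 (L l28 (T t579 (T t551 N))))))⟩
def e0_63_106__107_42_144 : Ent 4 := ⟨[a0, a63, a106], [a107, a42, a233], (M a48 (F (T t309 (T t551 (L l28 (T t579 N))))))⟩
def e0_63_106__107_42_145 : Ent 4 := ⟨[a0, a63, a106], [a107, a42, a234], (M a48 (F (T t551 (L l103 (L l282 (T t585 (L l28 (L l282 (T t579 N)))))))))⟩
def e0_63_106__107_42_146 : Ent 4 := ⟨[a0, a63, a106], [a107, a42, a235], (M a12 (L l391 (F (T t2304 (T t2305 (L l56 (T t2415 (K a43 (M a171 (L l22 (F (T t2418 (L l56 (T t2415 (T t2305 (K a40 (M a41 (L l392 (F (T t2418 (L l52 (L l56 (T t2415 (T t2305 (K a105 (M a170 (F (T t3207 (T t4427 N)))) (K a170 (M a105 (F (L l220 (T t2305 (L l255 (L l295 (L l409 (T t7196 N)))))))) N)))))))))) (K a41 (M a40 (F (T t2418 (L l28 (L l57 (T t4573 N)))))) N))))))))) (K a171 (M a43 (F (T t2418 (L l66 (L l250 (T t6451 N)))))) N)))))))))⟩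
def e0_63_106__107_42_147 : Ent 4 := ⟨[a0, a63, a106], [a107, a42, a236], (M a48 (F (T t309 (T t551 (L l28 (L l400 (T t579 N)))))))⟩
def e0_63_106__107_42_148 : Ent 4 := ⟨[a0, a63, a106], [a107, a42, a237], (M a48 (F (T t309 (T t551 (L l28 (T t579 N))))))⟩
def e0_63_106__107_42_149 : Ent 4 := ⟨[a0, a63, a106], [a107, a42, a238], (M a48 (F (T t309 (T t551 (L l28 (T t579 N))))))⟩
def e0_63_106__107_42_150 : Ent 4 := ⟨[a0, a63, a106], [a107, a42, a239], (M a48 (F (T t309 (T t551 (L l28 (L l289 (L l404 (T t579 N))))))))⟩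
def e0_63_106__107_42_151 : Ent 4 := ⟨[a0, a63, a106], [a107, a42, a252], (M a48 (F (T t5173 (L l28 (T t579 (L l262 (T t551 N)))))))⟩
def e0_63_106__107_42_152 : Ent 4 := ⟨[a0, a63, a106], [a107, a42, a253], (M a48 (F (T t309 (T t551 (L l28 (T t579 N))))))⟩
def e0_63_106__107_42_153 : Ent 4 := ⟨[a0, a63, a106], [a107, a42, a254], (M a48 (F (T t309 (T t551 (L l28 (T t579 N))))))⟩
def e0_63_106__107_42_154 : Ent 4 := ⟨[a0, a63, a106], [a107, a42, a255], (M a48 (F (T t5173 (L l266 (T t551 (L l28 (L l103 (L l469 (T t6526 (L l28 (L l143 (L l289 (T t6527 N)))))))))))))⟩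
def b0_63_106__107_42 : Blk 4 := ⟨[0, 63, 106], [107, 42], [1, 2, 3, 4, 5, 6, 7, 8, 9, 10, 11, 12, 13, 14, 15, 20, 21, 22, 23, 24, 25, 26, 27, 28, 29, 30, 31, 40, 41, 43, 44, 45, 46, 47, 60, 61, 62, 64, 65, 66, 67, 68, 69, 70, 71, 72, 73, 74, 75, 76, 77, 78, 79, 84, 85, 86, 87, 88, 89, 90, 91, 92, 93, 94, 95, 104, 105, 108, 109, 110, 111, 124, 125, 126, 127, 128, 129, 130, 131, 132, 133, 134, 135, 136, 137, 138, 139, 140, 141, 142, 143, 148, 149, 150, 151, 152, 153, 154, 155, 156, 157, 158, 159, 168, 169, 170, 171, 172, 173, 174, 175, 188, 189, 190, 191, 192, 193, 194, 195, 196, 197, 198, 199, 200, 201, 202, 203, 204, 205, 206, 207, 212, 213, 214, 215, 216, 217, 218, 219, 220, 221, 222, 223, 232, 233, 234, 235, 236, 237, 238, 239, 252, 253, 254, 255], [e0_63_106__107_42_0, e0_63_106__107_42_1, e0_63_106__107_42_2, e0_63_106__107_42_3, e0_63_106__107_42_4, e0_63_106__107_42_5, e0_63_106__107_42_6, e0_63_106__107_42_7,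 e0_63_106__107_42_8, e0_63_106__107_42_9, e0_63_106__107_42_10, e0_63_106__107_42_11, e0_63_106__107_42_12, e0_63_106__107_42_13, e0_63_106__107_42_14, e0_63_106__107_42_15, e0_63_106__107_42_16, e0_63_106__107_42_17, e0_63_106__107_42_18, e0_63_106__107_42_19, e0_63_106__107_42_20, e0_63_106__107_42_21, e0_63_106__107_42_22, e0_63_106__107_42_23, e0_63_106__107_42_24, e0_63_106__107_42_25, e0_63_106__107_42_26, e0_63_106__107_42_27, e0_63_106__107_42_28, e0_63_106__107_42_29, e0_63_106__107_42_30, e0_63_106__107_42_31, e0_63_106__107_42_32, e0_63_106__107_42_33, e0_63_106__107_42_34, e0_63_106__107_42_35, e0_63_106__107_42_36, e0_63_106__107_42_37, e0_63_106__107_42_38, e0_63_106__107_42_39, e0_63_106__107_42_40, e0_63_106__107_42_41, e0_63_106__107_42_42, e0_63_106__107_42_43, e0_63_106__107_42_44, e0_63_106__107_42_45, e0_63_106__107_42_46, e0_63_106__107_42_47, e0_63_106__107_42_48, e0_63_106__107_42_49, e0_63_106__107_42_50,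 e0_63_106__107_42_51, e0_63_106__107_42_52, e0_63_106__107_42_53, e0_63_106__107_42_54, e0_63_106__107_42_55, e0_63_106__107_42_56, e0_63_106__107_42_57, e0_63_106__107_42_58, e0_63_106__107_42_59, e0_63_106__107_42_60, e0_63_106__107_42_61, e0_63_106__107_42_62, e0_63_106__107_42_63, e0_63_106__107_42_64, e0_63_106__107_42_65, e0_63_106__107_42_66, e0_63_106__107_42_67, e0_63_106__107_42_68, e0_63_106__107_42_69, e0_63_106__107_42_70, e0_63_106__107_42_71, e0_63_106__107_42_72, e0_63_106__107_42_73, e0_63_106__107_42_74, e0_63_106__107_42_75, e0_63_106__107_42_76, e0_63_106__107_42_77, e0_63_106__107_42_78, e0_63_106__107_42_79, e0_63_106__107_42_80, e0_63_106__107_42_81, e0_63_106__107_42_82, e0_63_106__107_42_83, e0_63_106__107_42_84, e0_63_106__107_42_85, e0_63_106__107_42_86, e0_63_106__107_42_87, e0_63_106__107_42_88, e0_63_106__107_42_89, e0_63_106__107_42_90, e0_63_106__107_42_91, e0_63_106__107_42_92,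 e0_63_106__107_42_93, e0_63_106__107_42_94, e0_63_106__107_42_95, e0_63_106__107_42_96, e0_63_106__107_42_97, e0_63_106__107_42_98, e0_63_106__107_42_99, e0_63_106__107_42_100, e0_63_106__107_42_101, e0_63_106__107_42_102, e0_63_106__107_42_103, e0_63_106__107_42_104, e0_63_106__107_42_105, e0_63_106__107_42_106, e0_63_106__107_42_107, e0_63_106__107_42_108, e0_63_106__107_42_109, e0_63_106__107_42_110, e0_63_106__107_42_111, e0_63_106__107_42_112, e0_63_106__107_42_113, e0_63_106__107_42_114, e0_63_106__107_42_115, e0_63_106__107_42_116, e0_63_106__107_42_117, e0_63_106__107_42_118, e0_63_106__107_42_119, e0_63_106__107_42_120, e0_63_106__107_42_121, e0_63_106__107_42_122, e0_63_106__107_42_123, e0_63_106__107_42_124, e0_63_106__107_42_125, e0_63_106__107_42_126, e0_63_106__107_42_127, e0_63_106__107_42_128, e0_63_106__107_42_129, e0_63_106__107_42_130, e0_63_106__107_42_131, e0_63_106__107_42_132, e0_63_106__107_42_133,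 e0_63_106__107_42_134, e0_63_106__107_42_135, e0_63_106__107_42_136, e0_63_106__107_42_137, e0_63_106__107_42_138, e0_63_106__107_42_139, e0_63_106__107_42_140, e0_63_106__107_42_141, e0_63_106__107_42_142, e0_63_106__107_42_143, e0_63_106__107_42_144, e0_63_106__107_42_145, e0_63_106__107_42_146, e0_63_106__107_42_147, e0_63_106__107_42_148, e0_63_106__107_42_149, e0_63_106__107_42_150, e0_63_106__107_42_151, e0_63_106__107_42_152, e0_63_106__107_42_153, e0_63_106__107_42_154], by decide +kernel, by decide +kernel⟩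
def e0_63_106__111_42_0 : Ent 4 := ⟨[a0, a63, a106], [a111, a42, a1], (M a240 (F (T t4779 (T t817 (L l137 (T t4781 N))))))⟩
def e0_63_106__111_42_1 : Ent 4 := ⟨[a0, a63, a106], [a111, a42, a2], (M a240 (L l66 (F (T t4779 (T t817 (L l137 (T t4781 (K a22 (M a62 (F (T t6965 (L l22 (L l306 (T t5926 N)))))) (K a62 (M a22 (F (T t6965 (T t817 (L l137 (T t4781 N)))))) N)))))))))⟩
def e0_63_106__111_42_2 : Ent 4 := ⟨[a0, a63, a106], [a111, a42, a3], (M a240 (F (T t6525 (L l45 (T t817 (L l137 (T t4781 N)))))))⟩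
def e0_63_106__111_42_3 : Ent 4 := ⟨[a0, a63, a106], [a111, a42, a5], (M a240 (F (T t4779 (T t817 (L l137 (T t4781 N))))))⟩
def e0_63_106__111_42_4 : Ent 4 := ⟨[a0, a63, a106], [a111, a42, a6], (M a240 (F (T t4779 (T t817 (L l137 (T t4781 N))))))⟩
def e0_63_106__111_42_5 : Ent 4 := ⟨[a0, a63, a106], [a111, a42, a7], (M a240 (F (T t4779 (T t817 (L l137 (T t4781 N))))))⟩
def e0_63_106__111_42_6 : Ent 4 := ⟨[a0, a63, a106], [a111, a42, a10], (M a240 (L l54 (F (T t4786 (T t817 (L l137 (L l318 (T t4781 (K a26 (M a58 (F (T t4786 (T t7218 (L l462 (T t7219 N)))))) (K a58 (M a26 (F (L l318 (T t6965 (T t817 (L l137 (L l318 (L l462 (T t6482 N))))))))) N))))))))))⟩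
def e0_63_106__111_42_7 : Ent 4 := ⟨[a0, a63, a106], [a111, a42, a11], (M a240 (F (T t4786 (T t817 (L l137 (L l321 (T t4781 N)))))))⟩
def e0_63_106__111_42_8 : Ent 4 := ⟨[a0, a63, a106], [a111, a42, a15], (M a12 (F (T t2419 (L l327 (T t2305 (L l56 (T t2415 N)))))))⟩
def e0_63_106__111_42_9 : Ent 4 := ⟨[a0, a63, a106], [a111, a42, a16], (M a240 (F (T t4786 (L l340 (T t4780 (L l137 (T t4781 N)))))))⟩
def e0_63_106__111_42_10 : Ent 4 := ⟨[a0, a63, a106], [a111, a42, a17], (M a240 (F (T t4779 (L l10 (T t817 (L l137 (T t4781 N)))))))⟩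
def e0_63_106__111_42_11 : Ent 4 := ⟨[a0, a63, a106], [a111, a42, a18], (M a240 (F (T t4779 (L l10 (L l45 (T t817 (L l137 (T t4781 N))))))))⟩
def e0_63_106__111_42_12 : Ent 4 := ⟨[a0, a63, a106], [a111, a42, a19], (M a240 (F (T t4786 (L l10 (T t817 (L l137 (T t4781 N)))))))⟩
def e0_63_106__111_42_13 : Ent 4 := ⟨[a0, a63, a106], [a111, a42, a21], (M a240 (F (T t4779 (L l347 (T t4780 (L l137 (T t4781 N)))))))⟩
def e0_63_106__111_42_14 : Ent 4 := ⟨[a0, a63, a106], [a111, a42, a22], (M a240 (L l66 (F (T t4779 (T t817 (L l137 (T t4781 (K a2 (M a62 (F (T t6965 (L l22 (L l306 (T t5926 N)))))) (K a62 (M a2 (F (T t6965 (T t3515 N)))) N)))))))))⟩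
def e0_63_106__111_42_15 : Ent 4 := ⟨[a0, a63, a106], [a111, a42, a23], (M a240 (F (T t4779 (L l351 (T t817 (L l137 (T t4781 N)))))))⟩
def e0_63_106__111_42_16 : Ent 4 := ⟨[a0, a63, a106], [a111, a42, a26], (M a240 (L l54 (F (T t4779 (T t6606 (L l137 (T t4781 (K a10 (M a58 (F (T t4786 (T t7218 (L l462 (T t7219 N)))))) (K a58 (M a10 (F (T t6609 (L l137 (T t6610 (L l18 (T t6611 N))))))) N)))))))))⟩
def e0_63_106__111_42_17 : Ent 4 := ⟨[a0, a63, a106], [a111, a42, a27], (M a240 (F (T t4779 (T t817 (L l137 (T t4781 N))))))⟩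
def e0_63_106__111_42_18 : Ent 4 := ⟨[a0, a63, a106], [a111, a42, a31], (M a12 (F (L l13 (T t2304 (L l375 (T t2305 (L l13 (L l56 (T t2415 N)))))))))⟩
def e0_63_106__111_42_19 : Ent 4 := ⟨[a0, a63, a106], [a111, a42, a32], (M a15 (L l28 (F (T t7158 (L l54 (L l376 (T t2532 (T t6819 (K a37 (Fr a47 a31 l61 (V t7220)) (K a47 (M a37 (L l397 (F (L l54 (T t7221 (L l137 (T t7222 (K a175 (M a239 (F (L l54 (T t7221 (T t7223 (K a5 (Fr a192 a149 l519 (Fr a48 a26 l75 (Fr a74 a133 l339 (Fr a58 a53 l38 (V t7224))))) N)))))) (K a239 (M a175 (L l404 (F (L l54 (T t7221 (L l137 (T t7225 (K a101 (M a170 (F (T t7226 (L l54 (T t7221 N))))) (K a170 (M a101 (F (L l54 (L l462 (T t7221 (L l220 (L l289 (T t6819 (L l256 (T t7227 N)))))))))) N))))))))) N))))))))) N))))))))))⟩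
def e0_63_106__111_42_20 : Ent 4 := ⟨[a0, a63, a106], [a111, a42, a33], (M a240 (F (T t4779 (L l45 (T t817 (L l137 (T t4781 N)))))))⟩
def e0_63_106__111_42_21 : Ent 4 := ⟨[a0, a63, a106], [a111, a42, a34], (M a240 (L l26 (F (T t4779 (T t817 (L l137 (T t4781 (K a38 (M a46 (F (T t6965 (L l56 (L l378 (T t4030 N)))))) (K a46 (M a38 (F (T t6965 (T t817 (L l137 (T t4781 N)))))) N)))))))))⟩
def e0_63_106__111_42_22 : Ent 4 := ⟨[a0, a63, a106], [a111, a42, a35], (M a240 (F (T t4779 (L l381 (T t817 (L l137 (T t4781 N)))))))⟩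
def e0_63_106__111_42_23 : Ent 4 := ⟨[a0, a63, a106], [a111, a42, a37], (M a240 (L l28 (F (T t4786 (T t6606 (L l137 (T t4781 (K a32 (M a47 (F (T t6602 (T t6698 (T t6604 N))))) (K a47 (M a32 (L l397 (F (T t6607 (L l137 (T t4781 (L l54 (T t6608 (K a175 (M a239 (F (T t6607 (L l137 (L l180 (L l469 (T t4781 (L l47 (L l469 (T t7228 N)))))))))) (K a239 (M a175 (F (T t7229 (L l137 (T t4781 (L l47 (L l289 (T t7228 N)))))))) N)))))))))) N)))))))))⟩
def e0_63_106__111_42_24 : Ent 4 := ⟨[a0, a63, a106], [a111, a42, a38], (M a240 (L l26 (F (T t4779 (T t817 (L l137 (T t4781 (K a34 (M a46 (F (T t6965 (L l56 (L l378 (T t4030 N)))))) (K a46 (M a34 (F (T t6965 (L l50 (T t7230 (T t7231 N)))))) N)))))))))⟩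
def e0_63_106__111_42_25 : Ent 4 := ⟨[a0, a63, a106], [a111, a42, a39], (M a240 (F (T t4779 (T t817 (L l137 (T t4781 N))))))⟩
def e0_63_106__111_42_26 : Ent 4 := ⟨[a0, a63, a106], [a111, a42, a43], (M a240 (L l22 (F (T t4779 (T t817 (L l137 (T t4781 (K a40 (M a41 (F (T t6965 (T t817 (L l137 (T t4781 N)))))) (K a41 (M a40 (F (T t6965 (L l65 (L l389 (T t7232 (T t7233 N))))))) N)))))))))⟩
def e0_63_106__111_42_27 : Ent 4 := ⟨[a0, a63, a106], [a111, a42, a47], (M a252 (L l28 (L l397 (F (T t7234 (T t2535 (T t6675 (K a32 (M a37 (L l397 (F (T t7235 (L l400 (T t2535 (L l400 (T t6675 (K a175 (M a239 (F (T t6475 (L l400 (T t2535 (L l400 (T t6675 N))))))) (K a239 (M a175 (L l404 (F (T t7235 (L l400 (T t2535 (L l400 (T t6675 (K a101 (M a170 (F (T t3207 (T t7236 N)))) (K a170 (M a101 (F (T t7237 (L l220 (T t7238 N))))) N)))))))))) N)))))))))) (K a37 (M a32 (L l397 (F (T t7234 (L l399 (T t7239 (K a175 (M a239 (F (T t7235 (L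 l399 (T t7239 N))))) (K a239 (M a175 (F (T t7234 (L l251 (L l399 (T t7239 N)))))) N)))))))) (K a175 (M a239 (L l28 (F (T t7235 (T t2535 (T t6675 (K a32 (M a37 (F (T t6475 (L l400 (T t2535 (L l400 (T t6675 N))))))) (K a37 (M a32 (F (T t7235 (L l399 (T t7239 N))))) N)))))))) (K a239 (M a175 (L l28 (F (T t7235 (T t2535 (L l404 (T t6476 (K a32 (M a37 (L l404 (F (T t7235 (L l400 (T t2535 (L l400 (T t6675 (K a101 (M a170 (F (T t3207 (T t7236 N)))) (K a170 (M a101 (F (T t7237 (L l220 (T t7238 N))))) N)))))))))) (K a37 (M a32 (F (T t7234 (L l251 (L l399 (T t7239 N)))))) N))))))))) N)))))))))))⟩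
def e0_63_106__111_42_28 : Ent 4 := ⟨[a0, a63, a106], [a111, a42, a48], (M a12 (F (T t2419 (L l508 (T t2305 (L l56 (T t2415 N)))))))⟩
def e0_63_106__111_42_29 : Ent 4 := ⟨[a0, a63, a106], [a111, a42, a49], (M a240 (F (T t4779 (L l30 (T t817 (L l137 (T t4781 N)))))))⟩
def e0_63_106__111_42_30 : Ent 4 := ⟨[a0, a63, a106], [a111, a42, a50], (M a240 (F (T t4779 (L l30 (T t817 (L l137 (T t4781 N)))))))⟩
def e0_63_106__111_42_31 : Ent 4 := ⟨[a0, a63, a106], [a111, a42, a51], (M a240 (F (T t6525 (L l30 (T t817 (L l137 (T t4781 N)))))))⟩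
def e0_63_106__111_42_32 : Ent 4 := ⟨[a0, a63, a106], [a111, a42, a53], (M a240 (F (T t4786 (L l491 (T t817 (L l137 (L l419 (T t4781 N))))))))⟩
def e0_63_106__111_42_33 : Ent 4 := ⟨[a0, a63, a106], [a111, a42, a54], (M a240 (F (T t4779 (T t817 (L l137 (T t4781 N))))))⟩
def e0_63_106__111_42_34 : Ent 4 := ⟨[a0, a63, a106], [a111, a42, a55], (M a240 (F (T t4786 (L l495 (T t817 (L l137 (L l423 (T t4781 N))))))))⟩
def e0_63_106__111_42_35 : Ent 4 := ⟨[a0, a63, a106], [a111, a42, a58], (M a240 (L l54 (F (T t4779 (T t817 (L l137 (T t4781 (K a10 (M a26 (F (L l318 (T t6965 (T t817 (L l137 (L l318 (L l462 (T t6482 N))))))))) (K a26 (M a10 (F (T t6609 (L l137 (T t6610 (L l18 (T t6611 N))))))) N)))))))))⟩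
def e0_63_106__111_42_36 : Ent 4 := ⟨[a0, a63, a106], [a111, a42, a59], (M a240 (L l56 (F (T t4779 (T t817 (L l137 (T t4781 (K a8 (M a25 (F (T t6965 (T t817 (L l137 (T t4781 N)))))) (K a25 (M a8 (F (T t6965 (T t7240 N)))) N)))))))))⟩
def e0_63_106__111_42_37 : Ent 4 := ⟨[a0, a63, a106], [a111, a42, a64], (M a240 (F (T t4786 (L l84 (L l137 (T t6501 (L l28 (L l137 (L l397 (T t7241 (L l84 (L l116 (L l397 (T t6484 (L l28 (L l84 (L l137 (L l397 (T t7242 (L l116 (L l397 (T t6859 (L l28 (L l84 (L l137 (L l397 (T t7243 N)))))))))))))))))))))))))))⟩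
def e0_63_106__111_42_38 : Ent 4 := ⟨[a0, a63, a106], [a111, a42, a65], (M a240 (F (T t4779 (T t817 (L l76 (L l137 (T t4781 N)))))))⟩
def e0_63_106__111_42_39 : Ent 4 := ⟨[a0, a63, a106], [a111, a42, a66], (M a240 (F (L l309 (T t4786 (T t817 (L l76 (L l82 (L l137 (T t4781 N)))))))))⟩
def e0_63_106__111_42_40 : Ent 4 := ⟨[a0, a63, a106], [a111, a42, a67], (M a240 (F (T t4779 (T t817 (L l76 (L l137 (T t4781 N)))))))⟩
def e0_63_106__111_42_41 : Ent 4 := ⟨[a0, a63, a106], [a111, a42, a69], (M a240 (F (L l311 (T t4786 (T t817 (L l84 (L l137 (T t6482 N))))))))⟩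
def e0_63_106__111_42_42 : Ent 4 := ⟨[a0, a63, a106], [a111, a42, a70], (M a240 (F (L l82 (T t4779 (T t817 (L l82 (L l137 (T t4781 N))))))))⟩
def e0_63_106__111_42_43 : Ent 4 := ⟨[a0, a63, a106], [a111, a42, a71], (M a240 (F (T t4779 (T t817 (L l137 (T t4781 N))))))⟩
def e0_63_106__111_42_44 : Ent 4 := ⟨[a0, a63, a106], [a111, a42, a74], (M a12 (F (T t2414 (L l56 (L l84 (T t2415 (L l78 (L l84 (T t2305 N)))))))))⟩
def e0_63_106__111_42_45 : Ent 4 := ⟨[a0, a63, a106], [a111, a42, a75], (M a240 (F (T t4786 (T t817 (L l78 (L l137 (T t4781 N)))))))⟩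
def e0_63_106__111_42_46 : Ent 4 := ⟨[a0, a63, a106], [a111, a42, a79], (M a12 (L l137 (F (T t2304 (L l84 (T t2305 (L l56 (L l84 (T t2415 (K a95 (M a127 (F (T t6592 (T t2418 N)))) (K a127 (M a95 (F (T t6812 (L l84 (T t2305 (L l56 (T t6830 N))))))) N)))))))))))⟩
def e0_63_106__111_42_47 : Ent 4 := ⟨[a0, a63, a106], [a111, a42, a80], (M a12 (F (T t2304 (L l116 (T t2305 (L l56 (L l116 (T t2415 N))))))))⟩
def e0_63_106__111_42_48 : Ent 4 := ⟨[a0, a63, a106], [a111, a42, a81], (M a240 (F (T t4779 (L l344 (T t817 (L l120 (L l137 (T t4781 N))))))))⟩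
def e0_63_106__111_42_49 : Ent 4 := ⟨[a0, a63, a106], [a111, a42, a82], (M a240 (F (T t4786 (T t817 (L l137 (T t4781 N))))))⟩
def e0_63_106__111_42_50 : Ent 4 := ⟨[a0, a63, a106], [a111, a42, a83], (M a240 (F (T t4779 (T t817 (L l93 (L l137 (T t4781 N)))))))⟩
def e0_63_106__111_42_51 : Ent 4 := ⟨[a0, a63, a106], [a111, a42, a85], (M a240 (F (T t4779 (L l347 (L l368 (T t817 (T t4786 (L l28 (L l94 (L l397 (T t6483 (K a192 (M a248 (F (T t3821 (L l87 (L l94 (T t6520 (L l22 (L l339 (T t7244 N))))))))) N))))))))))))⟩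
def e0_63_106__111_42_52 : Ent 4 := ⟨[a0, a63, a106], [a111, a42, a86], (M a240 (F (T t4779 (L l351 (T t817 (L l137 (T t4781 N)))))))⟩
def e0_63_106__111_42_53 : Ent 4 := ⟨[a0, a63, a106], [a111, a42, a87], (M a240 (F (T t4779 (T t817 (L l93 (L l137 (T t4781 N)))))))⟩
def e0_63_106__111_42_54 : Ent 4 := ⟨[a0, a63, a106], [a111, a42, a90], (M a12 (F (T t2304 (L l375 (T t2305 (L l56 (T t2415 N)))))))⟩
def e0_63_106__111_42_55 : Ent 4 := ⟨[a0, a63, a106], [a111, a42, a91], (M a240 (F (T t4779 (T t817 (L l93 (L l137 (T t4781 N)))))))⟩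
def e0_63_106__111_42_56 : Ent 4 := ⟨[a0, a63, a106], [a111, a42, a95], (M a12 (L l137 (F (T t2304 (T t2305 (L l56 (T t2415 (K a79 (M a127 (F (T t6592 (T t2418 N)))) (K a127 (M a79 (F (T t2418 (T t2305 (L l56 (L l469 (T t7173 (L l56 (T t7174 N))))))))) N)))))))))⟩
def e0_63_106__111_42_57 : Ent 4 := ⟨[a0, a63, a106], [a111, a42, a96], (M a12 (F (T t2414 (L l56 (L l116 (T t2415 (L l116 (T t2305 N))))))))⟩
def e0_63_106__111_42_58 : Ent 4 := ⟨[a0, a63, a106], [a111, a42, a97], (M a240 (F (T t4779 (L l488 (T t817 (L l137 (T t4781 N)))))))⟩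
def e0_63_106__111_42_59 : Ent 4 := ⟨[a0, a63, a106], [a111, a42, a98], (M a240 (F (T t6965 (L l381 (T t817 (L l120 (L l137 (T t4781 N))))))))⟩
def e0_63_106__111_42_60 : Ent 4 := ⟨[a0, a63, a106], [a111, a42, a99], (M a240 (L l103 (F (T t4779 (T t817 (L l137 (T t4781 (K a103 (M a107 (F (T t6965 (L l493 (T t7245 N))))) (K a107 (M a103 (F (T t6965 (T t817 (L l137 (T t4781 N)))))) N)))))))))⟩
def e0_63_106__111_42_61 : Ent 4 := ⟨[a0, a63, a106], [a111, a42, a101], (M a240 (F (T t4779 (L l491 (L l512 (T t817 (L l137 (T t4781 N))))))))⟩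
def e0_63_106__111_42_62 : Ent 4 := ⟨[a0, a63, a106], [a111, a42, a102], (M a240 (F (T t4779 (L l495 (T t817 (L l137 (T t4781 N)))))))⟩
def e0_63_106__111_42_63 : Ent 4 := ⟨[a0, a63, a106], [a111, a42, a103], (M a240 (L l103 (F (T t4779 (T t817 (L l137 (T t4781 (K a99 (M a107 (F (T t6965 (L l493 (T t7245 N))))) (K a107 (M a99 (F (T t6965 (T t817 (L l137 (T t4781 N)))))) N)))))))))⟩
def e0_63_106__111_42_64 : Ent 4 := ⟨[a0, a63, a106], [a111, a42, a107], (M a240 (L l103 (F (T t4779 (T t817 (L l137 (T t4781 (K a99 (M a103 (F (T t6965 (T t817 (L l137 (T t4781 N)))))) (K a103 (M a99 (F (T t6965 (T t817 (L l137 (T t4781 N)))))) N)))))))))⟩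
def e0_63_106__111_42_65 : Ent 4 := ⟨[a0, a63, a106], [a111, a42, a112], (M a12 (F (T t2304 (L l116 (T t2305 (L l56 (L l116 (T t2415 N))))))))⟩
def e0_63_106__111_42_66 : Ent 4 := ⟨[a0, a63, a106], [a111, a42, a113], (M a240 (F (T t4779 (L l416 (T t817 (L l137 (T t4781 N)))))))⟩
def e0_63_106__111_42_67 : Ent 4 := ⟨[a0, a63, a106], [a111, a42, a114], (M a240 (F (T t4779 (T t817 (L l137 (T t4781 N))))))⟩
def e0_63_106__111_42_68 : Ent 4 := ⟨[a0, a63, a106], [a111, a42, a115], (M a240 (F (T t4779 (T t817 (L l120 (L l137 (T t4781 N)))))))⟩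
def e0_63_106__111_42_69 : Ent 4 := ⟨[a0, a63, a106], [a111, a42, a117], (M a240 (F (L l419 (T t4779 (L l440 (T t817 (L l137 (L l419 (T t4781 N)))))))))⟩
def e0_63_106__111_42_70 : Ent 4 := ⟨[a0, a63, a106], [a111, a42, a118], (M a240 (F (L l423 (T t4779 (T t817 (L l137 (L l423 (T t4781 N))))))))⟩
def e0_63_106__111_42_71 : Ent 4 := ⟨[a0, a63, a106], [a111, a42, a119], (M a240 (F (T t4779 (T t817 (L l137 (T t4781 N))))))⟩
def e0_63_106__111_42_72 : Ent 4 := ⟨[a0, a63, a106], [a111, a42, a122], (M a12 (F (T t2304 (T t2305 (L l56 (T t2415 N))))))⟩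
def e0_63_106__111_42_73 : Ent 4 := ⟨[a0, a63, a106], [a111, a42, a123], (M a240 (F (T t4779 (T t817 (L l137 (T t4781 N))))))⟩
def e0_63_106__111_42_74 : Ent 4 := ⟨[a0, a63, a106], [a111, a42, a127], (M a240 (L l137 (F (T t4779 (T t817 (T t7246 (L l397 (T t6484 (K a79 (M a95 (F (L l84 (T t7247 (T t817 (L l28 (L l325 (L l397 (T t815 N))))))))) (K a95 (M a79 (F (T t6609 (T t817 (L l114 (T t7248 (K a149 (Fr a122 a181 l447 (Fr a90 a74 l130 (Fr a165 a15 l483 (Fr a160 a80 l448 (Fr a170 a175 l180 (Fr a255 a85 l476 (V t7286))))))) N))))))) N))))))))))⟩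
def e0_63_106__111_42_75 : Ent 4 := ⟨[a0, a63, a106], [a111, a42, a128], (M a240 (F (T t4779 (L l137 (L l192 (T t4781 (L l28 (L l137 (L l192 (L l220 (L l397 (T t7250 (L l54 (L l160 (T t7251 N)))))))))))))))⟩
def e0_63_106__111_42_76 : Ent 4 := ⟨[a0, a63, a106], [a111, a42, a129], (M a240 (F (L l309 (T t4779 (L l217 (T t817 (L l137 (T t4781 N))))))))⟩
def e0_63_106__111_42_77 : Ent 4 := ⟨[a0, a63, a106], [a111, a42, a130], (M a240 (F (T t4779 (T t817 (L l137 (T t4781 N))))))⟩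
def e0_63_106__111_42_78 : Ent 4 := ⟨[a0, a63, a106], [a111, a42, a131], (M a240 (F (T t4779 (T t817 (L l137 (T t4781 N))))))⟩
def e0_63_106__111_42_79 : Ent 4 := ⟨[a0, a63, a106], [a111, a42, a133], (M a12 (F (T t2414 (L l56 (T t2415 (L l199 (T t2305 N)))))))⟩
def e0_63_106__111_42_80 : Ent 4 := ⟨[a0, a63, a106], [a111, a42, a134], (M a240 (F (L l336 (T t4779 (T t817 (L l137 (L l336 (T t4781 N))))))))⟩
def e0_63_106__111_42_81 : Ent 4 := ⟨[a0, a63, a106], [a111, a42, a135], (M a240 (F (T t4779 (T t817 (L l137 (T t4781 N))))))⟩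
def e0_63_106__111_42_82 : Ent 4 := ⟨[a0, a63, a106], [a111, a42, a138], (M a240 (F (L l318 (T t4779 (T t817 (L l137 (L l318 (T t4781 N))))))))⟩
def e0_63_106__111_42_83 : Ent 4 := ⟨[a0, a63, a106], [a111, a42, a139], (M a240 (F (T t4779 (T t817 (L l137 (T t4781 N))))))⟩
def e0_63_106__111_42_84 : Ent 4 := ⟨[a0, a63, a106], [a111, a42, a143], (M a240 (F (T t4779 (T t817 (L l137 (T t4781 N))))))⟩
def e0_63_106__111_42_85 : Ent 4 := ⟨[a0, a63, a106], [a111, a42, a144], (M a12 (F (T t2414 (L l56 (T t2415 (L l170 (T t2305 N)))))))⟩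
def e0_63_106__111_42_86 : Ent 4 := ⟨[a0, a63, a106], [a111, a42, a145], (M a240 (F (L l489 (T t4786 (L l167 (T t817 (L l137 (T t4781 N))))))))⟩
def e0_63_106__111_42_87 : Ent 4 := ⟨[a0, a63, a106], [a111, a42, a146], (M a240 (F (T t4779 (L l344 (L l488 (T t817 (L l137 (T t4781 N))))))))⟩
def e0_63_106__111_42_88 : Ent 4 := ⟨[a0, a63, a106], [a111, a42, a147], (M a240 (F (T t4779 (T t817 (L l137 (T t4781 N))))))⟩
def e0_63_106__111_42_89 : Ent 4 := ⟨[a0, a63, a106], [a111, a42, a149], (M a252 (F (L l217 (T t6675 (L l217 (L l347 (T t7252 (L l22 (L l217 (L l351 (T t7253 (L l22 (L l137 (L l217 (L l220 (L l351 (T t7254 (K a129 (M a169 (F (T t7255 (L l22 (L l137 (L l152 (L l220 (L l305 (L l351 (T t7256 (L l137 (L l152 (L l220 (T t7257 N)))))))))))))) (K a169 (M a86 (L l217 (F (T t6735 (L l174 (T t7258 (K a129 (Fr a189 a126 l435 (V t7258)) (K a189 (M a129 (F (L l174 (T t7258 (L l66 (L l221 (T t7259 (L l220 (L l473 (T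 t7260 N)))))))))) N)))))))) (K a189 (M a169 (F (T t7261 (T t7262 (L l22 (L l137 (L l220 (L l351 (T t7256 (L l137 (L l220 (T t7257 N)))))))))))) (K a66 (M a48 (F (T t3428 (L l28 (L l76 (L l491 (T t579 (L l491 (T t7263 N))))))))) (K a86 (M a240 (L l351 (F (T t7264 (L l199 (L l217 (T t6519 (L l137 (L l199 (T t4781 (K a212 (M a23 (F (T t3105 (L l22 (L l92 (T t4224 N)))))) (K a23 (M a212 (F (T t3105 (L l11 (T t3429 N))))) N)))))))))))) (K a126 (M a48 (F (T t3428 (L l28 (L l491 (T t579 (L l491 (T t7263 N)))))))) N)))))))))))))))))))))))⟩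
def e0_63_106__111_42_90 : Ent 4 := ⟨[a0, a63, a106], [a111, a42, a150], (M a240 (F (T t4779 (L l163 (T t817 (L l137 (T t4781 N)))))))⟩
def e0_63_106__111_42_91 : Ent 4 := ⟨[a0, a63, a106], [a111, a42, a151], (M a240 (F (T t4779 (L l163 (T t817 (L l137 (T t4781 N)))))))⟩
def e0_63_106__111_42_92 : Ent 4 := ⟨[a0, a63, a106], [a111, a42, a154], (M a240 (F (T t4779 (L l170 (L l368 (L l512 (T t817 (L l137 (T t4781 N)))))))))⟩
def e0_63_106__111_42_93 : Ent 4 := ⟨[a0, a63, a106], [a111, a42, a155], (M a240 (F (T t4779 (T t817 (L l137 (T t4781 N))))))⟩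
def e0_63_106__111_42_94 : Ent 4 := ⟨[a0, a63, a106], [a111, a42, a159], (M a240 (F (T t4779 (L l170 (T t817 (L l137 (L l361 (T t4781 N))))))))⟩
def e0_63_106__111_42_95 : Ent 4 := ⟨[a0, a63, a106], [a111, a42, a160], (M a12 (F (T t2304 (T t2305 (L l56 (T t2415 N))))))⟩
def e0_63_106__111_42_96 : Ent 4 := ⟨[a0, a63, a106], [a111, a42, a161], (M a240 (F (T t4779 (L l172 (L l381 (T t817 (L l137 (L l172 (T t4781 N)))))))))⟩
def e0_63_106__111_42_97 : Ent 4 := ⟨[a0, a63, a106], [a111, a42, a162], (M a240 (F (T t4779 (L l172 (T t817 (L l137 (L l172 (T t4781 N))))))))⟩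
def e0_63_106__111_42_98 : Ent 4 := ⟨[a0, a63, a106], [a111, a42, a163], (M a240 (F (T t4779 (L l172 (T t817 (L l137 (L l172 (T t4781 N))))))))⟩
def e0_63_106__111_42_99 : Ent 4 := ⟨[a0, a63, a106], [a111, a42, a165], (M a12 (F (T t2304 (L l199 (T t2305 (L l56 (T t2415 N)))))))⟩
def e0_63_106__111_42_100 : Ent 4 := ⟨[a0, a63, a106], [a111, a42, a166], (M a240 (F (T t4779 (L l202 (T t817 (L l137 (T t4781 N)))))))⟩
def e0_63_106__111_42_101 : Ent 4 := ⟨[a0, a63, a106], [a111, a42, a167], (M a240 (F (T t4779 (T t817 (L l137 (T t4781 N))))))⟩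
def e0_63_106__111_42_102 : Ent 4 := ⟨[a0, a63, a106], [a111, a42, a170], (M a240 (F (T t4779 (L l220 (T t4780 (L l137 (L l180 (L l220 (L l462 (T t6503 (L l28 (L l137 (L l180 (L l397 (T t7265 N)))))))))))))))⟩
def e0_63_106__111_42_103 : Ent 4 := ⟨[a0, a63, a106], [a111, a42, a171], (M a240 (F (T t4779 (T t817 (L l137 (T t4781 N))))))⟩
def e0_63_106__111_42_104 : Ent 4 := ⟨[a0, a63, a106], [a111, a42, a175], (M a240 (L l397 (F (T t4786 (T t4780 (L l137 (L l180 (L l469 (T t4781 (K a47 (M a239 (L l28 (F (T t4780 (L l137 (L l180 (L l469 (T t4781 (L l137 (T t7266 (L l180 (L l469 (T t7267 (K a32 (M a37 (F (L l180 (L l376 (T t6588 (L l469 (T t7268 (L l137 (L l180 (L l376 (L l469 (T t4781 (L l137 (T t7269 (L l137 (T t7266 N)))))))))))))))) (K a37 (M a32 (F (T t6607 (L l137 (L l180 (L l469 (T t4781 (L l47 (L l469 (T t7228 N)))))))))) N))))))))))))))) (K a239 (M a47 (F (T t7156 (T t4780 N)))) N)))))))))))⟩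
def e0_63_106__111_42_105 : Ent 4 := ⟨[a0, a63, a106], [a111, a42, a176], (M a240 (F (T t4786 (L l192 (T t817 (L l137 (L l190 (L l192 (T t4781 N)))))))))⟩
def e0_63_106__111_42_106 : Ent 4 := ⟨[a0, a63, a106], [a111, a42, a177], (M a240 (F (T t4786 (T t817 (L l137 (L l187 (T t4781 N)))))))⟩
def e0_63_106__111_42_107 : Ent 4 := ⟨[a0, a63, a106], [a111, a42, a178], (M a240 (F (T t4779 (L l416 (T t817 (L l137 (T t4781 N)))))))⟩
def e0_63_106__111_42_108 : Ent 4 := ⟨[a0, a63, a106], [a111, a42, a179], (M a240 (F (T t4779 (T t817 (L l137 (T t4781 N))))))⟩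
def e0_63_106__111_42_109 : Ent 4 := ⟨[a0, a63, a106], [a111, a42, a181], (M a12 (F (T t2304 (L l199 (T t2305 (L l56 (T t2415 N)))))))⟩
def e0_63_106__111_42_110 : Ent 4 := ⟨[a0, a63, a106], [a111, a42, a182], (M a240 (F (L l183 (T t4779 (T t817 (L l137 (L l183 (T t4781 N))))))))⟩
def e0_63_106__111_42_111 : Ent 4 := ⟨[a0, a63, a106], [a111, a42, a183], (M a240 (F (T t4786 (L l202 (T t817 (L l137 (L l183 (T t4781 N))))))))⟩
def e0_63_106__111_42_112 : Ent 4 := ⟨[a0, a63, a106], [a111, a42, a186], (M a240 (F (L l190 (T t4779 (L l440 (T t817 (L l137 (L l190 (T t4781 N)))))))))⟩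
def e0_63_106__111_42_113 : Ent 4 := ⟨[a0, a63, a106], [a111, a42, a187], (M a240 (F (T t4779 (T t817 (L l137 (T t4781 N))))))⟩
def e0_63_106__111_42_114 : Ent 4 := ⟨[a0, a63, a106], [a111, a42, a191], (M a240 (F (T t4786 (L l220 (T t817 (L l137 (L l190 (T t6501 (L l137 (L l190 (T t6654 N)))))))))))⟩
def e0_63_106__111_42_115 : Ent 4 := ⟨[a0, a63, a106], [a111, a42, a192], (M a252 (F (L l309 (T t6675 (L l228 (L l309 (T t7270 (L l296 (L l309 (T t7271 (L l22 (L l309 (T t7272 (L l309 (T t7273 (K a129 (M a86 (L l309 (F (T t6735 (L l296 (T t1230 (K a66 (Fr a3 a169 l477 (V t5989)) (K a3 (Fr a66 a126 l142 (V t7274)) N)))))))) (K a85 (M a48 (F (L l28 (T t7275 (L l236 (L l309 (T t7276 N))))))) (K a189 (M a48 (F (T t7277 (L l28 (L l236 (T t579 (L l236 (T t7263 N)))))))) (K a66 (M a169 (L l309 (F (T t7261 (L l296 (T t7278 (L l66 (L l76 (L l306 (T t6997 (K a129 (Fr a3 a86 l477 (V t7279)) (K a3 (M a129 (F (T t7280 (L l22 (L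 l228 (L l306 (L l514 (T t7281 N)))))))) N)))))))))))) (K a86 (M a240 (F (T t7282 (L l95 (L l334 (T t6518 (L l137 (L l339 (T t4781 N))))))))) (K a126 (M a48 (F (T t7277 (L l28 (L l236 (T t579 (L l236 (T t7263 N)))))))) (K a3 (M a48 (L l309 (F (T t7277 (L l236 (T t7283 (K a129 (M a66 (F (T t7284 (L l232 (L l333 (T t801 N)))))) (K a66 (M a129 (F (T t7277 (L l28 (L l76 (L l236 (T t579 (L l331 (T t7285 N))))))))) N)))))))) N))))))))))))))))))))))⟩
def e0_63_106__111_42_116 : Ent 4 := ⟨[a0, a63, a106], [a111, a42, a193], (M a240 (F (L l228 (T t4779 (L l515 (T t817 (L l137 (T t4781 N))))))))⟩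
def e0_63_106__111_42_117 : Ent 4 := ⟨[a0, a63, a106], [a111, a42, a194], (M a240 (F (L l228 (T t4786 (T t817 (L l137 (L l336 (T t4781 N))))))))⟩
def e0_63_106__111_42_118 : Ent 4 := ⟨[a0, a63, a106], [a111, a42, a195], (M a240 (F (T t6525 (L l488 (T t817 (L l137 (T t4781 N)))))))⟩
def e0_63_106__111_42_119 : Ent 4 := ⟨[a0, a63, a106], [a111, a42, a197], (M a240 (F (L l236 (T t4779 (L l491 (T t817 (L l137 (T t4781 N))))))))⟩
def e0_63_106__111_42_120 : Ent 4 := ⟨[a0, a63, a106], [a111, a42, a198], (M a240 (F (T t4779 (T t817 (L l137 (T t4781 N))))))⟩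
def e0_63_106__111_42_121 : Ent 4 := ⟨[a0, a63, a106], [a111, a42, a199], (M a240 (F (T t4779 (T t817 (L l137 (T t4781 N))))))⟩
def e0_63_106__111_42_122 : Ent 4 := ⟨[a0, a63, a106], [a111, a42, a202], (M a240 (F (L l236 (T t4786 (T t817 (L l137 (L l318 (T t4781 N))))))))⟩
def e0_63_106__111_42_123 : Ent 4 := ⟨[a0, a63, a106], [a111, a42, a203], (M a240 (F (T t4779 (T t817 (L l137 (T t4781 N))))))⟩
def e0_63_106__111_42_124 : Ent 4 := ⟨[a0, a63, a106], [a111, a42, a207], (M a240 (F (T t6525 (L l512 (T t817 (L l137 (T t4781 N)))))))⟩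
def e0_63_106__111_42_125 : Ent 4 := ⟨[a0, a63, a106], [a111, a42, a208], (M a12 (F (T t2419 (L l375 (T t2305 (L l56 (T t2415 N)))))))⟩
def e0_63_106__111_42_126 : Ent 4 := ⟨[a0, a63, a106], [a111, a42, a209], (M a240 (F (L l272 (T t4786 (L l371 (T t817 (L l137 (T t4781 N))))))))⟩
def e0_63_106__111_42_127 : Ent 4 := ⟨[a0, a63, a106], [a111, a42, a210], (M a240 (F (T t4786 (T t817 (L l137 (T t4781 N))))))⟩
def e0_63_106__111_42_128 : Ent 4 := ⟨[a0, a63, a106], [a111, a42, a211], (M a240 (F (T t4786 (L l344 (T t817 (L l137 (T t4781 N)))))))⟩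
def e0_63_106__111_42_129 : Ent 4 := ⟨[a0, a63, a106], [a111, a42, a213], (M a240 (F (L l296 (T t4786 (L l347 (T t817 (L l137 (T t4781 N))))))))⟩
def e0_63_106__111_42_130 : Ent 4 := ⟨[a0, a63, a106], [a111, a42, a214], (M a240 (F (T t4779 (T t817 (L l137 (T t4781 N))))))⟩
def e0_63_106__111_42_131 : Ent 4 := ⟨[a0, a63, a106], [a111, a42, a215], (M a240 (F (T t4779 (T t817 (L l137 (T t4781 N))))))⟩
def e0_63_106__111_42_132 : Ent 4 := ⟨[a0, a63, a106], [a111, a42, a218], (M a240 (F (T t4786 (T t817 (L l137 (T t4781 N))))))⟩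
def e0_63_106__111_42_133 : Ent 4 := ⟨[a0, a63, a106], [a111, a42, a219], (M a240 (F (T t4779 (T t817 (L l137 (T t4781 N))))))⟩
def e0_63_106__111_42_134 : Ent 4 := ⟨[a0, a63, a106], [a111, a42, a223], (M a240 (F (T t4786 (L l368 (T t817 (L l137 (L l361 (T t4781 N))))))))⟩
def e0_63_106__111_42_135 : Ent 4 := ⟨[a0, a63, a106], [a111, a42, a224], (M a12 (F (T t2416 (L l56 (L l248 (T t2415 (T t2305 N)))))))⟩
def e0_63_106__111_42_136 : Ent 4 := ⟨[a0, a63, a106], [a111, a42, a225], (M a240 (F (T t4779 (L l248 (T t817 (L l137 (T t4781 N)))))))⟩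
def e0_63_106__111_42_137 : Ent 4 := ⟨[a0, a63, a106], [a111, a42, a226], (M a240 (F (T t6965 (L l248 (T t817 (L l137 (T t4781 N)))))))⟩
def e0_63_106__111_42_138 : Ent 4 := ⟨[a0, a63, a106], [a111, a42, a227], (M a240 (F (T t4779 (L l248 (T t817 (L l137 (T t4781 N)))))))⟩
def e0_63_106__111_42_139 : Ent 4 := ⟨[a0, a63, a106], [a111, a42, a229], (M a240 (F (T t4779 (L l256 (T t817 (L l137 (T t4781 N)))))))⟩
def e0_63_106__111_42_140 : Ent 4 := ⟨[a0, a63, a106], [a111, a42, a230], (M a240 (F (T t4779 (T t817 (L l137 (T t4781 N))))))⟩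
def e0_63_106__111_42_141 : Ent 4 := ⟨[a0, a63, a106], [a111, a42, a231], (M a240 (F (T t4779 (T t817 (L l137 (T t4781 N))))))⟩
def e0_63_106__111_42_142 : Ent 4 := ⟨[a0, a63, a106], [a111, a42, a234], (M a240 (F (T t6965 (L l256 (T t817 (L l137 (T t4781 N)))))))⟩
def e0_63_106__111_42_143 : Ent 4 := ⟨[a0, a63, a106], [a111, a42, a235], (M a240 (F (T t4779 (T t817 (L l137 (T t4781 N))))))⟩
def e0_63_106__111_42_144 : Ent 4 := ⟨[a0, a63, a106], [a111, a42, a239], (M a252 (L l397 (F (T t7234 (T t2535 (T t6675 (K a47 (M a175 (L l28 (F (T t7235 (T t2535 (L l404 (T t6476 (K a32 (M a37 (L l404 (F (T t7235 (L l400 (T t2535 (L l400 (T t6675 (K a101 (M a170 (F (T t3207 (T t7236 N)))) (K a170 (M a101 (F (T t7237 (L l220 (T t7238 N))))) N)))))))))) (K a37 (M a32 (F (T t7234 (L l251 (L l399 (T t7239 N)))))) N))))))))) (K a175 (M a47 (F (T t7235 (L l54 (L l256 (T t6764 N)))))) N))))))))⟩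
def e0_63_106__111_42_145 : Ent 4 := ⟨[a0, a63, a106], [a111, a42, a240], (M a12 (F (T t2419 (L l298 (T t2305 (L l56 (T t2415 N)))))))⟩
def e0_63_106__111_42_146 : Ent 4 := ⟨[a0, a63, a106], [a111, a42, a241], (M a240 (F (T t4786 (T t817 (L l137 (L l443 (T t4781 N)))))))⟩
def e0_63_106__111_42_147 : Ent 4 := ⟨[a0, a63, a106], [a111, a42, a242], (M a240 (F (T t4779 (T t817 (L l137 (T t4781 N))))))⟩
def e0_63_106__111_42_148 : Ent 4 := ⟨[a0, a63, a106], [a111, a42, a243], (M a240 (F (T t6525 (L l416 (T t817 (L l137 (T t4781 N)))))))⟩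
def e0_63_106__111_42_149 : Ent 4 := ⟨[a0, a63, a106], [a111, a42, a245], (M a240 (F (T t4786 (T t817 (L l137 (L l419 (T t4781 N)))))))⟩
def e0_63_106__111_42_150 : Ent 4 := ⟨[a0, a63, a106], [a111, a42, a246], (M a240 (F (T t4779 (T t817 (L l137 (T t4781 N))))))⟩
def e0_63_106__111_42_151 : Ent 4 := ⟨[a0, a63, a106], [a111, a42, a247], (M a240 (F (T t4779 (T t817 (L l137 (T t4781 N))))))⟩
def e0_63_106__111_42_152 : Ent 4 := ⟨[a0, a63, a106], [a111, a42, a250], (M a240 (F (T t4779 (T t817 (L l137 (T t4781 N))))))⟩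
def e0_63_106__111_42_153 : Ent 4 := ⟨[a0, a63, a106], [a111, a42, a251], (M a240 (F (T t4779 (T t817 (L l137 (T t4781 N))))))⟩
def e0_63_106__111_42_154 : Ent 4 := ⟨[a0, a63, a106], [a111, a42, a255], (M a240 (F (T t6525 (L l440 (T t817 (L l440 (T t6500 (L l28 (L l137 (L l397 (L l469 (T t6684 N))))))))))))⟩
def b0_63_106__111_42 : Blk 4 := ⟨[0, 63, 106], [111, 42], [1, 2, 3, 5, 6, 7, 10, 11, 15, 16, 17, 18, 19, 21, 22, 23, 26, 27, 31, 32, 33, 34, 35, 37, 38, 39, 43, 47, 48, 49, 50, 51, 53, 54, 55, 58, 59, 64, 65, 66, 67, 69, 70, 71, 74, 75, 79, 80, 81, 82, 83, 85, 86, 87, 90, 91, 95, 96, 97, 98, 99, 101, 102, 103, 107, 112, 113, 114, 115, 117, 118, 119, 122, 123, 127, 128, 129, 130, 131, 133, 134, 135, 138, 139, 143, 144, 145, 146, 147, 149, 150, 151, 154, 155, 159, 160, 161, 162, 163, 165, 166, 167, 170, 171, 175, 176, 177, 178, 179, 181, 182, 183, 186, 187, 191, 192, 193, 194, 195, 197, 198, 199, 202, 203, 207,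 208, 209, 210, 211, 213, 214, 215, 218, 219, 223, 224, 225, 226, 227, 229, 230, 231, 234, 235, 239, 240, 241, 242, 243, 245, 246, 247, 250, 251, 255], [e0_63_106__111_42_0, e0_63_106__111_42_1, e0_63_106__111_42_2, e0_63_106__111_42_3, e0_63_106__111_42_4, e0_63_106__111_42_5, e0_63_106__111_42_6, e0_63_106__111_42_7, e0_63_106__111_42_8, e0_63_106__111_42_9, e0_63_106__111_42_10, e0_63_106__111_42_11, e0_63_106__111_42_12, e0_63_106__111_42_13, e0_63_106__111_42_14, e0_63_106__111_42_15, e0_63_106__111_42_16, e0_63_106__111_42_17, e0_63_106__111_42_18, e0_63_106__111_42_19, e0_63_106__111_42_20, e0_63_106__111_42_21, e0_63_106__111_42_22, e0_63_106__111_42_23, e0_63_106__111_42_24, e0_63_106__111_42_25, e0_63_106__111_42_26, e0_63_106__111_42_27, e0_63_106__111_42_28, e0_63_106__111_42_29, e0_63_106__111_42_30, e0_63_106__111_42_31, e0_63_106__111_42_32, e0_63_106__111_42_33, e0_63_106__111_42_34, e0_63_106__111_42_35,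 e0_63_106__111_42_36, e0_63_106__111_42_37, e0_63_106__111_42_38, e0_63_106__111_42_39, e0_63_106__111_42_40, e0_63_106__111_42_41, e0_63_106__111_42_42, e0_63_106__111_42_43, e0_63_106__111_42_44, e0_63_106__111_42_45, e0_63_106__111_42_46, e0_63_106__111_42_47, e0_63_106__111_42_48, e0_63_106__111_42_49, e0_63_106__111_42_50, e0_63_106__111_42_51, e0_63_106__111_42_52, e0_63_106__111_42_53, e0_63_106__111_42_54, e0_63_106__111_42_55, e0_63_106__111_42_56, e0_63_106__111_42_57, e0_63_106__111_42_58, e0_63_106__111_42_59, e0_63_106__111_42_60, e0_63_106__111_42_61, e0_63_106__111_42_62, e0_63_106__111_42_63, e0_63_106__111_42_64, e0_63_106__111_42_65, e0_63_106__111_42_66, e0_63_106__111_42_67, e0_63_106__111_42_68, e0_63_106__111_42_69, e0_63_106__111_42_70, e0_63_106__111_42_71, e0_63_106__111_42_72, e0_63_106__111_42_73, e0_63_106__111_42_74, e0_63_106__111_42_75, e0_63_106__111_42_76, e0_63_106__111_42_77,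 e0_63_106__111_42_78, e0_63_106__111_42_79, e0_63_106__111_42_80, e0_63_106__111_42_81, e0_63_106__111_42_82, e0_63_106__111_42_83, e0_63_106__111_42_84, e0_63_106__111_42_85, e0_63_106__111_42_86, e0_63_106__111_42_87, e0_63_106__111_42_88, e0_63_106__111_42_89, e0_63_106__111_42_90, e0_63_106__111_42_91, e0_63_106__111_42_92, e0_63_106__111_42_93, e0_63_106__111_42_94, e0_63_106__111_42_95, e0_63_106__111_42_96, e0_63_106__111_42_97, e0_63_106__111_42_98, e0_63_106__111_42_99, e0_63_106__111_42_100, e0_63_106__111_42_101, e0_63_106__111_42_102, e0_63_106__111_42_103, e0_63_106__111_42_104, e0_63_106__111_42_105, e0_63_106__111_42_106, e0_63_106__111_42_107, e0_63_106__111_42_108, e0_63_106__111_42_109, e0_63_106__111_42_110, e0_63_106__111_42_111, e0_63_106__111_42_112, e0_63_106__111_42_113, e0_63_106__111_42_114, e0_63_106__111_42_115, e0_63_106__111_42_116, e0_63_106__111_42_117, e0_63_106__111_42_118, e0_63_106__111_42_119,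 e0_63_106__111_42_120, e0_63_106__111_42_121, e0_63_106__111_42_122, e0_63_106__111_42_123, e0_63_106__111_42_124, e0_63_106__111_42_125, e0_63_106__111_42_126, e0_63_106__111_42_127, e0_63_106__111_42_128, e0_63_106__111_42_129, e0_63_106__111_42_130, e0_63_106__111_42_131, e0_63_106__111_42_132, e0_63_106__111_42_133, e0_63_106__111_42_134, e0_63_106__111_42_135, e0_63_106__111_42_136, e0_63_106__111_42_137, e0_63_106__111_42_138, e0_63_106__111_42_139, e0_63_106__111_42_140, e0_63_106__111_42_141, e0_63_106__111_42_142, e0_63_106__111_42_143, e0_63_106__111_42_144, e0_63_106__111_42_145, e0_63_106__111_42_146, e0_63_106__111_42_147, e0_63_106__111_42_148, e0_63_106__111_42_149, e0_63_106__111_42_150, e0_63_106__111_42_151, e0_63_106__111_42_152, e0_63_106__111_42_153, e0_63_106__111_42_154], by decide +kernel, by decide +kernel⟩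
def e0_63_106__129_42_0 : Ent 4 := ⟨[a0, a63, a106], [a129, a42, a1], (M a48 (L l305 (F (T t304 (L l28 (T t579 (L l217 (T t551 (K a65 (M a193 (F (T t304 (L l28 (L l76 (T t579 (L l76 (L l217 (T t551 N))))))))) (K a193 (M a65 (F (T t304 (L l152 (T t688 N))))) N))))))))))⟩
def e0_63_106__129_42_1 : Ent 4 := ⟨[a0, a63, a106], [a129, a42, a2], (M a48 (L l66 (F (T t304 (L l28 (T t579 (L l217 (T t551 (K a22 (M a62 (F (T t304 (L l22 (L l306 (T t5926 N)))))) (K a62 (M a22 (F (T t304 (L l28 (T t579 (L l217 (T t551 N))))))) N))))))))))⟩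
def e0_63_106__129_42_2 : Ent 4 := ⟨[a0, a63, a106], [a129, a42, a3], (M a48 (L l309 (F (T t585 (L l217 (L l453 (T t551 (L l28 (T t579 (K a192 (M a66 (F (L l28 (L l236 (T t579 (L l28 (L l217 (L l477 (T t7287 (L l152 (L l236 (T t7288 N)))))))))))) (K a66 (Fr a192 a149 l519 (V t6558)) N)))))))))))⟩
def e0_63_106__129_42_3 : Ent 4 := ⟨[a0, a63, a106], [a129, a42, a4], (M a48 (F (T t304 (L l28 (T t579 (L l217 (T t551 N)))))))⟩
def e0_63_106__129_42_4 : Ent 4 := ⟨[a0, a63, a106], [a129, a42, a5], (M a48 (F (L l47 (T t304 (L l217 (T t551 (L l28 (L l47 (T t579 N)))))))))⟩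
def e0_63_106__129_42_5 : Ent 4 := ⟨[a0, a63, a106], [a129, a42, a6], (M a48 (F (T t304 (L l28 (T t579 (L l217 (T t551 N)))))))⟩
def e0_63_106__129_42_6 : Ent 4 := ⟨[a0, a63, a106], [a129, a42, a7], (M a48 (F (T t304 (L l28 (T t579 (L l217 (T t551 N)))))))⟩
def e0_63_106__129_42_7 : Ent 4 := ⟨[a0, a63, a106], [a129, a42, a8], (M a48 (L l56 (F (T t304 (L l28 (T t579 (L l217 (T t551 (K a25 (M a59 (F (T t304 (L l26 (L l316 (T t6445 N)))))) (K a59 (M a25 (F (T t304 (L l28 (T t579 (L l217 (T t551 N))))))) N))))))))))⟩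
def e0_63_106__129_42_8 : Ent 4 := ⟨[a0, a63, a106], [a129, a42, a9], (M a48 (F (T t304 (L l28 (T t579 (L l217 (T t551 N)))))))⟩
def e0_63_106__129_42_9 : Ent 4 := ⟨[a0, a63, a106], [a129, a42, a10], (M a48 (L l54 (F (L l318 (T t304 (L l217 (T t551 (L l28 (L l318 (T t579 (K a26 (Fr a58 a53 l38 (V t6446)) (K a58 (M a26 (F (L l28 (T t4144 (L l217 (T t551 (L l28 (L l426 (T t6447 (K a32 (Fr a192 a149 l519 (Fr a15 a37 l75 (Fr a47 a31 l61 (V t6528)))) N)))))))))) N))))))))))))⟩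
def e0_63_106__129_42_10 : Ent 4 := ⟨[a0, a63, a106], [a129, a42, a11], (M a48 (F (T t304 (L l28 (T t579 (L l217 (T t551 N)))))))⟩
def e0_63_106__129_42_11 : Ent 4 := ⟨[a0, a63, a106], [a129, a42, a12], (M a48 (F (T t585 (L l217 (L l478 (T t551 (L l28 (T t579 N))))))))⟩
def e0_63_106__129_42_12 : Ent 4 := ⟨[a0, a63, a106], [a129, a42, a13], (M a48 (F (T t304 (L l28 (T t579 (L l217 (T t551 N)))))))⟩
def e0_63_106__129_42_13 : Ent 4 := ⟨[a0, a63, a106], [a129, a42, a14], (M a48 (F (T t304 (L l28 (T t579 (L l217 (T t551 N)))))))⟩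
def e0_63_106__129_42_14 : Ent 4 := ⟨[a0, a63, a106], [a129, a42, a15], (M a48 (F (T t585 (L l217 (L l483 (T t551 (L l28 (T t579 N))))))))⟩
def e0_63_106__129_42_15 : Ent 4 := ⟨[a0, a63, a106], [a129, a42, a20], (M a48 (F (T t304 (L l28 (T t579 (L l217 (T t551 N)))))))⟩
def e0_63_106__129_42_16 : Ent 4 := ⟨[a0, a63, a106], [a129, a42, a21], (M a48 (F (L l47 (T t304 (L l217 (L l347 (T t551 (L l28 (L l47 (T t579 N))))))))))⟩
def e0_63_106__129_42_17 : Ent 4 := ⟨[a0, a63, a106], [a129, a42, a22], (M a48 (L l66 (F (T t304 (L l28 (T t579 (L l217 (T t551 (K a2 (M a62 (F (T t304 (L l22 (L l306 (T t5926 N)))))) (K a62 (M a2 (F (T t304 (L l19 (L l28 (L l305 (T t342 N))))))) N))))))))))⟩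
def e0_63_106__129_42_18 : Ent 4 := ⟨[a0, a63, a106], [a129, a42, a23], (M a48 (F (T t304 (L l28 (T t579 (L l217 (L l351 (T t551 N))))))))⟩
def e0_63_106__129_42_19 : Ent 4 := ⟨[a0, a63, a106], [a129, a42, a24], (M a48 (F (T t304 (L l28 (T t579 (L l217 (T t551 N)))))))⟩
def e0_63_106__129_42_20 : Ent 4 := ⟨[a0, a63, a106], [a129, a42, a25], (M a48 (L l56 (F (T t304 (L l28 (T t579 (L l217 (T t551 (K a8 (M a59 (F (T t304 (L l26 (L l316 (T t6445 N)))))) (K a59 (M a8 (F (T t585 (L l19 (L l28 (T t4700 N)))))) N))))))))))⟩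
def e0_63_106__129_42_21 : Ent 4 := ⟨[a0, a63, a106], [a129, a42, a26], (M a48 (L l54 (F (T t304 (L l28 (T t579 (L l217 (T t551 (K a10 (Fr a58 a53 l38 (V t6446)) (K a58 (M a10 (F (L l28 (L l217 (T t2289 (L l157 (L l217 (T t4033 (L l18 (L l354 (T t6449 (L l18 (L l426 (T t6450 N)))))))))))))) N))))))))))⟩
def e0_63_106__129_42_22 : Ent 4 := ⟨[a0, a63, a106], [a129, a42, a27], (M a48 (F (T t304 (L l28 (T t579 (L l217 (T t551 N)))))))⟩
def e0_63_106__129_42_23 : Ent 4 := ⟨[a0, a63, a106], [a129, a42, a28], (M a48 (F (T t304 (L l28 (L l362 (T t579 (L l217 (T t551 N))))))))⟩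
def e0_63_106__129_42_24 : Ent 4 := ⟨[a0, a63, a106], [a129, a42, a29], (M a48 (F (T t304 (L l28 (T t579 (L l217 (L l371 (T t551 N))))))))⟩
def e0_63_106__129_42_25 : Ent 4 := ⟨[a0, a63, a106], [a129, a42, a30], (M a48 (F (T t304 (L l28 (T t579 (L l217 (T t551 N)))))))⟩
def e0_63_106__129_42_26 : Ent 4 := ⟨[a0, a63, a106], [a129, a42, a31], (M a48 (F (T t304 (L l28 (L l361 (T t579 (L l217 (L l375 (T t551 N)))))))))⟩
def e0_63_106__129_42_27 : Ent 4 := ⟨[a0, a63, a106], [a129, a42, a40], (M a48 (L l22 (F (T t304 (L l24 (L l28 (T t579 (L l217 (T t551 (K a41 (M a43 (F (T t304 (L l66 (L l388 (T t6451 N)))))) (K a43 (M a41 (F (T t304 (L l24 (L l28 (T t579 (L l217 (T t551 N)))))))) N)))))))))))⟩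
def e0_63_106__129_42_28 : Ent 4 := ⟨[a0, a63, a106], [a129, a42, a41], (M a48 (L l22 (F (T t304 (L l28 (T t579 (L l217 (T t551 (K a40 (M a43 (F (T t304 (L l66 (L l388 (T t6451 N)))))) (K a43 (M a40 (F (T t304 (L l29 (L l69 (T t6452 N)))))) N))))))))))⟩
def e0_63_106__129_42_29 : Ent 4 := ⟨[a0, a63, a106], [a129, a42, a43], (M a48 (L l22 (F (T t304 (L l28 (T t579 (L l217 (T t551 (K a40 (M a41 (F (T t304 (L l24 (L l28 (T t579 (L l217 (T t551 N)))))))) (K a41 (M a40 (F (T t304 (L l29 (L l69 (T t6452 N)))))) N))))))))))⟩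
def e0_63_106__129_42_30 : Ent 4 := ⟨[a0, a63, a106], [a129, a42, a44], (M a48 (F (T t304 (L l24 (L l28 (T t579 (L l217 (T t551 N))))))))⟩
def e0_63_106__129_42_31 : Ent 4 := ⟨[a0, a63, a106], [a129, a42, a45], (M a48 (F (T t304 (L l28 (T t579 (L l217 (T t551 N)))))))⟩
def e0_63_106__129_42_32 : Ent 4 := ⟨[a0, a63, a106], [a129, a42, a46], (M a48 (L l26 (F (T t304 (L l28 (T t579 (L l217 (T t551 (K a34 (M a38 (F (T t304 (L l20 (L l28 (T t579 (L l217 (T t551 N)))))))) (K a38 (M a34 (F (T t585 (L l28 (L l72 (L l74 (T t6555 N))))))) N))))))))))⟩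
def e0_63_106__129_42_33 : Ent 4 := ⟨[a0, a63, a106], [a129, a42, a47], (M a12 (L l28 (F (T t2419 (L l217 (T t2305 (L l56 (T t2415 (K a32 (M a37 (F (T t2414 (L l56 (T t2415 (L l217 (T t2305 N))))))) (K a37 (M a32 (F (T t2419 (L l51 (L l56 (T t682 N)))))) N))))))))))⟩
def e0_63_106__129_42_34 : Ent 4 := ⟨[a0, a63, a106], [a129, a42, a60], (M a48 (F (T t585 (L l217 (L l442 (T t551 (L l28 (T t579 N))))))))⟩
def e0_63_106__129_42_35 : Ent 4 := ⟨[a0, a63, a106], [a129, a42, a61], (M a48 (F (L l35 (T t304 (L l217 (L l515 (T t551 (L l28 (L l35 (T t579 N))))))))))⟩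
def e0_63_106__129_42_36 : Ent 4 := ⟨[a0, a63, a106], [a129, a42, a62], (M a48 (L l66 (F (T t585 (L l217 (T t551 (L l28 (T t579 (K a2 (M a22 (F (T t304 (L l28 (T t579 (L l217 (T t551 N))))))) (K a22 (M a2 (F (T t304 (L l19 (L l28 (L l305 (T t342 N))))))) N))))))))))⟩
def e0_63_106__129_42_37 : Ent 4 := ⟨[a0, a63, a106], [a129, a42, a64], (M a48 (F (T t585 (L l28 (T t6454 (L l28 (L l217 (T t6455 (L l28 (T t6456 (L l28 (L l84 (L l309 (T t6457 (L l54 (L l152 (L l309 (T t6458 (K a207 (Fr a192 a149 l519 (Fr a96 a144 l484 (Fr a101 a111 l104 (Fr a32 a16 l40 (V t6459))))) N)))))))))))))))))))⟩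
def e0_63_106__129_42_38 : Ent 4 := ⟨[a0, a63, a106], [a129, a42, a65], (M a48 (L l305 (F (T t304 (L l28 (L l76 (T t579 (L l76 (L l217 (T t551 (K a1 (M a193 (F (T t304 (L l28 (L l76 (T t579 (L l76 (L l217 (T t551 N))))))))) (K a193 (M a1 (F (T t304 (L l66 (L l485 (T t535 N)))))) N))))))))))))⟩
def e0_63_106__129_42_39 : Ent 4 := ⟨[a0, a63, a106], [a129, a42, a66], (M a48 (L l309 (F (T t304 (L l76 (L l217 (T t551 (L l28 (L l76 (T t579 (K a192 (M a3 (F (L l489 (T t348 (L l236 (L l292 (T t6557 N))))))) (K a3 (Fr a192 a149 l519 (V t6558)) N))))))))))))⟩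
def e0_63_106__129_42_40 : Ent 4 := ⟨[a0, a63, a106], [a129, a42, a67], (M a48 (F (T t304 (L l28 (L l76 (T t579 (L l76 (L l217 (T t551 N)))))))))⟩
def e0_63_106__129_42_41 : Ent 4 := ⟨[a0, a63, a106], [a129, a42, a68], (M a48 (F (T t304 (L l28 (L l80 (T t579 (L l80 (L l217 (T t551 N)))))))))⟩
def e0_63_106__129_42_42 : Ent 4 := ⟨[a0, a63, a106], [a129, a42, a69], (M a48 (F (T t304 (L l28 (L l84 (T t579 (L l84 (L l217 (T t551 N)))))))))⟩
def e0_63_106__129_42_43 : Ent 4 := ⟨[a0, a63, a106], [a129, a42, a70], (M a48 (F (T t304 (L l28 (T t579 (L l217 (T t551 N)))))))⟩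
def e0_63_106__129_42_44 : Ent 4 := ⟨[a0, a63, a106], [a129, a42, a71], (M a48 (F (L l309 (T t309 (L l217 (T t551 (L l28 (T t579 N))))))))⟩
def e0_63_106__129_42_45 : Ent 4 := ⟨[a0, a63, a106], [a129, a42, a72], (M a48 (F (T t585 (L l80 (L l217 (T t551 (L l28 (L l80 (T t579 N)))))))))⟩
def e0_63_106__129_42_46 : Ent 4 := ⟨[a0, a63, a106], [a129, a42, a73], (M a48 (F (T t304 (L l28 (T t579 (L l217 (T t551 N)))))))⟩
def e0_63_106__129_42_47 : Ent 4 := ⟨[a0, a63, a106], [a129, a42, a74], (M a48 (F (L l318 (T t304 (L l84 (L l217 (T t551 (L l28 (L l84 (L l318 (T t579 N)))))))))))⟩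
def e0_63_106__129_42_48 : Ent 4 := ⟨[a0, a63, a106], [a129, a42, a75], (M a48 (F (T t304 (L l28 (T t579 (L l217 (T t551 N)))))))⟩
def e0_63_106__129_42_49 : Ent 4 := ⟨[a0, a63, a106], [a129, a42, a76], (M a48 (F (T t304 (L l28 (L l80 (T t579 (L l80 (L l217 (T t551 N)))))))))⟩
def e0_63_106__129_42_50 : Ent 4 := ⟨[a0, a63, a106], [a129, a42, a77], (M a48 (F (L l309 (T t309 (L l217 (T t551 (L l28 (T t579 N))))))))⟩
def e0_63_106__129_42_51 : Ent 4 := ⟨[a0, a63, a106], [a129, a42, a78], (M a48 (F (T t304 (L l28 (T t579 (L l217 (T t551 N)))))))⟩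
def e0_63_106__129_42_52 : Ent 4 := ⟨[a0, a63, a106], [a129, a42, a79], (M a48 (F (L l309 (T t309 (L l84 (L l217 (T t551 (L l28 (L l84 (T t579 N))))))))))⟩
def e0_63_106__129_42_53 : Ent 4 := ⟨[a0, a63, a106], [a129, a42, a84], (M a48 (F (T t304 (L l28 (L l140 (T t579 (L l140 (L l217 (T t551 N)))))))))⟩
def e0_63_106__129_42_54 : Ent 4 := ⟨[a0, a63, a106], [a129, a42, a85], (M a48 (F (L l309 (T t309 (L l217 (L l347 (T t551 (L l54 (L l309 (T t777 (L l152 (L l368 (T t6465 (K a192 (M a3 (F (L l28 (L l489 (T t559 (L l236 (L l292 (T t6557 N)))))))) N))))))))))))))⟩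
def e0_63_106__129_42_55 : Ent 4 := ⟨[a0, a63, a106], [a129, a42, a86], (M a48 (F (T t304 (L l28 (T t579 (L l217 (L l351 (T t551 N))))))))⟩
def e0_63_106__129_42_56 : Ent 4 := ⟨[a0, a63, a106], [a129, a42, a87], (M a48 (F (T t304 (L l28 (L l367 (T t579 (L l217 (T t551 N))))))))⟩
def e0_63_106__129_42_57 : Ent 4 := ⟨[a0, a63, a106], [a129, a42, a88], (M a48 (F (T t304 (L l28 (T t579 (L l217 (L l478 (T t551 N))))))))⟩
def e0_63_106__129_42_58 : Ent 4 := ⟨[a0, a63, a106], [a129, a42, a89], (M a48 (F (T t304 (L l28 (T t579 (L l217 (L l371 (T t551 N))))))))⟩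
def e0_63_106__129_42_59 : Ent 4 := ⟨[a0, a63, a106], [a129, a42, a90], (M a48 (F (T t304 (L l28 (T t579 (L l217 (L l375 (L l483 (T t551 N)))))))))⟩
def e0_63_106__129_42_60 : Ent 4 := ⟨[a0, a63, a106], [a129, a42, a91], (M a48 (F (T t304 (L l28 (T t579 (L l217 (T t551 N)))))))⟩
def e0_63_106__129_42_61 : Ent 4 := ⟨[a0, a63, a106], [a129, a42, a92], (M a48 (F (T t304 (L l28 (T t579 (L l217 (T t551 N)))))))⟩
def e0_63_106__129_42_62 : Ent 4 := ⟨[a0, a63, a106], [a129, a42, a93], (M a48 (F (T t304 (L l28 (L l362 (T t579 (L l217 (T t551 N))))))))⟩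
def e0_63_106__129_42_63 : Ent 4 := ⟨[a0, a63, a106], [a129, a42, a94], (M a48 (F (T t304 (L l28 (T t579 (L l217 (T t551 N)))))))⟩
def e0_63_106__129_42_64 : Ent 4 := ⟨[a0, a63, a106], [a129, a42, a95], (M a48 (F (L l309 (T t309 (L l217 (T t551 (L l28 (L l361 (T t579 N)))))))))⟩
def e0_63_106__129_42_65 : Ent 4 := ⟨[a0, a63, a106], [a129, a42, a104], (M a48 (F (T t585 (L l100 (L l140 (L l217 (T t551 (L l28 (L l140 (T t579 N))))))))))⟩
def e0_63_106__129_42_66 : Ent 4 := ⟨[a0, a63, a106], [a129, a42, a105], (M a48 (F (T t304 (L l28 (T t579 (L l217 (L l515 (T t551 N))))))))⟩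
def e0_63_106__129_42_67 : Ent 4 := ⟨[a0, a63, a106], [a129, a42, a107], (M a48 (F (L l309 (T t309 (L l217 (T t551 (L l28 (T t579 N))))))))⟩
def e0_63_106__129_42_68 : Ent 4 := ⟨[a0, a63, a106], [a129, a42, a108], (M a48 (F (L l309 (T t309 (L l100 (L l217 (T t551 (L l28 (T t579 N)))))))))⟩
def e0_63_106__129_42_69 : Ent 4 := ⟨[a0, a63, a106], [a129, a42, a109], (M a48 (F (L l309 (T t309 (L l217 (T t551 (L l28 (T t579 N))))))))⟩
def e0_63_106__129_42_70 : Ent 4 := ⟨[a0, a63, a106], [a129, a42, a110], (M a48 (F (L l309 (T t309 (L l217 (T t551 (L l28 (T t579 N))))))))⟩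
def e0_63_106__129_42_71 : Ent 4 := ⟨[a0, a63, a106], [a129, a42, a111], (M a240 (F (L l309 (T t4779 (L l217 (T t817 (L l137 (T t4781 N))))))))⟩
def e0_63_106__129_42_72 : Ent 4 := ⟨[a0, a63, a106], [a129, a42, a124], (M a48 (F (T t304 (L l28 (L l140 (T t579 (L l140 (L l217 (T t551 N)))))))))⟩
def e0_63_106__129_42_73 : Ent 4 := ⟨[a0, a63, a106], [a129, a42, a125], (M a48 (F (T t304 (L l28 (T t579 (L l217 (T t551 N)))))))⟩
def e0_63_106__129_42_74 : Ent 4 := ⟨[a0, a63, a106], [a129, a42, a126], (M a48 (F (T t304 (L l28 (T t579 (L l217 (T t551 N)))))))⟩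
def e0_63_106__129_42_75 : Ent 4 := ⟨[a0, a63, a106], [a129, a42, a127], (M a48 (F (L l309 (T t309 (L l217 (T t551 (L l28 (T t6454 (L l28 (T t6479 N))))))))))⟩
def e0_63_106__129_42_76 : Ent 4 := ⟨[a0, a63, a106], [a129, a42, a128], (M a48 (L l152 (F (T t585 (L l28 (T t579 (L l192 (L l217 (L l220 (T t6480 (L l54 (L l160 (L l309 (T t6481 (K a130 (M a131 (F (T t304 (L l28 (T t579 (L l192 (L l217 (L l220 (T t6480 (L l54 (L l158 (L l160 (L l309 (T t6481 N)))))))))))))) (K a131 (M a130 (F (T t304 (L l305 (T t596 N))))) N))))))))))))))))⟩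
def e0_63_106__129_42_77 : Ent 4 := ⟨[a0, a63, a106], [a129, a42, a130], (M a48 (L l152 (F (T t304 (L l28 (T t579 (L l217 (T t551 (K a128 (M a131 (F (T t304 (L l28 (T t579 (L l192 (L l217 (L l220 (T t6480 (L l54 (L l158 (L l160 (L l309 (T t6481 N)))))))))))))) (K a131 (M a128 (F (T t7289 (L l28 (T t579 (L l309 (T t3405 N))))))) N))))))))))⟩
def e0_63_106__129_42_78 : Ent 4 := ⟨[a0, a63, a106], [a129, a42, a131], (M a48 (L l152 (F (T t304 (L l28 (T t579 (L l197 (L l217 (T t551 (K a128 (M a130 (F (T t304 (L l305 (T t596 N))))) (K a130 (M a128 (F (T t7289 (L l28 (T t579 (L l309 (T t3405 N))))))) N)))))))))))⟩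
def e0_63_106__129_42_79 : Ent 4 := ⟨[a0, a63, a106], [a129, a42, a132], (M a48 (F (T t585 (L l202 (L l217 (T t551 (L l28 (T t579 N))))))))⟩
def e0_63_106__129_42_80 : Ent 4 := ⟨[a0, a63, a106], [a129, a42, a133], (M a48 (L l157 (F (T t585 (L l199 (L l217 (T t551 (L l28 (T t579 (K a137 (M a141 (F (T t304 (L l28 (T t579 (L l199 (L l217 (T t551 N)))))))) (K a141 (M a137 (F (T t304 (L l28 (T t579 (L l199 (L l217 (T t551 N)))))))) N)))))))))))⟩
def e0_63_106__129_42_81 : Ent 4 := ⟨[a0, a63, a106], [a129, a42, a134], (M a48 (F (T t304 (L l28 (T t579 (L l217 (T t551 N)))))))⟩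
def e0_63_106__129_42_82 : Ent 4 := ⟨[a0, a63, a106], [a129, a42, a135], (M a48 (F (T t304 (L l28 (T t579 (L l217 (T t551 N)))))))⟩
def e0_63_106__129_42_83 : Ent 4 := ⟨[a0, a63, a106], [a129, a42, a136], (M a48 (F (T t304 (L l28 (T t579 (L l217 (T t551 N)))))))⟩
def e0_63_106__129_42_84 : Ent 4 := ⟨[a0, a63, a106], [a129, a42, a137], (M a48 (L l157 (F (T t304 (L l28 (T t579 (L l217 (T t551 (K a133 (M a141 (F (T t304 (L l28 (T t579 (L l199 (L l217 (T t551 N)))))))) (K a141 (M a133 (F (T t585 (L l217 (T t551 (L l28 (T t579 N))))))) N))))))))))⟩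
def e0_63_106__129_42_85 : Ent 4 := ⟨[a0, a63, a106], [a129, a42, a138], (M a48 (F (L l318 (T t304 (L l217 (T t551 (L l28 (L l318 (T t579 N)))))))))⟩
def e0_63_106__129_42_86 : Ent 4 := ⟨[a0, a63, a106], [a129, a42, a139], (M a48 (F (T t585 (L l217 (T t551 (L l28 (T t579 N)))))))⟩
def e0_63_106__129_42_87 : Ent 4 := ⟨[a0, a63, a106], [a129, a42, a140], (M a48 (F (T t304 (L l28 (T t579 (L l217 (L l222 (T t551 N))))))))⟩
def e0_63_106__129_42_88 : Ent 4 := ⟨[a0, a63, a106], [a129, a42, a141], (M a48 (L l157 (F (T t304 (L l28 (T t579 (L l217 (T t551 (K a133 (M a137 (F (T t304 (L l28 (T t579 (L l199 (L l217 (T t551 N)))))))) (K a137 (M a133 (F (T t585 (L l217 (T t551 (L l28 (T t579 N))))))) N))))))))))⟩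
def e0_63_106__129_42_89 : Ent 4 := ⟨[a0, a63, a106], [a129, a42, a142], (M a48 (F (T t585 (L l217 (T t551 (L l28 (T t579 N)))))))⟩
def e0_63_106__129_42_90 : Ent 4 := ⟨[a0, a63, a106], [a129, a42, a143], (M a48 (F (T t585 (L l28 (L l217 (T t6462 (L l28 (T t579 N))))))))⟩
def e0_63_106__129_42_91 : Ent 4 := ⟨[a0, a63, a106], [a129, a42, a148], (M a48 (F (T t585 (L l163 (L l217 (T t551 (L l28 (T t579 N))))))))⟩
def e0_63_106__129_42_92 : Ent 4 := ⟨[a0, a63, a106], [a129, a42, a149], (M a101 (L l217 (F (L l170 (T t6892 (L l170 (L l347 (T t6893 (L l54 (L l170 (T t6894 (L l54 (L l152 (L l170 (L l220 (T t6895 (K a144 (M a48 (L l170 (L l217 (F (T t6622 (L l28 (T t579 (K a169 (M a189 (L l170 (F (T t6622 (L l28 (T t579 (K a154 (M a159 (L l209 (F (T t6896 (L l340 (L l368 (L l405 (T t7290 (K a184 (M a139 (F (T t6896 (L l340 (L l368 (L l405 (T t7291 N))))))) (K a139 (M a184 (F (T t7292 (T t6896 N)))) N)))))))))) (K a159 (Fr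 a154 a207 l512 (V t6900)) N)))))))) (K a189 (M a169 (L l170 (F (T t6622 (L l351 (T t7293 (K a154 (M a159 (F (T t6896 (L l66 (L l351 (L l431 (T t6997 N))))))) (K a159 (Fr a154 a207 l512 (V t6900)) N)))))))) (K a154 (M a159 (L l217 (F (T t6896 (L l54 (L l340 (L l368 (T t6901 (L l192 (L l206 (L l220 (L l340 (L l368 (T t6898 (K a169 (M a189 (L l209 (F (T t6896 (L l340 (L l368 (L l405 (T t7290 (K a184 (M a139 (F (T t6896 (L l340 (L l368 (L l405 (T t7291 N))))))) (K a139 (M a184 (F (T t7292 (T t6896 N)))) N)))))))))) (K a189 (M a169 (F (T t6896 (L l66 (L l351 (L l431 (T t6997 N))))))) N)))))))))))))))) (K a159 (Fr a154 a207 l512 (V t6900)) N))))))))))) (K a96 (M a85 (L l217 (F (L l220 (T t814 (L l484 (T t2349 (L l54 (L l484 (T t6904 (L l152 (L l220 (T t6905 (K a169 (M a189 (F (T t6907 (L l116 (L l309 (L l389 (L l477 (L l515 (T t7294 N))))))))) (K a189 (M a169 (F (L l220 (T t814 (L l157 (L l167 (L l431 (T t7295 N))))))))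 N))))))))))))))) (K a154 (M a240 (L l170 (L l217 (F (L l368 (T t7296 (L l199 (T t4781 (L l28 (L l199 (T t6910 (K a144 (M a159 (L l217 (F (T t6896 (L l192 (L l199 (T t4781 (K a169 (M a189 (L l209 (F (T t6896 (L l193 (T t7297 (K a184 (M a139 (F (T t6896 (L l193 (T t7297 N))))) (K a139 (M a184 (F (T t6896 (L l193 (T t7297 N))))) N)))))))) (K a189 (M a169 (F (T t6896 (L l66 (L l351 (L l431 (T t6997 N))))))) N))))))))) (K a169 (M a189 (L l170 (L l209 (F (L l193 (T t7297 (L l309 (L l368 (T t6920 (K a144 (M a159 (L l209 (F (T t6896 (L l193 (T t7297 (K a184 (M a139 (F (T t6896 (L l193 (T t7297 N))))) (K a139 (M a184 (F (T t6896 (L l193 (T t7297 N))))) N)))))))) (K a184 (M a139 (L l170 (F (L l193 (T t7297 (L l186 (L l227 (L l309 (T t7298 (K a144 (M a159 (F (T t6896 (L l193 (T t7297 N))))) (K a159 (M a144 (F (L l193 (T t7297 (L l152 (L l220 (L l368 (T t7299 N)))))))) N))))))))))) (K a139 (M a184 (L l170 (F (L l193 (T t7297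 (L l28 (L l375 (T t7300 (K a144 (M a159 (F (T t6896 (L l193 (T t7297 N))))) (K a159 (M a144 (F (L l368 (T t6915 (L l193 (T t7297 N)))))) N)))))))))) (K a159 (M a144 (L l209 (F (L l193 (T t7297 (L l152 (L l220 (L l368 (T t7299 (K a184 (M a139 (F (L l193 (T t7297 (L l152 (L l220 (L l368 (T t7299 N)))))))) (K a139 (M a184 (F (L l368 (T t6915 (L l193 (T t7297 N)))))) N))))))))))) N))))))))))))) (K a189 (M a169 (L l170 (F (L l368 (T t7296 (L l187 (L l199 (L l351 (T t7301 (K a144 (M a159 (F (T t6896 (L l66 (L l351 (L l431 (T t6997 N))))))) (K a159 (M a144 (F (L l368 (T t6915 (L l187 (L l193 (L l199 (L l351 (T t7302 N))))))))) N))))))))))) (K a159 (M a144 (L l217 (F (L l227 (T t6918 (L l199 (L l361 (T t4781 (L l309 (L l368 (T t6919 (L l199 (L l227 (T t6914 (K a169 (M a189 (L l209 (F (L l193 (T t7297 (L l152 (L l220 (L l368 (T t7299 (K a184 (M a139 (F (L l193 (T t7297 (L l152 (L l220 (L l368 (T t7299 N)))))))) (K a139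 (M a184 (F (L l368 (T t6915 (L l193 (T t7297 N)))))) N))))))))))) (K a189 (M a169 (F (L l368 (T t6915 (L l187 (L l193 (L l199 (L l351 (T t7302 N))))))))) N)))))))))))))))) N))))))))))))))) (K a207 (M a48 (L l217 (F (T t6922 (L l28 (L l236 (L l289 (T t579 (L l220 (T t6898 (L l152 (L l170 (L l220 (T t6923 (K a169 (M a189 (F (T t7303 (L l152 (L l170 (L l220 (T t6923 N))))))) (K a189 (M a169 (F (T t6922 (L l66 (L l291 (L l431 (T t7304 N))))))) N)))))))))))))))) (K a159 (M a64 (L l170 (L l217 (F (T t6924 (L l28 (L l220 (T t6925 (L l152 (L l220 (T t6926 (K a144 (M a154 (L l217 (F (T t6927 (L l340 (L l375 (T t6930 (K a169 (M a189 (F (T t6927 (L l340 (L l347 (L l473 (T t7305 N))))))) (K a189 (M a169 (F (T t6927 (L l375 (T t6928 N))))) N))))))))) (K a169 (M a189 (L l170 (F (T t6924 (L l152 (L l174 (L l220 (T t7306 (K a144 (M a154 (F (T t6927 (L l340 (L l347 (L l473 (T t7305 N))))))) (K a154 (M a144 (L l209 (F (T t6924 (L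 l152 (L l174 (L l220 (T t7306 (K a184 (M a139 (F (T t6924 (L l152 (L l174 (L l204 (L l220 (T t7306 N)))))))) (K a139 (M a184 (F (T t6924 (L l154 (T t7307 N))))) N)))))))))) N)))))))))) (K a189 (M a169 (L l170 (F (T t6924 (L l351 (T t7308 (K a144 (M a154 (F (T t6927 (L l375 (T t6928 N))))) (K a154 (M a144 (F (L l152 (L l220 (T t6933 (L l164 (L l167 (L l431 (T t7309 N))))))))) N)))))))) (K a154 (M a144 (L l217 (F (L l152 (L l220 (T t6932 (T t6924 (L l152 (L l220 (T t6933 (T t6934 (K a169 (M a189 (L l209 (F (T t6924 (L l152 (L l174 (L l220 (T t7306 (K a184 (M a139 (F (T t6924 (L l152 (L l174 (L l204 (L l220 (T t7306 N)))))))) (K a139 (M a184 (F (T t6924 (L l154 (T t7307 N))))) N)))))))))) (K a189 (M a169 (F (L l152 (L l220 (T t6933 (L l164 (L l167 (L l431 (T t7309 N))))))))) N))))))))))))) N))))))))))))))) (K a111 (M a85 (L l217 (F (T t3095 (T t2349 (L l54 (T t6904 (L l137 (L l152 (L l220 (T t6905 (K a169 (M a189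 (F (T t2349 (L l309 (L l389 (L l477 (L l515 (T t7294 N)))))))) (K a189 (M a169 (F (T t3095 (L l157 (L l167 (L l431 (T t7295 N))))))) N))))))))))))) (K a169 (M a189 (F (L l170 (T t6892 (L l170 (L l347 (L l473 (T t6893 (L l54 (L l170 (T t6894 (L l54 (L l152 (L l170 (L l220 (T t6895 (K a144 (M a64 (L l170 (F (T t6937 (L l152 (L l174 (L l192 (L l220 (T t7306 (K a154 (M a159 (L l209 (F (T t6896 (L l220 (L l347 (L l368 (L l473 (L l477 (T t7310 (K a184 (M a139 (F (T t6896 (L l220 (L l347 (L l368 (L l436 (L l473 (L l477 (T t7310 N)))))))))) (K a139 (M a184 (F (T t6896 (L l154 (T t7307 N))))) N)))))))))))) (K a159 (M a154 (F (T t6927 (L l340 (L l347 (L l473 (T t7305 N))))))) N))))))))))) (K a96 (M a64 (F (L l174 (L l220 (T t7311 (L l309 (L l347 (L l473 (L l477 (T t7312 (L l152 (L l174 (L l220 (T t7306 N)))))))))))))) (K a154 (M a64 (L l170 (L l209 (F (T t6924 (L l152 (L l174 (L l220 (T t7306 (K a144 (M a159 (L l209 (F (T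 t6896 (L l220 (L l347 (L l368 (L l473 (L l477 (T t7310 (K a184 (M a139 (F (T t6896 (L l220 (L l347 (L l368 (L l436 (L l473 (L l477 (T t7310 N)))))))))) (K a139 (M a184 (F (T t6896 (L l154 (T t7307 N))))) N)))))))))))) (K a184 (M a139 (L l170 (F (T t6924 (L l152 (L l174 (L l204 (L l220 (T t7306 (K a144 (M a159 (F (T t6896 (L l220 (L l347 (L l368 (L l436 (L l473 (L l477 (T t7310 N)))))))))) (K a159 (M a144 (F (T t6924 (L l152 (L l174 (L l204 (L l220 (T t7306 N)))))))) N))))))))))) (K a139 (M a184 (L l170 (F (T t6924 (L l154 (T t7307 (K a144 (M a159 (F (T t6896 (L l154 (T t7307 N))))) (K a159 (M a144 (F (T t6924 (L l154 (T t7307 N))))) N)))))))) (K a159 (M a144 (L l209 (F (T t6924 (L l152 (L l174 (L l220 (T t7306 (K a184 (M a139 (F (T t6924 (L l152 (L l174 (L l204 (L l220 (T t7306 N)))))))) (K a139 (M a184 (F (T t6924 (L l154 (T t7307 N))))) N)))))))))) N))))))))))))) (K a207 (M a64 (F (T t6943 (L l152 (L l174 (L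 l220 (T t7306 N))))))) (K a159 (M a64 (L l170 (F (T t6924 (L l152 (L l174 (L l220 (T t7306 (K a144 (M a154 (F (T t6927 (L l340 (L l347 (L l473 (T t7305 N))))))) (K a154 (M a144 (L l209 (F (T t6924 (L l152 (L l174 (L l220 (T t7306 (K a184 (M a139 (F (T t6924 (L l152 (L l174 (L l204 (L l220 (T t7306 N)))))))) (K a139 (M a184 (F (T t6924 (L l154 (T t7307 N))))) N)))))))))) N)))))))))) (K a111 (M a64 (F (L l137 (T t6941 (L l152 (L l174 (L l220 (T t7306 (L l309 (L l347 (L l473 (L l477 (T t7312 N))))))))))))) N)))))))))))))))))))))) (K a189 (M a169 (F (L l170 (T t7313 (L l66 (L l351 (L l431 (T t6997 (L l170 (T t6892 N)))))))))) N))))))))))))))))))))))))⟩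
def e0_63_106__129_42_93 : Ent 4 := ⟨[a0, a63, a106], [a129, a42, a150], (M a48 (F (T t304 (L l28 (T t579 (L l163 (L l217 (T t551 N))))))))⟩
def e0_63_106__129_42_94 : Ent 4 := ⟨[a0, a63, a106], [a129, a42, a151], (M a48 (F (T t304 (L l28 (T t579 (L l163 (L l217 (T t551 N))))))))⟩
def e0_63_106__129_42_95 : Ent 4 := ⟨[a0, a63, a106], [a129, a42, a152], (M a48 (F (T t304 (L l28 (T t579 (L l217 (L l222 (T t551 N))))))))⟩
def e0_63_106__129_42_96 : Ent 4 := ⟨[a0, a63, a106], [a129, a42, a153], (M a48 (F (T t304 (L l28 (T t579 (L l167 (L l217 (T t551 N))))))))⟩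
def e0_63_106__129_42_97 : Ent 4 := ⟨[a0, a63, a106], [a129, a42, a154], (M a240 (F (L l309 (T t4779 (L l170 (L l217 (L l368 (L l512 (T t817 (T t4781 N))))))))))⟩
def e0_63_106__129_42_98 : Ent 4 := ⟨[a0, a63, a106], [a129, a42, a155], (M a48 (F (T t585 (L l217 (T t551 (L l28 (L l367 (T t579 N))))))))⟩
def e0_63_106__129_42_99 : Ent 4 := ⟨[a0, a63, a106], [a129, a42, a156], (M a48 (F (T t304 (L l28 (T t579 (L l217 (T t551 N)))))))⟩
def e0_63_106__129_42_100 : Ent 4 := ⟨[a0, a63, a106], [a129, a42, a157], (M a48 (F (T t304 (L l28 (T t579 (L l167 (L l217 (T t551 N))))))))⟩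
def e0_63_106__129_42_101 : Ent 4 := ⟨[a0, a63, a106], [a129, a42, a158], (M a48 (F (T t585 (L l217 (T t551 (L l28 (L l362 (T t579 N))))))))⟩
def e0_63_106__129_42_102 : Ent 4 := ⟨[a0, a63, a106], [a129, a42, a159], (M a240 (F (L l309 (T t4779 (L l170 (L l217 (T t817 (L l361 (T t4781 N)))))))))⟩
def e0_63_106__129_42_103 : Ent 4 := ⟨[a0, a63, a106], [a129, a42, a168], (M a48 (F (T t304 (L l28 (L l400 (T t579 (L l217 (T t551 N))))))))⟩
def e0_63_106__129_42_104 : Ent 4 := ⟨[a0, a63, a106], [a129, a42, a169], (M a240 (L l217 (F (L l309 (T t4779 (T t4781 (L l152 (L l157 (L l309 (T t6859 (K a181 (M a189 (F (L l181 (T t7314 (L l199 (T t817 (L l199 (L l405 (L l423 (T t7315 N)))))))))) (K a74 (Fr a149 a192 l519 (Fr a181 a122 l447 (Fr a165 a133 l199 (Fr a15 a90 l483 (V t6515))))) (K a122 (M a189 (F (T t4780 (L l56 (L l112 (T t7316 (L l112 (L l405 (T t7315 N))))))))) (K a149 (M a189 (F (L l193 (T t7297 (L l199 (T t4781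 (L l56 (T t7316 N)))))))) (K a189 (Fr a149 a192 l519 (V t7317)) N)))))))))))))))⟩
def e0_63_106__129_42_105 : Ent 4 := ⟨[a0, a63, a106], [a129, a42, a170], (M a48 (F (T t304 (L l217 (L l220 (T t551 (L l28 (L l206 (L l220 (L l404 (T t552 (L l28 (L l206 (L l404 (T t553 N)))))))))))))))⟩
def e0_63_106__129_42_106 : Ent 4 := ⟨[a0, a63, a106], [a129, a42, a171], (M a48 (F (T t304 (L l28 (T t579 (L l217 (T t551 N)))))))⟩
def e0_63_106__129_42_107 : Ent 4 := ⟨[a0, a63, a106], [a129, a42, a172], (M a48 (F (T t304 (L l28 (T t579 (L l217 (T t551 N)))))))⟩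
def e0_63_106__129_42_108 : Ent 4 := ⟨[a0, a63, a106], [a129, a42, a173], (M a48 (F (T t304 (L l28 (T t579 (L l217 (T t551 N)))))))⟩
def e0_63_106__129_42_109 : Ent 4 := ⟨[a0, a63, a106], [a129, a42, a174], (M a48 (F (T t304 (L l28 (T t579 (L l217 (T t551 N)))))))⟩
def e0_63_106__129_42_110 : Ent 4 := ⟨[a0, a63, a106], [a129, a42, a175], (M a48 (F (L l309 (T t309 (L l217 (T t551 (L l28 (T t579 N))))))))⟩
def e0_63_106__129_42_111 : Ent 4 := ⟨[a0, a63, a106], [a129, a42, a188], (M a48 (F (T t304 (L l28 (T t579 (L l186 (L l217 (T t551 N))))))))⟩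
def e0_63_106__129_42_112 : Ent 4 := ⟨[a0, a63, a106], [a129, a42, a189], (M a48 (L l217 (F (T t585 (L l28 (T t579 (L l54 (L l152 (L l309 (T t6458 (K a53 (M a169 (F (T t7318 (L l491 (T t551 (L l66 (L l431 (T t7319 N)))))))) (K a202 (Fr a149 a192 l519 (Fr a53 a58 l38 (Fr a101 a197 l491 (Fr a207 a154 l512 (V t7339))))) (K a58 (M a169 (L l54 (F (T t7318 (T t551 (L l66 (L l431 (T t7319 (K a10 (M a26 (F (L l28 (T t4144 (L l6 (L l66 (L l431 (T t7319 N)))))))) (K a26 (M a10 (F (L l16 (T t7318 (L l18 (T t7321 N)))))) N)))))))))) (K a149 (M a169 (F (L l491 (T t7322 (L l66 (L l351 (L l431 (T t6997 (L l28 (L l491 (T t579 N))))))))))) (K a169 (Fr a149 a192 l519 (V t7013)) N)))))))))))))))⟩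
def e0_63_106__129_42_113 : Ent 4 := ⟨[a0, a63, a106], [a129, a42, a190], (M a48 (F (T t304 (L l28 (T t579 (L l217 (T t551 N)))))))⟩
def e0_63_106__129_42_114 : Ent 4 := ⟨[a0, a63, a106], [a129, a42, a191], (M a48 (F (T t304 (L l190 (L l217 (L l220 (T t551 (L l28 (T t6498 (L l28 (T t6499 N)))))))))))⟩
def e0_63_106__129_42_115 : Ent 4 := ⟨[a0, a63, a106], [a129, a42, a192], (M a240 (L l309 (F (L l339 (T t4781 (L l236 (L l339 (T t6500 (L l296 (L l339 (T t6501 (L l28 (L l152 (L l339 (T t6502 (L l339 (T t6503 (K a133 (M a3 (L l157 (L l339 (F (L l272 (T t6889 (L l292 (T t7323 (K a137 (M a141 (L l339 (F (L l272 (T t6889 (L l292 (L l321 (T t7323 (K a74 (M a15 (L l321 (F (T t7324 (L l305 (L l311 (L l329 (L l334 (L l336 (T t1880 (K a200 (Fr a11 a7 l7 (V t7325)) (K a11 (M a200 (F (T t7325 (L l66 (L l272 (T t7326 N)))))) N)))))))))))) (K a15 (M a74 (F (T t6522 (L l66 (L l272 (L l481 (T t7326 N))))))) N)))))))))) (K a141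 (M a137 (L l339 (F (L l272 (T t6889 (L l211 (L l292 (L l315 (T t7327 (K a74 (M a15 (F (T t7324 (L l193 (L l272 (T t7328 N)))))) (K a15 (M a74 (L l327 (F (T t6522 (L l66 (L l160 (L l323 (T t7329 (K a204 (M a78 (L l232 (F (T t6522 (L l193 (L l272 (L l302 (L l481 (T t7328 (K a196 (Fr a200 a11 l321 (V t6522)) (K a200 (M a196 (F (T t6522 (L l193 (L l272 (L l302 (L l305 (L l481 (T t7330 N))))))))) N))))))))))) (K a78 (Fr a204 a70 l333 (V t6522)) N)))))))))) N))))))))))) (K a74 (M a15 (L l157 (F (T t7324 (L l66 (L l272 (T t7326 (K a137 (M a141 (L l321 (F (T t7324 (L l305 (L l311 (L l329 (L l334 (L l336 (T t1880 (K a200 (Fr a11 a7 l7 (V t7325)) (K a11 (M a200 (F (T t7325 (L l66 (L l272 (T t7326 N)))))) N)))))))))))) (K a141 (M a137 (F (T t7324 (L l193 (L l272 (T t7328 N)))))) N))))))))) (K a15 (M a74 (L l157 (F (T t6522 (L l66 (L l272 (L l481 (T t7326 (K a137 (M a141 (F (T t6522 (L l66 (L l272 (L l481 (T t7326 N)))))))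 (K a141 (M a137 (L l327 (F (T t6522 (L l66 (L l160 (L l323 (T t7329 (K a204 (M a78 (L l232 (F (T t6522 (L l193 (L l272 (L l302 (L l481 (T t7328 (K a196 (Fr a200 a11 l321 (V t6522)) (K a200 (M a196 (F (T t6522 (L l193 (L l272 (L l302 (L l305 (L l481 (T t7330 N))))))))) N))))))))))) (K a78 (Fr a204 a70 l333 (V t6522)) N)))))))))) N)))))))))) N)))))))))))) (K a85 (M a3 (F (L l66 (L l272 (T t7326 (L l292 (L l339 (L l455 (T t7331 N))))))))) (K a181 (M a3 (F (L l272 (T t6889 (L l66 (L l292 (T t809 (L l292 (T t7332 N))))))))) (K a74 (M a3 (L l339 (F (L l272 (T t6889 (L l66 (L l84 (L l292 (T t809 (L l292 (T t7332 (K a133 (M a15 (L l157 (F (T t7324 (L l66 (L l272 (T t7326 (K a137 (M a141 (L l321 (F (T t7324 (L l305 (L l311 (L l329 (L l334 (L l336 (T t1880 (K a200 (Fr a11 a7 l7 (V t7325)) (K a11 (M a200 (F (T t7325 (L l66 (L l272 (T t7326 N)))))) N)))))))))))) (K a141 (M a137 (F (T t7324 (L l193 (L l272 (T t7328 N))))))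 N))))))))) (K a15 (M a133 (F (L l217 (L l471 (T t7333 (L l193 (L l272 (L l305 (L l481 (T t7330 (L l66 (L l84 (L l292 (T t809 N)))))))))))))) N))))))))))))) (K a90 (M a3 (F (L l193 (L l272 (T t7328 (L l66 (L l292 (T t809 (L l92 (L l193 (L l292 (L l465 (T t7334 N))))))))))))) (K a122 (M a3 (F (L l272 (T t6889 (L l66 (L l292 (T t809 (L l292 (T t7332 N))))))))) (K a15 (M a3 (L l339 (F (L l66 (T t7335 (L l292 (T t7323 (K a133 (M a74 (L l157 (F (T t6522 (L l66 (L l272 (L l481 (T t7326 (K a137 (M a141 (F (T t6522 (L l66 (L l272 (L l481 (T t7326 N))))))) (K a141 (M a137 (L l327 (F (T t6522 (L l66 (L l160 (L l323 (T t7329 (K a204 (M a78 (L l232 (F (T t6522 (L l193 (L l272 (L l302 (L l481 (T t7328 (K a196 (Fr a200 a11 l321 (V t6522)) (K a200 (M a196 (F (T t6522 (L l193 (L l272 (L l302 (L l305 (L l481 (T t7330 N))))))))) N))))))))))) (K a78 (Fr a204 a70 l333 (V t6522)) N)))))))))) N)))))))))) (K a74 (M a133 (F (L l217 (L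 l471 (T t7333 (L l193 (L l272 (L l305 (L l481 (T t7330 (L l66 (L l84 (L l292 (T t809 N)))))))))))))) N))))))))) (K a66 (M a3 (F (L l118 (L l272 (T t6889 (L l82 (L l292 (L l339 (T t7331 N))))))))) (K a3 (M a66 (F (L l339 (T t4781 (L l43 (L l217 (L l477 (L l489 (T t7336 (L l217 (L l477 (T t7337 N)))))))))))) N))))))))))))))))))))))))))⟩
def e0_63_106__129_42_116 : Ent 4 := ⟨[a0, a63, a106], [a129, a42, a193], (M a48 (L l305 (F (T t585 (L l217 (L l515 (T t551 (L l28 (T t579 (K a1 (M a65 (F (T t304 (L l152 (T t688 N))))) (K a65 (M a1 (F (T t304 (L l66 (L l485 (T t535 N)))))) N)))))))))))⟩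
def e0_63_106__129_42_117 : Ent 4 := ⟨[a0, a63, a106], [a129, a42, a194], (M a48 (F (L l234 (T t304 (L l217 (T t551 (L l28 (L l234 (T t579 N)))))))))⟩
def e0_63_106__129_42_118 : Ent 4 := ⟨[a0, a63, a106], [a129, a42, a195], (M a48 (F (T t585 (L l217 (L l273 (T t551 (L l28 (T t579 N))))))))⟩
def e0_63_106__129_42_119 : Ent 4 := ⟨[a0, a63, a106], [a129, a42, a196], (M a48 (F (T t585 (L l217 (L l495 (T t551 (L l28 (T t579 N))))))))⟩
def e0_63_106__129_42_120 : Ent 4 := ⟨[a0, a63, a106], [a129, a42, a197], (M a240 (F (L l28 (T t6587 (L l152 (L l217 (L l491 (T t6588 (T t4781 N)))))))))⟩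
def e0_63_106__129_42_121 : Ent 4 := ⟨[a0, a63, a106], [a129, a42, a198], (M a48 (F (L l234 (T t304 (L l217 (T t551 (L l28 (L l234 (T t579 N)))))))))⟩
def e0_63_106__129_42_122 : Ent 4 := ⟨[a0, a63, a106], [a129, a42, a199], (M a48 (F (L l309 (T t309 (L l217 (T t551 (L l28 (T t579 N))))))))⟩
def e0_63_106__129_42_123 : Ent 4 := ⟨[a0, a63, a106], [a129, a42, a200], (M a48 (F (L l230 (T t304 (L l217 (T t551 (L l28 (L l230 (T t579 N)))))))))⟩
def e0_63_106__129_42_124 : Ent 4 := ⟨[a0, a63, a106], [a129, a42, a201], (M a48 (F (L l230 (T t304 (L l217 (T t551 (L l28 (L l230 (T t579 N)))))))))⟩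
def e0_63_106__129_42_125 : Ent 4 := ⟨[a0, a63, a106], [a129, a42, a202], (M a240 (F (L l28 (L l318 (T t6587 (L l152 (L l217 (T t6588 (L l318 (T t4781 N))))))))))⟩
def e0_63_106__129_42_126 : Ent 4 := ⟨[a0, a63, a106], [a129, a42, a203], (M a48 (F (L l230 (T t585 (L l217 (T t551 (L l28 (L l230 (T t579 N)))))))))⟩
def e0_63_106__129_42_127 : Ent 4 := ⟨[a0, a63, a106], [a129, a42, a204], (M a48 (F (T t585 (L l217 (L l298 (T t551 (L l28 (T t579 N))))))))⟩
def e0_63_106__129_42_128 : Ent 4 := ⟨[a0, a63, a106], [a129, a42, a205], (M a48 (F (L l309 (T t309 (L l217 (T t551 (L l28 (T t579 N))))))))⟩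
def e0_63_106__129_42_129 : Ent 4 := ⟨[a0, a63, a106], [a129, a42, a206], (M a48 (F (L l234 (T t585 (L l217 (T t551 (L l28 (L l234 (T t579 N)))))))))⟩
def e0_63_106__129_42_130 : Ent 4 := ⟨[a0, a63, a106], [a129, a42, a207], (M a240 (F (L l28 (T t6587 (L l152 (L l217 (L l512 (T t6588 (T t4781 N)))))))))⟩
def e0_63_106__129_42_131 : Ent 4 := ⟨[a0, a63, a106], [a129, a42, a212], (M a48 (F (T t585 (L l217 (L l351 (T t551 (L l28 (T t579 N))))))))⟩
def e0_63_106__129_42_132 : Ent 4 := ⟨[a0, a63, a106], [a129, a42, a213], (M a48 (F (T t585 (L l217 (L l347 (T t551 (L l28 (L l246 (T t579 N)))))))))⟩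
def e0_63_106__129_42_133 : Ent 4 := ⟨[a0, a63, a106], [a129, a42, a214], (M a48 (F (T t304 (L l28 (T t579 (L l217 (T t551 N)))))))⟩
def e0_63_106__129_42_134 : Ent 4 := ⟨[a0, a63, a106], [a129, a42, a215], (M a48 (F (T t304 (L l28 (L l245 (T t579 (L l217 (T t551 N))))))))⟩
def e0_63_106__129_42_135 : Ent 4 := ⟨[a0, a63, a106], [a129, a42, a216], (M a48 (F (T t304 (L l28 (T t579 (L l217 (L l298 (T t551 N))))))))⟩
def e0_63_106__129_42_136 : Ent 4 := ⟨[a0, a63, a106], [a129, a42, a217], (M a48 (F (T t304 (L l28 (T t579 (L l217 (T t551 N)))))))⟩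
def e0_63_106__129_42_137 : Ent 4 := ⟨[a0, a63, a106], [a129, a42, a218], (M a48 (F (L l282 (T t585 (L l28 (L l217 (T t2289 (L l28 (L l246 (L l282 (T t579 N)))))))))))⟩
def e0_63_106__129_42_138 : Ent 4 := ⟨[a0, a63, a106], [a129, a42, a219], (M a48 (F (T t585 (L l217 (T t551 (L l28 (L l245 (T t579 N))))))))⟩
def e0_63_106__129_42_139 : Ent 4 := ⟨[a0, a63, a106], [a129, a42, a220], (M a48 (F (T t304 (L l28 (L l241 (T t579 (L l217 (T t551 N))))))))⟩
def e0_63_106__129_42_140 : Ent 4 := ⟨[a0, a63, a106], [a129, a42, a221], (M a48 (F (T t304 (L l28 (L l241 (T t579 (L l217 (T t551 N))))))))⟩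
def e0_63_106__129_42_141 : Ent 4 := ⟨[a0, a63, a106], [a129, a42, a222], (M a48 (F (T t585 (L l217 (T t551 (L l28 (L l241 (T t579 N))))))))⟩
def e0_63_106__129_42_142 : Ent 4 := ⟨[a0, a63, a106], [a129, a42, a223], (M a240 (F (L l28 (T t7338 (L l361 (T t4781 (L l217 (L l368 (T t817 N)))))))))⟩
def e0_63_106__129_42_143 : Ent 4 := ⟨[a0, a63, a106], [a129, a42, a232], (M a48 (F (T t585 (L l217 (T t551 (L l28 (T t579 N)))))))⟩
def e0_63_106__129_42_144 : Ent 4 := ⟨[a0, a63, a106], [a129, a42, a233], (M a48 (F (T t304 (L l28 (T t579 (L l217 (T t551 N)))))))⟩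
def e0_63_106__129_42_145 : Ent 4 := ⟨[a0, a63, a106], [a129, a42, a234], (M a48 (F (L l282 (T t304 (L l217 (T t551 (L l28 (L l282 (T t579 N)))))))))⟩
def e0_63_106__129_42_146 : Ent 4 := ⟨[a0, a63, a106], [a129, a42, a235], (M a48 (F (T t304 (L l28 (T t579 (L l217 (T t551 N)))))))⟩
def e0_63_106__129_42_147 : Ent 4 := ⟨[a0, a63, a106], [a129, a42, a236], (M a48 (F (T t304 (L l28 (L l400 (T t579 (L l217 (T t551 N))))))))⟩
def e0_63_106__129_42_148 : Ent 4 := ⟨[a0, a63, a106], [a129, a42, a237], (M a48 (F (L l309 (T t309 (L l217 (T t551 (L l28 (T t579 N))))))))⟩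
def e0_63_106__129_42_149 : Ent 4 := ⟨[a0, a63, a106], [a129, a42, a238], (M a48 (F (T t304 (L l28 (T t579 (L l217 (T t551 N)))))))⟩
def e0_63_106__129_42_150 : Ent 4 := ⟨[a0, a63, a106], [a129, a42, a239], (M a48 (F (L l309 (T t309 (L l217 (T t551 (L l28 (L l289 (L l404 (T t579 N))))))))))⟩
def e0_63_106__129_42_151 : Ent 4 := ⟨[a0, a63, a106], [a129, a42, a252], (M a48 (F (T t585 (L l217 (L l262 (T t551 (L l28 (T t579 N))))))))⟩
def e0_63_106__129_42_152 : Ent 4 := ⟨[a0, a63, a106], [a129, a42, a253], (M a48 (F (T t304 (L l28 (T t579 (L l217 (T t551 N)))))))⟩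
def e0_63_106__129_42_153 : Ent 4 := ⟨[a0, a63, a106], [a129, a42, a254], (M a48 (F (T t304 (L l28 (T t579 (L l217 (T t551 N)))))))⟩
def e0_63_106__129_42_154 : Ent 4 := ⟨[a0, a63, a106], [a129, a42, a255], (M a48 (F (T t585 (L l217 (L l266 (T t551 (L l28 (L l469 (T t6526 (L l28 (L l152 (L l289 (T t6527 N)))))))))))))⟩
def b0_63_106__129_42 : Blk 4 := ⟨[0, 63, 106], [129, 42], [1, 2, 3, 4, 5, 6, 7, 8, 9, 10, 11, 12, 13, 14, 15, 20, 21, 22, 23, 24, 25, 26, 27, 28, 29, 30, 31, 40, 41, 43, 44, 45, 46, 47, 60, 61, 62, 64, 65, 66, 67, 68, 69, 70, 71, 72, 73, 74, 75, 76, 77, 78, 79, 84, 85, 86, 87, 88, 89, 90, 91, 92, 93, 94, 95, 104, 105, 107, 108, 109, 110, 111, 124, 125, 126, 127, 128, 130, 131, 132, 133, 134, 135, 136, 137, 138, 139, 140, 141, 142, 143, 148, 149, 150, 151, 152, 153, 154, 155, 156, 157, 158, 159, 168, 169, 170, 171, 172, 173, 174, 175, 188, 189, 190, 191, 192, 193, 194, 195, 196, 197, 198, 199, 200,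 201, 202, 203, 204, 205, 206, 207, 212, 213, 214, 215, 216, 217, 218, 219, 220, 221, 222, 223, 232, 233, 234, 235, 236, 237, 238, 239, 252, 253, 254, 255], [e0_63_106__129_42_0, e0_63_106__129_42_1, e0_63_106__129_42_2, e0_63_106__129_42_3, e0_63_106__129_42_4, e0_63_106__129_42_5, e0_63_106__129_42_6, e0_63_106__129_42_7, e0_63_106__129_42_8, e0_63_106__129_42_9, e0_63_106__129_42_10, e0_63_106__129_42_11, e0_63_106__129_42_12, e0_63_106__129_42_13, e0_63_106__129_42_14, e0_63_106__129_42_15, e0_63_106__129_42_16, e0_63_106__129_42_17, e0_63_106__129_42_18, e0_63_106__129_42_19, e0_63_106__129_42_20, e0_63_106__129_42_21, e0_63_106__129_42_22, e0_63_106__129_42_23, e0_63_106__129_42_24, e0_63_106__129_42_25, e0_63_106__129_42_26, e0_63_106__129_42_27, e0_63_106__129_42_28, e0_63_106__129_42_29, e0_63_106__129_42_30, e0_63_106__129_42_31, e0_63_106__129_42_32, e0_63_106__129_42_33, e0_63_106__129_42_34, e0_63_106__129_42_35,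 e0_63_106__129_42_36, e0_63_106__129_42_37, e0_63_106__129_42_38, e0_63_106__129_42_39, e0_63_106__129_42_40, e0_63_106__129_42_41, e0_63_106__129_42_42, e0_63_106__129_42_43, e0_63_106__129_42_44, e0_63_106__129_42_45, e0_63_106__129_42_46, e0_63_106__129_42_47, e0_63_106__129_42_48, e0_63_106__129_42_49, e0_63_106__129_42_50, e0_63_106__129_42_51, e0_63_106__129_42_52, e0_63_106__129_42_53, e0_63_106__129_42_54, e0_63_106__129_42_55, e0_63_106__129_42_56, e0_63_106__129_42_57, e0_63_106__129_42_58, e0_63_106__129_42_59, e0_63_106__129_42_60, e0_63_106__129_42_61, e0_63_106__129_42_62, e0_63_106__129_42_63, e0_63_106__129_42_64, e0_63_106__129_42_65, e0_63_106__129_42_66, e0_63_106__129_42_67, e0_63_106__129_42_68, e0_63_106__129_42_69, e0_63_106__129_42_70, e0_63_106__129_42_71, e0_63_106__129_42_72, e0_63_106__129_42_73, e0_63_106__129_42_74, e0_63_106__129_42_75, e0_63_106__129_42_76, e0_63_106__129_42_77,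 e0_63_106__129_42_78, e0_63_106__129_42_79, e0_63_106__129_42_80, e0_63_106__129_42_81, e0_63_106__129_42_82, e0_63_106__129_42_83, e0_63_106__129_42_84, e0_63_106__129_42_85, e0_63_106__129_42_86, e0_63_106__129_42_87, e0_63_106__129_42_88, e0_63_106__129_42_89, e0_63_106__129_42_90, e0_63_106__129_42_91, e0_63_106__129_42_92, e0_63_106__129_42_93, e0_63_106__129_42_94, e0_63_106__129_42_95, e0_63_106__129_42_96, e0_63_106__129_42_97, e0_63_106__129_42_98, e0_63_106__129_42_99, e0_63_106__129_42_100, e0_63_106__129_42_101, e0_63_106__129_42_102, e0_63_106__129_42_103, e0_63_106__129_42_104, e0_63_106__129_42_105, e0_63_106__129_42_106, e0_63_106__129_42_107, e0_63_106__129_42_108, e0_63_106__129_42_109, e0_63_106__129_42_110, e0_63_106__129_42_111, e0_63_106__129_42_112, e0_63_106__129_42_113, e0_63_106__129_42_114, e0_63_106__129_42_115, e0_63_106__129_42_116, e0_63_106__129_42_117, e0_63_106__129_42_118, e0_63_106__129_42_119,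 e0_63_106__129_42_120, e0_63_106__129_42_121, e0_63_106__129_42_122, e0_63_106__129_42_123, e0_63_106__129_42_124, e0_63_106__129_42_125, e0_63_106__129_42_126, e0_63_106__129_42_127, e0_63_106__129_42_128, e0_63_106__129_42_129, e0_63_106__129_42_130, e0_63_106__129_42_131, e0_63_106__129_42_132, e0_63_106__129_42_133, e0_63_106__129_42_134, e0_63_106__129_42_135, e0_63_106__129_42_136, e0_63_106__129_42_137, e0_63_106__129_42_138, e0_63_106__129_42_139, e0_63_106__129_42_140, e0_63_106__129_42_141, e0_63_106__129_42_142, e0_63_106__129_42_143, e0_63_106__129_42_144, e0_63_106__129_42_145, e0_63_106__129_42_146, e0_63_106__129_42_147, e0_63_106__129_42_148, e0_63_106__129_42_149, e0_63_106__129_42_150, e0_63_106__129_42_151, e0_63_106__129_42_152, e0_63_106__129_42_153, e0_63_106__129_42_154], by decide +kernel, by decide +kernel⟩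
def e0_63_106__130_42_0 : Ent 4 := ⟨[a0, a63, a106], [a130, a42, a1], (M a48 (F (T t309 (T t551 (L l28 (T t579 N))))))⟩
def e0_63_106__130_42_1 : Ent 4 := ⟨[a0, a63, a106], [a130, a42, a2], (M a240 (L l66 (L l306 (F (T t4779 (T t817 (T t4781 (K a66 (M a194 (L l66 (F (T t587 (L l76 (L l82 (T t4781 (K a22 (Fr a62 a150 l516 (V t7340)) (K a62 (M a22 (F (L l82 (T t6965 (L l76 (T t4780 (L l76 (L l82 (T t4781 N))))))))) N))))))))) (K a194 (M a66 (L l66 (F (L l152 (T t6460 (L l336 (T t4781 (K a22 (M a62 (F (T t7341 (L l152 (T t6460 N))))) (K a62 (M a22 (F (T t4780 (L l474 (T t7336 N))))) N))))))))) (K a22 (M a62 (L l306 (F (T t6696 (T t4781 (K a66 (Fr a194 a150 l516 (V t7340)) (K a194 (M a66 (F (T t7341 (L l152 (T t6460 N))))) N))))))) (K a62 (M a22 (L l306 (F (T t6965 (T t817 (T t4781 (K a66 (M a194 (F (L l82 (T t6965 (L l76 (T t4780 (L l76 (L l82 (T t4781 N))))))))) (K a194 (M a66 (F (T t4780 (L l474 (T t7336 N)))))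 N)))))))) N)))))))))))⟩
def e0_63_106__130_42_2 : Ent 4 := ⟨[a0, a63, a106], [a130, a42, a3], (M a48 (F (T t585 (L l453 (T t551 (L l28 (T t579 N)))))))⟩
def e0_63_106__130_42_3 : Ent 4 := ⟨[a0, a63, a106], [a130, a42, a4], (M a48 (F (T t309 (T t551 (L l28 (T t579 N))))))⟩
def e0_63_106__130_42_4 : Ent 4 := ⟨[a0, a63, a106], [a130, a42, a5], (M a48 (F (T t578 (L l28 (L l47 (T t579 (T t551 N)))))))⟩
def e0_63_106__130_42_5 : Ent 4 := ⟨[a0, a63, a106], [a130, a42, a6], (M a48 (F (T t309 (T t551 (L l28 (T t579 N))))))⟩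
def e0_63_106__130_42_6 : Ent 4 := ⟨[a0, a63, a106], [a130, a42, a7], (M a48 (F (T t309 (T t551 (L l28 (T t579 N))))))⟩
def e0_63_106__130_42_7 : Ent 4 := ⟨[a0, a63, a106], [a130, a42, a8], (M a48 (L l56 (F (T t309 (T t551 (L l28 (T t579 (K a25 (M a59 (F (T t307 (L l26 (L l316 (T t6445 N)))))) (K a59 (M a25 (F (T t578 (L l28 (T t579 (T t551 N)))))) N)))))))))⟩
def e0_63_106__130_42_8 : Ent 4 := ⟨[a0, a63, a106], [a130, a42, a9], (M a48 (F (T t309 (T t551 (L l28 (T t579 N))))))⟩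
def e0_63_106__130_42_9 : Ent 4 := ⟨[a0, a63, a106], [a130, a42, a10], (M a48 (L l54 (F (T t578 (L l28 (L l318 (T t579 (T t551 (K a26 (Fr a58 a53 l38 (V t6446)) (K a58 (M a26 (F (L l28 (T t4144 (T t551 (L l28 (L l426 (T t6447 (K a32 (Fr a192 a149 l519 (Fr a15 a37 l75 (Fr a47 a31 l61 (V t6528)))) N))))))))) N))))))))))⟩
def e0_63_106__130_42_10 : Ent 4 := ⟨[a0, a63, a106], [a130, a42, a11], (M a48 (F (T t309 (T t551 (L l28 (T t579 N))))))⟩
def e0_63_106__130_42_11 : Ent 4 := ⟨[a0, a63, a106], [a130, a42, a12], (M a48 (F (T t585 (L l478 (T t551 (L l28 (T t579 N)))))))⟩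
def e0_63_106__130_42_12 : Ent 4 := ⟨[a0, a63, a106], [a130, a42, a13], (M a48 (F (T t309 (T t551 (L l28 (T t579 N))))))⟩
def e0_63_106__130_42_13 : Ent 4 := ⟨[a0, a63, a106], [a130, a42, a14], (M a48 (F (T t309 (T t551 (L l28 (T t579 N))))))⟩
def e0_63_106__130_42_14 : Ent 4 := ⟨[a0, a63, a106], [a130, a42, a15], (M a48 (F (T t585 (L l483 (T t551 (L l28 (T t579 N)))))))⟩
def e0_63_106__130_42_15 : Ent 4 := ⟨[a0, a63, a106], [a130, a42, a20], (M a48 (F (T t309 (T t551 (L l28 (T t579 N))))))⟩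
def e0_63_106__130_42_16 : Ent 4 := ⟨[a0, a63, a106], [a130, a42, a21], (M a48 (F (L l47 (T t309 (L l347 (T t551 (L l28 (L l47 (T t579 N)))))))))⟩
def e0_63_106__130_42_17 : Ent 4 := ⟨[a0, a63, a106], [a130, a42, a22], (M a48 (L l66 (F (T t309 (T t551 (L l28 (T t579 (K a2 (M a62 (L l306 (F (T t307 (L l22 (T t3443 (K a66 (Fr a194 a150 l516 (V t825)) (K a194 (M a66 (F (T t578 (L l11 (T t602 N))))) N)))))))) (K a62 (M a2 (F (T t307 (L l19 (L l28 (T t342 N)))))) N)))))))))⟩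
def e0_63_106__130_42_18 : Ent 4 := ⟨[a0, a63, a106], [a130, a42, a23], (M a48 (F (T t309 (L l351 (T t551 (L l28 (T t579 N)))))))⟩
def e0_63_106__130_42_19 : Ent 4 := ⟨[a0, a63, a106], [a130, a42, a24], (M a48 (F (T t309 (T t551 (L l28 (T t579 N))))))⟩
def e0_63_106__130_42_20 : Ent 4 := ⟨[a0, a63, a106], [a130, a42, a25], (M a48 (L l56 (F (T t309 (T t551 (L l28 (T t579 (K a8 (M a59 (F (T t307 (L l26 (L l316 (T t6445 N)))))) (K a59 (M a8 (F (T t307 (L l19 (L l28 (T t4700 N)))))) N)))))))))⟩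
def e0_63_106__130_42_21 : Ent 4 := ⟨[a0, a63, a106], [a130, a42, a26], (M a48 (L l54 (F (T t309 (L l28 (T t579 (T t551 (K a10 (Fr a58 a53 l38 (V t6446)) (K a58 (M a10 (F (T t4033 (T t551 (L l18 (L l218 (L l354 (T t6449 (L l18 (L l426 (T t6450 N))))))))))) N)))))))))⟩
def e0_63_106__130_42_22 : Ent 4 := ⟨[a0, a63, a106], [a130, a42, a27], (M a48 (F (T t309 (T t551 (L l28 (T t579 N))))))⟩
def e0_63_106__130_42_23 : Ent 4 := ⟨[a0, a63, a106], [a130, a42, a28], (M a48 (F (T t309 (T t551 (L l28 (L l362 (T t579 N)))))))⟩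
def e0_63_106__130_42_24 : Ent 4 := ⟨[a0, a63, a106], [a130, a42, a29], (M a48 (F (T t309 (L l371 (T t551 (L l28 (T t579 N)))))))⟩
def e0_63_106__130_42_25 : Ent 4 := ⟨[a0, a63, a106], [a130, a42, a30], (M a48 (F (T t309 (T t551 (L l28 (T t579 N))))))⟩
def e0_63_106__130_42_26 : Ent 4 := ⟨[a0, a63, a106], [a130, a42, a31], (M a48 (F (T t309 (L l375 (T t551 (L l28 (L l361 (T t579 N))))))))⟩
def e0_63_106__130_42_27 : Ent 4 := ⟨[a0, a63, a106], [a130, a42, a40], (M a48 (L l22 (F (T t309 (T t551 (L l24 (L l28 (T t579 (K a41 (M a43 (F (T t307 (L l66 (L l306 (L l388 (T t6451 N))))))) (K a43 (M a41 (F (T t578 (L l24 (L l28 (T t579 (T t551 N))))))) N))))))))))⟩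
def e0_63_106__130_42_28 : Ent 4 := ⟨[a0, a63, a106], [a130, a42, a41], (M a48 (L l22 (F (T t309 (T t551 (L l28 (T t579 (K a40 (M a43 (F (T t307 (L l66 (L l306 (L l388 (T t6451 N))))))) (K a43 (M a40 (F (T t307 (L l29 (L l69 (T t6452 N)))))) N)))))))))⟩
def e0_63_106__130_42_29 : Ent 4 := ⟨[a0, a63, a106], [a130, a42, a43], (M a48 (L l22 (F (T t309 (T t551 (L l28 (T t579 (K a40 (M a41 (F (T t578 (L l24 (L l28 (T t579 (T t551 N))))))) (K a41 (M a40 (F (T t307 (L l29 (L l69 (T t6452 N)))))) N)))))))))⟩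
def e0_63_106__130_42_30 : Ent 4 := ⟨[a0, a63, a106], [a130, a42, a44], (M a48 (F (T t309 (T t551 (L l24 (L l28 (T t579 N)))))))⟩
def e0_63_106__130_42_31 : Ent 4 := ⟨[a0, a63, a106], [a130, a42, a45], (M a48 (F (T t309 (T t551 (L l28 (T t579 N))))))⟩
def e0_63_106__130_42_32 : Ent 4 := ⟨[a0, a63, a106], [a130, a42, a46], (M a48 (L l26 (F (T t309 (T t551 (L l28 (T t579 (K a34 (M a38 (F (T t578 (L l20 (L l28 (T t579 (T t551 N))))))) (K a38 (M a34 (F (T t309 (L l29 (L l66 (L l306 (T t6453 N))))))) N)))))))))⟩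
def e0_63_106__130_42_33 : Ent 4 := ⟨[a0, a63, a106], [a130, a42, a47], (M a12 (L l28 (F (T t2304 (T t2305 (L l56 (T t2415 (K a32 (M a37 (F (T t2416 (L l56 (T t2415 (T t2305 N)))))) (K a37 (M a32 (F (T t2304 (L l51 (L l56 (T t682 N)))))) N)))))))))⟩
def e0_63_106__130_42_34 : Ent 4 := ⟨[a0, a63, a106], [a130, a42, a60], (M a48 (F (T t585 (L l442 (T t551 (L l28 (T t579 N)))))))⟩
def e0_63_106__130_42_35 : Ent 4 := ⟨[a0, a63, a106], [a130, a42, a61], (M a48 (F (L l35 (T t309 (L l515 (T t551 (L l28 (L l35 (T t579 N)))))))))⟩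
def e0_63_106__130_42_36 : Ent 4 := ⟨[a0, a63, a106], [a130, a42, a62], (M a48 (L l66 (F (T t309 (T t551 (L l28 (T t579 (K a2 (M a22 (L l306 (F (T t578 (L l28 (T t579 (T t551 (K a66 (M a194 (F (T t578 (L l28 (L l76 (T t579 (L l76 (T t551 N)))))))) (K a194 (M a66 (F (T t578 (L l152 (L l432 (T t6460 (L l28 (L l234 (T t579 N))))))))) N))))))))) (K a22 (M a2 (F (T t307 (L l19 (L l28 (T t342 N)))))) N)))))))))⟩
def e0_63_106__130_42_37 : Ent 4 := ⟨[a0, a63, a106], [a130, a42, a64], (M a48 (F (T t585 (L l28 (T t6454 (L l28 (L l218 (T t6455 (L l28 (L l218 (T t6456 (L l28 (L l84 (T t6457 (L l54 (L l152 (T t6458 (K a207 (Fr a192 a149 l519 (Fr a96 a144 l484 (Fr a101 a111 l104 (Fr a32 a16 l40 (V t6459))))) N))))))))))))))))))⟩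
def e0_63_106__130_42_38 : Ent 4 := ⟨[a0, a63, a106], [a130, a42, a65], (M a48 (F (T t309 (L l76 (T t551 (L l28 (L l76 (T t579 N))))))))⟩
def e0_63_106__130_42_39 : Ent 4 := ⟨[a0, a63, a106], [a130, a42, a66], (M a48 (L l306 (F (T t585 (L l76 (T t551 (L l28 (L l76 (T t579 (K a2 (M a194 (L l66 (F (T t587 (L l28 (L l76 (T t579 (K a22 (Fr a62 a150 l516 (V t825)) (K a62 (M a22 (F (T t578 (L l28 (L l76 (T t579 (L l76 (T t551 N)))))))) N))))))))) (K a194 (M a2 (F (T t578 (L l486 (T t339 N))))) N)))))))))))⟩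
def e0_63_106__130_42_40 : Ent 4 := ⟨[a0, a63, a106], [a130, a42, a67], (M a48 (F (T t309 (L l76 (T t551 (L l28 (L l76 (T t579 N))))))))⟩
def e0_63_106__130_42_41 : Ent 4 := ⟨[a0, a63, a106], [a130, a42, a68], (M a48 (F (T t309 (L l80 (T t551 (L l28 (L l80 (T t579 N))))))))⟩
def e0_63_106__130_42_42 : Ent 4 := ⟨[a0, a63, a106], [a130, a42, a69], (M a48 (F (T t309 (L l84 (T t551 (L l28 (L l84 (T t579 N))))))))⟩
def e0_63_106__130_42_43 : Ent 4 := ⟨[a0, a63, a106], [a130, a42, a70], (M a48 (F (T t309 (T t551 (L l28 (T t579 N))))))⟩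
def e0_63_106__130_42_44 : Ent 4 := ⟨[a0, a63, a106], [a130, a42, a71], (M a48 (F (T t309 (T t551 (L l28 (T t579 N))))))⟩
def e0_63_106__130_42_45 : Ent 4 := ⟨[a0, a63, a106], [a130, a42, a72], (M a48 (F (T t585 (L l80 (T t551 (L l28 (L l80 (T t579 N))))))))⟩
def e0_63_106__130_42_46 : Ent 4 := ⟨[a0, a63, a106], [a130, a42, a73], (M a48 (F (T t309 (T t551 (L l28 (T t579 N))))))⟩
def e0_63_106__130_42_47 : Ent 4 := ⟨[a0, a63, a106], [a130, a42, a74], (M a48 (F (T t578 (L l28 (L l84 (L l318 (T t579 (L l84 (T t551 N)))))))))⟩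
def e0_63_106__130_42_48 : Ent 4 := ⟨[a0, a63, a106], [a130, a42, a75], (M a48 (F (T t309 (T t551 (L l28 (T t579 N))))))⟩
def e0_63_106__130_42_49 : Ent 4 := ⟨[a0, a63, a106], [a130, a42, a76], (M a48 (F (T t309 (L l80 (T t551 (L l28 (L l80 (T t579 N))))))))⟩
def e0_63_106__130_42_50 : Ent 4 := ⟨[a0, a63, a106], [a130, a42, a77], (M a48 (F (T t309 (T t551 (L l28 (T t579 N))))))⟩
def e0_63_106__130_42_51 : Ent 4 := ⟨[a0, a63, a106], [a130, a42, a78], (M a48 (F (T t309 (T t551 (L l28 (T t579 N))))))⟩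
def e0_63_106__130_42_52 : Ent 4 := ⟨[a0, a63, a106], [a130, a42, a79], (M a48 (F (T t309 (L l84 (T t551 (L l28 (L l84 (T t579 N))))))))⟩
def e0_63_106__130_42_53 : Ent 4 := ⟨[a0, a63, a106], [a130, a42, a84], (M a48 (F (T t309 (L l140 (T t551 (L l28 (L l140 (T t579 N))))))))⟩
def e0_63_106__130_42_54 : Ent 4 := ⟨[a0, a63, a106], [a130, a42, a85], (M a48 (F (T t309 (L l347 (T t551 (L l54 (T t777 (L l152 (L l368 (T t6465 (K a192 (M a240 (F (T t6230 (L l236 (T t6471 (L l54 (L l236 (L l339 (T t6472 (L l339 (T t6473 N))))))))))) N)))))))))))⟩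
def e0_63_106__130_42_55 : Ent 4 := ⟨[a0, a63, a106], [a130, a42, a86], (M a48 (F (T t309 (L l351 (T t551 (L l28 (T t579 N)))))))⟩
def e0_63_106__130_42_56 : Ent 4 := ⟨[a0, a63, a106], [a130, a42, a87], (M a48 (F (T t309 (T t551 (L l28 (L l367 (T t579 N)))))))⟩
def e0_63_106__130_42_57 : Ent 4 := ⟨[a0, a63, a106], [a130, a42, a88], (M a48 (F (T t309 (L l478 (T t551 (L l28 (T t579 N)))))))⟩
def e0_63_106__130_42_58 : Ent 4 := ⟨[a0, a63, a106], [a130, a42, a89], (M a48 (F (T t309 (L l371 (T t551 (L l28 (T t579 N)))))))⟩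
def e0_63_106__130_42_59 : Ent 4 := ⟨[a0, a63, a106], [a130, a42, a90], (M a48 (F (T t309 (L l375 (L l483 (T t551 (L l28 (T t579 N))))))))⟩
def e0_63_106__130_42_60 : Ent 4 := ⟨[a0, a63, a106], [a130, a42, a91], (M a48 (F (T t309 (T t551 (L l28 (T t579 N))))))⟩
def e0_63_106__130_42_61 : Ent 4 := ⟨[a0, a63, a106], [a130, a42, a92], (M a48 (F (T t309 (T t551 (L l28 (T t579 N))))))⟩
def e0_63_106__130_42_62 : Ent 4 := ⟨[a0, a63, a106], [a130, a42, a93], (M a48 (F (T t309 (T t551 (L l28 (L l362 (T t579 N)))))))⟩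
def e0_63_106__130_42_63 : Ent 4 := ⟨[a0, a63, a106], [a130, a42, a94], (M a48 (F (T t309 (T t551 (L l28 (T t579 N))))))⟩
def e0_63_106__130_42_64 : Ent 4 := ⟨[a0, a63, a106], [a130, a42, a95], (M a48 (F (T t309 (T t551 (L l28 (L l361 (T t579 N)))))))⟩
def e0_63_106__130_42_65 : Ent 4 := ⟨[a0, a63, a106], [a130, a42, a104], (M a48 (F (T t585 (L l100 (L l140 (T t551 (L l28 (L l140 (T t579 N)))))))))⟩
def e0_63_106__130_42_66 : Ent 4 := ⟨[a0, a63, a106], [a130, a42, a105], (M a48 (F (T t309 (L l515 (T t551 (L l28 (T t579 N)))))))⟩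
def e0_63_106__130_42_67 : Ent 4 := ⟨[a0, a63, a106], [a130, a42, a107], (M a48 (F (T t309 (T t551 (L l28 (T t579 N))))))⟩
def e0_63_106__130_42_68 : Ent 4 := ⟨[a0, a63, a106], [a130, a42, a108], (M a48 (F (T t309 (L l100 (T t551 (L l28 (T t579 N)))))))⟩
def e0_63_106__130_42_69 : Ent 4 := ⟨[a0, a63, a106], [a130, a42, a109], (M a48 (F (T t309 (T t551 (L l28 (T t579 N))))))⟩
def e0_63_106__130_42_70 : Ent 4 := ⟨[a0, a63, a106], [a130, a42, a110], (M a48 (F (T t309 (T t551 (L l28 (T t579 N))))))⟩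
def e0_63_106__130_42_71 : Ent 4 := ⟨[a0, a63, a106], [a130, a42, a111], (M a240 (F (T t4779 (T t817 (L l137 (T t4781 N))))))⟩
def e0_63_106__130_42_72 : Ent 4 := ⟨[a0, a63, a106], [a130, a42, a124], (M a48 (F (T t309 (L l140 (T t551 (L l28 (L l140 (T t579 N))))))))⟩
def e0_63_106__130_42_73 : Ent 4 := ⟨[a0, a63, a106], [a130, a42, a125], (M a48 (F (T t309 (T t551 (L l28 (T t579 N))))))⟩
def e0_63_106__130_42_74 : Ent 4 := ⟨[a0, a63, a106], [a130, a42, a126], (M a48 (F (T t309 (T t551 (L l28 (T t579 N))))))⟩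
def e0_63_106__130_42_75 : Ent 4 := ⟨[a0, a63, a106], [a130, a42, a127], (M a48 (F (T t309 (T t551 (L l28 (T t6454 (L l28 (L l218 (T t6479 N)))))))))⟩
def e0_63_106__130_42_76 : Ent 4 := ⟨[a0, a63, a106], [a130, a42, a128], (M a48 (L l152 (F (T t585 (L l28 (T t579 (L l192 (L l220 (T t6480 (L l54 (L l158 (L l160 (T t6481 (K a129 (M a131 (F (T t304 (L l28 (T t579 (L l192 (L l217 (L l220 (T t6480 (L l54 (L l158 (L l160 (L l309 (T t6481 N)))))))))))))) (K a131 (M a129 (F (T t3405 (L l28 (T t579 (L l220 (L l306 (T t7342 N)))))))) N)))))))))))))))⟩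
def e0_63_106__130_42_77 : Ent 4 := ⟨[a0, a63, a106], [a130, a42, a129], (M a48 (L l152 (F (T t304 (L l28 (T t579 (L l217 (T t551 (K a128 (M a131 (F (T t304 (L l28 (T t579 (L l192 (L l217 (L l220 (T t6480 (L l54 (L l158 (L l160 (L l309 (T t6481 N)))))))))))))) (K a131 (M a128 (F (T t7289 (L l28 (T t579 (L l309 (T t3405 N))))))) N))))))))))⟩
def e0_63_106__130_42_78 : Ent 4 := ⟨[a0, a63, a106], [a130, a42, a131], (M a48 (L l152 (F (T t309 (L l197 (T t551 (L l28 (T t579 (K a128 (M a129 (F (T t3405 (L l28 (T t579 (L l220 (L l306 (T t7342 N)))))))) (K a129 (M a128 (F (T t7289 (L l28 (T t579 (L l309 (T t3405 N))))))) N))))))))))⟩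
def e0_63_106__130_42_79 : Ent 4 := ⟨[a0, a63, a106], [a130, a42, a132], (M a48 (F (T t304 (L l28 (T t579 (L l202 (T t551 N)))))))⟩
def e0_63_106__130_42_80 : Ent 4 := ⟨[a0, a63, a106], [a130, a42, a133], (M a48 (F (T t304 (L l28 (T t579 (L l199 (T t551 N)))))))⟩
def e0_63_106__130_42_81 : Ent 4 := ⟨[a0, a63, a106], [a130, a42, a134], (M a48 (L l158 (F (T t309 (T t551 (L l28 (T t579 (K a138 (M a142 (F (T t578 (L l28 (L l318 (T t579 (T t551 N))))))) (K a142 (M a138 (F (T t3405 (L l314 (T t6697 (T t551 N)))))) N)))))))))⟩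
def e0_63_106__130_42_82 : Ent 4 := ⟨[a0, a63, a106], [a130, a42, a135], (M a48 (F (T t309 (T t551 (L l28 (T t579 N))))))⟩
def e0_63_106__130_42_83 : Ent 4 := ⟨[a0, a63, a106], [a130, a42, a136], (M a48 (F (T t309 (T t551 (L l28 (T t579 N))))))⟩
def e0_63_106__130_42_84 : Ent 4 := ⟨[a0, a63, a106], [a130, a42, a137], (M a48 (F (T t309 (T t551 (L l28 (T t579 N))))))⟩
def e0_63_106__130_42_85 : Ent 4 := ⟨[a0, a63, a106], [a130, a42, a138], (M a48 (L l158 (F (T t578 (L l28 (L l318 (T t579 (T t551 (K a134 (M a142 (F (T t578 (L l28 (L l318 (T t579 (T t551 N))))))) (K a142 (M a134 (F (T t2348 (L l28 (L l318 (T t579 (T t551 N))))))) N))))))))))⟩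
def e0_63_106__130_42_86 : Ent 4 := ⟨[a0, a63, a106], [a130, a42, a139], (M a48 (F (T t309 (T t551 (L l28 (T t579 N))))))⟩
def e0_63_106__130_42_87 : Ent 4 := ⟨[a0, a63, a106], [a130, a42, a140], (M a48 (F (T t309 (L l222 (T t551 (L l28 (T t579 N)))))))⟩
def e0_63_106__130_42_88 : Ent 4 := ⟨[a0, a63, a106], [a130, a42, a141], (M a48 (F (T t309 (T t551 (L l28 (T t579 N))))))⟩
def e0_63_106__130_42_89 : Ent 4 := ⟨[a0, a63, a106], [a130, a42, a142], (M a48 (L l158 (F (T t309 (T t551 (L l28 (T t579 (K a134 (M a138 (F (T t3405 (L l314 (T t6697 (T t551 N)))))) (K a138 (M a134 (F (T t2348 (L l28 (L l318 (T t579 (T t551 N))))))) N)))))))))⟩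
def e0_63_106__130_42_90 : Ent 4 := ⟨[a0, a63, a106], [a130, a42, a143], (M a48 (F (T t309 (L l28 (T t6462 (L l28 (T t579 N)))))))⟩
def e0_63_106__130_42_91 : Ent 4 := ⟨[a0, a63, a106], [a130, a42, a148], (M a48 (F (T t304 (L l28 (T t579 (L l163 (T t551 N)))))))⟩
def e0_63_106__130_42_92 : Ent 4 := ⟨[a0, a63, a106], [a130, a42, a149], (M a240 (F (L l199 (T t4781 (L l199 (L l347 (T t6484 (L l28 (L l199 (L l375 (T t6483 (L l28 (L l152 (L l199 (L l220 (L l375 (T t6485 (K a133 (M a165 (F (T t6486 (L l28 (L l152 (L l160 (L l220 (L l311 (L l375 (T t6487 (L l152 (L l160 (L l220 (T t6488 N)))))))))))))) (K a165 (M a90 (L l199 (F (T t4788 (L l180 (T t6489 (K a133 (Fr a181 a122 l447 (V t6489)) (K a181 (M a133 (F (L l180 (T t6489 (L l227 (T t6746 (L l455 (T t6490 N)))))))) N)))))))) (K a181 (M a165 (F (T t6492 (T t6493 (L l28 (L l152 (L l220 (L l375 (T t6487 (L l152 (L l220 (T t6488 N)))))))))))) (K a74 (M a48 (F (T t6494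 (L l199 (L l491 (T t781 (L l28 (L l84 (L l318 (L l491 (T t579 N))))))))))) (K a90 (M a48 (L l375 (F (T t3318 (L l199 (L l462 (L l491 (T t781 (L l28 (L l491 (T t579 (K a208 (M a31 (F (L l28 (L l347 (T t6495 (L l151 (L l220 (T t6496 N)))))))) (K a31 (M a208 (F (T t6497 (L l151 (L l220 (T t6496 N)))))) N))))))))))))) (K a122 (M a48 (F (T t3318 (L l114 (L l491 (T t6471 (L l28 (L l491 (T t579 N))))))))) N)))))))))))))))))))))))⟩
def e0_63_106__130_42_93 : Ent 4 := ⟨[a0, a63, a106], [a130, a42, a150], (M a48 (L l218 (F (T t309 (L l163 (T t551 (L l28 (T t579 (K a170 (M a190 (F (T t304 (L l163 (L l220 (T t551 (L l28 (L l206 (L l220 (L l404 (T t552 (L l28 (L l206 (L l404 (T t553 N))))))))))))))) (K a190 (M a170 (F (L l350 (T t7343 (L l168 (L l434 (T t3204 (L l494 (T t585 N))))))))) N))))))))))⟩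
def e0_63_106__130_42_94 : Ent 4 := ⟨[a0, a63, a106], [a130, a42, a151], (M a48 (F (T t309 (L l163 (T t551 (L l28 (T t579 N)))))))⟩
def e0_63_106__130_42_95 : Ent 4 := ⟨[a0, a63, a106], [a130, a42, a152], (M a48 (F (T t304 (L l28 (T t579 (L l222 (T t551 N)))))))⟩
def e0_63_106__130_42_96 : Ent 4 := ⟨[a0, a63, a106], [a130, a42, a153], (M a48 (F (T t309 (L l167 (T t551 (L l28 (T t579 N)))))))⟩
def e0_63_106__130_42_97 : Ent 4 := ⟨[a0, a63, a106], [a130, a42, a154], (M a240 (F (T t4779 (L l170 (L l368 (L l512 (T t817 (T t4781 N))))))))⟩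
def e0_63_106__130_42_98 : Ent 4 := ⟨[a0, a63, a106], [a130, a42, a155], (M a48 (F (T t309 (T t551 (L l28 (L l367 (T t579 N)))))))⟩
def e0_63_106__130_42_99 : Ent 4 := ⟨[a0, a63, a106], [a130, a42, a156], (M a48 (F (T t304 (L l28 (T t579 (T t551 N))))))⟩
def e0_63_106__130_42_100 : Ent 4 := ⟨[a0, a63, a106], [a130, a42, a157], (M a48 (F (T t309 (L l167 (T t551 (L l28 (T t579 N)))))))⟩
def e0_63_106__130_42_101 : Ent 4 := ⟨[a0, a63, a106], [a130, a42, a158], (M a48 (F (T t309 (T t551 (L l28 (L l362 (T t579 N)))))))⟩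
def e0_63_106__130_42_102 : Ent 4 := ⟨[a0, a63, a106], [a130, a42, a159], (M a240 (F (T t4779 (L l170 (T t817 (L l361 (T t4781 N)))))))⟩
def e0_63_106__130_42_103 : Ent 4 := ⟨[a0, a63, a106], [a130, a42, a168], (M a48 (F (T t309 (T t551 (L l28 (L l400 (T t579 N)))))))⟩
def e0_63_106__130_42_104 : Ent 4 := ⟨[a0, a63, a106], [a130, a42, a169], (M a48 (F (T t309 (L l217 (T t551 (L l28 (T t579 N)))))))⟩
def e0_63_106__130_42_105 : Ent 4 := ⟨[a0, a63, a106], [a130, a42, a170], (M a48 (L l218 (F (T t309 (L l220 (T t551 (L l28 (L l206 (L l220 (L l404 (T t552 (L l28 (L l206 (L l404 (T t553 (K a150 (M a190 (F (T t304 (L l163 (L l220 (T t551 (L l28 (L l206 (L l220 (L l404 (T t552 (L l28 (L l206 (L l404 (T t553 N))))))))))))))) (K a190 (M a150 (F (T t304 (L l306 (L l392 (T t7344 (L l306 (T t7345 N)))))))) N)))))))))))))))))⟩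
def e0_63_106__130_42_106 : Ent 4 := ⟨[a0, a63, a106], [a130, a42, a171], (M a48 (F (T t309 (T t551 (L l28 (T t579 N))))))⟩
def e0_63_106__130_42_107 : Ent 4 := ⟨[a0, a63, a106], [a130, a42, a172], (M a48 (F (T t309 (T t551 (L l28 (T t579 N))))))⟩
def e0_63_106__130_42_108 : Ent 4 := ⟨[a0, a63, a106], [a130, a42, a173], (M a48 (F (T t309 (T t551 (L l28 (T t579 N))))))⟩
def e0_63_106__130_42_109 : Ent 4 := ⟨[a0, a63, a106], [a130, a42, a174], (M a48 (F (T t309 (T t551 (L l28 (T t579 N))))))⟩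
def e0_63_106__130_42_110 : Ent 4 := ⟨[a0, a63, a106], [a130, a42, a175], (M a48 (F (T t309 (T t551 (L l28 (T t579 N))))))⟩
def e0_63_106__130_42_111 : Ent 4 := ⟨[a0, a63, a106], [a130, a42, a188], (M a48 (F (T t309 (L l186 (T t551 (L l28 (T t579 N)))))))⟩
def e0_63_106__130_42_112 : Ent 4 := ⟨[a0, a63, a106], [a130, a42, a189], (M a48 (F (T t309 (L l217 (T t551 (L l28 (T t579 N)))))))⟩
def e0_63_106__130_42_113 : Ent 4 := ⟨[a0, a63, a106], [a130, a42, a190], (M a48 (L l218 (F (T t309 (T t551 (L l28 (T t579 (K a150 (M a170 (F (L l350 (T t7343 (L l168 (L l434 (T t3204 (L l494 (T t585 N))))))))) (K a170 (M a150 (F (T t304 (L l306 (L l392 (T t7344 (L l306 (T t7345 N)))))))) N)))))))))⟩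
def e0_63_106__130_42_114 : Ent 4 := ⟨[a0, a63, a106], [a130, a42, a191], (M a48 (F (T t309 (L l190 (L l220 (T t551 (L l28 (T t6498 (L l28 (T t6499 N))))))))))⟩
def e0_63_106__130_42_115 : Ent 4 := ⟨[a0, a63, a106], [a130, a42, a192], (M a240 (F (L l339 (T t4781 (L l218 (L l236 (L l339 (T t6500 (L l296 (L l339 (T t6501 (L l28 (L l152 (L l339 (T t6502 (L l339 (T t6503 (K a133 (M a90 (L l339 (F (T t4788 (L l218 (T t6504 (K a74 (Fr a15 a165 l483 (V t6505)) (K a15 (Fr a74 a122 l130 (V t6506)) N)))))))) (K a85 (M a12 (F (L l292 (T t2745 (L l272 (L l339 (T t6595 N))))))) (K a181 (M a12 (F (T t3358 (L l56 (L l272 (T t2415 (L l272 (T t6512 N)))))))) (K a74 (M a165 (L l339 (F (T t6492 (L l296 (T t6513 (L l54 (L l84 (L l318 (T t6514 (K a133 (Fr a15 a90 l483 (V t6515)) (K a15 (M a133 (F (T t6516 (L l28 (L l236 (L l318 (L l484 (T t6517 N)))))))) N)))))))))))) (K a90 (M a252 (F (L l334 (T t6518 (L l148 (L l489 (T t6519 (L l306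 (L l309 (T t6675 N)))))))))) (K a122 (M a12 (F (T t2747 (L l56 (L l272 (T t2415 (L l272 (T t6512 N)))))))) (K a15 (M a248 (L l339 (F (T t6520 (L l22 (T t6521 (K a133 (M a74 (F (T t6522 (L l3 (L l56 (L l334 (T t6523 N))))))) (K a74 (M a133 (F (T t3821 (T t6520 (L l469 (L l484 (T t6524 N))))))) N)))))))) N))))))))))))))))))))))))⟩
def e0_63_106__130_42_116 : Ent 4 := ⟨[a0, a63, a106], [a130, a42, a193], (M a48 (F (T t304 (L l28 (T t579 (L l515 (T t551 N)))))))⟩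
def e0_63_106__130_42_117 : Ent 4 := ⟨[a0, a63, a106], [a130, a42, a194], (M a48 (L l306 (F (T t578 (L l28 (L l234 (T t579 (T t551 (K a2 (M a66 (L l66 (F (L l152 (T t6460 (L l28 (L l234 (T t579 (K a22 (M a62 (F (T t578 (L l11 (T t602 N))))) (K a62 (M a22 (F (T t578 (L l152 (L l432 (T t6460 (L l28 (L l234 (T t579 N))))))))) N)))))))))) (K a66 (M a2 (F (T t578 (L l486 (T t339 N))))) N))))))))))⟩
def e0_63_106__130_42_118 : Ent 4 := ⟨[a0, a63, a106], [a130, a42, a195], (M a48 (F (T t585 (L l273 (T t551 (L l28 (T t579 N)))))))⟩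
def e0_63_106__130_42_119 : Ent 4 := ⟨[a0, a63, a106], [a130, a42, a196], (M a48 (F (T t304 (L l28 (T t579 (L l495 (T t551 N)))))))⟩
def e0_63_106__130_42_120 : Ent 4 := ⟨[a0, a63, a106], [a130, a42, a197], (M a240 (F (L l236 (T t4779 (L l491 (T t817 (T t4781 N)))))))⟩
def e0_63_106__130_42_121 : Ent 4 := ⟨[a0, a63, a106], [a130, a42, a198], (M a48 (F (T t578 (L l28 (L l234 (T t579 (T t551 N)))))))⟩
def e0_63_106__130_42_122 : Ent 4 := ⟨[a0, a63, a106], [a130, a42, a199], (M a48 (F (T t309 (T t551 (L l28 (T t579 N))))))⟩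
def e0_63_106__130_42_123 : Ent 4 := ⟨[a0, a63, a106], [a130, a42, a200], (M a48 (F (T t578 (L l28 (L l230 (T t579 (T t551 N)))))))⟩
def e0_63_106__130_42_124 : Ent 4 := ⟨[a0, a63, a106], [a130, a42, a201], (M a48 (F (T t578 (L l28 (L l230 (T t579 (T t551 N)))))))⟩
def e0_63_106__130_42_125 : Ent 4 := ⟨[a0, a63, a106], [a130, a42, a202], (M a240 (F (L l236 (T t4786 (T t817 (L l318 (T t4781 N)))))))⟩
def e0_63_106__130_42_126 : Ent 4 := ⟨[a0, a63, a106], [a130, a42, a203], (M a48 (F (T t2348 (L l28 (L l230 (T t579 (T t551 N)))))))⟩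
def e0_63_106__130_42_127 : Ent 4 := ⟨[a0, a63, a106], [a130, a42, a204], (M a48 (F (T t585 (L l298 (T t551 (L l28 (T t579 N)))))))⟩
def e0_63_106__130_42_128 : Ent 4 := ⟨[a0, a63, a106], [a130, a42, a205], (M a48 (F (T t309 (T t551 (L l28 (T t579 N))))))⟩
def e0_63_106__130_42_129 : Ent 4 := ⟨[a0, a63, a106], [a130, a42, a206], (M a48 (F (T t2348 (L l28 (L l234 (T t579 (T t551 N)))))))⟩
def e0_63_106__130_42_130 : Ent 4 := ⟨[a0, a63, a106], [a130, a42, a207], (M a240 (F (T t6525 (L l512 (T t817 (T t4781 N))))))⟩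
def e0_63_106__130_42_131 : Ent 4 := ⟨[a0, a63, a106], [a130, a42, a212], (M a48 (F (T t304 (L l28 (T t579 (L l351 (T t551 N)))))))⟩
def e0_63_106__130_42_132 : Ent 4 := ⟨[a0, a63, a106], [a130, a42, a213], (M a48 (F (T t585 (L l347 (T t551 (L l28 (L l246 (T t579 N))))))))⟩
def e0_63_106__130_42_133 : Ent 4 := ⟨[a0, a63, a106], [a130, a42, a214], (M a48 (F (T t309 (T t551 (L l28 (T t579 N))))))⟩
def e0_63_106__130_42_134 : Ent 4 := ⟨[a0, a63, a106], [a130, a42, a215], (M a48 (F (T t309 (T t551 (L l28 (L l245 (T t579 N)))))))⟩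
def e0_63_106__130_42_135 : Ent 4 := ⟨[a0, a63, a106], [a130, a42, a216], (M a48 (F (T t309 (L l298 (T t551 (L l28 (T t579 N)))))))⟩
def e0_63_106__130_42_136 : Ent 4 := ⟨[a0, a63, a106], [a130, a42, a217], (M a48 (F (T t309 (T t551 (L l28 (T t579 N))))))⟩
def e0_63_106__130_42_137 : Ent 4 := ⟨[a0, a63, a106], [a130, a42, a218], (M a48 (F (T t2348 (L l28 (L l246 (L l282 (T t579 (L l303 (T t551 N)))))))))⟩
def e0_63_106__130_42_138 : Ent 4 := ⟨[a0, a63, a106], [a130, a42, a219], (M a48 (F (T t309 (T t551 (L l28 (L l245 (T t579 N)))))))⟩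
def e0_63_106__130_42_139 : Ent 4 := ⟨[a0, a63, a106], [a130, a42, a220], (M a48 (F (T t309 (T t551 (L l28 (L l241 (T t579 N)))))))⟩
def e0_63_106__130_42_140 : Ent 4 := ⟨[a0, a63, a106], [a130, a42, a221], (M a48 (F (T t309 (T t551 (L l28 (L l241 (T t579 N)))))))⟩
def e0_63_106__130_42_141 : Ent 4 := ⟨[a0, a63, a106], [a130, a42, a222], (M a48 (F (T t309 (T t551 (L l28 (L l241 (T t579 N)))))))⟩
def e0_63_106__130_42_142 : Ent 4 := ⟨[a0, a63, a106], [a130, a42, a223], (M a240 (F (T t4786 (L l368 (T t817 (L l361 (T t4781 N)))))))⟩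
def e0_63_106__130_42_143 : Ent 4 := ⟨[a0, a63, a106], [a130, a42, a232], (M a48 (F (T t585 (T t551 (L l28 (T t579 N))))))⟩
def e0_63_106__130_42_144 : Ent 4 := ⟨[a0, a63, a106], [a130, a42, a233], (M a48 (F (T t309 (T t551 (L l28 (T t579 N))))))⟩
def e0_63_106__130_42_145 : Ent 4 := ⟨[a0, a63, a106], [a130, a42, a234], (M a48 (F (T t578 (L l28 (L l282 (T t579 (T t551 N)))))))⟩
def e0_63_106__130_42_146 : Ent 4 := ⟨[a0, a63, a106], [a130, a42, a235], (M a48 (F (T t309 (T t551 (L l28 (T t579 N))))))⟩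
def e0_63_106__130_42_147 : Ent 4 := ⟨[a0, a63, a106], [a130, a42, a236], (M a48 (F (T t309 (T t551 (L l28 (L l400 (T t579 N)))))))⟩
def e0_63_106__130_42_148 : Ent 4 := ⟨[a0, a63, a106], [a130, a42, a237], (M a48 (F (T t309 (T t551 (L l28 (T t579 N))))))⟩
def e0_63_106__130_42_149 : Ent 4 := ⟨[a0, a63, a106], [a130, a42, a238], (M a48 (F (T t309 (T t551 (L l28 (T t579 N))))))⟩
def e0_63_106__130_42_150 : Ent 4 := ⟨[a0, a63, a106], [a130, a42, a239], (M a48 (F (T t309 (T t551 (L l28 (L l289 (L l404 (T t579 N))))))))⟩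
def e0_63_106__130_42_151 : Ent 4 := ⟨[a0, a63, a106], [a130, a42, a252], (M a48 (F (T t585 (L l262 (T t551 (L l28 (T t579 N)))))))⟩
def e0_63_106__130_42_152 : Ent 4 := ⟨[a0, a63, a106], [a130, a42, a253], (M a48 (F (T t309 (T t551 (L l28 (T t579 N))))))⟩
def e0_63_106__130_42_153 : Ent 4 := ⟨[a0, a63, a106], [a130, a42, a254], (M a48 (F (T t309 (T t551 (L l28 (T t579 N))))))⟩
def e0_63_106__130_42_154 : Ent 4 := ⟨[a0, a63, a106], [a130, a42, a255], (M a48 (F (T t585 (L l266 (T t551 (L l28 (L l469 (T t6526 (L l28 (L l152 (L l289 (T t6527 N))))))))))))⟩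
def b0_63_106__130_42 : Blk 4 := ⟨[0, 63, 106], [130, 42], [1, 2, 3, 4, 5, 6, 7, 8, 9, 10, 11, 12, 13, 14, 15, 20, 21, 22, 23, 24, 25, 26, 27, 28, 29, 30, 31, 40, 41, 43, 44, 45, 46, 47, 60, 61, 62, 64, 65, 66, 67, 68, 69, 70, 71, 72, 73, 74, 75, 76, 77, 78, 79, 84, 85, 86, 87, 88, 89, 90, 91, 92, 93, 94, 95, 104, 105, 107, 108, 109, 110, 111, 124, 125, 126, 127, 128, 129, 131, 132, 133, 134, 135, 136, 137, 138, 139, 140, 141, 142, 143, 148, 149, 150, 151, 152, 153, 154, 155, 156, 157, 158, 159, 168, 169, 170, 171, 172, 173, 174, 175, 188, 189, 190, 191, 192, 193, 194, 195, 196, 197, 198, 199, 200, 201, 202, 203, 204, 205, 206, 207, 212, 213, 214, 215, 216, 217, 218, 219, 220, 221, 222, 223, 232, 233, 234, 235, 236, 237, 238, 239, 252, 253, 254, 255], [e0_63_106__130_42_0, e0_63_106__130_42_1, e0_63_106__130_42_2, e0_63_106__130_42_3, e0_63_106__130_42_4, e0_63_106__130_42_5, e0_63_106__130_42_6, e0_63_106__130_42_7,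 e0_63_106__130_42_8, e0_63_106__130_42_9, e0_63_106__130_42_10, e0_63_106__130_42_11, e0_63_106__130_42_12, e0_63_106__130_42_13, e0_63_106__130_42_14, e0_63_106__130_42_15, e0_63_106__130_42_16, e0_63_106__130_42_17, e0_63_106__130_42_18, e0_63_106__130_42_19, e0_63_106__130_42_20, e0_63_106__130_42_21, e0_63_106__130_42_22, e0_63_106__130_42_23, e0_63_106__130_42_24, e0_63_106__130_42_25, e0_63_106__130_42_26, e0_63_106__130_42_27, e0_63_106__130_42_28, e0_63_106__130_42_29, e0_63_106__130_42_30, e0_63_106__130_42_31, e0_63_106__130_42_32, e0_63_106__130_42_33, e0_63_106__130_42_34, e0_63_106__130_42_35, e0_63_106__130_42_36, e0_63_106__130_42_37, e0_63_106__130_42_38, e0_63_106__130_42_39, e0_63_106__130_42_40, e0_63_106__130_42_41, e0_63_106__130_42_42, e0_63_106__130_42_43, e0_63_106__130_42_44, e0_63_106__130_42_45, e0_63_106__130_42_46, e0_63_106__130_42_47, e0_63_106__130_42_48, e0_63_106__130_42_49, e0_63_106__130_42_50,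 e0_63_106__130_42_51, e0_63_106__130_42_52, e0_63_106__130_42_53, e0_63_106__130_42_54, e0_63_106__130_42_55, e0_63_106__130_42_56, e0_63_106__130_42_57, e0_63_106__130_42_58, e0_63_106__130_42_59, e0_63_106__130_42_60, e0_63_106__130_42_61, e0_63_106__130_42_62, e0_63_106__130_42_63, e0_63_106__130_42_64, e0_63_106__130_42_65, e0_63_106__130_42_66, e0_63_106__130_42_67, e0_63_106__130_42_68, e0_63_106__130_42_69, e0_63_106__130_42_70, e0_63_106__130_42_71, e0_63_106__130_42_72, e0_63_106__130_42_73, e0_63_106__130_42_74, e0_63_106__130_42_75, e0_63_106__130_42_76, e0_63_106__130_42_77, e0_63_106__130_42_78, e0_63_106__130_42_79, e0_63_106__130_42_80, e0_63_106__130_42_81, e0_63_106__130_42_82, e0_63_106__130_42_83, e0_63_106__130_42_84, e0_63_106__130_42_85, e0_63_106__130_42_86, e0_63_106__130_42_87, e0_63_106__130_42_88, e0_63_106__130_42_89, e0_63_106__130_42_90, e0_63_106__130_42_91, e0_63_106__130_42_92,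 e0_63_106__130_42_93, e0_63_106__130_42_94, e0_63_106__130_42_95, e0_63_106__130_42_96, e0_63_106__130_42_97, e0_63_106__130_42_98, e0_63_106__130_42_99, e0_63_106__130_42_100, e0_63_106__130_42_101, e0_63_106__130_42_102, e0_63_106__130_42_103, e0_63_106__130_42_104, e0_63_106__130_42_105, e0_63_106__130_42_106, e0_63_106__130_42_107, e0_63_106__130_42_108, e0_63_106__130_42_109, e0_63_106__130_42_110, e0_63_106__130_42_111, e0_63_106__130_42_112, e0_63_106__130_42_113, e0_63_106__130_42_114, e0_63_106__130_42_115, e0_63_106__130_42_116, e0_63_106__130_42_117, e0_63_106__130_42_118, e0_63_106__130_42_119, e0_63_106__130_42_120, e0_63_106__130_42_121, e0_63_106__130_42_122, e0_63_106__130_42_123, e0_63_106__130_42_124, e0_63_106__130_42_125, e0_63_106__130_42_126, e0_63_106__130_42_127, e0_63_106__130_42_128, e0_63_106__130_42_129, e0_63_106__130_42_130, e0_63_106__130_42_131, e0_63_106__130_42_132, e0_63_106__130_42_133,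 e0_63_106__130_42_134, e0_63_106__130_42_135, e0_63_106__130_42_136, e0_63_106__130_42_137, e0_63_106__130_42_138, e0_63_106__130_42_139, e0_63_106__130_42_140, e0_63_106__130_42_141, e0_63_106__130_42_142, e0_63_106__130_42_143, e0_63_106__130_42_144, e0_63_106__130_42_145, e0_63_106__130_42_146, e0_63_106__130_42_147, e0_63_106__130_42_148, e0_63_106__130_42_149, e0_63_106__130_42_150, e0_63_106__130_42_151, e0_63_106__130_42_152, e0_63_106__130_42_153, e0_63_106__130_42_154], by decide +kernel, by decide +kernel⟩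
def e0_63_106__131_42_0 : Ent 4 := ⟨[a0, a63, a106], [a131, a42, a1], (M a48 (F (T t309 (L l197 (T t551 (L l28 (T t579 N)))))))⟩
def e0_63_106__131_42_1 : Ent 4 := ⟨[a0, a63, a106], [a131, a42, a2], (M a48 (L l66 (F (T t309 (L l197 (T t551 (L l28 (T t579 (K a22 (M a62 (F (T t585 (L l22 (L l306 (T t5926 N)))))) (K a62 (M a22 (F (T t578 (L l28 (T t579 (L l197 (T t551 N))))))) N))))))))))⟩
def e0_63_106__131_42_2 : Ent 4 := ⟨[a0, a63, a106], [a131, a42, a3], (M a48 (L l307 (F (T t585 (L l197 (L l453 (T t551 (L l28 (T t579 (K a67 (M a195 (F (T t585 (L l152 (L l197 (L l451 (T t4663 N))))))) (K a195 (M a67 (F (T t585 (L l197 (L l273 (L l453 (T t551 (L l28 (T t579 N))))))))) N)))))))))))⟩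
def e0_63_106__131_42_3 : Ent 4 := ⟨[a0, a63, a106], [a131, a42, a4], (M a48 (F (T t309 (L l197 (T t551 (L l28 (T t579 N)))))))⟩
def e0_63_106__131_42_4 : Ent 4 := ⟨[a0, a63, a106], [a131, a42, a5], (M a48 (F (T t578 (L l28 (L l47 (T t579 (L l197 (T t551 N))))))))⟩
def e0_63_106__131_42_5 : Ent 4 := ⟨[a0, a63, a106], [a131, a42, a6], (M a48 (F (T t309 (L l197 (T t551 (L l28 (T t579 N)))))))⟩
def e0_63_106__131_42_6 : Ent 4 := ⟨[a0, a63, a106], [a131, a42, a7], (M a48 (F (T t309 (L l197 (T t551 (L l28 (T t579 N)))))))⟩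
def e0_63_106__131_42_7 : Ent 4 := ⟨[a0, a63, a106], [a131, a42, a8], (M a48 (L l56 (F (T t309 (L l197 (T t551 (L l28 (T t579 (K a25 (M a59 (F (T t585 (L l26 (L l316 (T t6445 N)))))) (K a59 (M a25 (F (T t578 (L l28 (T t579 (L l197 (T t551 N))))))) N))))))))))⟩
def e0_63_106__131_42_8 : Ent 4 := ⟨[a0, a63, a106], [a131, a42, a9], (M a48 (F (T t309 (L l197 (T t551 (L l28 (T t579 N)))))))⟩
def e0_63_106__131_42_9 : Ent 4 := ⟨[a0, a63, a106], [a131, a42, a10], (M a48 (L l54 (F (T t578 (L l28 (L l318 (T t579 (L l197 (T t551 (K a26 (Fr a58 a53 l38 (V t6446)) (K a58 (M a26 (F (L l28 (T t4144 (L l197 (T t551 (L l28 (L l426 (T t6447 (K a32 (Fr a192 a149 l519 (Fr a15 a37 l75 (Fr a47 a31 l61 (V t6528)))) N)))))))))) N)))))))))))⟩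
def e0_63_106__131_42_10 : Ent 4 := ⟨[a0, a63, a106], [a131, a42, a11], (M a48 (F (T t309 (L l197 (T t551 (L l28 (T t579 N)))))))⟩
def e0_63_106__131_42_11 : Ent 4 := ⟨[a0, a63, a106], [a131, a42, a12], (M a48 (F (T t585 (L l197 (L l478 (T t551 (L l28 (T t579 N))))))))⟩
def e0_63_106__131_42_12 : Ent 4 := ⟨[a0, a63, a106], [a131, a42, a13], (M a48 (F (T t309 (L l197 (T t551 (L l28 (T t579 N)))))))⟩
def e0_63_106__131_42_13 : Ent 4 := ⟨[a0, a63, a106], [a131, a42, a14], (M a48 (F (T t309 (L l197 (T t551 (L l28 (T t579 N)))))))⟩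
def e0_63_106__131_42_14 : Ent 4 := ⟨[a0, a63, a106], [a131, a42, a15], (M a48 (F (T t585 (L l197 (L l483 (T t551 (L l28 (T t579 N))))))))⟩
def e0_63_106__131_42_15 : Ent 4 := ⟨[a0, a63, a106], [a131, a42, a20], (M a48 (F (T t309 (L l197 (T t551 (L l28 (T t579 N)))))))⟩
def e0_63_106__131_42_16 : Ent 4 := ⟨[a0, a63, a106], [a131, a42, a21], (M a48 (F (L l47 (T t309 (L l197 (L l347 (T t551 (L l28 (L l47 (T t579 N))))))))))⟩
def e0_63_106__131_42_17 : Ent 4 := ⟨[a0, a63, a106], [a131, a42, a22], (M a48 (L l66 (F (T t309 (L l197 (T t551 (L l28 (T t579 (K a2 (M a62 (F (T t585 (L l22 (L l306 (T t5926 N)))))) (K a62 (M a2 (F (T t307 (L l19 (L l28 (T t342 N)))))) N))))))))))⟩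
def e0_63_106__131_42_18 : Ent 4 := ⟨[a0, a63, a106], [a131, a42, a23], (M a48 (F (T t309 (L l197 (L l351 (T t551 (L l28 (T t579 N))))))))⟩
def e0_63_106__131_42_19 : Ent 4 := ⟨[a0, a63, a106], [a131, a42, a24], (M a48 (F (T t309 (L l197 (T t551 (L l28 (T t579 N)))))))⟩
def e0_63_106__131_42_20 : Ent 4 := ⟨[a0, a63, a106], [a131, a42, a25], (M a48 (L l56 (F (T t309 (L l197 (T t551 (L l28 (T t579 (K a8 (M a59 (F (T t585 (L l26 (L l316 (T t6445 N)))))) (K a59 (M a8 (F (T t307 (L l19 (L l28 (T t4700 N)))))) N))))))))))⟩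
def e0_63_106__131_42_21 : Ent 4 := ⟨[a0, a63, a106], [a131, a42, a26], (M a48 (L l54 (F (T t309 (L l28 (T t579 (L l197 (T t551 (K a10 (Fr a58 a53 l38 (V t6446)) (K a58 (M a10 (F (T t4033 (L l197 (T t551 (L l18 (L l354 (T t6449 (L l18 (L l426 (T t6450 N))))))))))) N))))))))))⟩
def e0_63_106__131_42_22 : Ent 4 := ⟨[a0, a63, a106], [a131, a42, a27], (M a48 (F (T t309 (L l197 (T t551 (L l28 (T t579 N)))))))⟩
def e0_63_106__131_42_23 : Ent 4 := ⟨[a0, a63, a106], [a131, a42, a28], (M a48 (F (T t309 (L l197 (T t551 (L l28 (L l362 (T t579 N))))))))⟩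
def e0_63_106__131_42_24 : Ent 4 := ⟨[a0, a63, a106], [a131, a42, a29], (M a48 (F (T t309 (L l197 (L l371 (T t551 (L l28 (T t579 N))))))))⟩
def e0_63_106__131_42_25 : Ent 4 := ⟨[a0, a63, a106], [a131, a42, a30], (M a48 (F (T t309 (L l197 (T t551 (L l28 (T t579 N)))))))⟩
def e0_63_106__131_42_26 : Ent 4 := ⟨[a0, a63, a106], [a131, a42, a31], (M a48 (F (T t309 (L l197 (L l375 (T t551 (L l28 (L l361 (T t579 N)))))))))⟩
def e0_63_106__131_42_27 : Ent 4 := ⟨[a0, a63, a106], [a131, a42, a40], (M a48 (L l22 (F (T t309 (L l197 (T t551 (L l24 (L l28 (T t579 (K a41 (M a43 (F (T t307 (L l66 (L l388 (T t6451 N)))))) (K a43 (M a41 (F (T t578 (L l24 (L l28 (T t579 (L l197 (T t551 N)))))))) N)))))))))))⟩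
def e0_63_106__131_42_28 : Ent 4 := ⟨[a0, a63, a106], [a131, a42, a41], (M a48 (L l22 (F (T t309 (L l197 (T t551 (L l28 (T t579 (K a40 (M a43 (F (T t307 (L l66 (L l388 (T t6451 N)))))) (K a43 (M a40 (F (T t309 (L l29 (L l69 (T t6452 N)))))) N))))))))))⟩
def e0_63_106__131_42_29 : Ent 4 := ⟨[a0, a63, a106], [a131, a42, a43], (M a48 (L l22 (F (T t309 (L l197 (T t551 (L l28 (T t579 (K a40 (M a41 (F (T t578 (L l24 (L l28 (T t579 (L l197 (T t551 N)))))))) (K a41 (M a40 (F (T t309 (L l29 (L l69 (T t6452 N)))))) N))))))))))⟩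
def e0_63_106__131_42_30 : Ent 4 := ⟨[a0, a63, a106], [a131, a42, a44], (M a48 (F (T t309 (L l197 (T t551 (L l24 (L l28 (T t579 N))))))))⟩
def e0_63_106__131_42_31 : Ent 4 := ⟨[a0, a63, a106], [a131, a42, a45], (M a48 (F (T t309 (L l197 (T t551 (L l28 (T t579 N)))))))⟩
def e0_63_106__131_42_32 : Ent 4 := ⟨[a0, a63, a106], [a131, a42, a46], (M a48 (L l26 (F (T t309 (L l197 (T t551 (L l28 (T t579 (K a34 (M a38 (F (T t578 (L l20 (L l28 (T t579 (L l197 (T t551 N)))))))) (K a38 (M a34 (F (T t309 (L l29 (L l66 (L l307 (T t6453 N))))))) N))))))))))⟩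
def e0_63_106__131_42_33 : Ent 4 := ⟨[a0, a63, a106], [a131, a42, a47], (M a12 (L l28 (F (T t2304 (L l161 (T t2305 (L l56 (T t2415 (K a32 (M a37 (F (T t2416 (L l56 (T t2415 (L l161 (T t2305 N))))))) (K a37 (M a32 (F (T t2304 (L l51 (L l56 (T t682 N)))))) N))))))))))⟩
def e0_63_106__131_42_34 : Ent 4 := ⟨[a0, a63, a106], [a131, a42, a60], (M a48 (F (T t585 (L l197 (L l442 (T t551 (L l28 (T t579 N))))))))⟩
def e0_63_106__131_42_35 : Ent 4 := ⟨[a0, a63, a106], [a131, a42, a61], (M a48 (F (L l35 (T t309 (L l197 (L l515 (T t551 (L l28 (L l35 (T t579 N))))))))))⟩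
def e0_63_106__131_42_36 : Ent 4 := ⟨[a0, a63, a106], [a131, a42, a62], (M a48 (L l66 (F (T t309 (L l197 (T t551 (L l28 (T t579 (K a2 (M a22 (F (T t578 (L l28 (T t579 (L l197 (T t551 N))))))) (K a22 (M a2 (F (T t307 (L l19 (L l28 (T t342 N)))))) N))))))))))⟩
def e0_63_106__131_42_37 : Ent 4 := ⟨[a0, a63, a106], [a131, a42, a64], (M a48 (F (T t585 (L l28 (T t6454 (L l28 (T t6455 (L l28 (T t6456 (L l28 (L l84 (T t6457 (L l54 (L l152 (T t6458 (K a207 (Fr a192 a149 l519 (Fr a96 a144 l484 (Fr a101 a111 l104 (Fr a32 a16 l40 (V t6459))))) N))))))))))))))))⟩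
def e0_63_106__131_42_38 : Ent 4 := ⟨[a0, a63, a106], [a131, a42, a65], (M a48 (F (T t309 (L l76 (L l197 (T t551 (L l28 (L l76 (T t579 N)))))))))⟩
def e0_63_106__131_42_39 : Ent 4 := ⟨[a0, a63, a106], [a131, a42, a66], (M a48 (F (T t304 (L l28 (L l76 (T t579 (L l76 (L l197 (T t551 N)))))))))⟩
def e0_63_106__131_42_40 : Ent 4 := ⟨[a0, a63, a106], [a131, a42, a67], (M a48 (L l307 (F (T t309 (L l76 (L l197 (T t551 (L l28 (L l76 (T t579 (K a3 (M a195 (F (T t585 (L l152 (L l197 (L l451 (T t4663 N))))))) (K a195 (M a3 (F (T t585 (L l28 (L l487 (T t559 N)))))) N))))))))))))⟩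
def e0_63_106__131_42_41 : Ent 4 := ⟨[a0, a63, a106], [a131, a42, a68], (M a48 (F (T t309 (L l80 (L l197 (T t551 (L l28 (L l80 (T t579 N)))))))))⟩
def e0_63_106__131_42_42 : Ent 4 := ⟨[a0, a63, a106], [a131, a42, a69], (M a48 (F (T t309 (L l84 (L l197 (T t551 (L l28 (L l84 (T t579 N)))))))))⟩
def e0_63_106__131_42_43 : Ent 4 := ⟨[a0, a63, a106], [a131, a42, a70], (M a48 (F (T t309 (L l197 (T t551 (L l28 (T t579 N)))))))⟩
def e0_63_106__131_42_44 : Ent 4 := ⟨[a0, a63, a106], [a131, a42, a71], (M a48 (F (T t309 (L l197 (T t551 (L l28 (T t579 N)))))))⟩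
def e0_63_106__131_42_45 : Ent 4 := ⟨[a0, a63, a106], [a131, a42, a72], (M a48 (F (T t304 (L l28 (L l80 (T t579 (L l80 (L l197 (T t551 N)))))))))⟩
def e0_63_106__131_42_46 : Ent 4 := ⟨[a0, a63, a106], [a131, a42, a73], (M a48 (F (T t309 (L l197 (T t551 (L l28 (T t579 N)))))))⟩
def e0_63_106__131_42_47 : Ent 4 := ⟨[a0, a63, a106], [a131, a42, a74], (M a48 (F (T t578 (L l28 (L l84 (L l318 (T t579 (L l84 (L l197 (T t551 N))))))))))⟩
def e0_63_106__131_42_48 : Ent 4 := ⟨[a0, a63, a106], [a131, a42, a75], (M a48 (F (T t309 (L l197 (T t551 (L l28 (T t579 N)))))))⟩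
def e0_63_106__131_42_49 : Ent 4 := ⟨[a0, a63, a106], [a131, a42, a76], (M a48 (F (T t309 (L l80 (L l197 (T t551 (L l28 (L l80 (T t579 N)))))))))⟩
def e0_63_106__131_42_50 : Ent 4 := ⟨[a0, a63, a106], [a131, a42, a77], (M a48 (F (T t309 (L l197 (T t551 (L l28 (T t579 N)))))))⟩
def e0_63_106__131_42_51 : Ent 4 := ⟨[a0, a63, a106], [a131, a42, a78], (M a48 (F (T t309 (L l197 (T t551 (L l28 (T t579 N)))))))⟩
def e0_63_106__131_42_52 : Ent 4 := ⟨[a0, a63, a106], [a131, a42, a79], (M a48 (F (T t309 (L l84 (L l197 (T t551 (L l28 (L l84 (T t579 N)))))))))⟩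
def e0_63_106__131_42_53 : Ent 4 := ⟨[a0, a63, a106], [a131, a42, a84], (M a48 (F (T t309 (L l140 (L l197 (T t551 (L l28 (L l140 (T t579 N)))))))))⟩
def e0_63_106__131_42_54 : Ent 4 := ⟨[a0, a63, a106], [a131, a42, a85], (M a48 (F (T t309 (L l197 (L l347 (T t551 (L l54 (T t777 (L l152 (L l368 (T t6465 (K a192 (M a240 (F (L l296 (T t781 (L l159 (L l236 (T t6471 (L l54 (L l236 (L l339 (T t6472 (L l197 (L l339 (T t6473 N)))))))))))))) N))))))))))))⟩
def e0_63_106__131_42_55 : Ent 4 := ⟨[a0, a63, a106], [a131, a42, a86], (M a48 (F (T t309 (L l197 (L l351 (T t551 (L l28 (T t579 N))))))))⟩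
def e0_63_106__131_42_56 : Ent 4 := ⟨[a0, a63, a106], [a131, a42, a87], (M a48 (F (T t309 (L l197 (T t551 (L l28 (L l367 (T t579 N))))))))⟩
def e0_63_106__131_42_57 : Ent 4 := ⟨[a0, a63, a106], [a131, a42, a88], (M a48 (F (T t309 (L l197 (L l478 (T t551 (L l28 (T t579 N))))))))⟩
def e0_63_106__131_42_58 : Ent 4 := ⟨[a0, a63, a106], [a131, a42, a89], (M a48 (F (T t309 (L l197 (L l371 (T t551 (L l28 (T t579 N))))))))⟩
def e0_63_106__131_42_59 : Ent 4 := ⟨[a0, a63, a106], [a131, a42, a90], (M a48 (F (T t309 (L l197 (L l375 (L l483 (T t551 (L l28 (T t579 N)))))))))⟩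
def e0_63_106__131_42_60 : Ent 4 := ⟨[a0, a63, a106], [a131, a42, a91], (M a48 (F (T t309 (L l197 (T t551 (L l28 (T t579 N)))))))⟩
def e0_63_106__131_42_61 : Ent 4 := ⟨[a0, a63, a106], [a131, a42, a92], (M a48 (F (T t309 (L l197 (T t551 (L l28 (T t579 N)))))))⟩
def e0_63_106__131_42_62 : Ent 4 := ⟨[a0, a63, a106], [a131, a42, a93], (M a48 (F (T t309 (L l197 (T t551 (L l28 (L l362 (T t579 N))))))))⟩
def e0_63_106__131_42_63 : Ent 4 := ⟨[a0, a63, a106], [a131, a42, a94], (M a48 (F (T t309 (L l197 (T t551 (L l28 (T t579 N)))))))⟩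
def e0_63_106__131_42_64 : Ent 4 := ⟨[a0, a63, a106], [a131, a42, a95], (M a48 (F (T t309 (L l197 (T t551 (L l28 (L l361 (T t579 N))))))))⟩
def e0_63_106__131_42_65 : Ent 4 := ⟨[a0, a63, a106], [a131, a42, a104], (M a48 (F (T t304 (L l28 (L l140 (T t579 (L l100 (L l140 (L l197 (T t551 N))))))))))⟩
def e0_63_106__131_42_66 : Ent 4 := ⟨[a0, a63, a106], [a131, a42, a105], (M a48 (F (T t309 (L l197 (L l515 (T t551 (L l28 (T t579 N))))))))⟩
def e0_63_106__131_42_67 : Ent 4 := ⟨[a0, a63, a106], [a131, a42, a107], (M a48 (F (T t309 (L l197 (T t551 (L l28 (T t579 N)))))))⟩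
def e0_63_106__131_42_68 : Ent 4 := ⟨[a0, a63, a106], [a131, a42, a108], (M a48 (F (T t309 (L l100 (L l197 (T t551 (L l28 (T t579 N))))))))⟩
def e0_63_106__131_42_69 : Ent 4 := ⟨[a0, a63, a106], [a131, a42, a109], (M a48 (F (T t309 (L l197 (T t551 (L l28 (T t579 N)))))))⟩
def e0_63_106__131_42_70 : Ent 4 := ⟨[a0, a63, a106], [a131, a42, a110], (M a48 (F (T t309 (L l197 (T t551 (L l28 (T t579 N)))))))⟩
def e0_63_106__131_42_71 : Ent 4 := ⟨[a0, a63, a106], [a131, a42, a111], (M a240 (F (T t4779 (T t817 (L l137 (T t4781 N))))))⟩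
def e0_63_106__131_42_72 : Ent 4 := ⟨[a0, a63, a106], [a131, a42, a124], (M a48 (F (T t309 (L l140 (L l197 (T t551 (L l28 (L l140 (T t579 N)))))))))⟩
def e0_63_106__131_42_73 : Ent 4 := ⟨[a0, a63, a106], [a131, a42, a125], (M a48 (F (T t309 (L l197 (T t551 (L l28 (T t579 N)))))))⟩
def e0_63_106__131_42_74 : Ent 4 := ⟨[a0, a63, a106], [a131, a42, a126], (M a48 (F (T t309 (L l197 (T t551 (L l28 (T t579 N)))))))⟩
def e0_63_106__131_42_75 : Ent 4 := ⟨[a0, a63, a106], [a131, a42, a127], (M a48 (F (T t309 (L l197 (T t551 (L l28 (T t6454 (L l28 (T t6479 N)))))))))⟩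
def e0_63_106__131_42_76 : Ent 4 := ⟨[a0, a63, a106], [a131, a42, a128], (M a48 (L l152 (F (T t585 (L l28 (T t579 (L l192 (L l220 (T t6480 (L l54 (L l160 (T t6481 (K a129 (M a130 (F (T t304 (L l305 (T t596 N))))) (K a130 (M a129 (F (T t3405 (L l28 (T t579 (L l220 (L l306 (T t7342 N)))))))) N))))))))))))))⟩
def e0_63_106__131_42_77 : Ent 4 := ⟨[a0, a63, a106], [a131, a42, a129], (M a48 (L l152 (F (T t304 (L l28 (T t579 (L l197 (L l217 (T t551 (K a128 (M a130 (F (T t304 (L l305 (T t596 N))))) (K a130 (M a128 (F (T t7289 (L l28 (T t579 (L l309 (T t3405 N))))))) N)))))))))))⟩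
def e0_63_106__131_42_78 : Ent 4 := ⟨[a0, a63, a106], [a131, a42, a130], (M a48 (L l152 (F (T t309 (L l197 (T t551 (L l28 (T t579 (K a128 (M a129 (F (T t3405 (L l28 (T t579 (L l220 (L l306 (T t7342 N)))))))) (K a129 (M a128 (F (T t7289 (L l28 (T t579 (L l309 (T t3405 N))))))) N))))))))))⟩
def e0_63_106__131_42_79 : Ent 4 := ⟨[a0, a63, a106], [a131, a42, a132], (M a48 (F (T t304 (L l28 (T t579 (L l197 (L l202 (T t551 N))))))))⟩
def e0_63_106__131_42_80 : Ent 4 := ⟨[a0, a63, a106], [a131, a42, a133], (M a48 (F (T t585 (L l197 (L l199 (T t551 (L l28 (T t579 N))))))))⟩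
def e0_63_106__131_42_81 : Ent 4 := ⟨[a0, a63, a106], [a131, a42, a134], (M a48 (L l161 (F (T t309 (L l197 (T t551 (L l28 (T t579 (K a140 (M a137 (F (T t578 (L l28 (T t579 (L l197 (L l222 (T t551 N)))))))) (K a137 (M a140 (F (T t578 (L l28 (T t579 (L l197 (T t551 N))))))) N))))))))))⟩
def e0_63_106__131_42_82 : Ent 4 := ⟨[a0, a63, a106], [a131, a42, a135], (M a48 (L l159 (F (T t309 (L l197 (T t551 (L l28 (T t579 (K a139 (M a143 (F (T t3405 (L l197 (T t551 (L l197 (T t7346 N))))))) (K a143 (M a139 (F (T t7347 (L l28 (T t6462 N))))) N))))))))))⟩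
def e0_63_106__131_42_83 : Ent 4 := ⟨[a0, a63, a106], [a131, a42, a136], (M a48 (F (T t309 (L l197 (T t551 (L l28 (T t579 N)))))))⟩
def e0_63_106__131_42_84 : Ent 4 := ⟨[a0, a63, a106], [a131, a42, a137], (M a48 (L l161 (F (T t309 (L l197 (T t551 (L l28 (T t579 (K a140 (M a134 (F (T t578 (L l28 (T t579 (L l197 (L l222 (T t551 N)))))))) (K a134 (M a140 (F (T t578 (L l28 (T t579 (L l197 (T t551 N))))))) N))))))))))⟩
def e0_63_106__131_42_85 : Ent 4 := ⟨[a0, a63, a106], [a131, a42, a138], (M a48 (F (T t578 (L l28 (L l318 (T t579 (L l197 (T t551 N))))))))⟩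
def e0_63_106__131_42_86 : Ent 4 := ⟨[a0, a63, a106], [a131, a42, a139], (M a48 (L l159 (F (T t309 (L l197 (T t551 (L l28 (T t579 (K a135 (M a143 (F (T t3405 (L l197 (T t551 (L l197 (T t7346 N))))))) (K a143 (M a135 (F (T t3405 (L l28 (T t6462 (L l28 (T t579 N))))))) N))))))))))⟩
def e0_63_106__131_42_87 : Ent 4 := ⟨[a0, a63, a106], [a131, a42, a140], (M a48 (L l161 (F (T t309 (L l197 (L l222 (T t551 (L l28 (T t579 (K a137 (M a134 (F (T t578 (L l28 (T t579 (L l197 (L l222 (T t551 N)))))))) (K a134 (M a137 (F (T t578 (L l28 (T t579 (L l197 (L l222 (T t551 N)))))))) N)))))))))))⟩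
def e0_63_106__131_42_88 : Ent 4 := ⟨[a0, a63, a106], [a131, a42, a141], (M a48 (F (T t309 (L l197 (T t551 (L l28 (T t579 N)))))))⟩
def e0_63_106__131_42_89 : Ent 4 := ⟨[a0, a63, a106], [a131, a42, a142], (M a48 (F (T t309 (L l197 (T t551 (L l28 (T t579 N)))))))⟩
def e0_63_106__131_42_90 : Ent 4 := ⟨[a0, a63, a106], [a131, a42, a143], (M a48 (L l159 (F (T t309 (L l28 (T t6462 (L l28 (T t579 (K a135 (M a139 (F (T t7347 (L l28 (T t6462 N))))) (K a139 (M a135 (F (T t3405 (L l28 (T t6462 (L l28 (T t579 N))))))) N))))))))))⟩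
def e0_63_106__131_42_91 : Ent 4 := ⟨[a0, a63, a106], [a131, a42, a148], (M a48 (F (T t304 (L l28 (T t579 (L l163 (L l197 (T t551 N))))))))⟩
def e0_63_106__131_42_92 : Ent 4 := ⟨[a0, a63, a106], [a131, a42, a149], (M a240 (F (L l199 (T t4781 (L l199 (L l347 (T t6484 (L l28 (L l197 (L l199 (L l375 (T t6483 (L l28 (L l152 (L l199 (L l220 (L l375 (T t6485 (K a133 (M a165 (F (T t6486 (L l28 (L l152 (L l160 (L l220 (L l311 (L l375 (T t6487 (L l152 (L l160 (L l220 (T t6488 N)))))))))))))) (K a165 (M a90 (L l199 (F (T t4788 (L l180 (T t6489 (K a133 (Fr a181 a122 l447 (V t6489)) (K a181 (M a133 (F (L l180 (T t6489 (L l159 (L l227 (T t6746 (L l455 (T t6490 N))))))))) N)))))))) (K a181 (M a165 (F (T t6492 (T t6493 (L l28 (L l152 (L l220 (L l375 (T t6487 (L l152 (L l220 (T t6488 N)))))))))))) (K a74 (M a48 (F (T t6494 (L l199 (L l491 (T t781 (L l28 (L l84 (L l318 (L l491 (T t579 N))))))))))) (K a90 (M a48 (L l375 (F (L l197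 (T t3318 (L l199 (L l462 (L l491 (T t781 (L l28 (L l491 (T t579 (K a208 (M a31 (F (L l28 (L l347 (T t6495 (L l151 (L l219 (L l220 (T t6496 N))))))))) (K a31 (M a208 (F (T t6497 (L l151 (L l219 (L l220 (T t6496 N))))))) N)))))))))))))) (K a122 (M a48 (F (T t1915 (L l28 (L l491 (T t579 (L l114 (L l159 (L l491 (T t6471 N)))))))))) N))))))))))))))))))))))))⟩
def e0_63_106__131_42_93 : Ent 4 := ⟨[a0, a63, a106], [a131, a42, a150], (M a48 (L l221 (F (T t309 (L l163 (L l197 (T t551 (L l28 (T t579 (K a188 (M a169 (F (T t304 (L l66 (T t6997 N))))) (K a169 (M a188 (F (T t304 (L l28 (T t579 (L l163 (L l197 (L l217 (T t551 N))))))))) N)))))))))))⟩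
def e0_63_106__131_42_94 : Ent 4 := ⟨[a0, a63, a106], [a131, a42, a151], (M a48 (L l219 (F (T t309 (L l163 (L l197 (T t551 (L l28 (T t579 (K a171 (M a191 (F (T t7348 (L l197 (T t7349 (L l163 (T t307 N))))))) (K a191 (M a171 (F (T t3405 (L l163 (L l190 (L l197 (L l220 (T t551 (L l28 (T t6498 (L l28 (T t6499 N)))))))))))) N)))))))))))⟩
def e0_63_106__131_42_95 : Ent 4 := ⟨[a0, a63, a106], [a131, a42, a152], (M a48 (F (T t304 (L l28 (T t579 (L l197 (L l222 (T t551 N))))))))⟩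
def e0_63_106__131_42_96 : Ent 4 := ⟨[a0, a63, a106], [a131, a42, a153], (M a48 (F (T t309 (L l167 (L l197 (T t551 (L l28 (T t579 N))))))))⟩
def e0_63_106__131_42_97 : Ent 4 := ⟨[a0, a63, a106], [a131, a42, a154], (M a240 (F (T t4779 (L l170 (L l368 (L l512 (T t817 (T t4781 N))))))))⟩
def e0_63_106__131_42_98 : Ent 4 := ⟨[a0, a63, a106], [a131, a42, a155], (M a48 (F (T t309 (L l197 (T t551 (L l28 (L l367 (T t579 N))))))))⟩
def e0_63_106__131_42_99 : Ent 4 := ⟨[a0, a63, a106], [a131, a42, a156], (M a48 (F (T t304 (L l28 (T t579 (L l197 (T t551 N)))))))⟩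
def e0_63_106__131_42_100 : Ent 4 := ⟨[a0, a63, a106], [a131, a42, a157], (M a48 (F (T t309 (L l167 (L l197 (T t551 (L l28 (T t579 N))))))))⟩
def e0_63_106__131_42_101 : Ent 4 := ⟨[a0, a63, a106], [a131, a42, a158], (M a48 (F (T t309 (L l197 (T t551 (L l28 (L l362 (T t579 N))))))))⟩
def e0_63_106__131_42_102 : Ent 4 := ⟨[a0, a63, a106], [a131, a42, a159], (M a240 (F (T t4779 (L l170 (T t817 (L l361 (T t4781 N)))))))⟩
def e0_63_106__131_42_103 : Ent 4 := ⟨[a0, a63, a106], [a131, a42, a168], (M a48 (F (T t309 (L l197 (T t551 (L l28 (L l400 (T t579 N))))))))⟩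
def e0_63_106__131_42_104 : Ent 4 := ⟨[a0, a63, a106], [a131, a42, a169], (M a48 (L l221 (F (T t309 (L l197 (L l217 (T t551 (L l28 (T t579 (K a188 (M a150 (F (T t309 (L l22 (T t6858 N))))) (K a150 (M a188 (F (T t304 (L l28 (T t579 (L l163 (L l197 (L l217 (T t551 N))))))))) N)))))))))))⟩
def e0_63_106__131_42_105 : Ent 4 := ⟨[a0, a63, a106], [a131, a42, a170], (M a48 (F (T t309 (L l197 (L l220 (T t551 (L l28 (L l206 (L l219 (L l220 (L l404 (T t552 (L l28 (L l206 (L l404 (T t553 N))))))))))))))))⟩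
def e0_63_106__131_42_106 : Ent 4 := ⟨[a0, a63, a106], [a131, a42, a171], (M a48 (L l219 (F (T t309 (L l197 (T t551 (L l28 (T t579 (K a151 (M a191 (F (T t7348 (L l197 (T t7349 (L l163 (T t307 N))))))) (K a191 (M a151 (F (T t3405 (L l391 (T t3628 N))))) N))))))))))⟩
def e0_63_106__131_42_107 : Ent 4 := ⟨[a0, a63, a106], [a131, a42, a172], (M a48 (F (T t309 (L l197 (T t551 (L l28 (T t579 N)))))))⟩
def e0_63_106__131_42_108 : Ent 4 := ⟨[a0, a63, a106], [a131, a42, a173], (M a48 (F (T t309 (L l197 (T t551 (L l28 (T t579 N)))))))⟩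
def e0_63_106__131_42_109 : Ent 4 := ⟨[a0, a63, a106], [a131, a42, a174], (M a48 (F (T t309 (L l197 (T t551 (L l28 (T t579 N)))))))⟩
def e0_63_106__131_42_110 : Ent 4 := ⟨[a0, a63, a106], [a131, a42, a175], (M a48 (F (T t309 (L l197 (T t551 (L l28 (T t579 N)))))))⟩
def e0_63_106__131_42_111 : Ent 4 := ⟨[a0, a63, a106], [a131, a42, a188], (M a48 (L l221 (F (T t309 (L l186 (L l197 (T t551 (L l28 (T t579 (K a169 (M a150 (F (T t309 (L l22 (T t6858 N))))) (K a150 (M a169 (F (T t304 (L l66 (T t6997 N))))) N)))))))))))⟩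
def e0_63_106__131_42_112 : Ent 4 := ⟨[a0, a63, a106], [a131, a42, a189], (M a48 (F (T t309 (L l197 (L l217 (T t551 (L l28 (T t579 N))))))))⟩
def e0_63_106__131_42_113 : Ent 4 := ⟨[a0, a63, a106], [a131, a42, a190], (M a48 (F (T t309 (L l197 (T t551 (L l28 (T t579 N)))))))⟩
def e0_63_106__131_42_114 : Ent 4 := ⟨[a0, a63, a106], [a131, a42, a191], (M a48 (L l219 (F (T t309 (L l190 (L l197 (L l220 (T t551 (L l28 (T t6498 (L l28 (T t6499 (K a151 (M a171 (F (T t3405 (L l163 (L l190 (L l197 (L l220 (T t551 (L l28 (T t6498 (L l28 (T t6499 N)))))))))))) (K a171 (M a151 (F (T t3405 (L l391 (T t3628 N))))) N))))))))))))))⟩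
def e0_63_106__131_42_115 : Ent 4 := ⟨[a0, a63, a106], [a131, a42, a192], (M a240 (F (L l339 (T t4781 (L l236 (L l339 (T t6500 (L l296 (L l339 (T t6501 (L l28 (L l152 (L l339 (T t6502 (L l219 (L l339 (T t6503 (K a133 (M a90 (L l339 (F (T t4788 (T t6504 (K a74 (Fr a15 a165 l483 (V t6505)) (K a15 (Fr a74 a122 l130 (V t6506)) N))))))) (K a85 (M a12 (F (L l292 (T t2745 (L l272 (L l339 (T t6595 N))))))) (K a181 (M a12 (F (T t3358 (L l56 (L l272 (T t2415 (L l272 (T t6512 N)))))))) (K a74 (M a165 (L l339 (F (T t6492 (L l296 (T t6513 (L l54 (L l84 (L l318 (T t6514 (K a133 (Fr a15 a90 l483 (V t6515)) (K a15 (M a133 (F (T t6516 (L l28 (L l236 (L l318 (L l484 (T t6517 N)))))))) N)))))))))))) (K a90 (M a252 (F (L l334 (T t6518 (L l148 (L l489 (T t6519 (L l309 (T t6675 N))))))))) (K a122 (M a12 (F (T t2747 (L l56 (L l272 (T t2415 (L l272 (T t6512 N)))))))) (K a15 (M a248 (L l339 (F (T t6520 (L l22 (T t6521 (K a133 (M a74 (F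 (T t6522 (L l3 (L l56 (L l334 (T t6523 N))))))) (K a74 (M a133 (F (T t3821 (T t6520 (L l469 (L l484 (T t6524 N))))))) N)))))))) N))))))))))))))))))))))))⟩
def e0_63_106__131_42_116 : Ent 4 := ⟨[a0, a63, a106], [a131, a42, a193], (M a48 (F (T t585 (L l197 (L l515 (T t551 (L l28 (T t579 N))))))))⟩
def e0_63_106__131_42_117 : Ent 4 := ⟨[a0, a63, a106], [a131, a42, a194], (M a48 (F (T t578 (L l28 (L l234 (T t579 (L l197 (T t551 N))))))))⟩
def e0_63_106__131_42_118 : Ent 4 := ⟨[a0, a63, a106], [a131, a42, a195], (M a48 (L l307 (F (T t585 (L l197 (L l273 (T t551 (L l28 (T t579 (K a3 (M a67 (F (T t585 (L l197 (L l273 (L l453 (T t551 (L l28 (T t579 N))))))))) (K a67 (M a3 (F (T t585 (L l28 (L l487 (T t559 N)))))) N)))))))))))⟩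
def e0_63_106__131_42_119 : Ent 4 := ⟨[a0, a63, a106], [a131, a42, a196], (M a48 (F (T t585 (L l197 (L l495 (T t551 (L l28 (T t579 N))))))))⟩
def e0_63_106__131_42_120 : Ent 4 := ⟨[a0, a63, a106], [a131, a42, a197], (M a240 (F (L l236 (T t4779 (L l491 (T t817 (T t4781 N)))))))⟩
def e0_63_106__131_42_121 : Ent 4 := ⟨[a0, a63, a106], [a131, a42, a198], (M a48 (F (T t578 (L l28 (L l234 (T t579 (L l197 (T t551 N))))))))⟩
def e0_63_106__131_42_122 : Ent 4 := ⟨[a0, a63, a106], [a131, a42, a199], (M a48 (F (T t309 (L l197 (T t551 (L l28 (T t579 N)))))))⟩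
def e0_63_106__131_42_123 : Ent 4 := ⟨[a0, a63, a106], [a131, a42, a200], (M a48 (F (T t578 (L l28 (L l230 (T t579 (L l197 (T t551 N))))))))⟩
def e0_63_106__131_42_124 : Ent 4 := ⟨[a0, a63, a106], [a131, a42, a201], (M a48 (F (T t578 (L l28 (L l230 (T t579 (L l197 (T t551 N))))))))⟩
def e0_63_106__131_42_125 : Ent 4 := ⟨[a0, a63, a106], [a131, a42, a202], (M a240 (F (L l236 (T t4786 (T t817 (L l318 (T t4781 N)))))))⟩
def e0_63_106__131_42_126 : Ent 4 := ⟨[a0, a63, a106], [a131, a42, a203], (M a48 (F (T t2348 (L l28 (L l230 (T t579 (L l197 (T t551 N))))))))⟩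
def e0_63_106__131_42_127 : Ent 4 := ⟨[a0, a63, a106], [a131, a42, a204], (M a48 (F (T t585 (L l197 (L l298 (T t551 (L l28 (T t579 N))))))))⟩
def e0_63_106__131_42_128 : Ent 4 := ⟨[a0, a63, a106], [a131, a42, a205], (M a48 (F (T t309 (L l197 (T t551 (L l28 (T t579 N)))))))⟩
def e0_63_106__131_42_129 : Ent 4 := ⟨[a0, a63, a106], [a131, a42, a206], (M a48 (F (T t2348 (L l28 (L l234 (T t579 (L l197 (T t551 N))))))))⟩
def e0_63_106__131_42_130 : Ent 4 := ⟨[a0, a63, a106], [a131, a42, a207], (M a240 (F (T t6525 (L l512 (T t817 (T t4781 N))))))⟩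
def e0_63_106__131_42_131 : Ent 4 := ⟨[a0, a63, a106], [a131, a42, a212], (M a48 (F (T t304 (L l28 (T t579 (L l197 (L l351 (T t551 N))))))))⟩
def e0_63_106__131_42_132 : Ent 4 := ⟨[a0, a63, a106], [a131, a42, a213], (M a48 (F (T t304 (L l28 (L l246 (T t579 (L l197 (L l347 (T t551 N)))))))))⟩
def e0_63_106__131_42_133 : Ent 4 := ⟨[a0, a63, a106], [a131, a42, a214], (M a48 (F (T t309 (L l197 (T t551 (L l28 (T t579 N)))))))⟩
def e0_63_106__131_42_134 : Ent 4 := ⟨[a0, a63, a106], [a131, a42, a215], (M a48 (F (T t309 (L l197 (T t551 (L l28 (L l245 (T t579 N))))))))⟩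
def e0_63_106__131_42_135 : Ent 4 := ⟨[a0, a63, a106], [a131, a42, a216], (M a48 (F (T t309 (L l197 (L l298 (T t551 (L l28 (T t579 N))))))))⟩
def e0_63_106__131_42_136 : Ent 4 := ⟨[a0, a63, a106], [a131, a42, a217], (M a48 (F (T t309 (L l197 (T t551 (L l28 (T t579 N)))))))⟩
def e0_63_106__131_42_137 : Ent 4 := ⟨[a0, a63, a106], [a131, a42, a218], (M a48 (F (T t2348 (L l28 (L l246 (L l282 (T t579 (L l197 (L l303 (T t551 N))))))))))⟩
def e0_63_106__131_42_138 : Ent 4 := ⟨[a0, a63, a106], [a131, a42, a219], (M a48 (F (T t309 (L l197 (T t551 (L l28 (L l245 (T t579 N))))))))⟩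
def e0_63_106__131_42_139 : Ent 4 := ⟨[a0, a63, a106], [a131, a42, a220], (M a48 (F (T t309 (L l197 (T t551 (L l28 (L l241 (T t579 N))))))))⟩
def e0_63_106__131_42_140 : Ent 4 := ⟨[a0, a63, a106], [a131, a42, a221], (M a48 (F (T t309 (L l197 (T t551 (L l28 (L l241 (T t579 N))))))))⟩
def e0_63_106__131_42_141 : Ent 4 := ⟨[a0, a63, a106], [a131, a42, a222], (M a48 (F (T t309 (L l197 (T t551 (L l28 (L l241 (T t579 N))))))))⟩
def e0_63_106__131_42_142 : Ent 4 := ⟨[a0, a63, a106], [a131, a42, a223], (M a240 (F (T t4786 (L l368 (T t817 (L l361 (T t4781 N)))))))⟩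
def e0_63_106__131_42_143 : Ent 4 := ⟨[a0, a63, a106], [a131, a42, a232], (M a48 (F (T t304 (L l28 (T t579 (L l197 (T t551 N)))))))⟩
def e0_63_106__131_42_144 : Ent 4 := ⟨[a0, a63, a106], [a131, a42, a233], (M a48 (F (T t309 (L l197 (T t551 (L l28 (T t579 N)))))))⟩
def e0_63_106__131_42_145 : Ent 4 := ⟨[a0, a63, a106], [a131, a42, a234], (M a48 (F (T t578 (L l28 (L l282 (T t579 (L l197 (T t551 N))))))))⟩
def e0_63_106__131_42_146 : Ent 4 := ⟨[a0, a63, a106], [a131, a42, a235], (M a48 (F (T t309 (L l197 (T t551 (L l28 (T t579 N)))))))⟩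
def e0_63_106__131_42_147 : Ent 4 := ⟨[a0, a63, a106], [a131, a42, a236], (M a48 (F (T t309 (L l197 (T t551 (L l28 (L l400 (T t579 N))))))))⟩
def e0_63_106__131_42_148 : Ent 4 := ⟨[a0, a63, a106], [a131, a42, a237], (M a48 (F (T t309 (L l197 (T t551 (L l28 (T t579 N)))))))⟩
def e0_63_106__131_42_149 : Ent 4 := ⟨[a0, a63, a106], [a131, a42, a238], (M a48 (F (T t309 (L l197 (T t551 (L l28 (T t579 N)))))))⟩
def e0_63_106__131_42_150 : Ent 4 := ⟨[a0, a63, a106], [a131, a42, a239], (M a48 (F (T t309 (L l197 (T t551 (L l28 (L l289 (L l404 (T t579 N)))))))))⟩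
def e0_63_106__131_42_151 : Ent 4 := ⟨[a0, a63, a106], [a131, a42, a252], (M a48 (F (T t585 (L l197 (L l262 (T t551 (L l28 (T t579 N))))))))⟩
def e0_63_106__131_42_152 : Ent 4 := ⟨[a0, a63, a106], [a131, a42, a253], (M a48 (F (T t309 (L l197 (T t551 (L l28 (T t579 N)))))))⟩
def e0_63_106__131_42_153 : Ent 4 := ⟨[a0, a63, a106], [a131, a42, a254], (M a48 (F (T t309 (L l197 (T t551 (L l28 (T t579 N)))))))⟩
def e0_63_106__131_42_154 : Ent 4 := ⟨[a0, a63, a106], [a131, a42, a255], (M a48 (F (T t585 (L l197 (L l266 (T t551 (L l28 (L l469 (T t6526 (L l28 (L l152 (L l289 (T t6527 N)))))))))))))⟩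
def b0_63_106__131_42 : Blk 4 := ⟨[0, 63, 106], [131, 42], [1, 2, 3, 4, 5, 6, 7, 8, 9, 10, 11, 12, 13, 14, 15, 20, 21, 22, 23, 24, 25, 26, 27, 28, 29, 30, 31, 40, 41, 43, 44, 45, 46, 47, 60, 61, 62, 64, 65, 66, 67, 68, 69, 70, 71, 72, 73, 74, 75, 76, 77, 78, 79, 84, 85, 86, 87, 88, 89, 90, 91, 92, 93, 94, 95, 104, 105, 107, 108, 109, 110, 111, 124, 125, 126, 127, 128, 129, 130, 132, 133, 134, 135, 136, 137, 138, 139, 140, 141, 142, 143, 148, 149, 150, 151, 152, 153, 154, 155, 156, 157, 158, 159, 168, 169, 170, 171, 172, 173, 174, 175, 188, 189, 190, 191, 192, 193, 194, 195, 196, 197, 198, 199, 200, 201, 202, 203, 204, 205, 206, 207, 212, 213, 214, 215, 216, 217, 218, 219, 220, 221, 222, 223, 232, 233, 234, 235, 236, 237, 238, 239, 252, 253, 254, 255], [e0_63_106__131_42_0, e0_63_106__131_42_1, e0_63_106__131_42_2, e0_63_106__131_42_3, e0_63_106__131_42_4, e0_63_106__131_42_5, e0_63_106__131_42_6, e0_63_106__131_42_7,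 e0_63_106__131_42_8, e0_63_106__131_42_9, e0_63_106__131_42_10, e0_63_106__131_42_11, e0_63_106__131_42_12, e0_63_106__131_42_13, e0_63_106__131_42_14, e0_63_106__131_42_15, e0_63_106__131_42_16, e0_63_106__131_42_17, e0_63_106__131_42_18, e0_63_106__131_42_19, e0_63_106__131_42_20, e0_63_106__131_42_21, e0_63_106__131_42_22, e0_63_106__131_42_23, e0_63_106__131_42_24, e0_63_106__131_42_25, e0_63_106__131_42_26, e0_63_106__131_42_27, e0_63_106__131_42_28, e0_63_106__131_42_29, e0_63_106__131_42_30, e0_63_106__131_42_31, e0_63_106__131_42_32, e0_63_106__131_42_33, e0_63_106__131_42_34, e0_63_106__131_42_35, e0_63_106__131_42_36, e0_63_106__131_42_37, e0_63_106__131_42_38, e0_63_106__131_42_39, e0_63_106__131_42_40, e0_63_106__131_42_41, e0_63_106__131_42_42, e0_63_106__131_42_43, e0_63_106__131_42_44, e0_63_106__131_42_45, e0_63_106__131_42_46, e0_63_106__131_42_47, e0_63_106__131_42_48, e0_63_106__131_42_49, e0_63_106__131_42_50,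 e0_63_106__131_42_51, e0_63_106__131_42_52, e0_63_106__131_42_53, e0_63_106__131_42_54, e0_63_106__131_42_55, e0_63_106__131_42_56, e0_63_106__131_42_57, e0_63_106__131_42_58, e0_63_106__131_42_59, e0_63_106__131_42_60, e0_63_106__131_42_61, e0_63_106__131_42_62, e0_63_106__131_42_63, e0_63_106__131_42_64, e0_63_106__131_42_65, e0_63_106__131_42_66, e0_63_106__131_42_67, e0_63_106__131_42_68, e0_63_106__131_42_69, e0_63_106__131_42_70, e0_63_106__131_42_71, e0_63_106__131_42_72, e0_63_106__131_42_73, e0_63_106__131_42_74, e0_63_106__131_42_75, e0_63_106__131_42_76, e0_63_106__131_42_77, e0_63_106__131_42_78, e0_63_106__131_42_79, e0_63_106__131_42_80, e0_63_106__131_42_81, e0_63_106__131_42_82, e0_63_106__131_42_83, e0_63_106__131_42_84, e0_63_106__131_42_85, e0_63_106__131_42_86, e0_63_106__131_42_87, e0_63_106__131_42_88, e0_63_106__131_42_89, e0_63_106__131_42_90, e0_63_106__131_42_91, e0_63_106__131_42_92,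 e0_63_106__131_42_93, e0_63_106__131_42_94, e0_63_106__131_42_95, e0_63_106__131_42_96, e0_63_106__131_42_97, e0_63_106__131_42_98, e0_63_106__131_42_99, e0_63_106__131_42_100, e0_63_106__131_42_101, e0_63_106__131_42_102, e0_63_106__131_42_103, e0_63_106__131_42_104, e0_63_106__131_42_105, e0_63_106__131_42_106, e0_63_106__131_42_107, e0_63_106__131_42_108, e0_63_106__131_42_109, e0_63_106__131_42_110, e0_63_106__131_42_111, e0_63_106__131_42_112, e0_63_106__131_42_113, e0_63_106__131_42_114, e0_63_106__131_42_115, e0_63_106__131_42_116, e0_63_106__131_42_117, e0_63_106__131_42_118, e0_63_106__131_42_119, e0_63_106__131_42_120, e0_63_106__131_42_121, e0_63_106__131_42_122, e0_63_106__131_42_123, e0_63_106__131_42_124, e0_63_106__131_42_125, e0_63_106__131_42_126, e0_63_106__131_42_127, e0_63_106__131_42_128, e0_63_106__131_42_129, e0_63_106__131_42_130, e0_63_106__131_42_131, e0_63_106__131_42_132, e0_63_106__131_42_133,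 e0_63_106__131_42_134, e0_63_106__131_42_135, e0_63_106__131_42_136, e0_63_106__131_42_137, e0_63_106__131_42_138, e0_63_106__131_42_139, e0_63_106__131_42_140, e0_63_106__131_42_141, e0_63_106__131_42_142, e0_63_106__131_42_143, e0_63_106__131_42_144, e0_63_106__131_42_145, e0_63_106__131_42_146, e0_63_106__131_42_147, e0_63_106__131_42_148, e0_63_106__131_42_149, e0_63_106__131_42_150, e0_63_106__131_42_151, e0_63_106__131_42_152, e0_63_106__131_42_153, e0_63_106__131_42_154], by decide +kernel, by decide +kernel⟩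
def e0_63_106__133_42_0 : Ent 4 := ⟨[a0, a63, a106], [a133, a42, a1], (M a48 (F (T t585 (L l199 (T t551 (L l28 (T t579 N)))))))⟩
def e0_63_106__133_42_1 : Ent 4 := ⟨[a0, a63, a106], [a133, a42, a2], (M a48 (L l66 (F (T t304 (L l28 (T t579 (L l199 (T t551 (K a22 (M a62 (F (T t304 (L l22 (L l306 (T t5926 N)))))) (K a62 (M a22 (F (T t304 (L l28 (T t579 (L l199 (T t551 N))))))) N))))))))))⟩
def e0_63_106__133_42_2 : Ent 4 := ⟨[a0, a63, a106], [a133, a42, a3], (M a48 (F (T t585 (L l199 (L l453 (T t551 (L l28 (T t579 N))))))))⟩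
def e0_63_106__133_42_3 : Ent 4 := ⟨[a0, a63, a106], [a133, a42, a5], (M a48 (L l311 (F (L l47 (T t304 (L l199 (T t551 (L l28 (L l47 (T t579 (K a69 (M a197 (F (L l339 (T t6631 (L l199 (T t6632 (L l28 (L l47 (L l84 (T t579 N)))))))))) (K a197 (M a69 (F (L l199 (L l236 (L l491 (T t578 (L l160 (T t446 (L l199 (L l491 (T t551 (L l160 (L l236 (L l339 (T t7350 N))))))))))))))) N))))))))))))⟩
def e0_63_106__133_42_4 : Ent 4 := ⟨[a0, a63, a106], [a133, a42, a6], (M a48 (F (T t585 (L l199 (T t551 (L l28 (T t579 N)))))))⟩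
def e0_63_106__133_42_5 : Ent 4 := ⟨[a0, a63, a106], [a133, a42, a7], (M a48 (L l315 (F (T t585 (L l199 (T t551 (L l28 (T t579 (K a196 (M a70 (F (T t304 (L l28 (T t579 (L l199 (L l495 (T t551 N)))))))) (K a70 (M a196 (F (T t304 (L l1 (L l199 (T t6695 (L l28 (T t579 N)))))))) N))))))))))⟩
def e0_63_106__133_42_6 : Ent 4 := ⟨[a0, a63, a106], [a133, a42, a10], (M a48 (L l54 (F (L l318 (T t304 (L l199 (T t551 (L l28 (L l318 (T t579 (K a26 (Fr a58 a53 l38 (V t6446)) (K a58 (M a26 (F (L l28 (T t4144 (L l160 (L l199 (T t6990 N))))))) N))))))))))))⟩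
def e0_63_106__133_42_7 : Ent 4 := ⟨[a0, a63, a106], [a133, a42, a11], (M a48 (F (T t585 (L l199 (T t551 (L l28 (T t579 N)))))))⟩
def e0_63_106__133_42_8 : Ent 4 := ⟨[a0, a63, a106], [a133, a42, a15], (M a48 (L l339 (F (T t585 (L l199 (L l483 (T t551 (L l28 (T t579 (K a192 (M a74 (F (L l28 (L l236 (T t579 (L l199 (L l296 (L l469 (L l483 (T t6619 (L l199 (L l483 (T t7351 (L l236 (L l483 (T t7352 N)))))))))))))))) (K a74 (Fr a192 a149 l519 (V t6558)) N)))))))))))⟩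
def e0_63_106__133_42_9 : Ent 4 := ⟨[a0, a63, a106], [a133, a42, a16], (M a12 (F (T t2414 (L l56 (T t2415 (L l199 (T t2305 N)))))))⟩
def e0_63_106__133_42_10 : Ent 4 := ⟨[a0, a63, a106], [a133, a42, a17], (M a48 (F (T t585 (L l199 (T t551 (L l28 (T t579 N)))))))⟩
def e0_63_106__133_42_11 : Ent 4 := ⟨[a0, a63, a106], [a133, a42, a18], (M a48 (F (T t585 (L l199 (T t551 (L l28 (T t579 N)))))))⟩
def e0_63_106__133_42_12 : Ent 4 := ⟨[a0, a63, a106], [a133, a42, a19], (M a48 (F (T t304 (L l28 (L l367 (T t579 (L l199 (T t551 N))))))))⟩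
def e0_63_106__133_42_13 : Ent 4 := ⟨[a0, a63, a106], [a133, a42, a21], (M a48 (F (L l47 (T t585 (L l199 (L l347 (T t551 (L l28 (L l47 (T t579 N))))))))))⟩
def e0_63_106__133_42_14 : Ent 4 := ⟨[a0, a63, a106], [a133, a42, a22], (M a48 (L l66 (F (T t585 (L l199 (T t551 (L l28 (T t579 (K a2 (M a62 (F (T t304 (L l22 (L l306 (T t5926 N)))))) (K a62 (M a2 (F (T t304 (L l19 (L l28 (T t342 N)))))) N))))))))))⟩
def e0_63_106__133_42_15 : Ent 4 := ⟨[a0, a63, a106], [a133, a42, a23], (M a48 (F (T t585 (L l199 (L l351 (T t551 (L l28 (T t579 N))))))))⟩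
def e0_63_106__133_42_16 : Ent 4 := ⟨[a0, a63, a106], [a133, a42, a26], (M a48 (L l54 (F (T t304 (L l28 (T t579 (L l199 (T t551 (K a10 (Fr a58 a53 l38 (V t6446)) (K a58 (M a10 (F (L l199 (T t551 (L l18 (L l311 (L l426 (T t6450 (L l160 (L l199 (L l426 (T t7353 (L l18 (L l311 (L l354 (T t6449 (L l18 (L l199 (L l311 (T t7354 (L l28 (L l160 (L l311 (L l339 (L l426 (T t7355 N)))))))))))))))))))))))))) N))))))))))⟩
def e0_63_106__133_42_17 : Ent 4 := ⟨[a0, a63, a106], [a133, a42, a27], (M a48 (F (T t585 (L l199 (T t551 (L l28 (T t579 N)))))))⟩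
def e0_63_106__133_42_18 : Ent 4 := ⟨[a0, a63, a106], [a133, a42, a31], (M a48 (F (T t585 (L l199 (L l375 (T t551 (L l28 (L l361 (T t579 N)))))))))⟩
def e0_63_106__133_42_19 : Ent 4 := ⟨[a0, a63, a106], [a133, a42, a32], (M a12 (L l28 (F (T t2414 (L l56 (T t2415 (L l199 (T t2305 (K a37 (M a47 (F (T t2414 (L l54 (L l376 (T t6764 N)))))) (K a47 (M a37 (F (T t2414 (L l56 (T t2415 (L l199 (T t2305 N))))))) N))))))))))⟩
def e0_63_106__133_42_20 : Ent 4 := ⟨[a0, a63, a106], [a133, a42, a33], (M a48 (F (T t304 (L l20 (L l28 (T t579 (L l199 (T t551 N))))))))⟩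
def e0_63_106__133_42_21 : Ent 4 := ⟨[a0, a63, a106], [a133, a42, a34], (M a48 (L l26 (F (T t304 (L l20 (L l28 (T t579 (L l199 (T t551 (K a38 (M a46 (F (T t304 (L l56 (L l378 (T t4030 N)))))) (K a46 (M a38 (F (T t304 (L l20 (L l28 (T t579 (L l199 (T t551 N)))))))) N)))))))))))⟩
def e0_63_106__133_42_22 : Ent 4 := ⟨[a0, a63, a106], [a133, a42, a35], (M a48 (F (T t304 (L l20 (L l28 (T t579 (L l199 (T t551 N))))))))⟩
def e0_63_106__133_42_23 : Ent 4 := ⟨[a0, a63, a106], [a133, a42, a37], (M a12 (L l28 (F (T t2414 (L l56 (T t2415 (L l199 (T t2305 (K a32 (M a47 (F (T t2414 (L l54 (L l376 (T t6764 N)))))) (K a47 (M a32 (F (T t2419 (L l51 (L l56 (T t682 N)))))) N))))))))))⟩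
def e0_63_106__133_42_24 : Ent 4 := ⟨[a0, a63, a106], [a133, a42, a38], (M a48 (L l26 (F (T t585 (L l199 (T t551 (L l28 (T t579 (K a34 (M a46 (F (T t304 (L l56 (L l378 (T t4030 N)))))) (K a46 (M a34 (F (T t585 (L l29 (L l66 (T t6453 N)))))) N))))))))))⟩
def e0_63_106__133_42_25 : Ent 4 := ⟨[a0, a63, a106], [a133, a42, a39], (M a48 (F (T t585 (L l199 (T t551 (L l28 (T t579 N)))))))⟩
def e0_63_106__133_42_26 : Ent 4 := ⟨[a0, a63, a106], [a133, a42, a43], (M a48 (L l22 (F (T t585 (L l199 (T t551 (L l28 (T t579 (K a40 (M a41 (F (T t304 (L l24 (L l28 (T t579 (L l199 (T t551 N)))))))) (K a41 (M a40 (F (T t585 (L l29 (L l69 (T t6452 N)))))) N))))))))))⟩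
def e0_63_106__133_42_27 : Ent 4 := ⟨[a0, a63, a106], [a133, a42, a47], (M a12 (L l28 (F (T t2419 (L l199 (T t2305 (L l56 (T t2415 (K a32 (M a37 (F (T t2414 (L l56 (T t2415 (L l199 (T t2305 N))))))) (K a37 (M a32 (F (T t2419 (L l51 (L l56 (T t682 N)))))) N))))))))))⟩
def e0_63_106__133_42_28 : Ent 4 := ⟨[a0, a63, a106], [a133, a42, a48], (M a12 (F (T t2419 (L l199 (L l508 (T t2305 (L l56 (T t2415 N))))))))⟩
def e0_63_106__133_42_29 : Ent 4 := ⟨[a0, a63, a106], [a133, a42, a49], (M a48 (F (L l35 (T t304 (L l199 (T t551 (L l28 (L l35 (T t579 N)))))))))⟩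
def e0_63_106__133_42_30 : Ent 4 := ⟨[a0, a63, a106], [a133, a42, a50], (M a48 (F (T t585 (L l199 (T t551 (L l28 (T t579 N)))))))⟩
def e0_63_106__133_42_31 : Ent 4 := ⟨[a0, a63, a106], [a133, a42, a51], (M a48 (F (T t585 (L l199 (L l417 (T t551 (L l28 (T t579 N))))))))⟩
def e0_63_106__133_42_32 : Ent 4 := ⟨[a0, a63, a106], [a133, a42, a53], (M a12 (F (T t2414 (L l56 (T t2415 (L l199 (L l491 (T t2305 N))))))))⟩
def e0_63_106__133_42_33 : Ent 4 := ⟨[a0, a63, a106], [a133, a42, a54], (M a48 (F (L l31 (T t304 (L l199 (T t551 (L l28 (L l31 (T t579 N)))))))))⟩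
def e0_63_106__133_42_34 : Ent 4 := ⟨[a0, a63, a106], [a133, a42, a55], (M a48 (F (L l31 (T t304 (L l199 (L l495 (T t551 (L l28 (L l31 (T t579 N))))))))))⟩
def e0_63_106__133_42_35 : Ent 4 := ⟨[a0, a63, a106], [a133, a42, a58], (M a12 (L l54 (F (T t2414 (L l56 (T t2415 (L l199 (T t2305 (K a10 (M a26 (F (T t2414 (L l2 (L l56 (T t2415 (L l199 (T t2305 N)))))))) (K a26 (M a10 (F (T t2414 (L l57 (L l66 (T t6765 N)))))) N))))))))))⟩
def e0_63_106__133_42_36 : Ent 4 := ⟨[a0, a63, a106], [a133, a42, a59], (M a48 (L l56 (F (T t585 (L l199 (T t551 (L l28 (T t579 (K a8 (M a25 (F (T t304 (L l28 (T t579 (L l199 (T t551 N))))))) (K a25 (M a8 (F (T t585 (L l19 (L l28 (T t4700 N)))))) N))))))))))⟩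
def e0_63_106__133_42_37 : Ent 4 := ⟨[a0, a63, a106], [a133, a42, a64], (M a48 (F (T t585 (L l28 (T t6454 (L l28 (L l199 (T t6455 (L l28 (T t6456 (L l28 (L l84 (L l311 (L l339 (T t6457 (L l54 (L l160 (L l311 (L l339 (T t6458 (K a207 (Fr a192 a149 l519 (Fr a96 a144 l484 (Fr a101 a111 l104 (Fr a32 a16 l40 (V t6459))))) N)))))))))))))))))))))⟩
def e0_63_106__133_42_38 : Ent 4 := ⟨[a0, a63, a106], [a133, a42, a65], (M a48 (F (T t585 (L l76 (L l199 (T t551 (L l28 (L l76 (T t579 N)))))))))⟩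
def e0_63_106__133_42_39 : Ent 4 := ⟨[a0, a63, a106], [a133, a42, a66], (M a48 (F (T t585 (L l76 (L l199 (T t551 (L l28 (L l76 (T t579 N)))))))))⟩
def e0_63_106__133_42_40 : Ent 4 := ⟨[a0, a63, a106], [a133, a42, a67], (M a48 (F (T t585 (L l76 (L l199 (T t551 (L l28 (L l76 (T t579 N)))))))))⟩
def e0_63_106__133_42_41 : Ent 4 := ⟨[a0, a63, a106], [a133, a42, a69], (M a48 (L l311 (F (T t304 (L l28 (L l84 (T t579 (L l84 (L l199 (T t551 (K a5 (M a197 (F (L l339 (T t6631 (L l199 (T t6632 (L l28 (L l47 (L l84 (T t579 N)))))))))) (K a197 (M a5 (F (L l54 (T t2053 (L l84 (L l199 (L l491 (T t551 (L l54 (L l84 (L l275 (T t6633 N)))))))))))) N))))))))))))⟩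
def e0_63_106__133_42_42 : Ent 4 := ⟨[a0, a63, a106], [a133, a42, a70], (M a48 (L l315 (F (T t585 (L l199 (T t551 (L l28 (T t579 (K a196 (M a7 (F (T t304 (L l28 (T t579 (L l199 (L l495 (T t551 N)))))))) (K a7 (M a196 (F (T t304 (L l1 (L l199 (T t6695 (L l28 (T t579 N)))))))) N))))))))))⟩
def e0_63_106__133_42_43 : Ent 4 := ⟨[a0, a63, a106], [a133, a42, a71], (M a48 (F (L l339 (T t309 (L l199 (T t551 (L l28 (T t579 N))))))))⟩
def e0_63_106__133_42_44 : Ent 4 := ⟨[a0, a63, a106], [a133, a42, a74], (M a48 (L l339 (F (L l318 (T t304 (L l84 (L l199 (T t551 (L l28 (L l84 (L l318 (T t579 (K a192 (M a15 (F (L l268 (T t6772 (L l28 (L l84 (L l236 (L l318 (T t579 (L l54 (L l268 (L l318 (T t6773 (L l54 (L l268 (T t6774 (L l160 (L l236 (L l268 (T t6775 (L l84 (L l236 (L l268 (L l318 (T t6776 N))))))))))))))))))))))))) (K a15 (Fr a192 a149 l519 (V t6558)) N))))))))))))))⟩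
def e0_63_106__133_42_45 : Ent 4 := ⟨[a0, a63, a106], [a133, a42, a75], (M a48 (F (T t585 (L l199 (T t551 (L l28 (T t579 N)))))))⟩
def e0_63_106__133_42_46 : Ent 4 := ⟨[a0, a63, a106], [a133, a42, a79], (M a48 (F (L l339 (T t309 (L l28 (L l199 (T t6462 (L l28 (L l84 (T t579 N))))))))))⟩
def e0_63_106__133_42_47 : Ent 4 := ⟨[a0, a63, a106], [a133, a42, a80], (M a12 (F (T t2414 (L l56 (L l116 (T t2415 (L l116 (L l199 (T t2305 N)))))))))⟩
def e0_63_106__133_42_48 : Ent 4 := ⟨[a0, a63, a106], [a133, a42, a81], (M a48 (F (T t585 (L l120 (L l199 (T t551 (L l28 (L l120 (T t579 N)))))))))⟩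
def e0_63_106__133_42_49 : Ent 4 := ⟨[a0, a63, a106], [a133, a42, a82], (M a48 (F (T t585 (L l199 (L l453 (T t551 (L l28 (T t579 N))))))))⟩
def e0_63_106__133_42_50 : Ent 4 := ⟨[a0, a63, a106], [a133, a42, a83], (M a48 (F (T t585 (L l199 (T t551 (L l28 (T t579 N)))))))⟩
def e0_63_106__133_42_51 : Ent 4 := ⟨[a0, a63, a106], [a133, a42, a85], (M a48 (F (L l339 (T t309 (L l199 (L l347 (T t551 (L l54 (L l311 (L l339 (T t777 (L l160 (L l368 (T t6465 (K a192 (M a56 (L l339 (F (T t6620 (L l350 (L l368 (T t1445 (L l236 (T t6621 (K a74 (M a15 (F (L l28 (T t6771 (L l236 (L l318 (T t6621 N))))))) (K a15 (M a74 (F (L l350 (L l368 (T t1445 (L l94 (L l199 (L l296 (L l469 (L l483 (T t6619 N))))))))))) N))))))))))) N)))))))))))))))⟩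
def e0_63_106__133_42_52 : Ent 4 := ⟨[a0, a63, a106], [a133, a42, a86], (M a48 (F (T t304 (L l28 (T t579 (L l199 (L l351 (T t551 N))))))))⟩
def e0_63_106__133_42_53 : Ent 4 := ⟨[a0, a63, a106], [a133, a42, a87], (M a48 (F (T t304 (L l28 (L l367 (T t579 (L l199 (T t551 N))))))))⟩
def e0_63_106__133_42_54 : Ent 4 := ⟨[a0, a63, a106], [a133, a42, a90], (M a48 (F (T t304 (L l28 (T t579 (L l199 (L l375 (L l483 (T t551 N)))))))))⟩
def e0_63_106__133_42_55 : Ent 4 := ⟨[a0, a63, a106], [a133, a42, a91], (M a48 (F (T t585 (L l199 (T t551 (L l28 (T t579 N)))))))⟩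
def e0_63_106__133_42_56 : Ent 4 := ⟨[a0, a63, a106], [a133, a42, a95], (M a48 (F (L l339 (T t309 (L l199 (T t551 (L l28 (L l361 (T t579 N)))))))))⟩
def e0_63_106__133_42_57 : Ent 4 := ⟨[a0, a63, a106], [a133, a42, a96], (M a12 (F (T t2419 (L l116 (L l199 (T t2305 (L l56 (L l116 (T t2415 N)))))))))⟩
def e0_63_106__133_42_58 : Ent 4 := ⟨[a0, a63, a106], [a133, a42, a97], (M a48 (F (T t304 (L l28 (L l380 (T t579 (L l96 (L l199 (T t551 N)))))))))⟩
def e0_63_106__133_42_59 : Ent 4 := ⟨[a0, a63, a106], [a133, a42, a98], (M a48 (F (T t585 (L l96 (L l120 (L l199 (T t551 (L l28 (L l120 (T t579 N))))))))))⟩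
def e0_63_106__133_42_60 : Ent 4 := ⟨[a0, a63, a106], [a133, a42, a99], (M a48 (F (L l339 (T t309 (L l96 (L l199 (T t551 (L l28 (T t579 N)))))))))⟩
def e0_63_106__133_42_61 : Ent 4 := ⟨[a0, a63, a106], [a133, a42, a101], (M a12 (F (T t2414 (L l56 (T t2415 (L l199 (L l491 (T t2305 N))))))))⟩
def e0_63_106__133_42_62 : Ent 4 := ⟨[a0, a63, a106], [a133, a42, a102], (M a48 (F (T t304 (L l28 (T t579 (L l199 (L l495 (T t551 N))))))))⟩
def e0_63_106__133_42_63 : Ent 4 := ⟨[a0, a63, a106], [a133, a42, a103], (M a48 (F (L l339 (T t309 (L l199 (T t551 (L l28 (T t579 N))))))))⟩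
def e0_63_106__133_42_64 : Ent 4 := ⟨[a0, a63, a106], [a133, a42, a107], (M a48 (F (L l339 (T t309 (L l199 (T t551 (L l28 (T t579 N))))))))⟩
def e0_63_106__133_42_65 : Ent 4 := ⟨[a0, a63, a106], [a133, a42, a111], (M a12 (F (T t2414 (L l56 (T t2415 (L l199 (T t2305 N)))))))⟩
def e0_63_106__133_42_66 : Ent 4 := ⟨[a0, a63, a106], [a133, a42, a112], (M a48 (F (T t304 (L l28 (L l116 (L l199 (T t6462 (L l28 (T t6463 N)))))))))⟩
def e0_63_106__133_42_67 : Ent 4 := ⟨[a0, a63, a106], [a133, a42, a113], (M a48 (F (T t304 (L l28 (T t579 (L l199 (T t551 N)))))))⟩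
def e0_63_106__133_42_68 : Ent 4 := ⟨[a0, a63, a106], [a133, a42, a114], (M a48 (F (T t585 (L l199 (L l417 (T t551 (L l28 (T t579 N))))))))⟩
def e0_63_106__133_42_69 : Ent 4 := ⟨[a0, a63, a106], [a133, a42, a115], (M a48 (F (T t585 (L l120 (L l199 (T t551 (L l28 (L l120 (T t579 N)))))))))⟩
def e0_63_106__133_42_70 : Ent 4 := ⟨[a0, a63, a106], [a133, a42, a117], (M a48 (F (L l419 (T t304 (L l199 (T t551 (L l28 (L l419 (T t579 (L l54 (L l311 (L l339 (T t777 N)))))))))))))⟩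
def e0_63_106__133_42_71 : Ent 4 := ⟨[a0, a63, a106], [a133, a42, a118], (M a48 (F (T t585 (L l199 (T t551 (L l28 (T t579 N)))))))⟩
def e0_63_106__133_42_72 : Ent 4 := ⟨[a0, a63, a106], [a133, a42, a119], (M a48 (F (T t585 (L l199 (T t551 (L l28 (T t579 N)))))))⟩
def e0_63_106__133_42_73 : Ent 4 := ⟨[a0, a63, a106], [a133, a42, a122], (M a48 (F (T t585 (L l199 (T t551 (L l28 (T t579 N)))))))⟩
def e0_63_106__133_42_74 : Ent 4 := ⟨[a0, a63, a106], [a133, a42, a123], (M a48 (F (T t585 (L l199 (T t551 (L l28 (T t579 N)))))))⟩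
def e0_63_106__133_42_75 : Ent 4 := ⟨[a0, a63, a106], [a133, a42, a127], (M a48 (F (L l339 (T t309 (L l199 (T t551 (L l28 (T t6454 (L l28 (T t6479 N))))))))))⟩
def e0_63_106__133_42_76 : Ent 4 := ⟨[a0, a63, a106], [a133, a42, a128], (M a48 (L l160 (F (T t585 (L l28 (T t579 (L l192 (L l199 (L l220 (T t6480 (L l54 (L l311 (L l339 (T t7356 (K a138 (M a143 (F (L l318 (T t304 (L l28 (L l318 (T t579 (L l192 (L l199 (L l220 (T t578 (L l54 (L l311 (L l339 (T t7357 (K a53 (Fr a192 a149 l519 (Fr a96 a144 l484 (Fr a101 a111 l104 (Fr a154 a207 l512 (Fr a32 a16 l40 (Fr a170 a239 l404 (Fr a165 a176 l227 (Fr a160 a224 l376 (V t7431))))))))) (K a202 (Fr a149 a192 l519 (Fr a53 a58 l38 (Fr a101 a197 l491 (Fr a207 a154 l512 (V t7339))))) (K a58 (Fr a192 a149 l519 (Fr a96 a144 l484 (Fr a101 a111 l104 (Fr a32 a16 l40 (Fr a170 a239 l404 (Fr a154 a207 l512 (Fr a165 a176 l227 (Fr a160 a224 l376 (V t7431))))))))) N)))))))))))))))))) (K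 a143 (M a138 (F (L l28 (T t579 (L l213 (L l311 (T t7359 (L l54 (L l227 (L l311 (L l339 (T t4540 N)))))))))))) N))))))))))))))))⟩
def e0_63_106__133_42_77 : Ent 4 := ⟨[a0, a63, a106], [a133, a42, a129], (M a48 (L l157 (F (T t585 (L l199 (L l217 (T t551 (L l28 (T t579 (K a137 (M a141 (F (T t304 (L l28 (T t579 (L l199 (L l217 (T t551 N)))))))) (K a141 (M a137 (F (T t304 (L l28 (T t579 (L l199 (L l217 (T t551 N)))))))) N)))))))))))⟩
def e0_63_106__133_42_78 : Ent 4 := ⟨[a0, a63, a106], [a133, a42, a130], (M a48 (F (T t304 (L l28 (T t579 (L l199 (T t551 N)))))))⟩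
def e0_63_106__133_42_79 : Ent 4 := ⟨[a0, a63, a106], [a133, a42, a131], (M a48 (F (T t585 (L l197 (L l199 (T t551 (L l28 (T t579 N))))))))⟩
def e0_63_106__133_42_80 : Ent 4 := ⟨[a0, a63, a106], [a133, a42, a134], (M a48 (L l153 (F (T t585 (L l199 (T t551 (L l28 (T t579 (K a132 (M a135 (F (T t304 (L l28 (T t579 (L l199 (L l202 (T t551 N)))))))) (K a135 (M a132 (F (T t585 (L l161 (L l199 (T t7360 (L l28 (T t579 N)))))))) N))))))))))⟩
def e0_63_106__133_42_81 : Ent 4 := ⟨[a0, a63, a106], [a133, a42, a135], (M a48 (L l153 (F (T t585 (L l199 (T t551 (L l28 (T t579 (K a132 (M a134 (F (T t304 (L l28 (T t579 (L l199 (L l202 (T t551 N)))))))) (K a134 (M a132 (F (T t585 (L l161 (L l199 (T t7360 (L l28 (T t579 N)))))))) N))))))))))⟩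
def e0_63_106__133_42_82 : Ent 4 := ⟨[a0, a63, a106], [a133, a42, a138], (M a48 (L l160 (F (L l318 (T t585 (L l199 (T t551 (L l28 (L l318 (T t579 (K a128 (M a143 (F (L l318 (T t304 (L l28 (L l318 (T t579 (L l192 (L l199 (L l220 (T t578 (L l54 (L l311 (L l339 (T t7357 (K a53 (Fr a192 a149 l519 (Fr a96 a144 l484 (Fr a101 a111 l104 (Fr a154 a207 l512 (Fr a32 a16 l40 (Fr a170 a239 l404 (Fr a165 a176 l227 (Fr a160 a224 l376 (V t7431))))))))) (K a202 (Fr a149 a192 l519 (Fr a53 a58 l38 (Fr a101 a197 l491 (Fr a207 a154 l512 (V t7339))))) (K a58 (Fr a192 a149 l519 (Fr a96 a144 l484 (Fr a101 a111 l104 (Fr a32 a16 l40 (Fr a170 a239 l404 (Fr a154 a207 l512 (Fr a165 a176 l227 (Fr a160 a224 l376 (V t7431))))))))) N)))))))))))))))))) (K a143 (M a128 (F (T t7289 (L l28 (L l318 (T t579 (L l318 (L l339 (T t3405 N))))))))) N))))))))))))⟩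
def e0_63_106__133_42_83 : Ent 4 := ⟨[a0, a63, a106], [a133, a42, a139], (M a48 (F (T t585 (L l199 (T t551 (L l28 (T t579 N)))))))⟩
def e0_63_106__133_42_84 : Ent 4 := ⟨[a0, a63, a106], [a133, a42, a143], (M a48 (L l160 (F (T t585 (L l28 (L l199 (T t6462 (L l28 (T t579 (K a128 (M a138 (F (L l28 (T t579 (L l213 (L l311 (T t7359 (L l54 (L l227 (L l311 (L l339 (T t4540 N)))))))))))) (K a138 (M a128 (F (T t7289 (L l28 (L l318 (T t579 (L l318 (L l339 (T t3405 N))))))))) N)))))))))))⟩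
def e0_63_106__133_42_85 : Ent 4 := ⟨[a0, a63, a106], [a133, a42, a144], (M a12 (F (T t2419 (L l170 (L l199 (T t2305 (L l56 (T t2415 N))))))))⟩
def e0_63_106__133_42_86 : Ent 4 := ⟨[a0, a63, a106], [a133, a42, a145], (M a48 (F (T t585 (L l167 (L l199 (T t551 (L l28 (T t579 N))))))))⟩
def e0_63_106__133_42_87 : Ent 4 := ⟨[a0, a63, a106], [a133, a42, a146], (M a48 (F (T t585 (L l197 (L l199 (T t551 (L l28 (T t579 N))))))))⟩
def e0_63_106__133_42_88 : Ent 4 := ⟨[a0, a63, a106], [a133, a42, a147], (M a48 (F (T t585 (L l199 (T t551 (L l28 (T t579 N)))))))⟩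
def e0_63_106__133_42_89 : Ent 4 := ⟨[a0, a63, a106], [a133, a42, a149], (M a252 (L l199 (F (L l217 (T t6675 (L l217 (L l347 (T t7252 (L l22 (L l217 (L l351 (T t7253 (L l22 (L l160 (L l217 (L l220 (L l351 (T t7254 (K a129 (M a181 (L l157 (L l217 (F (L l495 (T t7361 (T t7362 (L l26 (L l193 (L l220 (L l495 (T t7363 (L l193 (L l495 (T t7364 (K a137 (M a141 (L l217 (F (T t7362 (L l205 (L l495 (T t7365 (K a169 (Fr a189 a126 l435 (V t7366)) (K a189 (M a169 (F (T t7261 (L l56 (T t7367 N))))) N))))))))) (K a169 (Fr a189 a126 l435 (V t7366)) (K a141 (M a137 (L l217 (F (T t7362 (L l193 (L l223 (T t7368 (K a240 (Fr a189 a126 l435 (V t7369)) (K a248 (Fr a189 a126 l435 (V t7369)) (K a122 (Fr a189 a126 l435 (V t7370)) (K a169 (Fr a189 a126 l435 (V t7366)) (K a189 (M a169 (L l211 (F (T t7261 (L l56 (T t7367 (K a157 (M a173 (L l167 (F (T t7261 (L l54 (L l193 (L l363 (T t7371 (K a145 (Fr a153 a185 l205 (V t7372)) (K a153 (M a145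 (L l223 (F (T t7261 (L l311 (L l363 (T t7373 (K a177 (Fr a165 a161 l177 (V t7372)) (K a165 (M a177 (F (T t7261 (L l495 (T t7374 N))))) N))))))))) N)))))))))) (K a173 (M a157 (F (T t7261 (T t7362 N)))) N)))))))) N)))))))))))) (K a189 (M a169 (L l157 (F (T t7261 (L l56 (T t7367 (K a137 (M a141 (F (T t7261 (L l56 (T t7367 N))))) (K a141 (M a137 (L l211 (F (T t7261 (L l56 (T t7367 (K a157 (M a173 (L l167 (F (T t7261 (L l54 (L l193 (L l363 (T t7371 (K a145 (Fr a153 a185 l205 (V t7372)) (K a153 (M a145 (L l223 (F (T t7261 (L l311 (L l363 (T t7373 (K a177 (Fr a165 a161 l177 (V t7372)) (K a165 (M a177 (F (T t7261 (L l495 (T t7374 N))))) N))))))))) N)))))))))) (K a173 (M a157 (F (T t7261 (T t7362 N)))) N)))))))) N)))))))) N))))))))))))))))))) (K a169 (M a204 (L l199 (L l217 (F (L l174 (T t6673 (L l157 (L l339 (T t7135 (L l167 (T t6655 (K a129 (Fr a189 a126 l435 (V t7375)) (K a165 (M a181 (L l177 (L l217 (F (L l223 (T t7376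 (L l174 (T t6673 (K a129 (Fr a189 a126 l435 (V t7366)) (K a161 (M a173 (L l217 (F (T t7377 (L l28 (T t6734 (K a129 (Fr a189 a126 l435 (V t7378)) (K a189 (M a129 (F (T t7379 (L l172 (L l174 (L l180 (T t7362 N))))))) N)))))))) (K a173 (M a161 (L l217 (F (L l223 (T t7376 (L l28 (T t6734 (K a129 (Fr a189 a126 l435 (V t7366)) (K a189 (M a129 (L l211 (F (L l28 (T t6734 (L l181 (L l479 (T t7380 (K a141 (Fr a157 a110 l507 (V t6734)) (K a157 (M a141 (L l167 (F (T t7381 (L l174 (T t6673 (K a145 (M a153 (F (T t6645 (L l174 (T t6673 N))))) (K a153 (Fr a145 a177 l193 (V t6673)) N)))))))) N)))))))))) N))))))))) (K a189 (M a129 (L l177 (F (L l209 (T t7382 (L l339 (L l387 (L l459 (T t7383 (L l56 (L l459 (T t7367 (K a161 (M a173 (F (T t7379 (L l172 (L l174 (L l180 (T t7362 N))))))) (K a173 (M a161 (L l211 (F (L l28 (T t6734 (L l181 (L l479 (T t7380 (K a141 (Fr a157 a110 l507 (V t6734)) (K a157 (M a141 (L l167 (F (T t7381 (L l174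 (T t6673 (K a145 (M a153 (F (T t6645 (L l174 (T t6673 N))))) (K a153 (Fr a145 a177 l193 (V t6673)) N)))))))) N)))))))))) N)))))))))))))) N)))))))))))) (K a181 (M a165 (L l217 (F (L l209 (T t7382 (L l54 (L l375 (L l419 (T t6514 (K a129 (Fr a189 a126 l435 (V t7375)) (K a189 (M a129 (L l187 (F (L l209 (T t7382 (L l54 (L l375 (L l419 (T t6514 (K a177 (M a185 (F (L l209 (T t7382 (L l54 (L l375 (L l419 (T t6514 N)))))))) (K a185 (M a177 (L l205 (F (L l174 (T t6673 (L l211 (L l423 (L l495 (T t7384 (K a137 (Fr a153 a141 l223 (V t6777)) (K a153 (M a137 (L l167 (F (L l174 (L l208 (T t6673 (L l315 (L l339 (L l473 (T t7385 (K a145 (Fr a157 a110 l507 (V t7386)) (K a157 (Fr a145 a161 l193 (V t7386)) N)))))))))))) N))))))))))) N))))))))))) N))))))))))) (K a189 (M a129 (L l199 (F (L l28 (T t6734 (L l167 (L l211 (T t6655 (L l56 (L l167 (L l211 (L l315 (L l405 (L l495 (T t7387 (K a165 (M a181 (L l177 (F (L l209 (T t7382 (L l339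 (L l387 (L l459 (T t7383 (L l56 (L l459 (T t7367 (K a161 (M a173 (F (T t7379 (L l172 (L l174 (L l180 (T t7362 N))))))) (K a173 (M a161 (L l211 (F (L l28 (T t6734 (L l181 (L l479 (T t7380 (K a141 (Fr a157 a110 l507 (V t6734)) (K a157 (M a141 (L l167 (F (T t7381 (L l174 (T t6673 (K a145 (M a153 (F (T t6645 (L l174 (T t6673 N))))) (K a153 (Fr a145 a177 l193 (V t6673)) N)))))))) N)))))))))) N)))))))))))))) (K a181 (M a165 (L l187 (F (L l209 (T t7382 (L l54 (L l375 (L l419 (T t6514 (K a177 (M a185 (F (L l209 (T t7382 (L l54 (L l375 (L l419 (T t6514 N)))))))) (K a185 (M a177 (L l205 (F (L l174 (T t6673 (L l211 (L l423 (L l495 (T t7384 (K a137 (Fr a153 a141 l223 (V t6777)) (K a153 (M a137 (L l167 (F (L l174 (L l208 (T t6673 (L l315 (L l339 (L l473 (T t7385 (K a145 (Fr a157 a110 l507 (V t7386)) (K a157 (Fr a145 a161 l193 (V t7386)) N)))))))))))) N))))))))))) N))))))))))) N))))))))))))))))) N))))))))))))))) (K a189 (M a169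 (L l199 (F (T t7261 (T t7262 (L l22 (L l160 (L l220 (L l351 (T t7256 (L l160 (L l220 (T t7257 (K a165 (M a181 (F (T t7261 (L l180 (T t7362 N))))) (K a181 (M a165 (L l187 (F (T t7261 (L l54 (L l375 (L l419 (T t6514 (K a177 (M a185 (F (T t7261 (L l54 (L l193 (T t7388 N)))))) (K a185 (M a177 (F (T t7261 (L l54 (L l419 (T t7389 N)))))) N)))))))))) N))))))))))))))) (K a66 (M a181 (F (T t7376 (L l56 (T t7367 (L l157 (L l351 (L l495 (T t7390 (L l495 (T t7364 N))))))))))) (K a86 (M a181 (L l351 (F (L l217 (T t7391 (L l95 (T t7362 (L l124 (L l157 (L l495 (T t7392 (L l95 (L l495 (T t7393 (K a212 (M a23 (F (L l217 (T t7391 (L l87 (L l346 (T t7394 (L l157 (T t7395 N))))))))) (K a23 (M a212 (F (T t7396 (L l11 (T t3429 N))))) N)))))))))))))))) (K a126 (M a48 (L l199 (F (T t3428 (L l28 (L l491 (T t579 (L l491 (T t7263 (K a165 (M a181 (F (T t3428 (L l54 (L l112 (L l455 (T t1909 N))))))) (K a181 (M a165 (F (T t801 (L l190 (L l375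 (L l419 (L l491 (T t7397 N)))))))) N))))))))))) (K a165 (M a181 (F (L l223 (T t7376 (L l180 (L l217 (L l220 (T t6476 (L l56 (L l459 (T t7367 N))))))))))) (K a181 (M a165 (F (L l375 (T t7398 (L l187 (L l217 (T t6675 (L l54 (L l375 (L l419 (T t6514 N))))))))))) N))))))))))))))))))))))))))⟩
def e0_63_106__133_42_90 : Ent 4 := ⟨[a0, a63, a106], [a133, a42, a150], (M a48 (F (T t304 (L l28 (T t579 (L l163 (L l199 (T t551 N))))))))⟩
def e0_63_106__133_42_91 : Ent 4 := ⟨[a0, a63, a106], [a133, a42, a151], (M a48 (F (T t585 (L l163 (L l199 (T t551 (L l28 (T t579 N))))))))⟩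
def e0_63_106__133_42_92 : Ent 4 := ⟨[a0, a63, a106], [a133, a42, a154], (M a12 (F (T t2414 (L l56 (T t2415 (L l170 (L l199 (T t2305 N))))))))⟩
def e0_63_106__133_42_93 : Ent 4 := ⟨[a0, a63, a106], [a133, a42, a155], (M a48 (F (T t585 (L l199 (T t551 (L l28 (L l367 (T t579 N))))))))⟩
def e0_63_106__133_42_94 : Ent 4 := ⟨[a0, a63, a106], [a133, a42, a159], (M a12 (F (T t2414 (L l56 (T t2415 (L l170 (L l199 (T t2305 N))))))))⟩
def e0_63_106__133_42_95 : Ent 4 := ⟨[a0, a63, a106], [a133, a42, a160], (M a12 (F (T t2414 (L l56 (T t2415 (L l199 (T t2305 N)))))))⟩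
def e0_63_106__133_42_96 : Ent 4 := ⟨[a0, a63, a106], [a133, a42, a161], (M a48 (F (T t585 (L l197 (L l199 (L l453 (T t551 (L l28 (T t579 N)))))))))⟩
def e0_63_106__133_42_97 : Ent 4 := ⟨[a0, a63, a106], [a133, a42, a162], (M a48 (F (T t304 (L l28 (L l380 (T t579 (L l199 (T t551 N))))))))⟩
def e0_63_106__133_42_98 : Ent 4 := ⟨[a0, a63, a106], [a133, a42, a163], (M a48 (F (T t585 (L l199 (T t551 (L l28 (T t579 N)))))))⟩
def e0_63_106__133_42_99 : Ent 4 := ⟨[a0, a63, a106], [a133, a42, a165], (M a85 (L l199 (F (T t5958 (T t3095 (K a64 (M a204 (L l199 (F (T t2461 (L l339 (L l387 (T t7399 (L l180 (T t1744 (K a149 (M a181 (F (L l120 (L l167 (T t7400 (L l180 (L l220 (L l227 (L l491 (T t7401 N)))))))))) (K a181 (Fr a149 a192 l519 (V t7402)) N))))))))))) (K a127 (M a89 (L l199 (F (L l26 (T t7403 (L l223 (L l339 (T t7404 (L l138 (T t6263 (K a149 (M a181 (F (L l138 (T t6263 (L l339 (L l407 (L l483 (L l515 (T t7405 N)))))))))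 (K a181 (Fr a149 a192 l519 (V t7022)) N)))))))))))) (K a149 (M a181 (F (T t3095 (L l339 (L l383 (L l483 (L l491 (T t7406 (L l170 (L l180 (L l220 (L l311 (L l491 (T t7407 N)))))))))))))) (K a181 (Fr a149 a192 l519 (V t3095)) N)))))))))⟩
def e0_63_106__133_42_100 : Ent 4 := ⟨[a0, a63, a106], [a133, a42, a166], (M a48 (F (T t304 (L l28 (T t579 (L l199 (L l202 (T t551 N))))))))⟩
def e0_63_106__133_42_101 : Ent 4 := ⟨[a0, a63, a106], [a133, a42, a167], (M a48 (F (T t585 (L l199 (T t551 (L l28 (T t579 N)))))))⟩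
def e0_63_106__133_42_102 : Ent 4 := ⟨[a0, a63, a106], [a133, a42, a170], (M a48 (F (T t304 (L l199 (L l220 (T t551 (L l28 (L l206 (L l220 (L l404 (T t552 (L l28 (L l206 (L l311 (L l404 (T t553 N))))))))))))))))⟩
def e0_63_106__133_42_103 : Ent 4 := ⟨[a0, a63, a106], [a133, a42, a171], (M a48 (F (T t304 (L l28 (T t579 (L l199 (T t551 N)))))))⟩
def e0_63_106__133_42_104 : Ent 4 := ⟨[a0, a63, a106], [a133, a42, a175], (M a48 (F (L l339 (T t309 (L l199 (T t551 (L l28 (T t579 N))))))))⟩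
def e0_63_106__133_42_105 : Ent 4 := ⟨[a0, a63, a106], [a133, a42, a176], (M a12 (F (T t2414 (L l56 (T t2415 (L l199 (L l222 (T t2305 N))))))))⟩
def e0_63_106__133_42_106 : Ent 4 := ⟨[a0, a63, a106], [a133, a42, a177], (M a48 (F (T t585 (L l182 (L l199 (L l417 (T t551 (L l28 (T t579 N)))))))))⟩
def e0_63_106__133_42_107 : Ent 4 := ⟨[a0, a63, a106], [a133, a42, a178], (M a48 (F (T t585 (L l182 (L l199 (T t551 (L l28 (T t579 N))))))))⟩
def e0_63_106__133_42_108 : Ent 4 := ⟨[a0, a63, a106], [a133, a42, a179], (M a48 (F (T t585 (L l182 (L l199 (T t551 (L l28 (T t579 N))))))))⟩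
def e0_63_106__133_42_109 : Ent 4 := ⟨[a0, a63, a106], [a133, a42, a181], (M a204 (L l199 (F (L l56 (T t6693 (T t6655 (L l160 (L l339 (T t7408 (K a157 (M a165 (F (L l167 (T t4770 (L l54 (L l363 (L l419 (T t6514 (L l56 (L l187 (L l363 (T t7409 N)))))))))))) (K a98 (Fr a149 a192 l519 (Fr a157 a110 l507 (Fr a153 a145 l167 (Fr a51 a102 l513 (V t6670))))) (K a110 (M a165 (F (T t4770 (L l136 (L l187 (T t7410 (L l54 (L l138 (L l419 (T t7411 N)))))))))) (K a149 (M a165 (F (L l167 (L l375 (T t7412 (L l54 (L l375 (L l419 (T t6514 (L l167 (T t6655 N))))))))))) (K a165 (Fr a149 a192 l519 (V t7402)) N))))))))))))))⟩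
def e0_63_106__133_42_110 : Ent 4 := ⟨[a0, a63, a106], [a133, a42, a182], (M a48 (F (T t585 (L l199 (T t551 (L l28 (T t579 N)))))))⟩
def e0_63_106__133_42_111 : Ent 4 := ⟨[a0, a63, a106], [a133, a42, a183], (M a48 (F (T t585 (L l199 (L l202 (T t551 (L l28 (T t579 N))))))))⟩
def e0_63_106__133_42_112 : Ent 4 := ⟨[a0, a63, a106], [a133, a42, a186], (M a48 (F (T t304 (L l28 (T t579 (L l190 (L l199 (T t551 N))))))))⟩
def e0_63_106__133_42_113 : Ent 4 := ⟨[a0, a63, a106], [a133, a42, a187], (M a48 (F (T t304 (L l28 (T t579 (L l199 (T t551 N)))))))⟩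
def e0_63_106__133_42_114 : Ent 4 := ⟨[a0, a63, a106], [a133, a42, a191], (M a48 (F (T t304 (L l190 (L l199 (L l220 (T t551 (L l28 (T t6498 (L l28 (L l311 (T t6499 N))))))))))))⟩
def e0_63_106__133_42_115 : Ent 4 := ⟨[a0, a63, a106], [a133, a42, a192], (M a204 (L l339 (F (L l489 (T t6655 (L l272 (L l489 (T t6656 (L l296 (L l489 (T t6657 (L l56 (L l160 (L l315 (L l489 (T t6658 (L l489 (T t6659 (K a145 (M a15 (L l489 (F (L l292 (T t7413 (L l54 (L l268 (T t2532 (L l157 (L l167 (L l268 (L l292 (T t7414 (L l157 (L l167 (L l315 (T t7415 (K a98 (M a51 (F (T t6754 (L l292 (T t7413 N))))) (K a51 (M a98 (F (T t6678 (L l54 (L l268 (T t2532 N)))))) N))))))))))))))))))) (K a85 (M a15 (F (L l292 (T t7413 (L l268 (T t6783 (L l94 (L l268 (T t6784 (L l157 (L l489 (T t7416 N)))))))))))) (K a157 (M a48 (L l339 (F (T t5482 (L l28 (L l236 (T t579 (L l236 (T t6651 (K a74 (M a15 (F (T t6676 (L l84 (L l236 (L l318 (T t6786 N))))))) (K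 a15 (M a74 (F (T t5482 (L l199 (L l296 (L l469 (L l483 (T t6619 N)))))))) N))))))))))) (K a98 (M a153 (L l339 (L l489 (F (T t6645 (L l26 (L l296 (L l378 (T t3897 (L l26 (L l120 (L l378 (T t6669 (K a145 (Fr a51 a102 l513 (V t6670)) (K a74 (M a15 (L l489 (F (T t6777 (L l82 (L l292 (T t7413 (K a145 (Fr a51 a102 l513 (V t6670)) (K a51 (M a145 (F (T t6671 (L l54 (L l82 (L l318 (L l417 (L l439 (T t7417 N))))))))) N))))))))) (K a51 (M a145 (L l339 (F (T t6671 (L l56 (L l272 (L l334 (L l378 (T t6672 (K a74 (M a15 (F (T t6671 (L l54 (L l82 (L l318 (L l417 (L l439 (T t7417 N))))))))) (K a15 (M a74 (L l73 (F (T t6671 (L l56 (L l157 (T t7418 (K a39 (M a27 (F (T t6671 (T t7419 N)))) (K a27 (M a39 (F (T t6671 (L l55 (L l56 (L l334 (L l439 (T t7420 N)))))))) N))))))))) N))))))))))) (K a15 (M a74 (L l489 (F (T t7421 (L l56 (L l157 (T t7418 (K a145 (Fr a51 a102 l513 (V t6670)) (K a51 (M a145 (L l73 (F (T t6671 (L l56 (L l157 (T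 t7418 (K a39 (M a27 (F (T t6671 (T t7419 N)))) (K a27 (M a39 (F (T t6671 (L l55 (L l56 (L l334 (L l439 (T t7420 N)))))))) N))))))))) N))))))))) N))))))))))))))))) (K a102 (M a47 (L l339 (F (L l157 (T t6797 (L l54 (L l268 (T t6764 (L l199 (L l292 (L l387 (L l484 (T t6798 (K a74 (Fr a15 a31 l61 (V t6799)) (K a15 (M a74 (F (L l148 (L l199 (L l471 (L l483 (T t7422 (L l126 (L l471 (T t6802 (L l148 (L l199 (L l268 (L l402 (L l483 (L l484 (T t7423 N))))))))))))))))) N))))))))))))))) (K a110 (M a48 (L l339 (F (T t6676 (L l28 (L l236 (T t579 (L l236 (T t6651 (K a74 (M a15 (F (T t6676 (L l54 (L l84 (L l268 (L l318 (T t2532 N)))))))) (K a15 (M a74 (F (T t6676 (L l138 (L l199 (L l296 (L l469 (L l483 (T t6619 N))))))))) N))))))))))) (K a51 (M a15 (L l489 (F (L l28 (T t7424 (L l54 (L l268 (T t2532 (L l157 (L l268 (L l292 (L l441 (T t7414 (L l157 (L l315 (T t7415 (K a145 (M a98 (F (T t6678 (L l54 (L l268 (T t2532 N)))))) (K a98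 (M a145 (F (L l28 (T t7424 (L l54 (L l120 (L l268 (L l381 (T t2532 (L l199 (L l417 (L l439 (T t7425 N))))))))))))) N)))))))))))))))))) (K a74 (M a15 (F (L l292 (T t6808 (L l54 (L l84 (L l268 (L l318 (T t2532 (L l489 (T t6634 N))))))))))) (K a15 (M a74 (F (L l489 (T t6655 (L l315 (L l489 (T t7426 (K a145 (M a51 (F (L l167 (T t7427 (L l292 (L l471 (L l483 (T t7428 N)))))))) (K a157 (M a48 (F (T t5482 (L l199 (L l296 (L l469 (L l483 (T t6619 N)))))))) (K a98 (M a51 (F (T t7429 (L l199 (L l292 (L l471 (L l483 (T t7430 N)))))))) (K a102 (M a48 (F (T t6676 (L l148 (L l199 (L l296 (L l469 (L l483 (T t6619 N))))))))) (K a110 (M a48 (F (T t6676 (L l138 (L l199 (L l296 (L l469 (L l483 (T t6619 N))))))))) (K a51 (M a48 (L l73 (L l489 (F (T t5482 (L l199 (L l296 (L l439 (L l469 (L l483 (T t6619 (K a145 (M a98 (L l73 (F (T t6678 (L l292 (L l441 (L l471 (T t2046 (K a39 (M a27 (F (T t6678 (L l292 (L l441 (L l471 (T t2046 N)))))))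 (K a27 (M a39 (F (T t6678 (L l292 (L l441 (L l471 (T t2046 N))))))) N)))))))))) (K a98 (M a145 (L l73 (F (T t6676 (L l199 (L l296 (L l439 (L l469 (L l483 (T t6619 (K a39 (M a27 (F (T t5482 (L l199 (L l296 (L l439 (L l469 (L l483 (T t6619 N))))))))) (K a27 (M a39 (F (T t6676 (L l199 (L l296 (L l357 (L l439 (L l469 (L l483 (T t6619 N)))))))))) N)))))))))))) (K a39 (M a27 (L l489 (F (T t5482 (L l199 (L l296 (L l439 (L l469 (L l483 (T t6619 (K a145 (M a98 (F (T t6678 (L l292 (L l441 (L l471 (T t2046 N))))))) (K a98 (M a145 (F (T t5482 (L l199 (L l296 (L l439 (L l469 (L l483 (T t6619 N))))))))) N)))))))))))) (K a27 (M a39 (L l489 (F (T t5482 (L l199 (L l296 (L l357 (L l439 (L l469 (L l483 (T t6619 (K a145 (M a98 (F (T t6678 (L l292 (L l441 (L l471 (T t2046 N))))))) (K a98 (M a145 (F (T t6676 (L l199 (L l296 (L l357 (L l439 (L l469 (L l483 (T t6619 N)))))))))) N))))))))))))) N))))))))))))))) N))))))))))))) N)))))))))))))))))))))))))))⟩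
def e0_63_106__133_42_116 : Ent 4 := ⟨[a0, a63, a106], [a133, a42, a193], (M a48 (L l335 (F (T t585 (L l199 (L l515 (T t551 (L l28 (T t579 (K a73 (M a13 (F (T t304 (L l28 (T t579 (L l199 (L l515 (T t551 N)))))))) (K a13 (M a73 (F (T t304 (L l28 (T t579 (L l199 (L l515 (T t551 N)))))))) N)))))))))))⟩
def e0_63_106__133_42_117 : Ent 4 := ⟨[a0, a63, a106], [a133, a42, a194], (M a48 (F (L l234 (T t304 (L l199 (T t551 (L l28 (L l234 (T t579 N)))))))))⟩
def e0_63_106__133_42_118 : Ent 4 := ⟨[a0, a63, a106], [a133, a42, a195], (M a48 (F (T t585 (L l199 (L l273 (T t551 (L l28 (T t579 N))))))))⟩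
def e0_63_106__133_42_119 : Ent 4 := ⟨[a0, a63, a106], [a133, a42, a197], (M a12 (L l311 (F (T t2419 (L l199 (L l491 (T t2305 (L l56 (T t2415 (K a5 (M a69 (F (T t2419 (L l56 (L l229 (L l335 (T t4782 N))))))) (K a69 (M a5 (F (T t2419 (L l56 (L l315 (L l329 (T t1428 N))))))) N)))))))))))⟩
def e0_63_106__133_42_120 : Ent 4 := ⟨[a0, a63, a106], [a133, a42, a198], (M a48 (F (L l234 (T t304 (L l199 (T t551 (L l28 (L l234 (T t579 N)))))))))⟩
def e0_63_106__133_42_121 : Ent 4 := ⟨[a0, a63, a106], [a133, a42, a199], (M a48 (F (L l339 (T t309 (L l199 (T t551 (L l28 (T t579 N))))))))⟩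
def e0_63_106__133_42_122 : Ent 4 := ⟨[a0, a63, a106], [a133, a42, a202], (M a12 (F (T t2419 (L l199 (T t2305 (L l56 (T t2415 N)))))))⟩
def e0_63_106__133_42_123 : Ent 4 := ⟨[a0, a63, a106], [a133, a42, a203], (M a48 (F (L l230 (T t585 (L l199 (T t551 (L l28 (L l230 (T t579 N)))))))))⟩
def e0_63_106__133_42_124 : Ent 4 := ⟨[a0, a63, a106], [a133, a42, a207], (M a12 (F (T t2419 (L l199 (L l231 (T t2305 (L l56 (T t2415 N))))))))⟩
def e0_63_106__133_42_125 : Ent 4 := ⟨[a0, a63, a106], [a133, a42, a208], (M a12 (F (T t2419 (L l199 (L l375 (T t2305 (L l56 (T t2415 N))))))))⟩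
def e0_63_106__133_42_126 : Ent 4 := ⟨[a0, a63, a106], [a133, a42, a209], (M a48 (F (T t585 (L l199 (L l371 (T t551 (L l28 (T t579 N))))))))⟩
def e0_63_106__133_42_127 : Ent 4 := ⟨[a0, a63, a106], [a133, a42, a210], (M a48 (F (T t585 (L l199 (L l273 (T t551 (L l28 (T t579 N))))))))⟩
def e0_63_106__133_42_128 : Ent 4 := ⟨[a0, a63, a106], [a133, a42, a211], (M a48 (F (T t304 (L l28 (L l245 (T t579 (L l199 (T t551 N))))))))⟩
def e0_63_106__133_42_129 : Ent 4 := ⟨[a0, a63, a106], [a133, a42, a213], (M a48 (F (T t585 (L l199 (L l347 (T t551 (L l28 (L l246 (T t579 N)))))))))⟩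
def e0_63_106__133_42_130 : Ent 4 := ⟨[a0, a63, a106], [a133, a42, a214], (M a48 (F (T t585 (L l199 (T t551 (L l28 (T t579 N)))))))⟩
def e0_63_106__133_42_131 : Ent 4 := ⟨[a0, a63, a106], [a133, a42, a215], (M a48 (F (T t304 (L l28 (L l245 (T t579 (L l199 (T t551 N))))))))⟩
def e0_63_106__133_42_132 : Ent 4 := ⟨[a0, a63, a106], [a133, a42, a218], (M a48 (F (L l282 (T t585 (L l28 (L l199 (T t2289 (L l28 (L l246 (L l282 (T t579 N)))))))))))⟩
def e0_63_106__133_42_133 : Ent 4 := ⟨[a0, a63, a106], [a133, a42, a219], (M a48 (F (T t585 (L l199 (T t551 (L l28 (L l245 (T t579 N))))))))⟩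
def e0_63_106__133_42_134 : Ent 4 := ⟨[a0, a63, a106], [a133, a42, a223], (M a12 (F (T t2414 (L l56 (T t2415 (L l199 (T t2305 N)))))))⟩
def e0_63_106__133_42_135 : Ent 4 := ⟨[a0, a63, a106], [a133, a42, a224], (M a48 (F (T t585 (L l199 (L l268 (L l376 (T t551 (L l28 (L l376 (T t579 N))))))))))⟩
def e0_63_106__133_42_136 : Ent 4 := ⟨[a0, a63, a106], [a133, a42, a225], (M a48 (F (T t585 (L l199 (L l273 (T t551 (L l28 (T t579 N))))))))⟩
def e0_63_106__133_42_137 : Ent 4 := ⟨[a0, a63, a106], [a133, a42, a226], (M a48 (F (T t585 (L l199 (T t551 (L l28 (T t579 N)))))))⟩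
def e0_63_106__133_42_138 : Ent 4 := ⟨[a0, a63, a106], [a133, a42, a227], (M a48 (F (T t304 (L l28 (L l380 (T t579 (L l199 (T t551 N))))))))⟩
def e0_63_106__133_42_139 : Ent 4 := ⟨[a0, a63, a106], [a133, a42, a229], (M a48 (F (L l339 (T t309 (L l28 (L l199 (T t2289 (L l28 (T t579 N)))))))))⟩
def e0_63_106__133_42_140 : Ent 4 := ⟨[a0, a63, a106], [a133, a42, a230], (M a48 (F (T t585 (L l199 (T t551 (L l28 (T t579 N)))))))⟩
def e0_63_106__133_42_141 : Ent 4 := ⟨[a0, a63, a106], [a133, a42, a231], (M a48 (F (L l339 (T t309 (L l199 (T t551 (L l28 (T t579 N))))))))⟩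
def e0_63_106__133_42_142 : Ent 4 := ⟨[a0, a63, a106], [a133, a42, a234], (M a48 (F (L l282 (T t304 (L l199 (T t551 (L l28 (L l282 (T t579 N)))))))))⟩
def e0_63_106__133_42_143 : Ent 4 := ⟨[a0, a63, a106], [a133, a42, a235], (M a48 (F (T t304 (L l28 (T t579 (L l199 (T t551 N)))))))⟩
def e0_63_106__133_42_144 : Ent 4 := ⟨[a0, a63, a106], [a133, a42, a239], (M a48 (F (L l339 (T t309 (L l199 (T t551 (L l28 (L l289 (L l404 (T t579 N))))))))))⟩
def e0_63_106__133_42_145 : Ent 4 := ⟨[a0, a63, a106], [a133, a42, a240], (M a12 (F (T t2419 (L l199 (L l298 (T t2305 (L l56 (T t2415 N))))))))⟩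
def e0_63_106__133_42_146 : Ent 4 := ⟨[a0, a63, a106], [a133, a42, a241], (M a48 (F (T t585 (L l199 (L l258 (T t551 (L l28 (T t579 N))))))))⟩
def e0_63_106__133_42_147 : Ent 4 := ⟨[a0, a63, a106], [a133, a42, a242], (M a48 (F (T t585 (L l199 (L l258 (T t551 (L l28 (T t579 N))))))))⟩
def e0_63_106__133_42_148 : Ent 4 := ⟨[a0, a63, a106], [a133, a42, a243], (M a48 (F (T t585 (L l199 (L l258 (T t551 (L l28 (T t579 N))))))))⟩
def e0_63_106__133_42_149 : Ent 4 := ⟨[a0, a63, a106], [a133, a42, a245], (M a48 (F (L l419 (T t304 (L l199 (L l266 (T t551 (L l28 (L l419 (T t579 (L l54 (L l275 (L l311 (L l339 (T t777 N)))))))))))))))⟩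
def e0_63_106__133_42_150 : Ent 4 := ⟨[a0, a63, a106], [a133, a42, a246], (M a48 (F (T t585 (L l199 (T t551 (L l28 (T t579 N)))))))⟩
def e0_63_106__133_42_151 : Ent 4 := ⟨[a0, a63, a106], [a133, a42, a247], (M a48 (F (T t585 (L l199 (T t551 (L l28 (T t579 N)))))))⟩
def e0_63_106__133_42_152 : Ent 4 := ⟨[a0, a63, a106], [a133, a42, a250], (M a48 (F (L l282 (T t585 (L l199 (L l266 (T t551 (L l28 (L l282 (T t579 N))))))))))⟩
def e0_63_106__133_42_153 : Ent 4 := ⟨[a0, a63, a106], [a133, a42, a251], (M a48 (F (T t304 (L l28 (T t579 (L l199 (T t551 N)))))))⟩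
def e0_63_106__133_42_154 : Ent 4 := ⟨[a0, a63, a106], [a133, a42, a255], (M a48 (F (T t585 (L l199 (L l266 (T t551 (L l28 (L l469 (T t6526 (L l28 (L l160 (L l289 (T t6527 N)))))))))))))⟩
def b0_63_106__133_42 : Blk 4 := ⟨[0, 63, 106], [133, 42], [1, 2, 3, 5, 6, 7, 10, 11, 15, 16, 17, 18, 19, 21, 22, 23, 26, 27, 31, 32, 33, 34, 35, 37, 38, 39, 43, 47, 48, 49, 50, 51, 53, 54, 55, 58, 59, 64, 65, 66, 67, 69, 70, 71, 74, 75, 79, 80, 81, 82, 83, 85, 86, 87, 90, 91, 95, 96, 97, 98, 99, 101, 102, 103, 107, 111, 112, 113, 114, 115, 117, 118, 119, 122, 123, 127, 128, 129, 130, 131, 134, 135, 138, 139, 143, 144, 145, 146, 147, 149, 150, 151, 154, 155, 159, 160, 161, 162, 163, 165, 166, 167, 170, 171, 175, 176, 177, 178, 179, 181, 182, 183, 186, 187, 191, 192, 193, 194, 195, 197, 198, 199, 202, 203, 207, 208, 209, 210, 211, 213, 214, 215, 218, 219, 223, 224, 225, 226, 227, 229, 230, 231, 234, 235, 239, 240, 241, 242, 243,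 245, 246, 247, 250, 251, 255], [e0_63_106__133_42_0, e0_63_106__133_42_1, e0_63_106__133_42_2, e0_63_106__133_42_3, e0_63_106__133_42_4, e0_63_106__133_42_5, e0_63_106__133_42_6, e0_63_106__133_42_7, e0_63_106__133_42_8, e0_63_106__133_42_9, e0_63_106__133_42_10, e0_63_106__133_42_11, e0_63_106__133_42_12, e0_63_106__133_42_13, e0_63_106__133_42_14, e0_63_106__133_42_15, e0_63_106__133_42_16, e0_63_106__133_42_17, e0_63_106__133_42_18, e0_63_106__133_42_19, e0_63_106__133_42_20, e0_63_106__133_42_21, e0_63_106__133_42_22, e0_63_106__133_42_23, e0_63_106__133_42_24, e0_63_106__133_42_25, e0_63_106__133_42_26, e0_63_106__133_42_27, e0_63_106__133_42_28, e0_63_106__133_42_29, e0_63_106__133_42_30, e0_63_106__133_42_31, e0_63_106__133_42_32, e0_63_106__133_42_33, e0_63_106__133_42_34, e0_63_106__133_42_35, e0_63_106__133_42_36, e0_63_106__133_42_37, e0_63_106__133_42_38, e0_63_106__133_42_39, e0_63_106__133_42_40,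 e0_63_106__133_42_41, e0_63_106__133_42_42, e0_63_106__133_42_43, e0_63_106__133_42_44, e0_63_106__133_42_45, e0_63_106__133_42_46, e0_63_106__133_42_47, e0_63_106__133_42_48, e0_63_106__133_42_49, e0_63_106__133_42_50, e0_63_106__133_42_51, e0_63_106__133_42_52, e0_63_106__133_42_53, e0_63_106__133_42_54, e0_63_106__133_42_55, e0_63_106__133_42_56, e0_63_106__133_42_57, e0_63_106__133_42_58, e0_63_106__133_42_59, e0_63_106__133_42_60, e0_63_106__133_42_61, e0_63_106__133_42_62, e0_63_106__133_42_63, e0_63_106__133_42_64, e0_63_106__133_42_65, e0_63_106__133_42_66, e0_63_106__133_42_67, e0_63_106__133_42_68, e0_63_106__133_42_69, e0_63_106__133_42_70, e0_63_106__133_42_71, e0_63_106__133_42_72, e0_63_106__133_42_73, e0_63_106__133_42_74, e0_63_106__133_42_75, e0_63_106__133_42_76, e0_63_106__133_42_77, e0_63_106__133_42_78, e0_63_106__133_42_79, e0_63_106__133_42_80, e0_63_106__133_42_81, e0_63_106__133_42_82,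 e0_63_106__133_42_83, e0_63_106__133_42_84, e0_63_106__133_42_85, e0_63_106__133_42_86, e0_63_106__133_42_87, e0_63_106__133_42_88, e0_63_106__133_42_89, e0_63_106__133_42_90, e0_63_106__133_42_91, e0_63_106__133_42_92, e0_63_106__133_42_93, e0_63_106__133_42_94, e0_63_106__133_42_95, e0_63_106__133_42_96, e0_63_106__133_42_97, e0_63_106__133_42_98, e0_63_106__133_42_99, e0_63_106__133_42_100, e0_63_106__133_42_101, e0_63_106__133_42_102, e0_63_106__133_42_103, e0_63_106__133_42_104, e0_63_106__133_42_105, e0_63_106__133_42_106, e0_63_106__133_42_107, e0_63_106__133_42_108, e0_63_106__133_42_109, e0_63_106__133_42_110, e0_63_106__133_42_111, e0_63_106__133_42_112, e0_63_106__133_42_113, e0_63_106__133_42_114, e0_63_106__133_42_115, e0_63_106__133_42_116, e0_63_106__133_42_117, e0_63_106__133_42_118, e0_63_106__133_42_119, e0_63_106__133_42_120, e0_63_106__133_42_121, e0_63_106__133_42_122, e0_63_106__133_42_123,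 e0_63_106__133_42_124, e0_63_106__133_42_125, e0_63_106__133_42_126, e0_63_106__133_42_127, e0_63_106__133_42_128, e0_63_106__133_42_129, e0_63_106__133_42_130, e0_63_106__133_42_131, e0_63_106__133_42_132, e0_63_106__133_42_133, e0_63_106__133_42_134, e0_63_106__133_42_135, e0_63_106__133_42_136, e0_63_106__133_42_137, e0_63_106__133_42_138, e0_63_106__133_42_139, e0_63_106__133_42_140, e0_63_106__133_42_141, e0_63_106__133_42_142, e0_63_106__133_42_143, e0_63_106__133_42_144, e0_63_106__133_42_145, e0_63_106__133_42_146, e0_63_106__133_42_147, e0_63_106__133_42_148, e0_63_106__133_42_149, e0_63_106__133_42_150, e0_63_106__133_42_151, e0_63_106__133_42_152, e0_63_106__133_42_153, e0_63_106__133_42_154], by decide +kernel, by decide +kernel⟩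
def e0_63_106__134_42_0 : Ent 4 := ⟨[a0, a63, a106], [a134, a42, a1], (M a48 (F (T t309 (T t551 (L l28 (T t579 N))))))⟩
def e0_63_106__134_42_1 : Ent 4 := ⟨[a0, a63, a106], [a134, a42, a2], (M a48 (L l66 (F (T t309 (T t551 (L l28 (T t579 (K a22 (M a62 (F (T t307 (L l22 (L l306 (L l336 (T t5926 N))))))) (K a62 (M a22 (F (T t578 (L l28 (T t579 (T t551 N)))))) N)))))))))⟩
def e0_63_106__134_42_2 : Ent 4 := ⟨[a0, a63, a106], [a134, a42, a3], (M a48 (F (T t585 (L l453 (T t551 (L l28 (T t579 N)))))))⟩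
def e0_63_106__134_42_3 : Ent 4 := ⟨[a0, a63, a106], [a134, a42, a4], (M a48 (L l314 (F (T t309 (T t551 (L l28 (T t579 (K a69 (M a199 (F (T t578 (L l28 (L l84 (T t579 (L l84 (T t551 N)))))))) (K a199 (M a69 (F (T t309 (L l158 (T t446 (T t551 N)))))) N)))))))))⟩
def e0_63_106__134_42_4 : Ent 4 := ⟨[a0, a63, a106], [a134, a42, a5], (M a48 (F (T t578 (L l28 (L l47 (T t579 (T t551 N)))))))⟩
def e0_63_106__134_42_5 : Ent 4 := ⟨[a0, a63, a106], [a134, a42, a6], (M a48 (L l312 (F (T t309 (T t551 (L l28 (T t579 (K a70 (M a198 (F (T t578 (L l28 (T t579 (T t551 N)))))) (K a198 (M a70 (F (T t578 (L l28 (L l234 (T t579 (T t551 N))))))) N)))))))))⟩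
def e0_63_106__134_42_6 : Ent 4 := ⟨[a0, a63, a106], [a134, a42, a7], (M a48 (F (T t309 (T t551 (L l28 (T t579 N))))))⟩
def e0_63_106__134_42_7 : Ent 4 := ⟨[a0, a63, a106], [a134, a42, a8], (M a48 (L l56 (F (T t309 (T t551 (L l28 (T t579 (K a25 (M a59 (F (T t307 (L l26 (L l316 (T t6445 N)))))) (K a59 (M a25 (F (T t578 (L l28 (T t579 (T t551 N)))))) N)))))))))⟩
def e0_63_106__134_42_8 : Ent 4 := ⟨[a0, a63, a106], [a134, a42, a9], (M a48 (F (T t309 (T t551 (L l28 (T t579 N))))))⟩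
def e0_63_106__134_42_9 : Ent 4 := ⟨[a0, a63, a106], [a134, a42, a10], (M a48 (L l54 (F (T t578 (L l28 (L l318 (T t579 (T t551 (K a26 (Fr a58 a53 l38 (V t6446)) (K a58 (M a26 (F (L l28 (T t4144 (T t551 (L l28 (L l426 (T t6447 (K a32 (Fr a192 a149 l519 (Fr a15 a37 l75 (Fr a47 a31 l61 (V t6528)))) N))))))))) N))))))))))⟩
def e0_63_106__134_42_10 : Ent 4 := ⟨[a0, a63, a106], [a134, a42, a11], (M a48 (F (T t309 (T t551 (L l28 (T t579 N))))))⟩
def e0_63_106__134_42_11 : Ent 4 := ⟨[a0, a63, a106], [a134, a42, a12], (M a195 (F (T t6809 (L l9 (L l161 (T t6810 (L l158 (T t6811 N))))))))⟩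
def e0_63_106__134_42_12 : Ent 4 := ⟨[a0, a63, a106], [a134, a42, a13], (M a48 (F (T t309 (T t551 (L l28 (T t579 N))))))⟩
def e0_63_106__134_42_13 : Ent 4 := ⟨[a0, a63, a106], [a134, a42, a14], (M a48 (L l336 (F (T t309 (T t551 (L l28 (T t579 (K a194 (M a74 (F (T t578 (L l153 (T t6556 (L l28 (L l234 (T t579 N)))))))) (K a74 (M a194 (F (T t587 (L l28 (L l84 (L l318 (T t579 N))))))) N)))))))))⟩
def e0_63_106__134_42_14 : Ent 4 := ⟨[a0, a63, a106], [a134, a42, a15], (M a48 (F (T t585 (L l483 (T t551 (L l28 (T t579 N)))))))⟩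
def e0_63_106__134_42_15 : Ent 4 := ⟨[a0, a63, a106], [a134, a42, a16], (M a240 (F (L l153 (T t4786 (L l340 (T t4780 (L l336 (T t4781 N))))))))⟩
def e0_63_106__134_42_16 : Ent 4 := ⟨[a0, a63, a106], [a134, a42, a17], (M a48 (F (T t309 (T t551 (L l28 (T t579 N))))))⟩
def e0_63_106__134_42_17 : Ent 4 := ⟨[a0, a63, a106], [a134, a42, a18], (M a48 (F (T t309 (T t551 (L l28 (T t579 N))))))⟩
def e0_63_106__134_42_18 : Ent 4 := ⟨[a0, a63, a106], [a134, a42, a19], (M a48 (F (T t309 (T t551 (L l28 (L l367 (T t579 N)))))))⟩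
def e0_63_106__134_42_19 : Ent 4 := ⟨[a0, a63, a106], [a134, a42, a20], (M a48 (F (T t309 (T t551 (L l28 (T t579 N))))))⟩
def e0_63_106__134_42_20 : Ent 4 := ⟨[a0, a63, a106], [a134, a42, a21], (M a48 (F (L l47 (T t309 (L l347 (T t551 (L l28 (L l47 (T t579 N)))))))))⟩
def e0_63_106__134_42_21 : Ent 4 := ⟨[a0, a63, a106], [a134, a42, a22], (M a48 (L l66 (F (T t309 (T t551 (L l28 (T t579 (K a2 (M a62 (F (T t307 (L l22 (L l306 (L l336 (T t5926 N))))))) (K a62 (M a2 (F (T t307 (L l19 (L l28 (T t342 N)))))) N)))))))))⟩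
def e0_63_106__134_42_22 : Ent 4 := ⟨[a0, a63, a106], [a134, a42, a23], (M a48 (F (T t309 (L l351 (T t551 (L l28 (T t579 N)))))))⟩
def e0_63_106__134_42_23 : Ent 4 := ⟨[a0, a63, a106], [a134, a42, a24], (M a48 (F (T t309 (T t551 (L l28 (T t579 N))))))⟩
def e0_63_106__134_42_24 : Ent 4 := ⟨[a0, a63, a106], [a134, a42, a25], (M a48 (L l56 (F (T t309 (T t551 (L l28 (T t579 (K a8 (M a59 (F (T t307 (L l26 (L l316 (T t6445 N)))))) (K a59 (M a8 (F (T t307 (L l19 (L l28 (L l314 (T t4700 N))))))) N)))))))))⟩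
def e0_63_106__134_42_25 : Ent 4 := ⟨[a0, a63, a106], [a134, a42, a26], (M a48 (L l54 (F (T t309 (L l28 (T t579 (T t551 (K a10 (Fr a58 a53 l38 (V t6446)) (K a58 (M a10 (F (L l28 (T t2289 (L l153 (T t4033 (L l18 (L l354 (T t6449 (L l18 (L l426 (T t6450 N)))))))))))) N)))))))))⟩
def e0_63_106__134_42_26 : Ent 4 := ⟨[a0, a63, a106], [a134, a42, a27], (M a48 (F (T t309 (T t551 (L l28 (T t579 N))))))⟩
def e0_63_106__134_42_27 : Ent 4 := ⟨[a0, a63, a106], [a134, a42, a28], (M a48 (F (T t309 (T t551 (L l28 (L l362 (T t579 N)))))))⟩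
def e0_63_106__134_42_28 : Ent 4 := ⟨[a0, a63, a106], [a134, a42, a29], (M a48 (F (T t309 (L l371 (T t551 (L l28 (T t579 N)))))))⟩
def e0_63_106__134_42_29 : Ent 4 := ⟨[a0, a63, a106], [a134, a42, a30], (M a48 (F (T t309 (T t551 (L l28 (T t579 N))))))⟩
def e0_63_106__134_42_30 : Ent 4 := ⟨[a0, a63, a106], [a134, a42, a31], (M a48 (F (T t309 (L l375 (T t551 (L l28 (L l361 (T t579 N))))))))⟩
def e0_63_106__134_42_31 : Ent 4 := ⟨[a0, a63, a106], [a134, a42, a32], (M a240 (L l28 (F (L l336 (T t6609 (L l376 (T t6588 (L l336 (L l376 (T t4781 (K a37 (M a47 (F (T t6602 (T t6698 (T t6604 N))))) (K a47 (M a37 (F (L l376 (T t6588 (L l54 (L l336 (T t6699 (L l336 (L l376 (T t4781 N)))))))))) N))))))))))))⟩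
def e0_63_106__134_42_32 : Ent 4 := ⟨[a0, a63, a106], [a134, a42, a33], (M a48 (F (T t309 (T t551 (L l20 (L l28 (T t579 N)))))))⟩
def e0_63_106__134_42_33 : Ent 4 := ⟨[a0, a63, a106], [a134, a42, a34], (M a48 (L l26 (F (T t309 (T t551 (L l20 (L l28 (T t579 (K a38 (M a46 (F (T t307 (L l56 (L l378 (T t4030 N)))))) (K a46 (M a38 (F (T t578 (L l20 (L l28 (T t579 (T t551 N))))))) N))))))))))⟩
def e0_63_106__134_42_34 : Ent 4 := ⟨[a0, a63, a106], [a134, a42, a35], (M a48 (F (T t309 (T t551 (L l20 (L l28 (T t579 N)))))))⟩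
def e0_63_106__134_42_35 : Ent 4 := ⟨[a0, a63, a106], [a134, a42, a36], (M a48 (F (T t309 (T t551 (L l24 (L l28 (T t579 N)))))))⟩
def e0_63_106__134_42_36 : Ent 4 := ⟨[a0, a63, a106], [a134, a42, a37], (M a240 (L l28 (F (L l153 (T t4786 (T t6606 (L l336 (T t4781 (K a32 (M a47 (F (T t6602 (T t6698 (T t6604 N))))) (K a47 (M a32 (F (T t6607 (L l336 (T t4781 (L l54 (T t6608 N))))))) N))))))))))⟩
def e0_63_106__134_42_37 : Ent 4 := ⟨[a0, a63, a106], [a134, a42, a38], (M a48 (L l26 (F (T t309 (T t551 (L l28 (T t579 (K a34 (M a46 (F (T t307 (L l56 (L l378 (T t4030 N)))))) (K a46 (M a34 (F (T t307 (L l29 (L l66 (T t6453 N)))))) N)))))))))⟩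
def e0_63_106__134_42_38 : Ent 4 := ⟨[a0, a63, a106], [a134, a42, a39], (M a48 (F (T t309 (T t551 (L l28 (T t579 N))))))⟩
def e0_63_106__134_42_39 : Ent 4 := ⟨[a0, a63, a106], [a134, a42, a40], (M a48 (L l22 (F (T t309 (T t551 (L l24 (L l28 (T t579 (K a41 (M a43 (F (T t578 (L l66 (L l388 (T t6451 N)))))) (K a43 (M a41 (F (T t578 (L l24 (L l28 (T t579 (T t551 N))))))) N))))))))))⟩
def e0_63_106__134_42_40 : Ent 4 := ⟨[a0, a63, a106], [a134, a42, a41], (M a48 (L l22 (F (T t309 (T t551 (L l28 (T t579 (K a40 (M a43 (F (T t578 (L l66 (L l388 (T t6451 N)))))) (K a43 (M a40 (F (T t309 (L l29 (L l69 (T t6452 N)))))) N)))))))))⟩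
def e0_63_106__134_42_41 : Ent 4 := ⟨[a0, a63, a106], [a134, a42, a43], (M a48 (L l22 (F (T t309 (T t551 (L l28 (T t579 (K a40 (M a41 (F (T t578 (L l24 (L l28 (T t579 (T t551 N))))))) (K a41 (M a40 (F (T t309 (L l29 (L l69 (T t6452 N)))))) N)))))))))⟩
def e0_63_106__134_42_42 : Ent 4 := ⟨[a0, a63, a106], [a134, a42, a44], (M a48 (F (T t309 (T t551 (L l24 (L l28 (T t579 N)))))))⟩
def e0_63_106__134_42_43 : Ent 4 := ⟨[a0, a63, a106], [a134, a42, a45], (M a48 (F (T t309 (T t551 (L l28 (T t579 N))))))⟩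
def e0_63_106__134_42_44 : Ent 4 := ⟨[a0, a63, a106], [a134, a42, a46], (M a48 (L l26 (F (T t309 (T t551 (L l28 (T t579 (K a34 (M a38 (F (T t578 (L l20 (L l28 (T t579 (T t551 N))))))) (K a38 (M a34 (F (T t307 (L l29 (L l66 (T t6453 N)))))) N)))))))))⟩
def e0_63_106__134_42_45 : Ent 4 := ⟨[a0, a63, a106], [a134, a42, a47], (M a12 (L l28 (F (T t2414 (L l56 (T t2415 (L l161 (T t2305 (K a32 (M a37 (F (T t6812 (L l161 (T t2305 (L l56 (T t2415 N))))))) (K a37 (M a32 (F (T t2419 (L l51 (L l56 (T t682 N)))))) N))))))))))⟩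
def e0_63_106__134_42_46 : Ent 4 := ⟨[a0, a63, a106], [a134, a42, a48], (M a12 (F (T t2419 (L l161 (L l508 (T t2305 (L l56 (T t2415 N))))))))⟩
def e0_63_106__134_42_47 : Ent 4 := ⟨[a0, a63, a106], [a134, a42, a49], (M a48 (F (T t578 (L l28 (L l35 (T t579 (T t551 N)))))))⟩
def e0_63_106__134_42_48 : Ent 4 := ⟨[a0, a63, a106], [a134, a42, a50], (M a48 (F (T t309 (T t551 (L l28 (T t579 N))))))⟩
def e0_63_106__134_42_49 : Ent 4 := ⟨[a0, a63, a106], [a134, a42, a51], (M a48 (F (T t585 (L l417 (T t551 (L l28 (T t579 N)))))))⟩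
def e0_63_106__134_42_50 : Ent 4 := ⟨[a0, a63, a106], [a134, a42, a52], (M a48 (F (T t578 (L l28 (L l31 (T t579 (T t551 N)))))))⟩
def e0_63_106__134_42_51 : Ent 4 := ⟨[a0, a63, a106], [a134, a42, a53], (M a240 (F (L l153 (T t4786 (L l491 (T t817 (L l336 (L l419 (T t4781 N)))))))))⟩
def e0_63_106__134_42_52 : Ent 4 := ⟨[a0, a63, a106], [a134, a42, a54], (M a48 (F (T t578 (L l28 (L l31 (T t579 (T t551 N)))))))⟩
def e0_63_106__134_42_53 : Ent 4 := ⟨[a0, a63, a106], [a134, a42, a55], (M a48 (F (L l31 (T t309 (L l495 (T t551 (L l28 (L l31 (T t579 N)))))))))⟩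
def e0_63_106__134_42_54 : Ent 4 := ⟨[a0, a63, a106], [a134, a42, a56], (M a48 (F (T t309 (T t551 (L l28 (T t579 N))))))⟩
def e0_63_106__134_42_55 : Ent 4 := ⟨[a0, a63, a106], [a134, a42, a57], (M a48 (F (T t578 (L l28 (L l35 (T t579 (T t551 N)))))))⟩
def e0_63_106__134_42_56 : Ent 4 := ⟨[a0, a63, a106], [a134, a42, a58], (M a240 (L l54 (F (L l336 (T t4779 (T t817 (L l336 (T t4781 (K a10 (M a26 (F (L l28 (T t815 (L l318 (L l336 (T t4781 (T t817 N)))))))) (K a26 (M a10 (F (T t6610 (L l28 (L l75 (T t815 (L l18 (T t6611 N)))))))) N))))))))))⟩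
def e0_63_106__134_42_57 : Ent 4 := ⟨[a0, a63, a106], [a134, a42, a59], (M a48 (L l56 (F (T t309 (T t551 (L l28 (T t579 (K a8 (M a25 (F (T t578 (L l28 (T t579 (T t551 N)))))) (K a25 (M a8 (F (T t307 (L l19 (L l28 (L l314 (T t4700 N))))))) N)))))))))⟩
def e0_63_106__134_42_58 : Ent 4 := ⟨[a0, a63, a106], [a134, a42, a60], (M a48 (F (T t585 (L l442 (T t551 (L l28 (T t579 N)))))))⟩
def e0_63_106__134_42_59 : Ent 4 := ⟨[a0, a63, a106], [a134, a42, a61], (M a48 (F (L l35 (T t309 (L l515 (T t551 (L l28 (L l35 (T t579 N)))))))))⟩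
def e0_63_106__134_42_60 : Ent 4 := ⟨[a0, a63, a106], [a134, a42, a62], (M a48 (L l66 (F (T t309 (T t551 (L l28 (T t579 (K a2 (M a22 (F (T t578 (L l28 (T t579 (T t551 N)))))) (K a22 (M a2 (F (T t307 (L l19 (L l28 (T t342 N)))))) N)))))))))⟩
def e0_63_106__134_42_61 : Ent 4 := ⟨[a0, a63, a106], [a134, a42, a64], (M a48 (F (T t585 (L l28 (T t6454 (L l28 (T t6455 (L l28 (T t6456 (L l28 (L l84 (L l314 (T t6457 (L l54 (T t6458 (K a207 (Fr a192 a149 l519 (Fr a96 a144 l484 (Fr a101 a111 l104 (Fr a32 a16 l40 (V t6459))))) N))))))))))))))))⟩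
def e0_63_106__134_42_62 : Ent 4 := ⟨[a0, a63, a106], [a134, a42, a65], (M a48 (F (T t309 (L l76 (T t551 (L l28 (L l76 (T t579 N))))))))⟩
def e0_63_106__134_42_63 : Ent 4 := ⟨[a0, a63, a106], [a134, a42, a66], (M a48 (F (T t304 (L l28 (L l76 (T t579 (L l76 (T t551 N))))))))⟩
def e0_63_106__134_42_64 : Ent 4 := ⟨[a0, a63, a106], [a134, a42, a67], (M a48 (F (T t309 (L l76 (T t551 (L l28 (L l76 (T t579 N))))))))⟩
def e0_63_106__134_42_65 : Ent 4 := ⟨[a0, a63, a106], [a134, a42, a68], (M a48 (F (T t309 (L l80 (T t551 (L l28 (L l80 (T t579 N))))))))⟩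
def e0_63_106__134_42_66 : Ent 4 := ⟨[a0, a63, a106], [a134, a42, a69], (M a48 (L l314 (F (T t309 (L l84 (T t551 (L l28 (L l84 (T t579 (K a4 (M a199 (F (T t578 (L l28 (L l84 (T t579 (L l84 (T t551 N)))))))) (K a199 (M a4 (F (T t309 (L l56 (T t518 N))))) N)))))))))))⟩
def e0_63_106__134_42_67 : Ent 4 := ⟨[a0, a63, a106], [a134, a42, a70], (M a48 (L l312 (F (T t309 (T t551 (L l28 (T t579 (K a6 (M a198 (F (T t578 (L l28 (T t579 (T t551 N)))))) (K a198 (M a6 (F (T t578 (L l28 (L l234 (T t579 (T t551 N))))))) N)))))))))⟩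
def e0_63_106__134_42_68 : Ent 4 := ⟨[a0, a63, a106], [a134, a42, a71], (M a48 (F (T t309 (T t551 (L l28 (T t579 N))))))⟩
def e0_63_106__134_42_69 : Ent 4 := ⟨[a0, a63, a106], [a134, a42, a72], (M a48 (F (T t304 (L l28 (L l80 (T t579 (L l80 (T t551 N))))))))⟩
def e0_63_106__134_42_70 : Ent 4 := ⟨[a0, a63, a106], [a134, a42, a73], (M a12 (F (T t2414 (L l56 (L l320 (T t2415 (L l78 (L l161 (T t2305 N)))))))))⟩
def e0_63_106__134_42_71 : Ent 4 := ⟨[a0, a63, a106], [a134, a42, a74], (M a48 (L l336 (F (T t578 (L l28 (L l84 (L l318 (T t579 (L l84 (T t551 (K a194 (M a14 (F (T t578 (L l28 (L l84 (L l234 (L l318 (T t579 (L l84 (T t551 N)))))))))) (K a14 (M a194 (F (T t587 (L l28 (L l84 (L l318 (T t579 N))))))) N))))))))))))⟩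
def e0_63_106__134_42_72 : Ent 4 := ⟨[a0, a63, a106], [a134, a42, a75], (M a48 (F (T t309 (T t551 (L l28 (T t579 N))))))⟩
def e0_63_106__134_42_73 : Ent 4 := ⟨[a0, a63, a106], [a134, a42, a76], (M a48 (F (T t309 (L l80 (T t551 (L l28 (L l80 (T t579 N))))))))⟩
def e0_63_106__134_42_74 : Ent 4 := ⟨[a0, a63, a106], [a134, a42, a77], (M a48 (F (T t309 (T t551 (L l28 (T t579 N))))))⟩
def e0_63_106__134_42_75 : Ent 4 := ⟨[a0, a63, a106], [a134, a42, a78], (M a48 (F (T t309 (T t551 (L l28 (T t579 N))))))⟩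
def e0_63_106__134_42_76 : Ent 4 := ⟨[a0, a63, a106], [a134, a42, a79], (M a48 (F (T t309 (L l84 (T t551 (L l28 (L l84 (T t579 N))))))))⟩
def e0_63_106__134_42_77 : Ent 4 := ⟨[a0, a63, a106], [a134, a42, a80], (M a12 (F (T t2414 (L l56 (L l116 (T t2415 (L l116 (L l161 (T t2305 N)))))))))⟩
def e0_63_106__134_42_78 : Ent 4 := ⟨[a0, a63, a106], [a134, a42, a81], (M a48 (F (T t309 (L l120 (T t551 (L l28 (L l120 (T t579 N))))))))⟩
def e0_63_106__134_42_79 : Ent 4 := ⟨[a0, a63, a106], [a134, a42, a82], (M a48 (F (T t309 (L l453 (T t551 (L l28 (T t579 N)))))))⟩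
def e0_63_106__134_42_80 : Ent 4 := ⟨[a0, a63, a106], [a134, a42, a83], (M a48 (F (T t309 (T t551 (L l28 (T t579 N))))))⟩
def e0_63_106__134_42_81 : Ent 4 := ⟨[a0, a63, a106], [a134, a42, a84], (M a48 (F (T t309 (L l140 (T t551 (L l28 (L l140 (T t579 N))))))))⟩
def e0_63_106__134_42_82 : Ent 4 := ⟨[a0, a63, a106], [a134, a42, a85], (M a48 (F (T t309 (L l347 (T t551 (L l54 (T t777 (L l368 (T t6465 (K a192 (M a240 (F (T t6230 (L l236 (T t6471 (L l54 (L l236 (L l336 (L l339 (T t6472 (L l336 (L l339 (T t6473 N))))))))))))) N))))))))))⟩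
def e0_63_106__134_42_83 : Ent 4 := ⟨[a0, a63, a106], [a134, a42, a86], (M a48 (F (T t309 (L l351 (T t551 (L l28 (T t579 N)))))))⟩
def e0_63_106__134_42_84 : Ent 4 := ⟨[a0, a63, a106], [a134, a42, a87], (M a48 (F (T t309 (T t551 (L l28 (L l367 (T t579 N)))))))⟩
def e0_63_106__134_42_85 : Ent 4 := ⟨[a0, a63, a106], [a134, a42, a88], (M a48 (F (T t309 (L l478 (T t551 (L l28 (T t579 N)))))))⟩
def e0_63_106__134_42_86 : Ent 4 := ⟨[a0, a63, a106], [a134, a42, a89], (M a48 (F (T t309 (L l371 (T t551 (L l28 (T t579 N)))))))⟩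
def e0_63_106__134_42_87 : Ent 4 := ⟨[a0, a63, a106], [a134, a42, a90], (M a48 (F (T t309 (L l375 (L l483 (T t551 (L l28 (T t579 N))))))))⟩
def e0_63_106__134_42_88 : Ent 4 := ⟨[a0, a63, a106], [a134, a42, a91], (M a48 (F (T t309 (T t551 (L l28 (T t579 N))))))⟩
def e0_63_106__134_42_89 : Ent 4 := ⟨[a0, a63, a106], [a134, a42, a92], (M a48 (F (T t309 (T t551 (L l28 (T t579 N))))))⟩
def e0_63_106__134_42_90 : Ent 4 := ⟨[a0, a63, a106], [a134, a42, a93], (M a48 (F (T t309 (T t551 (L l28 (L l362 (T t579 N)))))))⟩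
def e0_63_106__134_42_91 : Ent 4 := ⟨[a0, a63, a106], [a134, a42, a94], (M a48 (F (T t309 (T t551 (L l28 (T t579 N))))))⟩
def e0_63_106__134_42_92 : Ent 4 := ⟨[a0, a63, a106], [a134, a42, a95], (M a48 (F (T t309 (T t551 (L l28 (L l361 (T t579 N)))))))⟩
def e0_63_106__134_42_93 : Ent 4 := ⟨[a0, a63, a106], [a134, a42, a96], (M a12 (F (T t2414 (L l56 (L l116 (T t2415 (L l116 (L l161 (T t2305 N)))))))))⟩
def e0_63_106__134_42_94 : Ent 4 := ⟨[a0, a63, a106], [a134, a42, a97], (M a48 (F (T t309 (L l96 (T t551 (L l28 (L l380 (T t579 N))))))))⟩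
def e0_63_106__134_42_95 : Ent 4 := ⟨[a0, a63, a106], [a134, a42, a98], (M a48 (F (T t304 (L l28 (L l120 (T t579 (L l96 (L l120 (T t551 N)))))))))⟩
def e0_63_106__134_42_96 : Ent 4 := ⟨[a0, a63, a106], [a134, a42, a99], (M a48 (F (T t309 (L l96 (T t551 (L l28 (T t579 N)))))))⟩
def e0_63_106__134_42_97 : Ent 4 := ⟨[a0, a63, a106], [a134, a42, a100], (M a48 (F (T t309 (L l100 (T t551 (L l28 (L l400 (T t579 N))))))))⟩
def e0_63_106__134_42_98 : Ent 4 := ⟨[a0, a63, a106], [a134, a42, a101], (M a240 (F (L l336 (T t4779 (L l491 (L l512 (T t817 (L l336 (T t4781 N)))))))))⟩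
def e0_63_106__134_42_99 : Ent 4 := ⟨[a0, a63, a106], [a134, a42, a102], (M a48 (F (T t309 (L l495 (T t551 (L l28 (T t579 N)))))))⟩
def e0_63_106__134_42_100 : Ent 4 := ⟨[a0, a63, a106], [a134, a42, a103], (M a48 (F (T t309 (T t551 (L l28 (T t579 N))))))⟩
def e0_63_106__134_42_101 : Ent 4 := ⟨[a0, a63, a106], [a134, a42, a104], (M a48 (F (T t304 (L l28 (L l140 (T t579 (L l100 (L l140 (T t551 N)))))))))⟩
def e0_63_106__134_42_102 : Ent 4 := ⟨[a0, a63, a106], [a134, a42, a105], (M a48 (F (T t309 (L l515 (T t551 (L l28 (T t579 N)))))))⟩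
def e0_63_106__134_42_103 : Ent 4 := ⟨[a0, a63, a106], [a134, a42, a107], (M a48 (F (T t309 (T t551 (L l28 (T t579 N))))))⟩
def e0_63_106__134_42_104 : Ent 4 := ⟨[a0, a63, a106], [a134, a42, a108], (M a48 (F (T t309 (L l100 (T t551 (L l28 (T t579 N)))))))⟩
def e0_63_106__134_42_105 : Ent 4 := ⟨[a0, a63, a106], [a134, a42, a109], (M a48 (F (T t309 (T t551 (L l28 (T t579 N))))))⟩
def e0_63_106__134_42_106 : Ent 4 := ⟨[a0, a63, a106], [a134, a42, a110], (M a48 (F (T t309 (T t551 (L l28 (T t579 N))))))⟩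
def e0_63_106__134_42_107 : Ent 4 := ⟨[a0, a63, a106], [a134, a42, a111], (M a240 (F (L l336 (T t4779 (T t817 (L l137 (L l336 (T t4781 N))))))))⟩
def e0_63_106__134_42_108 : Ent 4 := ⟨[a0, a63, a106], [a134, a42, a112], (M a48 (F (T t309 (L l28 (L l116 (T t6462 (L l28 (L l116 (T t579 N)))))))))⟩
def e0_63_106__134_42_109 : Ent 4 := ⟨[a0, a63, a106], [a134, a42, a113], (M a48 (F (T t309 (T t551 (L l28 (T t579 N))))))⟩
def e0_63_106__134_42_110 : Ent 4 := ⟨[a0, a63, a106], [a134, a42, a114], (M a48 (F (T t309 (L l417 (T t551 (L l28 (T t579 N)))))))⟩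
def e0_63_106__134_42_111 : Ent 4 := ⟨[a0, a63, a106], [a134, a42, a115], (M a48 (F (T t309 (L l120 (T t551 (L l28 (L l120 (T t579 N))))))))⟩
def e0_63_106__134_42_112 : Ent 4 := ⟨[a0, a63, a106], [a134, a42, a116], (M a48 (F (T t309 (T t551 (L l28 (T t579 N))))))⟩
def e0_63_106__134_42_113 : Ent 4 := ⟨[a0, a63, a106], [a134, a42, a117], (M a48 (F (T t578 (L l28 (L l419 (T t579 (T t551 N)))))))⟩
def e0_63_106__134_42_114 : Ent 4 := ⟨[a0, a63, a106], [a134, a42, a118], (M a48 (F (T t309 (T t551 (L l28 (T t579 N))))))⟩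
def e0_63_106__134_42_115 : Ent 4 := ⟨[a0, a63, a106], [a134, a42, a119], (M a48 (F (T t309 (T t551 (L l28 (T t579 N))))))⟩
def e0_63_106__134_42_116 : Ent 4 := ⟨[a0, a63, a106], [a134, a42, a120], (M a48 (F (T t309 (L l442 (T t551 (L l28 (T t579 N)))))))⟩
def e0_63_106__134_42_117 : Ent 4 := ⟨[a0, a63, a106], [a134, a42, a121], (M a48 (F (T t309 (T t551 (L l28 (T t579 N))))))⟩
def e0_63_106__134_42_118 : Ent 4 := ⟨[a0, a63, a106], [a134, a42, a122], (M a48 (F (T t309 (T t551 (L l28 (T t579 N))))))⟩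
def e0_63_106__134_42_119 : Ent 4 := ⟨[a0, a63, a106], [a134, a42, a123], (M a48 (F (T t309 (T t551 (L l28 (T t579 N))))))⟩
def e0_63_106__134_42_120 : Ent 4 := ⟨[a0, a63, a106], [a134, a42, a124], (M a48 (F (T t309 (L l140 (T t551 (L l28 (L l140 (T t579 N))))))))⟩
def e0_63_106__134_42_121 : Ent 4 := ⟨[a0, a63, a106], [a134, a42, a125], (M a48 (F (T t309 (T t551 (L l28 (T t579 N))))))⟩
def e0_63_106__134_42_122 : Ent 4 := ⟨[a0, a63, a106], [a134, a42, a126], (M a48 (F (T t309 (T t551 (L l28 (T t579 N))))))⟩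
def e0_63_106__134_42_123 : Ent 4 := ⟨[a0, a63, a106], [a134, a42, a127], (M a48 (F (T t309 (T t551 (L l28 (T t6454 (L l28 (T t6479 N))))))))⟩
def e0_63_106__134_42_124 : Ent 4 := ⟨[a0, a63, a106], [a134, a42, a128], (M a48 (F (T t585 (L l28 (T t579 (L l192 (L l220 (T t6480 (L l54 (L l158 (L l160 (T t6481 N))))))))))))⟩
def e0_63_106__134_42_125 : Ent 4 := ⟨[a0, a63, a106], [a134, a42, a129], (M a48 (F (T t304 (L l28 (T t579 (L l217 (T t551 N)))))))⟩
def e0_63_106__134_42_126 : Ent 4 := ⟨[a0, a63, a106], [a134, a42, a130], (M a48 (L l158 (F (T t309 (T t551 (L l28 (T t579 (K a138 (M a142 (F (T t578 (L l28 (L l318 (T t579 (T t551 N))))))) (K a142 (M a138 (F (T t3405 (L l314 (T t6697 (T t551 N)))))) N)))))))))⟩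
def e0_63_106__134_42_127 : Ent 4 := ⟨[a0, a63, a106], [a134, a42, a131], (M a48 (L l161 (F (T t309 (L l197 (T t551 (L l28 (T t579 (K a140 (M a137 (F (T t578 (L l28 (T t579 (L l197 (L l222 (T t551 N)))))))) (K a137 (M a140 (F (T t578 (L l28 (T t579 (L l197 (T t551 N))))))) N))))))))))⟩
def e0_63_106__134_42_128 : Ent 4 := ⟨[a0, a63, a106], [a134, a42, a132], (M a48 (L l153 (F (T t304 (L l28 (T t579 (L l202 (T t551 (K a133 (M a135 (F (T t304 (L l28 (T t579 (L l199 (L l202 (T t551 N)))))))) (K a135 (M a133 (F (T t585 (L l202 (T t551 (L l28 (T t579 N))))))) N))))))))))⟩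
def e0_63_106__134_42_129 : Ent 4 := ⟨[a0, a63, a106], [a134, a42, a133], (M a48 (L l153 (F (T t585 (L l199 (T t551 (L l28 (T t579 (K a132 (M a135 (F (T t304 (L l28 (T t579 (L l199 (L l202 (T t551 N)))))))) (K a135 (M a132 (F (T t585 (L l161 (L l199 (T t7360 (L l28 (T t579 N)))))))) N))))))))))⟩
def e0_63_106__134_42_130 : Ent 4 := ⟨[a0, a63, a106], [a134, a42, a135], (M a48 (L l153 (F (T t309 (T t551 (L l28 (T t579 (K a132 (M a133 (F (T t585 (L l202 (T t551 (L l28 (T t579 N))))))) (K a133 (M a132 (F (T t585 (L l161 (L l199 (T t7360 (L l28 (T t579 N)))))))) N)))))))))⟩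
def e0_63_106__134_42_131 : Ent 4 := ⟨[a0, a63, a106], [a134, a42, a136], (M a48 (F (T t309 (T t551 (L l28 (T t579 N))))))⟩
def e0_63_106__134_42_132 : Ent 4 := ⟨[a0, a63, a106], [a134, a42, a137], (M a48 (L l161 (F (T t309 (T t551 (L l28 (T t579 (K a140 (M a131 (F (T t578 (L l28 (T t579 (L l222 (T t551 N))))))) (K a131 (M a140 (F (T t578 (L l28 (T t579 (L l197 (T t551 N))))))) N)))))))))⟩
def e0_63_106__134_42_133 : Ent 4 := ⟨[a0, a63, a106], [a134, a42, a138], (M a48 (L l158 (F (T t578 (L l28 (L l318 (T t579 (T t551 (K a130 (M a142 (F (T t578 (L l28 (L l318 (T t579 (T t551 N))))))) (K a142 (M a130 (F (T t2348 (L l28 (T t7432 N))))) N))))))))))⟩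
def e0_63_106__134_42_134 : Ent 4 := ⟨[a0, a63, a106], [a134, a42, a139], (M a48 (F (T t309 (T t551 (L l28 (T t579 N))))))⟩
def e0_63_106__134_42_135 : Ent 4 := ⟨[a0, a63, a106], [a134, a42, a140], (M a48 (L l161 (F (T t309 (L l222 (T t551 (L l28 (T t579 (K a137 (M a131 (F (T t578 (L l28 (T t579 (L l222 (T t551 N))))))) (K a131 (M a137 (F (T t578 (L l28 (T t579 (L l197 (L l222 (T t551 N)))))))) N))))))))))⟩
def e0_63_106__134_42_136 : Ent 4 := ⟨[a0, a63, a106], [a134, a42, a141], (M a48 (F (T t309 (T t551 (L l28 (T t579 N))))))⟩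
def e0_63_106__134_42_137 : Ent 4 := ⟨[a0, a63, a106], [a134, a42, a142], (M a48 (L l158 (F (T t309 (T t551 (L l28 (T t579 (K a130 (M a138 (F (T t3405 (L l314 (T t6697 (T t551 N)))))) (K a138 (M a130 (F (T t2348 (L l28 (T t7432 N))))) N)))))))))⟩
def e0_63_106__134_42_138 : Ent 4 := ⟨[a0, a63, a106], [a134, a42, a143], (M a48 (F (T t309 (L l28 (T t6462 (L l28 (T t579 N)))))))⟩
def e0_63_106__134_42_139 : Ent 4 := ⟨[a0, a63, a106], [a134, a42, a144], (M a12 (F (T t2414 (L l56 (T t2415 (L l161 (L l170 (T t2305 N))))))))⟩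
def e0_63_106__134_42_140 : Ent 4 := ⟨[a0, a63, a106], [a134, a42, a145], (M a48 (F (T t304 (L l28 (T t579 (L l167 (T t551 N)))))))⟩
def e0_63_106__134_42_141 : Ent 4 := ⟨[a0, a63, a106], [a134, a42, a146], (M a48 (F (T t304 (L l28 (T t579 (L l197 (T t551 N)))))))⟩
def e0_63_106__134_42_142 : Ent 4 := ⟨[a0, a63, a106], [a134, a42, a147], (M a48 (F (T t304 (L l28 (T t579 (T t551 N))))))⟩
def e0_63_106__134_42_143 : Ent 4 := ⟨[a0, a63, a106], [a134, a42, a148], (M a48 (F (T t304 (L l28 (T t579 (L l163 (T t551 N)))))))⟩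
def e0_63_106__134_42_144 : Ent 4 := ⟨[a0, a63, a106], [a134, a42, a149], (M a204 (F (L l167 (T t6655 (L l167 (L l347 (T t6636 (L l56 (L l161 (L l167 (L l495 (T t6635 (L l56 (L l167 (L l220 (L l495 (T t6637 (K a145 (M a153 (F (T t6638 (L l56 (L l196 (L l220 (L l341 (L l495 (T t6639 (L l196 (L l220 (T t6640 N)))))))))))) (K a153 (M a102 (L l167 (F (T t6641 (L l208 (T t6642 (K a145 (Fr a157 a110 l507 (V t6642)) (K a157 (M a145 (F (L l208 (T t6642 (L l226 (T t6817 (L l365 (T t6643 N)))))))) N)))))))) (K a157 (M a153 (F (T t6645 (T t6646 (L l56 (L l220 (L l495 (T t6639 (L l220 (T t6640 N)))))))))) (K a98 (M a48 (F (T t2046 (L l28 (L l120 (L l491 (T t579 (L l491 (L l495 (T t6651 N)))))))))) (K a102 (M a12 (L l495 (F (L l161 (T t752 (L l167 (L l371 (L l402 (T t765 (L l56 (L l371 (T t2415 (K a196 (M a55 (F (L l56 (L l347 (T t6649 (L l150 (L l220 (T t3459 N)))))))) (K a55 (M a196 (F (T t6650 (L l150 (L l220 (T t3459 N))))))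 N)))))))))))))) (K a110 (M a48 (F (T t2046 (L l28 (L l491 (T t579 (L l491 (L l495 (T t6651 N))))))))) N)))))))))))))))))))))))⟩
def e0_63_106__134_42_145 : Ent 4 := ⟨[a0, a63, a106], [a134, a42, a150], (M a48 (L l200 (F (T t309 (L l163 (T t551 (L l28 (T t579 (K a166 (M a182 (F (T t304 (L l28 (T t579 (L l163 (L l202 (T t551 N)))))))) (K a182 (M a166 (F (T t304 (L l56 (L l422 (T t6542 N)))))) N))))))))))⟩
def e0_63_106__134_42_146 : Ent 4 := ⟨[a0, a63, a106], [a134, a42, a151], (M a48 (F (T t309 (L l163 (T t551 (L l28 (T t579 N)))))))⟩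
def e0_63_106__134_42_147 : Ent 4 := ⟨[a0, a63, a106], [a134, a42, a152], (M a48 (F (T t304 (L l28 (T t579 (L l222 (T t551 N)))))))⟩
def e0_63_106__134_42_148 : Ent 4 := ⟨[a0, a63, a106], [a134, a42, a153], (M a48 (F (T t309 (L l167 (T t551 (L l28 (T t579 N)))))))⟩
def e0_63_106__134_42_149 : Ent 4 := ⟨[a0, a63, a106], [a134, a42, a154], (M a240 (F (L l336 (T t4779 (L l170 (L l368 (L l512 (T t817 (L l336 (T t4781 N))))))))))⟩
def e0_63_106__134_42_150 : Ent 4 := ⟨[a0, a63, a106], [a134, a42, a155], (M a48 (F (T t309 (T t551 (L l28 (L l367 (T t579 N)))))))⟩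
def e0_63_106__134_42_151 : Ent 4 := ⟨[a0, a63, a106], [a134, a42, a156], (M a48 (F (T t304 (L l28 (T t579 (T t551 N))))))⟩
def e0_63_106__134_42_152 : Ent 4 := ⟨[a0, a63, a106], [a134, a42, a157], (M a48 (F (T t309 (L l167 (T t551 (L l28 (T t579 N)))))))⟩
def e0_63_106__134_42_153 : Ent 4 := ⟨[a0, a63, a106], [a134, a42, a158], (M a48 (F (T t309 (T t551 (L l28 (L l362 (T t579 N)))))))⟩
def e0_63_106__134_42_154 : Ent 4 := ⟨[a0, a63, a106], [a134, a42, a159], (M a240 (F (L l336 (T t4779 (L l170 (T t817 (L l336 (L l361 (T t4781 N)))))))))⟩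
def e0_63_106__134_42_155 : Ent 4 := ⟨[a0, a63, a106], [a134, a42, a160], (M a12 (F (T t2414 (L l56 (T t2415 (L l161 (T t2305 N)))))))⟩
def e0_63_106__134_42_156 : Ent 4 := ⟨[a0, a63, a106], [a134, a42, a161], (M a48 (F (T t309 (L l197 (L l453 (T t551 (L l28 (T t579 N))))))))⟩
def e0_63_106__134_42_157 : Ent 4 := ⟨[a0, a63, a106], [a134, a42, a162], (M a48 (F (T t309 (T t551 (L l28 (L l380 (T t579 N)))))))⟩
def e0_63_106__134_42_158 : Ent 4 := ⟨[a0, a63, a106], [a134, a42, a163], (M a48 (F (T t309 (T t551 (L l28 (T t579 N))))))⟩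
def e0_63_106__134_42_159 : Ent 4 := ⟨[a0, a63, a106], [a134, a42, a164], (M a48 (F (T t309 (L l222 (L l478 (T t551 (L l28 (T t579 N))))))))⟩
def e0_63_106__134_42_160 : Ent 4 := ⟨[a0, a63, a106], [a134, a42, a165], (M a48 (F (T t309 (L l28 (L l199 (L l483 (T t6462 (L l28 (T t579 N)))))))))⟩
def e0_63_106__134_42_161 : Ent 4 := ⟨[a0, a63, a106], [a134, a42, a166], (M a48 (L l200 (F (T t309 (L l202 (T t551 (L l28 (T t579 (K a150 (M a182 (F (T t304 (L l28 (T t579 (L l163 (L l202 (T t551 N)))))))) (K a182 (M a150 (F (T t304 (L l22 (L l336 (T t6858 N)))))) N))))))))))⟩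
def e0_63_106__134_42_162 : Ent 4 := ⟨[a0, a63, a106], [a134, a42, a167], (M a48 (F (T t309 (T t551 (L l28 (T t579 N))))))⟩
def e0_63_106__134_42_163 : Ent 4 := ⟨[a0, a63, a106], [a134, a42, a168], (M a48 (F (T t309 (T t551 (L l28 (L l400 (T t579 N)))))))⟩
def e0_63_106__134_42_164 : Ent 4 := ⟨[a0, a63, a106], [a134, a42, a169], (M a48 (F (T t309 (L l217 (T t551 (L l28 (T t579 N)))))))⟩
def e0_63_106__134_42_165 : Ent 4 := ⟨[a0, a63, a106], [a134, a42, a170], (M a48 (F (T t309 (L l220 (T t551 (L l28 (L l206 (L l220 (L l404 (T t552 (L l28 (L l206 (L l314 (L l404 (T t553 N)))))))))))))))⟩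
def e0_63_106__134_42_166 : Ent 4 := ⟨[a0, a63, a106], [a134, a42, a171], (M a48 (F (T t309 (T t551 (L l28 (T t579 N))))))⟩
def e0_63_106__134_42_167 : Ent 4 := ⟨[a0, a63, a106], [a134, a42, a172], (M a48 (F (T t309 (T t551 (L l28 (T t579 N))))))⟩
def e0_63_106__134_42_168 : Ent 4 := ⟨[a0, a63, a106], [a134, a42, a173], (M a48 (F (T t309 (T t551 (L l28 (T t579 N))))))⟩
def e0_63_106__134_42_169 : Ent 4 := ⟨[a0, a63, a106], [a134, a42, a174], (M a48 (F (T t309 (T t551 (L l28 (T t579 N))))))⟩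
def e0_63_106__134_42_170 : Ent 4 := ⟨[a0, a63, a106], [a134, a42, a175], (M a48 (F (T t309 (T t551 (L l28 (T t579 N))))))⟩
def e0_63_106__134_42_171 : Ent 4 := ⟨[a0, a63, a106], [a134, a42, a176], (M a240 (F (L l153 (T t4786 (L l192 (T t817 (L l190 (L l192 (L l336 (T t4781 N))))))))))⟩
def e0_63_106__134_42_172 : Ent 4 := ⟨[a0, a63, a106], [a134, a42, a177], (M a48 (F (T t309 (L l182 (L l417 (T t551 (L l28 (T t579 N))))))))⟩
def e0_63_106__134_42_173 : Ent 4 := ⟨[a0, a63, a106], [a134, a42, a178], (M a48 (F (T t309 (L l182 (T t551 (L l28 (T t579 N)))))))⟩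
def e0_63_106__134_42_174 : Ent 4 := ⟨[a0, a63, a106], [a134, a42, a179], (M a48 (F (T t309 (L l182 (T t551 (L l28 (T t579 N)))))))⟩
def e0_63_106__134_42_175 : Ent 4 := ⟨[a0, a63, a106], [a134, a42, a180], (M a48 (F (T t309 (L l186 (L l442 (T t551 (L l28 (T t579 N))))))))⟩
def e0_63_106__134_42_176 : Ent 4 := ⟨[a0, a63, a106], [a134, a42, a181], (M a48 (F (L l419 (T t309 (L l190 (L l199 (T t551 (L l28 (L l419 (T t579 N))))))))))⟩
def e0_63_106__134_42_177 : Ent 4 := ⟨[a0, a63, a106], [a134, a42, a182], (M a48 (L l200 (F (T t309 (T t551 (L l28 (T t579 (K a150 (M a166 (F (T t304 (L l56 (L l422 (T t6542 N)))))) (K a166 (M a150 (F (T t304 (L l22 (L l336 (T t6858 N)))))) N)))))))))⟩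
def e0_63_106__134_42_178 : Ent 4 := ⟨[a0, a63, a106], [a134, a42, a183], (M a48 (F (T t309 (L l202 (T t551 (L l28 (T t579 N)))))))⟩
def e0_63_106__134_42_179 : Ent 4 := ⟨[a0, a63, a106], [a134, a42, a184], (M a48 (F (T t309 (L l186 (T t551 (L l28 (T t579 N)))))))⟩
def e0_63_106__134_42_180 : Ent 4 := ⟨[a0, a63, a106], [a134, a42, a185], (M a48 (F (T t309 (T t551 (L l28 (T t579 N))))))⟩
def e0_63_106__134_42_181 : Ent 4 := ⟨[a0, a63, a106], [a134, a42, a186], (M a48 (F (T t309 (L l190 (T t551 (L l28 (T t579 N)))))))⟩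
def e0_63_106__134_42_182 : Ent 4 := ⟨[a0, a63, a106], [a134, a42, a187], (M a48 (F (T t309 (T t551 (L l28 (T t579 N))))))⟩
def e0_63_106__134_42_183 : Ent 4 := ⟨[a0, a63, a106], [a134, a42, a188], (M a48 (F (T t309 (L l186 (T t551 (L l28 (T t579 N)))))))⟩
def e0_63_106__134_42_184 : Ent 4 := ⟨[a0, a63, a106], [a134, a42, a189], (M a48 (F (T t309 (L l217 (T t551 (L l28 (T t579 N)))))))⟩
def e0_63_106__134_42_185 : Ent 4 := ⟨[a0, a63, a106], [a134, a42, a190], (M a48 (F (T t309 (T t551 (L l28 (T t579 N))))))⟩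
def e0_63_106__134_42_186 : Ent 4 := ⟨[a0, a63, a106], [a134, a42, a191], (M a48 (F (T t309 (L l190 (L l220 (T t551 (L l28 (T t6498 (L l28 (L l314 (T t6499 N)))))))))))⟩
def e0_63_106__134_42_187 : Ent 4 := ⟨[a0, a63, a106], [a134, a42, a192], (M a204 (F (L l489 (T t6655 (L l272 (L l489 (T t6656 (L l296 (L l489 (T t6657 (L l56 (L l489 (T t6658 (L l489 (T t6659 (K a145 (M a102 (L l489 (F (T t6641 (T t6660 (K a98 (Fr a51 a153 l513 (V t6661)) (K a51 (Fr a98 a110 l102 (V t6662)) N))))))) (K a85 (M a48 (F (L l292 (T t2046 (L l123 (L l236 (L l489 (T t6732 N)))))))) (K a157 (M a48 (F (T t5482 (L l28 (L l236 (T t579 (L l236 (T t6651 N)))))))) (K a98 (M a153 (L l489 (F (T t6645 (L l296 (T t6668 (L l26 (L l120 (L l378 (T t6669 (K a145 (Fr a51 a102 l513 (V t6670)) (K a51 (M a145 (F (T t6671 (L l56 (L l272 (L l314 (L l334 (L l378 (T t6672 N))))))))) N)))))))))))) (K a102 (M a252 (F (L l484 (T t6673 (L l148 (L l339 (T t6674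 (L l309 (T t6675 N))))))))) (K a110 (M a48 (F (T t6676 (L l28 (L l236 (T t579 (L l236 (T t6651 N)))))))) (K a51 (M a48 (L l489 (F (T t5482 (L l236 (T t6677 (K a145 (M a98 (F (T t6678 (L l292 (L l441 (T t1315 N)))))) (K a98 (M a145 (F (T t5482 (L l28 (L l120 (L l236 (T t579 (L l511 (T t6679 N))))))))) N)))))))) N))))))))))))))))))))))⟩
def e0_63_106__134_42_188 : Ent 4 := ⟨[a0, a63, a106], [a134, a42, a193], (M a48 (F (T t585 (L l515 (T t551 (L l28 (T t579 N)))))))⟩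
def e0_63_106__134_42_189 : Ent 4 := ⟨[a0, a63, a106], [a134, a42, a194], (M a48 (L l336 (F (T t578 (L l28 (L l234 (T t579 (T t551 (K a74 (M a14 (F (T t578 (L l28 (L l84 (L l234 (L l318 (T t579 (L l84 (T t551 N)))))))))) (K a14 (M a74 (F (T t578 (L l153 (T t6556 (L l28 (L l234 (T t579 N)))))))) N))))))))))⟩
def e0_63_106__134_42_190 : Ent 4 := ⟨[a0, a63, a106], [a134, a42, a195], (M a12 (F (T t2419 (L l161 (L l237 (T t2305 (L l56 (T t2415 N))))))))⟩
def e0_63_106__134_42_191 : Ent 4 := ⟨[a0, a63, a106], [a134, a42, a196], (M a48 (F (T t585 (L l495 (T t551 (L l28 (T t579 N)))))))⟩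
def e0_63_106__134_42_192 : Ent 4 := ⟨[a0, a63, a106], [a134, a42, a197], (M a240 (F (L l236 (L l336 (T t4779 (L l491 (T t817 (L l336 (T t4781 N)))))))))⟩
def e0_63_106__134_42_193 : Ent 4 := ⟨[a0, a63, a106], [a134, a42, a198], (M a48 (L l312 (F (T t578 (L l28 (L l234 (T t579 (T t551 (K a6 (M a70 (F (T t578 (L l28 (L l234 (T t579 (T t551 N))))))) (K a70 (M a6 (F (T t578 (L l28 (L l234 (T t579 (T t551 N))))))) N))))))))))⟩
def e0_63_106__134_42_194 : Ent 4 := ⟨[a0, a63, a106], [a134, a42, a199], (M a48 (L l314 (F (T t309 (T t551 (L l28 (T t579 (K a4 (M a69 (F (T t309 (L l158 (T t446 (T t551 N)))))) (K a69 (M a4 (F (T t309 (L l56 (T t518 N))))) N)))))))))⟩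
def e0_63_106__134_42_195 : Ent 4 := ⟨[a0, a63, a106], [a134, a42, a200], (M a48 (F (T t578 (L l28 (L l230 (T t579 (T t551 N)))))))⟩
def e0_63_106__134_42_196 : Ent 4 := ⟨[a0, a63, a106], [a134, a42, a201], (M a48 (F (T t578 (L l28 (L l230 (T t579 (T t551 N)))))))⟩
def e0_63_106__134_42_197 : Ent 4 := ⟨[a0, a63, a106], [a134, a42, a202], (M a240 (F (L l28 (T t815 (L l318 (L l336 (T t4781 (T t817 N))))))))⟩
def e0_63_106__134_42_198 : Ent 4 := ⟨[a0, a63, a106], [a134, a42, a203], (M a48 (F (T t2348 (L l28 (L l230 (T t579 (T t551 N)))))))⟩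
def e0_63_106__134_42_199 : Ent 4 := ⟨[a0, a63, a106], [a134, a42, a204], (M a48 (F (T t585 (L l298 (T t551 (L l28 (T t579 N)))))))⟩
def e0_63_106__134_42_200 : Ent 4 := ⟨[a0, a63, a106], [a134, a42, a205], (M a48 (F (T t309 (T t551 (L l28 (T t579 N))))))⟩
def e0_63_106__134_42_201 : Ent 4 := ⟨[a0, a63, a106], [a134, a42, a206], (M a48 (F (T t2348 (L l28 (L l234 (T t579 (T t551 N)))))))⟩
def e0_63_106__134_42_202 : Ent 4 := ⟨[a0, a63, a106], [a134, a42, a207], (M a240 (F (L l336 (T t6525 (L l512 (T t817 (L l336 (T t4781 N))))))))⟩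
def e0_63_106__134_42_203 : Ent 4 := ⟨[a0, a63, a106], [a134, a42, a208], (M a12 (F (T t2419 (L l161 (L l375 (T t2305 (L l56 (T t2415 N))))))))⟩
def e0_63_106__134_42_204 : Ent 4 := ⟨[a0, a63, a106], [a134, a42, a209], (M a48 (F (T t304 (L l28 (T t579 (L l371 (T t551 N)))))))⟩
def e0_63_106__134_42_205 : Ent 4 := ⟨[a0, a63, a106], [a134, a42, a210], (M a48 (F (T t309 (L l273 (T t551 (L l28 (T t579 N)))))))⟩
def e0_63_106__134_42_206 : Ent 4 := ⟨[a0, a63, a106], [a134, a42, a211], (M a48 (F (T t309 (T t551 (L l28 (L l245 (T t579 N)))))))⟩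
def e0_63_106__134_42_207 : Ent 4 := ⟨[a0, a63, a106], [a134, a42, a212], (M a48 (F (T t304 (L l28 (T t579 (L l351 (T t551 N)))))))⟩
def e0_63_106__134_42_208 : Ent 4 := ⟨[a0, a63, a106], [a134, a42, a213], (M a48 (F (T t304 (L l28 (L l246 (T t579 (L l347 (T t551 N))))))))⟩
def e0_63_106__134_42_209 : Ent 4 := ⟨[a0, a63, a106], [a134, a42, a214], (M a48 (F (T t309 (T t551 (L l28 (T t579 N))))))⟩
def e0_63_106__134_42_210 : Ent 4 := ⟨[a0, a63, a106], [a134, a42, a215], (M a48 (F (T t309 (T t551 (L l28 (L l245 (T t579 N)))))))⟩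
def e0_63_106__134_42_211 : Ent 4 := ⟨[a0, a63, a106], [a134, a42, a216], (M a48 (F (T t309 (L l298 (T t551 (L l28 (T t579 N)))))))⟩
def e0_63_106__134_42_212 : Ent 4 := ⟨[a0, a63, a106], [a134, a42, a217], (M a48 (F (T t309 (T t551 (L l28 (T t579 N))))))⟩
def e0_63_106__134_42_213 : Ent 4 := ⟨[a0, a63, a106], [a134, a42, a218], (M a48 (F (T t2348 (L l28 (L l246 (L l282 (T t579 (L l303 (T t551 N)))))))))⟩
def e0_63_106__134_42_214 : Ent 4 := ⟨[a0, a63, a106], [a134, a42, a219], (M a48 (F (T t309 (T t551 (L l28 (L l245 (T t579 N)))))))⟩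
def e0_63_106__134_42_215 : Ent 4 := ⟨[a0, a63, a106], [a134, a42, a220], (M a48 (F (T t309 (T t551 (L l28 (L l241 (T t579 N)))))))⟩
def e0_63_106__134_42_216 : Ent 4 := ⟨[a0, a63, a106], [a134, a42, a221], (M a48 (F (T t309 (T t551 (L l28 (L l241 (T t579 N)))))))⟩
def e0_63_106__134_42_217 : Ent 4 := ⟨[a0, a63, a106], [a134, a42, a222], (M a48 (F (T t309 (T t551 (L l28 (L l241 (T t579 N)))))))⟩
def e0_63_106__134_42_218 : Ent 4 := ⟨[a0, a63, a106], [a134, a42, a223], (M a240 (F (L l153 (T t4786 (L l368 (T t817 (L l336 (L l361 (T t4781 N)))))))))⟩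
def e0_63_106__134_42_219 : Ent 4 := ⟨[a0, a63, a106], [a134, a42, a224], (M a48 (F (T t585 (L l268 (L l376 (T t551 (L l28 (L l376 (T t579 N)))))))))⟩
def e0_63_106__134_42_220 : Ent 4 := ⟨[a0, a63, a106], [a134, a42, a225], (M a48 (F (T t309 (L l273 (T t551 (L l28 (T t579 N)))))))⟩
def e0_63_106__134_42_221 : Ent 4 := ⟨[a0, a63, a106], [a134, a42, a226], (M a48 (F (T t304 (L l28 (T t579 (T t551 N))))))⟩
def e0_63_106__134_42_222 : Ent 4 := ⟨[a0, a63, a106], [a134, a42, a227], (M a48 (F (T t309 (T t551 (L l28 (L l380 (T t579 N)))))))⟩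
def e0_63_106__134_42_223 : Ent 4 := ⟨[a0, a63, a106], [a134, a42, a228], (M a48 (F (T t309 (L l298 (T t551 (L l28 (T t579 N)))))))⟩
def e0_63_106__134_42_224 : Ent 4 := ⟨[a0, a63, a106], [a134, a42, a229], (M a48 (F (T t309 (L l28 (T t2289 (L l28 (T t579 N)))))))⟩
def e0_63_106__134_42_225 : Ent 4 := ⟨[a0, a63, a106], [a134, a42, a230], (M a48 (F (T t309 (T t551 (L l28 (T t579 N))))))⟩
def e0_63_106__134_42_226 : Ent 4 := ⟨[a0, a63, a106], [a134, a42, a231], (M a48 (F (T t309 (T t551 (L l28 (T t579 N))))))⟩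
def e0_63_106__134_42_227 : Ent 4 := ⟨[a0, a63, a106], [a134, a42, a232], (M a48 (F (T t304 (L l28 (T t579 (T t551 N))))))⟩
def e0_63_106__134_42_228 : Ent 4 := ⟨[a0, a63, a106], [a134, a42, a233], (M a48 (F (T t309 (T t551 (L l28 (T t579 N))))))⟩
def e0_63_106__134_42_229 : Ent 4 := ⟨[a0, a63, a106], [a134, a42, a234], (M a48 (F (T t578 (L l28 (L l282 (T t579 (T t551 N)))))))⟩
def e0_63_106__134_42_230 : Ent 4 := ⟨[a0, a63, a106], [a134, a42, a235], (M a48 (F (T t309 (T t551 (L l28 (T t579 N))))))⟩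
def e0_63_106__134_42_231 : Ent 4 := ⟨[a0, a63, a106], [a134, a42, a236], (M a48 (F (T t309 (T t551 (L l28 (L l400 (T t579 N)))))))⟩
def e0_63_106__134_42_232 : Ent 4 := ⟨[a0, a63, a106], [a134, a42, a237], (M a48 (F (T t309 (T t551 (L l28 (T t579 N))))))⟩
def e0_63_106__134_42_233 : Ent 4 := ⟨[a0, a63, a106], [a134, a42, a238], (M a48 (F (T t309 (T t551 (L l28 (T t579 N))))))⟩
def e0_63_106__134_42_234 : Ent 4 := ⟨[a0, a63, a106], [a134, a42, a239], (M a48 (F (T t309 (T t551 (L l28 (L l289 (L l404 (T t579 N))))))))⟩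
def e0_63_106__134_42_235 : Ent 4 := ⟨[a0, a63, a106], [a134, a42, a240], (M a12 (F (T t2419 (L l161 (L l298 (T t2305 (L l56 (T t2415 N))))))))⟩
def e0_63_106__134_42_236 : Ent 4 := ⟨[a0, a63, a106], [a134, a42, a241], (M a48 (F (T t309 (L l258 (T t551 (L l28 (T t579 N)))))))⟩
def e0_63_106__134_42_237 : Ent 4 := ⟨[a0, a63, a106], [a134, a42, a242], (M a48 (F (T t309 (L l258 (T t551 (L l28 (T t579 N)))))))⟩
def e0_63_106__134_42_238 : Ent 4 := ⟨[a0, a63, a106], [a134, a42, a243], (M a48 (F (T t585 (L l258 (T t551 (L l28 (T t579 N)))))))⟩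
def e0_63_106__134_42_239 : Ent 4 := ⟨[a0, a63, a106], [a134, a42, a244], (M a48 (F (T t309 (L l262 (T t551 (L l28 (T t579 N)))))))⟩
def e0_63_106__134_42_240 : Ent 4 := ⟨[a0, a63, a106], [a134, a42, a245], (M a48 (F (T t578 (L l28 (L l419 (T t579 (L l266 (T t551 N))))))))⟩
def e0_63_106__134_42_241 : Ent 4 := ⟨[a0, a63, a106], [a134, a42, a246], (M a48 (F (T t309 (T t551 (L l28 (T t579 N))))))⟩
def e0_63_106__134_42_242 : Ent 4 := ⟨[a0, a63, a106], [a134, a42, a247], (M a48 (F (T t309 (T t551 (L l28 (T t579 N))))))⟩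
def e0_63_106__134_42_243 : Ent 4 := ⟨[a0, a63, a106], [a134, a42, a248], (M a48 (F (T t309 (L l262 (T t551 (L l28 (T t579 N)))))))⟩
def e0_63_106__134_42_244 : Ent 4 := ⟨[a0, a63, a106], [a134, a42, a249], (M a48 (F (T t309 (T t551 (L l28 (T t579 N))))))⟩
def e0_63_106__134_42_245 : Ent 4 := ⟨[a0, a63, a106], [a134, a42, a250], (M a48 (F (T t578 (L l28 (L l282 (T t579 (L l266 (T t551 N))))))))⟩
def e0_63_106__134_42_246 : Ent 4 := ⟨[a0, a63, a106], [a134, a42, a251], (M a48 (F (T t309 (T t551 (L l28 (T t579 N))))))⟩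
def e0_63_106__134_42_247 : Ent 4 := ⟨[a0, a63, a106], [a134, a42, a252], (M a48 (F (T t585 (L l262 (T t551 (L l28 (T t579 N)))))))⟩
def e0_63_106__134_42_248 : Ent 4 := ⟨[a0, a63, a106], [a134, a42, a253], (M a48 (F (T t309 (T t551 (L l28 (T t579 N))))))⟩
def e0_63_106__134_42_249 : Ent 4 := ⟨[a0, a63, a106], [a134, a42, a254], (M a48 (F (T t309 (T t551 (L l28 (T t579 N))))))⟩
def e0_63_106__134_42_250 : Ent 4 := ⟨[a0, a63, a106], [a134, a42, a255], (M a48 (F (T t585 (L l266 (T t551 (L l28 (L l469 (T t6526 (L l28 (L l289 (T t6527 N)))))))))))⟩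
def b0_63_106__134_42 : Blk 4 := ⟨[0, 63, 106], [134, 42], [1, 2, 3, 4, 5, 6, 7, 8, 9, 10, 11, 12, 13, 14, 15, 16, 17, 18, 19, 20, 21, 22, 23, 24, 25, 26, 27, 28, 29, 30, 31, 32, 33, 34, 35, 36, 37, 38, 39, 40, 41, 43, 44, 45, 46, 47, 48, 49, 50, 51, 52, 53, 54, 55, 56, 57, 58, 59, 60, 61, 62, 64, 65, 66, 67, 68, 69, 70, 71, 72, 73, 74, 75, 76, 77, 78, 79, 80, 81, 82, 83, 84, 85, 86, 87, 88, 89, 90, 91, 92, 93, 94, 95, 96, 97, 98, 99, 100, 101, 102, 103, 104, 105, 107, 108, 109, 110, 111, 112, 113, 114, 115, 116, 117, 118, 119, 120, 121, 122, 123, 124, 125, 126, 127, 128, 129, 130, 131, 132, 133, 135, 136, 137, 138, 139, 140, 141, 142, 143, 144, 145, 146, 147, 148, 149, 150, 151, 152, 153, 154, 155, 156, 157, 158, 159, 160, 161, 162, 163, 164, 165, 166, 167, 168, 169, 170, 171, 172, 173, 174, 175, 176, 177, 178, 179, 180, 181, 182, 183, 184, 185, 186, 187, 188, 189, 190, 191, 192, 193, 194, 195, 196, 197, 198,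 199, 200, 201, 202, 203, 204, 205, 206, 207, 208, 209, 210, 211, 212, 213, 214, 215, 216, 217, 218, 219, 220, 221, 222, 223, 224, 225, 226, 227, 228, 229, 230, 231, 232, 233, 234, 235, 236, 237, 238, 239, 240, 241, 242, 243, 244, 245, 246, 247, 248, 249, 250, 251, 252, 253, 254, 255], [e0_63_106__134_42_0, e0_63_106__134_42_1, e0_63_106__134_42_2, e0_63_106__134_42_3, e0_63_106__134_42_4, e0_63_106__134_42_5, e0_63_106__134_42_6, e0_63_106__134_42_7, e0_63_106__134_42_8, e0_63_106__134_42_9, e0_63_106__134_42_10, e0_63_106__134_42_11, e0_63_106__134_42_12, e0_63_106__134_42_13, e0_63_106__134_42_14, e0_63_106__134_42_15, e0_63_106__134_42_16, e0_63_106__134_42_17, e0_63_106__134_42_18, e0_63_106__134_42_19, e0_63_106__134_42_20, e0_63_106__134_42_21, e0_63_106__134_42_22, e0_63_106__134_42_23, e0_63_106__134_42_24, e0_63_106__134_42_25, e0_63_106__134_42_26, e0_63_106__134_42_27, e0_63_106__134_42_28, e0_63_106__134_42_29,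 e0_63_106__134_42_30, e0_63_106__134_42_31, e0_63_106__134_42_32, e0_63_106__134_42_33, e0_63_106__134_42_34, e0_63_106__134_42_35, e0_63_106__134_42_36, e0_63_106__134_42_37, e0_63_106__134_42_38, e0_63_106__134_42_39, e0_63_106__134_42_40, e0_63_106__134_42_41, e0_63_106__134_42_42, e0_63_106__134_42_43, e0_63_106__134_42_44, e0_63_106__134_42_45, e0_63_106__134_42_46, e0_63_106__134_42_47, e0_63_106__134_42_48, e0_63_106__134_42_49, e0_63_106__134_42_50, e0_63_106__134_42_51, e0_63_106__134_42_52, e0_63_106__134_42_53, e0_63_106__134_42_54, e0_63_106__134_42_55, e0_63_106__134_42_56, e0_63_106__134_42_57, e0_63_106__134_42_58, e0_63_106__134_42_59, e0_63_106__134_42_60, e0_63_106__134_42_61, e0_63_106__134_42_62, e0_63_106__134_42_63, e0_63_106__134_42_64, e0_63_106__134_42_65, e0_63_106__134_42_66, e0_63_106__134_42_67, e0_63_106__134_42_68, e0_63_106__134_42_69, e0_63_106__134_42_70, e0_63_106__134_42_71,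 e0_63_106__134_42_72, e0_63_106__134_42_73, e0_63_106__134_42_74, e0_63_106__134_42_75, e0_63_106__134_42_76, e0_63_106__134_42_77, e0_63_106__134_42_78, e0_63_106__134_42_79, e0_63_106__134_42_80, e0_63_106__134_42_81, e0_63_106__134_42_82, e0_63_106__134_42_83, e0_63_106__134_42_84, e0_63_106__134_42_85, e0_63_106__134_42_86, e0_63_106__134_42_87, e0_63_106__134_42_88, e0_63_106__134_42_89, e0_63_106__134_42_90, e0_63_106__134_42_91, e0_63_106__134_42_92, e0_63_106__134_42_93, e0_63_106__134_42_94, e0_63_106__134_42_95, e0_63_106__134_42_96, e0_63_106__134_42_97, e0_63_106__134_42_98, e0_63_106__134_42_99, e0_63_106__134_42_100, e0_63_106__134_42_101, e0_63_106__134_42_102, e0_63_106__134_42_103, e0_63_106__134_42_104, e0_63_106__134_42_105, e0_63_106__134_42_106, e0_63_106__134_42_107, e0_63_106__134_42_108, e0_63_106__134_42_109, e0_63_106__134_42_110, e0_63_106__134_42_111, e0_63_106__134_42_112, e0_63_106__134_42_113,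 e0_63_106__134_42_114, e0_63_106__134_42_115, e0_63_106__134_42_116, e0_63_106__134_42_117, e0_63_106__134_42_118, e0_63_106__134_42_119, e0_63_106__134_42_120, e0_63_106__134_42_121, e0_63_106__134_42_122, e0_63_106__134_42_123, e0_63_106__134_42_124, e0_63_106__134_42_125, e0_63_106__134_42_126, e0_63_106__134_42_127, e0_63_106__134_42_128, e0_63_106__134_42_129, e0_63_106__134_42_130, e0_63_106__134_42_131, e0_63_106__134_42_132, e0_63_106__134_42_133, e0_63_106__134_42_134, e0_63_106__134_42_135, e0_63_106__134_42_136, e0_63_106__134_42_137, e0_63_106__134_42_138, e0_63_106__134_42_139, e0_63_106__134_42_140, e0_63_106__134_42_141, e0_63_106__134_42_142, e0_63_106__134_42_143, e0_63_106__134_42_144, e0_63_106__134_42_145, e0_63_106__134_42_146, e0_63_106__134_42_147, e0_63_106__134_42_148, e0_63_106__134_42_149, e0_63_106__134_42_150, e0_63_106__134_42_151, e0_63_106__134_42_152, e0_63_106__134_42_153, e0_63_106__134_42_154,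 e0_63_106__134_42_155, e0_63_106__134_42_156, e0_63_106__134_42_157, e0_63_106__134_42_158, e0_63_106__134_42_159, e0_63_106__134_42_160, e0_63_106__134_42_161, e0_63_106__134_42_162, e0_63_106__134_42_163, e0_63_106__134_42_164, e0_63_106__134_42_165, e0_63_106__134_42_166, e0_63_106__134_42_167, e0_63_106__134_42_168, e0_63_106__134_42_169, e0_63_106__134_42_170, e0_63_106__134_42_171, e0_63_106__134_42_172, e0_63_106__134_42_173, e0_63_106__134_42_174, e0_63_106__134_42_175, e0_63_106__134_42_176, e0_63_106__134_42_177, e0_63_106__134_42_178, e0_63_106__134_42_179, e0_63_106__134_42_180, e0_63_106__134_42_181, e0_63_106__134_42_182, e0_63_106__134_42_183, e0_63_106__134_42_184, e0_63_106__134_42_185, e0_63_106__134_42_186, e0_63_106__134_42_187, e0_63_106__134_42_188, e0_63_106__134_42_189, e0_63_106__134_42_190, e0_63_106__134_42_191, e0_63_106__134_42_192, e0_63_106__134_42_193, e0_63_106__134_42_194, e0_63_106__134_42_195,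 e0_63_106__134_42_196, e0_63_106__134_42_197, e0_63_106__134_42_198, e0_63_106__134_42_199, e0_63_106__134_42_200, e0_63_106__134_42_201, e0_63_106__134_42_202, e0_63_106__134_42_203, e0_63_106__134_42_204, e0_63_106__134_42_205, e0_63_106__134_42_206, e0_63_106__134_42_207, e0_63_106__134_42_208, e0_63_106__134_42_209, e0_63_106__134_42_210, e0_63_106__134_42_211, e0_63_106__134_42_212, e0_63_106__134_42_213, e0_63_106__134_42_214, e0_63_106__134_42_215, e0_63_106__134_42_216, e0_63_106__134_42_217, e0_63_106__134_42_218, e0_63_106__134_42_219, e0_63_106__134_42_220, e0_63_106__134_42_221, e0_63_106__134_42_222, e0_63_106__134_42_223, e0_63_106__134_42_224, e0_63_106__134_42_225, e0_63_106__134_42_226, e0_63_106__134_42_227, e0_63_106__134_42_228, e0_63_106__134_42_229, e0_63_106__134_42_230, e0_63_106__134_42_231, e0_63_106__134_42_232, e0_63_106__134_42_233, e0_63_106__134_42_234, e0_63_106__134_42_235, e0_63_106__134_42_236,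 e0_63_106__134_42_237, e0_63_106__134_42_238, e0_63_106__134_42_239, e0_63_106__134_42_240, e0_63_106__134_42_241, e0_63_106__134_42_242, e0_63_106__134_42_243, e0_63_106__134_42_244, e0_63_106__134_42_245, e0_63_106__134_42_246, e0_63_106__134_42_247, e0_63_106__134_42_248, e0_63_106__134_42_249, e0_63_106__134_42_250], by decide +kernel, by decide +kernel⟩

end Pool.Agent.Lib_TTT.K4
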