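import Pool.Agent.Lib_TTT.K4Base
import Pool.Agent.Lib_TTT.K4T00
import Pool.Agent.Lib_TTT.K4T01
import Pool.Agent.Lib_TTT.K4T02
import Pool.Agent.Lib_TTT.K4T03
import Pool.Agent.Lib_TTT.K4T04
import Pool.Agent.Lib_TTT.K4T05
import Pool.Agent.Lib_TTT.K4T06
import Pool.Agent.Lib_TTT.K4T07
import Pool.Agent.Lib_TTT.K4T08

/-! Certificates in `4^4`. -/

set_option autoImplicit false
set_option maxRecDepth 200000

namespace Pool.Agent.Lib_TTT.K4

open Lib_TTT AC DC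

def e0_63_106__135_42_0 : Ent 4 := ⟨[a0, a63, a106], [a135, a42, a1], (M a48 (F (T t309 (T t551 (L l28 (T t579 N))))))⟩
def e0_63_106__135_42_1 : Ent 4 := ⟨[a0, a63, a106], [a135, a42, a2], (M a48 (L l66 (F (T t309 (T t551 (L l28 (T t579 (K a22 (M a62 (F (T t307 (L l22 (L l306 (T t5926 N)))))) (K a62 (M a22 (F (T t578 (L l28 (T t579 (T t551 N)))))) N)))))))))⟩
def e0_63_106__135_42_2 : Ent 4 := ⟨[a0, a63, a106], [a135, a42, a3], (M a48 (F (T t585 (L l453 (T t551 (L l28 (T t579 N)))))))⟩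
def e0_63_106__135_42_3 : Ent 4 := ⟨[a0, a63, a106], [a135, a42, a4], (M a48 (F (T t309 (T t551 (L l28 (T t579 N))))))⟩
def e0_63_106__135_42_4 : Ent 4 := ⟨[a0, a63, a106], [a135, a42, a5], (M a48 (F (T t578 (L l28 (L l47 (T t579 (T t551 N)))))))⟩
def e0_63_106__135_42_5 : Ent 4 := ⟨[a0, a63, a106], [a135, a42, a6], (M a48 (F (T t309 (T t551 (L l28 (T t579 N))))))⟩
def e0_63_106__135_42_6 : Ent 4 := ⟨[a0, a63, a106], [a135, a42, a7], (M a48 (L l313 (F (T t309 (T t551 (L l28 (T t579 (K a71 (M a199 (F (T t309 (T t551 (L l28 (T t579 N)))))) (K a199 (M a71 (F (T t309 (T t551 (L l28 (T t579 N)))))) N)))))))))⟩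
def e0_63_106__135_42_7 : Ent 4 := ⟨[a0, a63, a106], [a135, a42, a8], (M a48 (L l56 (F (T t309 (T t551 (L l28 (T t579 (K a25 (M a59 (F (T t307 (L l26 (L l316 (T t6445 N)))))) (K a59 (M a25 (F (T t578 (L l28 (T t579 (T t551 N)))))) N)))))))))⟩
def e0_63_106__135_42_8 : Ent 4 := ⟨[a0, a63, a106], [a135, a42, a9], (M a48 (F (T t309 (T t551 (L l28 (T t579 N))))))⟩
def e0_63_106__135_42_9 : Ent 4 := ⟨[a0, a63, a106], [a135, a42, a10], (M a48 (L l54 (F (T t578 (L l28 (L l318 (T t579 (T t551 (K a26 (Fr a58 a53 l38 (V t6446)) (K a58 (M a26 (F (L l28 (T t4144 (T t551 (L l28 (L l426 (T t6447 (K a32 (Fr a192 a149 l519 (Fr a15 a37 l75 (Fr a47 a31 l61 (V t6528)))) N))))))))) N))))))))))⟩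
def e0_63_106__135_42_10 : Ent 4 := ⟨[a0, a63, a106], [a135, a42, a11], (M a48 (F (T t309 (T t551 (L l28 (T t579 N))))))⟩
def e0_63_106__135_42_11 : Ent 4 := ⟨[a0, a63, a106], [a135, a42, a12], (M a48 (F (T t585 (L l478 (T t551 (L l28 (T t579 N)))))))⟩
def e0_63_106__135_42_12 : Ent 4 := ⟨[a0, a63, a106], [a135, a42, a13], (M a48 (F (T t309 (T t551 (L l28 (T t579 N))))))⟩
def e0_63_106__135_42_13 : Ent 4 := ⟨[a0, a63, a106], [a135, a42, a14], (M a48 (F (T t309 (T t551 (L l28 (T t579 N))))))⟩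
def e0_63_106__135_42_14 : Ent 4 := ⟨[a0, a63, a106], [a135, a42, a15], (M a195 (F (L l339 (T t6880 (L l7 (L l159 (T t6810 (L l201 (T t6811 N)))))))))⟩
def e0_63_106__135_42_15 : Ent 4 := ⟨[a0, a63, a106], [a135, a42, a16], (M a240 (F (L l153 (T t4786 (L l340 (T t4780 (T t4781 N)))))))⟩
def e0_63_106__135_42_16 : Ent 4 := ⟨[a0, a63, a106], [a135, a42, a17], (M a48 (F (T t309 (T t551 (L l28 (T t579 N))))))⟩
def e0_63_106__135_42_17 : Ent 4 := ⟨[a0, a63, a106], [a135, a42, a18], (M a48 (F (T t309 (T t551 (L l28 (T t579 N))))))⟩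
def e0_63_106__135_42_18 : Ent 4 := ⟨[a0, a63, a106], [a135, a42, a19], (M a48 (F (T t309 (T t551 (L l28 (L l367 (T t579 N)))))))⟩
def e0_63_106__135_42_19 : Ent 4 := ⟨[a0, a63, a106], [a135, a42, a20], (M a48 (F (T t309 (T t551 (L l28 (T t579 N))))))⟩
def e0_63_106__135_42_20 : Ent 4 := ⟨[a0, a63, a106], [a135, a42, a21], (M a48 (F (L l47 (T t309 (L l347 (T t551 (L l28 (L l47 (T t579 N)))))))))⟩
def e0_63_106__135_42_21 : Ent 4 := ⟨[a0, a63, a106], [a135, a42, a22], (M a48 (L l66 (F (T t309 (T t551 (L l28 (T t579 (K a2 (M a62 (F (T t307 (L l22 (L l306 (T t5926 N)))))) (K a62 (M a2 (F (T t307 (L l19 (L l28 (T t342 N)))))) N)))))))))⟩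
def e0_63_106__135_42_22 : Ent 4 := ⟨[a0, a63, a106], [a135, a42, a23], (M a48 (F (T t309 (L l351 (T t551 (L l28 (T t579 N)))))))⟩
def e0_63_106__135_42_23 : Ent 4 := ⟨[a0, a63, a106], [a135, a42, a24], (M a48 (F (T t309 (T t551 (L l28 (T t579 N))))))⟩
def e0_63_106__135_42_24 : Ent 4 := ⟨[a0, a63, a106], [a135, a42, a25], (M a48 (L l56 (F (T t309 (T t551 (L l28 (T t579 (K a8 (M a59 (F (T t307 (L l26 (L l316 (T t6445 N)))))) (K a59 (M a8 (F (T t307 (L l19 (L l28 (T t4700 N)))))) N)))))))))⟩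
def e0_63_106__135_42_25 : Ent 4 := ⟨[a0, a63, a106], [a135, a42, a26], (M a48 (L l54 (F (T t309 (L l28 (T t579 (T t551 (K a10 (Fr a58 a53 l38 (V t6446)) (K a58 (M a10 (F (L l28 (T t2289 (L l153 (T t4033 (L l18 (L l354 (T t6449 (L l18 (L l426 (T t6450 N)))))))))))) N)))))))))⟩
def e0_63_106__135_42_26 : Ent 4 := ⟨[a0, a63, a106], [a135, a42, a27], (M a48 (F (T t309 (T t551 (L l28 (T t579 N))))))⟩
def e0_63_106__135_42_27 : Ent 4 := ⟨[a0, a63, a106], [a135, a42, a28], (M a48 (F (T t309 (T t551 (L l28 (L l362 (T t579 N)))))))⟩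
def e0_63_106__135_42_28 : Ent 4 := ⟨[a0, a63, a106], [a135, a42, a29], (M a48 (F (T t309 (L l371 (T t551 (L l28 (T t579 N)))))))⟩
def e0_63_106__135_42_29 : Ent 4 := ⟨[a0, a63, a106], [a135, a42, a30], (M a48 (F (T t309 (T t551 (L l28 (T t579 N))))))⟩
def e0_63_106__135_42_30 : Ent 4 := ⟨[a0, a63, a106], [a135, a42, a31], (M a48 (F (T t309 (L l375 (T t551 (L l28 (L l361 (T t579 N))))))))⟩
def e0_63_106__135_42_31 : Ent 4 := ⟨[a0, a63, a106], [a135, a42, a32], (M a240 (L l28 (F (T t4779 (L l376 (T t6588 (L l376 (T t4781 (K a37 (M a47 (F (T t6602 (T t6698 (T t6604 N))))) (K a47 (M a37 (F (L l376 (T t6588 (L l54 (L l203 (T t6699 (L l376 (T t4781 N))))))))) N))))))))))⟩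
def e0_63_106__135_42_32 : Ent 4 := ⟨[a0, a63, a106], [a135, a42, a33], (M a48 (F (T t309 (T t551 (L l20 (L l28 (T t579 N)))))))⟩
def e0_63_106__135_42_33 : Ent 4 := ⟨[a0, a63, a106], [a135, a42, a34], (M a48 (L l26 (F (T t309 (T t551 (L l20 (L l28 (T t579 (K a38 (M a46 (F (T t307 (L l56 (L l378 (T t4030 N)))))) (K a46 (M a38 (F (T t578 (L l20 (L l28 (T t579 (T t551 N))))))) N))))))))))⟩
def e0_63_106__135_42_34 : Ent 4 := ⟨[a0, a63, a106], [a135, a42, a35], (M a48 (F (T t309 (T t551 (L l20 (L l28 (T t579 N)))))))⟩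
def e0_63_106__135_42_35 : Ent 4 := ⟨[a0, a63, a106], [a135, a42, a36], (M a48 (F (T t309 (T t551 (L l24 (L l28 (T t579 N)))))))⟩
def e0_63_106__135_42_36 : Ent 4 := ⟨[a0, a63, a106], [a135, a42, a37], (M a240 (L l28 (F (T t4779 (T t6606 (T t4781 (K a32 (M a47 (F (T t6602 (T t6698 (T t6604 N))))) (K a47 (M a32 (F (T t6607 (T t4781 (L l54 (T t6608 N)))))) N))))))))⟩
def e0_63_106__135_42_37 : Ent 4 := ⟨[a0, a63, a106], [a135, a42, a38], (M a48 (L l26 (F (T t309 (T t551 (L l28 (T t579 (K a34 (M a46 (F (T t307 (L l56 (L l378 (T t4030 N)))))) (K a46 (M a34 (F (T t307 (L l29 (L l66 (T t6453 N)))))) N)))))))))⟩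
def e0_63_106__135_42_38 : Ent 4 := ⟨[a0, a63, a106], [a135, a42, a39], (M a48 (F (T t309 (T t551 (L l28 (T t579 N))))))⟩
def e0_63_106__135_42_39 : Ent 4 := ⟨[a0, a63, a106], [a135, a42, a40], (M a48 (L l22 (F (T t309 (T t551 (L l24 (L l28 (T t579 (K a41 (M a43 (F (T t578 (L l66 (L l388 (T t6451 N)))))) (K a43 (M a41 (F (T t578 (L l24 (L l28 (T t579 (T t551 N))))))) N))))))))))⟩
def e0_63_106__135_42_40 : Ent 4 := ⟨[a0, a63, a106], [a135, a42, a41], (M a48 (L l22 (F (T t309 (T t551 (L l28 (T t579 (K a40 (M a43 (F (T t578 (L l66 (L l388 (T t6451 N)))))) (K a43 (M a40 (F (T t307 (L l29 (L l69 (T t6452 N)))))) N)))))))))⟩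
def e0_63_106__135_42_41 : Ent 4 := ⟨[a0, a63, a106], [a135, a42, a43], (M a48 (L l22 (F (T t309 (T t551 (L l28 (T t579 (K a40 (M a41 (F (T t578 (L l24 (L l28 (T t579 (T t551 N))))))) (K a41 (M a40 (F (T t307 (L l29 (L l69 (T t6452 N)))))) N)))))))))⟩
def e0_63_106__135_42_42 : Ent 4 := ⟨[a0, a63, a106], [a135, a42, a44], (M a48 (F (T t309 (T t551 (L l24 (L l28 (T t579 N)))))))⟩
def e0_63_106__135_42_43 : Ent 4 := ⟨[a0, a63, a106], [a135, a42, a45], (M a48 (F (T t309 (T t551 (L l28 (T t579 N))))))⟩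
def e0_63_106__135_42_44 : Ent 4 := ⟨[a0, a63, a106], [a135, a42, a46], (M a48 (L l26 (F (T t309 (T t551 (L l28 (T t579 (K a34 (M a38 (F (T t578 (L l20 (L l28 (T t579 (T t551 N))))))) (K a38 (M a34 (F (T t307 (L l29 (L l66 (T t6453 N)))))) N)))))))))⟩
def e0_63_106__135_42_45 : Ent 4 := ⟨[a0, a63, a106], [a135, a42, a47], (M a12 (L l28 (F (T t2414 (L l56 (T t2415 (T t2305 (K a32 (M a37 (F (T t6812 (T t2305 (L l56 (T t2415 N)))))) (K a37 (M a32 (F (T t2419 (L l51 (L l56 (T t682 N)))))) N)))))))))⟩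
def e0_63_106__135_42_46 : Ent 4 := ⟨[a0, a63, a106], [a135, a42, a48], (M a12 (F (T t2419 (L l508 (T t2305 (L l56 (T t2415 N)))))))⟩
def e0_63_106__135_42_47 : Ent 4 := ⟨[a0, a63, a106], [a135, a42, a49], (M a48 (F (T t578 (L l28 (L l35 (T t579 (T t551 N)))))))⟩
def e0_63_106__135_42_48 : Ent 4 := ⟨[a0, a63, a106], [a135, a42, a50], (M a48 (F (T t309 (T t551 (L l28 (T t579 N))))))⟩
def e0_63_106__135_42_49 : Ent 4 := ⟨[a0, a63, a106], [a135, a42, a51], (M a48 (F (T t585 (L l417 (T t551 (L l28 (T t579 N)))))))⟩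
def e0_63_106__135_42_50 : Ent 4 := ⟨[a0, a63, a106], [a135, a42, a52], (M a48 (F (T t578 (L l28 (L l31 (T t579 (T t551 N)))))))⟩
def e0_63_106__135_42_51 : Ent 4 := ⟨[a0, a63, a106], [a135, a42, a53], (M a240 (F (L l419 (T t4779 (L l491 (T t817 (L l419 (T t4781 N))))))))⟩
def e0_63_106__135_42_52 : Ent 4 := ⟨[a0, a63, a106], [a135, a42, a54], (M a48 (F (T t578 (L l28 (L l31 (T t579 (T t551 N)))))))⟩
def e0_63_106__135_42_53 : Ent 4 := ⟨[a0, a63, a106], [a135, a42, a55], (M a48 (F (L l31 (T t309 (L l495 (T t551 (L l28 (L l31 (T t579 N)))))))))⟩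
def e0_63_106__135_42_54 : Ent 4 := ⟨[a0, a63, a106], [a135, a42, a56], (M a48 (F (T t309 (T t551 (L l28 (T t579 N))))))⟩
def e0_63_106__135_42_55 : Ent 4 := ⟨[a0, a63, a106], [a135, a42, a57], (M a48 (F (T t578 (L l28 (L l35 (T t579 (T t551 N)))))))⟩
def e0_63_106__135_42_56 : Ent 4 := ⟨[a0, a63, a106], [a135, a42, a58], (M a240 (L l54 (F (T t4779 (T t817 (T t4781 (K a10 (M a26 (F (L l318 (T t4779 (T t817 (L l318 (L l462 (T t6482 N)))))))) (K a26 (M a10 (F (T t4779 (L l203 (T t6610 (L l18 (T t6611 N))))))) N))))))))⟩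
def e0_63_106__135_42_57 : Ent 4 := ⟨[a0, a63, a106], [a135, a42, a59], (M a48 (L l56 (F (T t309 (T t551 (L l28 (T t579 (K a8 (M a25 (F (T t578 (L l28 (T t579 (T t551 N)))))) (K a25 (M a8 (F (T t307 (L l19 (L l28 (T t4700 N)))))) N)))))))))⟩
def e0_63_106__135_42_58 : Ent 4 := ⟨[a0, a63, a106], [a135, a42, a60], (M a48 (F (T t585 (L l442 (T t551 (L l28 (T t579 N)))))))⟩
def e0_63_106__135_42_59 : Ent 4 := ⟨[a0, a63, a106], [a135, a42, a61], (M a48 (F (L l35 (T t309 (L l515 (T t551 (L l28 (L l35 (T t579 N)))))))))⟩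
def e0_63_106__135_42_60 : Ent 4 := ⟨[a0, a63, a106], [a135, a42, a62], (M a48 (L l66 (F (T t309 (T t551 (L l28 (T t579 (K a2 (M a22 (F (T t578 (L l28 (T t579 (T t551 N)))))) (K a22 (M a2 (F (T t307 (L l19 (L l28 (T t342 N)))))) N)))))))))⟩
def e0_63_106__135_42_61 : Ent 4 := ⟨[a0, a63, a106], [a135, a42, a64], (M a48 (F (T t585 (L l28 (T t6454 (L l28 (T t6455 (L l28 (T t6456 (L l28 (L l84 (T t6457 (L l54 (T t6458 (K a207 (Fr a192 a149 l519 (Fr a96 a144 l484 (Fr a101 a111 l104 (Fr a32 a16 l40 (V t6459))))) N)))))))))))))))⟩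
def e0_63_106__135_42_62 : Ent 4 := ⟨[a0, a63, a106], [a135, a42, a65], (M a48 (F (T t309 (L l76 (T t551 (L l28 (L l76 (T t579 N))))))))⟩
def e0_63_106__135_42_63 : Ent 4 := ⟨[a0, a63, a106], [a135, a42, a66], (M a48 (F (T t304 (L l28 (L l76 (T t579 (L l76 (T t551 N))))))))⟩
def e0_63_106__135_42_64 : Ent 4 := ⟨[a0, a63, a106], [a135, a42, a67], (M a48 (F (T t309 (L l76 (T t551 (L l28 (L l76 (T t579 N))))))))⟩
def e0_63_106__135_42_65 : Ent 4 := ⟨[a0, a63, a106], [a135, a42, a68], (M a48 (F (T t309 (L l80 (T t551 (L l28 (L l80 (T t579 N))))))))⟩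
def e0_63_106__135_42_66 : Ent 4 := ⟨[a0, a63, a106], [a135, a42, a69], (M a48 (F (T t309 (L l84 (T t551 (L l28 (L l84 (T t579 N))))))))⟩
def e0_63_106__135_42_67 : Ent 4 := ⟨[a0, a63, a106], [a135, a42, a70], (M a48 (F (T t309 (T t551 (L l28 (T t579 N))))))⟩
def e0_63_106__135_42_68 : Ent 4 := ⟨[a0, a63, a106], [a135, a42, a71], (M a48 (L l313 (F (T t309 (T t551 (L l28 (T t579 (K a7 (M a199 (F (T t309 (T t551 (L l28 (T t579 N)))))) (K a199 (M a7 (F (T t309 (T t551 (L l28 (T t579 N)))))) N)))))))))⟩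
def e0_63_106__135_42_69 : Ent 4 := ⟨[a0, a63, a106], [a135, a42, a72], (M a48 (F (T t304 (L l28 (L l80 (T t579 (L l80 (T t551 N))))))))⟩
def e0_63_106__135_42_70 : Ent 4 := ⟨[a0, a63, a106], [a135, a42, a73], (M a48 (F (T t309 (T t551 (L l28 (T t579 N))))))⟩
def e0_63_106__135_42_71 : Ent 4 := ⟨[a0, a63, a106], [a135, a42, a74], (M a48 (F (T t578 (L l28 (L l84 (L l318 (T t579 (L l84 (T t551 N)))))))))⟩
def e0_63_106__135_42_72 : Ent 4 := ⟨[a0, a63, a106], [a135, a42, a75], (M a195 (F (L l201 (T t6816 (L l159 (T t6810 (L l201 (T t6811 N))))))))⟩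
def e0_63_106__135_42_73 : Ent 4 := ⟨[a0, a63, a106], [a135, a42, a76], (M a48 (F (T t309 (L l80 (T t551 (L l28 (L l80 (T t579 N))))))))⟩
def e0_63_106__135_42_74 : Ent 4 := ⟨[a0, a63, a106], [a135, a42, a77], (M a48 (F (T t309 (T t551 (L l28 (T t579 N))))))⟩
def e0_63_106__135_42_75 : Ent 4 := ⟨[a0, a63, a106], [a135, a42, a78], (M a48 (F (T t309 (T t551 (L l28 (T t579 N))))))⟩
def e0_63_106__135_42_76 : Ent 4 := ⟨[a0, a63, a106], [a135, a42, a79], (M a48 (F (T t309 (L l84 (T t551 (L l28 (L l84 (T t579 N))))))))⟩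
def e0_63_106__135_42_77 : Ent 4 := ⟨[a0, a63, a106], [a135, a42, a80], (M a12 (F (T t2414 (L l56 (L l116 (T t2415 (L l116 (T t2305 N))))))))⟩
def e0_63_106__135_42_78 : Ent 4 := ⟨[a0, a63, a106], [a135, a42, a81], (M a48 (F (T t309 (L l120 (T t551 (L l28 (L l120 (T t579 N))))))))⟩
def e0_63_106__135_42_79 : Ent 4 := ⟨[a0, a63, a106], [a135, a42, a82], (M a48 (F (T t309 (L l453 (T t551 (L l28 (T t579 N)))))))⟩
def e0_63_106__135_42_80 : Ent 4 := ⟨[a0, a63, a106], [a135, a42, a83], (M a48 (F (T t309 (T t551 (L l28 (T t579 N))))))⟩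
def e0_63_106__135_42_81 : Ent 4 := ⟨[a0, a63, a106], [a135, a42, a84], (M a48 (F (T t309 (L l140 (T t551 (L l28 (L l140 (T t579 N))))))))⟩
def e0_63_106__135_42_82 : Ent 4 := ⟨[a0, a63, a106], [a135, a42, a85], (M a48 (F (T t309 (L l347 (T t551 (L l54 (T t777 (L l368 (T t6465 (K a192 (M a240 (F (T t6230 (L l159 (L l236 (T t6471 (L l54 (L l236 (L l339 (T t6472 (L l339 (T t6473 N)))))))))))) N))))))))))⟩
def e0_63_106__135_42_83 : Ent 4 := ⟨[a0, a63, a106], [a135, a42, a86], (M a48 (F (T t309 (L l351 (T t551 (L l28 (T t579 N)))))))⟩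
def e0_63_106__135_42_84 : Ent 4 := ⟨[a0, a63, a106], [a135, a42, a87], (M a48 (F (T t309 (T t551 (L l28 (L l367 (T t579 N)))))))⟩
def e0_63_106__135_42_85 : Ent 4 := ⟨[a0, a63, a106], [a135, a42, a88], (M a48 (F (T t309 (L l478 (T t551 (L l28 (T t579 N)))))))⟩
def e0_63_106__135_42_86 : Ent 4 := ⟨[a0, a63, a106], [a135, a42, a89], (M a48 (F (T t309 (L l371 (T t551 (L l28 (T t579 N)))))))⟩
def e0_63_106__135_42_87 : Ent 4 := ⟨[a0, a63, a106], [a135, a42, a90], (M a48 (F (T t309 (L l375 (L l483 (T t551 (L l28 (T t579 N))))))))⟩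
def e0_63_106__135_42_88 : Ent 4 := ⟨[a0, a63, a106], [a135, a42, a91], (M a48 (F (T t309 (T t551 (L l28 (T t579 N))))))⟩
def e0_63_106__135_42_89 : Ent 4 := ⟨[a0, a63, a106], [a135, a42, a92], (M a48 (F (T t309 (T t551 (L l28 (T t579 N))))))⟩
def e0_63_106__135_42_90 : Ent 4 := ⟨[a0, a63, a106], [a135, a42, a93], (M a48 (F (T t309 (T t551 (L l28 (L l362 (T t579 N)))))))⟩
def e0_63_106__135_42_91 : Ent 4 := ⟨[a0, a63, a106], [a135, a42, a94], (M a48 (F (T t309 (T t551 (L l28 (T t579 N))))))⟩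
def e0_63_106__135_42_92 : Ent 4 := ⟨[a0, a63, a106], [a135, a42, a95], (M a48 (F (T t309 (T t551 (L l28 (L l361 (T t579 N)))))))⟩
def e0_63_106__135_42_93 : Ent 4 := ⟨[a0, a63, a106], [a135, a42, a96], (M a12 (F (T t2414 (L l56 (L l116 (T t2415 (L l116 (T t2305 N))))))))⟩
def e0_63_106__135_42_94 : Ent 4 := ⟨[a0, a63, a106], [a135, a42, a97], (M a48 (F (T t309 (L l96 (T t551 (L l28 (L l380 (T t579 N))))))))⟩
def e0_63_106__135_42_95 : Ent 4 := ⟨[a0, a63, a106], [a135, a42, a98], (M a48 (F (T t304 (L l28 (L l120 (T t579 (L l96 (L l120 (T t551 N)))))))))⟩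
def e0_63_106__135_42_96 : Ent 4 := ⟨[a0, a63, a106], [a135, a42, a99], (M a48 (F (T t309 (L l96 (T t551 (L l28 (T t579 N)))))))⟩
def e0_63_106__135_42_97 : Ent 4 := ⟨[a0, a63, a106], [a135, a42, a100], (M a48 (F (T t309 (L l100 (T t551 (L l28 (L l400 (T t579 N))))))))⟩
def e0_63_106__135_42_98 : Ent 4 := ⟨[a0, a63, a106], [a135, a42, a101], (M a240 (F (T t4779 (L l491 (L l512 (T t817 (T t4781 N)))))))⟩
def e0_63_106__135_42_99 : Ent 4 := ⟨[a0, a63, a106], [a135, a42, a102], (M a48 (F (T t309 (L l495 (T t551 (L l28 (T t579 N)))))))⟩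
def e0_63_106__135_42_100 : Ent 4 := ⟨[a0, a63, a106], [a135, a42, a103], (M a48 (F (T t309 (T t551 (L l28 (T t579 N))))))⟩
def e0_63_106__135_42_101 : Ent 4 := ⟨[a0, a63, a106], [a135, a42, a104], (M a48 (F (T t304 (L l28 (L l140 (T t579 (L l100 (L l140 (T t551 N)))))))))⟩
def e0_63_106__135_42_102 : Ent 4 := ⟨[a0, a63, a106], [a135, a42, a105], (M a48 (F (T t309 (L l515 (T t551 (L l28 (T t579 N)))))))⟩
def e0_63_106__135_42_103 : Ent 4 := ⟨[a0, a63, a106], [a135, a42, a107], (M a48 (F (T t309 (T t551 (L l28 (T t579 N))))))⟩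
def e0_63_106__135_42_104 : Ent 4 := ⟨[a0, a63, a106], [a135, a42, a108], (M a48 (F (T t309 (L l100 (T t551 (L l28 (T t579 N)))))))⟩
def e0_63_106__135_42_105 : Ent 4 := ⟨[a0, a63, a106], [a135, a42, a109], (M a48 (F (T t309 (T t551 (L l28 (T t579 N))))))⟩
def e0_63_106__135_42_106 : Ent 4 := ⟨[a0, a63, a106], [a135, a42, a110], (M a48 (F (T t309 (T t551 (L l28 (T t579 N))))))⟩
def e0_63_106__135_42_107 : Ent 4 := ⟨[a0, a63, a106], [a135, a42, a111], (M a240 (F (T t4779 (T t817 (L l137 (T t4781 N))))))⟩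
def e0_63_106__135_42_108 : Ent 4 := ⟨[a0, a63, a106], [a135, a42, a112], (M a48 (F (T t309 (L l28 (L l116 (T t6462 (L l28 (L l116 (T t579 N)))))))))⟩
def e0_63_106__135_42_109 : Ent 4 := ⟨[a0, a63, a106], [a135, a42, a113], (M a48 (F (T t309 (T t551 (L l28 (T t579 N))))))⟩
def e0_63_106__135_42_110 : Ent 4 := ⟨[a0, a63, a106], [a135, a42, a114], (M a48 (F (T t309 (L l417 (T t551 (L l28 (T t579 N)))))))⟩
def e0_63_106__135_42_111 : Ent 4 := ⟨[a0, a63, a106], [a135, a42, a115], (M a48 (F (T t309 (L l120 (T t551 (L l28 (L l120 (T t579 N))))))))⟩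
def e0_63_106__135_42_112 : Ent 4 := ⟨[a0, a63, a106], [a135, a42, a116], (M a48 (F (T t309 (T t551 (L l28 (T t579 N))))))⟩
def e0_63_106__135_42_113 : Ent 4 := ⟨[a0, a63, a106], [a135, a42, a117], (M a48 (F (T t578 (L l28 (L l419 (T t579 (T t551 N)))))))⟩
def e0_63_106__135_42_114 : Ent 4 := ⟨[a0, a63, a106], [a135, a42, a118], (M a48 (F (T t309 (T t551 (L l28 (T t579 N))))))⟩
def e0_63_106__135_42_115 : Ent 4 := ⟨[a0, a63, a106], [a135, a42, a119], (M a48 (F (T t309 (T t551 (L l28 (T t579 N))))))⟩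
def e0_63_106__135_42_116 : Ent 4 := ⟨[a0, a63, a106], [a135, a42, a120], (M a48 (F (T t309 (L l442 (T t551 (L l28 (T t579 N)))))))⟩
def e0_63_106__135_42_117 : Ent 4 := ⟨[a0, a63, a106], [a135, a42, a121], (M a48 (F (T t309 (T t551 (L l28 (T t579 N))))))⟩
def e0_63_106__135_42_118 : Ent 4 := ⟨[a0, a63, a106], [a135, a42, a122], (M a48 (F (T t309 (T t551 (L l28 (T t579 N))))))⟩
def e0_63_106__135_42_119 : Ent 4 := ⟨[a0, a63, a106], [a135, a42, a123], (M a48 (F (T t309 (T t551 (L l28 (T t579 N))))))⟩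
def e0_63_106__135_42_120 : Ent 4 := ⟨[a0, a63, a106], [a135, a42, a124], (M a48 (F (T t309 (L l140 (T t551 (L l28 (L l140 (T t579 N))))))))⟩
def e0_63_106__135_42_121 : Ent 4 := ⟨[a0, a63, a106], [a135, a42, a125], (M a48 (F (T t309 (T t551 (L l28 (T t579 N))))))⟩
def e0_63_106__135_42_122 : Ent 4 := ⟨[a0, a63, a106], [a135, a42, a126], (M a48 (F (T t309 (T t551 (L l28 (T t579 N))))))⟩
def e0_63_106__135_42_123 : Ent 4 := ⟨[a0, a63, a106], [a135, a42, a127], (M a48 (F (T t309 (T t551 (L l28 (T t6454 (L l28 (T t6479 N))))))))⟩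
def e0_63_106__135_42_124 : Ent 4 := ⟨[a0, a63, a106], [a135, a42, a128], (M a48 (F (T t585 (L l28 (T t579 (L l192 (L l220 (T t6480 (L l54 (L l160 (T t6481 N)))))))))))⟩
def e0_63_106__135_42_125 : Ent 4 := ⟨[a0, a63, a106], [a135, a42, a129], (M a48 (F (T t304 (L l28 (T t579 (L l217 (T t551 N)))))))⟩
def e0_63_106__135_42_126 : Ent 4 := ⟨[a0, a63, a106], [a135, a42, a130], (M a48 (F (T t309 (T t551 (L l28 (T t579 N))))))⟩
def e0_63_106__135_42_127 : Ent 4 := ⟨[a0, a63, a106], [a135, a42, a131], (M a48 (L l159 (F (T t309 (L l197 (T t551 (L l28 (T t579 (K a139 (M a143 (F (T t3405 (L l197 (T t551 (L l197 (T t7346 N))))))) (K a143 (M a139 (F (T t7347 (L l28 (T t6462 N))))) N))))))))))⟩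
def e0_63_106__135_42_128 : Ent 4 := ⟨[a0, a63, a106], [a135, a42, a132], (M a48 (L l153 (F (T t304 (L l28 (T t579 (L l202 (T t551 (K a133 (M a134 (F (T t304 (L l28 (T t579 (L l199 (L l202 (T t551 N)))))))) (K a134 (M a133 (F (T t585 (L l202 (T t551 (L l28 (T t579 N))))))) N))))))))))⟩
def e0_63_106__135_42_129 : Ent 4 := ⟨[a0, a63, a106], [a135, a42, a133], (M a48 (L l153 (F (T t585 (L l199 (T t551 (L l28 (T t579 (K a132 (M a134 (F (T t304 (L l28 (T t579 (L l199 (L l202 (T t551 N)))))))) (K a134 (M a132 (F (T t585 (L l161 (L l199 (T t7360 (L l28 (T t579 N)))))))) N))))))))))⟩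
def e0_63_106__135_42_130 : Ent 4 := ⟨[a0, a63, a106], [a135, a42, a134], (M a48 (L l153 (F (T t309 (T t551 (L l28 (T t579 (K a132 (M a133 (F (T t585 (L l202 (T t551 (L l28 (T t579 N))))))) (K a133 (M a132 (F (T t585 (L l161 (L l199 (T t7360 (L l28 (T t579 N)))))))) N)))))))))⟩
def e0_63_106__135_42_131 : Ent 4 := ⟨[a0, a63, a106], [a135, a42, a136], (M a48 (F (T t309 (T t551 (L l28 (T t579 N))))))⟩
def e0_63_106__135_42_132 : Ent 4 := ⟨[a0, a63, a106], [a135, a42, a137], (M a48 (F (T t309 (T t551 (L l28 (T t579 N))))))⟩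
def e0_63_106__135_42_133 : Ent 4 := ⟨[a0, a63, a106], [a135, a42, a138], (M a48 (F (T t578 (L l28 (L l318 (T t579 (T t551 N)))))))⟩
def e0_63_106__135_42_134 : Ent 4 := ⟨[a0, a63, a106], [a135, a42, a139], (M a48 (L l159 (F (T t309 (T t551 (L l28 (T t579 (K a131 (M a143 (F (T t3405 (L l197 (T t551 (L l197 (T t7346 N))))))) (K a143 (M a131 (F (T t3405 (L l28 (T t6462 (L l28 (T t579 N))))))) N)))))))))⟩
def e0_63_106__135_42_135 : Ent 4 := ⟨[a0, a63, a106], [a135, a42, a140], (M a48 (F (T t309 (L l222 (T t551 (L l28 (T t579 N)))))))⟩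
def e0_63_106__135_42_136 : Ent 4 := ⟨[a0, a63, a106], [a135, a42, a141], (M a48 (F (T t309 (T t551 (L l28 (T t579 N))))))⟩
def e0_63_106__135_42_137 : Ent 4 := ⟨[a0, a63, a106], [a135, a42, a142], (M a48 (F (T t309 (T t551 (L l28 (T t579 N))))))⟩
def e0_63_106__135_42_138 : Ent 4 := ⟨[a0, a63, a106], [a135, a42, a143], (M a48 (L l159 (F (T t309 (L l28 (T t6462 (L l28 (T t579 (K a131 (M a139 (F (T t7347 (L l28 (T t6462 N))))) (K a139 (M a131 (F (T t3405 (L l28 (T t6462 (L l28 (T t579 N))))))) N))))))))))⟩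
def e0_63_106__135_42_139 : Ent 4 := ⟨[a0, a63, a106], [a135, a42, a144], (M a12 (F (T t2414 (L l56 (T t2415 (L l170 (T t2305 N)))))))⟩
def e0_63_106__135_42_140 : Ent 4 := ⟨[a0, a63, a106], [a135, a42, a145], (M a48 (F (T t304 (L l28 (T t579 (L l167 (T t551 N)))))))⟩
def e0_63_106__135_42_141 : Ent 4 := ⟨[a0, a63, a106], [a135, a42, a146], (M a48 (F (T t304 (L l28 (T t579 (L l197 (T t551 N)))))))⟩
def e0_63_106__135_42_142 : Ent 4 := ⟨[a0, a63, a106], [a135, a42, a147], (M a48 (F (T t304 (L l28 (T t579 (T t551 N))))))⟩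
def e0_63_106__135_42_143 : Ent 4 := ⟨[a0, a63, a106], [a135, a42, a148], (M a48 (F (T t304 (L l28 (T t579 (L l163 (T t551 N)))))))⟩
def e0_63_106__135_42_144 : Ent 4 := ⟨[a0, a63, a106], [a135, a42, a149], (M a204 (F (L l167 (T t6655 (L l167 (L l347 (T t6636 (L l56 (L l167 (L l495 (T t6635 (L l56 (L l167 (L l220 (L l495 (T t6637 (K a145 (M a153 (F (T t6638 (L l56 (L l196 (L l220 (L l341 (L l495 (T t6639 (L l196 (L l220 (T t6640 N)))))))))))) (K a153 (M a102 (L l167 (F (T t6641 (L l208 (T t6642 (K a145 (Fr a157 a110 l507 (V t6642)) (K a157 (M a145 (F (L l208 (T t6642 (L l226 (T t6817 (L l365 (T t6643 N)))))))) N)))))))) (K a157 (M a153 (F (T t6645 (T t6646 (L l56 (L l220 (L l495 (T t6639 (L l220 (T t6640 N)))))))))) (K a98 (M a48 (F (T t2046 (L l28 (L l120 (L l491 (T t579 (L l491 (L l495 (T t6651 N)))))))))) (K a102 (M a12 (L l495 (F (T t752 (L l167 (L l371 (L l402 (T t765 (L l56 (L l371 (T t2415 (K a196 (M a55 (F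 (L l56 (L l347 (T t6649 (L l150 (L l220 (T t3459 N)))))))) (K a55 (M a196 (F (T t6650 (L l150 (L l220 (T t3459 N)))))) N))))))))))))) (K a110 (M a48 (F (T t2046 (L l28 (L l491 (T t579 (L l491 (L l495 (T t6651 N))))))))) N))))))))))))))))))))))⟩
def e0_63_106__135_42_145 : Ent 4 := ⟨[a0, a63, a106], [a135, a42, a150], (M a48 (L l203 (F (T t309 (L l163 (T t551 (L l28 (T t579 (K a180 (M a165 (F (T t309 (L l54 (T t6514 (L l372 (T t6856 N))))))) (K a165 (M a180 (F (T t304 (L l28 (T t579 (L l28 (L l163 (L l199 (L l483 (T t6462 N)))))))))) N))))))))))⟩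
def e0_63_106__135_42_146 : Ent 4 := ⟨[a0, a63, a106], [a135, a42, a151], (M a48 (L l201 (F (T t309 (L l163 (T t551 (L l28 (T t579 (K a167 (M a183 (F (T t3405 (L l337 (T t7433 N))))) (K a183 (M a167 (F (T t3405 (L l163 (L l202 (T t551 (L l28 (T t579 N)))))))) N))))))))))⟩
def e0_63_106__135_42_147 : Ent 4 := ⟨[a0, a63, a106], [a135, a42, a152], (M a48 (F (T t304 (L l28 (T t579 (L l222 (T t551 N)))))))⟩
def e0_63_106__135_42_148 : Ent 4 := ⟨[a0, a63, a106], [a135, a42, a153], (M a48 (F (T t309 (L l167 (T t551 (L l28 (T t579 N)))))))⟩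
def e0_63_106__135_42_149 : Ent 4 := ⟨[a0, a63, a106], [a135, a42, a154], (M a240 (F (T t4779 (L l170 (L l368 (L l512 (T t817 (T t4781 N))))))))⟩
def e0_63_106__135_42_150 : Ent 4 := ⟨[a0, a63, a106], [a135, a42, a155], (M a48 (F (T t309 (T t551 (L l28 (L l367 (T t579 N)))))))⟩
def e0_63_106__135_42_151 : Ent 4 := ⟨[a0, a63, a106], [a135, a42, a156], (M a48 (F (T t304 (L l28 (T t579 (T t551 N))))))⟩
def e0_63_106__135_42_152 : Ent 4 := ⟨[a0, a63, a106], [a135, a42, a157], (M a48 (F (T t309 (L l167 (T t551 (L l28 (T t579 N)))))))⟩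
def e0_63_106__135_42_153 : Ent 4 := ⟨[a0, a63, a106], [a135, a42, a158], (M a48 (F (T t309 (T t551 (L l28 (L l362 (T t579 N)))))))⟩
def e0_63_106__135_42_154 : Ent 4 := ⟨[a0, a63, a106], [a135, a42, a159], (M a240 (F (T t4779 (L l170 (T t817 (L l361 (T t4781 N)))))))⟩
def e0_63_106__135_42_155 : Ent 4 := ⟨[a0, a63, a106], [a135, a42, a160], (M a12 (F (T t2414 (L l56 (T t2415 (T t2305 N))))))⟩
def e0_63_106__135_42_156 : Ent 4 := ⟨[a0, a63, a106], [a135, a42, a161], (M a48 (F (T t309 (L l197 (L l453 (T t551 (L l28 (T t579 N))))))))⟩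
def e0_63_106__135_42_157 : Ent 4 := ⟨[a0, a63, a106], [a135, a42, a162], (M a48 (F (T t309 (T t551 (L l28 (L l380 (T t579 N)))))))⟩
def e0_63_106__135_42_158 : Ent 4 := ⟨[a0, a63, a106], [a135, a42, a163], (M a48 (F (T t309 (T t551 (L l28 (T t579 N))))))⟩
def e0_63_106__135_42_159 : Ent 4 := ⟨[a0, a63, a106], [a135, a42, a164], (M a48 (F (T t309 (L l222 (L l478 (T t551 (L l28 (T t579 N))))))))⟩
def e0_63_106__135_42_160 : Ent 4 := ⟨[a0, a63, a106], [a135, a42, a165], (M a48 (L l203 (F (T t309 (L l28 (L l199 (L l483 (T t6462 (L l28 (T t579 (K a180 (M a150 (F (T t309 (L l22 (T t6858 N))))) (K a150 (M a180 (F (T t304 (L l28 (T t579 (L l28 (L l163 (L l199 (L l483 (T t6462 N)))))))))) N))))))))))))⟩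
def e0_63_106__135_42_161 : Ent 4 := ⟨[a0, a63, a106], [a135, a42, a166], (M a48 (F (T t309 (L l202 (T t551 (L l28 (T t579 N)))))))⟩
def e0_63_106__135_42_162 : Ent 4 := ⟨[a0, a63, a106], [a135, a42, a167], (M a48 (L l201 (F (T t309 (T t551 (L l28 (T t579 (K a151 (M a183 (F (T t3405 (L l337 (T t7433 N))))) (K a183 (M a151 (F (T t3405 (L l409 (L l481 (T t3628 N)))))) N)))))))))⟩
def e0_63_106__135_42_163 : Ent 4 := ⟨[a0, a63, a106], [a135, a42, a168], (M a48 (F (T t309 (T t551 (L l28 (L l400 (T t579 N)))))))⟩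
def e0_63_106__135_42_164 : Ent 4 := ⟨[a0, a63, a106], [a135, a42, a169], (M a48 (F (T t309 (L l217 (T t551 (L l28 (T t579 N)))))))⟩
def e0_63_106__135_42_165 : Ent 4 := ⟨[a0, a63, a106], [a135, a42, a170], (M a48 (F (T t309 (L l220 (T t551 (L l28 (L l206 (L l220 (L l404 (T t552 (L l28 (L l206 (L l404 (T t553 N))))))))))))))⟩
def e0_63_106__135_42_166 : Ent 4 := ⟨[a0, a63, a106], [a135, a42, a171], (M a48 (F (T t309 (T t551 (L l28 (T t579 N))))))⟩
def e0_63_106__135_42_167 : Ent 4 := ⟨[a0, a63, a106], [a135, a42, a172], (M a48 (F (T t309 (T t551 (L l28 (T t579 N))))))⟩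
def e0_63_106__135_42_168 : Ent 4 := ⟨[a0, a63, a106], [a135, a42, a173], (M a48 (F (T t309 (T t551 (L l28 (T t579 N))))))⟩
def e0_63_106__135_42_169 : Ent 4 := ⟨[a0, a63, a106], [a135, a42, a174], (M a48 (F (T t309 (T t551 (L l28 (T t579 N))))))⟩
def e0_63_106__135_42_170 : Ent 4 := ⟨[a0, a63, a106], [a135, a42, a175], (M a48 (F (T t309 (T t551 (L l28 (T t579 N))))))⟩
def e0_63_106__135_42_171 : Ent 4 := ⟨[a0, a63, a106], [a135, a42, a176], (M a240 (F (L l190 (T t4779 (L l192 (T t817 (L l190 (L l192 (T t4781 N)))))))))⟩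
def e0_63_106__135_42_172 : Ent 4 := ⟨[a0, a63, a106], [a135, a42, a177], (M a48 (F (T t309 (L l182 (L l417 (T t551 (L l28 (T t579 N))))))))⟩
def e0_63_106__135_42_173 : Ent 4 := ⟨[a0, a63, a106], [a135, a42, a178], (M a48 (F (T t309 (L l182 (T t551 (L l28 (T t579 N)))))))⟩
def e0_63_106__135_42_174 : Ent 4 := ⟨[a0, a63, a106], [a135, a42, a179], (M a48 (F (T t309 (L l182 (T t551 (L l28 (T t579 N)))))))⟩
def e0_63_106__135_42_175 : Ent 4 := ⟨[a0, a63, a106], [a135, a42, a180], (M a48 (L l203 (F (T t309 (L l186 (L l442 (T t551 (L l28 (T t579 (K a165 (M a150 (F (T t309 (L l22 (T t6858 N))))) (K a150 (M a165 (F (T t309 (L l54 (T t6514 (L l372 (T t6856 N))))))) N)))))))))))⟩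
def e0_63_106__135_42_176 : Ent 4 := ⟨[a0, a63, a106], [a135, a42, a181], (M a48 (F (L l419 (T t309 (L l190 (L l199 (T t551 (L l28 (L l419 (T t579 N))))))))))⟩
def e0_63_106__135_42_177 : Ent 4 := ⟨[a0, a63, a106], [a135, a42, a182], (M a48 (F (T t309 (T t551 (L l28 (T t579 N))))))⟩
def e0_63_106__135_42_178 : Ent 4 := ⟨[a0, a63, a106], [a135, a42, a183], (M a48 (L l201 (F (T t309 (L l202 (T t551 (L l28 (T t579 (K a151 (M a167 (F (T t3405 (L l163 (L l202 (T t551 (L l28 (T t579 N)))))))) (K a167 (M a151 (F (T t3405 (L l409 (L l481 (T t3628 N)))))) N))))))))))⟩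
def e0_63_106__135_42_179 : Ent 4 := ⟨[a0, a63, a106], [a135, a42, a184], (M a48 (F (T t309 (L l186 (T t551 (L l28 (T t579 N)))))))⟩
def e0_63_106__135_42_180 : Ent 4 := ⟨[a0, a63, a106], [a135, a42, a185], (M a48 (F (T t309 (T t551 (L l28 (T t579 N))))))⟩
def e0_63_106__135_42_181 : Ent 4 := ⟨[a0, a63, a106], [a135, a42, a186], (M a48 (F (T t309 (L l190 (T t551 (L l28 (T t579 N)))))))⟩
def e0_63_106__135_42_182 : Ent 4 := ⟨[a0, a63, a106], [a135, a42, a187], (M a48 (F (T t309 (T t551 (L l28 (T t579 N))))))⟩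
def e0_63_106__135_42_183 : Ent 4 := ⟨[a0, a63, a106], [a135, a42, a188], (M a48 (F (T t309 (L l186 (T t551 (L l28 (T t579 N)))))))⟩
def e0_63_106__135_42_184 : Ent 4 := ⟨[a0, a63, a106], [a135, a42, a189], (M a48 (F (T t309 (L l217 (T t551 (L l28 (T t579 N)))))))⟩
def e0_63_106__135_42_185 : Ent 4 := ⟨[a0, a63, a106], [a135, a42, a190], (M a48 (F (T t309 (T t551 (L l28 (T t579 N))))))⟩
def e0_63_106__135_42_186 : Ent 4 := ⟨[a0, a63, a106], [a135, a42, a191], (M a48 (F (T t309 (L l190 (L l220 (T t551 (L l28 (T t6498 (L l28 (T t6499 N))))))))))⟩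
def e0_63_106__135_42_187 : Ent 4 := ⟨[a0, a63, a106], [a135, a42, a192], (M a204 (F (L l489 (T t6655 (L l272 (L l489 (T t6656 (L l296 (L l489 (T t6657 (L l56 (L l489 (T t6658 (L l489 (T t6659 (K a145 (M a102 (L l489 (F (T t6641 (T t6660 (K a98 (Fr a51 a153 l513 (V t6661)) (K a51 (Fr a98 a110 l102 (V t6662)) N))))))) (K a85 (M a48 (F (L l292 (T t2046 (L l123 (L l236 (L l489 (T t6732 N)))))))) (K a157 (M a48 (F (T t5482 (L l28 (L l236 (T t579 (L l236 (T t6651 N)))))))) (K a98 (M a153 (L l489 (F (T t6645 (L l296 (T t6668 (L l26 (L l120 (L l378 (T t6669 (K a145 (Fr a51 a102 l513 (V t6670)) (K a51 (M a145 (F (T t6671 (L l56 (L l272 (L l334 (L l378 (T t6672 N)))))))) N)))))))))))) (K a102 (M a252 (F (L l484 (T t6673 (L l148 (L l337 (L l339 (T t6674 (L l309 (T t6675 N)))))))))) (K a110 (M a48 (F (T t6676 (L l28 (L l236 (T t579 (L l236 (T t6651 N)))))))) (K a51 (M a48 (L l489 (F (T t5482 (L l236 (T t6677 (K a145 (M a98 (F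 (T t6678 (L l292 (L l441 (T t1315 N)))))) (K a98 (M a145 (F (T t5482 (L l28 (L l120 (L l236 (T t579 (L l511 (T t6679 N))))))))) N)))))))) N))))))))))))))))))))))⟩
def e0_63_106__135_42_188 : Ent 4 := ⟨[a0, a63, a106], [a135, a42, a193], (M a48 (F (T t585 (L l515 (T t551 (L l28 (T t579 N)))))))⟩
def e0_63_106__135_42_189 : Ent 4 := ⟨[a0, a63, a106], [a135, a42, a194], (M a48 (F (T t578 (L l28 (L l234 (T t579 (T t551 N)))))))⟩
def e0_63_106__135_42_190 : Ent 4 := ⟨[a0, a63, a106], [a135, a42, a195], (M a15 (F (T t7434 (L l159 (L l235 (T t6819 (L l54 (T t2532 N))))))))⟩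
def e0_63_106__135_42_191 : Ent 4 := ⟨[a0, a63, a106], [a135, a42, a196], (M a48 (F (T t585 (L l495 (T t551 (L l28 (T t579 N)))))))⟩
def e0_63_106__135_42_192 : Ent 4 := ⟨[a0, a63, a106], [a135, a42, a197], (M a240 (F (L l236 (T t4779 (L l491 (T t817 (T t4781 N)))))))⟩
def e0_63_106__135_42_193 : Ent 4 := ⟨[a0, a63, a106], [a135, a42, a198], (M a48 (F (T t578 (L l28 (L l234 (T t579 (T t551 N)))))))⟩
def e0_63_106__135_42_194 : Ent 4 := ⟨[a0, a63, a106], [a135, a42, a199], (M a48 (L l313 (F (T t309 (T t551 (L l28 (T t579 (K a7 (M a71 (F (T t309 (T t551 (L l28 (T t579 N)))))) (K a71 (M a7 (F (T t309 (T t551 (L l28 (T t579 N)))))) N)))))))))⟩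
def e0_63_106__135_42_195 : Ent 4 := ⟨[a0, a63, a106], [a135, a42, a200], (M a48 (F (T t578 (L l28 (L l230 (T t579 (T t551 N)))))))⟩
def e0_63_106__135_42_196 : Ent 4 := ⟨[a0, a63, a106], [a135, a42, a201], (M a48 (F (T t578 (L l28 (L l230 (T t579 (T t551 N)))))))⟩
def e0_63_106__135_42_197 : Ent 4 := ⟨[a0, a63, a106], [a135, a42, a202], (M a240 (F (T t817 (L l236 (L l318 (T t4779 (L l318 (T t4781 N))))))))⟩
def e0_63_106__135_42_198 : Ent 4 := ⟨[a0, a63, a106], [a135, a42, a203], (M a48 (F (T t2348 (L l28 (L l230 (T t579 (T t551 N)))))))⟩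
def e0_63_106__135_42_199 : Ent 4 := ⟨[a0, a63, a106], [a135, a42, a204], (M a48 (F (T t585 (L l298 (T t551 (L l28 (T t579 N)))))))⟩
def e0_63_106__135_42_200 : Ent 4 := ⟨[a0, a63, a106], [a135, a42, a205], (M a48 (F (T t309 (T t551 (L l28 (T t579 N))))))⟩
def e0_63_106__135_42_201 : Ent 4 := ⟨[a0, a63, a106], [a135, a42, a206], (M a48 (F (T t2348 (L l28 (L l234 (T t579 (T t551 N)))))))⟩
def e0_63_106__135_42_202 : Ent 4 := ⟨[a0, a63, a106], [a135, a42, a207], (M a240 (F (T t6525 (L l512 (T t817 (T t4781 N))))))⟩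
def e0_63_106__135_42_203 : Ent 4 := ⟨[a0, a63, a106], [a135, a42, a208], (M a12 (F (T t2419 (L l375 (T t2305 (L l56 (T t2415 N)))))))⟩
def e0_63_106__135_42_204 : Ent 4 := ⟨[a0, a63, a106], [a135, a42, a209], (M a48 (F (T t304 (L l28 (T t579 (L l371 (T t551 N)))))))⟩
def e0_63_106__135_42_205 : Ent 4 := ⟨[a0, a63, a106], [a135, a42, a210], (M a48 (F (T t309 (L l273 (T t551 (L l28 (T t579 N)))))))⟩
def e0_63_106__135_42_206 : Ent 4 := ⟨[a0, a63, a106], [a135, a42, a211], (M a48 (F (T t309 (T t551 (L l28 (L l245 (T t579 N)))))))⟩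
def e0_63_106__135_42_207 : Ent 4 := ⟨[a0, a63, a106], [a135, a42, a212], (M a48 (F (T t304 (L l28 (T t579 (L l351 (T t551 N)))))))⟩
def e0_63_106__135_42_208 : Ent 4 := ⟨[a0, a63, a106], [a135, a42, a213], (M a48 (F (T t304 (L l28 (L l246 (T t579 (L l347 (T t551 N))))))))⟩
def e0_63_106__135_42_209 : Ent 4 := ⟨[a0, a63, a106], [a135, a42, a214], (M a48 (F (T t309 (T t551 (L l28 (T t579 N))))))⟩
def e0_63_106__135_42_210 : Ent 4 := ⟨[a0, a63, a106], [a135, a42, a215], (M a48 (F (T t309 (T t551 (L l28 (L l245 (T t579 N)))))))⟩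
def e0_63_106__135_42_211 : Ent 4 := ⟨[a0, a63, a106], [a135, a42, a216], (M a48 (F (T t309 (L l298 (T t551 (L l28 (T t579 N)))))))⟩
def e0_63_106__135_42_212 : Ent 4 := ⟨[a0, a63, a106], [a135, a42, a217], (M a48 (F (T t309 (T t551 (L l28 (T t579 N))))))⟩
def e0_63_106__135_42_213 : Ent 4 := ⟨[a0, a63, a106], [a135, a42, a218], (M a48 (F (T t2348 (L l28 (L l246 (L l282 (T t579 (L l303 (T t551 N)))))))))⟩
def e0_63_106__135_42_214 : Ent 4 := ⟨[a0, a63, a106], [a135, a42, a219], (M a48 (F (T t309 (T t551 (L l28 (L l245 (T t579 N)))))))⟩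
def e0_63_106__135_42_215 : Ent 4 := ⟨[a0, a63, a106], [a135, a42, a220], (M a48 (F (T t309 (T t551 (L l28 (L l241 (T t579 N)))))))⟩
def e0_63_106__135_42_216 : Ent 4 := ⟨[a0, a63, a106], [a135, a42, a221], (M a48 (F (T t309 (T t551 (L l28 (L l241 (T t579 N)))))))⟩
def e0_63_106__135_42_217 : Ent 4 := ⟨[a0, a63, a106], [a135, a42, a222], (M a48 (F (T t309 (T t551 (L l28 (L l241 (T t579 N)))))))⟩
def e0_63_106__135_42_218 : Ent 4 := ⟨[a0, a63, a106], [a135, a42, a223], (M a240 (F (L l246 (T t4779 (L l368 (T t817 (L l361 (T t4781 N))))))))⟩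
def e0_63_106__135_42_219 : Ent 4 := ⟨[a0, a63, a106], [a135, a42, a224], (M a48 (F (T t585 (L l268 (L l376 (T t551 (L l28 (L l376 (T t579 N)))))))))⟩
def e0_63_106__135_42_220 : Ent 4 := ⟨[a0, a63, a106], [a135, a42, a225], (M a48 (F (T t309 (L l273 (T t551 (L l28 (T t579 N)))))))⟩
def e0_63_106__135_42_221 : Ent 4 := ⟨[a0, a63, a106], [a135, a42, a226], (M a48 (F (T t304 (L l28 (T t579 (T t551 N))))))⟩
def e0_63_106__135_42_222 : Ent 4 := ⟨[a0, a63, a106], [a135, a42, a227], (M a48 (F (T t309 (T t551 (L l28 (L l380 (T t579 N)))))))⟩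
def e0_63_106__135_42_223 : Ent 4 := ⟨[a0, a63, a106], [a135, a42, a228], (M a48 (F (T t309 (L l298 (T t551 (L l28 (T t579 N)))))))⟩
def e0_63_106__135_42_224 : Ent 4 := ⟨[a0, a63, a106], [a135, a42, a229], (M a48 (F (T t309 (L l28 (T t2289 (L l28 (T t579 N)))))))⟩
def e0_63_106__135_42_225 : Ent 4 := ⟨[a0, a63, a106], [a135, a42, a230], (M a48 (F (T t309 (T t551 (L l28 (T t579 N))))))⟩
def e0_63_106__135_42_226 : Ent 4 := ⟨[a0, a63, a106], [a135, a42, a231], (M a48 (F (T t309 (T t551 (L l28 (T t579 N))))))⟩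
def e0_63_106__135_42_227 : Ent 4 := ⟨[a0, a63, a106], [a135, a42, a232], (M a48 (F (T t304 (L l28 (T t579 (T t551 N))))))⟩
def e0_63_106__135_42_228 : Ent 4 := ⟨[a0, a63, a106], [a135, a42, a233], (M a48 (F (T t309 (T t551 (L l28 (T t579 N))))))⟩
def e0_63_106__135_42_229 : Ent 4 := ⟨[a0, a63, a106], [a135, a42, a234], (M a48 (F (T t578 (L l28 (L l282 (T t579 (T t551 N)))))))⟩
def e0_63_106__135_42_230 : Ent 4 := ⟨[a0, a63, a106], [a135, a42, a235], (M a48 (F (T t309 (T t551 (L l28 (T t579 N))))))⟩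
def e0_63_106__135_42_231 : Ent 4 := ⟨[a0, a63, a106], [a135, a42, a236], (M a48 (F (T t309 (T t551 (L l28 (L l400 (T t579 N)))))))⟩
def e0_63_106__135_42_232 : Ent 4 := ⟨[a0, a63, a106], [a135, a42, a237], (M a48 (F (T t309 (T t551 (L l28 (T t579 N))))))⟩
def e0_63_106__135_42_233 : Ent 4 := ⟨[a0, a63, a106], [a135, a42, a238], (M a48 (F (T t309 (T t551 (L l28 (T t579 N))))))⟩
def e0_63_106__135_42_234 : Ent 4 := ⟨[a0, a63, a106], [a135, a42, a239], (M a48 (F (T t309 (T t551 (L l28 (L l289 (L l404 (T t579 N))))))))⟩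
def e0_63_106__135_42_235 : Ent 4 := ⟨[a0, a63, a106], [a135, a42, a240], (M a12 (F (T t2419 (L l298 (T t2305 (L l56 (T t2415 N)))))))⟩
def e0_63_106__135_42_236 : Ent 4 := ⟨[a0, a63, a106], [a135, a42, a241], (M a48 (F (T t309 (L l258 (T t551 (L l28 (T t579 N)))))))⟩
def e0_63_106__135_42_237 : Ent 4 := ⟨[a0, a63, a106], [a135, a42, a242], (M a48 (F (T t309 (L l258 (T t551 (L l28 (T t579 N)))))))⟩
def e0_63_106__135_42_238 : Ent 4 := ⟨[a0, a63, a106], [a135, a42, a243], (M a48 (F (T t585 (L l258 (T t551 (L l28 (T t579 N)))))))⟩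
def e0_63_106__135_42_239 : Ent 4 := ⟨[a0, a63, a106], [a135, a42, a244], (M a48 (F (T t309 (L l262 (T t551 (L l28 (T t579 N)))))))⟩
def e0_63_106__135_42_240 : Ent 4 := ⟨[a0, a63, a106], [a135, a42, a245], (M a48 (F (T t578 (L l28 (L l419 (T t579 (L l266 (T t551 N))))))))⟩
def e0_63_106__135_42_241 : Ent 4 := ⟨[a0, a63, a106], [a135, a42, a246], (M a48 (F (T t309 (T t551 (L l28 (T t579 N))))))⟩
def e0_63_106__135_42_242 : Ent 4 := ⟨[a0, a63, a106], [a135, a42, a247], (M a48 (F (T t309 (T t551 (L l28 (T t579 N))))))⟩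
def e0_63_106__135_42_243 : Ent 4 := ⟨[a0, a63, a106], [a135, a42, a248], (M a48 (F (T t309 (L l262 (T t551 (L l28 (T t579 N)))))))⟩
def e0_63_106__135_42_244 : Ent 4 := ⟨[a0, a63, a106], [a135, a42, a249], (M a48 (F (T t309 (T t551 (L l28 (T t579 N))))))⟩
def e0_63_106__135_42_245 : Ent 4 := ⟨[a0, a63, a106], [a135, a42, a250], (M a48 (F (T t578 (L l28 (L l282 (T t579 (L l266 (T t551 N))))))))⟩
def e0_63_106__135_42_246 : Ent 4 := ⟨[a0, a63, a106], [a135, a42, a251], (M a48 (F (T t309 (T t551 (L l28 (T t579 N))))))⟩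
def e0_63_106__135_42_247 : Ent 4 := ⟨[a0, a63, a106], [a135, a42, a252], (M a48 (F (T t585 (L l262 (T t551 (L l28 (T t579 N)))))))⟩
def e0_63_106__135_42_248 : Ent 4 := ⟨[a0, a63, a106], [a135, a42, a253], (M a48 (F (T t309 (T t551 (L l28 (T t579 N))))))⟩
def e0_63_106__135_42_249 : Ent 4 := ⟨[a0, a63, a106], [a135, a42, a254], (M a48 (F (T t309 (T t551 (L l28 (T t579 N))))))⟩
def e0_63_106__135_42_250 : Ent 4 := ⟨[a0, a63, a106], [a135, a42, a255], (M a48 (F (T t585 (L l266 (T t551 (L l28 (L l469 (T t6526 (L l28 (L l289 (T t6527 N)))))))))))⟩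
def b0_63_106__135_42 : Blk 4 := ⟨[0, 63, 106], [135, 42], [1, 2, 3, 4, 5, 6, 7, 8, 9, 10, 11, 12, 13, 14, 15, 16, 17, 18, 19, 20, 21, 22, 23, 24, 25, 26, 27, 28, 29, 30, 31, 32, 33, 34, 35, 36, 37, 38, 39, 40, 41, 43, 44, 45, 46, 47, 48, 49, 50, 51, 52, 53, 54, 55, 56, 57, 58, 59, 60, 61, 62, 64, 65, 66, 67, 68, 69, 70, 71, 72, 73, 74, 75, 76, 77, 78, 79, 80, 81, 82, 83, 84, 85, 86, 87, 88, 89, 90, 91, 92, 93, 94, 95, 96, 97, 98, 99, 100, 101, 102, 103, 104, 105, 107, 108, 109, 110, 111, 112, 113, 114, 115, 116, 117, 118, 119, 120, 121, 122, 123, 124, 125, 126, 127, 128, 129, 130, 131, 132, 133, 134, 136, 137, 138, 139, 140, 141, 142, 143, 144, 145, 146, 147, 148, 149, 150, 151, 152, 153, 154, 155, 156, 157, 158, 159, 160, 161, 162, 163, 164, 165, 166, 167, 168, 169, 170, 171, 172, 173, 174, 175, 176, 177, 178, 179, 180, 181, 182, 183, 184, 185, 186, 187, 188, 189, 190, 191, 192, 193, 194, 195, 196, 197, 198, 199,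 200, 201, 202, 203, 204, 205, 206, 207, 208, 209, 210, 211, 212, 213, 214, 215, 216, 217, 218, 219, 220, 221, 222, 223, 224, 225, 226, 227, 228, 229, 230, 231, 232, 233, 234, 235, 236, 237, 238, 239, 240, 241, 242, 243, 244, 245, 246, 247, 248, 249, 250, 251, 252, 253, 254, 255], [e0_63_106__135_42_0, e0_63_106__135_42_1, e0_63_106__135_42_2, e0_63_106__135_42_3, e0_63_106__135_42_4, e0_63_106__135_42_5, e0_63_106__135_42_6, e0_63_106__135_42_7, e0_63_106__135_42_8, e0_63_106__135_42_9, e0_63_106__135_42_10, e0_63_106__135_42_11, e0_63_106__135_42_12, e0_63_106__135_42_13, e0_63_106__135_42_14, e0_63_106__135_42_15, e0_63_106__135_42_16, e0_63_106__135_42_17, e0_63_106__135_42_18, e0_63_106__135_42_19, e0_63_106__135_42_20, e0_63_106__135_42_21, e0_63_106__135_42_22, e0_63_106__135_42_23, e0_63_106__135_42_24, e0_63_106__135_42_25, e0_63_106__135_42_26, e0_63_106__135_42_27, e0_63_106__135_42_28, e0_63_106__135_42_29,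 e0_63_106__135_42_30, e0_63_106__135_42_31, e0_63_106__135_42_32, e0_63_106__135_42_33, e0_63_106__135_42_34, e0_63_106__135_42_35, e0_63_106__135_42_36, e0_63_106__135_42_37, e0_63_106__135_42_38, e0_63_106__135_42_39, e0_63_106__135_42_40, e0_63_106__135_42_41, e0_63_106__135_42_42, e0_63_106__135_42_43, e0_63_106__135_42_44, e0_63_106__135_42_45, e0_63_106__135_42_46, e0_63_106__135_42_47, e0_63_106__135_42_48, e0_63_106__135_42_49, e0_63_106__135_42_50, e0_63_106__135_42_51, e0_63_106__135_42_52, e0_63_106__135_42_53, e0_63_106__135_42_54, e0_63_106__135_42_55, e0_63_106__135_42_56, e0_63_106__135_42_57, e0_63_106__135_42_58, e0_63_106__135_42_59, e0_63_106__135_42_60, e0_63_106__135_42_61, e0_63_106__135_42_62, e0_63_106__135_42_63, e0_63_106__135_42_64, e0_63_106__135_42_65, e0_63_106__135_42_66, e0_63_106__135_42_67, e0_63_106__135_42_68, e0_63_106__135_42_69, e0_63_106__135_42_70, e0_63_106__135_42_71, e0_63_106__135_42_72,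 e0_63_106__135_42_73, e0_63_106__135_42_74, e0_63_106__135_42_75, e0_63_106__135_42_76, e0_63_106__135_42_77, e0_63_106__135_42_78, e0_63_106__135_42_79, e0_63_106__135_42_80, e0_63_106__135_42_81, e0_63_106__135_42_82, e0_63_106__135_42_83, e0_63_106__135_42_84, e0_63_106__135_42_85, e0_63_106__135_42_86, e0_63_106__135_42_87, e0_63_106__135_42_88, e0_63_106__135_42_89, e0_63_106__135_42_90, e0_63_106__135_42_91, e0_63_106__135_42_92, e0_63_106__135_42_93, e0_63_106__135_42_94, e0_63_106__135_42_95, e0_63_106__135_42_96, e0_63_106__135_42_97, e0_63_106__135_42_98, e0_63_106__135_42_99, e0_63_106__135_42_100, e0_63_106__135_42_101, e0_63_106__135_42_102, e0_63_106__135_42_103, e0_63_106__135_42_104, e0_63_106__135_42_105, e0_63_106__135_42_106, e0_63_106__135_42_107, e0_63_106__135_42_108, e0_63_106__135_42_109, e0_63_106__135_42_110, e0_63_106__135_42_111, e0_63_106__135_42_112, e0_63_106__135_42_113, e0_63_106__135_42_114,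 e0_63_106__135_42_115, e0_63_106__135_42_116, e0_63_106__135_42_117, e0_63_106__135_42_118, e0_63_106__135_42_119, e0_63_106__135_42_120, e0_63_106__135_42_121, e0_63_106__135_42_122, e0_63_106__135_42_123, e0_63_106__135_42_124, e0_63_106__135_42_125, e0_63_106__135_42_126, e0_63_106__135_42_127, e0_63_106__135_42_128, e0_63_106__135_42_129, e0_63_106__135_42_130, e0_63_106__135_42_131, e0_63_106__135_42_132, e0_63_106__135_42_133, e0_63_106__135_42_134, e0_63_106__135_42_135, e0_63_106__135_42_136, e0_63_106__135_42_137, e0_63_106__135_42_138, e0_63_106__135_42_139, e0_63_106__135_42_140, e0_63_106__135_42_141, e0_63_106__135_42_142, e0_63_106__135_42_143, e0_63_106__135_42_144, e0_63_106__135_42_145, e0_63_106__135_42_146, e0_63_106__135_42_147, e0_63_106__135_42_148, e0_63_106__135_42_149, e0_63_106__135_42_150, e0_63_106__135_42_151, e0_63_106__135_42_152, e0_63_106__135_42_153, e0_63_106__135_42_154, e0_63_106__135_42_155,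 e0_63_106__135_42_156, e0_63_106__135_42_157, e0_63_106__135_42_158, e0_63_106__135_42_159, e0_63_106__135_42_160, e0_63_106__135_42_161, e0_63_106__135_42_162, e0_63_106__135_42_163, e0_63_106__135_42_164, e0_63_106__135_42_165, e0_63_106__135_42_166, e0_63_106__135_42_167, e0_63_106__135_42_168, e0_63_106__135_42_169, e0_63_106__135_42_170, e0_63_106__135_42_171, e0_63_106__135_42_172, e0_63_106__135_42_173, e0_63_106__135_42_174, e0_63_106__135_42_175, e0_63_106__135_42_176, e0_63_106__135_42_177, e0_63_106__135_42_178, e0_63_106__135_42_179, e0_63_106__135_42_180, e0_63_106__135_42_181, e0_63_106__135_42_182, e0_63_106__135_42_183, e0_63_106__135_42_184, e0_63_106__135_42_185, e0_63_106__135_42_186, e0_63_106__135_42_187, e0_63_106__135_42_188, e0_63_106__135_42_189, e0_63_106__135_42_190, e0_63_106__135_42_191, e0_63_106__135_42_192, e0_63_106__135_42_193, e0_63_106__135_42_194, e0_63_106__135_42_195, e0_63_106__135_42_196,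 e0_63_106__135_42_197, e0_63_106__135_42_198, e0_63_106__135_42_199, e0_63_106__135_42_200, e0_63_106__135_42_201, e0_63_106__135_42_202, e0_63_106__135_42_203, e0_63_106__135_42_204, e0_63_106__135_42_205, e0_63_106__135_42_206, e0_63_106__135_42_207, e0_63_106__135_42_208, e0_63_106__135_42_209, e0_63_106__135_42_210, e0_63_106__135_42_211, e0_63_106__135_42_212, e0_63_106__135_42_213, e0_63_106__135_42_214, e0_63_106__135_42_215, e0_63_106__135_42_216, e0_63_106__135_42_217, e0_63_106__135_42_218, e0_63_106__135_42_219, e0_63_106__135_42_220, e0_63_106__135_42_221, e0_63_106__135_42_222, e0_63_106__135_42_223, e0_63_106__135_42_224, e0_63_106__135_42_225, e0_63_106__135_42_226, e0_63_106__135_42_227, e0_63_106__135_42_228, e0_63_106__135_42_229, e0_63_106__135_42_230, e0_63_106__135_42_231, e0_63_106__135_42_232, e0_63_106__135_42_233, e0_63_106__135_42_234, e0_63_106__135_42_235, e0_63_106__135_42_236, e0_63_106__135_42_237,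 e0_63_106__135_42_238, e0_63_106__135_42_239, e0_63_106__135_42_240, e0_63_106__135_42_241, e0_63_106__135_42_242, e0_63_106__135_42_243, e0_63_106__135_42_244, e0_63_106__135_42_245, e0_63_106__135_42_246, e0_63_106__135_42_247, e0_63_106__135_42_248, e0_63_106__135_42_249, e0_63_106__135_42_250], by decide +kernel, by decide +kernel⟩
def e0_63_106__138_42_0 : Ent 4 := ⟨[a0, a63, a106], [a138, a42, a1], (M a48 (F (T t578 (L l28 (L l318 (T t579 (T t551 N)))))))⟩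
def e0_63_106__138_42_1 : Ent 4 := ⟨[a0, a63, a106], [a138, a42, a2], (M a60 (L l66 (L l330 (F (T t1514 (L l22 (L l306 (T t2369 (T t565 (K a70 (M a206 (L l66 (F (T t1514 (L l22 (L l306 (T t2369 (T t565 (K a22 (Fr a62 a61 l33 (V t6685)) (K a62 (M a22 (F (L l22 (T t881 (T t565 (L l22 (L l432 (T t6686 (K a40 (Fr a192 a149 l519 (Fr a3 a41 l69 (Fr a43 a23 l67 (V t6738)))) N))))))))) N)))))))))) (K a22 (Fr a62 a61 l33 (V t6685)) (K a206 (M a70 (L l66 (F (T t1514 (L l22 (L l234 (L l306 (T t2369 (T t565 (K a22 (Fr a62 a61 l33 (V t6685)) (K a62 (M a22 (L l504 (F (L l22 (T t881 (T t565 (L l22 (L l432 (T t6692 (K a40 (Fr a192 a149 l519 (Fr a3 a41 l69 (Fr a43 a23 l67 (V t6738)))) (K a158 (M a110 (F (L l22 (T t881 (L l56 (L l165 (T t7435 N))))))) (K a110 (M a158 (F (L l22 (T t881 (L l99 (T t7436 N)))))) N)))))))))))) N))))))))))) (K a62 (M a22 (L l330 (F (L l22 (T t881 (T t565 (L l22 (L l432 (T t6692 (K a40 (Fr a192 a149 l519 (Fr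 a3 a41 l69 (Fr a43 a23 l67 (V t6738)))) (K a70 (M a206 (F (L l22 (T t881 (T t565 (L l22 (L l432 (T t6686 (K a40 (Fr a192 a149 l519 (Fr a3 a41 l69 (Fr a43 a23 l67 (V t6738)))) N))))))))) (K a206 (M a70 (L l504 (F (L l22 (T t881 (T t565 (L l22 (L l432 (T t6692 (K a40 (Fr a192 a149 l519 (Fr a3 a41 l69 (Fr a43 a23 l67 (V t6738)))) (K a158 (M a110 (F (L l22 (T t881 (L l56 (L l165 (T t7435 N))))))) (K a110 (M a158 (F (L l22 (T t881 (L l99 (T t7436 N)))))) N)))))))))))) N)))))))))))) N)))))))))))))⟩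
def e0_63_106__138_42_2 : Ent 4 := ⟨[a0, a63, a106], [a138, a42, a3], (M a48 (F (T t2348 (L l28 (L l318 (T t579 (L l453 (T t551 N))))))))⟩
def e0_63_106__138_42_3 : Ent 4 := ⟨[a0, a63, a106], [a138, a42, a5], (M a48 (F (T t578 (L l28 (L l47 (L l318 (T t579 (T t551 N))))))))⟩
def e0_63_106__138_42_4 : Ent 4 := ⟨[a0, a63, a106], [a138, a42, a6], (M a48 (F (T t578 (L l28 (L l318 (T t579 (T t551 N)))))))⟩
def e0_63_106__138_42_5 : Ent 4 := ⟨[a0, a63, a106], [a138, a42, a7], (M a48 (F (T t578 (L l28 (L l318 (T t579 (T t551 N)))))))⟩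
def e0_63_106__138_42_6 : Ent 4 := ⟨[a0, a63, a106], [a138, a42, a10], (M a60 (L l54 (L l318 (F (T t1512 (T t565 (L l22 (T t2369 (K a74 (M a202 (L l54 (F (T t2360 (L l22 (L l84 (L l336 (T t2369 (K a26 (Fr a58 a154 l498 (V t2915)) (K a58 (M a26 (F (T t1514 (L l22 (L l84 (L l336 (T t2369 (L l84 (T t565 N))))))))) N)))))))))) (K a202 (M a74 (L l54 (F (L l160 (T t6556 (L l22 (L l234 (T t2369 (K a26 (M a58 (F (T t1514 (L l22 (L l57 (T t1342 N)))))) (K a58 (M a26 (F (T t565 (L l158 (L l426 (T t7437 N)))))) N)))))))))) (K a26 (M a58 (L l318 (F (T t2915 (L l22 (L l57 (T t1342 (K a74 (Fr a202 a154 l498 (V t2915)) (K a202 (M a74 (F (T t1514 (L l22 (L l57 (T t1342 N)))))) N))))))))) (K a58 (M a26 (L l318 (F (T t2915 (L l22 (T t2369 (T t565 (K a74 (M a202 (F (T t1514 (L l22 (L l84 (L l336 (T t2369 (L l84 (T t565 N))))))))) (K a202 (M a74 (F (T t565 (L l158 (L l426 (T t7437 N)))))) N))))))))) N))))))))))))⟩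
def e0_63_106__138_42_7 : Ent 4 := ⟨[a0, a63, a106], [a138, a42, a11], (M a48 (F (T t578 (L l28 (L l318 (T t579 (T t551 N)))))))⟩
def e0_63_106__138_42_8 : Ent 4 := ⟨[a0, a63, a106], [a138, a42, a15], (M a48 (F (T t2348 (L l28 (L l318 (T t579 (L l483 (T t551 N))))))))⟩
def e0_63_106__138_42_9 : Ent 4 := ⟨[a0, a63, a106], [a138, a42, a16], (M a240 (F (L l160 (T t4786 (L l340 (T t4780 (L l318 (T t4781 N))))))))⟩
def e0_63_106__138_42_10 : Ent 4 := ⟨[a0, a63, a106], [a138, a42, a17], (M a48 (F (T t578 (L l28 (L l318 (T t579 (T t551 N)))))))⟩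
def e0_63_106__138_42_11 : Ent 4 := ⟨[a0, a63, a106], [a138, a42, a18], (M a48 (F (T t578 (L l28 (L l318 (T t579 (T t551 N)))))))⟩
def e0_63_106__138_42_12 : Ent 4 := ⟨[a0, a63, a106], [a138, a42, a19], (M a48 (F (T t578 (L l28 (L l318 (L l367 (T t579 (T t551 N))))))))⟩
def e0_63_106__138_42_13 : Ent 4 := ⟨[a0, a63, a106], [a138, a42, a21], (M a48 (F (L l54 (T t777 (L l347 (T t551 (L l28 (L l47 (L l318 (T t579 N))))))))))⟩
def e0_63_106__138_42_14 : Ent 4 := ⟨[a0, a63, a106], [a138, a42, a22], (M a48 (L l66 (F (T t578 (L l28 (L l318 (T t579 (T t551 (K a2 (M a62 (L l330 (F (T t578 (L l22 (L l306 (T t5926 (K a70 (M a206 (F (T t578 (L l22 (L l306 (T t5926 N)))))) (K a206 (M a70 (F (T t2348 (L l11 (L l51 (L l56 (L l320 (T t188 N)))))))) N))))))))) (K a62 (M a2 (F (T t578 (L l19 (L l28 (T t342 N)))))) N))))))))))⟩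
def e0_63_106__138_42_15 : Ent 4 := ⟨[a0, a63, a106], [a138, a42, a23], (M a48 (F (L l318 (T t309 (L l351 (T t551 (L l28 (L l318 (T t579 N)))))))))⟩
def e0_63_106__138_42_16 : Ent 4 := ⟨[a0, a63, a106], [a138, a42, a26], (M a48 (L l54 (F (T t578 (L l28 (L l318 (T t579 (T t551 (K a10 (Fr a58 a53 l38 (V t6762)) (K a58 (M a10 (F (T t551 (L l160 (L l426 (T t6820 (L l18 (L l206 (L l354 (T t6821 (L l18 (T t6601 (L l18 (L l426 (T t6450 N))))))))))))))) N))))))))))⟩
def e0_63_106__138_42_17 : Ent 4 := ⟨[a0, a63, a106], [a138, a42, a27], (M a48 (F (T t578 (L l28 (L l318 (T t579 (T t551 N)))))))⟩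
def e0_63_106__138_42_18 : Ent 4 := ⟨[a0, a63, a106], [a138, a42, a31], (M a48 (F (L l318 (T t309 (L l375 (T t551 (L l28 (L l318 (L l361 (T t579 N))))))))))⟩
def e0_63_106__138_42_19 : Ent 4 := ⟨[a0, a63, a106], [a138, a42, a32], (M a240 (L l28 (F (L l318 (T t6609 (L l160 (L l376 (T t6588 (L l318 (L l376 (T t4781 (K a37 (M a47 (F (T t6602 (L l160 (T t6698 (T t6604 N)))))) (K a47 (M a37 (F (L l160 (L l376 (T t6588 (L l54 (L l160 (T t6823 (L l318 (L l376 (T t4781 N))))))))))) N)))))))))))))⟩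
def e0_63_106__138_42_20 : Ent 4 := ⟨[a0, a63, a106], [a138, a42, a33], (M a48 (F (T t578 (L l20 (L l28 (L l318 (T t579 (T t551 N))))))))⟩
def e0_63_106__138_42_21 : Ent 4 := ⟨[a0, a63, a106], [a138, a42, a34], (M a48 (L l26 (F (T t578 (L l20 (L l28 (L l318 (T t579 (T t551 (K a38 (M a46 (F (T t578 (L l56 (L l320 (L l378 (T t4030 N))))))) (K a46 (M a38 (F (T t578 (L l20 (L l28 (L l318 (T t579 (T t551 N)))))))) N)))))))))))⟩
def e0_63_106__138_42_22 : Ent 4 := ⟨[a0, a63, a106], [a138, a42, a35], (M a48 (F (T t578 (L l20 (L l28 (L l318 (T t579 (T t551 N))))))))⟩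
def e0_63_106__138_42_23 : Ent 4 := ⟨[a0, a63, a106], [a138, a42, a37], (M a240 (L l28 (F (L l160 (T t4786 (L l318 (T t4781 (L l75 (T t817 (K a32 (M a47 (F (T t6602 (L l160 (T t6698 (T t6604 N)))))) (K a47 (M a32 (F (T t6607 (L l318 (T t4781 (L l54 (T t6608 N))))))) N)))))))))))⟩
def e0_63_106__138_42_24 : Ent 4 := ⟨[a0, a63, a106], [a138, a42, a38], (M a48 (L l26 (F (T t578 (L l28 (L l318 (T t579 (T t551 (K a34 (M a46 (F (T t578 (L l56 (L l320 (L l378 (T t4030 N))))))) (K a46 (M a34 (F (T t578 (L l29 (L l66 (L l330 (T t6453 N))))))) N))))))))))⟩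
def e0_63_106__138_42_25 : Ent 4 := ⟨[a0, a63, a106], [a138, a42, a39], (M a48 (F (T t578 (L l28 (L l318 (T t579 (T t551 N)))))))⟩
def e0_63_106__138_42_26 : Ent 4 := ⟨[a0, a63, a106], [a138, a42, a43], (M a48 (L l22 (F (T t578 (L l28 (L l318 (T t579 (T t551 (K a40 (M a41 (F (T t578 (L l24 (L l28 (L l318 (T t579 (T t551 N)))))))) (K a41 (M a40 (F (T t578 (L l29 (L l69 (T t6452 N)))))) N))))))))))⟩
def e0_63_106__138_42_27 : Ent 4 := ⟨[a0, a63, a106], [a138, a42, a47], (M a12 (L l28 (F (T t2304 (T t2305 (L l56 (L l320 (T t2415 (K a32 (M a37 (F (T t2416 (L l56 (L l320 (T t2415 (T t2305 N))))))) (K a37 (M a32 (F (T t2304 (L l51 (L l56 (L l320 (T t682 N))))))) N))))))))))⟩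
def e0_63_106__138_42_28 : Ent 4 := ⟨[a0, a63, a106], [a138, a42, a48], (M a12 (F (T t2419 (L l508 (T t2305 (L l56 (L l320 (T t2415 N))))))))⟩
def e0_63_106__138_42_29 : Ent 4 := ⟨[a0, a63, a106], [a138, a42, a49], (M a48 (F (T t578 (L l28 (L l35 (L l318 (T t579 (T t551 N))))))))⟩
def e0_63_106__138_42_30 : Ent 4 := ⟨[a0, a63, a106], [a138, a42, a50], (M a48 (F (T t578 (L l28 (L l318 (T t579 (T t551 N)))))))⟩
def e0_63_106__138_42_31 : Ent 4 := ⟨[a0, a63, a106], [a138, a42, a51], (M a48 (F (T t2348 (L l28 (L l318 (T t579 (L l417 (T t551 N))))))))⟩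
def e0_63_106__138_42_32 : Ent 4 := ⟨[a0, a63, a106], [a138, a42, a53], (M a240 (F (L l160 (T t4786 (L l491 (T t817 (L l318 (L l419 (T t4781 N)))))))))⟩
def e0_63_106__138_42_33 : Ent 4 := ⟨[a0, a63, a106], [a138, a42, a54], (M a48 (F (T t578 (L l28 (L l31 (L l318 (T t579 (T t551 N))))))))⟩
def e0_63_106__138_42_34 : Ent 4 := ⟨[a0, a63, a106], [a138, a42, a55], (M a48 (F (L l54 (T t777 (L l495 (T t551 (L l28 (L l31 (L l318 (T t579 N))))))))))⟩
def e0_63_106__138_42_35 : Ent 4 := ⟨[a0, a63, a106], [a138, a42, a58], (M a12 (L l54 (F (T t2304 (T t2305 (L l56 (L l320 (T t2415 (K a10 (M a26 (L l318 (F (T t2416 (L l2 (L l56 (L l320 (T t2415 (T t2305 (K a74 (M a202 (F (T t2416 (L l2 (L l56 (L l84 (L l320 (T t2415 (L l78 (L l84 (T t2305 N))))))))))) (K a202 (M a74 (F (T t2418 (L l160 (L l426 (T t6556 (L l2 (L l56 (L l320 (T t2415 N)))))))))) N))))))))))) (K a26 (M a10 (F (T t2304 (L l57 (L l66 (L l330 (T t6765 N))))))) N))))))))))⟩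
def e0_63_106__138_42_36 : Ent 4 := ⟨[a0, a63, a106], [a138, a42, a59], (M a107 (L l56 (F (T t7438 (L l158 (T t7439 (L l160 (T t7440 (L l160 (T t7441 (K a8 (M a25 (L l320 (F (T t7438 (L l158 (T t7439 (L l160 (T t7440 (L l160 (T t7441 (K a73 (M a203 (F (T t7438 (L l32 (L l52 (L l318 (T t7442 (L l160 (T t7440 (L l32 (L l52 (L l318 (T t7443 N))))))))))))) (K a203 (M a73 (F (T t7438 (L l158 (T t7444 (L l160 (T t7440 (L l427 (T t7445 N))))))))) N)))))))))))) (K a25 (M a8 (F (T t7438 (L l15 (L l353 (L l427 (T t7446 (L l158 (T t7439 N))))))))) N))))))))))))⟩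
def e0_63_106__138_42_37 : Ent 4 := ⟨[a0, a63, a106], [a138, a42, a64], (M a48 (F (T t578 (L l28 (L l206 (L l318 (T t6456 (L l28 (L l206 (T t6455 (L l28 (L l54 (L l318 (T t6614 (L l54 (L l160 (T t6458 (K a192 (Fr a16 a32 l40 (Fr a58 a53 l38 (Fr a154 a202 l498 (V t7447)))) (K a207 (Fr a192 a149 l519 (Fr a96 a144 l484 (Fr a101 a111 l104 (Fr a32 a16 l40 (V t6459))))) N)))))))))))))))))))⟩
def e0_63_106__138_42_38 : Ent 4 := ⟨[a0, a63, a106], [a138, a42, a65], (M a48 (F (T t578 (L l28 (L l76 (L l318 (T t579 (L l76 (T t551 N)))))))))⟩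
def e0_63_106__138_42_39 : Ent 4 := ⟨[a0, a63, a106], [a138, a42, a66], (M a48 (F (T t578 (L l28 (L l76 (L l318 (T t579 (L l76 (T t551 N)))))))))⟩
def e0_63_106__138_42_40 : Ent 4 := ⟨[a0, a63, a106], [a138, a42, a67], (M a48 (F (T t578 (L l28 (L l76 (L l318 (T t579 (L l76 (T t551 N)))))))))⟩
def e0_63_106__138_42_41 : Ent 4 := ⟨[a0, a63, a106], [a138, a42, a69], (M a48 (F (T t578 (L l28 (L l84 (L l318 (T t579 (L l84 (T t551 N)))))))))⟩
def e0_63_106__138_42_42 : Ent 4 := ⟨[a0, a63, a106], [a138, a42, a70], (M a48 (L l330 (F (T t578 (L l28 (L l318 (T t579 (T t551 (K a2 (M a206 (L l66 (F (T t578 (L l28 (L l318 (T t579 (T t551 (K a22 (M a62 (F (T t578 (L l22 (L l306 (T t5926 N)))))) (K a62 (M a22 (F (T t578 (L l28 (L l318 (T t579 (T t551 N))))))) N)))))))))) (K a206 (M a2 (F (T t2348 (L l28 (T t342 N))))) N))))))))))⟩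
def e0_63_106__138_42_43 : Ent 4 := ⟨[a0, a63, a106], [a138, a42, a71], (M a48 (F (T t2348 (L l28 (L l318 (T t579 (T t551 N)))))))⟩
def e0_63_106__138_42_44 : Ent 4 := ⟨[a0, a63, a106], [a138, a42, a74], (M a12 (L l318 (F (T t2419 (L l78 (L l84 (T t2305 (L l56 (L l84 (L l320 (T t2415 (K a10 (M a202 (L l54 (F (T t2360 (L l2 (L l56 (L l84 (L l320 (T t2415 (K a26 (Fr a58 a154 l498 (V t2418)) (K a58 (M a26 (F (T t2416 (L l2 (L l56 (L l84 (L l320 (T t2415 (L l78 (L l84 (T t2305 N))))))))))) N))))))))))) (K a202 (M a10 (F (T t2414 (L l66 (L l321 (L l330 (T t6765 N))))))) N)))))))))))))⟩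
def e0_63_106__138_42_45 : Ent 4 := ⟨[a0, a63, a106], [a138, a42, a75], (M a48 (F (T t578 (L l28 (L l318 (T t579 (T t551 N)))))))⟩
def e0_63_106__138_42_46 : Ent 4 := ⟨[a0, a63, a106], [a138, a42, a79], (M a48 (F (L l318 (T t309 (L l28 (T t6462 (L l28 (L l84 (L l318 (T t579 N))))))))))⟩
def e0_63_106__138_42_47 : Ent 4 := ⟨[a0, a63, a106], [a138, a42, a80], (M a12 (F (T t2304 (L l116 (T t2305 (L l56 (L l116 (L l320 (T t2415 N)))))))))⟩
def e0_63_106__138_42_48 : Ent 4 := ⟨[a0, a63, a106], [a138, a42, a81], (M a48 (F (T t578 (L l28 (L l120 (L l318 (T t579 (L l120 (T t551 N)))))))))⟩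
def e0_63_106__138_42_49 : Ent 4 := ⟨[a0, a63, a106], [a138, a42, a82], (M a48 (F (T t578 (L l28 (L l318 (T t579 (L l453 (T t551 N))))))))⟩
def e0_63_106__138_42_50 : Ent 4 := ⟨[a0, a63, a106], [a138, a42, a83], (M a48 (F (T t578 (L l28 (L l318 (T t579 (T t551 N)))))))⟩
def e0_63_106__138_42_51 : Ent 4 := ⟨[a0, a63, a106], [a138, a42, a85], (M a48 (F (L l318 (T t309 (L l347 (T t551 (L l54 (T t777 (L l160 (L l318 (L l368 (T t6465 (K a192 (M a240 (F (T t6230 (L l160 (L l236 (L l318 (T t6471 (L l28 (L l318 (L l339 (L l455 (T t7448 (L l318 (L l339 (T t6473 N))))))))))))))) N)))))))))))))⟩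
def e0_63_106__138_42_52 : Ent 4 := ⟨[a0, a63, a106], [a138, a42, a86], (M a48 (F (L l318 (T t309 (L l351 (T t551 (L l28 (L l318 (T t579 N)))))))))⟩
def e0_63_106__138_42_53 : Ent 4 := ⟨[a0, a63, a106], [a138, a42, a87], (M a48 (F (T t578 (L l28 (L l318 (L l367 (T t579 (T t551 N))))))))⟩
def e0_63_106__138_42_54 : Ent 4 := ⟨[a0, a63, a106], [a138, a42, a90], (M a48 (F (L l318 (T t309 (L l375 (L l483 (T t551 (L l28 (L l318 (T t579 N))))))))))⟩
def e0_63_106__138_42_55 : Ent 4 := ⟨[a0, a63, a106], [a138, a42, a91], (M a48 (F (T t578 (L l28 (L l318 (T t579 (T t551 N)))))))⟩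
def e0_63_106__138_42_56 : Ent 4 := ⟨[a0, a63, a106], [a138, a42, a95], (M a48 (F (L l318 (T t309 (T t551 (L l28 (L l318 (L l361 (T t579 N)))))))))⟩
def e0_63_106__138_42_57 : Ent 4 := ⟨[a0, a63, a106], [a138, a42, a96], (M a12 (F (T t2414 (L l56 (L l116 (L l320 (T t2415 (L l116 (T t2305 N)))))))))⟩
def e0_63_106__138_42_58 : Ent 4 := ⟨[a0, a63, a106], [a138, a42, a97], (M a48 (F (T t578 (L l28 (L l318 (L l380 (T t579 (L l96 (T t551 N)))))))))⟩
def e0_63_106__138_42_59 : Ent 4 := ⟨[a0, a63, a106], [a138, a42, a98], (M a48 (F (T t578 (L l28 (L l120 (L l318 (T t579 (L l96 (L l120 (T t551 N))))))))))⟩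
def e0_63_106__138_42_60 : Ent 4 := ⟨[a0, a63, a106], [a138, a42, a99], (M a48 (F (L l318 (T t309 (L l96 (T t551 (L l28 (L l318 (T t579 N)))))))))⟩
def e0_63_106__138_42_61 : Ent 4 := ⟨[a0, a63, a106], [a138, a42, a101], (M a240 (F (L l318 (T t4779 (L l491 (L l512 (T t817 (L l318 (T t4781 N)))))))))⟩
def e0_63_106__138_42_62 : Ent 4 := ⟨[a0, a63, a106], [a138, a42, a102], (M a48 (F (L l318 (T t309 (L l495 (T t551 (L l28 (L l318 (T t579 N)))))))))⟩
def e0_63_106__138_42_63 : Ent 4 := ⟨[a0, a63, a106], [a138, a42, a103], (M a48 (F (L l318 (T t309 (T t551 (L l28 (L l318 (T t579 N))))))))⟩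
def e0_63_106__138_42_64 : Ent 4 := ⟨[a0, a63, a106], [a138, a42, a107], (M a48 (F (L l318 (T t309 (T t551 (L l28 (L l318 (T t579 N))))))))⟩
def e0_63_106__138_42_65 : Ent 4 := ⟨[a0, a63, a106], [a138, a42, a111], (M a240 (F (L l318 (T t4779 (T t817 (L l137 (L l318 (T t4781 N))))))))⟩
def e0_63_106__138_42_66 : Ent 4 := ⟨[a0, a63, a106], [a138, a42, a112], (M a48 (F (T t578 (L l28 (L l116 (T t6462 (L l28 (L l206 (L l318 (T t6463 N))))))))))⟩
def e0_63_106__138_42_67 : Ent 4 := ⟨[a0, a63, a106], [a138, a42, a113], (M a48 (F (T t578 (L l28 (L l318 (T t579 (T t551 N)))))))⟩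
def e0_63_106__138_42_68 : Ent 4 := ⟨[a0, a63, a106], [a138, a42, a114], (M a48 (F (T t578 (L l28 (L l318 (T t579 (L l417 (T t551 N))))))))⟩
def e0_63_106__138_42_69 : Ent 4 := ⟨[a0, a63, a106], [a138, a42, a115], (M a48 (F (T t578 (L l28 (L l120 (L l318 (T t579 (L l120 (T t551 N)))))))))⟩
def e0_63_106__138_42_70 : Ent 4 := ⟨[a0, a63, a106], [a138, a42, a117], (M a48 (F (T t578 (L l28 (L l318 (L l419 (T t579 (T t551 N))))))))⟩
def e0_63_106__138_42_71 : Ent 4 := ⟨[a0, a63, a106], [a138, a42, a118], (M a48 (F (T t578 (L l28 (L l318 (T t579 (T t551 N)))))))⟩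
def e0_63_106__138_42_72 : Ent 4 := ⟨[a0, a63, a106], [a138, a42, a119], (M a48 (F (T t578 (L l28 (L l318 (T t579 (T t551 N)))))))⟩
def e0_63_106__138_42_73 : Ent 4 := ⟨[a0, a63, a106], [a138, a42, a122], (M a48 (F (T t578 (L l28 (L l318 (T t579 (T t551 N)))))))⟩
def e0_63_106__138_42_74 : Ent 4 := ⟨[a0, a63, a106], [a138, a42, a123], (M a48 (F (T t578 (L l28 (L l318 (T t579 (T t551 N)))))))⟩
def e0_63_106__138_42_75 : Ent 4 := ⟨[a0, a63, a106], [a138, a42, a127], (M a48 (F (L l318 (T t309 (T t551 (L l28 (L l206 (L l318 (T t6479 (K a192 (Fr a16 a32 l40 (Fr a58 a53 l38 (Fr a154 a202 l498 (V t7447)))) N))))))))))⟩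
def e0_63_106__138_42_76 : Ent 4 := ⟨[a0, a63, a106], [a138, a42, a128], (M a48 (L l160 (F (L l318 (T t585 (L l28 (L l318 (T t579 (L l28 (L l192 (L l220 (T t7449 (K a154 (Fr a149 a192 l519 (Fr a53 a58 l38 (Fr a101 a197 l491 (Fr a32 a16 l40 (V t7450))))) (K a133 (M a143 (F (L l318 (T t304 (L l28 (L l318 (T t579 (L l192 (L l199 (L l220 (T t578 (L l54 (L l311 (L l339 (T t7357 (K a53 (Fr a192 a149 l519 (Fr a96 a144 l484 (Fr a101 a111 l104 (Fr a154 a207 l512 (Fr a32 a16 l40 (Fr a170 a239 l404 (Fr a165 a176 l227 (Fr a160 a224 l376 (V t7431))))))))) (K a202 (Fr a149 a192 l519 (Fr a53 a58 l38 (Fr a101 a197 l491 (Fr a207 a154 l512 (V t7339))))) (K a58 (Fr a192 a149 l519 (Fr a96 a144 l484 (Fr a101 a111 l104 (Fr a32 a16 l40 (Fr a170 a239 l404 (Fr a154 a207 l512 (Fr a165 a176 l227 (Fr a160 a224 l376 (V t7431))))))))) N)))))))))))))))))) (K a143 (M a133 (F (L l54 (T t7451 (L l192 (L l220 (L l227 (L l318 (T t7452 (L l28 (L l318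 (T t579 (L l192 (L l220 (L l325 (T t578 N)))))))))))))))) N)))))))))))))))⟩
def e0_63_106__138_42_77 : Ent 4 := ⟨[a0, a63, a106], [a138, a42, a129], (M a48 (F (L l318 (T t304 (L l217 (T t551 (L l28 (L l318 (T t579 N)))))))))⟩
def e0_63_106__138_42_78 : Ent 4 := ⟨[a0, a63, a106], [a138, a42, a130], (M a48 (L l158 (F (T t578 (L l28 (L l318 (T t579 (T t551 (K a134 (M a142 (F (T t578 (L l28 (L l318 (T t579 (T t551 N))))))) (K a142 (M a134 (F (T t2348 (L l28 (L l318 (T t579 (T t551 N))))))) N))))))))))⟩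
def e0_63_106__138_42_79 : Ent 4 := ⟨[a0, a63, a106], [a138, a42, a131], (M a48 (F (T t578 (L l28 (L l318 (T t579 (L l197 (T t551 N))))))))⟩
def e0_63_106__138_42_80 : Ent 4 := ⟨[a0, a63, a106], [a138, a42, a133], (M a48 (L l160 (F (L l318 (T t585 (L l199 (T t551 (L l28 (L l318 (T t579 (K a128 (M a143 (F (L l318 (T t304 (L l28 (L l318 (T t579 (L l192 (L l199 (L l220 (T t578 (L l54 (L l311 (L l339 (T t7357 (K a53 (Fr a192 a149 l519 (Fr a96 a144 l484 (Fr a101 a111 l104 (Fr a154 a207 l512 (Fr a32 a16 l40 (Fr a170 a239 l404 (Fr a165 a176 l227 (Fr a160 a224 l376 (V t7431))))))))) (K a202 (Fr a149 a192 l519 (Fr a53 a58 l38 (Fr a101 a197 l491 (Fr a207 a154 l512 (V t7339))))) (K a58 (Fr a192 a149 l519 (Fr a96 a144 l484 (Fr a101 a111 l104 (Fr a32 a16 l40 (Fr a170 a239 l404 (Fr a154 a207 l512 (Fr a165 a176 l227 (Fr a160 a224 l376 (V t7431))))))))) N)))))))))))))))))) (K a143 (M a128 (F (T t7289 (L l28 (L l318 (T t579 (L l318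 (L l339 (T t3405 N))))))))) N))))))))))))⟩
def e0_63_106__138_42_81 : Ent 4 := ⟨[a0, a63, a106], [a138, a42, a134], (M a48 (L l158 (F (T t578 (L l28 (L l318 (T t579 (T t551 (K a130 (M a142 (F (T t578 (L l28 (L l318 (T t579 (T t551 N))))))) (K a142 (M a130 (F (T t2348 (L l28 (T t7432 N))))) N))))))))))⟩
def e0_63_106__138_42_82 : Ent 4 := ⟨[a0, a63, a106], [a138, a42, a135], (M a48 (F (T t578 (L l28 (L l318 (T t579 (T t551 N)))))))⟩
def e0_63_106__138_42_83 : Ent 4 := ⟨[a0, a63, a106], [a138, a42, a139], (M a48 (L l154 (F (T t2348 (L l28 (L l318 (T t579 (T t551 (K a136 (M a137 (F (T t2348 (L l28 (L l318 (T t579 (T t551 N))))))) (K a137 (M a136 (F (T t2348 (L l28 (T t7453 N))))) N))))))))))⟩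
def e0_63_106__138_42_84 : Ent 4 := ⟨[a0, a63, a106], [a138, a42, a143], (M a48 (L l160 (F (T t2348 (L l28 (L l318 (T t579 (L l28 (T t6462 (K a128 (M a133 (F (L l54 (T t7451 (L l192 (L l220 (L l227 (L l318 (T t7452 (L l28 (L l318 (T t579 (L l192 (L l220 (L l325 (T t578 N)))))))))))))))) (K a133 (M a128 (F (T t7289 (L l28 (L l318 (T t579 (L l318 (L l339 (T t3405 N))))))))) N)))))))))))⟩
def e0_63_106__138_42_85 : Ent 4 := ⟨[a0, a63, a106], [a138, a42, a144], (M a12 (F (T t2414 (L l56 (L l320 (T t2415 (L l170 (T t2305 N))))))))⟩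
def e0_63_106__138_42_86 : Ent 4 := ⟨[a0, a63, a106], [a138, a42, a145], (M a48 (F (L l318 (T t304 (L l167 (T t551 (L l28 (L l318 (T t579 N)))))))))⟩
def e0_63_106__138_42_87 : Ent 4 := ⟨[a0, a63, a106], [a138, a42, a146], (M a48 (F (L l318 (T t585 (L l197 (T t551 (L l28 (L l318 (T t579 N)))))))))⟩
def e0_63_106__138_42_88 : Ent 4 := ⟨[a0, a63, a106], [a138, a42, a147], (M a48 (F (L l54 (T t777 (T t551 (L l28 (L l318 (T t579 N))))))))⟩
def e0_63_106__138_42_89 : Ent 4 := ⟨[a0, a63, a106], [a138, a42, a149], (M a252 (F (L l217 (T t6675 (L l217 (L l347 (T t7252 (L l22 (L l217 (L l351 (T t7253 (L l22 (L l160 (L l217 (L l220 (L l351 (T t7254 (K a129 (M a169 (F (T t7255 (L l22 (L l152 (L l160 (L l220 (L l305 (L l351 (T t7256 (L l152 (L l160 (L l220 (T t7257 N)))))))))))))) (K a169 (M a86 (L l217 (F (T t6735 (L l174 (T t7258 (K a129 (Fr a189 a126 l435 (V t7258)) (K a189 (M a129 (F (L l174 (T t7258 (L l66 (L l221 (L l330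 (T t7259 (L l160 (L l220 (L l473 (T t7260 N)))))))))))) N)))))))) (K a189 (M a169 (F (T t7261 (T t7262 (L l22 (L l160 (L l220 (L l351 (T t7256 (L l160 (L l220 (T t7257 N)))))))))))) (K a66 (M a48 (F (T t3428 (L l28 (L l76 (L l318 (L l491 (T t579 (L l154 (L l318 (L l491 (T t7263 N)))))))))))) (K a86 (M a240 (L l351 (F (T t7264 (L l199 (L l217 (T t6519 (L l199 (L l318 (T t4781 (K a212 (M a23 (F (T t3105 (L l22 (L l95 (T t6916 N)))))) (K a23 (M a212 (F (T t3105 (L l11 (T t3429 N))))) N)))))))))))) (K a126 (M a48 (F (T t3428 (L l28 (L l318 (L l491 (T t579 (L l154 (L l318 (L l491 (T t7263 N))))))))))) N)))))))))))))))))))))))⟩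
def e0_63_106__138_42_90 : Ent 4 := ⟨[a0, a63, a106], [a138, a42, a150], (M a48 (F (L l318 (T t309 (L l163 (T t551 (L l28 (L l318 (T t579 N)))))))))⟩
def e0_63_106__138_42_91 : Ent 4 := ⟨[a0, a63, a106], [a138, a42, a151], (M a48 (F (L l318 (T t309 (L l163 (T t551 (L l28 (L l318 (T t579 N)))))))))⟩
def e0_63_106__138_42_92 : Ent 4 := ⟨[a0, a63, a106], [a138, a42, a154], (M a240 (L l206 (F (L l318 (T t4779 (L l170 (L l368 (L l512 (T t817 (L l318 (T t4781 (K a170 (M a186 (F (L l462 (T t7454 (L l170 (L l180 (L l220 (L l368 (L l512 (T t817 (L l28 (L l170 (L l220 (T t815 N)))))))))))))) (K a186 (M a170 (F (L l440 (T t3201 (L l368 (T t7455 (L l28 (L l190 (L l227 (L l318 (T t6587 N))))))))))) N)))))))))))))⟩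
def e0_63_106__138_42_93 : Ent 4 := ⟨[a0, a63, a106], [a138, a42, a155], (M a48 (F (T t2348 (L l28 (L l318 (L l367 (T t579 (T t551 N))))))))⟩
def e0_63_106__138_42_94 : Ent 4 := ⟨[a0, a63, a106], [a138, a42, a159], (M a240 (F (L l318 (T t4779 (L l170 (T t817 (L l318 (L l361 (T t4781 N)))))))))⟩
def e0_63_106__138_42_95 : Ent 4 := ⟨[a0, a63, a106], [a138, a42, a160], (M a12 (F (T t2304 (T t2305 (L l56 (L l320 (T t2415 N)))))))⟩
def e0_63_106__138_42_96 : Ent 4 := ⟨[a0, a63, a106], [a138, a42, a161], (M a48 (F (T t578 (L l28 (L l318 (T t579 (L l197 (L l453 (T t551 N)))))))))⟩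
def e0_63_106__138_42_97 : Ent 4 := ⟨[a0, a63, a106], [a138, a42, a162], (M a48 (F (T t578 (L l28 (L l318 (L l380 (T t579 (T t551 N))))))))⟩
def e0_63_106__138_42_98 : Ent 4 := ⟨[a0, a63, a106], [a138, a42, a163], (M a48 (F (T t578 (L l28 (L l318 (T t579 (T t551 N)))))))⟩
def e0_63_106__138_42_99 : Ent 4 := ⟨[a0, a63, a106], [a138, a42, a165], (M a48 (F (L l318 (T t309 (L l28 (L l199 (L l483 (T t6462 (L l28 (L l318 (T t579 N)))))))))))⟩
def e0_63_106__138_42_100 : Ent 4 := ⟨[a0, a63, a106], [a138, a42, a166], (M a48 (F (L l318 (T t309 (L l202 (T t551 (L l28 (L l318 (T t579 N)))))))))⟩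
def e0_63_106__138_42_101 : Ent 4 := ⟨[a0, a63, a106], [a138, a42, a167], (M a48 (F (T t578 (L l28 (L l318 (T t579 (T t551 N)))))))⟩
def e0_63_106__138_42_102 : Ent 4 := ⟨[a0, a63, a106], [a138, a42, a170], (M a48 (L l206 (F (L l318 (T t309 (L l220 (T t551 (L l54 (T t777 (K a192 (Fr a16 a32 l40 (Fr a58 a53 l38 (Fr a154 a202 l498 (V t7456)))) (K a149 (Fr a16 a32 l40 (Fr a58 a53 l38 (Fr a154 a202 l498 (V t7457)))) (K a154 (M a186 (F (L l220 (L l368 (T t7458 (L l227 (L l462 (T t7459 (L l170 (L l220 (L l227 (T t551 N)))))))))))) (K a186 (M a154 (F (T t6900 (L l404 (T t6955 N))))) N)))))))))))))⟩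
def e0_63_106__138_42_103 : Ent 4 := ⟨[a0, a63, a106], [a138, a42, a171], (M a48 (F (T t578 (L l28 (L l318 (T t579 (T t551 N)))))))⟩
def e0_63_106__138_42_104 : Ent 4 := ⟨[a0, a63, a106], [a138, a42, a175], (M a48 (F (L l318 (T t309 (T t551 (L l28 (L l318 (T t579 N))))))))⟩
def e0_63_106__138_42_105 : Ent 4 := ⟨[a0, a63, a106], [a138, a42, a176], (M a240 (F (L l192 (T t817 (L l190 (L l318 (T t4779 (L l190 (L l192 (L l318 (T t4781 N)))))))))))⟩
def e0_63_106__138_42_106 : Ent 4 := ⟨[a0, a63, a106], [a138, a42, a177], (M a48 (F (T t578 (L l28 (L l318 (T t579 (L l182 (L l417 (T t551 N)))))))))⟩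
def e0_63_106__138_42_107 : Ent 4 := ⟨[a0, a63, a106], [a138, a42, a178], (M a48 (F (T t578 (L l28 (L l318 (T t579 (L l182 (T t551 N))))))))⟩
def e0_63_106__138_42_108 : Ent 4 := ⟨[a0, a63, a106], [a138, a42, a179], (M a48 (F (T t578 (L l28 (L l318 (T t579 (L l182 (T t551 N))))))))⟩
def e0_63_106__138_42_109 : Ent 4 := ⟨[a0, a63, a106], [a138, a42, a181], (M a48 (F (L l54 (T t777 (L l190 (L l199 (T t551 (L l28 (L l318 (L l419 (T t579 N)))))))))))⟩
def e0_63_106__138_42_110 : Ent 4 := ⟨[a0, a63, a106], [a138, a42, a182], (M a48 (F (T t578 (L l28 (L l318 (T t579 (T t551 N)))))))⟩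
def e0_63_106__138_42_111 : Ent 4 := ⟨[a0, a63, a106], [a138, a42, a183], (M a48 (F (L l318 (T t309 (L l202 (T t551 (L l28 (L l318 (T t579 N)))))))))⟩
def e0_63_106__138_42_112 : Ent 4 := ⟨[a0, a63, a106], [a138, a42, a186], (M a48 (L l206 (F (T t578 (L l28 (L l318 (T t579 (L l190 (T t551 (K a154 (M a170 (F (T t3201 (L l170 (L l368 (T t7460 (L l54 (L l160 (L l368 (L l426 (T t7461 (L l170 (L l190 (L l227 (T t551 (L l160 (L l368 (T t6994 N)))))))))))))))))) (K a170 (M a154 (F (T t6900 (L l404 (T t6955 N))))) N)))))))))))⟩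
def e0_63_106__138_42_113 : Ent 4 := ⟨[a0, a63, a106], [a138, a42, a187], (M a48 (F (T t578 (L l28 (L l318 (T t579 (T t551 N)))))))⟩
def e0_63_106__138_42_114 : Ent 4 := ⟨[a0, a63, a106], [a138, a42, a191], (M a48 (F (L l318 (T t309 (L l190 (L l220 (T t551 (L l28 (L l318 (T t6499 (K a192 (Fr a16 a32 l40 (Fr a58 a53 l38 (Fr a154 a202 l498 (V t7447)))) N)))))))))))⟩
def e0_63_106__138_42_115 : Ent 4 := ⟨[a0, a63, a106], [a138, a42, a192], (M a252 (F (L l309 (T t6675 (L l206 (L l228 (L l309 (T t7270 (L l296 (L l309 (T t7271 (L l22 (L l160 (L l309 (T t7462 (L l309 (T t7273 (K a129 (M a86 (L l309 (F (T t6735 (L l296 (T t1230 (K a66 (Fr a3 a169 l477 (V t5989)) (K a3 (Fr a66 a126 l142 (V t7274)) N)))))))) (K a85 (M a48 (F (L l28 (T t7275 (L l236 (L l309 (L l318 (T t7276 N)))))))) (K a189 (M a48 (F (T t7277 (L l28 (L l236 (L l318 (T t579 (L l154 (L l236 (L l318 (T t7263 N))))))))))) (K a66 (M a169 (L l309 (F (T t7261 (L l296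 (T t7278 (L l66 (L l76 (L l306 (L l330 (T t6997 (K a129 (Fr a3 a86 l477 (V t7279)) (K a3 (M a129 (F (T t7280 (L l22 (L l228 (L l306 (L l514 (T t7281 N)))))))) N))))))))))))) (K a86 (M a240 (F (T t7282 (L l95 (L l334 (T t6518 (L l318 (L l339 (T t4781 N))))))))) (K a126 (M a48 (F (T t7277 (L l28 (L l236 (L l318 (T t579 (L l154 (L l236 (L l318 (T t7263 N))))))))))) (K a3 (M a48 (L l309 (F (T t7277 (L l236 (L l318 (T t7283 (K a129 (M a66 (F (T t7284 (L l232 (L l333 (T t801 N)))))) (K a66 (M a129 (F (T t7277 (L l28 (L l76 (L l236 (L l318 (T t579 (L l154 (L l331 (T t7285 N))))))))))) N))))))))) N))))))))))))))))))))))))⟩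
def e0_63_106__138_42_116 : Ent 4 := ⟨[a0, a63, a106], [a138, a42, a193], (M a48 (F (L l318 (T t304 (L l515 (T t551 (L l28 (L l318 (T t579 N)))))))))⟩
def e0_63_106__138_42_117 : Ent 4 := ⟨[a0, a63, a106], [a138, a42, a194], (M a48 (F (T t578 (L l28 (L l234 (L l318 (T t579 (T t551 N))))))))⟩
def e0_63_106__138_42_118 : Ent 4 := ⟨[a0, a63, a106], [a138, a42, a195], (M a48 (F (T t2348 (L l28 (L l318 (T t579 (L l273 (T t551 N))))))))⟩
def e0_63_106__138_42_119 : Ent 4 := ⟨[a0, a63, a106], [a138, a42, a197], (M a240 (F (L l236 (L l318 (T t4779 (L l491 (T t817 (L l318 (T t4781 N)))))))))⟩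
def e0_63_106__138_42_120 : Ent 4 := ⟨[a0, a63, a106], [a138, a42, a198], (M a48 (F (T t578 (L l28 (L l234 (L l318 (T t579 (T t551 N))))))))⟩
def e0_63_106__138_42_121 : Ent 4 := ⟨[a0, a63, a106], [a138, a42, a199], (M a48 (F (T t2348 (L l28 (L l318 (T t579 (T t551 N)))))))⟩
def e0_63_106__138_42_122 : Ent 4 := ⟨[a0, a63, a106], [a138, a42, a202], (M a12 (L l318 (F (T t2414 (L l56 (L l320 (T t2415 (T t2305 (K a10 (M a74 (L l54 (F (T t2418 (L l160 (T t6556 (L l2 (L l56 (L l320 (T t2415 (K a26 (M a58 (F (T t2418 (L l28 (T t2417 N))))) (K a58 (M a26 (F (T t2418 (L l160 (L l426 (T t6556 (L l2 (L l56 (L l320 (T t2415 N)))))))))) N)))))))))))) (K a74 (M a10 (F (T t2414 (L l66 (L l321 (L l330 (T t6765 N))))))) N))))))))))⟩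
def e0_63_106__138_42_123 : Ent 4 := ⟨[a0, a63, a106], [a138, a42, a203], (M a195 (L l320 (F (T t6816 (T t6810 (L l158 (T t6811 (K a8 (M a73 (L l56 (F (T t6884 (L l158 (L l464 (T t7463 (L l158 (T t7464 (K a25 (M a59 (F (T t6884 (L l26 (L l230 (L l316 (T t6445 N))))))) (K a59 (M a25 (L l499 (F (T t6816 (L l158 (L l464 (T t7465 (L l158 (T t7464 (K a155 (Fr a107 a151 l517 (V t7466)) (K a107 (M a155 (F (L l26 (L l158 (T t7467 (T t6810 (L l131 (L l319 (T t7468 N))))))))) N))))))))))) N))))))))))) (K a73 (M a8 (F (T t7217 (L l158 (T t6811 N))))) N)))))))))⟩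
def e0_63_106__138_42_124 : Ent 4 := ⟨[a0, a63, a106], [a138, a42, a207], (M a240 (F (L l236 (L l318 (T t4779 (L l512 (T t817 (L l318 (T t4781 N)))))))))⟩
def e0_63_106__138_42_125 : Ent 4 := ⟨[a0, a63, a106], [a138, a42, a208], (M a12 (F (T t2414 (L l56 (L l320 (T t2415 (L l375 (T t2305 N))))))))⟩
def e0_63_106__138_42_126 : Ent 4 := ⟨[a0, a63, a106], [a138, a42, a209], (M a48 (F (L l318 (T t304 (L l371 (T t551 (L l28 (L l318 (T t579 N)))))))))⟩
def e0_63_106__138_42_127 : Ent 4 := ⟨[a0, a63, a106], [a138, a42, a210], (M a48 (F (T t578 (L l28 (L l318 (T t579 (L l273 (T t551 N))))))))⟩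
def e0_63_106__138_42_128 : Ent 4 := ⟨[a0, a63, a106], [a138, a42, a211], (M a48 (F (T t578 (L l28 (L l245 (L l318 (T t579 (T t551 N))))))))⟩
def e0_63_106__138_42_129 : Ent 4 := ⟨[a0, a63, a106], [a138, a42, a213], (M a48 (F (L l318 (T t585 (L l347 (T t551 (L l28 (L l246 (L l318 (T t579 N))))))))))⟩
def e0_63_106__138_42_130 : Ent 4 := ⟨[a0, a63, a106], [a138, a42, a214], (M a48 (F (T t578 (L l28 (L l318 (T t579 (T t551 N)))))))⟩
def e0_63_106__138_42_131 : Ent 4 := ⟨[a0, a63, a106], [a138, a42, a215], (M a48 (F (T t578 (L l28 (L l245 (L l318 (T t579 (T t551 N))))))))⟩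
def e0_63_106__138_42_132 : Ent 4 := ⟨[a0, a63, a106], [a138, a42, a218], (M a48 (F (T t2348 (L l28 (L l246 (L l282 (L l318 (T t579 (L l303 (T t551 N))))))))))⟩
def e0_63_106__138_42_133 : Ent 4 := ⟨[a0, a63, a106], [a138, a42, a219], (M a48 (F (T t2348 (L l28 (L l245 (L l318 (T t579 (T t551 N))))))))⟩
def e0_63_106__138_42_134 : Ent 4 := ⟨[a0, a63, a106], [a138, a42, a223], (M a240 (F (L l160 (T t4786 (L l368 (T t817 (L l318 (L l361 (T t4781 N)))))))))⟩
def e0_63_106__138_42_135 : Ent 4 := ⟨[a0, a63, a106], [a138, a42, a224], (M a48 (F (L l318 (T t585 (L l268 (L l376 (T t551 (L l28 (L l318 (L l376 (T t579 N)))))))))))⟩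
def e0_63_106__138_42_136 : Ent 4 := ⟨[a0, a63, a106], [a138, a42, a225], (M a48 (F (T t578 (L l28 (L l318 (T t579 (L l273 (T t551 N))))))))⟩
def e0_63_106__138_42_137 : Ent 4 := ⟨[a0, a63, a106], [a138, a42, a226], (M a48 (F (T t578 (L l28 (L l318 (T t579 (T t551 N)))))))⟩
def e0_63_106__138_42_138 : Ent 4 := ⟨[a0, a63, a106], [a138, a42, a227], (M a48 (F (T t578 (L l28 (L l318 (L l380 (T t579 (T t551 N))))))))⟩
def e0_63_106__138_42_139 : Ent 4 := ⟨[a0, a63, a106], [a138, a42, a229], (M a48 (F (T t2348 (L l28 (L l318 (T t579 (L l303 (T t551 N))))))))⟩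
def e0_63_106__138_42_140 : Ent 4 := ⟨[a0, a63, a106], [a138, a42, a230], (M a48 (F (T t578 (L l28 (L l318 (T t579 (T t551 N)))))))⟩
def e0_63_106__138_42_141 : Ent 4 := ⟨[a0, a63, a106], [a138, a42, a231], (M a48 (F (T t2348 (L l28 (L l318 (T t579 (T t551 N)))))))⟩
def e0_63_106__138_42_142 : Ent 4 := ⟨[a0, a63, a106], [a138, a42, a234], (M a48 (F (T t578 (L l28 (L l282 (L l318 (T t579 (T t551 N))))))))⟩
def e0_63_106__138_42_143 : Ent 4 := ⟨[a0, a63, a106], [a138, a42, a235], (M a48 (F (T t578 (L l28 (L l318 (T t579 (T t551 N)))))))⟩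
def e0_63_106__138_42_144 : Ent 4 := ⟨[a0, a63, a106], [a138, a42, a239], (M a48 (F (L l318 (T t309 (T t551 (L l28 (L l289 (L l318 (L l404 (T t579 N))))))))))⟩
def e0_63_106__138_42_145 : Ent 4 := ⟨[a0, a63, a106], [a138, a42, a240], (M a12 (F (T t2419 (L l298 (T t2305 (L l56 (L l320 (T t2415 N))))))))⟩
def e0_63_106__138_42_146 : Ent 4 := ⟨[a0, a63, a106], [a138, a42, a241], (M a48 (F (T t578 (L l28 (L l318 (T t579 (L l258 (T t551 N))))))))⟩
def e0_63_106__138_42_147 : Ent 4 := ⟨[a0, a63, a106], [a138, a42, a242], (M a48 (F (T t578 (L l28 (L l318 (T t579 (L l258 (T t551 N))))))))⟩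
def e0_63_106__138_42_148 : Ent 4 := ⟨[a0, a63, a106], [a138, a42, a243], (M a48 (F (T t2348 (L l28 (L l318 (T t579 (L l258 (T t551 N))))))))⟩
def e0_63_106__138_42_149 : Ent 4 := ⟨[a0, a63, a106], [a138, a42, a245], (M a48 (F (T t578 (L l28 (L l318 (L l419 (T t579 (L l266 (T t551 N)))))))))⟩
def e0_63_106__138_42_150 : Ent 4 := ⟨[a0, a63, a106], [a138, a42, a246], (M a48 (F (T t578 (L l28 (L l318 (T t579 (T t551 N)))))))⟩
def e0_63_106__138_42_151 : Ent 4 := ⟨[a0, a63, a106], [a138, a42, a247], (M a48 (F (T t578 (L l28 (L l318 (T t579 (T t551 N)))))))⟩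
def e0_63_106__138_42_152 : Ent 4 := ⟨[a0, a63, a106], [a138, a42, a250], (M a48 (F (T t578 (L l28 (L l282 (L l318 (T t579 (L l266 (T t551 N)))))))))⟩
def e0_63_106__138_42_153 : Ent 4 := ⟨[a0, a63, a106], [a138, a42, a251], (M a48 (F (T t578 (L l28 (L l318 (T t579 (T t551 N)))))))⟩
def e0_63_106__138_42_154 : Ent 4 := ⟨[a0, a63, a106], [a138, a42, a255], (M a48 (F (T t2348 (L l266 (T t551 (L l28 (L l318 (L l469 (T t6526 (L l28 (L l160 (L l289 (L l318 (T t6527 N))))))))))))))⟩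
def b0_63_106__138_42 : Blk 4 := ⟨[0, 63, 106], [138, 42], [1, 2, 3, 5, 6, 7, 10, 11, 15, 16, 17, 18, 19, 21, 22, 23, 26, 27, 31, 32, 33, 34, 35, 37, 38, 39, 43, 47, 48, 49, 50, 51, 53, 54, 55, 58, 59, 64, 65, 66, 67, 69, 70, 71, 74, 75, 79, 80, 81, 82, 83, 85, 86, 87, 90, 91, 95, 96, 97, 98, 99, 101, 102, 103, 107, 111, 112, 113, 114, 115, 117, 118, 119, 122, 123, 127, 128, 129, 130, 131, 133, 134, 135, 139, 143, 144, 145, 146, 147, 149, 150, 151, 154, 155, 159, 160, 161, 162, 163, 165, 166, 167, 170, 171, 175, 176, 177, 178, 179, 181, 182, 183, 186, 187, 191, 192, 193, 194, 195, 197, 198, 199, 202, 203, 207, 208, 209, 210, 211, 213, 214, 215, 218, 219, 223, 224, 225, 226, 227, 229, 230, 231, 234, 235, 239, 240, 241, 242, 243, 245, 246, 247, 250, 251, 255], [e0_63_106__138_42_0, e0_63_106__138_42_1, e0_63_106__138_42_2, e0_63_106__138_42_3, e0_63_106__138_42_4, e0_63_106__138_42_5, e0_63_106__138_42_6, e0_63_106__138_42_7,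 e0_63_106__138_42_8, e0_63_106__138_42_9, e0_63_106__138_42_10, e0_63_106__138_42_11, e0_63_106__138_42_12, e0_63_106__138_42_13, e0_63_106__138_42_14, e0_63_106__138_42_15, e0_63_106__138_42_16, e0_63_106__138_42_17, e0_63_106__138_42_18, e0_63_106__138_42_19, e0_63_106__138_42_20, e0_63_106__138_42_21, e0_63_106__138_42_22, e0_63_106__138_42_23, e0_63_106__138_42_24, e0_63_106__138_42_25, e0_63_106__138_42_26, e0_63_106__138_42_27, e0_63_106__138_42_28, e0_63_106__138_42_29, e0_63_106__138_42_30, e0_63_106__138_42_31, e0_63_106__138_42_32, e0_63_106__138_42_33, e0_63_106__138_42_34, e0_63_106__138_42_35, e0_63_106__138_42_36, e0_63_106__138_42_37, e0_63_106__138_42_38, e0_63_106__138_42_39, e0_63_106__138_42_40, e0_63_106__138_42_41, e0_63_106__138_42_42, e0_63_106__138_42_43, e0_63_106__138_42_44, e0_63_106__138_42_45, e0_63_106__138_42_46, e0_63_106__138_42_47, e0_63_106__138_42_48, e0_63_106__138_42_49, e0_63_106__138_42_50,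 e0_63_106__138_42_51, e0_63_106__138_42_52, e0_63_106__138_42_53, e0_63_106__138_42_54, e0_63_106__138_42_55, e0_63_106__138_42_56, e0_63_106__138_42_57, e0_63_106__138_42_58, e0_63_106__138_42_59, e0_63_106__138_42_60, e0_63_106__138_42_61, e0_63_106__138_42_62, e0_63_106__138_42_63, e0_63_106__138_42_64, e0_63_106__138_42_65, e0_63_106__138_42_66, e0_63_106__138_42_67, e0_63_106__138_42_68, e0_63_106__138_42_69, e0_63_106__138_42_70, e0_63_106__138_42_71, e0_63_106__138_42_72, e0_63_106__138_42_73, e0_63_106__138_42_74, e0_63_106__138_42_75, e0_63_106__138_42_76, e0_63_106__138_42_77, e0_63_106__138_42_78, e0_63_106__138_42_79, e0_63_106__138_42_80, e0_63_106__138_42_81, e0_63_106__138_42_82, e0_63_106__138_42_83, e0_63_106__138_42_84, e0_63_106__138_42_85, e0_63_106__138_42_86, e0_63_106__138_42_87, e0_63_106__138_42_88, e0_63_106__138_42_89, e0_63_106__138_42_90, e0_63_106__138_42_91, e0_63_106__138_42_92, e0_63_106__138_42_93,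 e0_63_106__138_42_94, e0_63_106__138_42_95, e0_63_106__138_42_96, e0_63_106__138_42_97, e0_63_106__138_42_98, e0_63_106__138_42_99, e0_63_106__138_42_100, e0_63_106__138_42_101, e0_63_106__138_42_102, e0_63_106__138_42_103, e0_63_106__138_42_104, e0_63_106__138_42_105, e0_63_106__138_42_106, e0_63_106__138_42_107, e0_63_106__138_42_108, e0_63_106__138_42_109, e0_63_106__138_42_110, e0_63_106__138_42_111, e0_63_106__138_42_112, e0_63_106__138_42_113, e0_63_106__138_42_114, e0_63_106__138_42_115, e0_63_106__138_42_116, e0_63_106__138_42_117, e0_63_106__138_42_118, e0_63_106__138_42_119, e0_63_106__138_42_120, e0_63_106__138_42_121, e0_63_106__138_42_122, e0_63_106__138_42_123, e0_63_106__138_42_124, e0_63_106__138_42_125, e0_63_106__138_42_126, e0_63_106__138_42_127, e0_63_106__138_42_128, e0_63_106__138_42_129, e0_63_106__138_42_130, e0_63_106__138_42_131, e0_63_106__138_42_132, e0_63_106__138_42_133, e0_63_106__138_42_134,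 e0_63_106__138_42_135, e0_63_106__138_42_136, e0_63_106__138_42_137, e0_63_106__138_42_138, e0_63_106__138_42_139, e0_63_106__138_42_140, e0_63_106__138_42_141, e0_63_106__138_42_142, e0_63_106__138_42_143, e0_63_106__138_42_144, e0_63_106__138_42_145, e0_63_106__138_42_146, e0_63_106__138_42_147, e0_63_106__138_42_148, e0_63_106__138_42_149, e0_63_106__138_42_150, e0_63_106__138_42_151, e0_63_106__138_42_152, e0_63_106__138_42_153, e0_63_106__138_42_154], by decide +kernel, by decide +kernel⟩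
def e0_63_106__139_42_0 : Ent 4 := ⟨[a0, a63, a106], [a139, a42, a1], (M a48 (F (T t309 (T t551 (L l28 (T t579 N))))))⟩
def e0_63_106__139_42_1 : Ent 4 := ⟨[a0, a63, a106], [a139, a42, a2], (M a48 (L l66 (F (T t309 (T t551 (L l28 (T t579 (K a22 (M a62 (F (T t585 (L l22 (L l306 (T t5926 N)))))) (K a62 (M a22 (F (T t3405 (T t551 (L l28 (T t579 N)))))) N)))))))))⟩
def e0_63_106__139_42_2 : Ent 4 := ⟨[a0, a63, a106], [a139, a42, a3], (M a207 (F (T t6739 (L l7 (L l154 (T t6701 (L l154 (T t6702 N))))))))⟩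
def e0_63_106__139_42_3 : Ent 4 := ⟨[a0, a63, a106], [a139, a42, a4], (M a48 (F (T t309 (T t551 (L l28 (T t579 N))))))⟩
def e0_63_106__139_42_4 : Ent 4 := ⟨[a0, a63, a106], [a139, a42, a5], (M a48 (F (L l47 (T t309 (T t551 (L l28 (L l47 (T t579 N))))))))⟩
def e0_63_106__139_42_5 : Ent 4 := ⟨[a0, a63, a106], [a139, a42, a6], (M a48 (F (T t309 (T t551 (L l28 (T t579 N))))))⟩
def e0_63_106__139_42_6 : Ent 4 := ⟨[a0, a63, a106], [a139, a42, a7], (M a48 (F (T t309 (T t551 (L l28 (T t579 N))))))⟩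
def e0_63_106__139_42_7 : Ent 4 := ⟨[a0, a63, a106], [a139, a42, a8], (M a48 (L l56 (F (T t309 (T t551 (L l28 (T t579 (K a25 (M a59 (F (T t585 (L l26 (L l316 (T t6445 N)))))) (K a59 (M a25 (F (T t3405 (T t551 (L l28 (T t579 N)))))) N)))))))))⟩
def e0_63_106__139_42_8 : Ent 4 := ⟨[a0, a63, a106], [a139, a42, a9], (M a48 (F (T t309 (T t551 (L l28 (T t579 N))))))⟩
def e0_63_106__139_42_9 : Ent 4 := ⟨[a0, a63, a106], [a139, a42, a10], (M a48 (L l54 (F (T t2348 (L l28 (L l318 (T t579 (T t551 (K a26 (Fr a58 a53 l38 (V t6446)) (K a58 (M a26 (F (L l28 (T t4144 (T t551 (L l28 (L l426 (T t6447 (K a32 (Fr a192 a149 l519 (Fr a15 a37 l75 (Fr a47 a31 l61 (V t6528)))) N))))))))) N))))))))))⟩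
def e0_63_106__139_42_10 : Ent 4 := ⟨[a0, a63, a106], [a139, a42, a11], (M a48 (L l319 (F (T t309 (T t551 (L l28 (T t579 (K a75 (M a203 (F (T t3405 (T t551 (L l28 (T t579 N)))))) (K a203 (M a75 (F (T t2348 (L l28 (L l230 (T t579 (T t551 N))))))) N)))))))))⟩
def e0_63_106__139_42_11 : Ent 4 := ⟨[a0, a63, a106], [a139, a42, a12], (M a48 (F (T t585 (L l478 (T t551 (L l28 (T t579 N)))))))⟩
def e0_63_106__139_42_12 : Ent 4 := ⟨[a0, a63, a106], [a139, a42, a13], (M a48 (F (T t309 (T t551 (L l28 (T t579 N))))))⟩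
def e0_63_106__139_42_13 : Ent 4 := ⟨[a0, a63, a106], [a139, a42, a14], (M a48 (F (T t309 (T t551 (L l28 (T t579 N))))))⟩
def e0_63_106__139_42_14 : Ent 4 := ⟨[a0, a63, a106], [a139, a42, a15], (M a48 (F (T t585 (L l483 (T t551 (L l28 (T t579 N)))))))⟩
def e0_63_106__139_42_15 : Ent 4 := ⟨[a0, a63, a106], [a139, a42, a16], (M a240 (F (T t4786 (L l340 (T t4780 (T t4781 N))))))⟩
def e0_63_106__139_42_16 : Ent 4 := ⟨[a0, a63, a106], [a139, a42, a17], (M a48 (F (T t309 (T t551 (L l28 (T t579 N))))))⟩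
def e0_63_106__139_42_17 : Ent 4 := ⟨[a0, a63, a106], [a139, a42, a18], (M a48 (F (T t309 (T t551 (L l28 (T t579 N))))))⟩
def e0_63_106__139_42_18 : Ent 4 := ⟨[a0, a63, a106], [a139, a42, a19], (M a48 (F (T t309 (T t551 (L l28 (L l367 (T t579 N)))))))⟩
def e0_63_106__139_42_19 : Ent 4 := ⟨[a0, a63, a106], [a139, a42, a20], (M a48 (F (T t309 (T t551 (L l28 (T t579 N))))))⟩
def e0_63_106__139_42_20 : Ent 4 := ⟨[a0, a63, a106], [a139, a42, a21], (M a48 (F (L l47 (T t309 (L l347 (T t551 (L l28 (L l47 (T t579 N)))))))))⟩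
def e0_63_106__139_42_21 : Ent 4 := ⟨[a0, a63, a106], [a139, a42, a22], (M a48 (L l66 (F (T t309 (T t551 (L l28 (T t579 (K a2 (M a62 (F (T t585 (L l22 (L l306 (T t5926 N)))))) (K a62 (M a2 (F (T t3405 (L l19 (L l28 (T t342 N)))))) N)))))))))⟩
def e0_63_106__139_42_22 : Ent 4 := ⟨[a0, a63, a106], [a139, a42, a23], (M a48 (F (T t309 (L l351 (T t551 (L l28 (T t579 N)))))))⟩
def e0_63_106__139_42_23 : Ent 4 := ⟨[a0, a63, a106], [a139, a42, a24], (M a48 (F (T t309 (T t551 (L l28 (T t579 N))))))⟩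
def e0_63_106__139_42_24 : Ent 4 := ⟨[a0, a63, a106], [a139, a42, a25], (M a48 (L l56 (F (T t309 (T t551 (L l28 (T t579 (K a8 (M a59 (F (T t585 (L l26 (L l316 (T t6445 N)))))) (K a59 (M a8 (F (T t3405 (L l19 (L l28 (T t4700 N)))))) N)))))))))⟩
def e0_63_106__139_42_25 : Ent 4 := ⟨[a0, a63, a106], [a139, a42, a26], (M a48 (L l54 (F (T t309 (L l28 (T t579 (T t551 (K a10 (Fr a58 a53 l38 (V t6446)) (K a58 (M a10 (F (L l28 (T t2289 (L l331 (T t4033 (L l18 (L l354 (T t6449 (L l18 (L l426 (T t6450 N)))))))))))) N)))))))))⟩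
def e0_63_106__139_42_26 : Ent 4 := ⟨[a0, a63, a106], [a139, a42, a27], (M a48 (F (T t309 (T t551 (L l28 (T t579 N))))))⟩
def e0_63_106__139_42_27 : Ent 4 := ⟨[a0, a63, a106], [a139, a42, a28], (M a48 (F (T t309 (T t551 (L l28 (L l362 (T t579 N)))))))⟩
def e0_63_106__139_42_28 : Ent 4 := ⟨[a0, a63, a106], [a139, a42, a29], (M a48 (F (T t309 (L l371 (T t551 (L l28 (T t579 N)))))))⟩
def e0_63_106__139_42_29 : Ent 4 := ⟨[a0, a63, a106], [a139, a42, a30], (M a48 (F (T t309 (T t551 (L l28 (T t579 N))))))⟩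
def e0_63_106__139_42_30 : Ent 4 := ⟨[a0, a63, a106], [a139, a42, a31], (M a48 (F (T t309 (L l375 (T t551 (L l28 (L l361 (T t579 N))))))))⟩
def e0_63_106__139_42_31 : Ent 4 := ⟨[a0, a63, a106], [a139, a42, a32], (M a240 (L l28 (F (T t6609 (L l376 (T t6588 (L l376 (T t4781 (K a37 (M a47 (F (T t6602 (T t6698 (T t6604 N))))) (K a47 (M a37 (F (L l376 (T t6588 (L l54 (T t6699 (L l376 (T t4781 N)))))))) N))))))))))⟩
def e0_63_106__139_42_32 : Ent 4 := ⟨[a0, a63, a106], [a139, a42, a33], (M a48 (F (T t309 (T t551 (L l20 (L l28 (T t579 N)))))))⟩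
def e0_63_106__139_42_33 : Ent 4 := ⟨[a0, a63, a106], [a139, a42, a34], (M a48 (L l26 (F (T t309 (T t551 (L l20 (L l28 (T t579 (K a38 (M a46 (F (T t585 (L l56 (L l378 (T t4030 N)))))) (K a46 (M a38 (F (T t3405 (T t551 (L l20 (L l28 (T t579 N))))))) N))))))))))⟩
def e0_63_106__139_42_34 : Ent 4 := ⟨[a0, a63, a106], [a139, a42, a35], (M a48 (F (T t309 (T t551 (L l20 (L l28 (T t579 N)))))))⟩
def e0_63_106__139_42_35 : Ent 4 := ⟨[a0, a63, a106], [a139, a42, a36], (M a48 (F (T t309 (T t551 (L l24 (L l28 (T t579 N)))))))⟩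
def e0_63_106__139_42_36 : Ent 4 := ⟨[a0, a63, a106], [a139, a42, a37], (M a240 (L l28 (F (T t4786 (T t6606 (T t4781 (K a32 (M a47 (F (T t6602 (T t6698 (T t6604 N))))) (K a47 (M a32 (F (T t6607 (T t4781 (L l54 (T t6608 N)))))) N))))))))⟩
def e0_63_106__139_42_37 : Ent 4 := ⟨[a0, a63, a106], [a139, a42, a38], (M a48 (L l26 (F (T t309 (T t551 (L l28 (T t579 (K a34 (M a46 (F (T t585 (L l56 (L l378 (T t4030 N)))))) (K a46 (M a34 (F (T t309 (L l28 (L l72 (L l74 (T t6555 N))))))) N)))))))))⟩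
def e0_63_106__139_42_38 : Ent 4 := ⟨[a0, a63, a106], [a139, a42, a39], (M a48 (F (T t309 (T t551 (L l28 (T t579 N))))))⟩
def e0_63_106__139_42_39 : Ent 4 := ⟨[a0, a63, a106], [a139, a42, a40], (M a48 (L l22 (F (T t309 (T t551 (L l24 (L l28 (T t579 (K a41 (M a43 (F (T t585 (L l66 (L l388 (T t6451 N)))))) (K a43 (M a41 (F (T t3405 (T t551 (L l24 (L l28 (T t579 N))))))) N))))))))))⟩
def e0_63_106__139_42_40 : Ent 4 := ⟨[a0, a63, a106], [a139, a42, a41], (M a48 (L l22 (F (T t309 (T t551 (L l28 (T t579 (K a40 (M a43 (F (T t585 (L l66 (L l388 (T t6451 N)))))) (K a43 (M a40 (F (T t309 (L l29 (L l69 (T t6452 N)))))) N)))))))))⟩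
def e0_63_106__139_42_41 : Ent 4 := ⟨[a0, a63, a106], [a139, a42, a43], (M a48 (L l22 (F (T t309 (T t551 (L l28 (T t579 (K a40 (M a41 (F (T t3405 (T t551 (L l24 (L l28 (T t579 N))))))) (K a41 (M a40 (F (T t309 (L l29 (L l69 (T t6452 N)))))) N)))))))))⟩
def e0_63_106__139_42_42 : Ent 4 := ⟨[a0, a63, a106], [a139, a42, a44], (M a48 (F (T t309 (T t551 (L l24 (L l28 (T t579 N)))))))⟩
def e0_63_106__139_42_43 : Ent 4 := ⟨[a0, a63, a106], [a139, a42, a45], (M a48 (F (T t309 (T t551 (L l28 (T t579 N))))))⟩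
def e0_63_106__139_42_44 : Ent 4 := ⟨[a0, a63, a106], [a139, a42, a46], (M a48 (L l26 (F (T t309 (T t551 (L l28 (T t579 (K a34 (M a38 (F (T t3405 (T t551 (L l20 (L l28 (T t579 N))))))) (K a38 (M a34 (F (T t309 (L l28 (L l72 (L l74 (T t6555 N))))))) N)))))))))⟩
def e0_63_106__139_42_45 : Ent 4 := ⟨[a0, a63, a106], [a139, a42, a47], (M a12 (L l28 (F (T t2304 (T t2305 (L l56 (T t2415 (K a32 (M a37 (F (T t2416 (L l56 (T t2415 (T t2305 N)))))) (K a37 (M a32 (F (T t2304 (L l51 (L l56 (T t682 N)))))) N)))))))))⟩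
def e0_63_106__139_42_46 : Ent 4 := ⟨[a0, a63, a106], [a139, a42, a48], (M a12 (F (T t2419 (L l508 (T t2305 (L l56 (T t2415 N)))))))⟩
def e0_63_106__139_42_47 : Ent 4 := ⟨[a0, a63, a106], [a139, a42, a49], (M a48 (F (L l35 (T t309 (T t551 (L l28 (L l35 (T t579 N))))))))⟩
def e0_63_106__139_42_48 : Ent 4 := ⟨[a0, a63, a106], [a139, a42, a50], (M a48 (F (T t309 (T t551 (L l28 (T t579 N))))))⟩
def e0_63_106__139_42_49 : Ent 4 := ⟨[a0, a63, a106], [a139, a42, a51], (M a48 (F (T t585 (L l417 (T t551 (L l28 (T t579 N)))))))⟩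
def e0_63_106__139_42_50 : Ent 4 := ⟨[a0, a63, a106], [a139, a42, a52], (M a48 (F (L l31 (T t309 (T t551 (L l28 (L l31 (T t579 N))))))))⟩
def e0_63_106__139_42_51 : Ent 4 := ⟨[a0, a63, a106], [a139, a42, a53], (M a240 (F (T t4786 (L l491 (T t817 (L l419 (T t4781 N)))))))⟩
def e0_63_106__139_42_52 : Ent 4 := ⟨[a0, a63, a106], [a139, a42, a54], (M a48 (F (L l31 (T t309 (T t551 (L l28 (L l31 (T t579 N))))))))⟩
def e0_63_106__139_42_53 : Ent 4 := ⟨[a0, a63, a106], [a139, a42, a55], (M a48 (F (L l31 (T t309 (L l495 (T t551 (L l28 (L l31 (T t579 N)))))))))⟩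
def e0_63_106__139_42_54 : Ent 4 := ⟨[a0, a63, a106], [a139, a42, a56], (M a48 (F (T t309 (T t551 (L l28 (T t579 N))))))⟩
def e0_63_106__139_42_55 : Ent 4 := ⟨[a0, a63, a106], [a139, a42, a57], (M a48 (F (L l35 (T t309 (T t551 (L l28 (L l35 (T t579 N))))))))⟩
def e0_63_106__139_42_56 : Ent 4 := ⟨[a0, a63, a106], [a139, a42, a58], (M a240 (L l54 (F (T t4779 (T t817 (T t4781 (K a10 (M a26 (F (L l28 (T t815 (L l318 (T t4781 (T t817 N))))))) (K a26 (M a10 (F (T t6609 (T t6610 (L l18 (T t6611 N)))))) N))))))))⟩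
def e0_63_106__139_42_57 : Ent 4 := ⟨[a0, a63, a106], [a139, a42, a59], (M a48 (L l56 (F (T t309 (T t551 (L l28 (T t579 (K a8 (M a25 (F (T t3405 (T t551 (L l28 (T t579 N)))))) (K a25 (M a8 (F (T t3405 (L l19 (L l28 (T t4700 N)))))) N)))))))))⟩
def e0_63_106__139_42_58 : Ent 4 := ⟨[a0, a63, a106], [a139, a42, a60], (M a48 (F (T t585 (L l442 (T t551 (L l28 (T t579 N)))))))⟩
def e0_63_106__139_42_59 : Ent 4 := ⟨[a0, a63, a106], [a139, a42, a61], (M a48 (F (L l35 (T t309 (L l515 (T t551 (L l28 (L l35 (T t579 N)))))))))⟩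
def e0_63_106__139_42_60 : Ent 4 := ⟨[a0, a63, a106], [a139, a42, a62], (M a48 (L l66 (F (T t309 (T t551 (L l28 (T t579 (K a2 (M a22 (F (T t3405 (T t551 (L l28 (T t579 N)))))) (K a22 (M a2 (F (T t3405 (L l19 (L l28 (T t342 N)))))) N)))))))))⟩
def e0_63_106__139_42_61 : Ent 4 := ⟨[a0, a63, a106], [a139, a42, a64], (M a48 (F (T t585 (L l28 (T t6594 (L l28 (L l331 (T t6455 (L l28 (L l84 (T t6457 (L l54 (T t6458 (K a207 (Fr a192 a149 l519 (Fr a96 a144 l484 (Fr a101 a111 l104 (Fr a32 a16 l40 (V t6459))))) N))))))))))))))⟩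
def e0_63_106__139_42_62 : Ent 4 := ⟨[a0, a63, a106], [a139, a42, a65], (M a48 (F (T t309 (L l76 (T t551 (L l28 (L l76 (T t579 N))))))))⟩
def e0_63_106__139_42_63 : Ent 4 := ⟨[a0, a63, a106], [a139, a42, a66], (M a48 (F (T t585 (L l76 (T t551 (L l28 (L l76 (T t579 N))))))))⟩
def e0_63_106__139_42_64 : Ent 4 := ⟨[a0, a63, a106], [a139, a42, a67], (M a48 (F (T t309 (L l76 (T t551 (L l28 (L l76 (T t579 N))))))))⟩
def e0_63_106__139_42_65 : Ent 4 := ⟨[a0, a63, a106], [a139, a42, a68], (M a48 (F (T t309 (L l80 (T t551 (L l28 (L l80 (T t579 N))))))))⟩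
def e0_63_106__139_42_66 : Ent 4 := ⟨[a0, a63, a106], [a139, a42, a69], (M a48 (F (T t309 (L l84 (T t551 (L l28 (L l84 (T t579 N))))))))⟩
def e0_63_106__139_42_67 : Ent 4 := ⟨[a0, a63, a106], [a139, a42, a70], (M a48 (F (T t309 (T t551 (L l28 (T t579 N))))))⟩
def e0_63_106__139_42_68 : Ent 4 := ⟨[a0, a63, a106], [a139, a42, a71], (M a3 (F (T t6745 (L l66 (T t809 (L l159 (T t3500 N)))))))⟩
def e0_63_106__139_42_69 : Ent 4 := ⟨[a0, a63, a106], [a139, a42, a72], (M a48 (F (T t585 (L l80 (T t551 (L l28 (L l80 (T t579 N))))))))⟩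
def e0_63_106__139_42_70 : Ent 4 := ⟨[a0, a63, a106], [a139, a42, a73], (M a48 (F (T t309 (T t551 (L l28 (T t579 N))))))⟩
def e0_63_106__139_42_71 : Ent 4 := ⟨[a0, a63, a106], [a139, a42, a74], (M a48 (F (T t2348 (L l28 (L l84 (L l318 (T t579 (L l84 (T t551 N)))))))))⟩
def e0_63_106__139_42_72 : Ent 4 := ⟨[a0, a63, a106], [a139, a42, a75], (M a48 (L l319 (F (T t309 (T t551 (L l28 (T t579 (K a11 (M a203 (F (T t3405 (T t551 (L l28 (T t579 N)))))) (K a203 (M a11 (F (T t2348 (L l28 (L l230 (T t579 (T t551 N))))))) N)))))))))⟩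
def e0_63_106__139_42_73 : Ent 4 := ⟨[a0, a63, a106], [a139, a42, a76], (M a48 (F (T t309 (L l80 (T t551 (L l28 (L l80 (T t579 N))))))))⟩
def e0_63_106__139_42_74 : Ent 4 := ⟨[a0, a63, a106], [a139, a42, a77], (M a48 (F (T t309 (T t551 (L l28 (T t579 N))))))⟩
def e0_63_106__139_42_75 : Ent 4 := ⟨[a0, a63, a106], [a139, a42, a78], (M a48 (F (T t309 (T t551 (L l28 (T t579 N))))))⟩
def e0_63_106__139_42_76 : Ent 4 := ⟨[a0, a63, a106], [a139, a42, a79], (M a48 (F (T t309 (L l84 (T t551 (L l28 (L l84 (T t579 N))))))))⟩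
def e0_63_106__139_42_77 : Ent 4 := ⟨[a0, a63, a106], [a139, a42, a80], (M a12 (F (T t2304 (L l116 (T t2305 (L l56 (L l116 (T t2415 N))))))))⟩
def e0_63_106__139_42_78 : Ent 4 := ⟨[a0, a63, a106], [a139, a42, a81], (M a48 (F (T t309 (L l120 (T t551 (L l28 (L l120 (T t579 N))))))))⟩
def e0_63_106__139_42_79 : Ent 4 := ⟨[a0, a63, a106], [a139, a42, a82], (M a48 (F (T t309 (L l453 (T t551 (L l28 (T t579 N)))))))⟩
def e0_63_106__139_42_80 : Ent 4 := ⟨[a0, a63, a106], [a139, a42, a83], (M a48 (F (T t309 (T t551 (L l28 (T t579 N))))))⟩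
def e0_63_106__139_42_81 : Ent 4 := ⟨[a0, a63, a106], [a139, a42, a84], (M a48 (F (T t309 (L l140 (T t551 (L l28 (L l140 (T t579 N))))))))⟩
def e0_63_106__139_42_82 : Ent 4 := ⟨[a0, a63, a106], [a139, a42, a85], (M a48 (F (T t309 (L l347 (T t551 (L l54 (T t777 (L l331 (L l368 (T t6465 (K a192 (M a240 (F (T t6230 (L l159 (L l236 (T t6471 (L l54 (L l236 (L l339 (T t6472 (L l339 (T t6473 N)))))))))))) N)))))))))))⟩
def e0_63_106__139_42_83 : Ent 4 := ⟨[a0, a63, a106], [a139, a42, a86], (M a48 (F (T t309 (L l351 (T t551 (L l28 (T t579 N)))))))⟩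
def e0_63_106__139_42_84 : Ent 4 := ⟨[a0, a63, a106], [a139, a42, a87], (M a48 (F (T t309 (T t551 (L l28 (L l367 (T t579 N)))))))⟩
def e0_63_106__139_42_85 : Ent 4 := ⟨[a0, a63, a106], [a139, a42, a88], (M a48 (F (T t309 (L l478 (T t551 (L l28 (T t579 N)))))))⟩
def e0_63_106__139_42_86 : Ent 4 := ⟨[a0, a63, a106], [a139, a42, a89], (M a48 (F (T t309 (L l371 (T t551 (L l28 (T t579 N)))))))⟩
def e0_63_106__139_42_87 : Ent 4 := ⟨[a0, a63, a106], [a139, a42, a90], (M a48 (F (T t309 (L l375 (L l483 (T t551 (L l28 (T t579 N))))))))⟩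
def e0_63_106__139_42_88 : Ent 4 := ⟨[a0, a63, a106], [a139, a42, a91], (M a48 (F (T t309 (T t551 (L l28 (T t579 N))))))⟩
def e0_63_106__139_42_89 : Ent 4 := ⟨[a0, a63, a106], [a139, a42, a92], (M a48 (F (T t309 (T t551 (L l28 (T t579 N))))))⟩
def e0_63_106__139_42_90 : Ent 4 := ⟨[a0, a63, a106], [a139, a42, a93], (M a48 (F (T t309 (T t551 (L l28 (L l362 (T t579 N)))))))⟩
def e0_63_106__139_42_91 : Ent 4 := ⟨[a0, a63, a106], [a139, a42, a94], (M a48 (F (T t309 (T t551 (L l28 (T t579 N))))))⟩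
def e0_63_106__139_42_92 : Ent 4 := ⟨[a0, a63, a106], [a139, a42, a95], (M a48 (F (T t309 (T t551 (L l28 (L l361 (T t579 N)))))))⟩
def e0_63_106__139_42_93 : Ent 4 := ⟨[a0, a63, a106], [a139, a42, a96], (M a12 (F (T t2414 (L l56 (L l116 (T t2415 (L l116 (T t2305 N))))))))⟩
def e0_63_106__139_42_94 : Ent 4 := ⟨[a0, a63, a106], [a139, a42, a97], (M a48 (F (T t309 (L l96 (T t551 (L l28 (L l380 (T t579 N))))))))⟩
def e0_63_106__139_42_95 : Ent 4 := ⟨[a0, a63, a106], [a139, a42, a98], (M a48 (F (T t585 (L l96 (L l120 (T t551 (L l28 (L l120 (T t579 N)))))))))⟩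
def e0_63_106__139_42_96 : Ent 4 := ⟨[a0, a63, a106], [a139, a42, a99], (M a48 (F (T t309 (L l96 (T t551 (L l28 (T t579 N)))))))⟩
def e0_63_106__139_42_97 : Ent 4 := ⟨[a0, a63, a106], [a139, a42, a100], (M a48 (F (T t309 (L l100 (T t551 (L l28 (L l400 (T t579 N))))))))⟩
def e0_63_106__139_42_98 : Ent 4 := ⟨[a0, a63, a106], [a139, a42, a101], (M a240 (F (T t4779 (L l491 (L l512 (T t817 (T t4781 N)))))))⟩
def e0_63_106__139_42_99 : Ent 4 := ⟨[a0, a63, a106], [a139, a42, a102], (M a48 (F (T t309 (L l495 (T t551 (L l28 (T t579 N)))))))⟩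
def e0_63_106__139_42_100 : Ent 4 := ⟨[a0, a63, a106], [a139, a42, a103], (M a48 (F (T t309 (T t551 (L l28 (T t579 N))))))⟩
def e0_63_106__139_42_101 : Ent 4 := ⟨[a0, a63, a106], [a139, a42, a104], (M a48 (F (T t585 (L l100 (L l140 (T t551 (L l28 (L l140 (T t579 N)))))))))⟩
def e0_63_106__139_42_102 : Ent 4 := ⟨[a0, a63, a106], [a139, a42, a105], (M a48 (F (T t309 (L l515 (T t551 (L l28 (T t579 N)))))))⟩
def e0_63_106__139_42_103 : Ent 4 := ⟨[a0, a63, a106], [a139, a42, a107], (M a48 (F (T t309 (T t551 (L l28 (T t579 N))))))⟩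
def e0_63_106__139_42_104 : Ent 4 := ⟨[a0, a63, a106], [a139, a42, a108], (M a48 (F (T t309 (L l100 (T t551 (L l28 (T t579 N)))))))⟩
def e0_63_106__139_42_105 : Ent 4 := ⟨[a0, a63, a106], [a139, a42, a109], (M a48 (F (T t309 (T t551 (L l28 (T t579 N))))))⟩
def e0_63_106__139_42_106 : Ent 4 := ⟨[a0, a63, a106], [a139, a42, a110], (M a48 (F (T t309 (T t551 (L l28 (T t579 N))))))⟩
def e0_63_106__139_42_107 : Ent 4 := ⟨[a0, a63, a106], [a139, a42, a111], (M a240 (F (T t4779 (T t817 (L l137 (T t4781 N))))))⟩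
def e0_63_106__139_42_108 : Ent 4 := ⟨[a0, a63, a106], [a139, a42, a112], (M a48 (F (T t309 (L l28 (L l116 (T t6462 (L l28 (L l116 (T t579 N)))))))))⟩
def e0_63_106__139_42_109 : Ent 4 := ⟨[a0, a63, a106], [a139, a42, a113], (M a48 (F (T t309 (T t551 (L l28 (T t579 N))))))⟩
def e0_63_106__139_42_110 : Ent 4 := ⟨[a0, a63, a106], [a139, a42, a114], (M a48 (F (T t309 (L l417 (T t551 (L l28 (T t579 N)))))))⟩
def e0_63_106__139_42_111 : Ent 4 := ⟨[a0, a63, a106], [a139, a42, a115], (M a48 (F (T t309 (L l120 (T t551 (L l28 (L l120 (T t579 N))))))))⟩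
def e0_63_106__139_42_112 : Ent 4 := ⟨[a0, a63, a106], [a139, a42, a116], (M a48 (F (T t309 (T t551 (L l28 (T t579 N))))))⟩
def e0_63_106__139_42_113 : Ent 4 := ⟨[a0, a63, a106], [a139, a42, a117], (M a48 (F (L l419 (T t309 (T t551 (L l28 (L l419 (T t579 N))))))))⟩
def e0_63_106__139_42_114 : Ent 4 := ⟨[a0, a63, a106], [a139, a42, a118], (M a48 (F (T t309 (T t551 (L l28 (T t579 N))))))⟩
def e0_63_106__139_42_115 : Ent 4 := ⟨[a0, a63, a106], [a139, a42, a119], (M a48 (F (T t309 (T t551 (L l28 (T t579 N))))))⟩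
def e0_63_106__139_42_116 : Ent 4 := ⟨[a0, a63, a106], [a139, a42, a120], (M a48 (F (T t309 (L l442 (T t551 (L l28 (T t579 N)))))))⟩
def e0_63_106__139_42_117 : Ent 4 := ⟨[a0, a63, a106], [a139, a42, a121], (M a48 (F (T t309 (T t551 (L l28 (T t579 N))))))⟩
def e0_63_106__139_42_118 : Ent 4 := ⟨[a0, a63, a106], [a139, a42, a122], (M a48 (F (T t309 (T t551 (L l28 (T t579 N))))))⟩
def e0_63_106__139_42_119 : Ent 4 := ⟨[a0, a63, a106], [a139, a42, a123], (M a48 (F (T t309 (T t551 (L l28 (T t579 N))))))⟩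
def e0_63_106__139_42_120 : Ent 4 := ⟨[a0, a63, a106], [a139, a42, a124], (M a48 (F (T t309 (L l140 (T t551 (L l28 (L l140 (T t579 N))))))))⟩
def e0_63_106__139_42_121 : Ent 4 := ⟨[a0, a63, a106], [a139, a42, a125], (M a48 (F (T t309 (T t551 (L l28 (T t579 N))))))⟩
def e0_63_106__139_42_122 : Ent 4 := ⟨[a0, a63, a106], [a139, a42, a126], (M a48 (F (T t309 (T t551 (L l28 (T t579 N))))))⟩
def e0_63_106__139_42_123 : Ent 4 := ⟨[a0, a63, a106], [a139, a42, a127], (M a48 (F (T t309 (T t551 (L l28 (T t6744 (L l28 (L l331 (T t6479 N)))))))))⟩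
def e0_63_106__139_42_124 : Ent 4 := ⟨[a0, a63, a106], [a139, a42, a128], (M a48 (F (T t585 (L l28 (T t579 (L l192 (L l220 (L l331 (T t6480 (L l54 (L l154 (L l160 (T t6481 N)))))))))))))⟩
def e0_63_106__139_42_125 : Ent 4 := ⟨[a0, a63, a106], [a139, a42, a129], (M a48 (F (T t585 (L l217 (T t551 (L l28 (T t579 N)))))))⟩
def e0_63_106__139_42_126 : Ent 4 := ⟨[a0, a63, a106], [a139, a42, a130], (M a48 (F (T t309 (T t551 (L l28 (T t579 N))))))⟩
def e0_63_106__139_42_127 : Ent 4 := ⟨[a0, a63, a106], [a139, a42, a131], (M a48 (L l159 (F (T t309 (L l197 (T t551 (L l28 (T t579 (K a135 (M a143 (F (T t3405 (L l197 (T t551 (L l197 (T t7346 N))))))) (K a143 (M a135 (F (T t3405 (L l28 (T t6462 (L l28 (T t579 N))))))) N))))))))))⟩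
def e0_63_106__139_42_128 : Ent 4 := ⟨[a0, a63, a106], [a139, a42, a132], (M a48 (F (T t585 (L l202 (T t551 (L l28 (T t579 N)))))))⟩
def e0_63_106__139_42_129 : Ent 4 := ⟨[a0, a63, a106], [a139, a42, a133], (M a48 (F (T t585 (L l199 (T t551 (L l28 (T t579 N)))))))⟩
def e0_63_106__139_42_130 : Ent 4 := ⟨[a0, a63, a106], [a139, a42, a134], (M a48 (F (T t309 (T t551 (L l28 (T t579 N))))))⟩
def e0_63_106__139_42_131 : Ent 4 := ⟨[a0, a63, a106], [a139, a42, a135], (M a48 (L l159 (F (T t309 (T t551 (L l28 (T t579 (K a131 (M a143 (F (T t3405 (L l197 (T t551 (L l197 (T t7346 N))))))) (K a143 (M a131 (F (T t3405 (L l28 (T t6462 (L l28 (T t579 N))))))) N)))))))))⟩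
def e0_63_106__139_42_132 : Ent 4 := ⟨[a0, a63, a106], [a139, a42, a136], (M a48 (L l154 (F (T t309 (T t551 (L l28 (T t579 (K a137 (M a138 (F (T t3405 (L l329 (T t6697 (T t551 N)))))) (K a138 (M a137 (F (T t2348 (L l28 (L l318 (T t579 (T t551 N))))))) N)))))))))⟩
def e0_63_106__139_42_133 : Ent 4 := ⟨[a0, a63, a106], [a139, a42, a137], (M a48 (L l154 (F (T t309 (T t551 (L l28 (T t579 (K a136 (M a138 (F (T t3405 (L l329 (T t6697 (T t551 N)))))) (K a138 (M a136 (F (T t2348 (L l28 (T t7453 N))))) N)))))))))⟩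
def e0_63_106__139_42_134 : Ent 4 := ⟨[a0, a63, a106], [a139, a42, a138], (M a48 (L l154 (F (T t2348 (L l28 (L l318 (T t579 (T t551 (K a136 (M a137 (F (T t2348 (L l28 (L l318 (T t579 (T t551 N))))))) (K a137 (M a136 (F (T t2348 (L l28 (T t7453 N))))) N))))))))))⟩
def e0_63_106__139_42_135 : Ent 4 := ⟨[a0, a63, a106], [a139, a42, a140], (M a48 (F (T t309 (L l222 (T t551 (L l28 (T t579 N)))))))⟩
def e0_63_106__139_42_136 : Ent 4 := ⟨[a0, a63, a106], [a139, a42, a141], (M a48 (F (T t309 (T t551 (L l28 (T t579 N))))))⟩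
def e0_63_106__139_42_137 : Ent 4 := ⟨[a0, a63, a106], [a139, a42, a142], (M a48 (F (T t309 (T t551 (L l28 (T t579 N))))))⟩
def e0_63_106__139_42_138 : Ent 4 := ⟨[a0, a63, a106], [a139, a42, a143], (M a48 (L l159 (F (T t309 (L l28 (T t6462 (L l28 (T t579 (K a131 (M a135 (F (T t3405 (L l28 (T t6462 (L l28 (T t579 N))))))) (K a135 (M a131 (F (T t3405 (L l28 (T t6462 (L l28 (T t579 N))))))) N))))))))))⟩
def e0_63_106__139_42_139 : Ent 4 := ⟨[a0, a63, a106], [a139, a42, a144], (M a12 (F (T t2414 (L l56 (T t2415 (L l170 (T t2305 N)))))))⟩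
def e0_63_106__139_42_140 : Ent 4 := ⟨[a0, a63, a106], [a139, a42, a145], (M a48 (F (T t585 (L l167 (T t551 (L l28 (T t579 N)))))))⟩
def e0_63_106__139_42_141 : Ent 4 := ⟨[a0, a63, a106], [a139, a42, a146], (M a48 (F (T t3405 (L l197 (T t551 (L l28 (T t579 N)))))))⟩
def e0_63_106__139_42_142 : Ent 4 := ⟨[a0, a63, a106], [a139, a42, a147], (M a48 (F (T t3405 (T t551 (L l28 (T t579 N))))))⟩
def e0_63_106__139_42_143 : Ent 4 := ⟨[a0, a63, a106], [a139, a42, a148], (M a48 (F (T t585 (L l163 (T t551 (L l28 (T t579 N)))))))⟩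
def e0_63_106__139_42_144 : Ent 4 := ⟨[a0, a63, a106], [a139, a42, a149], (M a240 (F (L l199 (T t4781 (L l199 (L l347 (T t6484 (L l28 (L l199 (L l375 (T t6483 (L l28 (L l199 (L l220 (L l375 (T t6485 (K a133 (M a165 (F (T t6486 (L l28 (L l160 (L l220 (L l311 (L l375 (T t6487 (L l160 (L l220 (T t6488 N)))))))))))) (K a165 (M a90 (L l199 (F (T t4788 (L l180 (T t6489 (K a133 (Fr a181 a122 l447 (V t6489)) (K a181 (M a133 (F (L l180 (T t6489 (L l159 (L l227 (T t6746 (L l455 (T t6490 N))))))))) N)))))))) (K a181 (M a165 (F (T t6492 (T t6493 (L l28 (L l220 (L l375 (T t6487 (L l220 (T t6488 N)))))))))) (K a74 (M a48 (F (T t6494 (L l199 (L l491 (T t781 (L l28 (L l84 (L l318 (L l491 (T t579 N))))))))))) (K a90 (M a48 (L l375 (F (T t3318 (L l199 (L l462 (L l491 (T t781 (L l28 (L l491 (T t579 (K a208 (M a31 (F (L l28 (L l347 (T t6495 (L l151 (L l220 (T t6496 N)))))))) (K a31 (M a208 (F (T t6497 (L l151 (L l220 (T t6496 N))))))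 N))))))))))))) (K a122 (M a48 (F (T t3318 (L l114 (L l159 (L l491 (T t6471 (L l28 (L l491 (T t579 N)))))))))) N))))))))))))))))))))))⟩
def e0_63_106__139_42_145 : Ent 4 := ⟨[a0, a63, a106], [a139, a42, a150], (M a48 (F (T t309 (L l163 (T t551 (L l28 (T t579 N)))))))⟩
def e0_63_106__139_42_146 : Ent 4 := ⟨[a0, a63, a106], [a139, a42, a151], (M a48 (F (T t309 (L l163 (T t551 (L l28 (T t579 N)))))))⟩
def e0_63_106__139_42_147 : Ent 4 := ⟨[a0, a63, a106], [a139, a42, a152], (M a48 (F (T t3405 (L l222 (T t551 (L l28 (T t579 N)))))))⟩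
def e0_63_106__139_42_148 : Ent 4 := ⟨[a0, a63, a106], [a139, a42, a153], (M a48 (F (T t309 (L l167 (T t551 (L l28 (T t579 N)))))))⟩
def e0_63_106__139_42_149 : Ent 4 := ⟨[a0, a63, a106], [a139, a42, a154], (M a240 (L l209 (F (T t4779 (L l170 (L l368 (L l512 (T t817 (T t4781 (K a184 (M a169 (F (T t4779 (L l66 (T t6997 N))))) (K a169 (M a184 (F (T t4786 (L l170 (L l217 (L l368 (L l512 (T t817 (T t4781 N))))))))) N)))))))))))⟩
def e0_63_106__139_42_150 : Ent 4 := ⟨[a0, a63, a106], [a139, a42, a155], (M a48 (L l207 (F (T t309 (T t551 (L l28 (L l367 (T t579 (K a171 (M a187 (F (T t3405 (T t551 (L l28 (L l367 (T t579 N))))))) (K a187 (M a171 (F (T t3405 (T t551 (L l28 (L l367 (T t579 N))))))) N))))))))))⟩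
def e0_63_106__139_42_151 : Ent 4 := ⟨[a0, a63, a106], [a139, a42, a156], (M a48 (F (T t3405 (T t551 (L l28 (T t579 N))))))⟩
def e0_63_106__139_42_152 : Ent 4 := ⟨[a0, a63, a106], [a139, a42, a157], (M a48 (F (T t309 (L l167 (T t551 (L l28 (T t579 N)))))))⟩
def e0_63_106__139_42_153 : Ent 4 := ⟨[a0, a63, a106], [a139, a42, a158], (M a48 (F (T t309 (T t551 (L l28 (L l362 (T t579 N)))))))⟩
def e0_63_106__139_42_154 : Ent 4 := ⟨[a0, a63, a106], [a139, a42, a159], (M a240 (F (T t4779 (L l170 (T t817 (L l361 (T t4781 N)))))))⟩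
def e0_63_106__139_42_155 : Ent 4 := ⟨[a0, a63, a106], [a139, a42, a160], (M a12 (F (T t2304 (T t2305 (L l56 (T t2415 N))))))⟩
def e0_63_106__139_42_156 : Ent 4 := ⟨[a0, a63, a106], [a139, a42, a161], (M a48 (F (T t309 (L l197 (L l453 (T t551 (L l28 (T t579 N))))))))⟩
def e0_63_106__139_42_157 : Ent 4 := ⟨[a0, a63, a106], [a139, a42, a162], (M a48 (F (T t309 (T t551 (L l28 (L l380 (T t579 N)))))))⟩
def e0_63_106__139_42_158 : Ent 4 := ⟨[a0, a63, a106], [a139, a42, a163], (M a48 (F (T t309 (T t551 (L l28 (T t579 N))))))⟩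
def e0_63_106__139_42_159 : Ent 4 := ⟨[a0, a63, a106], [a139, a42, a164], (M a48 (F (T t309 (L l222 (L l478 (T t551 (L l28 (T t579 N))))))))⟩
def e0_63_106__139_42_160 : Ent 4 := ⟨[a0, a63, a106], [a139, a42, a165], (M a48 (F (T t309 (L l28 (L l199 (L l483 (T t6462 (L l28 (T t579 N)))))))))⟩
def e0_63_106__139_42_161 : Ent 4 := ⟨[a0, a63, a106], [a139, a42, a166], (M a48 (F (T t309 (L l202 (T t551 (L l28 (T t579 N)))))))⟩
def e0_63_106__139_42_162 : Ent 4 := ⟨[a0, a63, a106], [a139, a42, a167], (M a48 (F (T t309 (T t551 (L l28 (T t579 N))))))⟩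
def e0_63_106__139_42_163 : Ent 4 := ⟨[a0, a63, a106], [a139, a42, a168], (M a48 (F (T t309 (T t551 (L l28 (L l400 (T t579 N)))))))⟩
def e0_63_106__139_42_164 : Ent 4 := ⟨[a0, a63, a106], [a139, a42, a169], (M a48 (L l209 (F (T t309 (L l28 (T t579 (L l217 (T t551 (K a184 (M a154 (F (T t6900 (L l401 (T t6955 N))))) (K a154 (M a184 (F (L l154 (T t7469 (L l170 (L l217 (L l227 (T t551 (L l170 (L l174 (L l217 (T t7470 N)))))))))))) N))))))))))⟩
def e0_63_106__139_42_165 : Ent 4 := ⟨[a0, a63, a106], [a139, a42, a170], (M a48 (F (T t309 (L l220 (T t551 (L l28 (L l206 (L l220 (L l404 (T t552 (L l28 (L l206 (L l331 (L l404 (T t553 N)))))))))))))))⟩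
def e0_63_106__139_42_166 : Ent 4 := ⟨[a0, a63, a106], [a139, a42, a171], (M a48 (L l207 (F (T t309 (T t551 (L l28 (T t579 (K a155 (M a187 (F (T t3405 (T t551 (L l28 (L l367 (T t579 N))))))) (K a187 (M a155 (F (T t3405 (T t551 (L l28 (T t579 N)))))) N)))))))))⟩
def e0_63_106__139_42_167 : Ent 4 := ⟨[a0, a63, a106], [a139, a42, a172], (M a48 (F (T t309 (T t551 (L l28 (T t579 N))))))⟩
def e0_63_106__139_42_168 : Ent 4 := ⟨[a0, a63, a106], [a139, a42, a173], (M a48 (F (T t309 (T t551 (L l28 (T t579 N))))))⟩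
def e0_63_106__139_42_169 : Ent 4 := ⟨[a0, a63, a106], [a139, a42, a174], (M a48 (F (T t309 (T t551 (L l28 (T t579 N))))))⟩
def e0_63_106__139_42_170 : Ent 4 := ⟨[a0, a63, a106], [a139, a42, a175], (M a48 (F (T t309 (T t551 (L l28 (T t579 N))))))⟩
def e0_63_106__139_42_171 : Ent 4 := ⟨[a0, a63, a106], [a139, a42, a176], (M a240 (F (T t4786 (L l192 (T t817 (L l190 (L l192 (T t4781 N))))))))⟩
def e0_63_106__139_42_172 : Ent 4 := ⟨[a0, a63, a106], [a139, a42, a177], (M a48 (F (T t309 (L l182 (L l417 (T t551 (L l28 (T t579 N))))))))⟩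
def e0_63_106__139_42_173 : Ent 4 := ⟨[a0, a63, a106], [a139, a42, a178], (M a48 (F (T t309 (L l182 (T t551 (L l28 (T t579 N)))))))⟩
def e0_63_106__139_42_174 : Ent 4 := ⟨[a0, a63, a106], [a139, a42, a179], (M a48 (F (T t309 (L l182 (T t551 (L l28 (T t579 N)))))))⟩
def e0_63_106__139_42_175 : Ent 4 := ⟨[a0, a63, a106], [a139, a42, a180], (M a48 (F (T t309 (L l186 (L l442 (T t551 (L l28 (T t579 N))))))))⟩
def e0_63_106__139_42_176 : Ent 4 := ⟨[a0, a63, a106], [a139, a42, a181], (M a48 (F (L l419 (T t309 (L l190 (L l199 (T t551 (L l28 (L l419 (T t579 N))))))))))⟩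
def e0_63_106__139_42_177 : Ent 4 := ⟨[a0, a63, a106], [a139, a42, a182], (M a48 (F (T t309 (T t551 (L l28 (T t579 N))))))⟩
def e0_63_106__139_42_178 : Ent 4 := ⟨[a0, a63, a106], [a139, a42, a183], (M a48 (F (T t309 (L l202 (T t551 (L l28 (T t579 N)))))))⟩
def e0_63_106__139_42_179 : Ent 4 := ⟨[a0, a63, a106], [a139, a42, a184], (M a48 (L l209 (F (T t309 (L l28 (T t579 (L l186 (T t551 (K a169 (M a154 (F (T t6900 (L l401 (T t6955 N))))) (K a154 (M a169 (F (T t7471 (L l170 (L l186 (L l227 (T t551 (L l66 (T t6997 N))))))))) N))))))))))⟩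
def e0_63_106__139_42_180 : Ent 4 := ⟨[a0, a63, a106], [a139, a42, a185], (M a48 (F (T t309 (T t551 (L l28 (T t579 N))))))⟩
def e0_63_106__139_42_181 : Ent 4 := ⟨[a0, a63, a106], [a139, a42, a186], (M a48 (F (T t309 (L l190 (T t551 (L l28 (T t579 N)))))))⟩
def e0_63_106__139_42_182 : Ent 4 := ⟨[a0, a63, a106], [a139, a42, a187], (M a48 (L l207 (F (T t309 (T t551 (L l28 (T t579 (K a155 (M a171 (F (T t3405 (T t551 (L l28 (L l367 (T t579 N))))))) (K a171 (M a155 (F (T t3405 (T t551 (L l28 (T t579 N)))))) N)))))))))⟩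
def e0_63_106__139_42_183 : Ent 4 := ⟨[a0, a63, a106], [a139, a42, a188], (M a48 (F (T t309 (L l186 (T t551 (L l28 (T t579 N)))))))⟩
def e0_63_106__139_42_184 : Ent 4 := ⟨[a0, a63, a106], [a139, a42, a189], (M a48 (F (T t309 (L l217 (T t551 (L l28 (T t579 N)))))))⟩
def e0_63_106__139_42_185 : Ent 4 := ⟨[a0, a63, a106], [a139, a42, a190], (M a48 (F (T t309 (T t551 (L l28 (T t579 N))))))⟩
def e0_63_106__139_42_186 : Ent 4 := ⟨[a0, a63, a106], [a139, a42, a191], (M a48 (F (T t309 (L l190 (L l220 (T t551 (L l28 (T t6498 (L l28 (L l331 (T t6499 N)))))))))))⟩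
def e0_63_106__139_42_187 : Ent 4 := ⟨[a0, a63, a106], [a139, a42, a192], (M a240 (F (L l339 (T t4781 (L l236 (L l339 (T t6500 (L l296 (L l339 (T t6501 (L l28 (L l339 (T t6502 (L l339 (T t6503 (K a133 (M a90 (L l339 (F (T t4788 (T t6504 (K a74 (Fr a15 a165 l483 (V t6505)) (K a15 (Fr a74 a122 l130 (V t6506)) N))))))) (K a85 (M a12 (F (L l292 (T t2745 (L l272 (L l339 (T t6595 N))))))) (K a181 (M a12 (F (T t3358 (L l56 (L l272 (T t2415 (L l272 (T t6512 N)))))))) (K a74 (M a165 (L l339 (F (T t6492 (L l296 (T t6513 (L l54 (L l84 (L l318 (T t6514 (K a133 (Fr a15 a90 l483 (V t6515)) (K a15 (M a133 (F (T t6516 (L l28 (L l236 (L l318 (L l484 (T t6517 N)))))))) N)))))))))))) (K a90 (M a252 (F (L l334 (T t6518 (L l148 (L l489 (T t6519 (L l309 (T t6675 N))))))))) (K a122 (M a12 (F (T t2747 (L l56 (L l272 (T t2415 (L l272 (T t6512 N)))))))) (K a15 (M a248 (L l339 (F (T t6520 (L l22 (T t6521 (K a133 (M a74 (F (T t6522 (L l3 (L l56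 (L l334 (T t6523 N))))))) (K a74 (M a133 (F (T t3821 (T t6520 (L l469 (L l484 (T t6524 N))))))) N)))))))) N))))))))))))))))))))))⟩
def e0_63_106__139_42_188 : Ent 4 := ⟨[a0, a63, a106], [a139, a42, a193], (M a48 (F (T t585 (L l515 (T t551 (L l28 (T t579 N)))))))⟩
def e0_63_106__139_42_189 : Ent 4 := ⟨[a0, a63, a106], [a139, a42, a194], (M a48 (F (T t2348 (L l28 (L l234 (T t579 (T t551 N)))))))⟩
def e0_63_106__139_42_190 : Ent 4 := ⟨[a0, a63, a106], [a139, a42, a195], (M a48 (F (T t585 (L l273 (T t551 (L l28 (T t579 N)))))))⟩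
def e0_63_106__139_42_191 : Ent 4 := ⟨[a0, a63, a106], [a139, a42, a196], (M a48 (F (T t585 (L l495 (T t551 (L l28 (T t579 N)))))))⟩
def e0_63_106__139_42_192 : Ent 4 := ⟨[a0, a63, a106], [a139, a42, a197], (M a240 (F (L l236 (T t4779 (L l491 (T t817 (T t4781 N)))))))⟩
def e0_63_106__139_42_193 : Ent 4 := ⟨[a0, a63, a106], [a139, a42, a198], (M a48 (F (T t2348 (L l28 (L l234 (T t579 (T t551 N)))))))⟩
def e0_63_106__139_42_194 : Ent 4 := ⟨[a0, a63, a106], [a139, a42, a199], (M a48 (F (T t309 (T t551 (L l28 (T t579 N))))))⟩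
def e0_63_106__139_42_195 : Ent 4 := ⟨[a0, a63, a106], [a139, a42, a200], (M a48 (F (T t2348 (L l28 (L l230 (T t579 (T t551 N)))))))⟩
def e0_63_106__139_42_196 : Ent 4 := ⟨[a0, a63, a106], [a139, a42, a201], (M a48 (F (T t2348 (L l28 (L l230 (T t579 (T t551 N)))))))⟩
def e0_63_106__139_42_197 : Ent 4 := ⟨[a0, a63, a106], [a139, a42, a202], (M a240 (F (L l236 (T t4786 (T t817 (L l318 (T t4781 N)))))))⟩
def e0_63_106__139_42_198 : Ent 4 := ⟨[a0, a63, a106], [a139, a42, a203], (M a48 (L l319 (F (T t2348 (L l28 (L l230 (T t579 (T t551 (K a11 (M a75 (F (T t2348 (L l28 (L l230 (T t579 (T t551 N))))))) (K a75 (M a11 (F (T t2348 (L l28 (L l230 (T t579 (T t551 N))))))) N))))))))))⟩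
def e0_63_106__139_42_199 : Ent 4 := ⟨[a0, a63, a106], [a139, a42, a204], (M a48 (F (T t585 (L l298 (T t551 (L l28 (T t579 N)))))))⟩
def e0_63_106__139_42_200 : Ent 4 := ⟨[a0, a63, a106], [a139, a42, a205], (M a48 (F (T t309 (T t551 (L l28 (T t579 N))))))⟩
def e0_63_106__139_42_201 : Ent 4 := ⟨[a0, a63, a106], [a139, a42, a206], (M a48 (F (T t2348 (L l28 (L l234 (T t579 (T t551 N)))))))⟩
def e0_63_106__139_42_202 : Ent 4 := ⟨[a0, a63, a106], [a139, a42, a207], (M a3 (F (T t7472 (L l159 (L l235 (T t3500 (L l66 (T t809 N))))))))⟩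
def e0_63_106__139_42_203 : Ent 4 := ⟨[a0, a63, a106], [a139, a42, a208], (M a12 (F (T t2419 (L l375 (T t2305 (L l56 (T t2415 N)))))))⟩
def e0_63_106__139_42_204 : Ent 4 := ⟨[a0, a63, a106], [a139, a42, a209], (M a48 (F (T t585 (L l371 (T t551 (L l28 (T t579 N)))))))⟩
def e0_63_106__139_42_205 : Ent 4 := ⟨[a0, a63, a106], [a139, a42, a210], (M a48 (F (T t309 (L l273 (T t551 (L l28 (T t579 N)))))))⟩
def e0_63_106__139_42_206 : Ent 4 := ⟨[a0, a63, a106], [a139, a42, a211], (M a48 (F (T t309 (T t551 (L l28 (L l245 (T t579 N)))))))⟩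
def e0_63_106__139_42_207 : Ent 4 := ⟨[a0, a63, a106], [a139, a42, a212], (M a48 (F (T t585 (L l351 (T t551 (L l28 (T t579 N)))))))⟩
def e0_63_106__139_42_208 : Ent 4 := ⟨[a0, a63, a106], [a139, a42, a213], (M a48 (F (T t585 (L l347 (T t551 (L l28 (L l246 (T t579 N))))))))⟩
def e0_63_106__139_42_209 : Ent 4 := ⟨[a0, a63, a106], [a139, a42, a214], (M a48 (F (T t309 (T t551 (L l28 (T t579 N))))))⟩
def e0_63_106__139_42_210 : Ent 4 := ⟨[a0, a63, a106], [a139, a42, a215], (M a48 (F (T t309 (T t551 (L l28 (L l245 (T t579 N)))))))⟩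
def e0_63_106__139_42_211 : Ent 4 := ⟨[a0, a63, a106], [a139, a42, a216], (M a48 (F (T t309 (L l298 (T t551 (L l28 (T t579 N)))))))⟩
def e0_63_106__139_42_212 : Ent 4 := ⟨[a0, a63, a106], [a139, a42, a217], (M a48 (F (T t309 (T t551 (L l28 (T t579 N))))))⟩
def e0_63_106__139_42_213 : Ent 4 := ⟨[a0, a63, a106], [a139, a42, a218], (M a48 (F (T t2348 (L l28 (L l246 (L l282 (T t579 (L l303 (T t551 N)))))))))⟩
def e0_63_106__139_42_214 : Ent 4 := ⟨[a0, a63, a106], [a139, a42, a219], (M a48 (F (T t309 (T t551 (L l28 (L l245 (T t579 N)))))))⟩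
def e0_63_106__139_42_215 : Ent 4 := ⟨[a0, a63, a106], [a139, a42, a220], (M a48 (F (T t309 (T t551 (L l28 (L l241 (T t579 N)))))))⟩
def e0_63_106__139_42_216 : Ent 4 := ⟨[a0, a63, a106], [a139, a42, a221], (M a48 (F (T t309 (T t551 (L l28 (L l241 (T t579 N)))))))⟩
def e0_63_106__139_42_217 : Ent 4 := ⟨[a0, a63, a106], [a139, a42, a222], (M a48 (F (T t309 (T t551 (L l28 (L l241 (T t579 N)))))))⟩
def e0_63_106__139_42_218 : Ent 4 := ⟨[a0, a63, a106], [a139, a42, a223], (M a240 (F (T t4786 (L l368 (T t817 (L l361 (T t4781 N)))))))⟩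
def e0_63_106__139_42_219 : Ent 4 := ⟨[a0, a63, a106], [a139, a42, a224], (M a48 (F (T t585 (L l268 (L l376 (T t551 (L l28 (L l376 (T t579 N)))))))))⟩
def e0_63_106__139_42_220 : Ent 4 := ⟨[a0, a63, a106], [a139, a42, a225], (M a48 (F (T t309 (L l273 (T t551 (L l28 (T t579 N)))))))⟩
def e0_63_106__139_42_221 : Ent 4 := ⟨[a0, a63, a106], [a139, a42, a226], (M a48 (F (T t585 (T t551 (L l28 (T t579 N))))))⟩
def e0_63_106__139_42_222 : Ent 4 := ⟨[a0, a63, a106], [a139, a42, a227], (M a48 (F (T t309 (T t551 (L l28 (L l380 (T t579 N)))))))⟩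
def e0_63_106__139_42_223 : Ent 4 := ⟨[a0, a63, a106], [a139, a42, a228], (M a48 (F (T t309 (L l298 (T t551 (L l28 (T t579 N)))))))⟩
def e0_63_106__139_42_224 : Ent 4 := ⟨[a0, a63, a106], [a139, a42, a229], (M a48 (F (T t309 (L l28 (T t2289 (L l28 (T t579 N)))))))⟩
def e0_63_106__139_42_225 : Ent 4 := ⟨[a0, a63, a106], [a139, a42, a230], (M a48 (F (T t309 (T t551 (L l28 (T t579 N))))))⟩
def e0_63_106__139_42_226 : Ent 4 := ⟨[a0, a63, a106], [a139, a42, a231], (M a48 (F (T t309 (T t551 (L l28 (T t579 N))))))⟩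
def e0_63_106__139_42_227 : Ent 4 := ⟨[a0, a63, a106], [a139, a42, a232], (M a48 (F (T t585 (T t551 (L l28 (T t579 N))))))⟩
def e0_63_106__139_42_228 : Ent 4 := ⟨[a0, a63, a106], [a139, a42, a233], (M a48 (F (T t309 (T t551 (L l28 (T t579 N))))))⟩
def e0_63_106__139_42_229 : Ent 4 := ⟨[a0, a63, a106], [a139, a42, a234], (M a48 (F (T t2348 (L l28 (L l282 (T t579 (T t551 N)))))))⟩
def e0_63_106__139_42_230 : Ent 4 := ⟨[a0, a63, a106], [a139, a42, a235], (M a48 (F (T t309 (T t551 (L l28 (T t579 N))))))⟩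
def e0_63_106__139_42_231 : Ent 4 := ⟨[a0, a63, a106], [a139, a42, a236], (M a48 (F (T t309 (T t551 (L l28 (L l400 (T t579 N)))))))⟩
def e0_63_106__139_42_232 : Ent 4 := ⟨[a0, a63, a106], [a139, a42, a237], (M a48 (F (T t309 (T t551 (L l28 (T t579 N))))))⟩
def e0_63_106__139_42_233 : Ent 4 := ⟨[a0, a63, a106], [a139, a42, a238], (M a48 (F (T t309 (T t551 (L l28 (T t579 N))))))⟩
def e0_63_106__139_42_234 : Ent 4 := ⟨[a0, a63, a106], [a139, a42, a239], (M a48 (F (T t309 (T t551 (L l28 (L l289 (L l404 (T t579 N))))))))⟩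
def e0_63_106__139_42_235 : Ent 4 := ⟨[a0, a63, a106], [a139, a42, a240], (M a12 (F (T t2419 (L l298 (T t2305 (L l56 (T t2415 N)))))))⟩
def e0_63_106__139_42_236 : Ent 4 := ⟨[a0, a63, a106], [a139, a42, a241], (M a48 (F (T t309 (L l258 (T t551 (L l28 (T t579 N)))))))⟩
def e0_63_106__139_42_237 : Ent 4 := ⟨[a0, a63, a106], [a139, a42, a242], (M a48 (F (T t309 (L l258 (T t551 (L l28 (T t579 N)))))))⟩
def e0_63_106__139_42_238 : Ent 4 := ⟨[a0, a63, a106], [a139, a42, a243], (M a48 (F (T t585 (L l258 (T t551 (L l28 (T t579 N)))))))⟩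
def e0_63_106__139_42_239 : Ent 4 := ⟨[a0, a63, a106], [a139, a42, a244], (M a48 (F (T t309 (L l262 (T t551 (L l28 (T t579 N)))))))⟩
def e0_63_106__139_42_240 : Ent 4 := ⟨[a0, a63, a106], [a139, a42, a245], (M a48 (F (L l419 (T t309 (L l266 (T t551 (L l28 (L l419 (T t579 N)))))))))⟩
def e0_63_106__139_42_241 : Ent 4 := ⟨[a0, a63, a106], [a139, a42, a246], (M a48 (F (T t309 (T t551 (L l28 (T t579 N))))))⟩
def e0_63_106__139_42_242 : Ent 4 := ⟨[a0, a63, a106], [a139, a42, a247], (M a48 (F (T t309 (T t551 (L l28 (T t579 N))))))⟩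
def e0_63_106__139_42_243 : Ent 4 := ⟨[a0, a63, a106], [a139, a42, a248], (M a48 (F (T t309 (L l262 (T t551 (L l28 (T t579 N)))))))⟩
def e0_63_106__139_42_244 : Ent 4 := ⟨[a0, a63, a106], [a139, a42, a249], (M a48 (F (T t309 (T t551 (L l28 (T t579 N))))))⟩
def e0_63_106__139_42_245 : Ent 4 := ⟨[a0, a63, a106], [a139, a42, a250], (M a48 (F (T t2348 (L l28 (L l282 (T t579 (L l266 (T t551 N))))))))⟩
def e0_63_106__139_42_246 : Ent 4 := ⟨[a0, a63, a106], [a139, a42, a251], (M a48 (F (T t309 (T t551 (L l28 (T t579 N))))))⟩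
def e0_63_106__139_42_247 : Ent 4 := ⟨[a0, a63, a106], [a139, a42, a252], (M a48 (F (T t585 (L l262 (T t551 (L l28 (T t579 N)))))))⟩
def e0_63_106__139_42_248 : Ent 4 := ⟨[a0, a63, a106], [a139, a42, a253], (M a48 (F (T t309 (T t551 (L l28 (T t579 N))))))⟩
def e0_63_106__139_42_249 : Ent 4 := ⟨[a0, a63, a106], [a139, a42, a254], (M a48 (F (T t309 (T t551 (L l28 (T t579 N))))))⟩
def e0_63_106__139_42_250 : Ent 4 := ⟨[a0, a63, a106], [a139, a42, a255], (M a48 (F (T t585 (L l266 (T t551 (L l28 (L l469 (T t6526 (L l28 (L l289 (T t6527 N)))))))))))⟩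
def b0_63_106__139_42 : Blk 4 := ⟨[0, 63, 106], [139, 42], [1, 2, 3, 4, 5, 6, 7, 8, 9, 10, 11, 12, 13, 14, 15, 16, 17, 18, 19, 20, 21, 22, 23, 24, 25, 26, 27, 28, 29, 30, 31, 32, 33, 34, 35, 36, 37, 38, 39, 40, 41, 43, 44, 45, 46, 47, 48, 49, 50, 51, 52, 53, 54, 55, 56, 57, 58, 59, 60, 61, 62, 64, 65, 66, 67, 68, 69, 70, 71, 72, 73, 74, 75, 76, 77, 78, 79, 80, 81, 82, 83, 84, 85, 86, 87, 88, 89, 90, 91, 92, 93, 94, 95, 96, 97, 98, 99, 100, 101, 102, 103, 104, 105, 107, 108, 109, 110, 111, 112, 113, 114, 115, 116, 117, 118, 119, 120, 121, 122, 123, 124, 125, 126, 127, 128, 129, 130, 131, 132, 133, 134, 135, 136, 137, 138, 140, 141, 142, 143, 144, 145, 146, 147, 148, 149, 150, 151, 152, 153, 154, 155, 156, 157, 158, 159, 160, 161, 162, 163, 164, 165, 166, 167, 168, 169, 170, 171, 172, 173, 174, 175, 176, 177, 178, 179, 180, 181, 182, 183, 184, 185, 186, 187, 188, 189, 190, 191, 192, 193, 194, 195, 196, 197, 198, 199,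 200, 201, 202, 203, 204, 205, 206, 207, 208, 209, 210, 211, 212, 213, 214, 215, 216, 217, 218, 219, 220, 221, 222, 223, 224, 225, 226, 227, 228, 229, 230, 231, 232, 233, 234, 235, 236, 237, 238, 239, 240, 241, 242, 243, 244, 245, 246, 247, 248, 249, 250, 251, 252, 253, 254, 255], [e0_63_106__139_42_0, e0_63_106__139_42_1, e0_63_106__139_42_2, e0_63_106__139_42_3, e0_63_106__139_42_4, e0_63_106__139_42_5, e0_63_106__139_42_6, e0_63_106__139_42_7, e0_63_106__139_42_8, e0_63_106__139_42_9, e0_63_106__139_42_10, e0_63_106__139_42_11, e0_63_106__139_42_12, e0_63_106__139_42_13, e0_63_106__139_42_14, e0_63_106__139_42_15, e0_63_106__139_42_16, e0_63_106__139_42_17, e0_63_106__139_42_18, e0_63_106__139_42_19, e0_63_106__139_42_20, e0_63_106__139_42_21, e0_63_106__139_42_22, e0_63_106__139_42_23, e0_63_106__139_42_24, e0_63_106__139_42_25, e0_63_106__139_42_26, e0_63_106__139_42_27, e0_63_106__139_42_28, e0_63_106__139_42_29,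 e0_63_106__139_42_30, e0_63_106__139_42_31, e0_63_106__139_42_32, e0_63_106__139_42_33, e0_63_106__139_42_34, e0_63_106__139_42_35, e0_63_106__139_42_36, e0_63_106__139_42_37, e0_63_106__139_42_38, e0_63_106__139_42_39, e0_63_106__139_42_40, e0_63_106__139_42_41, e0_63_106__139_42_42, e0_63_106__139_42_43, e0_63_106__139_42_44, e0_63_106__139_42_45, e0_63_106__139_42_46, e0_63_106__139_42_47, e0_63_106__139_42_48, e0_63_106__139_42_49, e0_63_106__139_42_50, e0_63_106__139_42_51, e0_63_106__139_42_52, e0_63_106__139_42_53, e0_63_106__139_42_54, e0_63_106__139_42_55, e0_63_106__139_42_56, e0_63_106__139_42_57, e0_63_106__139_42_58, e0_63_106__139_42_59, e0_63_106__139_42_60, e0_63_106__139_42_61, e0_63_106__139_42_62, e0_63_106__139_42_63, e0_63_106__139_42_64, e0_63_106__139_42_65, e0_63_106__139_42_66, e0_63_106__139_42_67, e0_63_106__139_42_68, e0_63_106__139_42_69, e0_63_106__139_42_70, e0_63_106__139_42_71, e0_63_106__139_42_72,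 e0_63_106__139_42_73, e0_63_106__139_42_74, e0_63_106__139_42_75, e0_63_106__139_42_76, e0_63_106__139_42_77, e0_63_106__139_42_78, e0_63_106__139_42_79, e0_63_106__139_42_80, e0_63_106__139_42_81, e0_63_106__139_42_82, e0_63_106__139_42_83, e0_63_106__139_42_84, e0_63_106__139_42_85, e0_63_106__139_42_86, e0_63_106__139_42_87, e0_63_106__139_42_88, e0_63_106__139_42_89, e0_63_106__139_42_90, e0_63_106__139_42_91, e0_63_106__139_42_92, e0_63_106__139_42_93, e0_63_106__139_42_94, e0_63_106__139_42_95, e0_63_106__139_42_96, e0_63_106__139_42_97, e0_63_106__139_42_98, e0_63_106__139_42_99, e0_63_106__139_42_100, e0_63_106__139_42_101, e0_63_106__139_42_102, e0_63_106__139_42_103, e0_63_106__139_42_104, e0_63_106__139_42_105, e0_63_106__139_42_106, e0_63_106__139_42_107, e0_63_106__139_42_108, e0_63_106__139_42_109, e0_63_106__139_42_110, e0_63_106__139_42_111, e0_63_106__139_42_112, e0_63_106__139_42_113, e0_63_106__139_42_114,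 e0_63_106__139_42_115, e0_63_106__139_42_116, e0_63_106__139_42_117, e0_63_106__139_42_118, e0_63_106__139_42_119, e0_63_106__139_42_120, e0_63_106__139_42_121, e0_63_106__139_42_122, e0_63_106__139_42_123, e0_63_106__139_42_124, e0_63_106__139_42_125, e0_63_106__139_42_126, e0_63_106__139_42_127, e0_63_106__139_42_128, e0_63_106__139_42_129, e0_63_106__139_42_130, e0_63_106__139_42_131, e0_63_106__139_42_132, e0_63_106__139_42_133, e0_63_106__139_42_134, e0_63_106__139_42_135, e0_63_106__139_42_136, e0_63_106__139_42_137, e0_63_106__139_42_138, e0_63_106__139_42_139, e0_63_106__139_42_140, e0_63_106__139_42_141, e0_63_106__139_42_142, e0_63_106__139_42_143, e0_63_106__139_42_144, e0_63_106__139_42_145, e0_63_106__139_42_146, e0_63_106__139_42_147, e0_63_106__139_42_148, e0_63_106__139_42_149, e0_63_106__139_42_150, e0_63_106__139_42_151, e0_63_106__139_42_152, e0_63_106__139_42_153, e0_63_106__139_42_154, e0_63_106__139_42_155,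 e0_63_106__139_42_156, e0_63_106__139_42_157, e0_63_106__139_42_158, e0_63_106__139_42_159, e0_63_106__139_42_160, e0_63_106__139_42_161, e0_63_106__139_42_162, e0_63_106__139_42_163, e0_63_106__139_42_164, e0_63_106__139_42_165, e0_63_106__139_42_166, e0_63_106__139_42_167, e0_63_106__139_42_168, e0_63_106__139_42_169, e0_63_106__139_42_170, e0_63_106__139_42_171, e0_63_106__139_42_172, e0_63_106__139_42_173, e0_63_106__139_42_174, e0_63_106__139_42_175, e0_63_106__139_42_176, e0_63_106__139_42_177, e0_63_106__139_42_178, e0_63_106__139_42_179, e0_63_106__139_42_180, e0_63_106__139_42_181, e0_63_106__139_42_182, e0_63_106__139_42_183, e0_63_106__139_42_184, e0_63_106__139_42_185, e0_63_106__139_42_186, e0_63_106__139_42_187, e0_63_106__139_42_188, e0_63_106__139_42_189, e0_63_106__139_42_190, e0_63_106__139_42_191, e0_63_106__139_42_192, e0_63_106__139_42_193, e0_63_106__139_42_194, e0_63_106__139_42_195, e0_63_106__139_42_196,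 e0_63_106__139_42_197, e0_63_106__139_42_198, e0_63_106__139_42_199, e0_63_106__139_42_200, e0_63_106__139_42_201, e0_63_106__139_42_202, e0_63_106__139_42_203, e0_63_106__139_42_204, e0_63_106__139_42_205, e0_63_106__139_42_206, e0_63_106__139_42_207, e0_63_106__139_42_208, e0_63_106__139_42_209, e0_63_106__139_42_210, e0_63_106__139_42_211, e0_63_106__139_42_212, e0_63_106__139_42_213, e0_63_106__139_42_214, e0_63_106__139_42_215, e0_63_106__139_42_216, e0_63_106__139_42_217, e0_63_106__139_42_218, e0_63_106__139_42_219, e0_63_106__139_42_220, e0_63_106__139_42_221, e0_63_106__139_42_222, e0_63_106__139_42_223, e0_63_106__139_42_224, e0_63_106__139_42_225, e0_63_106__139_42_226, e0_63_106__139_42_227, e0_63_106__139_42_228, e0_63_106__139_42_229, e0_63_106__139_42_230, e0_63_106__139_42_231, e0_63_106__139_42_232, e0_63_106__139_42_233, e0_63_106__139_42_234, e0_63_106__139_42_235, e0_63_106__139_42_236, e0_63_106__139_42_237,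 e0_63_106__139_42_238, e0_63_106__139_42_239, e0_63_106__139_42_240, e0_63_106__139_42_241, e0_63_106__139_42_242, e0_63_106__139_42_243, e0_63_106__139_42_244, e0_63_106__139_42_245, e0_63_106__139_42_246, e0_63_106__139_42_247, e0_63_106__139_42_248, e0_63_106__139_42_249, e0_63_106__139_42_250], by decide +kernel, by decide +kernel⟩
def e0_63_106__143_42_0 : Ent 4 := ⟨[a0, a63, a106], [a143, a42, a1], (M a48 (F (T t309 (L l28 (T t6462 (L l28 (T t579 N)))))))⟩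
def e0_63_106__143_42_1 : Ent 4 := ⟨[a0, a63, a106], [a143, a42, a2], (M a48 (L l66 (F (T t309 (L l28 (T t6462 (L l28 (T t579 (K a22 (M a62 (F (T t585 (L l22 (L l306 (T t5926 N)))))) (K a62 (M a22 (F (T t3405 (L l28 (T t6462 (L l28 (T t579 N))))))) N))))))))))⟩
def e0_63_106__143_42_2 : Ent 4 := ⟨[a0, a63, a106], [a143, a42, a3], (M a48 (F (T t585 (L l28 (L l453 (T t6462 (L l28 (T t579 N))))))))⟩
def e0_63_106__143_42_3 : Ent 4 := ⟨[a0, a63, a106], [a143, a42, a5], (M a48 (F (L l325 (T t578 (L l28 (L l47 (T t579 (L l28 (T t6462 N)))))))))⟩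
def e0_63_106__143_42_4 : Ent 4 := ⟨[a0, a63, a106], [a143, a42, a6], (M a48 (F (T t309 (L l28 (T t6462 (L l28 (T t579 N)))))))⟩
def e0_63_106__143_42_5 : Ent 4 := ⟨[a0, a63, a106], [a143, a42, a7], (M a48 (F (T t309 (L l28 (T t6462 (L l28 (T t579 N)))))))⟩
def e0_63_106__143_42_6 : Ent 4 := ⟨[a0, a63, a106], [a143, a42, a10], (M a48 (L l54 (F (T t2348 (L l28 (L l318 (T t579 (L l28 (T t6462 (K a26 (Fr a58 a53 l38 (V t6446)) (K a58 (M a26 (F (L l28 (T t4144 (L l227 (T t551 (L l28 (L l426 (T t6447 (K a32 (Fr a192 a149 l519 (Fr a15 a37 l75 (Fr a47 a31 l61 (V t6528)))) N)))))))))) N)))))))))))⟩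
def e0_63_106__143_42_7 : Ent 4 := ⟨[a0, a63, a106], [a143, a42, a11], (M a48 (F (T t309 (L l28 (T t6462 (L l28 (T t579 N)))))))⟩
def e0_63_106__143_42_8 : Ent 4 := ⟨[a0, a63, a106], [a143, a42, a15], (M a12 (L l325 (F (T t2419 (L l155 (L l327 (T t2305 (L l56 (T t2415 (K a79 (M a207 (F (T t2419 (L l79 (L l84 (L l337 (T t2144 N))))))) (K a207 (M a79 (F (T t2419 (L l155 (L l231 (L l327 (T t2305 (L l56 (T t2415 N))))))))) N)))))))))))⟩
def e0_63_106__143_42_9 : Ent 4 := ⟨[a0, a63, a106], [a143, a42, a16], (M a240 (F (L l160 (T t4786 (T t4781 (L l227 (L l340 (T t4780 N))))))))⟩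
def e0_63_106__143_42_10 : Ent 4 := ⟨[a0, a63, a106], [a143, a42, a17], (M a48 (F (T t309 (L l28 (T t6462 (L l28 (T t579 N)))))))⟩
def e0_63_106__143_42_11 : Ent 4 := ⟨[a0, a63, a106], [a143, a42, a18], (M a48 (F (T t309 (L l28 (T t6462 (L l28 (T t579 N)))))))⟩
def e0_63_106__143_42_12 : Ent 4 := ⟨[a0, a63, a106], [a143, a42, a19], (M a48 (F (T t309 (L l28 (L l345 (T t6462 (L l28 (L l367 (T t579 N)))))))))⟩
def e0_63_106__143_42_13 : Ent 4 := ⟨[a0, a63, a106], [a143, a42, a21], (M a48 (F (L l54 (T t777 (L l28 (L l347 (T t6462 (L l28 (L l47 (T t579 N))))))))))⟩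
def e0_63_106__143_42_14 : Ent 4 := ⟨[a0, a63, a106], [a143, a42, a22], (M a48 (L l66 (F (T t309 (L l28 (T t6462 (L l28 (T t579 (K a2 (M a62 (F (T t585 (L l22 (L l306 (T t5926 N)))))) (K a62 (M a2 (F (T t3405 (L l19 (L l28 (T t342 N)))))) N))))))))))⟩
def e0_63_106__143_42_15 : Ent 4 := ⟨[a0, a63, a106], [a143, a42, a23], (M a48 (F (T t309 (L l28 (L l351 (T t6462 (L l28 (T t579 N))))))))⟩
def e0_63_106__143_42_16 : Ent 4 := ⟨[a0, a63, a106], [a143, a42, a26], (M a48 (L l54 (F (T t309 (L l28 (T t579 (L l28 (T t6462 (K a10 (Fr a58 a53 l38 (V t6446)) (K a58 (M a10 (F (L l160 (L l325 (T t4033 (L l28 (T t6462 (L l18 (L l213 (L l354 (T t6449 (L l18 (L l426 (T t6450 N)))))))))))))) N))))))))))⟩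
def e0_63_106__143_42_17 : Ent 4 := ⟨[a0, a63, a106], [a143, a42, a27], (M a48 (F (T t309 (L l28 (T t6462 (L l28 (T t579 N)))))))⟩
def e0_63_106__143_42_18 : Ent 4 := ⟨[a0, a63, a106], [a143, a42, a31], (M a12 (F (L l13 (T t2304 (L l155 (L l375 (T t2305 (L l13 (L l56 (T t2415 N))))))))))⟩
def e0_63_106__143_42_19 : Ent 4 := ⟨[a0, a63, a106], [a143, a42, a32], (M a240 (L l28 (F (T t4779 (L l376 (T t4781 (L l160 (L l376 (T t6588 (K a37 (M a47 (F (T t6602 (L l160 (T t6698 (T t6604 N)))))) (K a47 (M a37 (F (L l376 (T t4781 (L l54 (L l227 (T t6699 (L l160 (L l376 (T t6588 N)))))))))) N)))))))))))⟩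
def e0_63_106__143_42_20 : Ent 4 := ⟨[a0, a63, a106], [a143, a42, a33], (M a48 (F (T t309 (L l20 (L l28 (T t6462 (L l20 (L l28 (T t579 N)))))))))⟩
def e0_63_106__143_42_21 : Ent 4 := ⟨[a0, a63, a106], [a143, a42, a34], (M a48 (L l26 (F (T t309 (L l20 (L l28 (T t6462 (L l20 (L l28 (T t579 (K a38 (M a46 (F (T t585 (L l56 (L l378 (T t4030 N)))))) (K a46 (M a38 (F (T t3405 (L l20 (L l28 (T t6462 (L l20 (L l28 (T t579 N))))))))) N))))))))))))⟩
def e0_63_106__143_42_22 : Ent 4 := ⟨[a0, a63, a106], [a143, a42, a35], (M a48 (F (T t309 (L l20 (L l28 (T t6462 (L l20 (L l28 (T t579 N)))))))))⟩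
def e0_63_106__143_42_23 : Ent 4 := ⟨[a0, a63, a106], [a143, a42, a37], (M a240 (L l28 (F (T t4779 (L l75 (T t817 (T t4781 (K a32 (M a47 (F (T t6602 (L l160 (T t6698 (T t6604 N)))))) (K a47 (M a32 (F (T t6482 (L l47 (L l325 (T t7473 N)))))) N)))))))))⟩
def e0_63_106__143_42_24 : Ent 4 := ⟨[a0, a63, a106], [a143, a42, a38], (M a48 (L l26 (F (T t309 (L l28 (T t6462 (L l28 (T t579 (K a34 (M a46 (F (T t585 (L l56 (L l378 (T t4030 N)))))) (K a46 (M a34 (F (T t309 (L l29 (L l66 (T t6453 N)))))) N))))))))))⟩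
def e0_63_106__143_42_25 : Ent 4 := ⟨[a0, a63, a106], [a143, a42, a39], (M a48 (F (T t309 (L l28 (T t6462 (L l28 (T t579 N)))))))⟩
def e0_63_106__143_42_26 : Ent 4 := ⟨[a0, a63, a106], [a143, a42, a43], (M a48 (L l22 (F (T t309 (L l28 (T t6462 (L l28 (T t579 (K a40 (M a41 (F (T t3405 (L l24 (L l28 (T t6462 (L l24 (L l28 (T t579 N))))))))) (K a41 (M a40 (F (T t309 (L l29 (L l69 (T t6452 N)))))) N))))))))))⟩
def e0_63_106__143_42_27 : Ent 4 := ⟨[a0, a63, a106], [a143, a42, a47], (M a12 (L l28 (F (T t2304 (L l155 (T t2305 (L l56 (T t2415 (K a32 (M a37 (F (T t2416 (L l56 (T t2415 (L l155 (T t2305 N))))))) (K a37 (M a32 (F (T t2304 (L l51 (L l56 (T t682 N)))))) N))))))))))⟩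
def e0_63_106__143_42_28 : Ent 4 := ⟨[a0, a63, a106], [a143, a42, a48], (M a12 (F (T t2419 (L l155 (L l508 (T t2305 (L l56 (T t2415 N))))))))⟩
def e0_63_106__143_42_29 : Ent 4 := ⟨[a0, a63, a106], [a143, a42, a49], (M a48 (F (L l35 (T t309 (L l28 (T t6462 (L l28 (L l35 (T t579 N)))))))))⟩
def e0_63_106__143_42_30 : Ent 4 := ⟨[a0, a63, a106], [a143, a42, a50], (M a48 (F (T t309 (L l28 (T t6462 (L l28 (T t579 N)))))))⟩
def e0_63_106__143_42_31 : Ent 4 := ⟨[a0, a63, a106], [a143, a42, a51], (M a48 (F (T t585 (L l28 (L l417 (T t6462 (L l28 (T t579 N))))))))⟩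
def e0_63_106__143_42_32 : Ent 4 := ⟨[a0, a63, a106], [a143, a42, a53], (M a240 (F (L l419 (T t4779 (L l491 (T t817 (L l419 (T t4781 N))))))))⟩
def e0_63_106__143_42_33 : Ent 4 := ⟨[a0, a63, a106], [a143, a42, a54], (M a48 (F (L l31 (T t309 (L l28 (T t6462 (L l28 (L l31 (T t579 N)))))))))⟩
def e0_63_106__143_42_34 : Ent 4 := ⟨[a0, a63, a106], [a143, a42, a55], (M a48 (F (L l31 (T t309 (L l28 (L l495 (T t6462 (L l28 (L l31 (T t579 N))))))))))⟩
def e0_63_106__143_42_35 : Ent 4 := ⟨[a0, a63, a106], [a143, a42, a58], (M a240 (L l54 (F (T t4779 (T t817 (T t4781 (K a10 (M a26 (F (L l318 (T t4779 (T t817 (L l318 (L l462 (T t6482 N)))))))) (K a26 (M a10 (F (T t4779 (L l227 (T t6610 (L l18 (L l160 (T t6611 N)))))))) N))))))))⟩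
def e0_63_106__143_42_36 : Ent 4 := ⟨[a0, a63, a106], [a143, a42, a59], (M a48 (L l56 (F (T t309 (L l28 (T t6462 (L l28 (T t579 (K a8 (M a25 (F (T t3405 (L l28 (T t6462 (L l28 (T t579 N))))))) (K a25 (M a8 (F (T t3405 (L l19 (L l28 (T t4700 N)))))) N))))))))))⟩
def e0_63_106__143_42_37 : Ent 4 := ⟨[a0, a63, a106], [a143, a42, a64], (M a48 (F (T t585 (L l28 (T t6594 (L l28 (L l325 (T t6455 (L l28 (L l84 (T t6457 (L l54 (L l160 (T t6458 (K a207 (Fr a192 a149 l519 (Fr a96 a144 l484 (Fr a101 a111 l104 (Fr a32 a16 l40 (V t6459))))) N)))))))))))))))⟩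
def e0_63_106__143_42_38 : Ent 4 := ⟨[a0, a63, a106], [a143, a42, a65], (M a48 (F (T t309 (L l28 (T t6462 (L l28 (L l76 (T t579 N))))))))⟩
def e0_63_106__143_42_39 : Ent 4 := ⟨[a0, a63, a106], [a143, a42, a66], (M a48 (F (T t585 (L l28 (T t6462 (L l28 (L l76 (T t579 N))))))))⟩
def e0_63_106__143_42_40 : Ent 4 := ⟨[a0, a63, a106], [a143, a42, a67], (M a48 (F (T t309 (L l28 (T t6462 (L l28 (L l76 (T t579 N))))))))⟩
def e0_63_106__143_42_41 : Ent 4 := ⟨[a0, a63, a106], [a143, a42, a69], (M a48 (F (T t309 (L l28 (T t6462 (L l28 (L l84 (T t579 N))))))))⟩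
def e0_63_106__143_42_42 : Ent 4 := ⟨[a0, a63, a106], [a143, a42, a70], (M a48 (F (T t309 (L l28 (T t6462 (L l28 (T t579 N)))))))⟩
def e0_63_106__143_42_43 : Ent 4 := ⟨[a0, a63, a106], [a143, a42, a71], (M a48 (F (T t309 (L l28 (T t6462 (L l28 (T t579 N)))))))⟩
def e0_63_106__143_42_44 : Ent 4 := ⟨[a0, a63, a106], [a143, a42, a74], (M a48 (F (T t2348 (L l28 (L l84 (L l318 (T t579 (L l28 (T t6462 N)))))))))⟩
def e0_63_106__143_42_45 : Ent 4 := ⟨[a0, a63, a106], [a143, a42, a75], (M a48 (F (T t309 (L l28 (T t6462 (L l28 (T t579 N)))))))⟩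
def e0_63_106__143_42_46 : Ent 4 := ⟨[a0, a63, a106], [a143, a42, a79], (M a48 (L l325 (F (T t309 (L l28 (T t6462 (L l28 (L l84 (T t579 (K a15 (M a207 (F (T t6835 (L l28 (L l483 (T t6462 N)))))) (K a207 (M a15 (F (L l160 (L l236 (T t6836 (L l54 (L l84 (T t2532 (L l137 (L l160 (L l236 (T t6837 N)))))))))))) N)))))))))))⟩
def e0_63_106__143_42_47 : Ent 4 := ⟨[a0, a63, a106], [a143, a42, a80], (M a12 (F (T t2304 (L l116 (L l155 (T t2305 (L l56 (L l116 (T t2415 N)))))))))⟩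
def e0_63_106__143_42_48 : Ent 4 := ⟨[a0, a63, a106], [a143, a42, a81], (M a48 (F (T t309 (L l28 (T t6462 (L l28 (L l120 (T t579 N))))))))⟩
def e0_63_106__143_42_49 : Ent 4 := ⟨[a0, a63, a106], [a143, a42, a82], (M a48 (F (T t309 (L l28 (L l345 (L l453 (T t6462 (L l28 (T t579 N)))))))))⟩
def e0_63_106__143_42_50 : Ent 4 := ⟨[a0, a63, a106], [a143, a42, a83], (M a48 (F (T t309 (L l28 (T t6462 (L l28 (T t579 N)))))))⟩
def e0_63_106__143_42_51 : Ent 4 := ⟨[a0, a63, a106], [a143, a42, a85], (M a48 (F (T t309 (L l28 (L l347 (T t6462 (L l54 (T t777 (L l160 (L l325 (L l368 (T t6465 (K a192 (M a56 (F (T t6620 (L l350 (L l368 (T t1445 (L l236 (T t6621 N)))))))) N)))))))))))))⟩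
def e0_63_106__143_42_52 : Ent 4 := ⟨[a0, a63, a106], [a143, a42, a86], (M a48 (F (T t309 (L l28 (L l351 (T t6462 (L l28 (T t579 N))))))))⟩
def e0_63_106__143_42_53 : Ent 4 := ⟨[a0, a63, a106], [a143, a42, a87], (M a48 (F (T t309 (L l28 (T t6462 (L l28 (L l367 (T t579 N))))))))⟩
def e0_63_106__143_42_54 : Ent 4 := ⟨[a0, a63, a106], [a143, a42, a90], (M a12 (F (T t2304 (L l155 (L l375 (T t2305 (L l56 (T t2415 N))))))))⟩
def e0_63_106__143_42_55 : Ent 4 := ⟨[a0, a63, a106], [a143, a42, a91], (M a48 (F (T t309 (L l28 (T t6462 (L l28 (T t579 N)))))))⟩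
def e0_63_106__143_42_56 : Ent 4 := ⟨[a0, a63, a106], [a143, a42, a95], (M a48 (F (T t309 (L l28 (T t6462 (L l28 (L l361 (T t579 N))))))))⟩
def e0_63_106__143_42_57 : Ent 4 := ⟨[a0, a63, a106], [a143, a42, a96], (M a12 (F (T t2414 (L l56 (L l116 (T t2415 (L l116 (L l155 (T t2305 N)))))))))⟩
def e0_63_106__143_42_58 : Ent 4 := ⟨[a0, a63, a106], [a143, a42, a97], (M a48 (F (T t309 (L l28 (L l96 (L l380 (T t6462 (L l28 (L l380 (T t579 N))))))))))⟩
def e0_63_106__143_42_59 : Ent 4 := ⟨[a0, a63, a106], [a143, a42, a98], (M a48 (F (T t585 (L l28 (L l96 (T t6462 (L l28 (L l120 (T t579 N)))))))))⟩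
def e0_63_106__143_42_60 : Ent 4 := ⟨[a0, a63, a106], [a143, a42, a99], (M a48 (F (T t309 (L l28 (L l96 (T t6462 (L l28 (T t579 N))))))))⟩
def e0_63_106__143_42_61 : Ent 4 := ⟨[a0, a63, a106], [a143, a42, a101], (M a240 (F (T t4779 (L l491 (L l512 (T t817 (T t4781 N)))))))⟩
def e0_63_106__143_42_62 : Ent 4 := ⟨[a0, a63, a106], [a143, a42, a102], (M a48 (F (T t309 (L l28 (L l495 (T t6462 (L l28 (T t579 N))))))))⟩
def e0_63_106__143_42_63 : Ent 4 := ⟨[a0, a63, a106], [a143, a42, a103], (M a48 (F (T t309 (L l28 (T t6462 (L l28 (T t579 N)))))))⟩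
def e0_63_106__143_42_64 : Ent 4 := ⟨[a0, a63, a106], [a143, a42, a107], (M a48 (F (T t309 (L l28 (T t6462 (L l28 (T t579 N)))))))⟩
def e0_63_106__143_42_65 : Ent 4 := ⟨[a0, a63, a106], [a143, a42, a111], (M a240 (F (T t4779 (T t817 (L l137 (T t4781 N))))))⟩
def e0_63_106__143_42_66 : Ent 4 := ⟨[a0, a63, a106], [a143, a42, a112], (M a48 (F (T t309 (L l28 (L l116 (T t6462 (L l28 (L l116 (T t579 N)))))))))⟩
def e0_63_106__143_42_67 : Ent 4 := ⟨[a0, a63, a106], [a143, a42, a113], (M a48 (F (T t309 (L l28 (T t6462 (L l28 (T t579 N)))))))⟩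
def e0_63_106__143_42_68 : Ent 4 := ⟨[a0, a63, a106], [a143, a42, a114], (M a48 (F (T t309 (L l28 (L l417 (T t6462 (L l28 (T t579 N))))))))⟩
def e0_63_106__143_42_69 : Ent 4 := ⟨[a0, a63, a106], [a143, a42, a115], (M a48 (F (T t309 (L l28 (T t6462 (L l28 (L l120 (T t579 N))))))))⟩
def e0_63_106__143_42_70 : Ent 4 := ⟨[a0, a63, a106], [a143, a42, a117], (M a48 (F (L l419 (T t309 (L l28 (T t6462 (L l28 (L l419 (T t579 N)))))))))⟩
def e0_63_106__143_42_71 : Ent 4 := ⟨[a0, a63, a106], [a143, a42, a118], (M a48 (F (T t309 (L l28 (T t6462 (L l28 (T t579 N)))))))⟩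
def e0_63_106__143_42_72 : Ent 4 := ⟨[a0, a63, a106], [a143, a42, a119], (M a48 (F (T t309 (L l28 (T t6462 (L l28 (T t579 N)))))))⟩
def e0_63_106__143_42_73 : Ent 4 := ⟨[a0, a63, a106], [a143, a42, a122], (M a48 (F (T t309 (L l28 (T t6462 (L l28 (T t579 N)))))))⟩
def e0_63_106__143_42_74 : Ent 4 := ⟨[a0, a63, a106], [a143, a42, a123], (M a48 (F (T t309 (L l28 (T t6462 (L l28 (T t579 N)))))))⟩
def e0_63_106__143_42_75 : Ent 4 := ⟨[a0, a63, a106], [a143, a42, a127], (M a48 (F (T t309 (L l28 (T t6462 (L l28 (T t6744 (L l28 (L l325 (T t6479 N))))))))))⟩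
def e0_63_106__143_42_76 : Ent 4 := ⟨[a0, a63, a106], [a143, a42, a128], (M a48 (L l160 (F (T t585 (L l28 (T t579 (L l192 (L l220 (L l325 (T t6480 (L l54 (T t7356 (K a133 (M a138 (F (L l28 (T t579 (L l213 (L l311 (T t7359 (L l54 (L l227 (L l311 (L l339 (T t4540 N)))))))))))) (K a138 (M a133 (F (L l54 (T t7451 (L l192 (L l220 (L l227 (L l318 (T t7452 (L l28 (L l318 (T t579 (L l192 (L l220 (L l325 (T t578 N)))))))))))))))) N))))))))))))))⟩
def e0_63_106__143_42_77 : Ent 4 := ⟨[a0, a63, a106], [a143, a42, a129], (M a48 (F (T t585 (L l28 (L l217 (T t6462 (L l28 (T t579 N))))))))⟩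
def e0_63_106__143_42_78 : Ent 4 := ⟨[a0, a63, a106], [a143, a42, a130], (M a48 (F (T t309 (L l28 (T t6462 (L l28 (T t579 N)))))))⟩
def e0_63_106__143_42_79 : Ent 4 := ⟨[a0, a63, a106], [a143, a42, a131], (M a48 (L l159 (F (T t309 (L l28 (T t6462 (L l28 (T t579 (K a135 (M a139 (F (T t7347 (L l28 (T t6462 N))))) (K a139 (M a135 (F (T t3405 (L l28 (T t6462 (L l28 (T t579 N))))))) N))))))))))⟩
def e0_63_106__143_42_80 : Ent 4 := ⟨[a0, a63, a106], [a143, a42, a133], (M a48 (L l160 (F (T t585 (L l28 (L l199 (T t6462 (L l28 (T t579 (K a128 (M a138 (F (L l28 (T t579 (L l213 (L l311 (T t7359 (L l54 (L l227 (L l311 (L l339 (T t4540 N)))))))))))) (K a138 (M a128 (F (T t7289 (L l28 (L l318 (T t579 (L l318 (L l339 (T t3405 N))))))))) N)))))))))))⟩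
def e0_63_106__143_42_81 : Ent 4 := ⟨[a0, a63, a106], [a143, a42, a134], (M a48 (F (T t309 (L l28 (T t6462 (L l28 (T t579 N)))))))⟩
def e0_63_106__143_42_82 : Ent 4 := ⟨[a0, a63, a106], [a143, a42, a135], (M a48 (L l159 (F (T t309 (L l28 (T t6462 (L l28 (T t579 (K a131 (M a139 (F (T t7347 (L l28 (T t6462 N))))) (K a139 (M a131 (F (T t3405 (L l28 (T t6462 (L l28 (T t579 N))))))) N))))))))))⟩
def e0_63_106__143_42_83 : Ent 4 := ⟨[a0, a63, a106], [a143, a42, a138], (M a48 (L l160 (F (T t2348 (L l28 (L l318 (T t579 (L l28 (T t6462 (K a128 (M a133 (F (L l54 (T t7451 (L l192 (L l220 (L l227 (L l318 (T t7452 (L l28 (L l318 (T t579 (L l192 (L l220 (L l325 (T t578 N)))))))))))))))) (K a133 (M a128 (F (T t7289 (L l28 (L l318 (T t579 (L l318 (L l339 (T t3405 N))))))))) N)))))))))))⟩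
def e0_63_106__143_42_84 : Ent 4 := ⟨[a0, a63, a106], [a143, a42, a139], (M a48 (L l159 (F (T t309 (L l28 (T t6462 (L l28 (T t579 (K a131 (M a135 (F (T t3405 (L l28 (T t6462 (L l28 (T t579 N))))))) (K a135 (M a131 (F (T t3405 (L l28 (T t6462 (L l28 (T t579 N))))))) N))))))))))⟩
def e0_63_106__143_42_85 : Ent 4 := ⟨[a0, a63, a106], [a143, a42, a144], (M a12 (F (T t2414 (L l56 (T t2415 (L l155 (L l170 (T t2305 N))))))))⟩
def e0_63_106__143_42_86 : Ent 4 := ⟨[a0, a63, a106], [a143, a42, a145], (M a48 (F (T t585 (L l28 (L l167 (L l345 (T t6462 (L l28 (T t579 N)))))))))⟩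
def e0_63_106__143_42_87 : Ent 4 := ⟨[a0, a63, a106], [a143, a42, a146], (M a48 (F (T t3405 (L l28 (T t6462 (L l28 (T t579 N)))))))⟩
def e0_63_106__143_42_88 : Ent 4 := ⟨[a0, a63, a106], [a143, a42, a147], (M a48 (F (T t3405 (L l28 (T t6462 (L l28 (T t579 N)))))))⟩
def e0_63_106__143_42_89 : Ent 4 := ⟨[a0, a63, a106], [a143, a42, a149], (M a204 (F (L l167 (T t6655 (L l167 (L l347 (T t6636 (L l56 (L l155 (L l167 (L l495 (T t6635 (L l56 (L l160 (L l167 (L l220 (L l495 (T t6637 (K a145 (M a153 (F (T t6638 (L l56 (L l160 (L l196 (L l220 (L l341 (L l495 (T t6639 (L l160 (L l196 (L l220 (T t6640 N)))))))))))))) (K a153 (M a102 (L l167 (F (T t6641 (L l208 (T t6642 (K a145 (Fr a157 a110 l507 (V t6642)) (K a157 (M a145 (F (L l208 (T t6642 (L l225 (L l226 (T t6817 (L l365 (T t6643 N))))))))) N)))))))) (K a157 (M a153 (F (T t6645 (T t6646 (L l56 (L l160 (L l220 (L l495 (T t6639 (L l160 (L l220 (T t6640 N)))))))))))) (K a98 (M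 a48 (F (T t2046 (L l28 (L l120 (L l491 (T t579 (L l225 (L l491 (L l495 (T t6651 N))))))))))) (K a102 (M a12 (L l495 (F (L l155 (T t752 (L l167 (L l371 (L l402 (T t765 (L l56 (L l371 (T t2415 (K a196 (M a55 (F (L l56 (L l347 (T t6649 (L l150 (L l213 (L l220 (T t3459 N))))))))) (K a55 (M a196 (F (T t6650 (L l150 (L l213 (L l220 (T t3459 N))))))) N)))))))))))))) (K a110 (M a48 (F (T t2046 (L l28 (L l491 (T t579 (L l225 (L l491 (L l495 (T t6651 N)))))))))) N))))))))))))))))))))))))⟩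
def e0_63_106__143_42_90 : Ent 4 := ⟨[a0, a63, a106], [a143, a42, a150], (M a48 (F (T t309 (L l28 (L l163 (T t6462 (L l28 (T t579 N))))))))⟩
def e0_63_106__143_42_91 : Ent 4 := ⟨[a0, a63, a106], [a143, a42, a151], (M a48 (F (T t309 (L l28 (L l163 (T t6462 (L l28 (T t579 N))))))))⟩
def e0_63_106__143_42_92 : Ent 4 := ⟨[a0, a63, a106], [a143, a42, a154], (M a240 (L l227 (F (T t4779 (L l170 (L l368 (L l512 (T t817 (T t4781 (K a176 (M a165 (F (T t7474 (T t6492 N)))) (K a165 (M a176 (F (L l213 (T t7475 (L l160 (T t7476 (L l180 (L l199 (T t4781 N))))))))) N)))))))))))⟩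
def e0_63_106__143_42_93 : Ent 4 := ⟨[a0, a63, a106], [a143, a42, a155], (M a48 (L l225 (F (T t309 (L l28 (T t6462 (L l28 (L l367 (T t579 (K a179 (M a167 (F (T t3405 (L l28 (T t6462 (L l28 (L l367 (T t579 N)))))))) (K a167 (M a179 (F (T t3405 (L l28 (T t6462 (L l28 (L l367 (T t579 N)))))))) N)))))))))))⟩
def e0_63_106__143_42_94 : Ent 4 := ⟨[a0, a63, a106], [a143, a42, a159], (M a240 (L l213 (F (T t4779 (L l170 (T t817 (L l361 (T t4781 (K a175 (M a191 (F (T t7348 (L l227 (T t7477 (L l160 (T t7478 N))))))) (K a191 (M a175 (F (L l190 (T t7479 (L l170 (L l220 (T t817 (L l160 (T t7478 N))))))))) N))))))))))⟩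
def e0_63_106__143_42_95 : Ent 4 := ⟨[a0, a63, a106], [a143, a42, a160], (M a12 (F (T t2304 (L l155 (T t2305 (L l56 (T t2415 N)))))))⟩
def e0_63_106__143_42_96 : Ent 4 := ⟨[a0, a63, a106], [a143, a42, a161], (M a48 (F (T t309 (L l28 (L l453 (T t6462 (L l28 (T t579 N))))))))⟩
def e0_63_106__143_42_97 : Ent 4 := ⟨[a0, a63, a106], [a143, a42, a162], (M a48 (F (T t309 (L l28 (L l380 (T t6462 (L l28 (L l380 (T t579 N)))))))))⟩
def e0_63_106__143_42_98 : Ent 4 := ⟨[a0, a63, a106], [a143, a42, a163], (M a48 (F (T t309 (L l28 (T t6462 (L l28 (T t579 N)))))))⟩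
def e0_63_106__143_42_99 : Ent 4 := ⟨[a0, a63, a106], [a143, a42, a165], (M a48 (L l227 (F (T t309 (L l28 (T t579 (L l199 (L l483 (T t6632 (K a176 (M a154 (F (T t6900 (L l383 (T t6955 N))))) (K a154 (M a176 (F (L l170 (L l199 (T t7480 (L l54 (L l455 (T t7481 (L l160 (T t7482 N)))))))))) N)))))))))))⟩
def e0_63_106__143_42_100 : Ent 4 := ⟨[a0, a63, a106], [a143, a42, a166], (M a48 (F (T t309 (L l28 (L l202 (T t6462 (L l28 (T t579 N))))))))⟩
def e0_63_106__143_42_101 : Ent 4 := ⟨[a0, a63, a106], [a143, a42, a167], (M a48 (L l225 (F (T t309 (L l28 (T t6462 (L l28 (T t579 (K a179 (M a155 (F (T t3405 (L l28 (T t6462 (L l28 (T t579 N))))))) (K a155 (M a179 (F (T t3405 (L l28 (T t6462 (L l28 (L l367 (T t579 N)))))))) N))))))))))⟩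
def e0_63_106__143_42_102 : Ent 4 := ⟨[a0, a63, a106], [a143, a42, a170], (M a48 (F (T t309 (L l220 (L l227 (T t551 (L l28 (L l206 (L l213 (L l220 (L l404 (T t552 (L l28 (L l220 (L l404 (T t6462 (L l28 (L l206 (L l325 (L l404 (T t553 N)))))))))))))))))))))⟩
def e0_63_106__143_42_103 : Ent 4 := ⟨[a0, a63, a106], [a143, a42, a171], (M a48 (F (T t309 (L l28 (T t6462 (L l28 (T t579 N)))))))⟩
def e0_63_106__143_42_104 : Ent 4 := ⟨[a0, a63, a106], [a143, a42, a175], (M a48 (L l213 (F (T t309 (L l28 (T t6462 (L l28 (T t579 (K a159 (M a191 (F (T t7348 (L l227 (T t7349 (L l170 (L l325 (T t307 N)))))))) (K a191 (M a159 (F (T t7483 (L l28 (L l220 (T t6462 N)))))) N))))))))))⟩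
def e0_63_106__143_42_105 : Ent 4 := ⟨[a0, a63, a106], [a143, a42, a176], (M a48 (L l227 (F (T t3405 (L l28 (T t579 (L l192 (T t6632 (K a165 (M a154 (F (T t6900 (L l383 (T t6955 N))))) (K a154 (M a165 (F (T t7484 (L l28 (L l192 (L l206 (L l368 (T t6998 (L l54 (T t7485 N)))))))))) N))))))))))⟩
def e0_63_106__143_42_106 : Ent 4 := ⟨[a0, a63, a106], [a143, a42, a177], (M a48 (F (T t309 (L l28 (L l417 (T t6462 (L l28 (T t579 N))))))))⟩
def e0_63_106__143_42_107 : Ent 4 := ⟨[a0, a63, a106], [a143, a42, a178], (M a48 (F (T t309 (L l28 (T t6462 (L l28 (T t579 N)))))))⟩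
def e0_63_106__143_42_108 : Ent 4 := ⟨[a0, a63, a106], [a143, a42, a179], (M a48 (L l225 (F (T t309 (L l28 (T t6462 (L l28 (T t579 (K a167 (M a155 (F (T t3405 (L l28 (T t6462 (L l28 (T t579 N))))))) (K a155 (M a167 (F (T t3405 (L l28 (T t6462 (L l28 (L l367 (T t579 N)))))))) N))))))))))⟩
def e0_63_106__143_42_109 : Ent 4 := ⟨[a0, a63, a106], [a143, a42, a181], (M a48 (F (L l419 (T t309 (L l28 (L l199 (T t6462 (L l28 (L l419 (T t579 N))))))))))⟩
def e0_63_106__143_42_110 : Ent 4 := ⟨[a0, a63, a106], [a143, a42, a182], (M a48 (F (T t309 (L l28 (T t6462 (L l28 (T t579 N)))))))⟩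
def e0_63_106__143_42_111 : Ent 4 := ⟨[a0, a63, a106], [a143, a42, a183], (M a48 (F (T t309 (L l28 (L l202 (T t6462 (L l28 (T t579 N))))))))⟩
def e0_63_106__143_42_112 : Ent 4 := ⟨[a0, a63, a106], [a143, a42, a186], (M a48 (F (T t309 (L l28 (T t6462 (L l28 (T t579 N)))))))⟩
def e0_63_106__143_42_113 : Ent 4 := ⟨[a0, a63, a106], [a143, a42, a187], (M a48 (F (T t309 (L l28 (T t6462 (L l28 (T t579 N)))))))⟩
def e0_63_106__143_42_114 : Ent 4 := ⟨[a0, a63, a106], [a143, a42, a191], (M a48 (L l213 (F (T t309 (L l28 (L l220 (T t6462 (L l28 (T t6498 (L l28 (L l325 (T t6499 (K a159 (M a175 (F (L l325 (T t304 (L l170 (L l190 (L l220 (L l227 (T t551 (L l28 (L l361 (T t6744 (L l325 (T t7486 (K a154 (Fr a192 a149 l519 (Fr a144 a96 l484 (V t7493))) N))))))))))))))) (K a175 (M a159 (F (T t7483 (L l28 (L l220 (T t6462 N)))))) N))))))))))))))⟩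
def e0_63_106__143_42_115 : Ent 4 := ⟨[a0, a63, a106], [a143, a42, a192], (M a204 (F (L l489 (T t6655 (L l272 (L l489 (T t6656 (L l296 (L l489 (T t6657 (L l56 (L l160 (L l489 (T t6658 (L l213 (L l489 (T t6659 (K a145 (M a102 (L l489 (F (T t6641 (T t6660 (K a98 (Fr a51 a153 l513 (V t6661)) (K a51 (Fr a98 a110 l102 (V t6662)) N))))))) (K a85 (M a48 (F (L l292 (T t2046 (L l123 (L l236 (L l489 (T t6732 N)))))))) (K a157 (M a48 (F (T t5482 (L l28 (L l236 (T t579 (L l225 (L l236 (T t6651 N))))))))) (K a98 (M a153 (L l489 (F (T t6645 (L l296 (T t6668 (L l26 (L l120 (L l378 (T t6669 (K a145 (Fr a51 a102 l513 (V t6670)) (K a51 (M a145 (F (T t6671 (L l56 (L l272 (L l334 (L l378 (T t6672 N)))))))) N)))))))))))) (K a102 (M a252 (F (L l484 (T t6673 (L l148 (L l325 (L l339 (T t6674 (L l309 (T t6675 N)))))))))) (K a110 (M a48 (F (T t6676 (L l28 (L l236 (T t579 (L l225 (L l236 (T t6651 N))))))))) (K a51 (M a48 (L l489 (F (T t5482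 (L l236 (T t6677 (K a145 (M a98 (F (T t6678 (L l292 (L l441 (T t1315 N)))))) (K a98 (M a145 (F (T t5482 (L l28 (L l120 (L l236 (T t579 (L l225 (L l511 (T t6679 N)))))))))) N)))))))) N))))))))))))))))))))))))⟩
def e0_63_106__143_42_116 : Ent 4 := ⟨[a0, a63, a106], [a143, a42, a193], (M a48 (F (T t585 (L l28 (L l515 (T t6462 (L l28 (T t579 N))))))))⟩
def e0_63_106__143_42_117 : Ent 4 := ⟨[a0, a63, a106], [a143, a42, a194], (M a48 (F (T t2348 (L l28 (L l234 (T t579 (L l28 (T t6462 N))))))))⟩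
def e0_63_106__143_42_118 : Ent 4 := ⟨[a0, a63, a106], [a143, a42, a195], (M a48 (F (T t585 (L l28 (L l273 (T t6462 (L l28 (T t579 N))))))))⟩
def e0_63_106__143_42_119 : Ent 4 := ⟨[a0, a63, a106], [a143, a42, a197], (M a240 (F (L l236 (T t4779 (L l491 (T t817 (T t4781 N)))))))⟩
def e0_63_106__143_42_120 : Ent 4 := ⟨[a0, a63, a106], [a143, a42, a198], (M a48 (F (T t2348 (L l28 (L l234 (T t579 (L l28 (T t6462 N))))))))⟩
def e0_63_106__143_42_121 : Ent 4 := ⟨[a0, a63, a106], [a143, a42, a199], (M a48 (F (T t309 (L l28 (T t6462 (L l28 (T t579 N)))))))⟩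
def e0_63_106__143_42_122 : Ent 4 := ⟨[a0, a63, a106], [a143, a42, a202], (M a240 (F (T t817 (L l236 (L l318 (T t4779 (L l318 (T t4781 N))))))))⟩
def e0_63_106__143_42_123 : Ent 4 := ⟨[a0, a63, a106], [a143, a42, a203], (M a48 (F (T t2348 (L l28 (L l230 (T t579 (L l28 (T t6462 N))))))))⟩
def e0_63_106__143_42_124 : Ent 4 := ⟨[a0, a63, a106], [a143, a42, a207], (M a240 (L l325 (F (T t6525 (L l512 (T t817 (T t4781 (K a15 (M a79 (F (L l160 (T t7488 (L l75 (L l512 (T t817 (T t7489 (K a64 (Fr a122 a181 l447 (Fr a90 a74 l130 (Fr a101 a112 l151 (Fr a80 a160 l448 (V t7490))))) N))))))))) (K a79 (M a15 (F (T t7491 (L l512 (T t817 N))))) N)))))))))⟩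
def e0_63_106__143_42_125 : Ent 4 := ⟨[a0, a63, a106], [a143, a42, a208], (M a12 (F (T t2419 (L l155 (L l375 (T t2305 (L l56 (T t2415 N))))))))⟩
def e0_63_106__143_42_126 : Ent 4 := ⟨[a0, a63, a106], [a143, a42, a209], (M a48 (F (T t585 (L l28 (L l238 (L l371 (T t6462 (L l28 (T t579 N)))))))))⟩
def e0_63_106__143_42_127 : Ent 4 := ⟨[a0, a63, a106], [a143, a42, a210], (M a48 (F (T t309 (L l28 (L l238 (L l273 (T t6462 (L l28 (T t579 N)))))))))⟩
def e0_63_106__143_42_128 : Ent 4 := ⟨[a0, a63, a106], [a143, a42, a211], (M a48 (F (T t309 (L l28 (L l238 (T t6462 (L l28 (L l245 (T t579 N)))))))))⟩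
def e0_63_106__143_42_129 : Ent 4 := ⟨[a0, a63, a106], [a143, a42, a213], (M a48 (F (T t585 (L l28 (L l246 (L l347 (T t6462 (L l28 (L l246 (T t579 N))))))))))⟩
def e0_63_106__143_42_130 : Ent 4 := ⟨[a0, a63, a106], [a143, a42, a214], (M a48 (F (T t309 (L l28 (T t6462 (L l28 (T t579 N)))))))⟩
def e0_63_106__143_42_131 : Ent 4 := ⟨[a0, a63, a106], [a143, a42, a215], (M a48 (F (T t309 (L l28 (T t6462 (L l28 (L l245 (T t579 N))))))))⟩
def e0_63_106__143_42_132 : Ent 4 := ⟨[a0, a63, a106], [a143, a42, a218], (M a48 (F (T t2348 (L l28 (L l246 (L l282 (T t579 (L l28 (L l246 (L l303 (T t6462 N)))))))))))⟩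
def e0_63_106__143_42_133 : Ent 4 := ⟨[a0, a63, a106], [a143, a42, a219], (M a48 (F (T t309 (L l28 (T t6462 (L l28 (L l245 (T t579 N))))))))⟩
def e0_63_106__143_42_134 : Ent 4 := ⟨[a0, a63, a106], [a143, a42, a223], (M a240 (F (L l246 (T t4779 (L l368 (T t817 (L l361 (T t4781 N))))))))⟩
def e0_63_106__143_42_135 : Ent 4 := ⟨[a0, a63, a106], [a143, a42, a224], (M a12 (F (T t2416 (L l56 (L l248 (T t2415 (L l155 (T t2305 N))))))))⟩
def e0_63_106__143_42_136 : Ent 4 := ⟨[a0, a63, a106], [a143, a42, a225], (M a48 (F (T t309 (L l28 (L l273 (T t6462 (L l28 (T t579 N))))))))⟩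
def e0_63_106__143_42_137 : Ent 4 := ⟨[a0, a63, a106], [a143, a42, a226], (M a48 (F (T t585 (L l28 (T t6462 (L l28 (T t579 N)))))))⟩
def e0_63_106__143_42_138 : Ent 4 := ⟨[a0, a63, a106], [a143, a42, a227], (M a48 (F (T t309 (L l28 (L l380 (T t6462 (L l28 (L l380 (T t579 N)))))))))⟩
def e0_63_106__143_42_139 : Ent 4 := ⟨[a0, a63, a106], [a143, a42, a229], (M a48 (F (T t309 (L l28 (T t7492 (L l28 (T t579 N)))))))⟩
def e0_63_106__143_42_140 : Ent 4 := ⟨[a0, a63, a106], [a143, a42, a230], (M a48 (F (T t309 (L l28 (T t6462 (L l28 (T t579 N)))))))⟩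
def e0_63_106__143_42_141 : Ent 4 := ⟨[a0, a63, a106], [a143, a42, a231], (M a48 (F (T t309 (L l28 (T t6462 (L l28 (T t579 N)))))))⟩
def e0_63_106__143_42_142 : Ent 4 := ⟨[a0, a63, a106], [a143, a42, a234], (M a48 (F (T t2348 (L l28 (L l282 (T t579 (L l28 (T t6462 N))))))))⟩
def e0_63_106__143_42_143 : Ent 4 := ⟨[a0, a63, a106], [a143, a42, a235], (M a48 (F (T t309 (L l28 (T t6462 (L l28 (T t579 N)))))))⟩
def e0_63_106__143_42_144 : Ent 4 := ⟨[a0, a63, a106], [a143, a42, a239], (M a48 (F (T t309 (L l227 (T t551 (L l28 (L l289 (L l404 (T t579 (L l28 (L l404 (T t6462 N))))))))))))⟩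
def e0_63_106__143_42_145 : Ent 4 := ⟨[a0, a63, a106], [a143, a42, a240], (M a12 (F (T t2419 (L l155 (L l298 (T t2305 (L l56 (T t2415 N))))))))⟩
def e0_63_106__143_42_146 : Ent 4 := ⟨[a0, a63, a106], [a143, a42, a241], (M a48 (F (T t309 (L l28 (L l258 (T t6462 (L l28 (T t579 N))))))))⟩
def e0_63_106__143_42_147 : Ent 4 := ⟨[a0, a63, a106], [a143, a42, a242], (M a48 (F (T t309 (L l28 (L l258 (T t6462 (L l28 (T t579 N))))))))⟩
def e0_63_106__143_42_148 : Ent 4 := ⟨[a0, a63, a106], [a143, a42, a243], (M a48 (F (T t585 (L l28 (L l258 (T t6462 (L l28 (T t579 N))))))))⟩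
def e0_63_106__143_42_149 : Ent 4 := ⟨[a0, a63, a106], [a143, a42, a245], (M a48 (F (L l419 (T t309 (L l28 (L l266 (T t6462 (L l28 (L l419 (T t579 N))))))))))⟩
def e0_63_106__143_42_150 : Ent 4 := ⟨[a0, a63, a106], [a143, a42, a246], (M a48 (F (T t309 (L l28 (T t6462 (L l28 (T t579 N)))))))⟩
def e0_63_106__143_42_151 : Ent 4 := ⟨[a0, a63, a106], [a143, a42, a247], (M a48 (F (T t309 (L l28 (T t6462 (L l28 (T t579 N)))))))⟩
def e0_63_106__143_42_152 : Ent 4 := ⟨[a0, a63, a106], [a143, a42, a250], (M a48 (F (T t2348 (L l28 (L l282 (T t579 (L l28 (L l266 (T t6462 N)))))))))⟩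
def e0_63_106__143_42_153 : Ent 4 := ⟨[a0, a63, a106], [a143, a42, a251], (M a48 (F (T t309 (L l28 (T t6462 (L l28 (T t579 N)))))))⟩
def e0_63_106__143_42_154 : Ent 4 := ⟨[a0, a63, a106], [a143, a42, a255], (M a48 (F (T t585 (L l28 (L l266 (T t6462 (L l28 (L l469 (T t6526 (L l28 (L l160 (L l289 (T t6527 N)))))))))))))⟩
def b0_63_106__143_42 : Blk 4 := ⟨[0, 63, 106], [143, 42], [1, 2, 3, 5, 6, 7, 10, 11, 15, 16, 17, 18, 19, 21, 22, 23, 26, 27, 31, 32, 33, 34, 35, 37, 38, 39, 43, 47, 48, 49, 50, 51, 53, 54, 55, 58, 59, 64, 65, 66, 67, 69, 70, 71, 74, 75, 79, 80, 81, 82, 83, 85, 86, 87, 90, 91, 95, 96, 97, 98, 99, 101, 102, 103, 107, 111, 112, 113, 114, 115, 117, 118, 119, 122, 123, 127, 128, 129, 130, 131, 133, 134, 135, 138, 139, 144, 145, 146, 147, 149, 150, 151, 154, 155, 159, 160, 161, 162, 163, 165, 166, 167, 170, 171, 175, 176, 177, 178, 179, 181, 182, 183, 186, 187, 191, 192, 193, 194, 195, 197, 198, 199, 202,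 203, 207, 208, 209, 210, 211, 213, 214, 215, 218, 219, 223, 224, 225, 226, 227, 229, 230, 231, 234, 235, 239, 240, 241, 242, 243, 245, 246, 247, 250, 251, 255], [e0_63_106__143_42_0, e0_63_106__143_42_1, e0_63_106__143_42_2, e0_63_106__143_42_3, e0_63_106__143_42_4, e0_63_106__143_42_5, e0_63_106__143_42_6, e0_63_106__143_42_7, e0_63_106__143_42_8, e0_63_106__143_42_9, e0_63_106__143_42_10, e0_63_106__143_42_11, e0_63_106__143_42_12, e0_63_106__143_42_13, e0_63_106__143_42_14, e0_63_106__143_42_15, e0_63_106__143_42_16, e0_63_106__143_42_17, e0_63_106__143_42_18, e0_63_106__143_42_19, e0_63_106__143_42_20, e0_63_106__143_42_21, e0_63_106__143_42_22, e0_63_106__143_42_23, e0_63_106__143_42_24, e0_63_106__143_42_25, e0_63_106__143_42_26, e0_63_106__143_42_27, e0_63_106__143_42_28, e0_63_106__143_42_29, e0_63_106__143_42_30, e0_63_106__143_42_31, e0_63_106__143_42_32, e0_63_106__143_42_33, e0_63_106__143_42_34, e0_63_106__143_42_35,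 e0_63_106__143_42_36, e0_63_106__143_42_37, e0_63_106__143_42_38, e0_63_106__143_42_39, e0_63_106__143_42_40, e0_63_106__143_42_41, e0_63_106__143_42_42, e0_63_106__143_42_43, e0_63_106__143_42_44, e0_63_106__143_42_45, e0_63_106__143_42_46, e0_63_106__143_42_47, e0_63_106__143_42_48, e0_63_106__143_42_49, e0_63_106__143_42_50, e0_63_106__143_42_51, e0_63_106__143_42_52, e0_63_106__143_42_53, e0_63_106__143_42_54, e0_63_106__143_42_55, e0_63_106__143_42_56, e0_63_106__143_42_57, e0_63_106__143_42_58, e0_63_106__143_42_59, e0_63_106__143_42_60, e0_63_106__143_42_61, e0_63_106__143_42_62, e0_63_106__143_42_63, e0_63_106__143_42_64, e0_63_106__143_42_65, e0_63_106__143_42_66, e0_63_106__143_42_67, e0_63_106__143_42_68, e0_63_106__143_42_69, e0_63_106__143_42_70, e0_63_106__143_42_71, e0_63_106__143_42_72, e0_63_106__143_42_73, e0_63_106__143_42_74, e0_63_106__143_42_75, e0_63_106__143_42_76, e0_63_106__143_42_77, e0_63_106__143_42_78,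 e0_63_106__143_42_79, e0_63_106__143_42_80, e0_63_106__143_42_81, e0_63_106__143_42_82, e0_63_106__143_42_83, e0_63_106__143_42_84, e0_63_106__143_42_85, e0_63_106__143_42_86, e0_63_106__143_42_87, e0_63_106__143_42_88, e0_63_106__143_42_89, e0_63_106__143_42_90, e0_63_106__143_42_91, e0_63_106__143_42_92, e0_63_106__143_42_93, e0_63_106__143_42_94, e0_63_106__143_42_95, e0_63_106__143_42_96, e0_63_106__143_42_97, e0_63_106__143_42_98, e0_63_106__143_42_99, e0_63_106__143_42_100, e0_63_106__143_42_101, e0_63_106__143_42_102, e0_63_106__143_42_103, e0_63_106__143_42_104, e0_63_106__143_42_105, e0_63_106__143_42_106, e0_63_106__143_42_107, e0_63_106__143_42_108, e0_63_106__143_42_109, e0_63_106__143_42_110, e0_63_106__143_42_111, e0_63_106__143_42_112, e0_63_106__143_42_113, e0_63_106__143_42_114, e0_63_106__143_42_115, e0_63_106__143_42_116, e0_63_106__143_42_117, e0_63_106__143_42_118, e0_63_106__143_42_119, e0_63_106__143_42_120,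 e0_63_106__143_42_121, e0_63_106__143_42_122, e0_63_106__143_42_123, e0_63_106__143_42_124, e0_63_106__143_42_125, e0_63_106__143_42_126, e0_63_106__143_42_127, e0_63_106__143_42_128, e0_63_106__143_42_129, e0_63_106__143_42_130, e0_63_106__143_42_131, e0_63_106__143_42_132, e0_63_106__143_42_133, e0_63_106__143_42_134, e0_63_106__143_42_135, e0_63_106__143_42_136, e0_63_106__143_42_137, e0_63_106__143_42_138, e0_63_106__143_42_139, e0_63_106__143_42_140, e0_63_106__143_42_141, e0_63_106__143_42_142, e0_63_106__143_42_143, e0_63_106__143_42_144, e0_63_106__143_42_145, e0_63_106__143_42_146, e0_63_106__143_42_147, e0_63_106__143_42_148, e0_63_106__143_42_149, e0_63_106__143_42_150, e0_63_106__143_42_151, e0_63_106__143_42_152, e0_63_106__143_42_153, e0_63_106__143_42_154], by decide +kernel, by decide +kernel⟩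
def e0_63_106__151_42_0 : Ent 4 := ⟨[a0, a63, a106], [a151, a42, a1], (M a48 (F (T t309 (L l163 (T t551 (L l28 (T t579 N)))))))⟩
def e0_63_106__151_42_1 : Ent 4 := ⟨[a0, a63, a106], [a151, a42, a2], (M a48 (L l66 (F (T t309 (L l163 (T t551 (L l28 (T t579 (K a22 (M a62 (F (T t3405 (L l22 (L l306 (L l349 (T t5926 N))))))) (K a62 (M a22 (F (T t3405 (L l163 (T t551 (L l28 (T t579 N))))))) N))))))))))⟩
def e0_63_106__151_42_2 : Ent 4 := ⟨[a0, a63, a106], [a151, a42, a3], (M a48 (F (T t585 (L l163 (L l453 (T t551 (L l28 (T t579 N))))))))⟩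
def e0_63_106__151_42_3 : Ent 4 := ⟨[a0, a63, a106], [a151, a42, a4], (M a48 (F (T t309 (L l163 (T t551 (L l28 (T t579 N)))))))⟩
def e0_63_106__151_42_4 : Ent 4 := ⟨[a0, a63, a106], [a151, a42, a5], (M a48 (F (L l47 (T t309 (L l163 (T t551 (L l28 (L l47 (T t579 N)))))))))⟩
def e0_63_106__151_42_5 : Ent 4 := ⟨[a0, a63, a106], [a151, a42, a6], (M a48 (F (T t309 (L l163 (T t551 (L l28 (T t579 N)))))))⟩
def e0_63_106__151_42_6 : Ent 4 := ⟨[a0, a63, a106], [a151, a42, a7], (M a48 (F (T t309 (L l163 (T t551 (L l28 (T t579 N)))))))⟩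
def e0_63_106__151_42_7 : Ent 4 := ⟨[a0, a63, a106], [a151, a42, a8], (M a48 (L l56 (F (T t309 (L l163 (T t551 (L l28 (T t579 (K a25 (M a59 (F (T t3405 (L l26 (L l316 (L l493 (T t6445 N))))))) (K a59 (M a25 (F (T t3405 (L l163 (T t551 (L l28 (T t579 N))))))) N))))))))))⟩
def e0_63_106__151_42_8 : Ent 4 := ⟨[a0, a63, a106], [a151, a42, a9], (M a48 (F (T t309 (L l163 (T t551 (L l28 (T t579 N)))))))⟩
def e0_63_106__151_42_9 : Ent 4 := ⟨[a0, a63, a106], [a151, a42, a10], (M a48 (L l54 (F (L l318 (T t309 (L l163 (T t551 (L l28 (L l318 (T t579 (K a26 (Fr a58 a53 l38 (V t6446)) (K a58 (M a26 (F (L l28 (T t4144 (L l163 (T t551 (L l28 (L l373 (L l426 (T t6447 (K a32 (Fr a192 a149 l519 (Fr a15 a37 l75 (Fr a47 a31 l61 (V t6528)))) N))))))))))) N))))))))))))⟩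
def e0_63_106__151_42_10 : Ent 4 := ⟨[a0, a63, a106], [a151, a42, a11], (M a48 (F (T t309 (L l163 (T t551 (L l28 (T t579 N)))))))⟩
def e0_63_106__151_42_11 : Ent 4 := ⟨[a0, a63, a106], [a151, a42, a12], (M a48 (F (T t585 (L l163 (L l478 (T t551 (L l28 (T t579 N))))))))⟩
def e0_63_106__151_42_12 : Ent 4 := ⟨[a0, a63, a106], [a151, a42, a13], (M a48 (F (T t309 (L l163 (T t551 (L l28 (T t579 N)))))))⟩
def e0_63_106__151_42_13 : Ent 4 := ⟨[a0, a63, a106], [a151, a42, a14], (M a48 (F (T t309 (L l163 (T t551 (L l28 (T t579 N)))))))⟩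
def e0_63_106__151_42_14 : Ent 4 := ⟨[a0, a63, a106], [a151, a42, a15], (M a48 (F (T t585 (L l163 (L l483 (T t551 (L l28 (T t579 N))))))))⟩
def e0_63_106__151_42_15 : Ent 4 := ⟨[a0, a63, a106], [a151, a42, a20], (M a48 (F (T t309 (L l163 (T t551 (L l28 (T t579 N)))))))⟩
def e0_63_106__151_42_16 : Ent 4 := ⟨[a0, a63, a106], [a151, a42, a21], (M a48 (F (L l47 (T t309 (L l163 (L l347 (T t551 (L l28 (L l47 (T t579 N))))))))))⟩
def e0_63_106__151_42_17 : Ent 4 := ⟨[a0, a63, a106], [a151, a42, a22], (M a48 (L l66 (F (T t309 (L l163 (T t551 (L l28 (T t579 (K a2 (M a62 (F (T t3405 (L l22 (L l306 (L l349 (T t5926 N))))))) (K a62 (M a2 (F (T t3405 (L l19 (L l28 (T t342 N)))))) N))))))))))⟩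
def e0_63_106__151_42_18 : Ent 4 := ⟨[a0, a63, a106], [a151, a42, a23], (M a48 (L l349 (F (T t309 (L l163 (L l351 (T t551 (L l28 (T t579 (K a87 (M a215 (F (T t3405 (L l163 (L l351 (T t551 (L l28 (L l367 (T t579 N))))))))) (K a215 (M a87 (F (T t3405 (L l163 (L l351 (T t551 (L l28 (L l245 (T t579 N))))))))) N)))))))))))⟩
def e0_63_106__151_42_19 : Ent 4 := ⟨[a0, a63, a106], [a151, a42, a24], (M a48 (F (T t309 (L l163 (T t551 (L l28 (T t579 N)))))))⟩
def e0_63_106__151_42_20 : Ent 4 := ⟨[a0, a63, a106], [a151, a42, a25], (M a48 (L l56 (F (T t309 (L l163 (T t551 (L l28 (T t579 (K a8 (M a59 (F (T t3405 (L l26 (L l316 (L l493 (T t6445 N))))))) (K a59 (M a8 (F (T t3405 (L l19 (L l28 (T t4700 N)))))) N))))))))))⟩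
def e0_63_106__151_42_21 : Ent 4 := ⟨[a0, a63, a106], [a151, a42, a26], (M a48 (L l54 (F (T t309 (L l28 (T t579 (L l163 (T t551 (K a10 (Fr a58 a53 l38 (V t6446)) (K a58 (M a10 (F (L l163 (T t4033 (L l18 (L l373 (L l426 (T t6450 (L l163 (T t551 (L l18 (L l169 (L l354 (L l373 (T t6449 N))))))))))))))) N))))))))))⟩
def e0_63_106__151_42_22 : Ent 4 := ⟨[a0, a63, a106], [a151, a42, a27], (M a48 (F (T t309 (L l163 (T t551 (L l28 (T t579 N)))))))⟩
def e0_63_106__151_42_23 : Ent 4 := ⟨[a0, a63, a106], [a151, a42, a28], (M a48 (F (T t309 (L l163 (T t551 (L l28 (L l362 (T t579 N))))))))⟩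
def e0_63_106__151_42_24 : Ent 4 := ⟨[a0, a63, a106], [a151, a42, a29], (M a48 (F (T t309 (L l163 (L l371 (T t551 (L l28 (T t579 N))))))))⟩
def e0_63_106__151_42_25 : Ent 4 := ⟨[a0, a63, a106], [a151, a42, a30], (M a48 (F (T t309 (L l163 (T t551 (L l28 (T t579 N)))))))⟩
def e0_63_106__151_42_26 : Ent 4 := ⟨[a0, a63, a106], [a151, a42, a31], (M a48 (L l373 (F (T t309 (L l163 (L l375 (T t551 (L l28 (L l361 (T t579 (K a211 (M a91 (F (T t3405 (L l163 (L l375 (T t551 (L l28 (L l245 (L l361 (T t579 N)))))))))) (K a91 (M a211 (F (T t3405 (L l163 (L l375 (T t551 (L l28 (L l361 (T t579 N))))))))) N))))))))))))⟩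
def e0_63_106__151_42_27 : Ent 4 := ⟨[a0, a63, a106], [a151, a42, a40], (M a48 (L l22 (F (T t309 (L l163 (T t551 (L l24 (L l28 (T t579 (K a41 (M a43 (F (T t3405 (L l66 (L l349 (L l388 (T t6451 N))))))) (K a43 (M a41 (F (T t3405 (L l163 (T t551 (L l24 (L l28 (T t579 N)))))))) N)))))))))))⟩
def e0_63_106__151_42_28 : Ent 4 := ⟨[a0, a63, a106], [a151, a42, a41], (M a48 (L l22 (F (T t309 (L l163 (T t551 (L l28 (T t579 (K a40 (M a43 (F (T t3405 (L l66 (L l349 (L l388 (T t6451 N))))))) (K a43 (M a40 (F (T t309 (L l29 (L l69 (T t6452 N)))))) N))))))))))⟩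
def e0_63_106__151_42_29 : Ent 4 := ⟨[a0, a63, a106], [a151, a42, a43], (M a48 (L l22 (F (T t309 (L l163 (T t551 (L l28 (T t579 (K a40 (M a41 (F (T t3405 (L l163 (T t551 (L l24 (L l28 (T t579 N)))))))) (K a41 (M a40 (F (T t309 (L l29 (L l69 (T t6452 N)))))) N))))))))))⟩
def e0_63_106__151_42_30 : Ent 4 := ⟨[a0, a63, a106], [a151, a42, a44], (M a48 (F (T t309 (L l163 (T t551 (L l24 (L l28 (T t579 N))))))))⟩
def e0_63_106__151_42_31 : Ent 4 := ⟨[a0, a63, a106], [a151, a42, a45], (M a48 (F (T t309 (L l163 (T t551 (L l28 (T t579 N)))))))⟩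
def e0_63_106__151_42_32 : Ent 4 := ⟨[a0, a63, a106], [a151, a42, a46], (M a48 (L l26 (F (T t309 (L l163 (T t551 (L l28 (T t579 (K a34 (M a38 (F (T t3405 (L l163 (T t551 (L l20 (L l28 (T t579 N)))))))) (K a38 (M a34 (F (T t309 (L l29 (L l66 (T t6453 N)))))) N))))))))))⟩
def e0_63_106__151_42_33 : Ent 4 := ⟨[a0, a63, a106], [a151, a42, a47], (M a12 (L l28 (F (T t2304 (L l163 (T t2305 (L l56 (T t2415 (K a32 (M a37 (F (T t6812 (L l163 (T t2305 (L l56 (T t2415 N))))))) (K a37 (M a32 (F (T t2304 (L l51 (L l56 (T t682 N)))))) N))))))))))⟩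
def e0_63_106__151_42_34 : Ent 4 := ⟨[a0, a63, a106], [a151, a42, a60], (M a48 (F (T t585 (L l163 (L l442 (T t551 (L l28 (T t579 N))))))))⟩
def e0_63_106__151_42_35 : Ent 4 := ⟨[a0, a63, a106], [a151, a42, a61], (M a48 (F (L l35 (T t309 (L l163 (L l515 (T t551 (L l28 (L l35 (T t579 N))))))))))⟩
def e0_63_106__151_42_36 : Ent 4 := ⟨[a0, a63, a106], [a151, a42, a62], (M a48 (L l66 (F (T t309 (L l163 (T t551 (L l28 (T t579 (K a2 (M a22 (F (T t3405 (L l163 (T t551 (L l28 (T t579 N))))))) (K a22 (M a2 (F (T t3405 (L l19 (L l28 (T t342 N)))))) N))))))))))⟩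
def e0_63_106__151_42_37 : Ent 4 := ⟨[a0, a63, a106], [a151, a42, a64], (M a48 (F (T t585 (L l28 (T t6454 (L l28 (L l163 (T t6455 (L l28 (T t6456 (L l28 (L l84 (T t6457 (L l54 (T t6458 (K a207 (Fr a192 a149 l519 (Fr a96 a144 l484 (Fr a101 a111 l104 (Fr a32 a16 l40 (V t6459))))) N))))))))))))))))⟩
def e0_63_106__151_42_38 : Ent 4 := ⟨[a0, a63, a106], [a151, a42, a65], (M a48 (F (T t309 (L l76 (L l163 (T t551 (L l28 (L l76 (T t579 N)))))))))⟩
def e0_63_106__151_42_39 : Ent 4 := ⟨[a0, a63, a106], [a151, a42, a66], (M a48 (F (T t304 (L l28 (L l76 (T t579 (L l76 (L l163 (T t551 N)))))))))⟩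
def e0_63_106__151_42_40 : Ent 4 := ⟨[a0, a63, a106], [a151, a42, a67], (M a48 (F (T t309 (L l76 (L l163 (T t551 (L l28 (L l76 (T t579 N)))))))))⟩
def e0_63_106__151_42_41 : Ent 4 := ⟨[a0, a63, a106], [a151, a42, a68], (M a48 (F (T t309 (L l80 (L l163 (T t551 (L l28 (L l80 (T t579 N)))))))))⟩
def e0_63_106__151_42_42 : Ent 4 := ⟨[a0, a63, a106], [a151, a42, a69], (M a48 (F (T t309 (L l84 (L l163 (T t551 (L l28 (L l84 (T t579 N)))))))))⟩
def e0_63_106__151_42_43 : Ent 4 := ⟨[a0, a63, a106], [a151, a42, a70], (M a48 (F (T t309 (L l163 (T t551 (L l28 (T t579 N)))))))⟩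
def e0_63_106__151_42_44 : Ent 4 := ⟨[a0, a63, a106], [a151, a42, a71], (M a48 (F (T t309 (L l163 (T t551 (L l28 (T t579 N)))))))⟩
def e0_63_106__151_42_45 : Ent 4 := ⟨[a0, a63, a106], [a151, a42, a72], (M a48 (F (T t304 (L l28 (L l80 (T t579 (L l80 (L l163 (T t551 N)))))))))⟩
def e0_63_106__151_42_46 : Ent 4 := ⟨[a0, a63, a106], [a151, a42, a73], (M a48 (F (T t309 (L l163 (T t551 (L l28 (T t579 N)))))))⟩
def e0_63_106__151_42_47 : Ent 4 := ⟨[a0, a63, a106], [a151, a42, a74], (M a48 (F (L l318 (T t304 (L l84 (L l163 (T t551 (L l28 (L l84 (L l318 (T t579 N)))))))))))⟩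
def e0_63_106__151_42_48 : Ent 4 := ⟨[a0, a63, a106], [a151, a42, a75], (M a48 (F (T t309 (L l163 (T t551 (L l28 (T t579 N)))))))⟩
def e0_63_106__151_42_49 : Ent 4 := ⟨[a0, a63, a106], [a151, a42, a76], (M a48 (F (T t309 (L l80 (L l163 (T t551 (L l28 (L l80 (T t579 N)))))))))⟩
def e0_63_106__151_42_50 : Ent 4 := ⟨[a0, a63, a106], [a151, a42, a77], (M a48 (F (T t309 (L l163 (T t551 (L l28 (T t579 N)))))))⟩
def e0_63_106__151_42_51 : Ent 4 := ⟨[a0, a63, a106], [a151, a42, a78], (M a48 (F (T t309 (L l163 (T t551 (L l28 (T t579 N)))))))⟩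
def e0_63_106__151_42_52 : Ent 4 := ⟨[a0, a63, a106], [a151, a42, a79], (M a48 (F (T t309 (L l84 (L l163 (T t551 (L l28 (L l84 (T t579 N)))))))))⟩
def e0_63_106__151_42_53 : Ent 4 := ⟨[a0, a63, a106], [a151, a42, a84], (M a48 (F (T t309 (L l140 (L l163 (T t551 (L l28 (L l140 (T t579 N)))))))))⟩
def e0_63_106__151_42_54 : Ent 4 := ⟨[a0, a63, a106], [a151, a42, a85], (M a48 (F (T t309 (L l163 (L l347 (T t551 (L l54 (T t777 (L l368 (T t6465 (K a192 (M a240 (F (T t6230 (L l236 (T t6471 (L l54 (L l236 (L l339 (T t6472 (L l339 (T t6473 N))))))))))) N)))))))))))⟩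
def e0_63_106__151_42_55 : Ent 4 := ⟨[a0, a63, a106], [a151, a42, a86], (M a48 (F (T t309 (L l163 (L l351 (T t551 (L l28 (T t579 N))))))))⟩
def e0_63_106__151_42_56 : Ent 4 := ⟨[a0, a63, a106], [a151, a42, a87], (M a48 (L l349 (F (T t309 (L l163 (T t551 (L l28 (L l367 (T t579 (K a23 (M a215 (F (T t3405 (L l163 (L l351 (T t551 (L l28 (L l367 (T t579 N))))))))) (K a215 (M a23 (F (T t3405 (L l22 (T t3181 N))))) N)))))))))))⟩
def e0_63_106__151_42_57 : Ent 4 := ⟨[a0, a63, a106], [a151, a42, a88], (M a48 (F (T t309 (L l163 (L l478 (T t551 (L l28 (T t579 N))))))))⟩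
def e0_63_106__151_42_58 : Ent 4 := ⟨[a0, a63, a106], [a151, a42, a89], (M a48 (F (T t309 (L l163 (L l371 (T t551 (L l28 (T t579 N))))))))⟩
def e0_63_106__151_42_59 : Ent 4 := ⟨[a0, a63, a106], [a151, a42, a90], (M a48 (F (T t309 (L l163 (L l375 (L l483 (T t551 (L l28 (T t579 N)))))))))⟩
def e0_63_106__151_42_60 : Ent 4 := ⟨[a0, a63, a106], [a151, a42, a91], (M a48 (L l373 (F (T t309 (L l163 (T t551 (L l28 (T t579 (K a211 (M a31 (F (L l28 (T t6495 (L l163 (T t307 N)))))) (K a31 (M a211 (F (T t3405 (L l163 (L l375 (T t551 (L l28 (L l361 (T t579 N))))))))) N))))))))))⟩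
def e0_63_106__151_42_61 : Ent 4 := ⟨[a0, a63, a106], [a151, a42, a92], (M a48 (F (T t309 (L l163 (T t551 (L l28 (T t579 N)))))))⟩
def e0_63_106__151_42_62 : Ent 4 := ⟨[a0, a63, a106], [a151, a42, a93], (M a48 (F (T t309 (L l163 (T t551 (L l28 (L l362 (T t579 N))))))))⟩
def e0_63_106__151_42_63 : Ent 4 := ⟨[a0, a63, a106], [a151, a42, a94], (M a48 (F (T t309 (L l163 (T t551 (L l28 (T t579 N)))))))⟩
def e0_63_106__151_42_64 : Ent 4 := ⟨[a0, a63, a106], [a151, a42, a95], (M a48 (F (T t309 (L l163 (T t551 (L l28 (L l361 (T t579 N))))))))⟩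
def e0_63_106__151_42_65 : Ent 4 := ⟨[a0, a63, a106], [a151, a42, a104], (M a48 (F (T t585 (L l100 (L l140 (L l163 (T t551 (L l28 (L l140 (T t579 N))))))))))⟩
def e0_63_106__151_42_66 : Ent 4 := ⟨[a0, a63, a106], [a151, a42, a105], (M a48 (F (T t309 (L l163 (L l515 (T t551 (L l28 (T t579 N))))))))⟩
def e0_63_106__151_42_67 : Ent 4 := ⟨[a0, a63, a106], [a151, a42, a107], (M a48 (F (T t309 (L l163 (T t551 (L l28 (T t579 N)))))))⟩
def e0_63_106__151_42_68 : Ent 4 := ⟨[a0, a63, a106], [a151, a42, a108], (M a48 (F (T t309 (L l100 (L l163 (T t551 (L l28 (T t579 N))))))))⟩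
def e0_63_106__151_42_69 : Ent 4 := ⟨[a0, a63, a106], [a151, a42, a109], (M a48 (F (T t309 (L l163 (T t551 (L l28 (T t579 N)))))))⟩
def e0_63_106__151_42_70 : Ent 4 := ⟨[a0, a63, a106], [a151, a42, a110], (M a48 (F (T t309 (L l163 (T t551 (L l28 (T t579 N)))))))⟩
def e0_63_106__151_42_71 : Ent 4 := ⟨[a0, a63, a106], [a151, a42, a111], (M a240 (F (T t4779 (L l163 (T t817 (L l137 (T t4781 N)))))))⟩
def e0_63_106__151_42_72 : Ent 4 := ⟨[a0, a63, a106], [a151, a42, a124], (M a48 (F (T t309 (L l140 (L l163 (T t551 (L l28 (L l140 (T t579 N)))))))))⟩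
def e0_63_106__151_42_73 : Ent 4 := ⟨[a0, a63, a106], [a151, a42, a125], (M a48 (F (T t309 (L l163 (T t551 (L l28 (T t579 N)))))))⟩
def e0_63_106__151_42_74 : Ent 4 := ⟨[a0, a63, a106], [a151, a42, a126], (M a48 (F (T t309 (L l163 (T t551 (L l28 (T t579 N)))))))⟩
def e0_63_106__151_42_75 : Ent 4 := ⟨[a0, a63, a106], [a151, a42, a127], (M a48 (F (T t309 (L l163 (T t551 (L l28 (T t6454 (L l28 (T t6479 N)))))))))⟩
def e0_63_106__151_42_76 : Ent 4 := ⟨[a0, a63, a106], [a151, a42, a128], (M a48 (F (T t585 (L l28 (T t579 (L l163 (L l192 (L l220 (T t6480 (L l54 (L l160 (T t6481 N))))))))))))⟩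
def e0_63_106__151_42_77 : Ent 4 := ⟨[a0, a63, a106], [a151, a42, a129], (M a48 (F (T t304 (L l28 (T t579 (L l163 (L l217 (T t551 N))))))))⟩
def e0_63_106__151_42_78 : Ent 4 := ⟨[a0, a63, a106], [a151, a42, a130], (M a48 (F (T t309 (L l163 (T t551 (L l28 (T t579 N)))))))⟩
def e0_63_106__151_42_79 : Ent 4 := ⟨[a0, a63, a106], [a151, a42, a131], (M a48 (L l219 (F (T t309 (L l163 (L l197 (T t551 (L l28 (T t579 (K a171 (M a191 (F (T t7348 (L l197 (T t7349 (L l163 (T t307 N))))))) (K a191 (M a171 (F (T t3405 (L l163 (L l190 (L l197 (L l220 (T t551 (L l28 (T t6498 (L l28 (T t6499 N)))))))))))) N)))))))))))⟩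
def e0_63_106__151_42_80 : Ent 4 := ⟨[a0, a63, a106], [a151, a42, a132], (M a48 (F (T t304 (L l28 (T t579 (L l163 (L l202 (T t551 N))))))))⟩
def e0_63_106__151_42_81 : Ent 4 := ⟨[a0, a63, a106], [a151, a42, a133], (M a48 (F (T t585 (L l163 (L l199 (T t551 (L l28 (T t579 N))))))))⟩
def e0_63_106__151_42_82 : Ent 4 := ⟨[a0, a63, a106], [a151, a42, a134], (M a48 (F (T t309 (L l163 (T t551 (L l28 (T t579 N)))))))⟩
def e0_63_106__151_42_83 : Ent 4 := ⟨[a0, a63, a106], [a151, a42, a135], (M a48 (L l201 (F (T t309 (L l163 (T t551 (L l28 (T t579 (K a167 (M a183 (F (T t3405 (L l337 (T t7433 N))))) (K a183 (M a167 (F (T t3405 (L l163 (L l202 (T t551 (L l28 (T t579 N)))))))) N))))))))))⟩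
def e0_63_106__151_42_84 : Ent 4 := ⟨[a0, a63, a106], [a151, a42, a136], (M a48 (F (T t309 (L l163 (T t551 (L l28 (T t579 N)))))))⟩
def e0_63_106__151_42_85 : Ent 4 := ⟨[a0, a63, a106], [a151, a42, a137], (M a48 (F (T t309 (L l163 (T t551 (L l28 (T t579 N)))))))⟩
def e0_63_106__151_42_86 : Ent 4 := ⟨[a0, a63, a106], [a151, a42, a138], (M a48 (F (L l318 (T t309 (L l163 (T t551 (L l28 (L l318 (T t579 N)))))))))⟩
def e0_63_106__151_42_87 : Ent 4 := ⟨[a0, a63, a106], [a151, a42, a139], (M a48 (F (T t309 (L l163 (T t551 (L l28 (T t579 N)))))))⟩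
def e0_63_106__151_42_88 : Ent 4 := ⟨[a0, a63, a106], [a151, a42, a140], (M a48 (F (T t309 (L l163 (L l222 (T t551 (L l28 (T t579 N))))))))⟩
def e0_63_106__151_42_89 : Ent 4 := ⟨[a0, a63, a106], [a151, a42, a141], (M a48 (F (T t309 (L l163 (T t551 (L l28 (T t579 N)))))))⟩
def e0_63_106__151_42_90 : Ent 4 := ⟨[a0, a63, a106], [a151, a42, a142], (M a48 (F (T t309 (L l163 (T t551 (L l28 (T t579 N)))))))⟩
def e0_63_106__151_42_91 : Ent 4 := ⟨[a0, a63, a106], [a151, a42, a143], (M a48 (F (T t309 (L l28 (L l163 (T t6462 (L l28 (T t579 N))))))))⟩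
def e0_63_106__151_42_92 : Ent 4 := ⟨[a0, a63, a106], [a151, a42, a148], (M a240 (L l163 (F (L l28 (T t6587 (T t4781 (L l216 (L l514 (T t6859 (K a181 (M a150 (F (L l199 (T t817 (L l22 (L l349 (L l443 (T t6858 (L l28 (L l201 (L l443 (T t7653 N)))))))))))) (K a74 (Fr a149 a192 l519 (Fr a181 a122 l447 (Fr a165 a133 l199 (Fr a15 a90 l483 (V t6515))))) (K a122 (M a150 (F (T t817 (L l108 (L l201 (T t7654 (L l22 (L l114 (L l349 (T t7655 N)))))))))) (K a149 (M a150 (F (L l199 (T t7656 (L l22 (L l349 (L l515 (T t6858 (L l199 (T t4781 N)))))))))) (K a150 (Fr a149 a192 l519 (V t7317)) N))))))))))))))⟩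
def e0_63_106__151_42_93 : Ent 4 := ⟨[a0, a63, a106], [a151, a42, a149], (M a48 (L l163 (F (L l28 (L l491 (T t579 (L l170 (L l220 (L l491 (T t6465 (L l170 (L l220 (L l491 (T t7657 (L l28 (L l491 (T t6499 (L l28 (L l491 (T t553 (K a197 (M a101 (L l163 (F (T t6740 (T t7658 (K a148 (M a150 (F (T t6622 (L l229 (L l493 (T t3190 N)))))) (K a150 (M a148 (F (T t6740 (T t7658 N)))) N))))))) (K a101 (M a60 (L l163 (L l491 (F (T t880 (L l54 (L l66 (L l509 (T t70 (L l22 (L l349 (L l515 (T t2369 (K a148 (M a150 (L l491 (F (T t7659 (L l22 (L l349 (T t1135 (K a197 (Fr a53 a58 l38 (V t7659)) (K a53 (M a197 (F (T t7659 (L l22 (L l28 (L l370 (L l404 (T t248 N)))))))) N))))))))) (K a197 (Fr a53 a58 l38 (V t7660)) (K a53 (M a197 (L l163 (F (T t880 (L l22 (L l35 (L l349 (L l515 (T t2369 (L l31 (L l35 (L l101 (L l494 (L l515 (T t7661 (K a148 (M a150 (F (T t7659 (L l22 (L l28 (L l370 (L l404 (T t248 N)))))))) (K a150 (M a148 (L l494 (F (L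 l22 (T t247 (L l47 (T t7662 (K a52 (M a199 (L l31 (F (L l221 (T t7663 (L l495 (T t7664 (L l22 (L l28 (L l170 (L l351 (L l404 (T t7665 (K a54 (M a55 (L l492 (F (T t7664 (L l26 (L l28 (L l56 (L l404 (T t7666 (K a198 (M a102 (F (L l167 (T t7667 (L l22 (L l221 (L l351 (T t7668 N)))))))) (K a102 (Fr a198 a196 l229 (V t7669)) N))))))))))) (K a55 (M a54 (L l495 (F (L l35 (L l54 (L l515 (T t7670 (L l22 (L l221 (L l351 (T t7668 (K a196 (M a102 (F (L l35 (L l54 (L l515 (T t7670 (L l22 (L l221 (L l274 (L l351 (T t7668 N))))))))))) (K a102 (Fr a196 a198 l229 (V t7670)) N))))))))))))) N))))))))))))))) (K a199 (Fr a52 a56 l34 (V t7671)) N))))))))) N))))))))))))))))) (K a150 (M a148 (L l491 (L l494 (F (L l22 (T t247 (L l54 (L l66 (L l509 (T t70 (L l22 (L l221 (L l351 (T t7668 (K a52 (M a199 (L l491 (F (L l221 (T t7663 (L l151 (L l170 (L l220 (T t7672 (L l22 (L l28 (L l170 (L l351 (L l404 (T t7665 (K a197 (Fr a53 a58 l38 (V t7668))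 (K a53 (M a197 (L l31 (F (L l221 (T t7663 (L l495 (T t7664 (L l22 (L l28 (L l170 (L l351 (L l404 (T t7665 (K a54 (M a55 (L l492 (F (T t7664 (L l26 (L l28 (L l56 (L l404 (T t7666 (K a198 (M a102 (F (L l167 (T t7667 (L l22 (L l221 (L l351 (T t7668 N)))))))) (K a102 (Fr a198 a196 l229 (V t7669)) N))))))))))) (K a55 (M a54 (L l495 (F (L l35 (L l54 (L l515 (T t7670 (L l22 (L l221 (L l351 (T t7668 (K a196 (M a102 (F (L l35 (L l54 (L l515 (T t7670 (L l22 (L l221 (L l274 (L l351 (T t7668 N))))))))))) (K a102 (Fr a196 a198 l229 (V t7670)) N))))))))))))) N))))))))))))))) N))))))))))))))))) (K a197 (Fr a53 a58 l38 (V t7660)) (K a53 (M a197 (L l494 (F (L l22 (T t247 (L l47 (T t7662 (K a52 (M a199 (L l31 (F (L l221 (T t7663 (L l495 (T t7664 (L l22 (L l28 (L l170 (L l351 (L l404 (T t7665 (K a54 (M a55 (L l492 (F (T t7664 (L l26 (L l28 (L l56 (L l404 (T t7666 (K a198 (M a102 (F (L l167 (T t7667 (L l22 (L l221 (L l351 (T t7668 N))))))))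 (K a102 (Fr a198 a196 l229 (V t7669)) N))))))))))) (K a55 (M a54 (L l495 (F (L l35 (L l54 (L l515 (T t7670 (L l22 (L l221 (L l351 (T t7668 (K a196 (M a102 (F (L l35 (L l54 (L l515 (T t7670 (L l22 (L l221 (L l274 (L l351 (T t7668 N))))))))))) (K a102 (Fr a196 a198 l229 (V t7670)) N))))))))))))) N))))))))))))))) (K a199 (Fr a52 a56 l34 (V t7671)) N))))))))) (K a199 (Fr a52 a56 l34 (V t7671)) N)))))))))))))))))) N))))))))))))))))) (K a53 (M a101 (L l163 (F (T t6622 (L l419 (T t2197 (L l220 (T t7673 (K a148 (M a150 (F (T t6622 (L l493 (T t3190 N))))) (K a150 (M a148 (F (T t6622 (L l28 (T t2198 (T t7658 N)))))) N)))))))))) (K a202 (M a64 (L l163 (F (L l170 (L l220 (T t363 (L l28 (L l491 (T t7674 (L l219 (L l220 (L l347 (T t6464 (L l28 (L l236 (T t7675 (K a148 (M a150 (F (L l170 (T t7676 (L l56 (L l234 (L l490 (L l491 (L l515 (T t7677 (L l166 (L l170 (L l216 (L l220 (T t363 N))))))))))))))) (K a150 (M a148 (F (L l220 (L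 l518 (T t7678 (L l28 (L l491 (L l494 (T t7674 (L l28 (L l236 (T t7675 N)))))))))))) N)))))))))))))))))) (K a154 (M a96 (L l163 (L l170 (F (L l368 (T t7679 (L l368 (T t7680 (L l28 (L l375 (T t7681 (L l28 (L l206 (L l220 (L l368 (T t7682 (K a16 (Fr a111 a101 l104 (Fr a192 a144 l484 (Fr a159 a207 l505 (V t7731)))) (K a32 (Fr a111 a101 l104 (Fr a192 a144 l484 (Fr a159 a207 l505 (V t7732)))) (K a144 (M a159 (L l163 (F (T t7685 (L l206 (L l220 (L l340 (L l354 (L l368 (L l375 (T t7686 (L l192 (L l199 (L l227 (L l340 (L l368 (L l373 (L l375 (T t7687 (K a148 (M a150 (L l166 (F (T t7685 (L l22 (L l349 (L l515 (T t6858 (K a152 (M a156 (L l164 (F (T t7685 (L l22 (L l349 (L l515 (T t6858 (K a153 (M a155 (L l167 (F (T t7685 (L l22 (L l349 (L l515 (T t6858 (K a145 (Fr a157 a158 l165 (V t7685)) (K a157 (M a145 (F (T t7685 (L l22 (L l349 (L l503 (L l515 (T t6858 N)))))))) N)))))))))) (K a155 (Fr a153 a147 l171 (V t7685)) N))))))))))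 (K a156 (M a152 (F (T t7685 (L l28 (L l209 (L l358 (T t7688 N))))))) N)))))))))) (K a150 (M a148 (L l168 (F (T t7685 (L l206 (L l218 (L l220 (L l340 (L l354 (L l368 (L l372 (L l375 (T t7686 (L l192 (L l199 (L l203 (L l227 (L l340 (L l368 (L l373 (L l375 (T t7687 (K a146 (M a158 (L l162 (F (T t7685 (L l164 (L l171 (L l494 (T t7689 (L l171 (T t7690 (K a145 (M a147 (L l167 (F (T t7685 (L l164 (L l494 (T t7689 (L l518 (T t7691 (K a153 (Fr a157 a156 l165 (V t7685)) (K a157 (M a153 (F (T t7685 (L l26 (L l359 (L l493 (L l495 (T t6669 N)))))))) N))))))))))) (K a147 (M a145 (L l171 (F (T t7685 (L l192 (L l220 (L l340 (L l344 (L l368 (L l487 (L l492 (L l495 (L l510 (T t7692 (K a156 (M a153 (F (T t7685 (L l493 (L l495 (L l502 (T t7693 N))))))) (K a153 (Fr a156 a157 l165 (V t7685)) N)))))))))))))))) N)))))))))))) (K a158 (M a146 (F (T t7685 (L l28 (L l224 (L l373 (L l374 (T t7694 N)))))))) N)))))))))))))))))))))))) N)))))))))))))))))))))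 (K a148 (M a150 (L l170 (F (L l368 (T t7695 (L l56 (L l490 (L l491 (L l515 (T t7677 (K a144 (M a159 (L l166 (F (T t7685 (L l22 (L l349 (L l515 (T t6858 (K a152 (M a156 (L l164 (F (T t7685 (L l22 (L l349 (L l515 (T t6858 (K a153 (M a155 (L l167 (F (T t7685 (L l22 (L l349 (L l515 (T t6858 (K a145 (Fr a157 a158 l165 (V t7685)) (K a157 (M a145 (F (T t7685 (L l22 (L l349 (L l503 (L l515 (T t6858 N)))))))) N)))))))))) (K a155 (Fr a153 a147 l171 (V t7685)) N)))))))))) (K a156 (M a152 (F (T t7685 (L l28 (L l209 (L l358 (T t7688 N))))))) N)))))))))) (K a159 (Fr a144 a192 l484 (V t7696)) N)))))))))))) (K a150 (M a148 (L l168 (L l170 (F (L l368 (T t7679 (L l368 (T t7680 (L l28 (L l375 (T t4799 (L l28 (L l206 (L l218 (L l220 (L l368 (T t7682 (K a16 (Fr a111 a101 l104 (Fr a192 a144 l484 (Fr a159 a207 l505 (V t7733)))) (K a32 (Fr a111 a101 l104 (Fr a192 a144 l484 (Fr a159 a207 l505 (V t7733)))) (K a144 (M a159 (L l168 (F (T t7685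 (L l206 (L l218 (L l220 (L l340 (L l354 (L l368 (L l372 (L l375 (T t7686 (L l192 (L l199 (L l203 (L l227 (L l340 (L l368 (L l373 (L l375 (T t7687 (K a146 (M a158 (L l162 (F (T t7685 (L l164 (L l171 (L l494 (T t7689 (L l171 (T t7690 (K a145 (M a147 (L l167 (F (T t7685 (L l164 (L l494 (T t7689 (L l518 (T t7691 (K a153 (Fr a157 a156 l165 (V t7685)) (K a157 (M a153 (F (T t7685 (L l26 (L l359 (L l493 (L l495 (T t6669 N)))))))) N))))))))))) (K a147 (M a145 (L l171 (F (T t7685 (L l192 (L l220 (L l340 (L l344 (L l368 (L l487 (L l492 (L l495 (L l510 (T t7692 (K a156 (M a153 (F (T t7685 (L l493 (L l495 (L l502 (T t7693 N))))))) (K a153 (Fr a156 a157 l165 (V t7685)) N)))))))))))))))) N)))))))))))) (K a158 (M a146 (F (T t7685 (L l28 (L l224 (L l373 (L l374 (T t7694 N)))))))) N)))))))))))))))))))))))) (K a146 (M a158 (L l170 (F (L l167 (L l491 (L l494 (T t7698 (L l220 (L l344 (L l368 (T t7699 (L l28 (L l206 (L l218 (L l220 (L l344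 (L l368 (T t7682 (K a144 (M a159 (L l162 (F (T t7685 (L l164 (L l171 (L l494 (T t7689 (L l171 (T t7690 (K a145 (M a147 (L l167 (F (T t7685 (L l164 (L l494 (T t7689 (L l518 (T t7691 (K a153 (Fr a157 a156 l165 (V t7685)) (K a157 (M a153 (F (T t7685 (L l26 (L l359 (L l493 (L l495 (T t6669 N)))))))) N))))))))))) (K a147 (M a145 (L l171 (F (T t7685 (L l192 (L l220 (L l340 (L l344 (L l368 (L l487 (L l492 (L l495 (L l510 (T t7692 (K a156 (M a153 (F (T t7685 (L l493 (L l495 (L l502 (T t7693 N))))))) (K a153 (Fr a156 a157 l165 (V t7685)) N)))))))))))))))) N)))))))))))) (K a159 (Fr a144 a192 l484 (V t7696)) N)))))))))))))))))))) (K a158 (M a146 (L l170 (F (L l368 (T t7700 (L l492 (L l495 (L l506 (L l510 (L l518 (T t7701 (K a144 (M a159 (F (T t7685 (L l28 (L l224 (L l373 (L l374 (T t7694 N)))))))) (K a159 (Fr a144 a192 l484 (V t7696)) N))))))))))))) (K a159 (Fr a144 a192 l484 (V t7696)) N))))))))))))))))))))))) (K a159 (Fr a144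 a192 l484 (V t7702)) N)))))))))))))))))))))) (K a58 (M a64 (L l54 (L l163 (F (L l170 (L l220 (T t363 (L l28 (T t7703 (L l220 (L l426 (T t7704 (L l220 (T t7705 (L l28 (T t7675 (K a148 (M a150 (L l54 (F (L l28 (T t7703 (L l32 (L l493 (L l515 (T t7345 (L l36 (L l66 (L l216 (L l220 (L l349 (L l515 (T t7706 (K a10 (M a26 (F (L l28 (L l347 (T t4144 (L l32 (L l493 (L l515 (T t7345 N))))))))) (K a26 (M a10 (F (L l28 (T t7703 (L l36 (L l66 (L l216 (L l220 (L l349 (L l515 (T t7706 (L l32 (L l57 (L l493 (L l515 (T t7345 N)))))))))))))))) N)))))))))))))))))) (K a150 (M a148 (L l54 (F (L l220 (L l518 (T t7678 (L l28 (T t7703 (L l28 (T t7675 (K a10 (M a26 (F (L l28 (L l347 (T t4144 (L l220 (L l518 (T t7678 N)))))))) (K a26 (M a10 (F (L l220 (L l518 (T t7678 (L l28 (T t7703 (L l28 (T t7675 N))))))))) N)))))))))))) (K a10 (M a26 (L l163 (F (L l28 (L l347 (T t4144 (L l170 (L l220 (T t7707 (L l170 (L l220 (T t363 (K a148 (M a150 (F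 (L l28 (L l347 (T t4144 (L l32 (L l493 (L l515 (T t7345 N))))))))) (K a150 (M a148 (F (L l28 (L l347 (T t4144 (L l220 (L l518 (T t7678 N)))))))) N)))))))))))))) (K a26 (M a10 (L l163 (F (L l170 (L l220 (T t363 (L l199 (L l220 (T t7527 (L l28 (T t7703 (L l28 (T t7675 (K a148 (M a150 (F (L l28 (T t7703 (L l36 (L l66 (L l216 (L l220 (L l349 (L l515 (T t7706 (L l32 (L l57 (L l493 (L l515 (T t7345 N)))))))))))))))) (K a150 (M a148 (F (L l220 (L l518 (T t7678 (L l28 (T t7703 (L l28 (T t7675 N))))))))) N))))))))))))))) N)))))))))))))))))))) (K a148 (M a150 (F (L l493 (L l515 (T t7345 (L l28 (L l491 (T t579 (L l22 (L l349 (L l515 (T t6858 N)))))))))))) (K a150 (M a148 (F (L l28 (L l491 (T t579 (L l170 (L l220 (L l491 (T t6465 (L l170 (L l220 (L l491 (T t7657 (L l28 (L l491 (T t6499 (L l28 (L l491 (T t553 (K a197 (M a101 (F (T t6740 (T t7658 N)))) (K a101 (M a52 (L l491 (F (L l495 (T t7708 (L l22 (T t82 (L l127 (L l495 (T t7709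 (K a197 (Fr a53 a58 l38 (V t7710)) (K a53 (M a197 (F (L l495 (T t7711 (L l22 (T t82 (L l127 (L l495 (T t7709 N))))))))) N)))))))))))) (K a53 (M a101 (F (T t6622 (L l28 (T t2198 (T t7658 N)))))) (K a202 (M a64 (F (L l220 (L l518 (T t7678 (L l28 (L l491 (L l494 (T t7674 (L l28 (L l236 (T t7675 N)))))))))))) (K a154 (M a144 (L l168 (F (L l171 (T t7712 (L l28 (L l227 (L l375 (T t7713 (L l28 (L l171 (L l351 (T t7714 (K a146 (M a158 (F (L l28 (L l375 (T t7715 (L l164 (L l169 (T t7716 N)))))))) (K a158 (M a146 (F (L l224 (T t7717 (L l165 (L l171 (L l495 (T t7718 N)))))))) N))))))))))))))) (K a58 (M a64 (L l54 (F (L l220 (L l518 (T t7678 (L l28 (T t7703 (L l28 (T t7675 (K a10 (M a26 (F (L l28 (L l347 (T t4144 (L l220 (L l518 (T t7678 N)))))))) (K a26 (M a10 (F (L l220 (L l518 (T t7678 (L l28 (T t7703 (L l28 (T t7675 N))))))))) N)))))))))))) N))))))))))))))))))))))))) N))))))))))))))))))))))))))))⟩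
def e0_63_106__151_42_94 : Ent 4 := ⟨[a0, a63, a106], [a151, a42, a150], (M a85 (L l163 (F (T t5958 (T t3095 (K a64 (M a48 (L l163 (F (T t309 (L l218 (T t50 (L l84 (L l218 (T t873 (K a148 (Fr a149 a192 l519 (V t7013)) (K a149 (M a148 (F (L l28 (T t6628 (L l218 (L l220 (T t50 (L l28 (T t99 N))))))))) N))))))))))) (K a127 (M a101 (L l163 (F (L l218 (T t3928 (L l203 (T t7719 (L l168 (L l169 (T t7720 (K a148 (Fr a149 a192 l519 (V t7721)) (K a149 (M a148 (F (L l114 (T t7722 (L l28 (L l218 (L l220 (T t7723 (L l168 (L l170 (T t7724 N))))))))))) N)))))))))))) (K a148 (Fr a149 a192 l519 (V t3095)) (K a149 (M a148 (F (T t3095 (L l221 (L l349 (T t7725 (K a64 (M a48 (F (L l28 (T t6628 (L l218 (L l220 (T t50 (L l28 (T t99 N))))))))) (K a127 (M a84 (F (L l518 (T t7726 (L l143 (L l217 (L l221 (L l349 (T t7727 (L l22 (L l66 (L l143 (L l349 (L l351 (L l515 (T t7728 N)))))))))))))))) N)))))))) N)))))))))⟩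
def e0_63_106__151_42_95 : Ent 4 := ⟨[a0, a63, a106], [a151, a42, a152], (M a48 (F (T t304 (L l28 (T t579 (L l163 (L l222 (T t551 N))))))))⟩
def e0_63_106__151_42_96 : Ent 4 := ⟨[a0, a63, a106], [a151, a42, a153], (M a48 (F (T t309 (L l163 (L l167 (T t551 (L l28 (T t579 N))))))))⟩
def e0_63_106__151_42_97 : Ent 4 := ⟨[a0, a63, a106], [a151, a42, a154], (M a240 (F (T t4779 (L l163 (L l170 (L l368 (L l512 (T t817 (T t4781 N)))))))))⟩
def e0_63_106__151_42_98 : Ent 4 := ⟨[a0, a63, a106], [a151, a42, a155], (M a48 (L l169 (F (T t309 (L l163 (T t551 (L l28 (L l367 (T t579 (K a147 (M a159 (F (T t7729 (L l163 (T t551 N))))) (K a159 (M a147 (F (L l511 (T t304 (L l28 (L l361 (L l367 (T t579 (L l163 (L l170 (T t551 (K a154 (Fr a192 a149 l519 (Fr a144 a96 l484 (V t7734))) N)))))))))))) N)))))))))))⟩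
def e0_63_106__151_42_99 : Ent 4 := ⟨[a0, a63, a106], [a151, a42, a156], (M a48 (F (T t304 (L l28 (T t579 (L l163 (T t551 N)))))))⟩
def e0_63_106__151_42_100 : Ent 4 := ⟨[a0, a63, a106], [a151, a42, a157], (M a48 (F (T t309 (L l163 (L l167 (T t551 (L l28 (T t579 N))))))))⟩
def e0_63_106__151_42_101 : Ent 4 := ⟨[a0, a63, a106], [a151, a42, a158], (M a48 (F (T t309 (L l163 (T t551 (L l28 (L l362 (T t579 N))))))))⟩
def e0_63_106__151_42_102 : Ent 4 := ⟨[a0, a63, a106], [a151, a42, a159], (M a240 (L l169 (F (T t4779 (L l163 (L l170 (T t817 (L l361 (T t4781 (K a147 (M a155 (F (T t7478 (L l163 (L l170 (T t817 (L l361 (T t4781 N)))))))) (K a155 (M a147 (F (T t7478 (L l163 (L l170 (T t817 (L l361 (T t4781 N)))))))) N)))))))))))⟩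
def e0_63_106__151_42_103 : Ent 4 := ⟨[a0, a63, a106], [a151, a42, a168], (M a48 (F (T t309 (L l163 (T t551 (L l28 (L l400 (T t579 N))))))))⟩
def e0_63_106__151_42_104 : Ent 4 := ⟨[a0, a63, a106], [a151, a42, a169], (M a48 (F (T t309 (L l163 (L l217 (T t551 (L l28 (T t579 N))))))))⟩
def e0_63_106__151_42_105 : Ent 4 := ⟨[a0, a63, a106], [a151, a42, a170], (M a48 (F (T t309 (L l163 (L l220 (T t551 (L l28 (L l206 (L l219 (L l220 (L l404 (T t552 (L l28 (L l206 (L l404 (T t553 N))))))))))))))))⟩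
def e0_63_106__151_42_106 : Ent 4 := ⟨[a0, a63, a106], [a151, a42, a171], (M a48 (L l219 (F (T t309 (L l163 (T t551 (L l28 (T t579 (K a131 (M a191 (F (T t7348 (L l197 (T t7349 (L l163 (T t307 N))))))) (K a191 (M a131 (F (T t3405 (L l163 (L l190 (L l220 (T t551 (L l28 (L l475 (T t6498 (L l28 (T t6499 N)))))))))))) N))))))))))⟩
def e0_63_106__151_42_107 : Ent 4 := ⟨[a0, a63, a106], [a151, a42, a172], (M a48 (F (T t309 (L l163 (T t551 (L l28 (T t579 N)))))))⟩
def e0_63_106__151_42_108 : Ent 4 := ⟨[a0, a63, a106], [a151, a42, a173], (M a48 (F (T t309 (L l163 (T t551 (L l28 (T t579 N)))))))⟩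
def e0_63_106__151_42_109 : Ent 4 := ⟨[a0, a63, a106], [a151, a42, a174], (M a48 (F (T t309 (L l163 (T t551 (L l28 (T t579 N)))))))⟩
def e0_63_106__151_42_110 : Ent 4 := ⟨[a0, a63, a106], [a151, a42, a175], (M a48 (F (T t309 (L l163 (T t551 (L l28 (T t579 N)))))))⟩
def e0_63_106__151_42_111 : Ent 4 := ⟨[a0, a63, a106], [a151, a42, a188], (M a48 (F (T t309 (L l163 (L l186 (T t551 (L l28 (T t579 N))))))))⟩
def e0_63_106__151_42_112 : Ent 4 := ⟨[a0, a63, a106], [a151, a42, a189], (M a48 (F (T t309 (L l163 (L l217 (T t551 (L l28 (T t579 N))))))))⟩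
def e0_63_106__151_42_113 : Ent 4 := ⟨[a0, a63, a106], [a151, a42, a190], (M a48 (F (T t309 (L l163 (T t551 (L l28 (T t579 N)))))))⟩
def e0_63_106__151_42_114 : Ent 4 := ⟨[a0, a63, a106], [a151, a42, a191], (M a48 (L l219 (F (T t309 (L l163 (L l190 (L l220 (T t551 (L l28 (T t6498 (L l28 (T t6499 (K a131 (M a171 (F (T t3405 (L l163 (L l190 (L l197 (L l220 (T t551 (L l28 (T t6498 (L l28 (T t6499 N)))))))))))) (K a171 (M a131 (F (T t3405 (L l163 (L l190 (L l220 (T t551 (L l28 (L l475 (T t6498 (L l28 (T t6499 N)))))))))))) N))))))))))))))⟩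
def e0_63_106__151_42_115 : Ent 4 := ⟨[a0, a63, a106], [a151, a42, a192], (M a240 (F (L l339 (T t4781 (L l236 (L l339 (T t6500 (L l296 (L l339 (T t6501 (L l28 (L l339 (T t6502 (L l219 (L l339 (T t6503 (K a133 (M a90 (L l339 (F (T t4788 (T t6504 (K a74 (Fr a15 a165 l483 (V t6505)) (K a15 (Fr a74 a122 l130 (V t6506)) N))))))) (K a85 (M a12 (F (L l292 (T t2745 (L l272 (L l339 (T t6595 N))))))) (K a181 (M a12 (F (T t3358 (L l56 (L l272 (T t2415 (L l201 (L l272 (T t6512 N))))))))) (K a74 (M a165 (L l339 (F (T t6492 (L l296 (T t6513 (L l54 (L l84 (L l318 (L l373 (T t6514 (K a133 (Fr a15 a90 l483 (V t6515)) (K a15 (M a133 (F (T t6516 (L l28 (L l236 (L l318 (L l484 (T t6517 N)))))))) N))))))))))))) (K a90 (M a252 (F (L l334 (T t6518 (L l148 (L l489 (T t6519 (L l309 (L l349 (T t6675 N)))))))))) (K a122 (M a12 (F (T t2747 (L l56 (L l272 (T t2415 (L l201 (L l272 (T t6512 N))))))))) (K a15 (M a248 (L l339 (F (T t6520 (L l22 (T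 t6521 (K a133 (M a74 (F (T t6522 (L l3 (L l56 (L l334 (T t6523 N))))))) (K a74 (M a133 (F (T t3821 (T t6520 (L l163 (L l469 (L l484 (T t6524 N)))))))) N)))))))) N)))))))))))))))))))))))⟩
def e0_63_106__151_42_116 : Ent 4 := ⟨[a0, a63, a106], [a151, a42, a193], (M a48 (F (T t585 (L l163 (L l515 (T t551 (L l28 (T t579 N))))))))⟩
def e0_63_106__151_42_117 : Ent 4 := ⟨[a0, a63, a106], [a151, a42, a194], (M a48 (F (L l234 (T t304 (L l163 (T t551 (L l28 (L l234 (T t579 N)))))))))⟩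
def e0_63_106__151_42_118 : Ent 4 := ⟨[a0, a63, a106], [a151, a42, a195], (M a48 (F (T t585 (L l163 (L l273 (T t551 (L l28 (T t579 N))))))))⟩
def e0_63_106__151_42_119 : Ent 4 := ⟨[a0, a63, a106], [a151, a42, a196], (M a48 (F (T t585 (L l163 (L l495 (T t551 (L l28 (T t579 N))))))))⟩
def e0_63_106__151_42_120 : Ent 4 := ⟨[a0, a63, a106], [a151, a42, a197], (M a240 (F (L l236 (T t4779 (L l163 (L l491 (T t817 (T t4781 N))))))))⟩
def e0_63_106__151_42_121 : Ent 4 := ⟨[a0, a63, a106], [a151, a42, a198], (M a48 (F (L l234 (T t309 (L l163 (T t551 (L l28 (L l234 (T t579 N)))))))))⟩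
def e0_63_106__151_42_122 : Ent 4 := ⟨[a0, a63, a106], [a151, a42, a199], (M a48 (L l493 (F (T t309 (L l163 (T t551 (L l28 (T t579 (K a103 (M a55 (F (T t309 (L l26 (L l28 (L l56 (T t7666 N))))))) (K a55 (M a103 (F (L l31 (T t309 (L l163 (L l495 (T t551 (L l28 (L l31 (T t579 N)))))))))) N))))))))))⟩
def e0_63_106__151_42_123 : Ent 4 := ⟨[a0, a63, a106], [a151, a42, a200], (M a48 (F (L l230 (T t304 (L l163 (T t551 (L l28 (L l230 (T t579 N)))))))))⟩
def e0_63_106__151_42_124 : Ent 4 := ⟨[a0, a63, a106], [a151, a42, a201], (M a48 (F (L l230 (T t309 (L l163 (T t551 (L l28 (L l230 (T t579 N)))))))))⟩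
def e0_63_106__151_42_125 : Ent 4 := ⟨[a0, a63, a106], [a151, a42, a202], (M a240 (F (L l236 (T t4786 (L l163 (T t817 (L l318 (T t4781 N))))))))⟩
def e0_63_106__151_42_126 : Ent 4 := ⟨[a0, a63, a106], [a151, a42, a203], (M a48 (F (L l230 (T t309 (L l163 (T t551 (L l28 (L l230 (T t579 N)))))))))⟩
def e0_63_106__151_42_127 : Ent 4 := ⟨[a0, a63, a106], [a151, a42, a204], (M a48 (F (T t585 (L l163 (L l298 (T t551 (L l28 (T t579 N))))))))⟩
def e0_63_106__151_42_128 : Ent 4 := ⟨[a0, a63, a106], [a151, a42, a205], (M a48 (F (T t309 (L l163 (T t551 (L l28 (T t579 N)))))))⟩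
def e0_63_106__151_42_129 : Ent 4 := ⟨[a0, a63, a106], [a151, a42, a206], (M a48 (F (L l234 (T t309 (L l163 (T t551 (L l28 (L l234 (T t579 N)))))))))⟩
def e0_63_106__151_42_130 : Ent 4 := ⟨[a0, a63, a106], [a151, a42, a207], (M a240 (F (L l236 (T t4779 (L l163 (L l512 (T t817 (T t4781 N))))))))⟩
def e0_63_106__151_42_131 : Ent 4 := ⟨[a0, a63, a106], [a151, a42, a212], (M a48 (F (T t304 (L l28 (T t579 (L l163 (L l351 (T t551 N))))))))⟩
def e0_63_106__151_42_132 : Ent 4 := ⟨[a0, a63, a106], [a151, a42, a213], (M a48 (F (T t304 (L l28 (L l246 (T t579 (L l163 (L l347 (T t551 N)))))))))⟩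
def e0_63_106__151_42_133 : Ent 4 := ⟨[a0, a63, a106], [a151, a42, a214], (M a48 (F (T t309 (L l163 (T t551 (L l28 (T t579 N)))))))⟩
def e0_63_106__151_42_134 : Ent 4 := ⟨[a0, a63, a106], [a151, a42, a215], (M a48 (L l349 (F (T t309 (L l163 (T t551 (L l28 (L l245 (T t579 (K a23 (M a87 (F (T t3405 (L l163 (L l351 (T t551 (L l28 (L l245 (T t579 N))))))))) (K a87 (M a23 (F (T t3405 (L l22 (T t3181 N))))) N)))))))))))⟩
def e0_63_106__151_42_135 : Ent 4 := ⟨[a0, a63, a106], [a151, a42, a216], (M a48 (F (T t309 (L l163 (L l298 (T t551 (L l28 (T t579 N))))))))⟩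
def e0_63_106__151_42_136 : Ent 4 := ⟨[a0, a63, a106], [a151, a42, a217], (M a48 (F (T t309 (L l163 (T t551 (L l28 (T t579 N)))))))⟩
def e0_63_106__151_42_137 : Ent 4 := ⟨[a0, a63, a106], [a151, a42, a218], (M a48 (F (L l282 (T t309 (L l28 (L l163 (T t2289 (L l28 (L l246 (L l282 (T t579 N)))))))))))⟩
def e0_63_106__151_42_138 : Ent 4 := ⟨[a0, a63, a106], [a151, a42, a219], (M a48 (F (T t309 (L l163 (T t551 (L l28 (L l245 (T t579 N))))))))⟩
def e0_63_106__151_42_139 : Ent 4 := ⟨[a0, a63, a106], [a151, a42, a220], (M a48 (F (T t309 (L l163 (T t551 (L l28 (L l241 (T t579 N))))))))⟩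
def e0_63_106__151_42_140 : Ent 4 := ⟨[a0, a63, a106], [a151, a42, a221], (M a48 (F (T t309 (L l163 (T t551 (L l28 (L l241 (T t579 N))))))))⟩
def e0_63_106__151_42_141 : Ent 4 := ⟨[a0, a63, a106], [a151, a42, a222], (M a48 (F (T t309 (L l163 (T t551 (L l28 (L l241 (T t579 N))))))))⟩
def e0_63_106__151_42_142 : Ent 4 := ⟨[a0, a63, a106], [a151, a42, a223], (M a240 (F (T t4786 (L l163 (L l368 (T t817 (L l361 (T t4781 N))))))))⟩
def e0_63_106__151_42_143 : Ent 4 := ⟨[a0, a63, a106], [a151, a42, a232], (M a48 (F (T t304 (L l28 (T t579 (L l163 (T t551 N)))))))⟩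
def e0_63_106__151_42_144 : Ent 4 := ⟨[a0, a63, a106], [a151, a42, a233], (M a48 (F (T t309 (L l163 (T t551 (L l28 (T t579 N)))))))⟩
def e0_63_106__151_42_145 : Ent 4 := ⟨[a0, a63, a106], [a151, a42, a234], (M a48 (F (L l282 (T t304 (L l163 (T t551 (L l28 (L l282 (T t579 N)))))))))⟩
def e0_63_106__151_42_146 : Ent 4 := ⟨[a0, a63, a106], [a151, a42, a235], (M a48 (F (T t309 (L l163 (T t551 (L l28 (T t579 N)))))))⟩
def e0_63_106__151_42_147 : Ent 4 := ⟨[a0, a63, a106], [a151, a42, a236], (M a48 (F (T t309 (L l163 (T t551 (L l28 (L l400 (T t579 N))))))))⟩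
def e0_63_106__151_42_148 : Ent 4 := ⟨[a0, a63, a106], [a151, a42, a237], (M a48 (F (T t309 (L l163 (T t551 (L l28 (T t579 N)))))))⟩
def e0_63_106__151_42_149 : Ent 4 := ⟨[a0, a63, a106], [a151, a42, a238], (M a48 (F (T t309 (L l163 (T t551 (L l28 (T t579 N)))))))⟩
def e0_63_106__151_42_150 : Ent 4 := ⟨[a0, a63, a106], [a151, a42, a239], (M a48 (F (T t309 (L l163 (T t551 (L l28 (L l289 (L l404 (T t579 N)))))))))⟩
def e0_63_106__151_42_151 : Ent 4 := ⟨[a0, a63, a106], [a151, a42, a252], (M a48 (F (T t585 (L l163 (L l262 (T t551 (L l28 (T t579 N))))))))⟩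
def e0_63_106__151_42_152 : Ent 4 := ⟨[a0, a63, a106], [a151, a42, a253], (M a48 (F (T t309 (L l163 (T t551 (L l28 (T t579 N)))))))⟩
def e0_63_106__151_42_153 : Ent 4 := ⟨[a0, a63, a106], [a151, a42, a254], (M a48 (F (T t309 (L l163 (T t551 (L l28 (T t579 N)))))))⟩
def e0_63_106__151_42_154 : Ent 4 := ⟨[a0, a63, a106], [a151, a42, a255], (M a48 (F (T t585 (L l163 (L l266 (T t551 (L l28 (L l469 (T t6526 (L l28 (L l289 (T t6527 N))))))))))))⟩
def b0_63_106__151_42 : Blk 4 := ⟨[0, 63, 106], [151, 42], [1, 2, 3, 4, 5, 6, 7, 8, 9, 10, 11, 12, 13, 14, 15, 20, 21, 22, 23, 24, 25, 26, 27, 28, 29, 30, 31, 40, 41, 43, 44, 45, 46, 47, 60, 61, 62, 64, 65, 66, 67, 68, 69, 70, 71, 72, 73, 74, 75, 76, 77, 78, 79, 84, 85, 86, 87, 88, 89, 90, 91, 92, 93, 94, 95, 104, 105, 107, 108, 109, 110, 111, 124, 125, 126, 127, 128, 129, 130, 131, 132, 133, 134, 135, 136, 137, 138, 139, 140, 141, 142, 143, 148, 149, 150, 152, 153, 154, 155, 156,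 157, 158, 159, 168, 169, 170, 171, 172, 173, 174, 175, 188, 189, 190, 191, 192, 193, 194, 195, 196, 197, 198, 199, 200, 201, 202, 203, 204, 205, 206, 207, 212, 213, 214, 215, 216, 217, 218, 219, 220, 221, 222, 223, 232, 233, 234, 235, 236, 237, 238, 239, 252, 253, 254, 255], [e0_63_106__151_42_0, e0_63_106__151_42_1, e0_63_106__151_42_2, e0_63_106__151_42_3, e0_63_106__151_42_4, e0_63_106__151_42_5, e0_63_106__151_42_6, e0_63_106__151_42_7, e0_63_106__151_42_8, e0_63_106__151_42_9, e0_63_106__151_42_10, e0_63_106__151_42_11, e0_63_106__151_42_12, e0_63_106__151_42_13, e0_63_106__151_42_14, e0_63_106__151_42_15, e0_63_106__151_42_16, e0_63_106__151_42_17, e0_63_106__151_42_18, e0_63_106__151_42_19, e0_63_106__151_42_20, e0_63_106__151_42_21, e0_63_106__151_42_22, e0_63_106__151_42_23, e0_63_106__151_42_24, e0_63_106__151_42_25, e0_63_106__151_42_26, e0_63_106__151_42_27, e0_63_106__151_42_28, e0_63_106__151_42_29, e0_63_106__151_42_30,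 e0_63_106__151_42_31, e0_63_106__151_42_32, e0_63_106__151_42_33, e0_63_106__151_42_34, e0_63_106__151_42_35, e0_63_106__151_42_36, e0_63_106__151_42_37, e0_63_106__151_42_38, e0_63_106__151_42_39, e0_63_106__151_42_40, e0_63_106__151_42_41, e0_63_106__151_42_42, e0_63_106__151_42_43, e0_63_106__151_42_44, e0_63_106__151_42_45, e0_63_106__151_42_46, e0_63_106__151_42_47, e0_63_106__151_42_48, e0_63_106__151_42_49, e0_63_106__151_42_50, e0_63_106__151_42_51, e0_63_106__151_42_52, e0_63_106__151_42_53, e0_63_106__151_42_54, e0_63_106__151_42_55, e0_63_106__151_42_56, e0_63_106__151_42_57, e0_63_106__151_42_58, e0_63_106__151_42_59, e0_63_106__151_42_60, e0_63_106__151_42_61, e0_63_106__151_42_62, e0_63_106__151_42_63, e0_63_106__151_42_64, e0_63_106__151_42_65, e0_63_106__151_42_66, e0_63_106__151_42_67, e0_63_106__151_42_68, e0_63_106__151_42_69, e0_63_106__151_42_70, e0_63_106__151_42_71, e0_63_106__151_42_72, e0_63_106__151_42_73,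 e0_63_106__151_42_74, e0_63_106__151_42_75, e0_63_106__151_42_76, e0_63_106__151_42_77, e0_63_106__151_42_78, e0_63_106__151_42_79, e0_63_106__151_42_80, e0_63_106__151_42_81, e0_63_106__151_42_82, e0_63_106__151_42_83, e0_63_106__151_42_84, e0_63_106__151_42_85, e0_63_106__151_42_86, e0_63_106__151_42_87, e0_63_106__151_42_88, e0_63_106__151_42_89, e0_63_106__151_42_90, e0_63_106__151_42_91, e0_63_106__151_42_92, e0_63_106__151_42_93, e0_63_106__151_42_94, e0_63_106__151_42_95, e0_63_106__151_42_96, e0_63_106__151_42_97, e0_63_106__151_42_98, e0_63_106__151_42_99, e0_63_106__151_42_100, e0_63_106__151_42_101, e0_63_106__151_42_102, e0_63_106__151_42_103, e0_63_106__151_42_104, e0_63_106__151_42_105, e0_63_106__151_42_106, e0_63_106__151_42_107, e0_63_106__151_42_108, e0_63_106__151_42_109, e0_63_106__151_42_110, e0_63_106__151_42_111, e0_63_106__151_42_112, e0_63_106__151_42_113, e0_63_106__151_42_114, e0_63_106__151_42_115,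 e0_63_106__151_42_116, e0_63_106__151_42_117, e0_63_106__151_42_118, e0_63_106__151_42_119, e0_63_106__151_42_120, e0_63_106__151_42_121, e0_63_106__151_42_122, e0_63_106__151_42_123, e0_63_106__151_42_124, e0_63_106__151_42_125, e0_63_106__151_42_126, e0_63_106__151_42_127, e0_63_106__151_42_128, e0_63_106__151_42_129, e0_63_106__151_42_130, e0_63_106__151_42_131, e0_63_106__151_42_132, e0_63_106__151_42_133, e0_63_106__151_42_134, e0_63_106__151_42_135, e0_63_106__151_42_136, e0_63_106__151_42_137, e0_63_106__151_42_138, e0_63_106__151_42_139, e0_63_106__151_42_140, e0_63_106__151_42_141, e0_63_106__151_42_142, e0_63_106__151_42_143, e0_63_106__151_42_144, e0_63_106__151_42_145, e0_63_106__151_42_146, e0_63_106__151_42_147, e0_63_106__151_42_148, e0_63_106__151_42_149, e0_63_106__151_42_150, e0_63_106__151_42_151, e0_63_106__151_42_152, e0_63_106__151_42_153, e0_63_106__151_42_154], by decide +kernel, by decide +kernel⟩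
def e0_63_106__155_42_0 : Ent 4 := ⟨[a0, a63, a106], [a155, a42, a1], (M a48 (F (T t309 (T t551 (L l28 (L l367 (T t579 N)))))))⟩
def e0_63_106__155_42_1 : Ent 4 := ⟨[a0, a63, a106], [a155, a42, a2], (M a48 (L l66 (F (T t309 (T t551 (L l28 (L l367 (T t579 (K a22 (M a62 (F (T t585 (L l22 (L l306 (T t5926 N)))))) (K a62 (M a22 (F (T t3405 (T t551 (L l28 (L l367 (T t579 N))))))) N))))))))))⟩
def e0_63_106__155_42_2 : Ent 4 := ⟨[a0, a63, a106], [a155, a42, a3], (M a48 (F (T t585 (L l453 (T t551 (L l28 (L l367 (T t579 N))))))))⟩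
def e0_63_106__155_42_3 : Ent 4 := ⟨[a0, a63, a106], [a155, a42, a4], (M a48 (F (T t309 (T t551 (L l28 (L l367 (T t579 N)))))))⟩
def e0_63_106__155_42_4 : Ent 4 := ⟨[a0, a63, a106], [a155, a42, a5], (M a48 (F (L l47 (T t309 (T t551 (L l28 (L l47 (L l367 (T t579 N)))))))))⟩
def e0_63_106__155_42_5 : Ent 4 := ⟨[a0, a63, a106], [a155, a42, a6], (M a48 (F (T t309 (T t551 (L l28 (L l367 (T t579 N)))))))⟩
def e0_63_106__155_42_6 : Ent 4 := ⟨[a0, a63, a106], [a155, a42, a7], (M a48 (F (T t309 (T t551 (L l28 (L l367 (T t579 N)))))))⟩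
def e0_63_106__155_42_7 : Ent 4 := ⟨[a0, a63, a106], [a155, a42, a8], (M a195 (L l56 (F (L l499 (T t7867 (T t6810 (L l169 (T t6811 (K a25 (M a59 (F (T t6880 (L l26 (L l316 (T t6445 N)))))) (K a59 (M a25 (L l499 (F (L l66 (T t7868 (L l169 (T t6811 (T t6810 (K a203 (Fr a107 a151 l517 (V t7466)) (K a107 (M a203 (F (T t6881 (L l169 (L l464 (T t7869 (L l164 (L l169 (T t7870 N))))))))) N)))))))))) N))))))))))⟩
def e0_63_106__155_42_8 : Ent 4 := ⟨[a0, a63, a106], [a155, a42, a9], (M a48 (F (T t309 (T t551 (L l28 (L l367 (T t579 N)))))))⟩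
def e0_63_106__155_42_9 : Ent 4 := ⟨[a0, a63, a106], [a155, a42, a10], (M a48 (L l54 (F (T t2348 (L l28 (L l318 (L l367 (T t579 (T t551 (K a26 (Fr a58 a53 l38 (V t6446)) (K a58 (M a26 (F (L l28 (T t4144 (T t551 (L l28 (L l426 (T t6447 (K a32 (Fr a192 a149 l519 (Fr a15 a37 l75 (Fr a47 a31 l61 (V t6528)))) N))))))))) N)))))))))))⟩
def e0_63_106__155_42_10 : Ent 4 := ⟨[a0, a63, a106], [a155, a42, a11], (M a48 (F (T t309 (T t551 (L l28 (L l367 (T t579 N)))))))⟩
def e0_63_106__155_42_11 : Ent 4 := ⟨[a0, a63, a106], [a155, a42, a12], (M a48 (F (T t585 (L l478 (T t551 (L l28 (L l367 (T t579 N))))))))⟩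
def e0_63_106__155_42_12 : Ent 4 := ⟨[a0, a63, a106], [a155, a42, a13], (M a48 (F (T t309 (T t551 (L l28 (L l367 (T t579 N)))))))⟩
def e0_63_106__155_42_13 : Ent 4 := ⟨[a0, a63, a106], [a155, a42, a14], (M a48 (F (T t309 (T t551 (L l28 (L l367 (T t579 N)))))))⟩
def e0_63_106__155_42_14 : Ent 4 := ⟨[a0, a63, a106], [a155, a42, a15], (M a48 (F (T t585 (L l483 (T t551 (L l28 (L l367 (T t579 N))))))))⟩
def e0_63_106__155_42_15 : Ent 4 := ⟨[a0, a63, a106], [a155, a42, a16], (M a240 (F (T t4786 (L l340 (T t4780 (T t4781 N))))))⟩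
def e0_63_106__155_42_16 : Ent 4 := ⟨[a0, a63, a106], [a155, a42, a17], (M a48 (F (T t309 (T t551 (L l28 (L l367 (T t579 N)))))))⟩
def e0_63_106__155_42_17 : Ent 4 := ⟨[a0, a63, a106], [a155, a42, a18], (M a48 (F (T t309 (T t551 (L l28 (L l367 (T t579 N)))))))⟩
def e0_63_106__155_42_18 : Ent 4 := ⟨[a0, a63, a106], [a155, a42, a19], (M a240 (L l367 (F (T t4786 (L l10 (T t817 (T t4781 (K a87 (M a223 (F (T t6965 (L l10 (T t817 (L l93 (T t4781 N))))))) (K a223 (M a87 (F (T t6965 (L l10 (L l368 (T t817 (L l361 (T t4781 N)))))))) N)))))))))⟩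
def e0_63_106__155_42_19 : Ent 4 := ⟨[a0, a63, a106], [a155, a42, a20], (M a48 (F (T t309 (T t551 (L l28 (L l367 (T t579 N)))))))⟩
def e0_63_106__155_42_20 : Ent 4 := ⟨[a0, a63, a106], [a155, a42, a21], (M a48 (F (L l47 (T t309 (L l347 (T t551 (L l28 (L l47 (L l367 (T t579 N))))))))))⟩
def e0_63_106__155_42_21 : Ent 4 := ⟨[a0, a63, a106], [a155, a42, a22], (M a48 (L l66 (F (T t309 (T t551 (L l28 (L l367 (T t579 (K a2 (M a62 (F (T t585 (L l22 (L l306 (T t5926 N)))))) (K a62 (M a2 (F (T t3405 (L l19 (L l28 (L l367 (T t342 N))))))) N))))))))))⟩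
def e0_63_106__155_42_22 : Ent 4 := ⟨[a0, a63, a106], [a155, a42, a23], (M a48 (F (T t309 (L l351 (T t551 (L l28 (L l367 (T t579 N))))))))⟩
def e0_63_106__155_42_23 : Ent 4 := ⟨[a0, a63, a106], [a155, a42, a24], (M a48 (F (T t309 (T t551 (L l28 (L l367 (T t579 N)))))))⟩
def e0_63_106__155_42_24 : Ent 4 := ⟨[a0, a63, a106], [a155, a42, a25], (M a48 (L l56 (F (T t309 (T t551 (L l28 (L l367 (T t579 (K a8 (M a59 (F (T t585 (L l26 (L l316 (T t6445 N)))))) (K a59 (M a8 (L l499 (F (T t3405 (L l19 (L l28 (T t4700 (K a203 (M a107 (F (T t2348 (L l19 (L l28 (T t4700 N)))))) (K a107 (M a203 (F (T t3405 (L l19 (L l28 (T t4700 N)))))) N))))))))) N))))))))))⟩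
def e0_63_106__155_42_25 : Ent 4 := ⟨[a0, a63, a106], [a155, a42, a26], (M a48 (L l54 (F (T t309 (L l28 (L l367 (T t579 (T t551 (K a10 (Fr a58 a53 l38 (V t6446)) (K a58 (M a10 (F (L l28 (T t2289 (L l511 (T t4033 (L l18 (L l169 (L l354 (T t6449 (L l18 (L l426 (T t6450 N))))))))))))) N))))))))))⟩
def e0_63_106__155_42_26 : Ent 4 := ⟨[a0, a63, a106], [a155, a42, a27], (M a48 (L l355 (F (T t309 (T t551 (L l28 (L l367 (T t579 (K a91 (M a219 (F (T t3405 (T t551 (L l12 (T t7155 N)))))) (K a219 (M a91 (F (T t3405 (T t551 (L l28 (L l245 (L l367 (T t579 N)))))))) N))))))))))⟩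
def e0_63_106__155_42_27 : Ent 4 := ⟨[a0, a63, a106], [a155, a42, a28], (M a48 (F (T t309 (T t551 (L l28 (L l362 (L l367 (T t579 N))))))))⟩
def e0_63_106__155_42_28 : Ent 4 := ⟨[a0, a63, a106], [a155, a42, a29], (M a48 (F (T t309 (L l371 (T t551 (L l28 (L l367 (T t579 N))))))))⟩
def e0_63_106__155_42_29 : Ent 4 := ⟨[a0, a63, a106], [a155, a42, a30], (M a48 (F (T t309 (T t551 (L l28 (L l367 (T t579 N)))))))⟩
def e0_63_106__155_42_30 : Ent 4 := ⟨[a0, a63, a106], [a155, a42, a31], (M a48 (F (T t309 (L l375 (T t551 (L l28 (L l361 (L l367 (T t579 N)))))))))⟩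
def e0_63_106__155_42_31 : Ent 4 := ⟨[a0, a63, a106], [a155, a42, a32], (M a240 (L l28 (F (T t6609 (L l376 (T t6588 (L l376 (T t4781 (K a37 (M a47 (F (T t6602 (T t6698 (T t6604 N))))) (K a47 (M a37 (F (L l376 (T t6588 (L l54 (T t6699 (L l376 (T t4781 N)))))))) N))))))))))⟩
def e0_63_106__155_42_32 : Ent 4 := ⟨[a0, a63, a106], [a155, a42, a33], (M a48 (F (T t309 (T t551 (L l20 (L l28 (L l367 (T t579 N))))))))⟩
def e0_63_106__155_42_33 : Ent 4 := ⟨[a0, a63, a106], [a155, a42, a34], (M a48 (L l26 (F (T t309 (T t551 (L l20 (L l28 (L l367 (T t579 (K a38 (M a46 (F (T t585 (L l56 (L l378 (T t4030 N)))))) (K a46 (M a38 (F (T t3405 (T t551 (L l20 (L l28 (L l367 (T t579 N)))))))) N)))))))))))⟩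
def e0_63_106__155_42_34 : Ent 4 := ⟨[a0, a63, a106], [a155, a42, a35], (M a48 (F (T t309 (T t551 (L l20 (L l28 (L l367 (T t579 N))))))))⟩
def e0_63_106__155_42_35 : Ent 4 := ⟨[a0, a63, a106], [a155, a42, a36], (M a48 (F (T t309 (T t551 (L l24 (L l28 (L l367 (T t579 N))))))))⟩
def e0_63_106__155_42_36 : Ent 4 := ⟨[a0, a63, a106], [a155, a42, a37], (M a240 (L l28 (F (T t4786 (T t6606 (T t4781 (K a32 (M a47 (F (T t6602 (T t6698 (T t6604 N))))) (K a47 (M a32 (F (T t6607 (T t4781 (L l54 (T t6608 N)))))) N))))))))⟩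
def e0_63_106__155_42_37 : Ent 4 := ⟨[a0, a63, a106], [a155, a42, a38], (M a48 (L l26 (F (T t309 (T t551 (L l28 (L l367 (T t579 (K a34 (M a46 (F (T t585 (L l56 (L l378 (T t4030 N)))))) (K a46 (M a34 (F (T t309 (L l29 (L l66 (T t6453 N)))))) N))))))))))⟩
def e0_63_106__155_42_38 : Ent 4 := ⟨[a0, a63, a106], [a155, a42, a39], (M a48 (F (T t309 (T t551 (L l28 (L l367 (T t579 N)))))))⟩
def e0_63_106__155_42_39 : Ent 4 := ⟨[a0, a63, a106], [a155, a42, a40], (M a48 (L l22 (F (T t309 (T t551 (L l24 (L l28 (L l367 (T t579 (K a41 (M a43 (F (T t585 (L l66 (L l388 (T t6451 N)))))) (K a43 (M a41 (F (T t3405 (T t551 (L l24 (L l28 (L l367 (T t579 N)))))))) N)))))))))))⟩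
def e0_63_106__155_42_40 : Ent 4 := ⟨[a0, a63, a106], [a155, a42, a41], (M a48 (L l22 (F (T t309 (T t551 (L l28 (L l367 (T t579 (K a40 (M a43 (F (T t585 (L l66 (L l388 (T t6451 N)))))) (K a43 (M a40 (F (T t309 (L l29 (L l69 (T t6452 N)))))) N))))))))))⟩
def e0_63_106__155_42_41 : Ent 4 := ⟨[a0, a63, a106], [a155, a42, a43], (M a48 (L l22 (F (T t309 (T t551 (L l28 (L l367 (T t579 (K a40 (M a41 (F (T t3405 (T t551 (L l24 (L l28 (L l367 (T t579 N)))))))) (K a41 (M a40 (F (T t309 (L l29 (L l69 (T t6452 N)))))) N))))))))))⟩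
def e0_63_106__155_42_42 : Ent 4 := ⟨[a0, a63, a106], [a155, a42, a44], (M a48 (F (T t309 (T t551 (L l24 (L l28 (L l367 (T t579 N))))))))⟩
def e0_63_106__155_42_43 : Ent 4 := ⟨[a0, a63, a106], [a155, a42, a45], (M a48 (F (T t309 (T t551 (L l28 (L l367 (T t579 N)))))))⟩
def e0_63_106__155_42_44 : Ent 4 := ⟨[a0, a63, a106], [a155, a42, a46], (M a48 (L l26 (F (T t309 (T t551 (L l28 (L l367 (T t579 (K a34 (M a38 (F (T t3405 (T t551 (L l20 (L l28 (L l367 (T t579 N)))))))) (K a38 (M a34 (F (T t309 (L l29 (L l66 (T t6453 N)))))) N))))))))))⟩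
def e0_63_106__155_42_45 : Ent 4 := ⟨[a0, a63, a106], [a155, a42, a47], (M a12 (L l28 (F (T t2304 (T t2305 (L l56 (T t2415 (K a32 (M a37 (F (T t2416 (L l56 (T t2415 (T t2305 N)))))) (K a37 (M a32 (F (T t2304 (L l51 (L l56 (T t682 N)))))) N)))))))))⟩
def e0_63_106__155_42_46 : Ent 4 := ⟨[a0, a63, a106], [a155, a42, a48], (M a12 (F (T t2419 (L l508 (T t2305 (L l56 (T t2415 N)))))))⟩
def e0_63_106__155_42_47 : Ent 4 := ⟨[a0, a63, a106], [a155, a42, a49], (M a48 (F (L l35 (T t309 (T t551 (L l28 (L l35 (L l367 (T t579 N)))))))))⟩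
def e0_63_106__155_42_48 : Ent 4 := ⟨[a0, a63, a106], [a155, a42, a50], (M a48 (F (T t309 (T t551 (L l28 (L l367 (T t579 N)))))))⟩
def e0_63_106__155_42_49 : Ent 4 := ⟨[a0, a63, a106], [a155, a42, a51], (M a207 (F (L l489 (T t6700 (L l73 (T t6701 (L l169 (T t6702 N))))))))⟩
def e0_63_106__155_42_50 : Ent 4 := ⟨[a0, a63, a106], [a155, a42, a52], (M a48 (F (L l31 (T t309 (T t551 (L l28 (L l31 (L l367 (T t579 N)))))))))⟩
def e0_63_106__155_42_51 : Ent 4 := ⟨[a0, a63, a106], [a155, a42, a53], (M a240 (F (T t4786 (L l491 (T t817 (L l419 (T t4781 N)))))))⟩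
def e0_63_106__155_42_52 : Ent 4 := ⟨[a0, a63, a106], [a155, a42, a54], (M a48 (F (L l31 (T t309 (T t551 (L l28 (L l31 (L l367 (T t579 N)))))))))⟩
def e0_63_106__155_42_53 : Ent 4 := ⟨[a0, a63, a106], [a155, a42, a55], (M a48 (F (L l31 (T t309 (L l495 (T t551 (L l28 (L l31 (L l367 (T t579 N))))))))))⟩
def e0_63_106__155_42_54 : Ent 4 := ⟨[a0, a63, a106], [a155, a42, a56], (M a48 (F (T t309 (T t551 (L l28 (L l367 (T t579 N)))))))⟩
def e0_63_106__155_42_55 : Ent 4 := ⟨[a0, a63, a106], [a155, a42, a57], (M a48 (F (L l35 (T t309 (T t551 (L l28 (L l35 (L l367 (T t579 N)))))))))⟩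
def e0_63_106__155_42_56 : Ent 4 := ⟨[a0, a63, a106], [a155, a42, a58], (M a240 (L l54 (F (T t4779 (T t817 (T t4781 (K a10 (M a26 (F (L l28 (T t815 (L l318 (T t4781 (T t817 N))))))) (K a26 (M a10 (F (T t6609 (T t6610 (L l18 (T t6611 N)))))) N))))))))⟩
def e0_63_106__155_42_57 : Ent 4 := ⟨[a0, a63, a106], [a155, a42, a59], (M a107 (L l56 (F (L l169 (T t7438 (L l367 (T t7440 (L l169 (T t7439 (L l367 (T t7441 (K a8 (M a25 (F (L l169 (T t7438 (L l367 (T t7440 (L l169 (L l464 (T t7245 (L l367 (T t7441 N))))))))))) (K a25 (M a8 (F (L l169 (T t7438 (L l15 (L l353 (L l427 (T t7446 (L l169 (L l511 (T t7871 N))))))))))) N)))))))))))))⟩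
def e0_63_106__155_42_58 : Ent 4 := ⟨[a0, a63, a106], [a155, a42, a60], (M a48 (F (T t585 (L l442 (T t551 (L l28 (L l367 (T t579 N))))))))⟩
def e0_63_106__155_42_59 : Ent 4 := ⟨[a0, a63, a106], [a155, a42, a61], (M a48 (F (L l35 (T t309 (L l515 (T t551 (L l28 (L l35 (L l367 (T t579 N))))))))))⟩
def e0_63_106__155_42_60 : Ent 4 := ⟨[a0, a63, a106], [a155, a42, a62], (M a48 (L l66 (F (T t309 (T t551 (L l28 (L l367 (T t579 (K a2 (M a22 (F (T t3405 (T t551 (L l28 (L l367 (T t579 N))))))) (K a22 (M a2 (F (T t3405 (L l19 (L l28 (L l367 (T t342 N))))))) N))))))))))⟩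
def e0_63_106__155_42_61 : Ent 4 := ⟨[a0, a63, a106], [a155, a42, a64], (M a48 (F (T t585 (L l28 (L l367 (T t6594 (L l28 (L l367 (L l511 (T t6455 (L l28 (L l84 (L l367 (T t6457 (L l54 (T t6458 (K a207 (Fr a192 a149 l519 (Fr a96 a144 l484 (Fr a101 a111 l104 (Fr a32 a16 l40 (V t6459))))) N)))))))))))))))))⟩
def e0_63_106__155_42_62 : Ent 4 := ⟨[a0, a63, a106], [a155, a42, a65], (M a48 (F (T t309 (L l76 (T t551 (L l28 (L l76 (L l367 (T t579 N)))))))))⟩
def e0_63_106__155_42_63 : Ent 4 := ⟨[a0, a63, a106], [a155, a42, a66], (M a48 (F (T t585 (L l76 (T t551 (L l28 (L l76 (L l367 (T t579 N)))))))))⟩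
def e0_63_106__155_42_64 : Ent 4 := ⟨[a0, a63, a106], [a155, a42, a67], (M a48 (F (T t309 (L l76 (T t551 (L l28 (L l76 (L l367 (T t579 N)))))))))⟩
def e0_63_106__155_42_65 : Ent 4 := ⟨[a0, a63, a106], [a155, a42, a68], (M a48 (F (T t309 (L l80 (T t551 (L l28 (L l80 (L l367 (T t579 N)))))))))⟩
def e0_63_106__155_42_66 : Ent 4 := ⟨[a0, a63, a106], [a155, a42, a69], (M a48 (F (T t309 (L l84 (T t551 (L l28 (L l84 (L l367 (T t579 N)))))))))⟩
def e0_63_106__155_42_67 : Ent 4 := ⟨[a0, a63, a106], [a155, a42, a70], (M a48 (F (T t309 (T t551 (L l28 (L l367 (T t579 N)))))))⟩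
def e0_63_106__155_42_68 : Ent 4 := ⟨[a0, a63, a106], [a155, a42, a71], (M a48 (F (T t309 (T t551 (L l28 (L l367 (T t579 N)))))))⟩
def e0_63_106__155_42_69 : Ent 4 := ⟨[a0, a63, a106], [a155, a42, a72], (M a48 (F (T t585 (L l80 (T t551 (L l28 (L l80 (L l367 (T t579 N)))))))))⟩
def e0_63_106__155_42_70 : Ent 4 := ⟨[a0, a63, a106], [a155, a42, a73], (M a48 (F (T t309 (T t551 (L l28 (L l367 (T t579 N)))))))⟩
def e0_63_106__155_42_71 : Ent 4 := ⟨[a0, a63, a106], [a155, a42, a74], (M a48 (F (T t2348 (L l28 (L l84 (L l318 (L l367 (T t579 (L l84 (T t551 N))))))))))⟩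
def e0_63_106__155_42_72 : Ent 4 := ⟨[a0, a63, a106], [a155, a42, a75], (M a48 (F (T t309 (T t551 (L l28 (L l367 (T t579 N)))))))⟩
def e0_63_106__155_42_73 : Ent 4 := ⟨[a0, a63, a106], [a155, a42, a76], (M a48 (F (T t309 (L l80 (T t551 (L l28 (L l80 (L l367 (T t579 N)))))))))⟩
def e0_63_106__155_42_74 : Ent 4 := ⟨[a0, a63, a106], [a155, a42, a77], (M a48 (F (T t309 (T t551 (L l28 (L l367 (T t579 N)))))))⟩
def e0_63_106__155_42_75 : Ent 4 := ⟨[a0, a63, a106], [a155, a42, a78], (M a48 (F (T t309 (T t551 (L l28 (L l367 (T t579 N)))))))⟩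
def e0_63_106__155_42_76 : Ent 4 := ⟨[a0, a63, a106], [a155, a42, a79], (M a48 (F (T t309 (L l84 (T t551 (L l28 (L l84 (L l367 (T t579 N)))))))))⟩
def e0_63_106__155_42_77 : Ent 4 := ⟨[a0, a63, a106], [a155, a42, a80], (M a12 (F (T t2304 (L l116 (T t2305 (L l56 (L l116 (T t2415 N))))))))⟩
def e0_63_106__155_42_78 : Ent 4 := ⟨[a0, a63, a106], [a155, a42, a81], (M a48 (F (T t309 (L l120 (T t551 (L l28 (L l120 (L l367 (T t579 N)))))))))⟩
def e0_63_106__155_42_79 : Ent 4 := ⟨[a0, a63, a106], [a155, a42, a82], (M a48 (F (T t309 (L l453 (T t551 (L l28 (L l367 (T t579 N))))))))⟩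
def e0_63_106__155_42_80 : Ent 4 := ⟨[a0, a63, a106], [a155, a42, a83], (M a48 (F (T t309 (T t551 (L l28 (L l367 (T t579 N)))))))⟩
def e0_63_106__155_42_81 : Ent 4 := ⟨[a0, a63, a106], [a155, a42, a84], (M a48 (F (T t309 (L l140 (T t551 (L l28 (L l140 (L l367 (T t579 N)))))))))⟩
def e0_63_106__155_42_82 : Ent 4 := ⟨[a0, a63, a106], [a155, a42, a85], (M a48 (F (T t309 (L l347 (T t551 (L l54 (T t777 (L l368 (L l511 (T t6465 (K a192 (M a240 (F (T t6230 (L l225 (L l236 (T t6471 (L l54 (L l236 (L l339 (T t6472 (L l339 (T t6473 N)))))))))))) N)))))))))))⟩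
def e0_63_106__155_42_83 : Ent 4 := ⟨[a0, a63, a106], [a155, a42, a86], (M a48 (F (T t309 (L l351 (T t551 (L l28 (L l367 (T t579 N))))))))⟩
def e0_63_106__155_42_84 : Ent 4 := ⟨[a0, a63, a106], [a155, a42, a87], (M a240 (L l367 (F (T t4779 (T t817 (L l93 (T t4781 (K a19 (M a223 (F (T t6965 (L l10 (T t817 (L l93 (T t4781 N))))))) (K a223 (M a19 (F (T t6965 (L l368 (T t817 (L l93 (L l361 (T t4781 N)))))))) N)))))))))⟩
def e0_63_106__155_42_85 : Ent 4 := ⟨[a0, a63, a106], [a155, a42, a88], (M a48 (F (T t309 (L l478 (T t551 (L l28 (L l367 (T t579 N))))))))⟩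
def e0_63_106__155_42_86 : Ent 4 := ⟨[a0, a63, a106], [a155, a42, a89], (M a48 (F (T t309 (L l371 (T t551 (L l28 (L l367 (T t579 N))))))))⟩
def e0_63_106__155_42_87 : Ent 4 := ⟨[a0, a63, a106], [a155, a42, a90], (M a48 (F (T t309 (L l375 (L l483 (T t551 (L l28 (L l367 (T t579 N)))))))))⟩
def e0_63_106__155_42_88 : Ent 4 := ⟨[a0, a63, a106], [a155, a42, a91], (M a48 (L l355 (F (T t309 (T t551 (L l28 (L l367 (T t579 (K a27 (M a219 (F (T t3405 (T t551 (L l12 (T t7155 N)))))) (K a219 (M a27 (F (T t3405 (T t551 (L l28 (L l245 (L l367 (T t579 N)))))))) N))))))))))⟩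
def e0_63_106__155_42_89 : Ent 4 := ⟨[a0, a63, a106], [a155, a42, a92], (M a48 (F (T t309 (T t551 (L l28 (L l367 (T t579 N)))))))⟩
def e0_63_106__155_42_90 : Ent 4 := ⟨[a0, a63, a106], [a155, a42, a93], (M a48 (F (T t309 (T t551 (L l28 (L l362 (L l367 (T t579 N))))))))⟩
def e0_63_106__155_42_91 : Ent 4 := ⟨[a0, a63, a106], [a155, a42, a94], (M a48 (F (T t309 (T t551 (L l28 (L l367 (T t579 N)))))))⟩
def e0_63_106__155_42_92 : Ent 4 := ⟨[a0, a63, a106], [a155, a42, a95], (M a48 (F (T t309 (T t551 (L l28 (L l361 (L l367 (T t579 N))))))))⟩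
def e0_63_106__155_42_93 : Ent 4 := ⟨[a0, a63, a106], [a155, a42, a96], (M a12 (F (T t2414 (L l56 (L l116 (T t2415 (L l116 (T t2305 N))))))))⟩
def e0_63_106__155_42_94 : Ent 4 := ⟨[a0, a63, a106], [a155, a42, a97], (M a48 (F (T t309 (L l96 (T t551 (L l28 (L l367 (L l380 (T t579 N)))))))))⟩
def e0_63_106__155_42_95 : Ent 4 := ⟨[a0, a63, a106], [a155, a42, a98], (M a48 (F (T t585 (L l96 (L l120 (T t551 (L l28 (L l120 (L l367 (T t579 N))))))))))⟩
def e0_63_106__155_42_96 : Ent 4 := ⟨[a0, a63, a106], [a155, a42, a99], (M a48 (F (T t309 (L l96 (T t551 (L l28 (L l367 (T t579 N))))))))⟩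
def e0_63_106__155_42_97 : Ent 4 := ⟨[a0, a63, a106], [a155, a42, a100], (M a48 (F (T t309 (L l100 (T t551 (L l28 (L l367 (L l400 (T t579 N)))))))))⟩
def e0_63_106__155_42_98 : Ent 4 := ⟨[a0, a63, a106], [a155, a42, a101], (M a240 (F (T t4779 (L l491 (L l512 (T t817 (T t4781 N)))))))⟩
def e0_63_106__155_42_99 : Ent 4 := ⟨[a0, a63, a106], [a155, a42, a102], (M a48 (F (T t309 (L l495 (T t551 (L l28 (L l367 (T t579 N))))))))⟩
def e0_63_106__155_42_100 : Ent 4 := ⟨[a0, a63, a106], [a155, a42, a103], (M a51 (F (T t7207 (L l26 (L l493 (T t7208 (L l225 (T t7209 N))))))))⟩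
def e0_63_106__155_42_101 : Ent 4 := ⟨[a0, a63, a106], [a155, a42, a104], (M a48 (F (T t585 (L l100 (L l140 (T t551 (L l28 (L l140 (L l367 (T t579 N))))))))))⟩
def e0_63_106__155_42_102 : Ent 4 := ⟨[a0, a63, a106], [a155, a42, a105], (M a48 (F (T t309 (L l515 (T t551 (L l28 (L l367 (T t579 N))))))))⟩
def e0_63_106__155_42_103 : Ent 4 := ⟨[a0, a63, a106], [a155, a42, a107], (M a48 (L l499 (F (T t309 (T t551 (L l28 (L l367 (T t579 (K a203 (M a59 (F (L l230 (T t309 (T t4670 N))))) (K a59 (M a203 (L l56 (F (T t3405 (T t551 (L l28 (L l367 (T t579 (K a8 (M a25 (F (T t3405 (T t551 (L l28 (L l367 (T t579 N))))))) (K a25 (M a8 (F (T t3405 (L l19 (L l28 (T t4700 N)))))) N)))))))))) N))))))))))⟩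
def e0_63_106__155_42_104 : Ent 4 := ⟨[a0, a63, a106], [a155, a42, a108], (M a48 (F (T t309 (L l100 (T t551 (L l28 (L l367 (T t579 N))))))))⟩
def e0_63_106__155_42_105 : Ent 4 := ⟨[a0, a63, a106], [a155, a42, a109], (M a48 (F (T t309 (T t551 (L l28 (L l367 (T t579 N)))))))⟩
def e0_63_106__155_42_106 : Ent 4 := ⟨[a0, a63, a106], [a155, a42, a110], (M a48 (F (T t309 (T t551 (L l28 (L l367 (T t579 N)))))))⟩
def e0_63_106__155_42_107 : Ent 4 := ⟨[a0, a63, a106], [a155, a42, a111], (M a240 (F (T t4779 (T t817 (L l137 (T t4781 N))))))⟩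
def e0_63_106__155_42_108 : Ent 4 := ⟨[a0, a63, a106], [a155, a42, a112], (M a48 (F (T t309 (L l28 (L l116 (T t6462 (L l28 (L l116 (L l367 (T t579 N))))))))))⟩
def e0_63_106__155_42_109 : Ent 4 := ⟨[a0, a63, a106], [a155, a42, a113], (M a48 (F (T t309 (T t551 (L l28 (L l367 (T t579 N)))))))⟩
def e0_63_106__155_42_110 : Ent 4 := ⟨[a0, a63, a106], [a155, a42, a114], (M a48 (F (T t309 (L l417 (T t551 (L l28 (L l367 (T t579 N))))))))⟩
def e0_63_106__155_42_111 : Ent 4 := ⟨[a0, a63, a106], [a155, a42, a115], (M a48 (F (T t309 (L l120 (T t551 (L l28 (L l120 (L l367 (T t579 N)))))))))⟩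
def e0_63_106__155_42_112 : Ent 4 := ⟨[a0, a63, a106], [a155, a42, a116], (M a48 (F (T t309 (T t551 (L l28 (L l367 (T t579 N)))))))⟩
def e0_63_106__155_42_113 : Ent 4 := ⟨[a0, a63, a106], [a155, a42, a117], (M a48 (F (L l419 (T t309 (T t551 (L l28 (L l367 (L l419 (T t579 N)))))))))⟩
def e0_63_106__155_42_114 : Ent 4 := ⟨[a0, a63, a106], [a155, a42, a118], (M a48 (F (T t309 (T t551 (L l28 (L l367 (T t579 N)))))))⟩
def e0_63_106__155_42_115 : Ent 4 := ⟨[a0, a63, a106], [a155, a42, a119], (M a48 (F (T t309 (T t551 (L l28 (L l367 (T t579 N)))))))⟩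
def e0_63_106__155_42_116 : Ent 4 := ⟨[a0, a63, a106], [a155, a42, a120], (M a48 (F (T t309 (L l442 (T t551 (L l28 (L l367 (T t579 N))))))))⟩
def e0_63_106__155_42_117 : Ent 4 := ⟨[a0, a63, a106], [a155, a42, a121], (M a48 (F (T t309 (T t551 (L l28 (L l367 (T t579 N)))))))⟩
def e0_63_106__155_42_118 : Ent 4 := ⟨[a0, a63, a106], [a155, a42, a122], (M a48 (F (T t309 (T t551 (L l28 (L l367 (T t579 N)))))))⟩
def e0_63_106__155_42_119 : Ent 4 := ⟨[a0, a63, a106], [a155, a42, a123], (M a48 (F (T t309 (T t551 (L l28 (L l367 (T t579 N)))))))⟩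
def e0_63_106__155_42_120 : Ent 4 := ⟨[a0, a63, a106], [a155, a42, a124], (M a48 (F (T t309 (L l140 (T t551 (L l28 (L l140 (L l367 (T t579 N)))))))))⟩
def e0_63_106__155_42_121 : Ent 4 := ⟨[a0, a63, a106], [a155, a42, a125], (M a48 (F (T t309 (T t551 (L l28 (L l367 (T t579 N)))))))⟩
def e0_63_106__155_42_122 : Ent 4 := ⟨[a0, a63, a106], [a155, a42, a126], (M a48 (F (T t309 (T t551 (L l28 (L l367 (T t579 N)))))))⟩
def e0_63_106__155_42_123 : Ent 4 := ⟨[a0, a63, a106], [a155, a42, a127], (M a48 (F (T t309 (T t551 (L l28 (L l367 (T t6744 (L l28 (L l367 (L l511 (T t6479 N)))))))))))⟩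
def e0_63_106__155_42_124 : Ent 4 := ⟨[a0, a63, a106], [a155, a42, a128], (M a48 (F (T t585 (L l28 (L l367 (T t579 (L l192 (L l220 (L l511 (T t6480 (L l54 (L l160 (T t6481 N)))))))))))))⟩
def e0_63_106__155_42_125 : Ent 4 := ⟨[a0, a63, a106], [a155, a42, a129], (M a48 (F (T t585 (L l217 (T t551 (L l28 (L l367 (T t579 N))))))))⟩
def e0_63_106__155_42_126 : Ent 4 := ⟨[a0, a63, a106], [a155, a42, a130], (M a48 (F (T t309 (T t551 (L l28 (L l367 (T t579 N)))))))⟩
def e0_63_106__155_42_127 : Ent 4 := ⟨[a0, a63, a106], [a155, a42, a131], (M a48 (F (T t309 (L l197 (T t551 (L l28 (L l367 (T t579 N))))))))⟩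
def e0_63_106__155_42_128 : Ent 4 := ⟨[a0, a63, a106], [a155, a42, a132], (M a48 (F (T t585 (L l202 (T t551 (L l28 (L l367 (T t579 N))))))))⟩
def e0_63_106__155_42_129 : Ent 4 := ⟨[a0, a63, a106], [a155, a42, a133], (M a48 (F (T t585 (L l199 (T t551 (L l28 (L l367 (T t579 N))))))))⟩
def e0_63_106__155_42_130 : Ent 4 := ⟨[a0, a63, a106], [a155, a42, a134], (M a48 (F (T t309 (T t551 (L l28 (L l367 (T t579 N)))))))⟩
def e0_63_106__155_42_131 : Ent 4 := ⟨[a0, a63, a106], [a155, a42, a135], (M a48 (F (T t309 (T t551 (L l28 (L l367 (T t579 N)))))))⟩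
def e0_63_106__155_42_132 : Ent 4 := ⟨[a0, a63, a106], [a155, a42, a136], (M a48 (F (T t309 (T t551 (L l28 (L l367 (T t579 N)))))))⟩
def e0_63_106__155_42_133 : Ent 4 := ⟨[a0, a63, a106], [a155, a42, a137], (M a48 (F (T t309 (T t551 (L l28 (L l367 (T t579 N)))))))⟩
def e0_63_106__155_42_134 : Ent 4 := ⟨[a0, a63, a106], [a155, a42, a138], (M a48 (F (T t2348 (L l28 (L l318 (L l367 (T t579 (T t551 N))))))))⟩
def e0_63_106__155_42_135 : Ent 4 := ⟨[a0, a63, a106], [a155, a42, a139], (M a48 (L l207 (F (T t309 (T t551 (L l28 (L l367 (T t579 (K a171 (M a187 (F (T t3405 (T t551 (L l28 (L l367 (T t579 N))))))) (K a187 (M a171 (F (T t3405 (T t551 (L l28 (L l367 (T t579 N))))))) N))))))))))⟩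
def e0_63_106__155_42_136 : Ent 4 := ⟨[a0, a63, a106], [a155, a42, a140], (M a48 (F (T t309 (L l222 (T t551 (L l28 (L l367 (T t579 N))))))))⟩
def e0_63_106__155_42_137 : Ent 4 := ⟨[a0, a63, a106], [a155, a42, a141], (M a48 (F (T t309 (T t551 (L l28 (L l367 (T t579 N)))))))⟩
def e0_63_106__155_42_138 : Ent 4 := ⟨[a0, a63, a106], [a155, a42, a142], (M a48 (F (T t309 (T t551 (L l28 (L l367 (T t579 N)))))))⟩
def e0_63_106__155_42_139 : Ent 4 := ⟨[a0, a63, a106], [a155, a42, a143], (M a48 (L l225 (F (T t309 (L l28 (T t6462 (L l28 (L l367 (T t579 (K a179 (M a167 (F (T t3405 (L l28 (T t6462 (L l28 (L l367 (T t579 N)))))))) (K a167 (M a179 (F (T t3405 (L l28 (T t6462 (L l28 (L l367 (T t579 N)))))))) N)))))))))))⟩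
def e0_63_106__155_42_140 : Ent 4 := ⟨[a0, a63, a106], [a155, a42, a144], (M a12 (F (T t2414 (L l56 (T t2415 (L l170 (T t2305 N)))))))⟩
def e0_63_106__155_42_141 : Ent 4 := ⟨[a0, a63, a106], [a155, a42, a145], (M a48 (F (T t585 (L l167 (T t551 (L l28 (L l367 (T t579 N))))))))⟩
def e0_63_106__155_42_142 : Ent 4 := ⟨[a0, a63, a106], [a155, a42, a146], (M a48 (F (T t3405 (L l197 (T t551 (L l28 (L l367 (T t579 N))))))))⟩
def e0_63_106__155_42_143 : Ent 4 := ⟨[a0, a63, a106], [a155, a42, a147], (M a48 (L l169 (F (T t3405 (T t551 (L l28 (L l367 (T t579 (K a151 (M a159 (F (T t7729 (L l163 (T t551 N))))) (K a159 (M a151 (F (T t7872 (L l28 (L l361 (L l367 (T t579 N))))))) N))))))))))⟩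
def e0_63_106__155_42_144 : Ent 4 := ⟨[a0, a63, a106], [a155, a42, a148], (M a48 (F (T t585 (L l163 (T t551 (L l28 (L l367 (T t579 N))))))))⟩
def e0_63_106__155_42_145 : Ent 4 := ⟨[a0, a63, a106], [a155, a42, a149], (M a240 (F (L l199 (T t4781 (L l199 (L l347 (T t6484 (L l28 (L l199 (L l375 (T t6483 (L l28 (L l199 (L l220 (L l375 (T t6485 (K a133 (M a165 (F (T t6486 (L l28 (L l160 (L l220 (L l311 (L l375 (T t6487 (L l160 (L l220 (T t6488 N)))))))))))) (K a165 (M a90 (L l199 (F (T t4788 (L l180 (T t6489 (K a133 (Fr a181 a122 l447 (V t6489)) (K a181 (M a133 (F (L l180 (T t6489 (L l225 (L l227 (T t6746 (L l455 (T t6490 N))))))))) N)))))))) (K a181 (M a165 (F (T t6492 (T t6493 (L l28 (L l220 (L l375 (T t6487 (L l220 (T t6488 N)))))))))) (K a74 (M a48 (F (T t6494 (L l199 (L l491 (T t781 (L l28 (L l84 (L l318 (L l367 (L l491 (T t579 N)))))))))))) (K a90 (M a48 (L l375 (F (T t3318 (L l199 (L l462 (L l491 (T t781 (L l28 (L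 l367 (L l491 (T t579 (K a208 (M a31 (F (L l28 (L l347 (T t6495 (L l151 (L l220 (T t6496 N)))))))) (K a31 (M a208 (F (T t6497 (L l151 (L l220 (T t6496 N)))))) N)))))))))))))) (K a122 (M a48 (F (T t3318 (L l114 (L l225 (L l491 (T t6471 (L l28 (L l367 (L l491 (T t579 N))))))))))) N))))))))))))))))))))))⟩
def e0_63_106__155_42_146 : Ent 4 := ⟨[a0, a63, a106], [a155, a42, a150], (M a48 (F (T t309 (L l163 (T t551 (L l28 (L l367 (T t579 N))))))))⟩
def e0_63_106__155_42_147 : Ent 4 := ⟨[a0, a63, a106], [a155, a42, a151], (M a48 (L l169 (F (T t309 (L l163 (T t551 (L l28 (L l367 (T t579 (K a147 (M a159 (F (T t7729 (L l163 (T t551 N))))) (K a159 (M a147 (F (L l511 (T t304 (L l28 (L l361 (L l367 (T t579 (L l163 (L l170 (T t551 (K a154 (Fr a192 a149 l519 (Fr a144 a96 l484 (V t7734))) N)))))))))))) N)))))))))))⟩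
def e0_63_106__155_42_148 : Ent 4 := ⟨[a0, a63, a106], [a155, a42, a152], (M a48 (L l164 (F (T t3405 (L l28 (L l367 (T t579 (L l222 (T t551 (K a153 (M a154 (F (T t6900 (L l509 (T t6955 N))))) (K a154 (M a153 (F (L l496 (T t7873 (L l170 (L l222 (L l227 (T t551 (L l26 (L l496 (T t6669 N))))))))))) N)))))))))))⟩
def e0_63_106__155_42_149 : Ent 4 := ⟨[a0, a63, a106], [a155, a42, a153], (M a48 (L l164 (F (T t309 (L l28 (L l367 (T t579 (L l167 (T t551 (K a152 (M a154 (F (T t6900 (L l509 (T t6955 N))))) (K a154 (M a152 (F (L l209 (T t4703 (L l167 (L l170 (L l171 (L l500 (T t7874 (L l167 (L l170 (L l227 (T t551 N))))))))))))) N)))))))))))⟩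
def e0_63_106__155_42_150 : Ent 4 := ⟨[a0, a63, a106], [a155, a42, a154], (M a240 (L l164 (F (T t4779 (L l170 (L l368 (L l512 (T t817 (T t4781 (K a152 (M a153 (F (T t4786 (L l26 (L l496 (T t6669 N)))))) (K a153 (M a152 (F (T t4786 (L l167 (L l170 (L l368 (L l512 (T t817 (T t4781 N))))))))) N)))))))))))⟩
def e0_63_106__155_42_151 : Ent 4 := ⟨[a0, a63, a106], [a155, a42, a156], (M a48 (F (T t3405 (T t551 (L l28 (L l367 (T t579 N)))))))⟩
def e0_63_106__155_42_152 : Ent 4 := ⟨[a0, a63, a106], [a155, a42, a157], (M a48 (F (T t309 (L l167 (T t551 (L l28 (L l367 (T t579 N))))))))⟩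
def e0_63_106__155_42_153 : Ent 4 := ⟨[a0, a63, a106], [a155, a42, a158], (M a48 (F (T t309 (T t551 (L l28 (L l362 (L l367 (T t579 N))))))))⟩
def e0_63_106__155_42_154 : Ent 4 := ⟨[a0, a63, a106], [a155, a42, a159], (M a240 (L l169 (F (T t4779 (L l170 (T t817 (L l361 (T t4781 (K a147 (M a151 (F (T t7872 (L l361 (T t4781 N))))) (K a151 (M a147 (F (T t7478 (L l163 (L l170 (T t817 (L l361 (T t4781 N)))))))) N))))))))))⟩
def e0_63_106__155_42_155 : Ent 4 := ⟨[a0, a63, a106], [a155, a42, a160], (M a12 (F (T t2304 (T t2305 (L l56 (T t2415 N))))))⟩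
def e0_63_106__155_42_156 : Ent 4 := ⟨[a0, a63, a106], [a155, a42, a161], (M a48 (F (T t309 (L l197 (L l453 (T t551 (L l28 (L l367 (T t579 N)))))))))⟩
def e0_63_106__155_42_157 : Ent 4 := ⟨[a0, a63, a106], [a155, a42, a162], (M a48 (F (T t309 (T t551 (L l28 (L l367 (L l380 (T t579 N))))))))⟩
def e0_63_106__155_42_158 : Ent 4 := ⟨[a0, a63, a106], [a155, a42, a163], (M a48 (F (T t309 (T t551 (L l28 (L l367 (T t579 N)))))))⟩
def e0_63_106__155_42_159 : Ent 4 := ⟨[a0, a63, a106], [a155, a42, a164], (M a48 (F (T t309 (L l222 (L l478 (T t551 (L l28 (L l367 (T t579 N)))))))))⟩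
def e0_63_106__155_42_160 : Ent 4 := ⟨[a0, a63, a106], [a155, a42, a165], (M a48 (F (T t309 (L l28 (L l199 (L l483 (T t6462 (L l28 (L l367 (T t579 N))))))))))⟩
def e0_63_106__155_42_161 : Ent 4 := ⟨[a0, a63, a106], [a155, a42, a166], (M a48 (F (T t309 (L l202 (T t551 (L l28 (L l367 (T t579 N))))))))⟩
def e0_63_106__155_42_162 : Ent 4 := ⟨[a0, a63, a106], [a155, a42, a167], (M a48 (L l225 (F (T t309 (T t551 (L l28 (L l367 (T t579 (K a179 (M a143 (F (T t3405 (L l182 (T t551 (L l182 (T t7346 N))))))) (K a143 (M a179 (F (T t3405 (L l28 (T t6462 (L l28 (L l367 (T t579 N)))))))) N))))))))))⟩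
def e0_63_106__155_42_163 : Ent 4 := ⟨[a0, a63, a106], [a155, a42, a168], (M a48 (F (T t309 (T t551 (L l28 (L l367 (L l400 (T t579 N))))))))⟩
def e0_63_106__155_42_164 : Ent 4 := ⟨[a0, a63, a106], [a155, a42, a169], (M a48 (F (T t309 (L l217 (T t551 (L l28 (L l367 (T t579 N))))))))⟩
def e0_63_106__155_42_165 : Ent 4 := ⟨[a0, a63, a106], [a155, a42, a170], (M a48 (F (T t309 (L l220 (T t551 (L l28 (L l206 (L l220 (L l367 (L l404 (T t552 (L l28 (L l206 (L l367 (L l404 (L l511 (T t553 N)))))))))))))))))⟩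
def e0_63_106__155_42_166 : Ent 4 := ⟨[a0, a63, a106], [a155, a42, a171], (M a48 (L l207 (F (T t309 (T t551 (L l28 (L l367 (T t579 (K a139 (M a187 (F (T t3405 (T t551 (L l28 (L l367 (T t579 N))))))) (K a187 (M a139 (F (T t3405 (T t551 (L l184 (T t7347 N)))))) N))))))))))⟩
def e0_63_106__155_42_167 : Ent 4 := ⟨[a0, a63, a106], [a155, a42, a172], (M a48 (F (T t309 (T t551 (L l28 (L l367 (T t579 N)))))))⟩
def e0_63_106__155_42_168 : Ent 4 := ⟨[a0, a63, a106], [a155, a42, a173], (M a48 (F (T t309 (T t551 (L l28 (L l367 (T t579 N)))))))⟩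
def e0_63_106__155_42_169 : Ent 4 := ⟨[a0, a63, a106], [a155, a42, a174], (M a48 (F (T t309 (T t551 (L l28 (L l367 (T t579 N)))))))⟩
def e0_63_106__155_42_170 : Ent 4 := ⟨[a0, a63, a106], [a155, a42, a175], (M a48 (F (T t309 (T t551 (L l28 (L l367 (T t579 N)))))))⟩
def e0_63_106__155_42_171 : Ent 4 := ⟨[a0, a63, a106], [a155, a42, a176], (M a240 (F (T t4786 (L l192 (T t817 (L l190 (L l192 (T t4781 N))))))))⟩
def e0_63_106__155_42_172 : Ent 4 := ⟨[a0, a63, a106], [a155, a42, a177], (M a48 (F (T t309 (L l182 (L l417 (T t551 (L l28 (L l367 (T t579 N)))))))))⟩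
def e0_63_106__155_42_173 : Ent 4 := ⟨[a0, a63, a106], [a155, a42, a178], (M a48 (F (T t309 (L l182 (T t551 (L l28 (L l367 (T t579 N))))))))⟩
def e0_63_106__155_42_174 : Ent 4 := ⟨[a0, a63, a106], [a155, a42, a179], (M a48 (L l225 (F (T t309 (L l182 (T t551 (L l28 (L l367 (T t579 (K a167 (M a143 (F (T t3405 (L l182 (T t551 (L l182 (T t7346 N))))))) (K a143 (M a167 (F (T t3405 (L l28 (T t6462 (L l28 (L l367 (T t579 N)))))))) N)))))))))))⟩
def e0_63_106__155_42_175 : Ent 4 := ⟨[a0, a63, a106], [a155, a42, a180], (M a48 (F (T t309 (L l186 (L l442 (T t551 (L l28 (L l367 (T t579 N)))))))))⟩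
def e0_63_106__155_42_176 : Ent 4 := ⟨[a0, a63, a106], [a155, a42, a181], (M a48 (F (L l419 (T t309 (L l190 (L l199 (T t551 (L l28 (L l367 (L l419 (T t579 N)))))))))))⟩
def e0_63_106__155_42_177 : Ent 4 := ⟨[a0, a63, a106], [a155, a42, a182], (M a48 (F (T t309 (T t551 (L l28 (L l367 (T t579 N)))))))⟩
def e0_63_106__155_42_178 : Ent 4 := ⟨[a0, a63, a106], [a155, a42, a183], (M a48 (F (T t309 (L l202 (T t551 (L l28 (L l367 (T t579 N))))))))⟩
def e0_63_106__155_42_179 : Ent 4 := ⟨[a0, a63, a106], [a155, a42, a184], (M a48 (F (T t309 (L l186 (T t551 (L l28 (L l367 (T t579 N))))))))⟩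
def e0_63_106__155_42_180 : Ent 4 := ⟨[a0, a63, a106], [a155, a42, a185], (M a48 (F (T t309 (T t551 (L l28 (L l367 (T t579 N)))))))⟩
def e0_63_106__155_42_181 : Ent 4 := ⟨[a0, a63, a106], [a155, a42, a186], (M a48 (F (T t309 (L l190 (T t551 (L l28 (L l367 (T t579 N))))))))⟩
def e0_63_106__155_42_182 : Ent 4 := ⟨[a0, a63, a106], [a155, a42, a187], (M a48 (L l207 (F (T t309 (T t551 (L l28 (L l367 (T t579 (K a139 (M a171 (F (T t3405 (T t551 (L l28 (L l367 (T t579 N))))))) (K a171 (M a139 (F (T t3405 (T t551 (L l184 (T t7347 N)))))) N))))))))))⟩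
def e0_63_106__155_42_183 : Ent 4 := ⟨[a0, a63, a106], [a155, a42, a188], (M a48 (F (T t309 (L l186 (T t551 (L l28 (L l367 (T t579 N))))))))⟩
def e0_63_106__155_42_184 : Ent 4 := ⟨[a0, a63, a106], [a155, a42, a189], (M a48 (F (T t309 (L l217 (T t551 (L l28 (L l367 (T t579 N))))))))⟩
def e0_63_106__155_42_185 : Ent 4 := ⟨[a0, a63, a106], [a155, a42, a190], (M a48 (F (T t309 (T t551 (L l28 (L l367 (T t579 N)))))))⟩
def e0_63_106__155_42_186 : Ent 4 := ⟨[a0, a63, a106], [a155, a42, a191], (M a48 (F (T t309 (L l190 (L l220 (T t551 (L l28 (L l367 (T t6498 (L l28 (L l367 (L l511 (T t6499 N)))))))))))))⟩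
def e0_63_106__155_42_187 : Ent 4 := ⟨[a0, a63, a106], [a155, a42, a192], (M a240 (F (L l339 (T t4781 (L l236 (L l339 (T t6500 (L l296 (L l339 (T t6501 (L l28 (L l339 (T t6502 (L l339 (T t6503 (K a133 (M a90 (L l339 (F (T t4788 (T t6504 (K a74 (Fr a15 a165 l483 (V t6505)) (K a15 (Fr a74 a122 l130 (V t6506)) N))))))) (K a85 (M a12 (F (L l292 (T t2745 (L l272 (L l339 (T t6595 N))))))) (K a181 (M a12 (F (T t3358 (L l56 (L l272 (T t2415 (L l225 (L l272 (T t6512 N))))))))) (K a74 (M a165 (L l339 (F (T t6492 (L l296 (T t6513 (L l54 (L l84 (L l318 (T t6514 (K a133 (Fr a15 a90 l483 (V t6515)) (K a15 (M a133 (F (T t6516 (L l28 (L l236 (L l318 (L l484 (T t6517 N)))))))) N)))))))))))) (K a90 (M a252 (F (L l334 (T t6518 (L l148 (L l489 (L l511 (T t6519 (L l309 (L l367 (T t6675 N))))))))))) (K a122 (M a12 (F (T t2747 (L l56 (L l272 (T t2415 (L l225 (L l272 (T t6512 N))))))))) (K a15 (M a248 (L l339 (F (T t6520 (L l22 (L l164 (T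 t6521 (K a133 (M a74 (F (T t6522 (L l3 (L l56 (L l334 (T t6523 N))))))) (K a74 (M a133 (F (T t3821 (T t6520 (L l469 (L l484 (T t6524 N))))))) N))))))))) N))))))))))))))))))))))⟩
def e0_63_106__155_42_188 : Ent 4 := ⟨[a0, a63, a106], [a155, a42, a193], (M a48 (F (T t585 (L l515 (T t551 (L l28 (L l367 (T t579 N))))))))⟩
def e0_63_106__155_42_189 : Ent 4 := ⟨[a0, a63, a106], [a155, a42, a194], (M a48 (F (T t2348 (L l28 (L l234 (L l367 (T t579 (T t551 N))))))))⟩
def e0_63_106__155_42_190 : Ent 4 := ⟨[a0, a63, a106], [a155, a42, a195], (M a48 (F (T t585 (L l273 (T t551 (L l28 (L l367 (T t579 N))))))))⟩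
def e0_63_106__155_42_191 : Ent 4 := ⟨[a0, a63, a106], [a155, a42, a196], (M a48 (F (T t585 (L l495 (T t551 (L l28 (L l367 (T t579 N))))))))⟩
def e0_63_106__155_42_192 : Ent 4 := ⟨[a0, a63, a106], [a155, a42, a197], (M a240 (F (L l236 (T t4779 (L l491 (T t817 (T t4781 N)))))))⟩
def e0_63_106__155_42_193 : Ent 4 := ⟨[a0, a63, a106], [a155, a42, a198], (M a48 (F (T t2348 (L l28 (L l234 (L l367 (T t579 (T t551 N))))))))⟩
def e0_63_106__155_42_194 : Ent 4 := ⟨[a0, a63, a106], [a155, a42, a199], (M a48 (F (T t309 (T t551 (L l28 (L l367 (T t579 N)))))))⟩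
def e0_63_106__155_42_195 : Ent 4 := ⟨[a0, a63, a106], [a155, a42, a200], (M a48 (F (T t2348 (L l28 (L l230 (L l367 (T t579 (T t551 N))))))))⟩
def e0_63_106__155_42_196 : Ent 4 := ⟨[a0, a63, a106], [a155, a42, a201], (M a48 (F (T t2348 (L l28 (L l230 (L l367 (T t579 (T t551 N))))))))⟩
def e0_63_106__155_42_197 : Ent 4 := ⟨[a0, a63, a106], [a155, a42, a202], (M a240 (F (L l236 (T t4786 (T t817 (L l318 (T t4781 N)))))))⟩
def e0_63_106__155_42_198 : Ent 4 := ⟨[a0, a63, a106], [a155, a42, a203], (M a48 (L l499 (F (T t2348 (L l28 (L l230 (L l367 (T t579 (T t551 (K a107 (M a59 (F (L l230 (T t309 (T t4670 N))))) (K a59 (M a107 (L l56 (F (T t551 (L l169 (T t7875 (K a8 (M a25 (L l320 (F (T t551 (L l169 (T t7875 (K a73 (M a138 (F (L l81 (T t6697 (L l169 (T t7876 N)))))) (K a138 (M a73 (F (T t551 (L l158 (L l169 (T t7444 N)))))) N)))))))) (K a25 (M a8 (F (T t2348 (L l19 (L l28 (T t4700 N)))))) N)))))))) N)))))))))))⟩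
def e0_63_106__155_42_199 : Ent 4 := ⟨[a0, a63, a106], [a155, a42, a204], (M a48 (F (T t585 (L l298 (T t551 (L l28 (L l367 (T t579 N))))))))⟩
def e0_63_106__155_42_200 : Ent 4 := ⟨[a0, a63, a106], [a155, a42, a205], (M a48 (F (T t309 (T t551 (L l28 (L l367 (T t579 N)))))))⟩
def e0_63_106__155_42_201 : Ent 4 := ⟨[a0, a63, a106], [a155, a42, a206], (M a48 (F (T t2348 (L l28 (L l234 (L l367 (T t579 (T t551 N))))))))⟩
def e0_63_106__155_42_202 : Ent 4 := ⟨[a0, a63, a106], [a155, a42, a207], (M a51 (F (T t7877 (L l225 (L l301 (T t7209 (L l26 (T t7208 N))))))))⟩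
def e0_63_106__155_42_203 : Ent 4 := ⟨[a0, a63, a106], [a155, a42, a208], (M a12 (F (T t2419 (L l375 (T t2305 (L l56 (T t2415 N)))))))⟩
def e0_63_106__155_42_204 : Ent 4 := ⟨[a0, a63, a106], [a155, a42, a209], (M a48 (F (T t585 (L l371 (T t551 (L l28 (L l367 (T t579 N))))))))⟩
def e0_63_106__155_42_205 : Ent 4 := ⟨[a0, a63, a106], [a155, a42, a210], (M a48 (F (T t309 (L l273 (T t551 (L l28 (L l367 (T t579 N))))))))⟩
def e0_63_106__155_42_206 : Ent 4 := ⟨[a0, a63, a106], [a155, a42, a211], (M a48 (F (T t309 (T t551 (L l28 (L l245 (L l367 (T t579 N))))))))⟩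
def e0_63_106__155_42_207 : Ent 4 := ⟨[a0, a63, a106], [a155, a42, a212], (M a48 (F (T t585 (L l351 (T t551 (L l28 (L l367 (T t579 N))))))))⟩
def e0_63_106__155_42_208 : Ent 4 := ⟨[a0, a63, a106], [a155, a42, a213], (M a48 (F (T t585 (L l347 (T t551 (L l28 (L l246 (L l367 (T t579 N)))))))))⟩
def e0_63_106__155_42_209 : Ent 4 := ⟨[a0, a63, a106], [a155, a42, a214], (M a48 (F (T t309 (T t551 (L l28 (L l367 (T t579 N)))))))⟩
def e0_63_106__155_42_210 : Ent 4 := ⟨[a0, a63, a106], [a155, a42, a215], (M a48 (F (T t309 (T t551 (L l28 (L l245 (L l367 (T t579 N))))))))⟩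
def e0_63_106__155_42_211 : Ent 4 := ⟨[a0, a63, a106], [a155, a42, a216], (M a48 (F (T t309 (L l298 (T t551 (L l28 (L l367 (T t579 N))))))))⟩
def e0_63_106__155_42_212 : Ent 4 := ⟨[a0, a63, a106], [a155, a42, a217], (M a48 (F (T t309 (T t551 (L l28 (L l367 (T t579 N)))))))⟩
def e0_63_106__155_42_213 : Ent 4 := ⟨[a0, a63, a106], [a155, a42, a218], (M a48 (F (T t2348 (L l28 (L l246 (L l282 (L l367 (T t579 (L l303 (T t551 N))))))))))⟩
def e0_63_106__155_42_214 : Ent 4 := ⟨[a0, a63, a106], [a155, a42, a219], (M a48 (L l355 (F (T t309 (T t551 (L l28 (L l245 (L l367 (T t579 (K a27 (M a91 (F (T t3405 (T t551 (L l28 (L l245 (L l367 (T t579 N)))))))) (K a91 (M a27 (F (T t3405 (T t551 (L l28 (L l245 (L l367 (T t579 N)))))))) N)))))))))))⟩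
def e0_63_106__155_42_215 : Ent 4 := ⟨[a0, a63, a106], [a155, a42, a220], (M a48 (F (T t309 (T t551 (L l28 (L l241 (L l367 (T t579 N))))))))⟩
def e0_63_106__155_42_216 : Ent 4 := ⟨[a0, a63, a106], [a155, a42, a221], (M a48 (F (T t309 (T t551 (L l28 (L l241 (L l367 (T t579 N))))))))⟩
def e0_63_106__155_42_217 : Ent 4 := ⟨[a0, a63, a106], [a155, a42, a222], (M a48 (F (T t309 (T t551 (L l28 (L l241 (L l367 (T t579 N))))))))⟩
def e0_63_106__155_42_218 : Ent 4 := ⟨[a0, a63, a106], [a155, a42, a223], (M a240 (L l367 (F (T t4786 (L l368 (T t817 (L l361 (T t4781 (K a19 (M a87 (F (T t6965 (L l10 (L l368 (T t817 (L l361 (T t4781 N)))))))) (K a87 (M a19 (F (T t6965 (L l368 (T t817 (L l93 (L l361 (T t4781 N)))))))) N))))))))))⟩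
def e0_63_106__155_42_219 : Ent 4 := ⟨[a0, a63, a106], [a155, a42, a224], (M a48 (F (T t585 (L l268 (L l376 (T t551 (L l28 (L l367 (L l376 (T t579 N))))))))))⟩
def e0_63_106__155_42_220 : Ent 4 := ⟨[a0, a63, a106], [a155, a42, a225], (M a48 (F (T t309 (L l273 (T t551 (L l28 (L l367 (T t579 N))))))))⟩
def e0_63_106__155_42_221 : Ent 4 := ⟨[a0, a63, a106], [a155, a42, a226], (M a48 (F (T t585 (T t551 (L l28 (L l367 (T t579 N)))))))⟩
def e0_63_106__155_42_222 : Ent 4 := ⟨[a0, a63, a106], [a155, a42, a227], (M a48 (F (T t309 (T t551 (L l28 (L l367 (L l380 (T t579 N))))))))⟩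
def e0_63_106__155_42_223 : Ent 4 := ⟨[a0, a63, a106], [a155, a42, a228], (M a48 (F (T t309 (L l298 (T t551 (L l28 (L l367 (T t579 N))))))))⟩
def e0_63_106__155_42_224 : Ent 4 := ⟨[a0, a63, a106], [a155, a42, a229], (M a48 (F (T t309 (L l28 (T t2289 (L l28 (L l367 (T t579 N))))))))⟩
def e0_63_106__155_42_225 : Ent 4 := ⟨[a0, a63, a106], [a155, a42, a230], (M a48 (F (T t309 (T t551 (L l28 (L l367 (T t579 N)))))))⟩
def e0_63_106__155_42_226 : Ent 4 := ⟨[a0, a63, a106], [a155, a42, a231], (M a48 (F (T t309 (T t551 (L l28 (L l367 (T t579 N)))))))⟩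
def e0_63_106__155_42_227 : Ent 4 := ⟨[a0, a63, a106], [a155, a42, a232], (M a48 (F (T t585 (T t551 (L l28 (L l367 (T t579 N)))))))⟩
def e0_63_106__155_42_228 : Ent 4 := ⟨[a0, a63, a106], [a155, a42, a233], (M a48 (F (T t309 (T t551 (L l28 (L l367 (T t579 N)))))))⟩
def e0_63_106__155_42_229 : Ent 4 := ⟨[a0, a63, a106], [a155, a42, a234], (M a48 (F (T t2348 (L l28 (L l282 (L l367 (T t579 (T t551 N))))))))⟩
def e0_63_106__155_42_230 : Ent 4 := ⟨[a0, a63, a106], [a155, a42, a235], (M a48 (F (T t309 (T t551 (L l28 (L l367 (T t579 N)))))))⟩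
def e0_63_106__155_42_231 : Ent 4 := ⟨[a0, a63, a106], [a155, a42, a236], (M a48 (F (T t309 (T t551 (L l28 (L l367 (L l400 (T t579 N))))))))⟩
def e0_63_106__155_42_232 : Ent 4 := ⟨[a0, a63, a106], [a155, a42, a237], (M a48 (F (T t309 (T t551 (L l28 (L l367 (T t579 N)))))))⟩
def e0_63_106__155_42_233 : Ent 4 := ⟨[a0, a63, a106], [a155, a42, a238], (M a48 (F (T t309 (T t551 (L l28 (L l367 (T t579 N)))))))⟩
def e0_63_106__155_42_234 : Ent 4 := ⟨[a0, a63, a106], [a155, a42, a239], (M a48 (F (T t309 (T t551 (L l28 (L l289 (L l367 (L l404 (T t579 N)))))))))⟩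
def e0_63_106__155_42_235 : Ent 4 := ⟨[a0, a63, a106], [a155, a42, a240], (M a12 (F (T t2419 (L l298 (T t2305 (L l56 (T t2415 N)))))))⟩
def e0_63_106__155_42_236 : Ent 4 := ⟨[a0, a63, a106], [a155, a42, a241], (M a48 (F (T t309 (L l258 (T t551 (L l28 (L l367 (T t579 N))))))))⟩
def e0_63_106__155_42_237 : Ent 4 := ⟨[a0, a63, a106], [a155, a42, a242], (M a48 (F (T t309 (L l258 (T t551 (L l28 (L l367 (T t579 N))))))))⟩
def e0_63_106__155_42_238 : Ent 4 := ⟨[a0, a63, a106], [a155, a42, a243], (M a48 (F (T t585 (L l258 (T t551 (L l28 (L l367 (T t579 N))))))))⟩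
def e0_63_106__155_42_239 : Ent 4 := ⟨[a0, a63, a106], [a155, a42, a244], (M a48 (F (T t309 (L l262 (T t551 (L l28 (L l367 (T t579 N))))))))⟩
def e0_63_106__155_42_240 : Ent 4 := ⟨[a0, a63, a106], [a155, a42, a245], (M a48 (F (L l419 (T t309 (L l266 (T t551 (L l28 (L l367 (L l419 (T t579 N))))))))))⟩
def e0_63_106__155_42_241 : Ent 4 := ⟨[a0, a63, a106], [a155, a42, a246], (M a48 (F (T t309 (T t551 (L l28 (L l367 (T t579 N)))))))⟩
def e0_63_106__155_42_242 : Ent 4 := ⟨[a0, a63, a106], [a155, a42, a247], (M a48 (F (T t309 (T t551 (L l28 (L l367 (T t579 N)))))))⟩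
def e0_63_106__155_42_243 : Ent 4 := ⟨[a0, a63, a106], [a155, a42, a248], (M a48 (F (T t309 (L l262 (T t551 (L l28 (L l367 (T t579 N))))))))⟩
def e0_63_106__155_42_244 : Ent 4 := ⟨[a0, a63, a106], [a155, a42, a249], (M a48 (F (T t309 (T t551 (L l28 (L l367 (T t579 N)))))))⟩
def e0_63_106__155_42_245 : Ent 4 := ⟨[a0, a63, a106], [a155, a42, a250], (M a48 (F (T t2348 (L l28 (L l282 (L l367 (T t579 (L l266 (T t551 N)))))))))⟩
def e0_63_106__155_42_246 : Ent 4 := ⟨[a0, a63, a106], [a155, a42, a251], (M a48 (F (T t309 (T t551 (L l28 (L l367 (T t579 N)))))))⟩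
def e0_63_106__155_42_247 : Ent 4 := ⟨[a0, a63, a106], [a155, a42, a252], (M a48 (F (T t585 (L l262 (T t551 (L l28 (L l367 (T t579 N))))))))⟩
def e0_63_106__155_42_248 : Ent 4 := ⟨[a0, a63, a106], [a155, a42, a253], (M a48 (F (T t309 (T t551 (L l28 (L l367 (T t579 N)))))))⟩
def e0_63_106__155_42_249 : Ent 4 := ⟨[a0, a63, a106], [a155, a42, a254], (M a48 (F (T t309 (T t551 (L l28 (L l367 (T t579 N)))))))⟩
def e0_63_106__155_42_250 : Ent 4 := ⟨[a0, a63, a106], [a155, a42, a255], (M a48 (F (T t585 (L l266 (T t551 (L l28 (L l469 (T t6526 (L l28 (L l289 (L l367 (T t6527 N))))))))))))⟩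
def b0_63_106__155_42 : Blk 4 := ⟨[0, 63, 106], [155, 42], [1, 2, 3, 4, 5, 6, 7, 8, 9, 10, 11, 12, 13, 14, 15, 16, 17, 18, 19, 20, 21, 22, 23, 24, 25, 26, 27, 28, 29, 30, 31, 32, 33, 34, 35, 36, 37, 38, 39, 40, 41, 43, 44, 45, 46, 47, 48, 49, 50, 51, 52, 53, 54, 55, 56, 57, 58, 59, 60, 61, 62, 64, 65, 66, 67, 68, 69, 70, 71, 72, 73, 74, 75, 76, 77, 78, 79, 80, 81, 82, 83, 84, 85, 86, 87, 88, 89, 90, 91, 92, 93, 94, 95, 96, 97, 98, 99, 100, 101, 102, 103, 104, 105, 107, 108, 109, 110, 111, 112, 113, 114, 115, 116, 117, 118, 119, 120, 121, 122, 123, 124, 125, 126, 127, 128, 129, 130, 131, 132, 133, 134, 135, 136, 137, 138, 139, 140, 141, 142, 143, 144, 145, 146, 147, 148, 149, 150, 151, 152, 153, 154, 156, 157, 158, 159, 160, 161, 162, 163, 164, 165, 166, 167, 168, 169, 170, 171, 172, 173, 174, 175, 176, 177, 178, 179, 180, 181, 182, 183, 184, 185, 186, 187, 188, 189, 190, 191, 192, 193, 194, 195, 196, 197, 198, 199,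 200, 201, 202, 203, 204, 205, 206, 207, 208, 209, 210, 211, 212, 213, 214, 215, 216, 217, 218, 219, 220, 221, 222, 223, 224, 225, 226, 227, 228, 229, 230, 231, 232, 233, 234, 235, 236, 237, 238, 239, 240, 241, 242, 243, 244, 245, 246, 247, 248, 249, 250, 251, 252, 253, 254, 255], [e0_63_106__155_42_0, e0_63_106__155_42_1, e0_63_106__155_42_2, e0_63_106__155_42_3, e0_63_106__155_42_4, e0_63_106__155_42_5, e0_63_106__155_42_6, e0_63_106__155_42_7, e0_63_106__155_42_8, e0_63_106__155_42_9, e0_63_106__155_42_10, e0_63_106__155_42_11, e0_63_106__155_42_12, e0_63_106__155_42_13, e0_63_106__155_42_14, e0_63_106__155_42_15, e0_63_106__155_42_16, e0_63_106__155_42_17, e0_63_106__155_42_18, e0_63_106__155_42_19, e0_63_106__155_42_20, e0_63_106__155_42_21, e0_63_106__155_42_22, e0_63_106__155_42_23, e0_63_106__155_42_24, e0_63_106__155_42_25, e0_63_106__155_42_26, e0_63_106__155_42_27, e0_63_106__155_42_28, e0_63_106__155_42_29,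 e0_63_106__155_42_30, e0_63_106__155_42_31, e0_63_106__155_42_32, e0_63_106__155_42_33, e0_63_106__155_42_34, e0_63_106__155_42_35, e0_63_106__155_42_36, e0_63_106__155_42_37, e0_63_106__155_42_38, e0_63_106__155_42_39, e0_63_106__155_42_40, e0_63_106__155_42_41, e0_63_106__155_42_42, e0_63_106__155_42_43, e0_63_106__155_42_44, e0_63_106__155_42_45, e0_63_106__155_42_46, e0_63_106__155_42_47, e0_63_106__155_42_48, e0_63_106__155_42_49, e0_63_106__155_42_50, e0_63_106__155_42_51, e0_63_106__155_42_52, e0_63_106__155_42_53, e0_63_106__155_42_54, e0_63_106__155_42_55, e0_63_106__155_42_56, e0_63_106__155_42_57, e0_63_106__155_42_58, e0_63_106__155_42_59, e0_63_106__155_42_60, e0_63_106__155_42_61, e0_63_106__155_42_62, e0_63_106__155_42_63, e0_63_106__155_42_64, e0_63_106__155_42_65, e0_63_106__155_42_66, e0_63_106__155_42_67, e0_63_106__155_42_68, e0_63_106__155_42_69, e0_63_106__155_42_70, e0_63_106__155_42_71, e0_63_106__155_42_72,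 e0_63_106__155_42_73, e0_63_106__155_42_74, e0_63_106__155_42_75, e0_63_106__155_42_76, e0_63_106__155_42_77, e0_63_106__155_42_78, e0_63_106__155_42_79, e0_63_106__155_42_80, e0_63_106__155_42_81, e0_63_106__155_42_82, e0_63_106__155_42_83, e0_63_106__155_42_84, e0_63_106__155_42_85, e0_63_106__155_42_86, e0_63_106__155_42_87, e0_63_106__155_42_88, e0_63_106__155_42_89, e0_63_106__155_42_90, e0_63_106__155_42_91, e0_63_106__155_42_92, e0_63_106__155_42_93, e0_63_106__155_42_94, e0_63_106__155_42_95, e0_63_106__155_42_96, e0_63_106__155_42_97, e0_63_106__155_42_98, e0_63_106__155_42_99, e0_63_106__155_42_100, e0_63_106__155_42_101, e0_63_106__155_42_102, e0_63_106__155_42_103, e0_63_106__155_42_104, e0_63_106__155_42_105, e0_63_106__155_42_106, e0_63_106__155_42_107, e0_63_106__155_42_108, e0_63_106__155_42_109, e0_63_106__155_42_110, e0_63_106__155_42_111, e0_63_106__155_42_112, e0_63_106__155_42_113, e0_63_106__155_42_114,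 e0_63_106__155_42_115, e0_63_106__155_42_116, e0_63_106__155_42_117, e0_63_106__155_42_118, e0_63_106__155_42_119, e0_63_106__155_42_120, e0_63_106__155_42_121, e0_63_106__155_42_122, e0_63_106__155_42_123, e0_63_106__155_42_124, e0_63_106__155_42_125, e0_63_106__155_42_126, e0_63_106__155_42_127, e0_63_106__155_42_128, e0_63_106__155_42_129, e0_63_106__155_42_130, e0_63_106__155_42_131, e0_63_106__155_42_132, e0_63_106__155_42_133, e0_63_106__155_42_134, e0_63_106__155_42_135, e0_63_106__155_42_136, e0_63_106__155_42_137, e0_63_106__155_42_138, e0_63_106__155_42_139, e0_63_106__155_42_140, e0_63_106__155_42_141, e0_63_106__155_42_142, e0_63_106__155_42_143, e0_63_106__155_42_144, e0_63_106__155_42_145, e0_63_106__155_42_146, e0_63_106__155_42_147, e0_63_106__155_42_148, e0_63_106__155_42_149, e0_63_106__155_42_150, e0_63_106__155_42_151, e0_63_106__155_42_152, e0_63_106__155_42_153, e0_63_106__155_42_154, e0_63_106__155_42_155,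 e0_63_106__155_42_156, e0_63_106__155_42_157, e0_63_106__155_42_158, e0_63_106__155_42_159, e0_63_106__155_42_160, e0_63_106__155_42_161, e0_63_106__155_42_162, e0_63_106__155_42_163, e0_63_106__155_42_164, e0_63_106__155_42_165, e0_63_106__155_42_166, e0_63_106__155_42_167, e0_63_106__155_42_168, e0_63_106__155_42_169, e0_63_106__155_42_170, e0_63_106__155_42_171, e0_63_106__155_42_172, e0_63_106__155_42_173, e0_63_106__155_42_174, e0_63_106__155_42_175, e0_63_106__155_42_176, e0_63_106__155_42_177, e0_63_106__155_42_178, e0_63_106__155_42_179, e0_63_106__155_42_180, e0_63_106__155_42_181, e0_63_106__155_42_182, e0_63_106__155_42_183, e0_63_106__155_42_184, e0_63_106__155_42_185, e0_63_106__155_42_186, e0_63_106__155_42_187, e0_63_106__155_42_188, e0_63_106__155_42_189, e0_63_106__155_42_190, e0_63_106__155_42_191, e0_63_106__155_42_192, e0_63_106__155_42_193, e0_63_106__155_42_194, e0_63_106__155_42_195, e0_63_106__155_42_196,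 e0_63_106__155_42_197, e0_63_106__155_42_198, e0_63_106__155_42_199, e0_63_106__155_42_200, e0_63_106__155_42_201, e0_63_106__155_42_202, e0_63_106__155_42_203, e0_63_106__155_42_204, e0_63_106__155_42_205, e0_63_106__155_42_206, e0_63_106__155_42_207, e0_63_106__155_42_208, e0_63_106__155_42_209, e0_63_106__155_42_210, e0_63_106__155_42_211, e0_63_106__155_42_212, e0_63_106__155_42_213, e0_63_106__155_42_214, e0_63_106__155_42_215, e0_63_106__155_42_216, e0_63_106__155_42_217, e0_63_106__155_42_218, e0_63_106__155_42_219, e0_63_106__155_42_220, e0_63_106__155_42_221, e0_63_106__155_42_222, e0_63_106__155_42_223, e0_63_106__155_42_224, e0_63_106__155_42_225, e0_63_106__155_42_226, e0_63_106__155_42_227, e0_63_106__155_42_228, e0_63_106__155_42_229, e0_63_106__155_42_230, e0_63_106__155_42_231, e0_63_106__155_42_232, e0_63_106__155_42_233, e0_63_106__155_42_234, e0_63_106__155_42_235, e0_63_106__155_42_236, e0_63_106__155_42_237,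 e0_63_106__155_42_238, e0_63_106__155_42_239, e0_63_106__155_42_240, e0_63_106__155_42_241, e0_63_106__155_42_242, e0_63_106__155_42_243, e0_63_106__155_42_244, e0_63_106__155_42_245, e0_63_106__155_42_246, e0_63_106__155_42_247, e0_63_106__155_42_248, e0_63_106__155_42_249, e0_63_106__155_42_250], by decide +kernel, by decide +kernel⟩
def e0_63_106__159_42_0 : Ent 4 := ⟨[a0, a63, a106], [a159, a42, a1], (M a240 (F (T t4779 (L l170 (T t817 (L l361 (T t4781 N)))))))⟩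
def e0_63_106__159_42_1 : Ent 4 := ⟨[a0, a63, a106], [a159, a42, a2], (M a240 (L l66 (F (T t4779 (L l170 (T t817 (L l361 (T t4781 (K a22 (M a62 (F (T t4786 (L l22 (L l306 (T t5926 N)))))) (K a62 (M a22 (F (T t6609 (L l170 (T t817 (L l361 (T t4781 N))))))) N))))))))))⟩
def e0_63_106__159_42_2 : Ent 4 := ⟨[a0, a63, a106], [a159, a42, a3], (M a240 (F (L l309 (T t4779 (L l45 (L l170 (T t817 (L l361 (T t4781 N)))))))))⟩
def e0_63_106__159_42_3 : Ent 4 := ⟨[a0, a63, a106], [a159, a42, a5], (M a240 (F (T t4779 (L l170 (T t817 (L l361 (T t4781 N)))))))⟩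
def e0_63_106__159_42_4 : Ent 4 := ⟨[a0, a63, a106], [a159, a42, a6], (M a240 (F (T t4779 (L l170 (T t817 (L l361 (T t4781 N)))))))⟩
def e0_63_106__159_42_5 : Ent 4 := ⟨[a0, a63, a106], [a159, a42, a7], (M a240 (F (T t4779 (L l170 (T t817 (L l361 (T t4781 N)))))))⟩
def e0_63_106__159_42_6 : Ent 4 := ⟨[a0, a63, a106], [a159, a42, a10], (M a240 (L l54 (F (T t4786 (L l170 (T t817 (L l318 (L l361 (T t4781 (K a26 (M a58 (F (T t4786 (T t7218 (L l462 (T t7219 N)))))) (K a58 (M a26 (F (L l426 (T t4786 (L l170 (T t817 (L l318 (L l361 (L l462 (T t6482 N)))))))))) N)))))))))))⟩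
def e0_63_106__159_42_7 : Ent 4 := ⟨[a0, a63, a106], [a159, a42, a11], (M a240 (F (T t4786 (L l170 (T t817 (L l321 (L l361 (T t4781 N))))))))⟩
def e0_63_106__159_42_8 : Ent 4 := ⟨[a0, a63, a106], [a159, a42, a15], (M a12 (F (T t2419 (L l170 (L l327 (T t2305 (L l56 (T t2415 N))))))))⟩
def e0_63_106__159_42_9 : Ent 4 := ⟨[a0, a63, a106], [a159, a42, a16], (M a240 (F (T t4786 (L l170 (L l340 (T t4780 (L l361 (T t4781 N))))))))⟩
def e0_63_106__159_42_10 : Ent 4 := ⟨[a0, a63, a106], [a159, a42, a17], (M a240 (F (T t4779 (L l10 (L l170 (T t817 (L l361 (T t4781 N))))))))⟩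
def e0_63_106__159_42_11 : Ent 4 := ⟨[a0, a63, a106], [a159, a42, a18], (M a240 (F (T t4779 (L l10 (L l45 (L l170 (T t817 (L l361 (T t4781 N)))))))))⟩
def e0_63_106__159_42_12 : Ent 4 := ⟨[a0, a63, a106], [a159, a42, a19], (M a240 (F (T t4786 (L l10 (L l170 (T t817 (L l361 (T t4781 N))))))))⟩
def e0_63_106__159_42_13 : Ent 4 := ⟨[a0, a63, a106], [a159, a42, a21], (M a240 (F (T t4779 (L l170 (L l347 (T t4780 (L l361 (T t4781 N))))))))⟩
def e0_63_106__159_42_14 : Ent 4 := ⟨[a0, a63, a106], [a159, a42, a22], (M a240 (L l66 (F (T t4779 (L l170 (T t817 (L l361 (T t4781 (K a2 (M a62 (F (T t4786 (L l22 (L l306 (T t5926 N)))))) (K a62 (M a2 (F (T t6609 (T t3515 N)))) N))))))))))⟩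
def e0_63_106__159_42_15 : Ent 4 := ⟨[a0, a63, a106], [a159, a42, a23], (M a240 (F (T t4779 (L l170 (L l351 (T t817 (L l361 (T t4781 N))))))))⟩
def e0_63_106__159_42_16 : Ent 4 := ⟨[a0, a63, a106], [a159, a42, a26], (M a240 (L l54 (F (T t4779 (L l170 (T t6606 (L l361 (T t4781 (K a10 (M a58 (F (T t4786 (T t7218 (L l462 (T t7219 N)))))) (K a58 (M a10 (F (T t6609 (L l170 (T t6606 (L l426 (T t7878 N))))))) N))))))))))⟩
def e0_63_106__159_42_17 : Ent 4 := ⟨[a0, a63, a106], [a159, a42, a27], (M a240 (F (T t4779 (L l170 (T t817 (L l361 (T t4781 N)))))))⟩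
def e0_63_106__159_42_18 : Ent 4 := ⟨[a0, a63, a106], [a159, a42, a31], (M a12 (L l361 (F (L l13 (T t2304 (L l170 (L l375 (T t2305 (L l13 (L l56 (T t2415 (K a95 (M a223 (F (L l26 (T t3885 (L l170 (L l375 (T t2305 (L l13 (L l56 (T t2415 N)))))))))) (K a223 (M a95 (F (L l26 (T t3885 (L l170 (L l375 (T t2305 (L l13 (L l56 (T t2415 N)))))))))) N)))))))))))))⟩
def e0_63_106__159_42_19 : Ent 4 := ⟨[a0, a63, a106], [a159, a42, a32], (M a240 (L l28 (F (T t6609 (L l170 (L l376 (T t6588 (L l361 (L l376 (T t4781 (K a37 (M a47 (F (L l361 (T t6602 (L l170 (T t6698 (L l361 (T t6604 N)))))))) (K a47 (M a37 (F (L l170 (L l376 (T t6588 (L l54 (T t6699 (L l361 (L l376 (T t4781 N)))))))))) N))))))))))))⟩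
def e0_63_106__159_42_20 : Ent 4 := ⟨[a0, a63, a106], [a159, a42, a33], (M a240 (F (T t4779 (L l45 (L l170 (T t817 (L l361 (T t4781 N))))))))⟩
def e0_63_106__159_42_21 : Ent 4 := ⟨[a0, a63, a106], [a159, a42, a34], (M a240 (L l26 (F (T t4779 (L l170 (T t817 (L l361 (T t4781 (K a38 (M a46 (F (T t4779 (L l56 (L l378 (T t4030 N)))))) (K a46 (M a38 (F (T t7478 (L l170 (T t817 (L l361 (T t4781 N))))))) N))))))))))⟩
def e0_63_106__159_42_22 : Ent 4 := ⟨[a0, a63, a106], [a159, a42, a35], (M a240 (F (T t4779 (L l170 (L l381 (T t817 (L l361 (T t4781 N))))))))⟩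
def e0_63_106__159_42_23 : Ent 4 := ⟨[a0, a63, a106], [a159, a42, a37], (M a240 (L l28 (F (T t4786 (L l170 (T t6606 (L l361 (T t4781 (K a32 (M a47 (F (L l361 (T t6602 (L l170 (T t6698 (L l361 (T t6604 N)))))))) (K a47 (M a32 (F (T t6607 (L l361 (T t4781 (L l54 (T t6608 N))))))) N))))))))))⟩
def e0_63_106__159_42_24 : Ent 4 := ⟨[a0, a63, a106], [a159, a42, a38], (M a240 (L l26 (F (T t4779 (L l170 (T t817 (L l361 (T t4781 (K a34 (M a46 (F (T t4779 (L l56 (L l378 (T t4030 N)))))) (K a46 (M a34 (F (T t7879 (L l170 (T t4780 N))))) N))))))))))⟩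
def e0_63_106__159_42_25 : Ent 4 := ⟨[a0, a63, a106], [a159, a42, a39], (M a240 (F (T t4779 (L l170 (T t817 (L l361 (T t4781 N)))))))⟩
def e0_63_106__159_42_26 : Ent 4 := ⟨[a0, a63, a106], [a159, a42, a43], (M a240 (L l22 (F (T t4779 (L l170 (T t817 (L l361 (T t4781 (K a40 (M a41 (F (T t7478 (L l170 (T t817 (L l361 (T t4781 N))))))) (K a41 (M a40 (F (T t7880 (L l170 (T t4780 N))))) N))))))))))⟩
def e0_63_106__159_42_27 : Ent 4 := ⟨[a0, a63, a106], [a159, a42, a47], (M a12 (L l28 (F (T t2304 (L l170 (T t2305 (L l56 (T t2415 (K a32 (M a37 (F (T t6812 (L l170 (T t2305 (L l56 (T t2415 N))))))) (K a37 (M a32 (F (T t2304 (L l51 (L l56 (T t682 N)))))) N))))))))))⟩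
def e0_63_106__159_42_28 : Ent 4 := ⟨[a0, a63, a106], [a159, a42, a48], (M a12 (F (T t2419 (L l170 (L l508 (T t2305 (L l56 (T t2415 N))))))))⟩
def e0_63_106__159_42_29 : Ent 4 := ⟨[a0, a63, a106], [a159, a42, a49], (M a240 (F (T t4779 (L l30 (L l170 (T t817 (L l361 (T t4781 N))))))))⟩
def e0_63_106__159_42_30 : Ent 4 := ⟨[a0, a63, a106], [a159, a42, a50], (M a240 (F (T t4779 (L l30 (L l170 (T t817 (L l361 (T t4781 N))))))))⟩
def e0_63_106__159_42_31 : Ent 4 := ⟨[a0, a63, a106], [a159, a42, a51], (M a240 (F (L l489 (T t4779 (L l30 (L l170 (T t817 (L l361 (T t4781 N)))))))))⟩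
def e0_63_106__159_42_32 : Ent 4 := ⟨[a0, a63, a106], [a159, a42, a53], (M a240 (F (T t4786 (L l170 (L l491 (T t817 (L l361 (L l419 (T t4781 N)))))))))⟩
def e0_63_106__159_42_33 : Ent 4 := ⟨[a0, a63, a106], [a159, a42, a54], (M a240 (F (T t4779 (L l170 (T t817 (L l361 (T t4781 N)))))))⟩
def e0_63_106__159_42_34 : Ent 4 := ⟨[a0, a63, a106], [a159, a42, a55], (M a240 (F (T t4786 (L l170 (L l495 (T t817 (L l361 (L l423 (T t4781 N)))))))))⟩
def e0_63_106__159_42_35 : Ent 4 := ⟨[a0, a63, a106], [a159, a42, a58], (M a240 (L l54 (F (T t4779 (L l170 (T t817 (L l361 (T t4781 (K a10 (M a26 (F (L l426 (T t4786 (L l170 (T t817 (L l318 (L l361 (L l462 (T t6482 N)))))))))) (K a26 (M a10 (F (T t6609 (L l170 (T t6606 (L l426 (T t7878 N))))))) N))))))))))⟩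
def e0_63_106__159_42_36 : Ent 4 := ⟨[a0, a63, a106], [a159, a42, a59], (M a240 (L l56 (F (T t4779 (L l170 (T t817 (L l361 (T t4781 (K a8 (M a25 (F (T t6609 (L l170 (T t817 (L l361 (T t4781 N))))))) (K a25 (M a8 (F (T t6609 (T t7240 N)))) N))))))))))⟩
def e0_63_106__159_42_37 : Ent 4 := ⟨[a0, a63, a106], [a159, a42, a64], (M a240 (F (T t4786 (L l84 (L l116 (L l213 (T t6484 (L l28 (L l116 (L l170 (L l213 (T t7881 (L l84 (L l361 (T t6501 (L l28 (L l84 (L l361 (T t7242 (L l116 (L l213 (T t6859 (L l28 (L l84 (L l116 (L l170 (L l213 (T t7882 N))))))))))))))))))))))))))))⟩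
def e0_63_106__159_42_38 : Ent 4 := ⟨[a0, a63, a106], [a159, a42, a65], (M a240 (F (T t4779 (L l170 (T t817 (L l76 (L l361 (T t4781 N))))))))⟩
def e0_63_106__159_42_39 : Ent 4 := ⟨[a0, a63, a106], [a159, a42, a66], (M a240 (F (L l309 (T t4786 (L l170 (T t817 (L l76 (L l82 (L l361 (T t4781 N))))))))))⟩
def e0_63_106__159_42_40 : Ent 4 := ⟨[a0, a63, a106], [a159, a42, a67], (M a240 (F (T t4779 (L l170 (T t817 (L l76 (L l361 (T t4781 N))))))))⟩
def e0_63_106__159_42_41 : Ent 4 := ⟨[a0, a63, a106], [a159, a42, a69], (M a240 (F (L l311 (T t4786 (L l170 (T t817 (L l84 (L l361 (T t6482 N)))))))))⟩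
def e0_63_106__159_42_42 : Ent 4 := ⟨[a0, a63, a106], [a159, a42, a70], (M a240 (F (L l82 (T t4779 (L l170 (T t817 (L l82 (L l361 (T t4781 N)))))))))⟩
def e0_63_106__159_42_43 : Ent 4 := ⟨[a0, a63, a106], [a159, a42, a71], (M a240 (F (T t4779 (L l170 (T t817 (L l361 (T t4781 N)))))))⟩
def e0_63_106__159_42_44 : Ent 4 := ⟨[a0, a63, a106], [a159, a42, a74], (M a12 (F (T t2419 (L l78 (L l84 (L l170 (T t2305 (L l56 (L l84 (T t2415 N))))))))))⟩
def e0_63_106__159_42_45 : Ent 4 := ⟨[a0, a63, a106], [a159, a42, a75], (M a240 (F (T t4786 (L l170 (T t817 (L l78 (L l361 (T t4781 N))))))))⟩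
def e0_63_106__159_42_46 : Ent 4 := ⟨[a0, a63, a106], [a159, a42, a79], (M a240 (F (T t4786 (L l170 (T t817 (L l84 (L l137 (L l361 (T t6482 N)))))))))⟩
def e0_63_106__159_42_47 : Ent 4 := ⟨[a0, a63, a106], [a159, a42, a80], (M a12 (F (T t2304 (L l116 (L l170 (T t2305 (L l56 (L l116 (T t2415 N)))))))))⟩
def e0_63_106__159_42_48 : Ent 4 := ⟨[a0, a63, a106], [a159, a42, a81], (M a240 (F (T t4779 (L l170 (L l344 (T t817 (L l120 (L l361 (T t4781 N)))))))))⟩
def e0_63_106__159_42_49 : Ent 4 := ⟨[a0, a63, a106], [a159, a42, a82], (M a240 (F (T t4786 (L l170 (T t817 (L l361 (T t4781 N)))))))⟩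
def e0_63_106__159_42_50 : Ent 4 := ⟨[a0, a63, a106], [a159, a42, a83], (M a240 (F (T t4779 (L l170 (T t817 (L l93 (L l361 (T t4781 N))))))))⟩
def e0_63_106__159_42_51 : Ent 4 := ⟨[a0, a63, a106], [a159, a42, a85], (M a240 (F (T t4779 (L l170 (L l347 (L l368 (T t817 (T t4786 (L l28 (L l94 (T t6483 (K a192 (M a248 (F (T t3821 (L l87 (L l94 (T t6520 (L l22 (L l339 (T t7244 N))))))))) N))))))))))))⟩
def e0_63_106__159_42_52 : Ent 4 := ⟨[a0, a63, a106], [a159, a42, a86], (M a240 (F (T t4779 (L l170 (L l351 (T t817 (L l361 (T t4781 N))))))))⟩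
def e0_63_106__159_42_53 : Ent 4 := ⟨[a0, a63, a106], [a159, a42, a87], (M a240 (F (T t4779 (L l170 (T t817 (L l93 (L l361 (T t4781 N))))))))⟩
def e0_63_106__159_42_54 : Ent 4 := ⟨[a0, a63, a106], [a159, a42, a90], (M a12 (F (T t2304 (L l170 (L l375 (T t2305 (L l56 (T t2415 N))))))))⟩
def e0_63_106__159_42_55 : Ent 4 := ⟨[a0, a63, a106], [a159, a42, a91], (M a240 (F (T t4779 (L l170 (T t817 (L l93 (L l361 (T t4781 N))))))))⟩
def e0_63_106__159_42_56 : Ent 4 := ⟨[a0, a63, a106], [a159, a42, a95], (M a12 (L l361 (F (T t2304 (L l170 (T t2305 (L l56 (T t2415 (K a31 (M a223 (F (L l26 (T t3885 (L l170 (L l375 (T t2305 (L l13 (L l56 (T t2415 N)))))))))) (K a223 (M a31 (F (T t6812 (L l28 (L l54 (T t7139 N)))))) N))))))))))⟩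
def e0_63_106__159_42_57 : Ent 4 := ⟨[a0, a63, a106], [a159, a42, a96], (M a12 (F (T t2414 (L l56 (L l116 (T t2415 (L l116 (L l170 (T t2305 N)))))))))⟩
def e0_63_106__159_42_58 : Ent 4 := ⟨[a0, a63, a106], [a159, a42, a97], (M a240 (F (T t4779 (L l170 (L l488 (T t817 (L l361 (T t4781 N))))))))⟩
def e0_63_106__159_42_59 : Ent 4 := ⟨[a0, a63, a106], [a159, a42, a98], (M a240 (F (L l489 (T t4779 (L l170 (L l381 (T t817 (L l120 (L l361 (T t4781 N))))))))))⟩
def e0_63_106__159_42_60 : Ent 4 := ⟨[a0, a63, a106], [a159, a42, a99], (M a240 (F (T t4779 (L l170 (T t817 (L l361 (T t4781 N)))))))⟩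
def e0_63_106__159_42_61 : Ent 4 := ⟨[a0, a63, a106], [a159, a42, a101], (M a240 (F (T t4779 (L l170 (L l491 (L l512 (T t817 (L l361 (T t4781 N)))))))))⟩
def e0_63_106__159_42_62 : Ent 4 := ⟨[a0, a63, a106], [a159, a42, a102], (M a240 (F (T t4779 (L l170 (L l495 (T t817 (L l361 (T t4781 N))))))))⟩
def e0_63_106__159_42_63 : Ent 4 := ⟨[a0, a63, a106], [a159, a42, a103], (M a240 (F (T t4779 (L l170 (T t817 (L l361 (T t4781 N)))))))⟩
def e0_63_106__159_42_64 : Ent 4 := ⟨[a0, a63, a106], [a159, a42, a107], (M a240 (F (T t4779 (L l170 (T t817 (L l361 (T t4781 N)))))))⟩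
def e0_63_106__159_42_65 : Ent 4 := ⟨[a0, a63, a106], [a159, a42, a111], (M a240 (F (T t4779 (L l170 (T t817 (L l137 (L l361 (T t4781 N))))))))⟩
def e0_63_106__159_42_66 : Ent 4 := ⟨[a0, a63, a106], [a159, a42, a112], (M a12 (F (T t2304 (L l116 (L l170 (T t2305 (L l56 (L l116 (T t2415 N)))))))))⟩
def e0_63_106__159_42_67 : Ent 4 := ⟨[a0, a63, a106], [a159, a42, a113], (M a240 (F (T t4779 (L l170 (L l416 (T t817 (L l361 (T t4781 N))))))))⟩
def e0_63_106__159_42_68 : Ent 4 := ⟨[a0, a63, a106], [a159, a42, a114], (M a240 (F (T t4779 (L l170 (T t817 (L l361 (T t4781 N)))))))⟩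
def e0_63_106__159_42_69 : Ent 4 := ⟨[a0, a63, a106], [a159, a42, a115], (M a240 (F (T t4779 (L l170 (T t817 (L l120 (L l361 (T t4781 N))))))))⟩
def e0_63_106__159_42_70 : Ent 4 := ⟨[a0, a63, a106], [a159, a42, a117], (M a240 (F (L l419 (T t4779 (L l170 (L l440 (T t817 (L l361 (L l419 (T t4781 N))))))))))⟩
def e0_63_106__159_42_71 : Ent 4 := ⟨[a0, a63, a106], [a159, a42, a118], (M a240 (F (L l423 (T t4779 (L l170 (T t817 (L l361 (L l423 (T t4781 N)))))))))⟩
def e0_63_106__159_42_72 : Ent 4 := ⟨[a0, a63, a106], [a159, a42, a119], (M a240 (F (T t4779 (L l170 (T t817 (L l361 (T t4781 N)))))))⟩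
def e0_63_106__159_42_73 : Ent 4 := ⟨[a0, a63, a106], [a159, a42, a122], (M a12 (F (T t2304 (L l170 (T t2305 (L l56 (T t2415 N)))))))⟩
def e0_63_106__159_42_74 : Ent 4 := ⟨[a0, a63, a106], [a159, a42, a123], (M a240 (F (T t4779 (L l170 (T t817 (L l361 (T t4781 N)))))))⟩
def e0_63_106__159_42_75 : Ent 4 := ⟨[a0, a63, a106], [a159, a42, a127], (M a240 (F (T t4779 (L l170 (T t817 (L l137 (L l361 (T t6501 (L l137 (L l361 (T t6629 N)))))))))))⟩
def e0_63_106__159_42_76 : Ent 4 := ⟨[a0, a63, a106], [a159, a42, a128], (M a48 (F (T t304 (L l28 (L l361 (T t579 (L l28 (L l54 (L l192 (L l220 (T t7883 (K a53 (M a96 (F (T t7884 (L l419 (T t7885 N))))) (K a202 (Fr a149 a192 l519 (Fr a53 a58 l38 (Fr a101 a197 l491 (Fr a207 a154 l512 (V t7926))))) (K a58 (M a96 (L l54 (F (T t7884 (T t7885 (K a10 (M a26 (F (T t7884 (L l28 (T t4144 N))))) (K a26 (M a10 (F (T t7884 (L l28 (L l361 (T t7887 N)))))) N))))))) N))))))))))))))⟩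
def e0_63_106__159_42_77 : Ent 4 := ⟨[a0, a63, a106], [a159, a42, a129], (M a240 (F (L l309 (T t4779 (L l170 (L l217 (T t817 (L l361 (T t4781 N)))))))))⟩
def e0_63_106__159_42_78 : Ent 4 := ⟨[a0, a63, a106], [a159, a42, a130], (M a240 (F (T t4779 (L l170 (T t817 (L l361 (T t4781 N)))))))⟩
def e0_63_106__159_42_79 : Ent 4 := ⟨[a0, a63, a106], [a159, a42, a131], (M a240 (F (T t4779 (L l170 (T t817 (L l361 (T t4781 N)))))))⟩
def e0_63_106__159_42_80 : Ent 4 := ⟨[a0, a63, a106], [a159, a42, a133], (M a12 (F (T t2414 (L l56 (T t2415 (L l170 (L l199 (T t2305 N))))))))⟩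
def e0_63_106__159_42_81 : Ent 4 := ⟨[a0, a63, a106], [a159, a42, a134], (M a240 (F (L l336 (T t4779 (L l170 (T t817 (L l336 (L l361 (T t4781 N)))))))))⟩
def e0_63_106__159_42_82 : Ent 4 := ⟨[a0, a63, a106], [a159, a42, a135], (M a240 (F (T t4779 (L l170 (T t817 (L l361 (T t4781 N)))))))⟩
def e0_63_106__159_42_83 : Ent 4 := ⟨[a0, a63, a106], [a159, a42, a138], (M a240 (F (L l318 (T t4779 (L l170 (T t817 (L l318 (L l361 (T t4781 N)))))))))⟩
def e0_63_106__159_42_84 : Ent 4 := ⟨[a0, a63, a106], [a159, a42, a139], (M a240 (F (T t4779 (L l170 (T t817 (L l361 (T t4781 N)))))))⟩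
def e0_63_106__159_42_85 : Ent 4 := ⟨[a0, a63, a106], [a159, a42, a143], (M a240 (L l213 (F (T t4779 (L l170 (T t817 (L l361 (T t4781 (K a175 (M a191 (F (T t7348 (L l227 (T t7477 (L l160 (T t7478 N))))))) (K a191 (M a175 (F (L l190 (T t7479 (L l170 (L l220 (T t817 (L l160 (T t7478 N))))))))) N))))))))))⟩
def e0_63_106__159_42_86 : Ent 4 := ⟨[a0, a63, a106], [a159, a42, a144], (M a12 (L l170 (F (T t2419 (L l56 (T t2415 (L l26 (L l192 (L l484 (T t7138 (K a29 (M a154 (F (T t7888 (L l28 (L l361 (T t7010 (L l371 (T t2305 N)))))))) (K a226 (Fr a149 a192 l519 (Fr a29 a46 l62 (Fr a89 a209 l371 (Fr a243 a166 l482 (V t6536))))) (K a46 (M a154 (L l26 (F (T t7888 (L l28 (L l361 (T t7010 (T t2305 (K a34 (M a38 (F (L l56 (T t7889 (L l20 (L l28 (L l361 (T t7010 N)))))))) (K a38 (M a34 (F (L l21 (T t7890 (L l50 (T t7230 N)))))) N)))))))))) (K a149 (M a154 (F (L l491 (T t7890 (L l56 (L l371 (T t2415 (L l28 (L l361 (L l491 (T t7010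 N))))))))))) (K a154 (Fr a149 a192 l519 (V t7891)) N)))))))))))))))⟩
def e0_63_106__159_42_87 : Ent 4 := ⟨[a0, a63, a106], [a159, a42, a145], (M a240 (F (L l489 (T t4786 (L l167 (L l170 (T t817 (L l361 (T t4781 N)))))))))⟩
def e0_63_106__159_42_88 : Ent 4 := ⟨[a0, a63, a106], [a159, a42, a146], (M a240 (F (T t4779 (L l170 (L l344 (L l488 (T t817 (L l361 (T t4781 N)))))))))⟩
def e0_63_106__159_42_89 : Ent 4 := ⟨[a0, a63, a106], [a159, a42, a147], (M a240 (L l169 (F (T t4779 (L l170 (T t817 (L l361 (T t4781 (K a151 (M a155 (F (T t7478 (L l163 (L l170 (T t817 (L l361 (T t4781 N)))))))) (K a155 (M a151 (F (T t7872 (L l361 (T t4781 N))))) N))))))))))⟩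
def e0_63_106__159_42_90 : Ent 4 := ⟨[a0, a63, a106], [a159, a42, a149], (M a252 (L l170 (F (L l217 (T t6675 (L l217 (L l347 (T t7252 (L l22 (L l217 (L l351 (T t7253 (L l22 (L l217 (L l220 (L l351 (T t7254 (K a129 (M a169 (L l170 (F (T t7255 (L l22 (L l152 (L l220 (L l305 (L l351 (T t7256 (L l152 (L l220 (T t7257 (K a144 (M a154 (F (T t7261 (L l28 (L l361 (L l491 (T t7010 N))))))) (K a154 (M a144 (F (T t7255 (L l22 (L l152 (L l220 (L l305 (L l351 (T t7256 (L l152 (L l220 (T t7257 N)))))))))))) N))))))))))))))) (K a169 (M a48 (L l170 (L l217 (F (T t3109 (L l28 (L l361 (L l491 (T t579 (L l209 (L l491 (T t7892 (K a144 (M a154 (L l217 (F (T t6900 (L l28 (L l174 (L l220 (L l361 (T t3243 (K a129 (Fr a189 a126 l435 (V t6900)) (K a189 (M a129 (F (T t6900 (L l28 (L l361 (T t1998 N)))))) N))))))))))) (K a129 (Fr a189 a126 l435 (V t3428)) (K a189 (M a129 (L l170 (F (T t3109 (L l28 (L l361 (L l491 (T t579 (L l209 (L l491 (T t7893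 (K a144 (M a154 (F (T t6900 (L l28 (L l361 (T t1998 N)))))) (K a154 (M a144 (L l209 (F (T t3109 (L l220 (L l473 (T t7894 (K a184 (M a139 (F (L l368 (T t7895 (L l220 (T t7896 (L l28 (L l165 (L l174 (L l204 (L l351 (L l356 (T t7897 N))))))))))))) (K a139 (Fr a184 a116 l436 (V t7898)) N))))))))) N))))))))))))) (K a154 (M a144 (L l209 (L l217 (F (T t3109 (L l28 (L l375 (T t7899 (L l174 (L l220 (T t7900 (K a184 (M a139 (L l217 (F (L l368 (T t7895 (L l22 (L l351 (T t7901 (L l28 (L l165 (L l174 (L l204 (L l351 (L l356 (T t7897 (K a129 (Fr a189 a126 l435 (V t7902)) (K a189 (M a129 (F (L l368 (T t7895 (L l220 (T t7896 (L l28 (L l165 (L l174 (L l204 (L l351 (L l356 (T t7897 N))))))))))))) N))))))))))))))))) (K a129 (Fr a189 a126 l435 (V t3109)) (K a189 (M a129 (L l209 (F (T t3109 (L l220 (L l473 (T t7894 (K a184 (M a139 (F (L l368 (T t7895 (L l220 (T t7896 (L l28 (L l165 (L l174 (L l204 (L l351 (L l356 (T t7897 N)))))))))))))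 (K a139 (Fr a184 a116 l436 (V t7898)) N))))))))) (K a139 (Fr a184 a116 l436 (V t7898)) N))))))))))))))) N)))))))))))))))) (K a189 (M a169 (L l170 (F (T t7261 (T t7262 (L l22 (L l220 (L l351 (T t7256 (L l220 (T t7257 (K a144 (M a154 (F (T t7261 (L l28 (L l361 (L l491 (T t7010 N))))))) (K a154 (M a144 (F (T t7261 (T t7262 (L l22 (L l220 (L l351 (T t7256 (L l220 (T t7257 N)))))))))) N))))))))))))) (K a66 (M a240 (L l170 (F (T t7848 (L l118 (L l199 (L l217 (T t6519 (L l76 (L l82 (L l199 (L l361 (T t4781 (K a144 (M a154 (F (T t3105 (L l28 (L l76 (L l361 (L l491 (T t7010 N)))))))) (K a154 (M a144 (F (T t3105 (L l220 (L l368 (T t7903 N)))))) N))))))))))))))) (K a86 (M a240 (L l170 (L l351 (F (T t7264 (L l199 (L l217 (T t6519 (L l199 (L l361 (T t4781 (K a144 (M a154 (L l351 (F (T t3105 (L l28 (L l361 (L l491 (T t7010 (K a212 (M a23 (F (T t7264 (L l28 (L l361 (L l491 (T t7010 N))))))) (K a23 (M a212 (F (T t3105 (L l11 (T t3429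 N))))) N)))))))))) (K a212 (M a23 (L l170 (F (T t3105 (L l22 (L l92 (T t4224 (K a144 (M a154 (F (T t7264 (L l28 (L l361 (L l491 (T t7010 N))))))) (K a154 (M a144 (L l366 (F (T t3105 (L l220 (L l368 (T t7903 (K a18 (M a222 (F (T t3105 (L l28 (L l227 (L l242 (L l375 (T t7904 N)))))))) (K a222 (M a18 (F (T t7264 (L l22 (L l244 (T t7905 N)))))) N))))))))) N))))))))) (K a154 (M a144 (L l351 (L l366 (F (T t3105 (L l220 (L l368 (T t7903 (K a212 (M a23 (L l366 (F (T t3105 (L l220 (L l368 (T t7903 (K a18 (M a222 (F (T t3105 (L l28 (L l227 (L l242 (L l375 (T t7904 N)))))))) (K a222 (M a18 (F (T t7264 (L l22 (L l244 (T t7905 N)))))) N))))))))) (K a18 (M a222 (L l351 (F (T t3105 (L l10 (L l45 (L l368 (L l512 (T t6915 (K a212 (M a23 (F (T t3105 (L l28 (L l227 (L l242 (L l375 (T t7904 N)))))))) (K a23 (M a212 (F (T t7264 (L l342 (L l349 (T t7906 N)))))) N))))))))))) (K a222 (M a18 (L l351 (F (T t3105 (L l220 (T t7845 (K a212 (M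 a23 (F (T t7264 (L l22 (L l244 (T t7905 N)))))) (K a23 (M a212 (F (T t3105 (L l368 (L l512 (T t6915 N)))))) N)))))))) (K a23 (M a212 (L l366 (F (T t3105 (L l368 (L l512 (T t6915 (K a18 (M a222 (F (T t7264 (L l342 (L l349 (T t7906 N)))))) (K a222 (M a18 (F (T t3105 (L l368 (L l512 (T t6915 N)))))) N))))))))) N)))))))))))) (K a23 (M a212 (L l170 (F (T t3105 (L l11 (T t3429 (K a144 (M a154 (F (T t3105 (L l11 (T t3429 N))))) (K a154 (M a144 (L l366 (F (T t3105 (L l368 (L l512 (T t6915 (K a18 (M a222 (F (T t7264 (L l342 (L l349 (T t7906 N)))))) (K a222 (M a18 (F (T t3105 (L l368 (L l512 (T t6915 N)))))) N))))))))) N)))))))) N))))))))))))))) (K a126 (M a48 (L l170 (F (T t3428 (L l28 (L l361 (L l491 (T t579 (L l491 (T t7263 (K a144 (M a154 (F (T t6900 (L l351 (T t7907 N))))) (K a154 (M a144 (F (T t3109 (L l28 (L l375 (T t7899 (L l109 (L l220 (T t7900 N))))))))) N)))))))))))) (K a144 (M a154 (F (L l217 (T t7908 (L l28 (L l361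 (L l491 (T t7010 (L l217 (L l220 (T t6476 N))))))))))) (K a154 (M a144 (F (L l217 (T t6675 (L l217 (L l347 (L l368 (T t7252 (L l22 (L l217 (L l351 (T t7253 (L l22 (L l217 (L l220 (L l351 (T t7254 (K a129 (M a169 (F (T t7255 (L l22 (L l152 (L l220 (L l305 (L l351 (T t7256 (L l152 (L l220 (T t7257 N)))))))))))) (K a169 (M a184 (L l217 (F (T t7909 (L l28 (L l375 (T t7910 (L l165 (L l221 (T t7911 (K a129 (Fr a189 a126 l435 (V t7909)) (K a189 (M a129 (F (T t7909 (L l28 (L l375 (T t7910 (L l165 (L l185 (L l221 (T t7911 N)))))))))) N)))))))))))) (K a189 (M a169 (F (T t7261 (T t7262 (L l22 (L l220 (L l351 (T t7256 (L l220 (T t7257 N)))))))))) (K a66 (M a192 (F (T t7912 (L l22 (L l220 (L l351 (T t7913 N))))))) (K a86 (M a212 (L l366 (F (T t3429 (L l28 (L l227 (L l512 (T t7914 (L l28 (L l165 (L l369 (T t7915 (K a18 (M a222 (F (T t3429 (L l28 (L l45 (L l227 (L l512 (T t7914 (L l10 (L l165 (L l368 (T t7916 N)))))))))))) (K a222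 (M a18 (F (T t3429 (L l220 (L l512 (T t7917 (L l28 (L l165 (L l241 (L l369 (T t7915 N))))))))))) N)))))))))))))) (K a126 (M a192 (F (T t7912 (L l22 (L l109 (L l220 (L l351 (T t7913 N)))))))) N))))))))))))))))))))))) N)))))))))))))))))))))))))⟩
def e0_63_106__159_42_91 : Ent 4 := ⟨[a0, a63, a106], [a159, a42, a150], (M a240 (F (T t4779 (L l163 (L l170 (T t817 (L l361 (T t4781 N))))))))⟩
def e0_63_106__159_42_92 : Ent 4 := ⟨[a0, a63, a106], [a159, a42, a151], (M a240 (L l169 (F (T t4779 (L l163 (L l170 (T t817 (L l361 (T t4781 (K a147 (M a155 (F (T t7478 (L l163 (L l170 (T t817 (L l361 (T t4781 N)))))))) (K a155 (M a147 (F (T t7478 (L l163 (L l170 (T t817 (L l361 (T t4781 N)))))))) N)))))))))))⟩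
def e0_63_106__159_42_93 : Ent 4 := ⟨[a0, a63, a106], [a159, a42, a154], (M a240 (L l170 (F (T t4779 (L l361 (T t4781 (L l213 (T t6859 (K a181 (M a165 (L l170 (F (L l28 (T t6860 (L l361 (T t6493 (K a144 (Fr a149 a192 l519 (V t6492)) (K a149 (M a144 (F (T t6492 (L l220 (L l368 (T t7299 (L l54 (L l213 (T t7918 N))))))))) N))))))))) (K a74 (Fr a149 a192 l519 (Fr a181 a122 l447 (Fr a165 a133 l199 (Fr a15 a90 l483 (V t6515))))) (K a122 (M a64 (L l170 (F (T t394 (L l114 (L l206 (L l426 (T t6863 (K a144 (Fr a149 a192 l519 (V t6863)) (K a149 (M a144 (F (T t7919 (L l28 (L l114 (L l220 (L l375 (T t7920 (L l28 (L l375 (T t7921 N))))))))))) N)))))))))) (K a144 (Fr a149 a192 l519 (V t7317)) (K a149 (M a144 (F (L l220 (T t7845 (L l199 (L l361 (T t4781 (L l28 (L l199 (L l227 (L l375 (T t7922 (L l28 (L l375 (T t7923 (K a64 (Fr a160 a80 l448 (Fr a176 a128 l192 (Fr a48 a112 l412 (Fr a96 a192 l484 (V t7927))))) N)))))))))))))))) N)))))))))))))⟩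
def e0_63_106__159_42_94 : Ent 4 := ⟨[a0, a63, a106], [a159, a42, a155], (M a240 (L l169 (F (T t4779 (L l170 (T t817 (L l361 (T t4781 (K a147 (M a151 (F (T t7872 (L l361 (T t4781 N))))) (K a151 (M a147 (F (T t7478 (L l163 (L l170 (T t817 (L l361 (T t4781 N)))))))) N))))))))))⟩
def e0_63_106__159_42_95 : Ent 4 := ⟨[a0, a63, a106], [a159, a42, a160], (M a12 (F (T t2304 (L l170 (T t2305 (L l56 (T t2415 N)))))))⟩
def e0_63_106__159_42_96 : Ent 4 := ⟨[a0, a63, a106], [a159, a42, a161], (M a240 (F (T t4779 (L l170 (L l172 (L l381 (T t817 (L l172 (L l361 (T t4781 N))))))))))⟩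
def e0_63_106__159_42_97 : Ent 4 := ⟨[a0, a63, a106], [a159, a42, a162], (M a240 (F (T t4779 (L l170 (L l172 (T t817 (L l172 (L l361 (T t4781 N)))))))))⟩
def e0_63_106__159_42_98 : Ent 4 := ⟨[a0, a63, a106], [a159, a42, a163], (M a240 (F (T t4779 (L l170 (L l172 (T t817 (L l172 (L l361 (T t4781 N)))))))))⟩
def e0_63_106__159_42_99 : Ent 4 := ⟨[a0, a63, a106], [a159, a42, a165], (M a12 (F (T t2304 (L l170 (L l199 (T t2305 (L l56 (T t2415 N))))))))⟩
def e0_63_106__159_42_100 : Ent 4 := ⟨[a0, a63, a106], [a159, a42, a166], (M a240 (F (T t4779 (L l170 (L l202 (T t817 (L l361 (T t4781 N))))))))⟩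
def e0_63_106__159_42_101 : Ent 4 := ⟨[a0, a63, a106], [a159, a42, a167], (M a240 (F (T t4779 (L l170 (T t817 (L l361 (T t4781 N)))))))⟩
def e0_63_106__159_42_102 : Ent 4 := ⟨[a0, a63, a106], [a159, a42, a170], (M a240 (F (T t4779 (L l170 (L l220 (T t4780 (L l180 (L l213 (L l220 (L l361 (L l462 (T t6503 (L l28 (L l180 (L l361 (T t7265 N))))))))))))))))⟩
def e0_63_106__159_42_103 : Ent 4 := ⟨[a0, a63, a106], [a159, a42, a171], (M a240 (F (T t4779 (L l170 (T t817 (L l361 (T t4781 N)))))))⟩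
def e0_63_106__159_42_104 : Ent 4 := ⟨[a0, a63, a106], [a159, a42, a175], (M a240 (L l213 (F (T t4779 (L l170 (T t4780 (L l180 (L l361 (L l469 (T t4781 (K a143 (M a191 (F (T t7348 (L l227 (T t7477 (L l160 (T t7478 N))))))) (K a191 (M a143 (F (T t7478 (L l170 (L l180 (L l220 (T t817 (L l180 (L l190 (L l469 (T t7267 (L l170 (L l190 (L l220 (T t4780 (L l28 (L l190 (L l397 (L l469 (T t7925 N)))))))))))))))))))) N))))))))))))⟩
def e0_63_106__159_42_105 : Ent 4 := ⟨[a0, a63, a106], [a159, a42, a176], (M a240 (F (T t4786 (L l170 (L l192 (T t817 (L l190 (L l192 (L l361 (T t4781 N))))))))))⟩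
def e0_63_106__159_42_106 : Ent 4 := ⟨[a0, a63, a106], [a159, a42, a177], (M a240 (F (T t4786 (L l170 (T t817 (L l187 (L l361 (T t4781 N))))))))⟩
def e0_63_106__159_42_107 : Ent 4 := ⟨[a0, a63, a106], [a159, a42, a178], (M a240 (F (T t4779 (L l170 (L l416 (T t817 (L l361 (T t4781 N))))))))⟩
def e0_63_106__159_42_108 : Ent 4 := ⟨[a0, a63, a106], [a159, a42, a179], (M a240 (F (T t4779 (L l170 (T t817 (L l361 (T t4781 N)))))))⟩
def e0_63_106__159_42_109 : Ent 4 := ⟨[a0, a63, a106], [a159, a42, a181], (M a12 (F (T t2304 (L l170 (L l199 (T t2305 (L l56 (T t2415 N))))))))⟩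
def e0_63_106__159_42_110 : Ent 4 := ⟨[a0, a63, a106], [a159, a42, a182], (M a240 (F (L l183 (T t4779 (L l170 (T t817 (L l183 (L l361 (T t4781 N)))))))))⟩
def e0_63_106__159_42_111 : Ent 4 := ⟨[a0, a63, a106], [a159, a42, a183], (M a240 (F (T t4786 (L l170 (L l202 (T t817 (L l183 (L l361 (T t4781 N)))))))))⟩
def e0_63_106__159_42_112 : Ent 4 := ⟨[a0, a63, a106], [a159, a42, a186], (M a240 (F (L l190 (T t4779 (L l170 (L l440 (T t817 (L l190 (L l361 (T t4781 N))))))))))⟩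
def e0_63_106__159_42_113 : Ent 4 := ⟨[a0, a63, a106], [a159, a42, a187], (M a240 (F (T t4779 (L l170 (T t817 (L l361 (T t4781 N)))))))⟩
def e0_63_106__159_42_114 : Ent 4 := ⟨[a0, a63, a106], [a159, a42, a191], (M a240 (L l213 (F (T t4786 (L l170 (L l220 (T t817 (L l190 (L l361 (T t6501 (L l190 (L l361 (T t6654 (K a143 (M a175 (F (L l190 (T t7479 (L l170 (L l220 (T t817 (L l160 (T t7478 N))))))))) (K a175 (M a143 (F (T t7478 (L l170 (L l180 (L l220 (T t817 (L l180 (L l190 (L l469 (T t7267 (L l170 (L l190 (L l220 (T t4780 (L l28 (L l190 (L l397 (L l469 (T t7925 N)))))))))))))))))))) N)))))))))))))))⟩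
def e0_63_106__159_42_115 : Ent 4 := ⟨[a0, a63, a106], [a159, a42, a192], (M a252 (F (L l309 (T t6675 (L l228 (L l309 (T t7270 (L l296 (L l309 (T t7271 (L l22 (L l309 (T t7272 (L l213 (L l309 (T t7273 (K a129 (M a86 (L l309 (F (T t6735 (L l296 (T t1230 (K a66 (Fr a3 a169 l477 (V t5989)) (K a3 (Fr a66 a126 l142 (V t7274)) N)))))))) (K a85 (M a48 (F (L l28 (T t7275 (L l236 (L l309 (T t7276 N))))))) (K a189 (M a48 (F (T t7277 (L l28 (L l236 (L l361 (T t579 (L l236 (T t7263 N))))))))) (K a66 (M a169 (L l309 (F (T t7261 (L l296 (T t7278 (L l66 (L l76 (L l306 (T t6997 (K a129 (Fr a3 a86 l477 (V t7279)) (K a3 (M a129 (F (T t7280 (L l22 (L l228 (L l306 (L l514 (T t7281 N)))))))) N)))))))))))) (K a86 (M a240 (F (T t7282 (L l95 (L l334 (T t6518 (L l339 (L l361 (T t4781 N))))))))) (K a126 (M a48 (F (T t7277 (L l28 (L l236 (L l361 (T t579 (L l236 (T t7263 N))))))))) (K a3 (M a48 (L l309 (F (T t7277 (L l236 (T t7283 (K a129 (M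 a66 (F (T t7284 (L l232 (L l333 (T t801 N)))))) (K a66 (M a129 (F (T t7277 (L l28 (L l76 (L l236 (L l361 (T t579 (L l170 (L l331 (T t7285 N))))))))))) N)))))))) N)))))))))))))))))))))))⟩
def e0_63_106__159_42_116 : Ent 4 := ⟨[a0, a63, a106], [a159, a42, a193], (M a240 (F (L l228 (T t4779 (L l170 (L l515 (T t817 (L l361 (T t4781 N)))))))))⟩
def e0_63_106__159_42_117 : Ent 4 := ⟨[a0, a63, a106], [a159, a42, a194], (M a240 (F (L l228 (T t4786 (L l170 (T t817 (L l336 (L l361 (T t4781 N)))))))))⟩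
def e0_63_106__159_42_118 : Ent 4 := ⟨[a0, a63, a106], [a159, a42, a195], (M a240 (F (L l228 (T t4779 (L l170 (L l488 (T t817 (L l361 (T t4781 N)))))))))⟩
def e0_63_106__159_42_119 : Ent 4 := ⟨[a0, a63, a106], [a159, a42, a197], (M a240 (F (L l236 (T t4779 (L l170 (L l491 (T t817 (L l361 (T t4781 N)))))))))⟩
def e0_63_106__159_42_120 : Ent 4 := ⟨[a0, a63, a106], [a159, a42, a198], (M a240 (F (T t4779 (L l170 (T t817 (L l361 (T t4781 N)))))))⟩
def e0_63_106__159_42_121 : Ent 4 := ⟨[a0, a63, a106], [a159, a42, a199], (M a240 (F (T t4779 (L l170 (T t817 (L l361 (T t4781 N)))))))⟩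
def e0_63_106__159_42_122 : Ent 4 := ⟨[a0, a63, a106], [a159, a42, a202], (M a240 (F (L l236 (T t4786 (L l170 (T t817 (L l318 (L l361 (T t4781 N)))))))))⟩
def e0_63_106__159_42_123 : Ent 4 := ⟨[a0, a63, a106], [a159, a42, a203], (M a240 (F (T t4779 (L l170 (T t817 (L l361 (T t4781 N)))))))⟩
def e0_63_106__159_42_124 : Ent 4 := ⟨[a0, a63, a106], [a159, a42, a207], (M a240 (F (L l236 (T t4779 (L l170 (L l512 (T t817 (L l361 (T t4781 N)))))))))⟩
def e0_63_106__159_42_125 : Ent 4 := ⟨[a0, a63, a106], [a159, a42, a208], (M a12 (F (T t2419 (L l170 (L l375 (T t2305 (L l56 (T t2415 N))))))))⟩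
def e0_63_106__159_42_126 : Ent 4 := ⟨[a0, a63, a106], [a159, a42, a209], (M a240 (F (L l272 (T t4786 (L l170 (L l371 (T t817 (L l361 (T t4781 N)))))))))⟩
def e0_63_106__159_42_127 : Ent 4 := ⟨[a0, a63, a106], [a159, a42, a210], (M a240 (F (T t4786 (L l170 (T t817 (L l361 (T t4781 N)))))))⟩
def e0_63_106__159_42_128 : Ent 4 := ⟨[a0, a63, a106], [a159, a42, a211], (M a240 (F (T t4786 (L l170 (L l344 (T t817 (L l361 (T t4781 N))))))))⟩
def e0_63_106__159_42_129 : Ent 4 := ⟨[a0, a63, a106], [a159, a42, a213], (M a240 (F (L l296 (T t4786 (L l170 (L l347 (T t817 (L l361 (T t4781 N)))))))))⟩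
def e0_63_106__159_42_130 : Ent 4 := ⟨[a0, a63, a106], [a159, a42, a214], (M a240 (F (T t4779 (L l170 (T t817 (L l361 (T t4781 N)))))))⟩
def e0_63_106__159_42_131 : Ent 4 := ⟨[a0, a63, a106], [a159, a42, a215], (M a240 (F (T t4779 (L l170 (T t817 (L l361 (T t4781 N)))))))⟩
def e0_63_106__159_42_132 : Ent 4 := ⟨[a0, a63, a106], [a159, a42, a218], (M a240 (F (T t4786 (L l170 (T t817 (L l361 (T t4781 N)))))))⟩
def e0_63_106__159_42_133 : Ent 4 := ⟨[a0, a63, a106], [a159, a42, a219], (M a240 (F (T t4779 (L l170 (T t817 (L l361 (T t4781 N)))))))⟩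
def e0_63_106__159_42_134 : Ent 4 := ⟨[a0, a63, a106], [a159, a42, a223], (M a12 (L l361 (F (T t2304 (L l170 (T t2305 (L l56 (T t2415 (K a31 (M a95 (F (L l26 (T t3885 (L l170 (L l375 (T t2305 (L l13 (L l56 (T t2415 N)))))))))) (K a95 (M a31 (F (T t6812 (L l28 (L l54 (T t7139 N)))))) N))))))))))⟩
def e0_63_106__159_42_135 : Ent 4 := ⟨[a0, a63, a106], [a159, a42, a224], (M a12 (F (L l248 (T t2414 (L l170 (T t2305 (L l56 (L l248 (T t2415 N)))))))))⟩
def e0_63_106__159_42_136 : Ent 4 := ⟨[a0, a63, a106], [a159, a42, a225], (M a240 (F (T t4779 (L l170 (L l248 (T t817 (L l361 (T t4781 N))))))))⟩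
def e0_63_106__159_42_137 : Ent 4 := ⟨[a0, a63, a106], [a159, a42, a226], (M a240 (F (L l272 (T t4779 (L l170 (L l248 (T t817 (L l361 (T t4781 N)))))))))⟩
def e0_63_106__159_42_138 : Ent 4 := ⟨[a0, a63, a106], [a159, a42, a227], (M a240 (F (T t4779 (L l170 (L l248 (T t817 (L l361 (T t4781 N))))))))⟩
def e0_63_106__159_42_139 : Ent 4 := ⟨[a0, a63, a106], [a159, a42, a229], (M a240 (F (T t4779 (L l170 (L l256 (T t817 (L l361 (T t4781 N))))))))⟩
def e0_63_106__159_42_140 : Ent 4 := ⟨[a0, a63, a106], [a159, a42, a230], (M a240 (F (T t4779 (L l170 (T t817 (L l361 (T t4781 N)))))))⟩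
def e0_63_106__159_42_141 : Ent 4 := ⟨[a0, a63, a106], [a159, a42, a231], (M a240 (F (T t4779 (L l170 (T t817 (L l361 (T t4781 N)))))))⟩
def e0_63_106__159_42_142 : Ent 4 := ⟨[a0, a63, a106], [a159, a42, a234], (M a240 (F (L l296 (T t4779 (L l170 (L l256 (T t817 (L l361 (T t4781 N)))))))))⟩
def e0_63_106__159_42_143 : Ent 4 := ⟨[a0, a63, a106], [a159, a42, a235], (M a240 (F (T t4779 (L l170 (T t817 (L l361 (T t4781 N)))))))⟩
def e0_63_106__159_42_144 : Ent 4 := ⟨[a0, a63, a106], [a159, a42, a239], (M a240 (F (T t4779 (L l170 (L l256 (T t817 (L l361 (T t4781 N))))))))⟩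
def e0_63_106__159_42_145 : Ent 4 := ⟨[a0, a63, a106], [a159, a42, a240], (M a12 (F (T t2419 (L l170 (L l298 (T t2305 (L l56 (T t2415 N))))))))⟩
def e0_63_106__159_42_146 : Ent 4 := ⟨[a0, a63, a106], [a159, a42, a241], (M a240 (F (T t4786 (L l170 (T t817 (L l361 (L l443 (T t4781 N))))))))⟩
def e0_63_106__159_42_147 : Ent 4 := ⟨[a0, a63, a106], [a159, a42, a242], (M a240 (F (T t4779 (L l170 (T t817 (L l361 (T t4781 N)))))))⟩
def e0_63_106__159_42_148 : Ent 4 := ⟨[a0, a63, a106], [a159, a42, a243], (M a240 (F (L l272 (T t4779 (L l170 (L l416 (T t817 (L l361 (T t4781 N)))))))))⟩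
def e0_63_106__159_42_149 : Ent 4 := ⟨[a0, a63, a106], [a159, a42, a245], (M a240 (F (T t4786 (L l170 (T t817 (L l361 (L l419 (T t4781 N))))))))⟩
def e0_63_106__159_42_150 : Ent 4 := ⟨[a0, a63, a106], [a159, a42, a246], (M a240 (F (T t4779 (L l170 (T t817 (L l361 (T t4781 N)))))))⟩
def e0_63_106__159_42_151 : Ent 4 := ⟨[a0, a63, a106], [a159, a42, a247], (M a240 (F (T t4779 (L l170 (T t817 (L l361 (T t4781 N)))))))⟩
def e0_63_106__159_42_152 : Ent 4 := ⟨[a0, a63, a106], [a159, a42, a250], (M a240 (F (T t4779 (L l170 (T t817 (L l361 (T t4781 N)))))))⟩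
def e0_63_106__159_42_153 : Ent 4 := ⟨[a0, a63, a106], [a159, a42, a251], (M a240 (F (T t4779 (L l170 (T t817 (L l361 (T t4781 N)))))))⟩
def e0_63_106__159_42_154 : Ent 4 := ⟨[a0, a63, a106], [a159, a42, a255], (M a240 (F (L l296 (T t4779 (L l170 (L l440 (T t817 (L l440 (T t6500 (L l28 (L l469 (T t6684 N))))))))))))⟩
def b0_63_106__159_42 : Blk 4 := ⟨[0, 63, 106], [159, 42], [1, 2, 3, 5, 6, 7, 10, 11, 15, 16, 17, 18, 19, 21, 22, 23, 26, 27, 31, 32, 33, 34, 35, 37, 38, 39, 43, 47, 48, 49, 50, 51, 53, 54, 55, 58, 59, 64, 65, 66, 67, 69, 70, 71, 74, 75, 79, 80, 81, 82, 83, 85, 86, 87, 90, 91, 95, 96, 97, 98, 99, 101, 102, 103, 107, 111, 112, 113, 114, 115, 117, 118, 119, 122, 123, 127, 128, 129, 130, 131, 133, 134, 135, 138, 139, 143, 144, 145, 146, 147, 149, 150, 151, 154, 155, 160, 161, 162, 163, 165, 166, 167, 170, 171, 175, 176, 177, 178, 179, 181, 182, 183, 186, 187, 191, 192, 193, 194, 195, 197, 198, 199, 202, 203,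 207, 208, 209, 210, 211, 213, 214, 215, 218, 219, 223, 224, 225, 226, 227, 229, 230, 231, 234, 235, 239, 240, 241, 242, 243, 245, 246, 247, 250, 251, 255], [e0_63_106__159_42_0, e0_63_106__159_42_1, e0_63_106__159_42_2, e0_63_106__159_42_3, e0_63_106__159_42_4, e0_63_106__159_42_5, e0_63_106__159_42_6, e0_63_106__159_42_7, e0_63_106__159_42_8, e0_63_106__159_42_9, e0_63_106__159_42_10, e0_63_106__159_42_11, e0_63_106__159_42_12, e0_63_106__159_42_13, e0_63_106__159_42_14, e0_63_106__159_42_15, e0_63_106__159_42_16, e0_63_106__159_42_17, e0_63_106__159_42_18, e0_63_106__159_42_19, e0_63_106__159_42_20, e0_63_106__159_42_21, e0_63_106__159_42_22, e0_63_106__159_42_23, e0_63_106__159_42_24, e0_63_106__159_42_25, e0_63_106__159_42_26, e0_63_106__159_42_27, e0_63_106__159_42_28, e0_63_106__159_42_29, e0_63_106__159_42_30, e0_63_106__159_42_31, e0_63_106__159_42_32, e0_63_106__159_42_33, e0_63_106__159_42_34, e0_63_106__159_42_35,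 e0_63_106__159_42_36, e0_63_106__159_42_37, e0_63_106__159_42_38, e0_63_106__159_42_39, e0_63_106__159_42_40, e0_63_106__159_42_41, e0_63_106__159_42_42, e0_63_106__159_42_43, e0_63_106__159_42_44, e0_63_106__159_42_45, e0_63_106__159_42_46, e0_63_106__159_42_47, e0_63_106__159_42_48, e0_63_106__159_42_49, e0_63_106__159_42_50, e0_63_106__159_42_51, e0_63_106__159_42_52, e0_63_106__159_42_53, e0_63_106__159_42_54, e0_63_106__159_42_55, e0_63_106__159_42_56, e0_63_106__159_42_57, e0_63_106__159_42_58, e0_63_106__159_42_59, e0_63_106__159_42_60, e0_63_106__159_42_61, e0_63_106__159_42_62, e0_63_106__159_42_63, e0_63_106__159_42_64, e0_63_106__159_42_65, e0_63_106__159_42_66, e0_63_106__159_42_67, e0_63_106__159_42_68, e0_63_106__159_42_69, e0_63_106__159_42_70, e0_63_106__159_42_71, e0_63_106__159_42_72, e0_63_106__159_42_73, e0_63_106__159_42_74, e0_63_106__159_42_75, e0_63_106__159_42_76, e0_63_106__159_42_77, e0_63_106__159_42_78,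 e0_63_106__159_42_79, e0_63_106__159_42_80, e0_63_106__159_42_81, e0_63_106__159_42_82, e0_63_106__159_42_83, e0_63_106__159_42_84, e0_63_106__159_42_85, e0_63_106__159_42_86, e0_63_106__159_42_87, e0_63_106__159_42_88, e0_63_106__159_42_89, e0_63_106__159_42_90, e0_63_106__159_42_91, e0_63_106__159_42_92, e0_63_106__159_42_93, e0_63_106__159_42_94, e0_63_106__159_42_95, e0_63_106__159_42_96, e0_63_106__159_42_97, e0_63_106__159_42_98, e0_63_106__159_42_99, e0_63_106__159_42_100, e0_63_106__159_42_101, e0_63_106__159_42_102, e0_63_106__159_42_103, e0_63_106__159_42_104, e0_63_106__159_42_105, e0_63_106__159_42_106, e0_63_106__159_42_107, e0_63_106__159_42_108, e0_63_106__159_42_109, e0_63_106__159_42_110, e0_63_106__159_42_111, e0_63_106__159_42_112, e0_63_106__159_42_113, e0_63_106__159_42_114, e0_63_106__159_42_115, e0_63_106__159_42_116, e0_63_106__159_42_117, e0_63_106__159_42_118, e0_63_106__159_42_119, e0_63_106__159_42_120,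 e0_63_106__159_42_121, e0_63_106__159_42_122, e0_63_106__159_42_123, e0_63_106__159_42_124, e0_63_106__159_42_125, e0_63_106__159_42_126, e0_63_106__159_42_127, e0_63_106__159_42_128, e0_63_106__159_42_129, e0_63_106__159_42_130, e0_63_106__159_42_131, e0_63_106__159_42_132, e0_63_106__159_42_133, e0_63_106__159_42_134, e0_63_106__159_42_135, e0_63_106__159_42_136, e0_63_106__159_42_137, e0_63_106__159_42_138, e0_63_106__159_42_139, e0_63_106__159_42_140, e0_63_106__159_42_141, e0_63_106__159_42_142, e0_63_106__159_42_143, e0_63_106__159_42_144, e0_63_106__159_42_145, e0_63_106__159_42_146, e0_63_106__159_42_147, e0_63_106__159_42_148, e0_63_106__159_42_149, e0_63_106__159_42_150, e0_63_106__159_42_151, e0_63_106__159_42_152, e0_63_106__159_42_153, e0_63_106__159_42_154], by decide +kernel, by decide +kernel⟩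
def e0_63_106__171_42_0 : Ent 4 := ⟨[a0, a63, a106], [a171, a42, a1], (M a48 (F (T t309 (T t551 (L l28 (T t579 N))))))⟩
def e0_63_106__171_42_1 : Ent 4 := ⟨[a0, a63, a106], [a171, a42, a2], (M a48 (L l66 (F (T t309 (T t551 (L l28 (T t579 (K a22 (M a62 (F (T t585 (L l22 (L l306 (T t5926 N)))))) (K a62 (M a22 (F (T t578 (L l28 (T t579 (T t551 N)))))) N)))))))))⟩
def e0_63_106__171_42_2 : Ent 4 := ⟨[a0, a63, a106], [a171, a42, a3], (M a48 (L l475 (F (T t585 (L l453 (T t551 (L l28 (T t579 (K a87 (M a255 (F (L l219 (T t6960 (L l331 (T t304 N)))))) (K a255 (M a87 (F (T t585 (L l266 (L l453 (T t551 (L l28 (L l289 (T t7928 (L l28 (L l289 (T t6527 N)))))))))))) N))))))))))⟩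
def e0_63_106__171_42_3 : Ent 4 := ⟨[a0, a63, a106], [a171, a42, a4], (M a48 (F (T t309 (T t551 (L l28 (T t579 N))))))⟩
def e0_63_106__171_42_4 : Ent 4 := ⟨[a0, a63, a106], [a171, a42, a5], (M a48 (F (T t578 (L l28 (L l47 (T t579 (T t551 N)))))))⟩
def e0_63_106__171_42_5 : Ent 4 := ⟨[a0, a63, a106], [a171, a42, a6], (M a48 (F (T t309 (T t551 (L l28 (T t579 N))))))⟩
def e0_63_106__171_42_6 : Ent 4 := ⟨[a0, a63, a106], [a171, a42, a7], (M a48 (F (T t309 (T t551 (L l28 (T t579 N))))))⟩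
def e0_63_106__171_42_7 : Ent 4 := ⟨[a0, a63, a106], [a171, a42, a8], (M a48 (L l56 (F (T t309 (T t551 (L l28 (T t579 (K a25 (M a59 (F (T t307 (L l26 (L l316 (T t6445 N)))))) (K a59 (M a25 (F (T t578 (L l28 (T t579 (T t551 N)))))) N)))))))))⟩
def e0_63_106__171_42_8 : Ent 4 := ⟨[a0, a63, a106], [a171, a42, a9], (M a48 (F (T t309 (T t551 (L l28 (T t579 N))))))⟩
def e0_63_106__171_42_9 : Ent 4 := ⟨[a0, a63, a106], [a171, a42, a10], (M a48 (L l54 (F (T t578 (L l28 (L l318 (T t579 (T t551 (K a26 (Fr a58 a53 l38 (V t6446)) (K a58 (M a26 (F (L l28 (T t4144 (T t551 (L l28 (L l426 (T t6447 (K a32 (Fr a192 a149 l519 (Fr a15 a37 l75 (Fr a47 a31 l61 (V t6528)))) N))))))))) N))))))))))⟩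
def e0_63_106__171_42_10 : Ent 4 := ⟨[a0, a63, a106], [a171, a42, a11], (M a48 (L l463 (F (T t309 (T t551 (L l28 (T t579 (K a91 (M a251 (F (T t578 (L l28 (T t579 (T t551 N)))))) (K a251 (M a91 (F (T t578 (L l28 (T t579 (T t551 N)))))) N)))))))))⟩
def e0_63_106__171_42_11 : Ent 4 := ⟨[a0, a63, a106], [a171, a42, a12], (M a48 (F (T t585 (L l478 (T t551 (L l28 (T t579 N)))))))⟩
def e0_63_106__171_42_12 : Ent 4 := ⟨[a0, a63, a106], [a171, a42, a13], (M a48 (F (T t309 (T t551 (L l28 (T t579 N))))))⟩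
def e0_63_106__171_42_13 : Ent 4 := ⟨[a0, a63, a106], [a171, a42, a14], (M a48 (F (T t309 (T t551 (L l28 (T t579 N))))))⟩
def e0_63_106__171_42_14 : Ent 4 := ⟨[a0, a63, a106], [a171, a42, a15], (M a48 (F (T t585 (L l483 (T t551 (L l28 (T t579 N)))))))⟩
def e0_63_106__171_42_15 : Ent 4 := ⟨[a0, a63, a106], [a171, a42, a20], (M a48 (F (T t309 (T t551 (L l28 (T t579 N))))))⟩
def e0_63_106__171_42_16 : Ent 4 := ⟨[a0, a63, a106], [a171, a42, a21], (M a48 (F (L l47 (T t309 (L l347 (T t551 (L l28 (L l47 (T t579 N)))))))))⟩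
def e0_63_106__171_42_17 : Ent 4 := ⟨[a0, a63, a106], [a171, a42, a22], (M a48 (L l66 (F (T t309 (T t551 (L l28 (T t579 (K a2 (M a62 (F (T t585 (L l22 (L l306 (T t5926 N)))))) (K a62 (M a2 (F (T t307 (L l19 (L l28 (T t342 N)))))) N)))))))))⟩
def e0_63_106__171_42_18 : Ent 4 := ⟨[a0, a63, a106], [a171, a42, a23], (M a48 (F (T t309 (L l351 (T t551 (L l28 (T t579 N)))))))⟩
def e0_63_106__171_42_19 : Ent 4 := ⟨[a0, a63, a106], [a171, a42, a24], (M a48 (F (T t309 (T t551 (L l28 (T t579 N))))))⟩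
def e0_63_106__171_42_20 : Ent 4 := ⟨[a0, a63, a106], [a171, a42, a25], (M a48 (L l56 (F (T t309 (T t551 (L l28 (T t579 (K a8 (M a59 (F (T t307 (L l26 (L l316 (T t6445 N)))))) (K a59 (M a8 (F (T t307 (L l19 (L l28 (T t4700 N)))))) N)))))))))⟩
def e0_63_106__171_42_21 : Ent 4 := ⟨[a0, a63, a106], [a171, a42, a26], (M a48 (L l54 (F (T t309 (L l28 (T t579 (T t551 (K a10 (Fr a58 a53 l38 (V t6446)) (K a58 (M a10 (F (T t4033 (T t551 (L l18 (L l174 (L l354 (L l403 (T t6449 (L l18 (L l426 (T t6450 N)))))))))))) N)))))))))⟩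
def e0_63_106__171_42_22 : Ent 4 := ⟨[a0, a63, a106], [a171, a42, a27], (M a48 (F (T t309 (T t551 (L l28 (T t579 N))))))⟩
def e0_63_106__171_42_23 : Ent 4 := ⟨[a0, a63, a106], [a171, a42, a28], (M a48 (F (T t309 (T t551 (L l28 (L l362 (T t579 N)))))))⟩
def e0_63_106__171_42_24 : Ent 4 := ⟨[a0, a63, a106], [a171, a42, a29], (M a48 (F (T t309 (L l371 (T t551 (L l28 (T t579 N)))))))⟩
def e0_63_106__171_42_25 : Ent 4 := ⟨[a0, a63, a106], [a171, a42, a30], (M a48 (F (T t309 (T t551 (L l28 (T t579 N))))))⟩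
def e0_63_106__171_42_26 : Ent 4 := ⟨[a0, a63, a106], [a171, a42, a31], (M a48 (F (T t309 (L l375 (T t551 (L l28 (L l361 (T t579 N))))))))⟩
def e0_63_106__171_42_27 : Ent 4 := ⟨[a0, a63, a106], [a171, a42, a40], (M a48 (L l22 (F (T t309 (T t551 (L l24 (L l28 (T t579 (K a41 (M a43 (F (T t578 (L l66 (L l388 (T t6451 N)))))) (K a43 (M a41 (L l391 (F (T t578 (L l24 (L l28 (T t579 (T t551 (K a107 (M a235 (F (T t307 (L l24 (L l28 (T t579 (T t551 N))))))) (K a235 (M a107 (L l392 (F (T t578 (L l219 (L l255 (T t1166 (K a105 (M a170 (F (L l515 (T t6879 (L l219 (L l255 (L l410 (T t1166 N)))))))) (K a170 (Fr a105 a104 l98 (V t7929)) N))))))))) N)))))))))) N))))))))))⟩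
def e0_63_106__171_42_28 : Ent 4 := ⟨[a0, a63, a106], [a171, a42, a41], (M a48 (L l22 (F (T t309 (T t551 (L l28 (T t579 (K a40 (M a43 (F (T t578 (L l66 (L l388 (T t6451 N)))))) (K a43 (M a40 (L l391 (F (T t307 (L l29 (L l69 (T t6452 (K a107 (M a235 (F (T t307 (L l29 (L l56 (T t7195 N)))))) (K a235 (M a107 (F (T t578 (L l29 (L l69 (T t7930 N)))))) N))))))))) N)))))))))⟩
def e0_63_106__171_42_29 : Ent 4 := ⟨[a0, a63, a106], [a171, a42, a43], (M a107 (L l22 (F (L l66 (T t7931 (L l219 (T t7439 (L l475 (T t7440 (L l475 (T t7441 (K a40 (M a41 (F (L l219 (L l388 (T t7438 (L l475 (T t7440 (L l174 (L l219 (L l388 (L l392 (T t7245 (L l66 (L l392 (T t7932 (L l66 (L l388 (T t7933 N)))))))))))))))))) (K a41 (M a40 (F (T t7934 (L l389 (T t7935 (L l475 (T t7440 N))))))) N)))))))))))))⟩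
def e0_63_106__171_42_30 : Ent 4 := ⟨[a0, a63, a106], [a171, a42, a44], (M a48 (F (T t309 (T t551 (L l24 (L l28 (T t579 N)))))))⟩
def e0_63_106__171_42_31 : Ent 4 := ⟨[a0, a63, a106], [a171, a42, a45], (M a48 (F (T t309 (T t551 (L l28 (T t579 N))))))⟩
def e0_63_106__171_42_32 : Ent 4 := ⟨[a0, a63, a106], [a171, a42, a46], (M a48 (L l26 (F (T t309 (T t551 (L l28 (T t579 (K a34 (M a38 (F (T t578 (L l20 (L l28 (T t579 (T t551 N))))))) (K a38 (M a34 (F (T t307 (L l29 (L l66 (L l403 (L l475 (T t6453 N)))))))) N)))))))))⟩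
def e0_63_106__171_42_33 : Ent 4 := ⟨[a0, a63, a106], [a171, a42, a47], (M a12 (L l28 (F (T t2304 (T t2305 (L l56 (T t2415 (K a32 (M a37 (F (T t2416 (L l56 (T t2415 (T t2305 N)))))) (K a37 (M a32 (F (T t2304 (L l51 (L l56 (T t682 N)))))) N)))))))))⟩
def e0_63_106__171_42_34 : Ent 4 := ⟨[a0, a63, a106], [a171, a42, a60], (M a48 (F (T t585 (L l442 (T t551 (L l28 (T t579 N)))))))⟩
def e0_63_106__171_42_35 : Ent 4 := ⟨[a0, a63, a106], [a171, a42, a61], (M a48 (F (L l35 (T t309 (L l515 (T t551 (L l28 (L l35 (T t579 N)))))))))⟩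
def e0_63_106__171_42_36 : Ent 4 := ⟨[a0, a63, a106], [a171, a42, a62], (M a48 (L l66 (F (T t309 (T t551 (L l28 (T t579 (K a2 (M a22 (F (T t578 (L l28 (T t579 (T t551 N)))))) (K a22 (M a2 (F (T t307 (L l19 (L l28 (T t342 N)))))) N)))))))))⟩
def e0_63_106__171_42_37 : Ent 4 := ⟨[a0, a63, a106], [a171, a42, a64], (M a48 (F (T t585 (L l28 (L l475 (T t6454 (L l28 (L l174 (T t6455 (L l28 (L l174 (T t6456 (L l28 (L l84 (L l475 (T t6457 (L l54 (L l403 (T t6458 (K a207 (Fr a192 a149 l519 (Fr a96 a144 l484 (Fr a101 a111 l104 (Fr a32 a16 l40 (V t6459))))) N))))))))))))))))))))⟩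
def e0_63_106__171_42_38 : Ent 4 := ⟨[a0, a63, a106], [a171, a42, a65], (M a48 (F (T t309 (L l76 (T t551 (L l28 (L l76 (T t579 N))))))))⟩
def e0_63_106__171_42_39 : Ent 4 := ⟨[a0, a63, a106], [a171, a42, a66], (M a48 (F (T t585 (L l76 (T t551 (L l28 (L l76 (T t579 N))))))))⟩
def e0_63_106__171_42_40 : Ent 4 := ⟨[a0, a63, a106], [a171, a42, a67], (M a48 (F (T t309 (L l76 (T t551 (L l28 (L l76 (T t579 N))))))))⟩
def e0_63_106__171_42_41 : Ent 4 := ⟨[a0, a63, a106], [a171, a42, a68], (M a48 (F (T t309 (L l80 (T t551 (L l28 (L l80 (T t579 N))))))))⟩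
def e0_63_106__171_42_42 : Ent 4 := ⟨[a0, a63, a106], [a171, a42, a69], (M a48 (F (T t309 (L l84 (T t551 (L l28 (L l84 (T t579 N))))))))⟩
def e0_63_106__171_42_43 : Ent 4 := ⟨[a0, a63, a106], [a171, a42, a70], (M a48 (F (T t309 (T t551 (L l28 (T t579 N))))))⟩
def e0_63_106__171_42_44 : Ent 4 := ⟨[a0, a63, a106], [a171, a42, a71], (M a48 (F (T t309 (T t551 (L l28 (T t579 N))))))⟩
def e0_63_106__171_42_45 : Ent 4 := ⟨[a0, a63, a106], [a171, a42, a72], (M a48 (F (T t585 (L l80 (T t551 (L l28 (L l80 (T t579 N))))))))⟩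
def e0_63_106__171_42_46 : Ent 4 := ⟨[a0, a63, a106], [a171, a42, a73], (M a48 (F (T t309 (T t551 (L l28 (T t579 N))))))⟩
def e0_63_106__171_42_47 : Ent 4 := ⟨[a0, a63, a106], [a171, a42, a74], (M a48 (F (T t578 (L l28 (L l84 (L l318 (T t579 (L l84 (T t551 N)))))))))⟩
def e0_63_106__171_42_48 : Ent 4 := ⟨[a0, a63, a106], [a171, a42, a75], (M a48 (F (T t309 (T t551 (L l28 (T t579 N))))))⟩
def e0_63_106__171_42_49 : Ent 4 := ⟨[a0, a63, a106], [a171, a42, a76], (M a48 (F (T t309 (L l80 (T t551 (L l28 (L l80 (T t579 N))))))))⟩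
def e0_63_106__171_42_50 : Ent 4 := ⟨[a0, a63, a106], [a171, a42, a77], (M a48 (F (T t309 (T t551 (L l28 (T t579 N))))))⟩
def e0_63_106__171_42_51 : Ent 4 := ⟨[a0, a63, a106], [a171, a42, a78], (M a48 (F (T t309 (T t551 (L l28 (T t579 N))))))⟩
def e0_63_106__171_42_52 : Ent 4 := ⟨[a0, a63, a106], [a171, a42, a79], (M a48 (F (T t309 (L l84 (T t551 (L l28 (L l84 (T t579 N))))))))⟩
def e0_63_106__171_42_53 : Ent 4 := ⟨[a0, a63, a106], [a171, a42, a84], (M a48 (F (T t309 (L l140 (T t551 (L l28 (L l140 (T t579 N))))))))⟩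
def e0_63_106__171_42_54 : Ent 4 := ⟨[a0, a63, a106], [a171, a42, a85], (M a48 (F (T t309 (L l347 (T t551 (L l54 (T t777 (L l368 (T t6465 (K a192 (M a240 (F (T t6230 (L l236 (T t6471 (L l54 (L l236 (L l339 (T t6472 (L l339 (T t6473 N))))))))))) N))))))))))⟩
def e0_63_106__171_42_55 : Ent 4 := ⟨[a0, a63, a106], [a171, a42, a86], (M a48 (F (T t309 (L l351 (T t551 (L l28 (T t579 N)))))))⟩
def e0_63_106__171_42_56 : Ent 4 := ⟨[a0, a63, a106], [a171, a42, a87], (M a3 (F (T t6966 (L l66 (L l349 (T t809 (L l219 (T t3500 N))))))))⟩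
def e0_63_106__171_42_57 : Ent 4 := ⟨[a0, a63, a106], [a171, a42, a88], (M a48 (F (T t309 (L l478 (T t551 (L l28 (T t579 N)))))))⟩
def e0_63_106__171_42_58 : Ent 4 := ⟨[a0, a63, a106], [a171, a42, a89], (M a48 (F (T t309 (L l371 (T t551 (L l28 (T t579 N)))))))⟩
def e0_63_106__171_42_59 : Ent 4 := ⟨[a0, a63, a106], [a171, a42, a90], (M a48 (F (T t309 (L l375 (L l483 (T t551 (L l28 (T t579 N))))))))⟩
def e0_63_106__171_42_60 : Ent 4 := ⟨[a0, a63, a106], [a171, a42, a91], (M a48 (L l463 (F (T t309 (T t551 (L l28 (T t579 (K a11 (M a251 (F (T t578 (L l28 (T t579 (T t551 N)))))) (K a251 (M a11 (F (T t578 (L l28 (T t579 (T t551 N)))))) N)))))))))⟩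
def e0_63_106__171_42_61 : Ent 4 := ⟨[a0, a63, a106], [a171, a42, a92], (M a48 (F (T t309 (T t551 (L l28 (T t579 N))))))⟩
def e0_63_106__171_42_62 : Ent 4 := ⟨[a0, a63, a106], [a171, a42, a93], (M a48 (F (T t309 (T t551 (L l28 (L l362 (T t579 N)))))))⟩
def e0_63_106__171_42_63 : Ent 4 := ⟨[a0, a63, a106], [a171, a42, a94], (M a48 (F (T t309 (T t551 (L l28 (T t579 N))))))⟩
def e0_63_106__171_42_64 : Ent 4 := ⟨[a0, a63, a106], [a171, a42, a95], (M a48 (F (T t309 (T t551 (L l28 (L l361 (T t579 N)))))))⟩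
def e0_63_106__171_42_65 : Ent 4 := ⟨[a0, a63, a106], [a171, a42, a104], (M a48 (F (T t304 (L l28 (L l140 (T t579 (L l100 (L l140 (T t551 N)))))))))⟩
def e0_63_106__171_42_66 : Ent 4 := ⟨[a0, a63, a106], [a171, a42, a105], (M a48 (F (T t309 (L l515 (T t551 (L l28 (T t579 N)))))))⟩
def e0_63_106__171_42_67 : Ent 4 := ⟨[a0, a63, a106], [a171, a42, a107], (M a48 (L l391 (F (T t309 (T t551 (L l28 (T t579 (K a43 (M a235 (L l22 (F (T t3405 (T t551 (L l28 (T t579 (K a40 (M a41 (F (T t307 (L l24 (L l28 (T t579 (T t551 N))))))) (K a41 (M a40 (F (T t307 (L l29 (L l56 (T t7195 N)))))) N))))))))) (K a235 (M a43 (F (T t307 (L l66 (L l250 (T t6451 N)))))) N)))))))))⟩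
def e0_63_106__171_42_68 : Ent 4 := ⟨[a0, a63, a106], [a171, a42, a108], (M a48 (F (T t309 (L l100 (T t551 (L l28 (T t579 N)))))))⟩
def e0_63_106__171_42_69 : Ent 4 := ⟨[a0, a63, a106], [a171, a42, a109], (M a48 (F (T t309 (T t551 (L l28 (T t579 N))))))⟩
def e0_63_106__171_42_70 : Ent 4 := ⟨[a0, a63, a106], [a171, a42, a110], (M a48 (F (T t309 (T t551 (L l28 (T t579 N))))))⟩
def e0_63_106__171_42_71 : Ent 4 := ⟨[a0, a63, a106], [a171, a42, a111], (M a240 (F (T t4779 (T t817 (L l137 (T t4781 N))))))⟩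
def e0_63_106__171_42_72 : Ent 4 := ⟨[a0, a63, a106], [a171, a42, a124], (M a48 (F (T t309 (L l140 (T t551 (L l28 (L l140 (T t579 N))))))))⟩
def e0_63_106__171_42_73 : Ent 4 := ⟨[a0, a63, a106], [a171, a42, a125], (M a48 (F (T t309 (T t551 (L l28 (T t579 N))))))⟩
def e0_63_106__171_42_74 : Ent 4 := ⟨[a0, a63, a106], [a171, a42, a126], (M a48 (F (T t309 (T t551 (L l28 (T t579 N))))))⟩
def e0_63_106__171_42_75 : Ent 4 := ⟨[a0, a63, a106], [a171, a42, a127], (M a48 (F (T t309 (T t551 (L l28 (L l475 (T t6454 (L l28 (L l174 (T t6479 N))))))))))⟩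
def e0_63_106__171_42_76 : Ent 4 := ⟨[a0, a63, a106], [a171, a42, a128], (M a48 (F (T t585 (L l28 (T t579 (L l192 (L l220 (L l403 (T t6480 (L l54 (L l160 (L l403 (L l475 (T t6481 N))))))))))))))⟩
def e0_63_106__171_42_77 : Ent 4 := ⟨[a0, a63, a106], [a171, a42, a129], (M a48 (F (T t304 (L l28 (T t579 (L l217 (T t551 N)))))))⟩
def e0_63_106__171_42_78 : Ent 4 := ⟨[a0, a63, a106], [a171, a42, a130], (M a48 (F (T t309 (T t551 (L l28 (T t579 N))))))⟩
def e0_63_106__171_42_79 : Ent 4 := ⟨[a0, a63, a106], [a171, a42, a131], (M a48 (L l219 (F (T t309 (L l197 (T t551 (L l28 (T t579 (K a151 (M a191 (F (T t7348 (L l197 (T t7349 (L l163 (T t307 N))))))) (K a191 (M a151 (F (T t3405 (L l391 (T t3628 N))))) N))))))))))⟩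
def e0_63_106__171_42_80 : Ent 4 := ⟨[a0, a63, a106], [a171, a42, a132], (M a48 (F (T t304 (L l28 (T t579 (L l202 (T t551 N)))))))⟩
def e0_63_106__171_42_81 : Ent 4 := ⟨[a0, a63, a106], [a171, a42, a133], (M a48 (F (T t304 (L l28 (T t579 (L l199 (T t551 N)))))))⟩
def e0_63_106__171_42_82 : Ent 4 := ⟨[a0, a63, a106], [a171, a42, a134], (M a48 (F (T t309 (T t551 (L l28 (T t579 N))))))⟩
def e0_63_106__171_42_83 : Ent 4 := ⟨[a0, a63, a106], [a171, a42, a135], (M a48 (F (T t309 (T t551 (L l28 (T t579 N))))))⟩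
def e0_63_106__171_42_84 : Ent 4 := ⟨[a0, a63, a106], [a171, a42, a136], (M a48 (F (T t309 (T t551 (L l28 (T t579 N))))))⟩
def e0_63_106__171_42_85 : Ent 4 := ⟨[a0, a63, a106], [a171, a42, a137], (M a48 (F (T t309 (T t551 (L l28 (T t579 N))))))⟩
def e0_63_106__171_42_86 : Ent 4 := ⟨[a0, a63, a106], [a171, a42, a138], (M a48 (F (T t578 (L l28 (L l318 (T t579 (T t551 N)))))))⟩
def e0_63_106__171_42_87 : Ent 4 := ⟨[a0, a63, a106], [a171, a42, a139], (M a48 (L l207 (F (T t309 (T t551 (L l28 (T t579 (K a155 (M a187 (F (T t3405 (T t551 (L l28 (L l367 (T t579 N))))))) (K a187 (M a155 (F (T t3405 (T t551 (L l28 (T t579 N)))))) N)))))))))⟩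
def e0_63_106__171_42_88 : Ent 4 := ⟨[a0, a63, a106], [a171, a42, a140], (M a48 (F (T t309 (L l222 (T t551 (L l28 (T t579 N)))))))⟩
def e0_63_106__171_42_89 : Ent 4 := ⟨[a0, a63, a106], [a171, a42, a141], (M a48 (F (T t309 (T t551 (L l28 (T t579 N))))))⟩
def e0_63_106__171_42_90 : Ent 4 := ⟨[a0, a63, a106], [a171, a42, a142], (M a48 (F (T t309 (T t551 (L l28 (T t579 N))))))⟩
def e0_63_106__171_42_91 : Ent 4 := ⟨[a0, a63, a106], [a171, a42, a143], (M a48 (F (T t309 (L l28 (T t6462 (L l28 (T t579 N)))))))⟩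
def e0_63_106__171_42_92 : Ent 4 := ⟨[a0, a63, a106], [a171, a42, a148], (M a48 (F (T t304 (L l28 (T t579 (L l163 (T t551 N)))))))⟩
def e0_63_106__171_42_93 : Ent 4 := ⟨[a0, a63, a106], [a171, a42, a149], (M a240 (F (L l199 (T t4781 (L l179 (L l199 (L l347 (T t6484 (L l28 (L l199 (L l375 (T t6483 (L l28 (L l199 (L l220 (L l375 (T t6485 (K a133 (M a165 (F (T t6486 (L l28 (L l160 (L l220 (L l311 (L l375 (T t6487 (L l160 (L l179 (L l220 (L l475 (T t6488 N)))))))))))))) (K a165 (M a90 (L l199 (F (T t4788 (L l180 (T t6489 (K a133 (Fr a181 a122 l447 (V t6489)) (K a181 (M a133 (F (L l180 (T t6489 (L l227 (T t6746 (L l455 (T t6490 N)))))))) N)))))))) (K a181 (M a165 (F (T t6492 (T t6493 (L l28 (L l220 (L l375 (T t6487 (L l179 (L l220 (L l475 (T t6488 N)))))))))))) (K a74 (M a48 (F (T t6494 (L l199 (L l475 (L l491 (T t781 (L l28 (L l84 (L l318 (L l491 (T t579 N)))))))))))) (K a90 (M a48 (L l375 (F (T t3318 (L l199 (L l462 (L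 l475 (L l491 (T t781 (L l28 (L l491 (T t579 (K a208 (M a31 (F (L l28 (L l347 (T t6495 (L l151 (L l219 (L l220 (L l475 (T t6496 N)))))))))) (K a31 (M a208 (F (T t6497 (L l151 (L l219 (L l220 (L l475 (T t6496 N)))))))) N)))))))))))))) (K a122 (M a48 (F (T t3318 (L l114 (L l491 (T t6471 (L l28 (L l491 (T t579 N))))))))) N)))))))))))))))))))))))⟩
def e0_63_106__171_42_94 : Ent 4 := ⟨[a0, a63, a106], [a171, a42, a150], (M a48 (F (T t309 (L l163 (T t551 (L l28 (T t579 N)))))))⟩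
def e0_63_106__171_42_95 : Ent 4 := ⟨[a0, a63, a106], [a171, a42, a151], (M a48 (L l219 (F (T t309 (L l163 (T t551 (L l28 (T t579 (K a131 (M a191 (F (T t7348 (L l197 (T t7349 (L l163 (T t307 N))))))) (K a191 (M a131 (F (T t3405 (L l163 (L l190 (L l220 (T t551 (L l28 (L l475 (T t6498 (L l28 (T t6499 N)))))))))))) N))))))))))⟩
def e0_63_106__171_42_96 : Ent 4 := ⟨[a0, a63, a106], [a171, a42, a152], (M a48 (F (T t304 (L l28 (T t579 (L l222 (T t551 N)))))))⟩
def e0_63_106__171_42_97 : Ent 4 := ⟨[a0, a63, a106], [a171, a42, a153], (M a48 (F (T t309 (L l167 (T t551 (L l28 (T t579 N)))))))⟩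
def e0_63_106__171_42_98 : Ent 4 := ⟨[a0, a63, a106], [a171, a42, a154], (M a240 (F (T t4779 (L l170 (L l368 (L l512 (T t817 (T t4781 N))))))))⟩
def e0_63_106__171_42_99 : Ent 4 := ⟨[a0, a63, a106], [a171, a42, a155], (M a48 (L l207 (F (T t309 (T t551 (L l28 (L l367 (T t579 (K a139 (M a187 (F (T t3405 (T t551 (L l28 (L l367 (T t579 N))))))) (K a187 (M a139 (F (T t3405 (T t551 (L l184 (T t7347 N)))))) N))))))))))⟩
def e0_63_106__171_42_100 : Ent 4 := ⟨[a0, a63, a106], [a171, a42, a156], (M a48 (F (T t304 (L l28 (T t579 (T t551 N))))))⟩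
def e0_63_106__171_42_101 : Ent 4 := ⟨[a0, a63, a106], [a171, a42, a157], (M a48 (F (T t309 (L l167 (T t551 (L l28 (T t579 N)))))))⟩
def e0_63_106__171_42_102 : Ent 4 := ⟨[a0, a63, a106], [a171, a42, a158], (M a48 (F (T t309 (T t551 (L l28 (L l362 (T t579 N)))))))⟩
def e0_63_106__171_42_103 : Ent 4 := ⟨[a0, a63, a106], [a171, a42, a159], (M a240 (F (T t4779 (L l170 (T t817 (L l361 (T t4781 N)))))))⟩
def e0_63_106__171_42_104 : Ent 4 := ⟨[a0, a63, a106], [a171, a42, a168], (M a48 (L l174 (F (T t309 (T t551 (L l28 (L l400 (T t579 (K a169 (M a170 (F (L l473 (T t7343 (L l28 (L l400 (L l475 (T t323 (L l217 (T t307 N)))))))))) (K a170 (M a169 (F (T t304 (L l388 (T t7471 (L l207 (L l388 (T t7322 N)))))))) N))))))))))⟩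
def e0_63_106__171_42_105 : Ent 4 := ⟨[a0, a63, a106], [a171, a42, a169], (M a48 (L l174 (F (T t309 (L l217 (T t551 (L l28 (T t579 (K a168 (M a170 (F (L l473 (T t7343 (L l28 (L l400 (L l475 (T t323 (L l217 (T t307 N)))))))))) (K a170 (M a168 (F (T t304 (L l208 (L l405 (T t4722 N)))))) N))))))))))⟩
def e0_63_106__171_42_106 : Ent 4 := ⟨[a0, a63, a106], [a171, a42, a170], (M a48 (L l174 (F (T t309 (L l220 (T t551 (L l28 (L l206 (L l219 (L l220 (L l404 (T t552 (L l28 (L l206 (L l404 (T t553 (K a168 (M a169 (F (T t304 (L l388 (T t7471 (L l207 (L l388 (T t7322 N)))))))) (K a169 (M a168 (F (T t304 (L l208 (L l405 (T t4722 N)))))) N))))))))))))))))))⟩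
def e0_63_106__171_42_107 : Ent 4 := ⟨[a0, a63, a106], [a171, a42, a172], (M a48 (F (T t309 (T t551 (L l28 (T t579 N))))))⟩
def e0_63_106__171_42_108 : Ent 4 := ⟨[a0, a63, a106], [a171, a42, a173], (M a48 (F (T t309 (T t551 (L l28 (T t579 N))))))⟩
def e0_63_106__171_42_109 : Ent 4 := ⟨[a0, a63, a106], [a171, a42, a174], (M a48 (F (T t309 (T t551 (L l28 (T t579 N))))))⟩
def e0_63_106__171_42_110 : Ent 4 := ⟨[a0, a63, a106], [a171, a42, a175], (M a48 (L l179 (F (T t309 (T t551 (L l28 (T t579 (K a163 (M a167 (F (T t3405 (T t551 (L l28 (T t579 N)))))) (K a167 (M a163 (F (T t3405 (T t551 (L l28 (T t579 N)))))) N)))))))))⟩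
def e0_63_106__171_42_111 : Ent 4 := ⟨[a0, a63, a106], [a171, a42, a188], (M a48 (F (T t309 (L l186 (T t551 (L l28 (T t579 N)))))))⟩
def e0_63_106__171_42_112 : Ent 4 := ⟨[a0, a63, a106], [a171, a42, a189], (M a48 (F (T t309 (L l217 (T t551 (L l28 (T t579 N)))))))⟩
def e0_63_106__171_42_113 : Ent 4 := ⟨[a0, a63, a106], [a171, a42, a190], (M a48 (F (T t309 (T t551 (L l28 (T t579 N))))))⟩
def e0_63_106__171_42_114 : Ent 4 := ⟨[a0, a63, a106], [a171, a42, a191], (M a48 (L l219 (F (T t309 (L l190 (L l220 (T t551 (L l28 (L l475 (T t6498 (L l28 (T t6499 (K a131 (M a151 (F (T t3405 (L l391 (T t3628 N))))) (K a151 (M a131 (F (T t3405 (L l163 (L l190 (L l220 (T t551 (L l28 (L l475 (T t6498 (L l28 (T t6499 N)))))))))))) N))))))))))))))⟩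
def e0_63_106__171_42_115 : Ent 4 := ⟨[a0, a63, a106], [a171, a42, a192], (M a240 (F (L l339 (T t4781 (L l174 (L l236 (L l339 (T t6500 (L l296 (L l339 (L l475 (T t6501 (L l28 (L l339 (T t6502 (L l219 (L l339 (T t6503 (K a133 (M a90 (L l339 (F (T t4788 (L l174 (T t6504 (K a74 (Fr a15 a165 l483 (V t6505)) (K a15 (Fr a74 a122 l130 (V t6506)) N)))))))) (K a85 (M a12 (F (L l292 (T t2745 (L l272 (L l339 (T t6595 N))))))) (K a181 (M a12 (F (T t3358 (L l56 (L l272 (T t2415 (L l179 (L l272 (T t6512 N))))))))) (K a74 (M a165 (L l339 (F (T t6492 (L l179 (L l296 (L l475 (T t6513 (L l54 (L l84 (L l318 (T t6514 (K a133 (Fr a15 a90 l483 (V t6515)) (K a15 (M a133 (F (T t6516 (L l28 (L l236 (L l318 (L l484 (T t6517 N)))))))) N)))))))))))))) (K a90 (M a252 (F (L l489 (T t3105 (L l174 (L l334 (T t6518 (L l174 (L l309 (L l475 (T t6675 N))))))))))) (K a122 (M a12 (F (T t2747 (L l56 (L l272 (T t2415 (L l179 (L l272 (T t6512 N))))))))) (K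 a15 (M a248 (L l339 (F (T t6520 (L l22 (L l391 (T t6521 (K a133 (M a74 (F (T t6522 (L l3 (L l56 (L l334 (T t6523 N))))))) (K a74 (M a133 (F (T t3821 (T t6520 (L l179 (L l469 (L l484 (T t6524 N)))))))) N))))))))) N)))))))))))))))))))))))))⟩
def e0_63_106__171_42_116 : Ent 4 := ⟨[a0, a63, a106], [a171, a42, a193], (M a48 (F (T t304 (L l28 (T t579 (L l515 (T t551 N)))))))⟩
def e0_63_106__171_42_117 : Ent 4 := ⟨[a0, a63, a106], [a171, a42, a194], (M a48 (F (T t578 (L l28 (L l234 (T t579 (T t551 N)))))))⟩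
def e0_63_106__171_42_118 : Ent 4 := ⟨[a0, a63, a106], [a171, a42, a195], (M a48 (F (T t585 (L l273 (T t551 (L l28 (T t579 N)))))))⟩
def e0_63_106__171_42_119 : Ent 4 := ⟨[a0, a63, a106], [a171, a42, a196], (M a48 (F (T t304 (L l28 (T t579 (L l495 (T t551 N)))))))⟩
def e0_63_106__171_42_120 : Ent 4 := ⟨[a0, a63, a106], [a171, a42, a197], (M a240 (F (L l236 (T t4779 (L l491 (T t817 (T t4781 N)))))))⟩
def e0_63_106__171_42_121 : Ent 4 := ⟨[a0, a63, a106], [a171, a42, a198], (M a48 (F (T t578 (L l28 (L l234 (T t579 (T t551 N)))))))⟩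
def e0_63_106__171_42_122 : Ent 4 := ⟨[a0, a63, a106], [a171, a42, a199], (M a48 (F (T t309 (T t551 (L l28 (T t579 N))))))⟩
def e0_63_106__171_42_123 : Ent 4 := ⟨[a0, a63, a106], [a171, a42, a200], (M a48 (F (T t578 (L l28 (L l230 (T t579 (T t551 N)))))))⟩
def e0_63_106__171_42_124 : Ent 4 := ⟨[a0, a63, a106], [a171, a42, a201], (M a48 (F (T t578 (L l28 (L l230 (T t579 (T t551 N)))))))⟩
def e0_63_106__171_42_125 : Ent 4 := ⟨[a0, a63, a106], [a171, a42, a202], (M a240 (F (L l236 (T t4786 (T t817 (L l318 (T t4781 N)))))))⟩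
def e0_63_106__171_42_126 : Ent 4 := ⟨[a0, a63, a106], [a171, a42, a203], (M a48 (F (T t2348 (L l28 (L l230 (T t579 (T t551 N)))))))⟩
def e0_63_106__171_42_127 : Ent 4 := ⟨[a0, a63, a106], [a171, a42, a204], (M a48 (F (T t585 (L l298 (T t551 (L l28 (T t579 N)))))))⟩
def e0_63_106__171_42_128 : Ent 4 := ⟨[a0, a63, a106], [a171, a42, a205], (M a48 (F (T t309 (T t551 (L l28 (T t579 N))))))⟩
def e0_63_106__171_42_129 : Ent 4 := ⟨[a0, a63, a106], [a171, a42, a206], (M a48 (F (T t2348 (L l28 (L l234 (T t579 (T t551 N)))))))⟩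
def e0_63_106__171_42_130 : Ent 4 := ⟨[a0, a63, a106], [a171, a42, a207], (M a240 (F (T t6525 (L l512 (T t817 (T t4781 N))))))⟩
def e0_63_106__171_42_131 : Ent 4 := ⟨[a0, a63, a106], [a171, a42, a212], (M a48 (F (T t304 (L l28 (T t579 (L l351 (T t551 N)))))))⟩
def e0_63_106__171_42_132 : Ent 4 := ⟨[a0, a63, a106], [a171, a42, a213], (M a48 (F (T t585 (L l347 (T t551 (L l28 (L l246 (T t579 N))))))))⟩
def e0_63_106__171_42_133 : Ent 4 := ⟨[a0, a63, a106], [a171, a42, a214], (M a48 (F (T t309 (T t551 (L l28 (T t579 N))))))⟩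
def e0_63_106__171_42_134 : Ent 4 := ⟨[a0, a63, a106], [a171, a42, a215], (M a48 (F (T t309 (T t551 (L l28 (L l245 (T t579 N)))))))⟩
def e0_63_106__171_42_135 : Ent 4 := ⟨[a0, a63, a106], [a171, a42, a216], (M a48 (F (T t309 (L l298 (T t551 (L l28 (T t579 N)))))))⟩
def e0_63_106__171_42_136 : Ent 4 := ⟨[a0, a63, a106], [a171, a42, a217], (M a48 (F (T t309 (T t551 (L l28 (T t579 N))))))⟩
def e0_63_106__171_42_137 : Ent 4 := ⟨[a0, a63, a106], [a171, a42, a218], (M a48 (F (T t2348 (L l28 (L l246 (L l282 (T t579 (L l303 (T t551 N)))))))))⟩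
def e0_63_106__171_42_138 : Ent 4 := ⟨[a0, a63, a106], [a171, a42, a219], (M a48 (F (T t309 (T t551 (L l28 (L l245 (T t579 N)))))))⟩
def e0_63_106__171_42_139 : Ent 4 := ⟨[a0, a63, a106], [a171, a42, a220], (M a48 (F (T t309 (T t551 (L l28 (L l241 (T t579 N)))))))⟩
def e0_63_106__171_42_140 : Ent 4 := ⟨[a0, a63, a106], [a171, a42, a221], (M a48 (F (T t309 (T t551 (L l28 (L l241 (T t579 N)))))))⟩
def e0_63_106__171_42_141 : Ent 4 := ⟨[a0, a63, a106], [a171, a42, a222], (M a48 (F (T t309 (T t551 (L l28 (L l241 (T t579 N)))))))⟩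
def e0_63_106__171_42_142 : Ent 4 := ⟨[a0, a63, a106], [a171, a42, a223], (M a240 (F (T t4786 (L l368 (T t817 (L l361 (T t4781 N)))))))⟩
def e0_63_106__171_42_143 : Ent 4 := ⟨[a0, a63, a106], [a171, a42, a232], (M a48 (F (T t585 (T t551 (L l28 (T t579 N))))))⟩
def e0_63_106__171_42_144 : Ent 4 := ⟨[a0, a63, a106], [a171, a42, a233], (M a48 (F (T t309 (T t551 (L l28 (T t579 N))))))⟩
def e0_63_106__171_42_145 : Ent 4 := ⟨[a0, a63, a106], [a171, a42, a234], (M a48 (F (T t578 (L l28 (L l282 (T t579 (T t551 N)))))))⟩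
def e0_63_106__171_42_146 : Ent 4 := ⟨[a0, a63, a106], [a171, a42, a235], (M a48 (L l391 (F (T t309 (T t551 (L l28 (T t579 (K a43 (M a107 (L l22 (F (T t585 (L l219 (T t1164 (K a40 (M a41 (L l392 (F (T t578 (L l219 (L l255 (T t1166 (K a105 (M a170 (F (L l515 (T t6879 (L l219 (L l255 (L l410 (T t1166 N)))))))) (K a170 (Fr a105 a104 l98 (V t7929)) N))))))))) (K a41 (M a40 (F (T t578 (L l29 (L l69 (T t7930 N)))))) N)))))))) (K a107 (M a43 (F (T t307 (L l66 (L l250 (T t6451 N)))))) N)))))))))⟩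
def e0_63_106__171_42_147 : Ent 4 := ⟨[a0, a63, a106], [a171, a42, a236], (M a48 (F (T t309 (T t551 (L l28 (L l400 (T t579 N)))))))⟩
def e0_63_106__171_42_148 : Ent 4 := ⟨[a0, a63, a106], [a171, a42, a237], (M a48 (F (T t309 (T t551 (L l28 (T t579 N))))))⟩
def e0_63_106__171_42_149 : Ent 4 := ⟨[a0, a63, a106], [a171, a42, a238], (M a48 (F (T t309 (T t551 (L l28 (T t579 N))))))⟩
def e0_63_106__171_42_150 : Ent 4 := ⟨[a0, a63, a106], [a171, a42, a239], (M a48 (L l403 (F (T t309 (T t551 (L l28 (L l289 (L l404 (T t579 (K a35 (M a103 (F (T t309 (T t551 (L l20 (L l28 (L l289 (L l404 (T t579 N))))))))) (K a103 (M a35 (F (T t309 (T t551 (L l28 (L l289 (L l404 (T t579 N)))))))) N)))))))))))⟩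
def e0_63_106__171_42_151 : Ent 4 := ⟨[a0, a63, a106], [a171, a42, a252], (M a48 (F (T t585 (L l262 (T t551 (L l28 (T t579 N)))))))⟩
def e0_63_106__171_42_152 : Ent 4 := ⟨[a0, a63, a106], [a171, a42, a253], (M a48 (F (T t309 (T t551 (L l28 (T t579 N))))))⟩
def e0_63_106__171_42_153 : Ent 4 := ⟨[a0, a63, a106], [a171, a42, a254], (M a48 (F (T t309 (T t551 (L l28 (T t579 N))))))⟩
def e0_63_106__171_42_154 : Ent 4 := ⟨[a0, a63, a106], [a171, a42, a255], (M a3 (F (T t7472 (L l219 (L l295 (T t3500 (L l66 (L l434 (T t7936 (L l66 (L l261 (T t7937 N))))))))))))⟩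
def b0_63_106__171_42 : Blk 4 := ⟨[0, 63, 106], [171, 42], [1, 2, 3, 4, 5, 6, 7, 8, 9, 10, 11, 12, 13, 14, 15, 20, 21, 22, 23, 24, 25, 26, 27, 28, 29, 30, 31, 40, 41, 43, 44, 45, 46, 47, 60, 61, 62, 64, 65, 66, 67, 68, 69, 70, 71, 72, 73, 74, 75, 76, 77, 78, 79, 84, 85, 86, 87, 88, 89, 90, 91, 92, 93, 94, 95, 104, 105, 107, 108, 109, 110, 111, 124, 125, 126, 127, 128, 129, 130, 131, 132, 133, 134, 135, 136, 137, 138, 139, 140, 141, 142, 143, 148, 149, 150, 151, 152, 153, 154, 155, 156, 157, 158, 159, 168, 169, 170, 172, 173, 174, 175, 188, 189, 190, 191, 192, 193, 194, 195, 196, 197, 198, 199, 200, 201, 202, 203, 204, 205, 206, 207, 212, 213, 214, 215, 216, 217, 218, 219, 220, 221, 222, 223, 232, 233, 234, 235, 236, 237, 238, 239, 252, 253, 254, 255], [e0_63_106__171_42_0, e0_63_106__171_42_1, e0_63_106__171_42_2, e0_63_106__171_42_3, e0_63_106__171_42_4, e0_63_106__171_42_5, e0_63_106__171_42_6, e0_63_106__171_42_7,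 e0_63_106__171_42_8, e0_63_106__171_42_9, e0_63_106__171_42_10, e0_63_106__171_42_11, e0_63_106__171_42_12, e0_63_106__171_42_13, e0_63_106__171_42_14, e0_63_106__171_42_15, e0_63_106__171_42_16, e0_63_106__171_42_17, e0_63_106__171_42_18, e0_63_106__171_42_19, e0_63_106__171_42_20, e0_63_106__171_42_21, e0_63_106__171_42_22, e0_63_106__171_42_23, e0_63_106__171_42_24, e0_63_106__171_42_25, e0_63_106__171_42_26, e0_63_106__171_42_27, e0_63_106__171_42_28, e0_63_106__171_42_29, e0_63_106__171_42_30, e0_63_106__171_42_31, e0_63_106__171_42_32, e0_63_106__171_42_33, e0_63_106__171_42_34, e0_63_106__171_42_35, e0_63_106__171_42_36, e0_63_106__171_42_37, e0_63_106__171_42_38, e0_63_106__171_42_39, e0_63_106__171_42_40, e0_63_106__171_42_41, e0_63_106__171_42_42, e0_63_106__171_42_43, e0_63_106__171_42_44, e0_63_106__171_42_45, e0_63_106__171_42_46, e0_63_106__171_42_47, e0_63_106__171_42_48, e0_63_106__171_42_49, e0_63_106__171_42_50,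 e0_63_106__171_42_51, e0_63_106__171_42_52, e0_63_106__171_42_53, e0_63_106__171_42_54, e0_63_106__171_42_55, e0_63_106__171_42_56, e0_63_106__171_42_57, e0_63_106__171_42_58, e0_63_106__171_42_59, e0_63_106__171_42_60, e0_63_106__171_42_61, e0_63_106__171_42_62, e0_63_106__171_42_63, e0_63_106__171_42_64, e0_63_106__171_42_65, e0_63_106__171_42_66, e0_63_106__171_42_67, e0_63_106__171_42_68, e0_63_106__171_42_69, e0_63_106__171_42_70, e0_63_106__171_42_71, e0_63_106__171_42_72, e0_63_106__171_42_73, e0_63_106__171_42_74, e0_63_106__171_42_75, e0_63_106__171_42_76, e0_63_106__171_42_77, e0_63_106__171_42_78, e0_63_106__171_42_79, e0_63_106__171_42_80, e0_63_106__171_42_81, e0_63_106__171_42_82, e0_63_106__171_42_83, e0_63_106__171_42_84, e0_63_106__171_42_85, e0_63_106__171_42_86, e0_63_106__171_42_87, e0_63_106__171_42_88, e0_63_106__171_42_89, e0_63_106__171_42_90, e0_63_106__171_42_91, e0_63_106__171_42_92, e0_63_106__171_42_93,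 e0_63_106__171_42_94, e0_63_106__171_42_95, e0_63_106__171_42_96, e0_63_106__171_42_97, e0_63_106__171_42_98, e0_63_106__171_42_99, e0_63_106__171_42_100, e0_63_106__171_42_101, e0_63_106__171_42_102, e0_63_106__171_42_103, e0_63_106__171_42_104, e0_63_106__171_42_105, e0_63_106__171_42_106, e0_63_106__171_42_107, e0_63_106__171_42_108, e0_63_106__171_42_109, e0_63_106__171_42_110, e0_63_106__171_42_111, e0_63_106__171_42_112, e0_63_106__171_42_113, e0_63_106__171_42_114, e0_63_106__171_42_115, e0_63_106__171_42_116, e0_63_106__171_42_117, e0_63_106__171_42_118, e0_63_106__171_42_119, e0_63_106__171_42_120, e0_63_106__171_42_121, e0_63_106__171_42_122, e0_63_106__171_42_123, e0_63_106__171_42_124, e0_63_106__171_42_125, e0_63_106__171_42_126, e0_63_106__171_42_127, e0_63_106__171_42_128, e0_63_106__171_42_129, e0_63_106__171_42_130, e0_63_106__171_42_131, e0_63_106__171_42_132, e0_63_106__171_42_133, e0_63_106__171_42_134,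 e0_63_106__171_42_135, e0_63_106__171_42_136, e0_63_106__171_42_137, e0_63_106__171_42_138, e0_63_106__171_42_139, e0_63_106__171_42_140, e0_63_106__171_42_141, e0_63_106__171_42_142, e0_63_106__171_42_143, e0_63_106__171_42_144, e0_63_106__171_42_145, e0_63_106__171_42_146, e0_63_106__171_42_147, e0_63_106__171_42_148, e0_63_106__171_42_149, e0_63_106__171_42_150, e0_63_106__171_42_151, e0_63_106__171_42_152, e0_63_106__171_42_153, e0_63_106__171_42_154], by decide +kernel, by decide +kernel⟩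

end Pool.Agent.Lib_TTT.K4
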