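import Pool.Agent.Lib_TTT.K4Base
import Pool.Agent.Lib_TTT.K4T00
import Pool.Agent.Lib_TTT.K4T01
import Pool.Agent.Lib_TTT.K4T02
import Pool.Agent.Lib_TTT.K4T03
import Pool.Agent.Lib_TTT.K4T04
import Pool.Agent.Lib_TTT.K4T05
import Pool.Agent.Lib_TTT.K4T06
import Pool.Agent.Lib_TTT.K4T07
import Pool.Agent.Lib_TTT.K4T08
import Pool.Agent.Lib_TTT.K4T09

/-! Certificates in `4^4`. -/

set_option autoImplicit false
set_option maxRecDepth 200000

namespace Pool.Agent.Lib_TTT.K4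

open Lib_TTT AC DC

def e0_63_106__175_42_0 : Ent 4 := ⟨[a0, a63, a106], [a175, a42, a1], (M a48 (F (T t309 (T t551 (L l28 (T t579 N))))))⟩
def e0_63_106__175_42_1 : Ent 4 := ⟨[a0, a63, a106], [a175, a42, a2], (M a48 (L l66 (F (T t309 (T t551 (L l28 (T t579 (K a22 (M a62 (F (T t307 (L l22 (L l306 (T t5926 N)))))) (K a62 (M a22 (F (T t3405 (T t551 (L l28 (T t579 N)))))) N)))))))))⟩
def e0_63_106__175_42_2 : Ent 4 := ⟨[a0, a63, a106], [a175, a42, a3], (M a48 (F (T t5173 (L l28 (T t579 (L l453 (T t551 N)))))))⟩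
def e0_63_106__175_42_3 : Ent 4 := ⟨[a0, a63, a106], [a175, a42, a5], (M a48 (F (L l47 (T t309 (T t551 (L l28 (L l47 (T t579 N))))))))⟩
def e0_63_106__175_42_4 : Ent 4 := ⟨[a0, a63, a106], [a175, a42, a6], (M a48 (F (T t309 (T t551 (L l28 (T t579 N))))))⟩
def e0_63_106__175_42_5 : Ent 4 := ⟨[a0, a63, a106], [a175, a42, a7], (M a48 (F (T t309 (T t551 (L l28 (T t579 N))))))⟩
def e0_63_106__175_42_6 : Ent 4 := ⟨[a0, a63, a106], [a175, a42, a10], (M a48 (L l54 (F (L l318 (T t309 (T t551 (L l28 (L l318 (T t579 (K a26 (Fr a58 a53 l38 (V t6446)) (K a58 (M a26 (F (L l28 (T t4144 (T t551 (L l28 (L l426 (T t6447 (K a32 (Fr a192 a149 l519 (Fr a15 a37 l75 (Fr a47 a31 l61 (V t6528)))) N))))))))) N)))))))))))⟩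
def e0_63_106__175_42_7 : Ent 4 := ⟨[a0, a63, a106], [a175, a42, a11], (M a48 (F (T t309 (T t551 (L l28 (T t579 N))))))⟩
def e0_63_106__175_42_8 : Ent 4 := ⟨[a0, a63, a106], [a175, a42, a15], (M a48 (L l469 (F (T t5173 (L l28 (T t579 (L l483 (T t551 (K a95 (M a255 (F (L l180 (T t7159 (L l325 (T t307 N)))))) (K a255 (M a95 (F (T t5173 (L l266 (L l483 (T t551 (L l28 (T t7938 N)))))))) N))))))))))⟩
def e0_63_106__175_42_9 : Ent 4 := ⟨[a0, a63, a106], [a175, a42, a16], (M a240 (F (T t4786 (L l340 (T t4780 (L l180 (L l469 (T t4781 N))))))))⟩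
def e0_63_106__175_42_10 : Ent 4 := ⟨[a0, a63, a106], [a175, a42, a17], (M a48 (F (T t309 (T t551 (L l28 (T t579 N))))))⟩
def e0_63_106__175_42_11 : Ent 4 := ⟨[a0, a63, a106], [a175, a42, a18], (M a48 (F (T t309 (T t551 (L l28 (T t579 N))))))⟩
def e0_63_106__175_42_12 : Ent 4 := ⟨[a0, a63, a106], [a175, a42, a19], (M a48 (F (T t309 (T t551 (L l28 (L l367 (T t579 N)))))))⟩
def e0_63_106__175_42_13 : Ent 4 := ⟨[a0, a63, a106], [a175, a42, a21], (M a48 (F (L l47 (T t309 (L l347 (T t551 (L l28 (L l47 (T t579 N)))))))))⟩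
def e0_63_106__175_42_14 : Ent 4 := ⟨[a0, a63, a106], [a175, a42, a22], (M a48 (L l66 (F (T t309 (T t551 (L l28 (T t579 (K a2 (M a62 (F (T t307 (L l22 (L l306 (T t5926 N)))))) (K a62 (M a2 (F (T t307 (L l19 (L l28 (T t342 N)))))) N)))))))))⟩
def e0_63_106__175_42_15 : Ent 4 := ⟨[a0, a63, a106], [a175, a42, a23], (M a48 (F (T t309 (L l351 (T t551 (L l28 (T t579 N)))))))⟩
def e0_63_106__175_42_16 : Ent 4 := ⟨[a0, a63, a106], [a175, a42, a26], (M a48 (L l54 (F (T t309 (L l28 (T t579 (T t551 (K a10 (Fr a58 a53 l38 (V t6446)) (K a58 (M a10 (F (T t551 (L l426 (T t6820 (T t4033 (L l18 (L l180 (L l354 (T t7939 (K a149 (Fr a15 a5 l8 (Fr a47 a31 l61 (Fr a165 a224 l411 (Fr a90 a240 l483 (Fr a170 a250 l462 (Fr a255 a85 l476 (Fr a74 a122 l130 (Fr a186 a117 l440 (V t7967))))))))) N))))))))))) N)))))))))⟩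
def e0_63_106__175_42_17 : Ent 4 := ⟨[a0, a63, a106], [a175, a42, a27], (M a48 (F (T t309 (T t551 (L l28 (T t579 N))))))⟩
def e0_63_106__175_42_18 : Ent 4 := ⟨[a0, a63, a106], [a175, a42, a31], (M a48 (F (T t309 (L l375 (T t551 (L l28 (L l361 (T t579 N))))))))⟩
def e0_63_106__175_42_19 : Ent 4 := ⟨[a0, a63, a106], [a175, a42, a32], (M a12 (L l28 (F (T t2304 (T t2305 (L l56 (T t2415 (K a37 (M a47 (F (T t2418 (L l54 (L l376 (T t6764 N)))))) (K a47 (M a37 (L l397 (F (T t2416 (L l56 (T t2415 (T t2305 (K a111 (M a239 (F (T t2416 (L l56 (T t2415 (T t2305 N)))))) (K a239 (M a111 (L l404 (F (T t6812 (L l213 (T t7941 (K a101 (M a170 (F (L l491 (T t6879 (L l56 (L l213 (L l494 (T t7942 N)))))))) (K a170 (Fr a101 a96 l104 (V t7943)) N)))))))) N))))))))) N)))))))))⟩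
def e0_63_106__175_42_20 : Ent 4 := ⟨[a0, a63, a106], [a175, a42, a33], (M a48 (F (T t309 (T t551 (L l20 (L l28 (T t579 N)))))))⟩
def e0_63_106__175_42_21 : Ent 4 := ⟨[a0, a63, a106], [a175, a42, a34], (M a48 (L l26 (F (T t309 (T t551 (L l20 (L l28 (T t579 (K a38 (M a46 (F (T t307 (L l56 (L l378 (T t4030 N)))))) (K a46 (M a38 (F (T t3405 (T t551 (L l20 (L l28 (T t579 N))))))) N))))))))))⟩
def e0_63_106__175_42_22 : Ent 4 := ⟨[a0, a63, a106], [a175, a42, a35], (M a48 (F (T t309 (T t551 (L l20 (L l28 (T t579 N)))))))⟩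
def e0_63_106__175_42_23 : Ent 4 := ⟨[a0, a63, a106], [a175, a42, a37], (M a240 (L l28 (F (T t4786 (L l75 (T t4780 (L l180 (L l469 (T t4781 (L l180 (T t6606 (K a32 (M a47 (F (T t6602 (T t6698 (T t6604 N))))) (K a47 (M a32 (L l397 (F (L l47 (T t7473 (L l180 (L l469 (T t4781 (K a111 (M a239 (F (T t6607 (L l137 (L l180 (L l469 (T t4781 (L l47 (L l469 (T t7228 N)))))))))) (K a239 (M a111 (F (L l54 (T t7944 (L l180 (L l469 (T t4781 N))))))) N)))))))))) N)))))))))))))⟩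
def e0_63_106__175_42_24 : Ent 4 := ⟨[a0, a63, a106], [a175, a42, a38], (M a48 (L l26 (F (T t309 (T t551 (L l28 (T t579 (K a34 (M a46 (F (T t307 (L l56 (L l378 (T t4030 N)))))) (K a46 (M a34 (F (T t307 (L l29 (L l66 (T t6453 N)))))) N)))))))))⟩
def e0_63_106__175_42_25 : Ent 4 := ⟨[a0, a63, a106], [a175, a42, a39], (M a48 (F (T t309 (T t551 (L l28 (T t579 N))))))⟩
def e0_63_106__175_42_26 : Ent 4 := ⟨[a0, a63, a106], [a175, a42, a43], (M a48 (L l22 (F (T t309 (T t551 (L l28 (T t579 (K a40 (M a41 (F (T t3405 (T t551 (L l24 (L l28 (T t579 N))))))) (K a41 (M a40 (F (T t307 (L l29 (L l69 (T t6452 N)))))) N)))))))))⟩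
def e0_63_106__175_42_27 : Ent 4 := ⟨[a0, a63, a106], [a175, a42, a47], (M a111 (L l28 (F (L l54 (T t7944 (L l213 (T t7945 (L l469 (T t7946 (L l469 (T t7947 (K a32 (M a37 (F (L l213 (L l376 (T t7948 (L l469 (T t7946 (L l180 (L l213 (L l376 (L l404 (T t7949 (L l54 (L l404 (T t7950 (L l54 (L l376 (T t7951 N)))))))))))))))))) (K a37 (M a32 (F (T t7952 (L l383 (T t7953 (L l469 (T t7946 N))))))) N)))))))))))))⟩
def e0_63_106__175_42_28 : Ent 4 := ⟨[a0, a63, a106], [a175, a42, a48], (M a12 (F (T t2419 (L l508 (T t2305 (L l56 (T t2415 N)))))))⟩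
def e0_63_106__175_42_29 : Ent 4 := ⟨[a0, a63, a106], [a175, a42, a49], (M a48 (F (L l35 (T t309 (T t551 (L l28 (L l35 (T t579 N))))))))⟩
def e0_63_106__175_42_30 : Ent 4 := ⟨[a0, a63, a106], [a175, a42, a50], (M a48 (F (T t309 (T t551 (L l28 (T t579 N))))))⟩
def e0_63_106__175_42_31 : Ent 4 := ⟨[a0, a63, a106], [a175, a42, a51], (M a48 (F (T t5173 (L l28 (T t579 (L l417 (T t551 N)))))))⟩
def e0_63_106__175_42_32 : Ent 4 := ⟨[a0, a63, a106], [a175, a42, a53], (M a240 (F (T t4786 (L l491 (T t4780 (L l180 (L l419 (L l469 (T t4781 N)))))))))⟩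
def e0_63_106__175_42_33 : Ent 4 := ⟨[a0, a63, a106], [a175, a42, a54], (M a48 (F (L l31 (T t309 (T t551 (L l28 (L l31 (T t579 N))))))))⟩
def e0_63_106__175_42_34 : Ent 4 := ⟨[a0, a63, a106], [a175, a42, a55], (M a48 (F (L l31 (T t309 (L l495 (T t551 (L l28 (L l31 (T t579 N)))))))))⟩
def e0_63_106__175_42_35 : Ent 4 := ⟨[a0, a63, a106], [a175, a42, a58], (M a240 (L l54 (F (T t4779 (T t4780 (L l180 (L l469 (T t4781 (K a10 (M a26 (F (L l426 (T t4786 (T t4780 (L l180 (L l318 (L l469 (T t4781 N))))))))) (K a26 (M a10 (F (T t4779 (L l180 (L l426 (L l469 (T t7878 (L l75 (T t4780 (T t7269 N)))))))))) N))))))))))⟩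
def e0_63_106__175_42_36 : Ent 4 := ⟨[a0, a63, a106], [a175, a42, a59], (M a48 (L l56 (F (T t309 (T t551 (L l28 (T t579 (K a8 (M a25 (F (T t3405 (T t551 (L l28 (T t579 N)))))) (K a25 (M a8 (F (T t307 (L l19 (L l28 (T t4700 N)))))) N)))))))))⟩
def e0_63_106__175_42_37 : Ent 4 := ⟨[a0, a63, a106], [a175, a42, a64], (M a48 (F (T t309 (L l28 (L l469 (T t6454 (L l28 (L l180 (L l397 (T t6455 (L l28 (L l180 (T t6456 (L l28 (L l84 (L l469 (T t6457 (L l54 (L l397 (T t6458 (K a207 (Fr a192 a149 l519 (Fr a96 a144 l484 (Fr a101 a111 l104 (Fr a32 a16 l40 (Fr a224 a160 l376 (Fr a165 a47 l411 (Fr a239 a170 l404 (V t7968)))))))) N)))))))))))))))))))))⟩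
def e0_63_106__175_42_38 : Ent 4 := ⟨[a0, a63, a106], [a175, a42, a65], (M a48 (F (T t309 (L l76 (T t551 (L l28 (L l76 (T t579 N))))))))⟩
def e0_63_106__175_42_39 : Ent 4 := ⟨[a0, a63, a106], [a175, a42, a66], (M a48 (F (T t307 (L l28 (L l76 (T t579 (L l76 (T t551 N))))))))⟩
def e0_63_106__175_42_40 : Ent 4 := ⟨[a0, a63, a106], [a175, a42, a67], (M a48 (F (T t309 (L l76 (T t551 (L l28 (L l76 (T t579 N))))))))⟩
def e0_63_106__175_42_41 : Ent 4 := ⟨[a0, a63, a106], [a175, a42, a69], (M a48 (F (T t309 (L l84 (T t551 (L l28 (L l84 (T t579 N))))))))⟩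
def e0_63_106__175_42_42 : Ent 4 := ⟨[a0, a63, a106], [a175, a42, a70], (M a48 (F (T t309 (T t551 (L l28 (T t579 N))))))⟩
def e0_63_106__175_42_43 : Ent 4 := ⟨[a0, a63, a106], [a175, a42, a71], (M a48 (F (T t309 (T t551 (L l28 (T t579 N))))))⟩
def e0_63_106__175_42_44 : Ent 4 := ⟨[a0, a63, a106], [a175, a42, a74], (M a48 (F (L l397 (T t578 (L l84 (T t551 (L l28 (L l84 (L l318 (T t579 N))))))))))⟩
def e0_63_106__175_42_45 : Ent 4 := ⟨[a0, a63, a106], [a175, a42, a75], (M a48 (F (T t309 (T t551 (L l28 (T t579 N))))))⟩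
def e0_63_106__175_42_46 : Ent 4 := ⟨[a0, a63, a106], [a175, a42, a79], (M a48 (F (T t309 (L l84 (T t551 (L l28 (L l84 (T t579 N))))))))⟩
def e0_63_106__175_42_47 : Ent 4 := ⟨[a0, a63, a106], [a175, a42, a80], (M a12 (F (T t2304 (L l116 (T t2305 (L l56 (L l116 (T t2415 N))))))))⟩
def e0_63_106__175_42_48 : Ent 4 := ⟨[a0, a63, a106], [a175, a42, a81], (M a48 (F (T t309 (L l120 (T t551 (L l28 (L l120 (T t579 N))))))))⟩
def e0_63_106__175_42_49 : Ent 4 := ⟨[a0, a63, a106], [a175, a42, a82], (M a48 (F (T t309 (L l453 (T t551 (L l28 (T t579 N)))))))⟩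
def e0_63_106__175_42_50 : Ent 4 := ⟨[a0, a63, a106], [a175, a42, a83], (M a48 (F (T t309 (T t551 (L l28 (T t579 N))))))⟩
def e0_63_106__175_42_51 : Ent 4 := ⟨[a0, a63, a106], [a175, a42, a85], (M a48 (F (T t309 (L l347 (T t551 (L l54 (T t777 (L l368 (L l397 (T t6824 (K a192 (M a240 (F (T t6230 (L l213 (L l236 (T t6471 (L l54 (L l236 (L l339 (T t6472 (L l339 (T t6473 N)))))))))))) N)))))))))))⟩
def e0_63_106__175_42_52 : Ent 4 := ⟨[a0, a63, a106], [a175, a42, a86], (M a48 (F (T t309 (L l351 (T t551 (L l28 (T t579 N)))))))⟩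
def e0_63_106__175_42_53 : Ent 4 := ⟨[a0, a63, a106], [a175, a42, a87], (M a48 (F (T t309 (T t551 (L l28 (L l367 (T t579 N)))))))⟩
def e0_63_106__175_42_54 : Ent 4 := ⟨[a0, a63, a106], [a175, a42, a90], (M a48 (F (T t309 (L l375 (L l483 (T t551 (L l28 (T t579 N))))))))⟩
def e0_63_106__175_42_55 : Ent 4 := ⟨[a0, a63, a106], [a175, a42, a91], (M a48 (F (T t309 (T t551 (L l28 (T t579 N))))))⟩
def e0_63_106__175_42_56 : Ent 4 := ⟨[a0, a63, a106], [a175, a42, a95], (M a15 (F (T t7158 (L l54 (L l361 (T t2532 (L l213 (T t6819 N))))))))⟩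
def e0_63_106__175_42_57 : Ent 4 := ⟨[a0, a63, a106], [a175, a42, a96], (M a12 (F (T t2419 (L l116 (T t2305 (L l56 (L l116 (T t2415 N))))))))⟩
def e0_63_106__175_42_58 : Ent 4 := ⟨[a0, a63, a106], [a175, a42, a97], (M a48 (F (T t309 (L l96 (T t551 (L l28 (L l380 (T t579 N))))))))⟩
def e0_63_106__175_42_59 : Ent 4 := ⟨[a0, a63, a106], [a175, a42, a98], (M a48 (F (T t307 (L l28 (L l120 (T t579 (L l96 (L l120 (T t551 N)))))))))⟩
def e0_63_106__175_42_60 : Ent 4 := ⟨[a0, a63, a106], [a175, a42, a99], (M a48 (F (T t309 (L l96 (T t551 (L l28 (T t579 N)))))))⟩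
def e0_63_106__175_42_61 : Ent 4 := ⟨[a0, a63, a106], [a175, a42, a101], (M a240 (F (T t4779 (L l491 (L l512 (T t4780 (L l180 (L l469 (T t4781 N)))))))))⟩
def e0_63_106__175_42_62 : Ent 4 := ⟨[a0, a63, a106], [a175, a42, a102], (M a48 (F (T t309 (L l495 (T t551 (L l28 (T t579 N)))))))⟩
def e0_63_106__175_42_63 : Ent 4 := ⟨[a0, a63, a106], [a175, a42, a103], (M a48 (F (T t309 (T t551 (L l28 (T t579 N))))))⟩
def e0_63_106__175_42_64 : Ent 4 := ⟨[a0, a63, a106], [a175, a42, a107], (M a48 (F (T t309 (T t551 (L l28 (T t579 N))))))⟩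
def e0_63_106__175_42_65 : Ent 4 := ⟨[a0, a63, a106], [a175, a42, a111], (M a240 (L l397 (F (T t4786 (T t4780 (L l137 (L l180 (L l469 (T t4781 (K a47 (M a239 (L l28 (F (T t4780 (L l137 (L l180 (L l469 (T t4781 (L l137 (T t7266 (L l180 (L l469 (T t7267 (K a32 (M a37 (F (L l180 (L l376 (T t6588 (L l469 (T t7268 (L l137 (L l180 (L l376 (L l469 (T t4781 (L l137 (T t7269 (L l137 (T t7266 N)))))))))))))))) (K a37 (M a32 (F (T t6607 (L l137 (L l180 (L l469 (T t4781 (L l47 (L l469 (T t7228 N)))))))))) N))))))))))))))) (K a239 (M a47 (F (T t7156 (T t4780 N)))) N)))))))))))⟩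
def e0_63_106__175_42_66 : Ent 4 := ⟨[a0, a63, a106], [a175, a42, a112], (M a48 (F (T t309 (L l28 (L l116 (T t6462 (L l28 (L l116 (T t579 N)))))))))⟩
def e0_63_106__175_42_67 : Ent 4 := ⟨[a0, a63, a106], [a175, a42, a113], (M a48 (F (T t309 (T t551 (L l28 (T t579 N))))))⟩
def e0_63_106__175_42_68 : Ent 4 := ⟨[a0, a63, a106], [a175, a42, a114], (M a48 (F (T t309 (L l417 (T t551 (L l28 (T t579 N)))))))⟩
def e0_63_106__175_42_69 : Ent 4 := ⟨[a0, a63, a106], [a175, a42, a115], (M a48 (F (T t309 (L l120 (T t551 (L l28 (L l120 (T t579 N))))))))⟩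
def e0_63_106__175_42_70 : Ent 4 := ⟨[a0, a63, a106], [a175, a42, a117], (M a48 (F (L l419 (T t309 (T t551 (L l28 (L l419 (T t579 N))))))))⟩
def e0_63_106__175_42_71 : Ent 4 := ⟨[a0, a63, a106], [a175, a42, a118], (M a48 (F (T t309 (T t551 (L l28 (T t579 N))))))⟩
def e0_63_106__175_42_72 : Ent 4 := ⟨[a0, a63, a106], [a175, a42, a119], (M a48 (F (T t309 (T t551 (L l28 (T t579 N))))))⟩
def e0_63_106__175_42_73 : Ent 4 := ⟨[a0, a63, a106], [a175, a42, a122], (M a48 (F (T t309 (T t551 (L l28 (T t579 N))))))⟩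
def e0_63_106__175_42_74 : Ent 4 := ⟨[a0, a63, a106], [a175, a42, a123], (M a48 (F (T t309 (T t551 (L l28 (T t579 N))))))⟩
def e0_63_106__175_42_75 : Ent 4 := ⟨[a0, a63, a106], [a175, a42, a127], (M a48 (F (T t309 (T t551 (L l28 (L l469 (T t6454 (L l28 (L l180 (T t6479 N))))))))))⟩
def e0_63_106__175_42_76 : Ent 4 := ⟨[a0, a63, a106], [a175, a42, a128], (M a48 (F (T t3405 (L l28 (T t579 (L l28 (L l192 (L l220 (L l397 (T t7449 (L l54 (L l160 (L l397 (L l469 (T t6481 N)))))))))))))))⟩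
def e0_63_106__175_42_77 : Ent 4 := ⟨[a0, a63, a106], [a175, a42, a129], (M a48 (F (L l309 (T t309 (L l217 (T t551 (L l28 (T t579 N))))))))⟩
def e0_63_106__175_42_78 : Ent 4 := ⟨[a0, a63, a106], [a175, a42, a130], (M a48 (F (T t309 (T t551 (L l28 (T t579 N))))))⟩
def e0_63_106__175_42_79 : Ent 4 := ⟨[a0, a63, a106], [a175, a42, a131], (M a48 (F (T t309 (L l197 (T t551 (L l28 (T t579 N)))))))⟩
def e0_63_106__175_42_80 : Ent 4 := ⟨[a0, a63, a106], [a175, a42, a133], (M a48 (F (L l339 (T t309 (L l199 (T t551 (L l28 (T t579 N))))))))⟩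
def e0_63_106__175_42_81 : Ent 4 := ⟨[a0, a63, a106], [a175, a42, a134], (M a48 (F (T t309 (T t551 (L l28 (T t579 N))))))⟩
def e0_63_106__175_42_82 : Ent 4 := ⟨[a0, a63, a106], [a175, a42, a135], (M a48 (F (T t309 (T t551 (L l28 (T t579 N))))))⟩
def e0_63_106__175_42_83 : Ent 4 := ⟨[a0, a63, a106], [a175, a42, a138], (M a48 (F (L l318 (T t309 (T t551 (L l28 (L l318 (T t579 N))))))))⟩
def e0_63_106__175_42_84 : Ent 4 := ⟨[a0, a63, a106], [a175, a42, a139], (M a48 (F (T t309 (T t551 (L l28 (T t579 N))))))⟩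
def e0_63_106__175_42_85 : Ent 4 := ⟨[a0, a63, a106], [a175, a42, a143], (M a48 (L l213 (F (T t309 (L l28 (T t6462 (L l28 (T t579 (K a159 (M a191 (F (T t7348 (L l227 (T t7349 (L l170 (L l325 (T t307 N)))))))) (K a191 (M a159 (F (T t7483 (L l28 (L l220 (T t6462 N)))))) N))))))))))⟩
def e0_63_106__175_42_86 : Ent 4 := ⟨[a0, a63, a106], [a175, a42, a144], (M a12 (F (T t2414 (L l56 (T t2415 (L l170 (T t2305 N)))))))⟩
def e0_63_106__175_42_87 : Ent 4 := ⟨[a0, a63, a106], [a175, a42, a145], (M a48 (F (L l397 (T t304 (L l167 (T t551 (L l28 (T t579 N))))))))⟩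
def e0_63_106__175_42_88 : Ent 4 := ⟨[a0, a63, a106], [a175, a42, a146], (M a48 (F (T t3405 (L l197 (T t551 (L l28 (T t579 N)))))))⟩
def e0_63_106__175_42_89 : Ent 4 := ⟨[a0, a63, a106], [a175, a42, a147], (M a48 (F (T t3405 (T t551 (L l28 (T t579 N))))))⟩
def e0_63_106__175_42_90 : Ent 4 := ⟨[a0, a63, a106], [a175, a42, a149], (M a204 (F (L l167 (T t6655 (L l167 (L l347 (T t6636 (L l56 (L l167 (L l495 (T t6635 (L l56 (L l167 (L l220 (L l495 (T t6637 (K a145 (M a153 (F (T t6638 (L l56 (L l196 (L l220 (L l341 (L l495 (T t6639 (L l196 (L l220 (L l469 (T t6640 N))))))))))))) (K a153 (M a102 (L l167 (F (T t6641 (L l208 (T t6642 (K a145 (Fr a157 a110 l507 (V t6642)) (K a157 (M a145 (F (L l208 (T t6642 (L l226 (T t6817 (L l365 (T t6643 N)))))))) N)))))))) (K a157 (M a153 (F (T t6645 (T t6646 (L l56 (L l220 (L l495 (T t6639 (L l220 (L l469 (T t6640 N))))))))))) (K a98 (M a48 (F (T t2046 (L l28 (L l120 (L l491 (T t579 (L l491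 (L l495 (T t6651 N)))))))))) (K a102 (M a12 (L l495 (F (T t752 (L l167 (L l371 (L l402 (L l469 (T t765 (L l56 (L l371 (T t2415 (K a196 (M a55 (F (L l56 (L l347 (T t6649 (L l150 (L l213 (L l220 (L l469 (T t3459 N)))))))))) (K a55 (M a196 (F (T t6650 (L l150 (L l213 (L l220 (L l469 (T t3459 N)))))))) N)))))))))))))) (K a110 (M a48 (F (T t2046 (L l28 (L l491 (T t579 (L l491 (L l495 (T t6651 N))))))))) N))))))))))))))))))))))⟩
def e0_63_106__175_42_91 : Ent 4 := ⟨[a0, a63, a106], [a175, a42, a150], (M a48 (F (T t309 (L l163 (T t551 (L l28 (T t579 N)))))))⟩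
def e0_63_106__175_42_92 : Ent 4 := ⟨[a0, a63, a106], [a175, a42, a151], (M a48 (F (T t309 (L l163 (T t551 (L l28 (T t579 N)))))))⟩
def e0_63_106__175_42_93 : Ent 4 := ⟨[a0, a63, a106], [a175, a42, a154], (M a240 (F (T t4779 (L l170 (L l180 (L l368 (L l512 (T t817 (L l180 (L l469 (T t4781 (L l28 (L l170 (L l512 (T t7852 N)))))))))))))))⟩
def e0_63_106__175_42_94 : Ent 4 := ⟨[a0, a63, a106], [a175, a42, a155], (M a48 (F (T t309 (T t551 (L l28 (L l367 (T t579 N)))))))⟩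
def e0_63_106__175_42_95 : Ent 4 := ⟨[a0, a63, a106], [a175, a42, a159], (M a240 (L l213 (F (T t4779 (L l170 (T t4780 (L l180 (L l361 (L l469 (T t4781 (K a143 (M a191 (F (T t7348 (L l227 (T t7477 (L l160 (T t7478 N))))))) (K a191 (M a143 (F (T t7478 (L l170 (L l180 (L l220 (T t817 (L l180 (L l190 (L l469 (T t7267 (L l170 (L l190 (L l220 (T t4780 (L l28 (L l190 (L l397 (L l469 (T t7925 N)))))))))))))))))))) N))))))))))))⟩
def e0_63_106__175_42_96 : Ent 4 := ⟨[a0, a63, a106], [a175, a42, a160], (M a12 (L l180 (F (T t2304 (T t2305 (L l56 (T t2415 (K a165 (M a170 (F (L l455 (T t7343 (L l56 (L l175 (L l469 (T t3685 (L l199 (T t2418 N)))))))))) (K a170 (M a165 (F (T t2414 (L l376 (T t7484 (L l376 (T t7955 N))))))) N)))))))))⟩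
def e0_63_106__175_42_97 : Ent 4 := ⟨[a0, a63, a106], [a175, a42, a161], (M a48 (F (T t309 (L l197 (L l453 (T t551 (L l28 (T t579 N))))))))⟩
def e0_63_106__175_42_98 : Ent 4 := ⟨[a0, a63, a106], [a175, a42, a162], (M a48 (F (T t309 (T t551 (L l28 (L l380 (T t579 N)))))))⟩
def e0_63_106__175_42_99 : Ent 4 := ⟨[a0, a63, a106], [a175, a42, a163], (M a48 (L l179 (F (T t309 (T t551 (L l28 (T t579 (K a167 (M a171 (F (T t3405 (T t551 (L l28 (T t579 N)))))) (K a171 (M a167 (F (T t3405 (T t551 (L l28 (T t579 N)))))) N)))))))))⟩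
def e0_63_106__175_42_100 : Ent 4 := ⟨[a0, a63, a106], [a175, a42, a165], (M a48 (L l180 (F (T t309 (L l28 (L l199 (L l483 (T t6462 (L l28 (T t579 (K a160 (M a170 (F (L l455 (T t7343 (L l227 (L l397 (L l469 (T t3204 (L l383 (L l397 (T t585 N))))))))))) (K a170 (M a160 (F (T t7956 (T t309 (L l199 (L l227 (L l469 (T t7957 N)))))))) N))))))))))))⟩
def e0_63_106__175_42_101 : Ent 4 := ⟨[a0, a63, a106], [a175, a42, a166], (M a48 (F (T t309 (L l202 (T t551 (L l28 (T t579 N)))))))⟩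
def e0_63_106__175_42_102 : Ent 4 := ⟨[a0, a63, a106], [a175, a42, a167], (M a48 (L l179 (F (T t309 (T t551 (L l28 (T t579 (K a163 (M a171 (F (T t3405 (T t551 (L l28 (T t579 N)))))) (K a171 (M a163 (F (T t3405 (T t551 (L l28 (T t579 N)))))) N)))))))))⟩
def e0_63_106__175_42_103 : Ent 4 := ⟨[a0, a63, a106], [a175, a42, a170], (M a48 (L l180 (F (T t309 (L l220 (T t551 (L l28 (L l206 (L l213 (L l220 (L l404 (T t552 (L l28 (L l206 (L l404 (T t553 (K a160 (M a165 (F (L l376 (T t7484 (L l192 (T t309 (L l213 (L l376 (T t7958 N))))))))) (K a165 (M a160 (F (T t7956 (T t309 (L l199 (L l227 (L l469 (T t7957 N)))))))) N))))))))))))))))))⟩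
def e0_63_106__175_42_104 : Ent 4 := ⟨[a0, a63, a106], [a175, a42, a171], (M a48 (L l179 (F (T t309 (T t551 (L l28 (T t579 (K a163 (M a167 (F (T t3405 (T t551 (L l28 (T t579 N)))))) (K a167 (M a163 (F (T t3405 (T t551 (L l28 (T t579 N)))))) N)))))))))⟩
def e0_63_106__175_42_105 : Ent 4 := ⟨[a0, a63, a106], [a175, a42, a176], (M a12 (F (T t2304 (L l222 (T t2305 (L l56 (T t2415 N)))))))⟩
def e0_63_106__175_42_106 : Ent 4 := ⟨[a0, a63, a106], [a175, a42, a177], (M a48 (F (T t309 (L l182 (L l417 (T t551 (L l28 (T t579 N))))))))⟩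
def e0_63_106__175_42_107 : Ent 4 := ⟨[a0, a63, a106], [a175, a42, a178], (M a48 (F (T t309 (L l182 (T t551 (L l28 (T t579 N)))))))⟩
def e0_63_106__175_42_108 : Ent 4 := ⟨[a0, a63, a106], [a175, a42, a179], (M a48 (F (T t309 (L l182 (T t551 (L l28 (T t579 N)))))))⟩
def e0_63_106__175_42_109 : Ent 4 := ⟨[a0, a63, a106], [a175, a42, a181], (M a48 (F (L l419 (T t309 (L l190 (L l199 (T t551 (L l28 (L l419 (T t579 N))))))))))⟩
def e0_63_106__175_42_110 : Ent 4 := ⟨[a0, a63, a106], [a175, a42, a182], (M a48 (F (T t309 (T t551 (L l28 (T t579 N))))))⟩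
def e0_63_106__175_42_111 : Ent 4 := ⟨[a0, a63, a106], [a175, a42, a183], (M a48 (F (T t309 (L l202 (T t551 (L l28 (T t579 N)))))))⟩
def e0_63_106__175_42_112 : Ent 4 := ⟨[a0, a63, a106], [a175, a42, a186], (M a48 (F (T t309 (L l190 (T t551 (L l28 (T t579 N)))))))⟩
def e0_63_106__175_42_113 : Ent 4 := ⟨[a0, a63, a106], [a175, a42, a187], (M a48 (F (T t309 (T t551 (L l28 (T t579 N))))))⟩
def e0_63_106__175_42_114 : Ent 4 := ⟨[a0, a63, a106], [a175, a42, a191], (M a48 (L l213 (F (T t309 (L l190 (L l220 (T t551 (L l28 (L l469 (T t6498 (L l28 (T t6499 (K a143 (M a159 (F (T t7483 (L l28 (L l220 (T t6462 N)))))) (K a159 (M a143 (F (L l170 (L l220 (T t307 (L l190 (L l361 (T t7346 (L l170 (L l190 (L l220 (T t551 (K a154 (Fr a192 a149 l519 (Fr a144 a96 l484 (V t7969))) N))))))))))))) N))))))))))))))⟩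
def e0_63_106__175_42_115 : Ent 4 := ⟨[a0, a63, a106], [a175, a42, a192], (M a204 (F (L l489 (T t6655 (L l175 (L l180 (L l272 (L l489 (T t6656 (L l296 (L l469 (L l489 (T t6657 (L l56 (L l489 (T t6658 (L l213 (L l489 (T t6659 (K a145 (M a102 (L l489 (F (T t6641 (L l180 (T t6660 (K a98 (Fr a51 a153 l513 (V t6661)) (K a51 (Fr a98 a110 l102 (V t6662)) N)))))))) (K a85 (M a48 (F (L l292 (T t2046 (L l123 (L l236 (L l489 (T t6732 N)))))))) (K a157 (M a48 (F (T t5482 (L l28 (L l236 (T t579 (L l236 (T t6651 N)))))))) (K a98 (M a153 (L l489 (F (T t6645 (L l296 (L l469 (T t6668 (L l26 (L l120 (L l378 (T t6669 (K a145 (Fr a51 a102 l513 (V t6670)) (K a51 (M a145 (F (T t6671 (L l56 (L l272 (L l334 (L l378 (T t6672 N)))))))) N))))))))))))) (K a102 (M a252 (F (L l484 (T t6673 (L l148 (L l339 (L l469 (T t6674 (L l309 (T t6675 N)))))))))) (K a110 (M a48 (F (T t6676 (L l28 (L l236 (T t579 (L l236 (T t6651 N)))))))) (K a51 (M a48 (L l489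 (F (T t5482 (L l236 (T t6677 (K a145 (M a98 (F (T t6678 (L l292 (L l441 (T t1315 N)))))) (K a98 (M a145 (F (T t5482 (L l28 (L l120 (L l236 (T t579 (L l511 (T t6679 N))))))))) N)))))))) N))))))))))))))))))))))))))⟩
def e0_63_106__175_42_116 : Ent 4 := ⟨[a0, a63, a106], [a175, a42, a193], (M a48 (F (L l228 (T t309 (L l515 (T t551 (L l28 (T t579 N))))))))⟩
def e0_63_106__175_42_117 : Ent 4 := ⟨[a0, a63, a106], [a175, a42, a194], (M a48 (F (L l397 (T t578 (T t551 (L l28 (L l234 (T t579 N))))))))⟩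
def e0_63_106__175_42_118 : Ent 4 := ⟨[a0, a63, a106], [a175, a42, a195], (M a48 (F (T t5173 (L l28 (T t579 (L l273 (T t551 N)))))))⟩
def e0_63_106__175_42_119 : Ent 4 := ⟨[a0, a63, a106], [a175, a42, a197], (M a240 (F (L l236 (T t4779 (L l491 (T t4780 (L l180 (L l469 (T t4781 N)))))))))⟩
def e0_63_106__175_42_120 : Ent 4 := ⟨[a0, a63, a106], [a175, a42, a198], (M a48 (F (L l234 (T t309 (T t551 (L l28 (L l234 (T t579 N))))))))⟩
def e0_63_106__175_42_121 : Ent 4 := ⟨[a0, a63, a106], [a175, a42, a199], (M a48 (F (T t309 (T t551 (L l28 (T t579 N))))))⟩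
def e0_63_106__175_42_122 : Ent 4 := ⟨[a0, a63, a106], [a175, a42, a202], (M a240 (F (T t4780 (L l236 (L l318 (T t4779 (L l180 (L l318 (L l469 (T t4781 N))))))))))⟩
def e0_63_106__175_42_123 : Ent 4 := ⟨[a0, a63, a106], [a175, a42, a203], (M a48 (F (L l230 (T t309 (T t551 (L l28 (L l230 (T t579 N))))))))⟩
def e0_63_106__175_42_124 : Ent 4 := ⟨[a0, a63, a106], [a175, a42, a207], (M a240 (F (T t6525 (L l512 (T t4780 (L l180 (L l469 (T t4781 N))))))))⟩
def e0_63_106__175_42_125 : Ent 4 := ⟨[a0, a63, a106], [a175, a42, a208], (M a12 (F (T t2414 (L l56 (T t2415 (L l375 (T t2305 N)))))))⟩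
def e0_63_106__175_42_126 : Ent 4 := ⟨[a0, a63, a106], [a175, a42, a209], (M a48 (F (L l272 (T t309 (L l371 (T t551 (L l28 (T t579 N))))))))⟩
def e0_63_106__175_42_127 : Ent 4 := ⟨[a0, a63, a106], [a175, a42, a210], (M a48 (F (T t309 (L l273 (T t551 (L l28 (T t579 N)))))))⟩
def e0_63_106__175_42_128 : Ent 4 := ⟨[a0, a63, a106], [a175, a42, a211], (M a48 (F (T t309 (T t551 (L l28 (L l245 (T t579 N)))))))⟩
def e0_63_106__175_42_129 : Ent 4 := ⟨[a0, a63, a106], [a175, a42, a213], (M a48 (F (L l296 (T t309 (L l347 (T t551 (L l28 (L l246 (T t579 N)))))))))⟩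
def e0_63_106__175_42_130 : Ent 4 := ⟨[a0, a63, a106], [a175, a42, a214], (M a48 (F (T t309 (T t551 (L l28 (T t579 N))))))⟩
def e0_63_106__175_42_131 : Ent 4 := ⟨[a0, a63, a106], [a175, a42, a215], (M a48 (F (T t309 (T t551 (L l28 (L l245 (T t579 N)))))))⟩
def e0_63_106__175_42_132 : Ent 4 := ⟨[a0, a63, a106], [a175, a42, a218], (M a48 (F (L l282 (T t309 (L l28 (T t2289 (L l28 (L l246 (L l282 (T t579 N))))))))))⟩
def e0_63_106__175_42_133 : Ent 4 := ⟨[a0, a63, a106], [a175, a42, a219], (M a48 (F (T t309 (T t551 (L l28 (L l245 (T t579 N)))))))⟩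
def e0_63_106__175_42_134 : Ent 4 := ⟨[a0, a63, a106], [a175, a42, a223], (M a240 (F (T t4786 (T t4780 (L l180 (L l361 (L l469 (T t4781 N))))))))⟩
def e0_63_106__175_42_135 : Ent 4 := ⟨[a0, a63, a106], [a175, a42, a224], (M a48 (F (L l268 (T t309 (L l28 (L l376 (T t579 (L l268 (L l376 (T t551 N))))))))))⟩
def e0_63_106__175_42_136 : Ent 4 := ⟨[a0, a63, a106], [a175, a42, a225], (M a48 (F (T t309 (L l273 (T t551 (L l28 (T t579 N)))))))⟩
def e0_63_106__175_42_137 : Ent 4 := ⟨[a0, a63, a106], [a175, a42, a226], (M a48 (F (T t307 (L l28 (T t579 (T t551 N))))))⟩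
def e0_63_106__175_42_138 : Ent 4 := ⟨[a0, a63, a106], [a175, a42, a227], (M a48 (F (T t309 (T t551 (L l28 (L l380 (T t579 N)))))))⟩
def e0_63_106__175_42_139 : Ent 4 := ⟨[a0, a63, a106], [a175, a42, a229], (M a48 (F (T t309 (L l28 (T t2289 (L l28 (T t579 N)))))))⟩
def e0_63_106__175_42_140 : Ent 4 := ⟨[a0, a63, a106], [a175, a42, a230], (M a48 (F (T t309 (T t551 (L l28 (T t579 N))))))⟩
def e0_63_106__175_42_141 : Ent 4 := ⟨[a0, a63, a106], [a175, a42, a231], (M a48 (F (T t309 (T t551 (L l28 (T t579 N))))))⟩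
def e0_63_106__175_42_142 : Ent 4 := ⟨[a0, a63, a106], [a175, a42, a234], (M a48 (F (L l397 (T t578 (T t551 (L l28 (L l282 (T t579 N))))))))⟩
def e0_63_106__175_42_143 : Ent 4 := ⟨[a0, a63, a106], [a175, a42, a235], (M a48 (F (T t309 (T t551 (L l28 (T t579 N))))))⟩
def e0_63_106__175_42_144 : Ent 4 := ⟨[a0, a63, a106], [a175, a42, a239], (M a48 (L l397 (F (T t309 (T t551 (L l28 (L l289 (L l404 (T t579 (K a47 (M a111 (L l28 (F (T t6827 (T t551 (K a32 (M a37 (L l404 (F (T t7960 (L l213 (T t7961 (K a101 (M a170 (F (L l54 (T t290 (L l123 (T t6995 N)))))) (K a170 (Fr a101 a96 l104 (V t7962)) N)))))))) (K a37 (Fr a32 a16 l40 (V t7963)) N))))))) (K a111 (M a47 (F (T t7964 (L l289 (L l404 (T t579 N)))))) N)))))))))))⟩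
def e0_63_106__175_42_145 : Ent 4 := ⟨[a0, a63, a106], [a175, a42, a240], (M a12 (F (T t2419 (L l298 (T t2305 (L l56 (T t2415 N)))))))⟩
def e0_63_106__175_42_146 : Ent 4 := ⟨[a0, a63, a106], [a175, a42, a241], (M a48 (F (T t309 (L l258 (T t551 (L l28 (T t579 N)))))))⟩
def e0_63_106__175_42_147 : Ent 4 := ⟨[a0, a63, a106], [a175, a42, a242], (M a48 (F (T t309 (L l258 (T t551 (L l28 (T t579 N)))))))⟩
def e0_63_106__175_42_148 : Ent 4 := ⟨[a0, a63, a106], [a175, a42, a243], (M a48 (F (T t5173 (L l28 (T t579 (L l258 (T t551 N)))))))⟩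
def e0_63_106__175_42_149 : Ent 4 := ⟨[a0, a63, a106], [a175, a42, a245], (M a48 (F (L l419 (T t309 (L l266 (T t551 (L l28 (L l419 (T t579 N)))))))))⟩
def e0_63_106__175_42_150 : Ent 4 := ⟨[a0, a63, a106], [a175, a42, a246], (M a48 (F (T t309 (T t551 (L l28 (T t579 N))))))⟩
def e0_63_106__175_42_151 : Ent 4 := ⟨[a0, a63, a106], [a175, a42, a247], (M a48 (F (T t309 (T t551 (L l28 (T t579 N))))))⟩
def e0_63_106__175_42_152 : Ent 4 := ⟨[a0, a63, a106], [a175, a42, a250], (M a48 (F (L l282 (T t309 (L l266 (T t551 (L l28 (L l282 (T t579 N)))))))))⟩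
def e0_63_106__175_42_153 : Ent 4 := ⟨[a0, a63, a106], [a175, a42, a251], (M a48 (F (T t309 (T t551 (L l28 (T t579 N))))))⟩
def e0_63_106__175_42_154 : Ent 4 := ⟨[a0, a63, a106], [a175, a42, a255], (M a15 (F (T t7434 (L l213 (L l289 (T t6819 (L l54 (L l440 (T t7965 (L l266 (T t7966 N)))))))))))⟩
def b0_63_106__175_42 : Blk 4 := ⟨[0, 63, 106], [175, 42], [1, 2, 3, 5, 6, 7, 10, 11, 15, 16, 17, 18, 19, 21, 22, 23, 26, 27, 31, 32, 33, 34, 35, 37, 38, 39, 43, 47, 48, 49, 50, 51, 53, 54, 55, 58, 59, 64, 65, 66, 67, 69, 70, 71, 74, 75, 79, 80, 81, 82, 83, 85, 86, 87, 90, 91, 95, 96, 97, 98, 99, 101, 102, 103, 107, 111, 112, 113, 114, 115, 117, 118, 119, 122, 123, 127, 128, 129, 130, 131, 133, 134, 135, 138, 139, 143, 144, 145, 146, 147, 149, 150, 151, 154, 155, 159, 160, 161, 162, 163, 165, 166, 167, 170, 171, 176, 177, 178, 179, 181, 182, 183, 186, 187, 191, 192, 193, 194, 195, 197, 198, 199, 202, 203, 207, 208, 209, 210,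 211, 213, 214, 215, 218, 219, 223, 224, 225, 226, 227, 229, 230, 231, 234, 235, 239, 240, 241, 242, 243, 245, 246, 247, 250, 251, 255], [e0_63_106__175_42_0, e0_63_106__175_42_1, e0_63_106__175_42_2, e0_63_106__175_42_3, e0_63_106__175_42_4, e0_63_106__175_42_5, e0_63_106__175_42_6, e0_63_106__175_42_7, e0_63_106__175_42_8, e0_63_106__175_42_9, e0_63_106__175_42_10, e0_63_106__175_42_11, e0_63_106__175_42_12, e0_63_106__175_42_13, e0_63_106__175_42_14, e0_63_106__175_42_15, e0_63_106__175_42_16, e0_63_106__175_42_17, e0_63_106__175_42_18, e0_63_106__175_42_19, e0_63_106__175_42_20, e0_63_106__175_42_21, e0_63_106__175_42_22, e0_63_106__175_42_23, e0_63_106__175_42_24, e0_63_106__175_42_25, e0_63_106__175_42_26, e0_63_106__175_42_27, e0_63_106__175_42_28, e0_63_106__175_42_29, e0_63_106__175_42_30, e0_63_106__175_42_31, e0_63_106__175_42_32, e0_63_106__175_42_33, e0_63_106__175_42_34, e0_63_106__175_42_35, e0_63_106__175_42_36,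 e0_63_106__175_42_37, e0_63_106__175_42_38, e0_63_106__175_42_39, e0_63_106__175_42_40, e0_63_106__175_42_41, e0_63_106__175_42_42, e0_63_106__175_42_43, e0_63_106__175_42_44, e0_63_106__175_42_45, e0_63_106__175_42_46, e0_63_106__175_42_47, e0_63_106__175_42_48, e0_63_106__175_42_49, e0_63_106__175_42_50, e0_63_106__175_42_51, e0_63_106__175_42_52, e0_63_106__175_42_53, e0_63_106__175_42_54, e0_63_106__175_42_55, e0_63_106__175_42_56, e0_63_106__175_42_57, e0_63_106__175_42_58, e0_63_106__175_42_59, e0_63_106__175_42_60, e0_63_106__175_42_61, e0_63_106__175_42_62, e0_63_106__175_42_63, e0_63_106__175_42_64, e0_63_106__175_42_65, e0_63_106__175_42_66, e0_63_106__175_42_67, e0_63_106__175_42_68, e0_63_106__175_42_69, e0_63_106__175_42_70, e0_63_106__175_42_71, e0_63_106__175_42_72, e0_63_106__175_42_73, e0_63_106__175_42_74, e0_63_106__175_42_75, e0_63_106__175_42_76, e0_63_106__175_42_77, e0_63_106__175_42_78, e0_63_106__175_42_79,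 e0_63_106__175_42_80, e0_63_106__175_42_81, e0_63_106__175_42_82, e0_63_106__175_42_83, e0_63_106__175_42_84, e0_63_106__175_42_85, e0_63_106__175_42_86, e0_63_106__175_42_87, e0_63_106__175_42_88, e0_63_106__175_42_89, e0_63_106__175_42_90, e0_63_106__175_42_91, e0_63_106__175_42_92, e0_63_106__175_42_93, e0_63_106__175_42_94, e0_63_106__175_42_95, e0_63_106__175_42_96, e0_63_106__175_42_97, e0_63_106__175_42_98, e0_63_106__175_42_99, e0_63_106__175_42_100, e0_63_106__175_42_101, e0_63_106__175_42_102, e0_63_106__175_42_103, e0_63_106__175_42_104, e0_63_106__175_42_105, e0_63_106__175_42_106, e0_63_106__175_42_107, e0_63_106__175_42_108, e0_63_106__175_42_109, e0_63_106__175_42_110, e0_63_106__175_42_111, e0_63_106__175_42_112, e0_63_106__175_42_113, e0_63_106__175_42_114, e0_63_106__175_42_115, e0_63_106__175_42_116, e0_63_106__175_42_117, e0_63_106__175_42_118, e0_63_106__175_42_119, e0_63_106__175_42_120, e0_63_106__175_42_121,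 e0_63_106__175_42_122, e0_63_106__175_42_123, e0_63_106__175_42_124, e0_63_106__175_42_125, e0_63_106__175_42_126, e0_63_106__175_42_127, e0_63_106__175_42_128, e0_63_106__175_42_129, e0_63_106__175_42_130, e0_63_106__175_42_131, e0_63_106__175_42_132, e0_63_106__175_42_133, e0_63_106__175_42_134, e0_63_106__175_42_135, e0_63_106__175_42_136, e0_63_106__175_42_137, e0_63_106__175_42_138, e0_63_106__175_42_139, e0_63_106__175_42_140, e0_63_106__175_42_141, e0_63_106__175_42_142, e0_63_106__175_42_143, e0_63_106__175_42_144, e0_63_106__175_42_145, e0_63_106__175_42_146, e0_63_106__175_42_147, e0_63_106__175_42_148, e0_63_106__175_42_149, e0_63_106__175_42_150, e0_63_106__175_42_151, e0_63_106__175_42_152, e0_63_106__175_42_153, e0_63_106__175_42_154], by decide +kernel, by decide +kernel⟩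
def e0_63_106__193_42_0 : Ent 4 := ⟨[a0, a63, a106], [a193, a42, a1], (M a48 (L l305 (F (T t585 (L l515 (T t551 (L l28 (T t579 (K a65 (M a129 (F (T t304 (L l28 (L l76 (T t579 (L l76 (L l515 (T t551 N))))))))) (K a129 (M a65 (F (T t304 (L l152 (T t688 N))))) N))))))))))⟩
def e0_63_106__193_42_1 : Ent 4 := ⟨[a0, a63, a106], [a193, a42, a2], (M a48 (L l66 (F (T t304 (L l28 (T t579 (L l515 (T t551 (K a22 (M a62 (F (T t304 (L l22 (L l515 (T t3443 (L l28 (T t579 N)))))))) (K a62 (M a22 (F (T t304 (L l28 (T t579 (L l515 (T t551 N))))))) N))))))))))⟩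
def e0_63_106__193_42_2 : Ent 4 := ⟨[a0, a63, a106], [a193, a42, a3], (M a48 (F (T t585 (L l453 (L l515 (T t551 (L l28 (T t579 N))))))))⟩
def e0_63_106__193_42_3 : Ent 4 := ⟨[a0, a63, a106], [a193, a42, a4], (M a48 (F (T t585 (L l515 (T t551 (L l28 (T t579 N)))))))⟩
def e0_63_106__193_42_4 : Ent 4 := ⟨[a0, a63, a106], [a193, a42, a5], (M a48 (F (L l47 (T t304 (L l515 (T t551 (L l28 (L l47 (T t579 N)))))))))⟩
def e0_63_106__193_42_5 : Ent 4 := ⟨[a0, a63, a106], [a193, a42, a6], (M a48 (F (T t585 (L l515 (T t551 (L l28 (T t579 N)))))))⟩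
def e0_63_106__193_42_6 : Ent 4 := ⟨[a0, a63, a106], [a193, a42, a7], (M a48 (F (T t585 (L l515 (T t551 (L l28 (T t579 N)))))))⟩
def e0_63_106__193_42_7 : Ent 4 := ⟨[a0, a63, a106], [a193, a42, a8], (M a48 (L l56 (F (T t304 (L l28 (T t579 (L l515 (T t551 (K a25 (M a59 (F (T t304 (L l26 (L l316 (T t6445 N)))))) (K a59 (M a25 (F (T t304 (L l28 (T t579 (L l515 (T t551 N))))))) N))))))))))⟩
def e0_63_106__193_42_8 : Ent 4 := ⟨[a0, a63, a106], [a193, a42, a9], (M a48 (F (T t585 (L l515 (T t551 (L l28 (T t579 N)))))))⟩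
def e0_63_106__193_42_9 : Ent 4 := ⟨[a0, a63, a106], [a193, a42, a10], (M a48 (L l54 (F (L l318 (T t304 (L l515 (T t551 (L l28 (L l318 (T t579 (K a26 (Fr a58 a53 l38 (V t6446)) (K a58 (M a26 (F (L l28 (T t4144 (L l515 (T t551 (L l28 (L l426 (T t6447 (K a32 (Fr a192 a149 l519 (Fr a15 a37 l75 (Fr a47 a31 l61 (V t6528)))) N)))))))))) N))))))))))))⟩
def e0_63_106__193_42_10 : Ent 4 := ⟨[a0, a63, a106], [a193, a42, a11], (M a48 (F (T t585 (L l515 (T t551 (L l28 (T t579 N)))))))⟩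
def e0_63_106__193_42_11 : Ent 4 := ⟨[a0, a63, a106], [a193, a42, a12], (M a48 (F (T t585 (L l478 (L l515 (T t551 (L l28 (T t579 N))))))))⟩
def e0_63_106__193_42_12 : Ent 4 := ⟨[a0, a63, a106], [a193, a42, a13], (M a48 (L l335 (F (T t585 (L l515 (T t551 (L l28 (T t579 (K a133 (M a73 (F (T t304 (L l28 (T t579 (L l199 (L l515 (T t551 N)))))))) (K a73 (M a133 (F (T t585 (L l515 (T t551 (L l28 (T t579 N))))))) N))))))))))⟩
def e0_63_106__193_42_13 : Ent 4 := ⟨[a0, a63, a106], [a193, a42, a14], (M a48 (F (T t585 (L l515 (T t551 (L l28 (T t579 N)))))))⟩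
def e0_63_106__193_42_14 : Ent 4 := ⟨[a0, a63, a106], [a193, a42, a15], (M a48 (F (T t585 (L l483 (L l515 (T t551 (L l28 (T t579 N))))))))⟩
def e0_63_106__193_42_15 : Ent 4 := ⟨[a0, a63, a106], [a193, a42, a20], (M a48 (F (T t585 (L l515 (T t551 (L l28 (T t579 N)))))))⟩
def e0_63_106__193_42_16 : Ent 4 := ⟨[a0, a63, a106], [a193, a42, a21], (M a48 (F (L l47 (T t585 (L l347 (L l515 (T t551 (L l28 (L l47 (T t579 N))))))))))⟩
def e0_63_106__193_42_17 : Ent 4 := ⟨[a0, a63, a106], [a193, a42, a22], (M a48 (L l66 (F (T t585 (L l515 (T t551 (L l28 (T t579 (K a2 (M a62 (F (T t304 (L l22 (L l515 (T t3443 (L l28 (T t579 N)))))))) (K a62 (M a2 (F (T t304 (L l19 (L l28 (L l305 (T t342 N))))))) N))))))))))⟩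
def e0_63_106__193_42_18 : Ent 4 := ⟨[a0, a63, a106], [a193, a42, a23], (M a48 (F (T t585 (L l351 (L l515 (T t551 (L l28 (T t579 N))))))))⟩
def e0_63_106__193_42_19 : Ent 4 := ⟨[a0, a63, a106], [a193, a42, a24], (M a48 (F (T t585 (L l515 (T t551 (L l28 (T t579 N)))))))⟩
def e0_63_106__193_42_20 : Ent 4 := ⟨[a0, a63, a106], [a193, a42, a25], (M a48 (L l56 (F (T t585 (L l515 (T t551 (L l28 (T t579 (K a8 (M a59 (F (T t304 (L l26 (L l316 (T t6445 N)))))) (K a59 (M a8 (F (T t304 (L l19 (L l28 (T t4700 N)))))) N))))))))))⟩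
def e0_63_106__193_42_21 : Ent 4 := ⟨[a0, a63, a106], [a193, a42, a26], (M a48 (L l54 (F (T t304 (L l28 (T t579 (L l515 (T t551 (K a10 (Fr a58 a53 l38 (V t6446)) (K a58 (M a10 (F (L l28 (L l515 (T t2289 (L l335 (L l515 (T t4033 (L l18 (L l354 (T t6449 (L l18 (L l426 (T t6450 N)))))))))))))) N))))))))))⟩
def e0_63_106__193_42_22 : Ent 4 := ⟨[a0, a63, a106], [a193, a42, a27], (M a48 (F (T t585 (L l515 (T t551 (L l28 (T t579 N)))))))⟩
def e0_63_106__193_42_23 : Ent 4 := ⟨[a0, a63, a106], [a193, a42, a28], (M a48 (F (T t304 (L l28 (L l362 (T t579 (L l515 (T t551 N))))))))⟩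
def e0_63_106__193_42_24 : Ent 4 := ⟨[a0, a63, a106], [a193, a42, a29], (M a48 (F (T t585 (L l371 (L l515 (T t551 (L l28 (T t579 N))))))))⟩
def e0_63_106__193_42_25 : Ent 4 := ⟨[a0, a63, a106], [a193, a42, a30], (M a48 (F (T t585 (L l515 (T t551 (L l28 (T t579 N)))))))⟩
def e0_63_106__193_42_26 : Ent 4 := ⟨[a0, a63, a106], [a193, a42, a31], (M a48 (F (T t585 (L l375 (L l515 (T t551 (L l28 (L l361 (T t579 N)))))))))⟩
def e0_63_106__193_42_27 : Ent 4 := ⟨[a0, a63, a106], [a193, a42, a40], (M a48 (L l22 (F (T t585 (L l515 (T t551 (L l24 (L l28 (T t579 (K a41 (M a43 (F (T t304 (L l66 (L l293 (L l388 (T t6451 N))))))) (K a43 (M a41 (F (T t304 (L l24 (L l28 (T t579 (L l515 (T t551 N)))))))) N)))))))))))⟩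
def e0_63_106__193_42_28 : Ent 4 := ⟨[a0, a63, a106], [a193, a42, a41], (M a48 (L l22 (F (T t585 (L l515 (T t551 (L l28 (T t579 (K a40 (M a43 (F (T t304 (L l66 (L l293 (L l388 (T t6451 N))))))) (K a43 (M a40 (F (T t585 (L l29 (L l69 (T t6452 N)))))) N))))))))))⟩
def e0_63_106__193_42_29 : Ent 4 := ⟨[a0, a63, a106], [a193, a42, a43], (M a48 (L l22 (F (T t585 (L l515 (T t551 (L l28 (T t579 (K a40 (M a41 (F (T t304 (L l24 (L l28 (T t579 (L l515 (T t551 N)))))))) (K a41 (M a40 (F (T t585 (L l29 (L l69 (T t6452 N)))))) N))))))))))⟩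
def e0_63_106__193_42_30 : Ent 4 := ⟨[a0, a63, a106], [a193, a42, a44], (M a48 (F (T t304 (L l24 (L l28 (T t579 (L l515 (T t551 N))))))))⟩
def e0_63_106__193_42_31 : Ent 4 := ⟨[a0, a63, a106], [a193, a42, a45], (M a48 (F (T t585 (L l515 (T t551 (L l28 (T t579 N)))))))⟩
def e0_63_106__193_42_32 : Ent 4 := ⟨[a0, a63, a106], [a193, a42, a46], (M a48 (L l26 (F (T t585 (L l515 (T t551 (L l28 (T t579 (K a34 (M a38 (F (T t304 (L l20 (L l28 (T t579 (L l515 (T t551 N)))))))) (K a38 (M a34 (F (T t585 (L l29 (L l66 (T t6453 N)))))) N))))))))))⟩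
def e0_63_106__193_42_33 : Ent 4 := ⟨[a0, a63, a106], [a193, a42, a47], (M a12 (L l28 (F (T t2419 (L l515 (T t2305 (L l56 (T t2415 (K a32 (M a37 (F (T t2414 (L l56 (T t2415 (L l515 (T t2305 N))))))) (K a37 (M a32 (F (T t2419 (L l51 (L l56 (T t682 N)))))) N))))))))))⟩
def e0_63_106__193_42_34 : Ent 4 := ⟨[a0, a63, a106], [a193, a42, a60], (M a48 (F (T t585 (L l442 (L l515 (T t551 (L l28 (T t579 N))))))))⟩
def e0_63_106__193_42_35 : Ent 4 := ⟨[a0, a63, a106], [a193, a42, a61], (M a85 (L l515 (F (T t5958 (T t3095 (K a64 (M a48 (L l515 (F (T t365 (L l54 (L l116 (L l228 (L l233 (T t777 (T t50 (K a149 (M a105 (F (L l163 (T t673 (L l35 (L l491 (T t6467 N))))))) (K a105 (Fr a149 a192 l519 (V t7013)) N)))))))))))) (K a127 (M a101 (L l515 (F (T t2260 (L l35 (L l65 (L l228 (T t7719 (L l228 (T t7720 (K a149 (M a105 (F (L l163 (T t673 (L l138 (L l485 (L l495 (T t7970 N)))))))) (K a105 (Fr a149 a192 l519 (V t7971)) N))))))))))))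 (K a149 (M a105 (F (T t3095 (L l431 (T t623 (L l305 (L l351 (T t7972 N)))))))) (K a105 (Fr a149 a192 l519 (V t3095)) N)))))))))⟩
def e0_63_106__193_42_36 : Ent 4 := ⟨[a0, a63, a106], [a193, a42, a62], (M a48 (L l66 (F (T t585 (L l515 (T t551 (L l28 (T t579 (K a2 (M a22 (F (T t304 (L l28 (T t579 (L l515 (T t551 N))))))) (K a22 (M a2 (F (T t304 (L l19 (L l28 (L l305 (T t342 N))))))) N))))))))))⟩
def e0_63_106__193_42_37 : Ent 4 := ⟨[a0, a63, a106], [a193, a42, a64], (M a48 (F (T t585 (L l28 (T t6454 (L l28 (L l515 (T t6455 (L l28 (T t6456 (L l28 (L l84 (L l228 (T t6457 (L l54 (L l228 (L l233 (T t6458 (K a207 (Fr a192 a149 l519 (Fr a96 a144 l484 (Fr a101 a111 l104 (Fr a32 a16 l40 (V t6459))))) N)))))))))))))))))))⟩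
def e0_63_106__193_42_38 : Ent 4 := ⟨[a0, a63, a106], [a193, a42, a65], (M a48 (L l305 (F (T t585 (L l76 (L l515 (T t551 (L l28 (L l76 (T t579 (K a1 (M a129 (F (T t304 (L l28 (L l76 (T t579 (L l76 (L l515 (T t551 N))))))))) (K a129 (M a1 (F (T t304 (L l66 (L l485 (T t535 N)))))) N))))))))))))⟩
def e0_63_106__193_42_39 : Ent 4 := ⟨[a0, a63, a106], [a193, a42, a66], (M a48 (F (T t585 (L l76 (L l515 (T t551 (L l28 (L l76 (T t579 N)))))))))⟩
def e0_63_106__193_42_40 : Ent 4 := ⟨[a0, a63, a106], [a193, a42, a67], (M a48 (F (T t585 (L l76 (L l515 (T t551 (L l28 (L l76 (T t579 N)))))))))⟩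
def e0_63_106__193_42_41 : Ent 4 := ⟨[a0, a63, a106], [a193, a42, a68], (M a48 (F (T t585 (L l80 (L l515 (T t551 (L l28 (L l80 (T t579 N)))))))))⟩
def e0_63_106__193_42_42 : Ent 4 := ⟨[a0, a63, a106], [a193, a42, a69], (M a48 (F (T t304 (L l28 (L l84 (T t579 (L l84 (L l515 (T t551 N)))))))))⟩
def e0_63_106__193_42_43 : Ent 4 := ⟨[a0, a63, a106], [a193, a42, a70], (M a48 (F (T t585 (L l515 (T t551 (L l28 (T t579 N)))))))⟩
def e0_63_106__193_42_44 : Ent 4 := ⟨[a0, a63, a106], [a193, a42, a71], (M a48 (F (L l228 (T t309 (L l515 (T t551 (L l28 (T t579 N))))))))⟩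
def e0_63_106__193_42_45 : Ent 4 := ⟨[a0, a63, a106], [a193, a42, a72], (M a48 (F (T t585 (L l80 (L l515 (T t551 (L l28 (L l80 (T t579 N)))))))))⟩
def e0_63_106__193_42_46 : Ent 4 := ⟨[a0, a63, a106], [a193, a42, a73], (M a48 (L l335 (F (T t585 (L l515 (T t551 (L l28 (T t579 (K a133 (M a13 (F (T t304 (L l28 (T t579 (L l199 (L l515 (T t551 N)))))))) (K a13 (M a133 (F (T t585 (L l515 (T t551 (L l28 (T t579 N))))))) N))))))))))⟩
def e0_63_106__193_42_47 : Ent 4 := ⟨[a0, a63, a106], [a193, a42, a74], (M a48 (F (L l318 (T t304 (L l84 (L l515 (T t551 (L l28 (L l84 (L l318 (T t579 N)))))))))))⟩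
def e0_63_106__193_42_48 : Ent 4 := ⟨[a0, a63, a106], [a193, a42, a75], (M a48 (F (T t585 (L l515 (T t551 (L l28 (T t579 N)))))))⟩
def e0_63_106__193_42_49 : Ent 4 := ⟨[a0, a63, a106], [a193, a42, a76], (M a48 (F (T t585 (L l80 (L l515 (T t551 (L l28 (L l80 (T t579 N)))))))))⟩
def e0_63_106__193_42_50 : Ent 4 := ⟨[a0, a63, a106], [a193, a42, a77], (M a48 (F (L l228 (T t309 (L l515 (T t551 (L l28 (T t579 N))))))))⟩
def e0_63_106__193_42_51 : Ent 4 := ⟨[a0, a63, a106], [a193, a42, a78], (M a48 (F (T t585 (L l515 (T t551 (L l28 (T t579 N)))))))⟩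
def e0_63_106__193_42_52 : Ent 4 := ⟨[a0, a63, a106], [a193, a42, a79], (M a48 (F (L l228 (T t309 (L l84 (L l515 (T t551 (L l28 (L l84 (T t579 N))))))))))⟩
def e0_63_106__193_42_53 : Ent 4 := ⟨[a0, a63, a106], [a193, a42, a84], (M a48 (F (T t585 (L l140 (L l515 (T t551 (L l28 (L l140 (T t579 N)))))))))⟩
def e0_63_106__193_42_54 : Ent 4 := ⟨[a0, a63, a106], [a193, a42, a85], (M a48 (F (L l228 (T t309 (L l347 (L l515 (T t551 (L l54 (L l228 (L l233 (T t777 (L l368 (T t6465 (K a192 (M a195 (F (L l272 (T t4663 (L l123 (L l236 (L l514 (T t7973 N)))))))) N))))))))))))))⟩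
def e0_63_106__193_42_55 : Ent 4 := ⟨[a0, a63, a106], [a193, a42, a86], (M a48 (F (T t304 (L l28 (T t579 (L l351 (L l515 (T t551 N))))))))⟩
def e0_63_106__193_42_56 : Ent 4 := ⟨[a0, a63, a106], [a193, a42, a87], (M a48 (F (T t304 (L l28 (L l367 (T t579 (L l515 (T t551 N))))))))⟩
def e0_63_106__193_42_57 : Ent 4 := ⟨[a0, a63, a106], [a193, a42, a88], (M a48 (F (T t585 (L l478 (L l515 (T t551 (L l28 (T t579 N))))))))⟩
def e0_63_106__193_42_58 : Ent 4 := ⟨[a0, a63, a106], [a193, a42, a89], (M a48 (F (T t304 (L l28 (T t579 (L l371 (L l515 (T t551 N))))))))⟩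
def e0_63_106__193_42_59 : Ent 4 := ⟨[a0, a63, a106], [a193, a42, a90], (M a48 (F (T t304 (L l28 (T t579 (L l375 (L l483 (L l515 (T t551 N)))))))))⟩
def e0_63_106__193_42_60 : Ent 4 := ⟨[a0, a63, a106], [a193, a42, a91], (M a48 (F (T t585 (L l515 (T t551 (L l28 (T t579 N)))))))⟩
def e0_63_106__193_42_61 : Ent 4 := ⟨[a0, a63, a106], [a193, a42, a92], (M a48 (F (T t585 (L l515 (T t551 (L l28 (T t579 N)))))))⟩
def e0_63_106__193_42_62 : Ent 4 := ⟨[a0, a63, a106], [a193, a42, a93], (M a48 (F (T t304 (L l28 (L l362 (T t579 (L l515 (T t551 N))))))))⟩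
def e0_63_106__193_42_63 : Ent 4 := ⟨[a0, a63, a106], [a193, a42, a94], (M a48 (F (T t585 (L l515 (T t551 (L l28 (T t579 N)))))))⟩
def e0_63_106__193_42_64 : Ent 4 := ⟨[a0, a63, a106], [a193, a42, a95], (M a48 (F (L l228 (T t309 (L l515 (T t551 (L l28 (L l361 (T t579 N)))))))))⟩
def e0_63_106__193_42_65 : Ent 4 := ⟨[a0, a63, a106], [a193, a42, a104], (M a48 (F (T t585 (L l100 (L l140 (L l515 (T t551 (L l28 (L l140 (T t579 N))))))))))⟩
def e0_63_106__193_42_66 : Ent 4 := ⟨[a0, a63, a106], [a193, a42, a105], (M a48 (L l515 (F (T t304 (L l28 (T t579 (L l54 (L l228 (L l233 (T t6458 (K a53 (M a61 (F (L l491 (T t551 (L l66 (L l410 (T t7974 (L l66 (L l145 (L l491 (T t7975 N))))))))))) (K a202 (Fr a149 a192 l519 (Fr a53 a58 l38 (Fr a101 a197 l491 (Fr a207 a154 l512 (V t7339))))) (K a58 (M a61 (L l54 (F (T t551 (L l36 (L l66 (L l410 (T t7974 (L l36 (L l66 (L l145 (T t7975 (K a10 (M a26 (F (T t551 (L l22 (L l32 (L l36 (L l66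 (L l389 (L l500 (T t7976 N)))))))))) (K a26 (M a10 (F (T t551 (L l16 (L l36 (L l66 (L l335 (T t7977 N)))))))) N)))))))))))))) (K a149 (M a61 (F (L l28 (L l491 (T t579 (L l54 (L l66 (L l485 (T t262 (L l66 (L l410 (T t7974 N)))))))))))) (K a61 (Fr a149 a192 l519 (V t7978)) N)))))))))))))))⟩
def e0_63_106__193_42_67 : Ent 4 := ⟨[a0, a63, a106], [a193, a42, a107], (M a48 (F (L l228 (T t309 (L l515 (T t551 (L l28 (T t579 N))))))))⟩
def e0_63_106__193_42_68 : Ent 4 := ⟨[a0, a63, a106], [a193, a42, a108], (M a48 (F (L l228 (T t309 (L l100 (L l515 (T t551 (L l28 (T t579 N)))))))))⟩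
def e0_63_106__193_42_69 : Ent 4 := ⟨[a0, a63, a106], [a193, a42, a109], (M a48 (F (L l228 (T t309 (L l515 (T t551 (L l28 (T t579 N))))))))⟩
def e0_63_106__193_42_70 : Ent 4 := ⟨[a0, a63, a106], [a193, a42, a110], (M a48 (F (L l228 (T t309 (L l515 (T t551 (L l28 (T t579 N))))))))⟩
def e0_63_106__193_42_71 : Ent 4 := ⟨[a0, a63, a106], [a193, a42, a111], (M a240 (F (L l228 (T t4779 (L l515 (T t817 (L l137 (T t4781 N))))))))⟩
def e0_63_106__193_42_72 : Ent 4 := ⟨[a0, a63, a106], [a193, a42, a124], (M a48 (F (T t585 (L l140 (L l515 (T t551 (L l28 (L l140 (T t579 N)))))))))⟩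
def e0_63_106__193_42_73 : Ent 4 := ⟨[a0, a63, a106], [a193, a42, a125], (M a48 (F (T t585 (L l515 (T t551 (L l28 (T t579 N)))))))⟩
def e0_63_106__193_42_74 : Ent 4 := ⟨[a0, a63, a106], [a193, a42, a126], (M a48 (F (T t585 (L l515 (T t551 (L l28 (T t579 N)))))))⟩
def e0_63_106__193_42_75 : Ent 4 := ⟨[a0, a63, a106], [a193, a42, a127], (M a48 (F (L l228 (T t309 (L l515 (T t551 (L l28 (T t6454 (L l28 (T t6479 N))))))))))⟩
def e0_63_106__193_42_76 : Ent 4 := ⟨[a0, a63, a106], [a193, a42, a128], (M a48 (F (T t585 (L l28 (T t579 (L l192 (L l220 (L l515 (T t6480 (L l54 (L l160 (L l228 (L l233 (T t6481 N))))))))))))))⟩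
def e0_63_106__193_42_77 : Ent 4 := ⟨[a0, a63, a106], [a193, a42, a129], (M a48 (L l305 (F (T t585 (L l217 (L l515 (T t551 (L l28 (T t579 (K a1 (M a65 (F (T t304 (L l152 (T t688 N))))) (K a65 (M a1 (F (T t304 (L l66 (L l485 (T t535 N)))))) N)))))))))))⟩
def e0_63_106__193_42_78 : Ent 4 := ⟨[a0, a63, a106], [a193, a42, a130], (M a48 (F (T t304 (L l28 (T t579 (L l515 (T t551 N)))))))⟩
def e0_63_106__193_42_79 : Ent 4 := ⟨[a0, a63, a106], [a193, a42, a131], (M a48 (F (T t585 (L l197 (L l515 (T t551 (L l28 (T t579 N))))))))⟩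
def e0_63_106__193_42_80 : Ent 4 := ⟨[a0, a63, a106], [a193, a42, a132], (M a48 (F (T t585 (L l202 (L l515 (T t551 (L l28 (T t579 N))))))))⟩
def e0_63_106__193_42_81 : Ent 4 := ⟨[a0, a63, a106], [a193, a42, a133], (M a48 (L l335 (F (T t585 (L l199 (L l515 (T t551 (L l28 (T t579 (K a73 (M a13 (F (T t304 (L l28 (T t579 (L l199 (L l515 (T t551 N)))))))) (K a13 (M a73 (F (T t304 (L l28 (T t579 (L l199 (L l515 (T t551 N)))))))) N)))))))))))⟩
def e0_63_106__193_42_82 : Ent 4 := ⟨[a0, a63, a106], [a193, a42, a134], (M a48 (F (T t585 (L l515 (T t551 (L l28 (T t579 N)))))))⟩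
def e0_63_106__193_42_83 : Ent 4 := ⟨[a0, a63, a106], [a193, a42, a135], (M a48 (F (T t585 (L l515 (T t551 (L l28 (T t579 N)))))))⟩
def e0_63_106__193_42_84 : Ent 4 := ⟨[a0, a63, a106], [a193, a42, a136], (M a48 (F (T t304 (L l28 (T t579 (L l515 (T t551 N)))))))⟩
def e0_63_106__193_42_85 : Ent 4 := ⟨[a0, a63, a106], [a193, a42, a137], (M a48 (F (T t585 (L l515 (T t551 (L l28 (T t579 N)))))))⟩
def e0_63_106__193_42_86 : Ent 4 := ⟨[a0, a63, a106], [a193, a42, a138], (M a48 (F (L l318 (T t304 (L l515 (T t551 (L l28 (L l318 (T t579 N)))))))))⟩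
def e0_63_106__193_42_87 : Ent 4 := ⟨[a0, a63, a106], [a193, a42, a139], (M a48 (F (T t585 (L l515 (T t551 (L l28 (T t579 N)))))))⟩
def e0_63_106__193_42_88 : Ent 4 := ⟨[a0, a63, a106], [a193, a42, a140], (M a48 (F (T t585 (L l222 (L l515 (T t551 (L l28 (T t579 N))))))))⟩
def e0_63_106__193_42_89 : Ent 4 := ⟨[a0, a63, a106], [a193, a42, a141], (M a48 (F (T t585 (L l515 (T t551 (L l28 (T t579 N)))))))⟩
def e0_63_106__193_42_90 : Ent 4 := ⟨[a0, a63, a106], [a193, a42, a142], (M a48 (F (T t585 (L l515 (T t551 (L l28 (T t579 N)))))))⟩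
def e0_63_106__193_42_91 : Ent 4 := ⟨[a0, a63, a106], [a193, a42, a143], (M a48 (F (T t585 (L l28 (L l515 (T t6462 (L l28 (T t579 N))))))))⟩
def e0_63_106__193_42_92 : Ent 4 := ⟨[a0, a63, a106], [a193, a42, a148], (M a48 (F (T t585 (L l163 (L l515 (T t551 (L l28 (T t579 N))))))))⟩
def e0_63_106__193_42_93 : Ent 4 := ⟨[a0, a63, a106], [a193, a42, a149], (M a105 (F (L l163 (T t6813 (L l163 (L l305 (L l347 (T t7979 (L l163 (T t7980 (K a148 (M a195 (L l163 (F (T t7981 (T t7982 (K a150 (Fr a151 a107 l517 (V t7983)) (K a151 (Fr a150 a60 l518 (V t7984)) N))))))) (K a104 (M a60 (F (T t7985 (T t1129 (L l66 (L l140 (L l293 (L l305 (T t7986 (L l347 (T t7987 N))))))))))) (K a65 (M a3 (L l305 (F (L l163 (T t7988 (L l66 (L l220 (L l293 (L l351 (T t7989 (L l76 (L l163 (T t7990 (L l351 (T t7991 (K a1 (M a129 (F (L l351 (T t7992 (L l163 (T t7988 (L l76 (L l163 (T t7990 N))))))))) (K a129 (Fr a1 a2 l0 (V t7991)) N))))))))))))))))) (K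 a85 (M a60 (L l347 (F (T t7985 (L l163 (L l220 (T t7993 (L l22 (L l228 (L l351 (T t7994 (K a21 (M a213 (F (L l228 (T t7995 (L l11 (L l220 (L l350 (T t7996 (L l22 (L l228 (L l351 (T t7994 N)))))))))))) (K a213 (M a21 (L l293 (F (T t7997 (L l22 (L l66 (L l305 (L l473 (T t7998 (K a233 (M a253 (F (T t7997 (L l22 (L l66 (L l351 (T t7999 N))))))) (K a253 (M a233 (L l473 (F (T t7997 (L l22 (L l66 (L l351 (T t7999 (K a1 (Fr a169 a41 l389 (V t7985)) (K a169 (M a1 (L l217 (F (T t8000 (L l163 (L l221 (L l350 (T t8001 (K a129 (M a189 (F (T t8000 (T t7997 N)))) (K a189 (M a129 (L l431 (F (T t8000 (L l163 (L l221 (L l350 (T t8001 (K a61 (M a125 (F (T t7997 (L l22 (L l66 (T t8002 N)))))) (K a125 (Fr a61 a62 l33 (V t8001)) N)))))))))) N)))))))))) N)))))))))) N))))))))))) N))))))))))))) (K a125 (Fr a107 a104 l98 (Fr a195 a151 l517 (Fr a150 a60 l518 (Fr a130 a65 l308 (Fr a170 a190 l218 (Fr a255 a85 l476 (V t8041))))))) (K a130 (M a60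 (F (T t7985 (T t8004 N)))) (K a150 (M a85 (L l163 (F (T t3095 (T t8005 (K a148 (M a151 (F (T t8006 (L l218 (L l220 (T t814 N)))))) (K a151 (M a148 (F (T t3095 (L l228 (T t8007 N))))) N))))))) (K a195 (M a64 (L l228 (F (T t8008 (L l220 (T t8009 (L l22 (L l220 (L l295 (L l305 (T t8010 (K a192 (M a194 (F (T t8008 (L l163 (L l295 (L l296 (T t8011 (L l163 (L l292 (L l297 (T t8012 N))))))))))) (K a194 (Fr a192 a128 l304 (V t8013)) N))))))))))))) (K a151 (M a60 (L l163 (F (T t7985 (L l220 (T t7996 (K a148 (Fr a150 a195 l518 (V t7659)) (K a150 (M a148 (F (T t8014 (L l66 (L l293 (L l305 (L l350 (T t8015 N)))))))) N)))))))) (K a107 (M a85 (F (T t3095 (T t623 (L l217 (L l305 (T t8016 N))))))) (K a255 (M a60 (F (T t7985 (L l220 (L l296 (T t7996 N)))))) N)))))))))))))))))))))⟩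
def e0_63_106__193_42_94 : Ent 4 := ⟨[a0, a63, a106], [a193, a42, a150], (M a48 (F (T t304 (L l28 (T t579 (L l163 (L l515 (T t551 N))))))))⟩
def e0_63_106__193_42_95 : Ent 4 := ⟨[a0, a63, a106], [a193, a42, a151], (M a48 (F (T t585 (L l163 (L l515 (T t551 (L l28 (T t579 N))))))))⟩
def e0_63_106__193_42_96 : Ent 4 := ⟨[a0, a63, a106], [a193, a42, a152], (M a48 (F (T t585 (L l222 (L l515 (T t551 (L l28 (T t579 N))))))))⟩
def e0_63_106__193_42_97 : Ent 4 := ⟨[a0, a63, a106], [a193, a42, a153], (M a48 (F (T t304 (L l28 (T t579 (L l167 (L l515 (T t551 N))))))))⟩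
def e0_63_106__193_42_98 : Ent 4 := ⟨[a0, a63, a106], [a193, a42, a154], (M a240 (F (L l228 (T t4779 (L l170 (L l368 (L l512 (L l515 (T t817 (T t4781 N))))))))))⟩
def e0_63_106__193_42_99 : Ent 4 := ⟨[a0, a63, a106], [a193, a42, a155], (M a48 (F (T t585 (L l515 (T t551 (L l28 (L l367 (T t579 N))))))))⟩
def e0_63_106__193_42_100 : Ent 4 := ⟨[a0, a63, a106], [a193, a42, a156], (M a48 (F (T t585 (L l515 (T t551 (L l28 (T t579 N)))))))⟩
def e0_63_106__193_42_101 : Ent 4 := ⟨[a0, a63, a106], [a193, a42, a157], (M a48 (F (T t585 (L l167 (L l515 (T t551 (L l28 (T t579 N))))))))⟩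
def e0_63_106__193_42_102 : Ent 4 := ⟨[a0, a63, a106], [a193, a42, a158], (M a48 (F (T t585 (L l515 (T t551 (L l28 (L l362 (T t579 N))))))))⟩
def e0_63_106__193_42_103 : Ent 4 := ⟨[a0, a63, a106], [a193, a42, a159], (M a240 (F (L l228 (T t4779 (L l170 (L l515 (T t817 (L l361 (T t4781 N)))))))))⟩
def e0_63_106__193_42_104 : Ent 4 := ⟨[a0, a63, a106], [a193, a42, a168], (M a48 (F (T t304 (L l28 (L l400 (T t579 (L l515 (T t551 N))))))))⟩
def e0_63_106__193_42_105 : Ent 4 := ⟨[a0, a63, a106], [a193, a42, a169], (M a48 (F (T t304 (L l28 (T t579 (L l217 (L l515 (T t551 N))))))))⟩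
def e0_63_106__193_42_106 : Ent 4 := ⟨[a0, a63, a106], [a193, a42, a170], (M a48 (F (T t304 (L l220 (L l515 (T t551 (L l28 (L l206 (L l220 (L l404 (T t552 (L l28 (L l206 (L l404 (T t553 N)))))))))))))))⟩
def e0_63_106__193_42_107 : Ent 4 := ⟨[a0, a63, a106], [a193, a42, a171], (M a48 (F (T t304 (L l28 (T t579 (L l515 (T t551 N)))))))⟩
def e0_63_106__193_42_108 : Ent 4 := ⟨[a0, a63, a106], [a193, a42, a172], (M a48 (F (T t585 (L l515 (T t551 (L l28 (T t579 N)))))))⟩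
def e0_63_106__193_42_109 : Ent 4 := ⟨[a0, a63, a106], [a193, a42, a173], (M a48 (F (T t585 (L l515 (T t551 (L l28 (T t579 N)))))))⟩
def e0_63_106__193_42_110 : Ent 4 := ⟨[a0, a63, a106], [a193, a42, a174], (M a48 (F (T t304 (L l28 (T t579 (L l515 (T t551 N)))))))⟩
def e0_63_106__193_42_111 : Ent 4 := ⟨[a0, a63, a106], [a193, a42, a175], (M a48 (F (L l228 (T t309 (L l515 (T t551 (L l28 (T t579 N))))))))⟩
def e0_63_106__193_42_112 : Ent 4 := ⟨[a0, a63, a106], [a193, a42, a188], (M a48 (F (T t585 (L l186 (L l515 (T t551 (L l28 (T t579 N))))))))⟩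
def e0_63_106__193_42_113 : Ent 4 := ⟨[a0, a63, a106], [a193, a42, a189], (M a48 (F (T t585 (L l217 (L l515 (T t551 (L l28 (T t579 N))))))))⟩
def e0_63_106__193_42_114 : Ent 4 := ⟨[a0, a63, a106], [a193, a42, a190], (M a48 (F (T t304 (L l28 (T t579 (L l515 (T t551 N)))))))⟩
def e0_63_106__193_42_115 : Ent 4 := ⟨[a0, a63, a106], [a193, a42, a191], (M a48 (F (T t304 (L l190 (L l220 (L l515 (T t551 (L l28 (T t6498 (L l28 (T t6499 N)))))))))))⟩
def e0_63_106__193_42_116 : Ent 4 := ⟨[a0, a63, a106], [a193, a42, a192], (M a195 (F (L l514 (T t6811 (L l292 (L l514 (T t8017 (L l296 (L l514 (T t8018 (L l514 (T t8019 (K a148 (M a105 (L l514 (F (T t7981 (L l296 (T t7982 (K a104 (Fr a60 a150 l518 (V t8020)) (K a60 (Fr a104 a107 l98 (V t8021)) N)))))))) (K a104 (M a150 (L l514 (F (T t8022 (L l296 (L l305 (T t8023 (L l296 (L l305 (T t8024 (K a148 (Fr a60 a105 l518 (V t7659)) (K a60 (M a148 (F (T t8025 (L l305 (L l309 (T t8026 N))))))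 N)))))))))))) (K a60 (M a48 (L l514 (F (T t8027 (L l236 (T t8028 (K a148 (M a104 (F (T t8029 (L l272 (L l446 (T t5818 N)))))) (K a104 (M a148 (F (T t5627 (L l28 (L l140 (L l236 (T t579 (L l485 (L l506 (L l515 (T t8030 N))))))))))) N)))))))) (K a85 (M a48 (F (L l272 (T t4663 (L l123 (L l236 (L l514 (T t7973 N)))))))) (K a105 (M a243 (L l515 (F (L l484 (T t8031 (L l339 (T t8032 (L l334 (T t6531 (K a149 (M a61 (F (L l484 (T t8031 (L l66 (L l268 (L l269 (T t8033 N)))))))) (K a61 (M a149 (F (L l334 (T t8034 (L l484 (T t8031 N)))))) N))))))))))) (K a130 (M a102 (F (L l489 (T t6713 (L l514 (T t8035 (L l514 (T t8036 N)))))))) (K a151 (M a48 (F (T t8027 (L l28 (L l236 (T t579 (L l236 (L l485 (L l515 (T t8037 N)))))))))) (K a107 (M a48 (F (T t5627 (L l28 (L l236 (T t579 (L l236 (L l485 (L l515 (T t8037 N)))))))))) N))))))))))))))))))))⟩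
def e0_63_106__193_42_117 : Ent 4 := ⟨[a0, a63, a106], [a193, a42, a194], (M a48 (L l228 (F (L l234 (T t304 (L l515 (T t551 (L l28 (L l234 (T t579 (K a192 (M a195 (F (L l272 (L l486 (T t5818 (L l234 (L l236 (L l514 (T t7973 N))))))))) (K a195 (Fr a192 a149 l519 (V t6558)) N))))))))))))⟩
def e0_63_106__193_42_118 : Ent 4 := ⟨[a0, a63, a106], [a193, a42, a195], (M a48 (L l228 (F (T t585 (L l273 (L l515 (T t551 (L l28 (T t579 (K a192 (M a194 (F (L l28 (L l236 (T t579 (L l487 (L l489 (L l515 (L l518 (T t8038 (L l22 (L l28 (L l515 (L l518 (T t8039 N))))))))))))))) (K a194 (Fr a192 a149 l519 (V t6558)) N)))))))))))⟩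
def e0_63_106__193_42_119 : Ent 4 := ⟨[a0, a63, a106], [a193, a42, a196], (M a48 (F (T t585 (L l495 (L l515 (T t551 (L l28 (T t579 N))))))))⟩
def e0_63_106__193_42_120 : Ent 4 := ⟨[a0, a63, a106], [a193, a42, a197], (M a240 (L l233 (F (L l28 (T t6587 (L l491 (L l515 (T t6588 (T t4781 (K a201 (M a205 (F (L l28 (T t7338 (T t4781 (L l491 (L l515 (T t817 N)))))))) (K a205 (M a201 (F (L l28 (T t7338 (T t4781 (L l491 (L l515 (T t817 N)))))))) N)))))))))))⟩
def e0_63_106__193_42_121 : Ent 4 := ⟨[a0, a63, a106], [a193, a42, a198], (M a48 (F (L l234 (T t304 (L l515 (T t551 (L l28 (L l234 (T t579 N)))))))))⟩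
def e0_63_106__193_42_122 : Ent 4 := ⟨[a0, a63, a106], [a193, a42, a199], (M a48 (F (L l228 (T t309 (L l515 (T t551 (L l28 (T t579 N))))))))⟩
def e0_63_106__193_42_123 : Ent 4 := ⟨[a0, a63, a106], [a193, a42, a200], (M a48 (F (L l230 (T t304 (L l515 (T t551 (L l28 (L l230 (T t579 N)))))))))⟩
def e0_63_106__193_42_124 : Ent 4 := ⟨[a0, a63, a106], [a193, a42, a201], (M a240 (L l233 (F (L l228 (T t4779 (L l515 (T t817 (T t4781 (K a197 (M a205 (F (L l28 (T t7338 (T t4781 (L l491 (L l515 (T t817 N)))))))) (K a205 (M a197 (F (L l515 (T t6965 (T t4781 (L l515 (T t817 N))))))) N))))))))))⟩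
def e0_63_106__193_42_125 : Ent 4 := ⟨[a0, a63, a106], [a193, a42, a202], (M a240 (F (L l28 (L l318 (T t6587 (L l515 (T t6588 (L l318 (T t4781 N)))))))))⟩
def e0_63_106__193_42_126 : Ent 4 := ⟨[a0, a63, a106], [a193, a42, a203], (M a48 (F (L l230 (T t585 (L l515 (T t551 (L l28 (L l230 (T t579 N)))))))))⟩
def e0_63_106__193_42_127 : Ent 4 := ⟨[a0, a63, a106], [a193, a42, a204], (M a48 (F (T t585 (L l298 (L l515 (T t551 (L l28 (T t579 N))))))))⟩
def e0_63_106__193_42_128 : Ent 4 := ⟨[a0, a63, a106], [a193, a42, a205], (M a240 (L l233 (F (L l228 (T t4779 (L l515 (T t817 (T t4781 (K a197 (M a201 (F (L l28 (T t7338 (T t4781 (L l491 (L l515 (T t817 N)))))))) (K a201 (M a197 (F (L l515 (T t6965 (T t4781 (L l515 (T t817 N))))))) N))))))))))⟩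
def e0_63_106__193_42_129 : Ent 4 := ⟨[a0, a63, a106], [a193, a42, a206], (M a48 (F (L l234 (T t585 (L l515 (T t551 (L l28 (L l234 (T t579 N)))))))))⟩
def e0_63_106__193_42_130 : Ent 4 := ⟨[a0, a63, a106], [a193, a42, a207], (M a240 (F (L l28 (T t6587 (L l512 (L l515 (T t6588 (T t4781 N))))))))⟩
def e0_63_106__193_42_131 : Ent 4 := ⟨[a0, a63, a106], [a193, a42, a212], (M a48 (F (T t585 (L l351 (L l515 (T t551 (L l28 (T t579 N))))))))⟩
def e0_63_106__193_42_132 : Ent 4 := ⟨[a0, a63, a106], [a193, a42, a213], (M a48 (L l293 (F (T t585 (L l347 (L l515 (T t551 (L l28 (L l246 (T t579 (K a233 (M a253 (F (T t304 (L l28 (L l246 (T t579 (L l347 (L l515 (T t551 N))))))))) (K a253 (M a233 (F (T t304 (L l28 (L l246 (T t579 (L l347 (L l515 (T t551 N))))))))) N))))))))))))⟩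
def e0_63_106__193_42_133 : Ent 4 := ⟨[a0, a63, a106], [a193, a42, a214], (M a48 (F (T t585 (L l515 (T t551 (L l28 (T t579 N)))))))⟩
def e0_63_106__193_42_134 : Ent 4 := ⟨[a0, a63, a106], [a193, a42, a215], (M a48 (F (T t304 (L l28 (L l245 (T t579 (L l515 (T t551 N))))))))⟩
def e0_63_106__193_42_135 : Ent 4 := ⟨[a0, a63, a106], [a193, a42, a216], (M a48 (F (T t585 (L l298 (L l515 (T t551 (L l28 (T t579 N))))))))⟩
def e0_63_106__193_42_136 : Ent 4 := ⟨[a0, a63, a106], [a193, a42, a217], (M a48 (F (T t585 (L l515 (T t551 (L l28 (T t579 N)))))))⟩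
def e0_63_106__193_42_137 : Ent 4 := ⟨[a0, a63, a106], [a193, a42, a218], (M a48 (F (L l282 (T t585 (L l28 (L l515 (T t2289 (L l28 (L l246 (L l282 (T t579 N)))))))))))⟩
def e0_63_106__193_42_138 : Ent 4 := ⟨[a0, a63, a106], [a193, a42, a219], (M a48 (F (T t585 (L l515 (T t551 (L l28 (L l245 (T t579 N))))))))⟩
def e0_63_106__193_42_139 : Ent 4 := ⟨[a0, a63, a106], [a193, a42, a220], (M a48 (F (T t304 (L l28 (L l241 (T t579 (L l515 (T t551 N))))))))⟩
def e0_63_106__193_42_140 : Ent 4 := ⟨[a0, a63, a106], [a193, a42, a221], (M a48 (F (T t304 (L l28 (L l241 (T t579 (L l515 (T t551 N))))))))⟩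
def e0_63_106__193_42_141 : Ent 4 := ⟨[a0, a63, a106], [a193, a42, a222], (M a48 (F (T t585 (L l515 (T t551 (L l28 (L l241 (T t579 N))))))))⟩
def e0_63_106__193_42_142 : Ent 4 := ⟨[a0, a63, a106], [a193, a42, a223], (M a240 (F (L l28 (T t7338 (L l361 (T t4781 (L l368 (L l515 (T t817 N)))))))))⟩
def e0_63_106__193_42_143 : Ent 4 := ⟨[a0, a63, a106], [a193, a42, a232], (M a48 (F (T t585 (L l515 (T t551 (L l28 (T t579 N)))))))⟩
def e0_63_106__193_42_144 : Ent 4 := ⟨[a0, a63, a106], [a193, a42, a233], (M a48 (L l293 (F (T t585 (L l515 (T t551 (L l28 (T t579 (K a213 (M a253 (F (T t304 (L l28 (L l246 (T t579 (L l347 (L l515 (T t551 N))))))))) (K a253 (M a213 (F (L l228 (T t8040 (L l515 (T t307 (L l28 (T t579 N)))))))) N))))))))))⟩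
def e0_63_106__193_42_145 : Ent 4 := ⟨[a0, a63, a106], [a193, a42, a234], (M a48 (F (L l282 (T t304 (L l515 (T t551 (L l28 (L l282 (T t579 N)))))))))⟩
def e0_63_106__193_42_146 : Ent 4 := ⟨[a0, a63, a106], [a193, a42, a235], (M a48 (F (T t304 (L l28 (T t579 (L l515 (T t551 N)))))))⟩
def e0_63_106__193_42_147 : Ent 4 := ⟨[a0, a63, a106], [a193, a42, a236], (M a48 (F (T t304 (L l28 (L l400 (T t579 (L l515 (T t551 N))))))))⟩
def e0_63_106__193_42_148 : Ent 4 := ⟨[a0, a63, a106], [a193, a42, a237], (M a48 (F (L l228 (T t309 (L l515 (T t551 (L l28 (T t579 N))))))))⟩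
def e0_63_106__193_42_149 : Ent 4 := ⟨[a0, a63, a106], [a193, a42, a238], (M a48 (F (T t304 (L l28 (T t579 (L l515 (T t551 N)))))))⟩
def e0_63_106__193_42_150 : Ent 4 := ⟨[a0, a63, a106], [a193, a42, a239], (M a48 (F (L l228 (T t309 (L l515 (T t551 (L l28 (L l289 (L l404 (T t579 N))))))))))⟩
def e0_63_106__193_42_151 : Ent 4 := ⟨[a0, a63, a106], [a193, a42, a252], (M a48 (F (T t585 (L l262 (L l515 (T t551 (L l28 (T t579 N))))))))⟩
def e0_63_106__193_42_152 : Ent 4 := ⟨[a0, a63, a106], [a193, a42, a253], (M a48 (L l293 (F (T t585 (L l515 (T t551 (L l28 (T t579 (K a213 (M a233 (F (T t304 (L l28 (L l246 (T t579 (L l347 (L l515 (T t551 N))))))))) (K a233 (M a213 (F (L l228 (T t8040 (L l515 (T t307 (L l28 (T t579 N)))))))) N))))))))))⟩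
def e0_63_106__193_42_153 : Ent 4 := ⟨[a0, a63, a106], [a193, a42, a254], (M a48 (F (T t304 (L l28 (T t579 (L l515 (T t551 N)))))))⟩
def e0_63_106__193_42_154 : Ent 4 := ⟨[a0, a63, a106], [a193, a42, a255], (M a48 (F (T t585 (L l266 (L l515 (T t551 (L l28 (L l469 (T t6526 (L l28 (L l289 (T t6527 N))))))))))))⟩
def b0_63_106__193_42 : Blk 4 := ⟨[0, 63, 106], [193, 42], [1, 2, 3, 4, 5, 6, 7, 8, 9, 10, 11, 12, 13, 14, 15, 20, 21, 22, 23, 24, 25, 26, 27, 28, 29, 30, 31, 40, 41, 43, 44, 45, 46, 47, 60, 61, 62, 64, 65, 66, 67, 68, 69, 70, 71, 72, 73, 74, 75, 76, 77, 78, 79, 84, 85, 86, 87, 88, 89, 90, 91, 92, 93, 94, 95, 104, 105, 107, 108, 109, 110, 111, 124, 125, 126, 127, 128, 129, 130, 131, 132, 133, 134, 135, 136, 137, 138, 139, 140, 141, 142, 143, 148, 149, 150, 151, 152, 153, 154, 155, 156, 157, 158, 159, 168, 169, 170, 171, 172, 173, 174, 175, 188, 189, 190, 191, 192, 194, 195, 196, 197, 198, 199, 200, 201, 202,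 203, 204, 205, 206, 207, 212, 213, 214, 215, 216, 217, 218, 219, 220, 221, 222, 223, 232, 233, 234, 235, 236, 237, 238, 239, 252, 253, 254, 255], [e0_63_106__193_42_0, e0_63_106__193_42_1, e0_63_106__193_42_2, e0_63_106__193_42_3, e0_63_106__193_42_4, e0_63_106__193_42_5, e0_63_106__193_42_6, e0_63_106__193_42_7, e0_63_106__193_42_8, e0_63_106__193_42_9, e0_63_106__193_42_10, e0_63_106__193_42_11, e0_63_106__193_42_12, e0_63_106__193_42_13, e0_63_106__193_42_14, e0_63_106__193_42_15, e0_63_106__193_42_16, e0_63_106__193_42_17, e0_63_106__193_42_18, e0_63_106__193_42_19, e0_63_106__193_42_20, e0_63_106__193_42_21, e0_63_106__193_42_22, e0_63_106__193_42_23, e0_63_106__193_42_24, e0_63_106__193_42_25, e0_63_106__193_42_26, e0_63_106__193_42_27, e0_63_106__193_42_28, e0_63_106__193_42_29, e0_63_106__193_42_30, e0_63_106__193_42_31, e0_63_106__193_42_32, e0_63_106__193_42_33, e0_63_106__193_42_34, e0_63_106__193_42_35,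 e0_63_106__193_42_36, e0_63_106__193_42_37, e0_63_106__193_42_38, e0_63_106__193_42_39, e0_63_106__193_42_40, e0_63_106__193_42_41, e0_63_106__193_42_42, e0_63_106__193_42_43, e0_63_106__193_42_44, e0_63_106__193_42_45, e0_63_106__193_42_46, e0_63_106__193_42_47, e0_63_106__193_42_48, e0_63_106__193_42_49, e0_63_106__193_42_50, e0_63_106__193_42_51, e0_63_106__193_42_52, e0_63_106__193_42_53, e0_63_106__193_42_54, e0_63_106__193_42_55, e0_63_106__193_42_56, e0_63_106__193_42_57, e0_63_106__193_42_58, e0_63_106__193_42_59, e0_63_106__193_42_60, e0_63_106__193_42_61, e0_63_106__193_42_62, e0_63_106__193_42_63, e0_63_106__193_42_64, e0_63_106__193_42_65, e0_63_106__193_42_66, e0_63_106__193_42_67, e0_63_106__193_42_68, e0_63_106__193_42_69, e0_63_106__193_42_70, e0_63_106__193_42_71, e0_63_106__193_42_72, e0_63_106__193_42_73, e0_63_106__193_42_74, e0_63_106__193_42_75, e0_63_106__193_42_76, e0_63_106__193_42_77, e0_63_106__193_42_78,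 e0_63_106__193_42_79, e0_63_106__193_42_80, e0_63_106__193_42_81, e0_63_106__193_42_82, e0_63_106__193_42_83, e0_63_106__193_42_84, e0_63_106__193_42_85, e0_63_106__193_42_86, e0_63_106__193_42_87, e0_63_106__193_42_88, e0_63_106__193_42_89, e0_63_106__193_42_90, e0_63_106__193_42_91, e0_63_106__193_42_92, e0_63_106__193_42_93, e0_63_106__193_42_94, e0_63_106__193_42_95, e0_63_106__193_42_96, e0_63_106__193_42_97, e0_63_106__193_42_98, e0_63_106__193_42_99, e0_63_106__193_42_100, e0_63_106__193_42_101, e0_63_106__193_42_102, e0_63_106__193_42_103, e0_63_106__193_42_104, e0_63_106__193_42_105, e0_63_106__193_42_106, e0_63_106__193_42_107, e0_63_106__193_42_108, e0_63_106__193_42_109, e0_63_106__193_42_110, e0_63_106__193_42_111, e0_63_106__193_42_112, e0_63_106__193_42_113, e0_63_106__193_42_114, e0_63_106__193_42_115, e0_63_106__193_42_116, e0_63_106__193_42_117, e0_63_106__193_42_118, e0_63_106__193_42_119, e0_63_106__193_42_120,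 e0_63_106__193_42_121, e0_63_106__193_42_122, e0_63_106__193_42_123, e0_63_106__193_42_124, e0_63_106__193_42_125, e0_63_106__193_42_126, e0_63_106__193_42_127, e0_63_106__193_42_128, e0_63_106__193_42_129, e0_63_106__193_42_130, e0_63_106__193_42_131, e0_63_106__193_42_132, e0_63_106__193_42_133, e0_63_106__193_42_134, e0_63_106__193_42_135, e0_63_106__193_42_136, e0_63_106__193_42_137, e0_63_106__193_42_138, e0_63_106__193_42_139, e0_63_106__193_42_140, e0_63_106__193_42_141, e0_63_106__193_42_142, e0_63_106__193_42_143, e0_63_106__193_42_144, e0_63_106__193_42_145, e0_63_106__193_42_146, e0_63_106__193_42_147, e0_63_106__193_42_148, e0_63_106__193_42_149, e0_63_106__193_42_150, e0_63_106__193_42_151, e0_63_106__193_42_152, e0_63_106__193_42_153, e0_63_106__193_42_154], by decide +kernel, by decide +kernel⟩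
def e0_63_106__194_42_0 : Ent 4 := ⟨[a0, a63, a106], [a194, a42, a1], (M a48 (F (T t578 (L l28 (L l234 (T t579 (T t551 N)))))))⟩
def e0_63_106__194_42_1 : Ent 4 := ⟨[a0, a63, a106], [a194, a42, a2], (M a48 (L l66 (L l306 (F (T t578 (L l28 (L l234 (T t579 (T t551 (K a66 (M a130 (L l66 (F (T t578 (L l76 (T t596 (K a22 (M a62 (F (T t578 (L l76 (T t596 N))))) (K a62 (M a22 (F (T t578 (L l76 (T t596 N))))) N)))))))) (K a130 (M a66 (L l66 (F (L l152 (T t6460 (L l28 (L l234 (T t579 (K a22 (M a62 (F (T t578 (L l11 (T t602 N))))) (K a62 (M a22 (F (T t578 (L l152 (L l432 (T t6460 (L l28 (L l234 (T t579 N))))))))) N)))))))))) (K a22 (M a62 (L l306 (F (T t578 (L l22 (T t3443 (K a66 (M a130 (F (T t578 (L l76 (T t596 N))))) (K a130 (M a66 (F (T t578 (L l11 (T t602 N))))) N)))))))) (K a62 (M a22 (L l306 (F (T t578 (L l28 (L l234 (T t579 (T t551 (K a66 (M a130 (F (T t578 (L l76 (T t596 N))))) (K a130 (M a66 (F (T t578 (L l152 (L l432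 (T t6460 (L l28 (L l234 (T t579 N))))))))) N)))))))))) N)))))))))))))⟩
def e0_63_106__194_42_2 : Ent 4 := ⟨[a0, a63, a106], [a194, a42, a3], (M a48 (F (T t2348 (L l28 (L l234 (T t579 (L l453 (T t551 N))))))))⟩
def e0_63_106__194_42_3 : Ent 4 := ⟨[a0, a63, a106], [a194, a42, a4], (M a48 (F (T t578 (L l28 (L l234 (T t579 (T t551 N)))))))⟩
def e0_63_106__194_42_4 : Ent 4 := ⟨[a0, a63, a106], [a194, a42, a5], (M a48 (F (T t578 (L l28 (L l47 (L l234 (T t579 (T t551 N))))))))⟩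
def e0_63_106__194_42_5 : Ent 4 := ⟨[a0, a63, a106], [a194, a42, a6], (M a48 (F (T t578 (L l28 (L l234 (T t579 (T t551 N)))))))⟩
def e0_63_106__194_42_6 : Ent 4 := ⟨[a0, a63, a106], [a194, a42, a7], (M a48 (F (T t578 (L l28 (L l234 (T t579 (T t551 N)))))))⟩
def e0_63_106__194_42_7 : Ent 4 := ⟨[a0, a63, a106], [a194, a42, a8], (M a48 (L l56 (F (T t578 (L l28 (L l234 (T t579 (T t551 (K a25 (M a59 (F (T t578 (L l26 (L l316 (T t6445 N)))))) (K a59 (M a25 (F (T t578 (L l28 (L l234 (T t579 (T t551 N))))))) N))))))))))⟩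
def e0_63_106__194_42_8 : Ent 4 := ⟨[a0, a63, a106], [a194, a42, a9], (M a48 (F (T t578 (L l28 (L l234 (T t579 (T t551 N)))))))⟩
def e0_63_106__194_42_9 : Ent 4 := ⟨[a0, a63, a106], [a194, a42, a10], (M a48 (L l54 (F (T t578 (L l28 (L l234 (L l318 (T t579 (T t551 (K a26 (Fr a58 a53 l38 (V t6446)) (K a58 (M a26 (F (L l28 (T t4144 (T t551 (L l28 (L l426 (T t6447 (K a32 (Fr a192 a149 l519 (Fr a15 a37 l75 (Fr a47 a31 l61 (V t6528)))) N))))))))) N)))))))))))⟩
def e0_63_106__194_42_10 : Ent 4 := ⟨[a0, a63, a106], [a194, a42, a11], (M a48 (F (T t578 (L l28 (L l234 (T t579 (T t551 N)))))))⟩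
def e0_63_106__194_42_11 : Ent 4 := ⟨[a0, a63, a106], [a194, a42, a12], (M a48 (F (T t2348 (L l28 (L l234 (T t579 (L l478 (T t551 N))))))))⟩
def e0_63_106__194_42_12 : Ent 4 := ⟨[a0, a63, a106], [a194, a42, a13], (M a48 (F (T t578 (L l28 (L l234 (T t579 (T t551 N)))))))⟩
def e0_63_106__194_42_13 : Ent 4 := ⟨[a0, a63, a106], [a194, a42, a14], (M a48 (L l336 (F (T t578 (L l28 (L l234 (T t579 (T t551 (K a134 (M a74 (F (T t578 (L l153 (T t6556 (L l28 (L l234 (T t579 N)))))))) (K a74 (M a134 (F (T t578 (L l28 (L l84 (L l234 (L l318 (T t579 (L l84 (T t551 N)))))))))) N))))))))))⟩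
def e0_63_106__194_42_14 : Ent 4 := ⟨[a0, a63, a106], [a194, a42, a15], (M a48 (F (T t2348 (L l28 (L l234 (T t579 (L l483 (T t551 N))))))))⟩
def e0_63_106__194_42_15 : Ent 4 := ⟨[a0, a63, a106], [a194, a42, a20], (M a48 (F (T t578 (L l28 (L l234 (T t579 (T t551 N)))))))⟩
def e0_63_106__194_42_16 : Ent 4 := ⟨[a0, a63, a106], [a194, a42, a21], (M a48 (F (L l54 (L l228 (T t777 (L l347 (T t551 (L l28 (L l47 (L l234 (T t579 N)))))))))))⟩
def e0_63_106__194_42_17 : Ent 4 := ⟨[a0, a63, a106], [a194, a42, a22], (M a48 (L l66 (F (T t578 (L l28 (L l234 (T t579 (T t551 (K a2 (M a62 (L l306 (F (T t578 (L l22 (T t3443 (K a66 (M a130 (F (T t578 (L l76 (T t596 N))))) (K a130 (M a66 (F (T t578 (L l11 (T t602 N))))) N)))))))) (K a62 (M a2 (F (T t578 (L l19 (L l28 (T t342 N)))))) N))))))))))⟩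
def e0_63_106__194_42_18 : Ent 4 := ⟨[a0, a63, a106], [a194, a42, a23], (M a48 (F (L l234 (T t304 (L l351 (T t551 (L l28 (L l234 (T t579 N)))))))))⟩
def e0_63_106__194_42_19 : Ent 4 := ⟨[a0, a63, a106], [a194, a42, a24], (M a48 (F (T t578 (L l28 (L l234 (T t579 (T t551 N)))))))⟩
def e0_63_106__194_42_20 : Ent 4 := ⟨[a0, a63, a106], [a194, a42, a25], (M a48 (L l56 (F (T t578 (L l28 (L l234 (T t579 (T t551 (K a8 (M a59 (F (T t578 (L l26 (L l316 (T t6445 N)))))) (K a59 (M a8 (F (T t578 (L l19 (L l28 (T t4700 N)))))) N))))))))))⟩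
def e0_63_106__194_42_21 : Ent 4 := ⟨[a0, a63, a106], [a194, a42, a26], (M a48 (L l54 (F (T t578 (L l28 (L l234 (T t579 (T t551 (K a10 (Fr a58 a53 l38 (V t6446)) (K a58 (M a10 (F (L l28 (T t2289 (L l234 (T t4033 (L l18 (L l354 (T t6449 (L l18 (L l426 (T t6450 N)))))))))))) N))))))))))⟩
def e0_63_106__194_42_22 : Ent 4 := ⟨[a0, a63, a106], [a194, a42, a27], (M a48 (F (T t578 (L l28 (L l234 (T t579 (T t551 N)))))))⟩
def e0_63_106__194_42_23 : Ent 4 := ⟨[a0, a63, a106], [a194, a42, a28], (M a48 (F (T t578 (L l28 (L l234 (L l362 (T t579 (T t551 N))))))))⟩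
def e0_63_106__194_42_24 : Ent 4 := ⟨[a0, a63, a106], [a194, a42, a29], (M a48 (F (L l234 (T t304 (L l371 (T t551 (L l28 (L l234 (T t579 N)))))))))⟩
def e0_63_106__194_42_25 : Ent 4 := ⟨[a0, a63, a106], [a194, a42, a30], (M a48 (F (T t578 (L l28 (L l234 (T t579 (T t551 N)))))))⟩
def e0_63_106__194_42_26 : Ent 4 := ⟨[a0, a63, a106], [a194, a42, a31], (M a48 (F (L l234 (T t585 (L l375 (T t551 (L l28 (L l234 (L l361 (T t579 N))))))))))⟩
def e0_63_106__194_42_27 : Ent 4 := ⟨[a0, a63, a106], [a194, a42, a40], (M a48 (L l22 (F (T t578 (L l24 (L l28 (L l234 (T t579 (T t551 (K a41 (M a43 (F (T t578 (L l66 (L l306 (L l388 (T t6451 N))))))) (K a43 (M a41 (F (T t578 (L l24 (L l28 (L l234 (T t579 (T t551 N)))))))) N)))))))))))⟩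
def e0_63_106__194_42_28 : Ent 4 := ⟨[a0, a63, a106], [a194, a42, a41], (M a48 (L l22 (F (T t578 (L l28 (L l234 (T t579 (T t551 (K a40 (M a43 (F (T t578 (L l66 (L l306 (L l388 (T t6451 N))))))) (K a43 (M a40 (F (T t578 (L l29 (L l69 (T t6452 N)))))) N))))))))))⟩
def e0_63_106__194_42_29 : Ent 4 := ⟨[a0, a63, a106], [a194, a42, a43], (M a48 (L l22 (F (T t578 (L l28 (L l234 (T t579 (T t551 (K a40 (M a41 (F (T t578 (L l24 (L l28 (L l234 (T t579 (T t551 N)))))))) (K a41 (M a40 (F (T t578 (L l29 (L l69 (T t6452 N)))))) N))))))))))⟩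
def e0_63_106__194_42_30 : Ent 4 := ⟨[a0, a63, a106], [a194, a42, a44], (M a48 (F (T t578 (L l24 (L l28 (L l234 (T t579 (T t551 N))))))))⟩
def e0_63_106__194_42_31 : Ent 4 := ⟨[a0, a63, a106], [a194, a42, a45], (M a48 (F (T t578 (L l28 (L l234 (T t579 (T t551 N)))))))⟩
def e0_63_106__194_42_32 : Ent 4 := ⟨[a0, a63, a106], [a194, a42, a46], (M a48 (L l26 (F (T t578 (L l28 (L l234 (T t579 (T t551 (K a34 (M a38 (F (T t578 (L l20 (L l28 (L l234 (T t579 (T t551 N)))))))) (K a38 (M a34 (F (T t578 (L l29 (L l66 (L l306 (T t6453 N))))))) N))))))))))⟩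
def e0_63_106__194_42_33 : Ent 4 := ⟨[a0, a63, a106], [a194, a42, a47], (M a12 (L l28 (F (T t2416 (L l56 (L l270 (T t2415 (T t2305 (K a32 (M a37 (F (T t2416 (L l56 (L l270 (T t2415 (T t2305 N))))))) (K a37 (M a32 (F (T t2416 (L l51 (L l56 (T t682 N)))))) N))))))))))⟩
def e0_63_106__194_42_34 : Ent 4 := ⟨[a0, a63, a106], [a194, a42, a60], (M a48 (F (T t2348 (L l28 (L l234 (T t579 (L l442 (T t551 N))))))))⟩
def e0_63_106__194_42_35 : Ent 4 := ⟨[a0, a63, a106], [a194, a42, a61], (M a48 (F (L l515 (T t578 (L l28 (L l35 (L l234 (T t579 (L l515 (T t551 N))))))))))⟩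
def e0_63_106__194_42_36 : Ent 4 := ⟨[a0, a63, a106], [a194, a42, a62], (M a48 (L l66 (F (T t578 (L l28 (L l234 (T t579 (T t551 (K a2 (M a22 (L l306 (F (T t578 (L l28 (L l234 (T t579 (T t551 (K a66 (M a130 (F (T t578 (L l76 (T t596 N))))) (K a130 (M a66 (F (T t578 (L l152 (L l432 (T t6460 (L l28 (L l234 (T t579 N))))))))) N)))))))))) (K a22 (M a2 (F (T t578 (L l19 (L l28 (T t342 N)))))) N))))))))))⟩
def e0_63_106__194_42_37 : Ent 4 := ⟨[a0, a63, a106], [a194, a42, a64], (M a48 (F (T t578 (L l28 (L l234 (T t6454 (L l28 (T t6455 (L l28 (L l234 (T t6456 (L l28 (L l84 (L l228 (L l234 (T t6457 (L l54 (L l228 (T t6458 (K a207 (Fr a192 a149 l519 (Fr a96 a144 l484 (Fr a101 a111 l104 (Fr a32 a16 l40 (V t6459))))) N))))))))))))))))))))⟩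
def e0_63_106__194_42_38 : Ent 4 := ⟨[a0, a63, a106], [a194, a42, a65], (M a48 (F (T t578 (L l28 (L l76 (L l234 (T t579 (L l76 (T t551 N)))))))))⟩
def e0_63_106__194_42_39 : Ent 4 := ⟨[a0, a63, a106], [a194, a42, a66], (M a48 (L l306 (F (T t578 (L l28 (L l76 (L l234 (T t579 (L l76 (T t551 (K a2 (M a130 (L l66 (F (T t578 (L l76 (T t596 (K a22 (M a62 (F (T t578 (L l76 (T t596 N))))) (K a62 (M a22 (F (T t578 (L l76 (T t596 N))))) N)))))))) (K a130 (M a2 (F (T t578 (L l486 (T t339 N))))) N))))))))))))⟩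
def e0_63_106__194_42_40 : Ent 4 := ⟨[a0, a63, a106], [a194, a42, a67], (M a48 (F (T t578 (L l28 (L l76 (L l234 (T t579 (L l76 (T t551 N)))))))))⟩
def e0_63_106__194_42_41 : Ent 4 := ⟨[a0, a63, a106], [a194, a42, a68], (M a48 (F (T t578 (L l28 (L l80 (L l234 (T t579 (L l80 (T t551 N)))))))))⟩
def e0_63_106__194_42_42 : Ent 4 := ⟨[a0, a63, a106], [a194, a42, a69], (M a48 (F (T t578 (L l28 (L l84 (L l234 (T t579 (L l84 (T t551 N)))))))))⟩
def e0_63_106__194_42_43 : Ent 4 := ⟨[a0, a63, a106], [a194, a42, a70], (M a48 (F (T t578 (L l28 (L l234 (T t579 (T t551 N)))))))⟩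
def e0_63_106__194_42_44 : Ent 4 := ⟨[a0, a63, a106], [a194, a42, a71], (M a48 (F (T t2348 (L l28 (L l234 (T t579 (T t551 N)))))))⟩
def e0_63_106__194_42_45 : Ent 4 := ⟨[a0, a63, a106], [a194, a42, a72], (M a48 (F (T t578 (L l28 (L l80 (L l234 (T t579 (L l80 (T t551 N)))))))))⟩
def e0_63_106__194_42_46 : Ent 4 := ⟨[a0, a63, a106], [a194, a42, a73], (M a48 (F (T t578 (L l28 (L l234 (T t579 (T t551 N)))))))⟩
def e0_63_106__194_42_47 : Ent 4 := ⟨[a0, a63, a106], [a194, a42, a74], (M a48 (L l336 (F (T t578 (L l28 (L l84 (L l234 (L l318 (T t579 (L l84 (T t551 (K a134 (M a14 (F (T t578 (L l28 (L l84 (L l234 (L l318 (T t579 (L l84 (T t551 N)))))))))) (K a14 (M a134 (F (T t578 (L l28 (L l84 (L l234 (L l318 (T t579 (L l84 (T t551 N)))))))))) N)))))))))))))⟩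
def e0_63_106__194_42_48 : Ent 4 := ⟨[a0, a63, a106], [a194, a42, a75], (M a48 (F (T t578 (L l28 (L l234 (T t579 (T t551 N)))))))⟩
def e0_63_106__194_42_49 : Ent 4 := ⟨[a0, a63, a106], [a194, a42, a76], (M a48 (F (T t578 (L l28 (L l80 (L l234 (T t579 (L l80 (T t551 N)))))))))⟩
def e0_63_106__194_42_50 : Ent 4 := ⟨[a0, a63, a106], [a194, a42, a77], (M a48 (F (T t2348 (L l28 (L l234 (T t579 (T t551 N)))))))⟩
def e0_63_106__194_42_51 : Ent 4 := ⟨[a0, a63, a106], [a194, a42, a78], (M a48 (F (T t578 (L l28 (L l234 (T t579 (T t551 N)))))))⟩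
def e0_63_106__194_42_52 : Ent 4 := ⟨[a0, a63, a106], [a194, a42, a79], (M a48 (F (L l234 (T t5173 (L l84 (T t551 (L l28 (L l84 (L l234 (T t579 N))))))))))⟩
def e0_63_106__194_42_53 : Ent 4 := ⟨[a0, a63, a106], [a194, a42, a84], (M a48 (F (T t578 (L l28 (L l140 (L l234 (T t579 (L l140 (T t551 N)))))))))⟩
def e0_63_106__194_42_54 : Ent 4 := ⟨[a0, a63, a106], [a194, a42, a85], (M a48 (F (L l228 (L l234 (T t309 (L l347 (T t551 (L l54 (L l228 (T t777 (L l234 (L l368 (T t6465 (K a192 (M a195 (F (L l28 (L l272 (T t4659 (L l123 (L l234 (L l236 (L l514 (T t7973 N)))))))))) N))))))))))))))⟩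
def e0_63_106__194_42_55 : Ent 4 := ⟨[a0, a63, a106], [a194, a42, a86], (M a48 (F (L l234 (T t304 (L l351 (T t551 (L l28 (L l234 (T t579 N)))))))))⟩
def e0_63_106__194_42_56 : Ent 4 := ⟨[a0, a63, a106], [a194, a42, a87], (M a48 (F (T t578 (L l28 (L l234 (L l367 (T t579 (T t551 N))))))))⟩
def e0_63_106__194_42_57 : Ent 4 := ⟨[a0, a63, a106], [a194, a42, a88], (M a48 (F (T t578 (L l28 (L l234 (T t579 (L l478 (T t551 N))))))))⟩
def e0_63_106__194_42_58 : Ent 4 := ⟨[a0, a63, a106], [a194, a42, a89], (M a48 (F (L l234 (T t304 (L l371 (T t551 (L l28 (L l234 (T t579 N)))))))))⟩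
def e0_63_106__194_42_59 : Ent 4 := ⟨[a0, a63, a106], [a194, a42, a90], (M a48 (F (L l234 (T t304 (L l375 (L l483 (T t551 (L l28 (L l234 (T t579 N))))))))))⟩
def e0_63_106__194_42_60 : Ent 4 := ⟨[a0, a63, a106], [a194, a42, a91], (M a48 (F (T t578 (L l28 (L l234 (T t579 (T t551 N)))))))⟩
def e0_63_106__194_42_61 : Ent 4 := ⟨[a0, a63, a106], [a194, a42, a92], (M a48 (F (T t578 (L l28 (L l234 (T t579 (T t551 N)))))))⟩
def e0_63_106__194_42_62 : Ent 4 := ⟨[a0, a63, a106], [a194, a42, a93], (M a48 (F (T t578 (L l28 (L l234 (L l362 (T t579 (T t551 N))))))))⟩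
def e0_63_106__194_42_63 : Ent 4 := ⟨[a0, a63, a106], [a194, a42, a94], (M a48 (F (T t578 (L l28 (L l234 (T t579 (T t551 N)))))))⟩
def e0_63_106__194_42_64 : Ent 4 := ⟨[a0, a63, a106], [a194, a42, a95], (M a48 (F (T t551 (L l137 (L l234 (T t585 (L l28 (L l234 (L l361 (T t579 N))))))))))⟩
def e0_63_106__194_42_65 : Ent 4 := ⟨[a0, a63, a106], [a194, a42, a104], (M a48 (F (T t578 (L l28 (L l140 (L l234 (T t579 (L l100 (L l140 (T t551 N))))))))))⟩
def e0_63_106__194_42_66 : Ent 4 := ⟨[a0, a63, a106], [a194, a42, a105], (M a48 (F (L l234 (T t304 (L l515 (T t551 (L l28 (L l234 (T t579 N)))))))))⟩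
def e0_63_106__194_42_67 : Ent 4 := ⟨[a0, a63, a106], [a194, a42, a107], (M a48 (F (T t551 (L l103 (L l234 (T t585 (L l28 (L l234 (T t579 N)))))))))⟩
def e0_63_106__194_42_68 : Ent 4 := ⟨[a0, a63, a106], [a194, a42, a108], (M a48 (F (L l99 (T t578 (L l28 (L l234 (T t579 (L l100 (T t551 N)))))))))⟩
def e0_63_106__194_42_69 : Ent 4 := ⟨[a0, a63, a106], [a194, a42, a109], (M a48 (F (T t551 (L l99 (L l101 (L l234 (T t585 (L l28 (L l234 (T t579 N))))))))))⟩
def e0_63_106__194_42_70 : Ent 4 := ⟨[a0, a63, a106], [a194, a42, a110], (M a48 (F (T t551 (L l99 (L l234 (T t585 (L l28 (L l234 (T t579 N)))))))))⟩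
def e0_63_106__194_42_71 : Ent 4 := ⟨[a0, a63, a106], [a194, a42, a111], (M a240 (F (L l228 (T t4786 (T t817 (L l137 (L l336 (T t4781 N))))))))⟩
def e0_63_106__194_42_72 : Ent 4 := ⟨[a0, a63, a106], [a194, a42, a124], (M a48 (F (T t578 (L l28 (L l140 (L l234 (T t579 (L l140 (T t551 N)))))))))⟩
def e0_63_106__194_42_73 : Ent 4 := ⟨[a0, a63, a106], [a194, a42, a125], (M a48 (F (T t578 (L l28 (L l234 (T t579 (T t551 N)))))))⟩
def e0_63_106__194_42_74 : Ent 4 := ⟨[a0, a63, a106], [a194, a42, a126], (M a48 (F (T t578 (L l28 (L l234 (T t579 (T t551 N)))))))⟩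
def e0_63_106__194_42_75 : Ent 4 := ⟨[a0, a63, a106], [a194, a42, a127], (M a48 (F (T t551 (L l137 (L l234 (T t585 (L l28 (L l234 (T t6454 (L l28 (L l234 (T t6479 N))))))))))))⟩
def e0_63_106__194_42_76 : Ent 4 := ⟨[a0, a63, a106], [a194, a42, a128], (M a48 (F (L l234 (T t585 (L l28 (L l234 (T t579 (L l192 (L l220 (T t6480 (L l54 (L l160 (L l228 (T t6481 N))))))))))))))⟩
def e0_63_106__194_42_77 : Ent 4 := ⟨[a0, a63, a106], [a194, a42, a129], (M a48 (F (L l234 (T t304 (L l217 (T t551 (L l28 (L l234 (T t579 N)))))))))⟩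
def e0_63_106__194_42_78 : Ent 4 := ⟨[a0, a63, a106], [a194, a42, a130], (M a48 (L l306 (F (T t578 (L l28 (L l234 (T t579 (T t551 (K a2 (M a66 (L l66 (F (L l152 (T t6460 (L l28 (L l234 (T t579 (K a22 (M a62 (F (T t578 (L l11 (T t602 N))))) (K a62 (M a22 (F (T t578 (L l152 (L l432 (T t6460 (L l28 (L l234 (T t579 N))))))))) N)))))))))) (K a66 (M a2 (F (T t578 (L l486 (T t339 N))))) N))))))))))⟩
def e0_63_106__194_42_79 : Ent 4 := ⟨[a0, a63, a106], [a194, a42, a131], (M a48 (F (T t578 (L l28 (L l234 (T t579 (L l197 (T t551 N))))))))⟩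
def e0_63_106__194_42_80 : Ent 4 := ⟨[a0, a63, a106], [a194, a42, a132], (M a48 (F (L l234 (T t304 (L l202 (T t551 (L l28 (L l234 (T t579 N)))))))))⟩
def e0_63_106__194_42_81 : Ent 4 := ⟨[a0, a63, a106], [a194, a42, a133], (M a48 (F (L l234 (T t304 (L l199 (T t551 (L l28 (L l234 (T t579 N)))))))))⟩
def e0_63_106__194_42_82 : Ent 4 := ⟨[a0, a63, a106], [a194, a42, a134], (M a48 (L l336 (F (T t578 (L l28 (L l234 (T t579 (T t551 (K a74 (M a14 (F (T t578 (L l28 (L l84 (L l234 (L l318 (T t579 (L l84 (T t551 N)))))))))) (K a14 (M a74 (F (T t578 (L l153 (T t6556 (L l28 (L l234 (T t579 N)))))))) N))))))))))⟩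
def e0_63_106__194_42_83 : Ent 4 := ⟨[a0, a63, a106], [a194, a42, a135], (M a48 (F (T t578 (L l28 (L l234 (T t579 (T t551 N)))))))⟩
def e0_63_106__194_42_84 : Ent 4 := ⟨[a0, a63, a106], [a194, a42, a136], (M a48 (F (T t578 (L l28 (L l234 (T t579 (T t551 N)))))))⟩
def e0_63_106__194_42_85 : Ent 4 := ⟨[a0, a63, a106], [a194, a42, a137], (M a48 (F (T t578 (L l28 (L l234 (T t579 (T t551 N)))))))⟩
def e0_63_106__194_42_86 : Ent 4 := ⟨[a0, a63, a106], [a194, a42, a138], (M a48 (F (T t578 (L l28 (L l234 (L l318 (T t579 (T t551 N))))))))⟩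
def e0_63_106__194_42_87 : Ent 4 := ⟨[a0, a63, a106], [a194, a42, a139], (M a48 (F (T t2348 (L l28 (L l234 (T t579 (T t551 N)))))))⟩
def e0_63_106__194_42_88 : Ent 4 := ⟨[a0, a63, a106], [a194, a42, a140], (M a48 (F (T t578 (L l28 (L l234 (T t579 (L l222 (T t551 N))))))))⟩
def e0_63_106__194_42_89 : Ent 4 := ⟨[a0, a63, a106], [a194, a42, a141], (M a48 (F (T t578 (L l28 (L l234 (T t579 (T t551 N)))))))⟩
def e0_63_106__194_42_90 : Ent 4 := ⟨[a0, a63, a106], [a194, a42, a142], (M a48 (F (T t2348 (L l28 (L l234 (T t579 (T t551 N)))))))⟩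
def e0_63_106__194_42_91 : Ent 4 := ⟨[a0, a63, a106], [a194, a42, a143], (M a48 (F (T t2348 (L l28 (L l234 (T t579 (L l28 (T t6462 N))))))))⟩
def e0_63_106__194_42_92 : Ent 4 := ⟨[a0, a63, a106], [a194, a42, a148], (M a48 (F (L l234 (T t585 (L l163 (T t551 (L l28 (L l234 (T t579 N)))))))))⟩
def e0_63_106__194_42_93 : Ent 4 := ⟨[a0, a63, a106], [a194, a42, a149], (M a243 (F (L l202 (T t6531 (L l202 (L l347 (T t6561 (L l26 (L l202 (L l371 (T t6560 (L l26 (L l202 (L l220 (L l371 (T t6562 (K a132 (M a166 (F (T t6563 (L l26 (L l156 (L l220 (L l310 (L l371 (T t6564 (L l156 (L l220 (T t6565 N)))))))))))) (K a72 (M a170 (F (L l270 (T t6566 (L l347 (L l495 (T t6567 N))))))) (K a89 (M a240 (L l371 (F (T t6568 (L l91 (T t6569 (L l199 (L l336 (T t4781 (K a209 (M a29 (F (T t6568 (L l26 (L l95 (T t6570 N)))))) (K a29 (M a209 (F (T t6568 (L l15 (L l95 (T t8042 N)))))) N))))))))))) (K a166 (M a89 (L l202 (F (T t6536 (L l178 (T t6572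 (K a132 (Fr a183 a123 l445 (V t6572)) (K a183 (M a132 (F (L l178 (T t6572 (L l56 (L l228 (L l495 (T t6723 (L l220 (L l228 (L l458 (T t6724 N)))))))))))) N)))))))) (K a183 (M a166 (F (L l371 (T t8043 (L l421 (T t6963 (L l26 (L l220 (L l371 (T t6564 (L l220 (T t6565 N)))))))))))) (K a123 (M a48 (F (T t6968 (L l234 (L l270 (L l491 (T t6577 (L l28 (L l234 (L l491 (T t579 N))))))))))) N))))))))))))))))))))))⟩
def e0_63_106__194_42_94 : Ent 4 := ⟨[a0, a63, a106], [a194, a42, a150], (M a48 (F (L l234 (T t304 (L l163 (T t551 (L l28 (L l234 (T t579 N)))))))))⟩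
def e0_63_106__194_42_95 : Ent 4 := ⟨[a0, a63, a106], [a194, a42, a151], (M a48 (F (L l234 (T t304 (L l163 (T t551 (L l28 (L l234 (T t579 N)))))))))⟩
def e0_63_106__194_42_96 : Ent 4 := ⟨[a0, a63, a106], [a194, a42, a152], (M a48 (F (L l234 (T t304 (L l222 (T t551 (L l28 (L l234 (T t579 N)))))))))⟩
def e0_63_106__194_42_97 : Ent 4 := ⟨[a0, a63, a106], [a194, a42, a153], (M a48 (F (L l234 (T t304 (L l167 (T t551 (L l28 (L l234 (T t579 N)))))))))⟩
def e0_63_106__194_42_98 : Ent 4 := ⟨[a0, a63, a106], [a194, a42, a154], (M a240 (F (L l228 (T t4786 (L l170 (L l368 (L l512 (T t817 (L l336 (T t4781 N))))))))))⟩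
def e0_63_106__194_42_99 : Ent 4 := ⟨[a0, a63, a106], [a194, a42, a155], (M a48 (F (T t2348 (L l28 (L l234 (L l367 (T t579 (T t551 N))))))))⟩
def e0_63_106__194_42_100 : Ent 4 := ⟨[a0, a63, a106], [a194, a42, a156], (M a48 (F (L l234 (T t304 (T t551 (L l28 (L l234 (T t579 N))))))))⟩
def e0_63_106__194_42_101 : Ent 4 := ⟨[a0, a63, a106], [a194, a42, a157], (M a48 (F (L l234 (T t304 (L l167 (T t551 (L l28 (L l234 (T t579 N)))))))))⟩
def e0_63_106__194_42_102 : Ent 4 := ⟨[a0, a63, a106], [a194, a42, a158], (M a48 (F (T t2348 (L l28 (L l234 (L l362 (T t579 (T t551 N))))))))⟩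
def e0_63_106__194_42_103 : Ent 4 := ⟨[a0, a63, a106], [a194, a42, a159], (M a240 (F (L l228 (T t4786 (L l170 (T t817 (L l336 (L l361 (T t4781 N)))))))))⟩
def e0_63_106__194_42_104 : Ent 4 := ⟨[a0, a63, a106], [a194, a42, a168], (M a48 (F (T t578 (L l28 (L l234 (L l400 (T t579 (T t551 N))))))))⟩
def e0_63_106__194_42_105 : Ent 4 := ⟨[a0, a63, a106], [a194, a42, a169], (M a48 (F (L l234 (T t304 (L l217 (T t551 (L l28 (L l234 (T t579 N)))))))))⟩
def e0_63_106__194_42_106 : Ent 4 := ⟨[a0, a63, a106], [a194, a42, a170], (M a48 (F (L l234 (T t304 (L l220 (T t551 (L l28 (L l206 (L l220 (L l234 (L l404 (T t552 (L l28 (L l206 (L l234 (L l404 (T t553 N)))))))))))))))))⟩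
def e0_63_106__194_42_107 : Ent 4 := ⟨[a0, a63, a106], [a194, a42, a171], (M a48 (F (T t578 (L l28 (L l234 (T t579 (T t551 N)))))))⟩
def e0_63_106__194_42_108 : Ent 4 := ⟨[a0, a63, a106], [a194, a42, a172], (M a48 (F (T t578 (L l28 (L l234 (T t579 (T t551 N)))))))⟩
def e0_63_106__194_42_109 : Ent 4 := ⟨[a0, a63, a106], [a194, a42, a173], (M a48 (F (T t578 (L l28 (L l234 (T t579 (T t551 N)))))))⟩
def e0_63_106__194_42_110 : Ent 4 := ⟨[a0, a63, a106], [a194, a42, a174], (M a48 (F (T t578 (L l28 (L l234 (T t579 (T t551 N)))))))⟩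
def e0_63_106__194_42_111 : Ent 4 := ⟨[a0, a63, a106], [a194, a42, a175], (M a48 (F (L l397 (T t578 (T t551 (L l28 (L l234 (T t579 N))))))))⟩
def e0_63_106__194_42_112 : Ent 4 := ⟨[a0, a63, a106], [a194, a42, a188], (M a48 (F (T t578 (L l28 (L l234 (T t579 (L l186 (T t551 N))))))))⟩
def e0_63_106__194_42_113 : Ent 4 := ⟨[a0, a63, a106], [a194, a42, a189], (M a48 (F (L l234 (T t304 (L l217 (T t551 (L l28 (L l234 (T t579 N)))))))))⟩
def e0_63_106__194_42_114 : Ent 4 := ⟨[a0, a63, a106], [a194, a42, a190], (M a48 (F (T t578 (L l28 (L l234 (T t579 (T t551 N)))))))⟩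
def e0_63_106__194_42_115 : Ent 4 := ⟨[a0, a63, a106], [a194, a42, a191], (M a48 (F (L l234 (T t585 (L l190 (L l220 (T t551 (L l28 (L l234 (T t6498 (L l28 (L l234 (T t6499 N)))))))))))))⟩
def e0_63_106__194_42_116 : Ent 4 := ⟨[a0, a63, a106], [a194, a42, a192], (M a195 (F (L l306 (L l514 (T t6811 (L l292 (L l514 (T t8017 (L l296 (L l306 (L l514 (T t8044 (L l66 (L l514 (T t8045 (L l306 (L l514 (T t8019 (K a148 (M a48 (L l514 (F (L l272 (T t5633 (L l234 (L l236 (T t8028 (K a104 (M a60 (F (L l272 (T t5633 (L l56 (L l489 (L l490 (T t42 N)))))))) (K a60 (M a104 (F (T t8029 (L l272 (L l446 (T t5633 N)))))) N)))))))))) (K a104 (M a243 (L l514 (F (T t8046 (L l306 (L l484 (T t8031 (L l128 (L l140 (L l334 (T t6531 (K a148 (M a60 (F (T t8047 (L l296 (T t4392 N))))) (K a60 (M a148 (F (T t8047 (L l34 (L l306 (L l484 (T t8031 (L l128 (L l140 (L l334 (T t6531 N))))))))))) N))))))))))))) (K a60 (M a48 (L l514 (F (L l28 (T t5623 (L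 l234 (L l236 (T t8028 (K a148 (M a104 (F (T t8029 (L l272 (L l446 (T t5633 N)))))) (K a104 (M a148 (F (L l506 (T t8030 (L l272 (L l446 (T t5633 (L l28 (L l140 (L l234 (L l236 (T t579 N)))))))))))) N)))))))))) (K a85 (M a48 (F (L l28 (L l272 (T t4659 (L l123 (L l234 (L l236 (L l514 (T t7973 N)))))))))) (K a105 (M a243 (F (L l339 (T t8032 (L l306 (L l484 (T t8031 (L l334 (T t6531 N))))))))) (K a151 (M a85 (F (T t3095 (L l306 (L l514 (T t2232 (L l306 (T t8048 N)))))))) (K a107 (M a48 (F (L l272 (T t5633 (L l28 (L l234 (L l236 (T t579 (L l234 (L l236 (L l514 (T t8049 N)))))))))))) N)))))))))))))))))))))))))⟩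
def e0_63_106__194_42_117 : Ent 4 := ⟨[a0, a63, a106], [a194, a42, a193], (M a48 (L l228 (F (L l234 (T t304 (L l515 (T t551 (L l28 (L l234 (T t579 (K a192 (M a195 (F (L l272 (L l486 (T t5818 (L l234 (L l236 (L l514 (T t7973 N))))))))) (K a195 (Fr a192 a149 l519 (V t6558)) N))))))))))))⟩
def e0_63_106__194_42_118 : Ent 4 := ⟨[a0, a63, a106], [a194, a42, a195], (M a240 (L l228 (F (L l336 (T t6525 (L l488 (T t817 (L l336 (T t4781 (K a192 (M a193 (F (L l336 (L l339 (T t4781 (L l234 (L l236 (L l336 (L l339 (T t6500 (L l295 (L l296 (L l336 (L l339 (T t6501 (L l28 (L l336 (L l339 (T t6502 (L l336 (L l339 (T t6503 (K a133 (M a90 (L l339 (F (T t4788 (L l295 (L l296 (T t2742 (K a74 (Fr a15 a165 l483 (V t8050)) (K a15 (Fr a74 a122 l130 (V t6506)) N))))))))) (K a85 (M a12 (F (L l292 (L l297 (T t2745 (L l91 (L l270 (L l272 (L l336 (L l339 (T t8051 N))))))))))) (K a181 (M a12 (F (T t2747 (L l56 (L l270 (L l272 (T t2415 (L l270 (L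 l272 (T t6512 N)))))))))) (K a134 (M a12 (L l336 (F (L l314 (T t2747 (L l270 (L l272 (T t8052 (K a74 (M a14 (L l339 (F (T t734 (L l56 (L l292 (L l297 (T t8053 (K a133 (Fr a15 a13 l3 (V t7325)) (K a15 (M a133 (L l337 (F (L l56 (T t8054 (L l26 (L l63 (L l78 (L l272 (L l518 (T t8055 (K a135 (M a75 (F (L l270 (L l272 (T t8056 (L l292 (L l297 (L l471 (T t2745 N))))))))) (K a75 (M a135 (L l78 (F (L l270 (L l272 (T t8056 (L l56 (L l292 (L l297 (L l471 (T t8053 (K a72 (Fr a73 a13 l335 (V t2745)) (K a73 (M a72 (F (L l131 (T t8057 (L l292 (L l297 (L l314 (L l471 (T t5434 N))))))))) N))))))))))))) N))))))))))))) N)))))))))) (K a14 (M a74 (F (T t6522 (L l56 (L l292 (L l297 (T t8053 N))))))) N)))))))))) (K a74 (M a12 (L l336 (L l339 (F (T t2747 (L l56 (L l84 (L l270 (L l272 (T t2415 (L l270 (L l272 (T t6512 (K a133 (M a15 (L l336 (F (T t7324 (L l56 (L l292 (L l297 (T t8053 (K a134 (Fr a14 a13 l3 (V t7325)) (K a14 (M a134 (F (T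 t7325 (L l292 (L l297 (T t2745 N)))))) N)))))))))) (K a134 (M a14 (L l339 (F (T t734 (L l56 (L l292 (L l297 (T t8053 (K a133 (Fr a15 a13 l3 (V t7325)) (K a15 (M a133 (L l337 (F (L l56 (T t8054 (L l26 (L l63 (L l78 (L l272 (L l518 (T t8055 (K a135 (M a75 (F (L l270 (L l272 (T t8056 (L l292 (L l297 (L l471 (T t2745 N))))))))) (K a75 (M a135 (L l78 (F (L l270 (L l272 (T t8056 (L l56 (L l292 (L l297 (L l471 (T t8053 (K a72 (Fr a73 a13 l335 (V t2745)) (K a73 (M a72 (F (L l131 (T t8057 (L l292 (L l297 (L l314 (L l471 (T t5434 N))))))))) N))))))))))))) N))))))))))))) N)))))))))) (K a14 (M a134 (L l339 (F (T t2747 (L l56 (L l84 (L l270 (L l272 (T t2415 (L l270 (L l272 (T t6512 (K a133 (M a15 (F (T t7325 (L l292 (L l297 (T t2745 N)))))) (K a15 (M a133 (L l337 (F (T t3358 (L l26 (L l60 (L l63 (L l78 (L l518 (T t8058 (K a135 (M a75 (F (T t2747 (L l26 (L l60 (L l203 (L l518 (T t8059 N)))))))) (K a75 (Fr a135 a132 l153 (V t8053))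 N)))))))))))) N)))))))))))))) (K a15 (M a133 (L l336 (L l337 (F (T t2747 (L l26 (L l63 (L l78 (L l518 (T t8058 (K a134 (M a14 (L l337 (F (L l56 (T t8054 (L l26 (L l63 (L l78 (L l272 (L l518 (T t8055 (K a135 (M a75 (F (L l270 (L l272 (T t8056 (L l292 (L l297 (L l471 (T t2745 N))))))))) (K a75 (M a135 (L l78 (F (L l270 (L l272 (T t8056 (L l56 (L l292 (L l297 (L l471 (T t8053 (K a72 (Fr a73 a13 l335 (V t2745)) (K a73 (M a72 (F (L l131 (T t8057 (L l292 (L l297 (L l314 (L l471 (T t5434 N))))))))) N))))))))))))) N))))))))))))) (K a14 (M a134 (L l337 (F (T t3358 (L l26 (L l60 (L l63 (L l78 (L l518 (T t8058 (K a135 (M a75 (F (T t2747 (L l26 (L l60 (L l203 (L l518 (T t8059 N)))))))) (K a75 (Fr a135 a132 l153 (V t8053)) N)))))))))))) (K a135 (M a75 (L l336 (F (T t2747 (L l26 (L l63 (L l518 (T t8058 (K a134 (M a14 (F (L l270 (L l272 (T t8056 (L l292 (L l297 (L l471 (T t2745 N))))))))) (K a14 (M a134 (F (T t2747 (L l26 (L l60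 (L l203 (L l518 (T t8059 N)))))))) N)))))))))) (K a75 (M a135 (L l78 (L l336 (F (L l518 (T t8060 (L l56 (L l84 (L l270 (L l272 (T t2415 (K a72 (Fr a73 a13 l335 (V t8053)) (K a73 (M a72 (L l336 (F (L l131 (T t8057 (L l292 (L l297 (L l471 (T t2745 (K a134 (M a14 (F (L l131 (T t8057 (L l292 (L l297 (L l314 (L l471 (T t5434 N))))))))) (K a14 (Fr a134 a132 l153 (V t8061)) N))))))))))) (K a134 (M a14 (L l78 (F (L l270 (L l272 (T t8056 (L l56 (L l292 (L l297 (L l471 (T t8053 (K a72 (Fr a73 a13 l335 (V t2745)) (K a73 (M a72 (F (L l131 (T t8057 (L l292 (L l297 (L l314 (L l471 (T t5434 N))))))))) N))))))))))))) (K a14 (Fr a134 a132 l153 (V t8053)) N))))))))))))))) N)))))))))))))) N))))))))))))))))) (K a90 (M a241 (F (L l270 (L l480 (T t8062 (L l133 (L l339 (L l518 (T t8063 N))))))))) (K a122 (M a12 (F (T t2747 (L l56 (L l270 (L l272 (T t2415 (L l270 (L l272 (T t6512 N)))))))))) (K a14 (M a12 (L l336 (F (T t2747 (L l56 (L l270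 (L l272 (T t2415 (L l270 (L l272 (T t8064 (K a134 (M a74 (F (T t6522 (L l56 (L l292 (L l297 (T t8053 N))))))) (K a74 (M a134 (L l339 (F (T t2747 (L l56 (L l84 (L l270 (L l272 (T t2415 (L l270 (L l272 (T t6512 (K a133 (M a15 (F (T t7325 (L l292 (L l297 (T t2745 N)))))) (K a15 (M a133 (L l337 (F (T t3358 (L l26 (L l60 (L l63 (L l78 (L l518 (T t8058 (K a135 (M a75 (F (T t2747 (L l26 (L l60 (L l203 (L l518 (T t8059 N)))))))) (K a75 (Fr a135 a132 l153 (V t8053)) N)))))))))))) N)))))))))))))) N))))))))))))) (K a15 (M a12 (L l337 (L l339 (F (T t2747 (L l270 (L l272 (L l336 (T t8065 (K a133 (M a74 (L l337 (F (T t6522 (L l56 (L l292 (L l297 (L l471 (T t8053 (K a135 (M a75 (L l153 (F (T t6522 (L l292 (L l297 (L l471 (T t2745 (K a132 (M a134 (F (T t6522 (L l292 (L l297 (L l471 (T t2406 N))))))) (K a134 (M a132 (F (T t6522 (L l270 (L l272 (T t8066 N)))))) N)))))))))) (K a75 (M a135 (F (T t6522 (L l292 (L l297 (L l471 (T t2406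 N))))))) N))))))))))) (K a74 (M a133 (L l336 (L l337 (F (T t2747 (L l26 (L l63 (L l78 (L l518 (T t8058 (K a134 (M a14 (L l337 (F (L l56 (T t8054 (L l26 (L l63 (L l78 (L l272 (L l518 (T t8055 (K a135 (M a75 (F (L l270 (L l272 (T t8056 (L l292 (L l297 (L l471 (T t2745 N))))))))) (K a75 (M a135 (L l78 (F (L l270 (L l272 (T t8056 (L l56 (L l292 (L l297 (L l471 (T t8053 (K a72 (Fr a73 a13 l335 (V t2745)) (K a73 (M a72 (F (L l131 (T t8057 (L l292 (L l297 (L l314 (L l471 (T t5434 N))))))))) N))))))))))))) N))))))))))))) (K a14 (M a134 (L l337 (F (T t3358 (L l26 (L l60 (L l63 (L l78 (L l518 (T t8058 (K a135 (M a75 (F (T t2747 (L l26 (L l60 (L l203 (L l518 (T t8059 N)))))))) (K a75 (Fr a135 a132 l153 (V t8053)) N)))))))))))) (K a135 (M a75 (L l336 (F (T t2747 (L l26 (L l63 (L l518 (T t8058 (K a134 (M a14 (F (L l270 (L l272 (T t8056 (L l292 (L l297 (L l471 (T t2745 N))))))))) (K a14 (M a134 (F (T t2747 (L l26 (L l60 (L l203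 (L l518 (T t8059 N)))))))) N)))))))))) (K a75 (M a135 (L l78 (L l336 (F (L l518 (T t8060 (L l56 (L l84 (L l270 (L l272 (T t2415 (K a72 (Fr a73 a13 l335 (V t8053)) (K a73 (M a72 (L l336 (F (L l131 (T t8057 (L l292 (L l297 (L l471 (T t2745 (K a134 (M a14 (F (L l131 (T t8057 (L l292 (L l297 (L l314 (L l471 (T t5434 N))))))))) (K a14 (Fr a134 a132 l153 (V t8061)) N))))))))))) (K a134 (M a14 (L l78 (F (L l270 (L l272 (T t8056 (L l56 (L l292 (L l297 (L l471 (T t8053 (K a72 (Fr a73 a13 l335 (V t2745)) (K a73 (M a72 (F (L l131 (T t8057 (L l292 (L l297 (L l314 (L l471 (T t5434 N))))))))) N))))))))))))) (K a14 (Fr a134 a132 l153 (V t8053)) N))))))))))))))) N)))))))))))))) (K a135 (M a75 (L l339 (F (T t2747 (L l270 (L l272 (L l336 (T t8065 (K a133 (M a74 (L l153 (F (T t6522 (L l292 (L l297 (L l471 (T t2745 (K a132 (M a134 (F (T t6522 (L l292 (L l297 (L l471 (T t2406 N))))))) (K a134 (M a132 (F (T t6522 (L l270 (L l272 (T t8066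 N)))))) N)))))))))) (K a74 (M a133 (L l336 (F (T t2747 (L l26 (L l63 (L l518 (T t8058 (K a134 (M a14 (F (L l270 (L l272 (T t8056 (L l292 (L l297 (L l471 (T t2745 N))))))))) (K a14 (M a134 (F (T t2747 (L l26 (L l60 (L l203 (L l518 (T t8059 N)))))))) N)))))))))) N)))))))))) (K a75 (M a135 (L l339 (F (T t2747 (L l270 (L l272 (L l336 (T t8065 (K a133 (M a74 (F (T t6522 (L l292 (L l297 (L l471 (T t2406 N))))))) (K a74 (M a133 (L l78 (L l336 (F (L l518 (T t8060 (L l56 (L l84 (L l270 (L l272 (T t2415 (K a72 (Fr a73 a13 l335 (V t8053)) (K a73 (M a72 (L l336 (F (L l131 (T t8057 (L l292 (L l297 (L l471 (T t2745 (K a134 (M a14 (F (L l131 (T t8057 (L l292 (L l297 (L l314 (L l471 (T t5434 N))))))))) (K a14 (Fr a134 a132 l153 (V t8061)) N))))))))))) (K a134 (M a14 (L l78 (F (L l270 (L l272 (T t8056 (L l56 (L l292 (L l297 (L l471 (T t8053 (K a72 (Fr a73 a13 l335 (V t2745)) (K a73 (M a72 (F (L l131 (T t8057 (L l292 (L l297 (L l314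 (L l471 (T t5434 N))))))))) N))))))))))))) (K a14 (Fr a134 a132 l153 (V t8053)) N))))))))))))))) N)))))))))) N))))))))))))) N))))))))))))))))))))))))))))))) (K a193 (Fr a192 a149 l519 (V t8067)) N)))))))))))⟩
def e0_63_106__194_42_119 : Ent 4 := ⟨[a0, a63, a106], [a194, a42, a196], (M a48 (F (L l234 (T t304 (L l495 (T t551 (L l28 (L l234 (T t579 N)))))))))⟩
def e0_63_106__194_42_120 : Ent 4 := ⟨[a0, a63, a106], [a194, a42, a197], (M a240 (F (L l28 (L l336 (T t6587 (L l491 (T t6588 (L l336 (T t4781 N)))))))))⟩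
def e0_63_106__194_42_121 : Ent 4 := ⟨[a0, a63, a106], [a194, a42, a198], (M a240 (L l234 (F (L l228 (T t4786 (T t817 (L l336 (T t4781 (K a202 (M a206 (F (L l28 (T t815 (L l318 (L l336 (T t4781 (T t817 N)))))))) (K a206 (M a202 (F (L l28 (T t815 (L l54 (L l229 (T t8068 (L l510 (T t8069 N))))))))) N))))))))))⟩
def e0_63_106__194_42_122 : Ent 4 := ⟨[a0, a63, a106], [a194, a42, a199], (M a48 (F (T t2348 (L l28 (L l234 (T t579 (T t551 N)))))))⟩
def e0_63_106__194_42_123 : Ent 4 := ⟨[a0, a63, a106], [a194, a42, a200], (M a48 (F (T t578 (L l28 (L l230 (L l234 (T t579 (T t551 N))))))))⟩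
def e0_63_106__194_42_124 : Ent 4 := ⟨[a0, a63, a106], [a194, a42, a201], (M a48 (F (T t578 (L l28 (L l230 (L l234 (T t579 (T t551 N))))))))⟩
def e0_63_106__194_42_125 : Ent 4 := ⟨[a0, a63, a106], [a194, a42, a202], (M a240 (L l234 (F (L l28 (T t815 (L l318 (L l336 (T t4781 (T t817 (K a198 (M a206 (F (L l28 (T t815 (L l318 (L l336 (T t4781 (T t817 N)))))))) (K a206 (M a198 (F (L l28 (T t815 (L l318 (L l336 (T t4781 (T t817 N)))))))) N)))))))))))⟩
def e0_63_106__194_42_126 : Ent 4 := ⟨[a0, a63, a106], [a194, a42, a203], (M a48 (F (T t2348 (L l28 (L l230 (L l234 (T t579 (T t551 N))))))))⟩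
def e0_63_106__194_42_127 : Ent 4 := ⟨[a0, a63, a106], [a194, a42, a204], (M a48 (F (T t2348 (L l28 (L l234 (T t579 (L l298 (T t551 N))))))))⟩
def e0_63_106__194_42_128 : Ent 4 := ⟨[a0, a63, a106], [a194, a42, a205], (M a48 (F (T t2348 (L l28 (L l234 (T t579 (T t551 N)))))))⟩
def e0_63_106__194_42_129 : Ent 4 := ⟨[a0, a63, a106], [a194, a42, a206], (M a240 (L l234 (F (L l228 (T t4786 (T t817 (L l336 (T t4781 (K a198 (M a202 (F (L l28 (T t815 (L l54 (L l229 (T t8068 (L l510 (T t8069 N))))))))) (K a202 (M a198 (F (L l28 (T t815 (L l318 (L l336 (T t4781 (T t817 N)))))))) N))))))))))⟩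
def e0_63_106__194_42_130 : Ent 4 := ⟨[a0, a63, a106], [a194, a42, a207], (M a240 (F (L l28 (T t6683 (L l336 (T t4781 (L l512 (T t817 N))))))))⟩
def e0_63_106__194_42_131 : Ent 4 := ⟨[a0, a63, a106], [a194, a42, a212], (M a48 (F (L l234 (T t304 (L l351 (T t551 (L l28 (L l234 (T t579 N)))))))))⟩
def e0_63_106__194_42_132 : Ent 4 := ⟨[a0, a63, a106], [a194, a42, a213], (M a48 (F (L l234 (T t304 (L l347 (T t551 (L l28 (L l234 (L l246 (T t579 N))))))))))⟩
def e0_63_106__194_42_133 : Ent 4 := ⟨[a0, a63, a106], [a194, a42, a214], (M a48 (L l294 (F (T t578 (L l28 (L l234 (T t579 (T t551 (K a234 (M a254 (F (T t578 (L l28 (L l234 (L l282 (T t579 (T t551 N)))))))) (K a254 (M a234 (F (T t6150 (L l234 (T t304 (L l28 (L l234 (T t579 N)))))))) N))))))))))⟩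
def e0_63_106__194_42_134 : Ent 4 := ⟨[a0, a63, a106], [a194, a42, a215], (M a48 (F (T t578 (L l28 (L l234 (L l245 (T t579 (T t551 N))))))))⟩
def e0_63_106__194_42_135 : Ent 4 := ⟨[a0, a63, a106], [a194, a42, a216], (M a48 (F (T t578 (L l28 (L l234 (T t579 (L l298 (T t551 N))))))))⟩
def e0_63_106__194_42_136 : Ent 4 := ⟨[a0, a63, a106], [a194, a42, a217], (M a48 (F (T t578 (L l28 (L l234 (T t579 (T t551 N)))))))⟩
def e0_63_106__194_42_137 : Ent 4 := ⟨[a0, a63, a106], [a194, a42, a218], (M a48 (F (T t2348 (L l28 (L l234 (L l246 (L l282 (T t579 (L l303 (T t551 N))))))))))⟩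
def e0_63_106__194_42_138 : Ent 4 := ⟨[a0, a63, a106], [a194, a42, a219], (M a48 (F (T t2348 (L l28 (L l234 (L l245 (T t579 (T t551 N))))))))⟩
def e0_63_106__194_42_139 : Ent 4 := ⟨[a0, a63, a106], [a194, a42, a220], (M a48 (F (T t578 (L l28 (L l234 (L l241 (T t579 (T t551 N))))))))⟩
def e0_63_106__194_42_140 : Ent 4 := ⟨[a0, a63, a106], [a194, a42, a221], (M a48 (F (T t578 (L l28 (L l234 (L l241 (T t579 (T t551 N))))))))⟩
def e0_63_106__194_42_141 : Ent 4 := ⟨[a0, a63, a106], [a194, a42, a222], (M a48 (F (T t2348 (L l28 (L l234 (L l241 (T t579 (T t551 N))))))))⟩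
def e0_63_106__194_42_142 : Ent 4 := ⟨[a0, a63, a106], [a194, a42, a223], (M a240 (F (L l228 (T t4786 (L l368 (T t817 (L l336 (L l361 (T t4781 N)))))))))⟩
def e0_63_106__194_42_143 : Ent 4 := ⟨[a0, a63, a106], [a194, a42, a232], (M a48 (F (T t578 (L l28 (L l234 (T t579 (T t551 N)))))))⟩
def e0_63_106__194_42_144 : Ent 4 := ⟨[a0, a63, a106], [a194, a42, a233], (M a48 (F (T t578 (L l28 (L l234 (T t579 (T t551 N)))))))⟩
def e0_63_106__194_42_145 : Ent 4 := ⟨[a0, a63, a106], [a194, a42, a234], (M a48 (L l294 (F (T t578 (L l28 (L l234 (L l282 (T t579 (T t551 (K a214 (M a254 (F (T t578 (L l28 (L l234 (L l282 (T t579 (T t551 N)))))))) (K a254 (M a214 (F (T t578 (L l28 (L l234 (L l282 (T t579 (T t551 N)))))))) N)))))))))))⟩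
def e0_63_106__194_42_146 : Ent 4 := ⟨[a0, a63, a106], [a194, a42, a235], (M a48 (F (T t578 (L l28 (L l234 (T t579 (T t551 N)))))))⟩
def e0_63_106__194_42_147 : Ent 4 := ⟨[a0, a63, a106], [a194, a42, a236], (M a48 (F (T t578 (L l28 (L l234 (L l400 (T t579 (T t551 N))))))))⟩
def e0_63_106__194_42_148 : Ent 4 := ⟨[a0, a63, a106], [a194, a42, a237], (M a48 (F (T t2348 (L l28 (L l234 (T t579 (T t551 N)))))))⟩
def e0_63_106__194_42_149 : Ent 4 := ⟨[a0, a63, a106], [a194, a42, a238], (M a48 (F (T t578 (L l28 (L l234 (T t579 (T t551 N)))))))⟩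
def e0_63_106__194_42_150 : Ent 4 := ⟨[a0, a63, a106], [a194, a42, a239], (M a48 (F (T t551 (L l228 (L l234 (T t309 (L l28 (L l234 (L l289 (L l404 (T t579 N)))))))))))⟩
def e0_63_106__194_42_151 : Ent 4 := ⟨[a0, a63, a106], [a194, a42, a252], (M a48 (F (T t2348 (L l28 (L l234 (T t579 (L l262 (T t551 N))))))))⟩
def e0_63_106__194_42_152 : Ent 4 := ⟨[a0, a63, a106], [a194, a42, a253], (M a48 (F (T t578 (L l28 (L l234 (T t579 (T t551 N)))))))⟩
def e0_63_106__194_42_153 : Ent 4 := ⟨[a0, a63, a106], [a194, a42, a254], (M a48 (L l294 (F (T t578 (L l28 (L l234 (T t579 (T t551 (K a214 (M a234 (F (T t6150 (L l234 (T t304 (L l28 (L l234 (T t579 N)))))))) (K a234 (M a214 (F (T t578 (L l28 (L l234 (L l282 (T t579 (T t551 N)))))))) N))))))))))⟩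
def e0_63_106__194_42_154 : Ent 4 := ⟨[a0, a63, a106], [a194, a42, a255], (M a48 (F (T t2348 (L l266 (T t551 (L l28 (L l234 (L l469 (T t6526 (L l28 (L l234 (L l289 (T t6527 N)))))))))))))⟩
def b0_63_106__194_42 : Blk 4 := ⟨[0, 63, 106], [194, 42], [1, 2, 3, 4, 5, 6, 7, 8, 9, 10, 11, 12, 13, 14, 15, 20, 21, 22, 23, 24, 25, 26, 27, 28, 29, 30, 31, 40, 41, 43, 44, 45, 46, 47, 60, 61, 62, 64, 65, 66, 67, 68, 69, 70, 71, 72, 73, 74, 75, 76, 77, 78, 79, 84, 85, 86, 87, 88, 89, 90, 91, 92, 93, 94, 95, 104, 105, 107, 108, 109, 110, 111, 124, 125, 126, 127, 128, 129, 130, 131, 132, 133, 134, 135, 136, 137, 138, 139, 140, 141, 142, 143, 148, 149, 150, 151, 152, 153, 154, 155, 156, 157, 158, 159, 168, 169, 170, 171, 172, 173, 174, 175, 188, 189, 190, 191, 192, 193, 195, 196, 197, 198, 199, 200, 201, 202, 203, 204, 205, 206, 207, 212, 213, 214, 215, 216, 217, 218, 219, 220, 221, 222, 223, 232, 233, 234, 235, 236, 237, 238, 239,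 252, 253, 254, 255], [e0_63_106__194_42_0, e0_63_106__194_42_1, e0_63_106__194_42_2, e0_63_106__194_42_3, e0_63_106__194_42_4, e0_63_106__194_42_5, e0_63_106__194_42_6, e0_63_106__194_42_7, e0_63_106__194_42_8, e0_63_106__194_42_9, e0_63_106__194_42_10, e0_63_106__194_42_11, e0_63_106__194_42_12, e0_63_106__194_42_13, e0_63_106__194_42_14, e0_63_106__194_42_15, e0_63_106__194_42_16, e0_63_106__194_42_17, e0_63_106__194_42_18, e0_63_106__194_42_19, e0_63_106__194_42_20, e0_63_106__194_42_21, e0_63_106__194_42_22, e0_63_106__194_42_23, e0_63_106__194_42_24, e0_63_106__194_42_25, e0_63_106__194_42_26, e0_63_106__194_42_27, e0_63_106__194_42_28, e0_63_106__194_42_29, e0_63_106__194_42_30, e0_63_106__194_42_31, e0_63_106__194_42_32, e0_63_106__194_42_33, e0_63_106__194_42_34, e0_63_106__194_42_35, e0_63_106__194_42_36, e0_63_106__194_42_37, e0_63_106__194_42_38, e0_63_106__194_42_39, e0_63_106__194_42_40, e0_63_106__194_42_41,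 e0_63_106__194_42_42, e0_63_106__194_42_43, e0_63_106__194_42_44, e0_63_106__194_42_45, e0_63_106__194_42_46, e0_63_106__194_42_47, e0_63_106__194_42_48, e0_63_106__194_42_49, e0_63_106__194_42_50, e0_63_106__194_42_51, e0_63_106__194_42_52, e0_63_106__194_42_53, e0_63_106__194_42_54, e0_63_106__194_42_55, e0_63_106__194_42_56, e0_63_106__194_42_57, e0_63_106__194_42_58, e0_63_106__194_42_59, e0_63_106__194_42_60, e0_63_106__194_42_61, e0_63_106__194_42_62, e0_63_106__194_42_63, e0_63_106__194_42_64, e0_63_106__194_42_65, e0_63_106__194_42_66, e0_63_106__194_42_67, e0_63_106__194_42_68, e0_63_106__194_42_69, e0_63_106__194_42_70, e0_63_106__194_42_71, e0_63_106__194_42_72, e0_63_106__194_42_73, e0_63_106__194_42_74, e0_63_106__194_42_75, e0_63_106__194_42_76, e0_63_106__194_42_77, e0_63_106__194_42_78, e0_63_106__194_42_79, e0_63_106__194_42_80, e0_63_106__194_42_81, e0_63_106__194_42_82, e0_63_106__194_42_83, e0_63_106__194_42_84,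 e0_63_106__194_42_85, e0_63_106__194_42_86, e0_63_106__194_42_87, e0_63_106__194_42_88, e0_63_106__194_42_89, e0_63_106__194_42_90, e0_63_106__194_42_91, e0_63_106__194_42_92, e0_63_106__194_42_93, e0_63_106__194_42_94, e0_63_106__194_42_95, e0_63_106__194_42_96, e0_63_106__194_42_97, e0_63_106__194_42_98, e0_63_106__194_42_99, e0_63_106__194_42_100, e0_63_106__194_42_101, e0_63_106__194_42_102, e0_63_106__194_42_103, e0_63_106__194_42_104, e0_63_106__194_42_105, e0_63_106__194_42_106, e0_63_106__194_42_107, e0_63_106__194_42_108, e0_63_106__194_42_109, e0_63_106__194_42_110, e0_63_106__194_42_111, e0_63_106__194_42_112, e0_63_106__194_42_113, e0_63_106__194_42_114, e0_63_106__194_42_115, e0_63_106__194_42_116, e0_63_106__194_42_117, e0_63_106__194_42_118, e0_63_106__194_42_119, e0_63_106__194_42_120, e0_63_106__194_42_121, e0_63_106__194_42_122, e0_63_106__194_42_123, e0_63_106__194_42_124, e0_63_106__194_42_125,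 e0_63_106__194_42_126, e0_63_106__194_42_127, e0_63_106__194_42_128, e0_63_106__194_42_129, e0_63_106__194_42_130, e0_63_106__194_42_131, e0_63_106__194_42_132, e0_63_106__194_42_133, e0_63_106__194_42_134, e0_63_106__194_42_135, e0_63_106__194_42_136, e0_63_106__194_42_137, e0_63_106__194_42_138, e0_63_106__194_42_139, e0_63_106__194_42_140, e0_63_106__194_42_141, e0_63_106__194_42_142, e0_63_106__194_42_143, e0_63_106__194_42_144, e0_63_106__194_42_145, e0_63_106__194_42_146, e0_63_106__194_42_147, e0_63_106__194_42_148, e0_63_106__194_42_149, e0_63_106__194_42_150, e0_63_106__194_42_151, e0_63_106__194_42_152, e0_63_106__194_42_153, e0_63_106__194_42_154], by decide +kernel, by decide +kernel⟩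
def e0_63_106__195_42_0 : Ent 4 := ⟨[a0, a63, a106], [a195, a42, a1], (M a48 (F (T t585 (L l273 (T t551 (L l28 (T t579 N)))))))⟩
def e0_63_106__195_42_1 : Ent 4 := ⟨[a0, a63, a106], [a195, a42, a2], (M a48 (L l66 (F (T t585 (L l273 (T t551 (L l28 (T t579 (K a22 (M a62 (F (T t585 (L l22 (L l338 (T t3443 N)))))) (K a62 (M a22 (F (T t585 (L l273 (T t551 (L l28 (T t579 N))))))) N))))))))))⟩
def e0_63_106__195_42_2 : Ent 4 := ⟨[a0, a63, a106], [a195, a42, a3], (M a48 (L l307 (F (T t585 (L l273 (L l453 (T t551 (L l28 (T t579 (K a67 (M a131 (F (T t585 (L l76 (L l273 (L l453 (T t551 (L l28 (L l76 (T t579 N)))))))))) (K a131 (M a67 (F (T t585 (L l197 (L l273 (L l453 (T t551 (L l28 (T t579 N))))))))) N)))))))))))⟩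
def e0_63_106__195_42_3 : Ent 4 := ⟨[a0, a63, a106], [a195, a42, a4], (M a48 (F (T t585 (L l273 (T t551 (L l28 (T t579 N)))))))⟩
def e0_63_106__195_42_4 : Ent 4 := ⟨[a0, a63, a106], [a195, a42, a5], (M a48 (F (L l235 (T t578 (L l28 (L l47 (T t579 (L l273 (T t551 N)))))))))⟩
def e0_63_106__195_42_5 : Ent 4 := ⟨[a0, a63, a106], [a195, a42, a6], (M a48 (F (T t585 (L l273 (T t551 (L l28 (T t579 N)))))))⟩
def e0_63_106__195_42_6 : Ent 4 := ⟨[a0, a63, a106], [a195, a42, a7], (M a48 (F (T t585 (L l273 (T t551 (L l28 (T t579 N)))))))⟩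
def e0_63_106__195_42_7 : Ent 4 := ⟨[a0, a63, a106], [a195, a42, a8], (M a48 (L l56 (F (T t585 (L l273 (T t551 (L l28 (T t579 (K a25 (M a59 (F (T t585 (L l26 (L l316 (T t6445 N)))))) (K a59 (M a25 (F (T t585 (L l273 (T t551 (L l28 (T t579 N))))))) N))))))))))⟩
def e0_63_106__195_42_8 : Ent 4 := ⟨[a0, a63, a106], [a195, a42, a9], (M a48 (F (T t585 (L l273 (T t551 (L l28 (T t579 N)))))))⟩
def e0_63_106__195_42_9 : Ent 4 := ⟨[a0, a63, a106], [a195, a42, a10], (M a48 (L l54 (F (T t2348 (L l28 (L l318 (T t579 (L l273 (T t551 (K a26 (Fr a58 a53 l38 (V t6446)) (K a58 (M a26 (F (L l28 (T t4144 (L l273 (T t551 (L l28 (L l273 (L l426 (T t6447 (K a32 (Fr a192 a149 l519 (Fr a15 a37 l75 (Fr a47 a31 l61 (V t6528)))) N))))))))))) N)))))))))))⟩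
def e0_63_106__195_42_10 : Ent 4 := ⟨[a0, a63, a106], [a195, a42, a11], (M a48 (F (T t585 (L l273 (T t551 (L l28 (T t579 N)))))))⟩
def e0_63_106__195_42_11 : Ent 4 := ⟨[a0, a63, a106], [a195, a42, a12], (M a48 (L l338 (F (T t585 (L l273 (L l478 (T t551 (L l28 (T t579 (K a73 (M a134 (F (T t585 (L l273 (L l478 (T t551 (L l28 (T t579 N)))))))) (K a134 (M a73 (F (T t585 (L l273 (L l478 (T t551 (L l28 (T t579 N)))))))) N)))))))))))⟩
def e0_63_106__195_42_12 : Ent 4 := ⟨[a0, a63, a106], [a195, a42, a13], (M a48 (F (T t585 (L l273 (T t551 (L l28 (T t579 N)))))))⟩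
def e0_63_106__195_42_13 : Ent 4 := ⟨[a0, a63, a106], [a195, a42, a14], (M a48 (F (T t585 (L l273 (T t551 (L l28 (T t579 N)))))))⟩
def e0_63_106__195_42_14 : Ent 4 := ⟨[a0, a63, a106], [a195, a42, a15], (M a48 (L l337 (F (T t585 (L l273 (L l483 (T t551 (L l28 (T t579 (K a135 (M a75 (F (T t585 (L l273 (L l483 (T t551 (L l28 (T t579 N)))))))) (K a75 (M a135 (F (T t585 (L l273 (L l483 (T t551 (L l28 (T t579 N)))))))) N)))))))))))⟩
def e0_63_106__195_42_15 : Ent 4 := ⟨[a0, a63, a106], [a195, a42, a20], (M a48 (F (T t585 (L l273 (T t551 (L l28 (T t579 N)))))))⟩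
def e0_63_106__195_42_16 : Ent 4 := ⟨[a0, a63, a106], [a195, a42, a21], (M a48 (F (L l47 (T t585 (L l273 (L l347 (T t551 (L l28 (L l47 (T t579 N))))))))))⟩
def e0_63_106__195_42_17 : Ent 4 := ⟨[a0, a63, a106], [a195, a42, a22], (M a48 (L l66 (F (T t585 (L l273 (T t551 (L l28 (T t579 (K a2 (M a62 (F (T t585 (L l22 (L l338 (T t3443 N)))))) (K a62 (M a2 (F (T t585 (L l19 (L l28 (T t342 N)))))) N))))))))))⟩
def e0_63_106__195_42_18 : Ent 4 := ⟨[a0, a63, a106], [a195, a42, a23], (M a48 (F (T t585 (L l273 (L l351 (T t551 (L l28 (T t579 N))))))))⟩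
def e0_63_106__195_42_19 : Ent 4 := ⟨[a0, a63, a106], [a195, a42, a24], (M a48 (F (T t585 (L l273 (T t551 (L l28 (T t579 N)))))))⟩
def e0_63_106__195_42_20 : Ent 4 := ⟨[a0, a63, a106], [a195, a42, a25], (M a48 (L l56 (F (T t585 (L l273 (T t551 (L l28 (T t579 (K a8 (M a59 (F (T t585 (L l26 (L l316 (T t6445 N)))))) (K a59 (M a8 (F (T t585 (L l19 (L l28 (T t4700 N)))))) N))))))))))⟩
def e0_63_106__195_42_21 : Ent 4 := ⟨[a0, a63, a106], [a195, a42, a26], (M a48 (L l54 (F (T t585 (L l28 (T t579 (L l273 (T t551 (K a10 (Fr a58 a53 l38 (V t6446)) (K a58 (M a10 (F (L l273 (T t551 (L l235 (T t4033 (L l18 (L l354 (T t6449 (L l18 (L l273 (L l426 (T t6450 N))))))))))))) N))))))))))⟩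
def e0_63_106__195_42_22 : Ent 4 := ⟨[a0, a63, a106], [a195, a42, a27], (M a48 (F (T t585 (L l273 (T t551 (L l28 (T t579 N)))))))⟩
def e0_63_106__195_42_23 : Ent 4 := ⟨[a0, a63, a106], [a195, a42, a28], (M a48 (F (T t585 (L l273 (T t551 (L l28 (L l362 (T t579 N))))))))⟩
def e0_63_106__195_42_24 : Ent 4 := ⟨[a0, a63, a106], [a195, a42, a29], (M a48 (F (T t585 (L l273 (L l371 (T t551 (L l28 (T t579 N))))))))⟩
def e0_63_106__195_42_25 : Ent 4 := ⟨[a0, a63, a106], [a195, a42, a30], (M a48 (F (T t585 (L l273 (T t551 (L l28 (T t579 N)))))))⟩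
def e0_63_106__195_42_26 : Ent 4 := ⟨[a0, a63, a106], [a195, a42, a31], (M a48 (F (T t585 (L l273 (L l375 (T t551 (L l28 (L l361 (T t579 N)))))))))⟩
def e0_63_106__195_42_27 : Ent 4 := ⟨[a0, a63, a106], [a195, a42, a40], (M a48 (L l22 (F (T t585 (L l273 (T t551 (L l24 (L l28 (T t579 (K a41 (M a43 (F (T t585 (L l66 (L l388 (T t6451 N)))))) (K a43 (M a41 (F (T t585 (L l273 (T t551 (L l24 (L l28 (T t579 N)))))))) N)))))))))))⟩
def e0_63_106__195_42_28 : Ent 4 := ⟨[a0, a63, a106], [a195, a42, a41], (M a48 (L l22 (F (T t585 (L l273 (T t551 (L l28 (T t579 (K a40 (M a43 (F (T t585 (L l66 (L l388 (T t6451 N)))))) (K a43 (M a40 (F (T t585 (L l29 (L l69 (L l518 (T t6452 N))))))) N))))))))))⟩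
def e0_63_106__195_42_29 : Ent 4 := ⟨[a0, a63, a106], [a195, a42, a43], (M a48 (L l22 (F (T t585 (L l273 (T t551 (L l28 (T t579 (K a40 (M a41 (F (T t585 (L l273 (T t551 (L l24 (L l28 (T t579 N)))))))) (K a41 (M a40 (F (T t585 (L l29 (L l69 (L l518 (T t6452 N))))))) N))))))))))⟩
def e0_63_106__195_42_30 : Ent 4 := ⟨[a0, a63, a106], [a195, a42, a44], (M a48 (F (T t585 (L l273 (T t551 (L l24 (L l28 (T t579 N))))))))⟩
def e0_63_106__195_42_31 : Ent 4 := ⟨[a0, a63, a106], [a195, a42, a45], (M a48 (F (T t585 (L l273 (T t551 (L l28 (T t579 N)))))))⟩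
def e0_63_106__195_42_32 : Ent 4 := ⟨[a0, a63, a106], [a195, a42, a46], (M a48 (L l26 (F (T t585 (L l273 (T t551 (L l28 (T t579 (K a34 (M a38 (F (T t585 (L l273 (T t551 (L l20 (L l28 (T t579 N)))))))) (K a38 (M a34 (F (T t585 (L l29 (L l66 (L l307 (T t6453 N))))))) N))))))))))⟩
def e0_63_106__195_42_33 : Ent 4 := ⟨[a0, a63, a106], [a195, a42, a47], (M a12 (L l28 (F (T t2419 (L l237 (T t2305 (L l56 (T t2415 (K a32 (M a37 (F (T t2419 (L l237 (T t2305 (L l56 (T t2415 N))))))) (K a37 (M a32 (F (T t2419 (L l51 (L l56 (T t682 N)))))) N))))))))))⟩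
def e0_63_106__195_42_34 : Ent 4 := ⟨[a0, a63, a106], [a195, a42, a60], (M a48 (L l518 (F (T t585 (L l273 (L l442 (T t551 (L l28 (T t579 (K a105 (M a150 (F (L l101 (T t585 (L l273 (L l442 (L l515 (T t551 (L l28 (T t579 N)))))))))) (K a150 (M a105 (F (L l494 (T t585 (L l163 (L l273 (L l442 (T t551 (L l28 (T t579 N)))))))))) N)))))))))))⟩
def e0_63_106__195_42_35 : Ent 4 := ⟨[a0, a63, a106], [a195, a42, a61], (M a48 (F (L l35 (T t585 (L l273 (L l515 (T t551 (L l28 (L l35 (T t579 N))))))))))⟩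
def e0_63_106__195_42_36 : Ent 4 := ⟨[a0, a63, a106], [a195, a42, a62], (M a48 (L l66 (F (T t585 (L l273 (T t551 (L l28 (T t579 (K a2 (M a22 (F (T t585 (L l273 (T t551 (L l28 (T t579 N))))))) (K a22 (M a2 (F (T t585 (L l19 (L l28 (T t342 N)))))) N))))))))))⟩
def e0_63_106__195_42_37 : Ent 4 := ⟨[a0, a63, a106], [a195, a42, a64], (M a48 (F (T t585 (L l28 (T t6594 (L l28 (L l235 (T t6455 (L l28 (L l84 (L l228 (L l295 (T t6457 (L l54 (L l228 (T t6458 (K a207 (Fr a192 a149 l519 (Fr a96 a144 l484 (Fr a101 a111 l104 (Fr a32 a16 l40 (V t6459))))) N)))))))))))))))))⟩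
def e0_63_106__195_42_38 : Ent 4 := ⟨[a0, a63, a106], [a195, a42, a65], (M a48 (F (T t585 (L l76 (L l273 (T t551 (L l28 (L l76 (T t579 N)))))))))⟩
def e0_63_106__195_42_39 : Ent 4 := ⟨[a0, a63, a106], [a195, a42, a66], (M a48 (F (T t585 (L l76 (L l273 (T t551 (L l28 (L l76 (T t579 N)))))))))⟩
def e0_63_106__195_42_40 : Ent 4 := ⟨[a0, a63, a106], [a195, a42, a67], (M a48 (L l307 (F (T t585 (L l76 (L l273 (T t551 (L l28 (L l76 (T t579 (K a3 (M a131 (F (T t585 (L l76 (L l273 (L l453 (T t551 (L l28 (L l76 (T t579 N)))))))))) (K a131 (M a3 (F (T t585 (L l28 (L l487 (T t559 N)))))) N))))))))))))⟩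
def e0_63_106__195_42_41 : Ent 4 := ⟨[a0, a63, a106], [a195, a42, a68], (M a48 (F (T t585 (L l80 (L l273 (T t551 (L l28 (L l80 (T t579 N)))))))))⟩
def e0_63_106__195_42_42 : Ent 4 := ⟨[a0, a63, a106], [a195, a42, a69], (M a48 (F (T t5173 (L l28 (L l84 (T t579 (L l84 (L l273 (T t551 N)))))))))⟩
def e0_63_106__195_42_43 : Ent 4 := ⟨[a0, a63, a106], [a195, a42, a70], (M a48 (F (T t585 (L l273 (T t551 (L l28 (T t579 N)))))))⟩
def e0_63_106__195_42_44 : Ent 4 := ⟨[a0, a63, a106], [a195, a42, a71], (M a48 (F (T t5173 (L l28 (T t579 (L l273 (T t551 N)))))))⟩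
def e0_63_106__195_42_45 : Ent 4 := ⟨[a0, a63, a106], [a195, a42, a72], (M a48 (F (T t585 (L l80 (L l273 (T t551 (L l28 (L l80 (T t579 N)))))))))⟩
def e0_63_106__195_42_46 : Ent 4 := ⟨[a0, a63, a106], [a195, a42, a73], (M a12 (F (T t8070 (L l56 (L l320 (T t2415 (L l78 (L l237 (T t2305 N)))))))))⟩
def e0_63_106__195_42_47 : Ent 4 := ⟨[a0, a63, a106], [a195, a42, a74], (M a48 (F (T t2348 (L l28 (L l84 (L l318 (T t579 (L l84 (L l273 (T t551 N))))))))))⟩
def e0_63_106__195_42_48 : Ent 4 := ⟨[a0, a63, a106], [a195, a42, a75], (M a15 (F (T t6818 (L l54 (T t2532 (L l78 (L l235 (T t6819 N))))))))⟩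
def e0_63_106__195_42_49 : Ent 4 := ⟨[a0, a63, a106], [a195, a42, a76], (M a48 (F (T t585 (L l80 (L l273 (T t551 (L l28 (L l80 (T t579 N)))))))))⟩
def e0_63_106__195_42_50 : Ent 4 := ⟨[a0, a63, a106], [a195, a42, a77], (M a48 (F (T t5173 (L l28 (T t579 (L l273 (T t551 N)))))))⟩
def e0_63_106__195_42_51 : Ent 4 := ⟨[a0, a63, a106], [a195, a42, a78], (M a48 (F (T t585 (L l273 (T t551 (L l28 (T t579 N)))))))⟩
def e0_63_106__195_42_52 : Ent 4 := ⟨[a0, a63, a106], [a195, a42, a79], (M a48 (F (T t5173 (L l28 (L l84 (T t579 (L l84 (L l273 (T t551 N)))))))))⟩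
def e0_63_106__195_42_53 : Ent 4 := ⟨[a0, a63, a106], [a195, a42, a84], (M a48 (F (T t585 (L l140 (L l273 (T t551 (L l28 (L l140 (T t579 N)))))))))⟩
def e0_63_106__195_42_54 : Ent 4 := ⟨[a0, a63, a106], [a195, a42, a85], (M a48 (F (L l228 (T t309 (L l273 (L l347 (T t551 (L l54 (L l228 (T t777 (L l235 (L l368 (T t6465 (K a192 (M a240 (L l228 (F (T t6230 (L l236 (T t6471 (L l54 (L l236 (L l339 (T t6472 (L l339 (T t6473 (K a193 (M a194 (F (L l236 (T t6471 (L l271 (L l272 (L l350 (L l515 (L l518 (T t8071 N)))))))))) (K a194 (M a193 (F (T t6230 (L l234 (L l236 (T t6471 (L l54 (L l123 (L l234 (L l236 (T t8072 (L l336 (L l339 (T t6473 N)))))))))))))) N)))))))))))))) N))))))))))))))⟩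
def e0_63_106__195_42_55 : Ent 4 := ⟨[a0, a63, a106], [a195, a42, a86], (M a48 (F (L l228 (T t309 (L l273 (L l351 (T t551 (L l28 (T t579 N)))))))))⟩
def e0_63_106__195_42_56 : Ent 4 := ⟨[a0, a63, a106], [a195, a42, a87], (M a48 (F (T t585 (L l273 (T t551 (L l28 (L l367 (T t579 N))))))))⟩
def e0_63_106__195_42_57 : Ent 4 := ⟨[a0, a63, a106], [a195, a42, a88], (M a48 (F (T t585 (L l273 (L l478 (T t551 (L l28 (T t579 N))))))))⟩
def e0_63_106__195_42_58 : Ent 4 := ⟨[a0, a63, a106], [a195, a42, a89], (M a48 (F (L l228 (T t309 (L l273 (L l371 (T t551 (L l28 (T t579 N)))))))))⟩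
def e0_63_106__195_42_59 : Ent 4 := ⟨[a0, a63, a106], [a195, a42, a90], (M a48 (F (L l228 (T t309 (L l273 (L l375 (L l483 (T t551 (L l28 (T t579 N))))))))))⟩
def e0_63_106__195_42_60 : Ent 4 := ⟨[a0, a63, a106], [a195, a42, a91], (M a48 (F (T t585 (L l273 (T t551 (L l28 (T t579 N)))))))⟩
def e0_63_106__195_42_61 : Ent 4 := ⟨[a0, a63, a106], [a195, a42, a92], (M a48 (F (T t585 (L l273 (T t551 (L l28 (T t579 N)))))))⟩
def e0_63_106__195_42_62 : Ent 4 := ⟨[a0, a63, a106], [a195, a42, a93], (M a48 (F (T t585 (L l273 (T t551 (L l28 (L l362 (T t579 N))))))))⟩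
def e0_63_106__195_42_63 : Ent 4 := ⟨[a0, a63, a106], [a195, a42, a94], (M a48 (F (T t585 (L l273 (T t551 (L l28 (T t579 N)))))))⟩
def e0_63_106__195_42_64 : Ent 4 := ⟨[a0, a63, a106], [a195, a42, a95], (M a48 (F (T t5173 (L l273 (T t551 (L l28 (L l361 (T t579 N))))))))⟩
def e0_63_106__195_42_65 : Ent 4 := ⟨[a0, a63, a106], [a195, a42, a104], (M a48 (F (T t585 (L l100 (L l140 (L l273 (T t551 (L l28 (L l140 (T t579 N))))))))))⟩
def e0_63_106__195_42_66 : Ent 4 := ⟨[a0, a63, a106], [a195, a42, a105], (M a48 (L l518 (F (L l228 (T t309 (L l28 (T t579 (L l273 (L l515 (T t551 (K a60 (M a150 (F (L l101 (T t585 (L l273 (L l442 (L l515 (T t551 (L l28 (T t579 N)))))))))) (K a150 (M a60 (F (L l228 (T t309 (L l22 (L l28 (L l338 (L l374 (L l392 (T t248 N)))))))))) N))))))))))))⟩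
def e0_63_106__195_42_67 : Ent 4 := ⟨[a0, a63, a106], [a195, a42, a107], (M a48 (F (T t5173 (L l28 (T t579 (L l273 (T t551 N)))))))⟩
def e0_63_106__195_42_68 : Ent 4 := ⟨[a0, a63, a106], [a195, a42, a108], (M a48 (F (T t5173 (L l28 (T t579 (L l100 (L l273 (T t551 N))))))))⟩
def e0_63_106__195_42_69 : Ent 4 := ⟨[a0, a63, a106], [a195, a42, a109], (M a48 (F (T t5173 (L l28 (T t579 (L l273 (T t551 N)))))))⟩
def e0_63_106__195_42_70 : Ent 4 := ⟨[a0, a63, a106], [a195, a42, a110], (M a48 (F (T t5173 (L l28 (T t579 (L l273 (T t551 N)))))))⟩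
def e0_63_106__195_42_71 : Ent 4 := ⟨[a0, a63, a106], [a195, a42, a111], (M a240 (F (T t6525 (L l488 (T t817 (L l137 (T t4781 N)))))))⟩
def e0_63_106__195_42_72 : Ent 4 := ⟨[a0, a63, a106], [a195, a42, a124], (M a48 (F (T t585 (L l140 (L l273 (T t551 (L l28 (L l140 (T t579 N)))))))))⟩
def e0_63_106__195_42_73 : Ent 4 := ⟨[a0, a63, a106], [a195, a42, a125], (M a48 (F (T t585 (L l273 (T t551 (L l28 (T t579 N)))))))⟩
def e0_63_106__195_42_74 : Ent 4 := ⟨[a0, a63, a106], [a195, a42, a126], (M a48 (F (T t585 (L l273 (T t551 (L l28 (T t579 N)))))))⟩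
def e0_63_106__195_42_75 : Ent 4 := ⟨[a0, a63, a106], [a195, a42, a127], (M a48 (F (T t5173 (L l273 (T t551 (L l28 (L l295 (T t6744 (L l28 (L l235 (T t6479 N)))))))))))⟩
def e0_63_106__195_42_76 : Ent 4 := ⟨[a0, a63, a106], [a195, a42, a128], (M a48 (F (T t585 (L l28 (T t579 (L l192 (L l220 (L l235 (T t6480 (L l54 (L l160 (L l228 (L l295 (T t6481 N))))))))))))))⟩
def e0_63_106__195_42_77 : Ent 4 := ⟨[a0, a63, a106], [a195, a42, a129], (M a48 (F (T t585 (L l217 (L l273 (T t551 (L l28 (T t579 N))))))))⟩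
def e0_63_106__195_42_78 : Ent 4 := ⟨[a0, a63, a106], [a195, a42, a130], (M a48 (F (T t585 (L l273 (T t551 (L l28 (T t579 N)))))))⟩
def e0_63_106__195_42_79 : Ent 4 := ⟨[a0, a63, a106], [a195, a42, a131], (M a48 (L l307 (F (T t585 (L l197 (L l273 (T t551 (L l28 (T t579 (K a3 (M a67 (F (T t585 (L l197 (L l273 (L l453 (T t551 (L l28 (T t579 N))))))))) (K a67 (M a3 (F (T t585 (L l28 (L l487 (T t559 N)))))) N)))))))))))⟩
def e0_63_106__195_42_80 : Ent 4 := ⟨[a0, a63, a106], [a195, a42, a132], (M a48 (F (T t585 (L l202 (L l273 (T t551 (L l28 (T t579 N))))))))⟩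
def e0_63_106__195_42_81 : Ent 4 := ⟨[a0, a63, a106], [a195, a42, a133], (M a48 (F (T t585 (L l199 (L l273 (T t551 (L l28 (T t579 N))))))))⟩
def e0_63_106__195_42_82 : Ent 4 := ⟨[a0, a63, a106], [a195, a42, a134], (M a12 (F (T t2419 (L l161 (L l237 (T t2305 (L l56 (T t2415 N))))))))⟩
def e0_63_106__195_42_83 : Ent 4 := ⟨[a0, a63, a106], [a195, a42, a135], (M a15 (F (T t7434 (L l159 (L l235 (T t6819 (L l54 (T t2532 N))))))))⟩
def e0_63_106__195_42_84 : Ent 4 := ⟨[a0, a63, a106], [a195, a42, a136], (M a48 (F (T t585 (L l273 (T t551 (L l28 (T t579 N)))))))⟩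
def e0_63_106__195_42_85 : Ent 4 := ⟨[a0, a63, a106], [a195, a42, a137], (M a48 (F (T t585 (L l273 (T t551 (L l28 (T t579 N)))))))⟩
def e0_63_106__195_42_86 : Ent 4 := ⟨[a0, a63, a106], [a195, a42, a138], (M a48 (F (T t2348 (L l28 (L l318 (T t579 (L l273 (T t551 N))))))))⟩
def e0_63_106__195_42_87 : Ent 4 := ⟨[a0, a63, a106], [a195, a42, a139], (M a48 (F (T t585 (L l273 (T t551 (L l28 (T t579 N)))))))⟩
def e0_63_106__195_42_88 : Ent 4 := ⟨[a0, a63, a106], [a195, a42, a140], (M a48 (F (T t585 (L l222 (L l273 (T t551 (L l28 (T t579 N))))))))⟩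
def e0_63_106__195_42_89 : Ent 4 := ⟨[a0, a63, a106], [a195, a42, a141], (M a48 (F (T t585 (L l273 (T t551 (L l28 (T t579 N)))))))⟩
def e0_63_106__195_42_90 : Ent 4 := ⟨[a0, a63, a106], [a195, a42, a142], (M a48 (F (T t585 (L l273 (T t551 (L l28 (T t579 N)))))))⟩
def e0_63_106__195_42_91 : Ent 4 := ⟨[a0, a63, a106], [a195, a42, a143], (M a48 (F (T t585 (L l28 (L l273 (T t6462 (L l28 (T t579 N))))))))⟩
def e0_63_106__195_42_92 : Ent 4 := ⟨[a0, a63, a106], [a195, a42, a148], (M a48 (F (T t585 (L l163 (L l273 (T t551 (L l28 (T t579 N))))))))⟩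
def e0_63_106__195_42_93 : Ent 4 := ⟨[a0, a63, a106], [a195, a42, a149], (M a240 (F (L l199 (T t4781 (L l199 (L l337 (L l347 (T t6484 (L l28 (L l199 (L l337 (L l375 (T t6483 (L l28 (L l199 (L l220 (L l337 (L l375 (T t6485 (K a133 (M a165 (F (T t6486 (L l28 (L l160 (L l220 (L l311 (L l375 (T t6487 (L l160 (L l220 (L l295 (T t6488 N))))))))))))) (K a165 (M a90 (L l199 (F (T t4788 (L l180 (T t6489 (K a133 (Fr a181 a122 l447 (V t6489)) (K a181 (M a133 (F (L l180 (T t6489 (L l227 (L l337 (T t6746 (L l228 (L l455 (T t6490 N)))))))))) N)))))))) (K a181 (M a165 (F (T t6492 (L l337 (T t6493 (L l28 (L l220 (L l375 (T t6487 (L l220 (L l295 (T t6488 N)))))))))))) (K a74 (M a48 (F (T t6494 (L l199 (L l295 (L l491 (T t781 (L l28 (L l84 (L l318 (L l491 (T t579 N)))))))))))) (K a90 (M a48 (L l375 (F (L l228 (T t3318 (L l199 (L l295 (L l462 (L l491 (T t781 (L l28 (L l491 (T t579 (K a208 (M a31 (F (L l28 (L l347 (T t6495 (L l151 (L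 l220 (L l295 (T t6496 N))))))))) (K a31 (M a208 (F (T t6497 (L l151 (L l220 (L l295 (T t6496 N))))))) N))))))))))))))) (K a122 (M a48 (F (L l228 (T t3318 (L l114 (L l491 (T t6471 (L l28 (L l491 (T t579 N)))))))))) N)))))))))))))))))))))))))⟩
def e0_63_106__195_42_94 : Ent 4 := ⟨[a0, a63, a106], [a195, a42, a150], (M a48 (L l518 (F (L l228 (T t309 (L l163 (L l273 (T t551 (L l28 (T t579 (K a60 (M a105 (F (L l494 (T t585 (L l163 (L l273 (L l442 (T t551 (L l28 (T t579 N)))))))))) (K a105 (M a60 (F (L l228 (T t309 (L l22 (L l28 (L l338 (L l374 (L l392 (T t248 N)))))))))) N))))))))))))⟩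
def e0_63_106__195_42_95 : Ent 4 := ⟨[a0, a63, a106], [a195, a42, a151], (M a48 (F (T t585 (L l163 (L l273 (T t551 (L l28 (T t579 N))))))))⟩
def e0_63_106__195_42_96 : Ent 4 := ⟨[a0, a63, a106], [a195, a42, a152], (M a48 (F (T t585 (L l222 (L l273 (T t551 (L l28 (T t579 N))))))))⟩
def e0_63_106__195_42_97 : Ent 4 := ⟨[a0, a63, a106], [a195, a42, a153], (M a48 (F (L l228 (T t309 (L l167 (L l273 (T t551 (L l28 (T t579 N)))))))))⟩
def e0_63_106__195_42_98 : Ent 4 := ⟨[a0, a63, a106], [a195, a42, a154], (M a240 (F (L l228 (T t4779 (L l170 (L l368 (L l488 (L l512 (T t817 (T t4781 N))))))))))⟩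
def e0_63_106__195_42_99 : Ent 4 := ⟨[a0, a63, a106], [a195, a42, a155], (M a48 (F (T t585 (L l273 (T t551 (L l28 (L l367 (T t579 N))))))))⟩
def e0_63_106__195_42_100 : Ent 4 := ⟨[a0, a63, a106], [a195, a42, a156], (M a48 (F (T t585 (L l273 (T t551 (L l28 (T t579 N)))))))⟩
def e0_63_106__195_42_101 : Ent 4 := ⟨[a0, a63, a106], [a195, a42, a157], (M a48 (F (T t585 (L l167 (L l273 (T t551 (L l28 (T t579 N))))))))⟩
def e0_63_106__195_42_102 : Ent 4 := ⟨[a0, a63, a106], [a195, a42, a158], (M a48 (F (T t585 (L l273 (T t551 (L l28 (L l362 (T t579 N))))))))⟩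
def e0_63_106__195_42_103 : Ent 4 := ⟨[a0, a63, a106], [a195, a42, a159], (M a240 (F (L l228 (T t4779 (L l170 (L l488 (T t817 (L l361 (T t4781 N)))))))))⟩
def e0_63_106__195_42_104 : Ent 4 := ⟨[a0, a63, a106], [a195, a42, a168], (M a48 (F (T t585 (L l273 (T t551 (L l28 (L l400 (T t579 N))))))))⟩
def e0_63_106__195_42_105 : Ent 4 := ⟨[a0, a63, a106], [a195, a42, a169], (M a48 (F (L l228 (T t309 (L l217 (L l273 (T t551 (L l28 (T t579 N)))))))))⟩
def e0_63_106__195_42_106 : Ent 4 := ⟨[a0, a63, a106], [a195, a42, a170], (M a48 (F (L l228 (T t309 (L l220 (L l273 (T t551 (L l28 (L l206 (L l220 (L l404 (T t552 (L l28 (L l206 (L l235 (L l404 (T t553 N)))))))))))))))))⟩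
def e0_63_106__195_42_107 : Ent 4 := ⟨[a0, a63, a106], [a195, a42, a171], (M a48 (F (T t585 (L l273 (T t551 (L l28 (T t579 N)))))))⟩
def e0_63_106__195_42_108 : Ent 4 := ⟨[a0, a63, a106], [a195, a42, a172], (M a48 (F (T t585 (L l273 (T t551 (L l28 (T t579 N)))))))⟩
def e0_63_106__195_42_109 : Ent 4 := ⟨[a0, a63, a106], [a195, a42, a173], (M a48 (F (T t585 (L l273 (T t551 (L l28 (T t579 N)))))))⟩
def e0_63_106__195_42_110 : Ent 4 := ⟨[a0, a63, a106], [a195, a42, a174], (M a48 (F (T t585 (L l273 (T t551 (L l28 (T t579 N)))))))⟩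
def e0_63_106__195_42_111 : Ent 4 := ⟨[a0, a63, a106], [a195, a42, a175], (M a48 (F (T t5173 (L l28 (T t579 (L l273 (T t551 N)))))))⟩
def e0_63_106__195_42_112 : Ent 4 := ⟨[a0, a63, a106], [a195, a42, a188], (M a48 (F (T t585 (L l186 (L l273 (T t551 (L l28 (T t579 N))))))))⟩
def e0_63_106__195_42_113 : Ent 4 := ⟨[a0, a63, a106], [a195, a42, a189], (M a48 (F (T t585 (L l217 (L l273 (T t551 (L l28 (T t579 N))))))))⟩
def e0_63_106__195_42_114 : Ent 4 := ⟨[a0, a63, a106], [a195, a42, a190], (M a48 (F (T t585 (L l273 (T t551 (L l28 (T t579 N)))))))⟩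
def e0_63_106__195_42_115 : Ent 4 := ⟨[a0, a63, a106], [a195, a42, a191], (M a48 (F (T t585 (L l190 (L l220 (L l273 (T t551 (L l28 (L l295 (T t6498 (L l28 (L l235 (T t6499 N)))))))))))))⟩
def e0_63_106__195_42_116 : Ent 4 := ⟨[a0, a63, a106], [a195, a42, a192], (M a240 (L l228 (F (L l339 (T t4781 (L l236 (L l339 (T t6500 (L l295 (L l296 (L l339 (T t6501 (L l28 (L l339 (T t6502 (L l339 (T t6503 (K a133 (M a12 (L l228 (L l339 (F (T t3358 (L l272 (T t8065 (K a193 (M a194 (L l335 (L l339 (F (T t2747 (L l199 (L l271 (L l272 (L l515 (L l518 (T t8071 (K a73 (M a13 (L l339 (F (T t2747 (L l26 (L l514 (L l515 (L l518 (T t3911 (K a74 (Fr a15 a14 l3 (V t7325)) (K a15 (M a74 (L l337 (F (T t6522 (L l56 (L l292 (L l297 (L l320 (L l471 (T t8053 (K a135 (M a75 (L l153 (F (T t6522 (L l56 (L l292 (L l297 (L l320 (L l471 (T t8053 (K a132 (Fr a134 a14 l336 (V t6522)) (K a134 (M a132 (F (T t6522 (L l129 (L l272 (T t8066 N)))))) N))))))))))))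 (K a75 (M a135 (F (T t6522 (L l56 (L l292 (L l297 (L l320 (L l471 (T t8053 N))))))))) N)))))))))))) N))))))))))) (K a13 (M a73 (L l339 (F (T t3358 (L l59 (L l199 (L l271 (L l272 (L l515 (L l518 (T t8071 (K a74 (M a15 (F (T t7324 (L l292 (L l297 (T t2745 N)))))) (K a15 (M a74 (L l337 (F (T t6522 (L l56 (L l292 (L l297 (L l471 (T t8053 (K a135 (Fr a75 a72 l78 (V t6522)) (K a75 (M a135 (F (T t6522 (L l56 (L l292 (L l297 (L l471 (T t8053 N)))))))) N))))))))))) N))))))))))))) (K a74 (M a15 (L l335 (F (T t7325 (L l292 (L l297 (T t5434 (K a73 (Fr a13 a14 l3 (V t7325)) (K a13 (M a73 (F (T t7324 (L l292 (L l297 (T t2745 N)))))) N))))))))) (K a15 (M a74 (L l335 (L l337 (F (T t6522 (L l292 (L l297 (L l471 (T t5434 (K a73 (M a13 (L l337 (F (T t6522 (L l56 (L l292 (L l297 (L l320 (L l471 (T t8053 (K a135 (M a75 (L l153 (F (T t6522 (L l56 (L l292 (L l297 (L l320 (L l471 (T t8053 (K a132 (Fr a134 a14 l336 (V t6522)) (K a134 (M a132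 (F (T t6522 (L l129 (L l272 (T t8066 N)))))) N)))))))))))) (K a75 (M a135 (F (T t6522 (L l56 (L l292 (L l297 (L l320 (L l471 (T t8053 N))))))))) N)))))))))))) (K a13 (M a73 (L l337 (F (T t6522 (L l56 (L l292 (L l297 (L l471 (T t8053 (K a135 (Fr a75 a72 l78 (V t6522)) (K a75 (M a135 (F (T t6522 (L l56 (L l292 (L l297 (L l471 (T t8053 N)))))))) N))))))))))) (K a135 (M a75 (L l153 (L l335 (F (T t6522 (L l292 (L l297 (L l471 (T t5434 (K a132 (Fr a134 a14 l336 (V t6522)) (K a73 (M a13 (L l153 (F (T t6522 (L l56 (L l292 (L l297 (L l320 (L l471 (T t8053 (K a132 (Fr a134 a14 l336 (V t6522)) (K a134 (M a132 (F (T t6522 (L l129 (L l272 (T t8066 N)))))) N)))))))))))) (K a13 (Fr a73 a72 l78 (V t6522)) (K a134 (M a132 (L l335 (F (T t6522 (L l272 (T t8066 (K a73 (M a13 (F (T t6522 (L l129 (L l272 (T t8066 N)))))) (K a13 (Fr a73 a72 l78 (V t6522)) N)))))))) N))))))))))))) (K a75 (M a135 (L l335 (F (T t6522 (L l56 (L l292 (L l297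 (L l471 (T t8053 (K a73 (M a13 (F (T t6522 (L l56 (L l292 (L l297 (L l320 (L l471 (T t8053 N))))))))) (K a13 (M a73 (F (T t6522 (L l56 (L l292 (L l297 (L l471 (T t8053 N)))))))) N))))))))))) N))))))))))))) N))))))))))))))) (K a194 (M a193 (L l339 (F (T t2747 (L l270 (L l272 (L l336 (T t8065 (K a74 (M a15 (L l336 (F (T t7325 (L l56 (L l292 (L l297 (T t8053 (K a134 (Fr a14 a13 l3 (V t7324)) (K a14 (M a134 (F (T t7325 (L l292 (L l297 (T t2745 N)))))) N)))))))))) (K a15 (M a74 (L l337 (F (T t6522 (L l56 (L l292 (L l297 (L l471 (T t8053 (K a135 (M a75 (L l153 (F (T t6522 (L l292 (L l297 (L l471 (T t2745 (K a132 (M a134 (F (T t6522 (L l56 (L l292 (L l297 (L l471 (T t8053 N)))))))) (K a134 (M a132 (F (T t6522 (L l270 (L l272 (T t8066 N)))))) N)))))))))) (K a75 (M a135 (F (T t6522 (L l56 (L l292 (L l297 (L l471 (T t8053 N)))))))) N))))))))))) N)))))))))) (K a74 (M a15 (L l228 (F (T t7324 (L l56 (L l292 (L l297 (T t8053 (K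 a193 (M a194 (L l335 (F (T t7325 (L l292 (L l297 (T t5434 (K a73 (Fr a13 a14 l3 (V t7325)) (K a13 (M a73 (F (T t7324 (L l292 (L l297 (T t2745 N)))))) N))))))))) (K a194 (M a193 (L l336 (F (T t7325 (L l56 (L l292 (L l297 (T t8053 (K a134 (Fr a14 a13 l3 (V t7324)) (K a14 (M a134 (F (T t7325 (L l292 (L l297 (T t2745 N)))))) N)))))))))) N)))))))))) (K a15 (M a74 (L l228 (L l337 (F (T t6522 (L l292 (L l297 (L l471 (T t2745 (K a193 (M a194 (L l335 (L l337 (F (T t6522 (L l292 (L l297 (L l471 (T t5434 (K a73 (M a13 (L l337 (F (T t6522 (L l56 (L l292 (L l297 (L l320 (L l471 (T t8053 (K a135 (M a75 (L l153 (F (T t6522 (L l56 (L l292 (L l297 (L l320 (L l471 (T t8053 (K a132 (Fr a134 a14 l336 (V t6522)) (K a134 (M a132 (F (T t6522 (L l129 (L l272 (T t8066 N)))))) N)))))))))))) (K a75 (M a135 (F (T t6522 (L l56 (L l292 (L l297 (L l320 (L l471 (T t8053 N))))))))) N)))))))))))) (K a13 (M a73 (L l337 (F (T t6522 (L l56 (L l292 (L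 l297 (L l471 (T t8053 (K a135 (Fr a75 a72 l78 (V t6522)) (K a75 (M a135 (F (T t6522 (L l56 (L l292 (L l297 (L l471 (T t8053 N)))))))) N))))))))))) (K a135 (M a75 (L l153 (L l335 (F (T t6522 (L l292 (L l297 (L l471 (T t5434 (K a132 (Fr a134 a14 l336 (V t6522)) (K a73 (M a13 (L l153 (F (T t6522 (L l56 (L l292 (L l297 (L l320 (L l471 (T t8053 (K a132 (Fr a134 a14 l336 (V t6522)) (K a134 (M a132 (F (T t6522 (L l129 (L l272 (T t8066 N)))))) N)))))))))))) (K a13 (Fr a73 a72 l78 (V t6522)) (K a134 (M a132 (L l335 (F (T t6522 (L l272 (T t8066 (K a73 (M a13 (F (T t6522 (L l129 (L l272 (T t8066 N)))))) (K a13 (Fr a73 a72 l78 (V t6522)) N)))))))) N))))))))))))) (K a75 (M a135 (L l335 (F (T t6522 (L l56 (L l292 (L l297 (L l471 (T t8053 (K a73 (M a13 (F (T t6522 (L l56 (L l292 (L l297 (L l320 (L l471 (T t8053 N))))))))) (K a13 (M a73 (F (T t6522 (L l56 (L l292 (L l297 (L l471 (T t8053 N)))))))) N))))))))))) N))))))))))))) (K a194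 (M a193 (L l337 (F (T t6522 (L l56 (L l292 (L l297 (L l471 (T t8053 (K a135 (M a75 (L l153 (F (T t6522 (L l292 (L l297 (L l471 (T t2745 (K a132 (M a134 (F (T t6522 (L l56 (L l292 (L l297 (L l471 (T t8053 N)))))))) (K a134 (M a132 (F (T t6522 (L l270 (L l272 (T t8066 N)))))) N)))))))))) (K a75 (M a135 (F (T t6522 (L l56 (L l292 (L l297 (L l471 (T t8053 N)))))))) N))))))))))) (K a135 (M a75 (L l153 (L l228 (F (T t6522 (L l56 (L l292 (L l297 (L l471 (T t8053 (K a132 (M a134 (L l228 (F (T t6522 (L l198 (L l292 (L l297 (L l471 (T t2745 (K a193 (Fr a194 a14 l336 (V t6522)) (K a194 (M a193 (F (T t6522 (L l56 (L l292 (L l297 (L l471 (T t8053 N)))))))) N))))))))))) (K a193 (M a194 (L l153 (L l335 (F (T t6522 (L l292 (L l297 (L l471 (T t5434 (K a132 (Fr a134 a14 l336 (V t6522)) (K a73 (M a13 (L l153 (F (T t6522 (L l56 (L l292 (L l297 (L l320 (L l471 (T t8053 (K a132 (Fr a134 a14 l336 (V t6522)) (K a134 (M a132 (F (T t6522 (L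 l129 (L l272 (T t8066 N)))))) N)))))))))))) (K a13 (Fr a73 a72 l78 (V t6522)) (K a134 (M a132 (L l335 (F (T t6522 (L l272 (T t8066 (K a73 (M a13 (F (T t6522 (L l129 (L l272 (T t8066 N)))))) (K a13 (Fr a73 a72 l78 (V t6522)) N)))))))) N))))))))))))) (K a194 (M a193 (L l153 (F (T t6522 (L l292 (L l297 (L l471 (T t2745 (K a132 (M a134 (F (T t6522 (L l56 (L l292 (L l297 (L l471 (T t8053 N)))))))) (K a134 (M a132 (F (T t6522 (L l270 (L l272 (T t8066 N)))))) N)))))))))) (K a134 (M a132 (L l228 (F (T t6522 (L l272 (T t8066 (K a193 (M a194 (L l335 (F (T t6522 (L l272 (T t8066 (K a73 (M a13 (F (T t6522 (L l129 (L l272 (T t8066 N)))))) (K a13 (Fr a73 a72 l78 (V t6522)) N)))))))) (K a194 (M a193 (F (T t6522 (L l270 (L l272 (T t8066 N)))))) N)))))))) N)))))))))))))) (K a75 (M a135 (L l228 (F (T t6522 (L l292 (L l297 (L l471 (T t2745 (K a193 (M a194 (L l335 (F (T t6522 (L l56 (L l292 (L l297 (L l471 (T t8053 (K a73 (M a13 (F (T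 t6522 (L l56 (L l292 (L l297 (L l320 (L l471 (T t8053 N))))))))) (K a13 (M a73 (F (T t6522 (L l56 (L l292 (L l297 (L l471 (T t8053 N)))))))) N))))))))))) (K a194 (M a193 (F (T t6522 (L l56 (L l292 (L l297 (L l471 (T t8053 N)))))))) N)))))))))) N))))))))))))) N))))))))))) (K a85 (M a12 (L l228 (F (L l292 (L l297 (T t2745 (L l272 (L l339 (T t6595 (K a193 (M a194 (F (L l458 (T t2747 (L l271 (L l272 (L l350 (L l515 (L l518 (T t8071 N)))))))))) (K a194 (M a193 (F (L l292 (L l297 (T t2745 (L l91 (L l270 (L l272 (L l336 (L l339 (T t8051 N))))))))))) N))))))))))) (K a181 (M a12 (L l228 (F (T t3358 (L l56 (L l272 (T t2415 (L l272 (T t6512 (K a193 (M a194 (F (T t2747 (L l337 (L l339 (L l443 (L l515 (L l518 (T t8073 N))))))))) (K a194 (M a193 (F (T t2747 (L l56 (L l270 (L l272 (T t2415 (L l270 (L l272 (T t6512 N)))))))))) N))))))))))) (K a74 (M a12 (L l228 (L l339 (F (T t3358 (L l56 (L l84 (L l272 (T t2415 (L l272 (T t6512 (K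 a193 (M a194 (L l339 (F (T t3358 (L l271 (L l272 (L l515 (L l518 (T t8071 (K a133 (M a15 (L l335 (F (T t7325 (L l292 (L l297 (T t5434 (K a73 (Fr a13 a14 l3 (V t7325)) (K a13 (M a73 (F (T t7324 (L l292 (L l297 (T t2745 N)))))) N))))))))) (K a15 (M a133 (L l337 (F (T t3358 (L l271 (L l272 (L l481 (L l515 (L l518 (T t8071 (K a135 (M a75 (F (T t2747 (L l203 (L l271 (L l272 (L l481 (L l515 (L l518 (T t8071 N)))))))))) (K a75 (M a135 (L l78 (F (T t3358 (L l66 (T t8074 (K a72 (M a73 (F (T t2747 (L l271 (L l272 (L l481 (L l515 (L l518 (T t8071 N))))))))) (K a73 (M a72 (F (L l272 (T t8061 (L l292 (L l297 (L l471 (T t2745 N)))))))) N)))))))) N)))))))))))) N))))))))))) (K a133 (M a15 (L l228 (F (T t7324 (L l56 (L l292 (L l297 (T t8053 (K a193 (M a194 (L l335 (F (T t7325 (L l292 (L l297 (T t5434 (K a73 (Fr a13 a14 l3 (V t7325)) (K a13 (M a73 (F (T t7324 (L l292 (L l297 (T t2745 N)))))) N))))))))) (K a194 (M a193 (L l336 (F (T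 t7325 (L l56 (L l292 (L l297 (T t8053 (K a134 (Fr a14 a13 l3 (V t7324)) (K a14 (M a134 (F (T t7325 (L l292 (L l297 (T t2745 N)))))) N)))))))))) N)))))))))) (K a194 (M a193 (L l336 (L l339 (F (T t2747 (L l56 (L l84 (L l270 (L l272 (T t2415 (L l270 (L l272 (T t6512 (K a133 (M a15 (L l336 (F (T t7325 (L l56 (L l292 (L l297 (T t8053 (K a134 (Fr a14 a13 l3 (V t7324)) (K a14 (M a134 (F (T t7325 (L l292 (L l297 (T t2745 N)))))) N)))))))))) (K a134 (M a14 (L l339 (F (T t734 (L l56 (L l292 (L l297 (T t8053 (K a133 (Fr a15 a13 l3 (V t7324)) (K a15 (M a133 (L l337 (F (L l56 (T t3361 (L l26 (L l63 (L l78 (L l518 (T t8058 (K a135 (M a75 (F (L l314 (T t2747 (L l26 (L l63 (L l518 (T t8058 N)))))))) (K a75 (M a135 (L l78 (F (L l270 (L l272 (T t8056 (L l292 (L l297 (L l471 (T t2745 (K a72 (Fr a73 a13 l335 (V t2745)) (K a73 (M a72 (F (L l131 (T t8057 (L l56 (L l292 (L l297 (L l320 (L l471 (T t8053 N)))))))))) N)))))))))))) N))))))))))))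 N)))))))))) (K a14 (M a134 (L l339 (F (T t3358 (L l56 (L l84 (L l270 (L l272 (T t2415 (L l270 (L l272 (T t6512 (K a133 (M a15 (F (T t7325 (L l292 (L l297 (T t2745 N)))))) (K a15 (M a133 (L l337 (F (T t3358 (L l26 (L l60 (L l63 (L l78 (L l272 (L l518 (T t8055 (K a135 (M a75 (F (T t2747 (L l26 (L l60 (L l203 (L l518 (T t8059 N)))))))) (K a75 (Fr a135 a132 l153 (V t8053)) N))))))))))))) N)))))))))))))) (K a15 (M a133 (L l336 (L l337 (F (T t3358 (L l26 (L l63 (L l78 (L l518 (T t8058 (K a134 (M a14 (L l337 (F (L l56 (T t3361 (L l26 (L l63 (L l78 (L l518 (T t8058 (K a135 (M a75 (F (L l314 (T t2747 (L l26 (L l63 (L l518 (T t8058 N)))))))) (K a75 (M a135 (L l78 (F (L l270 (L l272 (T t8056 (L l292 (L l297 (L l471 (T t2745 (K a72 (Fr a73 a13 l335 (V t2745)) (K a73 (M a72 (F (L l131 (T t8057 (L l56 (L l292 (L l297 (L l320 (L l471 (T t8053 N)))))))))) N)))))))))))) N)))))))))))) (K a14 (M a134 (L l337 (F (T t3358 (L l26 (L l60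 (L l63 (L l78 (L l272 (L l518 (T t8055 (K a135 (M a75 (F (T t2747 (L l26 (L l60 (L l203 (L l518 (T t8059 N)))))))) (K a75 (Fr a135 a132 l153 (V t8053)) N))))))))))))) (K a135 (M a75 (L l336 (F (T t2747 (L l26 (L l63 (L l518 (T t8058 (K a134 (M a14 (F (L l314 (T t2747 (L l26 (L l63 (L l518 (T t8058 N)))))))) (K a14 (M a134 (F (T t2747 (L l26 (L l60 (L l203 (L l518 (T t8059 N)))))))) N)))))))))) (K a75 (M a135 (L l78 (L l336 (F (L l518 (T t8060 (L l56 (L l84 (L l270 (L l272 (T t2415 (K a72 (Fr a73 a13 l335 (V t5434)) (K a73 (M a72 (L l336 (F (L l131 (T t8057 (L l56 (L l292 (L l297 (L l320 (L l471 (T t8053 (K a134 (M a14 (F (L l131 (T t8057 (L l56 (L l292 (L l297 (L l320 (L l471 (T t8053 N)))))))))) (K a14 (Fr a134 a132 l153 (V t8075)) N))))))))))))) (K a134 (M a14 (L l78 (F (L l270 (L l272 (T t8056 (L l292 (L l297 (L l471 (T t2745 (K a72 (Fr a73 a13 l335 (V t2745)) (K a73 (M a72 (F (L l131 (T t8057 (L l56 (L l292 (L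 l297 (L l320 (L l471 (T t8053 N)))))))))) N)))))))))))) (K a14 (Fr a134 a132 l153 (V t8053)) N))))))))))))))) N)))))))))))))) N))))))))))))))))) (K a15 (M a133 (L l228 (L l337 (F (T t3358 (L l56 (L l84 (L l272 (T t2415 (L l481 (T t8076 (K a193 (M a194 (L l337 (F (T t3358 (L l271 (L l272 (L l481 (L l515 (L l518 (T t8071 (K a135 (M a75 (F (T t2747 (L l203 (L l271 (L l272 (L l481 (L l515 (L l518 (T t8071 N)))))))))) (K a75 (M a135 (L l78 (F (T t3358 (L l66 (T t8074 (K a72 (M a73 (F (T t2747 (L l271 (L l272 (L l481 (L l515 (L l518 (T t8071 N))))))))) (K a73 (M a72 (F (L l272 (T t8061 (L l292 (L l297 (L l471 (T t2745 N)))))))) N)))))))) N)))))))))))) (K a194 (M a193 (L l336 (L l337 (F (T t3358 (L l26 (L l63 (L l78 (L l518 (T t8058 (K a134 (M a14 (L l337 (F (L l56 (T t3361 (L l26 (L l63 (L l78 (L l518 (T t8058 (K a135 (M a75 (F (L l314 (T t2747 (L l26 (L l63 (L l518 (T t8058 N)))))))) (K a75 (M a135 (L l78 (F (L l270 (L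 l272 (T t8056 (L l292 (L l297 (L l471 (T t2745 (K a72 (Fr a73 a13 l335 (V t2745)) (K a73 (M a72 (F (L l131 (T t8057 (L l56 (L l292 (L l297 (L l320 (L l471 (T t8053 N)))))))))) N)))))))))))) N)))))))))))) (K a14 (M a134 (L l337 (F (T t3358 (L l26 (L l60 (L l63 (L l78 (L l272 (L l518 (T t8055 (K a135 (M a75 (F (T t2747 (L l26 (L l60 (L l203 (L l518 (T t8059 N)))))))) (K a75 (Fr a135 a132 l153 (V t8053)) N))))))))))))) (K a135 (M a75 (L l336 (F (T t2747 (L l26 (L l63 (L l518 (T t8058 (K a134 (M a14 (F (L l314 (T t2747 (L l26 (L l63 (L l518 (T t8058 N)))))))) (K a14 (M a134 (F (T t2747 (L l26 (L l60 (L l203 (L l518 (T t8059 N)))))))) N)))))))))) (K a75 (M a135 (L l78 (L l336 (F (L l518 (T t8060 (L l56 (L l84 (L l270 (L l272 (T t2415 (K a72 (Fr a73 a13 l335 (V t5434)) (K a73 (M a72 (L l336 (F (L l131 (T t8057 (L l56 (L l292 (L l297 (L l320 (L l471 (T t8053 (K a134 (M a14 (F (L l131 (T t8057 (L l56 (L l292 (L l297 (L l320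 (L l471 (T t8053 N)))))))))) (K a14 (Fr a134 a132 l153 (V t8075)) N))))))))))))) (K a134 (M a14 (L l78 (F (L l270 (L l272 (T t8056 (L l292 (L l297 (L l471 (T t2745 (K a72 (Fr a73 a13 l335 (V t2745)) (K a73 (M a72 (F (L l131 (T t8057 (L l56 (L l292 (L l297 (L l320 (L l471 (T t8053 N)))))))))) N)))))))))))) (K a14 (Fr a134 a132 l153 (V t8053)) N))))))))))))))) N)))))))))))))) (K a135 (M a75 (L l228 (F (T t3358 (L l56 (L l84 (L l272 (T t2415 (L l201 (L l481 (T t8076 (K a193 (M a194 (F (T t2747 (L l203 (L l271 (L l272 (L l481 (L l515 (L l518 (T t8071 N)))))))))) (K a194 (M a193 (L l336 (F (T t2747 (L l26 (L l63 (L l518 (T t8058 (K a134 (M a14 (F (L l314 (T t2747 (L l26 (L l63 (L l518 (T t8058 N)))))))) (K a14 (M a134 (F (T t2747 (L l26 (L l60 (L l203 (L l518 (T t8059 N)))))))) N)))))))))) N))))))))))))) (K a75 (M a135 (L l78 (L l228 (F (T t3358 (L l56 (L l84 (L l272 (T t2415 (L l336 (L l514 (L l518 (T t8077 (K a72 (M a73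 (L l228 (F (T t3358 (L l56 (L l80 (L l84 (L l272 (L l316 (T t2415 (L l128 (L l336 (L l514 (L l518 (T t8077 (K a193 (M a194 (F (T t2747 (L l271 (L l272 (L l481 (L l515 (L l518 (T t8071 N))))))))) (K a194 (Fr a193 a13 l335 (V t5434)) N))))))))))))))))) (K a193 (M a194 (L l78 (F (T t3358 (L l66 (T t8074 (K a72 (M a73 (F (T t2747 (L l271 (L l272 (L l481 (L l515 (L l518 (T t8071 N))))))))) (K a73 (M a72 (F (L l272 (T t8061 (L l292 (L l297 (L l471 (T t2745 N)))))))) N)))))))) (K a73 (M a72 (L l228 (F (L l272 (T t8061 (L l56 (L l292 (L l297 (L l320 (L l471 (T t8053 (K a193 (M a194 (F (L l272 (T t8061 (L l292 (L l297 (L l471 (T t2745 N)))))))) (K a194 (M a193 (L l336 (F (L l131 (T t8057 (L l56 (L l292 (L l297 (L l320 (L l471 (T t8053 (K a134 (M a14 (F (L l131 (T t8057 (L l56 (L l292 (L l297 (L l320 (L l471 (T t8053 N)))))))))) (K a14 (Fr a134 a132 l153 (V t8075)) N))))))))))))) N))))))))))))) (K a194 (M a193 (L l78 (L l336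 (F (L l518 (T t8060 (L l56 (L l84 (L l270 (L l272 (T t2415 (K a72 (Fr a73 a13 l335 (V t5434)) (K a73 (M a72 (L l336 (F (L l131 (T t8057 (L l56 (L l292 (L l297 (L l320 (L l471 (T t8053 (K a134 (M a14 (F (L l131 (T t8057 (L l56 (L l292 (L l297 (L l320 (L l471 (T t8053 N)))))))))) (K a14 (Fr a134 a132 l153 (V t8075)) N))))))))))))) (K a134 (M a14 (L l78 (F (L l270 (L l272 (T t8056 (L l292 (L l297 (L l471 (T t2745 (K a72 (Fr a73 a13 l335 (V t2745)) (K a73 (M a72 (F (L l131 (T t8057 (L l56 (L l292 (L l297 (L l320 (L l471 (T t8053 N)))))))))) N)))))))))))) (K a14 (Fr a134 a132 l153 (V t8053)) N))))))))))))))) N))))))))))))))))) N))))))))))))))) N))))))))))))))) (K a90 (M a252 (L l228 (F (L l148 (T t8078 (L l334 (L l338 (T t6518 (L l309 (T t6675 (K a193 (M a194 (F (L l465 (T t8079 (L l295 (L l296 (L l372 (L l515 (L l518 (T t8080 N)))))))))) (K a194 (M a193 (F (L l56 (T t8081 (L l334 (L l338 (T t6518 (L l306 (L l309 (L l462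 (T t6476 N))))))))))) N)))))))))))) (K a122 (M a12 (L l228 (F (T t2747 (L l56 (L l272 (T t2415 (L l272 (T t6512 (K a193 (M a194 (F (T t2747 (L l337 (L l339 (L l515 (L l518 (T t8073 N)))))))) (K a194 (M a193 (F (T t2747 (L l56 (L l270 (L l272 (T t2415 (L l270 (L l272 (T t6512 N)))))))))) N))))))))))) (K a15 (M a12 (L l228 (L l337 (L l339 (F (T t3358 (L l272 (T t8065 (K a193 (M a194 (L l337 (L l339 (F (T t2747 (L l271 (L l272 (L l481 (L l515 (L l518 (T t8071 (K a133 (M a74 (L l335 (L l337 (F (T t6522 (L l292 (L l297 (L l471 (T t5434 (K a73 (M a13 (L l337 (F (T t6522 (L l56 (L l292 (L l297 (L l320 (L l471 (T t8053 (K a135 (M a75 (L l153 (F (T t6522 (L l56 (L l292 (L l297 (L l320 (L l471 (T t8053 (K a132 (Fr a134 a14 l336 (V t6522)) (K a134 (M a132 (F (T t6522 (L l129 (L l272 (T t8066 N)))))) N)))))))))))) (K a75 (M a135 (F (T t6522 (L l56 (L l292 (L l297 (L l320 (L l471 (T t8053 N))))))))) N)))))))))))) (K a13 (M a73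 (L l337 (F (T t6522 (L l56 (L l292 (L l297 (L l471 (T t8053 (K a135 (Fr a75 a72 l78 (V t6522)) (K a75 (M a135 (F (T t6522 (L l56 (L l292 (L l297 (L l471 (T t8053 N)))))))) N))))))))))) (K a135 (M a75 (L l153 (L l335 (F (T t6522 (L l292 (L l297 (L l471 (T t5434 (K a132 (Fr a134 a14 l336 (V t6522)) (K a73 (M a13 (L l153 (F (T t6522 (L l56 (L l292 (L l297 (L l320 (L l471 (T t8053 (K a132 (Fr a134 a14 l336 (V t6522)) (K a134 (M a132 (F (T t6522 (L l129 (L l272 (T t8066 N)))))) N)))))))))))) (K a13 (Fr a73 a72 l78 (V t6522)) (K a134 (M a132 (L l335 (F (T t6522 (L l272 (T t8066 (K a73 (M a13 (F (T t6522 (L l129 (L l272 (T t8066 N)))))) (K a13 (Fr a73 a72 l78 (V t6522)) N)))))))) N))))))))))))) (K a75 (M a135 (L l335 (F (T t6522 (L l56 (L l292 (L l297 (L l471 (T t8053 (K a73 (M a13 (F (T t6522 (L l56 (L l292 (L l297 (L l320 (L l471 (T t8053 N))))))))) (K a13 (M a73 (F (T t6522 (L l56 (L l292 (L l297 (L l471 (T t8053 N))))))))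 N))))))))))) N))))))))))))) (K a74 (M a133 (L l337 (F (T t3358 (L l271 (L l272 (L l481 (L l515 (L l518 (T t8071 (K a135 (M a75 (F (T t2747 (L l203 (L l271 (L l272 (L l481 (L l515 (L l518 (T t8071 N)))))))))) (K a75 (M a135 (L l78 (F (T t3358 (L l66 (T t8074 (K a72 (M a73 (F (T t2747 (L l271 (L l272 (L l481 (L l515 (L l518 (T t8071 N))))))))) (K a73 (M a72 (F (L l272 (T t8061 (L l292 (L l297 (L l471 (T t2745 N)))))))) N)))))))) N)))))))))))) (K a135 (M a75 (L l339 (F (T t2747 (L l203 (L l271 (L l272 (L l481 (L l515 (L l518 (T t8071 (K a133 (M a74 (L l153 (L l335 (F (T t6522 (L l292 (L l297 (L l471 (T t5434 (K a132 (Fr a134 a14 l336 (V t6522)) (K a73 (M a13 (L l153 (F (T t6522 (L l56 (L l292 (L l297 (L l320 (L l471 (T t8053 (K a132 (Fr a134 a14 l336 (V t6522)) (K a134 (M a132 (F (T t6522 (L l129 (L l272 (T t8066 N)))))) N)))))))))))) (K a13 (Fr a73 a72 l78 (V t6522)) (K a134 (M a132 (L l335 (F (T t6522 (L l272 (T t8066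 (K a73 (M a13 (F (T t6522 (L l129 (L l272 (T t8066 N)))))) (K a13 (Fr a73 a72 l78 (V t6522)) N)))))))) N))))))))))))) (K a74 (M a133 (F (T t2747 (L l203 (L l271 (L l272 (L l481 (L l515 (L l518 (T t8071 N)))))))))) N))))))))))))) (K a75 (M a135 (L l339 (F (T t2747 (L l271 (L l272 (L l481 (L l515 (L l518 (T t8071 (K a133 (M a74 (L l335 (F (T t6522 (L l56 (L l292 (L l297 (L l471 (T t8053 (K a73 (M a13 (F (T t6522 (L l56 (L l292 (L l297 (L l320 (L l471 (T t8053 N))))))))) (K a13 (M a73 (F (T t6522 (L l56 (L l292 (L l297 (L l471 (T t8053 N)))))))) N))))))))))) (K a74 (M a133 (L l78 (F (T t3358 (L l66 (T t8074 (K a72 (M a73 (F (T t2747 (L l271 (L l272 (L l481 (L l515 (L l518 (T t8071 N))))))))) (K a73 (M a72 (F (L l272 (T t8061 (L l292 (L l297 (L l471 (T t2745 N)))))))) N)))))))) N)))))))))))) N))))))))))))))) (K a133 (M a74 (L l228 (L l337 (F (T t6522 (L l292 (L l297 (L l471 (T t2745 (K a193 (M a194 (L l335 (L l337 (F (T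 t6522 (L l292 (L l297 (L l471 (T t5434 (K a73 (M a13 (L l337 (F (T t6522 (L l56 (L l292 (L l297 (L l320 (L l471 (T t8053 (K a135 (M a75 (L l153 (F (T t6522 (L l56 (L l292 (L l297 (L l320 (L l471 (T t8053 (K a132 (Fr a134 a14 l336 (V t6522)) (K a134 (M a132 (F (T t6522 (L l129 (L l272 (T t8066 N)))))) N)))))))))))) (K a75 (M a135 (F (T t6522 (L l56 (L l292 (L l297 (L l320 (L l471 (T t8053 N))))))))) N)))))))))))) (K a13 (M a73 (L l337 (F (T t6522 (L l56 (L l292 (L l297 (L l471 (T t8053 (K a135 (Fr a75 a72 l78 (V t6522)) (K a75 (M a135 (F (T t6522 (L l56 (L l292 (L l297 (L l471 (T t8053 N)))))))) N))))))))))) (K a135 (M a75 (L l153 (L l335 (F (T t6522 (L l292 (L l297 (L l471 (T t5434 (K a132 (Fr a134 a14 l336 (V t6522)) (K a73 (M a13 (L l153 (F (T t6522 (L l56 (L l292 (L l297 (L l320 (L l471 (T t8053 (K a132 (Fr a134 a14 l336 (V t6522)) (K a134 (M a132 (F (T t6522 (L l129 (L l272 (T t8066 N)))))) N)))))))))))) (K a13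 (Fr a73 a72 l78 (V t6522)) (K a134 (M a132 (L l335 (F (T t6522 (L l272 (T t8066 (K a73 (M a13 (F (T t6522 (L l129 (L l272 (T t8066 N)))))) (K a13 (Fr a73 a72 l78 (V t6522)) N)))))))) N))))))))))))) (K a75 (M a135 (L l335 (F (T t6522 (L l56 (L l292 (L l297 (L l471 (T t8053 (K a73 (M a13 (F (T t6522 (L l56 (L l292 (L l297 (L l320 (L l471 (T t8053 N))))))))) (K a13 (M a73 (F (T t6522 (L l56 (L l292 (L l297 (L l471 (T t8053 N)))))))) N))))))))))) N))))))))))))) (K a194 (M a193 (L l337 (F (T t6522 (L l56 (L l292 (L l297 (L l471 (T t8053 (K a135 (M a75 (L l153 (F (T t6522 (L l292 (L l297 (L l471 (T t2745 (K a132 (M a134 (F (T t6522 (L l56 (L l292 (L l297 (L l471 (T t8053 N)))))))) (K a134 (M a132 (F (T t6522 (L l270 (L l272 (T t8066 N)))))) N)))))))))) (K a75 (M a135 (F (T t6522 (L l56 (L l292 (L l297 (L l471 (T t8053 N)))))))) N))))))))))) (K a135 (M a75 (L l153 (L l228 (F (T t6522 (L l56 (L l292 (L l297 (L l471 (T t8053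 (K a132 (M a134 (L l228 (F (T t6522 (L l198 (L l292 (L l297 (L l471 (T t2745 (K a193 (Fr a194 a14 l336 (V t6522)) (K a194 (M a193 (F (T t6522 (L l56 (L l292 (L l297 (L l471 (T t8053 N)))))))) N))))))))))) (K a193 (M a194 (L l153 (L l335 (F (T t6522 (L l292 (L l297 (L l471 (T t5434 (K a132 (Fr a134 a14 l336 (V t6522)) (K a73 (M a13 (L l153 (F (T t6522 (L l56 (L l292 (L l297 (L l320 (L l471 (T t8053 (K a132 (Fr a134 a14 l336 (V t6522)) (K a134 (M a132 (F (T t6522 (L l129 (L l272 (T t8066 N)))))) N)))))))))))) (K a13 (Fr a73 a72 l78 (V t6522)) (K a134 (M a132 (L l335 (F (T t6522 (L l272 (T t8066 (K a73 (M a13 (F (T t6522 (L l129 (L l272 (T t8066 N)))))) (K a13 (Fr a73 a72 l78 (V t6522)) N)))))))) N))))))))))))) (K a194 (M a193 (L l153 (F (T t6522 (L l292 (L l297 (L l471 (T t2745 (K a132 (M a134 (F (T t6522 (L l56 (L l292 (L l297 (L l471 (T t8053 N)))))))) (K a134 (M a132 (F (T t6522 (L l270 (L l272 (T t8066 N)))))) N))))))))))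 (K a134 (M a132 (L l228 (F (T t6522 (L l272 (T t8066 (K a193 (M a194 (L l335 (F (T t6522 (L l272 (T t8066 (K a73 (M a13 (F (T t6522 (L l129 (L l272 (T t8066 N)))))) (K a13 (Fr a73 a72 l78 (V t6522)) N)))))))) (K a194 (M a193 (F (T t6522 (L l270 (L l272 (T t8066 N)))))) N)))))))) N)))))))))))))) (K a75 (M a135 (L l228 (F (T t6522 (L l292 (L l297 (L l471 (T t2745 (K a193 (M a194 (L l335 (F (T t6522 (L l56 (L l292 (L l297 (L l471 (T t8053 (K a73 (M a13 (F (T t6522 (L l56 (L l292 (L l297 (L l320 (L l471 (T t8053 N))))))))) (K a13 (M a73 (F (T t6522 (L l56 (L l292 (L l297 (L l471 (T t8053 N)))))))) N))))))))))) (K a194 (M a193 (F (T t6522 (L l56 (L l292 (L l297 (L l471 (T t8053 N)))))))) N)))))))))) N))))))))))))) (K a194 (M a193 (L l337 (L l339 (F (T t2747 (L l270 (L l272 (L l336 (T t8065 (K a133 (M a74 (L l337 (F (T t6522 (L l56 (L l292 (L l297 (L l471 (T t8053 (K a135 (M a75 (L l153 (F (T t6522 (L l292 (L l297 (L l471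 (T t2745 (K a132 (M a134 (F (T t6522 (L l56 (L l292 (L l297 (L l471 (T t8053 N)))))))) (K a134 (M a132 (F (T t6522 (L l270 (L l272 (T t8066 N)))))) N)))))))))) (K a75 (M a135 (F (T t6522 (L l56 (L l292 (L l297 (L l471 (T t8053 N)))))))) N))))))))))) (K a74 (M a133 (L l336 (L l337 (F (T t3358 (L l26 (L l63 (L l78 (L l518 (T t8058 (K a134 (M a14 (L l337 (F (L l56 (T t3361 (L l26 (L l63 (L l78 (L l518 (T t8058 (K a135 (M a75 (F (L l314 (T t2747 (L l26 (L l63 (L l518 (T t8058 N)))))))) (K a75 (M a135 (L l78 (F (L l270 (L l272 (T t8056 (L l292 (L l297 (L l471 (T t2745 (K a72 (Fr a73 a13 l335 (V t2745)) (K a73 (M a72 (F (L l131 (T t8057 (L l56 (L l292 (L l297 (L l320 (L l471 (T t8053 N)))))))))) N)))))))))))) N)))))))))))) (K a14 (M a134 (L l337 (F (T t3358 (L l26 (L l60 (L l63 (L l78 (L l272 (L l518 (T t8055 (K a135 (M a75 (F (T t2747 (L l26 (L l60 (L l203 (L l518 (T t8059 N)))))))) (K a75 (Fr a135 a132 l153 (V t8053))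 N))))))))))))) (K a135 (M a75 (L l336 (F (T t2747 (L l26 (L l63 (L l518 (T t8058 (K a134 (M a14 (F (L l314 (T t2747 (L l26 (L l63 (L l518 (T t8058 N)))))))) (K a14 (M a134 (F (T t2747 (L l26 (L l60 (L l203 (L l518 (T t8059 N)))))))) N)))))))))) (K a75 (M a135 (L l78 (L l336 (F (L l518 (T t8060 (L l56 (L l84 (L l270 (L l272 (T t2415 (K a72 (Fr a73 a13 l335 (V t5434)) (K a73 (M a72 (L l336 (F (L l131 (T t8057 (L l56 (L l292 (L l297 (L l320 (L l471 (T t8053 (K a134 (M a14 (F (L l131 (T t8057 (L l56 (L l292 (L l297 (L l320 (L l471 (T t8053 N)))))))))) (K a14 (Fr a134 a132 l153 (V t8075)) N))))))))))))) (K a134 (M a14 (L l78 (F (L l270 (L l272 (T t8056 (L l292 (L l297 (L l471 (T t2745 (K a72 (Fr a73 a13 l335 (V t2745)) (K a73 (M a72 (F (L l131 (T t8057 (L l56 (L l292 (L l297 (L l320 (L l471 (T t8053 N)))))))))) N)))))))))))) (K a14 (Fr a134 a132 l153 (V t8053)) N))))))))))))))) N)))))))))))))) (K a135 (M a75 (L l339 (F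 (T t2747 (L l270 (L l272 (L l336 (T t8065 (K a133 (M a74 (L l153 (F (T t6522 (L l292 (L l297 (L l471 (T t2745 (K a132 (M a134 (F (T t6522 (L l56 (L l292 (L l297 (L l471 (T t8053 N)))))))) (K a134 (M a132 (F (T t6522 (L l270 (L l272 (T t8066 N)))))) N)))))))))) (K a74 (M a133 (L l336 (F (T t2747 (L l26 (L l63 (L l518 (T t8058 (K a134 (M a14 (F (L l314 (T t2747 (L l26 (L l63 (L l518 (T t8058 N)))))))) (K a14 (M a134 (F (T t2747 (L l26 (L l60 (L l203 (L l518 (T t8059 N)))))))) N)))))))))) N)))))))))) (K a75 (M a135 (L l339 (F (T t2747 (L l270 (L l272 (L l336 (T t8065 (K a133 (M a74 (F (T t6522 (L l56 (L l292 (L l297 (L l471 (T t8053 N)))))))) (K a74 (M a133 (L l78 (L l336 (F (L l518 (T t8060 (L l56 (L l84 (L l270 (L l272 (T t2415 (K a72 (Fr a73 a13 l335 (V t5434)) (K a73 (M a72 (L l336 (F (L l131 (T t8057 (L l56 (L l292 (L l297 (L l320 (L l471 (T t8053 (K a134 (M a14 (F (L l131 (T t8057 (L l56 (L l292 (L l297 (L l320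 (L l471 (T t8053 N)))))))))) (K a14 (Fr a134 a132 l153 (V t8075)) N))))))))))))) (K a134 (M a14 (L l78 (F (L l270 (L l272 (T t8056 (L l292 (L l297 (L l471 (T t2745 (K a72 (Fr a73 a13 l335 (V t2745)) (K a73 (M a72 (F (L l131 (T t8057 (L l56 (L l292 (L l297 (L l320 (L l471 (T t8053 N)))))))))) N)))))))))))) (K a14 (Fr a134 a132 l153 (V t8053)) N))))))))))))))) N)))))))))) N))))))))))))) (K a74 (M a133 (L l228 (L l337 (F (T t3358 (L l56 (L l84 (L l272 (T t2415 (L l481 (T t8076 (K a193 (M a194 (L l337 (F (T t3358 (L l271 (L l272 (L l481 (L l515 (L l518 (T t8071 (K a135 (M a75 (F (T t2747 (L l203 (L l271 (L l272 (L l481 (L l515 (L l518 (T t8071 N)))))))))) (K a75 (M a135 (L l78 (F (T t3358 (L l66 (T t8074 (K a72 (M a73 (F (T t2747 (L l271 (L l272 (L l481 (L l515 (L l518 (T t8071 N))))))))) (K a73 (M a72 (F (L l272 (T t8061 (L l292 (L l297 (L l471 (T t2745 N)))))))) N)))))))) N)))))))))))) (K a194 (M a193 (L l336 (L l337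 (F (T t3358 (L l26 (L l63 (L l78 (L l518 (T t8058 (K a134 (M a14 (L l337 (F (L l56 (T t3361 (L l26 (L l63 (L l78 (L l518 (T t8058 (K a135 (M a75 (F (L l314 (T t2747 (L l26 (L l63 (L l518 (T t8058 N)))))))) (K a75 (M a135 (L l78 (F (L l270 (L l272 (T t8056 (L l292 (L l297 (L l471 (T t2745 (K a72 (Fr a73 a13 l335 (V t2745)) (K a73 (M a72 (F (L l131 (T t8057 (L l56 (L l292 (L l297 (L l320 (L l471 (T t8053 N)))))))))) N)))))))))))) N)))))))))))) (K a14 (M a134 (L l337 (F (T t3358 (L l26 (L l60 (L l63 (L l78 (L l272 (L l518 (T t8055 (K a135 (M a75 (F (T t2747 (L l26 (L l60 (L l203 (L l518 (T t8059 N)))))))) (K a75 (Fr a135 a132 l153 (V t8053)) N))))))))))))) (K a135 (M a75 (L l336 (F (T t2747 (L l26 (L l63 (L l518 (T t8058 (K a134 (M a14 (F (L l314 (T t2747 (L l26 (L l63 (L l518 (T t8058 N)))))))) (K a14 (M a134 (F (T t2747 (L l26 (L l60 (L l203 (L l518 (T t8059 N)))))))) N)))))))))) (K a75 (M a135 (L l78 (L l336 (F (L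 l518 (T t8060 (L l56 (L l84 (L l270 (L l272 (T t2415 (K a72 (Fr a73 a13 l335 (V t5434)) (K a73 (M a72 (L l336 (F (L l131 (T t8057 (L l56 (L l292 (L l297 (L l320 (L l471 (T t8053 (K a134 (M a14 (F (L l131 (T t8057 (L l56 (L l292 (L l297 (L l320 (L l471 (T t8053 N)))))))))) (K a14 (Fr a134 a132 l153 (V t8075)) N))))))))))))) (K a134 (M a14 (L l78 (F (L l270 (L l272 (T t8056 (L l292 (L l297 (L l471 (T t2745 (K a72 (Fr a73 a13 l335 (V t2745)) (K a73 (M a72 (F (L l131 (T t8057 (L l56 (L l292 (L l297 (L l320 (L l471 (T t8053 N)))))))))) N)))))))))))) (K a14 (Fr a134 a132 l153 (V t8053)) N))))))))))))))) N)))))))))))))) (K a135 (M a75 (L l228 (F (T t3358 (L l56 (L l84 (L l272 (T t2415 (L l201 (L l481 (T t8076 (K a193 (M a194 (F (T t2747 (L l203 (L l271 (L l272 (L l481 (L l515 (L l518 (T t8071 N)))))))))) (K a194 (M a193 (L l336 (F (T t2747 (L l26 (L l63 (L l518 (T t8058 (K a134 (M a14 (F (L l314 (T t2747 (L l26 (L l63 (L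 l518 (T t8058 N)))))))) (K a14 (M a134 (F (T t2747 (L l26 (L l60 (L l203 (L l518 (T t8059 N)))))))) N)))))))))) N))))))))))))) (K a75 (M a135 (L l78 (L l228 (F (T t3358 (L l56 (L l84 (L l272 (T t2415 (L l336 (L l514 (L l518 (T t8077 (K a72 (M a73 (L l228 (F (T t3358 (L l56 (L l80 (L l84 (L l272 (L l316 (T t2415 (L l128 (L l336 (L l514 (L l518 (T t8077 (K a193 (M a194 (F (T t2747 (L l271 (L l272 (L l481 (L l515 (L l518 (T t8071 N))))))))) (K a194 (Fr a193 a13 l335 (V t5434)) N))))))))))))))))) (K a193 (M a194 (L l78 (F (T t3358 (L l66 (T t8074 (K a72 (M a73 (F (T t2747 (L l271 (L l272 (L l481 (L l515 (L l518 (T t8071 N))))))))) (K a73 (M a72 (F (L l272 (T t8061 (L l292 (L l297 (L l471 (T t2745 N)))))))) N)))))))) (K a73 (M a72 (L l228 (F (L l272 (T t8061 (L l56 (L l292 (L l297 (L l320 (L l471 (T t8053 (K a193 (M a194 (F (L l272 (T t8061 (L l292 (L l297 (L l471 (T t2745 N)))))))) (K a194 (M a193 (L l336 (F (L l131 (T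 t8057 (L l56 (L l292 (L l297 (L l320 (L l471 (T t8053 (K a134 (M a14 (F (L l131 (T t8057 (L l56 (L l292 (L l297 (L l320 (L l471 (T t8053 N)))))))))) (K a14 (Fr a134 a132 l153 (V t8075)) N))))))))))))) N))))))))))))) (K a194 (M a193 (L l78 (L l336 (F (L l518 (T t8060 (L l56 (L l84 (L l270 (L l272 (T t2415 (K a72 (Fr a73 a13 l335 (V t5434)) (K a73 (M a72 (L l336 (F (L l131 (T t8057 (L l56 (L l292 (L l297 (L l320 (L l471 (T t8053 (K a134 (M a14 (F (L l131 (T t8057 (L l56 (L l292 (L l297 (L l320 (L l471 (T t8053 N)))))))))) (K a14 (Fr a134 a132 l153 (V t8075)) N))))))))))))) (K a134 (M a14 (L l78 (F (L l270 (L l272 (T t8056 (L l292 (L l297 (L l471 (T t2745 (K a72 (Fr a73 a13 l335 (V t2745)) (K a73 (M a72 (F (L l131 (T t8057 (L l56 (L l292 (L l297 (L l320 (L l471 (T t8053 N)))))))))) N)))))))))))) (K a14 (Fr a134 a132 l153 (V t8053)) N))))))))))))))) N))))))))))))))))) N))))))))))))))) (K a135 (M a75 (L l228 (L l339 (F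 (T t2747 (L l272 (T t8065 (K a193 (M a194 (L l339 (F (T t2747 (L l203 (L l271 (L l272 (L l481 (L l515 (L l518 (T t8071 (K a133 (M a74 (L l153 (L l335 (F (T t6522 (L l292 (L l297 (L l471 (T t5434 (K a132 (Fr a134 a14 l336 (V t6522)) (K a73 (M a13 (L l153 (F (T t6522 (L l56 (L l292 (L l297 (L l320 (L l471 (T t8053 (K a132 (Fr a134 a14 l336 (V t6522)) (K a134 (M a132 (F (T t6522 (L l129 (L l272 (T t8066 N)))))) N)))))))))))) (K a13 (Fr a73 a72 l78 (V t6522)) (K a134 (M a132 (L l335 (F (T t6522 (L l272 (T t8066 (K a73 (M a13 (F (T t6522 (L l129 (L l272 (T t8066 N)))))) (K a13 (Fr a73 a72 l78 (V t6522)) N)))))))) N))))))))))))) (K a74 (M a133 (F (T t2747 (L l203 (L l271 (L l272 (L l481 (L l515 (L l518 (T t8071 N)))))))))) N))))))))))))) (K a133 (M a74 (L l153 (L l228 (F (T t6522 (L l56 (L l292 (L l297 (L l471 (T t8053 (K a132 (M a134 (L l228 (F (T t6522 (L l198 (L l292 (L l297 (L l471 (T t2745 (K a193 (Fr a194 a14 l336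 (V t6522)) (K a194 (M a193 (F (T t6522 (L l56 (L l292 (L l297 (L l471 (T t8053 N)))))))) N))))))))))) (K a193 (M a194 (L l153 (L l335 (F (T t6522 (L l292 (L l297 (L l471 (T t5434 (K a132 (Fr a134 a14 l336 (V t6522)) (K a73 (M a13 (L l153 (F (T t6522 (L l56 (L l292 (L l297 (L l320 (L l471 (T t8053 (K a132 (Fr a134 a14 l336 (V t6522)) (K a134 (M a132 (F (T t6522 (L l129 (L l272 (T t8066 N)))))) N)))))))))))) (K a13 (Fr a73 a72 l78 (V t6522)) (K a134 (M a132 (L l335 (F (T t6522 (L l272 (T t8066 (K a73 (M a13 (F (T t6522 (L l129 (L l272 (T t8066 N)))))) (K a13 (Fr a73 a72 l78 (V t6522)) N)))))))) N))))))))))))) (K a194 (M a193 (L l153 (F (T t6522 (L l292 (L l297 (L l471 (T t2745 (K a132 (M a134 (F (T t6522 (L l56 (L l292 (L l297 (L l471 (T t8053 N)))))))) (K a134 (M a132 (F (T t6522 (L l270 (L l272 (T t8066 N)))))) N)))))))))) (K a134 (M a132 (L l228 (F (T t6522 (L l272 (T t8066 (K a193 (M a194 (L l335 (F (T t6522 (L l272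 (T t8066 (K a73 (M a13 (F (T t6522 (L l129 (L l272 (T t8066 N)))))) (K a13 (Fr a73 a72 l78 (V t6522)) N)))))))) (K a194 (M a193 (F (T t6522 (L l270 (L l272 (T t8066 N)))))) N)))))))) N)))))))))))))) (K a194 (M a193 (L l339 (F (T t2747 (L l270 (L l272 (L l336 (T t8065 (K a133 (M a74 (L l153 (F (T t6522 (L l292 (L l297 (L l471 (T t2745 (K a132 (M a134 (F (T t6522 (L l56 (L l292 (L l297 (L l471 (T t8053 N)))))))) (K a134 (M a132 (F (T t6522 (L l270 (L l272 (T t8066 N)))))) N)))))))))) (K a74 (M a133 (L l336 (F (T t2747 (L l26 (L l63 (L l518 (T t8058 (K a134 (M a14 (F (L l314 (T t2747 (L l26 (L l63 (L l518 (T t8058 N)))))))) (K a14 (M a134 (F (T t2747 (L l26 (L l60 (L l203 (L l518 (T t8059 N)))))))) N)))))))))) N)))))))))) (K a74 (M a133 (L l228 (F (T t3358 (L l56 (L l84 (L l272 (T t2415 (L l201 (L l481 (T t8076 (K a193 (M a194 (F (T t2747 (L l203 (L l271 (L l272 (L l481 (L l515 (L l518 (T t8071 N)))))))))) (K a194 (M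 a193 (L l336 (F (T t2747 (L l26 (L l63 (L l518 (T t8058 (K a134 (M a14 (F (L l314 (T t2747 (L l26 (L l63 (L l518 (T t8058 N)))))))) (K a14 (M a134 (F (T t2747 (L l26 (L l60 (L l203 (L l518 (T t8059 N)))))))) N)))))))))) N))))))))))))) N))))))))))) (K a75 (M a135 (L l228 (L l339 (F (T t3358 (L l272 (T t8065 (K a193 (M a194 (L l339 (F (T t2747 (L l271 (L l272 (L l481 (L l515 (L l518 (T t8071 (K a133 (M a74 (L l335 (F (T t6522 (L l56 (L l292 (L l297 (L l471 (T t8053 (K a73 (M a13 (F (T t6522 (L l56 (L l292 (L l297 (L l320 (L l471 (T t8053 N))))))))) (K a13 (M a73 (F (T t6522 (L l56 (L l292 (L l297 (L l471 (T t8053 N)))))))) N))))))))))) (K a74 (M a133 (L l78 (F (T t3358 (L l66 (T t8074 (K a72 (M a73 (F (T t2747 (L l271 (L l272 (L l481 (L l515 (L l518 (T t8071 N))))))))) (K a73 (M a72 (F (L l272 (T t8061 (L l292 (L l297 (L l471 (T t2745 N)))))))) N)))))))) N)))))))))))) (K a133 (M a74 (L l228 (F (T t6522 (L l292 (L l297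 (L l471 (T t2745 (K a193 (M a194 (L l335 (F (T t6522 (L l56 (L l292 (L l297 (L l471 (T t8053 (K a73 (M a13 (F (T t6522 (L l56 (L l292 (L l297 (L l320 (L l471 (T t8053 N))))))))) (K a13 (M a73 (F (T t6522 (L l56 (L l292 (L l297 (L l471 (T t8053 N)))))))) N))))))))))) (K a194 (M a193 (F (T t6522 (L l56 (L l292 (L l297 (L l471 (T t8053 N)))))))) N)))))))))) (K a194 (M a193 (L l339 (F (T t2747 (L l270 (L l272 (L l336 (T t8065 (K a133 (M a74 (F (T t6522 (L l56 (L l292 (L l297 (L l471 (T t8053 N)))))))) (K a74 (M a133 (L l78 (L l336 (F (L l518 (T t8060 (L l56 (L l84 (L l270 (L l272 (T t2415 (K a72 (Fr a73 a13 l335 (V t5434)) (K a73 (M a72 (L l336 (F (L l131 (T t8057 (L l56 (L l292 (L l297 (L l320 (L l471 (T t8053 (K a134 (M a14 (F (L l131 (T t8057 (L l56 (L l292 (L l297 (L l320 (L l471 (T t8053 N)))))))))) (K a14 (Fr a134 a132 l153 (V t8075)) N))))))))))))) (K a134 (M a14 (L l78 (F (L l270 (L l272 (T t8056 (L l292 (L l297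 (L l471 (T t2745 (K a72 (Fr a73 a13 l335 (V t2745)) (K a73 (M a72 (F (L l131 (T t8057 (L l56 (L l292 (L l297 (L l320 (L l471 (T t8053 N)))))))))) N)))))))))))) (K a14 (Fr a134 a132 l153 (V t8053)) N))))))))))))))) N)))))))))) (K a74 (M a133 (L l78 (L l228 (F (T t3358 (L l56 (L l84 (L l272 (T t2415 (L l336 (L l514 (L l518 (T t8077 (K a72 (M a73 (L l228 (F (T t3358 (L l56 (L l80 (L l84 (L l272 (L l316 (T t2415 (L l128 (L l336 (L l514 (L l518 (T t8077 (K a193 (M a194 (F (T t2747 (L l271 (L l272 (L l481 (L l515 (L l518 (T t8071 N))))))))) (K a194 (Fr a193 a13 l335 (V t5434)) N))))))))))))))))) (K a193 (M a194 (L l78 (F (T t3358 (L l66 (T t8074 (K a72 (M a73 (F (T t2747 (L l271 (L l272 (L l481 (L l515 (L l518 (T t8071 N))))))))) (K a73 (M a72 (F (L l272 (T t8061 (L l292 (L l297 (L l471 (T t2745 N)))))))) N)))))))) (K a73 (M a72 (L l228 (F (L l272 (T t8061 (L l56 (L l292 (L l297 (L l320 (L l471 (T t8053 (K a193 (M a194 (F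 (L l272 (T t8061 (L l292 (L l297 (L l471 (T t2745 N)))))))) (K a194 (M a193 (L l336 (F (L l131 (T t8057 (L l56 (L l292 (L l297 (L l320 (L l471 (T t8053 (K a134 (M a14 (F (L l131 (T t8057 (L l56 (L l292 (L l297 (L l320 (L l471 (T t8053 N)))))))))) (K a14 (Fr a134 a132 l153 (V t8075)) N))))))))))))) N))))))))))))) (K a194 (M a193 (L l78 (L l336 (F (L l518 (T t8060 (L l56 (L l84 (L l270 (L l272 (T t2415 (K a72 (Fr a73 a13 l335 (V t5434)) (K a73 (M a72 (L l336 (F (L l131 (T t8057 (L l56 (L l292 (L l297 (L l320 (L l471 (T t8053 (K a134 (M a14 (F (L l131 (T t8057 (L l56 (L l292 (L l297 (L l320 (L l471 (T t8053 N)))))))))) (K a14 (Fr a134 a132 l153 (V t8075)) N))))))))))))) (K a134 (M a14 (L l78 (F (L l270 (L l272 (T t8056 (L l292 (L l297 (L l471 (T t2745 (K a72 (Fr a73 a13 l335 (V t2745)) (K a73 (M a72 (F (L l131 (T t8057 (L l56 (L l292 (L l297 (L l320 (L l471 (T t8053 N)))))))))) N)))))))))))) (K a14 (Fr a134 a132 l153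 (V t8053)) N))))))))))))))) N))))))))))))))))) N))))))))))) N)))))))))))))) (K a193 (M a194 (F (L l339 (T t4781 (L l271 (L l272 (L l515 (L l518 (T t8071 (K a181 (M a12 (F (T t2747 (L l337 (L l339 (L l443 (L l515 (L l518 (T t8073 N))))))))) (K a122 (M a12 (F (T t2747 (L l337 (L l339 (L l515 (L l518 (T t8073 N)))))))) N))))))))))) (K a194 (M a193 (F (L l336 (L l339 (T t4781 (L l234 (L l236 (L l336 (L l339 (T t6500 (L l295 (L l296 (L l336 (L l339 (T t6501 (L l28 (L l336 (L l339 (T t6502 (L l336 (L l339 (T t6503 (K a133 (M a90 (L l339 (F (T t4788 (T t6504 (K a74 (Fr a15 a165 l483 (V t8050)) (K a15 (Fr a74 a122 l130 (V t6506)) N))))))) (K a85 (M a12 (F (L l292 (L l297 (T t2745 (L l91 (L l270 (L l272 (L l336 (L l339 (T t8051 N))))))))))) (K a181 (M a12 (F (T t2747 (L l56 (L l270 (L l272 (T t2415 (L l270 (L l272 (T t6512 N)))))))))) (K a134 (M a12 (L l336 (F (L l314 (T t2747 (L l270 (L l272 (T t8052 (K a74 (M a14 (L l339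 (F (T t734 (L l56 (L l292 (L l297 (T t8053 (K a133 (Fr a15 a13 l3 (V t7324)) (K a15 (M a133 (L l337 (F (L l56 (T t3361 (L l26 (L l63 (L l78 (L l518 (T t8058 (K a135 (M a75 (F (L l314 (T t2747 (L l26 (L l63 (L l518 (T t8058 N)))))))) (K a75 (M a135 (L l78 (F (L l270 (L l272 (T t8056 (L l292 (L l297 (L l471 (T t2745 (K a72 (Fr a73 a13 l335 (V t2745)) (K a73 (M a72 (F (L l131 (T t8057 (L l56 (L l292 (L l297 (L l320 (L l471 (T t8053 N)))))))))) N)))))))))))) N)))))))))))) N)))))))))) (K a14 (M a74 (F (T t6522 (L l56 (L l292 (L l297 (T t8053 N))))))) N)))))))))) (K a74 (M a12 (L l336 (L l339 (F (T t2747 (L l56 (L l84 (L l270 (L l272 (T t2415 (L l270 (L l272 (T t6512 (K a133 (M a15 (L l336 (F (T t7325 (L l56 (L l292 (L l297 (T t8053 (K a134 (Fr a14 a13 l3 (V t7324)) (K a14 (M a134 (F (T t7325 (L l292 (L l297 (T t2745 N)))))) N)))))))))) (K a134 (M a14 (L l339 (F (T t734 (L l56 (L l292 (L l297 (T t8053 (K a133 (Fr a15 a13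 l3 (V t7324)) (K a15 (M a133 (L l337 (F (L l56 (T t3361 (L l26 (L l63 (L l78 (L l518 (T t8058 (K a135 (M a75 (F (L l314 (T t2747 (L l26 (L l63 (L l518 (T t8058 N)))))))) (K a75 (M a135 (L l78 (F (L l270 (L l272 (T t8056 (L l292 (L l297 (L l471 (T t2745 (K a72 (Fr a73 a13 l335 (V t2745)) (K a73 (M a72 (F (L l131 (T t8057 (L l56 (L l292 (L l297 (L l320 (L l471 (T t8053 N)))))))))) N)))))))))))) N)))))))))))) N)))))))))) (K a14 (M a134 (L l339 (F (T t3358 (L l56 (L l84 (L l270 (L l272 (T t2415 (L l270 (L l272 (T t6512 (K a133 (M a15 (F (T t7325 (L l292 (L l297 (T t2745 N)))))) (K a15 (M a133 (L l337 (F (T t3358 (L l26 (L l60 (L l63 (L l78 (L l272 (L l518 (T t8055 (K a135 (M a75 (F (T t2747 (L l26 (L l60 (L l203 (L l518 (T t8059 N)))))))) (K a75 (Fr a135 a132 l153 (V t8053)) N))))))))))))) N)))))))))))))) (K a15 (M a133 (L l336 (L l337 (F (T t3358 (L l26 (L l63 (L l78 (L l518 (T t8058 (K a134 (M a14 (L l337 (F (L l56 (T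 t3361 (L l26 (L l63 (L l78 (L l518 (T t8058 (K a135 (M a75 (F (L l314 (T t2747 (L l26 (L l63 (L l518 (T t8058 N)))))))) (K a75 (M a135 (L l78 (F (L l270 (L l272 (T t8056 (L l292 (L l297 (L l471 (T t2745 (K a72 (Fr a73 a13 l335 (V t2745)) (K a73 (M a72 (F (L l131 (T t8057 (L l56 (L l292 (L l297 (L l320 (L l471 (T t8053 N)))))))))) N)))))))))))) N)))))))))))) (K a14 (M a134 (L l337 (F (T t3358 (L l26 (L l60 (L l63 (L l78 (L l272 (L l518 (T t8055 (K a135 (M a75 (F (T t2747 (L l26 (L l60 (L l203 (L l518 (T t8059 N)))))))) (K a75 (Fr a135 a132 l153 (V t8053)) N))))))))))))) (K a135 (M a75 (L l336 (F (T t2747 (L l26 (L l63 (L l518 (T t8058 (K a134 (M a14 (F (L l314 (T t2747 (L l26 (L l63 (L l518 (T t8058 N)))))))) (K a14 (M a134 (F (T t2747 (L l26 (L l60 (L l203 (L l518 (T t8059 N)))))))) N)))))))))) (K a75 (M a135 (L l78 (L l336 (F (L l518 (T t8060 (L l56 (L l84 (L l270 (L l272 (T t2415 (K a72 (Fr a73 a13 l335 (V t5434))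 (K a73 (M a72 (L l336 (F (L l131 (T t8057 (L l56 (L l292 (L l297 (L l320 (L l471 (T t8053 (K a134 (M a14 (F (L l131 (T t8057 (L l56 (L l292 (L l297 (L l320 (L l471 (T t8053 N)))))))))) (K a14 (Fr a134 a132 l153 (V t8075)) N))))))))))))) (K a134 (M a14 (L l78 (F (L l270 (L l272 (T t8056 (L l292 (L l297 (L l471 (T t2745 (K a72 (Fr a73 a13 l335 (V t2745)) (K a73 (M a72 (F (L l131 (T t8057 (L l56 (L l292 (L l297 (L l320 (L l471 (T t8053 N)))))))))) N)))))))))))) (K a14 (Fr a134 a132 l153 (V t8053)) N))))))))))))))) N)))))))))))))) N))))))))))))))))) (K a90 (M a241 (F (L l270 (L l480 (T t8062 (L l133 (L l339 (L l518 (T t8063 N))))))))) (K a122 (M a12 (F (T t2747 (L l56 (L l270 (L l272 (T t2415 (L l270 (L l272 (T t6512 N)))))))))) (K a14 (M a12 (L l336 (F (T t2747 (L l56 (L l270 (L l272 (T t2415 (L l270 (L l272 (T t8064 (K a134 (M a74 (F (T t6522 (L l56 (L l292 (L l297 (T t8053 N))))))) (K a74 (M a134 (L l339 (F (T t3358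 (L l56 (L l84 (L l270 (L l272 (T t2415 (L l270 (L l272 (T t6512 (K a133 (M a15 (F (T t7325 (L l292 (L l297 (T t2745 N)))))) (K a15 (M a133 (L l337 (F (T t3358 (L l26 (L l60 (L l63 (L l78 (L l272 (L l518 (T t8055 (K a135 (M a75 (F (T t2747 (L l26 (L l60 (L l203 (L l518 (T t8059 N)))))))) (K a75 (Fr a135 a132 l153 (V t8053)) N))))))))))))) N)))))))))))))) N))))))))))))) (K a15 (M a12 (L l337 (L l339 (F (T t2747 (L l270 (L l272 (L l336 (T t8065 (K a133 (M a74 (L l337 (F (T t6522 (L l56 (L l292 (L l297 (L l471 (T t8053 (K a135 (M a75 (L l153 (F (T t6522 (L l292 (L l297 (L l471 (T t2745 (K a132 (M a134 (F (T t6522 (L l56 (L l292 (L l297 (L l471 (T t8053 N)))))))) (K a134 (M a132 (F (T t6522 (L l270 (L l272 (T t8066 N)))))) N)))))))))) (K a75 (M a135 (F (T t6522 (L l56 (L l292 (L l297 (L l471 (T t8053 N)))))))) N))))))))))) (K a74 (M a133 (L l336 (L l337 (F (T t3358 (L l26 (L l63 (L l78 (L l518 (T t8058 (K a134 (M a14 (L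 l337 (F (L l56 (T t3361 (L l26 (L l63 (L l78 (L l518 (T t8058 (K a135 (M a75 (F (L l314 (T t2747 (L l26 (L l63 (L l518 (T t8058 N)))))))) (K a75 (M a135 (L l78 (F (L l270 (L l272 (T t8056 (L l292 (L l297 (L l471 (T t2745 (K a72 (Fr a73 a13 l335 (V t2745)) (K a73 (M a72 (F (L l131 (T t8057 (L l56 (L l292 (L l297 (L l320 (L l471 (T t8053 N)))))))))) N)))))))))))) N)))))))))))) (K a14 (M a134 (L l337 (F (T t3358 (L l26 (L l60 (L l63 (L l78 (L l272 (L l518 (T t8055 (K a135 (M a75 (F (T t2747 (L l26 (L l60 (L l203 (L l518 (T t8059 N)))))))) (K a75 (Fr a135 a132 l153 (V t8053)) N))))))))))))) (K a135 (M a75 (L l336 (F (T t2747 (L l26 (L l63 (L l518 (T t8058 (K a134 (M a14 (F (L l314 (T t2747 (L l26 (L l63 (L l518 (T t8058 N)))))))) (K a14 (M a134 (F (T t2747 (L l26 (L l60 (L l203 (L l518 (T t8059 N)))))))) N)))))))))) (K a75 (M a135 (L l78 (L l336 (F (L l518 (T t8060 (L l56 (L l84 (L l270 (L l272 (T t2415 (K a72 (Fr a73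 a13 l335 (V t5434)) (K a73 (M a72 (L l336 (F (L l131 (T t8057 (L l56 (L l292 (L l297 (L l320 (L l471 (T t8053 (K a134 (M a14 (F (L l131 (T t8057 (L l56 (L l292 (L l297 (L l320 (L l471 (T t8053 N)))))))))) (K a14 (Fr a134 a132 l153 (V t8075)) N))))))))))))) (K a134 (M a14 (L l78 (F (L l270 (L l272 (T t8056 (L l292 (L l297 (L l471 (T t2745 (K a72 (Fr a73 a13 l335 (V t2745)) (K a73 (M a72 (F (L l131 (T t8057 (L l56 (L l292 (L l297 (L l320 (L l471 (T t8053 N)))))))))) N)))))))))))) (K a14 (Fr a134 a132 l153 (V t8053)) N))))))))))))))) N)))))))))))))) (K a135 (M a75 (L l339 (F (T t2747 (L l270 (L l272 (L l336 (T t8065 (K a133 (M a74 (L l153 (F (T t6522 (L l292 (L l297 (L l471 (T t2745 (K a132 (M a134 (F (T t6522 (L l56 (L l292 (L l297 (L l471 (T t8053 N)))))))) (K a134 (M a132 (F (T t6522 (L l270 (L l272 (T t8066 N)))))) N)))))))))) (K a74 (M a133 (L l336 (F (T t2747 (L l26 (L l63 (L l518 (T t8058 (K a134 (M a14 (F (L l314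 (T t2747 (L l26 (L l63 (L l518 (T t8058 N)))))))) (K a14 (M a134 (F (T t2747 (L l26 (L l60 (L l203 (L l518 (T t8059 N)))))))) N)))))))))) N)))))))))) (K a75 (M a135 (L l339 (F (T t2747 (L l270 (L l272 (L l336 (T t8065 (K a133 (M a74 (F (T t6522 (L l56 (L l292 (L l297 (L l471 (T t8053 N)))))))) (K a74 (M a133 (L l78 (L l336 (F (L l518 (T t8060 (L l56 (L l84 (L l270 (L l272 (T t2415 (K a72 (Fr a73 a13 l335 (V t5434)) (K a73 (M a72 (L l336 (F (L l131 (T t8057 (L l56 (L l292 (L l297 (L l320 (L l471 (T t8053 (K a134 (M a14 (F (L l131 (T t8057 (L l56 (L l292 (L l297 (L l320 (L l471 (T t8053 N)))))))))) (K a14 (Fr a134 a132 l153 (V t8075)) N))))))))))))) (K a134 (M a14 (L l78 (F (L l270 (L l272 (T t8056 (L l292 (L l297 (L l471 (T t2745 (K a72 (Fr a73 a13 l335 (V t2745)) (K a73 (M a72 (F (L l131 (T t8057 (L l56 (L l292 (L l297 (L l320 (L l471 (T t8053 N)))))))))) N)))))))))))) (K a14 (Fr a134 a132 l153 (V t8053)) N)))))))))))))))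 N)))))))))) N))))))))))))) N))))))))))))))))))))))))))))))) N))))))))))))))))))))))))))⟩
def e0_63_106__195_42_117 : Ent 4 := ⟨[a0, a63, a106], [a195, a42, a193], (M a48 (L l228 (F (T t585 (L l273 (L l515 (T t551 (L l28 (T t579 (K a192 (M a194 (F (L l28 (L l236 (T t579 (L l487 (L l489 (L l515 (L l518 (T t8038 (L l22 (L l28 (L l515 (L l518 (T t8039 N))))))))))))))) (K a194 (Fr a192 a149 l519 (V t6558)) N)))))))))))⟩
def e0_63_106__195_42_118 : Ent 4 := ⟨[a0, a63, a106], [a195, a42, a194], (M a240 (L l228 (F (L l336 (T t6525 (L l488 (T t817 (L l336 (T t4781 (K a192 (M a193 (F (L l336 (L l339 (T t4781 (L l234 (L l236 (L l336 (L l339 (T t6500 (L l295 (L l296 (L l336 (L l339 (T t6501 (L l28 (L l336 (L l339 (T t6502 (L l336 (L l339 (T t6503 (K a133 (M a90 (L l339 (F (T t4788 (T t6504 (K a74 (Fr a15 a165 l483 (V t8050)) (K a15 (Fr a74 a122 l130 (V t6506)) N))))))) (K a85 (M a12 (F (L l292 (L l297 (T t2745 (L l91 (L l270 (L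 l272 (L l336 (L l339 (T t8051 N))))))))))) (K a181 (M a12 (F (T t2747 (L l56 (L l270 (L l272 (T t2415 (L l270 (L l272 (T t6512 N)))))))))) (K a134 (M a12 (L l336 (F (L l314 (T t2747 (L l270 (L l272 (T t8052 (K a74 (M a14 (L l339 (F (T t734 (L l56 (L l292 (L l297 (T t8053 (K a133 (Fr a15 a13 l3 (V t7324)) (K a15 (M a133 (L l337 (F (L l56 (T t3361 (L l26 (L l63 (L l78 (L l518 (T t8058 (K a135 (M a75 (F (L l314 (T t2747 (L l26 (L l63 (L l518 (T t8058 N)))))))) (K a75 (M a135 (L l78 (F (L l270 (L l272 (T t8056 (L l292 (L l297 (L l471 (T t2745 (K a72 (Fr a73 a13 l335 (V t2745)) (K a73 (M a72 (F (L l131 (T t8057 (L l56 (L l292 (L l297 (L l320 (L l471 (T t8053 N)))))))))) N)))))))))))) N)))))))))))) N)))))))))) (K a14 (M a74 (F (T t6522 (L l56 (L l292 (L l297 (T t8053 N))))))) N)))))))))) (K a74 (M a12 (L l336 (L l339 (F (T t2747 (L l56 (L l84 (L l270 (L l272 (T t2415 (L l270 (L l272 (T t6512 (K a133 (M a15 (L l336 (F (T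 t7325 (L l56 (L l292 (L l297 (T t8053 (K a134 (Fr a14 a13 l3 (V t7324)) (K a14 (M a134 (F (T t7325 (L l292 (L l297 (T t2745 N)))))) N)))))))))) (K a134 (M a14 (L l339 (F (T t734 (L l56 (L l292 (L l297 (T t8053 (K a133 (Fr a15 a13 l3 (V t7324)) (K a15 (M a133 (L l337 (F (L l56 (T t3361 (L l26 (L l63 (L l78 (L l518 (T t8058 (K a135 (M a75 (F (L l314 (T t2747 (L l26 (L l63 (L l518 (T t8058 N)))))))) (K a75 (M a135 (L l78 (F (L l270 (L l272 (T t8056 (L l292 (L l297 (L l471 (T t2745 (K a72 (Fr a73 a13 l335 (V t2745)) (K a73 (M a72 (F (L l131 (T t8057 (L l56 (L l292 (L l297 (L l320 (L l471 (T t8053 N)))))))))) N)))))))))))) N)))))))))))) N)))))))))) (K a14 (M a134 (L l339 (F (T t3358 (L l56 (L l84 (L l270 (L l272 (T t2415 (L l270 (L l272 (T t6512 (K a133 (M a15 (F (T t7325 (L l292 (L l297 (T t2745 N)))))) (K a15 (M a133 (L l337 (F (T t3358 (L l26 (L l60 (L l63 (L l78 (L l272 (L l518 (T t8055 (K a135 (M a75 (F (T t2747 (L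 l26 (L l60 (L l203 (L l518 (T t8059 N)))))))) (K a75 (Fr a135 a132 l153 (V t8053)) N))))))))))))) N)))))))))))))) (K a15 (M a133 (L l336 (L l337 (F (T t3358 (L l26 (L l63 (L l78 (L l518 (T t8058 (K a134 (M a14 (L l337 (F (L l56 (T t3361 (L l26 (L l63 (L l78 (L l518 (T t8058 (K a135 (M a75 (F (L l314 (T t2747 (L l26 (L l63 (L l518 (T t8058 N)))))))) (K a75 (M a135 (L l78 (F (L l270 (L l272 (T t8056 (L l292 (L l297 (L l471 (T t2745 (K a72 (Fr a73 a13 l335 (V t2745)) (K a73 (M a72 (F (L l131 (T t8057 (L l56 (L l292 (L l297 (L l320 (L l471 (T t8053 N)))))))))) N)))))))))))) N)))))))))))) (K a14 (M a134 (L l337 (F (T t3358 (L l26 (L l60 (L l63 (L l78 (L l272 (L l518 (T t8055 (K a135 (M a75 (F (T t2747 (L l26 (L l60 (L l203 (L l518 (T t8059 N)))))))) (K a75 (Fr a135 a132 l153 (V t8053)) N))))))))))))) (K a135 (M a75 (L l336 (F (T t2747 (L l26 (L l63 (L l518 (T t8058 (K a134 (M a14 (F (L l314 (T t2747 (L l26 (L l63 (L l518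 (T t8058 N)))))))) (K a14 (M a134 (F (T t2747 (L l26 (L l60 (L l203 (L l518 (T t8059 N)))))))) N)))))))))) (K a75 (M a135 (L l78 (L l336 (F (L l518 (T t8060 (L l56 (L l84 (L l270 (L l272 (T t2415 (K a72 (Fr a73 a13 l335 (V t5434)) (K a73 (M a72 (L l336 (F (L l131 (T t8057 (L l56 (L l292 (L l297 (L l320 (L l471 (T t8053 (K a134 (M a14 (F (L l131 (T t8057 (L l56 (L l292 (L l297 (L l320 (L l471 (T t8053 N)))))))))) (K a14 (Fr a134 a132 l153 (V t8075)) N))))))))))))) (K a134 (M a14 (L l78 (F (L l270 (L l272 (T t8056 (L l292 (L l297 (L l471 (T t2745 (K a72 (Fr a73 a13 l335 (V t2745)) (K a73 (M a72 (F (L l131 (T t8057 (L l56 (L l292 (L l297 (L l320 (L l471 (T t8053 N)))))))))) N)))))))))))) (K a14 (Fr a134 a132 l153 (V t8053)) N))))))))))))))) N)))))))))))))) N))))))))))))))))) (K a90 (M a241 (F (L l270 (L l480 (T t8062 (L l133 (L l339 (L l518 (T t8063 N))))))))) (K a122 (M a12 (F (T t2747 (L l56 (L l270 (L l272 (T t2415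 (L l270 (L l272 (T t6512 N)))))))))) (K a14 (M a12 (L l336 (F (T t2747 (L l56 (L l270 (L l272 (T t2415 (L l270 (L l272 (T t8064 (K a134 (M a74 (F (T t6522 (L l56 (L l292 (L l297 (T t8053 N))))))) (K a74 (M a134 (L l339 (F (T t3358 (L l56 (L l84 (L l270 (L l272 (T t2415 (L l270 (L l272 (T t6512 (K a133 (M a15 (F (T t7325 (L l292 (L l297 (T t2745 N)))))) (K a15 (M a133 (L l337 (F (T t3358 (L l26 (L l60 (L l63 (L l78 (L l272 (L l518 (T t8055 (K a135 (M a75 (F (T t2747 (L l26 (L l60 (L l203 (L l518 (T t8059 N)))))))) (K a75 (Fr a135 a132 l153 (V t8053)) N))))))))))))) N)))))))))))))) N))))))))))))) (K a15 (M a12 (L l337 (L l339 (F (T t2747 (L l270 (L l272 (L l336 (T t8065 (K a133 (M a74 (L l337 (F (T t6522 (L l56 (L l292 (L l297 (L l471 (T t8053 (K a135 (M a75 (L l153 (F (T t6522 (L l292 (L l297 (L l471 (T t2745 (K a132 (M a134 (F (T t6522 (L l56 (L l292 (L l297 (L l471 (T t8053 N)))))))) (K a134 (M a132 (F (T t6522 (L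 l270 (L l272 (T t8066 N)))))) N)))))))))) (K a75 (M a135 (F (T t6522 (L l56 (L l292 (L l297 (L l471 (T t8053 N)))))))) N))))))))))) (K a74 (M a133 (L l336 (L l337 (F (T t3358 (L l26 (L l63 (L l78 (L l518 (T t8058 (K a134 (M a14 (L l337 (F (L l56 (T t3361 (L l26 (L l63 (L l78 (L l518 (T t8058 (K a135 (M a75 (F (L l314 (T t2747 (L l26 (L l63 (L l518 (T t8058 N)))))))) (K a75 (M a135 (L l78 (F (L l270 (L l272 (T t8056 (L l292 (L l297 (L l471 (T t2745 (K a72 (Fr a73 a13 l335 (V t2745)) (K a73 (M a72 (F (L l131 (T t8057 (L l56 (L l292 (L l297 (L l320 (L l471 (T t8053 N)))))))))) N)))))))))))) N)))))))))))) (K a14 (M a134 (L l337 (F (T t3358 (L l26 (L l60 (L l63 (L l78 (L l272 (L l518 (T t8055 (K a135 (M a75 (F (T t2747 (L l26 (L l60 (L l203 (L l518 (T t8059 N)))))))) (K a75 (Fr a135 a132 l153 (V t8053)) N))))))))))))) (K a135 (M a75 (L l336 (F (T t2747 (L l26 (L l63 (L l518 (T t8058 (K a134 (M a14 (F (L l314 (T t2747 (L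 l26 (L l63 (L l518 (T t8058 N)))))))) (K a14 (M a134 (F (T t2747 (L l26 (L l60 (L l203 (L l518 (T t8059 N)))))))) N)))))))))) (K a75 (M a135 (L l78 (L l336 (F (L l518 (T t8060 (L l56 (L l84 (L l270 (L l272 (T t2415 (K a72 (Fr a73 a13 l335 (V t5434)) (K a73 (M a72 (L l336 (F (L l131 (T t8057 (L l56 (L l292 (L l297 (L l320 (L l471 (T t8053 (K a134 (M a14 (F (L l131 (T t8057 (L l56 (L l292 (L l297 (L l320 (L l471 (T t8053 N)))))))))) (K a14 (Fr a134 a132 l153 (V t8075)) N))))))))))))) (K a134 (M a14 (L l78 (F (L l270 (L l272 (T t8056 (L l292 (L l297 (L l471 (T t2745 (K a72 (Fr a73 a13 l335 (V t2745)) (K a73 (M a72 (F (L l131 (T t8057 (L l56 (L l292 (L l297 (L l320 (L l471 (T t8053 N)))))))))) N)))))))))))) (K a14 (Fr a134 a132 l153 (V t8053)) N))))))))))))))) N)))))))))))))) (K a135 (M a75 (L l339 (F (T t2747 (L l270 (L l272 (L l336 (T t8065 (K a133 (M a74 (L l153 (F (T t6522 (L l292 (L l297 (L l471 (T t2745 (K a132 (M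 a134 (F (T t6522 (L l56 (L l292 (L l297 (L l471 (T t8053 N)))))))) (K a134 (M a132 (F (T t6522 (L l270 (L l272 (T t8066 N)))))) N)))))))))) (K a74 (M a133 (L l336 (F (T t2747 (L l26 (L l63 (L l518 (T t8058 (K a134 (M a14 (F (L l314 (T t2747 (L l26 (L l63 (L l518 (T t8058 N)))))))) (K a14 (M a134 (F (T t2747 (L l26 (L l60 (L l203 (L l518 (T t8059 N)))))))) N)))))))))) N)))))))))) (K a75 (M a135 (L l339 (F (T t2747 (L l270 (L l272 (L l336 (T t8065 (K a133 (M a74 (F (T t6522 (L l56 (L l292 (L l297 (L l471 (T t8053 N)))))))) (K a74 (M a133 (L l78 (L l336 (F (L l518 (T t8060 (L l56 (L l84 (L l270 (L l272 (T t2415 (K a72 (Fr a73 a13 l335 (V t5434)) (K a73 (M a72 (L l336 (F (L l131 (T t8057 (L l56 (L l292 (L l297 (L l320 (L l471 (T t8053 (K a134 (M a14 (F (L l131 (T t8057 (L l56 (L l292 (L l297 (L l320 (L l471 (T t8053 N)))))))))) (K a14 (Fr a134 a132 l153 (V t8075)) N))))))))))))) (K a134 (M a14 (L l78 (F (L l270 (L l272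 (T t8056 (L l292 (L l297 (L l471 (T t2745 (K a72 (Fr a73 a13 l335 (V t2745)) (K a73 (M a72 (F (L l131 (T t8057 (L l56 (L l292 (L l297 (L l320 (L l471 (T t8053 N)))))))))) N)))))))))))) (K a14 (Fr a134 a132 l153 (V t8053)) N))))))))))))))) N)))))))))) N))))))))))))) N))))))))))))))))))))))))))))))) (K a193 (Fr a192 a149 l519 (V t8067)) N)))))))))))⟩
def e0_63_106__195_42_119 : Ent 4 := ⟨[a0, a63, a106], [a195, a42, a196], (M a48 (F (T t585 (L l273 (L l495 (T t551 (L l28 (T t579 N))))))))⟩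
def e0_63_106__195_42_120 : Ent 4 := ⟨[a0, a63, a106], [a195, a42, a197], (M a240 (F (L l28 (T t6587 (L l488 (L l491 (T t6588 (T t4781 N))))))))⟩
def e0_63_106__195_42_121 : Ent 4 := ⟨[a0, a63, a106], [a195, a42, a198], (M a204 (F (L l56 (T t6693 (L l338 (T t6694 (T t6655 N)))))))⟩
def e0_63_106__195_42_122 : Ent 4 := ⟨[a0, a63, a106], [a195, a42, a199], (M a207 (F (L l228 (T t6700 (L l337 (T t6701 (T t6702 N)))))))⟩
def e0_63_106__195_42_123 : Ent 4 := ⟨[a0, a63, a106], [a195, a42, a200], (M a48 (F (T t2348 (L l28 (L l230 (T t579 (L l273 (T t551 N))))))))⟩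
def e0_63_106__195_42_124 : Ent 4 := ⟨[a0, a63, a106], [a195, a42, a201], (M a204 (F (T t6748 (L l230 (L l338 (T t4770 (T t6655 N)))))))⟩
def e0_63_106__195_42_125 : Ent 4 := ⟨[a0, a63, a106], [a195, a42, a202], (M a240 (F (L l28 (T t6683 (L l318 (T t4781 (L l488 (T t817 N))))))))⟩
def e0_63_106__195_42_126 : Ent 4 := ⟨[a0, a63, a106], [a195, a42, a203], (M a207 (F (T t6739 (L l230 (L l320 (L l337 (T t6701 (L l320 (T t6702 N)))))))))⟩
def e0_63_106__195_42_127 : Ent 4 := ⟨[a0, a63, a106], [a195, a42, a204], (M a48 (L l237 (F (T t585 (L l273 (L l298 (T t551 (L l28 (T t579 (K a201 (M a198 (F (T t2348 (L l28 (L l230 (T t579 (L l273 (L l298 (T t551 N))))))))) (K a198 (M a201 (F (T t2348 (L l28 (L l234 (T t579 (L l273 (L l298 (T t551 N))))))))) N)))))))))))⟩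
def e0_63_106__195_42_128 : Ent 4 := ⟨[a0, a63, a106], [a195, a42, a205], (M a48 (F (T t5173 (L l28 (T t579 (L l273 (T t551 N)))))))⟩
def e0_63_106__195_42_129 : Ent 4 := ⟨[a0, a63, a106], [a195, a42, a206], (M a48 (F (T t2348 (L l28 (L l234 (T t579 (L l273 (T t551 N))))))))⟩
def e0_63_106__195_42_130 : Ent 4 := ⟨[a0, a63, a106], [a195, a42, a207], (M a240 (L l235 (F (T t6525 (L l488 (L l512 (T t817 (T t4781 (K a199 (M a203 (F (T t6525 (L l488 (L l512 (T t817 (T t4781 N))))))) (K a203 (M a199 (F (T t6525 (L l488 (L l512 (T t817 (T t4781 N))))))) N))))))))))⟩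
def e0_63_106__195_42_131 : Ent 4 := ⟨[a0, a63, a106], [a195, a42, a212], (M a48 (F (T t585 (L l273 (L l351 (T t551 (L l28 (T t579 N))))))))⟩
def e0_63_106__195_42_132 : Ent 4 := ⟨[a0, a63, a106], [a195, a42, a213], (M a48 (F (T t585 (L l273 (L l347 (T t551 (L l28 (L l246 (T t579 N)))))))))⟩
def e0_63_106__195_42_133 : Ent 4 := ⟨[a0, a63, a106], [a195, a42, a214], (M a252 (F (L l22 (T t7636 (L l518 (T t8082 (T t6675 N)))))))⟩
def e0_63_106__195_42_134 : Ent 4 := ⟨[a0, a63, a106], [a195, a42, a215], (M a48 (L l295 (F (T t585 (L l273 (T t551 (L l28 (L l245 (T t579 (K a235 (M a255 (F (T t6960 (L l235 (T t304 N))))) (K a255 (M a235 (F (T t585 (L l266 (L l273 (T t551 (L l28 (L l350 (L l469 (T t6526 (L l28 (L l245 (L l289 (T t6527 N)))))))))))))) N)))))))))))⟩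
def e0_63_106__195_42_135 : Ent 4 := ⟨[a0, a63, a106], [a195, a42, a216], (M a48 (F (T t585 (L l273 (L l298 (T t551 (L l28 (T t579 N))))))))⟩
def e0_63_106__195_42_136 : Ent 4 := ⟨[a0, a63, a106], [a195, a42, a217], (M a48 (F (T t585 (L l273 (T t551 (L l28 (T t579 N)))))))⟩
def e0_63_106__195_42_137 : Ent 4 := ⟨[a0, a63, a106], [a195, a42, a218], (M a48 (F (T t2348 (L l28 (L l246 (L l282 (T t579 (L l273 (L l303 (T t551 N))))))))))⟩
def e0_63_106__195_42_138 : Ent 4 := ⟨[a0, a63, a106], [a195, a42, a219], (M a48 (F (T t585 (L l273 (T t551 (L l28 (L l245 (T t579 N))))))))⟩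
def e0_63_106__195_42_139 : Ent 4 := ⟨[a0, a63, a106], [a195, a42, a220], (M a48 (F (T t585 (L l273 (T t551 (L l28 (L l241 (T t579 N))))))))⟩
def e0_63_106__195_42_140 : Ent 4 := ⟨[a0, a63, a106], [a195, a42, a221], (M a48 (F (T t585 (L l273 (T t551 (L l28 (L l241 (T t579 N))))))))⟩
def e0_63_106__195_42_141 : Ent 4 := ⟨[a0, a63, a106], [a195, a42, a222], (M a48 (F (T t585 (L l273 (T t551 (L l28 (L l241 (T t579 N))))))))⟩
def e0_63_106__195_42_142 : Ent 4 := ⟨[a0, a63, a106], [a195, a42, a223], (M a240 (F (L l228 (T t4786 (L l368 (L l488 (T t817 (L l361 (T t4781 N)))))))))⟩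
def e0_63_106__195_42_143 : Ent 4 := ⟨[a0, a63, a106], [a195, a42, a232], (M a48 (F (T t585 (L l273 (T t551 (L l28 (T t579 N)))))))⟩
def e0_63_106__195_42_144 : Ent 4 := ⟨[a0, a63, a106], [a195, a42, a233], (M a252 (F (T t8083 (L l250 (L l518 (T t2535 (T t6675 N)))))))⟩
def e0_63_106__195_42_145 : Ent 4 := ⟨[a0, a63, a106], [a195, a42, a234], (M a48 (F (T t2348 (L l28 (L l282 (T t579 (L l273 (T t551 N))))))))⟩
def e0_63_106__195_42_146 : Ent 4 := ⟨[a0, a63, a106], [a195, a42, a235], (M a48 (L l295 (F (T t585 (L l273 (T t551 (L l28 (T t579 (K a215 (M a255 (F (T t6960 (L l235 (T t304 N))))) (K a255 (M a215 (F (T t585 (L l266 (L l273 (T t551 (L l28 (L l289 (T t8084 (L l28 (L l289 (T t6527 N)))))))))))) N))))))))))⟩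
def e0_63_106__195_42_147 : Ent 4 := ⟨[a0, a63, a106], [a195, a42, a236], (M a48 (F (T t585 (L l273 (T t551 (L l28 (L l400 (T t579 N))))))))⟩
def e0_63_106__195_42_148 : Ent 4 := ⟨[a0, a63, a106], [a195, a42, a237], (M a48 (F (T t5173 (L l28 (T t579 (L l273 (T t551 N)))))))⟩
def e0_63_106__195_42_149 : Ent 4 := ⟨[a0, a63, a106], [a195, a42, a238], (M a48 (F (T t585 (L l273 (T t551 (L l28 (T t579 N)))))))⟩
def e0_63_106__195_42_150 : Ent 4 := ⟨[a0, a63, a106], [a195, a42, a239], (M a48 (F (T t5173 (L l273 (T t551 (L l28 (L l289 (L l404 (T t579 N)))))))))⟩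
def e0_63_106__195_42_151 : Ent 4 := ⟨[a0, a63, a106], [a195, a42, a252], (M a48 (L l297 (F (T t585 (L l262 (L l273 (T t551 (L l28 (T t579 (K a233 (M a214 (F (T t585 (L l262 (L l273 (T t551 (L l28 (T t579 N)))))))) (K a214 (M a233 (F (T t585 (L l262 (L l273 (T t551 (L l28 (T t579 N)))))))) N)))))))))))⟩
def e0_63_106__195_42_152 : Ent 4 := ⟨[a0, a63, a106], [a195, a42, a253], (M a48 (F (T t585 (L l273 (T t551 (L l28 (T t579 N)))))))⟩
def e0_63_106__195_42_153 : Ent 4 := ⟨[a0, a63, a106], [a195, a42, a254], (M a48 (F (T t585 (L l273 (T t551 (L l28 (T t579 N)))))))⟩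
def e0_63_106__195_42_154 : Ent 4 := ⟨[a0, a63, a106], [a195, a42, a255], (M a48 (L l295 (F (T t585 (L l266 (L l273 (T t551 (L l28 (L l469 (T t6526 (L l28 (L l289 (T t6527 (K a215 (M a235 (F (T t585 (L l266 (L l273 (T t551 (L l28 (L l350 (L l469 (T t6526 (L l28 (L l245 (L l289 (T t6527 N)))))))))))))) (K a235 (M a215 (F (T t585 (L l266 (L l273 (T t551 (L l28 (L l289 (T t8084 (L l28 (L l289 (T t6527 N)))))))))))) N)))))))))))))))⟩
def b0_63_106__195_42 : Blk 4 := ⟨[0, 63, 106], [195, 42], [1, 2, 3, 4, 5, 6, 7, 8, 9, 10, 11, 12, 13, 14, 15, 20, 21, 22, 23, 24, 25, 26, 27, 28, 29, 30, 31, 40, 41, 43, 44, 45, 46, 47, 60, 61, 62, 64, 65, 66, 67, 68, 69, 70, 71, 72, 73, 74, 75, 76, 77, 78, 79, 84, 85, 86, 87, 88, 89, 90, 91, 92, 93, 94, 95, 104, 105, 107, 108, 109, 110, 111, 124, 125, 126, 127, 128, 129, 130, 131, 132, 133, 134, 135, 136, 137, 138, 139, 140, 141, 142, 143, 148, 149, 150, 151, 152, 153, 154, 155, 156, 157,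 158, 159, 168, 169, 170, 171, 172, 173, 174, 175, 188, 189, 190, 191, 192, 193, 194, 196, 197, 198, 199, 200, 201, 202, 203, 204, 205, 206, 207, 212, 213, 214, 215, 216, 217, 218, 219, 220, 221, 222, 223, 232, 233, 234, 235, 236, 237, 238, 239, 252, 253, 254, 255], [e0_63_106__195_42_0, e0_63_106__195_42_1, e0_63_106__195_42_2, e0_63_106__195_42_3, e0_63_106__195_42_4, e0_63_106__195_42_5, e0_63_106__195_42_6, e0_63_106__195_42_7, e0_63_106__195_42_8, e0_63_106__195_42_9, e0_63_106__195_42_10, e0_63_106__195_42_11, e0_63_106__195_42_12, e0_63_106__195_42_13, e0_63_106__195_42_14, e0_63_106__195_42_15, e0_63_106__195_42_16, e0_63_106__195_42_17, e0_63_106__195_42_18, e0_63_106__195_42_19, e0_63_106__195_42_20, e0_63_106__195_42_21, e0_63_106__195_42_22, e0_63_106__195_42_23, e0_63_106__195_42_24, e0_63_106__195_42_25, e0_63_106__195_42_26, e0_63_106__195_42_27, e0_63_106__195_42_28, e0_63_106__195_42_29, e0_63_106__195_42_30,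 e0_63_106__195_42_31, e0_63_106__195_42_32, e0_63_106__195_42_33, e0_63_106__195_42_34, e0_63_106__195_42_35, e0_63_106__195_42_36, e0_63_106__195_42_37, e0_63_106__195_42_38, e0_63_106__195_42_39, e0_63_106__195_42_40, e0_63_106__195_42_41, e0_63_106__195_42_42, e0_63_106__195_42_43, e0_63_106__195_42_44, e0_63_106__195_42_45, e0_63_106__195_42_46, e0_63_106__195_42_47, e0_63_106__195_42_48, e0_63_106__195_42_49, e0_63_106__195_42_50, e0_63_106__195_42_51, e0_63_106__195_42_52, e0_63_106__195_42_53, e0_63_106__195_42_54, e0_63_106__195_42_55, e0_63_106__195_42_56, e0_63_106__195_42_57, e0_63_106__195_42_58, e0_63_106__195_42_59, e0_63_106__195_42_60, e0_63_106__195_42_61, e0_63_106__195_42_62, e0_63_106__195_42_63, e0_63_106__195_42_64, e0_63_106__195_42_65, e0_63_106__195_42_66, e0_63_106__195_42_67, e0_63_106__195_42_68, e0_63_106__195_42_69, e0_63_106__195_42_70, e0_63_106__195_42_71, e0_63_106__195_42_72, e0_63_106__195_42_73,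 e0_63_106__195_42_74, e0_63_106__195_42_75, e0_63_106__195_42_76, e0_63_106__195_42_77, e0_63_106__195_42_78, e0_63_106__195_42_79, e0_63_106__195_42_80, e0_63_106__195_42_81, e0_63_106__195_42_82, e0_63_106__195_42_83, e0_63_106__195_42_84, e0_63_106__195_42_85, e0_63_106__195_42_86, e0_63_106__195_42_87, e0_63_106__195_42_88, e0_63_106__195_42_89, e0_63_106__195_42_90, e0_63_106__195_42_91, e0_63_106__195_42_92, e0_63_106__195_42_93, e0_63_106__195_42_94, e0_63_106__195_42_95, e0_63_106__195_42_96, e0_63_106__195_42_97, e0_63_106__195_42_98, e0_63_106__195_42_99, e0_63_106__195_42_100, e0_63_106__195_42_101, e0_63_106__195_42_102, e0_63_106__195_42_103, e0_63_106__195_42_104, e0_63_106__195_42_105, e0_63_106__195_42_106, e0_63_106__195_42_107, e0_63_106__195_42_108, e0_63_106__195_42_109, e0_63_106__195_42_110, e0_63_106__195_42_111, e0_63_106__195_42_112, e0_63_106__195_42_113, e0_63_106__195_42_114, e0_63_106__195_42_115,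 e0_63_106__195_42_116, e0_63_106__195_42_117, e0_63_106__195_42_118, e0_63_106__195_42_119, e0_63_106__195_42_120, e0_63_106__195_42_121, e0_63_106__195_42_122, e0_63_106__195_42_123, e0_63_106__195_42_124, e0_63_106__195_42_125, e0_63_106__195_42_126, e0_63_106__195_42_127, e0_63_106__195_42_128, e0_63_106__195_42_129, e0_63_106__195_42_130, e0_63_106__195_42_131, e0_63_106__195_42_132, e0_63_106__195_42_133, e0_63_106__195_42_134, e0_63_106__195_42_135, e0_63_106__195_42_136, e0_63_106__195_42_137, e0_63_106__195_42_138, e0_63_106__195_42_139, e0_63_106__195_42_140, e0_63_106__195_42_141, e0_63_106__195_42_142, e0_63_106__195_42_143, e0_63_106__195_42_144, e0_63_106__195_42_145, e0_63_106__195_42_146, e0_63_106__195_42_147, e0_63_106__195_42_148, e0_63_106__195_42_149, e0_63_106__195_42_150, e0_63_106__195_42_151, e0_63_106__195_42_152, e0_63_106__195_42_153, e0_63_106__195_42_154], by decide +kernel, by decide +kernel⟩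
def e0_63_106__197_42_0 : Ent 4 := ⟨[a0, a63, a106], [a197, a42, a1], (M a240 (F (L l236 (T t4779 (L l491 (T t817 (T t4781 N)))))))⟩
def e0_63_106__197_42_1 : Ent 4 := ⟨[a0, a63, a106], [a197, a42, a2], (M a240 (L l66 (F (L l236 (T t4779 (L l491 (T t817 (T t4781 (K a22 (M a62 (F (T t7341 (L l491 (T t817 N))))) (K a62 (M a22 (F (L l491 (T t6965 (T t4781 (L l491 (T t817 N))))))) N))))))))))⟩
def e0_63_106__197_42_2 : Ent 4 := ⟨[a0, a63, a106], [a197, a42, a3], (M a240 (F (L l28 (T t6587 (L l45 (L l491 (T t6588 (T t4781 N))))))))⟩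
def e0_63_106__197_42_3 : Ent 4 := ⟨[a0, a63, a106], [a197, a42, a5], (M a240 (L l311 (F (L l236 (T t4779 (L l491 (T t817 (T t4781 (K a69 (M a133 (F (T t6680 (L l84 (L l491 (T t4780 (L l84 (T t6482 N)))))))) (K a133 (M a69 (F (L l28 (L l199 (L l339 (L l491 (T t815 (L l160 (T t6751 (L l199 (L l339 (T t8085 N)))))))))))) N))))))))))⟩
def e0_63_106__197_42_4 : Ent 4 := ⟨[a0, a63, a106], [a197, a42, a6], (M a240 (F (L l236 (T t4779 (L l491 (T t817 (T t4781 N)))))))⟩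
def e0_63_106__197_42_5 : Ent 4 := ⟨[a0, a63, a106], [a197, a42, a7], (M a240 (F (L l236 (T t4779 (L l491 (T t817 (T t4781 N)))))))⟩
def e0_63_106__197_42_6 : Ent 4 := ⟨[a0, a63, a106], [a197, a42, a10], (M a240 (L l54 (F (L l236 (L l318 (T t4779 (L l491 (T t817 (L l318 (T t4781 (K a26 (M a58 (F (L l236 (L l318 (T t6609 (L l491 (T t7740 (L l28 (L l236 (L l318 (L l491 (T t8086 (L l318 (L l462 (T t6482 N))))))))))))))) (K a58 (M a26 (F (L l236 (L l318 (T t6609 (L l491 (T t817 (L l318 (L l462 (T t6482 N)))))))))) N))))))))))))⟩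
def e0_63_106__197_42_7 : Ent 4 := ⟨[a0, a63, a106], [a197, a42, a11], (M a240 (F (L l236 (L l321 (T t4779 (L l491 (T t817 (L l321 (T t4781 N)))))))))⟩
def e0_63_106__197_42_8 : Ent 4 := ⟨[a0, a63, a106], [a197, a42, a15], (M a12 (F (T t2419 (L l327 (L l491 (T t2305 (L l56 (T t2415 N))))))))⟩
def e0_63_106__197_42_9 : Ent 4 := ⟨[a0, a63, a106], [a197, a42, a16], (M a240 (F (L l28 (T t6587 (L l340 (L l491 (T t4780 (T t4781 N))))))))⟩
def e0_63_106__197_42_10 : Ent 4 := ⟨[a0, a63, a106], [a197, a42, a17], (M a240 (F (L l236 (T t4779 (L l10 (L l491 (T t817 (T t4781 N))))))))⟩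
def e0_63_106__197_42_11 : Ent 4 := ⟨[a0, a63, a106], [a197, a42, a18], (M a240 (F (L l236 (T t4779 (L l10 (L l45 (L l491 (T t817 (T t4781 N)))))))))⟩
def e0_63_106__197_42_12 : Ent 4 := ⟨[a0, a63, a106], [a197, a42, a19], (M a240 (F (L l28 (T t7338 (T t4781 (L l10 (L l491 (T t817 N))))))))⟩
def e0_63_106__197_42_13 : Ent 4 := ⟨[a0, a63, a106], [a197, a42, a21], (M a240 (F (L l236 (T t4779 (L l347 (L l491 (T t4780 (T t4781 N))))))))⟩
def e0_63_106__197_42_14 : Ent 4 := ⟨[a0, a63, a106], [a197, a42, a22], (M a240 (L l66 (F (L l236 (T t4779 (L l491 (T t817 (T t4781 (K a2 (M a62 (F (T t7341 (L l491 (T t817 N))))) (K a62 (M a2 (F (T t3515 (L l28 (L l491 (T t815 N)))))) N))))))))))⟩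
def e0_63_106__197_42_15 : Ent 4 := ⟨[a0, a63, a106], [a197, a42, a23], (M a240 (F (L l236 (T t4779 (L l351 (L l491 (T t817 (T t4781 N))))))))⟩
def e0_63_106__197_42_16 : Ent 4 := ⟨[a0, a63, a106], [a197, a42, a26], (M a240 (L l54 (F (L l236 (T t4779 (L l491 (T t6606 (T t4781 (K a10 (M a58 (F (L l236 (L l318 (T t6609 (L l491 (T t7740 (L l28 (L l236 (L l318 (L l491 (T t8086 (L l318 (L l462 (T t6482 N))))))))))))))) (K a58 (M a10 (F (L l236 (T t6609 (L l491 (T t6606 (L l311 (L l426 (T t7878 N))))))))) N))))))))))⟩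
def e0_63_106__197_42_17 : Ent 4 := ⟨[a0, a63, a106], [a197, a42, a27], (M a240 (F (L l236 (T t4779 (L l491 (T t817 (T t4781 N)))))))⟩
def e0_63_106__197_42_18 : Ent 4 := ⟨[a0, a63, a106], [a197, a42, a31], (M a12 (F (L l13 (T t2414 (L l375 (L l491 (T t2305 (L l13 (L l56 (T t2415 N))))))))))⟩
def e0_63_106__197_42_19 : Ent 4 := ⟨[a0, a63, a106], [a197, a42, a32], (M a240 (L l28 (F (L l236 (T t6609 (L l376 (L l491 (T t6588 (L l376 (T t4781 (K a37 (M a47 (F (T t6602 (L l491 (T t6698 (T t6604 N)))))) (K a47 (M a37 (F (L l376 (T t4781 (L l54 (T t6699 (L l376 (L l491 (T t6588 N))))))))) N))))))))))))⟩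
def e0_63_106__197_42_20 : Ent 4 := ⟨[a0, a63, a106], [a197, a42, a33], (M a240 (F (L l236 (T t4779 (L l45 (L l491 (T t817 (T t4781 N))))))))⟩
def e0_63_106__197_42_21 : Ent 4 := ⟨[a0, a63, a106], [a197, a42, a34], (M a240 (L l26 (F (L l236 (T t4779 (L l491 (T t817 (T t4781 (K a38 (M a46 (F (T t8087 (L l491 (T t4780 N))))) (K a46 (M a38 (F (L l491 (T t6965 (T t4781 (L l491 (T t817 N))))))) N))))))))))⟩
def e0_63_106__197_42_22 : Ent 4 := ⟨[a0, a63, a106], [a197, a42, a35], (M a240 (F (L l236 (T t4779 (L l381 (L l491 (T t817 (T t4781 N))))))))⟩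
def e0_63_106__197_42_23 : Ent 4 := ⟨[a0, a63, a106], [a197, a42, a37], (M a240 (L l28 (F (L l236 (T t4779 (L l491 (T t6606 (T t4781 (K a32 (M a47 (F (T t6602 (L l491 (T t6698 (T t6604 N)))))) (K a47 (M a32 (F (T t7229 (T t4781 (L l54 (L l275 (T t6608 N))))))) N))))))))))⟩
def e0_63_106__197_42_24 : Ent 4 := ⟨[a0, a63, a106], [a197, a42, a38], (M a240 (L l26 (F (L l236 (T t4779 (L l491 (T t817 (T t4781 (K a34 (M a46 (F (T t8087 (L l491 (T t4780 N))))) (K a46 (M a34 (F (T t7879 (L l491 (T t4780 N))))) N))))))))))⟩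
def e0_63_106__197_42_25 : Ent 4 := ⟨[a0, a63, a106], [a197, a42, a39], (M a240 (F (L l236 (T t4779 (L l491 (T t817 (T t4781 N)))))))⟩
def e0_63_106__197_42_26 : Ent 4 := ⟨[a0, a63, a106], [a197, a42, a43], (M a240 (L l22 (F (L l236 (T t4779 (L l491 (T t817 (T t4781 (K a40 (M a41 (F (L l491 (T t6965 (T t4781 (L l491 (T t817 N))))))) (K a41 (M a40 (F (T t7880 (L l491 (T t4780 N))))) N))))))))))⟩
def e0_63_106__197_42_27 : Ent 4 := ⟨[a0, a63, a106], [a197, a42, a47], (M a12 (L l28 (F (T t2419 (L l491 (T t2305 (L l56 (T t2415 (K a32 (M a37 (F (T t2414 (L l56 (T t2415 (L l491 (T t2305 N))))))) (K a37 (M a32 (F (T t2419 (L l51 (L l56 (T t682 N)))))) N))))))))))⟩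
def e0_63_106__197_42_28 : Ent 4 := ⟨[a0, a63, a106], [a197, a42, a48], (M a12 (F (T t2419 (L l491 (L l508 (T t2305 (L l56 (T t2415 N))))))))⟩
def e0_63_106__197_42_29 : Ent 4 := ⟨[a0, a63, a106], [a197, a42, a49], (M a240 (F (L l236 (T t4779 (L l30 (L l491 (T t817 (T t4781 N))))))))⟩
def e0_63_106__197_42_30 : Ent 4 := ⟨[a0, a63, a106], [a197, a42, a50], (M a240 (F (L l236 (T t4779 (L l30 (L l491 (T t817 (T t4781 N))))))))⟩
def e0_63_106__197_42_31 : Ent 4 := ⟨[a0, a63, a106], [a197, a42, a51], (M a240 (F (L l28 (T t6587 (L l30 (L l491 (T t6588 (T t4781 N))))))))⟩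
def e0_63_106__197_42_32 : Ent 4 := ⟨[a0, a63, a106], [a197, a42, a53], (M a204 (L l491 (F (L l56 (T t6693 (T t6655 (L l236 (T t7408 (K a157 (M a101 (F (L l167 (T t4770 (L l165 (L l419 (T t7091 (L l35 (L l56 (L l165 (T t8088 N))))))))))) (K a98 (Fr a149 a192 l519 (Fr a157 a110 l507 (Fr a153 a145 l167 (Fr a51 a102 l513 (V t6670))))) (K a110 (M a101 (F (T t4770 (L l35 (L l504 (T t6663 (L l138 (L l419 (T t8089 N))))))))) (K a149 (M a101 (F (L l35 (L l170 (T t6663 (L l167 (T t6655 (L l170 (L l220 (L l419 (T t7091 N))))))))))) (K a101 (Fr a149 a192 l519 (V t8090)) N)))))))))))))⟩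
def e0_63_106__197_42_33 : Ent 4 := ⟨[a0, a63, a106], [a197, a42, a54], (M a240 (F (L l236 (T t4779 (L l491 (T t817 (T t4781 N)))))))⟩
def e0_63_106__197_42_34 : Ent 4 := ⟨[a0, a63, a106], [a197, a42, a55], (M a240 (F (L l236 (L l423 (T t4779 (L l491 (L l495 (T t817 (L l423 (T t4781 N))))))))))⟩
def e0_63_106__197_42_35 : Ent 4 := ⟨[a0, a63, a106], [a197, a42, a58], (M a240 (L l54 (F (L l236 (T t4779 (L l491 (T t817 (T t4781 (K a10 (M a26 (F (L l236 (L l318 (T t6609 (L l491 (T t817 (L l318 (L l462 (T t6482 N)))))))))) (K a26 (M a10 (F (L l236 (T t6609 (L l491 (T t6606 (L l311 (L l426 (T t7878 N))))))))) N))))))))))⟩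
def e0_63_106__197_42_36 : Ent 4 := ⟨[a0, a63, a106], [a197, a42, a59], (M a240 (L l56 (F (L l236 (T t4779 (L l491 (T t817 (T t4781 (K a8 (M a25 (F (L l491 (T t6965 (T t4781 (L l491 (T t817 N))))))) (K a25 (M a8 (F (T t7240 (L l28 (L l491 (T t815 N)))))) N))))))))))⟩
def e0_63_106__197_42_37 : Ent 4 := ⟨[a0, a63, a106], [a197, a42, a64], (M a240 (F (L l28 (L l84 (T t6587 (L l116 (L l236 (L l311 (T t6859 (L l28 (L l116 (L l491 (T t7881 (L l84 (T t6501 (L l84 (L l116 (T t6484 (L l28 (L l84 (L l236 (T t7242 (L l28 (L l84 (L l116 (L l491 (T t7882 N)))))))))))))))))))))))))))⟩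
def e0_63_106__197_42_38 : Ent 4 := ⟨[a0, a63, a106], [a197, a42, a65], (M a240 (F (L l236 (T t4779 (L l491 (T t817 (L l76 (T t4781 N))))))))⟩
def e0_63_106__197_42_39 : Ent 4 := ⟨[a0, a63, a106], [a197, a42, a66], (M a240 (F (L l28 (L l82 (T t6587 (L l491 (T t6588 (L l76 (L l82 (T t4781 N))))))))))⟩
def e0_63_106__197_42_40 : Ent 4 := ⟨[a0, a63, a106], [a197, a42, a67], (M a240 (F (L l236 (T t4779 (L l491 (T t817 (L l76 (T t4781 N))))))))⟩
def e0_63_106__197_42_41 : Ent 4 := ⟨[a0, a63, a106], [a197, a42, a69], (M a240 (L l311 (F (L l84 (L l236 (T t4779 (L l491 (T t817 (L l84 (T t6482 (L l28 (L l491 (T t815 (K a5 (M a133 (F (T t6680 (L l84 (L l491 (T t4780 (L l84 (T t6482 N)))))))) (K a133 (M a5 (F (L l54 (T t6681 (L l28 (L l199 (L l339 (L l491 (T t815 (L l84 (L l199 (L l491 (T t4780 (K a165 (Fr a15 a10 l8 (Fr a149 a192 l519 (V t6682))) N)))))))))))))) N)))))))))))))))⟩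
def e0_63_106__197_42_42 : Ent 4 := ⟨[a0, a63, a106], [a197, a42, a70], (M a240 (F (L l82 (L l236 (T t4779 (L l491 (T t817 (L l82 (T t4781 N)))))))))⟩
def e0_63_106__197_42_43 : Ent 4 := ⟨[a0, a63, a106], [a197, a42, a71], (M a240 (F (L l236 (T t4779 (L l491 (T t817 (T t4781 N)))))))⟩
def e0_63_106__197_42_44 : Ent 4 := ⟨[a0, a63, a106], [a197, a42, a74], (M a12 (F (T t2419 (L l78 (L l84 (L l491 (T t2305 (L l56 (L l84 (T t2415 N))))))))))⟩
def e0_63_106__197_42_45 : Ent 4 := ⟨[a0, a63, a106], [a197, a42, a75], (M a240 (F (L l78 (L l236 (T t4779 (L l491 (T t817 (L l78 (T t4781 N)))))))))⟩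
def e0_63_106__197_42_46 : Ent 4 := ⟨[a0, a63, a106], [a197, a42, a79], (M a240 (F (L l236 (L l311 (T t4786 (L l491 (T t817 (L l84 (L l137 (T t6482 N))))))))))⟩
def e0_63_106__197_42_47 : Ent 4 := ⟨[a0, a63, a106], [a197, a42, a80], (M a12 (F (T t2414 (L l56 (L l116 (T t2415 (L l116 (L l491 (T t2305 N)))))))))⟩
def e0_63_106__197_42_48 : Ent 4 := ⟨[a0, a63, a106], [a197, a42, a81], (M a240 (F (L l236 (T t4779 (L l344 (L l491 (T t817 (L l120 (T t4781 N)))))))))⟩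
def e0_63_106__197_42_49 : Ent 4 := ⟨[a0, a63, a106], [a197, a42, a82], (M a240 (F (L l28 (T t7338 (T t4781 (L l491 (T t817 N)))))))⟩
def e0_63_106__197_42_50 : Ent 4 := ⟨[a0, a63, a106], [a197, a42, a83], (M a240 (F (L l236 (T t4779 (L l491 (T t817 (L l93 (T t4781 N))))))))⟩
def e0_63_106__197_42_51 : Ent 4 := ⟨[a0, a63, a106], [a197, a42, a85], (M a240 (F (L l236 (T t4779 (L l347 (L l368 (L l491 (T t817 (L l236 (L l311 (T t4786 (L l28 (L l94 (T t6483 (K a192 (M a248 (L l236 (F (T t3821 (L l87 (L l94 (T t6520 (L l22 (L l339 (T t7244 (K a202 (M a207 (F (T t3821 (L l28 (L l94 (L l282 (L l484 (T t8091 N)))))))) (K a207 (M a202 (F (L l87 (L l94 (T t6520 (L l289 (L l296 (L l368 (L l491 (L l512 (T t8069 N))))))))))) N)))))))))))) N)))))))))))))))⟩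
def e0_63_106__197_42_52 : Ent 4 := ⟨[a0, a63, a106], [a197, a42, a86], (M a240 (F (L l236 (T t4779 (L l351 (L l491 (T t817 (T t4781 N))))))))⟩
def e0_63_106__197_42_53 : Ent 4 := ⟨[a0, a63, a106], [a197, a42, a87], (M a240 (F (L l236 (T t4779 (L l491 (T t817 (L l93 (T t4781 N))))))))⟩
def e0_63_106__197_42_54 : Ent 4 := ⟨[a0, a63, a106], [a197, a42, a90], (M a12 (F (T t2414 (L l56 (T t2415 (L l375 (L l491 (T t2305 N))))))))⟩
def e0_63_106__197_42_55 : Ent 4 := ⟨[a0, a63, a106], [a197, a42, a91], (M a240 (F (L l236 (T t4779 (L l491 (T t817 (L l93 (T t4781 N))))))))⟩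
def e0_63_106__197_42_56 : Ent 4 := ⟨[a0, a63, a106], [a197, a42, a95], (M a12 (F (T t2414 (L l56 (T t2415 (L l491 (T t2305 N)))))))⟩
def e0_63_106__197_42_57 : Ent 4 := ⟨[a0, a63, a106], [a197, a42, a96], (M a12 (F (T t2419 (L l116 (L l491 (T t2305 (L l56 (L l116 (T t2415 N)))))))))⟩
def e0_63_106__197_42_58 : Ent 4 := ⟨[a0, a63, a106], [a197, a42, a97], (M a240 (F (L l236 (T t4779 (L l488 (L l491 (T t817 (T t4781 N))))))))⟩
def e0_63_106__197_42_59 : Ent 4 := ⟨[a0, a63, a106], [a197, a42, a98], (M a240 (F (L l28 (T t6587 (L l491 (T t6588 (L l120 (T t4781 N))))))))⟩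
def e0_63_106__197_42_60 : Ent 4 := ⟨[a0, a63, a106], [a197, a42, a99], (M a240 (F (L l236 (T t4779 (L l491 (T t817 (T t4781 N)))))))⟩
def e0_63_106__197_42_61 : Ent 4 := ⟨[a0, a63, a106], [a197, a42, a101], (M a204 (L l491 (F (L l236 (T t8092 (T t6655 (L l236 (T t7408 (K a157 (M a53 (F (L l54 (T t8093 (L l167 (T t4770 (L l54 (L l97 (L l167 (L l229 (T t8094 N))))))))))) (K a98 (Fr a149 a192 l519 (Fr a157 a110 l507 (Fr a153 a145 l167 (Fr a51 a102 l513 (V t6670))))) (K a110 (M a53 (F (T t8095 (L l54 (L l399 (T t8093 (L l54 (L l97 (L l229 (T t8094 N)))))))))) (K a149 (M a53 (F (L l54 (T t8093 (L l167 (T t6655 (L l66 (L l167 (L l236 (L l494 (L l512 (T t8096 N)))))))))))) (K a53 (Fr a149 a192 l519 (V t8090)) N)))))))))))))⟩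
def e0_63_106__197_42_62 : Ent 4 := ⟨[a0, a63, a106], [a197, a42, a102], (M a240 (F (L l236 (T t4779 (L l491 (L l495 (T t817 (T t4781 N))))))))⟩
def e0_63_106__197_42_63 : Ent 4 := ⟨[a0, a63, a106], [a197, a42, a103], (M a240 (F (L l236 (T t4779 (L l491 (T t817 (T t4781 N)))))))⟩
def e0_63_106__197_42_64 : Ent 4 := ⟨[a0, a63, a106], [a197, a42, a107], (M a240 (F (L l236 (T t4779 (L l491 (T t817 (T t4781 N)))))))⟩
def e0_63_106__197_42_65 : Ent 4 := ⟨[a0, a63, a106], [a197, a42, a111], (M a240 (F (L l236 (T t4779 (L l491 (T t817 (L l137 (T t4781 N))))))))⟩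
def e0_63_106__197_42_66 : Ent 4 := ⟨[a0, a63, a106], [a197, a42, a112], (M a12 (F (T t2414 (L l56 (L l116 (T t2415 (L l116 (L l491 (T t2305 N)))))))))⟩
def e0_63_106__197_42_67 : Ent 4 := ⟨[a0, a63, a106], [a197, a42, a113], (M a240 (F (L l236 (T t4779 (L l416 (L l491 (T t817 (T t4781 N))))))))⟩
def e0_63_106__197_42_68 : Ent 4 := ⟨[a0, a63, a106], [a197, a42, a114], (M a240 (F (L l236 (T t4779 (L l491 (T t817 (T t4781 N)))))))⟩
def e0_63_106__197_42_69 : Ent 4 := ⟨[a0, a63, a106], [a197, a42, a115], (M a240 (F (L l236 (T t4779 (L l491 (T t817 (L l120 (T t4781 N))))))))⟩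
def e0_63_106__197_42_70 : Ent 4 := ⟨[a0, a63, a106], [a197, a42, a117], (M a240 (F (L l419 (L l491 (T t6965 (L l440 (L l491 (T t817 (L l419 (T t4781 (L l114 (L l236 (L l311 (T t4786 N))))))))))))))⟩
def e0_63_106__197_42_71 : Ent 4 := ⟨[a0, a63, a106], [a197, a42, a118], (M a240 (F (L l236 (L l423 (T t4779 (L l491 (T t817 (L l423 (T t4781 N)))))))))⟩
def e0_63_106__197_42_72 : Ent 4 := ⟨[a0, a63, a106], [a197, a42, a119], (M a240 (F (L l236 (T t4779 (L l491 (T t817 (T t4781 N)))))))⟩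
def e0_63_106__197_42_73 : Ent 4 := ⟨[a0, a63, a106], [a197, a42, a122], (M a12 (F (L l236 (T t2304 (L l491 (T t2305 (L l56 (T t2415 N))))))))⟩
def e0_63_106__197_42_74 : Ent 4 := ⟨[a0, a63, a106], [a197, a42, a123], (M a240 (F (L l236 (T t4779 (L l491 (T t817 (T t4781 N)))))))⟩
def e0_63_106__197_42_75 : Ent 4 := ⟨[a0, a63, a106], [a197, a42, a127], (M a240 (F (L l236 (T t4779 (L l491 (T t817 (L l137 (T t6501 (L l137 (T t6629 N))))))))))⟩
def e0_63_106__197_42_76 : Ent 4 := ⟨[a0, a63, a106], [a197, a42, a128], (M a240 (F (L l28 (T t6587 (L l192 (T t4781 (L l28 (L l220 (L l491 (T t7881 (L l54 (L l160 (L l236 (L l275 (L l311 (T t7251 N))))))))))))))))⟩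
def e0_63_106__197_42_77 : Ent 4 := ⟨[a0, a63, a106], [a197, a42, a129], (M a240 (F (L l28 (T t6587 (L l152 (L l217 (L l491 (T t6588 (T t4781 N)))))))))⟩
def e0_63_106__197_42_78 : Ent 4 := ⟨[a0, a63, a106], [a197, a42, a130], (M a240 (F (L l236 (T t4779 (L l491 (T t817 (T t4781 N)))))))⟩
def e0_63_106__197_42_79 : Ent 4 := ⟨[a0, a63, a106], [a197, a42, a131], (M a240 (F (L l236 (T t4779 (L l491 (T t817 (T t4781 N)))))))⟩
def e0_63_106__197_42_80 : Ent 4 := ⟨[a0, a63, a106], [a197, a42, a133], (M a12 (L l311 (F (T t2419 (L l199 (L l491 (T t2305 (L l56 (T t2415 (K a5 (M a69 (F (T t2419 (L l56 (L l229 (L l335 (T t4782 N))))))) (K a69 (M a5 (F (T t2419 (L l56 (L l315 (L l329 (T t1428 N))))))) N)))))))))))⟩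
def e0_63_106__197_42_81 : Ent 4 := ⟨[a0, a63, a106], [a197, a42, a134], (M a240 (F (L l236 (L l336 (T t4779 (L l491 (T t817 (L l336 (T t4781 N)))))))))⟩
def e0_63_106__197_42_82 : Ent 4 := ⟨[a0, a63, a106], [a197, a42, a135], (M a240 (F (L l236 (T t4779 (L l491 (T t817 (T t4781 N)))))))⟩
def e0_63_106__197_42_83 : Ent 4 := ⟨[a0, a63, a106], [a197, a42, a138], (M a240 (F (L l236 (L l318 (T t4779 (L l491 (T t817 (L l318 (T t4781 N)))))))))⟩
def e0_63_106__197_42_84 : Ent 4 := ⟨[a0, a63, a106], [a197, a42, a139], (M a240 (F (L l236 (T t4779 (L l491 (T t817 (T t4781 N)))))))⟩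
def e0_63_106__197_42_85 : Ent 4 := ⟨[a0, a63, a106], [a197, a42, a143], (M a240 (F (L l236 (T t4779 (L l491 (T t817 (T t4781 N)))))))⟩
def e0_63_106__197_42_86 : Ent 4 := ⟨[a0, a63, a106], [a197, a42, a144], (M a12 (F (T t2419 (L l170 (L l491 (T t2305 (L l56 (T t2415 N))))))))⟩
def e0_63_106__197_42_87 : Ent 4 := ⟨[a0, a63, a106], [a197, a42, a145], (M a240 (F (L l28 (T t7338 (T t4781 (L l167 (L l491 (T t817 N))))))))⟩
def e0_63_106__197_42_88 : Ent 4 := ⟨[a0, a63, a106], [a197, a42, a146], (M a240 (F (L l236 (T t4779 (L l344 (L l488 (L l491 (T t817 (T t4781 N)))))))))⟩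
def e0_63_106__197_42_89 : Ent 4 := ⟨[a0, a63, a106], [a197, a42, a147], (M a240 (F (L l236 (T t4779 (L l491 (T t817 (T t4781 N)))))))⟩
def e0_63_106__197_42_90 : Ent 4 := ⟨[a0, a63, a106], [a197, a42, a149], (M a101 (F (L l170 (T t6892 (L l170 (L l311 (L l347 (T t6893 (L l170 (T t8097 (K a144 (M a207 (L l170 (F (T t7339 (T t8098 (K a154 (Fr a159 a111 l505 (V t8099)) (K a159 (Fr a154 a48 l512 (V t8100)) N))))))) (K a96 (M a48 (F (T t6740 (T t2197 (L l54 (L l116 (L l275 (L l311 (T t8101 (L l347 (T t8102 N))))))))))) (K a69 (M a15 (L l311 (F (L l375 (T t8103 (L l54 (L l220 (L l275 (L l375 (T t6773 (L l84 (L l170 (T t8104 (L l28 (L l84 (L l236 (T t8105 (K a5 (M a133 (F (L l375 (T t8106 (L l170 (T t8107 (L l84 (L l170 (T t8104 N))))))))) (K a133 (Fr a5 a10 l8 (V t8108)) N))))))))))))))))))) (K a85 (M a165 (L l347 (F (L l28 (L l220 (T t8109 (L l375 (T t8110 (L l54 (L l275 (L l375 (T t8111 (L l94 (L l170 (L l375 (T t8112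 (K a21 (M a213 (F (L l28 (L l220 (T t8109 (L l18 (L l375 (T t8110 (L l18 (L l170 (L l368 (L l375 (T t8113 (L l94 (L l170 (L l375 (T t8112 N))))))))))))))))) (K a213 (M a21 (L l275 (F (L l54 (L l375 (T t8114 (L l28 (L l220 (T t8109 (L l94 (L l170 (L l375 (T t8112 (L l170 (L l375 (T t8115 (K a229 (M a245 (F (L l170 (L l220 (L l256 (T t8116 (L l28 (L l54 (L l256 (L l375 (T t8117 (L l54 (L l170 (L l311 (T t8118 N))))))))))))))) (K a245 (Fr a229 a37 l383 (V t8119)) N)))))))))))))))))) N)))))))))))))))))) (K a117 (Fr a111 a96 l104 (Fr a207 a159 l505 (Fr a154 a48 l512 (Fr a138 a69 l332 (Fr a170 a186 l206 (Fr a255 a85 l476 (V t8157))))))) (K a138 (M a48 (F (T t6740 (T t7658 N)))) (K a154 (M a207 (L l170 (F (T t7339 (L l206 (T t8099 (K a144 (Fr a159 a111 l505 (V t8099)) (K a159 (M a144 (F (L l206 (T t8099 (L l227 (T t8121 (L l368 (T t8122 N)))))))) N)))))))) (K a207 (M a64 (L l236 (F (T t6937 (L l220 (T t6926 (L l28 (L l220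 (L l289 (L l311 (T t8123 (K a192 (M a202 (F (T t6943 (L l170 (L l289 (L l296 (T t8124 (L l170 (L l268 (L l303 (T t8125 N))))))))))) (K a202 (Fr a192 a128 l304 (V t6924)) N))))))))))))) (K a159 (M a48 (L l170 (F (T t6740 (T t7658 (K a144 (Fr a154 a207 l512 (V t6900)) (K a154 (M a144 (F (T t8126 (L l54 (L l275 (L l311 (L l368 (T t8101 N)))))))) N))))))) (K a111 (M a85 (F (T t3095 (T t2349 (L l199 (L l311 (T t8127 N))))))) (K a255 (M a48 (F (T t6740 (L l266 (T t7658 N))))) N)))))))))))))))))))))⟩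
def e0_63_106__197_42_91 : Ent 4 := ⟨[a0, a63, a106], [a197, a42, a150], (M a240 (F (L l236 (T t4779 (L l163 (L l491 (T t817 (T t4781 N))))))))⟩
def e0_63_106__197_42_92 : Ent 4 := ⟨[a0, a63, a106], [a197, a42, a151], (M a240 (F (L l236 (T t4779 (L l163 (L l491 (T t817 (T t4781 N))))))))⟩
def e0_63_106__197_42_93 : Ent 4 := ⟨[a0, a63, a106], [a197, a42, a154], (M a240 (F (L l236 (T t4779 (L l170 (L l491 (T t6606 (T t4781 N))))))))⟩
def e0_63_106__197_42_94 : Ent 4 := ⟨[a0, a63, a106], [a197, a42, a155], (M a240 (F (L l236 (T t4779 (L l491 (T t817 (T t4781 N)))))))⟩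
def e0_63_106__197_42_95 : Ent 4 := ⟨[a0, a63, a106], [a197, a42, a159], (M a240 (F (L l236 (T t4779 (L l170 (L l491 (T t817 (L l361 (T t4781 N)))))))))⟩
def e0_63_106__197_42_96 : Ent 4 := ⟨[a0, a63, a106], [a197, a42, a160], (M a12 (F (T t2414 (L l56 (T t2415 (L l491 (T t2305 N)))))))⟩
def e0_63_106__197_42_97 : Ent 4 := ⟨[a0, a63, a106], [a197, a42, a161], (M a240 (F (L l236 (T t4779 (L l172 (L l381 (L l491 (T t817 (L l172 (T t4781 N))))))))))⟩
def e0_63_106__197_42_98 : Ent 4 := ⟨[a0, a63, a106], [a197, a42, a162], (M a240 (F (L l236 (T t4779 (L l172 (L l491 (T t817 (L l172 (T t4781 N)))))))))⟩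
def e0_63_106__197_42_99 : Ent 4 := ⟨[a0, a63, a106], [a197, a42, a163], (M a240 (F (L l236 (T t4779 (L l172 (L l491 (T t817 (L l172 (T t4781 N)))))))))⟩
def e0_63_106__197_42_100 : Ent 4 := ⟨[a0, a63, a106], [a197, a42, a165], (M a12 (F (T t2414 (L l56 (T t2415 (L l199 (L l491 (T t2305 N))))))))⟩
def e0_63_106__197_42_101 : Ent 4 := ⟨[a0, a63, a106], [a197, a42, a166], (M a240 (F (L l236 (T t4779 (L l202 (L l491 (T t817 (T t4781 N))))))))⟩
def e0_63_106__197_42_102 : Ent 4 := ⟨[a0, a63, a106], [a197, a42, a167], (M a240 (F (L l236 (T t4779 (L l491 (T t817 (T t4781 N)))))))⟩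
def e0_63_106__197_42_103 : Ent 4 := ⟨[a0, a63, a106], [a197, a42, a170], (M a240 (F (L l236 (T t4779 (L l220 (L l491 (T t4780 (L l180 (L l220 (L l462 (T t6503 (L l28 (L l180 (T t7265 N))))))))))))))⟩
def e0_63_106__197_42_104 : Ent 4 := ⟨[a0, a63, a106], [a197, a42, a171], (M a240 (F (L l236 (T t4779 (L l491 (T t817 (T t4781 N)))))))⟩
def e0_63_106__197_42_105 : Ent 4 := ⟨[a0, a63, a106], [a197, a42, a175], (M a240 (F (L l236 (T t4779 (L l491 (T t4780 (L l180 (L l469 (T t4781 N)))))))))⟩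
def e0_63_106__197_42_106 : Ent 4 := ⟨[a0, a63, a106], [a197, a42, a176], (M a240 (F (L l190 (L l236 (T t4779 (L l192 (L l491 (T t817 (L l190 (L l192 (T t4781 N)))))))))))⟩
def e0_63_106__197_42_107 : Ent 4 := ⟨[a0, a63, a106], [a197, a42, a177], (M a240 (F (L l187 (L l236 (T t4779 (L l491 (T t817 (L l187 (T t4781 N)))))))))⟩
def e0_63_106__197_42_108 : Ent 4 := ⟨[a0, a63, a106], [a197, a42, a178], (M a240 (F (L l236 (T t4779 (L l416 (L l491 (T t817 (T t4781 N))))))))⟩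
def e0_63_106__197_42_109 : Ent 4 := ⟨[a0, a63, a106], [a197, a42, a179], (M a240 (F (L l236 (T t4779 (L l491 (T t817 (T t4781 N)))))))⟩
def e0_63_106__197_42_110 : Ent 4 := ⟨[a0, a63, a106], [a197, a42, a181], (M a12 (F (T t2414 (L l56 (T t2415 (L l199 (L l491 (T t2305 N))))))))⟩
def e0_63_106__197_42_111 : Ent 4 := ⟨[a0, a63, a106], [a197, a42, a182], (M a240 (F (L l183 (L l236 (T t4779 (L l491 (T t817 (L l183 (T t4781 N)))))))))⟩
def e0_63_106__197_42_112 : Ent 4 := ⟨[a0, a63, a106], [a197, a42, a183], (M a240 (F (L l183 (L l236 (T t4779 (L l202 (L l491 (T t817 (L l183 (T t4781 N))))))))))⟩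
def e0_63_106__197_42_113 : Ent 4 := ⟨[a0, a63, a106], [a197, a42, a186], (M a240 (F (L l190 (L l236 (T t4779 (L l440 (L l491 (T t817 (L l190 (T t4781 N))))))))))⟩
def e0_63_106__197_42_114 : Ent 4 := ⟨[a0, a63, a106], [a197, a42, a187], (M a240 (F (L l236 (T t4779 (L l491 (T t817 (T t4781 N)))))))⟩
def e0_63_106__197_42_115 : Ent 4 := ⟨[a0, a63, a106], [a197, a42, a191], (M a240 (F (L l190 (L l236 (T t4779 (L l220 (L l491 (T t817 (L l190 (T t6501 (L l190 (L l311 (T t6654 N)))))))))))))⟩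
def e0_63_106__197_42_116 : Ent 4 := ⟨[a0, a63, a106], [a197, a42, a192], (M a207 (F (L l484 (T t6702 (L l268 (L l484 (T t8128 (L l296 (L l484 (T t6705 (L l484 (T t8129 (K a144 (M a101 (L l484 (F (T t7339 (L l296 (T t8098 (K a96 (Fr a48 a154 l512 (V t8130)) (K a48 (Fr a96 a111 l104 (V t8131)) N)))))))) (K a96 (M a154 (L l484 (F (T t8132 (L l296 (L l311 (T t8133 (L l28 (L l296 (L l311 (L l376 (T t8134 (K a144 (Fr a48 a101 l512 (V t6900)) (K a48 (M a144 (F (T t8135 (L l311 (L l339 (T t8136 N)))))) N)))))))))))))) (K a48 (M a12 (L l484 (F (L l311 (T t8137 (L l272 (T t8138 (K a144 (M a96 (F (T t8139 (L l228 (L l311 (L l488 (T t2144 N))))))) (K a96 (M a144 (F (L l311 (T t8137 (L l56 (L l116 (L l272 (T t2415 (L l416 (L l491 (T t8140 N))))))))))) N))))))))) (K a85 (M a12 (F (L l141 (L l228 (T t5375 (L l272 (L l484 (T t8141 N)))))))) (K a101 (M a204 (L l491 (F (T t8142 (L l123 (L l309 (L l311 (T t8143 (L l489 (T t6655 (K a149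 (M a53 (F (T t8142 (L l54 (L l97 (L l292 (T t8144 N))))))) (K a53 (M a149 (F (L l489 (T t8145 (L l123 (L l309 (L l311 (T t8143 N)))))))) N)))))))))))) (K a138 (M a204 (F (L l514 (T t8146 (L l154 (L l489 (T t6655 (L l330 (L l484 (T t8147 N)))))))))) (K a159 (M a12 (F (L l228 (T t5375 (L l272 (T t8148 (L l56 (L l272 (T t2415 N))))))))) (K a111 (M a12 (F (L l228 (T t5375 (L l272 (T t8148 (L l56 (L l272 (T t2415 N))))))))) N))))))))))))))))))))⟩
def e0_63_106__197_42_117 : Ent 4 := ⟨[a0, a63, a106], [a197, a42, a193], (M a240 (L l233 (F (L l28 (T t6587 (L l491 (L l515 (T t6588 (T t4781 (K a201 (M a205 (F (L l28 (T t7338 (T t4781 (L l491 (L l515 (T t817 N)))))))) (K a205 (M a201 (F (L l28 (T t7338 (T t4781 (L l491 (L l515 (T t817 N)))))))) N)))))))))))⟩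
def e0_63_106__197_42_118 : Ent 4 := ⟨[a0, a63, a106], [a197, a42, a194], (M a240 (F (L l28 (L l336 (T t6587 (L l491 (T t6588 (L l336 (T t4781 N)))))))))⟩
def e0_63_106__197_42_119 : Ent 4 := ⟨[a0, a63, a106], [a197, a42, a195], (M a240 (F (L l28 (T t6587 (L l488 (L l491 (T t6588 (T t4781 N))))))))⟩
def e0_63_106__197_42_120 : Ent 4 := ⟨[a0, a63, a106], [a197, a42, a198], (M a240 (L l229 (F (L l236 (T t4779 (L l491 (T t817 (T t4781 (K a196 (M a199 (F (L l28 (T t7338 (T t4781 (L l491 (L l495 (T t817 N)))))))) (K a199 (M a196 (F (T t4781 (L l279 (L l491 (T t8149 N)))))) N))))))))))⟩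
def e0_63_106__197_42_121 : Ent 4 := ⟨[a0, a63, a106], [a197, a42, a199], (M a240 (L l229 (F (L l236 (T t4779 (L l491 (T t817 (T t4781 (K a196 (M a198 (F (L l28 (T t7338 (T t4781 (L l491 (L l495 (T t817 N)))))))) (K a198 (M a196 (F (T t4781 (L l279 (L l491 (T t8149 N)))))) N))))))))))⟩
def e0_63_106__197_42_122 : Ent 4 := ⟨[a0, a63, a106], [a197, a42, a202], (M a240 (L l236 (F (L l28 (L l318 (T t7338 (L l491 (T t6588 (L l318 (T t4781 (K a192 (M a207 (F (L l318 (L l484 (T t7083 (L l28 (L l282 (L l484 (T t8150 (L l318 (L l339 (T t6482 N)))))))))))) (K a207 (Fr a192 a149 l519 (V t8067)) N))))))))))))⟩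
def e0_63_106__197_42_123 : Ent 4 := ⟨[a0, a63, a106], [a197, a42, a203], (M a240 (F (L l236 (T t4779 (L l491 (T t817 (T t4781 N)))))))⟩
def e0_63_106__197_42_124 : Ent 4 := ⟨[a0, a63, a106], [a197, a42, a207], (M a12 (L l236 (F (T t2419 (L l231 (L l491 (T t2305 (L l56 (T t2415 (K a192 (M a202 (F (L l56 (L l272 (T t2415 (L l28 (L l491 (L l512 (T t8151 (L l272 (T t8152 N))))))))))) (K a202 (Fr a192 a149 l519 (V t8153)) N)))))))))))⟩
def e0_63_106__197_42_125 : Ent 4 := ⟨[a0, a63, a106], [a197, a42, a208], (M a12 (F (T t2419 (L l375 (L l491 (T t2305 (L l56 (T t2415 N))))))))⟩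
def e0_63_106__197_42_126 : Ent 4 := ⟨[a0, a63, a106], [a197, a42, a209], (M a240 (F (L l28 (T t7338 (T t4781 (L l371 (L l491 (T t817 N))))))))⟩
def e0_63_106__197_42_127 : Ent 4 := ⟨[a0, a63, a106], [a197, a42, a210], (M a240 (F (L l28 (T t7338 (T t4781 (L l491 (T t817 N)))))))⟩
def e0_63_106__197_42_128 : Ent 4 := ⟨[a0, a63, a106], [a197, a42, a211], (M a240 (F (L l28 (T t7338 (T t4781 (L l344 (L l491 (T t817 N))))))))⟩
def e0_63_106__197_42_129 : Ent 4 := ⟨[a0, a63, a106], [a197, a42, a213], (M a240 (L l275 (F (L l28 (T t6587 (L l347 (L l491 (T t6588 (T t4781 (K a229 (M a245 (F (T t8154 (L l491 (T t5435 (L l28 (L l246 (L l347 (L l491 (T t815 N)))))))))) (K a245 (M a229 (F (L l419 (T t6482 (L l236 (L l246 (L l296 (L l491 (T t8155 (L l28 (L l246 (T t8156 N)))))))))))) N)))))))))))⟩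
def e0_63_106__197_42_130 : Ent 4 := ⟨[a0, a63, a106], [a197, a42, a214], (M a240 (F (L l236 (T t4779 (L l491 (T t817 (T t4781 N)))))))⟩
def e0_63_106__197_42_131 : Ent 4 := ⟨[a0, a63, a106], [a197, a42, a215], (M a240 (F (L l236 (T t4779 (L l491 (T t817 (T t4781 N)))))))⟩
def e0_63_106__197_42_132 : Ent 4 := ⟨[a0, a63, a106], [a197, a42, a218], (M a240 (F (L l28 (T t7338 (T t4781 (L l491 (T t817 N)))))))⟩
def e0_63_106__197_42_133 : Ent 4 := ⟨[a0, a63, a106], [a197, a42, a219], (M a240 (F (L l236 (T t4779 (L l491 (T t817 (T t4781 N)))))))⟩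
def e0_63_106__197_42_134 : Ent 4 := ⟨[a0, a63, a106], [a197, a42, a223], (M a240 (F (L l28 (T t7338 (L l361 (T t4781 (L l368 (L l491 (T t817 N)))))))))⟩
def e0_63_106__197_42_135 : Ent 4 := ⟨[a0, a63, a106], [a197, a42, a224], (M a12 (F (L l248 (T t2414 (L l491 (T t2305 (L l56 (L l248 (T t2415 N)))))))))⟩
def e0_63_106__197_42_136 : Ent 4 := ⟨[a0, a63, a106], [a197, a42, a225], (M a240 (F (L l236 (T t4779 (L l248 (L l491 (T t817 (T t4781 N))))))))⟩
def e0_63_106__197_42_137 : Ent 4 := ⟨[a0, a63, a106], [a197, a42, a226], (M a240 (F (L l28 (T t6587 (L l491 (T t6588 (T t4781 N)))))))⟩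
def e0_63_106__197_42_138 : Ent 4 := ⟨[a0, a63, a106], [a197, a42, a227], (M a240 (F (L l236 (T t4779 (L l248 (L l491 (T t817 (T t4781 N))))))))⟩
def e0_63_106__197_42_139 : Ent 4 := ⟨[a0, a63, a106], [a197, a42, a229], (M a240 (L l275 (F (L l236 (T t4779 (L l256 (L l491 (T t817 (T t4781 (K a213 (M a245 (F (T t8154 (L l491 (T t5435 (L l28 (L l246 (L l347 (L l491 (T t815 N)))))))))) (K a245 (M a213 (F (L l236 (T t8040 (L l28 (L l419 (T t7338 (L l419 (T t4781 N))))))))) N)))))))))))⟩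
def e0_63_106__197_42_140 : Ent 4 := ⟨[a0, a63, a106], [a197, a42, a230], (M a240 (F (L l236 (T t4779 (L l491 (T t817 (T t4781 N)))))))⟩
def e0_63_106__197_42_141 : Ent 4 := ⟨[a0, a63, a106], [a197, a42, a231], (M a240 (F (L l236 (T t4779 (L l491 (T t817 (T t4781 N)))))))⟩
def e0_63_106__197_42_142 : Ent 4 := ⟨[a0, a63, a106], [a197, a42, a234], (M a240 (F (L l28 (T t6587 (L l491 (T t6588 (T t4781 N)))))))⟩
def e0_63_106__197_42_143 : Ent 4 := ⟨[a0, a63, a106], [a197, a42, a235], (M a240 (F (L l236 (T t4779 (L l491 (T t817 (T t4781 N)))))))⟩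
def e0_63_106__197_42_144 : Ent 4 := ⟨[a0, a63, a106], [a197, a42, a239], (M a240 (F (L l236 (T t4779 (L l256 (L l491 (T t817 (T t4781 N))))))))⟩
def e0_63_106__197_42_145 : Ent 4 := ⟨[a0, a63, a106], [a197, a42, a240], (M a12 (F (T t2419 (L l298 (L l491 (T t2305 (L l56 (T t2415 N))))))))⟩
def e0_63_106__197_42_146 : Ent 4 := ⟨[a0, a63, a106], [a197, a42, a241], (M a240 (F (L l236 (L l443 (T t4779 (L l491 (T t817 (L l443 (T t4781 N)))))))))⟩
def e0_63_106__197_42_147 : Ent 4 := ⟨[a0, a63, a106], [a197, a42, a242], (M a240 (F (L l236 (T t4779 (L l491 (T t817 (T t4781 N)))))))⟩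
def e0_63_106__197_42_148 : Ent 4 := ⟨[a0, a63, a106], [a197, a42, a243], (M a240 (F (L l28 (T t6587 (L l416 (L l491 (T t6588 (T t4781 N))))))))⟩
def e0_63_106__197_42_149 : Ent 4 := ⟨[a0, a63, a106], [a197, a42, a245], (M a240 (L l275 (F (L l236 (L l311 (T t4786 (L l491 (T t817 (L l419 (T t4781 (K a213 (M a229 (F (L l419 (T t6482 (L l236 (L l246 (L l296 (L l491 (T t8155 (L l28 (L l246 (T t8156 N)))))))))))) (K a229 (M a213 (F (L l236 (T t8040 (L l28 (L l419 (T t7338 (L l419 (T t4781 N))))))))) N))))))))))))⟩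
def e0_63_106__197_42_150 : Ent 4 := ⟨[a0, a63, a106], [a197, a42, a246], (M a240 (F (L l236 (T t4779 (L l491 (T t817 (T t4781 N)))))))⟩
def e0_63_106__197_42_151 : Ent 4 := ⟨[a0, a63, a106], [a197, a42, a247], (M a240 (F (L l236 (T t4779 (L l491 (T t817 (T t4781 N)))))))⟩
def e0_63_106__197_42_152 : Ent 4 := ⟨[a0, a63, a106], [a197, a42, a250], (M a240 (F (L l236 (T t4779 (L l491 (T t817 (T t4781 N)))))))⟩
def e0_63_106__197_42_153 : Ent 4 := ⟨[a0, a63, a106], [a197, a42, a251], (M a240 (F (L l236 (T t4779 (L l491 (T t817 (T t4781 N)))))))⟩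
def e0_63_106__197_42_154 : Ent 4 := ⟨[a0, a63, a106], [a197, a42, a255], (M a12 (F (T t2419 (L l290 (L l491 (T t2305 (L l56 (L l439 (T t7149 (L l56 (L l265 (T t7150 N))))))))))))⟩
def b0_63_106__197_42 : Blk 4 := ⟨[0, 63, 106], [197, 42], [1, 2, 3, 5, 6, 7, 10, 11, 15, 16, 17, 18, 19, 21, 22, 23, 26, 27, 31, 32, 33, 34, 35, 37, 38, 39, 43, 47, 48, 49, 50, 51, 53, 54, 55, 58, 59, 64, 65, 66, 67, 69, 70, 71, 74, 75, 79, 80, 81, 82, 83, 85, 86, 87, 90, 91, 95, 96, 97, 98, 99, 101, 102, 103, 107, 111, 112, 113, 114, 115, 117, 118, 119, 122, 123, 127, 128, 129, 130, 131, 133, 134, 135, 138, 139, 143, 144, 145, 146, 147, 149, 150, 151, 154, 155, 159, 160, 161, 162, 163, 165, 166, 167, 170, 171, 175, 176, 177, 178, 179, 181, 182, 183, 186, 187, 191, 192, 193, 194, 195, 198, 199, 202, 203, 207, 208, 209, 210, 211, 213, 214, 215, 218, 219, 223, 224, 225, 226, 227, 229, 230, 231, 234, 235, 239, 240, 241, 242, 243, 245, 246,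 247, 250, 251, 255], [e0_63_106__197_42_0, e0_63_106__197_42_1, e0_63_106__197_42_2, e0_63_106__197_42_3, e0_63_106__197_42_4, e0_63_106__197_42_5, e0_63_106__197_42_6, e0_63_106__197_42_7, e0_63_106__197_42_8, e0_63_106__197_42_9, e0_63_106__197_42_10, e0_63_106__197_42_11, e0_63_106__197_42_12, e0_63_106__197_42_13, e0_63_106__197_42_14, e0_63_106__197_42_15, e0_63_106__197_42_16, e0_63_106__197_42_17, e0_63_106__197_42_18, e0_63_106__197_42_19, e0_63_106__197_42_20, e0_63_106__197_42_21, e0_63_106__197_42_22, e0_63_106__197_42_23, e0_63_106__197_42_24, e0_63_106__197_42_25, e0_63_106__197_42_26, e0_63_106__197_42_27, e0_63_106__197_42_28, e0_63_106__197_42_29, e0_63_106__197_42_30, e0_63_106__197_42_31, e0_63_106__197_42_32, e0_63_106__197_42_33, e0_63_106__197_42_34, e0_63_106__197_42_35, e0_63_106__197_42_36, e0_63_106__197_42_37, e0_63_106__197_42_38, e0_63_106__197_42_39, e0_63_106__197_42_40, e0_63_106__197_42_41,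 e0_63_106__197_42_42, e0_63_106__197_42_43, e0_63_106__197_42_44, e0_63_106__197_42_45, e0_63_106__197_42_46, e0_63_106__197_42_47, e0_63_106__197_42_48, e0_63_106__197_42_49, e0_63_106__197_42_50, e0_63_106__197_42_51, e0_63_106__197_42_52, e0_63_106__197_42_53, e0_63_106__197_42_54, e0_63_106__197_42_55, e0_63_106__197_42_56, e0_63_106__197_42_57, e0_63_106__197_42_58, e0_63_106__197_42_59, e0_63_106__197_42_60, e0_63_106__197_42_61, e0_63_106__197_42_62, e0_63_106__197_42_63, e0_63_106__197_42_64, e0_63_106__197_42_65, e0_63_106__197_42_66, e0_63_106__197_42_67, e0_63_106__197_42_68, e0_63_106__197_42_69, e0_63_106__197_42_70, e0_63_106__197_42_71, e0_63_106__197_42_72, e0_63_106__197_42_73, e0_63_106__197_42_74, e0_63_106__197_42_75, e0_63_106__197_42_76, e0_63_106__197_42_77, e0_63_106__197_42_78, e0_63_106__197_42_79, e0_63_106__197_42_80, e0_63_106__197_42_81, e0_63_106__197_42_82, e0_63_106__197_42_83, e0_63_106__197_42_84,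 e0_63_106__197_42_85, e0_63_106__197_42_86, e0_63_106__197_42_87, e0_63_106__197_42_88, e0_63_106__197_42_89, e0_63_106__197_42_90, e0_63_106__197_42_91, e0_63_106__197_42_92, e0_63_106__197_42_93, e0_63_106__197_42_94, e0_63_106__197_42_95, e0_63_106__197_42_96, e0_63_106__197_42_97, e0_63_106__197_42_98, e0_63_106__197_42_99, e0_63_106__197_42_100, e0_63_106__197_42_101, e0_63_106__197_42_102, e0_63_106__197_42_103, e0_63_106__197_42_104, e0_63_106__197_42_105, e0_63_106__197_42_106, e0_63_106__197_42_107, e0_63_106__197_42_108, e0_63_106__197_42_109, e0_63_106__197_42_110, e0_63_106__197_42_111, e0_63_106__197_42_112, e0_63_106__197_42_113, e0_63_106__197_42_114, e0_63_106__197_42_115, e0_63_106__197_42_116, e0_63_106__197_42_117, e0_63_106__197_42_118, e0_63_106__197_42_119, e0_63_106__197_42_120, e0_63_106__197_42_121, e0_63_106__197_42_122, e0_63_106__197_42_123, e0_63_106__197_42_124, e0_63_106__197_42_125,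 e0_63_106__197_42_126, e0_63_106__197_42_127, e0_63_106__197_42_128, e0_63_106__197_42_129, e0_63_106__197_42_130, e0_63_106__197_42_131, e0_63_106__197_42_132, e0_63_106__197_42_133, e0_63_106__197_42_134, e0_63_106__197_42_135, e0_63_106__197_42_136, e0_63_106__197_42_137, e0_63_106__197_42_138, e0_63_106__197_42_139, e0_63_106__197_42_140, e0_63_106__197_42_141, e0_63_106__197_42_142, e0_63_106__197_42_143, e0_63_106__197_42_144, e0_63_106__197_42_145, e0_63_106__197_42_146, e0_63_106__197_42_147, e0_63_106__197_42_148, e0_63_106__197_42_149, e0_63_106__197_42_150, e0_63_106__197_42_151, e0_63_106__197_42_152, e0_63_106__197_42_153, e0_63_106__197_42_154], by decide +kernel, by decide +kernel⟩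
def e0_63_106__198_42_0 : Ent 4 := ⟨[a0, a63, a106], [a198, a42, a1], (M a48 (F (T t578 (L l28 (L l234 (T t579 (T t551 N)))))))⟩
def e0_63_106__198_42_1 : Ent 4 := ⟨[a0, a63, a106], [a198, a42, a2], (M a48 (L l66 (F (T t578 (L l28 (L l234 (T t579 (T t551 (K a22 (M a62 (F (T t578 (L l22 (T t3443 N))))) (K a62 (M a22 (F (T t578 (L l28 (L l234 (T t579 (T t551 N))))))) N))))))))))⟩
def e0_63_106__198_42_2 : Ent 4 := ⟨[a0, a63, a106], [a198, a42, a3], (M a48 (F (T t2348 (L l28 (L l234 (T t579 (L l453 (T t551 N))))))))⟩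
def e0_63_106__198_42_3 : Ent 4 := ⟨[a0, a63, a106], [a198, a42, a4], (M a48 (F (T t578 (L l28 (L l234 (T t579 (T t551 N)))))))⟩
def e0_63_106__198_42_4 : Ent 4 := ⟨[a0, a63, a106], [a198, a42, a5], (M a48 (F (T t578 (L l28 (L l47 (L l234 (T t579 (T t551 N))))))))⟩
def e0_63_106__198_42_5 : Ent 4 := ⟨[a0, a63, a106], [a198, a42, a6], (M a48 (L l312 (F (T t578 (L l28 (L l234 (T t579 (T t551 (K a70 (M a134 (F (T t578 (L l28 (L l234 (T t579 (T t551 N))))))) (K a134 (M a70 (F (T t578 (L l28 (L l234 (T t579 (T t551 N))))))) N))))))))))⟩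
def e0_63_106__198_42_6 : Ent 4 := ⟨[a0, a63, a106], [a198, a42, a7], (M a48 (F (T t578 (L l28 (L l234 (T t579 (T t551 N)))))))⟩
def e0_63_106__198_42_7 : Ent 4 := ⟨[a0, a63, a106], [a198, a42, a8], (M a48 (L l56 (F (T t578 (L l28 (L l234 (T t579 (T t551 (K a25 (M a59 (F (T t578 (L l26 (L l316 (T t6445 N)))))) (K a59 (M a25 (F (T t578 (L l28 (L l234 (T t579 (T t551 N))))))) N))))))))))⟩
def e0_63_106__198_42_8 : Ent 4 := ⟨[a0, a63, a106], [a198, a42, a9], (M a48 (F (T t578 (L l28 (L l234 (T t579 (T t551 N)))))))⟩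
def e0_63_106__198_42_9 : Ent 4 := ⟨[a0, a63, a106], [a198, a42, a10], (M a48 (L l54 (F (T t578 (L l28 (L l234 (L l318 (T t579 (T t551 (K a26 (Fr a58 a53 l38 (V t6446)) (K a58 (M a26 (F (L l28 (T t4144 (T t551 (L l28 (L l426 (T t6447 (K a32 (Fr a192 a149 l519 (Fr a15 a37 l75 (Fr a47 a31 l61 (V t6528)))) N))))))))) N)))))))))))⟩
def e0_63_106__198_42_10 : Ent 4 := ⟨[a0, a63, a106], [a198, a42, a11], (M a48 (F (T t578 (L l28 (L l234 (T t579 (T t551 N)))))))⟩
def e0_63_106__198_42_11 : Ent 4 := ⟨[a0, a63, a106], [a198, a42, a12], (M a48 (F (T t2348 (L l28 (L l234 (T t579 (L l478 (T t551 N))))))))⟩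
def e0_63_106__198_42_12 : Ent 4 := ⟨[a0, a63, a106], [a198, a42, a13], (M a48 (F (T t578 (L l28 (L l234 (T t579 (T t551 N)))))))⟩
def e0_63_106__198_42_13 : Ent 4 := ⟨[a0, a63, a106], [a198, a42, a14], (M a48 (F (T t578 (L l28 (L l234 (T t579 (T t551 N)))))))⟩
def e0_63_106__198_42_14 : Ent 4 := ⟨[a0, a63, a106], [a198, a42, a15], (M a48 (F (T t2348 (L l28 (L l234 (T t579 (L l483 (T t551 N))))))))⟩
def e0_63_106__198_42_15 : Ent 4 := ⟨[a0, a63, a106], [a198, a42, a16], (M a240 (F (T t4786 (L l340 (T t4780 (T t4781 N))))))⟩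
def e0_63_106__198_42_16 : Ent 4 := ⟨[a0, a63, a106], [a198, a42, a17], (M a48 (F (T t578 (L l28 (L l234 (T t579 (T t551 N)))))))⟩
def e0_63_106__198_42_17 : Ent 4 := ⟨[a0, a63, a106], [a198, a42, a18], (M a48 (F (T t578 (L l28 (L l234 (T t579 (T t551 N)))))))⟩
def e0_63_106__198_42_18 : Ent 4 := ⟨[a0, a63, a106], [a198, a42, a19], (M a48 (F (T t578 (L l28 (L l234 (L l367 (T t579 (T t551 N))))))))⟩
def e0_63_106__198_42_19 : Ent 4 := ⟨[a0, a63, a106], [a198, a42, a20], (M a48 (F (T t578 (L l28 (L l234 (T t579 (T t551 N)))))))⟩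
def e0_63_106__198_42_20 : Ent 4 := ⟨[a0, a63, a106], [a198, a42, a21], (M a48 (F (L l47 (L l234 (T t309 (L l347 (T t551 (L l28 (L l47 (L l234 (T t579 N)))))))))))⟩
def e0_63_106__198_42_21 : Ent 4 := ⟨[a0, a63, a106], [a198, a42, a22], (M a48 (L l66 (F (T t578 (L l28 (L l234 (T t579 (T t551 (K a2 (M a62 (F (T t578 (L l22 (T t3443 N))))) (K a62 (M a2 (F (T t578 (L l19 (L l28 (T t342 N)))))) N))))))))))⟩
def e0_63_106__198_42_22 : Ent 4 := ⟨[a0, a63, a106], [a198, a42, a23], (M a48 (F (L l234 (T t309 (L l351 (T t551 (L l28 (L l234 (T t579 N)))))))))⟩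
def e0_63_106__198_42_23 : Ent 4 := ⟨[a0, a63, a106], [a198, a42, a24], (M a48 (F (T t578 (L l28 (L l234 (T t579 (T t551 N)))))))⟩
def e0_63_106__198_42_24 : Ent 4 := ⟨[a0, a63, a106], [a198, a42, a25], (M a48 (L l56 (F (T t578 (L l28 (L l234 (T t579 (T t551 (K a8 (M a59 (F (T t578 (L l26 (L l316 (T t6445 N)))))) (K a59 (M a8 (F (T t578 (L l19 (L l28 (T t4700 N)))))) N))))))))))⟩
def e0_63_106__198_42_25 : Ent 4 := ⟨[a0, a63, a106], [a198, a42, a26], (M a48 (L l54 (F (T t578 (L l28 (L l234 (T t579 (T t551 (K a10 (Fr a58 a53 l38 (V t6446)) (K a58 (M a10 (F (L l28 (T t2289 (L l234 (T t4033 (L l18 (L l354 (T t6449 (L l18 (L l426 (T t6450 N)))))))))))) N))))))))))⟩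
def e0_63_106__198_42_26 : Ent 4 := ⟨[a0, a63, a106], [a198, a42, a27], (M a48 (F (T t578 (L l28 (L l234 (T t579 (T t551 N)))))))⟩
def e0_63_106__198_42_27 : Ent 4 := ⟨[a0, a63, a106], [a198, a42, a28], (M a48 (F (T t578 (L l28 (L l234 (L l362 (T t579 (T t551 N))))))))⟩
def e0_63_106__198_42_28 : Ent 4 := ⟨[a0, a63, a106], [a198, a42, a29], (M a48 (F (L l234 (T t309 (L l371 (T t551 (L l28 (L l234 (T t579 N)))))))))⟩
def e0_63_106__198_42_29 : Ent 4 := ⟨[a0, a63, a106], [a198, a42, a30], (M a48 (F (T t578 (L l28 (L l234 (T t579 (T t551 N)))))))⟩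
def e0_63_106__198_42_30 : Ent 4 := ⟨[a0, a63, a106], [a198, a42, a31], (M a48 (F (L l234 (T t309 (L l375 (T t551 (L l28 (L l234 (L l361 (T t579 N))))))))))⟩
def e0_63_106__198_42_31 : Ent 4 := ⟨[a0, a63, a106], [a198, a42, a32], (M a240 (L l28 (F (T t6609 (L l376 (T t6588 (L l376 (T t4781 (K a37 (M a47 (F (T t6602 (T t6698 (T t6604 N))))) (K a47 (M a37 (F (L l376 (T t6588 (L l54 (T t6699 (L l376 (T t4781 N)))))))) N))))))))))⟩
def e0_63_106__198_42_32 : Ent 4 := ⟨[a0, a63, a106], [a198, a42, a33], (M a48 (F (T t578 (L l20 (L l28 (L l234 (T t579 (T t551 N))))))))⟩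
def e0_63_106__198_42_33 : Ent 4 := ⟨[a0, a63, a106], [a198, a42, a34], (M a48 (L l26 (F (T t578 (L l20 (L l28 (L l234 (T t579 (T t551 (K a38 (M a46 (F (T t578 (L l56 (L l378 (T t4030 N)))))) (K a46 (M a38 (F (T t578 (L l20 (L l28 (L l234 (T t579 (T t551 N)))))))) N)))))))))))⟩
def e0_63_106__198_42_34 : Ent 4 := ⟨[a0, a63, a106], [a198, a42, a35], (M a48 (F (T t578 (L l20 (L l28 (L l234 (T t579 (T t551 N))))))))⟩
def e0_63_106__198_42_35 : Ent 4 := ⟨[a0, a63, a106], [a198, a42, a36], (M a48 (F (T t578 (L l24 (L l28 (L l234 (T t579 (T t551 N))))))))⟩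
def e0_63_106__198_42_36 : Ent 4 := ⟨[a0, a63, a106], [a198, a42, a37], (M a240 (L l28 (F (T t4786 (T t6606 (T t4781 (K a32 (M a47 (F (T t6602 (T t6698 (T t6604 N))))) (K a47 (M a32 (F (T t6607 (T t4781 (L l54 (T t6608 N)))))) N))))))))⟩
def e0_63_106__198_42_37 : Ent 4 := ⟨[a0, a63, a106], [a198, a42, a38], (M a48 (L l26 (F (T t578 (L l28 (L l234 (T t579 (T t551 (K a34 (M a46 (F (T t578 (L l56 (L l378 (T t4030 N)))))) (K a46 (M a34 (F (T t578 (L l29 (L l66 (T t6453 N)))))) N))))))))))⟩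
def e0_63_106__198_42_38 : Ent 4 := ⟨[a0, a63, a106], [a198, a42, a39], (M a48 (F (T t578 (L l28 (L l234 (T t579 (T t551 N)))))))⟩
def e0_63_106__198_42_39 : Ent 4 := ⟨[a0, a63, a106], [a198, a42, a40], (M a48 (L l22 (F (T t578 (L l24 (L l28 (L l234 (T t579 (T t551 (K a41 (M a43 (F (T t578 (L l66 (L l388 (T t6451 N)))))) (K a43 (M a41 (F (T t578 (L l24 (L l28 (L l234 (T t579 (T t551 N)))))))) N)))))))))))⟩
def e0_63_106__198_42_40 : Ent 4 := ⟨[a0, a63, a106], [a198, a42, a41], (M a48 (L l22 (F (T t578 (L l28 (L l234 (T t579 (T t551 (K a40 (M a43 (F (T t578 (L l66 (L l388 (T t6451 N)))))) (K a43 (M a40 (F (T t578 (L l29 (L l69 (T t6452 N)))))) N))))))))))⟩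
def e0_63_106__198_42_41 : Ent 4 := ⟨[a0, a63, a106], [a198, a42, a43], (M a48 (L l22 (F (T t578 (L l28 (L l234 (T t579 (T t551 (K a40 (M a41 (F (T t578 (L l24 (L l28 (L l234 (T t579 (T t551 N)))))))) (K a41 (M a40 (F (T t578 (L l29 (L l69 (T t6452 N)))))) N))))))))))⟩
def e0_63_106__198_42_42 : Ent 4 := ⟨[a0, a63, a106], [a198, a42, a44], (M a48 (F (T t578 (L l24 (L l28 (L l234 (T t579 (T t551 N))))))))⟩
def e0_63_106__198_42_43 : Ent 4 := ⟨[a0, a63, a106], [a198, a42, a45], (M a48 (F (T t578 (L l28 (L l234 (T t579 (T t551 N)))))))⟩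
def e0_63_106__198_42_44 : Ent 4 := ⟨[a0, a63, a106], [a198, a42, a46], (M a48 (L l26 (F (T t578 (L l28 (L l234 (T t579 (T t551 (K a34 (M a38 (F (T t578 (L l20 (L l28 (L l234 (T t579 (T t551 N)))))))) (K a38 (M a34 (F (T t578 (L l29 (L l66 (T t6453 N)))))) N))))))))))⟩
def e0_63_106__198_42_45 : Ent 4 := ⟨[a0, a63, a106], [a198, a42, a47], (M a12 (L l28 (F (T t2304 (L l237 (T t2305 (L l56 (T t2415 (K a32 (M a37 (F (T t2416 (L l56 (T t2415 (L l237 (T t2305 N))))))) (K a37 (M a32 (F (T t2304 (L l51 (L l56 (T t682 N)))))) N))))))))))⟩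
def e0_63_106__198_42_46 : Ent 4 := ⟨[a0, a63, a106], [a198, a42, a48], (M a12 (F (T t2419 (L l237 (L l508 (T t2305 (L l56 (T t2415 N))))))))⟩
def e0_63_106__198_42_47 : Ent 4 := ⟨[a0, a63, a106], [a198, a42, a49], (M a48 (F (T t578 (L l28 (L l35 (L l234 (T t579 (T t551 N))))))))⟩
def e0_63_106__198_42_48 : Ent 4 := ⟨[a0, a63, a106], [a198, a42, a50], (M a48 (F (T t578 (L l28 (L l234 (T t579 (T t551 N)))))))⟩
def e0_63_106__198_42_49 : Ent 4 := ⟨[a0, a63, a106], [a198, a42, a51], (M a48 (F (T t2348 (L l28 (L l234 (T t579 (L l417 (T t551 N))))))))⟩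
def e0_63_106__198_42_50 : Ent 4 := ⟨[a0, a63, a106], [a198, a42, a52], (M a48 (F (T t578 (L l28 (L l31 (L l234 (T t579 (T t551 N))))))))⟩
def e0_63_106__198_42_51 : Ent 4 := ⟨[a0, a63, a106], [a198, a42, a53], (M a240 (F (T t4786 (L l491 (T t817 (L l419 (T t4781 N)))))))⟩
def e0_63_106__198_42_52 : Ent 4 := ⟨[a0, a63, a106], [a198, a42, a54], (M a48 (L l492 (F (T t578 (L l28 (L l31 (L l234 (T t579 (T t551 (K a150 (M a102 (F (L l163 (T t578 (T t6713 N))))) (K a102 (M a150 (F (L l105 (T t8158 (L l28 (L l31 (L l234 (T t579 (L l495 (T t578 N)))))))))) N)))))))))))⟩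
def e0_63_106__198_42_53 : Ent 4 := ⟨[a0, a63, a106], [a198, a42, a55], (M a48 (F (L l495 (T t578 (L l28 (L l31 (L l234 (T t579 (L l495 (T t551 N))))))))))⟩
def e0_63_106__198_42_54 : Ent 4 := ⟨[a0, a63, a106], [a198, a42, a56], (M a48 (F (T t578 (L l28 (L l234 (T t579 (T t551 N)))))))⟩
def e0_63_106__198_42_55 : Ent 4 := ⟨[a0, a63, a106], [a198, a42, a57], (M a48 (F (T t578 (L l28 (L l35 (L l234 (T t579 (T t551 N))))))))⟩
def e0_63_106__198_42_56 : Ent 4 := ⟨[a0, a63, a106], [a198, a42, a58], (M a240 (L l54 (F (T t4779 (T t817 (T t4781 (K a10 (M a26 (F (L l28 (T t815 (L l318 (T t4781 (T t817 N))))))) (K a26 (M a10 (F (T t6609 (T t6610 (L l18 (T t6611 N)))))) N))))))))⟩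
def e0_63_106__198_42_57 : Ent 4 := ⟨[a0, a63, a106], [a198, a42, a59], (M a48 (L l56 (F (T t578 (L l28 (L l234 (T t579 (T t551 (K a8 (M a25 (F (T t578 (L l28 (L l234 (T t579 (T t551 N))))))) (K a25 (M a8 (F (T t578 (L l19 (L l28 (T t4700 N)))))) N))))))))))⟩
def e0_63_106__198_42_58 : Ent 4 := ⟨[a0, a63, a106], [a198, a42, a60], (M a48 (F (T t2348 (L l28 (L l234 (T t579 (L l442 (T t551 N))))))))⟩
def e0_63_106__198_42_59 : Ent 4 := ⟨[a0, a63, a106], [a198, a42, a61], (M a48 (F (L l515 (T t578 (L l28 (L l35 (L l234 (T t579 (L l515 (T t551 N))))))))))⟩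
def e0_63_106__198_42_60 : Ent 4 := ⟨[a0, a63, a106], [a198, a42, a62], (M a48 (L l66 (F (T t578 (L l28 (L l234 (T t579 (T t551 (K a2 (M a22 (F (T t578 (L l28 (L l234 (T t579 (T t551 N))))))) (K a22 (M a2 (F (T t578 (L l19 (L l28 (T t342 N)))))) N))))))))))⟩
def e0_63_106__198_42_61 : Ent 4 := ⟨[a0, a63, a106], [a198, a42, a64], (M a48 (F (T t578 (L l28 (L l234 (T t6454 (L l28 (T t6455 (L l28 (L l234 (T t6456 (L l28 (L l84 (L l234 (T t6457 (L l54 (L l229 (T t6458 (K a207 (Fr a192 a149 l519 (Fr a96 a144 l484 (Fr a101 a111 l104 (Fr a32 a16 l40 (V t6459))))) N)))))))))))))))))))⟩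
def e0_63_106__198_42_62 : Ent 4 := ⟨[a0, a63, a106], [a198, a42, a65], (M a48 (F (T t578 (L l28 (L l76 (L l234 (T t579 (L l76 (T t551 N)))))))))⟩
def e0_63_106__198_42_63 : Ent 4 := ⟨[a0, a63, a106], [a198, a42, a66], (M a48 (F (T t578 (L l28 (L l76 (L l234 (T t579 (L l76 (T t551 N)))))))))⟩
def e0_63_106__198_42_64 : Ent 4 := ⟨[a0, a63, a106], [a198, a42, a67], (M a48 (F (T t578 (L l28 (L l76 (L l234 (T t579 (L l76 (T t551 N)))))))))⟩
def e0_63_106__198_42_65 : Ent 4 := ⟨[a0, a63, a106], [a198, a42, a68], (M a48 (F (T t578 (L l28 (L l80 (L l234 (T t579 (L l80 (T t551 N)))))))))⟩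
def e0_63_106__198_42_66 : Ent 4 := ⟨[a0, a63, a106], [a198, a42, a69], (M a48 (F (T t578 (L l28 (L l84 (L l234 (T t579 (L l84 (T t551 N)))))))))⟩
def e0_63_106__198_42_67 : Ent 4 := ⟨[a0, a63, a106], [a198, a42, a70], (M a48 (L l312 (F (T t578 (L l28 (L l234 (T t579 (T t551 (K a6 (M a134 (F (T t578 (L l28 (L l234 (T t579 (T t551 N))))))) (K a134 (M a6 (F (T t578 (L l28 (L l234 (T t579 (T t551 N))))))) N))))))))))⟩
def e0_63_106__198_42_68 : Ent 4 := ⟨[a0, a63, a106], [a198, a42, a71], (M a48 (F (T t2348 (L l28 (L l234 (T t579 (T t551 N)))))))⟩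
def e0_63_106__198_42_69 : Ent 4 := ⟨[a0, a63, a106], [a198, a42, a72], (M a48 (F (T t578 (L l28 (L l80 (L l234 (T t579 (L l80 (T t551 N)))))))))⟩
def e0_63_106__198_42_70 : Ent 4 := ⟨[a0, a63, a106], [a198, a42, a73], (M a48 (F (T t578 (L l28 (L l234 (T t579 (T t551 N)))))))⟩
def e0_63_106__198_42_71 : Ent 4 := ⟨[a0, a63, a106], [a198, a42, a74], (M a48 (F (T t578 (L l28 (L l84 (L l234 (L l318 (T t579 (L l84 (T t551 N))))))))))⟩
def e0_63_106__198_42_72 : Ent 4 := ⟨[a0, a63, a106], [a198, a42, a75], (M a48 (F (T t578 (L l28 (L l234 (T t579 (T t551 N)))))))⟩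
def e0_63_106__198_42_73 : Ent 4 := ⟨[a0, a63, a106], [a198, a42, a76], (M a48 (F (T t578 (L l28 (L l80 (L l234 (T t579 (L l80 (T t551 N)))))))))⟩
def e0_63_106__198_42_74 : Ent 4 := ⟨[a0, a63, a106], [a198, a42, a77], (M a48 (F (T t2348 (L l28 (L l234 (T t579 (T t551 N)))))))⟩
def e0_63_106__198_42_75 : Ent 4 := ⟨[a0, a63, a106], [a198, a42, a78], (M a48 (F (T t578 (L l28 (L l234 (T t579 (T t551 N)))))))⟩
def e0_63_106__198_42_76 : Ent 4 := ⟨[a0, a63, a106], [a198, a42, a79], (M a48 (F (L l234 (T t309 (L l84 (T t551 (L l28 (L l84 (L l234 (T t579 N))))))))))⟩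
def e0_63_106__198_42_77 : Ent 4 := ⟨[a0, a63, a106], [a198, a42, a80], (M a12 (F (T t2304 (L l116 (L l237 (T t2305 (L l56 (L l116 (T t2415 N)))))))))⟩
def e0_63_106__198_42_78 : Ent 4 := ⟨[a0, a63, a106], [a198, a42, a81], (M a48 (F (T t578 (L l28 (L l120 (L l234 (T t579 (L l120 (T t551 N)))))))))⟩
def e0_63_106__198_42_79 : Ent 4 := ⟨[a0, a63, a106], [a198, a42, a82], (M a48 (F (T t578 (L l28 (L l234 (T t579 (L l453 (T t551 N))))))))⟩
def e0_63_106__198_42_80 : Ent 4 := ⟨[a0, a63, a106], [a198, a42, a83], (M a48 (F (T t578 (L l28 (L l234 (T t579 (T t551 N)))))))⟩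
def e0_63_106__198_42_81 : Ent 4 := ⟨[a0, a63, a106], [a198, a42, a84], (M a48 (F (T t578 (L l28 (L l140 (L l234 (T t579 (L l140 (T t551 N)))))))))⟩
def e0_63_106__198_42_82 : Ent 4 := ⟨[a0, a63, a106], [a198, a42, a85], (M a48 (F (L l234 (T t309 (L l347 (T t551 (L l54 (L l229 (T t777 (L l234 (L l368 (T t6465 (K a192 (M a240 (F (T t6230 (L l234 (L l236 (T t6471 (L l54 (L l234 (L l236 (L l339 (T t6472 (L l339 (T t6473 N))))))))))))) N)))))))))))))⟩
def e0_63_106__198_42_83 : Ent 4 := ⟨[a0, a63, a106], [a198, a42, a86], (M a48 (F (L l234 (T t309 (L l351 (T t551 (L l28 (L l234 (T t579 N)))))))))⟩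
def e0_63_106__198_42_84 : Ent 4 := ⟨[a0, a63, a106], [a198, a42, a87], (M a48 (F (T t578 (L l28 (L l234 (L l367 (T t579 (T t551 N))))))))⟩
def e0_63_106__198_42_85 : Ent 4 := ⟨[a0, a63, a106], [a198, a42, a88], (M a48 (F (T t578 (L l28 (L l234 (T t579 (L l478 (T t551 N))))))))⟩
def e0_63_106__198_42_86 : Ent 4 := ⟨[a0, a63, a106], [a198, a42, a89], (M a48 (F (L l234 (T t309 (L l371 (T t551 (L l28 (L l234 (T t579 N)))))))))⟩
def e0_63_106__198_42_87 : Ent 4 := ⟨[a0, a63, a106], [a198, a42, a90], (M a48 (F (L l234 (T t309 (L l375 (L l483 (T t551 (L l28 (L l234 (T t579 N))))))))))⟩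
def e0_63_106__198_42_88 : Ent 4 := ⟨[a0, a63, a106], [a198, a42, a91], (M a48 (F (T t578 (L l28 (L l234 (T t579 (T t551 N)))))))⟩
def e0_63_106__198_42_89 : Ent 4 := ⟨[a0, a63, a106], [a198, a42, a92], (M a48 (F (T t578 (L l28 (L l234 (T t579 (T t551 N)))))))⟩
def e0_63_106__198_42_90 : Ent 4 := ⟨[a0, a63, a106], [a198, a42, a93], (M a48 (F (T t578 (L l28 (L l234 (L l362 (T t579 (T t551 N))))))))⟩
def e0_63_106__198_42_91 : Ent 4 := ⟨[a0, a63, a106], [a198, a42, a94], (M a48 (F (T t578 (L l28 (L l234 (T t579 (T t551 N)))))))⟩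
def e0_63_106__198_42_92 : Ent 4 := ⟨[a0, a63, a106], [a198, a42, a95], (M a48 (F (L l234 (T t309 (T t551 (L l28 (L l234 (L l361 (T t579 N)))))))))⟩
def e0_63_106__198_42_93 : Ent 4 := ⟨[a0, a63, a106], [a198, a42, a96], (M a12 (F (T t2414 (L l56 (L l116 (T t2415 (L l116 (L l237 (T t2305 N)))))))))⟩
def e0_63_106__198_42_94 : Ent 4 := ⟨[a0, a63, a106], [a198, a42, a97], (M a48 (F (T t578 (L l28 (L l234 (L l380 (T t579 (L l96 (T t551 N)))))))))⟩
def e0_63_106__198_42_95 : Ent 4 := ⟨[a0, a63, a106], [a198, a42, a98], (M a48 (F (T t578 (L l28 (L l120 (L l234 (T t579 (L l96 (L l120 (T t551 N))))))))))⟩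
def e0_63_106__198_42_96 : Ent 4 := ⟨[a0, a63, a106], [a198, a42, a99], (M a48 (F (L l234 (T t309 (L l96 (T t551 (L l28 (L l234 (T t579 N)))))))))⟩
def e0_63_106__198_42_97 : Ent 4 := ⟨[a0, a63, a106], [a198, a42, a100], (M a48 (F (T t578 (L l28 (L l234 (L l400 (T t579 (L l100 (T t551 N)))))))))⟩
def e0_63_106__198_42_98 : Ent 4 := ⟨[a0, a63, a106], [a198, a42, a101], (M a240 (F (T t4779 (L l491 (L l512 (T t817 (T t4781 N)))))))⟩
def e0_63_106__198_42_99 : Ent 4 := ⟨[a0, a63, a106], [a198, a42, a102], (M a48 (L l492 (F (L l234 (T t309 (L l495 (T t551 (L l28 (L l234 (T t579 (K a150 (M a54 (F (L l510 (L l513 (T t8159 (L l163 (L l495 (T t551 N)))))))) (K a54 (M a150 (F (L l105 (T t8158 (L l28 (L l31 (L l234 (T t579 (L l495 (T t578 N)))))))))) N))))))))))))⟩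
def e0_63_106__198_42_100 : Ent 4 := ⟨[a0, a63, a106], [a198, a42, a103], (M a48 (F (L l234 (T t309 (T t551 (L l28 (L l234 (T t579 N))))))))⟩
def e0_63_106__198_42_101 : Ent 4 := ⟨[a0, a63, a106], [a198, a42, a104], (M a48 (F (T t578 (L l28 (L l140 (L l234 (T t579 (L l100 (L l140 (T t551 N))))))))))⟩
def e0_63_106__198_42_102 : Ent 4 := ⟨[a0, a63, a106], [a198, a42, a105], (M a48 (F (L l234 (T t309 (L l515 (T t551 (L l28 (L l234 (T t579 N)))))))))⟩
def e0_63_106__198_42_103 : Ent 4 := ⟨[a0, a63, a106], [a198, a42, a107], (M a48 (F (L l234 (T t309 (T t551 (L l28 (L l234 (T t579 N))))))))⟩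
def e0_63_106__198_42_104 : Ent 4 := ⟨[a0, a63, a106], [a198, a42, a108], (M a48 (F (L l234 (T t309 (L l100 (T t551 (L l28 (L l234 (T t579 N)))))))))⟩
def e0_63_106__198_42_105 : Ent 4 := ⟨[a0, a63, a106], [a198, a42, a109], (M a48 (F (L l234 (T t309 (T t551 (L l28 (L l234 (T t579 N))))))))⟩
def e0_63_106__198_42_106 : Ent 4 := ⟨[a0, a63, a106], [a198, a42, a110], (M a48 (F (L l234 (T t309 (T t551 (L l28 (L l234 (T t579 N))))))))⟩
def e0_63_106__198_42_107 : Ent 4 := ⟨[a0, a63, a106], [a198, a42, a111], (M a240 (F (T t4779 (T t817 (L l137 (T t4781 N))))))⟩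
def e0_63_106__198_42_108 : Ent 4 := ⟨[a0, a63, a106], [a198, a42, a112], (M a48 (F (T t578 (L l28 (L l116 (T t6462 (L l28 (L l234 (T t6463 N)))))))))⟩
def e0_63_106__198_42_109 : Ent 4 := ⟨[a0, a63, a106], [a198, a42, a113], (M a48 (F (T t578 (L l28 (L l234 (T t579 (T t551 N)))))))⟩
def e0_63_106__198_42_110 : Ent 4 := ⟨[a0, a63, a106], [a198, a42, a114], (M a48 (F (T t578 (L l28 (L l234 (T t579 (L l417 (T t551 N))))))))⟩
def e0_63_106__198_42_111 : Ent 4 := ⟨[a0, a63, a106], [a198, a42, a115], (M a48 (F (T t578 (L l28 (L l120 (L l234 (T t579 (L l120 (T t551 N)))))))))⟩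
def e0_63_106__198_42_112 : Ent 4 := ⟨[a0, a63, a106], [a198, a42, a116], (M a48 (F (T t578 (L l28 (L l234 (T t579 (T t551 N)))))))⟩
def e0_63_106__198_42_113 : Ent 4 := ⟨[a0, a63, a106], [a198, a42, a117], (M a48 (F (T t578 (L l28 (L l234 (L l419 (T t579 (T t551 N))))))))⟩
def e0_63_106__198_42_114 : Ent 4 := ⟨[a0, a63, a106], [a198, a42, a118], (M a48 (F (T t578 (L l28 (L l234 (T t579 (T t551 N)))))))⟩
def e0_63_106__198_42_115 : Ent 4 := ⟨[a0, a63, a106], [a198, a42, a119], (M a48 (F (T t578 (L l28 (L l234 (T t579 (T t551 N)))))))⟩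
def e0_63_106__198_42_116 : Ent 4 := ⟨[a0, a63, a106], [a198, a42, a120], (M a48 (F (T t578 (L l28 (L l234 (T t579 (L l442 (T t551 N))))))))⟩
def e0_63_106__198_42_117 : Ent 4 := ⟨[a0, a63, a106], [a198, a42, a121], (M a48 (F (T t578 (L l28 (L l234 (T t579 (T t551 N)))))))⟩
def e0_63_106__198_42_118 : Ent 4 := ⟨[a0, a63, a106], [a198, a42, a122], (M a48 (F (T t578 (L l28 (L l234 (T t579 (T t551 N)))))))⟩
def e0_63_106__198_42_119 : Ent 4 := ⟨[a0, a63, a106], [a198, a42, a123], (M a48 (F (T t578 (L l28 (L l234 (T t579 (T t551 N)))))))⟩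
def e0_63_106__198_42_120 : Ent 4 := ⟨[a0, a63, a106], [a198, a42, a124], (M a48 (F (T t578 (L l28 (L l140 (L l234 (T t579 (L l140 (T t551 N)))))))))⟩
def e0_63_106__198_42_121 : Ent 4 := ⟨[a0, a63, a106], [a198, a42, a125], (M a48 (F (T t578 (L l28 (L l234 (T t579 (T t551 N)))))))⟩
def e0_63_106__198_42_122 : Ent 4 := ⟨[a0, a63, a106], [a198, a42, a126], (M a48 (F (T t578 (L l28 (L l234 (T t579 (T t551 N)))))))⟩
def e0_63_106__198_42_123 : Ent 4 := ⟨[a0, a63, a106], [a198, a42, a127], (M a48 (F (L l234 (T t309 (T t551 (L l28 (L l234 (T t6454 (L l28 (L l234 (T t6479 N)))))))))))⟩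
def e0_63_106__198_42_124 : Ent 4 := ⟨[a0, a63, a106], [a198, a42, a128], (M a48 (F (L l234 (T t585 (L l28 (L l234 (T t579 (L l192 (L l220 (T t6480 (L l54 (L l160 (L l229 (T t6481 N))))))))))))))⟩
def e0_63_106__198_42_125 : Ent 4 := ⟨[a0, a63, a106], [a198, a42, a129], (M a48 (F (L l234 (T t304 (L l217 (T t551 (L l28 (L l234 (T t579 N)))))))))⟩
def e0_63_106__198_42_126 : Ent 4 := ⟨[a0, a63, a106], [a198, a42, a130], (M a48 (F (T t578 (L l28 (L l234 (T t579 (T t551 N)))))))⟩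
def e0_63_106__198_42_127 : Ent 4 := ⟨[a0, a63, a106], [a198, a42, a131], (M a48 (F (T t578 (L l28 (L l234 (T t579 (L l197 (T t551 N))))))))⟩
def e0_63_106__198_42_128 : Ent 4 := ⟨[a0, a63, a106], [a198, a42, a132], (M a48 (F (L l234 (T t304 (L l202 (T t551 (L l28 (L l234 (T t579 N)))))))))⟩
def e0_63_106__198_42_129 : Ent 4 := ⟨[a0, a63, a106], [a198, a42, a133], (M a48 (F (L l234 (T t304 (L l199 (T t551 (L l28 (L l234 (T t579 N)))))))))⟩
def e0_63_106__198_42_130 : Ent 4 := ⟨[a0, a63, a106], [a198, a42, a134], (M a48 (L l312 (F (T t578 (L l28 (L l234 (T t579 (T t551 (K a6 (M a70 (F (T t578 (L l28 (L l234 (T t579 (T t551 N))))))) (K a70 (M a6 (F (T t578 (L l28 (L l234 (T t579 (T t551 N))))))) N))))))))))⟩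
def e0_63_106__198_42_131 : Ent 4 := ⟨[a0, a63, a106], [a198, a42, a135], (M a48 (F (T t578 (L l28 (L l234 (T t579 (T t551 N)))))))⟩
def e0_63_106__198_42_132 : Ent 4 := ⟨[a0, a63, a106], [a198, a42, a136], (M a48 (F (T t578 (L l28 (L l234 (T t579 (T t551 N)))))))⟩
def e0_63_106__198_42_133 : Ent 4 := ⟨[a0, a63, a106], [a198, a42, a137], (M a48 (F (T t578 (L l28 (L l234 (T t579 (T t551 N)))))))⟩
def e0_63_106__198_42_134 : Ent 4 := ⟨[a0, a63, a106], [a198, a42, a138], (M a48 (F (T t578 (L l28 (L l234 (L l318 (T t579 (T t551 N))))))))⟩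
def e0_63_106__198_42_135 : Ent 4 := ⟨[a0, a63, a106], [a198, a42, a139], (M a48 (F (T t2348 (L l28 (L l234 (T t579 (T t551 N)))))))⟩
def e0_63_106__198_42_136 : Ent 4 := ⟨[a0, a63, a106], [a198, a42, a140], (M a48 (F (T t578 (L l28 (L l234 (T t579 (L l222 (T t551 N))))))))⟩
def e0_63_106__198_42_137 : Ent 4 := ⟨[a0, a63, a106], [a198, a42, a141], (M a48 (F (T t578 (L l28 (L l234 (T t579 (T t551 N)))))))⟩
def e0_63_106__198_42_138 : Ent 4 := ⟨[a0, a63, a106], [a198, a42, a142], (M a48 (F (T t2348 (L l28 (L l234 (T t579 (T t551 N)))))))⟩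
def e0_63_106__198_42_139 : Ent 4 := ⟨[a0, a63, a106], [a198, a42, a143], (M a48 (F (T t2348 (L l28 (L l234 (T t579 (L l28 (T t6462 N))))))))⟩
def e0_63_106__198_42_140 : Ent 4 := ⟨[a0, a63, a106], [a198, a42, a144], (M a12 (F (T t2414 (L l56 (T t2415 (L l170 (L l237 (T t2305 N))))))))⟩
def e0_63_106__198_42_141 : Ent 4 := ⟨[a0, a63, a106], [a198, a42, a145], (M a48 (F (L l234 (T t304 (L l167 (T t551 (L l28 (L l234 (T t579 N)))))))))⟩
def e0_63_106__198_42_142 : Ent 4 := ⟨[a0, a63, a106], [a198, a42, a146], (M a48 (F (L l234 (T t585 (L l197 (T t551 (L l28 (L l234 (T t579 N)))))))))⟩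
def e0_63_106__198_42_143 : Ent 4 := ⟨[a0, a63, a106], [a198, a42, a147], (M a48 (F (L l234 (T t304 (T t551 (L l28 (L l234 (T t579 N))))))))⟩
def e0_63_106__198_42_144 : Ent 4 := ⟨[a0, a63, a106], [a198, a42, a148], (M a48 (F (L l234 (T t304 (L l163 (T t551 (L l28 (L l234 (T t579 N)))))))))⟩
def e0_63_106__198_42_145 : Ent 4 := ⟨[a0, a63, a106], [a198, a42, a149], (M a240 (F (L l199 (T t4781 (L l199 (L l347 (T t6484 (L l28 (L l199 (L l375 (T t6483 (L l28 (L l199 (L l220 (L l375 (T t6485 (K a133 (M a165 (F (T t6486 (L l28 (L l160 (L l220 (L l311 (L l375 (T t6487 (L l160 (L l220 (T t6488 N)))))))))))) (K a165 (M a90 (L l199 (F (T t4788 (L l180 (T t6489 (K a133 (Fr a181 a122 l447 (V t6489)) (K a181 (M a133 (F (L l180 (T t6489 (L l227 (T t6746 (L l234 (L l455 (T t6490 N))))))))) N)))))))) (K a181 (M a165 (F (T t6492 (T t6493 (L l28 (L l220 (L l375 (T t6487 (L l220 (T t6488 N)))))))))) (K a74 (M a48 (F (T t6494 (L l199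 (L l491 (T t781 (L l28 (L l84 (L l234 (L l318 (L l491 (T t579 N)))))))))))) (K a90 (M a48 (L l375 (F (T t3318 (L l199 (L l462 (L l491 (T t781 (L l28 (L l234 (L l491 (T t579 (K a208 (M a31 (F (L l28 (L l347 (T t6495 (L l151 (L l220 (T t6496 N)))))))) (K a31 (M a208 (F (T t6497 (L l151 (L l220 (T t6496 N)))))) N)))))))))))))) (K a122 (M a48 (F (T t3318 (L l114 (L l234 (L l491 (T t6471 (L l28 (L l234 (L l491 (T t579 N))))))))))) N))))))))))))))))))))))⟩
def e0_63_106__198_42_146 : Ent 4 := ⟨[a0, a63, a106], [a198, a42, a150], (M a48 (L l492 (F (L l234 (T t309 (L l163 (T t551 (L l28 (L l234 (T t579 (K a102 (M a54 (F (L l510 (L l513 (T t8159 (L l163 (L l495 (T t551 N)))))))) (K a54 (M a102 (F (L l163 (T t578 (T t6713 N))))) N))))))))))))⟩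
def e0_63_106__198_42_147 : Ent 4 := ⟨[a0, a63, a106], [a198, a42, a151], (M a48 (F (L l234 (T t309 (L l163 (T t551 (L l28 (L l234 (T t579 N)))))))))⟩
def e0_63_106__198_42_148 : Ent 4 := ⟨[a0, a63, a106], [a198, a42, a152], (M a48 (F (L l234 (T t585 (L l222 (T t551 (L l28 (L l234 (T t579 N)))))))))⟩
def e0_63_106__198_42_149 : Ent 4 := ⟨[a0, a63, a106], [a198, a42, a153], (M a48 (F (L l234 (T t309 (L l167 (T t551 (L l28 (L l234 (T t579 N)))))))))⟩
def e0_63_106__198_42_150 : Ent 4 := ⟨[a0, a63, a106], [a198, a42, a154], (M a240 (F (T t4779 (L l170 (L l368 (L l512 (T t817 (T t4781 N))))))))⟩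
def e0_63_106__198_42_151 : Ent 4 := ⟨[a0, a63, a106], [a198, a42, a155], (M a48 (F (T t2348 (L l28 (L l234 (L l367 (T t579 (T t551 N))))))))⟩
def e0_63_106__198_42_152 : Ent 4 := ⟨[a0, a63, a106], [a198, a42, a156], (M a48 (F (L l234 (T t304 (T t551 (L l28 (L l234 (T t579 N))))))))⟩
def e0_63_106__198_42_153 : Ent 4 := ⟨[a0, a63, a106], [a198, a42, a157], (M a48 (F (L l234 (T t309 (L l167 (T t551 (L l28 (L l234 (T t579 N)))))))))⟩
def e0_63_106__198_42_154 : Ent 4 := ⟨[a0, a63, a106], [a198, a42, a158], (M a48 (F (T t2348 (L l28 (L l234 (L l362 (T t579 (T t551 N))))))))⟩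
def e0_63_106__198_42_155 : Ent 4 := ⟨[a0, a63, a106], [a198, a42, a159], (M a240 (F (T t4779 (L l170 (T t817 (L l361 (T t4781 N)))))))⟩
def e0_63_106__198_42_156 : Ent 4 := ⟨[a0, a63, a106], [a198, a42, a160], (M a12 (F (T t2304 (L l237 (T t2305 (L l56 (T t2415 N)))))))⟩
def e0_63_106__198_42_157 : Ent 4 := ⟨[a0, a63, a106], [a198, a42, a161], (M a48 (F (T t578 (L l28 (L l234 (T t579 (L l197 (L l453 (T t551 N)))))))))⟩
def e0_63_106__198_42_158 : Ent 4 := ⟨[a0, a63, a106], [a198, a42, a162], (M a48 (F (T t578 (L l28 (L l234 (L l380 (T t579 (T t551 N))))))))⟩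
def e0_63_106__198_42_159 : Ent 4 := ⟨[a0, a63, a106], [a198, a42, a163], (M a48 (F (T t578 (L l28 (L l234 (T t579 (T t551 N)))))))⟩
def e0_63_106__198_42_160 : Ent 4 := ⟨[a0, a63, a106], [a198, a42, a164], (M a48 (F (T t578 (L l28 (L l234 (T t579 (L l222 (L l478 (T t551 N)))))))))⟩
def e0_63_106__198_42_161 : Ent 4 := ⟨[a0, a63, a106], [a198, a42, a165], (M a48 (F (L l234 (T t309 (L l28 (L l199 (L l483 (T t6462 (L l28 (L l234 (T t579 N)))))))))))⟩
def e0_63_106__198_42_162 : Ent 4 := ⟨[a0, a63, a106], [a198, a42, a166], (M a48 (F (L l234 (T t309 (L l202 (T t551 (L l28 (L l234 (T t579 N)))))))))⟩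
def e0_63_106__198_42_163 : Ent 4 := ⟨[a0, a63, a106], [a198, a42, a167], (M a48 (F (T t578 (L l28 (L l234 (T t579 (T t551 N)))))))⟩
def e0_63_106__198_42_164 : Ent 4 := ⟨[a0, a63, a106], [a198, a42, a168], (M a48 (F (T t578 (L l28 (L l234 (L l400 (T t579 (T t551 N))))))))⟩
def e0_63_106__198_42_165 : Ent 4 := ⟨[a0, a63, a106], [a198, a42, a169], (M a48 (F (L l234 (T t309 (L l217 (T t551 (L l28 (L l234 (T t579 N)))))))))⟩
def e0_63_106__198_42_166 : Ent 4 := ⟨[a0, a63, a106], [a198, a42, a170], (M a48 (F (L l234 (T t309 (L l220 (T t551 (L l28 (L l206 (L l220 (L l234 (L l404 (T t552 (L l28 (L l206 (L l234 (L l404 (T t553 N)))))))))))))))))⟩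
def e0_63_106__198_42_167 : Ent 4 := ⟨[a0, a63, a106], [a198, a42, a171], (M a48 (F (T t578 (L l28 (L l234 (T t579 (T t551 N)))))))⟩
def e0_63_106__198_42_168 : Ent 4 := ⟨[a0, a63, a106], [a198, a42, a172], (M a48 (F (T t578 (L l28 (L l234 (T t579 (T t551 N)))))))⟩
def e0_63_106__198_42_169 : Ent 4 := ⟨[a0, a63, a106], [a198, a42, a173], (M a48 (F (T t578 (L l28 (L l234 (T t579 (T t551 N)))))))⟩
def e0_63_106__198_42_170 : Ent 4 := ⟨[a0, a63, a106], [a198, a42, a174], (M a48 (F (T t578 (L l28 (L l234 (T t579 (T t551 N)))))))⟩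
def e0_63_106__198_42_171 : Ent 4 := ⟨[a0, a63, a106], [a198, a42, a175], (M a48 (F (L l234 (T t309 (T t551 (L l28 (L l234 (T t579 N))))))))⟩
def e0_63_106__198_42_172 : Ent 4 := ⟨[a0, a63, a106], [a198, a42, a176], (M a240 (F (T t4786 (L l192 (T t817 (L l190 (L l192 (T t4781 N))))))))⟩
def e0_63_106__198_42_173 : Ent 4 := ⟨[a0, a63, a106], [a198, a42, a177], (M a48 (F (T t578 (L l28 (L l234 (T t579 (L l182 (L l417 (T t551 N)))))))))⟩
def e0_63_106__198_42_174 : Ent 4 := ⟨[a0, a63, a106], [a198, a42, a178], (M a48 (F (T t578 (L l28 (L l234 (T t579 (L l182 (T t551 N))))))))⟩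
def e0_63_106__198_42_175 : Ent 4 := ⟨[a0, a63, a106], [a198, a42, a179], (M a48 (F (T t578 (L l28 (L l234 (T t579 (L l182 (T t551 N))))))))⟩
def e0_63_106__198_42_176 : Ent 4 := ⟨[a0, a63, a106], [a198, a42, a180], (M a48 (F (T t578 (L l28 (L l234 (T t579 (L l186 (L l442 (T t551 N)))))))))⟩
def e0_63_106__198_42_177 : Ent 4 := ⟨[a0, a63, a106], [a198, a42, a181], (M a48 (F (L l199 (T t578 (L l28 (L l234 (L l419 (T t579 (L l190 (L l199 (T t551 N)))))))))))⟩
def e0_63_106__198_42_178 : Ent 4 := ⟨[a0, a63, a106], [a198, a42, a182], (M a48 (F (T t578 (L l28 (L l234 (T t579 (T t551 N)))))))⟩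
def e0_63_106__198_42_179 : Ent 4 := ⟨[a0, a63, a106], [a198, a42, a183], (M a48 (F (L l234 (T t309 (L l202 (T t551 (L l28 (L l234 (T t579 N)))))))))⟩
def e0_63_106__198_42_180 : Ent 4 := ⟨[a0, a63, a106], [a198, a42, a184], (M a48 (F (T t578 (L l28 (L l234 (T t579 (L l186 (T t551 N))))))))⟩
def e0_63_106__198_42_181 : Ent 4 := ⟨[a0, a63, a106], [a198, a42, a185], (M a48 (F (T t578 (L l28 (L l234 (T t579 (T t551 N)))))))⟩
def e0_63_106__198_42_182 : Ent 4 := ⟨[a0, a63, a106], [a198, a42, a186], (M a48 (F (T t578 (L l28 (L l234 (T t579 (L l190 (T t551 N))))))))⟩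
def e0_63_106__198_42_183 : Ent 4 := ⟨[a0, a63, a106], [a198, a42, a187], (M a48 (F (T t578 (L l28 (L l234 (T t579 (T t551 N)))))))⟩
def e0_63_106__198_42_184 : Ent 4 := ⟨[a0, a63, a106], [a198, a42, a188], (M a48 (F (T t578 (L l28 (L l234 (T t579 (L l186 (T t551 N))))))))⟩
def e0_63_106__198_42_185 : Ent 4 := ⟨[a0, a63, a106], [a198, a42, a189], (M a48 (F (L l234 (T t309 (L l217 (T t551 (L l28 (L l234 (T t579 N)))))))))⟩
def e0_63_106__198_42_186 : Ent 4 := ⟨[a0, a63, a106], [a198, a42, a190], (M a48 (F (T t578 (L l28 (L l234 (T t579 (T t551 N)))))))⟩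
def e0_63_106__198_42_187 : Ent 4 := ⟨[a0, a63, a106], [a198, a42, a191], (M a48 (F (L l234 (T t309 (L l190 (L l220 (T t551 (L l28 (L l234 (T t6498 (L l28 (L l234 (T t6499 N)))))))))))))⟩
def e0_63_106__198_42_188 : Ent 4 := ⟨[a0, a63, a106], [a198, a42, a192], (M a240 (F (L l339 (T t4781 (L l234 (L l236 (L l339 (T t6500 (L l296 (L l339 (T t6501 (L l28 (L l339 (T t6502 (L l339 (T t6503 (K a133 (M a90 (L l339 (F (T t4788 (T t6504 (K a74 (Fr a15 a165 l483 (V t6505)) (K a15 (Fr a74 a122 l130 (V t6506)) N))))))) (K a85 (M a12 (F (L l292 (T t2745 (L l272 (L l339 (T t6595 N))))))) (K a181 (M a12 (F (T t3358 (L l56 (L l272 (T t2415 (L l272 (T t6512 N)))))))) (K a74 (M a165 (L l339 (F (T t6492 (L l296 (T t6513 (L l54 (L l84 (L l318 (T t6514 (K a133 (Fr a15 a90 l483 (V t6515)) (K a15 (M a133 (F (T t6516 (L l28 (L l234 (L l236 (L l318 (L l484 (T t6517 N))))))))) N)))))))))))) (K a90 (M a252 (F (L l334 (T t6518 (L l148 (L l489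 (T t6519 (L l309 (T t6675 N))))))))) (K a122 (M a12 (F (T t2747 (L l56 (L l272 (T t2415 (L l272 (T t6512 N)))))))) (K a15 (M a248 (L l339 (F (T t6520 (L l22 (T t6521 (K a133 (M a74 (F (T t6522 (L l3 (L l56 (L l334 (T t6523 N))))))) (K a74 (M a133 (F (T t3821 (T t6520 (L l469 (L l484 (T t6524 N))))))) N)))))))) N)))))))))))))))))))))))⟩
def e0_63_106__198_42_189 : Ent 4 := ⟨[a0, a63, a106], [a198, a42, a193], (M a48 (F (L l234 (T t304 (L l515 (T t551 (L l28 (L l234 (T t579 N)))))))))⟩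
def e0_63_106__198_42_190 : Ent 4 := ⟨[a0, a63, a106], [a198, a42, a194], (M a240 (L l234 (F (L l228 (T t4786 (T t817 (L l336 (T t4781 (K a202 (M a206 (F (L l28 (T t815 (L l318 (L l336 (T t4781 (T t817 N)))))))) (K a206 (M a202 (F (L l28 (T t815 (L l54 (L l229 (T t8068 (L l510 (T t8069 N))))))))) N))))))))))⟩
def e0_63_106__198_42_191 : Ent 4 := ⟨[a0, a63, a106], [a198, a42, a195], (M a204 (F (L l56 (T t6693 (L l338 (T t6694 (T t6655 N)))))))⟩
def e0_63_106__198_42_192 : Ent 4 := ⟨[a0, a63, a106], [a198, a42, a196], (M a240 (L l229 (F (L l232 (T t4779 (L l495 (T t817 (T t4781 (K a197 (M a199 (F (L l28 (T t7338 (T t4781 (L l491 (L l495 (T t817 N)))))))) (K a199 (M a197 (F (L l495 (T t6965 (T t4781 (L l495 (T t817 N))))))) N))))))))))⟩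
def e0_63_106__198_42_193 : Ent 4 := ⟨[a0, a63, a106], [a198, a42, a197], (M a240 (L l229 (F (L l236 (T t4779 (L l491 (T t817 (T t4781 (K a196 (M a199 (F (L l28 (T t7338 (T t4781 (L l491 (L l495 (T t817 N)))))))) (K a199 (M a196 (F (T t4781 (L l279 (L l491 (T t8149 N)))))) N))))))))))⟩
def e0_63_106__198_42_194 : Ent 4 := ⟨[a0, a63, a106], [a198, a42, a199], (M a240 (L l229 (F (T t4779 (T t817 (T t4781 (K a196 (M a197 (F (L l495 (T t6965 (T t4781 (L l495 (T t817 N))))))) (K a197 (M a196 (F (T t4781 (L l279 (L l491 (T t8149 N)))))) N))))))))⟩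
def e0_63_106__198_42_195 : Ent 4 := ⟨[a0, a63, a106], [a198, a42, a200], (M a48 (F (T t578 (L l28 (L l230 (L l234 (T t579 (T t551 N))))))))⟩
def e0_63_106__198_42_196 : Ent 4 := ⟨[a0, a63, a106], [a198, a42, a201], (M a204 (F (T t6715 (L l230 (T t4770 (T t6655 N))))))⟩
def e0_63_106__198_42_197 : Ent 4 := ⟨[a0, a63, a106], [a198, a42, a202], (M a240 (L l234 (F (L l236 (T t4786 (T t817 (L l318 (T t4781 (K a194 (M a206 (F (L l28 (T t815 (L l318 (L l336 (T t4781 (T t817 N)))))))) (K a206 (M a194 (F (T t587 (L l318 (T t4781 N))))) N))))))))))⟩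
def e0_63_106__198_42_198 : Ent 4 := ⟨[a0, a63, a106], [a198, a42, a203], (M a48 (F (T t2348 (L l28 (L l230 (L l234 (T t579 (T t551 N))))))))⟩
def e0_63_106__198_42_199 : Ent 4 := ⟨[a0, a63, a106], [a198, a42, a204], (M a195 (F (T t6809 (L l333 (T t6810 (T t6811 N))))))⟩
def e0_63_106__198_42_200 : Ent 4 := ⟨[a0, a63, a106], [a198, a42, a205], (M a48 (F (T t2348 (L l28 (L l234 (T t579 (T t551 N)))))))⟩
def e0_63_106__198_42_201 : Ent 4 := ⟨[a0, a63, a106], [a198, a42, a206], (M a240 (L l234 (F (T t4779 (T t817 (T t4781 (K a194 (M a202 (F (L l28 (T t815 (L l54 (L l229 (T t8068 (L l510 (T t8069 N))))))))) (K a202 (M a194 (F (T t587 (L l318 (T t4781 N))))) N))))))))⟩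
def e0_63_106__198_42_202 : Ent 4 := ⟨[a0, a63, a106], [a198, a42, a207], (M a240 (F (T t6525 (L l512 (T t817 (T t4781 N))))))⟩
def e0_63_106__198_42_203 : Ent 4 := ⟨[a0, a63, a106], [a198, a42, a208], (M a12 (F (T t2419 (L l237 (L l375 (T t2305 (L l56 (T t2415 N))))))))⟩
def e0_63_106__198_42_204 : Ent 4 := ⟨[a0, a63, a106], [a198, a42, a209], (M a48 (F (L l234 (T t304 (L l371 (T t551 (L l28 (L l234 (T t579 N)))))))))⟩
def e0_63_106__198_42_205 : Ent 4 := ⟨[a0, a63, a106], [a198, a42, a210], (M a48 (F (T t578 (L l28 (L l234 (T t579 (L l273 (T t551 N))))))))⟩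
def e0_63_106__198_42_206 : Ent 4 := ⟨[a0, a63, a106], [a198, a42, a211], (M a48 (F (T t578 (L l28 (L l234 (L l245 (T t579 (T t551 N))))))))⟩
def e0_63_106__198_42_207 : Ent 4 := ⟨[a0, a63, a106], [a198, a42, a212], (M a48 (F (L l234 (T t304 (L l351 (T t551 (L l28 (L l234 (T t579 N)))))))))⟩
def e0_63_106__198_42_208 : Ent 4 := ⟨[a0, a63, a106], [a198, a42, a213], (M a48 (F (L l234 (T t304 (L l347 (T t551 (L l28 (L l234 (L l246 (T t579 N))))))))))⟩
def e0_63_106__198_42_209 : Ent 4 := ⟨[a0, a63, a106], [a198, a42, a214], (M a48 (L l276 (F (T t578 (L l28 (L l234 (T t579 (T t551 (K a230 (M a246 (F (T t578 (L l28 (L l234 (T t579 (T t551 N))))))) (K a246 (M a230 (F (T t578 (L l28 (L l234 (T t579 (T t551 N))))))) N))))))))))⟩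
def e0_63_106__198_42_210 : Ent 4 := ⟨[a0, a63, a106], [a198, a42, a215], (M a48 (F (T t578 (L l28 (L l234 (L l245 (T t579 (T t551 N))))))))⟩
def e0_63_106__198_42_211 : Ent 4 := ⟨[a0, a63, a106], [a198, a42, a216], (M a48 (F (T t578 (L l28 (L l234 (T t579 (L l298 (T t551 N))))))))⟩
def e0_63_106__198_42_212 : Ent 4 := ⟨[a0, a63, a106], [a198, a42, a217], (M a48 (F (T t578 (L l28 (L l234 (T t579 (T t551 N)))))))⟩
def e0_63_106__198_42_213 : Ent 4 := ⟨[a0, a63, a106], [a198, a42, a218], (M a48 (F (T t2348 (L l28 (L l234 (L l246 (L l282 (T t579 (L l303 (T t551 N))))))))))⟩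
def e0_63_106__198_42_214 : Ent 4 := ⟨[a0, a63, a106], [a198, a42, a219], (M a48 (F (T t2348 (L l28 (L l234 (L l245 (T t579 (T t551 N))))))))⟩
def e0_63_106__198_42_215 : Ent 4 := ⟨[a0, a63, a106], [a198, a42, a220], (M a48 (F (T t578 (L l28 (L l234 (L l241 (T t579 (T t551 N))))))))⟩
def e0_63_106__198_42_216 : Ent 4 := ⟨[a0, a63, a106], [a198, a42, a221], (M a48 (F (T t578 (L l28 (L l234 (L l241 (T t579 (T t551 N))))))))⟩
def e0_63_106__198_42_217 : Ent 4 := ⟨[a0, a63, a106], [a198, a42, a222], (M a48 (F (T t2348 (L l28 (L l234 (L l241 (T t579 (T t551 N))))))))⟩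
def e0_63_106__198_42_218 : Ent 4 := ⟨[a0, a63, a106], [a198, a42, a223], (M a240 (F (T t4786 (L l368 (T t817 (L l361 (T t4781 N)))))))⟩
def e0_63_106__198_42_219 : Ent 4 := ⟨[a0, a63, a106], [a198, a42, a224], (M a48 (F (L l234 (T t585 (L l268 (L l376 (T t551 (L l28 (L l234 (L l376 (T t579 N)))))))))))⟩
def e0_63_106__198_42_220 : Ent 4 := ⟨[a0, a63, a106], [a198, a42, a225], (M a48 (F (T t578 (L l28 (L l234 (T t579 (L l273 (T t551 N))))))))⟩
def e0_63_106__198_42_221 : Ent 4 := ⟨[a0, a63, a106], [a198, a42, a226], (M a48 (F (T t578 (L l28 (L l234 (T t579 (T t551 N)))))))⟩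
def e0_63_106__198_42_222 : Ent 4 := ⟨[a0, a63, a106], [a198, a42, a227], (M a48 (F (T t578 (L l28 (L l234 (L l380 (T t579 (T t551 N))))))))⟩
def e0_63_106__198_42_223 : Ent 4 := ⟨[a0, a63, a106], [a198, a42, a228], (M a48 (F (T t578 (L l28 (L l234 (T t579 (L l298 (T t551 N))))))))⟩
def e0_63_106__198_42_224 : Ent 4 := ⟨[a0, a63, a106], [a198, a42, a229], (M a48 (F (T t2348 (L l28 (L l234 (T t579 (L l303 (T t551 N))))))))⟩
def e0_63_106__198_42_225 : Ent 4 := ⟨[a0, a63, a106], [a198, a42, a230], (M a48 (L l276 (F (T t578 (L l28 (L l234 (T t579 (T t551 (K a214 (M a246 (F (T t578 (L l28 (L l234 (T t579 (T t551 N))))))) (K a246 (M a214 (F (T t578 (L l28 (L l234 (T t579 (T t551 N))))))) N))))))))))⟩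
def e0_63_106__198_42_226 : Ent 4 := ⟨[a0, a63, a106], [a198, a42, a231], (M a48 (F (T t2348 (L l28 (L l234 (T t579 (T t551 N)))))))⟩
def e0_63_106__198_42_227 : Ent 4 := ⟨[a0, a63, a106], [a198, a42, a232], (M a48 (F (T t578 (L l28 (L l234 (T t579 (T t551 N)))))))⟩
def e0_63_106__198_42_228 : Ent 4 := ⟨[a0, a63, a106], [a198, a42, a233], (M a48 (F (T t578 (L l28 (L l234 (T t579 (T t551 N)))))))⟩
def e0_63_106__198_42_229 : Ent 4 := ⟨[a0, a63, a106], [a198, a42, a234], (M a48 (F (T t578 (L l28 (L l234 (L l282 (T t579 (T t551 N))))))))⟩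
def e0_63_106__198_42_230 : Ent 4 := ⟨[a0, a63, a106], [a198, a42, a235], (M a48 (F (T t578 (L l28 (L l234 (T t579 (T t551 N)))))))⟩
def e0_63_106__198_42_231 : Ent 4 := ⟨[a0, a63, a106], [a198, a42, a236], (M a48 (F (T t578 (L l28 (L l234 (L l400 (T t579 (T t551 N))))))))⟩
def e0_63_106__198_42_232 : Ent 4 := ⟨[a0, a63, a106], [a198, a42, a237], (M a48 (F (T t2348 (L l28 (L l234 (T t579 (T t551 N)))))))⟩
def e0_63_106__198_42_233 : Ent 4 := ⟨[a0, a63, a106], [a198, a42, a238], (M a48 (F (T t578 (L l28 (L l234 (T t579 (T t551 N)))))))⟩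
def e0_63_106__198_42_234 : Ent 4 := ⟨[a0, a63, a106], [a198, a42, a239], (M a48 (F (L l234 (T t309 (T t551 (L l28 (L l234 (L l289 (L l404 (T t579 N))))))))))⟩
def e0_63_106__198_42_235 : Ent 4 := ⟨[a0, a63, a106], [a198, a42, a240], (M a12 (F (T t2419 (L l237 (L l298 (T t2305 (L l56 (T t2415 N))))))))⟩
def e0_63_106__198_42_236 : Ent 4 := ⟨[a0, a63, a106], [a198, a42, a241], (M a48 (F (T t578 (L l28 (L l234 (T t579 (L l258 (T t551 N))))))))⟩
def e0_63_106__198_42_237 : Ent 4 := ⟨[a0, a63, a106], [a198, a42, a242], (M a48 (F (T t578 (L l28 (L l234 (T t579 (L l258 (T t551 N))))))))⟩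
def e0_63_106__198_42_238 : Ent 4 := ⟨[a0, a63, a106], [a198, a42, a243], (M a48 (F (T t2348 (L l28 (L l234 (T t579 (L l258 (T t551 N))))))))⟩
def e0_63_106__198_42_239 : Ent 4 := ⟨[a0, a63, a106], [a198, a42, a244], (M a48 (F (T t578 (L l28 (L l234 (T t579 (L l262 (T t551 N))))))))⟩
def e0_63_106__198_42_240 : Ent 4 := ⟨[a0, a63, a106], [a198, a42, a245], (M a48 (F (T t578 (L l28 (L l234 (L l419 (T t579 (L l266 (T t551 N)))))))))⟩
def e0_63_106__198_42_241 : Ent 4 := ⟨[a0, a63, a106], [a198, a42, a246], (M a48 (L l276 (F (T t578 (L l28 (L l234 (T t579 (T t551 (K a214 (M a230 (F (T t578 (L l28 (L l234 (T t579 (T t551 N))))))) (K a230 (M a214 (F (T t578 (L l28 (L l234 (T t579 (T t551 N))))))) N))))))))))⟩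
def e0_63_106__198_42_242 : Ent 4 := ⟨[a0, a63, a106], [a198, a42, a247], (M a48 (F (T t578 (L l28 (L l234 (T t579 (T t551 N)))))))⟩
def e0_63_106__198_42_243 : Ent 4 := ⟨[a0, a63, a106], [a198, a42, a248], (M a48 (F (T t578 (L l28 (L l234 (T t579 (L l262 (T t551 N))))))))⟩
def e0_63_106__198_42_244 : Ent 4 := ⟨[a0, a63, a106], [a198, a42, a249], (M a48 (F (T t578 (L l28 (L l234 (T t579 (T t551 N)))))))⟩
def e0_63_106__198_42_245 : Ent 4 := ⟨[a0, a63, a106], [a198, a42, a250], (M a48 (F (T t578 (L l28 (L l234 (L l282 (T t579 (L l266 (T t551 N)))))))))⟩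
def e0_63_106__198_42_246 : Ent 4 := ⟨[a0, a63, a106], [a198, a42, a251], (M a48 (F (T t578 (L l28 (L l234 (T t579 (T t551 N)))))))⟩
def e0_63_106__198_42_247 : Ent 4 := ⟨[a0, a63, a106], [a198, a42, a252], (M a48 (F (T t2348 (L l28 (L l234 (T t579 (L l262 (T t551 N))))))))⟩
def e0_63_106__198_42_248 : Ent 4 := ⟨[a0, a63, a106], [a198, a42, a253], (M a48 (F (T t578 (L l28 (L l234 (T t579 (T t551 N)))))))⟩
def e0_63_106__198_42_249 : Ent 4 := ⟨[a0, a63, a106], [a198, a42, a254], (M a48 (F (T t578 (L l28 (L l234 (T t579 (T t551 N)))))))⟩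
def e0_63_106__198_42_250 : Ent 4 := ⟨[a0, a63, a106], [a198, a42, a255], (M a48 (F (T t2348 (L l266 (T t551 (L l28 (L l234 (L l469 (T t6526 (L l28 (L l234 (L l289 (T t6527 N)))))))))))))⟩
def b0_63_106__198_42 : Blk 4 := ⟨[0, 63, 106], [198, 42], [1, 2, 3, 4, 5, 6, 7, 8, 9, 10, 11, 12, 13, 14, 15, 16, 17, 18, 19, 20, 21, 22, 23, 24, 25, 26, 27, 28, 29, 30, 31, 32, 33, 34, 35, 36, 37, 38, 39, 40, 41, 43, 44, 45, 46, 47, 48, 49, 50, 51, 52, 53, 54, 55, 56, 57, 58, 59, 60, 61, 62, 64, 65, 66, 67, 68, 69, 70, 71, 72, 73, 74, 75, 76, 77, 78, 79, 80, 81, 82, 83, 84, 85, 86, 87, 88, 89, 90, 91, 92, 93, 94, 95, 96, 97, 98, 99, 100, 101, 102, 103, 104, 105, 107, 108, 109, 110, 111, 112, 113, 114, 115, 116, 117, 118, 119, 120, 121, 122, 123, 124, 125, 126, 127, 128, 129, 130, 131, 132, 133, 134, 135, 136, 137, 138, 139, 140, 141, 142, 143, 144, 145, 146, 147, 148, 149, 150, 151, 152, 153, 154, 155, 156, 157, 158, 159, 160,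 161, 162, 163, 164, 165, 166, 167, 168, 169, 170, 171, 172, 173, 174, 175, 176, 177, 178, 179, 180, 181, 182, 183, 184, 185, 186, 187, 188, 189, 190, 191, 192, 193, 194, 195, 196, 197, 199, 200, 201, 202, 203, 204, 205, 206, 207, 208, 209, 210, 211, 212, 213, 214, 215, 216, 217, 218, 219, 220, 221, 222, 223, 224, 225, 226, 227, 228, 229, 230, 231, 232, 233, 234, 235, 236, 237, 238, 239, 240, 241, 242, 243, 244, 245, 246, 247, 248, 249, 250, 251, 252, 253, 254, 255], [e0_63_106__198_42_0, e0_63_106__198_42_1, e0_63_106__198_42_2, e0_63_106__198_42_3, e0_63_106__198_42_4, e0_63_106__198_42_5, e0_63_106__198_42_6, e0_63_106__198_42_7, e0_63_106__198_42_8, e0_63_106__198_42_9, e0_63_106__198_42_10, e0_63_106__198_42_11, e0_63_106__198_42_12, e0_63_106__198_42_13, e0_63_106__198_42_14, e0_63_106__198_42_15, e0_63_106__198_42_16, e0_63_106__198_42_17, e0_63_106__198_42_18, e0_63_106__198_42_19, e0_63_106__198_42_20, e0_63_106__198_42_21,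 e0_63_106__198_42_22, e0_63_106__198_42_23, e0_63_106__198_42_24, e0_63_106__198_42_25, e0_63_106__198_42_26, e0_63_106__198_42_27, e0_63_106__198_42_28, e0_63_106__198_42_29, e0_63_106__198_42_30, e0_63_106__198_42_31, e0_63_106__198_42_32, e0_63_106__198_42_33, e0_63_106__198_42_34, e0_63_106__198_42_35, e0_63_106__198_42_36, e0_63_106__198_42_37, e0_63_106__198_42_38, e0_63_106__198_42_39, e0_63_106__198_42_40, e0_63_106__198_42_41, e0_63_106__198_42_42, e0_63_106__198_42_43, e0_63_106__198_42_44, e0_63_106__198_42_45, e0_63_106__198_42_46, e0_63_106__198_42_47, e0_63_106__198_42_48, e0_63_106__198_42_49, e0_63_106__198_42_50, e0_63_106__198_42_51, e0_63_106__198_42_52, e0_63_106__198_42_53, e0_63_106__198_42_54, e0_63_106__198_42_55, e0_63_106__198_42_56, e0_63_106__198_42_57, e0_63_106__198_42_58, e0_63_106__198_42_59, e0_63_106__198_42_60, e0_63_106__198_42_61, e0_63_106__198_42_62, e0_63_106__198_42_63, e0_63_106__198_42_64,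 e0_63_106__198_42_65, e0_63_106__198_42_66, e0_63_106__198_42_67, e0_63_106__198_42_68, e0_63_106__198_42_69, e0_63_106__198_42_70, e0_63_106__198_42_71, e0_63_106__198_42_72, e0_63_106__198_42_73, e0_63_106__198_42_74, e0_63_106__198_42_75, e0_63_106__198_42_76, e0_63_106__198_42_77, e0_63_106__198_42_78, e0_63_106__198_42_79, e0_63_106__198_42_80, e0_63_106__198_42_81, e0_63_106__198_42_82, e0_63_106__198_42_83, e0_63_106__198_42_84, e0_63_106__198_42_85, e0_63_106__198_42_86, e0_63_106__198_42_87, e0_63_106__198_42_88, e0_63_106__198_42_89, e0_63_106__198_42_90, e0_63_106__198_42_91, e0_63_106__198_42_92, e0_63_106__198_42_93, e0_63_106__198_42_94, e0_63_106__198_42_95, e0_63_106__198_42_96, e0_63_106__198_42_97, e0_63_106__198_42_98, e0_63_106__198_42_99, e0_63_106__198_42_100, e0_63_106__198_42_101, e0_63_106__198_42_102, e0_63_106__198_42_103, e0_63_106__198_42_104, e0_63_106__198_42_105, e0_63_106__198_42_106,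 e0_63_106__198_42_107, e0_63_106__198_42_108, e0_63_106__198_42_109, e0_63_106__198_42_110, e0_63_106__198_42_111, e0_63_106__198_42_112, e0_63_106__198_42_113, e0_63_106__198_42_114, e0_63_106__198_42_115, e0_63_106__198_42_116, e0_63_106__198_42_117, e0_63_106__198_42_118, e0_63_106__198_42_119, e0_63_106__198_42_120, e0_63_106__198_42_121, e0_63_106__198_42_122, e0_63_106__198_42_123, e0_63_106__198_42_124, e0_63_106__198_42_125, e0_63_106__198_42_126, e0_63_106__198_42_127, e0_63_106__198_42_128, e0_63_106__198_42_129, e0_63_106__198_42_130, e0_63_106__198_42_131, e0_63_106__198_42_132, e0_63_106__198_42_133, e0_63_106__198_42_134, e0_63_106__198_42_135, e0_63_106__198_42_136, e0_63_106__198_42_137, e0_63_106__198_42_138, e0_63_106__198_42_139, e0_63_106__198_42_140, e0_63_106__198_42_141, e0_63_106__198_42_142, e0_63_106__198_42_143, e0_63_106__198_42_144, e0_63_106__198_42_145, e0_63_106__198_42_146, e0_63_106__198_42_147,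 e0_63_106__198_42_148, e0_63_106__198_42_149, e0_63_106__198_42_150, e0_63_106__198_42_151, e0_63_106__198_42_152, e0_63_106__198_42_153, e0_63_106__198_42_154, e0_63_106__198_42_155, e0_63_106__198_42_156, e0_63_106__198_42_157, e0_63_106__198_42_158, e0_63_106__198_42_159, e0_63_106__198_42_160, e0_63_106__198_42_161, e0_63_106__198_42_162, e0_63_106__198_42_163, e0_63_106__198_42_164, e0_63_106__198_42_165, e0_63_106__198_42_166, e0_63_106__198_42_167, e0_63_106__198_42_168, e0_63_106__198_42_169, e0_63_106__198_42_170, e0_63_106__198_42_171, e0_63_106__198_42_172, e0_63_106__198_42_173, e0_63_106__198_42_174, e0_63_106__198_42_175, e0_63_106__198_42_176, e0_63_106__198_42_177, e0_63_106__198_42_178, e0_63_106__198_42_179, e0_63_106__198_42_180, e0_63_106__198_42_181, e0_63_106__198_42_182, e0_63_106__198_42_183, e0_63_106__198_42_184, e0_63_106__198_42_185, e0_63_106__198_42_186, e0_63_106__198_42_187, e0_63_106__198_42_188,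 e0_63_106__198_42_189, e0_63_106__198_42_190, e0_63_106__198_42_191, e0_63_106__198_42_192, e0_63_106__198_42_193, e0_63_106__198_42_194, e0_63_106__198_42_195, e0_63_106__198_42_196, e0_63_106__198_42_197, e0_63_106__198_42_198, e0_63_106__198_42_199, e0_63_106__198_42_200, e0_63_106__198_42_201, e0_63_106__198_42_202, e0_63_106__198_42_203, e0_63_106__198_42_204, e0_63_106__198_42_205, e0_63_106__198_42_206, e0_63_106__198_42_207, e0_63_106__198_42_208, e0_63_106__198_42_209, e0_63_106__198_42_210, e0_63_106__198_42_211, e0_63_106__198_42_212, e0_63_106__198_42_213, e0_63_106__198_42_214, e0_63_106__198_42_215, e0_63_106__198_42_216, e0_63_106__198_42_217, e0_63_106__198_42_218, e0_63_106__198_42_219, e0_63_106__198_42_220, e0_63_106__198_42_221, e0_63_106__198_42_222, e0_63_106__198_42_223, e0_63_106__198_42_224, e0_63_106__198_42_225, e0_63_106__198_42_226, e0_63_106__198_42_227, e0_63_106__198_42_228, e0_63_106__198_42_229,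 e0_63_106__198_42_230, e0_63_106__198_42_231, e0_63_106__198_42_232, e0_63_106__198_42_233, e0_63_106__198_42_234, e0_63_106__198_42_235, e0_63_106__198_42_236, e0_63_106__198_42_237, e0_63_106__198_42_238, e0_63_106__198_42_239, e0_63_106__198_42_240, e0_63_106__198_42_241, e0_63_106__198_42_242, e0_63_106__198_42_243, e0_63_106__198_42_244, e0_63_106__198_42_245, e0_63_106__198_42_246, e0_63_106__198_42_247, e0_63_106__198_42_248, e0_63_106__198_42_249, e0_63_106__198_42_250], by decide +kernel, by decide +kernel⟩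

end Pool.Agent.Lib_TTT.K4
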