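import Pool.Agent.Lib_TTT.K4Base
import Pool.Agent.Lib_TTT.K4T00
import Pool.Agent.Lib_TTT.K4T01
import Pool.Agent.Lib_TTT.K4T02
import Pool.Agent.Lib_TTT.K4T03
import Pool.Agent.Lib_TTT.K4T04
import Pool.Agent.Lib_TTT.K4T05
import Pool.Agent.Lib_TTT.K4T06
import Pool.Agent.Lib_TTT.K4T07
import Pool.Agent.Lib_TTT.K4T08
import Pool.Agent.Lib_TTT.K4T09

/-! Certificates in `4^4`. -/

set_option autoImplicit false
set_option maxRecDepth 200000

namespace Pool.Agent.Lib_TTT.K4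

open Lib_TTT AC DC

def e0_63_106__199_42_0 : Ent 4 := ⟨[a0, a63, a106], [a199, a42, a1], (M a48 (F (T t309 (T t551 (L l28 (T t579 N))))))⟩
def e0_63_106__199_42_1 : Ent 4 := ⟨[a0, a63, a106], [a199, a42, a2], (M a48 (L l66 (F (T t309 (T t551 (L l28 (T t579 (K a22 (M a62 (F (T t309 (L l22 (L l277 (L l306 (T t5926 N))))))) (K a62 (M a22 (F (T t309 (T t551 (L l28 (T t579 N)))))) N)))))))))⟩
def e0_63_106__199_42_2 : Ent 4 := ⟨[a0, a63, a106], [a199, a42, a3], (M a48 (F (T t5173 (L l28 (T t579 (L l453 (T t551 N)))))))⟩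
def e0_63_106__199_42_3 : Ent 4 := ⟨[a0, a63, a106], [a199, a42, a4], (M a48 (L l314 (F (T t309 (T t551 (L l28 (T t579 (K a69 (M a134 (F (T t309 (L l84 (T t551 (L l28 (L l84 (T t579 N)))))))) (K a134 (M a69 (F (T t309 (L l158 (T t446 (T t551 N)))))) N)))))))))⟩
def e0_63_106__199_42_4 : Ent 4 := ⟨[a0, a63, a106], [a199, a42, a5], (M a48 (F (L l47 (T t309 (T t551 (L l28 (L l47 (T t579 N))))))))⟩
def e0_63_106__199_42_5 : Ent 4 := ⟨[a0, a63, a106], [a199, a42, a6], (M a48 (F (T t309 (T t551 (L l28 (T t579 N))))))⟩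
def e0_63_106__199_42_6 : Ent 4 := ⟨[a0, a63, a106], [a199, a42, a7], (M a48 (L l313 (F (T t309 (T t551 (L l28 (T t579 (K a71 (M a135 (F (T t309 (T t551 (L l28 (T t579 N)))))) (K a135 (M a71 (F (T t309 (T t551 (L l28 (T t579 N)))))) N)))))))))⟩
def e0_63_106__199_42_7 : Ent 4 := ⟨[a0, a63, a106], [a199, a42, a8], (M a48 (L l56 (F (T t309 (T t551 (L l28 (T t579 (K a25 (M a59 (F (T t309 (L l26 (L l316 (L l493 (T t6445 N))))))) (K a59 (M a25 (F (T t309 (T t551 (L l28 (T t579 N)))))) N)))))))))⟩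
def e0_63_106__199_42_8 : Ent 4 := ⟨[a0, a63, a106], [a199, a42, a9], (M a48 (F (T t309 (T t551 (L l28 (T t579 N))))))⟩
def e0_63_106__199_42_9 : Ent 4 := ⟨[a0, a63, a106], [a199, a42, a10], (M a48 (L l54 (F (T t2348 (L l28 (L l318 (T t579 (T t551 (K a26 (Fr a58 a53 l38 (V t6446)) (K a58 (M a26 (F (L l28 (T t4144 (T t551 (L l28 (L l426 (T t6447 (K a32 (Fr a192 a149 l519 (Fr a15 a37 l75 (Fr a47 a31 l61 (V t6528)))) N))))))))) N))))))))))⟩
def e0_63_106__199_42_10 : Ent 4 := ⟨[a0, a63, a106], [a199, a42, a11], (M a48 (F (T t309 (T t551 (L l28 (T t579 N))))))⟩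
def e0_63_106__199_42_11 : Ent 4 := ⟨[a0, a63, a106], [a199, a42, a12], (M a48 (F (T t5173 (L l28 (T t579 (L l478 (T t551 N)))))))⟩
def e0_63_106__199_42_12 : Ent 4 := ⟨[a0, a63, a106], [a199, a42, a13], (M a48 (F (T t309 (T t551 (L l28 (T t579 N))))))⟩
def e0_63_106__199_42_13 : Ent 4 := ⟨[a0, a63, a106], [a199, a42, a14], (M a48 (F (T t309 (T t551 (L l28 (T t579 N))))))⟩
def e0_63_106__199_42_14 : Ent 4 := ⟨[a0, a63, a106], [a199, a42, a15], (M a48 (F (T t5173 (L l28 (T t579 (L l483 (T t551 N)))))))⟩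
def e0_63_106__199_42_15 : Ent 4 := ⟨[a0, a63, a106], [a199, a42, a16], (M a240 (F (T t4786 (L l340 (T t4780 (T t4781 N))))))⟩
def e0_63_106__199_42_16 : Ent 4 := ⟨[a0, a63, a106], [a199, a42, a17], (M a48 (F (T t309 (T t551 (L l28 (T t579 N))))))⟩
def e0_63_106__199_42_17 : Ent 4 := ⟨[a0, a63, a106], [a199, a42, a18], (M a48 (F (T t309 (T t551 (L l28 (T t579 N))))))⟩
def e0_63_106__199_42_18 : Ent 4 := ⟨[a0, a63, a106], [a199, a42, a19], (M a48 (F (T t309 (T t551 (L l28 (L l367 (T t579 N)))))))⟩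
def e0_63_106__199_42_19 : Ent 4 := ⟨[a0, a63, a106], [a199, a42, a20], (M a48 (F (T t309 (T t551 (L l28 (T t579 N))))))⟩
def e0_63_106__199_42_20 : Ent 4 := ⟨[a0, a63, a106], [a199, a42, a21], (M a48 (F (L l47 (T t309 (L l347 (T t551 (L l28 (L l47 (T t579 N)))))))))⟩
def e0_63_106__199_42_21 : Ent 4 := ⟨[a0, a63, a106], [a199, a42, a22], (M a48 (L l66 (F (T t309 (T t551 (L l28 (T t579 (K a2 (M a62 (F (T t309 (L l22 (L l277 (L l306 (T t5926 N))))))) (K a62 (M a2 (F (T t309 (L l19 (L l28 (T t342 N)))))) N)))))))))⟩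
def e0_63_106__199_42_22 : Ent 4 := ⟨[a0, a63, a106], [a199, a42, a23], (M a48 (F (T t309 (L l351 (T t551 (L l28 (T t579 N)))))))⟩
def e0_63_106__199_42_23 : Ent 4 := ⟨[a0, a63, a106], [a199, a42, a24], (M a48 (F (T t309 (T t551 (L l28 (T t579 N))))))⟩
def e0_63_106__199_42_24 : Ent 4 := ⟨[a0, a63, a106], [a199, a42, a25], (M a48 (L l56 (F (T t309 (T t551 (L l28 (T t579 (K a8 (M a59 (F (T t309 (L l26 (L l316 (L l493 (T t6445 N))))))) (K a59 (M a8 (F (T t309 (L l19 (L l28 (L l314 (T t4700 N))))))) N)))))))))⟩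
def e0_63_106__199_42_25 : Ent 4 := ⟨[a0, a63, a106], [a199, a42, a26], (M a48 (L l54 (F (T t309 (L l28 (T t579 (T t551 (K a10 (Fr a58 a53 l38 (V t6446)) (K a58 (M a10 (F (L l28 (T t2289 (L l235 (T t4033 (L l18 (L l354 (T t6449 (L l18 (L l426 (T t6450 N)))))))))))) N)))))))))⟩
def e0_63_106__199_42_26 : Ent 4 := ⟨[a0, a63, a106], [a199, a42, a27], (M a48 (F (T t309 (T t551 (L l28 (T t579 N))))))⟩
def e0_63_106__199_42_27 : Ent 4 := ⟨[a0, a63, a106], [a199, a42, a28], (M a48 (F (T t309 (T t551 (L l28 (L l362 (T t579 N)))))))⟩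
def e0_63_106__199_42_28 : Ent 4 := ⟨[a0, a63, a106], [a199, a42, a29], (M a48 (F (T t309 (L l371 (T t551 (L l28 (T t579 N)))))))⟩
def e0_63_106__199_42_29 : Ent 4 := ⟨[a0, a63, a106], [a199, a42, a30], (M a48 (F (T t309 (T t551 (L l28 (T t579 N))))))⟩
def e0_63_106__199_42_30 : Ent 4 := ⟨[a0, a63, a106], [a199, a42, a31], (M a48 (F (T t309 (L l375 (T t551 (L l28 (L l361 (T t579 N))))))))⟩
def e0_63_106__199_42_31 : Ent 4 := ⟨[a0, a63, a106], [a199, a42, a32], (M a240 (L l28 (F (T t6609 (L l376 (T t6588 (L l376 (T t4781 (K a37 (M a47 (F (T t6602 (T t6698 (T t6604 N))))) (K a47 (M a37 (F (L l376 (T t6588 (L l54 (T t6699 (L l376 (T t4781 N)))))))) N))))))))))⟩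
def e0_63_106__199_42_32 : Ent 4 := ⟨[a0, a63, a106], [a199, a42, a33], (M a48 (F (T t309 (T t551 (L l20 (L l28 (T t579 N)))))))⟩
def e0_63_106__199_42_33 : Ent 4 := ⟨[a0, a63, a106], [a199, a42, a34], (M a48 (L l26 (F (T t309 (T t551 (L l20 (L l28 (T t579 (K a38 (M a46 (F (T t309 (L l56 (L l277 (L l378 (T t4030 N))))))) (K a46 (M a38 (F (T t309 (T t551 (L l20 (L l28 (T t579 N))))))) N))))))))))⟩
def e0_63_106__199_42_34 : Ent 4 := ⟨[a0, a63, a106], [a199, a42, a35], (M a48 (F (T t309 (T t551 (L l20 (L l28 (T t579 N)))))))⟩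
def e0_63_106__199_42_35 : Ent 4 := ⟨[a0, a63, a106], [a199, a42, a36], (M a48 (F (T t309 (T t551 (L l24 (L l28 (T t579 N)))))))⟩
def e0_63_106__199_42_36 : Ent 4 := ⟨[a0, a63, a106], [a199, a42, a37], (M a240 (L l28 (F (T t4786 (T t6606 (T t4781 (K a32 (M a47 (F (T t6602 (T t6698 (T t6604 N))))) (K a47 (M a32 (F (T t6607 (T t4781 (L l54 (T t6608 N)))))) N))))))))⟩
def e0_63_106__199_42_37 : Ent 4 := ⟨[a0, a63, a106], [a199, a42, a38], (M a48 (L l26 (F (T t309 (T t551 (L l28 (T t579 (K a34 (M a46 (F (T t309 (L l56 (L l277 (L l378 (T t4030 N))))))) (K a46 (M a34 (F (T t309 (L l29 (L l66 (T t6453 N)))))) N)))))))))⟩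
def e0_63_106__199_42_38 : Ent 4 := ⟨[a0, a63, a106], [a199, a42, a39], (M a48 (F (T t309 (T t551 (L l28 (T t579 N))))))⟩
def e0_63_106__199_42_39 : Ent 4 := ⟨[a0, a63, a106], [a199, a42, a40], (M a48 (L l22 (F (T t309 (T t551 (L l24 (L l28 (T t579 (K a41 (M a43 (F (T t309 (L l66 (L l388 (T t6451 N)))))) (K a43 (M a41 (F (T t309 (T t551 (L l24 (L l28 (T t579 N))))))) N))))))))))⟩
def e0_63_106__199_42_40 : Ent 4 := ⟨[a0, a63, a106], [a199, a42, a41], (M a48 (L l22 (F (T t309 (T t551 (L l28 (T t579 (K a40 (M a43 (F (T t309 (L l66 (L l388 (T t6451 N)))))) (K a43 (M a40 (F (T t309 (L l28 (L l57 (L l69 (T t3241 N))))))) N)))))))))⟩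
def e0_63_106__199_42_41 : Ent 4 := ⟨[a0, a63, a106], [a199, a42, a43], (M a48 (L l22 (F (T t309 (T t551 (L l28 (T t579 (K a40 (M a41 (F (T t309 (T t551 (L l24 (L l28 (T t579 N))))))) (K a41 (M a40 (F (T t309 (L l28 (L l57 (L l69 (T t3241 N))))))) N)))))))))⟩
def e0_63_106__199_42_42 : Ent 4 := ⟨[a0, a63, a106], [a199, a42, a44], (M a48 (F (T t309 (T t551 (L l24 (L l28 (T t579 N)))))))⟩
def e0_63_106__199_42_43 : Ent 4 := ⟨[a0, a63, a106], [a199, a42, a45], (M a48 (F (T t309 (T t551 (L l28 (T t579 N))))))⟩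
def e0_63_106__199_42_44 : Ent 4 := ⟨[a0, a63, a106], [a199, a42, a46], (M a48 (L l26 (F (T t309 (T t551 (L l28 (T t579 (K a34 (M a38 (F (T t309 (T t551 (L l20 (L l28 (T t579 N))))))) (K a38 (M a34 (F (T t309 (L l29 (L l66 (T t6453 N)))))) N)))))))))⟩
def e0_63_106__199_42_45 : Ent 4 := ⟨[a0, a63, a106], [a199, a42, a47], (M a12 (L l28 (F (T t2304 (T t2305 (L l56 (L l277 (T t2415 (K a32 (M a37 (F (T t2416 (L l56 (L l277 (T t2415 (T t2305 N))))))) (K a37 (M a32 (F (T t2304 (L l51 (L l56 (L l494 (T t682 N))))))) N))))))))))⟩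
def e0_63_106__199_42_46 : Ent 4 := ⟨[a0, a63, a106], [a199, a42, a48], (M a12 (F (T t2419 (L l508 (T t2305 (L l56 (L l277 (T t2415 N))))))))⟩
def e0_63_106__199_42_47 : Ent 4 := ⟨[a0, a63, a106], [a199, a42, a49], (M a48 (F (L l35 (T t309 (T t551 (L l28 (L l35 (T t579 N))))))))⟩
def e0_63_106__199_42_48 : Ent 4 := ⟨[a0, a63, a106], [a199, a42, a50], (M a48 (F (T t309 (T t551 (L l28 (T t579 N))))))⟩
def e0_63_106__199_42_49 : Ent 4 := ⟨[a0, a63, a106], [a199, a42, a51], (M a48 (F (T t5173 (L l28 (T t579 (L l417 (T t551 N)))))))⟩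
def e0_63_106__199_42_50 : Ent 4 := ⟨[a0, a63, a106], [a199, a42, a52], (M a48 (L l494 (F (L l235 (T t578 (L l28 (L l31 (T t579 (T t551 (K a101 (M a150 (F (L l101 (T t7344 (L l28 (L l31 (L l404 (L l491 (T t579 (L l22 (L l277 (T t6858 N)))))))))))) (K a150 (M a101 (F (T t6622 (L l54 (T t6626 N))))) N)))))))))))⟩
def e0_63_106__199_42_51 : Ent 4 := ⟨[a0, a63, a106], [a199, a42, a53], (M a240 (F (T t4786 (L l491 (T t817 (L l419 (T t4781 N)))))))⟩
def e0_63_106__199_42_52 : Ent 4 := ⟨[a0, a63, a106], [a199, a42, a54], (M a48 (F (L l31 (T t309 (T t551 (L l28 (L l31 (T t579 N))))))))⟩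
def e0_63_106__199_42_53 : Ent 4 := ⟨[a0, a63, a106], [a199, a42, a55], (M a48 (L l493 (F (L l31 (T t309 (L l495 (T t551 (L l28 (L l31 (T t579 (K a151 (M a103 (F (L l31 (T t309 (L l163 (L l495 (T t551 (L l28 (L l31 (T t579 N)))))))))) (K a103 (M a151 (F (T t7872 (L l28 (L l31 (T t579 N)))))) N))))))))))))⟩
def e0_63_106__199_42_54 : Ent 4 := ⟨[a0, a63, a106], [a199, a42, a56], (M a48 (F (T t309 (T t551 (L l28 (T t579 N))))))⟩
def e0_63_106__199_42_55 : Ent 4 := ⟨[a0, a63, a106], [a199, a42, a57], (M a48 (F (L l35 (T t309 (T t551 (L l28 (L l35 (T t579 N))))))))⟩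
def e0_63_106__199_42_56 : Ent 4 := ⟨[a0, a63, a106], [a199, a42, a58], (M a240 (L l54 (F (T t4779 (T t817 (T t4781 (K a10 (M a26 (F (L l28 (T t815 (L l318 (T t4781 (T t817 N))))))) (K a26 (M a10 (F (T t6609 (T t6610 (L l18 (T t6611 N)))))) N))))))))⟩
def e0_63_106__199_42_57 : Ent 4 := ⟨[a0, a63, a106], [a199, a42, a59], (M a48 (L l56 (F (T t309 (T t551 (L l28 (T t579 (K a8 (M a25 (F (T t309 (T t551 (L l28 (T t579 N)))))) (K a25 (M a8 (F (T t309 (L l19 (L l28 (L l314 (T t4700 N))))))) N)))))))))⟩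
def e0_63_106__199_42_58 : Ent 4 := ⟨[a0, a63, a106], [a199, a42, a60], (M a48 (F (T t5173 (L l28 (T t579 (L l442 (T t551 N)))))))⟩
def e0_63_106__199_42_59 : Ent 4 := ⟨[a0, a63, a106], [a199, a42, a61], (M a48 (F (L l35 (T t309 (L l515 (T t551 (L l28 (L l35 (T t579 N)))))))))⟩
def e0_63_106__199_42_60 : Ent 4 := ⟨[a0, a63, a106], [a199, a42, a62], (M a48 (L l66 (F (T t309 (T t551 (L l28 (T t579 (K a2 (M a22 (F (T t309 (T t551 (L l28 (T t579 N)))))) (K a22 (M a2 (F (T t309 (L l19 (L l28 (T t342 N)))))) N)))))))))⟩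
def e0_63_106__199_42_61 : Ent 4 := ⟨[a0, a63, a106], [a199, a42, a64], (M a48 (F (T t309 (L l28 (T t6594 (L l28 (T t8160 (L l28 (L l84 (L l314 (T t6457 (L l54 (L l229 (T t6458 N))))))))))))))⟩
def e0_63_106__199_42_62 : Ent 4 := ⟨[a0, a63, a106], [a199, a42, a65], (M a48 (F (T t309 (L l76 (T t551 (L l28 (L l76 (T t579 N))))))))⟩
def e0_63_106__199_42_63 : Ent 4 := ⟨[a0, a63, a106], [a199, a42, a66], (M a48 (F (T t5173 (L l28 (L l76 (T t579 (L l76 (T t551 N))))))))⟩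
def e0_63_106__199_42_64 : Ent 4 := ⟨[a0, a63, a106], [a199, a42, a67], (M a48 (F (T t309 (L l76 (T t551 (L l28 (L l76 (T t579 N))))))))⟩
def e0_63_106__199_42_65 : Ent 4 := ⟨[a0, a63, a106], [a199, a42, a68], (M a48 (F (T t309 (L l80 (T t551 (L l28 (L l80 (T t579 N))))))))⟩
def e0_63_106__199_42_66 : Ent 4 := ⟨[a0, a63, a106], [a199, a42, a69], (M a48 (L l314 (F (T t309 (L l84 (T t551 (L l28 (L l84 (T t579 (K a4 (M a134 (F (T t309 (L l84 (T t551 (L l28 (L l84 (T t579 N)))))))) (K a134 (M a4 (F (T t309 (L l56 (T t518 N))))) N)))))))))))⟩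
def e0_63_106__199_42_67 : Ent 4 := ⟨[a0, a63, a106], [a199, a42, a70], (M a48 (F (T t309 (T t551 (L l28 (T t579 N))))))⟩
def e0_63_106__199_42_68 : Ent 4 := ⟨[a0, a63, a106], [a199, a42, a71], (M a48 (L l313 (F (T t309 (T t551 (L l28 (T t579 (K a7 (M a135 (F (T t309 (T t551 (L l28 (T t579 N)))))) (K a135 (M a7 (F (T t309 (T t551 (L l28 (T t579 N)))))) N)))))))))⟩
def e0_63_106__199_42_69 : Ent 4 := ⟨[a0, a63, a106], [a199, a42, a72], (M a48 (F (T t5173 (L l28 (L l80 (T t579 (L l80 (T t551 N))))))))⟩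
def e0_63_106__199_42_70 : Ent 4 := ⟨[a0, a63, a106], [a199, a42, a73], (M a48 (F (T t309 (T t551 (L l28 (T t579 N))))))⟩
def e0_63_106__199_42_71 : Ent 4 := ⟨[a0, a63, a106], [a199, a42, a74], (M a48 (F (T t2348 (L l28 (L l84 (L l318 (T t579 (L l84 (T t551 N)))))))))⟩
def e0_63_106__199_42_72 : Ent 4 := ⟨[a0, a63, a106], [a199, a42, a75], (M a48 (F (T t309 (T t551 (L l28 (T t579 N))))))⟩
def e0_63_106__199_42_73 : Ent 4 := ⟨[a0, a63, a106], [a199, a42, a76], (M a48 (F (T t309 (L l80 (T t551 (L l28 (L l80 (T t579 N))))))))⟩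
def e0_63_106__199_42_74 : Ent 4 := ⟨[a0, a63, a106], [a199, a42, a77], (M a48 (F (T t309 (T t551 (L l28 (T t579 N))))))⟩
def e0_63_106__199_42_75 : Ent 4 := ⟨[a0, a63, a106], [a199, a42, a78], (M a48 (F (T t309 (T t551 (L l28 (T t579 N))))))⟩
def e0_63_106__199_42_76 : Ent 4 := ⟨[a0, a63, a106], [a199, a42, a79], (M a48 (F (T t309 (L l84 (T t551 (L l28 (L l84 (T t579 N))))))))⟩
def e0_63_106__199_42_77 : Ent 4 := ⟨[a0, a63, a106], [a199, a42, a80], (M a12 (F (T t2304 (L l116 (T t2305 (L l56 (L l116 (L l277 (T t2415 N)))))))))⟩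
def e0_63_106__199_42_78 : Ent 4 := ⟨[a0, a63, a106], [a199, a42, a81], (M a48 (F (T t309 (L l120 (T t551 (L l28 (L l120 (T t579 N))))))))⟩
def e0_63_106__199_42_79 : Ent 4 := ⟨[a0, a63, a106], [a199, a42, a82], (M a48 (F (T t309 (L l453 (T t551 (L l28 (T t579 N)))))))⟩
def e0_63_106__199_42_80 : Ent 4 := ⟨[a0, a63, a106], [a199, a42, a83], (M a48 (F (T t309 (T t551 (L l28 (T t579 N))))))⟩
def e0_63_106__199_42_81 : Ent 4 := ⟨[a0, a63, a106], [a199, a42, a84], (M a48 (F (T t309 (L l140 (T t551 (L l28 (L l140 (T t579 N))))))))⟩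
def e0_63_106__199_42_82 : Ent 4 := ⟨[a0, a63, a106], [a199, a42, a85], (M a48 (F (T t309 (L l347 (T t551 (L l54 (L l229 (T t777 (L l235 (L l368 (T t6465 (K a192 (M a240 (F (T t6230 (L l236 (T t6471 (L l54 (L l236 (L l339 (T t6472 (L l339 (T t6473 N))))))))))) N))))))))))))⟩
def e0_63_106__199_42_83 : Ent 4 := ⟨[a0, a63, a106], [a199, a42, a86], (M a48 (F (T t309 (L l351 (T t551 (L l28 (T t579 N)))))))⟩
def e0_63_106__199_42_84 : Ent 4 := ⟨[a0, a63, a106], [a199, a42, a87], (M a48 (F (T t309 (T t551 (L l28 (L l367 (T t579 N)))))))⟩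
def e0_63_106__199_42_85 : Ent 4 := ⟨[a0, a63, a106], [a199, a42, a88], (M a48 (F (T t309 (L l478 (T t551 (L l28 (T t579 N)))))))⟩
def e0_63_106__199_42_86 : Ent 4 := ⟨[a0, a63, a106], [a199, a42, a89], (M a48 (F (T t309 (L l371 (T t551 (L l28 (T t579 N)))))))⟩
def e0_63_106__199_42_87 : Ent 4 := ⟨[a0, a63, a106], [a199, a42, a90], (M a48 (F (T t309 (L l375 (L l483 (T t551 (L l28 (T t579 N))))))))⟩
def e0_63_106__199_42_88 : Ent 4 := ⟨[a0, a63, a106], [a199, a42, a91], (M a48 (F (T t309 (T t551 (L l28 (T t579 N))))))⟩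
def e0_63_106__199_42_89 : Ent 4 := ⟨[a0, a63, a106], [a199, a42, a92], (M a48 (F (T t309 (T t551 (L l28 (T t579 N))))))⟩
def e0_63_106__199_42_90 : Ent 4 := ⟨[a0, a63, a106], [a199, a42, a93], (M a48 (F (T t309 (T t551 (L l28 (L l362 (T t579 N)))))))⟩
def e0_63_106__199_42_91 : Ent 4 := ⟨[a0, a63, a106], [a199, a42, a94], (M a48 (F (T t309 (T t551 (L l28 (T t579 N))))))⟩
def e0_63_106__199_42_92 : Ent 4 := ⟨[a0, a63, a106], [a199, a42, a95], (M a48 (F (T t309 (T t551 (L l28 (L l361 (T t579 N)))))))⟩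
def e0_63_106__199_42_93 : Ent 4 := ⟨[a0, a63, a106], [a199, a42, a96], (M a12 (F (T t2419 (L l116 (T t2305 (L l56 (L l116 (L l277 (T t2415 N)))))))))⟩
def e0_63_106__199_42_94 : Ent 4 := ⟨[a0, a63, a106], [a199, a42, a97], (M a48 (F (T t309 (L l96 (T t551 (L l28 (L l380 (T t579 N))))))))⟩
def e0_63_106__199_42_95 : Ent 4 := ⟨[a0, a63, a106], [a199, a42, a98], (M a48 (F (T t5173 (L l28 (L l120 (T t579 (L l96 (L l120 (T t551 N)))))))))⟩
def e0_63_106__199_42_96 : Ent 4 := ⟨[a0, a63, a106], [a199, a42, a99], (M a48 (F (T t309 (L l96 (T t551 (L l28 (T t579 N)))))))⟩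
def e0_63_106__199_42_97 : Ent 4 := ⟨[a0, a63, a106], [a199, a42, a100], (M a48 (F (T t309 (L l100 (T t551 (L l28 (L l400 (T t579 N))))))))⟩
def e0_63_106__199_42_98 : Ent 4 := ⟨[a0, a63, a106], [a199, a42, a101], (M a240 (L l494 (F (T t4779 (L l491 (L l512 (T t817 (T t4781 (K a52 (M a150 (F (T t4779 (L l22 (L l277 (T t6858 N)))))) (K a150 (M a52 (F (T t4779 (L l163 (L l491 (L l512 (T t817 (T t4781 N)))))))) N))))))))))⟩
def e0_63_106__199_42_99 : Ent 4 := ⟨[a0, a63, a106], [a199, a42, a102], (M a48 (F (T t309 (L l495 (T t551 (L l28 (T t579 N)))))))⟩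
def e0_63_106__199_42_100 : Ent 4 := ⟨[a0, a63, a106], [a199, a42, a103], (M a48 (L l493 (F (T t309 (T t551 (L l28 (T t579 (K a151 (M a55 (F (T t309 (L l26 (L l28 (L l56 (T t7666 N))))))) (K a55 (M a151 (F (T t7872 (L l28 (L l31 (T t579 N)))))) N)))))))))⟩
def e0_63_106__199_42_101 : Ent 4 := ⟨[a0, a63, a106], [a199, a42, a104], (M a48 (F (T t5173 (L l28 (L l140 (T t579 (L l100 (L l140 (T t551 N)))))))))⟩
def e0_63_106__199_42_102 : Ent 4 := ⟨[a0, a63, a106], [a199, a42, a105], (M a48 (F (T t309 (L l515 (T t551 (L l28 (T t579 N)))))))⟩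
def e0_63_106__199_42_103 : Ent 4 := ⟨[a0, a63, a106], [a199, a42, a107], (M a48 (F (T t309 (T t551 (L l28 (T t579 N))))))⟩
def e0_63_106__199_42_104 : Ent 4 := ⟨[a0, a63, a106], [a199, a42, a108], (M a48 (F (T t309 (L l100 (T t551 (L l28 (T t579 N)))))))⟩
def e0_63_106__199_42_105 : Ent 4 := ⟨[a0, a63, a106], [a199, a42, a109], (M a48 (F (T t309 (T t551 (L l28 (T t579 N))))))⟩
def e0_63_106__199_42_106 : Ent 4 := ⟨[a0, a63, a106], [a199, a42, a110], (M a48 (F (T t309 (T t551 (L l28 (T t579 N))))))⟩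
def e0_63_106__199_42_107 : Ent 4 := ⟨[a0, a63, a106], [a199, a42, a111], (M a240 (F (T t4779 (T t817 (L l137 (T t4781 N))))))⟩
def e0_63_106__199_42_108 : Ent 4 := ⟨[a0, a63, a106], [a199, a42, a112], (M a48 (F (T t309 (L l28 (L l116 (T t6462 (L l28 (L l116 (T t579 N)))))))))⟩
def e0_63_106__199_42_109 : Ent 4 := ⟨[a0, a63, a106], [a199, a42, a113], (M a48 (F (T t309 (T t551 (L l28 (T t579 N))))))⟩
def e0_63_106__199_42_110 : Ent 4 := ⟨[a0, a63, a106], [a199, a42, a114], (M a48 (F (T t309 (L l417 (T t551 (L l28 (T t579 N)))))))⟩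
def e0_63_106__199_42_111 : Ent 4 := ⟨[a0, a63, a106], [a199, a42, a115], (M a48 (F (T t309 (L l120 (T t551 (L l28 (L l120 (T t579 N))))))))⟩
def e0_63_106__199_42_112 : Ent 4 := ⟨[a0, a63, a106], [a199, a42, a116], (M a48 (F (T t309 (T t551 (L l28 (T t579 N))))))⟩
def e0_63_106__199_42_113 : Ent 4 := ⟨[a0, a63, a106], [a199, a42, a117], (M a48 (F (L l419 (T t309 (T t551 (L l28 (L l419 (T t579 N))))))))⟩
def e0_63_106__199_42_114 : Ent 4 := ⟨[a0, a63, a106], [a199, a42, a118], (M a48 (F (T t309 (T t551 (L l28 (T t579 N))))))⟩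
def e0_63_106__199_42_115 : Ent 4 := ⟨[a0, a63, a106], [a199, a42, a119], (M a48 (F (T t309 (T t551 (L l28 (T t579 N))))))⟩
def e0_63_106__199_42_116 : Ent 4 := ⟨[a0, a63, a106], [a199, a42, a120], (M a48 (F (T t309 (L l442 (T t551 (L l28 (T t579 N)))))))⟩
def e0_63_106__199_42_117 : Ent 4 := ⟨[a0, a63, a106], [a199, a42, a121], (M a48 (F (T t309 (T t551 (L l28 (T t579 N))))))⟩
def e0_63_106__199_42_118 : Ent 4 := ⟨[a0, a63, a106], [a199, a42, a122], (M a48 (F (T t309 (T t551 (L l28 (T t579 N))))))⟩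
def e0_63_106__199_42_119 : Ent 4 := ⟨[a0, a63, a106], [a199, a42, a123], (M a48 (F (T t309 (T t551 (L l28 (T t579 N))))))⟩
def e0_63_106__199_42_120 : Ent 4 := ⟨[a0, a63, a106], [a199, a42, a124], (M a48 (F (T t309 (L l140 (T t551 (L l28 (L l140 (T t579 N))))))))⟩
def e0_63_106__199_42_121 : Ent 4 := ⟨[a0, a63, a106], [a199, a42, a125], (M a48 (F (T t309 (T t551 (L l28 (T t579 N))))))⟩
def e0_63_106__199_42_122 : Ent 4 := ⟨[a0, a63, a106], [a199, a42, a126], (M a48 (F (T t309 (T t551 (L l28 (T t579 N))))))⟩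
def e0_63_106__199_42_123 : Ent 4 := ⟨[a0, a63, a106], [a199, a42, a127], (M a48 (F (T t309 (T t551 (L l28 (L l494 (T t6744 (L l28 (L l235 (T t6456 N))))))))))⟩
def e0_63_106__199_42_124 : Ent 4 := ⟨[a0, a63, a106], [a199, a42, a128], (M a48 (F (L l494 (T t585 (L l28 (T t579 (L l192 (L l220 (L l235 (T t6480 (L l54 (L l160 (L l229 (T t6481 N))))))))))))))⟩
def e0_63_106__199_42_125 : Ent 4 := ⟨[a0, a63, a106], [a199, a42, a129], (M a48 (F (L l309 (T t309 (L l217 (T t551 (L l28 (T t579 N))))))))⟩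
def e0_63_106__199_42_126 : Ent 4 := ⟨[a0, a63, a106], [a199, a42, a130], (M a48 (F (T t309 (T t551 (L l28 (T t579 N))))))⟩
def e0_63_106__199_42_127 : Ent 4 := ⟨[a0, a63, a106], [a199, a42, a131], (M a48 (F (T t309 (L l197 (T t551 (L l28 (T t579 N)))))))⟩
def e0_63_106__199_42_128 : Ent 4 := ⟨[a0, a63, a106], [a199, a42, a132], (M a48 (F (L l334 (T t309 (L l202 (T t551 (L l28 (T t579 N))))))))⟩
def e0_63_106__199_42_129 : Ent 4 := ⟨[a0, a63, a106], [a199, a42, a133], (M a48 (F (L l339 (T t309 (L l199 (T t551 (L l28 (T t579 N))))))))⟩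
def e0_63_106__199_42_130 : Ent 4 := ⟨[a0, a63, a106], [a199, a42, a134], (M a48 (L l314 (F (T t309 (T t551 (L l28 (T t579 (K a4 (M a69 (F (T t309 (L l158 (T t446 (T t551 N)))))) (K a69 (M a4 (F (T t309 (L l56 (T t518 N))))) N)))))))))⟩
def e0_63_106__199_42_131 : Ent 4 := ⟨[a0, a63, a106], [a199, a42, a135], (M a48 (L l313 (F (T t309 (T t551 (L l28 (T t579 (K a7 (M a71 (F (T t309 (T t551 (L l28 (T t579 N)))))) (K a71 (M a7 (F (T t309 (T t551 (L l28 (T t579 N)))))) N)))))))))⟩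
def e0_63_106__199_42_132 : Ent 4 := ⟨[a0, a63, a106], [a199, a42, a136], (M a48 (F (T t309 (T t551 (L l28 (T t579 N))))))⟩
def e0_63_106__199_42_133 : Ent 4 := ⟨[a0, a63, a106], [a199, a42, a137], (M a48 (F (T t309 (T t551 (L l28 (T t579 N))))))⟩
def e0_63_106__199_42_134 : Ent 4 := ⟨[a0, a63, a106], [a199, a42, a138], (M a48 (F (T t2348 (L l28 (L l318 (T t579 (T t551 N)))))))⟩
def e0_63_106__199_42_135 : Ent 4 := ⟨[a0, a63, a106], [a199, a42, a139], (M a48 (F (T t309 (T t551 (L l28 (T t579 N))))))⟩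
def e0_63_106__199_42_136 : Ent 4 := ⟨[a0, a63, a106], [a199, a42, a140], (M a48 (F (T t309 (L l222 (T t551 (L l28 (T t579 N)))))))⟩
def e0_63_106__199_42_137 : Ent 4 := ⟨[a0, a63, a106], [a199, a42, a141], (M a48 (F (T t309 (T t551 (L l28 (T t579 N))))))⟩
def e0_63_106__199_42_138 : Ent 4 := ⟨[a0, a63, a106], [a199, a42, a142], (M a48 (F (T t309 (T t551 (L l28 (T t579 N))))))⟩
def e0_63_106__199_42_139 : Ent 4 := ⟨[a0, a63, a106], [a199, a42, a143], (M a48 (F (T t309 (L l28 (T t6462 (L l28 (T t579 N)))))))⟩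
def e0_63_106__199_42_140 : Ent 4 := ⟨[a0, a63, a106], [a199, a42, a144], (M a12 (F (T t2414 (L l56 (L l277 (T t2415 (L l170 (T t2305 N))))))))⟩
def e0_63_106__199_42_141 : Ent 4 := ⟨[a0, a63, a106], [a199, a42, a145], (M a48 (F (L l494 (T t585 (L l167 (T t551 (L l28 (T t579 N))))))))⟩
def e0_63_106__199_42_142 : Ent 4 := ⟨[a0, a63, a106], [a199, a42, a146], (M a48 (F (L l162 (T t309 (L l197 (T t551 (L l28 (T t579 N))))))))⟩
def e0_63_106__199_42_143 : Ent 4 := ⟨[a0, a63, a106], [a199, a42, a147], (M a48 (F (L l162 (T t309 (T t551 (L l28 (T t579 N)))))))⟩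
def e0_63_106__199_42_144 : Ent 4 := ⟨[a0, a63, a106], [a199, a42, a148], (M a48 (F (L l494 (T t585 (L l28 (T t579 (L l163 (T t551 N))))))))⟩
def e0_63_106__199_42_145 : Ent 4 := ⟨[a0, a63, a106], [a199, a42, a149], (M a240 (F (L l199 (T t4781 (L l199 (L l347 (T t6484 (L l28 (L l199 (L l375 (T t6483 (L l28 (L l199 (L l220 (L l375 (T t6485 (K a133 (M a165 (F (T t6486 (L l28 (L l160 (L l220 (L l311 (L l375 (T t6487 (L l160 (L l220 (T t6488 N)))))))))))) (K a165 (M a90 (L l199 (F (T t4788 (L l180 (T t6489 (K a133 (Fr a181 a122 l447 (V t6489)) (K a181 (M a133 (F (L l180 (T t6489 (L l227 (L l314 (T t6746 (L l314 (L l455 (T t6490 N)))))))))) N)))))))) (K a181 (M a165 (F (T t6492 (T t6493 (L l28 (L l220 (L l375 (T t6487 (L l220 (T t6488 N)))))))))) (K a74 (M a48 (F (T t6494 (L l199 (L l491 (T t781 (L l28 (L l84 (L l318 (L l491 (T t579 N))))))))))) (K a90 (M a48 (L l375 (F (T t3318 (L l199 (L l462 (L l491 (T t781 (L l28 (L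 l491 (T t579 (K a208 (M a31 (F (L l28 (L l347 (T t6495 (L l151 (L l220 (T t6496 N)))))))) (K a31 (M a208 (F (T t6497 (L l151 (L l220 (T t6496 N)))))) N))))))))))))) (K a122 (M a48 (F (T t3318 (L l114 (L l491 (T t6471 (L l28 (L l491 (T t579 N))))))))) N))))))))))))))))))))))⟩
def e0_63_106__199_42_146 : Ent 4 := ⟨[a0, a63, a106], [a199, a42, a150], (M a48 (L l494 (F (T t309 (L l163 (T t551 (L l28 (T t579 (K a52 (M a101 (F (T t6622 (L l54 (T t6626 N))))) (K a101 (M a52 (F (L l54 (L l493 (T t83 (L l22 (L l314 (T t82 (L l28 (L l404 (L l491 (T t779 N)))))))))))) N))))))))))⟩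
def e0_63_106__199_42_147 : Ent 4 := ⟨[a0, a63, a106], [a199, a42, a151], (M a48 (L l493 (F (T t309 (L l163 (T t551 (L l28 (T t579 (K a103 (M a55 (F (T t309 (L l26 (L l28 (L l56 (T t7666 N))))))) (K a55 (M a103 (F (L l31 (T t309 (L l163 (L l495 (T t551 (L l28 (L l31 (T t579 N)))))))))) N))))))))))⟩
def e0_63_106__199_42_148 : Ent 4 := ⟨[a0, a63, a106], [a199, a42, a152], (M a48 (F (L l166 (T t309 (L l222 (T t551 (L l28 (T t579 N))))))))⟩
def e0_63_106__199_42_149 : Ent 4 := ⟨[a0, a63, a106], [a199, a42, a153], (M a48 (F (T t309 (L l167 (T t551 (L l28 (T t579 N)))))))⟩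
def e0_63_106__199_42_150 : Ent 4 := ⟨[a0, a63, a106], [a199, a42, a154], (M a240 (F (T t4779 (L l170 (L l368 (L l512 (T t817 (T t4781 N))))))))⟩
def e0_63_106__199_42_151 : Ent 4 := ⟨[a0, a63, a106], [a199, a42, a155], (M a48 (F (T t309 (T t551 (L l28 (L l367 (T t579 N)))))))⟩
def e0_63_106__199_42_152 : Ent 4 := ⟨[a0, a63, a106], [a199, a42, a156], (M a48 (F (L l166 (T t309 (T t551 (L l28 (T t579 N)))))))⟩
def e0_63_106__199_42_153 : Ent 4 := ⟨[a0, a63, a106], [a199, a42, a157], (M a48 (F (T t309 (L l167 (T t551 (L l28 (T t579 N)))))))⟩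
def e0_63_106__199_42_154 : Ent 4 := ⟨[a0, a63, a106], [a199, a42, a158], (M a48 (F (T t309 (T t551 (L l28 (L l362 (T t579 N)))))))⟩
def e0_63_106__199_42_155 : Ent 4 := ⟨[a0, a63, a106], [a199, a42, a159], (M a240 (F (T t4779 (L l170 (T t817 (L l361 (T t4781 N)))))))⟩
def e0_63_106__199_42_156 : Ent 4 := ⟨[a0, a63, a106], [a199, a42, a160], (M a12 (F (T t2304 (T t2305 (L l56 (L l277 (T t2415 N)))))))⟩
def e0_63_106__199_42_157 : Ent 4 := ⟨[a0, a63, a106], [a199, a42, a161], (M a48 (F (T t309 (L l197 (L l453 (T t551 (L l28 (T t579 N))))))))⟩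
def e0_63_106__199_42_158 : Ent 4 := ⟨[a0, a63, a106], [a199, a42, a162], (M a48 (F (T t309 (T t551 (L l28 (L l380 (T t579 N)))))))⟩
def e0_63_106__199_42_159 : Ent 4 := ⟨[a0, a63, a106], [a199, a42, a163], (M a48 (F (T t309 (T t551 (L l28 (T t579 N))))))⟩
def e0_63_106__199_42_160 : Ent 4 := ⟨[a0, a63, a106], [a199, a42, a164], (M a48 (F (T t309 (L l222 (L l478 (T t551 (L l28 (T t579 N))))))))⟩
def e0_63_106__199_42_161 : Ent 4 := ⟨[a0, a63, a106], [a199, a42, a165], (M a48 (F (T t309 (L l28 (L l199 (L l483 (T t6462 (L l28 (T t579 N)))))))))⟩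
def e0_63_106__199_42_162 : Ent 4 := ⟨[a0, a63, a106], [a199, a42, a166], (M a48 (F (T t309 (L l202 (T t551 (L l28 (T t579 N)))))))⟩
def e0_63_106__199_42_163 : Ent 4 := ⟨[a0, a63, a106], [a199, a42, a167], (M a48 (F (T t309 (T t551 (L l28 (T t579 N))))))⟩
def e0_63_106__199_42_164 : Ent 4 := ⟨[a0, a63, a106], [a199, a42, a168], (M a48 (F (T t309 (T t551 (L l28 (L l400 (T t579 N)))))))⟩
def e0_63_106__199_42_165 : Ent 4 := ⟨[a0, a63, a106], [a199, a42, a169], (M a48 (F (T t309 (L l217 (T t551 (L l28 (T t579 N)))))))⟩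
def e0_63_106__199_42_166 : Ent 4 := ⟨[a0, a63, a106], [a199, a42, a170], (M a48 (F (T t309 (L l220 (T t551 (L l28 (L l206 (L l220 (L l404 (T t552 (L l28 (L l206 (L l235 (L l314 (L l404 (T t553 N))))))))))))))))⟩
def e0_63_106__199_42_167 : Ent 4 := ⟨[a0, a63, a106], [a199, a42, a171], (M a48 (F (T t309 (T t551 (L l28 (T t579 N))))))⟩
def e0_63_106__199_42_168 : Ent 4 := ⟨[a0, a63, a106], [a199, a42, a172], (M a48 (F (T t309 (T t551 (L l28 (T t579 N))))))⟩
def e0_63_106__199_42_169 : Ent 4 := ⟨[a0, a63, a106], [a199, a42, a173], (M a48 (F (T t309 (T t551 (L l28 (T t579 N))))))⟩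
def e0_63_106__199_42_170 : Ent 4 := ⟨[a0, a63, a106], [a199, a42, a174], (M a48 (F (T t309 (T t551 (L l28 (T t579 N))))))⟩
def e0_63_106__199_42_171 : Ent 4 := ⟨[a0, a63, a106], [a199, a42, a175], (M a48 (F (T t309 (T t551 (L l28 (T t579 N))))))⟩
def e0_63_106__199_42_172 : Ent 4 := ⟨[a0, a63, a106], [a199, a42, a176], (M a240 (F (T t4786 (L l192 (T t817 (L l190 (L l192 (T t4781 N))))))))⟩
def e0_63_106__199_42_173 : Ent 4 := ⟨[a0, a63, a106], [a199, a42, a177], (M a48 (F (T t309 (L l182 (L l417 (T t551 (L l28 (T t579 N))))))))⟩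
def e0_63_106__199_42_174 : Ent 4 := ⟨[a0, a63, a106], [a199, a42, a178], (M a48 (F (T t309 (L l182 (T t551 (L l28 (T t579 N)))))))⟩
def e0_63_106__199_42_175 : Ent 4 := ⟨[a0, a63, a106], [a199, a42, a179], (M a48 (F (T t309 (L l182 (T t551 (L l28 (T t579 N)))))))⟩
def e0_63_106__199_42_176 : Ent 4 := ⟨[a0, a63, a106], [a199, a42, a180], (M a48 (F (T t309 (L l186 (L l442 (T t551 (L l28 (T t579 N))))))))⟩
def e0_63_106__199_42_177 : Ent 4 := ⟨[a0, a63, a106], [a199, a42, a181], (M a48 (F (L l419 (T t309 (L l190 (L l199 (T t551 (L l28 (L l419 (T t579 N))))))))))⟩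
def e0_63_106__199_42_178 : Ent 4 := ⟨[a0, a63, a106], [a199, a42, a182], (M a48 (F (T t309 (T t551 (L l28 (T t579 N))))))⟩
def e0_63_106__199_42_179 : Ent 4 := ⟨[a0, a63, a106], [a199, a42, a183], (M a48 (F (T t309 (L l202 (T t551 (L l28 (T t579 N)))))))⟩
def e0_63_106__199_42_180 : Ent 4 := ⟨[a0, a63, a106], [a199, a42, a184], (M a48 (F (T t309 (L l186 (T t551 (L l28 (T t579 N)))))))⟩
def e0_63_106__199_42_181 : Ent 4 := ⟨[a0, a63, a106], [a199, a42, a185], (M a48 (F (T t309 (T t551 (L l28 (T t579 N))))))⟩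
def e0_63_106__199_42_182 : Ent 4 := ⟨[a0, a63, a106], [a199, a42, a186], (M a48 (F (T t309 (L l190 (T t551 (L l28 (T t579 N)))))))⟩
def e0_63_106__199_42_183 : Ent 4 := ⟨[a0, a63, a106], [a199, a42, a187], (M a48 (F (T t309 (T t551 (L l28 (T t579 N))))))⟩
def e0_63_106__199_42_184 : Ent 4 := ⟨[a0, a63, a106], [a199, a42, a188], (M a48 (F (T t309 (L l186 (T t551 (L l28 (T t579 N)))))))⟩
def e0_63_106__199_42_185 : Ent 4 := ⟨[a0, a63, a106], [a199, a42, a189], (M a48 (F (T t309 (L l217 (T t551 (L l28 (T t579 N)))))))⟩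
def e0_63_106__199_42_186 : Ent 4 := ⟨[a0, a63, a106], [a199, a42, a190], (M a48 (F (T t309 (T t551 (L l28 (T t579 N))))))⟩
def e0_63_106__199_42_187 : Ent 4 := ⟨[a0, a63, a106], [a199, a42, a191], (M a48 (F (T t309 (L l190 (L l220 (T t551 (L l28 (L l494 (T t6498 (L l28 (L l235 (L l314 (T t6499 N)))))))))))))⟩
def e0_63_106__199_42_188 : Ent 4 := ⟨[a0, a63, a106], [a199, a42, a192], (M a240 (F (L l339 (T t4781 (L l236 (L l339 (T t6500 (L l296 (L l339 (T t6501 (L l28 (L l339 (T t6502 (L l339 (T t6503 (K a133 (M a90 (L l339 (F (T t4788 (T t6504 (K a74 (Fr a15 a165 l483 (V t6505)) (K a15 (Fr a74 a122 l130 (V t6506)) N))))))) (K a85 (M a12 (F (L l292 (T t2745 (L l272 (L l339 (T t6595 N))))))) (K a181 (M a12 (F (L l292 (T t2406 (L l56 (L l272 (L l277 (T t2415 (L l272 (T t6512 N)))))))))) (K a74 (M a165 (L l339 (F (T t6492 (L l296 (T t6513 (L l54 (L l84 (L l318 (T t6514 (K a133 (Fr a15 a90 l483 (V t6515)) (K a15 (M a133 (F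 (T t6516 (L l28 (L l236 (L l318 (L l484 (T t6517 N)))))))) N)))))))))))) (K a90 (M a252 (F (L l489 (T t3105 (L l334 (T t6518 (L l309 (T t6675 N)))))))) (K a122 (M a12 (F (L l292 (T t2406 (L l56 (L l272 (L l277 (T t2415 (L l272 (T t6512 N)))))))))) (K a15 (M a248 (L l339 (F (L l279 (T t6520 (L l22 (T t6521 (K a133 (M a74 (F (T t6522 (L l3 (L l56 (L l279 (L l334 (T t6523 N)))))))) (K a74 (M a133 (F (L l279 (T t3821 (L l469 (L l484 (T t6524 (L l3 (L l56 (L l279 (L l334 (T t6523 N)))))))))))) N))))))))) N))))))))))))))))))))))⟩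
def e0_63_106__199_42_189 : Ent 4 := ⟨[a0, a63, a106], [a199, a42, a193], (M a48 (F (L l228 (T t309 (L l515 (T t551 (L l28 (T t579 N))))))))⟩
def e0_63_106__199_42_190 : Ent 4 := ⟨[a0, a63, a106], [a199, a42, a194], (M a48 (F (T t2348 (L l28 (L l234 (T t579 (T t551 N)))))))⟩
def e0_63_106__199_42_191 : Ent 4 := ⟨[a0, a63, a106], [a199, a42, a195], (M a207 (F (L l228 (T t6700 (L l337 (T t6701 (T t6702 N)))))))⟩
def e0_63_106__199_42_192 : Ent 4 := ⟨[a0, a63, a106], [a199, a42, a196], (M a240 (L l229 (F (L l232 (T t4779 (L l495 (T t817 (T t4781 (K a197 (M a198 (F (L l28 (T t7338 (T t4781 (L l491 (L l495 (T t817 N)))))))) (K a198 (M a197 (F (L l495 (T t6965 (T t4781 (L l495 (T t817 N))))))) N))))))))))⟩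
def e0_63_106__199_42_193 : Ent 4 := ⟨[a0, a63, a106], [a199, a42, a197], (M a240 (L l229 (F (L l236 (T t4779 (L l491 (T t817 (T t4781 (K a196 (M a198 (F (L l28 (T t7338 (T t4781 (L l491 (L l495 (T t817 N)))))))) (K a198 (M a196 (F (T t4781 (L l279 (L l491 (T t8149 N)))))) N))))))))))⟩
def e0_63_106__199_42_194 : Ent 4 := ⟨[a0, a63, a106], [a199, a42, a198], (M a240 (L l229 (F (T t4779 (T t817 (T t4781 (K a196 (M a197 (F (L l495 (T t6965 (T t4781 (L l495 (T t817 N))))))) (K a197 (M a196 (F (T t4781 (L l279 (L l491 (T t8149 N)))))) N))))))))⟩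
def e0_63_106__199_42_195 : Ent 4 := ⟨[a0, a63, a106], [a199, a42, a200], (M a48 (F (T t2348 (L l28 (L l230 (T t579 (T t551 N)))))))⟩
def e0_63_106__199_42_196 : Ent 4 := ⟨[a0, a63, a106], [a199, a42, a201], (M a48 (F (T t2348 (L l28 (L l230 (T t579 (T t551 N)))))))⟩
def e0_63_106__199_42_197 : Ent 4 := ⟨[a0, a63, a106], [a199, a42, a202], (M a240 (F (L l236 (T t4786 (T t817 (L l318 (T t4781 N)))))))⟩
def e0_63_106__199_42_198 : Ent 4 := ⟨[a0, a63, a106], [a199, a42, a203], (M a195 (F (L l493 (T t6816 (T t6810 (L l493 (T t6811 N)))))))⟩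
def e0_63_106__199_42_199 : Ent 4 := ⟨[a0, a63, a106], [a199, a42, a204], (M a48 (F (T t5173 (L l28 (T t579 (L l298 (T t551 N)))))))⟩
def e0_63_106__199_42_200 : Ent 4 := ⟨[a0, a63, a106], [a199, a42, a205], (M a48 (F (T t309 (T t551 (L l28 (T t579 N))))))⟩
def e0_63_106__199_42_201 : Ent 4 := ⟨[a0, a63, a106], [a199, a42, a206], (M a48 (F (T t2348 (L l28 (L l234 (T t579 (T t551 N)))))))⟩
def e0_63_106__199_42_202 : Ent 4 := ⟨[a0, a63, a106], [a199, a42, a207], (M a195 (F (L l236 (T t6880 (L l331 (T t6810 (L l493 (T t6811 N))))))))⟩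
def e0_63_106__199_42_203 : Ent 4 := ⟨[a0, a63, a106], [a199, a42, a208], (M a12 (F (T t2414 (L l56 (L l277 (T t2415 (L l375 (T t2305 N))))))))⟩
def e0_63_106__199_42_204 : Ent 4 := ⟨[a0, a63, a106], [a199, a42, a209], (M a48 (F (L l272 (T t309 (L l371 (T t551 (L l28 (T t579 N))))))))⟩
def e0_63_106__199_42_205 : Ent 4 := ⟨[a0, a63, a106], [a199, a42, a210], (M a48 (F (T t309 (L l273 (T t551 (L l28 (T t579 N)))))))⟩
def e0_63_106__199_42_206 : Ent 4 := ⟨[a0, a63, a106], [a199, a42, a211], (M a48 (F (T t309 (T t551 (L l28 (L l245 (T t579 N)))))))⟩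
def e0_63_106__199_42_207 : Ent 4 := ⟨[a0, a63, a106], [a199, a42, a212], (M a48 (F (L l292 (T t309 (L l351 (T t551 (L l28 (T t579 N))))))))⟩
def e0_63_106__199_42_208 : Ent 4 := ⟨[a0, a63, a106], [a199, a42, a213], (M a48 (F (L l296 (T t309 (L l347 (T t551 (L l28 (L l246 (T t579 N)))))))))⟩
def e0_63_106__199_42_209 : Ent 4 := ⟨[a0, a63, a106], [a199, a42, a214], (M a48 (L l279 (F (T t309 (T t551 (L l28 (T t579 (K a244 (M a229 (F (T t309 (L l262 (T t551 (L l28 (T t579 N))))))) (K a229 (M a244 (F (T t309 (L l28 (T t2289 (L l28 (T t579 N))))))) N)))))))))⟩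
def e0_63_106__199_42_210 : Ent 4 := ⟨[a0, a63, a106], [a199, a42, a215], (M a48 (L l277 (F (T t309 (T t551 (L l28 (L l245 (T t579 (K a231 (M a247 (F (T t309 (T t551 (L l28 (L l245 (T t579 N))))))) (K a247 (M a231 (F (T t309 (T t551 (L l28 (L l245 (T t579 N))))))) N))))))))))⟩
def e0_63_106__199_42_211 : Ent 4 := ⟨[a0, a63, a106], [a199, a42, a216], (M a48 (F (T t309 (L l298 (T t551 (L l28 (T t579 N)))))))⟩
def e0_63_106__199_42_212 : Ent 4 := ⟨[a0, a63, a106], [a199, a42, a217], (M a48 (F (T t309 (T t551 (L l28 (T t579 N))))))⟩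
def e0_63_106__199_42_213 : Ent 4 := ⟨[a0, a63, a106], [a199, a42, a218], (M a48 (F (T t2348 (L l28 (L l246 (L l282 (T t579 (L l303 (T t551 N)))))))))⟩
def e0_63_106__199_42_214 : Ent 4 := ⟨[a0, a63, a106], [a199, a42, a219], (M a48 (F (T t309 (T t551 (L l28 (L l245 (T t579 N)))))))⟩
def e0_63_106__199_42_215 : Ent 4 := ⟨[a0, a63, a106], [a199, a42, a220], (M a48 (F (T t309 (T t551 (L l28 (L l241 (T t579 N)))))))⟩
def e0_63_106__199_42_216 : Ent 4 := ⟨[a0, a63, a106], [a199, a42, a221], (M a48 (F (T t309 (T t551 (L l28 (L l241 (T t579 N)))))))⟩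
def e0_63_106__199_42_217 : Ent 4 := ⟨[a0, a63, a106], [a199, a42, a222], (M a48 (F (T t309 (T t551 (L l28 (L l241 (T t579 N)))))))⟩
def e0_63_106__199_42_218 : Ent 4 := ⟨[a0, a63, a106], [a199, a42, a223], (M a240 (F (T t4786 (L l368 (T t817 (L l361 (T t4781 N)))))))⟩
def e0_63_106__199_42_219 : Ent 4 := ⟨[a0, a63, a106], [a199, a42, a224], (M a48 (F (L l268 (T t309 (L l28 (L l376 (T t579 (L l268 (L l376 (T t551 N))))))))))⟩
def e0_63_106__199_42_220 : Ent 4 := ⟨[a0, a63, a106], [a199, a42, a225], (M a48 (F (T t309 (L l273 (T t551 (L l28 (T t579 N)))))))⟩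
def e0_63_106__199_42_221 : Ent 4 := ⟨[a0, a63, a106], [a199, a42, a226], (M a48 (F (T t5173 (L l28 (T t579 (T t551 N))))))⟩
def e0_63_106__199_42_222 : Ent 4 := ⟨[a0, a63, a106], [a199, a42, a227], (M a48 (F (T t309 (T t551 (L l28 (L l380 (T t579 N)))))))⟩
def e0_63_106__199_42_223 : Ent 4 := ⟨[a0, a63, a106], [a199, a42, a228], (M a48 (F (T t309 (L l298 (T t551 (L l28 (T t579 N)))))))⟩
def e0_63_106__199_42_224 : Ent 4 := ⟨[a0, a63, a106], [a199, a42, a229], (M a48 (L l279 (F (T t309 (L l28 (T t2289 (L l28 (T t579 (K a244 (M a214 (F (T t309 (L l28 (T t2289 (L l28 (T t579 N))))))) (K a214 (M a244 (F (T t309 (L l28 (T t2289 (L l28 (T t579 N))))))) N))))))))))⟩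
def e0_63_106__199_42_225 : Ent 4 := ⟨[a0, a63, a106], [a199, a42, a230], (M a48 (F (T t309 (T t551 (L l28 (T t579 N))))))⟩
def e0_63_106__199_42_226 : Ent 4 := ⟨[a0, a63, a106], [a199, a42, a231], (M a48 (L l277 (F (T t309 (T t551 (L l28 (T t579 (K a215 (M a247 (F (T t309 (T t551 (L l28 (L l245 (T t579 N))))))) (K a247 (M a215 (F (T t309 (T t551 (L l28 (T t579 N)))))) N)))))))))⟩
def e0_63_106__199_42_227 : Ent 4 := ⟨[a0, a63, a106], [a199, a42, a232], (M a48 (F (T t5173 (L l28 (T t579 (T t551 N))))))⟩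
def e0_63_106__199_42_228 : Ent 4 := ⟨[a0, a63, a106], [a199, a42, a233], (M a48 (F (T t309 (T t551 (L l28 (T t579 N))))))⟩
def e0_63_106__199_42_229 : Ent 4 := ⟨[a0, a63, a106], [a199, a42, a234], (M a48 (F (T t2348 (L l28 (L l282 (T t579 (T t551 N)))))))⟩
def e0_63_106__199_42_230 : Ent 4 := ⟨[a0, a63, a106], [a199, a42, a235], (M a48 (F (T t309 (T t551 (L l28 (T t579 N))))))⟩
def e0_63_106__199_42_231 : Ent 4 := ⟨[a0, a63, a106], [a199, a42, a236], (M a48 (F (T t309 (T t551 (L l28 (L l400 (T t579 N)))))))⟩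
def e0_63_106__199_42_232 : Ent 4 := ⟨[a0, a63, a106], [a199, a42, a237], (M a48 (F (T t309 (T t551 (L l28 (T t579 N))))))⟩
def e0_63_106__199_42_233 : Ent 4 := ⟨[a0, a63, a106], [a199, a42, a238], (M a48 (F (T t309 (T t551 (L l28 (T t579 N))))))⟩
def e0_63_106__199_42_234 : Ent 4 := ⟨[a0, a63, a106], [a199, a42, a239], (M a48 (F (T t309 (T t551 (L l28 (L l289 (L l404 (T t579 N))))))))⟩
def e0_63_106__199_42_235 : Ent 4 := ⟨[a0, a63, a106], [a199, a42, a240], (M a12 (F (T t2419 (L l298 (T t2305 (L l56 (L l277 (T t2415 N))))))))⟩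
def e0_63_106__199_42_236 : Ent 4 := ⟨[a0, a63, a106], [a199, a42, a241], (M a48 (F (T t309 (L l258 (T t551 (L l28 (T t579 N)))))))⟩
def e0_63_106__199_42_237 : Ent 4 := ⟨[a0, a63, a106], [a199, a42, a242], (M a48 (F (T t309 (L l258 (T t551 (L l28 (T t579 N)))))))⟩
def e0_63_106__199_42_238 : Ent 4 := ⟨[a0, a63, a106], [a199, a42, a243], (M a48 (F (T t5173 (L l28 (T t579 (L l258 (T t551 N)))))))⟩
def e0_63_106__199_42_239 : Ent 4 := ⟨[a0, a63, a106], [a199, a42, a244], (M a48 (L l279 (F (T t309 (L l262 (T t551 (L l28 (T t579 (K a229 (M a214 (F (T t309 (L l28 (T t2289 (L l28 (T t579 N))))))) (K a214 (M a229 (F (T t309 (L l262 (T t551 (L l28 (T t579 N))))))) N))))))))))⟩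
def e0_63_106__199_42_240 : Ent 4 := ⟨[a0, a63, a106], [a199, a42, a245], (M a48 (F (L l419 (T t309 (L l266 (T t551 (L l28 (L l419 (T t579 N)))))))))⟩
def e0_63_106__199_42_241 : Ent 4 := ⟨[a0, a63, a106], [a199, a42, a246], (M a48 (F (T t309 (T t551 (L l28 (T t579 N))))))⟩
def e0_63_106__199_42_242 : Ent 4 := ⟨[a0, a63, a106], [a199, a42, a247], (M a48 (L l277 (F (T t309 (T t551 (L l28 (T t579 (K a215 (M a231 (F (T t309 (T t551 (L l28 (L l245 (T t579 N))))))) (K a231 (M a215 (F (T t309 (T t551 (L l28 (T t579 N)))))) N)))))))))⟩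
def e0_63_106__199_42_243 : Ent 4 := ⟨[a0, a63, a106], [a199, a42, a248], (M a48 (F (T t309 (L l262 (T t551 (L l28 (T t579 N)))))))⟩
def e0_63_106__199_42_244 : Ent 4 := ⟨[a0, a63, a106], [a199, a42, a249], (M a48 (F (T t309 (T t551 (L l28 (T t579 N))))))⟩
def e0_63_106__199_42_245 : Ent 4 := ⟨[a0, a63, a106], [a199, a42, a250], (M a48 (F (T t2348 (L l28 (L l282 (T t579 (L l266 (T t551 N))))))))⟩
def e0_63_106__199_42_246 : Ent 4 := ⟨[a0, a63, a106], [a199, a42, a251], (M a48 (F (T t309 (T t551 (L l28 (T t579 N))))))⟩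
def e0_63_106__199_42_247 : Ent 4 := ⟨[a0, a63, a106], [a199, a42, a252], (M a48 (F (T t5173 (L l28 (T t579 (L l262 (T t551 N)))))))⟩
def e0_63_106__199_42_248 : Ent 4 := ⟨[a0, a63, a106], [a199, a42, a253], (M a48 (F (T t309 (T t551 (L l28 (T t579 N))))))⟩
def e0_63_106__199_42_249 : Ent 4 := ⟨[a0, a63, a106], [a199, a42, a254], (M a48 (F (T t309 (T t551 (L l28 (T t579 N))))))⟩
def e0_63_106__199_42_250 : Ent 4 := ⟨[a0, a63, a106], [a199, a42, a255], (M a48 (F (T t5173 (L l266 (T t551 (L l28 (L l469 (L l494 (T t6526 (L l28 (L l289 (T t6527 N))))))))))))⟩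
def b0_63_106__199_42 : Blk 4 := ⟨[0, 63, 106], [199, 42], [1, 2, 3, 4, 5, 6, 7, 8, 9, 10, 11, 12, 13, 14, 15, 16, 17, 18, 19, 20, 21, 22, 23, 24, 25, 26, 27, 28, 29, 30, 31, 32, 33, 34, 35, 36, 37, 38, 39, 40, 41, 43, 44, 45, 46, 47, 48, 49, 50, 51, 52, 53, 54, 55, 56, 57, 58, 59, 60, 61, 62, 64, 65, 66, 67, 68, 69, 70, 71, 72, 73, 74, 75, 76, 77, 78, 79, 80, 81, 82, 83, 84, 85, 86, 87, 88, 89, 90, 91, 92, 93, 94, 95, 96, 97, 98, 99, 100, 101, 102, 103, 104, 105, 107, 108, 109, 110, 111, 112, 113, 114, 115, 116, 117, 118, 119, 120, 121, 122, 123, 124, 125, 126, 127, 128, 129, 130, 131, 132, 133, 134, 135, 136, 137, 138, 139, 140, 141, 142, 143, 144, 145, 146, 147, 148, 149, 150, 151, 152, 153, 154, 155, 156, 157, 158, 159, 160, 161, 162, 163, 164, 165, 166, 167, 168, 169, 170, 171, 172, 173, 174, 175, 176, 177, 178, 179, 180, 181, 182, 183, 184, 185, 186, 187, 188, 189, 190, 191, 192, 193, 194, 195, 196, 197, 198,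 200, 201, 202, 203, 204, 205, 206, 207, 208, 209, 210, 211, 212, 213, 214, 215, 216, 217, 218, 219, 220, 221, 222, 223, 224, 225, 226, 227, 228, 229, 230, 231, 232, 233, 234, 235, 236, 237, 238, 239, 240, 241, 242, 243, 244, 245, 246, 247, 248, 249, 250, 251, 252, 253, 254, 255], [e0_63_106__199_42_0, e0_63_106__199_42_1, e0_63_106__199_42_2, e0_63_106__199_42_3, e0_63_106__199_42_4, e0_63_106__199_42_5, e0_63_106__199_42_6, e0_63_106__199_42_7, e0_63_106__199_42_8, e0_63_106__199_42_9, e0_63_106__199_42_10, e0_63_106__199_42_11, e0_63_106__199_42_12, e0_63_106__199_42_13, e0_63_106__199_42_14, e0_63_106__199_42_15, e0_63_106__199_42_16, e0_63_106__199_42_17, e0_63_106__199_42_18, e0_63_106__199_42_19, e0_63_106__199_42_20, e0_63_106__199_42_21, e0_63_106__199_42_22, e0_63_106__199_42_23, e0_63_106__199_42_24, e0_63_106__199_42_25, e0_63_106__199_42_26, e0_63_106__199_42_27, e0_63_106__199_42_28, e0_63_106__199_42_29,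 e0_63_106__199_42_30, e0_63_106__199_42_31, e0_63_106__199_42_32, e0_63_106__199_42_33, e0_63_106__199_42_34, e0_63_106__199_42_35, e0_63_106__199_42_36, e0_63_106__199_42_37, e0_63_106__199_42_38, e0_63_106__199_42_39, e0_63_106__199_42_40, e0_63_106__199_42_41, e0_63_106__199_42_42, e0_63_106__199_42_43, e0_63_106__199_42_44, e0_63_106__199_42_45, e0_63_106__199_42_46, e0_63_106__199_42_47, e0_63_106__199_42_48, e0_63_106__199_42_49, e0_63_106__199_42_50, e0_63_106__199_42_51, e0_63_106__199_42_52, e0_63_106__199_42_53, e0_63_106__199_42_54, e0_63_106__199_42_55, e0_63_106__199_42_56, e0_63_106__199_42_57, e0_63_106__199_42_58, e0_63_106__199_42_59, e0_63_106__199_42_60, e0_63_106__199_42_61, e0_63_106__199_42_62, e0_63_106__199_42_63, e0_63_106__199_42_64, e0_63_106__199_42_65, e0_63_106__199_42_66, e0_63_106__199_42_67, e0_63_106__199_42_68, e0_63_106__199_42_69, e0_63_106__199_42_70, e0_63_106__199_42_71, e0_63_106__199_42_72,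 e0_63_106__199_42_73, e0_63_106__199_42_74, e0_63_106__199_42_75, e0_63_106__199_42_76, e0_63_106__199_42_77, e0_63_106__199_42_78, e0_63_106__199_42_79, e0_63_106__199_42_80, e0_63_106__199_42_81, e0_63_106__199_42_82, e0_63_106__199_42_83, e0_63_106__199_42_84, e0_63_106__199_42_85, e0_63_106__199_42_86, e0_63_106__199_42_87, e0_63_106__199_42_88, e0_63_106__199_42_89, e0_63_106__199_42_90, e0_63_106__199_42_91, e0_63_106__199_42_92, e0_63_106__199_42_93, e0_63_106__199_42_94, e0_63_106__199_42_95, e0_63_106__199_42_96, e0_63_106__199_42_97, e0_63_106__199_42_98, e0_63_106__199_42_99, e0_63_106__199_42_100, e0_63_106__199_42_101, e0_63_106__199_42_102, e0_63_106__199_42_103, e0_63_106__199_42_104, e0_63_106__199_42_105, e0_63_106__199_42_106, e0_63_106__199_42_107, e0_63_106__199_42_108, e0_63_106__199_42_109, e0_63_106__199_42_110, e0_63_106__199_42_111, e0_63_106__199_42_112, e0_63_106__199_42_113, e0_63_106__199_42_114,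 e0_63_106__199_42_115, e0_63_106__199_42_116, e0_63_106__199_42_117, e0_63_106__199_42_118, e0_63_106__199_42_119, e0_63_106__199_42_120, e0_63_106__199_42_121, e0_63_106__199_42_122, e0_63_106__199_42_123, e0_63_106__199_42_124, e0_63_106__199_42_125, e0_63_106__199_42_126, e0_63_106__199_42_127, e0_63_106__199_42_128, e0_63_106__199_42_129, e0_63_106__199_42_130, e0_63_106__199_42_131, e0_63_106__199_42_132, e0_63_106__199_42_133, e0_63_106__199_42_134, e0_63_106__199_42_135, e0_63_106__199_42_136, e0_63_106__199_42_137, e0_63_106__199_42_138, e0_63_106__199_42_139, e0_63_106__199_42_140, e0_63_106__199_42_141, e0_63_106__199_42_142, e0_63_106__199_42_143, e0_63_106__199_42_144, e0_63_106__199_42_145, e0_63_106__199_42_146, e0_63_106__199_42_147, e0_63_106__199_42_148, e0_63_106__199_42_149, e0_63_106__199_42_150, e0_63_106__199_42_151, e0_63_106__199_42_152, e0_63_106__199_42_153, e0_63_106__199_42_154, e0_63_106__199_42_155,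 e0_63_106__199_42_156, e0_63_106__199_42_157, e0_63_106__199_42_158, e0_63_106__199_42_159, e0_63_106__199_42_160, e0_63_106__199_42_161, e0_63_106__199_42_162, e0_63_106__199_42_163, e0_63_106__199_42_164, e0_63_106__199_42_165, e0_63_106__199_42_166, e0_63_106__199_42_167, e0_63_106__199_42_168, e0_63_106__199_42_169, e0_63_106__199_42_170, e0_63_106__199_42_171, e0_63_106__199_42_172, e0_63_106__199_42_173, e0_63_106__199_42_174, e0_63_106__199_42_175, e0_63_106__199_42_176, e0_63_106__199_42_177, e0_63_106__199_42_178, e0_63_106__199_42_179, e0_63_106__199_42_180, e0_63_106__199_42_181, e0_63_106__199_42_182, e0_63_106__199_42_183, e0_63_106__199_42_184, e0_63_106__199_42_185, e0_63_106__199_42_186, e0_63_106__199_42_187, e0_63_106__199_42_188, e0_63_106__199_42_189, e0_63_106__199_42_190, e0_63_106__199_42_191, e0_63_106__199_42_192, e0_63_106__199_42_193, e0_63_106__199_42_194, e0_63_106__199_42_195, e0_63_106__199_42_196,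 e0_63_106__199_42_197, e0_63_106__199_42_198, e0_63_106__199_42_199, e0_63_106__199_42_200, e0_63_106__199_42_201, e0_63_106__199_42_202, e0_63_106__199_42_203, e0_63_106__199_42_204, e0_63_106__199_42_205, e0_63_106__199_42_206, e0_63_106__199_42_207, e0_63_106__199_42_208, e0_63_106__199_42_209, e0_63_106__199_42_210, e0_63_106__199_42_211, e0_63_106__199_42_212, e0_63_106__199_42_213, e0_63_106__199_42_214, e0_63_106__199_42_215, e0_63_106__199_42_216, e0_63_106__199_42_217, e0_63_106__199_42_218, e0_63_106__199_42_219, e0_63_106__199_42_220, e0_63_106__199_42_221, e0_63_106__199_42_222, e0_63_106__199_42_223, e0_63_106__199_42_224, e0_63_106__199_42_225, e0_63_106__199_42_226, e0_63_106__199_42_227, e0_63_106__199_42_228, e0_63_106__199_42_229, e0_63_106__199_42_230, e0_63_106__199_42_231, e0_63_106__199_42_232, e0_63_106__199_42_233, e0_63_106__199_42_234, e0_63_106__199_42_235, e0_63_106__199_42_236, e0_63_106__199_42_237,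 e0_63_106__199_42_238, e0_63_106__199_42_239, e0_63_106__199_42_240, e0_63_106__199_42_241, e0_63_106__199_42_242, e0_63_106__199_42_243, e0_63_106__199_42_244, e0_63_106__199_42_245, e0_63_106__199_42_246, e0_63_106__199_42_247, e0_63_106__199_42_248, e0_63_106__199_42_249, e0_63_106__199_42_250], by decide +kernel, by decide +kernel⟩
def e0_63_106__202_42_0 : Ent 4 := ⟨[a0, a63, a106], [a202, a42, a1], (M a240 (F (L l236 (T t4786 (T t817 (L l318 (T t4781 N)))))))⟩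
def e0_63_106__202_42_1 : Ent 4 := ⟨[a0, a63, a106], [a202, a42, a2], (M a240 (L l66 (F (L l236 (T t4786 (T t817 (L l318 (T t4781 (K a22 (M a62 (F (T t6696 (L l318 (T t4781 N))))) (K a62 (M a22 (F (L l318 (T t6965 (T t817 (L l318 (T t4781 N))))))) N))))))))))⟩
def e0_63_106__202_42_2 : Ent 4 := ⟨[a0, a63, a106], [a202, a42, a3], (M a240 (F (L l28 (T t6683 (L l318 (T t4781 (L l45 (T t817 N))))))))⟩
def e0_63_106__202_42_3 : Ent 4 := ⟨[a0, a63, a106], [a202, a42, a5], (M a240 (F (L l318 (T t6965 (T t817 (L l318 (T t4781 N)))))))⟩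
def e0_63_106__202_42_4 : Ent 4 := ⟨[a0, a63, a106], [a202, a42, a6], (M a240 (F (L l236 (T t4786 (T t817 (L l318 (T t4781 N)))))))⟩
def e0_63_106__202_42_5 : Ent 4 := ⟨[a0, a63, a106], [a202, a42, a7], (M a240 (F (T t817 (L l236 (L l318 (T t4779 (L l318 (T t4781 N))))))))⟩
def e0_63_106__202_42_6 : Ent 4 := ⟨[a0, a63, a106], [a202, a42, a10], (M a204 (L l54 (L l318 (F (T t6715 (L l230 (T t4770 (T t6655 (K a74 (M a138 (L l54 (F (T t6715 (L l6 (L l66 (L l82 (T t8161 (K a26 (M a58 (F (T t6715 (L l6 (L l66 (L l84 (T t8162 N))))))) (K a58 (M a26 (F (T t6715 (L l6 (L l66 (L l84 (T t8162 N))))))) N)))))))))) (K a138 (M a74 (L l54 (F (T t6715 (L l160 (T t6556 (L l330 (T t7426 (K a26 (M a58 (F (T t6715 (L l28 (T t8163 N))))) (K a58 (M a26 (F (T t8095 (L l330 (L l426 (T t7426 N)))))) N)))))))))) (K a26 (M a58 (L l318 (F (T t6715 (T t8164 (K a74 (M a138 (F (T t6715 (L l6 (L l66 (L l84 (T t8162 N))))))) (K a138 (M a74 (F (T t6715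 (L l28 (T t8163 N))))) N))))))) (K a58 (M a26 (L l318 (F (T t6715 (L l230 (T t4770 (T t6655 (K a74 (M a138 (F (T t6715 (L l6 (L l66 (L l84 (T t8162 N))))))) (K a138 (M a74 (F (T t8095 (L l330 (L l426 (T t7426 N)))))) N))))))))) N))))))))))))⟩
def e0_63_106__202_42_7 : Ent 4 := ⟨[a0, a63, a106], [a202, a42, a11], (M a240 (F (L l236 (T t4786 (T t817 (L l318 (L l321 (T t4781 N))))))))⟩
def e0_63_106__202_42_8 : Ent 4 := ⟨[a0, a63, a106], [a202, a42, a15], (M a12 (F (T t2419 (L l327 (T t2305 (L l56 (T t2415 N)))))))⟩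
def e0_63_106__202_42_9 : Ent 4 := ⟨[a0, a63, a106], [a202, a42, a16], (M a240 (F (L l236 (T t4786 (L l340 (T t4780 (L l318 (T t4781 N))))))))⟩
def e0_63_106__202_42_10 : Ent 4 := ⟨[a0, a63, a106], [a202, a42, a17], (M a240 (F (L l236 (T t4786 (L l10 (T t817 (L l318 (T t4781 N))))))))⟩
def e0_63_106__202_42_11 : Ent 4 := ⟨[a0, a63, a106], [a202, a42, a18], (M a240 (F (L l236 (T t4786 (L l10 (L l45 (T t817 (L l318 (T t4781 N)))))))))⟩
def e0_63_106__202_42_12 : Ent 4 := ⟨[a0, a63, a106], [a202, a42, a19], (M a240 (F (L l236 (T t4786 (L l10 (T t817 (L l318 (T t4781 N))))))))⟩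
def e0_63_106__202_42_13 : Ent 4 := ⟨[a0, a63, a106], [a202, a42, a21], (M a240 (F (L l236 (T t4786 (L l347 (T t4780 (L l318 (T t4781 N))))))))⟩
def e0_63_106__202_42_14 : Ent 4 := ⟨[a0, a63, a106], [a202, a42, a22], (M a240 (L l66 (F (L l236 (T t4786 (T t817 (L l318 (T t4781 (K a2 (M a62 (F (T t6696 (L l318 (T t4781 N))))) (K a62 (M a2 (F (T t3515 (L l28 (T t815 N))))) N))))))))))⟩
def e0_63_106__202_42_15 : Ent 4 := ⟨[a0, a63, a106], [a202, a42, a23], (M a240 (F (L l236 (T t4786 (L l351 (T t817 (L l318 (T t4781 N))))))))⟩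
def e0_63_106__202_42_16 : Ent 4 := ⟨[a0, a63, a106], [a202, a42, a26], (M a240 (L l54 (F (L l236 (T t4786 (T t6606 (L l318 (T t4781 (K a10 (M a58 (L l318 (F (L l236 (T t4786 (T t7740 (L l236 (T t7218 (K a74 (M a138 (F (T t7740 (L l18 (L l75 (T t817 (L l28 (L l75 (T t7852 (T t6822 N)))))))))) (K a138 (M a74 (F (T t6522 (L l236 (T t7218 N))))) N)))))))))) (K a58 (M a10 (F (T t6525 (T t6610 (L l18 (T t6611 N)))))) N))))))))))⟩
def e0_63_106__202_42_17 : Ent 4 := ⟨[a0, a63, a106], [a202, a42, a27], (M a240 (F (L l236 (T t4786 (T t817 (L l318 (T t4781 N)))))))⟩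
def e0_63_106__202_42_18 : Ent 4 := ⟨[a0, a63, a106], [a202, a42, a31], (M a12 (F (L l13 (T t2414 (L l375 (T t2305 (L l13 (L l56 (T t2415 N)))))))))⟩
def e0_63_106__202_42_19 : Ent 4 := ⟨[a0, a63, a106], [a202, a42, a32], (M a240 (L l28 (F (L l236 (L l318 (T t6609 (L l376 (T t6588 (L l318 (L l376 (T t4781 (K a37 (M a47 (F (T t6602 (T t6698 (T t6604 N))))) (K a47 (M a37 (F (L l376 (T t6588 (L l54 (L l236 (T t6823 (L l318 (L l376 (T t4781 N)))))))))) N)))))))))))))⟩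
def e0_63_106__202_42_20 : Ent 4 := ⟨[a0, a63, a106], [a202, a42, a33], (M a240 (F (L l236 (T t4786 (L l45 (T t817 (L l318 (T t4781 N))))))))⟩
def e0_63_106__202_42_21 : Ent 4 := ⟨[a0, a63, a106], [a202, a42, a34], (M a240 (L l26 (F (L l236 (T t4786 (T t817 (L l318 (T t4781 (K a38 (M a46 (F (T t8165 (L l318 (T t4781 N))))) (K a46 (M a38 (F (L l318 (T t6965 (T t817 (L l318 (T t4781 N))))))) N))))))))))⟩
def e0_63_106__202_42_22 : Ent 4 := ⟨[a0, a63, a106], [a202, a42, a35], (M a240 (F (L l236 (T t7478 (L l381 (T t817 (L l318 (T t4781 N))))))))⟩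
def e0_63_106__202_42_23 : Ent 4 := ⟨[a0, a63, a106], [a202, a42, a37], (M a240 (L l28 (F (L l236 (T t4786 (T t6606 (L l318 (T t4781 (K a32 (M a47 (F (T t6602 (T t6698 (T t6604 N))))) (K a47 (M a32 (F (T t7229 (L l318 (T t4781 (L l54 (T t6608 N))))))) N))))))))))⟩
def e0_63_106__202_42_24 : Ent 4 := ⟨[a0, a63, a106], [a202, a42, a38], (M a240 (L l26 (F (L l236 (T t4786 (T t817 (L l318 (T t4781 (K a34 (M a46 (F (T t8165 (L l318 (T t4781 N))))) (K a46 (M a34 (F (T t817 (T t7231 N)))) N))))))))))⟩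
def e0_63_106__202_42_25 : Ent 4 := ⟨[a0, a63, a106], [a202, a42, a39], (M a240 (F (L l236 (T t4786 (T t817 (L l318 (T t4781 N)))))))⟩
def e0_63_106__202_42_26 : Ent 4 := ⟨[a0, a63, a106], [a202, a42, a43], (M a240 (L l22 (F (L l236 (T t4786 (T t817 (L l318 (T t4781 (K a40 (M a41 (F (L l318 (T t6965 (T t817 (L l318 (T t4781 N))))))) (K a41 (M a40 (F (T t817 (T t7233 N)))) N))))))))))⟩
def e0_63_106__202_42_27 : Ent 4 := ⟨[a0, a63, a106], [a202, a42, a47], (M a12 (L l28 (F (T t2414 (L l56 (T t2415 (T t2305 (K a32 (M a37 (F (T t2416 (L l56 (T t2415 (T t2305 N)))))) (K a37 (M a32 (F (T t2419 (L l51 (L l56 (T t682 N)))))) N)))))))))⟩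
def e0_63_106__202_42_28 : Ent 4 := ⟨[a0, a63, a106], [a202, a42, a48], (M a12 (F (T t2419 (L l508 (T t2305 (L l56 (T t2415 N)))))))⟩
def e0_63_106__202_42_29 : Ent 4 := ⟨[a0, a63, a106], [a202, a42, a49], (M a240 (F (L l236 (T t4786 (L l30 (T t817 (L l318 (T t4781 N))))))))⟩
def e0_63_106__202_42_30 : Ent 4 := ⟨[a0, a63, a106], [a202, a42, a50], (M a240 (F (L l236 (T t4786 (L l30 (T t817 (L l318 (T t4781 N))))))))⟩
def e0_63_106__202_42_31 : Ent 4 := ⟨[a0, a63, a106], [a202, a42, a51], (M a240 (F (L l28 (T t6683 (L l318 (T t4781 (L l30 (T t817 N))))))))⟩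
def e0_63_106__202_42_32 : Ent 4 := ⟨[a0, a63, a106], [a202, a42, a53], (M a240 (F (L l236 (T t4786 (L l491 (T t817 (L l318 (L l419 (T t4781 N)))))))))⟩
def e0_63_106__202_42_33 : Ent 4 := ⟨[a0, a63, a106], [a202, a42, a54], (M a240 (F (L l236 (T t4786 (T t817 (L l318 (T t4781 N)))))))⟩
def e0_63_106__202_42_34 : Ent 4 := ⟨[a0, a63, a106], [a202, a42, a55], (M a240 (F (L l236 (T t4786 (L l495 (T t817 (L l318 (L l423 (T t4781 N)))))))))⟩
def e0_63_106__202_42_35 : Ent 4 := ⟨[a0, a63, a106], [a202, a42, a58], (M a12 (L l54 (F (T t2414 (L l56 (T t2415 (T t2305 (K a10 (M a26 (L l318 (F (T t2416 (L l2 (L l56 (T t2415 (T t2305 (K a74 (M a138 (F (T t2416 (L l230 (L l336 (T t2420 N)))))) (K a138 (M a74 (F (T t2418 (L l160 (L l426 (T t6556 (L l2 (L l56 (L l320 (T t2415 N)))))))))) N)))))))))) (K a26 (M a10 (F (T t2414 (L l57 (L l66 (T t6765 N)))))) N)))))))))⟩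
def e0_63_106__202_42_36 : Ent 4 := ⟨[a0, a63, a106], [a202, a42, a59], (M a240 (L l56 (F (T t4780 (L l236 (L l318 (T t4779 (L l318 (T t4781 (K a8 (M a25 (F (L l318 (T t6965 (T t817 (L l318 (T t4781 N))))))) (K a25 (M a8 (F (T t7240 (L l28 (T t815 N))))) N)))))))))))⟩
def e0_63_106__202_42_37 : Ent 4 := ⟨[a0, a63, a106], [a202, a42, a64], (M a240 (F (L l236 (T t4786 (L l84 (L l318 (T t6501 (L l28 (L l116 (T t7881 (L l84 (L l116 (L l318 (T t6484 (L l28 (L l84 (L l236 (L l318 (T t7242 (L l116 (L l236 (T t6859 (L l28 (L l84 (L l116 (L l318 (T t7882 N)))))))))))))))))))))))))))⟩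
def e0_63_106__202_42_38 : Ent 4 := ⟨[a0, a63, a106], [a202, a42, a65], (M a240 (F (L l236 (T t4786 (T t817 (L l76 (L l318 (T t4781 N))))))))⟩
def e0_63_106__202_42_39 : Ent 4 := ⟨[a0, a63, a106], [a202, a42, a66], (M a240 (F (L l28 (T t815 (L l76 (L l82 (L l318 (T t4781 (T t817 N)))))))))⟩
def e0_63_106__202_42_40 : Ent 4 := ⟨[a0, a63, a106], [a202, a42, a67], (M a240 (F (L l236 (T t4786 (T t817 (L l76 (L l318 (T t4781 N))))))))⟩
def e0_63_106__202_42_41 : Ent 4 := ⟨[a0, a63, a106], [a202, a42, a69], (M a240 (F (L l28 (T t815 (T t6588 (L l84 (L l318 (T t6482 N))))))))⟩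
def e0_63_106__202_42_42 : Ent 4 := ⟨[a0, a63, a106], [a202, a42, a70], (M a240 (F (L l28 (T t815 (L l82 (L l318 (T t4781 (T t817 N))))))))⟩
def e0_63_106__202_42_43 : Ent 4 := ⟨[a0, a63, a106], [a202, a42, a71], (M a240 (F (L l236 (T t4786 (T t817 (L l318 (T t4781 N)))))))⟩
def e0_63_106__202_42_44 : Ent 4 := ⟨[a0, a63, a106], [a202, a42, a74], (M a12 (L l318 (F (T t2414 (L l56 (L l84 (T t2415 (L l78 (L l84 (T t2305 (K a10 (M a138 (L l54 (F (T t2414 (L l230 (L l336 (T t2420 (K a26 (M a58 (F (T t2416 (L l84 (L l230 (T t2439 N)))))) (K a58 (M a26 (F (T t2416 (L l230 (L l336 (T t2420 N)))))) N))))))))) (K a138 (M a10 (F (T t2414 (L l66 (L l321 (L l330 (T t6765 N))))))) N))))))))))))⟩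
def e0_63_106__202_42_45 : Ent 4 := ⟨[a0, a63, a106], [a202, a42, a75], (M a240 (F (L l236 (T t4786 (T t817 (L l78 (L l318 (T t4781 N))))))))⟩
def e0_63_106__202_42_46 : Ent 4 := ⟨[a0, a63, a106], [a202, a42, a79], (M a240 (F (L l236 (T t4786 (T t817 (L l84 (L l137 (L l318 (T t6482 N)))))))))⟩
def e0_63_106__202_42_47 : Ent 4 := ⟨[a0, a63, a106], [a202, a42, a80], (M a12 (F (T t2414 (L l56 (L l116 (T t2415 (L l116 (T t2305 N))))))))⟩
def e0_63_106__202_42_48 : Ent 4 := ⟨[a0, a63, a106], [a202, a42, a81], (M a240 (F (L l236 (T t4786 (L l344 (T t817 (L l120 (L l318 (T t4781 N)))))))))⟩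
def e0_63_106__202_42_49 : Ent 4 := ⟨[a0, a63, a106], [a202, a42, a82], (M a240 (F (L l236 (T t4786 (T t817 (L l318 (T t4781 N)))))))⟩
def e0_63_106__202_42_50 : Ent 4 := ⟨[a0, a63, a106], [a202, a42, a83], (M a240 (F (L l236 (T t4786 (T t817 (L l93 (L l318 (T t4781 N))))))))⟩
def e0_63_106__202_42_51 : Ent 4 := ⟨[a0, a63, a106], [a202, a42, a85], (M a240 (F (L l236 (T t4786 (L l347 (L l368 (T t817 (L l28 (L l318 (L l455 (T t6587 (L l28 (L l94 (L l318 (T t6483 (K a192 (M a248 (L l236 (F (T t3821 (L l87 (L l94 (T t6520 (L l22 (L l318 (L l339 (T t7244 (K a197 (M a207 (F (T t3821 (L l28 (L l282 (L l484 (T t8150 N))))))) (K a207 (M a197 (F (T t3821 (L l87 (L l94 (T t6520 (L l22 (L l318 (L l339 (T t7244 N)))))))))) N))))))))))))) N))))))))))))))))⟩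
def e0_63_106__202_42_52 : Ent 4 := ⟨[a0, a63, a106], [a202, a42, a86], (M a240 (F (L l236 (T t4786 (L l351 (T t817 (L l318 (T t4781 N))))))))⟩
def e0_63_106__202_42_53 : Ent 4 := ⟨[a0, a63, a106], [a202, a42, a87], (M a240 (F (L l236 (T t4786 (T t817 (L l93 (L l318 (T t4781 N))))))))⟩
def e0_63_106__202_42_54 : Ent 4 := ⟨[a0, a63, a106], [a202, a42, a90], (M a12 (F (T t2414 (L l56 (T t2415 (L l375 (T t2305 N)))))))⟩
def e0_63_106__202_42_55 : Ent 4 := ⟨[a0, a63, a106], [a202, a42, a91], (M a240 (F (L l236 (T t4786 (T t817 (L l93 (L l318 (T t4781 N))))))))⟩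
def e0_63_106__202_42_56 : Ent 4 := ⟨[a0, a63, a106], [a202, a42, a95], (M a12 (F (T t2414 (L l56 (T t2415 (T t2305 N))))))⟩
def e0_63_106__202_42_57 : Ent 4 := ⟨[a0, a63, a106], [a202, a42, a96], (M a12 (F (T t2414 (L l56 (L l116 (T t2415 (L l116 (T t2305 N))))))))⟩
def e0_63_106__202_42_58 : Ent 4 := ⟨[a0, a63, a106], [a202, a42, a97], (M a240 (F (L l236 (T t4786 (L l488 (T t817 (L l318 (T t4781 N))))))))⟩
def e0_63_106__202_42_59 : Ent 4 := ⟨[a0, a63, a106], [a202, a42, a98], (M a240 (F (L l318 (T t6965 (L l381 (T t817 (L l120 (L l318 (T t4781 N)))))))))⟩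
def e0_63_106__202_42_60 : Ent 4 := ⟨[a0, a63, a106], [a202, a42, a99], (M a240 (F (L l236 (T t4786 (T t817 (L l318 (T t4781 N)))))))⟩
def e0_63_106__202_42_61 : Ent 4 := ⟨[a0, a63, a106], [a202, a42, a101], (M a240 (F (L l236 (T t4786 (L l318 (T t4781 (L l491 (L l512 (T t817 N)))))))))⟩
def e0_63_106__202_42_62 : Ent 4 := ⟨[a0, a63, a106], [a202, a42, a102], (M a240 (F (L l236 (T t4786 (L l495 (T t817 (L l318 (T t4781 N))))))))⟩
def e0_63_106__202_42_63 : Ent 4 := ⟨[a0, a63, a106], [a202, a42, a103], (M a240 (F (L l236 (T t4786 (T t817 (L l318 (T t4781 N)))))))⟩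
def e0_63_106__202_42_64 : Ent 4 := ⟨[a0, a63, a106], [a202, a42, a107], (M a240 (F (L l236 (T t4786 (T t817 (L l318 (T t4781 N)))))))⟩
def e0_63_106__202_42_65 : Ent 4 := ⟨[a0, a63, a106], [a202, a42, a111], (M a240 (F (L l236 (T t4786 (T t817 (L l137 (L l318 (T t4781 N))))))))⟩
def e0_63_106__202_42_66 : Ent 4 := ⟨[a0, a63, a106], [a202, a42, a112], (M a12 (F (T t2414 (L l56 (L l116 (T t2415 (L l116 (T t2305 N))))))))⟩
def e0_63_106__202_42_67 : Ent 4 := ⟨[a0, a63, a106], [a202, a42, a113], (M a240 (F (L l236 (T t4786 (L l416 (T t817 (L l318 (T t4781 N))))))))⟩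
def e0_63_106__202_42_68 : Ent 4 := ⟨[a0, a63, a106], [a202, a42, a114], (M a240 (F (L l318 (T t6965 (T t817 (L l318 (T t4781 N)))))))⟩
def e0_63_106__202_42_69 : Ent 4 := ⟨[a0, a63, a106], [a202, a42, a115], (M a240 (F (L l236 (T t4786 (T t817 (L l120 (L l318 (T t4781 N))))))))⟩
def e0_63_106__202_42_70 : Ent 4 := ⟨[a0, a63, a106], [a202, a42, a117], (M a240 (F (L l28 (T t815 (L l318 (L l419 (T t4781 (L l440 (T t817 N)))))))))⟩
def e0_63_106__202_42_71 : Ent 4 := ⟨[a0, a63, a106], [a202, a42, a118], (M a240 (F (L l28 (T t815 (L l318 (L l423 (T t4781 (T t817 N))))))))⟩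
def e0_63_106__202_42_72 : Ent 4 := ⟨[a0, a63, a106], [a202, a42, a119], (M a240 (F (L l236 (T t4786 (T t817 (L l318 (T t4781 N)))))))⟩
def e0_63_106__202_42_73 : Ent 4 := ⟨[a0, a63, a106], [a202, a42, a122], (M a12 (F (T t2418 (L l56 (T t2415 (T t2305 N))))))⟩
def e0_63_106__202_42_74 : Ent 4 := ⟨[a0, a63, a106], [a202, a42, a123], (M a240 (F (T t4780 (L l236 (L l318 (T t4779 (L l318 (T t4781 N))))))))⟩
def e0_63_106__202_42_75 : Ent 4 := ⟨[a0, a63, a106], [a202, a42, a127], (M a240 (F (T t4780 (L l236 (L l318 (T t4779 (L l137 (L l318 (T t6501 (L l137 (L l318 (T t6629 N))))))))))))⟩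
def e0_63_106__202_42_76 : Ent 4 := ⟨[a0, a63, a106], [a202, a42, a128], (M a240 (F (L l160 (L l236 (T t4786 (L l192 (L l318 (T t4781 (L l28 (L l220 (T t7881 (L l54 (L l160 (L l236 (L l318 (T t7251 N))))))))))))))))⟩
def e0_63_106__202_42_77 : Ent 4 := ⟨[a0, a63, a106], [a202, a42, a129], (M a240 (F (L l28 (L l318 (T t6587 (L l152 (L l217 (T t6588 (L l318 (T t4781 N))))))))))⟩
def e0_63_106__202_42_78 : Ent 4 := ⟨[a0, a63, a106], [a202, a42, a130], (M a240 (F (L l236 (T t4786 (T t817 (L l318 (T t4781 N)))))))⟩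
def e0_63_106__202_42_79 : Ent 4 := ⟨[a0, a63, a106], [a202, a42, a131], (M a240 (F (L l236 (T t4786 (T t817 (L l318 (T t4781 N)))))))⟩
def e0_63_106__202_42_80 : Ent 4 := ⟨[a0, a63, a106], [a202, a42, a133], (M a12 (F (T t2419 (L l199 (T t2305 (L l56 (T t2415 N)))))))⟩
def e0_63_106__202_42_81 : Ent 4 := ⟨[a0, a63, a106], [a202, a42, a134], (M a240 (F (L l28 (T t815 (L l318 (L l336 (T t4781 (T t817 N))))))))⟩
def e0_63_106__202_42_82 : Ent 4 := ⟨[a0, a63, a106], [a202, a42, a135], (M a240 (F (T t817 (L l236 (L l318 (T t4779 (L l318 (T t4781 N))))))))⟩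
def e0_63_106__202_42_83 : Ent 4 := ⟨[a0, a63, a106], [a202, a42, a138], (M a12 (L l318 (F (T t2414 (L l56 (L l320 (T t2415 (T t2305 (K a10 (M a74 (L l54 (F (T t2418 (L l160 (T t6556 (L l2 (L l56 (L l320 (T t2415 (K a26 (M a58 (F (T t2418 (L l28 (T t2417 N))))) (K a58 (M a26 (F (T t2418 (L l160 (L l426 (T t6556 (L l2 (L l56 (L l320 (T t2415 N)))))))))) N)))))))))))) (K a74 (M a10 (F (T t2414 (L l66 (L l321 (L l330 (T t6765 N))))))) N))))))))))⟩
def e0_63_106__202_42_84 : Ent 4 := ⟨[a0, a63, a106], [a202, a42, a139], (M a240 (F (L l236 (T t4786 (T t817 (L l318 (T t4781 N)))))))⟩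
def e0_63_106__202_42_85 : Ent 4 := ⟨[a0, a63, a106], [a202, a42, a143], (M a240 (F (T t817 (L l236 (L l318 (T t4779 (L l318 (T t4781 N))))))))⟩
def e0_63_106__202_42_86 : Ent 4 := ⟨[a0, a63, a106], [a202, a42, a144], (M a12 (F (T t2419 (L l170 (T t2305 (L l56 (T t2415 N)))))))⟩
def e0_63_106__202_42_87 : Ent 4 := ⟨[a0, a63, a106], [a202, a42, a145], (M a240 (F (L l28 (L l318 (T t6587 (L l167 (L l196 (T t6588 (L l318 (T t4781 N))))))))))⟩
def e0_63_106__202_42_88 : Ent 4 := ⟨[a0, a63, a106], [a202, a42, a146], (M a240 (F (L l236 (T t4786 (L l344 (L l488 (T t817 (L l318 (T t4781 N)))))))))⟩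
def e0_63_106__202_42_89 : Ent 4 := ⟨[a0, a63, a106], [a202, a42, a147], (M a240 (F (L l236 (T t4786 (T t817 (L l318 (T t4781 N)))))))⟩
def e0_63_106__202_42_90 : Ent 4 := ⟨[a0, a63, a106], [a202, a42, a149], (M a204 (F (L l167 (T t6655 (L l167 (L l347 (T t6636 (L l56 (L l167 (L l495 (T t6635 (L l56 (L l167 (L l220 (L l495 (T t6637 (K a145 (M a153 (F (T t6638 (L l56 (L l196 (L l220 (L l341 (L l495 (T t6639 (L l196 (L l220 (T t6640 N)))))))))))) (K a153 (M a102 (L l167 (F (T t6641 (L l208 (T t6642 (K a145 (Fr a157 a110 l507 (V t6642)) (K a157 (M a145 (F (L l208 (T t6642 (L l226 (T t6817 (L l236 (L l365 (T t6643 N))))))))) N)))))))) (K a157 (M a153 (F (L l495 (T t6777 (T t6646 (L l56 (L l220 (L l495 (T t6639 (L l220 (T t6640 N))))))))))) (K a98 (M a12 (F (L l26 (T t737 (L l56 (L l236 (L l489 (L l495 (T t8166 (L l56 (L l120 (L l371 (L l378 (T t2415 N)))))))))))))) (K a102 (M a12 (L l495 (F (L l236 (T t752 (L l167 (L l371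 (L l402 (T t765 (L l56 (L l371 (T t2415 (K a196 (M a55 (F (L l56 (L l347 (T t6649 (L l150 (L l220 (T t3459 N)))))))) (K a55 (M a196 (F (T t6650 (L l150 (L l220 (T t3459 N)))))) N)))))))))))))) (K a110 (M a12 (F (L l236 (T t752 (L l138 (L l230 (L l371 (T t8167 (L l56 (L l371 (T t2415 N))))))))))) N))))))))))))))))))))))⟩
def e0_63_106__202_42_91 : Ent 4 := ⟨[a0, a63, a106], [a202, a42, a150], (M a240 (F (L l236 (T t4786 (L l163 (T t817 (L l318 (T t4781 N))))))))⟩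
def e0_63_106__202_42_92 : Ent 4 := ⟨[a0, a63, a106], [a202, a42, a151], (M a240 (F (L l236 (T t4786 (L l163 (T t817 (L l318 (T t4781 N))))))))⟩
def e0_63_106__202_42_93 : Ent 4 := ⟨[a0, a63, a106], [a202, a42, a154], (M a240 (F (L l236 (T t4786 (L l170 (T t6606 (L l318 (T t4781 N))))))))⟩
def e0_63_106__202_42_94 : Ent 4 := ⟨[a0, a63, a106], [a202, a42, a155], (M a240 (F (L l236 (T t4786 (T t817 (L l318 (T t4781 N)))))))⟩
def e0_63_106__202_42_95 : Ent 4 := ⟨[a0, a63, a106], [a202, a42, a159], (M a240 (F (L l236 (T t4786 (L l170 (T t817 (L l318 (L l361 (T t4781 N)))))))))⟩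
def e0_63_106__202_42_96 : Ent 4 := ⟨[a0, a63, a106], [a202, a42, a160], (M a12 (F (T t2419 (T t2305 (L l56 (T t2415 N))))))⟩
def e0_63_106__202_42_97 : Ent 4 := ⟨[a0, a63, a106], [a202, a42, a161], (M a240 (F (L l28 (T t815 (L l172 (L l318 (T t4781 (L l172 (L l381 (T t817 N))))))))))⟩
def e0_63_106__202_42_98 : Ent 4 := ⟨[a0, a63, a106], [a202, a42, a162], (M a240 (F (L l236 (T t4786 (L l172 (T t817 (L l172 (L l318 (T t4781 N)))))))))⟩
def e0_63_106__202_42_99 : Ent 4 := ⟨[a0, a63, a106], [a202, a42, a163], (M a240 (F (L l236 (T t4786 (L l172 (T t817 (L l172 (L l318 (T t4781 N)))))))))⟩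
def e0_63_106__202_42_100 : Ent 4 := ⟨[a0, a63, a106], [a202, a42, a165], (M a12 (F (T t2414 (L l56 (T t2415 (L l199 (T t2305 N)))))))⟩
def e0_63_106__202_42_101 : Ent 4 := ⟨[a0, a63, a106], [a202, a42, a166], (M a240 (F (L l236 (T t4786 (L l202 (T t817 (L l318 (T t4781 N))))))))⟩
def e0_63_106__202_42_102 : Ent 4 := ⟨[a0, a63, a106], [a202, a42, a167], (M a240 (F (L l236 (T t4786 (T t817 (L l318 (T t4781 N)))))))⟩
def e0_63_106__202_42_103 : Ent 4 := ⟨[a0, a63, a106], [a202, a42, a170], (M a240 (F (L l236 (T t4786 (L l220 (T t4780 (L l180 (L l220 (L l282 (L l318 (L l462 (T t6503 (L l28 (L l180 (L l318 (T t7265 N))))))))))))))))⟩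
def e0_63_106__202_42_104 : Ent 4 := ⟨[a0, a63, a106], [a202, a42, a171], (M a240 (F (L l236 (T t4786 (T t817 (L l318 (T t4781 N)))))))⟩
def e0_63_106__202_42_105 : Ent 4 := ⟨[a0, a63, a106], [a202, a42, a175], (M a240 (F (T t4780 (L l236 (L l318 (T t4779 (L l180 (L l318 (L l469 (T t4781 N))))))))))⟩
def e0_63_106__202_42_106 : Ent 4 := ⟨[a0, a63, a106], [a202, a42, a176], (M a240 (F (L l192 (T t817 (L l190 (L l236 (L l318 (T t4779 (L l190 (L l192 (L l318 (T t4781 N))))))))))))⟩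
def e0_63_106__202_42_107 : Ent 4 := ⟨[a0, a63, a106], [a202, a42, a177], (M a240 (F (L l236 (T t4786 (T t817 (L l187 (L l318 (T t4781 N))))))))⟩
def e0_63_106__202_42_108 : Ent 4 := ⟨[a0, a63, a106], [a202, a42, a178], (M a240 (F (L l236 (T t4786 (L l416 (T t817 (L l318 (T t4781 N))))))))⟩
def e0_63_106__202_42_109 : Ent 4 := ⟨[a0, a63, a106], [a202, a42, a179], (M a240 (F (L l236 (T t4786 (T t817 (L l318 (T t4781 N)))))))⟩
def e0_63_106__202_42_110 : Ent 4 := ⟨[a0, a63, a106], [a202, a42, a181], (M a12 (F (T t2414 (L l56 (T t2415 (L l199 (T t2305 N)))))))⟩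
def e0_63_106__202_42_111 : Ent 4 := ⟨[a0, a63, a106], [a202, a42, a182], (M a240 (F (L l28 (T t815 (L l183 (L l318 (T t4781 (T t817 N))))))))⟩
def e0_63_106__202_42_112 : Ent 4 := ⟨[a0, a63, a106], [a202, a42, a183], (M a240 (F (L l236 (T t4786 (L l202 (T t817 (L l183 (L l318 (T t4781 N)))))))))⟩
def e0_63_106__202_42_113 : Ent 4 := ⟨[a0, a63, a106], [a202, a42, a186], (M a240 (F (L l28 (T t815 (L l190 (L l318 (T t4781 (L l440 (T t817 N)))))))))⟩
def e0_63_106__202_42_114 : Ent 4 := ⟨[a0, a63, a106], [a202, a42, a187], (M a240 (F (L l236 (T t4786 (T t817 (L l318 (T t4781 N)))))))⟩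
def e0_63_106__202_42_115 : Ent 4 := ⟨[a0, a63, a106], [a202, a42, a191], (M a240 (F (L l236 (T t4786 (L l220 (T t817 (L l190 (L l318 (T t6501 (L l190 (L l318 (T t6654 N))))))))))))⟩
def e0_63_106__202_42_116 : Ent 4 := ⟨[a0, a63, a106], [a202, a42, a192], (M a204 (L l236 (F (L l489 (T t6655 (L l272 (L l489 (T t6656 (L l296 (L l489 (T t6657 (L l56 (L l489 (T t6658 (L l489 (T t6659 (K a145 (M a207 (L l489 (F (T t8168 (L l484 (T t8169 (K a98 (M a51 (F (T t6754 (L l234 (L l309 (L l318 (T t8170 N))))))) (K a51 (M a98 (F (T t6678 (L l43 (L l234 (L l309 (L l318 (T t8170 N)))))))) N)))))))) (K a85 (M a207 (F (T t8171 (L l123 (L l126 (L l309 (T t8143 (L l484 (L l489 (T t8172 N)))))))))) (K a157 (M a207 (F (L l309 (T t8143 (L l165 (L l230 (L l234 (L l484 (T t8147 (L l165 (L l318 (L l484 (T t6702 N))))))))))))) (K a98 (M a207 (L l489 (F (T t8168 (L l514 (T t8173 (L l96 (L l120 (L l318 (L l484 (T t6702 (K a145 (M a51 (F (T t6754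 (L l234 (L l309 (L l318 (T t8170 N))))))) (K a51 (M a145 (F (T t8171 (L l43 (L l309 (T t8143 (L l96 (L l318 (L l484 (T t7083 N)))))))))) N))))))))))))) (K a102 (M a207 (F (L l514 (T t8173 (L l126 (L l309 (T t8143 (L l318 (L l484 (T t6702 N)))))))))) (K a110 (M a207 (F (T t8168 (L l230 (L l234 (L l484 (L l504 (T t8147 (L l318 (L l484 (T t6702 N))))))))))) (K a51 (M a207 (L l489 (F (T t8168 (L l484 (T t8169 (K a145 (M a98 (F (T t6678 (L l43 (L l234 (L l309 (L l318 (T t8170 N)))))))) (K a98 (M a145 (F (T t8171 (L l43 (L l309 (T t8143 (L l96 (L l318 (L l484 (T t7083 N)))))))))) N)))))))) (K a197 (M a207 (F (L l309 (L l318 (T t8174 (L l484 (L l489 (T t8172 N)))))))) (K a207 (M a197 (F (L l489 (T t6655 (L l272 (L l489 (T t6656 (L l289 (L l296 (L l489 (T t6657 (L l56 (L l489 (T t6658 (L l489 (T t6659 (K a145 (M a102 (L l489 (F (T t6641 (T t6660 (K a98 (Fr a51 a153 l513 (V t6731)) (K a51 (Fr a98 a110 l102 (V t6662)) N)))))))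 (K a85 (M a196 (F (L l347 (L l489 (T t8175 (L l234 (L l331 (L l334 (T t8176 N))))))))) (K a157 (M a252 (F (T t6792 (L l211 (L l230 (L l309 (T t6796 (L l211 (L l309 (T t6476 N)))))))))) (K a98 (M a153 (L l489 (F (T t6777 (L l289 (L l296 (T t6668 (L l26 (L l120 (L l230 (L l378 (T t6669 (K a145 (Fr a51 a102 l513 (V t6670)) (K a51 (M a145 (L l511 (F (T t6671 (L l56 (L l272 (L l334 (L l378 (T t6672 (K a103 (M a155 (F (T t6671 (L l28 (L l97 (L l291 (L l292 (L l441 (L l512 (T t8177 N)))))))))) (K a155 (M a103 (F (T t6671 (L l56 (L l272 (L l334 (L l378 (L l499 (T t6672 N))))))))) N))))))))))) N)))))))))))))) (K a102 (M a153 (F (L l489 (L l506 (T t8178 (L l56 (L l126 (L l272 (L l334 (T t6672 N)))))))))) (K a110 (M a252 (F (T t8179 (L l230 (L l309 (L l399 (T t6796 (L l309 (T t6476 N))))))))) (K a51 (M a85 (L l489 (L l511 (F (T t814 (T t8180 (K a145 (M a98 (L l511 (F (T t6678 (T t814 (K a103 (M a155 (F (T t6678 (T t814 N)))) (K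 a155 (M a103 (F (T t6678 (T t814 N)))) N))))))) (K a98 (M a145 (L l511 (F (T t814 (L l339 (T t8181 (K a103 (M a155 (F (T t814 (L l125 (T t8182 N))))) (K a155 (M a103 (F (T t814 (L l164 (T t8183 N))))) N)))))))) (K a103 (M a155 (L l489 (F (T t814 (T t8180 (K a145 (M a98 (F (T t6678 (T t814 N)))) (K a98 (M a145 (F (T t814 (L l125 (T t8182 N))))) N))))))) (K a155 (M a103 (L l489 (F (T t814 (T t8180 (K a145 (M a98 (F (T t6678 (T t814 N)))) (K a98 (M a145 (F (T t814 (L l164 (T t8183 N))))) N))))))) N)))))))))) N))))))))))))))))))))))) N)))))))))))))))))))))))))⟩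
def e0_63_106__202_42_117 : Ent 4 := ⟨[a0, a63, a106], [a202, a42, a193], (M a240 (F (L l28 (L l318 (T t6587 (L l515 (T t6588 (L l318 (T t4781 N)))))))))⟩
def e0_63_106__202_42_118 : Ent 4 := ⟨[a0, a63, a106], [a202, a42, a194], (M a240 (L l234 (F (L l28 (T t815 (L l318 (L l336 (T t4781 (T t817 (K a198 (M a206 (F (L l28 (T t815 (L l318 (L l336 (T t4781 (T t817 N)))))))) (K a206 (M a198 (F (L l28 (T t815 (L l318 (L l336 (T t4781 (T t817 N)))))))) N)))))))))))⟩
def e0_63_106__202_42_119 : Ent 4 := ⟨[a0, a63, a106], [a202, a42, a195], (M a240 (F (L l28 (T t6683 (L l318 (T t4781 (L l488 (T t817 N))))))))⟩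
def e0_63_106__202_42_120 : Ent 4 := ⟨[a0, a63, a106], [a202, a42, a197], (M a240 (L l236 (F (L l28 (L l318 (T t7338 (L l491 (T t6588 (L l318 (T t4781 (K a192 (M a207 (F (L l318 (L l484 (T t7083 (L l28 (L l282 (L l484 (T t8150 (L l318 (L l339 (T t6482 N)))))))))))) (K a207 (Fr a192 a149 l519 (V t8067)) N))))))))))))⟩
def e0_63_106__202_42_121 : Ent 4 := ⟨[a0, a63, a106], [a202, a42, a198], (M a240 (L l234 (F (L l236 (T t4786 (T t817 (L l318 (T t4781 (K a194 (M a206 (F (L l28 (T t815 (L l318 (L l336 (T t4781 (T t817 N)))))))) (K a206 (M a194 (F (T t587 (L l318 (T t4781 N))))) N))))))))))⟩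
def e0_63_106__202_42_122 : Ent 4 := ⟨[a0, a63, a106], [a202, a42, a199], (M a240 (F (L l236 (T t4786 (T t817 (L l318 (T t4781 N)))))))⟩
def e0_63_106__202_42_123 : Ent 4 := ⟨[a0, a63, a106], [a202, a42, a203], (M a240 (L l230 (F (L l236 (T t4786 (T t817 (L l318 (T t4781 (K a200 (M a201 (F (L l28 (T t815 (L l318 (L l321 (T t4781 (T t817 N)))))))) (K a201 (M a200 (F (T t6747 (L l318 (T t4781 N))))) N))))))))))⟩
def e0_63_106__202_42_124 : Ent 4 := ⟨[a0, a63, a106], [a202, a42, a207], (M a204 (L l236 (F (T t6748 (L l230 (L l326 (T t4770 (T t6655 (K a192 (M a197 (F (L l489 (T t6655 (L l272 (L l489 (T t6656 (L l289 (L l296 (L l489 (T t6657 (L l56 (L l489 (T t6658 (L l489 (T t6659 (K a145 (M a102 (L l489 (F (T t6641 (T t6660 (K a98 (Fr a51 a153 l513 (V t6731)) (K a51 (Fr a98 a110 l102 (V t6662)) N))))))) (K a85 (M a196 (F (L l347 (L l489 (T t8175 (L l234 (L l331 (L l334 (T t8176 N))))))))) (K a157 (M a252 (F (T t6792 (L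 l211 (L l230 (L l309 (T t6796 (L l211 (L l309 (T t6476 N)))))))))) (K a98 (M a153 (L l489 (F (T t6777 (L l289 (L l296 (T t6668 (L l26 (L l120 (L l230 (L l378 (T t6669 (K a145 (Fr a51 a102 l513 (V t6670)) (K a51 (M a145 (L l511 (F (T t6671 (L l56 (L l272 (L l334 (L l378 (T t6672 (K a103 (M a155 (F (T t6671 (L l28 (L l97 (L l291 (L l292 (L l441 (L l512 (T t8177 N)))))))))) (K a155 (M a103 (F (T t6671 (L l56 (L l272 (L l334 (L l378 (L l499 (T t6672 N))))))))) N))))))))))) N)))))))))))))) (K a102 (M a153 (F (L l489 (L l506 (T t8178 (L l56 (L l126 (L l272 (L l334 (T t6672 N)))))))))) (K a110 (M a252 (F (T t8179 (L l230 (L l309 (L l399 (T t6796 (L l309 (T t6476 N))))))))) (K a51 (M a85 (L l489 (L l511 (F (T t814 (T t8180 (K a145 (M a98 (L l511 (F (T t6678 (T t814 (K a103 (M a155 (F (T t6678 (T t814 N)))) (K a155 (M a103 (F (T t6678 (T t814 N)))) N))))))) (K a98 (M a145 (L l511 (F (T t814 (L l339 (T t8181 (K a103 (M a155 (F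 (T t814 (L l125 (T t8182 N))))) (K a155 (M a103 (F (T t814 (L l164 (T t8183 N))))) N)))))))) (K a103 (M a155 (L l489 (F (T t814 (T t8180 (K a145 (M a98 (F (T t6678 (T t814 N)))) (K a98 (M a145 (F (T t814 (L l125 (T t8182 N))))) N))))))) (K a155 (M a103 (L l489 (F (T t814 (T t8180 (K a145 (M a98 (F (T t6678 (T t814 N)))) (K a98 (M a145 (F (T t814 (L l164 (T t8183 N))))) N))))))) N)))))))))) N))))))))))))))))))))))) (K a197 (Fr a192 a149 l519 (V t6761)) N))))))))))⟩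
def e0_63_106__202_42_125 : Ent 4 := ⟨[a0, a63, a106], [a202, a42, a208], (M a12 (F (T t2419 (L l375 (T t2305 (L l56 (T t2415 N)))))))⟩
def e0_63_106__202_42_126 : Ent 4 := ⟨[a0, a63, a106], [a202, a42, a209], (M a240 (F (L l28 (L l318 (T t6587 (L l371 (T t6588 (L l318 (T t4781 N)))))))))⟩
def e0_63_106__202_42_127 : Ent 4 := ⟨[a0, a63, a106], [a202, a42, a210], (M a240 (F (L l236 (T t4786 (T t817 (L l318 (T t4781 N)))))))⟩
def e0_63_106__202_42_128 : Ent 4 := ⟨[a0, a63, a106], [a202, a42, a211], (M a240 (F (L l236 (T t4786 (L l344 (T t817 (L l318 (T t4781 N))))))))⟩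
def e0_63_106__202_42_129 : Ent 4 := ⟨[a0, a63, a106], [a202, a42, a213], (M a240 (F (L l28 (L l318 (T t6587 (L l347 (T t6588 (L l318 (T t4781 N)))))))))⟩
def e0_63_106__202_42_130 : Ent 4 := ⟨[a0, a63, a106], [a202, a42, a214], (M a240 (F (L l236 (T t4786 (T t817 (L l318 (T t4781 N)))))))⟩
def e0_63_106__202_42_131 : Ent 4 := ⟨[a0, a63, a106], [a202, a42, a215], (M a240 (F (L l236 (T t4786 (T t817 (L l318 (T t4781 N)))))))⟩
def e0_63_106__202_42_132 : Ent 4 := ⟨[a0, a63, a106], [a202, a42, a218], (M a240 (L l282 (F (L l236 (T t4786 (T t817 (L l318 (T t4781 (K a234 (M a250 (F (T t8184 (L l28 (L l246 (T t815 (L l54 (L l318 (T t8185 N))))))))) (K a250 (M a234 (F (T t6150 (L l318 (T t6965 (L l318 (L l462 (T t6482 N)))))))) N))))))))))⟩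
def e0_63_106__202_42_133 : Ent 4 := ⟨[a0, a63, a106], [a202, a42, a219], (M a240 (F (L l236 (T t4786 (T t817 (L l318 (T t4781 N)))))))⟩
def e0_63_106__202_42_134 : Ent 4 := ⟨[a0, a63, a106], [a202, a42, a223], (M a240 (F (L l236 (T t4786 (L l368 (T t817 (L l318 (L l361 (T t4781 N)))))))))⟩
def e0_63_106__202_42_135 : Ent 4 := ⟨[a0, a63, a106], [a202, a42, a224], (M a12 (F (T t2416 (L l56 (L l248 (T t2415 (T t2305 N)))))))⟩
def e0_63_106__202_42_136 : Ent 4 := ⟨[a0, a63, a106], [a202, a42, a225], (M a240 (F (L l236 (T t7478 (L l248 (T t817 (L l318 (T t4781 N))))))))⟩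
def e0_63_106__202_42_137 : Ent 4 := ⟨[a0, a63, a106], [a202, a42, a226], (M a240 (F (T t4780 (L l236 (L l272 (L l318 (T t4779 (L l318 (T t4781 N)))))))))⟩
def e0_63_106__202_42_138 : Ent 4 := ⟨[a0, a63, a106], [a202, a42, a227], (M a240 (F (L l236 (T t7478 (L l248 (T t817 (L l318 (T t4781 N))))))))⟩
def e0_63_106__202_42_139 : Ent 4 := ⟨[a0, a63, a106], [a202, a42, a229], (M a240 (F (L l236 (T t7478 (L l256 (T t817 (L l318 (T t4781 N))))))))⟩
def e0_63_106__202_42_140 : Ent 4 := ⟨[a0, a63, a106], [a202, a42, a230], (M a240 (F (L l236 (T t4786 (T t817 (L l318 (T t4781 N)))))))⟩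
def e0_63_106__202_42_141 : Ent 4 := ⟨[a0, a63, a106], [a202, a42, a231], (M a240 (F (L l236 (T t4786 (T t817 (L l318 (T t4781 N)))))))⟩
def e0_63_106__202_42_142 : Ent 4 := ⟨[a0, a63, a106], [a202, a42, a234], (M a240 (L l282 (F (T t4780 (L l236 (L l296 (L l318 (T t4779 (L l318 (T t4781 (K a218 (M a250 (F (T t8184 (L l28 (L l246 (T t815 (L l54 (L l318 (T t8185 N))))))))) (K a250 (M a218 (F (L l318 (T t6965 (L l236 (L l256 (L l296 (T t8186 (L l318 (L l462 (T t6482 N))))))))))) N))))))))))))⟩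
def e0_63_106__202_42_143 : Ent 4 := ⟨[a0, a63, a106], [a202, a42, a235], (M a240 (F (L l236 (T t4786 (T t817 (L l318 (T t4781 N)))))))⟩
def e0_63_106__202_42_144 : Ent 4 := ⟨[a0, a63, a106], [a202, a42, a239], (M a240 (F (L l236 (T t7478 (L l256 (T t817 (L l318 (T t4781 N))))))))⟩
def e0_63_106__202_42_145 : Ent 4 := ⟨[a0, a63, a106], [a202, a42, a240], (M a12 (F (T t2419 (L l298 (T t2305 (L l56 (T t2415 N)))))))⟩
def e0_63_106__202_42_146 : Ent 4 := ⟨[a0, a63, a106], [a202, a42, a241], (M a240 (F (L l236 (T t4786 (T t817 (L l318 (L l443 (T t4781 N))))))))⟩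
def e0_63_106__202_42_147 : Ent 4 := ⟨[a0, a63, a106], [a202, a42, a242], (M a240 (F (L l318 (T t6965 (T t817 (L l318 (T t4781 N)))))))⟩
def e0_63_106__202_42_148 : Ent 4 := ⟨[a0, a63, a106], [a202, a42, a243], (M a240 (F (L l28 (T t6683 (L l318 (T t4781 (L l416 (T t817 N))))))))⟩
def e0_63_106__202_42_149 : Ent 4 := ⟨[a0, a63, a106], [a202, a42, a245], (M a240 (F (L l236 (T t4786 (T t817 (L l318 (L l419 (T t4781 N))))))))⟩
def e0_63_106__202_42_150 : Ent 4 := ⟨[a0, a63, a106], [a202, a42, a246], (M a240 (F (L l236 (T t4786 (T t817 (L l318 (T t4781 N)))))))⟩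
def e0_63_106__202_42_151 : Ent 4 := ⟨[a0, a63, a106], [a202, a42, a247], (M a240 (F (L l236 (T t4786 (T t817 (L l318 (T t4781 N)))))))⟩
def e0_63_106__202_42_152 : Ent 4 := ⟨[a0, a63, a106], [a202, a42, a250], (M a240 (L l282 (F (L l318 (T t6965 (T t817 (L l318 (T t4781 (K a218 (M a234 (F (T t6150 (L l318 (T t6965 (L l318 (L l462 (T t6482 N)))))))) (K a234 (M a218 (F (L l318 (T t6965 (L l236 (L l256 (L l296 (T t8186 (L l318 (L l462 (T t6482 N))))))))))) N))))))))))⟩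
def e0_63_106__202_42_153 : Ent 4 := ⟨[a0, a63, a106], [a202, a42, a251], (M a240 (F (L l236 (T t4786 (T t817 (L l318 (T t4781 N)))))))⟩
def e0_63_106__202_42_154 : Ent 4 := ⟨[a0, a63, a106], [a202, a42, a255], (M a12 (F (T t2419 (L l290 (T t2305 (L l56 (L l439 (T t7149 (L l56 (L l265 (T t7150 N)))))))))))⟩
def b0_63_106__202_42 : Blk 4 := ⟨[0, 63, 106], [202, 42], [1, 2, 3, 5, 6, 7, 10, 11, 15, 16, 17, 18, 19, 21, 22, 23, 26, 27, 31, 32, 33, 34, 35, 37, 38, 39, 43, 47, 48, 49, 50, 51, 53, 54, 55, 58, 59, 64, 65, 66, 67, 69, 70, 71, 74, 75, 79, 80, 81, 82, 83, 85, 86, 87, 90, 91, 95, 96, 97, 98, 99, 101, 102, 103, 107, 111, 112, 113, 114, 115, 117, 118, 119, 122, 123, 127, 128, 129, 130, 131, 133, 134, 135, 138, 139, 143, 144, 145, 146, 147, 149, 150, 151, 154, 155, 159, 160, 161, 162, 163, 165, 166, 167, 170, 171, 175, 176, 177, 178, 179, 181, 182, 183, 186, 187, 191, 192, 193, 194, 195, 197, 198, 199, 203, 207, 208,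 209, 210, 211, 213, 214, 215, 218, 219, 223, 224, 225, 226, 227, 229, 230, 231, 234, 235, 239, 240, 241, 242, 243, 245, 246, 247, 250, 251, 255], [e0_63_106__202_42_0, e0_63_106__202_42_1, e0_63_106__202_42_2, e0_63_106__202_42_3, e0_63_106__202_42_4, e0_63_106__202_42_5, e0_63_106__202_42_6, e0_63_106__202_42_7, e0_63_106__202_42_8, e0_63_106__202_42_9, e0_63_106__202_42_10, e0_63_106__202_42_11, e0_63_106__202_42_12, e0_63_106__202_42_13, e0_63_106__202_42_14, e0_63_106__202_42_15, e0_63_106__202_42_16, e0_63_106__202_42_17, e0_63_106__202_42_18, e0_63_106__202_42_19, e0_63_106__202_42_20, e0_63_106__202_42_21, e0_63_106__202_42_22, e0_63_106__202_42_23, e0_63_106__202_42_24, e0_63_106__202_42_25, e0_63_106__202_42_26, e0_63_106__202_42_27, e0_63_106__202_42_28, e0_63_106__202_42_29, e0_63_106__202_42_30, e0_63_106__202_42_31, e0_63_106__202_42_32, e0_63_106__202_42_33, e0_63_106__202_42_34, e0_63_106__202_42_35,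 e0_63_106__202_42_36, e0_63_106__202_42_37, e0_63_106__202_42_38, e0_63_106__202_42_39, e0_63_106__202_42_40, e0_63_106__202_42_41, e0_63_106__202_42_42, e0_63_106__202_42_43, e0_63_106__202_42_44, e0_63_106__202_42_45, e0_63_106__202_42_46, e0_63_106__202_42_47, e0_63_106__202_42_48, e0_63_106__202_42_49, e0_63_106__202_42_50, e0_63_106__202_42_51, e0_63_106__202_42_52, e0_63_106__202_42_53, e0_63_106__202_42_54, e0_63_106__202_42_55, e0_63_106__202_42_56, e0_63_106__202_42_57, e0_63_106__202_42_58, e0_63_106__202_42_59, e0_63_106__202_42_60, e0_63_106__202_42_61, e0_63_106__202_42_62, e0_63_106__202_42_63, e0_63_106__202_42_64, e0_63_106__202_42_65, e0_63_106__202_42_66, e0_63_106__202_42_67, e0_63_106__202_42_68, e0_63_106__202_42_69, e0_63_106__202_42_70, e0_63_106__202_42_71, e0_63_106__202_42_72, e0_63_106__202_42_73, e0_63_106__202_42_74, e0_63_106__202_42_75, e0_63_106__202_42_76, e0_63_106__202_42_77, e0_63_106__202_42_78,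 e0_63_106__202_42_79, e0_63_106__202_42_80, e0_63_106__202_42_81, e0_63_106__202_42_82, e0_63_106__202_42_83, e0_63_106__202_42_84, e0_63_106__202_42_85, e0_63_106__202_42_86, e0_63_106__202_42_87, e0_63_106__202_42_88, e0_63_106__202_42_89, e0_63_106__202_42_90, e0_63_106__202_42_91, e0_63_106__202_42_92, e0_63_106__202_42_93, e0_63_106__202_42_94, e0_63_106__202_42_95, e0_63_106__202_42_96, e0_63_106__202_42_97, e0_63_106__202_42_98, e0_63_106__202_42_99, e0_63_106__202_42_100, e0_63_106__202_42_101, e0_63_106__202_42_102, e0_63_106__202_42_103, e0_63_106__202_42_104, e0_63_106__202_42_105, e0_63_106__202_42_106, e0_63_106__202_42_107, e0_63_106__202_42_108, e0_63_106__202_42_109, e0_63_106__202_42_110, e0_63_106__202_42_111, e0_63_106__202_42_112, e0_63_106__202_42_113, e0_63_106__202_42_114, e0_63_106__202_42_115, e0_63_106__202_42_116, e0_63_106__202_42_117, e0_63_106__202_42_118, e0_63_106__202_42_119, e0_63_106__202_42_120,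 e0_63_106__202_42_121, e0_63_106__202_42_122, e0_63_106__202_42_123, e0_63_106__202_42_124, e0_63_106__202_42_125, e0_63_106__202_42_126, e0_63_106__202_42_127, e0_63_106__202_42_128, e0_63_106__202_42_129, e0_63_106__202_42_130, e0_63_106__202_42_131, e0_63_106__202_42_132, e0_63_106__202_42_133, e0_63_106__202_42_134, e0_63_106__202_42_135, e0_63_106__202_42_136, e0_63_106__202_42_137, e0_63_106__202_42_138, e0_63_106__202_42_139, e0_63_106__202_42_140, e0_63_106__202_42_141, e0_63_106__202_42_142, e0_63_106__202_42_143, e0_63_106__202_42_144, e0_63_106__202_42_145, e0_63_106__202_42_146, e0_63_106__202_42_147, e0_63_106__202_42_148, e0_63_106__202_42_149, e0_63_106__202_42_150, e0_63_106__202_42_151, e0_63_106__202_42_152, e0_63_106__202_42_153, e0_63_106__202_42_154], by decide +kernel, by decide +kernel⟩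
def e0_63_106__203_42_0 : Ent 4 := ⟨[a0, a63, a106], [a203, a42, a1], (M a48 (F (T t2348 (L l28 (L l230 (T t579 (T t551 N)))))))⟩
def e0_63_106__203_42_1 : Ent 4 := ⟨[a0, a63, a106], [a203, a42, a2], (M a48 (L l66 (F (T t2348 (L l28 (L l230 (T t579 (T t551 (K a22 (M a62 (F (T t2348 (L l22 (L l306 (T t5926 N)))))) (K a62 (M a22 (F (T t2348 (L l28 (L l230 (T t579 (T t551 N))))))) N))))))))))⟩
def e0_63_106__203_42_2 : Ent 4 := ⟨[a0, a63, a106], [a203, a42, a3], (M a48 (F (T t2348 (L l28 (L l230 (T t579 (L l453 (T t551 N))))))))⟩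
def e0_63_106__203_42_3 : Ent 4 := ⟨[a0, a63, a106], [a203, a42, a4], (M a48 (F (T t2348 (L l28 (L l230 (T t579 (T t551 N)))))))⟩
def e0_63_106__203_42_4 : Ent 4 := ⟨[a0, a63, a106], [a203, a42, a5], (M a48 (F (L l235 (T t578 (L l28 (L l47 (L l230 (T t579 (T t551 N)))))))))⟩
def e0_63_106__203_42_5 : Ent 4 := ⟨[a0, a63, a106], [a203, a42, a6], (M a48 (F (T t2348 (L l28 (L l230 (T t579 (T t551 N)))))))⟩
def e0_63_106__203_42_6 : Ent 4 := ⟨[a0, a63, a106], [a203, a42, a7], (M a48 (F (T t2348 (L l28 (L l230 (T t579 (T t551 N)))))))⟩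
def e0_63_106__203_42_7 : Ent 4 := ⟨[a0, a63, a106], [a203, a42, a8], (M a51 (L l56 (L l320 (F (T t7207 (L l26 (L l230 (L l316 (T t7208 (T t7209 (K a73 (M a138 (L l56 (F (T t7209 (L l81 (L l235 (L l338 (L l499 (T t8187 (K a25 (Fr a59 a55 l37 (V t7210)) (K a59 (M a25 (L l499 (F (L l26 (T t7213 (L l32 (L l54 (L l81 (T t8188 (K a155 (M a107 (F (L l26 (T t7213 (L l66 (L l169 (T t8189 N))))))) (K a107 (M a155 (F (T t7215 (L l26 (T t7213 N))))) N))))))))))) N))))))))))) (K a25 (Fr a59 a55 l37 (V t7210)) (K a138 (M a73 (L l56 (F (T t7207 (L l26 (L l230 (L l316 (T t7208 (T t7209 (K a25 (Fr a59 a55 l37 (V t7210)) (K a59 (M a25 (L l499 (F (L l26 (T t7213 (T t7209 (L l26 (L l427 (T t8190 (K a34 (Fr a192 a149 l519 (Fr a12 a38 l74 (Fr a46 a29 l62 (V t8201)))) (K a155 (M a107 (F (L l26 (T t7213 (L l169 (T t7876 N)))))) (K a107 (M a155 (F (L l26 (T t7213 (L l32 (L l54 (L l103 (T t7212 N)))))))) N)))))))))))) N))))))))))) (K a59 (M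 a25 (L l320 (L l499 (F (L l26 (T t7213 (T t7209 (L l26 (L l427 (T t8190 (K a34 (Fr a192 a149 l519 (Fr a12 a38 l74 (Fr a46 a29 l62 (V t8201)))) (K a73 (M a138 (L l499 (F (L l26 (T t7213 (L l32 (L l54 (L l81 (T t8188 (K a155 (M a107 (F (L l26 (T t7213 (L l66 (L l169 (T t8189 N))))))) (K a107 (M a155 (F (T t7215 (L l26 (T t7213 N))))) N))))))))))) (K a138 (M a73 (L l499 (F (L l26 (T t7213 (T t7209 (L l26 (L l427 (T t8190 (K a34 (Fr a192 a149 l519 (Fr a12 a38 l74 (Fr a46 a29 l62 (V t8201)))) (K a155 (M a107 (F (L l26 (T t7213 (L l169 (T t7876 N)))))) (K a107 (M a155 (F (L l26 (T t7213 (L l32 (L l54 (L l103 (T t7212 N)))))))) N)))))))))))) (K a155 (M a107 (L l320 (F (L l26 (T t7213 (L l66 (L l169 (T t8192 (K a73 (M a138 (F (L l26 (T t7213 (L l66 (L l169 (T t8189 N))))))) (K a138 (M a73 (F (L l26 (T t7213 (L l169 (T t7876 N)))))) N)))))))))) (K a107 (M a155 (L l320 (F (L l26 (T t7213 (L l32 (L l54 (L l103 (T t7214 (K a73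 (M a138 (F (T t7215 (L l26 (T t7213 N))))) (K a138 (M a73 (F (L l26 (T t7213 (L l32 (L l54 (L l103 (T t7212 N)))))))) N))))))))))) N))))))))))))))) N))))))))))))))⟩
def e0_63_106__203_42_8 : Ent 4 := ⟨[a0, a63, a106], [a203, a42, a9], (M a48 (F (T t2348 (L l28 (L l230 (T t579 (T t551 N)))))))⟩
def e0_63_106__203_42_9 : Ent 4 := ⟨[a0, a63, a106], [a203, a42, a10], (M a48 (L l54 (F (T t2348 (L l28 (L l230 (L l318 (T t579 (T t551 (K a26 (Fr a58 a53 l38 (V t6446)) (K a58 (M a26 (F (L l28 (T t4144 (T t551 (L l28 (L l426 (T t6447 (K a32 (Fr a192 a149 l519 (Fr a15 a37 l75 (Fr a47 a31 l61 (V t6528)))) N))))))))) N)))))))))))⟩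
def e0_63_106__203_42_10 : Ent 4 := ⟨[a0, a63, a106], [a203, a42, a11], (M a48 (L l319 (F (T t2348 (L l28 (L l230 (T t579 (T t551 (K a75 (M a139 (F (T t2348 (L l28 (L l230 (T t579 (T t551 N))))))) (K a139 (M a75 (F (T t2348 (L l28 (L l230 (T t579 (T t551 N))))))) N))))))))))⟩
def e0_63_106__203_42_11 : Ent 4 := ⟨[a0, a63, a106], [a203, a42, a12], (M a48 (F (T t2348 (L l28 (L l230 (T t579 (L l478 (T t551 N))))))))⟩
def e0_63_106__203_42_12 : Ent 4 := ⟨[a0, a63, a106], [a203, a42, a13], (M a48 (F (T t2348 (L l28 (L l230 (T t579 (T t551 N)))))))⟩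
def e0_63_106__203_42_13 : Ent 4 := ⟨[a0, a63, a106], [a203, a42, a14], (M a48 (F (T t2348 (L l28 (L l230 (T t579 (T t551 N)))))))⟩
def e0_63_106__203_42_14 : Ent 4 := ⟨[a0, a63, a106], [a203, a42, a15], (M a48 (F (T t2348 (L l28 (L l230 (T t579 (L l483 (T t551 N))))))))⟩
def e0_63_106__203_42_15 : Ent 4 := ⟨[a0, a63, a106], [a203, a42, a16], (M a240 (F (T t4786 (L l340 (T t4780 (T t4781 N))))))⟩
def e0_63_106__203_42_16 : Ent 4 := ⟨[a0, a63, a106], [a203, a42, a17], (M a48 (F (T t2348 (L l28 (L l230 (T t579 (T t551 N)))))))⟩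
def e0_63_106__203_42_17 : Ent 4 := ⟨[a0, a63, a106], [a203, a42, a18], (M a48 (F (T t2348 (L l28 (L l230 (T t579 (T t551 N)))))))⟩
def e0_63_106__203_42_18 : Ent 4 := ⟨[a0, a63, a106], [a203, a42, a19], (M a48 (F (T t2348 (L l28 (L l230 (L l367 (T t579 (T t551 N))))))))⟩
def e0_63_106__203_42_19 : Ent 4 := ⟨[a0, a63, a106], [a203, a42, a20], (M a48 (F (T t2348 (L l28 (L l230 (T t579 (T t551 N)))))))⟩
def e0_63_106__203_42_20 : Ent 4 := ⟨[a0, a63, a106], [a203, a42, a21], (M a48 (F (L l54 (T t777 (L l347 (T t551 (L l28 (L l47 (L l230 (T t579 N))))))))))⟩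
def e0_63_106__203_42_21 : Ent 4 := ⟨[a0, a63, a106], [a203, a42, a22], (M a48 (L l66 (F (T t2348 (L l28 (L l230 (T t579 (T t551 (K a2 (M a62 (F (T t2348 (L l22 (L l306 (T t5926 N)))))) (K a62 (M a2 (F (T t2348 (L l19 (L l28 (T t342 N)))))) N))))))))))⟩
def e0_63_106__203_42_22 : Ent 4 := ⟨[a0, a63, a106], [a203, a42, a23], (M a48 (F (L l230 (T t309 (L l351 (T t551 (L l28 (L l230 (T t579 N)))))))))⟩
def e0_63_106__203_42_23 : Ent 4 := ⟨[a0, a63, a106], [a203, a42, a24], (M a48 (F (T t2348 (L l28 (L l230 (T t579 (T t551 N)))))))⟩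
def e0_63_106__203_42_24 : Ent 4 := ⟨[a0, a63, a106], [a203, a42, a25], (M a48 (L l56 (F (T t2348 (L l28 (L l230 (T t579 (T t551 (K a8 (M a59 (L l320 (F (T t2348 (L l15 (T t4670 (K a73 (M a138 (F (T t2348 (L l26 (T t8193 N))))) (K a138 (M a73 (F (T t2348 (L l19 (L l26 (L l28 (T t8194 N))))))) N)))))))) (K a59 (M a8 (L l499 (F (T t2348 (L l19 (L l28 (T t4700 (K a155 (M a107 (F (T t2348 (L l19 (L l28 (T t4700 N)))))) (K a107 (M a155 (F (L l230 (T t3405 (L l19 (L l28 (T t4700 N))))))) N))))))))) N))))))))))⟩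
def e0_63_106__203_42_25 : Ent 4 := ⟨[a0, a63, a106], [a203, a42, a26], (M a48 (L l54 (F (T t2348 (L l28 (L l230 (T t579 (T t551 (K a10 (Fr a58 a53 l38 (V t6446)) (K a58 (M a10 (F (L l28 (T t2289 (L l230 (L l235 (T t4033 (L l18 (L l354 (T t6449 (L l18 (L l426 (T t6450 N))))))))))))) N))))))))))⟩
def e0_63_106__203_42_26 : Ent 4 := ⟨[a0, a63, a106], [a203, a42, a27], (M a48 (F (T t2348 (L l28 (L l230 (T t579 (T t551 N)))))))⟩
def e0_63_106__203_42_27 : Ent 4 := ⟨[a0, a63, a106], [a203, a42, a28], (M a48 (F (T t2348 (L l28 (L l230 (L l362 (T t579 (T t551 N))))))))⟩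
def e0_63_106__203_42_28 : Ent 4 := ⟨[a0, a63, a106], [a203, a42, a29], (M a48 (F (L l230 (T t309 (L l371 (T t551 (L l28 (L l230 (T t579 N)))))))))⟩
def e0_63_106__203_42_29 : Ent 4 := ⟨[a0, a63, a106], [a203, a42, a30], (M a48 (F (T t2348 (L l28 (L l230 (T t579 (T t551 N)))))))⟩
def e0_63_106__203_42_30 : Ent 4 := ⟨[a0, a63, a106], [a203, a42, a31], (M a48 (F (L l230 (T t309 (L l375 (T t551 (L l28 (L l230 (L l361 (T t579 N))))))))))⟩
def e0_63_106__203_42_31 : Ent 4 := ⟨[a0, a63, a106], [a203, a42, a32], (M a240 (L l28 (F (T t6609 (L l376 (T t6588 (L l376 (T t4781 (K a37 (M a47 (F (T t6602 (T t6698 (T t6604 N))))) (K a47 (M a37 (F (L l376 (T t6588 (L l54 (T t6699 (L l376 (T t4781 N)))))))) N))))))))))⟩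
def e0_63_106__203_42_32 : Ent 4 := ⟨[a0, a63, a106], [a203, a42, a33], (M a48 (F (T t2348 (L l20 (L l28 (L l230 (T t579 (T t551 N))))))))⟩
def e0_63_106__203_42_33 : Ent 4 := ⟨[a0, a63, a106], [a203, a42, a34], (M a48 (L l26 (F (T t2348 (L l20 (L l28 (L l230 (T t579 (T t551 (K a38 (M a46 (F (T t2348 (L l56 (L l320 (L l378 (T t4030 N))))))) (K a46 (M a38 (F (T t2348 (L l20 (L l28 (L l230 (T t579 (T t551 N)))))))) N)))))))))))⟩
def e0_63_106__203_42_34 : Ent 4 := ⟨[a0, a63, a106], [a203, a42, a35], (M a48 (F (T t2348 (L l20 (L l28 (L l230 (T t579 (T t551 N))))))))⟩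
def e0_63_106__203_42_35 : Ent 4 := ⟨[a0, a63, a106], [a203, a42, a36], (M a48 (F (T t2348 (L l24 (L l28 (L l230 (T t579 (T t551 N))))))))⟩
def e0_63_106__203_42_36 : Ent 4 := ⟨[a0, a63, a106], [a203, a42, a37], (M a240 (L l28 (F (T t4786 (T t6606 (T t4781 (K a32 (M a47 (F (T t6602 (T t6698 (T t6604 N))))) (K a47 (M a32 (F (T t6607 (T t4781 (L l54 (T t6608 N)))))) N))))))))⟩
def e0_63_106__203_42_37 : Ent 4 := ⟨[a0, a63, a106], [a203, a42, a38], (M a48 (L l26 (F (T t2348 (L l28 (L l230 (T t579 (T t551 (K a34 (M a46 (F (T t2348 (L l56 (L l320 (L l378 (T t4030 N))))))) (K a46 (M a34 (F (T t2348 (L l29 (L l66 (T t6453 N)))))) N))))))))))⟩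
def e0_63_106__203_42_38 : Ent 4 := ⟨[a0, a63, a106], [a203, a42, a39], (M a48 (F (T t2348 (L l28 (L l230 (T t579 (T t551 N)))))))⟩
def e0_63_106__203_42_39 : Ent 4 := ⟨[a0, a63, a106], [a203, a42, a40], (M a48 (L l22 (F (T t2348 (L l24 (L l28 (L l230 (T t579 (T t551 (K a41 (M a43 (F (T t8195 (L l24 (L l28 (L l230 (T t579 N))))))) (K a43 (M a41 (F (T t2348 (L l24 (L l28 (L l230 (T t579 (T t551 N)))))))) N)))))))))))⟩
def e0_63_106__203_42_40 : Ent 4 := ⟨[a0, a63, a106], [a203, a42, a41], (M a48 (L l22 (F (T t2348 (L l28 (L l230 (T t579 (T t551 (K a40 (M a43 (F (T t8195 (L l24 (L l28 (L l230 (T t579 N))))))) (K a43 (M a40 (F (T t2348 (L l29 (L l69 (T t6452 N)))))) N))))))))))⟩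
def e0_63_106__203_42_41 : Ent 4 := ⟨[a0, a63, a106], [a203, a42, a43], (M a48 (L l22 (F (T t2348 (L l28 (L l230 (T t579 (T t551 (K a40 (M a41 (F (T t2348 (L l24 (L l28 (L l230 (T t579 (T t551 N)))))))) (K a41 (M a40 (F (T t2348 (L l29 (L l69 (T t6452 N)))))) N))))))))))⟩
def e0_63_106__203_42_42 : Ent 4 := ⟨[a0, a63, a106], [a203, a42, a44], (M a48 (F (T t2348 (L l24 (L l28 (L l230 (T t579 (T t551 N))))))))⟩
def e0_63_106__203_42_43 : Ent 4 := ⟨[a0, a63, a106], [a203, a42, a45], (M a48 (F (T t2348 (L l28 (L l230 (T t579 (T t551 N)))))))⟩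
def e0_63_106__203_42_44 : Ent 4 := ⟨[a0, a63, a106], [a203, a42, a46], (M a48 (L l26 (F (T t2348 (L l28 (L l230 (T t579 (T t551 (K a34 (M a38 (F (T t2348 (L l20 (L l28 (L l230 (T t579 (T t551 N)))))))) (K a38 (M a34 (F (T t2348 (L l29 (L l66 (T t6453 N)))))) N))))))))))⟩
def e0_63_106__203_42_45 : Ent 4 := ⟨[a0, a63, a106], [a203, a42, a47], (M a12 (L l28 (F (T t2304 (T t2305 (L l56 (L l320 (T t2415 (K a32 (M a37 (F (T t2416 (L l56 (L l320 (T t2415 (T t2305 N))))))) (K a37 (M a32 (F (T t2304 (L l51 (L l56 (L l320 (T t682 N))))))) N))))))))))⟩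
def e0_63_106__203_42_46 : Ent 4 := ⟨[a0, a63, a106], [a203, a42, a48], (M a12 (F (T t2419 (L l508 (T t2305 (L l56 (L l320 (T t2415 N))))))))⟩
def e0_63_106__203_42_47 : Ent 4 := ⟨[a0, a63, a106], [a203, a42, a49], (M a48 (F (L l54 (T t777 (T t551 (L l28 (L l35 (L l230 (T t579 N)))))))))⟩
def e0_63_106__203_42_48 : Ent 4 := ⟨[a0, a63, a106], [a203, a42, a50], (M a48 (F (T t2348 (L l28 (L l230 (T t579 (T t551 N)))))))⟩
def e0_63_106__203_42_49 : Ent 4 := ⟨[a0, a63, a106], [a203, a42, a51], (M a48 (F (T t2348 (L l28 (L l230 (T t579 (L l417 (T t551 N))))))))⟩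
def e0_63_106__203_42_50 : Ent 4 := ⟨[a0, a63, a106], [a203, a42, a52], (M a48 (F (L l54 (T t777 (T t551 (L l28 (L l31 (L l230 (T t579 N)))))))))⟩
def e0_63_106__203_42_51 : Ent 4 := ⟨[a0, a63, a106], [a203, a42, a53], (M a240 (F (T t4786 (L l491 (T t817 (L l419 (T t4781 N)))))))⟩
def e0_63_106__203_42_52 : Ent 4 := ⟨[a0, a63, a106], [a203, a42, a54], (M a48 (F (T t551 (L l31 (L l230 (T t585 (L l28 (L l31 (L l230 (T t579 N))))))))))⟩
def e0_63_106__203_42_53 : Ent 4 := ⟨[a0, a63, a106], [a203, a42, a55], (M a48 (F (L l54 (T t777 (L l495 (T t551 (L l28 (L l31 (L l230 (T t579 N))))))))))⟩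
def e0_63_106__203_42_54 : Ent 4 := ⟨[a0, a63, a106], [a203, a42, a56], (M a48 (L l500 (F (T t2348 (L l28 (L l230 (T t579 (T t551 (K a105 (M a154 (F (T t6900 (L l101 (T t6955 N))))) (K a154 (M a105 (F (L l496 (T t3416 (L l170 (L l227 (T t551 (L l496 (T t6813 N))))))))) N))))))))))⟩
def e0_63_106__203_42_55 : Ent 4 := ⟨[a0, a63, a106], [a203, a42, a57], (M a48 (F (T t551 (L l35 (L l230 (T t585 (L l28 (L l35 (L l230 (T t579 N))))))))))⟩
def e0_63_106__203_42_56 : Ent 4 := ⟨[a0, a63, a106], [a203, a42, a58], (M a240 (L l54 (F (T t4779 (T t817 (T t4781 (K a10 (M a26 (F (L l28 (T t815 (L l318 (T t4781 (T t817 N))))))) (K a26 (M a10 (F (T t6609 (T t6610 (L l18 (T t6611 N)))))) N))))))))⟩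
def e0_63_106__203_42_57 : Ent 4 := ⟨[a0, a63, a106], [a203, a42, a59], (M a107 (L l56 (F (T t7438 (T t7439 (T t7440 (L l500 (T t8196 (K a8 (M a25 (L l320 (F (T t7438 (T t7439 (T t7440 (L l460 (L l500 (T t8196 (K a73 (M a138 (F (T t7438 (L l32 (L l54 (L l81 (T t8188 (T t7439 N)))))))) (K a138 (M a73 (F (T t7438 (L l158 (T t7444 (L l160 (T t7440 (L l427 (T t7445 N))))))))) N))))))))))) (K a25 (M a8 (F (T t7438 (L l15 (L l353 (L l427 (T t7446 (T t7439 N)))))))) N))))))))))⟩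
def e0_63_106__203_42_58 : Ent 4 := ⟨[a0, a63, a106], [a203, a42, a60], (M a48 (F (T t2348 (L l28 (L l230 (T t579 (L l442 (T t551 N))))))))⟩
def e0_63_106__203_42_59 : Ent 4 := ⟨[a0, a63, a106], [a203, a42, a61], (M a48 (F (L l54 (T t777 (L l515 (T t551 (L l28 (L l35 (L l230 (T t579 N))))))))))⟩
def e0_63_106__203_42_60 : Ent 4 := ⟨[a0, a63, a106], [a203, a42, a62], (M a48 (L l66 (F (T t2348 (L l28 (L l230 (T t579 (T t551 (K a2 (M a22 (F (T t2348 (L l28 (L l230 (T t579 (T t551 N))))))) (K a22 (M a2 (F (T t2348 (L l19 (L l28 (T t342 N)))))) N))))))))))⟩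
def e0_63_106__203_42_61 : Ent 4 := ⟨[a0, a63, a106], [a203, a42, a64], (M a48 (F (T t2348 (L l28 (L l230 (T t6594 (L l28 (L l235 (T t6455 (L l28 (L l84 (L l230 (T t6457 (L l54 (T t6458 (K a207 (Fr a192 a149 l519 (Fr a96 a144 l484 (Fr a101 a111 l104 (Fr a32 a16 l40 (V t6459))))) N))))))))))))))))⟩
def e0_63_106__203_42_62 : Ent 4 := ⟨[a0, a63, a106], [a203, a42, a65], (M a48 (F (T t2348 (L l28 (L l76 (L l230 (T t579 (L l76 (T t551 N)))))))))⟩
def e0_63_106__203_42_63 : Ent 4 := ⟨[a0, a63, a106], [a203, a42, a66], (M a48 (F (T t2348 (L l28 (L l76 (L l230 (T t579 (L l76 (T t551 N)))))))))⟩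
def e0_63_106__203_42_64 : Ent 4 := ⟨[a0, a63, a106], [a203, a42, a67], (M a48 (F (T t2348 (L l28 (L l76 (L l230 (T t579 (L l76 (T t551 N)))))))))⟩
def e0_63_106__203_42_65 : Ent 4 := ⟨[a0, a63, a106], [a203, a42, a68], (M a48 (F (T t2348 (L l28 (L l80 (L l230 (T t579 (L l80 (T t551 N)))))))))⟩
def e0_63_106__203_42_66 : Ent 4 := ⟨[a0, a63, a106], [a203, a42, a69], (M a48 (F (T t2348 (L l28 (L l84 (L l230 (T t579 (L l84 (T t551 N)))))))))⟩
def e0_63_106__203_42_67 : Ent 4 := ⟨[a0, a63, a106], [a203, a42, a70], (M a48 (F (T t2348 (L l28 (L l230 (T t579 (T t551 N)))))))⟩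
def e0_63_106__203_42_68 : Ent 4 := ⟨[a0, a63, a106], [a203, a42, a71], (M a48 (F (T t2348 (L l28 (L l230 (T t579 (T t551 N)))))))⟩
def e0_63_106__203_42_69 : Ent 4 := ⟨[a0, a63, a106], [a203, a42, a72], (M a48 (F (T t2348 (L l28 (L l80 (L l230 (T t579 (L l80 (T t551 N)))))))))⟩
def e0_63_106__203_42_70 : Ent 4 := ⟨[a0, a63, a106], [a203, a42, a73], (M a51 (L l320 (F (T t7207 (L l26 (L l230 (T t7208 (T t7209 (K a8 (M a138 (L l56 (F (T t7209 (L l81 (L l235 (L l338 (L l499 (T t8187 (K a25 (Fr a59 a55 l37 (V t7210)) (K a59 (M a25 (L l499 (F (L l26 (T t7213 (L l32 (L l54 (L l81 (T t8188 (K a155 (M a107 (F (L l26 (T t7213 (L l66 (L l169 (T t8189 N))))))) (K a107 (M a155 (F (T t7215 (L l26 (T t7213 N))))) N))))))))))) N))))))))))) (K a138 (M a8 (F (T t7207 (L l129 (T t8197 (L l26 (L l230 (T t7208 N)))))))) N))))))))))⟩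
def e0_63_106__203_42_71 : Ent 4 := ⟨[a0, a63, a106], [a203, a42, a74], (M a48 (F (T t2348 (L l28 (L l84 (L l230 (L l318 (T t579 (L l84 (T t551 N))))))))))⟩
def e0_63_106__203_42_72 : Ent 4 := ⟨[a0, a63, a106], [a203, a42, a75], (M a48 (L l319 (F (T t2348 (L l28 (L l230 (T t579 (T t551 (K a11 (M a139 (F (T t2348 (L l28 (L l230 (T t579 (T t551 N))))))) (K a139 (M a11 (F (T t2348 (L l28 (L l230 (T t579 (T t551 N))))))) N))))))))))⟩
def e0_63_106__203_42_73 : Ent 4 := ⟨[a0, a63, a106], [a203, a42, a76], (M a48 (F (T t2348 (L l28 (L l80 (L l230 (T t579 (L l80 (T t551 N)))))))))⟩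
def e0_63_106__203_42_74 : Ent 4 := ⟨[a0, a63, a106], [a203, a42, a77], (M a48 (F (T t2348 (L l28 (L l230 (T t579 (T t551 N)))))))⟩
def e0_63_106__203_42_75 : Ent 4 := ⟨[a0, a63, a106], [a203, a42, a78], (M a48 (F (T t2348 (L l28 (L l230 (T t579 (T t551 N)))))))⟩
def e0_63_106__203_42_76 : Ent 4 := ⟨[a0, a63, a106], [a203, a42, a79], (M a48 (F (L l230 (T t309 (L l84 (T t551 (L l28 (L l84 (L l230 (T t579 N))))))))))⟩
def e0_63_106__203_42_77 : Ent 4 := ⟨[a0, a63, a106], [a203, a42, a80], (M a12 (F (T t2304 (L l116 (T t2305 (L l56 (L l116 (L l320 (T t2415 N)))))))))⟩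
def e0_63_106__203_42_78 : Ent 4 := ⟨[a0, a63, a106], [a203, a42, a81], (M a48 (F (T t2348 (L l28 (L l120 (L l230 (T t579 (L l120 (T t551 N)))))))))⟩
def e0_63_106__203_42_79 : Ent 4 := ⟨[a0, a63, a106], [a203, a42, a82], (M a48 (F (T t2348 (L l28 (L l230 (T t579 (L l453 (T t551 N))))))))⟩
def e0_63_106__203_42_80 : Ent 4 := ⟨[a0, a63, a106], [a203, a42, a83], (M a48 (F (T t2348 (L l28 (L l230 (T t579 (T t551 N)))))))⟩
def e0_63_106__203_42_81 : Ent 4 := ⟨[a0, a63, a106], [a203, a42, a84], (M a48 (F (T t2348 (L l28 (L l140 (L l230 (T t579 (L l140 (T t551 N)))))))))⟩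
def e0_63_106__203_42_82 : Ent 4 := ⟨[a0, a63, a106], [a203, a42, a85], (M a48 (F (L l230 (T t309 (L l347 (T t551 (L l54 (T t777 (L l230 (L l235 (L l368 (T t6465 (K a192 (M a240 (F (T t6230 (L l230 (L l236 (T t6471 (L l54 (L l230 (L l236 (L l339 (T t6472 (L l339 (T t6473 N))))))))))))) N)))))))))))))⟩
def e0_63_106__203_42_83 : Ent 4 := ⟨[a0, a63, a106], [a203, a42, a86], (M a48 (F (L l230 (T t309 (L l351 (T t551 (L l28 (L l230 (T t579 N)))))))))⟩
def e0_63_106__203_42_84 : Ent 4 := ⟨[a0, a63, a106], [a203, a42, a87], (M a48 (F (T t2348 (L l28 (L l230 (L l367 (T t579 (T t551 N))))))))⟩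
def e0_63_106__203_42_85 : Ent 4 := ⟨[a0, a63, a106], [a203, a42, a88], (M a48 (F (T t2348 (L l28 (L l230 (T t579 (L l478 (T t551 N))))))))⟩
def e0_63_106__203_42_86 : Ent 4 := ⟨[a0, a63, a106], [a203, a42, a89], (M a48 (F (L l230 (T t309 (L l371 (T t551 (L l28 (L l230 (T t579 N)))))))))⟩
def e0_63_106__203_42_87 : Ent 4 := ⟨[a0, a63, a106], [a203, a42, a90], (M a48 (F (L l230 (T t309 (L l375 (L l483 (T t551 (L l28 (L l230 (T t579 N))))))))))⟩
def e0_63_106__203_42_88 : Ent 4 := ⟨[a0, a63, a106], [a203, a42, a91], (M a48 (F (T t2348 (L l28 (L l230 (T t579 (T t551 N)))))))⟩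
def e0_63_106__203_42_89 : Ent 4 := ⟨[a0, a63, a106], [a203, a42, a92], (M a48 (F (T t2348 (L l28 (L l230 (T t579 (T t551 N)))))))⟩
def e0_63_106__203_42_90 : Ent 4 := ⟨[a0, a63, a106], [a203, a42, a93], (M a48 (F (T t2348 (L l28 (L l230 (L l362 (T t579 (T t551 N))))))))⟩
def e0_63_106__203_42_91 : Ent 4 := ⟨[a0, a63, a106], [a203, a42, a94], (M a48 (F (T t2348 (L l28 (L l230 (T t579 (T t551 N)))))))⟩
def e0_63_106__203_42_92 : Ent 4 := ⟨[a0, a63, a106], [a203, a42, a95], (M a48 (F (L l230 (T t309 (T t551 (L l28 (L l230 (L l361 (T t579 N)))))))))⟩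
def e0_63_106__203_42_93 : Ent 4 := ⟨[a0, a63, a106], [a203, a42, a96], (M a12 (F (T t2414 (L l56 (L l116 (L l320 (T t2415 (L l116 (T t2305 N)))))))))⟩
def e0_63_106__203_42_94 : Ent 4 := ⟨[a0, a63, a106], [a203, a42, a97], (M a48 (F (T t2348 (L l28 (L l230 (L l380 (T t579 (L l96 (T t551 N)))))))))⟩
def e0_63_106__203_42_95 : Ent 4 := ⟨[a0, a63, a106], [a203, a42, a98], (M a48 (F (T t2348 (L l28 (L l120 (L l230 (T t579 (L l96 (L l120 (T t551 N))))))))))⟩
def e0_63_106__203_42_96 : Ent 4 := ⟨[a0, a63, a106], [a203, a42, a99], (M a48 (F (L l230 (T t309 (L l96 (T t551 (L l28 (L l230 (T t579 N)))))))))⟩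
def e0_63_106__203_42_97 : Ent 4 := ⟨[a0, a63, a106], [a203, a42, a100], (M a48 (F (T t2348 (L l28 (L l230 (L l400 (T t579 (L l100 (T t551 N)))))))))⟩
def e0_63_106__203_42_98 : Ent 4 := ⟨[a0, a63, a106], [a203, a42, a101], (M a240 (F (T t4779 (L l491 (L l512 (T t817 (T t4781 N)))))))⟩
def e0_63_106__203_42_99 : Ent 4 := ⟨[a0, a63, a106], [a203, a42, a102], (M a48 (F (L l230 (T t309 (L l495 (T t551 (L l28 (L l230 (T t579 N)))))))))⟩
def e0_63_106__203_42_100 : Ent 4 := ⟨[a0, a63, a106], [a203, a42, a103], (M a48 (F (L l230 (T t309 (T t551 (L l28 (L l230 (T t579 N))))))))⟩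
def e0_63_106__203_42_101 : Ent 4 := ⟨[a0, a63, a106], [a203, a42, a104], (M a48 (F (T t2348 (L l28 (L l140 (L l230 (T t579 (L l100 (L l140 (T t551 N))))))))))⟩
def e0_63_106__203_42_102 : Ent 4 := ⟨[a0, a63, a106], [a203, a42, a105], (M a48 (L l500 (F (L l230 (T t309 (L l515 (T t551 (L l28 (L l230 (T t579 (K a56 (M a154 (F (T t6900 (L l101 (T t6955 N))))) (K a154 (M a56 (F (L l56 (L l320 (T t133 (L l170 (L l227 (L l515 (T t551 (L l56 (L l499 (T t134 N)))))))))))) N))))))))))))⟩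
def e0_63_106__203_42_103 : Ent 4 := ⟨[a0, a63, a106], [a203, a42, a107], (M a51 (L l499 (F (T t7207 (L l26 (L l230 (T t7208 (T t7209 (K a155 (Fr a59 a55 l37 (V t7210)) (K a59 (M a155 (L l56 (F (T t7209 (L l103 (L l320 (T t7211 (L l32 (L l54 (L l103 (T t7212 (K a8 (M a25 (L l320 (F (L l26 (T t7213 (L l32 (L l54 (L l103 (T t7214 (K a73 (M a138 (F (T t7215 (L l26 (T t7213 N))))) (K a138 (M a73 (F (L l26 (T t7213 (L l32 (L l54 (L l103 (T t7212 N)))))))) N))))))))))) (K a25 (M a8 (F (L l15 (T t7217 (L l103 (T t7211 N)))))) N))))))))))))) N))))))))))⟩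
def e0_63_106__203_42_104 : Ent 4 := ⟨[a0, a63, a106], [a203, a42, a108], (M a48 (F (L l230 (T t309 (L l100 (T t551 (L l28 (L l230 (T t579 N)))))))))⟩
def e0_63_106__203_42_105 : Ent 4 := ⟨[a0, a63, a106], [a203, a42, a109], (M a48 (F (L l230 (T t309 (T t551 (L l28 (L l230 (T t579 N))))))))⟩
def e0_63_106__203_42_106 : Ent 4 := ⟨[a0, a63, a106], [a203, a42, a110], (M a48 (F (L l230 (T t309 (T t551 (L l28 (L l230 (T t579 N))))))))⟩
def e0_63_106__203_42_107 : Ent 4 := ⟨[a0, a63, a106], [a203, a42, a111], (M a240 (F (T t4779 (T t817 (L l137 (T t4781 N))))))⟩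
def e0_63_106__203_42_108 : Ent 4 := ⟨[a0, a63, a106], [a203, a42, a112], (M a48 (F (T t2348 (L l28 (L l116 (T t6462 (L l28 (L l230 (T t6463 N)))))))))⟩
def e0_63_106__203_42_109 : Ent 4 := ⟨[a0, a63, a106], [a203, a42, a113], (M a48 (F (T t2348 (L l28 (L l230 (T t579 (T t551 N)))))))⟩
def e0_63_106__203_42_110 : Ent 4 := ⟨[a0, a63, a106], [a203, a42, a114], (M a48 (F (T t2348 (L l28 (L l230 (T t579 (L l417 (T t551 N))))))))⟩
def e0_63_106__203_42_111 : Ent 4 := ⟨[a0, a63, a106], [a203, a42, a115], (M a48 (F (T t2348 (L l28 (L l120 (L l230 (T t579 (L l120 (T t551 N)))))))))⟩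
def e0_63_106__203_42_112 : Ent 4 := ⟨[a0, a63, a106], [a203, a42, a116], (M a48 (F (T t2348 (L l28 (L l230 (T t579 (T t551 N)))))))⟩
def e0_63_106__203_42_113 : Ent 4 := ⟨[a0, a63, a106], [a203, a42, a117], (M a48 (F (L l54 (T t777 (T t551 (L l28 (L l230 (L l419 (T t579 N)))))))))⟩
def e0_63_106__203_42_114 : Ent 4 := ⟨[a0, a63, a106], [a203, a42, a118], (M a48 (F (T t2348 (L l28 (L l230 (T t579 (T t551 N)))))))⟩
def e0_63_106__203_42_115 : Ent 4 := ⟨[a0, a63, a106], [a203, a42, a119], (M a48 (F (T t2348 (L l28 (L l230 (T t579 (T t551 N)))))))⟩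
def e0_63_106__203_42_116 : Ent 4 := ⟨[a0, a63, a106], [a203, a42, a120], (M a48 (F (T t2348 (L l28 (L l230 (T t579 (L l442 (T t551 N))))))))⟩
def e0_63_106__203_42_117 : Ent 4 := ⟨[a0, a63, a106], [a203, a42, a121], (M a48 (F (T t2348 (L l28 (L l230 (T t579 (T t551 N)))))))⟩
def e0_63_106__203_42_118 : Ent 4 := ⟨[a0, a63, a106], [a203, a42, a122], (M a48 (F (T t2348 (L l28 (L l230 (T t579 (T t551 N)))))))⟩
def e0_63_106__203_42_119 : Ent 4 := ⟨[a0, a63, a106], [a203, a42, a123], (M a48 (F (T t2348 (L l28 (L l230 (T t579 (T t551 N)))))))⟩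
def e0_63_106__203_42_120 : Ent 4 := ⟨[a0, a63, a106], [a203, a42, a124], (M a48 (F (T t2348 (L l28 (L l140 (L l230 (T t579 (L l140 (T t551 N)))))))))⟩
def e0_63_106__203_42_121 : Ent 4 := ⟨[a0, a63, a106], [a203, a42, a125], (M a48 (F (T t2348 (L l28 (L l230 (T t579 (T t551 N)))))))⟩
def e0_63_106__203_42_122 : Ent 4 := ⟨[a0, a63, a106], [a203, a42, a126], (M a48 (F (T t2348 (L l28 (L l230 (T t579 (T t551 N)))))))⟩
def e0_63_106__203_42_123 : Ent 4 := ⟨[a0, a63, a106], [a203, a42, a127], (M a48 (F (L l230 (T t309 (T t551 (L l28 (L l230 (T t6744 (L l28 (L l230 (L l235 (T t6479 N))))))))))))⟩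
def e0_63_106__203_42_124 : Ent 4 := ⟨[a0, a63, a106], [a203, a42, a128], (M a48 (F (L l230 (T t585 (L l28 (L l230 (T t579 (L l192 (L l220 (L l235 (T t6480 (L l54 (L l160 (L l320 (T t6481 N)))))))))))))))⟩
def e0_63_106__203_42_125 : Ent 4 := ⟨[a0, a63, a106], [a203, a42, a129], (M a48 (F (L l230 (T t585 (L l217 (T t551 (L l28 (L l230 (T t579 N)))))))))⟩
def e0_63_106__203_42_126 : Ent 4 := ⟨[a0, a63, a106], [a203, a42, a130], (M a48 (F (T t2348 (L l28 (L l230 (T t579 (T t551 N)))))))⟩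
def e0_63_106__203_42_127 : Ent 4 := ⟨[a0, a63, a106], [a203, a42, a131], (M a48 (F (T t2348 (L l28 (L l230 (T t579 (L l197 (T t551 N))))))))⟩
def e0_63_106__203_42_128 : Ent 4 := ⟨[a0, a63, a106], [a203, a42, a132], (M a48 (F (L l230 (T t585 (L l202 (T t551 (L l28 (L l230 (T t579 N)))))))))⟩
def e0_63_106__203_42_129 : Ent 4 := ⟨[a0, a63, a106], [a203, a42, a133], (M a48 (F (L l230 (T t585 (L l199 (T t551 (L l28 (L l230 (T t579 N)))))))))⟩
def e0_63_106__203_42_130 : Ent 4 := ⟨[a0, a63, a106], [a203, a42, a134], (M a48 (F (T t2348 (L l28 (L l230 (T t579 (T t551 N)))))))⟩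
def e0_63_106__203_42_131 : Ent 4 := ⟨[a0, a63, a106], [a203, a42, a135], (M a48 (F (T t2348 (L l28 (L l230 (T t579 (T t551 N)))))))⟩
def e0_63_106__203_42_132 : Ent 4 := ⟨[a0, a63, a106], [a203, a42, a136], (M a48 (F (T t2348 (L l28 (L l230 (T t579 (T t551 N)))))))⟩
def e0_63_106__203_42_133 : Ent 4 := ⟨[a0, a63, a106], [a203, a42, a137], (M a48 (F (T t2348 (L l28 (L l230 (T t579 (T t551 N)))))))⟩
def e0_63_106__203_42_134 : Ent 4 := ⟨[a0, a63, a106], [a203, a42, a138], (M a195 (L l320 (F (T t6816 (T t6810 (L l158 (T t6811 (K a8 (M a73 (L l56 (F (T t6884 (L l158 (L l464 (T t7463 (L l158 (T t7464 (K a25 (M a59 (F (T t8198 (L l26 (L l230 (L l316 (T t6445 N))))))) (K a59 (M a25 (L l499 (F (T t6816 (L l158 (L l427 (L l464 (T t7463 (L l158 (T t8199 (K a155 (Fr a107 a151 l517 (V t7466)) (K a107 (M a155 (F (L l26 (L l158 (T t7467 (T t6810 (L l131 (L l318 (L l319 (T t8200 N)))))))))) N)))))))))))) N))))))))))) (K a73 (M a8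 (F (T t7217 (L l158 (T t6811 N))))) N)))))))))⟩
def e0_63_106__203_42_135 : Ent 4 := ⟨[a0, a63, a106], [a203, a42, a139], (M a48 (L l319 (F (T t2348 (L l28 (L l230 (T t579 (T t551 (K a11 (M a75 (F (T t2348 (L l28 (L l230 (T t579 (T t551 N))))))) (K a75 (M a11 (F (T t2348 (L l28 (L l230 (T t579 (T t551 N))))))) N))))))))))⟩
def e0_63_106__203_42_136 : Ent 4 := ⟨[a0, a63, a106], [a203, a42, a140], (M a48 (F (T t2348 (L l28 (L l230 (T t579 (L l222 (T t551 N))))))))⟩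
def e0_63_106__203_42_137 : Ent 4 := ⟨[a0, a63, a106], [a203, a42, a141], (M a48 (F (T t2348 (L l28 (L l230 (T t579 (T t551 N)))))))⟩
def e0_63_106__203_42_138 : Ent 4 := ⟨[a0, a63, a106], [a203, a42, a142], (M a48 (F (T t2348 (L l28 (L l230 (T t579 (T t551 N)))))))⟩
def e0_63_106__203_42_139 : Ent 4 := ⟨[a0, a63, a106], [a203, a42, a143], (M a48 (F (T t2348 (L l28 (L l230 (T t579 (L l28 (T t6462 N))))))))⟩
def e0_63_106__203_42_140 : Ent 4 := ⟨[a0, a63, a106], [a203, a42, a144], (M a12 (F (T t2414 (L l56 (L l320 (T t2415 (L l170 (T t2305 N))))))))⟩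
def e0_63_106__203_42_141 : Ent 4 := ⟨[a0, a63, a106], [a203, a42, a145], (M a48 (F (L l230 (T t585 (L l167 (T t551 (L l28 (L l230 (T t579 N)))))))))⟩
def e0_63_106__203_42_142 : Ent 4 := ⟨[a0, a63, a106], [a203, a42, a146], (M a48 (F (L l230 (T t585 (L l197 (T t551 (L l28 (L l230 (T t579 N)))))))))⟩
def e0_63_106__203_42_143 : Ent 4 := ⟨[a0, a63, a106], [a203, a42, a147], (M a48 (F (L l54 (T t777 (T t551 (L l28 (L l230 (T t579 N))))))))⟩
def e0_63_106__203_42_144 : Ent 4 := ⟨[a0, a63, a106], [a203, a42, a148], (M a48 (F (L l230 (T t585 (L l163 (T t551 (L l28 (L l230 (T t579 N)))))))))⟩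
def e0_63_106__203_42_145 : Ent 4 := ⟨[a0, a63, a106], [a203, a42, a149], (M a240 (F (L l199 (T t4781 (L l199 (L l347 (T t6484 (L l28 (L l199 (L l375 (T t6483 (L l28 (L l199 (L l220 (L l375 (T t6485 (K a133 (M a165 (F (T t6486 (L l28 (L l160 (L l220 (L l311 (L l375 (T t6487 (L l160 (L l220 (T t6488 N)))))))))))) (K a165 (M a90 (L l199 (F (T t4788 (L l180 (T t6489 (K a133 (Fr a181 a122 l447 (V t6489)) (K a181 (M a133 (F (L l180 (T t6489 (L l227 (T t6746 (L l230 (L l455 (T t6490 N))))))))) N)))))))) (K a181 (M a165 (F (T t6492 (T t6493 (L l28 (L l220 (L l375 (T t6487 (L l220 (T t6488 N)))))))))) (K a74 (M a48 (F (T t6494 (L l199 (L l491 (T t781 (L l28 (L l84 (L l230 (L l318 (L l491 (T t579 N)))))))))))) (K a90 (M a48 (L l375 (F (T t3318 (L l199 (L l462 (L l491 (T t781 (L l28 (L l230 (L l491 (T t579 (K a208 (M a31 (F (L l28 (L l347 (T t6495 (L l151 (L l220 (T t6496 N)))))))) (K a31 (M a208 (F (T t6497 (L l151 (L l220 (T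 t6496 N)))))) N)))))))))))))) (K a122 (M a48 (F (T t3318 (L l114 (L l230 (L l491 (T t6471 (L l28 (L l230 (L l491 (T t579 N))))))))))) N))))))))))))))))))))))⟩
def e0_63_106__203_42_146 : Ent 4 := ⟨[a0, a63, a106], [a203, a42, a150], (M a48 (F (L l230 (T t309 (L l163 (T t551 (L l28 (L l230 (T t579 N)))))))))⟩
def e0_63_106__203_42_147 : Ent 4 := ⟨[a0, a63, a106], [a203, a42, a151], (M a48 (F (L l230 (T t309 (L l163 (T t551 (L l28 (L l230 (T t579 N)))))))))⟩
def e0_63_106__203_42_148 : Ent 4 := ⟨[a0, a63, a106], [a203, a42, a152], (M a48 (F (L l230 (T t585 (L l222 (T t551 (L l28 (L l230 (T t579 N)))))))))⟩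
def e0_63_106__203_42_149 : Ent 4 := ⟨[a0, a63, a106], [a203, a42, a153], (M a48 (F (L l230 (T t309 (L l167 (T t551 (L l28 (L l230 (T t579 N)))))))))⟩
def e0_63_106__203_42_150 : Ent 4 := ⟨[a0, a63, a106], [a203, a42, a154], (M a240 (L l500 (F (T t4779 (L l170 (L l368 (L l512 (T t817 (T t4781 (K a56 (M a105 (F (T t4786 (L l206 (L l496 (T t6590 N)))))) (K a105 (M a56 (F (T t4786 (L l170 (L l368 (L l512 (L l515 (T t817 (T t4781 N))))))))) N)))))))))))⟩
def e0_63_106__203_42_151 : Ent 4 := ⟨[a0, a63, a106], [a203, a42, a155], (M a48 (L l499 (F (T t2348 (L l28 (L l230 (L l367 (T t579 (T t551 (K a107 (M a59 (F (L l230 (T t309 (T t4670 N))))) (K a59 (M a107 (L l56 (F (T t551 (L l169 (T t7875 (K a8 (M a25 (L l320 (F (T t551 (L l169 (T t7875 (K a73 (M a138 (F (L l81 (T t6697 (L l169 (T t7876 N)))))) (K a138 (M a73 (F (T t551 (L l158 (L l169 (T t7444 N)))))) N)))))))) (K a25 (M a8 (F (T t2348 (L l19 (L l28 (T t4700 N)))))) N))))))))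 N)))))))))))⟩
def e0_63_106__203_42_152 : Ent 4 := ⟨[a0, a63, a106], [a203, a42, a156], (M a48 (F (L l54 (T t777 (T t551 (L l28 (L l230 (T t579 N))))))))⟩
def e0_63_106__203_42_153 : Ent 4 := ⟨[a0, a63, a106], [a203, a42, a157], (M a48 (F (L l230 (T t309 (L l167 (T t551 (L l28 (L l230 (T t579 N)))))))))⟩
def e0_63_106__203_42_154 : Ent 4 := ⟨[a0, a63, a106], [a203, a42, a158], (M a48 (F (T t2348 (L l28 (L l230 (L l362 (T t579 (T t551 N))))))))⟩
def e0_63_106__203_42_155 : Ent 4 := ⟨[a0, a63, a106], [a203, a42, a159], (M a240 (F (T t4779 (L l170 (T t817 (L l361 (T t4781 N)))))))⟩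
def e0_63_106__203_42_156 : Ent 4 := ⟨[a0, a63, a106], [a203, a42, a160], (M a12 (F (T t2304 (T t2305 (L l56 (L l320 (T t2415 N)))))))⟩
def e0_63_106__203_42_157 : Ent 4 := ⟨[a0, a63, a106], [a203, a42, a161], (M a48 (F (T t2348 (L l28 (L l230 (T t579 (L l197 (L l453 (T t551 N)))))))))⟩
def e0_63_106__203_42_158 : Ent 4 := ⟨[a0, a63, a106], [a203, a42, a162], (M a48 (F (T t2348 (L l28 (L l230 (L l380 (T t579 (T t551 N))))))))⟩
def e0_63_106__203_42_159 : Ent 4 := ⟨[a0, a63, a106], [a203, a42, a163], (M a48 (F (T t2348 (L l28 (L l230 (T t579 (T t551 N)))))))⟩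
def e0_63_106__203_42_160 : Ent 4 := ⟨[a0, a63, a106], [a203, a42, a164], (M a48 (F (T t2348 (L l28 (L l230 (T t579 (L l222 (L l478 (T t551 N)))))))))⟩
def e0_63_106__203_42_161 : Ent 4 := ⟨[a0, a63, a106], [a203, a42, a165], (M a48 (F (L l230 (T t309 (L l28 (L l199 (L l483 (T t6462 (L l28 (L l230 (T t579 N)))))))))))⟩
def e0_63_106__203_42_162 : Ent 4 := ⟨[a0, a63, a106], [a203, a42, a166], (M a48 (F (L l230 (T t309 (L l202 (T t551 (L l28 (L l230 (T t579 N)))))))))⟩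
def e0_63_106__203_42_163 : Ent 4 := ⟨[a0, a63, a106], [a203, a42, a167], (M a48 (F (T t2348 (L l28 (L l230 (T t579 (T t551 N)))))))⟩
def e0_63_106__203_42_164 : Ent 4 := ⟨[a0, a63, a106], [a203, a42, a168], (M a48 (F (T t2348 (L l28 (L l230 (L l400 (T t579 (T t551 N))))))))⟩
def e0_63_106__203_42_165 : Ent 4 := ⟨[a0, a63, a106], [a203, a42, a169], (M a48 (F (L l230 (T t309 (L l217 (T t551 (L l28 (L l230 (T t579 N)))))))))⟩
def e0_63_106__203_42_166 : Ent 4 := ⟨[a0, a63, a106], [a203, a42, a170], (M a48 (F (L l230 (T t309 (L l220 (T t551 (L l28 (L l206 (L l220 (L l230 (L l404 (T t552 (L l28 (L l206 (L l230 (L l235 (L l404 (T t553 N))))))))))))))))))⟩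
def e0_63_106__203_42_167 : Ent 4 := ⟨[a0, a63, a106], [a203, a42, a171], (M a48 (F (T t2348 (L l28 (L l230 (T t579 (T t551 N)))))))⟩
def e0_63_106__203_42_168 : Ent 4 := ⟨[a0, a63, a106], [a203, a42, a172], (M a48 (F (T t2348 (L l28 (L l230 (T t579 (T t551 N)))))))⟩
def e0_63_106__203_42_169 : Ent 4 := ⟨[a0, a63, a106], [a203, a42, a173], (M a48 (F (T t2348 (L l28 (L l230 (T t579 (T t551 N)))))))⟩
def e0_63_106__203_42_170 : Ent 4 := ⟨[a0, a63, a106], [a203, a42, a174], (M a48 (F (T t2348 (L l28 (L l230 (T t579 (T t551 N)))))))⟩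
def e0_63_106__203_42_171 : Ent 4 := ⟨[a0, a63, a106], [a203, a42, a175], (M a48 (F (L l230 (T t309 (T t551 (L l28 (L l230 (T t579 N))))))))⟩
def e0_63_106__203_42_172 : Ent 4 := ⟨[a0, a63, a106], [a203, a42, a176], (M a240 (F (T t4786 (L l192 (T t817 (L l190 (L l192 (T t4781 N))))))))⟩
def e0_63_106__203_42_173 : Ent 4 := ⟨[a0, a63, a106], [a203, a42, a177], (M a48 (F (T t2348 (L l28 (L l230 (T t579 (L l182 (L l417 (T t551 N)))))))))⟩
def e0_63_106__203_42_174 : Ent 4 := ⟨[a0, a63, a106], [a203, a42, a178], (M a48 (F (T t2348 (L l28 (L l230 (T t579 (L l182 (T t551 N))))))))⟩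
def e0_63_106__203_42_175 : Ent 4 := ⟨[a0, a63, a106], [a203, a42, a179], (M a48 (F (T t2348 (L l28 (L l230 (T t579 (L l182 (T t551 N))))))))⟩
def e0_63_106__203_42_176 : Ent 4 := ⟨[a0, a63, a106], [a203, a42, a180], (M a48 (F (T t2348 (L l28 (L l230 (T t579 (L l186 (L l442 (T t551 N)))))))))⟩
def e0_63_106__203_42_177 : Ent 4 := ⟨[a0, a63, a106], [a203, a42, a181], (M a48 (F (L l54 (T t777 (L l190 (L l199 (T t551 (L l28 (L l230 (L l419 (T t579 N)))))))))))⟩
def e0_63_106__203_42_178 : Ent 4 := ⟨[a0, a63, a106], [a203, a42, a182], (M a48 (F (T t2348 (L l28 (L l230 (T t579 (T t551 N)))))))⟩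
def e0_63_106__203_42_179 : Ent 4 := ⟨[a0, a63, a106], [a203, a42, a183], (M a48 (F (L l230 (T t309 (L l202 (T t551 (L l28 (L l230 (T t579 N)))))))))⟩
def e0_63_106__203_42_180 : Ent 4 := ⟨[a0, a63, a106], [a203, a42, a184], (M a48 (F (T t2348 (L l28 (L l230 (T t579 (L l186 (T t551 N))))))))⟩
def e0_63_106__203_42_181 : Ent 4 := ⟨[a0, a63, a106], [a203, a42, a185], (M a48 (F (T t2348 (L l28 (L l230 (T t579 (T t551 N)))))))⟩
def e0_63_106__203_42_182 : Ent 4 := ⟨[a0, a63, a106], [a203, a42, a186], (M a48 (F (T t2348 (L l28 (L l230 (T t579 (L l190 (T t551 N))))))))⟩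
def e0_63_106__203_42_183 : Ent 4 := ⟨[a0, a63, a106], [a203, a42, a187], (M a48 (F (T t2348 (L l28 (L l230 (T t579 (T t551 N)))))))⟩
def e0_63_106__203_42_184 : Ent 4 := ⟨[a0, a63, a106], [a203, a42, a188], (M a48 (F (T t2348 (L l28 (L l230 (T t579 (L l186 (T t551 N))))))))⟩
def e0_63_106__203_42_185 : Ent 4 := ⟨[a0, a63, a106], [a203, a42, a189], (M a48 (F (L l230 (T t309 (L l217 (T t551 (L l28 (L l230 (T t579 N)))))))))⟩
def e0_63_106__203_42_186 : Ent 4 := ⟨[a0, a63, a106], [a203, a42, a190], (M a48 (F (T t2348 (L l28 (L l230 (T t579 (T t551 N)))))))⟩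
def e0_63_106__203_42_187 : Ent 4 := ⟨[a0, a63, a106], [a203, a42, a191], (M a48 (F (L l230 (T t309 (L l190 (L l220 (T t551 (L l28 (L l230 (T t6498 (L l28 (L l230 (L l235 (T t6499 N))))))))))))))⟩
def e0_63_106__203_42_188 : Ent 4 := ⟨[a0, a63, a106], [a203, a42, a192], (M a240 (F (L l339 (T t4781 (L l230 (L l236 (L l339 (T t6500 (L l296 (L l339 (T t6501 (L l28 (L l339 (T t6502 (L l339 (T t6503 (K a133 (M a90 (L l339 (F (T t4788 (T t6504 (K a74 (Fr a15 a165 l483 (V t6505)) (K a15 (Fr a74 a122 l130 (V t6506)) N))))))) (K a85 (M a12 (F (L l292 (T t2745 (L l272 (L l339 (T t6595 N))))))) (K a181 (M a12 (F (T t2747 (L l56 (L l272 (L l320 (T t2415 (L l272 (T t6512 N))))))))) (K a74 (M a165 (L l339 (F (T t6492 (L l296 (T t6513 (L l54 (L l84 (L l318 (T t6514 (K a133 (Fr a15 a90 l483 (V t6515)) (K a15 (M a133 (F (T t6516 (L l28 (L l230 (L l236 (L l318 (L l484 (T t6517 N))))))))) N)))))))))))) (K a90 (M a252 (F (L l489 (T t3105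 (L l334 (T t6518 (L l309 (T t6675 N)))))))) (K a122 (M a12 (F (T t2747 (L l56 (L l272 (L l320 (T t2415 (L l272 (T t6512 N))))))))) (K a15 (M a248 (L l339 (F (T t6520 (L l22 (T t6521 (K a133 (M a74 (F (T t6522 (L l3 (L l56 (L l320 (L l334 (T t6523 N)))))))) (K a74 (M a133 (F (T t3821 (T t6520 (L l469 (L l484 (T t6524 N))))))) N)))))))) N)))))))))))))))))))))))⟩
def e0_63_106__203_42_189 : Ent 4 := ⟨[a0, a63, a106], [a203, a42, a193], (M a48 (F (L l230 (T t585 (L l515 (T t551 (L l28 (L l230 (T t579 N)))))))))⟩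
def e0_63_106__203_42_190 : Ent 4 := ⟨[a0, a63, a106], [a203, a42, a194], (M a48 (F (T t2348 (L l28 (L l230 (L l234 (T t579 (T t551 N))))))))⟩
def e0_63_106__203_42_191 : Ent 4 := ⟨[a0, a63, a106], [a203, a42, a195], (M a207 (F (T t6739 (L l230 (L l320 (L l337 (T t6701 (L l320 (T t6702 N)))))))))⟩
def e0_63_106__203_42_192 : Ent 4 := ⟨[a0, a63, a106], [a203, a42, a196], (M a48 (F (L l230 (T t585 (L l495 (T t551 (L l28 (L l230 (T t579 N)))))))))⟩
def e0_63_106__203_42_193 : Ent 4 := ⟨[a0, a63, a106], [a203, a42, a197], (M a240 (F (L l236 (T t4779 (L l491 (T t817 (T t4781 N)))))))⟩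
def e0_63_106__203_42_194 : Ent 4 := ⟨[a0, a63, a106], [a203, a42, a198], (M a48 (F (T t2348 (L l28 (L l230 (L l234 (T t579 (T t551 N))))))))⟩
def e0_63_106__203_42_195 : Ent 4 := ⟨[a0, a63, a106], [a203, a42, a199], (M a195 (F (L l493 (T t6816 (T t6810 (L l493 (T t6811 N)))))))⟩
def e0_63_106__203_42_196 : Ent 4 := ⟨[a0, a63, a106], [a203, a42, a200], (M a240 (L l230 (F (L l232 (T t4786 (T t817 (L l321 (T t4781 (K a201 (M a202 (F (L l28 (T t815 (L l54 (L l233 (T t8068 (L l500 (T t8069 N))))))))) (K a202 (M a201 (F (L l28 (T t815 (L l318 (L l321 (T t4781 (T t817 N)))))))) N))))))))))⟩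
def e0_63_106__203_42_197 : Ent 4 := ⟨[a0, a63, a106], [a203, a42, a201], (M a240 (L l230 (F (T t4779 (T t817 (T t4781 (K a200 (M a202 (F (L l28 (T t815 (L l54 (L l233 (T t8068 (L l500 (T t8069 N))))))))) (K a202 (M a200 (F (T t6747 (L l318 (T t4781 N))))) N))))))))⟩
def e0_63_106__203_42_198 : Ent 4 := ⟨[a0, a63, a106], [a203, a42, a202], (M a240 (L l230 (F (L l236 (T t4786 (T t817 (L l318 (T t4781 (K a200 (M a201 (F (L l28 (T t815 (L l318 (L l321 (T t4781 (T t817 N)))))))) (K a201 (M a200 (F (T t6747 (L l318 (T t4781 N))))) N))))))))))⟩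
def e0_63_106__203_42_199 : Ent 4 := ⟨[a0, a63, a106], [a203, a42, a204], (M a48 (F (T t2348 (L l28 (L l230 (T t579 (L l298 (T t551 N))))))))⟩
def e0_63_106__203_42_200 : Ent 4 := ⟨[a0, a63, a106], [a203, a42, a205], (M a48 (F (T t2348 (L l28 (L l230 (T t579 (T t551 N)))))))⟩
def e0_63_106__203_42_201 : Ent 4 := ⟨[a0, a63, a106], [a203, a42, a206], (M a48 (F (T t2348 (L l28 (L l230 (L l234 (T t579 (T t551 N))))))))⟩
def e0_63_106__203_42_202 : Ent 4 := ⟨[a0, a63, a106], [a203, a42, a207], (M a195 (F (T t6809 (L l331 (T t6810 (T t6811 N))))))⟩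
def e0_63_106__203_42_203 : Ent 4 := ⟨[a0, a63, a106], [a203, a42, a208], (M a12 (F (T t2414 (L l56 (L l320 (T t2415 (L l375 (T t2305 N))))))))⟩
def e0_63_106__203_42_204 : Ent 4 := ⟨[a0, a63, a106], [a203, a42, a209], (M a48 (F (L l230 (T t585 (L l371 (T t551 (L l28 (L l230 (T t579 N)))))))))⟩
def e0_63_106__203_42_205 : Ent 4 := ⟨[a0, a63, a106], [a203, a42, a210], (M a48 (F (T t2348 (L l28 (L l230 (T t579 (L l273 (T t551 N))))))))⟩
def e0_63_106__203_42_206 : Ent 4 := ⟨[a0, a63, a106], [a203, a42, a211], (M a48 (F (T t2348 (L l28 (L l230 (L l245 (T t579 (T t551 N))))))))⟩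
def e0_63_106__203_42_207 : Ent 4 := ⟨[a0, a63, a106], [a203, a42, a212], (M a48 (F (L l230 (T t585 (L l351 (T t551 (L l28 (L l230 (T t579 N)))))))))⟩
def e0_63_106__203_42_208 : Ent 4 := ⟨[a0, a63, a106], [a203, a42, a213], (M a48 (F (L l230 (T t585 (L l347 (T t551 (L l28 (L l230 (L l246 (T t579 N))))))))))⟩
def e0_63_106__203_42_209 : Ent 4 := ⟨[a0, a63, a106], [a203, a42, a214], (M a48 (F (T t2348 (L l28 (L l230 (T t579 (T t551 N)))))))⟩
def e0_63_106__203_42_210 : Ent 4 := ⟨[a0, a63, a106], [a203, a42, a215], (M a48 (F (T t2348 (L l28 (L l230 (L l245 (T t579 (T t551 N))))))))⟩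
def e0_63_106__203_42_211 : Ent 4 := ⟨[a0, a63, a106], [a203, a42, a216], (M a48 (F (T t2348 (L l28 (L l230 (T t579 (L l298 (T t551 N))))))))⟩
def e0_63_106__203_42_212 : Ent 4 := ⟨[a0, a63, a106], [a203, a42, a217], (M a48 (F (T t2348 (L l28 (L l230 (T t579 (T t551 N)))))))⟩
def e0_63_106__203_42_213 : Ent 4 := ⟨[a0, a63, a106], [a203, a42, a218], (M a48 (L l285 (F (T t2348 (L l28 (L l230 (L l246 (L l282 (T t579 (L l303 (T t551 (K a248 (M a233 (F (T t2348 (L l28 (L l230 (L l246 (L l282 (T t579 (L l262 (L l303 (T t551 N))))))))))) (K a233 (M a248 (F (T t2348 (L l28 (L l230 (L l246 (L l282 (T t579 (L l303 (T t551 N)))))))))) N)))))))))))))⟩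
def e0_63_106__203_42_214 : Ent 4 := ⟨[a0, a63, a106], [a203, a42, a219], (M a48 (L l283 (F (T t2348 (L l28 (L l230 (L l245 (T t579 (T t551 (K a235 (M a251 (F (T t2348 (L l28 (L l230 (L l245 (T t579 (T t551 N)))))))) (K a251 (M a235 (F (T t2348 (L l28 (L l230 (L l245 (T t579 (T t551 N)))))))) N)))))))))))⟩
def e0_63_106__203_42_215 : Ent 4 := ⟨[a0, a63, a106], [a203, a42, a220], (M a48 (F (T t2348 (L l28 (L l230 (L l241 (T t579 (T t551 N))))))))⟩
def e0_63_106__203_42_216 : Ent 4 := ⟨[a0, a63, a106], [a203, a42, a221], (M a48 (F (T t2348 (L l28 (L l230 (L l241 (T t579 (T t551 N))))))))⟩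
def e0_63_106__203_42_217 : Ent 4 := ⟨[a0, a63, a106], [a203, a42, a222], (M a48 (F (T t2348 (L l28 (L l230 (L l241 (T t579 (T t551 N))))))))⟩
def e0_63_106__203_42_218 : Ent 4 := ⟨[a0, a63, a106], [a203, a42, a223], (M a240 (F (T t4786 (L l368 (T t817 (L l361 (T t4781 N)))))))⟩
def e0_63_106__203_42_219 : Ent 4 := ⟨[a0, a63, a106], [a203, a42, a224], (M a48 (F (L l230 (T t585 (L l268 (L l376 (T t551 (L l28 (L l230 (L l376 (T t579 N)))))))))))⟩
def e0_63_106__203_42_220 : Ent 4 := ⟨[a0, a63, a106], [a203, a42, a225], (M a48 (F (T t2348 (L l28 (L l230 (T t579 (L l273 (T t551 N))))))))⟩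
def e0_63_106__203_42_221 : Ent 4 := ⟨[a0, a63, a106], [a203, a42, a226], (M a48 (F (T t2348 (L l28 (L l230 (T t579 (T t551 N)))))))⟩
def e0_63_106__203_42_222 : Ent 4 := ⟨[a0, a63, a106], [a203, a42, a227], (M a48 (F (T t2348 (L l28 (L l230 (L l380 (T t579 (T t551 N))))))))⟩
def e0_63_106__203_42_223 : Ent 4 := ⟨[a0, a63, a106], [a203, a42, a228], (M a48 (F (T t2348 (L l28 (L l230 (T t579 (L l298 (T t551 N))))))))⟩
def e0_63_106__203_42_224 : Ent 4 := ⟨[a0, a63, a106], [a203, a42, a229], (M a48 (F (T t2348 (L l28 (L l230 (T t579 (L l303 (T t551 N))))))))⟩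
def e0_63_106__203_42_225 : Ent 4 := ⟨[a0, a63, a106], [a203, a42, a230], (M a48 (F (T t2348 (L l28 (L l230 (T t579 (T t551 N)))))))⟩
def e0_63_106__203_42_226 : Ent 4 := ⟨[a0, a63, a106], [a203, a42, a231], (M a48 (F (T t2348 (L l28 (L l230 (T t579 (T t551 N)))))))⟩
def e0_63_106__203_42_227 : Ent 4 := ⟨[a0, a63, a106], [a203, a42, a232], (M a48 (F (T t2348 (L l28 (L l230 (T t579 (T t551 N)))))))⟩
def e0_63_106__203_42_228 : Ent 4 := ⟨[a0, a63, a106], [a203, a42, a233], (M a48 (L l285 (F (T t2348 (L l28 (L l230 (T t579 (T t551 (K a248 (M a218 (F (T t2348 (L l28 (L l230 (T t579 (L l262 (T t551 N)))))))) (K a218 (M a248 (F (T t2348 (L l28 (L l230 (L l246 (L l282 (T t579 (L l303 (T t551 N)))))))))) N))))))))))⟩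
def e0_63_106__203_42_229 : Ent 4 := ⟨[a0, a63, a106], [a203, a42, a234], (M a48 (F (T t2348 (L l28 (L l230 (L l282 (T t579 (T t551 N))))))))⟩
def e0_63_106__203_42_230 : Ent 4 := ⟨[a0, a63, a106], [a203, a42, a235], (M a48 (L l283 (F (T t2348 (L l28 (L l230 (T t579 (T t551 (K a219 (M a251 (F (T t2348 (L l28 (L l230 (L l245 (T t579 (T t551 N)))))))) (K a251 (M a219 (F (T t2348 (L l28 (L l230 (T t579 (T t551 N))))))) N))))))))))⟩
def e0_63_106__203_42_231 : Ent 4 := ⟨[a0, a63, a106], [a203, a42, a236], (M a48 (F (T t2348 (L l28 (L l230 (L l400 (T t579 (T t551 N))))))))⟩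
def e0_63_106__203_42_232 : Ent 4 := ⟨[a0, a63, a106], [a203, a42, a237], (M a48 (F (T t2348 (L l28 (L l230 (T t579 (T t551 N)))))))⟩
def e0_63_106__203_42_233 : Ent 4 := ⟨[a0, a63, a106], [a203, a42, a238], (M a48 (F (T t2348 (L l28 (L l230 (T t579 (T t551 N)))))))⟩
def e0_63_106__203_42_234 : Ent 4 := ⟨[a0, a63, a106], [a203, a42, a239], (M a48 (F (L l230 (T t309 (T t551 (L l28 (L l230 (L l289 (L l404 (T t579 N))))))))))⟩
def e0_63_106__203_42_235 : Ent 4 := ⟨[a0, a63, a106], [a203, a42, a240], (M a12 (F (T t2419 (L l298 (T t2305 (L l56 (L l320 (T t2415 N))))))))⟩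
def e0_63_106__203_42_236 : Ent 4 := ⟨[a0, a63, a106], [a203, a42, a241], (M a48 (F (T t2348 (L l28 (L l230 (T t579 (L l258 (T t551 N))))))))⟩
def e0_63_106__203_42_237 : Ent 4 := ⟨[a0, a63, a106], [a203, a42, a242], (M a48 (F (T t2348 (L l28 (L l230 (T t579 (L l258 (T t551 N))))))))⟩
def e0_63_106__203_42_238 : Ent 4 := ⟨[a0, a63, a106], [a203, a42, a243], (M a48 (F (T t2348 (L l28 (L l230 (T t579 (L l258 (T t551 N))))))))⟩
def e0_63_106__203_42_239 : Ent 4 := ⟨[a0, a63, a106], [a203, a42, a244], (M a48 (F (T t2348 (L l28 (L l230 (T t579 (L l262 (T t551 N))))))))⟩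
def e0_63_106__203_42_240 : Ent 4 := ⟨[a0, a63, a106], [a203, a42, a245], (M a48 (F (L l235 (T t578 (L l28 (L l230 (L l419 (T t579 (L l266 (T t551 N))))))))))⟩
def e0_63_106__203_42_241 : Ent 4 := ⟨[a0, a63, a106], [a203, a42, a246], (M a48 (F (T t2348 (L l28 (L l230 (T t579 (T t551 N)))))))⟩
def e0_63_106__203_42_242 : Ent 4 := ⟨[a0, a63, a106], [a203, a42, a247], (M a48 (F (T t2348 (L l28 (L l230 (T t579 (T t551 N)))))))⟩
def e0_63_106__203_42_243 : Ent 4 := ⟨[a0, a63, a106], [a203, a42, a248], (M a48 (L l285 (F (T t2348 (L l28 (L l230 (T t579 (L l262 (T t551 (K a233 (M a218 (F (T t2348 (L l28 (L l230 (T t579 (L l262 (T t551 N)))))))) (K a218 (M a233 (F (T t2348 (L l28 (L l230 (L l246 (L l282 (T t579 (L l262 (L l303 (T t551 N))))))))))) N)))))))))))⟩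
def e0_63_106__203_42_244 : Ent 4 := ⟨[a0, a63, a106], [a203, a42, a249], (M a48 (F (T t2348 (L l28 (L l230 (T t579 (T t551 N)))))))⟩
def e0_63_106__203_42_245 : Ent 4 := ⟨[a0, a63, a106], [a203, a42, a250], (M a48 (F (T t2348 (L l28 (L l230 (L l282 (T t579 (L l266 (T t551 N)))))))))⟩
def e0_63_106__203_42_246 : Ent 4 := ⟨[a0, a63, a106], [a203, a42, a251], (M a48 (L l283 (F (T t2348 (L l28 (L l230 (T t579 (T t551 (K a219 (M a235 (F (T t2348 (L l28 (L l230 (L l245 (T t579 (T t551 N)))))))) (K a235 (M a219 (F (T t2348 (L l28 (L l230 (T t579 (T t551 N))))))) N))))))))))⟩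
def e0_63_106__203_42_247 : Ent 4 := ⟨[a0, a63, a106], [a203, a42, a252], (M a48 (F (T t2348 (L l28 (L l230 (T t579 (L l262 (T t551 N))))))))⟩
def e0_63_106__203_42_248 : Ent 4 := ⟨[a0, a63, a106], [a203, a42, a253], (M a48 (F (T t2348 (L l28 (L l230 (T t579 (T t551 N)))))))⟩
def e0_63_106__203_42_249 : Ent 4 := ⟨[a0, a63, a106], [a203, a42, a254], (M a48 (F (T t2348 (L l28 (L l230 (T t579 (T t551 N)))))))⟩
def e0_63_106__203_42_250 : Ent 4 := ⟨[a0, a63, a106], [a203, a42, a255], (M a48 (F (T t2348 (L l266 (T t551 (L l28 (L l230 (L l469 (T t6526 (L l28 (L l230 (L l289 (T t6527 N)))))))))))))⟩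
def b0_63_106__203_42 : Blk 4 := ⟨[0, 63, 106], [203, 42], [1, 2, 3, 4, 5, 6, 7, 8, 9, 10, 11, 12, 13, 14, 15, 16, 17, 18, 19, 20, 21, 22, 23, 24, 25, 26, 27, 28, 29, 30, 31, 32, 33, 34, 35, 36, 37, 38, 39, 40, 41, 43, 44, 45, 46, 47, 48, 49, 50, 51, 52, 53, 54, 55, 56, 57, 58, 59, 60, 61, 62, 64, 65, 66, 67, 68, 69, 70, 71, 72, 73, 74, 75, 76, 77, 78, 79, 80, 81, 82, 83, 84, 85, 86, 87, 88, 89, 90, 91, 92, 93, 94, 95, 96, 97, 98, 99, 100, 101, 102, 103, 104, 105, 107, 108, 109, 110, 111, 112, 113, 114, 115, 116, 117, 118, 119, 120, 121, 122, 123, 124, 125, 126, 127, 128, 129, 130, 131, 132, 133, 134, 135, 136, 137, 138, 139, 140, 141, 142, 143, 144, 145, 146, 147, 148, 149, 150, 151, 152, 153, 154, 155, 156, 157, 158, 159, 160, 161, 162, 163, 164, 165, 166, 167, 168, 169, 170, 171, 172, 173, 174, 175, 176, 177, 178, 179, 180, 181, 182, 183, 184, 185, 186, 187, 188, 189, 190, 191, 192, 193, 194, 195, 196, 197, 198,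 199, 200, 201, 202, 204, 205, 206, 207, 208, 209, 210, 211, 212, 213, 214, 215, 216, 217, 218, 219, 220, 221, 222, 223, 224, 225, 226, 227, 228, 229, 230, 231, 232, 233, 234, 235, 236, 237, 238, 239, 240, 241, 242, 243, 244, 245, 246, 247, 248, 249, 250, 251, 252, 253, 254, 255], [e0_63_106__203_42_0, e0_63_106__203_42_1, e0_63_106__203_42_2, e0_63_106__203_42_3, e0_63_106__203_42_4, e0_63_106__203_42_5, e0_63_106__203_42_6, e0_63_106__203_42_7, e0_63_106__203_42_8, e0_63_106__203_42_9, e0_63_106__203_42_10, e0_63_106__203_42_11, e0_63_106__203_42_12, e0_63_106__203_42_13, e0_63_106__203_42_14, e0_63_106__203_42_15, e0_63_106__203_42_16, e0_63_106__203_42_17, e0_63_106__203_42_18, e0_63_106__203_42_19, e0_63_106__203_42_20, e0_63_106__203_42_21, e0_63_106__203_42_22, e0_63_106__203_42_23, e0_63_106__203_42_24, e0_63_106__203_42_25, e0_63_106__203_42_26, e0_63_106__203_42_27, e0_63_106__203_42_28, e0_63_106__203_42_29,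 e0_63_106__203_42_30, e0_63_106__203_42_31, e0_63_106__203_42_32, e0_63_106__203_42_33, e0_63_106__203_42_34, e0_63_106__203_42_35, e0_63_106__203_42_36, e0_63_106__203_42_37, e0_63_106__203_42_38, e0_63_106__203_42_39, e0_63_106__203_42_40, e0_63_106__203_42_41, e0_63_106__203_42_42, e0_63_106__203_42_43, e0_63_106__203_42_44, e0_63_106__203_42_45, e0_63_106__203_42_46, e0_63_106__203_42_47, e0_63_106__203_42_48, e0_63_106__203_42_49, e0_63_106__203_42_50, e0_63_106__203_42_51, e0_63_106__203_42_52, e0_63_106__203_42_53, e0_63_106__203_42_54, e0_63_106__203_42_55, e0_63_106__203_42_56, e0_63_106__203_42_57, e0_63_106__203_42_58, e0_63_106__203_42_59, e0_63_106__203_42_60, e0_63_106__203_42_61, e0_63_106__203_42_62, e0_63_106__203_42_63, e0_63_106__203_42_64, e0_63_106__203_42_65, e0_63_106__203_42_66, e0_63_106__203_42_67, e0_63_106__203_42_68, e0_63_106__203_42_69, e0_63_106__203_42_70, e0_63_106__203_42_71, e0_63_106__203_42_72,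 e0_63_106__203_42_73, e0_63_106__203_42_74, e0_63_106__203_42_75, e0_63_106__203_42_76, e0_63_106__203_42_77, e0_63_106__203_42_78, e0_63_106__203_42_79, e0_63_106__203_42_80, e0_63_106__203_42_81, e0_63_106__203_42_82, e0_63_106__203_42_83, e0_63_106__203_42_84, e0_63_106__203_42_85, e0_63_106__203_42_86, e0_63_106__203_42_87, e0_63_106__203_42_88, e0_63_106__203_42_89, e0_63_106__203_42_90, e0_63_106__203_42_91, e0_63_106__203_42_92, e0_63_106__203_42_93, e0_63_106__203_42_94, e0_63_106__203_42_95, e0_63_106__203_42_96, e0_63_106__203_42_97, e0_63_106__203_42_98, e0_63_106__203_42_99, e0_63_106__203_42_100, e0_63_106__203_42_101, e0_63_106__203_42_102, e0_63_106__203_42_103, e0_63_106__203_42_104, e0_63_106__203_42_105, e0_63_106__203_42_106, e0_63_106__203_42_107, e0_63_106__203_42_108, e0_63_106__203_42_109, e0_63_106__203_42_110, e0_63_106__203_42_111, e0_63_106__203_42_112, e0_63_106__203_42_113, e0_63_106__203_42_114,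 e0_63_106__203_42_115, e0_63_106__203_42_116, e0_63_106__203_42_117, e0_63_106__203_42_118, e0_63_106__203_42_119, e0_63_106__203_42_120, e0_63_106__203_42_121, e0_63_106__203_42_122, e0_63_106__203_42_123, e0_63_106__203_42_124, e0_63_106__203_42_125, e0_63_106__203_42_126, e0_63_106__203_42_127, e0_63_106__203_42_128, e0_63_106__203_42_129, e0_63_106__203_42_130, e0_63_106__203_42_131, e0_63_106__203_42_132, e0_63_106__203_42_133, e0_63_106__203_42_134, e0_63_106__203_42_135, e0_63_106__203_42_136, e0_63_106__203_42_137, e0_63_106__203_42_138, e0_63_106__203_42_139, e0_63_106__203_42_140, e0_63_106__203_42_141, e0_63_106__203_42_142, e0_63_106__203_42_143, e0_63_106__203_42_144, e0_63_106__203_42_145, e0_63_106__203_42_146, e0_63_106__203_42_147, e0_63_106__203_42_148, e0_63_106__203_42_149, e0_63_106__203_42_150, e0_63_106__203_42_151, e0_63_106__203_42_152, e0_63_106__203_42_153, e0_63_106__203_42_154, e0_63_106__203_42_155,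 e0_63_106__203_42_156, e0_63_106__203_42_157, e0_63_106__203_42_158, e0_63_106__203_42_159, e0_63_106__203_42_160, e0_63_106__203_42_161, e0_63_106__203_42_162, e0_63_106__203_42_163, e0_63_106__203_42_164, e0_63_106__203_42_165, e0_63_106__203_42_166, e0_63_106__203_42_167, e0_63_106__203_42_168, e0_63_106__203_42_169, e0_63_106__203_42_170, e0_63_106__203_42_171, e0_63_106__203_42_172, e0_63_106__203_42_173, e0_63_106__203_42_174, e0_63_106__203_42_175, e0_63_106__203_42_176, e0_63_106__203_42_177, e0_63_106__203_42_178, e0_63_106__203_42_179, e0_63_106__203_42_180, e0_63_106__203_42_181, e0_63_106__203_42_182, e0_63_106__203_42_183, e0_63_106__203_42_184, e0_63_106__203_42_185, e0_63_106__203_42_186, e0_63_106__203_42_187, e0_63_106__203_42_188, e0_63_106__203_42_189, e0_63_106__203_42_190, e0_63_106__203_42_191, e0_63_106__203_42_192, e0_63_106__203_42_193, e0_63_106__203_42_194, e0_63_106__203_42_195, e0_63_106__203_42_196,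 e0_63_106__203_42_197, e0_63_106__203_42_198, e0_63_106__203_42_199, e0_63_106__203_42_200, e0_63_106__203_42_201, e0_63_106__203_42_202, e0_63_106__203_42_203, e0_63_106__203_42_204, e0_63_106__203_42_205, e0_63_106__203_42_206, e0_63_106__203_42_207, e0_63_106__203_42_208, e0_63_106__203_42_209, e0_63_106__203_42_210, e0_63_106__203_42_211, e0_63_106__203_42_212, e0_63_106__203_42_213, e0_63_106__203_42_214, e0_63_106__203_42_215, e0_63_106__203_42_216, e0_63_106__203_42_217, e0_63_106__203_42_218, e0_63_106__203_42_219, e0_63_106__203_42_220, e0_63_106__203_42_221, e0_63_106__203_42_222, e0_63_106__203_42_223, e0_63_106__203_42_224, e0_63_106__203_42_225, e0_63_106__203_42_226, e0_63_106__203_42_227, e0_63_106__203_42_228, e0_63_106__203_42_229, e0_63_106__203_42_230, e0_63_106__203_42_231, e0_63_106__203_42_232, e0_63_106__203_42_233, e0_63_106__203_42_234, e0_63_106__203_42_235, e0_63_106__203_42_236, e0_63_106__203_42_237,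 e0_63_106__203_42_238, e0_63_106__203_42_239, e0_63_106__203_42_240, e0_63_106__203_42_241, e0_63_106__203_42_242, e0_63_106__203_42_243, e0_63_106__203_42_244, e0_63_106__203_42_245, e0_63_106__203_42_246, e0_63_106__203_42_247, e0_63_106__203_42_248, e0_63_106__203_42_249, e0_63_106__203_42_250], by decide +kernel, by decide +kernel⟩
def e0_63_106__207_42_0 : Ent 4 := ⟨[a0, a63, a106], [a207, a42, a1], (M a240 (F (T t6525 (L l512 (T t817 (T t4781 N))))))⟩
def e0_63_106__207_42_1 : Ent 4 := ⟨[a0, a63, a106], [a207, a42, a2], (M a240 (L l66 (F (T t6525 (L l512 (T t817 (T t4781 (K a22 (M a62 (F (T t6525 (L l22 (L l306 (T t5926 N)))))) (K a62 (M a22 (F (T t6525 (L l512 (T t817 (T t4781 N)))))) N)))))))))⟩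
def e0_63_106__207_42_2 : Ent 4 := ⟨[a0, a63, a106], [a207, a42, a3], (M a240 (L l331 (F (T t6525 (L l45 (L l512 (T t817 (T t4781 (K a71 (M a139 (F (T t6525 (L l45 (L l512 (T t817 (T t4781 N))))))) (K a139 (M a71 (F (T t6525 (L l45 (L l512 (T t817 (T t4781 N))))))) N))))))))))⟩
def e0_63_106__207_42_3 : Ent 4 := ⟨[a0, a63, a106], [a207, a42, a5], (M a240 (F (T t6525 (L l512 (T t817 (T t4781 N))))))⟩
def e0_63_106__207_42_4 : Ent 4 := ⟨[a0, a63, a106], [a207, a42, a6], (M a240 (F (T t6525 (L l512 (T t817 (T t4781 N))))))⟩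
def e0_63_106__207_42_5 : Ent 4 := ⟨[a0, a63, a106], [a207, a42, a7], (M a240 (F (T t6525 (L l512 (T t817 (T t4781 N))))))⟩
def e0_63_106__207_42_6 : Ent 4 := ⟨[a0, a63, a106], [a207, a42, a10], (M a240 (L l54 (F (L l236 (T t4786 (L l512 (T t817 (L l318 (T t4781 (K a26 (M a58 (F (T t7740 (L l236 (L l318 (T t6609 (L l28 (L l236 (L l318 (L l325 (T t8086 N))))))))))) (K a58 (M a26 (F (L l236 (L l318 (T t6609 (L l512 (T t817 (L l318 (L l462 (T t6482 N)))))))))) N)))))))))))⟩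
def e0_63_106__207_42_7 : Ent 4 := ⟨[a0, a63, a106], [a207, a42, a11], (M a240 (F (L l236 (T t4786 (L l512 (T t817 (L l321 (T t4781 N))))))))⟩
def e0_63_106__207_42_8 : Ent 4 := ⟨[a0, a63, a106], [a207, a42, a15], (M a12 (L l325 (F (T t2419 (L l231 (L l327 (T t2305 (L l56 (T t2415 (K a79 (M a143 (F (T t2419 (L l84 (L l231 (L l327 (T t2305 (L l56 (L l84 (T t2415 N)))))))))) (K a143 (M a79 (F (T t2419 (L l155 (L l231 (L l327 (T t2305 (L l56 (T t2415 N))))))))) N)))))))))))⟩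
def e0_63_106__207_42_9 : Ent 4 := ⟨[a0, a63, a106], [a207, a42, a16], (M a240 (F (L l28 (T t6587 (L l340 (L l512 (T t4780 (T t4781 N))))))))⟩
def e0_63_106__207_42_10 : Ent 4 := ⟨[a0, a63, a106], [a207, a42, a17], (M a240 (F (T t6525 (L l10 (L l512 (T t817 (T t4781 N)))))))⟩
def e0_63_106__207_42_11 : Ent 4 := ⟨[a0, a63, a106], [a207, a42, a18], (M a240 (F (T t6525 (L l10 (L l45 (L l512 (T t817 (T t4781 N))))))))⟩
def e0_63_106__207_42_12 : Ent 4 := ⟨[a0, a63, a106], [a207, a42, a19], (M a240 (F (L l28 (T t6587 (L l512 (T t6588 (T t4781 N)))))))⟩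
def e0_63_106__207_42_13 : Ent 4 := ⟨[a0, a63, a106], [a207, a42, a21], (M a240 (F (L l236 (T t4779 (L l347 (L l512 (T t4780 (T t4781 N))))))))⟩
def e0_63_106__207_42_14 : Ent 4 := ⟨[a0, a63, a106], [a207, a42, a22], (M a240 (L l66 (F (T t6525 (L l512 (T t817 (T t4781 (K a2 (M a62 (F (T t6525 (L l22 (L l306 (T t5926 N)))))) (K a62 (M a2 (F (T t3515 (L l28 (L l325 (T t815 N)))))) N)))))))))⟩
def e0_63_106__207_42_15 : Ent 4 := ⟨[a0, a63, a106], [a207, a42, a23], (M a240 (F (L l236 (T t4779 (L l351 (L l512 (T t817 (T t4781 N))))))))⟩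
def e0_63_106__207_42_16 : Ent 4 := ⟨[a0, a63, a106], [a207, a42, a26], (M a240 (L l54 (F (T t6525 (T t4781 (L l18 (L l75 (L l512 (T t817 (K a10 (M a58 (F (T t7740 (L l236 (L l318 (T t6609 (L l28 (L l236 (L l318 (L l325 (T t8086 N))))))))))) (K a58 (M a10 (F (T t6525 (T t6610 (L l18 (T t6611 N)))))) N)))))))))))⟩
def e0_63_106__207_42_17 : Ent 4 := ⟨[a0, a63, a106], [a207, a42, a27], (M a240 (F (T t6525 (L l512 (T t817 (T t4781 N))))))⟩
def e0_63_106__207_42_18 : Ent 4 := ⟨[a0, a63, a106], [a207, a42, a31], (M a12 (F (L l13 (T t2419 (L l231 (L l375 (T t2305 (L l13 (L l56 (T t2415 N))))))))))⟩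
def e0_63_106__207_42_19 : Ent 4 := ⟨[a0, a63, a106], [a207, a42, a32], (M a240 (L l28 (F (L l236 (T t6609 (L l376 (L l512 (T t6588 (L l376 (T t4781 (K a37 (M a47 (F (T t6602 (T t6698 (T t6604 N))))) (K a47 (M a37 (F (L l376 (T t4781 (L l54 (T t6699 (L l376 (L l512 (T t6588 N))))))))) N))))))))))))⟩
def e0_63_106__207_42_20 : Ent 4 := ⟨[a0, a63, a106], [a207, a42, a33], (M a240 (F (T t6525 (L l45 (L l512 (T t817 (T t4781 N)))))))⟩
def e0_63_106__207_42_21 : Ent 4 := ⟨[a0, a63, a106], [a207, a42, a34], (M a240 (L l26 (F (T t6525 (L l512 (T t817 (T t4781 (K a38 (M a46 (F (T t8087 (L l512 (T t4780 N))))) (K a46 (M a38 (F (T t6525 (L l512 (T t817 (T t4781 N)))))) N)))))))))⟩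
def e0_63_106__207_42_22 : Ent 4 := ⟨[a0, a63, a106], [a207, a42, a35], (M a240 (F (T t6525 (L l381 (L l512 (T t817 (T t4781 N)))))))⟩
def e0_63_106__207_42_23 : Ent 4 := ⟨[a0, a63, a106], [a207, a42, a37], (M a240 (L l28 (F (T t6525 (T t4781 (L l75 (L l512 (T t817 (K a32 (M a47 (F (T t6602 (T t6698 (T t6604 N))))) (K a47 (M a32 (F (T t7229 (T t4781 (L l54 (L l289 (T t6608 N))))))) N))))))))))⟩
def e0_63_106__207_42_24 : Ent 4 := ⟨[a0, a63, a106], [a207, a42, a38], (M a240 (L l26 (F (T t6525 (L l512 (T t817 (T t4781 (K a34 (M a46 (F (T t8087 (L l512 (T t4780 N))))) (K a46 (M a34 (F (T t6525 (L l50 (L l231 (T t7230 (L l291 (T t7231 N)))))))) N)))))))))⟩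
def e0_63_106__207_42_25 : Ent 4 := ⟨[a0, a63, a106], [a207, a42, a39], (M a240 (F (T t6525 (L l512 (T t817 (T t4781 N))))))⟩
def e0_63_106__207_42_26 : Ent 4 := ⟨[a0, a63, a106], [a207, a42, a43], (M a240 (L l22 (F (T t6525 (L l512 (T t817 (T t4781 (K a40 (M a41 (F (T t6525 (L l512 (T t817 (T t4781 N)))))) (K a41 (M a40 (F (T t6525 (L l65 (L l236 (L l389 (T t7232 (L l301 (T t7233 N))))))))) N)))))))))⟩
def e0_63_106__207_42_27 : Ent 4 := ⟨[a0, a63, a106], [a207, a42, a47], (M a12 (L l28 (F (T t2419 (L l231 (T t2305 (L l56 (T t2415 (K a32 (M a37 (F (T t2419 (L l231 (T t2305 (L l56 (T t2415 N))))))) (K a37 (M a32 (F (T t2419 (L l51 (L l56 (T t682 N)))))) N))))))))))⟩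
def e0_63_106__207_42_28 : Ent 4 := ⟨[a0, a63, a106], [a207, a42, a48], (M a12 (L l512 (F (T t2419 (L l231 (L l508 (T t2305 (L l56 (T t2415 (K a101 (M a154 (F (L l147 (T t2419 (L l231 (L l491 (L l508 (T t2305 (L l56 (T t2415 N)))))))))) (K a154 (M a101 (F (L l356 (T t2419 (L l170 (L l231 (L l508 (T t2305 (L l56 (T t2415 N)))))))))) N)))))))))))⟩
def e0_63_106__207_42_29 : Ent 4 := ⟨[a0, a63, a106], [a207, a42, a49], (M a240 (F (T t6525 (L l30 (L l512 (T t817 (T t4781 N)))))))⟩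
def e0_63_106__207_42_30 : Ent 4 := ⟨[a0, a63, a106], [a207, a42, a50], (M a240 (F (T t6525 (L l30 (L l512 (T t817 (T t4781 N)))))))⟩
def e0_63_106__207_42_31 : Ent 4 := ⟨[a0, a63, a106], [a207, a42, a51], (M a240 (L l511 (F (T t6525 (L l30 (L l512 (T t817 (T t4781 (K a103 (M a155 (F (T t6525 (L l30 (L l512 (T t817 (T t4781 N))))))) (K a155 (M a103 (F (T t6525 (L l30 (L l512 (T t817 (T t4781 N))))))) N))))))))))⟩
def e0_63_106__207_42_32 : Ent 4 := ⟨[a0, a63, a106], [a207, a42, a53], (M a240 (F (L l236 (T t4786 (L l491 (L l512 (T t817 (L l419 (T t4781 N)))))))))⟩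
def e0_63_106__207_42_33 : Ent 4 := ⟨[a0, a63, a106], [a207, a42, a54], (M a240 (F (T t6525 (L l512 (T t817 (T t4781 N))))))⟩
def e0_63_106__207_42_34 : Ent 4 := ⟨[a0, a63, a106], [a207, a42, a55], (M a240 (F (L l236 (T t4786 (L l495 (L l512 (T t817 (L l423 (T t4781 N)))))))))⟩
def e0_63_106__207_42_35 : Ent 4 := ⟨[a0, a63, a106], [a207, a42, a58], (M a240 (L l54 (F (T t6525 (L l512 (T t817 (T t4781 (K a10 (M a26 (F (L l236 (L l318 (T t6609 (L l512 (T t817 (L l318 (L l462 (T t6482 N)))))))))) (K a26 (M a10 (F (T t6525 (T t6610 (L l18 (T t6611 N)))))) N)))))))))⟩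
def e0_63_106__207_42_36 : Ent 4 := ⟨[a0, a63, a106], [a207, a42, a59], (M a240 (L l56 (F (T t6525 (L l512 (T t817 (T t4781 (K a8 (M a25 (F (T t6525 (L l512 (T t817 (T t4781 N)))))) (K a25 (M a8 (F (T t7240 (L l28 (L l325 (T t815 N)))))) N)))))))))⟩
def e0_63_106__207_42_37 : Ent 4 := ⟨[a0, a63, a106], [a207, a42, a64], (M a240 (F (L l236 (T t4786 (L l84 (L l289 (T t6501 (L l28 (L l116 (L l325 (T t7881 (L l84 (L l116 (L l325 (T t6484 (L l28 (L l84 (L l236 (L l289 (T t7242 (L l116 (L l236 (T t6859 (L l28 (L l84 (L l116 (T t7882 N)))))))))))))))))))))))))))⟩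
def e0_63_106__207_42_38 : Ent 4 := ⟨[a0, a63, a106], [a207, a42, a65], (M a240 (F (T t6525 (L l512 (T t817 (L l76 (T t4781 N)))))))⟩
def e0_63_106__207_42_39 : Ent 4 := ⟨[a0, a63, a106], [a207, a42, a66], (M a240 (F (L l82 (T t6525 (L l512 (T t817 (L l76 (L l82 (T t4781 N)))))))))⟩
def e0_63_106__207_42_40 : Ent 4 := ⟨[a0, a63, a106], [a207, a42, a67], (M a240 (F (T t6525 (L l512 (T t817 (L l76 (T t4781 N)))))))⟩
def e0_63_106__207_42_41 : Ent 4 := ⟨[a0, a63, a106], [a207, a42, a69], (M a240 (F (L l236 (L l311 (T t4786 (L l512 (T t817 (L l84 (T t6482 N)))))))))⟩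
def e0_63_106__207_42_42 : Ent 4 := ⟨[a0, a63, a106], [a207, a42, a70], (M a240 (F (L l82 (T t6525 (L l512 (T t817 (L l82 (T t4781 N))))))))⟩
def e0_63_106__207_42_43 : Ent 4 := ⟨[a0, a63, a106], [a207, a42, a71], (M a3 (F (T t6736 (L l66 (T t809 (L l235 (T t3500 N)))))))⟩
def e0_63_106__207_42_44 : Ent 4 := ⟨[a0, a63, a106], [a207, a42, a74], (M a12 (F (T t2419 (L l78 (L l84 (L l231 (T t2305 (L l56 (L l84 (T t2415 N))))))))))⟩
def e0_63_106__207_42_45 : Ent 4 := ⟨[a0, a63, a106], [a207, a42, a75], (M a240 (F (L l236 (T t4786 (L l512 (T t817 (L l78 (T t4781 N))))))))⟩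
def e0_63_106__207_42_46 : Ent 4 := ⟨[a0, a63, a106], [a207, a42, a79], (M a12 (L l325 (F (T t2419 (L l84 (L l231 (T t2305 (L l56 (L l84 (T t2415 (K a15 (M a143 (F (T t2419 (L l84 (L l231 (L l327 (T t2305 (L l56 (L l84 (T t2415 N)))))))))) (K a143 (M a15 (F (T t2419 (L l331 (T t2591 N))))) N))))))))))))⟩
def e0_63_106__207_42_47 : Ent 4 := ⟨[a0, a63, a106], [a207, a42, a80], (M a12 (F (T t2419 (L l116 (L l231 (T t2305 (L l56 (L l116 (T t2415 N)))))))))⟩
def e0_63_106__207_42_48 : Ent 4 := ⟨[a0, a63, a106], [a207, a42, a81], (M a240 (F (T t6525 (L l344 (L l512 (T t817 (L l120 (T t4781 N))))))))⟩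
def e0_63_106__207_42_49 : Ent 4 := ⟨[a0, a63, a106], [a207, a42, a82], (M a240 (F (L l28 (T t6587 (L l121 (L l512 (T t6588 (T t4781 N))))))))⟩
def e0_63_106__207_42_50 : Ent 4 := ⟨[a0, a63, a106], [a207, a42, a83], (M a240 (F (T t6525 (L l512 (T t817 (L l93 (T t4781 N)))))))⟩
def e0_63_106__207_42_51 : Ent 4 := ⟨[a0, a63, a106], [a207, a42, a85], (M a240 (F (L l236 (T t4779 (L l347 (L l368 (L l512 (T t817 (L l236 (T t4786 (L l28 (L l94 (L l325 (T t6483 (K a192 (M a248 (L l236 (F (T t3821 (L l87 (L l94 (T t6520 (L l22 (L l339 (T t7244 (K a197 (M a202 (F (L l87 (L l94 (T t6520 (L l289 (L l296 (L l368 (L l491 (L l512 (T t8069 N))))))))))) (K a202 (M a197 (F (T t3821 (L l87 (L l94 (T t6520 (L l22 (L l318 (L l339 (T t7244 N)))))))))) N)))))))))))) N)))))))))))))))⟩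
def e0_63_106__207_42_52 : Ent 4 := ⟨[a0, a63, a106], [a207, a42, a86], (M a240 (F (L l236 (T t4779 (L l351 (L l512 (T t817 (T t4781 N))))))))⟩
def e0_63_106__207_42_53 : Ent 4 := ⟨[a0, a63, a106], [a207, a42, a87], (M a240 (F (T t6525 (L l512 (T t817 (L l93 (T t4781 N)))))))⟩
def e0_63_106__207_42_54 : Ent 4 := ⟨[a0, a63, a106], [a207, a42, a90], (M a12 (F (L l236 (T t2304 (L l231 (L l375 (T t2305 (L l56 (T t2415 N)))))))))⟩
def e0_63_106__207_42_55 : Ent 4 := ⟨[a0, a63, a106], [a207, a42, a91], (M a240 (F (T t6525 (L l512 (T t817 (L l93 (T t4781 N)))))))⟩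
def e0_63_106__207_42_56 : Ent 4 := ⟨[a0, a63, a106], [a207, a42, a95], (M a12 (F (T t2419 (L l231 (T t2305 (L l56 (T t2415 N)))))))⟩
def e0_63_106__207_42_57 : Ent 4 := ⟨[a0, a63, a106], [a207, a42, a96], (M a12 (F (T t2419 (L l116 (L l231 (T t2305 (L l56 (L l116 (T t2415 N)))))))))⟩
def e0_63_106__207_42_58 : Ent 4 := ⟨[a0, a63, a106], [a207, a42, a97], (M a240 (F (T t6525 (L l488 (L l512 (T t817 (T t4781 N)))))))⟩
def e0_63_106__207_42_59 : Ent 4 := ⟨[a0, a63, a106], [a207, a42, a98], (M a240 (F (T t6525 (L l381 (L l512 (T t817 (L l120 (T t4781 N))))))))⟩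
def e0_63_106__207_42_60 : Ent 4 := ⟨[a0, a63, a106], [a207, a42, a99], (M a240 (F (T t6525 (L l512 (T t817 (T t4781 N))))))⟩
def e0_63_106__207_42_61 : Ent 4 := ⟨[a0, a63, a106], [a207, a42, a101], (M a240 (L l512 (F (L l236 (T t4779 (T t4781 (L l491 (T t6611 (K a48 (M a154 (F (T t4781 (L l236 (L l383 (L l484 (T t6609 (L l289 (L l491 (T t8202 N)))))))))) (K a154 (M a48 (F (L l236 (T t4786 (L l54 (L l289 (T t3317 (L l28 (L l236 (L l404 (T t6999 N))))))))))) N))))))))))⟩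
def e0_63_106__207_42_62 : Ent 4 := ⟨[a0, a63, a106], [a207, a42, a102], (M a240 (F (L l236 (T t4779 (L l495 (L l512 (T t817 (T t4781 N))))))))⟩
def e0_63_106__207_42_63 : Ent 4 := ⟨[a0, a63, a106], [a207, a42, a103], (M a51 (F (L l231 (T t7207 (L l26 (L l493 (T t7208 (L l301 (T t7209 N)))))))))⟩
def e0_63_106__207_42_64 : Ent 4 := ⟨[a0, a63, a106], [a207, a42, a107], (M a240 (F (T t6525 (L l512 (T t817 (T t4781 N))))))⟩
def e0_63_106__207_42_65 : Ent 4 := ⟨[a0, a63, a106], [a207, a42, a111], (M a240 (F (T t6525 (L l512 (T t817 (L l137 (T t4781 N)))))))⟩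
def e0_63_106__207_42_66 : Ent 4 := ⟨[a0, a63, a106], [a207, a42, a112], (M a12 (F (T t2419 (L l116 (L l231 (T t2305 (L l56 (L l116 (T t2415 N)))))))))⟩
def e0_63_106__207_42_67 : Ent 4 := ⟨[a0, a63, a106], [a207, a42, a113], (M a240 (F (T t6525 (L l416 (L l512 (T t817 (T t4781 N)))))))⟩
def e0_63_106__207_42_68 : Ent 4 := ⟨[a0, a63, a106], [a207, a42, a114], (M a240 (F (T t6525 (L l512 (T t817 (T t4781 N))))))⟩
def e0_63_106__207_42_69 : Ent 4 := ⟨[a0, a63, a106], [a207, a42, a115], (M a240 (F (T t6525 (L l512 (T t817 (L l120 (T t4781 N)))))))⟩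
def e0_63_106__207_42_70 : Ent 4 := ⟨[a0, a63, a106], [a207, a42, a117], (M a240 (F (L l419 (T t6525 (L l440 (L l512 (T t817 (L l419 (T t4781 N)))))))))⟩
def e0_63_106__207_42_71 : Ent 4 := ⟨[a0, a63, a106], [a207, a42, a118], (M a240 (F (L l423 (T t6525 (L l512 (T t817 (L l423 (T t4781 N))))))))⟩
def e0_63_106__207_42_72 : Ent 4 := ⟨[a0, a63, a106], [a207, a42, a119], (M a240 (F (T t6525 (L l512 (T t817 (T t4781 N))))))⟩
def e0_63_106__207_42_73 : Ent 4 := ⟨[a0, a63, a106], [a207, a42, a122], (M a12 (F (T t4425 (L l56 (T t2415 (L l231 (T t2305 N)))))))⟩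
def e0_63_106__207_42_74 : Ent 4 := ⟨[a0, a63, a106], [a207, a42, a123], (M a240 (F (T t6525 (L l512 (T t817 (T t4781 N))))))⟩
def e0_63_106__207_42_75 : Ent 4 := ⟨[a0, a63, a106], [a207, a42, a127], (M a240 (F (T t6525 (L l512 (T t817 (L l137 (L l289 (T t6501 (L l137 (L l325 (T t6629 N)))))))))))⟩
def e0_63_106__207_42_76 : Ent 4 := ⟨[a0, a63, a106], [a207, a42, a128], (M a240 (F (L l28 (T t6587 (L l192 (T t4781 (L l28 (L l220 (L l325 (T t7881 (L l54 (L l160 (L l236 (L l289 (T t7251 N)))))))))))))))⟩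
def e0_63_106__207_42_77 : Ent 4 := ⟨[a0, a63, a106], [a207, a42, a129], (M a240 (F (L l28 (T t6587 (L l152 (L l217 (L l512 (T t6588 (T t4781 N)))))))))⟩
def e0_63_106__207_42_78 : Ent 4 := ⟨[a0, a63, a106], [a207, a42, a130], (M a240 (F (T t6525 (L l512 (T t817 (T t4781 N))))))⟩
def e0_63_106__207_42_79 : Ent 4 := ⟨[a0, a63, a106], [a207, a42, a131], (M a240 (F (T t6525 (L l512 (T t817 (T t4781 N))))))⟩
def e0_63_106__207_42_80 : Ent 4 := ⟨[a0, a63, a106], [a207, a42, a133], (M a12 (F (T t2419 (L l199 (L l231 (T t2305 (L l56 (T t2415 N))))))))⟩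
def e0_63_106__207_42_81 : Ent 4 := ⟨[a0, a63, a106], [a207, a42, a134], (M a240 (F (L l336 (T t6525 (L l512 (T t817 (L l336 (T t4781 N))))))))⟩
def e0_63_106__207_42_82 : Ent 4 := ⟨[a0, a63, a106], [a207, a42, a135], (M a240 (F (T t6525 (L l512 (T t817 (T t4781 N))))))⟩
def e0_63_106__207_42_83 : Ent 4 := ⟨[a0, a63, a106], [a207, a42, a138], (M a240 (F (L l236 (L l318 (T t4779 (L l512 (T t817 (L l318 (T t4781 N)))))))))⟩
def e0_63_106__207_42_84 : Ent 4 := ⟨[a0, a63, a106], [a207, a42, a139], (M a3 (F (T t7472 (L l159 (L l235 (T t3500 (L l66 (T t809 N))))))))⟩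
def e0_63_106__207_42_85 : Ent 4 := ⟨[a0, a63, a106], [a207, a42, a143], (M a240 (L l325 (F (T t6525 (L l512 (T t817 (T t4781 (K a15 (M a79 (F (L l160 (T t7488 (L l75 (L l512 (T t817 (T t7489 (K a64 (Fr a122 a181 l447 (Fr a90 a74 l130 (Fr a101 a112 l151 (Fr a80 a160 l448 (V t7490))))) N))))))))) (K a79 (M a15 (F (T t7491 (L l512 (T t817 N))))) N)))))))))⟩
def e0_63_106__207_42_86 : Ent 4 := ⟨[a0, a63, a106], [a207, a42, a144], (M a12 (F (T t2419 (L l170 (L l231 (T t2305 (L l56 (T t2415 N))))))))⟩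
def e0_63_106__207_42_87 : Ent 4 := ⟨[a0, a63, a106], [a207, a42, a145], (M a240 (F (L l28 (T t6587 (L l167 (L l196 (L l512 (T t6588 (T t4781 N)))))))))⟩
def e0_63_106__207_42_88 : Ent 4 := ⟨[a0, a63, a106], [a207, a42, a146], (M a240 (F (T t6525 (L l344 (L l488 (L l512 (T t817 (T t4781 N))))))))⟩
def e0_63_106__207_42_89 : Ent 4 := ⟨[a0, a63, a106], [a207, a42, a147], (M a240 (F (T t6525 (L l512 (T t817 (T t4781 N))))))⟩
def e0_63_106__207_42_90 : Ent 4 := ⟨[a0, a63, a106], [a207, a42, a149], (M a204 (F (L l167 (T t6655 (L l167 (L l347 (L l511 (T t6636 (L l56 (L l167 (L l495 (L l511 (T t6635 (L l56 (L l167 (L l220 (L l495 (L l511 (T t6637 (K a145 (M a153 (F (T t6638 (L l56 (L l196 (L l220 (L l341 (L l495 (T t6639 (L l196 (L l220 (L l289 (T t6640 N))))))))))))) (K a153 (M a102 (L l167 (F (T t6641 (L l208 (T t6642 (K a145 (Fr a157 a110 l507 (V t6642)) (K a157 (M a145 (F (L l208 (T t6642 (L l226 (L l511 (T t6817 (L l236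 (L l365 (T t6643 N)))))))))) N)))))))) (K a157 (M a153 (F (T t6645 (L l511 (T t6646 (L l56 (L l220 (L l495 (T t6639 (L l220 (L l289 (T t6640 N)))))))))))) (K a98 (M a170 (F (T t6647 (L l326 (L l347 (L l371 (T t6648 N))))))) (K a102 (M a12 (L l495 (F (L l236 (T t752 (L l167 (L l289 (L l371 (L l402 (T t765 (L l56 (L l371 (T t2415 (K a196 (M a55 (F (L l56 (L l347 (T t6649 (L l150 (L l220 (L l289 (T t3459 N))))))))) (K a55 (M a196 (F (T t6650 (L l167 (L l289 (L l371 (L l402 (T t765 N)))))))) N))))))))))))))) (K a110 (M a48 (F (T t6676 (L l28 (L l236 (L l289 (L l491 (T t579 (L l236 (L l491 (L l495 (L l511 (T t6651 N))))))))))))) N)))))))))))))))))))))))))⟩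
def e0_63_106__207_42_91 : Ent 4 := ⟨[a0, a63, a106], [a207, a42, a150], (M a240 (F (L l236 (T t4779 (L l163 (L l512 (T t817 (T t4781 N))))))))⟩
def e0_63_106__207_42_92 : Ent 4 := ⟨[a0, a63, a106], [a207, a42, a151], (M a240 (F (L l236 (T t4779 (L l163 (L l512 (T t817 (T t4781 N))))))))⟩
def e0_63_106__207_42_93 : Ent 4 := ⟨[a0, a63, a106], [a207, a42, a154], (M a240 (L l512 (F (L l236 (T t4779 (L l170 (T t6606 (T t4781 (K a48 (M a101 (F (L l170 (T t8203 (L l28 (L l75 (L l325 (T t7338 (L l325 (T t8204 N)))))))))) (K a101 (M a48 (F (L l236 (T t4786 (L l54 (L l289 (T t3317 (L l28 (L l236 (L l404 (T t6999 N))))))))))) N))))))))))⟩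
def e0_63_106__207_42_94 : Ent 4 := ⟨[a0, a63, a106], [a207, a42, a155], (M a51 (F (T t7877 (L l225 (L l301 (T t7209 (L l26 (T t7208 N))))))))⟩
def e0_63_106__207_42_95 : Ent 4 := ⟨[a0, a63, a106], [a207, a42, a159], (M a240 (F (L l236 (T t4779 (L l170 (L l512 (T t817 (L l361 (T t4781 N)))))))))⟩
def e0_63_106__207_42_96 : Ent 4 := ⟨[a0, a63, a106], [a207, a42, a160], (M a12 (F (T t2419 (L l231 (T t2305 (L l56 (T t2415 N)))))))⟩
def e0_63_106__207_42_97 : Ent 4 := ⟨[a0, a63, a106], [a207, a42, a161], (M a240 (F (T t6525 (L l172 (L l381 (L l512 (T t817 (L l172 (T t4781 N)))))))))⟩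
def e0_63_106__207_42_98 : Ent 4 := ⟨[a0, a63, a106], [a207, a42, a162], (M a240 (F (T t6525 (L l172 (L l512 (T t817 (L l172 (T t4781 N))))))))⟩
def e0_63_106__207_42_99 : Ent 4 := ⟨[a0, a63, a106], [a207, a42, a163], (M a240 (F (T t6525 (L l172 (L l512 (T t817 (L l172 (T t4781 N))))))))⟩
def e0_63_106__207_42_100 : Ent 4 := ⟨[a0, a63, a106], [a207, a42, a165], (M a12 (F (L l236 (T t2304 (L l199 (L l231 (T t2305 (L l56 (T t2415 N)))))))))⟩
def e0_63_106__207_42_101 : Ent 4 := ⟨[a0, a63, a106], [a207, a42, a166], (M a240 (F (L l236 (T t4779 (L l202 (L l512 (T t817 (T t4781 N))))))))⟩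
def e0_63_106__207_42_102 : Ent 4 := ⟨[a0, a63, a106], [a207, a42, a167], (M a240 (F (T t6525 (L l512 (T t817 (T t4781 N))))))⟩
def e0_63_106__207_42_103 : Ent 4 := ⟨[a0, a63, a106], [a207, a42, a170], (M a240 (F (L l236 (T t4779 (L l220 (L l512 (T t4780 (L l180 (L l220 (L l462 (T t6503 (L l28 (L l180 (L l325 (T t7265 N)))))))))))))))⟩
def e0_63_106__207_42_104 : Ent 4 := ⟨[a0, a63, a106], [a207, a42, a171], (M a240 (F (T t6525 (L l512 (T t817 (T t4781 N))))))⟩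
def e0_63_106__207_42_105 : Ent 4 := ⟨[a0, a63, a106], [a207, a42, a175], (M a240 (F (T t6525 (L l512 (T t4780 (L l180 (L l469 (T t4781 N))))))))⟩
def e0_63_106__207_42_106 : Ent 4 := ⟨[a0, a63, a106], [a207, a42, a176], (M a240 (F (L l236 (T t4786 (L l192 (L l512 (T t817 (L l190 (L l192 (T t4781 N))))))))))⟩
def e0_63_106__207_42_107 : Ent 4 := ⟨[a0, a63, a106], [a207, a42, a177], (M a240 (F (L l236 (T t4786 (L l512 (T t817 (L l187 (T t4781 N))))))))⟩
def e0_63_106__207_42_108 : Ent 4 := ⟨[a0, a63, a106], [a207, a42, a178], (M a240 (F (T t6525 (L l416 (L l512 (T t817 (T t4781 N)))))))⟩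
def e0_63_106__207_42_109 : Ent 4 := ⟨[a0, a63, a106], [a207, a42, a179], (M a240 (F (T t6525 (L l512 (T t817 (T t4781 N))))))⟩
def e0_63_106__207_42_110 : Ent 4 := ⟨[a0, a63, a106], [a207, a42, a181], (M a12 (F (T t2419 (L l199 (L l231 (T t2305 (L l56 (T t2415 N))))))))⟩
def e0_63_106__207_42_111 : Ent 4 := ⟨[a0, a63, a106], [a207, a42, a182], (M a240 (F (L l183 (T t6525 (L l512 (T t817 (L l183 (T t4781 N))))))))⟩
def e0_63_106__207_42_112 : Ent 4 := ⟨[a0, a63, a106], [a207, a42, a183], (M a240 (F (L l236 (T t4786 (L l202 (L l512 (T t817 (L l183 (T t4781 N)))))))))⟩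
def e0_63_106__207_42_113 : Ent 4 := ⟨[a0, a63, a106], [a207, a42, a186], (M a240 (F (L l190 (T t6525 (L l440 (L l512 (T t817 (L l190 (T t4781 N)))))))))⟩
def e0_63_106__207_42_114 : Ent 4 := ⟨[a0, a63, a106], [a207, a42, a187], (M a240 (F (T t6525 (L l512 (T t817 (T t4781 N))))))⟩
def e0_63_106__207_42_115 : Ent 4 := ⟨[a0, a63, a106], [a207, a42, a191], (M a240 (F (L l236 (T t4786 (L l220 (L l512 (T t817 (L l190 (L l289 (T t6501 (L l190 (L l325 (T t6654 N)))))))))))))⟩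
def e0_63_106__207_42_116 : Ent 4 := ⟨[a0, a63, a106], [a207, a42, a192], (M a204 (L l236 (F (L l489 (T t6655 (L l272 (L l489 (T t6656 (L l289 (L l296 (L l489 (T t6657 (L l56 (L l489 (T t6658 (L l489 (T t6659 (K a145 (M a102 (L l236 (L l489 (F (T t6641 (T t6660 (K a197 (M a202 (L l489 (F (T t6641 (L l289 (L l296 (T t1920 (K a98 (Fr a51 a153 l513 (V t6661)) (K a51 (Fr a98 a110 l102 (V t6662)) N))))))))) (K a98 (Fr a51 a153 l513 (V t6731)) (K a202 (M a197 (L l489 (F (T t6641 (T t6660 (K a98 (Fr a51 a153 l513 (V t8205)) (K a51 (Fr a98 a110 l102 (V t6662)) N))))))) (K a51 (Fr a98 a110 l102 (V t6662)) N)))))))))) (K a85 (M a48 (L l236 (F (L l291 (L l292 (T t2046 (L l365 (L l489 (T t8206 (K a197 (M a202 (F (T t8207 (L l126 (L l291 (L l292 (T t1319 N))))))) (K a202 (M a197 (F (L l368 (T t6676 (L l56 (L l365 (L l489 (T t8208 N)))))))) N))))))))))) (K a157 (M a153 (L l236 (F (T t6645 (L l489 (L l511 (T t6646 (L l56 (L l272 (L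 l334 (L l359 (T t6672 (K a197 (M a202 (F (L l359 (T t7421 (L l54 (L l56 (L l233 (T t8209 N)))))))) (K a202 (M a197 (F (T t6777 (L l489 (L l511 (T t6646 (L l56 (L l272 (L l334 (L l359 (T t6672 N))))))))))) N)))))))))))))) (K a98 (M a153 (L l236 (L l489 (F (T t6645 (L l289 (L l296 (T t6668 (L l26 (L l120 (L l378 (T t6669 (K a145 (Fr a51 a102 l513 (V t6670)) (K a197 (M a202 (L l489 (F (T t7421 (L l54 (L l56 (L l233 (T t8209 (K a145 (Fr a51 a102 l513 (V t6670)) (K a51 (M a145 (L l511 (F (T t6671 (L l54 (L l56 (L l233 (T t8209 (K a103 (M a155 (F (T t6671 (T t8210 N)))) (K a155 (M a103 (F (T t6671 (L l54 (L l56 (L l207 (L l334 (L l439 (L l499 (T t8211 N)))))))))) N)))))))))) N)))))))))) (K a202 (M a197 (L l489 (F (T t6777 (L l289 (L l296 (T t6668 (L l26 (L l120 (L l230 (L l378 (T t6669 (K a145 (Fr a51 a102 l513 (V t6670)) (K a51 (M a145 (L l511 (F (T t6671 (L l56 (L l272 (L l334 (L l378 (T t6672 (K a103 (M a155 (F (T t6671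 (L l403 (T t8212 N))))) (K a155 (M a103 (F (T t6671 (L l56 (L l272 (L l334 (L l378 (L l499 (T t6672 N))))))))) N))))))))))) N)))))))))))))) (K a51 (M a145 (L l236 (L l511 (F (T t6671 (L l56 (L l272 (L l334 (L l378 (T t6672 (K a197 (M a202 (L l511 (F (T t6671 (L l54 (L l56 (L l233 (T t8209 (K a103 (M a155 (F (T t6671 (T t8210 N)))) (K a155 (M a103 (F (T t6671 (L l54 (L l56 (L l207 (L l334 (L l439 (L l499 (T t8211 N)))))))))) N)))))))))) (K a202 (M a197 (L l511 (F (T t6671 (L l56 (L l272 (L l334 (L l378 (T t6672 (K a103 (M a155 (F (T t6671 (L l403 (T t8212 N))))) (K a155 (M a103 (F (T t6671 (L l56 (L l272 (L l334 (L l378 (L l499 (T t6672 N))))))))) N))))))))))) (K a103 (M a155 (L l236 (F (T t6671 (L l103 (T t8213 (K a197 (M a202 (F (T t6671 (T t8210 N)))) (K a202 (M a197 (F (T t6671 (L l403 (T t8212 N))))) N)))))))) (K a155 (M a103 (L l236 (F (T t6671 (L l56 (L l272 (L l334 (L l378 (L l499 (T t6672 (K a197 (M a202 (F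 (T t6671 (L l54 (L l56 (L l207 (L l334 (L l439 (L l499 (T t8211 N)))))))))) (K a202 (M a197 (F (T t6671 (L l56 (L l272 (L l334 (L l378 (L l499 (T t6672 N))))))))) N)))))))))))) N)))))))))))))) N)))))))))))))))) (K a102 (M a252 (L l236 (F (L l148 (T t8214 (L l484 (L l512 (T t6673 (L l309 (T t6675 (K a197 (M a202 (F (L l405 (T t6795 (L l325 (L l339 (T t7135 (L l309 (L l402 (T t6476 N)))))))))) (K a202 (M a197 (F (L l405 (T t6795 (L l148 (L l325 (L l339 (T t6674 (L l309 (L l402 (T t6476 N))))))))))) N)))))))))))) (K a110 (M a153 (L l236 (F (T t6645 (L l489 (L l511 (T t6646 (L l56 (L l272 (L l334 (T t6672 (K a197 (M a202 (F (T t7421 (L l54 (L l56 (L l233 (T t8209 N))))))) (K a202 (M a197 (F (T t6777 (L l489 (L l511 (T t6646 (L l56 (L l272 (L l334 (T t6672 N)))))))))) N))))))))))))) (K a51 (M a236 (L l236 (L l489 (L l511 (F (T t8215 (L l22 (T t8216 (K a145 (M a98 (L l236 (L l511 (F (T t6678 (L l28 (L l30 (L l484 (L l512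 (T t8217 (K a197 (M a202 (L l511 (F (T t6678 (L l28 (L l30 (L l484 (L l512 (T t8217 (K a103 (M a155 (F (T t6678 (L l28 (L l30 (L l484 (L l512 (T t8217 N)))))))) (K a155 (M a103 (F (T t6678 (L l28 (L l30 (L l484 (L l512 (T t8217 N)))))))) N))))))))))) (K a202 (M a197 (L l511 (F (T t6678 (L l28 (L l30 (L l484 (L l512 (T t8217 (K a103 (M a155 (F (T t6678 (L l28 (L l30 (L l484 (L l512 (T t8217 N)))))))) (K a155 (M a103 (F (T t6678 (L l28 (L l30 (L l484 (L l512 (T t8217 N)))))))) N))))))))))) (K a103 (M a155 (L l236 (F (T t6678 (L l28 (L l30 (L l484 (L l512 (T t8217 (K a197 (M a202 (F (T t6678 (L l28 (L l30 (L l484 (L l512 (T t8217 N)))))))) (K a202 (M a197 (F (T t6678 (L l28 (L l30 (L l484 (L l512 (T t8217 N)))))))) N))))))))))) (K a155 (M a103 (L l236 (F (T t6678 (L l28 (L l30 (L l484 (L l512 (T t8217 (K a197 (M a202 (F (T t6678 (L l28 (L l30 (L l484 (L l512 (T t8217 N)))))))) (K a202 (M a197 (F (T t6678 (L l28 (L l30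 (L l484 (L l512 (T t8217 N)))))))) N))))))))))) N)))))))))))))) (K a197 (M a202 (L l489 (L l511 (F (T t8215 (L l22 (T t8216 (K a145 (M a98 (L l511 (F (T t6678 (L l28 (L l30 (L l484 (L l512 (T t8217 (K a103 (M a155 (F (T t6678 (L l28 (L l30 (L l484 (L l512 (T t8217 N)))))))) (K a155 (M a103 (F (T t6678 (L l28 (L l30 (L l484 (L l512 (T t8217 N)))))))) N))))))))))) (K a98 (M a145 (L l511 (F (L l491 (L l512 (T t8218 (T t8219 (K a103 (M a155 (F (L l54 (T t8220 (L l28 (T t8221 (L l28 (L l73 (L l325 (L l339 (T t8222 N))))))))))) (K a155 (M a103 (F (T t8219 (L l164 (L l491 (L l512 (T t8223 N))))))) N))))))))) (K a103 (M a155 (L l489 (F (T t8215 (L l22 (T t8216 (K a145 (M a98 (F (T t6678 (L l28 (L l30 (L l484 (L l512 (T t8217 N)))))))) (K a98 (M a145 (F (L l54 (T t8220 (L l28 (T t8221 (L l28 (L l73 (L l325 (L l339 (T t8222 N))))))))))) N)))))))) (K a155 (M a103 (L l489 (F (T t8215 (L l22 (T t8216 (K a145 (M a98 (F (T t6678 (L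 l28 (L l30 (L l484 (L l512 (T t8217 N)))))))) (K a98 (M a145 (F (T t8219 (L l164 (L l491 (L l512 (T t8223 N))))))) N)))))))) N))))))))))) (K a98 (M a145 (L l236 (L l511 (F (T t8219 (T t8215 (L l334 (L l439 (T t6807 (K a197 (M a202 (L l511 (F (L l491 (L l512 (T t8218 (T t8219 (K a103 (M a155 (F (L l54 (T t8220 (L l28 (T t8221 (L l28 (L l73 (L l325 (L l339 (T t8222 N))))))))))) (K a155 (M a103 (F (T t8219 (L l164 (L l491 (L l512 (T t8223 N))))))) N))))))))) (K a202 (M a197 (L l511 (F (T t8219 (T t8215 (L l54 (L l512 (T t8224 (K a103 (M a155 (F (T t8219 (T t8215 (L l512 (T t8225 N)))))) (K a155 (M a103 (F (T t8219 (T t8215 (L l164 (T t8226 N)))))) N)))))))))) (K a103 (M a155 (L l236 (F (T t8219 (T t8215 (L l512 (T t8227 (K a197 (M a202 (F (L l54 (T t8220 (L l28 (T t8221 (L l28 (L l73 (L l325 (L l339 (T t8222 N))))))))))) (K a202 (M a197 (F (T t8219 (T t8215 (L l512 (T t8225 N)))))) N))))))))) (K a155 (M a103 (L l236 (F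 (T t8219 (T t8215 (L l26 (L l207 (L l378 (L l439 (T t8228 (K a197 (M a202 (F (T t8219 (L l164 (L l491 (L l512 (T t8223 N))))))) (K a202 (M a197 (F (T t8219 (T t8215 (L l164 (T t8226 N)))))) N)))))))))))) N))))))))))))) (K a202 (M a197 (L l489 (L l511 (F (T t8215 (L l22 (T t8216 (K a145 (M a98 (L l511 (F (T t6678 (L l28 (L l30 (L l484 (L l512 (T t8217 (K a103 (M a155 (F (T t6678 (L l28 (L l30 (L l484 (L l512 (T t8217 N)))))))) (K a155 (M a103 (F (T t6678 (L l28 (L l30 (L l484 (L l512 (T t8217 N)))))))) N))))))))))) (K a98 (M a145 (L l511 (F (T t8219 (T t8215 (L l54 (L l512 (T t8224 (K a103 (M a155 (F (T t8219 (T t8215 (L l512 (T t8225 N)))))) (K a155 (M a103 (F (T t8219 (T t8215 (L l164 (T t8226 N)))))) N)))))))))) (K a103 (M a155 (L l489 (F (T t8215 (L l22 (T t8216 (K a145 (M a98 (F (T t6678 (L l28 (L l30 (L l484 (L l512 (T t8217 N)))))))) (K a98 (M a145 (F (T t8219 (T t8215 (L l512 (T t8225 N)))))) N)))))))) (K a155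 (M a103 (L l489 (F (T t8215 (L l22 (T t8216 (K a145 (M a98 (F (T t6678 (L l28 (L l30 (L l484 (L l512 (T t8217 N)))))))) (K a98 (M a145 (F (T t8219 (T t8215 (L l164 (T t8226 N)))))) N)))))))) N))))))))))) (K a103 (M a155 (L l236 (L l489 (F (T t8215 (L l22 (T t8216 (K a145 (M a98 (L l236 (F (T t6678 (L l28 (L l30 (L l484 (L l512 (T t8217 (K a197 (M a202 (F (T t6678 (L l28 (L l30 (L l484 (L l512 (T t8217 N)))))))) (K a202 (M a197 (F (T t6678 (L l28 (L l30 (L l484 (L l512 (T t8217 N)))))))) N))))))))))) (K a197 (M a202 (L l489 (F (T t8215 (L l22 (T t8216 (K a145 (M a98 (F (T t6678 (L l28 (L l30 (L l484 (L l512 (T t8217 N)))))))) (K a98 (M a145 (F (L l54 (T t8220 (L l28 (T t8221 (L l28 (L l73 (L l325 (L l339 (T t8222 N))))))))))) N)))))))) (K a98 (M a145 (L l236 (F (T t8219 (T t8215 (L l512 (T t8227 (K a197 (M a202 (F (L l54 (T t8220 (L l28 (T t8221 (L l28 (L l73 (L l325 (L l339 (T t8222 N))))))))))) (K a202 (M a197 (F (T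 t8219 (T t8215 (L l512 (T t8225 N)))))) N))))))))) (K a202 (M a197 (L l489 (F (T t8215 (L l22 (T t8216 (K a145 (M a98 (F (T t6678 (L l28 (L l30 (L l484 (L l512 (T t8217 N)))))))) (K a98 (M a145 (F (T t8219 (T t8215 (L l512 (T t8225 N)))))) N)))))))) N))))))))))) (K a155 (M a103 (L l236 (L l489 (F (T t8215 (L l22 (T t8216 (K a145 (M a98 (L l236 (F (T t6678 (L l28 (L l30 (L l484 (L l512 (T t8217 (K a197 (M a202 (F (T t6678 (L l28 (L l30 (L l484 (L l512 (T t8217 N)))))))) (K a202 (M a197 (F (T t6678 (L l28 (L l30 (L l484 (L l512 (T t8217 N)))))))) N))))))))))) (K a197 (M a202 (L l489 (F (T t8215 (L l22 (T t8216 (K a145 (M a98 (F (T t6678 (L l28 (L l30 (L l484 (L l512 (T t8217 N)))))))) (K a98 (M a145 (F (T t8219 (L l164 (L l491 (L l512 (T t8223 N))))))) N)))))))) (K a98 (M a145 (L l236 (F (T t8219 (T t8215 (L l26 (L l207 (L l378 (L l439 (T t8228 (K a197 (M a202 (F (T t8219 (L l164 (L l491 (L l512 (T t8223 N))))))) (K a202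 (M a197 (F (T t8219 (T t8215 (L l164 (T t8226 N)))))) N)))))))))))) (K a202 (M a197 (L l489 (F (T t8215 (L l22 (T t8216 (K a145 (M a98 (F (T t6678 (L l28 (L l30 (L l484 (L l512 (T t8217 N)))))))) (K a98 (M a145 (F (T t8219 (T t8215 (L l164 (T t8226 N)))))) N)))))))) N))))))))))) N)))))))))))))) (K a197 (M a202 (F (L l489 (T t6655 (L l491 (L l512 (T t8229 (L l54 (L l229 (L l489 (T t8230 N))))))))))) (K a202 (M a197 (F (L l489 (T t6655 (L l272 (L l489 (T t6656 (L l289 (L l296 (L l489 (T t6657 (L l56 (L l489 (T t6658 (L l489 (T t6659 (K a145 (M a102 (L l489 (F (T t6641 (T t6660 (K a98 (Fr a51 a153 l513 (V t8205)) (K a51 (Fr a98 a110 l102 (V t6662)) N))))))) (K a85 (M a196 (F (L l365 (L l489 (T t8231 (L l234 (L l331 (L l334 (T t8176 N))))))))) (K a157 (M a252 (F (T t6792 (L l211 (L l230 (L l309 (T t6796 (L l211 (L l309 (T t6476 N)))))))))) (K a98 (M a153 (L l489 (F (T t6777 (L l289 (L l296 (T t6668 (L l26 (L l120 (L l230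 (L l378 (T t6669 (K a145 (Fr a51 a102 l513 (V t6670)) (K a51 (M a145 (L l511 (F (T t6671 (L l56 (L l272 (L l334 (L l378 (T t6672 (K a103 (M a155 (F (T t6671 (L l403 (T t8212 N))))) (K a155 (M a103 (F (T t6671 (L l56 (L l272 (L l334 (L l378 (L l499 (T t6672 N))))))))) N))))))))))) N)))))))))))))) (K a102 (M a153 (F (L l489 (L l506 (T t8178 (L l56 (L l126 (L l272 (L l334 (T t6672 N)))))))))) (K a110 (M a252 (F (T t8179 (L l230 (L l309 (L l399 (T t6796 (L l309 (T t6476 N))))))))) (K a51 (M a85 (L l489 (L l511 (F (T t814 (T t8180 (K a145 (M a98 (L l511 (F (T t6678 (T t814 (K a103 (M a155 (F (T t6678 (T t814 N)))) (K a155 (M a103 (F (T t6678 (T t3095 N)))) N))))))) (K a98 (M a145 (L l511 (F (T t814 (L l339 (T t8181 (K a103 (M a155 (F (T t814 (L l125 (T t8182 N))))) (K a155 (M a103 (F (T t814 (L l164 (T t8183 N))))) N)))))))) (K a103 (M a155 (L l489 (F (T t814 (T t8180 (K a145 (M a98 (F (T t6678 (T t814 N)))) (K a98 (M a145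 (F (T t814 (L l125 (T t8182 N))))) N))))))) (K a155 (M a103 (L l489 (F (T t814 (T t8180 (K a145 (M a98 (F (T t6678 (T t3095 N)))) (K a98 (M a145 (F (T t814 (L l164 (T t8183 N))))) N))))))) N)))))))))) N))))))))))))))))))))))) N))))))))))))))))))))))))))⟩
def e0_63_106__207_42_117 : Ent 4 := ⟨[a0, a63, a106], [a207, a42, a193], (M a240 (F (L l28 (T t6587 (L l512 (L l515 (T t6588 (T t4781 N))))))))⟩
def e0_63_106__207_42_118 : Ent 4 := ⟨[a0, a63, a106], [a207, a42, a194], (M a240 (F (L l28 (T t6683 (L l336 (T t4781 (L l512 (T t817 N))))))))⟩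
def e0_63_106__207_42_119 : Ent 4 := ⟨[a0, a63, a106], [a207, a42, a195], (M a240 (L l235 (F (T t6525 (L l488 (L l512 (T t817 (T t4781 (K a199 (M a203 (F (T t6525 (L l488 (L l512 (T t817 (T t4781 N))))))) (K a203 (M a199 (F (T t6525 (L l488 (L l512 (T t817 (T t4781 N))))))) N))))))))))⟩
def e0_63_106__207_42_120 : Ent 4 := ⟨[a0, a63, a106], [a207, a42, a197], (M a12 (L l236 (F (T t2419 (L l231 (L l491 (T t2305 (L l56 (T t2415 (K a192 (M a202 (F (L l56 (L l272 (T t2415 (L l28 (L l491 (L l512 (T t8151 (L l272 (T t8152 N))))))))))) (K a202 (Fr a192 a149 l519 (V t8153)) N)))))))))))⟩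
def e0_63_106__207_42_121 : Ent 4 := ⟨[a0, a63, a106], [a207, a42, a198], (M a240 (F (T t6525 (L l512 (T t817 (T t4781 N))))))⟩
def e0_63_106__207_42_122 : Ent 4 := ⟨[a0, a63, a106], [a207, a42, a199], (M a195 (F (L l236 (T t6880 (L l331 (T t6810 (L l493 (T t6811 N))))))))⟩
def e0_63_106__207_42_123 : Ent 4 := ⟨[a0, a63, a106], [a207, a42, a202], (M a204 (L l236 (F (T t6748 (L l230 (L l326 (T t4770 (T t6655 (K a192 (M a197 (F (L l489 (T t6655 (L l272 (L l489 (T t6656 (L l289 (L l296 (L l489 (T t6657 (L l56 (L l489 (T t6658 (L l489 (T t6659 (K a145 (M a102 (L l489 (F (T t6641 (T t6660 (K a98 (Fr a51 a153 l513 (V t8205)) (K a51 (Fr a98 a110 l102 (V t6662)) N))))))) (K a85 (M a196 (F (L l365 (L l489 (T t8231 (L l234 (L l331 (L l334 (T t8176 N))))))))) (K a157 (M a252 (F (T t6792 (L l211 (L l230 (L l309 (T t6796 (L l211 (L l309 (T t6476 N)))))))))) (K a98 (M a153 (L l489 (F (T t6777 (L l289 (L l296 (T t6668 (L l26 (L l120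 (L l230 (L l378 (T t6669 (K a145 (Fr a51 a102 l513 (V t6670)) (K a51 (M a145 (L l511 (F (T t6671 (L l56 (L l272 (L l334 (L l378 (T t6672 (K a103 (M a155 (F (T t6671 (L l403 (T t8212 N))))) (K a155 (M a103 (F (T t6671 (L l56 (L l272 (L l334 (L l378 (L l499 (T t6672 N))))))))) N))))))))))) N)))))))))))))) (K a102 (M a153 (F (L l489 (L l506 (T t8178 (L l56 (L l126 (L l272 (L l334 (T t6672 N)))))))))) (K a110 (M a252 (F (T t8179 (L l230 (L l309 (L l399 (T t6796 (L l309 (T t6476 N))))))))) (K a51 (M a85 (L l489 (L l511 (F (T t814 (T t8180 (K a145 (M a98 (L l511 (F (T t6678 (T t814 (K a103 (M a155 (F (T t6678 (T t814 N)))) (K a155 (M a103 (F (T t6678 (T t3095 N)))) N))))))) (K a98 (M a145 (L l511 (F (T t814 (L l339 (T t8181 (K a103 (M a155 (F (T t814 (L l125 (T t8182 N))))) (K a155 (M a103 (F (T t814 (L l164 (T t8183 N))))) N)))))))) (K a103 (M a155 (L l489 (F (T t814 (T t8180 (K a145 (M a98 (F (T t6678 (T t814 N)))) (K a98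 (M a145 (F (T t814 (L l125 (T t8182 N))))) N))))))) (K a155 (M a103 (L l489 (F (T t814 (T t8180 (K a145 (M a98 (F (T t6678 (T t3095 N)))) (K a98 (M a145 (F (T t814 (L l164 (T t8183 N))))) N))))))) N)))))))))) N))))))))))))))))))))))) (K a197 (Fr a192 a149 l519 (V t6761)) N))))))))))⟩
def e0_63_106__207_42_124 : Ent 4 := ⟨[a0, a63, a106], [a207, a42, a203], (M a195 (F (T t6809 (L l331 (T t6810 (T t6811 N))))))⟩
def e0_63_106__207_42_125 : Ent 4 := ⟨[a0, a63, a106], [a207, a42, a208], (M a12 (F (T t2419 (L l231 (L l375 (T t2305 (L l56 (T t2415 N))))))))⟩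
def e0_63_106__207_42_126 : Ent 4 := ⟨[a0, a63, a106], [a207, a42, a209], (M a240 (F (L l28 (T t6587 (L l371 (L l512 (T t6588 (T t4781 N))))))))⟩
def e0_63_106__207_42_127 : Ent 4 := ⟨[a0, a63, a106], [a207, a42, a210], (M a240 (F (L l28 (T t6587 (L l512 (T t6588 (T t4781 N)))))))⟩
def e0_63_106__207_42_128 : Ent 4 := ⟨[a0, a63, a106], [a207, a42, a211], (M a240 (F (L l28 (T t6587 (L l512 (T t6588 (T t4781 N)))))))⟩
def e0_63_106__207_42_129 : Ent 4 := ⟨[a0, a63, a106], [a207, a42, a213], (M a240 (F (L l28 (T t6587 (L l347 (L l512 (T t6588 (T t4781 N))))))))⟩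
def e0_63_106__207_42_130 : Ent 4 := ⟨[a0, a63, a106], [a207, a42, a214], (M a240 (F (T t6525 (L l512 (T t817 (T t4781 N))))))⟩
def e0_63_106__207_42_131 : Ent 4 := ⟨[a0, a63, a106], [a207, a42, a215], (M a240 (F (T t6525 (L l512 (T t817 (T t4781 N))))))⟩
def e0_63_106__207_42_132 : Ent 4 := ⟨[a0, a63, a106], [a207, a42, a218], (M a240 (F (L l28 (T t6587 (L l512 (T t6588 (T t4781 N)))))))⟩
def e0_63_106__207_42_133 : Ent 4 := ⟨[a0, a63, a106], [a207, a42, a219], (M a243 (F (T t6529 (L l511 (T t6530 (T t6531 N))))))⟩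
def e0_63_106__207_42_134 : Ent 4 := ⟨[a0, a63, a106], [a207, a42, a223], (M a240 (L l289 (F (L l236 (T t4786 (L l368 (L l512 (T t817 (L l361 (T t4781 (K a239 (M a255 (F (T t6960 (L l236 (T t6609 N))))) (K a255 (M a239 (F (L l28 (T t6587 (L l440 (L l512 (T t6588 (L l28 (T t8232 (L l325 (L l469 (T t8233 N)))))))))))) N))))))))))))⟩
def e0_63_106__207_42_135 : Ent 4 := ⟨[a0, a63, a106], [a207, a42, a224], (M a12 (F (T t8070 (L l56 (L l248 (T t2415 (L l231 (T t2305 N))))))))⟩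
def e0_63_106__207_42_136 : Ent 4 := ⟨[a0, a63, a106], [a207, a42, a225], (M a240 (F (T t6525 (L l248 (L l512 (T t817 (T t4781 N)))))))⟩
def e0_63_106__207_42_137 : Ent 4 := ⟨[a0, a63, a106], [a207, a42, a226], (M a240 (F (T t6525 (L l248 (L l512 (T t817 (T t4781 N)))))))⟩
def e0_63_106__207_42_138 : Ent 4 := ⟨[a0, a63, a106], [a207, a42, a227], (M a240 (F (T t6525 (L l248 (L l512 (T t817 (T t4781 N)))))))⟩
def e0_63_106__207_42_139 : Ent 4 := ⟨[a0, a63, a106], [a207, a42, a229], (M a240 (F (T t6525 (L l256 (L l512 (T t817 (T t4781 N)))))))⟩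
def e0_63_106__207_42_140 : Ent 4 := ⟨[a0, a63, a106], [a207, a42, a230], (M a240 (F (T t6525 (L l512 (T t817 (T t4781 N))))))⟩
def e0_63_106__207_42_141 : Ent 4 := ⟨[a0, a63, a106], [a207, a42, a231], (M a243 (F (T t6529 (L l511 (T t6530 (T t6531 N))))))⟩
def e0_63_106__207_42_142 : Ent 4 := ⟨[a0, a63, a106], [a207, a42, a234], (M a240 (F (T t6525 (L l256 (L l512 (T t817 (T t4781 N)))))))⟩
def e0_63_106__207_42_143 : Ent 4 := ⟨[a0, a63, a106], [a207, a42, a235], (M a240 (F (T t6525 (L l512 (T t817 (T t4781 N))))))⟩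
def e0_63_106__207_42_144 : Ent 4 := ⟨[a0, a63, a106], [a207, a42, a239], (M a240 (L l289 (F (T t6525 (L l256 (L l512 (T t817 (T t4781 (K a223 (M a255 (F (T t6960 (L l236 (T t6609 N))))) (K a255 (M a223 (F (T t8234 (L l256 (L l440 (L l512 (T t817 (L l28 (L l325 (L l397 (L l469 (T t815 N)))))))))))) N))))))))))⟩
def e0_63_106__207_42_145 : Ent 4 := ⟨[a0, a63, a106], [a207, a42, a240], (M a12 (L l303 (F (T t2419 (L l231 (L l298 (T t2305 (L l56 (T t2415 (K a229 (M a218 (F (T t2419 (L l231 (L l298 (T t2305 (L l56 (T t2415 N)))))))) (K a218 (M a229 (F (T t2419 (L l231 (L l298 (T t2305 (L l56 (T t2415 N)))))))) N)))))))))))⟩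
def e0_63_106__207_42_146 : Ent 4 := ⟨[a0, a63, a106], [a207, a42, a241], (M a240 (F (L l236 (T t4786 (L l512 (T t817 (L l443 (T t4781 N))))))))⟩
def e0_63_106__207_42_147 : Ent 4 := ⟨[a0, a63, a106], [a207, a42, a242], (M a240 (F (T t6525 (L l512 (T t817 (T t4781 N))))))⟩
def e0_63_106__207_42_148 : Ent 4 := ⟨[a0, a63, a106], [a207, a42, a243], (M a240 (L l301 (F (T t6525 (L l416 (L l512 (T t817 (T t4781 (K a231 (M a219 (F (T t6525 (L l416 (L l512 (T t817 (T t4781 N))))))) (K a219 (M a231 (F (T t6525 (L l416 (L l512 (T t817 (T t4781 N))))))) N))))))))))⟩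
def e0_63_106__207_42_149 : Ent 4 := ⟨[a0, a63, a106], [a207, a42, a245], (M a240 (F (L l236 (T t4786 (L l512 (T t817 (L l419 (T t4781 N))))))))⟩
def e0_63_106__207_42_150 : Ent 4 := ⟨[a0, a63, a106], [a207, a42, a246], (M a240 (F (T t6525 (L l512 (T t817 (T t4781 N))))))⟩
def e0_63_106__207_42_151 : Ent 4 := ⟨[a0, a63, a106], [a207, a42, a247], (M a240 (F (T t6525 (L l512 (T t817 (T t4781 N))))))⟩
def e0_63_106__207_42_152 : Ent 4 := ⟨[a0, a63, a106], [a207, a42, a250], (M a240 (F (T t6525 (L l512 (T t817 (T t4781 N))))))⟩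
def e0_63_106__207_42_153 : Ent 4 := ⟨[a0, a63, a106], [a207, a42, a251], (M a240 (F (T t6525 (L l512 (T t817 (T t4781 N))))))⟩
def e0_63_106__207_42_154 : Ent 4 := ⟨[a0, a63, a106], [a207, a42, a255], (M a12 (L l289 (F (T t2419 (L l231 (L l290 (T t2305 (L l56 (L l439 (T t7149 (L l56 (L l265 (T t7150 (K a223 (M a239 (F (T t2419 (L l231 (L l290 (T t2305 (L l56 (L l368 (L l439 (T t7149 (L l56 (L l265 (T t7150 N))))))))))))) (K a239 (M a223 (F (T t2419 (L l231 (L l290 (T t2305 (L l56 (L l265 (T t8235 (L l56 (L l265 (T t7150 N)))))))))))) N)))))))))))))))⟩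
def b0_63_106__207_42 : Blk 4 := ⟨[0, 63, 106], [207, 42], [1, 2, 3, 5, 6, 7, 10, 11, 15, 16, 17, 18, 19, 21, 22, 23, 26, 27, 31, 32, 33, 34, 35, 37, 38, 39, 43, 47, 48, 49, 50, 51, 53, 54, 55, 58, 59, 64, 65, 66, 67, 69, 70, 71, 74, 75, 79, 80, 81, 82, 83, 85, 86, 87, 90, 91, 95, 96, 97, 98, 99, 101, 102, 103, 107, 111, 112, 113, 114, 115, 117, 118, 119, 122, 123, 127, 128, 129, 130, 131, 133, 134, 135, 138, 139, 143, 144, 145, 146, 147, 149, 150, 151, 154, 155, 159, 160, 161, 162, 163, 165, 166, 167, 170, 171, 175, 176, 177, 178, 179, 181, 182, 183, 186, 187, 191, 192, 193, 194, 195, 197, 198, 199, 202, 203, 208, 209, 210, 211, 213, 214, 215, 218, 219, 223, 224, 225, 226, 227, 229, 230, 231, 234, 235, 239, 240, 241, 242, 243, 245, 246, 247, 250, 251, 255], [e0_63_106__207_42_0, e0_63_106__207_42_1, e0_63_106__207_42_2, e0_63_106__207_42_3, e0_63_106__207_42_4, e0_63_106__207_42_5, e0_63_106__207_42_6, e0_63_106__207_42_7,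 e0_63_106__207_42_8, e0_63_106__207_42_9, e0_63_106__207_42_10, e0_63_106__207_42_11, e0_63_106__207_42_12, e0_63_106__207_42_13, e0_63_106__207_42_14, e0_63_106__207_42_15, e0_63_106__207_42_16, e0_63_106__207_42_17, e0_63_106__207_42_18, e0_63_106__207_42_19, e0_63_106__207_42_20, e0_63_106__207_42_21, e0_63_106__207_42_22, e0_63_106__207_42_23, e0_63_106__207_42_24, e0_63_106__207_42_25, e0_63_106__207_42_26, e0_63_106__207_42_27, e0_63_106__207_42_28, e0_63_106__207_42_29, e0_63_106__207_42_30, e0_63_106__207_42_31, e0_63_106__207_42_32, e0_63_106__207_42_33, e0_63_106__207_42_34, e0_63_106__207_42_35, e0_63_106__207_42_36, e0_63_106__207_42_37, e0_63_106__207_42_38, e0_63_106__207_42_39, e0_63_106__207_42_40, e0_63_106__207_42_41, e0_63_106__207_42_42, e0_63_106__207_42_43, e0_63_106__207_42_44, e0_63_106__207_42_45, e0_63_106__207_42_46, e0_63_106__207_42_47, e0_63_106__207_42_48, e0_63_106__207_42_49, e0_63_106__207_42_50,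 e0_63_106__207_42_51, e0_63_106__207_42_52, e0_63_106__207_42_53, e0_63_106__207_42_54, e0_63_106__207_42_55, e0_63_106__207_42_56, e0_63_106__207_42_57, e0_63_106__207_42_58, e0_63_106__207_42_59, e0_63_106__207_42_60, e0_63_106__207_42_61, e0_63_106__207_42_62, e0_63_106__207_42_63, e0_63_106__207_42_64, e0_63_106__207_42_65, e0_63_106__207_42_66, e0_63_106__207_42_67, e0_63_106__207_42_68, e0_63_106__207_42_69, e0_63_106__207_42_70, e0_63_106__207_42_71, e0_63_106__207_42_72, e0_63_106__207_42_73, e0_63_106__207_42_74, e0_63_106__207_42_75, e0_63_106__207_42_76, e0_63_106__207_42_77, e0_63_106__207_42_78, e0_63_106__207_42_79, e0_63_106__207_42_80, e0_63_106__207_42_81, e0_63_106__207_42_82, e0_63_106__207_42_83, e0_63_106__207_42_84, e0_63_106__207_42_85, e0_63_106__207_42_86, e0_63_106__207_42_87, e0_63_106__207_42_88, e0_63_106__207_42_89, e0_63_106__207_42_90, e0_63_106__207_42_91, e0_63_106__207_42_92, e0_63_106__207_42_93,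 e0_63_106__207_42_94, e0_63_106__207_42_95, e0_63_106__207_42_96, e0_63_106__207_42_97, e0_63_106__207_42_98, e0_63_106__207_42_99, e0_63_106__207_42_100, e0_63_106__207_42_101, e0_63_106__207_42_102, e0_63_106__207_42_103, e0_63_106__207_42_104, e0_63_106__207_42_105, e0_63_106__207_42_106, e0_63_106__207_42_107, e0_63_106__207_42_108, e0_63_106__207_42_109, e0_63_106__207_42_110, e0_63_106__207_42_111, e0_63_106__207_42_112, e0_63_106__207_42_113, e0_63_106__207_42_114, e0_63_106__207_42_115, e0_63_106__207_42_116, e0_63_106__207_42_117, e0_63_106__207_42_118, e0_63_106__207_42_119, e0_63_106__207_42_120, e0_63_106__207_42_121, e0_63_106__207_42_122, e0_63_106__207_42_123, e0_63_106__207_42_124, e0_63_106__207_42_125, e0_63_106__207_42_126, e0_63_106__207_42_127, e0_63_106__207_42_128, e0_63_106__207_42_129, e0_63_106__207_42_130, e0_63_106__207_42_131, e0_63_106__207_42_132, e0_63_106__207_42_133, e0_63_106__207_42_134,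 e0_63_106__207_42_135, e0_63_106__207_42_136, e0_63_106__207_42_137, e0_63_106__207_42_138, e0_63_106__207_42_139, e0_63_106__207_42_140, e0_63_106__207_42_141, e0_63_106__207_42_142, e0_63_106__207_42_143, e0_63_106__207_42_144, e0_63_106__207_42_145, e0_63_106__207_42_146, e0_63_106__207_42_147, e0_63_106__207_42_148, e0_63_106__207_42_149, e0_63_106__207_42_150, e0_63_106__207_42_151, e0_63_106__207_42_152, e0_63_106__207_42_153, e0_63_106__207_42_154], by decide +kernel, by decide +kernel⟩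
def e0_63_106__214_42_0 : Ent 4 := ⟨[a0, a63, a106], [a214, a42, a1], (M a48 (F (T t309 (T t551 (L l28 (T t579 N))))))⟩
def e0_63_106__214_42_1 : Ent 4 := ⟨[a0, a63, a106], [a214, a42, a2], (M a48 (L l66 (F (T t309 (T t551 (L l28 (T t579 (K a22 (M a62 (L l348 (F (T t6696 (L l28 (T t579 (K a86 (Fr a150 a194 l516 (V t3517)) (K a150 (M a86 (F (T t304 (L l294 (L l306 (T t8236 N)))))) N)))))))) (K a62 (M a22 (F (T t578 (L l28 (T t579 (T t551 N)))))) N)))))))))⟩
def e0_63_106__214_42_2 : Ent 4 := ⟨[a0, a63, a106], [a214, a42, a3], (M a48 (F (T t585 (L l453 (T t551 (L l28 (T t579 N)))))))⟩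
def e0_63_106__214_42_3 : Ent 4 := ⟨[a0, a63, a106], [a214, a42, a4], (M a48 (F (T t309 (T t551 (L l28 (T t579 N))))))⟩
def e0_63_106__214_42_4 : Ent 4 := ⟨[a0, a63, a106], [a214, a42, a5], (M a48 (F (T t578 (L l28 (L l47 (T t579 (T t551 N)))))))⟩
def e0_63_106__214_42_5 : Ent 4 := ⟨[a0, a63, a106], [a214, a42, a6], (M a48 (F (T t309 (T t551 (L l28 (T t579 N))))))⟩
def e0_63_106__214_42_6 : Ent 4 := ⟨[a0, a63, a106], [a214, a42, a7], (M a48 (F (T t309 (T t551 (L l28 (T t579 N))))))⟩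
def e0_63_106__214_42_7 : Ent 4 := ⟨[a0, a63, a106], [a214, a42, a8], (M a48 (L l56 (F (T t309 (T t551 (L l28 (T t579 (K a25 (M a59 (F (T t307 (L l26 (L l316 (T t6445 N)))))) (K a59 (M a25 (F (T t578 (L l28 (T t579 (T t551 N)))))) N)))))))))⟩
def e0_63_106__214_42_8 : Ent 4 := ⟨[a0, a63, a106], [a214, a42, a9], (M a48 (F (T t309 (T t551 (L l28 (T t579 N))))))⟩
def e0_63_106__214_42_9 : Ent 4 := ⟨[a0, a63, a106], [a214, a42, a10], (M a48 (L l54 (F (T t578 (L l28 (L l318 (T t579 (T t551 (K a26 (Fr a58 a53 l38 (V t6446)) (K a58 (M a26 (F (L l28 (T t4144 (T t551 (L l28 (L l426 (T t6447 (K a32 (Fr a192 a149 l519 (Fr a15 a37 l75 (Fr a47 a31 l61 (V t6528)))) N))))))))) N))))))))))⟩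
def e0_63_106__214_42_10 : Ent 4 := ⟨[a0, a63, a106], [a214, a42, a11], (M a48 (F (T t309 (T t551 (L l28 (T t579 N))))))⟩
def e0_63_106__214_42_11 : Ent 4 := ⟨[a0, a63, a106], [a214, a42, a12], (M a48 (F (T t585 (L l478 (T t551 (L l28 (T t579 N)))))))⟩
def e0_63_106__214_42_12 : Ent 4 := ⟨[a0, a63, a106], [a214, a42, a13], (M a48 (F (T t309 (T t551 (L l28 (T t579 N))))))⟩
def e0_63_106__214_42_13 : Ent 4 := ⟨[a0, a63, a106], [a214, a42, a14], (M a48 (F (T t309 (T t551 (L l28 (T t579 N))))))⟩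
def e0_63_106__214_42_14 : Ent 4 := ⟨[a0, a63, a106], [a214, a42, a15], (M a48 (F (T t585 (L l483 (T t551 (L l28 (T t579 N)))))))⟩
def e0_63_106__214_42_15 : Ent 4 := ⟨[a0, a63, a106], [a214, a42, a20], (M a48 (F (T t309 (T t551 (L l28 (T t579 N))))))⟩
def e0_63_106__214_42_16 : Ent 4 := ⟨[a0, a63, a106], [a214, a42, a21], (M a48 (F (L l47 (T t309 (L l347 (T t551 (L l28 (L l47 (T t579 N)))))))))⟩
def e0_63_106__214_42_17 : Ent 4 := ⟨[a0, a63, a106], [a214, a42, a22], (M a48 (L l66 (L l348 (F (T t309 (T t551 (L l28 (T t579 (K a2 (M a62 (L l348 (F (T t6696 (L l28 (T t579 (K a86 (Fr a150 a194 l516 (V t3517)) (K a150 (M a86 (F (T t304 (L l294 (L l306 (T t8236 N)))))) N)))))))) (K a86 (M a150 (L l66 (F (T t309 (L l22 (L l239 (L l294 (T t6858 (K a2 (Fr a62 a194 l516 (V t3517)) (K a62 (M a2 (F (T t304 (L l19 (L l28 (L l369 (T t342 N))))))) N)))))))))) (K a150 (M a86 (L l66 (F (T t304 (T t6714 (K a2 (M a62 (F (T t304 (L l294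 (L l306 (T t8236 N)))))) (K a62 (M a2 (F (T t309 (L l294 (L l350 (L l432 (T t8237 N))))))) N))))))) (K a62 (M a2 (L l348 (F (T t307 (L l19 (L l28 (T t342 (K a86 (M a150 (F (T t304 (L l19 (L l28 (L l369 (T t342 N))))))) (K a150 (M a86 (F (T t309 (L l294 (L l350 (L l432 (T t8237 N))))))) N))))))))) N))))))))))))⟩
def e0_63_106__214_42_18 : Ent 4 := ⟨[a0, a63, a106], [a214, a42, a23], (M a48 (F (T t309 (L l351 (T t551 (L l28 (T t579 N)))))))⟩
def e0_63_106__214_42_19 : Ent 4 := ⟨[a0, a63, a106], [a214, a42, a24], (M a48 (F (T t309 (T t551 (L l28 (T t579 N))))))⟩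
def e0_63_106__214_42_20 : Ent 4 := ⟨[a0, a63, a106], [a214, a42, a25], (M a48 (L l56 (F (T t309 (T t551 (L l28 (T t579 (K a8 (M a59 (F (T t307 (L l26 (L l316 (T t6445 N)))))) (K a59 (M a8 (F (T t307 (L l19 (L l28 (T t4700 N)))))) N)))))))))⟩
def e0_63_106__214_42_21 : Ent 4 := ⟨[a0, a63, a106], [a214, a42, a26], (M a48 (L l54 (F (T t309 (L l28 (T t579 (T t551 (K a10 (Fr a58 a53 l38 (V t6446)) (K a58 (M a10 (F (T t4033 (T t551 (L l18 (L l354 (T t6449 (L l18 (L l426 (T t6450 N)))))))))) N)))))))))⟩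
def e0_63_106__214_42_22 : Ent 4 := ⟨[a0, a63, a106], [a214, a42, a27], (M a48 (F (T t309 (T t551 (L l28 (T t579 N))))))⟩
def e0_63_106__214_42_23 : Ent 4 := ⟨[a0, a63, a106], [a214, a42, a28], (M a48 (F (T t309 (T t551 (L l28 (L l362 (T t579 N)))))))⟩
def e0_63_106__214_42_24 : Ent 4 := ⟨[a0, a63, a106], [a214, a42, a29], (M a48 (F (T t309 (L l371 (T t551 (L l28 (T t579 N)))))))⟩
def e0_63_106__214_42_25 : Ent 4 := ⟨[a0, a63, a106], [a214, a42, a30], (M a48 (F (T t309 (T t551 (L l28 (T t579 N))))))⟩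
def e0_63_106__214_42_26 : Ent 4 := ⟨[a0, a63, a106], [a214, a42, a31], (M a48 (F (T t309 (L l375 (T t551 (L l28 (L l361 (T t579 N))))))))⟩
def e0_63_106__214_42_27 : Ent 4 := ⟨[a0, a63, a106], [a214, a42, a40], (M a48 (L l22 (F (T t309 (T t551 (L l24 (L l28 (T t579 (K a41 (M a43 (F (T t307 (L l66 (L l388 (T t6451 N)))))) (K a43 (M a41 (F (T t578 (L l24 (L l28 (T t579 (T t551 N))))))) N))))))))))⟩
def e0_63_106__214_42_28 : Ent 4 := ⟨[a0, a63, a106], [a214, a42, a41], (M a48 (L l22 (F (T t309 (T t551 (L l28 (T t579 (K a40 (M a43 (F (T t307 (L l66 (L l388 (T t6451 N)))))) (K a43 (M a40 (F (T t309 (L l29 (L l69 (T t6452 N)))))) N)))))))))⟩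
def e0_63_106__214_42_29 : Ent 4 := ⟨[a0, a63, a106], [a214, a42, a43], (M a48 (L l22 (F (T t309 (T t551 (L l28 (T t579 (K a40 (M a41 (F (T t578 (L l24 (L l28 (T t579 (T t551 N))))))) (K a41 (M a40 (F (T t309 (L l29 (L l69 (T t6452 N)))))) N)))))))))⟩
def e0_63_106__214_42_30 : Ent 4 := ⟨[a0, a63, a106], [a214, a42, a44], (M a48 (F (T t309 (T t551 (L l24 (L l28 (T t579 N)))))))⟩
def e0_63_106__214_42_31 : Ent 4 := ⟨[a0, a63, a106], [a214, a42, a45], (M a48 (F (T t309 (T t551 (L l28 (T t579 N))))))⟩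
def e0_63_106__214_42_32 : Ent 4 := ⟨[a0, a63, a106], [a214, a42, a46], (M a48 (L l26 (F (T t309 (T t551 (L l28 (T t579 (K a34 (M a38 (F (T t578 (L l20 (L l28 (T t579 (T t551 N))))))) (K a38 (M a34 (F (T t307 (L l29 (L l66 (T t6453 N)))))) N)))))))))⟩
def e0_63_106__214_42_33 : Ent 4 := ⟨[a0, a63, a106], [a214, a42, a47], (M a12 (L l28 (F (T t2304 (T t2305 (L l56 (T t2415 (K a32 (M a37 (F (T t2416 (L l56 (T t2415 (T t2305 N)))))) (K a37 (M a32 (F (T t2304 (L l51 (L l56 (T t682 N)))))) N)))))))))⟩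
def e0_63_106__214_42_34 : Ent 4 := ⟨[a0, a63, a106], [a214, a42, a60], (M a48 (F (T t585 (L l442 (T t551 (L l28 (T t579 N)))))))⟩
def e0_63_106__214_42_35 : Ent 4 := ⟨[a0, a63, a106], [a214, a42, a61], (M a48 (F (L l35 (T t309 (L l515 (T t551 (L l28 (L l35 (T t579 N)))))))))⟩
def e0_63_106__214_42_36 : Ent 4 := ⟨[a0, a63, a106], [a214, a42, a62], (M a48 (L l66 (F (T t309 (T t551 (L l28 (T t579 (K a2 (M a22 (F (T t578 (L l28 (T t579 (T t551 N)))))) (K a22 (M a2 (L l348 (F (T t307 (L l19 (L l28 (T t342 (K a86 (M a150 (F (T t304 (L l19 (L l28 (L l369 (T t342 N))))))) (K a150 (M a86 (F (T t309 (L l294 (L l350 (L l432 (T t8237 N))))))) N))))))))) N)))))))))⟩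
def e0_63_106__214_42_37 : Ent 4 := ⟨[a0, a63, a106], [a214, a42, a64], (M a48 (F (T t585 (L l28 (T t8160 (L l28 (T t6454 (L l28 (T t6456 (L l28 (L l84 (T t6457 (L l54 (T t6458 N))))))))))))))⟩
def e0_63_106__214_42_38 : Ent 4 := ⟨[a0, a63, a106], [a214, a42, a65], (M a48 (F (T t309 (L l76 (T t551 (L l28 (L l76 (T t579 N))))))))⟩
def e0_63_106__214_42_39 : Ent 4 := ⟨[a0, a63, a106], [a214, a42, a66], (M a48 (F (T t304 (L l28 (L l76 (T t579 (L l76 (T t551 N))))))))⟩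
def e0_63_106__214_42_40 : Ent 4 := ⟨[a0, a63, a106], [a214, a42, a67], (M a48 (F (T t309 (L l76 (T t551 (L l28 (L l76 (T t579 N))))))))⟩
def e0_63_106__214_42_41 : Ent 4 := ⟨[a0, a63, a106], [a214, a42, a68], (M a48 (F (T t309 (L l80 (T t551 (L l28 (L l80 (T t579 N))))))))⟩
def e0_63_106__214_42_42 : Ent 4 := ⟨[a0, a63, a106], [a214, a42, a69], (M a48 (F (T t309 (L l84 (T t551 (L l28 (L l84 (T t579 N))))))))⟩
def e0_63_106__214_42_43 : Ent 4 := ⟨[a0, a63, a106], [a214, a42, a70], (M a48 (F (T t309 (T t551 (L l28 (T t579 N))))))⟩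
def e0_63_106__214_42_44 : Ent 4 := ⟨[a0, a63, a106], [a214, a42, a71], (M a48 (F (T t309 (T t551 (L l28 (T t579 N))))))⟩
def e0_63_106__214_42_45 : Ent 4 := ⟨[a0, a63, a106], [a214, a42, a72], (M a48 (F (T t304 (L l28 (L l80 (T t579 (L l80 (T t551 N))))))))⟩
def e0_63_106__214_42_46 : Ent 4 := ⟨[a0, a63, a106], [a214, a42, a73], (M a48 (F (T t309 (T t551 (L l28 (T t579 N))))))⟩
def e0_63_106__214_42_47 : Ent 4 := ⟨[a0, a63, a106], [a214, a42, a74], (M a48 (F (T t578 (L l28 (L l84 (L l318 (T t579 (L l84 (T t551 N)))))))))⟩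
def e0_63_106__214_42_48 : Ent 4 := ⟨[a0, a63, a106], [a214, a42, a75], (M a48 (F (T t309 (T t551 (L l28 (T t579 N))))))⟩
def e0_63_106__214_42_49 : Ent 4 := ⟨[a0, a63, a106], [a214, a42, a76], (M a48 (F (T t309 (L l80 (T t551 (L l28 (L l80 (T t579 N))))))))⟩
def e0_63_106__214_42_50 : Ent 4 := ⟨[a0, a63, a106], [a214, a42, a77], (M a48 (F (T t309 (T t551 (L l28 (T t579 N))))))⟩
def e0_63_106__214_42_51 : Ent 4 := ⟨[a0, a63, a106], [a214, a42, a78], (M a48 (F (T t309 (T t551 (L l28 (T t579 N))))))⟩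
def e0_63_106__214_42_52 : Ent 4 := ⟨[a0, a63, a106], [a214, a42, a79], (M a48 (F (T t309 (L l84 (T t551 (L l28 (L l84 (T t579 N))))))))⟩
def e0_63_106__214_42_53 : Ent 4 := ⟨[a0, a63, a106], [a214, a42, a84], (M a48 (F (T t309 (L l140 (T t551 (L l28 (L l140 (T t579 N))))))))⟩
def e0_63_106__214_42_54 : Ent 4 := ⟨[a0, a63, a106], [a214, a42, a85], (M a48 (F (T t309 (L l347 (T t551 (L l54 (T t777 (L l368 (T t6465 (K a192 (M a240 (F (T t6230 (L l236 (T t6471 (L l54 (L l236 (L l339 (T t6472 (L l339 (T t6473 N))))))))))) N))))))))))⟩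
def e0_63_106__214_42_55 : Ent 4 := ⟨[a0, a63, a106], [a214, a42, a86], (M a48 (L l348 (F (T t309 (L l351 (T t551 (L l28 (T t579 (K a22 (M a150 (L l66 (F (T t309 (L l22 (L l239 (L l294 (T t6858 (K a2 (Fr a62 a194 l516 (V t3517)) (K a62 (M a2 (F (T t304 (L l19 (L l28 (L l369 (T t342 N))))))) N)))))))))) (K a150 (M a22 (F (T t304 (L l28 (T t579 (L l163 (L l351 (T t551 N)))))))) N))))))))))⟩
def e0_63_106__214_42_56 : Ent 4 := ⟨[a0, a63, a106], [a214, a42, a87], (M a48 (F (T t309 (T t551 (L l28 (L l367 (T t579 N)))))))⟩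
def e0_63_106__214_42_57 : Ent 4 := ⟨[a0, a63, a106], [a214, a42, a88], (M a48 (F (T t309 (L l478 (T t551 (L l28 (T t579 N)))))))⟩
def e0_63_106__214_42_58 : Ent 4 := ⟨[a0, a63, a106], [a214, a42, a89], (M a48 (F (T t309 (L l371 (T t551 (L l28 (T t579 N)))))))⟩
def e0_63_106__214_42_59 : Ent 4 := ⟨[a0, a63, a106], [a214, a42, a90], (M a48 (F (T t309 (L l375 (L l483 (T t551 (L l28 (T t579 N))))))))⟩
def e0_63_106__214_42_60 : Ent 4 := ⟨[a0, a63, a106], [a214, a42, a91], (M a48 (F (T t309 (T t551 (L l28 (T t579 N))))))⟩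
def e0_63_106__214_42_61 : Ent 4 := ⟨[a0, a63, a106], [a214, a42, a92], (M a48 (F (T t309 (T t551 (L l28 (T t579 N))))))⟩
def e0_63_106__214_42_62 : Ent 4 := ⟨[a0, a63, a106], [a214, a42, a93], (M a48 (F (T t309 (T t551 (L l28 (L l362 (T t579 N)))))))⟩
def e0_63_106__214_42_63 : Ent 4 := ⟨[a0, a63, a106], [a214, a42, a94], (M a48 (F (T t309 (T t551 (L l28 (T t579 N))))))⟩
def e0_63_106__214_42_64 : Ent 4 := ⟨[a0, a63, a106], [a214, a42, a95], (M a48 (F (T t309 (T t551 (L l28 (L l361 (T t579 N)))))))⟩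
def e0_63_106__214_42_65 : Ent 4 := ⟨[a0, a63, a106], [a214, a42, a104], (M a48 (F (T t304 (L l28 (L l140 (T t579 (L l100 (L l140 (T t551 N)))))))))⟩
def e0_63_106__214_42_66 : Ent 4 := ⟨[a0, a63, a106], [a214, a42, a105], (M a48 (F (T t309 (L l515 (T t551 (L l28 (T t579 N)))))))⟩
def e0_63_106__214_42_67 : Ent 4 := ⟨[a0, a63, a106], [a214, a42, a107], (M a48 (F (T t309 (T t551 (L l28 (T t579 N))))))⟩
def e0_63_106__214_42_68 : Ent 4 := ⟨[a0, a63, a106], [a214, a42, a108], (M a48 (F (T t309 (L l100 (T t551 (L l28 (T t579 N)))))))⟩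
def e0_63_106__214_42_69 : Ent 4 := ⟨[a0, a63, a106], [a214, a42, a109], (M a48 (F (T t309 (T t551 (L l28 (T t579 N))))))⟩
def e0_63_106__214_42_70 : Ent 4 := ⟨[a0, a63, a106], [a214, a42, a110], (M a48 (F (T t309 (T t551 (L l28 (T t579 N))))))⟩
def e0_63_106__214_42_71 : Ent 4 := ⟨[a0, a63, a106], [a214, a42, a111], (M a240 (F (T t4779 (T t817 (L l137 (T t4781 N))))))⟩
def e0_63_106__214_42_72 : Ent 4 := ⟨[a0, a63, a106], [a214, a42, a124], (M a48 (F (T t309 (L l140 (T t551 (L l28 (L l140 (T t579 N))))))))⟩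
def e0_63_106__214_42_73 : Ent 4 := ⟨[a0, a63, a106], [a214, a42, a125], (M a48 (F (T t309 (T t551 (L l28 (T t579 N))))))⟩
def e0_63_106__214_42_74 : Ent 4 := ⟨[a0, a63, a106], [a214, a42, a126], (M a48 (F (T t309 (T t551 (L l28 (T t579 N))))))⟩
def e0_63_106__214_42_75 : Ent 4 := ⟨[a0, a63, a106], [a214, a42, a127], (M a48 (F (T t309 (T t551 (L l28 (T t6454 (L l28 (T t6479 N))))))))⟩
def e0_63_106__214_42_76 : Ent 4 := ⟨[a0, a63, a106], [a214, a42, a128], (M a48 (F (T t585 (L l28 (T t579 (L l192 (L l220 (T t6480 (L l54 (L l160 (T t6481 N)))))))))))⟩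
def e0_63_106__214_42_77 : Ent 4 := ⟨[a0, a63, a106], [a214, a42, a129], (M a48 (F (T t304 (L l28 (T t579 (L l217 (T t551 N)))))))⟩
def e0_63_106__214_42_78 : Ent 4 := ⟨[a0, a63, a106], [a214, a42, a130], (M a48 (F (T t309 (T t551 (L l28 (T t579 N))))))⟩
def e0_63_106__214_42_79 : Ent 4 := ⟨[a0, a63, a106], [a214, a42, a131], (M a48 (F (T t309 (L l197 (T t551 (L l28 (T t579 N)))))))⟩
def e0_63_106__214_42_80 : Ent 4 := ⟨[a0, a63, a106], [a214, a42, a132], (M a48 (F (T t304 (L l28 (T t579 (L l202 (T t551 N)))))))⟩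
def e0_63_106__214_42_81 : Ent 4 := ⟨[a0, a63, a106], [a214, a42, a133], (M a48 (F (T t585 (L l199 (T t551 (L l28 (T t579 N)))))))⟩
def e0_63_106__214_42_82 : Ent 4 := ⟨[a0, a63, a106], [a214, a42, a134], (M a48 (F (T t309 (T t551 (L l28 (T t579 N))))))⟩
def e0_63_106__214_42_83 : Ent 4 := ⟨[a0, a63, a106], [a214, a42, a135], (M a48 (F (T t309 (T t551 (L l28 (T t579 N))))))⟩
def e0_63_106__214_42_84 : Ent 4 := ⟨[a0, a63, a106], [a214, a42, a136], (M a48 (F (T t309 (T t551 (L l28 (T t579 N))))))⟩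
def e0_63_106__214_42_85 : Ent 4 := ⟨[a0, a63, a106], [a214, a42, a137], (M a48 (F (T t309 (T t551 (L l28 (T t579 N))))))⟩
def e0_63_106__214_42_86 : Ent 4 := ⟨[a0, a63, a106], [a214, a42, a138], (M a48 (F (T t578 (L l28 (L l318 (T t579 (T t551 N)))))))⟩
def e0_63_106__214_42_87 : Ent 4 := ⟨[a0, a63, a106], [a214, a42, a139], (M a48 (F (T t309 (T t551 (L l28 (T t579 N))))))⟩
def e0_63_106__214_42_88 : Ent 4 := ⟨[a0, a63, a106], [a214, a42, a140], (M a48 (F (T t309 (L l222 (T t551 (L l28 (T t579 N)))))))⟩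
def e0_63_106__214_42_89 : Ent 4 := ⟨[a0, a63, a106], [a214, a42, a141], (M a48 (F (T t309 (T t551 (L l28 (T t579 N))))))⟩
def e0_63_106__214_42_90 : Ent 4 := ⟨[a0, a63, a106], [a214, a42, a142], (M a48 (F (T t309 (T t551 (L l28 (T t579 N))))))⟩
def e0_63_106__214_42_91 : Ent 4 := ⟨[a0, a63, a106], [a214, a42, a143], (M a48 (F (T t309 (L l28 (T t6462 (L l28 (T t579 N)))))))⟩
def e0_63_106__214_42_92 : Ent 4 := ⟨[a0, a63, a106], [a214, a42, a148], (M a48 (F (T t304 (L l28 (T t579 (L l163 (T t551 N)))))))⟩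
def e0_63_106__214_42_93 : Ent 4 := ⟨[a0, a63, a106], [a214, a42, a149], (M a240 (F (L l199 (T t4781 (L l199 (L l347 (T t6484 (L l28 (L l199 (L l375 (T t6483 (L l28 (L l199 (L l220 (L l375 (T t6485 (K a133 (M a165 (F (T t6486 (L l28 (L l160 (L l220 (L l311 (L l375 (T t6487 (L l160 (L l220 (T t6488 N)))))))))))) (K a165 (M a90 (L l199 (F (T t4788 (L l180 (T t6489 (K a133 (Fr a181 a122 l447 (V t6489)) (K a181 (M a133 (F (L l180 (T t6489 (L l227 (T t6746 (L l455 (T t6490 N)))))))) N)))))))) (K a181 (M a165 (F (T t6492 (T t6493 (L l28 (L l220 (L l375 (T t6487 (L l220 (T t6488 N)))))))))) (K a74 (M a48 (F (T t6494 (L l199 (L l491 (T t781 (L l28 (L l84 (L l318 (L l491 (T t579 N))))))))))) (K a90 (M a48 (L l375 (F (T t3318 (L l199 (L l462 (L l491 (T t781 (L l28 (L l491 (T t579 (K a208 (M a31 (F (L l28 (L l347 (T t6495 (L l151 (L l220 (T t6496 N)))))))) (K a31 (M a208 (F (T t6497 (L l151 (L l220 (T t6496 N)))))) N)))))))))))))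 (K a122 (M a48 (F (T t3318 (L l114 (L l491 (T t6471 (L l28 (L l491 (T t579 N))))))))) N))))))))))))))))))))))⟩
def e0_63_106__214_42_94 : Ent 4 := ⟨[a0, a63, a106], [a214, a42, a150], (M a48 (L l348 (F (T t309 (L l163 (T t551 (L l28 (T t579 (K a22 (M a86 (L l66 (F (T t304 (T t6714 (K a2 (M a62 (F (T t304 (L l294 (L l306 (T t8236 N)))))) (K a62 (M a2 (F (T t309 (L l294 (L l350 (L l432 (T t8237 N))))))) N))))))) (K a86 (M a22 (F (T t304 (L l28 (T t579 (L l163 (L l351 (T t551 N)))))))) N))))))))))⟩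
def e0_63_106__214_42_95 : Ent 4 := ⟨[a0, a63, a106], [a214, a42, a151], (M a48 (F (T t309 (L l163 (T t551 (L l28 (T t579 N)))))))⟩
def e0_63_106__214_42_96 : Ent 4 := ⟨[a0, a63, a106], [a214, a42, a152], (M a48 (F (T t304 (L l28 (T t579 (L l222 (T t551 N)))))))⟩
def e0_63_106__214_42_97 : Ent 4 := ⟨[a0, a63, a106], [a214, a42, a153], (M a48 (F (T t309 (L l167 (T t551 (L l28 (T t579 N)))))))⟩
def e0_63_106__214_42_98 : Ent 4 := ⟨[a0, a63, a106], [a214, a42, a154], (M a240 (F (T t4779 (L l170 (L l368 (L l512 (T t817 (T t4781 N))))))))⟩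
def e0_63_106__214_42_99 : Ent 4 := ⟨[a0, a63, a106], [a214, a42, a155], (M a48 (F (T t309 (T t551 (L l28 (L l367 (T t579 N)))))))⟩
def e0_63_106__214_42_100 : Ent 4 := ⟨[a0, a63, a106], [a214, a42, a156], (M a48 (F (T t304 (L l28 (T t579 (T t551 N))))))⟩
def e0_63_106__214_42_101 : Ent 4 := ⟨[a0, a63, a106], [a214, a42, a157], (M a48 (F (T t309 (L l167 (T t551 (L l28 (T t579 N)))))))⟩
def e0_63_106__214_42_102 : Ent 4 := ⟨[a0, a63, a106], [a214, a42, a158], (M a48 (F (T t309 (T t551 (L l28 (L l362 (T t579 N)))))))⟩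
def e0_63_106__214_42_103 : Ent 4 := ⟨[a0, a63, a106], [a214, a42, a159], (M a240 (F (T t4779 (L l170 (T t817 (L l361 (T t4781 N)))))))⟩
def e0_63_106__214_42_104 : Ent 4 := ⟨[a0, a63, a106], [a214, a42, a168], (M a48 (F (T t309 (T t551 (L l28 (L l400 (T t579 N)))))))⟩
def e0_63_106__214_42_105 : Ent 4 := ⟨[a0, a63, a106], [a214, a42, a169], (M a48 (F (T t309 (L l217 (T t551 (L l28 (T t579 N)))))))⟩
def e0_63_106__214_42_106 : Ent 4 := ⟨[a0, a63, a106], [a214, a42, a170], (M a48 (F (T t309 (L l220 (T t551 (L l28 (L l206 (L l220 (L l404 (T t552 (L l28 (L l206 (L l404 (T t553 N))))))))))))))⟩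
def e0_63_106__214_42_107 : Ent 4 := ⟨[a0, a63, a106], [a214, a42, a171], (M a48 (F (T t309 (T t551 (L l28 (T t579 N))))))⟩
def e0_63_106__214_42_108 : Ent 4 := ⟨[a0, a63, a106], [a214, a42, a172], (M a48 (F (T t309 (T t551 (L l28 (T t579 N))))))⟩
def e0_63_106__214_42_109 : Ent 4 := ⟨[a0, a63, a106], [a214, a42, a173], (M a48 (F (T t309 (T t551 (L l28 (T t579 N))))))⟩
def e0_63_106__214_42_110 : Ent 4 := ⟨[a0, a63, a106], [a214, a42, a174], (M a48 (F (T t309 (T t551 (L l28 (T t579 N))))))⟩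
def e0_63_106__214_42_111 : Ent 4 := ⟨[a0, a63, a106], [a214, a42, a175], (M a48 (F (T t309 (T t551 (L l28 (T t579 N))))))⟩
def e0_63_106__214_42_112 : Ent 4 := ⟨[a0, a63, a106], [a214, a42, a188], (M a48 (F (T t309 (L l186 (T t551 (L l28 (T t579 N)))))))⟩
def e0_63_106__214_42_113 : Ent 4 := ⟨[a0, a63, a106], [a214, a42, a189], (M a48 (F (T t309 (L l217 (T t551 (L l28 (T t579 N)))))))⟩
def e0_63_106__214_42_114 : Ent 4 := ⟨[a0, a63, a106], [a214, a42, a190], (M a48 (F (T t309 (T t551 (L l28 (T t579 N))))))⟩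
def e0_63_106__214_42_115 : Ent 4 := ⟨[a0, a63, a106], [a214, a42, a191], (M a48 (F (T t309 (L l190 (L l220 (T t551 (L l28 (T t6498 (L l28 (T t6499 N))))))))))⟩
def e0_63_106__214_42_116 : Ent 4 := ⟨[a0, a63, a106], [a214, a42, a192], (M a240 (F (L l339 (T t4781 (L l236 (L l339 (T t6500 (L l296 (L l339 (T t6501 (L l28 (L l339 (T t6502 (L l339 (T t6503 (K a133 (M a90 (L l339 (F (T t4788 (T t6504 (K a74 (Fr a15 a165 l483 (V t6505)) (K a15 (Fr a74 a122 l130 (V t6506)) N))))))) (K a85 (M a12 (F (L l292 (L l297 (T t2745 (L l272 (L l339 (T t6595 N)))))))) (K a181 (M a12 (F (T t3358 (L l56 (L l272 (T t2415 (L l272 (T t6512 N)))))))) (K a74 (M a165 (L l339 (F (T t6492 (L l296 (T t6513 (L l54 (L l84 (L l318 (T t6514 (K a133 (Fr a15 a90 l483 (V t6515)) (K a15 (M a133 (F (T t6516 (L l28 (L l236 (L l318 (L l484 (T t6517 N)))))))) N)))))))))))) (K a90 (M a252 (F (L l334 (T t6518 (L l148 (L l489 (T t6519 (L l309 (T t6675 N)))))))))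 (K a122 (M a12 (F (T t2747 (L l56 (L l272 (T t2415 (L l272 (T t6512 N)))))))) (K a15 (M a248 (L l339 (F (L l279 (T t6520 (L l22 (T t6521 (K a133 (M a74 (F (T t6522 (L l3 (L l56 (L l279 (L l334 (T t6523 N)))))))) (K a74 (M a133 (F (L l279 (T t3821 (L l469 (L l484 (T t6524 (L l3 (L l56 (L l279 (L l334 (T t6523 N)))))))))))) N))))))))) N))))))))))))))))))))))⟩
def e0_63_106__214_42_117 : Ent 4 := ⟨[a0, a63, a106], [a214, a42, a193], (M a48 (F (T t585 (L l515 (T t551 (L l28 (T t579 N)))))))⟩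
def e0_63_106__214_42_118 : Ent 4 := ⟨[a0, a63, a106], [a214, a42, a194], (M a48 (L l294 (F (T t578 (L l28 (L l234 (T t579 (T t551 (K a234 (M a254 (F (T t578 (L l28 (L l234 (L l282 (T t579 (T t551 N)))))))) (K a254 (M a234 (F (T t6150 (L l228 (L l234 (T t309 (L l28 (L l234 (T t579 N))))))))) N))))))))))⟩
def e0_63_106__214_42_119 : Ent 4 := ⟨[a0, a63, a106], [a214, a42, a195], (M a252 (F (L l22 (T t7636 (L l518 (T t8082 (T t6675 N)))))))⟩
def e0_63_106__214_42_120 : Ent 4 := ⟨[a0, a63, a106], [a214, a42, a196], (M a48 (F (T t585 (L l495 (T t551 (L l28 (T t579 N)))))))⟩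
def e0_63_106__214_42_121 : Ent 4 := ⟨[a0, a63, a106], [a214, a42, a197], (M a240 (F (L l236 (T t4779 (L l491 (T t817 (T t4781 N)))))))⟩
def e0_63_106__214_42_122 : Ent 4 := ⟨[a0, a63, a106], [a214, a42, a198], (M a48 (L l276 (F (T t578 (L l28 (L l234 (T t579 (T t551 (K a230 (M a246 (F (T t578 (L l28 (L l234 (T t579 (T t551 N))))))) (K a246 (M a230 (F (T t578 (L l28 (L l234 (T t579 (T t551 N))))))) N))))))))))⟩
def e0_63_106__214_42_123 : Ent 4 := ⟨[a0, a63, a106], [a214, a42, a199], (M a48 (L l279 (F (T t309 (T t551 (L l28 (T t579 (K a244 (M a229 (F (T t309 (L l262 (T t551 (L l28 (T t579 N))))))) (K a229 (M a244 (F (T t309 (L l28 (T t2289 (L l28 (T t579 N))))))) N)))))))))⟩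
def e0_63_106__214_42_124 : Ent 4 := ⟨[a0, a63, a106], [a214, a42, a200], (M a48 (F (T t578 (L l28 (L l230 (T t579 (T t551 N)))))))⟩
def e0_63_106__214_42_125 : Ent 4 := ⟨[a0, a63, a106], [a214, a42, a201], (M a48 (F (T t578 (L l28 (L l230 (T t579 (T t551 N)))))))⟩
def e0_63_106__214_42_126 : Ent 4 := ⟨[a0, a63, a106], [a214, a42, a202], (M a240 (F (L l236 (T t4786 (T t817 (L l318 (T t4781 N)))))))⟩
def e0_63_106__214_42_127 : Ent 4 := ⟨[a0, a63, a106], [a214, a42, a203], (M a48 (F (T t2348 (L l28 (L l230 (T t579 (T t551 N)))))))⟩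
def e0_63_106__214_42_128 : Ent 4 := ⟨[a0, a63, a106], [a214, a42, a204], (M a48 (F (T t585 (L l298 (T t551 (L l28 (T t579 N)))))))⟩
def e0_63_106__214_42_129 : Ent 4 := ⟨[a0, a63, a106], [a214, a42, a205], (M a48 (F (T t309 (T t551 (L l28 (T t579 N))))))⟩
def e0_63_106__214_42_130 : Ent 4 := ⟨[a0, a63, a106], [a214, a42, a206], (M a48 (F (T t2348 (L l28 (L l234 (T t579 (T t551 N)))))))⟩
def e0_63_106__214_42_131 : Ent 4 := ⟨[a0, a63, a106], [a214, a42, a207], (M a240 (F (T t6525 (L l512 (T t817 (T t4781 N))))))⟩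
def e0_63_106__214_42_132 : Ent 4 := ⟨[a0, a63, a106], [a214, a42, a212], (M a48 (L l239 (F (T t304 (L l28 (T t579 (L l351 (T t551 (K a213 (M a215 (F (T t304 (L l28 (L l246 (T t579 (L l347 (L l351 (T t551 N))))))))) (K a215 (M a213 (F (L l292 (T t8040 (L l351 (T t307 (L l28 (L l245 (T t579 N))))))))) N))))))))))⟩
def e0_63_106__214_42_133 : Ent 4 := ⟨[a0, a63, a106], [a214, a42, a213], (M a48 (L l239 (F (T t304 (L l28 (L l246 (T t579 (L l347 (T t551 (K a212 (M a215 (F (T t304 (L l28 (L l246 (T t579 (L l347 (L l351 (T t551 N))))))))) (K a215 (M a212 (F (T t304 (L l347 (L l350 (T t8238 (L l28 (L l245 (L l246 (T t579 N)))))))))) N)))))))))))⟩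
def e0_63_106__214_42_134 : Ent 4 := ⟨[a0, a63, a106], [a214, a42, a215], (M a48 (L l239 (F (T t309 (T t551 (L l28 (L l245 (T t579 (K a212 (M a213 (F (L l292 (T t8040 (L l351 (T t307 (L l28 (L l245 (T t579 N))))))))) (K a213 (M a212 (F (T t304 (L l347 (L l350 (T t8238 (L l28 (L l245 (L l246 (T t579 N)))))))))) N))))))))))⟩
def e0_63_106__214_42_135 : Ent 4 := ⟨[a0, a63, a106], [a214, a42, a216], (M a48 (F (T t309 (L l298 (T t551 (L l28 (T t579 N)))))))⟩
def e0_63_106__214_42_136 : Ent 4 := ⟨[a0, a63, a106], [a214, a42, a217], (M a48 (L l247 (F (T t309 (T t551 (L l28 (T t579 (K a220 (M a211 (F (T t578 (L l28 (L l241 (T t579 (T t551 N))))))) (K a211 (M a220 (F (T t578 (L l28 (L l245 (T t579 (T t551 N))))))) N)))))))))⟩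
def e0_63_106__214_42_137 : Ent 4 := ⟨[a0, a63, a106], [a214, a42, a218], (M a48 (L l244 (F (T t2348 (L l28 (L l246 (L l282 (T t579 (L l303 (T t551 (K a210 (M a222 (F (T t2348 (L l28 (L l246 (L l282 (T t579 (L l273 (L l303 (T t551 N)))))))))) (K a222 (M a210 (F (T t2348 (L l28 (L l241 (L l246 (L l282 (T t579 (L l303 (T t551 N)))))))))) N))))))))))))⟩
def e0_63_106__214_42_138 : Ent 4 := ⟨[a0, a63, a106], [a214, a42, a219], (M a48 (F (T t309 (T t551 (L l28 (L l245 (T t579 N)))))))⟩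
def e0_63_106__214_42_139 : Ent 4 := ⟨[a0, a63, a106], [a214, a42, a220], (M a48 (L l247 (F (T t309 (T t551 (L l28 (L l241 (T t579 (K a217 (M a211 (F (T t578 (L l28 (L l241 (T t579 (T t551 N))))))) (K a211 (M a217 (F (T t578 (L l28 (L l241 (L l245 (T t579 (T t551 N)))))))) N))))))))))⟩
def e0_63_106__214_42_140 : Ent 4 := ⟨[a0, a63, a106], [a214, a42, a221], (M a48 (F (T t309 (T t551 (L l28 (L l241 (T t579 N)))))))⟩
def e0_63_106__214_42_141 : Ent 4 := ⟨[a0, a63, a106], [a214, a42, a222], (M a48 (L l244 (F (T t309 (T t551 (L l28 (L l241 (T t579 (K a210 (M a218 (F (T t3405 (L l273 (T t551 (L l28 (L l241 (T t579 N)))))))) (K a218 (M a210 (F (T t2348 (L l28 (L l241 (L l246 (L l282 (T t579 (L l303 (T t551 N)))))))))) N))))))))))⟩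
def e0_63_106__214_42_142 : Ent 4 := ⟨[a0, a63, a106], [a214, a42, a223], (M a240 (F (T t4786 (L l368 (T t817 (L l361 (T t4781 N)))))))⟩
def e0_63_106__214_42_143 : Ent 4 := ⟨[a0, a63, a106], [a214, a42, a232], (M a48 (F (T t304 (L l28 (T t579 (T t551 N))))))⟩
def e0_63_106__214_42_144 : Ent 4 := ⟨[a0, a63, a106], [a214, a42, a233], (M a252 (F (T t7235 (L l250 (T t2535 (T t6675 N))))))⟩
def e0_63_106__214_42_145 : Ent 4 := ⟨[a0, a63, a106], [a214, a42, a234], (M a48 (L l294 (F (T t578 (L l28 (L l282 (T t579 (T t551 (K a194 (M a254 (F (T t578 (L l28 (L l234 (L l282 (T t579 (T t551 N)))))))) (K a254 (M a194 (F (T t587 (L l28 (L l282 (T t579 N)))))) N))))))))))⟩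
def e0_63_106__214_42_146 : Ent 4 := ⟨[a0, a63, a106], [a214, a42, a235], (M a48 (F (T t309 (T t551 (L l28 (T t579 N))))))⟩
def e0_63_106__214_42_147 : Ent 4 := ⟨[a0, a63, a106], [a214, a42, a236], (M a48 (F (T t309 (T t551 (L l28 (L l400 (T t579 N)))))))⟩
def e0_63_106__214_42_148 : Ent 4 := ⟨[a0, a63, a106], [a214, a42, a237], (M a48 (F (T t309 (T t551 (L l28 (T t579 N))))))⟩
def e0_63_106__214_42_149 : Ent 4 := ⟨[a0, a63, a106], [a214, a42, a238], (M a48 (F (T t309 (T t551 (L l28 (T t579 N))))))⟩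
def e0_63_106__214_42_150 : Ent 4 := ⟨[a0, a63, a106], [a214, a42, a239], (M a48 (F (T t309 (T t551 (L l28 (L l289 (L l404 (T t579 N))))))))⟩
def e0_63_106__214_42_151 : Ent 4 := ⟨[a0, a63, a106], [a214, a42, a252], (M a195 (F (T t6809 (L l477 (T t6810 (T t6811 N))))))⟩
def e0_63_106__214_42_152 : Ent 4 := ⟨[a0, a63, a106], [a214, a42, a253], (M a48 (F (T t309 (T t551 (L l28 (T t579 N))))))⟩
def e0_63_106__214_42_153 : Ent 4 := ⟨[a0, a63, a106], [a214, a42, a254], (M a48 (L l294 (F (T t309 (T t551 (L l28 (T t579 (K a194 (M a234 (F (T t6150 (L l228 (L l234 (T t309 (L l28 (L l234 (T t579 N))))))))) (K a234 (M a194 (F (T t587 (L l28 (L l282 (T t579 N)))))) N)))))))))⟩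
def e0_63_106__214_42_154 : Ent 4 := ⟨[a0, a63, a106], [a214, a42, a255], (M a48 (F (T t585 (L l266 (T t551 (L l28 (L l469 (T t6526 (L l28 (L l289 (T t6527 N)))))))))))⟩
def b0_63_106__214_42 : Blk 4 := ⟨[0, 63, 106], [214, 42], [1, 2, 3, 4, 5, 6, 7, 8, 9, 10, 11, 12, 13, 14, 15, 20, 21, 22, 23, 24, 25, 26, 27, 28, 29, 30, 31, 40, 41, 43, 44, 45, 46, 47, 60, 61, 62, 64, 65, 66, 67, 68, 69, 70, 71, 72, 73, 74, 75, 76, 77, 78, 79, 84, 85, 86, 87, 88, 89, 90, 91, 92, 93, 94, 95, 104, 105, 107, 108, 109, 110, 111, 124, 125, 126, 127, 128, 129, 130, 131, 132, 133, 134, 135, 136, 137, 138, 139, 140, 141, 142, 143, 148, 149, 150, 151, 152, 153, 154, 155, 156, 157, 158, 159, 168, 169, 170, 171, 172, 173, 174, 175, 188, 189, 190, 191, 192, 193, 194, 195, 196, 197, 198, 199, 200, 201, 202, 203, 204, 205, 206, 207, 212, 213, 215, 216, 217, 218, 219, 220, 221, 222, 223, 232, 233, 234, 235, 236, 237, 238, 239, 252, 253, 254, 255],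 [e0_63_106__214_42_0, e0_63_106__214_42_1, e0_63_106__214_42_2, e0_63_106__214_42_3, e0_63_106__214_42_4, e0_63_106__214_42_5, e0_63_106__214_42_6, e0_63_106__214_42_7, e0_63_106__214_42_8, e0_63_106__214_42_9, e0_63_106__214_42_10, e0_63_106__214_42_11, e0_63_106__214_42_12, e0_63_106__214_42_13, e0_63_106__214_42_14, e0_63_106__214_42_15, e0_63_106__214_42_16, e0_63_106__214_42_17, e0_63_106__214_42_18, e0_63_106__214_42_19, e0_63_106__214_42_20, e0_63_106__214_42_21, e0_63_106__214_42_22, e0_63_106__214_42_23, e0_63_106__214_42_24, e0_63_106__214_42_25, e0_63_106__214_42_26, e0_63_106__214_42_27, e0_63_106__214_42_28, e0_63_106__214_42_29, e0_63_106__214_42_30, e0_63_106__214_42_31, e0_63_106__214_42_32, e0_63_106__214_42_33, e0_63_106__214_42_34, e0_63_106__214_42_35, e0_63_106__214_42_36, e0_63_106__214_42_37, e0_63_106__214_42_38, e0_63_106__214_42_39, e0_63_106__214_42_40, e0_63_106__214_42_41, e0_63_106__214_42_42,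 e0_63_106__214_42_43, e0_63_106__214_42_44, e0_63_106__214_42_45, e0_63_106__214_42_46, e0_63_106__214_42_47, e0_63_106__214_42_48, e0_63_106__214_42_49, e0_63_106__214_42_50, e0_63_106__214_42_51, e0_63_106__214_42_52, e0_63_106__214_42_53, e0_63_106__214_42_54, e0_63_106__214_42_55, e0_63_106__214_42_56, e0_63_106__214_42_57, e0_63_106__214_42_58, e0_63_106__214_42_59, e0_63_106__214_42_60, e0_63_106__214_42_61, e0_63_106__214_42_62, e0_63_106__214_42_63, e0_63_106__214_42_64, e0_63_106__214_42_65, e0_63_106__214_42_66, e0_63_106__214_42_67, e0_63_106__214_42_68, e0_63_106__214_42_69, e0_63_106__214_42_70, e0_63_106__214_42_71, e0_63_106__214_42_72, e0_63_106__214_42_73, e0_63_106__214_42_74, e0_63_106__214_42_75, e0_63_106__214_42_76, e0_63_106__214_42_77, e0_63_106__214_42_78, e0_63_106__214_42_79, e0_63_106__214_42_80, e0_63_106__214_42_81, e0_63_106__214_42_82, e0_63_106__214_42_83, e0_63_106__214_42_84, e0_63_106__214_42_85,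 e0_63_106__214_42_86, e0_63_106__214_42_87, e0_63_106__214_42_88, e0_63_106__214_42_89, e0_63_106__214_42_90, e0_63_106__214_42_91, e0_63_106__214_42_92, e0_63_106__214_42_93, e0_63_106__214_42_94, e0_63_106__214_42_95, e0_63_106__214_42_96, e0_63_106__214_42_97, e0_63_106__214_42_98, e0_63_106__214_42_99, e0_63_106__214_42_100, e0_63_106__214_42_101, e0_63_106__214_42_102, e0_63_106__214_42_103, e0_63_106__214_42_104, e0_63_106__214_42_105, e0_63_106__214_42_106, e0_63_106__214_42_107, e0_63_106__214_42_108, e0_63_106__214_42_109, e0_63_106__214_42_110, e0_63_106__214_42_111, e0_63_106__214_42_112, e0_63_106__214_42_113, e0_63_106__214_42_114, e0_63_106__214_42_115, e0_63_106__214_42_116, e0_63_106__214_42_117, e0_63_106__214_42_118, e0_63_106__214_42_119, e0_63_106__214_42_120, e0_63_106__214_42_121, e0_63_106__214_42_122, e0_63_106__214_42_123, e0_63_106__214_42_124, e0_63_106__214_42_125, e0_63_106__214_42_126,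 e0_63_106__214_42_127, e0_63_106__214_42_128, e0_63_106__214_42_129, e0_63_106__214_42_130, e0_63_106__214_42_131, e0_63_106__214_42_132, e0_63_106__214_42_133, e0_63_106__214_42_134, e0_63_106__214_42_135, e0_63_106__214_42_136, e0_63_106__214_42_137, e0_63_106__214_42_138, e0_63_106__214_42_139, e0_63_106__214_42_140, e0_63_106__214_42_141, e0_63_106__214_42_142, e0_63_106__214_42_143, e0_63_106__214_42_144, e0_63_106__214_42_145, e0_63_106__214_42_146, e0_63_106__214_42_147, e0_63_106__214_42_148, e0_63_106__214_42_149, e0_63_106__214_42_150, e0_63_106__214_42_151, e0_63_106__214_42_152, e0_63_106__214_42_153, e0_63_106__214_42_154], by decide +kernel, by decide +kernel⟩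
def e0_63_106__215_42_0 : Ent 4 := ⟨[a0, a63, a106], [a215, a42, a1], (M a48 (F (T t309 (T t551 (L l28 (L l245 (T t579 N)))))))⟩
def e0_63_106__215_42_1 : Ent 4 := ⟨[a0, a63, a106], [a215, a42, a2], (M a48 (L l66 (F (T t309 (T t551 (L l28 (L l245 (T t579 (K a22 (M a62 (F (T t585 (L l22 (T t3443 N))))) (K a62 (M a22 (F (T t578 (L l28 (L l245 (T t579 (T t551 N))))))) N))))))))))⟩
def e0_63_106__215_42_2 : Ent 4 := ⟨[a0, a63, a106], [a215, a42, a3], (M a48 (F (T t585 (L l453 (T t551 (L l28 (L l245 (T t579 N))))))))⟩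
def e0_63_106__215_42_3 : Ent 4 := ⟨[a0, a63, a106], [a215, a42, a4], (M a48 (F (T t309 (T t551 (L l28 (L l245 (T t579 N)))))))⟩
def e0_63_106__215_42_4 : Ent 4 := ⟨[a0, a63, a106], [a215, a42, a5], (M a48 (F (T t578 (L l28 (L l47 (L l245 (T t579 (T t551 N))))))))⟩
def e0_63_106__215_42_5 : Ent 4 := ⟨[a0, a63, a106], [a215, a42, a6], (M a48 (F (T t309 (T t551 (L l28 (L l245 (T t579 N)))))))⟩
def e0_63_106__215_42_6 : Ent 4 := ⟨[a0, a63, a106], [a215, a42, a7], (M a48 (F (T t309 (T t551 (L l28 (L l245 (T t579 N)))))))⟩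
def e0_63_106__215_42_7 : Ent 4 := ⟨[a0, a63, a106], [a215, a42, a8], (M a48 (L l56 (F (T t309 (T t551 (L l28 (L l245 (T t579 (K a25 (M a59 (F (T t307 (L l26 (L l316 (T t6445 N)))))) (K a59 (M a25 (F (T t578 (L l28 (L l245 (T t579 (T t551 N))))))) N))))))))))⟩
def e0_63_106__215_42_8 : Ent 4 := ⟨[a0, a63, a106], [a215, a42, a9], (M a48 (F (T t309 (T t551 (L l28 (L l245 (T t579 N)))))))⟩
def e0_63_106__215_42_9 : Ent 4 := ⟨[a0, a63, a106], [a215, a42, a10], (M a48 (L l54 (F (T t578 (L l28 (L l245 (L l318 (T t579 (T t551 (K a26 (Fr a58 a53 l38 (V t6446)) (K a58 (M a26 (F (L l28 (T t4144 (T t551 (L l28 (L l426 (T t6447 (K a32 (Fr a192 a149 l519 (Fr a15 a37 l75 (Fr a47 a31 l61 (V t6528)))) N))))))))) N)))))))))))⟩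
def e0_63_106__215_42_10 : Ent 4 := ⟨[a0, a63, a106], [a215, a42, a11], (M a48 (F (T t309 (T t551 (L l28 (L l245 (T t579 N)))))))⟩
def e0_63_106__215_42_11 : Ent 4 := ⟨[a0, a63, a106], [a215, a42, a12], (M a48 (F (T t585 (L l478 (T t551 (L l28 (L l245 (T t579 N))))))))⟩
def e0_63_106__215_42_12 : Ent 4 := ⟨[a0, a63, a106], [a215, a42, a13], (M a48 (F (T t309 (T t551 (L l28 (L l245 (T t579 N)))))))⟩
def e0_63_106__215_42_13 : Ent 4 := ⟨[a0, a63, a106], [a215, a42, a14], (M a48 (F (T t309 (T t551 (L l28 (L l245 (T t579 N)))))))⟩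
def e0_63_106__215_42_14 : Ent 4 := ⟨[a0, a63, a106], [a215, a42, a15], (M a48 (F (T t585 (L l483 (T t551 (L l28 (L l245 (T t579 N))))))))⟩
def e0_63_106__215_42_15 : Ent 4 := ⟨[a0, a63, a106], [a215, a42, a20], (M a48 (L l350 (F (T t309 (T t551 (L l28 (L l245 (T t579 (K a85 (M a150 (F (T t304 (L l141 (T t7344 (L l277 (T t7345 N))))))) (K a150 (M a85 (F (T t3095 (L l494 (T t585 N))))) N))))))))))⟩
def e0_63_106__215_42_16 : Ent 4 := ⟨[a0, a63, a106], [a215, a42, a21], (M a48 (F (L l47 (T t309 (L l347 (T t551 (L l28 (L l47 (L l245 (T t579 N))))))))))⟩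
def e0_63_106__215_42_17 : Ent 4 := ⟨[a0, a63, a106], [a215, a42, a22], (M a48 (L l66 (F (T t309 (T t551 (L l28 (L l245 (T t579 (K a2 (M a62 (F (T t585 (L l22 (T t3443 N))))) (K a62 (M a2 (F (T t307 (L l19 (L l28 (T t342 N)))))) N))))))))))⟩
def e0_63_106__215_42_18 : Ent 4 := ⟨[a0, a63, a106], [a215, a42, a23], (M a48 (L l349 (F (T t309 (L l351 (T t551 (L l28 (L l245 (T t579 (K a87 (M a151 (F (T t3405 (L l143 (T t3628 N))))) (K a151 (M a87 (F (T t3405 (L l163 (L l351 (T t551 (L l28 (L l245 (T t579 N))))))))) N)))))))))))⟩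
def e0_63_106__215_42_19 : Ent 4 := ⟨[a0, a63, a106], [a215, a42, a24], (M a48 (F (T t309 (T t551 (L l28 (L l245 (T t579 N)))))))⟩
def e0_63_106__215_42_20 : Ent 4 := ⟨[a0, a63, a106], [a215, a42, a25], (M a48 (L l56 (F (T t309 (T t551 (L l28 (L l245 (T t579 (K a8 (M a59 (F (T t307 (L l26 (L l316 (T t6445 N)))))) (K a59 (M a8 (F (T t307 (L l19 (L l28 (T t4700 N)))))) N))))))))))⟩
def e0_63_106__215_42_21 : Ent 4 := ⟨[a0, a63, a106], [a215, a42, a26], (M a48 (L l54 (F (T t309 (L l28 (L l245 (T t579 (T t551 (K a10 (Fr a58 a53 l38 (V t6446)) (K a58 (M a10 (F (T t4033 (T t551 (L l18 (L l354 (T t6449 (L l18 (L l350 (L l426 (T t6450 N))))))))))) N))))))))))⟩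
def e0_63_106__215_42_22 : Ent 4 := ⟨[a0, a63, a106], [a215, a42, a27], (M a48 (F (T t309 (T t551 (L l28 (L l245 (T t579 N)))))))⟩
def e0_63_106__215_42_23 : Ent 4 := ⟨[a0, a63, a106], [a215, a42, a28], (M a48 (F (T t309 (T t551 (L l28 (L l245 (L l362 (T t579 N))))))))⟩
def e0_63_106__215_42_24 : Ent 4 := ⟨[a0, a63, a106], [a215, a42, a29], (M a48 (F (T t309 (L l371 (T t551 (L l28 (L l245 (T t579 N))))))))⟩
def e0_63_106__215_42_25 : Ent 4 := ⟨[a0, a63, a106], [a215, a42, a30], (M a48 (F (T t309 (T t551 (L l28 (L l245 (T t579 N)))))))⟩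
def e0_63_106__215_42_26 : Ent 4 := ⟨[a0, a63, a106], [a215, a42, a31], (M a48 (F (T t309 (L l375 (T t551 (L l28 (L l245 (L l361 (T t579 N)))))))))⟩
def e0_63_106__215_42_27 : Ent 4 := ⟨[a0, a63, a106], [a215, a42, a40], (M a48 (L l22 (F (T t309 (T t551 (L l24 (L l28 (L l245 (T t579 (K a41 (M a43 (F (T t578 (L l66 (L l349 (L l388 (T t6451 N))))))) (K a43 (M a41 (F (T t578 (L l24 (L l28 (L l245 (T t579 (T t551 N)))))))) N)))))))))))⟩
def e0_63_106__215_42_28 : Ent 4 := ⟨[a0, a63, a106], [a215, a42, a41], (M a48 (L l22 (F (T t309 (T t551 (L l28 (L l245 (T t579 (K a40 (M a43 (F (T t578 (L l66 (L l349 (L l388 (T t6451 N))))))) (K a43 (M a40 (F (T t309 (L l29 (L l69 (T t6452 N)))))) N))))))))))⟩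
def e0_63_106__215_42_29 : Ent 4 := ⟨[a0, a63, a106], [a215, a42, a43], (M a48 (L l22 (F (T t309 (T t551 (L l28 (L l245 (T t579 (K a40 (M a41 (F (T t578 (L l24 (L l28 (L l245 (T t579 (T t551 N)))))))) (K a41 (M a40 (F (T t309 (L l29 (L l69 (T t6452 N)))))) N))))))))))⟩
def e0_63_106__215_42_30 : Ent 4 := ⟨[a0, a63, a106], [a215, a42, a44], (M a48 (F (T t309 (T t551 (L l24 (L l28 (L l245 (T t579 N))))))))⟩
def e0_63_106__215_42_31 : Ent 4 := ⟨[a0, a63, a106], [a215, a42, a45], (M a48 (F (T t309 (T t551 (L l28 (L l245 (T t579 N)))))))⟩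
def e0_63_106__215_42_32 : Ent 4 := ⟨[a0, a63, a106], [a215, a42, a46], (M a48 (L l26 (F (T t309 (T t551 (L l28 (L l245 (T t579 (K a34 (M a38 (F (T t578 (L l20 (L l28 (L l245 (T t579 (T t551 N)))))))) (K a38 (M a34 (F (T t309 (L l29 (L l66 (T t6453 N)))))) N))))))))))⟩
def e0_63_106__215_42_33 : Ent 4 := ⟨[a0, a63, a106], [a215, a42, a47], (M a12 (L l28 (F (T t2304 (T t2305 (L l56 (L l277 (T t2415 (K a32 (M a37 (F (T t2416 (L l56 (L l277 (T t2415 (T t2305 N))))))) (K a37 (M a32 (F (T t2304 (L l51 (L l56 (T t682 N)))))) N))))))))))⟩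
def e0_63_106__215_42_34 : Ent 4 := ⟨[a0, a63, a106], [a215, a42, a60], (M a48 (F (T t585 (L l442 (T t551 (L l28 (L l245 (T t579 N))))))))⟩
def e0_63_106__215_42_35 : Ent 4 := ⟨[a0, a63, a106], [a215, a42, a61], (M a48 (F (L l35 (T t309 (L l515 (T t551 (L l28 (L l35 (L l245 (T t579 N))))))))))⟩
def e0_63_106__215_42_36 : Ent 4 := ⟨[a0, a63, a106], [a215, a42, a62], (M a48 (L l66 (F (T t309 (T t551 (L l28 (L l245 (T t579 (K a2 (M a22 (F (T t578 (L l28 (L l245 (T t579 (T t551 N))))))) (K a22 (M a2 (F (T t307 (L l19 (L l28 (T t342 N)))))) N))))))))))⟩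
def e0_63_106__215_42_37 : Ent 4 := ⟨[a0, a63, a106], [a215, a42, a64], (M a48 (F (T t585 (L l28 (L l245 (L l295 (T t6454 (L l28 (L l245 (T t6455 (L l28 (L l245 (T t6456 (L l28 (L l84 (L l245 (L l295 (T t6457 (L l54 (T t6458 (K a207 (Fr a192 a149 l519 (Fr a96 a144 l484 (Fr a101 a111 l104 (Fr a32 a16 l40 (V t6459))))) N)))))))))))))))))))))⟩
def e0_63_106__215_42_38 : Ent 4 := ⟨[a0, a63, a106], [a215, a42, a65], (M a48 (F (T t309 (L l76 (T t551 (L l28 (L l76 (L l245 (T t579 N)))))))))⟩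
def e0_63_106__215_42_39 : Ent 4 := ⟨[a0, a63, a106], [a215, a42, a66], (M a48 (F (T t585 (L l76 (T t551 (L l28 (L l76 (L l245 (T t579 N)))))))))⟩
def e0_63_106__215_42_40 : Ent 4 := ⟨[a0, a63, a106], [a215, a42, a67], (M a48 (F (T t309 (L l76 (T t551 (L l28 (L l76 (L l245 (T t579 N)))))))))⟩
def e0_63_106__215_42_41 : Ent 4 := ⟨[a0, a63, a106], [a215, a42, a68], (M a48 (F (T t309 (L l80 (T t551 (L l28 (L l80 (L l245 (T t579 N)))))))))⟩
def e0_63_106__215_42_42 : Ent 4 := ⟨[a0, a63, a106], [a215, a42, a69], (M a48 (F (T t309 (L l84 (T t551 (L l28 (L l84 (L l245 (T t579 N)))))))))⟩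
def e0_63_106__215_42_43 : Ent 4 := ⟨[a0, a63, a106], [a215, a42, a70], (M a48 (F (T t309 (T t551 (L l28 (L l245 (T t579 N)))))))⟩
def e0_63_106__215_42_44 : Ent 4 := ⟨[a0, a63, a106], [a215, a42, a71], (M a48 (F (T t309 (T t551 (L l28 (L l245 (T t579 N)))))))⟩
def e0_63_106__215_42_45 : Ent 4 := ⟨[a0, a63, a106], [a215, a42, a72], (M a48 (F (T t585 (L l80 (T t551 (L l28 (L l80 (L l245 (T t579 N)))))))))⟩
def e0_63_106__215_42_46 : Ent 4 := ⟨[a0, a63, a106], [a215, a42, a73], (M a48 (F (T t309 (T t551 (L l28 (L l245 (T t579 N)))))))⟩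
def e0_63_106__215_42_47 : Ent 4 := ⟨[a0, a63, a106], [a215, a42, a74], (M a48 (F (T t578 (L l28 (L l84 (L l245 (L l318 (T t579 (L l84 (T t551 N))))))))))⟩
def e0_63_106__215_42_48 : Ent 4 := ⟨[a0, a63, a106], [a215, a42, a75], (M a48 (F (T t309 (T t551 (L l28 (L l245 (T t579 N)))))))⟩
def e0_63_106__215_42_49 : Ent 4 := ⟨[a0, a63, a106], [a215, a42, a76], (M a48 (F (T t309 (L l80 (T t551 (L l28 (L l80 (L l245 (T t579 N)))))))))⟩
def e0_63_106__215_42_50 : Ent 4 := ⟨[a0, a63, a106], [a215, a42, a77], (M a48 (F (T t309 (T t551 (L l28 (L l245 (T t579 N)))))))⟩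
def e0_63_106__215_42_51 : Ent 4 := ⟨[a0, a63, a106], [a215, a42, a78], (M a48 (F (T t309 (T t551 (L l28 (L l245 (T t579 N)))))))⟩
def e0_63_106__215_42_52 : Ent 4 := ⟨[a0, a63, a106], [a215, a42, a79], (M a48 (F (T t309 (L l84 (T t551 (L l28 (L l84 (L l245 (T t579 N)))))))))⟩
def e0_63_106__215_42_53 : Ent 4 := ⟨[a0, a63, a106], [a215, a42, a84], (M a48 (F (T t309 (L l140 (T t551 (L l28 (L l140 (L l245 (T t579 N)))))))))⟩
def e0_63_106__215_42_54 : Ent 4 := ⟨[a0, a63, a106], [a215, a42, a85], (M a48 (L l350 (F (T t309 (L l347 (T t551 (L l54 (T t777 (L l368 (T t6465 (K a192 (M a150 (F (L l236 (L l349 (T t8239 (L l228 (L l277 (T t7345 (L l56 (L l228 (T t7677 (L l228 (L l236 (T t8240 (L l123 (L l236 (T t8241 N))))))))))))))))) (K a20 (M a150 (F (T t304 (L l141 (T t7344 (L l277 (T t7345 N))))))) (K a150 (M a20 (F (T t309 (L l28 (L l374 (L l458 (T t183 N))))))) N)))))))))))))⟩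
def e0_63_106__215_42_55 : Ent 4 := ⟨[a0, a63, a106], [a215, a42, a86], (M a48 (F (T t309 (L l351 (T t551 (L l28 (L l245 (T t579 N))))))))⟩
def e0_63_106__215_42_56 : Ent 4 := ⟨[a0, a63, a106], [a215, a42, a87], (M a48 (L l349 (F (T t309 (T t551 (L l28 (L l245 (L l367 (T t579 (K a23 (M a151 (F (T t3405 (L l143 (T t3628 N))))) (K a151 (M a23 (F (T t3405 (L l22 (T t3181 N))))) N)))))))))))⟩
def e0_63_106__215_42_57 : Ent 4 := ⟨[a0, a63, a106], [a215, a42, a88], (M a48 (F (T t309 (L l478 (T t551 (L l28 (L l245 (T t579 N))))))))⟩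
def e0_63_106__215_42_58 : Ent 4 := ⟨[a0, a63, a106], [a215, a42, a89], (M a48 (F (T t309 (L l371 (T t551 (L l28 (L l245 (T t579 N))))))))⟩
def e0_63_106__215_42_59 : Ent 4 := ⟨[a0, a63, a106], [a215, a42, a90], (M a48 (F (T t309 (L l375 (L l483 (T t551 (L l28 (L l245 (T t579 N)))))))))⟩
def e0_63_106__215_42_60 : Ent 4 := ⟨[a0, a63, a106], [a215, a42, a91], (M a48 (F (T t309 (T t551 (L l28 (L l245 (T t579 N)))))))⟩
def e0_63_106__215_42_61 : Ent 4 := ⟨[a0, a63, a106], [a215, a42, a92], (M a48 (F (T t309 (T t551 (L l28 (L l245 (T t579 N)))))))⟩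
def e0_63_106__215_42_62 : Ent 4 := ⟨[a0, a63, a106], [a215, a42, a93], (M a48 (F (T t309 (T t551 (L l28 (L l245 (L l362 (T t579 N))))))))⟩
def e0_63_106__215_42_63 : Ent 4 := ⟨[a0, a63, a106], [a215, a42, a94], (M a48 (F (T t309 (T t551 (L l28 (L l245 (T t579 N)))))))⟩
def e0_63_106__215_42_64 : Ent 4 := ⟨[a0, a63, a106], [a215, a42, a95], (M a48 (F (T t309 (T t551 (L l28 (L l245 (L l361 (T t579 N))))))))⟩
def e0_63_106__215_42_65 : Ent 4 := ⟨[a0, a63, a106], [a215, a42, a104], (M a48 (F (T t585 (L l100 (L l140 (T t551 (L l28 (L l140 (L l245 (T t579 N))))))))))⟩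
def e0_63_106__215_42_66 : Ent 4 := ⟨[a0, a63, a106], [a215, a42, a105], (M a48 (F (T t309 (L l515 (T t551 (L l28 (L l245 (T t579 N))))))))⟩
def e0_63_106__215_42_67 : Ent 4 := ⟨[a0, a63, a106], [a215, a42, a107], (M a48 (F (T t309 (T t551 (L l28 (L l245 (T t579 N)))))))⟩
def e0_63_106__215_42_68 : Ent 4 := ⟨[a0, a63, a106], [a215, a42, a108], (M a48 (F (T t309 (L l100 (T t551 (L l28 (L l245 (T t579 N))))))))⟩
def e0_63_106__215_42_69 : Ent 4 := ⟨[a0, a63, a106], [a215, a42, a109], (M a48 (F (T t309 (T t551 (L l28 (L l245 (T t579 N)))))))⟩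
def e0_63_106__215_42_70 : Ent 4 := ⟨[a0, a63, a106], [a215, a42, a110], (M a48 (F (T t309 (T t551 (L l28 (L l245 (T t579 N)))))))⟩
def e0_63_106__215_42_71 : Ent 4 := ⟨[a0, a63, a106], [a215, a42, a111], (M a240 (F (T t4779 (T t817 (L l137 (T t4781 N))))))⟩
def e0_63_106__215_42_72 : Ent 4 := ⟨[a0, a63, a106], [a215, a42, a124], (M a48 (F (T t309 (L l140 (T t551 (L l28 (L l140 (L l245 (T t579 N)))))))))⟩
def e0_63_106__215_42_73 : Ent 4 := ⟨[a0, a63, a106], [a215, a42, a125], (M a48 (F (T t309 (T t551 (L l28 (L l245 (T t579 N)))))))⟩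
def e0_63_106__215_42_74 : Ent 4 := ⟨[a0, a63, a106], [a215, a42, a126], (M a48 (F (T t309 (T t551 (L l28 (L l245 (T t579 N)))))))⟩
def e0_63_106__215_42_75 : Ent 4 := ⟨[a0, a63, a106], [a215, a42, a127], (M a48 (F (T t309 (T t551 (L l28 (L l245 (L l295 (T t6454 (L l28 (L l245 (T t6479 N)))))))))))⟩
def e0_63_106__215_42_76 : Ent 4 := ⟨[a0, a63, a106], [a215, a42, a128], (M a48 (F (T t585 (L l28 (L l245 (T t579 (L l192 (L l220 (L l350 (T t6480 (L l54 (L l160 (L l295 (T t6481 N))))))))))))))⟩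
def e0_63_106__215_42_77 : Ent 4 := ⟨[a0, a63, a106], [a215, a42, a129], (M a48 (F (T t304 (L l28 (L l245 (T t579 (L l217 (T t551 N))))))))⟩
def e0_63_106__215_42_78 : Ent 4 := ⟨[a0, a63, a106], [a215, a42, a130], (M a48 (F (T t309 (T t551 (L l28 (L l245 (T t579 N)))))))⟩
def e0_63_106__215_42_79 : Ent 4 := ⟨[a0, a63, a106], [a215, a42, a131], (M a48 (F (T t309 (L l197 (T t551 (L l28 (L l245 (T t579 N))))))))⟩
def e0_63_106__215_42_80 : Ent 4 := ⟨[a0, a63, a106], [a215, a42, a132], (M a48 (F (T t304 (L l28 (L l245 (T t579 (L l202 (T t551 N))))))))⟩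
def e0_63_106__215_42_81 : Ent 4 := ⟨[a0, a63, a106], [a215, a42, a133], (M a48 (F (T t304 (L l28 (L l245 (T t579 (L l199 (T t551 N))))))))⟩
def e0_63_106__215_42_82 : Ent 4 := ⟨[a0, a63, a106], [a215, a42, a134], (M a48 (F (T t309 (T t551 (L l28 (L l245 (T t579 N)))))))⟩
def e0_63_106__215_42_83 : Ent 4 := ⟨[a0, a63, a106], [a215, a42, a135], (M a48 (F (T t309 (T t551 (L l28 (L l245 (T t579 N)))))))⟩
def e0_63_106__215_42_84 : Ent 4 := ⟨[a0, a63, a106], [a215, a42, a136], (M a48 (F (T t309 (T t551 (L l28 (L l245 (T t579 N)))))))⟩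
def e0_63_106__215_42_85 : Ent 4 := ⟨[a0, a63, a106], [a215, a42, a137], (M a48 (F (T t309 (T t551 (L l28 (L l245 (T t579 N)))))))⟩
def e0_63_106__215_42_86 : Ent 4 := ⟨[a0, a63, a106], [a215, a42, a138], (M a48 (F (T t578 (L l28 (L l245 (L l318 (T t579 (T t551 N))))))))⟩
def e0_63_106__215_42_87 : Ent 4 := ⟨[a0, a63, a106], [a215, a42, a139], (M a48 (F (T t309 (T t551 (L l28 (L l245 (T t579 N)))))))⟩
def e0_63_106__215_42_88 : Ent 4 := ⟨[a0, a63, a106], [a215, a42, a140], (M a48 (F (T t309 (L l222 (T t551 (L l28 (L l245 (T t579 N))))))))⟩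
def e0_63_106__215_42_89 : Ent 4 := ⟨[a0, a63, a106], [a215, a42, a141], (M a48 (F (T t309 (T t551 (L l28 (L l245 (T t579 N)))))))⟩
def e0_63_106__215_42_90 : Ent 4 := ⟨[a0, a63, a106], [a215, a42, a142], (M a48 (F (T t309 (T t551 (L l28 (L l245 (T t579 N)))))))⟩
def e0_63_106__215_42_91 : Ent 4 := ⟨[a0, a63, a106], [a215, a42, a143], (M a48 (F (T t309 (L l28 (T t6462 (L l28 (L l245 (T t579 N))))))))⟩
def e0_63_106__215_42_92 : Ent 4 := ⟨[a0, a63, a106], [a215, a42, a148], (M a48 (F (T t304 (L l28 (L l245 (T t579 (L l163 (T t551 N))))))))⟩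
def e0_63_106__215_42_93 : Ent 4 := ⟨[a0, a63, a106], [a215, a42, a149], (M a240 (F (L l199 (T t4781 (L l199 (L l347 (L l350 (T t6484 (L l28 (L l199 (L l375 (T t6483 (L l28 (L l199 (L l220 (L l375 (T t6485 (K a133 (M a165 (F (T t6486 (L l28 (L l160 (L l220 (L l311 (L l375 (T t6487 (L l160 (L l220 (L l295 (T t6488 N))))))))))))) (K a165 (M a90 (L l199 (F (T t4788 (L l180 (T t6489 (K a133 (Fr a181 a122 l447 (V t6489)) (K a181 (M a133 (F (L l180 (T t6489 (L l227 (T t6746 (L l455 (T t6490 N)))))))) N)))))))) (K a181 (M a165 (F (T t6492 (T t6493 (L l28 (L l220 (L l375 (T t6487 (L l220 (L l295 (T t6488 N))))))))))) (K a74 (M a48 (F (T t6494 (L l199 (L l295 (L l491 (T t781 (L l28 (L l84 (L l245 (L l318 (L l491 (T t579 N))))))))))))) (K a90 (M a48 (L l375 (F (T t3318 (L l199 (L l295 (L l462 (L l491 (T t781 (L l28 (L l245 (L l491 (T t579 (K a208 (M a31 (F (L l28 (L l347 (T t6495 (L l151 (L l220 (L l295 (T t6496 N))))))))) (K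 a31 (M a208 (F (T t6497 (L l151 (L l220 (L l295 (T t6496 N))))))) N))))))))))))))) (K a122 (M a48 (F (T t3318 (L l114 (L l491 (T t6471 (L l28 (L l245 (L l491 (T t579 N)))))))))) N)))))))))))))))))))))))⟩
def e0_63_106__215_42_94 : Ent 4 := ⟨[a0, a63, a106], [a215, a42, a150], (M a48 (L l350 (F (T t309 (L l163 (T t551 (L l28 (L l245 (T t579 (K a20 (M a85 (F (T t3095 (L l494 (T t585 N))))) (K a85 (M a20 (F (T t309 (L l28 (L l374 (L l458 (T t183 N))))))) N)))))))))))⟩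
def e0_63_106__215_42_95 : Ent 4 := ⟨[a0, a63, a106], [a215, a42, a151], (M a48 (L l349 (F (T t309 (L l163 (T t551 (L l28 (L l245 (T t579 (K a23 (M a87 (F (T t3405 (L l163 (L l351 (T t551 (L l28 (L l245 (T t579 N))))))))) (K a87 (M a23 (F (T t3405 (L l22 (T t3181 N))))) N)))))))))))⟩
def e0_63_106__215_42_96 : Ent 4 := ⟨[a0, a63, a106], [a215, a42, a152], (M a48 (F (T t304 (L l28 (L l245 (T t579 (L l222 (T t551 N))))))))⟩
def e0_63_106__215_42_97 : Ent 4 := ⟨[a0, a63, a106], [a215, a42, a153], (M a48 (F (T t309 (L l167 (T t551 (L l28 (L l245 (T t579 N))))))))⟩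
def e0_63_106__215_42_98 : Ent 4 := ⟨[a0, a63, a106], [a215, a42, a154], (M a240 (F (T t4779 (L l170 (L l368 (L l512 (T t817 (T t4781 N))))))))⟩
def e0_63_106__215_42_99 : Ent 4 := ⟨[a0, a63, a106], [a215, a42, a155], (M a48 (F (T t309 (T t551 (L l28 (L l245 (L l367 (T t579 N))))))))⟩
def e0_63_106__215_42_100 : Ent 4 := ⟨[a0, a63, a106], [a215, a42, a156], (M a48 (F (T t304 (L l28 (L l245 (T t579 (T t551 N)))))))⟩
def e0_63_106__215_42_101 : Ent 4 := ⟨[a0, a63, a106], [a215, a42, a157], (M a48 (F (T t309 (L l167 (T t551 (L l28 (L l245 (T t579 N))))))))⟩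
def e0_63_106__215_42_102 : Ent 4 := ⟨[a0, a63, a106], [a215, a42, a158], (M a48 (F (T t309 (T t551 (L l28 (L l245 (L l362 (T t579 N))))))))⟩
def e0_63_106__215_42_103 : Ent 4 := ⟨[a0, a63, a106], [a215, a42, a159], (M a240 (F (T t4779 (L l170 (T t817 (L l361 (T t4781 N)))))))⟩
def e0_63_106__215_42_104 : Ent 4 := ⟨[a0, a63, a106], [a215, a42, a168], (M a48 (F (T t309 (T t551 (L l28 (L l245 (L l400 (T t579 N))))))))⟩
def e0_63_106__215_42_105 : Ent 4 := ⟨[a0, a63, a106], [a215, a42, a169], (M a48 (F (T t309 (L l217 (T t551 (L l28 (L l245 (T t579 N))))))))⟩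
def e0_63_106__215_42_106 : Ent 4 := ⟨[a0, a63, a106], [a215, a42, a170], (M a48 (F (T t309 (L l220 (T t551 (L l28 (L l206 (L l220 (L l245 (L l404 (T t552 (L l28 (L l206 (L l245 (L l404 (T t553 N))))))))))))))))⟩
def e0_63_106__215_42_107 : Ent 4 := ⟨[a0, a63, a106], [a215, a42, a171], (M a48 (F (T t309 (T t551 (L l28 (L l245 (T t579 N)))))))⟩
def e0_63_106__215_42_108 : Ent 4 := ⟨[a0, a63, a106], [a215, a42, a172], (M a48 (F (T t309 (T t551 (L l28 (L l245 (T t579 N)))))))⟩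
def e0_63_106__215_42_109 : Ent 4 := ⟨[a0, a63, a106], [a215, a42, a173], (M a48 (F (T t309 (T t551 (L l28 (L l245 (T t579 N)))))))⟩
def e0_63_106__215_42_110 : Ent 4 := ⟨[a0, a63, a106], [a215, a42, a174], (M a48 (F (T t309 (T t551 (L l28 (L l245 (T t579 N)))))))⟩
def e0_63_106__215_42_111 : Ent 4 := ⟨[a0, a63, a106], [a215, a42, a175], (M a48 (F (T t309 (T t551 (L l28 (L l245 (T t579 N)))))))⟩
def e0_63_106__215_42_112 : Ent 4 := ⟨[a0, a63, a106], [a215, a42, a188], (M a48 (F (T t309 (L l186 (T t551 (L l28 (L l245 (T t579 N))))))))⟩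
def e0_63_106__215_42_113 : Ent 4 := ⟨[a0, a63, a106], [a215, a42, a189], (M a48 (F (T t309 (L l217 (T t551 (L l28 (L l245 (T t579 N))))))))⟩
def e0_63_106__215_42_114 : Ent 4 := ⟨[a0, a63, a106], [a215, a42, a190], (M a48 (F (T t309 (T t551 (L l28 (L l245 (T t579 N)))))))⟩
def e0_63_106__215_42_115 : Ent 4 := ⟨[a0, a63, a106], [a215, a42, a191], (M a48 (F (T t309 (L l190 (L l220 (T t551 (L l28 (L l245 (L l295 (T t6498 (L l28 (L l245 (T t6499 N)))))))))))))⟩
def e0_63_106__215_42_116 : Ent 4 := ⟨[a0, a63, a106], [a215, a42, a192], (M a240 (F (L l339 (T t4781 (L l236 (L l339 (T t6500 (L l295 (L l296 (L l339 (T t6501 (L l28 (L l339 (T t6502 (L l339 (T t6503 (K a133 (M a90 (L l339 (F (T t4788 (T t6504 (K a74 (Fr a15 a165 l483 (V t6505)) (K a15 (Fr a74 a122 l130 (V t6506)) N))))))) (K a85 (M a150 (F (L l228 (T t7654 (L l339 (L l349 (T t8242 (L l228 (T t8243 (L l26 (L l228 (L l339 (T t8244 (L l339 (L l455 (T t8245 N))))))))))))))))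 (K a181 (M a12 (F (T t3358 (L l56 (L l272 (L l277 (T t2415 (L l272 (T t6512 N))))))))) (K a74 (M a165 (L l339 (F (T t6492 (L l295 (L l296 (T t6513 (L l54 (L l84 (L l318 (T t6514 (K a133 (Fr a15 a90 l483 (V t6515)) (K a15 (M a133 (F (T t6516 (L l28 (L l236 (L l318 (L l484 (T t6517 N)))))))) N))))))))))))) (K a90 (M a252 (F (L l334 (T t6518 (L l148 (L l489 (T t6519 (L l309 (L l349 (T t6675 N)))))))))) (K a122 (M a12 (F (T t2747 (L l56 (L l272 (L l277 (T t2415 (L l272 (T t6512 N))))))))) (K a15 (M a248 (L l339 (F (T t6520 (L l22 (T t6521 (K a133 (M a74 (F (T t6522 (L l3 (L l56 (L l334 (T t6523 N))))))) (K a74 (M a133 (F (T t3821 (T t6520 (L l350 (L l469 (L l484 (T t6524 N)))))))) N)))))))) N)))))))))))))))))))))))⟩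
def e0_63_106__215_42_117 : Ent 4 := ⟨[a0, a63, a106], [a215, a42, a193], (M a48 (F (T t304 (L l28 (L l245 (T t579 (L l515 (T t551 N))))))))⟩
def e0_63_106__215_42_118 : Ent 4 := ⟨[a0, a63, a106], [a215, a42, a194], (M a48 (F (T t578 (L l28 (L l234 (L l245 (T t579 (T t551 N))))))))⟩
def e0_63_106__215_42_119 : Ent 4 := ⟨[a0, a63, a106], [a215, a42, a195], (M a48 (L l295 (F (T t585 (L l273 (T t551 (L l28 (L l245 (T t579 (K a235 (M a255 (F (T t6960 (L l235 (T t304 N))))) (K a255 (M a235 (F (T t585 (L l266 (L l273 (T t551 (L l28 (L l350 (L l469 (T t6526 (L l28 (L l245 (L l289 (T t6527 N)))))))))))))) N)))))))))))⟩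
def e0_63_106__215_42_120 : Ent 4 := ⟨[a0, a63, a106], [a215, a42, a196], (M a48 (F (T t304 (L l28 (L l245 (T t579 (L l495 (T t551 N))))))))⟩
def e0_63_106__215_42_121 : Ent 4 := ⟨[a0, a63, a106], [a215, a42, a197], (M a240 (F (L l236 (T t4779 (L l491 (T t817 (T t4781 N)))))))⟩
def e0_63_106__215_42_122 : Ent 4 := ⟨[a0, a63, a106], [a215, a42, a198], (M a48 (F (T t578 (L l28 (L l234 (L l245 (T t579 (T t551 N))))))))⟩
def e0_63_106__215_42_123 : Ent 4 := ⟨[a0, a63, a106], [a215, a42, a199], (M a48 (L l277 (F (T t309 (T t551 (L l28 (L l245 (T t579 (K a231 (M a247 (F (T t309 (T t551 (L l28 (L l245 (T t579 N))))))) (K a247 (M a231 (F (T t309 (T t551 (L l28 (L l245 (T t579 N))))))) N))))))))))⟩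
def e0_63_106__215_42_124 : Ent 4 := ⟨[a0, a63, a106], [a215, a42, a200], (M a48 (F (T t578 (L l28 (L l230 (L l245 (T t579 (T t551 N))))))))⟩
def e0_63_106__215_42_125 : Ent 4 := ⟨[a0, a63, a106], [a215, a42, a201], (M a48 (F (T t578 (L l28 (L l230 (L l245 (T t579 (T t551 N))))))))⟩
def e0_63_106__215_42_126 : Ent 4 := ⟨[a0, a63, a106], [a215, a42, a202], (M a240 (F (L l236 (T t4786 (T t817 (L l318 (T t4781 N)))))))⟩
def e0_63_106__215_42_127 : Ent 4 := ⟨[a0, a63, a106], [a215, a42, a203], (M a48 (F (T t2348 (L l28 (L l230 (L l245 (T t579 (T t551 N))))))))⟩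
def e0_63_106__215_42_128 : Ent 4 := ⟨[a0, a63, a106], [a215, a42, a204], (M a48 (F (T t585 (L l298 (T t551 (L l28 (L l245 (T t579 N))))))))⟩
def e0_63_106__215_42_129 : Ent 4 := ⟨[a0, a63, a106], [a215, a42, a205], (M a48 (F (T t309 (T t551 (L l28 (L l245 (T t579 N)))))))⟩
def e0_63_106__215_42_130 : Ent 4 := ⟨[a0, a63, a106], [a215, a42, a206], (M a48 (F (T t2348 (L l28 (L l234 (L l245 (T t579 (T t551 N))))))))⟩
def e0_63_106__215_42_131 : Ent 4 := ⟨[a0, a63, a106], [a215, a42, a207], (M a240 (F (T t6525 (L l512 (T t817 (T t4781 N))))))⟩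
def e0_63_106__215_42_132 : Ent 4 := ⟨[a0, a63, a106], [a215, a42, a212], (M a48 (L l239 (F (T t304 (L l28 (L l245 (T t579 (L l351 (T t551 (K a213 (M a214 (F (T t304 (L l28 (L l245 (L l246 (T t579 (L l347 (L l351 (T t551 N)))))))))) (K a214 (M a213 (F (L l292 (T t8040 (L l351 (T t307 (L l28 (L l245 (T t579 N))))))))) N)))))))))))⟩
def e0_63_106__215_42_133 : Ent 4 := ⟨[a0, a63, a106], [a215, a42, a213], (M a48 (L l239 (F (T t304 (L l28 (L l245 (L l246 (T t579 (L l347 (T t551 (K a212 (M a214 (F (T t304 (L l28 (L l245 (L l246 (T t579 (L l347 (L l351 (T t551 N)))))))))) (K a214 (M a212 (F (T t304 (L l347 (L l350 (T t8238 (L l28 (L l245 (L l246 (T t579 N)))))))))) N))))))))))))⟩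
def e0_63_106__215_42_134 : Ent 4 := ⟨[a0, a63, a106], [a215, a42, a214], (M a48 (L l239 (F (T t309 (T t551 (L l28 (L l245 (T t579 (K a212 (M a213 (F (L l292 (T t8040 (L l351 (T t307 (L l28 (L l245 (T t579 N))))))))) (K a213 (M a212 (F (T t304 (L l347 (L l350 (T t8238 (L l28 (L l245 (L l246 (T t579 N)))))))))) N))))))))))⟩
def e0_63_106__215_42_135 : Ent 4 := ⟨[a0, a63, a106], [a215, a42, a216], (M a48 (F (T t309 (L l298 (T t551 (L l28 (L l245 (T t579 N))))))))⟩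
def e0_63_106__215_42_136 : Ent 4 := ⟨[a0, a63, a106], [a215, a42, a217], (M a48 (F (T t309 (T t551 (L l28 (L l245 (T t579 N)))))))⟩
def e0_63_106__215_42_137 : Ent 4 := ⟨[a0, a63, a106], [a215, a42, a218], (M a48 (F (T t2348 (L l28 (L l245 (L l246 (L l282 (T t579 (L l303 (T t551 N))))))))))⟩
def e0_63_106__215_42_138 : Ent 4 := ⟨[a0, a63, a106], [a215, a42, a219], (M a240 (L l245 (F (T t4779 (T t817 (T t4781 (K a211 (M a223 (F (T t6965 (L l344 (T t817 (T t4781 N)))))) (K a223 (M a211 (F (T t6965 (L l368 (T t817 (L l361 (T t4781 N))))))) N))))))))⟩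
def e0_63_106__215_42_139 : Ent 4 := ⟨[a0, a63, a106], [a215, a42, a220], (M a48 (F (T t309 (T t551 (L l28 (L l241 (L l245 (T t579 N))))))))⟩
def e0_63_106__215_42_140 : Ent 4 := ⟨[a0, a63, a106], [a215, a42, a221], (M a48 (F (T t309 (T t551 (L l28 (L l241 (L l245 (T t579 N))))))))⟩
def e0_63_106__215_42_141 : Ent 4 := ⟨[a0, a63, a106], [a215, a42, a222], (M a48 (F (T t309 (T t551 (L l28 (L l241 (L l245 (T t579 N))))))))⟩
def e0_63_106__215_42_142 : Ent 4 := ⟨[a0, a63, a106], [a215, a42, a223], (M a240 (L l245 (F (T t4786 (L l368 (T t817 (L l361 (T t4781 (K a211 (M a219 (F (T t6965 (L l344 (L l368 (T t817 (L l361 (T t4781 N)))))))) (K a219 (M a211 (F (T t6965 (L l368 (T t817 (L l361 (T t4781 N))))))) N))))))))))⟩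
def e0_63_106__215_42_143 : Ent 4 := ⟨[a0, a63, a106], [a215, a42, a232], (M a48 (F (T t304 (L l28 (L l245 (T t579 (T t551 N)))))))⟩
def e0_63_106__215_42_144 : Ent 4 := ⟨[a0, a63, a106], [a215, a42, a233], (M a48 (F (T t309 (T t551 (L l28 (L l245 (T t579 N)))))))⟩
def e0_63_106__215_42_145 : Ent 4 := ⟨[a0, a63, a106], [a215, a42, a234], (M a48 (F (T t578 (L l28 (L l245 (L l282 (T t579 (T t551 N))))))))⟩
def e0_63_106__215_42_146 : Ent 4 := ⟨[a0, a63, a106], [a215, a42, a235], (M a195 (F (L l391 (T t6880 (T t6810 (L l349 (T t6811 N)))))))⟩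
def e0_63_106__215_42_147 : Ent 4 := ⟨[a0, a63, a106], [a215, a42, a236], (M a48 (F (T t309 (T t551 (L l28 (L l245 (L l400 (T t579 N))))))))⟩
def e0_63_106__215_42_148 : Ent 4 := ⟨[a0, a63, a106], [a215, a42, a237], (M a48 (F (T t309 (T t551 (L l28 (L l245 (T t579 N)))))))⟩
def e0_63_106__215_42_149 : Ent 4 := ⟨[a0, a63, a106], [a215, a42, a238], (M a48 (F (T t309 (T t551 (L l28 (L l245 (T t579 N)))))))⟩
def e0_63_106__215_42_150 : Ent 4 := ⟨[a0, a63, a106], [a215, a42, a239], (M a48 (F (T t309 (T t551 (L l28 (L l245 (L l289 (L l404 (T t579 N)))))))))⟩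
def e0_63_106__215_42_151 : Ent 4 := ⟨[a0, a63, a106], [a215, a42, a252], (M a48 (F (T t585 (L l262 (T t551 (L l28 (L l245 (T t579 N))))))))⟩
def e0_63_106__215_42_152 : Ent 4 := ⟨[a0, a63, a106], [a215, a42, a253], (M a48 (F (T t309 (T t551 (L l28 (L l245 (T t579 N)))))))⟩
def e0_63_106__215_42_153 : Ent 4 := ⟨[a0, a63, a106], [a215, a42, a254], (M a48 (F (T t309 (T t551 (L l28 (L l245 (T t579 N)))))))⟩
def e0_63_106__215_42_154 : Ent 4 := ⟨[a0, a63, a106], [a215, a42, a255], (M a48 (L l295 (F (T t585 (L l266 (T t551 (L l28 (L l350 (L l469 (T t6526 (L l28 (L l245 (L l289 (T t6527 (K a195 (M a235 (F (T t585 (L l266 (L l273 (T t551 (L l28 (L l350 (L l469 (T t6526 (L l28 (L l245 (L l289 (T t6527 N)))))))))))))) (K a235 (M a195 (F (T t585 (L l265 (T t4663 N))))) N))))))))))))))))⟩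
def b0_63_106__215_42 : Blk 4 := ⟨[0, 63, 106], [215, 42], [1, 2, 3, 4, 5, 6, 7, 8, 9, 10, 11, 12, 13, 14, 15, 20, 21, 22, 23, 24, 25, 26, 27, 28, 29, 30, 31, 40, 41, 43, 44, 45, 46, 47, 60, 61, 62, 64, 65, 66, 67, 68, 69, 70, 71, 72, 73, 74, 75, 76, 77, 78, 79, 84, 85, 86, 87, 88, 89, 90, 91, 92, 93, 94, 95, 104, 105, 107, 108, 109, 110, 111, 124, 125, 126, 127, 128, 129, 130, 131, 132, 133, 134, 135, 136, 137, 138, 139, 140, 141, 142, 143, 148, 149, 150, 151, 152, 153, 154, 155, 156, 157, 158, 159, 168, 169, 170, 171, 172, 173, 174, 175, 188, 189, 190, 191, 192, 193, 194, 195, 196, 197, 198, 199, 200, 201, 202, 203, 204, 205, 206, 207, 212, 213, 214, 216, 217, 218, 219, 220, 221, 222, 223, 232, 233, 234, 235, 236, 237, 238, 239, 252, 253, 254, 255], [e0_63_106__215_42_0, e0_63_106__215_42_1, e0_63_106__215_42_2, e0_63_106__215_42_3, e0_63_106__215_42_4, e0_63_106__215_42_5, e0_63_106__215_42_6, e0_63_106__215_42_7,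 e0_63_106__215_42_8, e0_63_106__215_42_9, e0_63_106__215_42_10, e0_63_106__215_42_11, e0_63_106__215_42_12, e0_63_106__215_42_13, e0_63_106__215_42_14, e0_63_106__215_42_15, e0_63_106__215_42_16, e0_63_106__215_42_17, e0_63_106__215_42_18, e0_63_106__215_42_19, e0_63_106__215_42_20, e0_63_106__215_42_21, e0_63_106__215_42_22, e0_63_106__215_42_23, e0_63_106__215_42_24, e0_63_106__215_42_25, e0_63_106__215_42_26, e0_63_106__215_42_27, e0_63_106__215_42_28, e0_63_106__215_42_29, e0_63_106__215_42_30, e0_63_106__215_42_31, e0_63_106__215_42_32, e0_63_106__215_42_33, e0_63_106__215_42_34, e0_63_106__215_42_35, e0_63_106__215_42_36, e0_63_106__215_42_37, e0_63_106__215_42_38, e0_63_106__215_42_39, e0_63_106__215_42_40, e0_63_106__215_42_41, e0_63_106__215_42_42, e0_63_106__215_42_43, e0_63_106__215_42_44, e0_63_106__215_42_45, e0_63_106__215_42_46, e0_63_106__215_42_47, e0_63_106__215_42_48, e0_63_106__215_42_49, e0_63_106__215_42_50,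 e0_63_106__215_42_51, e0_63_106__215_42_52, e0_63_106__215_42_53, e0_63_106__215_42_54, e0_63_106__215_42_55, e0_63_106__215_42_56, e0_63_106__215_42_57, e0_63_106__215_42_58, e0_63_106__215_42_59, e0_63_106__215_42_60, e0_63_106__215_42_61, e0_63_106__215_42_62, e0_63_106__215_42_63, e0_63_106__215_42_64, e0_63_106__215_42_65, e0_63_106__215_42_66, e0_63_106__215_42_67, e0_63_106__215_42_68, e0_63_106__215_42_69, e0_63_106__215_42_70, e0_63_106__215_42_71, e0_63_106__215_42_72, e0_63_106__215_42_73, e0_63_106__215_42_74, e0_63_106__215_42_75, e0_63_106__215_42_76, e0_63_106__215_42_77, e0_63_106__215_42_78, e0_63_106__215_42_79, e0_63_106__215_42_80, e0_63_106__215_42_81, e0_63_106__215_42_82, e0_63_106__215_42_83, e0_63_106__215_42_84, e0_63_106__215_42_85, e0_63_106__215_42_86, e0_63_106__215_42_87, e0_63_106__215_42_88, e0_63_106__215_42_89, e0_63_106__215_42_90, e0_63_106__215_42_91, e0_63_106__215_42_92, e0_63_106__215_42_93,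 e0_63_106__215_42_94, e0_63_106__215_42_95, e0_63_106__215_42_96, e0_63_106__215_42_97, e0_63_106__215_42_98, e0_63_106__215_42_99, e0_63_106__215_42_100, e0_63_106__215_42_101, e0_63_106__215_42_102, e0_63_106__215_42_103, e0_63_106__215_42_104, e0_63_106__215_42_105, e0_63_106__215_42_106, e0_63_106__215_42_107, e0_63_106__215_42_108, e0_63_106__215_42_109, e0_63_106__215_42_110, e0_63_106__215_42_111, e0_63_106__215_42_112, e0_63_106__215_42_113, e0_63_106__215_42_114, e0_63_106__215_42_115, e0_63_106__215_42_116, e0_63_106__215_42_117, e0_63_106__215_42_118, e0_63_106__215_42_119, e0_63_106__215_42_120, e0_63_106__215_42_121, e0_63_106__215_42_122, e0_63_106__215_42_123, e0_63_106__215_42_124, e0_63_106__215_42_125, e0_63_106__215_42_126, e0_63_106__215_42_127, e0_63_106__215_42_128, e0_63_106__215_42_129, e0_63_106__215_42_130, e0_63_106__215_42_131, e0_63_106__215_42_132, e0_63_106__215_42_133, e0_63_106__215_42_134,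 e0_63_106__215_42_135, e0_63_106__215_42_136, e0_63_106__215_42_137, e0_63_106__215_42_138, e0_63_106__215_42_139, e0_63_106__215_42_140, e0_63_106__215_42_141, e0_63_106__215_42_142, e0_63_106__215_42_143, e0_63_106__215_42_144, e0_63_106__215_42_145, e0_63_106__215_42_146, e0_63_106__215_42_147, e0_63_106__215_42_148, e0_63_106__215_42_149, e0_63_106__215_42_150, e0_63_106__215_42_151, e0_63_106__215_42_152, e0_63_106__215_42_153, e0_63_106__215_42_154], by decide +kernel, by decide +kernel⟩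
def e0_63_106__218_42_0 : Ent 4 := ⟨[a0, a63, a106], [a218, a42, a1], (M a48 (F (T t2348 (L l28 (L l246 (L l282 (T t579 (L l303 (T t551 N)))))))))⟩
def e0_63_106__218_42_1 : Ent 4 := ⟨[a0, a63, a106], [a218, a42, a2], (M a48 (L l66 (F (T t2348 (L l28 (L l246 (L l282 (T t579 (L l303 (T t551 (K a22 (M a62 (F (T t2348 (L l22 (L l306 (T t5926 N)))))) (K a62 (M a22 (F (T t2348 (L l28 (L l246 (L l282 (T t579 (L l303 (T t551 N))))))))) N))))))))))))⟩
def e0_63_106__218_42_2 : Ent 4 := ⟨[a0, a63, a106], [a218, a42, a3], (M a48 (F (T t2348 (L l28 (L l246 (L l282 (T t579 (L l303 (L l453 (T t551 N))))))))))⟩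
def e0_63_106__218_42_3 : Ent 4 := ⟨[a0, a63, a106], [a218, a42, a5], (M a48 (F (L l303 (T t578 (L l28 (L l47 (L l246 (L l282 (T t579 (L l303 (T t551 N)))))))))))⟩
def e0_63_106__218_42_4 : Ent 4 := ⟨[a0, a63, a106], [a218, a42, a6], (M a48 (F (T t2348 (L l28 (L l246 (L l282 (T t579 (L l303 (T t551 N)))))))))⟩
def e0_63_106__218_42_5 : Ent 4 := ⟨[a0, a63, a106], [a218, a42, a7], (M a48 (F (T t2348 (L l28 (L l246 (L l282 (T t579 (L l303 (T t551 N)))))))))⟩
def e0_63_106__218_42_6 : Ent 4 := ⟨[a0, a63, a106], [a218, a42, a10], (M a48 (L l54 (F (T t2348 (L l28 (L l246 (L l282 (L l318 (T t579 (L l303 (T t551 (K a26 (Fr a58 a53 l38 (V t6446)) (K a58 (M a26 (F (L l28 (T t4144 (L l303 (T t551 (L l28 (L l303 (L l426 (T t6447 (K a32 (Fr a192 a149 l519 (Fr a15 a37 l75 (Fr a47 a31 l61 (V t8251)))) N))))))))))) N)))))))))))))⟩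
def e0_63_106__218_42_7 : Ent 4 := ⟨[a0, a63, a106], [a218, a42, a11], (M a48 (F (T t2348 (L l28 (L l246 (L l282 (T t579 (L l303 (T t551 N)))))))))⟩
def e0_63_106__218_42_8 : Ent 4 := ⟨[a0, a63, a106], [a218, a42, a15], (M a48 (F (T t2348 (L l28 (L l246 (L l282 (T t579 (L l303 (L l483 (T t551 N))))))))))⟩
def e0_63_106__218_42_9 : Ent 4 := ⟨[a0, a63, a106], [a218, a42, a16], (M a240 (F (T t4786 (L l340 (T t4780 (T t4781 N))))))⟩
def e0_63_106__218_42_10 : Ent 4 := ⟨[a0, a63, a106], [a218, a42, a17], (M a48 (F (T t2348 (L l28 (L l246 (L l282 (T t579 (L l303 (T t551 N)))))))))⟩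
def e0_63_106__218_42_11 : Ent 4 := ⟨[a0, a63, a106], [a218, a42, a18], (M a48 (F (T t2348 (L l28 (L l246 (L l282 (T t579 (L l303 (T t551 N)))))))))⟩
def e0_63_106__218_42_12 : Ent 4 := ⟨[a0, a63, a106], [a218, a42, a19], (M a48 (F (T t2348 (L l28 (L l246 (L l282 (L l367 (T t579 (L l303 (T t551 N))))))))))⟩
def e0_63_106__218_42_13 : Ent 4 := ⟨[a0, a63, a106], [a218, a42, a21], (M a48 (F (L l54 (T t777 (L l28 (L l347 (T t2289 (L l28 (L l47 (L l246 (L l282 (T t579 N))))))))))))⟩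
def e0_63_106__218_42_14 : Ent 4 := ⟨[a0, a63, a106], [a218, a42, a22], (M a48 (L l66 (F (T t2348 (L l28 (L l246 (L l282 (T t579 (L l303 (T t551 (K a2 (M a62 (F (T t2348 (L l22 (L l306 (T t5926 N)))))) (K a62 (M a2 (F (T t2348 (L l19 (L l28 (T t342 N)))))) N))))))))))))⟩
def e0_63_106__218_42_15 : Ent 4 := ⟨[a0, a63, a106], [a218, a42, a23], (M a48 (F (L l282 (T t309 (L l28 (L l351 (T t2289 (L l28 (L l246 (L l282 (T t579 N)))))))))))⟩
def e0_63_106__218_42_16 : Ent 4 := ⟨[a0, a63, a106], [a218, a42, a26], (M a12 (L l54 (L l354 (F (T t2304 (T t2305 (L l56 (T t2415 (K a10 (M a58 (L l354 (F (T t2416 (L l28 (L l246 (L l282 (L l318 (T t3403 (K a90 (Fr a154 a202 l498 (V t4118)) (K a154 (M a90 (F (T t2414 (L l28 (T t2417 N))))) N))))))))))) (K a90 (M a154 (L l54 (F (T t2414 (L l28 (L l246 (L l282 (T t7010 (K a10 (Fr a58 a202 l498 (V t4118)) (K a58 (M a10 (F (T t2414 (L l57 (L l66 (L l465 (T t2421 N))))))) N)))))))))) (K a154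 (M a90 (L l54 (F (T t2414 (T t6815 (K a10 (M a58 (F (T t2414 (L l28 (T t2417 N))))) (K a58 (M a10 (F (T t2414 (L l227 (L l282 (L l426 (T t8247 N))))))) N))))))) (K a58 (M a10 (L l354 (F (T t2304 (L l57 (L l66 (T t6765 (K a90 (M a154 (F (T t2414 (L l57 (L l66 (L l465 (T t2421 N))))))) (K a154 (M a90 (F (T t2414 (L l227 (L l282 (L l426 (T t8247 N))))))) N))))))))) N))))))))))))⟩
def e0_63_106__218_42_17 : Ent 4 := ⟨[a0, a63, a106], [a218, a42, a27], (M a48 (F (T t2348 (L l28 (L l246 (L l282 (T t579 (L l303 (T t551 N)))))))))⟩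
def e0_63_106__218_42_18 : Ent 4 := ⟨[a0, a63, a106], [a218, a42, a31], (M a48 (F (L l282 (T t309 (L l28 (L l375 (T t2289 (L l28 (L l246 (L l282 (L l361 (T t579 N))))))))))))⟩
def e0_63_106__218_42_19 : Ent 4 := ⟨[a0, a63, a106], [a218, a42, a32], (M a240 (L l28 (F (T t6609 (L l376 (T t6588 (L l376 (T t4781 (K a37 (M a47 (F (T t6602 (T t6698 (L l354 (T t6604 N)))))) (K a47 (M a37 (F (L l376 (T t6588 (L l54 (T t6699 (L l376 (T t4781 N)))))))) N))))))))))⟩
def e0_63_106__218_42_20 : Ent 4 := ⟨[a0, a63, a106], [a218, a42, a33], (M a48 (F (T t2348 (L l20 (L l28 (L l246 (L l282 (T t579 (L l303 (T t551 N))))))))))⟩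
def e0_63_106__218_42_21 : Ent 4 := ⟨[a0, a63, a106], [a218, a42, a34], (M a48 (L l26 (F (T t2348 (L l20 (L l28 (L l246 (L l282 (T t579 (L l303 (T t551 (K a38 (M a46 (F (T t2348 (L l56 (L l378 (T t4030 N)))))) (K a46 (M a38 (F (T t2348 (L l20 (L l28 (L l246 (L l282 (T t579 (L l303 (T t551 N)))))))))) N)))))))))))))⟩
def e0_63_106__218_42_22 : Ent 4 := ⟨[a0, a63, a106], [a218, a42, a35], (M a48 (F (T t2348 (L l20 (L l28 (L l246 (L l282 (T t579 (L l303 (T t551 N))))))))))⟩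
def e0_63_106__218_42_23 : Ent 4 := ⟨[a0, a63, a106], [a218, a42, a37], (M a240 (L l28 (F (T t4786 (T t6606 (T t4781 (K a32 (M a47 (F (T t6602 (T t6698 (L l354 (T t6604 N)))))) (K a47 (M a32 (F (T t6607 (T t4781 (L l54 (T t6608 N)))))) N))))))))⟩
def e0_63_106__218_42_24 : Ent 4 := ⟨[a0, a63, a106], [a218, a42, a38], (M a48 (L l26 (F (T t2348 (L l28 (L l246 (L l282 (T t579 (L l303 (T t551 (K a34 (M a46 (F (T t2348 (L l56 (L l378 (T t4030 N)))))) (K a46 (M a34 (F (T t2348 (L l29 (L l66 (T t6453 N)))))) N))))))))))))⟩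
def e0_63_106__218_42_25 : Ent 4 := ⟨[a0, a63, a106], [a218, a42, a39], (M a48 (F (T t2348 (L l28 (L l246 (L l282 (T t579 (L l303 (T t551 N)))))))))⟩
def e0_63_106__218_42_26 : Ent 4 := ⟨[a0, a63, a106], [a218, a42, a43], (M a48 (L l22 (F (T t2348 (L l28 (L l246 (L l282 (T t579 (L l303 (T t551 (K a40 (M a41 (F (T t2348 (L l24 (L l28 (L l246 (L l282 (T t579 (L l303 (T t551 N)))))))))) (K a41 (M a40 (F (T t2348 (L l29 (L l69 (T t6452 N)))))) N))))))))))))⟩
def e0_63_106__218_42_27 : Ent 4 := ⟨[a0, a63, a106], [a218, a42, a47], (M a12 (L l28 (F (T t2304 (T t2305 (L l56 (T t2415 (K a32 (M a37 (F (T t2416 (L l56 (T t2415 (T t2305 N)))))) (K a37 (M a32 (F (T t2304 (L l51 (L l56 (T t682 N)))))) N)))))))))⟩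
def e0_63_106__218_42_28 : Ent 4 := ⟨[a0, a63, a106], [a218, a42, a48], (M a12 (F (T t2419 (L l508 (T t2305 (L l56 (T t2415 N)))))))⟩
def e0_63_106__218_42_29 : Ent 4 := ⟨[a0, a63, a106], [a218, a42, a49], (M a48 (F (L l54 (T t777 (L l28 (T t2289 (L l28 (L l35 (L l246 (L l282 (T t579 N)))))))))))⟩
def e0_63_106__218_42_30 : Ent 4 := ⟨[a0, a63, a106], [a218, a42, a50], (M a48 (F (T t2348 (L l28 (L l246 (L l282 (T t579 (L l303 (T t551 N)))))))))⟩
def e0_63_106__218_42_31 : Ent 4 := ⟨[a0, a63, a106], [a218, a42, a51], (M a48 (F (T t2348 (L l28 (L l246 (L l282 (T t579 (L l303 (L l417 (T t551 N))))))))))⟩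
def e0_63_106__218_42_32 : Ent 4 := ⟨[a0, a63, a106], [a218, a42, a53], (M a240 (F (T t4786 (L l491 (T t817 (L l419 (T t4781 N)))))))⟩
def e0_63_106__218_42_33 : Ent 4 := ⟨[a0, a63, a106], [a218, a42, a54], (M a48 (F (L l303 (T t578 (L l28 (L l31 (L l246 (L l282 (T t579 (L l303 (T t551 N)))))))))))⟩
def e0_63_106__218_42_34 : Ent 4 := ⟨[a0, a63, a106], [a218, a42, a55], (M a48 (F (L l54 (T t777 (L l28 (L l495 (T t2289 (L l28 (L l31 (L l246 (L l282 (T t579 N))))))))))))⟩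
def e0_63_106__218_42_35 : Ent 4 := ⟨[a0, a63, a106], [a218, a42, a58], (M a12 (L l54 (F (T t2304 (T t2305 (L l56 (T t2415 (K a10 (M a26 (F (T t2416 (L l2 (L l56 (T t2415 (T t2305 N))))))) (K a26 (M a10 (L l354 (F (T t2304 (L l57 (L l66 (T t6765 (K a90 (M a154 (F (T t2414 (L l57 (L l66 (L l465 (T t2421 N))))))) (K a154 (M a90 (F (T t2414 (L l227 (L l282 (L l426 (T t8247 N))))))) N))))))))) N)))))))))⟩
def e0_63_106__218_42_36 : Ent 4 := ⟨[a0, a63, a106], [a218, a42, a59], (M a48 (L l56 (F (T t2348 (L l28 (L l246 (L l282 (T t579 (L l303 (T t551 (K a8 (M a25 (F (T t2348 (L l28 (L l246 (L l282 (T t579 (L l303 (T t551 N))))))))) (K a25 (M a8 (F (T t2348 (L l19 (L l28 (T t4700 N)))))) N))))))))))))⟩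
def e0_63_106__218_42_37 : Ent 4 := ⟨[a0, a63, a106], [a218, a42, a64], (M a48 (F (T t2348 (L l28 (L l246 (L l282 (T t6594 (L l28 (L l246 (L l303 (T t6455 (L l28 (L l84 (L l246 (L l282 (T t6457 (L l54 (T t6458 (K a207 (Fr a192 a149 l519 (Fr a96 a144 l484 (Fr a101 a111 l104 (Fr a32 a16 l40 (V t6459))))) N)))))))))))))))))))⟩
def e0_63_106__218_42_38 : Ent 4 := ⟨[a0, a63, a106], [a218, a42, a65], (M a48 (F (T t2348 (L l28 (L l76 (L l246 (L l282 (T t579 (L l76 (L l303 (T t551 N)))))))))))⟩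
def e0_63_106__218_42_39 : Ent 4 := ⟨[a0, a63, a106], [a218, a42, a66], (M a48 (F (T t2348 (L l28 (L l76 (L l246 (L l282 (T t579 (L l76 (L l303 (T t551 N)))))))))))⟩
def e0_63_106__218_42_40 : Ent 4 := ⟨[a0, a63, a106], [a218, a42, a67], (M a48 (F (T t2348 (L l28 (L l76 (L l246 (L l282 (T t579 (L l76 (L l303 (T t551 N)))))))))))⟩
def e0_63_106__218_42_41 : Ent 4 := ⟨[a0, a63, a106], [a218, a42, a69], (M a48 (F (T t2348 (L l28 (L l84 (L l246 (L l282 (T t579 (L l84 (L l303 (T t551 N)))))))))))⟩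
def e0_63_106__218_42_42 : Ent 4 := ⟨[a0, a63, a106], [a218, a42, a70], (M a48 (F (T t2348 (L l28 (L l246 (L l282 (T t579 (L l303 (T t551 N)))))))))⟩
def e0_63_106__218_42_43 : Ent 4 := ⟨[a0, a63, a106], [a218, a42, a71], (M a48 (F (T t2348 (L l28 (L l246 (L l282 (T t579 (L l303 (T t551 N)))))))))⟩
def e0_63_106__218_42_44 : Ent 4 := ⟨[a0, a63, a106], [a218, a42, a74], (M a48 (F (T t2348 (L l28 (L l84 (L l246 (L l282 (L l318 (T t579 (L l84 (L l303 (T t551 N))))))))))))⟩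
def e0_63_106__218_42_45 : Ent 4 := ⟨[a0, a63, a106], [a218, a42, a75], (M a48 (F (T t2348 (L l28 (L l246 (L l282 (T t579 (L l303 (T t551 N)))))))))⟩
def e0_63_106__218_42_46 : Ent 4 := ⟨[a0, a63, a106], [a218, a42, a79], (M a48 (F (L l282 (T t309 (L l28 (L l84 (T t2289 (L l28 (L l84 (L l246 (L l282 (T t579 N))))))))))))⟩
def e0_63_106__218_42_47 : Ent 4 := ⟨[a0, a63, a106], [a218, a42, a80], (M a12 (F (T t2304 (L l116 (T t2305 (L l56 (L l116 (T t2415 N))))))))⟩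
def e0_63_106__218_42_48 : Ent 4 := ⟨[a0, a63, a106], [a218, a42, a81], (M a48 (F (T t2348 (L l28 (L l120 (L l246 (L l282 (T t579 (L l120 (L l303 (T t551 N)))))))))))⟩
def e0_63_106__218_42_49 : Ent 4 := ⟨[a0, a63, a106], [a218, a42, a82], (M a48 (F (T t2348 (L l28 (L l246 (L l282 (T t579 (L l303 (L l453 (T t551 N))))))))))⟩
def e0_63_106__218_42_50 : Ent 4 := ⟨[a0, a63, a106], [a218, a42, a83], (M a48 (F (T t2348 (L l28 (L l246 (L l282 (T t579 (L l303 (T t551 N)))))))))⟩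
def e0_63_106__218_42_51 : Ent 4 := ⟨[a0, a63, a106], [a218, a42, a85], (M a48 (F (L l282 (T t309 (L l28 (L l347 (T t2289 (L l54 (T t777 (L l282 (L l303 (L l368 (T t6465 (K a192 (M a56 (F (T t6620 (L l350 (L l368 (T t1445 (L l236 (L l282 (L l285 (T t6621 N)))))))))) N))))))))))))))⟩
def e0_63_106__218_42_52 : Ent 4 := ⟨[a0, a63, a106], [a218, a42, a86], (M a48 (F (L l282 (T t309 (L l28 (L l351 (T t2289 (L l28 (L l246 (L l282 (T t579 N)))))))))))⟩
def e0_63_106__218_42_53 : Ent 4 := ⟨[a0, a63, a106], [a218, a42, a87], (M a48 (F (T t2348 (L l28 (L l246 (L l282 (L l367 (T t579 (L l303 (T t551 N))))))))))⟩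
def e0_63_106__218_42_54 : Ent 4 := ⟨[a0, a63, a106], [a218, a42, a90], (M a48 (L l354 (F (L l54 (T t777 (L l28 (L l246 (L l282 (T t579 (L l303 (L l375 (L l483 (T t551 (K a26 (M a154 (L l54 (F (T t6900 (L l151 (T t6955 (K a10 (Fr a58 a53 l38 (V t4138)) (K a58 (M a10 (F (T t4137 (L l18 (L l94 (L l303 (T t4139 (L l28 (L l375 (T t2289 N)))))))))) N)))))))) (K a154 (M a26 (F (L l28 (T t4144 (L l368 (T t6458 (L l28 (L l170 (L l375 (L l462 (T t7145 (K a32 (Fr a15 a37 l75 (Fr a47 a31 l61 (V t7154))) N)))))))))))) N)))))))))))))))⟩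
def e0_63_106__218_42_55 : Ent 4 := ⟨[a0, a63, a106], [a218, a42, a91], (M a48 (F (T t2348 (L l28 (L l246 (L l282 (T t579 (L l303 (T t551 N)))))))))⟩
def e0_63_106__218_42_56 : Ent 4 := ⟨[a0, a63, a106], [a218, a42, a95], (M a48 (F (L l282 (T t309 (L l28 (T t2289 (L l28 (L l246 (L l282 (L l361 (T t579 N)))))))))))⟩
def e0_63_106__218_42_57 : Ent 4 := ⟨[a0, a63, a106], [a218, a42, a96], (M a12 (F (T t2414 (L l56 (L l116 (T t2415 (L l116 (T t2305 N))))))))⟩
def e0_63_106__218_42_58 : Ent 4 := ⟨[a0, a63, a106], [a218, a42, a97], (M a48 (F (T t2348 (L l28 (L l246 (L l282 (L l380 (T t579 (L l96 (L l303 (T t551 N)))))))))))⟩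
def e0_63_106__218_42_59 : Ent 4 := ⟨[a0, a63, a106], [a218, a42, a98], (M a48 (F (T t2348 (L l28 (L l120 (L l246 (L l282 (T t579 (L l96 (L l120 (L l303 (T t551 N))))))))))))⟩
def e0_63_106__218_42_60 : Ent 4 := ⟨[a0, a63, a106], [a218, a42, a99], (M a48 (F (L l282 (T t309 (L l28 (L l96 (T t2289 (L l28 (L l246 (L l282 (T t579 N)))))))))))⟩
def e0_63_106__218_42_61 : Ent 4 := ⟨[a0, a63, a106], [a218, a42, a101], (M a240 (F (T t4786 (L l491 (L l512 (T t817 (T t4781 N)))))))⟩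
def e0_63_106__218_42_62 : Ent 4 := ⟨[a0, a63, a106], [a218, a42, a102], (M a48 (F (L l282 (T t309 (L l28 (L l495 (T t2289 (L l28 (L l246 (L l282 (T t579 N)))))))))))⟩
def e0_63_106__218_42_63 : Ent 4 := ⟨[a0, a63, a106], [a218, a42, a103], (M a48 (F (L l282 (T t309 (L l28 (T t2289 (L l28 (L l246 (L l282 (T t579 N))))))))))⟩
def e0_63_106__218_42_64 : Ent 4 := ⟨[a0, a63, a106], [a218, a42, a107], (M a48 (F (L l282 (T t309 (L l28 (T t2289 (L l28 (L l246 (L l282 (T t579 N))))))))))⟩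
def e0_63_106__218_42_65 : Ent 4 := ⟨[a0, a63, a106], [a218, a42, a111], (M a240 (F (T t4786 (T t817 (L l137 (T t4781 N))))))⟩
def e0_63_106__218_42_66 : Ent 4 := ⟨[a0, a63, a106], [a218, a42, a112], (M a48 (F (L l282 (T t309 (L l28 (L l116 (L l246 (L l303 (T t6462 (L l28 (L l116 (L l246 (L l282 (T t579 N))))))))))))))⟩
def e0_63_106__218_42_67 : Ent 4 := ⟨[a0, a63, a106], [a218, a42, a113], (M a48 (F (T t2348 (L l28 (L l246 (L l282 (T t579 (L l303 (T t551 N)))))))))⟩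
def e0_63_106__218_42_68 : Ent 4 := ⟨[a0, a63, a106], [a218, a42, a114], (M a48 (F (T t2348 (L l28 (L l246 (L l282 (T t579 (L l303 (L l417 (T t551 N))))))))))⟩
def e0_63_106__218_42_69 : Ent 4 := ⟨[a0, a63, a106], [a218, a42, a115], (M a48 (F (T t2348 (L l28 (L l120 (L l246 (L l282 (T t579 (L l120 (L l303 (T t551 N)))))))))))⟩
def e0_63_106__218_42_70 : Ent 4 := ⟨[a0, a63, a106], [a218, a42, a117], (M a48 (F (L l54 (T t777 (L l28 (T t2289 (L l28 (L l246 (L l282 (L l419 (T t579 N)))))))))))⟩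
def e0_63_106__218_42_71 : Ent 4 := ⟨[a0, a63, a106], [a218, a42, a118], (M a48 (F (T t2348 (L l28 (L l246 (L l282 (T t579 (L l303 (T t551 N)))))))))⟩
def e0_63_106__218_42_72 : Ent 4 := ⟨[a0, a63, a106], [a218, a42, a119], (M a48 (F (T t2348 (L l28 (L l246 (L l282 (T t579 (L l303 (T t551 N)))))))))⟩
def e0_63_106__218_42_73 : Ent 4 := ⟨[a0, a63, a106], [a218, a42, a122], (M a48 (F (T t2348 (L l28 (L l246 (L l282 (T t579 (L l303 (T t551 N)))))))))⟩
def e0_63_106__218_42_74 : Ent 4 := ⟨[a0, a63, a106], [a218, a42, a123], (M a48 (F (T t2348 (L l28 (L l246 (L l282 (T t579 (L l303 (T t551 N)))))))))⟩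
def e0_63_106__218_42_75 : Ent 4 := ⟨[a0, a63, a106], [a218, a42, a127], (M a48 (F (L l282 (T t309 (L l28 (T t2289 (L l28 (L l246 (L l282 (T t6744 (L l28 (L l246 (L l282 (L l303 (T t6479 N)))))))))))))))⟩
def e0_63_106__218_42_76 : Ent 4 := ⟨[a0, a63, a106], [a218, a42, a128], (M a48 (F (L l282 (T t585 (L l28 (L l246 (L l282 (T t579 (L l192 (L l220 (L l303 (T t6480 (L l54 (L l160 (T t6481 N)))))))))))))))⟩
def e0_63_106__218_42_77 : Ent 4 := ⟨[a0, a63, a106], [a218, a42, a129], (M a48 (F (L l282 (T t585 (L l28 (L l217 (T t2289 (L l28 (L l246 (L l282 (T t579 N)))))))))))⟩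
def e0_63_106__218_42_78 : Ent 4 := ⟨[a0, a63, a106], [a218, a42, a130], (M a48 (F (T t2348 (L l28 (L l246 (L l282 (T t579 (L l303 (T t551 N)))))))))⟩
def e0_63_106__218_42_79 : Ent 4 := ⟨[a0, a63, a106], [a218, a42, a131], (M a48 (F (T t2348 (L l28 (L l246 (L l282 (T t579 (L l197 (L l303 (T t551 N))))))))))⟩
def e0_63_106__218_42_80 : Ent 4 := ⟨[a0, a63, a106], [a218, a42, a133], (M a48 (F (L l282 (T t585 (L l28 (L l199 (T t2289 (L l28 (L l246 (L l282 (T t579 N)))))))))))⟩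
def e0_63_106__218_42_81 : Ent 4 := ⟨[a0, a63, a106], [a218, a42, a134], (M a48 (F (T t2348 (L l28 (L l246 (L l282 (T t579 (L l303 (T t551 N)))))))))⟩
def e0_63_106__218_42_82 : Ent 4 := ⟨[a0, a63, a106], [a218, a42, a135], (M a48 (F (T t2348 (L l28 (L l246 (L l282 (T t579 (L l303 (T t551 N)))))))))⟩
def e0_63_106__218_42_83 : Ent 4 := ⟨[a0, a63, a106], [a218, a42, a138], (M a48 (F (T t2348 (L l28 (L l246 (L l282 (L l318 (T t579 (L l303 (T t551 N))))))))))⟩
def e0_63_106__218_42_84 : Ent 4 := ⟨[a0, a63, a106], [a218, a42, a139], (M a48 (F (T t2348 (L l28 (L l246 (L l282 (T t579 (L l303 (T t551 N)))))))))⟩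
def e0_63_106__218_42_85 : Ent 4 := ⟨[a0, a63, a106], [a218, a42, a143], (M a48 (F (T t2348 (L l28 (L l246 (L l282 (T t579 (L l28 (L l246 (L l303 (T t6462 N)))))))))))⟩
def e0_63_106__218_42_86 : Ent 4 := ⟨[a0, a63, a106], [a218, a42, a144], (M a12 (F (T t2414 (L l56 (T t2415 (L l170 (T t2305 N)))))))⟩
def e0_63_106__218_42_87 : Ent 4 := ⟨[a0, a63, a106], [a218, a42, a145], (M a48 (F (L l282 (T t585 (L l28 (L l167 (T t2289 (L l28 (L l246 (L l282 (T t579 N)))))))))))⟩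
def e0_63_106__218_42_88 : Ent 4 := ⟨[a0, a63, a106], [a218, a42, a146], (M a48 (F (L l282 (T t585 (L l28 (L l197 (T t2289 (L l28 (L l246 (L l282 (T t579 N)))))))))))⟩
def e0_63_106__218_42_89 : Ent 4 := ⟨[a0, a63, a106], [a218, a42, a147], (M a48 (F (L l54 (T t777 (L l28 (T t2289 (L l28 (L l246 (L l282 (T t579 N))))))))))⟩
def e0_63_106__218_42_90 : Ent 4 := ⟨[a0, a63, a106], [a218, a42, a149], (M a204 (F (L l167 (T t6655 (L l167 (L l347 (T t6636 (L l56 (L l167 (L l495 (T t6635 (L l56 (L l167 (L l220 (L l495 (T t6637 (K a145 (M a153 (F (T t6638 (L l56 (L l196 (L l220 (L l341 (L l495 (T t6639 (L l196 (L l220 (T t6640 N)))))))))))) (K a153 (M a102 (L l167 (F (T t6641 (L l208 (T t6642 (K a145 (Fr a157 a110 l507 (V t6642)) (K a157 (M a145 (F (L l208 (T t6642 (L l226 (T t6817 (L l365 (T t6643 N)))))))) N)))))))) (K a157 (M a153 (F (T t6645 (T t6646 (L l56 (L l220 (L l495 (T t6639 (L l220 (T t6640 N)))))))))) (K a98 (M a48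 (F (T t2046 (L l28 (L l120 (L l246 (L l282 (L l491 (T t579 (L l282 (L l491 (L l495 (T t6651 N))))))))))))) (K a102 (M a12 (L l495 (F (T t752 (L l167 (L l371 (L l402 (T t765 (L l56 (L l371 (T t2415 (K a196 (M a55 (F (L l56 (L l347 (T t6649 (L l150 (L l220 (T t3459 N)))))))) (K a55 (M a196 (F (T t6650 (L l150 (L l220 (T t3459 N)))))) N))))))))))))) (K a110 (M a48 (F (T t2046 (L l28 (L l246 (L l282 (L l491 (T t579 (L l282 (L l491 (L l495 (T t6651 N)))))))))))) N))))))))))))))))))))))⟩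
def e0_63_106__218_42_91 : Ent 4 := ⟨[a0, a63, a106], [a218, a42, a150], (M a48 (F (L l282 (T t309 (L l28 (L l163 (T t2289 (L l28 (L l246 (L l282 (T t579 N)))))))))))⟩
def e0_63_106__218_42_92 : Ent 4 := ⟨[a0, a63, a106], [a218, a42, a151], (M a48 (F (L l282 (T t309 (L l28 (L l163 (T t2289 (L l28 (L l246 (L l282 (T t579 N)))))))))))⟩
def e0_63_106__218_42_93 : Ent 4 := ⟨[a0, a63, a106], [a218, a42, a154], (M a12 (L l354 (F (T t2304 (L l170 (T t2305 (L l56 (T t2415 (K a26 (M a90 (L l54 (F (T t2414 (T t6815 (K a10 (M a58 (F (T t2414 (L l28 (T t2417 N))))) (K a58 (M a10 (F (T t2414 (L l227 (L l282 (L l426 (T t8247 N))))))) N))))))) (K a90 (M a26 (F (T t2414 (L l56 (T t2415 (L l170 (L l375 (T t2305 N)))))))) N))))))))))⟩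
def e0_63_106__218_42_94 : Ent 4 := ⟨[a0, a63, a106], [a218, a42, a155], (M a48 (F (T t2348 (L l28 (L l246 (L l282 (L l367 (T t579 (L l303 (T t551 N))))))))))⟩
def e0_63_106__218_42_95 : Ent 4 := ⟨[a0, a63, a106], [a218, a42, a159], (M a240 (F (T t4786 (L l170 (T t817 (L l361 (T t4781 N)))))))⟩
def e0_63_106__218_42_96 : Ent 4 := ⟨[a0, a63, a106], [a218, a42, a160], (M a12 (F (T t2304 (T t2305 (L l56 (T t2415 N))))))⟩
def e0_63_106__218_42_97 : Ent 4 := ⟨[a0, a63, a106], [a218, a42, a161], (M a48 (F (T t2348 (L l28 (L l246 (L l282 (T t579 (L l197 (L l303 (L l453 (T t551 N)))))))))))⟩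
def e0_63_106__218_42_98 : Ent 4 := ⟨[a0, a63, a106], [a218, a42, a162], (M a48 (F (T t2348 (L l28 (L l246 (L l282 (L l380 (T t579 (L l303 (T t551 N))))))))))⟩
def e0_63_106__218_42_99 : Ent 4 := ⟨[a0, a63, a106], [a218, a42, a163], (M a48 (F (T t2348 (L l28 (L l246 (L l282 (T t579 (L l303 (T t551 N)))))))))⟩
def e0_63_106__218_42_100 : Ent 4 := ⟨[a0, a63, a106], [a218, a42, a165], (M a48 (F (L l282 (T t309 (L l28 (L l199 (L l246 (T t7492 (L l28 (L l246 (L l282 (T t579 N))))))))))))⟩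
def e0_63_106__218_42_101 : Ent 4 := ⟨[a0, a63, a106], [a218, a42, a166], (M a48 (F (L l282 (T t309 (L l28 (L l202 (T t2289 (L l28 (L l246 (L l282 (T t579 N)))))))))))⟩
def e0_63_106__218_42_102 : Ent 4 := ⟨[a0, a63, a106], [a218, a42, a167], (M a48 (F (T t2348 (L l28 (L l246 (L l282 (T t579 (L l303 (T t551 N)))))))))⟩
def e0_63_106__218_42_103 : Ent 4 := ⟨[a0, a63, a106], [a218, a42, a170], (M a48 (F (L l282 (T t309 (L l220 (L l303 (T t551 (L l28 (L l246 (L l282 (L l404 (T t779 (L l28 (L l206 (L l220 (L l246 (L l282 (L l404 (T t552 (L l28 (L l206 (L l246 (L l282 (L l303 (L l404 (T t553 N))))))))))))))))))))))))))⟩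
def e0_63_106__218_42_104 : Ent 4 := ⟨[a0, a63, a106], [a218, a42, a171], (M a48 (F (T t2348 (L l28 (L l246 (L l282 (T t579 (L l303 (T t551 N)))))))))⟩
def e0_63_106__218_42_105 : Ent 4 := ⟨[a0, a63, a106], [a218, a42, a175], (M a48 (F (L l282 (T t309 (L l28 (T t2289 (L l28 (L l246 (L l282 (T t579 N))))))))))⟩
def e0_63_106__218_42_106 : Ent 4 := ⟨[a0, a63, a106], [a218, a42, a176], (M a240 (F (T t4786 (L l192 (T t817 (L l190 (L l192 (T t4781 N))))))))⟩
def e0_63_106__218_42_107 : Ent 4 := ⟨[a0, a63, a106], [a218, a42, a177], (M a48 (F (T t2348 (L l28 (L l246 (L l282 (T t579 (L l182 (L l303 (L l417 (T t551 N)))))))))))⟩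
def e0_63_106__218_42_108 : Ent 4 := ⟨[a0, a63, a106], [a218, a42, a178], (M a48 (F (T t2348 (L l28 (L l246 (L l282 (T t579 (L l182 (L l303 (T t551 N))))))))))⟩
def e0_63_106__218_42_109 : Ent 4 := ⟨[a0, a63, a106], [a218, a42, a179], (M a48 (F (T t2348 (L l28 (L l246 (L l282 (T t579 (L l182 (L l303 (T t551 N))))))))))⟩
def e0_63_106__218_42_110 : Ent 4 := ⟨[a0, a63, a106], [a218, a42, a181], (M a48 (F (L l54 (T t777 (L l28 (L l190 (L l199 (T t2289 (L l28 (L l246 (L l282 (L l419 (T t579 N)))))))))))))⟩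
def e0_63_106__218_42_111 : Ent 4 := ⟨[a0, a63, a106], [a218, a42, a182], (M a48 (F (T t2348 (L l28 (L l246 (L l282 (T t579 (L l303 (T t551 N)))))))))⟩
def e0_63_106__218_42_112 : Ent 4 := ⟨[a0, a63, a106], [a218, a42, a183], (M a48 (F (L l282 (T t309 (L l28 (L l202 (T t2289 (L l28 (L l246 (L l282 (T t579 N)))))))))))⟩
def e0_63_106__218_42_113 : Ent 4 := ⟨[a0, a63, a106], [a218, a42, a186], (M a48 (F (T t2348 (L l28 (L l246 (L l282 (T t579 (L l190 (L l303 (T t551 N))))))))))⟩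
def e0_63_106__218_42_114 : Ent 4 := ⟨[a0, a63, a106], [a218, a42, a187], (M a48 (F (T t2348 (L l28 (L l246 (L l282 (T t579 (L l303 (T t551 N)))))))))⟩
def e0_63_106__218_42_115 : Ent 4 := ⟨[a0, a63, a106], [a218, a42, a191], (M a48 (F (L l282 (T t309 (L l28 (L l190 (L l220 (T t2289 (L l28 (L l246 (L l282 (T t6498 (L l28 (L l246 (L l282 (L l303 (T t6499 N)))))))))))))))))⟩
def e0_63_106__218_42_116 : Ent 4 := ⟨[a0, a63, a106], [a218, a42, a192], (M a204 (F (L l489 (T t6655 (L l272 (L l489 (T t6656 (L l296 (L l489 (T t6657 (L l56 (L l489 (T t6658 (L l489 (T t6659 (K a145 (M a102 (L l489 (F (T t6641 (T t6660 (K a98 (Fr a51 a153 l513 (V t6661)) (K a51 (Fr a98 a110 l102 (V t6662)) N))))))) (K a85 (M a48 (F (L l292 (T t2046 (L l123 (L l236 (L l282 (L l489 (T t6732 N))))))))) (K a157 (M a48 (F (T t5482 (L l28 (L l236 (L l246 (L l282 (T t579 (L l236 (L l282 (T t6651 N))))))))))) (K a98 (M a153 (L l489 (F (T t6645 (L l296 (T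 t6668 (L l26 (L l120 (L l378 (T t6669 (K a145 (Fr a51 a102 l513 (V t6670)) (K a51 (M a145 (F (T t6671 (L l56 (L l272 (L l334 (L l378 (T t6672 N)))))))) N)))))))))))) (K a102 (M a252 (F (L l484 (T t6673 (L l148 (L l339 (T t6674 (L l309 (T t6675 N))))))))) (K a110 (M a48 (F (T t6676 (L l28 (L l236 (L l246 (L l282 (T t579 (L l236 (L l282 (T t6651 N))))))))))) (K a51 (M a48 (L l489 (F (T t5482 (L l236 (L l282 (T t6677 (K a145 (M a98 (F (T t6678 (L l292 (L l441 (T t1315 N)))))) (K a98 (M a145 (F (T t5482 (L l28 (L l120 (L l236 (L l246 (L l282 (T t579 (L l511 (T t6679 N))))))))))) N))))))))) N))))))))))))))))))))))⟩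
def e0_63_106__218_42_117 : Ent 4 := ⟨[a0, a63, a106], [a218, a42, a193], (M a48 (F (L l282 (T t585 (L l28 (L l515 (T t2289 (L l28 (L l246 (L l282 (T t579 N)))))))))))⟩
def e0_63_106__218_42_118 : Ent 4 := ⟨[a0, a63, a106], [a218, a42, a194], (M a48 (F (T t2348 (L l28 (L l234 (L l246 (L l282 (T t579 (L l303 (T t551 N))))))))))⟩
def e0_63_106__218_42_119 : Ent 4 := ⟨[a0, a63, a106], [a218, a42, a195], (M a48 (F (T t2348 (L l28 (L l246 (L l282 (T t579 (L l273 (L l303 (T t551 N))))))))))⟩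
def e0_63_106__218_42_120 : Ent 4 := ⟨[a0, a63, a106], [a218, a42, a197], (M a240 (F (L l28 (T t7338 (T t4781 (L l491 (T t817 N)))))))⟩
def e0_63_106__218_42_121 : Ent 4 := ⟨[a0, a63, a106], [a218, a42, a198], (M a48 (F (T t2348 (L l28 (L l234 (L l246 (L l282 (T t579 (L l303 (T t551 N))))))))))⟩
def e0_63_106__218_42_122 : Ent 4 := ⟨[a0, a63, a106], [a218, a42, a199], (M a48 (F (T t2348 (L l28 (L l246 (L l282 (T t579 (L l303 (T t551 N)))))))))⟩
def e0_63_106__218_42_123 : Ent 4 := ⟨[a0, a63, a106], [a218, a42, a202], (M a240 (L l282 (F (L l236 (T t4786 (T t817 (L l318 (T t4781 (K a234 (M a250 (F (T t8184 (L l28 (L l246 (T t815 (L l54 (L l318 (T t8185 N))))))))) (K a250 (M a234 (F (T t6150 (L l28 (L l318 (T t7338 (L l318 (L l462 (T t6482 N))))))))) N))))))))))⟩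
def e0_63_106__218_42_124 : Ent 4 := ⟨[a0, a63, a106], [a218, a42, a203], (M a48 (L l285 (F (T t2348 (L l28 (L l230 (L l246 (L l282 (T t579 (L l303 (T t551 (K a248 (M a233 (F (T t2348 (L l28 (L l230 (L l246 (L l282 (T t579 (L l262 (L l303 (T t551 N))))))))))) (K a233 (M a248 (F (T t2348 (L l28 (L l230 (L l246 (L l282 (T t579 (L l303 (T t551 N)))))))))) N)))))))))))))⟩
def e0_63_106__218_42_125 : Ent 4 := ⟨[a0, a63, a106], [a218, a42, a207], (M a240 (F (L l28 (T t6587 (L l512 (T t6588 (T t4781 N)))))))⟩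
def e0_63_106__218_42_126 : Ent 4 := ⟨[a0, a63, a106], [a218, a42, a208], (M a12 (L l246 (F (T t2419 (L l375 (T t2305 (L l56 (T t2415 (K a213 (M a223 (F (T t2414 (L l56 (L l278 (T t2415 (L l347 (L l375 (T t2305 N))))))))) (K a223 (M a213 (F (L l268 (T t8040 (L l375 (T t2418 (L l56 (T t2415 N)))))))) N))))))))))⟩
def e0_63_106__218_42_127 : Ent 4 := ⟨[a0, a63, a106], [a218, a42, a209], (M a48 (F (L l282 (T t585 (L l28 (L l371 (T t2289 (L l28 (L l246 (L l282 (T t579 N)))))))))))⟩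
def e0_63_106__218_42_128 : Ent 4 := ⟨[a0, a63, a106], [a218, a42, a210], (M a48 (L l244 (F (T t2348 (L l28 (L l246 (L l282 (T t579 (L l273 (L l303 (T t551 (K a214 (M a222 (F (T t2348 (L l28 (L l246 (L l282 (T t579 (L l273 (L l303 (T t551 N)))))))))) (K a222 (M a214 (F (T t2348 (L l28 (L l241 (L l246 (L l282 (T t579 (L l273 (L l303 (T t551 N))))))))))) N)))))))))))))⟩
def e0_63_106__218_42_129 : Ent 4 := ⟨[a0, a63, a106], [a218, a42, a211], (M a48 (F (T t2348 (L l28 (L l245 (L l246 (L l282 (T t579 (L l303 (T t551 N))))))))))⟩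
def e0_63_106__218_42_130 : Ent 4 := ⟨[a0, a63, a106], [a218, a42, a213], (M a240 (L l246 (F (L l28 (T t7338 (L l347 (T t6588 (T t4781 (K a208 (M a223 (F (L l296 (T t4786 (T t4781 (L l54 (L l275 (L l340 (L l347 (L l375 (T t8248 (L l347 (L l375 (T t8249 (L l296 (L l340 (T t6859 N))))))))))))))))) (K a223 (M a208 (F (T t8250 (L l361 (T t4781 N))))) N))))))))))⟩
def e0_63_106__218_42_131 : Ent 4 := ⟨[a0, a63, a106], [a218, a42, a214], (M a48 (L l244 (F (T t2348 (L l28 (L l246 (L l282 (T t579 (L l303 (T t551 (K a210 (M a222 (F (T t2348 (L l28 (L l246 (L l282 (T t579 (L l273 (L l303 (T t551 N)))))))))) (K a222 (M a210 (F (T t2348 (L l28 (L l241 (L l246 (L l282 (T t579 (L l303 (T t551 N)))))))))) N))))))))))))⟩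
def e0_63_106__218_42_132 : Ent 4 := ⟨[a0, a63, a106], [a218, a42, a215], (M a48 (F (T t2348 (L l28 (L l245 (L l246 (L l282 (T t579 (L l303 (T t551 N))))))))))⟩
def e0_63_106__218_42_133 : Ent 4 := ⟨[a0, a63, a106], [a218, a42, a219], (M a48 (L l240 (F (T t2348 (L l28 (L l245 (L l246 (L l282 (T t579 (L l303 (T t551 (K a216 (M a217 (F (T t2348 (L l28 (L l245 (L l246 (L l282 (T t579 (L l298 (L l303 (T t551 N))))))))))) (K a217 (M a216 (F (T t2348 (L l28 (L l245 (L l246 (L l282 (T t579 (L l303 (T t551 N)))))))))) N)))))))))))))⟩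
def e0_63_106__218_42_134 : Ent 4 := ⟨[a0, a63, a106], [a218, a42, a223], (M a240 (L l246 (F (T t6609 (L l368 (T t817 (L l361 (T t4781 (K a208 (M a213 (F (T t8040 (T t4786 (L l361 (T t4781 N)))))) (K a213 (M a208 (F (T t8250 (L l361 (T t4781 N))))) N))))))))))⟩
def e0_63_106__218_42_135 : Ent 4 := ⟨[a0, a63, a106], [a218, a42, a224], (M a48 (F (L l282 (T t585 (L l268 (L l303 (L l376 (T t551 (L l28 (L l246 (L l282 (L l376 (T t579 N)))))))))))))⟩
def e0_63_106__218_42_136 : Ent 4 := ⟨[a0, a63, a106], [a218, a42, a225], (M a48 (F (T t2348 (L l28 (L l246 (L l282 (T t579 (L l273 (L l303 (T t551 N))))))))))⟩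
def e0_63_106__218_42_137 : Ent 4 := ⟨[a0, a63, a106], [a218, a42, a226], (M a48 (F (T t2348 (L l28 (L l246 (L l282 (T t579 (L l303 (T t551 N)))))))))⟩
def e0_63_106__218_42_138 : Ent 4 := ⟨[a0, a63, a106], [a218, a42, a227], (M a48 (F (T t2348 (L l28 (L l246 (L l282 (L l380 (T t579 (L l303 (T t551 N))))))))))⟩
def e0_63_106__218_42_139 : Ent 4 := ⟨[a0, a63, a106], [a218, a42, a229], (M a240 (F (T t6965 (L l256 (T t817 (T t4781 N))))))⟩
def e0_63_106__218_42_140 : Ent 4 := ⟨[a0, a63, a106], [a218, a42, a230], (M a48 (L l300 (F (T t2348 (L l28 (L l246 (L l282 (T t579 (L l303 (T t551 (K a242 (M a206 (F (T t2348 (L l28 (L l246 (L l282 (T t579 (L l258 (L l303 (T t551 N)))))))))) (K a206 (M a242 (F (T t2348 (L l28 (L l234 (L l246 (L l282 (T t579 (L l303 (T t551 N)))))))))) N))))))))))))⟩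
def e0_63_106__218_42_141 : Ent 4 := ⟨[a0, a63, a106], [a218, a42, a231], (M a48 (F (T t2348 (L l28 (L l246 (L l282 (T t579 (L l303 (T t551 N)))))))))⟩
def e0_63_106__218_42_142 : Ent 4 := ⟨[a0, a63, a106], [a218, a42, a234], (M a240 (L l282 (F (T t6965 (L l256 (T t817 (T t4781 (K a202 (M a250 (F (T t8184 (L l28 (L l246 (T t815 (L l54 (L l318 (T t8185 N))))))))) (K a250 (M a202 (F (T t2360 (T t4781 N)))) N)))))))))⟩
def e0_63_106__218_42_143 : Ent 4 := ⟨[a0, a63, a106], [a218, a42, a235], (M a48 (F (T t2348 (L l28 (L l246 (L l282 (T t579 (L l303 (T t551 N)))))))))⟩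
def e0_63_106__218_42_144 : Ent 4 := ⟨[a0, a63, a106], [a218, a42, a239], (M a48 (F (L l282 (T t309 (L l303 (T t551 (L l28 (L l246 (L l282 (L l289 (L l404 (T t579 (L l28 (L l404 (T t2289 N)))))))))))))))⟩
def e0_63_106__218_42_145 : Ent 4 := ⟨[a0, a63, a106], [a218, a42, a240], (M a207 (F (T t6739 (L l282 (L l483 (T t6701 (T t6702 N)))))))⟩
def e0_63_106__218_42_146 : Ent 4 := ⟨[a0, a63, a106], [a218, a42, a241], (M a48 (F (T t2348 (L l28 (L l246 (L l282 (T t579 (L l258 (L l303 (T t551 N))))))))))⟩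
def e0_63_106__218_42_147 : Ent 4 := ⟨[a0, a63, a106], [a218, a42, a242], (M a48 (L l300 (F (T t2348 (L l28 (L l246 (L l282 (T t579 (L l258 (L l303 (T t551 (K a230 (M a206 (F (T t2348 (L l28 (L l246 (L l282 (T t579 (L l258 (L l303 (T t551 N)))))))))) (K a206 (M a230 (F (T t2348 (L l28 (L l234 (L l246 (L l282 (T t579 (L l258 (L l303 (T t551 N))))))))))) N)))))))))))))⟩
def e0_63_106__218_42_148 : Ent 4 := ⟨[a0, a63, a106], [a218, a42, a243], (M a48 (F (T t2348 (L l28 (L l246 (L l282 (T t579 (L l258 (L l303 (T t551 N))))))))))⟩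
def e0_63_106__218_42_149 : Ent 4 := ⟨[a0, a63, a106], [a218, a42, a245], (M a48 (F (L l303 (T t578 (L l28 (L l246 (L l282 (L l419 (T t579 (L l266 (L l303 (T t551 N))))))))))))⟩
def e0_63_106__218_42_150 : Ent 4 := ⟨[a0, a63, a106], [a218, a42, a246], (M a48 (F (T t2348 (L l28 (L l246 (L l282 (T t579 (L l303 (T t551 N)))))))))⟩
def e0_63_106__218_42_151 : Ent 4 := ⟨[a0, a63, a106], [a218, a42, a247], (M a48 (F (T t2348 (L l28 (L l246 (L l282 (T t579 (L l303 (T t551 N)))))))))⟩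
def e0_63_106__218_42_152 : Ent 4 := ⟨[a0, a63, a106], [a218, a42, a250], (M a240 (L l282 (F (T t6609 (T t817 (T t4781 (K a202 (M a234 (F (T t6150 (L l28 (L l318 (T t7338 (L l318 (L l462 (T t6482 N))))))))) (K a234 (M a202 (F (T t2360 (T t4781 N)))) N))))))))⟩
def e0_63_106__218_42_153 : Ent 4 := ⟨[a0, a63, a106], [a218, a42, a251], (M a48 (F (T t2348 (L l28 (L l246 (L l282 (T t579 (L l303 (T t551 N)))))))))⟩
def e0_63_106__218_42_154 : Ent 4 := ⟨[a0, a63, a106], [a218, a42, a255], (M a48 (F (T t2348 (L l28 (T t2289 (L l28 (L l282 (L l469 (T t6526 (L l28 (L l246 (L l282 (L l289 (T t6527 N))))))))))))))⟩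
def b0_63_106__218_42 : Blk 4 := ⟨[0, 63, 106], [218, 42], [1, 2, 3, 5, 6, 7, 10, 11, 15, 16, 17, 18, 19, 21, 22, 23, 26, 27, 31, 32, 33, 34, 35, 37, 38, 39, 43, 47, 48, 49, 50, 51, 53, 54, 55, 58, 59, 64, 65, 66, 67, 69, 70, 71, 74, 75, 79, 80, 81, 82, 83, 85, 86, 87, 90, 91, 95, 96, 97, 98, 99, 101, 102, 103, 107, 111, 112, 113, 114, 115, 117, 118, 119, 122, 123, 127, 128, 129, 130, 131, 133, 134, 135, 138, 139, 143, 144, 145, 146, 147, 149, 150, 151, 154, 155, 159, 160, 161, 162, 163, 165, 166, 167, 170, 171, 175, 176, 177, 178, 179, 181, 182, 183, 186, 187, 191, 192, 193, 194, 195, 197, 198, 199, 202, 203, 207, 208, 209, 210, 211, 213, 214, 215, 219, 223, 224, 225, 226, 227, 229, 230, 231, 234, 235, 239, 240, 241, 242, 243, 245, 246, 247, 250, 251, 255], [e0_63_106__218_42_0, e0_63_106__218_42_1, e0_63_106__218_42_2, e0_63_106__218_42_3, e0_63_106__218_42_4, e0_63_106__218_42_5, e0_63_106__218_42_6, e0_63_106__218_42_7,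 e0_63_106__218_42_8, e0_63_106__218_42_9, e0_63_106__218_42_10, e0_63_106__218_42_11, e0_63_106__218_42_12, e0_63_106__218_42_13, e0_63_106__218_42_14, e0_63_106__218_42_15, e0_63_106__218_42_16, e0_63_106__218_42_17, e0_63_106__218_42_18, e0_63_106__218_42_19, e0_63_106__218_42_20, e0_63_106__218_42_21, e0_63_106__218_42_22, e0_63_106__218_42_23, e0_63_106__218_42_24, e0_63_106__218_42_25, e0_63_106__218_42_26, e0_63_106__218_42_27, e0_63_106__218_42_28, e0_63_106__218_42_29, e0_63_106__218_42_30, e0_63_106__218_42_31, e0_63_106__218_42_32, e0_63_106__218_42_33, e0_63_106__218_42_34, e0_63_106__218_42_35, e0_63_106__218_42_36, e0_63_106__218_42_37, e0_63_106__218_42_38, e0_63_106__218_42_39, e0_63_106__218_42_40, e0_63_106__218_42_41, e0_63_106__218_42_42, e0_63_106__218_42_43, e0_63_106__218_42_44, e0_63_106__218_42_45, e0_63_106__218_42_46, e0_63_106__218_42_47, e0_63_106__218_42_48, e0_63_106__218_42_49, e0_63_106__218_42_50,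 e0_63_106__218_42_51, e0_63_106__218_42_52, e0_63_106__218_42_53, e0_63_106__218_42_54, e0_63_106__218_42_55, e0_63_106__218_42_56, e0_63_106__218_42_57, e0_63_106__218_42_58, e0_63_106__218_42_59, e0_63_106__218_42_60, e0_63_106__218_42_61, e0_63_106__218_42_62, e0_63_106__218_42_63, e0_63_106__218_42_64, e0_63_106__218_42_65, e0_63_106__218_42_66, e0_63_106__218_42_67, e0_63_106__218_42_68, e0_63_106__218_42_69, e0_63_106__218_42_70, e0_63_106__218_42_71, e0_63_106__218_42_72, e0_63_106__218_42_73, e0_63_106__218_42_74, e0_63_106__218_42_75, e0_63_106__218_42_76, e0_63_106__218_42_77, e0_63_106__218_42_78, e0_63_106__218_42_79, e0_63_106__218_42_80, e0_63_106__218_42_81, e0_63_106__218_42_82, e0_63_106__218_42_83, e0_63_106__218_42_84, e0_63_106__218_42_85, e0_63_106__218_42_86, e0_63_106__218_42_87, e0_63_106__218_42_88, e0_63_106__218_42_89, e0_63_106__218_42_90, e0_63_106__218_42_91, e0_63_106__218_42_92, e0_63_106__218_42_93,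 e0_63_106__218_42_94, e0_63_106__218_42_95, e0_63_106__218_42_96, e0_63_106__218_42_97, e0_63_106__218_42_98, e0_63_106__218_42_99, e0_63_106__218_42_100, e0_63_106__218_42_101, e0_63_106__218_42_102, e0_63_106__218_42_103, e0_63_106__218_42_104, e0_63_106__218_42_105, e0_63_106__218_42_106, e0_63_106__218_42_107, e0_63_106__218_42_108, e0_63_106__218_42_109, e0_63_106__218_42_110, e0_63_106__218_42_111, e0_63_106__218_42_112, e0_63_106__218_42_113, e0_63_106__218_42_114, e0_63_106__218_42_115, e0_63_106__218_42_116, e0_63_106__218_42_117, e0_63_106__218_42_118, e0_63_106__218_42_119, e0_63_106__218_42_120, e0_63_106__218_42_121, e0_63_106__218_42_122, e0_63_106__218_42_123, e0_63_106__218_42_124, e0_63_106__218_42_125, e0_63_106__218_42_126, e0_63_106__218_42_127, e0_63_106__218_42_128, e0_63_106__218_42_129, e0_63_106__218_42_130, e0_63_106__218_42_131, e0_63_106__218_42_132, e0_63_106__218_42_133, e0_63_106__218_42_134,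 e0_63_106__218_42_135, e0_63_106__218_42_136, e0_63_106__218_42_137, e0_63_106__218_42_138, e0_63_106__218_42_139, e0_63_106__218_42_140, e0_63_106__218_42_141, e0_63_106__218_42_142, e0_63_106__218_42_143, e0_63_106__218_42_144, e0_63_106__218_42_145, e0_63_106__218_42_146, e0_63_106__218_42_147, e0_63_106__218_42_148, e0_63_106__218_42_149, e0_63_106__218_42_150, e0_63_106__218_42_151, e0_63_106__218_42_152, e0_63_106__218_42_153, e0_63_106__218_42_154], by decide +kernel, by decide +kernel⟩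
def e0_63_106__219_42_0 : Ent 4 := ⟨[a0, a63, a106], [a219, a42, a1], (M a48 (F (T t309 (T t551 (L l28 (L l245 (T t579 N)))))))⟩
def e0_63_106__219_42_1 : Ent 4 := ⟨[a0, a63, a106], [a219, a42, a2], (M a48 (L l66 (F (T t309 (T t551 (L l28 (L l245 (T t579 (K a22 (M a62 (F (T t585 (L l22 (L l245 (L l306 (T t5926 N))))))) (K a62 (M a22 (F (T t3405 (T t551 (L l28 (L l245 (T t579 N))))))) N))))))))))⟩
def e0_63_106__219_42_2 : Ent 4 := ⟨[a0, a63, a106], [a219, a42, a3], (M a48 (F (T t585 (L l453 (T t551 (L l28 (L l245 (T t579 N))))))))⟩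
def e0_63_106__219_42_3 : Ent 4 := ⟨[a0, a63, a106], [a219, a42, a4], (M a48 (F (T t309 (T t551 (L l28 (L l245 (T t579 N)))))))⟩
def e0_63_106__219_42_4 : Ent 4 := ⟨[a0, a63, a106], [a219, a42, a5], (M a48 (F (L l47 (T t309 (T t551 (L l28 (L l47 (L l245 (T t579 N)))))))))⟩
def e0_63_106__219_42_5 : Ent 4 := ⟨[a0, a63, a106], [a219, a42, a6], (M a48 (F (T t309 (T t551 (L l28 (L l245 (T t579 N)))))))⟩
def e0_63_106__219_42_6 : Ent 4 := ⟨[a0, a63, a106], [a219, a42, a7], (M a48 (F (T t309 (T t551 (L l28 (L l245 (T t579 N)))))))⟩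
def e0_63_106__219_42_7 : Ent 4 := ⟨[a0, a63, a106], [a219, a42, a8], (M a48 (L l56 (F (T t309 (T t551 (L l28 (L l245 (T t579 (K a25 (M a59 (F (T t585 (L l26 (L l316 (T t6445 N)))))) (K a59 (M a25 (F (T t3405 (T t551 (L l28 (L l245 (T t579 N))))))) N))))))))))⟩
def e0_63_106__219_42_8 : Ent 4 := ⟨[a0, a63, a106], [a219, a42, a9], (M a48 (F (T t309 (T t551 (L l28 (L l245 (T t579 N)))))))⟩
def e0_63_106__219_42_9 : Ent 4 := ⟨[a0, a63, a106], [a219, a42, a10], (M a48 (L l54 (F (T t2348 (L l28 (L l245 (L l318 (T t579 (T t551 (K a26 (Fr a58 a53 l38 (V t6446)) (K a58 (M a26 (F (L l28 (T t4144 (T t551 (L l28 (L l426 (T t6447 (K a32 (Fr a192 a149 l519 (Fr a15 a37 l75 (Fr a47 a31 l61 (V t6528)))) N))))))))) N)))))))))))⟩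
def e0_63_106__219_42_10 : Ent 4 := ⟨[a0, a63, a106], [a219, a42, a11], (M a48 (F (T t309 (T t551 (L l28 (L l245 (T t579 N)))))))⟩
def e0_63_106__219_42_11 : Ent 4 := ⟨[a0, a63, a106], [a219, a42, a12], (M a48 (F (T t585 (L l478 (T t551 (L l28 (L l245 (T t579 N))))))))⟩
def e0_63_106__219_42_12 : Ent 4 := ⟨[a0, a63, a106], [a219, a42, a13], (M a48 (F (T t309 (T t551 (L l28 (L l245 (T t579 N)))))))⟩
def e0_63_106__219_42_13 : Ent 4 := ⟨[a0, a63, a106], [a219, a42, a14], (M a48 (F (T t309 (T t551 (L l28 (L l245 (T t579 N)))))))⟩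
def e0_63_106__219_42_14 : Ent 4 := ⟨[a0, a63, a106], [a219, a42, a15], (M a48 (F (T t585 (L l483 (T t551 (L l28 (L l245 (T t579 N))))))))⟩
def e0_63_106__219_42_15 : Ent 4 := ⟨[a0, a63, a106], [a219, a42, a16], (M a240 (F (T t4786 (L l340 (T t4780 (T t4781 N))))))⟩
def e0_63_106__219_42_16 : Ent 4 := ⟨[a0, a63, a106], [a219, a42, a17], (M a48 (F (T t309 (T t551 (L l28 (L l245 (T t579 N)))))))⟩
def e0_63_106__219_42_17 : Ent 4 := ⟨[a0, a63, a106], [a219, a42, a18], (M a48 (F (T t309 (T t551 (L l28 (L l245 (T t579 N)))))))⟩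
def e0_63_106__219_42_18 : Ent 4 := ⟨[a0, a63, a106], [a219, a42, a19], (M a48 (F (T t309 (T t551 (L l28 (L l245 (L l367 (T t579 N))))))))⟩
def e0_63_106__219_42_19 : Ent 4 := ⟨[a0, a63, a106], [a219, a42, a20], (M a48 (F (T t309 (T t551 (L l28 (L l245 (T t579 N)))))))⟩
def e0_63_106__219_42_20 : Ent 4 := ⟨[a0, a63, a106], [a219, a42, a21], (M a48 (F (L l47 (T t309 (L l347 (T t551 (L l28 (L l47 (L l245 (T t579 N))))))))))⟩
def e0_63_106__219_42_21 : Ent 4 := ⟨[a0, a63, a106], [a219, a42, a22], (M a48 (L l66 (F (T t309 (T t551 (L l28 (L l245 (T t579 (K a2 (M a62 (F (T t585 (L l22 (L l245 (L l306 (T t5926 N))))))) (K a62 (M a2 (F (T t3405 (L l19 (L l28 (T t342 N)))))) N))))))))))⟩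
def e0_63_106__219_42_22 : Ent 4 := ⟨[a0, a63, a106], [a219, a42, a23], (M a48 (F (T t309 (L l351 (T t551 (L l28 (L l245 (T t579 N))))))))⟩
def e0_63_106__219_42_23 : Ent 4 := ⟨[a0, a63, a106], [a219, a42, a24], (M a48 (L l356 (F (T t309 (L l28 (L l245 (T t579 (T t551 (K a89 (M a154 (F (T t6900 (L l147 (T t6955 N))))) (K a154 (M a89 (F (T t8252 (L l170 (L l227 (T t551 (T t6716 N))))))) N))))))))))⟩
def e0_63_106__219_42_24 : Ent 4 := ⟨[a0, a63, a106], [a219, a42, a25], (M a48 (L l56 (F (T t309 (T t551 (L l28 (L l245 (T t579 (K a8 (M a59 (F (T t585 (L l26 (L l316 (T t6445 N)))))) (K a59 (M a8 (F (T t3405 (L l19 (L l28 (T t4700 N)))))) N))))))))))⟩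
def e0_63_106__219_42_25 : Ent 4 := ⟨[a0, a63, a106], [a219, a42, a26], (M a48 (L l54 (F (T t309 (L l28 (L l245 (T t579 (T t551 (K a10 (Fr a58 a53 l38 (V t6446)) (K a58 (M a10 (F (L l28 (T t2289 (L l301 (T t4033 (L l18 (L l354 (T t6449 (L l18 (L l426 (T t6450 N)))))))))))) N))))))))))⟩
def e0_63_106__219_42_26 : Ent 4 := ⟨[a0, a63, a106], [a219, a42, a27], (M a48 (L l355 (F (T t309 (T t551 (L l28 (L l245 (T t579 (K a91 (M a155 (F (T t3405 (T t551 (L l28 (L l245 (T t579 N))))))) (K a155 (M a91 (F (T t3405 (T t551 (L l28 (L l245 (L l367 (T t579 N)))))))) N))))))))))⟩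
def e0_63_106__219_42_27 : Ent 4 := ⟨[a0, a63, a106], [a219, a42, a28], (M a48 (F (T t309 (T t551 (L l28 (L l245 (L l362 (T t579 N))))))))⟩
def e0_63_106__219_42_28 : Ent 4 := ⟨[a0, a63, a106], [a219, a42, a29], (M a48 (F (T t309 (L l371 (T t551 (L l28 (L l245 (T t579 N))))))))⟩
def e0_63_106__219_42_29 : Ent 4 := ⟨[a0, a63, a106], [a219, a42, a30], (M a48 (F (T t309 (T t551 (L l28 (L l245 (T t579 N)))))))⟩
def e0_63_106__219_42_30 : Ent 4 := ⟨[a0, a63, a106], [a219, a42, a31], (M a48 (F (T t309 (L l375 (T t551 (L l28 (L l245 (L l361 (T t579 N)))))))))⟩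
def e0_63_106__219_42_31 : Ent 4 := ⟨[a0, a63, a106], [a219, a42, a32], (M a240 (L l28 (F (T t6609 (L l376 (T t6588 (L l376 (T t4781 (K a37 (M a47 (F (T t6602 (T t6698 (T t6604 N))))) (K a47 (M a37 (F (L l376 (T t6588 (L l54 (T t6699 (L l376 (T t4781 N)))))))) N))))))))))⟩
def e0_63_106__219_42_32 : Ent 4 := ⟨[a0, a63, a106], [a219, a42, a33], (M a48 (F (T t309 (T t551 (L l20 (L l28 (L l245 (T t579 N))))))))⟩
def e0_63_106__219_42_33 : Ent 4 := ⟨[a0, a63, a106], [a219, a42, a34], (M a48 (L l26 (F (T t309 (T t551 (L l20 (L l28 (L l245 (T t579 (K a38 (M a46 (F (T t3405 (L l56 (L l378 (T t4030 N)))))) (K a46 (M a38 (F (T t3405 (T t551 (L l20 (L l28 (L l245 (T t579 N)))))))) N)))))))))))⟩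
def e0_63_106__219_42_34 : Ent 4 := ⟨[a0, a63, a106], [a219, a42, a35], (M a48 (F (T t309 (T t551 (L l20 (L l28 (L l245 (T t579 N))))))))⟩
def e0_63_106__219_42_35 : Ent 4 := ⟨[a0, a63, a106], [a219, a42, a36], (M a48 (F (T t309 (T t551 (L l24 (L l28 (L l245 (T t579 N))))))))⟩
def e0_63_106__219_42_36 : Ent 4 := ⟨[a0, a63, a106], [a219, a42, a37], (M a240 (L l28 (F (T t4786 (T t6606 (T t4781 (K a32 (M a47 (F (T t6602 (T t6698 (T t6604 N))))) (K a47 (M a32 (F (T t6607 (T t4781 (L l54 (T t6608 N)))))) N))))))))⟩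
def e0_63_106__219_42_37 : Ent 4 := ⟨[a0, a63, a106], [a219, a42, a38], (M a48 (L l26 (F (T t309 (T t551 (L l28 (L l245 (T t579 (K a34 (M a46 (F (T t3405 (L l56 (L l378 (T t4030 N)))))) (K a46 (M a34 (F (T t309 (L l29 (L l66 (T t6453 N)))))) N))))))))))⟩
def e0_63_106__219_42_38 : Ent 4 := ⟨[a0, a63, a106], [a219, a42, a39], (M a48 (F (T t309 (T t551 (L l28 (L l245 (T t579 N)))))))⟩
def e0_63_106__219_42_39 : Ent 4 := ⟨[a0, a63, a106], [a219, a42, a40], (M a48 (L l22 (F (T t309 (T t551 (L l24 (L l28 (L l245 (T t579 (K a41 (M a43 (F (T t585 (L l66 (L l388 (T t6451 N)))))) (K a43 (M a41 (F (T t3405 (T t551 (L l24 (L l28 (L l245 (T t579 N)))))))) N)))))))))))⟩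
def e0_63_106__219_42_40 : Ent 4 := ⟨[a0, a63, a106], [a219, a42, a41], (M a48 (L l22 (F (T t309 (T t551 (L l28 (L l245 (T t579 (K a40 (M a43 (F (T t585 (L l66 (L l388 (T t6451 N)))))) (K a43 (M a40 (F (T t309 (L l29 (L l69 (T t6452 N)))))) N))))))))))⟩
def e0_63_106__219_42_41 : Ent 4 := ⟨[a0, a63, a106], [a219, a42, a43], (M a48 (L l22 (F (T t309 (T t551 (L l28 (L l245 (T t579 (K a40 (M a41 (F (T t3405 (T t551 (L l24 (L l28 (L l245 (T t579 N)))))))) (K a41 (M a40 (F (T t309 (L l29 (L l69 (T t6452 N)))))) N))))))))))⟩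
def e0_63_106__219_42_42 : Ent 4 := ⟨[a0, a63, a106], [a219, a42, a44], (M a48 (F (T t309 (T t551 (L l24 (L l28 (L l245 (T t579 N))))))))⟩
def e0_63_106__219_42_43 : Ent 4 := ⟨[a0, a63, a106], [a219, a42, a45], (M a48 (F (T t309 (T t551 (L l28 (L l245 (T t579 N)))))))⟩
def e0_63_106__219_42_44 : Ent 4 := ⟨[a0, a63, a106], [a219, a42, a46], (M a48 (L l26 (F (T t309 (T t551 (L l28 (L l245 (T t579 (K a34 (M a38 (F (T t3405 (T t551 (L l20 (L l28 (L l245 (T t579 N)))))))) (K a38 (M a34 (F (T t309 (L l29 (L l66 (T t6453 N)))))) N))))))))))⟩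
def e0_63_106__219_42_45 : Ent 4 := ⟨[a0, a63, a106], [a219, a42, a47], (M a12 (L l28 (F (T t2304 (T t2305 (L l56 (T t2415 (K a32 (M a37 (F (T t2304 (T t2305 (L l56 (T t2415 N)))))) (K a37 (M a32 (F (T t2304 (L l51 (L l56 (L l356 (T t682 (L l56 (T t2477 N))))))))) N)))))))))⟩
def e0_63_106__219_42_46 : Ent 4 := ⟨[a0, a63, a106], [a219, a42, a48], (M a12 (F (T t4425 (L l56 (T t2415 (L l508 (T t2305 N)))))))⟩
def e0_63_106__219_42_47 : Ent 4 := ⟨[a0, a63, a106], [a219, a42, a49], (M a48 (F (L l35 (T t309 (T t551 (L l28 (L l35 (L l245 (T t579 N)))))))))⟩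
def e0_63_106__219_42_48 : Ent 4 := ⟨[a0, a63, a106], [a219, a42, a50], (M a48 (F (T t309 (T t551 (L l28 (L l245 (T t579 N)))))))⟩
def e0_63_106__219_42_49 : Ent 4 := ⟨[a0, a63, a106], [a219, a42, a51], (M a48 (F (T t585 (L l417 (T t551 (L l28 (L l245 (T t579 N))))))))⟩
def e0_63_106__219_42_50 : Ent 4 := ⟨[a0, a63, a106], [a219, a42, a52], (M a48 (F (L l31 (T t309 (T t551 (L l28 (L l31 (L l245 (T t579 N)))))))))⟩
def e0_63_106__219_42_51 : Ent 4 := ⟨[a0, a63, a106], [a219, a42, a53], (M a240 (F (T t4786 (L l491 (T t817 (L l419 (T t4781 N)))))))⟩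
def e0_63_106__219_42_52 : Ent 4 := ⟨[a0, a63, a106], [a219, a42, a54], (M a48 (F (L l31 (T t309 (T t551 (L l28 (L l31 (L l245 (T t579 N)))))))))⟩
def e0_63_106__219_42_53 : Ent 4 := ⟨[a0, a63, a106], [a219, a42, a55], (M a48 (F (L l31 (T t309 (L l495 (T t551 (L l28 (L l31 (L l245 (T t579 N))))))))))⟩
def e0_63_106__219_42_54 : Ent 4 := ⟨[a0, a63, a106], [a219, a42, a56], (M a48 (F (T t309 (T t551 (L l28 (L l245 (T t579 N)))))))⟩
def e0_63_106__219_42_55 : Ent 4 := ⟨[a0, a63, a106], [a219, a42, a57], (M a48 (F (L l35 (T t309 (T t551 (L l28 (L l35 (L l245 (T t579 N)))))))))⟩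
def e0_63_106__219_42_56 : Ent 4 := ⟨[a0, a63, a106], [a219, a42, a58], (M a240 (L l54 (F (T t4779 (T t817 (T t4781 (K a10 (M a26 (F (L l28 (T t815 (L l318 (T t4781 (T t817 N))))))) (K a26 (M a10 (F (T t6609 (T t6610 (L l18 (T t6611 N)))))) N))))))))⟩
def e0_63_106__219_42_57 : Ent 4 := ⟨[a0, a63, a106], [a219, a42, a59], (M a48 (L l56 (F (T t309 (T t551 (L l28 (L l245 (T t579 (K a8 (M a25 (F (T t3405 (T t551 (L l28 (L l245 (T t579 N))))))) (K a25 (M a8 (F (T t3405 (L l19 (L l28 (T t4700 N)))))) N))))))))))⟩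
def e0_63_106__219_42_58 : Ent 4 := ⟨[a0, a63, a106], [a219, a42, a60], (M a48 (F (T t585 (L l442 (T t551 (L l28 (L l245 (T t579 N))))))))⟩
def e0_63_106__219_42_59 : Ent 4 := ⟨[a0, a63, a106], [a219, a42, a61], (M a48 (F (L l35 (T t309 (L l515 (T t551 (L l28 (L l35 (L l245 (T t579 N))))))))))⟩
def e0_63_106__219_42_60 : Ent 4 := ⟨[a0, a63, a106], [a219, a42, a62], (M a48 (L l66 (F (T t309 (T t551 (L l28 (L l245 (T t579 (K a2 (M a22 (F (T t3405 (T t551 (L l28 (L l245 (T t579 N))))))) (K a22 (M a2 (F (T t3405 (L l19 (L l28 (T t342 N)))))) N))))))))))⟩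
def e0_63_106__219_42_61 : Ent 4 := ⟨[a0, a63, a106], [a219, a42, a64], (M a48 (F (T t585 (L l28 (L l245 (T t6594 (L l28 (L l245 (L l301 (T t6455 (L l28 (L l84 (L l245 (T t6457 (L l54 (T t6458 (K a207 (Fr a192 a149 l519 (Fr a96 a144 l484 (Fr a101 a111 l104 (Fr a32 a16 l40 (V t6459))))) N)))))))))))))))))⟩
def e0_63_106__219_42_62 : Ent 4 := ⟨[a0, a63, a106], [a219, a42, a65], (M a48 (F (T t309 (L l76 (T t551 (L l28 (L l76 (L l245 (T t579 N)))))))))⟩
def e0_63_106__219_42_63 : Ent 4 := ⟨[a0, a63, a106], [a219, a42, a66], (M a48 (F (T t585 (L l76 (T t551 (L l28 (L l76 (L l245 (T t579 N)))))))))⟩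
def e0_63_106__219_42_64 : Ent 4 := ⟨[a0, a63, a106], [a219, a42, a67], (M a48 (F (T t309 (L l76 (T t551 (L l28 (L l76 (L l245 (T t579 N)))))))))⟩
def e0_63_106__219_42_65 : Ent 4 := ⟨[a0, a63, a106], [a219, a42, a68], (M a48 (F (T t309 (L l80 (T t551 (L l28 (L l80 (L l245 (T t579 N)))))))))⟩
def e0_63_106__219_42_66 : Ent 4 := ⟨[a0, a63, a106], [a219, a42, a69], (M a48 (F (T t309 (L l84 (T t551 (L l28 (L l84 (L l245 (T t579 N)))))))))⟩
def e0_63_106__219_42_67 : Ent 4 := ⟨[a0, a63, a106], [a219, a42, a70], (M a48 (F (T t309 (T t551 (L l28 (L l245 (T t579 N)))))))⟩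
def e0_63_106__219_42_68 : Ent 4 := ⟨[a0, a63, a106], [a219, a42, a71], (M a48 (F (T t309 (T t551 (L l28 (L l245 (T t579 N)))))))⟩
def e0_63_106__219_42_69 : Ent 4 := ⟨[a0, a63, a106], [a219, a42, a72], (M a48 (F (T t585 (L l80 (T t551 (L l28 (L l80 (L l245 (T t579 N)))))))))⟩
def e0_63_106__219_42_70 : Ent 4 := ⟨[a0, a63, a106], [a219, a42, a73], (M a48 (F (T t309 (T t551 (L l28 (L l245 (T t579 N)))))))⟩
def e0_63_106__219_42_71 : Ent 4 := ⟨[a0, a63, a106], [a219, a42, a74], (M a48 (F (T t2348 (L l28 (L l84 (L l245 (L l318 (T t579 (L l84 (T t551 N))))))))))⟩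
def e0_63_106__219_42_72 : Ent 4 := ⟨[a0, a63, a106], [a219, a42, a75], (M a48 (F (T t309 (T t551 (L l28 (L l245 (T t579 N)))))))⟩
def e0_63_106__219_42_73 : Ent 4 := ⟨[a0, a63, a106], [a219, a42, a76], (M a48 (F (T t309 (L l80 (T t551 (L l28 (L l80 (L l245 (T t579 N)))))))))⟩
def e0_63_106__219_42_74 : Ent 4 := ⟨[a0, a63, a106], [a219, a42, a77], (M a48 (F (T t309 (T t551 (L l28 (L l245 (T t579 N)))))))⟩
def e0_63_106__219_42_75 : Ent 4 := ⟨[a0, a63, a106], [a219, a42, a78], (M a48 (F (T t309 (T t551 (L l28 (L l245 (T t579 N)))))))⟩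
def e0_63_106__219_42_76 : Ent 4 := ⟨[a0, a63, a106], [a219, a42, a79], (M a48 (F (T t309 (L l84 (T t551 (L l28 (L l84 (L l245 (T t579 N)))))))))⟩
def e0_63_106__219_42_77 : Ent 4 := ⟨[a0, a63, a106], [a219, a42, a80], (M a12 (F (T t2304 (L l116 (T t2305 (L l56 (L l116 (T t2415 N))))))))⟩
def e0_63_106__219_42_78 : Ent 4 := ⟨[a0, a63, a106], [a219, a42, a81], (M a48 (F (T t309 (L l120 (T t551 (L l28 (L l120 (L l245 (T t579 N)))))))))⟩
def e0_63_106__219_42_79 : Ent 4 := ⟨[a0, a63, a106], [a219, a42, a82], (M a48 (F (T t309 (L l453 (T t551 (L l28 (L l245 (T t579 N))))))))⟩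
def e0_63_106__219_42_80 : Ent 4 := ⟨[a0, a63, a106], [a219, a42, a83], (M a48 (F (T t309 (T t551 (L l28 (L l245 (T t579 N)))))))⟩
def e0_63_106__219_42_81 : Ent 4 := ⟨[a0, a63, a106], [a219, a42, a84], (M a48 (F (T t309 (L l140 (T t551 (L l28 (L l140 (L l245 (T t579 N)))))))))⟩
def e0_63_106__219_42_82 : Ent 4 := ⟨[a0, a63, a106], [a219, a42, a85], (M a48 (F (T t309 (L l347 (T t551 (L l54 (T t777 (L l301 (L l368 (T t6465 (K a192 (M a240 (F (T t6230 (L l236 (T t6471 (L l54 (L l236 (L l339 (T t6472 (L l339 (T t6473 N))))))))))) N)))))))))))⟩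
def e0_63_106__219_42_83 : Ent 4 := ⟨[a0, a63, a106], [a219, a42, a86], (M a48 (F (T t309 (L l351 (T t551 (L l28 (L l245 (T t579 N))))))))⟩
def e0_63_106__219_42_84 : Ent 4 := ⟨[a0, a63, a106], [a219, a42, a87], (M a48 (F (T t309 (T t551 (L l28 (L l245 (L l367 (T t579 N))))))))⟩
def e0_63_106__219_42_85 : Ent 4 := ⟨[a0, a63, a106], [a219, a42, a88], (M a48 (F (T t309 (L l478 (T t551 (L l28 (L l245 (T t579 N))))))))⟩
def e0_63_106__219_42_86 : Ent 4 := ⟨[a0, a63, a106], [a219, a42, a89], (M a48 (L l356 (F (T t309 (L l28 (L l245 (T t579 (L l371 (T t551 (K a24 (M a154 (F (T t6900 (L l147 (T t6955 N))))) (K a154 (M a24 (F (L l500 (T t6274 (L l170 (L l227 (L l371 (T t551 (L l56 (L l170 (L l371 (L l464 (T t8253 N))))))))))))) N)))))))))))⟩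
def e0_63_106__219_42_87 : Ent 4 := ⟨[a0, a63, a106], [a219, a42, a90], (M a48 (F (T t309 (L l375 (L l483 (T t551 (L l28 (L l245 (T t579 N)))))))))⟩
def e0_63_106__219_42_88 : Ent 4 := ⟨[a0, a63, a106], [a219, a42, a91], (M a48 (L l355 (F (T t309 (T t551 (L l28 (L l245 (T t579 (K a27 (M a155 (F (T t3405 (T t551 (L l28 (L l245 (T t579 N))))))) (K a155 (M a27 (F (T t3405 (T t551 (L l28 (L l245 (L l367 (T t579 N)))))))) N))))))))))⟩
def e0_63_106__219_42_89 : Ent 4 := ⟨[a0, a63, a106], [a219, a42, a92], (M a48 (F (T t309 (T t551 (L l28 (L l245 (T t579 N)))))))⟩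
def e0_63_106__219_42_90 : Ent 4 := ⟨[a0, a63, a106], [a219, a42, a93], (M a48 (F (T t309 (T t551 (L l28 (L l245 (L l362 (T t579 N))))))))⟩
def e0_63_106__219_42_91 : Ent 4 := ⟨[a0, a63, a106], [a219, a42, a94], (M a48 (F (T t309 (T t551 (L l28 (L l245 (T t579 N)))))))⟩
def e0_63_106__219_42_92 : Ent 4 := ⟨[a0, a63, a106], [a219, a42, a95], (M a48 (F (T t309 (T t551 (L l28 (L l245 (L l361 (T t579 N))))))))⟩
def e0_63_106__219_42_93 : Ent 4 := ⟨[a0, a63, a106], [a219, a42, a96], (M a12 (F (T t4425 (L l56 (L l116 (T t2415 (L l116 (T t2305 N))))))))⟩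
def e0_63_106__219_42_94 : Ent 4 := ⟨[a0, a63, a106], [a219, a42, a97], (M a48 (F (T t309 (L l96 (T t551 (L l28 (L l245 (L l380 (T t579 N)))))))))⟩
def e0_63_106__219_42_95 : Ent 4 := ⟨[a0, a63, a106], [a219, a42, a98], (M a48 (F (T t585 (L l96 (L l120 (T t551 (L l28 (L l120 (L l245 (T t579 N))))))))))⟩
def e0_63_106__219_42_96 : Ent 4 := ⟨[a0, a63, a106], [a219, a42, a99], (M a48 (F (T t309 (L l96 (T t551 (L l28 (L l245 (T t579 N))))))))⟩
def e0_63_106__219_42_97 : Ent 4 := ⟨[a0, a63, a106], [a219, a42, a100], (M a48 (F (T t309 (L l100 (T t551 (L l28 (L l245 (L l400 (T t579 N)))))))))⟩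
def e0_63_106__219_42_98 : Ent 4 := ⟨[a0, a63, a106], [a219, a42, a101], (M a240 (F (T t4779 (L l491 (L l512 (T t817 (T t4781 N)))))))⟩
def e0_63_106__219_42_99 : Ent 4 := ⟨[a0, a63, a106], [a219, a42, a102], (M a48 (F (T t309 (L l495 (T t551 (L l28 (L l245 (T t579 N))))))))⟩
def e0_63_106__219_42_100 : Ent 4 := ⟨[a0, a63, a106], [a219, a42, a103], (M a48 (F (T t309 (T t551 (L l28 (L l245 (T t579 N)))))))⟩
def e0_63_106__219_42_101 : Ent 4 := ⟨[a0, a63, a106], [a219, a42, a104], (M a48 (F (T t585 (L l100 (L l140 (T t551 (L l28 (L l140 (L l245 (T t579 N))))))))))⟩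
def e0_63_106__219_42_102 : Ent 4 := ⟨[a0, a63, a106], [a219, a42, a105], (M a48 (F (T t309 (L l515 (T t551 (L l28 (L l245 (T t579 N))))))))⟩
def e0_63_106__219_42_103 : Ent 4 := ⟨[a0, a63, a106], [a219, a42, a107], (M a48 (F (T t309 (T t551 (L l28 (L l245 (T t579 N)))))))⟩
def e0_63_106__219_42_104 : Ent 4 := ⟨[a0, a63, a106], [a219, a42, a108], (M a48 (F (T t309 (L l100 (T t551 (L l28 (L l245 (T t579 N))))))))⟩
def e0_63_106__219_42_105 : Ent 4 := ⟨[a0, a63, a106], [a219, a42, a109], (M a48 (F (T t309 (T t551 (L l28 (L l245 (T t579 N)))))))⟩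
def e0_63_106__219_42_106 : Ent 4 := ⟨[a0, a63, a106], [a219, a42, a110], (M a48 (F (T t309 (T t551 (L l28 (L l245 (T t579 N)))))))⟩
def e0_63_106__219_42_107 : Ent 4 := ⟨[a0, a63, a106], [a219, a42, a111], (M a240 (F (T t4779 (T t817 (L l137 (T t4781 N))))))⟩
def e0_63_106__219_42_108 : Ent 4 := ⟨[a0, a63, a106], [a219, a42, a112], (M a48 (F (T t309 (L l28 (L l116 (T t6462 (L l28 (L l116 (L l245 (T t579 N))))))))))⟩
def e0_63_106__219_42_109 : Ent 4 := ⟨[a0, a63, a106], [a219, a42, a113], (M a48 (F (T t309 (T t551 (L l28 (L l245 (T t579 N)))))))⟩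
def e0_63_106__219_42_110 : Ent 4 := ⟨[a0, a63, a106], [a219, a42, a114], (M a48 (F (T t309 (L l417 (T t551 (L l28 (L l245 (T t579 N))))))))⟩
def e0_63_106__219_42_111 : Ent 4 := ⟨[a0, a63, a106], [a219, a42, a115], (M a48 (F (T t309 (L l120 (T t551 (L l28 (L l120 (L l245 (T t579 N)))))))))⟩
def e0_63_106__219_42_112 : Ent 4 := ⟨[a0, a63, a106], [a219, a42, a116], (M a48 (F (T t309 (T t551 (L l28 (L l245 (T t579 N)))))))⟩
def e0_63_106__219_42_113 : Ent 4 := ⟨[a0, a63, a106], [a219, a42, a117], (M a48 (F (L l419 (T t309 (T t551 (L l28 (L l245 (L l419 (T t579 N)))))))))⟩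
def e0_63_106__219_42_114 : Ent 4 := ⟨[a0, a63, a106], [a219, a42, a118], (M a48 (F (T t309 (T t551 (L l28 (L l245 (T t579 N)))))))⟩
def e0_63_106__219_42_115 : Ent 4 := ⟨[a0, a63, a106], [a219, a42, a119], (M a48 (F (T t309 (T t551 (L l28 (L l245 (T t579 N)))))))⟩
def e0_63_106__219_42_116 : Ent 4 := ⟨[a0, a63, a106], [a219, a42, a120], (M a48 (F (T t309 (L l442 (T t551 (L l28 (L l245 (T t579 N))))))))⟩
def e0_63_106__219_42_117 : Ent 4 := ⟨[a0, a63, a106], [a219, a42, a121], (M a48 (F (T t309 (T t551 (L l28 (L l245 (T t579 N)))))))⟩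
def e0_63_106__219_42_118 : Ent 4 := ⟨[a0, a63, a106], [a219, a42, a122], (M a48 (F (T t309 (T t551 (L l28 (L l245 (T t579 N)))))))⟩
def e0_63_106__219_42_119 : Ent 4 := ⟨[a0, a63, a106], [a219, a42, a123], (M a48 (F (T t309 (T t551 (L l28 (L l245 (T t579 N)))))))⟩
def e0_63_106__219_42_120 : Ent 4 := ⟨[a0, a63, a106], [a219, a42, a124], (M a48 (F (T t309 (L l140 (T t551 (L l28 (L l140 (L l245 (T t579 N)))))))))⟩
def e0_63_106__219_42_121 : Ent 4 := ⟨[a0, a63, a106], [a219, a42, a125], (M a48 (F (T t309 (T t551 (L l28 (L l245 (T t579 N)))))))⟩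
def e0_63_106__219_42_122 : Ent 4 := ⟨[a0, a63, a106], [a219, a42, a126], (M a48 (F (T t309 (T t551 (L l28 (L l245 (T t579 N)))))))⟩
def e0_63_106__219_42_123 : Ent 4 := ⟨[a0, a63, a106], [a219, a42, a127], (M a48 (F (T t309 (T t551 (L l28 (L l245 (T t6744 (L l28 (L l245 (L l301 (T t6479 N)))))))))))⟩
def e0_63_106__219_42_124 : Ent 4 := ⟨[a0, a63, a106], [a219, a42, a128], (M a48 (F (T t585 (L l28 (L l245 (T t579 (L l192 (L l220 (L l301 (T t6480 (L l54 (L l160 (T t6481 N)))))))))))))⟩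
def e0_63_106__219_42_125 : Ent 4 := ⟨[a0, a63, a106], [a219, a42, a129], (M a48 (F (T t585 (L l217 (T t551 (L l28 (L l245 (T t579 N))))))))⟩
def e0_63_106__219_42_126 : Ent 4 := ⟨[a0, a63, a106], [a219, a42, a130], (M a48 (F (T t309 (T t551 (L l28 (L l245 (T t579 N)))))))⟩
def e0_63_106__219_42_127 : Ent 4 := ⟨[a0, a63, a106], [a219, a42, a131], (M a48 (F (T t309 (L l197 (T t551 (L l28 (L l245 (T t579 N))))))))⟩
def e0_63_106__219_42_128 : Ent 4 := ⟨[a0, a63, a106], [a219, a42, a132], (M a48 (F (T t585 (L l202 (T t551 (L l28 (L l245 (T t579 N))))))))⟩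
def e0_63_106__219_42_129 : Ent 4 := ⟨[a0, a63, a106], [a219, a42, a133], (M a48 (F (T t585 (L l199 (T t551 (L l28 (L l245 (T t579 N))))))))⟩
def e0_63_106__219_42_130 : Ent 4 := ⟨[a0, a63, a106], [a219, a42, a134], (M a48 (F (T t309 (T t551 (L l28 (L l245 (T t579 N)))))))⟩
def e0_63_106__219_42_131 : Ent 4 := ⟨[a0, a63, a106], [a219, a42, a135], (M a48 (F (T t309 (T t551 (L l28 (L l245 (T t579 N)))))))⟩
def e0_63_106__219_42_132 : Ent 4 := ⟨[a0, a63, a106], [a219, a42, a136], (M a48 (F (T t309 (T t551 (L l28 (L l245 (T t579 N)))))))⟩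
def e0_63_106__219_42_133 : Ent 4 := ⟨[a0, a63, a106], [a219, a42, a137], (M a48 (F (T t309 (T t551 (L l28 (L l245 (T t579 N)))))))⟩
def e0_63_106__219_42_134 : Ent 4 := ⟨[a0, a63, a106], [a219, a42, a138], (M a48 (F (T t2348 (L l28 (L l245 (L l318 (T t579 (T t551 N))))))))⟩
def e0_63_106__219_42_135 : Ent 4 := ⟨[a0, a63, a106], [a219, a42, a139], (M a48 (F (T t309 (T t551 (L l28 (L l245 (T t579 N)))))))⟩
def e0_63_106__219_42_136 : Ent 4 := ⟨[a0, a63, a106], [a219, a42, a140], (M a48 (F (T t309 (L l222 (T t551 (L l28 (L l245 (T t579 N))))))))⟩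
def e0_63_106__219_42_137 : Ent 4 := ⟨[a0, a63, a106], [a219, a42, a141], (M a48 (F (T t309 (T t551 (L l28 (L l245 (T t579 N)))))))⟩
def e0_63_106__219_42_138 : Ent 4 := ⟨[a0, a63, a106], [a219, a42, a142], (M a48 (F (T t309 (T t551 (L l28 (L l245 (T t579 N)))))))⟩
def e0_63_106__219_42_139 : Ent 4 := ⟨[a0, a63, a106], [a219, a42, a143], (M a48 (F (T t309 (L l28 (T t6462 (L l28 (L l245 (T t579 N))))))))⟩
def e0_63_106__219_42_140 : Ent 4 := ⟨[a0, a63, a106], [a219, a42, a144], (M a12 (F (L l484 (T t2304 (L l170 (T t2305 (L l56 (T t2415 N))))))))⟩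
def e0_63_106__219_42_141 : Ent 4 := ⟨[a0, a63, a106], [a219, a42, a145], (M a48 (F (T t585 (L l167 (T t551 (L l28 (L l245 (T t579 N))))))))⟩
def e0_63_106__219_42_142 : Ent 4 := ⟨[a0, a63, a106], [a219, a42, a146], (M a48 (F (T t3405 (L l197 (T t551 (L l28 (L l245 (T t579 N))))))))⟩
def e0_63_106__219_42_143 : Ent 4 := ⟨[a0, a63, a106], [a219, a42, a147], (M a48 (F (T t3405 (T t551 (L l28 (L l245 (T t579 N)))))))⟩
def e0_63_106__219_42_144 : Ent 4 := ⟨[a0, a63, a106], [a219, a42, a148], (M a48 (F (T t585 (L l163 (T t551 (L l28 (L l245 (T t579 N))))))))⟩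
def e0_63_106__219_42_145 : Ent 4 := ⟨[a0, a63, a106], [a219, a42, a149], (M a240 (F (L l199 (T t4781 (L l199 (L l347 (T t6484 (L l28 (L l199 (L l375 (T t6483 (L l28 (L l199 (L l220 (L l375 (T t6485 (K a133 (M a165 (F (T t6486 (L l28 (L l160 (L l220 (L l311 (L l375 (T t6487 (L l160 (L l220 (T t6488 N)))))))))))) (K a165 (M a90 (L l199 (F (T t4788 (L l180 (T t6489 (K a133 (Fr a181 a122 l447 (V t6489)) (K a181 (M a133 (F (L l180 (T t6489 (L l227 (T t6746 (L l455 (T t6490 N)))))))) N)))))))) (K a181 (M a165 (F (T t6492 (T t6493 (L l28 (L l220 (L l375 (T t6487 (L l220 (T t6488 N)))))))))) (K a74 (M a48 (F (T t6494 (L l199 (L l491 (T t781 (L l28 (L l84 (L l245 (L l318 (L l491 (T t579 N)))))))))))) (K a90 (M a48 (L l375 (F (T t3318 (L l199 (L l462 (L l491 (T t781 (L l28 (L l245 (L l491 (T t579 (K a208 (M a31 (F (L l28 (L l347 (T t6495 (L l151 (L l220 (T t6496 N)))))))) (K a31 (M a208 (F (T t6497 (L l151 (L l220 (T t6496 N))))))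 N)))))))))))))) (K a122 (M a48 (F (T t3318 (L l114 (L l491 (T t6471 (L l28 (L l245 (L l491 (T t579 N)))))))))) N))))))))))))))))))))))⟩
def e0_63_106__219_42_146 : Ent 4 := ⟨[a0, a63, a106], [a219, a42, a150], (M a48 (F (T t309 (L l163 (T t551 (L l28 (L l245 (T t579 N))))))))⟩
def e0_63_106__219_42_147 : Ent 4 := ⟨[a0, a63, a106], [a219, a42, a151], (M a48 (F (T t309 (L l163 (T t551 (L l28 (L l245 (T t579 N))))))))⟩
def e0_63_106__219_42_148 : Ent 4 := ⟨[a0, a63, a106], [a219, a42, a152], (M a48 (F (T t3405 (L l222 (T t551 (L l28 (L l245 (T t579 N))))))))⟩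
def e0_63_106__219_42_149 : Ent 4 := ⟨[a0, a63, a106], [a219, a42, a153], (M a48 (F (T t309 (L l167 (T t551 (L l28 (L l245 (T t579 N))))))))⟩
def e0_63_106__219_42_150 : Ent 4 := ⟨[a0, a63, a106], [a219, a42, a154], (M a240 (L l356 (F (T t4779 (L l170 (L l368 (L l512 (T t817 (T t4781 (K a24 (M a89 (F (T t4779 (L l206 (T t8254 N))))) (K a89 (M a24 (F (T t4786 (L l170 (L l368 (L l371 (L l512 (T t817 (T t4781 N))))))))) N)))))))))))⟩
def e0_63_106__219_42_151 : Ent 4 := ⟨[a0, a63, a106], [a219, a42, a155], (M a48 (L l355 (F (T t309 (T t551 (L l28 (L l245 (L l367 (T t579 (K a27 (M a91 (F (T t3405 (T t551 (L l28 (L l245 (L l367 (T t579 N)))))))) (K a91 (M a27 (F (T t3405 (T t551 (L l28 (L l245 (L l367 (T t579 N)))))))) N)))))))))))⟩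
def e0_63_106__219_42_152 : Ent 4 := ⟨[a0, a63, a106], [a219, a42, a156], (M a48 (F (T t3405 (T t551 (L l28 (L l245 (T t579 N)))))))⟩
def e0_63_106__219_42_153 : Ent 4 := ⟨[a0, a63, a106], [a219, a42, a157], (M a48 (F (T t309 (L l167 (T t551 (L l28 (L l245 (T t579 N))))))))⟩
def e0_63_106__219_42_154 : Ent 4 := ⟨[a0, a63, a106], [a219, a42, a158], (M a48 (F (T t309 (T t551 (L l28 (L l245 (L l362 (T t579 N))))))))⟩
def e0_63_106__219_42_155 : Ent 4 := ⟨[a0, a63, a106], [a219, a42, a159], (M a240 (F (T t4779 (L l170 (T t817 (L l361 (T t4781 N)))))))⟩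
def e0_63_106__219_42_156 : Ent 4 := ⟨[a0, a63, a106], [a219, a42, a160], (M a12 (F (T t2304 (T t2305 (L l56 (T t2415 N))))))⟩
def e0_63_106__219_42_157 : Ent 4 := ⟨[a0, a63, a106], [a219, a42, a161], (M a48 (F (T t309 (L l197 (L l453 (T t551 (L l28 (L l245 (T t579 N)))))))))⟩
def e0_63_106__219_42_158 : Ent 4 := ⟨[a0, a63, a106], [a219, a42, a162], (M a48 (F (T t309 (T t551 (L l28 (L l245 (L l380 (T t579 N))))))))⟩
def e0_63_106__219_42_159 : Ent 4 := ⟨[a0, a63, a106], [a219, a42, a163], (M a48 (F (T t309 (T t551 (L l28 (L l245 (T t579 N)))))))⟩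
def e0_63_106__219_42_160 : Ent 4 := ⟨[a0, a63, a106], [a219, a42, a164], (M a48 (F (T t309 (L l222 (L l478 (T t551 (L l28 (L l245 (T t579 N)))))))))⟩
def e0_63_106__219_42_161 : Ent 4 := ⟨[a0, a63, a106], [a219, a42, a165], (M a48 (F (T t309 (L l28 (L l199 (L l483 (T t6462 (L l28 (L l245 (T t579 N))))))))))⟩
def e0_63_106__219_42_162 : Ent 4 := ⟨[a0, a63, a106], [a219, a42, a166], (M a48 (F (T t309 (L l202 (T t551 (L l28 (L l245 (T t579 N))))))))⟩
def e0_63_106__219_42_163 : Ent 4 := ⟨[a0, a63, a106], [a219, a42, a167], (M a48 (F (T t309 (T t551 (L l28 (L l245 (T t579 N)))))))⟩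
def e0_63_106__219_42_164 : Ent 4 := ⟨[a0, a63, a106], [a219, a42, a168], (M a48 (F (T t309 (T t551 (L l28 (L l245 (L l400 (T t579 N))))))))⟩
def e0_63_106__219_42_165 : Ent 4 := ⟨[a0, a63, a106], [a219, a42, a169], (M a48 (F (T t309 (L l217 (T t551 (L l28 (L l245 (T t579 N))))))))⟩
def e0_63_106__219_42_166 : Ent 4 := ⟨[a0, a63, a106], [a219, a42, a170], (M a48 (F (T t309 (L l220 (T t551 (L l28 (L l206 (L l220 (L l245 (L l404 (T t552 (L l28 (L l206 (L l245 (L l301 (L l404 (T t553 N)))))))))))))))))⟩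
def e0_63_106__219_42_167 : Ent 4 := ⟨[a0, a63, a106], [a219, a42, a171], (M a48 (F (T t309 (T t551 (L l28 (L l245 (T t579 N)))))))⟩
def e0_63_106__219_42_168 : Ent 4 := ⟨[a0, a63, a106], [a219, a42, a172], (M a48 (F (T t309 (T t551 (L l28 (L l245 (T t579 N)))))))⟩
def e0_63_106__219_42_169 : Ent 4 := ⟨[a0, a63, a106], [a219, a42, a173], (M a48 (F (T t309 (T t551 (L l28 (L l245 (T t579 N)))))))⟩
def e0_63_106__219_42_170 : Ent 4 := ⟨[a0, a63, a106], [a219, a42, a174], (M a48 (F (T t309 (T t551 (L l28 (L l245 (T t579 N)))))))⟩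
def e0_63_106__219_42_171 : Ent 4 := ⟨[a0, a63, a106], [a219, a42, a175], (M a48 (F (T t309 (T t551 (L l28 (L l245 (T t579 N)))))))⟩
def e0_63_106__219_42_172 : Ent 4 := ⟨[a0, a63, a106], [a219, a42, a176], (M a240 (F (T t4786 (L l192 (T t817 (L l190 (L l192 (T t4781 N))))))))⟩
def e0_63_106__219_42_173 : Ent 4 := ⟨[a0, a63, a106], [a219, a42, a177], (M a48 (F (T t309 (L l182 (L l417 (T t551 (L l28 (L l245 (T t579 N)))))))))⟩
def e0_63_106__219_42_174 : Ent 4 := ⟨[a0, a63, a106], [a219, a42, a178], (M a48 (F (T t309 (L l182 (T t551 (L l28 (L l245 (T t579 N))))))))⟩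
def e0_63_106__219_42_175 : Ent 4 := ⟨[a0, a63, a106], [a219, a42, a179], (M a48 (F (T t309 (L l182 (T t551 (L l28 (L l245 (T t579 N))))))))⟩
def e0_63_106__219_42_176 : Ent 4 := ⟨[a0, a63, a106], [a219, a42, a180], (M a48 (F (T t309 (L l186 (L l442 (T t551 (L l28 (L l245 (T t579 N)))))))))⟩
def e0_63_106__219_42_177 : Ent 4 := ⟨[a0, a63, a106], [a219, a42, a181], (M a48 (F (L l419 (T t309 (L l190 (L l199 (T t551 (L l28 (L l245 (L l419 (T t579 N)))))))))))⟩
def e0_63_106__219_42_178 : Ent 4 := ⟨[a0, a63, a106], [a219, a42, a182], (M a48 (F (T t309 (T t551 (L l28 (L l245 (T t579 N)))))))⟩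
def e0_63_106__219_42_179 : Ent 4 := ⟨[a0, a63, a106], [a219, a42, a183], (M a48 (F (T t309 (L l202 (T t551 (L l28 (L l245 (T t579 N))))))))⟩
def e0_63_106__219_42_180 : Ent 4 := ⟨[a0, a63, a106], [a219, a42, a184], (M a48 (F (T t309 (L l186 (T t551 (L l28 (L l245 (T t579 N))))))))⟩
def e0_63_106__219_42_181 : Ent 4 := ⟨[a0, a63, a106], [a219, a42, a185], (M a48 (F (T t309 (T t551 (L l28 (L l245 (T t579 N)))))))⟩
def e0_63_106__219_42_182 : Ent 4 := ⟨[a0, a63, a106], [a219, a42, a186], (M a48 (F (T t309 (L l190 (T t551 (L l28 (L l245 (T t579 N))))))))⟩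
def e0_63_106__219_42_183 : Ent 4 := ⟨[a0, a63, a106], [a219, a42, a187], (M a48 (F (T t309 (T t551 (L l28 (L l245 (T t579 N)))))))⟩
def e0_63_106__219_42_184 : Ent 4 := ⟨[a0, a63, a106], [a219, a42, a188], (M a48 (F (T t309 (L l186 (T t551 (L l28 (L l245 (T t579 N))))))))⟩
def e0_63_106__219_42_185 : Ent 4 := ⟨[a0, a63, a106], [a219, a42, a189], (M a48 (F (T t309 (L l217 (T t551 (L l28 (L l245 (T t579 N))))))))⟩
def e0_63_106__219_42_186 : Ent 4 := ⟨[a0, a63, a106], [a219, a42, a190], (M a48 (F (T t309 (T t551 (L l28 (L l245 (T t579 N)))))))⟩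
def e0_63_106__219_42_187 : Ent 4 := ⟨[a0, a63, a106], [a219, a42, a191], (M a48 (F (T t309 (L l190 (L l220 (T t551 (L l28 (L l245 (T t6498 (L l28 (L l245 (L l301 (T t6499 N)))))))))))))⟩
def e0_63_106__219_42_188 : Ent 4 := ⟨[a0, a63, a106], [a219, a42, a192], (M a240 (F (L l339 (T t4781 (L l236 (L l339 (T t6500 (L l296 (L l339 (T t6501 (L l28 (L l339 (T t6502 (L l339 (T t6503 (K a133 (M a90 (L l339 (F (T t4788 (T t6504 (K a74 (Fr a15 a165 l483 (V t6505)) (K a15 (Fr a74 a122 l130 (V t6506)) N))))))) (K a85 (M a12 (F (L l292 (T t2745 (L l272 (L l339 (T t6595 N))))))) (K a181 (M a12 (F (T t3358 (L l56 (L l272 (T t2415 (L l272 (T t6512 N)))))))) (K a74 (M a165 (L l339 (F (T t6492 (L l296 (T t6513 (L l54 (L l84 (L l318 (T t6514 (K a133 (Fr a15 a90 l483 (V t6515)) (K a15 (M a133 (F (T t6516 (L l28 (L l236 (L l318 (L l484 (T t6517 N)))))))) N)))))))))))) (K a90 (M a252 (F (L l334 (T t6518 (L l148 (L l489 (T t6519 (L l309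 (T t6675 N))))))))) (K a122 (M a12 (F (T t2747 (L l56 (L l272 (T t2415 (L l272 (T t6512 N)))))))) (K a15 (M a248 (L l339 (F (T t6520 (L l22 (L l240 (T t6521 (K a133 (M a74 (F (T t6522 (L l3 (L l56 (L l334 (T t6523 N))))))) (K a74 (M a133 (F (T t3821 (T t6520 (L l469 (L l484 (T t6524 N))))))) N))))))))) N))))))))))))))))))))))⟩
def e0_63_106__219_42_189 : Ent 4 := ⟨[a0, a63, a106], [a219, a42, a193], (M a48 (F (T t585 (L l515 (T t551 (L l28 (L l245 (T t579 N))))))))⟩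
def e0_63_106__219_42_190 : Ent 4 := ⟨[a0, a63, a106], [a219, a42, a194], (M a48 (F (T t2348 (L l28 (L l234 (L l245 (T t579 (T t551 N))))))))⟩
def e0_63_106__219_42_191 : Ent 4 := ⟨[a0, a63, a106], [a219, a42, a195], (M a48 (F (T t585 (L l273 (T t551 (L l28 (L l245 (T t579 N))))))))⟩
def e0_63_106__219_42_192 : Ent 4 := ⟨[a0, a63, a106], [a219, a42, a196], (M a48 (F (T t585 (L l495 (T t551 (L l28 (L l245 (T t579 N))))))))⟩
def e0_63_106__219_42_193 : Ent 4 := ⟨[a0, a63, a106], [a219, a42, a197], (M a240 (F (L l236 (T t4779 (L l491 (T t817 (T t4781 N)))))))⟩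
def e0_63_106__219_42_194 : Ent 4 := ⟨[a0, a63, a106], [a219, a42, a198], (M a48 (F (T t2348 (L l28 (L l234 (L l245 (T t579 (T t551 N))))))))⟩
def e0_63_106__219_42_195 : Ent 4 := ⟨[a0, a63, a106], [a219, a42, a199], (M a48 (F (T t309 (T t551 (L l28 (L l245 (T t579 N)))))))⟩
def e0_63_106__219_42_196 : Ent 4 := ⟨[a0, a63, a106], [a219, a42, a200], (M a48 (F (T t2348 (L l28 (L l230 (L l245 (T t579 (T t551 N))))))))⟩
def e0_63_106__219_42_197 : Ent 4 := ⟨[a0, a63, a106], [a219, a42, a201], (M a48 (F (T t2348 (L l28 (L l230 (L l245 (T t579 (T t551 N))))))))⟩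
def e0_63_106__219_42_198 : Ent 4 := ⟨[a0, a63, a106], [a219, a42, a202], (M a240 (F (L l236 (T t4786 (T t817 (L l318 (T t4781 N)))))))⟩
def e0_63_106__219_42_199 : Ent 4 := ⟨[a0, a63, a106], [a219, a42, a203], (M a48 (L l283 (F (T t2348 (L l28 (L l230 (L l245 (T t579 (T t551 (K a235 (M a251 (F (T t2348 (L l28 (L l230 (L l245 (T t579 (T t551 N)))))))) (K a251 (M a235 (F (T t2348 (L l28 (L l230 (L l245 (T t579 (T t551 N)))))))) N)))))))))))⟩
def e0_63_106__219_42_200 : Ent 4 := ⟨[a0, a63, a106], [a219, a42, a204], (M a48 (F (T t585 (L l298 (T t551 (L l28 (L l245 (T t579 N))))))))⟩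
def e0_63_106__219_42_201 : Ent 4 := ⟨[a0, a63, a106], [a219, a42, a205], (M a48 (F (T t309 (T t551 (L l28 (L l245 (T t579 N)))))))⟩
def e0_63_106__219_42_202 : Ent 4 := ⟨[a0, a63, a106], [a219, a42, a206], (M a48 (F (T t2348 (L l28 (L l234 (L l245 (T t579 (T t551 N))))))))⟩
def e0_63_106__219_42_203 : Ent 4 := ⟨[a0, a63, a106], [a219, a42, a207], (M a243 (F (T t6529 (L l511 (T t6530 (T t6531 N))))))⟩
def e0_63_106__219_42_204 : Ent 4 := ⟨[a0, a63, a106], [a219, a42, a208], (M a12 (F (L l268 (T t2304 (L l375 (T t2305 (L l56 (T t2415 N))))))))⟩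
def e0_63_106__219_42_205 : Ent 4 := ⟨[a0, a63, a106], [a219, a42, a209], (M a48 (F (T t585 (L l371 (T t551 (L l28 (L l245 (T t579 N))))))))⟩
def e0_63_106__219_42_206 : Ent 4 := ⟨[a0, a63, a106], [a219, a42, a210], (M a48 (F (T t309 (L l273 (T t551 (L l28 (L l245 (T t579 N))))))))⟩
def e0_63_106__219_42_207 : Ent 4 := ⟨[a0, a63, a106], [a219, a42, a211], (M a240 (L l245 (F (T t4786 (L l344 (T t817 (T t4781 (K a215 (M a223 (F (T t6965 (L l344 (T t817 (T t4781 N)))))) (K a223 (M a215 (F (T t6965 (L l344 (L l368 (T t817 (L l361 (T t4781 N)))))))) N)))))))))⟩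
def e0_63_106__219_42_208 : Ent 4 := ⟨[a0, a63, a106], [a219, a42, a212], (M a48 (F (T t585 (L l351 (T t551 (L l28 (L l245 (T t579 N))))))))⟩
def e0_63_106__219_42_209 : Ent 4 := ⟨[a0, a63, a106], [a219, a42, a213], (M a48 (F (T t585 (L l347 (T t551 (L l28 (L l245 (L l246 (T t579 N)))))))))⟩
def e0_63_106__219_42_210 : Ent 4 := ⟨[a0, a63, a106], [a219, a42, a214], (M a48 (F (T t309 (T t551 (L l28 (L l245 (T t579 N)))))))⟩
def e0_63_106__219_42_211 : Ent 4 := ⟨[a0, a63, a106], [a219, a42, a215], (M a240 (L l245 (F (T t4779 (T t817 (T t4781 (K a211 (M a223 (F (T t6965 (L l344 (T t817 (T t4781 N)))))) (K a223 (M a211 (F (T t6965 (L l368 (T t817 (L l361 (T t4781 N))))))) N))))))))⟩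
def e0_63_106__219_42_212 : Ent 4 := ⟨[a0, a63, a106], [a219, a42, a216], (M a48 (L l240 (F (T t309 (L l298 (T t551 (L l28 (L l245 (T t579 (K a217 (M a218 (F (T t3405 (L l298 (T t551 (L l28 (L l245 (T t579 N)))))))) (K a218 (M a217 (F (T t2348 (L l28 (L l245 (L l246 (L l282 (T t579 (L l298 (L l303 (T t551 N))))))))))) N)))))))))))⟩
def e0_63_106__219_42_213 : Ent 4 := ⟨[a0, a63, a106], [a219, a42, a217], (M a48 (L l240 (F (T t309 (T t551 (L l28 (L l245 (T t579 (K a216 (M a218 (F (T t3405 (L l298 (T t551 (L l28 (L l245 (T t579 N)))))))) (K a218 (M a216 (F (T t2348 (L l28 (L l245 (L l246 (L l282 (T t579 (L l303 (T t551 N)))))))))) N))))))))))⟩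
def e0_63_106__219_42_214 : Ent 4 := ⟨[a0, a63, a106], [a219, a42, a218], (M a48 (L l240 (F (T t2348 (L l28 (L l245 (L l246 (L l282 (T t579 (L l303 (T t551 (K a216 (M a217 (F (T t2348 (L l28 (L l245 (L l246 (L l282 (T t579 (L l298 (L l303 (T t551 N))))))))))) (K a217 (M a216 (F (T t2348 (L l28 (L l245 (L l246 (L l282 (T t579 (L l303 (T t551 N)))))))))) N)))))))))))))⟩
def e0_63_106__219_42_215 : Ent 4 := ⟨[a0, a63, a106], [a219, a42, a220], (M a48 (F (T t309 (T t551 (L l28 (L l241 (L l245 (T t579 N))))))))⟩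
def e0_63_106__219_42_216 : Ent 4 := ⟨[a0, a63, a106], [a219, a42, a221], (M a48 (F (T t309 (T t551 (L l28 (L l241 (L l245 (T t579 N))))))))⟩
def e0_63_106__219_42_217 : Ent 4 := ⟨[a0, a63, a106], [a219, a42, a222], (M a48 (F (T t309 (T t551 (L l28 (L l241 (L l245 (T t579 N))))))))⟩
def e0_63_106__219_42_218 : Ent 4 := ⟨[a0, a63, a106], [a219, a42, a223], (M a240 (L l245 (F (T t4786 (L l368 (T t817 (L l361 (T t4781 (K a211 (M a215 (F (T t6965 (L l344 (L l368 (T t817 (L l361 (T t4781 N)))))))) (K a215 (M a211 (F (T t6965 (L l368 (T t817 (L l361 (T t4781 N))))))) N))))))))))⟩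
def e0_63_106__219_42_219 : Ent 4 := ⟨[a0, a63, a106], [a219, a42, a224], (M a48 (F (T t585 (L l268 (L l376 (T t551 (L l28 (L l245 (L l376 (T t579 N))))))))))⟩
def e0_63_106__219_42_220 : Ent 4 := ⟨[a0, a63, a106], [a219, a42, a225], (M a48 (F (T t309 (L l273 (T t551 (L l28 (L l245 (T t579 N))))))))⟩
def e0_63_106__219_42_221 : Ent 4 := ⟨[a0, a63, a106], [a219, a42, a226], (M a48 (F (T t585 (T t551 (L l28 (L l245 (T t579 N)))))))⟩
def e0_63_106__219_42_222 : Ent 4 := ⟨[a0, a63, a106], [a219, a42, a227], (M a48 (F (T t309 (T t551 (L l28 (L l245 (L l380 (T t579 N))))))))⟩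
def e0_63_106__219_42_223 : Ent 4 := ⟨[a0, a63, a106], [a219, a42, a228], (M a48 (F (T t309 (L l298 (T t551 (L l28 (L l245 (T t579 N))))))))⟩
def e0_63_106__219_42_224 : Ent 4 := ⟨[a0, a63, a106], [a219, a42, a229], (M a48 (F (T t309 (L l28 (T t2289 (L l28 (L l245 (T t579 N))))))))⟩
def e0_63_106__219_42_225 : Ent 4 := ⟨[a0, a63, a106], [a219, a42, a230], (M a48 (F (T t309 (T t551 (L l28 (L l245 (T t579 N)))))))⟩
def e0_63_106__219_42_226 : Ent 4 := ⟨[a0, a63, a106], [a219, a42, a231], (M a243 (F (T t8255 (T t6530 (T t6531 N)))))⟩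
def e0_63_106__219_42_227 : Ent 4 := ⟨[a0, a63, a106], [a219, a42, a232], (M a48 (F (T t585 (T t551 (L l28 (L l245 (T t579 N)))))))⟩
def e0_63_106__219_42_228 : Ent 4 := ⟨[a0, a63, a106], [a219, a42, a233], (M a48 (F (T t309 (T t551 (L l28 (L l245 (T t579 N)))))))⟩
def e0_63_106__219_42_229 : Ent 4 := ⟨[a0, a63, a106], [a219, a42, a234], (M a48 (F (T t2348 (L l28 (L l245 (L l282 (T t579 (T t551 N))))))))⟩
def e0_63_106__219_42_230 : Ent 4 := ⟨[a0, a63, a106], [a219, a42, a235], (M a48 (L l283 (F (T t309 (T t551 (L l28 (L l245 (T t579 (K a203 (M a251 (F (T t2348 (L l28 (L l230 (L l245 (T t579 (T t551 N)))))))) (K a251 (M a203 (F (T t3405 (T t551 (L l28 (L l245 (T t579 N))))))) N))))))))))⟩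
def e0_63_106__219_42_231 : Ent 4 := ⟨[a0, a63, a106], [a219, a42, a236], (M a48 (F (T t309 (T t551 (L l28 (L l245 (L l400 (T t579 N))))))))⟩
def e0_63_106__219_42_232 : Ent 4 := ⟨[a0, a63, a106], [a219, a42, a237], (M a48 (F (T t309 (T t551 (L l28 (L l245 (T t579 N)))))))⟩
def e0_63_106__219_42_233 : Ent 4 := ⟨[a0, a63, a106], [a219, a42, a238], (M a48 (F (T t309 (T t551 (L l28 (L l245 (T t579 N)))))))⟩
def e0_63_106__219_42_234 : Ent 4 := ⟨[a0, a63, a106], [a219, a42, a239], (M a48 (F (T t309 (T t551 (L l28 (L l245 (L l289 (L l404 (T t579 N)))))))))⟩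
def e0_63_106__219_42_235 : Ent 4 := ⟨[a0, a63, a106], [a219, a42, a240], (M a12 (F (T t4425 (L l56 (T t2415 (L l298 (T t2305 N)))))))⟩
def e0_63_106__219_42_236 : Ent 4 := ⟨[a0, a63, a106], [a219, a42, a241], (M a48 (F (T t309 (L l258 (T t551 (L l28 (L l245 (T t579 N))))))))⟩
def e0_63_106__219_42_237 : Ent 4 := ⟨[a0, a63, a106], [a219, a42, a242], (M a48 (F (T t309 (L l258 (T t551 (L l28 (L l245 (T t579 N))))))))⟩
def e0_63_106__219_42_238 : Ent 4 := ⟨[a0, a63, a106], [a219, a42, a243], (M a207 (F (T t6739 (L l481 (T t6701 (T t6702 N))))))⟩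
def e0_63_106__219_42_239 : Ent 4 := ⟨[a0, a63, a106], [a219, a42, a244], (M a48 (F (T t309 (L l262 (T t551 (L l28 (L l245 (T t579 N))))))))⟩
def e0_63_106__219_42_240 : Ent 4 := ⟨[a0, a63, a106], [a219, a42, a245], (M a48 (F (L l419 (T t309 (L l266 (T t551 (L l28 (L l245 (L l419 (T t579 N))))))))))⟩
def e0_63_106__219_42_241 : Ent 4 := ⟨[a0, a63, a106], [a219, a42, a246], (M a48 (F (T t309 (T t551 (L l28 (L l245 (T t579 N)))))))⟩
def e0_63_106__219_42_242 : Ent 4 := ⟨[a0, a63, a106], [a219, a42, a247], (M a48 (F (T t309 (T t551 (L l28 (L l245 (T t579 N)))))))⟩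
def e0_63_106__219_42_243 : Ent 4 := ⟨[a0, a63, a106], [a219, a42, a248], (M a48 (F (T t309 (L l262 (T t551 (L l28 (L l245 (T t579 N))))))))⟩
def e0_63_106__219_42_244 : Ent 4 := ⟨[a0, a63, a106], [a219, a42, a249], (M a48 (F (T t309 (T t551 (L l28 (L l245 (T t579 N)))))))⟩
def e0_63_106__219_42_245 : Ent 4 := ⟨[a0, a63, a106], [a219, a42, a250], (M a48 (F (T t2348 (L l28 (L l245 (L l282 (T t579 (L l266 (T t551 N)))))))))⟩
def e0_63_106__219_42_246 : Ent 4 := ⟨[a0, a63, a106], [a219, a42, a251], (M a48 (L l283 (F (T t309 (T t551 (L l28 (L l245 (T t579 (K a203 (M a235 (F (T t2348 (L l28 (L l230 (L l245 (T t579 (T t551 N)))))))) (K a235 (M a203 (F (T t3405 (T t551 (L l28 (L l245 (T t579 N))))))) N))))))))))⟩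
def e0_63_106__219_42_247 : Ent 4 := ⟨[a0, a63, a106], [a219, a42, a252], (M a48 (F (T t585 (L l262 (T t551 (L l28 (L l245 (T t579 N))))))))⟩
def e0_63_106__219_42_248 : Ent 4 := ⟨[a0, a63, a106], [a219, a42, a253], (M a48 (F (T t309 (T t551 (L l28 (L l245 (T t579 N)))))))⟩
def e0_63_106__219_42_249 : Ent 4 := ⟨[a0, a63, a106], [a219, a42, a254], (M a48 (F (T t309 (T t551 (L l28 (L l245 (T t579 N)))))))⟩
def e0_63_106__219_42_250 : Ent 4 := ⟨[a0, a63, a106], [a219, a42, a255], (M a48 (F (T t585 (L l266 (T t551 (L l28 (L l469 (T t6526 (L l28 (L l245 (L l289 (T t6527 N))))))))))))⟩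
def b0_63_106__219_42 : Blk 4 := ⟨[0, 63, 106], [219, 42], [1, 2, 3, 4, 5, 6, 7, 8, 9, 10, 11, 12, 13, 14, 15, 16, 17, 18, 19, 20, 21, 22, 23, 24, 25, 26, 27, 28, 29, 30, 31, 32, 33, 34, 35, 36, 37, 38, 39, 40, 41, 43, 44, 45, 46, 47, 48, 49, 50, 51, 52, 53, 54, 55, 56, 57, 58, 59, 60, 61, 62, 64, 65, 66, 67, 68, 69, 70, 71, 72, 73, 74, 75, 76, 77, 78, 79, 80, 81, 82, 83, 84, 85, 86, 87, 88, 89, 90, 91, 92, 93, 94, 95, 96, 97, 98, 99, 100, 101, 102, 103, 104, 105, 107, 108, 109, 110, 111, 112, 113, 114, 115, 116, 117, 118, 119, 120, 121, 122, 123, 124, 125, 126, 127, 128, 129, 130, 131, 132, 133, 134, 135, 136, 137, 138, 139, 140, 141, 142, 143, 144, 145, 146, 147, 148, 149, 150, 151, 152, 153, 154, 155, 156, 157, 158, 159, 160, 161, 162, 163, 164, 165, 166, 167, 168, 169, 170, 171, 172, 173, 174, 175, 176, 177, 178, 179, 180, 181, 182, 183, 184, 185, 186, 187, 188, 189, 190, 191, 192, 193, 194, 195, 196, 197, 198,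 199, 200, 201, 202, 203, 204, 205, 206, 207, 208, 209, 210, 211, 212, 213, 214, 215, 216, 217, 218, 220, 221, 222, 223, 224, 225, 226, 227, 228, 229, 230, 231, 232, 233, 234, 235, 236, 237, 238, 239, 240, 241, 242, 243, 244, 245, 246, 247, 248, 249, 250, 251, 252, 253, 254, 255], [e0_63_106__219_42_0, e0_63_106__219_42_1, e0_63_106__219_42_2, e0_63_106__219_42_3, e0_63_106__219_42_4, e0_63_106__219_42_5, e0_63_106__219_42_6, e0_63_106__219_42_7, e0_63_106__219_42_8, e0_63_106__219_42_9, e0_63_106__219_42_10, e0_63_106__219_42_11, e0_63_106__219_42_12, e0_63_106__219_42_13, e0_63_106__219_42_14, e0_63_106__219_42_15, e0_63_106__219_42_16, e0_63_106__219_42_17, e0_63_106__219_42_18, e0_63_106__219_42_19, e0_63_106__219_42_20, e0_63_106__219_42_21, e0_63_106__219_42_22, e0_63_106__219_42_23, e0_63_106__219_42_24, e0_63_106__219_42_25, e0_63_106__219_42_26, e0_63_106__219_42_27, e0_63_106__219_42_28, e0_63_106__219_42_29,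 e0_63_106__219_42_30, e0_63_106__219_42_31, e0_63_106__219_42_32, e0_63_106__219_42_33, e0_63_106__219_42_34, e0_63_106__219_42_35, e0_63_106__219_42_36, e0_63_106__219_42_37, e0_63_106__219_42_38, e0_63_106__219_42_39, e0_63_106__219_42_40, e0_63_106__219_42_41, e0_63_106__219_42_42, e0_63_106__219_42_43, e0_63_106__219_42_44, e0_63_106__219_42_45, e0_63_106__219_42_46, e0_63_106__219_42_47, e0_63_106__219_42_48, e0_63_106__219_42_49, e0_63_106__219_42_50, e0_63_106__219_42_51, e0_63_106__219_42_52, e0_63_106__219_42_53, e0_63_106__219_42_54, e0_63_106__219_42_55, e0_63_106__219_42_56, e0_63_106__219_42_57, e0_63_106__219_42_58, e0_63_106__219_42_59, e0_63_106__219_42_60, e0_63_106__219_42_61, e0_63_106__219_42_62, e0_63_106__219_42_63, e0_63_106__219_42_64, e0_63_106__219_42_65, e0_63_106__219_42_66, e0_63_106__219_42_67, e0_63_106__219_42_68, e0_63_106__219_42_69, e0_63_106__219_42_70, e0_63_106__219_42_71, e0_63_106__219_42_72,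 e0_63_106__219_42_73, e0_63_106__219_42_74, e0_63_106__219_42_75, e0_63_106__219_42_76, e0_63_106__219_42_77, e0_63_106__219_42_78, e0_63_106__219_42_79, e0_63_106__219_42_80, e0_63_106__219_42_81, e0_63_106__219_42_82, e0_63_106__219_42_83, e0_63_106__219_42_84, e0_63_106__219_42_85, e0_63_106__219_42_86, e0_63_106__219_42_87, e0_63_106__219_42_88, e0_63_106__219_42_89, e0_63_106__219_42_90, e0_63_106__219_42_91, e0_63_106__219_42_92, e0_63_106__219_42_93, e0_63_106__219_42_94, e0_63_106__219_42_95, e0_63_106__219_42_96, e0_63_106__219_42_97, e0_63_106__219_42_98, e0_63_106__219_42_99, e0_63_106__219_42_100, e0_63_106__219_42_101, e0_63_106__219_42_102, e0_63_106__219_42_103, e0_63_106__219_42_104, e0_63_106__219_42_105, e0_63_106__219_42_106, e0_63_106__219_42_107, e0_63_106__219_42_108, e0_63_106__219_42_109, e0_63_106__219_42_110, e0_63_106__219_42_111, e0_63_106__219_42_112, e0_63_106__219_42_113, e0_63_106__219_42_114,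 e0_63_106__219_42_115, e0_63_106__219_42_116, e0_63_106__219_42_117, e0_63_106__219_42_118, e0_63_106__219_42_119, e0_63_106__219_42_120, e0_63_106__219_42_121, e0_63_106__219_42_122, e0_63_106__219_42_123, e0_63_106__219_42_124, e0_63_106__219_42_125, e0_63_106__219_42_126, e0_63_106__219_42_127, e0_63_106__219_42_128, e0_63_106__219_42_129, e0_63_106__219_42_130, e0_63_106__219_42_131, e0_63_106__219_42_132, e0_63_106__219_42_133, e0_63_106__219_42_134, e0_63_106__219_42_135, e0_63_106__219_42_136, e0_63_106__219_42_137, e0_63_106__219_42_138, e0_63_106__219_42_139, e0_63_106__219_42_140, e0_63_106__219_42_141, e0_63_106__219_42_142, e0_63_106__219_42_143, e0_63_106__219_42_144, e0_63_106__219_42_145, e0_63_106__219_42_146, e0_63_106__219_42_147, e0_63_106__219_42_148, e0_63_106__219_42_149, e0_63_106__219_42_150, e0_63_106__219_42_151, e0_63_106__219_42_152, e0_63_106__219_42_153, e0_63_106__219_42_154, e0_63_106__219_42_155,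 e0_63_106__219_42_156, e0_63_106__219_42_157, e0_63_106__219_42_158, e0_63_106__219_42_159, e0_63_106__219_42_160, e0_63_106__219_42_161, e0_63_106__219_42_162, e0_63_106__219_42_163, e0_63_106__219_42_164, e0_63_106__219_42_165, e0_63_106__219_42_166, e0_63_106__219_42_167, e0_63_106__219_42_168, e0_63_106__219_42_169, e0_63_106__219_42_170, e0_63_106__219_42_171, e0_63_106__219_42_172, e0_63_106__219_42_173, e0_63_106__219_42_174, e0_63_106__219_42_175, e0_63_106__219_42_176, e0_63_106__219_42_177, e0_63_106__219_42_178, e0_63_106__219_42_179, e0_63_106__219_42_180, e0_63_106__219_42_181, e0_63_106__219_42_182, e0_63_106__219_42_183, e0_63_106__219_42_184, e0_63_106__219_42_185, e0_63_106__219_42_186, e0_63_106__219_42_187, e0_63_106__219_42_188, e0_63_106__219_42_189, e0_63_106__219_42_190, e0_63_106__219_42_191, e0_63_106__219_42_192, e0_63_106__219_42_193, e0_63_106__219_42_194, e0_63_106__219_42_195, e0_63_106__219_42_196,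 e0_63_106__219_42_197, e0_63_106__219_42_198, e0_63_106__219_42_199, e0_63_106__219_42_200, e0_63_106__219_42_201, e0_63_106__219_42_202, e0_63_106__219_42_203, e0_63_106__219_42_204, e0_63_106__219_42_205, e0_63_106__219_42_206, e0_63_106__219_42_207, e0_63_106__219_42_208, e0_63_106__219_42_209, e0_63_106__219_42_210, e0_63_106__219_42_211, e0_63_106__219_42_212, e0_63_106__219_42_213, e0_63_106__219_42_214, e0_63_106__219_42_215, e0_63_106__219_42_216, e0_63_106__219_42_217, e0_63_106__219_42_218, e0_63_106__219_42_219, e0_63_106__219_42_220, e0_63_106__219_42_221, e0_63_106__219_42_222, e0_63_106__219_42_223, e0_63_106__219_42_224, e0_63_106__219_42_225, e0_63_106__219_42_226, e0_63_106__219_42_227, e0_63_106__219_42_228, e0_63_106__219_42_229, e0_63_106__219_42_230, e0_63_106__219_42_231, e0_63_106__219_42_232, e0_63_106__219_42_233, e0_63_106__219_42_234, e0_63_106__219_42_235, e0_63_106__219_42_236, e0_63_106__219_42_237,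 e0_63_106__219_42_238, e0_63_106__219_42_239, e0_63_106__219_42_240, e0_63_106__219_42_241, e0_63_106__219_42_242, e0_63_106__219_42_243, e0_63_106__219_42_244, e0_63_106__219_42_245, e0_63_106__219_42_246, e0_63_106__219_42_247, e0_63_106__219_42_248, e0_63_106__219_42_249, e0_63_106__219_42_250], by decide +kernel, by decide +kernel⟩

end Pool.Agent.Lib_TTT.K4
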