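import Pool.Agent.Lib_TTT.K4Base
import Pool.Agent.Lib_TTT.K4T00
import Pool.Agent.Lib_TTT.K4T01
import Pool.Agent.Lib_TTT.K4T02
import Pool.Agent.Lib_TTT.K4T03
import Pool.Agent.Lib_TTT.K4T04
import Pool.Agent.Lib_TTT.K4T05
import Pool.Agent.Lib_TTT.K4T06
import Pool.Agent.Lib_TTT.K4T07
import Pool.Agent.Lib_TTT.K4T08
import Pool.Agent.Lib_TTT.K4T09
import Pool.Agent.Lib_TTT.K4T10

/-! Certificates in `4^4`. -/

set_option autoImplicit false
set_option maxRecDepth 200000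

namespace Pool.Agent.Lib_TTT.K4

open Lib_TTT AC DC

def e0_63_106__223_42_0 : Ent 4 := ⟨[a0, a63, a106], [a223, a42, a1], (M a240 (F (T t4786 (L l368 (T t817 (L l361 (T t4781 N)))))))⟩
def e0_63_106__223_42_1 : Ent 4 := ⟨[a0, a63, a106], [a223, a42, a2], (M a240 (L l66 (F (T t4786 (L l368 (T t817 (L l361 (T t4781 (K a22 (M a62 (F (T t4786 (L l22 (L l245 (L l306 (T t5926 N))))))) (K a62 (M a22 (F (T t6965 (L l368 (T t817 (L l361 (T t4781 N))))))) N))))))))))⟩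
def e0_63_106__223_42_2 : Ent 4 := ⟨[a0, a63, a106], [a223, a42, a3], (M a240 (F (L l309 (T t4786 (L l45 (L l368 (T t817 (L l361 (T t4781 N)))))))))⟩
def e0_63_106__223_42_3 : Ent 4 := ⟨[a0, a63, a106], [a223, a42, a5], (M a240 (F (T t6965 (L l368 (T t817 (L l361 (T t4781 N)))))))⟩
def e0_63_106__223_42_4 : Ent 4 := ⟨[a0, a63, a106], [a223, a42, a6], (M a240 (F (T t4786 (L l368 (T t817 (L l361 (T t4781 N)))))))⟩
def e0_63_106__223_42_5 : Ent 4 := ⟨[a0, a63, a106], [a223, a42, a7], (M a240 (F (L l246 (T t4779 (L l368 (T t817 (L l361 (T t4781 N))))))))⟩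
def e0_63_106__223_42_6 : Ent 4 := ⟨[a0, a63, a106], [a223, a42, a10], (M a240 (L l54 (F (T t4786 (L l368 (T t817 (L l318 (L l361 (T t4781 (K a26 (M a58 (F (T t4786 (T t7218 (L l289 (L l462 (T t7219 N))))))) (K a58 (M a26 (F (L l318 (T t6965 (L l368 (T t817 (L l318 (L l361 (L l462 (T t6482 N)))))))))) N)))))))))))⟩
def e0_63_106__223_42_7 : Ent 4 := ⟨[a0, a63, a106], [a223, a42, a11], (M a240 (F (T t4786 (L l368 (T t817 (L l321 (L l361 (T t4781 N))))))))⟩
def e0_63_106__223_42_8 : Ent 4 := ⟨[a0, a63, a106], [a223, a42, a15], (M a12 (F (T t2419 (L l327 (T t2305 (L l56 (T t2415 N)))))))⟩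
def e0_63_106__223_42_9 : Ent 4 := ⟨[a0, a63, a106], [a223, a42, a16], (M a240 (L l368 (F (T t4786 (L l340 (T t4780 (L l361 (T t4781 (K a85 (M a154 (F (T t4786 (L l123 (T t8256 (L l18 (L l54 (L l361 (T t8257 N))))))))) (K a154 (M a85 (F (T t3095 (L l28 (L l227 (T t6587 N)))))) N))))))))))⟩
def e0_63_106__223_42_10 : Ent 4 := ⟨[a0, a63, a106], [a223, a42, a17], (M a240 (F (T t4786 (L l10 (L l368 (T t817 (L l361 (T t4781 N))))))))⟩
def e0_63_106__223_42_11 : Ent 4 := ⟨[a0, a63, a106], [a223, a42, a18], (M a240 (F (T t4786 (L l10 (L l45 (L l368 (T t817 (L l361 (T t4781 N)))))))))⟩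
def e0_63_106__223_42_12 : Ent 4 := ⟨[a0, a63, a106], [a223, a42, a19], (M a240 (L l367 (F (T t4786 (L l10 (L l368 (T t817 (L l361 (T t4781 (K a87 (M a155 (F (T t6965 (L l10 (L l368 (T t817 (L l93 (L l361 (T t4781 N))))))))) (K a155 (M a87 (F (T t6965 (L l10 (L l368 (T t817 (L l361 (T t4781 N)))))))) N)))))))))))⟩
def e0_63_106__223_42_13 : Ent 4 := ⟨[a0, a63, a106], [a223, a42, a21], (M a240 (F (T t4786 (L l347 (T t4780 (L l361 (T t4781 N)))))))⟩
def e0_63_106__223_42_14 : Ent 4 := ⟨[a0, a63, a106], [a223, a42, a22], (M a240 (L l66 (F (T t4786 (L l368 (T t817 (L l361 (T t4781 (K a2 (M a62 (F (T t4786 (L l22 (L l245 (L l306 (T t5926 N))))))) (K a62 (M a2 (F (T t6965 (T t3515 N)))) N))))))))))⟩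
def e0_63_106__223_42_15 : Ent 4 := ⟨[a0, a63, a106], [a223, a42, a23], (M a240 (F (T t4786 (L l351 (L l368 (T t817 (L l361 (T t4781 N))))))))⟩
def e0_63_106__223_42_16 : Ent 4 := ⟨[a0, a63, a106], [a223, a42, a26], (M a240 (L l54 (F (T t4786 (T t6606 (L l361 (T t4781 (K a10 (M a58 (F (T t4786 (T t7218 (L l289 (L l462 (T t7219 N))))))) (K a58 (M a10 (F (T t6609 (T t6606 (L l289 (L l426 (T t7878 N))))))) N)))))))))⟩
def e0_63_106__223_42_17 : Ent 4 := ⟨[a0, a63, a106], [a223, a42, a27], (M a240 (F (T t4786 (L l368 (T t817 (L l361 (T t4781 N)))))))⟩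
def e0_63_106__223_42_18 : Ent 4 := ⟨[a0, a63, a106], [a223, a42, a31], (M a12 (L l361 (F (L l13 (T t2304 (L l375 (T t2305 (L l13 (L l56 (T t2415 (K a95 (M a159 (F (T t7164 (L l13 (L l56 (T t2415 N)))))) (K a159 (M a95 (F (L l26 (T t3885 (L l170 (L l375 (T t2305 (L l13 (L l56 (T t2415 N)))))))))) N))))))))))))⟩
def e0_63_106__223_42_19 : Ent 4 := ⟨[a0, a63, a106], [a223, a42, a32], (M a240 (L l28 (F (T t6609 (L l376 (T t6588 (L l361 (L l376 (T t4781 (K a37 (M a47 (F (T t6603 (T t7156 (L l361 (T t6604 N)))))) (K a47 (M a37 (F (L l376 (T t6588 (L l54 (T t6699 (L l361 (L l376 (T t4781 N))))))))) N)))))))))))⟩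
def e0_63_106__223_42_20 : Ent 4 := ⟨[a0, a63, a106], [a223, a42, a33], (M a240 (F (T t4786 (L l45 (L l368 (T t817 (L l361 (T t4781 N))))))))⟩
def e0_63_106__223_42_21 : Ent 4 := ⟨[a0, a63, a106], [a223, a42, a34], (M a240 (L l26 (F (T t4786 (L l368 (T t817 (L l361 (T t4781 (K a38 (M a46 (F (T t6965 (L l56 (L l378 (T t4030 N)))))) (K a46 (M a38 (F (T t6965 (L l368 (T t817 (L l361 (T t4781 N))))))) N))))))))))⟩
def e0_63_106__223_42_22 : Ent 4 := ⟨[a0, a63, a106], [a223, a42, a35], (M a240 (F (T t6609 (L l368 (L l381 (T t817 (L l361 (T t4781 N))))))))⟩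
def e0_63_106__223_42_23 : Ent 4 := ⟨[a0, a63, a106], [a223, a42, a37], (M a240 (L l28 (F (T t4786 (T t6606 (L l361 (T t4781 (K a32 (M a47 (F (T t6603 (T t7156 (L l361 (T t6604 N)))))) (K a47 (M a32 (F (T t6606 (L l47 (L l289 (L l368 (T t7228 (L l361 (T t8085 N))))))))) N)))))))))⟩
def e0_63_106__223_42_24 : Ent 4 := ⟨[a0, a63, a106], [a223, a42, a38], (M a240 (L l26 (F (T t4786 (L l368 (T t817 (L l361 (T t4781 (K a34 (M a46 (F (T t6965 (L l56 (L l378 (T t4030 N)))))) (K a46 (M a34 (F (T t4780 (T t7231 N)))) N))))))))))⟩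
def e0_63_106__223_42_25 : Ent 4 := ⟨[a0, a63, a106], [a223, a42, a39], (M a240 (F (T t4786 (L l368 (T t817 (L l361 (T t4781 N)))))))⟩
def e0_63_106__223_42_26 : Ent 4 := ⟨[a0, a63, a106], [a223, a42, a43], (M a240 (L l22 (F (T t4786 (L l368 (T t817 (L l361 (T t4781 (K a40 (M a41 (F (T t6965 (L l368 (T t817 (L l361 (T t4781 N))))))) (K a41 (M a40 (F (T t4780 (T t7233 N)))) N))))))))))⟩
def e0_63_106__223_42_27 : Ent 4 := ⟨[a0, a63, a106], [a223, a42, a47], (M a12 (L l28 (F (T t2304 (T t2305 (L l56 (T t2415 (K a32 (M a37 (F (T t2416 (L l56 (T t2415 (T t2305 N)))))) (K a37 (M a32 (F (T t2304 (L l51 (L l56 (L l368 (T t682 N))))))) N)))))))))⟩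
def e0_63_106__223_42_28 : Ent 4 := ⟨[a0, a63, a106], [a223, a42, a48], (M a12 (F (T t2419 (L l508 (T t2305 (L l56 (T t2415 N)))))))⟩
def e0_63_106__223_42_29 : Ent 4 := ⟨[a0, a63, a106], [a223, a42, a49], (M a240 (F (T t4786 (L l30 (L l368 (T t817 (L l361 (T t4781 N))))))))⟩
def e0_63_106__223_42_30 : Ent 4 := ⟨[a0, a63, a106], [a223, a42, a50], (M a240 (F (T t4786 (L l30 (L l368 (T t817 (L l361 (T t4781 N))))))))⟩
def e0_63_106__223_42_31 : Ent 4 := ⟨[a0, a63, a106], [a223, a42, a51], (M a240 (F (L l489 (T t4786 (L l30 (L l368 (T t817 (L l361 (T t4781 N)))))))))⟩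
def e0_63_106__223_42_32 : Ent 4 := ⟨[a0, a63, a106], [a223, a42, a53], (M a240 (F (T t4786 (L l368 (L l491 (T t817 (L l361 (L l419 (T t4781 N)))))))))⟩
def e0_63_106__223_42_33 : Ent 4 := ⟨[a0, a63, a106], [a223, a42, a54], (M a240 (F (T t4786 (L l368 (T t817 (L l361 (T t4781 N)))))))⟩
def e0_63_106__223_42_34 : Ent 4 := ⟨[a0, a63, a106], [a223, a42, a55], (M a240 (F (T t4786 (L l368 (L l495 (T t817 (L l361 (L l423 (T t4781 N)))))))))⟩
def e0_63_106__223_42_35 : Ent 4 := ⟨[a0, a63, a106], [a223, a42, a58], (M a240 (L l54 (F (T t6609 (L l368 (T t817 (L l361 (T t4781 (K a10 (M a26 (F (L l318 (T t6965 (L l368 (T t817 (L l318 (L l361 (L l462 (T t6482 N)))))))))) (K a26 (M a10 (F (T t6609 (T t6606 (L l289 (L l426 (T t7878 N))))))) N))))))))))⟩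
def e0_63_106__223_42_36 : Ent 4 := ⟨[a0, a63, a106], [a223, a42, a59], (M a240 (L l56 (F (T t6609 (L l368 (T t817 (L l361 (T t4781 (K a8 (M a25 (F (T t6965 (L l368 (T t817 (L l361 (T t4781 N))))))) (K a25 (M a8 (F (T t6965 (T t7240 N)))) N))))))))))⟩
def e0_63_106__223_42_37 : Ent 4 := ⟨[a0, a63, a106], [a223, a42, a64], (M a48 (F (T t585 (L l54 (L l289 (L l368 (T t8258 (L l289 (T t578 (L l84 (T t7288 (L l84 (T t8259 (L l54 (L l116 (L l289 (L l361 (T t8260 (K a149 (Fr a58 a53 l38 (Fr a154 a202 l498 (Fr a101 a207 l512 (Fr a32 a16 l40 (Fr a170 a239 l404 (Fr a255 a85 l476 (V t8279))))))) (K a53 (Fr a192 a149 l519 (Fr a96 a144 l484 (Fr a101 a111 l104 (Fr a32 a16 l40 (Fr a170 a239 l404 (Fr a255 a85 l476 (Fr a154 a207 l512 (V t8279)))))))) (K a202 (Fr a149 a192 l519 (Fr a53 a58 l38 (Fr a101 a197 l491 (Fr a207 a154 l512 (V t7339))))) (K a58 (Fr a192 a149 l519 (Fr a96 a144 l484 (Fr a101 a111 l104 (Fr a32 a16 l40 (Fr a170 a239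 l404 (Fr a255 a85 l476 (Fr a154 a207 l512 (V t8279)))))))) (K a207 (Fr a192 a149 l519 (Fr a96 a144 l484 (Fr a101 a111 l104 (Fr a32 a16 l40 (V t6459))))) N)))))))))))))))))))))))⟩
def e0_63_106__223_42_38 : Ent 4 := ⟨[a0, a63, a106], [a223, a42, a65], (M a240 (F (T t4786 (L l368 (T t817 (L l76 (L l361 (T t4781 N))))))))⟩
def e0_63_106__223_42_39 : Ent 4 := ⟨[a0, a63, a106], [a223, a42, a66], (M a240 (F (L l309 (T t4786 (L l368 (T t817 (L l76 (L l82 (L l361 (T t4781 N))))))))))⟩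
def e0_63_106__223_42_40 : Ent 4 := ⟨[a0, a63, a106], [a223, a42, a67], (M a240 (F (T t4786 (L l368 (T t817 (L l76 (L l361 (T t4781 N))))))))⟩
def e0_63_106__223_42_41 : Ent 4 := ⟨[a0, a63, a106], [a223, a42, a69], (M a240 (F (L l311 (T t4786 (L l368 (T t817 (L l84 (L l361 (T t6482 N)))))))))⟩
def e0_63_106__223_42_42 : Ent 4 := ⟨[a0, a63, a106], [a223, a42, a70], (M a240 (F (L l315 (T t4786 (L l368 (T t817 (L l82 (L l361 (T t4781 N)))))))))⟩
def e0_63_106__223_42_43 : Ent 4 := ⟨[a0, a63, a106], [a223, a42, a71], (M a240 (F (T t4786 (L l368 (T t817 (L l361 (T t4781 N)))))))⟩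
def e0_63_106__223_42_44 : Ent 4 := ⟨[a0, a63, a106], [a223, a42, a74], (M a12 (F (T t2414 (L l56 (L l84 (T t2415 (L l78 (L l84 (T t2305 N)))))))))⟩
def e0_63_106__223_42_45 : Ent 4 := ⟨[a0, a63, a106], [a223, a42, a75], (M a240 (F (T t4786 (L l368 (T t817 (L l78 (L l361 (T t4781 N))))))))⟩
def e0_63_106__223_42_46 : Ent 4 := ⟨[a0, a63, a106], [a223, a42, a79], (M a240 (F (T t4786 (L l368 (T t817 (L l84 (L l137 (L l361 (T t6482 N)))))))))⟩
def e0_63_106__223_42_47 : Ent 4 := ⟨[a0, a63, a106], [a223, a42, a80], (M a12 (F (T t2304 (L l116 (T t2305 (L l56 (L l116 (T t2415 N))))))))⟩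
def e0_63_106__223_42_48 : Ent 4 := ⟨[a0, a63, a106], [a223, a42, a81], (M a240 (F (T t4786 (L l344 (L l368 (T t817 (L l120 (L l361 (T t4781 N)))))))))⟩
def e0_63_106__223_42_49 : Ent 4 := ⟨[a0, a63, a106], [a223, a42, a82], (M a240 (F (T t4786 (L l368 (T t817 (L l361 (T t4781 N)))))))⟩
def e0_63_106__223_42_50 : Ent 4 := ⟨[a0, a63, a106], [a223, a42, a83], (M a240 (F (T t4786 (L l368 (T t817 (L l93 (L l361 (T t4781 N))))))))⟩
def e0_63_106__223_42_51 : Ent 4 := ⟨[a0, a63, a106], [a223, a42, a85], (M a48 (L l368 (F (T t309 (L l347 (T t551 (L l54 (T t777 (K a192 (M a240 (L l368 (F (T t6230 (L l236 (T t6471 (L l54 (L l236 (L l339 (T t6472 (L l339 (T t6473 (K a16 (M a154 (F (T t6900 (L l123 (L l339 (T t8263 N)))))) (K a154 (Fr a16 a32 l40 (V t6496)) N)))))))))))))) (K a149 (Fr a58 a53 l38 (Fr a154 a202 l498 (V t8264))) (K a16 (M a154 (F (T t6900 (L l123 (T t6955 N))))) (K a154 (Fr a16 a32 l40 (V t8265)) N))))))))))))⟩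
def e0_63_106__223_42_52 : Ent 4 := ⟨[a0, a63, a106], [a223, a42, a86], (M a240 (F (T t4786 (L l351 (L l368 (T t817 (L l361 (T t4781 N))))))))⟩
def e0_63_106__223_42_53 : Ent 4 := ⟨[a0, a63, a106], [a223, a42, a87], (M a240 (L l367 (F (T t4786 (L l368 (T t817 (L l93 (L l361 (T t4781 (K a19 (M a155 (F (T t6965 (L l10 (L l368 (T t817 (L l93 (L l361 (T t4781 N))))))))) (K a155 (M a19 (F (T t6965 (L l368 (T t817 (L l93 (L l361 (T t4781 N)))))))) N)))))))))))⟩
def e0_63_106__223_42_54 : Ent 4 := ⟨[a0, a63, a106], [a223, a42, a90], (M a12 (F (T t2304 (L l375 (T t2305 (L l56 (T t2415 N)))))))⟩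
def e0_63_106__223_42_55 : Ent 4 := ⟨[a0, a63, a106], [a223, a42, a91], (M a240 (F (T t4786 (L l368 (T t817 (L l93 (L l361 (T t4781 N))))))))⟩
def e0_63_106__223_42_56 : Ent 4 := ⟨[a0, a63, a106], [a223, a42, a95], (M a12 (L l361 (F (T t2304 (T t2305 (L l56 (T t2415 (K a31 (M a159 (F (T t7164 (L l13 (L l56 (T t2415 N)))))) (K a159 (M a31 (F (T t6812 (L l28 (L l54 (T t7139 N)))))) N)))))))))⟩
def e0_63_106__223_42_57 : Ent 4 := ⟨[a0, a63, a106], [a223, a42, a96], (M a12 (F (T t2414 (L l56 (L l116 (T t2415 (L l116 (T t2305 N))))))))⟩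
def e0_63_106__223_42_58 : Ent 4 := ⟨[a0, a63, a106], [a223, a42, a97], (M a240 (F (T t4786 (L l368 (L l488 (T t817 (L l361 (T t4781 N))))))))⟩
def e0_63_106__223_42_59 : Ent 4 := ⟨[a0, a63, a106], [a223, a42, a98], (M a240 (F (T t6965 (L l368 (L l381 (T t817 (L l120 (L l361 (T t4781 N)))))))))⟩
def e0_63_106__223_42_60 : Ent 4 := ⟨[a0, a63, a106], [a223, a42, a99], (M a240 (F (T t4786 (L l368 (T t817 (L l361 (T t4781 N)))))))⟩
def e0_63_106__223_42_61 : Ent 4 := ⟨[a0, a63, a106], [a223, a42, a101], (M a240 (F (T t4786 (L l368 (L l491 (L l512 (T t817 (L l361 (T t4781 N)))))))))⟩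
def e0_63_106__223_42_62 : Ent 4 := ⟨[a0, a63, a106], [a223, a42, a102], (M a240 (F (T t4786 (L l368 (L l495 (T t817 (L l361 (T t4781 N))))))))⟩
def e0_63_106__223_42_63 : Ent 4 := ⟨[a0, a63, a106], [a223, a42, a103], (M a240 (F (T t4786 (L l368 (T t817 (L l361 (T t4781 N)))))))⟩
def e0_63_106__223_42_64 : Ent 4 := ⟨[a0, a63, a106], [a223, a42, a107], (M a240 (F (T t4786 (L l368 (T t817 (L l361 (T t4781 N)))))))⟩
def e0_63_106__223_42_65 : Ent 4 := ⟨[a0, a63, a106], [a223, a42, a111], (M a240 (F (T t4786 (L l368 (T t817 (L l137 (L l361 (T t4781 N))))))))⟩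
def e0_63_106__223_42_66 : Ent 4 := ⟨[a0, a63, a106], [a223, a42, a112], (M a12 (F (T t2304 (L l116 (T t2305 (L l56 (L l116 (T t2415 N))))))))⟩
def e0_63_106__223_42_67 : Ent 4 := ⟨[a0, a63, a106], [a223, a42, a113], (M a240 (F (T t4786 (L l368 (L l416 (T t817 (L l361 (T t4781 N))))))))⟩
def e0_63_106__223_42_68 : Ent 4 := ⟨[a0, a63, a106], [a223, a42, a114], (M a240 (F (T t6609 (L l368 (T t817 (L l361 (T t4781 N)))))))⟩
def e0_63_106__223_42_69 : Ent 4 := ⟨[a0, a63, a106], [a223, a42, a115], (M a240 (F (T t4786 (L l368 (T t817 (L l120 (L l361 (T t4781 N))))))))⟩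
def e0_63_106__223_42_70 : Ent 4 := ⟨[a0, a63, a106], [a223, a42, a117], (M a240 (F (L l114 (T t4786 (L l368 (L l440 (T t817 (L l361 (L l419 (T t4781 N))))))))))⟩
def e0_63_106__223_42_71 : Ent 4 := ⟨[a0, a63, a106], [a223, a42, a118], (M a240 (F (L l112 (T t4786 (L l368 (T t817 (L l361 (L l423 (T t4781 N)))))))))⟩
def e0_63_106__223_42_72 : Ent 4 := ⟨[a0, a63, a106], [a223, a42, a119], (M a240 (F (T t4786 (L l368 (T t817 (L l361 (T t4781 N)))))))⟩
def e0_63_106__223_42_73 : Ent 4 := ⟨[a0, a63, a106], [a223, a42, a122], (M a12 (F (T t2304 (T t2305 (L l56 (T t2415 N))))))⟩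
def e0_63_106__223_42_74 : Ent 4 := ⟨[a0, a63, a106], [a223, a42, a123], (M a240 (F (T t6609 (L l368 (T t817 (L l361 (T t4781 N)))))))⟩
def e0_63_106__223_42_75 : Ent 4 := ⟨[a0, a63, a106], [a223, a42, a127], (M a48 (F (T t309 (T t551 (T t7181 (K a149 (Fr a58 a53 l38 (Fr a154 a202 l498 (Fr a101 a207 l512 (Fr a32 a16 l40 (Fr a170 a239 l404 (Fr a255 a85 l476 (V t8279))))))) N))))))⟩
def e0_63_106__223_42_76 : Ent 4 := ⟨[a0, a63, a106], [a223, a42, a128], (M a240 (F (L l28 (T t7338 (L l192 (L l361 (T t4781 (L l28 (L l220 (L l246 (L l368 (T t7881 (L l54 (L l160 (L l289 (L l361 (T t7251 N)))))))))))))))))⟩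
def e0_63_106__223_42_77 : Ent 4 := ⟨[a0, a63, a106], [a223, a42, a129], (M a240 (F (L l28 (T t7338 (L l361 (T t4781 (L l217 (L l368 (T t817 N)))))))))⟩
def e0_63_106__223_42_78 : Ent 4 := ⟨[a0, a63, a106], [a223, a42, a130], (M a240 (F (T t4786 (L l368 (T t817 (L l361 (T t4781 N)))))))⟩
def e0_63_106__223_42_79 : Ent 4 := ⟨[a0, a63, a106], [a223, a42, a131], (M a240 (F (T t4786 (L l368 (T t817 (L l361 (T t4781 N)))))))⟩
def e0_63_106__223_42_80 : Ent 4 := ⟨[a0, a63, a106], [a223, a42, a133], (M a12 (F (T t2414 (L l56 (T t2415 (L l199 (T t2305 N)))))))⟩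
def e0_63_106__223_42_81 : Ent 4 := ⟨[a0, a63, a106], [a223, a42, a134], (M a240 (F (L l153 (T t4786 (L l368 (T t817 (L l336 (L l361 (T t4781 N)))))))))⟩
def e0_63_106__223_42_82 : Ent 4 := ⟨[a0, a63, a106], [a223, a42, a135], (M a240 (F (L l246 (T t4779 (L l368 (T t817 (L l361 (T t4781 N))))))))⟩
def e0_63_106__223_42_83 : Ent 4 := ⟨[a0, a63, a106], [a223, a42, a138], (M a240 (F (L l160 (T t4786 (L l368 (T t817 (L l318 (L l361 (T t4781 N)))))))))⟩
def e0_63_106__223_42_84 : Ent 4 := ⟨[a0, a63, a106], [a223, a42, a139], (M a240 (F (T t4786 (L l368 (T t817 (L l361 (T t4781 N)))))))⟩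
def e0_63_106__223_42_85 : Ent 4 := ⟨[a0, a63, a106], [a223, a42, a143], (M a240 (F (L l246 (T t4779 (L l368 (T t817 (L l361 (T t4781 N))))))))⟩
def e0_63_106__223_42_86 : Ent 4 := ⟨[a0, a63, a106], [a223, a42, a144], (M a12 (F (T t2414 (L l56 (T t2415 (L l170 (T t2305 N)))))))⟩
def e0_63_106__223_42_87 : Ent 4 := ⟨[a0, a63, a106], [a223, a42, a145], (M a240 (F (L l489 (T t4786 (L l167 (L l368 (T t817 (L l361 (T t4781 N)))))))))⟩
def e0_63_106__223_42_88 : Ent 4 := ⟨[a0, a63, a106], [a223, a42, a146], (M a240 (F (T t4786 (L l344 (L l368 (L l488 (T t817 (L l361 (T t4781 N)))))))))⟩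
def e0_63_106__223_42_89 : Ent 4 := ⟨[a0, a63, a106], [a223, a42, a147], (M a240 (F (T t4786 (L l368 (T t817 (L l361 (T t4781 N)))))))⟩
def e0_63_106__223_42_90 : Ent 4 := ⟨[a0, a63, a106], [a223, a42, a149], (M a204 (F (L l167 (T t6655 (L l167 (L l347 (L l368 (T t6636 (L l56 (L l167 (L l495 (T t6635 (L l56 (L l167 (L l220 (L l495 (T t6637 (K a145 (M a153 (F (T t6638 (L l56 (L l196 (L l220 (L l341 (L l495 (T t6639 (L l196 (L l220 (L l289 (T t6640 N))))))))))))) (K a153 (M a102 (L l167 (F (T t6641 (L l208 (T t6642 (K a145 (Fr a157 a110 l507 (V t6642)) (K a157 (M a145 (F (L l208 (T t6642 (L l226 (T t6817 (L l365 (T t6643 N)))))))) N)))))))) (K a157 (M a153 (F (T t6645 (T t6646 (L l56 (L l220 (L l495 (T t6639 (L l220 (L l289 (T t6640 N))))))))))) (K a98 (M a12 (F (T t8266 (L l167 (L l289 (L l371 (T t765 (L l56 (L l120 (L l371 (L l378 (T t2415 N)))))))))))) (K a102 (M a12 (L l495 (F (T t752 (L l167 (L l289 (L l371 (L l402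 (T t765 (L l56 (L l371 (T t2415 (K a196 (M a55 (F (L l56 (L l347 (T t6649 (L l150 (L l220 (L l289 (T t3459 N))))))))) (K a55 (M a196 (F (T t6650 (L l167 (L l289 (L l371 (L l402 (T t765 N)))))))) N)))))))))))))) (K a110 (M a12 (F (T t752 (L l138 (L l371 (T t8167 (L l56 (L l371 (T t2415 N))))))))) N)))))))))))))))))))))))⟩
def e0_63_106__223_42_91 : Ent 4 := ⟨[a0, a63, a106], [a223, a42, a150], (M a240 (F (T t4786 (L l163 (L l368 (T t817 (L l361 (T t4781 N))))))))⟩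
def e0_63_106__223_42_92 : Ent 4 := ⟨[a0, a63, a106], [a223, a42, a151], (M a240 (F (T t4786 (L l163 (L l368 (T t817 (L l361 (T t4781 N))))))))⟩
def e0_63_106__223_42_93 : Ent 4 := ⟨[a0, a63, a106], [a223, a42, a154], (M a240 (L l368 (F (T t4786 (L l170 (L l512 (T t6588 (L l361 (T t4781 (K a16 (M a85 (F (T t3095 (L l28 (L l227 (T t6587 N)))))) (K a85 (M a16 (F (L l246 (T t4779 (L l28 (L l289 (T t8267 (L l94 (L l170 (L l227 (L l347 (L l512 (T t4780 N))))))))))))) N)))))))))))⟩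
def e0_63_106__223_42_94 : Ent 4 := ⟨[a0, a63, a106], [a223, a42, a155], (M a240 (L l367 (F (T t4786 (L l368 (T t817 (L l361 (T t4781 (K a19 (M a87 (F (T t6965 (L l10 (L l368 (T t817 (L l361 (T t4781 N)))))))) (K a87 (M a19 (F (T t6965 (L l368 (T t817 (L l93 (L l361 (T t4781 N)))))))) N))))))))))⟩
def e0_63_106__223_42_95 : Ent 4 := ⟨[a0, a63, a106], [a223, a42, a159], (M a12 (L l361 (F (T t2304 (L l170 (T t2305 (L l56 (T t2415 (K a31 (M a95 (F (L l26 (T t3885 (L l170 (L l375 (T t2305 (L l13 (L l56 (T t2415 N)))))))))) (K a95 (M a31 (F (T t6812 (L l28 (L l54 (T t7139 N)))))) N))))))))))⟩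
def e0_63_106__223_42_96 : Ent 4 := ⟨[a0, a63, a106], [a223, a42, a160], (M a12 (F (T t2304 (T t2305 (L l56 (T t2415 N))))))⟩
def e0_63_106__223_42_97 : Ent 4 := ⟨[a0, a63, a106], [a223, a42, a161], (M a240 (F (T t7478 (L l172 (L l368 (L l381 (T t817 (L l172 (L l361 (T t4781 N))))))))))⟩
def e0_63_106__223_42_98 : Ent 4 := ⟨[a0, a63, a106], [a223, a42, a162], (M a240 (F (T t4786 (L l172 (L l368 (T t817 (L l172 (L l361 (T t4781 N)))))))))⟩
def e0_63_106__223_42_99 : Ent 4 := ⟨[a0, a63, a106], [a223, a42, a163], (M a240 (F (T t4786 (L l172 (L l368 (T t817 (L l172 (L l361 (T t4781 N)))))))))⟩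
def e0_63_106__223_42_100 : Ent 4 := ⟨[a0, a63, a106], [a223, a42, a165], (M a12 (F (T t2304 (L l199 (T t2305 (L l56 (T t2415 N)))))))⟩
def e0_63_106__223_42_101 : Ent 4 := ⟨[a0, a63, a106], [a223, a42, a166], (M a240 (F (T t4786 (L l202 (L l368 (T t817 (L l361 (T t4781 N))))))))⟩
def e0_63_106__223_42_102 : Ent 4 := ⟨[a0, a63, a106], [a223, a42, a167], (M a240 (F (T t4786 (L l368 (T t817 (L l361 (T t4781 N)))))))⟩
def e0_63_106__223_42_103 : Ent 4 := ⟨[a0, a63, a106], [a223, a42, a170], (M a240 (F (T t4786 (L l220 (T t4780 (L l180 (L l220 (L l361 (L l462 (T t6503 (L l28 (L l180 (L l246 (L l361 (T t7265 N)))))))))))))))⟩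
def e0_63_106__223_42_104 : Ent 4 := ⟨[a0, a63, a106], [a223, a42, a171], (M a240 (F (T t4786 (L l368 (T t817 (L l361 (T t4781 N)))))))⟩
def e0_63_106__223_42_105 : Ent 4 := ⟨[a0, a63, a106], [a223, a42, a175], (M a240 (F (T t4786 (T t4780 (L l180 (L l361 (L l469 (T t4781 N))))))))⟩
def e0_63_106__223_42_106 : Ent 4 := ⟨[a0, a63, a106], [a223, a42, a176], (M a240 (F (T t4786 (L l192 (L l368 (T t817 (L l190 (L l192 (L l361 (T t4781 N))))))))))⟩
def e0_63_106__223_42_107 : Ent 4 := ⟨[a0, a63, a106], [a223, a42, a177], (M a240 (F (T t4786 (L l368 (T t817 (L l187 (L l361 (T t4781 N))))))))⟩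
def e0_63_106__223_42_108 : Ent 4 := ⟨[a0, a63, a106], [a223, a42, a178], (M a240 (F (T t4786 (L l368 (L l416 (T t817 (L l361 (T t4781 N))))))))⟩
def e0_63_106__223_42_109 : Ent 4 := ⟨[a0, a63, a106], [a223, a42, a179], (M a240 (F (T t4786 (L l368 (T t817 (L l361 (T t4781 N)))))))⟩
def e0_63_106__223_42_110 : Ent 4 := ⟨[a0, a63, a106], [a223, a42, a181], (M a12 (F (T t2304 (L l199 (T t2305 (L l56 (T t2415 N)))))))⟩
def e0_63_106__223_42_111 : Ent 4 := ⟨[a0, a63, a106], [a223, a42, a182], (M a240 (F (L l444 (T t4786 (L l368 (T t817 (L l183 (L l361 (T t4781 N)))))))))⟩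
def e0_63_106__223_42_112 : Ent 4 := ⟨[a0, a63, a106], [a223, a42, a183], (M a240 (F (T t4786 (L l202 (L l368 (T t817 (L l183 (L l361 (T t4781 N)))))))))⟩
def e0_63_106__223_42_113 : Ent 4 := ⟨[a0, a63, a106], [a223, a42, a186], (M a240 (F (L l426 (T t4786 (L l368 (L l440 (T t817 (L l190 (L l361 (T t4781 N))))))))))⟩
def e0_63_106__223_42_114 : Ent 4 := ⟨[a0, a63, a106], [a223, a42, a187], (M a240 (F (T t4786 (L l368 (T t817 (L l361 (T t4781 N)))))))⟩
def e0_63_106__223_42_115 : Ent 4 := ⟨[a0, a63, a106], [a223, a42, a191], (M a48 (F (T t585 (L l190 (L l220 (T t551 (L l190 (L l220 (T t7181 (K a149 (Fr a58 a53 l38 (Fr a154 a202 l498 (Fr a101 a207 l512 (Fr a32 a16 l40 (Fr a170 a239 l404 (Fr a255 a85 l476 (V t8279))))))) N))))))))))⟩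
def e0_63_106__223_42_116 : Ent 4 := ⟨[a0, a63, a106], [a223, a42, a192], (M a204 (F (L l489 (T t6655 (L l272 (L l489 (T t6656 (L l289 (L l296 (L l489 (T t6657 (L l56 (L l489 (T t6658 (L l489 (T t6659 (K a145 (M a102 (L l489 (F (T t6641 (T t6660 (K a98 (Fr a51 a153 l513 (V t6661)) (K a51 (Fr a98 a110 l102 (V t6662)) N))))))) (K a85 (M a154 (F (L l54 (L l489 (T t8268 (L l28 (L l236 (L l241 (L l292 (T t8269 (L l361 (L l489 (T t8270 N))))))))))))) (K a157 (M a252 (F (T t6795 (L l211 (L l309 (L l367 (T t6796 (L l211 (L l309 (L l367 (T t6675 N))))))))))) (K a98 (M a153 (L l489 (F (T t6645 (L l241 (L l289 (L l296 (T t6668 (L l26 (L l120 (L l241 (L l378 (T t6669 (K a145 (Fr a51 a102 l513 (V t6670)) (K a51 (M a145 (F (T t6671 (L l56 (L l272 (L l334 (L l378 (T t6672 N)))))))) N))))))))))))))) (K a102 (M a252 (F (L l339 (T t7135 (L l484 (T t6673 (L l309 (L l367 (T t6675 N))))))))) (K a110 (M a252 (F (L l484 (T t6673 (L l309 (L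 l367 (L l399 (T t6796 (L l309 (L l367 (T t6675 N))))))))))) (K a51 (M a48 (L l489 (F (L l28 (T t4994 (L l236 (T t6677 (K a145 (M a98 (F (T t6678 (L l292 (L l368 (L l441 (T t1315 N))))))) (K a98 (M a145 (F (L l28 (T t4994 (L l54 (L l96 (L l236 (T t8271 N)))))))) N))))))))) N)))))))))))))))))))))))⟩
def e0_63_106__223_42_117 : Ent 4 := ⟨[a0, a63, a106], [a223, a42, a193], (M a240 (F (L l28 (T t7338 (L l361 (T t4781 (L l368 (L l515 (T t817 N)))))))))⟩
def e0_63_106__223_42_118 : Ent 4 := ⟨[a0, a63, a106], [a223, a42, a194], (M a240 (F (L l228 (T t4786 (L l368 (T t817 (L l336 (L l361 (T t4781 N)))))))))⟩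
def e0_63_106__223_42_119 : Ent 4 := ⟨[a0, a63, a106], [a223, a42, a195], (M a240 (F (L l228 (T t4786 (L l368 (L l488 (T t817 (L l361 (T t4781 N)))))))))⟩
def e0_63_106__223_42_120 : Ent 4 := ⟨[a0, a63, a106], [a223, a42, a197], (M a240 (F (L l28 (T t7338 (L l361 (T t4781 (L l368 (L l491 (T t817 N)))))))))⟩
def e0_63_106__223_42_121 : Ent 4 := ⟨[a0, a63, a106], [a223, a42, a198], (M a240 (F (T t4786 (L l368 (T t817 (L l361 (T t4781 N)))))))⟩
def e0_63_106__223_42_122 : Ent 4 := ⟨[a0, a63, a106], [a223, a42, a199], (M a240 (F (T t4786 (L l368 (T t817 (L l361 (T t4781 N)))))))⟩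
def e0_63_106__223_42_123 : Ent 4 := ⟨[a0, a63, a106], [a223, a42, a202], (M a240 (F (L l236 (T t4786 (L l368 (T t817 (L l318 (L l361 (T t4781 N)))))))))⟩
def e0_63_106__223_42_124 : Ent 4 := ⟨[a0, a63, a106], [a223, a42, a203], (M a240 (F (T t4786 (L l368 (T t817 (L l361 (T t4781 N)))))))⟩
def e0_63_106__223_42_125 : Ent 4 := ⟨[a0, a63, a106], [a223, a42, a207], (M a240 (L l289 (F (L l236 (T t4786 (L l368 (L l512 (T t817 (L l361 (T t4781 (K a239 (M a255 (F (T t6960 (L l236 (T t6609 N))))) (K a255 (M a239 (F (L l28 (T t6587 (L l440 (L l512 (T t6588 (L l28 (T t8232 (L l325 (L l469 (T t8233 N)))))))))))) N))))))))))))⟩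
def e0_63_106__223_42_126 : Ent 4 := ⟨[a0, a63, a106], [a223, a42, a208], (M a12 (L l246 (F (T t2419 (L l375 (T t2305 (L l56 (T t2415 (K a213 (M a218 (F (T t2414 (L l56 (L l278 (T t2415 (L l347 (L l375 (T t2305 N))))))))) (K a218 (M a213 (F (L l268 (T t8040 (L l375 (T t2418 (L l56 (T t2415 N)))))))) N))))))))))⟩
def e0_63_106__223_42_127 : Ent 4 := ⟨[a0, a63, a106], [a223, a42, a209], (M a240 (F (L l272 (T t4786 (L l368 (L l371 (T t817 (L l361 (T t4781 N)))))))))⟩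
def e0_63_106__223_42_128 : Ent 4 := ⟨[a0, a63, a106], [a223, a42, a210], (M a240 (F (T t4786 (L l368 (T t817 (L l361 (T t4781 N)))))))⟩
def e0_63_106__223_42_129 : Ent 4 := ⟨[a0, a63, a106], [a223, a42, a211], (M a240 (L l245 (F (T t4786 (L l344 (L l368 (T t817 (L l361 (T t4781 (K a215 (M a219 (F (T t6965 (L l344 (L l368 (T t817 (L l361 (T t4781 N)))))))) (K a219 (M a215 (F (T t6965 (L l344 (L l368 (T t817 (L l361 (T t4781 N)))))))) N)))))))))))⟩
def e0_63_106__223_42_130 : Ent 4 := ⟨[a0, a63, a106], [a223, a42, a213], (M a240 (L l246 (F (L l28 (T t7338 (L l347 (T t6588 (L l361 (T t4781 (K a208 (M a218 (F (L l296 (T t4786 (L l54 (L l275 (L l361 (L l368 (T t8272 (L l54 (L l275 (T t8273 N)))))))))))) (K a218 (M a208 (F (T t8250 (L l361 (T t4781 N))))) N)))))))))))⟩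
def e0_63_106__223_42_131 : Ent 4 := ⟨[a0, a63, a106], [a223, a42, a214], (M a240 (F (T t4786 (L l368 (T t817 (L l361 (T t4781 N)))))))⟩
def e0_63_106__223_42_132 : Ent 4 := ⟨[a0, a63, a106], [a223, a42, a215], (M a240 (L l245 (F (T t4786 (L l368 (T t817 (L l361 (T t4781 (K a211 (M a219 (F (T t6965 (L l344 (L l368 (T t817 (L l361 (T t4781 N)))))))) (K a219 (M a211 (F (T t6965 (L l368 (T t817 (L l361 (T t4781 N))))))) N))))))))))⟩
def e0_63_106__223_42_133 : Ent 4 := ⟨[a0, a63, a106], [a223, a42, a218], (M a240 (L l246 (F (T t6609 (L l368 (T t817 (L l361 (T t4781 (K a208 (M a213 (F (T t8040 (T t4786 (L l361 (T t4781 N)))))) (K a213 (M a208 (F (T t8250 (L l361 (T t4781 N))))) N))))))))))⟩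
def e0_63_106__223_42_134 : Ent 4 := ⟨[a0, a63, a106], [a223, a42, a219], (M a240 (L l245 (F (T t4786 (L l368 (T t817 (L l361 (T t4781 (K a211 (M a215 (F (T t6965 (L l344 (L l368 (T t817 (L l361 (T t4781 N)))))))) (K a215 (M a211 (F (T t6965 (L l368 (T t817 (L l361 (T t4781 N))))))) N))))))))))⟩
def e0_63_106__223_42_135 : Ent 4 := ⟨[a0, a63, a106], [a223, a42, a224], (M a12 (F (T t2416 (L l56 (L l248 (T t2415 (T t2305 N)))))))⟩
def e0_63_106__223_42_136 : Ent 4 := ⟨[a0, a63, a106], [a223, a42, a225], (M a240 (F (T t7478 (L l248 (L l368 (T t817 (L l361 (T t4781 N))))))))⟩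
def e0_63_106__223_42_137 : Ent 4 := ⟨[a0, a63, a106], [a223, a42, a226], (M a240 (F (T t6965 (L l248 (L l368 (T t817 (L l361 (T t4781 N))))))))⟩
def e0_63_106__223_42_138 : Ent 4 := ⟨[a0, a63, a106], [a223, a42, a227], (M a240 (F (T t6609 (L l248 (L l368 (T t817 (L l361 (T t4781 N))))))))⟩
def e0_63_106__223_42_139 : Ent 4 := ⟨[a0, a63, a106], [a223, a42, a229], (M a240 (F (T t7478 (L l256 (L l368 (T t817 (L l361 (T t4781 N))))))))⟩
def e0_63_106__223_42_140 : Ent 4 := ⟨[a0, a63, a106], [a223, a42, a230], (M a240 (F (T t4786 (L l368 (T t817 (L l361 (T t4781 N)))))))⟩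
def e0_63_106__223_42_141 : Ent 4 := ⟨[a0, a63, a106], [a223, a42, a231], (M a240 (F (T t4786 (L l368 (T t817 (L l361 (T t4781 N)))))))⟩
def e0_63_106__223_42_142 : Ent 4 := ⟨[a0, a63, a106], [a223, a42, a234], (M a240 (F (T t6965 (L l256 (L l368 (T t817 (L l361 (T t4781 N))))))))⟩
def e0_63_106__223_42_143 : Ent 4 := ⟨[a0, a63, a106], [a223, a42, a235], (M a240 (F (T t4786 (L l368 (T t817 (L l361 (T t4781 N)))))))⟩
def e0_63_106__223_42_144 : Ent 4 := ⟨[a0, a63, a106], [a223, a42, a239], (M a207 (F (L l361 (T t7183 (T t6701 (L l361 (T t6702 N)))))))⟩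
def e0_63_106__223_42_145 : Ent 4 := ⟨[a0, a63, a106], [a223, a42, a240], (M a12 (F (T t2419 (L l298 (T t2305 (L l56 (T t2415 N)))))))⟩
def e0_63_106__223_42_146 : Ent 4 := ⟨[a0, a63, a106], [a223, a42, a241], (M a240 (F (T t4786 (L l368 (T t817 (L l361 (L l443 (T t4781 N))))))))⟩
def e0_63_106__223_42_147 : Ent 4 := ⟨[a0, a63, a106], [a223, a42, a242], (M a240 (F (T t6609 (L l368 (T t817 (L l361 (T t4781 N)))))))⟩
def e0_63_106__223_42_148 : Ent 4 := ⟨[a0, a63, a106], [a223, a42, a243], (M a240 (F (L l272 (T t4786 (L l368 (L l416 (T t817 (L l361 (T t4781 N)))))))))⟩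
def e0_63_106__223_42_149 : Ent 4 := ⟨[a0, a63, a106], [a223, a42, a245], (M a240 (F (T t4786 (L l368 (T t817 (L l361 (L l419 (T t4781 N))))))))⟩
def e0_63_106__223_42_150 : Ent 4 := ⟨[a0, a63, a106], [a223, a42, a246], (M a240 (F (T t4786 (L l368 (T t817 (L l361 (T t4781 N)))))))⟩
def e0_63_106__223_42_151 : Ent 4 := ⟨[a0, a63, a106], [a223, a42, a247], (M a240 (F (T t4786 (L l368 (T t817 (L l361 (T t4781 N)))))))⟩
def e0_63_106__223_42_152 : Ent 4 := ⟨[a0, a63, a106], [a223, a42, a250], (M a240 (F (T t6609 (L l368 (T t817 (L l361 (T t4781 N)))))))⟩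
def e0_63_106__223_42_153 : Ent 4 := ⟨[a0, a63, a106], [a223, a42, a251], (M a240 (F (T t4786 (L l368 (T t817 (L l361 (T t4781 N)))))))⟩
def e0_63_106__223_42_154 : Ent 4 := ⟨[a0, a63, a106], [a223, a42, a255], (M a48 (L l289 (F (T t585 (L l266 (T t551 (L l266 (T t7181 (K a149 (Fr a58 a53 l38 (Fr a154 a202 l498 (Fr a32 a16 l40 (Fr a101 a207 l512 (Fr a239 a170 l404 (V t8280)))))) (K a207 (M a239 (F (L l236 (L l296 (L l368 (T t8275 (L l266 (L l303 (T t551 (L l28 (L l368 (T t8276 (L l266 (L l303 (T t8277 (L l368 (T t8278 N))))))))))))))))) (K a239 (M a207 (F (T t6835 (L l266 (T t551 N))))) N)))))))))))⟩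
def b0_63_106__223_42 : Blk 4 := ⟨[0, 63, 106], [223, 42], [1, 2, 3, 5, 6, 7, 10, 11, 15, 16, 17, 18, 19, 21, 22, 23, 26, 27, 31, 32, 33, 34, 35, 37, 38, 39, 43, 47, 48, 49, 50, 51, 53, 54, 55, 58, 59, 64, 65, 66, 67, 69, 70, 71, 74, 75, 79, 80, 81, 82, 83, 85, 86, 87, 90, 91, 95, 96, 97, 98, 99, 101, 102, 103, 107, 111, 112, 113, 114, 115, 117, 118, 119, 122, 123, 127, 128, 129, 130, 131, 133, 134, 135, 138, 139, 143, 144, 145, 146, 147, 149, 150, 151, 154, 155, 159, 160, 161, 162, 163, 165, 166, 167, 170, 171, 175, 176, 177, 178, 179, 181, 182, 183, 186, 187, 191, 192, 193, 194, 195, 197, 198, 199, 202, 203, 207, 208, 209, 210, 211, 213, 214, 215, 218, 219, 224, 225, 226, 227, 229, 230, 231, 234, 235, 239, 240, 241, 242, 243, 245, 246, 247, 250, 251, 255], [e0_63_106__223_42_0, e0_63_106__223_42_1, e0_63_106__223_42_2, e0_63_106__223_42_3, e0_63_106__223_42_4, e0_63_106__223_42_5, e0_63_106__223_42_6, e0_63_106__223_42_7,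 e0_63_106__223_42_8, e0_63_106__223_42_9, e0_63_106__223_42_10, e0_63_106__223_42_11, e0_63_106__223_42_12, e0_63_106__223_42_13, e0_63_106__223_42_14, e0_63_106__223_42_15, e0_63_106__223_42_16, e0_63_106__223_42_17, e0_63_106__223_42_18, e0_63_106__223_42_19, e0_63_106__223_42_20, e0_63_106__223_42_21, e0_63_106__223_42_22, e0_63_106__223_42_23, e0_63_106__223_42_24, e0_63_106__223_42_25, e0_63_106__223_42_26, e0_63_106__223_42_27, e0_63_106__223_42_28, e0_63_106__223_42_29, e0_63_106__223_42_30, e0_63_106__223_42_31, e0_63_106__223_42_32, e0_63_106__223_42_33, e0_63_106__223_42_34, e0_63_106__223_42_35, e0_63_106__223_42_36, e0_63_106__223_42_37, e0_63_106__223_42_38, e0_63_106__223_42_39, e0_63_106__223_42_40, e0_63_106__223_42_41, e0_63_106__223_42_42, e0_63_106__223_42_43, e0_63_106__223_42_44, e0_63_106__223_42_45, e0_63_106__223_42_46, e0_63_106__223_42_47, e0_63_106__223_42_48, e0_63_106__223_42_49, e0_63_106__223_42_50,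 e0_63_106__223_42_51, e0_63_106__223_42_52, e0_63_106__223_42_53, e0_63_106__223_42_54, e0_63_106__223_42_55, e0_63_106__223_42_56, e0_63_106__223_42_57, e0_63_106__223_42_58, e0_63_106__223_42_59, e0_63_106__223_42_60, e0_63_106__223_42_61, e0_63_106__223_42_62, e0_63_106__223_42_63, e0_63_106__223_42_64, e0_63_106__223_42_65, e0_63_106__223_42_66, e0_63_106__223_42_67, e0_63_106__223_42_68, e0_63_106__223_42_69, e0_63_106__223_42_70, e0_63_106__223_42_71, e0_63_106__223_42_72, e0_63_106__223_42_73, e0_63_106__223_42_74, e0_63_106__223_42_75, e0_63_106__223_42_76, e0_63_106__223_42_77, e0_63_106__223_42_78, e0_63_106__223_42_79, e0_63_106__223_42_80, e0_63_106__223_42_81, e0_63_106__223_42_82, e0_63_106__223_42_83, e0_63_106__223_42_84, e0_63_106__223_42_85, e0_63_106__223_42_86, e0_63_106__223_42_87, e0_63_106__223_42_88, e0_63_106__223_42_89, e0_63_106__223_42_90, e0_63_106__223_42_91, e0_63_106__223_42_92, e0_63_106__223_42_93,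 e0_63_106__223_42_94, e0_63_106__223_42_95, e0_63_106__223_42_96, e0_63_106__223_42_97, e0_63_106__223_42_98, e0_63_106__223_42_99, e0_63_106__223_42_100, e0_63_106__223_42_101, e0_63_106__223_42_102, e0_63_106__223_42_103, e0_63_106__223_42_104, e0_63_106__223_42_105, e0_63_106__223_42_106, e0_63_106__223_42_107, e0_63_106__223_42_108, e0_63_106__223_42_109, e0_63_106__223_42_110, e0_63_106__223_42_111, e0_63_106__223_42_112, e0_63_106__223_42_113, e0_63_106__223_42_114, e0_63_106__223_42_115, e0_63_106__223_42_116, e0_63_106__223_42_117, e0_63_106__223_42_118, e0_63_106__223_42_119, e0_63_106__223_42_120, e0_63_106__223_42_121, e0_63_106__223_42_122, e0_63_106__223_42_123, e0_63_106__223_42_124, e0_63_106__223_42_125, e0_63_106__223_42_126, e0_63_106__223_42_127, e0_63_106__223_42_128, e0_63_106__223_42_129, e0_63_106__223_42_130, e0_63_106__223_42_131, e0_63_106__223_42_132, e0_63_106__223_42_133, e0_63_106__223_42_134,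 e0_63_106__223_42_135, e0_63_106__223_42_136, e0_63_106__223_42_137, e0_63_106__223_42_138, e0_63_106__223_42_139, e0_63_106__223_42_140, e0_63_106__223_42_141, e0_63_106__223_42_142, e0_63_106__223_42_143, e0_63_106__223_42_144, e0_63_106__223_42_145, e0_63_106__223_42_146, e0_63_106__223_42_147, e0_63_106__223_42_148, e0_63_106__223_42_149, e0_63_106__223_42_150, e0_63_106__223_42_151, e0_63_106__223_42_152, e0_63_106__223_42_153, e0_63_106__223_42_154], by decide +kernel, by decide +kernel⟩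
def e0_63_106__235_42_0 : Ent 4 := ⟨[a0, a63, a106], [a235, a42, a1], (M a48 (F (T t309 (T t551 (L l28 (T t579 N))))))⟩
def e0_63_106__235_42_1 : Ent 4 := ⟨[a0, a63, a106], [a235, a42, a2], (M a48 (L l66 (F (T t309 (T t551 (L l28 (T t579 (K a22 (M a62 (F (T t585 (L l22 (L l295 (L l306 (L l392 (T t5926 N)))))))) (K a62 (M a22 (F (T t578 (L l28 (T t579 (T t551 N)))))) N)))))))))⟩
def e0_63_106__235_42_2 : Ent 4 := ⟨[a0, a63, a106], [a235, a42, a3], (M a48 (F (T t585 (L l453 (T t551 (L l28 (T t579 N)))))))⟩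
def e0_63_106__235_42_3 : Ent 4 := ⟨[a0, a63, a106], [a235, a42, a4], (M a48 (F (T t309 (T t551 (L l28 (T t579 N))))))⟩
def e0_63_106__235_42_4 : Ent 4 := ⟨[a0, a63, a106], [a235, a42, a5], (M a48 (F (T t578 (L l28 (L l47 (T t579 (T t551 N)))))))⟩
def e0_63_106__235_42_5 : Ent 4 := ⟨[a0, a63, a106], [a235, a42, a6], (M a48 (F (T t309 (T t551 (L l28 (T t579 N))))))⟩
def e0_63_106__235_42_6 : Ent 4 := ⟨[a0, a63, a106], [a235, a42, a7], (M a48 (F (T t309 (T t551 (L l28 (T t579 N))))))⟩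
def e0_63_106__235_42_7 : Ent 4 := ⟨[a0, a63, a106], [a235, a42, a8], (M a48 (L l56 (F (T t309 (T t551 (L l28 (T t579 (K a25 (M a59 (F (T t307 (L l26 (L l316 (T t6445 N)))))) (K a59 (M a25 (F (T t578 (L l28 (T t579 (T t551 N)))))) N)))))))))⟩
def e0_63_106__235_42_8 : Ent 4 := ⟨[a0, a63, a106], [a235, a42, a9], (M a48 (F (T t309 (T t551 (L l28 (T t579 N))))))⟩
def e0_63_106__235_42_9 : Ent 4 := ⟨[a0, a63, a106], [a235, a42, a10], (M a48 (L l54 (F (T t578 (L l28 (L l318 (T t579 (T t551 (K a26 (Fr a58 a53 l38 (V t6446)) (K a58 (M a26 (F (L l28 (T t4144 (T t551 (L l28 (L l426 (T t6447 (K a32 (Fr a192 a149 l519 (Fr a15 a37 l75 (Fr a47 a31 l61 (V t6528)))) N))))))))) N))))))))))⟩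
def e0_63_106__235_42_10 : Ent 4 := ⟨[a0, a63, a106], [a235, a42, a11], (M a48 (F (T t309 (T t551 (L l28 (T t579 N))))))⟩
def e0_63_106__235_42_11 : Ent 4 := ⟨[a0, a63, a106], [a235, a42, a12], (M a48 (F (T t585 (L l478 (T t551 (L l28 (T t579 N)))))))⟩
def e0_63_106__235_42_12 : Ent 4 := ⟨[a0, a63, a106], [a235, a42, a13], (M a48 (F (T t309 (T t551 (L l28 (T t579 N))))))⟩
def e0_63_106__235_42_13 : Ent 4 := ⟨[a0, a63, a106], [a235, a42, a14], (M a48 (F (T t309 (T t551 (L l28 (T t579 N))))))⟩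
def e0_63_106__235_42_14 : Ent 4 := ⟨[a0, a63, a106], [a235, a42, a15], (M a48 (F (T t585 (L l483 (T t551 (L l28 (T t579 N)))))))⟩
def e0_63_106__235_42_15 : Ent 4 := ⟨[a0, a63, a106], [a235, a42, a20], (M a48 (F (T t309 (T t551 (L l28 (T t579 N))))))⟩
def e0_63_106__235_42_16 : Ent 4 := ⟨[a0, a63, a106], [a235, a42, a21], (M a48 (F (L l47 (T t309 (L l347 (T t551 (L l28 (L l47 (T t579 N)))))))))⟩
def e0_63_106__235_42_17 : Ent 4 := ⟨[a0, a63, a106], [a235, a42, a22], (M a48 (L l66 (F (T t309 (T t551 (L l28 (T t579 (K a2 (M a62 (F (T t585 (L l22 (L l295 (L l306 (L l392 (T t5926 N)))))))) (K a62 (M a2 (F (T t307 (L l19 (L l28 (T t342 N)))))) N)))))))))⟩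
def e0_63_106__235_42_18 : Ent 4 := ⟨[a0, a63, a106], [a235, a42, a23], (M a48 (F (T t309 (L l351 (T t551 (L l28 (T t579 N)))))))⟩
def e0_63_106__235_42_19 : Ent 4 := ⟨[a0, a63, a106], [a235, a42, a24], (M a48 (F (T t309 (T t551 (L l28 (T t579 N))))))⟩
def e0_63_106__235_42_20 : Ent 4 := ⟨[a0, a63, a106], [a235, a42, a25], (M a48 (L l56 (F (T t309 (T t551 (L l28 (T t579 (K a8 (M a59 (F (T t307 (L l26 (L l316 (T t6445 N)))))) (K a59 (M a8 (F (T t307 (L l19 (L l28 (T t4700 N)))))) N)))))))))⟩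
def e0_63_106__235_42_21 : Ent 4 := ⟨[a0, a63, a106], [a235, a42, a26], (M a48 (L l54 (F (T t309 (L l28 (T t579 (T t551 (K a10 (Fr a58 a53 l38 (V t6446)) (K a58 (M a10 (F (T t4033 (T t551 (L l18 (L l255 (L l354 (L l392 (T t6449 (L l18 (L l426 (T t6450 N)))))))))))) N)))))))))⟩
def e0_63_106__235_42_22 : Ent 4 := ⟨[a0, a63, a106], [a235, a42, a27], (M a48 (F (T t309 (T t551 (L l28 (T t579 N))))))⟩
def e0_63_106__235_42_23 : Ent 4 := ⟨[a0, a63, a106], [a235, a42, a28], (M a48 (F (T t309 (T t551 (L l28 (L l362 (T t579 N)))))))⟩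
def e0_63_106__235_42_24 : Ent 4 := ⟨[a0, a63, a106], [a235, a42, a29], (M a48 (F (T t309 (L l371 (T t551 (L l28 (T t579 N)))))))⟩
def e0_63_106__235_42_25 : Ent 4 := ⟨[a0, a63, a106], [a235, a42, a30], (M a48 (F (T t309 (T t551 (L l28 (T t579 N))))))⟩
def e0_63_106__235_42_26 : Ent 4 := ⟨[a0, a63, a106], [a235, a42, a31], (M a48 (F (T t309 (L l375 (T t551 (L l28 (L l361 (T t579 N))))))))⟩
def e0_63_106__235_42_27 : Ent 4 := ⟨[a0, a63, a106], [a235, a42, a40], (M a3 (L l22 (L l392 (F (T t6966 (L l66 (L l250 (L l388 (T t809 (L l295 (T t3500 (K a41 (Fr a43 a23 l67 (V t7187)) (K a105 (M a170 (L l22 (F (T t3207 (L l388 (L l389 (T t8281 (L l250 (L l388 (T t6745 (K a41 (Fr a43 a23 l67 (V t6879)) (K a43 (M a41 (L l391 (F (L l66 (T t7188 (T t3207 (K a107 (M a171 (F (T t7193 (L l66 (T t7188 N))))) (K a171 (M a107 (F (T t3207 (L l66 (T t7188 N))))) N)))))))) N)))))))))))) (K a170 (M a105 (L l22 (F (L l220 (T t6966 (L l66 (L l218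 (T t8282 (L l388 (T t7990 (K a41 (Fr a43 a23 l67 (V t7187)) (K a43 (M a41 (L l391 (F (L l66 (L l474 (T t7188 (L l218 (L l388 (T t8283 (K a107 (M a171 (F (L l66 (L l474 (T t7188 (L l220 (L l295 (T t3500 (L l250 (T t7194 N)))))))))) (K a171 (Fr a107 a104 l98 (V t7188)) N))))))))))) N)))))))))))) (K a43 (M a41 (L l391 (L l392 (F (L l66 (T t7188 (L l295 (T t3500 (L l66 (L l295 (T t8284 (K a2 (Fr a192 a149 l519 (Fr a60 a22 l69 (Fr a62 a61 l33 (V t8307)))) (K a105 (M a170 (L l391 (F (L l66 (T t7188 (T t3207 (K a107 (M a171 (F (T t7193 (L l66 (T t7188 N))))) (K a171 (M a107 (F (T t3207 (L l66 (T t7188 N))))) N)))))))) (K a170 (M a105 (L l391 (F (L l66 (L l474 (T t7188 (L l218 (L l388 (T t8283 (K a107 (M a171 (F (L l66 (L l474 (T t7188 (L l220 (L l295 (T t3500 (L l250 (T t7194 N)))))))))) (K a171 (Fr a107 a104 l98 (V t7188)) N))))))))))) (K a107 (M a171 (L l392 (F (L l66 (T t7188 (L l143 (T t7192 (K a105 (M a170 (F (T t7193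 (L l66 (T t7188 N))))) (K a170 (M a105 (F (L l66 (L l474 (T t7188 (L l220 (L l295 (T t3500 (L l250 (T t7194 N)))))))))) N))))))))) (K a171 (M a107 (L l392 (F (L l66 (T t7188 (L l219 (L l388 (T t8286 (K a105 (M a170 (F (T t3207 (L l66 (T t7188 N))))) (K a170 (Fr a105 a104 l98 (V t7188)) N)))))))))) N)))))))))))))))) N)))))))))))))))⟩
def e0_63_106__235_42_28 : Ent 4 := ⟨[a0, a63, a106], [a235, a42, a41], (M a60 (L l22 (F (T t565 (L l65 (L l295 (L l389 (L l392 (T t8287 (L l65 (L l389 (L l391 (L l392 (T t2359 (L l65 (L l295 (L l391 (T t8288 (K a40 (M a43 (L l392 (F (T t8195 (L l65 (L l295 (T t4117 (L l66 (L l250 (L l388 (T t6451 (K a105 (M a170 (L l389 (F (T t3207 (L l65 (L l250 (L l388 (L l515 (T t8289 (L l65 (L l388 (T t4555 (K a169 (M a233 (F (T t3207 (L l65 (L l515 (T t8290 (L l141 (L l145 (L l473 (L l477 (T t1570 N))))))))))) (K a233 (Fr a169 a232 l393 (M a234 (L l388 (F (L l141 (T t7343 (L l292 (L l297 (T t8291 (L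 l66 (T t8292 (K a104 (Fr a168 a171 l174 (V t6855)) (K a168 (M a104 (F (T t8293 (L l295 (T t8294 N))))) N))))))))))))) N)))))))))))))) (K a170 (M a105 (F (T t8295 (L l218 (T t8001 N))))) N))))))))))))) (K a43 (Fr a40 a20 l64 (V t8296)) N))))))))))))))))))))⟩
def e0_63_106__235_42_29 : Ent 4 := ⟨[a0, a63, a106], [a235, a42, a43], (M a107 (L l22 (F (T t7438 (T t7439 (T t7440 (L l250 (L l392 (T t8196 (K a40 (M a41 (L l392 (F (L l388 (T t7438 (T t7440 (L l388 (T t7439 (L l388 (T t7441 (K a105 (M a170 (F (L l295 (L l515 (T t6855 (L l66 (L l141 (L l145 (T t8297 (L l145 (L l515 (T t8298 (L l66 (L l141 (L l295 (T t8299 N)))))))))))))))) (K a170 (Fr a105 a104 l98 (V t7929)) N)))))))))))) (K a41 (M a40 (F (T t7876 (T t7439 (L l250 (L l389 (T t7935 (T t7440 N)))))))) N)))))))))))⟩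
def e0_63_106__235_42_30 : Ent 4 := ⟨[a0, a63, a106], [a235, a42, a44], (M a48 (F (T t309 (T t551 (L l24 (L l28 (T t579 N)))))))⟩
def e0_63_106__235_42_31 : Ent 4 := ⟨[a0, a63, a106], [a235, a42, a45], (M a48 (F (T t309 (T t551 (L l28 (T t579 N))))))⟩
def e0_63_106__235_42_32 : Ent 4 := ⟨[a0, a63, a106], [a235, a42, a46], (M a48 (L l26 (F (T t309 (T t551 (L l28 (T t579 (K a34 (M a38 (F (T t578 (L l20 (L l28 (T t579 (T t551 N))))))) (K a38 (M a34 (F (T t307 (L l29 (L l66 (T t6453 N)))))) N)))))))))⟩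
def e0_63_106__235_42_33 : Ent 4 := ⟨[a0, a63, a106], [a235, a42, a47], (M a12 (L l28 (F (T t2304 (T t2305 (L l56 (T t2415 (K a32 (M a37 (F (T t2416 (L l56 (T t2415 (T t2305 N)))))) (K a37 (M a32 (F (T t2304 (L l51 (L l56 (T t682 N)))))) N)))))))))⟩
def e0_63_106__235_42_34 : Ent 4 := ⟨[a0, a63, a106], [a235, a42, a60], (M a48 (F (T t585 (L l442 (T t551 (L l28 (T t579 N)))))))⟩
def e0_63_106__235_42_35 : Ent 4 := ⟨[a0, a63, a106], [a235, a42, a61], (M a48 (F (L l35 (T t309 (L l515 (T t551 (L l28 (L l35 (T t579 N)))))))))⟩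
def e0_63_106__235_42_36 : Ent 4 := ⟨[a0, a63, a106], [a235, a42, a62], (M a48 (L l66 (F (T t309 (T t551 (L l28 (T t579 (K a2 (M a22 (F (T t578 (L l28 (T t579 (T t551 N)))))) (K a22 (M a2 (F (T t307 (L l19 (L l28 (T t342 N)))))) N)))))))))⟩
def e0_63_106__235_42_37 : Ent 4 := ⟨[a0, a63, a106], [a235, a42, a64], (M a48 (F (T t585 (L l28 (L l295 (T t6454 (L l28 (L l392 (T t6455 (L l28 (L l392 (T t6456 (L l28 (L l84 (L l295 (T t6457 (L l54 (L l255 (T t6458 (K a207 (Fr a192 a149 l519 (Fr a96 a144 l484 (Fr a101 a111 l104 (Fr a32 a16 l40 (V t6459))))) N))))))))))))))))))))⟩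
def e0_63_106__235_42_38 : Ent 4 := ⟨[a0, a63, a106], [a235, a42, a65], (M a48 (F (T t309 (L l76 (T t551 (L l28 (L l76 (T t579 N))))))))⟩
def e0_63_106__235_42_39 : Ent 4 := ⟨[a0, a63, a106], [a235, a42, a66], (M a48 (F (T t585 (L l76 (T t551 (L l28 (L l76 (T t579 N))))))))⟩
def e0_63_106__235_42_40 : Ent 4 := ⟨[a0, a63, a106], [a235, a42, a67], (M a48 (F (T t309 (L l76 (T t551 (L l28 (L l76 (T t579 N))))))))⟩
def e0_63_106__235_42_41 : Ent 4 := ⟨[a0, a63, a106], [a235, a42, a68], (M a48 (F (T t309 (L l80 (T t551 (L l28 (L l80 (T t579 N))))))))⟩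
def e0_63_106__235_42_42 : Ent 4 := ⟨[a0, a63, a106], [a235, a42, a69], (M a48 (F (T t309 (L l84 (T t551 (L l28 (L l84 (T t579 N))))))))⟩
def e0_63_106__235_42_43 : Ent 4 := ⟨[a0, a63, a106], [a235, a42, a70], (M a48 (F (T t309 (T t551 (L l28 (T t579 N))))))⟩
def e0_63_106__235_42_44 : Ent 4 := ⟨[a0, a63, a106], [a235, a42, a71], (M a48 (F (T t309 (T t551 (L l28 (T t579 N))))))⟩
def e0_63_106__235_42_45 : Ent 4 := ⟨[a0, a63, a106], [a235, a42, a72], (M a48 (F (T t585 (L l80 (T t551 (L l28 (L l80 (T t579 N))))))))⟩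
def e0_63_106__235_42_46 : Ent 4 := ⟨[a0, a63, a106], [a235, a42, a73], (M a48 (F (T t309 (T t551 (L l28 (T t579 N))))))⟩
def e0_63_106__235_42_47 : Ent 4 := ⟨[a0, a63, a106], [a235, a42, a74], (M a48 (F (T t578 (L l28 (L l84 (L l318 (T t579 (L l84 (T t551 N)))))))))⟩
def e0_63_106__235_42_48 : Ent 4 := ⟨[a0, a63, a106], [a235, a42, a75], (M a48 (F (T t309 (T t551 (L l28 (T t579 N))))))⟩
def e0_63_106__235_42_49 : Ent 4 := ⟨[a0, a63, a106], [a235, a42, a76], (M a48 (F (T t309 (L l80 (T t551 (L l28 (L l80 (T t579 N))))))))⟩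
def e0_63_106__235_42_50 : Ent 4 := ⟨[a0, a63, a106], [a235, a42, a77], (M a48 (F (T t309 (T t551 (L l28 (T t579 N))))))⟩
def e0_63_106__235_42_51 : Ent 4 := ⟨[a0, a63, a106], [a235, a42, a78], (M a48 (F (T t309 (T t551 (L l28 (T t579 N))))))⟩
def e0_63_106__235_42_52 : Ent 4 := ⟨[a0, a63, a106], [a235, a42, a79], (M a48 (F (T t309 (L l84 (T t551 (L l28 (L l84 (T t579 N))))))))⟩
def e0_63_106__235_42_53 : Ent 4 := ⟨[a0, a63, a106], [a235, a42, a84], (M a48 (F (T t309 (L l140 (T t551 (L l28 (L l140 (T t579 N))))))))⟩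
def e0_63_106__235_42_54 : Ent 4 := ⟨[a0, a63, a106], [a235, a42, a85], (M a48 (F (T t309 (L l347 (T t551 (L l54 (T t777 (L l368 (T t6465 (K a192 (M a240 (F (T t6230 (L l236 (T t6471 (L l54 (L l236 (L l339 (T t6472 (L l339 (T t6473 N))))))))))) N))))))))))⟩
def e0_63_106__235_42_55 : Ent 4 := ⟨[a0, a63, a106], [a235, a42, a86], (M a48 (F (T t309 (L l351 (T t551 (L l28 (T t579 N)))))))⟩
def e0_63_106__235_42_56 : Ent 4 := ⟨[a0, a63, a106], [a235, a42, a87], (M a48 (F (T t309 (T t551 (L l28 (L l367 (T t579 N)))))))⟩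
def e0_63_106__235_42_57 : Ent 4 := ⟨[a0, a63, a106], [a235, a42, a88], (M a48 (F (T t309 (L l478 (T t551 (L l28 (T t579 N)))))))⟩
def e0_63_106__235_42_58 : Ent 4 := ⟨[a0, a63, a106], [a235, a42, a89], (M a48 (F (T t309 (L l371 (T t551 (L l28 (T t579 N)))))))⟩
def e0_63_106__235_42_59 : Ent 4 := ⟨[a0, a63, a106], [a235, a42, a90], (M a48 (F (T t309 (L l375 (L l483 (T t551 (L l28 (T t579 N))))))))⟩
def e0_63_106__235_42_60 : Ent 4 := ⟨[a0, a63, a106], [a235, a42, a91], (M a48 (F (T t309 (T t551 (L l28 (T t579 N))))))⟩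
def e0_63_106__235_42_61 : Ent 4 := ⟨[a0, a63, a106], [a235, a42, a92], (M a48 (F (T t309 (T t551 (L l28 (T t579 N))))))⟩
def e0_63_106__235_42_62 : Ent 4 := ⟨[a0, a63, a106], [a235, a42, a93], (M a48 (F (T t309 (T t551 (L l28 (L l362 (T t579 N)))))))⟩
def e0_63_106__235_42_63 : Ent 4 := ⟨[a0, a63, a106], [a235, a42, a94], (M a48 (F (T t309 (T t551 (L l28 (T t579 N))))))⟩
def e0_63_106__235_42_64 : Ent 4 := ⟨[a0, a63, a106], [a235, a42, a95], (M a48 (F (T t309 (T t551 (L l28 (L l361 (T t579 N)))))))⟩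
def e0_63_106__235_42_65 : Ent 4 := ⟨[a0, a63, a106], [a235, a42, a104], (M a48 (F (T t304 (L l28 (L l140 (T t579 (L l100 (L l140 (T t551 N)))))))))⟩
def e0_63_106__235_42_66 : Ent 4 := ⟨[a0, a63, a106], [a235, a42, a105], (M a3 (L l392 (F (L l250 (T t6745 (L l295 (L l515 (L l518 (T t3500 (L l66 (L l250 (T t809 (K a40 (M a170 (L l22 (F (T t3207 (L l388 (L l389 (T t8281 (L l250 (L l388 (T t6745 (K a41 (Fr a43 a23 l67 (V t6879)) (K a43 (M a41 (L l391 (F (L l66 (T t7188 (T t3207 (K a107 (M a171 (F (T t7193 (L l66 (T t7188 N))))) (K a171 (M a107 (F (T t3207 (L l66 (T t7188 N))))) N)))))))) N)))))))))))) (K a170 (M a40 (F (L l391 (T t8300 (L l220 (L l295 (L l515 (L l518 (T t3500 (L l389 (L l515 (T t8301 (L l250 (L l389 (T t8302 N))))))))))))))) N))))))))))))))⟩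
def e0_63_106__235_42_67 : Ent 4 := ⟨[a0, a63, a106], [a235, a42, a107], (M a48 (L l391 (F (T t309 (T t551 (L l28 (T t579 (K a43 (M a171 (L l22 (F (T t307 (L l28 (T t579 (T t551 (K a40 (M a41 (L l392 (F (T t307 (L l24 (L l28 (T t579 (T t551 (K a105 (M a170 (F (T t3207 (T t8303 N)))) (K a170 (M a105 (F (L l220 (T t551 (L l283 (L l295 (L l499 (T t8304 N)))))))) N)))))))))) (K a41 (M a40 (F (T t309 (L l29 (L l56 (T t7195 N)))))) N))))))))) (K a171 (M a43 (F (T t307 (L l66 (L l250 (T t6451 N)))))) N)))))))))⟩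
def e0_63_106__235_42_68 : Ent 4 := ⟨[a0, a63, a106], [a235, a42, a108], (M a48 (F (T t309 (L l100 (T t551 (L l28 (T t579 N)))))))⟩
def e0_63_106__235_42_69 : Ent 4 := ⟨[a0, a63, a106], [a235, a42, a109], (M a48 (F (T t309 (T t551 (L l28 (T t579 N))))))⟩
def e0_63_106__235_42_70 : Ent 4 := ⟨[a0, a63, a106], [a235, a42, a110], (M a48 (F (T t309 (T t551 (L l28 (T t579 N))))))⟩
def e0_63_106__235_42_71 : Ent 4 := ⟨[a0, a63, a106], [a235, a42, a111], (M a240 (F (T t4779 (T t817 (L l137 (T t4781 N))))))⟩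
def e0_63_106__235_42_72 : Ent 4 := ⟨[a0, a63, a106], [a235, a42, a124], (M a48 (F (T t309 (L l140 (T t551 (L l28 (L l140 (T t579 N))))))))⟩
def e0_63_106__235_42_73 : Ent 4 := ⟨[a0, a63, a106], [a235, a42, a125], (M a48 (F (T t309 (T t551 (L l28 (T t579 N))))))⟩
def e0_63_106__235_42_74 : Ent 4 := ⟨[a0, a63, a106], [a235, a42, a126], (M a48 (F (T t309 (T t551 (L l28 (T t579 N))))))⟩
def e0_63_106__235_42_75 : Ent 4 := ⟨[a0, a63, a106], [a235, a42, a127], (M a48 (F (T t309 (T t551 (L l28 (L l295 (T t6454 (L l28 (L l392 (T t6479 N))))))))))⟩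
def e0_63_106__235_42_76 : Ent 4 := ⟨[a0, a63, a106], [a235, a42, a128], (M a48 (F (T t585 (L l28 (T t579 (L l192 (L l220 (L l255 (T t6480 (L l54 (L l160 (L l255 (L l295 (T t6481 N))))))))))))))⟩
def e0_63_106__235_42_77 : Ent 4 := ⟨[a0, a63, a106], [a235, a42, a129], (M a48 (F (T t304 (L l28 (T t579 (L l217 (T t551 N)))))))⟩
def e0_63_106__235_42_78 : Ent 4 := ⟨[a0, a63, a106], [a235, a42, a130], (M a48 (F (T t309 (T t551 (L l28 (T t579 N))))))⟩
def e0_63_106__235_42_79 : Ent 4 := ⟨[a0, a63, a106], [a235, a42, a131], (M a48 (F (T t309 (L l197 (T t551 (L l28 (T t579 N)))))))⟩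
def e0_63_106__235_42_80 : Ent 4 := ⟨[a0, a63, a106], [a235, a42, a132], (M a48 (F (T t304 (L l28 (T t579 (L l202 (T t551 N)))))))⟩
def e0_63_106__235_42_81 : Ent 4 := ⟨[a0, a63, a106], [a235, a42, a133], (M a48 (F (T t304 (L l28 (T t579 (L l199 (T t551 N)))))))⟩
def e0_63_106__235_42_82 : Ent 4 := ⟨[a0, a63, a106], [a235, a42, a134], (M a48 (F (T t309 (T t551 (L l28 (T t579 N))))))⟩
def e0_63_106__235_42_83 : Ent 4 := ⟨[a0, a63, a106], [a235, a42, a135], (M a48 (F (T t309 (T t551 (L l28 (T t579 N))))))⟩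
def e0_63_106__235_42_84 : Ent 4 := ⟨[a0, a63, a106], [a235, a42, a136], (M a48 (F (T t309 (T t551 (L l28 (T t579 N))))))⟩
def e0_63_106__235_42_85 : Ent 4 := ⟨[a0, a63, a106], [a235, a42, a137], (M a48 (F (T t309 (T t551 (L l28 (T t579 N))))))⟩
def e0_63_106__235_42_86 : Ent 4 := ⟨[a0, a63, a106], [a235, a42, a138], (M a48 (F (T t578 (L l28 (L l318 (T t579 (T t551 N)))))))⟩
def e0_63_106__235_42_87 : Ent 4 := ⟨[a0, a63, a106], [a235, a42, a139], (M a48 (F (T t309 (T t551 (L l28 (T t579 N))))))⟩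
def e0_63_106__235_42_88 : Ent 4 := ⟨[a0, a63, a106], [a235, a42, a140], (M a48 (F (T t309 (L l222 (T t551 (L l28 (T t579 N)))))))⟩
def e0_63_106__235_42_89 : Ent 4 := ⟨[a0, a63, a106], [a235, a42, a141], (M a48 (F (T t309 (T t551 (L l28 (T t579 N))))))⟩
def e0_63_106__235_42_90 : Ent 4 := ⟨[a0, a63, a106], [a235, a42, a142], (M a48 (F (T t309 (T t551 (L l28 (T t579 N))))))⟩
def e0_63_106__235_42_91 : Ent 4 := ⟨[a0, a63, a106], [a235, a42, a143], (M a48 (F (T t309 (L l28 (T t6462 (L l28 (T t579 N)))))))⟩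
def e0_63_106__235_42_92 : Ent 4 := ⟨[a0, a63, a106], [a235, a42, a148], (M a48 (F (T t304 (L l28 (T t579 (L l163 (T t551 N)))))))⟩
def e0_63_106__235_42_93 : Ent 4 := ⟨[a0, a63, a106], [a235, a42, a149], (M a240 (F (L l199 (T t4781 (L l199 (L l347 (T t6484 (L l28 (L l199 (L l375 (T t6483 (L l28 (L l199 (L l220 (L l375 (T t6485 (K a133 (M a165 (F (T t6486 (L l28 (L l160 (L l220 (L l311 (L l375 (T t6487 (L l160 (L l220 (L l295 (T t6488 N))))))))))))) (K a165 (M a90 (L l199 (F (T t4788 (L l180 (T t6489 (K a133 (Fr a181 a122 l447 (V t6489)) (K a181 (M a133 (F (L l180 (T t6489 (L l227 (T t6746 (L l455 (T t6490 N)))))))) N)))))))) (K a181 (M a165 (F (T t6492 (T t6493 (L l28 (L l220 (L l375 (T t6487 (L l220 (L l295 (T t6488 N))))))))))) (K a74 (M a48 (F (T t6494 (L l199 (L l295 (L l491 (T t781 (L l28 (L l84 (L l318 (L l491 (T t579 N)))))))))))) (K a90 (M a48 (L l375 (F (T t3318 (L l199 (L l295 (L l462 (L l491 (T t781 (L l28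 (L l491 (T t579 (K a208 (M a31 (F (L l28 (L l347 (T t6495 (L l151 (L l220 (L l295 (T t6496 N))))))))) (K a31 (M a208 (F (T t6497 (L l151 (L l220 (L l295 (T t6496 N))))))) N)))))))))))))) (K a122 (M a48 (F (T t3318 (L l114 (L l491 (T t6471 (L l28 (L l491 (T t579 N))))))))) N))))))))))))))))))))))⟩
def e0_63_106__235_42_94 : Ent 4 := ⟨[a0, a63, a106], [a235, a42, a150], (M a48 (F (T t309 (L l163 (T t551 (L l28 (T t579 N)))))))⟩
def e0_63_106__235_42_95 : Ent 4 := ⟨[a0, a63, a106], [a235, a42, a151], (M a48 (F (T t309 (L l163 (T t551 (L l28 (T t579 N)))))))⟩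
def e0_63_106__235_42_96 : Ent 4 := ⟨[a0, a63, a106], [a235, a42, a152], (M a48 (F (T t304 (L l28 (T t579 (L l222 (T t551 N)))))))⟩
def e0_63_106__235_42_97 : Ent 4 := ⟨[a0, a63, a106], [a235, a42, a153], (M a48 (F (T t309 (L l167 (T t551 (L l28 (T t579 N)))))))⟩
def e0_63_106__235_42_98 : Ent 4 := ⟨[a0, a63, a106], [a235, a42, a154], (M a240 (F (T t4779 (L l170 (L l368 (L l512 (T t817 (T t4781 N))))))))⟩
def e0_63_106__235_42_99 : Ent 4 := ⟨[a0, a63, a106], [a235, a42, a155], (M a48 (F (T t309 (T t551 (L l28 (L l367 (T t579 N)))))))⟩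
def e0_63_106__235_42_100 : Ent 4 := ⟨[a0, a63, a106], [a235, a42, a156], (M a48 (F (T t304 (L l28 (T t579 (T t551 N))))))⟩
def e0_63_106__235_42_101 : Ent 4 := ⟨[a0, a63, a106], [a235, a42, a157], (M a48 (F (T t309 (L l167 (T t551 (L l28 (T t579 N)))))))⟩
def e0_63_106__235_42_102 : Ent 4 := ⟨[a0, a63, a106], [a235, a42, a158], (M a48 (F (T t309 (T t551 (L l28 (L l362 (T t579 N)))))))⟩
def e0_63_106__235_42_103 : Ent 4 := ⟨[a0, a63, a106], [a235, a42, a159], (M a240 (F (T t4779 (L l170 (T t817 (L l361 (T t4781 N)))))))⟩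
def e0_63_106__235_42_104 : Ent 4 := ⟨[a0, a63, a106], [a235, a42, a168], (M a48 (F (T t309 (T t551 (L l28 (L l400 (T t579 N)))))))⟩
def e0_63_106__235_42_105 : Ent 4 := ⟨[a0, a63, a106], [a235, a42, a169], (M a48 (F (T t309 (L l217 (T t551 (L l28 (T t579 N)))))))⟩
def e0_63_106__235_42_106 : Ent 4 := ⟨[a0, a63, a106], [a235, a42, a170], (M a48 (L l392 (F (T t309 (L l220 (T t551 (L l28 (L l206 (L l220 (L l404 (T t552 (L l28 (L l206 (L l404 (T t553 (K a40 (M a105 (L l22 (F (T t304 (L l66 (L l388 (T t3411 (L l388 (T t6474 (K a41 (M a43 (F (T t304 (L l25 (L l65 (T t3239 N)))))) (K a43 (M a41 (L l391 (F (L l388 (T t8305 (L l220 (T t551 (K a107 (M a171 (F (L l220 (T t551 (L l283 (L l295 (L l499 (T t8304 N)))))))) (K a171 (Fr a107 a104 l98 (V t7929)) N))))))))) N))))))))))) (K a105 (M a40 (F (T t309 (L l410 (L l518 (T t6452 N)))))) N)))))))))))))))))⟩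
def e0_63_106__235_42_107 : Ent 4 := ⟨[a0, a63, a106], [a235, a42, a171], (M a48 (L l391 (F (T t309 (T t551 (L l28 (T t579 (K a43 (M a107 (L l22 (F (T t585 (L l219 (T t1164 (K a40 (M a41 (L l392 (F (T t578 (L l219 (L l255 (T t1166 (K a105 (M a170 (F (L l515 (T t6879 (L l219 (L l255 (L l410 (T t1166 N)))))))) (K a170 (Fr a105 a104 l98 (V t7929)) N))))))))) (K a41 (M a40 (F (T t578 (L l29 (L l69 (T t7930 N)))))) N)))))))) (K a107 (M a43 (F (T t307 (L l66 (L l250 (T t6451 N)))))) N)))))))))⟩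
def e0_63_106__235_42_108 : Ent 4 := ⟨[a0, a63, a106], [a235, a42, a172], (M a48 (F (T t309 (T t551 (L l28 (T t579 N))))))⟩
def e0_63_106__235_42_109 : Ent 4 := ⟨[a0, a63, a106], [a235, a42, a173], (M a48 (F (T t309 (T t551 (L l28 (T t579 N))))))⟩
def e0_63_106__235_42_110 : Ent 4 := ⟨[a0, a63, a106], [a235, a42, a174], (M a48 (F (T t309 (T t551 (L l28 (T t579 N))))))⟩
def e0_63_106__235_42_111 : Ent 4 := ⟨[a0, a63, a106], [a235, a42, a175], (M a48 (F (T t309 (T t551 (L l28 (T t579 N))))))⟩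
def e0_63_106__235_42_112 : Ent 4 := ⟨[a0, a63, a106], [a235, a42, a188], (M a48 (F (T t309 (L l186 (T t551 (L l28 (T t579 N)))))))⟩
def e0_63_106__235_42_113 : Ent 4 := ⟨[a0, a63, a106], [a235, a42, a189], (M a48 (F (T t309 (L l217 (T t551 (L l28 (T t579 N)))))))⟩
def e0_63_106__235_42_114 : Ent 4 := ⟨[a0, a63, a106], [a235, a42, a190], (M a48 (F (T t309 (T t551 (L l28 (T t579 N))))))⟩
def e0_63_106__235_42_115 : Ent 4 := ⟨[a0, a63, a106], [a235, a42, a191], (M a48 (F (T t309 (L l190 (L l220 (T t551 (L l28 (L l295 (T t6498 (L l28 (T t6499 N)))))))))))⟩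
def e0_63_106__235_42_116 : Ent 4 := ⟨[a0, a63, a106], [a235, a42, a192], (M a240 (F (L l339 (T t4781 (L l236 (L l339 (L l392 (T t6500 (L l295 (L l296 (L l339 (T t6501 (L l28 (L l339 (T t6502 (L l339 (T t6503 (K a133 (M a90 (L l339 (F (T t4788 (L l392 (T t6504 (K a74 (Fr a15 a165 l483 (V t6505)) (K a15 (Fr a74 a122 l130 (V t6506)) N)))))))) (K a85 (M a12 (F (L l292 (T t2745 (L l272 (L l339 (T t6595 N))))))) (K a181 (M a12 (F (T t3358 (L l56 (L l272 (T t2415 (L l272 (T t6512 N)))))))) (K a74 (M a165 (L l339 (F (T t6492 (L l295 (L l296 (T t6513 (L l54 (L l84 (L l318 (T t6514 (K a133 (Fr a15 a90 l483 (V t6515)) (K a15 (M a133 (F (T t6516 (L l28 (L l236 (L l318 (L l484 (T t6517 N)))))))) N))))))))))))) (K a90 (M a252 (F (L l334 (T t6518 (L l148 (L l489 (T t6519 (L l309 (T t6675 N))))))))) (K a122 (M a12 (F (T t2747 (L l56 (L l272 (T t2415 (L l272 (T t6512 N)))))))) (K a15 (M a248 (L l339 (F (T t6520 (L l22 (L l391 (T t6521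 (K a133 (M a74 (F (T t6522 (L l3 (L l56 (L l334 (T t6523 N))))))) (K a74 (M a133 (F (T t3821 (T t6520 (L l469 (L l484 (T t6524 N))))))) N))))))))) N))))))))))))))))))))))))⟩
def e0_63_106__235_42_117 : Ent 4 := ⟨[a0, a63, a106], [a235, a42, a193], (M a48 (F (T t304 (L l28 (T t579 (L l515 (T t551 N)))))))⟩
def e0_63_106__235_42_118 : Ent 4 := ⟨[a0, a63, a106], [a235, a42, a194], (M a48 (F (T t578 (L l28 (L l234 (T t579 (T t551 N)))))))⟩
def e0_63_106__235_42_119 : Ent 4 := ⟨[a0, a63, a106], [a235, a42, a195], (M a48 (L l295 (F (T t585 (L l273 (T t551 (L l28 (T t579 (K a215 (M a255 (F (T t6960 (L l235 (T t304 N))))) (K a255 (M a215 (F (T t585 (L l266 (L l273 (T t551 (L l28 (L l289 (T t8084 (L l28 (L l289 (T t6527 N)))))))))))) N))))))))))⟩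
def e0_63_106__235_42_120 : Ent 4 := ⟨[a0, a63, a106], [a235, a42, a196], (M a48 (F (T t304 (L l28 (T t579 (L l495 (T t551 N)))))))⟩
def e0_63_106__235_42_121 : Ent 4 := ⟨[a0, a63, a106], [a235, a42, a197], (M a240 (F (L l236 (T t4779 (L l491 (T t817 (T t4781 N)))))))⟩
def e0_63_106__235_42_122 : Ent 4 := ⟨[a0, a63, a106], [a235, a42, a198], (M a48 (F (T t578 (L l28 (L l234 (T t579 (T t551 N)))))))⟩
def e0_63_106__235_42_123 : Ent 4 := ⟨[a0, a63, a106], [a235, a42, a199], (M a48 (F (T t309 (T t551 (L l28 (T t579 N))))))⟩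
def e0_63_106__235_42_124 : Ent 4 := ⟨[a0, a63, a106], [a235, a42, a200], (M a48 (F (T t578 (L l28 (L l230 (T t579 (T t551 N)))))))⟩
def e0_63_106__235_42_125 : Ent 4 := ⟨[a0, a63, a106], [a235, a42, a201], (M a48 (F (T t578 (L l28 (L l230 (T t579 (T t551 N)))))))⟩
def e0_63_106__235_42_126 : Ent 4 := ⟨[a0, a63, a106], [a235, a42, a202], (M a240 (F (L l236 (T t4786 (T t817 (L l318 (T t4781 N)))))))⟩
def e0_63_106__235_42_127 : Ent 4 := ⟨[a0, a63, a106], [a235, a42, a203], (M a48 (L l283 (F (T t2348 (L l28 (L l230 (T t579 (T t551 (K a219 (M a251 (F (T t2348 (L l28 (L l230 (L l245 (T t579 (T t551 N)))))))) (K a251 (M a219 (F (T t2348 (L l28 (L l230 (T t579 (T t551 N))))))) N))))))))))⟩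
def e0_63_106__235_42_128 : Ent 4 := ⟨[a0, a63, a106], [a235, a42, a204], (M a48 (F (T t585 (L l298 (T t551 (L l28 (T t579 N)))))))⟩
def e0_63_106__235_42_129 : Ent 4 := ⟨[a0, a63, a106], [a235, a42, a205], (M a48 (F (T t309 (T t551 (L l28 (T t579 N))))))⟩
def e0_63_106__235_42_130 : Ent 4 := ⟨[a0, a63, a106], [a235, a42, a206], (M a48 (F (T t2348 (L l28 (L l234 (T t579 (T t551 N)))))))⟩
def e0_63_106__235_42_131 : Ent 4 := ⟨[a0, a63, a106], [a235, a42, a207], (M a240 (F (T t6525 (L l512 (T t817 (T t4781 N))))))⟩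
def e0_63_106__235_42_132 : Ent 4 := ⟨[a0, a63, a106], [a235, a42, a212], (M a48 (F (T t304 (L l28 (T t579 (L l351 (T t551 N)))))))⟩
def e0_63_106__235_42_133 : Ent 4 := ⟨[a0, a63, a106], [a235, a42, a213], (M a48 (F (T t585 (L l347 (T t551 (L l28 (L l246 (T t579 N))))))))⟩
def e0_63_106__235_42_134 : Ent 4 := ⟨[a0, a63, a106], [a235, a42, a214], (M a48 (F (T t309 (T t551 (L l28 (T t579 N))))))⟩
def e0_63_106__235_42_135 : Ent 4 := ⟨[a0, a63, a106], [a235, a42, a215], (M a195 (F (L l391 (T t6880 (T t6810 (L l349 (T t6811 N)))))))⟩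
def e0_63_106__235_42_136 : Ent 4 := ⟨[a0, a63, a106], [a235, a42, a216], (M a48 (F (T t309 (L l298 (T t551 (L l28 (T t579 N)))))))⟩
def e0_63_106__235_42_137 : Ent 4 := ⟨[a0, a63, a106], [a235, a42, a217], (M a48 (F (T t309 (T t551 (L l28 (T t579 N))))))⟩
def e0_63_106__235_42_138 : Ent 4 := ⟨[a0, a63, a106], [a235, a42, a218], (M a48 (F (T t2348 (L l28 (L l246 (L l282 (T t579 (L l303 (T t551 N)))))))))⟩
def e0_63_106__235_42_139 : Ent 4 := ⟨[a0, a63, a106], [a235, a42, a219], (M a48 (L l283 (F (T t309 (T t551 (L l28 (L l245 (T t579 (K a203 (M a251 (F (T t2348 (L l28 (L l230 (L l245 (T t579 (T t551 N)))))))) (K a251 (M a203 (F (T t3405 (T t551 (L l28 (L l245 (T t579 N))))))) N))))))))))⟩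
def e0_63_106__235_42_140 : Ent 4 := ⟨[a0, a63, a106], [a235, a42, a220], (M a48 (F (T t309 (T t551 (L l28 (L l241 (T t579 N)))))))⟩
def e0_63_106__235_42_141 : Ent 4 := ⟨[a0, a63, a106], [a235, a42, a221], (M a48 (F (T t309 (T t551 (L l28 (L l241 (T t579 N)))))))⟩
def e0_63_106__235_42_142 : Ent 4 := ⟨[a0, a63, a106], [a235, a42, a222], (M a48 (F (T t309 (T t551 (L l28 (L l241 (T t579 N)))))))⟩
def e0_63_106__235_42_143 : Ent 4 := ⟨[a0, a63, a106], [a235, a42, a223], (M a240 (F (T t4786 (L l368 (T t817 (L l361 (T t4781 N)))))))⟩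
def e0_63_106__235_42_144 : Ent 4 := ⟨[a0, a63, a106], [a235, a42, a232], (M a48 (L l250 (F (T t585 (T t551 (L l28 (T t579 (K a233 (M a234 (F (T t6150 (T t304 (L l28 (T t579 N)))))) (K a234 (M a233 (F (T t578 (L l28 (L l282 (T t579 (T t551 N))))))) N)))))))))⟩
def e0_63_106__235_42_145 : Ent 4 := ⟨[a0, a63, a106], [a235, a42, a233], (M a48 (L l250 (F (T t309 (T t551 (L l28 (T t579 (K a232 (M a234 (F (T t6150 (T t304 (L l28 (T t579 N)))))) (K a234 (M a232 (F (T t8306 (L l28 (L l282 (T t579 N)))))) N)))))))))⟩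
def e0_63_106__235_42_146 : Ent 4 := ⟨[a0, a63, a106], [a235, a42, a234], (M a48 (L l250 (F (T t578 (L l28 (L l282 (T t579 (T t551 (K a232 (M a233 (F (T t578 (L l28 (L l282 (T t579 (T t551 N))))))) (K a233 (M a232 (F (T t8306 (L l28 (L l282 (T t579 N)))))) N))))))))))⟩
def e0_63_106__235_42_147 : Ent 4 := ⟨[a0, a63, a106], [a235, a42, a236], (M a48 (F (T t309 (T t551 (L l28 (L l400 (T t579 N)))))))⟩
def e0_63_106__235_42_148 : Ent 4 := ⟨[a0, a63, a106], [a235, a42, a237], (M a48 (F (T t309 (T t551 (L l28 (T t579 N))))))⟩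
def e0_63_106__235_42_149 : Ent 4 := ⟨[a0, a63, a106], [a235, a42, a238], (M a48 (F (T t309 (T t551 (L l28 (T t579 N))))))⟩
def e0_63_106__235_42_150 : Ent 4 := ⟨[a0, a63, a106], [a235, a42, a239], (M a48 (L l255 (F (T t309 (T t551 (L l28 (L l289 (L l404 (T t579 (K a227 (M a231 (F (T t309 (T t551 (L l28 (L l289 (L l380 (L l404 (T t579 N))))))))) (K a231 (M a227 (F (T t309 (T t551 (L l28 (L l289 (L l404 (T t579 N)))))))) N)))))))))))⟩
def e0_63_106__235_42_151 : Ent 4 := ⟨[a0, a63, a106], [a235, a42, a252], (M a48 (F (T t585 (L l262 (T t551 (L l28 (T t579 N)))))))⟩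
def e0_63_106__235_42_152 : Ent 4 := ⟨[a0, a63, a106], [a235, a42, a253], (M a48 (F (T t309 (T t551 (L l28 (T t579 N))))))⟩
def e0_63_106__235_42_153 : Ent 4 := ⟨[a0, a63, a106], [a235, a42, a254], (M a48 (F (T t309 (T t551 (L l28 (T t579 N))))))⟩
def e0_63_106__235_42_154 : Ent 4 := ⟨[a0, a63, a106], [a235, a42, a255], (M a48 (L l295 (F (T t585 (L l266 (T t551 (L l28 (L l469 (T t6526 (L l28 (L l289 (T t6527 (K a195 (M a215 (F (T t585 (L l266 (L l273 (T t551 (L l28 (L l289 (T t8084 (L l28 (L l289 (T t6527 N)))))))))))) (K a215 (M a195 (F (T t585 (L l265 (T t4663 N))))) N))))))))))))))⟩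
def b0_63_106__235_42 : Blk 4 := ⟨[0, 63, 106], [235, 42], [1, 2, 3, 4, 5, 6, 7, 8, 9, 10, 11, 12, 13, 14, 15, 20, 21, 22, 23, 24, 25, 26, 27, 28, 29, 30, 31, 40, 41, 43, 44, 45, 46, 47, 60, 61, 62, 64, 65, 66, 67, 68, 69, 70, 71, 72, 73, 74, 75, 76, 77, 78, 79, 84, 85, 86, 87, 88, 89, 90, 91, 92, 93, 94, 95, 104, 105, 107, 108, 109, 110, 111, 124, 125, 126, 127, 128, 129, 130, 131, 132, 133, 134, 135, 136, 137, 138, 139, 140, 141, 142, 143, 148, 149, 150, 151, 152, 153, 154, 155, 156, 157, 158, 159, 168, 169, 170, 171, 172, 173, 174, 175, 188, 189, 190, 191, 192, 193, 194, 195, 196, 197, 198, 199, 200, 201, 202, 203, 204, 205, 206, 207, 212, 213, 214, 215, 216, 217, 218, 219, 220, 221, 222, 223, 232, 233, 234, 236, 237, 238, 239, 252, 253, 254, 255], [e0_63_106__235_42_0, e0_63_106__235_42_1, e0_63_106__235_42_2, e0_63_106__235_42_3, e0_63_106__235_42_4, e0_63_106__235_42_5, e0_63_106__235_42_6, e0_63_106__235_42_7,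 e0_63_106__235_42_8, e0_63_106__235_42_9, e0_63_106__235_42_10, e0_63_106__235_42_11, e0_63_106__235_42_12, e0_63_106__235_42_13, e0_63_106__235_42_14, e0_63_106__235_42_15, e0_63_106__235_42_16, e0_63_106__235_42_17, e0_63_106__235_42_18, e0_63_106__235_42_19, e0_63_106__235_42_20, e0_63_106__235_42_21, e0_63_106__235_42_22, e0_63_106__235_42_23, e0_63_106__235_42_24, e0_63_106__235_42_25, e0_63_106__235_42_26, e0_63_106__235_42_27, e0_63_106__235_42_28, e0_63_106__235_42_29, e0_63_106__235_42_30, e0_63_106__235_42_31, e0_63_106__235_42_32, e0_63_106__235_42_33, e0_63_106__235_42_34, e0_63_106__235_42_35, e0_63_106__235_42_36, e0_63_106__235_42_37, e0_63_106__235_42_38, e0_63_106__235_42_39, e0_63_106__235_42_40, e0_63_106__235_42_41, e0_63_106__235_42_42, e0_63_106__235_42_43, e0_63_106__235_42_44, e0_63_106__235_42_45, e0_63_106__235_42_46, e0_63_106__235_42_47, e0_63_106__235_42_48, e0_63_106__235_42_49, e0_63_106__235_42_50,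 e0_63_106__235_42_51, e0_63_106__235_42_52, e0_63_106__235_42_53, e0_63_106__235_42_54, e0_63_106__235_42_55, e0_63_106__235_42_56, e0_63_106__235_42_57, e0_63_106__235_42_58, e0_63_106__235_42_59, e0_63_106__235_42_60, e0_63_106__235_42_61, e0_63_106__235_42_62, e0_63_106__235_42_63, e0_63_106__235_42_64, e0_63_106__235_42_65, e0_63_106__235_42_66, e0_63_106__235_42_67, e0_63_106__235_42_68, e0_63_106__235_42_69, e0_63_106__235_42_70, e0_63_106__235_42_71, e0_63_106__235_42_72, e0_63_106__235_42_73, e0_63_106__235_42_74, e0_63_106__235_42_75, e0_63_106__235_42_76, e0_63_106__235_42_77, e0_63_106__235_42_78, e0_63_106__235_42_79, e0_63_106__235_42_80, e0_63_106__235_42_81, e0_63_106__235_42_82, e0_63_106__235_42_83, e0_63_106__235_42_84, e0_63_106__235_42_85, e0_63_106__235_42_86, e0_63_106__235_42_87, e0_63_106__235_42_88, e0_63_106__235_42_89, e0_63_106__235_42_90, e0_63_106__235_42_91, e0_63_106__235_42_92, e0_63_106__235_42_93,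 e0_63_106__235_42_94, e0_63_106__235_42_95, e0_63_106__235_42_96, e0_63_106__235_42_97, e0_63_106__235_42_98, e0_63_106__235_42_99, e0_63_106__235_42_100, e0_63_106__235_42_101, e0_63_106__235_42_102, e0_63_106__235_42_103, e0_63_106__235_42_104, e0_63_106__235_42_105, e0_63_106__235_42_106, e0_63_106__235_42_107, e0_63_106__235_42_108, e0_63_106__235_42_109, e0_63_106__235_42_110, e0_63_106__235_42_111, e0_63_106__235_42_112, e0_63_106__235_42_113, e0_63_106__235_42_114, e0_63_106__235_42_115, e0_63_106__235_42_116, e0_63_106__235_42_117, e0_63_106__235_42_118, e0_63_106__235_42_119, e0_63_106__235_42_120, e0_63_106__235_42_121, e0_63_106__235_42_122, e0_63_106__235_42_123, e0_63_106__235_42_124, e0_63_106__235_42_125, e0_63_106__235_42_126, e0_63_106__235_42_127, e0_63_106__235_42_128, e0_63_106__235_42_129, e0_63_106__235_42_130, e0_63_106__235_42_131, e0_63_106__235_42_132, e0_63_106__235_42_133, e0_63_106__235_42_134,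 e0_63_106__235_42_135, e0_63_106__235_42_136, e0_63_106__235_42_137, e0_63_106__235_42_138, e0_63_106__235_42_139, e0_63_106__235_42_140, e0_63_106__235_42_141, e0_63_106__235_42_142, e0_63_106__235_42_143, e0_63_106__235_42_144, e0_63_106__235_42_145, e0_63_106__235_42_146, e0_63_106__235_42_147, e0_63_106__235_42_148, e0_63_106__235_42_149, e0_63_106__235_42_150, e0_63_106__235_42_151, e0_63_106__235_42_152, e0_63_106__235_42_153, e0_63_106__235_42_154], by decide +kernel, by decide +kernel⟩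
def e0_63_106__239_42_0 : Ent 4 := ⟨[a0, a63, a106], [a239, a42, a1], (M a48 (F (T t309 (T t551 (L l28 (L l289 (L l404 (T t579 N))))))))⟩
def e0_63_106__239_42_1 : Ent 4 := ⟨[a0, a63, a106], [a239, a42, a2], (M a48 (L l66 (F (T t309 (T t551 (L l28 (L l289 (L l404 (T t579 (K a22 (M a62 (F (T t309 (L l22 (L l306 (T t5926 N)))))) (K a62 (M a22 (F (T t309 (T t551 (L l28 (L l289 (L l404 (T t579 N)))))))) N)))))))))))⟩
def e0_63_106__239_42_2 : Ent 4 := ⟨[a0, a63, a106], [a239, a42, a3], (M a48 (F (T t5173 (L l453 (T t551 (L l28 (L l289 (L l404 (T t579 N)))))))))⟩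
def e0_63_106__239_42_3 : Ent 4 := ⟨[a0, a63, a106], [a239, a42, a5], (M a48 (F (L l47 (T t309 (T t551 (L l28 (L l47 (L l289 (L l404 (T t579 N))))))))))⟩
def e0_63_106__239_42_4 : Ent 4 := ⟨[a0, a63, a106], [a239, a42, a6], (M a48 (F (T t309 (T t551 (L l28 (L l289 (L l404 (T t579 N))))))))⟩
def e0_63_106__239_42_5 : Ent 4 := ⟨[a0, a63, a106], [a239, a42, a7], (M a48 (F (T t309 (T t551 (L l28 (L l289 (L l404 (T t579 N))))))))⟩
def e0_63_106__239_42_6 : Ent 4 := ⟨[a0, a63, a106], [a239, a42, a10], (M a48 (L l54 (F (L l318 (T t309 (T t551 (L l28 (L l289 (L l318 (L l404 (T t579 (K a26 (Fr a58 a53 l38 (V t6446)) (K a58 (M a26 (F (L l28 (L l404 (T t4144 (T t551 (L l28 (L l256 (L l426 (T t6447 (K a32 (Fr a192 a149 l519 (Fr a15 a37 l75 (Fr a47 a31 l61 (V t6528)))) N))))))))))) N)))))))))))))⟩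
def e0_63_106__239_42_7 : Ent 4 := ⟨[a0, a63, a106], [a239, a42, a11], (M a48 (F (T t309 (T t551 (L l28 (L l289 (L l404 (T t579 N))))))))⟩
def e0_63_106__239_42_8 : Ent 4 := ⟨[a0, a63, a106], [a239, a42, a15], (M a48 (F (T t5173 (L l483 (T t551 (L l28 (L l289 (L l404 (T t579 N)))))))))⟩
def e0_63_106__239_42_9 : Ent 4 := ⟨[a0, a63, a106], [a239, a42, a16], (M a240 (F (T t6609 (L l340 (T t4780 (T t4781 N))))))⟩
def e0_63_106__239_42_10 : Ent 4 := ⟨[a0, a63, a106], [a239, a42, a17], (M a48 (F (T t309 (T t551 (L l28 (L l289 (L l404 (T t579 N))))))))⟩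
def e0_63_106__239_42_11 : Ent 4 := ⟨[a0, a63, a106], [a239, a42, a18], (M a48 (F (T t309 (T t551 (L l28 (L l289 (L l404 (T t579 N))))))))⟩
def e0_63_106__239_42_12 : Ent 4 := ⟨[a0, a63, a106], [a239, a42, a19], (M a48 (F (T t309 (T t551 (L l28 (L l289 (L l367 (L l404 (T t579 N)))))))))⟩
def e0_63_106__239_42_13 : Ent 4 := ⟨[a0, a63, a106], [a239, a42, a21], (M a48 (F (L l47 (T t309 (L l347 (T t551 (L l28 (L l47 (L l289 (L l404 (T t579 N)))))))))))⟩
def e0_63_106__239_42_14 : Ent 4 := ⟨[a0, a63, a106], [a239, a42, a22], (M a48 (L l66 (F (T t309 (T t551 (L l28 (L l289 (L l404 (T t579 (K a2 (M a62 (F (T t309 (L l22 (L l306 (T t5926 N)))))) (K a62 (M a2 (F (T t309 (L l36 (T t339 (L l19 (L l28 (L l404 (T t342 N))))))))) N)))))))))))⟩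
def e0_63_106__239_42_15 : Ent 4 := ⟨[a0, a63, a106], [a239, a42, a23], (M a48 (F (T t309 (L l351 (T t551 (L l28 (L l289 (L l404 (T t579 N)))))))))⟩
def e0_63_106__239_42_16 : Ent 4 := ⟨[a0, a63, a106], [a239, a42, a26], (M a48 (L l54 (F (T t309 (T t551 (L l28 (L l289 (L l404 (T t579 (K a10 (Fr a58 a53 l38 (V t6446)) (K a58 (M a10 (F (L l289 (T t4033 (T t551 (L l18 (L l256 (L l426 (T t6450 (L l18 (L l256 (L l354 (T t7163 N))))))))))))) N)))))))))))⟩
def e0_63_106__239_42_17 : Ent 4 := ⟨[a0, a63, a106], [a239, a42, a27], (M a48 (F (T t309 (T t551 (L l28 (L l289 (L l404 (T t579 N))))))))⟩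
def e0_63_106__239_42_18 : Ent 4 := ⟨[a0, a63, a106], [a239, a42, a31], (M a48 (F (T t309 (L l375 (T t551 (L l28 (L l289 (L l361 (L l404 (T t579 N))))))))))⟩
def e0_63_106__239_42_19 : Ent 4 := ⟨[a0, a63, a106], [a239, a42, a32], (M a15 (L l28 (L l404 (F (T t7158 (L l54 (L l256 (L l376 (T t2532 (L l289 (T t6819 (K a37 (Fr a47 a31 l61 (V t7220)) (K a101 (M a170 (L l28 (F (T t3207 (L l376 (L l383 (T t8308 (L l256 (L l376 (T t8309 (K a37 (Fr a47 a31 l61 (V t6879)) (K a47 (M a37 (L l397 (F (L l54 (T t7221 (T t3207 (K a111 (M a175 (F (T t7226 (L l376 (T t8310 N))))) (K a175 (M a111 (F (T t3207 (L l54 (T t7221 N))))) N)))))))) N)))))))))))) (K a170 (M a101 (L l28 (F (L l220 (T t7158 (L l54 (L l206 (T t8311 (L l376 (T t8104 (K a37 (Fr a47 a31 l61 (V t7220)) (K a47 (M a37 (L l397 (F (L l54 (L l462 (T t7221 (L l206 (L l376 (T t8089 (K a111 (M a175 (F (L l54 (L l462 (T t7221 (L l220 (L l289 (T t6819 (L l256 (T t7227 N))))))))))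 (K a175 (Fr a111 a96 l104 (V t7221)) N))))))))))) N)))))))))))) (K a47 (M a37 (L l397 (L l404 (F (L l54 (T t7221 (L l289 (T t6819 (L l54 (L l289 (T t8312 (K a10 (Fr a192 a149 l519 (Fr a48 a26 l75 (Fr a58 a53 l38 (V t8346)))) (K a101 (M a170 (L l397 (F (L l54 (T t7221 (T t3207 (K a111 (M a175 (F (T t7226 (L l376 (T t8310 N))))) (K a175 (M a111 (F (T t3207 (L l54 (T t7221 N))))) N)))))))) (K a170 (M a101 (L l397 (F (L l54 (L l462 (T t7221 (L l206 (L l376 (T t8089 (K a111 (M a175 (F (L l54 (L l462 (T t7221 (L l220 (L l289 (T t6819 (L l256 (T t7227 N)))))))))) (K a175 (Fr a111 a96 l104 (V t7221)) N))))))))))) (K a111 (M a175 (L l404 (F (L l54 (T t7221 (L l137 (T t7225 (K a101 (M a170 (F (T t7226 (L l376 (T t8310 N))))) (K a170 (M a101 (F (L l54 (L l462 (T t7221 (L l220 (L l289 (T t6819 (L l256 (T t7227 N)))))))))) N))))))))) (K a175 (M a111 (L l404 (F (L l54 (T t7221 (L l213 (L l376 (T t8314 (K a101 (M a170 (F (T t3207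 (L l54 (T t7221 N))))) (K a170 (Fr a101 a96 l104 (V t7221)) N)))))))))) N)))))))))))))))) N)))))))))))))))⟩
def e0_63_106__239_42_20 : Ent 4 := ⟨[a0, a63, a106], [a239, a42, a33], (M a48 (F (T t309 (T t551 (L l20 (L l28 (L l289 (L l404 (T t579 N)))))))))⟩
def e0_63_106__239_42_21 : Ent 4 := ⟨[a0, a63, a106], [a239, a42, a34], (M a48 (L l26 (F (T t309 (T t551 (L l20 (L l28 (L l289 (L l404 (T t579 (K a38 (M a46 (F (T t309 (L l56 (L l378 (T t4030 N)))))) (K a46 (M a38 (F (T t309 (T t551 (L l20 (L l28 (L l289 (L l404 (T t579 N))))))))) N))))))))))))⟩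
def e0_63_106__239_42_22 : Ent 4 := ⟨[a0, a63, a106], [a239, a42, a35], (M a48 (L l403 (F (T t309 (T t551 (L l20 (L l28 (L l289 (L l404 (T t579 (K a103 (M a171 (F (T t309 (T t551 (L l20 (L l28 (L l289 (L l404 (T t579 N))))))))) (K a171 (M a103 (F (T t309 (T t551 (L l20 (L l28 (L l289 (L l404 (T t579 N))))))))) N))))))))))))⟩
def e0_63_106__239_42_23 : Ent 4 := ⟨[a0, a63, a106], [a239, a42, a37], (M a48 (L l28 (F (T t551 (L l47 (L l289 (L l383 (L l404 (T t8315 (L l47 (L l383 (L l397 (L l404 (T t585 (L l47 (L l289 (L l397 (T t8316 (K a32 (M a47 (L l404 (F (T t7964 (L l47 (T t309 (L l54 (L l256 (L l376 (T t6764 (K a101 (M a170 (L l383 (F (T t3207 (L l47 (L l151 (L l256 (L l376 (L l491 (T t8317 (L l47 (L l376 (T t8318 (K a165 (M a229 (F (L l289 (T t3201 (L l123 (L l151 (L l455 (L l483 (T t514 (L l47 (L l199 (L l455 (L l491 (T t8319 (L l47 (L l491 (T t8320 N))))))))))))))))) (K a229 (Fr a165 a224 l411 (M a234 (L l376 (F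 (L l289 (T t3201 (L l491 (T t8321 (L l123 (L l275 (T t8322 (K a96 (Fr a160 a175 l180 (V t6879)) (K a160 (M a96 (F (T t7884 (L l289 (T t8323 N))))) N))))))))))))) N))))))))))))))) (K a170 (M a101 (F (T t8324 (L l206 (T t7320 N))))) N)))))))))))) (K a47 (Fr a32 a16 l40 (V t3405)) N))))))))))))))))))))⟩
def e0_63_106__239_42_24 : Ent 4 := ⟨[a0, a63, a106], [a239, a42, a38], (M a48 (L l26 (F (T t309 (T t551 (L l28 (L l289 (L l404 (T t579 (K a34 (M a46 (F (T t309 (L l56 (L l378 (T t4030 N)))))) (K a46 (M a34 (F (T t309 (L l29 (L l66 (L l403 (T t6453 N))))))) N)))))))))))⟩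
def e0_63_106__239_42_25 : Ent 4 := ⟨[a0, a63, a106], [a239, a42, a39], (M a48 (F (T t309 (T t551 (L l28 (L l289 (L l404 (T t579 N))))))))⟩
def e0_63_106__239_42_26 : Ent 4 := ⟨[a0, a63, a106], [a239, a42, a43], (M a48 (L l22 (F (T t309 (T t551 (L l28 (L l289 (L l404 (T t579 (K a40 (M a41 (F (T t309 (T t551 (L l24 (L l28 (L l289 (L l404 (T t579 N))))))))) (K a41 (M a40 (F (T t309 (L l29 (L l69 (L l398 (T t6452 N))))))) N)))))))))))⟩
def e0_63_106__239_42_27 : Ent 4 := ⟨[a0, a63, a106], [a239, a42, a47], (M a111 (L l28 (F (T t7948 (T t7945 (T t7946 (T t7947 (K a32 (M a37 (L l404 (F (L l376 (T t7948 (T t7946 (L l376 (T t7945 (L l376 (T t8325 (K a101 (M a170 (F (L l289 (L l491 (T t6855 (L l54 (L l123 (L l151 (T t8326 (L l151 (L l491 (T t8327 (L l54 (L l123 (L l289 (T t8328 N)))))))))))))))) (K a170 (Fr a101 a96 l104 (V t7943)) N)))))))))))) (K a37 (M a32 (F (T t8329 (T t7945 (L l256 (L l383 (T t7953 (T t7946 N))))))))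 N)))))))))⟩
def e0_63_106__239_42_28 : Ent 4 := ⟨[a0, a63, a106], [a239, a42, a48], (M a12 (F (T t2419 (L l508 (T t2305 (L l56 (T t2415 N)))))))⟩
def e0_63_106__239_42_29 : Ent 4 := ⟨[a0, a63, a106], [a239, a42, a49], (M a48 (F (L l35 (T t309 (T t551 (L l28 (L l35 (L l289 (L l404 (T t579 N))))))))))⟩
def e0_63_106__239_42_30 : Ent 4 := ⟨[a0, a63, a106], [a239, a42, a50], (M a48 (F (T t309 (T t551 (L l28 (L l289 (L l404 (T t579 N))))))))⟩
def e0_63_106__239_42_31 : Ent 4 := ⟨[a0, a63, a106], [a239, a42, a51], (M a48 (F (T t5173 (L l417 (T t551 (L l28 (L l289 (L l404 (T t579 N)))))))))⟩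
def e0_63_106__239_42_32 : Ent 4 := ⟨[a0, a63, a106], [a239, a42, a53], (M a240 (F (T t7478 (L l256 (L l491 (T t817 (L l419 (T t4781 N))))))))⟩
def e0_63_106__239_42_33 : Ent 4 := ⟨[a0, a63, a106], [a239, a42, a54], (M a48 (F (L l31 (T t309 (T t551 (L l28 (L l31 (L l289 (L l404 (T t579 N))))))))))⟩
def e0_63_106__239_42_34 : Ent 4 := ⟨[a0, a63, a106], [a239, a42, a55], (M a48 (F (L l31 (T t309 (L l495 (T t551 (L l28 (L l31 (L l289 (L l404 (T t579 N)))))))))))⟩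
def e0_63_106__239_42_35 : Ent 4 := ⟨[a0, a63, a106], [a239, a42, a58], (M a240 (L l54 (F (T t4779 (L l256 (T t817 (T t4781 (K a10 (M a26 (F (L l318 (T t6965 (L l256 (T t817 (L l318 (L l404 (L l462 (T t6482 N)))))))))) (K a26 (M a10 (F (T t6609 (T t6610 (L l18 (L l256 (T t6611 N))))))) N)))))))))⟩
def e0_63_106__239_42_36 : Ent 4 := ⟨[a0, a63, a106], [a239, a42, a59], (M a48 (L l56 (F (T t309 (T t551 (L l28 (L l289 (L l404 (T t579 (K a8 (M a25 (F (T t309 (T t551 (L l28 (L l289 (L l404 (T t579 N)))))))) (K a25 (M a8 (F (T t309 (L l32 (T t4681 (L l19 (L l28 (L l404 (T t4700 N))))))))) N)))))))))))⟩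
def e0_63_106__239_42_37 : Ent 4 := ⟨[a0, a63, a106], [a239, a42, a64], (M a48 (F (L l54 (T t4540 (L l84 (L l289 (L l397 (T t8330 (L l289 (L l397 (T t304 (L l289 (L l397 (T t578 (K a192 (Fr a16 a32 l40 (Fr a58 a53 l38 (Fr a154 a202 l498 (Fr a85 a223 l368 (Fr a207 a101 l512 (Fr a170 a255 l476 (V t8347))))))) (K a149 (Fr a16 a32 l40 (Fr a58 a53 l38 (Fr a154 a202 l498 (Fr a85 a223 l368 (Fr a255 a170 l476 (Fr a101 a207 l512 (V t8348))))))) (K a53 (Fr a192 a149 l519 (Fr a16 a32 l40 (Fr a96 a144 l484 (Fr a101 a111 l104 (Fr a154 a207 l512 (Fr a85 a223 l368 (Fr a255 a170 l476 (V t8348)))))))) (K a202 (Fr a149 a192 l519 (Fr a53 a58 l38 (Fr a101 a197 l491 (Fr a207 a154 l512 (V t7339))))) (K a154 (M a12 (F (T t2304 (L l28 (L l404 (T t443 N)))))) (K a58 (Fr a192 a149 l519 (Fr a16 a32 l40 (Fr a96 a144 l484 (Fr a101 a111 l104 (Fr a154 a207 l512 (Fr a85 a223 l368 (Fr a255 a170 l476 (V t8348)))))))) (K a207 (Fr a192 a149 l519 (Fr a16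 a32 l40 (Fr a58 a53 l38 (Fr a154 a202 l498 (Fr a96 a144 l484 (Fr a85 a223 l368 (Fr a255 a170 l476 (Fr a101 a111 l104 (V t8348))))))))) (K a111 (Fr a16 a32 l40 (Fr a58 a53 l38 (Fr a154 a202 l498 (Fr a85 a223 l368 (Fr a255 a170 l476 (Fr a101 a207 l512 (V t8348))))))) N))))))))))))))))))))))⟩
def e0_63_106__239_42_38 : Ent 4 := ⟨[a0, a63, a106], [a239, a42, a65], (M a48 (F (T t309 (L l76 (T t551 (L l28 (L l76 (L l289 (L l404 (T t579 N))))))))))⟩
def e0_63_106__239_42_39 : Ent 4 := ⟨[a0, a63, a106], [a239, a42, a66], (M a48 (F (T t5173 (L l76 (T t551 (L l28 (L l76 (L l289 (L l404 (T t579 N))))))))))⟩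
def e0_63_106__239_42_40 : Ent 4 := ⟨[a0, a63, a106], [a239, a42, a67], (M a48 (F (T t309 (L l76 (T t551 (L l28 (L l76 (L l289 (L l404 (T t579 N))))))))))⟩
def e0_63_106__239_42_41 : Ent 4 := ⟨[a0, a63, a106], [a239, a42, a69], (M a48 (F (T t309 (L l84 (T t551 (L l28 (L l84 (L l289 (L l404 (T t579 N))))))))))⟩
def e0_63_106__239_42_42 : Ent 4 := ⟨[a0, a63, a106], [a239, a42, a70], (M a48 (F (T t309 (T t551 (L l28 (L l289 (L l404 (T t579 N))))))))⟩
def e0_63_106__239_42_43 : Ent 4 := ⟨[a0, a63, a106], [a239, a42, a71], (M a48 (F (T t309 (T t551 (L l28 (L l289 (L l404 (T t579 N))))))))⟩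
def e0_63_106__239_42_44 : Ent 4 := ⟨[a0, a63, a106], [a239, a42, a74], (M a48 (F (L l397 (T t2348 (L l84 (T t551 (L l28 (L l84 (L l289 (L l318 (L l404 (T t579 N))))))))))))⟩
def e0_63_106__239_42_45 : Ent 4 := ⟨[a0, a63, a106], [a239, a42, a75], (M a48 (F (T t309 (T t551 (L l28 (L l289 (L l404 (T t579 N))))))))⟩
def e0_63_106__239_42_46 : Ent 4 := ⟨[a0, a63, a106], [a239, a42, a79], (M a48 (F (T t309 (L l84 (T t551 (L l28 (L l84 (L l289 (L l404 (T t579 N))))))))))⟩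
def e0_63_106__239_42_47 : Ent 4 := ⟨[a0, a63, a106], [a239, a42, a80], (M a12 (F (T t2304 (L l116 (T t2305 (L l56 (L l116 (T t2415 N))))))))⟩
def e0_63_106__239_42_48 : Ent 4 := ⟨[a0, a63, a106], [a239, a42, a81], (M a48 (F (T t309 (L l120 (T t551 (L l28 (L l120 (L l289 (L l404 (T t579 N))))))))))⟩
def e0_63_106__239_42_49 : Ent 4 := ⟨[a0, a63, a106], [a239, a42, a82], (M a48 (F (T t309 (L l453 (T t551 (L l28 (L l289 (L l404 (T t579 N)))))))))⟩
def e0_63_106__239_42_50 : Ent 4 := ⟨[a0, a63, a106], [a239, a42, a83], (M a48 (F (T t309 (T t551 (L l28 (L l289 (L l404 (T t579 N))))))))⟩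
def e0_63_106__239_42_51 : Ent 4 := ⟨[a0, a63, a106], [a239, a42, a85], (M a48 (F (T t309 (L l347 (T t551 (L l54 (T t777 (L l256 (L l289 (L l368 (L l397 (T t8335 (K a192 (M a240 (F (T t6230 (L l236 (L l256 (T t6471 (L l54 (L l236 (L l339 (T t6472 (L l339 (T t6473 N)))))))))))) N)))))))))))))⟩
def e0_63_106__239_42_52 : Ent 4 := ⟨[a0, a63, a106], [a239, a42, a86], (M a48 (F (T t309 (L l351 (T t551 (L l28 (L l289 (L l404 (T t579 N)))))))))⟩
def e0_63_106__239_42_53 : Ent 4 := ⟨[a0, a63, a106], [a239, a42, a87], (M a48 (F (T t309 (T t551 (L l28 (L l289 (L l367 (L l404 (T t579 N)))))))))⟩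
def e0_63_106__239_42_54 : Ent 4 := ⟨[a0, a63, a106], [a239, a42, a90], (M a48 (F (T t309 (L l375 (L l483 (T t551 (L l28 (L l289 (L l404 (T t579 N))))))))))⟩
def e0_63_106__239_42_55 : Ent 4 := ⟨[a0, a63, a106], [a239, a42, a91], (M a48 (F (T t309 (T t551 (L l28 (L l289 (L l404 (T t579 N))))))))⟩
def e0_63_106__239_42_56 : Ent 4 := ⟨[a0, a63, a106], [a239, a42, a95], (M a48 (F (T t309 (T t551 (L l28 (L l289 (L l361 (L l404 (T t579 N)))))))))⟩
def e0_63_106__239_42_57 : Ent 4 := ⟨[a0, a63, a106], [a239, a42, a96], (M a12 (F (T t2419 (L l116 (T t2305 (L l56 (L l116 (T t2415 N))))))))⟩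
def e0_63_106__239_42_58 : Ent 4 := ⟨[a0, a63, a106], [a239, a42, a97], (M a48 (F (T t309 (L l96 (T t551 (L l28 (L l289 (L l380 (L l404 (T t579 N))))))))))⟩
def e0_63_106__239_42_59 : Ent 4 := ⟨[a0, a63, a106], [a239, a42, a98], (M a48 (F (T t5173 (L l96 (L l120 (T t551 (L l28 (L l120 (L l289 (L l404 (T t579 N)))))))))))⟩
def e0_63_106__239_42_60 : Ent 4 := ⟨[a0, a63, a106], [a239, a42, a99], (M a48 (F (T t309 (L l96 (T t551 (L l28 (L l289 (L l404 (T t579 N)))))))))⟩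
def e0_63_106__239_42_61 : Ent 4 := ⟨[a0, a63, a106], [a239, a42, a101], (M a15 (L l404 (F (L l256 (T t8309 (L l289 (L l491 (L l512 (T t6819 (L l54 (L l256 (T t2532 (K a32 (M a170 (L l28 (F (T t3207 (L l376 (L l383 (T t8308 (L l256 (L l376 (T t8309 (K a37 (Fr a47 a31 l61 (V t6879)) (K a47 (M a37 (L l397 (F (L l54 (T t7221 (T t3207 (K a111 (M a175 (F (T t7226 (L l376 (T t8310 N))))) (K a175 (M a111 (F (T t3207 (L l54 (T t7221 N))))) N)))))))) N)))))))))))) (K a170 (M a32 (F (L l397 (T t8336 (L l220 (L l289 (L l491 (L l512 (T t6819 (L l151 (L l256 (L l462 (L l491 (T t8337 (L l256 (L l383 (T t8338 N))))))))))))))))) N))))))))))))))⟩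
def e0_63_106__239_42_62 : Ent 4 := ⟨[a0, a63, a106], [a239, a42, a102], (M a48 (F (T t309 (L l495 (T t551 (L l28 (L l289 (L l404 (T t579 N)))))))))⟩
def e0_63_106__239_42_63 : Ent 4 := ⟨[a0, a63, a106], [a239, a42, a103], (M a48 (L l403 (F (T t309 (T t551 (L l28 (L l289 (L l404 (T t579 (K a35 (M a171 (F (T t309 (T t551 (L l20 (L l28 (L l289 (L l404 (T t579 N))))))))) (K a171 (M a35 (F (T t309 (T t551 (L l28 (L l289 (L l404 (T t579 N)))))))) N)))))))))))⟩
def e0_63_106__239_42_64 : Ent 4 := ⟨[a0, a63, a106], [a239, a42, a107], (M a48 (F (T t309 (T t551 (L l28 (L l289 (L l404 (T t579 N))))))))⟩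
def e0_63_106__239_42_65 : Ent 4 := ⟨[a0, a63, a106], [a239, a42, a111], (M a252 (L l397 (F (T t7234 (T t2535 (T t6675 (K a47 (M a175 (L l28 (F (T t7235 (T t2535 (L l404 (T t6476 (K a32 (M a37 (L l404 (F (T t7235 (L l400 (T t2535 (L l400 (T t6675 (K a101 (M a170 (F (T t3207 (T t7236 N)))) (K a170 (M a101 (F (T t7237 (L l220 (T t7238 N))))) N)))))))))) (K a37 (M a32 (F (T t7234 (L l251 (L l399 (T t7239 N)))))) N))))))))) (K a175 (M a47 (F (T t7235 (L l54 (L l256 (T t6764 N)))))) N))))))))⟩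
def e0_63_106__239_42_66 : Ent 4 := ⟨[a0, a63, a106], [a239, a42, a112], (M a12 (F (T t2304 (L l116 (T t2305 (L l56 (L l116 (T t2415 N))))))))⟩
def e0_63_106__239_42_67 : Ent 4 := ⟨[a0, a63, a106], [a239, a42, a113], (M a48 (F (T t309 (T t551 (L l28 (L l289 (L l404 (T t579 N))))))))⟩
def e0_63_106__239_42_68 : Ent 4 := ⟨[a0, a63, a106], [a239, a42, a114], (M a48 (F (T t309 (L l417 (T t551 (L l28 (L l289 (L l404 (T t579 N)))))))))⟩
def e0_63_106__239_42_69 : Ent 4 := ⟨[a0, a63, a106], [a239, a42, a115], (M a48 (F (T t309 (L l120 (T t551 (L l28 (L l120 (L l289 (L l404 (T t579 N))))))))))⟩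
def e0_63_106__239_42_70 : Ent 4 := ⟨[a0, a63, a106], [a239, a42, a117], (M a48 (F (L l419 (T t309 (T t551 (L l28 (L l289 (L l404 (L l419 (T t579 N))))))))))⟩
def e0_63_106__239_42_71 : Ent 4 := ⟨[a0, a63, a106], [a239, a42, a118], (M a48 (F (T t309 (T t551 (L l28 (L l289 (L l404 (T t579 N))))))))⟩
def e0_63_106__239_42_72 : Ent 4 := ⟨[a0, a63, a106], [a239, a42, a119], (M a48 (F (T t309 (T t551 (L l28 (L l289 (L l404 (T t579 N))))))))⟩
def e0_63_106__239_42_73 : Ent 4 := ⟨[a0, a63, a106], [a239, a42, a122], (M a48 (F (T t309 (T t551 (L l28 (L l289 (L l404 (T t579 N))))))))⟩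
def e0_63_106__239_42_74 : Ent 4 := ⟨[a0, a63, a106], [a239, a42, a123], (M a48 (F (T t309 (T t551 (L l28 (L l289 (L l404 (T t579 N))))))))⟩
def e0_63_106__239_42_75 : Ent 4 := ⟨[a0, a63, a106], [a239, a42, a127], (M a48 (F (T t309 (T t551 (L l54 (T t777 (K a192 (Fr a16 a32 l40 (Fr a58 a53 l38 (Fr a154 a202 l498 (Fr a85 a223 l368 (Fr a207 a101 l512 (Fr a170 a255 l476 (V t8347))))))) (K a149 (Fr a16 a32 l40 (Fr a58 a53 l38 (Fr a154 a202 l498 (Fr a85 a223 l368 (Fr a101 a207 l512 (Fr a255 a170 l476 (V t8348))))))) N))))))))⟩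
def e0_63_106__239_42_76 : Ent 4 := ⟨[a0, a63, a106], [a239, a42, a128], (M a240 (F (T t4779 (L l192 (T t4781 (L l28 (L l192 (L l220 (L l397 (T t7250 (L l54 (L l160 (L l256 (L l289 (T t7251 N)))))))))))))))⟩
def e0_63_106__239_42_77 : Ent 4 := ⟨[a0, a63, a106], [a239, a42, a129], (M a48 (F (L l309 (T t309 (L l217 (T t551 (L l28 (L l289 (L l404 (T t579 N))))))))))⟩
def e0_63_106__239_42_78 : Ent 4 := ⟨[a0, a63, a106], [a239, a42, a130], (M a48 (F (T t309 (T t551 (L l28 (L l289 (L l404 (T t579 N))))))))⟩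
def e0_63_106__239_42_79 : Ent 4 := ⟨[a0, a63, a106], [a239, a42, a131], (M a48 (F (T t309 (L l197 (T t551 (L l28 (L l289 (L l404 (T t579 N)))))))))⟩
def e0_63_106__239_42_80 : Ent 4 := ⟨[a0, a63, a106], [a239, a42, a133], (M a48 (F (L l339 (T t309 (L l199 (T t551 (L l28 (L l289 (L l404 (T t579 N))))))))))⟩
def e0_63_106__239_42_81 : Ent 4 := ⟨[a0, a63, a106], [a239, a42, a134], (M a48 (F (T t309 (T t551 (L l28 (L l289 (L l404 (T t579 N))))))))⟩
def e0_63_106__239_42_82 : Ent 4 := ⟨[a0, a63, a106], [a239, a42, a135], (M a48 (F (T t309 (T t551 (L l28 (L l289 (L l404 (T t579 N))))))))⟩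
def e0_63_106__239_42_83 : Ent 4 := ⟨[a0, a63, a106], [a239, a42, a138], (M a48 (F (L l318 (T t309 (T t551 (L l28 (L l289 (L l318 (L l404 (T t579 N))))))))))⟩
def e0_63_106__239_42_84 : Ent 4 := ⟨[a0, a63, a106], [a239, a42, a139], (M a48 (F (T t309 (T t551 (L l28 (L l289 (L l404 (T t579 N))))))))⟩
def e0_63_106__239_42_85 : Ent 4 := ⟨[a0, a63, a106], [a239, a42, a143], (M a48 (F (T t309 (L l227 (T t551 (L l28 (L l289 (L l404 (T t579 (L l28 (L l404 (T t6462 N))))))))))))⟩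
def e0_63_106__239_42_86 : Ent 4 := ⟨[a0, a63, a106], [a239, a42, a144], (M a12 (F (T t2414 (L l56 (T t2415 (L l170 (T t2305 N)))))))⟩
def e0_63_106__239_42_87 : Ent 4 := ⟨[a0, a63, a106], [a239, a42, a145], (M a48 (F (L l162 (L l489 (T t309 (L l167 (T t551 (L l28 (L l289 (L l404 (T t579 N)))))))))))⟩
def e0_63_106__239_42_88 : Ent 4 := ⟨[a0, a63, a106], [a239, a42, a146], (M a48 (F (L l162 (T t309 (L l197 (T t551 (L l28 (L l289 (L l404 (T t579 N))))))))))⟩
def e0_63_106__239_42_89 : Ent 4 := ⟨[a0, a63, a106], [a239, a42, a147], (M a48 (F (L l162 (T t309 (T t551 (L l28 (L l289 (L l404 (T t579 N)))))))))⟩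
def e0_63_106__239_42_90 : Ent 4 := ⟨[a0, a63, a106], [a239, a42, a149], (M a240 (F (L l199 (T t4781 (L l199 (L l347 (L l397 (T t6484 (L l28 (L l199 (L l375 (L l397 (T t6483 (L l28 (L l199 (L l220 (L l375 (L l397 (T t6485 (K a133 (M a165 (F (T t6486 (L l28 (L l160 (L l220 (L l311 (L l375 (L l397 (T t6487 (L l160 (L l220 (L l289 (L l397 (T t6488 N))))))))))))))) (K a165 (M a90 (L l199 (F (T t4788 (L l180 (T t6489 (K a133 (Fr a181 a122 l447 (V t6489)) (K a181 (M a133 (F (L l180 (T t6489 (L l227 (T t6746 (L l455 (T t6490 N)))))))) N)))))))) (K a181 (M a165 (F (L l375 (T t6861 (T t6493 (L l28 (L l220 (L l375 (L l397 (T t6487 (L l220 (L l289 (L l397 (T t6488 N)))))))))))))) (K a74 (M a48 (F (L l54 (T t3514 (L l28 (L l339 (L l375 (L l404 (T t6999 (L l28 (L l84 (L l289 (L l318 (L l404 (L l491 (T t579 N)))))))))))))))) (K a90 (M a48 (L l375 (F (T t3318 (L l199 (L l289 (L l462 (L l491 (T t781 (L l28 (L l289 (L l404 (L l491 (T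 t579 (K a208 (M a31 (F (L l28 (L l347 (L l404 (T t6495 (L l199 (L l289 (T t3321 N))))))))) (K a31 (M a208 (F (T t6497 (L l151 (L l220 (L l289 (T t6496 N))))))) N)))))))))))))))) (K a122 (M a48 (F (T t3318 (L l114 (L l256 (L l491 (T t6471 (L l28 (L l289 (L l404 (L l491 (T t579 N)))))))))))) N)))))))))))))))))))))))))⟩
def e0_63_106__239_42_91 : Ent 4 := ⟨[a0, a63, a106], [a239, a42, a150], (M a48 (F (T t309 (L l163 (T t551 (L l28 (L l289 (L l404 (T t579 N)))))))))⟩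
def e0_63_106__239_42_92 : Ent 4 := ⟨[a0, a63, a106], [a239, a42, a151], (M a48 (F (T t309 (L l163 (T t551 (L l28 (L l289 (L l404 (T t579 N)))))))))⟩
def e0_63_106__239_42_93 : Ent 4 := ⟨[a0, a63, a106], [a239, a42, a154], (M a240 (F (T t4779 (L l170 (L l256 (L l368 (L l512 (T t817 (T t4781 N)))))))))⟩
def e0_63_106__239_42_94 : Ent 4 := ⟨[a0, a63, a106], [a239, a42, a155], (M a48 (F (T t309 (T t551 (L l28 (L l289 (L l367 (L l404 (T t579 N)))))))))⟩
def e0_63_106__239_42_95 : Ent 4 := ⟨[a0, a63, a106], [a239, a42, a159], (M a240 (F (T t4779 (L l170 (L l256 (T t817 (L l361 (T t4781 N))))))))⟩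
def e0_63_106__239_42_96 : Ent 4 := ⟨[a0, a63, a106], [a239, a42, a160], (M a12 (F (T t2304 (T t2305 (L l56 (T t2415 N))))))⟩
def e0_63_106__239_42_97 : Ent 4 := ⟨[a0, a63, a106], [a239, a42, a161], (M a48 (F (T t309 (L l197 (L l453 (T t551 (L l28 (L l289 (L l404 (T t579 N))))))))))⟩
def e0_63_106__239_42_98 : Ent 4 := ⟨[a0, a63, a106], [a239, a42, a162], (M a48 (F (T t309 (T t551 (L l28 (L l289 (L l380 (L l404 (T t579 N)))))))))⟩
def e0_63_106__239_42_99 : Ent 4 := ⟨[a0, a63, a106], [a239, a42, a163], (M a48 (F (T t309 (T t551 (L l28 (L l289 (L l404 (T t579 N))))))))⟩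
def e0_63_106__239_42_100 : Ent 4 := ⟨[a0, a63, a106], [a239, a42, a165], (M a48 (F (T t309 (L l199 (L l227 (L l483 (T t551 (L l28 (L l289 (L l404 (T t579 (L l28 (L l199 (L l404 (L l483 (T t6462 N))))))))))))))))⟩
def e0_63_106__239_42_101 : Ent 4 := ⟨[a0, a63, a106], [a239, a42, a166], (M a48 (F (T t309 (L l202 (T t551 (L l28 (L l289 (L l404 (T t579 N)))))))))⟩
def e0_63_106__239_42_102 : Ent 4 := ⟨[a0, a63, a106], [a239, a42, a167], (M a48 (F (T t309 (T t551 (L l28 (L l289 (L l404 (T t579 N))))))))⟩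
def e0_63_106__239_42_103 : Ent 4 := ⟨[a0, a63, a106], [a239, a42, a170], (M a252 (L l404 (F (T t7234 (L l220 (T t7238 (L l174 (L l220 (L l474 (T t7273 (L l174 (L l474 (T t8339 (K a32 (M a101 (L l28 (F (T t7237 (L l220 (T t7238 (K a37 (M a47 (F (T t8340 (L l220 (L l289 (T t4041 N)))))) (K a47 (M a37 (L l397 (F (T t7237 (L l174 (L l220 (L l400 (T t2535 (K a111 (M a175 (F (T t7237 (L l220 (T t7238 N))))) (K a175 (Fr a111 a96 l104 (V t7943)) N)))))))))) N)))))))) (K a101 (M a32 (F (T t7234 (L l251 (T t7239 N))))) N)))))))))))))))⟩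
def e0_63_106__239_42_104 : Ent 4 := ⟨[a0, a63, a106], [a239, a42, a171], (M a48 (L l403 (F (T t309 (T t551 (L l28 (L l289 (L l404 (T t579 (K a35 (M a103 (F (T t309 (T t551 (L l20 (L l28 (L l289 (L l404 (T t579 N))))))))) (K a103 (M a35 (F (T t309 (T t551 (L l28 (L l289 (L l404 (T t579 N)))))))) N)))))))))))⟩
def e0_63_106__239_42_105 : Ent 4 := ⟨[a0, a63, a106], [a239, a42, a175], (M a48 (L l397 (F (T t309 (T t551 (L l28 (L l289 (L l404 (T t579 (K a47 (M a111 (L l28 (F (T t6827 (T t551 (K a32 (M a37 (L l404 (F (T t7960 (L l213 (T t7961 (K a101 (M a170 (F (L l54 (T t290 (T t3207 N))))) (K a170 (Fr a101 a96 l104 (V t7962)) N)))))))) (K a37 (Fr a32 a16 l40 (V t7963)) N))))))) (K a111 (M a47 (F (T t7964 (L l289 (L l404 (T t579 N)))))) N)))))))))))⟩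
def e0_63_106__239_42_106 : Ent 4 := ⟨[a0, a63, a106], [a239, a42, a176], (M a240 (F (T t7478 (L l192 (L l256 (T t817 (L l190 (L l192 (T t4781 N)))))))))⟩
def e0_63_106__239_42_107 : Ent 4 := ⟨[a0, a63, a106], [a239, a42, a177], (M a48 (F (T t309 (L l182 (L l417 (T t551 (L l28 (L l289 (L l404 (T t579 N))))))))))⟩
def e0_63_106__239_42_108 : Ent 4 := ⟨[a0, a63, a106], [a239, a42, a178], (M a48 (F (T t309 (L l182 (T t551 (L l28 (L l289 (L l404 (T t579 N)))))))))⟩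
def e0_63_106__239_42_109 : Ent 4 := ⟨[a0, a63, a106], [a239, a42, a179], (M a48 (F (T t309 (L l182 (T t551 (L l28 (L l289 (L l404 (T t579 N)))))))))⟩
def e0_63_106__239_42_110 : Ent 4 := ⟨[a0, a63, a106], [a239, a42, a181], (M a48 (F (L l419 (T t309 (L l190 (L l199 (T t551 (L l28 (L l289 (L l404 (L l419 (T t579 N))))))))))))⟩
def e0_63_106__239_42_111 : Ent 4 := ⟨[a0, a63, a106], [a239, a42, a182], (M a48 (F (T t309 (T t551 (L l28 (L l289 (L l404 (T t579 N))))))))⟩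
def e0_63_106__239_42_112 : Ent 4 := ⟨[a0, a63, a106], [a239, a42, a183], (M a48 (F (T t309 (L l202 (T t551 (L l28 (L l289 (L l404 (T t579 N)))))))))⟩
def e0_63_106__239_42_113 : Ent 4 := ⟨[a0, a63, a106], [a239, a42, a186], (M a48 (F (T t309 (L l190 (T t551 (L l28 (L l289 (L l404 (T t579 N)))))))))⟩
def e0_63_106__239_42_114 : Ent 4 := ⟨[a0, a63, a106], [a239, a42, a187], (M a48 (F (T t309 (T t551 (L l28 (L l289 (L l404 (T t579 N))))))))⟩
def e0_63_106__239_42_115 : Ent 4 := ⟨[a0, a63, a106], [a239, a42, a191], (M a48 (F (T t309 (L l190 (L l220 (T t551 (L l54 (T t777 (L l256 (L l289 (L l397 (T t8341 (K a192 (Fr a16 a32 l40 (Fr a58 a53 l38 (Fr a154 a202 l498 (Fr a85 a223 l368 (Fr a207 a101 l512 (Fr a170 a255 l476 (V t8347))))))) N)))))))))))))⟩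
def e0_63_106__239_42_116 : Ent 4 := ⟨[a0, a63, a106], [a239, a42, a192], (M a240 (F (L l339 (T t4781 (L l236 (L l339 (L l404 (T t6500 (L l289 (L l296 (L l339 (T t6501 (L l28 (L l339 (L l397 (T t6502 (L l339 (T t6503 (K a133 (M a90 (L l339 (F (T t4788 (L l404 (T t6504 (K a74 (Fr a15 a165 l483 (V t8050)) (K a15 (Fr a74 a122 l130 (V t6506)) N)))))))) (K a85 (M a12 (F (L l292 (T t2745 (L l272 (L l339 (T t6595 N))))))) (K a181 (M a12 (F (T t3358 (L l56 (L l272 (T t2415 (L l256 (L l272 (T t6512 N))))))))) (K a74 (M a165 (L l339 (F (T t6861 (L l54 (L l289 (L l296 (L l318 (T t8342 (L l54 (L l84 (L l256 (L l318 (T t6514 (K a133 (Fr a15 a90 l483 (V t6515)) (K a15 (M a133 (F (T t6516 (L l28 (L l236 (L l318 (L l397 (L l484 (T t6517 N))))))))) N)))))))))))))))) (K a90 (M a252 (F (L l334 (T t6518 (L l148 (L l489 (T t6519 (L l309 (T t6675 N))))))))) (K a122 (M a12 (F (T t2747 (L l56 (L l272 (T t2415 (L l256 (L l272 (T t6512 N)))))))))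 (K a15 (M a248 (L l339 (F (T t6520 (L l22 (T t6521 (K a133 (M a74 (F (T t6522 (L l3 (L l56 (L l334 (T t6523 N))))))) (K a74 (M a133 (F (T t3821 (T t6520 (L l397 (L l469 (L l484 (T t6524 N)))))))) N)))))))) N)))))))))))))))))))))))))⟩
def e0_63_106__239_42_117 : Ent 4 := ⟨[a0, a63, a106], [a239, a42, a193], (M a48 (F (L l228 (T t309 (L l515 (T t551 (L l28 (L l289 (L l404 (T t579 N))))))))))⟩
def e0_63_106__239_42_118 : Ent 4 := ⟨[a0, a63, a106], [a239, a42, a194], (M a48 (F (T t551 (L l228 (L l234 (T t309 (L l28 (L l234 (L l289 (L l404 (T t579 N)))))))))))⟩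
def e0_63_106__239_42_119 : Ent 4 := ⟨[a0, a63, a106], [a239, a42, a195], (M a48 (F (T t5173 (L l273 (T t551 (L l28 (L l289 (L l404 (T t579 N)))))))))⟩
def e0_63_106__239_42_120 : Ent 4 := ⟨[a0, a63, a106], [a239, a42, a197], (M a240 (F (L l236 (T t4779 (L l256 (L l491 (T t817 (T t4781 N))))))))⟩
def e0_63_106__239_42_121 : Ent 4 := ⟨[a0, a63, a106], [a239, a42, a198], (M a48 (F (L l234 (T t309 (T t551 (L l28 (L l234 (L l289 (L l404 (T t579 N))))))))))⟩
def e0_63_106__239_42_122 : Ent 4 := ⟨[a0, a63, a106], [a239, a42, a199], (M a48 (F (T t309 (T t551 (L l28 (L l289 (L l404 (T t579 N))))))))⟩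
def e0_63_106__239_42_123 : Ent 4 := ⟨[a0, a63, a106], [a239, a42, a202], (M a240 (F (L l236 (T t7478 (L l256 (T t817 (L l318 (T t4781 N))))))))⟩
def e0_63_106__239_42_124 : Ent 4 := ⟨[a0, a63, a106], [a239, a42, a203], (M a48 (F (L l230 (T t309 (T t551 (L l28 (L l230 (L l289 (L l404 (T t579 N))))))))))⟩
def e0_63_106__239_42_125 : Ent 4 := ⟨[a0, a63, a106], [a239, a42, a207], (M a240 (L l289 (F (T t6525 (L l256 (L l512 (T t817 (T t4781 (K a223 (M a255 (F (T t6960 (L l236 (T t6609 N))))) (K a255 (M a223 (F (T t8234 (L l256 (L l440 (L l512 (T t817 (L l28 (L l325 (L l397 (L l469 (T t815 N)))))))))))) N))))))))))⟩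
def e0_63_106__239_42_126 : Ent 4 := ⟨[a0, a63, a106], [a239, a42, a208], (M a12 (F (T t2414 (L l56 (T t2415 (L l375 (T t2305 N)))))))⟩
def e0_63_106__239_42_127 : Ent 4 := ⟨[a0, a63, a106], [a239, a42, a209], (M a48 (F (L l272 (T t309 (L l371 (T t551 (L l28 (L l289 (L l404 (T t579 N))))))))))⟩
def e0_63_106__239_42_128 : Ent 4 := ⟨[a0, a63, a106], [a239, a42, a210], (M a48 (F (T t309 (L l273 (T t551 (L l28 (L l289 (L l404 (T t579 N)))))))))⟩
def e0_63_106__239_42_129 : Ent 4 := ⟨[a0, a63, a106], [a239, a42, a211], (M a48 (F (T t309 (T t551 (L l28 (L l245 (L l289 (L l404 (T t579 N)))))))))⟩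
def e0_63_106__239_42_130 : Ent 4 := ⟨[a0, a63, a106], [a239, a42, a213], (M a48 (F (L l296 (T t309 (L l347 (T t551 (L l28 (L l246 (L l289 (L l404 (T t579 N)))))))))))⟩
def e0_63_106__239_42_131 : Ent 4 := ⟨[a0, a63, a106], [a239, a42, a214], (M a48 (F (T t309 (T t551 (L l28 (L l289 (L l404 (T t579 N))))))))⟩
def e0_63_106__239_42_132 : Ent 4 := ⟨[a0, a63, a106], [a239, a42, a215], (M a48 (F (T t309 (T t551 (L l28 (L l245 (L l289 (L l404 (T t579 N)))))))))⟩
def e0_63_106__239_42_133 : Ent 4 := ⟨[a0, a63, a106], [a239, a42, a218], (M a48 (F (L l282 (T t309 (L l303 (T t551 (L l28 (L l246 (L l282 (L l289 (L l404 (T t579 (L l28 (L l404 (T t2289 N)))))))))))))))⟩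
def e0_63_106__239_42_134 : Ent 4 := ⟨[a0, a63, a106], [a239, a42, a219], (M a48 (F (T t309 (T t551 (L l28 (L l245 (L l289 (L l404 (T t579 N)))))))))⟩
def e0_63_106__239_42_135 : Ent 4 := ⟨[a0, a63, a106], [a239, a42, a223], (M a207 (F (L l361 (T t7183 (T t6701 (L l361 (T t6702 N)))))))⟩
def e0_63_106__239_42_136 : Ent 4 := ⟨[a0, a63, a106], [a239, a42, a224], (M a48 (L l256 (F (L l268 (T t309 (L l268 (L l376 (T t551 (L l28 (L l289 (L l376 (L l404 (T t579 (K a229 (M a234 (F (T t6150 (L l268 (T t309 (L l28 (L l289 (L l376 (L l404 (T t579 N)))))))))) (K a234 (M a229 (F (L l268 (L l376 (T t551 (L l282 (L l289 (T t307 (L l28 (L l282 (L l289 (L l376 (L l404 (T t579 (L l268 (L l282 (L l296 (L l404 (T t3405 N))))))))))))))))))) N)))))))))))))))⟩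
def e0_63_106__239_42_137 : Ent 4 := ⟨[a0, a63, a106], [a239, a42, a225], (M a48 (F (T t309 (L l273 (T t551 (L l28 (L l289 (L l404 (T t579 N)))))))))⟩
def e0_63_106__239_42_138 : Ent 4 := ⟨[a0, a63, a106], [a239, a42, a226], (M a48 (F (T t5173 (T t551 (L l28 (L l289 (L l404 (T t579 N))))))))⟩
def e0_63_106__239_42_139 : Ent 4 := ⟨[a0, a63, a106], [a239, a42, a227], (M a48 (L l255 (F (T t309 (T t551 (L l28 (L l289 (L l380 (L l404 (T t579 (K a231 (M a235 (F (T t309 (T t551 (L l28 (L l289 (L l380 (L l404 (T t579 N))))))))) (K a235 (M a231 (F (T t309 (T t551 (L l28 (L l289 (L l380 (L l404 (T t579 N))))))))) N))))))))))))⟩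
def e0_63_106__239_42_140 : Ent 4 := ⟨[a0, a63, a106], [a239, a42, a229], (M a48 (L l256 (F (T t309 (L l303 (T t551 (L l28 (L l289 (L l404 (T t579 (L l28 (L l404 (T t2289 (K a224 (M a234 (F (T t6150 (L l268 (T t309 (L l28 (L l289 (L l376 (L l404 (T t579 N)))))))))) (K a234 (M a224 (F (T t8343 (L l28 (L l282 (L l289 (L l404 (T t579 (L l54 (L l275 (L l296 (T t777 N)))))))))))) N)))))))))))))))⟩
def e0_63_106__239_42_141 : Ent 4 := ⟨[a0, a63, a106], [a239, a42, a230], (M a48 (F (T t309 (T t551 (L l28 (L l289 (L l404 (T t579 N))))))))⟩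
def e0_63_106__239_42_142 : Ent 4 := ⟨[a0, a63, a106], [a239, a42, a231], (M a48 (L l255 (F (T t309 (T t551 (L l28 (L l289 (L l404 (T t579 (K a227 (M a235 (F (T t309 (T t551 (L l28 (L l289 (L l380 (L l404 (T t579 N))))))))) (K a235 (M a227 (F (T t309 (T t551 (L l28 (L l289 (L l404 (T t579 N)))))))) N)))))))))))⟩
def e0_63_106__239_42_143 : Ent 4 := ⟨[a0, a63, a106], [a239, a42, a234], (M a48 (L l256 (F (T t551 (L l282 (L l296 (T t309 (L l28 (L l282 (L l289 (L l404 (T t579 (K a224 (M a229 (F (L l268 (L l376 (T t551 (L l282 (L l289 (T t307 (L l28 (L l282 (L l289 (L l376 (L l404 (T t579 (L l268 (L l282 (L l296 (L l404 (T t3405 N))))))))))))))))))) (K a229 (M a224 (F (T t8343 (L l28 (L l282 (L l289 (L l404 (T t579 (L l54 (L l275 (L l296 (T t777 N)))))))))))) N))))))))))))))⟩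
def e0_63_106__239_42_144 : Ent 4 := ⟨[a0, a63, a106], [a239, a42, a235], (M a48 (L l255 (F (T t309 (T t551 (L l28 (L l289 (L l404 (T t579 (K a227 (M a231 (F (T t309 (T t551 (L l28 (L l289 (L l380 (L l404 (T t579 N))))))))) (K a231 (M a227 (F (T t309 (T t551 (L l28 (L l289 (L l404 (T t579 N)))))))) N)))))))))))⟩
def e0_63_106__239_42_145 : Ent 4 := ⟨[a0, a63, a106], [a239, a42, a240], (M a12 (F (T t2419 (L l298 (T t2305 (L l56 (T t2415 N)))))))⟩
def e0_63_106__239_42_146 : Ent 4 := ⟨[a0, a63, a106], [a239, a42, a241], (M a48 (F (T t309 (L l258 (T t551 (L l28 (L l289 (L l404 (T t579 N)))))))))⟩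
def e0_63_106__239_42_147 : Ent 4 := ⟨[a0, a63, a106], [a239, a42, a242], (M a48 (F (T t309 (L l258 (T t551 (L l28 (L l289 (L l404 (T t579 N)))))))))⟩
def e0_63_106__239_42_148 : Ent 4 := ⟨[a0, a63, a106], [a239, a42, a243], (M a48 (F (T t5173 (L l258 (T t551 (L l28 (L l289 (L l404 (T t579 N)))))))))⟩
def e0_63_106__239_42_149 : Ent 4 := ⟨[a0, a63, a106], [a239, a42, a245], (M a48 (F (L l419 (T t309 (L l266 (T t551 (L l28 (L l289 (L l404 (L l419 (T t579 N)))))))))))⟩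
def e0_63_106__239_42_150 : Ent 4 := ⟨[a0, a63, a106], [a239, a42, a246], (M a48 (F (T t309 (T t551 (L l28 (L l289 (L l404 (T t579 N))))))))⟩
def e0_63_106__239_42_151 : Ent 4 := ⟨[a0, a63, a106], [a239, a42, a247], (M a48 (F (T t309 (T t551 (L l28 (L l289 (L l404 (T t579 N))))))))⟩
def e0_63_106__239_42_152 : Ent 4 := ⟨[a0, a63, a106], [a239, a42, a250], (M a48 (F (L l282 (T t309 (L l266 (T t551 (L l28 (L l282 (L l289 (L l404 (T t579 N)))))))))))⟩
def e0_63_106__239_42_153 : Ent 4 := ⟨[a0, a63, a106], [a239, a42, a251], (M a48 (F (T t309 (T t551 (L l28 (L l289 (L l404 (T t579 N))))))))⟩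
def e0_63_106__239_42_154 : Ent 4 := ⟨[a0, a63, a106], [a239, a42, a255], (M a240 (L l289 (F (T t6525 (L l256 (L l440 (T t817 (L l404 (L l440 (T t6500 (L l28 (L l397 (L l469 (T t6684 (K a207 (M a223 (F (T t8234 (L l256 (L l440 (L l512 (T t817 (L l28 (L l325 (L l397 (L l469 (T t815 N)))))))))))) (K a223 (M a207 (F (L l296 (T t6609 (L l54 (L l440 (T t8344 (L l54 (L l256 (L l361 (T t8345 N))))))))))) N))))))))))))))))⟩
def b0_63_106__239_42 : Blk 4 := ⟨[0, 63, 106], [239, 42], [1, 2, 3, 5, 6, 7, 10, 11, 15, 16, 17, 18, 19, 21, 22, 23, 26, 27, 31, 32, 33, 34, 35, 37, 38, 39, 43, 47, 48, 49, 50, 51, 53, 54, 55, 58, 59, 64, 65, 66, 67, 69, 70, 71, 74, 75, 79, 80, 81, 82, 83, 85, 86, 87, 90, 91, 95, 96, 97, 98, 99, 101, 102, 103, 107, 111, 112, 113, 114, 115, 117, 118, 119, 122, 123, 127, 128, 129, 130, 131, 133, 134, 135, 138, 139, 143, 144, 145, 146, 147, 149, 150, 151, 154, 155, 159, 160, 161, 162, 163, 165, 166, 167, 170,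 171, 175, 176, 177, 178, 179, 181, 182, 183, 186, 187, 191, 192, 193, 194, 195, 197, 198, 199, 202, 203, 207, 208, 209, 210, 211, 213, 214, 215, 218, 219, 223, 224, 225, 226, 227, 229, 230, 231, 234, 235, 240, 241, 242, 243, 245, 246, 247, 250, 251, 255], [e0_63_106__239_42_0, e0_63_106__239_42_1, e0_63_106__239_42_2, e0_63_106__239_42_3, e0_63_106__239_42_4, e0_63_106__239_42_5, e0_63_106__239_42_6, e0_63_106__239_42_7, e0_63_106__239_42_8, e0_63_106__239_42_9, e0_63_106__239_42_10, e0_63_106__239_42_11, e0_63_106__239_42_12, e0_63_106__239_42_13, e0_63_106__239_42_14, e0_63_106__239_42_15, e0_63_106__239_42_16, e0_63_106__239_42_17, e0_63_106__239_42_18, e0_63_106__239_42_19, e0_63_106__239_42_20, e0_63_106__239_42_21, e0_63_106__239_42_22, e0_63_106__239_42_23, e0_63_106__239_42_24, e0_63_106__239_42_25, e0_63_106__239_42_26, e0_63_106__239_42_27, e0_63_106__239_42_28, e0_63_106__239_42_29, e0_63_106__239_42_30,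 e0_63_106__239_42_31, e0_63_106__239_42_32, e0_63_106__239_42_33, e0_63_106__239_42_34, e0_63_106__239_42_35, e0_63_106__239_42_36, e0_63_106__239_42_37, e0_63_106__239_42_38, e0_63_106__239_42_39, e0_63_106__239_42_40, e0_63_106__239_42_41, e0_63_106__239_42_42, e0_63_106__239_42_43, e0_63_106__239_42_44, e0_63_106__239_42_45, e0_63_106__239_42_46, e0_63_106__239_42_47, e0_63_106__239_42_48, e0_63_106__239_42_49, e0_63_106__239_42_50, e0_63_106__239_42_51, e0_63_106__239_42_52, e0_63_106__239_42_53, e0_63_106__239_42_54, e0_63_106__239_42_55, e0_63_106__239_42_56, e0_63_106__239_42_57, e0_63_106__239_42_58, e0_63_106__239_42_59, e0_63_106__239_42_60, e0_63_106__239_42_61, e0_63_106__239_42_62, e0_63_106__239_42_63, e0_63_106__239_42_64, e0_63_106__239_42_65, e0_63_106__239_42_66, e0_63_106__239_42_67, e0_63_106__239_42_68, e0_63_106__239_42_69, e0_63_106__239_42_70, e0_63_106__239_42_71, e0_63_106__239_42_72, e0_63_106__239_42_73,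 e0_63_106__239_42_74, e0_63_106__239_42_75, e0_63_106__239_42_76, e0_63_106__239_42_77, e0_63_106__239_42_78, e0_63_106__239_42_79, e0_63_106__239_42_80, e0_63_106__239_42_81, e0_63_106__239_42_82, e0_63_106__239_42_83, e0_63_106__239_42_84, e0_63_106__239_42_85, e0_63_106__239_42_86, e0_63_106__239_42_87, e0_63_106__239_42_88, e0_63_106__239_42_89, e0_63_106__239_42_90, e0_63_106__239_42_91, e0_63_106__239_42_92, e0_63_106__239_42_93, e0_63_106__239_42_94, e0_63_106__239_42_95, e0_63_106__239_42_96, e0_63_106__239_42_97, e0_63_106__239_42_98, e0_63_106__239_42_99, e0_63_106__239_42_100, e0_63_106__239_42_101, e0_63_106__239_42_102, e0_63_106__239_42_103, e0_63_106__239_42_104, e0_63_106__239_42_105, e0_63_106__239_42_106, e0_63_106__239_42_107, e0_63_106__239_42_108, e0_63_106__239_42_109, e0_63_106__239_42_110, e0_63_106__239_42_111, e0_63_106__239_42_112, e0_63_106__239_42_113, e0_63_106__239_42_114, e0_63_106__239_42_115,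 e0_63_106__239_42_116, e0_63_106__239_42_117, e0_63_106__239_42_118, e0_63_106__239_42_119, e0_63_106__239_42_120, e0_63_106__239_42_121, e0_63_106__239_42_122, e0_63_106__239_42_123, e0_63_106__239_42_124, e0_63_106__239_42_125, e0_63_106__239_42_126, e0_63_106__239_42_127, e0_63_106__239_42_128, e0_63_106__239_42_129, e0_63_106__239_42_130, e0_63_106__239_42_131, e0_63_106__239_42_132, e0_63_106__239_42_133, e0_63_106__239_42_134, e0_63_106__239_42_135, e0_63_106__239_42_136, e0_63_106__239_42_137, e0_63_106__239_42_138, e0_63_106__239_42_139, e0_63_106__239_42_140, e0_63_106__239_42_141, e0_63_106__239_42_142, e0_63_106__239_42_143, e0_63_106__239_42_144, e0_63_106__239_42_145, e0_63_106__239_42_146, e0_63_106__239_42_147, e0_63_106__239_42_148, e0_63_106__239_42_149, e0_63_106__239_42_150, e0_63_106__239_42_151, e0_63_106__239_42_152, e0_63_106__239_42_153, e0_63_106__239_42_154], by decide +kernel, by decide +kernel⟩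
def e0_63_240__154_42_0 : Ent 4 := ⟨[a0, a63, a240], [a154, a42, a1], (M a64 (F (T t7735 (L l390 (L l498 (T t7736 (T t7737 (L l170 (T t7738 N)))))))))⟩
def e0_63_240__154_42_1 : Ent 4 := ⟨[a0, a63, a240], [a154, a42, a2], (M a64 (L l66 (F (T t7735 (L l390 (L l498 (T t7736 (T t7737 (L l170 (T t7738 (K a22 (M a62 (F (T t7735 (L l450 (T t7340 N))))) (K a62 (M a22 (F (T t7735 (L l390 (L l498 (L l516 (T t7736 (L l390 (L l498 (L l516 (T t7739 (L l170 (T t7738 N))))))))))))) N))))))))))))⟩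
def e0_63_240__154_42_2 : Ent 4 := ⟨[a0, a63, a240], [a154, a42, a3], (M a64 (F (T t7735 (L l7 (L l390 (L l498 (T t7736 (T t7737 (L l170 (T t7738 N))))))))))⟩
def e0_63_240__154_42_3 : Ent 4 := ⟨[a0, a63, a240], [a154, a42, a5], (M a64 (F (T t7735 (L l390 (L l498 (T t7736 (T t7737 (L l170 (T t7738 N)))))))))⟩
def e0_63_240__154_42_4 : Ent 4 := ⟨[a0, a63, a240], [a154, a42, a6], (M a64 (F (T t7735 (L l390 (L l498 (T t7736 (T t7737 (L l170 (T t7738 N)))))))))⟩
def e0_63_240__154_42_5 : Ent 4 := ⟨[a0, a63, a240], [a154, a42, a7], (M a64 (F (T t7735 (L l7 (L l390 (L l498 (T t7736 (T t7737 (L l170 (T t7738 N))))))))))⟩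
def e0_63_240__154_42_6 : Ent 4 := ⟨[a0, a63, a240], [a154, a42, a10], (M a106 (L l54 (F (T t4786 (L l170 (L l368 (L l512 (T t817 (L l318 (T t4781 (K a26 (M a58 (L l354 (F (T t4786 (L l462 (T t7219 (L l75 (L l170 (L l227 (L l512 (T t4780 (K a90 (M a218 (L l462 (F (L l227 (T t7740 (L l170 (L l368 (L l375 (T t7741 (L l18 (L l94 (L l368 (T t7742 (K a170 (M a250 (L l206 (F (T t7743 (L l318 (L l375 (T t7744 (K a138 (Fr a186 a122 l426 (V t7745)) (K a186 (M a138 (F (T t7746 (L l440 (T t7747 N))))) N))))))))) (K a250 (M a170 (F (T t3201 (L l18 (L l94 (L l368 (T t7742 (L l28 (L l375 (T t7748 (L l94 (T t7749 N)))))))))))) N))))))))))))))) (K a218 (M a90 (F (T t4788 (L l75 (L l170 (T t7750 N)))))) N))))))))))))) (K a58 (M a26 (F (L l426 (T t4786 (L l170 (L l368 (L l512 (T t817 (L l318 (T t4781 N)))))))))) N))))))))))))⟩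
def e0_63_240__154_42_7 : Ent 4 := ⟨[a0, a63, a240], [a154, a42, a11], (M a64 (F (T t7735 (L l7 (L l390 (L l498 (T t7736 (T t7737 (L l170 (L l321 (T t7738 N)))))))))))⟩
def e0_63_240__154_42_8 : Ent 4 := ⟨[a0, a63, a240], [a154, a42, a15], (M a112 (F (L l227 (T t7751 (L l227 (L l339 (T t4791 (L l390 (L l498 (T t7752 N))))))))))⟩
def e0_63_240__154_42_9 : Ent 4 := ⟨[a0, a63, a240], [a154, a42, a16], (M a85 (F (T t1384 (L l206 (L l390 (L l512 (T t7753 (T t1385 N))))))))⟩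
def e0_63_240__154_42_10 : Ent 4 := ⟨[a0, a63, a240], [a154, a42, a17], (M a64 (F (T t7735 (L l390 (L l498 (T t7736 (T t7737 (L l170 (T t7738 N)))))))))⟩
def e0_63_240__154_42_11 : Ent 4 := ⟨[a0, a63, a240], [a154, a42, a18], (M a64 (L l366 (F (T t7735 (L l390 (L l498 (T t7736 (T t7737 (L l170 (T t7738 (K a86 (M a222 (F (T t7735 (L l142 (L l390 (L l498 (T t7736 (T t7737 (L l170 (L l351 (T t7738 N))))))))))) (K a222 (M a86 (F (T t7735 (L l22 (L l390 (L l498 (T t7754 (L l390 (L l498 (T t7739 N)))))))))) N))))))))))))⟩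
def e0_63_240__154_42_12 : Ent 4 := ⟨[a0, a63, a240], [a154, a42, a19], (M a64 (F (T t7735 (L l17 (L l390 (L l498 (T t7736 (T t7737 (L l170 (T t7738 N))))))))))⟩
def e0_63_240__154_42_13 : Ent 4 := ⟨[a0, a63, a240], [a154, a42, a21], (M a64 (F (T t7735 (L l390 (L l498 (T t7755 (T t7737 (L l170 (L l347 (T t7738 N))))))))))⟩
def e0_63_240__154_42_14 : Ent 4 := ⟨[a0, a63, a240], [a154, a42, a22], (M a64 (L l66 (F (T t7735 (L l390 (L l498 (T t7736 (T t7737 (L l170 (T t7738 (K a2 (M a62 (F (T t7735 (L l450 (T t7340 N))))) (K a62 (M a2 (F (T t7756 (T t7737 N)))) N))))))))))))⟩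
def e0_63_240__154_42_15 : Ent 4 := ⟨[a0, a63, a240], [a154, a42, a23], (M a64 (F (T t7735 (L l17 (L l390 (L l498 (T t7736 (T t7737 (L l170 (L l351 (T t7738 N)))))))))))⟩
def e0_63_240__154_42_16 : Ent 4 := ⟨[a0, a63, a240], [a154, a42, a26], (M a90 (L l54 (F (T t2742 (T t3022 (T t7757 (K a10 (M a58 (F (T t7219 (L l170 (L l318 (T t7758 (L l75 (L l206 (L l390 (T t7759 N)))))))))) (K a58 (M a10 (L l498 (F (T t7760 (T t7761 (K a202 (M a106 (F (T t7760 (T t4788 N)))) (K a106 (M a202 (L l390 (F (T t7760 (T t7761 (K a170 (M a234 (L l206 (F (T t7760 (L l426 (T t7762 (K a138 (M a186 (F (T t7760 (T t7762 N)))) (K a186 (Fr a138 a74 l318 (V t7760)) N)))))))) (K a234 (Fr a170 a250 l462 (V t7760)) N))))))) N))))))) N))))))))⟩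
def e0_63_240__154_42_17 : Ent 4 := ⟨[a0, a63, a240], [a154, a42, a27], (M a64 (F (T t7735 (L l17 (L l73 (L l390 (L l498 (T t7736 (T t7737 (L l170 (T t7738 N)))))))))))⟩
def e0_63_240__154_42_18 : Ent 4 := ⟨[a0, a63, a240], [a154, a42, a31], (M a64 (F (T t7735 (L l170 (L l375 (T t7763 (T t7737 (L l170 (L l375 (T t7738 N))))))))))⟩
def e0_63_240__154_42_19 : Ent 4 := ⟨[a0, a63, a240], [a154, a42, a32], (M a192 (L l28 (F (L l170 (T t4220 (L l376 (L l512 (T t5418 (L l390 (L l498 (T t4732 (K a37 (M a47 (F (T t7764 (L l54 (L l512 (T t7765 N)))))) (K a47 (M a37 (F (L l376 (L l512 (T t5418 (L l390 (L l411 (L l498 (T t4222 (L l170 (T t7766 N))))))))))) N)))))))))))))⟩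
def e0_63_240__154_42_20 : Ent 4 := ⟨[a0, a63, a240], [a154, a42, a33], (M a64 (F (T t7735 (L l390 (L l498 (T t7736 (T t7737 (L l170 (T t7738 N)))))))))⟩
def e0_63_240__154_42_21 : Ent 4 := ⟨[a0, a63, a240], [a154, a42, a34], (M a64 (L l26 (F (T t7735 (L l390 (L l498 (T t7736 (T t7737 (L l170 (T t7738 (K a38 (M a46 (F (T t7767 (L l390 (L l498 (T t7739 N)))))) (K a46 (M a38 (F (T t7735 (L l390 (L l408 (L l498 (T t7736 (L l390 (L l408 (L l498 (T t7739 (L l170 (T t7738 N))))))))))))) N))))))))))))⟩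
def e0_63_240__154_42_22 : Ent 4 := ⟨[a0, a63, a240], [a154, a42, a35], (M a64 (F (L l512 (T t7768 (L l381 (L l390 (L l498 (T t7736 (T t7737 (L l170 (T t7738 N)))))))))))⟩
def e0_63_240__154_42_23 : Ent 4 := ⟨[a0, a63, a240], [a154, a42, a37], (M a64 (L l28 (F (T t7735 (L l390 (L l498 (T t7769 (T t7737 (L l170 (T t7738 (K a32 (M a47 (F (L l512 (T t7770 (L l170 (L l368 (L l376 (T t7771 (L l47 (L l227 (L l383 (T t7772 N)))))))))))) (K a47 (M a32 (F (T t7773 (L l368 (T t7774 N))))) N))))))))))))⟩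
def e0_63_240__154_42_24 : Ent 4 := ⟨[a0, a63, a240], [a154, a42, a38], (M a64 (L l26 (F (T t7735 (L l390 (L l498 (T t7736 (T t7737 (L l170 (T t7738 (K a34 (M a46 (F (T t7767 (L l390 (L l498 (T t7739 N)))))) (K a46 (M a34 (F (T t7540 (T t7737 N)))) N))))))))))))⟩
def e0_63_240__154_42_25 : Ent 4 := ⟨[a0, a63, a240], [a154, a42, a39], (M a64 (F (T t7735 (L l73 (L l390 (L l498 (T t7736 (T t7737 (L l170 (T t7738 N))))))))))⟩
def e0_63_240__154_42_26 : Ent 4 := ⟨[a0, a63, a240], [a154, a42, a43], (M a64 (L l22 (F (T t7735 (L l390 (L l393 (L l498 (T t7736 (T t7737 (L l170 (T t7738 (K a40 (M a41 (F (T t7735 (L l390 (L l393 (L l498 (T t7736 (L l390 (L l393 (L l498 (T t7739 (L l170 (T t7738 N))))))))))))) (K a41 (M a40 (F (T t7775 (T t7737 N)))) N)))))))))))))⟩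
def e0_63_240__154_42_27 : Ent 4 := ⟨[a0, a63, a240], [a154, a42, a47], (M a192 (L l28 (F (L l512 (T t5418 (L l390 (L l411 (L l498 (T t4222 (L l170 (T t4221 (K a32 (M a37 (F (L l376 (L l512 (T t5418 (L l390 (L l411 (L l498 (T t4222 (L l170 (T t7766 N))))))))))) (K a37 (M a32 (F (T t7776 (L l368 (T t7774 N))))) N)))))))))))))⟩
def e0_63_240__154_42_28 : Ent 4 := ⟨[a0, a63, a240], [a154, a42, a48], (M a165 (L l512 (F (L l368 (T t7777 (L l484 (T t7778 (T t7779 (K a101 (M a207 (F (L l440 (T t6513 (L l75 (L l170 (L l491 (T t7780 (T t7779 N))))))))) (K a207 (M a101 (F (L l368 (T t7777 (L l75 (L l170 (L l325 (T t7780 (L l236 (T t7781 N)))))))))) N))))))))))⟩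
def e0_63_240__154_42_29 : Ent 4 := ⟨[a0, a63, a240], [a154, a42, a49], (M a64 (F (T t7735 (L l390 (L l498 (T t7736 (L l437 (T t7737 (L l170 (T t7738 N))))))))))⟩
def e0_63_240__154_42_30 : Ent 4 := ⟨[a0, a63, a240], [a154, a42, a50], (M a64 (L l510 (F (T t7735 (L l390 (L l498 (T t7736 (T t7737 (L l170 (T t7738 (K a102 (M a206 (F (T t7735 (L l102 (L l390 (L l498 (T t7736 (T t7737 (L l170 (L l495 (T t7738 N))))))))))) (K a206 (M a102 (F (T t7735 (L l56 (L l390 (L l486 (L l498 (T t7646 (L l390 (L l498 (T t7739 N))))))))))) N))))))))))))⟩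
def e0_63_240__154_42_31 : Ent 4 := ⟨[a0, a63, a240], [a154, a42, a51], (M a64 (F (T t7735 (L l73 (L l390 (L l498 (T t7736 (T t7737 (L l170 (T t7738 N))))))))))⟩
def e0_63_240__154_42_32 : Ent 4 := ⟨[a0, a63, a240], [a154, a42, a53], (M a128 (F (L l28 (T t7782 (L l390 (L l498 (T t7783 (L l170 (L l206 (T t7784 (L l390 (L l498 (T t7785 N)))))))))))))⟩
def e0_63_240__154_42_33 : Ent 4 := ⟨[a0, a63, a240], [a154, a42, a54], (M a64 (F (T t7735 (L l390 (L l498 (T t7736 (T t7737 (L l170 (T t7738 N)))))))))⟩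
def e0_63_240__154_42_34 : Ent 4 := ⟨[a0, a63, a240], [a154, a42, a55], (M a64 (F (T t7735 (L l390 (L l498 (T t7736 (L l423 (T t7737 (L l170 (L l423 (L l495 (T t7738 N))))))))))))⟩
def e0_63_240__154_42_35 : Ent 4 := ⟨[a0, a63, a240], [a154, a42, a58], (M a106 (L l54 (F (T t4779 (L l170 (L l368 (L l512 (T t817 (T t4781 (K a10 (M a26 (F (L l426 (T t4786 (L l170 (L l368 (L l512 (T t817 (L l318 (T t4781 N)))))))))) (K a26 (M a10 (L l354 (F (T t4779 (L l227 (T t6610 (T t4781 (K a90 (M a218 (F (T t7786 (L l18 (L l170 (L l368 (L l375 (T t6611 (L l170 (L l368 (L l375 (T t7741 (K a192 (M a8 (F (L l66 (T t7787 (L l88 (T t7788 N)))))) N))))))))))))) (K a218 (M a90 (F (T t7760 (T t4788 N)))) N))))))))) N)))))))))))⟩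
def e0_63_240__154_42_36 : Ent 4 := ⟨[a0, a63, a240], [a154, a42, a59], (M a64 (L l56 (F (T t7735 (L l390 (L l498 (L l501 (T t7736 (T t7737 (L l170 (T t7738 (K a8 (M a25 (F (T t7735 (L l390 (L l498 (L l501 (T t7736 (L l390 (L l498 (L l501 (T t7739 (L l170 (T t7738 N))))))))))))) (K a25 (M a8 (F (T t7526 (T t7737 N)))) N)))))))))))))⟩
def e0_63_240__154_42_37 : Ent 4 := ⟨[a0, a63, a240], [a154, a42, a64], (M a165 (F (T t6493 (T t7778 (L l116 (T t7779 N))))))⟩
def e0_63_240__154_42_38 : Ent 4 := ⟨[a0, a63, a240], [a154, a42, a65], (M a64 (F (T t7735 (L l390 (L l498 (T t7736 (T t7737 (L l170 (T t7738 N)))))))))⟩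
def e0_63_240__154_42_39 : Ent 4 := ⟨[a0, a63, a240], [a154, a42, a66], (M a64 (F (T t7735 (L l142 (L l390 (L l498 (T t7736 (T t7737 (L l82 (L l170 (T t7738 N)))))))))))⟩
def e0_63_240__154_42_40 : Ent 4 := ⟨[a0, a63, a240], [a154, a42, a67], (M a64 (F (L l368 (T t7789 (L l390 (L l498 (T t7736 (T t7737 (L l143 (L l170 (T t7738 N)))))))))))⟩
def e0_63_240__154_42_41 : Ent 4 := ⟨[a0, a63, a240], [a154, a42, a69], (M a64 (F (T t7735 (L l390 (L l498 (T t7736 (L l123 (T t7737 (L l170 (T t7738 N))))))))))⟩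
def e0_63_240__154_42_42 : Ent 4 := ⟨[a0, a63, a240], [a154, a42, a70], (M a64 (F (T t7735 (L l390 (L l498 (T t7736 (T t7737 (L l82 (L l170 (T t7738 N))))))))))⟩
def e0_63_240__154_42_43 : Ent 4 := ⟨[a0, a63, a240], [a154, a42, a71], (M a64 (F (T t7735 (L l390 (L l498 (T t7736 (T t7737 (L l170 (T t7738 N)))))))))⟩
def e0_63_240__154_42_44 : Ent 4 := ⟨[a0, a63, a240], [a154, a42, a74], (M a64 (F (T t7735 (L l130 (L l339 (L l390 (L l498 (T t7736 (T t7737 (L l170 (L l368 (T t7771 N))))))))))))⟩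
def e0_63_240__154_42_45 : Ent 4 := ⟨[a0, a63, a240], [a154, a42, a75], (M a64 (F (T t7735 (L l337 (L l390 (L l498 (T t7736 (T t7737 (L l78 (L l170 (T t7738 N)))))))))))⟩
def e0_63_240__154_42_46 : Ent 4 := ⟨[a0, a63, a240], [a154, a42, a79], (M a64 (F (L l368 (T t7789 (L l325 (L l390 (L l498 (T t7736 (T t7737 (L l137 (L l170 (T t7738 N))))))))))))⟩
def e0_63_240__154_42_47 : Ent 4 := ⟨[a0, a63, a240], [a154, a42, a80], (M a149 (F (T t1090 (L l54 (L l116 (L l390 (L l498 (T t7790 (L l116 (L l390 (L l498 (T t7791 (L l54 (L l94 (L l116 (L l354 (T t7792 (L l28 (L l340 (T t7793 (L l54 (L l116 (T t7794 (K a90 (Fr a181 a122 l447 (Fr a133 a165 l199 (Fr a192 a106 l519 (Fr a74 a15 l339 (V t7865))))) N))))))))))))))))))))))))⟩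
def e0_63_240__154_42_48 : Ent 4 := ⟨[a0, a63, a240], [a154, a42, a81], (M a64 (F (T t7735 (L l390 (L l498 (T t7736 (T t7737 (L l170 (T t7738 N)))))))))⟩
def e0_63_240__154_42_49 : Ent 4 := ⟨[a0, a63, a240], [a154, a42, a82], (M a64 (F (L l368 (T t7789 (L l390 (L l498 (T t7736 (T t7737 (L l170 (T t7738 N))))))))))⟩
def e0_63_240__154_42_50 : Ent 4 := ⟨[a0, a63, a240], [a154, a42, a83], (M a64 (F (T t7735 (L l390 (L l498 (T t7736 (T t7737 (L l170 (T t7738 N)))))))))⟩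
def e0_63_240__154_42_51 : Ent 4 := ⟨[a0, a63, a240], [a154, a42, a85], (M a252 (L l368 (F (T t3105 (T t6518 (L l56 (L l87 (L l94 (T t7566 (L l458 (T t7567 (K a16 (M a223 (F (T t6518 (T t3105 (L l56 (L l87 (L l94 (L l340 (L l364 (T t7566 (L l458 (T t7567 N)))))))))))) (K a223 (M a16 (F (T t7796 (L l28 (L l241 (T t7797 N)))))) N)))))))))))))⟩
def e0_63_240__154_42_52 : Ent 4 := ⟨[a0, a63, a240], [a154, a42, a86], (M a64 (L l366 (F (T t7735 (L l142 (L l390 (L l498 (T t7736 (T t7737 (L l170 (L l351 (T t7738 (K a18 (M a222 (F (T t7735 (L l142 (L l390 (L l498 (T t7736 (T t7737 (L l170 (L l351 (T t7738 N))))))))))) (K a222 (M a18 (F (T t7735 (L l142 (L l390 (L l498 (T t7736 (T t7737 (L l170 (L l351 (T t7738 N))))))))))) N))))))))))))))⟩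
def e0_63_240__154_42_53 : Ent 4 := ⟨[a0, a63, a240], [a154, a42, a87], (M a64 (F (T t7735 (L l390 (L l498 (T t7736 (T t7737 (L l143 (L l170 (T t7738 N))))))))))⟩
def e0_63_240__154_42_54 : Ent 4 := ⟨[a0, a63, a240], [a154, a42, a90], (M a112 (L l354 (F (L l227 (T t4791 (L l227 (T t1556 (L l130 (L l390 (L l498 (T t7752 (K a26 (M a218 (L l54 (F (L l227 (T t1556 (L l227 (T t4791 (L l130 (L l390 (L l498 (T t7752 (K a10 (M a58 (L l462 (F (T t7798 (L l130 (L l390 (T t7752 (L l227 (T t7799 (K a170 (M a250 (L l206 (L l390 (F (T t7743 (T t7798 (K a138 (Fr a186 a122 l426 (V t7798)) (K a106 (Fr a234 a202 l282 (V t7743)) (K a234 (M a106 (L l206 (F (T t7743 (T t7798 (K a138 (Fr a186 a122 l426 (V t7798)) (K a186 (M a138 (F (T t7798 (T t7746 N)))) N))))))) (K a186 (M a138 (L l390 (F (T t7798 (T t7746 (K a106 (Fr a234 a202 l282 (V t7746)) (K a234 (M a106 (F (T t7798 (T t7746 N)))) N))))))) N)))))))))) (K a250 (M a170 (F (T t7798 (L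 l94 (L l130 (T t7749 N)))))) N))))))))))) (K a58 (M a10 (L l498 (F (L l227 (T t4791 (L l227 (T t7800 (L l94 (L l368 (T t7801 (K a202 (M a106 (F (T t7802 (L l170 (L l368 (L l375 (L l426 (T t7803 (L l227 (L l236 (T t4791 (L l170 (T t7804 N))))))))))))) (K a106 (M a202 (L l130 (L l390 (F (T t7805 (L l144 (L l227 (T t4791 (K a74 (Fr a122 a181 l447 (V t7806)) (K a170 (Fr a234 a250 l282 (V t7807)) (K a234 (M a170 (L l130 (F (L l256 (T t7805 (L l75 (L l94 (L l296 (T t7808 (K a74 (Fr a122 a181 l447 (V t7808)) (K a122 (Fr a74 a138 l318 (V t7808)) N))))))))))) (K a122 (Fr a74 a138 l318 (V t4791)) N)))))))))))) N)))))))))))) N))))))))))))) (K a218 (M a26 (F (L l227 (T t1556 (L l227 (T t4791 (L l94 (L l368 (T t7801 N))))))))) N)))))))))))))⟩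
def e0_63_240__154_42_55 : Ent 4 := ⟨[a0, a63, a240], [a154, a42, a91], (M a64 (F (T t7735 (L l373 (L l390 (L l481 (L l498 (T t7736 (T t7737 (L l170 (T t7738 N)))))))))))⟩
def e0_63_240__154_42_56 : Ent 4 := ⟨[a0, a63, a240], [a154, a42, a95], (M a64 (F (T t7735 (L l361 (L l390 (L l469 (L l498 (T t7736 (T t7737 (L l94 (L l170 (L l368 (T t7771 N)))))))))))))⟩
def e0_63_240__154_42_57 : Ent 4 := ⟨[a0, a63, a240], [a154, a42, a96], (M a85 (F (L l376 (T t1384 (L l54 (L l206 (L l390 (L l484 (L l498 (L l512 (T t933 (L l376 (T t1385 N)))))))))))))⟩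
def e0_63_240__154_42_58 : Ent 4 := ⟨[a0, a63, a240], [a154, a42, a97], (M a64 (F (L l368 (T t7789 (L l390 (L l498 (T t7736 (L l96 (T t7737 (L l170 (T t7738 N)))))))))))⟩
def e0_63_240__154_42_59 : Ent 4 := ⟨[a0, a63, a240], [a154, a42, a98], (M a64 (F (L l512 (T t7768 (L l102 (L l381 (L l390 (L l498 (T t7736 (L l96 (T t7737 (L l170 (T t7738 N)))))))))))))⟩
def e0_63_240__154_42_60 : Ent 4 := ⟨[a0, a63, a240], [a154, a42, a99], (M a64 (F (T t7735 (L l390 (L l498 (T t7736 (L l96 (T t7737 (L l170 (T t7738 N))))))))))⟩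
def e0_63_240__154_42_61 : Ent 4 := ⟨[a0, a63, a240], [a154, a42, a101], (M a64 (L l512 (F (L l151 (T t7735 (L l104 (L l390 (L l498 (T t7736 (L l104 (L l123 (T t7737 (L l170 (L l491 (T t7738 (K a48 (M a207 (F (L l206 (L l498 (T t7809 (L l368 (L l383 (L l491 (T t7810 (L l104 (L l123 (L l440 (L l484 (T t7737 (L l170 (L l206 (T t7811 N))))))))))))))))) (K a207 (M a48 (F (T t7812 (L l28 (L l170 (L l325 (L l491 (T t7813 N)))))))) N)))))))))))))))))⟩
def e0_63_240__154_42_62 : Ent 4 := ⟨[a0, a63, a240], [a154, a42, a102], (M a64 (L l510 (F (T t7735 (L l102 (L l390 (L l498 (T t7736 (T t7737 (L l170 (L l495 (T t7738 (K a50 (M a206 (F (T t7735 (L l102 (L l390 (L l498 (T t7736 (T t7737 (L l170 (L l495 (T t7738 N))))))))))) (K a206 (M a50 (F (T t7735 (L l102 (L l390 (L l498 (T t7736 (T t7737 (L l170 (L l495 (T t7738 N))))))))))) N))))))))))))))⟩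
def e0_63_240__154_42_63 : Ent 4 := ⟨[a0, a63, a240], [a154, a42, a103], (M a64 (F (T t7735 (L l390 (L l498 (T t7736 (T t7737 (L l170 (T t7738 N)))))))))⟩
def e0_63_240__154_42_64 : Ent 4 := ⟨[a0, a63, a240], [a154, a42, a106], (M a170 (L l498 (F (T t7814 (L l144 (L l368 (L l512 (T t7815 (L l130 (L l411 (T t7816 (L l130 (L l144 (L l411 (T t7817 (K a202 (M a58 (F (T t7814 (L l282 (T t7219 (L l144 (L l227 (L l236 (T t7218 N))))))))) (K a58 (M a202 (L l54 (F (T t7814 (L l104 (L l144 (L l368 (T t7818 (L l144 (L l368 (T t7819 (L l130 (L l411 (L l426 (T t7816 (K a255 (Fr a160 a80 l448 (Fr a165 a175 l180 (Fr a15 a90 l483 (Fr a10 a5 l8 (Fr a181 a122 l447 (Fr a74 a138 l318 (V t7866))))))) (K a10 (M a26 (F (L l130 (L l426 (T t7749 (L l28 (L l130 (L l411 (T t7821 (L l144 (L l170 (L l368 (T t7822 (L l104 (L l144 (L l368 (T t7818 (L l130 (L l426 (T t7823 N)))))))))))))))))))) (K a26 (M a10 (L l354 (F (T t7824 (L l144 (L l368 (T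 t7825 (K a90 (M a218 (L l130 (F (T t7805 (L l94 (L l227 (L l411 (T t7826 (K a74 (Fr a122 a181 l447 (V t7827)) (K a122 (Fr a74 a138 l318 (V t7827)) N)))))))))) (K a218 (Fr a90 a250 l462 (V t7760)) N))))))))) N)))))))))))))))))) N)))))))))))))))))⟩
def e0_63_240__154_42_65 : Ent 4 := ⟨[a0, a63, a240], [a154, a42, a107], (M a64 (F (T t7735 (L l98 (L l390 (L l498 (T t7736 (T t7737 (L l143 (L l170 (T t7738 N)))))))))))⟩
def e0_63_240__154_42_66 : Ent 4 := ⟨[a0, a63, a240], [a154, a42, a111], (M a64 (F (T t7735 (L l104 (L l390 (L l498 (T t7736 (L l137 (L l170 (T t7738 (L l104 (T t7737 N))))))))))))⟩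
def e0_63_240__154_42_67 : Ent 4 := ⟨[a0, a63, a240], [a154, a42, a112], (M a192 (F (L l170 (T t4220 (L l28 (L l116 (L l512 (T t7828 (L l114 (L l116 (L l390 (L l498 (T t4732 N)))))))))))))⟩
def e0_63_240__154_42_68 : Ent 4 := ⟨[a0, a63, a240], [a154, a42, a113], (M a64 (F (L l368 (T t7789 (L l390 (L l498 (T t7736 (L l111 (T t7737 (L l170 (T t7738 N)))))))))))⟩
def e0_63_240__154_42_69 : Ent 4 := ⟨[a0, a63, a240], [a154, a42, a114], (M a64 (F (L l368 (T t7789 (L l390 (L l498 (T t7736 (T t7737 (L l170 (T t7738 N))))))))))⟩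
def e0_63_240__154_42_70 : Ent 4 := ⟨[a0, a63, a240], [a154, a42, a115], (M a64 (F (L l368 (T t7789 (L l390 (L l498 (T t7736 (T t7737 (L l113 (L l170 (T t7738 N)))))))))))⟩
def e0_63_240__154_42_71 : Ent 4 := ⟨[a0, a63, a240], [a154, a42, a117], (M a192 (F (L l368 (T t5426 (L l390 (L l498 (T t5821 (L l170 (L l419 (T t4221 N))))))))))⟩
def e0_63_240__154_42_72 : Ent 4 := ⟨[a0, a63, a240], [a154, a42, a118], (M a64 (F (T t7735 (L l390 (L l498 (T t7736 (L l107 (L l423 (T t7737 (L l170 (L l423 (T t7738 N))))))))))))⟩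
def e0_63_240__154_42_73 : Ent 4 := ⟨[a0, a63, a240], [a154, a42, a119], (M a64 (F (T t7735 (L l390 (L l498 (T t7736 (L l107 (T t7737 (L l113 (L l170 (T t7738 N)))))))))))⟩
def e0_63_240__154_42_74 : Ent 4 := ⟨[a0, a63, a240], [a154, a42, a122], (M a192 (F (L l114 (T t4730 (L l130 (L l390 (L l426 (L l498 (T t7829 (L l130 (L l390 (L l498 (T t7830 (L l130 (L l390 (L l498 (T t7831 N)))))))))))))))))⟩
def e0_63_240__154_42_75 : Ent 4 := ⟨[a0, a63, a240], [a154, a42, a123], (M a64 (F (T t7735 (L l132 (L l390 (L l498 (T t7736 (T t7737 (L l113 (L l170 (T t7738 N)))))))))))⟩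
def e0_63_240__154_42_76 : Ent 4 := ⟨[a0, a63, a240], [a154, a42, a127], (M a192 (F (L l170 (T t4220 (L l368 (L l512 (T t5820 (L l114 (L l144 (L l390 (L l498 (T t4732 N))))))))))))⟩
def e0_63_240__154_42_77 : Ent 4 := ⟨[a0, a63, a240], [a154, a42, a128], (M a90 (F (T t3022 (L l192 (T t2742 (L l192 (T t7757 N)))))))⟩
def e0_63_240__154_42_78 : Ent 4 := ⟨[a0, a63, a240], [a154, a42, a129], (M a64 (F (L l152 (T t7735 (L l152 (L l390 (L l498 (T t7736 (T t7737 (L l152 (L l170 (L l217 (T t7738 N)))))))))))))⟩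
def e0_63_240__154_42_79 : Ent 4 := ⟨[a0, a63, a240], [a154, a42, a130], (M a64 (F (L l152 (T t7735 (L l152 (L l390 (L l498 (T t7736 (T t7737 (L l152 (L l170 (T t7738 N))))))))))))⟩
def e0_63_240__154_42_80 : Ent 4 := ⟨[a0, a63, a240], [a154, a42, a131], (M a64 (F (L l152 (T t7735 (L l152 (L l390 (L l498 (T t7736 (L l219 (T t7737 (L l152 (L l170 (T t7738 N)))))))))))))⟩
def e0_63_240__154_42_81 : Ent 4 := ⟨[a0, a63, a240], [a154, a42, a133], (M a64 (F (L l160 (T t7735 (L l199 (L l390 (L l498 (T t7739 (L l28 (L l160 (L l170 (L l199 (L l339 (T t7813 (L l160 (L l170 (L l199 (T t7832 N))))))))))))))))))⟩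
def e0_63_240__154_42_82 : Ent 4 := ⟨[a0, a63, a240], [a154, a42, a134], (M a64 (F (T t7735 (L l390 (L l498 (T t7736 (T t7737 (L l170 (L l336 (T t7738 N))))))))))⟩
def e0_63_240__154_42_83 : Ent 4 := ⟨[a0, a63, a240], [a154, a42, a135], (M a64 (F (T t7735 (L l337 (L l390 (L l498 (T t7736 (T t7737 (L l170 (T t7738 N))))))))))⟩
def e0_63_240__154_42_84 : Ent 4 := ⟨[a0, a63, a240], [a154, a42, a138], (M a170 (F (T t7814 (L l368 (L l512 (T t7833 (L l160 (T t7834 N))))))))⟩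
def e0_63_240__154_42_85 : Ent 4 := ⟨[a0, a63, a240], [a154, a42, a139], (M a64 (L l209 (F (T t7735 (L l390 (L l498 (T t7736 (T t7737 (L l170 (T t7738 (K a184 (M a169 (F (T t7735 (L l22 (L l390 (L l498 (T t7835 (L l390 (L l498 (T t7739 N)))))))))) (K a169 (M a184 (F (T t7735 (L l390 (L l393 (L l498 (T t7736 (T t7737 (L l170 (L l217 (T t7738 N))))))))))) N))))))))))))⟩
def e0_63_240__154_42_86 : Ent 4 := ⟨[a0, a63, a240], [a154, a42, a143], (M a165 (F (L l213 (T t6513 (L l160 (T t7778 (L l160 (L l213 (L l368 (T t7836 (L l160 (L l213 (T t7837 N)))))))))))))⟩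
def e0_63_240__154_42_87 : Ent 4 := ⟨[a0, a63, a240], [a154, a42, a144], (M a85 (L l170 (F (L l192 (T t1384 (L l54 (L l206 (L l390 (L l484 (L l498 (L l512 (T t933 (L l192 (T t1385 (K a149 (M a159 (F (L l192 (T t3104 (L l54 (L l199 (L l206 (L l220 (L l390 (L l484 (L l498 (L l512 (T t933 (L l28 (L l206 (L l354 (T t7838 (L l206 (L l220 (L l375 (L l390 (T t7839 (L l28 (L l192 (L l354 (T t7840 N)))))))))))))))))))))))))) (K a159 (M a149 (F (L l484 (T t3183 (T t7841 N))))) N))))))))))))))))⟩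
def e0_63_240__154_42_88 : Ent 4 := ⟨[a0, a63, a240], [a154, a42, a145], (M a64 (F (L l196 (T t7735 (L l196 (L l390 (L l498 (T t7736 (T t7737 (L l167 (L l170 (L l196 (T t7738 N)))))))))))))⟩
def e0_63_240__154_42_89 : Ent 4 := ⟨[a0, a63, a240], [a154, a42, a146], (M a64 (L l168 (F (T t7735 (L l390 (L l498 (T t7736 (T t7737 (L l170 (T t7738 (K a150 (M a158 (F (T t7735 (L l390 (L l498 (L l516 (T t7736 (T t7737 (L l163 (L l170 (T t7738 N))))))))))) (K a158 (M a150 (F (T t7735 (L l66 (L l390 (L l498 (L l504 (T t7842 (L l390 (L l498 (T t7739 N))))))))))) N))))))))))))⟩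
def e0_63_240__154_42_90 : Ent 4 := ⟨[a0, a63, a240], [a154, a42, a147], (M a64 (F (T t7735 (L l390 (L l498 (T t7736 (T t7737 (L l170 (T t7738 N)))))))))⟩
def e0_63_240__154_42_91 : Ent 4 := ⟨[a0, a63, a240], [a154, a42, a149], (M a255 (L l170 (F (L l491 (L l512 (T t6418 (L l347 (L l368 (T t5869 (L l199 (L l206 (L l220 (L l390 (T t5867 (K a144 (M a159 (F (L l375 (T t7843 (L l54 (L l199 (L l220 (L l498 (T t5871 (L l54 (L l347 (L l368 (T t7844 N))))))))))))) (K a159 (M a144 (F (L l220 (T t7845 (L l491 (L l512 (T t6418 (L l54 (L l347 (L l368 (T t7844 N))))))))))) N))))))))))))))))⟩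
def e0_63_240__154_42_92 : Ent 4 := ⟨[a0, a63, a240], [a154, a42, a150], (M a64 (L l168 (F (T t7735 (L l390 (L l498 (L l516 (T t7736 (T t7737 (L l163 (L l170 (T t7738 (K a146 (M a158 (F (T t7735 (L l390 (L l498 (L l516 (T t7736 (T t7737 (L l163 (L l170 (T t7738 N))))))))))) (K a158 (M a146 (F (T t7735 (L l390 (L l498 (L l516 (T t7736 (T t7737 (L l163 (L l170 (T t7738 N))))))))))) N))))))))))))))⟩
def e0_63_240__154_42_93 : Ent 4 := ⟨[a0, a63, a240], [a154, a42, a151], (M a64 (F (T t7735 (L l373 (L l390 (L l498 (T t7736 (L l219 (T t7737 (L l163 (L l170 (T t7738 N))))))))))))⟩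
def e0_63_240__154_42_94 : Ent 4 := ⟨[a0, a63, a240], [a154, a42, a155], (M a64 (L l164 (F (T t7735 (L l390 (L l498 (T t7736 (T t7737 (L l170 (T t7738 (K a152 (M a153 (F (T t7735 (L l56 (L l390 (L l498 (L l499 (T t7624 (L l390 (L l498 (T t7739 N))))))))))) (K a153 (M a152 (F (T t7735 (L l390 (L l498 (L l501 (T t7736 (T t7737 (L l167 (L l170 (T t7738 N))))))))))) N))))))))))))⟩
def e0_63_240__154_42_95 : Ent 4 := ⟨[a0, a63, a240], [a154, a42, a159], (M a149 (F (T t1090 (L l390 (L l498 (L l512 (T t1091 (L l213 (T t1207 N)))))))))⟩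
def e0_63_240__154_42_96 : Ent 4 := ⟨[a0, a63, a240], [a154, a42, a160], (M a149 (F (T t1937 (L l54 (L l376 (L l390 (L l498 (T t7846 (L l54 (L l354 (L l368 (T t7847 (L l28 (L l192 (T t7793 (L l54 (L l376 (T t7794 (K a90 (Fr a181 a122 l447 (Fr a133 a165 l199 (Fr a192 a106 l519 (Fr a74 a15 l339 (V t7865))))) N)))))))))))))))))))⟩
def e0_63_240__154_42_97 : Ent 4 := ⟨[a0, a63, a240], [a154, a42, a161], (M a64 (F (L l172 (L l512 (T t7768 (L l381 (L l390 (L l498 (T t7736 (L l172 (T t7737 (L l170 (T t7738 N)))))))))))))⟩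
def e0_63_240__154_42_98 : Ent 4 := ⟨[a0, a63, a240], [a154, a42, a162], (M a64 (F (L l172 (L l196 (T t7735 (L l196 (L l390 (L l498 (T t7736 (L l172 (T t7737 (L l170 (L l196 (T t7738 N))))))))))))))⟩
def e0_63_240__154_42_99 : Ent 4 := ⟨[a0, a63, a240], [a154, a42, a163], (M a64 (F (L l172 (T t7735 (L l390 (L l498 (T t7736 (L l172 (T t7737 (L l170 (T t7738 N)))))))))))⟩
def e0_63_240__154_42_100 : Ent 4 := ⟨[a0, a63, a240], [a154, a42, a165], (M a252 (L l227 (F (T t7848 (L l199 (T t6519 (L l56 (L l199 (T t7849 (L l180 (L l223 (T t7850 (K a176 (M a143 (F (T t7848 (L l182 (L l223 (T t3105 (L l56 (L l190 (L l199 (T t7851 (L l180 (L l182 (L l192 (L l223 (T t7850 N))))))))))))))) (K a143 (M a176 (F (T t7264 (L l213 (T t7475 N))))) N))))))))))))))⟩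
def e0_63_240__154_42_101 : Ent 4 := ⟨[a0, a63, a240], [a154, a42, a166], (M a64 (L l224 (F (T t7735 (L l390 (L l408 (L l498 (T t7736 (T t7737 (L l170 (L l202 (T t7738 (K a178 (M a142 (F (T t7735 (L l390 (L l408 (L l498 (T t7736 (T t7737 (L l170 (L l202 (T t7738 N))))))))))) (K a142 (M a178 (F (T t7735 (L l390 (L l408 (L l498 (T t7736 (T t7737 (L l170 (L l202 (T t7738 N))))))))))) N))))))))))))))⟩
def e0_63_240__154_42_102 : Ent 4 := ⟨[a0, a63, a240], [a154, a42, a167], (M a64 (F (T t7735 (L l390 (L l481 (L l498 (T t7736 (T t7737 (L l170 (T t7738 N))))))))))⟩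
def e0_63_240__154_42_103 : Ent 4 := ⟨[a0, a63, a240], [a154, a42, a170], (M a106 (L l206 (F (T t4779 (L l170 (L l180 (L l220 (L l368 (L l512 (T t817 (L l180 (L l220 (L l462 (T t6503 (L l28 (L l170 (L l220 (L l404 (L l512 (T t7852 (L l28 (L l180 (T t7265 (K a138 (M a186 (F (L l462 (T t7454 (L l170 (L l180 (L l220 (L l368 (L l512 (T t817 (L l180 (L l227 (L l318 (T t6609 N)))))))))))))) (K a186 (M a138 (F (L l426 (T t4786 (L l170 (L l180 (L l220 (L l368 (L l440 (L l512 (T t817 (L l54 (L l170 (L l220 (L l462 (T t7853 (L l170 (L l180 (L l190 (L l227 (T t7854 (L l28 (L l190 (L l354 (T t7855 N))))))))))))))))))))))))) N)))))))))))))))))))))))))⟩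
def e0_63_240__154_42_104 : Ent 4 := ⟨[a0, a63, a240], [a154, a42, a171], (M a64 (F (T t7735 (L l390 (L l498 (T t7736 (L l219 (T t7737 (L l170 (T t7738 N))))))))))⟩
def e0_63_240__154_42_105 : Ent 4 := ⟨[a0, a63, a240], [a154, a42, a175], (M a192 (F (L l28 (T t7856 (L l390 (L l469 (L l498 (T t4222 (L l170 (L l180 (L l469 (T t4221 N))))))))))))⟩
def e0_63_240__154_42_106 : Ent 4 := ⟨[a0, a63, a240], [a154, a42, a176], (M a165 (F (T t6513 (T t7778 (L l192 (T t7779 N))))))⟩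
def e0_63_240__154_42_107 : Ent 4 := ⟨[a0, a63, a240], [a154, a42, a177], (M a64 (F (T t7735 (L l390 (L l498 (T t7736 (L l187 (T t7737 (L l170 (L l187 (T t7738 N)))))))))))⟩
def e0_63_240__154_42_108 : Ent 4 := ⟨[a0, a63, a240], [a154, a42, a178], (M a64 (L l224 (F (T t7735 (L l390 (L l498 (T t7736 (T t7737 (L l170 (T t7738 (K a166 (M a142 (F (T t7735 (L l390 (L l408 (L l498 (T t7736 (T t7737 (L l170 (L l202 (T t7738 N))))))))))) (K a142 (M a166 (F (T t7735 (L l26 (L l390 (L l498 (T t7609 (L l390 (L l498 (T t7739 N)))))))))) N))))))))))))⟩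
def e0_63_240__154_42_109 : Ent 4 := ⟨[a0, a63, a240], [a154, a42, a179], (M a64 (F (L l196 (T t7735 (L l196 (L l390 (L l498 (T t7736 (L l189 (T t7737 (L l170 (L l196 (T t7738 N)))))))))))))⟩
def e0_63_240__154_42_110 : Ent 4 := ⟨[a0, a63, a240], [a154, a42, a181], (M a192 (F (T t4730 (L l54 (L l190 (L l390 (L l498 (T t7857 (L l390 (L l498 (T t7830 (L l170 (L l199 (T t7858 N))))))))))))))⟩
def e0_63_240__154_42_111 : Ent 4 := ⟨[a0, a63, a240], [a154, a42, a182], (M a64 (F (T t7735 (L l390 (L l498 (T t7736 (L l183 (L l422 (T t7737 (L l170 (L l183 (T t7738 N))))))))))))⟩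
def e0_63_240__154_42_112 : Ent 4 := ⟨[a0, a63, a240], [a154, a42, a183], (M a64 (F (T t7735 (L l390 (L l498 (T t7736 (L l183 (L l189 (T t7737 (L l170 (L l183 (L l202 (T t7738 N)))))))))))))⟩
def e0_63_240__154_42_113 : Ent 4 := ⟨[a0, a63, a240], [a154, a42, a186], (M a106 (L l206 (F (L l190 (T t4779 (L l170 (L l368 (L l440 (L l512 (T t817 (L l190 (T t4781 (K a138 (M a170 (F (L l368 (T t6995 (L l54 (L l318 (T t7859 (L l28 (L l170 (T t815 N)))))))))) (K a170 (M a138 (F (L l426 (T t4786 (L l170 (L l180 (L l220 (L l368 (L l440 (L l512 (T t817 (L l54 (L l170 (L l220 (L l462 (T t7853 (L l170 (L l180 (L l190 (L l227 (T t7854 (L l28 (L l190 (L l354 (T t7855 N))))))))))))))))))))))))) N))))))))))))))⟩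
def e0_63_240__154_42_114 : Ent 4 := ⟨[a0, a63, a240], [a154, a42, a187], (M a64 (F (T t7735 (L l390 (L l498 (T t7736 (L l189 (T t7737 (L l170 (T t7738 N))))))))))⟩
def e0_63_240__154_42_115 : Ent 4 := ⟨[a0, a63, a240], [a154, a42, a191], (M a192 (F (L l28 (T t7856 (L l390 (L l498 (T t4222 (L l170 (L l190 (L l220 (T t4221 N)))))))))))⟩
def e0_63_240__154_42_116 : Ent 4 := ⟨[a0, a63, a240], [a154, a42, a192], (M a255 (F (T t5870 (L l339 (L l368 (T t5869 (L l206 (L l339 (L l390 (T t5867 N))))))))))⟩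
def e0_63_240__154_42_117 : Ent 4 := ⟨[a0, a63, a240], [a154, a42, a193], (M a64 (F (T t7735 (L l390 (L l498 (T t7736 (T t7737 (L l170 (L l515 (T t7738 N))))))))))⟩
def e0_63_240__154_42_118 : Ent 4 := ⟨[a0, a63, a240], [a154, a42, a194], (M a64 (F (T t7735 (L l390 (L l498 (L l516 (T t7736 (T t7737 (L l170 (L l336 (T t7738 N)))))))))))⟩
def e0_63_240__154_42_119 : Ent 4 := ⟨[a0, a63, a240], [a154, a42, a195], (M a64 (F (T t7735 (L l337 (L l390 (L l498 (T t7736 (T t7737 (L l170 (T t7738 N))))))))))⟩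
def e0_63_240__154_42_120 : Ent 4 := ⟨[a0, a63, a240], [a154, a42, a197], (M a64 (F (T t7735 (L l390 (L l498 (T t7736 (T t7737 (L l170 (L l491 (T t7738 N))))))))))⟩
def e0_63_240__154_42_121 : Ent 4 := ⟨[a0, a63, a240], [a154, a42, a198], (M a64 (F (T t7735 (L l390 (L l498 (T t7736 (T t7737 (L l170 (T t7738 N)))))))))⟩
def e0_63_240__154_42_122 : Ent 4 := ⟨[a0, a63, a240], [a154, a42, a199], (M a64 (F (T t7735 (L l390 (L l498 (T t7736 (T t7737 (L l170 (T t7738 N)))))))))⟩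
def e0_63_240__154_42_123 : Ent 4 := ⟨[a0, a63, a240], [a154, a42, a202], (M a106 (F (L l236 (T t4786 (L l170 (T t6606 (L l318 (T t4781 N))))))))⟩
def e0_63_240__154_42_124 : Ent 4 := ⟨[a0, a63, a240], [a154, a42, a203], (M a64 (L l500 (F (T t7735 (L l390 (L l498 (T t7736 (T t7737 (L l170 (T t7738 (K a56 (M a105 (F (T t7735 (L l390 (L l498 (L l499 (T t7860 (L l390 (L l498 (T t7739 N)))))))))) (K a105 (M a56 (F (T t7735 (L l98 (L l390 (L l498 (T t7736 (T t7737 (L l170 (L l515 (T t7738 N))))))))))) N))))))))))))⟩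
def e0_63_240__154_42_125 : Ent 4 := ⟨[a0, a63, a240], [a154, a42, a207], (M a64 (L l512 (F (T t7735 (L l325 (L l390 (L l498 (T t7736 (T t7737 (L l170 (T t7738 (K a48 (M a101 (F (L l170 (T t7861 (L l75 (L l325 (L l390 (L l498 (T t7736 (T t7862 (L l325 (L l484 (T t7863 N))))))))))))) (K a101 (M a48 (F (T t7812 (L l28 (L l170 (L l325 (L l491 (T t7813 N)))))))) N)))))))))))))⟩
def e0_63_240__154_42_126 : Ent 4 := ⟨[a0, a63, a240], [a154, a42, a208], (M a85 (F (T t1384 (L l206 (L l390 (L l512 (T t7753 (T t1385 N))))))))⟩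
def e0_63_240__154_42_127 : Ent 4 := ⟨[a0, a63, a240], [a154, a42, a209], (M a64 (F (T t7735 (L l390 (L l498 (T t7736 (T t7737 (L l170 (L l371 (T t7738 N))))))))))⟩
def e0_63_240__154_42_128 : Ent 4 := ⟨[a0, a63, a240], [a154, a42, a210], (M a64 (F (T t7735 (L l390 (L l498 (T t7736 (T t7737 (L l170 (T t7738 N)))))))))⟩
def e0_63_240__154_42_129 : Ent 4 := ⟨[a0, a63, a240], [a154, a42, a211], (M a64 (F (T t7735 (L l373 (L l390 (L l498 (T t7736 (T t7737 (L l170 (T t7738 N))))))))))⟩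
def e0_63_240__154_42_130 : Ent 4 := ⟨[a0, a63, a240], [a154, a42, a213], (M a64 (F (T t7735 (L l390 (L l498 (T t7736 (T t7737 (L l170 (L l347 (T t7738 N))))))))))⟩
def e0_63_240__154_42_131 : Ent 4 := ⟨[a0, a63, a240], [a154, a42, a214], (M a64 (F (T t7735 (L l390 (L l498 (T t7736 (T t7737 (L l170 (T t7738 N)))))))))⟩
def e0_63_240__154_42_132 : Ent 4 := ⟨[a0, a63, a240], [a154, a42, a215], (M a64 (F (T t7735 (L l390 (L l498 (T t7736 (T t7737 (L l170 (T t7738 N)))))))))⟩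
def e0_63_240__154_42_133 : Ent 4 := ⟨[a0, a63, a240], [a154, a42, a218], (M a90 (F (T t2524 (L l246 (T t3022 (T t7757 N))))))⟩
def e0_63_240__154_42_134 : Ent 4 := ⟨[a0, a63, a240], [a154, a42, a219], (M a64 (L l356 (F (T t7735 (L l390 (L l498 (T t7736 (T t7737 (L l170 (T t7738 (K a24 (M a89 (F (T t7735 (L l390 (L l498 (T t7528 (L l390 (L l498 (T t7739 N))))))))) (K a89 (M a24 (F (T t7735 (L l132 (L l390 (L l498 (T t7736 (T t7737 (L l170 (L l371 (T t7738 N))))))))))) N))))))))))))⟩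
def e0_63_240__154_42_135 : Ent 4 := ⟨[a0, a63, a240], [a154, a42, a223], (M a85 (F (L l289 (T t1552 (L l206 (L l390 (T t7864 (L l361 (T t1385 N)))))))))⟩
def e0_63_240__154_42_136 : Ent 4 := ⟨[a0, a63, a240], [a154, a42, a224], (M a85 (F (T t1552 (L l206 (L l390 (L l512 (T t7753 (L l376 (T t1385 N)))))))))⟩
def e0_63_240__154_42_137 : Ent 4 := ⟨[a0, a63, a240], [a154, a42, a225], (M a64 (F (L l512 (T t7768 (L l248 (L l390 (L l498 (T t7736 (T t7737 (L l170 (T t7738 N)))))))))))⟩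
def e0_63_240__154_42_138 : Ent 4 := ⟨[a0, a63, a240], [a154, a42, a226], (M a64 (F (L l512 (T t7768 (L l248 (L l390 (L l408 (L l498 (T t7736 (T t7737 (L l170 (T t7738 N))))))))))))⟩
def e0_63_240__154_42_139 : Ent 4 := ⟨[a0, a63, a240], [a154, a42, a227], (M a64 (F (L l512 (T t7768 (L l248 (L l390 (L l498 (T t7736 (T t7737 (L l170 (T t7738 N)))))))))))⟩
def e0_63_240__154_42_140 : Ent 4 := ⟨[a0, a63, a240], [a154, a42, a229], (M a64 (F (L l512 (T t7768 (L l256 (L l390 (L l498 (T t7736 (T t7737 (L l170 (T t7738 N)))))))))))⟩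
def e0_63_240__154_42_141 : Ent 4 := ⟨[a0, a63, a240], [a154, a42, a230], (M a64 (F (T t7735 (L l390 (L l498 (T t7736 (T t7737 (L l170 (T t7738 N)))))))))⟩
def e0_63_240__154_42_142 : Ent 4 := ⟨[a0, a63, a240], [a154, a42, a231], (M a64 (F (T t7735 (L l390 (L l498 (T t7736 (T t7737 (L l170 (T t7738 N)))))))))⟩
def e0_63_240__154_42_143 : Ent 4 := ⟨[a0, a63, a240], [a154, a42, a234], (M a106 (F (L l296 (T t4779 (L l170 (L l256 (L l368 (L l512 (T t817 (T t4781 N))))))))))⟩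
def e0_63_240__154_42_144 : Ent 4 := ⟨[a0, a63, a240], [a154, a42, a235], (M a64 (F (T t7735 (L l390 (L l498 (T t7736 (T t7737 (L l170 (T t7738 N)))))))))⟩
def e0_63_240__154_42_145 : Ent 4 := ⟨[a0, a63, a240], [a154, a42, a239], (M a64 (F (L l512 (T t7768 (L l256 (L l390 (L l498 (T t7736 (T t7737 (L l170 (T t7738 N)))))))))))⟩
def e0_63_240__154_42_146 : Ent 4 := ⟨[a0, a63, a240], [a154, a42, a241], (M a64 (F (T t7735 (L l390 (L l498 (T t7736 (L l443 (T t7737 (L l170 (L l443 (T t7738 N)))))))))))⟩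
def e0_63_240__154_42_147 : Ent 4 := ⟨[a0, a63, a240], [a154, a42, a242], (M a64 (F (T t7735 (L l390 (L l498 (T t7736 (T t7737 (L l170 (T t7738 N)))))))))⟩
def e0_63_240__154_42_148 : Ent 4 := ⟨[a0, a63, a240], [a154, a42, a243], (M a64 (F (T t7735 (L l390 (L l481 (L l498 (T t7736 (T t7737 (L l170 (T t7738 N))))))))))⟩
def e0_63_240__154_42_149 : Ent 4 := ⟨[a0, a63, a240], [a154, a42, a245], (M a128 (F (L l28 (T t7782 (L l390 (L l498 (T t7783 (L l170 (L l206 (T t7784 (L l390 (L l498 (T t7785 N)))))))))))))⟩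
def e0_63_240__154_42_150 : Ent 4 := ⟨[a0, a63, a240], [a154, a42, a246], (M a64 (F (T t7735 (L l390 (L l498 (T t7736 (T t7737 (L l170 (T t7738 N)))))))))⟩
def e0_63_240__154_42_151 : Ent 4 := ⟨[a0, a63, a240], [a154, a42, a247], (M a64 (F (T t7735 (L l390 (L l498 (T t7736 (L l422 (T t7737 (L l170 (T t7738 N))))))))))⟩
def e0_63_240__154_42_152 : Ent 4 := ⟨[a0, a63, a240], [a154, a42, a250], (M a64 (F (T t7735 (L l390 (L l498 (T t7736 (T t7737 (L l170 (T t7738 N)))))))))⟩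
def e0_63_240__154_42_153 : Ent 4 := ⟨[a0, a63, a240], [a154, a42, a251], (M a64 (F (T t7735 (L l390 (L l498 (T t7736 (T t7737 (L l170 (T t7738 N)))))))))⟩
def e0_63_240__154_42_154 : Ent 4 := ⟨[a0, a63, a240], [a154, a42, a255], (M a192 (F (T t4730 (L l390 (L l469 (L l498 (T t4222 (L l170 (L l469 (T t4221 N))))))))))⟩
def b0_63_240__154_42 : Blk 4 := ⟨[0, 63, 240], [154, 42], [1, 2, 3, 5, 6, 7, 10, 11, 15, 16, 17, 18, 19, 21, 22, 23, 26, 27, 31, 32, 33, 34, 35, 37, 38, 39, 43, 47, 48, 49, 50, 51, 53, 54, 55, 58, 59, 64, 65, 66, 67, 69, 70, 71, 74, 75, 79, 80, 81, 82, 83, 85, 86, 87, 90, 91, 95, 96, 97, 98, 99, 101, 102, 103, 106, 107, 111, 112, 113, 114, 115, 117, 118, 119, 122, 123, 127, 128, 129, 130, 131, 133, 134, 135, 138, 139, 143, 144, 145, 146, 147, 149, 150, 151, 155, 159, 160, 161, 162, 163, 165, 166, 167, 170, 171, 175, 176, 177, 178, 179, 181, 182, 183, 186, 187, 191, 192, 193, 194, 195, 197, 198, 199,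 202, 203, 207, 208, 209, 210, 211, 213, 214, 215, 218, 219, 223, 224, 225, 226, 227, 229, 230, 231, 234, 235, 239, 241, 242, 243, 245, 246, 247, 250, 251, 255], [e0_63_240__154_42_0, e0_63_240__154_42_1, e0_63_240__154_42_2, e0_63_240__154_42_3, e0_63_240__154_42_4, e0_63_240__154_42_5, e0_63_240__154_42_6, e0_63_240__154_42_7, e0_63_240__154_42_8, e0_63_240__154_42_9, e0_63_240__154_42_10, e0_63_240__154_42_11, e0_63_240__154_42_12, e0_63_240__154_42_13, e0_63_240__154_42_14, e0_63_240__154_42_15, e0_63_240__154_42_16, e0_63_240__154_42_17, e0_63_240__154_42_18, e0_63_240__154_42_19, e0_63_240__154_42_20, e0_63_240__154_42_21, e0_63_240__154_42_22, e0_63_240__154_42_23, e0_63_240__154_42_24, e0_63_240__154_42_25, e0_63_240__154_42_26, e0_63_240__154_42_27, e0_63_240__154_42_28, e0_63_240__154_42_29, e0_63_240__154_42_30, e0_63_240__154_42_31, e0_63_240__154_42_32, e0_63_240__154_42_33, e0_63_240__154_42_34, e0_63_240__154_42_35,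 e0_63_240__154_42_36, e0_63_240__154_42_37, e0_63_240__154_42_38, e0_63_240__154_42_39, e0_63_240__154_42_40, e0_63_240__154_42_41, e0_63_240__154_42_42, e0_63_240__154_42_43, e0_63_240__154_42_44, e0_63_240__154_42_45, e0_63_240__154_42_46, e0_63_240__154_42_47, e0_63_240__154_42_48, e0_63_240__154_42_49, e0_63_240__154_42_50, e0_63_240__154_42_51, e0_63_240__154_42_52, e0_63_240__154_42_53, e0_63_240__154_42_54, e0_63_240__154_42_55, e0_63_240__154_42_56, e0_63_240__154_42_57, e0_63_240__154_42_58, e0_63_240__154_42_59, e0_63_240__154_42_60, e0_63_240__154_42_61, e0_63_240__154_42_62, e0_63_240__154_42_63, e0_63_240__154_42_64, e0_63_240__154_42_65, e0_63_240__154_42_66, e0_63_240__154_42_67, e0_63_240__154_42_68, e0_63_240__154_42_69, e0_63_240__154_42_70, e0_63_240__154_42_71, e0_63_240__154_42_72, e0_63_240__154_42_73, e0_63_240__154_42_74, e0_63_240__154_42_75, e0_63_240__154_42_76, e0_63_240__154_42_77, e0_63_240__154_42_78,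 e0_63_240__154_42_79, e0_63_240__154_42_80, e0_63_240__154_42_81, e0_63_240__154_42_82, e0_63_240__154_42_83, e0_63_240__154_42_84, e0_63_240__154_42_85, e0_63_240__154_42_86, e0_63_240__154_42_87, e0_63_240__154_42_88, e0_63_240__154_42_89, e0_63_240__154_42_90, e0_63_240__154_42_91, e0_63_240__154_42_92, e0_63_240__154_42_93, e0_63_240__154_42_94, e0_63_240__154_42_95, e0_63_240__154_42_96, e0_63_240__154_42_97, e0_63_240__154_42_98, e0_63_240__154_42_99, e0_63_240__154_42_100, e0_63_240__154_42_101, e0_63_240__154_42_102, e0_63_240__154_42_103, e0_63_240__154_42_104, e0_63_240__154_42_105, e0_63_240__154_42_106, e0_63_240__154_42_107, e0_63_240__154_42_108, e0_63_240__154_42_109, e0_63_240__154_42_110, e0_63_240__154_42_111, e0_63_240__154_42_112, e0_63_240__154_42_113, e0_63_240__154_42_114, e0_63_240__154_42_115, e0_63_240__154_42_116, e0_63_240__154_42_117, e0_63_240__154_42_118, e0_63_240__154_42_119, e0_63_240__154_42_120,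 e0_63_240__154_42_121, e0_63_240__154_42_122, e0_63_240__154_42_123, e0_63_240__154_42_124, e0_63_240__154_42_125, e0_63_240__154_42_126, e0_63_240__154_42_127, e0_63_240__154_42_128, e0_63_240__154_42_129, e0_63_240__154_42_130, e0_63_240__154_42_131, e0_63_240__154_42_132, e0_63_240__154_42_133, e0_63_240__154_42_134, e0_63_240__154_42_135, e0_63_240__154_42_136, e0_63_240__154_42_137, e0_63_240__154_42_138, e0_63_240__154_42_139, e0_63_240__154_42_140, e0_63_240__154_42_141, e0_63_240__154_42_142, e0_63_240__154_42_143, e0_63_240__154_42_144, e0_63_240__154_42_145, e0_63_240__154_42_146, e0_63_240__154_42_147, e0_63_240__154_42_148, e0_63_240__154_42_149, e0_63_240__154_42_150, e0_63_240__154_42_151, e0_63_240__154_42_152, e0_63_240__154_42_153, e0_63_240__154_42_154], by decide +kernel, by decide +kernel⟩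
def e0_63_252__150_42_0 : Ent 4 := ⟨[a0, a63, a252], [a150, a42, a1], (M a64 (F (T t7494 (L l390 (L l516 (T t7495 (T t7496 (L l163 (T t7497 N)))))))))⟩
def e0_63_252__150_42_1 : Ent 4 := ⟨[a0, a63, a252], [a150, a42, a2], (M a106 (L l66 (F (T t6475 (L l163 (L l350 (L l518 (T t2535 (L l306 (T t6675 (K a22 (M a62 (L l348 (F (T t6475 (L l474 (T t7498 (L l69 (L l163 (L l221 (L l518 (T t7238 (K a86 (M a214 (L l474 (F (L l221 (T t7499 (L l163 (L l350 (L l351 (T t7500 (L l87 (L l145 (T t7501 (K a170 (M a254 (L l218 (F (T t7502 (L l306 (L l351 (T t7503 (K a130 (Fr a190 a126 l432 (V t7504)) (K a190 (M a130 (F (T t7505 (L l434 (T t7506 N))))) N))))))))) (K a254 (M a170 (F (T t3201 (L l221 (T t7507 (L l87 (T t7508 (L l22 (L l351 (T t7509 N)))))))))) N)))))))))))))) (K a214 (M a86 (F (T t6735 (L l69 (L l163 (T t7510 N)))))) N))))))))))))) (K a62 (M a22 (F (L l432 (T t6475 (L l163 (L l350 (L l518 (T t2535 (L l218 (L l306 (L l474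 (T t6476 N)))))))))))) N))))))))))))⟩
def e0_63_252__150_42_2 : Ent 4 := ⟨[a0, a63, a252], [a150, a42, a3], (M a124 (F (L l221 (T t7511 (L l221 (L l309 (T t7512 (L l390 (L l516 (T t7513 N))))))))))⟩
def e0_63_252__150_42_3 : Ent 4 := ⟨[a0, a63, a252], [a150, a42, a4], (M a64 (F (T t7494 (L l390 (L l516 (T t7495 (T t7496 (L l163 (T t7497 N)))))))))⟩
def e0_63_252__150_42_4 : Ent 4 := ⟨[a0, a63, a252], [a150, a42, a5], (M a64 (F (T t7494 (L l390 (L l516 (T t7495 (T t7496 (L l163 (T t7497 N)))))))))⟩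
def e0_63_252__150_42_5 : Ent 4 := ⟨[a0, a63, a252], [a150, a42, a6], (M a64 (F (T t7494 (L l9 (L l390 (L l516 (T t7495 (T t7496 (L l163 (T t7497 N))))))))))⟩
def e0_63_252__150_42_6 : Ent 4 := ⟨[a0, a63, a252], [a150, a42, a7], (M a64 (F (T t7494 (L l7 (L l49 (L l390 (L l516 (T t7495 (T t7496 (L l163 (T t7497 N)))))))))))⟩
def e0_63_252__150_42_7 : Ent 4 := ⟨[a0, a63, a252], [a150, a42, a8], (M a64 (L l56 (F (L l460 (T t7494 (L l390 (L l516 (T t7495 (L l460 (T t7496 (L l163 (T t7497 (K a25 (M a59 (F (T t7514 (L l390 (L l460 (L l516 (T t7515 N))))))) (K a59 (M a25 (F (L l460 (T t7494 (L l390 (L l501 (L l516 (T t7495 (L l390 (L l460 (L l501 (L l516 (T t7515 (L l163 (T t7497 N))))))))))))))) N))))))))))))))⟩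
def e0_63_252__150_42_8 : Ent 4 := ⟨[a0, a63, a252], [a150, a42, a9], (M a64 (F (T t7494 (L l9 (L l390 (L l516 (T t7495 (T t7496 (L l163 (T t7497 N))))))))))⟩
def e0_63_252__150_42_9 : Ent 4 := ⟨[a0, a63, a252], [a150, a42, a10], (M a64 (L l54 (F (T t7494 (L l390 (L l516 (T t7495 (T t7496 (L l163 (T t7497 (K a26 (M a58 (F (T t7516 (L l390 (L l516 (T t7515 N)))))) (K a58 (M a26 (F (T t7494 (L l390 (L l498 (L l516 (T t7495 (L l390 (L l498 (L l516 (T t7515 (L l163 (T t7497 N))))))))))))) N))))))))))))⟩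
def e0_63_252__150_42_10 : Ent 4 := ⟨[a0, a63, a252], [a150, a42, a11], (M a64 (F (T t7494 (L l7 (L l390 (L l516 (T t7495 (T t7496 (L l163 (T t7497 N))))))))))⟩
def e0_63_252__150_42_11 : Ent 4 := ⟨[a0, a63, a252], [a150, a42, a12], (M a64 (F (T t7494 (L l9 (L l390 (L l516 (T t7495 (T t7496 (L l163 (T t7497 N))))))))))⟩
def e0_63_252__150_42_12 : Ent 4 := ⟨[a0, a63, a252], [a150, a42, a13], (M a64 (F (T t7494 (L l390 (L l516 (T t7495 (T t7496 (L l163 (T t7497 N)))))))))⟩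
def e0_63_252__150_42_13 : Ent 4 := ⟨[a0, a63, a252], [a150, a42, a14], (M a64 (F (T t7494 (L l390 (L l516 (T t7495 (T t7496 (L l163 (T t7497 N)))))))))⟩
def e0_63_252__150_42_14 : Ent 4 := ⟨[a0, a63, a252], [a150, a42, a15], (M a64 (F (T t7494 (L l7 (L l390 (L l516 (T t7495 (T t7496 (L l163 (T t7497 N))))))))))⟩
def e0_63_252__150_42_15 : Ent 4 := ⟨[a0, a63, a252], [a150, a42, a20], (M a85 (F (T t169 (L l218 (L l390 (L l518 (T t7517 (T t5504 N))))))))⟩
def e0_63_252__150_42_16 : Ent 4 := ⟨[a0, a63, a252], [a150, a42, a21], (M a64 (F (T t7494 (L l390 (L l516 (T t7518 (T t7496 (L l163 (L l347 (T t7497 N))))))))))⟩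
def e0_63_252__150_42_17 : Ent 4 := ⟨[a0, a63, a252], [a150, a42, a22], (M a86 (L l66 (F (T t1230 (T t7519 (T t7520 (K a2 (M a62 (F (T t7498 (L l306 (T t7519 (L l69 (L l218 (L l390 (T t7521 N))))))))) (K a62 (M a2 (L l516 (F (T t7522 (T t7523 (K a194 (M a106 (F (T t7522 (T t6735 N)))) (K a106 (M a194 (L l390 (F (T t7522 (T t7523 (K a170 (M a234 (L l218 (F (T t7522 (L l432 (T t7524 (K a130 (M a190 (F (T t7522 (T t7524 N)))) (K a190 (Fr a130 a66 l306 (V t7522)) N)))))))) (K a234 (Fr a170 a254 l474 (V t7522)) N))))))) N))))))) N))))))))⟩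
def e0_63_252__150_42_18 : Ent 4 := ⟨[a0, a63, a252], [a150, a42, a23], (M a64 (F (T t7494 (L l163 (L l351 (T t7525 (T t7496 (L l163 (L l351 (T t7497 N))))))))))⟩
def e0_63_252__150_42_19 : Ent 4 := ⟨[a0, a63, a252], [a150, a42, a24], (M a64 (F (T t7494 (L l390 (L l516 (T t7495 (T t7496 (L l163 (T t7497 N)))))))))⟩
def e0_63_252__150_42_20 : Ent 4 := ⟨[a0, a63, a252], [a150, a42, a25], (M a64 (L l56 (F (T t7494 (L l390 (L l516 (T t7495 (T t7496 (L l163 (T t7497 (K a8 (M a59 (F (T t7514 (L l390 (L l460 (L l516 (T t7515 N))))))) (K a59 (M a8 (F (T t7526 (T t7496 N)))) N))))))))))))⟩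
def e0_63_252__150_42_21 : Ent 4 := ⟨[a0, a63, a252], [a150, a42, a26], (M a64 (L l54 (F (T t7494 (L l390 (L l516 (T t7495 (T t7496 (L l163 (T t7497 (K a10 (M a58 (F (T t7516 (L l390 (L l516 (T t7515 N)))))) (K a58 (M a10 (F (T t7527 (T t7496 N)))) N))))))))))))⟩
def e0_63_252__150_42_22 : Ent 4 := ⟨[a0, a63, a252], [a150, a42, a27], (M a64 (F (T t7494 (L l17 (L l390 (L l516 (T t7495 (T t7496 (L l163 (T t7497 N))))))))))⟩
def e0_63_252__150_42_23 : Ent 4 := ⟨[a0, a63, a252], [a150, a42, a28], (M a64 (L l374 (F (T t7494 (L l390 (L l516 (T t7495 (T t7496 (L l163 (T t7497 (K a89 (M a211 (F (T t7494 (L l132 (L l390 (L l516 (T t7495 (T t7496 (L l163 (L l371 (T t7497 N))))))))))) (K a211 (M a89 (F (T t7494 (L l13 (L l390 (L l516 (T t7528 (L l390 (L l516 (T t7515 N)))))))))) N))))))))))))⟩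
def e0_63_252__150_42_24 : Ent 4 := ⟨[a0, a63, a252], [a150, a42, a29], (M a64 (F (T t7494 (L l390 (L l516 (T t7495 (T t7496 (L l163 (L l371 (T t7497 N))))))))))⟩
def e0_63_252__150_42_25 : Ent 4 := ⟨[a0, a63, a252], [a150, a42, a30], (M a64 (L l372 (F (T t7494 (L l390 (L l516 (T t7495 (T t7496 (L l163 (T t7497 (K a210 (M a90 (F (T t7494 (L l28 (L l238 (L l390 (L l516 (T t7529 (L l390 (L l516 (T t7515 N))))))))))) (K a90 (M a210 (F (T t7494 (L l130 (L l390 (L l516 (T t7495 (T t7496 (L l163 (L l375 (T t7497 N))))))))))) N))))))))))))⟩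
def e0_63_252__150_42_26 : Ent 4 := ⟨[a0, a63, a252], [a150, a42, a31], (M a64 (F (T t7494 (L l17 (L l390 (L l516 (T t7495 (T t7496 (L l163 (L l375 (T t7497 N)))))))))))⟩
def e0_63_252__150_42_27 : Ent 4 := ⟨[a0, a63, a252], [a150, a42, a40], (M a192 (L l22 (F (L l163 (T t5268 (L l388 (L l518 (T t5296 (L l390 (L l516 (T t5273 (K a41 (M a43 (F (T t7530 (L l518 (T t7531 N))))) (K a43 (M a41 (F (L l388 (L l518 (T t5296 (L l390 (L l393 (L l516 (T t5279 (L l163 (T t7532 N))))))))))) N)))))))))))))⟩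
def e0_63_252__150_42_28 : Ent 4 := ⟨[a0, a63, a252], [a150, a42, a41], (M a64 (L l22 (F (T t7494 (L l390 (L l516 (T t7533 (T t7496 (L l163 (T t7497 (K a40 (M a43 (F (L l518 (T t7534 (L l163 (L l350 (L l388 (T t7535 (L l65 (L l221 (L l389 (T t7536 N)))))))))))) (K a43 (M a40 (F (T t7537 (L l350 (T t7538 N))))) N))))))))))))⟩
def e0_63_252__150_42_29 : Ent 4 := ⟨[a0, a63, a252], [a150, a42, a43], (M a192 (L l22 (F (L l518 (T t5296 (L l390 (L l393 (L l516 (T t5279 (L l163 (T t5271 (K a40 (M a41 (F (L l388 (L l518 (T t5296 (L l390 (L l393 (L l516 (T t5279 (L l163 (T t7532 N))))))))))) (K a41 (M a40 (F (T t7539 (L l350 (T t7538 N))))) N)))))))))))))⟩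
def e0_63_252__150_42_30 : Ent 4 := ⟨[a0, a63, a252], [a150, a42, a44], (M a64 (F (T t7494 (L l390 (L l516 (T t7495 (L l406 (T t7496 (L l163 (T t7497 N))))))))))⟩
def e0_63_252__150_42_31 : Ent 4 := ⟨[a0, a63, a252], [a150, a42, a45], (M a64 (F (T t7494 (L l390 (L l516 (T t7495 (T t7496 (L l163 (T t7497 N)))))))))⟩
def e0_63_252__150_42_32 : Ent 4 := ⟨[a0, a63, a252], [a150, a42, a46], (M a64 (L l26 (F (T t7494 (L l390 (L l408 (L l516 (T t7495 (T t7496 (L l163 (T t7497 (K a34 (M a38 (F (T t7494 (L l390 (L l408 (L l516 (T t7495 (L l390 (L l408 (L l516 (T t7515 (L l163 (T t7497 N))))))))))))) (K a38 (M a34 (F (T t7540 (T t7496 N)))) N)))))))))))))⟩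
def e0_63_252__150_42_33 : Ent 4 := ⟨[a0, a63, a252], [a150, a42, a47], (M a64 (L l28 (F (T t7494 (L l390 (L l411 (L l516 (T t7495 (T t7496 (L l163 (T t7497 (K a32 (M a37 (F (L l400 (T t7494 (L l390 (L l411 (L l516 (T t7495 (L l390 (L l400 (L l411 (L l516 (T t7515 (L l163 (T t7497 N))))))))))))))) (K a37 (M a32 (F (T t7541 (T t7496 N)))) N)))))))))))))⟩
def e0_63_252__150_42_34 : Ent 4 := ⟨[a0, a63, a252], [a150, a42, a60], (M a169 (L l518 (F (L l69 (T t7542 (L l350 (T t7543 (T t7544 (K a105 (M a195 (F (L l514 (T t5163 (L l145 (L l348 (L l434 (T t7545 (T t7544 N))))))))) (K a195 (M a105 (F (L l350 (T t7543 (L l22 (L l69 (L l307 (T t7546 (L l228 (T t7547 N)))))))))) N))))))))))⟩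
def e0_63_252__150_42_35 : Ent 4 := ⟨[a0, a63, a252], [a150, a42, a61], (M a128 (F (L l22 (T t7548 (L l390 (L l516 (T t7549 (L l163 (L l218 (T t7550 (L l390 (L l516 (T t7551 N)))))))))))))⟩
def e0_63_252__150_42_36 : Ent 4 := ⟨[a0, a63, a252], [a150, a42, a62], (M a106 (L l66 (F (T t7234 (L l163 (L l350 (L l518 (T t2535 (T t6675 (K a2 (M a22 (F (L l432 (T t6475 (L l163 (L l350 (L l518 (T t2535 (L l218 (L l306 (L l474 (T t6476 N)))))))))))) (K a22 (M a2 (L l348 (F (T t7234 (L l221 (T t7552 (T t6675 (K a86 (M a214 (F (T t7553 (L l11 (L l163 (L l350 (L l351 (T t7554 (L l163 (L l350 (L l351 (L l518 (T t7555 (K a192 (M a16 (F (L l28 (L l236 (T t7556 (T t7557 N)))))) N)))))))))))))) (K a214 (M a86 (F (T t7522 (T t6735 N)))) N))))))))) N)))))))))))⟩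
def e0_63_252__150_42_37 : Ent 4 := ⟨[a0, a63, a252], [a150, a42, a64], (M a169 (F (T t7542 (L l66 (L l140 (T t3807 (L l140 (T t7544 N))))))))⟩
def e0_63_252__150_42_38 : Ent 4 := ⟨[a0, a63, a252], [a150, a42, a65], (M a64 (F (T t7494 (L l390 (L l516 (T t7495 (L l141 (T t7496 (L l163 (T t7497 N))))))))))⟩
def e0_63_252__150_42_39 : Ent 4 := ⟨[a0, a63, a252], [a150, a42, a66], (M a64 (F (T t7494 (L l142 (L l309 (L l390 (L l516 (T t7495 (T t7496 (L l163 (L l350 (T t7535 N))))))))))))⟩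
def e0_63_252__150_42_40 : Ent 4 := ⟨[a0, a63, a252], [a150, a42, a67], (M a64 (F (L l350 (T t7558 (L l307 (L l390 (L l516 (T t7495 (T t7496 (L l143 (L l163 (T t7497 N))))))))))))⟩
def e0_63_252__150_42_41 : Ent 4 := ⟨[a0, a63, a252], [a150, a42, a68], (M a64 (F (T t7494 (L l390 (L l516 (T t7495 (T t7496 (L l163 (T t7497 N)))))))))⟩
def e0_63_252__150_42_42 : Ent 4 := ⟨[a0, a63, a252], [a150, a42, a69], (M a64 (F (T t7494 (L l390 (L l516 (T t7495 (T t7496 (L l163 (T t7497 N)))))))))⟩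
def e0_63_252__150_42_43 : Ent 4 := ⟨[a0, a63, a252], [a150, a42, a70], (M a64 (F (T t7494 (L l333 (L l390 (L l516 (T t7495 (T t7496 (L l82 (L l163 (T t7497 N)))))))))))⟩
def e0_63_252__150_42_44 : Ent 4 := ⟨[a0, a63, a252], [a150, a42, a71], (M a64 (F (T t7494 (L l331 (L l390 (L l516 (T t7495 (T t7496 (L l163 (T t7497 N))))))))))⟩
def e0_63_252__150_42_45 : Ent 4 := ⟨[a0, a63, a252], [a150, a42, a72], (M a64 (F (T t7494 (L l132 (L l390 (L l516 (T t7495 (L l128 (T t7496 (L l163 (T t7497 N)))))))))))⟩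
def e0_63_252__150_42_46 : Ent 4 := ⟨[a0, a63, a252], [a150, a42, a73], (M a64 (F (T t7494 (L l390 (L l516 (T t7495 (T t7496 (L l163 (T t7497 N)))))))))⟩
def e0_63_252__150_42_47 : Ent 4 := ⟨[a0, a63, a252], [a150, a42, a74], (M a64 (F (T t7494 (L l130 (L l390 (L l516 (T t7495 (T t7496 (L l82 (L l163 (T t7497 N)))))))))))⟩
def e0_63_252__150_42_48 : Ent 4 := ⟨[a0, a63, a252], [a150, a42, a75], (M a64 (F (T t7494 (L l390 (L l516 (T t7495 (T t7496 (L l163 (T t7497 N)))))))))⟩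
def e0_63_252__150_42_49 : Ent 4 := ⟨[a0, a63, a252], [a150, a42, a76], (M a64 (F (L l350 (T t7558 (L l390 (L l516 (T t7495 (T t7496 (L l138 (L l163 (T t7497 N)))))))))))⟩
def e0_63_252__150_42_50 : Ent 4 := ⟨[a0, a63, a252], [a150, a42, a77], (M a64 (F (T t7494 (L l390 (L l516 (T t7495 (L l135 (T t7496 (L l163 (T t7497 N))))))))))⟩
def e0_63_252__150_42_51 : Ent 4 := ⟨[a0, a63, a252], [a150, a42, a78], (M a64 (F (T t7494 (L l390 (L l516 (T t7495 (T t7496 (L l82 (L l163 (T t7497 N))))))))))⟩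
def e0_63_252__150_42_52 : Ent 4 := ⟨[a0, a63, a252], [a150, a42, a79], (M a64 (F (L l350 (T t7558 (L l390 (L l516 (T t7495 (T t7496 (L l137 (L l163 (T t7497 N)))))))))))⟩
def e0_63_252__150_42_53 : Ent 4 := ⟨[a0, a63, a252], [a150, a42, a84], (M a149 (F (T t7559 (L l66 (L l140 (L l390 (L l516 (T t7560 (L l140 (L l390 (L l516 (T t7561 (L l22 (L l66 (L l87 (L l348 (T t7562 (L l22 (L l346 (T t7563 (L l66 (L l140 (T t7564 (K a86 (Fr a189 a126 l435 (Fr a129 a169 l217 (Fr a192 a106 l519 (Fr a66 a3 l309 (V t7651))))) N))))))))))))))))))))))))⟩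
def e0_63_252__150_42_54 : Ent 4 := ⟨[a0, a63, a252], [a150, a42, a85], (M a240 (L l350 (F (T t3105 (T t6518 (L l56 (L l87 (L l94 (T t7566 (L l458 (T t7567 (K a20 (M a215 (F (T t6518 (T t3105 (L l56 (L l87 (L l94 (L l346 (T t7566 (L l46 (L l458 (T t7567 N)))))))))))) (K a215 (M a20 (F (T t6518 (L l22 (L l295 (T t7568 N)))))) N)))))))))))))⟩
def e0_63_252__150_42_55 : Ent 4 := ⟨[a0, a63, a252], [a150, a42, a86], (M a124 (L l348 (F (L l221 (T t501 (L l221 (T t7512 (L l142 (L l390 (L l516 (T t7513 (K a22 (M a214 (L l66 (F (L l221 (T t501 (L l221 (T t7512 (L l142 (L l390 (L l516 (T t7513 (K a2 (M a62 (L l474 (F (T t7569 (L l142 (L l390 (T t7513 (L l221 (T t7570 (K a170 (M a254 (L l218 (L l390 (F (T t7502 (T t7569 (K a130 (Fr a190 a126 l432 (V t7569)) (K a106 (Fr a234 a194 l294 (V t7502)) (K a234 (M a106 (L l218 (F (T t7502 (T t7569 (K a130 (Fr a190 a126 l432 (V t7569)) (K a190 (M a130 (F (T t7569 (T t7505 N)))) N)))))))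 (K a190 (M a130 (L l390 (F (T t7569 (T t7505 (K a106 (Fr a234 a194 l294 (V t7505)) (K a234 (M a106 (F (T t7569 (T t7505 N)))) N))))))) N)))))))))) (K a254 (M a170 (F (T t7569 (L l87 (L l142 (T t7508 N)))))) N))))))))))) (K a62 (M a2 (L l516 (F (T t7571 (T t7572 (L l87 (L l163 (L l221 (T t7573 (K a194 (M a106 (F (T t7574 (L l163 (L l350 (L l351 (L l432 (T t7575 (L l221 (L l228 (T t7512 (L l163 (T t7576 N))))))))))))) (K a106 (M a194 (L l142 (L l390 (F (T t7577 (L l144 (L l221 (T t7512 (K a66 (Fr a126 a189 l435 (V t7512)) (K a170 (Fr a234 a254 l294 (V t7578)) (K a234 (M a170 (L l142 (F (L l250 (T t7577 (L l69 (L l87 (L l296 (T t7579 (K a66 (Fr a126 a189 l435 (V t7579)) (K a126 (Fr a66 a130 l306 (V t7579)) N))))))))))) (K a126 (Fr a66 a130 l306 (V t7512)) N)))))))))))) N))))))))))) N))))))))))))) (K a214 (M a22 (F (L l221 (T t7512 (L l221 (T t501 (L l87 (L l350 (T t7580 N))))))))) N)))))))))))))⟩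
def e0_63_252__150_42_56 : Ent 4 := ⟨[a0, a63, a252], [a150, a42, a87], (M a64 (F (T t7494 (L l349 (L l390 (L l475 (L l516 (T t7495 (T t7496 (L l87 (L l163 (L l350 (T t7535 N)))))))))))))⟩
def e0_63_252__150_42_57 : Ent 4 := ⟨[a0, a63, a252], [a150, a42, a88], (M a64 (F (L l460 (T t7494 (L l390 (L l516 (T t7495 (L l128 (L l460 (T t7496 (L l163 (T t7497 N))))))))))))⟩
def e0_63_252__150_42_58 : Ent 4 := ⟨[a0, a63, a252], [a150, a42, a89], (M a64 (L l374 (F (T t7494 (L l132 (L l390 (L l516 (T t7495 (T t7496 (L l163 (L l371 (T t7497 (K a28 (M a211 (F (T t7494 (L l132 (L l390 (L l516 (T t7495 (T t7496 (L l163 (L l371 (T t7497 N))))))))))) (K a211 (M a28 (F (T t7494 (L l132 (L l390 (L l516 (T t7495 (T t7496 (L l163 (L l371 (T t7497 N))))))))))) N))))))))))))))⟩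
def e0_63_252__150_42_59 : Ent 4 := ⟨[a0, a63, a252], [a150, a42, a90], (M a64 (L l372 (F (T t7494 (L l130 (L l390 (L l516 (T t7495 (T t7496 (L l163 (L l375 (T t7497 (K a210 (M a30 (F (T t7494 (L l130 (L l390 (L l516 (T t7495 (T t7496 (L l163 (L l375 (T t7497 N))))))))))) (K a30 (M a210 (F (T t7494 (L l130 (L l390 (L l516 (T t7495 (T t7496 (L l163 (L l375 (T t7497 N))))))))))) N))))))))))))))⟩
def e0_63_252__150_42_60 : Ent 4 := ⟨[a0, a63, a252], [a150, a42, a91], (M a64 (F (T t7494 (L l390 (L l516 (T t7495 (T t7496 (L l163 (T t7497 N)))))))))⟩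
def e0_63_252__150_42_61 : Ent 4 := ⟨[a0, a63, a252], [a150, a42, a92], (M a64 (F (L l350 (T t7558 (L l390 (L l516 (T t7495 (T t7496 (L l163 (T t7497 N))))))))))⟩
def e0_63_252__150_42_62 : Ent 4 := ⟨[a0, a63, a252], [a150, a42, a93], (M a64 (F (T t7494 (L l390 (L l516 (T t7495 (L l135 (T t7496 (L l138 (L l163 (T t7497 N)))))))))))⟩
def e0_63_252__150_42_63 : Ent 4 := ⟨[a0, a63, a252], [a150, a42, a94], (M a64 (F (L l350 (T t7558 (L l390 (L l516 (T t7495 (T t7496 (L l163 (T t7497 N))))))))))⟩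
def e0_63_252__150_42_64 : Ent 4 := ⟨[a0, a63, a252], [a150, a42, a95], (M a64 (F (T t7494 (L l390 (L l516 (T t7495 (T t7496 (L l137 (L l163 (T t7497 N))))))))))⟩
def e0_63_252__150_42_65 : Ent 4 := ⟨[a0, a63, a252], [a150, a42, a104], (M a85 (F (L l388 (T t169 (L l66 (L l218 (L l390 (L l514 (L l516 (L l518 (T t93 (L l388 (T t5504 N)))))))))))))⟩
def e0_63_252__150_42_66 : Ent 4 := ⟨[a0, a63, a252], [a150, a42, a105], (M a64 (L l518 (F (L l145 (T t7494 (L l98 (L l390 (L l516 (T t7495 (L l98 (L l141 (T t7496 (L l163 (L l515 (T t7497 (K a60 (M a195 (F (L l218 (L l516 (T t7581 (L l389 (L l515 (T t7582 (L l98 (L l141 (L l434 (L l514 (T t7496 (L l163 (L l218 (T t7583 N)))))))))))))))) (K a195 (M a60 (F (T t7584 (L l163 (L l307 (L l515 (T t7525 N))))))) N)))))))))))))))))⟩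
def e0_63_252__150_42_67 : Ent 4 := ⟨[a0, a63, a252], [a150, a42, a106], (M a170 (L l516 (F (T t7585 (L l144 (L l350 (L l518 (T t7586 (L l142 (L l144 (L l393 (T t7587 (L l66 (L l142 (T t7588 (K a194 (M a62 (F (T t7585 (L l294 (T t7498 (L l22 (L l228 (T t7509 N)))))))) (K a62 (M a194 (L l66 (F (T t7585 (L l98 (L l144 (L l350 (T t7589 (L l144 (L l350 (T t7590 (L l142 (L l432 (T t7591 (K a255 (Fr a168 a84 l472 (Fr a169 a171 l174 (Fr a3 a86 l477 (Fr a2 a1 l0 (Fr a189 a126 l435 (Fr a66 a130 l306 (V t7652))))))) (K a2 (M a22 (F (L l142 (L l432 (T t7508 (L l22 (L l142 (L l393 (T t7593 (L l144 (L l163 (L l350 (T t7594 (L l98 (L l144 (L l350 (T t7589 (L l142 (L l432 (T t7595 N)))))))))))))))))))) (K a22 (M a2 (L l348 (F (T t7596 (L l144 (L l350 (T t7597 (K a86 (M a214 (L l142 (F (T t7577 (L l87 (L l221 (L l393 (T t7598 (K a66 (Fr a126 a189 l435 (V t7599)) (K a126 (Fr a66 a130 l306 (V t7599)) N)))))))))) (K a214 (Fr a86 a254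 l474 (V t7522)) N))))))))) N))))))))))))))))) N)))))))))))))))))⟩
def e0_63_252__150_42_68 : Ent 4 := ⟨[a0, a63, a252], [a150, a42, a107], (M a64 (F (T t7494 (L l98 (L l390 (L l516 (T t7495 (L l143 (L l163 (T t7497 (L l98 (T t7496 N))))))))))))⟩
def e0_63_252__150_42_69 : Ent 4 := ⟨[a0, a63, a252], [a150, a42, a108], (M a64 (F (L l350 (T t7558 (L l390 (L l516 (T t7495 (L l100 (T t7496 (L l163 (T t7497 N)))))))))))⟩
def e0_63_252__150_42_70 : Ent 4 := ⟨[a0, a63, a252], [a150, a42, a109], (M a64 (F (L l350 (T t7558 (L l390 (L l516 (T t7495 (L l135 (T t7496 (L l163 (T t7497 N)))))))))))⟩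
def e0_63_252__150_42_71 : Ent 4 := ⟨[a0, a63, a252], [a150, a42, a110], (M a64 (F (T t7494 (L l102 (L l390 (L l516 (T t7495 (T t7496 (L l138 (L l163 (T t7497 N)))))))))))⟩
def e0_63_252__150_42_72 : Ent 4 := ⟨[a0, a63, a252], [a150, a42, a111], (M a64 (F (T t7494 (L l104 (L l390 (L l516 (T t7495 (T t7496 (L l137 (L l163 (T t7497 N)))))))))))⟩
def e0_63_252__150_42_73 : Ent 4 := ⟨[a0, a63, a252], [a150, a42, a124], (M a192 (F (L l163 (T t5268 (L l22 (L l140 (L l518 (T t5270 (L l109 (L l140 (L l390 (L l516 (T t5273 N)))))))))))))⟩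
def e0_63_252__150_42_74 : Ent 4 := ⟨[a0, a63, a252], [a150, a42, a125], (M a192 (F (L l350 (T t5275 (L l390 (L l516 (T t5276 (L l163 (L l431 (T t5271 N))))))))))⟩
def e0_63_252__150_42_75 : Ent 4 := ⟨[a0, a63, a252], [a150, a42, a126], (M a192 (F (L l22 (T t7600 (L l142 (L l390 (L l432 (L l516 (T t7601 (L l142 (L l390 (L l516 (T t7602 (L l142 (L l390 (L l516 (T t7603 N)))))))))))))))))⟩
def e0_63_252__150_42_76 : Ent 4 := ⟨[a0, a63, a252], [a150, a42, a127], (M a192 (F (L l163 (T t5268 (L l350 (L l518 (T t5278 (L l109 (L l144 (L l390 (L l516 (T t5273 N))))))))))))⟩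
def e0_63_252__150_42_77 : Ent 4 := ⟨[a0, a63, a252], [a150, a42, a128], (M a86 (F (T t7519 (L l216 (T t1230 (L l216 (T t7520 N)))))))⟩
def e0_63_252__150_42_78 : Ent 4 := ⟨[a0, a63, a252], [a150, a42, a129], (M a64 (F (L l152 (T t7494 (L l217 (L l390 (L l516 (T t7515 (L l22 (L l152 (L l163 (L l217 (L l309 (T t7604 (L l152 (L l163 (L l217 (T t7605 N))))))))))))))))))⟩
def e0_63_252__150_42_79 : Ent 4 := ⟨[a0, a63, a252], [a150, a42, a130], (M a170 (F (T t7585 (L l350 (L l518 (T t7586 (L l152 (T t7606 N))))))))⟩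
def e0_63_252__150_42_80 : Ent 4 := ⟨[a0, a63, a252], [a150, a42, a131], (M a169 (F (L l152 (T t5163 (L l219 (L l350 (T t7543 (L l152 (L l219 (L l350 (T t7607 (L l66 (L l152 (L l219 (T t7608 N)))))))))))))))⟩
def e0_63_252__150_42_81 : Ent 4 := ⟨[a0, a63, a252], [a150, a42, a132], (M a64 (F (L l156 (T t7494 (L l156 (L l390 (L l516 (T t7495 (T t7496 (L l156 (L l163 (L l202 (T t7497 N)))))))))))))⟩
def e0_63_252__150_42_82 : Ent 4 := ⟨[a0, a63, a252], [a150, a42, a133], (M a64 (F (L l160 (T t7494 (L l160 (L l390 (L l516 (T t7495 (T t7496 (L l160 (L l163 (L l199 (T t7497 N)))))))))))))⟩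
def e0_63_252__150_42_83 : Ent 4 := ⟨[a0, a63, a252], [a150, a42, a134], (M a64 (L l200 (F (T t7494 (L l390 (L l516 (T t7495 (T t7496 (L l163 (T t7497 (K a166 (M a182 (F (T t7494 (L l390 (L l408 (L l516 (T t7495 (T t7496 (L l163 (L l202 (T t7497 N))))))))))) (K a182 (M a166 (F (T t7494 (L l26 (L l183 (L l390 (L l516 (T t7609 (L l390 (L l516 (T t7515 N))))))))))) N))))))))))))⟩
def e0_63_252__150_42_84 : Ent 4 := ⟨[a0, a63, a252], [a150, a42, a135], (M a64 (L l203 (F (T t7494 (L l390 (L l516 (T t7495 (T t7496 (L l163 (T t7497 (K a180 (M a165 (F (T t7494 (L l28 (L l183 (L l390 (L l516 (T t7610 (L l390 (L l516 (T t7515 N))))))))))) (K a165 (M a180 (F (T t7494 (L l390 (L l411 (L l516 (T t7495 (T t7496 (L l163 (L l199 (T t7497 N))))))))))) N))))))))))))⟩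
def e0_63_252__150_42_85 : Ent 4 := ⟨[a0, a63, a252], [a150, a42, a136], (M a64 (F (L l156 (L l204 (T t7494 (L l156 (L l390 (L l516 (T t7495 (L l204 (T t7496 (L l156 (L l163 (T t7497 N))))))))))))))⟩
def e0_63_252__150_42_86 : Ent 4 := ⟨[a0, a63, a252], [a150, a42, a137], (M a64 (F (T t7494 (L l333 (L l390 (L l516 (T t7495 (T t7496 (L l163 (T t7497 N))))))))))⟩
def e0_63_252__150_42_87 : Ent 4 := ⟨[a0, a63, a252], [a150, a42, a138], (M a64 (F (L l160 (T t7494 (L l160 (L l390 (L l516 (T t7495 (T t7496 (L l160 (L l163 (T t7497 N))))))))))))⟩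
def e0_63_252__150_42_88 : Ent 4 := ⟨[a0, a63, a252], [a150, a42, a139], (M a64 (F (T t7494 (L l331 (L l390 (L l516 (T t7495 (T t7496 (L l163 (T t7497 N))))))))))⟩
def e0_63_252__150_42_89 : Ent 4 := ⟨[a0, a63, a252], [a150, a42, a140], (M a64 (F (L l156 (T t7494 (L l156 (L l390 (L l516 (T t7495 (L l214 (T t7496 (L l156 (L l163 (T t7497 N)))))))))))))⟩
def e0_63_252__150_42_90 : Ent 4 := ⟨[a0, a63, a252], [a150, a42, a141], (M a64 (F (T t7494 (L l390 (L l516 (T t7495 (L l211 (T t7496 (L l163 (L l211 (T t7497 N)))))))))))⟩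
def e0_63_252__150_42_91 : Ent 4 := ⟨[a0, a63, a252], [a150, a42, a142], (M a64 (F (T t7494 (L l390 (L l516 (T t7495 (T t7496 (L l163 (T t7497 N)))))))))⟩
def e0_63_252__150_42_92 : Ent 4 := ⟨[a0, a63, a252], [a150, a42, a143], (M a64 (F (L l160 (T t7494 (L l160 (L l390 (L l516 (T t7495 (L l213 (T t7496 (L l160 (L l163 (T t7497 N)))))))))))))⟩
def e0_63_252__150_42_93 : Ent 4 := ⟨[a0, a63, a252], [a150, a42, a148], (M a85 (L l163 (F (L l216 (T t169 (L l66 (L l218 (L l390 (L l514 (L l516 (L l518 (T t93 (L l216 (T t5504 (K a149 (M a151 (F (L l346 (T t94 (L l216 (L l218 (L l220 (L l221 (L l390 (L l514 (L l518 (T t91 (L l218 (L l220 (L l351 (L l390 (T t7611 (L l22 (L l216 (L l348 (T t7612 (L l216 (L l217 (L l218 (L l221 (T t7613 N)))))))))))))))))))))))))) (K a151 (M a149 (F (L l514 (T t3183 (T t7614 N))))) N))))))))))))))))⟩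
def e0_63_252__150_42_94 : Ent 4 := ⟨[a0, a63, a252], [a150, a42, a149], (M a255 (L l163 (F (L l515 (L l518 (T t7615 (L l347 (L l350 (T t7616 (L l217 (L l218 (L l220 (L l390 (T t7617 (K a148 (M a151 (F (L l351 (T t7618 (L l217 (L l220 (T t7619 (L l66 (L l347 (L l350 (T t7620 N))))))))))) (K a151 (M a148 (F (L l220 (T t7621 (L l66 (L l217 (L l516 (L l518 (T t7622 (L l66 (L l347 (L l350 (T t7620 N))))))))))))) N))))))))))))))))⟩
def e0_63_252__150_42_95 : Ent 4 := ⟨[a0, a63, a252], [a150, a42, a151], (M a149 (F (T t7559 (L l390 (L l516 (L l518 (T t1850 (L l219 (T t7623 N)))))))))⟩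
def e0_63_252__150_42_96 : Ent 4 := ⟨[a0, a63, a252], [a150, a42, a152], (M a64 (F (L l204 (T t7494 (L l390 (L l516 (T t7495 (L l204 (L l496 (T t7496 (L l163 (T t7497 N))))))))))))⟩
def e0_63_252__150_42_97 : Ent 4 := ⟨[a0, a63, a252], [a150, a42, a153], (M a64 (L l171 (F (T t7494 (L l390 (L l501 (L l516 (T t7495 (T t7496 (L l163 (L l167 (T t7497 (K a156 (M a147 (F (T t7494 (L l390 (L l501 (L l516 (T t7495 (T t7496 (L l163 (L l167 (T t7497 N))))))))))) (K a147 (M a156 (F (T t7494 (L l390 (L l501 (L l516 (T t7495 (T t7496 (L l163 (L l167 (T t7497 N))))))))))) N))))))))))))))⟩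
def e0_63_252__150_42_98 : Ent 4 := ⟨[a0, a63, a252], [a150, a42, a154], (M a64 (L l168 (F (T t7494 (L l390 (L l498 (L l516 (T t7495 (T t7496 (L l163 (L l170 (T t7497 (K a146 (M a158 (F (T t7494 (L l390 (L l498 (L l516 (T t7495 (T t7496 (L l163 (L l170 (T t7497 N))))))))))) (K a158 (M a146 (F (T t7494 (L l390 (L l498 (L l516 (T t7495 (T t7496 (L l163 (L l170 (T t7497 N))))))))))) N))))))))))))))⟩
def e0_63_252__150_42_99 : Ent 4 := ⟨[a0, a63, a252], [a150, a42, a155], (M a64 (F (T t7494 (L l390 (L l516 (T t7495 (T t7496 (L l163 (T t7497 N)))))))))⟩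
def e0_63_252__150_42_100 : Ent 4 := ⟨[a0, a63, a252], [a150, a42, a156], (M a64 (L l171 (F (T t7494 (L l390 (L l516 (T t7495 (T t7496 (L l163 (T t7497 (K a153 (M a147 (F (T t7494 (L l390 (L l501 (L l516 (T t7495 (T t7496 (L l163 (L l167 (T t7497 N))))))))))) (K a147 (M a153 (F (T t7494 (L l56 (L l165 (L l390 (L l516 (T t7624 (L l390 (L l516 (T t7515 N))))))))))) N))))))))))))⟩
def e0_63_252__150_42_101 : Ent 4 := ⟨[a0, a63, a252], [a150, a42, a157], (M a64 (F (T t7494 (L l390 (L l516 (T t7495 (L l211 (L l214 (T t7496 (L l163 (L l167 (L l211 (T t7497 N)))))))))))))⟩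
def e0_63_252__150_42_102 : Ent 4 := ⟨[a0, a63, a252], [a150, a42, a158], (M a64 (L l168 (F (T t7494 (L l390 (L l516 (T t7495 (T t7496 (L l163 (T t7497 (K a146 (M a154 (F (T t7494 (L l54 (L l165 (L l390 (L l516 (T t7625 (L l390 (L l516 (T t7515 N))))))))))) (K a154 (M a146 (F (T t7494 (L l390 (L l498 (L l516 (T t7495 (T t7496 (L l163 (L l170 (T t7497 N))))))))))) N))))))))))))⟩
def e0_63_252__150_42_103 : Ent 4 := ⟨[a0, a63, a252], [a150, a42, a159], (M a64 (F (T t7494 (L l390 (L l516 (T t7495 (L l213 (T t7496 (L l163 (L l170 (T t7497 N)))))))))))⟩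
def e0_63_252__150_42_104 : Ent 4 := ⟨[a0, a63, a252], [a150, a42, a168], (M a149 (F (T t7626 (L l66 (L l388 (L l390 (L l516 (T t7560 (L l66 (L l348 (L l350 (T t7627 (L l22 (L l216 (T t7563 (L l66 (L l388 (T t7564 (K a86 (Fr a189 a126 l435 (Fr a129 a169 l217 (Fr a192 a106 l519 (Fr a66 a3 l309 (V t7651))))) N)))))))))))))))))))⟩
def e0_63_252__150_42_105 : Ent 4 := ⟨[a0, a63, a252], [a150, a42, a169], (M a240 (L l221 (F (T t3105 (L l174 (T t6518 (L l56 (L l181 (L l217 (T t7628 (L l174 (T t7629 (K a188 (M a131 (F (T t3105 (L l174 (L l216 (T t6518 (L l56 (L l181 (L l185 (L l210 (L l217 (T t7630 (L l174 (L l216 (T t7631 N))))))))))))))) (K a131 (M a188 (F (T t3105 (L l152 (T t7632 N))))) N))))))))))))))⟩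
def e0_63_252__150_42_106 : Ent 4 := ⟨[a0, a63, a252], [a150, a42, a170], (M a106 (L l218 (F (T t7234 (L l163 (L l174 (L l220 (L l350 (L l518 (T t2535 (L l174 (L l220 (L l474 (T t7273 (L l22 (L l163 (L l220 (L l392 (L l518 (T t7633 (L l174 (L l474 (T t7634 (K a130 (M a190 (F (L l474 (T t7635 (L l163 (L l174 (L l220 (L l350 (L l518 (T t2535 (L l22 (L l174 (L l221 (L l306 (T t7636 N))))))))))))))) (K a190 (M a130 (F (L l432 (T t6475 (L l163 (L l174 (L l220 (L l350 (L l434 (L l518 (T t2535 (L l66 (L l163 (L l220 (L l474 (T t7637 (L l22 (L l163 (L l348 (T t7638 (L l22 (L l185 (L l348 (T t7639 N)))))))))))))))))))))))) N)))))))))))))))))))))))))⟩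
def e0_63_252__150_42_107 : Ent 4 := ⟨[a0, a63, a252], [a150, a42, a171], (M a192 (F (L l22 (T t7600 (L l390 (L l475 (L l516 (T t5279 (L l163 (L l174 (L l475 (T t5271 N))))))))))))⟩
def e0_63_252__150_42_108 : Ent 4 := ⟨[a0, a63, a252], [a150, a42, a172], (M a64 (F (L l176 (T t7494 (L l390 (L l516 (T t7495 (L l176 (T t7496 (L l163 (T t7497 N)))))))))))⟩
def e0_63_252__150_42_109 : Ent 4 := ⟨[a0, a63, a252], [a150, a42, a173], (M a64 (F (T t7494 (L l390 (L l516 (T t7495 (L l211 (T t7496 (L l163 (L l211 (T t7497 N)))))))))))⟩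
def e0_63_252__150_42_110 : Ent 4 := ⟨[a0, a63, a252], [a150, a42, a174], (M a64 (F (T t7494 (L l390 (L l516 (T t7495 (L l214 (T t7496 (L l163 (T t7497 N))))))))))⟩
def e0_63_252__150_42_111 : Ent 4 := ⟨[a0, a63, a252], [a150, a42, a175], (M a64 (F (T t7494 (L l390 (L l516 (T t7495 (L l213 (T t7496 (L l163 (T t7497 N))))))))))⟩
def e0_63_252__150_42_112 : Ent 4 := ⟨[a0, a63, a252], [a150, a42, a188], (M a169 (F (T t5163 (L l350 (T t7543 (L l216 (T t7544 N)))))))⟩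
def e0_63_252__150_42_113 : Ent 4 := ⟨[a0, a63, a252], [a150, a42, a189], (M a192 (F (T t5272 (L l66 (L l185 (L l390 (L l516 (T t7640 (L l390 (L l516 (T t7603 (L l163 (L l217 (T t7641 N))))))))))))))⟩
def e0_63_252__150_42_114 : Ent 4 := ⟨[a0, a63, a252], [a150, a42, a190], (M a106 (L l218 (F (L l185 (T t7234 (L l163 (L l350 (L l434 (L l518 (T t2535 (L l185 (T t6675 (K a130 (M a170 (F (L l350 (T t6995 (L l432 (L l434 (T t7642 (L l22 (L l185 (L l221 (L l306 (T t7636 N)))))))))))) (K a170 (M a130 (F (L l432 (T t6475 (L l163 (L l174 (L l220 (L l350 (L l434 (L l518 (T t2535 (L l66 (L l163 (L l220 (L l474 (T t7637 (L l22 (L l163 (L l348 (T t7638 (L l22 (L l185 (L l348 (T t7639 N)))))))))))))))))))))))) N))))))))))))))⟩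
def e0_63_252__150_42_115 : Ent 4 := ⟨[a0, a63, a252], [a150, a42, a191], (M a192 (F (L l22 (T t7600 (L l390 (L l516 (T t5279 (L l163 (L l185 (L l220 (T t5271 N)))))))))))⟩
def e0_63_252__150_42_116 : Ent 4 := ⟨[a0, a63, a252], [a150, a42, a192], (M a255 (F (T t7619 (L l309 (L l350 (T t7616 (L l218 (L l309 (L l390 (T t7617 N))))))))))⟩
def e0_63_252__150_42_117 : Ent 4 := ⟨[a0, a63, a252], [a150, a42, a193], (M a64 (F (T t7494 (L l390 (L l516 (T t7495 (T t7496 (L l163 (L l515 (T t7497 N))))))))))⟩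
def e0_63_252__150_42_118 : Ent 4 := ⟨[a0, a63, a252], [a150, a42, a194], (M a106 (F (L l228 (T t6475 (L l163 (L l350 (T t7554 (L l306 (T t6675 N)))))))))⟩
def e0_63_252__150_42_119 : Ent 4 := ⟨[a0, a63, a252], [a150, a42, a195], (M a64 (L l518 (F (T t7494 (L l307 (L l390 (L l516 (T t7495 (T t7496 (L l163 (T t7497 (K a60 (M a105 (F (L l163 (T t7643 (L l69 (L l307 (L l390 (L l516 (T t7495 (T t7644 (L l307 (L l514 (T t7645 N))))))))))))) (K a105 (M a60 (F (T t7584 (L l163 (L l307 (L l515 (T t7525 N))))))) N)))))))))))))⟩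
def e0_63_252__150_42_120 : Ent 4 := ⟨[a0, a63, a252], [a150, a42, a196], (M a64 (F (T t7494 (L l390 (L l516 (T t7495 (T t7496 (L l163 (L l495 (T t7497 N))))))))))⟩
def e0_63_252__150_42_121 : Ent 4 := ⟨[a0, a63, a252], [a150, a42, a197], (M a64 (F (T t7494 (L l390 (L l516 (T t7495 (T t7496 (L l163 (L l491 (T t7497 N))))))))))⟩
def e0_63_252__150_42_122 : Ent 4 := ⟨[a0, a63, a252], [a150, a42, a198], (M a64 (L l492 (F (T t7494 (L l390 (L l516 (T t7495 (T t7496 (L l163 (T t7497 (K a102 (M a54 (F (T t7494 (L l102 (L l390 (L l516 (T t7495 (T t7496 (L l163 (L l495 (T t7497 N))))))))))) (K a54 (M a102 (F (T t7494 (L l56 (L l229 (L l390 (L l516 (T t7646 (L l390 (L l516 (T t7515 N))))))))))) N))))))))))))⟩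
def e0_63_252__150_42_123 : Ent 4 := ⟨[a0, a63, a252], [a150, a42, a199], (M a64 (L l494 (F (T t7494 (L l390 (L l516 (T t7495 (T t7496 (L l163 (T t7497 (K a52 (M a101 (F (T t7494 (L l31 (L l390 (L l516 (T t7647 (L l390 (L l516 (T t7515 N)))))))))) (K a101 (M a52 (F (T t7494 (L l104 (L l390 (L l516 (T t7495 (T t7496 (L l163 (L l491 (T t7497 N))))))))))) N))))))))))))⟩
def e0_63_252__150_42_124 : Ent 4 := ⟨[a0, a63, a252], [a150, a42, a200], (M a64 (F (L l518 (T t7648 (L l280 (L l390 (L l501 (L l516 (T t7495 (L l496 (T t7496 (L l163 (T t7497 N)))))))))))))⟩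
def e0_63_252__150_42_125 : Ent 4 := ⟨[a0, a63, a252], [a150, a42, a201], (M a64 (F (T t7494 (L l390 (L l516 (T t7495 (T t7496 (L l163 (T t7497 N)))))))))⟩
def e0_63_252__150_42_126 : Ent 4 := ⟨[a0, a63, a252], [a150, a42, a202], (M a64 (F (T t7494 (L l390 (L l498 (L l516 (T t7495 (T t7496 (L l163 (T t7497 N))))))))))⟩
def e0_63_252__150_42_127 : Ent 4 := ⟨[a0, a63, a252], [a150, a42, a203], (M a64 (F (T t7494 (L l390 (L l516 (T t7495 (T t7496 (L l163 (T t7497 N)))))))))⟩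
def e0_63_252__150_42_128 : Ent 4 := ⟨[a0, a63, a252], [a150, a42, a204], (M a64 (F (T t7494 (L l333 (L l390 (L l516 (T t7495 (T t7496 (L l163 (T t7497 N))))))))))⟩
def e0_63_252__150_42_129 : Ent 4 := ⟨[a0, a63, a252], [a150, a42, a205], (M a64 (F (T t7494 (L l390 (L l516 (T t7495 (T t7496 (L l163 (T t7497 N)))))))))⟩
def e0_63_252__150_42_130 : Ent 4 := ⟨[a0, a63, a252], [a150, a42, a206], (M a64 (F (T t7494 (L l390 (L l516 (T t7495 (T t7496 (L l163 (T t7497 N)))))))))⟩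
def e0_63_252__150_42_131 : Ent 4 := ⟨[a0, a63, a252], [a150, a42, a207], (M a64 (F (T t7494 (L l331 (L l390 (L l516 (T t7495 (T t7496 (L l163 (T t7497 N))))))))))⟩
def e0_63_252__150_42_132 : Ent 4 := ⟨[a0, a63, a252], [a150, a42, a212], (M a85 (F (T t169 (L l218 (L l390 (L l518 (T t7517 (T t5504 N))))))))⟩
def e0_63_252__150_42_133 : Ent 4 := ⟨[a0, a63, a252], [a150, a42, a213], (M a64 (F (T t7494 (L l390 (L l516 (T t7495 (T t7496 (L l163 (L l347 (T t7497 N))))))))))⟩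
def e0_63_252__150_42_134 : Ent 4 := ⟨[a0, a63, a252], [a150, a42, a214], (M a86 (F (T t7649 (L l294 (T t1230 (T t7520 N))))))⟩
def e0_63_252__150_42_135 : Ent 4 := ⟨[a0, a63, a252], [a150, a42, a215], (M a85 (F (L l295 (T t94 (L l218 (L l390 (T t7650 (L l349 (T t5504 N)))))))))⟩
def e0_63_252__150_42_136 : Ent 4 := ⟨[a0, a63, a252], [a150, a42, a216], (M a64 (F (L l518 (T t7648 (L l280 (L l390 (L l516 (T t7495 (T t7496 (L l163 (T t7497 N)))))))))))⟩
def e0_63_252__150_42_137 : Ent 4 := ⟨[a0, a63, a252], [a150, a42, a217], (M a64 (F (T t7494 (L l390 (L l516 (T t7495 (T t7496 (L l163 (T t7497 N)))))))))⟩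
def e0_63_252__150_42_138 : Ent 4 := ⟨[a0, a63, a252], [a150, a42, a218], (M a64 (F (T t7494 (L l390 (L l516 (T t7495 (T t7496 (L l163 (T t7497 N)))))))))⟩
def e0_63_252__150_42_139 : Ent 4 := ⟨[a0, a63, a252], [a150, a42, a219], (M a64 (F (T t7494 (L l390 (L l516 (T t7495 (T t7496 (L l163 (T t7497 N)))))))))⟩
def e0_63_252__150_42_140 : Ent 4 := ⟨[a0, a63, a252], [a150, a42, a220], (M a64 (F (T t7494 (L l390 (L l516 (T t7495 (T t7496 (L l163 (T t7497 N)))))))))⟩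
def e0_63_252__150_42_141 : Ent 4 := ⟨[a0, a63, a252], [a150, a42, a221], (M a64 (F (T t7494 (L l390 (L l516 (T t7495 (T t7496 (L l163 (T t7497 N)))))))))⟩
def e0_63_252__150_42_142 : Ent 4 := ⟨[a0, a63, a252], [a150, a42, a222], (M a64 (F (T t7494 (L l390 (L l516 (T t7495 (T t7496 (L l163 (T t7497 N)))))))))⟩
def e0_63_252__150_42_143 : Ent 4 := ⟨[a0, a63, a252], [a150, a42, a223], (M a64 (F (T t7494 (L l390 (L l516 (T t7495 (T t7496 (L l163 (T t7497 N)))))))))⟩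
def e0_63_252__150_42_144 : Ent 4 := ⟨[a0, a63, a252], [a150, a42, a232], (M a85 (F (T t94 (L l218 (L l390 (L l518 (T t7517 (L l388 (T t5504 N)))))))))⟩
def e0_63_252__150_42_145 : Ent 4 := ⟨[a0, a63, a252], [a150, a42, a233], (M a64 (F (L l518 (T t7648 (L l250 (L l390 (L l516 (T t7495 (T t7496 (L l163 (T t7497 N)))))))))))⟩
def e0_63_252__150_42_146 : Ent 4 := ⟨[a0, a63, a252], [a150, a42, a234], (M a106 (F (L l296 (T t7234 (L l163 (L l250 (L l350 (L l518 (T t2535 (T t6675 N))))))))))⟩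
def e0_63_252__150_42_147 : Ent 4 := ⟨[a0, a63, a252], [a150, a42, a235], (M a64 (F (L l518 (T t7648 (L l250 (L l390 (L l516 (T t7495 (T t7496 (L l163 (T t7497 N)))))))))))⟩
def e0_63_252__150_42_148 : Ent 4 := ⟨[a0, a63, a252], [a150, a42, a236], (M a64 (F (L l400 (L l518 (T t7648 (L l252 (L l390 (L l516 (T t7495 (L l400 (T t7496 (L l163 (T t7497 N)))))))))))))⟩
def e0_63_252__150_42_149 : Ent 4 := ⟨[a0, a63, a252], [a150, a42, a237], (M a64 (F (T t7494 (L l390 (L l516 (T t7495 (T t7496 (L l163 (T t7497 N)))))))))⟩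
def e0_63_252__150_42_150 : Ent 4 := ⟨[a0, a63, a252], [a150, a42, a238], (M a64 (F (T t7494 (L l390 (L l516 (T t7495 (T t7496 (L l163 (T t7497 N)))))))))⟩
def e0_63_252__150_42_151 : Ent 4 := ⟨[a0, a63, a252], [a150, a42, a239], (M a64 (F (T t7494 (L l390 (L l516 (T t7495 (T t7496 (L l163 (T t7497 N)))))))))⟩
def e0_63_252__150_42_152 : Ent 4 := ⟨[a0, a63, a252], [a150, a42, a253], (M a128 (F (L l22 (T t7548 (L l390 (L l516 (T t7549 (L l163 (L l218 (T t7550 (L l390 (L l516 (T t7551 N)))))))))))))⟩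
def e0_63_252__150_42_153 : Ent 4 := ⟨[a0, a63, a252], [a150, a42, a254], (M a64 (F (T t7494 (L l390 (L l516 (T t7495 (T t7496 (L l163 (T t7497 N)))))))))⟩
def e0_63_252__150_42_154 : Ent 4 := ⟨[a0, a63, a252], [a150, a42, a255], (M a192 (F (T t5272 (L l390 (L l475 (L l516 (T t5276 (L l163 (L l475 (T t5271 N))))))))))⟩
def b0_63_252__150_42 : Blk 4 := ⟨[0, 63, 252], [150, 42], [1, 2, 3, 4, 5, 6, 7, 8, 9, 10, 11, 12, 13, 14, 15, 20, 21, 22, 23, 24, 25, 26, 27, 28, 29, 30, 31, 40, 41, 43, 44, 45, 46, 47, 60, 61, 62, 64, 65, 66, 67, 68, 69, 70, 71, 72, 73, 74, 75, 76, 77, 78, 79, 84, 85, 86, 87, 88, 89, 90, 91, 92, 93, 94, 95, 104, 105, 106, 107, 108, 109, 110, 111, 124, 125, 126, 127, 128, 129, 130, 131, 132, 133, 134, 135, 136, 137, 138, 139, 140, 141, 142, 143, 148, 149, 151, 152, 153, 154, 155, 156, 157, 158, 159, 168, 169, 170, 171, 172, 173, 174, 175, 188, 189, 190, 191, 192, 193, 194, 195, 196, 197, 198, 199, 200,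 201, 202, 203, 204, 205, 206, 207, 212, 213, 214, 215, 216, 217, 218, 219, 220, 221, 222, 223, 232, 233, 234, 235, 236, 237, 238, 239, 253, 254, 255], [e0_63_252__150_42_0, e0_63_252__150_42_1, e0_63_252__150_42_2, e0_63_252__150_42_3, e0_63_252__150_42_4, e0_63_252__150_42_5, e0_63_252__150_42_6, e0_63_252__150_42_7, e0_63_252__150_42_8, e0_63_252__150_42_9, e0_63_252__150_42_10, e0_63_252__150_42_11, e0_63_252__150_42_12, e0_63_252__150_42_13, e0_63_252__150_42_14, e0_63_252__150_42_15, e0_63_252__150_42_16, e0_63_252__150_42_17, e0_63_252__150_42_18, e0_63_252__150_42_19, e0_63_252__150_42_20, e0_63_252__150_42_21, e0_63_252__150_42_22, e0_63_252__150_42_23, e0_63_252__150_42_24, e0_63_252__150_42_25, e0_63_252__150_42_26, e0_63_252__150_42_27, e0_63_252__150_42_28, e0_63_252__150_42_29, e0_63_252__150_42_30, e0_63_252__150_42_31, e0_63_252__150_42_32, e0_63_252__150_42_33, e0_63_252__150_42_34, e0_63_252__150_42_35,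 e0_63_252__150_42_36, e0_63_252__150_42_37, e0_63_252__150_42_38, e0_63_252__150_42_39, e0_63_252__150_42_40, e0_63_252__150_42_41, e0_63_252__150_42_42, e0_63_252__150_42_43, e0_63_252__150_42_44, e0_63_252__150_42_45, e0_63_252__150_42_46, e0_63_252__150_42_47, e0_63_252__150_42_48, e0_63_252__150_42_49, e0_63_252__150_42_50, e0_63_252__150_42_51, e0_63_252__150_42_52, e0_63_252__150_42_53, e0_63_252__150_42_54, e0_63_252__150_42_55, e0_63_252__150_42_56, e0_63_252__150_42_57, e0_63_252__150_42_58, e0_63_252__150_42_59, e0_63_252__150_42_60, e0_63_252__150_42_61, e0_63_252__150_42_62, e0_63_252__150_42_63, e0_63_252__150_42_64, e0_63_252__150_42_65, e0_63_252__150_42_66, e0_63_252__150_42_67, e0_63_252__150_42_68, e0_63_252__150_42_69, e0_63_252__150_42_70, e0_63_252__150_42_71, e0_63_252__150_42_72, e0_63_252__150_42_73, e0_63_252__150_42_74, e0_63_252__150_42_75, e0_63_252__150_42_76, e0_63_252__150_42_77, e0_63_252__150_42_78,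 e0_63_252__150_42_79, e0_63_252__150_42_80, e0_63_252__150_42_81, e0_63_252__150_42_82, e0_63_252__150_42_83, e0_63_252__150_42_84, e0_63_252__150_42_85, e0_63_252__150_42_86, e0_63_252__150_42_87, e0_63_252__150_42_88, e0_63_252__150_42_89, e0_63_252__150_42_90, e0_63_252__150_42_91, e0_63_252__150_42_92, e0_63_252__150_42_93, e0_63_252__150_42_94, e0_63_252__150_42_95, e0_63_252__150_42_96, e0_63_252__150_42_97, e0_63_252__150_42_98, e0_63_252__150_42_99, e0_63_252__150_42_100, e0_63_252__150_42_101, e0_63_252__150_42_102, e0_63_252__150_42_103, e0_63_252__150_42_104, e0_63_252__150_42_105, e0_63_252__150_42_106, e0_63_252__150_42_107, e0_63_252__150_42_108, e0_63_252__150_42_109, e0_63_252__150_42_110, e0_63_252__150_42_111, e0_63_252__150_42_112, e0_63_252__150_42_113, e0_63_252__150_42_114, e0_63_252__150_42_115, e0_63_252__150_42_116, e0_63_252__150_42_117, e0_63_252__150_42_118, e0_63_252__150_42_119, e0_63_252__150_42_120,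 e0_63_252__150_42_121, e0_63_252__150_42_122, e0_63_252__150_42_123, e0_63_252__150_42_124, e0_63_252__150_42_125, e0_63_252__150_42_126, e0_63_252__150_42_127, e0_63_252__150_42_128, e0_63_252__150_42_129, e0_63_252__150_42_130, e0_63_252__150_42_131, e0_63_252__150_42_132, e0_63_252__150_42_133, e0_63_252__150_42_134, e0_63_252__150_42_135, e0_63_252__150_42_136, e0_63_252__150_42_137, e0_63_252__150_42_138, e0_63_252__150_42_139, e0_63_252__150_42_140, e0_63_252__150_42_141, e0_63_252__150_42_142, e0_63_252__150_42_143, e0_63_252__150_42_144, e0_63_252__150_42_145, e0_63_252__150_42_146, e0_63_252__150_42_147, e0_63_252__150_42_148, e0_63_252__150_42_149, e0_63_252__150_42_150, e0_63_252__150_42_151, e0_63_252__150_42_152, e0_63_252__150_42_153, e0_63_252__150_42_154], by decide +kernel, by decide +kernel⟩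
def e0_64_48__85_0 : Ent 4 := ⟨[a0, a64, a48], [a85, a192], (M a84 (F (T t8886 (L l514 (T t9575 (L l268 (L l292 (L l368 (T t9576 (L l94 (L l232 (T t9577 (L l232 (T t9578 N))))))))))))))⟩
def b0_64_48__85 : Blk 4 := ⟨[0, 64, 48], [85], [192], [e0_64_48__85_0], by decide +kernel, by decide +kernel⟩
def e0_64_48__85_192_0 : Ent 4 := ⟨[a0, a64, a48], [a85, a192, a1], (M a84 (L l473 (F (T t8886 (L l514 (T t9575 (L l268 (L l292 (L l368 (T t9576 (L l94 (L l232 (T t9577 (L l232 (T t9578 (K a169 (M a253 (F (L l126 (T t3650 (L l41 (L l174 (L l489 (T t8878 (L l94 (L l232 (T t9577 (L l232 (T t9578 N))))))))))))) (K a253 (M a169 (F (T t9579 (L l232 (T t9578 (L l94 (L l232 (T t9577 N)))))))) N)))))))))))))))))⟩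
def e0_64_48__85_192_1 : Ent 4 := ⟨[a0, a64, a48], [a85, a192, a2], (M a84 (F (T t8886 (L l514 (T t9575 (L l268 (L l292 (L l368 (T t9576 (L l94 (L l232 (T t9577 (L l232 (T t9578 N))))))))))))))⟩
def e0_64_48__85_192_2 : Ent 4 := ⟨[a0, a64, a48], [a85, a192, a3], (M a84 (L l309 (F (T t8886 (L l514 (T t9575 (L l268 (L l292 (L l368 (L l477 (T t9576 (L l94 (L l232 (L l333 (T t9577 (L l232 (T t9578 (K a129 (M a66 (F (T t8886 (L l152 (L l272 (L l307 (L l451 (T t3393 (L l514 (T t9575 N)))))))))) (K a66 (M a129 (F (T t8886 (L l514 (T t9575 (L l268 (L l292 (L l368 (L l477 (T t9576 (L l94 (L l232 (L l333 (T t9577 (L l232 (T t9578 N)))))))))))))))) N)))))))))))))))))))⟩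
def e0_64_48__85_192_3 : Ent 4 := ⟨[a0, a64, a48], [a85, a192, a5], (M a84 (L l455 (F (T t8886 (L l514 (T t9575 (L l268 (L l292 (L l368 (T t9576 (L l94 (L l232 (T t9577 (L l232 (T t9578 (K a165 (M a245 (F (T t8886 (L l227 (L l514 (T t9575 (L l268 (L l292 (L l368 (L l411 (T t9576 (L l94 (L l232 (T t9577 (L l232 (T t9578 N)))))))))))))))) (K a245 (M a165 (F (T t8886 (L l514 (T t9575 (L l268 (L l292 (L l368 (T t9576 (L l94 (L l232 (T t9577 (L l232 (T t9578 N)))))))))))))) N)))))))))))))))))⟩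
def e0_64_48__85_192_4 : Ent 4 := ⟨[a0, a64, a48], [a85, a192, a6], (M a84 (F (T t8886 (L l514 (T t9575 (L l268 (L l292 (L l368 (T t9576 (L l94 (L l232 (T t9577 (L l232 (T t9578 N))))))))))))))⟩
def e0_64_48__85_192_5 : Ent 4 := ⟨[a0, a64, a48], [a85, a192, a7], (M a84 (F (T t8886 (L l514 (T t9575 (L l268 (L l292 (L l368 (T t9576 (L l94 (L l232 (T t9577 (L l51 (L l232 (T t9578 N)))))))))))))))⟩
def e0_64_48__85_192_6 : Ent 4 := ⟨[a0, a64, a48], [a85, a192, a10], (M a84 (F (T t8886 (L l514 (T t9575 (L l268 (L l292 (L l368 (T t9576 (L l94 (L l232 (T t9577 (L l232 (T t9578 N))))))))))))))⟩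
def e0_64_48__85_192_7 : Ent 4 := ⟨[a0, a64, a48], [a85, a192, a11], (M a84 (F (T t8886 (L l514 (T t9575 (L l268 (L l292 (L l368 (T t9576 (L l94 (L l232 (T t9577 (L l232 (L l321 (T t9578 N)))))))))))))))⟩
def e0_64_48__85_192_8 : Ent 4 := ⟨[a0, a64, a48], [a85, a192, a15], (M a84 (L l339 (F (T t8886 (L l514 (T t9575 (L l268 (L l292 (L l368 (L l471 (T t9576 (L l94 (L l232 (L l327 (T t9577 (L l232 (T t9578 (K a133 (M a74 (F (T t8886 (L l514 (T t9575 (L l268 (L l292 (L l368 (L l471 (T t9576 (L l94 (L l232 (L l327 (T t9577 (L l160 (L l325 (L l473 (T t9580 N)))))))))))))))))) (K a74 (M a133 (F (T t8886 (L l514 (T t9575 (L l268 (L l292 (L l368 (L l471 (T t9576 (L l94 (L l232 (L l327 (T t9577 (L l232 (L l321 (T t9578 N))))))))))))))))) N)))))))))))))))))))⟩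
def e0_64_48__85_192_9 : Ent 4 := ⟨[a0, a64, a48], [a85, a192, a16], (M a84 (L l368 (F (L l514 (T t9581 (L l334 (L l514 (T t9582 (L l514 (T t9583 (K a176 (Fr a252 a168 l472 (Fr a124 a104 l140 (Fr a60 a188 l430 (Fr a52 a56 l34 (Fr a116 a184 l436 (Fr a180 a244 l418 (V t9743))))))) (K a148 (M a60 (L l368 (F (T t9585 (L l268 (T t9586 (L l216 (L l268 (T t9587 (L l198 (L l216 (T t9588 (K a154 (M a223 (F (T t9585 (L l268 (L l500 (T t9586 (L l216 (L l227 (L l268 (T t9587 (L l198 (L l216 (L l500 (T t9588 N)))))))))))))) (K a223 (M a154 (F (T t9585 (L l163 (L l236 (L l289 (L l350 (L l490 (T t9589 N))))))))) N)))))))))))))) (K a116 (M a112 (L l368 (F (T t9590 (T t9591 (L l514 (T t9592 (K a154 (M a223 (F (T t9593 (L l126 (T t9594 (L l227 (L l500 (L l514 (T t9592 N))))))))) (K a223 (M a154 (F (T t9595 (L l236 (L l289 (L l455 (T t9596 N))))))) N))))))))) (K a136 (M a116 (L l368 (F (T t9597 (L l126 (L l514 (T t9081 (K a154 (M a223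 (F (T t9597 (L l126 (L l514 (T t9081 N)))))) (K a223 (M a154 (F (T t9597 (L l126 (L l514 (T t9081 N)))))) N))))))))) (K a152 (M a116 (L l368 (F (T t9597 (L l126 (L l496 (L l514 (T t9081 (K a154 (M a223 (L l164 (F (T t9597 (L l126 (L l496 (L l514 (T t9081 (K a153 (M a155 (L l365 (F (T t9597 (L l126 (L l496 (L l514 (T t9081 (K a17 (M a221 (L l10 (F (T t9597 (L l126 (L l496 (L l514 (T t9081 (K a18 (Fr a19 a87 l367 (V t9597)) (K a19 (M a18 (L l369 (F (T t9597 (L l126 (L l496 (L l514 (T t9081 (K a220 (M a86 (F (T t9597 (L l126 (L l496 (L l514 (T t9081 N))))))) (K a86 (Fr a220 a222 l241 (V t9597)) N)))))))))) N)))))))))) (K a221 (M a17 (F (T t9597 (L l126 (L l496 (L l514 (T t9081 N))))))) N)))))))))) (K a155 (M a153 (F (T t9597 (L l126 (L l496 (L l514 (T t9081 N))))))) N)))))))))) (K a223 (M a154 (F (T t9597 (L l126 (L l496 (L l514 (T t9081 N))))))) N)))))))))) (K a40 (M a80 (L l368 (F (T t9598 (L l126 (T t8911 (L l292 (T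 t8991 (K a154 (M a223 (F (T t9598 (L l126 (T t8911 (L l292 (T t8991 N))))))) (K a223 (M a154 (F (T t9598 (L l10 (L l309 (L l388 (T t9599 N))))))) N)))))))))) (K a104 (M a240 (L l368 (L l514 (F (T t9600 (L l94 (L l128 (L l292 (L l340 (T t9601 (L l388 (L l496 (T t9602 (K a148 (M a60 (L l368 (F (T t9600 (L l216 (L l334 (L l388 (T t8887 (L l198 (L l292 (L l490 (T t9603 (K a154 (M a223 (F (T t7812 (L l216 (L l334 (L l388 (T t8887 (L l198 (L l292 (L l490 (T t9603 N))))))))))) (K a223 (M a154 (F (T t9600 (L l236 (L l289 (L l362 (L l496 (T t6386 N)))))))) N)))))))))))))) (K a60 (M a148 (L l368 (F (T t7812 (L l388 (L l458 (T t9604 (K a154 (M a223 (F (T t7812 (L l209 (L l388 (L l458 (T t9604 N))))))) (K a223 (M a154 (F (T t9600 (L l69 (L l123 (L l309 (L l388 (T t9605 N)))))))) N))))))))) (K a154 (M a223 (L l514 (F (T t7812 (L l334 (L l388 (T t8887 (L l388 (L l496 (L l500 (T t9602 (K a148 (M a60 (F (T t7812 (L l216 (L l334 (L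 l388 (T t8887 (L l198 (L l292 (L l490 (T t9603 N))))))))))) (K a60 (M a148 (F (T t7812 (L l209 (L l388 (L l458 (T t9604 N))))))) N))))))))))))) (K a223 (M a154 (L l514 (F (T t9600 (L l236 (L l289 (L l388 (T t9606 (K a148 (M a60 (F (T t9600 (L l236 (L l289 (L l362 (L l496 (T t6386 N)))))))) (K a60 (M a148 (F (T t9600 (L l69 (L l123 (L l309 (L l388 (T t9605 N)))))))) N)))))))))) N))))))))))))))))) (K a168 (M a80 (L l368 (F (T t9598 (L l126 (T t8911 (L l176 (L l204 (L l334 (L l458 (L l460 (T t9607 (K a154 (M a223 (F (T t9598 (L l126 (T t8911 (L l176 (L l204 (L l209 (L l334 (L l458 (L l460 (T t9607 N)))))))))))) (K a223 (M a154 (F (T t8880 (L l18 (L l123 (L l176 (L l339 (T t9608 N)))))))) N)))))))))))))) (K a232 (M a240 (L l292 (L l368 (F (T t9600 (L l280 (L l334 (L l388 (L l458 (T t9094 (L l388 (L l514 (T t9609 (K a212 (Fr a252 a168 l472 (V t7812)) (K a252 (M a212 (L l368 (F (T t9600 (L l388 (L l514 (T t9610 (K a154 (M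 a223 (F (T t7812 (L l388 (L l500 (L l514 (T t9610 N))))))) (K a223 (M a154 (F (T t9600 (L l18 (L l123 (L l339 (T t9611 N))))))) N))))))))) (K a154 (M a223 (L l292 (F (T t7812 (L l334 (L l388 (T t8887 (L l388 (L l500 (L l514 (T t9609 (K a212 (Fr a252 a168 l472 (V t7812)) (K a252 (M a212 (F (T t7812 (L l388 (L l500 (L l514 (T t9610 N))))))) N))))))))))))) (K a223 (M a154 (L l292 (F (T t9600 (L l236 (L l289 (L l388 (T t9606 (K a212 (Fr a252 a168 l472 (V t7812)) (K a252 (M a212 (F (T t9600 (L l18 (L l123 (L l339 (T t9611 N))))))) N)))))))))) N))))))))))))))))) (K a120 (M a60 (L l368 (F (T t9082 (L l126 (L l424 (T t9612 (K a154 (M a223 (F (T t9082 (L l126 (L l424 (L l500 (T t9612 N))))))) (K a223 (M a154 (F (T t9082 (L l236 (L l289 (L l350 (T t9589 N))))))) N))))))))) (K a184 (M a240 (L l368 (F (T t7812 (L l94 (L l292 (L l340 (T t9601 (L l186 (L l204 (L l514 (T t9613 (K a154 (M a223 (L l209 (F (T t7812 (L l204 (L l334 (T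 t8887 (L l186 (L l204 (L l227 (L l514 (T t9613 (K a169 (M a139 (L l473 (F (T t7812 (L l174 (L l204 (L l334 (T t8887 (L l174 (L l186 (L l204 (L l227 (L l514 (T t9613 (K a1 (M a253 (F (T t7812 (L l174 (L l204 (L l272 (L l449 (T t8869 N)))))))) (K a253 (M a1 (F (L l458 (T t6890 (L l177 (L l228 (L l401 (T t9614 N)))))))) N)))))))))))))))) (K a139 (M a169 (F (T t7812 (L l204 (L l309 (L l319 (L l331 (T t8889 N)))))))) N)))))))))))))) (K a223 (M a154 (F (L l292 (T t9169 (L l236 (L l289 (T t9615 N))))))) N)))))))))))))) (K a60 (M a240 (L l368 (L l514 (F (T t9600 (L l94 (L l292 (L l340 (L l430 (T t9601 (T t9616 (K a148 (Fr a104 a124 l140 (V t7812)) (K a104 (M a148 (L l368 (F (T t7812 (L l388 (L l458 (T t9604 (K a154 (M a223 (F (T t7812 (L l209 (L l388 (L l458 (T t9604 N))))))) (K a223 (M a154 (F (T t9600 (L l69 (L l123 (L l309 (L l388 (T t9605 N)))))))) N))))))))) (K a154 (M a223 (L l514 (F (T t7812 (L l58 (L l334 (T t8887 (L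 l209 (L l227 (T t9616 (K a148 (Fr a104 a124 l140 (V t7812)) (K a104 (M a148 (F (T t7812 (L l209 (L l388 (L l458 (T t9604 N))))))) N)))))))))))) (K a223 (M a154 (L l514 (F (T t9600 (L l236 (L l289 (L l506 (T t9606 (K a148 (Fr a104 a124 l140 (V t7812)) (K a104 (M a148 (F (T t9600 (L l69 (L l123 (L l309 (L l388 (T t9605 N)))))))) N)))))))))) N))))))))))))))) (K a124 (M a240 (L l368 (F (T t9600 (L l94 (L l292 (L l340 (L l430 (T t9601 (L l110 (L l430 (L l514 (T t9609 (K a154 (M a223 (F (T t7812 (L l134 (L l334 (T t8887 (L l110 (L l430 (L l500 (L l514 (T t9609 N))))))))))) (K a223 (M a154 (F (T t9600 (L l10 (L l123 (L l309 (T t9617 N))))))) N))))))))))))))) (K a252 (M a100 (L l292 (L l368 (F (T t9618 (L l334 (L l514 (T t9619 (L l232 (L l430 (T t9620 (K a212 (M a232 (L l368 (F (T t9621 (L l274 (L l430 (T t9622 (K a154 (M a223 (F (T t9618 (L l274 (L l430 (T t9622 N)))))) (K a223 (M a154 (F (T t9621 (L l274 (L l430 (T t9622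 N)))))) N))))))))) (K a232 (M a212 (L l368 (F (T t9618 (L l14 (L l252 (L l350 (T t9623 (L l430 (T t9624 (K a154 (M a223 (F (T t9618 (L l94 (L l334 (L l340 (T t9625 (L l164 (L l430 (T t9624 N)))))))))) (K a223 (M a154 (F (L l334 (L l430 (T t9626 (L l236 (L l289 (L l291 (L l365 (T t9627 N)))))))))) N)))))))))))) (K a154 (M a223 (L l292 (F (T t9618 (L l334 (L l514 (T t9619 (L l164 (L l232 (L l430 (L l500 (T t9620 (K a212 (M a232 (F (T t9618 (L l274 (L l430 (T t9622 N)))))) (K a232 (M a212 (F (T t9618 (L l94 (L l334 (L l340 (T t9625 (L l164 (L l430 (T t9624 N)))))))))) N)))))))))))))) (K a223 (M a154 (L l292 (F (L l334 (L l514 (T t9628 (L l236 (L l289 (L l291 (L l365 (T t9627 (K a212 (M a232 (F (T t9621 (L l274 (L l430 (T t9622 N)))))) (K a232 (M a212 (F (L l334 (L l430 (T t9626 (L l236 (L l289 (L l291 (L l365 (T t9627 N)))))))))) N))))))))))))) N))))))))))))))) (K a154 (M a223 (F (L l209 (L l500 (L l514 (T t9581 (L l209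 (L l334 (L l514 (T t9582 (L l209 (L l514 (T t9583 (K a176 (Fr a252 a168 l472 (Fr a124 a104 l140 (Fr a60 a188 l430 (Fr a52 a56 l34 (Fr a116 a184 l436 (Fr a180 a244 l418 (V t9743))))))) (K a148 (M a60 (F (T t9585 (L l268 (L l500 (T t9586 (L l216 (L l227 (L l268 (T t9587 (L l198 (L l216 (L l500 (T t9588 N)))))))))))))) (K a116 (M a80 (F (T t9629 (L l126 (T t9106 (L l292 (T t8991 N))))))) (K a136 (M a116 (F (T t9597 (L l126 (L l514 (T t9081 N)))))) (K a152 (M a116 (L l164 (F (T t9597 (L l126 (L l496 (L l514 (T t9081 (K a153 (M a155 (L l365 (F (T t9597 (L l126 (L l496 (L l514 (T t9081 (K a17 (M a221 (L l10 (F (T t9597 (L l126 (L l496 (L l514 (T t9081 (K a18 (Fr a19 a87 l367 (V t9597)) (K a19 (M a18 (L l369 (F (T t9597 (L l126 (L l496 (L l514 (T t9081 (K a220 (M a86 (F (T t9597 (L l126 (L l496 (L l514 (T t9081 N))))))) (K a86 (Fr a220 a222 l241 (V t9597)) N)))))))))) N)))))))))) (K a221 (M a17 (F (T t9597 (L l126 (L l496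 (L l514 (T t9081 N))))))) N)))))))))) (K a155 (M a153 (F (T t9597 (L l126 (L l496 (L l514 (T t9081 N))))))) N)))))))))) (K a40 (M a80 (F (T t9598 (L l126 (T t8911 (L l292 (T t8991 N))))))) (K a104 (M a240 (L l514 (F (T t7812 (L l334 (L l388 (T t8887 (L l388 (L l496 (L l500 (T t9602 (K a148 (M a60 (F (T t7812 (L l216 (L l334 (L l388 (T t8887 (L l198 (L l292 (L l490 (T t9603 N))))))))))) (K a60 (M a148 (F (T t7812 (L l209 (L l388 (L l458 (T t9604 N))))))) N))))))))))))) (K a168 (M a80 (F (T t9598 (L l126 (T t8911 (L l176 (L l204 (L l209 (L l334 (L l458 (L l460 (T t9607 N)))))))))))) (K a232 (M a240 (L l292 (F (T t7812 (L l334 (L l388 (T t8887 (L l388 (L l500 (L l514 (T t9609 (K a212 (Fr a252 a168 l472 (V t7812)) (K a252 (M a212 (F (T t7812 (L l388 (L l500 (L l514 (T t9610 N))))))) N))))))))))))) (K a120 (M a60 (F (T t9082 (L l126 (L l424 (L l500 (T t9612 N))))))) (K a184 (M a240 (L l209 (F (T t7812 (L l204 (L l334 (T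 t8887 (L l186 (L l204 (L l227 (L l514 (T t9613 (K a169 (M a139 (L l473 (F (T t7812 (L l174 (L l204 (L l334 (T t8887 (L l174 (L l186 (L l204 (L l227 (L l514 (T t9613 (K a1 (M a253 (F (T t7812 (L l174 (L l204 (L l272 (L l449 (T t8869 N)))))))) (K a253 (M a1 (F (L l458 (T t6890 (L l177 (L l228 (L l401 (T t9614 N)))))))) N)))))))))))))))) (K a139 (M a169 (F (T t7812 (L l204 (L l309 (L l319 (L l331 (T t8889 N)))))))) N)))))))))))))) (K a60 (M a112 (L l514 (F (T t9593 (L l209 (T t9630 (K a148 (Fr a104 a124 l140 (V t9593)) (K a104 (M a148 (F (L l227 (T t9590 (L l126 (L l209 (L l388 (T t9631 (L l126 (L l209 (L l227 (L l388 (T t9632 N))))))))))))) N)))))))) (K a124 (M a240 (F (T t7812 (L l134 (L l334 (T t8887 (L l110 (L l430 (L l500 (L l514 (T t9609 N))))))))))) (K a252 (M a100 (L l292 (F (T t9618 (L l334 (L l514 (T t9619 (L l164 (L l232 (L l430 (L l500 (T t9620 (K a212 (M a232 (F (T t9618 (L l274 (L l430 (T t9622 N)))))) (K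 a232 (M a212 (F (T t9618 (L l94 (L l334 (L l340 (T t9625 (L l164 (L l430 (T t9624 N)))))))))) N)))))))))))))) (K a169 (M a116 (L l209 (L l473 (F (T t9597 (L l126 (L l514 (T t9081 (K a184 (M a139 (L l473 (F (L l424 (L l514 (T t8862 (L l205 (L l232 (L l236 (T t9633 (L l174 (L l186 (L l204 (L l221 (L l424 (L l500 (L l514 (T t9634 (L l126 (L l174 (L l186 (L l204 (L l221 (L l232 (L l424 (L l500 (L l514 (T t9635 (K a1 (M a253 (F (L l186 (L l227 (L l424 (L l514 (T t9636 (L l126 (L l174 (L l184 (L l204 (L l206 (T t9637 N))))))))))))) (K a253 (M a1 (F (L l123 (T t9638 (L l186 (L l227 (L l424 (L l514 (T t9636 N))))))))) N)))))))))))))))))))))))))))))) (K a1 (M a253 (L l209 (F (T t9597 (L l126 (L l514 (T t9081 (K a184 (M a139 (F (L l186 (L l227 (L l424 (L l514 (T t9636 (L l126 (L l174 (L l184 (L l204 (L l206 (T t9637 N))))))))))))) (K a139 (Fr a184 a252 l436 (V t9081)) N))))))))) (K a253 (M a1 (L l209 (F (T t9597 (L l126 (L l514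 (T t9081 (K a184 (M a139 (F (L l123 (T t9638 (L l186 (L l227 (L l424 (L l514 (T t9636 N))))))))) (K a139 (Fr a184 a252 l436 (V t9081)) N))))))))) (K a139 (Fr a184 a252 l436 (V t9081)) N)))))))))))) (K a139 (M a116 (L l209 (F (T t9597 (L l126 (L l514 (T t9081 (K a184 (M a169 (F (L l424 (L l514 (T t8862 (L l126 (L l164 (L l204 (L l207 (L l292 (T t9639 (L l186 (L l204 (L l424 (L l500 (L l514 (T t9634 N))))))))))))))))) (K a169 (Fr a184 a252 l436 (V t9081)) N))))))))) N))))))))))))))))))))))))))))) (K a223 (M a154 (F (L l10 (T t9640 (L l514 (T t9575 (L l123 (L l339 (L l514 (T t9641 (K a168 (M a112 (F (T t9595 (L l236 (L l289 (L l455 (T t9596 N))))))) (K a252 (M a112 (L l292 (F (L l430 (L l466 (T t9591 (L l236 (L l289 (L l291 (L l455 (T t9596 (K a212 (M a232 (F (L l126 (L l466 (T t9594 (L l236 (L l289 (L l291 (L l455 (T t9596 N)))))))))) (K a232 (M a212 (F (L l126 (L l466 (T t9642 (L l236 (L l289 (L l291 (L l455 (T t9596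 N)))))))))) N))))))))))))) N)))))))))))) N))))))))))))))))))))))))))⟩
def e0_64_48__85_192_10 : Ent 4 := ⟨[a0, a64, a48], [a85, a192, a17], (M a84 (L l365 (F (T t8886 (L l514 (T t9575 (L l10 (L l268 (L l292 (L l368 (T t9576 (L l94 (L l232 (T t9577 (L l232 (T t9578 (K a153 (M a221 (F (L l369 (T t8886 (L l514 (T t9575 (L l10 (L l268 (L l292 (L l368 (T t9576 (L l126 (L l232 (L l369 (L l513 (L l514 (T t9643 (L l126 (L l232 (L l350 (L l369 (L l501 (T t9644 N))))))))))))))))))))))) (K a221 (M a153 (F (L l241 (T t8886 (L l514 (T t9575 (L l236 (L l241 (L l287 (T t9645 (L l10 (L l268 (L l292 (L l368 (T t9576 N))))))))))))))) N))))))))))))))))))⟩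
def e0_64_48__85_192_11 : Ent 4 := ⟨[a0, a64, a48], [a85, a192, a18], (M a84 (F (T t8886 (L l514 (T t9575 (L l10 (L l268 (L l292 (L l368 (T t9576 (L l94 (L l232 (T t9577 (L l232 (T t9578 N)))))))))))))))⟩
def e0_64_48__85_192_12 : Ent 4 := ⟨[a0, a64, a48], [a85, a192, a19], (M a84 (F (L l126 (T t9646 (L l514 (T t9575 (L l10 (L l268 (L l292 (L l368 (T t9576 (L l94 (L l232 (L l369 (T t9577 (L l232 (L l369 (T t9578 N))))))))))))))))))⟩
def e0_64_48__85_192_13 : Ent 4 := ⟨[a0, a64, a48], [a85, a192, a21], (M a204 (L l347 (F (L l292 (T t2046 (L l18 (L l334 (L l368 (L l514 (T t9647 (L l334 (T t9648 (L l18 (L l268 (L l292 (L l368 (T t9649 (K a149 (M a213 (L l519 (F (L l292 (T t2046 (L l18 (L l334 (L l368 (L l514 (T t9647 (L l334 (T t9648 (L l18 (L l268 (L l292 (L l368 (T t9649 (K a106 (M a63 (F (L l292 (T t2046 (L l15 (L l132 (L l167 (L l334 (L l371 (T t9650 (L l18 (L l268 (L l292 (L l368 (L l411 (T t9649 N))))))))))))))))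 (K a63 (M a106 (F (L l126 (T t9651 (L l18 (L l33 (L l334 (L l368 (L l514 (T t9647 (L l334 (T t9648 (L l18 (L l268 (L l292 (L l368 (L l435 (T t9649 N)))))))))))))))))) N))))))))))))))))))) (K a213 (M a149 (L l296 (F (L l292 (T t2046 (L l18 (L l334 (L l368 (L l514 (T t9647 (L l334 (T t9648 (L l18 (L l268 (L l292 (L l368 (T t9649 (K a234 (M a255 (F (L l292 (T t1317 (L l334 (T t9652 (L l18 (L l256 (L l268 (L l292 (L l368 (T t9649 N)))))))))))) (K a255 (M a234 (F (L l126 (T t4994 (L l18 (L l334 (L l368 (L l434 (L l514 (T t9647 (L l334 (T t9648 (L l18 (L l261 (L l268 (L l292 (L l368 (T t9649 N)))))))))))))))))) N))))))))))))))))))) N)))))))))))))))))))⟩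
def e0_64_48__85_192_14 : Ent 4 := ⟨[a0, a64, a48], [a85, a192, a22], (M a84 (F (T t8886 (L l514 (T t9575 (L l268 (L l292 (L l368 (T t9576 (L l94 (L l232 (T t9577 (L l51 (L l232 (T t9578 N)))))))))))))))⟩
def e0_64_48__85_192_15 : Ent 4 := ⟨[a0, a64, a48], [a85, a192, a23], (M a84 (F (T t8886 (L l514 (T t9575 (L l268 (L l292 (L l368 (T t9576 (L l94 (L l232 (T t9577 (L l232 (T t9578 N))))))))))))))⟩
def e0_64_48__85_192_16 : Ent 4 := ⟨[a0, a64, a48], [a85, a192, a26], (M a84 (F (T t8886 (L l514 (T t9575 (L l18 (L l268 (L l292 (L l368 (T t9576 (L l94 (L l232 (T t9577 (L l232 (T t9578 N)))))))))))))))⟩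
def e0_64_48__85_192_17 : Ent 4 := ⟨[a0, a64, a48], [a85, a192, a27], (M a84 (F (T t8886 (L l514 (T t9575 (L l268 (L l292 (L l368 (T t9576 (L l94 (L l232 (T t9577 (L l232 (T t9578 N))))))))))))))⟩
def e0_64_48__85_192_18 : Ent 4 := ⟨[a0, a64, a48], [a85, a192, a31], (M a84 (F (L l126 (T t9646 (L l514 (T t9575 (L l18 (L l268 (L l292 (L l368 (T t9576 (L l94 (L l232 (L l363 (T t9577 (L l232 (L l363 (T t9578 N))))))))))))))))))⟩
def e0_64_48__85_192_19 : Ent 4 := ⟨[a0, a64, a48], [a85, a192, a32], (M a68 (F (L l334 (T t9653 (L l292 (L l376 (T t9654 (L l334 (L l514 (T t9655 (K a100 (M a207 (L l400 (F (T t9413 (L l94 (L l100 (L l339 (L l368 (L l376 (T t9656 (L l334 (T t9369 (K a168 (M a236 (F (L l141 (T t9393 (L l204 (L l296 (L l404 (T t9657 N)))))))) (K a236 (M a168 (F (L l87 (T t9658 (L l141 (L l334 (T t9370 N))))))) N)))))))))))))) (K a136 (M a69 (F (L l141 (T t9659 (L l87 (L l154 (L l368 (L l400 (T t9660 (L l94 (L l154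 (L l339 (L l368 (L l376 (T t9661 N))))))))))))))) (K a152 (M a84 (F (L l400 (T t9662 (L l94 (L l334 (L l352 (T t8892 (L l166 (L l204 (L l334 (L l496 (L l514 (T t8995 N)))))))))))))) (K a168 (M a100 (F (T t9663 (L l334 (L l388 (L l514 (T t9484 N))))))) (K a184 (M a100 (F (T t9663 (L l334 (L l514 (T t9484 N)))))) (K a204 (M a69 (L l232 (F (L l334 (T t9364 (L l87 (L l333 (L l368 (L l400 (T t9660 (L l94 (L l339 (L l368 (L l376 (T t9661 (K a196 (M a200 (F (L l334 (T t9364 (L l87 (L l315 (L l333 (L l368 (L l400 (L l490 (T t9660 (L l94 (L l339 (L l368 (L l376 (T t9661 N)))))))))))))))) (K a200 (M a196 (F (L l334 (T t9664 (L l94 (L l321 (L l339 (L l368 (L l376 (T t9661 (L l316 (L l334 (T t9364 N))))))))))))) N))))))))))))))))) N))))))))))))))))⟩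
def e0_64_48__85_192_20 : Ent 4 := ⟨[a0, a64, a48], [a85, a192, a33], (M a84 (F (L l20 (T t8886 (L l514 (T t9575 (L l268 (L l292 (L l368 (T t9576 (L l20 (L l94 (L l232 (T t9577 (L l20 (L l232 (T t9578 N)))))))))))))))))⟩
def e0_64_48__85_192_21 : Ent 4 := ⟨[a0, a64, a48], [a85, a192, a34], (M a84 (F (L l20 (T t8886 (L l514 (T t9575 (L l268 (L l292 (L l368 (T t9576 (L l20 (L l94 (L l232 (T t9577 (L l20 (L l232 (T t9578 N)))))))))))))))))⟩
def e0_64_48__85_192_22 : Ent 4 := ⟨[a0, a64, a48], [a85, a192, a35], (M a84 (F (L l20 (T t8886 (L l514 (T t9575 (L l268 (L l292 (L l368 (L l381 (L l405 (T t9576 (L l20 (L l94 (L l232 (T t9577 (L l20 (L l232 (T t9578 N)))))))))))))))))))⟩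
def e0_64_48__85_192_23 : Ent 4 := ⟨[a0, a64, a48], [a85, a192, a37], (M a84 (F (L l28 (T t8886 (L l514 (T t9575 (L l268 (L l292 (L l368 (T t9576 (L l28 (L l94 (L l232 (T t9577 (L l28 (L l51 (L l232 (T t9578 N))))))))))))))))))⟩
def e0_64_48__85_192_24 : Ent 4 := ⟨[a0, a64, a48], [a85, a192, a38], (M a84 (F (T t8886 (L l514 (T t9575 (L l268 (L l292 (L l368 (T t9576 (L l94 (L l232 (T t9577 (L l232 (T t9578 N))))))))))))))⟩
def e0_64_48__85_192_25 : Ent 4 := ⟨[a0, a64, a48], [a85, a192, a39], (M a84 (F (T t8886 (L l514 (T t9575 (L l268 (L l292 (L l368 (T t9576 (L l94 (L l232 (T t9577 (L l232 (T t9578 N))))))))))))))⟩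
def e0_64_48__85_192_26 : Ent 4 := ⟨[a0, a64, a48], [a85, a192, a42], (M a84 (F (L l28 (T t8886 (L l514 (T t9575 (L l268 (L l292 (L l368 (T t9576 (L l28 (L l94 (L l232 (T t9577 (L l28 (L l232 (T t9578 N)))))))))))))))))⟩
def e0_64_48__85_192_27 : Ent 4 := ⟨[a0, a64, a48], [a85, a192, a43], (M a84 (F (T t8886 (L l514 (T t9575 (L l268 (L l292 (L l368 (T t9576 (L l94 (L l232 (T t9577 (L l232 (T t9578 N))))))))))))))⟩
def e0_64_48__85_192_28 : Ent 4 := ⟨[a0, a64, a48], [a85, a192, a47], (M a84 (F (L l28 (T t8886 (L l514 (T t9575 (L l268 (L l292 (L l368 (L l399 (L l411 (T t9576 (L l28 (L l94 (L l232 (T t9577 (L l28 (L l232 (T t9578 N)))))))))))))))))))⟩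
def e0_64_48__85_192_29 : Ent 4 := ⟨[a0, a64, a48], [a85, a192, a49], (M a84 (F (T t8886 (L l514 (T t9575 (L l268 (L l292 (L l368 (T t9576 (L l94 (L l232 (T t9577 (L l232 (T t9578 N))))))))))))))⟩
def e0_64_48__85_192_30 : Ent 4 := ⟨[a0, a64, a48], [a85, a192, a50], (M a84 (F (T t8886 (L l514 (T t9575 (L l268 (L l292 (L l368 (T t9576 (L l94 (L l232 (T t9577 (L l232 (T t9578 N))))))))))))))⟩
def e0_64_48__85_192_31 : Ent 4 := ⟨[a0, a64, a48], [a85, a192, a51], (M a84 (L l489 (F (T t8886 (L l514 (T t9575 (L l268 (L l292 (L l368 (L l441 (T t9576 (L l94 (L l232 (L l513 (T t9577 (L l232 (T t9578 (K a145 (M a98 (F (T t8886 (L l196 (L l228 (L l415 (L l487 (T t9665 (L l514 (T t9583 N)))))))))) (K a98 (M a145 (F (T t8886 (L l514 (T t9575 (L l268 (L l292 (L l368 (L l381 (L l441 (T t9576 (L l94 (L l232 (L l513 (T t9577 (L l232 (T t9666 N))))))))))))))))) N)))))))))))))))))))⟩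
def e0_64_48__85_192_32 : Ent 4 := ⟨[a0, a64, a48], [a85, a192, a53], (M a84 (F (T t8886 (L l514 (T t9575 (L l268 (L l292 (L l368 (T t9576 (L l94 (L l232 (T t9577 (L l31 (L l232 (T t9578 N)))))))))))))))⟩
def e0_64_48__85_192_33 : Ent 4 := ⟨[a0, a64, a48], [a85, a192, a54], (M a84 (F (T t8886 (L l514 (T t9575 (L l268 (L l292 (L l368 (T t9576 (L l94 (L l232 (T t9577 (L l31 (L l232 (T t9578 N)))))))))))))))⟩
def e0_64_48__85_192_34 : Ent 4 := ⟨[a0, a64, a48], [a85, a192, a55], (M a84 (F (T t8886 (L l514 (T t9575 (L l268 (L l292 (L l368 (T t9576 (L l94 (L l232 (T t9577 (L l31 (L l232 (T t9578 N)))))))))))))))⟩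
def e0_64_48__85_192_35 : Ent 4 := ⟨[a0, a64, a48], [a85, a192, a58], (M a84 (F (T t8886 (L l514 (T t9575 (L l268 (L l292 (L l368 (T t9576 (L l94 (L l232 (T t9577 (L l232 (T t9578 N))))))))))))))⟩
def e0_64_48__85_192_36 : Ent 4 := ⟨[a0, a64, a48], [a85, a192, a59], (M a84 (F (T t8886 (L l514 (T t9575 (L l268 (L l292 (L l368 (T t9576 (L l94 (L l232 (T t9577 (L l232 (L l501 (T t9578 N)))))))))))))))⟩
def e0_64_48__85_192_37 : Ent 4 := ⟨[a0, a64, a48], [a85, a192, a63], (M a204 (L l519 (F (L l126 (T t4994 (L l334 (L l458 (T t9667 (L l334 (T t9648 (L l268 (L l292 (L l368 (L l435 (T t9649 (K a149 (M a106 (L l347 (F (L l368 (T t5482 (L l334 (L l458 (T t9667 (L l334 (T t9648 (L l268 (L l292 (L l368 (L l435 (T t9649 (K a21 (M a213 (F (L l126 (T t9651 (L l18 (L l33 (L l334 (L l368 (L l514 (T t9647 (L l334 (T t9648 (L l18 (L l268 (L l292 (L l368 (L l435 (T t9649 N)))))))))))))))))) (K a213 (M a21 (L l296 (F (L l126 (T t4994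 (L l334 (L l458 (T t9668 (L l334 (T t9648 (L l292 (L l435 (T t9669 (K a234 (M a255 (F (L l368 (T t5482 (L l334 (T t9670 (L l292 (L l368 (L l435 (T t1315 (L l220 (L l243 (L l365 (L l368 (T t9671 (K a100 (M a12 (F (T t9672 (L l33 (L l382 (L l458 (L l514 (T t550 N)))))))) (K a136 (M a24 (F (T t9673 (L l61 (L l350 (L l375 (T t9674 N))))))) (K a152 (M a12 (F (L l204 (T t9672 (L l33 (L l458 (L l496 (L l514 (T t550 N))))))))) (K a168 (M a12 (F (T t9675 (L l33 (L l458 (L l514 (T t550 N))))))) N))))))))))))))))))) (K a255 (M a234 (L l433 (F (L l126 (T t4994 (L l61 (L l123 (L l275 (L l368 (L l491 (T t9676 (L l37 (L l126 (L l243 (L l439 (T t9677 (K a127 (M a191 (F (L l368 (T t5482 (L l37 (L l126 (L l243 (L l439 (T t9677 (L l61 (L l123 (L l275 (L l368 (L l491 (T t9676 N))))))))))))))) (K a191 (M a127 (L l220 (F (L l368 (T t5482 (L l37 (L l126 (L l189 (L l243 (L l439 (T t9677 (L l123 (L l275 (L l368 (L l491 (T t9678 (K a128 (Fr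 a170 a42 l390 (V t1315)) (K a170 (M a128 (F (L l126 (L l404 (T t9651 (L l190 (L l208 (L l334 (T t9679 (L l33 (L l126 (L l202 (L l334 (L l404 (L l434 (L l514 (T t9680 (L l261 (L l292 (L l404 (L l435 (T t9681 N)))))))))))))))))))))) N)))))))))))))))))) N)))))))))))))))))) N))))))))))))))) N))))))))))))))))) (K a106 (M a149 (F (L l368 (T t5482 (L l132 (L l334 (L l458 (T t9667 (L l104 (L l132 (L l334 (T t9648 (L l268 (L l292 (L l368 (L l411 (L l435 (T t9649 N)))))))))))))))))) N)))))))))))))))))⟩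
def e0_64_48__85_192_38 : Ent 4 := ⟨[a0, a64, a48], [a85, a192, a65], (M a84 (L l141 (F (T t8886 (L l514 (T t9575 (L l268 (L l292 (L l368 (T t9576 (L l94 (L l232 (T t9577 (L l232 (T t9578 (K a105 (M a125 (F (T t8886 (L l98 (L l514 (T t9682 (L l98 (L l126 (L l133 (L l232 (L l514 (T t9643 (L l126 (L l145 (L l232 (T t9683 N)))))))))))))))) (K a125 (M a105 (F (T t8886 (L l350 (L l514 (T t9684 (L l94 (L l109 (L l232 (T t9577 (L l109 (L l126 (L l232 (L l350 (T t9644 N))))))))))))))) N)))))))))))))))))⟩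
def e0_64_48__85_192_39 : Ent 4 := ⟨[a0, a64, a48], [a85, a192, a66], (M a84 (L l309 (F (T t8886 (L l514 (T t9575 (L l268 (L l292 (L l368 (T t9576 (L l94 (L l232 (T t9577 (L l232 (T t9578 (K a129 (M a3 (F (L l489 (T t559 (L l514 (T t9575 N)))))) (K a3 (M a129 (F (T t8886 (L l514 (T t9575 (L l268 (L l292 (L l368 (L l477 (T t9576 (L l94 (L l232 (L l333 (T t9577 (L l232 (T t9578 N)))))))))))))))) N)))))))))))))))))⟩
def e0_64_48__85_192_40 : Ent 4 := ⟨[a0, a64, a48], [a85, a192, a67], (M a84 (F (T t8886 (L l514 (T t9575 (L l145 (L l268 (L l292 (L l368 (T t9576 (L l94 (L l145 (L l232 (T t9685 (L l145 (L l232 (T t9578 N)))))))))))))))))⟩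
def e0_64_48__85_192_41 : Ent 4 := ⟨[a0, a64, a48], [a85, a192, a69], (M a84 (L l123 (F (T t8886 (L l514 (T t9575 (L l268 (L l292 (L l368 (T t9576 (L l94 (L l232 (T t9577 (L l232 (T t9578 (K a101 (M a117 (F (L l404 (T t8886 (L l489 (L l509 (T t9686 (L l97 (L l232 (L l404 (L l494 (T t9578 (L l94 (L l232 (L l404 (T t9577 N)))))))))))))))) (K a117 (M a101 (F (T t8886 (L l107 (L l236 (T t9687 (L l236 (L l329 (T t9688 N))))))))) N)))))))))))))))))⟩
def e0_64_48__85_192_42 : Ent 4 := ⟨[a0, a64, a48], [a85, a192, a70], (M a84 (F (T t8886 (L l514 (T t9575 (L l268 (L l292 (L l368 (T t9576 (L l94 (L l232 (L l333 (T t9577 (L l232 (T t9578 N)))))))))))))))⟩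
def e0_64_48__85_192_43 : Ent 4 := ⟨[a0, a64, a48], [a85, a192, a71], (M a84 (F (T t8886 (L l514 (T t9575 (L l268 (L l292 (L l368 (T t9576 (L l94 (L l232 (T t9577 (L l232 (T t9578 N))))))))))))))⟩
def e0_64_48__85_192_44 : Ent 4 := ⟨[a0, a64, a48], [a85, a192, a74], (M a84 (L l339 (F (T t8886 (L l514 (T t9575 (L l268 (L l292 (L l368 (T t9576 (L l94 (L l232 (T t9577 (L l232 (L l321 (T t9578 (K a133 (M a15 (F (L l519 (T t9689 (L l514 (T t9583 N)))))) (K a15 (M a133 (F (T t8886 (L l514 (T t9575 (L l268 (L l292 (L l368 (L l471 (T t9576 (L l94 (L l232 (L l327 (T t9577 (L l232 (L l321 (T t9578 N))))))))))))))))) N))))))))))))))))))⟩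
def e0_64_48__85_192_45 : Ent 4 := ⟨[a0, a64, a48], [a85, a192, a75], (M a84 (F (T t8886 (L l133 (L l514 (T t9575 (L l268 (L l292 (L l368 (T t9576 (L l94 (L l232 (T t9577 (L l232 (T t9578 N)))))))))))))))⟩
def e0_64_48__85_192_46 : Ent 4 := ⟨[a0, a64, a48], [a85, a192, a79], (M a84 (F (T t8886 (L l514 (T t9575 (L l139 (L l268 (L l292 (L l368 (T t9576 (L l94 (L l139 (L l232 (T t9685 (L l139 (L l232 (T t9578 N)))))))))))))))))⟩
def e0_64_48__85_192_47 : Ent 4 := ⟨[a0, a64, a48], [a85, a192, a80], (M a84 (L l94 (F (T t8886 (L l340 (L l350 (L l368 (L l514 (T t9690 (L l514 (T t9581 (L l232 (L l292 (L l340 (T t9691 (L l232 (L l340 (T t9578 (K a90 (M a95 (F (T t8886 (L l340 (L l350 (L l368 (L l514 (T t9690 (L l151 (L l514 (T t9581 (L l232 (L l292 (L l340 (T t9691 (L l232 (L l340 (T t9578 N)))))))))))))))))) (K a95 (M a90 (F (T t8886 (L l340 (L l350 (L l368 (L l514 (T t9690 (L l514 (T t9581 (L l232 (L l292 (L l340 (T t9691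 (L l232 (L l340 (T t9578 N))))))))))))))))) N))))))))))))))))))))⟩
def e0_64_48__85_192_48 : Ent 4 := ⟨[a0, a64, a48], [a85, a192, a81], (M a84 (L l91 (F (T t8886 (L l514 (T t9575 (L l268 (L l292 (L l344 (L l368 (T t9576 (L l86 (L l94 (L l232 (T t9577 (L l232 (T t9578 (K a89 (M a93 (F (T t8886 (L l514 (T t9575 (L l268 (L l292 (L l344 (L l368 (T t9576 (L l86 (L l88 (L l94 (L l232 (T t9577 (L l232 (T t9578 N))))))))))))))))) (K a93 (M a89 (F (T t8886 (L l514 (T t9575 (L l268 (L l292 (L l344 (L l368 (T t9576 (L l86 (L l94 (L l232 (T t9577 (L l232 (T t9578 N)))))))))))))))) N)))))))))))))))))))⟩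
def e0_64_48__85_192_49 : Ent 4 := ⟨[a0, a64, a48], [a85, a192, a82], (M a84 (F (T t8886 (L l514 (T t9575 (L l268 (L l292 (L l368 (T t9576 (L l86 (L l94 (L l232 (T t9577 (L l232 (T t9578 N)))))))))))))))⟩
def e0_64_48__85_192_50 : Ent 4 := ⟨[a0, a64, a48], [a85, a192, a83], (M a84 (F (T t8886 (L l514 (T t9575 (L l268 (L l292 (L l368 (T t9576 (L l86 (L l94 (L l232 (T t9577 (L l232 (T t9578 N)))))))))))))))⟩
def e0_64_48__85_192_51 : Ent 4 := ⟨[a0, a64, a48], [a85, a192, a86], (M a84 (F (L l126 (T t9646 (L l514 (T t9575 (L l145 (L l268 (L l292 (L l368 (L l477 (T t9576 (L l94 (L l145 (L l232 (L l369 (T t9577 (L l145 (L l232 (L l369 (T t9578 N)))))))))))))))))))))⟩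
def e0_64_48__85_192_52 : Ent 4 := ⟨[a0, a64, a48], [a85, a192, a87], (M a84 (F (T t8886 (L l514 (T t9575 (L l268 (L l292 (L l368 (T t9576 (L l94 (L l232 (T t9577 (L l232 (T t9578 N))))))))))))))⟩
def e0_64_48__85_192_53 : Ent 4 := ⟨[a0, a64, a48], [a85, a192, a90], (M a84 (L l94 (F (T t8886 (L l133 (L l514 (T t9575 (L l268 (L l292 (L l368 (T t9576 (L l232 (L l334 (T t9692 (L l232 (T t9578 (K a80 (M a95 (F (T t8886 (L l340 (L l350 (L l368 (L l514 (T t9690 (L l151 (L l514 (T t9581 (L l232 (L l292 (L l340 (T t9691 (L l232 (L l340 (T t9578 N)))))))))))))))))) (K a95 (M a80 (F (T t9598 (L l232 (T t3182 N))))) N))))))))))))))))))⟩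
def e0_64_48__85_192_54 : Ent 4 := ⟨[a0, a64, a48], [a85, a192, a91], (M a84 (F (T t8886 (L l514 (T t9575 (L l268 (L l292 (L l368 (T t9576 (L l88 (L l94 (L l232 (T t9577 (L l232 (T t9578 N)))))))))))))))⟩
def e0_64_48__85_192_55 : Ent 4 := ⟨[a0, a64, a48], [a85, a192, a95], (M a84 (L l94 (F (T t8886 (L l514 (T t9575 (L l268 (L l292 (L l368 (T t9576 (L l232 (L l334 (T t9692 (L l232 (T t9578 (K a80 (M a90 (F (T t8886 (L l340 (L l350 (L l368 (L l514 (T t9690 (L l514 (T t9581 (L l232 (L l292 (L l340 (T t9691 (L l232 (L l340 (T t9578 N))))))))))))))))) (K a90 (M a80 (F (T t9598 (L l232 (T t3182 N))))) N)))))))))))))))))⟩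
def e0_64_48__85_192_56 : Ent 4 := ⟨[a0, a64, a48], [a85, a192, a96], (M a84 (F (L l376 (T t8886 (L l100 (L l350 (L l368 (L l514 (T t9693 (L l100 (L l514 (T t9581 (L l232 (L l292 (L l376 (T t9694 (L l100 (L l232 (L l334 (L l376 (L l514 (T t9695 (K a252 (Fr a16 a32 l40 (Fr a152 a220 l364 (Fr a204 a100 l508 (Fr a104 a124 l140 (V t9696))))) N)))))))))))))))))))))))⟩
def e0_64_48__85_192_57 : Ent 4 := ⟨[a0, a64, a48], [a85, a192, a97], (M a84 (F (L l380 (T t8886 (L l514 (T t9575 (L l268 (L l292 (L l368 (T t9576 (L l94 (L l232 (L l380 (T t9577 (L l232 (L l380 (T t9578 N)))))))))))))))))⟩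
def e0_64_48__85_192_58 : Ent 4 := ⟨[a0, a64, a48], [a85, a192, a98], (M a84 (L l489 (F (T t8886 (L l514 (T t9575 (L l268 (L l292 (L l368 (L l381 (T t9576 (L l94 (L l232 (T t9577 (L l232 (T t9578 (K a145 (M a51 (F (T t8886 (L l309 (L l341 (L l365 (L l485 (T t1901 (L l296 (L l473 (L l486 (T t9697 N)))))))))))) (K a51 (M a145 (F (T t8886 (L l514 (T t9575 (L l268 (L l292 (L l368 (L l381 (L l441 (T t9576 (L l94 (L l232 (L l513 (T t9577 (L l232 (T t9666 N))))))))))))))))) N))))))))))))))))))⟩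
def e0_64_48__85_192_59 : Ent 4 := ⟨[a0, a64, a48], [a85, a192, a99], (M a84 (F (T t8886 (L l514 (T t9575 (L l105 (L l268 (L l292 (L l368 (T t9576 (L l94 (L l105 (L l232 (T t9577 (L l105 (L l232 (T t9578 N)))))))))))))))))⟩
def e0_64_48__85_192_60 : Ent 4 := ⟨[a0, a64, a48], [a85, a192, a101], (M a84 (L l123 (F (L l404 (T t8886 (L l514 (T t9575 (L l268 (L l292 (L l368 (T t9698 (L l94 (L l232 (L l404 (T t9577 (L l97 (L l232 (L l404 (L l494 (T t9578 (K a69 (M a117 (F (L l404 (T t8886 (L l489 (L l509 (T t9686 (L l97 (L l232 (L l404 (L l494 (T t9578 (L l94 (L l232 (L l404 (T t9577 N)))))))))))))))) (K a117 (M a69 (F (L l404 (T t8886 (L l101 (L l339 (L l514 (T t9699 (L l339 (L l383 (L l404 (L l455 (T t9700 N))))))))))))) N))))))))))))))))))))))⟩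
def e0_64_48__85_192_61 : Ent 4 := ⟨[a0, a64, a48], [a85, a192, a102], (M a84 (L l126 (F (T t8886 (L l514 (T t9575 (L l105 (L l268 (L l292 (L l368 (L l405 (T t9698 (L l94 (L l105 (L l232 (L l513 (T t9685 (L l97 (L l105 (L l232 (T t9578 (K a68 (M a119 (F (L l514 (T t9581 (L l123 (L l402 (L l510 (T t9701 (L l105 (L l268 (L l292 (L l368 (L l405 (T t9698 (L l232 (L l292 (T t9691 (L l97 (L l105 (L l232 (T t9578 N))))))))))))))))))))) (K a119 (M a68 (F (T t9702 (T t9703 (L l292 (T t9704 N)))))) N)))))))))))))))))))))))⟩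
def e0_64_48__85_192_62 : Ent 4 := ⟨[a0, a64, a48], [a85, a192, a103], (M a84 (F (T t8886 (L l514 (T t9575 (L l268 (L l292 (L l368 (T t9698 (L l94 (L l232 (T t9577 (L l97 (L l232 (T t9578 N)))))))))))))))⟩
def e0_64_48__85_192_63 : Ent 4 := ⟨[a0, a64, a48], [a85, a192, a106], (M a84 (L l519 (F (T t8886 (L l98 (L l514 (T t9575 (L l268 (L l292 (L l368 (L l411 (T t9576 (L l94 (L l232 (T t9577 (L l232 (L l501 (T t9578 (K a149 (M a63 (L l347 (F (T t8886 (L l339 (L l375 (L l390 (T t0 (L l98 (L l104 (L l514 (T t9583 (K a21 (M a213 (F (T t8886 (L l65 (L l98 (L l217 (L l514 (L l515 (T t9705 (L l94 (L l232 (T t9577 (L l170 (L l232 (L l501 (T t9578 N)))))))))))))))) (K a213 (Fr a21 a42 l68 (V t9706)) N)))))))))))))) (K a63 (M a149 (F (T t8886 (L l98 (L l514 (T t9575 (L l268 (L l292 (L l368 (L l411 (L l435 (T t9576 (L l94 (L l232 (L l507 (T t9577 (L l232 (L l501 (T t9578 N))))))))))))))))))) N))))))))))))))))))))⟩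
def e0_64_48__85_192_64 : Ent 4 := ⟨[a0, a64, a48], [a85, a192, a107], (M a84 (F (T t8886 (L l98 (L l514 (T t9575 (L l268 (L l292 (L l368 (T t9576 (L l94 (L l232 (T t9577 (L l232 (T t9578 N)))))))))))))))⟩
def e0_64_48__85_192_65 : Ent 4 := ⟨[a0, a64, a48], [a85, a192, a111], (M a84 (F (T t8886 (L l514 (T t9575 (L l99 (L l268 (L l292 (L l368 (T t9576 (L l94 (L l99 (L l232 (T t9577 (L l99 (L l232 (T t9578 N)))))))))))))))))⟩
def e0_64_48__85_192_66 : Ent 4 := ⟨[a0, a64, a48], [a85, a192, a112], (M a84 (F (T t8886 (L l350 (L l368 (L l514 (T t9690 (L l126 (L l232 (L l514 (T t9707 (L l110 (L l232 (L l292 (T t9691 (L l110 (L l146 (L l232 (T t9578 N)))))))))))))))))))⟩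
def e0_64_48__85_192_67 : Ent 4 := ⟨[a0, a64, a48], [a85, a192, a113], (M a84 (F (T t8886 (L l514 (T t9575 (L l268 (L l292 (L l368 (T t9576 (L l94 (L l232 (T t9577 (L l232 (T t9578 N))))))))))))))⟩
def e0_64_48__85_192_68 : Ent 4 := ⟨[a0, a64, a48], [a85, a192, a114], (M a84 (F (T t8886 (L l514 (T t9575 (L l268 (L l292 (L l368 (T t9576 (L l94 (L l232 (T t9577 (L l232 (T t9578 N))))))))))))))⟩
def e0_64_48__85_192_69 : Ent 4 := ⟨[a0, a64, a48], [a85, a192, a115], (M a84 (F (T t8886 (L l514 (T t9575 (L l115 (L l268 (L l292 (L l368 (T t9576 (L l94 (L l115 (L l232 (T t9685 (L l115 (L l232 (T t9578 N)))))))))))))))))⟩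
def e0_64_48__85_192_70 : Ent 4 := ⟨[a0, a64, a48], [a85, a192, a117], (M a84 (L l123 (F (T t8886 (L l514 (T t9575 (L l268 (L l292 (L l368 (T t9576 (L l94 (L l232 (T t9577 (L l232 (L l422 (T t9578 (K a69 (M a101 (F (T t8886 (L l107 (L l236 (T t9687 (L l236 (L l329 (T t9688 N))))))))) (K a101 (M a69 (F (L l404 (T t8886 (L l101 (L l339 (L l514 (T t9699 (L l339 (L l383 (L l404 (L l455 (T t9700 N))))))))))))) N))))))))))))))))))⟩
def e0_64_48__85_192_71 : Ent 4 := ⟨[a0, a64, a48], [a85, a192, a118], (M a84 (F (T t8886 (L l514 (T t9575 (L l115 (L l268 (L l292 (L l368 (L l441 (T t9576 (L l94 (L l115 (L l232 (T t9577 (L l115 (L l232 (T t9578 N))))))))))))))))))⟩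
def e0_64_48__85_192_72 : Ent 4 := ⟨[a0, a64, a48], [a85, a192, a119], (M a84 (L l126 (F (T t8886 (L l514 (T t9575 (L l268 (L l292 (L l368 (T t9576 (L l94 (L l232 (T t9577 (L l232 (T t9578 (K a68 (M a102 (F (L l514 (T t9708 (L l123 (L l439 (L l489 (T t9709 (L l268 (L l292 (L l368 (T t9698 (L l232 (L l292 (T t9691 N))))))))))))))) (K a102 (M a68 (F (T t9702 (T t9703 (L l292 (T t9704 N)))))) N)))))))))))))))))⟩
def e0_64_48__85_192_73 : Ent 4 := ⟨[a0, a64, a48], [a85, a192, a122], (M a84 (F (T t8886 (L l108 (L l514 (T t9575 (L l268 (L l292 (L l368 (T t9576 (L l94 (L l232 (T t9577 (L l232 (T t9578 N)))))))))))))))⟩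
def e0_64_48__85_192_74 : Ent 4 := ⟨[a0, a64, a48], [a85, a192, a123], (M a84 (F (T t8886 (L l108 (L l514 (T t9575 (L l268 (L l292 (L l368 (T t9576 (L l94 (L l232 (T t9577 (L l232 (T t9578 N)))))))))))))))⟩
def e0_64_48__85_192_75 : Ent 4 := ⟨[a0, a64, a48], [a85, a192, a127], (M a84 (F (T t8886 (L l514 (T t9575 (L l109 (L l268 (L l292 (L l368 (T t9576 (L l94 (L l109 (L l232 (T t9685 (L l109 (L l232 (T t9578 N)))))))))))))))))⟩
def e0_64_48__85_192_76 : Ent 4 := ⟨[a0, a64, a48], [a85, a192, a128], (M a84 (F (L l126 (T t3650 (L l192 (L l216 (L l514 (T t9575 (L l268 (L l292 (L l368 (T t9576 (L l94 (L l232 (T t9577 (L l232 (T t9666 N)))))))))))))))))⟩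
def e0_64_48__85_192_77 : Ent 4 := ⟨[a0, a64, a48], [a85, a192, a129], (M a84 (L l309 (F (T t8886 (L l514 (T t9575 (L l268 (L l292 (L l368 (T t9576 (L l94 (L l232 (T t9577 (L l232 (T t9578 (K a66 (M a3 (F (L l489 (T t559 (L l514 (T t9575 N)))))) (K a3 (M a66 (F (T t8886 (L l152 (L l272 (L l307 (L l451 (T t3393 (L l514 (T t9575 N)))))))))) N)))))))))))))))))⟩
def e0_64_48__85_192_78 : Ent 4 := ⟨[a0, a64, a48], [a85, a192, a130], (M a84 (F (T t8886 (L l514 (T t9575 (L l268 (L l292 (L l368 (T t9576 (L l94 (L l232 (T t9577 (L l232 (T t9578 N))))))))))))))⟩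
def e0_64_48__85_192_79 : Ent 4 := ⟨[a0, a64, a48], [a85, a192, a131], (M a84 (F (T t8886 (L l197 (L l514 (T t9575 (L l268 (L l292 (L l368 (T t9576 (L l94 (L l232 (T t9577 (L l232 (T t9578 N)))))))))))))))⟩
def e0_64_48__85_192_80 : Ent 4 := ⟨[a0, a64, a48], [a85, a192, a133], (M a84 (L l339 (F (T t8886 (L l514 (T t9575 (L l268 (L l292 (L l368 (T t9576 (L l94 (L l232 (T t9577 (L l232 (T t9578 (K a74 (M a15 (F (L l519 (T t9689 (L l514 (T t9583 N)))))) (K a15 (M a74 (F (T t8886 (L l514 (T t9575 (L l268 (L l292 (L l368 (L l471 (T t9576 (L l94 (L l232 (L l327 (T t9577 (L l160 (L l325 (L l473 (T t9580 N)))))))))))))))))) N)))))))))))))))))⟩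
def e0_64_48__85_192_81 : Ent 4 := ⟨[a0, a64, a48], [a85, a192, a134], (M a84 (F (T t8886 (L l514 (T t9575 (L l268 (L l292 (L l368 (T t9576 (L l94 (L l232 (T t9577 (L l232 (T t9578 N))))))))))))))⟩
def e0_64_48__85_192_82 : Ent 4 := ⟨[a0, a64, a48], [a85, a192, a135], (M a84 (F (T t8886 (L l514 (T t9575 (L l268 (L l292 (L l368 (T t9576 (L l94 (L l232 (T t9577 (L l232 (T t9578 N))))))))))))))⟩
def e0_64_48__85_192_83 : Ent 4 := ⟨[a0, a64, a48], [a85, a192, a138], (M a84 (F (T t8886 (L l514 (T t9575 (L l268 (L l292 (L l368 (T t9576 (L l94 (L l232 (T t9577 (L l232 (T t9578 N))))))))))))))⟩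
def e0_64_48__85_192_84 : Ent 4 := ⟨[a0, a64, a48], [a85, a192, a139], (M a84 (F (L l126 (T t3650 (L l209 (L l514 (T t9575 (L l268 (L l292 (L l368 (T t9576 (L l94 (L l232 (T t9577 (L l232 (T t9578 N))))))))))))))))⟩
def e0_64_48__85_192_85 : Ent 4 := ⟨[a0, a64, a48], [a85, a192, a143], (M a84 (F (T t8886 (L l227 (L l514 (T t9575 (L l268 (L l292 (L l368 (T t9576 (L l94 (L l232 (T t9577 (L l232 (T t9578 N)))))))))))))))⟩
def e0_64_48__85_192_86 : Ent 4 := ⟨[a0, a64, a48], [a85, a192, a144], (M a84 (F (T t8886 (L l192 (L l514 (T t9575 (L l268 (L l292 (L l340 (L l368 (T t9576 (L l94 (L l232 (L l340 (T t9577 (L l126 (L l232 (L l350 (T t9644 N)))))))))))))))))))⟩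
def e0_64_48__85_192_87 : Ent 4 := ⟨[a0, a64, a48], [a85, a192, a145], (M a84 (L l489 (F (T t8886 (L l514 (T t9575 (L l268 (L l292 (L l368 (T t9576 (L l94 (L l232 (T t9577 (L l162 (L l232 (T t9578 (K a98 (M a51 (F (T t8886 (L l309 (L l341 (L l365 (L l485 (T t1901 (L l296 (L l473 (L l486 (T t9697 N)))))))))))) (K a51 (M a98 (F (T t8886 (L l196 (L l228 (L l415 (L l487 (T t9665 (L l514 (T t9583 N)))))))))) N))))))))))))))))))⟩
def e0_64_48__85_192_88 : Ent 4 := ⟨[a0, a64, a48], [a85, a192, a146], (M a84 (F (T t8886 (L l197 (L l514 (T t9575 (L l268 (L l292 (L l344 (L l368 (T t9576 (L l94 (L l232 (T t9577 (L l162 (L l232 (T t9578 N)))))))))))))))))⟩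
def e0_64_48__85_192_89 : Ent 4 := ⟨[a0, a64, a48], [a85, a192, a147], (M a84 (F (T t8886 (L l514 (T t9575 (L l268 (L l292 (L l368 (T t9576 (L l94 (L l232 (T t9577 (L l126 (L l232 (L l350 (T t9644 N))))))))))))))))⟩
def e0_64_48__85_192_90 : Ent 4 := ⟨[a0, a64, a48], [a85, a192, a149], (M a204 (L l347 (L l519 (F (L l292 (T t2046 (L l334 (L l458 (T t9667 (L l334 (T t9648 (L l268 (L l292 (L l368 (T t9649 (K a21 (M a213 (L l519 (F (L l292 (T t2046 (L l18 (L l334 (L l368 (L l514 (T t9647 (L l334 (T t9648 (L l18 (L l268 (L l292 (L l368 (T t9649 (K a106 (M a63 (F (L l292 (T t2046 (L l15 (L l132 (L l167 (L l334 (L l371 (T t9650 (L l18 (L l268 (L l292 (L l368 (L l411 (T t9649 N)))))))))))))))) (K a63 (M a106 (F (L l126 (T t9651 (L l18 (L l33 (L l334 (L l368 (L l514 (T t9647 (L l334 (T t9648 (L l18 (L l268 (L l292 (L l368 (L l435 (T t9649 N)))))))))))))))))) N))))))))))))))))))) (K a213 (M a21 (L l296 (L l519 (F (L l455 (T t9710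 (L l334 (T t9648 (K a106 (Fr a63 a42 l68 (V t8593)) (K a234 (M a255 (L l519 (F (L l292 (T t1317 (L l220 (L l268 (L l390 (T t9711 (K a106 (Fr a63 a42 l68 (M a170 (F (L l123 (L l368 (T t9712 (L l26 (L l243 (L l365 (L l489 (T t9713 N))))))))))) (K a63 (M a106 (F (L l368 (T t5482 (L l334 (T t9670 (L l292 (L l368 (L l435 (T t1315 (L l220 (L l243 (L l365 (L l368 (T t9671 (K a100 (M a12 (F (T t9672 (L l33 (L l382 (L l458 (L l514 (T t550 N)))))))) (K a136 (M a24 (F (T t9673 (L l61 (L l350 (L l375 (T t9674 N))))))) (K a152 (M a12 (F (L l204 (T t9672 (L l33 (L l458 (L l496 (L l514 (T t550 N))))))))) (K a168 (M a12 (F (T t9675 (L l33 (L l458 (L l514 (T t550 N))))))) N))))))))))))))))))) N))))))))))) (K a63 (M a106 (L l296 (F (L l126 (T t4994 (L l334 (L l458 (T t9668 (L l334 (T t9648 (L l292 (L l435 (T t9669 (K a234 (M a255 (F (L l368 (T t5482 (L l334 (T t9670 (L l292 (L l368 (L l435 (T t1315 (L l220 (L l243 (L l365 (L l368 (T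 t9671 (K a100 (M a12 (F (T t9672 (L l33 (L l382 (L l458 (L l514 (T t550 N)))))))) (K a136 (M a24 (F (T t9673 (L l61 (L l350 (L l375 (T t9674 N))))))) (K a152 (M a12 (F (L l204 (T t9672 (L l33 (L l458 (L l496 (L l514 (T t550 N))))))))) (K a168 (M a12 (F (T t9675 (L l33 (L l458 (L l514 (T t550 N))))))) N))))))))))))))))))) (K a255 (M a234 (L l433 (F (L l126 (T t4994 (L l61 (L l123 (L l275 (L l368 (L l491 (T t9676 (L l37 (L l126 (L l243 (L l439 (T t9677 (K a127 (M a191 (F (L l368 (T t5482 (L l37 (L l126 (L l243 (L l439 (T t9677 (L l61 (L l123 (L l275 (L l368 (L l491 (T t9676 N))))))))))))))) (K a191 (M a127 (L l220 (F (L l368 (T t5482 (L l37 (L l126 (L l189 (L l243 (L l439 (T t9677 (L l123 (L l275 (L l368 (L l491 (T t9678 (K a128 (Fr a170 a42 l390 (V t1315)) (K a170 (M a128 (F (L l126 (L l404 (T t9651 (L l190 (L l208 (L l334 (T t9679 (L l33 (L l126 (L l202 (L l334 (L l404 (L l434 (L l514 (T t9680 (L l261 (L l292 (L l404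 (L l435 (T t9681 N)))))))))))))))))))))) N)))))))))))))))))) N)))))))))))))))))) N))))))))))))))) (K a255 (M a234 (L l519 (F (L l375 (T t9326 (L l334 (T t9648 (K a106 (Fr a63 a42 l68 (V t8593)) (K a63 (M a106 (L l433 (F (L l126 (T t4994 (L l61 (L l123 (L l275 (L l368 (L l491 (T t9676 (L l37 (L l126 (L l243 (L l439 (T t9677 (K a127 (M a191 (F (L l368 (T t5482 (L l37 (L l126 (L l243 (L l439 (T t9677 (L l61 (L l123 (L l275 (L l368 (L l491 (T t9676 N))))))))))))))) (K a191 (M a127 (L l220 (F (L l368 (T t5482 (L l37 (L l126 (L l189 (L l243 (L l439 (T t9677 (L l123 (L l275 (L l368 (L l491 (T t9678 (K a128 (Fr a170 a42 l390 (V t1315)) (K a170 (M a128 (F (L l126 (L l404 (T t9651 (L l190 (L l208 (L l334 (T t9679 (L l33 (L l126 (L l202 (L l334 (L l404 (L l434 (L l514 (T t9680 (L l261 (L l292 (L l404 (L l435 (T t9681 N)))))))))))))))))))))) N)))))))))))))))))) N)))))))))))))))))) N))))))))) N)))))))))))) (K a106 (M a63 (L l347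 (F (L l292 (T t1317 (L l339 (L l390 (L l455 (L l498 (T t2 (L l104 (L l132 (L l334 (T t9648 (K a21 (M a213 (F (L l292 (T t2046 (L l15 (L l132 (L l167 (L l334 (L l371 (T t9650 (L l18 (L l268 (L l292 (L l368 (L l411 (T t9649 N)))))))))))))))) (K a213 (Fr a21 a42 l68 (V t8593)) N)))))))))))))))) (K a63 (M a106 (L l347 (F (L l368 (T t5482 (L l334 (L l458 (T t9667 (L l334 (T t9648 (L l268 (L l292 (L l368 (L l435 (T t9649 (K a21 (M a213 (F (L l126 (T t9651 (L l18 (L l33 (L l334 (L l368 (L l514 (T t9647 (L l334 (T t9648 (L l18 (L l268 (L l292 (L l368 (L l435 (T t9649 N)))))))))))))))))) (K a213 (M a21 (L l296 (F (L l126 (T t4994 (L l334 (L l458 (T t9668 (L l334 (T t9648 (L l292 (L l435 (T t9669 (K a234 (M a255 (F (L l368 (T t5482 (L l334 (T t9670 (L l292 (L l368 (L l435 (T t1315 (L l220 (L l243 (L l365 (L l368 (T t9671 (K a100 (M a12 (F (T t9672 (L l33 (L l382 (L l458 (L l514 (T t550 N)))))))) (K a136 (M a24 (F (T t9673 (L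 l61 (L l350 (L l375 (T t9674 N))))))) (K a152 (M a12 (F (L l204 (T t9672 (L l33 (L l458 (L l496 (L l514 (T t550 N))))))))) (K a168 (M a12 (F (T t9675 (L l33 (L l458 (L l514 (T t550 N))))))) N))))))))))))))))))) (K a255 (M a234 (L l433 (F (L l126 (T t4994 (L l61 (L l123 (L l275 (L l368 (L l491 (T t9676 (L l37 (L l126 (L l243 (L l439 (T t9677 (K a127 (M a191 (F (L l368 (T t5482 (L l37 (L l126 (L l243 (L l439 (T t9677 (L l61 (L l123 (L l275 (L l368 (L l491 (T t9676 N))))))))))))))) (K a191 (M a127 (L l220 (F (L l368 (T t5482 (L l37 (L l126 (L l189 (L l243 (L l439 (T t9677 (L l123 (L l275 (L l368 (L l491 (T t9678 (K a128 (Fr a170 a42 l390 (V t1315)) (K a170 (M a128 (F (L l126 (L l404 (T t9651 (L l190 (L l208 (L l334 (T t9679 (L l33 (L l126 (L l202 (L l334 (L l404 (L l434 (L l514 (T t9680 (L l261 (L l292 (L l404 (L l435 (T t9681 N)))))))))))))))))))))) N)))))))))))))))))) N)))))))))))))))))) N))))))))))))))) N)))))))))))))))))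 N)))))))))))))))))))⟩
def e0_64_48__85_192_91 : Ent 4 := ⟨[a0, a64, a48], [a85, a192, a150], (M a81 (L l350 (F (L l141 (T t9714 (L l489 (T t9715 (L l268 (L l272 (L l368 (T t9716 (L l94 (L l228 (L l374 (L l518 (T t9717 (L l141 (L l228 (L l365 (L l374 (L l516 (T t9718 (K a20 (M a215 (F (L l374 (T t8944 (L l489 (T t9715 (L l14 (L l268 (L l272 (L l368 (T t9716 (L l141 (L l228 (L l374 (L l489 (L l518 (T t9719 (L l141 (L l228 (L l365 (L l374 (L l516 (T t9718 N))))))))))))))))))))))) (K a215 (M a20 (F (L l458 (T t5912 (L l489 (T t9720 N)))))) N))))))))))))))))))))))))⟩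
def e0_64_48__85_192_92 : Ent 4 := ⟨[a0, a64, a48], [a85, a192, a151], (M a84 (F (T t8886 (L l514 (T t9575 (L l268 (L l292 (L l368 (T t9576 (L l94 (L l232 (T t9577 (L l232 (T t9666 N))))))))))))))⟩
def e0_64_48__85_192_93 : Ent 4 := ⟨[a0, a64, a48], [a85, a192, a154], (M a84 (L l368 (F (L l126 (T t3650 (L l334 (L l350 (L l514 (T t9721 (L l209 (L l514 (T t9583 (L l94 (L l232 (T t9577 (L l170 (L l232 (T t9578 (K a16 (M a223 (F (L l209 (L l500 (L l514 (T t9581 (L l209 (L l334 (L l514 (T t9582 (L l209 (L l514 (T t9583 (K a176 (Fr a252 a168 l472 (Fr a124 a104 l140 (Fr a60 a188 l430 (Fr a52 a56 l34 (Fr a116 a184 l436 (Fr a180 a244 l418 (V t9743))))))) (K a148 (M a60 (F (T t9585 (L l268 (L l500 (T t9586 (L l216 (L l227 (L l268 (T t9587 (L l198 (L l216 (L l500 (T t9588 N)))))))))))))) (K a116 (M a80 (F (T t9629 (L l126 (T t9106 (L l292 (T t8991 N))))))) (K a136 (M a116 (F (T t9597 (L l126 (L l514 (T t9081 N)))))) (K a152 (M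 a116 (L l164 (F (T t9597 (L l126 (L l496 (L l514 (T t9081 (K a153 (M a155 (L l365 (F (T t9597 (L l126 (L l496 (L l514 (T t9081 (K a17 (M a221 (L l10 (F (T t9597 (L l126 (L l496 (L l514 (T t9081 (K a18 (Fr a19 a87 l367 (V t9597)) (K a19 (M a18 (L l369 (F (T t9597 (L l126 (L l496 (L l514 (T t9081 (K a220 (M a86 (F (T t9597 (L l126 (L l496 (L l514 (T t9081 N))))))) (K a86 (Fr a220 a222 l241 (V t9597)) N)))))))))) N)))))))))) (K a221 (M a17 (F (T t9597 (L l126 (L l496 (L l514 (T t9081 N))))))) N)))))))))) (K a155 (M a153 (F (T t9597 (L l126 (L l496 (L l514 (T t9081 N))))))) N)))))))))) (K a40 (M a80 (F (T t9598 (L l126 (T t8911 (L l292 (T t8991 N))))))) (K a104 (M a240 (L l514 (F (T t7812 (L l334 (L l388 (T t8887 (L l388 (L l496 (L l500 (T t9602 (K a148 (M a60 (F (T t7812 (L l216 (L l334 (L l388 (T t8887 (L l198 (L l292 (L l490 (T t9603 N))))))))))) (K a60 (M a148 (F (T t7812 (L l209 (L l388 (L l458 (T t9604 N))))))) N)))))))))))))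 (K a168 (M a80 (F (T t9598 (L l126 (T t8911 (L l176 (L l204 (L l209 (L l334 (L l458 (L l460 (T t9607 N)))))))))))) (K a232 (M a240 (L l292 (F (T t7812 (L l334 (L l388 (T t8887 (L l388 (L l500 (L l514 (T t9609 (K a212 (Fr a252 a168 l472 (V t7812)) (K a252 (M a212 (F (T t7812 (L l388 (L l500 (L l514 (T t9610 N))))))) N))))))))))))) (K a120 (M a60 (F (T t9082 (L l126 (L l424 (L l500 (T t9612 N))))))) (K a184 (M a240 (L l209 (F (T t7812 (L l204 (L l334 (T t8887 (L l186 (L l204 (L l227 (L l514 (T t9613 (K a169 (M a139 (L l473 (F (T t7812 (L l174 (L l204 (L l334 (T t8887 (L l174 (L l186 (L l204 (L l227 (L l514 (T t9613 (K a1 (M a253 (F (T t7812 (L l174 (L l204 (L l272 (L l449 (T t8869 N)))))))) (K a253 (M a1 (F (L l458 (T t6890 (L l177 (L l228 (L l401 (T t9614 N)))))))) N)))))))))))))))) (K a139 (M a169 (F (T t7812 (L l204 (L l309 (L l319 (L l331 (T t8889 N)))))))) N)))))))))))))) (K a60 (M a112 (L l514 (F (T t9593 (L l209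 (T t9630 (K a148 (Fr a104 a124 l140 (V t9593)) (K a104 (M a148 (F (L l227 (T t9590 (L l126 (L l209 (L l388 (T t9631 (L l126 (L l209 (L l227 (L l388 (T t9632 N))))))))))))) N)))))))) (K a124 (M a240 (F (T t7812 (L l134 (L l334 (T t8887 (L l110 (L l430 (L l500 (L l514 (T t9609 N))))))))))) (K a252 (M a100 (L l292 (F (T t9618 (L l334 (L l514 (T t9619 (L l164 (L l232 (L l430 (L l500 (T t9620 (K a212 (M a232 (F (T t9618 (L l274 (L l430 (T t9622 N)))))) (K a232 (M a212 (F (T t9618 (L l94 (L l334 (L l340 (T t9625 (L l164 (L l430 (T t9624 N)))))))))) N)))))))))))))) (K a169 (M a116 (L l209 (L l473 (F (T t9597 (L l126 (L l514 (T t9081 (K a184 (M a139 (L l473 (F (L l424 (L l514 (T t8862 (L l205 (L l232 (L l236 (T t9633 (L l174 (L l186 (L l204 (L l221 (L l424 (L l500 (L l514 (T t9634 (L l126 (L l174 (L l186 (L l204 (L l221 (L l232 (L l424 (L l500 (L l514 (T t9635 (K a1 (M a253 (F (L l186 (L l227 (L l424 (L l514 (T t9636 (L l126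 (L l174 (L l184 (L l204 (L l206 (T t9637 N))))))))))))) (K a253 (M a1 (F (L l123 (T t9638 (L l186 (L l227 (L l424 (L l514 (T t9636 N))))))))) N)))))))))))))))))))))))))))))) (K a1 (M a253 (L l209 (F (T t9597 (L l126 (L l514 (T t9081 (K a184 (M a139 (F (L l186 (L l227 (L l424 (L l514 (T t9636 (L l126 (L l174 (L l184 (L l204 (L l206 (T t9637 N))))))))))))) (K a139 (Fr a184 a252 l436 (V t9081)) N))))))))) (K a253 (M a1 (L l209 (F (T t9597 (L l126 (L l514 (T t9081 (K a184 (M a139 (F (L l123 (T t9638 (L l186 (L l227 (L l424 (L l514 (T t9636 N))))))))) (K a139 (Fr a184 a252 l436 (V t9081)) N))))))))) (K a139 (Fr a184 a252 l436 (V t9081)) N)))))))))))) (K a139 (M a116 (L l209 (F (T t9597 (L l126 (L l514 (T t9081 (K a184 (M a169 (F (L l424 (L l514 (T t8862 (L l126 (L l164 (L l204 (L l207 (L l292 (T t9639 (L l186 (L l204 (L l424 (L l500 (L l514 (T t9634 N))))))))))))))))) (K a169 (Fr a184 a252 l436 (V t9081)) N))))))))) N)))))))))))))))))))))))))))))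 (K a223 (Fr a16 a32 l40 (V t9722)) N))))))))))))))))))))⟩
def e0_64_48__85_192_94 : Ent 4 := ⟨[a0, a64, a48], [a85, a192, a155], (M a84 (F (T t8886 (L l514 (T t9575 (L l268 (L l292 (L l368 (T t9576 (L l94 (L l232 (T t9577 (L l232 (T t9578 N))))))))))))))⟩
def e0_64_48__85_192_95 : Ent 4 := ⟨[a0, a64, a48], [a85, a192, a159], (M a84 (F (T t8886 (L l514 (T t9575 (L l268 (L l292 (L l368 (T t9576 (L l94 (L l232 (T t9577 (L l126 (L l232 (L l350 (T t9644 N))))))))))))))))⟩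
def e0_64_48__85_192_96 : Ent 4 := ⟨[a0, a64, a48], [a85, a192, a160], (M a84 (F (L l126 (L l376 (T t3650 (L l176 (L l514 (T t9723 (L l176 (L l350 (L l368 (L l514 (T t9693 (L l94 (L l232 (L l376 (T t9577 (L l192 (L l232 (L l376 (T t9578 N)))))))))))))))))))))⟩
def e0_64_48__85_192_97 : Ent 4 := ⟨[a0, a64, a48], [a85, a192, a161], (M a84 (F (T t8886 (L l197 (L l514 (T t9575 (L l268 (L l292 (L l368 (L l381 (T t9576 (L l94 (L l232 (T t9577 (L l232 (T t9578 N))))))))))))))))⟩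
def e0_64_48__85_192_98 : Ent 4 := ⟨[a0, a64, a48], [a85, a192, a162], (M a84 (F (L l380 (T t8886 (L l514 (T t9575 (L l268 (L l292 (L l368 (T t9576 (L l94 (L l232 (L l380 (T t9577 (L l232 (L l380 (T t9578 N)))))))))))))))))⟩
def e0_64_48__85_192_99 : Ent 4 := ⟨[a0, a64, a48], [a85, a192, a163], (M a84 (F (T t8886 (L l514 (T t9575 (L l268 (L l292 (L l368 (T t9576 (L l94 (L l232 (T t9577 (L l232 (T t9578 N))))))))))))))⟩
def e0_64_48__85_192_100 : Ent 4 := ⟨[a0, a64, a48], [a85, a192, a165], (M a84 (L l455 (F (T t8886 (L l227 (L l514 (T t9575 (L l268 (L l292 (L l368 (L l411 (T t9576 (L l94 (L l232 (T t9577 (L l232 (T t9578 (K a5 (M a245 (F (T t8886 (L l227 (L l514 (T t9575 (L l268 (L l292 (L l368 (L l411 (T t9576 (L l94 (L l232 (T t9577 (L l232 (T t9578 N)))))))))))))))) (K a245 (M a5 (F (T t8886 (L l419 (L l519 (T t9724 (L l514 (T t9583 N)))))))) N)))))))))))))))))))⟩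
def e0_64_48__85_192_101 : Ent 4 := ⟨[a0, a64, a48], [a85, a192, a166], (M a84 (L l458 (F (T t8886 (L l514 (T t9575 (L l268 (L l292 (L l368 (T t9576 (L l94 (L l232 (T t9577 (L l232 (T t9578 (K a4 (M a247 (F (T t8886 (L l514 (T t9575 (L l268 (L l292 (L l368 (T t9576 (L l94 (L l232 (T t9577 (L l46 (L l232 (T t9578 N))))))))))))))) (K a247 (M a4 (F (T t8886 (L l94 (L l259 (T t9725 (L l422 (L l514 (T t528 N))))))))) N)))))))))))))))))⟩
def e0_64_48__85_192_102 : Ent 4 := ⟨[a0, a64, a48], [a85, a192, a167], (M a84 (F (T t8886 (L l514 (T t9575 (L l268 (L l292 (L l368 (T t9576 (L l94 (L l232 (T t9577 (L l232 (T t9578 N))))))))))))))⟩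
def e0_64_48__85_192_103 : Ent 4 := ⟨[a0, a64, a48], [a85, a192, a170], (M a84 (F (L l126 (L l404 (T t3650 (L l174 (L l514 (T t9575 (L l268 (L l292 (L l368 (T t9576 (L l94 (L l232 (L l404 (T t9577 (L l232 (L l404 (T t9578 N)))))))))))))))))))⟩
def e0_64_48__85_192_104 : Ent 4 := ⟨[a0, a64, a48], [a85, a192, a171], (M a84 (F (L l126 (T t3650 (L l174 (L l514 (T t9575 (L l268 (L l292 (L l368 (T t9576 (L l94 (L l232 (T t9577 (L l232 (T t9578 N))))))))))))))))⟩
def e0_64_48__85_192_105 : Ent 4 := ⟨[a0, a64, a48], [a85, a192, a175], (M a84 (F (T t8886 (L l514 (T t9575 (L l268 (L l292 (L l368 (T t9576 (L l94 (L l232 (T t9577 (L l232 (T t9578 N))))))))))))))⟩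
def e0_64_48__85_192_106 : Ent 4 := ⟨[a0, a64, a48], [a85, a192, a176], (M a84 (F (L l126 (T t3650 (L l268 (L l292 (L l368 (T t9576 (L l126 (L l186 (L l232 (T t3280 (L l232 (L l334 (T t9692 (L l192 (L l232 (T t9578 (K a16 (Fr a252 a168 l472 (Fr a124 a104 l140 (Fr a60 a188 l430 (Fr a52 a56 l34 (Fr a116 a184 l436 (Fr a180 a244 l418 (V t9743))))))) (K a32 (Fr a252 a168 l472 (Fr a124 a104 l140 (Fr a60 a188 l430 (Fr a52 a56 l34 (Fr a116 a184 l436 (Fr a180 a244 l418 (V t9743))))))) (K a100 (Fr a252 a168 l472 (Fr a124 a104 l140 (Fr a60 a188 l430 (Fr a52 a56 l34 (Fr a116 a184 l436 (Fr a180 a244 l418 (V t9743))))))) (K a204 (Fr a252 a168 l472 (Fr a124 a104 l140 (Fr a60 a188 l430 (Fr a52 a56 l34 (Fr a116 a184 l436 (Fr a180 a244 l418 (V t9743))))))) (K a220 (Fr a32 a16 l40 (Fr a168 a252 l472 (Fr a100 a236 l400 (Fr a204 a152 l508 (V t9744))))) N)))))))))))))))))))))))⟩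
def e0_64_48__85_192_107 : Ent 4 := ⟨[a0, a64, a48], [a85, a192, a177], (M a84 (F (T t8886 (L l182 (L l514 (T t9575 (L l268 (L l292 (L l368 (T t9576 (L l94 (L l232 (T t9577 (L l232 (T t9578 N)))))))))))))))⟩
def e0_64_48__85_192_108 : Ent 4 := ⟨[a0, a64, a48], [a85, a192, a178], (M a84 (F (T t8886 (L l182 (L l514 (T t9575 (L l268 (L l292 (L l368 (T t9576 (L l94 (L l232 (T t9577 (L l232 (T t9578 N)))))))))))))))⟩
def e0_64_48__85_192_109 : Ent 4 := ⟨[a0, a64, a48], [a85, a192, a179], (M a84 (F (T t8886 (L l182 (L l514 (T t9575 (L l268 (L l292 (L l368 (T t9576 (L l94 (L l232 (T t9577 (L l232 (T t9578 N)))))))))))))))⟩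
def e0_64_48__85_192_110 : Ent 4 := ⟨[a0, a64, a48], [a85, a192, a181], (M a84 (F (T t8886 (L l190 (L l514 (T t9575 (L l268 (L l292 (L l368 (T t9576 (L l94 (L l232 (T t9577 (L l232 (T t9578 N)))))))))))))))⟩
def e0_64_48__85_192_111 : Ent 4 := ⟨[a0, a64, a48], [a85, a192, a182], (M a84 (F (T t8886 (L l514 (T t9575 (L l268 (L l292 (L l368 (T t9576 (L l94 (L l232 (T t9577 (L l232 (L l422 (T t9578 N)))))))))))))))⟩
def e0_64_48__85_192_112 : Ent 4 := ⟨[a0, a64, a48], [a85, a192, a183], (M a84 (F (T t8886 (L l514 (T t9575 (L l268 (L l292 (L l368 (T t9576 (L l94 (L l232 (T t9577 (L l232 (T t9578 N))))))))))))))⟩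
def e0_64_48__85_192_113 : Ent 4 := ⟨[a0, a64, a48], [a85, a192, a186], (M a84 (F (L l126 (T t3650 (L l184 (L l190 (L l514 (T t9575 (L l268 (L l292 (L l368 (T t9576 (L l94 (L l232 (T t9577 (L l232 (T t9578 N)))))))))))))))))⟩
def e0_64_48__85_192_114 : Ent 4 := ⟨[a0, a64, a48], [a85, a192, a187], (M a84 (F (L l126 (T t3650 (L l184 (L l514 (T t9575 (L l268 (L l292 (L l368 (T t9576 (L l94 (L l232 (T t9577 (L l232 (T t9578 N))))))))))))))))⟩
def e0_64_48__85_192_115 : Ent 4 := ⟨[a0, a64, a48], [a85, a192, a191], (M a84 (F (T t8886 (L l190 (L l514 (T t9575 (L l268 (L l292 (L l368 (T t9576 (L l94 (L l232 (T t9577 (L l232 (T t9578 N)))))))))))))))⟩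
def e0_64_48__85_192_116 : Ent 4 := ⟨[a0, a64, a48], [a85, a192, a193], (M a84 (L l228 (F (T t8886 (L l514 (T t9575 (L l268 (L l292 (L l368 (T t9576 (L l94 (L l232 (T t9577 (L l232 (T t9578 (K a194 (M a195 (F (T t8886 (L l272 (L l368 (L l486 (T t5818 (L l306 (L l350 (L l514 (L l516 (T t9727 N)))))))))))) (K a195 (M a194 (F (T t8886 (L l514 (T t9575 (L l268 (L l292 (L l297 (L l368 (T t9576 (L l94 (L l232 (L l237 (T t9577 (L l232 (T t9578 N)))))))))))))))) N)))))))))))))))))⟩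
def e0_64_48__85_192_117 : Ent 4 := ⟨[a0, a64, a48], [a85, a192, a194], (M a84 (L l228 (F (T t8886 (L l514 (T t9575 (L l268 (L l292 (L l368 (T t9576 (L l94 (L l232 (T t9577 (L l232 (T t9578 (K a193 (M a195 (F (T t8886 (L l272 (L l368 (L l486 (T t5818 (L l306 (L l350 (L l514 (L l516 (T t9727 N)))))))))))) (K a195 (M a193 (F (T t8886 (L l514 (T t9575 (L l268 (L l292 (L l297 (L l368 (T t9576 (L l94 (L l232 (L l237 (T t9577 (L l232 (T t9578 N)))))))))))))))) N)))))))))))))))))⟩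
def e0_64_48__85_192_118 : Ent 4 := ⟨[a0, a64, a48], [a85, a192, a195], (M a84 (L l228 (F (T t8886 (L l514 (T t9575 (L l268 (L l292 (L l297 (L l368 (T t9576 (L l94 (L l232 (L l237 (T t9577 (L l232 (T t9578 (K a193 (M a194 (F (T t8886 (L l514 (T t9575 (L l268 (L l292 (L l297 (L l368 (T t9576 (L l94 (L l232 (L l237 (T t9577 (L l232 (T t9578 N)))))))))))))))) (K a194 (M a193 (F (T t8886 (L l514 (T t9575 (L l268 (L l292 (L l297 (L l368 (T t9576 (L l94 (L l232 (L l237 (T t9577 (L l232 (T t9578 N)))))))))))))))) N)))))))))))))))))))⟩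
def e0_64_48__85_192_119 : Ent 4 := ⟨[a0, a64, a48], [a85, a192, a197], (M a84 (L l236 (F (T t8886 (L l514 (T t9575 (L l268 (L l292 (L l368 (T t9576 (L l94 (L l232 (T t9577 (L l232 (T t9578 (K a202 (M a207 (F (T t8886 (L l318 (L l514 (T t9728 (L l123 (L l489 (L l491 (T t9729 (K a168 (M a80 (F (T t9598 (L l216 (L l400 (L l514 (T t9730 N))))))) N))))))))))) (K a207 (M a202 (F (T t8886 (L l514 (T t9575 (L l268 (L l291 (L l292 (L l368 (T t9576 (L l94 (L l231 (L l232 (T t9577 (L l232 (T t9578 N)))))))))))))))) N)))))))))))))))))⟩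
def e0_64_48__85_192_120 : Ent 4 := ⟨[a0, a64, a48], [a85, a192, a198], (M a84 (F (T t8886 (L l514 (T t9575 (L l268 (L l292 (L l368 (T t9576 (L l94 (L l232 (L l237 (T t9577 (L l232 (T t9578 N)))))))))))))))⟩
def e0_64_48__85_192_121 : Ent 4 := ⟨[a0, a64, a48], [a85, a192, a199], (M a84 (F (T t8886 (L l514 (T t9575 (L l268 (L l292 (L l368 (T t9576 (L l94 (L l232 (T t9577 (L l232 (L l494 (T t9578 N)))))))))))))))⟩
def e0_64_48__85_192_122 : Ent 4 := ⟨[a0, a64, a48], [a85, a192, a202], (M a84 (L l236 (F (T t8886 (L l514 (T t9575 (L l268 (L l292 (L l368 (T t9576 (L l94 (L l232 (T t9577 (L l230 (L l232 (T t9578 (K a197 (M a207 (F (T t8886 (L l318 (L l514 (T t9728 (L l123 (L l489 (L l491 (T t9729 (K a168 (M a80 (F (T t9598 (L l216 (L l400 (L l514 (T t9730 N))))))) N))))))))))) (K a207 (M a197 (F (T t8886 (L l514 (T t9575 (L l268 (L l291 (L l292 (L l368 (T t9576 (L l94 (L l231 (L l232 (T t9577 (L l230 (L l232 (T t9578 N)))))))))))))))))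 N))))))))))))))))))⟩
def e0_64_48__85_192_123 : Ent 4 := ⟨[a0, a64, a48], [a85, a192, a203], (M a84 (F (T t8886 (L l514 (T t9575 (L l268 (L l292 (L l368 (T t9576 (L l94 (L l232 (T t9577 (L l230 (L l232 (T t9578 N)))))))))))))))⟩
def e0_64_48__85_192_124 : Ent 4 := ⟨[a0, a64, a48], [a85, a192, a207], (M a84 (L l236 (F (T t8886 (L l514 (T t9575 (L l268 (L l291 (L l292 (L l368 (T t9576 (L l94 (L l231 (L l232 (T t9577 (L l232 (T t9578 (K a197 (M a202 (F (T t8886 (L l514 (T t9575 (L l268 (L l291 (L l292 (L l368 (T t9576 (L l94 (L l231 (L l232 (T t9577 (L l232 (T t9578 N)))))))))))))))) (K a202 (M a197 (F (T t8886 (L l514 (T t9575 (L l268 (L l291 (L l292 (L l368 (T t9576 (L l94 (L l231 (L l232 (T t9577 (L l230 (L l232 (T t9578 N))))))))))))))))) N)))))))))))))))))))⟩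
def e0_64_48__85_192_125 : Ent 4 := ⟨[a0, a64, a48], [a85, a192, a208], (M a84 (L l268 (F (L l242 (L l292 (T t9085 (L l514 (T t9575 (L l94 (L l232 (L l242 (L l340 (L l370 (T t9577 (L l292 (L l340 (L l368 (T t9731 (L l232 (L l242 (L l340 (T t9578 (K a224 (M a240 (F (T t9600 (L l126 (L l232 (T t3280 N)))))) (K a240 (M a224 (F (L l242 (T t8886 (L l262 (L l292 (L l340 (L l368 (T t9732 (L l126 (L l442 (L l514 (T t9733 (L l340 (L l368 (T t9734 N)))))))))))))))) N))))))))))))))))))))))))⟩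
def e0_64_48__85_192_126 : Ent 4 := ⟨[a0, a64, a48], [a85, a192, a209], (M a84 (L l272 (F (T t8886 (L l514 (T t9575 (L l268 (L l292 (L l368 (T t9576 (L l94 (L l232 (T t9577 (L l232 (T t9578 (K a226 (M a243 (F (T t8886 (L l91 (L l228 (L l341 (T t6964 (L l378 (L l514 (T t9735 N)))))))))) (K a243 (M a226 (F (T t8886 (L l514 (T t9575 (L l267 (L l268 (L l292 (L l368 (T t9576 (L l94 (L l232 (L l302 (T t9577 (L l232 (T t9578 N)))))))))))))))) N)))))))))))))))))⟩
def e0_64_48__85_192_127 : Ent 4 := ⟨[a0, a64, a48], [a85, a192, a210], (M a84 (F (T t8886 (L l514 (T t9575 (L l268 (L l292 (L l368 (T t9576 (L l94 (L l232 (T t9577 (L l232 (T t9578 N))))))))))))))⟩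
def e0_64_48__85_192_128 : Ent 4 := ⟨[a0, a64, a48], [a85, a192, a211], (M a84 (F (L l126 (T t9646 (L l514 (T t9575 (L l268 (L l292 (L l344 (L l368 (T t9576 (L l94 (L l232 (L l247 (T t9577 (L l232 (L l247 (T t9578 N))))))))))))))))))⟩
def e0_64_48__85_192_129 : Ent 4 := ⟨[a0, a64, a48], [a85, a192, a213], (M a204 (L l296 (L l347 (F (L l292 (T t2046 (L l334 (L l458 (T t9667 (L l334 (T t9648 (L l268 (L l292 (L l368 (T t9649 (K a21 (M a149 (L l296 (F (L l292 (T t2046 (L l18 (L l334 (L l368 (L l514 (T t9647 (L l334 (T t9648 (L l18 (L l268 (L l292 (L l368 (T t9649 (K a234 (M a255 (F (L l292 (T t1317 (L l334 (T t9652 (L l18 (L l256 (L l268 (L l292 (L l368 (T t9649 N)))))))))))) (K a255 (M a234 (F (L l126 (T t4994 (L l18 (L l334 (L l368 (L l434 (L l514 (T t9647 (L l334 (T t9648 (L l18 (L l261 (L l268 (L l292 (L l368 (T t9649 N)))))))))))))))))) N))))))))))))))))))) (K a149 (M a21 (L l296 (L l519 (F (L l455 (T t9710 (L l334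 (T t9648 (K a106 (Fr a63 a42 l68 (V t8593)) (K a234 (M a255 (L l519 (F (L l292 (T t1317 (L l220 (L l268 (L l390 (T t9711 (K a106 (Fr a63 a42 l68 (M a170 (F (L l123 (L l368 (T t9712 (L l26 (L l243 (L l365 (L l489 (T t9713 N))))))))))) (K a63 (M a106 (F (L l368 (T t5482 (L l334 (T t9670 (L l292 (L l368 (L l435 (T t1315 (L l220 (L l243 (L l365 (L l368 (T t9671 (K a100 (M a12 (F (T t9672 (L l33 (L l382 (L l458 (L l514 (T t550 N)))))))) (K a136 (M a24 (F (T t9673 (L l61 (L l350 (L l375 (T t9674 N))))))) (K a152 (M a12 (F (L l204 (T t9672 (L l33 (L l458 (L l496 (L l514 (T t550 N))))))))) (K a168 (M a12 (F (T t9675 (L l33 (L l458 (L l514 (T t550 N))))))) N))))))))))))))))))) N))))))))))) (K a63 (M a106 (L l296 (F (L l126 (T t4994 (L l334 (L l458 (T t9668 (L l334 (T t9648 (L l292 (L l435 (T t9669 (K a234 (M a255 (F (L l368 (T t5482 (L l334 (T t9670 (L l292 (L l368 (L l435 (T t1315 (L l220 (L l243 (L l365 (L l368 (T t9671 (K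 a100 (M a12 (F (T t9672 (L l33 (L l382 (L l458 (L l514 (T t550 N)))))))) (K a136 (M a24 (F (T t9673 (L l61 (L l350 (L l375 (T t9674 N))))))) (K a152 (M a12 (F (L l204 (T t9672 (L l33 (L l458 (L l496 (L l514 (T t550 N))))))))) (K a168 (M a12 (F (T t9675 (L l33 (L l458 (L l514 (T t550 N))))))) N))))))))))))))))))) (K a255 (M a234 (L l433 (F (L l126 (T t4994 (L l61 (L l123 (L l275 (L l368 (L l491 (T t9676 (L l37 (L l126 (L l243 (L l439 (T t9677 (K a127 (M a191 (F (L l368 (T t5482 (L l37 (L l126 (L l243 (L l439 (T t9677 (L l61 (L l123 (L l275 (L l368 (L l491 (T t9676 N))))))))))))))) (K a191 (M a127 (L l220 (F (L l368 (T t5482 (L l37 (L l126 (L l189 (L l243 (L l439 (T t9677 (L l123 (L l275 (L l368 (L l491 (T t9678 (K a128 (Fr a170 a42 l390 (V t1315)) (K a170 (M a128 (F (L l126 (L l404 (T t9651 (L l190 (L l208 (L l334 (T t9679 (L l33 (L l126 (L l202 (L l334 (L l404 (L l434 (L l514 (T t9680 (L l261 (L l292 (L l404 (L l435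 (T t9681 N)))))))))))))))))))))) N)))))))))))))))))) N)))))))))))))))))) N))))))))))))))) (K a255 (M a234 (L l519 (F (L l375 (T t9326 (L l334 (T t9648 (K a106 (Fr a63 a42 l68 (V t8593)) (K a63 (M a106 (L l433 (F (L l126 (T t4994 (L l61 (L l123 (L l275 (L l368 (L l491 (T t9676 (L l37 (L l126 (L l243 (L l439 (T t9677 (K a127 (M a191 (F (L l368 (T t5482 (L l37 (L l126 (L l243 (L l439 (T t9677 (L l61 (L l123 (L l275 (L l368 (L l491 (T t9676 N))))))))))))))) (K a191 (M a127 (L l220 (F (L l368 (T t5482 (L l37 (L l126 (L l189 (L l243 (L l439 (T t9677 (L l123 (L l275 (L l368 (L l491 (T t9678 (K a128 (Fr a170 a42 l390 (V t1315)) (K a170 (M a128 (F (L l126 (L l404 (T t9651 (L l190 (L l208 (L l334 (T t9679 (L l33 (L l126 (L l202 (L l334 (L l404 (L l434 (L l514 (T t9680 (L l261 (L l292 (L l404 (L l435 (T t9681 N)))))))))))))))))))))) N)))))))))))))))))) N)))))))))))))))))) N))))))))) N)))))))))))) (K a234 (M a255 (L l347 (F (L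 l292 (T t1317 (L l254 (L l334 (T t9736 (L l256 (L l268 (L l292 (L l368 (T t9649 (K a21 (M a149 (F (L l292 (T t1317 (L l334 (T t9652 (L l18 (L l256 (L l268 (L l292 (L l368 (T t9649 N)))))))))))) (K a149 (M a21 (L l519 (F (L l292 (T t1317 (L l220 (L l268 (L l390 (T t9711 (K a106 (Fr a63 a42 l68 (M a170 (F (L l123 (L l368 (T t9712 (L l26 (L l243 (L l365 (L l489 (T t9713 N))))))))))) (K a63 (M a106 (F (L l368 (T t5482 (L l334 (T t9670 (L l292 (L l368 (L l435 (T t1315 (L l220 (L l243 (L l365 (L l368 (T t9671 (K a100 (M a12 (F (T t9672 (L l33 (L l382 (L l458 (L l514 (T t550 N)))))))) (K a136 (M a24 (F (T t9673 (L l61 (L l350 (L l375 (T t9674 N))))))) (K a152 (M a12 (F (L l204 (T t9672 (L l33 (L l458 (L l496 (L l514 (T t550 N))))))))) (K a168 (M a12 (F (T t9675 (L l33 (L l458 (L l514 (T t550 N))))))) N))))))))))))))))))) N))))))))))) N))))))))))))))) (K a255 (M a234 (L l347 (F (L l368 (T t5482 (L l334 (L l458 (T t9667 (L l334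 (T t9648 (L l261 (L l268 (L l292 (L l368 (T t9649 (K a21 (M a149 (F (L l126 (T t4994 (L l18 (L l334 (L l368 (L l434 (L l514 (T t9647 (L l334 (T t9648 (L l18 (L l261 (L l268 (L l292 (L l368 (T t9649 N)))))))))))))))))) (K a149 (M a21 (L l519 (F (L l375 (T t9326 (L l334 (T t9648 (K a106 (Fr a63 a42 l68 (V t8593)) (K a63 (M a106 (L l433 (F (L l126 (T t4994 (L l61 (L l123 (L l275 (L l368 (L l491 (T t9676 (L l37 (L l126 (L l243 (L l439 (T t9677 (K a127 (M a191 (F (L l368 (T t5482 (L l37 (L l126 (L l243 (L l439 (T t9677 (L l61 (L l123 (L l275 (L l368 (L l491 (T t9676 N))))))))))))))) (K a191 (M a127 (L l220 (F (L l368 (T t5482 (L l37 (L l126 (L l189 (L l243 (L l439 (T t9677 (L l123 (L l275 (L l368 (L l491 (T t9678 (K a128 (Fr a170 a42 l390 (V t1315)) (K a170 (M a128 (F (L l126 (L l404 (T t9651 (L l190 (L l208 (L l334 (T t9679 (L l33 (L l126 (L l202 (L l334 (L l404 (L l434 (L l514 (T t9680 (L l261 (L l292 (L l404 (L l435 (T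 t9681 N)))))))))))))))))))))) N)))))))))))))))))) N)))))))))))))))))) N))))))))) N))))))))))))))))) N)))))))))))))))))))⟩
def e0_64_48__85_192_130 : Ent 4 := ⟨[a0, a64, a48], [a85, a192, a214], (M a84 (F (L l126 (T t9646 (L l514 (T t9575 (L l268 (L l292 (L l297 (L l368 (T t9576 (L l94 (L l232 (L l247 (T t9577 (L l232 (L l247 (T t9578 N))))))))))))))))))⟩
def e0_64_48__85_192_131 : Ent 4 := ⟨[a0, a64, a48], [a85, a192, a215], (M a84 (L l350 (F (T t8886 (L l514 (T t9575 (L l268 (L l292 (L l368 (T t9576 (L l94 (L l232 (T t9577 (L l232 (T t9578 (K a20 (M a150 (F (T t8886 (L l228 (L l295 (L l473 (L l514 (T t9468 (L l46 (L l123 (L l228 (L l232 (L l295 (T t9737 N)))))))))))))) (K a150 (M a20 (F (T t9329 (L l94 (L l171 (T t9738 N)))))) N)))))))))))))))))⟩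
def e0_64_48__85_192_132 : Ent 4 := ⟨[a0, a64, a48], [a85, a192, a218], (M a84 (F (T t8886 (L l514 (T t9575 (L l268 (L l292 (L l368 (T t9576 (L l94 (L l232 (T t9577 (L l232 (T t9578 N))))))))))))))⟩
def e0_64_48__85_192_133 : Ent 4 := ⟨[a0, a64, a48], [a85, a192, a219], (M a84 (F (T t8886 (L l514 (T t9575 (L l268 (L l292 (L l368 (T t9576 (L l94 (L l232 (T t9577 (L l232 (T t9578 N))))))))))))))⟩
def e0_64_48__85_192_134 : Ent 4 := ⟨[a0, a64, a48], [a85, a192, a223], (M a84 (L l368 (F (L l126 (T t9646 (L l334 (L l350 (L l514 (T t9721 (L l514 (T t9583 (L l94 (L l232 (L l241 (T t9577 (L l232 (L l241 (T t9578 (K a16 (M a154 (F (L l10 (T t9640 (L l514 (T t9575 (L l123 (L l339 (L l514 (T t9641 (K a168 (M a112 (F (T t9595 (L l236 (L l289 (L l455 (T t9596 N))))))) (K a252 (M a112 (L l292 (F (L l430 (L l466 (T t9591 (L l236 (L l289 (L l291 (L l455 (T t9596 (K a212 (M a232 (F (L l126 (L l466 (T t9594 (L l236 (L l289 (L l291 (L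 l455 (T t9596 N)))))))))) (K a232 (M a212 (F (L l126 (L l466 (T t9642 (L l236 (L l289 (L l291 (L l455 (T t9596 N)))))))))) N))))))))))))) N)))))))))))) (K a154 (Fr a16 a32 l40 (V t9722)) N))))))))))))))))))))⟩
def e0_64_48__85_192_135 : Ent 4 := ⟨[a0, a64, a48], [a85, a192, a224], (M a84 (L l268 (F (L l376 (T t8886 (L l350 (L l368 (L l406 (L l514 (T t9739 (L l406 (L l514 (T t9575 (L l94 (L l232 (L l376 (T t9577 (L l232 (L l376 (T t9578 (K a208 (M a240 (F (T t9600 (L l126 (L l232 (T t3280 N)))))) (K a240 (M a208 (F (L l376 (T t9740 (L l252 (L l262 (L l292 (L l368 (T t6167 (L l126 (L l406 (L l442 (L l514 (T t9733 (L l376 (T t9741 N)))))))))))))))) N))))))))))))))))))))))⟩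
def e0_64_48__85_192_136 : Ent 4 := ⟨[a0, a64, a48], [a85, a192, a225], (M a84 (F (T t8886 (L l514 (T t9575 (L l248 (L l268 (L l292 (L l368 (T t9576 (L l94 (L l232 (T t9577 (L l232 (T t9578 N)))))))))))))))⟩
def e0_64_48__85_192_137 : Ent 4 := ⟨[a0, a64, a48], [a85, a192, a226], (M a84 (L l272 (F (T t8886 (L l514 (T t9575 (L l248 (L l268 (L l292 (L l368 (T t9576 (L l94 (L l232 (T t9577 (L l232 (T t9578 (K a209 (M a243 (F (T t8886 (L l91 (L l228 (L l341 (T t6964 (L l378 (L l514 (T t9735 N)))))))))) (K a243 (M a209 (F (T t8886 (L l514 (T t9575 (L l248 (L l267 (L l268 (L l292 (L l368 (T t9576 (L l94 (L l232 (L l302 (T t9577 (L l232 (T t9578 N))))))))))))))))) N))))))))))))))))))⟩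
def e0_64_48__85_192_138 : Ent 4 := ⟨[a0, a64, a48], [a85, a192, a227], (M a84 (F (L l380 (T t8886 (L l514 (T t9575 (L l248 (L l257 (L l268 (L l292 (L l368 (T t9576 (L l94 (L l232 (L l380 (T t9577 (L l232 (L l380 (T t9578 N)))))))))))))))))))⟩
def e0_64_48__85_192_139 : Ent 4 := ⟨[a0, a64, a48], [a85, a192, a229], (M a84 (F (T t8886 (L l514 (T t9575 (L l256 (L l268 (L l292 (L l368 (T t9576 (L l94 (L l232 (T t9577 (L l232 (T t9578 N)))))))))))))))⟩
def e0_64_48__85_192_140 : Ent 4 := ⟨[a0, a64, a48], [a85, a192, a230], (M a84 (F (T t8886 (L l514 (T t9575 (L l257 (L l268 (L l292 (L l368 (T t9576 (L l94 (L l232 (L l302 (T t9577 (L l232 (T t9578 N))))))))))))))))⟩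
def e0_64_48__85_192_141 : Ent 4 := ⟨[a0, a64, a48], [a85, a192, a231], (M a84 (F (T t8886 (L l514 (T t9575 (L l268 (L l292 (L l368 (T t9576 (L l94 (L l232 (T t9577 (L l232 (T t9578 N))))))))))))))⟩
def e0_64_48__85_192_142 : Ent 4 := ⟨[a0, a64, a48], [a85, a192, a234], (M a204 (L l296 (F (L l292 (T t2046 (L l334 (L l458 (T t9667 (L l334 (T t9648 (L l256 (L l268 (L l292 (L l368 (T t9649 (K a213 (M a255 (L l347 (F (L l292 (T t1317 (L l254 (L l334 (T t9736 (L l256 (L l268 (L l292 (L l368 (T t9649 (K a21 (M a149 (F (L l292 (T t1317 (L l334 (T t9652 (L l18 (L l256 (L l268 (L l292 (L l368 (T t9649 N)))))))))))) (K a149 (M a21 (L l519 (F (L l292 (T t1317 (L l220 (L l268 (L l390 (T t9711 (K a106 (Fr a63 a42 l68 (M a170 (F (L l123 (L l368 (T t9712 (L l26 (L l243 (L l365 (L l489 (T t9713 N))))))))))) (K a63 (M a106 (F (L l368 (T t5482 (L l334 (T t9670 (L l292 (L l368 (L l435 (T t1315 (L l220 (L l243 (L l365 (L l368 (T t9671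 (K a100 (M a12 (F (T t9672 (L l33 (L l382 (L l458 (L l514 (T t550 N)))))))) (K a136 (M a24 (F (T t9673 (L l61 (L l350 (L l375 (T t9674 N))))))) (K a152 (M a12 (F (L l204 (T t9672 (L l33 (L l458 (L l496 (L l514 (T t550 N))))))))) (K a168 (M a12 (F (T t9675 (L l33 (L l458 (L l514 (T t550 N))))))) N))))))))))))))))))) N))))))))))) N))))))))))))))) (K a255 (M a213 (F (L l368 (T t5482 (L l334 (L l458 (T t9667 (L l334 (T t9648 (L l256 (L l261 (L l268 (L l292 (L l368 (T t9649 N))))))))))))))) N)))))))))))))))))⟩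
def e0_64_48__85_192_143 : Ent 4 := ⟨[a0, a64, a48], [a85, a192, a235], (M a84 (F (T t8886 (L l514 (T t9575 (L l268 (L l292 (L l368 (T t9576 (L l94 (L l232 (T t9577 (L l232 (T t9578 N))))))))))))))⟩
def e0_64_48__85_192_144 : Ent 4 := ⟨[a0, a64, a48], [a85, a192, a239], (M a84 (F (L l404 (T t8886 (L l514 (T t9575 (L l251 (L l256 (L l268 (L l292 (L l368 (T t9576 (L l94 (L l232 (L l404 (T t9577 (L l232 (L l404 (T t9578 N)))))))))))))))))))⟩
def e0_64_48__85_192_145 : Ent 4 := ⟨[a0, a64, a48], [a85, a192, a240], (M a84 (L l268 (F (T t8886 (L l350 (L l368 (L l514 (T t9690 (L l126 (L l442 (L l514 (T t9742 (L l94 (L l232 (L l298 (L l478 (T t9577 (L l232 (T t9578 (K a208 (M a224 (F (L l242 (T t8886 (L l262 (L l292 (L l340 (L l368 (T t9732 (L l126 (L l442 (L l514 (T t9733 (L l340 (L l368 (T t9734 N)))))))))))))))) (K a224 (M a208 (F (L l376 (T t9740 (L l252 (L l262 (L l292 (L l368 (T t6167 (L l126 (L l406 (L l442 (L l514 (T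 t9733 (L l376 (T t9741 N)))))))))))))))) N)))))))))))))))))))))⟩
def e0_64_48__85_192_146 : Ent 4 := ⟨[a0, a64, a48], [a85, a192, a241], (M a84 (F (T t8886 (L l514 (T t9575 (L l268 (L l292 (L l368 (T t9576 (L l94 (L l232 (T t9577 (L l232 (T t9578 N))))))))))))))⟩
def e0_64_48__85_192_147 : Ent 4 := ⟨[a0, a64, a48], [a85, a192, a242], (M a84 (F (T t8886 (L l514 (T t9575 (L l268 (L l292 (L l368 (T t9576 (L l94 (L l232 (T t9577 (L l232 (T t9578 N))))))))))))))⟩
def e0_64_48__85_192_148 : Ent 4 := ⟨[a0, a64, a48], [a85, a192, a243], (M a84 (L l272 (F (T t8886 (L l514 (T t9575 (L l267 (L l268 (L l292 (L l368 (T t9576 (L l94 (L l232 (L l302 (T t9577 (L l232 (T t9578 (K a209 (M a226 (F (T t8886 (L l514 (T t9575 (L l267 (L l268 (L l292 (L l368 (T t9576 (L l94 (L l232 (L l302 (T t9577 (L l232 (T t9578 N)))))))))))))))) (K a226 (M a209 (F (T t8886 (L l514 (T t9575 (L l248 (L l267 (L l268 (L l292 (L l368 (T t9576 (L l94 (L l232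 (L l302 (T t9577 (L l232 (T t9578 N))))))))))))))))) N)))))))))))))))))))⟩
def e0_64_48__85_192_149 : Ent 4 := ⟨[a0, a64, a48], [a85, a192, a245], (M a84 (L l455 (F (T t8886 (L l514 (T t9575 (L l268 (L l292 (L l368 (T t9576 (L l94 (L l232 (T t9577 (L l232 (T t9578 (K a5 (M a165 (F (T t8886 (L l514 (T t9575 (L l268 (L l292 (L l368 (T t9576 (L l94 (L l232 (T t9577 (L l232 (T t9578 N)))))))))))))) (K a165 (M a5 (F (T t8886 (L l419 (L l519 (T t9724 (L l514 (T t9583 N)))))))) N)))))))))))))))))⟩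
def e0_64_48__85_192_150 : Ent 4 := ⟨[a0, a64, a48], [a85, a192, a246], (M a84 (F (T t8886 (L l514 (T t9575 (L l267 (L l268 (L l292 (L l368 (T t9576 (L l94 (L l232 (T t9577 (L l232 (T t9578 N)))))))))))))))⟩
def e0_64_48__85_192_151 : Ent 4 := ⟨[a0, a64, a48], [a85, a192, a247], (M a84 (L l458 (F (T t8886 (L l514 (T t9575 (L l268 (L l292 (L l368 (T t9576 (L l94 (L l232 (T t9577 (L l232 (L l422 (T t9578 (K a4 (M a166 (F (T t8886 (L l514 (T t9575 (L l268 (L l292 (L l368 (T t9576 (L l94 (L l232 (T t9577 (L l46 (L l232 (L l422 (T t9578 N)))))))))))))))) (K a166 (M a4 (F (T t8886 (L l94 (L l259 (T t9725 (L l422 (L l514 (T t528 N))))))))) N))))))))))))))))))⟩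
def e0_64_48__85_192_152 : Ent 4 := ⟨[a0, a64, a48], [a85, a192, a250], (M a84 (F (T t8886 (L l514 (T t9575 (L l268 (L l292 (L l368 (T t9576 (L l94 (L l232 (T t9577 (L l232 (T t9578 N))))))))))))))⟩
def e0_64_48__85_192_153 : Ent 4 := ⟨[a0, a64, a48], [a85, a192, a251], (M a84 (F (T t8886 (L l514 (T t9575 (L l268 (L l292 (L l368 (T t9576 (L l94 (L l232 (T t9577 (L l232 (L l284 (T t9578 N)))))))))))))))⟩
def e0_64_48__85_192_154 : Ent 4 := ⟨[a0, a64, a48], [a85, a192, a255], (M a204 (L l296 (F (L l126 (T t4994 (L l334 (L l458 (T t9667 (L l334 (T t9648 (L l261 (L l268 (L l292 (L l368 (T t9649 (K a213 (M a234 (L l347 (F (L l368 (T t5482 (L l334 (L l458 (T t9667 (L l334 (T t9648 (L l261 (L l268 (L l292 (L l368 (T t9649 (K a21 (M a149 (F (L l126 (T t4994 (L l18 (L l334 (L l368 (L l434 (L l514 (T t9647 (L l334 (T t9648 (L l18 (L l261 (L l268 (L l292 (L l368 (T t9649 N)))))))))))))))))) (K a149 (M a21 (L l519 (F (L l375 (T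 t9326 (L l334 (T t9648 (K a106 (Fr a63 a42 l68 (V t8593)) (K a63 (M a106 (L l433 (F (L l126 (T t4994 (L l61 (L l123 (L l275 (L l368 (L l491 (T t9676 (L l37 (L l126 (L l243 (L l439 (T t9677 (K a127 (M a191 (F (L l368 (T t5482 (L l37 (L l126 (L l243 (L l439 (T t9677 (L l61 (L l123 (L l275 (L l368 (L l491 (T t9676 N))))))))))))))) (K a191 (M a127 (L l220 (F (L l368 (T t5482 (L l37 (L l126 (L l189 (L l243 (L l439 (T t9677 (L l123 (L l275 (L l368 (L l491 (T t9678 (K a128 (Fr a170 a42 l390 (V t1315)) (K a170 (M a128 (F (L l126 (L l404 (T t9651 (L l190 (L l208 (L l334 (T t9679 (L l33 (L l126 (L l202 (L l334 (L l404 (L l434 (L l514 (T t9680 (L l261 (L l292 (L l404 (L l435 (T t9681 N)))))))))))))))))))))) N)))))))))))))))))) N)))))))))))))))))) N))))))))) N))))))))))))))))) (K a234 (M a213 (F (L l368 (T t5482 (L l334 (L l458 (T t9667 (L l334 (T t9648 (L l256 (L l261 (L l268 (L l292 (L l368 (T t9649 N))))))))))))))) N)))))))))))))))))⟩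
def b0_64_48__85_192 : Blk 4 := ⟨[0, 64, 48], [85, 192], [1, 2, 3, 5, 6, 7, 10, 11, 15, 16, 17, 18, 19, 21, 22, 23, 26, 27, 31, 32, 33, 34, 35, 37, 38, 39, 42, 43, 47, 49, 50, 51, 53, 54, 55, 58, 59, 63, 65, 66, 67, 69, 70, 71, 74, 75, 79, 80, 81, 82, 83, 86, 87, 90, 91, 95, 96, 97, 98, 99, 101, 102, 103, 106, 107, 111, 112, 113, 114, 115, 117, 118, 119, 122, 123, 127, 128, 129, 130, 131, 133, 134, 135, 138, 139, 143, 144, 145, 146, 147, 149, 150, 151, 154, 155, 159, 160, 161, 162, 163, 165, 166, 167, 170, 171, 175, 176, 177, 178, 179, 181, 182, 183, 186, 187, 191, 193, 194, 195, 197, 198, 199, 202, 203, 207, 208, 209, 210, 211, 213, 214, 215, 218, 219, 223, 224, 225, 226, 227, 229, 230, 231, 234, 235, 239, 240, 241, 242, 243, 245, 246, 247, 250, 251, 255], [e0_64_48__85_192_0, e0_64_48__85_192_1, e0_64_48__85_192_2, e0_64_48__85_192_3, e0_64_48__85_192_4, e0_64_48__85_192_5, e0_64_48__85_192_6, e0_64_48__85_192_7,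 e0_64_48__85_192_8, e0_64_48__85_192_9, e0_64_48__85_192_10, e0_64_48__85_192_11, e0_64_48__85_192_12, e0_64_48__85_192_13, e0_64_48__85_192_14, e0_64_48__85_192_15, e0_64_48__85_192_16, e0_64_48__85_192_17, e0_64_48__85_192_18, e0_64_48__85_192_19, e0_64_48__85_192_20, e0_64_48__85_192_21, e0_64_48__85_192_22, e0_64_48__85_192_23, e0_64_48__85_192_24, e0_64_48__85_192_25, e0_64_48__85_192_26, e0_64_48__85_192_27, e0_64_48__85_192_28, e0_64_48__85_192_29, e0_64_48__85_192_30, e0_64_48__85_192_31, e0_64_48__85_192_32, e0_64_48__85_192_33, e0_64_48__85_192_34, e0_64_48__85_192_35, e0_64_48__85_192_36, e0_64_48__85_192_37, e0_64_48__85_192_38, e0_64_48__85_192_39, e0_64_48__85_192_40, e0_64_48__85_192_41, e0_64_48__85_192_42, e0_64_48__85_192_43, e0_64_48__85_192_44, e0_64_48__85_192_45, e0_64_48__85_192_46, e0_64_48__85_192_47, e0_64_48__85_192_48, e0_64_48__85_192_49, e0_64_48__85_192_50, e0_64_48__85_192_51, e0_64_48__85_192_52,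 e0_64_48__85_192_53, e0_64_48__85_192_54, e0_64_48__85_192_55, e0_64_48__85_192_56, e0_64_48__85_192_57, e0_64_48__85_192_58, e0_64_48__85_192_59, e0_64_48__85_192_60, e0_64_48__85_192_61, e0_64_48__85_192_62, e0_64_48__85_192_63, e0_64_48__85_192_64, e0_64_48__85_192_65, e0_64_48__85_192_66, e0_64_48__85_192_67, e0_64_48__85_192_68, e0_64_48__85_192_69, e0_64_48__85_192_70, e0_64_48__85_192_71, e0_64_48__85_192_72, e0_64_48__85_192_73, e0_64_48__85_192_74, e0_64_48__85_192_75, e0_64_48__85_192_76, e0_64_48__85_192_77, e0_64_48__85_192_78, e0_64_48__85_192_79, e0_64_48__85_192_80, e0_64_48__85_192_81, e0_64_48__85_192_82, e0_64_48__85_192_83, e0_64_48__85_192_84, e0_64_48__85_192_85, e0_64_48__85_192_86, e0_64_48__85_192_87, e0_64_48__85_192_88, e0_64_48__85_192_89, e0_64_48__85_192_90, e0_64_48__85_192_91, e0_64_48__85_192_92, e0_64_48__85_192_93, e0_64_48__85_192_94, e0_64_48__85_192_95, e0_64_48__85_192_96, e0_64_48__85_192_97,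 e0_64_48__85_192_98, e0_64_48__85_192_99, e0_64_48__85_192_100, e0_64_48__85_192_101, e0_64_48__85_192_102, e0_64_48__85_192_103, e0_64_48__85_192_104, e0_64_48__85_192_105, e0_64_48__85_192_106, e0_64_48__85_192_107, e0_64_48__85_192_108, e0_64_48__85_192_109, e0_64_48__85_192_110, e0_64_48__85_192_111, e0_64_48__85_192_112, e0_64_48__85_192_113, e0_64_48__85_192_114, e0_64_48__85_192_115, e0_64_48__85_192_116, e0_64_48__85_192_117, e0_64_48__85_192_118, e0_64_48__85_192_119, e0_64_48__85_192_120, e0_64_48__85_192_121, e0_64_48__85_192_122, e0_64_48__85_192_123, e0_64_48__85_192_124, e0_64_48__85_192_125, e0_64_48__85_192_126, e0_64_48__85_192_127, e0_64_48__85_192_128, e0_64_48__85_192_129, e0_64_48__85_192_130, e0_64_48__85_192_131, e0_64_48__85_192_132, e0_64_48__85_192_133, e0_64_48__85_192_134, e0_64_48__85_192_135, e0_64_48__85_192_136, e0_64_48__85_192_137, e0_64_48__85_192_138, e0_64_48__85_192_139, e0_64_48__85_192_140,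 e0_64_48__85_192_141, e0_64_48__85_192_142, e0_64_48__85_192_143, e0_64_48__85_192_144, e0_64_48__85_192_145, e0_64_48__85_192_146, e0_64_48__85_192_147, e0_64_48__85_192_148, e0_64_48__85_192_149, e0_64_48__85_192_150, e0_64_48__85_192_151, e0_64_48__85_192_152, e0_64_48__85_192_153, e0_64_48__85_192_154], by decide +kernel, by decide +kernel⟩
def e0_64_80__85_0 : Ent 4 := ⟨[a0, a64, a80], [a85, a128], (M a84 (F (T t8912 (L l192 (L l458 (T t8913 (L l192 (T t8914 N))))))))⟩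
def b0_64_80__85 : Blk 4 := ⟨[0, 64, 80], [85], [128], [e0_64_80__85_0], by decide +kernel, by decide +kernel⟩
def e0_64_80__85_128_0 : Ent 4 := ⟨[a0, a64, a80], [a85, a128, a1], (M a84 (L l473 (F (T t8912 (L l192 (L l458 (T t8913 (L l192 (T t8914 (K a169 (M a253 (F (T t8910 (L l192 (L l477 (T t8991 (L l192 (T t8914 N)))))))) (K a253 (M a169 (F (T t8912 (L l192 (L l261 (T t8991 (T t9222 N))))))) N)))))))))))⟩
def e0_64_80__85_128_1 : Ent 4 := ⟨[a0, a64, a80], [a85, a128, a2], (M a84 (F (T t8912 (L l192 (L l458 (T t8913 (L l192 (T t8914 N))))))))⟩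
def e0_64_80__85_128_2 : Ent 4 := ⟨[a0, a64, a80], [a85, a128, a3], (M a84 (F (T t8912 (L l192 (L l458 (T t8913 (L l192 (T t8914 N))))))))⟩
def e0_64_80__85_128_3 : Ent 4 := ⟨[a0, a64, a80], [a85, a128, a5], (M a84 (L l455 (F (T t8912 (L l1 (L l192 (L l458 (T t8913 (L l192 (T t8914 (K a165 (M a245 (F (T t8910 (L l173 (L l180 (L l192 (T t8991 (L l180 (L l192 (L l203 (T t8914 N))))))))))) (K a245 (M a165 (F (T t8912 (L l192 (T t8991 (L l266 (T t9222 N))))))) N))))))))))))⟩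
def e0_64_80__85_128_4 : Ent 4 := ⟨[a0, a64, a80], [a85, a128, a6], (M a84 (F (T t8912 (L l1 (L l192 (L l458 (T t8913 (L l192 (T t8914 N)))))))))⟩
def e0_64_80__85_128_5 : Ent 4 := ⟨[a0, a64, a80], [a85, a128, a7], (M a84 (F (T t8912 (L l1 (L l192 (L l458 (T t8913 (L l192 (T t8914 N)))))))))⟩
def e0_64_80__85_128_6 : Ent 4 := ⟨[a0, a64, a80], [a85, a128, a10], (M a84 (F (T t8912 (L l192 (L l458 (T t8913 (L l192 (T t8914 N))))))))⟩
def e0_64_80__85_128_7 : Ent 4 := ⟨[a0, a64, a80], [a85, a128, a11], (M a84 (F (T t8912 (L l192 (L l458 (T t8913 (L l192 (T t8914 N))))))))⟩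
def e0_64_80__85_128_8 : Ent 4 := ⟨[a0, a64, a80], [a85, a128, a15], (M a84 (F (T t8912 (L l192 (L l458 (T t8913 (L l192 (T t8914 N))))))))⟩
def e0_64_80__85_128_9 : Ent 4 := ⟨[a0, a64, a80], [a85, a128, a16], (M a84 (L l368 (F (T t8912 (L l192 (L l458 (T t8913 (L l192 (T t8914 (K a154 (M a223 (F (T t8910 (L l192 (T t8991 (T t9222 N)))))) (K a223 (M a154 (F (T t8910 (L l192 (T t8991 (T t9222 N)))))) N)))))))))))⟩
def e0_64_80__85_128_10 : Ent 4 := ⟨[a0, a64, a80], [a85, a128, a17], (M a84 (L l365 (F (T t8912 (L l192 (L l458 (T t8913 (L l192 (T t8914 (K a153 (M a221 (F (T t8910 (L l192 (T t8991 (T t9222 N)))))) (K a221 (M a153 (F (T t8910 (L l192 (T t8991 (T t9222 N)))))) N)))))))))))⟩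
def e0_64_80__85_128_11 : Ent 4 := ⟨[a0, a64, a80], [a85, a128, a18], (M a84 (F (T t8912 (L l192 (L l458 (T t8913 (L l192 (T t8914 N))))))))⟩
def e0_64_80__85_128_12 : Ent 4 := ⟨[a0, a64, a80], [a85, a128, a19], (M a84 (F (T t8912 (L l192 (L l458 (T t8913 (L l192 (T t8914 N))))))))⟩
def e0_64_80__85_128_13 : Ent 4 := ⟨[a0, a64, a80], [a85, a128, a21], (M a84 (L l347 (F (T t8912 (L l50 (L l192 (L l458 (T t8913 (L l192 (T t8914 (K a149 (M a213 (L l220 (F (T t8910 (L l192 (T t8991 (L l192 (T t8914 (K a170 (M a191 (F (T t8910 (L l180 (L l192 (T t8991 (L l180 (L l192 (T t8914 N))))))))) (K a191 (M a170 (F (T t8910 (L l192 (T t8991 (L l192 (T t8914 N))))))) N)))))))))) (K a213 (M a149 (F (T t8910 (L l192 (T t8991 (T t9222 N)))))) N))))))))))))⟩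
def e0_64_80__85_128_14 : Ent 4 := ⟨[a0, a64, a80], [a85, a128, a22], (M a84 (F (T t8912 (L l192 (L l458 (T t8913 (L l192 (T t8914 N))))))))⟩
def e0_64_80__85_128_15 : Ent 4 := ⟨[a0, a64, a80], [a85, a128, a23], (M a84 (F (T t8912 (L l192 (L l458 (T t8913 (L l192 (T t8914 N))))))))⟩
def e0_64_80__85_128_16 : Ent 4 := ⟨[a0, a64, a80], [a85, a128, a26], (M a84 (F (T t8912 (L l192 (L l458 (T t8913 (L l192 (T t8914 N))))))))⟩
def e0_64_80__85_128_17 : Ent 4 := ⟨[a0, a64, a80], [a85, a128, a27], (M a84 (F (T t8912 (L l192 (L l458 (T t8913 (L l192 (T t8914 N))))))))⟩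
def e0_64_80__85_128_18 : Ent 4 := ⟨[a0, a64, a80], [a85, a128, a31], (M a84 (F (T t8912 (L l192 (L l458 (T t8913 (L l192 (T t8914 N))))))))⟩
def e0_64_80__85_128_19 : Ent 4 := ⟨[a0, a64, a80], [a85, a128, a32], (M a84 (F (L l458 (T t9528 (L l126 (T t9189 (L l216 (L l376 (L l400 (T t9529 (L l126 (L l192 (L l216 (L l400 (T t9530 N)))))))))))))))⟩
def e0_64_80__85_128_20 : Ent 4 := ⟨[a0, a64, a80], [a85, a128, a33], (M a84 (F (T t8912 (L l192 (L l458 (T t8913 (L l192 (T t8914 N))))))))⟩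
def e0_64_80__85_128_21 : Ent 4 := ⟨[a0, a64, a80], [a85, a128, a34], (M a84 (F (T t8912 (L l192 (L l458 (T t8913 (L l192 (T t8914 N))))))))⟩
def e0_64_80__85_128_22 : Ent 4 := ⟨[a0, a64, a80], [a85, a128, a35], (M a84 (F (T t8912 (L l192 (L l458 (T t8913 (L l192 (T t8914 N))))))))⟩
def e0_64_80__85_128_23 : Ent 4 := ⟨[a0, a64, a80], [a85, a128, a37], (M a84 (F (T t8912 (L l192 (L l458 (T t8913 (L l192 (T t8914 N))))))))⟩
def e0_64_80__85_128_24 : Ent 4 := ⟨[a0, a64, a80], [a85, a128, a38], (M a84 (F (T t8912 (L l50 (L l192 (L l458 (T t8913 (L l192 (T t8914 N)))))))))⟩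
def e0_64_80__85_128_25 : Ent 4 := ⟨[a0, a64, a80], [a85, a128, a39], (M a84 (F (T t8912 (L l192 (L l458 (T t8913 (L l192 (T t8914 N))))))))⟩
def e0_64_80__85_128_26 : Ent 4 := ⟨[a0, a64, a80], [a85, a128, a42], (M a84 (F (T t8912 (L l192 (L l458 (T t8913 (L l192 (T t8914 N))))))))⟩
def e0_64_80__85_128_27 : Ent 4 := ⟨[a0, a64, a80], [a85, a128, a43], (M a84 (F (T t8912 (L l192 (L l458 (T t8913 (L l192 (T t8914 N))))))))⟩
def e0_64_80__85_128_28 : Ent 4 := ⟨[a0, a64, a80], [a85, a128, a47], (M a84 (F (T t8912 (L l192 (L l458 (T t8913 (L l192 (T t8914 N))))))))⟩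
def e0_64_80__85_128_29 : Ent 4 := ⟨[a0, a64, a80], [a85, a128, a48], (M a84 (F (L l126 (T t9189 (L l192 (L l458 (T t8913 (L l192 (L l436 (L l484 (T t8914 N)))))))))))⟩
def e0_64_80__85_128_30 : Ent 4 := ⟨[a0, a64, a80], [a85, a128, a49], (M a84 (F (T t8912 (L l192 (L l458 (T t8913 (L l192 (T t8914 N))))))))⟩
def e0_64_80__85_128_31 : Ent 4 := ⟨[a0, a64, a80], [a85, a128, a50], (M a84 (F (T t8912 (L l192 (L l458 (T t8913 (L l192 (T t8914 N))))))))⟩
def e0_64_80__85_128_32 : Ent 4 := ⟨[a0, a64, a80], [a85, a128, a51], (M a84 (F (T t8912 (L l192 (L l458 (T t8913 (L l192 (T t8914 N))))))))⟩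
def e0_64_80__85_128_33 : Ent 4 := ⟨[a0, a64, a80], [a85, a128, a53], (M a84 (F (T t8912 (L l192 (L l458 (T t8913 (L l192 (T t8914 N))))))))⟩
def e0_64_80__85_128_34 : Ent 4 := ⟨[a0, a64, a80], [a85, a128, a54], (M a84 (F (T t8912 (L l192 (L l458 (T t8913 (L l192 (T t8914 N))))))))⟩
def e0_64_80__85_128_35 : Ent 4 := ⟨[a0, a64, a80], [a85, a128, a55], (M a84 (F (T t8912 (L l50 (L l192 (L l458 (T t8913 (L l192 (T t8914 N)))))))))⟩
def e0_64_80__85_128_36 : Ent 4 := ⟨[a0, a64, a80], [a85, a128, a58], (M a84 (F (T t8912 (L l192 (L l458 (T t8913 (L l192 (T t8914 N))))))))⟩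
def e0_64_80__85_128_37 : Ent 4 := ⟨[a0, a64, a80], [a85, a128, a59], (M a84 (F (T t8912 (L l192 (L l458 (T t8913 (L l192 (T t8914 N))))))))⟩
def e0_64_80__85_128_38 : Ent 4 := ⟨[a0, a64, a80], [a85, a128, a63], (M a84 (F (T t8912 (L l192 (L l458 (T t8913 (L l192 (T t8914 N))))))))⟩
def e0_64_80__85_128_39 : Ent 4 := ⟨[a0, a64, a80], [a85, a128, a65], (M a84 (L l141 (F (T t8912 (L l192 (L l458 (T t8913 (L l192 (T t8914 (K a105 (M a125 (F (L l145 (T t8910 (L l192 (T t8991 (L l145 (L l410 (T t9222 N))))))))) (K a125 (M a105 (F (T t8912 (L l192 (T t8991 (L l192 (T t8914 N))))))) N)))))))))))⟩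
def e0_64_80__85_128_40 : Ent 4 := ⟨[a0, a64, a80], [a85, a128, a66], (M a84 (F (T t8912 (L l192 (L l458 (T t8913 (L l192 (T t8914 N))))))))⟩
def e0_64_80__85_128_41 : Ent 4 := ⟨[a0, a64, a80], [a85, a128, a67], (M a84 (F (T t9110 (L l192 (L l458 (T t8913 (L l192 (T t8914 N))))))))⟩
def e0_64_80__85_128_42 : Ent 4 := ⟨[a0, a64, a80], [a85, a128, a69], (M a84 (L l123 (F (T t8912 (L l192 (L l314 (L l458 (T t8913 (L l192 (T t8914 (K a101 (M a117 (F (L l104 (T t8912 (L l192 (T t8991 (L l151 (L l404 (T t9222 N))))))))) (K a117 (M a101 (F (T t8910 (L l192 (T t8991 (L l114 (T t9222 N))))))) N))))))))))))⟩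
def e0_64_80__85_128_43 : Ent 4 := ⟨[a0, a64, a80], [a85, a128, a70], (M a84 (F (T t8910 (L l192 (L l458 (T t8913 (L l192 (T t8914 N))))))))⟩
def e0_64_80__85_128_44 : Ent 4 := ⟨[a0, a64, a80], [a85, a128, a71], (M a84 (F (T t8912 (L l192 (L l458 (T t8913 (L l127 (L l192 (T t8914 N)))))))))⟩
def e0_64_80__85_128_45 : Ent 4 := ⟨[a0, a64, a80], [a85, a128, a74], (M a84 (F (T t8912 (L l192 (L l458 (T t8913 (L l192 (T t8914 N))))))))⟩
def e0_64_80__85_128_46 : Ent 4 := ⟨[a0, a64, a80], [a85, a128, a75], (M a84 (F (T t8912 (L l192 (L l458 (T t8913 (L l192 (T t8914 N))))))))⟩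
def e0_64_80__85_128_47 : Ent 4 := ⟨[a0, a64, a80], [a85, a128, a79], (M a84 (F (T t9110 (L l192 (L l458 (T t8913 (L l192 (T t8914 N))))))))⟩
def e0_64_80__85_128_48 : Ent 4 := ⟨[a0, a64, a80], [a85, a128, a81], (M a84 (L l91 (F (T t8912 (L l192 (L l458 (T t8913 (L l192 (T t8914 (K a89 (M a93 (F (L l95 (T t8910 (L l192 (L l216 (L l458 (T t9157 (T t9222 N))))))))) (K a93 (M a89 (F (L l89 (T t8910 (L l192 (L l216 (L l458 (T t9157 (T t9222 N))))))))) N)))))))))))⟩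
def e0_64_80__85_128_49 : Ent 4 := ⟨[a0, a64, a80], [a85, a128, a82], (M a84 (F (T t8912 (L l192 (L l458 (T t8913 (L l192 (T t8914 N))))))))⟩
def e0_64_80__85_128_50 : Ent 4 := ⟨[a0, a64, a80], [a85, a128, a83], (M a84 (F (L l95 (T t8912 (L l192 (L l216 (L l458 (T t9157 (L l192 (T t8914 N))))))))))⟩
def e0_64_80__85_128_51 : Ent 4 := ⟨[a0, a64, a80], [a85, a128, a86], (M a84 (F (L l95 (T t8912 (L l192 (L l216 (L l458 (T t9157 (L l127 (L l192 (T t8914 N)))))))))))⟩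
def e0_64_80__85_128_52 : Ent 4 := ⟨[a0, a64, a80], [a85, a128, a87], (M a84 (F (T t8912 (L l192 (L l458 (T t8913 (L l192 (T t8914 N))))))))⟩
def e0_64_80__85_128_53 : Ent 4 := ⟨[a0, a64, a80], [a85, a128, a90], (M a84 (F (T t8912 (L l192 (L l458 (T t8913 (L l192 (T t8914 N))))))))⟩
def e0_64_80__85_128_54 : Ent 4 := ⟨[a0, a64, a80], [a85, a128, a91], (M a84 (F (T t8912 (L l192 (L l458 (T t8913 (L l192 (T t8914 N))))))))⟩
def e0_64_80__85_128_55 : Ent 4 := ⟨[a0, a64, a80], [a85, a128, a95], (M a84 (F (L l89 (T t8912 (L l192 (L l216 (L l458 (T t9157 (L l192 (T t8914 N))))))))))⟩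
def e0_64_80__85_128_56 : Ent 4 := ⟨[a0, a64, a80], [a85, a128, a96], (M a84 (F (L l458 (T t9528 (L l192 (L l376 (L l484 (T t9531 (T t9532 (L l192 (L l216 (L l376 (L l458 (T t9533 (L l350 (L l376 (T t9534 N)))))))))))))))))⟩
def e0_64_80__85_128_57 : Ent 4 := ⟨[a0, a64, a80], [a85, a128, a97], (M a84 (F (L l96 (T t8912 (L l192 (L l458 (T t8913 (L l96 (L l192 (T t8914 N))))))))))⟩
def e0_64_80__85_128_58 : Ent 4 := ⟨[a0, a64, a80], [a85, a128, a98], (M a84 (F (L l96 (T t8912 (L l192 (L l458 (T t8913 (L l96 (L l192 (T t8914 N))))))))))⟩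
def e0_64_80__85_128_59 : Ent 4 := ⟨[a0, a64, a80], [a85, a128, a99], (M a84 (F (L l96 (T t8912 (L l192 (L l458 (T t8913 (L l96 (L l192 (T t8914 N))))))))))⟩
def e0_64_80__85_128_60 : Ent 4 := ⟨[a0, a64, a80], [a85, a128, a101], (M a84 (L l123 (F (L l104 (T t8912 (L l192 (L l458 (T t8913 (L l104 (L l127 (L l192 (T t8914 (K a69 (M a117 (F (L l104 (T t8912 (L l192 (T t8991 (L l151 (L l404 (T t9222 N))))))))) (K a117 (M a69 (F (L l104 (T t8912 (L l192 (T t8991 (L l101 (L l160 (L l216 (T t9535 N)))))))))) N))))))))))))))⟩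
def e0_64_80__85_128_61 : Ent 4 := ⟨[a0, a64, a80], [a85, a128, a102], (M a88 (L l126 (F (T t8953 (L l192 (L l216 (T t8954 (L l97 (L l156 (L l192 (T t8955 (K a68 (M a119 (F (L l192 (T t8957 (L l150 (L l192 (T t9536 (T t9537 (L l192 (L l216 (T t9538 N))))))))))) (K a119 (M a68 (F (T t9539 (L l192 (T t8957 N))))) N)))))))))))))⟩
def e0_64_80__85_128_62 : Ent 4 := ⟨[a0, a64, a80], [a85, a128, a103], (M a84 (F (T t8912 (L l192 (L l458 (T t8913 (L l192 (T t8914 N))))))))⟩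
def e0_64_80__85_128_63 : Ent 4 := ⟨[a0, a64, a80], [a85, a128, a106], (M a84 (F (L l104 (T t8910 (L l192 (L l458 (T t8913 (L l98 (L l104 (L l192 (T t8914 N)))))))))))⟩
def e0_64_80__85_128_64 : Ent 4 := ⟨[a0, a64, a80], [a85, a128, a107], (M a84 (F (T t8910 (L l192 (L l458 (T t8913 (L l98 (L l192 (T t8914 N)))))))))⟩
def e0_64_80__85_128_65 : Ent 4 := ⟨[a0, a64, a80], [a85, a128, a111], (M a84 (F (L l104 (T t8912 (L l192 (L l458 (T t8913 (L l104 (L l192 (T t8914 N))))))))))⟩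
def e0_64_80__85_128_66 : Ent 4 := ⟨[a0, a64, a80], [a85, a128, a112], (M a84 (F (L l192 (T t8991 (L l110 (L l192 (T t9531 (L l110 (T t9540 (L l110 (L l192 (L l216 (L l458 (T t9533 (L l146 (L l156 (L l216 (T t9541 (L l110 (L l412 (T t9542 N)))))))))))))))))))))⟩
def e0_64_80__85_128_67 : Ent 4 := ⟨[a0, a64, a80], [a85, a128, a113], (M a84 (F (T t8912 (L l192 (L l458 (T t8913 (L l192 (T t8914 N))))))))⟩
def e0_64_80__85_128_68 : Ent 4 := ⟨[a0, a64, a80], [a85, a128, a114], (M a84 (F (T t8912 (L l192 (L l458 (T t8913 (L l192 (T t8914 N))))))))⟩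
def e0_64_80__85_128_69 : Ent 4 := ⟨[a0, a64, a80], [a85, a128, a115], (M a84 (F (T t9110 (L l192 (L l458 (T t8913 (L l192 (T t8914 N))))))))⟩
def e0_64_80__85_128_70 : Ent 4 := ⟨[a0, a64, a80], [a85, a128, a117], (M a84 (L l123 (F (T t8912 (L l192 (L l458 (T t8913 (L l107 (L l192 (T t8914 (K a69 (M a101 (F (T t8910 (L l192 (T t8991 (L l114 (T t9222 N))))))) (K a101 (M a69 (F (L l104 (T t8912 (L l192 (T t8991 (L l101 (L l160 (L l216 (T t9535 N)))))))))) N))))))))))))⟩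
def e0_64_80__85_128_71 : Ent 4 := ⟨[a0, a64, a80], [a85, a128, a118], (M a84 (F (T t8912 (L l192 (L l458 (T t8913 (L l107 (L l192 (T t8914 N)))))))))⟩
def e0_64_80__85_128_72 : Ent 4 := ⟨[a0, a64, a80], [a85, a128, a119], (M a84 (L l126 (F (T t8910 (L l192 (L l458 (T t8913 (L l107 (L l192 (T t8914 (K a68 (M a102 (F (L l192 (T t8991 (L l113 (L l123 (T t9543 (T t9222 N)))))))) (K a102 (M a68 (F (T t9544 (L l192 (T t8991 (T t9545 N)))))) N))))))))))))⟩
def e0_64_80__85_128_73 : Ent 4 := ⟨[a0, a64, a80], [a85, a128, a122], (M a84 (F (T t8912 (L l192 (L l458 (T t8913 (L l192 (T t8914 N))))))))⟩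
def e0_64_80__85_128_74 : Ent 4 := ⟨[a0, a64, a80], [a85, a128, a123], (M a84 (F (T t8912 (L l192 (L l458 (T t8913 (L l192 (T t8914 N))))))))⟩
def e0_64_80__85_128_75 : Ent 4 := ⟨[a0, a64, a80], [a85, a128, a127], (M a84 (F (T t9110 (L l192 (L l458 (T t8913 (L l192 (T t8914 N))))))))⟩
def e0_64_80__85_128_76 : Ent 4 := ⟨[a0, a64, a80], [a85, a128, a129], (M a84 (L l152 (F (T t8912 (L l192 (L l458 (T t8913 (L l192 (T t8914 (K a130 (M a131 (F (T t8910 (L l192 (T t8991 (T t9222 N)))))) (K a131 (M a130 (F (T t8910 (L l192 (T t8991 (T t9222 N)))))) N)))))))))))⟩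
def e0_64_80__85_128_77 : Ent 4 := ⟨[a0, a64, a80], [a85, a128, a130], (M a84 (L l152 (F (T t8912 (L l192 (L l458 (T t8913 (L l192 (T t8914 (K a129 (M a131 (F (T t8910 (L l192 (T t8991 (T t9222 N)))))) (K a131 (M a129 (F (T t8912 (L l192 (T t8991 (L l192 (T t8914 N))))))) N)))))))))))⟩
def e0_64_80__85_128_78 : Ent 4 := ⟨[a0, a64, a80], [a85, a128, a131], (M a84 (L l152 (F (T t8912 (L l192 (L l458 (T t8913 (L l192 (T t8914 (K a129 (M a130 (F (T t8910 (L l192 (T t8991 (T t9222 N)))))) (K a130 (M a129 (F (T t8912 (L l192 (T t8991 (L l192 (T t8914 N))))))) N)))))))))))⟩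
def e0_64_80__85_128_79 : Ent 4 := ⟨[a0, a64, a80], [a85, a128, a133], (M a84 (L l160 (F (T t8912 (L l192 (L l458 (T t8913 (L l192 (T t8914 (K a138 (M a143 (F (T t8910 (L l192 (T t8991 (T t9222 N)))))) (K a143 (M a138 (F (T t8910 (L l192 (T t8991 (T t9222 N)))))) N)))))))))))⟩
def e0_64_80__85_128_80 : Ent 4 := ⟨[a0, a64, a80], [a85, a128, a134], (M a84 (F (T t8912 (L l192 (L l314 (L l458 (T t8913 (L l192 (T t8914 N)))))))))⟩
def e0_64_80__85_128_81 : Ent 4 := ⟨[a0, a64, a80], [a85, a128, a135], (M a84 (F (T t8912 (L l192 (L l458 (T t8913 (L l192 (L l203 (T t8914 N)))))))))⟩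
def e0_64_80__85_128_82 : Ent 4 := ⟨[a0, a64, a80], [a85, a128, a138], (M a84 (L l160 (F (T t8912 (L l192 (L l458 (T t8913 (L l192 (T t8914 (K a133 (M a143 (F (T t8910 (L l192 (T t8991 (T t9222 N)))))) (K a143 (M a133 (F (T t8912 (L l192 (T t8991 (L l192 (T t8914 N))))))) N)))))))))))⟩
def e0_64_80__85_128_83 : Ent 4 := ⟨[a0, a64, a80], [a85, a128, a139], (M a84 (F (T t8912 (L l192 (L l458 (T t8913 (L l192 (T t8914 N))))))))⟩
def e0_64_80__85_128_84 : Ent 4 := ⟨[a0, a64, a80], [a85, a128, a143], (M a84 (L l160 (F (T t8912 (L l192 (L l458 (T t8913 (L l192 (T t8914 (K a133 (M a138 (F (T t8910 (L l192 (T t8991 (T t9222 N)))))) (K a138 (M a133 (F (T t8912 (L l192 (T t8991 (L l192 (T t8914 N))))))) N)))))))))))⟩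
def e0_64_80__85_128_85 : Ent 4 := ⟨[a0, a64, a80], [a85, a128, a144], (M a84 (L l192 (F (L l484 (T t8912 (L l458 (T t9528 (T t9222 (K a160 (M a176 (F (L l376 (L l484 (T t8910 (T t9546 (L l176 (L l216 (L l376 (L l484 (T t9547 (L l126 (L l176 (L l216 (L l376 (L l484 (T t9548 (L l176 (L l216 (L l484 (T t9549 N))))))))))))))))))))) (K a176 (Fr a160 a240 l448 (V t8911)) N))))))))))⟩
def e0_64_80__85_128_86 : Ent 4 := ⟨[a0, a64, a80], [a85, a128, a145], (M a84 (L l196 (F (T t8912 (L l192 (L l458 (T t8913 (L l192 (T t8914 (K a162 (M a179 (F (T t8910 (L l172 (L l192 (T t8991 (L l380 (T t9222 N)))))))) (K a179 (M a162 (F (T t8912 (L l192 (L l193 (L l415 (T t9550 N))))))) N)))))))))))⟩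
def e0_64_80__85_128_87 : Ent 4 := ⟨[a0, a64, a80], [a85, a128, a146], (M a84 (F (T t8912 (L l192 (L l458 (T t8913 (L l192 (T t8914 N))))))))⟩
def e0_64_80__85_128_88 : Ent 4 := ⟨[a0, a64, a80], [a85, a128, a147], (M a84 (F (T t8912 (L l192 (L l458 (T t8913 (L l192 (T t8914 N))))))))⟩
def e0_64_80__85_128_89 : Ent 4 := ⟨[a0, a64, a80], [a85, a128, a149], (M a168 (L l220 (L l347 (F (L l192 (T t9019 (L l126 (T t9020 (L l163 (L l170 (L l192 (L l368 (T t9021 (K a21 (M a213 (L l220 (F (L l192 (T t9019 (L l126 (T t9020 (L l18 (L l163 (L l170 (L l192 (L l368 (T t9021 (K a170 (M a191 (F (L l180 (L l192 (T t9019 (L l126 (T t9020 (L l18 (L l163 (L l170 (L l192 (L l368 (T t9021 N))))))))))))) (K a191 (M a170 (F (L l126 (T t9020 (L l196 (L l213 (L l219 (T t9022 N)))))))) N))))))))))))))) (K a213 (M a21 (L l220 (F (L l192 (T t9019 (L l368 (L l519 (T t9551 (L l126 (T t9020 (K a170 (M a191 (F (L l458 (T t9401 (L l180 (L l192 (L l199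 (L l390 (T t9552 (L l126 (T t9020 N))))))))))) (K a191 (M a170 (F (L l126 (T t9020 (L l196 (L l213 (L l219 (T t9022 N)))))))) N)))))))))))) (K a170 (M a191 (L l347 (F (L l458 (T t9401 (L l163 (L l170 (L l192 (L l368 (T t9021 (L l126 (T t9020 (K a21 (M a213 (F (L l180 (L l192 (T t9019 (L l126 (T t9020 (L l18 (L l163 (L l170 (L l192 (L l368 (T t9021 N))))))))))))) (K a213 (M a21 (F (L l458 (T t9401 (L l180 (L l192 (L l199 (L l390 (T t9552 (L l126 (T t9020 N))))))))))) N)))))))))))))) (K a191 (M a170 (L l347 (F (L l126 (T t9020 (L l196 (L l213 (L l219 (T t9022 (K a21 (M a213 (F (L l126 (T t9020 (L l196 (L l213 (L l219 (T t9022 N)))))))) (K a213 (M a21 (F (L l126 (T t9020 (L l196 (L l213 (L l219 (T t9022 N)))))))) N))))))))))) N)))))))))))))))))⟩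
def e0_64_80__85_128_90 : Ent 4 := ⟨[a0, a64, a80], [a85, a128, a150], (M a84 (L l350 (F (T t8912 (L l192 (L l458 (T t8913 (L l192 (L l203 (T t8914 (K a20 (M a215 (F (T t8910 (L l192 (T t8991 (T t9222 N)))))) (K a215 (M a20 (F (T t9328 (L l192 (L l458 (T t8913 N)))))) N))))))))))))⟩
def e0_64_80__85_128_91 : Ent 4 := ⟨[a0, a64, a80], [a85, a128, a151], (M a84 (F (T t8912 (L l192 (L l458 (T t8913 (L l192 (T t8914 N))))))))⟩
def e0_64_80__85_128_92 : Ent 4 := ⟨[a0, a64, a80], [a85, a128, a154], (M a84 (L l368 (F (T t8912 (L l192 (L l458 (T t8913 (L l192 (T t8914 (K a16 (M a223 (F (T t8910 (L l192 (T t8991 (T t9222 N)))))) (K a223 (M a16 (F (T t9553 (L l458 (T t9528 N))))) N)))))))))))⟩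
def e0_64_80__85_128_93 : Ent 4 := ⟨[a0, a64, a80], [a85, a128, a155], (M a84 (F (T t8912 (L l192 (L l458 (T t8913 (L l192 (T t8914 N))))))))⟩
def e0_64_80__85_128_94 : Ent 4 := ⟨[a0, a64, a80], [a85, a128, a159], (M a84 (F (T t8912 (L l192 (L l458 (T t8913 (L l192 (T t8914 N))))))))⟩
def e0_64_80__85_128_95 : Ent 4 := ⟨[a0, a64, a80], [a85, a128, a160], (M a84 (L l192 (F (L l376 (T t8912 (T t9540 (L l126 (L l176 (L l216 (L l376 (T t9554 (L l126 (L l176 (L l216 (L l376 (T t9555 (L l126 (L l176 (L l216 (L l376 (T t9556 (L l156 (L l376 (L l458 (T t9557 (K a108 (Fr a112 a96 l116 (Fr a88 a92 l90 (Fr a104 a124 l140 (Fr a76 a100 l146 (V t9574))))) (K a144 (M a176 (F (L l376 (L l484 (T t8910 (T t9546 (L l176 (L l216 (L l376 (L l484 (T t9547 (L l126 (L l176 (L l216 (L l376 (L l484 (T t9548 (L l176 (L l216 (L l484 (T t9549 N))))))))))))))))))))) (K a176 (M a144 (F (L l376 (T t9559 (L l126 (T t9189 (L l126 (L l186 (T t9560 N)))))))))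 N))))))))))))))))))))))))))))⟩
def e0_64_80__85_128_96 : Ent 4 := ⟨[a0, a64, a80], [a85, a128, a161], (M a84 (F (T t8912 (L l172 (L l192 (L l458 (T t8913 (L l172 (L l192 (T t8914 N))))))))))⟩
def e0_64_80__85_128_97 : Ent 4 := ⟨[a0, a64, a80], [a85, a128, a162], (M a84 (L l196 (F (T t8912 (L l172 (L l192 (L l458 (T t8913 (L l172 (L l192 (T t8914 (K a145 (M a179 (F (T t8910 (L l172 (L l192 (T t8991 (L l380 (T t9222 N)))))))) (K a179 (M a145 (F (T t8910 (L l172 (L l192 (T t8991 (L l380 (T t9222 N)))))))) N)))))))))))))⟩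
def e0_64_80__85_128_98 : Ent 4 := ⟨[a0, a64, a80], [a85, a128, a163], (M a84 (F (T t8912 (L l172 (L l192 (L l458 (T t8913 (L l172 (L l192 (T t8914 N))))))))))⟩
def e0_64_80__85_128_99 : Ent 4 := ⟨[a0, a64, a80], [a85, a128, a165], (M a84 (L l455 (F (T t8912 (L l173 (L l180 (L l192 (L l458 (T t8913 (L l180 (L l192 (L l203 (T t8914 (K a5 (M a245 (F (T t8910 (L l173 (L l180 (L l192 (T t8991 (L l180 (L l192 (L l203 (T t8914 N))))))))))) (K a245 (M a5 (F (T t8910 (L l173 (L l180 (L l192 (T t8991 (L l266 (L l483 (T t9222 N)))))))))) N)))))))))))))))⟩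
def e0_64_80__85_128_100 : Ent 4 := ⟨[a0, a64, a80], [a85, a128, a166], (M a84 (L l458 (F (T t8912 (L l192 (L l216 (L l482 (T t8922 (L l192 (T t8914 (K a4 (M a247 (F (T t8912 (L l181 (T t9561 (L l46 (L l192 (L l350 (T t9562 (L l410 (T t9222 (L l126 (L l192 (L l216 (L l310 (T t9563 (L l156 (L l173 (L l192 (L l226 (T t9564 N))))))))))))))))))))) (K a247 (M a4 (F (T t9565 (T t8910 N)))) N))))))))))))⟩
def e0_64_80__85_128_101 : Ent 4 := ⟨[a0, a64, a80], [a85, a128, a167], (M a84 (F (T t8912 (L l173 (L l192 (L l458 (T t8913 (L l192 (T t8914 N)))))))))⟩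
def e0_64_80__85_128_102 : Ent 4 := ⟨[a0, a64, a80], [a85, a128, a170], (M a84 (L l220 (F (T t8912 (L l180 (L l192 (L l458 (T t8913 (L l180 (L l192 (T t8914 (K a149 (M a191 (L l347 (F (T t8910 (L l180 (L l192 (T t8991 (L l404 (T t9222 (K a21 (M a213 (F (T t8910 (L l180 (L l192 (T t8991 (L l180 (L l192 (T t8914 N))))))))) (K a213 (M a21 (F (T t8910 (L l180 (L l192 (T t8991 (L l180 (L l192 (T t8914 N))))))))) N))))))))))) (K a191 (M a149 (F (T t8910 (L l180 (L l192 (T t8991 (L l404 (T t9222 N)))))))) N)))))))))))))⟩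
def e0_64_80__85_128_103 : Ent 4 := ⟨[a0, a64, a80], [a85, a128, a171], (M a84 (F (T t8912 (L l192 (L l458 (T t8913 (L l192 (T t8914 N))))))))⟩
def e0_64_80__85_128_104 : Ent 4 := ⟨[a0, a64, a80], [a85, a128, a175], (M a84 (F (T t8912 (L l180 (L l192 (L l458 (T t8913 (L l180 (L l192 (T t8914 N))))))))))⟩
def e0_64_80__85_128_105 : Ent 4 := ⟨[a0, a64, a80], [a85, a128, a176], (M a84 (L l192 (F (T t8912 (L l458 (T t9528 (L l412 (T t9566 (L l126 (L l186 (L l216 (T t9567 (K a144 (Fr a160 a240 l448 (V t8911)) (K a160 (M a144 (F (L l376 (T t9559 (L l126 (T t9189 (L l126 (L l186 (T t9560 N))))))))) N))))))))))))))⟩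
def e0_64_80__85_128_106 : Ent 4 := ⟨[a0, a64, a80], [a85, a128, a177], (M a84 (F (T t8912 (L l192 (L l458 (T t8913 (L l192 (T t8914 N))))))))⟩
def e0_64_80__85_128_107 : Ent 4 := ⟨[a0, a64, a80], [a85, a128, a178], (M a84 (F (T t8912 (L l192 (L l458 (T t8913 (L l192 (T t8914 N))))))))⟩
def e0_64_80__85_128_108 : Ent 4 := ⟨[a0, a64, a80], [a85, a128, a179], (M a84 (L l196 (F (T t8912 (L l192 (L l458 (T t8913 (L l192 (T t8914 (K a145 (M a162 (F (T t8912 (L l192 (L l193 (L l415 (T t9550 N))))))) (K a162 (M a145 (F (T t8910 (L l172 (L l192 (T t8991 (L l380 (T t9222 N)))))))) N)))))))))))⟩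
def e0_64_80__85_128_109 : Ent 4 := ⟨[a0, a64, a80], [a85, a128, a181], (M a84 (F (T t8912 (L l192 (L l458 (T t8913 (L l183 (L l192 (T t8914 N)))))))))⟩
def e0_64_80__85_128_110 : Ent 4 := ⟨[a0, a64, a80], [a85, a128, a182], (M a84 (F (T t8912 (L l192 (L l458 (T t8913 (L l183 (L l192 (T t8914 N)))))))))⟩
def e0_64_80__85_128_111 : Ent 4 := ⟨[a0, a64, a80], [a85, a128, a183], (M a84 (F (T t8912 (L l192 (L l458 (T t8913 (L l183 (L l192 (T t8914 N)))))))))⟩
def e0_64_80__85_128_112 : Ent 4 := ⟨[a0, a64, a80], [a85, a128, a186], (M a84 (F (T t8912 (L l192 (L l458 (T t8913 (L l192 (T t8914 N))))))))⟩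
def e0_64_80__85_128_113 : Ent 4 := ⟨[a0, a64, a80], [a85, a128, a187], (M a84 (F (T t8912 (L l192 (L l458 (T t8913 (L l192 (T t8914 N))))))))⟩
def e0_64_80__85_128_114 : Ent 4 := ⟨[a0, a64, a80], [a85, a128, a191], (M a84 (L l220 (F (T t8912 (L l192 (L l458 (T t8913 (L l192 (T t8914 (K a149 (M a170 (L l347 (F (T t8910 (L l192 (T t8991 (L l192 (T t8914 (K a21 (M a213 (F (T t8910 (L l192 (T t8991 (L l192 (T t8914 N))))))) (K a213 (M a21 (F (T t8912 (L l192 (T t8991 (T t9222 N)))))) N)))))))))) (K a170 (M a149 (F (T t8910 (L l180 (L l192 (T t8991 (L l404 (T t9222 N)))))))) N)))))))))))⟩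
def e0_64_80__85_128_115 : Ent 4 := ⟨[a0, a64, a80], [a85, a128, a192], (M a84 (F (L l484 (T t8910 (L l292 (L l458 (T t9528 (L l192 (L l484 (L l514 (T t8914 N)))))))))))⟩
def e0_64_80__85_128_116 : Ent 4 := ⟨[a0, a64, a80], [a85, a128, a193], (M a84 (F (T t8912 (L l192 (L l458 (T t8913 (L l192 (T t8914 N))))))))⟩
def e0_64_80__85_128_117 : Ent 4 := ⟨[a0, a64, a80], [a85, a128, a194], (M a84 (F (T t8912 (L l192 (L l458 (T t8913 (L l192 (T t8914 N))))))))⟩
def e0_64_80__85_128_118 : Ent 4 := ⟨[a0, a64, a80], [a85, a128, a195], (M a84 (F (T t8912 (L l192 (L l458 (T t8913 (L l192 (T t8914 N))))))))⟩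
def e0_64_80__85_128_119 : Ent 4 := ⟨[a0, a64, a80], [a85, a128, a197], (M a84 (F (T t8912 (L l192 (L l458 (T t8913 (L l192 (T t8914 N))))))))⟩
def e0_64_80__85_128_120 : Ent 4 := ⟨[a0, a64, a80], [a85, a128, a198], (M a84 (F (T t8912 (L l192 (L l458 (T t8913 (L l192 (T t8914 N))))))))⟩
def e0_64_80__85_128_121 : Ent 4 := ⟨[a0, a64, a80], [a85, a128, a199], (M a84 (F (T t8912 (L l192 (L l314 (L l458 (T t8913 (L l192 (T t8914 N)))))))))⟩
def e0_64_80__85_128_122 : Ent 4 := ⟨[a0, a64, a80], [a85, a128, a202], (M a84 (F (T t8912 (L l192 (L l458 (T t8913 (L l192 (T t8914 N))))))))⟩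
def e0_64_80__85_128_123 : Ent 4 := ⟨[a0, a64, a80], [a85, a128, a203], (M a84 (F (T t8912 (L l192 (L l458 (T t8913 (L l192 (T t8914 N))))))))⟩
def e0_64_80__85_128_124 : Ent 4 := ⟨[a0, a64, a80], [a85, a128, a207], (M a84 (F (T t8912 (L l192 (L l458 (T t8913 (L l192 (T t8914 N))))))))⟩
def e0_64_80__85_128_125 : Ent 4 := ⟨[a0, a64, a80], [a85, a128, a208], (M a84 (F (T t8912 (L l192 (L l458 (T t8913 (L l192 (T t8914 N))))))))⟩
def e0_64_80__85_128_126 : Ent 4 := ⟨[a0, a64, a80], [a85, a128, a209], (M a84 (F (T t8912 (L l192 (L l458 (T t8913 (L l192 (T t8914 N))))))))⟩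
def e0_64_80__85_128_127 : Ent 4 := ⟨[a0, a64, a80], [a85, a128, a210], (M a84 (F (T t8912 (L l192 (L l458 (T t8913 (L l192 (T t8914 N))))))))⟩
def e0_64_80__85_128_128 : Ent 4 := ⟨[a0, a64, a80], [a85, a128, a211], (M a84 (F (T t8912 (L l192 (L l458 (T t8913 (L l192 (T t8914 N))))))))⟩
def e0_64_80__85_128_129 : Ent 4 := ⟨[a0, a64, a80], [a85, a128, a213], (M a84 (L l347 (F (T t8912 (L l192 (L l458 (T t8913 (L l192 (T t8914 (K a21 (M a149 (F (T t8910 (L l192 (T t8991 (T t9222 N)))))) (K a149 (M a21 (L l220 (F (T t8910 (L l192 (T t8991 (T t9222 (K a170 (M a191 (F (T t8910 (L l180 (L l192 (T t8991 (L l180 (L l192 (T t8914 N))))))))) (K a191 (M a170 (F (T t8912 (L l192 (T t8991 (T t9222 N)))))) N))))))))) N)))))))))))⟩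
def e0_64_80__85_128_130 : Ent 4 := ⟨[a0, a64, a80], [a85, a128, a214], (M a84 (F (T t8912 (L l192 (L l458 (T t8913 (L l192 (T t8914 N))))))))⟩
def e0_64_80__85_128_131 : Ent 4 := ⟨[a0, a64, a80], [a85, a128, a215], (M a84 (L l350 (F (T t8912 (L l192 (L l458 (T t8913 (L l192 (T t8914 (K a20 (M a150 (F (T t8910 (L l192 (T t8991 (T t9222 N)))))) (K a150 (M a20 (F (T t9328 (L l192 (L l458 (T t8913 N)))))) N)))))))))))⟩
def e0_64_80__85_128_132 : Ent 4 := ⟨[a0, a64, a80], [a85, a128, a218], (M a84 (F (T t8912 (L l192 (L l458 (T t8913 (L l192 (T t8914 N))))))))⟩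
def e0_64_80__85_128_133 : Ent 4 := ⟨[a0, a64, a80], [a85, a128, a219], (M a84 (F (T t8912 (L l192 (L l458 (T t8913 (L l192 (T t8914 N))))))))⟩
def e0_64_80__85_128_134 : Ent 4 := ⟨[a0, a64, a80], [a85, a128, a223], (M a84 (L l368 (F (T t8912 (L l192 (L l458 (T t8913 (L l192 (T t8914 (K a16 (M a154 (F (T t8910 (L l192 (T t8991 (T t9222 N)))))) (K a154 (M a16 (F (T t9553 (L l458 (T t9528 N))))) N)))))))))))⟩
def e0_64_80__85_128_135 : Ent 4 := ⟨[a0, a64, a80], [a85, a128, a224], (M a84 (F (L l458 (T t9528 (L l126 (T t9189 (L l216 (L l376 (L l406 (T t9529 (L l126 (L l216 (L l376 (T t9556 N))))))))))))))⟩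
def e0_64_80__85_128_136 : Ent 4 := ⟨[a0, a64, a80], [a85, a128, a225], (M a84 (F (T t8912 (L l192 (L l458 (T t8913 (L l192 (T t8914 N))))))))⟩
def e0_64_80__85_128_137 : Ent 4 := ⟨[a0, a64, a80], [a85, a128, a226], (M a84 (F (T t8912 (L l192 (L l458 (T t8913 (L l192 (T t8914 N))))))))⟩
def e0_64_80__85_128_138 : Ent 4 := ⟨[a0, a64, a80], [a85, a128, a227], (M a84 (F (T t8912 (L l192 (L l458 (T t8913 (L l192 (T t8914 N))))))))⟩
def e0_64_80__85_128_139 : Ent 4 := ⟨[a0, a64, a80], [a85, a128, a229], (M a84 (F (T t8912 (L l192 (L l458 (T t8913 (L l192 (T t8914 N))))))))⟩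
def e0_64_80__85_128_140 : Ent 4 := ⟨[a0, a64, a80], [a85, a128, a230], (M a84 (F (T t8912 (L l192 (L l458 (T t8913 (L l192 (T t8914 N))))))))⟩
def e0_64_80__85_128_141 : Ent 4 := ⟨[a0, a64, a80], [a85, a128, a231], (M a84 (F (T t8912 (L l192 (L l458 (T t8913 (L l192 (T t8914 N))))))))⟩
def e0_64_80__85_128_142 : Ent 4 := ⟨[a0, a64, a80], [a85, a128, a234], (M a84 (F (T t8912 (L l192 (L l458 (T t8913 (L l192 (T t8914 N))))))))⟩
def e0_64_80__85_128_143 : Ent 4 := ⟨[a0, a64, a80], [a85, a128, a235], (M a84 (F (T t8912 (L l192 (L l458 (T t8913 (L l192 (T t8914 N))))))))⟩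
def e0_64_80__85_128_144 : Ent 4 := ⟨[a0, a64, a80], [a85, a128, a239], (M a84 (F (T t8912 (L l192 (L l458 (T t8913 (L l192 (T t8914 N))))))))⟩
def e0_64_80__85_128_145 : Ent 4 := ⟨[a0, a64, a80], [a85, a128, a240], (M a84 (F (T t8912 (L l262 (L l298 (T t9532 (L l126 (L l216 (T t9568 (L l216 (L l442 (T t9569 (L l126 (L l216 (L l412 (T t9556 (K a108 (Fr a112 a96 l116 (Fr a88 a92 l90 (Fr a104 a124 l140 (Fr a76 a100 l146 (V t9574))))) (K a124 (M a16 (F (L l268 (T t9570 (L l216 (L l298 (T t9571 (L l134 (L l192 (L l216 (T t9572 N))))))))))) N))))))))))))))))))⟩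
def e0_64_80__85_128_146 : Ent 4 := ⟨[a0, a64, a80], [a85, a128, a241], (M a84 (F (T t8912 (L l192 (L l458 (T t8913 (L l192 (T t8914 N))))))))⟩
def e0_64_80__85_128_147 : Ent 4 := ⟨[a0, a64, a80], [a85, a128, a242], (M a84 (F (T t8912 (L l192 (L l458 (T t8913 (L l192 (T t8914 N))))))))⟩
def e0_64_80__85_128_148 : Ent 4 := ⟨[a0, a64, a80], [a85, a128, a243], (M a84 (F (T t8912 (L l192 (L l458 (T t8913 (L l192 (T t8914 N))))))))⟩
def e0_64_80__85_128_149 : Ent 4 := ⟨[a0, a64, a80], [a85, a128, a245], (M a84 (L l455 (F (T t8912 (L l192 (L l458 (T t8913 (L l192 (T t8914 (K a5 (M a165 (F (T t8912 (L l192 (T t8991 (L l266 (T t9222 N))))))) (K a165 (M a5 (F (T t8910 (L l173 (L l180 (L l192 (T t8991 (L l266 (L l483 (T t9222 N)))))))))) N)))))))))))⟩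
def e0_64_80__85_128_150 : Ent 4 := ⟨[a0, a64, a80], [a85, a128, a246], (M a84 (F (T t8912 (L l192 (L l458 (T t8913 (L l192 (T t8914 N))))))))⟩
def e0_64_80__85_128_151 : Ent 4 := ⟨[a0, a64, a80], [a85, a128, a247], (M a84 (L l458 (F (T t8912 (L l192 (L l216 (T t8922 (L l192 (T t8914 (K a4 (M a166 (F (T t8912 (L l192 (L l265 (L l455 (T t9573 (T t9222 N)))))))) (K a166 (M a4 (F (T t9565 (T t8910 N)))) N)))))))))))⟩
def e0_64_80__85_128_152 : Ent 4 := ⟨[a0, a64, a80], [a85, a128, a250], (M a84 (F (T t8912 (L l192 (L l458 (T t8913 (L l192 (T t8914 N))))))))⟩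
def e0_64_80__85_128_153 : Ent 4 := ⟨[a0, a64, a80], [a85, a128, a251], (M a84 (F (T t8912 (L l192 (L l458 (T t8913 (L l192 (T t8914 N))))))))⟩
def e0_64_80__85_128_154 : Ent 4 := ⟨[a0, a64, a80], [a85, a128, a255], (M a84 (F (T t8912 (L l192 (L l458 (T t8913 (L l192 (T t8914 N))))))))⟩
def b0_64_80__85_128 : Blk 4 := ⟨[0, 64, 80], [85, 128], [1, 2, 3, 5, 6, 7, 10, 11, 15, 16, 17, 18, 19, 21, 22, 23, 26, 27, 31, 32, 33, 34, 35, 37, 38, 39, 42, 43, 47, 48, 49, 50, 51, 53, 54, 55, 58, 59, 63, 65, 66, 67, 69, 70, 71, 74, 75, 79, 81, 82, 83, 86, 87, 90, 91, 95, 96, 97, 98, 99, 101, 102, 103, 106, 107, 111, 112, 113, 114, 115, 117, 118, 119, 122, 123, 127, 129, 130, 131, 133, 134, 135, 138, 139, 143, 144, 145, 146, 147, 149, 150, 151, 154, 155, 159, 160, 161, 162, 163, 165, 166, 167, 170, 171, 175, 176, 177, 178, 179, 181, 182, 183, 186, 187, 191, 192, 193, 194, 195, 197, 198, 199, 202, 203, 207, 208, 209, 210, 211, 213,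 214, 215, 218, 219, 223, 224, 225, 226, 227, 229, 230, 231, 234, 235, 239, 240, 241, 242, 243, 245, 246, 247, 250, 251, 255], [e0_64_80__85_128_0, e0_64_80__85_128_1, e0_64_80__85_128_2, e0_64_80__85_128_3, e0_64_80__85_128_4, e0_64_80__85_128_5, e0_64_80__85_128_6, e0_64_80__85_128_7, e0_64_80__85_128_8, e0_64_80__85_128_9, e0_64_80__85_128_10, e0_64_80__85_128_11, e0_64_80__85_128_12, e0_64_80__85_128_13, e0_64_80__85_128_14, e0_64_80__85_128_15, e0_64_80__85_128_16, e0_64_80__85_128_17, e0_64_80__85_128_18, e0_64_80__85_128_19, e0_64_80__85_128_20, e0_64_80__85_128_21, e0_64_80__85_128_22, e0_64_80__85_128_23, e0_64_80__85_128_24, e0_64_80__85_128_25, e0_64_80__85_128_26, e0_64_80__85_128_27, e0_64_80__85_128_28, e0_64_80__85_128_29, e0_64_80__85_128_30, e0_64_80__85_128_31, e0_64_80__85_128_32, e0_64_80__85_128_33, e0_64_80__85_128_34, e0_64_80__85_128_35, e0_64_80__85_128_36, e0_64_80__85_128_37, e0_64_80__85_128_38,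 e0_64_80__85_128_39, e0_64_80__85_128_40, e0_64_80__85_128_41, e0_64_80__85_128_42, e0_64_80__85_128_43, e0_64_80__85_128_44, e0_64_80__85_128_45, e0_64_80__85_128_46, e0_64_80__85_128_47, e0_64_80__85_128_48, e0_64_80__85_128_49, e0_64_80__85_128_50, e0_64_80__85_128_51, e0_64_80__85_128_52, e0_64_80__85_128_53, e0_64_80__85_128_54, e0_64_80__85_128_55, e0_64_80__85_128_56, e0_64_80__85_128_57, e0_64_80__85_128_58, e0_64_80__85_128_59, e0_64_80__85_128_60, e0_64_80__85_128_61, e0_64_80__85_128_62, e0_64_80__85_128_63, e0_64_80__85_128_64, e0_64_80__85_128_65, e0_64_80__85_128_66, e0_64_80__85_128_67, e0_64_80__85_128_68, e0_64_80__85_128_69, e0_64_80__85_128_70, e0_64_80__85_128_71, e0_64_80__85_128_72, e0_64_80__85_128_73, e0_64_80__85_128_74, e0_64_80__85_128_75, e0_64_80__85_128_76, e0_64_80__85_128_77, e0_64_80__85_128_78, e0_64_80__85_128_79, e0_64_80__85_128_80, e0_64_80__85_128_81, e0_64_80__85_128_82, e0_64_80__85_128_83,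 e0_64_80__85_128_84, e0_64_80__85_128_85, e0_64_80__85_128_86, e0_64_80__85_128_87, e0_64_80__85_128_88, e0_64_80__85_128_89, e0_64_80__85_128_90, e0_64_80__85_128_91, e0_64_80__85_128_92, e0_64_80__85_128_93, e0_64_80__85_128_94, e0_64_80__85_128_95, e0_64_80__85_128_96, e0_64_80__85_128_97, e0_64_80__85_128_98, e0_64_80__85_128_99, e0_64_80__85_128_100, e0_64_80__85_128_101, e0_64_80__85_128_102, e0_64_80__85_128_103, e0_64_80__85_128_104, e0_64_80__85_128_105, e0_64_80__85_128_106, e0_64_80__85_128_107, e0_64_80__85_128_108, e0_64_80__85_128_109, e0_64_80__85_128_110, e0_64_80__85_128_111, e0_64_80__85_128_112, e0_64_80__85_128_113, e0_64_80__85_128_114, e0_64_80__85_128_115, e0_64_80__85_128_116, e0_64_80__85_128_117, e0_64_80__85_128_118, e0_64_80__85_128_119, e0_64_80__85_128_120, e0_64_80__85_128_121, e0_64_80__85_128_122, e0_64_80__85_128_123, e0_64_80__85_128_124, e0_64_80__85_128_125, e0_64_80__85_128_126,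 e0_64_80__85_128_127, e0_64_80__85_128_128, e0_64_80__85_128_129, e0_64_80__85_128_130, e0_64_80__85_128_131, e0_64_80__85_128_132, e0_64_80__85_128_133, e0_64_80__85_128_134, e0_64_80__85_128_135, e0_64_80__85_128_136, e0_64_80__85_128_137, e0_64_80__85_128_138, e0_64_80__85_128_139, e0_64_80__85_128_140, e0_64_80__85_128_141, e0_64_80__85_128_142, e0_64_80__85_128_143, e0_64_80__85_128_144, e0_64_80__85_128_145, e0_64_80__85_128_146, e0_64_80__85_128_147, e0_64_80__85_128_148, e0_64_80__85_128_149, e0_64_80__85_128_150, e0_64_80__85_128_151, e0_64_80__85_128_152, e0_64_80__85_128_153, e0_64_80__85_128_154], by decide +kernel, by decide +kernel⟩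
def e0_192_48__255_0 : Ent 4 := ⟨[a0, a192, a48], [a255, a64], (M a148 (F (L l434 (T t9770 (L l140 (L l470 (T t9771 (L l116 (T t9772 N)))))))))⟩
def b0_192_48__255 : Blk 4 := ⟨[0, 192, 48], [255], [64], [e0_192_48__255_0], by decide +kernel, by decide +kernel⟩

end Pool.Agent.Lib_TTT.K4
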