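import Pool.Agent.Lib_TTT.K4Base
import Pool.Agent.Lib_TTT.K4T00
import Pool.Agent.Lib_TTT.K4T01
import Pool.Agent.Lib_TTT.K4T02
import Pool.Agent.Lib_TTT.K4T03
import Pool.Agent.Lib_TTT.K4T05
import Pool.Agent.Lib_TTT.K4T06
import Pool.Agent.Lib_TTT.K4T07
import Pool.Agent.Lib_TTT.K4T09
import Pool.Agent.Lib_TTT.K4T10
import Pool.Agent.Lib_TTT.K4T11

/-! Certificates in `4^4`. -/

set_option autoImplicit false
set_option maxRecDepth 200000

namespace Pool.Agent.Lib_TTT.K4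

open Lib_TTT AC DC

def e0_192_48__255_64_0 : Ent 4 := ⟨[a0, a192, a48], [a255, a64, a1], (M a148 (F (L l434 (T t9770 (L l140 (L l470 (T t9771 (L l116 (T t9772 N)))))))))⟩
def e0_192_48__255_64_1 : Ent 4 := ⟨[a0, a192, a48], [a255, a64, a2], (M a148 (F (L l434 (T t9770 (L l140 (L l470 (T t9771 (L l116 (T t9772 N)))))))))⟩
def e0_192_48__255_64_2 : Ent 4 := ⟨[a0, a192, a48], [a255, a64, a3], (M a148 (L l475 (F (L l116 (T t9773 (L l9 (L l140 (L l470 (T t9771 (L l116 (T t9772 (K a87 (M a171 (F (L l116 (T t9773 (L l9 (L l140 (L l470 (T t9771 (L l116 (T t9772 N)))))))))) (K a171 (M a87 (F (L l116 (T t9773 (L l9 (L l140 (L l470 (T t9771 (L l116 (T t9772 N)))))))))) N)))))))))))))⟩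
def e0_192_48__255_64_3 : Ent 4 := ⟨[a0, a192, a48], [a255, a64, a5], (M a148 (F (L l434 (T t9770 (L l140 (L l470 (T t9771 (L l116 (T t9772 N)))))))))⟩
def e0_192_48__255_64_4 : Ent 4 := ⟨[a0, a192, a48], [a255, a64, a6], (M a148 (F (L l434 (T t9770 (L l9 (L l140 (L l470 (T t9771 (L l116 (T t9772 N))))))))))⟩
def e0_192_48__255_64_5 : Ent 4 := ⟨[a0, a192, a48], [a255, a64, a7], (M a148 (F (L l434 (T t9770 (L l51 (L l140 (L l470 (T t9771 (L l116 (T t9772 N))))))))))⟩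
def e0_192_48__255_64_6 : Ent 4 := ⟨[a0, a192, a48], [a255, a64, a10], (M a148 (F (L l434 (T t9770 (L l2 (L l140 (L l470 (T t9771 (L l116 (T t9772 N))))))))))⟩
def e0_192_48__255_64_7 : Ent 4 := ⟨[a0, a192, a48], [a255, a64, a11], (M a148 (F (L l434 (T t9770 (L l2 (L l140 (L l470 (T t9771 (L l116 (T t9772 N))))))))))⟩
def e0_192_48__255_64_8 : Ent 4 := ⟨[a0, a192, a48], [a255, a64, a15], (M a148 (L l469 (F (L l116 (T t9773 (L l3 (L l140 (L l470 (T t9771 (L l116 (T t9772 (K a95 (M a175 (F (L l116 (T t9773 (L l3 (L l140 (L l470 (T t9771 (L l116 (T t9772 N)))))))))) (K a175 (M a95 (F (L l116 (T t9773 (L l3 (L l140 (L l470 (T t9771 (L l116 (T t9772 N)))))))))) N)))))))))))))⟩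
def e0_192_48__255_64_9 : Ent 4 := ⟨[a0, a192, a48], [a255, a64, a16], (M a148 (F (L l116 (T t9773 (L l140 (T t10144 (L l80 (L l116 (T t10145 (L l140 (T t10146 (L l14 (L l340 (L l434 (T t10147 (L l80 (L l116 (L l290 (T t10148 N)))))))))))))))))))⟩
def e0_192_48__255_64_10 : Ent 4 := ⟨[a0, a192, a48], [a255, a64, a17], (M a148 (F (L l434 (T t9770 (L l140 (L l470 (T t9771 (L l116 (T t9772 N)))))))))⟩
def e0_192_48__255_64_11 : Ent 4 := ⟨[a0, a192, a48], [a255, a64, a18], (M a148 (F (L l434 (T t9770 (L l140 (L l470 (T t9771 (L l116 (T t9772 N)))))))))⟩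
def e0_192_48__255_64_12 : Ent 4 := ⟨[a0, a192, a48], [a255, a64, a19], (M a148 (F (L l434 (T t9770 (L l140 (L l470 (T t9771 (L l116 (L l369 (T t9772 N))))))))))⟩
def e0_192_48__255_64_13 : Ent 4 := ⟨[a0, a192, a48], [a255, a64, a21], (M a148 (F (L l434 (T t9770 (L l11 (L l140 (L l470 (T t9771 (L l11 (L l116 (T t9772 N)))))))))))⟩
def e0_192_48__255_64_14 : Ent 4 := ⟨[a0, a192, a48], [a255, a64, a22], (M a148 (F (L l116 (T t9773 (L l11 (L l51 (L l140 (L l470 (T t9771 (L l11 (L l116 (T t9772 N))))))))))))⟩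
def e0_192_48__255_64_15 : Ent 4 := ⟨[a0, a192, a48], [a255, a64, a23], (M a148 (F (L l434 (T t9770 (L l11 (L l140 (L l470 (T t9771 (L l11 (L l116 (T t9772 N)))))))))))⟩
def e0_192_48__255_64_16 : Ent 4 := ⟨[a0, a192, a48], [a255, a64, a26], (M a148 (F (L l434 (T t9770 (L l140 (L l470 (T t9771 (L l116 (T t9772 N)))))))))⟩
def e0_192_48__255_64_17 : Ent 4 := ⟨[a0, a192, a48], [a255, a64, a27], (M a148 (F (L l434 (T t9770 (L l140 (L l470 (T t9771 (L l116 (T t9772 N)))))))))⟩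
def e0_192_48__255_64_18 : Ent 4 := ⟨[a0, a192, a48], [a255, a64, a31], (M a148 (F (L l434 (T t9770 (L l140 (L l470 (T t9771 (L l116 (L l363 (T t9772 N))))))))))⟩
def e0_192_48__255_64_19 : Ent 4 := ⟨[a0, a192, a48], [a255, a64, a32], (M a148 (F (L l116 (L l290 (L l376 (T t9777 (L l24 (L l80 (L l140 (T t10149 (L l80 (L l116 (L l376 (L l400 (T t10150 (L l24 (L l140 (L l470 (T t10151 (L l434 (T t10147 (L l24 (L l80 (L l116 (L l290 (L l376 (T t10148 N)))))))))))))))))))))))))))⟩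
def e0_192_48__255_64_20 : Ent 4 := ⟨[a0, a192, a48], [a255, a64, a33], (M a148 (F (L l434 (T t9770 (L l140 (L l470 (T t9771 (L l20 (L l116 (T t9772 N))))))))))⟩
def e0_192_48__255_64_21 : Ent 4 := ⟨[a0, a192, a48], [a255, a64, a34], (M a148 (F (L l434 (T t9770 (L l140 (L l470 (T t9771 (L l20 (L l116 (T t9772 N))))))))))⟩
def e0_192_48__255_64_22 : Ent 4 := ⟨[a0, a192, a48], [a255, a64, a35], (M a148 (F (L l434 (T t9770 (L l140 (L l470 (T t9771 (L l20 (L l116 (T t9772 N))))))))))⟩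
def e0_192_48__255_64_23 : Ent 4 := ⟨[a0, a192, a48], [a255, a64, a37], (M a148 (F (L l434 (T t9770 (L l51 (L l140 (L l470 (T t9771 (L l28 (L l116 (T t9772 N)))))))))))⟩
def e0_192_48__255_64_24 : Ent 4 := ⟨[a0, a192, a48], [a255, a64, a38], (M a148 (F (L l434 (T t9770 (L l74 (L l140 (L l470 (T t9771 (L l116 (T t9772 N))))))))))⟩
def e0_192_48__255_64_25 : Ent 4 := ⟨[a0, a192, a48], [a255, a64, a39], (M a148 (F (L l434 (T t9770 (L l140 (L l470 (T t9771 (L l116 (T t9772 N)))))))))⟩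
def e0_192_48__255_64_26 : Ent 4 := ⟨[a0, a192, a48], [a255, a64, a42], (M a148 (F (L l434 (T t9770 (L l56 (L l140 (L l470 (T t9771 (L l28 (L l116 (T t9772 N)))))))))))⟩
def e0_192_48__255_64_27 : Ent 4 := ⟨[a0, a192, a48], [a255, a64, a43], (M a148 (F (L l116 (T t9773 (L l140 (L l470 (T t9771 (L l116 (T t9772 N)))))))))⟩
def e0_192_48__255_64_28 : Ent 4 := ⟨[a0, a192, a48], [a255, a64, a47], (M a148 (F (L l434 (T t9770 (L l140 (L l470 (T t9771 (L l28 (L l116 (T t9772 N))))))))))⟩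
def e0_192_48__255_64_29 : Ent 4 := ⟨[a0, a192, a48], [a255, a64, a49], (M a148 (F (L l434 (T t9770 (L l140 (L l470 (T t9771 (L l116 (T t9772 N)))))))))⟩
def e0_192_48__255_64_30 : Ent 4 := ⟨[a0, a192, a48], [a255, a64, a50], (M a148 (F (L l434 (T t9770 (L l140 (L l470 (T t9771 (L l116 (T t9772 N)))))))))⟩
def e0_192_48__255_64_31 : Ent 4 := ⟨[a0, a192, a48], [a255, a64, a51], (M a148 (L l439 (F (L l116 (T t9773 (L l74 (L l140 (L l470 (T t9771 (L l116 (T t9772 (K a119 (M a187 (F (L l116 (T t9773 (L l74 (L l140 (L l470 (T t9771 (L l116 (T t9772 N)))))))))) (K a187 (M a119 (F (L l116 (T t9773 (L l74 (L l140 (L l470 (T t9771 (L l116 (T t9772 N)))))))))) N)))))))))))))⟩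
def e0_192_48__255_64_32 : Ent 4 := ⟨[a0, a192, a48], [a255, a64, a53], (M a148 (F (L l434 (T t9770 (L l31 (L l140 (L l470 (T t9771 (L l116 (T t9772 N))))))))))⟩
def e0_192_48__255_64_33 : Ent 4 := ⟨[a0, a192, a48], [a255, a64, a54], (M a148 (F (L l116 (T t9773 (L l31 (L l140 (L l470 (T t9771 (L l116 (T t9772 N))))))))))⟩
def e0_192_48__255_64_34 : Ent 4 := ⟨[a0, a192, a48], [a255, a64, a55], (M a148 (F (L l434 (T t9770 (L l31 (L l140 (L l470 (T t9771 (L l116 (T t9772 N))))))))))⟩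
def e0_192_48__255_64_35 : Ent 4 := ⟨[a0, a192, a48], [a255, a64, a58], (M a148 (F (L l434 (T t9770 (L l140 (L l470 (T t9771 (L l116 (T t9772 N)))))))))⟩
def e0_192_48__255_64_36 : Ent 4 := ⟨[a0, a192, a48], [a255, a64, a59], (M a148 (F (L l434 (T t9770 (L l56 (L l140 (L l470 (T t9771 (L l116 (T t9772 N))))))))))⟩
def e0_192_48__255_64_37 : Ent 4 := ⟨[a0, a192, a48], [a255, a64, a63], (M a148 (L l433 (F (L l116 (T t9773 (L l62 (L l140 (L l470 (T t9771 (L l116 (T t9772 (K a127 (M a191 (L l144 (F (L l116 (T t9773 (L l62 (L l140 (L l470 (T t9771 (L l116 (T t9772 (K a85 (M a106 (F (L l116 (T t9773 (L l62 (L l140 (L l350 (L l470 (T t9771 (L l116 (L l350 (T t9772 N)))))))))))) (K a106 (M a85 (F (L l33 (L l434 (T t10152 (L l62 (L l98 (L l140 (L l470 (T t9771 (L l104 (L l116 (T t9772 N))))))))))))) N))))))))))))) (K a191 (M a127 (F (L l116 (T t9773 (L l62 (L l140 (L l470 (T t9771 (L l116 (T t9772 N)))))))))) N)))))))))))))⟩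
def e0_192_48__255_64_38 : Ent 4 := ⟨[a0, a192, a48], [a255, a64, a65], (M a148 (L l76 (F (L l434 (T t9770 (L l140 (L l470 (T t9771 (L l116 (T t9772 (K a66 (M a67 (F (L l434 (T t10152 (L l140 (L l470 (T t9771 (L l116 (T t9772 N))))))))) (K a67 (M a66 (F (L l434 (T t10152 (L l305 (L l439 (T t8356 N))))))) N))))))))))))⟩
def e0_192_48__255_64_39 : Ent 4 := ⟨[a0, a192, a48], [a255, a64, a66], (M a148 (L l76 (F (L l434 (T t9770 (L l140 (L l470 (T t9771 (L l116 (T t9772 (K a65 (M a67 (F (L l434 (T t10152 (L l140 (L l470 (T t9771 (L l116 (T t9772 N))))))))) (K a67 (M a65 (F (L l116 (T t9773 (L l265 (L l306 (T t688 N))))))) N))))))))))))⟩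
def e0_192_48__255_64_40 : Ent 4 := ⟨[a0, a192, a48], [a255, a64, a67], (M a148 (L l76 (F (L l434 (T t9770 (L l140 (L l470 (T t9771 (L l116 (T t9772 (K a65 (M a66 (F (L l434 (T t10152 (L l305 (L l439 (T t8356 N))))))) (K a66 (M a65 (F (L l116 (T t9773 (L l265 (L l306 (T t688 N))))))) N))))))))))))⟩
def e0_192_48__255_64_41 : Ent 4 := ⟨[a0, a192, a48], [a255, a64, a69], (M a148 (L l84 (F (L l434 (T t9770 (L l140 (L l470 (T t9771 (L l116 (T t9772 (K a74 (M a79 (F (L l434 (T t10152 (L l140 (L l470 (T t9771 (L l116 (T t9772 N))))))))) (K a79 (M a74 (F (L l434 (T t10152 (L l311 (L l433 (T t9887 N))))))) N))))))))))))⟩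
def e0_192_48__255_64_42 : Ent 4 := ⟨[a0, a192, a48], [a255, a64, a70], (M a148 (F (L l434 (T t9770 (L l140 (L l470 (T t9771 (L l116 (T t9772 N)))))))))⟩
def e0_192_48__255_64_43 : Ent 4 := ⟨[a0, a192, a48], [a255, a64, a71], (M a148 (F (L l434 (T t9770 (L l140 (L l470 (T t9771 (L l116 (T t9772 N)))))))))⟩
def e0_192_48__255_64_44 : Ent 4 := ⟨[a0, a192, a48], [a255, a64, a74], (M a148 (L l84 (F (L l434 (T t9770 (L l140 (L l470 (T t9771 (L l116 (T t9772 (K a69 (M a79 (F (L l434 (T t10152 (L l140 (L l470 (T t9771 (L l116 (T t9772 N))))))))) (K a79 (M a69 (F (L l116 (T t9773 (L l137 (L l318 (L l433 (T t10153 (L l140 (L l470 (T t9771 N))))))))))) N))))))))))))⟩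
def e0_192_48__255_64_45 : Ent 4 := ⟨[a0, a192, a48], [a255, a64, a75], (M a148 (F (L l434 (T t9770 (L l140 (L l470 (T t9771 (L l116 (T t9772 N)))))))))⟩
def e0_192_48__255_64_46 : Ent 4 := ⟨[a0, a192, a48], [a255, a64, a79], (M a148 (L l84 (F (L l434 (T t9770 (L l140 (L l470 (T t9771 (L l116 (T t9772 (K a69 (M a74 (F (L l434 (T t10152 (L l311 (L l433 (T t9887 N))))))) (K a74 (M a69 (F (L l116 (T t9773 (L l137 (L l318 (L l433 (T t10153 (L l140 (L l470 (T t9771 N))))))))))) N))))))))))))⟩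
def e0_192_48__255_64_47 : Ent 4 := ⟨[a0, a192, a48], [a255, a64, a80], (M a60 (L l116 (F (T t1543 (L l140 (L l290 (T t10154 (L l340 (T t10155 (K a96 (M a112 (F (T t10156 (L l340 (L l470 (T t880 (L l340 (L l470 (T t10157 N))))))))) (K a112 (Fr a96 a144 l484 (V t10158)) N)))))))))))⟩
def e0_192_48__255_64_48 : Ent 4 := ⟨[a0, a192, a48], [a255, a64, a81], (M a148 (L l120 (F (L l434 (T t9770 (L l140 (L l470 (T t9771 (L l116 (T t9772 (K a98 (M a115 (F (L l434 (T t10152 (L l140 (L l470 (T t9771 (L l96 (L l116 (T t9772 N)))))))))) (K a115 (M a98 (F (L l434 (T t10152 (L l341 (L l449 (L l475 (T t10159 N)))))))) N))))))))))))⟩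
def e0_192_48__255_64_49 : Ent 4 := ⟨[a0, a192, a48], [a255, a64, a82], (M a148 (F (L l434 (T t9770 (L l140 (L l470 (T t9771 (L l116 (T t9772 N)))))))))⟩
def e0_192_48__255_64_50 : Ent 4 := ⟨[a0, a192, a48], [a255, a64, a83], (M a148 (F (L l434 (T t9770 (L l140 (L l470 (T t9771 (L l116 (T t9772 N)))))))))⟩
def e0_192_48__255_64_51 : Ent 4 := ⟨[a0, a192, a48], [a255, a64, a85], (M a148 (L l144 (F (L l434 (T t9770 (L l140 (L l350 (L l470 (T t9771 (L l116 (L l350 (T t9772 (K a106 (M a127 (F (L l434 (T t10152 (L l98 (L l140 (L l350 (L l470 (T t9771 (L l104 (L l116 (L l350 (T t9772 N))))))))))))) (K a127 (M a106 (L l433 (F (L l116 (T t9773 (L l347 (L l455 (L l469 (T t9893 (K a63 (M a191 (F (L l116 (T t9773 (L l62 (L l140 (L l350 (L l470 (T t9771 (L l116 (L l350 (T t9772 N)))))))))))) (K a191 (Fr a63 a149 l519 (V t8313)) N))))))))))) N))))))))))))))⟩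
def e0_192_48__255_64_52 : Ent 4 := ⟨[a0, a192, a48], [a255, a64, a86], (M a148 (F (L l116 (T t9773 (L l140 (L l470 (T t9771 (L l116 (L l369 (T t9772 N))))))))))⟩
def e0_192_48__255_64_53 : Ent 4 := ⟨[a0, a192, a48], [a255, a64, a87], (M a148 (L l475 (F (L l434 (T t9770 (L l140 (L l470 (T t9771 (L l116 (T t9772 (K a3 (M a171 (F (L l116 (T t9773 (L l9 (L l140 (L l470 (T t9771 (L l116 (T t9772 N)))))))))) (K a171 (M a3 (F (T t797 (L l140 (L l290 (T t9899 N)))))) N))))))))))))⟩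
def e0_192_48__255_64_54 : Ent 4 := ⟨[a0, a192, a48], [a255, a64, a90], (M a148 (F (L l434 (T t9770 (L l140 (L l470 (T t9771 (L l116 (T t9772 N)))))))))⟩
def e0_192_48__255_64_55 : Ent 4 := ⟨[a0, a192, a48], [a255, a64, a91], (M a148 (F (L l434 (T t9770 (L l140 (L l470 (T t9771 (L l116 (T t9772 N)))))))))⟩
def e0_192_48__255_64_56 : Ent 4 := ⟨[a0, a192, a48], [a255, a64, a95], (M a148 (L l469 (F (L l434 (T t9770 (L l140 (L l470 (T t9771 (L l116 (T t9772 (K a15 (M a175 (F (L l116 (T t9773 (L l3 (L l140 (L l470 (T t9771 (L l116 (T t9772 N)))))))))) (K a175 (M a15 (F (T t10160 (L l140 (L l290 (T t9899 N)))))) N))))))))))))⟩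
def e0_192_48__255_64_57 : Ent 4 := ⟨[a0, a192, a48], [a255, a64, a96], (M a84 (L l116 (F (L l261 (T t6167 (L l434 (T t10161 (L l80 (T t10162 (L l80 (L l290 (L l376 (T t10163 (L l80 (L l100 (L l376 (T t10164 (K a80 (M a112 (F (L l376 (T t8886 (L l434 (T t10165 (L l376 (T t10166 (L l80 (L l290 (L l376 (T t10167 (L l80 (L l100 (L l266 (L l376 (T t10168 N))))))))))))))))) (K a112 (M a80 (F (L l376 (T t10169 (L l80 (L l290 (T t3280 (L l261 (T t9528 N))))))))) N)))))))))))))))))))⟩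
def e0_192_48__255_64_58 : Ent 4 := ⟨[a0, a192, a48], [a255, a64, a97], (M a148 (F (L l434 (T t9770 (L l140 (L l470 (T t9771 (L l96 (L l116 (L l380 (T t9772 N)))))))))))⟩
def e0_192_48__255_64_59 : Ent 4 := ⟨[a0, a192, a48], [a255, a64, a98], (M a148 (L l120 (F (L l434 (T t9770 (L l140 (L l470 (T t9771 (L l96 (L l116 (T t9772 (K a81 (M a115 (F (L l434 (T t10152 (L l140 (L l470 (T t9771 (L l96 (L l116 (T t9772 N)))))))))) (K a115 (M a81 (F (L l434 (T t10152 (L l76 (L l295 (L l378 (T t10170 N)))))))) N)))))))))))))⟩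
def e0_192_48__255_64_60 : Ent 4 := ⟨[a0, a192, a48], [a255, a64, a99], (M a148 (F (L l96 (L l116 (T t9773 (L l140 (L l470 (T t9771 (L l96 (L l116 (T t9772 N)))))))))))⟩
def e0_192_48__255_64_61 : Ent 4 := ⟨[a0, a192, a48], [a255, a64, a101], (M a148 (F (L l434 (T t9770 (L l140 (L l470 (L l494 (T t9771 (L l104 (L l116 (L l404 (T t9772 N))))))))))))⟩
def e0_192_48__255_64_62 : Ent 4 := ⟨[a0, a192, a48], [a255, a64, a102], (M a148 (F (L l116 (L l434 (T t10171 (L l140 (L l470 (T t9771 (L l116 (T t9772 N))))))))))⟩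
def e0_192_48__255_64_63 : Ent 4 := ⟨[a0, a192, a48], [a255, a64, a103], (M a148 (F (L l434 (T t9770 (L l140 (L l470 (T t9771 (L l116 (T t9772 N)))))))))⟩
def e0_192_48__255_64_64 : Ent 4 := ⟨[a0, a192, a48], [a255, a64, a106], (M a148 (L l144 (F (L l434 (T t9770 (L l98 (L l140 (L l470 (T t9771 (L l104 (L l116 (T t9772 (K a85 (M a127 (F (L l434 (T t10152 (L l98 (L l140 (L l350 (L l470 (T t9771 (L l104 (L l116 (L l350 (T t9772 N))))))))))))) (K a127 (M a85 (L l433 (F (L l434 (T t9770 (L l98 (L l140 (L l470 (T t9771 (L l104 (L l116 (T t9772 (K a63 (M a191 (F (L l33 (L l434 (T t10152 (L l62 (L l98 (L l140 (L l470 (T t9771 (L l104 (L l116 (T t9772 N))))))))))))) (K a191 (M a63 (F (T t48 (L l104 (L l116 (T t9773 N)))))) N)))))))))))))) N))))))))))))))⟩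
def e0_192_48__255_64_65 : Ent 4 := ⟨[a0, a192, a48], [a255, a64, a107], (M a148 (F (L l434 (T t9770 (L l98 (L l140 (L l470 (T t9771 (L l116 (T t9772 N))))))))))⟩
def e0_192_48__255_64_66 : Ent 4 := ⟨[a0, a192, a48], [a255, a64, a111], (M a148 (F (L l104 (L l116 (T t9773 (L l140 (L l470 (T t9771 (L l104 (L l116 (T t9772 N)))))))))))⟩
def e0_192_48__255_64_67 : Ent 4 := ⟨[a0, a192, a48], [a255, a64, a112], (M a100 (L l116 (F (T t10055 (L l110 (L l261 (T t4655 (T t9977 (K a80 (Fr a96 a144 l484 (V t10172)) (K a96 (M a80 (F (L l376 (T t10169 (L l261 (T t4657 (L l376 (T t10173 (K a32 (Fr a204 a152 l508 (Fr a240 a160 l448 (Fr a224 a208 l268 (V t10190)))) N))))))))) N))))))))))⟩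
def e0_192_48__255_64_68 : Ent 4 := ⟨[a0, a192, a48], [a255, a64, a113], (M a148 (F (L l434 (T t9770 (L l140 (L l470 (T t9771 (L l116 (T t9772 N)))))))))⟩
def e0_192_48__255_64_69 : Ent 4 := ⟨[a0, a192, a48], [a255, a64, a114], (M a148 (F (L l434 (T t9770 (L l140 (L l470 (T t9771 (L l116 (T t9772 N)))))))))⟩
def e0_192_48__255_64_70 : Ent 4 := ⟨[a0, a192, a48], [a255, a64, a115], (M a98 (F (T t10175 (L l475 (T t10159 (L l119 (T t10176 N)))))))⟩
def e0_192_48__255_64_71 : Ent 4 := ⟨[a0, a192, a48], [a255, a64, a117], (M a148 (F (L l434 (T t9770 (L l140 (L l422 (L l470 (T t9771 (L l116 (T t9772 N))))))))))⟩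
def e0_192_48__255_64_72 : Ent 4 := ⟨[a0, a192, a48], [a255, a64, a118], (M a148 (F (L l434 (T t9770 (L l140 (L l470 (T t9771 (L l116 (T t9772 N)))))))))⟩
def e0_192_48__255_64_73 : Ent 4 := ⟨[a0, a192, a48], [a255, a64, a119], (M a51 (F (T t10177 (L l475 (T t1901 (L l116 (L l120 (T t10178 N))))))))⟩
def e0_192_48__255_64_74 : Ent 4 := ⟨[a0, a192, a48], [a255, a64, a122], (M a148 (F (L l434 (T t9770 (L l140 (L l470 (T t9771 (L l116 (T t9772 N)))))))))⟩
def e0_192_48__255_64_75 : Ent 4 := ⟨[a0, a192, a48], [a255, a64, a123], (M a148 (F (L l434 (T t9770 (L l140 (L l470 (T t9771 (L l116 (T t9772 N)))))))))⟩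
def e0_192_48__255_64_76 : Ent 4 := ⟨[a0, a192, a48], [a255, a64, a127], (M a63 (L l144 (F (T t56 (L l469 (T t1 (L l137 (T t525 (K a85 (Fr a106 a149 l519 (V t6558)) (K a106 (M a85 (F (T t48 (L l104 (L l116 (L l289 (T t9961 (L l114 (L l390 (L l498 (T t51 N))))))))))) N))))))))))⟩
def e0_192_48__255_64_77 : Ent 4 := ⟨[a0, a192, a48], [a255, a64, a128], (M a148 (F (L l116 (T t9773 (L l140 (L l470 (T t9771 (L l116 (T t9772 N)))))))))⟩
def e0_192_48__255_64_78 : Ent 4 := ⟨[a0, a192, a48], [a255, a64, a129], (M a148 (F (L l434 (T t9770 (L l140 (L l470 (T t9771 (L l116 (T t9772 N)))))))))⟩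
def e0_192_48__255_64_79 : Ent 4 := ⟨[a0, a192, a48], [a255, a64, a130], (M a148 (F (L l434 (T t9770 (L l140 (L l470 (T t9771 (L l116 (T t9772 N)))))))))⟩
def e0_192_48__255_64_80 : Ent 4 := ⟨[a0, a192, a48], [a255, a64, a131], (M a148 (F (L l434 (T t9770 (L l140 (L l470 (T t9771 (L l116 (T t9772 N)))))))))⟩
def e0_192_48__255_64_81 : Ent 4 := ⟨[a0, a192, a48], [a255, a64, a133], (M a148 (F (L l434 (T t9770 (L l140 (L l470 (T t9771 (L l116 (T t9772 N)))))))))⟩
def e0_192_48__255_64_82 : Ent 4 := ⟨[a0, a192, a48], [a255, a64, a134], (M a148 (F (L l434 (T t9770 (L l140 (L l338 (L l470 (T t9771 (L l116 (T t9772 N))))))))))⟩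
def e0_192_48__255_64_83 : Ent 4 := ⟨[a0, a192, a48], [a255, a64, a135], (M a148 (F (L l434 (T t9770 (L l140 (L l470 (T t9771 (L l116 (T t9772 N)))))))))⟩
def e0_192_48__255_64_84 : Ent 4 := ⟨[a0, a192, a48], [a255, a64, a138], (M a148 (F (L l434 (T t9770 (L l140 (L l320 (L l470 (T t9771 (L l116 (T t9772 N))))))))))⟩
def e0_192_48__255_64_85 : Ent 4 := ⟨[a0, a192, a48], [a255, a64, a139], (M a148 (F (L l434 (T t9770 (L l140 (L l470 (T t9771 (L l116 (T t9772 N)))))))))⟩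
def e0_192_48__255_64_86 : Ent 4 := ⟨[a0, a192, a48], [a255, a64, a143], (M a148 (F (L l434 (T t9770 (L l140 (L l470 (T t9771 (L l116 (T t9772 N)))))))))⟩
def e0_192_48__255_64_87 : Ent 4 := ⟨[a0, a192, a48], [a255, a64, a144], (M a20 (F (T t183 (L l80 (L l140 (T t10179 (L l140 (L l290 (T t10180 (L l340 (L l434 (T t3439 (L l140 (L l470 (T t10181 (K a60 (M a84 (L l434 (F (T t10182 (L l261 (L l430 (T t3406 (L l166 (L l340 (T t10183 (K a125 (M a190 (F (T t10182 (L l261 (L l340 (L l430 (T t6167 (L l166 (L l340 (T t10183 N)))))))))) (K a190 (M a125 (F (T t10182 (L l261 (L l340 (L l430 (T t6167 (L l166 (L l340 (T t10183 N)))))))))) N)))))))))))) N))))))))))))))))⟩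
def e0_192_48__255_64_88 : Ent 4 := ⟨[a0, a192, a48], [a255, a64, a145], (M a148 (F (L l116 (T t9773 (L l140 (L l470 (T t9771 (L l116 (T t9772 N)))))))))⟩
def e0_192_48__255_64_89 : Ent 4 := ⟨[a0, a192, a48], [a255, a64, a146], (M a148 (F (L l116 (T t9773 (L l140 (L l470 (T t9771 (L l116 (T t9772 N)))))))))⟩
def e0_192_48__255_64_90 : Ent 4 := ⟨[a0, a192, a48], [a255, a64, a147], (M a148 (F (L l116 (L l171 (T t9773 (L l140 (L l470 (T t9771 (L l116 (L l171 (T t9772 N)))))))))))⟩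
def e0_192_48__255_64_91 : Ent 4 := ⟨[a0, a192, a48], [a255, a64, a149], (M a148 (F (L l116 (L l495 (T t9773 (L l140 (L l470 (T t9771 (L l116 (T t9772 N))))))))))⟩
def e0_192_48__255_64_92 : Ent 4 := ⟨[a0, a192, a48], [a255, a64, a150], (M a148 (F (L l434 (L l518 (T t9770 (L l140 (L l350 (L l470 (L l494 (T t9771 (L l116 (L l171 (L l350 (T t9772 N))))))))))))))⟩
def e0_192_48__255_64_93 : Ent 4 := ⟨[a0, a192, a48], [a255, a64, a151], (M a148 (F (L l434 (T t9770 (L l140 (L l470 (T t9771 (L l116 (T t9772 N)))))))))⟩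
def e0_192_48__255_64_94 : Ent 4 := ⟨[a0, a192, a48], [a255, a64, a154], (M a148 (F (L l116 (T t9773 (L l140 (L l470 (T t9771 (L l116 (T t9772 N)))))))))⟩
def e0_192_48__255_64_95 : Ent 4 := ⟨[a0, a192, a48], [a255, a64, a155], (M a148 (F (L l434 (T t10152 (L l140 (L l470 (T t9771 (L l116 (T t9772 N)))))))))⟩
def e0_192_48__255_64_96 : Ent 4 := ⟨[a0, a192, a48], [a255, a64, a159], (M a148 (F (L l116 (L l165 (T t9773 (L l140 (L l470 (T t9771 (L l116 (L l165 (T t9772 N)))))))))))⟩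
def e0_192_48__255_64_97 : Ent 4 := ⟨[a0, a192, a48], [a255, a64, a160], (M a100 (F (T t10184 (L l192 (T t10055 (L l192 (T t9977 N)))))))⟩
def e0_192_48__255_64_98 : Ent 4 := ⟨[a0, a192, a48], [a255, a64, a161], (M a148 (F (L l434 (T t9770 (L l140 (L l470 (T t9771 (L l116 (T t9772 N)))))))))⟩
def e0_192_48__255_64_99 : Ent 4 := ⟨[a0, a192, a48], [a255, a64, a162], (M a148 (F (L l434 (T t9770 (L l140 (L l470 (T t9771 (L l116 (L l380 (T t9772 N))))))))))⟩
def e0_192_48__255_64_100 : Ent 4 := ⟨[a0, a192, a48], [a255, a64, a163], (M a148 (F (L l434 (T t9770 (L l140 (L l470 (T t9771 (L l116 (T t9772 N)))))))))⟩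
def e0_192_48__255_64_101 : Ent 4 := ⟨[a0, a192, a48], [a255, a64, a165], (M a148 (F (L l434 (T t9770 (L l140 (L l470 (T t9771 (L l116 (T t9772 N)))))))))⟩
def e0_192_48__255_64_102 : Ent 4 := ⟨[a0, a192, a48], [a255, a64, a166], (M a148 (F (L l434 (T t9770 (L l140 (L l470 (L l482 (T t9771 (L l116 (T t9772 N))))))))))⟩
def e0_192_48__255_64_103 : Ent 4 := ⟨[a0, a192, a48], [a255, a64, a167], (M a148 (F (L l434 (T t9770 (L l140 (L l470 (T t9771 (L l116 (T t9772 N)))))))))⟩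
def e0_192_48__255_64_104 : Ent 4 := ⟨[a0, a192, a48], [a255, a64, a170], (M a148 (F (L l434 (T t9770 (L l140 (L l464 (L l470 (T t9771 (L l116 (L l404 (T t9772 N)))))))))))⟩
def e0_192_48__255_64_105 : Ent 4 := ⟨[a0, a192, a48], [a255, a64, a171], (M a148 (L l475 (F (L l434 (T t9770 (L l140 (L l470 (T t9771 (L l116 (T t9772 (K a3 (M a87 (F (L l116 (T t9773 (L l9 (L l140 (L l470 (T t9771 (L l116 (T t9772 N)))))))))) (K a87 (M a3 (F (T t797 (L l140 (L l290 (T t9899 N)))))) N))))))))))))⟩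
def e0_192_48__255_64_106 : Ent 4 := ⟨[a0, a192, a48], [a255, a64, a175], (M a148 (L l469 (F (L l434 (T t9770 (L l140 (L l470 (T t9771 (L l116 (T t9772 (K a15 (M a95 (F (L l116 (T t9773 (L l3 (L l140 (L l470 (T t9771 (L l116 (T t9772 N)))))))))) (K a95 (M a15 (F (T t10160 (L l140 (L l290 (T t9899 N)))))) N))))))))))))⟩
def e0_192_48__255_64_107 : Ent 4 := ⟨[a0, a192, a48], [a255, a64, a176], (M a148 (F (L l116 (T t9773 (L l140 (L l470 (T t9771 (L l116 (T t9772 N)))))))))⟩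
def e0_192_48__255_64_108 : Ent 4 := ⟨[a0, a192, a48], [a255, a64, a177], (M a148 (F (L l434 (T t9770 (L l140 (L l470 (T t9771 (L l116 (T t9772 N)))))))))⟩
def e0_192_48__255_64_109 : Ent 4 := ⟨[a0, a192, a48], [a255, a64, a178], (M a148 (F (L l434 (T t9770 (L l140 (L l470 (T t9771 (L l116 (T t9772 N)))))))))⟩
def e0_192_48__255_64_110 : Ent 4 := ⟨[a0, a192, a48], [a255, a64, a179], (M a148 (F (L l434 (T t9770 (L l140 (L l470 (T t9771 (L l116 (T t9772 N)))))))))⟩
def e0_192_48__255_64_111 : Ent 4 := ⟨[a0, a192, a48], [a255, a64, a181], (M a148 (F (L l434 (T t9770 (L l140 (L l470 (T t9771 (L l116 (T t9772 N)))))))))⟩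
def e0_192_48__255_64_112 : Ent 4 := ⟨[a0, a192, a48], [a255, a64, a182], (M a148 (F (L l116 (T t9773 (L l140 (L l422 (L l470 (T t9771 (L l116 (T t9772 N))))))))))⟩
def e0_192_48__255_64_113 : Ent 4 := ⟨[a0, a192, a48], [a255, a64, a183], (M a148 (F (L l434 (T t9770 (L l140 (L l470 (T t9771 (L l116 (T t9772 N)))))))))⟩
def e0_192_48__255_64_114 : Ent 4 := ⟨[a0, a192, a48], [a255, a64, a186], (M a148 (F (L l434 (T t9770 (L l140 (L l470 (T t9771 (L l116 (T t9772 N)))))))))⟩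
def e0_192_48__255_64_115 : Ent 4 := ⟨[a0, a192, a48], [a255, a64, a187], (M a51 (F (T t10177 (L l475 (T t1901 (L l116 (L l120 (T t10178 N))))))))⟩
def e0_192_48__255_64_116 : Ent 4 := ⟨[a0, a192, a48], [a255, a64, a191], (M a63 (F (T t610 (L l220 (L l289 (T t20 (L l116 (L l144 (L l213 (T t31 N))))))))))⟩
def e0_192_48__255_64_117 : Ent 4 := ⟨[a0, a192, a48], [a255, a64, a193], (M a148 (F (L l434 (T t9770 (L l140 (L l470 (T t9771 (L l116 (T t9772 N)))))))))⟩
def e0_192_48__255_64_118 : Ent 4 := ⟨[a0, a192, a48], [a255, a64, a194], (M a148 (F (L l434 (T t9770 (L l140 (L l470 (T t9771 (L l116 (T t9772 N)))))))))⟩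
def e0_192_48__255_64_119 : Ent 4 := ⟨[a0, a192, a48], [a255, a64, a195], (M a148 (L l295 (F (L l116 (T t9773 (L l140 (L l338 (L l470 (T t9771 (L l116 (T t9772 (K a215 (M a235 (F (L l116 (T t9773 (L l140 (L l338 (L l350 (L l470 (T t9771 (L l116 (L l350 (T t9772 N)))))))))))) (K a235 (M a215 (F (L l116 (T t9773 (L l140 (L l338 (L l470 (T t9771 (L l116 (T t9772 N)))))))))) N)))))))))))))⟩
def e0_192_48__255_64_120 : Ent 4 := ⟨[a0, a192, a48], [a255, a64, a197], (M a148 (F (L l434 (T t9770 (L l140 (L l470 (T t9771 (L l116 (T t9772 N)))))))))⟩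
def e0_192_48__255_64_121 : Ent 4 := ⟨[a0, a192, a48], [a255, a64, a198], (M a148 (F (L l434 (T t9770 (L l140 (L l470 (T t9771 (L l116 (T t9772 N)))))))))⟩
def e0_192_48__255_64_122 : Ent 4 := ⟨[a0, a192, a48], [a255, a64, a199], (M a148 (F (L l434 (T t9770 (L l140 (L l470 (L l494 (T t9771 (L l116 (T t9772 N))))))))))⟩
def e0_192_48__255_64_123 : Ent 4 := ⟨[a0, a192, a48], [a255, a64, a202], (M a148 (F (L l434 (T t9770 (L l140 (L l470 (T t9771 (L l116 (T t9772 N)))))))))⟩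
def e0_192_48__255_64_124 : Ent 4 := ⟨[a0, a192, a48], [a255, a64, a203], (M a148 (F (L l434 (T t9770 (L l140 (L l320 (L l470 (T t9771 (L l116 (T t9772 N))))))))))⟩
def e0_192_48__255_64_125 : Ent 4 := ⟨[a0, a192, a48], [a255, a64, a207], (M a148 (L l289 (F (L l116 (T t9773 (L l140 (L l326 (L l470 (T t9771 (L l116 (T t9772 (K a223 (M a239 (F (L l116 (T t9773 (L l140 (L l326 (L l470 (T t9771 (L l116 (L l241 (T t9772 N))))))))))) (K a239 (M a223 (F (L l116 (T t9773 (L l140 (L l326 (L l470 (T t9771 (L l116 (L l404 (T t9772 N))))))))))) N)))))))))))))⟩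
def e0_192_48__255_64_126 : Ent 4 := ⟨[a0, a192, a48], [a255, a64, a208], (M a148 (F (L l116 (T t9773 (L l140 (L l470 (T t9771 (L l116 (L l242 (T t9772 N))))))))))⟩
def e0_192_48__255_64_127 : Ent 4 := ⟨[a0, a192, a48], [a255, a64, a209], (M a148 (F (L l434 (T t9770 (L l140 (L l470 (T t9771 (L l116 (T t9772 N)))))))))⟩
def e0_192_48__255_64_128 : Ent 4 := ⟨[a0, a192, a48], [a255, a64, a210], (M a148 (F (L l434 (T t9770 (L l140 (L l470 (T t9771 (L l116 (T t9772 N)))))))))⟩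
def e0_192_48__255_64_129 : Ent 4 := ⟨[a0, a192, a48], [a255, a64, a211], (M a148 (F (L l434 (T t9770 (L l140 (L l470 (T t9771 (L l116 (L l247 (T t9772 N))))))))))⟩
def e0_192_48__255_64_130 : Ent 4 := ⟨[a0, a192, a48], [a255, a64, a213], (M a148 (F (L l434 (T t9770 (L l140 (L l470 (T t9771 (L l116 (T t9772 N)))))))))⟩
def e0_192_48__255_64_131 : Ent 4 := ⟨[a0, a192, a48], [a255, a64, a214], (M a148 (F (L l116 (T t9773 (L l140 (L l470 (T t9771 (L l116 (L l247 (T t9772 N))))))))))⟩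
def e0_192_48__255_64_132 : Ent 4 := ⟨[a0, a192, a48], [a255, a64, a215], (M a148 (L l295 (F (L l434 (T t9770 (L l140 (L l350 (L l470 (T t9771 (L l116 (L l350 (T t9772 (K a195 (M a235 (F (L l116 (T t9773 (L l140 (L l338 (L l350 (L l470 (T t9771 (L l116 (L l350 (T t9772 N)))))))))))) (K a235 (M a195 (F (T t6254 (L l140 (L l350 (L l470 (T t9771 N))))))) N))))))))))))))⟩
def e0_192_48__255_64_133 : Ent 4 := ⟨[a0, a192, a48], [a255, a64, a218], (M a148 (F (L l434 (T t9770 (L l140 (L l470 (T t9771 (L l116 (T t9772 N)))))))))⟩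
def e0_192_48__255_64_134 : Ent 4 := ⟨[a0, a192, a48], [a255, a64, a219], (M a148 (F (L l434 (T t9770 (L l140 (L l470 (T t9771 (L l116 (T t9772 N)))))))))⟩
def e0_192_48__255_64_135 : Ent 4 := ⟨[a0, a192, a48], [a255, a64, a223], (M a148 (L l289 (F (L l434 (T t9770 (L l140 (L l470 (T t9771 (L l116 (L l241 (T t9772 (K a207 (M a239 (F (L l116 (T t9773 (L l140 (L l326 (L l470 (T t9771 (L l116 (L l241 (T t9772 N))))))))))) (K a239 (M a207 (F (L l116 (T t9773 (L l368 (L l433 (T t10109 (L l140 (L l295 (L l398 (L l404 (T t10185 N)))))))))))) N)))))))))))))⟩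
def e0_192_48__255_64_136 : Ent 4 := ⟨[a0, a192, a48], [a255, a64, a224], (M a100 (F (T t10055 (L l261 (T t4655 (L l252 (T t9977 N)))))))⟩
def e0_192_48__255_64_137 : Ent 4 := ⟨[a0, a192, a48], [a255, a64, a225], (M a148 (F (L l434 (T t9770 (L l140 (L l470 (T t9771 (L l116 (T t9772 N)))))))))⟩
def e0_192_48__255_64_138 : Ent 4 := ⟨[a0, a192, a48], [a255, a64, a226], (M a148 (F (L l434 (T t9770 (L l140 (L l470 (T t9771 (L l116 (T t9772 N)))))))))⟩
def e0_192_48__255_64_139 : Ent 4 := ⟨[a0, a192, a48], [a255, a64, a227], (M a148 (F (L l434 (T t9770 (L l140 (L l470 (T t9771 (L l116 (L l380 (T t9772 N))))))))))⟩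
def e0_192_48__255_64_140 : Ent 4 := ⟨[a0, a192, a48], [a255, a64, a229], (M a148 (F (L l434 (T t9770 (L l140 (L l470 (T t9771 (L l116 (T t9772 N)))))))))⟩
def e0_192_48__255_64_141 : Ent 4 := ⟨[a0, a192, a48], [a255, a64, a230], (M a148 (F (L l434 (T t9770 (L l140 (L l470 (T t9771 (L l116 (T t9772 N)))))))))⟩
def e0_192_48__255_64_142 : Ent 4 := ⟨[a0, a192, a48], [a255, a64, a231], (M a148 (F (L l434 (T t9770 (L l140 (L l470 (T t9771 (L l116 (T t9772 N)))))))))⟩
def e0_192_48__255_64_143 : Ent 4 := ⟨[a0, a192, a48], [a255, a64, a234], (M a148 (F (L l434 (T t9770 (L l140 (L l470 (T t9771 (L l116 (T t9772 N)))))))))⟩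
def e0_192_48__255_64_144 : Ent 4 := ⟨[a0, a192, a48], [a255, a64, a235], (M a148 (L l295 (F (L l116 (T t9773 (L l140 (L l470 (T t9771 (L l116 (T t9772 (K a195 (M a215 (F (L l116 (T t9773 (L l140 (L l338 (L l470 (T t9771 (L l116 (T t9772 N)))))))))) (K a215 (M a195 (F (T t6254 (L l140 (L l350 (L l470 (T t9771 N))))))) N))))))))))))⟩
def e0_192_48__255_64_145 : Ent 4 := ⟨[a0, a192, a48], [a255, a64, a239], (M a148 (L l289 (F (L l434 (T t9770 (L l140 (L l470 (T t9771 (L l116 (L l404 (T t9772 (K a207 (M a223 (F (L l116 (T t9773 (L l140 (L l326 (L l470 (T t9771 (L l116 (L l404 (T t9772 N))))))))))) (K a223 (M a207 (F (L l116 (T t9773 (L l368 (L l433 (T t10109 (L l140 (L l295 (L l398 (L l404 (T t10185 N)))))))))))) N)))))))))))))⟩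
def e0_192_48__255_64_146 : Ent 4 := ⟨[a0, a192, a48], [a255, a64, a240], (M a148 (L l266 (F (L l116 (T t9773 (L l140 (L l470 (L l478 (T t9771 (L l116 (T t9772 (K a245 (M a250 (F (L l116 (T t9773 (L l140 (L l470 (L l478 (T t9771 (L l116 (T t9772 N)))))))))) (K a250 (M a245 (F (L l116 (T t9773 (L l140 (L l470 (L l478 (T t9771 (L l116 (T t9772 N)))))))))) N)))))))))))))⟩
def e0_192_48__255_64_147 : Ent 4 := ⟨[a0, a192, a48], [a255, a64, a241], (M a148 (F (L l434 (T t9770 (L l140 (L l470 (T t9771 (L l116 (T t9772 N)))))))))⟩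
def e0_192_48__255_64_148 : Ent 4 := ⟨[a0, a192, a48], [a255, a64, a242], (M a148 (F (L l434 (T t9770 (L l140 (L l470 (T t9771 (L l116 (T t9772 N)))))))))⟩
def e0_192_48__255_64_149 : Ent 4 := ⟨[a0, a192, a48], [a255, a64, a243], (M a148 (L l265 (F (L l116 (T t9773 (L l140 (L l470 (L l482 (T t9771 (L l116 (T t9772 (K a247 (M a251 (F (L l434 (L l446 (T t9770 (L l140 (L l470 (L l482 (T t10186 (L l116 (T t9772 N))))))))))) (K a251 (M a247 (F (L l116 (T t9773 (L l140 (L l464 (L l470 (L l482 (T t9771 (L l116 (T t9772 N))))))))))) N)))))))))))))⟩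
def e0_192_48__255_64_150 : Ent 4 := ⟨[a0, a192, a48], [a255, a64, a245], (M a148 (L l266 (F (L l434 (T t9770 (L l140 (L l470 (T t9771 (L l116 (T t9772 (K a240 (M a250 (F (L l116 (T t9773 (L l140 (L l470 (L l478 (T t9771 (L l116 (T t9772 N)))))))))) (K a250 (M a240 (F (T t10187 (L l140 (L l260 (L l261 (T t10188 N))))))) N))))))))))))⟩
def e0_192_48__255_64_151 : Ent 4 := ⟨[a0, a192, a48], [a255, a64, a246], (M a148 (F (L l434 (T t9770 (L l140 (L l470 (T t9771 (L l116 (T t9772 N)))))))))⟩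
def e0_192_48__255_64_152 : Ent 4 := ⟨[a0, a192, a48], [a255, a64, a247], (M a148 (L l265 (F (L l434 (T t9770 (L l140 (L l422 (L l470 (T t9771 (L l116 (T t9772 (K a243 (M a251 (F (L l434 (L l446 (T t9770 (L l140 (L l470 (L l482 (T t10186 (L l116 (T t9772 N))))))))))) (K a251 (M a243 (F (T t10189 (L l140 (L l278 (L l290 (L l428 (T t9899 N)))))))) N)))))))))))))⟩
def e0_192_48__255_64_153 : Ent 4 := ⟨[a0, a192, a48], [a255, a64, a250], (M a148 (L l266 (F (L l434 (T t9770 (L l140 (L l470 (T t9771 (L l116 (T t9772 (K a240 (M a245 (F (L l116 (T t9773 (L l140 (L l470 (L l478 (T t9771 (L l116 (T t9772 N)))))))))) (K a245 (M a240 (F (T t10187 (L l140 (L l260 (L l261 (T t10188 N))))))) N))))))))))))⟩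
def e0_192_48__255_64_154 : Ent 4 := ⟨[a0, a192, a48], [a255, a64, a251], (M a148 (L l265 (F (L l434 (T t9770 (L l140 (L l464 (L l470 (T t9771 (L l116 (T t9772 (K a243 (M a247 (F (L l116 (T t9773 (L l140 (L l464 (L l470 (L l482 (T t9771 (L l116 (T t9772 N))))))))))) (K a247 (M a243 (F (T t10189 (L l140 (L l278 (L l290 (L l428 (T t9899 N)))))))) N)))))))))))))⟩
def b0_192_48__255_64 : Blk 4 := ⟨[0, 192, 48], [255, 64], [1, 2, 3, 5, 6, 7, 10, 11, 15, 16, 17, 18, 19, 21, 22, 23, 26, 27, 31, 32, 33, 34, 35, 37, 38, 39, 42, 43, 47, 49, 50, 51, 53, 54, 55, 58, 59, 63, 65, 66, 67, 69, 70, 71, 74, 75, 79, 80, 81, 82, 83, 85, 86, 87, 90, 91, 95, 96, 97, 98, 99, 101, 102, 103, 106, 107, 111, 112, 113, 114, 115, 117, 118, 119, 122, 123, 127, 128, 129, 130, 131, 133, 134, 135, 138, 139, 143, 144, 145, 146, 147, 149, 150, 151, 154, 155, 159, 160, 161, 162, 163, 165, 166, 167, 170, 171, 175, 176, 177, 178, 179, 181, 182, 183, 186, 187, 191,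 193, 194, 195, 197, 198, 199, 202, 203, 207, 208, 209, 210, 211, 213, 214, 215, 218, 219, 223, 224, 225, 226, 227, 229, 230, 231, 234, 235, 239, 240, 241, 242, 243, 245, 246, 247, 250, 251], [e0_192_48__255_64_0, e0_192_48__255_64_1, e0_192_48__255_64_2, e0_192_48__255_64_3, e0_192_48__255_64_4, e0_192_48__255_64_5, e0_192_48__255_64_6, e0_192_48__255_64_7, e0_192_48__255_64_8, e0_192_48__255_64_9, e0_192_48__255_64_10, e0_192_48__255_64_11, e0_192_48__255_64_12, e0_192_48__255_64_13, e0_192_48__255_64_14, e0_192_48__255_64_15, e0_192_48__255_64_16, e0_192_48__255_64_17, e0_192_48__255_64_18, e0_192_48__255_64_19, e0_192_48__255_64_20, e0_192_48__255_64_21, e0_192_48__255_64_22, e0_192_48__255_64_23, e0_192_48__255_64_24, e0_192_48__255_64_25, e0_192_48__255_64_26, e0_192_48__255_64_27, e0_192_48__255_64_28, e0_192_48__255_64_29, e0_192_48__255_64_30, e0_192_48__255_64_31, e0_192_48__255_64_32, e0_192_48__255_64_33, e0_192_48__255_64_34,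 e0_192_48__255_64_35, e0_192_48__255_64_36, e0_192_48__255_64_37, e0_192_48__255_64_38, e0_192_48__255_64_39, e0_192_48__255_64_40, e0_192_48__255_64_41, e0_192_48__255_64_42, e0_192_48__255_64_43, e0_192_48__255_64_44, e0_192_48__255_64_45, e0_192_48__255_64_46, e0_192_48__255_64_47, e0_192_48__255_64_48, e0_192_48__255_64_49, e0_192_48__255_64_50, e0_192_48__255_64_51, e0_192_48__255_64_52, e0_192_48__255_64_53, e0_192_48__255_64_54, e0_192_48__255_64_55, e0_192_48__255_64_56, e0_192_48__255_64_57, e0_192_48__255_64_58, e0_192_48__255_64_59, e0_192_48__255_64_60, e0_192_48__255_64_61, e0_192_48__255_64_62, e0_192_48__255_64_63, e0_192_48__255_64_64, e0_192_48__255_64_65, e0_192_48__255_64_66, e0_192_48__255_64_67, e0_192_48__255_64_68, e0_192_48__255_64_69, e0_192_48__255_64_70, e0_192_48__255_64_71, e0_192_48__255_64_72, e0_192_48__255_64_73, e0_192_48__255_64_74, e0_192_48__255_64_75, e0_192_48__255_64_76, e0_192_48__255_64_77,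 e0_192_48__255_64_78, e0_192_48__255_64_79, e0_192_48__255_64_80, e0_192_48__255_64_81, e0_192_48__255_64_82, e0_192_48__255_64_83, e0_192_48__255_64_84, e0_192_48__255_64_85, e0_192_48__255_64_86, e0_192_48__255_64_87, e0_192_48__255_64_88, e0_192_48__255_64_89, e0_192_48__255_64_90, e0_192_48__255_64_91, e0_192_48__255_64_92, e0_192_48__255_64_93, e0_192_48__255_64_94, e0_192_48__255_64_95, e0_192_48__255_64_96, e0_192_48__255_64_97, e0_192_48__255_64_98, e0_192_48__255_64_99, e0_192_48__255_64_100, e0_192_48__255_64_101, e0_192_48__255_64_102, e0_192_48__255_64_103, e0_192_48__255_64_104, e0_192_48__255_64_105, e0_192_48__255_64_106, e0_192_48__255_64_107, e0_192_48__255_64_108, e0_192_48__255_64_109, e0_192_48__255_64_110, e0_192_48__255_64_111, e0_192_48__255_64_112, e0_192_48__255_64_113, e0_192_48__255_64_114, e0_192_48__255_64_115, e0_192_48__255_64_116, e0_192_48__255_64_117, e0_192_48__255_64_118, e0_192_48__255_64_119,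 e0_192_48__255_64_120, e0_192_48__255_64_121, e0_192_48__255_64_122, e0_192_48__255_64_123, e0_192_48__255_64_124, e0_192_48__255_64_125, e0_192_48__255_64_126, e0_192_48__255_64_127, e0_192_48__255_64_128, e0_192_48__255_64_129, e0_192_48__255_64_130, e0_192_48__255_64_131, e0_192_48__255_64_132, e0_192_48__255_64_133, e0_192_48__255_64_134, e0_192_48__255_64_135, e0_192_48__255_64_136, e0_192_48__255_64_137, e0_192_48__255_64_138, e0_192_48__255_64_139, e0_192_48__255_64_140, e0_192_48__255_64_141, e0_192_48__255_64_142, e0_192_48__255_64_143, e0_192_48__255_64_144, e0_192_48__255_64_145, e0_192_48__255_64_146, e0_192_48__255_64_147, e0_192_48__255_64_148, e0_192_48__255_64_149, e0_192_48__255_64_150, e0_192_48__255_64_151, e0_192_48__255_64_152, e0_192_48__255_64_153, e0_192_48__255_64_154], by decide +kernel, by decide +kernel⟩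

end Pool.Agent.Lib_TTT.K4
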