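import Pool.Agent.Lib_TTT.K5Base
import Pool.Agent.Lib_TTT.K5T00
import Pool.Agent.Lib_TTT.K5T01

/-! Certificates in `4^5`. -/

set_option autoImplicit false
set_option maxRecDepth 200000

namespace Pool.Agent.Lib_TTT.K5

open Lib_TTT AC DC

def e0_255__256_0 : Ent 5 := ⟨[a0, a255], [a256, a27], (M a192 (F (T t19 (T t23 (T t22 (T t24 (K a64 (M a240 (F (T t79 (L l73 (L l144 (T t80 (T t81 N))))))) (K a128 (M a240 (F (T t79 (L l73 (T t80 (L l192 (L l220 (T t81 N)))))))) (K a85 (M a405 (F (T t868 (L l824 (T t373 (L l144 (T t869 N))))))) (K a149 (M a208 (F (T t308 (T t309 (L l170 (L l220 (T t310 N))))))) (K a213 (M a48 (F (T t137 (T t273 (L l347 (T t274 N)))))) (K a106 (M a224 (F (T t311 (T t312 (L l104 (L l144 (T t313 N))))))) (K a170 (M a405 (F (T t870 (T t368 (L l390 (T t869 N)))))) (K a234 (M a48 (F (T t273 (T t136 (T t274 N))))) (K a63 (M a16 (F (T t352 (L l447 (T t353 (T t322 N)))))) N)))))))))))))))⟩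
def e0_255__256_1 : Ent 5 := ⟨[a0, a255], [a256, a283], (M a204 (F (T t158 (T t184 (T t190 (T t191 (K a68 (M a192 (F (T t192 (L l126 (T t19 (L l126 (T t193 N))))))) (K a136 (M a192 (F (T t192 (T t19 (L l316 (T t193 N)))))) (K a85 (M a409 (F (T t194 (L l126 (L l2257 (T t195 (L l126 (T t196 N)))))))) (K a153 (M a128 (F (T t197 (L l365 (T t198 (L l167 (L l365 (T t199 N)))))))) (K a221 (M a64 (F (T t200 (T t15 (L l359 (T t201 N)))))) (K a102 (M a64 (F (T t202 (L l402 (T t15 (L l102 (L l402 (T t201 N)))))))) (K a170 (M a409 (F (T t203 (L l402 (L l848 (T t204 (L l402 (T t196 N)))))))) (K a238 (M a64 (F (T t200 (L l402 (T t15 (L l402 (T t201 N))))))) (K a51 (M a341 (F (T t205 (T t99 N)))) N)))))))))))))))⟩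
def e0_255__256_2 : Ent 5 := ⟨[a0, a255], [a256, a539], (M a192 (F (T t19 (T t23 (T t22 (T t24 (K a64 (M a240 (F (T t79 (L l144 (T t80 (T t81 N)))))) (K a128 (M a240 (F (T t79 (T t80 (L l192 (L l220 (T t81 N))))))) (K a85 (M a405 (F (T t868 (L l824 (T t373 (L l144 (T t869 N))))))) (K a149 (M a208 (F (T t308 (T t309 (L l170 (L l220 (T t310 N))))))) (K a213 (M a48 (F (T t137 (T t273 (L l347 (T t274 N)))))) (K a106 (M a224 (F (T t311 (T t312 (L l104 (L l144 (T t313 N))))))) (K a170 (M a405 (F (T t870 (T t368 (L l390 (T t869 N)))))) (K a234 (M a48 (F (T t273 (T t136 (T t274 N))))) (K a63 (M a16 (F (T t352 (L l447 (T t353 (T t322 N)))))) N)))))))))))))))⟩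
def e0_255__256_3 : Ent 5 := ⟨[a0, a255], [a256, a795], (M a204 (F (T t158 (T t184 (T t190 (T t191 (K a68 (M a192 (F (T t192 (L l126 (T t19 (L l126 (T t193 N))))))) (K a136 (M a192 (F (T t192 (T t19 (L l316 (T t193 N)))))) (K a85 (M a409 (F (T t194 (L l126 (L l1633 (T t195 (L l126 (T t196 N)))))))) (K a153 (M a128 (F (T t197 (L l365 (T t198 (L l167 (L l365 (T t199 N)))))))) (K a221 (M a64 (F (T t200 (T t15 (L l359 (T t201 N)))))) (K a102 (M a64 (F (T t202 (L l402 (T t15 (L l102 (L l402 (T t201 N)))))))) (K a170 (M a409 (F (T t203 (L l402 (L l848 (T t204 (L l402 (T t196 N)))))))) (K a238 (M a64 (F (T t200 (L l402 (T t15 (L l402 (T t201 N))))))) (K a51 (M a341 (F (T t205 (T t99 N)))) N)))))))))))))))⟩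
def b0_255__256 : Blk 5 := ⟨[0, 255], [256], [27, 283, 539, 795], [e0_255__256_0, e0_255__256_1, e0_255__256_2, e0_255__256_3], by decide +kernel, by decide +kernel⟩
def e0_255__261_0 : Ent 5 := ⟨[a0, a255], [a261, a17], (M a192 (F (T t24 (L l365 (T t19 (L l15 (T t23 (L l365 (T t22 (K a64 (M a240 (F (T t79 (L l144 (L l365 (T t80 (L l15 (T t81 N)))))))) (K a128 (M a240 (F (T t79 (L l365 (T t80 (L l15 (L l192 (L l220 (T t81 N))))))))) (K a85 (M a768 (L l365 (F (T t86 (L l347 (L l2339 (T t29 (L l347 (L l2339 (T t30 (K a153 (M a221 (F (T t35 (L l2117 (T t403 N))))) (K a221 (M a153 (F (T t35 (L l243 (L l347 (L l2339 (L l3227 (T t29 (L l144 (L l528 (T t36 N))))))))))) N)))))))))))) (K a149 (M a768 (F (T t31 (L l347 (T t29 (T t32 N)))))) (K a213 (M a768 (F (T t31 (L l3203 (T t32 (T t33 N)))))) (K a106 (M a768 (F (T t35 (T t29 (T t32 N))))) (K a170 (M a768 (F (T t31 (T t29 (L l220 (T t30 N)))))) (K a234 (M a768 (F (T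 t31 (T t32 (L l390 (L l3246 (T t33 N))))))) (K a63 (M a768 (F (T t43 (L l3159 (T t35 (L l3073 (T t32 N))))))) N))))))))))))))))))⟩
def e0_255__261_1 : Ent 5 := ⟨[a0, a255], [a261, a27], (M a192 (F (T t19 (T t23 (T t22 (T t24 (K a64 (M a240 (F (T t79 (L l73 (L l144 (T t80 (T t81 N))))))) (K a128 (M a240 (F (T t79 (L l73 (T t80 (L l192 (L l220 (T t81 N)))))))) (K a85 (M a768 (F (T t86 (L l347 (L l2339 (T t29 (L l347 (L l2339 (T t30 N))))))))) (K a149 (M a768 (F (T t31 (L l347 (T t29 (T t32 N)))))) (K a213 (M a768 (F (T t31 (L l3203 (T t32 (T t33 N)))))) (K a106 (M a768 (F (T t86 (T t29 (T t32 N))))) (K a170 (M a768 (F (T t31 (T t29 (L l220 (T t30 N)))))) (K a234 (M a768 (F (T t31 (T t32 (L l390 (L l3246 (T t33 N))))))) (K a63 (M a768 (F (T t37 (L l3159 (T t35 (L l2209 (T t29 N))))))) N)))))))))))))))⟩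
def e0_255__261_2 : Ent 5 := ⟨[a0, a255], [a261, a34], (M a192 (F (T t22 (L l26 (T t19 (L l402 (T t23 (L l402 (T t24 (K a64 (M a240 (F (T t79 (L l144 (T t80 (L l402 (T t81 N))))))) (K a128 (M a240 (F (T t79 (T t80 (L l192 (L l220 (L l402 (T t81 N)))))))) (K a85 (M a768 (F (T t86 (L l347 (L l2339 (T t29 (L l347 (L l2339 (T t30 N))))))))) (K a149 (M a768 (F (T t31 (L l347 (T t29 (T t32 N)))))) (K a213 (M a768 (F (T t31 (L l3203 (T t32 (L l402 (T t33 N))))))) (K a106 (M a768 (F (T t86 (T t29 (T t32 N))))) (K a170 (M a768 (L l402 (F (T t31 (T t29 (L l220 (T t30 (K a102 (M a238 (F (T t31 (L l2154 (T t82 N))))) (K a238 (M a102 (F (T t35 (T t29 (L l528 (L l2598 (L l3264 (T t36 N)))))))) N))))))))) (K a234 (M a768 (F (T t31 (T t32 (L l390 (L l402 (L l3246 (T t33 N)))))))) (K a63 (M a768 (F (T t38 (L l3159 (T t35 (L l2209 (T t29 N))))))) N))))))))))))))))))⟩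
def e0_255__261_3 : Ent 5 := ⟨[a0, a255], [a261, a39], (M a192 (F (T t19 (T t23 (T t22 (T t24 (K a64 (M a240 (F (T t79 (L l73 (L l144 (T t80 (T t81 N))))))) (K a128 (M a240 (F (T t79 (L l73 (T t80 (L l192 (L l220 (T t81 N)))))))) (K a85 (M a768 (F (T t86 (L l347 (L l2339 (T t29 (L l347 (L l2339 (T t30 N))))))))) (K a149 (M a768 (F (T t31 (L l347 (T t29 (T t32 N)))))) (K a213 (M a768 (F (T t31 (L l3203 (T t32 (T t33 N)))))) (K a106 (M a768 (F (T t86 (T t29 (T t32 N))))) (K a170 (M a768 (F (T t31 (T t29 (L l220 (T t30 N)))))) (K a234 (M a768 (F (T t31 (T t32 (L l390 (L l3246 (T t33 N))))))) (K a63 (M a768 (F (T t37 (L l3159 (T t35 (L l2209 (T t29 N))))))) N)))))))))))))))⟩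
def e0_255__261_4 : Ent 5 := ⟨[a0, a255], [a261, a51], (M a48 (F (T t404 (L l511 (T t136 (L l511 (T t137 (L l511 (T t135 (L l511 (T t138 (K a16 (M a240 (F (T t405 (L l73 (L l340 (L l368 (T t140 (T t141 N)))))))) (K a32 (M a240 (F (T t406 (L l37 (T t407 (L l376 (L l404 (T t141 N)))))))) (K a85 (M a768 (F (T t408 (L l2193 (T t148 (L l123 (L l2339 (T t144 N)))))))) (K a101 (M a768 (F (T t229 (L l2193 (T t148 (L l3079 (T t32 N))))))) (K a117 (M a768 (F (T t409 (L l2483 (L l3079 (T t32 (T t146 N))))))) (K a154 (M a768 (F (T t410 (L l2193 (T t148 (L l3079 (T t32 N))))))) (K a170 (M a768 (F (T t410 (L l2193 (T t148 (L l404 (T t144 N))))))) (K a186 (M a768 (F (T t37 (L l2193 (T t148 (L l206 (L l2706 (T t146 N)))))))) (K a207 (M a341 (L l511 (F (T t411 (T t412 (K a103 (M a155 (F (T t413 (L l2893 (L l3079 (T t414 (T t89 N))))))) (K a155 (M a103 (F (T t413 (L l2893 (L l3079 (T t414 (T t89 N))))))) N))))))) N))))))))))))))))))))⟩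
def e0_255__261_5 : Ent 5 := ⟨[a0, a255], [a261, a102], (M a341 (F (L l126 (T t1 (L l402 (L l528 (T t0 (L l402 (L l528 (T t2 (L l528 (T t3 (K a256 (M a240 (L l528 (F (T t102 (L l402 (T t415 (K a266 (M a271 (F (T t102 (L l402 (T t415 N))))) (K a271 (M a266 (F (T t416 (L l989 (T t102 (L l402 (T t415 N))))))) N)))))))) (K a768 (M a64 (F (T t417 (L l402 (L l2295 (T t15 (L l402 (L l2036 (T t8 N))))))))) (K a85 (M a48 (L l126 (F (T t87 (T t88 (L l123 (T t89 (K a68 (M a119 (F (T t418 (L l122 (T t91 N))))) (K a119 (M a68 (F (T t87 (L l365 (L l2413 (T t131 N)))))) N))))))))) (K a597 (M a64 (F (T t14 (L l402 (L l2511 (T t15 (L l102 (L l402 (L l1184 (T t16 N)))))))))) (K a853 (Fr a682 a1023 l3116 (Fr a170 a85 l476 (Fr a426 a938 l2598 (Fr a768 a597 l3375 (V t402))))) (K a170 (M a192 (L l402 (F (T t18 (L l2598 (T t10 (L l220 (T t11 (K a34 (M a238 (F (T t107 (L l378 (T t132 N))))) (K a238 (M a34 (F (L l2820 (T t133 (L l220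 (T t11 N)))))) N)))))))))) (K a426 (M a192 (F (T t9 (L l126 (T t19 (L l2598 (T t10 N))))))) (K a682 (M a64 (F (L l2684 (T t20 (L l402 (L l2598 (T t8 (L l402 (L l2598 (L l2684 (T t15 (L l2684 (T t21 N))))))))))))) (K a1023 (M a64 (F (L l402 (T t73 (L l1993 (T t20 (L l402 (L l1993 (L l2036 (T t8 N)))))))))) N)))))))))))))))))))))⟩
def e0_255__261_6 : Ent 5 := ⟨[a0, a255], [a261, a114], (M a192 (F (T t19 (T t23 (T t22 (T t24 (K a64 (M a240 (F (T t79 (L l144 (T t80 (T t81 N)))))) (K a128 (M a240 (F (T t79 (T t80 (L l192 (L l220 (T t81 N))))))) (K a85 (M a768 (F (T t86 (L l347 (L l2339 (T t29 (L l347 (L l2339 (T t30 N))))))))) (K a149 (M a768 (F (T t31 (L l347 (T t29 (T t32 N)))))) (K a213 (M a768 (F (T t31 (L l3203 (T t32 (T t33 N)))))) (K a106 (M a768 (F (T t86 (T t29 (T t32 N))))) (K a170 (M a768 (F (T t31 (T t29 (L l220 (T t30 N)))))) (K a234 (M a768 (F (T t31 (T t32 (L l390 (L l3246 (T t33 N))))))) (K a63 (M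 a768 (F (T t37 (L l3159 (T t35 (L l2209 (T t29 N))))))) N)))))))))))))))⟩
def e0_255__261_7 : Ent 5 := ⟨[a0, a255], [a261, a119], (M a192 (F (T t23 (L l126 (T t19 (L l126 (T t22 (L l113 (T t24 (K a64 (M a240 (F (T t79 (L l126 (L l144 (T t80 (T t81 N))))))) (K a128 (M a240 (F (T t79 (L l126 (T t80 (L l192 (L l220 (T t81 N)))))))) (K a85 (M a768 (L l126 (F (T t86 (L l347 (L l2339 (L l2487 (T t29 (L l347 (L l2339 (L l2487 (T t30 (K a68 (M a102 (F (T t35 (L l347 (L l2339 (L l2487 (T t29 (L l80 (L l144 (L l528 (T t36 N))))))))))) (K a102 (M a68 (F (T t35 (L l365 (L l2339 (L l2487 (T t134 N))))))) N)))))))))))))) (K a149 (M a768 (F (T t31 (L l347 (L l2487 (T t29 (L l2487 (T t32 N)))))))) (K a213 (M a768 (F (T t31 (L l2487 (L l3203 (T t32 (T t33 N))))))) (K a106 (M a768 (F (T t86 (L l2487 (T t29 (L l2487 (T t32 N))))))) (K a170 (M a768 (F (T t31 (L l2487 (T t29 (L l220 (L l2487 (T t30 N)))))))) (K a234 (M a768 (F (T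 t31 (L l2487 (T t32 (L l390 (L l3246 (T t33 N)))))))) (K a63 (M a768 (F (T t85 (L l3159 (T t35 (L l2487 (L l3073 (T t32 N)))))))) N))))))))))))))))))⟩
def e0_255__261_8 : Ent 5 := ⟨[a0, a255], [a261, a177], (M a192 (F (T t19 (T t23 (T t22 (T t24 (K a64 (M a240 (F (T t79 (L l144 (T t80 (T t81 N)))))) (K a128 (M a240 (F (T t79 (T t80 (L l192 (L l220 (T t81 N))))))) (K a85 (M a768 (F (T t86 (L l347 (L l2339 (T t29 (L l347 (L l2339 (T t30 N))))))))) (K a149 (M a768 (F (T t31 (L l347 (T t29 (T t32 N)))))) (K a213 (M a768 (F (T t31 (L l3203 (T t32 (T t33 N)))))) (K a106 (M a768 (F (T t86 (T t29 (T t32 N))))) (K a170 (M a768 (F (T t31 (T t29 (L l220 (T t30 N)))))) (K a234 (M a768 (F (T t31 (T t32 (L l390 (L l3246 (T t33 N))))))) (K a63 (M a768 (F (T t37 (L l3159 (T t35 (L l2209 (T t29 N))))))) N)))))))))))))))⟩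
def e0_255__261_9 : Ent 5 := ⟨[a0, a255], [a261, a187], (M a192 (F (T t19 (L l208 (T t23 (L l189 (T t22 (L l208 (T t24 (K a64 (M a240 (F (T t79 (L l144 (T t80 (L l208 (T t81 N))))))) (K a128 (M a240 (F (T t79 (T t80 (L l192 (L l208 (L l220 (T t81 N)))))))) (K a85 (M a768 (F (T t86 (L l347 (L l2339 (T t29 (L l347 (L l2339 (T t30 N))))))))) (K a149 (M a768 (F (T t31 (L l347 (T t29 (T t32 N)))))) (K a213 (M a768 (F (T t31 (L l3203 (T t32 (L l208 (L l2709 (T t33 N)))))))) (K a106 (M a768 (F (T t86 (T t29 (T t32 N))))) (K a170 (M a768 (L l208 (F (T t31 (T t29 (L l220 (T t30 (K a136 (M a153 (F (T t35 (T t29 (L l528 (L l2598 (L l2709 (T t36 N)))))))) (K a153 (M a136 (F (T t35 (L l2598 (L l2709 (T t180 N)))))) N))))))))) (K a234 (M a768 (F (T t31 (T t32 (L l208 (L l390 (L l2709 (L l3246 (T t33 N))))))))) (K a63 (M a768 (F (T t37 (L l3159 (T t35 (L l2209 (T t29 N))))))) N))))))))))))))))))⟩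
def e0_255__261_10 : Ent 5 := ⟨[a0, a255], [a261, a273], (M a192 (F (T t19 (T t23 (T t22 (T t24 (K a64 (M a240 (F (T t79 (L l144 (T t80 (T t81 N)))))) (K a128 (M a240 (F (T t79 (T t80 (L l192 (L l220 (T t81 N))))))) (K a85 (M a768 (F (T t86 (L l347 (L l2339 (T t29 (L l347 (L l2339 (T t30 N))))))))) (K a149 (M a768 (F (T t31 (L l347 (T t29 (T t32 N)))))) (K a213 (M a768 (F (T t31 (L l3203 (T t32 (T t33 N)))))) (K a106 (M a768 (F (T t86 (T t29 (T t32 N))))) (K a170 (M a768 (F (T t31 (T t29 (L l220 (T t30 N)))))) (K a234 (M a768 (F (T t31 (T t32 (L l390 (L l3246 (T t33 N))))))) (K a63 (M a768 (F (T t37 (L l3159 (T t35 (L l2209 (T t29 N))))))) N)))))))))))))))⟩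
def e0_255__261_11 : Ent 5 := ⟨[a0, a255], [a261, a283], (M a192 (F (T t19 (T t23 (T t22 (T t24 (K a64 (M a240 (F (T t79 (L l144 (L l2257 (T t80 (T t81 N))))))) (K a128 (M a240 (F (T t79 (L l2257 (T t80 (L l192 (L l220 (T t81 N)))))))) (K a85 (M a768 (F (T t86 (L l347 (L l2339 (T t29 (L l347 (L l2339 (T t30 N))))))))) (K a149 (M a768 (F (T t31 (L l347 (T t29 (T t32 N)))))) (K a213 (M a768 (F (T t31 (L l3203 (T t32 (T t33 N)))))) (K a106 (M a768 (F (T t86 (T t29 (T t32 N))))) (K a170 (M a768 (F (T t31 (T t29 (L l220 (T t30 N)))))) (K a234 (M a768 (F (T t31 (T t32 (L l390 (L l3246 (T t33 N))))))) (K a63 (M a768 (F (T t37 (L l3159 (T t35 (L l2209 (T t29 N))))))) N)))))))))))))))⟩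
def e0_255__261_12 : Ent 5 := ⟨[a0, a255], [a261, a290], (M a192 (F (T t19 (T t23 (T t22 (T t24 (K a64 (M a240 (F (T t79 (L l144 (T t80 (T t81 N)))))) (K a128 (M a240 (F (T t79 (T t80 (L l192 (L l220 (T t81 N))))))) (K a85 (M a768 (F (T t86 (L l347 (L l2339 (T t29 (L l347 (L l2339 (T t30 N))))))))) (K a149 (M a768 (F (T t31 (L l347 (T t29 (T t32 N)))))) (K a213 (M a768 (F (T t31 (L l3203 (T t32 (L l922 (T t33 N))))))) (K a106 (M a768 (F (T t86 (T t29 (T t32 N))))) (K a170 (M a768 (F (T t31 (T t29 (L l220 (T t30 N)))))) (K a234 (M a768 (F (T t31 (T t32 (L l390 (L l922 (L l3246 (T t33 N)))))))) (K a63 (M a768 (F (T t43 (L l3159 (T t35 (L l3073 (T t32 N))))))) N)))))))))))))))⟩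
def e0_255__261_13 : Ent 5 := ⟨[a0, a255], [a261, a295], (M a192 (F (T t19 (T t23 (T t22 (T t24 (K a64 (M a240 (F (T t79 (L l144 (T t80 (T t81 N)))))) (K a128 (M a240 (F (T t79 (T t80 (L l192 (L l220 (T t81 N))))))) (K a85 (M a768 (F (T t86 (L l347 (L l2339 (T t29 (L l347 (L l2339 (T t30 N))))))))) (K a149 (M a768 (F (T t31 (L l347 (T t29 (T t32 N)))))) (K a213 (M a768 (F (T t31 (L l3203 (T t32 (T t33 N)))))) (K a106 (M a768 (F (T t86 (T t29 (T t32 N))))) (K a170 (M a768 (F (T t31 (T t29 (L l220 (T t30 N)))))) (K a234 (M a768 (F (T t31 (T t32 (L l390 (L l3246 (T t33 N))))))) (K a63 (M a768 (F (T t37 (L l3159 (T t35 (L l2209 (T t29 N))))))) N)))))))))))))))⟩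
def e0_255__261_14 : Ent 5 := ⟨[a0, a255], [a261, a307], (M a192 (F (T t19 (T t23 (T t22 (T t24 (K a64 (M a240 (F (T t79 (L l144 (T t80 (T t81 N)))))) (K a128 (M a240 (F (T t79 (T t80 (L l192 (L l220 (T t81 N))))))) (K a85 (M a768 (F (T t86 (L l347 (L l2339 (T t29 (L l347 (L l2339 (T t30 N))))))))) (K a149 (M a768 (F (T t31 (L l347 (T t29 (L l959 (T t32 N))))))) (K a213 (M a768 (F (T t31 (L l959 (L l3203 (T t32 (T t33 N))))))) (K a106 (M a768 (F (T t86 (T t29 (L l959 (T t32 N)))))) (K a170 (M a768 (F (T t31 (T t29 (L l220 (T t30 N)))))) (K a234 (M a768 (F (T t31 (L l959 (T t32 (L l390 (L l3246 (T t33 N)))))))) (K a63 (M a768 (F (T t37 (L l1009 (L l3159 (T t35 (L l2209 (T t29 N)))))))) N)))))))))))))))⟩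
def e0_255__261_15 : Ent 5 := ⟨[a0, a255], [a261, a358], (M a192 (F (T t19 (T t23 (T t22 (T t24 (K a64 (M a240 (F (T t79 (L l144 (T t80 (T t81 N)))))) (K a128 (M a240 (F (T t79 (T t80 (L l192 (L l220 (T t81 N))))))) (K a85 (M a768 (F (T t86 (L l347 (L l2339 (L l2487 (T t29 (L l347 (L l2339 (L l2487 (T t30 N))))))))))) (K a149 (M a768 (F (T t31 (L l347 (L l2487 (T t29 (L l2487 (T t32 N)))))))) (K a213 (M a768 (F (T t31 (L l2487 (L l3203 (T t32 (L l922 (T t33 N)))))))) (K a106 (M a768 (F (T t35 (L l2487 (T t29 (L l2487 (T t32 N))))))) (K a170 (M a768 (F (T t31 (L l2487 (T t29 (L l220 (L l2487 (T t30 N)))))))) (K a234 (M a768 (F (T t31 (L l2487 (T t32 (L l390 (L l922 (L l3246 (T t33 N))))))))) (K a63 (M a768 (F (T t69 (L l2209 (L l2487 (T t29 (L l2487 (L l3073 (T t32 N))))))))) N)))))))))))))))⟩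
def e0_255__261_16 : Ent 5 := ⟨[a0, a255], [a261, a370], (M a192 (F (T t19 (T t23 (T t22 (T t24 (K a64 (M a240 (F (T t79 (L l144 (T t80 (T t81 N)))))) (K a128 (M a240 (F (T t79 (T t80 (L l192 (L l220 (T t81 N))))))) (K a85 (M a768 (F (T t86 (L l347 (L l2339 (T t29 (L l347 (L l2339 (T t30 N))))))))) (K a149 (M a768 (F (T t31 (L l347 (T t29 (T t32 N)))))) (K a213 (M a768 (F (T t31 (L l3203 (T t32 (T t33 N)))))) (K a106 (M a768 (F (T t86 (T t29 (T t32 N))))) (K a170 (M a768 (F (T t31 (T t29 (L l220 (T t30 N)))))) (K a234 (M a768 (F (T t31 (T t32 (L l390 (L l3246 (T t33 N))))))) (K a63 (M a768 (F (T t37 (L l3159 (T t35 (L l2209 (T t29 N))))))) N)))))))))))))))⟩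
def e0_255__261_17 : Ent 5 := ⟨[a0, a255], [a261, a375], (M a192 (F (T t19 (T t23 (T t22 (T t24 (K a64 (M a240 (F (T t79 (L l144 (T t80 (T t81 N)))))) (K a128 (M a240 (F (T t79 (T t80 (L l192 (L l220 (T t81 N))))))) (K a85 (M a768 (F (T t86 (L l347 (L l2339 (T t29 (L l347 (L l2339 (L l2431 (T t30 N)))))))))) (K a149 (M a768 (F (T t31 (L l347 (T t29 (L l959 (L l3079 (T t32 N)))))))) (K a213 (M a768 (F (T t31 (L l959 (L l3079 (L l3203 (T t32 (T t33 N)))))))) (K a106 (M a768 (F (T t86 (T t29 (L l959 (L l3079 (T t32 N))))))) (K a170 (M a768 (F (T t31 (T t29 (L l220 (L l2431 (T t30 N))))))) (K a234 (M a768 (F (T t31 (L l959 (L l3079 (T t32 (L l390 (L l3246 (T t33 N))))))))) (K a63 (M a768 (F (T t37 (L l3159 (T t35 (L l2209 (T t29 N))))))) N)))))))))))))))⟩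
def e0_255__261_18 : Ent 5 := ⟨[a0, a255], [a261, a433], (M a192 (F (T t19 (T t23 (T t22 (T t24 (K a64 (M a240 (F (T t79 (L l144 (T t80 (T t81 N)))))) (K a128 (M a240 (F (T t79 (T t80 (L l192 (L l220 (T t81 N))))))) (K a85 (M a768 (F (T t86 (L l347 (L l2339 (T t29 (L l347 (L l2339 (T t30 N))))))))) (K a149 (M a768 (F (T t31 (L l347 (T t29 (T t32 N)))))) (K a213 (M a768 (F (T t31 (L l3203 (T t32 (T t33 N)))))) (K a106 (M a768 (F (T t86 (T t29 (T t32 N))))) (K a170 (M a768 (F (T t31 (T t29 (L l220 (T t30 N)))))) (K a234 (M a768 (F (T t31 (T t32 (L l390 (L l3246 (T t33 N))))))) (K a63 (M a768 (F (T t37 (L l3159 (T t35 (L l2209 (T t29 N))))))) N)))))))))))))))⟩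
def e0_255__261_19 : Ent 5 := ⟨[a0, a255], [a261, a443], (M a192 (F (T t19 (T t23 (L l2653 (T t22 (T t24 (K a64 (M a240 (F (T t79 (L l144 (T t80 (T t81 N)))))) (K a128 (M a240 (F (T t79 (T t80 (L l192 (L l220 (T t81 N))))))) (K a85 (M a768 (F (T t86 (L l347 (L l2339 (T t29 (L l347 (L l2339 (T t30 N))))))))) (K a149 (M a768 (F (T t31 (L l347 (T t29 (L l959 (T t32 N))))))) (K a213 (M a768 (F (T t31 (L l959 (L l3203 (T t32 (L l728 (T t33 N)))))))) (K a106 (M a768 (F (T t86 (T t29 (L l959 (T t32 N)))))) (K a170 (M a768 (F (T t31 (T t29 (L l220 (T t30 N)))))) (K a234 (M a768 (F (T t31 (L l959 (T t32 (L l390 (L l728 (L l3246 (T t33 N))))))))) (K a63 (M a768 (F (T t37 (L l3159 (T t35 (L l2209 (T t29 N))))))) N))))))))))))))))⟩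
def e0_255__261_20 : Ent 5 := ⟨[a0, a255], [a261, a529], (M a192 (F (T t19 (T t23 (T t22 (T t24 (K a64 (M a240 (F (T t79 (L l144 (T t80 (T t81 N)))))) (K a128 (M a240 (F (T t79 (T t80 (L l192 (L l220 (T t81 N))))))) (K a85 (M a768 (F (T t86 (L l347 (L l1405 (L l2339 (T t29 (L l347 (L l1405 (L l2339 (T t30 N))))))))))) (K a149 (M a768 (F (T t31 (L l347 (L l1405 (T t29 (L l1084 (L l1405 (T t32 N))))))))) (K a213 (M a768 (F (T t31 (L l1084 (L l1405 (L l3203 (T t32 (T t33 N)))))))) (K a106 (M a768 (F (T t86 (L l1405 (T t29 (L l1084 (L l1405 (T t32 N)))))))) (K a170 (M a768 (F (T t31 (L l1405 (T t29 (L l220 (L l1405 (T t30 N)))))))) (K a234 (M a768 (F (T t31 (L l1084 (L l1405 (T t32 (L l390 (L l3246 (T t33 N))))))))) (K a63 (M a768 (F (T t85 (L l1084 (L l3159 (T t35 (L l1084 (L l1405 (L l3073 (T t32 N)))))))))) N)))))))))))))))⟩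
def e0_255__261_21 : Ent 5 := ⟨[a0, a255], [a261, a539], (M a192 (F (T t19 (T t23 (T t22 (T t24 (K a64 (M a240 (F (T t79 (L l144 (T t80 (T t81 N)))))) (K a128 (M a240 (F (T t79 (T t80 (L l192 (L l220 (T t81 N))))))) (K a85 (M a768 (F (T t86 (L l347 (L l2339 (T t29 (L l347 (L l2339 (T t30 N))))))))) (K a149 (M a768 (F (T t31 (L l347 (T t29 (T t32 N)))))) (K a213 (M a768 (F (T t31 (L l3203 (T t32 (T t33 N)))))) (K a106 (M a768 (F (T t86 (T t29 (T t32 N))))) (K a170 (M a768 (F (T t31 (T t29 (L l220 (T t30 N)))))) (K a234 (M a768 (F (T t31 (T t32 (L l390 (L l3246 (T t33 N))))))) (K a63 (M a768 (F (T t37 (L l3159 (T t35 (L l2209 (T t29 N))))))) N)))))))))))))))⟩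
def e0_255__261_22 : Ent 5 := ⟨[a0, a255], [a261, a546], (M a192 (F (T t19 (T t23 (T t22 (T t24 (K a64 (M a240 (F (T t79 (L l144 (T t80 (T t81 N)))))) (K a128 (M a240 (F (T t79 (T t80 (L l192 (L l220 (T t81 N))))))) (K a85 (M a768 (F (T t86 (L l347 (L l2339 (T t29 (L l347 (L l2339 (T t30 N))))))))) (K a149 (M a768 (F (T t31 (L l347 (T t29 (L l1084 (T t32 N))))))) (K a213 (M a768 (F (T t31 (L l1084 (L l3203 (T t32 (T t33 N))))))) (K a106 (M a768 (F (T t86 (T t29 (L l1084 (T t32 N)))))) (K a170 (M a768 (F (T t31 (T t29 (L l220 (T t30 N)))))) (K a234 (M a768 (F (T t31 (L l1084 (T t32 (L l390 (L l3246 (T t33 N)))))))) (K a63 (M a768 (F (T t49 (L l1084 (L l3159 (T t35 (L l1084 (L l3073 (T t32 N))))))))) N)))))))))))))))⟩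
def e0_255__261_23 : Ent 5 := ⟨[a0, a255], [a261, a551], (M a192 (F (T t19 (T t23 (T t22 (T t24 (K a64 (M a240 (F (T t79 (L l144 (L l2257 (T t80 (T t81 N))))))) (K a128 (M a240 (F (T t79 (L l2257 (T t80 (L l192 (L l220 (T t81 N)))))))) (K a85 (M a768 (F (T t86 (L l347 (L l2339 (T t29 (L l347 (L l2339 (T t30 N))))))))) (K a149 (M a768 (F (T t31 (L l347 (T t29 (T t32 N)))))) (K a213 (M a768 (F (T t31 (L l3203 (T t32 (T t33 N)))))) (K a106 (M a768 (F (T t86 (T t29 (T t32 N))))) (K a170 (M a768 (F (T t31 (T t29 (L l220 (T t30 N)))))) (K a234 (M a768 (F (T t31 (T t32 (L l390 (L l3246 (T t33 N))))))) (K a63 (M a768 (F (T t37 (L l3159 (T t35 (L l2209 (T t29 N))))))) N)))))))))))))))⟩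
def e0_255__261_24 : Ent 5 := ⟨[a0, a255], [a261, a563], (M a192 (F (T t19 (T t23 (T t22 (T t24 (K a64 (M a240 (F (T t79 (L l144 (T t80 (T t81 N)))))) (K a128 (M a240 (F (T t79 (T t80 (L l192 (L l220 (T t81 N))))))) (K a85 (M a768 (F (T t86 (L l347 (L l2339 (T t29 (L l347 (L l2339 (T t30 N))))))))) (K a149 (M a768 (F (T t31 (L l347 (T t29 (L l1084 (T t32 N))))))) (K a213 (M a768 (F (T t31 (L l1084 (L l3203 (T t32 (T t33 N))))))) (K a106 (M a768 (F (T t86 (T t29 (L l1084 (T t32 N)))))) (K a170 (M a768 (F (T t31 (T t29 (L l220 (T t30 N)))))) (K a234 (M a768 (F (T t31 (L l1084 (T t32 (L l390 (L l3246 (T t33 N)))))))) (K a63 (M a768 (F (T t85 (L l1084 (L l3159 (T t35 (L l1084 (L l3073 (T t32 N))))))))) N)))))))))))))))⟩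
def e0_255__261_25 : Ent 5 := ⟨[a0, a255], [a261, a614], (M a192 (F (T t19 (T t23 (T t22 (T t24 (K a64 (M a240 (F (T t79 (L l144 (T t80 (T t81 N)))))) (K a128 (M a240 (F (T t79 (T t80 (L l192 (L l220 (T t81 N))))))) (K a85 (M a768 (F (T t86 (L l347 (L l1166 (L l2339 (T t29 (L l347 (L l1166 (L l2339 (T t30 N))))))))))) (K a149 (M a768 (F (T t31 (L l347 (L l1166 (T t29 (L l1166 (T t32 N)))))))) (K a213 (M a768 (F (T t31 (L l1166 (L l3203 (T t32 (L l3264 (T t33 N)))))))) (K a106 (M a768 (F (T t35 (L l1166 (T t29 (L l1166 (T t32 N))))))) (K a170 (M a768 (F (T t31 (L l1166 (T t29 (L l220 (L l1166 (T t30 N)))))))) (K a234 (M a768 (F (T t31 (L l1166 (T t32 (L l390 (L l3246 (L l3264 (T t33 N))))))))) (K a63 (M a768 (F (T t69 (L l1166 (L l2209 (T t29 (L l1166 (L l3073 (T t32 N))))))))) N)))))))))))))))⟩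
def e0_255__261_26 : Ent 5 := ⟨[a0, a255], [a261, a626], (M a192 (F (T t19 (T t23 (T t22 (T t24 (K a64 (M a240 (F (T t79 (L l144 (T t80 (T t81 N)))))) (K a128 (M a240 (F (T t79 (T t80 (L l192 (L l220 (T t81 N))))))) (K a85 (M a768 (F (T t86 (L l347 (L l2339 (T t29 (L l347 (L l2339 (T t30 N))))))))) (K a149 (M a768 (F (T t31 (L l347 (T t29 (T t32 N)))))) (K a213 (M a768 (F (T t31 (L l3203 (T t32 (T t33 N)))))) (K a106 (M a768 (F (T t86 (T t29 (T t32 N))))) (K a170 (M a768 (F (T t31 (T t29 (L l220 (T t30 N)))))) (K a234 (M a768 (F (T t31 (T t32 (L l390 (L l3246 (T t33 N))))))) (K a63 (M a768 (F (T t37 (L l3159 (T t35 (L l2209 (T t29 N))))))) N)))))))))))))))⟩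
def e0_255__261_27 : Ent 5 := ⟨[a0, a255], [a261, a631], (M a192 (F (T t19 (T t23 (T t22 (L l2437 (T t24 (K a64 (M a240 (F (T t79 (L l144 (T t80 (T t81 N)))))) (K a128 (M a240 (F (T t79 (T t80 (L l192 (L l220 (T t81 N))))))) (K a85 (M a768 (F (T t86 (L l347 (L l1166 (L l2339 (T t29 (L l347 (L l1166 (L l2339 (T t30 N))))))))))) (K a149 (M a768 (F (T t31 (L l347 (L l1166 (T t29 (L l1166 (T t32 N)))))))) (K a213 (M a768 (F (T t31 (L l1166 (L l3203 (T t32 (L l1153 (T t33 N)))))))) (K a106 (M a768 (F (T t35 (L l1166 (T t29 (L l1166 (T t32 N))))))) (K a170 (M a768 (F (T t31 (L l1166 (T t29 (L l220 (L l1166 (T t30 N)))))))) (K a234 (M a768 (F (T t31 (L l1166 (T t32 (L l390 (L l1153 (L l3246 (T t33 N))))))))) (K a63 (M a768 (F (T t49 (L l3159 (T t35 (L l1166 (L l3073 (T t32 N)))))))) N))))))))))))))))⟩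
def e0_255__261_28 : Ent 5 := ⟨[a0, a255], [a261, a689], (M a192 (F (T t19 (T t23 (T t22 (T t24 (K a64 (M a240 (F (T t79 (L l144 (T t80 (T t81 N)))))) (K a128 (M a240 (F (T t79 (T t80 (L l192 (L l220 (T t81 N))))))) (K a85 (M a768 (F (T t86 (L l347 (L l2339 (T t29 (L l347 (L l2339 (T t30 N))))))))) (K a149 (M a768 (F (T t31 (L l347 (T t29 (T t32 N)))))) (K a213 (M a768 (F (T t31 (L l3203 (T t32 (T t33 N)))))) (K a106 (M a768 (F (T t86 (T t29 (T t32 N))))) (K a170 (M a768 (F (T t31 (T t29 (L l220 (T t30 N)))))) (K a234 (M a768 (F (T t31 (T t32 (L l390 (L l3246 (T t33 N))))))) (K a63 (M a768 (F (T t37 (L l3159 (T t35 (L l2209 (T t29 N))))))) N)))))))))))))))⟩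
def e0_255__261_29 : Ent 5 := ⟨[a0, a255], [a261, a699], (M a192 (F (T t19 (T t23 (T t22 (T t24 (K a64 (M a240 (F (T t79 (L l144 (T t80 (T t81 N)))))) (K a128 (M a240 (F (T t79 (T t80 (L l192 (L l220 (T t81 N))))))) (K a85 (M a768 (F (T t86 (L l347 (L l2339 (T t29 (L l347 (L l2339 (T t30 N))))))))) (K a149 (M a768 (F (T t31 (L l347 (T t29 (L l3079 (T t32 N))))))) (K a213 (M a768 (F (T t31 (L l3079 (L l3203 (T t32 (T t33 N))))))) (K a106 (M a768 (F (T t86 (T t29 (L l3079 (T t32 N)))))) (K a170 (M a768 (F (T t31 (T t29 (L l220 (T t30 N)))))) (K a234 (M a768 (F (T t31 (L l3079 (T t32 (L l390 (L l3246 (T t33 N)))))))) (K a63 (M a768 (F (T t37 (L l3159 (T t35 (L l2209 (T t29 N))))))) N)))))))))))))))⟩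
def e0_255__261_30 : Ent 5 := ⟨[a0, a255], [a261, a785], (M a240 (F (T t140 (T t80 (T t26 (L l2087 (T t207 (K a80 (M a192 (F (T t79 (L l94 (T t19 (L l94 (T t549 N))))))) (K a160 (M a192 (F (T t79 (T t19 (L l376 (T t549 N)))))) (K a85 (M a768 (F (T t550 (L l455 (L l2339 (L l3227 (T t551 (L l455 (L l2339 (L l3227 (T t552 N))))))))))) (K a165 (M a768 (F (T t553 (L l455 (L l3227 (T t551 (L l3227 (T t32 N)))))))) (K a245 (M a768 (F (T t550 (L l3227 (L l3347 (T t32 (L l1925 (T t554 N)))))))) (K a90 (M a768 (F (T t550 (L l3227 (T t551 (L l3227 (T t32 N))))))) (K a170 (M a768 (F (T t553 (L l3227 (T t551 (L l180 (L l3227 (T t552 N)))))))) (K a250 (M a768 (F (T t550 (L l3227 (T t32 (L l462 (L l1925 (L l3354 (T t554 N))))))))) (K a15 (M a341 (F (T t555 (L l1925 (T t415 N))))) N))))))))))))))))⟩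
def e0_255__261_31 : Ent 5 := ⟨[a0, a255], [a261, a795], (M a192 (F (T t19 (T t23 (T t22 (T t24 (K a64 (M a240 (F (T t79 (L l144 (T t80 (T t81 N)))))) (K a128 (M a240 (F (T t79 (T t80 (L l192 (L l220 (T t81 N))))))) (K a85 (M a768 (F (T t86 (L l347 (L l2339 (T t29 (L l347 (L l2339 (T t30 N))))))))) (K a149 (M a768 (F (T t31 (L l347 (T t29 (T t32 N)))))) (K a213 (M a768 (F (T t31 (L l3203 (T t32 (T t33 N)))))) (K a106 (M a768 (F (T t86 (T t29 (T t32 N))))) (K a170 (M a768 (F (T t31 (T t29 (L l220 (T t30 N)))))) (K a234 (M a768 (F (T t31 (T t32 (L l390 (L l3246 (T t33 N))))))) (K a63 (M a768 (F (T t37 (L l3159 (T t35 (L l2209 (T t29 N))))))) N)))))))))))))))⟩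
def e0_255__261_32 : Ent 5 := ⟨[a0, a255], [a261, a802], (M a240 (F (T t140 (T t80 (T t26 (L l2087 (T t207 (K a80 (M a192 (F (T t79 (L l94 (T t19 (L l94 (T t549 N))))))) (K a160 (M a192 (F (T t79 (T t19 (L l376 (T t549 N)))))) (K a85 (M a768 (F (T t550 (L l455 (L l2339 (T t551 (L l455 (L l2339 (T t552 N))))))))) (K a165 (M a768 (F (T t553 (L l455 (T t551 (T t32 N)))))) (K a245 (M a768 (F (T t550 (L l3347 (T t32 (L l3264 (T t554 N))))))) (K a90 (M a768 (F (T t550 (T t551 (T t32 N))))) (K a170 (M a768 (F (T t556 (T t551 (L l180 (T t552 N)))))) (K a250 (M a768 (F (T t550 (T t32 (L l462 (L l3264 (L l3354 (T t554 N)))))))) (K a15 (M a341 (F (T t555 (T t415 N)))) N))))))))))))))))⟩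
def e0_255__261_33 : Ent 5 := ⟨[a0, a255], [a261, a807], (M a192 (F (T t19 (T t23 (T t22 (T t24 (K a64 (M a240 (F (T t79 (L l144 (T t80 (T t81 N)))))) (K a128 (M a240 (F (T t79 (T t80 (L l192 (L l220 (T t81 N))))))) (K a85 (M a768 (F (T t86 (L l347 (L l2339 (T t29 (L l347 (L l2339 (T t30 N))))))))) (K a149 (M a768 (F (T t31 (L l347 (T t29 (T t32 N)))))) (K a213 (M a768 (F (T t31 (L l3203 (T t32 (T t33 N)))))) (K a106 (M a768 (F (T t86 (T t29 (T t32 N))))) (K a170 (M a768 (F (T t31 (T t29 (L l220 (T t30 N)))))) (K a234 (M a768 (F (T t31 (T t32 (L l390 (L l3246 (T t33 N))))))) (K a63 (M a768 (F (T t37 (L l3159 (T t35 (L l2209 (T t29 N))))))) N)))))))))))))))⟩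
def e0_255__261_34 : Ent 5 := ⟨[a0, a255], [a261, a819], (M a240 (F (T t406 (L l2257 (T t140 (L l2257 (T t80 (L l2257 (T t26 (L l2087 (L l2257 (T t207 (K a80 (M a192 (F (T t47 (L l3337 (T t304 (L l94 (T t549 N))))))) (K a160 (M a192 (F (T t557 (L l3337 (T t304 (L l376 (T t549 N))))))) (K a85 (M a768 (F (T t558 (L l94 (L l1977 (T t556 (L l455 (L l2339 (T t552 N))))))))) (K a165 (M a768 (F (T t558 (L l1977 (T t556 (L l1999 (T t32 N))))))) (K a245 (M a768 (F (T t559 (L l1999 (L l3347 (T t32 (T t554 N))))))) (K a90 (M a768 (F (T t560 (L l94 (L l1977 (T t556 (L l1999 (T t32 N)))))))) (K a170 (M a768 (F (T t560 (L l1977 (T t556 (L l180 (T t552 N))))))) (K a250 (M a768 (F (T t38 (L l1977 (T t556 (L l462 (L l3354 (T t554 N)))))))) (K a15 (M a341 (L l2257 (F (T t555 (T t415 (K a551 (M a283 (F (T t413 (L l1977 (L l3123 (T t102 (L l1604 (L l2115 (T t561 N))))))))) (K a283 (M a551 (F (T t413 (L l1977 (L l3123 (T t102 (L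 l1604 (L l2115 (T t561 N))))))))) N))))))) N)))))))))))))))))))))⟩
def e0_255__261_35 : Ent 5 := ⟨[a0, a255], [a261, a870], (M a240 (F (T t140 (T t80 (T t26 (L l2087 (T t207 (K a80 (M a192 (F (T t79 (L l94 (T t19 (L l94 (T t549 N))))))) (K a160 (M a192 (F (T t79 (T t19 (L l376 (T t549 N)))))) (K a85 (M a768 (F (T t550 (L l455 (L l2339 (T t551 (L l455 (L l2339 (T t552 N))))))))) (K a165 (M a768 (F (T t553 (L l455 (T t551 (T t32 N)))))) (K a245 (M a768 (F (T t550 (L l3347 (T t32 (L l1686 (T t554 N))))))) (K a90 (M a768 (F (T t550 (T t551 (T t32 N))))) (K a170 (M a768 (F (T t556 (T t551 (L l180 (T t552 N)))))) (K a250 (M a768 (F (T t550 (T t32 (L l462 (L l1686 (L l3354 (T t554 N)))))))) (K a15 (M a341 (F (T t555 (L l1686 (T t415 N))))) N))))))))))))))))⟩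
def e0_255__261_36 : Ent 5 := ⟨[a0, a255], [a261, a882], (M a192 (F (T t19 (T t23 (T t22 (T t24 (K a64 (M a240 (F (T t79 (L l144 (T t80 (T t81 N)))))) (K a128 (M a240 (F (T t79 (T t80 (L l192 (L l220 (T t81 N))))))) (K a85 (M a768 (F (T t86 (L l347 (L l2339 (T t29 (L l347 (L l2339 (T t30 N))))))))) (K a149 (M a768 (F (T t31 (L l347 (T t29 (T t32 N)))))) (K a213 (M a768 (F (T t31 (L l3203 (T t32 (T t33 N)))))) (K a106 (M a768 (F (T t86 (T t29 (T t32 N))))) (K a170 (M a768 (F (T t31 (T t29 (L l220 (T t30 N)))))) (K a234 (M a768 (F (T t31 (T t32 (L l390 (L l3246 (T t33 N))))))) (K a63 (M a768 (F (T t37 (L l3159 (T t35 (L l2209 (T t29 N))))))) N)))))))))))))))⟩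
def e0_255__261_37 : Ent 5 := ⟨[a0, a255], [a261, a887], (M a240 (F (T t140 (T t80 (T t26 (L l2087 (T t207 (K a80 (M a192 (F (T t79 (L l94 (T t19 (L l94 (T t549 N))))))) (K a160 (M a192 (F (T t79 (T t19 (L l376 (T t549 N)))))) (K a85 (M a768 (F (T t550 (L l455 (L l2339 (T t551 (L l455 (L l2339 (T t552 N))))))))) (K a165 (M a768 (F (T t553 (L l455 (T t551 (L l1999 (T t32 N))))))) (K a245 (M a768 (F (T t550 (L l1999 (L l3347 (T t32 (L l1686 (T t554 N)))))))) (K a90 (M a768 (F (T t550 (T t551 (L l1999 (T t32 N)))))) (K a170 (M a768 (F (T t556 (T t551 (L l180 (T t552 N)))))) (K a250 (M a768 (F (T t550 (L l1999 (T t32 (L l462 (L l1686 (L l3354 (T t554 N))))))))) (K a15 (M a341 (F (T t555 (L l1686 (T t415 N))))) N))))))))))))))))⟩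
def e0_255__261_38 : Ent 5 := ⟨[a0, a255], [a261, a945], (M a192 (F (T t19 (T t23 (T t22 (T t24 (K a64 (M a240 (F (T t79 (L l144 (T t80 (T t81 N)))))) (K a128 (M a240 (F (T t79 (T t80 (L l192 (L l220 (T t81 N))))))) (K a85 (M a768 (F (T t86 (L l347 (L l2339 (T t29 (L l347 (L l2339 (T t30 N))))))))) (K a149 (M a768 (F (T t31 (L l347 (T t29 (T t32 N)))))) (K a213 (M a768 (F (T t31 (L l3203 (T t32 (T t33 N)))))) (K a106 (M a768 (F (T t86 (T t29 (T t32 N))))) (K a170 (M a768 (F (T t31 (T t29 (L l220 (T t30 N)))))) (K a234 (M a768 (F (T t31 (T t32 (L l390 (L l3246 (T t33 N))))))) (K a63 (M a768 (F (T t37 (L l3159 (T t35 (L l2209 (T t29 N))))))) N)))))))))))))))⟩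
def e0_255__261_39 : Ent 5 := ⟨[a0, a255], [a261, a955], (M a192 (F (T t19 (T t23 (T t22 (T t24 (K a64 (M a240 (F (T t79 (L l144 (T t80 (T t81 N)))))) (K a128 (M a240 (F (T t79 (T t80 (L l192 (L l220 (T t81 N))))))) (K a85 (M a768 (F (T t86 (L l347 (L l2339 (T t29 (L l347 (L l2339 (T t30 N))))))))) (K a149 (M a768 (F (T t31 (L l347 (T t29 (L l1999 (T t32 N))))))) (K a213 (M a768 (F (T t31 (L l1999 (L l3203 (T t32 (T t33 N))))))) (K a106 (M a768 (F (T t86 (T t29 (L l1999 (T t32 N)))))) (K a170 (M a768 (F (T t31 (T t29 (L l220 (T t30 N)))))) (K a234 (M a768 (F (T t31 (L l1999 (T t32 (L l390 (L l3246 (T t33 N)))))))) (K a63 (M a768 (F (T t38 (L l3159 (T t35 (L l2209 (T t29 N))))))) N)))))))))))))))⟩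
def b0_255__261 : Blk 5 := ⟨[0, 255], [261], [17, 27, 34, 39, 51, 102, 114, 119, 177, 187, 273, 283, 290, 295, 307, 358, 370, 375, 433, 443, 529, 539, 546, 551, 563, 614, 626, 631, 689, 699, 785, 795, 802, 807, 819, 870, 882, 887, 945, 955], [e0_255__261_0, e0_255__261_1, e0_255__261_2, e0_255__261_3, e0_255__261_4, e0_255__261_5, e0_255__261_6, e0_255__261_7, e0_255__261_8, e0_255__261_9, e0_255__261_10, e0_255__261_11, e0_255__261_12, e0_255__261_13, e0_255__261_14, e0_255__261_15, e0_255__261_16, e0_255__261_17, e0_255__261_18, e0_255__261_19, e0_255__261_20, e0_255__261_21, e0_255__261_22, e0_255__261_23, e0_255__261_24, e0_255__261_25, e0_255__261_26, e0_255__261_27, e0_255__261_28, e0_255__261_29, e0_255__261_30, e0_255__261_31, e0_255__261_32, e0_255__261_33, e0_255__261_34, e0_255__261_35, e0_255__261_36, e0_255__261_37, e0_255__261_38, e0_255__261_39], by decide +kernel, by decide +kernel⟩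
def e0_255__266_0 : Ent 5 := ⟨[a0, a255], [a266, a17], (M a192 (F (T t24 (L l365 (T t19 (L l15 (T t23 (L l365 (T t22 (K a64 (M a240 (F (T t79 (L l144 (L l365 (L l2094 (L l2115 (T t80 (L l15 (T t81 N)))))))))) (K a128 (M a240 (F (T t79 (L l365 (L l2094 (L l2115 (T t80 (L l15 (L l192 (L l220 (T t81 N))))))))))) (K a85 (M a768 (L l365 (F (T t86 (L l347 (L l2339 (T t29 (L l347 (L l2339 (T t30 (K a153 (M a221 (F (T t35 (L l982 (L l2117 (T t403 N)))))) (K a221 (M a153 (F (T t35 (L l243 (L l347 (L l2339 (L l3227 (T t29 (L l144 (L l528 (L l982 (T t36 N)))))))))))) N)))))))))))) (K a149 (M a768 (F (T t31 (L l347 (T t29 (T t32 N)))))) (K a213 (M a768 (F (T t31 (L l3203 (T t32 (L l982 (T t33 N))))))) (K a106 (M a768 (F (T t86 (T t29 (T t32 N))))) (K a170 (M a768 (F (T t31 (T t29 (L l220 (T t30 N)))))) (K a234 (M a768 (F (T t31 (T t32 (L l390 (L l982 (L l3246 (T t33 N)))))))) (K a63 (M a768 (F (T t42 (L l3159 (T t35 (L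 l3073 (T t32 N))))))) N))))))))))))))))))⟩
def e0_255__266_1 : Ent 5 := ⟨[a0, a255], [a266, a27], (M a192 (F (T t19 (T t23 (T t22 (T t24 (K a64 (M a240 (F (T t79 (L l73 (L l144 (L l2094 (L l2115 (T t80 (T t81 N))))))))) (K a128 (M a240 (F (T t79 (L l73 (L l2094 (L l2115 (T t80 (L l192 (L l220 (T t81 N)))))))))) (K a85 (M a768 (F (T t86 (L l347 (L l2339 (T t29 (L l347 (L l2339 (T t30 N))))))))) (K a149 (M a768 (F (T t31 (L l347 (T t29 (T t32 N)))))) (K a213 (M a768 (F (T t31 (L l3203 (T t32 (L l982 (T t33 N))))))) (K a106 (M a768 (F (T t86 (T t29 (T t32 N))))) (K a170 (M a768 (F (T t31 (T t29 (L l220 (T t30 N)))))) (K a234 (M a768 (F (T t31 (T t32 (L l390 (L l982 (L l3246 (T t33 N)))))))) (K a63 (M a768 (F (T t37 (L l3159 (T t35 (L l2209 (T t29 N))))))) N)))))))))))))))⟩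
def e0_255__266_2 : Ent 5 := ⟨[a0, a255], [a266, a34], (M a192 (F (T t22 (L l26 (T t19 (L l402 (T t23 (L l402 (T t24 (K a64 (M a240 (F (T t79 (L l144 (L l2094 (L l2115 (T t80 (L l402 (T t81 N))))))))) (K a128 (M a240 (F (T t79 (L l2094 (L l2115 (T t80 (L l192 (L l220 (L l402 (T t81 N)))))))))) (K a85 (M a768 (F (T t86 (L l347 (L l2339 (T t29 (L l347 (L l2339 (T t30 N))))))))) (K a149 (M a768 (F (T t31 (L l347 (T t29 (T t32 N)))))) (K a213 (M a768 (F (T t31 (L l3203 (T t32 (L l402 (L l982 (T t33 N)))))))) (K a106 (M a768 (F (T t86 (T t29 (T t32 N))))) (K a170 (M a768 (L l402 (F (T t31 (T t29 (L l220 (T t30 (K a102 (M a238 (F (T t31 (L l2154 (T t82 N))))) (K a238 (M a102 (F (T t35 (T t29 (L l528 (L l982 (L l2598 (L l3264 (T t36 N))))))))) N))))))))) (K a234 (M a768 (F (T t31 (T t32 (L l390 (L l402 (L l982 (L l3246 (T t33 N))))))))) (K a63 (M a768 (F (T t37 (L l3159 (T t35 (L l2209 (T t29 N))))))) N))))))))))))))))))⟩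
def e0_255__266_3 : Ent 5 := ⟨[a0, a255], [a266, a39], (M a192 (F (T t19 (T t23 (T t22 (T t24 (K a64 (M a240 (F (T t79 (L l73 (L l144 (L l2094 (L l2115 (T t80 (T t81 N))))))))) (K a128 (M a240 (F (T t79 (L l73 (L l2094 (L l2115 (T t80 (L l192 (L l220 (T t81 N)))))))))) (K a85 (M a768 (F (T t86 (L l347 (L l2339 (T t29 (L l347 (L l2339 (T t30 N))))))))) (K a149 (M a768 (F (T t31 (L l347 (T t29 (T t32 N)))))) (K a213 (M a768 (F (T t31 (L l3203 (T t32 (L l982 (T t33 N))))))) (K a106 (M a768 (F (T t86 (T t29 (T t32 N))))) (K a170 (M a768 (F (T t31 (T t29 (L l220 (T t30 N)))))) (K a234 (M a768 (F (T t31 (T t32 (L l390 (L l982 (L l3246 (T t33 N)))))))) (K a63 (M a768 (F (T t37 (L l3159 (T t35 (L l2209 (T t29 N))))))) N)))))))))))))))⟩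
def e0_255__266_4 : Ent 5 := ⟨[a0, a255], [a266, a51], (M a60 (F (T t419 (L l487 (T t420 (L l487 (T t421 (L l487 (T t422 (L l487 (T t423 (K a20 (M a48 (F (T t424 (L l415 (T t425 (L l350 (T t426 N))))))) (K a40 (M a48 (F (T t427 (L l415 (T t425 (L l52 (T t426 N))))))) (K a85 (M a768 (F (L l2217 (T t428 (L l141 (L l2339 (L l3127 (T t429 (L l141 (L l2339 (T t430 N))))))))))) (K a105 (M a768 (F (T t431 (L l141 (L l3127 (T t429 (L l3079 (T t32 N)))))))) (K a125 (M a768 (F (T t431 (L l2507 (L l3079 (T t32 (L l141 (L l2507 (T t432 N))))))))) (K a150 (M a768 (F (T t433 (L l350 (L l2217 (T t434 (L l3079 (T t32 N)))))))) (K a170 (M a768 (F (T t433 (L l2217 (T t434 (L l392 (T t430 N))))))) (K a190 (M a768 (F (T t38 (L l2217 (T t434 (T t432 N)))))) (K a195 (M a341 (L l487 (F (T t435 (T t436 (K a147 (M a99 (F (T t437 (L l2115 (L l2265 (L l3165 (T t438 (T t439 N)))))))) (K a99 (M a147 (F (T t437 (L l2115 (L l2265 (L l3165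 (T t438 (T t439 N)))))))) N))))))) N))))))))))))))))))))⟩
def e0_255__266_5 : Ent 5 := ⟨[a0, a255], [a266, a102], (M a341 (F (L l126 (T t1 (L l402 (L l528 (L l2115 (T t0 (L l402 (L l528 (L l982 (T t2 (L l528 (L l2115 (T t3 (K a256 (M a240 (L l528 (F (T t440 (L l126 (L l2115 (T t140 (T t102 (K a261 (M a271 (F (T t102 (L l402 (T t415 N))))) (K a271 (M a261 (F (T t441 (L l126 (T t406 N))))) N)))))))))) (K a768 (M a15 (F (L l2036 (T t442 (L l402 (L l3340 (T t355 (L l1568 (T t443 N))))))))) (K a85 (M a48 (L l126 (F (T t87 (T t88 (L l123 (T t89 (K a68 (M a119 (F (T t90 (L l122 (T t91 N))))) (K a119 (M a68 (F (T t87 (L l365 (L l2413 (T t131 N)))))) N))))))))) (K a597 (M a64 (F (T t92 (L l402 (L l2511 (T t15 (L l102 (L l402 (L l1184 (T t16 N)))))))))) (K a853 (Fr a682 a1023 l3116 (Fr a170 a85 l476 (Fr a426 a938 l2598 (Fr a768 a597 l3375 (V t402))))) (K a170 (M a192 (L l402 (F (T t18 (L l2598 (T t10 (L l220 (T t11 (K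 a34 (M a238 (F (T t107 (L l378 (T t132 N))))) (K a238 (M a34 (F (L l2820 (T t133 (L l220 (T t11 N)))))) N)))))))))) (K a426 (M a346 (F (T t444 (L l402 (L l2598 (T t445 (L l2619 (T t446 (L l2115 (T t447 N)))))))))) (K a682 (M a64 (F (L l2684 (T t20 (L l402 (L l2598 (T t8 (L l402 (L l2598 (L l2684 (T t15 (L l2684 (T t21 N))))))))))))) (K a1023 (M a64 (F (L l402 (T t73 (L l1993 (T t20 (L l402 (L l1993 (L l2036 (T t8 N)))))))))) N))))))))))))))))))))))))⟩
def e0_255__266_6 : Ent 5 := ⟨[a0, a255], [a266, a114], (M a192 (F (T t19 (T t23 (T t22 (T t24 (K a64 (M a240 (F (T t79 (L l144 (L l2094 (L l2115 (T t80 (T t81 N)))))))) (K a128 (M a240 (F (T t79 (L l2094 (L l2115 (T t80 (L l192 (L l220 (T t81 N))))))))) (K a85 (M a768 (F (T t86 (L l347 (L l2339 (T t29 (L l347 (L l2339 (T t30 N))))))))) (K a149 (M a768 (F (T t31 (L l347 (T t29 (T t32 N)))))) (K a213 (M a768 (F (T t31 (L l3203 (T t32 (L l982 (T t33 N))))))) (K a106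 (M a768 (F (T t86 (T t29 (T t32 N))))) (K a170 (M a768 (F (T t31 (T t29 (L l220 (T t30 N)))))) (K a234 (M a768 (F (T t31 (T t32 (L l390 (L l982 (L l3246 (T t33 N)))))))) (K a63 (M a768 (F (T t37 (L l3159 (T t35 (L l2209 (T t29 N))))))) N)))))))))))))))⟩
def e0_255__266_7 : Ent 5 := ⟨[a0, a255], [a266, a119], (M a192 (F (T t23 (L l126 (T t19 (L l126 (T t22 (L l113 (T t24 (K a64 (M a240 (F (T t79 (L l126 (L l144 (L l2094 (L l2115 (T t80 (T t81 N))))))))) (K a128 (M a240 (F (T t79 (L l126 (L l2094 (L l2115 (T t80 (L l192 (L l220 (T t81 N)))))))))) (K a85 (M a768 (L l126 (F (T t86 (L l347 (L l2339 (L l2487 (T t29 (L l347 (L l2339 (L l2487 (T t30 (K a68 (M a102 (F (T t35 (L l347 (L l2339 (L l2487 (T t29 (L l80 (L l144 (L l528 (L l982 (T t36 N)))))))))))) (K a102 (M a68 (F (T t35 (L l365 (L l2339 (L l2487 (T t134 N))))))) N)))))))))))))) (K a149 (M a768 (F (T t31 (L l347 (L l2487 (T t29 (L l2487 (T t32 N)))))))) (K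 a213 (M a768 (F (T t31 (L l2487 (L l3203 (T t32 (L l982 (T t33 N)))))))) (K a106 (M a768 (F (T t86 (L l2487 (T t29 (L l2487 (T t32 N))))))) (K a170 (M a768 (F (T t31 (L l2487 (T t29 (L l220 (L l2487 (T t30 N)))))))) (K a234 (M a768 (F (T t31 (L l2487 (T t32 (L l390 (L l982 (L l3246 (T t33 N))))))))) (K a63 (M a768 (F (T t69 (L l2209 (L l2487 (T t29 (L l2487 (L l3073 (T t32 N))))))))) N))))))))))))))))))⟩
def e0_255__266_8 : Ent 5 := ⟨[a0, a255], [a266, a177], (M a192 (F (T t19 (T t23 (T t22 (T t24 (K a64 (M a240 (F (T t79 (L l144 (L l2094 (L l2115 (T t80 (T t81 N)))))))) (K a128 (M a240 (F (T t79 (L l2094 (L l2115 (T t80 (L l192 (L l220 (T t81 N))))))))) (K a85 (M a768 (F (T t86 (L l347 (L l2339 (T t29 (L l347 (L l2339 (T t30 N))))))))) (K a149 (M a768 (F (T t31 (L l347 (T t29 (T t32 N)))))) (K a213 (M a768 (F (T t31 (L l3203 (T t32 (L l982 (T t33 N))))))) (K a106 (M a768 (F (T t86 (T t29 (T t32 N))))) (K a170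 (M a768 (F (T t31 (T t29 (L l220 (T t30 N)))))) (K a234 (M a768 (F (T t31 (T t32 (L l390 (L l982 (L l3246 (T t33 N)))))))) (K a63 (M a768 (F (T t37 (L l3159 (T t35 (L l2209 (T t29 N))))))) N)))))))))))))))⟩
def e0_255__266_9 : Ent 5 := ⟨[a0, a255], [a266, a187], (M a192 (F (T t19 (L l208 (T t23 (L l189 (T t22 (L l208 (T t24 (K a64 (M a240 (F (T t79 (L l144 (L l2094 (L l2115 (T t80 (L l208 (T t81 N))))))))) (K a128 (M a240 (F (T t79 (L l2094 (L l2115 (T t80 (L l192 (L l208 (L l220 (T t81 N)))))))))) (K a85 (M a768 (F (T t86 (L l347 (L l2339 (T t29 (L l347 (L l2339 (T t30 N))))))))) (K a149 (M a768 (F (T t31 (L l347 (T t29 (T t32 N)))))) (K a213 (M a768 (F (T t31 (L l3203 (T t32 (L l208 (L l982 (L l2709 (T t33 N))))))))) (K a106 (M a768 (F (T t86 (T t29 (T t32 N))))) (K a170 (M a768 (L l208 (F (T t31 (T t29 (L l220 (T t30 (K a136 (M a153 (F (T t35 (T t29 (L l528 (L l982 (L l2598 (L l2709 (T t36 N))))))))) (K a153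 (M a136 (F (T t35 (L l982 (L l2598 (L l2709 (T t180 N))))))) N))))))))) (K a234 (M a768 (F (T t31 (T t32 (L l208 (L l390 (L l982 (L l2709 (L l3246 (T t33 N)))))))))) (K a63 (M a768 (F (T t37 (L l3159 (T t35 (L l2209 (T t29 N))))))) N))))))))))))))))))⟩
def e0_255__266_10 : Ent 5 := ⟨[a0, a255], [a266, a273], (M a192 (F (T t19 (T t23 (T t22 (T t24 (K a64 (M a240 (F (T t79 (L l144 (L l2094 (L l2115 (T t80 (T t81 N)))))))) (K a128 (M a240 (F (T t79 (L l2094 (L l2115 (T t80 (L l192 (L l220 (T t81 N))))))))) (K a85 (M a768 (F (T t86 (L l347 (L l2339 (T t29 (L l347 (L l2339 (T t30 N))))))))) (K a149 (M a768 (F (T t31 (L l347 (T t29 (T t32 N)))))) (K a213 (M a768 (F (T t31 (L l3203 (T t32 (L l982 (T t33 N))))))) (K a106 (M a768 (F (T t86 (T t29 (T t32 N))))) (K a170 (M a768 (F (T t31 (T t29 (L l220 (T t30 N)))))) (K a234 (M a768 (F (T t31 (T t32 (L l390 (L l982 (L l3246 (T t33 N)))))))) (K a63 (M a768 (F (T t43 (L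 l3159 (T t35 (L l3073 (T t32 N))))))) N)))))))))))))))⟩
def e0_255__266_11 : Ent 5 := ⟨[a0, a255], [a266, a283], (M a192 (F (T t19 (T t23 (T t22 (T t24 (K a64 (M a240 (F (T t79 (L l144 (L l2094 (L l2115 (L l2257 (T t80 (T t81 N))))))))) (K a128 (M a240 (F (T t79 (L l2094 (L l2115 (L l2257 (T t80 (L l192 (L l220 (T t81 N)))))))))) (K a85 (M a768 (F (T t86 (L l347 (L l2339 (T t29 (L l347 (L l2339 (T t30 N))))))))) (K a149 (M a768 (F (T t31 (L l347 (T t29 (T t32 N)))))) (K a213 (M a768 (F (T t31 (L l3203 (T t32 (L l982 (T t33 N))))))) (K a106 (M a768 (F (T t86 (T t29 (T t32 N))))) (K a170 (M a768 (F (T t31 (T t29 (L l220 (T t30 N)))))) (K a234 (M a768 (F (T t31 (T t32 (L l390 (L l982 (L l3246 (T t33 N)))))))) (K a63 (M a768 (F (T t37 (L l3159 (T t35 (L l2209 (T t29 N))))))) N)))))))))))))))⟩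
def e0_255__266_12 : Ent 5 := ⟨[a0, a255], [a266, a290], (M a192 (F (T t19 (T t23 (T t22 (T t24 (K a64 (M a240 (F (T t79 (L l144 (L l2094 (L l2115 (T t80 (T t81 N)))))))) (K a128 (M a240 (F (T t79 (L l2094 (L l2115 (T t80 (L l192 (L l220 (T t81 N))))))))) (K a85 (M a768 (F (T t86 (L l347 (L l2339 (T t29 (L l347 (L l2339 (T t30 N))))))))) (K a149 (M a768 (F (T t31 (L l347 (T t29 (T t32 N)))))) (K a213 (M a768 (F (T t31 (L l3203 (T t32 (L l922 (L l982 (T t33 N)))))))) (K a106 (M a768 (F (T t86 (T t29 (T t32 N))))) (K a170 (M a768 (F (T t31 (T t29 (L l220 (T t30 N)))))) (K a234 (M a768 (F (T t31 (T t32 (L l390 (L l922 (L l982 (L l3246 (T t33 N))))))))) (K a63 (M a768 (F (T t37 (L l3159 (T t35 (L l2209 (T t29 N))))))) N)))))))))))))))⟩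
def e0_255__266_13 : Ent 5 := ⟨[a0, a255], [a266, a295], (M a192 (F (T t19 (T t23 (T t22 (T t24 (K a64 (M a240 (F (T t79 (L l144 (L l2094 (L l2115 (T t80 (T t81 N)))))))) (K a128 (M a240 (F (T t79 (L l2094 (L l2115 (T t80 (L l192 (L l220 (T t81 N))))))))) (K a85 (M a768 (F (T t86 (L l347 (L l2339 (T t29 (L l347 (L l2339 (T t30 N))))))))) (K a149 (M a768 (F (T t31 (L l347 (T t29 (T t32 N)))))) (K a213 (M a768 (F (T t31 (L l3203 (T t32 (L l982 (T t33 N))))))) (K a106 (M a768 (F (T t86 (T t29 (T t32 N))))) (K a170 (M a768 (F (T t31 (T t29 (L l220 (T t30 N)))))) (K a234 (M a768 (F (T t31 (T t32 (L l390 (L l982 (L l3246 (T t33 N)))))))) (K a63 (M a768 (F (T t37 (L l3159 (T t35 (L l2209 (T t29 N))))))) N)))))))))))))))⟩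
def e0_255__266_14 : Ent 5 := ⟨[a0, a255], [a266, a307], (M a192 (F (T t19 (T t23 (T t22 (T t24 (K a64 (M a240 (F (T t79 (L l144 (L l2094 (L l2115 (T t80 (T t81 N)))))))) (K a128 (M a240 (F (T t79 (L l2094 (L l2115 (T t80 (L l192 (L l220 (T t81 N))))))))) (K a85 (M a768 (F (T t86 (L l347 (L l2339 (T t29 (L l347 (L l2339 (T t30 N))))))))) (K a149 (M a768 (F (T t31 (L l347 (T t29 (L l959 (T t32 N))))))) (K a213 (M a768 (F (T t31 (L l959 (L l3203 (T t32 (L l982 (T t33 N)))))))) (K a106 (M a768 (F (T t86 (T t29 (L l959 (T t32 N)))))) (K a170 (M a768 (F (T t31 (T t29 (L l220 (T t30 N)))))) (K a234 (M a768 (F (T t31 (L l959 (T t32 (L l390 (L l982 (L l3246 (T t33 N))))))))) (K a63 (M a768 (F (T t37 (L l1009 (L l3159 (T t35 (L l2209 (T t29 N)))))))) N)))))))))))))))⟩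
def e0_255__266_15 : Ent 5 := ⟨[a0, a255], [a266, a358], (M a192 (F (T t19 (T t23 (T t22 (T t24 (K a64 (M a240 (F (T t79 (L l144 (L l2094 (L l2115 (T t80 (T t81 N)))))))) (K a128 (M a240 (F (T t79 (L l2094 (L l2115 (T t80 (L l192 (L l220 (T t81 N))))))))) (K a85 (M a768 (F (T t86 (L l347 (L l2339 (L l2487 (T t29 (L l347 (L l2339 (L l2487 (T t30 N))))))))))) (K a149 (M a768 (F (T t31 (L l347 (L l2487 (T t29 (L l2487 (T t32 N)))))))) (K a213 (M a768 (F (T t31 (L l2487 (L l3203 (T t32 (L l922 (L l982 (T t33 N))))))))) (K a106 (M a768 (F (T t86 (L l2487 (T t29 (L l2487 (T t32 N))))))) (K a170 (M a768 (F (T t31 (L l2487 (T t29 (L l220 (L l2487 (T t30 N)))))))) (K a234 (M a768 (F (T t31 (L l2487 (T t32 (L l390 (L l922 (L l982 (L l3246 (T t33 N)))))))))) (K a63 (M a768 (F (T t69 (L l2209 (L l2487 (T t29 (L l2487 (L l3073 (T t32 N))))))))) N)))))))))))))))⟩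
def e0_255__266_16 : Ent 5 := ⟨[a0, a255], [a266, a370], (M a192 (F (T t19 (T t23 (T t22 (T t24 (K a64 (M a240 (F (T t79 (L l144 (L l2094 (L l2115 (T t80 (T t81 N)))))))) (K a128 (M a240 (F (T t79 (L l2094 (L l2115 (T t80 (L l192 (L l220 (T t81 N))))))))) (K a85 (M a768 (F (T t86 (L l347 (L l2339 (T t29 (L l347 (L l2339 (T t30 N))))))))) (K a149 (M a768 (F (T t31 (L l347 (T t29 (T t32 N)))))) (K a213 (M a768 (F (T t31 (L l3203 (T t32 (L l982 (T t33 N))))))) (K a106 (M a768 (F (T t86 (T t29 (T t32 N))))) (K a170 (M a768 (F (T t31 (T t29 (L l220 (T t30 N)))))) (K a234 (M a768 (F (T t31 (T t32 (L l390 (L l982 (L l3246 (T t33 N)))))))) (K a63 (M a768 (F (T t37 (L l3159 (T t35 (L l2209 (T t29 N))))))) N)))))))))))))))⟩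
def e0_255__266_17 : Ent 5 := ⟨[a0, a255], [a266, a375], (M a192 (F (T t19 (T t23 (T t22 (T t24 (K a64 (M a240 (F (T t79 (L l144 (L l2094 (L l2115 (T t80 (T t81 N)))))))) (K a128 (M a240 (F (T t79 (L l2094 (L l2115 (T t80 (L l192 (L l220 (T t81 N))))))))) (K a85 (M a768 (F (T t86 (L l347 (L l2339 (T t29 (L l347 (L l2339 (L l2431 (T t30 N)))))))))) (K a149 (M a768 (F (T t31 (L l347 (T t29 (L l959 (L l3079 (T t32 N)))))))) (K a213 (M a768 (F (T t31 (L l959 (L l3079 (L l3203 (T t32 (L l982 (T t33 N))))))))) (K a106 (M a768 (F (T t86 (T t29 (L l959 (L l3079 (T t32 N))))))) (K a170 (M a768 (F (T t31 (T t29 (L l220 (L l2431 (T t30 N))))))) (K a234 (M a768 (F (T t31 (L l959 (L l3079 (T t32 (L l390 (L l982 (L l3246 (T t33 N)))))))))) (K a63 (M a768 (F (T t37 (L l3159 (T t35 (L l2209 (T t29 N))))))) N)))))))))))))))⟩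
def e0_255__266_18 : Ent 5 := ⟨[a0, a255], [a266, a433], (M a192 (F (T t19 (T t23 (T t22 (T t24 (K a64 (M a240 (F (T t79 (L l144 (L l2094 (L l2115 (T t80 (T t81 N)))))))) (K a128 (M a240 (F (T t79 (L l2094 (L l2115 (T t80 (L l192 (L l220 (T t81 N))))))))) (K a85 (M a768 (F (T t86 (L l347 (L l2339 (T t29 (L l347 (L l2339 (T t30 N))))))))) (K a149 (M a768 (F (T t31 (L l347 (T t29 (T t32 N)))))) (K a213 (M a768 (F (T t31 (L l3203 (T t32 (L l982 (T t33 N))))))) (K a106 (M a768 (F (T t86 (T t29 (T t32 N))))) (K a170 (M a768 (F (T t31 (T t29 (L l220 (T t30 N)))))) (K a234 (M a768 (F (T t31 (T t32 (L l390 (L l982 (L l3246 (T t33 N)))))))) (K a63 (M a768 (F (T t37 (L l3159 (T t35 (L l2209 (T t29 N))))))) N)))))))))))))))⟩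
def e0_255__266_19 : Ent 5 := ⟨[a0, a255], [a266, a443], (M a192 (F (T t19 (T t23 (L l2653 (T t22 (T t24 (K a64 (M a240 (F (T t79 (L l144 (L l2094 (L l2115 (T t80 (T t81 N)))))))) (K a128 (M a240 (F (T t79 (L l2094 (L l2115 (T t80 (L l192 (L l220 (T t81 N))))))))) (K a85 (M a768 (F (T t86 (L l347 (L l2339 (T t29 (L l347 (L l2339 (T t30 N))))))))) (K a149 (M a768 (F (T t31 (L l347 (T t29 (L l959 (T t32 N))))))) (K a213 (M a768 (F (T t31 (L l959 (L l3203 (T t32 (L l728 (L l982 (T t33 N))))))))) (K a106 (M a768 (F (T t86 (T t29 (L l959 (T t32 N)))))) (K a170 (M a768 (F (T t31 (T t29 (L l220 (T t30 N)))))) (K a234 (M a768 (F (T t31 (L l959 (T t32 (L l390 (L l728 (L l982 (L l3246 (T t33 N)))))))))) (K a63 (M a768 (F (T t37 (L l3159 (T t35 (L l2209 (T t29 N))))))) N))))))))))))))))⟩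
def e0_255__266_20 : Ent 5 := ⟨[a0, a255], [a266, a529], (M a192 (F (T t19 (T t23 (T t22 (T t24 (K a64 (M a240 (F (T t79 (L l144 (L l2094 (L l2115 (T t80 (T t81 N)))))))) (K a128 (M a240 (F (T t79 (L l2094 (L l2115 (T t80 (L l192 (L l220 (T t81 N))))))))) (K a85 (M a768 (F (T t86 (L l347 (L l1405 (L l2339 (T t29 (L l347 (L l1405 (L l2339 (T t30 N))))))))))) (K a149 (M a768 (F (T t31 (L l347 (L l1405 (T t29 (L l1084 (L l1405 (T t32 N))))))))) (K a213 (M a768 (F (T t31 (L l1084 (L l1405 (L l3203 (T t32 (L l982 (T t33 N))))))))) (K a106 (M a768 (F (T t86 (L l1405 (T t29 (L l1084 (L l1405 (T t32 N)))))))) (K a170 (M a768 (F (T t31 (L l1405 (T t29 (L l220 (L l1405 (T t30 N)))))))) (K a234 (M a768 (F (T t31 (L l1084 (L l1405 (T t32 (L l390 (L l982 (L l3246 (T t33 N)))))))))) (K a63 (M a768 (F (L l3159 (T t31 (L l1405 (L l2209 (T t29 (L l1084 (L l1405 (L l3073 (T t32 N))))))))))) N)))))))))))))))⟩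
def e0_255__266_21 : Ent 5 := ⟨[a0, a255], [a266, a539], (M a192 (F (T t19 (T t23 (T t22 (T t24 (K a64 (M a240 (F (T t79 (L l144 (L l2094 (L l2115 (T t80 (T t81 N)))))))) (K a128 (M a240 (F (T t79 (L l2094 (L l2115 (T t80 (L l192 (L l220 (T t81 N))))))))) (K a85 (M a768 (F (T t86 (L l347 (L l2339 (T t29 (L l347 (L l2339 (T t30 N))))))))) (K a149 (M a768 (F (T t31 (L l347 (T t29 (T t32 N)))))) (K a213 (M a768 (F (T t31 (L l3203 (T t32 (L l982 (T t33 N))))))) (K a106 (M a768 (F (T t86 (T t29 (T t32 N))))) (K a170 (M a768 (F (T t31 (T t29 (L l220 (T t30 N)))))) (K a234 (M a768 (F (T t31 (T t32 (L l390 (L l982 (L l3246 (T t33 N)))))))) (K a63 (M a768 (F (T t37 (L l3159 (T t35 (L l2209 (T t29 N))))))) N)))))))))))))))⟩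
def e0_255__266_22 : Ent 5 := ⟨[a0, a255], [a266, a546], (M a192 (F (T t19 (T t23 (T t22 (T t24 (K a64 (M a240 (F (T t79 (L l144 (L l2094 (L l2115 (T t80 (T t81 N)))))))) (K a128 (M a240 (F (T t79 (L l2094 (L l2115 (T t80 (L l192 (L l220 (T t81 N))))))))) (K a85 (M a768 (F (T t86 (L l347 (L l2339 (T t29 (L l347 (L l2339 (T t30 N))))))))) (K a149 (M a768 (F (T t31 (L l347 (T t29 (L l1084 (T t32 N))))))) (K a213 (M a768 (F (T t31 (L l1084 (L l3203 (T t32 (L l982 (T t33 N)))))))) (K a106 (M a768 (F (T t86 (T t29 (L l1084 (T t32 N)))))) (K a170 (M a768 (F (T t31 (T t29 (L l220 (T t30 N)))))) (K a234 (M a768 (F (T t31 (L l1084 (T t32 (L l390 (L l982 (L l3246 (T t33 N))))))))) (K a63 (M a768 (F (T t42 (L l1084 (L l3159 (T t35 (L l1084 (L l3073 (T t32 N))))))))) N)))))))))))))))⟩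
def e0_255__266_23 : Ent 5 := ⟨[a0, a255], [a266, a551], (M a192 (F (T t19 (T t23 (T t22 (T t24 (K a64 (M a240 (F (T t79 (L l144 (L l2094 (L l2115 (L l2257 (T t80 (T t81 N))))))))) (K a128 (M a240 (F (T t79 (L l2094 (L l2115 (L l2257 (T t80 (L l192 (L l220 (T t81 N)))))))))) (K a85 (M a768 (F (T t86 (L l347 (L l2339 (T t29 (L l347 (L l2339 (T t30 N))))))))) (K a149 (M a768 (F (T t31 (L l347 (T t29 (T t32 N)))))) (K a213 (M a768 (F (T t31 (L l3203 (T t32 (L l982 (T t33 N))))))) (K a106 (M a768 (F (T t86 (T t29 (T t32 N))))) (K a170 (M a768 (F (T t31 (T t29 (L l220 (T t30 N)))))) (K a234 (M a768 (F (T t31 (T t32 (L l390 (L l982 (L l3246 (T t33 N)))))))) (K a63 (M a768 (F (T t37 (L l3159 (T t35 (L l2209 (T t29 N))))))) N)))))))))))))))⟩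
def e0_255__266_24 : Ent 5 := ⟨[a0, a255], [a266, a563], (M a192 (F (T t19 (T t23 (T t22 (T t24 (K a64 (M a240 (F (T t79 (L l144 (L l2094 (L l2115 (T t80 (T t81 N)))))))) (K a128 (M a240 (F (T t79 (L l2094 (L l2115 (T t80 (L l192 (L l220 (T t81 N))))))))) (K a85 (M a768 (F (T t86 (L l347 (L l2339 (T t29 (L l347 (L l2339 (T t30 N))))))))) (K a149 (M a768 (F (T t31 (L l347 (T t29 (L l1084 (T t32 N))))))) (K a213 (M a768 (F (T t31 (L l1084 (L l3203 (T t32 (L l982 (T t33 N)))))))) (K a106 (M a768 (F (T t86 (T t29 (L l1084 (T t32 N)))))) (K a170 (M a768 (F (T t31 (T t29 (L l220 (T t30 N)))))) (K a234 (M a768 (F (T t31 (L l1084 (T t32 (L l390 (L l982 (L l3246 (T t33 N))))))))) (K a63 (M a768 (F (T t42 (L l1084 (L l3159 (T t35 (L l1084 (L l3073 (T t32 N))))))))) N)))))))))))))))⟩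
def e0_255__266_25 : Ent 5 := ⟨[a0, a255], [a266, a614], (M a192 (F (T t19 (T t23 (T t22 (T t24 (K a64 (M a240 (F (T t79 (L l144 (L l2094 (L l2115 (T t80 (T t81 N)))))))) (K a128 (M a240 (F (T t79 (L l2094 (L l2115 (T t80 (L l192 (L l220 (T t81 N))))))))) (K a85 (M a768 (F (T t86 (L l347 (L l1166 (L l2339 (T t29 (L l347 (L l1166 (L l2339 (T t30 N))))))))))) (K a149 (M a768 (F (T t31 (L l347 (L l1166 (T t29 (L l1166 (T t32 N)))))))) (K a213 (M a768 (F (T t31 (L l1166 (L l3203 (T t32 (L l982 (L l3264 (T t33 N))))))))) (K a106 (M a768 (F (T t86 (L l1166 (T t29 (L l1166 (T t32 N))))))) (K a170 (M a768 (F (T t31 (L l1166 (T t29 (L l220 (L l1166 (T t30 N)))))))) (K a234 (M a768 (F (T t31 (L l1166 (T t32 (L l390 (L l982 (L l3246 (L l3264 (T t33 N)))))))))) (K a63 (M a768 (F (T t69 (L l1166 (L l2209 (T t29 (L l1166 (L l3073 (T t32 N))))))))) N)))))))))))))))⟩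
def e0_255__266_26 : Ent 5 := ⟨[a0, a255], [a266, a626], (M a192 (F (T t19 (T t23 (T t22 (T t24 (K a64 (M a240 (F (T t79 (L l144 (L l2094 (L l2115 (T t80 (T t81 N)))))))) (K a128 (M a240 (F (T t79 (L l2094 (L l2115 (T t80 (L l192 (L l220 (T t81 N))))))))) (K a85 (M a768 (F (T t86 (L l347 (L l2339 (T t29 (L l347 (L l2339 (T t30 N))))))))) (K a149 (M a768 (F (T t31 (L l347 (T t29 (T t32 N)))))) (K a213 (M a768 (F (T t31 (L l3203 (T t32 (L l982 (T t33 N))))))) (K a106 (M a768 (F (T t86 (T t29 (T t32 N))))) (K a170 (M a768 (F (T t31 (T t29 (L l220 (T t30 N)))))) (K a234 (M a768 (F (T t31 (T t32 (L l390 (L l982 (L l3246 (T t33 N)))))))) (K a63 (M a768 (F (T t37 (L l3159 (T t35 (L l2209 (T t29 N))))))) N)))))))))))))))⟩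
def e0_255__266_27 : Ent 5 := ⟨[a0, a255], [a266, a631], (M a192 (F (T t19 (T t23 (T t22 (L l2437 (T t24 (K a64 (M a240 (F (T t79 (L l144 (L l2094 (L l2115 (T t80 (T t81 N)))))))) (K a128 (M a240 (F (T t79 (L l2094 (L l2115 (T t80 (L l192 (L l220 (T t81 N))))))))) (K a85 (M a768 (F (T t86 (L l347 (L l1166 (L l2339 (T t29 (L l347 (L l1166 (L l2339 (T t30 N))))))))))) (K a149 (M a768 (F (T t31 (L l347 (L l1166 (T t29 (L l1166 (T t32 N)))))))) (K a213 (M a768 (F (T t31 (L l1166 (L l3203 (T t32 (L l982 (L l1153 (T t33 N))))))))) (K a106 (M a768 (F (T t35 (L l1166 (T t29 (L l1166 (T t32 N))))))) (K a170 (M a768 (F (T t31 (L l1166 (T t29 (L l220 (L l1166 (T t30 N)))))))) (K a234 (M a768 (F (T t31 (L l1166 (T t32 (L l390 (L l982 (L l1153 (L l3246 (T t33 N)))))))))) (K a63 (M a768 (F (T t69 (L l1166 (L l2209 (T t29 (L l1166 (L l3073 (T t32 N))))))))) N))))))))))))))))⟩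
def e0_255__266_28 : Ent 5 := ⟨[a0, a255], [a266, a689], (M a192 (F (T t19 (T t23 (T t22 (T t24 (K a64 (M a240 (F (T t79 (L l144 (L l2094 (L l2115 (T t80 (T t81 N)))))))) (K a128 (M a240 (F (T t79 (L l2094 (L l2115 (T t80 (L l192 (L l220 (T t81 N))))))))) (K a85 (M a768 (F (T t86 (L l347 (L l2339 (T t29 (L l347 (L l2339 (T t30 N))))))))) (K a149 (M a768 (F (T t31 (L l347 (T t29 (T t32 N)))))) (K a213 (M a768 (F (T t31 (L l3203 (T t32 (L l982 (T t33 N))))))) (K a106 (M a768 (F (T t86 (T t29 (T t32 N))))) (K a170 (M a768 (F (T t31 (T t29 (L l220 (T t30 N)))))) (K a234 (M a768 (F (T t31 (T t32 (L l390 (L l982 (L l3246 (T t33 N)))))))) (K a63 (M a768 (F (T t37 (L l3159 (T t35 (L l2209 (T t29 N))))))) N)))))))))))))))⟩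
def e0_255__266_29 : Ent 5 := ⟨[a0, a255], [a266, a699], (M a192 (F (T t19 (T t23 (T t22 (T t24 (K a64 (M a240 (F (T t79 (L l144 (L l2094 (L l2115 (T t80 (T t81 N)))))))) (K a128 (M a240 (F (T t79 (L l2094 (L l2115 (T t80 (L l192 (L l220 (T t81 N))))))))) (K a85 (M a768 (F (T t86 (L l347 (L l2339 (T t29 (L l347 (L l2339 (T t30 N))))))))) (K a149 (M a768 (F (T t31 (L l347 (T t29 (L l3079 (T t32 N))))))) (K a213 (M a768 (F (T t31 (L l3079 (L l3203 (T t32 (L l982 (T t33 N)))))))) (K a106 (M a768 (F (T t86 (T t29 (L l3079 (T t32 N)))))) (K a170 (M a768 (F (T t31 (T t29 (L l220 (T t30 N)))))) (K a234 (M a768 (F (T t31 (L l3079 (T t32 (L l390 (L l982 (L l3246 (T t33 N))))))))) (K a63 (M a768 (F (T t37 (L l3159 (T t35 (L l2209 (T t29 N))))))) N)))))))))))))))⟩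
def e0_255__266_30 : Ent 5 := ⟨[a0, a255], [a266, a785], (M a192 (F (T t19 (T t23 (T t22 (T t24 (K a64 (M a240 (F (T t79 (L l144 (L l2094 (L l2115 (T t80 (T t81 N)))))))) (K a128 (M a240 (F (T t79 (L l2094 (L l2115 (T t80 (L l192 (L l220 (T t81 N))))))))) (K a85 (M a768 (F (T t86 (L l347 (L l2339 (L l3227 (T t29 (L l347 (L l2339 (L l3227 (T t30 N))))))))))) (K a149 (M a768 (F (T t31 (L l347 (L l3227 (T t29 (L l3227 (T t32 N)))))))) (K a213 (M a768 (F (T t31 (L l3203 (L l3227 (T t32 (L l982 (L l1925 (T t33 N))))))))) (K a106 (M a768 (F (T t86 (L l3227 (T t29 (L l3227 (T t32 N))))))) (K a170 (M a768 (F (T t31 (L l3227 (T t29 (L l220 (L l3227 (T t30 N)))))))) (K a234 (M a768 (F (T t31 (L l3227 (T t32 (L l390 (L l982 (L l1925 (L l3246 (T t33 N)))))))))) (K a63 (M a768 (F (T t69 (L l2209 (L l3227 (T t29 (L l3073 (L l3227 (T t32 N))))))))) N)))))))))))))))⟩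
def e0_255__266_31 : Ent 5 := ⟨[a0, a255], [a266, a795], (M a192 (F (T t19 (T t23 (T t22 (T t24 (K a64 (M a240 (F (T t79 (L l144 (L l2094 (L l2115 (T t80 (T t81 N)))))))) (K a128 (M a240 (F (T t79 (L l2094 (L l2115 (T t80 (L l192 (L l220 (T t81 N))))))))) (K a85 (M a768 (F (T t86 (L l347 (L l2339 (T t29 (L l347 (L l2339 (T t30 N))))))))) (K a149 (M a768 (F (T t31 (L l347 (T t29 (T t32 N)))))) (K a213 (M a768 (F (T t31 (L l3203 (T t32 (L l982 (T t33 N))))))) (K a106 (M a768 (F (T t86 (T t29 (T t32 N))))) (K a170 (M a768 (F (T t31 (T t29 (L l220 (T t30 N)))))) (K a234 (M a768 (F (T t31 (T t32 (L l390 (L l982 (L l3246 (T t33 N)))))))) (K a63 (M a768 (F (T t37 (L l3159 (T t35 (L l2209 (T t29 N))))))) N)))))))))))))))⟩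
def e0_255__266_32 : Ent 5 := ⟨[a0, a255], [a266, a802], (M a192 (F (T t19 (T t23 (T t22 (T t24 (K a64 (M a240 (F (T t79 (L l144 (L l2094 (L l2115 (T t80 (T t81 N)))))))) (K a128 (M a240 (F (T t79 (L l2094 (L l2115 (T t80 (L l192 (L l220 (T t81 N))))))))) (K a85 (M a768 (F (T t86 (L l347 (L l1586 (L l2339 (T t29 (L l347 (L l1586 (L l2339 (T t30 N))))))))))) (K a149 (M a768 (F (T t31 (L l347 (L l1586 (T t29 (T t32 N))))))) (K a213 (M a768 (F (T t31 (L l3203 (T t32 (L l982 (L l3264 (T t33 N)))))))) (K a106 (M a768 (F (T t86 (L l1586 (T t29 (T t32 N)))))) (K a170 (M a768 (F (T t31 (L l1586 (T t29 (L l220 (L l1586 (T t30 N)))))))) (K a234 (M a768 (F (T t31 (T t32 (L l390 (L l982 (L l3246 (L l3264 (T t33 N))))))))) (K a63 (M a768 (F (T t38 (L l3159 (T t35 (L l1586 (L l2209 (T t29 N)))))))) N)))))))))))))))⟩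
def e0_255__266_33 : Ent 5 := ⟨[a0, a255], [a266, a807], (M a192 (F (T t19 (T t23 (T t22 (T t24 (K a64 (M a240 (F (T t79 (L l144 (L l2094 (L l2115 (T t80 (T t81 N)))))))) (K a128 (M a240 (F (T t79 (L l2094 (L l2115 (T t80 (L l192 (L l220 (T t81 N))))))))) (K a85 (M a768 (F (T t86 (L l347 (L l2339 (T t29 (L l347 (L l2339 (T t30 N))))))))) (K a149 (M a768 (F (T t31 (L l347 (T t29 (T t32 N)))))) (K a213 (M a768 (F (T t31 (L l3203 (T t32 (L l982 (T t33 N))))))) (K a106 (M a768 (F (T t86 (T t29 (T t32 N))))) (K a170 (M a768 (F (T t31 (T t29 (L l220 (T t30 N)))))) (K a234 (M a768 (F (T t31 (T t32 (L l390 (L l982 (L l3246 (T t33 N)))))))) (K a63 (M a768 (F (T t37 (L l3159 (T t35 (L l2209 (T t29 N))))))) N)))))))))))))))⟩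
def e0_255__266_34 : Ent 5 := ⟨[a0, a255], [a266, a819], (M a60 (F (T t419 (L l3307 (T t420 (L l3307 (T t421 (L l3307 (T t422 (L l3307 (T t423 (K a20 (M a48 (F (T t424 (L l3271 (T t425 (L l350 (T t426 N))))))) (K a40 (M a48 (F (T t427 (L l3271 (T t425 (L l52 (T t426 N))))))) (K a85 (M a768 (F (L l1599 (T t428 (L l141 (L l2047 (L l2339 (T t429 (L l141 (L l2339 (T t430 N))))))))))) (K a105 (M a768 (F (T t431 (L l141 (L l2047 (T t429 (L l1999 (T t32 N)))))))) (K a125 (M a768 (F (T t431 (L l1999 (L l2507 (T t32 (L l141 (L l2507 (T t432 N))))))))) (K a150 (M a768 (F (T t433 (L l350 (L l1599 (T t434 (L l1999 (T t32 N)))))))) (K a170 (M a768 (F (T t433 (L l1599 (T t434 (L l392 (T t430 N))))))) (K a190 (M a768 (F (T t38 (L l1599 (T t434 (T t432 N)))))) (K a195 (M a341 (L l3307 (F (T t435 (T t436 (K a403 (M a611 (F (T t437 (L l1604 (L l2115 (L l3165 (T t438 (T t439 N)))))))) (K a611 (M a403 (F (T t437 (L l1604 (L l2115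 (L l3165 (T t438 (T t439 N)))))))) N))))))) N))))))))))))))))))))⟩
def e0_255__266_35 : Ent 5 := ⟨[a0, a255], [a266, a870], (M a192 (F (T t19 (T t23 (T t22 (T t24 (K a64 (M a240 (F (T t79 (L l144 (L l2094 (L l2115 (T t80 (T t81 N)))))))) (K a128 (M a240 (F (T t79 (L l2094 (L l2115 (T t80 (L l192 (L l220 (T t81 N))))))))) (K a85 (M a768 (F (T t86 (L l347 (L l2339 (T t29 (L l347 (L l2339 (T t30 N))))))))) (K a149 (M a768 (F (T t31 (L l347 (T t29 (T t32 N)))))) (K a213 (M a768 (F (T t31 (L l3203 (T t32 (L l982 (L l1686 (T t33 N)))))))) (K a106 (M a768 (F (T t86 (T t29 (T t32 N))))) (K a170 (M a768 (F (T t31 (T t29 (L l220 (T t30 N)))))) (K a234 (M a768 (F (T t31 (T t32 (L l390 (L l982 (L l1686 (L l3246 (T t33 N))))))))) (K a63 (M a768 (F (T t38 (L l3159 (T t35 (L l2209 (T t29 N))))))) N)))))))))))))))⟩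
def e0_255__266_36 : Ent 5 := ⟨[a0, a255], [a266, a882], (M a192 (F (T t19 (T t23 (T t22 (T t24 (K a64 (M a240 (F (T t79 (L l144 (L l2094 (L l2115 (T t80 (T t81 N)))))))) (K a128 (M a240 (F (T t79 (L l2094 (L l2115 (T t80 (L l192 (L l220 (T t81 N))))))))) (K a85 (M a768 (F (T t86 (L l347 (L l2339 (T t29 (L l347 (L l2339 (T t30 N))))))))) (K a149 (M a768 (F (T t31 (L l347 (T t29 (T t32 N)))))) (K a213 (M a768 (F (T t31 (L l3203 (T t32 (L l982 (T t33 N))))))) (K a106 (M a768 (F (T t86 (T t29 (T t32 N))))) (K a170 (M a768 (F (T t31 (T t29 (L l220 (T t30 N)))))) (K a234 (M a768 (F (T t31 (T t32 (L l390 (L l982 (L l3246 (T t33 N)))))))) (K a63 (M a768 (F (T t37 (L l3159 (T t35 (L l2209 (T t29 N))))))) N)))))))))))))))⟩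
def e0_255__266_37 : Ent 5 := ⟨[a0, a255], [a266, a887], (M a192 (F (T t19 (T t23 (T t22 (T t24 (K a64 (M a240 (F (T t79 (L l144 (L l2094 (L l2115 (T t80 (T t81 N)))))))) (K a128 (M a240 (F (T t79 (L l2094 (L l2115 (T t80 (L l192 (L l220 (T t81 N))))))))) (K a85 (M a768 (F (T t86 (L l347 (L l2339 (T t29 (L l347 (L l1673 (L l2339 (T t30 N)))))))))) (K a149 (M a768 (F (T t31 (L l347 (T t29 (L l1999 (T t32 N))))))) (K a213 (M a768 (F (T t31 (L l1999 (L l3203 (T t32 (L l982 (L l1686 (T t33 N))))))))) (K a106 (M a768 (F (T t86 (T t29 (L l1999 (T t32 N)))))) (K a170 (M a768 (F (T t31 (T t29 (L l220 (L l1673 (T t30 N))))))) (K a234 (M a768 (F (T t31 (L l1999 (T t32 (L l390 (L l982 (L l1686 (L l3246 (T t33 N)))))))))) (K a63 (M a768 (F (T t37 (L l3159 (T t35 (L l2209 (T t29 N))))))) N)))))))))))))))⟩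
def e0_255__266_38 : Ent 5 := ⟨[a0, a255], [a266, a945], (M a192 (F (T t19 (T t23 (T t22 (T t24 (K a64 (M a240 (F (T t79 (L l144 (L l2094 (L l2115 (T t80 (T t81 N)))))))) (K a128 (M a240 (F (T t79 (L l2094 (L l2115 (T t80 (L l192 (L l220 (T t81 N))))))))) (K a85 (M a768 (F (T t86 (L l347 (L l2339 (T t29 (L l347 (L l2339 (T t30 N))))))))) (K a149 (M a768 (F (T t31 (L l347 (T t29 (T t32 N)))))) (K a213 (M a768 (F (T t31 (L l3203 (T t32 (L l982 (T t33 N))))))) (K a106 (M a768 (F (T t86 (T t29 (T t32 N))))) (K a170 (M a768 (F (T t31 (T t29 (L l220 (T t30 N)))))) (K a234 (M a768 (F (T t31 (T t32 (L l390 (L l982 (L l3246 (T t33 N)))))))) (K a63 (M a768 (F (T t37 (L l3159 (T t35 (L l2209 (T t29 N))))))) N)))))))))))))))⟩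
def e0_255__266_39 : Ent 5 := ⟨[a0, a255], [a266, a955], (M a192 (F (T t19 (T t23 (T t22 (T t24 (K a64 (M a240 (F (T t79 (L l144 (L l2094 (L l2115 (T t80 (T t81 N)))))))) (K a128 (M a240 (F (T t79 (L l2094 (L l2115 (T t80 (L l192 (L l220 (T t81 N))))))))) (K a85 (M a768 (F (T t86 (L l347 (L l2339 (T t29 (L l347 (L l2339 (T t30 N))))))))) (K a149 (M a768 (F (T t31 (L l347 (T t29 (L l1999 (T t32 N))))))) (K a213 (M a768 (F (T t31 (L l1999 (L l3203 (T t32 (L l982 (T t33 N)))))))) (K a106 (M a768 (F (T t35 (T t29 (L l1999 (T t32 N)))))) (K a170 (M a768 (F (T t31 (T t29 (L l220 (T t30 N)))))) (K a234 (M a768 (F (T t31 (L l1999 (T t32 (L l390 (L l982 (L l3246 (T t33 N))))))))) (K a63 (M a768 (F (T t38 (L l3159 (T t35 (L l2209 (T t29 N))))))) N)))))))))))))))⟩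
def b0_255__266 : Blk 5 := ⟨[0, 255], [266], [17, 27, 34, 39, 51, 102, 114, 119, 177, 187, 273, 283, 290, 295, 307, 358, 370, 375, 433, 443, 529, 539, 546, 551, 563, 614, 626, 631, 689, 699, 785, 795, 802, 807, 819, 870, 882, 887, 945, 955], [e0_255__266_0, e0_255__266_1, e0_255__266_2, e0_255__266_3, e0_255__266_4, e0_255__266_5, e0_255__266_6, e0_255__266_7, e0_255__266_8, e0_255__266_9, e0_255__266_10, e0_255__266_11, e0_255__266_12, e0_255__266_13, e0_255__266_14, e0_255__266_15, e0_255__266_16, e0_255__266_17, e0_255__266_18, e0_255__266_19, e0_255__266_20, e0_255__266_21, e0_255__266_22, e0_255__266_23, e0_255__266_24, e0_255__266_25, e0_255__266_26, e0_255__266_27, e0_255__266_28, e0_255__266_29, e0_255__266_30, e0_255__266_31, e0_255__266_32, e0_255__266_33, e0_255__266_34, e0_255__266_35, e0_255__266_36, e0_255__266_37, e0_255__266_38, e0_255__266_39], by decide +kernel, by decide +kernel⟩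
def e0_255__271_0 : Ent 5 := ⟨[a0, a255], [a271, a17], (M a192 (F (T t24 (L l365 (T t19 (L l15 (T t23 (L l365 (T t22 (K a64 (M a240 (F (T t79 (L l144 (L l365 (L l2101 (T t80 (L l15 (T t81 N))))))))) (K a128 (M a240 (F (T t79 (L l365 (L l2101 (T t80 (L l15 (L l192 (L l220 (T t81 N)))))))))) (K a85 (M a768 (L l365 (F (T t86 (L l347 (L l2339 (T t29 (L l347 (L l2339 (T t30 (K a153 (M a221 (F (T t86 (L l2117 (T t403 N))))) (K a221 (M a153 (F (T t86 (L l243 (L l347 (L l2339 (L l3227 (T t29 (L l144 (L l528 (T t36 N))))))))))) N)))))))))))) (K a149 (M a768 (F (T t31 (L l347 (T t29 (L l989 (T t32 N))))))) (K a213 (M a768 (F (T t31 (L l989 (L l3203 (T t32 (T t33 N))))))) (K a106 (M a768 (F (T t86 (T t29 (L l989 (T t32 N)))))) (K a170 (M a768 (F (T t31 (T t29 (L l220 (T t30 N)))))) (K a234 (M a768 (F (T t31 (L l989 (T t32 (L l390 (L l3246 (T t33 N)))))))) (K a63 (M a768 (F (T t42 (L l859 (L l3159 (T t35 (L l989 (L l3073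 (T t32 N))))))))) N))))))))))))))))))⟩
def e0_255__271_1 : Ent 5 := ⟨[a0, a255], [a271, a27], (M a192 (F (T t19 (T t23 (T t22 (T t24 (K a64 (M a240 (F (T t79 (L l73 (L l144 (L l2101 (T t80 (T t81 N)))))))) (K a128 (M a240 (F (T t79 (L l73 (L l2101 (T t80 (L l192 (L l220 (T t81 N))))))))) (K a85 (M a768 (F (T t86 (L l347 (L l2339 (T t29 (L l347 (L l2339 (T t30 N))))))))) (K a149 (M a768 (F (T t31 (L l347 (T t29 (L l989 (T t32 N))))))) (K a213 (M a768 (F (T t31 (L l989 (L l3203 (T t32 (T t33 N))))))) (K a106 (M a768 (F (T t86 (T t29 (L l989 (T t32 N)))))) (K a170 (M a768 (F (T t31 (T t29 (L l220 (T t30 N)))))) (K a234 (M a768 (F (T t31 (L l989 (T t32 (L l390 (L l3246 (T t33 N)))))))) (K a63 (M a768 (F (T t85 (L l859 (L l3159 (T t35 (L l989 (L l3073 (T t32 N))))))))) N)))))))))))))))⟩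
def e0_255__271_2 : Ent 5 := ⟨[a0, a255], [a271, a34], (M a192 (F (T t22 (L l26 (T t19 (L l402 (T t23 (L l402 (T t24 (K a64 (M a240 (F (T t79 (L l144 (L l2101 (T t80 (L l402 (T t81 N)))))))) (K a128 (M a240 (F (T t79 (L l2101 (T t80 (L l192 (L l220 (L l402 (T t81 N))))))))) (K a85 (M a768 (F (T t86 (L l347 (L l2339 (T t29 (L l347 (L l2339 (T t30 N))))))))) (K a149 (M a768 (F (T t31 (L l347 (T t29 (L l989 (T t32 N))))))) (K a213 (M a768 (F (T t31 (L l989 (L l3203 (T t32 (L l402 (T t33 N)))))))) (K a106 (M a768 (F (T t86 (T t29 (L l989 (T t32 N)))))) (K a170 (M a768 (L l402 (F (T t31 (T t29 (L l220 (T t30 (K a102 (M a238 (F (T t31 (L l2154 (T t82 N))))) (K a238 (M a102 (F (T t29 (T t31 (L l528 (L l2598 (L l3264 (T t36 N)))))))) N))))))))) (K a234 (M a768 (F (T t31 (L l989 (T t32 (L l390 (L l402 (L l3246 (T t33 N))))))))) (K a63 (M a768 (F (T t37 (L l859 (L l3159 (T t35 (L l2209 (T t29 N)))))))) N))))))))))))))))))⟩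
def e0_255__271_3 : Ent 5 := ⟨[a0, a255], [a271, a39], (M a192 (F (T t19 (T t23 (T t22 (T t24 (K a64 (M a240 (F (T t79 (L l73 (L l144 (L l2101 (T t80 (T t81 N)))))))) (K a128 (M a240 (F (T t79 (L l73 (L l2101 (T t80 (L l192 (L l220 (T t81 N))))))))) (K a85 (M a768 (F (T t86 (L l347 (L l2339 (T t29 (L l347 (L l2339 (T t30 N))))))))) (K a149 (M a768 (F (T t31 (L l347 (T t29 (L l989 (T t32 N))))))) (K a213 (M a768 (F (T t31 (L l989 (L l3203 (T t32 (T t33 N))))))) (K a106 (M a768 (F (T t86 (T t29 (L l989 (T t32 N)))))) (K a170 (M a768 (F (T t31 (T t29 (L l220 (T t30 N)))))) (K a234 (M a768 (F (T t31 (L l989 (T t32 (L l390 (L l3246 (T t33 N)))))))) (K a63 (M a768 (F (T t85 (L l859 (L l3159 (T t35 (L l989 (L l3073 (T t32 N))))))))) N)))))))))))))))⟩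
def e0_255__271_4 : Ent 5 := ⟨[a0, a255], [a271, a51], (M a192 (F (T t46 (L l37 (T t19 (L l37 (T t23 (L l37 (T t22 (L l37 (T t24 (K a64 (M a240 (F (T t84 (L l73 (L l144 (L l2101 (T t80 (T t81 N)))))))) (K a128 (M a240 (F (T t84 (L l73 (L l2101 (T t80 (L l192 (L l220 (T t81 N))))))))) (K a85 (M a768 (F (T t85 (L l859 (L l3129 (T t35 (L l347 (L l2339 (T t30 N))))))))) (K a149 (M a768 (F (T t85 (L l859 (L l3129 (T t35 (L l989 (L l3079 (T t32 N))))))))) (K a213 (M a768 (F (T t69 (L l989 (L l3079 (L l3203 (T t32 (T t33 N)))))))) (K a106 (M a768 (F (T t42 (L l859 (L l3129 (T t35 (L l989 (L l3079 (T t32 N))))))))) (K a170 (M a768 (F (T t42 (L l859 (L l3129 (T t35 (L l220 (T t30 N)))))))) (K a234 (M a768 (F (T t37 (L l859 (L l3129 (T t35 (L l390 (L l3246 (T t33 N))))))))) (K a63 (M a768 (L l37 (F (T t37 (L l859 (L l3129 (L l3159 (T t35 (L l2209 (L l2215 (T t29 (K a55 (M a59 (F (T t37 (L l2209 (L l2215 (T t48 (L l3129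 (L l3159 (T t86 N))))))))) (K a59 (M a55 (F (T t37 (L l2209 (L l2215 (T t48 (L l3129 (L l3159 (T t86 N))))))))) N))))))))))))) N))))))))))))))))))))⟩
def e0_255__271_5 : Ent 5 := ⟨[a0, a255], [a271, a102], (M a341 (F (L l402 (T t448 (L l126 (L l989 (T t1 (L l402 (L l528 (T t0 (L l528 (T t3 (K a256 (M a64 (L l528 (F (T t130 (L l402 (T t15 (L l402 (L l824 (T t8 (K a261 (M a266 (F (T t449 (L l402 (T t15 (L l402 (L l824 (T t8 N)))))))) (K a266 (M a261 (F (T t449 (L l402 (L l968 (L l2094 (T t450 N))))))) N))))))))))) (K a768 (M a64 (F (T t7 (L l402 (L l2295 (T t15 (L l402 (L l2036 (T t8 N))))))))) (K a85 (M a48 (L l126 (F (T t87 (L l989 (T t88 (L l123 (L l989 (T t89 (K a68 (M a119 (F (T t418 (L l122 (T t91 N))))) (K a119 (M a68 (F (T t87 (L l365 (L l989 (L l2413 (T t131 N))))))) N))))))))))) (K a597 (M a64 (F (T t92 (L l402 (L l2511 (T t15 (L l102 (L l402 (L l1184 (T t16 N)))))))))) (K a853 (Fr a682 a1023 l3116 (Fr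 a170 a85 l476 (Fr a426 a938 l2598 (Fr a768 a597 l3375 (V t402))))) (K a170 (M a192 (L l402 (F (T t18 (L l989 (L l2598 (T t10 (L l220 (L l989 (T t11 (K a34 (M a238 (F (T t107 (L l378 (T t132 N))))) (K a238 (M a34 (F (L l2820 (T t133 (L l220 (L l989 (T t11 N))))))) N)))))))))))) (K a426 (M a192 (F (T t9 (L l126 (T t19 (L l989 (L l2598 (T t10 N)))))))) (K a682 (M a64 (F (L l2684 (T t21 (L l402 (L l2598 (T t8 (L l402 (L l2598 (L l2684 (T t15 (L l989 (L l2684 (T t20 N)))))))))))))) (K a1023 (M a64 (F (L l402 (T t73 (L l989 (L l1993 (T t20 (L l402 (L l1993 (L l2036 (T t8 N))))))))))) N)))))))))))))))))))))⟩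
def e0_255__271_6 : Ent 5 := ⟨[a0, a255], [a271, a114], (M a192 (F (T t19 (T t23 (T t22 (T t24 (K a64 (M a240 (F (T t79 (L l144 (L l2101 (T t80 (T t81 N))))))) (K a128 (M a240 (F (T t79 (L l2101 (T t80 (L l192 (L l220 (T t81 N)))))))) (K a85 (M a768 (F (T t86 (L l347 (L l2339 (T t29 (L l347 (L l2339 (T t30 N))))))))) (K a149 (M a768 (F (T t31 (L l347 (T t29 (L l989 (T t32 N))))))) (K a213 (M a768 (F (T t31 (L l989 (L l3203 (T t32 (T t33 N))))))) (K a106 (M a768 (F (T t86 (T t29 (L l989 (T t32 N)))))) (K a170 (M a768 (F (T t31 (T t29 (L l220 (T t30 N)))))) (K a234 (M a768 (F (T t31 (L l989 (T t32 (L l390 (L l3246 (T t33 N)))))))) (K a63 (M a768 (F (T t85 (L l859 (L l3159 (T t35 (L l989 (L l3073 (T t32 N))))))))) N)))))))))))))))⟩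
def e0_255__271_7 : Ent 5 := ⟨[a0, a255], [a271, a119], (M a192 (F (T t23 (L l126 (T t19 (L l126 (T t22 (L l113 (T t24 (K a64 (M a240 (F (T t79 (L l126 (L l144 (L l2101 (T t80 (T t81 N)))))))) (K a128 (M a240 (F (T t79 (L l126 (L l2101 (T t80 (L l192 (L l220 (T t81 N))))))))) (K a85 (M a768 (L l126 (F (T t86 (L l347 (L l2339 (L l2487 (T t29 (L l347 (L l2339 (L l2487 (T t30 (K a68 (M a102 (F (T t86 (L l347 (L l2339 (L l2487 (T t29 (L l80 (L l144 (L l528 (T t36 N))))))))))) (K a102 (M a68 (F (T t86 (L l365 (L l2339 (L l2487 (T t134 N))))))) N)))))))))))))) (K a149 (M a768 (F (T t31 (L l347 (L l2487 (T t29 (L l989 (L l2487 (T t32 N))))))))) (K a213 (M a768 (F (T t31 (L l989 (L l2487 (L l3203 (T t32 (T t33 N)))))))) (K a106 (M a768 (F (T t86 (L l2487 (T t29 (L l989 (L l2487 (T t32 N)))))))) (K a170 (M a768 (F (T t31 (L l2487 (T t29 (L l220 (L l2487 (T t30 N)))))))) (K a234 (M a768 (F (T t31 (L l989 (L l2487 (T t32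 (L l390 (L l3246 (T t33 N))))))))) (K a63 (M a768 (F (T t85 (L l859 (L l3159 (T t35 (L l989 (L l2487 (L l3073 (T t32 N)))))))))) N))))))))))))))))))⟩
def e0_255__271_8 : Ent 5 := ⟨[a0, a255], [a271, a177], (M a192 (F (T t19 (T t23 (T t22 (T t24 (K a64 (M a240 (F (T t79 (L l144 (L l2101 (T t80 (T t81 N))))))) (K a128 (M a240 (F (T t79 (L l2101 (T t80 (L l192 (L l220 (T t81 N)))))))) (K a85 (M a768 (F (T t86 (L l347 (L l2339 (T t29 (L l347 (L l2339 (T t30 N))))))))) (K a149 (M a768 (F (T t31 (L l347 (T t29 (L l989 (T t32 N))))))) (K a213 (M a768 (F (T t31 (L l989 (L l3203 (T t32 (T t33 N))))))) (K a106 (M a768 (F (T t86 (T t29 (L l989 (T t32 N)))))) (K a170 (M a768 (F (T t31 (T t29 (L l220 (T t30 N)))))) (K a234 (M a768 (F (T t31 (L l989 (T t32 (L l390 (L l3246 (T t33 N)))))))) (K a63 (M a768 (F (T t85 (L l859 (L l3159 (T t35 (L l989 (L l3073 (T t32 N))))))))) N)))))))))))))))⟩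
def e0_255__271_9 : Ent 5 := ⟨[a0, a255], [a271, a187], (M a192 (F (T t19 (L l208 (T t23 (L l189 (T t22 (L l208 (T t24 (K a64 (M a240 (F (T t79 (L l144 (L l2101 (T t80 (L l208 (T t81 N)))))))) (K a128 (M a240 (F (T t79 (L l2101 (T t80 (L l192 (L l208 (L l220 (T t81 N))))))))) (K a85 (M a768 (F (T t86 (L l347 (L l2339 (T t29 (L l347 (L l2339 (T t30 N))))))))) (K a149 (M a768 (F (T t31 (L l347 (T t29 (L l989 (T t32 N))))))) (K a213 (M a768 (F (T t31 (L l989 (L l3203 (T t32 (L l208 (L l2709 (T t33 N))))))))) (K a106 (M a768 (F (T t86 (T t29 (L l989 (T t32 N)))))) (K a170 (M a768 (L l208 (F (T t31 (T t29 (L l220 (T t30 (K a136 (M a153 (F (T t29 (T t31 (L l528 (L l2598 (L l2709 (T t36 N)))))))) (K a153 (M a136 (F (T t31 (L l2598 (L l2709 (T t180 N)))))) N))))))))) (K a234 (M a768 (F (T t31 (L l989 (T t32 (L l208 (L l390 (L l2709 (L l3246 (T t33 N)))))))))) (K a63 (M a768 (F (T t37 (L l859 (L l3159 (T t35 (L l2209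 (T t29 N)))))))) N))))))))))))))))))⟩
def e0_255__271_10 : Ent 5 := ⟨[a0, a255], [a271, a273], (M a192 (F (T t19 (T t23 (T t22 (T t24 (K a64 (M a240 (F (T t79 (L l144 (L l2101 (T t80 (T t81 N))))))) (K a128 (M a240 (F (T t79 (L l2101 (T t80 (L l192 (L l220 (T t81 N)))))))) (K a85 (M a768 (F (T t86 (L l347 (L l2339 (T t29 (L l347 (L l2339 (T t30 N))))))))) (K a149 (M a768 (F (T t31 (L l347 (T t29 (L l989 (T t32 N))))))) (K a213 (M a768 (F (T t31 (L l989 (L l3203 (T t32 (T t33 N))))))) (K a106 (M a768 (F (T t86 (T t29 (L l989 (T t32 N)))))) (K a170 (M a768 (F (T t31 (T t29 (L l220 (T t30 N)))))) (K a234 (M a768 (F (T t31 (L l989 (T t32 (L l390 (L l3246 (T t33 N)))))))) (K a63 (M a768 (F (T t37 (L l859 (L l3159 (T t35 (L l2209 (T t29 N)))))))) N)))))))))))))))⟩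
def e0_255__271_11 : Ent 5 := ⟨[a0, a255], [a271, a283], (M a48 (L l593 (F (T t136 (T t137 (T t135 (T t138 (K a16 (M a240 (L l593 (F (T t139 (L l340 (L l368 (L l2101 (L l2257 (T t140 (T t141 (K a307 (M a295 (F (T t206 (L l2101 (L l2257 (T t207 (L l340 (L l368 (T t208 N))))))))) (K a295 (M a307 (F (T t206 (L l2101 (L l2257 (T t207 (L l340 (L l368 (T t208 N))))))))) N)))))))))))) (K a32 (M a49 (L l593 (F (T t209 (T t210 (L l404 (T t211 (L l404 (T t212 (K a307 (M a295 (F (L l2131 (T t213 (L l404 (T t211 N)))))) (K a295 (M a307 (F (T t214 (L l404 (T t211 N))))) N))))))))))) (K a85 (M a768 (L l593 (F (T t215 (L l123 (L l2339 (T t143 (L l123 (L l2339 (T t144 (K a307 (M a295 (F (T t216 (T t215 (L l123 (L l2339 (T t144 N))))))) (K a295 (M a307 (F (T t216 (T t215 (L l123 (L l2339 (T t144 N))))))) N)))))))))))) (K a101 (M a49 (L l593 (F (T t217 (T t209 (L l401 (L l404 (T t211 (K a307 (M a295 (F (L l2131 (T t213 (L l401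 (L l404 (T t211 N))))))) (K a295 (M a307 (F (T t214 (L l401 (L l404 (T t211 N)))))) N)))))))))) (K a117 (M a51 (L l593 (F (T t218 (T t219 (L l107 (L l123 (T t220 (K a307 (M a295 (F (T t221 (L l2131 (T t222 N))))) (K a295 (M a307 (F (T t223 (L l989 (T t224 N))))) N)))))))))) (K a154 (M a768 (L l593 (F (T t215 (T t143 (L l989 (T t32 (K a307 (M a295 (F (T t225 (L l368 (T t39 (T t215 N)))))) (K a295 (M a307 (F (T t225 (L l368 (T t39 (T t215 N)))))) N))))))))) (K a170 (M a768 (L l593 (F (T t145 (T t143 (L l404 (T t144 (K a307 (M a295 (F (T t226 (L l404 (T t215 (L l404 (T t144 N))))))) (K a295 (M a307 (F (T t226 (L l404 (T t215 (L l404 (T t144 N))))))) N))))))))) (K a186 (M a51 (L l593 (F (T t227 (T t219 (L l438 (T t220 (K a307 (M a295 (F (T t228 (L l2131 (T t222 N))))) (K a295 (M a307 (F (T t223 (L l989 (T t224 N))))) N))))))))) (K a207 (M a768 (L l593 (F (T t229 (L l595 (L l3339 (T t148 (L l989 (L l2893 (T t32 (K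 a307 (M a295 (F (T t37 (L l2749 (T t225 (L l3339 (T t215 N))))))) (K a295 (M a307 (F (T t230 (L l2893 (T t39 (L l2749 (T t225 N))))))) N)))))))))))) (K a307 (M a295 (F (T t136 (T t137 (T t135 (T t138 (K a16 (M a240 (F (T t206 (L l2101 (L l2257 (T t207 (L l340 (L l368 (T t208 N))))))))) (K a32 (M a49 (F (L l2131 (T t213 (L l404 (T t211 N)))))) (K a85 (M a51 (F (T t231 (L l528 (L l595 (L l2131 (T t232 N))))))) (K a101 (M a49 (F (L l2131 (T t213 (L l401 (L l404 (T t211 N))))))) (K a117 (M a51 (F (T t221 (L l2131 (T t222 N))))) (K a154 (M a768 (F (T t225 (L l368 (T t39 (T t215 N)))))) (K a170 (M a51 (F (T t233 (L l528 (L l595 (L l2131 (T t232 N))))))) (K a186 (M a51 (F (T t228 (L l2131 (T t222 N))))) (K a207 (M a768 (F (T t37 (L l2749 (T t225 (L l3339 (T t215 N))))))) N))))))))))))))) (K a295 (M a307 (F (T t136 (T t137 (T t135 (T t138 (K a16 (M a256 (F (L l989 (T t234 (T t235 N))))) (K a32 (M a256 (F (T t236 (L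 l2152 (L l2156 (T t235 N)))))) (K a85 (M a256 (F (L l595 (T t237 (T t238 N))))) (K a101 (M a256 (F (T t239 (T t238 N)))) (K a117 (M a256 (F (T t239 (T t238 N)))) (K a154 (M a256 (F (L l595 (T t237 (T t238 N))))) (K a170 (M a256 (F (T t239 (T t238 N)))) (K a186 (M a256 (F (T t239 (T t238 N)))) (K a207 (M a256 (F (T t239 (T t238 N)))) N))))))))))))))) N))))))))))))))))))⟩
def e0_255__271_12 : Ent 5 := ⟨[a0, a255], [a271, a290], (M a192 (F (T t19 (T t23 (T t22 (T t24 (K a64 (M a240 (F (T t79 (L l144 (L l2101 (T t80 (T t81 N))))))) (K a128 (M a240 (F (T t79 (L l2101 (T t80 (L l192 (L l220 (T t81 N)))))))) (K a85 (M a768 (F (T t86 (L l347 (L l2339 (T t29 (L l347 (L l2339 (T t30 N))))))))) (K a149 (M a768 (F (T t31 (L l347 (T t29 (L l989 (T t32 N))))))) (K a213 (M a768 (F (T t31 (L l989 (L l3203 (T t32 (L l922 (T t33 N)))))))) (K a106 (M a768 (F (T t86 (T t29 (L l989 (T t32 N)))))) (K a170 (M a768 (F (T t31 (T t29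 (L l220 (T t30 N)))))) (K a234 (M a768 (F (T t31 (L l989 (T t32 (L l390 (L l922 (L l3246 (T t33 N))))))))) (K a63 (M a768 (F (T t37 (L l859 (L l3159 (T t35 (L l2209 (T t29 N)))))))) N)))))))))))))))⟩
def e0_255__271_13 : Ent 5 := ⟨[a0, a255], [a271, a295], (M a12 (L l593 (F (T t154 (T t155 (T t153 (T t156 (K a4 (M a204 (L l593 (F (T t157 (L l310 (L l458 (L l2287 (T t158 (L l310 (L l458 (T t159 (K a307 (M a283 (F (T t483 (L l2191 (L l2287 (T t191 (T t484 N))))))) (K a283 (M a307 (F (T t483 (L l2287 (T t191 (T t484 N)))))) N))))))))))))) (K a8 (M a204 (L l593 (F (T t157 (L l2287 (T t158 (T t159 (K a307 (M a283 (F (T t483 (L l464 (L l2191 (L l2287 (T t191 (L l316 (L l464 (T t484 N)))))))))) (K a283 (M a307 (F (T t483 (L l464 (L l2287 (T t191 (L l316 (L l464 (T t484 N))))))))) N))))))))) (K a85 (M a768 (L l593 (F (T t265 (L l91 (L l2339 (T t161 (L l91 (L l2339 (T t162 (K a307 (M a283 (F (T t485 (T t265 (L l91 (L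 l2339 (T t162 N))))))) (K a283 (M a307 (F (T t485 (T t265 (L l91 (L l2339 (T t162 N))))))) N)))))))))))) (K a89 (M a13 (L l593 (F (T t486 (T t487 (L l461 (L l464 (T t488 (K a307 (M a283 (F (L l2161 (T t489 (L l461 (L l464 (T t488 N))))))) (K a283 (M a307 (F (T t487 (T t486 (L l461 (L l464 (T t488 N))))))) N)))))))))) (K a93 (M a51 (L l593 (F (T t221 (T t490 (L l91 (T t491 (K a307 (M a283 (F (T t221 (T t492 (L l91 (T t491 N)))))) (K a283 (M a307 (F (T t492 (L l989 (T t224 N))))) N))))))))) (K a166 (M a768 (L l593 (F (T t265 (T t161 (L l989 (T t32 (K a307 (M a283 (F (T t493 (L l458 (T t39 (T t265 N)))))) (K a283 (M a307 (F (T t493 (L l458 (T t39 (T t265 N)))))) N))))))))) (K a170 (M a768 (L l593 (F (T t163 (T t161 (L l464 (T t162 (K a307 (M a283 (F (T t494 (L l464 (T t265 (L l464 (T t162 N))))))) (K a283 (M a307 (F (T t494 (L l464 (T t265 (L l464 (T t162 N))))))) N))))))))) (K a174 (M a51 (L l593 (F (T t495 (T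 t228 (T t491 (K a307 (M a283 (F (T t228 (T t492 (T t491 N))))) (K a283 (M a307 (F (T t492 (L l989 (T t224 N))))) N)))))))) (K a243 (M a768 (L l593 (F (T t496 (L l523 (L l3369 (T t166 (L l989 (L l2863 (T t32 (K a307 (M a283 (F (T t37 (L l2839 (T t493 (L l3369 (T t265 N))))))) (K a283 (M a307 (F (T t497 (L l2863 (T t39 (L l2839 (T t493 N))))))) N)))))))))))) (K a307 (M a283 (F (T t154 (T t155 (T t153 (T t156 (K a4 (M a204 (F (T t483 (L l2191 (L l2287 (T t191 (T t484 N))))))) (K a8 (M a13 (F (L l2161 (T t489 (L l464 (T t488 N)))))) (K a85 (M a819 (F (T t498 (L l2161 (T t499 N))))) (K a89 (M a768 (F (T t493 (L l464 (T t265 (L l91 (T t39 N))))))) (K a93 (M a819 (F (T t498 (L l89 (L l91 (L l2161 (T t500 N))))))) (K a166 (M a768 (F (T t493 (L l458 (T t39 (T t265 N)))))) (K a170 (M a819 (F (T t498 (L l178 (L l180 (L l2161 (T t499 N))))))) (K a174 (M a819 (F (T t498 (L l2161 (T t500 N))))) (K a243 (M a768 (F (T t37 (L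 l2839 (T t493 (L l3369 (T t265 N))))))) N))))))))))))))) (K a283 (M a307 (F (T t154 (T t155 (T t153 (T t156 (K a4 (M a256 (F (L l989 (T t234 (L l541 (L l2234 (T t501 N))))))) (K a8 (M a256 (F (T t236 (L l541 (L l2092 (T t501 N)))))) (K a85 (M a256 (F (T t502 (T t503 N)))) (K a89 (M a256 (F (T t504 (T t505 N)))) (K a93 (M a256 (F (T t504 (T t505 N)))) (K a166 (M a256 (F (L l523 (T t506 (T t505 N))))) (K a170 (M a256 (F (T t504 (L l2598 (T t505 N))))) (K a174 (M a256 (F (T t504 (L l2616 (T t505 N))))) (K a243 (M a256 (F (T t504 (T t505 N)))) N))))))))))))))) N))))))))))))))))))⟩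
def e0_255__271_14 : Ent 5 := ⟨[a0, a255], [a271, a307], (M a48 (L l593 (F (T t136 (T t137 (T t135 (T t138 (K a16 (M a240 (L l593 (F (T t139 (L l340 (L l368 (L l2101 (T t140 (T t141 (K a295 (M a283 (F (T t206 (L l2101 (T t207 (L l340 (L l368 (T t208 N)))))))) (K a283 (M a295 (F (T t206 (L l2101 (L l2257 (T t207 (L l340 (L l368 (T t208 N))))))))) N))))))))))) (K a32 (M a240 (L l593 (F (T t139 (L l2101 (T t140 (L l376 (L l404 (T t141 (K a295 (M a283 (F (T t206 (L l404 (L l2101 (T t207 (T t208 N))))))) (K a283 (M a295 (F (T t206 (L l404 (L l2101 (L l2257 (T t207 (T t208 N)))))))) N))))))))))) (K a85 (M a768 (L l593 (F (T t215 (L l123 (L l2339 (T t143 (L l123 (L l2339 (T t144 (K a295 (M a283 (F (T t216 (T t215 (L l123 (L l2339 (T t144 N))))))) (K a283 (M a295 (F (T t216 (T t215 (L l123 (L l2339 (T t144 N))))))) N)))))))))))) (K a101 (M a49 (L l593 (F (T t217 (T t209 (L l401 (L l404 (T t211 (K a295 (M a283 (F (T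 t209 (T t217 (L l401 (L l404 (T t211 N))))))) (K a283 (M a295 (F (L l2131 (T t213 (L l401 (L l404 (T t211 N))))))) N)))))))))) (K a117 (M a51 (L l593 (F (T t218 (T t219 (L l107 (L l123 (T t220 (K a295 (M a283 (F (T t260 (T t221 (L l107 (L l123 (T t220 N))))))) (K a283 (M a295 (F (T t221 (L l2131 (T t222 N))))) N)))))))))) (K a154 (M a768 (L l593 (F (T t215 (T t143 (L l959 (L l989 (T t32 (K a295 (M a283 (F (T t225 (L l368 (T t39 (T t215 N)))))) (K a283 (M a295 (F (T t225 (L l368 (T t39 (T t215 N)))))) N)))))))))) (K a170 (M a768 (L l593 (F (T t145 (T t143 (L l404 (T t144 (K a295 (M a283 (F (T t226 (L l404 (T t215 (L l404 (T t144 N))))))) (K a283 (M a295 (F (T t226 (L l404 (T t215 (L l404 (T t144 N))))))) N))))))))) (K a186 (M a51 (L l593 (F (T t227 (T t219 (L l438 (T t220 (K a295 (M a283 (F (T t223 (L l184 (L l206 (T t221 (L l438 (T t220 N)))))))) (K a283 (M a295 (F (T t228 (L l2131 (T t222 N))))) N)))))))))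 (K a207 (M a768 (L l593 (F (T t37 (L l550 (L l595 (L l3339 (T t148 (L l2749 (T t143 (K a295 (M a283 (F (T t37 (L l2749 (T t225 (L l3339 (T t215 N))))))) (K a283 (M a295 (F (T t37 (L l2749 (T t225 (L l3339 (T t215 N))))))) N)))))))))))) (K a295 (M a283 (F (T t136 (T t137 (T t135 (T t138 (K a16 (M a240 (F (T t206 (L l2101 (T t207 (L l340 (L l368 (T t208 N)))))))) (K a32 (M a240 (F (T t206 (L l404 (L l2101 (T t207 (T t208 N))))))) (K a85 (M a768 (F (T t216 (T t215 (L l123 (L l2339 (T t144 N))))))) (K a101 (M a768 (F (T t225 (L l404 (T t215 (L l123 (T t39 N))))))) (K a117 (M a819 (F (T t507 (L l123 (L l2161 (T t508 N)))))) (K a154 (M a768 (F (T t225 (L l368 (T t39 (T t215 N)))))) (K a170 (M a768 (F (T t226 (L l404 (T t215 (L l404 (T t144 N))))))) (K a186 (M a819 (F (T t507 (L l426 (L l2161 (T t508 N)))))) (K a207 (M a768 (F (T t37 (L l2749 (T t225 (L l3339 (T t215 N))))))) N))))))))))))))) (K a283 (M a295 (F (T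 t136 (T t137 (T t135 (T t138 (K a16 (M a240 (F (T t206 (L l2101 (L l2257 (T t207 (L l340 (L l368 (T t208 N))))))))) (K a32 (M a49 (F (L l2131 (T t213 (L l404 (T t211 N)))))) (K a85 (M a51 (F (T t231 (L l528 (L l595 (L l2131 (T t232 N))))))) (K a101 (M a49 (F (L l2131 (T t213 (L l401 (L l404 (T t211 N))))))) (K a117 (M a51 (F (T t221 (L l2131 (T t222 N))))) (K a154 (M a768 (F (T t225 (L l368 (T t39 (T t215 N)))))) (K a170 (M a51 (F (T t233 (L l528 (L l595 (L l2131 (T t232 N))))))) (K a186 (M a51 (F (T t228 (L l2131 (T t222 N))))) (K a207 (M a768 (F (T t37 (L l2749 (T t225 (L l3339 (T t215 N))))))) N))))))))))))))) N))))))))))))))))))⟩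
def e0_255__271_15 : Ent 5 := ⟨[a0, a255], [a271, a358], (M a192 (F (T t19 (T t23 (T t22 (T t24 (K a64 (M a240 (F (T t79 (L l144 (L l2101 (T t80 (T t81 N))))))) (K a128 (M a240 (F (T t79 (L l2101 (T t80 (L l192 (L l220 (T t81 N)))))))) (K a85 (M a768 (F (T t86 (L l347 (L l2339 (L l2487 (T t29 (L l347 (L l2339 (L l2487 (T t30 N))))))))))) (K a149 (M a768 (F (T t31 (L l347 (L l2487 (T t29 (L l989 (L l2487 (T t32 N))))))))) (K a213 (M a768 (F (T t31 (L l989 (L l2487 (L l3203 (T t32 (L l922 (T t33 N))))))))) (K a106 (M a768 (F (T t86 (L l2487 (T t29 (L l989 (L l2487 (T t32 N)))))))) (K a170 (M a768 (F (T t31 (L l2487 (T t29 (L l220 (L l2487 (T t30 N)))))))) (K a234 (M a768 (F (T t31 (L l989 (L l2487 (T t32 (L l390 (L l922 (L l3246 (T t33 N)))))))))) (K a63 (M a768 (F (T t69 (L l2209 (L l2487 (T t29 (L l989 (L l2487 (L l3073 (T t32 N)))))))))) N)))))))))))))))⟩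
def e0_255__271_16 : Ent 5 := ⟨[a0, a255], [a271, a370], (M a192 (F (T t19 (T t23 (T t22 (T t24 (K a64 (M a240 (F (T t79 (L l144 (L l2101 (T t80 (T t81 N))))))) (K a128 (M a240 (F (T t79 (L l2101 (T t80 (L l192 (L l220 (T t81 N)))))))) (K a85 (M a768 (F (T t86 (L l347 (L l2339 (T t29 (L l347 (L l2339 (T t30 N))))))))) (K a149 (M a768 (F (T t31 (L l347 (T t29 (L l989 (T t32 N))))))) (K a213 (M a768 (F (T t31 (L l989 (L l3203 (T t32 (T t33 N))))))) (K a106 (M a768 (F (T t86 (T t29 (L l989 (T t32 N)))))) (K a170 (M a768 (F (T t31 (T t29 (L l220 (T t30 N)))))) (K a234 (M a768 (F (T t31 (L l989 (T t32 (L l390 (L l3246 (T t33 N)))))))) (K a63 (M a768 (F (T t85 (L l859 (L l3159 (T t35 (L l989 (L l3073 (T t32 N))))))))) N)))))))))))))))⟩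
def e0_255__271_17 : Ent 5 := ⟨[a0, a255], [a271, a375], (M a192 (F (T t19 (T t23 (T t22 (T t24 (K a64 (M a240 (F (T t79 (L l144 (L l2101 (T t80 (T t81 N))))))) (K a128 (M a240 (F (T t79 (L l2101 (T t80 (L l192 (L l220 (T t81 N)))))))) (K a85 (M a768 (F (T t86 (L l347 (L l2339 (T t29 (L l347 (L l2339 (L l2431 (T t30 N)))))))))) (K a149 (M a768 (F (T t31 (L l347 (T t29 (L l959 (L l989 (L l3079 (T t32 N))))))))) (K a213 (M a768 (F (T t31 (L l959 (L l989 (L l3079 (L l3203 (T t32 (T t33 N))))))))) (K a106 (M a768 (F (T t86 (T t29 (L l959 (L l989 (L l3079 (T t32 N)))))))) (K a170 (M a768 (F (T t31 (T t29 (L l220 (L l2431 (T t30 N))))))) (K a234 (M a768 (F (T t31 (L l959 (L l989 (L l3079 (T t32 (L l390 (L l3246 (T t33 N)))))))))) (K a63 (M a768 (F (T t37 (L l859 (L l3159 (T t35 (L l2209 (T t29 N)))))))) N)))))))))))))))⟩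
def e0_255__271_18 : Ent 5 := ⟨[a0, a255], [a271, a433], (M a192 (F (T t19 (T t23 (T t22 (T t24 (K a64 (M a240 (F (T t79 (L l144 (L l2101 (T t80 (T t81 N))))))) (K a128 (M a240 (F (T t79 (L l2101 (T t80 (L l192 (L l220 (T t81 N)))))))) (K a85 (M a768 (F (T t86 (L l347 (L l2339 (T t29 (L l347 (L l2339 (T t30 N))))))))) (K a149 (M a768 (F (T t31 (L l347 (T t29 (L l989 (T t32 N))))))) (K a213 (M a768 (F (T t31 (L l989 (L l3203 (T t32 (T t33 N))))))) (K a106 (M a768 (F (T t86 (T t29 (L l989 (T t32 N)))))) (K a170 (M a768 (F (T t31 (T t29 (L l220 (T t30 N)))))) (K a234 (M a768 (F (T t31 (L l989 (T t32 (L l390 (L l3246 (T t33 N)))))))) (K a63 (M a768 (F (T t85 (L l859 (L l3159 (T t35 (L l989 (L l3073 (T t32 N))))))))) N)))))))))))))))⟩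
def e0_255__271_19 : Ent 5 := ⟨[a0, a255], [a271, a443], (M a192 (F (T t19 (T t23 (L l2653 (T t22 (T t24 (K a64 (M a240 (F (T t79 (L l144 (L l2101 (T t80 (T t81 N))))))) (K a128 (M a240 (F (T t79 (L l2101 (T t80 (L l192 (L l220 (T t81 N)))))))) (K a85 (M a768 (F (T t86 (L l347 (L l2339 (T t29 (L l347 (L l2339 (T t30 N))))))))) (K a149 (M a768 (F (T t31 (L l347 (T t29 (L l959 (L l989 (T t32 N)))))))) (K a213 (M a768 (F (T t31 (L l959 (L l989 (L l3203 (T t32 (L l728 (T t33 N))))))))) (K a106 (M a768 (F (T t86 (T t29 (L l959 (L l989 (T t32 N))))))) (K a170 (M a768 (F (T t31 (T t29 (L l220 (T t30 N)))))) (K a234 (M a768 (F (T t31 (L l959 (L l989 (T t32 (L l390 (L l728 (L l3246 (T t33 N)))))))))) (K a63 (M a768 (F (T t37 (L l859 (L l3159 (T t35 (L l2209 (T t29 N)))))))) N))))))))))))))))⟩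
def e0_255__271_20 : Ent 5 := ⟨[a0, a255], [a271, a529], (M a192 (F (T t19 (T t23 (T t22 (T t24 (K a64 (M a240 (F (T t79 (L l144 (L l2101 (T t80 (T t81 N))))))) (K a128 (M a240 (F (T t79 (L l2101 (T t80 (L l192 (L l220 (T t81 N)))))))) (K a85 (M a768 (F (T t86 (L l347 (L l1405 (L l2339 (T t29 (L l347 (L l1405 (L l2339 (T t30 N))))))))))) (K a149 (M a768 (F (T t31 (L l347 (L l1405 (T t29 (L l989 (L l1084 (L l1405 (T t32 N)))))))))) (K a213 (M a768 (F (T t31 (L l989 (L l1084 (L l1405 (L l3203 (T t32 (T t33 N))))))))) (K a106 (M a768 (F (T t86 (L l1405 (T t29 (L l989 (L l1084 (L l1405 (T t32 N))))))))) (K a170 (M a768 (F (T t31 (L l1405 (T t29 (L l220 (L l1405 (T t30 N)))))))) (K a234 (M a768 (F (T t31 (L l989 (L l1084 (L l1405 (T t32 (L l390 (L l3246 (T t33 N)))))))))) (K a63 (M a768 (F (T t85 (L l859 (L l1084 (L l3159 (T t35 (L l989 (L l1084 (L l1405 (L l3073 (T t32 N)))))))))))) N)))))))))))))))⟩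
def e0_255__271_21 : Ent 5 := ⟨[a0, a255], [a271, a539], (M a192 (F (T t19 (T t23 (T t22 (T t24 (K a64 (M a240 (F (T t79 (L l144 (L l2101 (T t80 (T t81 N))))))) (K a128 (M a240 (F (T t79 (L l2101 (T t80 (L l192 (L l220 (T t81 N)))))))) (K a85 (M a768 (F (T t86 (L l347 (L l2339 (T t29 (L l347 (L l2339 (T t30 N))))))))) (K a149 (M a768 (F (T t31 (L l347 (T t29 (L l989 (T t32 N))))))) (K a213 (M a768 (F (T t31 (L l989 (L l3203 (T t32 (T t33 N))))))) (K a106 (M a768 (F (T t86 (T t29 (L l989 (T t32 N)))))) (K a170 (M a768 (F (T t31 (T t29 (L l220 (T t30 N)))))) (K a234 (M a768 (F (T t31 (L l989 (T t32 (L l390 (L l3246 (T t33 N)))))))) (K a63 (M a768 (F (T t85 (L l859 (L l3159 (T t35 (L l989 (L l3073 (T t32 N))))))))) N)))))))))))))))⟩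
def e0_255__271_22 : Ent 5 := ⟨[a0, a255], [a271, a546], (M a192 (F (T t19 (T t23 (T t22 (T t24 (K a64 (M a240 (F (T t79 (L l144 (L l2101 (T t80 (T t81 N))))))) (K a128 (M a240 (F (T t79 (L l2101 (T t80 (L l192 (L l220 (T t81 N)))))))) (K a85 (M a768 (F (T t86 (L l347 (L l2339 (T t29 (L l347 (L l2339 (T t30 N))))))))) (K a149 (M a768 (F (T t31 (L l347 (T t29 (L l989 (L l1084 (T t32 N)))))))) (K a213 (M a768 (F (T t31 (L l989 (L l1084 (L l3203 (T t32 (T t33 N)))))))) (K a106 (M a768 (F (T t86 (T t29 (L l989 (L l1084 (T t32 N))))))) (K a170 (M a768 (F (T t31 (T t29 (L l220 (T t30 N)))))) (K a234 (M a768 (F (T t31 (L l989 (L l1084 (T t32 (L l390 (L l3246 (T t33 N))))))))) (K a63 (M a768 (F (T t43 (L l859 (L l1084 (L l3159 (T t35 (L l989 (L l1084 (L l3073 (T t32 N))))))))))) N)))))))))))))))⟩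
def e0_255__271_23 : Ent 5 := ⟨[a0, a255], [a271, a551], (M a192 (F (T t19 (T t23 (T t22 (T t24 (K a64 (M a240 (F (T t79 (L l144 (L l2101 (L l2257 (T t80 (T t81 N)))))))) (K a128 (M a240 (F (T t79 (L l2101 (L l2257 (T t80 (L l192 (L l220 (T t81 N))))))))) (K a85 (M a768 (F (T t86 (L l347 (L l2339 (T t29 (L l347 (L l2339 (T t30 N))))))))) (K a149 (M a768 (F (T t31 (L l347 (T t29 (L l989 (T t32 N))))))) (K a213 (M a768 (F (T t31 (L l989 (L l3203 (T t32 (T t33 N))))))) (K a106 (M a768 (F (T t86 (T t29 (L l989 (T t32 N)))))) (K a170 (M a768 (F (T t31 (T t29 (L l220 (T t30 N)))))) (K a234 (M a768 (F (T t31 (L l989 (T t32 (L l390 (L l3246 (T t33 N)))))))) (K a63 (M a768 (F (T t85 (L l859 (L l3159 (T t35 (L l989 (L l3073 (T t32 N))))))))) N)))))))))))))))⟩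
def e0_255__271_24 : Ent 5 := ⟨[a0, a255], [a271, a563], (M a192 (F (T t19 (T t23 (T t22 (T t24 (K a64 (M a240 (F (T t79 (L l144 (L l2101 (T t80 (T t81 N))))))) (K a128 (M a240 (F (T t79 (L l2101 (T t80 (L l192 (L l220 (T t81 N)))))))) (K a85 (M a768 (F (T t86 (L l347 (L l2339 (T t29 (L l347 (L l2339 (T t30 N))))))))) (K a149 (M a768 (F (T t31 (L l347 (T t29 (L l989 (L l1084 (T t32 N)))))))) (K a213 (M a768 (F (T t31 (L l989 (L l1084 (L l3203 (T t32 (T t33 N)))))))) (K a106 (M a768 (F (T t86 (T t29 (L l989 (L l1084 (T t32 N))))))) (K a170 (M a768 (F (T t31 (T t29 (L l220 (T t30 N)))))) (K a234 (M a768 (F (T t31 (L l989 (L l1084 (T t32 (L l390 (L l3246 (T t33 N))))))))) (K a63 (M a768 (F (T t85 (L l859 (L l1084 (L l3159 (T t35 (L l989 (L l1084 (L l3073 (T t32 N))))))))))) N)))))))))))))))⟩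
def e0_255__271_25 : Ent 5 := ⟨[a0, a255], [a271, a614], (M a192 (F (T t19 (T t23 (T t22 (T t24 (K a64 (M a240 (F (T t79 (L l144 (L l2101 (T t80 (T t81 N))))))) (K a128 (M a240 (F (T t79 (L l2101 (T t80 (L l192 (L l220 (T t81 N)))))))) (K a85 (M a768 (F (T t86 (L l347 (L l1166 (L l2339 (T t29 (L l347 (L l1166 (L l2339 (T t30 N))))))))))) (K a149 (M a768 (F (T t31 (L l347 (L l1166 (T t29 (L l989 (L l1166 (T t32 N))))))))) (K a213 (M a768 (F (T t31 (L l989 (L l1166 (L l3203 (T t32 (L l3264 (T t33 N))))))))) (K a106 (M a768 (F (T t86 (L l1166 (T t29 (L l989 (L l1166 (T t32 N)))))))) (K a170 (M a768 (F (T t31 (L l1166 (T t29 (L l220 (L l1166 (T t30 N)))))))) (K a234 (M a768 (F (T t31 (L l989 (L l1166 (T t32 (L l390 (L l3246 (L l3264 (T t33 N)))))))))) (K a63 (M a768 (F (T t69 (L l1166 (L l2209 (T t29 (L l989 (L l1166 (L l3073 (T t32 N)))))))))) N)))))))))))))))⟩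
def e0_255__271_26 : Ent 5 := ⟨[a0, a255], [a271, a626], (M a192 (F (T t19 (T t23 (T t22 (T t24 (K a64 (M a240 (F (T t79 (L l144 (L l2101 (T t80 (T t81 N))))))) (K a128 (M a240 (F (T t79 (L l2101 (T t80 (L l192 (L l220 (T t81 N)))))))) (K a85 (M a768 (F (T t86 (L l347 (L l2339 (T t29 (L l347 (L l2339 (T t30 N))))))))) (K a149 (M a768 (F (T t31 (L l347 (T t29 (L l989 (T t32 N))))))) (K a213 (M a768 (F (T t31 (L l989 (L l3203 (T t32 (T t33 N))))))) (K a106 (M a768 (F (T t86 (T t29 (L l989 (T t32 N)))))) (K a170 (M a768 (F (T t31 (T t29 (L l220 (T t30 N)))))) (K a234 (M a768 (F (T t31 (L l989 (T t32 (L l390 (L l3246 (T t33 N)))))))) (K a63 (M a768 (F (T t85 (L l859 (L l3159 (T t35 (L l989 (L l3073 (T t32 N))))))))) N)))))))))))))))⟩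
def e0_255__271_27 : Ent 5 := ⟨[a0, a255], [a271, a631], (M a192 (F (T t19 (T t23 (T t22 (L l2437 (T t24 (K a64 (M a240 (F (T t79 (L l144 (L l2101 (T t80 (T t81 N))))))) (K a128 (M a240 (F (T t79 (L l2101 (T t80 (L l192 (L l220 (T t81 N)))))))) (K a85 (M a768 (F (T t86 (L l347 (L l1166 (L l2339 (T t29 (L l347 (L l1166 (L l2339 (T t30 N))))))))))) (K a149 (M a768 (F (T t31 (L l347 (L l1166 (T t29 (L l989 (L l1166 (T t32 N))))))))) (K a213 (M a768 (F (T t31 (L l989 (L l1166 (L l3203 (T t32 (L l1153 (T t33 N))))))))) (K a106 (M a768 (F (T t86 (L l1166 (T t29 (L l989 (L l1166 (T t32 N)))))))) (K a170 (M a768 (F (T t31 (L l1166 (T t29 (L l220 (L l1166 (T t30 N)))))))) (K a234 (M a768 (F (T t31 (L l989 (L l1166 (T t32 (L l390 (L l1153 (L l3246 (T t33 N)))))))))) (K a63 (M a768 (F (T t49 (L l859 (L l3159 (T t35 (L l989 (L l1166 (L l3073 (T t32 N)))))))))) N))))))))))))))))⟩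
def e0_255__271_28 : Ent 5 := ⟨[a0, a255], [a271, a689], (M a192 (F (T t19 (T t23 (T t22 (T t24 (K a64 (M a240 (F (T t79 (L l144 (L l2101 (T t80 (T t81 N))))))) (K a128 (M a240 (F (T t79 (L l2101 (T t80 (L l192 (L l220 (T t81 N)))))))) (K a85 (M a768 (F (T t86 (L l347 (L l2339 (T t29 (L l347 (L l2339 (T t30 N))))))))) (K a149 (M a768 (F (T t31 (L l347 (T t29 (L l989 (T t32 N))))))) (K a213 (M a768 (F (T t31 (L l989 (L l3203 (T t32 (T t33 N))))))) (K a106 (M a768 (F (T t86 (T t29 (L l989 (T t32 N)))))) (K a170 (M a768 (F (T t31 (T t29 (L l220 (T t30 N)))))) (K a234 (M a768 (F (T t31 (L l989 (T t32 (L l390 (L l3246 (T t33 N)))))))) (K a63 (M a768 (F (T t85 (L l859 (L l3159 (T t35 (L l989 (L l3073 (T t32 N))))))))) N)))))))))))))))⟩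
def e0_255__271_29 : Ent 5 := ⟨[a0, a255], [a271, a699], (M a192 (F (T t19 (T t23 (T t22 (T t24 (K a64 (M a240 (F (T t79 (L l144 (L l2101 (T t80 (T t81 N))))))) (K a128 (M a240 (F (T t79 (L l2101 (T t80 (L l192 (L l220 (T t81 N)))))))) (K a85 (M a768 (F (T t86 (L l347 (L l2339 (T t29 (L l347 (L l2339 (T t30 N))))))))) (K a149 (M a768 (F (T t31 (L l347 (T t29 (L l989 (L l3079 (T t32 N)))))))) (K a213 (M a768 (F (T t31 (L l989 (L l3079 (L l3203 (T t32 (T t33 N)))))))) (K a106 (M a768 (F (T t86 (T t29 (L l989 (L l3079 (T t32 N))))))) (K a170 (M a768 (F (T t31 (T t29 (L l220 (T t30 N)))))) (K a234 (M a768 (F (T t31 (L l989 (L l3079 (T t32 (L l390 (L l3246 (T t33 N))))))))) (K a63 (M a768 (F (T t37 (L l859 (L l3159 (T t35 (L l2209 (T t29 N)))))))) N)))))))))))))))⟩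
def e0_255__271_30 : Ent 5 := ⟨[a0, a255], [a271, a785], (M a192 (F (T t19 (T t23 (T t22 (T t24 (K a64 (M a240 (F (T t79 (L l144 (L l2101 (T t80 (T t81 N))))))) (K a128 (M a240 (F (T t79 (L l2101 (T t80 (L l192 (L l220 (T t81 N)))))))) (K a85 (M a768 (F (T t86 (L l347 (L l2339 (L l3227 (T t29 (L l347 (L l2339 (L l3227 (T t30 N))))))))))) (K a149 (M a768 (F (T t31 (L l347 (L l3227 (T t29 (L l989 (L l3227 (T t32 N))))))))) (K a213 (M a768 (F (T t31 (L l989 (L l3203 (L l3227 (T t32 (L l1925 (T t33 N))))))))) (K a106 (M a768 (F (T t48 (L l859 (T t35 (L l989 (L l3227 (T t32 N)))))))) (K a170 (M a768 (F (T t31 (L l3227 (T t29 (L l220 (L l3227 (T t30 N)))))))) (K a234 (M a768 (F (T t31 (L l989 (L l3227 (T t32 (L l390 (L l1925 (L l3246 (T t33 N)))))))))) (K a63 (M a768 (F (T t85 (L l859 (L l3159 (T t35 (L l989 (L l3073 (L l3227 (T t32 N)))))))))) N)))))))))))))))⟩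
def e0_255__271_31 : Ent 5 := ⟨[a0, a255], [a271, a795], (M a192 (F (T t19 (T t23 (T t22 (T t24 (K a64 (M a240 (F (T t79 (L l144 (L l2101 (T t80 (T t81 N))))))) (K a128 (M a240 (F (T t79 (L l2101 (T t80 (L l192 (L l220 (T t81 N)))))))) (K a85 (M a768 (F (T t86 (L l347 (L l2339 (T t29 (L l347 (L l2339 (T t30 N))))))))) (K a149 (M a768 (F (T t31 (L l347 (T t29 (L l989 (T t32 N))))))) (K a213 (M a768 (F (T t31 (L l989 (L l3203 (T t32 (T t33 N))))))) (K a106 (M a768 (F (T t86 (T t29 (L l989 (T t32 N)))))) (K a170 (M a768 (F (T t31 (T t29 (L l220 (T t30 N)))))) (K a234 (M a768 (F (T t31 (L l989 (T t32 (L l390 (L l3246 (T t33 N)))))))) (K a63 (M a768 (F (T t85 (L l859 (L l3159 (T t35 (L l989 (L l3073 (T t32 N))))))))) N)))))))))))))))⟩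
def e0_255__271_32 : Ent 5 := ⟨[a0, a255], [a271, a802], (M a192 (F (T t19 (T t23 (T t22 (T t24 (K a64 (M a240 (F (T t79 (L l144 (L l2101 (T t80 (T t81 N))))))) (K a128 (M a240 (F (T t79 (L l2101 (T t80 (L l192 (L l220 (T t81 N)))))))) (K a85 (M a768 (F (T t86 (L l347 (L l1586 (L l2339 (T t29 (L l347 (L l1586 (L l2339 (T t30 N))))))))))) (K a149 (M a768 (F (T t31 (L l347 (L l1586 (T t29 (L l989 (T t32 N)))))))) (K a213 (M a768 (F (T t31 (L l989 (L l3203 (T t32 (L l3264 (T t33 N)))))))) (K a106 (M a768 (F (T t86 (L l1586 (T t29 (L l989 (T t32 N))))))) (K a170 (M a768 (F (T t31 (L l1586 (T t29 (L l220 (L l1586 (T t30 N)))))))) (K a234 (M a768 (F (T t31 (L l989 (T t32 (L l390 (L l3246 (L l3264 (T t33 N))))))))) (K a63 (M a768 (F (T t43 (L l859 (L l3159 (T t35 (L l989 (L l3073 (T t32 N))))))))) N)))))))))))))))⟩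
def e0_255__271_33 : Ent 5 := ⟨[a0, a255], [a271, a807], (M a192 (F (T t19 (T t23 (T t22 (T t24 (K a64 (M a240 (F (T t79 (L l144 (L l2101 (T t80 (T t81 N))))))) (K a128 (M a240 (F (T t79 (L l2101 (T t80 (L l192 (L l220 (T t81 N)))))))) (K a85 (M a768 (F (T t86 (L l347 (L l2339 (T t29 (L l347 (L l2339 (T t30 N))))))))) (K a149 (M a768 (F (T t31 (L l347 (T t29 (L l989 (T t32 N))))))) (K a213 (M a768 (F (T t31 (L l989 (L l3203 (T t32 (T t33 N))))))) (K a106 (M a768 (F (T t86 (T t29 (L l989 (T t32 N)))))) (K a170 (M a768 (F (T t31 (T t29 (L l220 (T t30 N)))))) (K a234 (M a768 (F (T t31 (L l989 (T t32 (L l390 (L l3246 (T t33 N)))))))) (K a63 (M a768 (F (T t85 (L l859 (L l3159 (T t35 (L l989 (L l3073 (T t32 N))))))))) N)))))))))))))))⟩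
def e0_255__271_34 : Ent 5 := ⟨[a0, a255], [a271, a819], (M a192 (F (T t46 (L l2221 (T t19 (L l2221 (T t23 (L l2221 (T t22 (L l2221 (T t24 (K a64 (M a240 (F (T t84 (L l144 (L l2101 (L l2257 (T t80 (T t81 N)))))))) (K a128 (M a240 (F (T t84 (L l2101 (L l2257 (T t80 (L l192 (L l220 (T t81 N))))))))) (K a85 (M a768 (F (T t85 (L l859 (L l2049 (T t35 (L l347 (L l2339 (T t30 N))))))))) (K a149 (M a768 (F (T t85 (L l859 (L l2049 (T t35 (L l989 (L l1999 (T t32 N))))))))) (K a213 (M a768 (F (T t69 (L l989 (L l1999 (L l3203 (T t32 (T t33 N)))))))) (K a106 (M a768 (F (T t42 (L l859 (L l2049 (T t35 (L l989 (L l1999 (T t32 N))))))))) (K a170 (M a768 (F (T t42 (L l859 (L l2049 (T t35 (L l220 (T t30 N)))))))) (K a234 (M a768 (F (T t37 (L l859 (L l2049 (T t35 (L l390 (L l3246 (T t33 N))))))))) (K a63 (M a768 (L l2221 (F (T t37 (L l859 (L l2049 (L l3159 (T t35 (L l1597 (L l2209 (T t29 (K a567 (M a315 (F (T t37 (L l1597 (L l2209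 (T t48 (L l2049 (L l3159 (T t86 N))))))))) (K a315 (M a567 (F (T t37 (L l1597 (L l2209 (T t48 (L l2049 (L l3159 (T t86 N))))))))) N))))))))))))) N))))))))))))))))))))⟩
def e0_255__271_35 : Ent 5 := ⟨[a0, a255], [a271, a870], (M a192 (F (T t19 (T t23 (T t22 (T t24 (K a64 (M a240 (F (T t79 (L l144 (L l2101 (T t80 (T t81 N))))))) (K a128 (M a240 (F (T t79 (L l2101 (T t80 (L l192 (L l220 (T t81 N)))))))) (K a85 (M a768 (F (T t86 (L l347 (L l2339 (T t29 (L l347 (L l2339 (T t30 N))))))))) (K a149 (M a768 (F (T t31 (L l347 (T t29 (L l989 (T t32 N))))))) (K a213 (M a768 (F (T t31 (L l989 (L l3203 (T t32 (L l1686 (T t33 N)))))))) (K a106 (M a768 (F (T t86 (T t29 (L l989 (T t32 N)))))) (K a170 (M a768 (F (T t31 (T t29 (L l220 (T t30 N)))))) (K a234 (M a768 (F (T t31 (L l989 (T t32 (L l390 (L l1686 (L l3246 (T t33 N))))))))) (K a63 (M a768 (F (T t85 (L l859 (L l3159 (T t35 (L l989 (L l3073 (T t32 N))))))))) N)))))))))))))))⟩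
def e0_255__271_36 : Ent 5 := ⟨[a0, a255], [a271, a882], (M a192 (F (T t19 (T t23 (T t22 (T t24 (K a64 (M a240 (F (T t79 (L l144 (L l2101 (T t80 (T t81 N))))))) (K a128 (M a240 (F (T t79 (L l2101 (T t80 (L l192 (L l220 (T t81 N)))))))) (K a85 (M a768 (F (T t86 (L l347 (L l2339 (T t29 (L l347 (L l2339 (T t30 N))))))))) (K a149 (M a768 (F (T t31 (L l347 (T t29 (L l989 (T t32 N))))))) (K a213 (M a768 (F (T t31 (L l989 (L l3203 (T t32 (T t33 N))))))) (K a106 (M a768 (F (T t86 (T t29 (L l989 (T t32 N)))))) (K a170 (M a768 (F (T t31 (T t29 (L l220 (T t30 N)))))) (K a234 (M a768 (F (T t31 (L l989 (T t32 (L l390 (L l3246 (T t33 N)))))))) (K a63 (M a768 (F (T t85 (L l859 (L l3159 (T t35 (L l989 (L l3073 (T t32 N))))))))) N)))))))))))))))⟩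
def e0_255__271_37 : Ent 5 := ⟨[a0, a255], [a271, a887], (M a192 (F (T t19 (T t23 (T t22 (T t24 (K a64 (M a240 (F (T t79 (L l144 (L l2101 (T t80 (T t81 N))))))) (K a128 (M a240 (F (T t79 (L l2101 (T t80 (L l192 (L l220 (T t81 N)))))))) (K a85 (M a768 (F (T t86 (L l347 (L l2339 (T t29 (L l347 (L l1673 (L l2339 (T t30 N)))))))))) (K a149 (M a768 (F (T t31 (L l347 (T t29 (L l989 (L l1999 (T t32 N)))))))) (K a213 (M a768 (F (T t31 (L l989 (L l1999 (L l3203 (T t32 (L l1686 (T t33 N))))))))) (K a106 (M a768 (F (T t86 (T t29 (L l989 (L l1999 (T t32 N))))))) (K a170 (M a768 (F (T t31 (T t29 (L l220 (L l1673 (T t30 N))))))) (K a234 (M a768 (F (T t31 (L l989 (L l1999 (T t32 (L l390 (L l1686 (L l3246 (T t33 N)))))))))) (K a63 (M a768 (F (T t37 (L l859 (L l3159 (T t35 (L l2209 (T t29 N)))))))) N)))))))))))))))⟩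
def e0_255__271_38 : Ent 5 := ⟨[a0, a255], [a271, a945], (M a192 (F (T t19 (T t23 (T t22 (T t24 (K a64 (M a240 (F (T t79 (L l144 (L l2101 (T t80 (T t81 N))))))) (K a128 (M a240 (F (T t79 (L l2101 (T t80 (L l192 (L l220 (T t81 N)))))))) (K a85 (M a768 (F (T t86 (L l347 (L l2339 (T t29 (L l347 (L l2339 (T t30 N))))))))) (K a149 (M a768 (F (T t31 (L l347 (T t29 (L l989 (T t32 N))))))) (K a213 (M a768 (F (T t31 (L l989 (L l3203 (T t32 (T t33 N))))))) (K a106 (M a768 (F (T t86 (T t29 (L l989 (T t32 N)))))) (K a170 (M a768 (F (T t31 (T t29 (L l220 (T t30 N)))))) (K a234 (M a768 (F (T t31 (L l989 (T t32 (L l390 (L l3246 (T t33 N)))))))) (K a63 (M a768 (F (T t85 (L l859 (L l3159 (T t35 (L l989 (L l3073 (T t32 N))))))))) N)))))))))))))))⟩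
def e0_255__271_39 : Ent 5 := ⟨[a0, a255], [a271, a955], (M a192 (F (T t19 (T t23 (T t22 (T t24 (K a64 (M a240 (F (T t79 (L l144 (L l2101 (T t80 (T t81 N))))))) (K a128 (M a240 (F (T t79 (L l2101 (T t80 (L l192 (L l220 (T t81 N)))))))) (K a85 (M a768 (F (T t86 (L l347 (L l2339 (T t29 (L l347 (L l2339 (T t30 N))))))))) (K a149 (M a768 (F (T t31 (L l347 (T t29 (L l989 (L l1999 (T t32 N)))))))) (K a213 (M a768 (F (T t31 (L l989 (L l1999 (L l3203 (T t32 (T t33 N)))))))) (K a106 (M a768 (F (T t86 (T t29 (L l989 (L l1999 (T t32 N))))))) (K a170 (M a768 (F (T t31 (T t29 (L l220 (T t30 N)))))) (K a234 (M a768 (F (T t31 (L l989 (L l1999 (T t32 (L l390 (L l3246 (T t33 N))))))))) (K a63 (M a768 (F (T t85 (L l859 (L l3159 (T t35 (L l989 (L l1999 (L l3073 (T t32 N)))))))))) N)))))))))))))))⟩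
def b0_255__271 : Blk 5 := ⟨[0, 255], [271], [17, 27, 34, 39, 51, 102, 114, 119, 177, 187, 273, 283, 290, 295, 307, 358, 370, 375, 433, 443, 529, 539, 546, 551, 563, 614, 626, 631, 689, 699, 785, 795, 802, 807, 819, 870, 882, 887, 945, 955], [e0_255__271_0, e0_255__271_1, e0_255__271_2, e0_255__271_3, e0_255__271_4, e0_255__271_5, e0_255__271_6, e0_255__271_7, e0_255__271_8, e0_255__271_9, e0_255__271_10, e0_255__271_11, e0_255__271_12, e0_255__271_13, e0_255__271_14, e0_255__271_15, e0_255__271_16, e0_255__271_17, e0_255__271_18, e0_255__271_19, e0_255__271_20, e0_255__271_21, e0_255__271_22, e0_255__271_23, e0_255__271_24, e0_255__271_25, e0_255__271_26, e0_255__271_27, e0_255__271_28, e0_255__271_29, e0_255__271_30, e0_255__271_31, e0_255__271_32, e0_255__271_33, e0_255__271_34, e0_255__271_35, e0_255__271_36, e0_255__271_37, e0_255__271_38, e0_255__271_39], by decide +kernel, by decide +kernel⟩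

end Pool.Agent.Lib_TTT.K5
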