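import Pool.Agent.Lib_TTT.K5Base
import Pool.Agent.Lib_TTT.K5T00

/-! Certificates in `4^5`. -/

set_option autoImplicit false
set_option maxRecDepth 200000

namespace Pool.Agent.Lib_TTT.K5

open Lib_TTT AC DC

def e0_255__283_0 : Ent 5 := ⟨[a0, a255], [a283, a5], (M a341 (F (T t0 (L l455 (T t1 (T t2 (T t3 (K a256 (M a1008 (F (T t4 (T t5 N)))) (K a768 (M a64 (F (T t6 (L l2231 (T t7 (L l2036 (T t8 N))))))) (K a85 (M a192 (L l455 (F (T t9 (T t10 (L l347 (T t11 (K a165 (M a245 (F (T t12 (L l311 (T t13 N))))) (K a245 (M a165 (F (T t12 (L l275 (L l347 (T t11 (T t10 N))))))) N))))))))) (K a597 (M a64 (F (T t14 (L l2511 (T t15 (L l1184 (T t16 N))))))) (K a853 (Fr a682 a1023 l3116 (Fr a170 a85 l476 (Fr a426 a938 l2598 (Fr a768 a597 l3375 (V t402))))) (K a170 (M a192 (F (T t18 (L l2598 (T t10 (L l220 (T t11 N))))))) (K a426 (M a192 (F (T t9 (L l455 (T t19 (L l2598 (T t10 N))))))) (K a682 (M a64 (F (L l2684 (T t20 (L l2598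 (T t8 (L l2598 (L l2684 (T t15 (L l2684 (T t21 N))))))))))) (K a1023 (M a64 (F (T t6 (L l1993 (T t20 (L l1993 (L l2036 (T t8 N)))))))) N))))))))))))))))⟩
def e0_255__283_1 : Ent 5 := ⟨[a0, a255], [a283, a10], (M a192 (F (T t22 (L l54 (T t19 (L l462 (T t23 (L l462 (T t24 (K a64 (M a240 (F (T t25 (L l462 (L l2257 (T t26 (L l54 (L l116 (L l144 (T t27 N)))))))))) (K a128 (M a240 (F (T t25 (L l192 (L l220 (L l462 (L l2257 (T t26 (L l54 (T t27 N)))))))))) (K a85 (M a768 (F (T t28 (L l347 (L l2339 (T t29 (L l347 (L l2339 (T t30 N))))))))) (K a149 (M a768 (F (T t31 (L l347 (T t29 (T t32 N)))))) (K a213 (M a768 (F (T t31 (L l3203 (T t32 (L l462 (T t33 N))))))) (K a106 (M a768 (F (T t28 (T t29 (T t32 N))))) (K a170 (M a768 (L l462 (F (T t31 (T t29 (L l220 (T t30 (K a90 (M a250 (F (T t31 (L l2094 (T t34 N))))) (K a250 (M a90 (F (T t35 (T t29 (L l2598 (L l3354 (T t36 N))))))) N))))))))) (K a234 (M a768 (F (T t31 (T t32 (L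 l390 (L l462 (L l3246 (T t33 N)))))))) (K a63 (M a768 (F (T t37 (L l3159 (T t35 (L l2209 (T t29 N))))))) N))))))))))))))))))⟩
def e0_255__283_2 : Ent 5 := ⟨[a0, a255], [a283, a15], (M a768 (L l2257 (F (T t38 (L l3109 (T t32 (L l3109 (T t39 (L l3109 (T t40 (L l3109 (T t41 (K a256 (M a192 (L l2257 (F (T t42 (L l61 (T t19 (L l824 (L l996 (T t33 (K a819 (M a551 (F (T t43 (L l61 (L l2221 (T t24 (T t44 N))))))) (K a551 (M a819 (F (T t45 (L l61 (T t23 N))))) N))))))))))) (K a512 (M a192 (L l2257 (F (T t46 (L l1516 (L l2245 (T t29 (T t33 (K a819 (M a551 (F (T t47 (L l1597 (L l2245 (T t48 (L l1344 (L l1516 (T t44 N))))))))) (K a551 (M a819 (F (T t49 (L l3121 (T t50 N))))) N)))))))))) (K a85 (M a819 (F (T t51 (L l73 (T t52 (L l2339 (T t53 N))))))) (K a341 (M a819 (F (L l2339 (T t54 (L l73 (L l3005 (T t55 (L l885 (L l996 (T t56 N)))))))))) (K a597 (M a192 (L l2257 (F (T t57 (L l61 (L l2339 (L l3203 (T t19 (L l61 (L l1184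 (L l1516 (L l2339 (L l3203 (T t58 (L l61 (L l2511 (T t59 (K a819 (M a551 (F (T t60 (L l2049 (L l2979 (T t28 (L l61 (L l1184 (L l1516 (L l2221 (L l2339 (L l3203 (T t58 (L l61 (L l2221 (L l2511 (T t59 N))))))))))))))))) (K a551 (M a819 (F (T t60 (L l73 (L l593 (L l1516 (T t61 N))))))) N))))))))))))))))))) (K a170 (M a819 (F (T t54 (L l73 (T t55 (T t53 N)))))) (K a426 (M a192 (L l2257 (F (T t46 (L l2979 (T t35 (L l61 (L l2727 (T t58 (L l61 (L l740 (L l996 (L l2598 (L l3246 (T t59 (K a819 (M a551 (F (T t62 (L l61 (L l2221 (L l2598 (T t24 (L l61 (L l2221 (L l2727 (T t58 (L l61 (L l740 (L l996 (L l2221 (L l2598 (L l3246 (T t59 N)))))))))))))))))) (K a551 (M a819 (F (T t46 (L l73 (L l593 (T t61 N)))))) N))))))))))))))))) (K a682 (M a819 (F (T t63 (L l327 (L l2598 (T t64 (L l1442 (L l1516 (T t53 N))))))))) (K a1023 (M a819 (L l3109 (F (T t51 (L l73 (L l3079 (T t52 (L l2894 (T t53 (K a351 (M a687 (F (T t65 (L l327 (L l2894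 (T t66 (L l2894 (T t53 N)))))))) (K a687 (M a351 (F (T t65 (L l327 (L l2894 (T t66 (L l2894 (T t53 N)))))))) N))))))))))) (K a819 (M a551 (F (T t38 (L l1999 (L l3109 (T t32 (L l1999 (L l3109 (T t39 (L l1999 (L l3109 (T t40 (L l1999 (L l3109 (T t41 (K a256 (M a192 (F (T t43 (L l61 (L l2221 (T t24 (T t44 N))))))) (K a512 (M a192 (F (T t47 (L l1597 (L l2245 (T t48 (L l1344 (L l1516 (T t44 N))))))))) (K a85 (M a192 (F (T t57 (L l1597 (L l2245 (T t48 (L l347 (L l2339 (T t30 N))))))))) (K a341 (M a64 (F (T t6 (L l2049 (L l2979 (T t67 (L l664 (L l996 (T t68 N))))))))) (K a597 (M a192 (F (T t60 (L l2049 (L l2979 (T t28 (L l61 (L l1184 (L l1516 (L l2221 (L l2339 (L l3203 (T t58 (L l61 (L l2221 (L l2511 (T t59 N))))))))))))))))) (K a170 (M a192 (F (T t69 (L l1597 (L l2245 (L l2598 (T t48 (L l220 (T t30 N))))))))) (K a426 (M a192 (F (T t62 (L l61 (L l2221 (L l2598 (T t24 (L l61 (L l2221 (L l2727 (T t58 (L l61 (L l740 (L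 l996 (L l2221 (L l2598 (L l3246 (T t59 N)))))))))))))))))) (K a682 (M a128 (F (T t70 (L l2049 (L l2979 (T t71 (L l1260 (L l1516 (T t72 N))))))))) (K a1023 (M a64 (L l1999 (L l3109 (F (T t73 (L l1856 (L l2049 (L l2979 (T t67 (T t68 (K a887 (M a955 (L l3109 (F (T t73 (L l1856 (L l2049 (L l2979 (T t67 (T t68 (K a351 (M a687 (F (T t73 (L l1856 (L l2049 (L l2979 (T t67 (T t68 N)))))))) (K a687 (M a351 (F (T t73 (L l1856 (L l2049 (L l2979 (T t67 (T t68 N)))))))) N))))))))))) (K a955 (M a887 (L l3109 (F (T t73 (L l1856 (L l2049 (L l2979 (T t67 (T t68 (K a351 (M a687 (F (T t73 (L l1856 (L l2049 (L l2979 (T t67 (T t68 N)))))))) (K a687 (M a351 (F (T t73 (L l1856 (L l2049 (L l2979 (T t67 (T t68 N)))))))) N))))))))))) (K a351 (M a687 (L l1999 (F (T t73 (L l1856 (L l2049 (L l2979 (T t67 (T t68 (K a887 (M a955 (F (T t73 (L l1856 (L l2049 (L l2979 (T t67 (T t68 N)))))))) (K a955 (M a887 (F (T t73 (L l1856 (L l2049 (L l2979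 (T t67 (T t68 N)))))))) N))))))))))) (K a687 (M a351 (L l1999 (F (T t73 (L l1856 (L l2049 (L l2979 (T t67 (T t68 (K a887 (M a955 (F (T t73 (L l1856 (L l2049 (L l2979 (T t67 (T t68 N)))))))) (K a955 (M a887 (F (T t73 (L l1856 (L l2049 (L l2979 (T t67 (T t68 N)))))))) N))))))))))) N)))))))))))))) N)))))))))))))))))))))))) (K a551 (M a819 (F (T t74 (L l73 (T t52 (L l327 (T t75 N))))))) N)))))))))))))))))))))))⟩
def e0_255__283_3 : Ent 5 := ⟨[a0, a255], [a283, a17], (M a341 (F (T t0 (L l365 (T t1 (T t2 (T t3 (K a256 (M a972 (F (T t76 (T t77 N)))) (K a768 (M a64 (F (T t6 (L l2141 (T t7 (L l2036 (T t8 N))))))) (K a85 (M a192 (L l365 (F (T t9 (T t10 (L l347 (T t11 (K a153 (M a221 (F (T t12 (L l341 (T t78 N))))) (K a221 (M a153 (F (T t9 (T t10 (L l243 (L l347 (T t11 N))))))) N))))))))) (K a597 (M a64 (F (T t14 (L l2511 (T t15 (L l1184 (T t16 N))))))) (K a853 (Fr a682 a1023 l3116 (Fr a170 a85 l476 (Fr a426 a938 l2598 (Fr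 a768 a597 l3375 (V t402))))) (K a170 (M a192 (F (T t18 (L l2598 (T t10 (L l220 (T t11 N))))))) (K a426 (M a192 (F (T t9 (L l365 (T t19 (L l2598 (T t10 N))))))) (K a682 (M a64 (F (L l2684 (T t20 (L l2598 (T t8 (L l2598 (L l2684 (T t15 (L l2684 (T t21 N))))))))))) (K a1023 (M a64 (F (T t6 (L l1993 (T t20 (L l1993 (L l2036 (T t8 N)))))))) N))))))))))))))))⟩
def e0_255__283_4 : Ent 5 := ⟨[a0, a255], [a283, a34], (M a192 (F (T t22 (L l26 (T t19 (L l402 (T t23 (L l402 (T t24 (K a64 (M a240 (F (T t79 (L l144 (L l2257 (T t80 (L l402 (T t81 N)))))))) (K a128 (M a240 (F (T t79 (L l2257 (T t80 (L l192 (L l220 (L l402 (T t81 N))))))))) (K a85 (M a768 (F (T t28 (L l347 (L l2339 (T t29 (L l347 (L l2339 (T t30 N))))))))) (K a149 (M a768 (F (T t31 (L l347 (T t29 (T t32 N)))))) (K a213 (M a768 (F (T t31 (L l3203 (T t32 (L l402 (T t33 N))))))) (K a106 (M a768 (F (T t28 (T t29 (T t32 N))))) (K a170 (M a768 (L l402 (F (T t31 (T t29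 (L l220 (T t30 (K a102 (M a238 (F (T t31 (L l2154 (L l2257 (T t82 N)))))) (K a238 (M a102 (F (T t35 (T t29 (L l2598 (L l3264 (T t36 N))))))) N))))))))) (K a234 (M a768 (F (T t31 (T t32 (L l390 (L l402 (L l3246 (T t33 N)))))))) (K a63 (M a768 (F (T t37 (L l3159 (T t35 (L l2209 (T t29 N))))))) N))))))))))))))))))⟩
def e0_255__283_5 : Ent 5 := ⟨[a0, a255], [a283, a39], (M a192 (F (T t19 (T t23 (T t22 (T t24 (K a64 (M a240 (F (T t79 (L l73 (L l144 (L l2257 (T t80 (T t81 N)))))))) (K a128 (M a240 (F (T t79 (L l73 (L l2257 (T t80 (L l192 (L l220 (T t81 N))))))))) (K a85 (M a768 (F (T t28 (L l347 (L l2339 (T t29 (L l347 (L l2339 (T t30 N))))))))) (K a149 (M a768 (F (T t40 (T t35 (L l347 (T t29 N)))))) (K a213 (M a768 (F (T t31 (L l3203 (T t32 (T t33 N)))))) (K a106 (M a768 (F (T t40 (T t35 (T t29 N))))) (K a170 (M a768 (F (T t31 (T t29 (L l220 (T t30 N)))))) (K a234 (M a768 (F (T t31 (T t32 (L l390 (L l3246 (T t33 N)))))))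 (K a63 (M a768 (F (T t83 (L l3159 (T t35 (L l2209 (T t29 N))))))) N)))))))))))))))⟩
def e0_255__283_6 : Ent 5 := ⟨[a0, a255], [a283, a51], (M a192 (F (T t46 (L l37 (T t19 (L l37 (T t23 (L l37 (T t22 (L l37 (T t24 (K a64 (M a240 (F (T t84 (L l73 (L l144 (L l2257 (T t80 (T t81 N)))))))) (K a128 (M a240 (F (T t84 (L l73 (L l2257 (T t80 (L l192 (L l220 (T t81 N))))))))) (K a85 (M a768 (F (T t85 (L l3129 (T t35 (L l347 (L l2339 (T t30 N)))))))) (K a149 (M a768 (F (T t49 (L l3129 (T t35 (L l3079 (T t32 N))))))) (K a213 (M a768 (F (T t62 (L l3079 (L l3203 (T t32 (T t33 N))))))) (K a106 (M a768 (F (T t43 (L l3129 (T t35 (L l3079 (T t32 N))))))) (K a170 (M a768 (F (T t42 (L l3129 (T t35 (L l220 (T t30 N))))))) (K a234 (M a768 (F (T t37 (L l3129 (T t35 (L l390 (L l3246 (T t33 N)))))))) (K a63 (M a768 (L l37 (F (T t38 (L l3129 (L l3159 (T t35 (L l2209 (L l2215 (T t29 (K a55 (M a59 (F (T t74 (L l2209 (L l2215 (T t48 (L l3129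 (L l3159 (T t86 N))))))))) (K a59 (M a55 (F (T t74 (L l2209 (L l2215 (T t48 (L l3129 (L l3159 (T t86 N))))))))) N)))))))))))) N))))))))))))))))))))⟩
def e0_255__283_7 : Ent 5 := ⟨[a0, a255], [a283, a68], (M a341 (F (T t0 (L l126 (T t1 (T t2 (T t3 (K a256 (M a64 (F (T t15 (L l588 (T t7 (L l824 (T t8 N))))))) (K a768 (M a64 (F (T t7 (L l2295 (T t15 (L l2036 (T t8 N))))))) (K a85 (M a48 (L l126 (F (T t87 (T t88 (L l123 (T t89 (K a102 (M a119 (F (T t90 (L l122 (T t91 N))))) (K a119 (M a102 (F (T t87 (T t88 (L l107 (L l123 (T t89 N))))))) N))))))))) (K a597 (M a64 (F (T t92 (L l2511 (T t15 (L l1184 (T t16 N))))))) (K a853 (Fr a682 a1023 l3116 (Fr a170 a85 l476 (Fr a426 a938 l2598 (Fr a768 a597 l3375 (V t402))))) (K a170 (M a192 (F (L l220 (T t9 (L l2598 (T t10 (L l220 (T t11 N)))))))) (K a426 (M a192 (F (T t9 (L l126 (T t19 (L l2598 (T t10 N))))))) (K a682 (M a64 (F (L l2684 (T t20 (L l2598 (T t8 (L l2598 (L l2684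 (T t15 (L l2684 (T t21 N))))))))))) (K a1023 (M a64 (F (T t73 (L l1993 (T t20 (L l1993 (L l2036 (T t8 N)))))))) N))))))))))))))))⟩
def e0_255__283_8 : Ent 5 := ⟨[a0, a255], [a283, a80], (M a341 (F (T t0 (L l94 (T t1 (T t2 (T t3 (K a256 (M a64 (F (T t15 (L l588 (T t7 (L l824 (T t8 N))))))) (K a768 (M a64 (F (T t7 (L l2295 (T t15 (L l2036 (T t8 N))))))) (K a85 (M a12 (L l94 (F (T t93 (T t94 (L l91 (T t95 (K a90 (M a95 (F (T t96 (L l90 (T t97 N))))) (K a95 (M a90 (F (T t93 (T t94 (L l89 (L l91 (T t95 N))))))) N))))))))) (K a597 (M a64 (F (T t92 (L l2511 (T t15 (L l1184 (T t16 N))))))) (K a853 (Fr a682 a1023 l3116 (Fr a170 a85 l476 (Fr a426 a938 l2598 (Fr a768 a597 l3375 (V t402))))) (K a170 (M a192 (F (L l220 (T t9 (L l2598 (T t10 (L l220 (T t11 N)))))))) (K a426 (M a192 (F (T t9 (L l94 (T t19 (L l2598 (T t10 N))))))) (K a682 (M a64 (F (L l2684 (T t20 (L l2598 (T t8 (L l2598 (L l2684 (T t15 (L l2684 (T t21 N)))))))))))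 (K a1023 (M a64 (F (T t73 (L l1993 (T t20 (L l1993 (L l2036 (T t8 N)))))))) N))))))))))))))))⟩
def e0_255__283_9 : Ent 5 := ⟨[a0, a255], [a283, a90], (M a341 (F (T t3 (L l462 (T t0 (L l94 (T t1 (L l462 (T t2 (K a256 (M a204 (F (T t98 (L l462 (T t99 N))))) (K a768 (M a64 (F (T t7 (L l462 (L l2295 (T t15 (L l462 (L l2036 (T t8 N))))))))) (K a85 (M a240 (L l94 (F (T t100 (L l455 (T t101 (T t102 (K a80 (M a95 (F (T t103 (T t102 (L l462 (L l2332 (T t104 (L l462 (L l877 (L l2346 (T t105 N))))))))))) (K a95 (Fr a80 a160 l448 (V t106)) N))))))))) (K a597 (M a64 (F (T t92 (L l462 (L l2511 (T t15 (L l130 (L l462 (L l1184 (T t16 N)))))))))) (K a853 (Fr a682 a1023 l3116 (Fr a170 a85 l476 (Fr a426 a938 l2598 (Fr a768 a597 l3375 (V t402))))) (K a170 (M a192 (L l462 (F (T t18 (L l2598 (T t10 (L l220 (T t11 (K a10 (M a250 (F (T t107 (L l318 (T t108 N))))) (K a250 (M a10 (F (L l2850 (T t109 (L l220 (T t11 N)))))) N)))))))))) (K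 a426 (M a192 (F (T t9 (L l94 (T t19 (L l2598 (T t10 N))))))) (K a682 (M a64 (F (L l2684 (T t20 (L l462 (L l2598 (T t8 (L l462 (L l2598 (L l2684 (T t15 (L l2684 (T t21 N))))))))))))) (K a1023 (M a64 (F (L l462 (T t73 (L l1993 (T t20 (L l462 (L l1993 (L l2036 (T t8 N)))))))))) N))))))))))))))))))⟩
def e0_255__283_10 : Ent 5 := ⟨[a0, a255], [a283, a95], (M a252 (F (T t110 (L l94 (T t111 (L l93 (T t112 (L l94 (T t113 (K a84 (M a192 (F (T t114 (L l87 (L l94 (T t19 (L l87 (L l94 (L l140 (T t115 N)))))))))) (K a168 (M a192 (F (T t116 (L l94 (T t19 (L l94 (L l388 (T t115 N)))))))) (K a85 (M a240 (L l94 (F (T t117 (L l89 (T t118 (L l87 (L l455 (L l473 (T t119 (L l89 (L l458 (T t120 (K a80 (M a90 (F (L l455 (T t121 (L l86 (L l87 (L l2239 (T t122 (T t117 N))))))))) (K a90 (Fr a80 a160 l448 (V t123)) N))))))))))))))) (K a169 (M a768 (F (T t124 (L l473 (L l2367 (T t125 (L l2367 (T t32 N)))))))) (K a253 (M a768 (F (T t126 (L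 l2367 (L l3371 (T t32 (L l94 (L l473 (L l2367 (L l3371 (T t127 N))))))))))) (K a86 (M a768 (F (T t126 (L l2367 (T t125 (L l2367 (T t32 N))))))) (K a170 (M a768 (F (T t128 (L l2367 (T t125 (L l174 (L l2367 (T t129 N)))))))) (K a254 (M a768 (F (T t126 (L l2367 (T t32 (L l94 (L l2367 (T t127 N)))))))) (K a3 (M a768 (F (T t74 (L l3117 (T t124 (L l2083 (L l2367 (T t125 N)))))))) N))))))))))))))))))⟩
def e0_255__283_11 : Ent 5 := ⟨[a0, a255], [a283, a102], (M a341 (F (T t3 (L l402 (T t0 (L l126 (T t1 (L l402 (T t2 (K a256 (M a64 (F (T t130 (L l402 (T t15 (L l402 (L l824 (T t8 N)))))))) (K a768 (M a64 (F (T t7 (L l402 (L l2295 (T t15 (L l402 (L l2036 (T t8 N))))))))) (K a85 (M a48 (L l126 (F (T t87 (T t88 (L l123 (T t89 (K a68 (M a119 (F (T t90 (L l122 (T t91 N))))) (K a119 (M a68 (F (T t87 (L l365 (L l2413 (T t131 N)))))) N))))))))) (K a597 (M a64 (F (T t92 (L l402 (L l2511 (T t15 (L l102 (L l402 (L l1184 (T t16 N))))))))))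 (K a853 (Fr a682 a1023 l3116 (Fr a170 a85 l476 (Fr a426 a938 l2598 (Fr a768 a597 l3375 (V t402))))) (K a170 (M a192 (L l402 (F (T t18 (L l2598 (T t10 (L l220 (T t11 (K a34 (M a238 (F (T t107 (L l378 (T t132 N))))) (K a238 (M a34 (F (L l2820 (T t133 (L l220 (T t11 N)))))) N)))))))))) (K a426 (M a192 (F (T t9 (L l126 (T t19 (L l2598 (T t10 N))))))) (K a682 (M a64 (F (L l2684 (T t20 (L l402 (L l2598 (T t8 (L l402 (L l2598 (L l2684 (T t15 (L l2684 (T t21 N))))))))))))) (K a1023 (M a64 (F (L l402 (T t73 (L l1993 (T t20 (L l402 (L l1993 (L l2036 (T t8 N)))))))))) N))))))))))))))))))⟩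
def e0_255__283_12 : Ent 5 := ⟨[a0, a255], [a283, a119], (M a192 (F (T t23 (L l126 (T t19 (L l126 (T t22 (L l113 (T t24 (K a64 (M a240 (F (T t79 (L l126 (L l144 (L l2257 (T t80 (T t81 N)))))))) (K a128 (M a240 (F (T t79 (L l126 (L l2257 (T t80 (L l192 (L l220 (T t81 N))))))))) (K a85 (M a768 (L l126 (F (T t28 (L l347 (L l2339 (L l2487 (T t29 (L l347 (L l2339 (L l2487 (T t30 (K a68 (M a102 (F (T t35 (L l347 (L l2339 (L l2487 (T t29 (L l80 (L l144 (T t36 N)))))))))) (K a102 (M a68 (F (T t35 (L l365 (L l2257 (L l2339 (L l2487 (T t134 N)))))))) N)))))))))))))) (K a149 (M a768 (F (T t31 (L l347 (L l2487 (T t29 (L l2487 (T t32 N)))))))) (K a213 (M a768 (F (T t31 (L l2487 (L l3203 (T t32 (T t33 N))))))) (K a106 (M a768 (F (T t35 (L l2487 (T t29 (L l2487 (T t32 N))))))) (K a170 (M a768 (F (T t31 (L l2487 (T t29 (L l220 (L l2487 (T t30 N)))))))) (K a234 (M a768 (F (T t31 (L l2487 (T t32 (L l390 (L l3246 (T t33 N))))))))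 (K a63 (M a768 (F (T t74 (L l3159 (T t35 (L l2209 (L l2487 (T t29 N)))))))) N))))))))))))))))))⟩
def e0_255__283_13 : Ent 5 := ⟨[a0, a255], [a283, a136], (M a48 (F (T t135 (L l154 (T t136 (L l208 (T t137 (L l208 (T t138 (K a16 (M a240 (F (T t139 (L l340 (L l368 (L l2257 (T t140 (L l208 (T t141 N))))))))) (K a32 (M a240 (F (T t139 (L l2257 (T t140 (L l208 (L l376 (L l404 (T t141 N))))))))) (K a85 (M a768 (F (T t142 (L l123 (L l2339 (T t143 (L l123 (L l2339 (T t144 N))))))))) (K a101 (M a768 (F (T t145 (L l123 (T t143 (T t32 N)))))) (K a117 (M a768 (F (T t145 (L l2483 (T t32 (L l208 (T t146 N))))))) (K a154 (M a768 (F (T t142 (T t143 (T t32 N))))) (K a170 (M a768 (L l208 (F (T t145 (T t143 (L l404 (T t144 (K a153 (M a187 (F (T t145 (L l2524 (T t147 N))))) (K a187 (M a153 (F (T t148 (T t143 (L l2598 (L l2709 (T t149 N))))))) N))))))))) (K a186 (M a768 (F (T t145 (T t32 (L l206 (L l208 (L l2706 (T t146 N)))))))) (K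 a207 (M a768 (F (T t37 (L l3339 (T t148 (L l2749 (T t143 N))))))) N))))))))))))))))))⟩
def e0_255__283_14 : Ent 5 := ⟨[a0, a255], [a283, a153], (M a341 (F (T t3 (L l208 (T t0 (L l365 (T t1 (L l208 (T t2 (K a256 (M a64 (F (T t130 (L l208 (T t15 (L l208 (L l824 (T t8 N)))))))) (K a768 (M a64 (F (T t7 (L l208 (L l2295 (T t15 (L l208 (L l2036 (T t8 N))))))))) (K a85 (M a192 (L l365 (F (T t9 (T t10 (L l347 (T t11 (K a17 (M a221 (F (T t12 (L l341 (T t78 N))))) (K a221 (M a17 (F (T t9 (L l126 (L l2783 (T t150 N)))))) N))))))))) (K a597 (M a64 (F (T t92 (L l208 (L l2511 (T t15 (L l208 (L l501 (L l1184 (T t16 N)))))))))) (K a853 (Fr a682 a1023 l3116 (Fr a170 a85 l476 (Fr a426 a938 l2598 (Fr a768 a597 l3375 (V t402))))) (K a170 (M a192 (L l208 (F (T t18 (L l2598 (T t10 (L l220 (T t11 (K a136 (M a187 (F (T t18 (L l402 (L l2524 (T t151 N)))))) (K a187 (M a136 (F (T t107 (L l390 (L l402 (T t152 N)))))) N)))))))))) (K a426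 (M a192 (F (T t9 (L l365 (T t19 (L l2598 (T t10 N))))))) (K a682 (M a64 (F (L l2684 (T t20 (L l208 (L l2598 (T t8 (L l208 (L l2598 (L l2684 (T t15 (L l2684 (T t21 N))))))))))))) (K a1023 (M a64 (F (L l208 (T t73 (L l1993 (T t20 (L l208 (L l1993 (L l2036 (T t8 N)))))))))) N))))))))))))))))))⟩
def e0_255__283_15 : Ent 5 := ⟨[a0, a255], [a283, a160], (M a12 (F (T t153 (L l172 (T t154 (L l180 (T t155 (L l180 (T t156 (K a4 (M a204 (F (T t157 (L l310 (L l458 (T t158 (L l172 (L l310 (L l458 (T t159 N)))))))))) (K a8 (M a204 (F (T t157 (T t158 (L l172 (T t159 N)))))) (K a85 (M a768 (F (T t160 (L l91 (L l2339 (T t161 (L l91 (L l2339 (T t162 N))))))))) (K a89 (M a768 (F (T t163 (L l91 (T t161 (T t32 N)))))) (K a93 (M a768 (F (T t163 (L l2363 (T t32 (L l91 (L l2363 (T t164 N)))))))) (K a166 (M a768 (F (T t160 (T t161 (T t32 N))))) (K a170 (M a768 (L l180 (F (T t163 (T t161 (L l464 (T t162 (K a165 (M a175 (F (T t163 (L l2584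 (T t165 N))))) (K a175 (M a165 (F (T t166 (T t161 (L l2598 (L l2619 (T t167 N))))))) N))))))))) (K a174 (M a768 (F (T t163 (T t32 (T t164 N))))) (K a243 (M a768 (F (T t37 (L l3369 (T t166 (L l2839 (T t161 N))))))) N))))))))))))))))))⟩
def e0_255__283_16 : Ent 5 := ⟨[a0, a255], [a283, a165], (M a341 (F (T t3 (L l180 (T t0 (L l455 (T t1 (L l180 (T t2 (K a256 (M a204 (F (T t98 (L l180 (T t99 N))))) (K a768 (M a64 (F (T t7 (L l180 (L l2295 (T t15 (L l180 (L l2036 (T t8 N))))))))) (K a85 (M a192 (L l455 (F (T t9 (T t10 (L l347 (T t11 (K a5 (M a245 (F (T t12 (L l311 (T t13 N))))) (K a245 (M a5 (F (T t9 (L l94 (L l2843 (T t168 N)))))) N))))))))) (K a597 (M a64 (F (T t92 (L l180 (L l2511 (T t15 (L l180 (L l411 (L l1184 (T t16 N)))))))))) (K a853 (Fr a682 a1023 l3116 (Fr a170 a85 l476 (Fr a426 a938 l2598 (Fr a768 a597 l3375 (V t402))))) (K a170 (M a192 (L l180 (F (T t18 (L l2598 (T t10 (L l220 (T t11 (K a160 (M a175 (F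 (T t18 (L l462 (L l2584 (T t169 N)))))) (K a175 (M a160 (F (T t107 (L l390 (L l462 (T t170 N)))))) N)))))))))) (K a426 (M a192 (F (T t9 (L l455 (T t19 (L l2598 (T t10 N))))))) (K a682 (M a64 (F (L l2684 (T t20 (L l180 (L l2598 (T t8 (L l180 (L l2598 (L l2684 (T t15 (L l2684 (T t21 N))))))))))))) (K a1023 (M a64 (F (L l180 (T t73 (L l1993 (T t20 (L l180 (L l1993 (L l2036 (T t8 N)))))))))) N))))))))))))))))))⟩
def e0_255__283_17 : Ent 5 := ⟨[a0, a255], [a283, a175], (M a252 (F (T t113 (L l179 (T t111 (L l180 (T t112 (L l180 (T t110 (K a84 (M a192 (F (T t114 (L l87 (T t19 (L l87 (L l140 (L l213 (T t115 N))))))))) (K a168 (M a192 (F (T t19 (T t171 (L l213 (L l388 (T t115 N))))))) (K a85 (M a768 (F (T t126 (L l473 (L l2339 (T t125 (L l2339 (T t129 N)))))))) (K a169 (M a768 (F (T t128 (L l473 (T t125 (T t32 N)))))) (K a253 (M a768 (F (T t126 (L l3371 (T t32 (L l473 (L l2617 (L l3371 (T t127 N))))))))) (K a86 (M a768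 (F (T t126 (T t125 (T t32 N))))) (K a170 (M a240 (L l180 (F (T t172 (L l175 (T t173 (L l175 (L l464 (T t174 (L l174 (L l462 (L l474 (T t175 (K a160 (M a165 (F (L l462 (T t176 (L l474 (L l2239 (L l2257 (T t177 (L l464 (T t178 N)))))))))) (K a165 (Fr a160 a80 l448 (V t179)) N))))))))))))))) (K a254 (M a768 (F (T t126 (T t32 (L l2617 (T t127 N)))))) (K a3 (M a768 (F (T t38 (L l3117 (T t124 (L l2083 (T t125 N))))))) N))))))))))))))))))⟩
def e0_255__283_18 : Ent 5 := ⟨[a0, a255], [a283, a187], (M a192 (F (T t19 (L l208 (T t23 (L l189 (T t22 (L l208 (T t24 (K a64 (M a240 (F (T t79 (L l144 (L l2257 (T t80 (L l208 (T t81 N)))))))) (K a128 (M a240 (F (T t79 (L l2257 (T t80 (L l192 (L l208 (L l220 (T t81 N))))))))) (K a85 (M a768 (F (T t28 (L l347 (L l2339 (T t29 (L l347 (L l2339 (T t30 N))))))))) (K a149 (M a768 (F (T t31 (L l347 (T t29 (T t32 N)))))) (K a213 (M a768 (F (T t31 (L l3203 (T t32 (L l208 (L l2709 (T t33 N))))))))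 (K a106 (M a768 (F (T t28 (T t29 (T t32 N))))) (K a170 (M a768 (L l208 (F (T t31 (T t29 (L l220 (T t30 (K a136 (M a153 (F (T t35 (T t29 (L l2598 (L l2709 (T t36 N))))))) (K a153 (M a136 (F (T t35 (L l2257 (L l2598 (L l2709 (T t180 N))))))) N))))))))) (K a234 (M a768 (F (T t31 (T t32 (L l208 (L l390 (L l2709 (L l3246 (T t33 N))))))))) (K a63 (M a768 (F (T t37 (L l3159 (T t35 (L l2209 (T t29 N))))))) N))))))))))))))))))⟩
def e0_255__283_19 : Ent 5 := ⟨[a0, a255], [a283, a204], (M a192 (F (T t46 (L l507 (T t19 (L l507 (T t23 (L l507 (T t22 (L l507 (T t24 (K a64 (M a240 (F (T t84 (L l144 (L l327 (L l2257 (T t80 (T t81 N)))))))) (K a128 (M a240 (F (T t84 (L l327 (L l2257 (T t80 (L l192 (L l220 (T t81 N))))))))) (K a85 (M a768 (F (T t85 (L l2758 (T t35 (L l347 (L l2339 (T t30 N)))))))) (K a149 (M a768 (F (T t49 (L l2758 (T t35 (L l2894 (T t32 N))))))) (K a213 (M a768 (F (T t62 (L l2894 (L l3203 (T t32 (T t33 N)))))))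 (K a106 (M a768 (F (T t43 (L l2758 (T t35 (L l2894 (T t32 N))))))) (K a170 (M a768 (F (T t42 (L l2758 (T t35 (L l220 (T t30 N))))))) (K a234 (M a768 (F (T t37 (L l2758 (T t35 (L l390 (L l3246 (T t33 N)))))))) (K a63 (M a768 (L l507 (F (T t38 (L l2758 (L l3159 (T t35 (L l2209 (L l3326 (T t29 (K a157 (M a110 (F (T t74 (L l2209 (L l3326 (T t48 (L l2758 (L l3159 (T t86 N))))))))) (K a110 (M a157 (F (T t74 (L l2209 (L l3326 (T t48 (L l2758 (L l3159 (T t86 N))))))))) N)))))))))))) N))))))))))))))))))))⟩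
def e0_255__283_20 : Ent 5 := ⟨[a0, a255], [a283, a216], (M a192 (F (T t19 (T t23 (T t22 (T t24 (K a64 (M a240 (F (T t79 (L l144 (L l2257 (T t80 (T t81 N))))))) (K a128 (M a240 (F (T t79 (L l2257 (T t80 (L l192 (L l220 (T t81 N)))))))) (K a85 (M a768 (F (T t28 (L l347 (L l2339 (T t29 (L l347 (L l2339 (T t30 N))))))))) (K a149 (M a768 (F (T t40 (T t35 (L l347 (T t29 N)))))) (K a213 (M a768 (F (T t31 (L l3203 (T t32 (T t33 N)))))) (K a106 (M a768 (F (T t40 (T t35 (T t29 N))))) (K a170 (M a768 (F (T t31 (T t29 (L l220 (T t30 N)))))) (K a234 (M a768 (F (T t31 (T t32 (L l390 (L l3246 (T t33 N))))))) (K a63 (M a768 (F (T t83 (L l3159 (T t35 (L l2209 (T t29 N))))))) N)))))))))))))))⟩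
def e0_255__283_21 : Ent 5 := ⟨[a0, a255], [a283, a221], (M a48 (F (T t137 (L l365 (T t136 (L l365 (T t135 (L l241 (T t138 (K a16 (M a240 (F (T t139 (L l340 (L l365 (L l368 (L l2257 (T t140 (T t141 N))))))))) (K a32 (M a240 (F (T t139 (L l365 (L l2257 (T t140 (L l376 (L l404 (T t141 N))))))))) (K a85 (M a768 (L l365 (F (T t142 (L l123 (L l2339 (L l3227 (T t143 (L l123 (L l2339 (L l3227 (T t144 (K a17 (M a153 (F (T t148 (L l123 (L l2339 (L l3227 (T t143 (L l10 (L l368 (T t149 N)))))))))) (K a153 (M a17 (F (T t148 (L l126 (L l2339 (L l3227 (T t181 N))))))) N)))))))))))))) (K a101 (M a768 (F (T t145 (L l123 (L l3227 (T t143 (L l3227 (T t32 N)))))))) (K a117 (M a768 (F (T t145 (L l2483 (L l3227 (T t32 (T t146 N))))))) (K a154 (M a768 (F (T t148 (L l3227 (T t143 (L l3227 (T t32 N))))))) (K a170 (M a768 (F (T t145 (L l3227 (T t143 (L l404 (L l3227 (T t144 N)))))))) (K a186 (M a768 (F (T t145 (L l3227 (T t32 (L l206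 (L l2706 (T t146 N)))))))) (K a207 (M a768 (F (T t74 (L l3339 (T t148 (L l2749 (L l3227 (T t143 N)))))))) N))))))))))))))))))⟩
def e0_255__283_22 : Ent 5 := ⟨[a0, a255], [a283, a238], (M a48 (F (T t136 (L l402 (T t137 (L l251 (T t135 (L l402 (T t138 (K a16 (M a240 (F (T t139 (L l340 (L l368 (L l2257 (T t140 (L l402 (T t141 N))))))))) (K a32 (M a240 (F (T t139 (L l2257 (T t140 (L l376 (L l402 (L l404 (T t141 N))))))))) (K a85 (M a768 (F (T t142 (L l123 (L l2339 (T t143 (L l123 (L l2339 (T t144 N))))))))) (K a101 (M a768 (F (T t145 (L l123 (T t143 (T t32 N)))))) (K a117 (M a768 (F (T t145 (L l2483 (T t32 (L l402 (L l3264 (T t146 N)))))))) (K a154 (M a768 (F (T t142 (T t143 (T t32 N))))) (K a170 (M a768 (L l402 (F (T t145 (T t143 (L l404 (T t144 (K a34 (M a102 (F (T t148 (T t143 (L l2598 (L l3264 (T t149 N))))))) (K a102 (M a34 (F (T t148 (L l2598 (L l3264 (T t182 N)))))) N))))))))) (K a186 (M a768 (F (T t145 (T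 t32 (L l206 (L l402 (L l2706 (L l3264 (T t146 N))))))))) (K a207 (M a768 (F (T t37 (L l3339 (T t148 (L l2749 (T t143 N))))))) N))))))))))))))))))⟩
def e0_255__283_23 : Ent 5 := ⟨[a0, a255], [a283, a240], (M a192 (F (T t46 (L l447 (T t19 (L l447 (T t23 (L l447 (T t22 (L l447 (T t24 (K a64 (M a204 (F (T t183 (L l144 (L l417 (T t184 (L l80 (L l144 (T t185 N))))))))) (K a128 (M a204 (F (T t186 (L l258 (T t187 (T t185 N)))))) (K a85 (M a768 (F (T t85 (L l2908 (T t35 (L l347 (L l2339 (T t30 N)))))))) (K a149 (M a768 (F (T t49 (L l2908 (T t35 (L l2864 (T t32 N))))))) (K a213 (M a768 (F (T t62 (L l2864 (L l3203 (T t32 (T t33 N))))))) (K a106 (M a768 (F (T t43 (L l2908 (T t35 (L l2864 (T t32 N))))))) (K a170 (M a768 (F (T t42 (L l2908 (T t35 (L l220 (T t30 N))))))) (K a234 (M a768 (F (T t37 (L l2908 (T t35 (L l390 (L l3246 (T t33 N)))))))) (K a63 (M a768 (L l447 (F (T t38 (L l2908 (L l3159 (T t35 (L l2209 (L l3296 (T t29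 (K a181 (M a122 (F (T t74 (L l2209 (L l3296 (T t48 (L l2908 (L l3159 (T t86 N))))))))) (K a122 (M a181 (F (T t74 (L l2209 (L l3296 (T t48 (L l2908 (L l3159 (T t86 N))))))))) N)))))))))))) N))))))))))))))))))))⟩
def e0_255__283_24 : Ent 5 := ⟨[a0, a255], [a283, a245], (M a12 (F (T t155 (L l455 (T t154 (L l455 (T t153 (L l259 (T t156 (K a4 (M a204 (F (T t157 (L l310 (L l455 (L l458 (T t158 (L l310 (L l455 (L l458 (T t159 N))))))))))) (K a8 (M a204 (F (T t157 (L l455 (T t158 (L l455 (T t159 N))))))) (K a85 (M a768 (L l455 (F (T t160 (L l91 (L l2339 (L l3347 (T t161 (L l91 (L l2339 (L l3347 (T t162 (K a5 (M a165 (F (T t166 (L l91 (L l2339 (L l3347 (T t161 (L l1 (L l458 (T t167 N)))))))))) (K a165 (M a5 (F (T t160 (L l2339 (L l3347 (T t188 N)))))) N)))))))))))))) (K a89 (M a768 (F (T t163 (L l91 (L l3347 (T t161 (L l3347 (T t32 N)))))))) (K a93 (M a768 (F (T t163 (L l2363 (L l3347 (T t32 (L l91 (L l455 (L l2363 (L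 l3347 (T t164 N))))))))))) (K a166 (M a768 (F (T t166 (L l3347 (T t161 (L l3347 (T t32 N))))))) (K a170 (M a768 (F (T t163 (L l3347 (T t161 (L l464 (L l3347 (T t162 N)))))))) (K a174 (M a768 (F (T t163 (L l3347 (T t32 (L l455 (L l3347 (T t164 N)))))))) (K a243 (M a768 (F (T t74 (L l3369 (T t166 (L l2839 (L l3347 (T t161 N)))))))) N))))))))))))))))))⟩
def e0_255__283_25 : Ent 5 := ⟨[a0, a255], [a283, a250], (M a12 (F (T t154 (L l462 (T t155 (L l260 (T t153 (L l462 (T t156 (K a4 (M a204 (F (T t157 (L l310 (L l458 (T t158 (L l310 (L l458 (T t159 N))))))))) (K a8 (M a204 (F (T t157 (T t158 (T t159 N))))) (K a85 (M a768 (F (T t160 (L l91 (L l2339 (T t161 (L l91 (L l2339 (T t162 N))))))))) (K a89 (M a768 (F (T t163 (L l91 (T t161 (T t32 N)))))) (K a93 (M a768 (F (T t163 (L l2363 (T t32 (L l91 (L l2363 (T t164 N)))))))) (K a166 (M a768 (F (T t160 (T t161 (T t32 N))))) (K a170 (M a768 (L l462 (F (T t163 (T t161 (L l464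 (T t162 (K a10 (M a90 (F (T t166 (T t161 (L l2598 (L l3354 (T t167 N))))))) (K a90 (M a10 (F (T t166 (L l180 (L l2598 (L l3354 (T t189 N))))))) N))))))))) (K a174 (M a768 (F (T t163 (T t32 (T t164 N))))) (K a243 (M a768 (F (T t37 (L l3369 (T t166 (L l2839 (T t161 N))))))) N))))))))))))))))))⟩
def e0_255__283_26 : Ent 5 := ⟨[a0, a255], [a283, a256], (M a204 (F (T t158 (T t184 (T t190 (T t191 (K a68 (M a192 (F (T t192 (L l126 (T t19 (L l126 (T t193 N))))))) (K a136 (M a192 (F (T t192 (T t19 (L l316 (T t193 N)))))) (K a85 (M a409 (F (T t194 (L l126 (L l2257 (T t195 (L l126 (T t196 N)))))))) (K a153 (M a128 (F (T t197 (L l365 (T t198 (L l167 (L l365 (T t199 N)))))))) (K a221 (M a64 (F (T t200 (T t15 (L l359 (T t201 N)))))) (K a102 (M a64 (F (T t202 (L l402 (T t15 (L l102 (L l402 (T t201 N)))))))) (K a170 (M a409 (F (T t203 (L l402 (L l848 (T t204 (L l402 (T t196 N)))))))) (K a238 (M a64 (F (T t200 (L l402 (T t15 (L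 l402 (T t201 N))))))) (K a51 (M a341 (F (T t205 (T t99 N)))) N)))))))))))))))⟩
def e0_255__283_27 : Ent 5 := ⟨[a0, a255], [a283, a261], (M a192 (F (T t19 (T t23 (T t22 (T t24 (K a64 (M a240 (F (T t79 (L l144 (L l2257 (T t80 (T t81 N))))))) (K a128 (M a240 (F (T t79 (L l2257 (T t80 (L l192 (L l220 (T t81 N)))))))) (K a85 (M a768 (F (T t86 (L l347 (L l2339 (T t29 (L l347 (L l2339 (T t30 N))))))))) (K a149 (M a768 (F (T t31 (L l347 (T t29 (T t32 N)))))) (K a213 (M a768 (F (T t31 (L l3203 (T t32 (T t33 N)))))) (K a106 (M a768 (F (T t86 (T t29 (T t32 N))))) (K a170 (M a768 (F (T t31 (T t29 (L l220 (T t30 N)))))) (K a234 (M a768 (F (T t31 (T t32 (L l390 (L l3246 (T t33 N))))))) (K a63 (M a768 (F (T t37 (L l3159 (T t35 (L l2209 (T t29 N))))))) N)))))))))))))))⟩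
def e0_255__283_28 : Ent 5 := ⟨[a0, a255], [a283, a266], (M a192 (F (T t19 (T t23 (T t22 (T t24 (K a64 (M a240 (F (T t79 (L l144 (L l2094 (L l2115 (L l2257 (T t80 (T t81 N))))))))) (K a128 (M a240 (F (T t79 (L l2094 (L l2115 (L l2257 (T t80 (L l192 (L l220 (T t81 N)))))))))) (K a85 (M a768 (F (T t86 (L l347 (L l2339 (T t29 (L l347 (L l2339 (T t30 N))))))))) (K a149 (M a768 (F (T t31 (L l347 (T t29 (T t32 N)))))) (K a213 (M a768 (F (T t31 (L l3203 (T t32 (L l982 (T t33 N))))))) (K a106 (M a768 (F (T t86 (T t29 (T t32 N))))) (K a170 (M a768 (F (T t31 (T t29 (L l220 (T t30 N)))))) (K a234 (M a768 (F (T t31 (T t32 (L l390 (L l982 (L l3246 (T t33 N)))))))) (K a63 (M a768 (F (T t37 (L l3159 (T t35 (L l2209 (T t29 N))))))) N)))))))))))))))⟩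
def e0_255__283_29 : Ent 5 := ⟨[a0, a255], [a283, a271], (M a48 (L l593 (F (T t136 (T t137 (T t135 (T t138 (K a16 (M a240 (L l593 (F (T t139 (L l340 (L l368 (L l2101 (L l2257 (T t140 (T t141 (K a307 (M a295 (F (T t206 (L l2101 (L l2257 (T t207 (L l340 (L l368 (T t208 N))))))))) (K a295 (M a307 (F (T t206 (L l2101 (L l2257 (T t207 (L l340 (L l368 (T t208 N))))))))) N)))))))))))) (K a32 (M a49 (L l593 (F (T t209 (T t210 (L l404 (T t211 (L l404 (T t212 (K a307 (M a295 (F (L l2131 (T t213 (L l404 (T t211 N)))))) (K a295 (M a307 (F (T t214 (L l404 (T t211 N))))) N))))))))))) (K a85 (M a768 (L l593 (F (T t215 (L l123 (L l2339 (T t143 (L l123 (L l2339 (T t144 (K a307 (M a295 (F (T t216 (T t215 (L l123 (L l2339 (T t144 N))))))) (K a295 (M a307 (F (T t216 (T t215 (L l123 (L l2339 (T t144 N))))))) N)))))))))))) (K a101 (M a49 (L l593 (F (T t217 (T t209 (L l401 (L l404 (T t211 (K a307 (M a295 (F (L l2131 (T t213 (L l401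 (L l404 (T t211 N))))))) (K a295 (M a307 (F (T t214 (L l401 (L l404 (T t211 N)))))) N)))))))))) (K a117 (M a51 (L l593 (F (T t218 (T t219 (L l107 (L l123 (T t220 (K a307 (M a295 (F (T t221 (L l2131 (T t222 N))))) (K a295 (M a307 (F (T t223 (L l989 (T t224 N))))) N)))))))))) (K a154 (M a768 (L l593 (F (T t215 (T t143 (L l989 (T t32 (K a307 (M a295 (F (T t225 (L l368 (T t39 (T t215 N)))))) (K a295 (M a307 (F (T t225 (L l368 (T t39 (T t215 N)))))) N))))))))) (K a170 (M a768 (L l593 (F (T t145 (T t143 (L l404 (T t144 (K a307 (M a295 (F (T t226 (L l404 (T t215 (L l404 (T t144 N))))))) (K a295 (M a307 (F (T t226 (L l404 (T t215 (L l404 (T t144 N))))))) N))))))))) (K a186 (M a51 (L l593 (F (T t227 (T t219 (L l438 (T t220 (K a307 (M a295 (F (T t228 (L l2131 (T t222 N))))) (K a295 (M a307 (F (T t223 (L l989 (T t224 N))))) N))))))))) (K a207 (M a768 (L l593 (F (T t229 (L l595 (L l3339 (T t148 (L l989 (L l2893 (T t32 (K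 a307 (M a295 (F (T t37 (L l2749 (T t225 (L l3339 (T t215 N))))))) (K a295 (M a307 (F (T t230 (L l2893 (T t39 (L l2749 (T t225 N))))))) N)))))))))))) (K a307 (M a295 (F (T t136 (T t137 (T t135 (T t138 (K a16 (M a240 (F (T t206 (L l2101 (L l2257 (T t207 (L l340 (L l368 (T t208 N))))))))) (K a32 (M a49 (F (L l2131 (T t213 (L l404 (T t211 N)))))) (K a85 (M a51 (F (T t231 (L l528 (L l595 (L l2131 (T t232 N))))))) (K a101 (M a49 (F (L l2131 (T t213 (L l401 (L l404 (T t211 N))))))) (K a117 (M a51 (F (T t221 (L l2131 (T t222 N))))) (K a154 (M a768 (F (T t225 (L l368 (T t39 (T t215 N)))))) (K a170 (M a51 (F (T t233 (L l528 (L l595 (L l2131 (T t232 N))))))) (K a186 (M a51 (F (T t228 (L l2131 (T t222 N))))) (K a207 (M a768 (F (T t37 (L l2749 (T t225 (L l3339 (T t215 N))))))) N))))))))))))))) (K a295 (M a307 (F (T t136 (T t137 (T t135 (T t138 (K a16 (M a256 (F (L l989 (T t234 (T t235 N))))) (K a32 (M a256 (F (T t236 (L l2152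 (L l2156 (T t235 N)))))) (K a85 (M a256 (F (L l595 (T t237 (T t238 N))))) (K a101 (M a256 (F (T t239 (T t238 N)))) (K a117 (M a256 (F (T t239 (T t238 N)))) (K a154 (M a256 (F (L l595 (T t237 (T t238 N))))) (K a170 (M a256 (F (T t239 (T t238 N)))) (K a186 (M a256 (F (T t239 (T t238 N)))) (K a207 (M a256 (F (T t239 (T t238 N)))) N))))))))))))))) N))))))))))))))))))⟩
def e0_255__283_30 : Ent 5 := ⟨[a0, a255], [a283, a273], (M a192 (F (T t19 (T t23 (T t22 (T t24 (K a64 (M a240 (F (T t79 (L l144 (L l2257 (T t80 (T t81 N))))))) (K a128 (M a240 (F (T t79 (L l2257 (T t80 (L l192 (L l220 (T t81 N)))))))) (K a85 (M a768 (F (T t86 (L l347 (L l2339 (T t29 (L l347 (L l2339 (T t30 N))))))))) (K a149 (M a768 (F (T t31 (L l347 (T t29 (T t32 N)))))) (K a213 (M a768 (F (T t31 (L l3203 (T t32 (T t33 N)))))) (K a106 (M a768 (F (T t86 (T t29 (T t32 N))))) (K a170 (M a768 (F (T t31 (T t29 (L l220 (T t30 N)))))) (K a234 (M a768 (F (T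 t31 (T t32 (L l390 (L l3246 (T t33 N))))))) (K a63 (M a768 (F (T t37 (L l3159 (T t35 (L l2209 (T t29 N))))))) N)))))))))))))))⟩
def e0_255__283_31 : Ent 5 := ⟨[a0, a255], [a283, a290], (M a192 (F (T t19 (T t23 (T t22 (T t24 (K a64 (M a240 (F (T t79 (L l144 (L l2257 (T t80 (T t81 N))))))) (K a128 (M a240 (F (T t79 (L l2257 (T t80 (L l192 (L l220 (T t81 N)))))))) (K a85 (M a768 (F (T t86 (L l347 (L l2339 (T t29 (L l347 (L l2339 (T t30 N))))))))) (K a149 (M a768 (F (T t31 (L l347 (T t29 (T t32 N)))))) (K a213 (M a768 (F (T t31 (L l3203 (T t32 (L l922 (T t33 N))))))) (K a106 (M a768 (F (T t86 (T t29 (T t32 N))))) (K a170 (M a768 (F (T t31 (T t29 (L l220 (T t30 N)))))) (K a234 (M a768 (F (T t31 (T t32 (L l390 (L l922 (L l3246 (T t33 N)))))))) (K a63 (M a768 (F (T t37 (L l3159 (T t35 (L l2209 (T t29 N))))))) N)))))))))))))))⟩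
def e0_255__283_32 : Ent 5 := ⟨[a0, a255], [a283, a295], (M a768 (L l593 (F (T t32 (T t39 (T t40 (T t41 (K a256 (M a192 (L l593 (F (T t23 (T t29 (L l824 (L l996 (T t33 (K a307 (M a271 (L l564 (F (T t240 (T t24 (T t44 (K a273 (M a290 (F (T t240 (L l2117 (T t241 N))))) (K a290 (M a273 (F (T t240 (L l2154 (T t242 N))))) N)))))))) (K a271 (M a307 (L l528 (F (T t240 (T t24 (T t44 (K a261 (M a266 (F (T t240 (L l2087 (T t243 N))))) (K a266 (M a261 (F (T t240 (L l2094 (T t244 N))))) N)))))))) N)))))))))) (K a512 (M a192 (L l593 (F (T t23 (L l1516 (T t29 (T t33 (K a307 (M a271 (F (T t245 (T t24 (L l1344 (L l1516 (T t44 N))))))) (K a271 (M a307 (F (T t245 (T t24 (L l1344 (L l1516 (T t44 N))))))) N))))))))) (K a85 (M a960 (L l593 (F (T t246 (L l2339 (T t247 (L l2339 (T t248 (K a307 (M a271 (F (T t249 (T t250 N)))) (K a271 (M a307 (F (T t249 (T t251 N)))) N)))))))))) (K a341 (M a192 (L l593 (F (T t35 (L l2339 (T t19 (L l2339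 (T t29 (K a307 (M a271 (F (T t24 (T t252 N)))) (K a271 (M a307 (F (T t24 (T t253 N)))) N)))))))))) (K a597 (M a192 (L l593 (F (T t23 (L l1184 (L l1516 (T t35 (L l1184 (L l1516 (L l2339 (L l3203 (T t58 (L l2511 (T t59 (K a307 (M a271 (F (T t23 (L l1516 (T t252 N))))) (K a271 (M a307 (F (T t23 (L l1516 (T t253 N))))) N)))))))))))))))) (K a170 (M a960 (L l593 (F (T t246 (T t247 (T t248 (K a307 (M a271 (F (T t247 (T t250 N)))) (K a271 (M a307 (F (T t247 (T t251 N)))) N)))))))) (K a426 (M a192 (L l593 (F (T t35 (T t19 (L l2727 (T t58 (L l740 (L l996 (L l2598 (L l3246 (T t59 (K a307 (M a271 (F (T t19 (L l982 (T t252 N))))) (K a271 (M a307 (F (T t19 (L l922 (T t253 N))))) N)))))))))))))) (K a682 (M a128 (L l593 (F (T t198 (T t71 (L l1260 (L l1516 (T t72 (K a307 (M a271 (F (T t198 (L l1502 (L l1516 (T t254 N)))))) (K a271 (M a307 (F (T t198 (L l1442 (L l1516 (T t255 N)))))) N)))))))))) (K a1023 (M a64 (L l593 (F (T t73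 (L l1856 (T t67 (T t68 (K a307 (M a271 (F (T t6 (L l3109 (T t254 N))))) (K a271 (M a307 (F (T t6 (L l3079 (T t255 N))))) N))))))))) (K a307 (M a271 (F (T t41 (T t256 (T t254 (L l959 (T t257 (K a256 (M a192 (L l564 (F (T t240 (T t24 (T t44 (K a273 (M a290 (F (T t240 (L l2117 (T t241 N))))) (K a290 (M a273 (F (T t240 (L l2154 (T t242 N))))) N)))))))) N)))))))) (K a271 (M a307 (F (T t41 (T t258 (T t255 (L l989 (T t259 (K a256 (M a192 (L l528 (F (T t240 (T t24 (T t44 (K a261 (M a266 (F (T t240 (L l2087 (T t243 N))))) (K a266 (M a261 (F (T t240 (L l2094 (T t244 N))))) N)))))))) N)))))))) N))))))))))))))))))⟩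
def e0_255__283_33 : Ent 5 := ⟨[a0, a255], [a283, a307], (M a48 (L l593 (F (T t136 (T t137 (T t135 (T t138 (K a16 (M a240 (L l593 (F (T t139 (L l340 (L l368 (L l2257 (T t140 (T t141 (K a295 (M a271 (F (T t206 (L l2257 (T t207 (L l340 (L l368 (T t208 N)))))))) (K a271 (M a295 (F (T t206 (L l2101 (L l2257 (T t207 (L l340 (L l368 (T t208 N))))))))) N))))))))))) (K a32 (M a240 (L l593 (F (T t139 (L l2257 (T t140 (L l376 (L l404 (T t141 (K a295 (M a271 (F (T t206 (L l404 (L l2257 (T t207 (T t208 N))))))) (K a271 (M a295 (F (T t206 (L l404 (L l2101 (L l2257 (T t207 (T t208 N)))))))) N))))))))))) (K a85 (M a768 (L l593 (F (T t215 (L l123 (L l2339 (T t143 (L l123 (L l2339 (T t144 (K a295 (M a271 (F (T t216 (T t215 (L l123 (L l2339 (T t144 N))))))) (K a271 (M a295 (F (T t216 (T t215 (L l123 (L l2339 (T t144 N))))))) N)))))))))))) (K a101 (M a49 (L l593 (F (T t217 (T t209 (L l401 (L l404 (T t211 (K a295 (M a271 (F (T t209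 (T t217 (L l401 (L l404 (T t211 N))))))) (K a271 (M a295 (F (L l2131 (T t213 (L l401 (L l404 (T t211 N))))))) N)))))))))) (K a117 (M a51 (L l593 (F (T t218 (T t219 (L l107 (L l123 (T t220 (K a295 (M a271 (F (T t260 (T t221 (L l107 (L l123 (T t220 N))))))) (K a271 (M a295 (F (T t221 (L l2131 (T t222 N))))) N)))))))))) (K a154 (M a768 (L l593 (F (T t215 (T t143 (L l959 (T t32 (K a295 (M a271 (F (T t225 (L l368 (T t39 (T t215 N)))))) (K a271 (M a295 (F (T t225 (L l368 (T t39 (T t215 N)))))) N))))))))) (K a170 (M a768 (L l593 (F (T t145 (T t143 (L l404 (T t144 (K a295 (M a271 (F (T t226 (L l404 (T t215 (L l404 (T t144 N))))))) (K a271 (M a295 (F (T t226 (L l404 (T t215 (L l404 (T t144 N))))))) N))))))))) (K a186 (M a51 (L l593 (F (T t227 (T t219 (L l438 (T t220 (K a295 (M a271 (F (T t223 (L l184 (L l206 (T t221 (L l438 (T t220 N)))))))) (K a271 (M a295 (F (T t228 (L l2131 (T t222 N))))) N))))))))) (K a207 (M a768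 (L l593 (F (T t229 (L l550 (L l3339 (T t148 (L l959 (L l2893 (T t32 (K a295 (M a271 (F (T t230 (L l2893 (T t39 (L l2749 (T t225 N))))))) (K a271 (M a295 (F (T t37 (L l2749 (T t225 (L l3339 (T t215 N))))))) N)))))))))))) (K a295 (M a271 (F (T t136 (T t137 (T t135 (T t138 (K a16 (M a256 (F (L l959 (T t234 (L l532 (L l2144 (T t261 N))))))) (K a32 (M a256 (F (T t236 (L l532 (L l2152 (T t261 N)))))) (K a85 (M a256 (F (T t262 (T t263 N)))) (K a101 (M a256 (F (T t239 (T t264 N)))) (K a117 (M a256 (F (T t239 (T t264 N)))) (K a154 (M a256 (F (L l550 (T t237 (T t264 N))))) (K a170 (M a256 (F (T t239 (L l2598 (T t264 N))))) (K a186 (M a256 (F (T t239 (L l2706 (T t264 N))))) (K a207 (M a256 (F (T t239 (T t264 N)))) N))))))))))))))) (K a271 (M a295 (F (T t136 (T t137 (T t135 (T t138 (K a16 (M a240 (F (T t206 (L l2101 (L l2257 (T t207 (L l340 (L l368 (T t208 N))))))))) (K a32 (M a49 (F (L l2131 (T t213 (L l404 (T t211 N))))))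 (K a85 (M a51 (F (T t231 (L l528 (L l595 (L l2131 (T t232 N))))))) (K a101 (M a49 (F (L l2131 (T t213 (L l401 (L l404 (T t211 N))))))) (K a117 (M a51 (F (T t221 (L l2131 (T t222 N))))) (K a154 (M a768 (F (T t225 (L l368 (T t39 (T t215 N)))))) (K a170 (M a51 (F (T t233 (L l528 (L l595 (L l2131 (T t232 N))))))) (K a186 (M a51 (F (T t228 (L l2131 (T t222 N))))) (K a207 (M a768 (F (T t37 (L l2749 (T t225 (L l3339 (T t215 N))))))) N))))))))))))))) N))))))))))))))))))⟩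
def e0_255__283_34 : Ent 5 := ⟨[a0, a255], [a283, a324], (M a48 (F (T t136 (T t137 (T t135 (T t138 (K a16 (M a240 (F (T t139 (L l340 (L l368 (L l2257 (T t140 (T t141 N)))))))) (K a32 (M a240 (F (T t139 (L l2257 (T t140 (L l376 (L l404 (T t141 N)))))))) (K a85 (M a768 (F (T t215 (L l123 (L l2339 (T t143 (L l123 (L l2339 (T t144 N))))))))) (K a101 (M a768 (F (T t145 (L l123 (T t143 (T t32 N)))))) (K a117 (M a768 (F (T t145 (L l2483 (T t32 (T t146 N)))))) (K a154 (M a768 (F (T t215 (T t143 (T t32 N))))) (K a170 (M a768 (F (T t145 (T t143 (L l404 (T t144 N)))))) (K a186 (M a768 (F (T t145 (T t32 (L l206 (L l2706 (T t146 N))))))) (K a207 (M a768 (F (T t37 (L l3339 (T t148 (L l2749 (T t143 N))))))) N)))))))))))))))⟩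
def e0_255__283_35 : Ent 5 := ⟨[a0, a255], [a283, a336], (M a12 (F (T t154 (T t155 (T t153 (T t156 (K a4 (M a204 (F (T t157 (L l310 (L l458 (T t158 (L l310 (L l458 (T t159 N))))))))) (K a8 (M a204 (F (T t157 (T t158 (T t159 N))))) (K a85 (M a768 (F (T t265 (L l91 (L l2339 (T t161 (L l91 (L l2339 (T t162 N))))))))) (K a89 (M a768 (F (T t163 (L l91 (T t161 (T t32 N)))))) (K a93 (M a768 (F (T t163 (L l2363 (T t32 (L l91 (L l2363 (T t164 N)))))))) (K a166 (M a768 (F (T t265 (T t161 (T t32 N))))) (K a170 (M a768 (F (T t163 (T t161 (L l464 (T t162 N)))))) (K a174 (M a768 (F (T t163 (T t32 (T t164 N))))) (K a243 (M a768 (F (T t37 (L l3369 (T t166 (L l2839 (T t161 N))))))) N)))))))))))))))⟩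
def e0_255__283_36 : Ent 5 := ⟨[a0, a255], [a283, a341], (M a192 (F (T t24 (L l2339 (T t19 (L l2987 (T t23 (L l2339 (L l2468 (T t22 (K a64 (M a204 (L l2468 (F (T t192 (L l144 (L l2339 (T t184 (L l80 (L l144 (L l2339 (L l2450 (T t185 (K a618 (M a895 (F (T t266 (L l3005 (T t191 (L l80 (L l144 (L l2339 (L l2450 (T t185 N)))))))))) (K a895 (M a618 (F (T t190 (L l2296 (T t267 N))))) N)))))))))))))) (K a128 (M a240 (F (T t79 (L l2257 (L l2339 (T t80 (L l192 (L l220 (L l2987 (T t81 N)))))))))) (K a85 (M a597 (F (T t268 (L l996 (T t269 (L l144 (L l867 (L l996 (L l2468 (T t270 (L l144 (L l867 (L l2468 (T t271 N)))))))))))))) (K a149 (M a768 (F (T t35 (L l347 (L l2339 (T t29 (L l996 (L l2468 (T t272 N))))))))) (K a213 (M a48 (F (T t273 (L l347 (L l2339 (T t136 (L l347 (L l2339 (T t274 N))))))))) (K a106 (M a768 (F (T t86 (L l2339 (T t29 (L l144 (L l390 (L l996 (L l2468 (T t272 N)))))))))) (K a170 (M a768 (F (T t35 (L l2339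 (T t29 (L l390 (L l996 (L l2468 (L l2598 (T t272 N)))))))))) (K a234 (M a48 (F (T t273 (L l2339 (T t136 (L l2339 (T t274 N))))))) (K a63 (M a768 (F (L l3159 (T t35 (L l2209 (L l2339 (T t29 (L l996 (L l2468 (T t272 N)))))))))) N)))))))))))))))))))⟩
def e0_255__283_37 : Ent 5 := ⟨[a0, a255], [a283, a346], (M a192 (L l877 (F (T t19 (T t23 (T t22 (T t24 (K a64 (M a204 (L l877 (F (T t192 (L l144 (T t184 (L l80 (L l144 (T t185 (K a472 (M a409 (F (T t187 (L l80 (L l2257 (T t195 N)))))) (K a409 (M a472 (F (T t191 (L l3105 (T t275 N))))) N))))))))))) (K a128 (M a204 (L l877 (F (T t192 (T t184 (T t185 (K a472 (M a409 (F (T t184 (L l2472 (T t276 N))))) (K a409 (M a472 (F (T t158 (L l3105 (T t275 N))))) N)))))))) (K a85 (M a768 (L l877 (F (T t28 (L l347 (L l2339 (L l2367 (T t29 (L l347 (L l2339 (L l2367 (T t30 (K a472 (M a409 (F (T t28 (L l2257 (L l2339 (L l2367 (T t277 N))))))) (K a409 (M a472 (F (T t86 (L l728 (L l982 (T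 t48 (L l347 (L l2339 (L l2367 (L l3227 (T t30 N))))))))))) N)))))))))))))) (K a149 (M a196 (L l877 (F (T t278 (T t279 (L l202 (L l220 (T t280 (K a472 (M a409 (F (L l2257 (L l2884 (T t281 (L l202 (L l220 (T t280 N)))))))) (K a409 (M a472 (F (L l3123 (L l3320 (T t282 (L l202 (L l220 (T t280 N)))))))) N)))))))))) (K a213 (M a204 (L l877 (F (T t191 (L l278 (T t283 (L l243 (L l347 (T t193 (K a472 (M a409 (F (T t284 (L l2472 (T t194 N))))) (K a409 (M a472 (F (T t191 (L l278 (L l3105 (T t275 N)))))) N))))))))))) (K a106 (M a200 (L l877 (F (T t285 (T t286 (L l132 (L l144 (T t287 (K a472 (M a409 (F (T t285 (L l895 (L l2239 (T t288 N)))))) (K a409 (M a472 (F (T t286 (L l3105 (T t289 N))))) N)))))))))) (K a170 (M a768 (L l877 (F (T t31 (L l2367 (T t29 (L l220 (L l2367 (T t30 (K a472 (M a409 (F (T t31 (L l2257 (L l2367 (T t277 N)))))) (K a409 (M a472 (F (T t28 (L l728 (L l982 (L l2598 (T t48 (L l220 (L l2367 (L l3227 (T t30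 N))))))))))) N))))))))))) (K a234 (M a204 (L l877 (F (T t158 (T t283 (L l284 (T t193 (K a472 (M a409 (F (T t203 (L l254 (L l2239 (T t290 N)))))) (K a409 (M a472 (F (T t158 (L l3105 (T t275 N))))) N))))))))) (K a63 (M a200 (L l877 (F (T t291 (L l62 (T t285 (T t287 (K a472 (M a409 (F (T t292 (L l895 (L l2239 (L l2295 (T t288 N))))))) (K a409 (M a472 (F (L l445 (T t286 (L l2211 (L l3105 (T t289 N))))))) N))))))))) (K a472 (M a409 (F (T t19 (T t23 (T t22 (T t24 (K a64 (M a196 (F (L l2257 (L l2884 (T t281 (L l80 (T t280 N))))))) (K a128 (M a200 (F (T t293 (L l895 (L l2239 (L l2684 (T t288 N))))))) (K a85 (M a768 (F (T t28 (L l2257 (L l2339 (L l2367 (T t277 N))))))) (K a149 (M a768 (F (T t31 (L l2257 (L l2367 (T t277 N)))))) (K a213 (M a768 (F (T t31 (L l2257 (L l2367 (L l3203 (T t277 N))))))) (K a106 (M a768 (F (T t28 (L l2257 (L l2367 (T t277 N)))))) (K a170 (M a768 (F (T t31 (L l2257 (L l2367 (T t277 N)))))) (K a234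 (M a768 (F (T t31 (L l2257 (L l2367 (T t277 N)))))) (K a63 (M a768 (F (T t62 (L l2221 (L l2257 (L l2367 (T t277 N))))))) N))))))))))))))) (K a409 (M a472 (F (T t19 (T t23 (T t22 (T t24 (K a64 (M a196 (F (L l3123 (L l3320 (T t282 (L l80 (T t280 N))))))) (K a128 (M a196 (F (L l3123 (L l3320 (T t282 (L l220 (T t280 N))))))) (K a85 (M a1008 (F (T t294 (L l347 (L l365 (L l3227 (T t295 N))))))) (K a149 (M a1008 (F (T t294 (L l347 (L l3227 (T t295 N)))))) (K a213 (M a1008 (F (T t294 (L l347 (T t296 N))))) (K a106 (M a1008 (F (T t294 (L l408 (L l3227 (T t295 N)))))) (K a170 (M a1008 (F (T t294 (L l3227 (T t295 N))))) (K a234 (M a1008 (F (T t294 (T t296 N)))) (K a63 (M a1008 (F (T t297 (L l445 (L l3227 (T t295 N)))))) N))))))))))))))) N))))))))))))))))))⟩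
def e0_255__283_38 : Ent 5 := ⟨[a0, a255], [a283, a351], (M a192 (F (T t19 (T t23 (T t22 (T t24 (K a64 (M a240 (F (T t79 (L l144 (L l2257 (L l3109 (T t80 (L l2353 (T t81 N))))))))) (K a128 (M a240 (F (T t79 (L l2257 (L l3109 (T t80 (L l192 (L l220 (L l2353 (T t81 N)))))))))) (K a85 (M a768 (F (T t28 (L l347 (L l2339 (T t29 (L l347 (L l2339 (L l2461 (T t30 N)))))))))) (K a149 (M a768 (F (T t31 (L l347 (T t29 (L l989 (L l3109 (T t32 N)))))))) (K a213 (M a768 (F (T t31 (L l989 (L l3109 (L l3203 (T t32 (T t33 N)))))))) (K a106 (M a768 (F (T t28 (T t29 (L l989 (L l3109 (T t32 N))))))) (K a170 (M a768 (F (T t31 (T t29 (L l220 (L l2461 (T t30 N))))))) (K a234 (M a768 (F (T t31 (L l989 (L l3109 (T t32 (L l390 (L l3246 (T t33 N))))))))) (K a63 (M a768 (F (T t83 (L l3159 (T t35 (L l2209 (T t29 N))))))) N)))))))))))))))⟩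
def e0_255__283_39 : Ent 5 := ⟨[a0, a255], [a283, a358], (M a192 (F (T t19 (T t23 (T t22 (T t24 (K a64 (M a240 (F (T t79 (L l144 (L l2257 (T t80 (T t81 N))))))) (K a128 (M a240 (F (T t79 (L l2257 (T t80 (L l192 (L l220 (T t81 N)))))))) (K a85 (M a768 (F (T t28 (L l347 (L l2339 (L l2487 (T t29 (L l347 (L l2339 (L l2487 (T t30 N))))))))))) (K a149 (M a768 (F (T t31 (L l347 (L l2487 (T t29 (L l2487 (T t32 N)))))))) (K a213 (M a768 (F (T t31 (L l2487 (L l3203 (T t32 (L l922 (T t33 N)))))))) (K a106 (M a768 (F (T t35 (L l2487 (T t29 (L l2487 (T t32 N))))))) (K a170 (M a768 (F (T t31 (L l2487 (T t29 (L l220 (L l2487 (T t30 N)))))))) (K a234 (M a768 (F (T t31 (L l2487 (T t32 (L l390 (L l922 (L l3246 (T t33 N))))))))) (K a63 (M a768 (F (T t57 (L l2209 (L l2487 (T t29 (L l2487 (L l3073 (T t32 N))))))))) N)))))))))))))))⟩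
def e0_255__283_40 : Ent 5 := ⟨[a0, a255], [a283, a375], (M a192 (F (T t19 (T t23 (T t22 (T t24 (K a64 (M a240 (F (T t79 (L l144 (L l2257 (T t80 (T t81 N))))))) (K a128 (M a240 (F (T t79 (L l2257 (T t80 (L l192 (L l220 (T t81 N)))))))) (K a85 (M a768 (F (T t28 (L l347 (L l2339 (T t29 (L l347 (L l2339 (L l2431 (T t30 N)))))))))) (K a149 (M a768 (F (T t31 (L l347 (T t29 (L l959 (L l3079 (T t32 N)))))))) (K a213 (M a768 (F (T t31 (L l959 (L l3079 (L l3203 (T t32 (T t33 N)))))))) (K a106 (M a768 (F (T t28 (T t29 (L l959 (L l3079 (T t32 N))))))) (K a170 (M a768 (F (T t31 (T t29 (L l220 (L l2431 (T t30 N))))))) (K a234 (M a768 (F (T t31 (L l959 (L l3079 (T t32 (L l390 (L l3246 (T t33 N))))))))) (K a63 (M a768 (F (T t83 (L l3159 (T t35 (L l2209 (T t29 N))))))) N)))))))))))))))⟩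
def e0_255__283_41 : Ent 5 := ⟨[a0, a255], [a283, a392], (M a192 (F (T t19 (T t23 (T t22 (T t24 (K a64 (M a240 (F (T t79 (L l144 (L l2257 (T t80 (T t81 N))))))) (K a128 (M a240 (F (T t79 (L l2257 (T t80 (L l192 (L l220 (T t81 N)))))))) (K a85 (M a768 (F (T t35 (L l347 (L l2339 (T t29 (L l347 (L l2339 (T t30 N))))))))) (K a149 (M a768 (F (T t35 (L l347 (T t29 (T t32 N)))))) (K a213 (M a768 (F (T t35 (L l3203 (T t32 (L l676 (L l728 (T t33 N)))))))) (K a106 (M a768 (F (T t35 (T t29 (T t32 N))))) (K a170 (M a768 (F (T t35 (T t29 (L l220 (T t30 N)))))) (K a234 (M a768 (F (T t35 (T t32 (L l390 (L l676 (L l728 (L l3246 (T t33 N))))))))) (K a63 (M a768 (F (T t37 (L l3159 (T t35 (L l2209 (T t29 N))))))) N)))))))))))))))⟩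
def e0_255__283_42 : Ent 5 := ⟨[a0, a255], [a283, a409], (M a192 (L l877 (F (T t19 (T t23 (T t22 (T t24 (K a64 (M a204 (L l877 (F (T t192 (L l144 (L l3227 (T t184 (L l80 (L l144 (T t185 (K a472 (M a346 (F (T t266 (T t191 (L l2672 (T t298 N)))))) (K a346 (M a472 (F (T t191 (L l3105 (T t275 N))))) N)))))))))))) (K a128 (M a204 (L l877 (F (T t192 (L l3227 (T t184 (T t185 (K a472 (M a346 (F (T t266 (L l220 (T t191 (L l156 (L l220 (L l2672 (T t298 N))))))))) (K a346 (M a472 (F (T t158 (L l3105 (T t275 N))))) N))))))))) (K a85 (M a768 (L l877 (F (T t28 (L l347 (L l2339 (L l3227 (T t29 (L l347 (L l2339 (L l3227 (T t30 (K a472 (M a346 (F (T t86 (L l94 (L l728 (L l2257 (T t299 N))))))) (K a346 (M a472 (F (T t86 (L l728 (L l982 (T t48 (L l347 (L l2339 (L l2367 (L l3227 (T t30 N))))))))))) N)))))))))))))) (K a149 (M a768 (L l877 (F (T t31 (L l347 (L l3227 (T t29 (L l3227 (T t32 (K a472 (M a346 (F (T t28 (L l728 (L l2257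 (T t299 N)))))) (K a346 (M a472 (F (T t28 (L l347 (L l2367 (L l3227 (T t39 (L l728 (L l982 (T t48 N)))))))))) N))))))))))) (K a213 (M a768 (L l877 (F (T t31 (L l3203 (L l3227 (T t32 (L l728 (T t33 (K a472 (M a346 (F (T t86 (L l728 (L l2257 (T t299 N)))))) (K a346 (M a472 (F (T t86 (L l347 (L l2367 (L l3203 (L l3227 (T t39 (L l347 (L l2367 (L l3203 (L l3227 (T t44 N))))))))))))) N))))))))))) (K a106 (M a768 (L l877 (F (T t35 (L l3227 (T t29 (L l3227 (T t32 (K a472 (M a346 (F (T t86 (L l728 (L l2257 (T t299 N)))))) (K a346 (M a472 (F (T t86 (L l728 (L l982 (T t48 (L l144 (L l2367 (L l3227 (T t39 N)))))))))) N)))))))))) (K a170 (M a768 (L l877 (F (T t31 (L l3227 (T t29 (L l220 (L l3227 (T t30 (K a472 (M a346 (F (T t28 (L l728 (L l2257 (L l2598 (T t299 N))))))) (K a346 (M a472 (F (T t28 (L l728 (L l982 (L l2598 (T t48 (L l220 (L l2367 (L l3227 (T t30 N))))))))))) N))))))))))) (K a234 (M a768 (L l877 (F (T t31 (L l3227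 (T t32 (L l390 (L l728 (L l3246 (T t33 (K a472 (M a346 (F (T t86 (L l728 (L l2257 (L l3246 (T t299 N))))))) (K a346 (M a472 (F (T t86 (L l2367 (L l3227 (T t39 (L l2367 (L l3227 (T t44 N))))))))) N)))))))))))) (K a63 (M a768 (L l877 (F (T t57 (L l2209 (L l3227 (T t29 (L l3073 (L l3227 (T t32 (K a472 (M a346 (F (T t69 (L l61 (L l728 (L l2257 (T t299 N))))))) (K a346 (M a472 (F (T t62 (L l2367 (L l3073 (L l3227 (T t39 (L l728 (L l982 (L l2209 (T t48 N))))))))))) N)))))))))))) (K a472 (M a346 (F (T t19 (T t23 (T t22 (T t24 (K a64 (M a336 (F (T t300 (L l687 (L l762 (L l2257 (T t301 N))))))) (K a128 (M a1008 (F (T t302 (L l2687 (T t303 N))))) (K a85 (M a768 (F (T t86 (L l94 (L l728 (L l2257 (T t299 N))))))) (K a149 (M a768 (F (T t28 (L l728 (L l2257 (T t299 N)))))) (K a213 (M a768 (F (T t86 (L l728 (L l2257 (T t299 N)))))) (K a106 (M a768 (F (T t86 (L l728 (L l2257 (T t299 N)))))) (K a170 (M a768 (F (T t28 (L l728 (L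 l2257 (L l2598 (T t299 N))))))) (K a234 (M a768 (F (T t86 (L l728 (L l2257 (L l3246 (T t299 N))))))) (K a63 (M a768 (F (T t69 (L l61 (L l728 (L l2257 (T t299 N))))))) N))))))))))))))) (K a346 (M a472 (F (T t19 (T t23 (T t22 (T t24 (K a64 (M a196 (F (L l3123 (L l3320 (T t282 (L l80 (T t280 N))))))) (K a128 (M a196 (F (L l3123 (L l3320 (T t282 (L l220 (T t280 N))))))) (K a85 (M a1008 (F (T t294 (L l347 (L l365 (L l3227 (T t295 N))))))) (K a149 (M a1008 (F (T t294 (L l347 (L l3227 (T t295 N)))))) (K a213 (M a1008 (F (T t294 (L l347 (T t296 N))))) (K a106 (M a1008 (F (T t294 (L l408 (L l3227 (T t295 N)))))) (K a170 (M a1008 (F (T t294 (L l3227 (T t295 N))))) (K a234 (M a1008 (F (T t294 (T t296 N)))) (K a63 (M a1008 (F (T t297 (L l445 (L l3227 (T t295 N)))))) N))))))))))))))) N))))))))))))))))))⟩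
def e0_255__283_43 : Ent 5 := ⟨[a0, a255], [a283, a416], (M a192 (F (T t19 (T t23 (T t22 (T t24 (K a64 (M a240 (F (T t79 (L l144 (L l2257 (T t80 (L l2584 (T t81 N)))))))) (K a128 (M a240 (F (T t79 (L l2257 (T t80 (L l192 (L l220 (L l2584 (T t81 N))))))))) (K a85 (M a768 (F (T t35 (L l347 (L l2339 (T t29 (L l347 (L l2339 (T t30 N))))))))) (K a149 (M a768 (F (T t35 (L l347 (T t29 (T t32 N)))))) (K a213 (M a768 (F (T t35 (L l3203 (T t32 (L l700 (L l712 (T t33 N)))))))) (K a106 (M a768 (F (T t35 (T t29 (T t32 N))))) (K a170 (M a768 (F (T t35 (T t29 (L l220 (T t30 N)))))) (K a234 (M a768 (F (T t35 (T t32 (L l390 (L l700 (L l712 (L l3246 (T t33 N))))))))) (K a63 (M a768 (F (T t37 (L l3159 (T t35 (L l2209 (T t29 N))))))) N)))))))))))))))⟩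
def e0_255__283_44 : Ent 5 := ⟨[a0, a255], [a283, a421], (M a192 (F (T t19 (T t23 (T t22 (T t24 (K a64 (M a240 (F (T t79 (L l144 (L l2257 (L l3347 (T t80 (L l2612 (T t81 N))))))))) (K a128 (M a240 (F (T t79 (L l2257 (L l3347 (T t80 (L l192 (L l220 (L l2612 (T t81 N)))))))))) (K a85 (M a768 (F (T t28 (L l347 (L l2339 (L l3347 (T t29 (L l347 (L l2339 (L l3347 (T t30 N))))))))))) (K a149 (M a768 (F (T t31 (L l347 (L l3347 (T t29 (L l3347 (T t32 N)))))))) (K a213 (M a768 (F (T t31 (L l3203 (L l3347 (T t32 (L l700 (T t33 N)))))))) (K a106 (M a768 (F (T t35 (L l3347 (T t29 (L l3347 (T t32 N))))))) (K a170 (M a768 (F (T t31 (L l3347 (T t29 (L l220 (L l3347 (T t30 N)))))))) (K a234 (M a768 (F (T t31 (L l3347 (T t32 (L l390 (L l700 (L l3246 (T t33 N))))))))) (K a63 (M a768 (F (T t57 (L l2209 (L l3347 (T t29 (L l3073 (L l3347 (T t32 N))))))))) N)))))))))))))))⟩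
def e0_255__283_45 : Ent 5 := ⟨[a0, a255], [a283, a426], (M a192 (F (T t19 (L l2598 (L l3246 (T t23 (L l2727 (T t22 (L l2598 (T t24 (K a64 (M a240 (F (T t304 (L l144 (L l2257 (T t80 (L l2598 (L l3246 (T t81 N))))))))) (K a128 (M a240 (F (T t304 (L l2257 (T t80 (L l192 (L l220 (L l2598 (L l3246 (T t81 N)))))))))) (K a85 (M a1023 (F (T t305 (L l2598 (T t306 (L l144 (L l996 (L l2339 (L l3246 (T t307 N)))))))))) (K a149 (M a208 (F (T t308 (L l3246 (T t309 (L l170 (L l220 (L l2598 (L l3246 (T t310 N)))))))))) (K a213 (M a48 (F (T t273 (L l347 (T t136 (L l347 (T t274 N))))))) (K a106 (M a224 (F (T t311 (L l3267 (T t312 (L l104 (L l144 (T t313 N)))))))) (K a170 (M a682 (F (T t314 (L l996 (T t315 (L l390 (L l740 (L l996 (L l3246 (T t316 (L l390 (L l3246 (T t317 N))))))))))))) (K a234 (M a48 (L l3246 (F (T t136 (T t273 (T t274 (K a810 (M a618 (F (T t136 (L l740 (L l2814 (T t318 N)))))) (K a618 (M a810 (F (T t136 (L l2396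 (L l2468 (T t319 (L l2396 (T t274 N)))))))) N)))))))) (K a63 (M a16 (F (T t320 (L l505 (L l2598 (T t321 (L l2598 (L l3246 (T t322 N))))))))) N)))))))))))))))))))⟩
def e0_255__283_46 : Ent 5 := ⟨[a0, a255], [a283, a431], (M a192 (F (T t19 (T t23 (L l2713 (T t22 (T t24 (K a64 (M a240 (F (T t79 (L l144 (L l2257 (T t80 (T t81 N))))))) (K a128 (M a240 (F (T t79 (L l2257 (T t80 (L l192 (L l220 (T t81 N)))))))) (K a85 (M a768 (F (T t28 (L l347 (L l2339 (T t29 (L l347 (L l2339 (T t30 N))))))))) (K a149 (M a768 (F (T t31 (L l347 (T t29 (L l989 (T t32 N))))))) (K a213 (M a768 (F (T t31 (L l989 (L l3203 (T t32 (L l700 (T t33 N)))))))) (K a106 (M a768 (F (T t28 (T t29 (L l989 (T t32 N)))))) (K a170 (M a768 (F (T t31 (T t29 (L l220 (T t30 N)))))) (K a234 (M a768 (F (T t31 (L l989 (T t32 (L l390 (L l700 (L l3246 (T t33 N))))))))) (K a63 (M a768 (F (T t37 (L l3159 (T t35 (L l2209 (T t29 N))))))) N))))))))))))))))⟩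
def e0_255__283_47 : Ent 5 := ⟨[a0, a255], [a283, a443], (M a192 (F (T t19 (T t23 (L l2653 (T t22 (T t24 (K a64 (M a240 (F (T t79 (L l144 (L l2257 (T t80 (T t81 N))))))) (K a128 (M a240 (F (T t79 (L l2257 (T t80 (L l192 (L l220 (T t81 N)))))))) (K a85 (M a768 (F (T t28 (L l347 (L l2339 (T t29 (L l347 (L l2339 (T t30 N))))))))) (K a149 (M a768 (F (T t31 (L l347 (T t29 (L l959 (T t32 N))))))) (K a213 (M a768 (F (T t31 (L l959 (L l3203 (T t32 (L l728 (T t33 N)))))))) (K a106 (M a768 (F (T t28 (T t29 (L l959 (T t32 N)))))) (K a170 (M a768 (F (T t31 (T t29 (L l220 (T t30 N)))))) (K a234 (M a768 (F (T t31 (L l959 (T t32 (L l390 (L l728 (L l3246 (T t33 N))))))))) (K a63 (M a768 (F (T t37 (L l3159 (T t35 (L l2209 (T t29 N))))))) N))))))))))))))))⟩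
def e0_255__283_48 : Ent 5 := ⟨[a0, a255], [a283, a460], (M a192 (F (T t19 (T t23 (T t22 (T t24 (K a64 (M a240 (F (T t79 (L l144 (L l2257 (T t80 (T t81 N))))))) (K a128 (M a240 (F (T t79 (L l2257 (T t80 (L l192 (L l220 (T t81 N)))))))) (K a85 (M a768 (F (T t86 (L l347 (L l2339 (T t29 (L l347 (L l2339 (T t30 N))))))))) (K a149 (M a768 (F (T t31 (L l347 (T t29 (L l810 (T t32 N))))))) (K a213 (M a768 (F (T t31 (L l810 (L l3203 (T t32 (T t33 N))))))) (K a106 (M a768 (F (T t86 (T t29 (L l810 (T t32 N)))))) (K a170 (M a768 (F (T t31 (T t29 (L l220 (T t30 N)))))) (K a234 (M a768 (F (T t31 (L l810 (T t32 (L l390 (L l3246 (T t33 N)))))))) (K a63 (M a768 (F (T t85 (L l752 (L l3159 (T t35 (L l810 (L l3073 (T t32 N))))))))) N)))))))))))))))⟩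
def e0_255__283_49 : Ent 5 := ⟨[a0, a255], [a283, a472], (M a204 (L l877 (F (T t158 (T t184 (T t190 (T t191 (K a68 (M a341 (L l877 (F (T t0 (T t98 (T t323 (K a409 (M a346 (F (T t324 (L l2672 (T t98 N))))) (K a346 (M a409 (F (T t325 (L l982 (T t326 N))))) N)))))))) (K a136 (M a682 (L l877 (F (T t327 (L l818 (T t328 (T t329 (K a409 (M a346 (F (T t330 (L l818 (L l885 (L l1033 (T t328 N))))))) (K a346 (M a409 (F (T t331 (L l2524 (T t204 (L l614 (T t332 N))))))) N))))))))) (K a85 (M a409 (F (T t204 (L l126 (L l2257 (T t195 (L l126 (T t196 N)))))))) (K a153 (M a409 (F (T t333 (T t204 (T t196 N))))) (K a221 (M a597 (L l877 (F (T t334 (L l818 (T t335 (T t336 (K a409 (M a346 (F (T t337 (L l728 (L l818 (L l1033 (T t335 N))))))) (K a346 (M a409 (F (T t338 (L l2257 (T t195 (L l365 (T t339 N))))))) N))))))))) (K a102 (M a409 (F (L l126 (T t333 (L l402 (T t204 (L l126 (L l402 (T t196 N))))))))) (K a170 (M a409 (F (T t333 (L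 l402 (T t204 (L l402 (T t196 N))))))) (K a238 (M a768 (L l877 (F (T t340 (T t32 (T t341 (K a409 (M a346 (F (T t342 (L l2257 (L l3227 (T t343 N)))))) (K a346 (M a409 (F (T t344 (T t203 N)))) N)))))))) (K a51 (M a409 (F (T t333 (L l2265 (T t204 (T t196 N)))))) (K a409 (M a346 (F (T t158 (L l3227 (T t184 (L l2672 (T t190 (T t191 (K a68 (M a341 (F (T t324 (L l2672 (T t98 N))))) (K a136 (M a682 (F (T t330 (L l818 (L l885 (L l1033 (T t328 N))))))) (K a85 (M a768 (F (L l126 (T t342 (L l2257 (L l2339 (L l3227 (T t343 N)))))))) (K a153 (M a768 (L l2561 (F (T t342 (L l2257 (L l3227 (T t343 (K a665 (M a921 (F (L l1405 (L l3227 (T t345 (L l818 (L l1033 (L l3153 (T t346 N))))))))) (K a921 (M a665 (F (L l3227 (T t347 (L l1768 (L l2073 (T t342 N))))))) N))))))))) (K a221 (M a597 (F (T t337 (L l728 (L l818 (L l1033 (T t335 N))))))) (K a102 (M a768 (F (L l3227 (T t347 (L l818 (L l1033 (T t346 N))))))) (K a170 (M a768 (F (T t342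 (L l2257 (L l3227 (T t343 N)))))) (K a238 (M a768 (F (T t342 (L l2257 (L l3227 (T t343 N)))))) (K a51 (M a768 (F (T t348 (L l73 (L l2257 (L l3227 (T t343 N))))))) N))))))))))))))))) (K a346 (M a409 (F (T t203 (T t204 (T t158 N))))) N))))))))))))))))))⟩
def e0_255__283_50 : Ent 5 := ⟨[a0, a255], [a283, a477], (M a192 (F (T t19 (T t23 (T t22 (T t24 (K a64 (M a240 (F (T t79 (L l144 (L l2257 (T t80 (T t81 N))))))) (K a128 (M a240 (F (T t79 (L l2257 (T t80 (L l192 (L l220 (T t81 N)))))))) (K a85 (M a768 (F (T t28 (L l347 (L l2339 (T t29 (L l347 (L l2339 (T t30 N))))))))) (K a149 (M a768 (F (T t31 (L l347 (T t29 (L l810 (L l2894 (T t32 N)))))))) (K a213 (M a768 (F (T t31 (L l810 (L l2894 (L l3203 (T t32 (T t33 N)))))))) (K a106 (M a768 (F (T t28 (T t29 (L l810 (L l2894 (T t32 N))))))) (K a170 (M a768 (F (T t31 (T t29 (L l220 (T t30 N)))))) (K a234 (M a768 (F (T t31 (L l810 (L l2894 (T t32 (L l390 (L l3246 (T t33 N)))))))))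 (K a63 (M a768 (F (T t83 (L l3159 (T t35 (L l2209 (T t29 N))))))) N)))))))))))))))⟩
def e0_255__283_51 : Ent 5 := ⟨[a0, a255], [a283, a494], (M a192 (F (T t19 (T t23 (T t22 (T t24 (K a64 (M a240 (F (T t79 (L l144 (L l2257 (T t80 (T t81 N))))))) (K a128 (M a240 (F (T t79 (L l2257 (T t80 (L l192 (L l220 (T t81 N)))))))) (K a85 (M a768 (F (T t28 (L l347 (L l2339 (T t29 (L l347 (L l2339 (T t30 N))))))))) (K a149 (M a768 (F (T t31 (L l347 (T t29 (L l810 (T t32 N))))))) (K a213 (M a768 (F (T t31 (L l810 (L l3203 (T t32 (L l922 (T t33 N)))))))) (K a106 (M a768 (F (T t28 (T t29 (L l810 (T t32 N)))))) (K a170 (M a768 (F (T t31 (T t29 (L l220 (T t30 N)))))) (K a234 (M a768 (F (T t31 (L l810 (T t32 (L l390 (L l922 (L l3246 (T t33 N))))))))) (K a63 (M a768 (F (T t37 (L l3159 (T t35 (L l2209 (T t29 N))))))) N)))))))))))))))⟩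
def e0_255__283_52 : Ent 5 := ⟨[a0, a255], [a283, a496], (M a192 (F (T t19 (T t23 (T t22 (T t24 (K a64 (M a240 (F (T t79 (L l144 (L l2257 (T t80 (T t81 N))))))) (K a128 (M a240 (F (T t79 (L l2257 (T t80 (L l192 (L l220 (T t81 N)))))))) (K a85 (M a768 (F (T t86 (L l347 (L l2339 (T t29 (L l347 (L l2339 (T t30 N))))))))) (K a149 (M a768 (F (T t31 (L l347 (T t29 (L l786 (T t32 N))))))) (K a213 (M a768 (F (T t31 (L l786 (L l3203 (T t32 (T t33 N))))))) (K a106 (M a768 (F (T t86 (T t29 (L l786 (T t32 N)))))) (K a170 (M a768 (F (T t31 (T t29 (L l220 (T t30 N)))))) (K a234 (M a768 (F (T t31 (L l786 (T t32 (L l390 (L l3246 (T t33 N)))))))) (K a63 (M a768 (F (T t85 (L l788 (L l3159 (T t35 (L l786 (L l3073 (T t32 N))))))))) N)))))))))))))))⟩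
def e0_255__283_53 : Ent 5 := ⟨[a0, a255], [a283, a501], (M a192 (F (T t19 (T t23 (T t22 (T t24 (K a64 (M a240 (F (T t79 (L l144 (L l2257 (L l2843 (T t80 (T t81 N)))))))) (K a128 (M a240 (F (T t79 (L l2257 (L l2843 (T t80 (L l192 (L l220 (T t81 N))))))))) (K a85 (M a768 (F (T t28 (L l347 (L l2339 (T t29 (L l347 (L l2339 (T t30 N))))))))) (K a149 (M a768 (F (T t31 (L l347 (T t29 (L l786 (L l2864 (T t32 N)))))))) (K a213 (M a768 (F (T t31 (L l786 (L l2864 (L l3203 (T t32 (T t33 N)))))))) (K a106 (M a768 (F (T t28 (T t29 (L l786 (L l2864 (T t32 N))))))) (K a170 (M a768 (F (T t31 (T t29 (L l220 (T t30 N)))))) (K a234 (M a768 (F (T t31 (L l786 (L l2864 (T t32 (L l390 (L l3246 (T t33 N))))))))) (K a63 (M a768 (F (T t83 (L l3159 (T t35 (L l2209 (T t29 N))))))) N)))))))))))))))⟩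
def e0_255__283_54 : Ent 5 := ⟨[a0, a255], [a283, a506], (M a192 (F (T t19 (T t23 (T t22 (T t24 (K a64 (M a240 (F (T t304 (L l144 (L l2257 (T t80 (T t81 N))))))) (K a128 (M a240 (F (T t304 (L l2257 (T t80 (L l192 (L l220 (T t81 N)))))))) (K a85 (M a768 (F (T t28 (L l347 (L l2339 (T t29 (L l347 (L l2339 (T t30 N))))))))) (K a149 (M a768 (F (T t31 (L l347 (T t29 (L l786 (T t32 N))))))) (K a213 (M a768 (F (T t31 (L l786 (L l3203 (T t32 (L l982 (T t33 N)))))))) (K a106 (M a768 (F (T t28 (T t29 (L l786 (T t32 N)))))) (K a170 (M a768 (F (T t31 (T t29 (L l220 (T t30 N)))))) (K a234 (M a768 (F (T t31 (L l786 (T t32 (L l390 (L l982 (L l3246 (T t33 N))))))))) (K a63 (M a768 (F (T t37 (L l3159 (T t35 (L l2209 (T t29 N))))))) N)))))))))))))))⟩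
def e0_255__283_55 : Ent 5 := ⟨[a0, a255], [a283, a511], (M a192 (F (T t19 (T t23 (T t22 (T t24 (K a64 (M a240 (F (T t79 (L l144 (L l2257 (T t80 (T t81 N))))))) (K a128 (M a240 (F (T t79 (L l2257 (T t80 (L l192 (L l220 (T t81 N)))))))) (K a85 (M a768 (F (T t86 (L l347 (L l2339 (T t29 (L l144 (L l996 (T t272 N))))))))) (K a149 (M a768 (F (T t31 (L l347 (T t29 (L l220 (L l996 (T t41 N)))))))) (K a213 (M a768 (F (T t31 (L l996 (T t41 (L l347 (L l953 (L l3203 (T t44 N))))))))) (K a106 (M a768 (F (T t86 (T t29 (L l390 (L l996 (T t41 N))))))) (K a170 (M a768 (F (T t31 (T t29 (L l390 (L l996 (L l2598 (T t272 N)))))))) (K a234 (M a768 (F (T t31 (L l390 (L l996 (L l3246 (T t41 (L l953 (T t44 N))))))))) (K a63 (M a768 (F (T t42 (L l816 (L l3159 (T t35 (L l996 (L l3073 (T t41 N))))))))) N)))))))))))))))⟩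
def e0_255__283_56 : Ent 5 := ⟨[a0, a255], [a283, a512], (M a192 (F (T t19 (T t23 (T t22 (T t24 (K a64 (M a240 (F (T t79 (L l144 (L l2257 (T t80 (T t81 N))))))) (K a128 (M a240 (F (T t79 (L l2257 (T t80 (L l192 (L l220 (T t81 N)))))))) (K a85 (M a618 (F (T t349 (L l347 (L l1344 (T t267 (L l347 (T t350 N)))))))) (K a149 (M a208 (F (T t308 (T t309 (L l170 (L l220 (T t310 N))))))) (K a213 (M a48 (F (T t137 (T t273 (L l347 (T t274 N)))))) (K a106 (M a224 (F (T t311 (T t312 (L l104 (L l144 (T t313 N))))))) (K a170 (M a618 (F (T t351 (L l1344 (T t267 (L l220 (T t350 N))))))) (K a234 (M a48 (F (T t273 (T t136 (T t274 N))))) (K a63 (M a16 (F (T t352 (L l447 (T t353 (T t322 N)))))) N)))))))))))))))⟩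
def e0_255__283_57 : Ent 5 := ⟨[a0, a255], [a283, a517], (M a192 (F (T t19 (T t23 (T t22 (T t24 (K a64 (M a240 (F (T t79 (L l144 (L l2115 (L l2257 (T t80 (T t81 N)))))))) (K a128 (M a240 (F (T t79 (L l2115 (L l2257 (T t80 (L l192 (L l220 (T t81 N))))))))) (K a85 (M a768 (F (T t28 (L l347 (L l1495 (L l2339 (T t29 (L l347 (L l1495 (L l2339 (T t30 N))))))))))) (K a149 (M a768 (F (T t31 (L l347 (L l1495 (T t29 (L l1048 (L l1495 (T t32 N))))))))) (K a213 (M a768 (F (T t31 (L l1048 (L l1495 (L l3203 (T t32 (T t33 N)))))))) (K a106 (M a768 (F (T t28 (L l1495 (T t29 (L l1048 (L l1495 (T t32 N)))))))) (K a170 (M a768 (F (T t31 (L l1495 (T t29 (L l220 (L l1495 (T t30 N)))))))) (K a234 (M a768 (F (T t31 (L l1048 (L l1495 (T t32 (L l390 (L l3246 (T t33 N))))))))) (K a63 (M a768 (F (T t83 (L l1048 (L l3159 (T t35 (L l1495 (L l2209 (T t29 N))))))))) N)))))))))))))))⟩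
def e0_255__283_58 : Ent 5 := ⟨[a0, a255], [a283, a522], (M a192 (F (T t19 (T t23 (T t22 (T t24 (K a64 (M a240 (F (T t79 (L l144 (L l2094 (L l2257 (T t80 (T t81 N)))))))) (K a128 (M a240 (F (T t79 (L l2094 (L l2257 (T t80 (L l192 (L l220 (T t81 N))))))))) (K a85 (M a768 (F (T t28 (L l347 (L l2339 (T t29 (L l347 (L l2339 (T t30 N))))))))) (K a149 (M a768 (F (T t31 (L l347 (T t29 (L l1048 (T t32 N))))))) (K a213 (M a768 (F (T t31 (L l1048 (L l3203 (T t32 (T t33 N))))))) (K a106 (M a768 (F (T t28 (T t29 (L l1048 (T t32 N)))))) (K a170 (M a768 (F (T t31 (T t29 (L l220 (T t30 N)))))) (K a234 (M a768 (F (T t31 (L l1048 (T t32 (L l390 (L l3246 (T t33 N)))))))) (K a63 (M a768 (F (T t74 (L l1048 (L l3159 (T t35 (L l2209 (T t29 N)))))))) N)))))))))))))))⟩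
def e0_255__283_59 : Ent 5 := ⟨[a0, a255], [a283, a527], (M a192 (F (T t19 (T t23 (T t22 (T t24 (K a64 (M a240 (F (T t79 (L l144 (L l2101 (L l2257 (T t80 (T t81 N)))))))) (K a128 (M a240 (F (T t79 (L l2101 (L l2257 (T t80 (L l192 (L l220 (T t81 N))))))))) (K a85 (M a768 (F (T t86 (L l347 (L l2339 (T t29 (L l347 (L l2339 (T t30 N))))))))) (K a149 (M a768 (F (T t31 (L l347 (T t29 (L l1048 (T t32 N))))))) (K a213 (M a768 (F (T t31 (L l1048 (L l3203 (T t32 (T t33 N))))))) (K a106 (M a768 (F (T t86 (T t29 (L l1048 (T t32 N)))))) (K a170 (M a768 (F (T t31 (T t29 (L l220 (T t30 N)))))) (K a234 (M a768 (F (T t31 (L l1048 (T t32 (L l390 (L l3246 (T t33 N)))))))) (K a63 (M a768 (F (T t83 (L l1048 (L l3159 (T t35 (L l2209 (T t29 N)))))))) N)))))))))))))))⟩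
def e0_255__283_60 : Ent 5 := ⟨[a0, a255], [a283, a529], (M a192 (F (T t19 (T t23 (T t22 (T t24 (K a64 (M a240 (F (T t79 (L l144 (L l2257 (T t80 (T t81 N))))))) (K a128 (M a240 (F (T t79 (L l2257 (T t80 (L l192 (L l220 (T t81 N)))))))) (K a85 (M a768 (F (T t28 (L l347 (L l1405 (L l2339 (T t29 (L l347 (L l1405 (L l2339 (T t30 N))))))))))) (K a149 (M a768 (F (T t31 (L l347 (L l1405 (T t29 (L l1084 (L l1405 (T t32 N))))))))) (K a213 (M a768 (F (T t31 (L l1084 (L l1405 (L l3203 (T t32 (T t33 N)))))))) (K a106 (M a768 (F (T t28 (L l1405 (T t29 (L l1084 (L l1405 (T t32 N)))))))) (K a170 (M a768 (F (T t31 (L l1405 (T t29 (L l220 (L l1405 (T t30 N)))))))) (K a234 (M a768 (F (T t31 (L l1084 (L l1405 (T t32 (L l390 (L l3246 (T t33 N))))))))) (K a63 (M a768 (F (T t83 (L l1084 (L l3159 (T t35 (L l1405 (L l2209 (T t29 N))))))))) N)))))))))))))))⟩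
def e0_255__283_61 : Ent 5 := ⟨[a0, a255], [a283, a546], (M a192 (F (T t19 (T t23 (T t22 (T t24 (K a64 (M a240 (F (T t79 (L l144 (L l2257 (T t80 (T t81 N))))))) (K a128 (M a240 (F (T t79 (L l2257 (T t80 (L l192 (L l220 (T t81 N)))))))) (K a85 (M a768 (F (T t28 (L l347 (L l2339 (T t29 (L l347 (L l2339 (T t30 N))))))))) (K a149 (M a768 (F (T t31 (L l347 (T t29 (L l1084 (T t32 N))))))) (K a213 (M a768 (F (T t31 (L l1084 (L l3203 (T t32 (T t33 N))))))) (K a106 (M a768 (F (T t28 (T t29 (L l1084 (T t32 N)))))) (K a170 (M a768 (F (T t31 (T t29 (L l220 (T t30 N)))))) (K a234 (M a768 (F (T t31 (L l1084 (T t32 (L l390 (L l3246 (T t33 N)))))))) (K a63 (M a768 (F (T t74 (L l1084 (L l3159 (T t35 (L l2209 (T t29 N)))))))) N)))))))))))))))⟩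
def e0_255__283_62 : Ent 5 := ⟨[a0, a255], [a283, a551], (M a15 (F (T t354 (T t355 (T t356 (T t357 (K a240 (M a768 (F (T t358 (L l2836 (T t359 (L l2864 (T t39 N))))))) (K a5 (M a12 (F (T t360 (L l455 (T t154 (L l5 (T t361 N))))))) (K a85 (M a768 (F (T t362 (T t359 (L l455 (T t363 N)))))) (K a165 (M a768 (F (T t362 (T t359 (L l455 (T t39 N)))))) (K a10 (M a12 (F (T t360 (T t154 (L l462 (T t361 N)))))) (K a90 (M a768 (F (T t40 (T t364 (T t359 N))))) (K a170 (M a768 (F (T t364 (L l2598 (T t359 (L l180 (L l2598 (T t363 N)))))))) (K a95 (M a768 (F (T t362 (L l94 (L l2367 (T t39 (L l94 (L l2367 (T t365 N))))))))) (K a175 (M a768 (F (T t362 (T t39 (T t365 N))))) N)))))))))))))))⟩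
def e0_255__283_63 : Ent 5 := ⟨[a0, a255], [a283, a563], (M a192 (F (T t19 (T t23 (T t22 (T t24 (K a64 (M a240 (F (T t79 (L l144 (L l2257 (T t80 (T t81 N))))))) (K a128 (M a240 (F (T t79 (L l2257 (T t80 (L l192 (L l220 (T t81 N)))))))) (K a85 (M a768 (F (T t86 (L l347 (L l2339 (T t29 (L l347 (L l2339 (T t30 N))))))))) (K a149 (M a768 (F (T t31 (L l347 (T t29 (L l1084 (T t32 N))))))) (K a213 (M a768 (F (T t31 (L l1084 (L l3203 (T t32 (T t33 N))))))) (K a106 (M a768 (F (T t86 (T t29 (L l1084 (T t32 N)))))) (K a170 (M a768 (F (T t31 (T t29 (L l220 (T t30 N)))))) (K a234 (M a768 (F (T t31 (L l1084 (T t32 (L l390 (L l3246 (T t33 N)))))))) (K a63 (M a768 (F (T t83 (L l1084 (L l3159 (T t35 (L l2209 (T t29 N)))))))) N)))))))))))))))⟩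
def e0_255__283_64 : Ent 5 := ⟨[a0, a255], [a283, a580], (M a192 (F (T t19 (T t23 (T t22 (T t24 (K a64 (M a240 (F (T t79 (L l144 (L l2257 (T t80 (T t81 N))))))) (K a128 (M a240 (F (T t79 (L l2257 (T t80 (L l192 (L l220 (T t81 N)))))))) (K a85 (M a768 (F (T t28 (L l347 (L l1166 (L l2339 (T t29 (L l347 (L l1166 (L l2339 (T t30 N))))))))))) (K a149 (M a768 (F (T t28 (L l347 (L l1166 (T t29 (L l1166 (L l1368 (T t32 N))))))))) (K a213 (M a768 (F (T t28 (L l1166 (L l1368 (L l3203 (T t32 (T t33 N)))))))) (K a106 (M a768 (F (T t28 (L l1166 (T t29 (L l1166 (L l1368 (T t32 N)))))))) (K a170 (M a768 (F (T t28 (L l1166 (T t29 (L l220 (L l1166 (T t30 N)))))))) (K a234 (M a768 (F (T t28 (L l1166 (L l1368 (T t32 (L l390 (L l3246 (T t33 N))))))))) (K a63 (M a768 (F (T t83 (L l1120 (L l1368 (L l3159 (T t35 (L l1166 (L l2209 (T t29 N)))))))))) N)))))))))))))))⟩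
def e0_255__283_65 : Ent 5 := ⟨[a0, a255], [a283, a592], (M a192 (F (T t19 (T t23 (T t22 (T t24 (K a64 (M a240 (F (T t79 (L l144 (L l2257 (T t80 (T t81 N))))))) (K a128 (M a240 (F (T t79 (L l2257 (T t80 (L l192 (L l220 (T t81 N)))))))) (K a85 (M a768 (F (T t28 (L l347 (L l1134 (L l2339 (T t29 (L l347 (L l1134 (L l2339 (T t30 N))))))))))) (K a149 (M a768 (F (T t28 (L l347 (L l1134 (T t29 (L l1134 (L l1488 (T t32 N))))))))) (K a213 (M a768 (F (T t28 (L l1134 (L l1488 (L l3203 (T t32 (T t33 N)))))))) (K a106 (M a768 (F (T t28 (L l1134 (T t29 (L l1134 (L l1488 (T t32 N)))))))) (K a170 (M a768 (F (T t28 (L l1134 (T t29 (L l220 (L l1134 (T t30 N)))))))) (K a234 (M a768 (F (T t28 (L l1134 (L l1488 (T t32 (L l390 (L l3246 (T t33 N))))))))) (K a63 (M a768 (F (T t83 (L l1156 (L l1488 (L l3159 (T t35 (L l1134 (L l2209 (T t29 N)))))))))) N)))))))))))))))⟩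
def e0_255__283_66 : Ent 5 := ⟨[a0, a255], [a283, a597], (M a192 (F (T t23 (L l2339 (L l3203 (T t19 (L l2339 (T t22 (L l2511 (T t24 (K a64 (M a240 (F (T t79 (L l144 (L l2257 (L l2339 (L l3347 (T t80 (L l2367 (T t81 N)))))))))) (K a128 (M a240 (F (T t79 (L l2257 (L l2339 (L l3347 (T t80 (L l192 (L l220 (L l2367 (T t81 N))))))))))) (K a85 (M a341 (F (T t9 (L l1516 (T t10 (L l347 (L l1184 (L l1516 (L l3203 (T t366 (L l347 (L l3203 (T t367 N))))))))))))) (K a149 (M a208 (F (T t308 (L l3231 (T t309 (L l170 (L l220 (T t310 N)))))))) (K a213 (M a48 (L l3203 (F (T t137 (T t273 (L l347 (L l2339 (L l2483 (T t274 (K a789 (M a405 (F (T t137 (L l1628 (T t368 N))))) (K a405 (M a789 (F (T t137 (T t319 (L l347 (L l2339 (L l2483 (T t274 N)))))))) N))))))))))) (K a106 (M a224 (F (T t311 (L l3203 (T t312 (L l104 (L l144 (L l2339 (L l3203 (T t313 N)))))))))) (K a170 (M a1023 (F (T t369 (L l2339 (T t370 (L l220 (L l1516 (L l2598 (L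 l3203 (T t371 N)))))))))) (K a234 (M a48 (F (T t273 (L l2339 (L l2483 (T t136 (L l2339 (L l2483 (T t274 N))))))))) (K a63 (M a16 (F (T t352 (L l447 (T t353 (T t322 N)))))) N)))))))))))))))))))⟩
def e0_255__283_67 : Ent 5 := ⟨[a0, a255], [a283, a602], (M a192 (F (T t19 (T t23 (T t22 (T t24 (K a64 (M a240 (F (T t304 (L l144 (L l2257 (T t80 (T t81 N))))))) (K a128 (M a240 (F (T t304 (L l2257 (T t80 (L l192 (L l220 (T t81 N)))))))) (K a85 (M a768 (F (T t28 (L l347 (L l1134 (L l2339 (T t29 (L l347 (L l1134 (L l2339 (T t30 N))))))))))) (K a149 (M a768 (F (T t31 (L l347 (L l1134 (T t29 (L l1134 (T t32 N)))))))) (K a213 (M a768 (F (T t31 (L l1134 (L l3203 (T t32 (L l3354 (T t33 N)))))))) (K a106 (M a768 (F (T t35 (L l1134 (T t29 (L l1134 (T t32 N))))))) (K a170 (M a768 (F (T t31 (L l1134 (T t29 (L l220 (L l1134 (T t30 N)))))))) (K a234 (M a768 (F (T t31 (L l1134 (T t32 (L l390 (L l3246 (L l3354 (T t33 N))))))))) (K a63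 (M a768 (F (T t57 (L l1134 (L l2209 (T t29 (L l1134 (L l3073 (T t32 N))))))))) N)))))))))))))))⟩
def e0_255__283_68 : Ent 5 := ⟨[a0, a255], [a283, a607], (M a192 (F (T t19 (T t23 (T t22 (L l2497 (T t24 (K a64 (M a240 (F (T t79 (L l144 (L l2257 (T t80 (L l2353 (T t81 N)))))))) (K a128 (M a240 (F (T t79 (L l2257 (T t80 (L l192 (L l220 (L l2353 (T t81 N))))))))) (K a85 (M a768 (F (T t28 (L l347 (L l1134 (L l2339 (T t29 (L l347 (L l1134 (L l2339 (T t30 N))))))))))) (K a149 (M a768 (F (T t31 (L l347 (L l1134 (T t29 (L l1134 (T t32 N)))))))) (K a213 (M a768 (F (T t31 (L l1134 (L l3203 (T t32 (L l1177 (T t33 N)))))))) (K a106 (M a768 (F (T t35 (L l1134 (T t29 (L l1134 (T t32 N))))))) (K a170 (M a768 (F (T t31 (L l1134 (T t29 (L l220 (L l1134 (T t30 N)))))))) (K a234 (M a768 (F (T t31 (L l1134 (T t32 (L l390 (L l1177 (L l3246 (T t33 N))))))))) (K a63 (M a768 (F (T t83 (L l3159 (T t35 (L l1134 (L l2209 (T t29 N))))))))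 N))))))))))))))))⟩
def e0_255__283_69 : Ent 5 := ⟨[a0, a255], [a283, a614], (M a192 (F (T t19 (T t23 (T t22 (T t24 (K a64 (M a240 (F (T t79 (L l144 (L l2257 (T t80 (T t81 N))))))) (K a128 (M a240 (F (T t79 (L l2257 (T t80 (L l192 (L l220 (T t81 N)))))))) (K a85 (M a768 (F (T t28 (L l347 (L l1166 (L l2339 (T t29 (L l347 (L l1166 (L l2339 (T t30 N))))))))))) (K a149 (M a768 (F (T t31 (L l347 (L l1166 (T t29 (L l1166 (T t32 N)))))))) (K a213 (M a768 (F (T t31 (L l1166 (L l3203 (T t32 (L l3264 (T t33 N)))))))) (K a106 (M a768 (F (T t35 (L l1166 (T t29 (L l1166 (T t32 N))))))) (K a170 (M a768 (F (T t31 (L l1166 (T t29 (L l220 (L l1166 (T t30 N)))))))) (K a234 (M a768 (F (T t31 (L l1166 (T t32 (L l390 (L l3246 (L l3264 (T t33 N))))))))) (K a63 (M a768 (F (T t57 (L l1166 (L l2209 (T t29 (L l1166 (L l3073 (T t32 N))))))))) N)))))))))))))))⟩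
def e0_255__283_70 : Ent 5 := ⟨[a0, a255], [a283, a631], (M a192 (F (T t19 (T t23 (T t22 (L l2437 (T t24 (K a64 (M a240 (F (T t79 (L l144 (L l2257 (T t80 (T t81 N))))))) (K a128 (M a240 (F (T t79 (L l2257 (T t80 (L l192 (L l220 (T t81 N)))))))) (K a85 (M a768 (F (T t28 (L l347 (L l1166 (L l2339 (T t29 (L l347 (L l1166 (L l2339 (T t30 N))))))))))) (K a149 (M a768 (F (T t31 (L l347 (L l1166 (T t29 (L l1166 (T t32 N)))))))) (K a213 (M a768 (F (T t31 (L l1166 (L l3203 (T t32 (L l1153 (T t33 N)))))))) (K a106 (M a768 (F (T t35 (L l1166 (T t29 (L l1166 (T t32 N))))))) (K a170 (M a768 (F (T t31 (L l1166 (T t29 (L l220 (L l1166 (T t30 N)))))))) (K a234 (M a768 (F (T t31 (L l1166 (T t32 (L l390 (L l1153 (L l3246 (T t33 N))))))))) (K a63 (M a768 (F (T t83 (L l3159 (T t35 (L l1166 (L l2209 (T t29 N)))))))) N))))))))))))))))⟩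
def e0_255__283_71 : Ent 5 := ⟨[a0, a255], [a283, a648], (M a48 (F (T t136 (T t137 (T t135 (T t138 (K a16 (M a240 (F (T t139 (L l340 (L l368 (L l2257 (T t140 (T t141 N)))))))) (K a32 (M a240 (F (T t139 (L l2257 (T t140 (L l376 (L l404 (T t141 N)))))))) (K a85 (M a768 (F (T t142 (L l123 (L l2339 (T t143 (L l123 (L l2339 (T t144 N))))))))) (K a101 (M a768 (F (T t145 (L l123 (T t143 (L l1368 (T t32 N))))))) (K a117 (M a768 (F (T t145 (L l1368 (L l2483 (T t32 (T t146 N))))))) (K a154 (M a768 (F (T t142 (T t143 (L l1368 (T t32 N)))))) (K a170 (M a768 (F (T t145 (T t143 (L l404 (T t144 N)))))) (K a186 (M a768 (F (T t145 (L l1368 (T t32 (L l206 (L l2706 (T t146 N)))))))) (K a207 (M a768 (F (T t74 (L l1368 (L l3339 (T t148 (L l2749 (T t143 N)))))))) N)))))))))))))))⟩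
def e0_255__283_72 : Ent 5 := ⟨[a0, a255], [a283, a665], (M a192 (F (T t19 (T t23 (T t22 (T t24 (K a64 (M a240 (F (T t79 (L l144 (L l2257 (T t80 (T t81 N))))))) (K a128 (M a240 (F (T t79 (L l2257 (T t80 (L l192 (L l220 (T t81 N)))))))) (K a85 (M a768 (F (T t28 (L l347 (L l1405 (L l2339 (T t29 (L l347 (L l1405 (L l2339 (T t30 N))))))))))) (K a149 (M a768 (F (T t31 (L l347 (L l1405 (T t29 (L l1405 (T t32 N)))))))) (K a213 (M a768 (F (T t31 (L l1405 (L l3203 (T t32 (L l2709 (T t33 N)))))))) (K a106 (M a768 (F (T t35 (L l1405 (T t29 (L l1405 (T t32 N))))))) (K a170 (M a768 (F (T t31 (L l1405 (T t29 (L l220 (L l1405 (T t30 N)))))))) (K a234 (M a768 (F (T t31 (L l1405 (T t32 (L l390 (L l2709 (L l3246 (T t33 N))))))))) (K a63 (M a768 (F (T t57 (L l1405 (L l2209 (T t29 (L l1405 (L l3073 (T t32 N))))))))) N)))))))))))))))⟩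
def e0_255__283_73 : Ent 5 := ⟨[a0, a255], [a283, a672], (M a12 (F (T t154 (T t155 (T t153 (T t156 (K a4 (M a204 (F (T t157 (L l310 (L l458 (T t158 (L l310 (L l458 (T t159 N))))))))) (K a8 (M a204 (F (T t157 (T t158 (T t159 N))))) (K a85 (M a768 (F (T t160 (L l91 (L l2339 (T t161 (L l91 (L l2339 (T t162 N))))))))) (K a89 (M a768 (F (T t163 (L l91 (T t161 (L l1488 (T t32 N))))))) (K a93 (M a768 (F (T t163 (L l1488 (L l2363 (T t32 (L l91 (L l2363 (T t164 N))))))))) (K a166 (M a768 (F (T t160 (T t161 (L l1488 (T t32 N)))))) (K a170 (M a768 (F (T t163 (T t161 (L l464 (T t162 N)))))) (K a174 (M a768 (F (T t163 (L l1488 (T t32 (T t164 N)))))) (K a243 (M a768 (F (T t74 (L l1488 (L l3369 (T t166 (L l2839 (T t161 N)))))))) N)))))))))))))))⟩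
def e0_255__283_74 : Ent 5 := ⟨[a0, a255], [a283, a677], (M a192 (F (T t19 (T t23 (T t22 (T t24 (K a64 (M a240 (F (T t79 (L l144 (L l2257 (L l3123 (T t80 (T t81 N)))))))) (K a128 (M a240 (F (T t79 (L l2257 (L l3123 (T t80 (L l192 (L l220 (T t81 N))))))))) (K a85 (M a768 (F (T t28 (L l347 (L l1495 (L l2339 (T t29 (L l347 (L l1495 (L l2339 (T t30 N))))))))))) (K a149 (M a768 (F (T t31 (L l347 (L l1495 (T t29 (L l1495 (T t32 N)))))))) (K a213 (M a768 (F (T t31 (L l1495 (L l3203 (T t32 (L l2619 (T t33 N)))))))) (K a106 (M a768 (F (T t35 (L l1495 (T t29 (L l1495 (T t32 N))))))) (K a170 (M a768 (F (T t31 (L l1495 (T t29 (L l220 (L l1495 (T t30 N)))))))) (K a234 (M a768 (F (T t31 (L l1495 (T t32 (L l390 (L l2619 (L l3246 (T t33 N))))))))) (K a63 (M a768 (F (T t57 (L l1495 (L l2209 (T t29 (L l1495 (L l3073 (T t32 N))))))))) N)))))))))))))))⟩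
def e0_255__283_75 : Ent 5 := ⟨[a0, a255], [a283, a682], (M a192 (F (T t22 (L l3030 (T t19 (L l2598 (T t23 (L l2598 (L l2684 (T t24 (K a64 (M a240 (F (T t79 (L l144 (L l2257 (L l3102 (T t80 (L l2598 (L l2612 (T t81 N)))))))))) (K a128 (M a204 (L l2684 (F (T t192 (L l3042 (T t184 (L l3030 (T t185 (K a405 (M a959 (F (T t158 (T t372 (L l3030 (L l3203 (T t185 N))))))) (K a959 (M a405 (F (T t158 (L l2512 (T t373 N))))) N)))))))))) (K a85 (M a768 (F (T t28 (L l2598 (T t245 (L l347 (L l1516 (L l2339 (L l2684 (T t30 N)))))))))) (K a149 (M a768 (F (T t31 (L l2598 (T t245 (L l220 (L l347 (L l1516 (L l2684 (T t30 N)))))))))) (K a213 (M a48 (F (T t374 (L l347 (L l2670 (T t136 (L l347 (L l2670 (T t274 N))))))))) (K a106 (M a768 (F (T t28 (L l390 (L l2598 (T t245 (L l1516 (L l2684 (T t30 N))))))))) (K a170 (M a426 (F (T t375 (L l1516 (T t376 (L l220 (L l1430 (L l1516 (L l2684 (T t377 (L l220 (L l1430 (L l2684 (T t378 N))))))))))))))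 (K a234 (M a48 (F (T t319 (L l2670 (T t136 (L l2670 (T t274 N))))))) (K a63 (M a768 (F (L l3159 (T t31 (L l2209 (L l2598 (T t245 (L l1516 (L l2684 (T t30 N)))))))))) N)))))))))))))))))))⟩
def e0_255__283_76 : Ent 5 := ⟨[a0, a255], [a283, a687], (M a192 (F (T t19 (T t23 (T t22 (T t24 (K a64 (M a240 (F (T t79 (L l144 (L l2257 (L l3109 (T t80 (T t81 N)))))))) (K a128 (M a240 (F (T t79 (L l2257 (L l3109 (T t80 (L l192 (L l220 (T t81 N))))))))) (K a85 (M a768 (F (T t28 (L l347 (L l2339 (T t29 (L l347 (L l2339 (T t30 N))))))))) (K a149 (M a768 (F (T t31 (L l347 (T t29 (L l3109 (T t32 N))))))) (K a213 (M a768 (F (T t31 (L l3109 (L l3203 (T t32 (T t33 N))))))) (K a106 (M a768 (F (T t28 (T t29 (L l3109 (T t32 N)))))) (K a170 (M a768 (F (T t31 (T t29 (L l220 (T t30 N)))))) (K a234 (M a768 (F (T t31 (L l3109 (T t32 (L l390 (L l3246 (T t33 N)))))))) (K a63 (M a768 (F (T t83 (L l3159 (T t35 (L l2209 (T t29 N))))))) N)))))))))))))))⟩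
def e0_255__283_77 : Ent 5 := ⟨[a0, a255], [a283, a699], (M a192 (F (T t19 (T t23 (T t22 (T t24 (K a64 (M a240 (F (T t79 (L l144 (L l2257 (T t80 (T t81 N))))))) (K a128 (M a240 (F (T t79 (L l2257 (T t80 (L l192 (L l220 (T t81 N)))))))) (K a85 (M a768 (F (T t28 (L l347 (L l2339 (T t29 (L l347 (L l2339 (T t30 N))))))))) (K a149 (M a768 (F (T t31 (L l347 (T t29 (L l3079 (T t32 N))))))) (K a213 (M a768 (F (T t31 (L l3079 (L l3203 (T t32 (T t33 N))))))) (K a106 (M a768 (F (T t28 (T t29 (L l3079 (T t32 N)))))) (K a170 (M a768 (F (T t31 (T t29 (L l220 (T t30 N)))))) (K a234 (M a768 (F (T t31 (L l3079 (T t32 (L l390 (L l3246 (T t33 N)))))))) (K a63 (M a768 (F (T t83 (L l3159 (T t35 (L l2209 (T t29 N))))))) N)))))))))))))))⟩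
def e0_255__283_78 : Ent 5 := ⟨[a0, a255], [a283, a716], (M a192 (F (T t19 (T t23 (T t22 (T t24 (K a64 (M a240 (F (T t79 (L l144 (L l2257 (T t80 (T t81 N))))))) (K a128 (M a240 (F (T t79 (L l2257 (T t80 (L l192 (L l220 (T t81 N)))))))) (K a85 (M a768 (F (T t86 (L l347 (L l2339 (T t29 (L l347 (L l2339 (T t30 N))))))))) (K a149 (M a768 (F (T t31 (L l347 (T t29 (L l1368 (T t32 N))))))) (K a213 (M a768 (F (T t31 (L l1368 (L l3203 (T t32 (T t33 N))))))) (K a106 (M a768 (F (T t86 (T t29 (L l1368 (T t32 N)))))) (K a170 (M a768 (F (T t31 (T t29 (L l220 (T t30 N)))))) (K a234 (M a768 (F (T t31 (L l1368 (T t32 (L l390 (L l3246 (T t33 N)))))))) (K a63 (M a768 (F (T t83 (L l1368 (L l3159 (T t35 (L l2209 (T t29 N)))))))) N)))))))))))))))⟩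
def e0_255__283_79 : Ent 5 := ⟨[a0, a255], [a283, a728], (M a192 (F (T t19 (T t23 (T t22 (T t24 (K a64 (M a240 (F (T t79 (L l144 (L l2257 (T t80 (T t81 N))))))) (K a128 (M a240 (F (T t79 (L l2257 (T t80 (L l192 (L l220 (T t81 N)))))))) (K a85 (M a768 (F (T t28 (L l347 (L l2339 (T t29 (L l347 (L l2339 (T t30 N))))))))) (K a149 (M a768 (F (T t40 (T t35 (L l347 (T t29 N)))))) (K a213 (M a768 (F (T t31 (L l3203 (T t32 (T t33 N)))))) (K a106 (M a768 (F (T t40 (T t35 (T t29 N))))) (K a170 (M a768 (F (T t31 (T t29 (L l220 (T t30 N)))))) (K a234 (M a768 (F (T t31 (T t32 (L l390 (L l3246 (T t33 N))))))) (K a63 (M a768 (F (T t83 (L l3159 (T t35 (L l2209 (T t29 N))))))) N)))))))))))))))⟩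
def e0_255__283_80 : Ent 5 := ⟨[a0, a255], [a283, a733], (M a192 (F (T t19 (T t23 (T t22 (T t24 (K a64 (M a240 (F (T t79 (L l144 (L l2257 (T t80 (T t81 N))))))) (K a128 (M a240 (F (T t79 (L l2257 (T t80 (L l192 (L l220 (T t81 N)))))))) (K a85 (M a768 (F (T t28 (L l347 (L l1405 (L l2339 (T t29 (L l347 (L l1405 (L l2339 (T t30 N))))))))))) (K a149 (M a768 (F (T t31 (L l347 (L l1405 (T t29 (L l1405 (T t32 N)))))))) (K a213 (M a768 (F (T t31 (L l1405 (L l3203 (T t32 (T t33 N))))))) (K a106 (M a768 (F (T t28 (L l1405 (T t29 (L l1405 (T t32 N))))))) (K a170 (M a768 (F (T t31 (L l1405 (T t29 (L l220 (L l1405 (T t30 N)))))))) (K a234 (M a768 (F (T t31 (L l1405 (T t32 (L l390 (L l3246 (T t33 N)))))))) (K a63 (M a768 (F (T t83 (L l3159 (T t35 (L l1405 (L l2209 (T t29 N)))))))) N)))))))))))))))⟩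
def e0_255__283_81 : Ent 5 := ⟨[a0, a255], [a283, a750], (M a192 (F (T t19 (T t23 (T t22 (T t24 (K a64 (M a240 (F (T t79 (L l144 (L l2257 (T t80 (T t81 N))))))) (K a128 (M a240 (F (T t79 (L l2257 (T t80 (L l192 (L l220 (T t81 N)))))))) (K a85 (M a768 (F (T t28 (L l347 (L l2339 (T t29 (L l347 (L l2339 (T t30 N))))))))) (K a149 (M a768 (F (T t31 (L l347 (T t29 (L l2894 (T t32 N))))))) (K a213 (M a768 (F (T t31 (L l2894 (L l3203 (T t32 (T t33 N))))))) (K a106 (M a768 (F (T t28 (T t29 (L l2894 (T t32 N)))))) (K a170 (M a768 (F (T t31 (T t29 (L l220 (T t30 N)))))) (K a234 (M a768 (F (T t31 (L l2894 (T t32 (L l390 (L l3246 (T t33 N)))))))) (K a63 (M a768 (F (T t83 (L l3159 (T t35 (L l2209 (T t29 N))))))) N)))))))))))))))⟩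
def e0_255__283_82 : Ent 5 := ⟨[a0, a255], [a283, a752], (M a192 (F (T t19 (T t23 (T t22 (T t24 (K a64 (M a240 (F (T t79 (L l144 (L l2257 (T t80 (T t81 N))))))) (K a128 (M a240 (F (T t79 (L l2257 (T t80 (L l192 (L l220 (T t81 N)))))))) (K a85 (M a768 (F (T t86 (L l347 (L l2339 (T t29 (L l347 (L l2339 (T t30 N))))))))) (K a149 (M a768 (F (T t31 (L l347 (T t29 (L l1488 (T t32 N))))))) (K a213 (M a768 (F (T t31 (L l1488 (L l3203 (T t32 (T t33 N))))))) (K a106 (M a768 (F (T t86 (T t29 (L l1488 (T t32 N)))))) (K a170 (M a768 (F (T t31 (T t29 (L l220 (T t30 N)))))) (K a234 (M a768 (F (T t31 (L l1488 (T t32 (L l390 (L l3246 (T t33 N)))))))) (K a63 (M a768 (F (T t83 (L l1488 (L l3159 (T t35 (L l2209 (T t29 N)))))))) N)))))))))))))))⟩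
def e0_255__283_83 : Ent 5 := ⟨[a0, a255], [a283, a757], (M a192 (F (T t19 (T t23 (T t22 (T t24 (K a64 (M a240 (F (T t79 (L l144 (L l2257 (L l2843 (T t80 (T t81 N)))))))) (K a128 (M a240 (F (T t79 (L l2257 (L l2843 (T t80 (L l192 (L l220 (T t81 N))))))))) (K a85 (M a768 (F (T t28 (L l347 (L l1495 (L l2339 (T t29 (L l347 (L l1495 (L l2339 (T t30 N))))))))))) (K a149 (M a768 (F (T t31 (L l347 (L l1495 (T t29 (L l1495 (T t32 N)))))))) (K a213 (M a768 (F (T t31 (L l1495 (L l3203 (T t32 (T t33 N))))))) (K a106 (M a768 (F (T t28 (L l1495 (T t29 (L l1495 (T t32 N))))))) (K a170 (M a768 (F (T t31 (L l1495 (T t29 (L l220 (L l1495 (T t30 N)))))))) (K a234 (M a768 (F (T t31 (L l1495 (T t32 (L l390 (L l3246 (T t33 N)))))))) (K a63 (M a768 (F (T t83 (L l3159 (T t35 (L l1495 (L l2209 (T t29 N)))))))) N)))))))))))))))⟩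
def e0_255__283_84 : Ent 5 := ⟨[a0, a255], [a283, a762], (M a192 (F (T t19 (T t23 (T t22 (T t24 (K a64 (M a240 (F (T t304 (L l144 (L l2257 (T t80 (T t81 N))))))) (K a128 (M a240 (F (T t304 (L l2257 (T t80 (L l192 (L l220 (T t81 N)))))))) (K a85 (M a768 (F (T t28 (L l347 (L l2339 (T t29 (L l347 (L l2339 (T t30 N))))))))) (K a149 (M a768 (F (T t31 (L l347 (T t29 (L l2864 (T t32 N))))))) (K a213 (M a768 (F (T t31 (L l2864 (L l3203 (T t32 (T t33 N))))))) (K a106 (M a768 (F (T t28 (T t29 (L l2864 (T t32 N)))))) (K a170 (M a768 (F (T t31 (T t29 (L l220 (T t30 N)))))) (K a234 (M a768 (F (T t31 (L l2864 (T t32 (L l390 (L l3246 (T t33 N)))))))) (K a63 (M a768 (F (T t83 (L l3159 (T t35 (L l2209 (T t29 N))))))) N)))))))))))))))⟩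
def e0_255__283_85 : Ent 5 := ⟨[a0, a255], [a283, a767], (M a192 (F (T t19 (T t23 (T t22 (T t24 (K a64 (M a240 (F (T t79 (L l144 (L l2257 (T t80 (T t81 N))))))) (K a128 (M a240 (F (T t79 (L l2257 (T t80 (L l192 (L l220 (T t81 N)))))))) (K a85 (M a768 (F (T t86 (T t245 (L l347 (L l1516 (L l2339 (T t30 N)))))))) (K a149 (M a768 (F (T t31 (T t245 (L l347 (L l1516 (T t39 N))))))) (K a213 (M a768 (F (T t31 (L l347 (L l1516 (L l3203 (T t39 (L l1473 (T t33 N))))))))) (K a106 (M a768 (F (T t86 (L l390 (T t245 (L l144 (L l1516 (T t39 N)))))))) (K a170 (M a768 (F (T t31 (L l390 (L l2598 (T t245 (L l220 (L l1516 (T t30 N))))))))) (K a234 (M a768 (F (T t31 (L l1516 (T t39 (L l390 (L l1473 (L l3246 (T t33 N))))))))) (K a63 (M a768 (F (T t49 (L l3159 (T t31 (L l1516 (L l3073 (T t39 N)))))))) N)))))))))))))))⟩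
def e0_255__283_86 : Ent 5 := ⟨[a0, a255], [a283, a768], (M a192 (F (T t46 (L l2295 (T t19 (L l2295 (T t23 (L l2295 (T t22 (L l2295 (T t24 (K a64 (M a240 (F (T t84 (L l144 (L l2115 (L l2257 (T t80 (T t81 N)))))))) (K a128 (M a240 (F (T t84 (L l2115 (L l2257 (T t80 (L l192 (L l220 (T t81 N))))))))) (K a85 (M a1023 (F (T t379 (L l1628 (L l2339 (T t370 (L l347 (L l1628 (T t371 N))))))))) (K a149 (M a208 (F (T t380 (L l2260 (T t308 (L l170 (L l220 (T t310 N)))))))) (K a213 (M a48 (F (T t381 (L l347 (L l3195 (T t136 (L l347 (T t274 N)))))))) (K a106 (M a224 (F (T t382 (L l2260 (T t311 (L l104 (L l144 (T t313 N)))))))) (K a170 (M a1023 (F (T t383 (L l390 (L l1864 (T t384 (L l220 (L l1628 (L l2598 (T t371 N)))))))))) (K a234 (M a48 (F (T t381 (L l3195 (T t136 (T t274 N)))))) (K a63 (M a16 (L l2295 (F (T t352 (L l447 (L l3340 (T t353 (T t322 (K a533 (M a298 (F (T t385 (L l505 (L l3195 (T t321 (T t322 N))))))) (K a298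 (M a533 (F (T t385 (L l505 (L l3195 (T t321 (T t322 N))))))) N)))))))))) N))))))))))))))))))))⟩
def e0_255__283_87 : Ent 5 := ⟨[a0, a255], [a283, a773], (M a192 (F (T t19 (T t23 (T t22 (T t24 (K a64 (M a240 (F (T t25 (L l144 (L l2257 (L l3347 (T t80 (T t81 N)))))))) (K a128 (M a240 (F (T t25 (L l2257 (L l3347 (T t80 (L l192 (L l220 (T t81 N))))))))) (K a85 (M a768 (F (T t28 (L l347 (L l2339 (L l3347 (T t29 (L l347 (L l2339 (L l3347 (T t30 N))))))))))) (K a149 (M a768 (F (T t31 (L l347 (L l3347 (T t29 (L l3347 (T t32 N)))))))) (K a213 (M a768 (F (T t31 (L l3203 (L l3347 (T t32 (L l2015 (T t33 N)))))))) (K a106 (M a768 (F (T t28 (L l3347 (T t29 (L l3347 (T t32 N))))))) (K a170 (M a768 (F (T t31 (L l3347 (T t29 (L l220 (L l3347 (T t30 N)))))))) (K a234 (M a768 (F (T t31 (L l3347 (T t32 (L l390 (L l2015 (L l3246 (T t33 N))))))))) (K a63 (M a768 (F (T t74 (L l3159 (T t35 (L l2209 (L l3347 (T t29 N)))))))) N)))))))))))))))⟩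
def e0_255__283_88 : Ent 5 := ⟨[a0, a255], [a283, a778], (M a192 (F (T t19 (T t23 (T t22 (T t24 (K a64 (M a240 (F (T t25 (L l144 (L l2094 (L l2257 (T t80 (T t81 N)))))))) (K a128 (M a240 (F (T t386 (L l2094 (L l2257 (T t80 (L l192 (L l220 (T t81 N))))))))) (K a85 (M a768 (F (T t28 (L l347 (L l1614 (L l2339 (T t29 (L l347 (L l1614 (L l2339 (T t30 N))))))))))) (K a149 (M a768 (F (T t31 (L l347 (L l1614 (T t29 (T t32 N))))))) (K a213 (M a768 (F (T t31 (L l3203 (T t32 (L l3354 (T t33 N))))))) (K a106 (M a768 (F (T t28 (L l1614 (T t29 (T t32 N)))))) (K a170 (M a768 (F (T t31 (L l1614 (T t29 (L l220 (L l1614 (T t30 N)))))))) (K a234 (M a768 (F (T t31 (T t32 (L l390 (L l3246 (L l3354 (T t33 N)))))))) (K a63 (M a768 (F (T t38 (L l3159 (T t35 (L l1614 (L l2209 (T t29 N)))))))) N)))))))))))))))⟩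
def e0_255__283_89 : Ent 5 := ⟨[a0, a255], [a283, a783], (M a192 (F (T t46 (L l2281 (T t19 (L l2281 (T t23 (L l2281 (T t22 (L l2281 (T t24 (K a64 (M a240 (F (T t84 (L l144 (L l2101 (L l2257 (T t80 (T t81 N)))))))) (K a128 (M a240 (F (T t84 (L l2101 (L l2257 (T t80 (L l192 (L l220 (T t81 N))))))))) (K a85 (M a768 (F (T t85 (L l1899 (T t35 (L l347 (L l2339 (T t30 N)))))))) (K a149 (M a768 (F (T t49 (L l1899 (T t35 (L l2029 (T t32 N))))))) (K a213 (M a768 (F (T t62 (L l2029 (L l3203 (T t32 (T t33 N))))))) (K a106 (M a768 (F (T t43 (L l1899 (T t35 (L l2029 (T t32 N))))))) (K a170 (M a768 (F (T t42 (L l1899 (T t35 (L l220 (T t30 N))))))) (K a234 (M a768 (F (T t37 (L l1899 (T t35 (L l390 (L l3246 (T t33 N)))))))) (K a63 (M a768 (L l2281 (F (T t38 (L l1899 (L l3159 (T t35 (L l1621 (L l2209 (T t29 (K a543 (M a303 (F (T t74 (L l1621 (L l2209 (T t48 (L l1899 (L l3159 (T t86 N))))))))) (K a303 (M a543 (F (T t74 (L l1621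 (L l2209 (T t48 (L l1899 (L l3159 (T t86 N))))))))) N)))))))))))) N))))))))))))))))))))⟩
def e0_255__283_90 : Ent 5 := ⟨[a0, a255], [a283, a785], (M a192 (F (T t19 (T t23 (T t22 (T t24 (K a64 (M a240 (F (T t79 (L l144 (L l2257 (T t80 (T t81 N))))))) (K a128 (M a240 (F (T t79 (L l2257 (T t80 (L l192 (L l220 (T t81 N)))))))) (K a85 (M a768 (F (T t28 (L l347 (L l2339 (L l3227 (T t29 (L l347 (L l2339 (L l3227 (T t30 N))))))))))) (K a149 (M a768 (F (T t31 (L l347 (L l3227 (T t29 (L l3227 (T t32 N)))))))) (K a213 (M a768 (F (T t31 (L l3203 (L l3227 (T t32 (L l1925 (T t33 N)))))))) (K a106 (M a768 (F (T t28 (L l3227 (T t29 (L l3227 (T t32 N))))))) (K a170 (M a768 (F (T t31 (L l3227 (T t29 (L l220 (L l3227 (T t30 N)))))))) (K a234 (M a768 (F (T t31 (L l3227 (T t32 (L l390 (L l1925 (L l3246 (T t33 N))))))))) (K a63 (M a768 (F (T t74 (L l3159 (T t35 (L l2209 (L l3227 (T t29 N)))))))) N)))))))))))))))⟩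
def e0_255__283_91 : Ent 5 := ⟨[a0, a255], [a283, a802], (M a192 (F (T t19 (T t23 (T t22 (T t24 (K a64 (M a240 (F (T t79 (L l144 (L l2257 (T t80 (T t81 N))))))) (K a128 (M a240 (F (T t79 (L l2257 (T t80 (L l192 (L l220 (T t81 N)))))))) (K a85 (M a768 (F (T t28 (L l347 (L l1586 (L l2339 (T t29 (L l347 (L l1586 (L l2339 (T t30 N))))))))))) (K a149 (M a768 (F (T t31 (L l347 (L l1586 (T t29 (T t32 N))))))) (K a213 (M a768 (F (T t31 (L l3203 (T t32 (L l3264 (T t33 N))))))) (K a106 (M a768 (F (T t28 (L l1586 (T t29 (T t32 N)))))) (K a170 (M a768 (F (T t31 (L l1586 (T t29 (L l220 (L l1586 (T t30 N)))))))) (K a234 (M a768 (F (T t31 (T t32 (L l390 (L l3246 (L l3264 (T t33 N)))))))) (K a63 (M a768 (F (T t38 (L l3159 (T t35 (L l1586 (L l2209 (T t29 N)))))))) N)))))))))))))))⟩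
def e0_255__283_92 : Ent 5 := ⟨[a0, a255], [a283, a807], (M a192 (F (T t19 (T t23 (T t22 (T t24 (K a64 (M a240 (F (T t79 (L l144 (L l2257 (T t80 (T t81 N))))))) (K a128 (M a240 (F (T t79 (L l2257 (T t80 (L l192 (L l220 (T t81 N)))))))) (K a85 (M a768 (F (T t28 (L l347 (L l2339 (T t29 (L l347 (L l2339 (T t30 N))))))))) (K a149 (M a768 (F (T t40 (T t35 (L l347 (T t29 N)))))) (K a213 (M a768 (F (T t31 (L l3203 (T t32 (T t33 N)))))) (K a106 (M a768 (F (T t40 (T t35 (T t29 N))))) (K a170 (M a768 (F (T t31 (T t29 (L l220 (T t30 N)))))) (K a234 (M a768 (F (T t31 (T t32 (L l390 (L l3246 (T t33 N))))))) (K a63 (M a768 (F (T t83 (L l3159 (T t35 (L l2209 (T t29 N))))))) N)))))))))))))))⟩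
def e0_255__283_93 : Ent 5 := ⟨[a0, a255], [a283, a819], (M a15 (F (T t387 (L l3272 (T t354 (L l3272 (T t355 (L l3272 (T t356 (L l3272 (T t357 (K a240 (M a768 (L l3272 (F (T t37 (L l1633 (L l3368 (T t364 (L l1977 (L l2836 (T t359 (K a433 (M a626 (F (T t74 (L l1977 (L l2836 (T t388 (L l1633 (L l3368 (T t389 N))))))))) (K a626 (M a433 (F (T t74 (L l1977 (L l2836 (T t388 (L l1633 (L l3368 (T t389 N))))))))) N)))))))))))) (K a5 (M a12 (F (T t390 (L l3302 (T t391 (L l5 (T t361 N))))))) (K a85 (M a768 (F (T t392 (L l455 (L l1633 (T t364 (L l455 (T t363 N)))))))) (K a165 (M a768 (F (T t393 (L l455 (L l1633 (T t364 (L l455 (L l1999 (T t39 N))))))))) (K a10 (M a12 (F (T t394 (L l3302 (T t391 (L l462 (T t361 N))))))) (K a90 (M a768 (F (T t392 (L l1633 (T t364 (L l94 (L l1999 (T t39 N)))))))) (K a170 (M a768 (F (T t395 (L l1633 (T t364 (L l180 (L l2598 (T t363 N)))))))) (K a95 (M a768 (F (T t83 (L l1633 (T t364 (L l94 (L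 l2367 (T t365 N)))))))) (K a175 (M a768 (F (T t358 (L l1999 (T t39 (T t365 N)))))) N))))))))))))))))))))⟩
def e0_255__283_94 : Ent 5 := ⟨[a0, a255], [a283, a836], (M a192 (F (T t19 (T t23 (T t22 (T t24 (K a64 (M a240 (F (T t79 (L l144 (L l2257 (T t80 (T t81 N))))))) (K a128 (M a240 (F (T t79 (L l2257 (T t80 (L l192 (L l220 (T t81 N)))))))) (K a85 (M a768 (F (T t28 (L l347 (L l2339 (L l2487 (T t29 (L l347 (L l2339 (L l2487 (T t30 N))))))))))) (K a149 (M a768 (F (T t31 (L l347 (L l2487 (T t29 (L l2487 (T t32 N)))))))) (K a213 (M a768 (F (T t31 (L l2487 (L l3203 (T t32 (L l1686 (T t33 N)))))))) (K a106 (M a768 (F (T t28 (L l2487 (T t29 (L l2487 (T t32 N))))))) (K a170 (M a768 (F (T t31 (L l2487 (T t29 (L l220 (L l2487 (T t30 N)))))))) (K a234 (M a768 (F (T t31 (L l2487 (T t32 (L l390 (L l1686 (L l3246 (T t33 N))))))))) (K a63 (M a768 (F (T t74 (L l3159 (T t35 (L l2209 (L l2487 (T t29 N)))))))) N)))))))))))))))⟩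
def e0_255__283_95 : Ent 5 := ⟨[a0, a255], [a283, a848], (M a192 (F (T t19 (T t23 (T t22 (T t24 (K a64 (M a240 (F (T t79 (L l144 (L l2257 (T t80 (L l2367 (T t81 N)))))))) (K a128 (M a240 (F (T t79 (L l2257 (T t80 (L l192 (L l220 (L l2367 (T t81 N))))))))) (K a85 (M a768 (F (T t28 (L l347 (L l2339 (L l2367 (T t29 (L l347 (L l2339 (L l2367 (T t30 N))))))))))) (K a149 (M a768 (F (T t31 (L l347 (L l2367 (T t29 (L l2367 (T t32 N)))))))) (K a213 (M a768 (F (T t31 (L l2367 (L l3203 (T t32 (L l1654 (T t33 N)))))))) (K a106 (M a768 (F (T t28 (L l2367 (T t29 (L l2367 (T t32 N))))))) (K a170 (M a768 (F (T t31 (L l2367 (T t29 (L l220 (L l2367 (T t30 N)))))))) (K a234 (M a768 (F (T t31 (L l2367 (T t32 (L l390 (L l1654 (L l3246 (T t33 N))))))))) (K a63 (M a768 (F (T t74 (L l3159 (T t35 (L l2209 (L l2367 (T t29 N)))))))) N)))))))))))))))⟩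
def e0_255__283_96 : Ent 5 := ⟨[a0, a255], [a283, a853], (M a192 (F (T t23 (L l2339 (T t19 (L l2339 (T t22 (T t24 (K a64 (M a240 (F (T t79 (L l144 (L l2257 (L l2339 (T t80 (T t81 N)))))))) (K a128 (M a240 (F (T t79 (L l2257 (L l2339 (T t80 (L l192 (L l220 (T t81 N))))))))) (K a85 (M a341 (F (T t396 (L l347 (L l1704 (T t11 (T t10 N))))))) (K a149 (M a768 (F (T t31 (L l347 (L l2339 (T t29 (L l2339 (T t32 N)))))))) (K a213 (M a768 (F (T t35 (L l2339 (L l3203 (T t32 (L l2339 (L l3203 (T t397 N))))))))) (K a106 (M a768 (F (T t28 (L l2339 (T t29 (L l2339 (T t32 N))))))) (K a170 (M a768 (F (T t31 (L l2339 (T t29 (L l220 (L l1704 (L l2339 (T t30 N))))))))) (K a234 (M a768 (F (T t35 (L l2339 (T t32 (L l2339 (T t397 N))))))) (K a63 (M a768 (F (T t85 (L l3159 (T t35 (L l2339 (L l3073 (T t32 N)))))))) N)))))))))))))))))⟩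
def e0_255__283_97 : Ent 5 := ⟨[a0, a255], [a283, a858], (M a192 (F (T t19 (T t23 (T t22 (T t24 (K a64 (M a240 (F (T t79 (L l144 (L l2257 (T t80 (T t81 N))))))) (K a128 (M a240 (F (T t79 (L l2257 (T t80 (L l192 (L l220 (T t81 N)))))))) (K a85 (M a768 (F (T t28 (L l347 (L l2339 (T t29 (L l347 (L l2339 (T t30 N))))))))) (K a149 (M a768 (F (T t31 (L l347 (T t29 (T t32 N)))))) (K a213 (M a768 (F (T t31 (L l3203 (T t32 (L l1654 (T t33 N))))))) (K a106 (M a768 (F (T t35 (T t29 (T t32 N))))) (K a170 (M a768 (F (T t31 (T t29 (L l220 (T t30 N)))))) (K a234 (M a768 (F (T t31 (T t32 (L l390 (L l1654 (L l3246 (T t33 N)))))))) (K a63 (M a768 (F (T t74 (L l3159 (T t35 (L l2209 (T t29 N))))))) N)))))))))))))))⟩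
def e0_255__283_98 : Ent 5 := ⟨[a0, a255], [a283, a863], (M a192 (F (T t19 (T t23 (T t22 (T t24 (K a64 (M a240 (F (T t79 (L l144 (L l2257 (T t80 (L l2353 (T t81 N)))))))) (K a128 (M a240 (F (T t79 (L l2257 (T t80 (L l192 (L l220 (L l2353 (T t81 N))))))))) (K a85 (M a768 (F (T t28 (L l347 (L l2339 (T t29 (L l347 (L l1697 (L l2339 (T t30 N)))))))))) (K a149 (M a768 (F (T t31 (L l347 (T t29 (L l2029 (T t32 N))))))) (K a213 (M a768 (F (T t31 (L l2029 (L l3203 (T t32 (L l1654 (T t33 N)))))))) (K a106 (M a768 (F (T t28 (T t29 (L l2029 (T t32 N)))))) (K a170 (M a768 (F (T t31 (T t29 (L l220 (L l1697 (T t30 N))))))) (K a234 (M a768 (F (T t31 (L l2029 (T t32 (L l390 (L l1654 (L l3246 (T t33 N))))))))) (K a63 (M a768 (F (T t74 (L l3159 (T t35 (L l2209 (T t29 N))))))) N)))))))))))))))⟩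
def e0_255__283_99 : Ent 5 := ⟨[a0, a255], [a283, a870], (M a192 (F (T t19 (T t23 (T t22 (T t24 (K a64 (M a240 (F (T t79 (L l144 (L l2257 (T t80 (T t81 N))))))) (K a128 (M a240 (F (T t79 (L l2257 (T t80 (L l192 (L l220 (T t81 N)))))))) (K a85 (M a768 (F (T t28 (L l347 (L l2339 (T t29 (L l347 (L l2339 (T t30 N))))))))) (K a149 (M a768 (F (T t31 (L l347 (T t29 (T t32 N)))))) (K a213 (M a768 (F (T t31 (L l3203 (T t32 (L l1686 (T t33 N))))))) (K a106 (M a768 (F (T t35 (T t29 (T t32 N))))) (K a170 (M a768 (F (T t31 (T t29 (L l220 (T t30 N)))))) (K a234 (M a768 (F (T t31 (T t32 (L l390 (L l1686 (L l3246 (T t33 N)))))))) (K a63 (M a768 (F (T t74 (L l3159 (T t35 (L l2209 (T t29 N))))))) N)))))))))))))))⟩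
def e0_255__283_100 : Ent 5 := ⟨[a0, a255], [a283, a887], (M a192 (F (T t19 (T t23 (T t22 (T t24 (K a64 (M a240 (F (T t79 (L l144 (L l2257 (T t80 (T t81 N))))))) (K a128 (M a240 (F (T t79 (L l2257 (T t80 (L l192 (L l220 (T t81 N)))))))) (K a85 (M a768 (F (T t28 (L l347 (L l2339 (T t29 (L l347 (L l1673 (L l2339 (T t30 N)))))))))) (K a149 (M a768 (F (T t31 (L l347 (T t29 (L l1999 (T t32 N))))))) (K a213 (M a768 (F (T t31 (L l1999 (L l3203 (T t32 (L l1686 (T t33 N)))))))) (K a106 (M a768 (F (T t28 (T t29 (L l1999 (T t32 N)))))) (K a170 (M a768 (F (T t31 (T t29 (L l220 (L l1673 (T t30 N))))))) (K a234 (M a768 (F (T t31 (L l1999 (T t32 (L l390 (L l1686 (L l3246 (T t33 N))))))))) (K a63 (M a768 (F (T t74 (L l3159 (T t35 (L l2209 (T t29 N))))))) N)))))))))))))))⟩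
def e0_255__283_101 : Ent 5 := ⟨[a0, a255], [a283, a904], (M a192 (F (T t19 (T t23 (T t22 (T t24 (K a64 (M a240 (F (T t79 (L l144 (L l2257 (T t80 (T t81 N))))))) (K a128 (M a240 (F (T t79 (L l2257 (T t80 (L l192 (L l220 (T t81 N)))))))) (K a85 (M a768 (F (T t28 (L l347 (L l2339 (T t29 (L l347 (L l2339 (T t30 N))))))))) (K a149 (M a768 (F (T t35 (L l347 (T t29 (T t32 N)))))) (K a213 (M a768 (F (T t28 (L l3203 (T t32 (L l2709 (T t33 N))))))) (K a106 (M a768 (F (T t28 (T t29 (T t32 N))))) (K a170 (M a768 (F (T t35 (T t29 (L l220 (T t30 N)))))) (K a234 (M a768 (F (T t35 (T t32 (L l390 (L l2709 (L l3246 (T t33 N)))))))) (K a63 (M a768 (F (T t38 (L l3159 (T t35 (L l2209 (T t29 N))))))) N)))))))))))))))⟩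
def e0_255__283_102 : Ent 5 := ⟨[a0, a255], [a283, a921], (M a192 (F (T t19 (T t23 (T t22 (T t24 (K a64 (M a240 (F (T t79 (L l144 (L l2257 (T t80 (T t81 N))))))) (K a128 (M a240 (F (T t79 (L l2257 (T t80 (L l192 (L l220 (T t81 N)))))))) (K a85 (M a768 (F (T t28 (L l347 (L l2339 (T t29 (L l347 (L l2339 (T t30 N))))))))) (K a149 (M a768 (F (T t31 (L l347 (T t29 (T t32 N)))))) (K a213 (M a768 (F (T t31 (L l3203 (T t32 (L l1925 (T t33 N))))))) (K a106 (M a768 (F (T t35 (T t29 (T t32 N))))) (K a170 (M a768 (F (T t31 (T t29 (L l220 (T t30 N)))))) (K a234 (M a768 (F (T t31 (T t32 (L l390 (L l1925 (L l3246 (T t33 N)))))))) (K a63 (M a768 (F (T t74 (L l3159 (T t35 (L l2209 (T t29 N))))))) N)))))))))))))))⟩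
def e0_255__283_103 : Ent 5 := ⟨[a0, a255], [a283, a928], (M a192 (F (T t19 (T t23 (T t22 (T t24 (K a64 (M a240 (F (T t79 (L l144 (L l2257 (T t80 (L l2584 (T t81 N)))))))) (K a128 (M a240 (F (T t79 (L l2257 (T t80 (L l192 (L l220 (L l2584 (T t81 N))))))))) (K a85 (M a768 (F (T t28 (L l347 (L l2339 (T t29 (L l347 (L l2339 (T t30 N))))))))) (K a149 (M a768 (F (T t35 (L l347 (T t29 (T t32 N)))))) (K a213 (M a768 (F (T t28 (L l3203 (T t32 (L l2619 (T t33 N))))))) (K a106 (M a768 (F (T t28 (T t29 (T t32 N))))) (K a170 (M a768 (F (T t35 (T t29 (L l220 (T t30 N)))))) (K a234 (M a768 (F (T t35 (T t32 (L l390 (L l2619 (L l3246 (T t33 N)))))))) (K a63 (M a768 (F (T t38 (L l3159 (T t35 (L l2209 (T t29 N))))))) N)))))))))))))))⟩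
def e0_255__283_104 : Ent 5 := ⟨[a0, a255], [a283, a933], (M a192 (F (T t19 (T t23 (T t22 (T t24 (K a64 (M a240 (F (T t79 (L l144 (L l2257 (T t80 (T t81 N))))))) (K a128 (M a240 (F (T t79 (L l2257 (T t80 (L l192 (L l220 (T t81 N)))))))) (K a85 (M a768 (F (T t28 (L l347 (L l2339 (T t29 (L l347 (L l2339 (T t30 N))))))))) (K a149 (M a768 (F (T t31 (L l347 (T t29 (T t32 N)))))) (K a213 (M a768 (F (T t31 (L l3203 (T t32 (L l2015 (T t33 N))))))) (K a106 (M a768 (F (T t35 (T t29 (T t32 N))))) (K a170 (M a768 (F (T t31 (T t29 (L l220 (T t30 N)))))) (K a234 (M a768 (F (T t31 (T t32 (L l390 (L l2015 (L l3246 (T t33 N)))))))) (K a63 (M a768 (F (T t74 (L l3159 (T t35 (L l2209 (T t29 N))))))) N)))))))))))))))⟩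
def e0_255__283_105 : Ent 5 := ⟨[a0, a255], [a283, a938], (M a192 (F (T t19 (L l2598 (T t23 (T t22 (L l2598 (T t24 (K a64 (M a240 (F (T t79 (L l144 (L l2257 (T t80 (L l2598 (T t81 N)))))))) (K a128 (M a240 (F (T t79 (L l2257 (T t80 (L l192 (L l220 (L l2598 (T t81 N))))))))) (K a85 (M a768 (F (T t28 (L l347 (L l1950 (L l2339 (T t29 (L l347 (L l1950 (L l2339 (T t30 N))))))))))) (K a149 (M a768 (F (T t35 (L l347 (L l1950 (T t29 (L l2598 (T t40 N)))))))) (K a213 (M a768 (F (T t35 (L l2598 (T t40 (L l2598 (T t398 N))))))) (K a106 (M a768 (F (T t35 (L l1950 (T t29 (L l2598 (T t40 N))))))) (K a170 (M a426 (F (T t399 (L l220 (L l1950 (T t400 (T t376 N))))))) (K a234 (M a768 (F (T t35 (L l2598 (L l3246 (T t40 (L l2598 (L l3246 (T t398 N))))))))) (K a63 (M a768 (F (T t62 (L l1950 (L l2209 (T t29 (L l2598 (L l3073 (T t40 N))))))))) N)))))))))))))))))⟩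
def e0_255__283_106 : Ent 5 := ⟨[a0, a255], [a283, a943], (M a192 (F (T t19 (T t23 (T t22 (T t24 (K a64 (M a240 (F (T t79 (L l144 (L l2257 (T t80 (L l2612 (T t81 N)))))))) (K a128 (M a240 (F (T t79 (L l2257 (T t80 (L l192 (L l220 (L l2612 (T t81 N))))))))) (K a85 (M a768 (F (T t28 (L l347 (L l2339 (T t29 (L l347 (L l2339 (T t30 N))))))))) (K a149 (M a768 (F (T t31 (L l347 (T t29 (L l2029 (T t32 N))))))) (K a213 (M a768 (F (T t31 (L l2029 (L l3203 (T t32 (T t33 N))))))) (K a106 (M a768 (F (T t35 (T t29 (L l2029 (T t32 N)))))) (K a170 (M a768 (F (T t31 (T t29 (L l220 (T t30 N)))))) (K a234 (M a768 (F (T t31 (L l2029 (T t32 (L l390 (L l3246 (T t33 N)))))))) (K a63 (M a768 (F (T t83 (L l3159 (T t35 (L l2209 (T t29 N))))))) N)))))))))))))))⟩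
def e0_255__283_107 : Ent 5 := ⟨[a0, a255], [a283, a955], (M a192 (F (T t19 (T t23 (T t22 (T t24 (K a64 (M a240 (F (T t79 (L l144 (L l2257 (T t80 (T t81 N))))))) (K a128 (M a240 (F (T t79 (L l2257 (T t80 (L l192 (L l220 (T t81 N)))))))) (K a85 (M a768 (F (T t28 (L l347 (L l2339 (T t29 (L l347 (L l2339 (T t30 N))))))))) (K a149 (M a768 (F (T t31 (L l347 (T t29 (L l1999 (T t32 N))))))) (K a213 (M a768 (F (T t31 (L l1999 (L l3203 (T t32 (T t33 N))))))) (K a106 (M a768 (F (T t35 (T t29 (L l1999 (T t32 N)))))) (K a170 (M a768 (F (T t31 (T t29 (L l220 (T t30 N)))))) (K a234 (M a768 (F (T t31 (L l1999 (T t32 (L l390 (L l3246 (T t33 N)))))))) (K a63 (M a768 (F (T t83 (L l3159 (T t35 (L l2209 (T t29 N))))))) N)))))))))))))))⟩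
def e0_255__283_108 : Ent 5 := ⟨[a0, a255], [a283, a972], (M a192 (F (T t46 (L l3147 (T t19 (L l3147 (T t23 (L l3147 (T t22 (L l3147 (T t24 (K a64 (M a240 (F (T t84 (L l144 (L l2257 (L l2967 (T t80 (T t81 N)))))))) (K a128 (M a240 (F (T t84 (L l2257 (L l2967 (T t80 (L l192 (L l220 (T t81 N))))))))) (K a85 (M a768 (F (T t85 (L l1792 (T t35 (L l347 (L l2339 (T t30 N)))))))) (K a149 (M a768 (F (T t49 (L l1792 (T t35 (L l1850 (T t32 N))))))) (K a213 (M a768 (F (T t62 (L l1850 (L l3203 (T t32 (T t33 N))))))) (K a106 (M a768 (F (T t43 (L l1792 (T t35 (L l1850 (T t32 N))))))) (K a170 (M a768 (F (T t42 (L l1792 (T t35 (L l220 (T t30 N))))))) (K a234 (M a768 (F (T t37 (L l1792 (T t35 (L l390 (L l3246 (T t33 N)))))))) (K a63 (M a768 (L l3147 (F (T t38 (L l1792 (L l3159 (T t35 (L l2067 (L l2209 (T t29 (K a669 (M a366 (F (T t74 (L l2067 (L l2209 (T t48 (L l1792 (L l3159 (T t86 N))))))))) (K a366 (M a669 (F (T t74 (L l2067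 (L l2209 (T t48 (L l1792 (L l3159 (T t86 N))))))))) N)))))))))))) N))))))))))))))))))))⟩
def e0_255__283_109 : Ent 5 := ⟨[a0, a255], [a283, a984], (M a192 (F (T t19 (T t23 (T t22 (T t24 (K a64 (M a240 (F (T t79 (L l144 (L l2257 (T t80 (T t81 N))))))) (K a128 (M a240 (F (T t79 (L l2257 (T t80 (L l192 (L l220 (T t81 N)))))))) (K a85 (M a768 (F (T t28 (L l347 (L l2339 (T t29 (L l347 (L l2339 (T t30 N))))))))) (K a149 (M a768 (F (T t40 (T t35 (L l347 (T t29 N)))))) (K a213 (M a768 (F (T t31 (L l3203 (T t32 (T t33 N)))))) (K a106 (M a768 (F (T t40 (T t35 (T t29 N))))) (K a170 (M a768 (F (T t31 (T t29 (L l220 (T t30 N)))))) (K a234 (M a768 (F (T t31 (T t32 (L l390 (L l3246 (T t33 N))))))) (K a63 (M a768 (F (T t83 (L l3159 (T t35 (L l2209 (T t29 N))))))) N)))))))))))))))⟩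
def e0_255__283_110 : Ent 5 := ⟨[a0, a255], [a283, a989], (M a192 (F (T t19 (T t23 (T t22 (T t24 (K a64 (M a240 (F (T t79 (L l144 (L l2257 (T t80 (T t81 N))))))) (K a128 (M a240 (F (T t79 (L l2257 (T t80 (L l192 (L l220 (T t81 N)))))))) (K a85 (M a768 (F (T t28 (L l347 (L l2339 (T t29 (L l347 (L l2339 (T t30 N))))))))) (K a149 (M a768 (F (T t31 (L l347 (T t29 (L l1850 (T t32 N))))))) (K a213 (M a768 (F (T t31 (L l1850 (L l3203 (T t32 (L l1925 (T t33 N)))))))) (K a106 (M a768 (F (T t28 (T t29 (L l1850 (T t32 N)))))) (K a170 (M a768 (F (T t31 (T t29 (L l220 (T t30 N)))))) (K a234 (M a768 (F (T t31 (L l1850 (T t32 (L l390 (L l1925 (L l3246 (T t33 N))))))))) (K a63 (M a768 (F (T t74 (L l3159 (T t35 (L l2209 (T t29 N))))))) N)))))))))))))))⟩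
def e0_255__283_111 : Ent 5 := ⟨[a0, a255], [a283, a1006], (M a192 (F (T t19 (T t23 (T t22 (T t24 (K a64 (M a240 (F (T t79 (L l144 (L l2257 (T t80 (T t81 N))))))) (K a128 (M a240 (F (T t79 (L l2257 (T t80 (L l192 (L l220 (T t81 N)))))))) (K a85 (M a768 (F (T t28 (L l347 (L l2339 (T t29 (L l347 (L l2339 (T t30 N))))))))) (K a149 (M a768 (F (T t31 (L l347 (T t29 (L l1850 (T t32 N))))))) (K a213 (M a768 (F (T t31 (L l1850 (L l3203 (T t32 (T t33 N))))))) (K a106 (M a768 (F (T t35 (T t29 (L l1850 (T t32 N)))))) (K a170 (M a768 (F (T t31 (T t29 (L l220 (T t30 N)))))) (K a234 (M a768 (F (T t31 (L l1850 (T t32 (L l390 (L l3246 (T t33 N)))))))) (K a63 (M a768 (F (T t74 (L l3159 (T t35 (L l2209 (T t29 N))))))) N)))))))))))))))⟩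
def e0_255__283_112 : Ent 5 := ⟨[a0, a255], [a283, a1008], (M a192 (F (T t46 (L l3087 (T t19 (L l3087 (T t23 (L l3087 (T t22 (L l3087 (T t24 (K a64 (M a240 (F (T t84 (L l144 (L l2257 (L l3123 (T t80 (T t81 N)))))))) (K a128 (M a240 (F (T t84 (L l2257 (L l3123 (T t80 (L l192 (L l220 (T t81 N))))))))) (K a85 (M a768 (F (T t85 (L l1828 (T t35 (L l347 (L l2339 (T t30 N)))))))) (K a149 (M a768 (F (T t49 (L l1828 (T t35 (L l1826 (T t32 N))))))) (K a213 (M a768 (F (T t62 (L l1826 (L l3203 (T t32 (T t33 N))))))) (K a106 (M a768 (F (T t43 (L l1828 (T t35 (L l1826 (T t32 N))))))) (K a170 (M a768 (F (T t42 (L l1828 (T t35 (L l220 (T t30 N))))))) (K a234 (M a768 (F (T t37 (L l1828 (T t35 (L l390 (L l3246 (T t33 N)))))))) (K a63 (M a768 (L l3087 (F (T t38 (L l1828 (L l3159 (T t35 (L l2007 (L l2209 (T t29 (K a693 (M a378 (F (T t74 (L l2007 (L l2209 (T t48 (L l1828 (L l3159 (T t86 N))))))))) (K a378 (M a693 (F (T t74 (L l2007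 (L l2209 (T t48 (L l1828 (L l3159 (T t86 N))))))))) N)))))))))))) N))))))))))))))))))))⟩
def e0_255__283_113 : Ent 5 := ⟨[a0, a255], [a283, a1013], (M a192 (F (T t19 (T t23 (T t22 (T t24 (K a64 (M a240 (F (T t25 (L l144 (L l2257 (L l2843 (T t80 (T t81 N)))))))) (K a128 (M a240 (F (T t25 (L l2257 (L l2843 (T t80 (L l192 (L l220 (T t81 N))))))))) (K a85 (M a768 (F (T t28 (L l347 (L l2339 (T t29 (L l347 (L l2339 (T t30 N))))))))) (K a149 (M a768 (F (T t31 (L l347 (T t29 (L l1826 (T t32 N))))))) (K a213 (M a768 (F (T t31 (L l1826 (L l3203 (T t32 (L l2015 (T t33 N)))))))) (K a106 (M a768 (F (T t28 (T t29 (L l1826 (T t32 N)))))) (K a170 (M a768 (F (T t31 (T t29 (L l220 (T t30 N)))))) (K a234 (M a768 (F (T t31 (L l1826 (T t32 (L l390 (L l2015 (L l3246 (T t33 N))))))))) (K a63 (M a768 (F (T t74 (L l3159 (T t35 (L l2209 (T t29 N))))))) N)))))))))))))))⟩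
def e0_255__283_114 : Ent 5 := ⟨[a0, a255], [a283, a1018], (M a192 (F (T t19 (T t23 (T t22 (T t24 (K a64 (M a240 (F (T t25 (L l144 (L l2257 (L l3102 (T t80 (T t81 N)))))))) (K a128 (M a240 (F (T t386 (L l2257 (L l3102 (T t80 (L l192 (L l220 (T t81 N))))))))) (K a85 (M a768 (F (T t28 (L l347 (L l2339 (T t29 (L l347 (L l2339 (T t30 N))))))))) (K a149 (M a768 (F (T t31 (L l347 (T t29 (L l1826 (T t32 N))))))) (K a213 (M a768 (F (T t31 (L l1826 (L l3203 (T t32 (T t33 N))))))) (K a106 (M a768 (F (T t35 (T t29 (L l1826 (T t32 N)))))) (K a170 (M a768 (F (T t31 (T t29 (L l220 (T t30 N)))))) (K a234 (M a768 (F (T t31 (L l1826 (T t32 (L l390 (L l3246 (T t33 N)))))))) (K a63 (M a768 (F (T t74 (L l3159 (T t35 (L l2209 (T t29 N))))))) N)))))))))))))))⟩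
def e0_255__283_115 : Ent 5 := ⟨[a0, a255], [a283, a1023], (M a192 (F (T t46 (L l3073 (T t19 (L l3073 (T t23 (L l3073 (T t22 (L l3073 (T t24 (K a64 (M a240 (F (T t84 (L l144 (L l2257 (L l3109 (T t80 (T t81 N)))))))) (K a128 (M a240 (F (T t84 (L l2257 (L l3109 (T t80 (L l192 (L l220 (T t81 N))))))))) (K a85 (M a768 (F (T t401 (L l347 (L l1993 (L l2339 (T t29 (L l347 (L l1993 (L l2339 (T t30 N))))))))))) (K a149 (M a768 (F (T t85 (L l1856 (T t35 (L l220 (L l347 (L l1993 (T t30 N))))))))) (K a213 (M a48 (F (T t381 (L l347 (L l2893 (T t136 (L l347 (T t274 N)))))))) (K a106 (M a768 (F (T t401 (L l1993 (T t29 (L l1993 (T t30 N))))))) (K a170 (M a768 (F (T t42 (L l1856 (T t35 (L l220 (L l1993 (T t30 N)))))))) (K a234 (M a48 (F (T t381 (L l2893 (T t136 (T t274 N)))))) (K a63 (M a768 (L l3073 (F (T t85 (L l1856 (L l3159 (T t35 (L l1993 (T t30 (K a383 (M a703 (F (T t49 (L l1856 (L l3159 (T t86 (L l1993 (L l2425 (T t30 N)))))))))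 (K a703 (M a383 (F (T t49 (L l1856 (L l3159 (T t86 (L l1993 (T t30 N)))))))) N))))))))))) N))))))))))))))))))))⟩
def b0_255__283 : Blk 5 := ⟨[0, 255], [283], [5, 10, 15, 17, 34, 39, 51, 68, 80, 90, 95, 102, 119, 136, 153, 160, 165, 175, 187, 204, 216, 221, 238, 240, 245, 250, 256, 261, 266, 271, 273, 290, 295, 307, 324, 336, 341, 346, 351, 358, 375, 392, 409, 416, 421, 426, 431, 443, 460, 472, 477, 494, 496, 501, 506, 511, 512, 517, 522, 527, 529, 546, 551, 563, 580, 592, 597, 602, 607, 614, 631, 648, 665, 672, 677, 682, 687, 699, 716, 728, 733, 750, 752, 757, 762, 767, 768, 773, 778, 783, 785, 802, 807, 819, 836, 848, 853, 858, 863, 870, 887, 904, 921, 928, 933, 938, 943, 955, 972, 984, 989, 1006, 1008, 1013, 1018, 1023], [e0_255__283_0, e0_255__283_1, e0_255__283_2, e0_255__283_3, e0_255__283_4, e0_255__283_5, e0_255__283_6, e0_255__283_7, e0_255__283_8, e0_255__283_9, e0_255__283_10, e0_255__283_11, e0_255__283_12,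 e0_255__283_13, e0_255__283_14, e0_255__283_15, e0_255__283_16, e0_255__283_17, e0_255__283_18, e0_255__283_19, e0_255__283_20, e0_255__283_21, e0_255__283_22, e0_255__283_23, e0_255__283_24, e0_255__283_25, e0_255__283_26, e0_255__283_27, e0_255__283_28, e0_255__283_29, e0_255__283_30, e0_255__283_31, e0_255__283_32, e0_255__283_33, e0_255__283_34, e0_255__283_35, e0_255__283_36, e0_255__283_37, e0_255__283_38, e0_255__283_39, e0_255__283_40, e0_255__283_41, e0_255__283_42, e0_255__283_43, e0_255__283_44, e0_255__283_45, e0_255__283_46, e0_255__283_47, e0_255__283_48, e0_255__283_49, e0_255__283_50, e0_255__283_51, e0_255__283_52, e0_255__283_53, e0_255__283_54, e0_255__283_55, e0_255__283_56, e0_255__283_57, e0_255__283_58, e0_255__283_59, e0_255__283_60, e0_255__283_61, e0_255__283_62, e0_255__283_63, e0_255__283_64, e0_255__283_65, e0_255__283_66, e0_255__283_67, e0_255__283_68, e0_255__283_69, e0_255__283_70,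 e0_255__283_71, e0_255__283_72, e0_255__283_73, e0_255__283_74, e0_255__283_75, e0_255__283_76, e0_255__283_77, e0_255__283_78, e0_255__283_79, e0_255__283_80, e0_255__283_81, e0_255__283_82, e0_255__283_83, e0_255__283_84, e0_255__283_85, e0_255__283_86, e0_255__283_87, e0_255__283_88, e0_255__283_89, e0_255__283_90, e0_255__283_91, e0_255__283_92, e0_255__283_93, e0_255__283_94, e0_255__283_95, e0_255__283_96, e0_255__283_97, e0_255__283_98, e0_255__283_99, e0_255__283_100, e0_255__283_101, e0_255__283_102, e0_255__283_103, e0_255__283_104, e0_255__283_105, e0_255__283_106, e0_255__283_107, e0_255__283_108, e0_255__283_109, e0_255__283_110, e0_255__283_111, e0_255__283_112, e0_255__283_113, e0_255__283_114, e0_255__283_115], by decide +kernel, by decide +kernel⟩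

end Pool.Agent.Lib_TTT.K5
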