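import Pool.Agent.Lib_TTT.K5Base
import Pool.Agent.Lib_TTT.K5T00

/-! Certificates in `4^5`. -/

set_option autoImplicit false
set_option maxRecDepth 200000

namespace Pool.Agent.Lib_TTT.K5

open Lib_TTT AC DC

def e0_255__346_0 : Ent 5 := ⟨[a0, a255], [a346, a17], (M a192 (F (T t24 (L l365 (T t19 (L l15 (T t23 (L l365 (T t22 (K a64 (M a240 (F (T t79 (L l144 (L l365 (L l3102 (L l3123 (T t80 (L l15 (L l2367 (T t81 N))))))))))) (K a128 (M a240 (F (T t79 (L l365 (L l3102 (L l3123 (T t80 (L l15 (L l192 (L l220 (L l2367 (T t81 N)))))))))))) (K a85 (M a768 (L l365 (F (T t28 (L l347 (L l2339 (L l2367 (T t29 (L l347 (L l2339 (L l2367 (T t30 (K a153 (M a221 (F (T t28 (L l982 (L l2117 (T t403 N)))))) (K a221 (M a153 (F (T t35 (L l243 (L l347 (L l2339 (L l2367 (L l3227 (T t29 (L l144 (L l982 (T t36 N)))))))))))) N)))))))))))))) (K a149 (M a768 (F (T t31 (L l347 (L l2367 (T t29 (L l2367 (T t32 N)))))))) (K a213 (M a768 (F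 (T t31 (L l2367 (L l3203 (T t32 (L l982 (T t33 N)))))))) (K a106 (M a768 (F (T t35 (L l2367 (T t29 (L l2367 (T t32 N))))))) (K a170 (M a768 (F (T t31 (L l2367 (T t29 (L l220 (L l2367 (T t30 N)))))))) (K a234 (M a768 (F (T t31 (L l2367 (T t32 (L l390 (L l982 (L l3246 (T t33 N))))))))) (K a63 (M a768 (F (T t57 (L l2209 (L l2367 (T t29 (L l2367 (L l3073 (T t32 N))))))))) N))))))))))))))))))⟩
def e0_255__346_1 : Ent 5 := ⟨[a0, a255], [a346, a27], (M a60 (L l2997 (F (T t420 (T t421 (T t422 (T t423 (K a20 (M a341 (L l2997 (F (T t448 (L l3102 (T t451 (T t452 (K a984 (M a665 (F (T t0 (T t453 N)))) (K a665 (M a984 (F (T t448 (L l1248 (L l3102 (T t451 (T t452 N))))))) N))))))))) (K a40 (M a341 (L l2997 (F (T t1 (L l3032 (L l3102 (T t451 (L l392 (T t452 (K a984 (M a665 (F (T t1 (T t453 N)))) (K a665 (M a984 (F (T t1 (L l1248 (L l3032 (L l3102 (T t451 (L l392 (T t452 N))))))))) N))))))))))) (K a85 (M a768 (L l2997 (F (T t428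 (L l141 (L l2339 (L l2367 (T t429 (L l141 (L l2339 (L l2367 (T t430 (K a984 (M a665 (F (T t454 (L l73 (L l982 (T t455 N)))))) (K a665 (M a984 (F (T t454 (L l982 (L l2709 (T t456 (L l141 (L l1405 (L l2339 (L l2367 (T t430 N))))))))))) N)))))))))))))) (K a105 (M a768 (L l2997 (F (T t434 (L l141 (L l2367 (T t429 (L l2367 (T t32 (K a984 (M a665 (F (T t454 (L l73 (L l982 (T t455 N)))))) (K a665 (M a984 (F (T t454 (L l141 (L l1405 (L l2367 (T t39 (L l982 (L l2709 (T t456 N)))))))))) N))))))))))) (K a125 (M a768 (L l2997 (F (T t428 (L l2367 (L l2507 (T t32 (L l141 (L l2367 (L l2507 (T t432 (K a984 (M a665 (F (T t454 (L l73 (L l982 (T t455 N)))))) (K a665 (M a984 (F (T t454 (L l141 (L l1405 (L l2367 (L l2507 (T t39 (L l141 (L l1405 (L l2367 (L l2507 (T t432 N))))))))))))) N))))))))))))) (K a150 (M a768 (L l2997 (F (T t428 (L l2367 (T t429 (L l2367 (T t32 (K a984 (M a665 (F (T t454 (L l73 (L l982 (T t455 N)))))) (K a665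 (M a984 (F (T t454 (L l982 (L l2709 (T t456 (L l350 (L l1405 (L l2367 (T t39 N)))))))))) N)))))))))) (K a170 (M a768 (L l2997 (F (T t457 (L l2367 (T t429 (L l392 (L l2367 (T t430 (K a984 (M a665 (F (T t454 (L l73 (L l982 (L l2598 (T t455 N))))))) (K a665 (M a984 (F (T t454 (L l982 (L l2598 (L l2709 (T t456 (L l392 (L l1405 (L l2367 (T t430 N))))))))))) N))))))))))) (K a190 (M a768 (L l2997 (F (T t428 (L l2367 (T t32 (L l2367 (T t432 (K a984 (M a665 (F (T t454 (L l73 (L l982 (L l2724 (T t455 N))))))) (K a665 (M a984 (F (T t454 (L l1405 (L l2367 (T t39 (L l1405 (L l2367 (T t432 N))))))))) N)))))))))) (K a195 (M a768 (L l2997 (F (T t458 (L l2367 (L l2731 (T t429 (L l2367 (L l2899 (T t32 (K a984 (M a665 (F (T t459 (L l73 (L l487 (L l982 (T t455 N))))))) (K a665 (M a984 (F (T t460 (L l1405 (L l2367 (L l2899 (T t39 (L l982 (L l2709 (L l2731 (T t456 N))))))))))) N)))))))))))) (K a984 (M a665 (F (T t420 (T t421 (T t422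 (T t423 (K a20 (M a972 (F (T t461 (T t462 N)))) (K a40 (M a972 (F (T t461 (T t462 N)))) (K a85 (M a768 (F (T t454 (L l73 (L l982 (T t455 N)))))) (K a105 (M a768 (F (T t454 (L l73 (L l982 (T t455 N)))))) (K a125 (M a768 (F (T t454 (L l73 (L l982 (T t455 N)))))) (K a150 (M a768 (F (T t454 (L l73 (L l982 (T t455 N)))))) (K a170 (M a768 (F (T t454 (L l73 (L l982 (L l2598 (T t455 N))))))) (K a190 (M a768 (F (T t454 (L l73 (L l982 (L l2724 (T t455 N))))))) (K a195 (M a768 (F (T t459 (L l73 (L l487 (L l982 (T t455 N))))))) N))))))))))))))) (K a665 (M a984 (F (T t420 (T t421 (T t422 (T t423 (K a20 (M a48 (F (T t463 (T t137 (L l350 (T t426 N)))))) (K a40 (M a48 (F (T t464 (L l392 (T t137 (L l52 (T t426 N))))))) (K a85 (M a48 (F (T t465 (L l608 (L l3009 (T t466 N)))))) (K a105 (M a768 (F (T t454 (L l141 (L l1405 (L l2367 (T t39 (L l982 (L l2709 (T t456 N)))))))))) (K a125 (M a768 (F (T t454 (L l141 (L l1405 (L l2367 (L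 l2507 (T t39 (L l141 (L l1405 (L l2367 (L l2507 (T t432 N))))))))))))) (K a150 (M a768 (F (T t454 (L l982 (L l2709 (T t456 (L l350 (L l1405 (L l2367 (T t39 N)))))))))) (K a170 (M a48 (F (T t425 (L l392 (L l404 (L l608 (L l3009 (T t466 N)))))))) (K a190 (M a768 (F (T t454 (L l1405 (L l2367 (T t39 (L l1405 (L l2367 (T t432 N))))))))) (K a195 (M a768 (F (T t460 (L l1405 (L l2367 (L l2899 (T t39 (L l982 (L l2709 (L l2731 (T t456 N))))))))))) N))))))))))))))) N))))))))))))))))))⟩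
def e0_255__346_2 : Ent 5 := ⟨[a0, a255], [a346, a34], (M a192 (F (T t22 (L l26 (T t19 (L l402 (T t23 (L l402 (T t24 (K a64 (M a240 (F (T t79 (L l144 (L l3102 (L l3123 (T t80 (L l402 (L l2367 (T t81 N)))))))))) (K a128 (M a240 (F (T t79 (L l3102 (L l3123 (T t80 (L l192 (L l220 (L l402 (L l2367 (T t81 N))))))))))) (K a85 (M a768 (F (T t28 (L l347 (L l2339 (L l2367 (T t29 (L l347 (L l2339 (L l2367 (T t30 N))))))))))) (K a149 (M a768 (F (T t31 (L l347 (L l2367 (T t29 (L l2367 (T t32 N)))))))) (K a213 (M a768 (F (T t31 (L l2367 (L l3203 (T t32 (L l402 (L l982 (T t33 N))))))))) (K a106 (M a768 (F (T t35 (L l2367 (T t29 (L l2367 (T t32 N))))))) (K a170 (M a768 (L l402 (F (T t31 (L l2367 (T t29 (L l220 (L l2367 (T t30 (K a102 (M a238 (F (T t31 (L l2154 (L l2367 (T t82 N)))))) (K a238 (M a102 (F (T t35 (L l2367 (T t29 (L l982 (L l2598 (L l3264 (T t36 N))))))))) N))))))))))) (K a234 (M a768 (F (T t31 (L l2367 (T t32 (L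 l390 (L l402 (L l982 (L l3246 (T t33 N)))))))))) (K a63 (M a768 (F (T t57 (L l2209 (L l2367 (T t29 (L l2367 (L l3073 (T t32 N))))))))) N))))))))))))))))))⟩
def e0_255__346_3 : Ent 5 := ⟨[a0, a255], [a346, a39], (M a192 (F (T t19 (T t23 (T t22 (T t24 (K a64 (M a240 (F (T t79 (L l73 (L l144 (L l3102 (L l3123 (T t80 (L l2367 (T t81 N)))))))))) (K a128 (M a240 (F (T t79 (L l73 (L l3102 (L l3123 (T t80 (L l192 (L l220 (L l2367 (T t81 N))))))))))) (K a85 (M a768 (F (T t28 (L l347 (L l2339 (L l2367 (T t29 (L l347 (L l2339 (L l2367 (T t30 N))))))))))) (K a149 (M a768 (F (T t31 (L l347 (L l2367 (T t29 (L l2367 (T t32 N)))))))) (K a213 (M a768 (F (T t31 (L l2367 (L l3203 (T t32 (L l982 (T t33 N)))))))) (K a106 (M a768 (F (T t35 (L l2367 (T t29 (L l2367 (T t32 N))))))) (K a170 (M a768 (F (T t31 (L l2367 (T t29 (L l220 (L l2367 (T t30 N)))))))) (K a234 (M a768 (F (T t31 (L l2367 (T t32 (L l390 (L l982 (L l3246 (T t33 N)))))))))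 (K a63 (M a768 (F (T t57 (L l2209 (L l2367 (T t29 (L l2367 (L l3073 (T t32 N))))))))) N)))))))))))))))⟩
def e0_255__346_4 : Ent 5 := ⟨[a0, a255], [a346, a51], (M a192 (F (T t46 (L l37 (T t19 (L l37 (T t23 (L l37 (T t22 (L l37 (T t24 (K a64 (M a240 (F (T t84 (L l73 (L l144 (L l3102 (L l3123 (T t80 (L l2367 (T t81 N)))))))))) (K a128 (M a240 (F (T t84 (L l73 (L l3102 (L l3123 (T t80 (L l192 (L l220 (L l2367 (T t81 N))))))))))) (K a85 (M a768 (F (T t57 (L l347 (L l2215 (L l2339 (L l2367 (T t29 (L l347 (L l2339 (L l2367 (T t30 N)))))))))))) (K a149 (M a768 (F (T t69 (L l347 (L l2215 (L l2367 (T t29 (L l2367 (L l3079 (T t32 N)))))))))) (K a213 (M a768 (F (T t62 (L l2367 (L l3079 (L l3203 (T t32 (L l982 (T t33 N))))))))) (K a106 (M a768 (F (T t57 (L l2215 (L l2367 (T t29 (L l2367 (L l3079 (T t32 N))))))))) (K a170 (M a768 (F (T t69 (L l2215 (L l2367 (T t29 (L l220 (L l2367 (T t30 N))))))))) (K a234 (M a768 (F (T t57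 (L l2367 (L l3079 (T t32 (L l390 (L l982 (L l3246 (T t33 N)))))))))) (K a63 (M a768 (L l37 (F (T t57 (L l2209 (L l2215 (L l2367 (T t29 (L l2367 (L l3073 (L l3079 (T t32 (K a55 (M a59 (F (T t62 (L l2367 (L l3073 (L l3079 (T t39 (L l982 (L l2209 (L l2215 (T t48 N))))))))))) (K a59 (M a55 (F (T t62 (L l2367 (L l3073 (L l3079 (T t39 (L l982 (L l2209 (L l2215 (T t48 N))))))))))) N)))))))))))))) N))))))))))))))))))))⟩
def e0_255__346_5 : Ent 5 := ⟨[a0, a255], [a346, a102], (M a192 (F (L l126 (T t19 (L l402 (T t23 (L l126 (T t22 (L l402 (T t24 (K a64 (M a240 (F (T t79 (L l126 (L l144 (L l3102 (L l3123 (T t80 (L l402 (L l2367 (T t81 N))))))))))) (K a128 (M a240 (F (T t79 (L l126 (L l3102 (L l3123 (T t80 (L l192 (L l220 (L l402 (L l2367 (T t81 N)))))))))))) (K a85 (M a768 (L l126 (F (T t28 (L l347 (L l2339 (L l2367 (T t29 (L l347 (L l2339 (L l2367 (T t30 (K a68 (M a119 (F (T t86 (L l982 (L l2302 (T t467 N)))))) (K a119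 (M a68 (F (T t35 (L l365 (L l2339 (L l2367 (L l2487 (T t134 N)))))))) N)))))))))))))) (K a149 (M a768 (L l495 (F (T t31 (L l347 (L l2367 (T t29 (L l2367 (T t32 (K a196 (M a55 (F (T t28 (L l126 (L l347 (L l2367 (T t39 (L l982 (T t48 N))))))))) (K a55 (M a196 (F (T t28 (L l421 (T t279 N))))) N))))))))))) (K a213 (M a768 (F (T t31 (L l2367 (L l3203 (T t32 (L l402 (L l982 (T t33 N))))))))) (K a106 (M a768 (L l102 (F (T t28 (L l2367 (T t29 (L l2367 (T t32 (K a98 (M a110 (F (T t86 (L l982 (T t48 (L l126 (L l144 (L l2367 (T t39 N))))))))) (K a110 (M a98 (F (T t35 (L l982 (T t468 N))))) N)))))))))) (K a170 (M a768 (L l402 (F (T t31 (L l2367 (T t29 (L l220 (L l2367 (T t30 (K a34 (M a238 (F (T t31 (L l2154 (L l2367 (T t82 N)))))) (K a238 (M a34 (F (T t31 (L l126 (L l2367 (T t469 N)))))) N))))))))))) (K a234 (M a768 (F (T t31 (L l2367 (T t32 (L l390 (L l402 (L l982 (L l3246 (T t33 N)))))))))) (K a63 (M a768 (F (T t57 (L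 l2209 (L l2367 (T t29 (L l2367 (L l3073 (T t32 N))))))))) N)))))))))))))))))))⟩
def e0_255__346_6 : Ent 5 := ⟨[a0, a255], [a346, a114], (M a192 (F (T t19 (T t23 (T t22 (T t24 (K a64 (M a240 (F (T t79 (L l144 (L l3102 (L l3123 (T t80 (L l2367 (T t81 N))))))))) (K a128 (M a240 (F (T t79 (L l3102 (L l3123 (T t80 (L l192 (L l220 (L l2367 (T t81 N)))))))))) (K a85 (M a768 (F (T t28 (L l347 (L l2339 (L l2367 (T t29 (L l347 (L l2339 (L l2367 (T t30 N))))))))))) (K a149 (M a768 (F (T t31 (L l347 (L l2367 (T t29 (L l2367 (T t32 N)))))))) (K a213 (M a768 (F (T t31 (L l2367 (L l3203 (T t32 (L l982 (T t33 N)))))))) (K a106 (M a768 (F (T t35 (L l2367 (T t29 (L l2367 (T t32 N))))))) (K a170 (M a768 (F (T t31 (L l2367 (T t29 (L l220 (L l2367 (T t30 N)))))))) (K a234 (M a768 (F (T t31 (L l2367 (T t32 (L l390 (L l982 (L l3246 (T t33 N))))))))) (K a63 (M a768 (F (T t57 (L l2209 (L l2367 (T t29 (L l2367 (L l3073 (T t32 N)))))))))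 N)))))))))))))))⟩
def e0_255__346_7 : Ent 5 := ⟨[a0, a255], [a346, a119], (M a192 (F (T t23 (L l126 (T t19 (L l126 (T t22 (L l113 (T t24 (K a64 (M a240 (F (T t79 (L l126 (L l144 (L l3102 (L l3123 (T t80 (L l2367 (T t81 N)))))))))) (K a128 (M a240 (F (T t79 (L l126 (L l3102 (L l3123 (T t80 (L l192 (L l220 (L l2367 (T t81 N))))))))))) (K a85 (M a768 (L l126 (F (T t35 (L l347 (L l2339 (L l2367 (L l2487 (T t29 (L l347 (L l2339 (L l2367 (L l2487 (T t30 (K a68 (M a102 (F (T t35 (L l347 (L l2339 (L l2367 (L l2487 (T t29 (L l80 (L l144 (L l982 (T t36 N)))))))))))) (K a102 (M a68 (F (T t35 (L l365 (L l2339 (L l2367 (L l2487 (T t134 N)))))))) N)))))))))))))))) (K a149 (M a768 (F (T t31 (L l347 (L l2367 (L l2487 (T t29 (L l2367 (L l2487 (T t32 N)))))))))) (K a213 (M a768 (F (T t31 (L l2367 (L l2487 (L l3203 (T t32 (L l982 (T t33 N))))))))) (K a106 (M a768 (F (T t35 (L l2367 (L l2487 (T t29 (L l2367 (L l2487 (T t32 N)))))))))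 (K a170 (M a768 (F (T t31 (L l2367 (L l2487 (T t29 (L l220 (L l2367 (L l2487 (T t30 N)))))))))) (K a234 (M a768 (F (T t31 (L l2367 (L l2487 (T t32 (L l390 (L l982 (L l3246 (T t33 N)))))))))) (K a63 (M a768 (F (T t57 (L l2209 (L l2367 (L l2487 (T t29 (L l2367 (L l2487 (L l3073 (T t32 N))))))))))) N))))))))))))))))))⟩
def e0_255__346_8 : Ent 5 := ⟨[a0, a255], [a346, a177], (M a192 (F (T t19 (T t23 (T t22 (T t24 (K a64 (M a240 (F (T t79 (L l144 (L l3102 (L l3123 (T t80 (L l2367 (T t81 N))))))))) (K a128 (M a240 (F (T t79 (L l3102 (L l3123 (T t80 (L l192 (L l220 (L l2367 (T t81 N)))))))))) (K a85 (M a768 (F (T t28 (L l347 (L l2339 (L l2367 (T t29 (L l347 (L l2339 (L l2367 (T t30 N))))))))))) (K a149 (M a768 (F (T t31 (L l347 (L l2367 (T t29 (L l2367 (T t32 N)))))))) (K a213 (M a768 (F (T t31 (L l2367 (L l3203 (T t32 (L l982 (T t33 N)))))))) (K a106 (M a768 (F (T t35 (L l2367 (T t29 (L l2367 (T t32 N))))))) (K a170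 (M a768 (F (T t31 (L l2367 (T t29 (L l220 (L l2367 (T t30 N)))))))) (K a234 (M a768 (F (T t31 (L l2367 (T t32 (L l390 (L l982 (L l3246 (T t33 N))))))))) (K a63 (M a768 (F (T t57 (L l2209 (L l2367 (T t29 (L l2367 (L l3073 (T t32 N))))))))) N)))))))))))))))⟩
def e0_255__346_9 : Ent 5 := ⟨[a0, a255], [a346, a187], (M a192 (F (T t19 (L l208 (T t23 (L l189 (T t22 (L l208 (T t24 (K a64 (M a240 (F (T t79 (L l144 (L l3102 (L l3123 (T t80 (L l208 (L l2367 (T t81 N)))))))))) (K a128 (M a240 (F (T t79 (L l3102 (L l3123 (T t80 (L l192 (L l208 (L l220 (L l2367 (T t81 N))))))))))) (K a85 (M a768 (F (T t28 (L l347 (L l2339 (L l2367 (T t29 (L l347 (L l2339 (L l2367 (T t30 N))))))))))) (K a149 (M a768 (F (T t31 (L l347 (L l2367 (T t29 (L l2367 (T t32 N)))))))) (K a213 (M a768 (F (T t31 (L l2367 (L l3203 (T t32 (L l208 (L l982 (L l2709 (T t33 N)))))))))) (K a106 (M a768 (F (T t28 (L l2367 (T t29 (L l2367 (T t32 N))))))) (K a170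 (M a768 (L l208 (F (T t31 (L l2367 (T t29 (L l220 (L l2367 (T t30 (K a136 (M a153 (F (T t35 (L l2367 (T t29 (L l982 (L l2598 (L l2709 (T t36 N))))))))) (K a153 (M a136 (F (T t35 (L l982 (L l2598 (L l2709 (T t180 N))))))) N))))))))))) (K a234 (M a768 (F (T t31 (L l2367 (T t32 (L l208 (L l390 (L l982 (L l2709 (L l3246 (T t33 N))))))))))) (K a63 (M a768 (F (T t57 (L l2209 (L l2367 (T t29 (L l2367 (L l3073 (T t32 N))))))))) N))))))))))))))))))⟩
def e0_255__346_10 : Ent 5 := ⟨[a0, a255], [a346, a273], (M a192 (F (T t19 (T t23 (T t22 (T t24 (K a64 (M a240 (F (T t79 (L l144 (L l3102 (L l3123 (T t80 (L l2367 (T t81 N))))))))) (K a128 (M a240 (F (T t79 (L l3102 (L l3123 (T t80 (L l192 (L l220 (L l2367 (T t81 N)))))))))) (K a85 (M a768 (F (T t86 (L l347 (L l2339 (L l2367 (T t29 (L l347 (L l2339 (L l2367 (T t30 N))))))))))) (K a149 (M a768 (F (T t31 (L l347 (L l2367 (T t29 (L l2367 (T t32 N)))))))) (K a213 (M a768 (F (T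 t31 (L l2367 (L l3203 (T t32 (L l982 (T t33 N)))))))) (K a106 (M a768 (F (T t35 (L l2367 (T t29 (L l2367 (T t32 N))))))) (K a170 (M a768 (F (T t31 (L l2367 (T t29 (L l220 (L l2367 (T t30 N)))))))) (K a234 (M a768 (F (T t31 (L l2367 (T t32 (L l390 (L l982 (L l3246 (T t33 N))))))))) (K a63 (M a768 (F (T t69 (L l2209 (L l2367 (T t29 (L l2367 (L l3073 (T t32 N))))))))) N)))))))))))))))⟩
def e0_255__346_11 : Ent 5 := ⟨[a0, a255], [a346, a283], (M a192 (L l877 (F (T t19 (T t23 (T t22 (T t24 (K a64 (M a204 (L l877 (F (T t192 (L l144 (T t184 (L l80 (L l144 (T t185 (K a472 (M a409 (F (T t187 (L l80 (L l2257 (T t195 N)))))) (K a409 (M a472 (F (T t191 (L l3105 (T t275 N))))) N))))))))))) (K a128 (M a204 (L l877 (F (T t192 (T t184 (T t185 (K a472 (M a409 (F (T t184 (L l2472 (T t276 N))))) (K a409 (M a472 (F (T t158 (L l3105 (T t275 N))))) N)))))))) (K a85 (M a768 (L l877 (F (T t28 (L l347 (L l2339 (L l2367 (T t29 (L l347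 (L l2339 (L l2367 (T t30 (K a472 (M a409 (F (T t28 (L l2257 (L l2339 (L l2367 (T t277 N))))))) (K a409 (M a472 (F (T t86 (L l728 (L l982 (T t48 (L l347 (L l2339 (L l2367 (L l3227 (T t30 N))))))))))) N)))))))))))))) (K a149 (M a196 (L l877 (F (T t278 (T t279 (L l202 (L l220 (T t280 (K a472 (M a409 (F (L l2257 (L l2884 (T t281 (L l202 (L l220 (T t280 N)))))))) (K a409 (M a472 (F (L l3123 (L l3320 (T t282 (L l202 (L l220 (T t280 N)))))))) N)))))))))) (K a213 (M a204 (L l877 (F (T t191 (L l278 (T t283 (L l243 (L l347 (T t193 (K a472 (M a409 (F (T t284 (L l2472 (T t194 N))))) (K a409 (M a472 (F (T t191 (L l278 (L l3105 (T t275 N)))))) N))))))))))) (K a106 (M a200 (L l877 (F (T t285 (T t286 (L l132 (L l144 (T t287 (K a472 (M a409 (F (T t285 (L l895 (L l2239 (T t288 N)))))) (K a409 (M a472 (F (T t286 (L l3105 (T t289 N))))) N)))))))))) (K a170 (M a768 (L l877 (F (T t31 (L l2367 (T t29 (L l220 (L l2367 (T t30 (K a472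 (M a409 (F (T t31 (L l2257 (L l2367 (T t277 N)))))) (K a409 (M a472 (F (T t28 (L l728 (L l982 (L l2598 (T t48 (L l220 (L l2367 (L l3227 (T t30 N))))))))))) N))))))))))) (K a234 (M a204 (L l877 (F (T t158 (T t283 (L l284 (T t193 (K a472 (M a409 (F (T t203 (L l254 (L l2239 (T t290 N)))))) (K a409 (M a472 (F (T t158 (L l3105 (T t275 N))))) N))))))))) (K a63 (M a200 (L l877 (F (T t291 (L l62 (T t285 (T t287 (K a472 (M a409 (F (T t292 (L l895 (L l2239 (L l2295 (T t288 N))))))) (K a409 (M a472 (F (L l445 (T t286 (L l2211 (L l3105 (T t289 N))))))) N))))))))) (K a472 (M a409 (F (T t19 (T t23 (T t22 (T t24 (K a64 (M a196 (F (L l2257 (L l2884 (T t281 (L l80 (T t280 N))))))) (K a128 (M a200 (F (T t293 (L l895 (L l2239 (L l2684 (T t288 N))))))) (K a85 (M a768 (F (T t28 (L l2257 (L l2339 (L l2367 (T t277 N))))))) (K a149 (M a768 (F (T t31 (L l2257 (L l2367 (T t277 N)))))) (K a213 (M a768 (F (T t31 (L l2257 (L l2367 (L l3203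 (T t277 N))))))) (K a106 (M a768 (F (T t28 (L l2257 (L l2367 (T t277 N)))))) (K a170 (M a768 (F (T t31 (L l2257 (L l2367 (T t277 N)))))) (K a234 (M a768 (F (T t31 (L l2257 (L l2367 (T t277 N)))))) (K a63 (M a768 (F (T t62 (L l2221 (L l2257 (L l2367 (T t277 N))))))) N))))))))))))))) (K a409 (M a472 (F (T t19 (T t23 (T t22 (T t24 (K a64 (M a196 (F (L l3123 (L l3320 (T t282 (L l80 (T t280 N))))))) (K a128 (M a196 (F (L l3123 (L l3320 (T t282 (L l220 (T t280 N))))))) (K a85 (M a1008 (F (T t294 (L l347 (L l365 (L l3227 (T t295 N))))))) (K a149 (M a1008 (F (T t294 (L l347 (L l3227 (T t295 N)))))) (K a213 (M a1008 (F (T t294 (L l347 (T t296 N))))) (K a106 (M a1008 (F (T t294 (L l408 (L l3227 (T t295 N)))))) (K a170 (M a1008 (F (T t294 (L l3227 (T t295 N))))) (K a234 (M a1008 (F (T t294 (T t296 N)))) (K a63 (M a1008 (F (T t297 (L l445 (L l3227 (T t295 N)))))) N))))))))))))))) N))))))))))))))))))⟩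
def e0_255__346_12 : Ent 5 := ⟨[a0, a255], [a346, a290], (M a192 (F (T t19 (T t23 (T t22 (T t24 (K a64 (M a240 (F (T t79 (L l144 (L l3102 (L l3123 (T t80 (L l2367 (T t81 N))))))))) (K a128 (M a240 (F (T t79 (L l3102 (L l3123 (T t80 (L l192 (L l220 (L l2367 (T t81 N)))))))))) (K a85 (M a768 (F (T t86 (L l347 (L l2339 (L l2367 (T t29 (L l347 (L l2339 (L l2367 (T t30 N))))))))))) (K a149 (M a768 (F (T t31 (L l347 (L l2367 (T t29 (L l2367 (T t32 N)))))))) (K a213 (M a768 (F (T t31 (L l2367 (L l3203 (T t32 (L l922 (L l982 (T t33 N))))))))) (K a106 (M a768 (F (T t86 (L l2367 (T t29 (L l2367 (T t32 N))))))) (K a170 (M a768 (F (T t31 (L l2367 (T t29 (L l220 (L l2367 (T t30 N)))))))) (K a234 (M a768 (F (T t31 (L l2367 (T t32 (L l390 (L l922 (L l982 (L l3246 (T t33 N)))))))))) (K a63 (M a768 (F (T t69 (L l2209 (L l2367 (T t29 (L l2367 (L l3073 (T t32 N))))))))) N)))))))))))))))⟩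
def e0_255__346_13 : Ent 5 := ⟨[a0, a255], [a346, a295], (M a192 (F (T t19 (T t23 (T t22 (T t24 (K a64 (M a240 (F (T t79 (L l144 (L l3102 (L l3123 (T t80 (L l2367 (T t81 N))))))))) (K a128 (M a240 (F (T t79 (L l3102 (L l3123 (T t80 (L l192 (L l220 (L l2367 (T t81 N)))))))))) (K a85 (M a768 (F (T t28 (L l347 (L l2339 (L l2367 (T t29 (L l347 (L l2339 (L l2367 (T t30 N))))))))))) (K a149 (M a768 (F (T t31 (L l347 (L l2367 (T t29 (L l2367 (T t32 N)))))))) (K a213 (M a768 (F (T t31 (L l2367 (L l3203 (T t32 (L l982 (T t33 N)))))))) (K a106 (M a768 (F (T t35 (L l2367 (T t29 (L l2367 (T t32 N))))))) (K a170 (M a768 (F (T t31 (L l2367 (T t29 (L l220 (L l2367 (T t30 N)))))))) (K a234 (M a768 (F (T t31 (L l2367 (T t32 (L l390 (L l982 (L l3246 (T t33 N))))))))) (K a63 (M a768 (F (T t57 (L l2209 (L l2367 (T t29 (L l2367 (L l3073 (T t32 N))))))))) N)))))))))))))))⟩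
def e0_255__346_14 : Ent 5 := ⟨[a0, a255], [a346, a307], (M a192 (F (T t19 (T t23 (T t22 (T t24 (K a64 (M a240 (F (T t79 (L l144 (L l3102 (L l3123 (T t80 (L l2367 (T t81 N))))))))) (K a128 (M a240 (F (T t79 (L l3102 (L l3123 (T t80 (L l192 (L l220 (L l2367 (T t81 N)))))))))) (K a85 (M a768 (F (T t86 (L l347 (L l2339 (L l2367 (T t29 (L l347 (L l2339 (L l2367 (T t30 N))))))))))) (K a149 (M a768 (F (T t31 (L l347 (L l2367 (T t29 (L l959 (L l2367 (T t32 N))))))))) (K a213 (M a768 (F (T t31 (L l959 (L l2367 (L l3203 (T t32 (L l982 (T t33 N))))))))) (K a106 (M a768 (F (T t86 (L l2367 (T t29 (L l959 (L l2367 (T t32 N)))))))) (K a170 (M a768 (F (T t31 (L l2367 (T t29 (L l220 (L l2367 (T t30 N)))))))) (K a234 (M a768 (F (T t31 (L l959 (L l2367 (T t32 (L l390 (L l982 (L l3246 (T t33 N)))))))))) (K a63 (M a768 (F (T t69 (L l2209 (L l2367 (T t29 (L l959 (L l2367 (L l3073 (T t32 N)))))))))) N)))))))))))))))⟩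
def e0_255__346_15 : Ent 5 := ⟨[a0, a255], [a346, a358], (M a48 (L l668 (F (T t136 (T t137 (T t135 (T t138 (K a16 (M a240 (L l668 (F (T t139 (L l340 (L l368 (L l3123 (T t140 (L l2367 (T t141 (K a370 (M a334 (F (T t206 (L l3123 (T t207 (L l340 (L l368 (T t208 N)))))))) (K a334 (M a370 (F (T t206 (L l2967 (L l3123 (T t207 (L l340 (L l368 (T t208 N))))))))) N)))))))))))) (K a32 (M a240 (L l668 (F (T t139 (L l3123 (T t140 (L l376 (L l404 (L l2367 (T t141 (K a370 (M a334 (F (T t206 (L l404 (L l3123 (T t207 (T t208 N))))))) (K a334 (M a370 (F (T t206 (L l404 (L l2967 (L l3123 (T t207 (T t208 N)))))))) N)))))))))))) (K a85 (M a768 (L l668 (F (T t142 (L l123 (L l2339 (L l2367 (L l2487 (T t143 (L l123 (L l2339 (L l2367 (L l2487 (T t144 (K a370 (M a334 (F (T t215 (L l922 (L l982 (T t225 (L l123 (L l2339 (L l2367 (L l2487 (T t144 N))))))))))) (K a334 (M a370 (F (T t215 (L l922 (L l982 (T t225 (L l123 (L l2339 (L l2367 (L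 l2487 (T t144 N))))))))))) N)))))))))))))))) (K a101 (M a49 (L l668 (F (L l3150 (T t209 (L l3042 (L l3150 (T t217 (L l401 (L l404 (T t211 (K a370 (M a334 (F (L l3054 (L l3150 (T t209 (L l401 (L l404 (T t211 (L l3042 (L l3054 (L l3150 (T t217 N)))))))))))) (K a334 (M a370 (F (L l3123 (L l3150 (T t509 (L l401 (L l404 (T t211 N)))))))) N))))))))))))) (K a117 (M a51 (L l668 (F (T t221 (L l3045 (T t219 (L l107 (L l123 (L l2487 (L l3150 (T t220 (K a370 (M a334 (F (T t221 (L l3042 (T t223 (L l107 (L l123 (L l2487 (L l3054 (L l3150 (T t220 N))))))))))) (K a334 (M a370 (F (T t221 (L l437 (L l670 (L l3120 (T t510 N))))))) N))))))))))))) (K a154 (M a50 (L l668 (F (T t511 (T t512 (L l366 (L l368 (L l2484 (L l3042 (T t513 (K a370 (M a334 (F (T t512 (T t511 (L l366 (L l368 (L l2484 (L l3042 (T t513 N))))))))) (K a334 (M a370 (F (T t512 (L l3120 (T t514 N))))) N)))))))))))) (K a170 (M a768 (L l668 (F (T t145 (L l2367 (L l2487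 (T t143 (L l404 (L l2367 (L l2487 (T t144 (K a370 (M a334 (F (T t142 (L l922 (L l982 (L l2598 (T t225 (L l404 (L l2367 (L l2487 (T t144 N))))))))))) (K a334 (M a370 (F (T t142 (L l922 (L l982 (L l2598 (T t225 (L l404 (L l2367 (L l2487 (T t144 N))))))))))) N))))))))))))) (K a186 (M a51 (L l668 (F (T t227 (L l3045 (T t219 (L l438 (L l2487 (L l3150 (T t220 (K a370 (M a334 (F (T t515 (L l184 (L l206 (T t221 (L l438 (L l2487 (L l3054 (L l3150 (T t220 N))))))))))) (K a334 (M a370 (F (T t227 (L l670 (L l3120 (T t510 N)))))) N)))))))))))) (K a207 (M a768 (L l668 (F (T t516 (L l2367 (L l2487 (L l2749 (T t143 (L l2367 (L l2487 (L l2893 (T t32 (K a370 (M a334 (F (T t409 (L l2367 (L l2487 (L l2893 (T t39 (L l922 (L l982 (L l2749 (T t225 N))))))))))) (K a334 (M a370 (F (T t409 (L l2367 (L l2487 (L l2893 (T t39 (L l922 (L l982 (L l2749 (T t225 N))))))))))) N)))))))))))))) (K a370 (M a334 (F (T t136 (T t137 (T t135 (T t138 (K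 a16 (M a240 (F (T t206 (L l3123 (T t207 (L l340 (L l368 (T t208 N)))))))) (K a32 (M a240 (F (T t206 (L l404 (L l3123 (T t207 (T t208 N))))))) (K a85 (M a768 (F (T t215 (L l922 (L l982 (T t225 (L l123 (L l2339 (L l2367 (L l2487 (T t144 N))))))))))) (K a101 (M a972 (F (T t517 (L l123 (L l2367 (T t518 N)))))) (K a117 (M a972 (F (T t517 (L l123 (L l2367 (T t518 N)))))) (K a154 (M a972 (F (T t517 (L l206 (T t519 N))))) (K a170 (M a768 (F (T t142 (L l922 (L l982 (L l2598 (T t225 (L l404 (L l2367 (L l2487 (T t144 N))))))))))) (K a186 (M a972 (F (T t517 (L l2367 (T t518 N))))) (K a207 (M a972 (F (T t520 (L l303 (L l2367 (T t518 N)))))) N))))))))))))))) (K a334 (M a370 (F (T t136 (T t137 (T t135 (T t138 (K a16 (M a49 (F (L l3123 (L l3150 (T t509 (L l10 (T t211 N))))))) (K a32 (M a49 (F (L l3123 (L l3150 (T t509 (L l404 (T t211 N))))))) (K a85 (M a1008 (F (T t521 (L l123 (L l126 (L l2487 (T t522 N))))))) (K a101 (M a1008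 (F (T t521 (L l123 (L l2487 (T t522 N)))))) (K a117 (M a1008 (F (T t521 (L l123 (T t523 N))))) (K a154 (M a1008 (F (T t521 (L l209 (L l2487 (T t522 N)))))) (K a170 (M a1008 (F (T t521 (L l2487 (T t522 N))))) (K a186 (M a1008 (F (T t521 (T t523 N)))) (K a207 (M a1008 (F (T t524 (L l291 (L l2487 (T t522 N)))))) N))))))))))))))) N))))))))))))))))))⟩
def e0_255__346_16 : Ent 5 := ⟨[a0, a255], [a346, a370], (M a12 (L l668 (F (T t154 (T t155 (T t153 (T t156 (K a4 (M a341 (L l668 (F (T t448 (L l3102 (T t94 (T t525 (K a358 (M a334 (F (T t448 (L l3042 (L l3102 (T t94 (T t525 N))))))) (K a334 (M a358 (F (T t0 (L l626 (T t526 N))))) N))))))))) (K a8 (M a341 (L l668 (F (T t1 (L l3102 (L l3104 (T t94 (L l464 (T t525 (K a358 (M a334 (F (T t1 (L l3042 (L l3102 (L l3104 (T t94 (L l464 (T t525 N))))))))) (K a334 (M a358 (F (T t1 (L l626 (L l2956 (T t526 N)))))) N))))))))))) (K a85 (M a768 (L l668 (F (T t160 (L l91 (L l2339 (L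 l2367 (T t161 (L l91 (L l2339 (L l2367 (T t162 (K a358 (M a334 (F (T t265 (L l922 (L l982 (T t493 (L l91 (L l2339 (L l2367 (L l2487 (T t162 N))))))))))) (K a334 (M a358 (F (T t265 (L l126 (L l982 (L l3057 (T t527 N))))))) N)))))))))))))) (K a89 (M a768 (L l668 (F (T t163 (L l91 (L l2367 (T t161 (L l2367 (T t32 (K a358 (M a334 (F (T t160 (L l91 (L l2367 (L l2487 (T t39 (L l922 (L l982 (T t493 N)))))))))) (K a334 (M a358 (F (T t160 (L l982 (L l3057 (T t527 N)))))) N))))))))))) (K a93 (M a768 (L l668 (F (T t163 (L l2363 (L l2367 (T t32 (L l91 (L l2363 (L l2367 (T t164 (K a358 (M a334 (F (T t265 (L l91 (L l2363 (L l2367 (L l2487 (T t39 (L l922 (L l982 (T t528 N))))))))))) (K a334 (M a358 (F (T t265 (L l982 (L l3057 (T t527 N)))))) N))))))))))))) (K a166 (M a768 (L l668 (F (T t166 (L l2367 (T t161 (L l2367 (T t32 (K a358 (M a334 (F (T t265 (L l922 (L l982 (T t493 (L l458 (L l2367 (L l2487 (T t39 N)))))))))) (K a334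 (M a358 (F (T t265 (L l982 (L l3057 (T t527 N)))))) N)))))))))) (K a170 (M a768 (L l668 (F (T t163 (L l2367 (T t161 (L l464 (L l2367 (T t162 (K a358 (M a334 (F (T t160 (L l922 (L l982 (L l2598 (T t493 (L l464 (L l2367 (L l2487 (T t162 N))))))))))) (K a334 (M a358 (F (T t160 (L l982 (L l2598 (L l3057 (T t527 N))))))) N))))))))))) (K a174 (M a768 (L l668 (F (T t163 (L l2367 (T t32 (L l2367 (T t164 (K a358 (M a334 (F (T t265 (L l2367 (L l2487 (T t39 (L l178 (L l922 (L l982 (L l2616 (T t528 N))))))))))) (K a334 (M a358 (F (T t265 (L l982 (L l2616 (L l3057 (T t527 N))))))) N)))))))))) (K a243 (M a768 (L l668 (F (T t529 (L l2367 (L l2839 (T t161 (L l2367 (L l2863 (T t32 (K a358 (M a334 (F (T t530 (L l2367 (L l2487 (L l2863 (T t39 (L l922 (L l982 (L l2839 (T t493 N))))))))))) (K a334 (M a358 (F (T t497 (L l415 (L l982 (L l3057 (T t527 N))))))) N)))))))))))) (K a358 (M a334 (F (T t154 (T t155 (T t153 (T t156 (K a4 (M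 a13 (F (L l3120 (L l3153 (T t531 (L l1 (T t488 N))))))) (K a8 (M a13 (F (L l3120 (L l3153 (T t531 (L l464 (T t488 N))))))) (K a85 (M a972 (F (T t532 (T t533 N)))) (K a89 (M a972 (F (T t532 (L l95 (T t533 N))))) (K a93 (M a972 (F (T t532 (L l3102 (T t534 N))))) (K a166 (M a972 (F (T t532 (L l178 (T t533 N))))) (K a170 (M a972 (F (T t532 (L l178 (L l180 (T t533 N)))))) (K a174 (M a972 (F (T t532 (L l178 (L l3102 (T t534 N)))))) (K a243 (M a972 (F (T t535 (L l267 (T t533 N))))) N))))))))))))))) (K a334 (M a358 (F (T t154 (T t155 (T t153 (T t156 (K a4 (M a324 (F (T t536 (L l599 (L l608 (L l3057 (T t537 N))))))) (K a8 (M a972 (F (T t538 (L l2956 (L l2997 (T t539 N)))))) (K a85 (M a768 (F (T t265 (L l126 (L l982 (L l3057 (T t527 N))))))) (K a89 (M a768 (F (T t160 (L l982 (L l3057 (T t527 N)))))) (K a93 (M a768 (F (T t265 (L l982 (L l3057 (T t527 N)))))) (K a166 (M a768 (F (T t265 (L l982 (L l3057 (T t527 N)))))) (K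 a170 (M a768 (F (T t160 (L l982 (L l2598 (L l3057 (T t527 N))))))) (K a174 (M a768 (F (T t265 (L l982 (L l2616 (L l3057 (T t527 N))))))) (K a243 (M a768 (F (T t497 (L l415 (L l982 (L l3057 (T t527 N))))))) N))))))))))))))) N))))))))))))))))))⟩
def e0_255__346_17 : Ent 5 := ⟨[a0, a255], [a346, a375], (M a192 (F (T t19 (T t23 (T t22 (T t24 (K a64 (M a240 (F (T t79 (L l144 (L l3102 (L l3123 (T t80 (L l2367 (T t81 N))))))))) (K a128 (M a240 (F (T t79 (L l3102 (L l3123 (T t80 (L l192 (L l220 (L l2367 (T t81 N)))))))))) (K a85 (M a768 (F (T t28 (L l347 (L l2339 (L l2367 (T t29 (L l347 (L l2339 (L l2367 (L l2431 (T t30 N)))))))))))) (K a149 (M a768 (F (T t31 (L l347 (L l2367 (T t29 (L l959 (L l2367 (L l3079 (T t32 N)))))))))) (K a213 (M a768 (F (T t31 (L l959 (L l2367 (L l3079 (L l3203 (T t32 (L l982 (T t33 N)))))))))) (K a106 (M a768 (F (T t28 (L l2367 (T t29 (L l959 (L l2367 (L l3079 (T t32 N))))))))) (K a170 (M a768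 (F (T t31 (L l2367 (T t29 (L l220 (L l2367 (L l2431 (T t30 N))))))))) (K a234 (M a768 (F (T t31 (L l959 (L l2367 (L l3079 (T t32 (L l390 (L l982 (L l3246 (T t33 N))))))))))) (K a63 (M a768 (F (T t57 (L l2209 (L l2367 (T t29 (L l959 (L l2367 (L l3073 (L l3079 (T t32 N))))))))))) N)))))))))))))))⟩
def e0_255__346_18 : Ent 5 := ⟨[a0, a255], [a346, a433], (M a192 (F (T t19 (T t23 (T t22 (T t24 (K a64 (M a240 (F (T t79 (L l144 (L l3102 (L l3123 (T t80 (L l2367 (T t81 N))))))))) (K a128 (M a240 (F (T t79 (L l3102 (L l3123 (T t80 (L l192 (L l220 (L l2367 (T t81 N)))))))))) (K a85 (M a768 (F (T t28 (L l347 (L l2339 (L l2367 (T t29 (L l347 (L l2339 (L l2367 (T t30 N))))))))))) (K a149 (M a768 (F (T t31 (L l347 (L l2367 (T t29 (L l2367 (T t32 N)))))))) (K a213 (M a768 (F (T t31 (L l2367 (L l3203 (T t32 (L l982 (T t33 N)))))))) (K a106 (M a768 (F (T t35 (L l2367 (T t29 (L l2367 (T t32 N))))))) (K a170 (M a768 (F (T t31 (L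 l2367 (T t29 (L l220 (L l2367 (T t30 N)))))))) (K a234 (M a768 (F (T t31 (L l2367 (T t32 (L l390 (L l982 (L l3246 (T t33 N))))))))) (K a63 (M a768 (F (T t57 (L l2209 (L l2367 (T t29 (L l2367 (L l3073 (T t32 N))))))))) N)))))))))))))))⟩
def e0_255__346_19 : Ent 5 := ⟨[a0, a255], [a346, a443], (M a192 (F (T t19 (T t23 (L l2653 (T t22 (T t24 (K a64 (M a240 (F (T t79 (L l144 (L l3102 (L l3123 (T t80 (L l2367 (T t81 N))))))))) (K a128 (M a240 (F (T t79 (L l3102 (L l3123 (T t80 (L l192 (L l220 (L l2367 (T t81 N)))))))))) (K a85 (M a768 (F (T t28 (L l347 (L l2339 (L l2367 (T t29 (L l347 (L l2339 (L l2367 (T t30 N))))))))))) (K a149 (M a768 (F (T t31 (L l347 (L l2367 (T t29 (L l959 (L l2367 (T t32 N))))))))) (K a213 (M a768 (F (T t31 (L l959 (L l2367 (L l3203 (T t32 (L l728 (L l982 (T t33 N)))))))))) (K a106 (M a768 (F (T t28 (L l2367 (T t29 (L l959 (L l2367 (T t32 N)))))))) (K a170 (M a768 (F (T t31 (L l2367 (T t29 (L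 l220 (L l2367 (T t30 N)))))))) (K a234 (M a768 (F (T t31 (L l959 (L l2367 (T t32 (L l390 (L l728 (L l982 (L l3246 (T t33 N))))))))))) (K a63 (M a768 (F (T t57 (L l2209 (L l2367 (T t29 (L l959 (L l2367 (L l3073 (T t32 N)))))))))) N))))))))))))))))⟩
def e0_255__346_20 : Ent 5 := ⟨[a0, a255], [a346, a529], (M a192 (F (T t19 (T t23 (T t22 (T t24 (K a64 (M a240 (F (T t79 (L l144 (L l3102 (L l3123 (T t80 (L l2367 (T t81 N))))))))) (K a128 (M a240 (F (T t79 (L l3102 (L l3123 (T t80 (L l192 (L l220 (L l2367 (T t81 N)))))))))) (K a85 (M a768 (F (T t28 (L l347 (L l1405 (L l2339 (L l2367 (T t29 (L l347 (L l1405 (L l2339 (L l2367 (T t30 N))))))))))))) (K a149 (M a768 (F (T t31 (L l347 (L l1405 (L l2367 (T t29 (L l1084 (L l1405 (L l2367 (T t32 N))))))))))) (K a213 (M a768 (F (T t31 (L l1084 (L l1405 (L l2367 (L l3203 (T t32 (L l982 (T t33 N)))))))))) (K a106 (M a768 (F (T t28 (L l1405 (L l2367 (T t29 (L l1084 (L l1405 (L l2367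 (T t32 N)))))))))) (K a170 (M a768 (F (T t31 (L l1405 (L l2367 (T t29 (L l220 (L l1405 (L l2367 (T t30 N)))))))))) (K a234 (M a768 (F (T t31 (L l1084 (L l1405 (L l2367 (T t32 (L l390 (L l982 (L l3246 (T t33 N))))))))))) (K a63 (M a768 (F (T t57 (L l1405 (L l2209 (L l2367 (T t29 (L l1084 (L l1405 (L l2367 (L l3073 (T t32 N)))))))))))) N)))))))))))))))⟩
def e0_255__346_21 : Ent 5 := ⟨[a0, a255], [a346, a539], (M a192 (F (T t19 (T t23 (T t22 (T t24 (K a64 (M a240 (F (T t79 (L l144 (L l3102 (L l3123 (T t80 (L l2367 (T t81 N))))))))) (K a128 (M a240 (F (T t79 (L l3102 (L l3123 (T t80 (L l192 (L l220 (L l2367 (T t81 N)))))))))) (K a85 (M a768 (F (T t28 (L l347 (L l2339 (L l2367 (T t29 (L l347 (L l2339 (L l2367 (T t30 N))))))))))) (K a149 (M a768 (F (T t31 (L l347 (L l2367 (T t29 (L l2367 (T t32 N)))))))) (K a213 (M a768 (F (T t31 (L l2367 (L l3203 (T t32 (L l982 (T t33 N)))))))) (K a106 (M a768 (F (T t35 (L l2367 (T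 t29 (L l2367 (T t32 N))))))) (K a170 (M a768 (F (T t31 (L l2367 (T t29 (L l220 (L l2367 (T t30 N)))))))) (K a234 (M a768 (F (T t31 (L l2367 (T t32 (L l390 (L l982 (L l3246 (T t33 N))))))))) (K a63 (M a768 (F (T t57 (L l2209 (L l2367 (T t29 (L l2367 (L l3073 (T t32 N))))))))) N)))))))))))))))⟩
def e0_255__346_22 : Ent 5 := ⟨[a0, a255], [a346, a546], (M a192 (F (T t19 (T t23 (T t22 (T t24 (K a64 (M a240 (F (T t79 (L l144 (L l3102 (L l3123 (T t80 (L l2367 (T t81 N))))))))) (K a128 (M a240 (F (T t79 (L l3102 (L l3123 (T t80 (L l192 (L l220 (L l2367 (T t81 N)))))))))) (K a85 (M a768 (F (T t28 (L l347 (L l2339 (L l2367 (T t29 (L l347 (L l2339 (L l2367 (T t30 N))))))))))) (K a149 (M a768 (F (T t31 (L l347 (L l2367 (T t29 (L l1084 (L l2367 (T t32 N))))))))) (K a213 (M a768 (F (T t31 (L l1084 (L l2367 (L l3203 (T t32 (L l982 (T t33 N))))))))) (K a106 (M a768 (F (T t28 (L l2367 (T t29 (L l1084 (L l2367 (T t32 N))))))))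 (K a170 (M a768 (F (T t31 (L l2367 (T t29 (L l220 (L l2367 (T t30 N)))))))) (K a234 (M a768 (F (T t31 (L l1084 (L l2367 (T t32 (L l390 (L l982 (L l3246 (T t33 N)))))))))) (K a63 (M a768 (F (T t57 (L l2209 (L l2367 (T t29 (L l1084 (L l2367 (L l3073 (T t32 N)))))))))) N)))))))))))))))⟩
def e0_255__346_23 : Ent 5 := ⟨[a0, a255], [a346, a551], (M a192 (F (T t19 (T t23 (T t22 (T t24 (K a64 (M a240 (F (T t79 (L l144 (L l2257 (L l3102 (L l3123 (T t80 (L l2367 (T t81 N)))))))))) (K a128 (M a240 (F (T t79 (L l2257 (L l3102 (L l3123 (T t80 (L l192 (L l220 (L l2367 (T t81 N))))))))))) (K a85 (M a768 (F (T t28 (L l347 (L l2339 (L l2367 (T t29 (L l347 (L l2339 (L l2367 (T t30 N))))))))))) (K a149 (M a768 (F (T t31 (L l347 (L l2367 (T t29 (L l2367 (T t32 N)))))))) (K a213 (M a768 (F (T t31 (L l2367 (L l3203 (T t32 (L l982 (T t33 N)))))))) (K a106 (M a768 (F (T t35 (L l2367 (T t29 (L l2367 (T t32 N))))))) (K a170 (M a768 (F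 (T t31 (L l2367 (T t29 (L l220 (L l2367 (T t30 N)))))))) (K a234 (M a768 (F (T t31 (L l2367 (T t32 (L l390 (L l982 (L l3246 (T t33 N))))))))) (K a63 (M a768 (F (T t57 (L l2209 (L l2367 (T t29 (L l2367 (L l3073 (T t32 N))))))))) N)))))))))))))))⟩
def e0_255__346_24 : Ent 5 := ⟨[a0, a255], [a346, a563], (M a192 (F (T t19 (T t23 (T t22 (T t24 (K a64 (M a240 (F (T t79 (L l144 (L l3102 (L l3123 (T t80 (L l2367 (T t81 N))))))))) (K a128 (M a240 (F (T t79 (L l3102 (L l3123 (T t80 (L l192 (L l220 (L l2367 (T t81 N)))))))))) (K a85 (M a768 (F (T t86 (L l347 (L l2339 (L l2367 (T t29 (L l347 (L l2339 (L l2367 (T t30 N))))))))))) (K a149 (M a768 (F (T t31 (L l347 (L l2367 (T t29 (L l1084 (L l2367 (T t32 N))))))))) (K a213 (M a768 (F (T t31 (L l1084 (L l2367 (L l3203 (T t32 (L l982 (T t33 N))))))))) (K a106 (M a768 (F (T t86 (L l2367 (T t29 (L l1084 (L l2367 (T t32 N)))))))) (K a170 (M a768 (F (T t31 (L l2367 (T t29 (L l220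 (L l2367 (T t30 N)))))))) (K a234 (M a768 (F (T t31 (L l1084 (L l2367 (T t32 (L l390 (L l982 (L l3246 (T t33 N)))))))))) (K a63 (M a768 (F (T t401 (L l2209 (L l2367 (T t29 (L l1084 (L l2367 (L l3073 (T t32 N)))))))))) N)))))))))))))))⟩
def e0_255__346_25 : Ent 5 := ⟨[a0, a255], [a346, a614], (M a192 (L l2472 (F (T t19 (T t23 (T t22 (T t24 (K a64 (M a204 (L l2472 (F (T t187 (L l144 (T t184 (L l80 (L l144 (L l2450 (T t185 (K a882 (M a78 (F (T t187 (L l3102 (T t540 N))))) (K a78 (M a882 (F (T t187 (L l3264 (T t191 (T t298 N)))))) N)))))))))))) (K a128 (M a204 (L l2472 (F (T t184 (T t187 (L l2450 (T t185 (K a882 (M a78 (F (T t187 (L l220 (L l3102 (T t540 N)))))) (K a78 (M a882 (F (T t187 (L l220 (L l3264 (T t191 (L l156 (L l220 (T t298 N))))))))) N))))))))) (K a85 (M a768 (L l2472 (F (T t28 (L l347 (L l1166 (L l2339 (L l2367 (T t29 (L l347 (L l1166 (L l2339 (L l2367 (T t30 (K a882 (M a78 (F (T t86 (L l982 (L l3264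 (T t48 (L l347 (L l1166 (L l2339 (L l2367 (T t30 N))))))))))) (K a78 (M a882 (F (T t86 (L l982 (L l3264 (T t48 (L l347 (L l1166 (L l2339 (L l2367 (T t30 N))))))))))) N)))))))))))))))) (K a149 (M a204 (L l2472 (F (T t541 (L l347 (T t187 (L l347 (T t184 (K a882 (M a78 (F (T t372 (L l220 (L l3102 (T t540 N)))))) (K a78 (M a882 (F (T t541 (T t372 (L l220 (L l3264 (T t191 N))))))) N)))))))))) (K a213 (M a204 (L l2472 (F (T t190 (L l278 (L l2450 (L l3314 (T t283 (L l243 (L l347 (T t193 (K a882 (M a78 (F (T t541 (L l275 (L l3102 (T t540 N)))))) (K a78 (M a882 (F (T t541 (L l3264 (T t191 (L l243 (L l347 (T t193 N)))))))) N))))))))))))) (K a106 (M a200 (L l2472 (F (L l3314 (T t286 (L l2450 (L l3314 (T t285 (L l132 (L l144 (T t287 (K a882 (M a78 (F (L l3105 (L l3314 (T t542 (L l132 (L l144 (T t287 N)))))))) (K a78 (M a882 (F (L l3314 (T t286 (L l2450 (L l3314 (T t285 (L l132 (L l144 (T t287 N)))))))))) N))))))))))))) (K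 a170 (M a768 (L l2472 (F (T t31 (L l1166 (L l2367 (T t29 (L l220 (L l1166 (L l2367 (T t30 (K a882 (M a78 (F (T t28 (L l982 (L l2598 (L l3264 (T t48 (L l220 (L l1166 (L l2367 (T t30 N))))))))))) (K a78 (M a882 (F (T t28 (L l982 (L l2598 (L l3264 (T t48 (L l220 (L l1166 (L l2367 (T t30 N))))))))))) N))))))))))))) (K a234 (M a204 (L l2472 (F (T t184 (L l2450 (L l3314 (T t283 (L l284 (T t193 (K a882 (M a78 (F (T t184 (L l2442 (T t543 N))))) (K a78 (M a882 (F (T t184 (L l79 (L l2474 (T t284 (L l284 (T t193 N)))))))) N))))))))))) (K a63 (M a200 (L l2472 (F (L l3314 (T t291 (L l62 (L l2450 (L l3314 (T t285 (T t287 (K a882 (M a78 (F (L l3105 (L l3314 (T t542 (T t287 N)))))) (K a78 (M a882 (F (L l3314 (T t291 (L l62 (L l2450 (L l3314 (T t285 (T t287 N))))))))) N)))))))))))) (K a882 (M a78 (F (T t19 (T t23 (T t22 (T t24 (K a64 (M a200 (F (L l3105 (L l3314 (T t542 (L l144 (T t287 N))))))) (K a128 (M a200 (F (L l160 (L l3105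 (L l3314 (T t542 (L l156 (T t287 N)))))))) (K a85 (M a204 (F (L l3264 (T t192 (L l2454 (L l3102 (T t544 N))))))) (K a149 (M a204 (F (T t372 (L l220 (L l3102 (T t540 N)))))) (K a213 (M a204 (F (T t541 (L l275 (L l3102 (T t540 N)))))) (K a106 (M a72 (F (L l390 (T t545 (L l142 (L l2442 (L l2450 (T t546 N)))))))) (K a170 (M a204 (F (T t187 (L l462 (L l2454 (L l3102 (T t544 N))))))) (K a234 (M a72 (F (T t547 (L l2442 (L l2450 (T t546 N)))))) (K a63 (M a72 (F (T t548 (L l2442 (L l2450 (T t546 N)))))) N))))))))))))))) (K a78 (M a882 (F (T t19 (T t23 (T t22 (T t24 (K a64 (M a240 (F (T t25 (L l327 (L l3123 (T t207 (L l116 (L l144 (T t27 N))))))))) (K a128 (M a240 (F (T t25 (L l220 (L l327 (L l3123 (T t207 (T t27 N)))))))) (K a85 (M a768 (F (T t86 (L l982 (L l3264 (T t48 (L l347 (L l1166 (L l2339 (L l2367 (T t30 N))))))))))) (K a149 (M a768 (F (T t28 (L l347 (L l1166 (L l2367 (T t39 (L l982 (L l3264 (T t48 N)))))))))) (K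 a213 (M a768 (F (T t86 (L l347 (L l1166 (L l2367 (L l3203 (T t39 (L l347 (L l1166 (L l2367 (L l3203 (T t44 N))))))))))))) (K a106 (M a768 (F (T t86 (L l982 (L l3264 (T t48 (L l144 (L l1166 (L l2367 (T t39 N)))))))))) (K a170 (M a768 (F (T t28 (L l982 (L l2598 (L l3264 (T t48 (L l220 (L l1166 (L l2367 (T t30 N))))))))))) (K a234 (M a768 (F (T t86 (L l1166 (L l2367 (T t39 (L l1166 (L l2367 (T t44 N))))))))) (K a63 (M a768 (F (T t62 (L l1166 (L l2367 (L l3073 (T t39 (L l982 (L l2209 (L l3264 (T t48 N))))))))))) N))))))))))))))) N))))))))))))))))))⟩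
def e0_255__346_26 : Ent 5 := ⟨[a0, a255], [a346, a626], (M a192 (F (T t19 (T t23 (T t22 (T t24 (K a64 (M a240 (F (T t79 (L l144 (L l3102 (L l3123 (T t80 (L l2367 (T t81 N))))))))) (K a128 (M a240 (F (T t79 (L l3102 (L l3123 (T t80 (L l192 (L l220 (L l2367 (T t81 N)))))))))) (K a85 (M a768 (F (T t28 (L l347 (L l2339 (L l2367 (T t29 (L l347 (L l2339 (L l2367 (T t30 N))))))))))) (K a149 (M a768 (F (T t31 (L l347 (L l2367 (T t29 (L l2367 (T t32 N)))))))) (K a213 (M a768 (F (T t31 (L l2367 (L l3203 (T t32 (L l982 (T t33 N)))))))) (K a106 (M a768 (F (T t35 (L l2367 (T t29 (L l2367 (T t32 N))))))) (K a170 (M a768 (F (T t31 (L l2367 (T t29 (L l220 (L l2367 (T t30 N)))))))) (K a234 (M a768 (F (T t31 (L l2367 (T t32 (L l390 (L l982 (L l3246 (T t33 N))))))))) (K a63 (M a768 (F (T t57 (L l2209 (L l2367 (T t29 (L l2367 (L l3073 (T t32 N))))))))) N)))))))))))))))⟩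
def e0_255__346_27 : Ent 5 := ⟨[a0, a255], [a346, a631], (M a192 (F (T t19 (T t23 (T t22 (L l2437 (T t24 (K a64 (M a240 (F (T t79 (L l144 (L l3102 (L l3123 (T t80 (L l2367 (T t81 N))))))))) (K a128 (M a240 (F (T t79 (L l3102 (L l3123 (T t80 (L l192 (L l220 (L l2367 (T t81 N)))))))))) (K a85 (M a768 (F (T t28 (L l347 (L l1166 (L l2339 (L l2367 (T t29 (L l347 (L l1166 (L l2339 (L l2367 (T t30 N))))))))))))) (K a149 (M a768 (F (T t31 (L l347 (L l1166 (L l2367 (T t29 (L l1166 (L l2367 (T t32 N)))))))))) (K a213 (M a768 (F (T t31 (L l1166 (L l2367 (L l3203 (T t32 (L l982 (L l1153 (T t33 N)))))))))) (K a106 (M a768 (F (T t28 (L l1166 (L l2367 (T t29 (L l1166 (L l2367 (T t32 N))))))))) (K a170 (M a768 (F (T t31 (L l1166 (L l2367 (T t29 (L l220 (L l1166 (L l2367 (T t30 N)))))))))) (K a234 (M a768 (F (T t31 (L l1166 (L l2367 (T t32 (L l390 (L l982 (L l1153 (L l3246 (T t33 N))))))))))) (K a63 (M a768 (F (T t57 (L l1166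 (L l2209 (L l2367 (T t29 (L l1166 (L l2367 (L l3073 (T t32 N))))))))))) N))))))))))))))))⟩
def e0_255__346_28 : Ent 5 := ⟨[a0, a255], [a346, a689], (M a192 (F (T t19 (T t23 (T t22 (T t24 (K a64 (M a240 (F (T t79 (L l144 (L l3102 (L l3123 (T t80 (L l2367 (T t81 N))))))))) (K a128 (M a240 (F (T t79 (L l3102 (L l3123 (T t80 (L l192 (L l220 (L l2367 (T t81 N)))))))))) (K a85 (M a768 (F (T t28 (L l347 (L l2339 (L l2367 (T t29 (L l347 (L l2339 (L l2367 (T t30 N))))))))))) (K a149 (M a768 (F (T t31 (L l347 (L l2367 (T t29 (L l2367 (T t32 N)))))))) (K a213 (M a768 (F (T t31 (L l2367 (L l3203 (T t32 (L l982 (T t33 N)))))))) (K a106 (M a768 (F (T t35 (L l2367 (T t29 (L l2367 (T t32 N))))))) (K a170 (M a768 (F (T t31 (L l2367 (T t29 (L l220 (L l2367 (T t30 N)))))))) (K a234 (M a768 (F (T t31 (L l2367 (T t32 (L l390 (L l982 (L l3246 (T t33 N))))))))) (K a63 (M a768 (F (T t57 (L l2209 (L l2367 (T t29 (L l2367 (L l3073 (T t32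 N))))))))) N)))))))))))))))⟩
def e0_255__346_29 : Ent 5 := ⟨[a0, a255], [a346, a699], (M a192 (F (T t19 (T t23 (T t22 (T t24 (K a64 (M a240 (F (T t79 (L l144 (L l3102 (L l3123 (T t80 (L l2367 (T t81 N))))))))) (K a128 (M a240 (F (T t79 (L l3102 (L l3123 (T t80 (L l192 (L l220 (L l2367 (T t81 N)))))))))) (K a85 (M a768 (F (T t28 (L l347 (L l2339 (L l2367 (T t29 (L l347 (L l2339 (L l2367 (T t30 N))))))))))) (K a149 (M a768 (F (T t31 (L l347 (L l2367 (T t29 (L l2367 (L l3079 (T t32 N))))))))) (K a213 (M a768 (F (T t31 (L l2367 (L l3079 (L l3203 (T t32 (L l982 (T t33 N))))))))) (K a106 (M a768 (F (T t28 (L l2367 (T t29 (L l2367 (L l3079 (T t32 N)))))))) (K a170 (M a768 (F (T t31 (L l2367 (T t29 (L l220 (L l2367 (T t30 N)))))))) (K a234 (M a768 (F (T t31 (L l2367 (L l3079 (T t32 (L l390 (L l982 (L l3246 (T t33 N)))))))))) (K a63 (M a768 (F (T t57 (L l2209 (L l2367 (T t29 (L l2367 (L l3073 (L l3079 (T t32 N))))))))))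 N)))))))))))))))⟩
def e0_255__346_30 : Ent 5 := ⟨[a0, a255], [a346, a785], (M a192 (F (T t19 (T t23 (T t22 (T t24 (K a64 (M a240 (F (T t79 (L l144 (L l3102 (L l3123 (T t80 (L l2367 (T t81 N))))))))) (K a128 (M a240 (F (T t79 (L l3102 (L l3123 (T t80 (L l192 (L l220 (L l2367 (T t81 N)))))))))) (K a85 (M a768 (F (T t28 (L l347 (L l2339 (L l2367 (L l3227 (T t29 (L l347 (L l2339 (L l2367 (L l3227 (T t30 N))))))))))))) (K a149 (M a768 (F (T t31 (L l347 (L l2367 (L l3227 (T t29 (L l2367 (L l3227 (T t32 N)))))))))) (K a213 (M a768 (F (T t31 (L l2367 (L l3203 (L l3227 (T t32 (L l982 (L l1925 (T t33 N)))))))))) (K a106 (M a768 (F (T t28 (L l2367 (L l3227 (T t29 (L l2367 (L l3227 (T t32 N))))))))) (K a170 (M a768 (F (T t31 (L l2367 (L l3227 (T t29 (L l220 (L l2367 (L l3227 (T t30 N)))))))))) (K a234 (M a768 (F (T t31 (L l2367 (L l3227 (T t32 (L l390 (L l982 (L l1925 (L l3246 (T t33 N))))))))))) (K a63 (M a768 (F (T t57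 (L l2209 (L l2367 (L l3227 (T t29 (L l2367 (L l3073 (L l3227 (T t32 N))))))))))) N)))))))))))))))⟩
def e0_255__346_31 : Ent 5 := ⟨[a0, a255], [a346, a795], (M a192 (F (T t19 (T t23 (T t22 (T t24 (K a64 (M a240 (F (T t79 (L l144 (L l3102 (L l3123 (T t80 (L l2367 (T t81 N))))))))) (K a128 (M a240 (F (T t79 (L l3102 (L l3123 (T t80 (L l192 (L l220 (L l2367 (T t81 N)))))))))) (K a85 (M a768 (F (T t28 (L l347 (L l2339 (L l2367 (T t29 (L l347 (L l2339 (L l2367 (T t30 N))))))))))) (K a149 (M a768 (F (T t31 (L l347 (L l2367 (T t29 (L l2367 (T t32 N)))))))) (K a213 (M a768 (F (T t31 (L l2367 (L l3203 (T t32 (L l982 (T t33 N)))))))) (K a106 (M a768 (F (T t35 (L l2367 (T t29 (L l2367 (T t32 N))))))) (K a170 (M a768 (F (T t31 (L l2367 (T t29 (L l220 (L l2367 (T t30 N)))))))) (K a234 (M a768 (F (T t31 (L l2367 (T t32 (L l390 (L l982 (L l3246 (T t33 N))))))))) (K a63 (M a768 (F (T t57 (L l2209 (L l2367 (T t29 (L l2367 (L l3073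 (T t32 N))))))))) N)))))))))))))))⟩
def e0_255__346_32 : Ent 5 := ⟨[a0, a255], [a346, a802], (M a192 (F (T t19 (T t23 (T t22 (T t24 (K a64 (M a240 (F (T t79 (L l144 (L l3102 (L l3123 (T t80 (L l2367 (T t81 N))))))))) (K a128 (M a240 (F (T t79 (L l3102 (L l3123 (T t80 (L l192 (L l220 (L l2367 (T t81 N)))))))))) (K a85 (M a768 (F (T t28 (L l347 (L l1586 (L l2339 (L l2367 (T t29 (L l347 (L l1586 (L l2339 (L l2367 (T t30 N))))))))))))) (K a149 (M a768 (F (T t31 (L l347 (L l1586 (L l2367 (T t29 (L l2367 (T t32 N))))))))) (K a213 (M a768 (F (T t31 (L l2367 (L l3203 (T t32 (L l982 (L l3264 (T t33 N))))))))) (K a106 (M a768 (F (T t28 (L l1586 (L l2367 (T t29 (L l2367 (T t32 N)))))))) (K a170 (M a768 (F (T t31 (L l1586 (L l2367 (T t29 (L l220 (L l1586 (L l2367 (T t30 N)))))))))) (K a234 (M a768 (F (T t31 (L l2367 (T t32 (L l390 (L l982 (L l3246 (L l3264 (T t33 N)))))))))) (K a63 (M a768 (F (T t57 (L l1586 (L l2209 (L l2367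 (T t29 (L l2367 (L l3073 (T t32 N)))))))))) N)))))))))))))))⟩
def e0_255__346_33 : Ent 5 := ⟨[a0, a255], [a346, a807], (M a192 (F (T t19 (T t23 (T t22 (T t24 (K a64 (M a240 (F (T t79 (L l144 (L l3102 (L l3123 (T t80 (L l2367 (T t81 N))))))))) (K a128 (M a240 (F (T t79 (L l3102 (L l3123 (T t80 (L l192 (L l220 (L l2367 (T t81 N)))))))))) (K a85 (M a768 (F (T t28 (L l347 (L l2339 (L l2367 (T t29 (L l347 (L l2339 (L l2367 (T t30 N))))))))))) (K a149 (M a768 (F (T t31 (L l347 (L l2367 (T t29 (L l2367 (T t32 N)))))))) (K a213 (M a768 (F (T t31 (L l2367 (L l3203 (T t32 (L l982 (T t33 N)))))))) (K a106 (M a768 (F (T t35 (L l2367 (T t29 (L l2367 (T t32 N))))))) (K a170 (M a768 (F (T t31 (L l2367 (T t29 (L l220 (L l2367 (T t30 N)))))))) (K a234 (M a768 (F (T t31 (L l2367 (T t32 (L l390 (L l982 (L l3246 (T t33 N))))))))) (K a63 (M a768 (F (T t57 (L l2209 (L l2367 (T t29 (L l2367 (L l3073 (T t32 N))))))))) N)))))))))))))))⟩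
def e0_255__346_34 : Ent 5 := ⟨[a0, a255], [a346, a819], (M a192 (F (T t46 (L l2221 (T t19 (L l2221 (T t23 (L l2221 (T t22 (L l2221 (T t24 (K a64 (M a240 (F (T t84 (L l144 (L l2257 (L l3102 (L l3123 (T t80 (L l2367 (T t81 N)))))))))) (K a128 (M a240 (F (T t84 (L l2257 (L l3102 (L l3123 (T t80 (L l192 (L l220 (L l2367 (T t81 N))))))))))) (K a85 (M a768 (F (T t57 (L l347 (L l1597 (L l2339 (L l2367 (T t29 (L l347 (L l2339 (L l2367 (T t30 N)))))))))))) (K a149 (M a768 (F (T t69 (L l347 (L l1597 (L l2367 (T t29 (L l1999 (L l2367 (T t32 N)))))))))) (K a213 (M a768 (F (T t62 (L l1999 (L l2367 (L l3203 (T t32 (L l982 (T t33 N))))))))) (K a106 (M a768 (F (T t57 (L l1597 (L l2367 (T t29 (L l1999 (L l2367 (T t32 N))))))))) (K a170 (M a768 (F (T t69 (L l1597 (L l2367 (T t29 (L l220 (L l2367 (T t30 N))))))))) (K a234 (M a768 (F (T t57 (L l1999 (L l2367 (T t32 (L l390 (L l982 (L l3246 (T t33 N)))))))))) (K a63 (M a768 (L l2221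 (F (T t57 (L l1597 (L l2209 (L l2367 (T t29 (L l1999 (L l2367 (L l3073 (T t32 (K a567 (M a315 (F (T t62 (L l1999 (L l2367 (L l3073 (T t39 (L l982 (L l1597 (L l2209 (T t48 N))))))))))) (K a315 (M a567 (F (T t62 (L l1999 (L l2367 (L l3073 (T t39 (L l982 (L l1597 (L l2209 (T t48 N))))))))))) N)))))))))))))) N))))))))))))))))))))⟩
def e0_255__346_35 : Ent 5 := ⟨[a0, a255], [a346, a870], (M a192 (F (T t19 (T t23 (T t22 (T t24 (K a64 (M a240 (F (T t79 (L l144 (L l3102 (L l3123 (T t80 (L l2367 (T t81 N))))))))) (K a128 (M a240 (F (T t79 (L l3102 (L l3123 (T t80 (L l192 (L l220 (L l2367 (T t81 N)))))))))) (K a85 (M a768 (F (T t28 (L l347 (L l2339 (L l2367 (T t29 (L l347 (L l2339 (L l2367 (T t30 N))))))))))) (K a149 (M a768 (F (T t31 (L l347 (L l2367 (T t29 (L l2367 (T t32 N)))))))) (K a213 (M a768 (F (T t31 (L l2367 (L l3203 (T t32 (L l982 (L l1686 (T t33 N))))))))) (K a106 (M a768 (F (T t35 (L l2367 (T t29 (L l2367 (T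 t32 N))))))) (K a170 (M a768 (F (T t31 (L l2367 (T t29 (L l220 (L l2367 (T t30 N)))))))) (K a234 (M a768 (F (T t31 (L l2367 (T t32 (L l390 (L l982 (L l1686 (L l3246 (T t33 N)))))))))) (K a63 (M a768 (F (T t57 (L l2209 (L l2367 (T t29 (L l2367 (L l3073 (T t32 N))))))))) N)))))))))))))))⟩
def e0_255__346_36 : Ent 5 := ⟨[a0, a255], [a346, a882], (M a204 (L l2472 (F (T t158 (T t184 (T t190 (T t191 (K a68 (M a341 (L l2472 (F (T t448 (L l3102 (T t98 (T t323 (K a614 (M a78 (F (T t448 (L l126 (T t562 (L l1442 (L l1553 (L l3102 (T t98 N))))))))) (K a78 (M a614 (F (T t563 (L l1977 (T t564 (L l982 (T t326 N))))))) N))))))))) (K a136 (M a192 (L l2472 (F (T t192 (T t19 (L l316 (T t193 (K a614 (M a78 (F (T t187 (L l208 (L l3102 (T t540 N)))))) (K a78 (M a614 (F (T t565 (L l208 (T t23 N))))) N))))))))) (K a85 (M a614 (F (T t566 (L l365 (T t565 (L l365 (T t567 N))))))) (K a153 (M a614 (F (L l208 (T t566 (L l365 (T t565 (L l208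 (L l365 (T t567 N))))))))) (K a221 (M a768 (L l2472 (F (T t340 (L l2367 (L l3227 (T t32 (L l365 (L l2367 (L l3227 (T t341 (K a614 (M a78 (F (T t340 (L l3102 (T t540 N))))) (K a78 (M a614 (F (T t568 (L l3102 (T t569 N))))) N))))))))))))) (K a102 (M a614 (F (T t566 (T t565 (T t567 N))))) (K a170 (M a614 (F (T t565 (L l1977 (T t570 (L l208 (T t567 N))))))) (K a238 (M a426 (L l2472 (F (T t571 (L l2367 (T t572 (T t573 (K a614 (M a78 (F (T t574 (T t562 (L l1166 (L l1553 (L l2367 (T t572 N)))))))) (K a78 (M a614 (F (T t575 (L l2820 (T t566 (L l2367 (T t576 N))))))) N))))))))) (K a51 (M a614 (F (T t577 (L l1977 (L l2191 (T t570 (L l2265 (T t565 N)))))))) (K a614 (M a78 (F (T t184 (L l3102 (T t540 (K a85 (M a192 (F (L l3264 (T t192 (L l2454 (L l3102 (T t544 N))))))) (K a170 (M a192 (F (T t187 (L l462 (L l2454 (L l3102 (T t544 N))))))) N))))))) (K a78 (M a614 (F (T t566 (T t565 (T t184 N))))) N))))))))))))))))))⟩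
def e0_255__346_37 : Ent 5 := ⟨[a0, a255], [a346, a887], (M a192 (F (T t19 (T t23 (T t22 (T t24 (K a64 (M a240 (F (T t79 (L l144 (L l3102 (L l3123 (T t80 (L l2367 (T t81 N))))))))) (K a128 (M a240 (F (T t79 (L l3102 (L l3123 (T t80 (L l192 (L l220 (L l2367 (T t81 N)))))))))) (K a85 (M a768 (F (T t28 (L l347 (L l2339 (L l2367 (T t29 (L l347 (L l1673 (L l2339 (L l2367 (T t30 N)))))))))))) (K a149 (M a768 (F (T t31 (L l347 (L l2367 (T t29 (L l1999 (L l2367 (T t32 N))))))))) (K a213 (M a768 (F (T t31 (L l1999 (L l2367 (L l3203 (T t32 (L l982 (L l1686 (T t33 N)))))))))) (K a106 (M a768 (F (T t28 (L l2367 (T t29 (L l1999 (L l2367 (T t32 N)))))))) (K a170 (M a768 (F (T t31 (L l2367 (T t29 (L l220 (L l1673 (L l2367 (T t30 N))))))))) (K a234 (M a768 (F (T t31 (L l1999 (L l2367 (T t32 (L l390 (L l982 (L l1686 (L l3246 (T t33 N))))))))))) (K a63 (M a768 (F (T t57 (L l2209 (L l2367 (T t29 (L l1999 (L l2367 (L l3073 (T t32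 N)))))))))) N)))))))))))))))⟩
def e0_255__346_38 : Ent 5 := ⟨[a0, a255], [a346, a945], (M a192 (F (T t19 (T t23 (T t22 (T t24 (K a64 (M a240 (F (T t79 (L l144 (L l3102 (L l3123 (T t80 (L l2367 (T t81 N))))))))) (K a128 (M a240 (F (T t79 (L l3102 (L l3123 (T t80 (L l192 (L l220 (L l2367 (T t81 N)))))))))) (K a85 (M a768 (F (T t28 (L l347 (L l2339 (L l2367 (T t29 (L l347 (L l2339 (L l2367 (T t30 N))))))))))) (K a149 (M a768 (F (T t31 (L l347 (L l2367 (T t29 (L l2367 (T t32 N)))))))) (K a213 (M a768 (F (T t31 (L l2367 (L l3203 (T t32 (L l982 (T t33 N)))))))) (K a106 (M a768 (F (T t35 (L l2367 (T t29 (L l2367 (T t32 N))))))) (K a170 (M a768 (F (T t31 (L l2367 (T t29 (L l220 (L l2367 (T t30 N)))))))) (K a234 (M a768 (F (T t31 (L l2367 (T t32 (L l390 (L l982 (L l3246 (T t33 N))))))))) (K a63 (M a768 (F (T t57 (L l2209 (L l2367 (T t29 (L l2367 (L l3073 (T t32 N))))))))) N)))))))))))))))⟩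
def e0_255__346_39 : Ent 5 := ⟨[a0, a255], [a346, a955], (M a192 (F (T t19 (T t23 (T t22 (T t24 (K a64 (M a240 (F (T t79 (L l144 (L l3102 (L l3123 (T t80 (L l2367 (T t81 N))))))))) (K a128 (M a240 (F (T t79 (L l3102 (L l3123 (T t80 (L l192 (L l220 (L l2367 (T t81 N)))))))))) (K a85 (M a768 (F (T t28 (L l347 (L l2339 (L l2367 (T t29 (L l347 (L l2339 (L l2367 (T t30 N))))))))))) (K a149 (M a768 (F (T t31 (L l347 (L l2367 (T t29 (L l1999 (L l2367 (T t32 N))))))))) (K a213 (M a768 (F (T t31 (L l1999 (L l2367 (L l3203 (T t32 (L l982 (T t33 N))))))))) (K a106 (M a768 (F (T t35 (L l2367 (T t29 (L l1999 (L l2367 (T t32 N)))))))) (K a170 (M a768 (F (T t31 (L l2367 (T t29 (L l220 (L l2367 (T t30 N)))))))) (K a234 (M a768 (F (T t31 (L l1999 (L l2367 (T t32 (L l390 (L l982 (L l3246 (T t33 N)))))))))) (K a63 (M a768 (F (T t57 (L l2209 (L l2367 (T t29 (L l1999 (L l2367 (L l3073 (T t32 N)))))))))) N)))))))))))))))⟩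
def b0_255__346 : Blk 5 := ⟨[0, 255], [346], [17, 27, 34, 39, 51, 102, 114, 119, 177, 187, 273, 283, 290, 295, 307, 358, 370, 375, 433, 443, 529, 539, 546, 551, 563, 614, 626, 631, 689, 699, 785, 795, 802, 807, 819, 870, 882, 887, 945, 955], [e0_255__346_0, e0_255__346_1, e0_255__346_2, e0_255__346_3, e0_255__346_4, e0_255__346_5, e0_255__346_6, e0_255__346_7, e0_255__346_8, e0_255__346_9, e0_255__346_10, e0_255__346_11, e0_255__346_12, e0_255__346_13, e0_255__346_14, e0_255__346_15, e0_255__346_16, e0_255__346_17, e0_255__346_18, e0_255__346_19, e0_255__346_20, e0_255__346_21, e0_255__346_22, e0_255__346_23, e0_255__346_24, e0_255__346_25, e0_255__346_26, e0_255__346_27, e0_255__346_28, e0_255__346_29, e0_255__346_30, e0_255__346_31, e0_255__346_32, e0_255__346_33, e0_255__346_34, e0_255__346_35, e0_255__346_36, e0_255__346_37, e0_255__346_38, e0_255__346_39], by decide +kernel, by decide +kernel⟩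
def e0_255__351_0 : Ent 5 := ⟨[a0, a255], [a351, a17], (M a192 (F (T t24 (L l365 (T t19 (L l15 (T t23 (L l365 (T t22 (K a64 (M a240 (F (T t79 (L l144 (L l365 (L l3109 (T t80 (L l15 (L l2353 (T t81 N)))))))))) (K a128 (M a240 (F (T t79 (L l365 (L l3109 (T t80 (L l15 (L l192 (L l220 (L l2353 (T t81 N))))))))))) (K a85 (M a768 (L l365 (F (T t28 (L l347 (L l2339 (T t29 (L l347 (L l2339 (L l2461 (T t30 (K a153 (M a221 (F (T t35 (L l2117 (T t403 N))))) (K a221 (M a153 (F (T t35 (L l243 (L l347 (L l2339 (L l3227 (T t29 (L l144 (T t36 N)))))))))) N))))))))))))) (K a149 (M a768 (F (T t31 (L l347 (T t29 (L l989 (L l3109 (T t32 N)))))))) (K a213 (M a768 (F (T t31 (L l989 (L l3109 (L l3203 (T t32 (T t33 N)))))))) (K a106 (M a768 (F (T t28 (T t29 (L l989 (L l3109 (T t32 N))))))) (K a170 (M a768 (F (T t31 (T t29 (L l220 (L l2461 (T t30 N))))))) (K a234 (M a768 (F (T t31 (L l989 (L l3109 (T t32 (L l390 (L l3246 (T t33 N)))))))))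 (K a63 (M a768 (F (T t85 (L l3159 (T t35 (L l989 (L l3073 (L l3109 (T t32 N))))))))) N))))))))))))))))))⟩
def e0_255__351_1 : Ent 5 := ⟨[a0, a255], [a351, a27], (M a192 (F (T t19 (T t23 (T t22 (T t24 (K a64 (M a240 (F (T t79 (L l73 (L l144 (L l3109 (T t80 (L l2353 (T t81 N))))))))) (K a128 (M a240 (F (T t79 (L l73 (L l3109 (T t80 (L l192 (L l220 (L l2353 (T t81 N)))))))))) (K a85 (M a768 (F (T t28 (L l347 (L l2339 (T t29 (L l347 (L l2339 (L l2461 (T t30 N)))))))))) (K a149 (M a768 (F (T t31 (L l347 (T t29 (L l989 (L l3109 (T t32 N)))))))) (K a213 (M a768 (F (T t31 (L l989 (L l3109 (L l3203 (T t32 (T t33 N)))))))) (K a106 (M a768 (F (T t28 (T t29 (L l989 (L l3109 (T t32 N))))))) (K a170 (M a768 (F (T t31 (T t29 (L l220 (L l2461 (T t30 N))))))) (K a234 (M a768 (F (T t31 (L l989 (L l3109 (T t32 (L l390 (L l3246 (T t33 N))))))))) (K a63 (M a768 (F (T t83 (L l3159 (T t35 (L l2209 (T t29 N))))))) N)))))))))))))))⟩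
def e0_255__351_2 : Ent 5 := ⟨[a0, a255], [a351, a34], (M a192 (F (T t22 (L l26 (T t19 (L l402 (T t23 (L l402 (T t24 (K a64 (M a240 (F (T t79 (L l144 (L l3109 (T t80 (L l402 (L l2353 (T t81 N))))))))) (K a128 (M a240 (F (T t79 (L l3109 (T t80 (L l192 (L l220 (L l402 (L l2353 (T t81 N)))))))))) (K a85 (M a768 (F (T t28 (L l347 (L l2339 (T t29 (L l347 (L l2339 (L l2461 (T t30 N)))))))))) (K a149 (M a768 (F (T t31 (L l347 (T t29 (L l989 (L l3109 (T t32 N)))))))) (K a213 (M a768 (F (T t31 (L l989 (L l3109 (L l3203 (T t32 (L l402 (T t33 N))))))))) (K a106 (M a768 (F (T t28 (T t29 (L l989 (L l3109 (T t32 N))))))) (K a170 (M a768 (L l402 (F (T t31 (T t29 (L l220 (L l2461 (T t30 (K a102 (M a238 (F (T t31 (L l2154 (T t82 N))))) (K a238 (M a102 (F (T t35 (T t29 (L l2598 (L l3264 (T t36 N))))))) N)))))))))) (K a234 (M a768 (F (T t31 (L l989 (L l3109 (T t32 (L l390 (L l402 (L l3246 (T t33 N)))))))))) (K a63 (M a768 (F (T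 t37 (L l3159 (T t35 (L l2209 (T t29 N))))))) N))))))))))))))))))⟩
def e0_255__351_3 : Ent 5 := ⟨[a0, a255], [a351, a39], (M a192 (F (T t19 (T t23 (T t22 (T t24 (K a64 (M a240 (F (T t79 (L l73 (L l144 (L l3109 (T t80 (L l2353 (T t81 N))))))))) (K a128 (M a240 (F (T t79 (L l73 (L l3109 (T t80 (L l192 (L l220 (L l2353 (T t81 N)))))))))) (K a85 (M a768 (F (T t28 (L l347 (L l2339 (T t29 (L l347 (L l2339 (L l2461 (T t30 N)))))))))) (K a149 (M a768 (F (T t31 (L l347 (T t29 (L l989 (L l3109 (T t32 N)))))))) (K a213 (M a768 (F (T t31 (L l989 (L l3109 (L l3203 (T t32 (T t33 N)))))))) (K a106 (M a768 (F (T t28 (T t29 (L l989 (L l3109 (T t32 N))))))) (K a170 (M a768 (F (T t31 (T t29 (L l220 (L l2461 (T t30 N))))))) (K a234 (M a768 (F (T t31 (L l989 (L l3109 (T t32 (L l390 (L l3246 (T t33 N))))))))) (K a63 (M a768 (F (T t83 (L l3159 (T t35 (L l2209 (T t29 N))))))) N)))))))))))))))⟩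
def e0_255__351_4 : Ent 5 := ⟨[a0, a255], [a351, a51], (M a192 (F (T t46 (L l37 (T t19 (L l37 (T t23 (L l37 (T t22 (L l37 (T t24 (K a64 (M a240 (F (T t470 (L l511 (T t304 (L l2353 (T t81 N))))))) (K a128 (M a240 (F (T t406 (L l511 (T t304 (L l192 (L l220 (L l2353 (T t81 N))))))))) (K a85 (M a768 (F (T t85 (L l3129 (T t35 (L l347 (L l2339 (L l2461 (T t30 N))))))))) (K a149 (M a768 (F (T t85 (L l3129 (T t35 (L l989 (L l3079 (L l3109 (T t32 N))))))))) (K a213 (M a768 (F (T t83 (L l3129 (T t35 (T t33 N)))))) (K a106 (M a768 (F (T t42 (L l3129 (T t35 (L l989 (L l3079 (L l3109 (T t32 N))))))))) (K a170 (M a768 (F (T t42 (L l3129 (T t35 (L l220 (L l2461 (T t30 N)))))))) (K a234 (M a768 (F (T t37 (L l3129 (T t35 (L l390 (L l3246 (T t33 N)))))))) (K a63 (M a768 (L l37 (F (T t83 (L l3129 (L l3159 (T t35 (L l2209 (L l2215 (T t29 (K a55 (M a59 (F (T t37 (L l2209 (L l2215 (T t48 (L l3129 (L l3159 (T t86 N))))))))) (K a59 (M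 a55 (F (T t37 (L l2209 (L l2215 (T t48 (L l3129 (L l3159 (T t86 N))))))))) N)))))))))))) N))))))))))))))))))))⟩
def e0_255__351_5 : Ent 5 := ⟨[a0, a255], [a351, a102], (M a341 (F (T t3 (L l402 (T t0 (L l126 (L l989 (L l3109 (T t1 (L l402 (T t2 (K a256 (M a960 (F (T t471 (L l402 (L l657 (T t472 N)))))) (K a768 (M a64 (F (T t473 (L l402 (L l2295 (T t15 (L l402 (L l2036 (L l2461 (T t8 N)))))))))) (K a85 (M a960 (L l126 (F (L l3109 (T t474 (T t471 (L l657 (L l989 (T t475 (K a68 (M a119 (F (T t471 (T t476 N)))) (K a119 (M a68 (F (T t477 (L l657 (L l989 (T t475 N)))))) N))))))))))) (K a597 (M a64 (F (L l2461 (T t92 (L l402 (L l2511 (T t15 (L l102 (L l402 (L l657 (L l1184 (T t16 N)))))))))))) (K a853 (Fr a682 a1023 l3116 (Fr a170 a85 l476 (Fr a426 a938 l2598 (Fr a768 a597 l3375 (V t402))))) (K a170 (M a192 (L l402 (F (L l3109 (T t18 (L l989 (L l2598 (T t10 (L l220 (L l989 (L l2461 (T t11 (K a34 (M a238 (F (L l3109 (T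 t107 (L l378 (T t132 N)))))) (K a238 (M a34 (F (L l2820 (L l3109 (T t133 (L l220 (L l989 (L l2461 (T t11 N))))))))) N)))))))))))))) (K a426 (M a192 (F (L l126 (T t19 (L l740 (L l2461 (T t478 (L l989 (L l2598 (T t10 N)))))))))) (K a682 (M a64 (F (L l402 (L l2598 (L l2684 (T t15 (L l989 (L l2461 (L l2684 (T t20 (L l402 (L l2461 (L l2598 (T t8 (L l2461 (L l2684 (T t21 N))))))))))))))))) (K a1023 (M a64 (L l3109 (F (L l402 (T t73 (L l989 (L l1993 (L l2461 (T t20 (L l402 (L l1993 (L l2036 (L l2461 (T t8 (K a15 (M a687 (F (L l402 (T t73 (L l989 (L l1993 (L l2461 (T t20 (L l402 (L l1993 (L l2036 (L l2461 (T t8 N))))))))))))) (K a687 (M a15 (F (T t479 (L l102 (L l402 (L l2036 (T t480 N))))))) N)))))))))))))))) N))))))))))))))))))))⟩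
def e0_255__351_6 : Ent 5 := ⟨[a0, a255], [a351, a114], (M a192 (F (T t19 (T t23 (T t22 (T t24 (K a64 (M a240 (F (T t79 (L l144 (L l3109 (T t80 (L l2353 (T t81 N)))))))) (K a128 (M a240 (F (T t79 (L l3109 (T t80 (L l192 (L l220 (L l2353 (T t81 N))))))))) (K a85 (M a768 (F (T t28 (L l347 (L l2339 (T t29 (L l347 (L l2339 (L l2461 (T t30 N)))))))))) (K a149 (M a768 (F (T t31 (L l347 (T t29 (L l989 (L l3109 (T t32 N)))))))) (K a213 (M a768 (F (T t31 (L l989 (L l3109 (L l3203 (T t32 (T t33 N)))))))) (K a106 (M a768 (F (T t28 (T t29 (L l989 (L l3109 (T t32 N))))))) (K a170 (M a768 (F (T t31 (T t29 (L l220 (L l2461 (T t30 N))))))) (K a234 (M a768 (F (T t31 (L l989 (L l3109 (T t32 (L l390 (L l3246 (T t33 N))))))))) (K a63 (M a768 (F (T t83 (L l3159 (T t35 (L l2209 (T t29 N))))))) N)))))))))))))))⟩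
def e0_255__351_7 : Ent 5 := ⟨[a0, a255], [a351, a119], (M a192 (F (T t23 (L l126 (T t19 (L l126 (T t22 (L l113 (T t24 (K a64 (M a240 (F (T t79 (L l126 (L l144 (L l3109 (T t80 (L l2353 (T t81 N))))))))) (K a128 (M a240 (F (T t79 (L l126 (L l3109 (T t80 (L l192 (L l220 (L l2353 (T t81 N)))))))))) (K a85 (M a768 (L l126 (F (T t28 (L l347 (L l2339 (L l2487 (T t29 (L l347 (L l2339 (L l2461 (L l2487 (T t30 (K a68 (M a102 (F (T t35 (L l347 (L l2339 (L l2487 (T t29 (L l80 (L l144 (T t36 N)))))))))) (K a102 (M a68 (F (T t35 (L l365 (L l2339 (L l2487 (T t134 N))))))) N))))))))))))))) (K a149 (M a768 (F (T t31 (L l347 (L l2487 (T t29 (L l989 (L l2487 (L l3109 (T t32 N)))))))))) (K a213 (M a768 (F (T t31 (L l989 (L l2487 (L l3109 (L l3203 (T t32 (T t33 N))))))))) (K a106 (M a768 (F (T t28 (L l2487 (T t29 (L l989 (L l2487 (L l3109 (T t32 N))))))))) (K a170 (M a768 (F (T t31 (L l2487 (T t29 (L l220 (L l2461 (L l2487 (T t30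 N))))))))) (K a234 (M a768 (F (T t31 (L l989 (L l2487 (L l3109 (T t32 (L l390 (L l3246 (T t33 N)))))))))) (K a63 (M a768 (F (T t57 (L l2209 (L l2487 (T t29 (L l989 (L l2487 (L l3073 (L l3109 (T t32 N))))))))))) N))))))))))))))))))⟩
def e0_255__351_8 : Ent 5 := ⟨[a0, a255], [a351, a177], (M a192 (F (T t19 (T t23 (T t22 (T t24 (K a64 (M a240 (F (T t79 (L l144 (L l3109 (T t80 (L l2353 (T t81 N)))))))) (K a128 (M a240 (F (T t79 (L l3109 (T t80 (L l192 (L l220 (L l2353 (T t81 N))))))))) (K a85 (M a768 (F (T t28 (L l347 (L l2339 (T t29 (L l347 (L l2339 (L l2461 (T t30 N)))))))))) (K a149 (M a768 (F (T t31 (L l347 (T t29 (L l989 (L l3109 (T t32 N)))))))) (K a213 (M a768 (F (T t31 (L l989 (L l3109 (L l3203 (T t32 (T t33 N)))))))) (K a106 (M a768 (F (T t28 (T t29 (L l989 (L l3109 (T t32 N))))))) (K a170 (M a768 (F (T t31 (T t29 (L l220 (L l2461 (T t30 N))))))) (K a234 (M a768 (F (T t31 (L l989 (L l3109 (T t32 (L l390 (L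 l3246 (T t33 N))))))))) (K a63 (M a768 (F (T t83 (L l3159 (T t35 (L l2209 (T t29 N))))))) N)))))))))))))))⟩
def e0_255__351_9 : Ent 5 := ⟨[a0, a255], [a351, a187], (M a192 (F (T t19 (L l208 (T t23 (L l189 (T t22 (L l208 (T t24 (K a64 (M a240 (F (T t79 (L l144 (L l3109 (T t80 (L l208 (L l2353 (T t81 N))))))))) (K a128 (M a240 (F (T t79 (L l3109 (T t80 (L l192 (L l208 (L l220 (L l2353 (T t81 N)))))))))) (K a85 (M a768 (F (T t28 (L l347 (L l2339 (T t29 (L l347 (L l2339 (L l2461 (T t30 N)))))))))) (K a149 (M a768 (F (T t31 (L l347 (T t29 (L l989 (L l3109 (T t32 N)))))))) (K a213 (M a768 (F (T t31 (L l989 (L l3109 (L l3203 (T t32 (L l208 (L l2709 (T t33 N)))))))))) (K a106 (M a768 (F (T t28 (T t29 (L l989 (L l3109 (T t32 N))))))) (K a170 (M a768 (L l208 (F (T t31 (T t29 (L l220 (L l2461 (T t30 (K a136 (M a153 (F (T t35 (T t29 (L l2598 (L l2709 (T t36 N))))))) (K a153 (M a136 (F (T t35 (L l2598 (L l2709 (T t180 N))))))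 N)))))))))) (K a234 (M a768 (F (T t31 (L l989 (L l3109 (T t32 (L l208 (L l390 (L l2709 (L l3246 (T t33 N))))))))))) (K a63 (M a768 (F (T t37 (L l3159 (T t35 (L l2209 (T t29 N))))))) N))))))))))))))))))⟩
def e0_255__351_10 : Ent 5 := ⟨[a0, a255], [a351, a273], (M a192 (F (T t19 (T t23 (T t22 (T t24 (K a64 (M a240 (F (T t79 (L l144 (L l3109 (T t80 (L l2353 (T t81 N)))))))) (K a128 (M a240 (F (T t79 (L l3109 (T t80 (L l192 (L l220 (L l2353 (T t81 N))))))))) (K a85 (M a768 (F (T t86 (L l347 (L l2339 (T t29 (L l347 (L l2339 (L l2461 (T t30 N)))))))))) (K a149 (M a768 (F (T t31 (L l347 (T t29 (L l989 (L l3109 (T t32 N)))))))) (K a213 (M a768 (F (T t31 (L l989 (L l3109 (L l3203 (T t32 (T t33 N)))))))) (K a106 (M a768 (F (T t86 (T t29 (L l989 (L l3109 (T t32 N))))))) (K a170 (M a768 (F (T t31 (T t29 (L l220 (L l2461 (T t30 N))))))) (K a234 (M a768 (F (T t31 (L l989 (L l3109 (T t32 (L l390 (L l3246 (T t33 N))))))))) (K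 a63 (M a768 (F (T t37 (L l3159 (T t35 (L l2209 (T t29 N))))))) N)))))))))))))))⟩
def e0_255__351_11 : Ent 5 := ⟨[a0, a255], [a351, a283], (M a192 (F (T t19 (T t23 (T t22 (T t24 (K a64 (M a240 (F (T t79 (L l144 (L l2257 (L l3109 (T t80 (L l2353 (T t81 N))))))))) (K a128 (M a240 (F (T t79 (L l2257 (L l3109 (T t80 (L l192 (L l220 (L l2353 (T t81 N)))))))))) (K a85 (M a768 (F (T t28 (L l347 (L l2339 (T t29 (L l347 (L l2339 (L l2461 (T t30 N)))))))))) (K a149 (M a768 (F (T t31 (L l347 (T t29 (L l989 (L l3109 (T t32 N)))))))) (K a213 (M a768 (F (T t31 (L l989 (L l3109 (L l3203 (T t32 (T t33 N)))))))) (K a106 (M a768 (F (T t28 (T t29 (L l989 (L l3109 (T t32 N))))))) (K a170 (M a768 (F (T t31 (T t29 (L l220 (L l2461 (T t30 N))))))) (K a234 (M a768 (F (T t31 (L l989 (L l3109 (T t32 (L l390 (L l3246 (T t33 N))))))))) (K a63 (M a768 (F (T t83 (L l3159 (T t35 (L l2209 (T t29 N))))))) N)))))))))))))))⟩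
def e0_255__351_12 : Ent 5 := ⟨[a0, a255], [a351, a290], (M a192 (F (T t19 (T t23 (T t22 (T t24 (K a64 (M a240 (F (T t79 (L l144 (L l3109 (T t80 (L l2353 (T t81 N)))))))) (K a128 (M a240 (F (T t79 (L l3109 (T t80 (L l192 (L l220 (L l2353 (T t81 N))))))))) (K a85 (M a768 (F (T t86 (L l347 (L l2339 (T t29 (L l347 (L l2339 (L l2461 (T t30 N)))))))))) (K a149 (M a768 (F (T t31 (L l347 (T t29 (L l989 (L l3109 (T t32 N)))))))) (K a213 (M a768 (F (T t31 (L l989 (L l3109 (L l3203 (T t32 (L l922 (T t33 N))))))))) (K a106 (M a768 (F (T t86 (T t29 (L l989 (L l3109 (T t32 N))))))) (K a170 (M a768 (F (T t31 (T t29 (L l220 (L l2461 (T t30 N))))))) (K a234 (M a768 (F (T t31 (L l989 (L l3109 (T t32 (L l390 (L l922 (L l3246 (T t33 N)))))))))) (K a63 (M a768 (F (T t37 (L l3159 (T t35 (L l2209 (T t29 N))))))) N)))))))))))))))⟩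
def e0_255__351_13 : Ent 5 := ⟨[a0, a255], [a351, a295], (M a192 (F (T t19 (T t23 (T t22 (T t24 (K a64 (M a240 (F (T t79 (L l144 (L l3109 (T t80 (L l2353 (T t81 N)))))))) (K a128 (M a240 (F (T t79 (L l3109 (T t80 (L l192 (L l220 (L l2353 (T t81 N))))))))) (K a85 (M a768 (F (T t28 (L l347 (L l2339 (T t29 (L l347 (L l2339 (L l2461 (T t30 N)))))))))) (K a149 (M a768 (F (T t31 (L l347 (T t29 (L l989 (L l3109 (T t32 N)))))))) (K a213 (M a768 (F (T t31 (L l989 (L l3109 (L l3203 (T t32 (T t33 N)))))))) (K a106 (M a768 (F (T t28 (T t29 (L l989 (L l3109 (T t32 N))))))) (K a170 (M a768 (F (T t31 (T t29 (L l220 (L l2461 (T t30 N))))))) (K a234 (M a768 (F (T t31 (L l989 (L l3109 (T t32 (L l390 (L l3246 (T t33 N))))))))) (K a63 (M a768 (F (T t83 (L l3159 (T t35 (L l2209 (T t29 N))))))) N)))))))))))))))⟩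
def e0_255__351_14 : Ent 5 := ⟨[a0, a255], [a351, a307], (M a192 (F (T t19 (T t23 (T t22 (T t24 (K a64 (M a240 (F (T t79 (L l144 (L l3109 (T t80 (L l2353 (T t81 N)))))))) (K a128 (M a240 (F (T t79 (L l3109 (T t80 (L l192 (L l220 (L l2353 (T t81 N))))))))) (K a85 (M a768 (F (T t86 (L l347 (L l2339 (T t29 (L l347 (L l2339 (L l2461 (T t30 N)))))))))) (K a149 (M a768 (F (T t31 (L l347 (T t29 (L l959 (L l989 (L l3109 (T t32 N))))))))) (K a213 (M a768 (F (T t31 (L l959 (L l989 (L l3109 (L l3203 (T t32 (T t33 N))))))))) (K a106 (M a768 (F (T t86 (T t29 (L l959 (L l989 (L l3109 (T t32 N)))))))) (K a170 (M a768 (F (T t31 (T t29 (L l220 (L l2461 (T t30 N))))))) (K a234 (M a768 (F (T t31 (L l959 (L l989 (L l3109 (T t32 (L l390 (L l3246 (T t33 N)))))))))) (K a63 (M a768 (F (T t37 (L l1009 (L l3159 (T t35 (L l2209 (T t29 N)))))))) N)))))))))))))))⟩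
def e0_255__351_15 : Ent 5 := ⟨[a0, a255], [a351, a358], (M a192 (F (T t19 (T t23 (T t22 (T t24 (K a64 (M a240 (F (T t79 (L l144 (L l3109 (T t80 (L l2353 (T t81 N)))))))) (K a128 (M a240 (F (T t79 (L l3109 (T t80 (L l192 (L l220 (L l2353 (T t81 N))))))))) (K a85 (M a768 (F (T t28 (L l347 (L l2339 (L l2487 (T t29 (L l347 (L l2339 (L l2461 (L l2487 (T t30 N)))))))))))) (K a149 (M a768 (F (T t31 (L l347 (L l2487 (T t29 (L l989 (L l2487 (L l3109 (T t32 N)))))))))) (K a213 (M a768 (F (T t31 (L l989 (L l2487 (L l3109 (L l3203 (T t32 (L l922 (T t33 N)))))))))) (K a106 (M a768 (F (T t28 (L l2487 (T t29 (L l989 (L l2487 (L l3109 (T t32 N))))))))) (K a170 (M a768 (F (T t31 (L l2487 (T t29 (L l220 (L l2461 (L l2487 (T t30 N))))))))) (K a234 (M a768 (F (T t31 (L l989 (L l2487 (L l3109 (T t32 (L l390 (L l922 (L l3246 (T t33 N))))))))))) (K a63 (M a768 (F (T t57 (L l2209 (L l2487 (T t29 (L l989 (L l2487 (L l3073 (L l3109 (T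 t32 N))))))))))) N)))))))))))))))⟩
def e0_255__351_16 : Ent 5 := ⟨[a0, a255], [a351, a370], (M a192 (F (T t19 (T t23 (T t22 (T t24 (K a64 (M a240 (F (T t79 (L l144 (L l3109 (T t80 (L l2353 (T t81 N)))))))) (K a128 (M a240 (F (T t79 (L l3109 (T t80 (L l192 (L l220 (L l2353 (T t81 N))))))))) (K a85 (M a768 (F (T t28 (L l347 (L l2339 (T t29 (L l347 (L l2339 (L l2461 (T t30 N)))))))))) (K a149 (M a768 (F (T t31 (L l347 (T t29 (L l989 (L l3109 (T t32 N)))))))) (K a213 (M a768 (F (T t31 (L l989 (L l3109 (L l3203 (T t32 (T t33 N)))))))) (K a106 (M a768 (F (T t28 (T t29 (L l989 (L l3109 (T t32 N))))))) (K a170 (M a768 (F (T t31 (T t29 (L l220 (L l2461 (T t30 N))))))) (K a234 (M a768 (F (T t31 (L l989 (L l3109 (T t32 (L l390 (L l3246 (T t33 N))))))))) (K a63 (M a768 (F (T t83 (L l3159 (T t35 (L l2209 (T t29 N))))))) N)))))))))))))))⟩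
def e0_255__351_17 : Ent 5 := ⟨[a0, a255], [a351, a375], (M a192 (F (T t19 (T t23 (T t22 (T t24 (K a64 (M a240 (F (T t79 (L l144 (L l3109 (T t80 (L l2353 (T t81 N)))))))) (K a128 (M a240 (F (T t79 (L l3109 (T t80 (L l192 (L l220 (L l2353 (T t81 N))))))))) (K a85 (M a768 (F (T t28 (L l347 (L l2339 (T t29 (L l347 (L l2339 (L l2431 (L l2461 (T t30 N))))))))))) (K a149 (M a768 (F (T t31 (L l347 (T t29 (L l959 (L l989 (L l3079 (L l3109 (T t32 N)))))))))) (K a213 (M a768 (F (T t31 (L l959 (L l989 (L l3079 (L l3109 (L l3203 (T t32 (T t33 N)))))))))) (K a106 (M a768 (F (T t28 (T t29 (L l959 (L l989 (L l3079 (L l3109 (T t32 N))))))))) (K a170 (M a768 (F (T t31 (T t29 (L l220 (L l2431 (L l2461 (T t30 N)))))))) (K a234 (M a768 (F (T t31 (L l959 (L l989 (L l3079 (L l3109 (T t32 (L l390 (L l3246 (T t33 N))))))))))) (K a63 (M a768 (F (T t83 (L l3159 (T t35 (L l2209 (T t29 N))))))) N)))))))))))))))⟩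
def e0_255__351_18 : Ent 5 := ⟨[a0, a255], [a351, a433], (M a192 (F (T t19 (T t23 (T t22 (T t24 (K a64 (M a240 (F (T t79 (L l144 (L l3109 (T t80 (L l2353 (T t81 N)))))))) (K a128 (M a240 (F (T t79 (L l3109 (T t80 (L l192 (L l220 (L l2353 (T t81 N))))))))) (K a85 (M a768 (F (T t28 (L l347 (L l2339 (T t29 (L l347 (L l2339 (L l2461 (T t30 N)))))))))) (K a149 (M a768 (F (T t31 (L l347 (T t29 (L l989 (L l3109 (T t32 N)))))))) (K a213 (M a768 (F (T t31 (L l989 (L l3109 (L l3203 (T t32 (T t33 N)))))))) (K a106 (M a768 (F (T t28 (T t29 (L l989 (L l3109 (T t32 N))))))) (K a170 (M a768 (F (T t31 (T t29 (L l220 (L l2461 (T t30 N))))))) (K a234 (M a768 (F (T t31 (L l989 (L l3109 (T t32 (L l390 (L l3246 (T t33 N))))))))) (K a63 (M a768 (F (T t83 (L l3159 (T t35 (L l2209 (T t29 N))))))) N)))))))))))))))⟩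
def e0_255__351_19 : Ent 5 := ⟨[a0, a255], [a351, a443], (M a192 (F (T t19 (T t23 (L l2653 (T t22 (T t24 (K a64 (M a240 (F (T t79 (L l144 (L l3109 (T t80 (L l2353 (T t81 N)))))))) (K a128 (M a240 (F (T t79 (L l3109 (T t80 (L l192 (L l220 (L l2353 (T t81 N))))))))) (K a85 (M a768 (F (T t28 (L l347 (L l2339 (T t29 (L l347 (L l2339 (L l2461 (T t30 N)))))))))) (K a149 (M a768 (F (T t31 (L l347 (T t29 (L l959 (L l989 (L l3109 (T t32 N))))))))) (K a213 (M a768 (F (T t31 (L l959 (L l989 (L l3109 (L l3203 (T t32 (L l728 (T t33 N)))))))))) (K a106 (M a768 (F (T t28 (T t29 (L l959 (L l989 (L l3109 (T t32 N)))))))) (K a170 (M a768 (F (T t31 (T t29 (L l220 (L l2461 (T t30 N))))))) (K a234 (M a768 (F (T t31 (L l959 (L l989 (L l3109 (T t32 (L l390 (L l728 (L l3246 (T t33 N))))))))))) (K a63 (M a768 (F (T t37 (L l3159 (T t35 (L l2209 (T t29 N))))))) N))))))))))))))))⟩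
def e0_255__351_20 : Ent 5 := ⟨[a0, a255], [a351, a529], (M a192 (F (T t19 (T t23 (T t22 (T t24 (K a64 (M a240 (F (T t79 (L l144 (L l3109 (T t80 (L l2353 (T t81 N)))))))) (K a128 (M a240 (F (T t79 (L l3109 (T t80 (L l192 (L l220 (L l2353 (T t81 N))))))))) (K a85 (M a768 (F (T t28 (L l347 (L l1405 (L l2339 (T t29 (L l347 (L l1405 (L l2339 (L l2461 (T t30 N)))))))))))) (K a149 (M a768 (F (T t31 (L l347 (L l1405 (T t29 (L l989 (L l1084 (L l1405 (L l3109 (T t32 N))))))))))) (K a213 (M a768 (F (T t31 (L l989 (L l1084 (L l1405 (L l3109 (L l3203 (T t32 (T t33 N)))))))))) (K a106 (M a768 (F (T t28 (L l1405 (T t29 (L l989 (L l1084 (L l1405 (L l3109 (T t32 N)))))))))) (K a170 (M a768 (F (T t31 (L l1405 (T t29 (L l220 (L l1405 (L l2461 (T t30 N))))))))) (K a234 (M a768 (F (T t31 (L l989 (L l1084 (L l1405 (L l3109 (T t32 (L l390 (L l3246 (T t33 N))))))))))) (K a63 (M a768 (F (T t83 (L l1084 (L l3159 (T t35 (L l1405 (L l2209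 (T t29 N))))))))) N)))))))))))))))⟩
def e0_255__351_21 : Ent 5 := ⟨[a0, a255], [a351, a539], (M a192 (F (T t19 (T t23 (T t22 (T t24 (K a64 (M a240 (F (T t79 (L l144 (L l3109 (T t80 (L l2353 (T t81 N)))))))) (K a128 (M a240 (F (T t79 (L l3109 (T t80 (L l192 (L l220 (L l2353 (T t81 N))))))))) (K a85 (M a768 (F (T t28 (L l347 (L l2339 (T t29 (L l347 (L l2339 (L l2461 (T t30 N)))))))))) (K a149 (M a768 (F (T t31 (L l347 (T t29 (L l989 (L l3109 (T t32 N)))))))) (K a213 (M a768 (F (T t31 (L l989 (L l3109 (L l3203 (T t32 (T t33 N)))))))) (K a106 (M a768 (F (T t28 (T t29 (L l989 (L l3109 (T t32 N))))))) (K a170 (M a768 (F (T t31 (T t29 (L l220 (L l2461 (T t30 N))))))) (K a234 (M a768 (F (T t31 (L l989 (L l3109 (T t32 (L l390 (L l3246 (T t33 N))))))))) (K a63 (M a768 (F (T t83 (L l3159 (T t35 (L l2209 (T t29 N))))))) N)))))))))))))))⟩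
def e0_255__351_22 : Ent 5 := ⟨[a0, a255], [a351, a546], (M a192 (F (T t19 (T t23 (T t22 (T t24 (K a64 (M a240 (F (T t79 (L l144 (L l3109 (T t80 (L l2353 (T t81 N)))))))) (K a128 (M a240 (F (T t79 (L l3109 (T t80 (L l192 (L l220 (L l2353 (T t81 N))))))))) (K a85 (M a768 (F (T t28 (L l347 (L l2339 (T t29 (L l347 (L l2339 (L l2461 (T t30 N)))))))))) (K a149 (M a768 (F (T t31 (L l347 (T t29 (L l989 (L l1084 (L l3109 (T t32 N))))))))) (K a213 (M a768 (F (T t31 (L l989 (L l1084 (L l3109 (L l3203 (T t32 (T t33 N))))))))) (K a106 (M a768 (F (T t28 (T t29 (L l989 (L l1084 (L l3109 (T t32 N)))))))) (K a170 (M a768 (F (T t31 (T t29 (L l220 (L l2461 (T t30 N))))))) (K a234 (M a768 (F (T t31 (L l989 (L l1084 (L l3109 (T t32 (L l390 (L l3246 (T t33 N)))))))))) (K a63 (M a768 (F (T t83 (L l1084 (L l3159 (T t35 (L l2209 (T t29 N)))))))) N)))))))))))))))⟩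
def e0_255__351_23 : Ent 5 := ⟨[a0, a255], [a351, a551], (M a192 (F (T t19 (T t23 (T t22 (T t24 (K a64 (M a240 (F (T t79 (L l144 (L l2257 (L l3109 (T t80 (L l2353 (T t81 N))))))))) (K a128 (M a240 (F (T t79 (L l2257 (L l3109 (T t80 (L l192 (L l220 (L l2353 (T t81 N)))))))))) (K a85 (M a768 (F (T t28 (L l347 (L l2339 (T t29 (L l347 (L l2339 (L l2461 (T t30 N)))))))))) (K a149 (M a768 (F (T t31 (L l347 (T t29 (L l989 (L l3109 (T t32 N)))))))) (K a213 (M a768 (F (T t31 (L l989 (L l3109 (L l3203 (T t32 (T t33 N)))))))) (K a106 (M a768 (F (T t28 (T t29 (L l989 (L l3109 (T t32 N))))))) (K a170 (M a768 (F (T t31 (T t29 (L l220 (L l2461 (T t30 N))))))) (K a234 (M a768 (F (T t31 (L l989 (L l3109 (T t32 (L l390 (L l3246 (T t33 N))))))))) (K a63 (M a768 (F (T t83 (L l3159 (T t35 (L l2209 (T t29 N))))))) N)))))))))))))))⟩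
def e0_255__351_24 : Ent 5 := ⟨[a0, a255], [a351, a563], (M a192 (F (T t19 (T t23 (T t22 (T t24 (K a64 (M a240 (F (T t79 (L l144 (L l3109 (T t80 (L l2353 (T t81 N)))))))) (K a128 (M a240 (F (T t79 (L l3109 (T t80 (L l192 (L l220 (L l2353 (T t81 N))))))))) (K a85 (M a768 (F (T t86 (L l347 (L l2339 (T t29 (L l347 (L l2339 (L l2461 (T t30 N)))))))))) (K a149 (M a768 (F (T t31 (L l347 (T t29 (L l989 (L l1084 (L l3109 (T t32 N))))))))) (K a213 (M a768 (F (T t31 (L l989 (L l1084 (L l3109 (L l3203 (T t32 (T t33 N))))))))) (K a106 (M a768 (F (T t86 (T t29 (L l989 (L l1084 (L l3109 (T t32 N)))))))) (K a170 (M a768 (F (T t31 (T t29 (L l220 (L l2461 (T t30 N))))))) (K a234 (M a768 (F (T t31 (L l989 (L l1084 (L l3109 (T t32 (L l390 (L l3246 (T t33 N)))))))))) (K a63 (M a768 (F (T t83 (L l1084 (L l3159 (T t35 (L l2209 (T t29 N)))))))) N)))))))))))))))⟩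
def e0_255__351_25 : Ent 5 := ⟨[a0, a255], [a351, a614], (M a192 (F (T t19 (T t23 (T t22 (T t24 (K a64 (M a240 (F (T t79 (L l144 (L l3109 (T t80 (L l2353 (T t81 N)))))))) (K a128 (M a240 (F (T t79 (L l3109 (T t80 (L l192 (L l220 (L l2353 (T t81 N))))))))) (K a85 (M a768 (F (T t28 (L l347 (L l1166 (L l2339 (T t29 (L l347 (L l1166 (L l2339 (L l2461 (T t30 N)))))))))))) (K a149 (M a768 (F (T t31 (L l347 (L l1166 (T t29 (L l989 (L l1166 (L l3109 (T t32 N)))))))))) (K a213 (M a768 (F (T t31 (L l989 (L l1166 (L l3109 (L l3203 (T t32 (L l3264 (T t33 N)))))))))) (K a106 (M a768 (F (T t28 (L l1166 (T t29 (L l989 (L l1166 (L l3109 (T t32 N))))))))) (K a170 (M a768 (F (T t31 (L l1166 (T t29 (L l220 (L l1166 (L l2461 (T t30 N))))))))) (K a234 (M a768 (F (T t31 (L l989 (L l1166 (L l3109 (T t32 (L l390 (L l3246 (L l3264 (T t33 N))))))))))) (K a63 (M a768 (F (T t57 (L l1166 (L l2209 (T t29 (L l989 (L l1166 (L l3073 (L l3109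 (T t32 N))))))))))) N)))))))))))))))⟩
def e0_255__351_26 : Ent 5 := ⟨[a0, a255], [a351, a626], (M a192 (F (T t19 (T t23 (T t22 (T t24 (K a64 (M a240 (F (T t79 (L l144 (L l3109 (T t80 (L l2353 (T t81 N)))))))) (K a128 (M a240 (F (T t79 (L l3109 (T t80 (L l192 (L l220 (L l2353 (T t81 N))))))))) (K a85 (M a768 (F (T t28 (L l347 (L l2339 (T t29 (L l347 (L l2339 (L l2461 (T t30 N)))))))))) (K a149 (M a768 (F (T t31 (L l347 (T t29 (L l989 (L l3109 (T t32 N)))))))) (K a213 (M a768 (F (T t31 (L l989 (L l3109 (L l3203 (T t32 (T t33 N)))))))) (K a106 (M a768 (F (T t28 (T t29 (L l989 (L l3109 (T t32 N))))))) (K a170 (M a768 (F (T t31 (T t29 (L l220 (L l2461 (T t30 N))))))) (K a234 (M a768 (F (T t31 (L l989 (L l3109 (T t32 (L l390 (L l3246 (T t33 N))))))))) (K a63 (M a768 (F (T t83 (L l3159 (T t35 (L l2209 (T t29 N))))))) N)))))))))))))))⟩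
def e0_255__351_27 : Ent 5 := ⟨[a0, a255], [a351, a631], (M a192 (F (T t19 (T t23 (T t22 (L l2437 (T t24 (K a64 (M a240 (F (T t79 (L l144 (L l3109 (T t80 (L l2353 (T t81 N)))))))) (K a128 (M a240 (F (T t79 (L l3109 (T t80 (L l192 (L l220 (L l2353 (T t81 N))))))))) (K a85 (M a768 (F (T t28 (L l347 (L l1166 (L l2339 (T t29 (L l347 (L l1166 (L l2339 (L l2461 (T t30 N)))))))))))) (K a149 (M a768 (F (T t31 (L l347 (L l1166 (T t29 (L l989 (L l1166 (L l3109 (T t32 N)))))))))) (K a213 (M a768 (F (T t31 (L l989 (L l1166 (L l3109 (L l3203 (T t32 (L l1153 (T t33 N)))))))))) (K a106 (M a768 (F (T t35 (L l1166 (T t29 (L l989 (L l1166 (L l3109 (T t32 N))))))))) (K a170 (M a768 (F (T t31 (L l1166 (T t29 (L l220 (L l1166 (L l2461 (T t30 N))))))))) (K a234 (M a768 (F (T t31 (L l989 (L l1166 (L l3109 (T t32 (L l390 (L l1153 (L l3246 (T t33 N))))))))))) (K a63 (M a768 (F (T t83 (L l3159 (T t35 (L l1166 (L l2209 (T t29 N))))))))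 N))))))))))))))))⟩
def e0_255__351_28 : Ent 5 := ⟨[a0, a255], [a351, a689], (M a192 (F (T t19 (T t23 (T t22 (T t24 (K a64 (M a240 (F (T t79 (L l144 (L l3109 (T t80 (L l2353 (T t81 N)))))))) (K a128 (M a240 (F (T t79 (L l3109 (T t80 (L l192 (L l220 (L l2353 (T t81 N))))))))) (K a85 (M a768 (F (T t28 (L l347 (L l2339 (T t29 (L l347 (L l2339 (L l2461 (T t30 N)))))))))) (K a149 (M a768 (F (T t31 (L l347 (T t29 (L l989 (L l3109 (T t32 N)))))))) (K a213 (M a768 (F (T t31 (L l989 (L l3109 (L l3203 (T t32 (T t33 N)))))))) (K a106 (M a768 (F (T t28 (T t29 (L l989 (L l3109 (T t32 N))))))) (K a170 (M a768 (F (T t31 (T t29 (L l220 (L l2461 (T t30 N))))))) (K a234 (M a768 (F (T t31 (L l989 (L l3109 (T t32 (L l390 (L l3246 (T t33 N))))))))) (K a63 (M a768 (F (T t83 (L l3159 (T t35 (L l2209 (T t29 N))))))) N)))))))))))))))⟩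
def e0_255__351_29 : Ent 5 := ⟨[a0, a255], [a351, a699], (M a192 (F (T t19 (T t23 (T t22 (T t24 (K a64 (M a240 (F (T t79 (L l144 (L l3109 (T t80 (L l2353 (T t81 N)))))))) (K a128 (M a240 (F (T t79 (L l3109 (T t80 (L l192 (L l220 (L l2353 (T t81 N))))))))) (K a85 (M a768 (F (T t28 (L l347 (L l2339 (T t29 (L l347 (L l2339 (L l2461 (T t30 N)))))))))) (K a149 (M a768 (F (T t31 (L l347 (T t29 (L l989 (L l3079 (L l3109 (T t32 N))))))))) (K a213 (M a768 (F (T t31 (L l989 (L l3079 (L l3109 (L l3203 (T t32 (T t33 N))))))))) (K a106 (M a768 (F (T t28 (T t29 (L l989 (L l3079 (L l3109 (T t32 N)))))))) (K a170 (M a768 (F (T t31 (T t29 (L l220 (L l2461 (T t30 N))))))) (K a234 (M a768 (F (T t31 (L l989 (L l3079 (L l3109 (T t32 (L l390 (L l3246 (T t33 N)))))))))) (K a63 (M a768 (F (T t83 (L l3159 (T t35 (L l2209 (T t29 N))))))) N)))))))))))))))⟩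
def e0_255__351_30 : Ent 5 := ⟨[a0, a255], [a351, a785], (M a192 (F (T t19 (T t23 (T t22 (T t24 (K a64 (M a240 (F (T t79 (L l144 (L l3109 (T t80 (L l2353 (T t81 N)))))))) (K a128 (M a240 (F (T t79 (L l3109 (T t80 (L l192 (L l220 (L l2353 (T t81 N))))))))) (K a85 (M a768 (F (T t28 (L l347 (L l2339 (L l3227 (T t29 (L l347 (L l2339 (L l2461 (L l3227 (T t30 N)))))))))))) (K a149 (M a768 (F (T t31 (L l347 (L l3227 (T t29 (L l989 (L l3109 (L l3227 (T t32 N)))))))))) (K a213 (M a768 (F (T t31 (L l989 (L l3109 (L l3203 (L l3227 (T t32 (L l1925 (T t33 N)))))))))) (K a106 (M a768 (F (T t35 (L l3227 (T t29 (L l989 (L l3109 (L l3227 (T t32 N))))))))) (K a170 (M a768 (F (T t31 (L l3227 (T t29 (L l220 (L l2461 (L l3227 (T t30 N))))))))) (K a234 (M a768 (F (T t31 (L l989 (L l3109 (L l3227 (T t32 (L l390 (L l1925 (L l3246 (T t33 N))))))))))) (K a63 (M a768 (F (T t74 (L l3159 (T t35 (L l2209 (L l3227 (T t29 N)))))))) N)))))))))))))))⟩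
def e0_255__351_31 : Ent 5 := ⟨[a0, a255], [a351, a795], (M a192 (F (T t19 (T t23 (T t22 (T t24 (K a64 (M a240 (F (T t79 (L l144 (L l3109 (T t80 (L l2353 (T t81 N)))))))) (K a128 (M a240 (F (T t79 (L l3109 (T t80 (L l192 (L l220 (L l2353 (T t81 N))))))))) (K a85 (M a768 (F (T t28 (L l347 (L l2339 (T t29 (L l347 (L l2339 (L l2461 (T t30 N)))))))))) (K a149 (M a768 (F (T t31 (L l347 (T t29 (L l989 (L l3109 (T t32 N)))))))) (K a213 (M a768 (F (T t31 (L l989 (L l3109 (L l3203 (T t32 (T t33 N)))))))) (K a106 (M a768 (F (T t28 (T t29 (L l989 (L l3109 (T t32 N))))))) (K a170 (M a768 (F (T t31 (T t29 (L l220 (L l2461 (T t30 N))))))) (K a234 (M a768 (F (T t31 (L l989 (L l3109 (T t32 (L l390 (L l3246 (T t33 N))))))))) (K a63 (M a768 (F (T t83 (L l3159 (T t35 (L l2209 (T t29 N))))))) N)))))))))))))))⟩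
def e0_255__351_32 : Ent 5 := ⟨[a0, a255], [a351, a802], (M a192 (F (T t19 (T t23 (T t22 (T t24 (K a64 (M a240 (F (T t79 (L l144 (L l3109 (T t80 (L l2353 (T t81 N)))))))) (K a128 (M a240 (F (T t79 (L l3109 (T t80 (L l192 (L l220 (L l2353 (T t81 N))))))))) (K a85 (M a768 (F (T t28 (L l347 (L l1586 (L l2339 (T t29 (L l347 (L l1586 (L l2339 (L l2461 (T t30 N)))))))))))) (K a149 (M a768 (F (T t31 (L l347 (L l1586 (T t29 (L l989 (L l3109 (T t32 N))))))))) (K a213 (M a768 (F (T t31 (L l989 (L l3109 (L l3203 (T t32 (L l3264 (T t33 N))))))))) (K a106 (M a768 (F (T t28 (L l1586 (T t29 (L l989 (L l3109 (T t32 N)))))))) (K a170 (M a768 (F (T t31 (L l1586 (T t29 (L l220 (L l1586 (L l2461 (T t30 N))))))))) (K a234 (M a768 (F (T t31 (L l989 (L l3109 (T t32 (L l390 (L l3246 (L l3264 (T t33 N)))))))))) (K a63 (M a768 (F (T t43 (L l3159 (T t35 (L l989 (L l3073 (L l3109 (T t32 N))))))))) N)))))))))))))))⟩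
def e0_255__351_33 : Ent 5 := ⟨[a0, a255], [a351, a807], (M a192 (F (T t19 (T t23 (T t22 (T t24 (K a64 (M a240 (F (T t79 (L l144 (L l3109 (T t80 (L l2353 (T t81 N)))))))) (K a128 (M a240 (F (T t79 (L l3109 (T t80 (L l192 (L l220 (L l2353 (T t81 N))))))))) (K a85 (M a768 (F (T t28 (L l347 (L l2339 (T t29 (L l347 (L l2339 (L l2461 (T t30 N)))))))))) (K a149 (M a768 (F (T t31 (L l347 (T t29 (L l989 (L l3109 (T t32 N)))))))) (K a213 (M a768 (F (T t31 (L l989 (L l3109 (L l3203 (T t32 (T t33 N)))))))) (K a106 (M a768 (F (T t28 (T t29 (L l989 (L l3109 (T t32 N))))))) (K a170 (M a768 (F (T t31 (T t29 (L l220 (L l2461 (T t30 N))))))) (K a234 (M a768 (F (T t31 (L l989 (L l3109 (T t32 (L l390 (L l3246 (T t33 N))))))))) (K a63 (M a768 (F (T t83 (L l3159 (T t35 (L l2209 (T t29 N))))))) N)))))))))))))))⟩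
def e0_255__351_34 : Ent 5 := ⟨[a0, a255], [a351, a819], (M a192 (F (T t46 (L l2221 (T t19 (L l2221 (T t23 (L l2221 (T t22 (L l2221 (T t24 (K a64 (M a240 (F (T t470 (L l3337 (T t304 (L l2353 (T t81 N))))))) (K a128 (M a240 (F (T t406 (L l3337 (T t304 (L l192 (L l220 (L l2353 (T t81 N))))))))) (K a85 (M a768 (F (T t85 (L l2049 (T t35 (L l347 (L l2339 (L l2461 (T t30 N))))))))) (K a149 (M a768 (F (T t85 (L l2049 (T t35 (L l989 (L l1999 (L l3109 (T t32 N))))))))) (K a213 (M a768 (F (T t83 (L l2049 (T t35 (T t33 N)))))) (K a106 (M a768 (F (T t42 (L l2049 (T t35 (L l989 (L l1999 (L l3109 (T t32 N))))))))) (K a170 (M a768 (F (T t42 (L l2049 (T t35 (L l220 (L l2461 (T t30 N)))))))) (K a234 (M a768 (F (T t37 (L l2049 (T t35 (L l390 (L l3246 (T t33 N)))))))) (K a63 (M a768 (L l2221 (F (T t83 (L l2049 (L l3159 (T t35 (L l1597 (L l2209 (T t29 (K a567 (M a315 (F (T t37 (L l1597 (L l2209 (T t48 (L l2049 (L l3159 (T t86 N)))))))))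 (K a315 (M a567 (F (T t37 (L l1597 (L l2209 (T t48 (L l2049 (L l3159 (T t86 N))))))))) N)))))))))))) N))))))))))))))))))))⟩
def e0_255__351_35 : Ent 5 := ⟨[a0, a255], [a351, a870], (M a192 (F (T t19 (T t23 (T t22 (T t24 (K a64 (M a240 (F (T t79 (L l144 (L l3109 (T t80 (L l2353 (T t81 N)))))))) (K a128 (M a240 (F (T t79 (L l3109 (T t80 (L l192 (L l220 (L l2353 (T t81 N))))))))) (K a85 (M a768 (F (T t28 (L l347 (L l2339 (T t29 (L l347 (L l2339 (L l2461 (T t30 N)))))))))) (K a149 (M a768 (F (T t31 (L l347 (T t29 (L l989 (L l3109 (T t32 N)))))))) (K a213 (M a768 (F (T t31 (L l989 (L l3109 (L l3203 (T t32 (L l1686 (T t33 N))))))))) (K a106 (M a768 (F (T t28 (T t29 (L l989 (L l3109 (T t32 N))))))) (K a170 (M a768 (F (T t31 (T t29 (L l220 (L l2461 (T t30 N))))))) (K a234 (M a768 (F (T t31 (L l989 (L l3109 (T t32 (L l390 (L l1686 (L l3246 (T t33 N)))))))))) (K a63 (M a768 (F (T t49 (L l3159 (T t35 (L l989 (L l3073 (L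 l3109 (T t32 N))))))))) N)))))))))))))))⟩
def e0_255__351_36 : Ent 5 := ⟨[a0, a255], [a351, a882], (M a192 (F (T t19 (T t23 (T t22 (T t24 (K a64 (M a240 (F (T t79 (L l144 (L l3109 (T t80 (L l2353 (T t81 N)))))))) (K a128 (M a240 (F (T t79 (L l3109 (T t80 (L l192 (L l220 (L l2353 (T t81 N))))))))) (K a85 (M a768 (F (T t28 (L l347 (L l2339 (T t29 (L l347 (L l2339 (L l2461 (T t30 N)))))))))) (K a149 (M a768 (F (T t31 (L l347 (T t29 (L l989 (L l3109 (T t32 N)))))))) (K a213 (M a768 (F (T t31 (L l989 (L l3109 (L l3203 (T t32 (T t33 N)))))))) (K a106 (M a768 (F (T t28 (T t29 (L l989 (L l3109 (T t32 N))))))) (K a170 (M a768 (F (T t31 (T t29 (L l220 (L l2461 (T t30 N))))))) (K a234 (M a768 (F (T t31 (L l989 (L l3109 (T t32 (L l390 (L l3246 (T t33 N))))))))) (K a63 (M a768 (F (T t83 (L l3159 (T t35 (L l2209 (T t29 N))))))) N)))))))))))))))⟩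
def e0_255__351_37 : Ent 5 := ⟨[a0, a255], [a351, a887], (M a192 (F (T t19 (T t23 (T t22 (T t24 (K a64 (M a240 (F (T t79 (L l144 (L l3109 (T t80 (L l2353 (T t81 N)))))))) (K a128 (M a240 (F (T t79 (L l3109 (T t80 (L l192 (L l220 (L l2353 (T t81 N))))))))) (K a85 (M a768 (F (T t28 (L l347 (L l2339 (T t29 (L l347 (L l1673 (L l2339 (L l2461 (T t30 N))))))))))) (K a149 (M a768 (F (T t31 (L l347 (T t29 (L l989 (L l1999 (L l3109 (T t32 N))))))))) (K a213 (M a768 (F (T t31 (L l989 (L l1999 (L l3109 (L l3203 (T t32 (L l1686 (T t33 N)))))))))) (K a106 (M a768 (F (T t28 (T t29 (L l989 (L l1999 (L l3109 (T t32 N)))))))) (K a170 (M a768 (F (T t31 (T t29 (L l220 (L l1673 (L l2461 (T t30 N)))))))) (K a234 (M a768 (F (T t31 (L l989 (L l1999 (L l3109 (T t32 (L l390 (L l1686 (L l3246 (T t33 N))))))))))) (K a63 (M a768 (F (T t37 (L l3159 (T t35 (L l2209 (T t29 N))))))) N)))))))))))))))⟩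
def e0_255__351_38 : Ent 5 := ⟨[a0, a255], [a351, a945], (M a192 (F (T t19 (T t23 (T t22 (T t24 (K a64 (M a240 (F (T t79 (L l144 (L l3109 (T t80 (L l2353 (T t81 N)))))))) (K a128 (M a240 (F (T t79 (L l3109 (T t80 (L l192 (L l220 (L l2353 (T t81 N))))))))) (K a85 (M a768 (F (T t28 (L l347 (L l2339 (T t29 (L l347 (L l2339 (L l2461 (T t30 N)))))))))) (K a149 (M a768 (F (T t31 (L l347 (T t29 (L l989 (L l3109 (T t32 N)))))))) (K a213 (M a768 (F (T t31 (L l989 (L l3109 (L l3203 (T t32 (T t33 N)))))))) (K a106 (M a768 (F (T t28 (T t29 (L l989 (L l3109 (T t32 N))))))) (K a170 (M a768 (F (T t31 (T t29 (L l220 (L l2461 (T t30 N))))))) (K a234 (M a768 (F (T t31 (L l989 (L l3109 (T t32 (L l390 (L l3246 (T t33 N))))))))) (K a63 (M a768 (F (T t83 (L l3159 (T t35 (L l2209 (T t29 N))))))) N)))))))))))))))⟩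
def e0_255__351_39 : Ent 5 := ⟨[a0, a255], [a351, a955], (M a192 (F (T t19 (T t23 (T t22 (T t24 (K a64 (M a240 (F (T t79 (L l144 (L l3109 (T t80 (L l2353 (T t81 N)))))))) (K a128 (M a240 (F (T t79 (L l3109 (T t80 (L l192 (L l220 (L l2353 (T t81 N))))))))) (K a85 (M a768 (F (T t28 (L l347 (L l2339 (T t29 (L l347 (L l2339 (L l2461 (T t30 N)))))))))) (K a149 (M a768 (F (T t31 (L l347 (T t29 (L l989 (L l1999 (L l3109 (T t32 N))))))))) (K a213 (M a768 (F (T t31 (L l989 (L l1999 (L l3109 (L l3203 (T t32 (T t33 N))))))))) (K a106 (M a768 (F (T t35 (T t29 (L l989 (L l1999 (L l3109 (T t32 N)))))))) (K a170 (M a768 (F (T t31 (T t29 (L l220 (L l2461 (T t30 N))))))) (K a234 (M a768 (F (T t31 (L l989 (L l1999 (L l3109 (T t32 (L l390 (L l3246 (T t33 N)))))))))) (K a63 (M a768 (F (T t83 (L l3159 (T t35 (L l2209 (T t29 N))))))) N)))))))))))))))⟩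
def b0_255__351 : Blk 5 := ⟨[0, 255], [351], [17, 27, 34, 39, 51, 102, 114, 119, 177, 187, 273, 283, 290, 295, 307, 358, 370, 375, 433, 443, 529, 539, 546, 551, 563, 614, 626, 631, 689, 699, 785, 795, 802, 807, 819, 870, 882, 887, 945, 955], [e0_255__351_0, e0_255__351_1, e0_255__351_2, e0_255__351_3, e0_255__351_4, e0_255__351_5, e0_255__351_6, e0_255__351_7, e0_255__351_8, e0_255__351_9, e0_255__351_10, e0_255__351_11, e0_255__351_12, e0_255__351_13, e0_255__351_14, e0_255__351_15, e0_255__351_16, e0_255__351_17, e0_255__351_18, e0_255__351_19, e0_255__351_20, e0_255__351_21, e0_255__351_22, e0_255__351_23, e0_255__351_24, e0_255__351_25, e0_255__351_26, e0_255__351_27, e0_255__351_28, e0_255__351_29, e0_255__351_30, e0_255__351_31, e0_255__351_32, e0_255__351_33, e0_255__351_34, e0_255__351_35, e0_255__351_36, e0_255__351_37, e0_255__351_38, e0_255__351_39], by decide +kernel, by decide +kernel⟩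

end Pool.Agent.Lib_TTT.K5
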