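import Pool.Agent.Lib_TTT.K5Base
import Pool.Agent.Lib_TTT.K5T00
import Pool.Agent.Lib_TTT.K5T01

/-! Certificates in `4^5`. -/

set_option autoImplicit false
set_option maxRecDepth 200000

namespace Pool.Agent.Lib_TTT.K5

open Lib_TTT AC DC

def e0_255__431_0 : Ent 5 := ⟨[a0, a255], [a431, a17], (M a192 (F (T t24 (L l365 (T t19 (L l15 (T t23 (L l365 (L l2713 (T t22 (K a64 (M a240 (F (T t79 (L l144 (L l365 (T t80 (L l15 (T t81 N)))))))) (K a128 (M a240 (F (T t79 (L l365 (T t80 (L l15 (L l192 (L l220 (T t81 N))))))))) (K a85 (M a768 (L l365 (F (T t28 (L l347 (L l2339 (T t29 (L l347 (L l2339 (T t30 (K a153 (M a221 (F (T t28 (L l700 (L l2117 (T t403 N)))))) (K a221 (M a153 (F (T t35 (L l243 (L l347 (L l2339 (L l3227 (T t29 (L l144 (L l700 (T t36 N))))))))))) N)))))))))))) (K a149 (M a768 (F (T t31 (L l347 (T t29 (L l989 (T t32 N))))))) (K a213 (M a768 (F (T t31 (L l989 (L l3203 (T t32 (L l700 (T t33 N)))))))) (K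 a106 (M a768 (F (T t28 (T t29 (L l989 (T t32 N)))))) (K a170 (M a768 (F (T t31 (T t29 (L l220 (T t30 N)))))) (K a234 (M a768 (F (T t31 (L l989 (T t32 (L l390 (L l700 (L l3246 (T t33 N))))))))) (K a63 (M a768 (F (T t42 (L l3159 (T t35 (L l989 (L l3073 (T t32 N)))))))) N)))))))))))))))))))⟩
def e0_255__431_1 : Ent 5 := ⟨[a0, a255], [a431, a27], (M a192 (F (T t19 (T t23 (L l2713 (T t22 (T t24 (K a64 (M a240 (F (T t79 (L l73 (L l144 (T t80 (T t81 N))))))) (K a128 (M a240 (F (T t79 (L l73 (T t80 (L l192 (L l220 (T t81 N)))))))) (K a85 (M a768 (F (T t28 (L l347 (L l2339 (T t29 (L l347 (L l2339 (T t30 N))))))))) (K a149 (M a768 (F (T t31 (L l347 (T t29 (L l989 (T t32 N))))))) (K a213 (M a768 (F (T t31 (L l989 (L l3203 (T t32 (L l700 (T t33 N)))))))) (K a106 (M a768 (F (T t28 (T t29 (L l989 (T t32 N)))))) (K a170 (M a768 (F (T t31 (T t29 (L l220 (T t30 N)))))) (K a234 (M a768 (F (T t31 (L l989 (T t32 (L l390 (L l700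 (L l3246 (T t33 N))))))))) (K a63 (M a768 (F (T t37 (L l3159 (T t35 (L l2209 (T t29 N))))))) N))))))))))))))))⟩
def e0_255__431_2 : Ent 5 := ⟨[a0, a255], [a431, a34], (M a192 (F (L l26 (T t19 (L l402 (T t23 (L l2713 (T t22 (L l402 (T t24 (K a64 (M a240 (F (T t79 (L l144 (T t80 (L l402 (T t81 N))))))) (K a128 (M a240 (F (T t79 (T t80 (L l192 (L l220 (L l402 (T t81 N)))))))) (K a85 (M a768 (F (T t28 (L l347 (L l2339 (T t29 (L l347 (L l2339 (T t30 N))))))))) (K a149 (M a768 (F (T t31 (L l347 (T t29 (L l989 (T t32 N))))))) (K a213 (M a768 (F (T t31 (L l989 (L l3203 (T t32 (L l402 (L l700 (T t33 N))))))))) (K a106 (M a768 (F (T t28 (T t29 (L l989 (T t32 N)))))) (K a170 (M a768 (L l402 (F (T t31 (T t29 (L l220 (T t30 (K a102 (M a238 (F (T t31 (L l2154 (T t82 N))))) (K a238 (M a102 (F (T t35 (T t29 (L l700 (L l2598 (L l3264 (T t36 N)))))))) N))))))))) (K a234 (M a768 (F (T t31 (L l989 (T t32 (L l390 (L l402 (L l700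 (L l3246 (T t33 N)))))))))) (K a63 (M a768 (F (T t37 (L l3159 (T t35 (L l2209 (T t29 N))))))) N)))))))))))))))))))⟩
def e0_255__431_3 : Ent 5 := ⟨[a0, a255], [a431, a39], (M a192 (F (T t19 (T t23 (L l2713 (T t22 (T t24 (K a64 (M a240 (F (T t79 (L l73 (L l144 (T t80 (T t81 N))))))) (K a128 (M a240 (F (T t79 (L l73 (T t80 (L l192 (L l220 (T t81 N)))))))) (K a85 (M a768 (F (T t28 (L l347 (L l2339 (T t29 (L l347 (L l2339 (T t30 N))))))))) (K a149 (M a768 (F (T t31 (L l347 (T t29 (L l989 (T t32 N))))))) (K a213 (M a768 (F (T t31 (L l989 (L l3203 (T t32 (L l700 (T t33 N)))))))) (K a106 (M a768 (F (T t28 (T t29 (L l989 (T t32 N)))))) (K a170 (M a768 (F (T t31 (T t29 (L l220 (T t30 N)))))) (K a234 (M a768 (F (T t31 (L l989 (T t32 (L l390 (L l700 (L l3246 (T t33 N))))))))) (K a63 (M a768 (F (T t37 (L l3159 (T t35 (L l2209 (T t29 N))))))) N))))))))))))))))⟩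
def e0_255__431_4 : Ent 5 := ⟨[a0, a255], [a431, a51], (M a192 (F (T t46 (L l37 (T t19 (L l37 (T t23 (L l37 (L l2713 (T t22 (L l37 (T t24 (K a64 (M a240 (F (T t84 (L l73 (L l144 (T t80 (T t81 N))))))) (K a128 (M a240 (F (T t84 (L l73 (T t80 (L l192 (L l220 (T t81 N)))))))) (K a85 (M a768 (F (T t401 (L l347 (L l2215 (L l2339 (T t29 (L l347 (L l2339 (T t30 N)))))))))) (K a149 (M a768 (F (T t69 (L l347 (L l2215 (T t29 (L l989 (L l3079 (T t32 N))))))))) (K a213 (M a768 (F (T t62 (L l989 (L l3079 (L l3203 (T t32 (L l700 (T t33 N))))))))) (K a106 (M a768 (F (T t42 (L l3129 (T t35 (L l989 (L l3079 (T t32 N)))))))) (K a170 (M a768 (F (T t42 (L l3129 (T t35 (L l220 (T t30 N))))))) (K a234 (M a768 (F (T t37 (L l3129 (T t35 (L l390 (L l700 (L l3246 (T t33 N))))))))) (K a63 (M a768 (L l37 (F (T t37 (L l3129 (L l3159 (T t35 (L l2209 (L l2215 (T t29 (K a55 (M a59 (F (T t37 (L l700 (L l2209 (L l2215 (T t48 (L l3129 (L l3159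 (T t86 N)))))))))) (K a59 (M a55 (F (T t37 (L l700 (L l2209 (L l2215 (T t48 (L l3129 (L l3159 (T t86 N)))))))))) N)))))))))))) N)))))))))))))))))))))⟩
def e0_255__431_5 : Ent 5 := ⟨[a0, a255], [a431, a102], (M a341 (F (T t3 (L l402 (T t0 (L l126 (L l989 (T t1 (L l402 (L l700 (T t2 (K a256 (M a64 (F (T t130 (L l402 (T t15 (L l402 (L l824 (T t8 N)))))))) (K a768 (M a64 (F (T t7 (L l402 (L l2295 (T t15 (L l402 (L l2036 (T t8 N))))))))) (K a85 (M a48 (L l126 (F (T t87 (L l989 (T t88 (L l123 (L l989 (T t89 (K a68 (M a119 (F (T t90 (L l122 (T t91 N))))) (K a119 (M a68 (F (T t87 (L l365 (L l989 (L l2413 (T t131 N))))))) N))))))))))) (K a597 (M a64 (F (T t92 (L l402 (L l2511 (T t15 (L l102 (L l402 (L l733 (L l1184 (T t16 N))))))))))) (K a853 (Fr a682 a1023 l3116 (Fr a170 a85 l476 (Fr a426 a938 l2598 (Fr a768 a597 l3375 (V t402))))) (K a170 (M a192 (L l402 (F (T t18 (L l989 (L l2598 (T t10 (L l220 (L l989 (T t11 (K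 a34 (M a238 (F (T t107 (L l378 (T t132 N))))) (K a238 (M a34 (F (L l2820 (T t133 (L l220 (L l989 (T t11 N))))))) N)))))))))))) (K a426 (M a192 (L l700 (F (T t9 (L l126 (T t19 (L l989 (L l2598 (T t10 (K a416 (M a421 (F (L l3340 (T t481 (L l126 (T t19 N)))))) (K a421 (M a416 (F (T t482 (L l126 (T t19 (L l989 (L l2598 (L l2612 (T t10 N))))))))) N))))))))))) (K a682 (M a64 (F (L l2684 (T t21 (L l402 (L l2598 (T t8 (L l402 (L l2598 (L l2684 (T t15 (L l989 (L l2684 (T t20 N)))))))))))))) (K a1023 (M a64 (F (L l402 (T t73 (L l989 (L l1993 (T t20 (L l402 (L l1993 (L l2036 (T t8 N))))))))))) N))))))))))))))))))))⟩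
def e0_255__431_6 : Ent 5 := ⟨[a0, a255], [a431, a114], (M a192 (F (T t19 (T t23 (L l2713 (T t22 (T t24 (K a64 (M a240 (F (T t79 (L l144 (T t80 (T t81 N)))))) (K a128 (M a240 (F (T t79 (T t80 (L l192 (L l220 (T t81 N))))))) (K a85 (M a768 (F (T t28 (L l347 (L l2339 (T t29 (L l347 (L l2339 (T t30 N))))))))) (K a149 (M a768 (F (T t31 (L l347 (T t29 (L l989 (T t32 N))))))) (K a213 (M a768 (F (T t31 (L l989 (L l3203 (T t32 (L l700 (T t33 N)))))))) (K a106 (M a768 (F (T t28 (T t29 (L l989 (T t32 N)))))) (K a170 (M a768 (F (T t31 (T t29 (L l220 (T t30 N)))))) (K a234 (M a768 (F (T t31 (L l989 (T t32 (L l390 (L l700 (L l3246 (T t33 N))))))))) (K a63 (M a768 (F (T t37 (L l3159 (T t35 (L l2209 (T t29 N))))))) N))))))))))))))))⟩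
def e0_255__431_7 : Ent 5 := ⟨[a0, a255], [a431, a119], (M a192 (F (T t23 (L l126 (T t19 (L l126 (L l2713 (T t22 (L l113 (T t24 (K a64 (M a240 (F (T t79 (L l126 (L l144 (T t80 (T t81 N))))))) (K a128 (M a240 (F (T t79 (L l126 (T t80 (L l192 (L l220 (T t81 N)))))))) (K a85 (M a768 (L l126 (F (T t28 (L l347 (L l2339 (L l2487 (T t29 (L l347 (L l2339 (L l2487 (T t30 (K a68 (M a102 (F (T t35 (L l347 (L l2339 (L l2487 (T t29 (L l80 (L l144 (L l700 (T t36 N))))))))))) (K a102 (M a68 (F (T t35 (L l365 (L l2339 (L l2487 (T t134 N))))))) N)))))))))))))) (K a149 (M a768 (F (T t31 (L l347 (L l2487 (T t29 (L l989 (L l2487 (T t32 N))))))))) (K a213 (M a768 (F (T t31 (L l989 (L l2487 (L l3203 (T t32 (L l700 (T t33 N))))))))) (K a106 (M a768 (F (T t28 (L l2487 (T t29 (L l989 (L l2487 (T t32 N)))))))) (K a170 (M a768 (F (T t31 (L l2487 (T t29 (L l220 (L l2487 (T t30 N)))))))) (K a234 (M a768 (F (T t31 (L l989 (L l2487 (T t32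 (L l390 (L l700 (L l3246 (T t33 N)))))))))) (K a63 (M a768 (F (T t57 (L l2209 (L l2487 (T t29 (L l989 (L l2487 (L l3073 (T t32 N)))))))))) N)))))))))))))))))))⟩
def e0_255__431_8 : Ent 5 := ⟨[a0, a255], [a431, a177], (M a192 (F (T t19 (T t23 (L l2713 (T t22 (T t24 (K a64 (M a240 (F (T t79 (L l144 (T t80 (T t81 N)))))) (K a128 (M a240 (F (T t79 (T t80 (L l192 (L l220 (T t81 N))))))) (K a85 (M a768 (F (T t28 (L l347 (L l2339 (T t29 (L l347 (L l2339 (T t30 N))))))))) (K a149 (M a768 (F (T t31 (L l347 (T t29 (L l989 (T t32 N))))))) (K a213 (M a768 (F (T t31 (L l989 (L l3203 (T t32 (L l700 (T t33 N)))))))) (K a106 (M a768 (F (T t28 (T t29 (L l989 (T t32 N)))))) (K a170 (M a768 (F (T t31 (T t29 (L l220 (T t30 N)))))) (K a234 (M a768 (F (T t31 (L l989 (T t32 (L l390 (L l700 (L l3246 (T t33 N))))))))) (K a63 (M a768 (F (T t37 (L l3159 (T t35 (L l2209 (T t29 N))))))) N))))))))))))))))⟩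
def e0_255__431_9 : Ent 5 := ⟨[a0, a255], [a431, a187], (M a192 (F (T t19 (L l208 (T t23 (L l189 (L l2713 (T t22 (L l208 (T t24 (K a64 (M a240 (F (T t79 (L l144 (T t80 (L l208 (T t81 N))))))) (K a128 (M a240 (F (T t79 (T t80 (L l192 (L l208 (L l220 (T t81 N)))))))) (K a85 (M a768 (F (T t28 (L l347 (L l2339 (T t29 (L l347 (L l2339 (T t30 N))))))))) (K a149 (M a768 (F (T t31 (L l347 (T t29 (L l989 (T t32 N))))))) (K a213 (M a768 (F (T t31 (L l989 (L l3203 (T t32 (L l208 (L l700 (L l2709 (T t33 N)))))))))) (K a106 (M a768 (F (T t28 (T t29 (L l989 (T t32 N)))))) (K a170 (M a768 (L l208 (F (T t31 (T t29 (L l220 (T t30 (K a136 (M a153 (F (T t35 (T t29 (L l700 (L l2598 (L l2709 (T t36 N)))))))) (K a153 (M a136 (F (T t35 (L l700 (L l2598 (L l2709 (T t180 N))))))) N))))))))) (K a234 (M a768 (F (T t31 (L l989 (T t32 (L l208 (L l390 (L l700 (L l2709 (L l3246 (T t33 N))))))))))) (K a63 (M a768 (F (T t37 (L l3159 (T t35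 (L l2209 (T t29 N))))))) N)))))))))))))))))))⟩
def e0_255__431_10 : Ent 5 := ⟨[a0, a255], [a431, a273], (M a192 (F (T t19 (T t23 (L l2713 (T t22 (T t24 (K a64 (M a240 (F (T t79 (L l144 (T t80 (T t81 N)))))) (K a128 (M a240 (F (T t79 (T t80 (L l192 (L l220 (T t81 N))))))) (K a85 (M a768 (F (T t86 (L l347 (L l2339 (T t29 (L l347 (L l2339 (T t30 N))))))))) (K a149 (M a768 (F (T t31 (L l347 (T t29 (L l989 (T t32 N))))))) (K a213 (M a768 (F (T t31 (L l989 (L l3203 (T t32 (L l700 (T t33 N)))))))) (K a106 (M a768 (F (T t86 (T t29 (L l989 (T t32 N)))))) (K a170 (M a768 (F (T t31 (T t29 (L l220 (T t30 N)))))) (K a234 (M a768 (F (T t31 (L l989 (T t32 (L l390 (L l700 (L l3246 (T t33 N))))))))) (K a63 (M a768 (F (T t37 (L l3159 (T t35 (L l2209 (T t29 N))))))) N))))))))))))))))⟩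
def e0_255__431_11 : Ent 5 := ⟨[a0, a255], [a431, a283], (M a192 (F (T t19 (T t23 (L l2713 (T t22 (T t24 (K a64 (M a240 (F (T t79 (L l144 (L l2257 (T t80 (T t81 N))))))) (K a128 (M a240 (F (T t79 (L l2257 (T t80 (L l192 (L l220 (T t81 N)))))))) (K a85 (M a768 (F (T t28 (L l347 (L l2339 (T t29 (L l347 (L l2339 (T t30 N))))))))) (K a149 (M a768 (F (T t31 (L l347 (T t29 (L l989 (T t32 N))))))) (K a213 (M a768 (F (T t31 (L l989 (L l3203 (T t32 (L l700 (T t33 N)))))))) (K a106 (M a768 (F (T t28 (T t29 (L l989 (T t32 N)))))) (K a170 (M a768 (F (T t31 (T t29 (L l220 (T t30 N)))))) (K a234 (M a768 (F (T t31 (L l989 (T t32 (L l390 (L l700 (L l3246 (T t33 N))))))))) (K a63 (M a768 (F (T t37 (L l3159 (T t35 (L l2209 (T t29 N))))))) N))))))))))))))))⟩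
def e0_255__431_12 : Ent 5 := ⟨[a0, a255], [a431, a290], (M a192 (F (T t19 (T t23 (L l2713 (T t22 (T t24 (K a64 (M a240 (F (T t79 (L l144 (T t80 (T t81 N)))))) (K a128 (M a240 (F (T t79 (T t80 (L l192 (L l220 (T t81 N))))))) (K a85 (M a768 (F (T t86 (L l347 (L l2339 (T t29 (L l347 (L l2339 (T t30 N))))))))) (K a149 (M a768 (F (T t31 (L l347 (T t29 (L l989 (T t32 N))))))) (K a213 (M a768 (F (T t31 (L l989 (L l3203 (T t32 (L l700 (L l922 (T t33 N))))))))) (K a106 (M a768 (F (T t86 (T t29 (L l989 (T t32 N)))))) (K a170 (M a768 (F (T t31 (T t29 (L l220 (T t30 N)))))) (K a234 (M a768 (F (T t31 (L l989 (T t32 (L l390 (L l700 (L l922 (L l3246 (T t33 N)))))))))) (K a63 (M a768 (F (T t37 (L l3159 (T t35 (L l2209 (T t29 N))))))) N))))))))))))))))⟩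
def e0_255__431_13 : Ent 5 := ⟨[a0, a255], [a431, a295], (M a192 (F (T t19 (T t23 (L l2713 (T t22 (T t24 (K a64 (M a240 (F (T t79 (L l144 (T t80 (T t81 N)))))) (K a128 (M a240 (F (T t79 (T t80 (L l192 (L l220 (T t81 N))))))) (K a85 (M a768 (F (T t28 (L l347 (L l2339 (T t29 (L l347 (L l2339 (T t30 N))))))))) (K a149 (M a768 (F (T t31 (L l347 (T t29 (L l989 (T t32 N))))))) (K a213 (M a768 (F (T t31 (L l989 (L l3203 (T t32 (L l700 (T t33 N)))))))) (K a106 (M a768 (F (T t28 (T t29 (L l989 (T t32 N)))))) (K a170 (M a768 (F (T t31 (T t29 (L l220 (T t30 N)))))) (K a234 (M a768 (F (T t31 (L l989 (T t32 (L l390 (L l700 (L l3246 (T t33 N))))))))) (K a63 (M a768 (F (T t37 (L l3159 (T t35 (L l2209 (T t29 N))))))) N))))))))))))))))⟩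
def e0_255__431_14 : Ent 5 := ⟨[a0, a255], [a431, a307], (M a192 (F (T t19 (T t23 (L l2713 (T t22 (T t24 (K a64 (M a240 (F (T t79 (L l144 (T t80 (T t81 N)))))) (K a128 (M a240 (F (T t79 (T t80 (L l192 (L l220 (T t81 N))))))) (K a85 (M a768 (F (T t86 (L l347 (L l2339 (T t29 (L l347 (L l2339 (T t30 N))))))))) (K a149 (M a768 (F (T t31 (L l347 (T t29 (L l959 (L l989 (T t32 N)))))))) (K a213 (M a768 (F (T t31 (L l959 (L l989 (L l3203 (T t32 (L l700 (T t33 N))))))))) (K a106 (M a768 (F (T t86 (T t29 (L l959 (L l989 (T t32 N))))))) (K a170 (M a768 (F (T t31 (T t29 (L l220 (T t30 N)))))) (K a234 (M a768 (F (T t31 (L l959 (L l989 (T t32 (L l390 (L l700 (L l3246 (T t33 N)))))))))) (K a63 (M a768 (F (T t37 (L l1009 (L l3159 (T t35 (L l2209 (T t29 N)))))))) N))))))))))))))))⟩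
def e0_255__431_15 : Ent 5 := ⟨[a0, a255], [a431, a358], (M a192 (F (T t19 (T t23 (L l2713 (T t22 (T t24 (K a64 (M a240 (F (T t79 (L l144 (T t80 (T t81 N)))))) (K a128 (M a240 (F (T t79 (T t80 (L l192 (L l220 (T t81 N))))))) (K a85 (M a768 (F (T t28 (L l347 (L l2339 (L l2487 (T t29 (L l347 (L l2339 (L l2487 (T t30 N))))))))))) (K a149 (M a768 (F (T t31 (L l347 (L l2487 (T t29 (L l989 (L l2487 (T t32 N))))))))) (K a213 (M a768 (F (T t31 (L l989 (L l2487 (L l3203 (T t32 (L l700 (L l922 (T t33 N)))))))))) (K a106 (M a768 (F (T t28 (L l2487 (T t29 (L l989 (L l2487 (T t32 N)))))))) (K a170 (M a768 (F (T t31 (L l2487 (T t29 (L l220 (L l2487 (T t30 N)))))))) (K a234 (M a768 (F (T t31 (L l989 (L l2487 (T t32 (L l390 (L l700 (L l922 (L l3246 (T t33 N))))))))))) (K a63 (M a768 (F (T t57 (L l2209 (L l2487 (T t29 (L l989 (L l2487 (L l3073 (T t32 N)))))))))) N))))))))))))))))⟩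
def e0_255__431_16 : Ent 5 := ⟨[a0, a255], [a431, a370], (M a192 (F (T t19 (T t23 (L l2713 (T t22 (T t24 (K a64 (M a240 (F (T t79 (L l144 (T t80 (T t81 N)))))) (K a128 (M a240 (F (T t79 (T t80 (L l192 (L l220 (T t81 N))))))) (K a85 (M a768 (F (T t28 (L l347 (L l2339 (T t29 (L l347 (L l2339 (T t30 N))))))))) (K a149 (M a768 (F (T t31 (L l347 (T t29 (L l989 (T t32 N))))))) (K a213 (M a768 (F (T t31 (L l989 (L l3203 (T t32 (L l700 (T t33 N)))))))) (K a106 (M a768 (F (T t28 (T t29 (L l989 (T t32 N)))))) (K a170 (M a768 (F (T t31 (T t29 (L l220 (T t30 N)))))) (K a234 (M a768 (F (T t31 (L l989 (T t32 (L l390 (L l700 (L l3246 (T t33 N))))))))) (K a63 (M a768 (F (T t37 (L l3159 (T t35 (L l2209 (T t29 N))))))) N))))))))))))))))⟩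
def e0_255__431_17 : Ent 5 := ⟨[a0, a255], [a431, a375], (M a192 (F (T t19 (T t23 (L l2713 (T t22 (T t24 (K a64 (M a240 (F (T t79 (L l144 (T t80 (T t81 N)))))) (K a128 (M a240 (F (T t79 (T t80 (L l192 (L l220 (T t81 N))))))) (K a85 (M a768 (F (T t28 (L l347 (L l2339 (T t29 (L l347 (L l2339 (L l2431 (T t30 N)))))))))) (K a149 (M a768 (F (T t31 (L l347 (T t29 (L l959 (L l989 (L l3079 (T t32 N))))))))) (K a213 (M a768 (F (T t31 (L l959 (L l989 (L l3079 (L l3203 (T t32 (L l700 (T t33 N)))))))))) (K a106 (M a768 (F (T t28 (T t29 (L l959 (L l989 (L l3079 (T t32 N)))))))) (K a170 (M a768 (F (T t31 (T t29 (L l220 (L l2431 (T t30 N))))))) (K a234 (M a768 (F (T t31 (L l959 (L l989 (L l3079 (T t32 (L l390 (L l700 (L l3246 (T t33 N))))))))))) (K a63 (M a768 (F (T t37 (L l3159 (T t35 (L l2209 (T t29 N))))))) N))))))))))))))))⟩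
def e0_255__431_18 : Ent 5 := ⟨[a0, a255], [a431, a433], (M a192 (F (T t19 (T t23 (L l2713 (T t22 (T t24 (K a64 (M a240 (F (T t79 (L l144 (T t80 (T t81 N)))))) (K a128 (M a240 (F (T t79 (T t80 (L l192 (L l220 (T t81 N))))))) (K a85 (M a768 (F (T t28 (L l347 (L l2339 (T t29 (L l347 (L l2339 (T t30 N))))))))) (K a149 (M a768 (F (T t31 (L l347 (T t29 (L l989 (T t32 N))))))) (K a213 (M a768 (F (T t31 (L l989 (L l3203 (T t32 (L l700 (T t33 N)))))))) (K a106 (M a768 (F (T t28 (T t29 (L l989 (T t32 N)))))) (K a170 (M a768 (F (T t31 (T t29 (L l220 (T t30 N)))))) (K a234 (M a768 (F (T t31 (L l989 (T t32 (L l390 (L l700 (L l3246 (T t33 N))))))))) (K a63 (M a768 (F (T t37 (L l3159 (T t35 (L l2209 (T t29 N))))))) N))))))))))))))))⟩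
def e0_255__431_19 : Ent 5 := ⟨[a0, a255], [a431, a443], (M a192 (F (T t19 (T t23 (L l2653 (L l2713 (T t22 (T t24 (K a64 (M a240 (F (T t79 (L l144 (T t80 (T t81 N)))))) (K a128 (M a240 (F (T t79 (T t80 (L l192 (L l220 (T t81 N))))))) (K a85 (M a768 (F (T t28 (L l347 (L l2339 (T t29 (L l347 (L l2339 (T t30 N))))))))) (K a149 (M a768 (F (T t31 (L l347 (T t29 (L l959 (L l989 (T t32 N)))))))) (K a213 (M a768 (F (T t31 (L l959 (L l989 (L l3203 (T t32 (L l700 (L l728 (T t33 N)))))))))) (K a106 (M a768 (F (T t28 (T t29 (L l959 (L l989 (T t32 N))))))) (K a170 (M a768 (F (T t31 (T t29 (L l220 (T t30 N)))))) (K a234 (M a768 (F (T t31 (L l959 (L l989 (T t32 (L l390 (L l700 (L l728 (L l3246 (T t33 N))))))))))) (K a63 (M a768 (F (T t37 (L l3159 (T t35 (L l2209 (T t29 N))))))) N)))))))))))))))))⟩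
def e0_255__431_20 : Ent 5 := ⟨[a0, a255], [a431, a529], (M a192 (F (T t19 (T t23 (L l2713 (T t22 (T t24 (K a64 (M a240 (F (T t79 (L l144 (T t80 (T t81 N)))))) (K a128 (M a240 (F (T t79 (T t80 (L l192 (L l220 (T t81 N))))))) (K a85 (M a768 (F (T t28 (L l347 (L l1405 (L l2339 (T t29 (L l347 (L l1405 (L l2339 (T t30 N))))))))))) (K a149 (M a768 (F (T t31 (L l347 (L l1405 (T t29 (L l989 (L l1084 (L l1405 (T t32 N)))))))))) (K a213 (M a768 (F (T t31 (L l989 (L l1084 (L l1405 (L l3203 (T t32 (L l700 (T t33 N)))))))))) (K a106 (M a768 (F (T t28 (L l1405 (T t29 (L l989 (L l1084 (L l1405 (T t32 N))))))))) (K a170 (M a768 (F (T t31 (L l1405 (T t29 (L l220 (L l1405 (T t30 N)))))))) (K a234 (M a768 (F (T t31 (L l989 (L l1084 (L l1405 (T t32 (L l390 (L l700 (L l3246 (T t33 N))))))))))) (K a63 (M a768 (F (T t57 (L l1405 (L l2209 (T t29 (L l989 (L l1084 (L l1405 (L l3073 (T t32 N))))))))))) N))))))))))))))))⟩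
def e0_255__431_21 : Ent 5 := ⟨[a0, a255], [a431, a539], (M a192 (F (T t19 (T t23 (L l2713 (T t22 (T t24 (K a64 (M a240 (F (T t79 (L l144 (T t80 (T t81 N)))))) (K a128 (M a240 (F (T t79 (T t80 (L l192 (L l220 (T t81 N))))))) (K a85 (M a768 (F (T t28 (L l347 (L l2339 (T t29 (L l347 (L l2339 (T t30 N))))))))) (K a149 (M a768 (F (T t31 (L l347 (T t29 (L l989 (T t32 N))))))) (K a213 (M a768 (F (T t31 (L l989 (L l3203 (T t32 (L l700 (T t33 N)))))))) (K a106 (M a768 (F (T t28 (T t29 (L l989 (T t32 N)))))) (K a170 (M a768 (F (T t31 (T t29 (L l220 (T t30 N)))))) (K a234 (M a768 (F (T t31 (L l989 (T t32 (L l390 (L l700 (L l3246 (T t33 N))))))))) (K a63 (M a768 (F (T t37 (L l3159 (T t35 (L l2209 (T t29 N))))))) N))))))))))))))))⟩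
def e0_255__431_22 : Ent 5 := ⟨[a0, a255], [a431, a546], (M a192 (F (T t19 (T t23 (L l2713 (T t22 (T t24 (K a64 (M a240 (F (T t79 (L l144 (T t80 (T t81 N)))))) (K a128 (M a240 (F (T t79 (T t80 (L l192 (L l220 (T t81 N))))))) (K a85 (M a768 (F (T t28 (L l347 (L l2339 (T t29 (L l347 (L l2339 (T t30 N))))))))) (K a149 (M a768 (F (T t31 (L l347 (T t29 (L l989 (L l1084 (T t32 N)))))))) (K a213 (M a768 (F (T t31 (L l989 (L l1084 (L l3203 (T t32 (L l700 (T t33 N))))))))) (K a106 (M a768 (F (T t28 (T t29 (L l989 (L l1084 (T t32 N))))))) (K a170 (M a768 (F (T t31 (T t29 (L l220 (T t30 N)))))) (K a234 (M a768 (F (T t31 (L l989 (L l1084 (T t32 (L l390 (L l700 (L l3246 (T t33 N)))))))))) (K a63 (M a768 (F (T t42 (L l1084 (L l3159 (T t35 (L l989 (L l1084 (L l3073 (T t32 N)))))))))) N))))))))))))))))⟩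
def e0_255__431_23 : Ent 5 := ⟨[a0, a255], [a431, a551], (M a192 (F (T t19 (T t23 (L l2713 (T t22 (T t24 (K a64 (M a240 (F (T t79 (L l144 (L l2257 (T t80 (T t81 N))))))) (K a128 (M a240 (F (T t79 (L l2257 (T t80 (L l192 (L l220 (T t81 N)))))))) (K a85 (M a768 (F (T t28 (L l347 (L l2339 (T t29 (L l347 (L l2339 (T t30 N))))))))) (K a149 (M a768 (F (T t31 (L l347 (T t29 (L l989 (T t32 N))))))) (K a213 (M a768 (F (T t31 (L l989 (L l3203 (T t32 (L l700 (T t33 N)))))))) (K a106 (M a768 (F (T t28 (T t29 (L l989 (T t32 N)))))) (K a170 (M a768 (F (T t31 (T t29 (L l220 (T t30 N)))))) (K a234 (M a768 (F (T t31 (L l989 (T t32 (L l390 (L l700 (L l3246 (T t33 N))))))))) (K a63 (M a768 (F (T t37 (L l3159 (T t35 (L l2209 (T t29 N))))))) N))))))))))))))))⟩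
def e0_255__431_24 : Ent 5 := ⟨[a0, a255], [a431, a563], (M a192 (F (T t19 (T t23 (L l2713 (T t22 (T t24 (K a64 (M a240 (F (T t79 (L l144 (T t80 (T t81 N)))))) (K a128 (M a240 (F (T t79 (T t80 (L l192 (L l220 (T t81 N))))))) (K a85 (M a768 (F (T t86 (L l347 (L l2339 (T t29 (L l347 (L l2339 (T t30 N))))))))) (K a149 (M a768 (F (T t31 (L l347 (T t29 (L l989 (L l1084 (T t32 N)))))))) (K a213 (M a768 (F (T t31 (L l989 (L l1084 (L l3203 (T t32 (L l700 (T t33 N))))))))) (K a106 (M a768 (F (T t86 (T t29 (L l989 (L l1084 (T t32 N))))))) (K a170 (M a768 (F (T t31 (T t29 (L l220 (T t30 N)))))) (K a234 (M a768 (F (T t31 (L l989 (L l1084 (T t32 (L l390 (L l700 (L l3246 (T t33 N)))))))))) (K a63 (M a768 (F (T t42 (L l1084 (L l3159 (T t35 (L l989 (L l1084 (L l3073 (T t32 N)))))))))) N))))))))))))))))⟩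
def e0_255__431_25 : Ent 5 := ⟨[a0, a255], [a431, a614], (M a192 (F (T t19 (T t23 (L l2713 (T t22 (T t24 (K a64 (M a240 (F (T t79 (L l144 (T t80 (T t81 N)))))) (K a128 (M a240 (F (T t79 (T t80 (L l192 (L l220 (T t81 N))))))) (K a85 (M a768 (F (T t28 (L l347 (L l1166 (L l2339 (T t29 (L l347 (L l1166 (L l2339 (T t30 N))))))))))) (K a149 (M a768 (F (T t31 (L l347 (L l1166 (T t29 (L l989 (L l1166 (T t32 N))))))))) (K a213 (M a768 (F (T t31 (L l989 (L l1166 (L l3203 (T t32 (L l700 (L l3264 (T t33 N)))))))))) (K a106 (M a768 (F (T t28 (L l1166 (T t29 (L l989 (L l1166 (T t32 N)))))))) (K a170 (M a768 (F (T t31 (L l1166 (T t29 (L l220 (L l1166 (T t30 N)))))))) (K a234 (M a768 (F (T t31 (L l989 (L l1166 (T t32 (L l390 (L l700 (L l3246 (L l3264 (T t33 N))))))))))) (K a63 (M a768 (F (T t57 (L l1166 (L l2209 (T t29 (L l989 (L l1166 (L l3073 (T t32 N)))))))))) N))))))))))))))))⟩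
def e0_255__431_26 : Ent 5 := ⟨[a0, a255], [a431, a626], (M a192 (F (T t19 (T t23 (L l2713 (T t22 (T t24 (K a64 (M a240 (F (T t79 (L l144 (T t80 (T t81 N)))))) (K a128 (M a240 (F (T t79 (T t80 (L l192 (L l220 (T t81 N))))))) (K a85 (M a768 (F (T t28 (L l347 (L l2339 (T t29 (L l347 (L l2339 (T t30 N))))))))) (K a149 (M a768 (F (T t31 (L l347 (T t29 (L l989 (T t32 N))))))) (K a213 (M a768 (F (T t31 (L l989 (L l3203 (T t32 (L l700 (T t33 N)))))))) (K a106 (M a768 (F (T t28 (T t29 (L l989 (T t32 N)))))) (K a170 (M a768 (F (T t31 (T t29 (L l220 (T t30 N)))))) (K a234 (M a768 (F (T t31 (L l989 (T t32 (L l390 (L l700 (L l3246 (T t33 N))))))))) (K a63 (M a768 (F (T t37 (L l3159 (T t35 (L l2209 (T t29 N))))))) N))))))))))))))))⟩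
def e0_255__431_27 : Ent 5 := ⟨[a0, a255], [a431, a631], (M a192 (F (T t19 (T t23 (L l2713 (T t22 (L l2437 (T t24 (K a64 (M a240 (F (T t79 (L l144 (T t80 (T t81 N)))))) (K a128 (M a240 (F (T t79 (T t80 (L l192 (L l220 (T t81 N))))))) (K a85 (M a768 (F (T t28 (L l347 (L l1166 (L l2339 (T t29 (L l347 (L l1166 (L l2339 (T t30 N))))))))))) (K a149 (M a768 (F (T t31 (L l347 (L l1166 (T t29 (L l989 (L l1166 (T t32 N))))))))) (K a213 (M a768 (F (T t31 (L l989 (L l1166 (L l3203 (T t32 (L l700 (L l1153 (T t33 N)))))))))) (K a106 (M a768 (F (T t35 (L l1166 (T t29 (L l989 (L l1166 (T t32 N)))))))) (K a170 (M a768 (F (T t31 (L l1166 (T t29 (L l220 (L l1166 (T t30 N)))))))) (K a234 (M a768 (F (T t31 (L l989 (L l1166 (T t32 (L l390 (L l700 (L l1153 (L l3246 (T t33 N))))))))))) (K a63 (M a768 (F (T t57 (L l1166 (L l2209 (T t29 (L l989 (L l1166 (L l3073 (T t32 N)))))))))) N)))))))))))))))))⟩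
def e0_255__431_28 : Ent 5 := ⟨[a0, a255], [a431, a689], (M a192 (F (T t19 (T t23 (L l2713 (T t22 (T t24 (K a64 (M a240 (F (T t79 (L l144 (T t80 (T t81 N)))))) (K a128 (M a240 (F (T t79 (T t80 (L l192 (L l220 (T t81 N))))))) (K a85 (M a768 (F (T t28 (L l347 (L l2339 (T t29 (L l347 (L l2339 (T t30 N))))))))) (K a149 (M a768 (F (T t31 (L l347 (T t29 (L l989 (T t32 N))))))) (K a213 (M a768 (F (T t31 (L l989 (L l3203 (T t32 (L l700 (T t33 N)))))))) (K a106 (M a768 (F (T t28 (T t29 (L l989 (T t32 N)))))) (K a170 (M a768 (F (T t31 (T t29 (L l220 (T t30 N)))))) (K a234 (M a768 (F (T t31 (L l989 (T t32 (L l390 (L l700 (L l3246 (T t33 N))))))))) (K a63 (M a768 (F (T t37 (L l3159 (T t35 (L l2209 (T t29 N))))))) N))))))))))))))))⟩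
def e0_255__431_29 : Ent 5 := ⟨[a0, a255], [a431, a699], (M a192 (F (T t19 (T t23 (L l2713 (T t22 (T t24 (K a64 (M a240 (F (T t79 (L l144 (T t80 (T t81 N)))))) (K a128 (M a240 (F (T t79 (T t80 (L l192 (L l220 (T t81 N))))))) (K a85 (M a768 (F (T t28 (L l347 (L l2339 (T t29 (L l347 (L l2339 (T t30 N))))))))) (K a149 (M a768 (F (T t31 (L l347 (T t29 (L l989 (L l3079 (T t32 N)))))))) (K a213 (M a768 (F (T t31 (L l989 (L l3079 (L l3203 (T t32 (L l700 (T t33 N))))))))) (K a106 (M a768 (F (T t28 (T t29 (L l989 (L l3079 (T t32 N))))))) (K a170 (M a768 (F (T t31 (T t29 (L l220 (T t30 N)))))) (K a234 (M a768 (F (T t31 (L l989 (L l3079 (T t32 (L l390 (L l700 (L l3246 (T t33 N)))))))))) (K a63 (M a768 (F (T t37 (L l3159 (T t35 (L l2209 (T t29 N))))))) N))))))))))))))))⟩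
def e0_255__431_30 : Ent 5 := ⟨[a0, a255], [a431, a785], (M a192 (F (T t19 (T t23 (L l2713 (T t22 (T t24 (K a64 (M a240 (F (T t79 (L l144 (T t80 (T t81 N)))))) (K a128 (M a240 (F (T t79 (T t80 (L l192 (L l220 (T t81 N))))))) (K a85 (M a768 (F (T t28 (L l347 (L l2339 (L l3227 (T t29 (L l347 (L l2339 (L l3227 (T t30 N))))))))))) (K a149 (M a768 (F (T t31 (L l347 (L l3227 (T t29 (L l989 (L l3227 (T t32 N))))))))) (K a213 (M a768 (F (T t31 (L l989 (L l3203 (L l3227 (T t32 (L l700 (L l1925 (T t33 N)))))))))) (K a106 (M a768 (F (T t28 (L l3227 (T t29 (L l989 (L l3227 (T t32 N)))))))) (K a170 (M a768 (F (T t31 (L l3227 (T t29 (L l220 (L l3227 (T t30 N)))))))) (K a234 (M a768 (F (T t31 (L l989 (L l3227 (T t32 (L l390 (L l700 (L l1925 (L l3246 (T t33 N))))))))))) (K a63 (M a768 (F (T t57 (L l2209 (L l3227 (T t29 (L l989 (L l3073 (L l3227 (T t32 N)))))))))) N))))))))))))))))⟩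
def e0_255__431_31 : Ent 5 := ⟨[a0, a255], [a431, a795], (M a192 (F (T t19 (T t23 (L l2713 (T t22 (T t24 (K a64 (M a240 (F (T t79 (L l144 (T t80 (T t81 N)))))) (K a128 (M a240 (F (T t79 (T t80 (L l192 (L l220 (T t81 N))))))) (K a85 (M a768 (F (T t28 (L l347 (L l2339 (T t29 (L l347 (L l2339 (T t30 N))))))))) (K a149 (M a768 (F (T t31 (L l347 (T t29 (L l989 (T t32 N))))))) (K a213 (M a768 (F (T t31 (L l989 (L l3203 (T t32 (L l700 (T t33 N)))))))) (K a106 (M a768 (F (T t28 (T t29 (L l989 (T t32 N)))))) (K a170 (M a768 (F (T t31 (T t29 (L l220 (T t30 N)))))) (K a234 (M a768 (F (T t31 (L l989 (T t32 (L l390 (L l700 (L l3246 (T t33 N))))))))) (K a63 (M a768 (F (T t37 (L l3159 (T t35 (L l2209 (T t29 N))))))) N))))))))))))))))⟩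
def e0_255__431_32 : Ent 5 := ⟨[a0, a255], [a431, a802], (M a192 (F (T t19 (T t23 (L l2713 (T t22 (T t24 (K a64 (M a240 (F (T t79 (L l144 (T t80 (T t81 N)))))) (K a128 (M a240 (F (T t79 (T t80 (L l192 (L l220 (T t81 N))))))) (K a85 (M a768 (F (T t28 (L l347 (L l1586 (L l2339 (T t29 (L l347 (L l1586 (L l2339 (T t30 N))))))))))) (K a149 (M a768 (F (T t31 (L l347 (L l1586 (T t29 (L l989 (T t32 N)))))))) (K a213 (M a768 (F (T t31 (L l989 (L l3203 (T t32 (L l700 (L l3264 (T t33 N))))))))) (K a106 (M a768 (F (T t28 (L l1586 (T t29 (L l989 (T t32 N))))))) (K a170 (M a768 (F (T t31 (L l1586 (T t29 (L l220 (L l1586 (T t30 N)))))))) (K a234 (M a768 (F (T t31 (L l989 (T t32 (L l390 (L l700 (L l3246 (L l3264 (T t33 N)))))))))) (K a63 (M a768 (F (T t57 (L l1586 (L l2209 (T t29 (L l989 (L l3073 (T t32 N))))))))) N))))))))))))))))⟩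
def e0_255__431_33 : Ent 5 := ⟨[a0, a255], [a431, a807], (M a192 (F (T t19 (T t23 (L l2713 (T t22 (T t24 (K a64 (M a240 (F (T t79 (L l144 (T t80 (T t81 N)))))) (K a128 (M a240 (F (T t79 (T t80 (L l192 (L l220 (T t81 N))))))) (K a85 (M a768 (F (T t28 (L l347 (L l2339 (T t29 (L l347 (L l2339 (T t30 N))))))))) (K a149 (M a768 (F (T t31 (L l347 (T t29 (L l989 (T t32 N))))))) (K a213 (M a768 (F (T t31 (L l989 (L l3203 (T t32 (L l700 (T t33 N)))))))) (K a106 (M a768 (F (T t28 (T t29 (L l989 (T t32 N)))))) (K a170 (M a768 (F (T t31 (T t29 (L l220 (T t30 N)))))) (K a234 (M a768 (F (T t31 (L l989 (T t32 (L l390 (L l700 (L l3246 (T t33 N))))))))) (K a63 (M a768 (F (T t37 (L l3159 (T t35 (L l2209 (T t29 N))))))) N))))))))))))))))⟩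
def e0_255__431_34 : Ent 5 := ⟨[a0, a255], [a431, a819], (M a192 (F (T t46 (L l2221 (T t19 (L l2221 (T t23 (L l2221 (L l2713 (T t22 (L l2221 (T t24 (K a64 (M a240 (F (T t84 (L l144 (L l2257 (T t80 (T t81 N))))))) (K a128 (M a240 (F (T t84 (L l2257 (T t80 (L l192 (L l220 (T t81 N)))))))) (K a85 (M a768 (F (T t401 (L l347 (L l1597 (L l2339 (T t29 (L l347 (L l2339 (T t30 N)))))))))) (K a149 (M a768 (F (T t69 (L l347 (L l1597 (T t29 (L l989 (L l1999 (T t32 N))))))))) (K a213 (M a768 (F (T t62 (L l989 (L l1999 (L l3203 (T t32 (L l700 (T t33 N))))))))) (K a106 (M a768 (F (T t42 (L l2049 (T t35 (L l989 (L l1999 (T t32 N)))))))) (K a170 (M a768 (F (T t42 (L l2049 (T t35 (L l220 (T t30 N))))))) (K a234 (M a768 (F (T t37 (L l2049 (T t35 (L l390 (L l700 (L l3246 (T t33 N))))))))) (K a63 (M a768 (L l2221 (F (T t37 (L l2049 (L l3159 (T t35 (L l1597 (L l2209 (T t29 (K a567 (M a315 (F (T t37 (L l700 (L l1597 (L l2209 (T t48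 (L l2049 (L l3159 (T t86 N)))))))))) (K a315 (M a567 (F (T t37 (L l700 (L l1597 (L l2209 (T t48 (L l2049 (L l3159 (T t86 N)))))))))) N)))))))))))) N)))))))))))))))))))))⟩
def e0_255__431_35 : Ent 5 := ⟨[a0, a255], [a431, a870], (M a192 (F (T t19 (T t23 (L l2713 (T t22 (T t24 (K a64 (M a240 (F (T t79 (L l144 (T t80 (T t81 N)))))) (K a128 (M a240 (F (T t79 (T t80 (L l192 (L l220 (T t81 N))))))) (K a85 (M a768 (F (T t28 (L l347 (L l2339 (T t29 (L l347 (L l2339 (T t30 N))))))))) (K a149 (M a768 (F (T t31 (L l347 (T t29 (L l989 (T t32 N))))))) (K a213 (M a768 (F (T t31 (L l989 (L l3203 (T t32 (L l700 (L l1686 (T t33 N))))))))) (K a106 (M a768 (F (T t35 (T t29 (L l989 (T t32 N)))))) (K a170 (M a768 (F (T t31 (T t29 (L l220 (T t30 N)))))) (K a234 (M a768 (F (T t31 (L l989 (T t32 (L l390 (L l700 (L l1686 (L l3246 (T t33 N)))))))))) (K a63 (M a768 (F (T t42 (L l3159 (T t35 (L l989 (L l3073 (T t32 N)))))))) N))))))))))))))))⟩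
def e0_255__431_36 : Ent 5 := ⟨[a0, a255], [a431, a882], (M a192 (F (T t19 (T t23 (L l2713 (T t22 (T t24 (K a64 (M a240 (F (T t79 (L l144 (T t80 (T t81 N)))))) (K a128 (M a240 (F (T t79 (T t80 (L l192 (L l220 (T t81 N))))))) (K a85 (M a768 (F (T t28 (L l347 (L l2339 (T t29 (L l347 (L l2339 (T t30 N))))))))) (K a149 (M a768 (F (T t31 (L l347 (T t29 (L l989 (T t32 N))))))) (K a213 (M a768 (F (T t31 (L l989 (L l3203 (T t32 (L l700 (T t33 N)))))))) (K a106 (M a768 (F (T t28 (T t29 (L l989 (T t32 N)))))) (K a170 (M a768 (F (T t31 (T t29 (L l220 (T t30 N)))))) (K a234 (M a768 (F (T t31 (L l989 (T t32 (L l390 (L l700 (L l3246 (T t33 N))))))))) (K a63 (M a768 (F (T t37 (L l3159 (T t35 (L l2209 (T t29 N))))))) N))))))))))))))))⟩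
def e0_255__431_37 : Ent 5 := ⟨[a0, a255], [a431, a887], (M a192 (F (T t19 (T t23 (L l2713 (T t22 (T t24 (K a64 (M a240 (F (T t79 (L l144 (T t80 (T t81 N)))))) (K a128 (M a240 (F (T t79 (T t80 (L l192 (L l220 (T t81 N))))))) (K a85 (M a768 (F (T t28 (L l347 (L l2339 (T t29 (L l347 (L l1673 (L l2339 (T t30 N)))))))))) (K a149 (M a768 (F (T t31 (L l347 (T t29 (L l989 (L l1999 (T t32 N)))))))) (K a213 (M a768 (F (T t31 (L l989 (L l1999 (L l3203 (T t32 (L l700 (L l1686 (T t33 N)))))))))) (K a106 (M a768 (F (T t28 (T t29 (L l989 (L l1999 (T t32 N))))))) (K a170 (M a768 (F (T t31 (T t29 (L l220 (L l1673 (T t30 N))))))) (K a234 (M a768 (F (T t31 (L l989 (L l1999 (T t32 (L l390 (L l700 (L l1686 (L l3246 (T t33 N))))))))))) (K a63 (M a768 (F (T t37 (L l3159 (T t35 (L l2209 (T t29 N))))))) N))))))))))))))))⟩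
def e0_255__431_38 : Ent 5 := ⟨[a0, a255], [a431, a945], (M a192 (F (T t19 (T t23 (L l2713 (T t22 (T t24 (K a64 (M a240 (F (T t79 (L l144 (T t80 (T t81 N)))))) (K a128 (M a240 (F (T t79 (T t80 (L l192 (L l220 (T t81 N))))))) (K a85 (M a768 (F (T t28 (L l347 (L l2339 (T t29 (L l347 (L l2339 (T t30 N))))))))) (K a149 (M a768 (F (T t31 (L l347 (T t29 (L l989 (T t32 N))))))) (K a213 (M a768 (F (T t31 (L l989 (L l3203 (T t32 (L l700 (T t33 N)))))))) (K a106 (M a768 (F (T t28 (T t29 (L l989 (T t32 N)))))) (K a170 (M a768 (F (T t31 (T t29 (L l220 (T t30 N)))))) (K a234 (M a768 (F (T t31 (L l989 (T t32 (L l390 (L l700 (L l3246 (T t33 N))))))))) (K a63 (M a768 (F (T t37 (L l3159 (T t35 (L l2209 (T t29 N))))))) N))))))))))))))))⟩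
def e0_255__431_39 : Ent 5 := ⟨[a0, a255], [a431, a955], (M a192 (F (T t19 (T t23 (L l2713 (T t22 (T t24 (K a64 (M a240 (F (T t79 (L l144 (T t80 (T t81 N)))))) (K a128 (M a240 (F (T t79 (T t80 (L l192 (L l220 (T t81 N))))))) (K a85 (M a768 (F (T t28 (L l347 (L l2339 (T t29 (L l347 (L l2339 (T t30 N))))))))) (K a149 (M a768 (F (T t31 (L l347 (T t29 (L l989 (L l1999 (T t32 N)))))))) (K a213 (M a768 (F (T t31 (L l989 (L l1999 (L l3203 (T t32 (L l700 (T t33 N))))))))) (K a106 (M a768 (F (T t35 (T t29 (L l989 (L l1999 (T t32 N))))))) (K a170 (M a768 (F (T t31 (T t29 (L l220 (T t30 N)))))) (K a234 (M a768 (F (T t31 (L l989 (L l1999 (T t32 (L l390 (L l700 (L l3246 (T t33 N)))))))))) (K a63 (M a768 (F (T t42 (L l3159 (T t35 (L l989 (L l1999 (L l3073 (T t32 N))))))))) N))))))))))))))))⟩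
def b0_255__431 : Blk 5 := ⟨[0, 255], [431], [17, 27, 34, 39, 51, 102, 114, 119, 177, 187, 273, 283, 290, 295, 307, 358, 370, 375, 433, 443, 529, 539, 546, 551, 563, 614, 626, 631, 689, 699, 785, 795, 802, 807, 819, 870, 882, 887, 945, 955], [e0_255__431_0, e0_255__431_1, e0_255__431_2, e0_255__431_3, e0_255__431_4, e0_255__431_5, e0_255__431_6, e0_255__431_7, e0_255__431_8, e0_255__431_9, e0_255__431_10, e0_255__431_11, e0_255__431_12, e0_255__431_13, e0_255__431_14, e0_255__431_15, e0_255__431_16, e0_255__431_17, e0_255__431_18, e0_255__431_19, e0_255__431_20, e0_255__431_21, e0_255__431_22, e0_255__431_23, e0_255__431_24, e0_255__431_25, e0_255__431_26, e0_255__431_27, e0_255__431_28, e0_255__431_29, e0_255__431_30, e0_255__431_31, e0_255__431_32, e0_255__431_33, e0_255__431_34, e0_255__431_35, e0_255__431_36, e0_255__431_37, e0_255__431_38, e0_255__431_39], by decide +kernel, by decide +kernel⟩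
def e0_255__768_0 : Ent 5 := ⟨[a0, a255], [a768, a27], (M a192 (F (T t46 (L l2295 (T t19 (L l2295 (T t23 (L l2295 (T t22 (L l2295 (T t24 (K a64 (M a240 (F (T t84 (L l73 (L l144 (L l2115 (T t80 (T t81 N)))))))) (K a128 (M a240 (F (T t84 (L l73 (L l2115 (T t80 (L l192 (L l220 (T t81 N))))))))) (K a85 (M a1023 (F (T t379 (L l1628 (L l2339 (T t370 (L l347 (L l1628 (T t371 N))))))))) (K a149 (M a208 (F (T t380 (L l2260 (T t308 (L l170 (L l220 (T t310 N)))))))) (K a213 (M a48 (F (T t381 (L l347 (L l3195 (T t136 (L l347 (T t274 N)))))))) (K a106 (M a224 (F (T t382 (L l2260 (T t311 (L l104 (L l144 (T t313 N)))))))) (K a170 (M a1023 (F (T t383 (L l390 (L l1864 (T t384 (L l220 (L l1628 (L l2598 (T t371 N)))))))))) (K a234 (M a48 (F (T t381 (L l3195 (T t136 (T t274 N)))))) (K a63 (M a16 (L l2295 (F (T t352 (L l447 (L l3340 (T t353 (T t322 (K a533 (M a298 (F (T t385 (L l505 (L l3195 (T t321 (T t322 N))))))) (K a298 (M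 a533 (F (T t385 (L l505 (L l3195 (T t321 (T t322 N))))))) N)))))))))) N))))))))))))))))))))⟩
def e0_255__768_1 : Ent 5 := ⟨[a0, a255], [a768, a283], (M a192 (F (T t46 (L l2295 (T t19 (L l2295 (T t23 (L l2295 (T t22 (L l2295 (T t24 (K a64 (M a240 (F (T t84 (L l144 (L l2115 (L l2257 (T t80 (T t81 N)))))))) (K a128 (M a240 (F (T t84 (L l2115 (L l2257 (T t80 (L l192 (L l220 (T t81 N))))))))) (K a85 (M a1023 (F (T t379 (L l1628 (L l2339 (T t370 (L l347 (L l1628 (T t371 N))))))))) (K a149 (M a208 (F (T t380 (L l2260 (T t308 (L l170 (L l220 (T t310 N)))))))) (K a213 (M a48 (F (T t381 (L l347 (L l3195 (T t136 (L l347 (T t274 N)))))))) (K a106 (M a224 (F (T t382 (L l2260 (T t311 (L l104 (L l144 (T t313 N)))))))) (K a170 (M a1023 (F (T t383 (L l390 (L l1864 (T t384 (L l220 (L l1628 (L l2598 (T t371 N)))))))))) (K a234 (M a48 (F (T t381 (L l3195 (T t136 (T t274 N)))))) (K a63 (M a16 (L l2295 (F (T t352 (L l447 (L l3340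 (T t353 (T t322 (K a533 (M a298 (F (T t385 (L l505 (L l3195 (T t321 (T t322 N))))))) (K a298 (M a533 (F (T t385 (L l505 (L l3195 (T t321 (T t322 N))))))) N)))))))))) N))))))))))))))))))))⟩
def e0_255__768_2 : Ent 5 := ⟨[a0, a255], [a768, a539], (M a192 (F (T t46 (L l2295 (T t19 (L l2295 (T t23 (L l2295 (T t22 (L l2295 (T t24 (K a64 (M a240 (F (T t84 (L l144 (L l2115 (T t80 (T t81 N))))))) (K a128 (M a240 (F (T t406 (L l3195 (T t304 (L l192 (L l220 (T t81 N)))))))) (K a85 (M a1023 (F (T t379 (L l1628 (L l2339 (T t370 (L l347 (L l1628 (T t371 N))))))))) (K a149 (M a208 (F (T t380 (L l2260 (T t308 (L l170 (L l220 (T t310 N)))))))) (K a213 (M a48 (F (T t381 (L l347 (L l3195 (T t136 (L l347 (T t274 N)))))))) (K a106 (M a224 (F (T t382 (L l2260 (T t311 (L l104 (L l144 (T t313 N)))))))) (K a170 (M a1023 (F (T t383 (L l390 (L l1864 (T t384 (L l220 (L l1628 (L l2598 (T t371 N)))))))))) (K a234 (M a48 (F (T t381 (L l3195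 (T t136 (T t274 N)))))) (K a63 (M a16 (L l2295 (F (T t352 (L l447 (L l3340 (T t353 (T t322 (K a533 (M a298 (F (T t385 (L l505 (L l3195 (T t321 (T t322 N))))))) (K a298 (M a533 (F (T t385 (L l505 (L l3195 (T t321 (T t322 N))))))) N)))))))))) N))))))))))))))))))))⟩
def e0_255__768_3 : Ent 5 := ⟨[a0, a255], [a768, a795], (M a192 (F (T t46 (L l2295 (T t19 (L l2295 (T t23 (L l2295 (T t22 (L l2295 (T t24 (K a64 (M a240 (F (T t84 (L l144 (L l2115 (T t80 (T t81 N))))))) (K a128 (M a240 (F (T t406 (L l3195 (T t304 (L l192 (L l220 (T t81 N)))))))) (K a85 (M a1023 (F (T t379 (L l1628 (L l2339 (T t370 (L l347 (L l1628 (T t371 N))))))))) (K a149 (M a208 (F (T t380 (L l2260 (T t308 (L l170 (L l220 (T t310 N)))))))) (K a213 (M a48 (F (T t381 (L l347 (L l3195 (T t136 (L l347 (T t274 N)))))))) (K a106 (M a224 (F (T t382 (L l2260 (T t311 (L l104 (L l144 (T t313 N)))))))) (K a170 (M a1023 (F (T t383 (L l390 (L l1864 (T t384 (L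 l220 (L l1628 (L l2598 (T t371 N)))))))))) (K a234 (M a48 (F (T t381 (L l3195 (T t136 (T t274 N)))))) (K a63 (M a16 (L l2295 (F (T t352 (L l447 (L l3340 (T t353 (T t322 (K a533 (M a298 (F (T t385 (L l505 (L l3195 (T t321 (T t322 N))))))) (K a298 (M a533 (F (T t385 (L l505 (L l3195 (T t321 (T t322 N))))))) N)))))))))) N))))))))))))))))))))⟩
def b0_255__768 : Blk 5 := ⟨[0, 255], [768], [27, 283, 539, 795], [e0_255__768_0, e0_255__768_1, e0_255__768_2, e0_255__768_3], by decide +kernel, by decide +kernel⟩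
def e0_255__773_0 : Ent 5 := ⟨[a0, a255], [a773, a17], (M a341 (F (L l365 (T t1 (L l1568 (L l2015 (T t0 (L l2015 (T t2 (L l1568 (T t3 (K a256 (M a780 (F (T t658 (L l1561 (L l2015 (T t659 N)))))) (K a768 (M a783 (F (T t660 (L l2115 (T t661 (L l2015 (L l2036 (L l3340 (T t662 (L l2087 (L l2115 (T t663 N)))))))))))) (K a85 (M a192 (L l365 (F (T t9 (T t10 (L l347 (T t11 (K a153 (M a221 (F (T t12 (L l341 (T t78 N))))) (K a221 (M a153 (F (T t12 (L l243 (L l347 (T t11 (T t10 N))))))) N))))))))) (K a597 (M a245 (F (L l2087 (T t664 (L l1516 (L l2015 (T t665 (L l1495 (T t666 N))))))))) (K a853 (Fr a682 a1023 l3116 (Fr a170 a85 l476 (Fr a426 a938 l2598 (Fr a768 a597 l3375 (V t402))))) (K a170 (M a192 (F (T t18 (L l2598 (T t10 (L l220 (T t11 N))))))) (K a426 (M a192 (F (T t9 (L l365 (T t19 (L l2598 (T t10 N))))))) (K a682 (M a64 (F (L l2684 (T t20 (L l2015 (L l2598 (T t8 (L l2598 (L l2684 (T t15 (L l1607 (L l2684 (T t21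 N))))))))))))) (K a1023 (M a64 (F (T t6 (L l1993 (T t20 (L l1993 (L l2015 (L l2036 (T t8 N))))))))) N))))))))))))))))))))⟩
def e0_255__773_1 : Ent 5 := ⟨[a0, a255], [a773, a27], (M a192 (F (T t19 (T t23 (T t22 (T t24 (K a64 (M a240 (F (T t25 (L l73 (L l144 (L l3347 (T t80 (T t81 N)))))))) (K a128 (M a240 (F (T t25 (L l73 (L l3347 (T t80 (L l192 (L l220 (T t81 N))))))))) (K a85 (M a768 (F (T t28 (L l347 (L l2339 (L l3347 (T t29 (L l347 (L l2339 (L l3347 (T t30 N))))))))))) (K a149 (M a768 (F (T t31 (L l347 (L l3347 (T t29 (L l3347 (T t32 N)))))))) (K a213 (M a768 (F (T t31 (L l3203 (L l3347 (T t32 (L l2015 (T t33 N)))))))) (K a106 (M a768 (F (T t28 (L l3347 (T t29 (L l3347 (T t32 N))))))) (K a170 (M a768 (F (T t31 (L l3347 (T t29 (L l220 (L l3347 (T t30 N)))))))) (K a234 (M a768 (F (T t31 (L l3347 (T t32 (L l390 (L l2015 (L l3246 (T t33 N))))))))) (K a63 (M a768 (F (T t74 (L l3159 (T t35 (L l2209 (L l3347 (T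 t29 N)))))))) N)))))))))))))))⟩
def e0_255__773_2 : Ent 5 := ⟨[a0, a255], [a773, a34], (M a192 (F (T t22 (L l26 (T t19 (L l402 (T t23 (L l402 (T t24 (K a64 (M a240 (F (T t25 (L l144 (L l3347 (T t80 (L l402 (T t81 N)))))))) (K a128 (M a240 (F (T t140 (L l3347 (T t304 (L l192 (L l220 (L l402 (T t81 N))))))))) (K a85 (M a768 (F (T t28 (L l347 (L l2339 (L l3347 (T t29 (L l347 (L l2339 (L l3347 (T t30 N))))))))))) (K a149 (M a768 (F (T t31 (L l347 (L l3347 (T t29 (L l3347 (T t32 N)))))))) (K a213 (M a768 (F (T t31 (L l3203 (L l3347 (T t32 (L l402 (L l2015 (T t33 N))))))))) (K a106 (M a768 (F (T t35 (L l3347 (T t29 (L l3347 (T t32 N))))))) (K a170 (M a768 (L l402 (F (T t31 (L l3347 (T t29 (L l220 (L l3347 (T t30 (K a102 (M a238 (F (T t31 (L l2154 (L l3347 (T t82 N)))))) (K a238 (M a102 (F (T t35 (L l3347 (T t29 (L l2598 (L l3264 (T t36 N)))))))) N))))))))))) (K a234 (M a768 (F (T t31 (L l3347 (T t32 (L l390 (L l402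 (L l2015 (L l3246 (T t33 N)))))))))) (K a63 (M a768 (F (T t57 (L l2209 (L l3347 (T t29 (L l3073 (L l3347 (T t32 N))))))))) N))))))))))))))))))⟩
def e0_255__773_3 : Ent 5 := ⟨[a0, a255], [a773, a39], (M a192 (F (T t19 (T t23 (T t22 (T t24 (K a64 (M a240 (F (T t25 (L l73 (L l144 (L l3347 (T t80 (T t81 N)))))))) (K a128 (M a240 (F (T t25 (L l73 (L l3347 (T t80 (L l192 (L l220 (T t81 N))))))))) (K a85 (M a768 (F (T t28 (L l347 (L l2339 (L l3347 (T t29 (L l347 (L l2339 (L l3347 (T t30 N))))))))))) (K a149 (M a768 (F (T t31 (L l347 (L l3347 (T t29 (L l3347 (T t32 N)))))))) (K a213 (M a768 (F (T t31 (L l3203 (L l3347 (T t32 (L l2015 (T t33 N)))))))) (K a106 (M a768 (F (T t28 (L l3347 (T t29 (L l3347 (T t32 N))))))) (K a170 (M a768 (F (T t31 (L l3347 (T t29 (L l220 (L l3347 (T t30 N)))))))) (K a234 (M a768 (F (T t31 (L l3347 (T t32 (L l390 (L l2015 (L l3246 (T t33 N))))))))) (K a63 (M a768 (F (T t74 (L l3159 (T t35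 (L l2209 (L l3347 (T t29 N)))))))) N)))))))))))))))⟩
def e0_255__773_4 : Ent 5 := ⟨[a0, a255], [a773, a51], (M a48 (F (T t404 (L l511 (T t136 (L l511 (T t137 (L l511 (T t135 (L l511 (T t138 (K a16 (M a240 (F (T t405 (L l73 (L l340 (L l368 (T t140 (T t141 N)))))))) (K a32 (M a240 (F (T t405 (L l73 (T t140 (L l376 (L l404 (T t141 N)))))))) (K a85 (M a768 (F (T t229 (L l2193 (T t148 (L l123 (L l2339 (L l3347 (T t144 N))))))))) (K a101 (M a768 (F (T t229 (L l2193 (T t148 (L l3079 (L l3347 (T t32 N)))))))) (K a117 (M a768 (F (T t409 (L l2483 (L l3079 (L l3347 (T t32 (L l2015 (T t146 N))))))))) (K a154 (M a768 (F (T t516 (L l3151 (L l3347 (T t143 (L l3079 (L l3347 (T t32 N))))))))) (K a170 (M a768 (F (T t230 (L l3151 (L l3347 (T t143 (L l404 (L l3347 (T t144 N))))))))) (K a186 (M a768 (F (T t516 (L l3079 (L l3347 (T t32 (L l206 (L l2015 (L l2706 (T t146 N)))))))))) (K a207 (M a597 (L l511 (F (T t667 (L l1568 (L l2265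 (L l3195 (T t668 (L l1871 (T t669 (K a103 (M a155 (F (T t670 (L l1871 (L l2015 (T t671 N)))))) (K a155 (M a103 (F (T t670 (L l1871 (L l2015 (T t671 N)))))) N)))))))))))) N))))))))))))))))))))⟩
def e0_255__773_5 : Ent 5 := ⟨[a0, a255], [a773, a102], (M a341 (F (L l126 (T t1 (L l402 (L l1568 (L l2015 (T t0 (L l402 (L l2015 (T t2 (L l1568 (T t3 (K a256 (M a240 (F (T t102 (L l402 (L l2015 (T t415 N)))))) (K a768 (M a783 (F (T t660 (L l2115 (T t661 (L l402 (L l2015 (L l2036 (L l3340 (T t662 (L l402 (L l2087 (L l2115 (T t663 N)))))))))))))) (K a85 (M a48 (L l126 (F (T t87 (T t88 (L l123 (T t89 (K a68 (M a119 (F (T t90 (L l122 (T t91 N))))) (K a119 (M a68 (F (T t87 (L l365 (L l2413 (T t131 N)))))) N))))))))) (K a597 (M a245 (F (L l402 (L l2087 (T t664 (L l1516 (L l2015 (T t665 (L l387 (L l402 (L l1495 (T t666 N)))))))))))) (K a853 (Fr a682 a1023 l3116 (Fr a170 a85 l476 (Fr a426 a938 l2598 (Fr a768 a597 l3375 (V t402)))))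 (K a170 (M a192 (L l402 (F (T t18 (L l2598 (T t10 (L l220 (T t11 (K a34 (M a238 (F (T t107 (L l378 (T t132 N))))) (K a238 (M a34 (F (L l2820 (T t133 (L l220 (T t11 N)))))) N)))))))))) (K a426 (M a192 (F (T t9 (L l126 (T t19 (L l2598 (T t10 N))))))) (K a682 (M a64 (F (L l2684 (T t20 (L l402 (L l2015 (L l2598 (T t8 (L l402 (L l2598 (L l2684 (T t15 (L l1607 (L l2684 (T t21 N))))))))))))))) (K a1023 (M a64 (F (L l402 (T t73 (L l1993 (T t20 (L l402 (L l1993 (L l2015 (L l2036 (T t8 N))))))))))) N))))))))))))))))))))))⟩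
def e0_255__773_6 : Ent 5 := ⟨[a0, a255], [a773, a114], (M a192 (F (T t19 (T t23 (T t22 (T t24 (K a64 (M a240 (F (T t26 (L l3347 (T t304 (T t81 N)))))) (K a128 (M a240 (F (T t140 (L l3347 (T t304 (L l192 (L l220 (T t81 N)))))))) (K a85 (M a768 (F (T t28 (L l347 (L l2339 (L l3347 (T t29 (L l347 (L l2339 (L l3347 (T t30 N))))))))))) (K a149 (M a768 (F (T t31 (L l347 (L l3347 (T t29 (L l3347 (T t32 N)))))))) (K a213 (M a768 (F (T t31 (L l3203 (L l3347 (T t32 (L l2015 (T t33 N)))))))) (K a106 (M a768 (F (T t28 (L l3347 (T t29 (L l3347 (T t32 N))))))) (K a170 (M a768 (F (T t31 (L l3347 (T t29 (L l220 (L l3347 (T t30 N)))))))) (K a234 (M a768 (F (T t31 (L l3347 (T t32 (L l390 (L l2015 (L l3246 (T t33 N))))))))) (K a63 (M a768 (F (T t74 (L l3159 (T t35 (L l2209 (L l3347 (T t29 N)))))))) N)))))))))))))))⟩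
def e0_255__773_7 : Ent 5 := ⟨[a0, a255], [a773, a119], (M a192 (F (T t23 (L l126 (T t19 (L l126 (T t22 (L l113 (T t24 (K a64 (M a240 (F (T t26 (L l3347 (T t304 (T t81 N)))))) (K a128 (M a240 (F (T t25 (L l126 (L l3347 (T t80 (L l192 (L l220 (T t81 N))))))))) (K a85 (M a768 (L l126 (F (T t28 (L l347 (L l2339 (L l2487 (L l3347 (T t29 (L l347 (L l2339 (L l2487 (L l3347 (T t30 (K a68 (M a102 (F (T t35 (L l347 (L l2339 (L l2487 (L l3347 (T t29 (L l80 (L l144 (T t36 N))))))))))) (K a102 (M a68 (F (T t35 (L l365 (L l2339 (L l2487 (L l3347 (T t134 N)))))))) N)))))))))))))))) (K a149 (M a768 (F (T t31 (L l347 (L l2487 (L l3347 (T t29 (L l2487 (L l3347 (T t32 N)))))))))) (K a213 (M a768 (F (T t31 (L l2487 (L l3203 (L l3347 (T t32 (L l2015 (T t33 N))))))))) (K a106 (M a768 (F (T t35 (L l2487 (L l3347 (T t29 (L l2487 (L l3347 (T t32 N))))))))) (K a170 (M a768 (F (T t31 (L l2487 (L l3347 (T t29 (L l220 (L l2487 (L l3347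 (T t30 N)))))))))) (K a234 (M a768 (F (T t31 (L l2487 (L l3347 (T t32 (L l390 (L l2015 (L l3246 (T t33 N)))))))))) (K a63 (M a768 (F (T t74 (L l3159 (T t35 (L l2209 (L l2487 (L l3347 (T t29 N))))))))) N))))))))))))))))))⟩
def e0_255__773_8 : Ent 5 := ⟨[a0, a255], [a773, a177], (M a192 (F (T t19 (T t23 (T t22 (T t24 (K a64 (M a240 (F (T t26 (L l3347 (T t304 (T t81 N)))))) (K a128 (M a240 (F (T t140 (L l3347 (T t304 (L l192 (L l220 (T t81 N)))))))) (K a85 (M a768 (F (T t28 (L l347 (L l2339 (L l3347 (T t29 (L l347 (L l2339 (L l3347 (T t30 N))))))))))) (K a149 (M a768 (F (T t31 (L l347 (L l3347 (T t29 (L l3347 (T t32 N)))))))) (K a213 (M a768 (F (T t31 (L l3203 (L l3347 (T t32 (L l2015 (T t33 N)))))))) (K a106 (M a768 (F (T t28 (L l3347 (T t29 (L l3347 (T t32 N))))))) (K a170 (M a768 (F (T t31 (L l3347 (T t29 (L l220 (L l3347 (T t30 N)))))))) (K a234 (M a768 (F (T t31 (L l3347 (T t32 (L l390 (L l2015 (L l3246 (T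 t33 N))))))))) (K a63 (M a768 (F (T t74 (L l3159 (T t35 (L l2209 (L l3347 (T t29 N)))))))) N)))))))))))))))⟩
def e0_255__773_9 : Ent 5 := ⟨[a0, a255], [a773, a187], (M a192 (F (T t19 (L l208 (T t23 (L l189 (T t22 (L l208 (T t24 (K a64 (M a240 (F (T t25 (L l144 (L l3347 (T t80 (L l208 (T t81 N)))))))) (K a128 (M a240 (F (T t140 (L l3347 (T t304 (L l192 (L l208 (L l220 (T t81 N))))))))) (K a85 (M a768 (F (T t28 (L l347 (L l2339 (L l3347 (T t29 (L l347 (L l2339 (L l3347 (T t30 N))))))))))) (K a149 (M a768 (F (T t31 (L l347 (L l3347 (T t29 (L l3347 (T t32 N)))))))) (K a213 (M a768 (F (T t31 (L l3203 (L l3347 (T t32 (L l208 (L l2015 (L l2709 (T t33 N)))))))))) (K a106 (M a768 (F (T t35 (L l3347 (T t29 (L l3347 (T t32 N))))))) (K a170 (M a768 (L l208 (F (T t31 (L l3347 (T t29 (L l220 (L l3347 (T t30 (K a136 (M a153 (F (T t35 (L l3347 (T t29 (L l2598 (L l2709 (T t36 N)))))))) (K a153 (M a136 (F (T t35 (L l2598 (L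 l2709 (T t180 N)))))) N))))))))))) (K a234 (M a768 (F (T t31 (L l3347 (T t32 (L l208 (L l390 (L l2015 (L l2709 (L l3246 (T t33 N))))))))))) (K a63 (M a768 (F (T t57 (L l2209 (L l3347 (T t29 (L l3073 (L l3347 (T t32 N))))))))) N))))))))))))))))))⟩
def e0_255__773_10 : Ent 5 := ⟨[a0, a255], [a773, a273], (M a204 (F (T t158 (T t184 (T t190 (L l2117 (T t191 (K a68 (M a192 (F (T t192 (L l126 (T t19 (L l126 (T t193 N))))))) (K a136 (M a192 (F (T t192 (T t19 (L l316 (T t193 N)))))) (K a85 (M a768 (F (T t340 (L l365 (L l2339 (L l3347 (T t686 (L l365 (L l2339 (L l3347 (T t687 N))))))))))) (K a153 (M a768 (F (T t346 (L l365 (L l3347 (T t686 (L l3347 (T t32 N)))))))) (K a221 (M a768 (F (T t340 (L l3227 (L l3347 (T t32 (L l365 (L l3227 (L l3347 (T t341 N)))))))))) (K a102 (M a768 (F (T t340 (L l3347 (T t686 (L l3347 (T t32 N))))))) (K a170 (M a768 (F (T t346 (L l3347 (T t686 (L l208 (L l3347 (T t687 N)))))))) (K a238 (M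 a768 (F (T t340 (L l3347 (T t32 (L l3347 (T t341 N))))))) (K a51 (M a341 (F (T t205 (L l2015 (T t99 N))))) N))))))))))))))))⟩
def e0_255__773_11 : Ent 5 := ⟨[a0, a255], [a773, a283], (M a192 (F (T t19 (T t23 (T t22 (T t24 (K a64 (M a240 (F (T t25 (L l144 (L l2257 (L l3347 (T t80 (T t81 N)))))))) (K a128 (M a240 (F (T t25 (L l2257 (L l3347 (T t80 (L l192 (L l220 (T t81 N))))))))) (K a85 (M a768 (F (T t28 (L l347 (L l2339 (L l3347 (T t29 (L l347 (L l2339 (L l3347 (T t30 N))))))))))) (K a149 (M a768 (F (T t31 (L l347 (L l3347 (T t29 (L l3347 (T t32 N)))))))) (K a213 (M a768 (F (T t31 (L l3203 (L l3347 (T t32 (L l2015 (T t33 N)))))))) (K a106 (M a768 (F (T t28 (L l3347 (T t29 (L l3347 (T t32 N))))))) (K a170 (M a768 (F (T t31 (L l3347 (T t29 (L l220 (L l3347 (T t30 N)))))))) (K a234 (M a768 (F (T t31 (L l3347 (T t32 (L l390 (L l2015 (L l3246 (T t33 N))))))))) (K a63 (M a768 (F (T t74 (L l3159 (T t35 (L l2209 (L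 l3347 (T t29 N)))))))) N)))))))))))))))⟩
def e0_255__773_12 : Ent 5 := ⟨[a0, a255], [a773, a290], (M a192 (F (T t19 (T t23 (T t22 (T t24 (K a64 (M a240 (F (T t26 (L l3347 (T t304 (T t81 N)))))) (K a128 (M a240 (F (T t140 (L l3347 (T t304 (L l192 (L l220 (T t81 N)))))))) (K a85 (M a768 (F (T t86 (L l347 (L l2339 (L l3347 (T t29 (L l347 (L l2339 (L l3347 (T t30 N))))))))))) (K a149 (M a768 (F (T t31 (L l347 (L l3347 (T t29 (L l3347 (T t32 N)))))))) (K a213 (M a768 (F (T t31 (L l3203 (L l3347 (T t32 (L l922 (L l2015 (T t33 N))))))))) (K a106 (M a768 (F (T t86 (L l3347 (T t29 (L l3347 (T t32 N))))))) (K a170 (M a768 (F (T t31 (L l3347 (T t29 (L l220 (L l3347 (T t30 N)))))))) (K a234 (M a768 (F (T t31 (L l3347 (T t32 (L l390 (L l922 (L l2015 (L l3246 (T t33 N)))))))))) (K a63 (M a768 (F (T t69 (L l2209 (L l3347 (T t29 (L l3073 (L l3347 (T t32 N))))))))) N)))))))))))))))⟩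
def e0_255__773_13 : Ent 5 := ⟨[a0, a255], [a773, a295], (M a192 (F (T t19 (T t23 (T t22 (T t24 (K a64 (M a240 (F (T t26 (L l3347 (T t304 (T t81 N)))))) (K a128 (M a240 (F (T t140 (L l3347 (T t304 (L l192 (L l220 (T t81 N)))))))) (K a85 (M a768 (F (T t28 (L l347 (L l2339 (L l3347 (T t29 (L l347 (L l2339 (L l3347 (T t30 N))))))))))) (K a149 (M a768 (F (T t31 (L l347 (L l3347 (T t29 (L l3347 (T t32 N)))))))) (K a213 (M a768 (F (T t31 (L l3203 (L l3347 (T t32 (L l2015 (T t33 N)))))))) (K a106 (M a768 (F (T t28 (L l3347 (T t29 (L l3347 (T t32 N))))))) (K a170 (M a768 (F (T t31 (L l3347 (T t29 (L l220 (L l3347 (T t30 N)))))))) (K a234 (M a768 (F (T t31 (L l3347 (T t32 (L l390 (L l2015 (L l3246 (T t33 N))))))))) (K a63 (M a768 (F (T t74 (L l3159 (T t35 (L l2209 (L l3347 (T t29 N)))))))) N)))))))))))))))⟩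
def e0_255__773_14 : Ent 5 := ⟨[a0, a255], [a773, a307], (M a192 (F (T t19 (T t23 (T t22 (T t24 (K a64 (M a240 (F (T t26 (L l3347 (T t304 (T t81 N)))))) (K a128 (M a240 (F (T t140 (L l3347 (T t304 (L l192 (L l220 (T t81 N)))))))) (K a85 (M a768 (F (T t86 (L l347 (L l2339 (L l3347 (T t29 (L l347 (L l2339 (L l3347 (T t30 N))))))))))) (K a149 (M a768 (F (T t31 (L l347 (L l3347 (T t29 (L l959 (L l3347 (T t32 N))))))))) (K a213 (M a768 (F (T t31 (L l959 (L l3203 (L l3347 (T t32 (L l2015 (T t33 N))))))))) (K a106 (M a768 (F (T t48 (L l1009 (T t35 (L l959 (L l3347 (T t32 N)))))))) (K a170 (M a768 (F (T t31 (L l3347 (T t29 (L l220 (L l3347 (T t30 N)))))))) (K a234 (M a768 (F (T t31 (L l959 (L l3347 (T t32 (L l390 (L l2015 (L l3246 (T t33 N)))))))))) (K a63 (M a768 (F (T t85 (L l1009 (L l3159 (T t35 (L l959 (L l3073 (L l3347 (T t32 N)))))))))) N)))))))))))))))⟩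
def e0_255__773_15 : Ent 5 := ⟨[a0, a255], [a773, a358], (M a192 (F (T t19 (T t23 (T t22 (T t24 (K a64 (M a240 (F (T t26 (L l3347 (T t304 (T t81 N)))))) (K a128 (M a240 (F (T t140 (L l3347 (T t304 (L l192 (L l220 (T t81 N)))))))) (K a85 (M a768 (F (T t28 (L l347 (L l2339 (L l2487 (L l3347 (T t29 (L l347 (L l2339 (L l2487 (L l3347 (T t30 N))))))))))))) (K a149 (M a768 (F (T t31 (L l347 (L l2487 (L l3347 (T t29 (L l2487 (L l3347 (T t32 N)))))))))) (K a213 (M a768 (F (T t31 (L l2487 (L l3203 (L l3347 (T t32 (L l922 (L l2015 (T t33 N)))))))))) (K a106 (M a768 (F (T t28 (L l2487 (L l3347 (T t29 (L l2487 (L l3347 (T t32 N))))))))) (K a170 (M a768 (F (T t31 (L l2487 (L l3347 (T t29 (L l220 (L l2487 (L l3347 (T t30 N)))))))))) (K a234 (M a768 (F (T t31 (L l2487 (L l3347 (T t32 (L l390 (L l922 (L l2015 (L l3246 (T t33 N))))))))))) (K a63 (M a768 (F (T t57 (L l2209 (L l2487 (L l3347 (T t29 (L l2487 (L l3073 (L l3347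 (T t32 N))))))))))) N)))))))))))))))⟩
def e0_255__773_16 : Ent 5 := ⟨[a0, a255], [a773, a370], (M a192 (F (T t19 (T t23 (T t22 (T t24 (K a64 (M a240 (F (T t26 (L l3347 (T t304 (T t81 N)))))) (K a128 (M a240 (F (T t140 (L l3347 (T t304 (L l192 (L l220 (T t81 N)))))))) (K a85 (M a768 (F (T t28 (L l347 (L l2339 (L l3347 (T t29 (L l347 (L l2339 (L l3347 (T t30 N))))))))))) (K a149 (M a768 (F (T t31 (L l347 (L l3347 (T t29 (L l3347 (T t32 N)))))))) (K a213 (M a768 (F (T t31 (L l3203 (L l3347 (T t32 (L l2015 (T t33 N)))))))) (K a106 (M a768 (F (T t28 (L l3347 (T t29 (L l3347 (T t32 N))))))) (K a170 (M a768 (F (T t31 (L l3347 (T t29 (L l220 (L l3347 (T t30 N)))))))) (K a234 (M a768 (F (T t31 (L l3347 (T t32 (L l390 (L l2015 (L l3246 (T t33 N))))))))) (K a63 (M a768 (F (T t74 (L l3159 (T t35 (L l2209 (L l3347 (T t29 N)))))))) N)))))))))))))))⟩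
def e0_255__773_17 : Ent 5 := ⟨[a0, a255], [a773, a375], (M a192 (F (T t19 (T t23 (T t22 (T t24 (K a64 (M a240 (F (T t26 (L l3347 (T t304 (T t81 N)))))) (K a128 (M a240 (F (T t140 (L l3347 (T t304 (L l192 (L l220 (T t81 N)))))))) (K a85 (M a768 (F (T t28 (L l347 (L l2339 (L l3347 (T t29 (L l347 (L l2339 (L l2431 (L l3347 (T t30 N)))))))))))) (K a149 (M a768 (F (T t31 (L l347 (L l3347 (T t29 (L l959 (L l3079 (L l3347 (T t32 N)))))))))) (K a213 (M a768 (F (T t31 (L l959 (L l3079 (L l3203 (L l3347 (T t32 (L l2015 (T t33 N)))))))))) (K a106 (M a768 (F (T t35 (L l3347 (T t29 (L l959 (L l3079 (L l3347 (T t32 N))))))))) (K a170 (M a768 (F (T t31 (L l3347 (T t29 (L l220 (L l2431 (L l3347 (T t30 N))))))))) (K a234 (M a768 (F (T t31 (L l959 (L l3079 (L l3347 (T t32 (L l390 (L l2015 (L l3246 (T t33 N))))))))))) (K a63 (M a768 (F (T t74 (L l3159 (T t35 (L l2209 (L l3347 (T t29 N)))))))) N)))))))))))))))⟩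
def e0_255__773_18 : Ent 5 := ⟨[a0, a255], [a773, a433], (M a192 (F (T t19 (T t23 (T t22 (T t24 (K a64 (M a240 (F (T t26 (L l3347 (T t304 (T t81 N)))))) (K a128 (M a240 (F (T t140 (L l3347 (T t304 (L l192 (L l220 (T t81 N)))))))) (K a85 (M a768 (F (T t28 (L l347 (L l2339 (L l3347 (T t29 (L l347 (L l2339 (L l3347 (T t30 N))))))))))) (K a149 (M a768 (F (T t31 (L l347 (L l3347 (T t29 (L l3347 (T t32 N)))))))) (K a213 (M a768 (F (T t31 (L l3203 (L l3347 (T t32 (L l2015 (T t33 N)))))))) (K a106 (M a768 (F (T t28 (L l3347 (T t29 (L l3347 (T t32 N))))))) (K a170 (M a768 (F (T t31 (L l3347 (T t29 (L l220 (L l3347 (T t30 N)))))))) (K a234 (M a768 (F (T t31 (L l3347 (T t32 (L l390 (L l2015 (L l3246 (T t33 N))))))))) (K a63 (M a768 (F (T t74 (L l3159 (T t35 (L l2209 (L l3347 (T t29 N)))))))) N)))))))))))))))⟩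
def e0_255__773_19 : Ent 5 := ⟨[a0, a255], [a773, a443], (M a192 (F (T t19 (T t23 (L l2653 (T t22 (T t24 (K a64 (M a240 (F (T t26 (L l3347 (T t304 (T t81 N)))))) (K a128 (M a240 (F (T t140 (L l3347 (T t304 (L l192 (L l220 (T t81 N)))))))) (K a85 (M a768 (F (T t28 (L l347 (L l2339 (L l3347 (T t29 (L l347 (L l2339 (L l3347 (T t30 N))))))))))) (K a149 (M a768 (F (T t31 (L l347 (L l3347 (T t29 (L l959 (L l3347 (T t32 N))))))))) (K a213 (M a768 (F (T t31 (L l959 (L l3203 (L l3347 (T t32 (L l728 (L l2015 (T t33 N)))))))))) (K a106 (M a768 (F (T t28 (L l3347 (T t29 (L l959 (L l3347 (T t32 N)))))))) (K a170 (M a768 (F (T t31 (L l3347 (T t29 (L l220 (L l3347 (T t30 N)))))))) (K a234 (M a768 (F (T t31 (L l959 (L l3347 (T t32 (L l390 (L l728 (L l2015 (L l3246 (T t33 N))))))))))) (K a63 (M a768 (F (T t57 (L l2209 (L l3347 (T t29 (L l959 (L l3073 (L l3347 (T t32 N)))))))))) N))))))))))))))))⟩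
def e0_255__773_20 : Ent 5 := ⟨[a0, a255], [a773, a529], (M a192 (F (T t19 (T t23 (T t22 (T t24 (K a64 (M a240 (F (T t26 (L l3347 (T t304 (T t81 N)))))) (K a128 (M a240 (F (T t140 (L l3347 (T t304 (L l192 (L l220 (T t81 N)))))))) (K a85 (M a768 (F (T t28 (L l347 (L l1405 (L l2339 (L l3347 (T t29 (L l347 (L l1405 (L l2339 (L l3347 (T t30 N))))))))))))) (K a149 (M a768 (F (T t31 (L l347 (L l1405 (L l3347 (T t29 (L l1084 (L l1405 (L l3347 (T t32 N))))))))))) (K a213 (M a768 (F (T t31 (L l1084 (L l1405 (L l3203 (L l3347 (T t32 (L l2015 (T t33 N)))))))))) (K a106 (M a768 (F (T t28 (L l1405 (L l3347 (T t29 (L l1084 (L l1405 (L l3347 (T t32 N)))))))))) (K a170 (M a768 (F (T t31 (L l1405 (L l3347 (T t29 (L l220 (L l1405 (L l3347 (T t30 N)))))))))) (K a234 (M a768 (F (T t31 (L l1084 (L l1405 (L l3347 (T t32 (L l390 (L l2015 (L l3246 (T t33 N))))))))))) (K a63 (M a768 (F (T t74 (L l1084 (L l3159 (T t35 (L l1405 (L l2209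 (L l3347 (T t29 N)))))))))) N)))))))))))))))⟩
def e0_255__773_21 : Ent 5 := ⟨[a0, a255], [a773, a539], (M a192 (F (T t19 (T t23 (T t22 (T t24 (K a64 (M a240 (F (T t26 (L l3347 (T t304 (T t81 N)))))) (K a128 (M a240 (F (T t140 (L l3347 (T t304 (L l192 (L l220 (T t81 N)))))))) (K a85 (M a768 (F (T t28 (L l347 (L l2339 (L l3347 (T t29 (L l347 (L l2339 (L l3347 (T t30 N))))))))))) (K a149 (M a768 (F (T t31 (L l347 (L l3347 (T t29 (L l3347 (T t32 N)))))))) (K a213 (M a768 (F (T t31 (L l3203 (L l3347 (T t32 (L l2015 (T t33 N)))))))) (K a106 (M a768 (F (T t28 (L l3347 (T t29 (L l3347 (T t32 N))))))) (K a170 (M a768 (F (T t31 (L l3347 (T t29 (L l220 (L l3347 (T t30 N)))))))) (K a234 (M a768 (F (T t31 (L l3347 (T t32 (L l390 (L l2015 (L l3246 (T t33 N))))))))) (K a63 (M a768 (F (T t74 (L l3159 (T t35 (L l2209 (L l3347 (T t29 N)))))))) N)))))))))))))))⟩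
def e0_255__773_22 : Ent 5 := ⟨[a0, a255], [a773, a546], (M a192 (F (T t19 (T t23 (T t22 (T t24 (K a64 (M a240 (F (T t26 (L l3347 (T t304 (T t81 N)))))) (K a128 (M a240 (F (T t140 (L l3347 (T t304 (L l192 (L l220 (T t81 N)))))))) (K a85 (M a768 (F (T t28 (L l347 (L l2339 (L l3347 (T t29 (L l347 (L l2339 (L l3347 (T t30 N))))))))))) (K a149 (M a768 (F (T t31 (L l347 (L l3347 (T t29 (L l1084 (L l3347 (T t32 N))))))))) (K a213 (M a768 (F (T t31 (L l1084 (L l3203 (L l3347 (T t32 (L l2015 (T t33 N))))))))) (K a106 (M a768 (F (T t28 (L l3347 (T t29 (L l1084 (L l3347 (T t32 N)))))))) (K a170 (M a768 (F (T t31 (L l3347 (T t29 (L l220 (L l3347 (T t30 N)))))))) (K a234 (M a768 (F (T t31 (L l1084 (L l3347 (T t32 (L l390 (L l2015 (L l3246 (T t33 N)))))))))) (K a63 (M a768 (F (T t74 (L l1084 (L l3159 (T t35 (L l2209 (L l3347 (T t29 N))))))))) N)))))))))))))))⟩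
def e0_255__773_23 : Ent 5 := ⟨[a0, a255], [a773, a551], (M a192 (F (T t19 (T t23 (T t22 (T t24 (K a64 (M a240 (F (T t25 (L l144 (L l2257 (L l3347 (T t80 (T t81 N)))))))) (K a128 (M a240 (F (T t25 (L l2257 (L l3347 (T t80 (L l192 (L l220 (T t81 N))))))))) (K a85 (M a768 (F (T t28 (L l347 (L l2339 (L l3347 (T t29 (L l347 (L l2339 (L l3347 (T t30 N))))))))))) (K a149 (M a768 (F (T t31 (L l347 (L l3347 (T t29 (L l3347 (T t32 N)))))))) (K a213 (M a768 (F (T t31 (L l3203 (L l3347 (T t32 (L l2015 (T t33 N)))))))) (K a106 (M a768 (F (T t28 (L l3347 (T t29 (L l3347 (T t32 N))))))) (K a170 (M a768 (F (T t31 (L l3347 (T t29 (L l220 (L l3347 (T t30 N)))))))) (K a234 (M a768 (F (T t31 (L l3347 (T t32 (L l390 (L l2015 (L l3246 (T t33 N))))))))) (K a63 (M a768 (F (T t74 (L l3159 (T t35 (L l2209 (L l3347 (T t29 N)))))))) N)))))))))))))))⟩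
def e0_255__773_24 : Ent 5 := ⟨[a0, a255], [a773, a563], (M a192 (F (T t19 (T t23 (T t22 (T t24 (K a64 (M a240 (F (T t26 (L l3347 (T t304 (T t81 N)))))) (K a128 (M a240 (F (T t140 (L l3347 (T t304 (L l192 (L l220 (T t81 N)))))))) (K a85 (M a768 (F (T t86 (L l347 (L l2339 (L l3347 (T t29 (L l347 (L l2339 (L l3347 (T t30 N))))))))))) (K a149 (M a768 (F (T t31 (L l347 (L l3347 (T t29 (L l1084 (L l3347 (T t32 N))))))))) (K a213 (M a768 (F (T t31 (L l1084 (L l3203 (L l3347 (T t32 (L l2015 (T t33 N))))))))) (K a106 (M a768 (F (T t86 (L l3347 (T t29 (L l1084 (L l3347 (T t32 N)))))))) (K a170 (M a768 (F (T t31 (L l3347 (T t29 (L l220 (L l3347 (T t30 N)))))))) (K a234 (M a768 (F (T t31 (L l1084 (L l3347 (T t32 (L l390 (L l2015 (L l3246 (T t33 N)))))))))) (K a63 (M a768 (F (T t85 (L l1084 (L l3159 (T t35 (L l1084 (L l3073 (L l3347 (T t32 N)))))))))) N)))))))))))))))⟩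
def e0_255__773_25 : Ent 5 := ⟨[a0, a255], [a773, a614], (M a192 (F (T t19 (T t23 (T t22 (T t24 (K a64 (M a240 (F (T t26 (L l3347 (T t304 (T t81 N)))))) (K a128 (M a240 (F (T t140 (L l3347 (T t304 (L l192 (L l220 (T t81 N)))))))) (K a85 (M a768 (F (T t28 (L l347 (L l1166 (L l2339 (L l3347 (T t29 (L l347 (L l1166 (L l2339 (L l3347 (T t30 N))))))))))))) (K a149 (M a768 (F (T t31 (L l347 (L l1166 (L l3347 (T t29 (L l1166 (L l3347 (T t32 N)))))))))) (K a213 (M a768 (F (T t31 (L l1166 (L l3203 (L l3347 (T t32 (L l2015 (L l3264 (T t33 N)))))))))) (K a106 (M a768 (F (T t28 (L l1166 (L l3347 (T t29 (L l1166 (L l3347 (T t32 N))))))))) (K a170 (M a768 (F (T t31 (L l1166 (L l3347 (T t29 (L l220 (L l1166 (L l3347 (T t30 N)))))))))) (K a234 (M a768 (F (T t31 (L l1166 (L l3347 (T t32 (L l390 (L l2015 (L l3246 (L l3264 (T t33 N))))))))))) (K a63 (M a768 (F (T t57 (L l1166 (L l2209 (L l3347 (T t29 (L l1166 (L l3073 (L l3347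 (T t32 N))))))))))) N)))))))))))))))⟩
def e0_255__773_26 : Ent 5 := ⟨[a0, a255], [a773, a626], (M a192 (F (T t19 (T t23 (T t22 (T t24 (K a64 (M a240 (F (T t26 (L l3347 (T t304 (T t81 N)))))) (K a128 (M a240 (F (T t140 (L l3347 (T t304 (L l192 (L l220 (T t81 N)))))))) (K a85 (M a768 (F (T t28 (L l347 (L l2339 (L l3347 (T t29 (L l347 (L l2339 (L l3347 (T t30 N))))))))))) (K a149 (M a768 (F (T t31 (L l347 (L l3347 (T t29 (L l3347 (T t32 N)))))))) (K a213 (M a768 (F (T t31 (L l3203 (L l3347 (T t32 (L l2015 (T t33 N)))))))) (K a106 (M a768 (F (T t28 (L l3347 (T t29 (L l3347 (T t32 N))))))) (K a170 (M a768 (F (T t31 (L l3347 (T t29 (L l220 (L l3347 (T t30 N)))))))) (K a234 (M a768 (F (T t31 (L l3347 (T t32 (L l390 (L l2015 (L l3246 (T t33 N))))))))) (K a63 (M a768 (F (T t74 (L l3159 (T t35 (L l2209 (L l3347 (T t29 N)))))))) N)))))))))))))))⟩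
def e0_255__773_27 : Ent 5 := ⟨[a0, a255], [a773, a631], (M a204 (F (T t158 (T t184 (L l2413 (T t190 (T t191 (K a68 (M a192 (F (T t192 (L l126 (T t19 (L l126 (T t193 N))))))) (K a136 (M a192 (F (T t192 (T t19 (L l316 (T t193 N)))))) (K a85 (M a768 (F (T t340 (L l365 (L l1166 (L l2339 (L l3347 (T t686 (L l126 (T t724 N)))))))))) (K a153 (M a768 (F (T t694 (L l365 (L l1166 (L l3347 (T t686 (L l1479 (T t40 N))))))))) (K a221 (M a768 (F (T t340 (L l1479 (T t40 (L l365 (L l1166 (L l3227 (L l3347 (T t725 N)))))))))) (K a102 (M a768 (F (T t340 (L l1166 (L l3347 (T t686 (L l1479 (T t40 N)))))))) (K a170 (M a768 (F (T t694 (L l1166 (L l3347 (T t686 (L l402 (L l2598 (T t724 N))))))))) (K a238 (M a768 (F (T t340 (L l1479 (L l3264 (T t40 (L l1166 (L l3347 (T t725 N))))))))) (K a51 (M a597 (F (T t726 (L l2015 (T t727 N))))) N))))))))))))))))⟩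
def e0_255__773_28 : Ent 5 := ⟨[a0, a255], [a773, a689], (M a192 (F (T t19 (T t23 (T t22 (T t24 (K a64 (M a240 (F (T t26 (L l3347 (T t304 (T t81 N)))))) (K a128 (M a240 (F (T t140 (L l3347 (T t304 (L l192 (L l220 (T t81 N)))))))) (K a85 (M a768 (F (T t28 (L l347 (L l2339 (L l3347 (T t29 (L l347 (L l2339 (L l3347 (T t30 N))))))))))) (K a149 (M a768 (F (T t31 (L l347 (L l3347 (T t29 (L l3347 (T t32 N)))))))) (K a213 (M a768 (F (T t31 (L l3203 (L l3347 (T t32 (L l2015 (T t33 N)))))))) (K a106 (M a768 (F (T t28 (L l3347 (T t29 (L l3347 (T t32 N))))))) (K a170 (M a768 (F (T t31 (L l3347 (T t29 (L l220 (L l3347 (T t30 N)))))))) (K a234 (M a768 (F (T t31 (L l3347 (T t32 (L l390 (L l2015 (L l3246 (T t33 N))))))))) (K a63 (M a768 (F (T t74 (L l3159 (T t35 (L l2209 (L l3347 (T t29 N)))))))) N)))))))))))))))⟩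
def e0_255__773_29 : Ent 5 := ⟨[a0, a255], [a773, a699], (M a192 (F (T t19 (T t23 (T t22 (T t24 (K a64 (M a240 (F (T t26 (L l3347 (T t304 (T t81 N)))))) (K a128 (M a240 (F (T t140 (L l3347 (T t304 (L l192 (L l220 (T t81 N)))))))) (K a85 (M a768 (F (T t28 (L l347 (L l2339 (L l3347 (T t29 (L l347 (L l2339 (L l3347 (T t30 N))))))))))) (K a149 (M a768 (F (T t31 (L l347 (L l3347 (T t29 (L l3079 (L l3347 (T t32 N))))))))) (K a213 (M a768 (F (T t31 (L l3079 (L l3203 (L l3347 (T t32 (L l2015 (T t33 N))))))))) (K a106 (M a768 (F (T t35 (L l3347 (T t29 (L l3079 (L l3347 (T t32 N)))))))) (K a170 (M a768 (F (T t31 (L l3347 (T t29 (L l220 (L l3347 (T t30 N)))))))) (K a234 (M a768 (F (T t31 (L l3079 (L l3347 (T t32 (L l390 (L l2015 (L l3246 (T t33 N)))))))))) (K a63 (M a768 (F (T t57 (L l2209 (L l3347 (T t29 (L l3073 (L l3079 (L l3347 (T t32 N)))))))))) N)))))))))))))))⟩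
def e0_255__773_30 : Ent 5 := ⟨[a0, a255], [a773, a785], (M a192 (F (T t19 (T t23 (T t22 (T t24 (K a64 (M a240 (F (T t26 (L l3347 (T t304 (T t81 N)))))) (K a128 (M a240 (F (T t140 (L l3347 (T t304 (L l192 (L l220 (T t81 N)))))))) (K a85 (M a768 (F (T t28 (L l347 (L l2339 (L l3227 (L l3347 (T t29 (L l347 (L l2339 (L l3227 (L l3347 (T t30 N))))))))))))) (K a149 (M a768 (F (T t31 (L l347 (L l3227 (L l3347 (T t29 (L l3227 (L l3347 (T t32 N)))))))))) (K a213 (M a768 (F (T t31 (L l3203 (L l3227 (L l3347 (T t32 (L l1925 (L l2015 (T t33 N)))))))))) (K a106 (M a768 (F (T t28 (L l3227 (L l3347 (T t29 (L l3227 (L l3347 (T t32 N))))))))) (K a170 (M a768 (F (T t31 (L l3227 (L l3347 (T t29 (L l220 (L l3227 (L l3347 (T t30 N)))))))))) (K a234 (M a768 (F (T t31 (L l3227 (L l3347 (T t32 (L l390 (L l1925 (L l2015 (L l3246 (T t33 N))))))))))) (K a63 (M a768 (F (T t74 (L l3159 (T t35 (L l2209 (L l3227 (L l3347 (T t29 N)))))))))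 N)))))))))))))))⟩
def e0_255__773_31 : Ent 5 := ⟨[a0, a255], [a773, a795], (M a192 (F (T t19 (T t23 (T t22 (T t24 (K a64 (M a240 (F (T t26 (L l3347 (T t304 (T t81 N)))))) (K a128 (M a240 (F (T t140 (L l3347 (T t304 (L l192 (L l220 (T t81 N)))))))) (K a85 (M a768 (F (T t28 (L l347 (L l2339 (L l3347 (T t29 (L l347 (L l2339 (L l3347 (T t30 N))))))))))) (K a149 (M a768 (F (T t31 (L l347 (L l3347 (T t29 (L l3347 (T t32 N)))))))) (K a213 (M a768 (F (T t31 (L l3203 (L l3347 (T t32 (L l2015 (T t33 N)))))))) (K a106 (M a768 (F (T t28 (L l3347 (T t29 (L l3347 (T t32 N))))))) (K a170 (M a768 (F (T t31 (L l3347 (T t29 (L l220 (L l3347 (T t30 N)))))))) (K a234 (M a768 (F (T t31 (L l3347 (T t32 (L l390 (L l2015 (L l3246 (T t33 N))))))))) (K a63 (M a768 (F (T t74 (L l3159 (T t35 (L l2209 (L l3347 (T t29 N)))))))) N)))))))))))))))⟩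
def e0_255__773_32 : Ent 5 := ⟨[a0, a255], [a773, a802], (M a192 (F (T t19 (T t23 (T t22 (T t24 (K a64 (M a240 (F (T t26 (L l3347 (T t304 (T t81 N)))))) (K a128 (M a240 (F (T t140 (L l3347 (T t304 (L l192 (L l220 (T t81 N)))))))) (K a85 (M a768 (F (T t28 (L l347 (L l1586 (L l2339 (L l3347 (T t29 (L l347 (L l1586 (L l2339 (L l3347 (T t30 N))))))))))))) (K a149 (M a768 (F (T t31 (L l347 (L l1586 (L l3347 (T t29 (L l3347 (T t32 N))))))))) (K a213 (M a768 (F (T t31 (L l3203 (L l3347 (T t32 (L l2015 (L l3264 (T t33 N))))))))) (K a106 (M a768 (F (T t28 (L l1586 (L l3347 (T t29 (L l3347 (T t32 N)))))))) (K a170 (M a768 (F (T t31 (L l1586 (L l3347 (T t29 (L l220 (L l1586 (L l3347 (T t30 N)))))))))) (K a234 (M a768 (F (T t31 (L l3347 (T t32 (L l390 (L l2015 (L l3246 (L l3264 (T t33 N)))))))))) (K a63 (M a768 (F (T t57 (L l1586 (L l2209 (L l3347 (T t29 (L l3073 (L l3347 (T t32 N)))))))))) N)))))))))))))))⟩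
def e0_255__773_33 : Ent 5 := ⟨[a0, a255], [a773, a807], (M a192 (F (T t19 (T t23 (T t22 (T t24 (K a64 (M a240 (F (T t26 (L l3347 (T t304 (T t81 N)))))) (K a128 (M a240 (F (T t140 (L l3347 (T t304 (L l192 (L l220 (T t81 N)))))))) (K a85 (M a768 (F (T t28 (L l347 (L l2339 (L l3347 (T t29 (L l347 (L l2339 (L l3347 (T t30 N))))))))))) (K a149 (M a768 (F (T t31 (L l347 (L l3347 (T t29 (L l3347 (T t32 N)))))))) (K a213 (M a768 (F (T t31 (L l3203 (L l3347 (T t32 (L l2015 (T t33 N)))))))) (K a106 (M a768 (F (T t28 (L l3347 (T t29 (L l3347 (T t32 N))))))) (K a170 (M a768 (F (T t31 (L l3347 (T t29 (L l220 (L l3347 (T t30 N)))))))) (K a234 (M a768 (F (T t31 (L l3347 (T t32 (L l390 (L l2015 (L l3246 (T t33 N))))))))) (K a63 (M a768 (F (T t74 (L l3159 (T t35 (L l2209 (L l3347 (T t29 N)))))))) N)))))))))))))))⟩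
def e0_255__773_34 : Ent 5 := ⟨[a0, a255], [a773, a819], (M a192 (F (T t46 (L l2221 (T t19 (L l2221 (T t23 (L l2221 (T t22 (L l2221 (T t24 (K a64 (M a240 (F (T t84 (L l144 (L l2257 (L l3347 (T t80 (T t81 N)))))))) (K a128 (M a240 (F (T t84 (L l2257 (L l3347 (T t80 (L l192 (L l220 (T t81 N))))))))) (K a85 (M a768 (F (T t85 (L l2049 (T t35 (L l347 (L l2339 (L l3347 (T t30 N))))))))) (K a149 (M a768 (F (T t85 (L l2049 (T t35 (L l1999 (L l3347 (T t32 N)))))))) (K a213 (M a768 (F (T t62 (L l1999 (L l3203 (L l3347 (T t32 (L l2015 (T t33 N))))))))) (K a106 (M a768 (F (T t57 (L l1597 (L l3347 (T t29 (L l1999 (L l3347 (T t32 N))))))))) (K a170 (M a768 (F (T t69 (L l1597 (L l3347 (T t29 (L l220 (L l3347 (T t30 N))))))))) (K a234 (M a768 (F (T t57 (L l1999 (L l3347 (T t32 (L l390 (L l2015 (L l3246 (T t33 N)))))))))) (K a63 (M a768 (L l2221 (F (T t74 (L l2049 (L l3159 (T t35 (L l1597 (L l2209 (L l3347 (T t29 (K a567 (M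 a315 (F (T t74 (L l1597 (L l2209 (T t48 (L l2049 (L l3159 (T t86 N))))))))) (K a315 (M a567 (F (T t74 (L l1597 (L l2209 (T t48 (L l2049 (L l3159 (T t86 N))))))))) N))))))))))))) N))))))))))))))))))))⟩
def e0_255__773_35 : Ent 5 := ⟨[a0, a255], [a773, a870], (M a192 (F (T t19 (T t23 (T t22 (T t24 (K a64 (M a240 (F (T t26 (L l3347 (T t304 (T t81 N)))))) (K a128 (M a240 (F (T t140 (L l3347 (T t304 (L l192 (L l220 (T t81 N)))))))) (K a85 (M a768 (F (T t28 (L l347 (L l2339 (L l3347 (T t29 (L l347 (L l2339 (L l3347 (T t30 N))))))))))) (K a149 (M a768 (F (T t31 (L l347 (L l3347 (T t29 (L l3347 (T t32 N)))))))) (K a213 (M a768 (F (T t31 (L l3203 (L l3347 (T t32 (L l1686 (L l2015 (T t33 N))))))))) (K a106 (M a768 (F (T t35 (L l3347 (T t29 (L l3347 (T t32 N))))))) (K a170 (M a768 (F (T t31 (L l3347 (T t29 (L l220 (L l3347 (T t30 N)))))))) (K a234 (M a768 (F (T t31 (L l3347 (T t32 (L l390 (L l1686 (L l2015 (L l3246 (T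 t33 N)))))))))) (K a63 (M a768 (F (T t74 (L l3159 (T t35 (L l2209 (L l3347 (T t29 N)))))))) N)))))))))))))))⟩
def e0_255__773_36 : Ent 5 := ⟨[a0, a255], [a773, a882], (M a192 (F (T t19 (T t23 (T t22 (T t24 (K a64 (M a240 (F (T t26 (L l3347 (T t304 (T t81 N)))))) (K a128 (M a240 (F (T t140 (L l3347 (T t304 (L l192 (L l220 (T t81 N)))))))) (K a85 (M a768 (F (T t28 (L l347 (L l2339 (L l3347 (T t29 (L l347 (L l2339 (L l3347 (T t30 N))))))))))) (K a149 (M a768 (F (T t31 (L l347 (L l3347 (T t29 (L l3347 (T t32 N)))))))) (K a213 (M a768 (F (T t31 (L l3203 (L l3347 (T t32 (L l2015 (T t33 N)))))))) (K a106 (M a768 (F (T t28 (L l3347 (T t29 (L l3347 (T t32 N))))))) (K a170 (M a768 (F (T t31 (L l3347 (T t29 (L l220 (L l3347 (T t30 N)))))))) (K a234 (M a768 (F (T t31 (L l3347 (T t32 (L l390 (L l2015 (L l3246 (T t33 N))))))))) (K a63 (M a768 (F (T t74 (L l3159 (T t35 (L l2209 (L l3347 (T t29 N)))))))) N)))))))))))))))⟩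
def e0_255__773_37 : Ent 5 := ⟨[a0, a255], [a773, a887], (M a192 (F (T t19 (T t23 (T t22 (T t24 (K a64 (M a240 (F (T t26 (L l3347 (T t304 (T t81 N)))))) (K a128 (M a240 (F (T t140 (L l3347 (T t304 (L l192 (L l220 (T t81 N)))))))) (K a85 (M a768 (F (T t28 (L l347 (L l2339 (L l3347 (T t29 (L l347 (L l1673 (L l2339 (L l3347 (T t30 N)))))))))))) (K a149 (M a768 (F (T t31 (L l347 (L l3347 (T t29 (L l1999 (L l3347 (T t32 N))))))))) (K a213 (M a768 (F (T t31 (L l1999 (L l3203 (L l3347 (T t32 (L l1686 (L l2015 (T t33 N)))))))))) (K a106 (M a768 (F (T t35 (L l3347 (T t29 (L l1999 (L l3347 (T t32 N)))))))) (K a170 (M a768 (F (T t31 (L l3347 (T t29 (L l220 (L l1673 (L l3347 (T t30 N))))))))) (K a234 (M a768 (F (T t31 (L l1999 (L l3347 (T t32 (L l390 (L l1686 (L l2015 (L l3246 (T t33 N))))))))))) (K a63 (M a768 (F (T t74 (L l3159 (T t35 (L l2209 (L l3347 (T t29 N)))))))) N)))))))))))))))⟩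
def e0_255__773_38 : Ent 5 := ⟨[a0, a255], [a773, a945], (M a192 (F (T t19 (T t23 (T t22 (T t24 (K a64 (M a240 (F (T t26 (L l3347 (T t304 (T t81 N)))))) (K a128 (M a240 (F (T t140 (L l3347 (T t304 (L l192 (L l220 (T t81 N)))))))) (K a85 (M a768 (F (T t28 (L l347 (L l2339 (L l3347 (T t29 (L l347 (L l2339 (L l3347 (T t30 N))))))))))) (K a149 (M a768 (F (T t31 (L l347 (L l3347 (T t29 (L l3347 (T t32 N)))))))) (K a213 (M a768 (F (T t31 (L l3203 (L l3347 (T t32 (L l2015 (T t33 N)))))))) (K a106 (M a768 (F (T t28 (L l3347 (T t29 (L l3347 (T t32 N))))))) (K a170 (M a768 (F (T t31 (L l3347 (T t29 (L l220 (L l3347 (T t30 N)))))))) (K a234 (M a768 (F (T t31 (L l3347 (T t32 (L l390 (L l2015 (L l3246 (T t33 N))))))))) (K a63 (M a768 (F (T t74 (L l3159 (T t35 (L l2209 (L l3347 (T t29 N)))))))) N)))))))))))))))⟩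
def e0_255__773_39 : Ent 5 := ⟨[a0, a255], [a773, a955], (M a204 (F (T t184 (L l2635 (T t158 (L l2672 (T t190 (T t191 (K a68 (M a192 (F (T t192 (L l126 (T t19 (L l126 (T t193 N))))))) (K a136 (M a682 (F (T t728 (T t328 (L l1768 (T t329 N)))))) (K a85 (M a768 (F (T t346 (L l365 (L l1999 (L l2339 (L l3347 (T t686 (L l365 (L l1999 (L l2339 (L l2672 (L l3347 (T t687 N)))))))))))))) (K a153 (M a768 (F (T t346 (L l365 (L l1999 (L l3347 (T t686 (L l1999 (L l3347 (T t32 N)))))))))) (K a221 (M a768 (F (T t346 (L l1999 (L l3227 (L l3347 (T t32 (L l2015 (T t729 N))))))))) (K a102 (M a768 (F (T t346 (L l1999 (L l3347 (T t686 (L l1999 (L l3347 (T t32 N))))))))) (K a170 (M a768 (F (T t346 (L l1999 (L l3347 (T t686 (L l208 (L l1999 (L l2672 (L l3347 (T t687 N))))))))))) (K a238 (M a768 (F (T t346 (L l1999 (L l3347 (T t32 (L l402 (L l2015 (L l3264 (T t729 N)))))))))) (K a51 (M a597 (F (T t726 (L l2015 (T t727 N))))) N)))))))))))))))))⟩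
def b0_255__773 : Blk 5 := ⟨[0, 255], [773], [17, 27, 34, 39, 51, 102, 114, 119, 177, 187, 273, 283, 290, 295, 307, 358, 370, 375, 433, 443, 529, 539, 546, 551, 563, 614, 626, 631, 689, 699, 785, 795, 802, 807, 819, 870, 882, 887, 945, 955], [e0_255__773_0, e0_255__773_1, e0_255__773_2, e0_255__773_3, e0_255__773_4, e0_255__773_5, e0_255__773_6, e0_255__773_7, e0_255__773_8, e0_255__773_9, e0_255__773_10, e0_255__773_11, e0_255__773_12, e0_255__773_13, e0_255__773_14, e0_255__773_15, e0_255__773_16, e0_255__773_17, e0_255__773_18, e0_255__773_19, e0_255__773_20, e0_255__773_21, e0_255__773_22, e0_255__773_23, e0_255__773_24, e0_255__773_25, e0_255__773_26, e0_255__773_27, e0_255__773_28, e0_255__773_29, e0_255__773_30, e0_255__773_31, e0_255__773_32, e0_255__773_33, e0_255__773_34, e0_255__773_35, e0_255__773_36, e0_255__773_37, e0_255__773_38, e0_255__773_39], by decide +kernel, by decide +kernel⟩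

end Pool.Agent.Lib_TTT.K5
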