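import Pool.Agent.Lib_TTT.K5Base
import Pool.Agent.Lib_TTT.K5T00
import Pool.Agent.Lib_TTT.K5T01

/-! Certificates in `4^5`. -/

set_option autoImplicit false
set_option maxRecDepth 200000

namespace Pool.Agent.Lib_TTT.K5

open Lib_TTT AC DC

def e0_255__783_0 : Ent 5 := ⟨[a0, a255], [a783, a17], (M a192 (F (T t47 (L l365 (L l2281 (T t19 (L l15 (L l2281 (T t23 (L l365 (L l2281 (T t22 (L l2281 (T t24 (K a64 (M a240 (F (T t84 (L l144 (L l365 (L l2101 (T t80 (L l15 (T t81 N))))))))) (K a128 (M a240 (F (T t84 (L l365 (L l2101 (T t80 (L l15 (L l192 (L l220 (T t81 N)))))))))) (K a85 (M a768 (L l365 (F (T t85 (L l1899 (T t35 (L l347 (L l2339 (T t30 (K a153 (M a221 (F (T t85 (L l126 (L l1887 (T t672 N)))))) (K a221 (M a153 (F (T t401 (L l243 (L l347 (L l1621 (L l2339 (L l3227 (T t29 (L l144 (T t36 N))))))))))) N))))))))))) (K a149 (M a768 (F (T t85 (L l1899 (T t35 (L l2029 (T t32 N))))))) (K a213 (M a768 (F (T t62 (L l2029 (L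 l3203 (T t32 (T t33 N))))))) (K a106 (M a768 (F (T t42 (L l1899 (T t35 (L l2029 (T t32 N))))))) (K a170 (M a768 (F (T t42 (L l1899 (T t35 (L l220 (T t30 N))))))) (K a234 (M a768 (F (T t57 (L l2029 (T t32 (L l390 (L l3246 (T t33 N)))))))) (K a63 (M a768 (L l2281 (F (T t43 (L l1899 (L l3159 (T t35 (L l2029 (L l3073 (T t32 (K a543 (M a303 (F (T t74 (L l1621 (L l2209 (T t48 (L l1899 (L l3159 (T t86 N))))))))) (K a303 (M a543 (F (T t74 (L l1621 (L l2209 (T t48 (L l1899 (L l3159 (T t86 N))))))))) N)))))))))))) N)))))))))))))))))))))))⟩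
def e0_255__783_1 : Ent 5 := ⟨[a0, a255], [a783, a27], (M a192 (F (T t46 (L l2281 (T t19 (L l2281 (T t23 (L l2281 (T t22 (L l2281 (T t24 (K a64 (M a240 (F (T t84 (L l73 (L l144 (L l2101 (T t80 (T t81 N)))))))) (K a128 (M a240 (F (T t84 (L l73 (L l2101 (T t80 (L l192 (L l220 (T t81 N))))))))) (K a85 (M a768 (F (T t85 (L l1899 (T t35 (L l347 (L l2339 (T t30 N)))))))) (K a149 (M a768 (F (T t49 (L l1899 (T t35 (L l2029 (T t32 N))))))) (K a213 (M a768 (F (T t62 (L l2029 (L l3203 (T t32 (T t33 N))))))) (K a106 (M a768 (F (T t43 (L l1899 (T t35 (L l2029 (T t32 N))))))) (K a170 (M a768 (F (T t42 (L l1899 (T t35 (L l220 (T t30 N))))))) (K a234 (M a768 (F (T t37 (L l1899 (T t35 (L l390 (L l3246 (T t33 N)))))))) (K a63 (M a768 (L l2281 (F (T t38 (L l1899 (L l3159 (T t35 (L l1621 (L l2209 (T t29 (K a543 (M a303 (F (T t74 (L l1621 (L l2209 (T t48 (L l1899 (L l3159 (T t86 N))))))))) (K a303 (M a543 (F (T t74 (L l1621 (L l2209 (T t48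 (L l1899 (L l3159 (T t86 N))))))))) N)))))))))))) N))))))))))))))))))))⟩
def e0_255__783_2 : Ent 5 := ⟨[a0, a255], [a783, a51], (M a48 (L l2287 (F (T t404 (L l511 (L l3181 (T t136 (L l511 (L l3181 (T t137 (L l511 (L l3181 (T t135 (L l511 (L l3181 (T t138 (K a16 (M a240 (L l2287 (F (T t405 (L l73 (L l340 (L l368 (L l2101 (T t140 (T t141 (K a295 (M a539 (F (T t673 (L l37 (L l2281 (T t674 (L l340 (L l368 (T t208 N))))))))) (K a539 (M a295 (F (T t673 (L l37 (L l2281 (T t674 (L l340 (L l368 (T t208 N))))))))) N)))))))))))) (K a32 (M a240 (L l2287 (F (T t405 (L l73 (L l2101 (T t140 (L l376 (L l404 (T t141 (K a295 (M a539 (F (T t405 (L l73 (L l404 (L l2101 (T t207 (T t208 N)))))))) (K a539 (M a295 (F (T t405 (L l73 (L l404 (L l2101 (T t207 (T t208 N)))))))) N)))))))))))) (K a85 (M a768 (L l2287 (F (T t229 (L l1635 (L l2193 (T t148 (L l123 (L l2339 (T t144 (K a295 (M a539 (F (T t516 (L l1885 (L l3151 (T t225 (L l123 (L l2339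 (T t144 N))))))))) (K a539 (M a295 (F (T t516 (L l1885 (L l3151 (T t225 (L l123 (L l2339 (T t144 N))))))))) N)))))))))))) (K a101 (M a768 (L l2287 (F (T t229 (L l1635 (L l2193 (T t148 (L l2029 (L l3079 (T t32 (K a295 (M a539 (F (T t229 (L l404 (L l1635 (L l2193 (T t215 (L l123 (L l2029 (L l3079 (T t39 N))))))))))) (K a539 (M a295 (F (T t229 (L l404 (L l1635 (L l2193 (T t215 (L l123 (L l2029 (L l3079 (T t39 N))))))))))) N)))))))))))) (K a117 (M a768 (L l2287 (F (T t83 (L l1635 (L l2193 (T t148 (T t146 (K a295 (M a539 (F (T t83 (L l1635 (L l2193 (T t215 (L l123 (L l2483 (T t675 N))))))))) (K a539 (M a295 (F (T t83 (L l1635 (L l2193 (T t215 (L l123 (L l2483 (T t675 N))))))))) N)))))))))) (K a154 (M a768 (L l2287 (F (T t410 (L l1635 (L l2193 (T t148 (L l2029 (L l3079 (T t32 (K a295 (M a539 (F (T t410 (L l368 (L l2029 (L l3079 (T t39 (L l1635 (L l2193 (T t215 N)))))))))) (K a539 (M a295 (F (T t410 (L l368 (L l2029 (L l3079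 (T t39 (L l1635 (L l2193 (T t215 N)))))))))) N)))))))))))) (K a170 (M a768 (L l2287 (F (T t410 (L l1635 (L l2193 (T t148 (L l404 (T t144 (K a295 (M a539 (F (T t230 (L l1885 (L l2598 (L l3151 (T t225 (L l404 (T t144 N))))))))) (K a539 (M a295 (F (T t230 (L l1885 (L l2598 (L l3151 (T t225 (L l404 (T t144 N))))))))) N))))))))))) (K a186 (M a768 (L l2287 (F (T t37 (L l1635 (L l2193 (T t148 (L l206 (L l2706 (T t146 (K a295 (M a539 (F (T t38 (L l1635 (L l2193 (T t215 (T t675 N))))))) (K a539 (M a295 (F (T t38 (L l1635 (L l2193 (T t215 (T t675 N))))))) N)))))))))))) (K a207 (M a768 (L l511 (L l2287 (L l3181 (F (T t83 (L l1635 (L l2193 (L l3339 (T t148 (L l1885 (L l2749 (L l3151 (T t143 (K a295 (M a539 (L l511 (L l3181 (F (T t38 (L l1885 (L l2749 (L l3151 (T t225 (L l1635 (L l2193 (L l3339 (T t215 (K a103 (M a155 (L l3181 (F (T t38 (L l1885 (L l2749 (L l3151 (T t225 (L l1635 (L l2193 (L l3339 (T t215 (K a591 (M a399 (F (T t38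 (L l1885 (L l2749 (L l3151 (T t225 (L l1635 (L l2193 (L l3339 (T t215 N))))))))))) (K a399 (M a591 (F (T t38 (L l1885 (L l2749 (L l3151 (T t225 (L l1635 (L l2193 (L l3339 (T t215 N))))))))))) N)))))))))))))) (K a155 (M a103 (L l3181 (F (T t38 (L l1885 (L l2749 (L l3151 (T t225 (L l1635 (L l2193 (L l3339 (T t215 (K a591 (M a399 (F (T t38 (L l1885 (L l2749 (L l3151 (T t225 (L l1635 (L l2193 (L l3339 (T t215 N))))))))))) (K a399 (M a591 (F (T t38 (L l1885 (L l2749 (L l3151 (T t225 (L l1635 (L l2193 (L l3339 (T t215 N))))))))))) N)))))))))))))) (K a591 (M a399 (L l511 (F (T t38 (L l1885 (L l2749 (L l3151 (T t225 (L l1635 (L l2193 (L l3339 (T t215 (K a103 (M a155 (F (T t38 (L l1885 (L l2749 (L l3151 (T t225 (L l1635 (L l2193 (L l3339 (T t215 N))))))))))) (K a155 (M a103 (F (T t38 (L l1885 (L l2749 (L l3151 (T t225 (L l1635 (L l2193 (L l3339 (T t215 N))))))))))) N)))))))))))))) (K a399 (M a591 (L l511 (F (T t38 (L l1885 (L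 l2749 (L l3151 (T t225 (L l1635 (L l2193 (L l3339 (T t215 (K a103 (M a155 (F (T t38 (L l1885 (L l2749 (L l3151 (T t225 (L l1635 (L l2193 (L l3339 (T t215 N))))))))))) (K a155 (M a103 (F (T t38 (L l1885 (L l2749 (L l3151 (T t225 (L l1635 (L l2193 (L l3339 (T t215 N))))))))))) N)))))))))))))) N))))))))))))))))) (K a103 (M a155 (L l2287 (L l3181 (F (T t38 (L l1885 (L l2749 (L l3151 (T t225 (L l1635 (L l2193 (L l3339 (T t215 (K a295 (M a539 (L l3181 (F (T t38 (L l1885 (L l2749 (L l3151 (T t225 (L l1635 (L l2193 (L l3339 (T t215 (K a591 (M a399 (F (T t38 (L l1885 (L l2749 (L l3151 (T t225 (L l1635 (L l2193 (L l3339 (T t215 N))))))))))) (K a399 (M a591 (F (T t38 (L l1885 (L l2749 (L l3151 (T t225 (L l1635 (L l2193 (L l3339 (T t215 N))))))))))) N)))))))))))))) (K a539 (M a295 (L l3181 (F (T t38 (L l1885 (L l2749 (L l3151 (T t225 (L l1635 (L l2193 (L l3339 (T t215 (K a591 (M a399 (F (T t38 (L l1885 (L l2749 (L l3151 (T t225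 (L l1635 (L l2193 (L l3339 (T t215 N))))))))))) (K a399 (M a591 (F (T t38 (L l1885 (L l2749 (L l3151 (T t225 (L l1635 (L l2193 (L l3339 (T t215 N))))))))))) N)))))))))))))) (K a591 (M a399 (L l2287 (F (T t38 (L l1885 (L l2749 (L l3151 (T t225 (L l1635 (L l2193 (L l3339 (T t215 (K a295 (M a539 (F (T t38 (L l1885 (L l2749 (L l3151 (T t225 (L l1635 (L l2193 (L l3339 (T t215 N))))))))))) (K a539 (M a295 (F (T t38 (L l1885 (L l2749 (L l3151 (T t225 (L l1635 (L l2193 (L l3339 (T t215 N))))))))))) N)))))))))))))) (K a399 (M a591 (L l2287 (F (T t38 (L l1885 (L l2749 (L l3151 (T t225 (L l1635 (L l2193 (L l3339 (T t215 (K a295 (M a539 (F (T t38 (L l1885 (L l2749 (L l3151 (T t225 (L l1635 (L l2193 (L l3339 (T t215 N))))))))))) (K a539 (M a295 (F (T t38 (L l1885 (L l2749 (L l3151 (T t225 (L l1635 (L l2193 (L l3339 (T t215 N))))))))))) N)))))))))))))) N))))))))))))))))) (K a539 (M a295 (L l511 (L l3181 (F (T t38 (L l1885 (L l2749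 (L l3151 (T t225 (L l1635 (L l2193 (L l3339 (T t215 (K a103 (M a155 (L l3181 (F (T t38 (L l1885 (L l2749 (L l3151 (T t225 (L l1635 (L l2193 (L l3339 (T t215 (K a591 (M a399 (F (T t38 (L l1885 (L l2749 (L l3151 (T t225 (L l1635 (L l2193 (L l3339 (T t215 N))))))))))) (K a399 (M a591 (F (T t38 (L l1885 (L l2749 (L l3151 (T t225 (L l1635 (L l2193 (L l3339 (T t215 N))))))))))) N)))))))))))))) (K a155 (M a103 (L l3181 (F (T t38 (L l1885 (L l2749 (L l3151 (T t225 (L l1635 (L l2193 (L l3339 (T t215 (K a591 (M a399 (F (T t38 (L l1885 (L l2749 (L l3151 (T t225 (L l1635 (L l2193 (L l3339 (T t215 N))))))))))) (K a399 (M a591 (F (T t38 (L l1885 (L l2749 (L l3151 (T t225 (L l1635 (L l2193 (L l3339 (T t215 N))))))))))) N)))))))))))))) (K a591 (M a399 (L l511 (F (T t38 (L l1885 (L l2749 (L l3151 (T t225 (L l1635 (L l2193 (L l3339 (T t215 (K a103 (M a155 (F (T t38 (L l1885 (L l2749 (L l3151 (T t225 (L l1635 (L l2193 (L l3339 (T t215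 N))))))))))) (K a155 (M a103 (F (T t38 (L l1885 (L l2749 (L l3151 (T t225 (L l1635 (L l2193 (L l3339 (T t215 N))))))))))) N)))))))))))))) (K a399 (M a591 (L l511 (F (T t38 (L l1885 (L l2749 (L l3151 (T t225 (L l1635 (L l2193 (L l3339 (T t215 (K a103 (M a155 (F (T t38 (L l1885 (L l2749 (L l3151 (T t225 (L l1635 (L l2193 (L l3339 (T t215 N))))))))))) (K a155 (M a103 (F (T t38 (L l1885 (L l2749 (L l3151 (T t225 (L l1635 (L l2193 (L l3339 (T t215 N))))))))))) N)))))))))))))) N))))))))))))))))) (K a155 (M a103 (L l2287 (L l3181 (F (T t38 (L l1885 (L l2749 (L l3151 (T t225 (L l1635 (L l2193 (L l3339 (T t215 (K a295 (M a539 (L l3181 (F (T t38 (L l1885 (L l2749 (L l3151 (T t225 (L l1635 (L l2193 (L l3339 (T t215 (K a591 (M a399 (F (T t38 (L l1885 (L l2749 (L l3151 (T t225 (L l1635 (L l2193 (L l3339 (T t215 N))))))))))) (K a399 (M a591 (F (T t38 (L l1885 (L l2749 (L l3151 (T t225 (L l1635 (L l2193 (L l3339 (T t215 N)))))))))))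 N)))))))))))))) (K a539 (M a295 (L l3181 (F (T t38 (L l1885 (L l2749 (L l3151 (T t225 (L l1635 (L l2193 (L l3339 (T t215 (K a591 (M a399 (F (T t38 (L l1885 (L l2749 (L l3151 (T t225 (L l1635 (L l2193 (L l3339 (T t215 N))))))))))) (K a399 (M a591 (F (T t38 (L l1885 (L l2749 (L l3151 (T t225 (L l1635 (L l2193 (L l3339 (T t215 N))))))))))) N)))))))))))))) (K a591 (M a399 (L l2287 (F (T t38 (L l1885 (L l2749 (L l3151 (T t225 (L l1635 (L l2193 (L l3339 (T t215 (K a295 (M a539 (F (T t38 (L l1885 (L l2749 (L l3151 (T t225 (L l1635 (L l2193 (L l3339 (T t215 N))))))))))) (K a539 (M a295 (F (T t38 (L l1885 (L l2749 (L l3151 (T t225 (L l1635 (L l2193 (L l3339 (T t215 N))))))))))) N)))))))))))))) (K a399 (M a591 (L l2287 (F (T t38 (L l1885 (L l2749 (L l3151 (T t225 (L l1635 (L l2193 (L l3339 (T t215 (K a295 (M a539 (F (T t38 (L l1885 (L l2749 (L l3151 (T t225 (L l1635 (L l2193 (L l3339 (T t215 N))))))))))) (K a539 (M a295 (F (T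 t38 (L l1885 (L l2749 (L l3151 (T t225 (L l1635 (L l2193 (L l3339 (T t215 N))))))))))) N)))))))))))))) N))))))))))))))))) (K a591 (M a399 (L l511 (L l2287 (F (T t38 (L l1885 (L l2749 (L l3151 (T t225 (L l1635 (L l2193 (L l3339 (T t215 (K a295 (M a539 (L l511 (F (T t38 (L l1885 (L l2749 (L l3151 (T t225 (L l1635 (L l2193 (L l3339 (T t215 (K a103 (M a155 (F (T t38 (L l1885 (L l2749 (L l3151 (T t225 (L l1635 (L l2193 (L l3339 (T t215 N))))))))))) (K a155 (M a103 (F (T t38 (L l1885 (L l2749 (L l3151 (T t225 (L l1635 (L l2193 (L l3339 (T t215 N))))))))))) N)))))))))))))) (K a103 (M a155 (L l2287 (F (T t38 (L l1885 (L l2749 (L l3151 (T t225 (L l1635 (L l2193 (L l3339 (T t215 (K a295 (M a539 (F (T t38 (L l1885 (L l2749 (L l3151 (T t225 (L l1635 (L l2193 (L l3339 (T t215 N))))))))))) (K a539 (M a295 (F (T t38 (L l1885 (L l2749 (L l3151 (T t225 (L l1635 (L l2193 (L l3339 (T t215 N))))))))))) N)))))))))))))) (K a539 (M a295 (L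 l511 (F (T t38 (L l1885 (L l2749 (L l3151 (T t225 (L l1635 (L l2193 (L l3339 (T t215 (K a103 (M a155 (F (T t38 (L l1885 (L l2749 (L l3151 (T t225 (L l1635 (L l2193 (L l3339 (T t215 N))))))))))) (K a155 (M a103 (F (T t38 (L l1885 (L l2749 (L l3151 (T t225 (L l1635 (L l2193 (L l3339 (T t215 N))))))))))) N)))))))))))))) (K a155 (M a103 (L l2287 (F (T t38 (L l1885 (L l2749 (L l3151 (T t225 (L l1635 (L l2193 (L l3339 (T t215 (K a295 (M a539 (F (T t38 (L l1885 (L l2749 (L l3151 (T t225 (L l1635 (L l2193 (L l3339 (T t215 N))))))))))) (K a539 (M a295 (F (T t38 (L l1885 (L l2749 (L l3151 (T t225 (L l1635 (L l2193 (L l3339 (T t215 N))))))))))) N)))))))))))))) N))))))))))))))))) (K a399 (M a591 (L l511 (L l2287 (F (T t38 (L l1885 (L l2749 (L l3151 (T t225 (L l1635 (L l2193 (L l3339 (T t215 (K a295 (M a539 (L l511 (F (T t38 (L l1885 (L l2749 (L l3151 (T t225 (L l1635 (L l2193 (L l3339 (T t215 (K a103 (M a155 (F (T t38 (L l1885 (L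 l2749 (L l3151 (T t225 (L l1635 (L l2193 (L l3339 (T t215 N))))))))))) (K a155 (M a103 (F (T t38 (L l1885 (L l2749 (L l3151 (T t225 (L l1635 (L l2193 (L l3339 (T t215 N))))))))))) N)))))))))))))) (K a103 (M a155 (L l2287 (F (T t38 (L l1885 (L l2749 (L l3151 (T t225 (L l1635 (L l2193 (L l3339 (T t215 (K a295 (M a539 (F (T t38 (L l1885 (L l2749 (L l3151 (T t225 (L l1635 (L l2193 (L l3339 (T t215 N))))))))))) (K a539 (M a295 (F (T t38 (L l1885 (L l2749 (L l3151 (T t225 (L l1635 (L l2193 (L l3339 (T t215 N))))))))))) N)))))))))))))) (K a539 (M a295 (L l511 (F (T t38 (L l1885 (L l2749 (L l3151 (T t225 (L l1635 (L l2193 (L l3339 (T t215 (K a103 (M a155 (F (T t38 (L l1885 (L l2749 (L l3151 (T t225 (L l1635 (L l2193 (L l3339 (T t215 N))))))))))) (K a155 (M a103 (F (T t38 (L l1885 (L l2749 (L l3151 (T t225 (L l1635 (L l2193 (L l3339 (T t215 N))))))))))) N)))))))))))))) (K a155 (M a103 (L l2287 (F (T t38 (L l1885 (L l2749 (L l3151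 (T t225 (L l1635 (L l2193 (L l3339 (T t215 (K a295 (M a539 (F (T t38 (L l1885 (L l2749 (L l3151 (T t225 (L l1635 (L l2193 (L l3339 (T t215 N))))))))))) (K a539 (M a295 (F (T t38 (L l1885 (L l2749 (L l3151 (T t225 (L l1635 (L l2193 (L l3339 (T t215 N))))))))))) N)))))))))))))) N))))))))))))))))) N)))))))))))))))))))) (K a295 (M a539 (F (T t404 (L l511 (L l3181 (T t136 (L l511 (L l3181 (T t137 (L l511 (L l3181 (T t135 (L l511 (L l3181 (T t138 (K a16 (M a240 (F (T t673 (L l37 (L l2281 (T t674 (L l340 (L l368 (T t208 N))))))))) (K a32 (M a240 (F (T t405 (L l73 (L l404 (L l2101 (T t207 (T t208 N)))))))) (K a85 (M a768 (F (T t516 (L l1885 (L l3151 (T t225 (L l123 (L l2339 (T t144 N))))))))) (K a101 (M a768 (F (T t229 (L l404 (L l1635 (L l2193 (T t215 (L l123 (L l2029 (L l3079 (T t39 N))))))))))) (K a117 (M a18 (F (T t676 (L l569 (L l1623 (T t677 N)))))) (K a154 (M a18 (F (L l569 (T t678 (L l206 (L l441 (L l3362 (T t679 N))))))))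 (K a170 (M a768 (F (T t230 (L l1885 (L l2598 (L l3151 (T t225 (L l404 (T t144 N))))))))) (K a186 (M a18 (F (L l569 (T t678 (L l441 (L l3362 (T t680 N))))))) (K a207 (M a768 (L l511 (L l3181 (F (T t38 (L l1885 (L l2749 (L l3151 (T t225 (L l1635 (L l2193 (L l3339 (T t215 (K a103 (M a155 (L l3181 (F (T t38 (L l1885 (L l2749 (L l3151 (T t225 (L l1635 (L l2193 (L l3339 (T t215 (K a591 (M a399 (F (T t38 (L l1885 (L l2749 (L l3151 (T t225 (L l1635 (L l2193 (L l3339 (T t215 N))))))))))) (K a399 (M a591 (F (T t38 (L l1885 (L l2749 (L l3151 (T t225 (L l1635 (L l2193 (L l3339 (T t215 N))))))))))) N)))))))))))))) (K a155 (M a103 (L l3181 (F (T t38 (L l1885 (L l2749 (L l3151 (T t225 (L l1635 (L l2193 (L l3339 (T t215 (K a591 (M a399 (F (T t38 (L l1885 (L l2749 (L l3151 (T t225 (L l1635 (L l2193 (L l3339 (T t215 N))))))))))) (K a399 (M a591 (F (T t38 (L l1885 (L l2749 (L l3151 (T t225 (L l1635 (L l2193 (L l3339 (T t215 N)))))))))))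 N)))))))))))))) (K a591 (M a399 (L l511 (F (T t38 (L l1885 (L l2749 (L l3151 (T t225 (L l1635 (L l2193 (L l3339 (T t215 (K a103 (M a155 (F (T t38 (L l1885 (L l2749 (L l3151 (T t225 (L l1635 (L l2193 (L l3339 (T t215 N))))))))))) (K a155 (M a103 (F (T t38 (L l1885 (L l2749 (L l3151 (T t225 (L l1635 (L l2193 (L l3339 (T t215 N))))))))))) N)))))))))))))) (K a399 (M a591 (L l511 (F (T t38 (L l1885 (L l2749 (L l3151 (T t225 (L l1635 (L l2193 (L l3339 (T t215 (K a103 (M a155 (F (T t38 (L l1885 (L l2749 (L l3151 (T t225 (L l1635 (L l2193 (L l3339 (T t215 N))))))))))) (K a155 (M a103 (F (T t38 (L l1885 (L l2749 (L l3151 (T t225 (L l1635 (L l2193 (L l3339 (T t215 N))))))))))) N)))))))))))))) N))))))))))))))))) N)))))))))))))))))))))))) (K a539 (M a295 (F (T t404 (L l511 (L l3181 (T t136 (L l511 (L l3181 (T t137 (L l511 (L l3181 (T t135 (L l511 (L l3181 (T t138 (K a16 (M a240 (F (T t673 (L l37 (L l2281 (T t674 (L l340 (L l368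 (T t208 N))))))))) (K a32 (M a240 (F (T t405 (L l73 (L l404 (L l2101 (T t207 (T t208 N)))))))) (K a85 (M a768 (F (T t516 (L l1885 (L l3151 (T t225 (L l123 (L l2339 (T t144 N))))))))) (K a101 (M a33 (F (L l1095 (T t681 (L l123 (L l441 (L l3362 (T t682 N)))))))) (K a117 (M a33 (F (L l1095 (T t681 (L l123 (L l441 (L l3362 (T t682 N)))))))) (K a154 (M a768 (F (T t410 (L l368 (L l2029 (L l3079 (T t39 (L l1635 (L l2193 (T t215 N)))))))))) (K a170 (M a768 (F (T t230 (L l1885 (L l2598 (L l3151 (T t225 (L l404 (T t144 N))))))))) (K a186 (M a33 (F (T t683 (L l1095 (T t681 N))))) (K a207 (M a33 (L l511 (L l3181 (F (T t684 (L l1095 (T t681 (K a103 (M a155 (L l3181 (F (L l1095 (T t681 (L l125 (L l291 (L l441 (L l3362 (T t682 (K a591 (M a399 (F (L l1095 (T t681 (L l125 (L l291 (L l441 (L l3362 (T t682 N))))))))) (K a399 (M a591 (F (L l1095 (T t681 (L l125 (L l291 (L l441 (L l3362 (T t682 N))))))))) N)))))))))))) (K a155 (M a103 (L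 l3181 (F (L l367 (T t684 (L l1095 (T t681 (K a591 (M a399 (F (L l367 (T t684 (L l1095 (T t681 N)))))) (K a399 (M a591 (F (L l367 (T t684 (L l1095 (T t681 N)))))) N))))))))) (K a591 (M a399 (L l511 (F (T t684 (L l1095 (T t681 (K a103 (M a155 (F (L l1095 (T t681 (L l125 (L l291 (L l441 (L l3362 (T t682 N))))))))) (K a155 (M a103 (F (L l367 (T t684 (L l1095 (T t681 N)))))) N)))))))) (K a399 (M a591 (L l511 (F (T t684 (L l1095 (T t681 (K a103 (M a155 (F (L l1095 (T t681 (L l125 (L l291 (L l441 (L l3362 (T t682 N))))))))) (K a155 (M a103 (F (L l367 (T t684 (L l1095 (T t681 N)))))) N)))))))) N))))))))))) N)))))))))))))))))))))))) N)))))))))))))))))))))))))))⟩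
def e0_255__783_3 : Ent 5 := ⟨[a0, a255], [a783, a102], (M a768 (F (L l2029 (T t32 (L l126 (T t38 (L l126 (L l2029 (T t39 (L l2029 (T t40 (L l402 (L l2029 (T t41 (K a256 (M a192 (F (T t42 (L l126 (L l2281 (T t19 (L l402 (L l824 (L l996 (T t33 N)))))))))) (K a512 (M a192 (F (T t85 (L l126 (L l2281 (T t19 (L l402 (T t33 N)))))))) (K a85 (M a204 (L l126 (F (T t685 (L l365 (L l1633 (L l2339 (T t686 (L l365 (L l2339 (T t687 (K a68 (M a119 (F (T t688 (L l365 (L l1633 (L l2339 (T t686 (L l1633 (T t689 N))))))))) (K a119 (Fr a68 a136 l328 (V t690)) N))))))))))))) (K a341 (M a64 (F (L l1899 (T t67 (L l402 (L l2281 (T t15 (L l102 (L l402 (L l664 (L l996 (T t68 N)))))))))))) (K a597 (M a192 (F (T t57 (L l126 (L l2281 (L l2339 (L l3203 (T t19 (L l126 (L l1184 (L l1516 (L l2281 (L l2339 (L l3203 (T t58 (L l402 (L l2281 (L l2511 (T t59 N))))))))))))))))))) (K a170 (M a204 (L l402 (F (T t691 (L l126 (L l1887 (T t342 (L l208 (T t687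 (K a34 (Fr a238 a221 l290 (V t692)) (K a238 (M a34 (F (T t693 (L l1887 (T t694 (L l208 (L l1887 (L l2598 (L l3264 (T t695 N)))))))))) N))))))))))) (K a426 (M a192 (F (T t62 (L l126 (L l2281 (T t19 (L l126 (L l2281 (L l2727 (T t58 (L l402 (L l740 (L l996 (L l2281 (L l2598 (L l3246 (T t59 N))))))))))))))))) (K a682 (M a128 (F (L l1899 (T t71 (L l126 (L l2281 (T t198 (L l126 (L l495 (L l1260 (L l1516 (T t72 N)))))))))))) (K a1023 (M a64 (L l2029 (F (T t696 (L l402 (L l2281 (L l3073 (T t15 (L l102 (L l402 (T t68 (K a863 (M a943 (F (T t696 (L l402 (L l2281 (L l3073 (T t15 (L l102 (L l402 (T t68 N)))))))))) (K a943 (M a863 (F (T t696 (L l402 (L l2281 (L l3073 (T t15 (L l102 (L l402 (T t68 N)))))))))) N))))))))))))) N)))))))))))))))))))))))⟩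
def e0_255__783_4 : Ent 5 := ⟨[a0, a255], [a783, a114], (M a192 (F (T t46 (L l2281 (T t19 (L l2281 (T t23 (L l2281 (T t22 (L l2281 (T t24 (K a64 (M a240 (F (T t84 (L l144 (L l2101 (T t80 (T t81 N))))))) (K a128 (M a240 (F (T t406 (L l3181 (T t304 (L l192 (L l220 (T t81 N)))))))) (K a85 (M a768 (F (T t85 (L l1899 (T t35 (L l347 (L l2339 (T t30 N)))))))) (K a149 (M a768 (F (T t49 (L l1899 (T t35 (L l2029 (T t32 N))))))) (K a213 (M a768 (F (T t62 (L l2029 (L l3203 (T t32 (T t33 N))))))) (K a106 (M a768 (F (T t43 (L l1899 (T t35 (L l2029 (T t32 N))))))) (K a170 (M a768 (F (T t42 (L l1899 (T t35 (L l220 (T t30 N))))))) (K a234 (M a768 (F (T t37 (L l1899 (T t35 (L l390 (L l3246 (T t33 N)))))))) (K a63 (M a768 (L l2281 (F (T t38 (L l1899 (L l3159 (T t35 (L l1621 (L l2209 (T t29 (K a543 (M a303 (F (T t74 (L l1621 (L l2209 (T t48 (L l1899 (L l3159 (T t86 N))))))))) (K a303 (M a543 (F (T t74 (L l1621 (L l2209 (T t48 (L l1899 (L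 l3159 (T t86 N))))))))) N)))))))))))) N))))))))))))))))))))⟩
def e0_255__783_5 : Ent 5 := ⟨[a0, a255], [a783, a119], (M a192 (F (T t60 (L l126 (L l2281 (T t19 (L l2281 (T t23 (L l126 (L l2281 (T t22 (L l113 (L l2281 (T t24 (K a64 (M a240 (F (T t84 (L l126 (L l144 (L l2101 (T t80 (T t81 N)))))))) (K a128 (M a240 (F (T t84 (L l126 (L l2101 (T t80 (L l192 (L l220 (T t81 N))))))))) (K a85 (M a768 (L l126 (F (T t85 (L l1899 (T t35 (L l347 (L l2339 (L l2487 (T t30 (K a68 (M a102 (F (T t401 (L l347 (L l1621 (L l2339 (L l2487 (T t29 (L l80 (L l144 (T t36 N))))))))))) (K a102 (M a68 (F (T t57 (L l365 (L l1633 (L l2339 (L l2487 (T t134 N)))))))) N)))))))))))) (K a149 (M a768 (F (T t85 (L l1899 (T t35 (L l2029 (L l2487 (T t32 N)))))))) (K a213 (M a768 (F (T t83 (L l1899 (T t35 (T t33 N)))))) (K a106 (M a768 (F (T t401 (L l1621 (L l2487 (T t29 (L l2029 (L l2487 (T t32 N))))))))) (K a170 (M a768 (F (T t69 (L l1621 (L l2487 (T t29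 (L l220 (L l2487 (T t30 N))))))))) (K a234 (M a768 (F (T t57 (L l2029 (L l2487 (T t32 (L l390 (L l3246 (T t33 N))))))))) (K a63 (M a768 (L l2281 (F (T t83 (L l1899 (L l3159 (T t35 (L l1621 (L l2209 (L l2487 (T t29 (K a543 (M a303 (F (T t83 (L l1621 (L l2209 (T t48 (L l1899 (L l3159 (T t86 N))))))))) (K a303 (M a543 (F (T t83 (L l1621 (L l2209 (T t48 (L l1899 (L l3159 (T t86 N))))))))) N))))))))))))) N)))))))))))))))))))))))⟩
def e0_255__783_6 : Ent 5 := ⟨[a0, a255], [a783, a273], (M a204 (F (T t186 (L l2287 (T t158 (L l2287 (T t184 (L l2287 (T t190 (L l2117 (L l2287 (T t191 (K a68 (M a192 (F (T t47 (L l3367 (T t187 (L l126 (T t193 N))))))) (K a136 (M a192 (F (T t709 (L l2281 (T t19 (L l316 (T t193 N))))))) (K a85 (M a768 (F (T t710 (L l126 (L l1887 (T t342 (L l365 (L l2339 (T t687 N))))))))) (K a153 (M a768 (F (T t710 (L l1887 (T t342 (L l2029 (T t32 N))))))) (K a221 (M a768 (F (T t711 (L l2029 (L l3227 (T t32 (L l365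 (L l3227 (T t341 N))))))))) (K a102 (M a768 (F (T t712 (L l126 (L l1887 (T t342 (L l2029 (T t32 N)))))))) (K a170 (M a768 (F (T t712 (L l1887 (T t342 (L l208 (T t687 N))))))) (K a238 (M a768 (F (T t38 (L l1887 (T t342 (T t341 N)))))) (K a51 (M a341 (L l2287 (F (T t205 (T t99 (K a295 (M a539 (F (T t413 (L l1887 (L l3153 (T t98 (L l1568 (L l2265 (T t713 N))))))))) (K a539 (M a295 (F (T t413 (L l1887 (L l3153 (T t98 (L l1568 (L l2265 (T t713 N))))))))) N))))))) N)))))))))))))))))))))⟩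
def e0_255__783_7 : Ent 5 := ⟨[a0, a255], [a783, a283], (M a192 (F (T t46 (L l2281 (T t19 (L l2281 (T t23 (L l2281 (T t22 (L l2281 (T t24 (K a64 (M a240 (F (T t84 (L l144 (L l2101 (L l2257 (T t80 (T t81 N)))))))) (K a128 (M a240 (F (T t84 (L l2101 (L l2257 (T t80 (L l192 (L l220 (T t81 N))))))))) (K a85 (M a768 (F (T t85 (L l1899 (T t35 (L l347 (L l2339 (T t30 N)))))))) (K a149 (M a768 (F (T t49 (L l1899 (T t35 (L l2029 (T t32 N))))))) (K a213 (M a768 (F (T t62 (L l2029 (L l3203 (T t32 (T t33 N))))))) (K a106 (M a768 (F (T t43 (L l1899 (T t35 (L l2029 (T t32 N))))))) (K a170 (M a768 (F (T t42 (L l1899 (T t35 (L l220 (T t30 N))))))) (K a234 (M a768 (F (T t37 (L l1899 (T t35 (L l390 (L l3246 (T t33 N)))))))) (K a63 (M a768 (L l2281 (F (T t38 (L l1899 (L l3159 (T t35 (L l1621 (L l2209 (T t29 (K a543 (M a303 (F (T t74 (L l1621 (L l2209 (T t48 (L l1899 (L l3159 (T t86 N))))))))) (K a303 (M a543 (F (T t74 (L l1621 (L l2209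 (T t48 (L l1899 (L l3159 (T t86 N))))))))) N)))))))))))) N))))))))))))))))))))⟩
def e0_255__783_8 : Ent 5 := ⟨[a0, a255], [a783, a290], (M a60 (F (T t419 (L l3187 (T t420 (L l3187 (T t421 (L l3187 (T t422 (L l3187 (T t423 (K a20 (M a48 (F (T t424 (L l3367 (T t425 (L l350 (T t426 N))))))) (K a40 (M a48 (F (T t427 (L l3367 (T t425 (L l52 (T t426 N))))))) (K a85 (M a768 (F (L l1623 (T t428 (L l141 (L l1897 (L l2339 (T t429 (L l141 (L l2339 (T t430 N))))))))))) (K a105 (M a768 (F (T t431 (L l141 (L l1897 (T t429 (L l2029 (T t32 N)))))))) (K a125 (M a768 (F (T t431 (L l2029 (L l2507 (T t32 (L l141 (L l2507 (T t432 N))))))))) (K a150 (M a768 (F (T t433 (L l350 (L l1623 (T t434 (L l2029 (T t32 N)))))))) (K a170 (M a768 (F (T t433 (L l1623 (T t434 (L l392 (T t430 N))))))) (K a190 (M a768 (F (T t38 (L l1623 (T t434 (T t432 N)))))) (K a195 (M a341 (L l3187 (F (T t435 (T t436 (K a391 (M a587 (F (T t437 (L l1568 (L l2265 (L l3165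 (T t438 (T t439 N)))))))) (K a587 (M a391 (F (T t437 (L l1568 (L l2265 (L l3165 (T t438 (T t439 N)))))))) N))))))) N))))))))))))))))))))⟩
def e0_255__783_9 : Ent 5 := ⟨[a0, a255], [a783, a295], (M a51 (F (T t714 (L l3182 (T t227 (L l3182 (T t228 (L l3182 (T t218 (L l3182 (T t221 (K a204 (M a768 (L l3182 (F (T t38 (L l1633 (L l3338 (T t715 (L l1887 (L l2746 (T t716 (K a397 (M a590 (F (T t74 (L l1887 (L l2746 (T t717 (L l1633 (L l3338 (T t718 N))))))))) (K a590 (M a397 (F (T t74 (L l1887 (L l2746 (T t717 (L l1633 (L l3338 (T t718 N))))))))) N)))))))))))) (K a17 (M a48 (F (T t424 (L l3362 (T t233 (L l365 (T t220 N))))))) (K a85 (M a768 (F (T t719 (L l365 (L l1633 (T t715 (L l126 (L l2339 (T t720 N))))))))) (K a153 (M a768 (F (T t721 (L l365 (L l1633 (T t715 (L l365 (L l2029 (T t39 N))))))))) (K a34 (M a48 (F (T t427 (L l3362 (T t233 (L l42 (T t220 N))))))) (K a102 (M a768 (F (T t719 (L l1633 (T t715 (L l126 (L l2029 (T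 t39 N)))))))) (K a170 (M a768 (F (T t721 (L l1633 (T t715 (L l402 (T t720 N))))))) (K a119 (M a768 (F (T t83 (L l1633 (T t715 (L l126 (L l2487 (T t722 N)))))))) (K a187 (M a768 (F (T t723 (L l2029 (T t39 (T t722 N)))))) N))))))))))))))))))))⟩
def e0_255__783_10 : Ent 5 := ⟨[a0, a255], [a783, a307], (M a192 (F (T t46 (L l2281 (T t19 (L l2281 (T t23 (L l2281 (T t22 (L l2281 (T t24 (K a64 (M a240 (F (T t84 (L l144 (L l2101 (T t80 (T t81 N))))))) (K a128 (M a240 (F (T t406 (L l3181 (T t304 (L l192 (L l220 (T t81 N)))))))) (K a85 (M a768 (F (T t85 (L l1009 (L l1899 (T t35 (L l347 (L l2339 (T t30 N))))))))) (K a149 (M a768 (F (T t85 (L l1009 (L l1899 (T t35 (L l959 (L l2029 (T t32 N))))))))) (K a213 (M a768 (F (T t69 (L l959 (L l2029 (L l3203 (T t32 (T t33 N)))))))) (K a106 (M a768 (F (T t42 (L l1009 (L l1899 (T t35 (L l959 (L l2029 (T t32 N))))))))) (K a170 (M a768 (F (T t42 (L l1009 (L l1899 (T t35 (L l220 (T t30 N))))))))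 (K a234 (M a768 (F (T t37 (L l1009 (L l1899 (T t35 (L l390 (L l3246 (T t33 N))))))))) (K a63 (M a768 (L l2281 (F (T t37 (L l1009 (L l1899 (L l3159 (T t35 (L l1621 (L l2209 (T t29 (K a543 (M a303 (F (T t37 (L l1621 (L l2209 (T t48 (L l1899 (L l3159 (T t86 N))))))))) (K a303 (M a543 (F (T t37 (L l1621 (L l2209 (T t48 (L l1899 (L l3159 (T t86 N))))))))) N))))))))))))) N))))))))))))))))))))⟩
def e0_255__783_11 : Ent 5 := ⟨[a0, a255], [a783, a358], (M a192 (F (T t46 (L l2281 (T t19 (L l2281 (T t23 (L l2281 (T t22 (L l2281 (T t24 (K a64 (M a240 (F (T t84 (L l144 (L l2101 (T t80 (T t81 N))))))) (K a128 (M a240 (F (T t406 (L l3181 (T t304 (L l192 (L l220 (T t81 N)))))))) (K a85 (M a768 (F (T t57 (L l347 (L l1621 (L l2339 (L l2487 (T t29 (L l347 (L l2339 (L l2487 (T t30 N)))))))))))) (K a149 (M a768 (F (T t69 (L l347 (L l1621 (L l2487 (T t29 (L l2029 (L l2487 (T t32 N)))))))))) (K a213 (M a768 (F (T t62 (L l2029 (L l2487 (L l3203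 (T t32 (L l922 (T t33 N))))))))) (K a106 (M a768 (F (T t57 (L l1621 (L l2487 (T t29 (L l2029 (L l2487 (T t32 N))))))))) (K a170 (M a768 (F (T t69 (L l1621 (L l2487 (T t29 (L l220 (L l2487 (T t30 N))))))))) (K a234 (M a768 (F (T t57 (L l2029 (L l2487 (T t32 (L l390 (L l922 (L l3246 (T t33 N)))))))))) (K a63 (M a768 (L l2281 (F (T t57 (L l1621 (L l2209 (L l2487 (T t29 (L l2029 (L l2487 (L l3073 (T t32 (K a543 (M a303 (F (T t62 (L l2029 (L l2487 (L l3073 (T t39 (L l922 (L l1621 (L l2209 (T t48 N))))))))))) (K a303 (M a543 (F (T t62 (L l2029 (L l2487 (L l3073 (T t39 (L l922 (L l1621 (L l2209 (T t48 N))))))))))) N)))))))))))))) N))))))))))))))))))))⟩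
def e0_255__783_12 : Ent 5 := ⟨[a0, a255], [a783, a370], (M a192 (F (T t46 (L l2281 (T t19 (L l2281 (T t23 (L l2281 (T t22 (L l2281 (T t24 (K a64 (M a240 (F (T t84 (L l144 (L l2101 (T t80 (T t81 N))))))) (K a128 (M a240 (F (T t406 (L l3181 (T t304 (L l192 (L l220 (T t81 N)))))))) (K a85 (M a768 (F (T t85 (L l1899 (T t35 (L l347 (L l2339 (T t30 N)))))))) (K a149 (M a768 (F (T t49 (L l1899 (T t35 (L l2029 (T t32 N))))))) (K a213 (M a768 (F (T t62 (L l2029 (L l3203 (T t32 (T t33 N))))))) (K a106 (M a768 (F (T t43 (L l1899 (T t35 (L l2029 (T t32 N))))))) (K a170 (M a768 (F (T t42 (L l1899 (T t35 (L l220 (T t30 N))))))) (K a234 (M a768 (F (T t37 (L l1899 (T t35 (L l390 (L l3246 (T t33 N)))))))) (K a63 (M a768 (L l2281 (F (T t38 (L l1899 (L l3159 (T t35 (L l1621 (L l2209 (T t29 (K a543 (M a303 (F (T t74 (L l1621 (L l2209 (T t48 (L l1899 (L l3159 (T t86 N))))))))) (K a303 (M a543 (F (T t74 (L l1621 (L l2209 (T t48 (L l1899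 (L l3159 (T t86 N))))))))) N)))))))))))) N))))))))))))))))))))⟩
def e0_255__783_13 : Ent 5 := ⟨[a0, a255], [a783, a375], (M a192 (F (T t46 (L l2281 (T t19 (L l2281 (T t23 (L l2281 (T t22 (L l2281 (T t24 (K a64 (M a240 (F (T t84 (L l144 (L l2101 (T t80 (T t81 N))))))) (K a128 (M a240 (F (T t406 (L l3181 (T t304 (L l192 (L l220 (T t81 N)))))))) (K a85 (M a768 (F (T t85 (L l1899 (T t35 (L l347 (L l2339 (L l2431 (T t30 N))))))))) (K a149 (M a768 (F (T t85 (L l1899 (T t35 (L l959 (L l2029 (L l3079 (T t32 N))))))))) (K a213 (M a768 (F (T t83 (L l1899 (T t35 (T t33 N)))))) (K a106 (M a768 (F (T t42 (L l1899 (T t35 (L l959 (L l2029 (L l3079 (T t32 N))))))))) (K a170 (M a768 (F (T t42 (L l1899 (T t35 (L l220 (L l2431 (T t30 N)))))))) (K a234 (M a768 (F (T t37 (L l1899 (T t35 (L l390 (L l3246 (T t33 N)))))))) (K a63 (M a768 (L l2281 (F (T t83 (L l1899 (L l3159 (T t35 (L l1621 (L l2209 (T t29 (K a543 (M a303 (F (T t37 (L l1621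 (L l2209 (T t48 (L l1899 (L l3159 (T t86 N))))))))) (K a303 (M a543 (F (T t37 (L l1621 (L l2209 (T t48 (L l1899 (L l3159 (T t86 N))))))))) N)))))))))))) N))))))))))))))))))))⟩
def e0_255__783_14 : Ent 5 := ⟨[a0, a255], [a783, a433], (M a192 (F (T t46 (L l2281 (T t19 (L l2281 (T t23 (L l2281 (T t22 (L l2281 (T t24 (K a64 (M a240 (F (T t84 (L l144 (L l2101 (T t80 (T t81 N))))))) (K a128 (M a240 (F (T t406 (L l3181 (T t304 (L l192 (L l220 (T t81 N)))))))) (K a85 (M a768 (F (T t85 (L l1899 (T t35 (L l347 (L l2339 (T t30 N)))))))) (K a149 (M a768 (F (T t49 (L l1899 (T t35 (L l2029 (T t32 N))))))) (K a213 (M a768 (F (T t62 (L l2029 (L l3203 (T t32 (T t33 N))))))) (K a106 (M a768 (F (T t43 (L l1899 (T t35 (L l2029 (T t32 N))))))) (K a170 (M a768 (F (T t42 (L l1899 (T t35 (L l220 (T t30 N))))))) (K a234 (M a768 (F (T t37 (L l1899 (T t35 (L l390 (L l3246 (T t33 N)))))))) (K a63 (M a768 (L l2281 (F (T t38 (L l1899 (L l3159 (T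 t35 (L l1621 (L l2209 (T t29 (K a543 (M a303 (F (T t74 (L l1621 (L l2209 (T t48 (L l1899 (L l3159 (T t86 N))))))))) (K a303 (M a543 (F (T t74 (L l1621 (L l2209 (T t48 (L l1899 (L l3159 (T t86 N))))))))) N)))))))))))) N))))))))))))))))))))⟩
def e0_255__783_15 : Ent 5 := ⟨[a0, a255], [a783, a443], (M a192 (F (T t46 (L l2281 (T t19 (L l2281 (T t23 (L l2281 (L l2653 (T t22 (L l2281 (T t24 (K a64 (M a240 (F (T t84 (L l144 (L l2101 (T t80 (T t81 N))))))) (K a128 (M a240 (F (T t406 (L l3181 (T t304 (L l192 (L l220 (T t81 N)))))))) (K a85 (M a768 (F (T t401 (L l347 (L l1621 (L l2339 (T t29 (L l347 (L l2339 (T t30 N)))))))))) (K a149 (M a768 (F (T t69 (L l347 (L l1621 (T t29 (L l959 (L l2029 (T t32 N))))))))) (K a213 (M a768 (F (T t62 (L l959 (L l2029 (L l3203 (T t32 (L l728 (T t33 N))))))))) (K a106 (M a768 (F (T t42 (L l1899 (T t35 (L l959 (L l2029 (T t32 N)))))))) (K a170 (M a768 (F (T t42 (L l1899 (T t35 (L l220 (T t30 N)))))))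 (K a234 (M a768 (F (T t37 (L l1899 (T t35 (L l390 (L l728 (L l3246 (T t33 N))))))))) (K a63 (M a768 (L l2281 (F (T t37 (L l1899 (L l3159 (T t35 (L l1621 (L l2209 (T t29 (K a543 (M a303 (F (T t37 (L l728 (L l1621 (L l2209 (T t48 (L l1899 (L l3159 (T t86 N)))))))))) (K a303 (M a543 (F (T t37 (L l728 (L l1621 (L l2209 (T t48 (L l1899 (L l3159 (T t86 N)))))))))) N)))))))))))) N)))))))))))))))))))))⟩
def e0_255__783_16 : Ent 5 := ⟨[a0, a255], [a783, a785], (M a192 (F (T t46 (L l2281 (T t19 (L l2281 (T t23 (L l2281 (T t22 (L l2281 (T t24 (K a64 (M a240 (F (T t84 (L l144 (L l2101 (T t80 (T t81 N))))))) (K a128 (M a240 (F (T t406 (L l3181 (T t304 (L l192 (L l220 (T t81 N)))))))) (K a85 (M a768 (F (T t85 (L l1899 (T t35 (L l347 (L l2339 (L l3227 (T t30 N))))))))) (K a149 (M a768 (F (T t85 (L l1899 (T t35 (L l2029 (L l3227 (T t32 N)))))))) (K a213 (M a768 (F (T t62 (L l2029 (L l3203 (L l3227 (T t32 (L l1925 (T t33 N))))))))) (K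 a106 (M a768 (F (T t57 (L l1621 (L l3227 (T t29 (L l2029 (L l3227 (T t32 N))))))))) (K a170 (M a768 (F (T t69 (L l1621 (L l3227 (T t29 (L l220 (L l3227 (T t30 N))))))))) (K a234 (M a768 (F (T t57 (L l2029 (L l3227 (T t32 (L l390 (L l1925 (L l3246 (T t33 N)))))))))) (K a63 (M a768 (L l2281 (F (T t74 (L l1899 (L l3159 (T t35 (L l1621 (L l2209 (L l3227 (T t29 (K a543 (M a303 (F (T t74 (L l1621 (L l2209 (T t48 (L l1899 (L l3159 (T t86 N))))))))) (K a303 (M a543 (F (T t74 (L l1621 (L l2209 (T t48 (L l1899 (L l3159 (T t86 N))))))))) N))))))))))))) N))))))))))))))))))))⟩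
def e0_255__783_17 : Ent 5 := ⟨[a0, a255], [a783, a795], (M a768 (L l1633 (F (T t38 (L l2029 (T t32 (L l2029 (T t39 (L l2029 (T t40 (L l2029 (T t41 (K a256 (M a192 (L l1633 (F (T t42 (L l2281 (T t19 (L l824 (L l996 (T t33 (K a819 (M a807 (F (T t43 (L l2221 (L l2281 (T t24 (T t44 N))))))) (K a807 (M a819 (F (T t45 (L l2281 (T t23 N))))) N))))))))))) (K a512 (M a192 (L l1633 (F (T t46 (L l1516 (L l1621 (T t29 (T t33 (K a819 (M a807 (F (T t47 (L l1597 (L l1621 (T t48 (L l1344 (L l1516 (T t44 N))))))))) (K a807 (M a819 (F (T t49 (L l2041 (T t50 N))))) N)))))))))) (K a85 (M a819 (F (T t51 (L l2287 (T t52 (L l2339 (T t53 N))))))) (K a341 (M a819 (F (T t601 (L l2339 (L l3182 (T t75 (L l885 (L l996 (T t56 N))))))))) (K a597 (M a192 (L l1633 (F (T t57 (L l2281 (L l2339 (L l3203 (T t19 (L l1184 (L l1516 (L l2281 (L l2339 (L l3203 (T t58 (L l2281 (L l2511 (T t59 (K a819 (M a807 (F (T t60 (L l1899 (L l2049 (T t28 (L l1184 (L l1516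 (L l2221 (L l2281 (L l2339 (L l3203 (T t58 (L l2221 (L l2281 (L l2511 (T t59 N))))))))))))))))) (K a807 (M a819 (F (T t60 (L l1516 (L l2287 (T t61 N)))))) N))))))))))))))))))) (K a170 (M a819 (F (T t54 (L l2287 (T t55 (T t53 N)))))) (K a426 (M a192 (L l1633 (F (T t46 (L l1899 (T t35 (L l2281 (L l2727 (T t58 (L l740 (L l996 (L l2281 (L l2598 (L l3246 (T t59 (K a819 (M a807 (F (T t62 (L l2221 (L l2281 (L l2598 (T t24 (L l2221 (L l2281 (L l2727 (T t58 (L l740 (L l996 (L l2221 (L l2281 (L l2598 (L l3246 (T t59 N)))))))))))))))))) (K a807 (M a819 (F (T t46 (L l2287 (T t61 N))))) N))))))))))))))))) (K a682 (M a819 (F (T t63 (L l2598 (L l3182 (T t64 (L l1442 (L l1516 (T t53 N))))))))) (K a1023 (M a819 (L l2029 (F (T t51 (L l2287 (L l3079 (T t52 (L l2894 (T t53 (K a863 (M a943 (F (T t65 (L l2894 (L l3182 (T t66 (L l2894 (T t53 N)))))))) (K a943 (M a863 (F (T t65 (L l2894 (L l3182 (T t66 (L l2894 (T t53 N)))))))) N)))))))))))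 (K a819 (M a807 (F (T t38 (L l1999 (L l2029 (T t32 (L l1999 (L l2029 (T t39 (L l1999 (L l2029 (T t40 (L l1999 (L l2029 (T t41 (K a256 (M a192 (F (T t43 (L l2221 (L l2281 (T t24 (T t44 N))))))) (K a512 (M a192 (F (T t47 (L l1597 (L l1621 (T t48 (L l1344 (L l1516 (T t44 N))))))))) (K a85 (M a192 (F (T t57 (L l1597 (L l1621 (T t48 (L l347 (L l2339 (T t30 N))))))))) (K a341 (M a64 (F (T t6 (L l1899 (L l2049 (T t67 (L l664 (L l996 (T t68 N))))))))) (K a597 (M a192 (F (T t60 (L l1899 (L l2049 (T t28 (L l1184 (L l1516 (L l2221 (L l2281 (L l2339 (L l3203 (T t58 (L l2221 (L l2281 (L l2511 (T t59 N))))))))))))))))) (K a170 (M a192 (F (T t69 (L l1597 (L l1621 (L l2598 (T t48 (L l220 (T t30 N))))))))) (K a426 (M a192 (F (T t62 (L l2221 (L l2281 (L l2598 (T t24 (L l2221 (L l2281 (L l2727 (T t58 (L l740 (L l996 (L l2221 (L l2281 (L l2598 (L l3246 (T t59 N)))))))))))))))))) (K a682 (M a128 (F (T t70 (L l1899 (L l2049 (T t71 (L l1260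 (L l1516 (T t72 N))))))))) (K a1023 (M a64 (L l1999 (L l2029 (F (T t73 (L l1856 (L l1899 (L l2049 (T t67 (T t68 (K a887 (M a955 (L l2029 (F (T t73 (L l1856 (L l1899 (L l2049 (T t67 (T t68 (K a863 (M a943 (F (T t73 (L l1856 (L l1899 (L l2049 (T t67 (T t68 N)))))))) (K a943 (M a863 (F (T t73 (L l1856 (L l1899 (L l2049 (T t67 (T t68 N)))))))) N))))))))))) (K a955 (M a887 (L l2029 (F (T t73 (L l1856 (L l1899 (L l2049 (T t67 (T t68 (K a863 (M a943 (F (T t73 (L l1856 (L l1899 (L l2049 (T t67 (T t68 N)))))))) (K a943 (M a863 (F (T t73 (L l1856 (L l1899 (L l2049 (T t67 (T t68 N)))))))) N))))))))))) (K a863 (M a943 (L l1999 (F (T t73 (L l1856 (L l1899 (L l2049 (T t67 (T t68 (K a887 (M a955 (F (T t73 (L l1856 (L l1899 (L l2049 (T t67 (T t68 N)))))))) (K a955 (M a887 (F (T t73 (L l1856 (L l1899 (L l2049 (T t67 (T t68 N)))))))) N))))))))))) (K a943 (M a863 (L l1999 (F (T t73 (L l1856 (L l1899 (L l2049 (T t67 (T t68 (K a887 (M a955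 (F (T t73 (L l1856 (L l1899 (L l2049 (T t67 (T t68 N)))))))) (K a955 (M a887 (F (T t73 (L l1856 (L l1899 (L l2049 (T t67 (T t68 N)))))))) N))))))))))) N)))))))))))))) N)))))))))))))))))))))))) (K a807 (M a819 (F (T t74 (L l2287 (T t52 (L l3182 (T t75 N))))))) N)))))))))))))))))))))))⟩
def e0_255__783_18 : Ent 5 := ⟨[a0, a255], [a783, a819], (M a60 (L l1633 (F (T t419 (L l3187 (L l3307 (T t420 (L l3187 (L l3307 (T t421 (L l3187 (L l3307 (T t422 (L l3187 (L l3307 (T t423 (K a20 (M a48 (L l1633 (F (T t424 (L l3271 (L l3367 (T t425 (L l350 (T t426 (K a807 (M a795 (F (T t730 (L l3181 (L l3337 (T t137 (L l350 (T t426 N)))))))) (K a795 (M a807 (F (T t730 (L l3181 (L l3337 (T t137 (L l350 (T t426 N)))))))) N))))))))))) (K a40 (M a48 (L l1633 (F (T t731 (L l3181 (L l3337 (T t136 (L l52 (T t426 (K a807 (M a795 (F (T t732 (L l392 (L l3181 (L l3337 (T t137 (L l52 (T t426 N))))))))) (K a795 (M a807 (F (T t732 (L l392 (L l3181 (L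 l3337 (T t137 (L l52 (T t426 N))))))))) N))))))))))) (K a85 (M a48 (L l1633 (F (T t733 (L l123 (L l141 (L l3271 (L l3367 (T t425 (L l123 (L l141 (L l350 (L l368 (L l2102 (L l2258 (T t734 (L l458 (L l2102 (L l2258 (T t735 (K a807 (M a795 (F (T t736 (L l1609 (L l1621 (L l2258 (T t737 N))))))) (K a795 (M a807 (F (T t736 (L l350 (L l368 (L l1615 (L l1621 (L l2258 (T t738 N))))))))) N)))))))))))))))))))))) (K a105 (M a768 (L l1633 (F (T t739 (L l1599 (L l1623 (T t434 (L l1999 (L l2029 (T t32 (K a807 (M a795 (F (T t739 (L l1599 (L l1623 (T t454 (L l141 (L l1999 (L l2029 (T t39 N)))))))))) (K a795 (M a807 (F (T t739 (L l1599 (L l1623 (T t454 (L l141 (L l1999 (L l2029 (T t39 N)))))))))) N)))))))))))) (K a125 (M a768 (L l1633 (F (T t83 (L l1599 (L l1623 (T t434 (L l141 (L l2507 (T t432 (K a807 (M a795 (F (T t83 (L l1599 (L l1623 (T t454 (L l141 (L l2507 (T t432 N))))))))) (K a795 (M a807 (F (T t83 (L l1599 (L l1623 (T t454 (L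 l141 (L l2507 (T t432 N))))))))) N)))))))))))) (K a150 (M a768 (L l1633 (F (T t433 (L l350 (L l1599 (L l1623 (T t434 (L l1999 (L l2029 (T t32 (K a807 (M a795 (F (T t433 (L l350 (L l1999 (L l2029 (T t39 (L l1599 (L l1623 (T t454 N)))))))))) (K a795 (M a807 (F (T t433 (L l350 (L l1999 (L l2029 (T t39 (L l1599 (L l1623 (T t454 N)))))))))) N))))))))))))) (K a170 (M a48 (L l1633 (F (T t731 (L l2102 (L l2258 (T t740 (L l464 (L l2102 (L l2258 (T t734 (L l206 (L l218 (L l392 (L l404 (L l2102 (L l2258 (T t735 (K a807 (M a795 (F (T t731 (L l392 (L l404 (L l1609 (L l1621 (L l2258 (T t737 N))))))))) (K a795 (M a807 (F (T t731 (L l1615 (L l1621 (L l2258 (T t738 N))))))) N)))))))))))))))))))) (K a190 (M a768 (L l1633 (F (T t460 (L l1999 (L l2029 (T t32 (T t432 (K a807 (M a795 (F (T t38 (L l1599 (L l1623 (T t454 (T t432 N))))))) (K a795 (M a807 (F (T t38 (L l1599 (L l1623 (T t454 (T t432 N))))))) N)))))))))) (K a195 (M a768 (L l1633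 (L l3187 (L l3307 (F (T t83 (L l1599 (L l1623 (L l3333 (T t434 (L l1897 (L l2047 (L l2731 (T t429 (K a403 (M a611 (L l1633 (L l3187 (F (T t38 (L l1897 (L l2047 (L l2731 (T t456 (L l1599 (L l1623 (L l3333 (T t454 (K a391 (M a587 (L l1633 (F (T t38 (L l1897 (L l2047 (L l2731 (T t456 (L l1599 (L l1623 (L l3333 (T t454 (K a807 (M a795 (F (T t38 (L l1897 (L l2047 (L l2731 (T t456 (L l1599 (L l1623 (L l3333 (T t454 N))))))))))) (K a795 (M a807 (F (T t38 (L l1897 (L l2047 (L l2731 (T t456 (L l1599 (L l1623 (L l3333 (T t454 N))))))))))) N)))))))))))))) (K a807 (M a795 (L l3187 (F (T t38 (L l1897 (L l2047 (L l2731 (T t456 (L l1599 (L l1623 (L l3333 (T t454 (K a391 (M a587 (F (T t38 (L l1897 (L l2047 (L l2731 (T t456 (L l1599 (L l1623 (L l3333 (T t454 N))))))))))) (K a587 (M a391 (F (T t38 (L l1897 (L l2047 (L l2731 (T t456 (L l1599 (L l1623 (L l3333 (T t454 N))))))))))) N)))))))))))))) (K a587 (M a391 (L l1633 (F (T t38 (L l1897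 (L l2047 (L l2731 (T t456 (L l1599 (L l1623 (L l3333 (T t454 (K a807 (M a795 (F (T t38 (L l1897 (L l2047 (L l2731 (T t456 (L l1599 (L l1623 (L l3333 (T t454 N))))))))))) (K a795 (M a807 (F (T t38 (L l1897 (L l2047 (L l2731 (T t456 (L l1599 (L l1623 (L l3333 (T t454 N))))))))))) N)))))))))))))) (K a795 (M a807 (L l3187 (F (T t38 (L l1897 (L l2047 (L l2731 (T t456 (L l1599 (L l1623 (L l3333 (T t454 (K a391 (M a587 (F (T t38 (L l1897 (L l2047 (L l2731 (T t456 (L l1599 (L l1623 (L l3333 (T t454 N))))))))))) (K a587 (M a391 (F (T t38 (L l1897 (L l2047 (L l2731 (T t456 (L l1599 (L l1623 (L l3333 (T t454 N))))))))))) N)))))))))))))) N))))))))))))))))) (K a611 (M a403 (L l1633 (L l3187 (F (T t38 (L l1897 (L l2047 (L l2731 (T t456 (L l1599 (L l1623 (L l3333 (T t454 (K a391 (M a587 (L l1633 (F (T t38 (L l1897 (L l2047 (L l2731 (T t456 (L l1599 (L l1623 (L l3333 (T t454 (K a807 (M a795 (F (T t38 (L l1897 (L l2047 (L l2731 (T t456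 (L l1599 (L l1623 (L l3333 (T t454 N))))))))))) (K a795 (M a807 (F (T t38 (L l1897 (L l2047 (L l2731 (T t456 (L l1599 (L l1623 (L l3333 (T t454 N))))))))))) N)))))))))))))) (K a807 (M a795 (L l3187 (F (T t38 (L l1897 (L l2047 (L l2731 (T t456 (L l1599 (L l1623 (L l3333 (T t454 (K a391 (M a587 (F (T t38 (L l1897 (L l2047 (L l2731 (T t456 (L l1599 (L l1623 (L l3333 (T t454 N))))))))))) (K a587 (M a391 (F (T t38 (L l1897 (L l2047 (L l2731 (T t456 (L l1599 (L l1623 (L l3333 (T t454 N))))))))))) N)))))))))))))) (K a587 (M a391 (L l1633 (F (T t38 (L l1897 (L l2047 (L l2731 (T t456 (L l1599 (L l1623 (L l3333 (T t454 (K a807 (M a795 (F (T t38 (L l1897 (L l2047 (L l2731 (T t456 (L l1599 (L l1623 (L l3333 (T t454 N))))))))))) (K a795 (M a807 (F (T t38 (L l1897 (L l2047 (L l2731 (T t456 (L l1599 (L l1623 (L l3333 (T t454 N))))))))))) N)))))))))))))) (K a795 (M a807 (L l3187 (F (T t38 (L l1897 (L l2047 (L l2731 (T t456 (L l1599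 (L l1623 (L l3333 (T t454 (K a391 (M a587 (F (T t38 (L l1897 (L l2047 (L l2731 (T t456 (L l1599 (L l1623 (L l3333 (T t454 N))))))))))) (K a587 (M a391 (F (T t38 (L l1897 (L l2047 (L l2731 (T t456 (L l1599 (L l1623 (L l3333 (T t454 N))))))))))) N)))))))))))))) N))))))))))))))))) (K a391 (M a587 (L l1633 (L l3307 (F (T t38 (L l1897 (L l2047 (L l2731 (T t456 (L l1599 (L l1623 (L l3333 (T t454 (K a403 (M a611 (L l1633 (F (T t38 (L l1897 (L l2047 (L l2731 (T t456 (L l1599 (L l1623 (L l3333 (T t454 (K a807 (M a795 (F (T t38 (L l1897 (L l2047 (L l2731 (T t456 (L l1599 (L l1623 (L l3333 (T t454 N))))))))))) (K a795 (M a807 (F (T t38 (L l1897 (L l2047 (L l2731 (T t456 (L l1599 (L l1623 (L l3333 (T t454 N))))))))))) N)))))))))))))) (K a611 (M a403 (L l1633 (F (T t38 (L l1897 (L l2047 (L l2731 (T t456 (L l1599 (L l1623 (L l3333 (T t454 (K a807 (M a795 (F (T t38 (L l1897 (L l2047 (L l2731 (T t456 (L l1599 (L l1623 (L l3333 (T t454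 N))))))))))) (K a795 (M a807 (F (T t38 (L l1897 (L l2047 (L l2731 (T t456 (L l1599 (L l1623 (L l3333 (T t454 N))))))))))) N)))))))))))))) (K a807 (M a795 (L l3307 (F (T t38 (L l1897 (L l2047 (L l2731 (T t456 (L l1599 (L l1623 (L l3333 (T t454 (K a403 (M a611 (F (T t38 (L l1897 (L l2047 (L l2731 (T t456 (L l1599 (L l1623 (L l3333 (T t454 N))))))))))) (K a611 (M a403 (F (T t38 (L l1897 (L l2047 (L l2731 (T t456 (L l1599 (L l1623 (L l3333 (T t454 N))))))))))) N)))))))))))))) (K a795 (M a807 (L l3307 (F (T t38 (L l1897 (L l2047 (L l2731 (T t456 (L l1599 (L l1623 (L l3333 (T t454 (K a403 (M a611 (F (T t38 (L l1897 (L l2047 (L l2731 (T t456 (L l1599 (L l1623 (L l3333 (T t454 N))))))))))) (K a611 (M a403 (F (T t38 (L l1897 (L l2047 (L l2731 (T t456 (L l1599 (L l1623 (L l3333 (T t454 N))))))))))) N)))))))))))))) N))))))))))))))))) (K a807 (M a795 (L l3187 (L l3307 (F (T t38 (L l1897 (L l2047 (L l2731 (T t456 (L l1599 (L l1623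 (L l3333 (T t454 (K a403 (M a611 (L l3187 (F (T t38 (L l1897 (L l2047 (L l2731 (T t456 (L l1599 (L l1623 (L l3333 (T t454 (K a391 (M a587 (F (T t38 (L l1897 (L l2047 (L l2731 (T t456 (L l1599 (L l1623 (L l3333 (T t454 N))))))))))) (K a587 (M a391 (F (T t38 (L l1897 (L l2047 (L l2731 (T t456 (L l1599 (L l1623 (L l3333 (T t454 N))))))))))) N)))))))))))))) (K a611 (M a403 (L l3187 (F (T t38 (L l1897 (L l2047 (L l2731 (T t456 (L l1599 (L l1623 (L l3333 (T t454 (K a391 (M a587 (F (T t38 (L l1897 (L l2047 (L l2731 (T t456 (L l1599 (L l1623 (L l3333 (T t454 N))))))))))) (K a587 (M a391 (F (T t38 (L l1897 (L l2047 (L l2731 (T t456 (L l1599 (L l1623 (L l3333 (T t454 N))))))))))) N)))))))))))))) (K a391 (M a587 (L l3307 (F (T t38 (L l1897 (L l2047 (L l2731 (T t456 (L l1599 (L l1623 (L l3333 (T t454 (K a403 (M a611 (F (T t38 (L l1897 (L l2047 (L l2731 (T t456 (L l1599 (L l1623 (L l3333 (T t454 N))))))))))) (K a611 (M a403 (F (T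 t38 (L l1897 (L l2047 (L l2731 (T t456 (L l1599 (L l1623 (L l3333 (T t454 N))))))))))) N)))))))))))))) (K a587 (M a391 (L l3307 (F (T t38 (L l1897 (L l2047 (L l2731 (T t456 (L l1599 (L l1623 (L l3333 (T t454 (K a403 (M a611 (F (T t38 (L l1897 (L l2047 (L l2731 (T t456 (L l1599 (L l1623 (L l3333 (T t454 N))))))))))) (K a611 (M a403 (F (T t38 (L l1897 (L l2047 (L l2731 (T t456 (L l1599 (L l1623 (L l3333 (T t454 N))))))))))) N)))))))))))))) N))))))))))))))))) (K a587 (M a391 (L l1633 (L l3307 (F (T t38 (L l1897 (L l2047 (L l2731 (T t456 (L l1599 (L l1623 (L l3333 (T t454 (K a403 (M a611 (L l1633 (F (T t38 (L l1897 (L l2047 (L l2731 (T t456 (L l1599 (L l1623 (L l3333 (T t454 (K a807 (M a795 (F (T t38 (L l1897 (L l2047 (L l2731 (T t456 (L l1599 (L l1623 (L l3333 (T t454 N))))))))))) (K a795 (M a807 (F (T t38 (L l1897 (L l2047 (L l2731 (T t456 (L l1599 (L l1623 (L l3333 (T t454 N))))))))))) N)))))))))))))) (K a611 (M a403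 (L l1633 (F (T t38 (L l1897 (L l2047 (L l2731 (T t456 (L l1599 (L l1623 (L l3333 (T t454 (K a807 (M a795 (F (T t38 (L l1897 (L l2047 (L l2731 (T t456 (L l1599 (L l1623 (L l3333 (T t454 N))))))))))) (K a795 (M a807 (F (T t38 (L l1897 (L l2047 (L l2731 (T t456 (L l1599 (L l1623 (L l3333 (T t454 N))))))))))) N)))))))))))))) (K a807 (M a795 (L l3307 (F (T t38 (L l1897 (L l2047 (L l2731 (T t456 (L l1599 (L l1623 (L l3333 (T t454 (K a403 (M a611 (F (T t38 (L l1897 (L l2047 (L l2731 (T t456 (L l1599 (L l1623 (L l3333 (T t454 N))))))))))) (K a611 (M a403 (F (T t38 (L l1897 (L l2047 (L l2731 (T t456 (L l1599 (L l1623 (L l3333 (T t454 N))))))))))) N)))))))))))))) (K a795 (M a807 (L l3307 (F (T t38 (L l1897 (L l2047 (L l2731 (T t456 (L l1599 (L l1623 (L l3333 (T t454 (K a403 (M a611 (F (T t38 (L l1897 (L l2047 (L l2731 (T t456 (L l1599 (L l1623 (L l3333 (T t454 N))))))))))) (K a611 (M a403 (F (T t38 (L l1897 (L l2047 (L l2731 (T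 t456 (L l1599 (L l1623 (L l3333 (T t454 N))))))))))) N)))))))))))))) N))))))))))))))))) (K a795 (M a807 (L l3187 (L l3307 (F (T t38 (L l1897 (L l2047 (L l2731 (T t456 (L l1599 (L l1623 (L l3333 (T t454 (K a403 (M a611 (L l3187 (F (T t38 (L l1897 (L l2047 (L l2731 (T t456 (L l1599 (L l1623 (L l3333 (T t454 (K a391 (M a587 (F (T t38 (L l1897 (L l2047 (L l2731 (T t456 (L l1599 (L l1623 (L l3333 (T t454 N))))))))))) (K a587 (M a391 (F (T t38 (L l1897 (L l2047 (L l2731 (T t456 (L l1599 (L l1623 (L l3333 (T t454 N))))))))))) N)))))))))))))) (K a611 (M a403 (L l3187 (F (T t38 (L l1897 (L l2047 (L l2731 (T t456 (L l1599 (L l1623 (L l3333 (T t454 (K a391 (M a587 (F (T t38 (L l1897 (L l2047 (L l2731 (T t456 (L l1599 (L l1623 (L l3333 (T t454 N))))))))))) (K a587 (M a391 (F (T t38 (L l1897 (L l2047 (L l2731 (T t456 (L l1599 (L l1623 (L l3333 (T t454 N))))))))))) N)))))))))))))) (K a391 (M a587 (L l3307 (F (T t38 (L l1897 (L l2047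 (L l2731 (T t456 (L l1599 (L l1623 (L l3333 (T t454 (K a403 (M a611 (F (T t38 (L l1897 (L l2047 (L l2731 (T t456 (L l1599 (L l1623 (L l3333 (T t454 N))))))))))) (K a611 (M a403 (F (T t38 (L l1897 (L l2047 (L l2731 (T t456 (L l1599 (L l1623 (L l3333 (T t454 N))))))))))) N)))))))))))))) (K a587 (M a391 (L l3307 (F (T t38 (L l1897 (L l2047 (L l2731 (T t456 (L l1599 (L l1623 (L l3333 (T t454 (K a403 (M a611 (F (T t38 (L l1897 (L l2047 (L l2731 (T t456 (L l1599 (L l1623 (L l3333 (T t454 N))))))))))) (K a611 (M a403 (F (T t38 (L l1897 (L l2047 (L l2731 (T t456 (L l1599 (L l1623 (L l3333 (T t454 N))))))))))) N)))))))))))))) N))))))))))))))))) N)))))))))))))))))))) (K a807 (M a795 (F (T t419 (L l3187 (L l3307 (T t420 (L l3187 (L l3307 (T t421 (L l3187 (L l3307 (T t422 (L l3187 (L l3307 (T t423 (K a20 (M a48 (F (T t730 (L l3181 (L l3337 (T t137 (L l350 (T t426 N)))))))) (K a40 (M a48 (F (T t732 (L l392 (L l3181 (L l3337 (T t137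 (L l52 (T t426 N))))))))) (K a85 (M a48 (F (T t736 (L l1609 (L l1621 (L l2258 (T t737 N))))))) (K a105 (M a768 (F (T t739 (L l1599 (L l1623 (T t454 (L l141 (L l1999 (L l2029 (T t39 N)))))))))) (K a125 (M a768 (F (T t83 (L l1599 (L l1623 (T t454 (L l141 (L l2507 (T t432 N))))))))) (K a150 (M a768 (F (T t433 (L l350 (L l1999 (L l2029 (T t39 (L l1599 (L l1623 (T t454 N)))))))))) (K a170 (M a48 (F (T t731 (L l392 (L l404 (L l1609 (L l1621 (L l2258 (T t737 N))))))))) (K a190 (M a768 (F (T t38 (L l1599 (L l1623 (T t454 (T t432 N))))))) (K a195 (M a768 (L l3187 (L l3307 (F (T t38 (L l1897 (L l2047 (L l2731 (T t456 (L l1599 (L l1623 (L l3333 (T t454 (K a403 (M a611 (L l3187 (F (T t38 (L l1897 (L l2047 (L l2731 (T t456 (L l1599 (L l1623 (L l3333 (T t454 (K a391 (M a587 (F (T t38 (L l1897 (L l2047 (L l2731 (T t456 (L l1599 (L l1623 (L l3333 (T t454 N))))))))))) (K a587 (M a391 (F (T t38 (L l1897 (L l2047 (L l2731 (T t456 (L l1599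 (L l1623 (L l3333 (T t454 N))))))))))) N)))))))))))))) (K a611 (M a403 (L l3187 (F (T t38 (L l1897 (L l2047 (L l2731 (T t456 (L l1599 (L l1623 (L l3333 (T t454 (K a391 (M a587 (F (T t38 (L l1897 (L l2047 (L l2731 (T t456 (L l1599 (L l1623 (L l3333 (T t454 N))))))))))) (K a587 (M a391 (F (T t38 (L l1897 (L l2047 (L l2731 (T t456 (L l1599 (L l1623 (L l3333 (T t454 N))))))))))) N)))))))))))))) (K a391 (M a587 (L l3307 (F (T t38 (L l1897 (L l2047 (L l2731 (T t456 (L l1599 (L l1623 (L l3333 (T t454 (K a403 (M a611 (F (T t38 (L l1897 (L l2047 (L l2731 (T t456 (L l1599 (L l1623 (L l3333 (T t454 N))))))))))) (K a611 (M a403 (F (T t38 (L l1897 (L l2047 (L l2731 (T t456 (L l1599 (L l1623 (L l3333 (T t454 N))))))))))) N)))))))))))))) (K a587 (M a391 (L l3307 (F (T t38 (L l1897 (L l2047 (L l2731 (T t456 (L l1599 (L l1623 (L l3333 (T t454 (K a403 (M a611 (F (T t38 (L l1897 (L l2047 (L l2731 (T t456 (L l1599 (L l1623 (L l3333 (T t454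 N))))))))))) (K a611 (M a403 (F (T t38 (L l1897 (L l2047 (L l2731 (T t456 (L l1599 (L l1623 (L l3333 (T t454 N))))))))))) N)))))))))))))) N))))))))))))))))) N)))))))))))))))))))))))) (K a795 (M a807 (F (T t419 (L l3187 (L l3307 (T t420 (L l3187 (L l3307 (T t421 (L l3187 (L l3307 (T t422 (L l3187 (L l3307 (T t423 (K a20 (M a48 (F (T t730 (L l3181 (L l3337 (T t137 (L l350 (T t426 N)))))))) (K a40 (M a48 (F (T t732 (L l392 (L l3181 (L l3337 (T t137 (L l52 (T t426 N))))))))) (K a85 (M a48 (F (T t736 (L l350 (L l368 (L l1615 (L l1621 (L l2258 (T t738 N))))))))) (K a105 (M a768 (F (T t739 (L l1599 (L l1623 (T t454 (L l141 (L l1999 (L l2029 (T t39 N)))))))))) (K a125 (M a768 (F (T t83 (L l1599 (L l1623 (T t454 (L l141 (L l2507 (T t432 N))))))))) (K a150 (M a768 (F (T t433 (L l350 (L l1999 (L l2029 (T t39 (L l1599 (L l1623 (T t454 N)))))))))) (K a170 (M a48 (F (T t731 (L l1615 (L l1621 (L l2258 (T t738 N))))))) (K a190 (M a768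 (F (T t38 (L l1599 (L l1623 (T t454 (T t432 N))))))) (K a195 (M a768 (L l3187 (L l3307 (F (T t38 (L l1897 (L l2047 (L l2731 (T t456 (L l1599 (L l1623 (L l3333 (T t454 (K a403 (M a611 (L l3187 (F (T t38 (L l1897 (L l2047 (L l2731 (T t456 (L l1599 (L l1623 (L l3333 (T t454 (K a391 (M a587 (F (T t38 (L l1897 (L l2047 (L l2731 (T t456 (L l1599 (L l1623 (L l3333 (T t454 N))))))))))) (K a587 (M a391 (F (T t38 (L l1897 (L l2047 (L l2731 (T t456 (L l1599 (L l1623 (L l3333 (T t454 N))))))))))) N)))))))))))))) (K a611 (M a403 (L l3187 (F (T t38 (L l1897 (L l2047 (L l2731 (T t456 (L l1599 (L l1623 (L l3333 (T t454 (K a391 (M a587 (F (T t38 (L l1897 (L l2047 (L l2731 (T t456 (L l1599 (L l1623 (L l3333 (T t454 N))))))))))) (K a587 (M a391 (F (T t38 (L l1897 (L l2047 (L l2731 (T t456 (L l1599 (L l1623 (L l3333 (T t454 N))))))))))) N)))))))))))))) (K a391 (M a587 (L l3307 (F (T t38 (L l1897 (L l2047 (L l2731 (T t456 (L l1599 (L l1623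 (L l3333 (T t454 (K a403 (M a611 (F (T t38 (L l1897 (L l2047 (L l2731 (T t456 (L l1599 (L l1623 (L l3333 (T t454 N))))))))))) (K a611 (M a403 (F (T t38 (L l1897 (L l2047 (L l2731 (T t456 (L l1599 (L l1623 (L l3333 (T t454 N))))))))))) N)))))))))))))) (K a587 (M a391 (L l3307 (F (T t38 (L l1897 (L l2047 (L l2731 (T t456 (L l1599 (L l1623 (L l3333 (T t454 (K a403 (M a611 (F (T t38 (L l1897 (L l2047 (L l2731 (T t456 (L l1599 (L l1623 (L l3333 (T t454 N))))))))))) (K a611 (M a403 (F (T t38 (L l1897 (L l2047 (L l2731 (T t456 (L l1599 (L l1623 (L l3333 (T t454 N))))))))))) N)))))))))))))) N))))))))))))))))) N)))))))))))))))))))))))) N)))))))))))))))))))))))))))⟩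
def e0_255__783_19 : Ent 5 := ⟨[a0, a255], [a783, a870], (M a192 (F (T t46 (L l2281 (T t19 (L l2281 (T t23 (L l2281 (T t22 (L l2281 (T t24 (K a64 (M a240 (F (T t84 (L l144 (L l2101 (T t80 (T t81 N))))))) (K a128 (M a240 (F (T t406 (L l3181 (T t304 (L l192 (L l220 (T t81 N)))))))) (K a85 (M a768 (F (T t85 (L l1899 (T t35 (L l347 (L l2339 (T t30 N)))))))) (K a149 (M a768 (F (T t85 (L l1899 (T t35 (L l2029 (T t32 N))))))) (K a213 (M a768 (F (T t62 (L l2029 (L l3203 (T t32 (L l1686 (T t33 N)))))))) (K a106 (M a768 (F (T t42 (L l1899 (T t35 (L l2029 (T t32 N))))))) (K a170 (M a768 (F (T t42 (L l1899 (T t35 (L l220 (T t30 N))))))) (K a234 (M a768 (F (T t38 (L l1899 (T t35 (L l390 (L l1686 (L l3246 (T t33 N))))))))) (K a63 (M a768 (L l2281 (F (T t38 (L l1899 (L l3159 (T t35 (L l1621 (L l2209 (T t29 (K a543 (M a303 (F (T t74 (L l1621 (L l2209 (T t48 (L l1899 (L l3159 (T t86 N))))))))) (K a303 (M a543 (F (T t74 (L l1621 (L l2209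 (T t48 (L l1899 (L l3159 (T t86 N))))))))) N)))))))))))) N))))))))))))))))))))⟩
def e0_255__783_20 : Ent 5 := ⟨[a0, a255], [a783, a882], (M a192 (F (T t46 (L l2281 (T t19 (L l2281 (T t23 (L l2281 (T t22 (L l2281 (T t24 (K a64 (M a240 (F (T t84 (L l144 (L l2101 (T t80 (T t81 N))))))) (K a128 (M a240 (F (T t406 (L l3181 (T t304 (L l192 (L l220 (T t81 N)))))))) (K a85 (M a768 (F (T t85 (L l1899 (T t35 (L l347 (L l2339 (T t30 N)))))))) (K a149 (M a768 (F (T t49 (L l1899 (T t35 (L l2029 (T t32 N))))))) (K a213 (M a768 (F (T t62 (L l2029 (L l3203 (T t32 (T t33 N))))))) (K a106 (M a768 (F (T t43 (L l1899 (T t35 (L l2029 (T t32 N))))))) (K a170 (M a768 (F (T t42 (L l1899 (T t35 (L l220 (T t30 N))))))) (K a234 (M a768 (F (T t37 (L l1899 (T t35 (L l390 (L l3246 (T t33 N)))))))) (K a63 (M a768 (L l2281 (F (T t38 (L l1899 (L l3159 (T t35 (L l1621 (L l2209 (T t29 (K a543 (M a303 (F (T t74 (L l1621 (L l2209 (T t48 (L l1899 (L l3159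 (T t86 N))))))))) (K a303 (M a543 (F (T t74 (L l1621 (L l2209 (T t48 (L l1899 (L l3159 (T t86 N))))))))) N)))))))))))) N))))))))))))))))))))⟩
def e0_255__783_21 : Ent 5 := ⟨[a0, a255], [a783, a887], (M a192 (F (T t46 (L l2281 (T t19 (L l2281 (T t23 (L l2281 (T t22 (L l2281 (T t24 (K a64 (M a240 (F (T t84 (L l144 (L l2101 (T t80 (T t81 N))))))) (K a128 (M a240 (F (T t406 (L l3181 (T t304 (L l192 (L l220 (T t81 N)))))))) (K a85 (M a768 (F (T t85 (L l1899 (T t35 (L l347 (L l1673 (L l2339 (T t30 N))))))))) (K a149 (M a768 (F (T t85 (L l1899 (T t35 (L l1999 (L l2029 (T t32 N)))))))) (K a213 (M a768 (F (T t62 (L l1999 (L l2029 (L l3203 (T t32 (L l1686 (T t33 N))))))))) (K a106 (M a768 (F (T t42 (L l1899 (T t35 (L l1999 (L l2029 (T t32 N)))))))) (K a170 (M a768 (F (T t42 (L l1899 (T t35 (L l220 (L l1673 (T t30 N)))))))) (K a234 (M a768 (F (T t37 (L l1899 (T t35 (L l390 (L l1686 (L l3246 (T t33 N))))))))) (K a63 (M a768 (L l2281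 (F (T t74 (L l1899 (L l3159 (T t35 (L l1621 (L l2209 (T t29 (K a543 (M a303 (F (T t38 (L l1621 (L l2209 (T t48 (L l1899 (L l3159 (T t86 N))))))))) (K a303 (M a543 (F (T t38 (L l1621 (L l2209 (T t48 (L l1899 (L l3159 (T t86 N))))))))) N)))))))))))) N))))))))))))))))))))⟩
def b0_255__783 : Blk 5 := ⟨[0, 255], [783], [17, 27, 51, 102, 114, 119, 273, 283, 290, 295, 307, 358, 370, 375, 433, 443, 785, 795, 819, 870, 882, 887], [e0_255__783_0, e0_255__783_1, e0_255__783_2, e0_255__783_3, e0_255__783_4, e0_255__783_5, e0_255__783_6, e0_255__783_7, e0_255__783_8, e0_255__783_9, e0_255__783_10, e0_255__783_11, e0_255__783_12, e0_255__783_13, e0_255__783_14, e0_255__783_15, e0_255__783_16, e0_255__783_17, e0_255__783_18, e0_255__783_19, e0_255__783_20, e0_255__783_21], by decide +kernel, by decide +kernel⟩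

end Pool.Agent.Lib_TTT.K5
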