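import Pool.Agent.Lib_TTT.K5Base
import Pool.Agent.Lib_TTT.K5T00
import Pool.Agent.Lib_TTT.K5T01

/-! Certificates in `4^5`. -/

set_option autoImplicit false
set_option maxRecDepth 200000

namespace Pool.Agent.Lib_TTT.K5

open Lib_TTT AC DC

def e0_255__795_0 : Ent 5 := ⟨[a0, a255], [a795, a5], (M a341 (F (T t0 (L l455 (T t1 (T t2 (T t3 (K a256 (M a1008 (F (T t4 (T t5 N)))) (K a768 (M a64 (F (T t6 (L l2231 (T t7 (L l2036 (T t8 N))))))) (K a85 (M a192 (L l455 (F (T t9 (T t10 (L l347 (T t11 (K a165 (M a245 (F (T t12 (L l311 (T t13 N))))) (K a245 (M a165 (F (T t12 (L l275 (L l347 (T t11 (T t10 N))))))) N))))))))) (K a597 (M a64 (F (T t14 (L l2511 (T t15 (L l1184 (T t16 N))))))) (K a853 (Fr a682 a1023 l3116 (Fr a170 a85 l476 (Fr a426 a938 l2598 (Fr a768 a597 l3375 (V t402))))) (K a170 (M a192 (F (T t18 (L l2598 (T t10 (L l220 (T t11 N))))))) (K a426 (M a192 (F (T t9 (L l455 (T t19 (L l2598 (T t10 N))))))) (K a682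 (M a64 (F (L l2684 (T t20 (L l2598 (T t8 (L l2598 (L l2684 (T t15 (L l2684 (T t21 N))))))))))) (K a1023 (M a64 (F (T t6 (L l1993 (T t20 (L l1993 (L l2036 (T t8 N)))))))) N))))))))))))))))⟩
def e0_255__795_1 : Ent 5 := ⟨[a0, a255], [a795, a10], (M a192 (F (T t22 (L l54 (T t19 (L l462 (T t23 (L l462 (T t24 (K a64 (M a240 (F (L l462 (T t26 (L l318 (T t304 (L l54 (L l116 (L l144 (T t27 N)))))))))) (K a128 (M a240 (F (T t25 (L l192 (L l220 (L l462 (T t26 (L l54 (T t27 N))))))))) (K a85 (M a768 (F (T t28 (L l347 (L l2339 (T t29 (L l347 (L l2339 (T t30 N))))))))) (K a149 (M a768 (F (T t31 (L l347 (T t29 (T t32 N)))))) (K a213 (M a768 (F (T t31 (L l3203 (T t32 (L l462 (T t33 N))))))) (K a106 (M a768 (F (T t28 (T t29 (T t32 N))))) (K a170 (M a768 (L l462 (F (T t31 (T t29 (L l220 (T t30 (K a90 (M a250 (F (T t31 (L l1633 (L l2094 (T t34 N)))))) (K a250 (M a90 (F (T t35 (T t29 (L l2598 (L l3354 (T t36 N))))))) N)))))))))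 (K a234 (M a768 (F (T t31 (T t32 (L l390 (L l462 (L l3246 (T t33 N)))))))) (K a63 (M a768 (F (T t37 (L l3159 (T t35 (L l2209 (T t29 N))))))) N))))))))))))))))))⟩
def e0_255__795_2 : Ent 5 := ⟨[a0, a255], [a795, a15], (M a192 (F (T t46 (L l61 (T t19 (L l61 (T t23 (L l61 (T t22 (L l61 (T t24 (K a64 (M a204 (F (T t183 (L l73 (L l144 (T t184 (L l80 (L l144 (T t185 N))))))))) (K a128 (M a204 (F (T t186 (L l481 (T t187 (T t185 N)))))) (K a85 (M a768 (F (T t85 (L l2979 (T t35 (L l347 (L l2339 (T t30 N)))))))) (K a149 (M a768 (F (T t49 (L l2979 (T t35 (L l3109 (T t32 N))))))) (K a213 (M a768 (F (T t62 (L l3109 (L l3203 (T t32 (T t33 N))))))) (K a106 (M a768 (F (T t43 (L l2979 (T t35 (L l3109 (T t32 N))))))) (K a170 (M a768 (F (T t42 (L l2979 (T t35 (L l220 (T t30 N))))))) (K a234 (M a768 (F (T t37 (L l2979 (T t35 (L l390 (L l3246 (T t33 N)))))))) (K a63 (M a768 (L l61 (F (T t38 (L l2979 (L l3159 (T t35 (L l2209 (L l2245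 (T t29 (K a31 (M a47 (F (T t74 (L l2209 (L l2245 (T t48 (L l2979 (L l3159 (T t86 N))))))))) (K a47 (M a31 (F (T t74 (L l2209 (L l2245 (T t48 (L l2979 (L l3159 (T t86 N))))))))) N)))))))))))) N))))))))))))))))))))⟩
def e0_255__795_3 : Ent 5 := ⟨[a0, a255], [a795, a39], (M a192 (F (T t19 (T t23 (T t22 (T t24 (K a64 (M a240 (F (T t79 (L l73 (L l144 (T t80 (T t81 N))))))) (K a128 (M a240 (F (T t79 (L l73 (T t80 (L l192 (L l220 (T t81 N)))))))) (K a85 (M a768 (F (T t28 (L l347 (L l2339 (T t29 (L l347 (L l2339 (T t30 N))))))))) (K a149 (M a768 (F (T t40 (T t35 (L l347 (T t29 N)))))) (K a213 (M a768 (F (T t31 (L l3203 (T t32 (T t33 N)))))) (K a106 (M a768 (F (T t40 (T t35 (T t29 N))))) (K a170 (M a768 (F (T t31 (T t29 (L l220 (T t30 N)))))) (K a234 (M a768 (F (T t31 (T t32 (L l390 (L l3246 (T t33 N))))))) (K a63 (M a768 (F (T t83 (L l3159 (T t35 (L l2209 (T t29 N))))))) N)))))))))))))))⟩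
def e0_255__795_4 : Ent 5 := ⟨[a0, a255], [a795, a68], (M a341 (F (T t0 (L l126 (T t1 (T t2 (T t3 (K a256 (M a64 (F (T t15 (L l588 (T t7 (L l824 (T t8 N))))))) (K a768 (M a64 (F (T t7 (L l2295 (T t15 (L l2036 (T t8 N))))))) (K a85 (M a48 (L l126 (F (T t87 (T t88 (L l123 (T t89 (K a102 (M a119 (F (T t90 (L l122 (T t91 N))))) (K a119 (M a102 (F (T t87 (T t88 (L l107 (L l123 (T t89 N))))))) N))))))))) (K a597 (M a64 (F (T t92 (L l2511 (T t15 (L l1184 (T t16 N))))))) (K a853 (Fr a682 a1023 l3116 (Fr a170 a85 l476 (Fr a426 a938 l2598 (Fr a768 a597 l3375 (V t402))))) (K a170 (M a192 (F (L l220 (T t9 (L l2598 (T t10 (L l220 (T t11 N)))))))) (K a426 (M a192 (F (T t9 (L l126 (T t19 (L l2598 (T t10 N))))))) (K a682 (M a64 (F (L l2684 (T t20 (L l2598 (T t8 (L l2598 (L l2684 (T t15 (L l2684 (T t21 N))))))))))) (K a1023 (M a64 (F (T t73 (L l1993 (T t20 (L l1993 (L l2036 (T t8 N)))))))) N))))))))))))))))⟩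
def e0_255__795_5 : Ent 5 := ⟨[a0, a255], [a795, a80], (M a341 (F (T t0 (L l94 (T t1 (T t2 (T t3 (K a256 (M a64 (F (T t15 (L l588 (T t7 (L l824 (T t8 N))))))) (K a768 (M a64 (F (T t7 (L l2295 (T t15 (L l2036 (T t8 N))))))) (K a85 (M a12 (L l94 (F (T t93 (T t94 (L l91 (T t95 (K a90 (M a95 (F (T t96 (L l90 (T t97 N))))) (K a95 (M a90 (F (T t93 (T t94 (L l89 (L l91 (T t95 N))))))) N))))))))) (K a597 (M a64 (F (T t92 (L l2511 (T t15 (L l1184 (T t16 N))))))) (K a853 (Fr a682 a1023 l3116 (Fr a170 a85 l476 (Fr a426 a938 l2598 (Fr a768 a597 l3375 (V t402))))) (K a170 (M a192 (F (L l220 (T t9 (L l2598 (T t10 (L l220 (T t11 N)))))))) (K a426 (M a192 (F (T t9 (L l94 (T t19 (L l2598 (T t10 N))))))) (K a682 (M a64 (F (L l2684 (T t20 (L l2598 (T t8 (L l2598 (L l2684 (T t15 (L l2684 (T t21 N))))))))))) (K a1023 (M a64 (F (T t73 (L l1993 (T t20 (L l1993 (L l2036 (T t8 N)))))))) N))))))))))))))))⟩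
def e0_255__795_6 : Ent 5 := ⟨[a0, a255], [a795, a90], (M a341 (F (T t3 (L l462 (T t0 (L l94 (T t1 (L l462 (T t2 (K a256 (M a204 (F (T t98 (L l462 (T t99 N))))) (K a768 (M a64 (F (T t7 (L l462 (L l2295 (T t15 (L l462 (L l2036 (T t8 N))))))))) (K a85 (M a240 (L l94 (F (T t100 (L l455 (T t101 (T t102 (K a80 (M a95 (F (L l455 (T t555 (L l1633 (T t103 (L l462 (L l2332 (T t104 (L l462 (L l2346 (T t105 N)))))))))))) (K a95 (Fr a80 a160 l448 (V t106)) N))))))))) (K a597 (M a64 (F (T t92 (L l462 (L l2511 (T t15 (L l130 (L l462 (L l1184 (T t16 N)))))))))) (K a853 (Fr a682 a1023 l3116 (Fr a170 a85 l476 (Fr a426 a938 l2598 (Fr a768 a597 l3375 (V t402))))) (K a170 (M a192 (L l462 (F (T t18 (L l2598 (T t10 (L l220 (T t11 (K a10 (M a250 (F (T t107 (L l318 (T t108 N))))) (K a250 (M a10 (F (L l2850 (T t109 (L l220 (T t11 N)))))) N)))))))))) (K a426 (M a192 (F (T t9 (L l94 (T t19 (L l2598 (T t10 N))))))) (K a682 (M a64 (F (L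 l2684 (T t20 (L l462 (L l2598 (T t8 (L l462 (L l2598 (L l2684 (T t15 (L l2684 (T t21 N))))))))))))) (K a1023 (M a64 (F (L l462 (T t73 (L l1993 (T t20 (L l462 (L l1993 (L l2036 (T t8 N)))))))))) N))))))))))))))))))⟩
def e0_255__795_7 : Ent 5 := ⟨[a0, a255], [a795, a95], (M a252 (F (T t110 (L l94 (T t111 (L l93 (T t112 (L l94 (T t113 (K a84 (M a192 (F (T t114 (L l87 (L l94 (T t19 (L l87 (L l94 (L l140 (T t115 N)))))))))) (K a168 (M a192 (F (T t116 (L l94 (T t19 (L l94 (L l388 (T t115 N)))))))) (K a85 (M a240 (L l94 (F (T t117 (L l89 (T t118 (L l87 (L l455 (L l473 (T t119 (L l89 (L l458 (T t120 (K a80 (M a90 (F (L l455 (T t121 (L l86 (L l87 (T t122 (T t117 N)))))))) (K a90 (Fr a80 a160 l448 (V t123)) N))))))))))))))) (K a169 (M a768 (F (T t124 (L l473 (L l2367 (T t125 (L l2367 (T t32 N)))))))) (K a253 (M a768 (F (T t126 (L l2367 (L l3371 (T t32 (L l94 (L l473 (L l2367 (L l3371 (T t127 N))))))))))) (K a86 (M a768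 (F (T t126 (L l2367 (T t125 (L l2367 (T t32 N))))))) (K a170 (M a768 (F (T t128 (L l2367 (T t125 (L l174 (L l2367 (T t129 N)))))))) (K a254 (M a768 (F (T t126 (L l2367 (T t32 (L l94 (L l2367 (T t127 N)))))))) (K a3 (M a768 (F (T t74 (L l3117 (T t124 (L l2083 (L l2367 (T t125 N)))))))) N))))))))))))))))))⟩
def e0_255__795_8 : Ent 5 := ⟨[a0, a255], [a795, a102], (M a341 (F (T t3 (L l402 (T t0 (L l126 (T t1 (L l402 (T t2 (K a256 (M a240 (F (T t102 (L l402 (T t415 N))))) (K a768 (M a64 (F (T t7 (L l402 (L l2295 (T t15 (L l402 (L l2036 (T t8 N))))))))) (K a85 (M a48 (L l126 (F (T t87 (T t88 (L l123 (T t89 (K a68 (M a119 (F (T t90 (L l122 (T t91 N))))) (K a119 (M a68 (F (T t87 (L l365 (L l2413 (T t131 N)))))) N))))))))) (K a597 (M a64 (F (T t92 (L l402 (L l2511 (T t15 (L l102 (L l402 (L l1184 (T t16 N)))))))))) (K a853 (Fr a682 a1023 l3116 (Fr a170 a85 l476 (Fr a426 a938 l2598 (Fr a768 a597 l3375 (V t402))))) (K a170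 (M a192 (L l402 (F (T t18 (L l2598 (T t10 (L l220 (T t11 (K a34 (M a238 (F (T t107 (L l378 (T t132 N))))) (K a238 (M a34 (F (L l2820 (T t133 (L l220 (T t11 N)))))) N)))))))))) (K a426 (M a192 (F (T t9 (L l126 (T t19 (L l2598 (T t10 N))))))) (K a682 (M a64 (F (L l2684 (T t20 (L l402 (L l2598 (T t8 (L l402 (L l2598 (L l2684 (T t15 (L l2684 (T t21 N))))))))))))) (K a1023 (M a64 (F (L l402 (T t73 (L l1993 (T t20 (L l402 (L l1993 (L l2036 (T t8 N)))))))))) N))))))))))))))))))⟩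
def e0_255__795_9 : Ent 5 := ⟨[a0, a255], [a795, a119], (M a192 (F (T t23 (L l126 (T t19 (L l126 (T t22 (L l113 (T t24 (K a64 (M a240 (F (T t79 (L l126 (L l144 (T t80 (T t81 N))))))) (K a128 (M a240 (F (T t79 (L l126 (T t80 (L l192 (L l220 (T t81 N)))))))) (K a85 (M a768 (L l126 (F (T t28 (L l347 (L l2339 (L l2487 (T t29 (L l347 (L l2339 (L l2487 (T t30 (K a68 (M a102 (F (T t35 (L l347 (L l2339 (L l2487 (T t29 (L l80 (L l144 (T t36 N)))))))))) (K a102 (M a68 (F (T t35 (L l365 (L l1633 (L l2339 (L l2487 (T t134 N)))))))) N)))))))))))))) (K a149 (M a768 (F (T t31 (L l347 (L l2487 (T t29 (L l2487 (T t32 N)))))))) (K a213 (M a768 (F (T t31 (L l2487 (L l3203 (T t32 (T t33 N))))))) (K a106 (M a768 (F (T t35 (L l2487 (T t29 (L l2487 (T t32 N))))))) (K a170 (M a768 (F (T t31 (L l2487 (T t29 (L l220 (L l2487 (T t30 N)))))))) (K a234 (M a768 (F (T t31 (L l2487 (T t32 (L l390 (L l3246 (T t33 N)))))))) (K a63 (M a768 (F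 (T t74 (L l3159 (T t35 (L l2209 (L l2487 (T t29 N)))))))) N))))))))))))))))))⟩
def e0_255__795_10 : Ent 5 := ⟨[a0, a255], [a795, a204], (M a192 (F (T t46 (L l507 (T t19 (L l507 (T t23 (L l507 (T t22 (L l507 (T t24 (K a64 (M a240 (F (T t84 (L l144 (L l327 (T t80 (T t81 N))))))) (K a128 (M a240 (F (T t406 (L l231 (T t304 (L l192 (L l220 (T t81 N)))))))) (K a85 (M a768 (F (T t85 (L l2758 (T t35 (L l347 (L l2339 (T t30 N)))))))) (K a149 (M a768 (F (T t49 (L l2758 (T t35 (L l2894 (T t32 N))))))) (K a213 (M a768 (F (T t62 (L l2894 (L l3203 (T t32 (T t33 N))))))) (K a106 (M a768 (F (T t43 (L l2758 (T t35 (L l2894 (T t32 N))))))) (K a170 (M a768 (F (T t42 (L l2758 (T t35 (L l220 (T t30 N))))))) (K a234 (M a768 (F (T t37 (L l2758 (T t35 (L l390 (L l3246 (T t33 N)))))))) (K a63 (M a768 (L l507 (F (T t38 (L l2758 (L l3159 (T t35 (L l2209 (L l3326 (T t29 (K a157 (M a110 (F (T t74 (L l2209 (L l3326 (T t48 (L l2758 (L l3159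 (T t86 N))))))))) (K a110 (M a157 (F (T t74 (L l2209 (L l3326 (T t48 (L l2758 (L l3159 (T t86 N))))))))) N)))))))))))) N))))))))))))))))))))⟩
def e0_255__795_11 : Ent 5 := ⟨[a0, a255], [a795, a216], (M a192 (L l3212 (F (T t19 (T t23 (T t22 (T t24 (K a64 (M a341 (L l3212 (F (T t448 (T t10 (T t578 (K a409 (M a602 (F (T t0 (L l1577 (T t579 N))))) (K a602 (M a409 (F (T t0 (L l2444 (T t580 N))))) N)))))))) (K a128 (M a341 (L l3212 (F (T t1 (L l2684 (T t10 (L l220 (T t578 (K a409 (M a602 (F (T t1 (L l192 (L l1577 (T t579 N)))))) (K a602 (M a409 (F (T t1 (T t580 N)))) N)))))))))) (K a85 (M a768 (L l3212 (F (T t28 (L l347 (L l2339 (T t29 (L l347 (L l2339 (T t30 (K a409 (M a602 (F (T t28 (L l455 (L l1633 (L l2339 (L l3227 (T t581 N)))))))) (K a602 (M a409 (F (T t28 (L l1134 (L l1633 (L l2339 (T t277 N))))))) N)))))))))))) (K a149 (M a768 (L l3212 (F (T t40 (T t35 (L l347 (T t29 (K a409 (M a602 (F (T t31 (L l1633 (L l3227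 (T t581 N)))))) (K a602 (M a409 (F (T t31 (L l1134 (L l1633 (T t277 N)))))) N))))))))) (K a213 (M a768 (L l3212 (F (T t31 (L l3203 (T t32 (T t33 (K a409 (M a602 (F (T t31 (L l275 (L l1633 (L l3203 (L l3227 (T t581 N)))))))) (K a602 (M a409 (F (T t31 (L l1134 (L l1633 (L l3203 (T t277 N))))))) N))))))))) (K a106 (M a768 (L l3212 (F (T t40 (T t35 (T t29 (K a409 (M a602 (F (T t28 (L l1633 (L l3227 (T t581 N)))))) (K a602 (M a409 (F (T t28 (L l1134 (L l1633 (T t277 N)))))) N)))))))) (K a170 (M a768 (L l3212 (F (T t31 (T t29 (L l220 (T t30 (K a409 (M a602 (F (T t31 (L l1633 (L l3227 (T t581 N)))))) (K a602 (M a409 (F (T t31 (L l1134 (L l1633 (T t277 N)))))) N))))))))) (K a234 (M a768 (L l3212 (F (T t31 (T t32 (L l390 (L l3246 (T t33 (K a409 (M a602 (F (T t31 (L l1633 (L l3227 (T t581 N)))))) (K a602 (M a409 (F (T t31 (L l1134 (L l1633 (T t277 N)))))) N)))))))))) (K a63 (M a768 (L l3212 (F (T t83 (L l3159 (T t35 (L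 l2209 (T t29 (K a409 (M a602 (F (T t62 (L l1633 (L l2281 (L l3227 (T t581 N))))))) (K a602 (M a409 (F (T t62 (L l1134 (L l1633 (L l2221 (T t277 N))))))) N)))))))))) (K a409 (M a602 (F (T t19 (T t23 (T t22 (T t24 (K a64 (M a208 (F (T t582 (L l1577 (L l2468 (L l3320 (T t583 N))))))) (K a128 (M a80 (F (T t584 (L l192 (T t585 N))))) (K a85 (M a768 (F (T t28 (L l455 (L l1633 (L l2339 (L l3227 (T t581 N)))))))) (K a149 (M a768 (F (T t31 (L l1633 (L l3227 (T t581 N)))))) (K a213 (M a768 (F (T t31 (L l275 (L l1633 (L l3203 (L l3227 (T t581 N)))))))) (K a106 (M a768 (F (T t28 (L l1633 (L l3227 (T t581 N)))))) (K a170 (M a768 (F (T t31 (L l1633 (L l3227 (T t581 N)))))) (K a234 (M a768 (F (T t31 (L l1633 (L l3227 (T t581 N)))))) (K a63 (M a768 (F (T t62 (L l1633 (L l2281 (L l3227 (T t581 N))))))) N))))))))))))))) (K a602 (M a409 (F (T t19 (T t23 (T t22 (T t24 (K a64 (M a196 (F (L l280 (L l1633 (T t281 (L l80 (T t280 N)))))))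 (K a128 (M a200 (F (T t293 (L l1615 (L l2684 (L l3224 (T t288 N))))))) (K a85 (M a768 (F (T t28 (L l1134 (L l1633 (L l2339 (T t277 N))))))) (K a149 (M a768 (F (T t31 (L l1134 (L l1633 (T t277 N)))))) (K a213 (M a768 (F (T t31 (L l1134 (L l1633 (L l3203 (T t277 N))))))) (K a106 (M a768 (F (T t28 (L l1134 (L l1633 (T t277 N)))))) (K a170 (M a768 (F (T t31 (L l1134 (L l1633 (T t277 N)))))) (K a234 (M a768 (F (T t31 (L l1134 (L l1633 (T t277 N)))))) (K a63 (M a768 (F (T t62 (L l1134 (L l1633 (L l2221 (T t277 N))))))) N))))))))))))))) N))))))))))))))))))⟩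
def e0_255__795_12 : Ent 5 := ⟨[a0, a255], [a795, a221], (M a48 (F (T t137 (L l365 (T t136 (L l365 (T t135 (L l241 (T t138 (K a16 (M a240 (F (T t139 (L l340 (L l365 (L l368 (T t140 (T t141 N)))))))) (K a32 (M a240 (F (T t139 (L l365 (T t140 (L l376 (L l404 (T t141 N)))))))) (K a85 (M a768 (L l365 (F (T t142 (L l123 (L l2339 (L l3227 (T t143 (L l123 (L l2339 (L l3227 (T t144 (K a17 (M a153 (F (T t148 (L l123 (L l2339 (L l3227 (T t143 (L l10 (L l368 (T t149 N)))))))))) (K a153 (M a17 (F (T t148 (L l126 (L l2339 (L l3227 (T t181 N))))))) N)))))))))))))) (K a101 (M a768 (F (T t145 (L l123 (L l3227 (T t143 (L l3227 (T t32 N)))))))) (K a117 (M a768 (F (T t145 (L l2483 (L l3227 (T t32 (T t146 N))))))) (K a154 (M a768 (F (T t148 (L l3227 (T t143 (L l3227 (T t32 N))))))) (K a170 (M a768 (F (T t145 (L l3227 (T t143 (L l404 (L l3227 (T t144 N)))))))) (K a186 (M a768 (F (T t145 (L l3227 (T t32 (L l206 (L l2706 (T t146 N))))))))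 (K a207 (M a768 (F (T t74 (L l3339 (T t148 (L l2749 (L l3227 (T t143 N)))))))) N))))))))))))))))))⟩
def e0_255__795_13 : Ent 5 := ⟨[a0, a255], [a795, a238], (M a48 (F (T t136 (L l402 (T t137 (L l251 (T t135 (L l402 (T t138 (K a16 (M a240 (F (T t139 (L l340 (L l368 (T t140 (L l402 (T t141 N)))))))) (K a32 (M a240 (F (T t139 (T t140 (L l376 (L l402 (L l404 (T t141 N)))))))) (K a85 (M a768 (F (T t142 (L l123 (L l2339 (T t143 (L l123 (L l2339 (T t144 N))))))))) (K a101 (M a768 (F (T t145 (L l123 (T t143 (T t32 N)))))) (K a117 (M a768 (F (T t145 (L l2483 (T t32 (L l402 (L l3264 (T t146 N)))))))) (K a154 (M a768 (F (T t142 (T t143 (T t32 N))))) (K a170 (M a768 (L l402 (F (T t145 (T t143 (L l404 (T t144 (K a34 (M a102 (F (T t148 (T t143 (L l2598 (L l3264 (T t149 N))))))) (K a102 (M a34 (F (T t148 (L l2598 (L l3264 (T t182 N)))))) N))))))))) (K a186 (M a768 (F (T t145 (T t32 (L l206 (L l402 (L l2706 (L l3264 (T t146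 N))))))))) (K a207 (M a768 (F (T t37 (L l3339 (T t148 (L l2749 (T t143 N))))))) N))))))))))))))))))⟩
def e0_255__795_14 : Ent 5 := ⟨[a0, a255], [a795, a256], (M a204 (F (T t158 (T t184 (T t190 (T t191 (K a68 (M a192 (F (T t192 (L l126 (T t19 (L l126 (T t193 N))))))) (K a136 (M a192 (F (T t192 (T t19 (L l316 (T t193 N)))))) (K a85 (M a409 (F (T t194 (L l126 (L l1633 (T t195 (L l126 (T t196 N)))))))) (K a153 (M a128 (F (T t197 (L l365 (T t198 (L l167 (L l365 (T t199 N)))))))) (K a221 (M a64 (F (T t200 (T t15 (L l359 (T t201 N)))))) (K a102 (M a64 (F (T t202 (L l402 (T t15 (L l102 (L l402 (T t201 N)))))))) (K a170 (M a409 (F (T t203 (L l402 (L l848 (T t204 (L l402 (T t196 N)))))))) (K a238 (M a64 (F (T t200 (L l402 (T t15 (L l402 (T t201 N))))))) (K a51 (M a341 (F (T t205 (T t99 N)))) N)))))))))))))))⟩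
def e0_255__795_15 : Ent 5 := ⟨[a0, a255], [a795, a261], (M a192 (F (T t19 (T t23 (T t22 (T t24 (K a64 (M a240 (F (T t79 (L l144 (T t80 (T t81 N)))))) (K a128 (M a240 (F (T t79 (T t80 (L l192 (L l220 (T t81 N))))))) (K a85 (M a768 (F (T t86 (L l347 (L l2339 (T t29 (L l347 (L l2339 (T t30 N))))))))) (K a149 (M a768 (F (T t31 (L l347 (T t29 (T t32 N)))))) (K a213 (M a768 (F (T t31 (L l3203 (T t32 (T t33 N)))))) (K a106 (M a768 (F (T t86 (T t29 (T t32 N))))) (K a170 (M a768 (F (T t31 (T t29 (L l220 (T t30 N)))))) (K a234 (M a768 (F (T t31 (T t32 (L l390 (L l3246 (T t33 N))))))) (K a63 (M a768 (F (T t37 (L l3159 (T t35 (L l2209 (T t29 N))))))) N)))))))))))))))⟩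
def e0_255__795_16 : Ent 5 := ⟨[a0, a255], [a795, a266], (M a192 (F (T t19 (T t23 (T t22 (T t24 (K a64 (M a240 (F (T t79 (L l144 (L l2094 (L l2115 (T t80 (T t81 N)))))))) (K a128 (M a240 (F (T t79 (L l2094 (L l2115 (T t80 (L l192 (L l220 (T t81 N))))))))) (K a85 (M a768 (F (T t86 (L l347 (L l2339 (T t29 (L l347 (L l2339 (T t30 N))))))))) (K a149 (M a768 (F (T t31 (L l347 (T t29 (T t32 N)))))) (K a213 (M a768 (F (T t31 (L l3203 (T t32 (L l982 (T t33 N))))))) (K a106 (M a768 (F (T t86 (T t29 (T t32 N))))) (K a170 (M a768 (F (T t31 (T t29 (L l220 (T t30 N)))))) (K a234 (M a768 (F (T t31 (T t32 (L l390 (L l982 (L l3246 (T t33 N)))))))) (K a63 (M a768 (F (T t37 (L l3159 (T t35 (L l2209 (T t29 N))))))) N)))))))))))))))⟩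
def e0_255__795_17 : Ent 5 := ⟨[a0, a255], [a795, a271], (M a192 (F (T t19 (T t23 (T t22 (T t24 (K a64 (M a240 (F (T t79 (L l144 (L l2101 (T t80 (T t81 N))))))) (K a128 (M a240 (F (T t79 (L l2101 (T t80 (L l192 (L l220 (T t81 N)))))))) (K a85 (M a768 (F (T t86 (L l347 (L l2339 (T t29 (L l347 (L l2339 (T t30 N))))))))) (K a149 (M a768 (F (T t31 (L l347 (T t29 (L l989 (T t32 N))))))) (K a213 (M a768 (F (T t31 (L l989 (L l3203 (T t32 (T t33 N))))))) (K a106 (M a768 (F (T t86 (T t29 (L l989 (T t32 N)))))) (K a170 (M a768 (F (T t31 (T t29 (L l220 (T t30 N)))))) (K a234 (M a768 (F (T t31 (L l989 (T t32 (L l390 (L l3246 (T t33 N)))))))) (K a63 (M a768 (F (T t85 (L l859 (L l3159 (T t35 (L l989 (L l3073 (T t32 N))))))))) N)))))))))))))))⟩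
def e0_255__795_18 : Ent 5 := ⟨[a0, a255], [a795, a273], (M a192 (F (T t19 (T t23 (T t22 (T t24 (K a64 (M a240 (F (T t79 (L l144 (T t80 (T t81 N)))))) (K a128 (M a240 (F (T t79 (T t80 (L l192 (L l220 (T t81 N))))))) (K a85 (M a768 (F (T t86 (L l347 (L l2339 (T t29 (L l347 (L l2339 (T t30 N))))))))) (K a149 (M a768 (F (T t31 (L l347 (T t29 (T t32 N)))))) (K a213 (M a768 (F (T t31 (L l3203 (T t32 (T t33 N)))))) (K a106 (M a768 (F (T t86 (T t29 (T t32 N))))) (K a170 (M a768 (F (T t31 (T t29 (L l220 (T t30 N)))))) (K a234 (M a768 (F (T t31 (T t32 (L l390 (L l3246 (T t33 N))))))) (K a63 (M a768 (F (T t37 (L l3159 (T t35 (L l2209 (T t29 N))))))) N)))))))))))))))⟩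
def e0_255__795_19 : Ent 5 := ⟨[a0, a255], [a795, a290], (M a192 (F (T t19 (T t23 (T t22 (T t24 (K a64 (M a240 (F (T t79 (L l144 (T t80 (T t81 N)))))) (K a128 (M a240 (F (T t79 (T t80 (L l192 (L l220 (T t81 N))))))) (K a85 (M a768 (F (T t86 (L l347 (L l2339 (T t29 (L l347 (L l2339 (T t30 N))))))))) (K a149 (M a768 (F (T t31 (L l347 (T t29 (T t32 N)))))) (K a213 (M a768 (F (T t31 (L l3203 (T t32 (L l922 (T t33 N))))))) (K a106 (M a768 (F (T t86 (T t29 (T t32 N))))) (K a170 (M a768 (F (T t31 (T t29 (L l220 (T t30 N)))))) (K a234 (M a768 (F (T t31 (T t32 (L l390 (L l922 (L l3246 (T t33 N)))))))) (K a63 (M a768 (F (T t37 (L l3159 (T t35 (L l2209 (T t29 N))))))) N)))))))))))))))⟩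
def e0_255__795_20 : Ent 5 := ⟨[a0, a255], [a795, a295], (M a192 (F (T t19 (T t23 (T t22 (T t24 (K a64 (M a240 (F (T t79 (L l144 (T t80 (T t81 N)))))) (K a128 (M a240 (F (T t79 (T t80 (L l192 (L l220 (T t81 N))))))) (K a85 (M a768 (F (T t28 (L l347 (L l2339 (T t29 (L l347 (L l2339 (T t30 N))))))))) (K a149 (M a768 (F (T t40 (T t35 (L l347 (T t29 N)))))) (K a213 (M a768 (F (T t31 (L l3203 (T t32 (T t33 N)))))) (K a106 (M a768 (F (T t40 (T t35 (T t29 N))))) (K a170 (M a768 (F (T t31 (T t29 (L l220 (T t30 N)))))) (K a234 (M a768 (F (T t31 (T t32 (L l390 (L l3246 (T t33 N))))))) (K a63 (M a768 (F (T t83 (L l3159 (T t35 (L l2209 (T t29 N))))))) N)))))))))))))))⟩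
def e0_255__795_21 : Ent 5 := ⟨[a0, a255], [a795, a307], (M a192 (F (T t19 (T t23 (T t22 (T t24 (K a64 (M a240 (F (T t79 (L l144 (T t80 (T t81 N)))))) (K a128 (M a240 (F (T t79 (T t80 (L l192 (L l220 (T t81 N))))))) (K a85 (M a768 (F (T t86 (L l347 (L l2339 (T t29 (L l347 (L l2339 (T t30 N))))))))) (K a149 (M a768 (F (T t31 (L l347 (T t29 (L l959 (T t32 N))))))) (K a213 (M a768 (F (T t31 (L l959 (L l3203 (T t32 (T t33 N))))))) (K a106 (M a768 (F (T t86 (T t29 (L l959 (T t32 N)))))) (K a170 (M a768 (F (T t31 (T t29 (L l220 (T t30 N)))))) (K a234 (M a768 (F (T t31 (L l959 (T t32 (L l390 (L l3246 (T t33 N)))))))) (K a63 (M a768 (F (T t85 (L l1009 (L l3159 (T t35 (L l959 (L l3073 (T t32 N))))))))) N)))))))))))))))⟩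
def e0_255__795_22 : Ent 5 := ⟨[a0, a255], [a795, a324], (M a48 (F (T t136 (T t137 (T t135 (T t138 (K a16 (M a240 (F (T t139 (L l340 (L l368 (T t140 (T t141 N))))))) (K a32 (M a240 (F (T t139 (T t140 (L l376 (L l404 (T t141 N))))))) (K a85 (M a768 (F (T t215 (L l123 (L l2339 (T t143 (L l123 (L l2339 (T t144 N))))))))) (K a101 (M a768 (F (T t145 (L l123 (T t143 (T t32 N)))))) (K a117 (M a768 (F (T t145 (L l2483 (T t32 (T t146 N)))))) (K a154 (M a768 (F (T t215 (T t143 (T t32 N))))) (K a170 (M a768 (F (T t145 (T t143 (L l404 (T t144 N)))))) (K a186 (M a768 (F (T t145 (T t32 (L l206 (L l2706 (T t146 N))))))) (K a207 (M a768 (F (T t37 (L l3339 (T t148 (L l2749 (T t143 N))))))) N)))))))))))))))⟩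
def e0_255__795_23 : Ent 5 := ⟨[a0, a255], [a795, a336], (M a12 (F (T t154 (T t155 (T t153 (T t156 (K a4 (M a204 (F (T t157 (L l310 (L l458 (T t158 (L l310 (L l458 (T t159 N))))))))) (K a8 (M a204 (F (T t157 (T t158 (T t159 N))))) (K a85 (M a768 (F (T t265 (L l91 (L l2339 (T t161 (L l91 (L l2339 (T t162 N))))))))) (K a89 (M a768 (F (T t163 (L l91 (T t161 (T t32 N)))))) (K a93 (M a768 (F (T t163 (L l2363 (T t32 (L l91 (L l2363 (T t164 N)))))))) (K a166 (M a768 (F (T t265 (T t161 (T t32 N))))) (K a170 (M a768 (F (T t163 (T t161 (L l464 (T t162 N)))))) (K a174 (M a768 (F (T t163 (T t32 (T t164 N))))) (K a243 (M a768 (F (T t37 (L l3369 (T t166 (L l2839 (T t161 N))))))) N)))))))))))))))⟩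
def e0_255__795_24 : Ent 5 := ⟨[a0, a255], [a795, a341], (M a192 (F (T t24 (L l2339 (T t19 (L l2987 (T t23 (L l2339 (L l2468 (T t22 (K a64 (M a240 (L l2468 (F (T t79 (L l144 (L l2339 (T t80 (L l2987 (T t81 (K a618 (M a895 (F (T t25 (L l3095 (T t207 (L l2987 (L l3246 (T t81 N)))))))) (K a895 (M a618 (F (T t26 (L l2296 (T t267 N))))) N))))))))))) (K a128 (M a240 (F (T t79 (L l2339 (T t80 (L l192 (L l220 (L l2987 (T t81 N))))))))) (K a85 (M a597 (F (T t268 (L l996 (T t269 (L l144 (L l867 (L l996 (L l2468 (T t270 (L l144 (L l867 (L l2468 (T t271 N)))))))))))))) (K a149 (M a768 (F (T t35 (L l347 (L l2339 (T t29 (L l996 (L l2468 (T t272 N))))))))) (K a213 (M a48 (F (T t273 (L l347 (L l2339 (T t136 (L l347 (L l2339 (T t274 N))))))))) (K a106 (M a768 (F (T t86 (L l2339 (T t29 (L l144 (L l390 (L l996 (L l2468 (T t272 N)))))))))) (K a170 (M a768 (F (T t35 (L l2339 (T t29 (L l390 (L l996 (L l2468 (L l2598 (T t272 N))))))))))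 (K a234 (M a48 (F (T t273 (L l2339 (T t136 (L l2339 (T t274 N))))))) (K a63 (M a768 (F (L l3159 (T t35 (L l2209 (L l2339 (T t29 (L l996 (L l2468 (T t272 N)))))))))) N)))))))))))))))))))⟩
def e0_255__795_25 : Ent 5 := ⟨[a0, a255], [a795, a346], (M a192 (F (T t19 (T t23 (T t22 (T t24 (K a64 (M a240 (F (T t79 (L l144 (L l3102 (L l3123 (T t80 (L l2367 (T t81 N))))))))) (K a128 (M a240 (F (T t79 (L l3102 (L l3123 (T t80 (L l192 (L l220 (L l2367 (T t81 N)))))))))) (K a85 (M a768 (F (T t28 (L l347 (L l2339 (L l2367 (T t29 (L l347 (L l2339 (L l2367 (T t30 N))))))))))) (K a149 (M a768 (F (T t31 (L l347 (L l2367 (T t29 (L l2367 (T t32 N)))))))) (K a213 (M a768 (F (T t31 (L l2367 (L l3203 (T t32 (L l982 (T t33 N)))))))) (K a106 (M a768 (F (T t35 (L l2367 (T t29 (L l2367 (T t32 N))))))) (K a170 (M a768 (F (T t31 (L l2367 (T t29 (L l220 (L l2367 (T t30 N)))))))) (K a234 (M a768 (F (T t31 (L l2367 (T t32 (L l390 (L l982 (L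 l3246 (T t33 N))))))))) (K a63 (M a768 (F (T t57 (L l2209 (L l2367 (T t29 (L l2367 (L l3073 (T t32 N))))))))) N)))))))))))))))⟩
def e0_255__795_26 : Ent 5 := ⟨[a0, a255], [a795, a351], (M a192 (F (T t19 (T t23 (T t22 (T t24 (K a64 (M a240 (F (T t79 (L l144 (L l3109 (T t80 (L l2353 (T t81 N)))))))) (K a128 (M a240 (F (T t79 (L l3109 (T t80 (L l192 (L l220 (L l2353 (T t81 N))))))))) (K a85 (M a768 (F (T t28 (L l347 (L l2339 (T t29 (L l347 (L l2339 (L l2461 (T t30 N)))))))))) (K a149 (M a768 (F (T t31 (L l347 (T t29 (L l989 (L l3109 (T t32 N)))))))) (K a213 (M a768 (F (T t31 (L l989 (L l3109 (L l3203 (T t32 (T t33 N)))))))) (K a106 (M a768 (F (T t28 (T t29 (L l989 (L l3109 (T t32 N))))))) (K a170 (M a768 (F (T t31 (T t29 (L l220 (L l2461 (T t30 N))))))) (K a234 (M a768 (F (T t31 (L l989 (L l3109 (T t32 (L l390 (L l3246 (T t33 N))))))))) (K a63 (M a768 (F (T t83 (L l3159 (T t35 (L l2209 (T t29 N))))))) N)))))))))))))))⟩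
def e0_255__795_27 : Ent 5 := ⟨[a0, a255], [a795, a358], (M a192 (F (T t19 (T t23 (T t22 (T t24 (K a64 (M a240 (F (T t79 (L l144 (T t80 (T t81 N)))))) (K a128 (M a240 (F (T t79 (T t80 (L l192 (L l220 (T t81 N))))))) (K a85 (M a768 (F (T t28 (L l347 (L l2339 (L l2487 (T t29 (L l347 (L l2339 (L l2487 (T t30 N))))))))))) (K a149 (M a768 (F (T t31 (L l347 (L l2487 (T t29 (L l2487 (T t32 N)))))))) (K a213 (M a768 (F (T t31 (L l2487 (L l3203 (T t32 (L l922 (T t33 N)))))))) (K a106 (M a768 (F (T t35 (L l2487 (T t29 (L l2487 (T t32 N))))))) (K a170 (M a768 (F (T t31 (L l2487 (T t29 (L l220 (L l2487 (T t30 N)))))))) (K a234 (M a768 (F (T t31 (L l2487 (T t32 (L l390 (L l922 (L l3246 (T t33 N))))))))) (K a63 (M a768 (F (T t57 (L l2209 (L l2487 (T t29 (L l2487 (L l3073 (T t32 N))))))))) N)))))))))))))))⟩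
def e0_255__795_28 : Ent 5 := ⟨[a0, a255], [a795, a375], (M a192 (F (T t19 (T t23 (T t22 (T t24 (K a64 (M a240 (F (T t79 (L l144 (T t80 (T t81 N)))))) (K a128 (M a240 (F (T t79 (T t80 (L l192 (L l220 (T t81 N))))))) (K a85 (M a768 (F (T t28 (L l347 (L l2339 (T t29 (L l347 (L l2339 (L l2431 (T t30 N)))))))))) (K a149 (M a768 (F (T t31 (L l347 (T t29 (L l959 (L l3079 (T t32 N)))))))) (K a213 (M a768 (F (T t31 (L l959 (L l3079 (L l3203 (T t32 (T t33 N)))))))) (K a106 (M a768 (F (T t28 (T t29 (L l959 (L l3079 (T t32 N))))))) (K a170 (M a768 (F (T t31 (T t29 (L l220 (L l2431 (T t30 N))))))) (K a234 (M a768 (F (T t31 (L l959 (L l3079 (T t32 (L l390 (L l3246 (T t33 N))))))))) (K a63 (M a768 (F (T t83 (L l3159 (T t35 (L l2209 (T t29 N))))))) N)))))))))))))))⟩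
def e0_255__795_29 : Ent 5 := ⟨[a0, a255], [a795, a392], (M a192 (F (T t19 (T t23 (T t22 (T t24 (K a64 (M a240 (F (T t79 (L l144 (T t80 (T t81 N)))))) (K a128 (M a240 (F (T t79 (T t80 (L l192 (L l220 (T t81 N))))))) (K a85 (M a768 (F (T t35 (L l347 (L l2339 (T t29 (L l347 (L l2339 (T t30 N))))))))) (K a149 (M a768 (F (T t35 (L l347 (T t29 (T t32 N)))))) (K a213 (M a768 (F (T t35 (L l3203 (T t32 (L l676 (L l728 (T t33 N)))))))) (K a106 (M a768 (F (T t35 (T t29 (T t32 N))))) (K a170 (M a768 (F (T t35 (T t29 (L l220 (T t30 N)))))) (K a234 (M a768 (F (T t35 (T t32 (L l390 (L l676 (L l728 (L l3246 (T t33 N))))))))) (K a63 (M a768 (F (T t37 (L l3159 (T t35 (L l2209 (T t29 N))))))) N)))))))))))))))⟩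
def e0_255__795_30 : Ent 5 := ⟨[a0, a255], [a795, a409], (M a240 (L l3212 (F (T t140 (T t80 (T t26 (T t207 (K a80 (M a341 (L l3212 (F (T t448 (L l2672 (T t102 (T t586 (K a216 (M a602 (F (T t587 (L l1633 (T t588 (L l728 (T t326 N))))))) (K a602 (M a216 (F (T t448 (T t589 (L l1502 (L l1523 (L l2672 (T t102 N)))))))) N))))))))) (K a160 (M a192 (L l3212 (F (T t79 (T t19 (L l376 (T t549 (K a216 (M a602 (F (T t590 (L l180 (T t23 N))))) (K a602 (M a216 (F (T t304 (L l3227 (T t591 N))))) N))))))))) (K a85 (M a602 (F (T t592 (L l455 (T t590 (L l455 (T t593 N))))))) (K a165 (M a602 (F (L l180 (T t592 (L l455 (T t590 (L l180 (L l455 (T t593 N))))))))) (K a245 (M a768 (L l3212 (F (T t550 (L l3227 (L l3347 (T t32 (L l728 (T t554 (K a216 (M a602 (F (T t594 (L l2672 (T t595 N))))) (K a602 (M a216 (F (T t550 (L l455 (L l3227 (T t591 N)))))) N))))))))))) (K a90 (M a602 (F (T t592 (T t590 (T t593 N))))) (K a170 (M a602 (F (T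 t590 (L l180 (T t592 (L l180 (T t593 N))))))) (K a250 (M a426 (L l3212 (F (T t571 (L l3227 (T t596 (T t597 (K a216 (M a602 (F (T t598 (L l2850 (T t592 (L l3227 (T t576 N))))))) (K a602 (M a216 (F (T t574 (L l462 (T t589 (L l1134 (L l1523 (L l3227 (T t596 N))))))))) N))))))))) (K a15 (M a602 (F (T t599 (L l3109 (T t592 (L l2115 (T t590 N))))))) (K a216 (M a602 (F (T t592 (T t590 (T t80 N))))) (K a602 (M a216 (F (T t80 (L l3227 (T t591 (K a85 (M a192 (F (L l3354 (T t79 (L l126 (L l144 (L l2690 (T t600 N)))))))) (K a170 (M a192 (F (T t304 (L l2690 (T t600 N))))) N))))))) N))))))))))))))))))⟩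
def e0_255__795_31 : Ent 5 := ⟨[a0, a255], [a795, a416], (M a192 (F (T t19 (T t23 (T t22 (T t24 (K a64 (M a240 (F (T t79 (L l144 (T t80 (L l2584 (T t81 N))))))) (K a128 (M a240 (F (T t79 (T t80 (L l192 (L l220 (L l2584 (T t81 N)))))))) (K a85 (M a768 (F (T t35 (L l347 (L l2339 (T t29 (L l347 (L l2339 (T t30 N))))))))) (K a149 (M a768 (F (T t35 (L l347 (T t29 (T t32 N)))))) (K a213 (M a768 (F (T t35 (L l3203 (T t32 (L l700 (L l712 (T t33 N)))))))) (K a106 (M a768 (F (T t35 (T t29 (T t32 N))))) (K a170 (M a768 (F (T t35 (T t29 (L l220 (T t30 N)))))) (K a234 (M a768 (F (T t35 (T t32 (L l390 (L l700 (L l712 (L l3246 (T t33 N))))))))) (K a63 (M a768 (F (T t37 (L l3159 (T t35 (L l2209 (T t29 N))))))) N)))))))))))))))⟩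
def e0_255__795_32 : Ent 5 := ⟨[a0, a255], [a795, a421], (M a192 (F (T t19 (T t23 (T t22 (T t24 (K a64 (M a240 (F (T t79 (L l144 (L l3347 (T t80 (L l2612 (T t81 N)))))))) (K a128 (M a240 (F (T t79 (L l3347 (T t80 (L l192 (L l220 (L l2612 (T t81 N))))))))) (K a85 (M a768 (F (T t28 (L l347 (L l2339 (L l3347 (T t29 (L l347 (L l2339 (L l3347 (T t30 N))))))))))) (K a149 (M a768 (F (T t31 (L l347 (L l3347 (T t29 (L l3347 (T t32 N)))))))) (K a213 (M a768 (F (T t31 (L l3203 (L l3347 (T t32 (L l700 (T t33 N)))))))) (K a106 (M a768 (F (T t35 (L l3347 (T t29 (L l3347 (T t32 N))))))) (K a170 (M a768 (F (T t31 (L l3347 (T t29 (L l220 (L l3347 (T t30 N)))))))) (K a234 (M a768 (F (T t31 (L l3347 (T t32 (L l390 (L l700 (L l3246 (T t33 N))))))))) (K a63 (M a768 (F (T t57 (L l2209 (L l3347 (T t29 (L l3073 (L l3347 (T t32 N))))))))) N)))))))))))))))⟩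
def e0_255__795_33 : Ent 5 := ⟨[a0, a255], [a795, a426], (M a192 (F (T t19 (L l2598 (L l3246 (T t23 (L l2727 (T t22 (L l2598 (T t24 (K a64 (M a240 (F (T t304 (L l144 (T t80 (L l2598 (L l3246 (T t81 N)))))))) (K a128 (M a240 (F (T t304 (T t80 (L l192 (L l220 (L l2598 (L l3246 (T t81 N))))))))) (K a85 (M a1023 (F (T t305 (L l2598 (T t306 (L l144 (L l996 (L l2339 (L l3246 (T t307 N)))))))))) (K a149 (M a208 (F (T t308 (L l3246 (T t309 (L l170 (L l220 (L l2598 (L l3246 (T t310 N)))))))))) (K a213 (M a48 (F (T t273 (L l347 (T t136 (L l347 (T t274 N))))))) (K a106 (M a224 (F (T t311 (L l3267 (T t312 (L l104 (L l144 (T t313 N)))))))) (K a170 (M a682 (F (T t314 (L l996 (T t315 (L l390 (L l740 (L l996 (L l3246 (T t316 (L l390 (L l3246 (T t317 N))))))))))))) (K a234 (M a48 (L l3246 (F (T t136 (T t273 (T t274 (K a810 (M a618 (F (T t136 (L l740 (L l2814 (T t318 N)))))) (K a618 (M a810 (F (T t136 (L l2396 (L l2468 (T t319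 (L l2396 (T t274 N)))))))) N)))))))) (K a63 (M a16 (F (T t320 (L l505 (L l2598 (T t321 (L l2598 (L l3246 (T t322 N))))))))) N)))))))))))))))))))⟩
def e0_255__795_34 : Ent 5 := ⟨[a0, a255], [a795, a431], (M a192 (F (T t19 (T t23 (L l2713 (T t22 (T t24 (K a64 (M a240 (F (T t79 (L l144 (T t80 (T t81 N)))))) (K a128 (M a240 (F (T t79 (T t80 (L l192 (L l220 (T t81 N))))))) (K a85 (M a768 (F (T t28 (L l347 (L l2339 (T t29 (L l347 (L l2339 (T t30 N))))))))) (K a149 (M a768 (F (T t31 (L l347 (T t29 (L l989 (T t32 N))))))) (K a213 (M a768 (F (T t31 (L l989 (L l3203 (T t32 (L l700 (T t33 N)))))))) (K a106 (M a768 (F (T t28 (T t29 (L l989 (T t32 N)))))) (K a170 (M a768 (F (T t31 (T t29 (L l220 (T t30 N)))))) (K a234 (M a768 (F (T t31 (L l989 (T t32 (L l390 (L l700 (L l3246 (T t33 N))))))))) (K a63 (M a768 (F (T t37 (L l3159 (T t35 (L l2209 (T t29 N))))))) N))))))))))))))))⟩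
def e0_255__795_35 : Ent 5 := ⟨[a0, a255], [a795, a443], (M a192 (F (T t19 (T t23 (L l2653 (T t22 (T t24 (K a64 (M a240 (F (T t79 (L l144 (T t80 (T t81 N)))))) (K a128 (M a240 (F (T t79 (T t80 (L l192 (L l220 (T t81 N))))))) (K a85 (M a768 (F (T t28 (L l347 (L l2339 (T t29 (L l347 (L l2339 (T t30 N))))))))) (K a149 (M a768 (F (T t31 (L l347 (T t29 (L l959 (T t32 N))))))) (K a213 (M a768 (F (T t31 (L l959 (L l3203 (T t32 (L l728 (T t33 N)))))))) (K a106 (M a768 (F (T t28 (T t29 (L l959 (T t32 N)))))) (K a170 (M a768 (F (T t31 (T t29 (L l220 (T t30 N)))))) (K a234 (M a768 (F (T t31 (L l959 (T t32 (L l390 (L l728 (L l3246 (T t33 N))))))))) (K a63 (M a768 (F (T t37 (L l3159 (T t35 (L l2209 (T t29 N))))))) N))))))))))))))))⟩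
def e0_255__795_36 : Ent 5 := ⟨[a0, a255], [a795, a460], (M a192 (F (T t19 (T t23 (T t22 (T t24 (K a64 (M a240 (F (T t79 (L l144 (T t80 (T t81 N)))))) (K a128 (M a240 (F (T t79 (T t80 (L l192 (L l220 (T t81 N))))))) (K a85 (M a768 (F (T t86 (L l347 (L l2339 (T t29 (L l347 (L l2339 (T t30 N))))))))) (K a149 (M a768 (F (T t31 (L l347 (T t29 (L l810 (T t32 N))))))) (K a213 (M a768 (F (T t31 (L l810 (L l3203 (T t32 (T t33 N))))))) (K a106 (M a768 (F (T t86 (T t29 (L l810 (T t32 N)))))) (K a170 (M a768 (F (T t31 (T t29 (L l220 (T t30 N)))))) (K a234 (M a768 (F (T t31 (L l810 (T t32 (L l390 (L l3246 (T t33 N)))))))) (K a63 (M a768 (F (T t85 (L l752 (L l3159 (T t35 (L l810 (L l3073 (T t32 N))))))))) N)))))))))))))))⟩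
def e0_255__795_37 : Ent 5 := ⟨[a0, a255], [a795, a472], (M a192 (F (T t19 (T t23 (T t22 (T t24 (K a64 (M a240 (F (T t79 (L l144 (T t80 (T t81 N)))))) (K a128 (M a240 (F (T t79 (T t80 (L l192 (L l220 (T t81 N))))))) (K a85 (M a768 (F (T t28 (L l347 (L l2339 (T t29 (L l347 (L l2339 (T t30 N))))))))) (K a149 (M a768 (F (T t40 (T t35 (L l347 (T t29 N)))))) (K a213 (M a768 (F (T t31 (L l3203 (T t32 (T t33 N)))))) (K a106 (M a768 (F (T t40 (T t35 (T t29 N))))) (K a170 (M a768 (F (T t31 (T t29 (L l220 (T t30 N)))))) (K a234 (M a768 (F (T t31 (T t32 (L l390 (L l3246 (T t33 N))))))) (K a63 (M a768 (F (T t83 (L l3159 (T t35 (L l2209 (T t29 N))))))) N)))))))))))))))⟩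
def e0_255__795_38 : Ent 5 := ⟨[a0, a255], [a795, a477], (M a192 (F (T t19 (T t23 (T t22 (T t24 (K a64 (M a240 (F (T t79 (L l144 (T t80 (T t81 N)))))) (K a128 (M a240 (F (T t79 (T t80 (L l192 (L l220 (T t81 N))))))) (K a85 (M a768 (F (T t28 (L l347 (L l2339 (T t29 (L l347 (L l2339 (T t30 N))))))))) (K a149 (M a768 (F (T t31 (L l347 (T t29 (L l810 (L l2894 (T t32 N)))))))) (K a213 (M a768 (F (T t31 (L l810 (L l2894 (L l3203 (T t32 (T t33 N)))))))) (K a106 (M a768 (F (T t28 (T t29 (L l810 (L l2894 (T t32 N))))))) (K a170 (M a768 (F (T t31 (T t29 (L l220 (T t30 N)))))) (K a234 (M a768 (F (T t31 (L l810 (L l2894 (T t32 (L l390 (L l3246 (T t33 N))))))))) (K a63 (M a768 (F (T t83 (L l3159 (T t35 (L l2209 (T t29 N))))))) N)))))))))))))))⟩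
def e0_255__795_39 : Ent 5 := ⟨[a0, a255], [a795, a494], (M a192 (F (T t19 (T t23 (T t22 (T t24 (K a64 (M a240 (F (T t79 (L l144 (T t80 (T t81 N)))))) (K a128 (M a240 (F (T t79 (T t80 (L l192 (L l220 (T t81 N))))))) (K a85 (M a768 (F (T t28 (L l347 (L l2339 (T t29 (L l347 (L l2339 (T t30 N))))))))) (K a149 (M a768 (F (T t31 (L l347 (T t29 (L l810 (T t32 N))))))) (K a213 (M a768 (F (T t31 (L l810 (L l3203 (T t32 (L l922 (T t33 N)))))))) (K a106 (M a768 (F (T t28 (T t29 (L l810 (T t32 N)))))) (K a170 (M a768 (F (T t31 (T t29 (L l220 (T t30 N)))))) (K a234 (M a768 (F (T t31 (L l810 (T t32 (L l390 (L l922 (L l3246 (T t33 N))))))))) (K a63 (M a768 (F (T t37 (L l3159 (T t35 (L l2209 (T t29 N))))))) N)))))))))))))))⟩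
def e0_255__795_40 : Ent 5 := ⟨[a0, a255], [a795, a496], (M a192 (F (T t19 (T t23 (T t22 (T t24 (K a64 (M a240 (F (T t79 (L l144 (T t80 (T t81 N)))))) (K a128 (M a240 (F (T t79 (T t80 (L l192 (L l220 (T t81 N))))))) (K a85 (M a768 (F (T t86 (L l347 (L l2339 (T t29 (L l347 (L l2339 (T t30 N))))))))) (K a149 (M a768 (F (T t31 (L l347 (T t29 (L l786 (T t32 N))))))) (K a213 (M a768 (F (T t31 (L l786 (L l3203 (T t32 (T t33 N))))))) (K a106 (M a768 (F (T t86 (T t29 (L l786 (T t32 N)))))) (K a170 (M a768 (F (T t31 (T t29 (L l220 (T t30 N)))))) (K a234 (M a768 (F (T t31 (L l786 (T t32 (L l390 (L l3246 (T t33 N)))))))) (K a63 (M a768 (F (T t85 (L l788 (L l3159 (T t35 (L l786 (L l3073 (T t32 N))))))))) N)))))))))))))))⟩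
def e0_255__795_41 : Ent 5 := ⟨[a0, a255], [a795, a501], (M a192 (F (T t19 (T t23 (T t22 (T t24 (K a64 (M a240 (F (T t79 (L l144 (L l2843 (T t80 (T t81 N))))))) (K a128 (M a240 (F (T t79 (L l2843 (T t80 (L l192 (L l220 (T t81 N)))))))) (K a85 (M a768 (F (T t28 (L l347 (L l2339 (T t29 (L l347 (L l2339 (T t30 N))))))))) (K a149 (M a768 (F (T t31 (L l347 (T t29 (L l786 (L l2864 (T t32 N)))))))) (K a213 (M a768 (F (T t31 (L l786 (L l2864 (L l3203 (T t32 (T t33 N)))))))) (K a106 (M a768 (F (T t28 (T t29 (L l786 (L l2864 (T t32 N))))))) (K a170 (M a768 (F (T t31 (T t29 (L l220 (T t30 N)))))) (K a234 (M a768 (F (T t31 (L l786 (L l2864 (T t32 (L l390 (L l3246 (T t33 N))))))))) (K a63 (M a768 (F (T t83 (L l3159 (T t35 (L l2209 (T t29 N))))))) N)))))))))))))))⟩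
def e0_255__795_42 : Ent 5 := ⟨[a0, a255], [a795, a506], (M a192 (F (T t19 (T t23 (T t22 (T t24 (K a64 (M a240 (F (T t26 (T t304 (T t81 N))))) (K a128 (M a240 (F (T t304 (T t80 (L l192 (L l220 (T t81 N))))))) (K a85 (M a768 (F (T t28 (L l347 (L l2339 (T t29 (L l347 (L l2339 (T t30 N))))))))) (K a149 (M a768 (F (T t31 (L l347 (T t29 (L l786 (T t32 N))))))) (K a213 (M a768 (F (T t31 (L l786 (L l3203 (T t32 (L l982 (T t33 N)))))))) (K a106 (M a768 (F (T t28 (T t29 (L l786 (T t32 N)))))) (K a170 (M a768 (F (T t31 (T t29 (L l220 (T t30 N)))))) (K a234 (M a768 (F (T t31 (L l786 (T t32 (L l390 (L l982 (L l3246 (T t33 N))))))))) (K a63 (M a768 (F (T t37 (L l3159 (T t35 (L l2209 (T t29 N))))))) N)))))))))))))))⟩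
def e0_255__795_43 : Ent 5 := ⟨[a0, a255], [a795, a511], (M a192 (F (T t19 (T t23 (T t22 (T t24 (K a64 (M a240 (F (T t79 (L l144 (T t80 (T t81 N)))))) (K a128 (M a240 (F (T t79 (T t80 (L l192 (L l220 (T t81 N))))))) (K a85 (M a768 (F (T t86 (L l347 (L l2339 (T t29 (L l144 (L l996 (T t272 N))))))))) (K a149 (M a768 (F (T t31 (L l347 (T t29 (L l220 (L l996 (T t41 N)))))))) (K a213 (M a768 (F (T t31 (L l996 (T t41 (L l347 (L l953 (L l3203 (T t44 N))))))))) (K a106 (M a768 (F (T t86 (T t29 (L l390 (L l996 (T t41 N))))))) (K a170 (M a768 (F (T t31 (T t29 (L l390 (L l996 (L l2598 (T t272 N)))))))) (K a234 (M a768 (F (T t31 (L l390 (L l996 (L l3246 (T t41 (L l953 (T t44 N))))))))) (K a63 (M a768 (F (T t42 (L l816 (L l3159 (T t35 (L l996 (L l3073 (T t41 N))))))))) N)))))))))))))))⟩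
def e0_255__795_44 : Ent 5 := ⟨[a0, a255], [a795, a768], (M a192 (F (T t46 (L l2295 (T t19 (L l2295 (T t23 (L l2295 (T t22 (L l2295 (T t24 (K a64 (M a240 (F (T t84 (L l144 (L l2115 (T t80 (T t81 N))))))) (K a128 (M a240 (F (T t406 (L l3195 (T t304 (L l192 (L l220 (T t81 N)))))))) (K a85 (M a1023 (F (T t379 (L l1628 (L l2339 (T t370 (L l347 (L l1628 (T t371 N))))))))) (K a149 (M a208 (F (T t380 (L l2260 (T t308 (L l170 (L l220 (T t310 N)))))))) (K a213 (M a48 (F (T t381 (L l347 (L l3195 (T t136 (L l347 (T t274 N)))))))) (K a106 (M a224 (F (T t382 (L l2260 (T t311 (L l104 (L l144 (T t313 N)))))))) (K a170 (M a1023 (F (T t383 (L l390 (L l1864 (T t384 (L l220 (L l1628 (L l2598 (T t371 N)))))))))) (K a234 (M a48 (F (T t381 (L l3195 (T t136 (T t274 N)))))) (K a63 (M a16 (L l2295 (F (T t352 (L l447 (L l3340 (T t353 (T t322 (K a533 (M a298 (F (T t385 (L l505 (L l3195 (T t321 (T t322 N))))))) (K a298 (M a533 (F (T t385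 (L l505 (L l3195 (T t321 (T t322 N))))))) N)))))))))) N))))))))))))))))))))⟩
def e0_255__795_45 : Ent 5 := ⟨[a0, a255], [a795, a773], (M a192 (F (T t19 (T t23 (T t22 (T t24 (K a64 (M a240 (F (T t26 (L l3347 (T t304 (T t81 N)))))) (K a128 (M a240 (F (T t140 (L l3347 (T t304 (L l192 (L l220 (T t81 N)))))))) (K a85 (M a768 (F (T t28 (L l347 (L l2339 (L l3347 (T t29 (L l347 (L l2339 (L l3347 (T t30 N))))))))))) (K a149 (M a768 (F (T t31 (L l347 (L l3347 (T t29 (L l3347 (T t32 N)))))))) (K a213 (M a768 (F (T t31 (L l3203 (L l3347 (T t32 (L l2015 (T t33 N)))))))) (K a106 (M a768 (F (T t28 (L l3347 (T t29 (L l3347 (T t32 N))))))) (K a170 (M a768 (F (T t31 (L l3347 (T t29 (L l220 (L l3347 (T t30 N)))))))) (K a234 (M a768 (F (T t31 (L l3347 (T t32 (L l390 (L l2015 (L l3246 (T t33 N))))))))) (K a63 (M a768 (F (T t74 (L l3159 (T t35 (L l2209 (L l3347 (T t29 N)))))))) N)))))))))))))))⟩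
def e0_255__795_46 : Ent 5 := ⟨[a0, a255], [a795, a778], (M a192 (F (T t19 (T t23 (T t22 (T t24 (K a64 (M a240 (F (T t26 (L l3174 (T t304 (T t81 N)))))) (K a128 (M a240 (F (T t140 (L l3174 (T t304 (L l192 (L l220 (T t81 N)))))))) (K a85 (M a768 (F (T t28 (L l347 (L l1614 (L l2339 (T t29 (L l347 (L l1614 (L l2339 (T t30 N))))))))))) (K a149 (M a768 (F (T t31 (L l347 (L l1614 (T t29 (T t32 N))))))) (K a213 (M a768 (F (T t31 (L l3203 (T t32 (L l3354 (T t33 N))))))) (K a106 (M a768 (F (T t28 (L l1614 (T t29 (T t32 N)))))) (K a170 (M a768 (F (T t31 (L l1614 (T t29 (L l220 (L l1614 (T t30 N)))))))) (K a234 (M a768 (F (T t31 (T t32 (L l390 (L l3246 (L l3354 (T t33 N)))))))) (K a63 (M a768 (F (T t38 (L l3159 (T t35 (L l1614 (L l2209 (T t29 N)))))))) N)))))))))))))))⟩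
def e0_255__795_47 : Ent 5 := ⟨[a0, a255], [a795, a783], (M a768 (L l1633 (F (T t38 (L l2029 (T t32 (L l2029 (T t39 (L l2029 (T t40 (L l2029 (T t41 (K a256 (M a192 (L l1633 (F (T t42 (L l2281 (T t19 (L l824 (L l996 (T t33 (K a819 (M a807 (F (T t43 (L l2221 (L l2281 (T t24 (T t44 N))))))) (K a807 (M a819 (F (T t45 (L l2281 (T t23 N))))) N))))))))))) (K a512 (M a192 (L l1633 (F (T t46 (L l1516 (L l1621 (T t29 (T t33 (K a819 (M a807 (F (T t47 (L l1597 (L l1621 (T t48 (L l1344 (L l1516 (T t44 N))))))))) (K a807 (M a819 (F (T t49 (L l2041 (T t50 N))))) N)))))))))) (K a85 (M a819 (F (T t51 (L l2287 (T t52 (L l2339 (T t53 N))))))) (K a341 (M a819 (F (T t601 (L l2339 (L l3182 (T t75 (L l885 (L l996 (T t56 N))))))))) (K a597 (M a192 (L l1633 (F (T t57 (L l2281 (L l2339 (L l3203 (T t19 (L l1184 (L l1516 (L l2281 (L l2339 (L l3203 (T t58 (L l2281 (L l2511 (T t59 (K a819 (M a807 (F (T t60 (L l1899 (L l2049 (T t28 (L l1184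 (L l1516 (L l2221 (L l2281 (L l2339 (L l3203 (T t58 (L l2221 (L l2281 (L l2511 (T t59 N))))))))))))))))) (K a807 (M a819 (F (T t60 (L l1516 (L l2287 (T t61 N)))))) N))))))))))))))))))) (K a170 (M a819 (F (T t54 (L l2287 (T t55 (T t53 N)))))) (K a426 (M a192 (L l1633 (F (T t46 (L l1899 (T t35 (L l2281 (L l2727 (T t58 (L l740 (L l996 (L l2281 (L l2598 (L l3246 (T t59 (K a819 (M a807 (F (T t62 (L l2221 (L l2281 (L l2598 (T t24 (L l2221 (L l2281 (L l2727 (T t58 (L l740 (L l996 (L l2221 (L l2281 (L l2598 (L l3246 (T t59 N)))))))))))))))))) (K a807 (M a819 (F (T t46 (L l2287 (T t61 N))))) N))))))))))))))))) (K a682 (M a819 (F (T t63 (L l2598 (L l3182 (T t64 (L l1442 (L l1516 (T t53 N))))))))) (K a1023 (M a819 (L l2029 (F (T t51 (L l2287 (L l3079 (T t52 (L l2894 (T t53 (K a863 (M a943 (F (T t65 (L l2894 (L l3182 (T t66 (L l2894 (T t53 N)))))))) (K a943 (M a863 (F (T t65 (L l2894 (L l3182 (T t66 (L l2894 (T t53 N))))))))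 N))))))))))) (K a819 (M a807 (F (T t38 (L l1999 (L l2029 (T t32 (L l1999 (L l2029 (T t39 (L l1999 (L l2029 (T t40 (L l1999 (L l2029 (T t41 (K a256 (M a192 (F (T t43 (L l2221 (L l2281 (T t24 (T t44 N))))))) (K a512 (M a192 (F (T t47 (L l1597 (L l1621 (T t48 (L l1344 (L l1516 (T t44 N))))))))) (K a85 (M a192 (F (T t57 (L l1597 (L l1621 (T t48 (L l347 (L l2339 (T t30 N))))))))) (K a341 (M a64 (F (T t6 (L l1899 (L l2049 (T t67 (L l664 (L l996 (T t68 N))))))))) (K a597 (M a192 (F (T t60 (L l1899 (L l2049 (T t28 (L l1184 (L l1516 (L l2221 (L l2281 (L l2339 (L l3203 (T t58 (L l2221 (L l2281 (L l2511 (T t59 N))))))))))))))))) (K a170 (M a192 (F (T t69 (L l1597 (L l1621 (L l2598 (T t48 (L l220 (T t30 N))))))))) (K a426 (M a192 (F (T t62 (L l2221 (L l2281 (L l2598 (T t24 (L l2221 (L l2281 (L l2727 (T t58 (L l740 (L l996 (L l2221 (L l2281 (L l2598 (L l3246 (T t59 N)))))))))))))))))) (K a682 (M a128 (F (T t70 (L l1899 (L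 l2049 (T t71 (L l1260 (L l1516 (T t72 N))))))))) (K a1023 (M a64 (L l1999 (L l2029 (F (T t73 (L l1856 (L l1899 (L l2049 (T t67 (T t68 (K a887 (M a955 (L l2029 (F (T t73 (L l1856 (L l1899 (L l2049 (T t67 (T t68 (K a863 (M a943 (F (T t73 (L l1856 (L l1899 (L l2049 (T t67 (T t68 N)))))))) (K a943 (M a863 (F (T t73 (L l1856 (L l1899 (L l2049 (T t67 (T t68 N)))))))) N))))))))))) (K a955 (M a887 (L l2029 (F (T t73 (L l1856 (L l1899 (L l2049 (T t67 (T t68 (K a863 (M a943 (F (T t73 (L l1856 (L l1899 (L l2049 (T t67 (T t68 N)))))))) (K a943 (M a863 (F (T t73 (L l1856 (L l1899 (L l2049 (T t67 (T t68 N)))))))) N))))))))))) (K a863 (M a943 (L l1999 (F (T t73 (L l1856 (L l1899 (L l2049 (T t67 (T t68 (K a887 (M a955 (F (T t73 (L l1856 (L l1899 (L l2049 (T t67 (T t68 N)))))))) (K a955 (M a887 (F (T t73 (L l1856 (L l1899 (L l2049 (T t67 (T t68 N)))))))) N))))))))))) (K a943 (M a863 (L l1999 (F (T t73 (L l1856 (L l1899 (L l2049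 (T t67 (T t68 (K a887 (M a955 (F (T t73 (L l1856 (L l1899 (L l2049 (T t67 (T t68 N)))))))) (K a955 (M a887 (F (T t73 (L l1856 (L l1899 (L l2049 (T t67 (T t68 N)))))))) N))))))))))) N)))))))))))))) N)))))))))))))))))))))))) (K a807 (M a819 (F (T t74 (L l2287 (T t52 (L l3182 (T t75 N))))))) N)))))))))))))))))))))))⟩
def e0_255__795_48 : Ent 5 := ⟨[a0, a255], [a795, a807], (M a768 (L l1633 (F (T t32 (T t39 (T t40 (T t41 (K a256 (M a192 (L l1633 (F (T t23 (T t29 (L l824 (L l996 (T t33 (K a819 (M a783 (F (T t602 (L l2221 (T t23 N))))) (K a783 (M a819 (F (T t45 (L l2281 (T t23 N))))) N)))))))))) (K a512 (M a192 (L l1633 (F (T t23 (L l1516 (T t29 (T t33 (K a819 (M a783 (F (T t49 (L l2071 (T t603 N))))) (K a783 (M a819 (F (T t49 (L l2041 (T t50 N))))) N))))))))) (K a85 (M a819 (F (T t604 (L l2339 (T t75 (L l2339 (T t53 N))))))) (K a341 (M a819 (F (T t61 (L l2339 (T t75 (L l885 (L l996 (T t56 N)))))))) (K a597 (M a192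 (L l1633 (F (T t23 (L l1184 (L l1516 (T t35 (L l1184 (L l1516 (L l2339 (L l3203 (T t58 (L l2511 (T t59 (K a819 (M a783 (F (T t60 (L l1516 (L l2257 (T t605 N)))))) (K a783 (M a819 (F (T t60 (L l1516 (L l2287 (T t61 N)))))) N)))))))))))))))) (K a170 (M a819 (F (T t55 (T t75 (T t53 N))))) (K a426 (M a192 (L l1633 (F (T t35 (T t19 (L l2727 (T t58 (L l740 (L l996 (L l2598 (L l3246 (T t59 (K a819 (M a783 (F (T t46 (L l2257 (T t605 N))))) (K a783 (M a819 (F (T t46 (L l2287 (T t61 N))))) N)))))))))))))) (K a682 (M a819 (F (T t604 (L l2598 (T t64 (L l1442 (L l1516 (T t53 N)))))))) (K a1023 (M a819 (F (T t51 (L l3079 (T t52 (L l2894 (T t53 N))))))) (K a819 (M a783 (F (T t74 (L l2257 (T t606 (L l3272 (T t607 N))))))) (K a783 (M a819 (F (T t74 (L l2287 (T t52 (L l3182 (T t75 N))))))) N))))))))))))))))))⟩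
def e0_255__795_49 : Ent 5 := ⟨[a0, a255], [a795, a836], (M a192 (F (T t19 (T t23 (T t22 (T t24 (K a64 (M a240 (F (T t79 (L l144 (T t80 (T t81 N)))))) (K a128 (M a240 (F (T t79 (T t80 (L l192 (L l220 (T t81 N))))))) (K a85 (M a768 (F (T t28 (L l347 (L l2339 (L l2487 (T t29 (L l347 (L l2339 (L l2487 (T t30 N))))))))))) (K a149 (M a768 (F (T t31 (L l347 (L l2487 (T t29 (L l2487 (T t32 N)))))))) (K a213 (M a768 (F (T t31 (L l2487 (L l3203 (T t32 (L l1686 (T t33 N)))))))) (K a106 (M a768 (F (T t28 (L l2487 (T t29 (L l2487 (T t32 N))))))) (K a170 (M a768 (F (T t31 (L l2487 (T t29 (L l220 (L l2487 (T t30 N)))))))) (K a234 (M a768 (F (T t31 (L l2487 (T t32 (L l390 (L l1686 (L l3246 (T t33 N))))))))) (K a63 (M a768 (F (T t74 (L l3159 (T t35 (L l2209 (L l2487 (T t29 N)))))))) N)))))))))))))))⟩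
def e0_255__795_50 : Ent 5 := ⟨[a0, a255], [a795, a848], (M a192 (F (T t19 (T t23 (T t22 (T t24 (K a64 (M a240 (F (T t79 (L l144 (T t80 (L l2367 (T t81 N))))))) (K a128 (M a240 (F (T t79 (T t80 (L l192 (L l220 (L l2367 (T t81 N)))))))) (K a85 (M a768 (F (T t28 (L l347 (L l2339 (L l2367 (T t29 (L l347 (L l2339 (L l2367 (T t30 N))))))))))) (K a149 (M a768 (F (T t31 (L l347 (L l2367 (T t29 (L l2367 (T t32 N)))))))) (K a213 (M a768 (F (T t31 (L l2367 (L l3203 (T t32 (L l1654 (T t33 N)))))))) (K a106 (M a768 (F (T t28 (L l2367 (T t29 (L l2367 (T t32 N))))))) (K a170 (M a768 (F (T t31 (L l2367 (T t29 (L l220 (L l2367 (T t30 N)))))))) (K a234 (M a768 (F (T t31 (L l2367 (T t32 (L l390 (L l1654 (L l3246 (T t33 N))))))))) (K a63 (M a768 (F (T t74 (L l3159 (T t35 (L l2209 (L l2367 (T t29 N)))))))) N)))))))))))))))⟩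
def e0_255__795_51 : Ent 5 := ⟨[a0, a255], [a795, a853], (M a192 (F (T t23 (L l2339 (T t19 (L l2339 (T t22 (T t24 (K a64 (M a240 (F (T t79 (L l144 (L l2339 (T t80 (T t81 N))))))) (K a128 (M a240 (F (T t79 (L l2339 (T t80 (L l192 (L l220 (T t81 N)))))))) (K a85 (M a341 (F (T t396 (L l347 (L l1704 (T t11 (T t10 N))))))) (K a149 (M a768 (F (T t31 (L l347 (L l2339 (T t29 (L l2339 (T t32 N)))))))) (K a213 (M a768 (F (T t35 (L l2339 (L l3203 (T t32 (L l2339 (L l3203 (T t397 N))))))))) (K a106 (M a768 (F (T t28 (L l2339 (T t29 (L l2339 (T t32 N))))))) (K a170 (M a768 (F (T t31 (L l2339 (T t29 (L l220 (L l1704 (L l2339 (T t30 N))))))))) (K a234 (M a768 (F (T t35 (L l2339 (T t32 (L l2339 (T t397 N))))))) (K a63 (M a768 (F (T t85 (L l3159 (T t35 (L l2339 (L l3073 (T t32 N)))))))) N)))))))))))))))))⟩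
def e0_255__795_52 : Ent 5 := ⟨[a0, a255], [a795, a858], (M a768 (L l1917 (F (T t32 (L l2022 (T t39 (T t40 (L l1654 (T t41 (K a256 (M a192 (L l1917 (F (T t23 (T t29 (L l824 (L l996 (L l1654 (T t33 (K a984 (M a921 (F (T t240 (T t24 (L l2022 (T t44 N)))))) (K a921 (M a984 (F (T t240 (T t24 (L l1768 (L l2022 (T t44 N))))))) N))))))))))) (K a512 (M a192 (L l1917 (F (T t23 (L l1516 (T t29 (L l1654 (T t33 (K a984 (M a921 (F (T t245 (T t24 (L l1344 (L l1516 (L l2022 (T t44 N)))))))) (K a921 (M a984 (F (T t245 (T t24 (L l1344 (L l1516 (L l1768 (L l2022 (T t44 N))))))))) N)))))))))) (K a85 (M a972 (L l1917 (F (T t608 (L l2339 (T t609 (L l2339 (T t610 (K a984 (M a921 (F (T t611 (T t612 N)))) (K a921 (M a984 (F (T t613 (L l94 (T t614 N))))) N)))))))))) (K a341 (M a1008 (L l1917 (F (T t615 (L l2339 (T t616 (L l614 (L l996 (T t617 (K a984 (M a921 (F (T t615 (L l1654 (L l2339 (T t618 (L l614 (L l996 (T t617 N))))))))) (K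 a921 (M a984 (F (T t615 (L l2339 (T t619 N))))) N))))))))))) (K a597 (M a192 (L l1917 (F (T t23 (L l1184 (L l1516 (T t35 (L l1184 (L l1516 (L l2339 (L l3203 (T t58 (L l2511 (T t59 (K a984 (M a921 (F (T t28 (L l2339 (T t22 (L l1184 (L l1516 (L l2339 (L l3203 (T t58 (L l2511 (T t59 N)))))))))))) (K a921 (M a984 (F (T t28 (L l2339 (T t22 (L l1184 (L l1516 (L l2339 (L l3203 (T t58 (L l2511 (T t59 N)))))))))))) N)))))))))))))))) (K a170 (M a972 (L l1917 (F (T t620 (T t609 (T t610 (K a984 (M a921 (F (T t611 (T t610 N)))) (K a921 (M a984 (F (T t609 (T t614 N)))) N)))))))) (K a426 (M a192 (L l1917 (F (T t35 (T t19 (L l2727 (T t58 (L l740 (L l996 (L l2598 (L l3246 (T t59 (K a984 (M a921 (F (T t35 (L l2598 (T t24 (L l2727 (T t58 (L l740 (L l996 (L l2598 (L l3246 (T t59 N)))))))))))) (K a921 (M a984 (F (T t35 (L l2598 (T t24 (L l2727 (T t58 (L l740 (L l996 (L l2598 (L l3246 (T t59 N)))))))))))) N)))))))))))))) (K a682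 (M a1008 (L l1917 (F (T t621 (L l2598 (T t622 (L l1220 (L l1516 (T t623 (K a984 (M a921 (F (T t621 (L l2598 (T t624 (L l1220 (L l1516 (T t623 N)))))))) (K a921 (M a984 (F (T t621 (L l1768 (L l2598 (T t625 N)))))) N))))))))))) (K a1023 (M a1008 (L l1917 (F (T t626 (L l2864 (T t627 (L l3109 (T t623 (K a984 (M a921 (F (T t628 (L l3109 (T t624 (L l3109 (T t623 N))))))) (K a921 (M a984 (F (T t629 (L l3079 (T t619 N))))) N)))))))))) (K a984 (M a921 (F (T t32 (T t630 (L l1708 (T t631 (T t632 (T t633 (K a341 (M a64 (F (T t15 (T t67 (L l664 (L l996 (T t68 N))))))) (K a597 (M a938 (F (L l2339 (T t634 (L l2487 (T t635 N)))))) (K a426 (M a853 (F (L l2598 (T t636 (L l3264 (T t637 N)))))) (K a682 (M a128 (F (T t198 (T t71 (L l1260 (L l1516 (T t72 N))))))) N)))))))))))) (K a921 (M a984 (F (T t32 (L l1768 (L l2022 (T t39 (T t40 (L l1654 (L l1925 (T t41 (K a256 (M a192 (F (T t240 (T t24 (L l1768 (L l2022 (T t44 N))))))) (K a512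 (M a192 (F (T t245 (T t24 (L l1344 (L l1516 (L l1768 (L l2022 (T t44 N))))))))) (K a85 (M a1008 (F (T t624 (T t638 N)))) (K a341 (M a1008 (F (T t615 (L l2339 (T t619 N))))) (K a597 (M a192 (F (T t28 (L l2339 (T t22 (L l1184 (L l1516 (L l2339 (L l3203 (T t58 (L l2511 (T t59 N)))))))))))) (K a170 (M a1008 (F (T t616 (L l208 (T t638 N))))) (K a426 (M a592 (F (L l700 (T t639 (L l996 (T t640 (L l996 (L l1654 (L l2043 (L l2598 (T t641 N))))))))))) (K a682 (M a1008 (F (T t621 (L l1768 (L l2598 (T t625 N)))))) (K a1023 (M a1008 (F (T t629 (L l3079 (T t619 N))))) N))))))))))))))))))) N))))))))))))))))))))⟩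
def e0_255__795_53 : Ent 5 := ⟨[a0, a255], [a795, a863], (M a192 (F (T t19 (T t23 (T t22 (T t24 (K a64 (M a240 (F (T t79 (L l144 (T t80 (L l2353 (T t81 N))))))) (K a128 (M a240 (F (T t79 (T t80 (L l192 (L l220 (L l2353 (T t81 N)))))))) (K a85 (M a768 (F (T t28 (L l347 (L l2339 (T t29 (L l347 (L l1697 (L l2339 (T t30 N)))))))))) (K a149 (M a768 (F (T t31 (L l347 (T t29 (L l2029 (T t32 N))))))) (K a213 (M a768 (F (T t31 (L l2029 (L l3203 (T t32 (L l1654 (T t33 N)))))))) (K a106 (M a768 (F (T t28 (T t29 (L l2029 (T t32 N)))))) (K a170 (M a768 (F (T t31 (T t29 (L l220 (L l1697 (T t30 N))))))) (K a234 (M a768 (F (T t31 (L l2029 (T t32 (L l390 (L l1654 (L l3246 (T t33 N))))))))) (K a63 (M a768 (F (T t74 (L l3159 (T t35 (L l2209 (T t29 N))))))) N)))))))))))))))⟩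
def e0_255__795_54 : Ent 5 := ⟨[a0, a255], [a795, a870], (M a192 (F (T t19 (T t23 (T t22 (T t24 (K a64 (M a240 (F (T t79 (L l144 (T t80 (T t81 N)))))) (K a128 (M a240 (F (T t79 (T t80 (L l192 (L l220 (T t81 N))))))) (K a85 (M a768 (F (T t28 (L l347 (L l2339 (T t29 (L l347 (L l2339 (T t30 N))))))))) (K a149 (M a768 (F (T t31 (L l347 (T t29 (T t32 N)))))) (K a213 (M a768 (F (T t31 (L l3203 (T t32 (L l1686 (T t33 N))))))) (K a106 (M a768 (F (T t35 (T t29 (T t32 N))))) (K a170 (M a768 (F (T t31 (T t29 (L l220 (T t30 N)))))) (K a234 (M a768 (F (T t31 (T t32 (L l390 (L l1686 (L l3246 (T t33 N)))))))) (K a63 (M a768 (F (T t74 (L l3159 (T t35 (L l2209 (T t29 N))))))) N)))))))))))))))⟩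
def e0_255__795_55 : Ent 5 := ⟨[a0, a255], [a795, a887], (M a192 (F (T t19 (T t23 (T t22 (T t24 (K a64 (M a240 (F (T t79 (L l144 (T t80 (T t81 N)))))) (K a128 (M a240 (F (T t79 (T t80 (L l192 (L l220 (T t81 N))))))) (K a85 (M a768 (F (T t28 (L l347 (L l2339 (T t29 (L l347 (L l1673 (L l2339 (T t30 N)))))))))) (K a149 (M a768 (F (T t31 (L l347 (T t29 (L l1999 (T t32 N))))))) (K a213 (M a768 (F (T t31 (L l1999 (L l3203 (T t32 (L l1686 (T t33 N)))))))) (K a106 (M a768 (F (T t28 (T t29 (L l1999 (T t32 N)))))) (K a170 (M a768 (F (T t31 (T t29 (L l220 (L l1673 (T t30 N))))))) (K a234 (M a768 (F (T t31 (L l1999 (T t32 (L l390 (L l1686 (L l3246 (T t33 N))))))))) (K a63 (M a768 (F (T t74 (L l3159 (T t35 (L l2209 (T t29 N))))))) N)))))))))))))))⟩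
def e0_255__795_56 : Ent 5 := ⟨[a0, a255], [a795, a972], (M a192 (F (T t46 (L l3147 (T t19 (L l3147 (T t23 (L l3147 (T t22 (L l3147 (T t24 (K a64 (M a240 (F (T t84 (L l144 (L l2967 (T t80 (T t81 N))))))) (K a128 (M a240 (F (T t406 (L l2751 (T t304 (L l192 (L l220 (T t81 N)))))))) (K a85 (M a768 (F (T t85 (L l1792 (T t35 (L l347 (L l2339 (T t30 N)))))))) (K a149 (M a768 (F (T t49 (L l1792 (T t35 (L l1850 (T t32 N))))))) (K a213 (M a768 (F (T t62 (L l1850 (L l3203 (T t32 (T t33 N))))))) (K a106 (M a768 (F (T t43 (L l1792 (T t35 (L l1850 (T t32 N))))))) (K a170 (M a768 (F (T t42 (L l1792 (T t35 (L l220 (T t30 N))))))) (K a234 (M a768 (F (T t37 (L l1792 (T t35 (L l390 (L l3246 (T t33 N)))))))) (K a63 (M a768 (L l3147 (F (T t38 (L l1792 (L l3159 (T t35 (L l2067 (L l2209 (T t29 (K a669 (M a366 (F (T t74 (L l2067 (L l2209 (T t48 (L l1792 (L l3159 (T t86 N))))))))) (K a366 (M a669 (F (T t74 (L l2067 (L l2209 (T t48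 (L l1792 (L l3159 (T t86 N))))))))) N)))))))))))) N))))))))))))))))))))⟩
def e0_255__795_57 : Ent 5 := ⟨[a0, a255], [a795, a984], (M a768 (L l1917 (F (T t32 (T t39 (T t40 (T t41 (K a256 (M a192 (L l1917 (F (T t23 (T t29 (L l824 (L l996 (T t33 (K a921 (M a858 (F (T t240 (T t24 (L l1768 (T t44 N)))))) (K a858 (M a921 (F (T t240 (T t24 (L l2022 (T t44 N)))))) N)))))))))) (K a512 (M a192 (L l1917 (F (T t23 (L l1516 (T t29 (T t33 (K a921 (M a858 (F (T t245 (T t24 (L l1344 (L l1516 (L l1768 (T t44 N)))))))) (K a858 (M a921 (F (T t245 (T t24 (L l1344 (L l1516 (L l2022 (T t44 N)))))))) N))))))))) (K a85 (M a1008 (L l1917 (F (T t642 (L l2339 (T t616 (L l2339 (T t623 (K a921 (M a858 (F (T t642 (L l1783 (L l2339 (T t643 N)))))) (K a858 (M a921 (F (T t621 (T t624 (L l2339 (T t623 N)))))) N)))))))))) (K a341 (M a1008 (L l1917 (F (T t615 (L l2339 (T t616 (L l614 (L l996 (T t617 (K a921 (M a858 (F (T t615 (L l1783 (L l2339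 (T t644 N)))))) (K a858 (M a921 (F (T t615 (L l1654 (L l2339 (T t618 (L l614 (L l996 (T t617 N))))))))) N))))))))))) (K a597 (M a240 (L l1917 (F (T t207 (L l1134 (L l1858 (T t556 (L l1134 (L l1516 (L l2339 (L l3347 (T t645 (L l2367 (T t646 (K a921 (M a858 (F (T t207 (L l1858 (T t647 (L l2339 (L l2367 (L l2997 (L l3347 (T t648 N)))))))))) (K a858 (M a921 (F (T t207 (L l1858 (L l2043 (T t647 (L l1134 (L l1516 (L l2339 (L l3347 (T t645 (L l2367 (T t646 N))))))))))))) N)))))))))))))))) (K a170 (M a1008 (L l1917 (F (T t615 (T t616 (T t623 (K a921 (M a858 (F (T t649 (T t623 N)))) (K a858 (M a921 (F (T t616 (T t621 (T t623 N))))) N)))))))) (K a426 (M a240 (L l1917 (F (T t80 (L l700 (L l1858 (T t550 (L l2619 (T t645 (L l700 (L l996 (L l2598 (L l3354 (T t646 (K a921 (M a858 (F (T t80 (L l700 (L l996 (L l1858 (T t647 (L l700 (L l982 (L l2997 (T t650 N))))))))))) (K a858 (M a921 (F (T t80 (L l700 (L l996 (L l1858 (L l2043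 (T t647 (L l2619 (T t645 (L l700 (L l996 (L l2598 (L l3354 (T t646 N))))))))))))))) N)))))))))))))))) (K a682 (M a1008 (L l1917 (F (T t621 (L l2598 (T t622 (L l1220 (L l1516 (T t623 (K a921 (M a858 (F (L l1633 (T t651 (L l1220 (L l1516 (T t623 N))))))) (K a858 (M a921 (F (T t621 (L l2598 (T t624 (L l1220 (L l1516 (T t623 N)))))))) N))))))))))) (K a1023 (M a1008 (L l1917 (F (T t626 (L l2864 (T t627 (L l3109 (T t623 (K a921 (M a858 (F (T t628 (L l1783 (T t644 N))))) (K a858 (M a921 (F (T t628 (L l3109 (T t624 (L l3109 (T t623 N))))))) N)))))))))) (K a921 (M a858 (F (T t32 (T t652 (L l1783 (T t653 (T t654 (T t655 (K a341 (M a1008 (F (T t615 (L l1783 (L l2339 (T t644 N)))))) (K a597 (M a938 (F (L l2339 (T t634 (L l3347 (T t656 N)))))) (K a426 (M a853 (F (L l2598 (T t636 (L l2619 (T t657 N)))))) (K a682 (M a1008 (F (L l1633 (T t651 (L l1220 (L l1516 (T t623 N))))))) N)))))))))))) (K a858 (M a921 (F (T t32 (T t630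 (L l1708 (T t631 (T t632 (T t633 (K a341 (M a64 (F (T t15 (T t67 (L l664 (L l996 (T t68 N))))))) (K a597 (M a938 (F (L l2339 (T t634 (L l2487 (T t635 N)))))) (K a426 (M a853 (F (L l2598 (T t636 (L l3264 (T t637 N)))))) (K a682 (M a128 (F (T t198 (T t71 (L l1260 (L l1516 (T t72 N))))))) N)))))))))))) N))))))))))))))))))⟩
def e0_255__795_58 : Ent 5 := ⟨[a0, a255], [a795, a989], (M a192 (F (T t19 (T t23 (T t22 (T t24 (K a64 (M a240 (F (T t79 (L l144 (T t80 (T t81 N)))))) (K a128 (M a240 (F (T t79 (T t80 (L l192 (L l220 (T t81 N))))))) (K a85 (M a768 (F (T t28 (L l347 (L l2339 (T t29 (L l347 (L l2339 (T t30 N))))))))) (K a149 (M a768 (F (T t31 (L l347 (T t29 (L l1850 (T t32 N))))))) (K a213 (M a768 (F (T t31 (L l1850 (L l3203 (T t32 (L l1925 (T t33 N)))))))) (K a106 (M a768 (F (T t28 (T t29 (L l1850 (T t32 N)))))) (K a170 (M a768 (F (T t31 (T t29 (L l220 (T t30 N)))))) (K a234 (M a768 (F (T t31 (L l1850 (T t32 (L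 l390 (L l1925 (L l3246 (T t33 N))))))))) (K a63 (M a768 (F (T t74 (L l3159 (T t35 (L l2209 (T t29 N))))))) N)))))))))))))))⟩
def e0_255__795_59 : Ent 5 := ⟨[a0, a255], [a795, a1006], (M a192 (F (T t19 (T t23 (T t22 (T t24 (K a64 (M a240 (F (T t79 (L l144 (T t80 (T t81 N)))))) (K a128 (M a240 (F (T t79 (T t80 (L l192 (L l220 (T t81 N))))))) (K a85 (M a768 (F (T t28 (L l347 (L l2339 (T t29 (L l347 (L l2339 (T t30 N))))))))) (K a149 (M a768 (F (T t31 (L l347 (T t29 (L l1850 (T t32 N))))))) (K a213 (M a768 (F (T t31 (L l1850 (L l3203 (T t32 (T t33 N))))))) (K a106 (M a768 (F (T t35 (T t29 (L l1850 (T t32 N)))))) (K a170 (M a768 (F (T t31 (T t29 (L l220 (T t30 N)))))) (K a234 (M a768 (F (T t31 (L l1850 (T t32 (L l390 (L l3246 (T t33 N)))))))) (K a63 (M a768 (F (T t74 (L l3159 (T t35 (L l2209 (T t29 N))))))) N)))))))))))))))⟩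
def e0_255__795_60 : Ent 5 := ⟨[a0, a255], [a795, a1023], (M a192 (F (T t46 (L l3073 (T t19 (L l3073 (T t23 (L l3073 (T t22 (L l3073 (T t24 (K a64 (M a240 (F (T t84 (L l144 (L l3109 (T t80 (T t81 N))))))) (K a128 (M a240 (F (T t406 (L l2893 (T t304 (L l192 (L l220 (T t81 N)))))))) (K a85 (M a768 (F (T t401 (L l347 (L l1993 (L l2339 (T t29 (L l347 (L l1993 (L l2339 (T t30 N))))))))))) (K a149 (M a768 (F (T t85 (L l1856 (T t35 (L l220 (L l347 (L l1993 (T t30 N))))))))) (K a213 (M a48 (F (T t381 (L l347 (L l2893 (T t136 (L l347 (T t274 N)))))))) (K a106 (M a768 (F (T t401 (L l1993 (T t29 (L l1993 (T t30 N))))))) (K a170 (M a768 (F (T t42 (L l1856 (T t35 (L l220 (L l1993 (T t30 N)))))))) (K a234 (M a48 (F (T t381 (L l2893 (T t136 (T t274 N)))))) (K a63 (M a768 (L l3073 (F (T t85 (L l1856 (L l3159 (T t35 (L l1993 (T t30 (K a383 (M a703 (F (T t49 (L l1856 (L l3159 (T t86 (L l1993 (L l2425 (T t30 N))))))))) (K a703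 (M a383 (F (T t49 (L l1856 (L l3159 (T t86 (L l1993 (T t30 N)))))))) N))))))))))) N))))))))))))))))))))⟩
def b0_255__795 : Blk 5 := ⟨[0, 255], [795], [5, 10, 15, 39, 68, 80, 90, 95, 102, 119, 204, 216, 221, 238, 256, 261, 266, 271, 273, 290, 295, 307, 324, 336, 341, 346, 351, 358, 375, 392, 409, 416, 421, 426, 431, 443, 460, 472, 477, 494, 496, 501, 506, 511, 768, 773, 778, 783, 807, 836, 848, 853, 858, 863, 870, 887, 972, 984, 989, 1006, 1023], [e0_255__795_0, e0_255__795_1, e0_255__795_2, e0_255__795_3, e0_255__795_4, e0_255__795_5, e0_255__795_6, e0_255__795_7, e0_255__795_8, e0_255__795_9, e0_255__795_10, e0_255__795_11, e0_255__795_12, e0_255__795_13, e0_255__795_14, e0_255__795_15, e0_255__795_16, e0_255__795_17, e0_255__795_18, e0_255__795_19, e0_255__795_20, e0_255__795_21, e0_255__795_22, e0_255__795_23, e0_255__795_24, e0_255__795_25, e0_255__795_26, e0_255__795_27, e0_255__795_28, e0_255__795_29,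 e0_255__795_30, e0_255__795_31, e0_255__795_32, e0_255__795_33, e0_255__795_34, e0_255__795_35, e0_255__795_36, e0_255__795_37, e0_255__795_38, e0_255__795_39, e0_255__795_40, e0_255__795_41, e0_255__795_42, e0_255__795_43, e0_255__795_44, e0_255__795_45, e0_255__795_46, e0_255__795_47, e0_255__795_48, e0_255__795_49, e0_255__795_50, e0_255__795_51, e0_255__795_52, e0_255__795_53, e0_255__795_54, e0_255__795_55, e0_255__795_56, e0_255__795_57, e0_255__795_58, e0_255__795_59, e0_255__795_60], by decide +kernel, by decide +kernel⟩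
def e0_255__858_0 : Ent 5 := ⟨[a0, a255], [a858, a17], (M a341 (F (T t3 (L l1654 (T t0 (L l365 (L l2022 (T t1 (L l1654 (T t2 (K a256 (M a1008 (F (T t697 (L l1654 (T t698 N))))) (K a768 (M a64 (F (T t417 (L l2295 (T t15 (L l1654 (L l2036 (T t8 N)))))))) (K a85 (M a192 (L l365 (F (T t9 (T t10 (L l347 (T t11 (K a153 (M a221 (F (T t12 (L l341 (T t78 N))))) (K a221 (M a153 (F (T t12 (L l243 (L l347 (T t11 (T t10 N))))))) N))))))))) (K a597 (M a64 (F (T t14 (L l2511 (T t15 (L l1184 (T t16 N))))))) (K a853 (Fr a682 a1023 l3116 (Fr a170 a85 l476 (Fr a426 a938 l2598 (Fr a768 a597 l3375 (V t402))))) (K a170 (M a192 (F (T t18 (L l2598 (T t10 (L l220 (T t11 N))))))) (K a426 (M a192 (F (T t9 (L l365 (T t19 (L l2598 (T t10 N))))))) (K a682 (M a64 (F (L l2684 (T t20 (L l1654 (L l2598 (T t8 (L l2598 (L l2684 (T t15 (L l2684 (T t21 N)))))))))))) (K a1023 (M a64 (F (T t6 (L l1993 (T t20 (L l1654 (L l1993 (L l2036 (T t8 N)))))))))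 N)))))))))))))))))))⟩
def e0_255__858_1 : Ent 5 := ⟨[a0, a255], [a858, a27], (M a192 (F (T t19 (T t23 (T t22 (T t24 (K a64 (M a240 (F (T t79 (L l73 (L l144 (T t80 (T t81 N))))))) (K a128 (M a240 (F (T t79 (L l73 (T t80 (L l192 (L l220 (T t81 N)))))))) (K a85 (M a768 (F (T t28 (L l347 (L l2339 (T t29 (L l347 (L l2339 (T t30 N))))))))) (K a149 (M a768 (F (T t31 (L l347 (T t29 (T t32 N)))))) (K a213 (M a768 (F (T t31 (L l3203 (T t32 (L l1654 (T t33 N))))))) (K a106 (M a768 (F (T t35 (T t29 (T t32 N))))) (K a170 (M a768 (F (T t31 (T t29 (L l220 (T t30 N)))))) (K a234 (M a768 (F (T t31 (T t32 (L l390 (L l1654 (L l3246 (T t33 N)))))))) (K a63 (M a768 (F (T t74 (L l3159 (T t35 (L l2209 (T t29 N))))))) N)))))))))))))))⟩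
def e0_255__858_2 : Ent 5 := ⟨[a0, a255], [a858, a39], (M a192 (F (T t19 (T t23 (T t22 (T t24 (K a64 (M a240 (F (T t79 (L l73 (L l144 (T t80 (T t81 N))))))) (K a128 (M a240 (F (T t79 (L l73 (T t80 (L l192 (L l220 (T t81 N)))))))) (K a85 (M a768 (F (T t28 (L l347 (L l2339 (T t29 (L l347 (L l2339 (T t30 N))))))))) (K a149 (M a768 (F (T t31 (L l347 (T t29 (T t32 N)))))) (K a213 (M a768 (F (T t31 (L l3203 (T t32 (L l1654 (T t33 N))))))) (K a106 (M a768 (F (T t35 (T t29 (T t32 N))))) (K a170 (M a768 (F (T t31 (T t29 (L l220 (T t30 N)))))) (K a234 (M a768 (F (T t31 (T t32 (L l390 (L l1654 (L l3246 (T t33 N)))))))) (K a63 (M a768 (F (T t74 (L l3159 (T t35 (L l2209 (T t29 N))))))) N)))))))))))))))⟩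
def e0_255__858_3 : Ent 5 := ⟨[a0, a255], [a858, a51], (M a192 (F (T t46 (L l37 (T t19 (L l37 (T t23 (L l37 (T t22 (L l37 (T t24 (K a64 (M a240 (F (T t84 (L l73 (L l144 (T t80 (T t81 N))))))) (K a128 (M a240 (F (T t406 (L l511 (T t304 (L l192 (L l220 (T t81 N)))))))) (K a85 (M a768 (F (T t85 (L l3129 (T t35 (L l347 (L l2339 (T t30 N)))))))) (K a149 (M a768 (F (T t85 (L l3129 (T t35 (L l3079 (T t32 N))))))) (K a213 (M a768 (F (T t62 (L l3079 (L l3203 (T t32 (L l1654 (T t33 N)))))))) (K a106 (M a768 (F (T t42 (L l3129 (T t35 (L l3079 (T t32 N))))))) (K a170 (M a768 (F (T t42 (L l3129 (T t35 (L l220 (T t30 N))))))) (K a234 (M a768 (F (T t38 (L l3129 (T t35 (L l390 (L l1654 (L l3246 (T t33 N))))))))) (K a63 (M a768 (L l37 (F (T t38 (L l3129 (L l3159 (T t35 (L l2209 (L l2215 (T t29 (K a55 (M a59 (F (T t74 (L l2209 (L l2215 (T t48 (L l3129 (L l3159 (T t86 N))))))))) (K a59 (M a55 (F (T t74 (L l2209 (L l2215 (T t48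 (L l3129 (L l3159 (T t86 N))))))))) N)))))))))))) N))))))))))))))))))))⟩
def e0_255__858_4 : Ent 5 := ⟨[a0, a255], [a858, a102], (M a341 (F (T t3 (L l402 (L l1654 (T t0 (L l126 (L l2022 (T t1 (L l402 (L l1654 (T t2 (K a256 (M a1008 (F (T t697 (L l402 (L l1654 (T t698 N)))))) (K a768 (M a64 (F (T t7 (L l402 (L l2295 (T t15 (L l402 (L l1654 (L l2036 (T t8 N)))))))))) (K a85 (M a48 (L l126 (F (T t87 (T t88 (L l123 (T t89 (K a68 (M a119 (F (T t418 (L l122 (T t91 N))))) (K a119 (M a68 (F (T t87 (L l365 (L l2413 (T t131 N)))))) N))))))))) (K a597 (M a64 (F (T t92 (L l402 (L l2511 (T t15 (L l102 (L l402 (L l1184 (T t16 N)))))))))) (K a853 (Fr a682 a1023 l3116 (Fr a170 a85 l476 (Fr a426 a938 l2598 (Fr a768 a597 l3375 (V t402))))) (K a170 (M a192 (L l402 (F (T t18 (L l2598 (T t10 (L l220 (T t11 (K a34 (M a238 (F (T t107 (L l378 (T t132 N))))) (K a238 (M a34 (F (L l2820 (T t133 (L l220 (T t11 N)))))) N)))))))))) (K a426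 (M a192 (F (T t9 (L l126 (T t19 (L l2598 (T t10 N))))))) (K a682 (M a64 (F (L l2684 (T t20 (L l402 (L l1654 (L l2598 (T t8 (L l402 (L l2598 (L l2684 (T t15 (L l2684 (T t21 N)))))))))))))) (K a1023 (M a64 (F (L l402 (T t73 (L l1993 (T t20 (L l402 (L l1654 (L l1993 (L l2036 (T t8 N))))))))))) N)))))))))))))))))))))⟩
def e0_255__858_5 : Ent 5 := ⟨[a0, a255], [a858, a119], (M a192 (F (T t23 (L l126 (T t19 (L l126 (T t22 (L l113 (T t24 (K a64 (M a240 (F (T t79 (L l126 (L l144 (T t80 (T t81 N))))))) (K a128 (M a240 (F (T t79 (L l126 (T t80 (L l192 (L l220 (T t81 N)))))))) (K a85 (M a768 (L l126 (F (T t28 (L l347 (L l2339 (L l2487 (T t29 (L l347 (L l2339 (L l2487 (T t30 (K a68 (M a102 (F (T t35 (L l347 (L l2339 (L l2487 (T t29 (L l80 (L l144 (T t36 N)))))))))) (K a102 (M a68 (F (T t35 (L l365 (L l2339 (L l2487 (T t134 N))))))) N)))))))))))))) (K a149 (M a768 (F (T t31 (L l347 (L l2487 (T t29 (L l2487 (T t32 N))))))))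 (K a213 (M a768 (F (T t31 (L l2487 (L l3203 (T t32 (L l1654 (T t33 N)))))))) (K a106 (M a768 (F (T t28 (L l2487 (T t29 (L l2487 (T t32 N))))))) (K a170 (M a768 (F (T t31 (L l2487 (T t29 (L l220 (L l2487 (T t30 N)))))))) (K a234 (M a768 (F (T t31 (L l2487 (T t32 (L l390 (L l1654 (L l3246 (T t33 N))))))))) (K a63 (M a768 (F (T t49 (L l3159 (T t35 (L l2487 (L l3073 (T t32 N)))))))) N))))))))))))))))))⟩
def e0_255__858_6 : Ent 5 := ⟨[a0, a255], [a858, a273], (M a204 (F (T t158 (T t184 (T t190 (L l2117 (T t191 (K a68 (M a192 (F (T t192 (L l126 (T t19 (L l126 (T t193 N))))))) (K a136 (M a192 (F (T t192 (T t19 (L l316 (T t193 N)))))) (K a85 (M a768 (F (T t340 (L l365 (L l2339 (T t686 (L l365 (L l2339 (T t687 N))))))))) (K a153 (M a768 (F (T t346 (L l365 (T t686 (T t32 N)))))) (K a221 (M a768 (F (T t340 (L l3227 (T t32 (L l365 (L l2022 (L l3227 (T t341 N))))))))) (K a102 (M a768 (F (T t340 (T t686 (T t32 N))))) (K a170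 (M a768 (F (T t342 (T t686 (L l208 (T t687 N)))))) (K a238 (M a768 (F (T t340 (T t32 (L l2022 (T t341 N)))))) (K a51 (M a341 (F (T t205 (L l1654 (T t99 N))))) N))))))))))))))))⟩
def e0_255__858_7 : Ent 5 := ⟨[a0, a255], [a858, a283], (M a192 (F (T t19 (T t23 (T t22 (T t24 (K a64 (M a240 (F (T t79 (L l144 (L l2257 (T t80 (T t81 N))))))) (K a128 (M a240 (F (T t79 (L l2257 (T t80 (L l192 (L l220 (T t81 N)))))))) (K a85 (M a768 (F (T t28 (L l347 (L l2339 (T t29 (L l347 (L l2339 (T t30 N))))))))) (K a149 (M a768 (F (T t31 (L l347 (T t29 (T t32 N)))))) (K a213 (M a768 (F (T t31 (L l3203 (T t32 (L l1654 (T t33 N))))))) (K a106 (M a768 (F (T t35 (T t29 (T t32 N))))) (K a170 (M a768 (F (T t31 (T t29 (L l220 (T t30 N)))))) (K a234 (M a768 (F (T t31 (T t32 (L l390 (L l1654 (L l3246 (T t33 N)))))))) (K a63 (M a768 (F (T t74 (L l3159 (T t35 (L l2209 (T t29 N))))))) N)))))))))))))))⟩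
def e0_255__858_8 : Ent 5 := ⟨[a0, a255], [a858, a290], (M a192 (F (T t19 (T t23 (T t22 (T t24 (K a64 (M a240 (F (T t79 (L l144 (T t80 (T t81 N)))))) (K a128 (M a240 (F (T t79 (T t80 (L l192 (L l220 (T t81 N))))))) (K a85 (M a768 (F (T t86 (L l347 (L l2339 (T t29 (L l347 (L l2339 (T t30 N))))))))) (K a149 (M a768 (F (T t31 (L l347 (T t29 (T t32 N)))))) (K a213 (M a768 (F (T t31 (L l3203 (T t32 (L l922 (L l1654 (T t33 N)))))))) (K a106 (M a768 (F (T t86 (T t29 (T t32 N))))) (K a170 (M a768 (F (T t31 (T t29 (L l220 (T t30 N)))))) (K a234 (M a768 (F (T t31 (T t32 (L l390 (L l922 (L l1654 (L l3246 (T t33 N))))))))) (K a63 (M a768 (F (T t38 (L l3159 (T t35 (L l2209 (T t29 N))))))) N)))))))))))))))⟩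
def e0_255__858_9 : Ent 5 := ⟨[a0, a255], [a858, a295], (M a192 (F (T t19 (T t23 (T t22 (T t24 (K a64 (M a240 (F (T t79 (L l144 (T t80 (T t81 N)))))) (K a128 (M a240 (F (T t79 (T t80 (L l192 (L l220 (T t81 N))))))) (K a85 (M a768 (F (T t28 (L l347 (L l2339 (T t29 (L l347 (L l2339 (T t30 N))))))))) (K a149 (M a768 (F (T t31 (L l347 (T t29 (T t32 N)))))) (K a213 (M a768 (F (T t31 (L l3203 (T t32 (L l1654 (T t33 N))))))) (K a106 (M a768 (F (T t35 (T t29 (T t32 N))))) (K a170 (M a768 (F (T t31 (T t29 (L l220 (T t30 N)))))) (K a234 (M a768 (F (T t31 (T t32 (L l390 (L l1654 (L l3246 (T t33 N)))))))) (K a63 (M a768 (F (T t74 (L l3159 (T t35 (L l2209 (T t29 N))))))) N)))))))))))))))⟩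
def e0_255__858_10 : Ent 5 := ⟨[a0, a255], [a858, a307], (M a192 (F (T t19 (T t23 (T t22 (T t24 (K a64 (M a240 (F (T t79 (L l144 (T t80 (T t81 N)))))) (K a128 (M a240 (F (T t79 (T t80 (L l192 (L l220 (T t81 N))))))) (K a85 (M a768 (F (T t86 (L l347 (L l2339 (T t29 (L l347 (L l2339 (T t30 N))))))))) (K a149 (M a768 (F (T t31 (L l347 (T t29 (L l959 (T t32 N))))))) (K a213 (M a768 (F (T t31 (L l959 (L l3203 (T t32 (L l1654 (T t33 N)))))))) (K a106 (M a768 (F (T t86 (T t29 (L l959 (T t32 N)))))) (K a170 (M a768 (F (T t31 (T t29 (L l220 (T t30 N)))))) (K a234 (M a768 (F (T t31 (L l959 (T t32 (L l390 (L l1654 (L l3246 (T t33 N))))))))) (K a63 (M a768 (F (T t85 (L l1009 (L l3159 (T t35 (L l959 (L l3073 (T t32 N))))))))) N)))))))))))))))⟩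
def e0_255__858_11 : Ent 5 := ⟨[a0, a255], [a858, a358], (M a192 (F (T t19 (T t23 (T t22 (T t24 (K a64 (M a240 (F (T t79 (L l144 (T t80 (T t81 N)))))) (K a128 (M a240 (F (T t79 (T t80 (L l192 (L l220 (T t81 N))))))) (K a85 (M a768 (F (T t28 (L l347 (L l2339 (L l2487 (T t29 (L l347 (L l2339 (L l2487 (T t30 N))))))))))) (K a149 (M a768 (F (T t31 (L l347 (L l2487 (T t29 (L l2487 (T t32 N)))))))) (K a213 (M a768 (F (T t31 (L l2487 (L l3203 (T t32 (L l922 (L l1654 (T t33 N))))))))) (K a106 (M a768 (F (T t35 (L l2487 (T t29 (L l2487 (T t32 N))))))) (K a170 (M a768 (F (T t31 (L l2487 (T t29 (L l220 (L l2487 (T t30 N)))))))) (K a234 (M a768 (F (T t31 (L l2487 (T t32 (L l390 (L l922 (L l1654 (L l3246 (T t33 N)))))))))) (K a63 (M a768 (F (T t57 (L l2209 (L l2487 (T t29 (L l2487 (L l3073 (T t32 N))))))))) N)))))))))))))))⟩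
def e0_255__858_12 : Ent 5 := ⟨[a0, a255], [a858, a370], (M a192 (F (T t19 (T t23 (T t22 (T t24 (K a64 (M a240 (F (T t79 (L l144 (T t80 (T t81 N)))))) (K a128 (M a240 (F (T t79 (T t80 (L l192 (L l220 (T t81 N))))))) (K a85 (M a768 (F (T t28 (L l347 (L l2339 (T t29 (L l347 (L l2339 (T t30 N))))))))) (K a149 (M a768 (F (T t31 (L l347 (T t29 (T t32 N)))))) (K a213 (M a768 (F (T t31 (L l3203 (T t32 (L l1654 (T t33 N))))))) (K a106 (M a768 (F (T t35 (T t29 (T t32 N))))) (K a170 (M a768 (F (T t31 (T t29 (L l220 (T t30 N)))))) (K a234 (M a768 (F (T t31 (T t32 (L l390 (L l1654 (L l3246 (T t33 N)))))))) (K a63 (M a768 (F (T t74 (L l3159 (T t35 (L l2209 (T t29 N))))))) N)))))))))))))))⟩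
def e0_255__858_13 : Ent 5 := ⟨[a0, a255], [a858, a375], (M a192 (F (T t19 (T t23 (T t22 (T t24 (K a64 (M a240 (F (T t79 (L l144 (T t80 (T t81 N)))))) (K a128 (M a240 (F (T t79 (T t80 (L l192 (L l220 (T t81 N))))))) (K a85 (M a768 (F (T t28 (L l347 (L l2339 (T t29 (L l347 (L l2339 (L l2431 (T t30 N)))))))))) (K a149 (M a768 (F (T t31 (L l347 (T t29 (L l959 (L l3079 (T t32 N)))))))) (K a213 (M a768 (F (T t31 (L l959 (L l3079 (L l3203 (T t32 (L l1654 (T t33 N))))))))) (K a106 (M a768 (F (T t28 (T t29 (L l959 (L l3079 (T t32 N))))))) (K a170 (M a768 (F (T t31 (T t29 (L l220 (L l2431 (T t30 N))))))) (K a234 (M a768 (F (T t31 (L l959 (L l3079 (T t32 (L l390 (L l1654 (L l3246 (T t33 N)))))))))) (K a63 (M a768 (F (T t49 (L l3159 (T t35 (L l959 (L l3073 (L l3079 (T t32 N))))))))) N)))))))))))))))⟩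
def e0_255__858_14 : Ent 5 := ⟨[a0, a255], [a858, a433], (M a192 (F (T t19 (T t23 (T t22 (T t24 (K a64 (M a240 (F (T t79 (L l144 (T t80 (T t81 N)))))) (K a128 (M a240 (F (T t79 (T t80 (L l192 (L l220 (T t81 N))))))) (K a85 (M a768 (F (T t28 (L l347 (L l2339 (T t29 (L l347 (L l2339 (T t30 N))))))))) (K a149 (M a768 (F (T t31 (L l347 (T t29 (T t32 N)))))) (K a213 (M a768 (F (T t31 (L l3203 (T t32 (L l1654 (T t33 N))))))) (K a106 (M a768 (F (T t35 (T t29 (T t32 N))))) (K a170 (M a768 (F (T t31 (T t29 (L l220 (T t30 N)))))) (K a234 (M a768 (F (T t31 (T t32 (L l390 (L l1654 (L l3246 (T t33 N)))))))) (K a63 (M a768 (F (T t74 (L l3159 (T t35 (L l2209 (T t29 N))))))) N)))))))))))))))⟩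
def e0_255__858_15 : Ent 5 := ⟨[a0, a255], [a858, a443], (M a192 (F (T t19 (T t23 (L l2653 (T t22 (T t24 (K a64 (M a240 (F (T t79 (L l144 (T t80 (T t81 N)))))) (K a128 (M a240 (F (T t79 (T t80 (L l192 (L l220 (T t81 N))))))) (K a85 (M a768 (F (T t28 (L l347 (L l2339 (T t29 (L l347 (L l2339 (T t30 N))))))))) (K a149 (M a768 (F (T t31 (L l347 (T t29 (L l959 (T t32 N))))))) (K a213 (M a768 (F (T t31 (L l959 (L l3203 (T t32 (L l728 (L l1654 (T t33 N))))))))) (K a106 (M a768 (F (T t35 (T t29 (L l959 (T t32 N)))))) (K a170 (M a768 (F (T t31 (T t29 (L l220 (T t30 N)))))) (K a234 (M a768 (F (T t31 (L l959 (T t32 (L l390 (L l728 (L l1654 (L l3246 (T t33 N)))))))))) (K a63 (M a768 (F (T t42 (L l3159 (T t35 (L l959 (L l3073 (T t32 N)))))))) N))))))))))))))))⟩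
def e0_255__858_16 : Ent 5 := ⟨[a0, a255], [a858, a785], (M a192 (F (T t19 (T t23 (T t22 (T t24 (K a64 (M a240 (F (T t79 (L l144 (T t80 (T t81 N)))))) (K a128 (M a240 (F (T t79 (T t80 (L l192 (L l220 (T t81 N))))))) (K a85 (M a768 (F (T t28 (L l347 (L l2339 (L l3227 (T t29 (L l347 (L l2339 (L l3227 (T t30 N))))))))))) (K a149 (M a768 (F (T t31 (L l347 (L l3227 (T t29 (L l3227 (T t32 N)))))))) (K a213 (M a768 (F (T t31 (L l3203 (L l3227 (T t32 (L l1654 (L l1925 (T t33 N))))))))) (K a106 (M a768 (F (T t35 (L l3227 (T t29 (L l3227 (T t32 N))))))) (K a170 (M a768 (F (T t31 (L l3227 (T t29 (L l220 (L l3227 (T t30 N)))))))) (K a234 (M a768 (F (T t31 (L l3227 (T t32 (L l390 (L l1654 (L l1925 (L l3246 (T t33 N)))))))))) (K a63 (M a768 (F (T t74 (L l3159 (T t35 (L l2209 (L l3227 (T t29 N)))))))) N)))))))))))))))⟩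
def e0_255__858_17 : Ent 5 := ⟨[a0, a255], [a858, a795], (M a768 (L l1917 (F (T t32 (L l2022 (T t39 (T t40 (L l1654 (T t41 (K a256 (M a192 (L l1917 (F (T t23 (T t29 (L l824 (L l996 (L l1654 (T t33 (K a984 (M a921 (F (T t240 (T t24 (L l2022 (T t44 N)))))) (K a921 (M a984 (F (T t240 (T t24 (L l1768 (L l2022 (T t44 N))))))) N))))))))))) (K a512 (M a192 (L l1917 (F (T t23 (L l1516 (T t29 (L l1654 (T t33 (K a984 (M a921 (F (T t245 (T t24 (L l1344 (L l1516 (L l2022 (T t44 N)))))))) (K a921 (M a984 (F (T t245 (T t24 (L l1344 (L l1516 (L l1768 (L l2022 (T t44 N))))))))) N)))))))))) (K a85 (M a972 (L l1917 (F (T t608 (L l2339 (T t609 (L l2339 (T t610 (K a984 (M a921 (F (T t611 (T t612 N)))) (K a921 (M a984 (F (T t613 (L l94 (T t614 N))))) N)))))))))) (K a341 (M a1008 (L l1917 (F (T t615 (L l2339 (T t616 (L l614 (L l996 (T t617 (K a984 (M a921 (F (T t615 (L l1654 (L l2339 (T t618 (L l614 (L l996 (T t617 N))))))))) (K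 a921 (M a984 (F (T t615 (L l2339 (T t619 N))))) N))))))))))) (K a597 (M a192 (L l1917 (F (T t23 (L l1184 (L l1516 (T t35 (L l1184 (L l1516 (L l2339 (L l3203 (T t58 (L l2511 (T t59 (K a984 (M a921 (F (T t28 (L l2339 (T t22 (L l1184 (L l1516 (L l2339 (L l3203 (T t58 (L l2511 (T t59 N)))))))))))) (K a921 (M a984 (F (T t28 (L l2339 (T t22 (L l1184 (L l1516 (L l2339 (L l3203 (T t58 (L l2511 (T t59 N)))))))))))) N)))))))))))))))) (K a170 (M a972 (L l1917 (F (T t620 (T t609 (T t610 (K a984 (M a921 (F (T t611 (T t610 N)))) (K a921 (M a984 (F (T t609 (T t614 N)))) N)))))))) (K a426 (M a192 (L l1917 (F (T t35 (T t19 (L l2727 (T t58 (L l740 (L l996 (L l2598 (L l3246 (T t59 (K a984 (M a921 (F (T t35 (L l2598 (T t24 (L l2727 (T t58 (L l740 (L l996 (L l2598 (L l3246 (T t59 N)))))))))))) (K a921 (M a984 (F (T t35 (L l2598 (T t24 (L l2727 (T t58 (L l740 (L l996 (L l2598 (L l3246 (T t59 N)))))))))))) N)))))))))))))) (K a682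 (M a1008 (L l1917 (F (T t621 (L l2598 (T t622 (L l1220 (L l1516 (T t623 (K a984 (M a921 (F (T t621 (L l2598 (T t624 (L l1220 (L l1516 (T t623 N)))))))) (K a921 (M a984 (F (T t621 (L l1768 (L l2598 (T t625 N)))))) N))))))))))) (K a1023 (M a1008 (L l1917 (F (T t626 (L l2864 (T t627 (L l3109 (T t623 (K a984 (M a921 (F (T t628 (L l3109 (T t624 (L l3109 (T t623 N))))))) (K a921 (M a984 (F (T t629 (L l3079 (T t619 N))))) N)))))))))) (K a984 (M a921 (F (T t32 (T t630 (L l1708 (T t631 (T t632 (T t633 (K a341 (M a64 (F (T t15 (T t67 (L l664 (L l996 (T t68 N))))))) (K a597 (M a938 (F (L l2339 (T t634 (L l2487 (T t635 N)))))) (K a426 (M a853 (F (L l2598 (T t636 (L l3264 (T t637 N)))))) (K a682 (M a128 (F (T t198 (T t71 (L l1260 (L l1516 (T t72 N))))))) N)))))))))))) (K a921 (M a984 (F (T t32 (L l1768 (L l2022 (T t39 (T t40 (L l1654 (L l1925 (T t41 (K a256 (M a192 (F (T t240 (T t24 (L l1768 (L l2022 (T t44 N))))))) (K a512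 (M a192 (F (T t245 (T t24 (L l1344 (L l1516 (L l1768 (L l2022 (T t44 N))))))))) (K a85 (M a1008 (F (T t624 (T t638 N)))) (K a341 (M a1008 (F (T t615 (L l2339 (T t619 N))))) (K a597 (M a192 (F (T t28 (L l2339 (T t22 (L l1184 (L l1516 (L l2339 (L l3203 (T t58 (L l2511 (T t59 N)))))))))))) (K a170 (M a1008 (F (T t616 (L l208 (T t638 N))))) (K a426 (M a592 (F (L l700 (T t639 (L l996 (T t640 (L l996 (L l1654 (L l2043 (L l2598 (T t641 N))))))))))) (K a682 (M a1008 (F (T t621 (L l1768 (L l2598 (T t625 N)))))) (K a1023 (M a1008 (F (T t629 (L l3079 (T t619 N))))) N))))))))))))))))))) N))))))))))))))))))))⟩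
def e0_255__858_18 : Ent 5 := ⟨[a0, a255], [a858, a807], (M a192 (F (T t19 (T t23 (T t22 (T t24 (K a64 (M a240 (F (T t79 (L l144 (T t80 (T t81 N)))))) (K a128 (M a240 (F (T t79 (T t80 (L l192 (L l220 (T t81 N))))))) (K a85 (M a768 (F (T t28 (L l347 (L l2339 (T t29 (L l347 (L l2339 (T t30 N))))))))) (K a149 (M a768 (F (T t31 (L l347 (T t29 (T t32 N)))))) (K a213 (M a768 (F (T t31 (L l3203 (T t32 (L l1654 (T t33 N))))))) (K a106 (M a768 (F (T t35 (T t29 (T t32 N))))) (K a170 (M a768 (F (T t31 (T t29 (L l220 (T t30 N)))))) (K a234 (M a768 (F (T t31 (T t32 (L l390 (L l1654 (L l3246 (T t33 N)))))))) (K a63 (M a768 (F (T t74 (L l3159 (T t35 (L l2209 (T t29 N))))))) N)))))))))))))))⟩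
def e0_255__858_19 : Ent 5 := ⟨[a0, a255], [a858, a819], (M a192 (F (T t46 (L l2221 (T t19 (L l2221 (T t23 (L l2221 (T t22 (L l2221 (T t24 (K a64 (M a240 (F (T t84 (L l144 (L l2257 (T t80 (T t81 N))))))) (K a128 (M a240 (F (T t406 (L l3337 (T t304 (L l192 (L l220 (T t81 N)))))))) (K a85 (M a768 (F (T t85 (L l2049 (T t35 (L l347 (L l2339 (T t30 N)))))))) (K a149 (M a768 (F (T t85 (L l2049 (T t35 (L l1999 (T t32 N))))))) (K a213 (M a768 (F (T t62 (L l1999 (L l3203 (T t32 (L l1654 (T t33 N)))))))) (K a106 (M a768 (F (T t42 (L l2049 (T t35 (L l1999 (T t32 N))))))) (K a170 (M a768 (F (T t42 (L l2049 (T t35 (L l220 (T t30 N))))))) (K a234 (M a768 (F (T t38 (L l2049 (T t35 (L l390 (L l1654 (L l3246 (T t33 N))))))))) (K a63 (M a768 (L l2221 (F (T t38 (L l2049 (L l3159 (T t35 (L l1597 (L l2209 (T t29 (K a567 (M a315 (F (T t74 (L l1597 (L l2209 (T t48 (L l2049 (L l3159 (T t86 N))))))))) (K a315 (M a567 (F (T t74 (L l1597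 (L l2209 (T t48 (L l2049 (L l3159 (T t86 N))))))))) N)))))))))))) N))))))))))))))))))))⟩
def e0_255__858_20 : Ent 5 := ⟨[a0, a255], [a858, a870], (M a240 (L l1708 (F (T t140 (T t80 (T t26 (T t207 (K a80 (M a192 (L l1708 (F (T t79 (L l94 (T t19 (L l94 (T t549 (K a882 (M a846 (F (T t386 (T t23 (L l94 (T t549 N)))))) (K a846 (M a882 (F (T t386 (T t23 (L l94 (T t549 N)))))) N)))))))))) (K a160 (M a192 (L l1708 (F (T t79 (T t19 (L l376 (T t549 (K a882 (M a846 (F (T t25 (L l180 (T t23 (L l376 (T t549 N))))))) (K a846 (M a882 (F (T t25 (L l180 (T t23 (L l376 (T t549 N))))))) N))))))))) (K a85 (M a602 (L l1708 (F (T t741 (L l455 (L l2022 (T t590 (L l455 (L l1654 (L l2022 (T t593 (K a882 (M a846 (F (T t742 (L l455 (L l1654 (L l2022 (T t599 N))))))) (K a846 (M a882 (F (T t741 (L l1887 (L l2043 (T t743 (L l455 (L l1654 (L l2022 (T t599 N)))))))))) N))))))))))))) (K a165 (M a768 (L l1708 (F (T t40 (L l2043 (T t556 (L l455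 (L l2022 (L l2043 (T t551 (K a882 (M a846 (F (T t32 (L l2043 (T t744 (L l1977 (L l2043 (T t647 N)))))))) (K a846 (M a882 (F (T t32 (L l1887 (L l2043 (T t744 (L l2043 (T t647 N)))))))) N)))))))))))) (K a245 (M a768 (L l1708 (F (T t40 (L l2043 (T t556 (L l1654 (L l1686 (T t554 (K a882 (M a846 (F (T t40 (L l1977 (L l2043 (T t647 (L l455 (L l1962 (L l2022 (L l3347 (T t745 N))))))))))) (K a846 (M a882 (F (T t40 (L l2043 (T t647 (L l455 (L l1962 (L l2022 (L l3347 (T t745 N)))))))))) N))))))))))) (K a90 (M a602 (L l1708 (F (T t746 (L l1654 (T t592 (L l1654 (L l2022 (T t593 (K a882 (M a846 (F (T t742 (L l1654 (L l2022 (T t599 N)))))) (K a846 (M a882 (F (T t741 (L l462 (L l1887 (L l2043 (T t743 (L l1654 (L l2022 (T t599 N)))))))))) N))))))))))) (K a170 (M a602 (L l1708 (F (T t746 (L l180 (L l1654 (T t592 (L l180 (L l1654 (L l2022 (T t593 (K a882 (M a846 (F (T t742 (L l180 (L l1654 (L l2022 (T t599 N))))))) (K a846 (M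 a882 (F (T t741 (L l1887 (L l2022 (L l2043 (T t747 (L l180 (L l1654 (L l2022 (T t599 N))))))))))) N))))))))))))) (K a250 (M a768 (L l1708 (F (T t32 (L l2043 (T t556 (L l462 (L l1654 (L l1686 (L l3354 (T t554 (K a882 (M a846 (F (T t32 (L l1977 (L l2043 (T t647 (L l1962 (L l2022 (T t745 N))))))))) (K a846 (M a882 (F (T t32 (L l2043 (T t647 (L l1962 (L l2022 (T t745 N)))))))) N))))))))))))) (K a15 (M a768 (L l1708 (F (T t74 (L l2043 (L l3123 (T t556 (L l2022 (L l2043 (L l2101 (T t551 (K a882 (M a846 (F (T t38 (L l2043 (L l2101 (T t744 (L l1977 (L l2043 (L l3123 (T t647 N)))))))))) (K a846 (M a882 (F (T t38 (L l1887 (L l2043 (L l2101 (T t744 (L l2043 (L l3123 (T t647 N)))))))))) N))))))))))))) (K a882 (M a846 (F (T t140 (T t80 (T t26 (T t207 (K a80 (M a192 (F (T t386 (T t23 (L l94 (T t549 N)))))) (K a160 (M a192 (F (T t25 (L l180 (T t23 (L l376 (T t549 N))))))) (K a85 (M a602 (F (T t742 (L l455 (L l1654 (L l2022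 (T t599 N))))))) (K a165 (M a768 (F (T t32 (L l2043 (T t744 (L l1977 (L l2043 (T t647 N)))))))) (K a245 (M a768 (F (T t40 (L l1977 (L l2043 (T t647 (L l455 (L l1962 (L l2022 (L l3347 (T t745 N))))))))))) (K a90 (M a602 (F (T t742 (L l1654 (L l2022 (T t599 N)))))) (K a170 (M a602 (F (T t742 (L l180 (L l1654 (L l2022 (T t599 N))))))) (K a250 (M a768 (F (T t32 (L l1977 (L l2043 (T t647 (L l1962 (L l2022 (T t745 N))))))))) (K a15 (M a768 (F (T t38 (L l2043 (L l2101 (T t744 (L l1977 (L l2043 (L l3123 (T t647 N)))))))))) N))))))))))))))) (K a846 (M a882 (F (T t140 (T t80 (T t26 (T t207 (K a80 (M a192 (F (T t386 (T t23 (L l94 (T t549 N)))))) (K a160 (M a192 (F (T t25 (L l180 (T t23 (L l376 (T t549 N))))))) (K a85 (M a768 (F (T t558 (T t748 (L l455 (L l1654 (L l2022 (L l2339 (T t552 N))))))))) (K a165 (M a768 (F (T t32 (L l1887 (L l2043 (T t744 (L l2043 (T t647 N)))))))) (K a245 (M a768 (F (T t40 (L l2043 (T t647 (L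 l455 (L l1962 (L l2022 (L l3347 (T t745 N)))))))))) (K a90 (M a602 (F (T t741 (L l462 (L l1887 (L l2043 (T t743 (L l1654 (L l2022 (T t599 N)))))))))) (K a170 (M a768 (F (T t560 (L l180 (T t748 (L l180 (L l1654 (L l2022 (T t552 N))))))))) (K a250 (M a768 (F (T t32 (L l2043 (T t647 (L l1962 (L l2022 (T t745 N)))))))) (K a15 (M a768 (F (T t38 (L l1887 (L l2043 (L l2101 (T t744 (L l2043 (L l3123 (T t647 N)))))))))) N))))))))))))))) N))))))))))))))))))⟩
def e0_255__858_21 : Ent 5 := ⟨[a0, a255], [a858, a887], (M a192 (F (T t19 (T t23 (T t22 (T t24 (K a64 (M a240 (F (T t79 (L l144 (T t80 (T t81 N)))))) (K a128 (M a240 (F (T t79 (T t80 (L l192 (L l220 (T t81 N))))))) (K a85 (M a768 (F (T t28 (L l347 (L l2339 (T t29 (L l347 (L l1673 (L l2339 (T t30 N)))))))))) (K a149 (M a768 (F (T t31 (L l347 (T t29 (L l1999 (T t32 N))))))) (K a213 (M a768 (F (T t31 (L l1999 (L l3203 (T t32 (L l1654 (L l1686 (T t33 N))))))))) (K a106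 (M a768 (F (T t28 (T t29 (L l1999 (T t32 N)))))) (K a170 (M a768 (F (T t31 (T t29 (L l220 (L l1673 (T t30 N))))))) (K a234 (M a768 (F (T t31 (L l1999 (T t32 (L l390 (L l1654 (L l1686 (L l3246 (T t33 N)))))))))) (K a63 (M a768 (F (T t74 (L l3159 (T t35 (L l2209 (T t29 N))))))) N)))))))))))))))⟩
def b0_255__858 : Blk 5 := ⟨[0, 255], [858], [17, 27, 39, 51, 102, 119, 273, 283, 290, 295, 307, 358, 370, 375, 433, 443, 785, 795, 807, 819, 870, 887], [e0_255__858_0, e0_255__858_1, e0_255__858_2, e0_255__858_3, e0_255__858_4, e0_255__858_5, e0_255__858_6, e0_255__858_7, e0_255__858_8, e0_255__858_9, e0_255__858_10, e0_255__858_11, e0_255__858_12, e0_255__858_13, e0_255__858_14, e0_255__858_15, e0_255__858_16, e0_255__858_17, e0_255__858_18, e0_255__858_19, e0_255__858_20, e0_255__858_21], by decide +kernel, by decide +kernel⟩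

end Pool.Agent.Lib_TTT.K5
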